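import Pool.Agent.H551.GP.E93x2

/-! Certificate data. -/

set_option linter.all false
set_option maxRecDepth 100000

namespace Pool.Agent.H551.GP.E93

def c10553 : PP 9 3 T 0x2000000000000000000000000000000000000000008000000000000000000000000000000000000000000000000000000000002000000002000000002 := rS 0x35606883704b42d371b5cfbe21e8fd9ae1aca3dbeff3d9e42a0f68b3cd0650dc46966d1089d0e8554bd5fb014199cb66b55fb25263208182291ce07b6b14 (k8 c3028 c5414 c3029 c9664 c5374 c3026 c10552 c1735 (k8 c9751 c5432 c10544 c5500 c9690 c5474 c663 c5525 (k8 c10537 c1242 c5477 c2319 c5541 c5373 c60 c344 (k8 c666 c5334 c9727 c5475 c1056 c3601 c5543 c5501 (k8 c9737 c507 c5524 c5372 c4937 c4898 c4843 c5559 (k8 c5460 c5537 c10551 c3030 c5655 c1456 c5465 c5466 (k8 c5579 c10517 c5646 c2804 c1226 c1985 c2837 c3627 k0))))))) (by decide +kernel)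
def c10554 : PP 9 3 T 0x8000000000000000000000000000000000000000000000000000000000002000000002000000002 := rS 0x18c394c985363fd878bc29d1d97cc729037ce234bac80cd67b3ce703db58a1b44227 (k8 c60 c344 c666 c3028 c5414 c3029 c9664 c5524 (k8 c5372 c9690 c4015 c5559 c5334 c9727 c5588 c10552 (k8 c5432 c9751 c1451 c1674 c1083 c10553 c5168 c5225 (k4 c5576 c5397 c5445 c5447 (k2 c399 c3598 (k1 c675 k0)))))) (by decide +kernel)
def c10555 : PP 9 3 T 0x1000000000000000000000000000000000000000000000000000000000000000000000000000000000000000000001000000002000000002000000080 := rS 0xc61ca64c29b1fec3c5f388d2eb26b3cca4c65f01a74767bce6d6281e (k8 c3029 c3028 c5414 c9664 c5372 c1674 c1083 c4015 (k8 c1451 c9751 c5432 c5524 c9690 c5559 c5334 c9727 (k8 c5588 c5168 c5225 c5576 c5397 c5445 c5447 c399 (k2 c3598 c675 k0)))) (by decide +kernel)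
def c10556 : PP 9 3 T 0x2000000000000000000000000000000000000000100000000000000000040000000001400000005001404400000000000000000000000 := rS 0x13261 (k2 c5445 c5447 (k1 c3598 k0)) (by decide +kernel)
def c10557 : PP 9 3 T 0x2000000002000000082 := rS 0x6ac0fdd993b9d72492d8e85a6e36bf887a171fb3536e163f813a411d97cc72988d2eb28f6fbfc3203359ed0e7908a47381edac520205368844ed142b3fd93b (k8 c10554 c10544 c5543 c5541 c5501 c60 c344 c666 (k8 c53 c10537 c3028 c5414 c3029 c9664 c5374 c3026 (k8 c5524 c5373 c5372 c9690 c4015 c4039 c4937 c4898 (k8 c4843 c5559 c5334 c9727 c5432 c9751 c1451 c1674 (k8 c1735 c1083 c10555 c5535 c5460 c5536 c5537 c10551 (k8 c10515 c3030 c5655 c5465 c5466 c5579 c10517 c10556 (k8 c5648 c9661 c4186 c5356 c10196 c5219 c5508 c5585 (k1 c3627 k0)))))))) (by decide +kernel)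
def c10558 : PP 9 3 T 0x2000000000000000020000000000000000000000004000000000100000000000000014000000000000000001000000404400000000000000181001042 := rS 0x641d18f7f32c43a9dc6b29c90db62174c1ed0e7902974da6163a7536cd (k8 c5537 c5536 c5458 c5535 c661 c666 c9745 c53 (k8 c5524 c5373 c5372 c10253 c10515 c10556 c2317 c5663 (k8 c5435 c1621 c5356 c5440 c8127 c10196 c5451 c1470 (k2 c9681 c5653 (k1 c5284 k0))))) (by decide +kernel)
def c10559 : PP 9 3 T 0x2000000000000000000000000000000000000000000000000000000000000000000000000000000000000000000000004000002000000002000000002 := rS 0xef1d862353a87067983296766d3f12565208d8059265e1fc46b219069acf6873ca0f381eda90c8ff3a592dfb018a014da2113aada28567c75efec34cec0ec7208ec7ae1 (k8 c5460 c3030 c5456 c511 c5535 c10557 c10554 c9742 (k8 c10544 c5498 c513 c5543 c5541 c5501 c5500 c60 (k8 c344 c666 c53 c3028 c10537 c1242 c192 c5334 (k8 c5588 c157 c10155 c5414 c3029 c9664 c5525 c5524 (k8 c5373 c5372 c9690 c9691 c4039 c5559 c9727 c10551 (k8 c10558 c1517 c1054 c10372 c1055 c5433 c5446 c5655 (k8 c5579 c10496 c9671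 c9670 c5210 c271 c10497 c5482 (k4 c331 c1996 c10196 c5653 (k1 c5493 k0))))))))) (by decide +kernel)
def c10560 : PP 9 3 T 0x2000000000001000002000000000000000100000004000000100100001000000000014000000014000040005401001400000000055005004080000002 := rS 0x69b55ae94f777c6ac922eccec1c3a994d2c7 (k8 c5535 c9742 c5481 c5482 c10497 c10196 c5486 c335 (k8 c2061 c332 c5493 c5658 c5678 c5507 c5585 c2018 (k1 c3588 k0))) (by decide +kernel)
def c10561 : PP 9 3 T 0x2000000000000000000000000000000000000000000000000000000000000000000000000000000000000000000000000000002000000002000000002 := rS 0x7a1606a6454874cf991b8c47e334bca36393310f482cd1cb858e3b88d655a6b439e5079c0f6d48647f9d2c96f37ec06285d368844eab68a159f1d7bfb0d33b (k8 c10554 c9742 c10544 c5498 c513 c5543 c5541 c5501 (k8 c5500 c60 c344 c666 c9745 c3028 c10537 c1242 (k8 c451 c192 c5334 c5588 c157 c10155 c5414 c3029 (k8 c9664 c5525 c5524 c5373 c9690 c4955 c5559 c9727 (k8 c5456 c5535 c5460 c5534 c5537 c511 c3030 c10559 (k8 c5355 c5395 c9753 c1229 c5316 c5318 c5434 c5435 (k8 c10560 c9680 c9681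 c2320 c10497 c10522 c1057 c3587 (k1 c1947 k0)))))))) (by decide +kernel)
def c10562 : PP 9 3 T 0x1000000000000000000000004000000100100001000000000440010000004020000005400001400000000055005002080000002 := rS 0x356a914b0af326c83a69 (k8 c9742 c9681 c5210 c10497 c5406 c1057 c2968 c3000 (k2 c281 c3588 k0)) (by decide +kernel)
def c10563 : PP 9 3 T 0x8000002000000002000000002 := rS 0x6a8d592450e19730d36bb8140e31e8c47e334d3152f28d8c45beb535a1d079c0f6d48647f9d2c96fd80c50da2113aada2858ebdfd8699d907c207 (k8 c10557 c10561 c10545 c10554 c9742 c10544 c5498 c513 (k8 c5541 c5501 c5500 c60 c344 c666 c3028 c10537 (k8 c1242 c192 c5334 c5588 c157 c10155 c5414 c3029 (k8 c9664 c5525 c5373 c9690 c1095 c4898 c9727 c5395 (k8 c9753 c1229 c837 c7600 c5316 c5318 c5434 c5436 (k8 c2621 c1191 c1192 c10298 c3062 c10562 c5481 c10497 (k4 c335 c2061 c332 c3001 (k1 c3588 k0)))))))) (by decide +kernel)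
def c10564 : PP 9 3 T 0x200000000000000000000080000000000000000000000000000000002000000002000000002 := rS 0x18e9b71387c7f388d65be0d3d9e42a0f08a4739b58a4040fe1318fd3a17a588c8e2113a646e1e (k8 c3029 c5435 c2317 c60 c344 c157 c1263 c5334 (k8 c5433 c5855 c5318 c10563 c10561 c10557 c10537 c3028 (k8 c5414 c9664 c5374 c3026 c9737 c507 c5524 c5372 (k8 c9691 c4898 c5559 c9727 c5588 c5579 c3062 c5691 (k2 c1192 c10492 (k1 c10500 k0)))))) (by decide +kernel)
def c10565 : PP 9 3 T 0x10000000000000000000000000000000001000400040002001020000000000000000400000000000000000000000000000000000500000040a0000000 := rS 0x1b14da492c346afb88bb5 (k8 c5414 c335 c5658 c5585 c10432 c332 c331 c4064 (k2 c5444 c7600 k0)) (by decide +kernel)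
def c10566 : PP 9 3 T 0x200000000000000000000000000000000000000000000000000000002000000002000000002 := rS 0x6ad504fbb2445d8abcb1b232075a65f0bc46b26b43a0f381eda90c8ff3a592dfb018a1b4422755a163af7f61a6766120f840e63 (k8 c10563 c10557 c10561 c10545 c661 c10554 c9742 c10544 (k8 c5498 c513 c5541 c5500 c60 c344 c666 c3028 (k8 c10537 c1242 c192 c5334 c5588 c157 c10155 c5414 (k8 c3029 c9664 c5525 c5373 c9690 c5559 c9727 c5433 (k8 c1054 c10564 c10565 c10497 c9670 c1057 c3977 c10496 (k4 c2968 c5663 c5658 c5438 (k2 c5585 c280 (k1 c10432 k0)))))))) (by decide +kernel)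
def c10567 : PP 9 3 T 0x2000000002000000002 := rS 0x4e4c6c9d1c8ed329b49b4c7ed7d878a5241f081e7657f9d2eb221139acf39c0f6d62901 (k8 c10537 c3028 c5414 c3029 c9664 c5524 c9690 c60 (k8 c344 c5559 c5334 c5588 c9758 c10554 c10557 c10561 (k8 c10545 c10566 c5168 c5225 c5465 c5576 c5579 c5444 (k8 c5397 c5447 c10498 c399 c1083 c5654 c10507 c1510 (k1 c5643 k0))))) (by decide +kernel)
def c10568 : PP 9 3 T 0x1000000000000000000000000000000000000000004000100000000000000000000000000000000000000000000000000000002000000002000000000 := rS 0x4bb35521a198748835f7c759e8568aadefec13a3dfe874190c8e4b7ec051b1344b2536954ca746c3b2b64cbdb009ed8fe63399f7401508a4738040080c3c0fdac50723ff17ceb34b (k8 c5334 c5559 c5588 c5168 c5576 c399 c3028 c5414 (k8 c9737 c3029 c4015 c10567 c5642 c9664 c5374 c3026 (k8 c507 c6203 c5566 c9717 c9755 c5577 c5231 c2805 (k8 c5225 c8909 c5439 c10195 c489 c5654 c1083 c5447 (k8 c5446 c5397 c5396 c5567 c5382 c5381 c10537 c1242 (k8 c192 c157 c10155 c5525 c5373 c4937 c4843 c60 (k8 c10538 c5498 c5500 c5501 c5541 c5543 c513 c8783 (k8 c1621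 c5658 c335 c389 c2969 c2320 c2330 c1074 (k1 c3617 k0))))))))) (by decide +kernel)
def c10569 : PP 9 3 T 0x1000000000000000000000000000000000000000000000100000000000000000000000000000000000000000000000000000002000000002000000000 := rS 0x19f328a8e995ee96f633552d155b1766f51886cb65d22ce86c9d1d95b26392f2652a9b649fc7fb0f11c55a231089ce7b6ac90e0247f9d2c96693184c0803469f740010a83c2291ce07b6b14 (k8 c3028 c5414 c3029 c9664 c5374 c3026 c9737 c507 (k8 c10567 c6203 c5566 c5381 c4015 c5642 c2805 c9755 (k8 c9744 c192 c5334 c5588 c157 c10537 c10155 c5559 (k8 c5231 c9717 c60 c344 c1263 c4955 c4953 c5168 (k8 c5225 c5576 c5577 c5396 c5397 c5446 c5447 c8909 (k8 c399 c5439 c10195 c489 c1083 c5654 c10568 c5326 (k8 c5321 c5474 c5475 c5476 c5477 c7601 c836 c7110 (k8 c1481 c2319 c2329 c9222 c8724 c5498 c1127 c513 (k4 c10508 c5366 c737 c5664 k0))))))))) (by decide +kernel)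
def c10570 : PP 9 3 T 0x4000000000000000000000000000000000000100000000000000000000000000010000000000000010010140000140000002000110005 := rS 0xcf99451a51ba0 (k4 c6203 c5381 c9744 c10508 (k2 c5366 c737 (k1 c5664 k0))) (by decide +kernel)
def c10571 : PP 9 3 T 0x20000000000000000000000000000000000000000000000000000000000000005000000000054000141500000000000000000000000000000000000000 := rS 0x1d2a7 (k2 c5470 c5472 (k1 c3621 k0)) (by decide +kernel)
def c10572 : PP 9 3 T 0x14014400000000000000001041100040000000000000000000040054400000000000000000000000000000001400000000000000000000000000000000000 := rS 0xc5c9749f6 (k4 c5206 c5187 c5595 c5390 (k1 c3616 k0)) (by decide +kernel)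
def c10573 : PP 9 3 T 0x40400100000008000004100004000000000000000000000000000000000000000000001400000000000000000000 := rS 0x1f7 (k2 c8941 c5662 k0) (by decide +kernel)
def c10574 : PP 9 3 T 0x4005400000000000000001041100040000000000000008000040154401501040000800000000054005141501400000000000001400000000002000000000 := rS 0x5722c859f0787b7c2fe1e5acebdcee5 (k8 c2625 c1782 c5479 c5559 c10571 c10572 c5629 c5510 (k4 c5512 c5626 c9429 c3624 (k2 c10573 c3195 (k1 c3089 k0)))) (by decide +kernel)
def c10575 : PP 9 3 T 0x1010040000000000000000000040040000000000000000000000120000000000000000054000000000000000000480000820 := rS 0x59f4b1f155dd7e4d (k8 c3216 c1305 c3424 c1088 c976 c9325 c5601 c6187 k0) (by decide +kernel)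
def c10576 : PP 9 3 T 0x1000000000000000000040000000000000000000008000000014000000000000800000000014000000400000000000000000002000000002000000000 := rS 0x3e3e584394ab1bbde25fb27c6c1e0bef42bfd071344a351e87cc9923af72d9748a4325ab4e3dff66cf6d59f9aa5eb014e85d32375586c46471089d46a5f182527b0a5810063d9404cfba0008541e1148e703db573aee2853 (k8 c3034 c3028 c1392 c1782 c5414 c3029 c9664 c5374 (k8 c3026 c9737 c507 c10567 c6203 c5566 c2805 c10569 (k8 c5436 c4015 c5642 c5334 c7600 c5444 c311 c10344 (k8 c5399 c5449 c60 c344 c157 c1263 c5475 c7110 (k8 c5435 c2317 c5433 c5855 c10537 c5477 c2319 c5588 (k8 c5559 c5231 c7601 c9222 c9090 c4953 c4955 c192 (k8 c10155 c5326 c5321 c5474 c5498 c513 c10570 c5481 (k8 c5373 c4843 c5381 c5567 c5382 c5525 c4937 c5541 (k8 c8783 c5545 c5503 c5569 c5383 c1242 c5527 c5375 (k4 c5036 c516 c2625 c10574 (k2 c10571 c5514 (k1 c10572 k0)))))))))))) (by decide +kernel)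
def c10577 : PP 9 3 T 0x406015400000000000000000000500440000000000000008000000500001000000000800000000000000000000000400000000000400000000000000000020 := rS 0xd23eacef9f83de0e85 (k8 c5541 c5503 c5498 c5206 c5625 c9429 c5274 c6187 (k1 c5609 k0)) (by decide +kernel)
def c10578 : PP 9 3 T 0x100020000000000002000000000000000000000000000008000000000050000000000000080000000000000000000000000000001402000000002000000000 := rS 0x2cd0bfbbac864b22d1e3af7f62ac3623238844fb3db6d69759f9aa5ea1e8a40546a1 (k8 c5398 c5449 c10537 c3028 c3029 c5477 c2319 c5588 (k8 c5559 c5334 c5414 c5231 c7601 c60 c344 c157 (k8 c1263 c5475 c7110 c9222 c5498 c513 c5327 c5326 (k4 c192 c10155 c5623 c7591 (k2 c2944 c5174 (k1 c9779 k0)))))) (by decide +kernel)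
def c10579 : PP 9 3 T 0x100001000000000002000000000000000000000000000008000004000050000000001800080000000000000000000000000000001402000000002000000000 := rS 0x1b50ab7ba1ceedfb79650cf8ebdfd8ab0d88c8e2113ecf6db5a5d67e6a97a87a2901 (k8 c10537 c3028 c3029 c5477 c2319 c5588 c5559 c5334 (k8 c5414 c5231 c7601 c60 c344 c157 c1263 c5475 (k8 c7110 c9222 c5498 c513 c5543 c10569 c10578 c6648 (k4 c5639 c1781 c5692 c6922 (k2 c8941 c2945 (k1 c1670 k0)))))) (by decide +kernel)
def c10580 : PP 9 3 T 0x1000000000002000000000000000000000000000008000000008000040000000100080000000000000000000000000000000002000800002000000000 := rS 0x3a7cae727bb57e5272c3cab2386fd48e4b17eda975980eb546a128901c4dff18252604018f650133ee80021507845239c0f6d629f3 (k8 c5588 c3028 c5414 c3029 c9664 c5374 c3026 c9737 (k8 c507 c10567 c6203 c5566 c2805 c10569 c5436 c4015 (k8 c5642 c5444 c311 c10344 c4898 c5691 c1773 c3800 (k8 c5398 c5449 c5437 c10537 c5559 c5334 c5231 c4113 (k8 c192 c157 c5635 c3457 c3077 c3449 c3084 c3353 (k8 c10579 c2797 c3223 c3413 c1781 c6396 c1823 c5692 k0))))))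 (by decide +kernel)
def c10581 : PP 9 3 T 0x200000000000000000000000000008000000004000080000000800402000000002000000000 := rS 0x31d79d259d87ab90ea4ab1f260b0578127ee446471089f121507845239cda84caec103eb412040080c3d14 (k8 c3028 c3029 c4015 c10567 c5642 c311 c5437 c5432 (k8 c5319 c5313 c2805 c5414 c9664 c5374 c3026 c9737 (k8 c507 c5527 c60 c344 c157 c1263 c5616 c3298 (k8 c3238 c3198 c2324 c2323 c9714 c515 c1804 c320 (k4 c722 c358 c5604 c6187 (k2 c8107 c3570 (k1 c5608 k0))))))) (by decide +kernel)
def c10582 : PP 9 3 T 0x8000000000000014040000000054000141500000000000000000000020000002000400000 := rS 0x72a9dd82a (k4 c3089 c616 c1099 c3489 (k1 c3621 k0)) (by decide +kernel)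
def c10583 : PP 9 3 T 0x1000000000000000000040000000000000000000008000000004000040000000800000000004000000400000000000000001042000800002000000000 := rS 0x4db348e13f78c2e5d2df79a742e991bca28faf7bc1e0bec5586c46471089f67b6acfcd52f580a8d4bb0dad2c3c4073aee2853 (k8 c3034 c3028 c1392 c1782 c1773 c3029 c5334 c5414 (k8 c7600 c5399 c5449 c10537 c5477 c2319 c5588 c5559 (k8 c5231 c7601 c60 c344 c157 c1263 c5475 c7110 (k8 c9222 c5545 c5503 c5498 c5479 c5327 c10569 c5435 (k8 c2317 c5433 c5855 c451 c4898 c1823 c1089 c10576 (k4 c5641 c2645 c10582 c5662 (k2 c5604 c8896 k0))))))) (by decide +kernel)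
def c10584 : PP 9 3 T 0x1000000000000000000040000000000000000000008000000004000040000000800080000004000000400000000000000001002000800002000000000 := rS 0x21b0ffb48e32e5fa93be71b60ca361b58a52c3c53 (k8 c3034 c3029 c5334 c3028 c5414 c7600 c10569 c5319 (k8 c5036 c5588 c10583 c5630 c3344 c3500 c525 c5697 (k2 c5598 c5640 (k1 c10579 k0)))) (by decide +kernel)
def c10585 : PP 9 3 T 0x1000000000000000000000000400000000000000008000000000000040000004800000000044000000400000000000000002402000000002000000000 := rS 0x791cb8b84ae63e4e8c0afef85bde25831d7bfbd0aff41c4d128d47a1fbfecd9edab3f354bd6029d0ba646eab0d88c8e2113a8d4be304a4f614b0200c7b28099f740010a83c2291ce07b6b14 (k8 c3028 c5414 c3029 c9664 c5374 c3026 c9737 c507 (k8 c10567 c6203 c5566 c2805 c10569 c5436 c4015 c5642 (k8 c5334 c7600 c5444 c311 c10344 c5399 c5449 c60 (k8 c344 c157 c1263 c5475 c7110 c5435 c2317 c5433 (k8 c5855 c10537 c5477 c2319 c5588 c5559 c5231 c7601 (k8 c9222 c9090 c5373 c4843 c5381 c5567 c5382 c5525 (k8 c4937 c5541 c8783 c5498 c513 c5319 c5527 c5375 (k8 c4000 c5636 c3460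 c516 c515 c3756 c1088 c2645 (k4 c2639 c3344 c10577 c10571 k0))))))))) (by decide +kernel)
def c10586 : PP 9 3 T 0x1000000000000000000000000000000000000000008000000000000000000000000001000000000000480000000000000000002000000002000000000 := rS 0x2aadca6bb73c5efe7e4540da4d5713858e3a6fbcd0257198e47e07188d5a2cff7a15fe8389a251a8f43f7d3a174c8dfc60949ec0083d9404cfba06bb2d89932f1923af7f62ac36231089d52f5d9edab25b2e91402438091fe74b25845239c0a83f6a030f4515a71 (k8 c4953 c4955 c3028 c3029 c4015 c5414 c9737 c507 (k8 c9664 c5374 c3026 c192 c5334 c5588 c157 c10537 (k8 c10155 c10567 c5326 c5321 c5474 c5559 c5231 c7601 (k8 c5477 c2319 c60 c344 c1263 c5475 c7110 c9222 (k8 c5498 c513 c10570 c1126 c5439 c1127 c3998 c1767 (k8 c6203 c5566 c2805 c10569 c5436 c5642 c7600 c5444 (k8 c311 c10344 c5435 c2317 c5433 c5855 c9090 c5373 (k8 c4843 c5381 c5567 c5382 c5525 c4937 c5541 c8783 (k8 c5543 c5501 c5324 c5434 c5432 c5318 c5317 c5316 (k8 c5313 c5380 c451 c4898 c3587 c839 c9135 c5691 (k8 c1662 c5689 c2087 c3613 c2938 c3957 c10580 c1782 (k4 c1392 c3034 c10581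 c10585 (k1 c10584 k0))))))))))))) (by decide +kernel)
def c10587 : PP 9 3 T 0x1000000000002000000000000000000000000000008000000004000080000000800080000000000000000000000000000001082000000002000000000 := rS 0x86c3fed238cb97ebf38db065053 (k8 c3034 c10569 c5319 c5036 c5588 c5630 c3344 c3500 (k4 c525 c5697 c2255 c5640 (k1 c10579 k0))) (by decide +kernel)
def c10588 : PP 9 3 T 0x440005000000000010100000000000000000800000000008000000000000100040000000000001044000140004000000000000000040000000400001400000 := rS 0x14de416fd456c3 (k4 c5348 c5601 c6636 c7876 (k2 c5207 c3580 (k1 c5470 k0))) (by decide +kernel)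
def c10589 : PP 9 3 T 0x1000000000000000000000000000000000000000008000000004000000000000000000000004000000480000000000000001002000000002000000000 := rS 0xe872a9dd62a9159fef181786583ad4e85d323782a8d4b932f39d76535c93da4e2813858ec432475ee5b2e91486ad38a17d8ab0d88c8e2113ecf6d5954bd602071fa04ae4bf9b7d99e304a4c08031eca0267dd00042a0f08a4739b0dac52961e (k8 c3029 c5334 c3028 c5414 c7600 c9664 c5374 c3026 (k8 c9737 c507 c10567 c6203 c5566 c2805 c10569 c5436 (k8 c4015 c5642 c5444 c311 c10344 c10586 c4898 c5588 (k8 c192 c5313 c5380 c5318 c5432 c10537 c5477 c2319 (k8 c5559 c5231 c7601 c60 c344 c157 c1263 c5475 (k8 c7110 c9222 c5541 c4953 c4955 c10155 c5326 c5321 (k8 c5474 c5498 c513 c10570 c1127 c838 c9135 c8709 (k8 c5691 c2624 c10587 c1089 c3034 c1392 c1782 c1126 (k8 c5439 c5399 c5449 c5545 c5435 c2317 c5433 c5855 (k8 c5437 c5319 c4039 c4113 c10576 c5641 c10588 c5662 (k4 c3089 c2956 c1099 c2626 (k2 c3621 c4755 k0)))))))))))) (by decide +kernel)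
def c10590 : PP 9 3 T 0x1000000000000000000000000000000000000000008000000004000000000000000000000000000000480000000000000001002000000002000000000 := rS 0x4934967d5c8e431f260af03b95b0844f89098100727c6e80021507845239c0f6d62853 (k8 c3034 c3028 c5414 c3029 c9664 c5374 c3026 c9737 (k8 c507 c10567 c6203 c5569 c5383 c4015 c5642 c2805 (k8 c5527 c60 c344 c10589 c5616 c3238 c3198 c2323 (k8 c9714 c320 c3089 c722 c5604 c6187 c3576 c5391 k0)))) (by decide +kernel)
def c10591 : PP 9 3 T 0x1000000000000000000000000000000000000000008000000004000000000000000000000000000000480000000000000000002000000002000000000 := rS 0x791cbf55cadc9c2b26fdca8bb73e15829d0ba646ea352b89c2c7621923af72d9748a43569c50bec5586c46471089f67b6acaa5eb01038fd025725b7fc60949ec29604018f650133ee80021507845239c0f6d629f3 (k8 c5588 c3028 c5414 c3029 c9664 c5374 c3026 c9737 (k8 c507 c10567 c6203 c5566 c2805 c10569 c5436 c4015 (k8 c5642 c5334 c7600 c5444 c311 c10344 c4898 c192 (k8 c5313 c5380 c5318 c5432 c10537 c5477 c2319 c5559 (k8 c5231 c7601 c60 c344 c157 c1263 c5475 c7110 (k8 c9222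 c5541 c4953 c4955 c10155 c5326 c5321 c5474 (k8 c5498 c513 c10570 c1127 c838 c9135 c5691 c5399 (k8 c5449 c5435 c2317 c5433 c5855 c5319 c4000 c1782 (k8 c1392 c10590 c5636 c3465 c3460 c515 c2323 c1088 (k4 c5630 c3344 c5207 c10571 k0)))))))))) (by decide +kernel)
def c10592 : PP 9 3 T 0x1000000000000000000000000000000000000000008000000000000000000000000000000000000000480000000000000000002000000002000000000 := rS 0xe9f2b9c98ed5f94a1b2372c3cabf58b349c4e163b3188df17a04ae3f038df5b07429923af7f62ac36231089d52f5d9edab25b2e914870123fcc96ad38a8d43e304a4f614b0200c7b28099f740010a83c2291ce07b6b14 (k8 c3028 c5414 c3029 c9664 c5374 c3026 c9737 c507 (k8 c10567 c6203 c5566 c2805 c10569 c5436 c4015 c5642 (k8 c5334 c7600 c5444 c311 c10344 c5398 c5449 c4953 (k8 c4955 c192 c5588 c157 c10537 c10155 c5326 c5321 (k8 c5474 c5559 c5231 c7601 c5477 c2319 c60 c344 (k8 c1263 c5475 c7110 c9222 c5498 c513 c10570 c5541 (k8 c5503 c5437 c5435 c5432 c5318 c5313 c5380 c4113 (k8 c4898 c1127 c10586 c838 c9135 c5691 c2624 c10591 (k8 c5635 c3449 c3084 c3353 c5004 c3456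 c10579 c2797 (k4 c3223 c3035 c1781 c6396 (k2 c2356 c5692 k0))))))))))) (by decide +kernel)
def c10593 : PP 9 3 T 0x10000000001010100000000000040000000040008000501000000000000000100005000000000400054020000020000000400424000020 := rS 0x47f4b91c3ee172bb16d9feab7 (k8 c3303 c5635 c5604 c5050 c2355 c3216 c5232 c6295 (k4 c5615 c8937 c8907 c6187 k0)) (by decide +kernel)
def c10594 : PP 9 3 T 0x100000000000000010000000001000000000000000000000000054000000501000000000000000054005000000000400000020001400000000000020150020 := rS 0x8fc87579116ddf7187 (k8 c5253 c5686 c5613 c5612 c5615 c721 c319 c8907 (k1 c3576 k0)) (by decide +kernel)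
def c10595 : PP 9 3 T 0x1000040000000000000000000054000000000000000000000000020000000000000000000000001400000000000180154020 := rS 0x1ab8fc849c2d (k4 c3423 c1089 c319 c517 (k2 c3405 c3576 k0)) (by decide +kernel)
def c10596 : PP 9 3 T 0x8000000008000000000000000000000000000000000000000000000000002000000002020000000 := rS 0x16f85d997db95d2e4a64d86c8d6f0f92957eabd39e145f7b41bf6fa130249f1b4783c155e648ebdfd8ab0d88c422754bd767b6ac96cba4521c048ff3a592c06ad389bf40010a83c2291ce07b6b14 (k8 c3028 c5414 c3029 c9664 c5374 c3026 c9737 c507 (k8 c10567 c6203 c5565 c4953 c4955 c4015 c192 c5334 (k8 c5588 c157 c10537 c10155 c5326 c5321 c5474 c5559 (k8 c5231 c7601 c5477 c2319 c60 c344 c1263 c5475 (k8 c7110 c9222 c5498 c513 c10570 c1130 c5545 c5503 (k8 c5327 c5569 c5383 c5642 c2805 c9705 c1242 c5525 (k8 c5375 c4113 c4000 c9717 c4956 c5635 c3449 c3078 (k8 c3084 c3303 c5004 c3456 c10593 c3035 c10595 c10594 (k4 c5430 c1391 c5232 c3020 (k2 c5349 c9455 k0)))))))))) (by decide +kernel)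
def c10597 : PP 9 3 T 0x100000000000000010000000001010100000000000000000000240000000501000000000000000154005140004000400054020000000000000400021000020 := rS 0x2b61d9a3fa5c88b54fb86085f5b87 (k8 c5253 c5437 c5433 c5319 c5686 c5428 c5612 c5615 (k4 c8937 c8907 c6187 c5348 (k2 c5601 c3580 k0))) (by decide +kernel)
def c10598 : PP 9 3 T 0x100000000000000000000000000000000000000000000008000200000000000000000000000000004000140004000000000000000002000000002020000000 := rS 0x493ec5591c657eb85ec6ce78517866f6837edf42604939bf1ba083c14c91d7bfb1561b118844ea97aecf6d592d9748a0121c048ff3a592c2291ce0541fb5018795a715dc50a717 (k8 c10596 c3034 c3028 c1392 c4953 c4955 c3029 c4015 (k8 c5414 c9737 c507 c9664 c5374 c3026 c192 c5334 (k8 c5588 c157 c10537 c10155 c10567 c5326 c5321 c5474 (k8 c5559 c5231 c7601 c5477 c2319 c60 c344 c1263 (k8 c5475 c7110 c9222 c5498 c513 c10570 c5545 c5503 (k8 c6203 c5569 c5565 c5383 c5642 c2805 c9705 c1242 (k8 c5525 c5375 c4039 c4113 c4000 c9717 c5036 c4956 (k8 c10597 c1305 c3503 c3088 c516 c5697 c10595 c5595 k0)))))))) (by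 decide +kernel)
def c10599 : PP 9 3 T 0x200000000000000000000000001100000000400100000000000044004400000000000000000000000000000001400000000000001410000000000000000000 := rS 0x92c67ed8b (k4 c5553 c5662 c8902 c5595 (k1 c5275 k0)) (by decide +kernel)
def c10600 : PP 9 3 T 0x400000000000000000000000000000000000000008000200000000000000000000000000000000140404000000000000000012000000002020000000 := rS 0x1cbe4fbc88abf1b3b9d724f84fd16f8993e353a174c8ddef05f7a17d8ab0d88c8e2113ecf6d4bacfcd52f57fc05071344a351e87f182408031e84cfba0008541e1148e703db55dc50a717 (k8 c10596 c3034 c3028 c1392 c5414 c3029 c9664 c5374 (k8 c3026 c9737 c507 c10567 c6203 c5566 c2805 c5436 (k8 c4015 c5642 c311 c10344 c5373 c4843 c5381 c5567 (k8 c5382 c5525 c10537 c4937 c5477 c2319 c5588 c5559 (k8 c5334 c5231 c7601 c60 c344 c157 c1263 c5475 (k8 c7110 c9222 c5541 c8783 c5545 c5498 c5435 c2317 (k8 c5433 c5855 c5569 c5383 c5527 c2323 c10598 c5556 (k8 c5630 c5632 c5633 c6751 c9451 c515 c10599 c5594 (k2 c5206 c5622 (k1 c10571 k0)))))))))) (by decide +kernel)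
def c10601 : PP 9 3 T 0x400000000040000000000000000000000008000001501000000000000000054045000000000000000000000000000000002000000000 := rS 0xc1e457c2a (k4 c3089 c3088 c3195 c1256 (k1 c3624 k0)) (by decide +kernel)
def c10602 : PP 9 3 T 0xa00000000000000000000000001100000000000000000000000040004400000000000000000000000000000001400000000000000000000000000000000000 := rS 0x4664b8b (k4 c5553 c5595 c5641 c5275 k0) (by decide +kernel)
def c10603 : PP 9 3 T 0x400000000000000000000000000000000008000001501000000000000000050045000000000000000000000000000000002104000000 := rS 0x61d6e2a (k4 c3089 c3198 c1101 c10601 k0) (by decide +kernel)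
def c10604 : PP 9 3 T 0x1000000000000000000000000000000000000000008000000000000000000000000000000000000000400000000000000000002000000002000000000 := rS 0x5b62beb1992fda465584ae6ce4c29aee2e1c4ba554aa349f7f608f5ec6ce78517865e37b41e25fb7d0244e4f8d18a742e991bca06baf83c155e648ebdfd8ab0d88c422754bd767b6ac96cba4521c048ff3a592c06ad389bf40010a83c2291ce07b6b14 (k8 c3028 c5414 c3029 c9664 c5374 c3026 c9737 c507 (k8 c10567 c6203 c5565 c4953 c4955 c4015 c192 c5334 (k8 c5588 c157 c10537 c10155 c5326 c5321 c5474 c5559 (k8 c5231 c7601 c5477 c2319 c60 c344 c1263 c5475 (k8 c7110 c9222 c5498 c513 c10570 c1130 c5545 c5503 (k8 c5479 c5324 c10569 c5435 c2317 c5433 c5855 c5434 (k8 c5569 c5383 c5382 c5642 c9705 c1242 c5527 c5525 (k8 c5375 c4062 c4039 c4113 c4000 c9717 c5036 c4956 (k8 c4843 c7600 c9090 c5444 c5449 c5399 c5446 c10592 (k8 c5974 c10596 c1392 c3034 c10600 c5604 c3216 c2358 (k8 c3465 c10603 c5662 c5595 c5641 c10602 c3616 c10597 (k1 c2465 k0)))))))))))) (by decide +kernel)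
def c10605 : PP 9 3 T 0x1000000000000000000000000000000000000000000000000000000000000000000000000000000000800000000000000000002000000002000000000 := rS 0x3f82482e32fec7e6df5a92cd6130200d027dd00042a0f08a4739b58a15c7e071ea742f4b1191c42274c8de501e (k8 c3029 c10569 c5435 c2317 c60 c344 c157 c1263 (k8 c5334 c5433 c5855 c5436 c5432 c5318 c5313 c3028 (k8 c5414 c9664 c5374 c3026 c9737 c507 c10567 c6203 (k8 c5566 c5380 c4015 c5642 c2805 c9690 c192 c1095 (k8 c4898 c5588 c5397 c1119 c2621 c6227 c312 c10493 (k1 c3569 k0)))))) (by decide +kernel)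
def c10606 : PP 9 3 T 0x1000000000000000000000000000000000000000000000000000000000000000400000000000000000000000000000000000002000000002000000000 := rS 0x7f20fcdbe13409f7401507845239c2b8fc0e3d9402527b04ded696040080c3d14 (k8 c3028 c3029 c4015 c10567 c5642 c5334 c5414 c10605 (k8 c7600 c5444 c311 c10569 c5436 c5432 c5318 c5313 (k8 c9664 c5374 c3026 c9737 c507 c6203 c5566 c5380 (k4 c2805 c4898 c5588 c512 (k2 c10493 c3569 k0))))) (by decide +kernel)
def c10607 : PP 9 3 T 0x20000000000000000000000000000000000000000000000000000000000000004000000000054000141500000000000000000000000000000000000000 := rS 0xe5 (k2 c5622 c10571 k0) (by decide +kernel)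
def c10608 : PP 9 3 T 0x2000000000000000000000000000000000000000000004000000000000000000000000000000000000000000000000000000000002100000002000000000 := rS 0xf7c750af7aca3dfe874190e0247f9d2c968d89a2740010a83c2291ce07b6b14 (k8 c3028 c5414 c3029 c9664 c5374 c3026 c9737 c507 (k8 c10567 c6203 c5567 c5382 c5381 c192 c5334 c5588 (k8 c157 c10537 c10155 c5525 c5373 c4937 c4843 c5559 (k4 c5498 c5541 c513 c8783 (k1 c5658 k0))))) (by decide +kernel)
def c10609 : PP 9 3 T 0x1001000000000000000000000000000000000000000000000000000000000000000000004000000005000000000000000000000002000000002000000000 := rS 0x12eaf81b5f65ee7fa7d63b6acbf53237944ed42c94aec137b58a52c3cd5f9b45c501 (k8 c10537 c10606 c1780 c5588 c10334 c3029 c5334 c3028 (k8 c5414 c10605 c7600 c5446 c5396 c5398 c10604 c10569 (k8 c5435 c2317 c1242 c5559 c5231 c3999 c4954 c4937 (k4 c8154 c5228 c5507 c5508 (k2 c5584 c5404 (k1 c8633 k0)))))) (by decide +kernel)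
def c10610 : PP 9 3 T 0x1000000000000000000000000000000000000000000000000000000000000000000004000000005000000000000000000000002020000002000000000 := rS 0x9769b5889ec658fe513b4aec137b58a52c3ce2 (k8 c10606 c3029 c5334 c3028 c5414 c10605 c7600 c5446 (k8 c10604 c10569 c5318 c3998 c10609 c10608 c459 c2936 (k2 c1767 c8884 k0))) (by decide +kernel)
def c10611 : PP 9 3 T 0x4000000000000000000000000000000000002000000000000000000000002000000002000000000 := rS 0x5b22fbe3a592e8710af7d989d1eff11a1d06438091fe74b259a4268d89a2740010a83c2291ce07b6b14 (k8 c3028 c5414 c3029 c9664 c5374 c3026 c9737 c507 (k8 c10567 c6203 c5567 c5382 c5381 c2805 c9744 c192 (k8 c5334 c5588 c157 c10537 c10155 c5525 c5373 c1263 (k8 c4937 c4843 c60 c5489 c2021 c2449 c2320 c9749 (k4 c9671 c513 c8783 c335 (k2 c1995 c9297 k0)))))) (by decide +kernel)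
def c10612 : PP 9 3 T 0x1000000000000000000000000000000000000000000000000000000000000000000004000000000000000000000000000000002020000002000000000 := rS 0x3bcd266fb554fd64ec36b14a5879a2e280aa6769b (k8 c10605 c10604 c10611 c10537 c10606 c1780 c3029 c5334 (k8 c3028 c5414 c7600 c5396 c1242 c10610 c5500 c2075 (k2 c10495 c5688 (k1 c5496 k0)))) (by decide +kernel)
def c10613 : PP 9 3 T 0x1000000000000000000000000000000000000000000000000000000000000000000000000000000000000000000000000000002020000002000000000 := rS 0x1982d97764347b7b59c3aa59c55a73acac50e0401a34de89d00042a0f08a47381edac52769b (k8 c10605 c10604 c3028 c5414 c3029 c9664 c5374 c3026 (k8 c9737 c507 c10567 c6203 c5567 c5565 c5381 c4015 (k8 c5642 c5373 c3999 c5559 c9717 c4955 c4953 c5334 (k8 c511 c10612 c5543 c1647 c1646 c5228 c498 c2101 (k2 c6012 c9639 k0))))) (by decide +kernel)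
def c10614 : PP 9 3 T 0x1000000000000000000000000000000000000000000000000000400014000000800108040000000000001514481000000000000000000000000000000 := rS 0x3b2111703f71d7bf93 (k8 c5358 c5453 c1530 c10455 c2634 c5583 c8783 c8304 (k1 c788 k0)) (by decide +kernel)
def c10615 : PP 9 3 T 0x8001400000000000000000000000000000000000000000000000000000000000000000000000000000000000000000000000000002000000002000000000 := rS 0xf6b348b039db459e7e2095c0e3d09a04fa0949ec1374b0200d8e3f94565abf371226268dd00042a0f08c05067948a1f381edac51fe8f (k8 c4843 c4937 c3028 c5414 c3029 c9664 c5373 c5374 (k8 c5524 c5525 c10537 c3026 c9737 c507 c10567 c6203 (k8 c5381 c5382 c5567 c10606 c5588 c10334 c5559 c10569 (k8 c5318 c10492 c4015 c5642 c5334 c10605 c7600 c5444 (k8 c311 c5566 c5380 c2805 c5436 c5432 c5313 c10613 (k8 c3569 c10614 c1780 c10604 c5508 c5582 c2623 c10608 (k1 c5688 k0))))))) (by decide +kernel)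
def c10616 : PP 9 3 T 0x4001000000000000000000000000000000000000000000000000000000000000000000000000000000000000000000000000000002000000002000000000 := rS 0x960d34c88abf67ceb2ff58b2e023f0bca12bb0dac52961e712a6769b (k8 c10605 c10604 c10611 c10606 c3029 c5334 c3028 c5414 (k8 c7600 c5446 c10569 c5433 c5318 c10537 c3998 c3999 (k8 c4937 c5559 c5588 c5171 c6368 c10608 c2936 c2969 (k2 c8884 c1073 k0)))) (by decide +kernel)
def c10617 : PP 9 3 T 0x1000000000000000000000000000000000000000000000000000000000000000000000000000000000000000000000000000002000000002000000000 := rS 0x1de57b5fdc9550ec136ad6587b6db58a52eb3f3 (k8 c5588 c5559 c5334 c3028 c5414 c5231 c3029 c3998 (k8 c4955 c10605 c7600 c5398 c5446 c10616 c5507 c5584 (k2 c10615 c9031 k0))) (by decide +kernel)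
def c10618 : PP 9 3 T 0x8000800000000000000000000000000000000000000000000000000000000000000000000400000010000000110110000000000000050000000000010000 := rS 0x74c9024afb194a2daec51aa5daad3 (k8 c5496 c5454 c5452 c5450 c5451 c5507 c5583 c10432 (k4 c8156 c9760 c9669 c5209 (k2 c10339 c5440 k0))) (by decide +kernel)
def c10619 : PP 9 3 T 0x2002800000000001000001040000000000000000000000000000002000000000000000000000000004000000000005000400000000000000000000000020 := rS 0xd9266765e942759a07 (k8 c8467 c5537 c5458 c5209 c8106 c6290 c1520 c5210 (k1 c6325 k0)) (by decide +kernel)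
def c10620 : PP 9 3 T 0x800000000000000000000000000000000000000000000000000000000000000000000000000000000000000000000000000002000000002000000000 := rS 0xcbb35419d3295d8664e99342aafd9ef649dd9e9762bfd5a6b58b2f6d593da1cf2832191fe74b25bf602690200d028d3ea2740010a83c2291ce07b6b1463a75a29b6690477e0 (k8 c10617 c5456 c511 c5537 c5536 c5459 c5458 c5535 (k8 c3028 c5414 c3029 c9664 c5374 c3026 c9737 c507 (k8 c10567 c6203 c5567 c5566 c5381 c5380 c4015 c5642 (k8 c9744 c10537 c1242 c192 c5334 c5588 c157 c10155 (k8 c5525 c5524 c5373 c5372 c5559 c5231 c3998 c3999 (k8 c9690 c4955 c4937 c5451 c5452 c5453 c5493 c5494 (k8 c10618 c8154 c6368 c5541 c8127 c3607 c5482 c10619 (k4 c5446 c5447 c2005 c8772 (k2 c6325 c9109 (k1 c5664 k0)))))))))) (by decide +kernel)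
def c10621 : PP 9 3 T 0x4000000000000002000000000000000000000000000000000000000000000000000000000000000000000000000000000000000002000000002000000000 := rS 0x3496222a67617940fd329564a853ad14db37c7a0008541e113ca44f79c6fa3c823b1eb87c1ecdb6d697597eaadff015887a29f3 (k8 c5588 c3028 c3029 c3999 c10537 c4937 c6368 c1242 (k8 c5559 c5334 c5414 c5231 c8154 c10617 c5460 c3030 (k8 c5456 c511 c4843 c4898 c9664 c5372 c5374 c5524 (k8 c3026 c9737 c507 c10567 c6203 c10517 c5537 c5536 (k8 c5459 c5458 c5398 c5396 c5446 c5447 c2909 c5655 (k4 c5433 c6290 c10611 c10608 (k2 c8724 c2969 (k1 c1073 k0)))))))) (by decide +kernel)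
def c10622 : PP 9 3 T 0x2000000000000000000000000000000000000000000000000200000000000000000000000000000000000080000000000000000002000000002000000000 := rS 0x440dcec2fe0 (k4 c10617 c5433 c6290 c1073 (k2 c10608 c2969 k0)) (by decide +kernel)
def c10623 : PP 9 3 T 0x4000000000000000000000000000008000000100000000000000000000000000010000000000000010010000000040000002000110005 := rS 0x16c8a5d (k4 c9749 c5326 c5474 c10570 k0) (by decide +kernel)
def c10624 : PP 9 3 T 0x4000000000000000000000000000000000000000000000000000000000000000000000000000000000000080000000000000000002000000002000000000 := rS 0x276652fca766715680c864725f8fc1a0008541e113ca44f79c6fa3fbf1d7bfb03db6dad2eb3f37ec0629b1 (k8 c10621 c3028 c10537 c1242 c5588 c5559 c5334 c5414 (k8 c5231 c3029 c8154 c5498 c513 c10620 c4843 c4898 (k8 c9664 c5372 c5374 c5524 c3026 c9737 c507 c10567 (k8 c6203 c10617 c10517 c192 c157 c10155 c4015 c4955 (k4 c4953 c5404 c10622 c9668 (k2 c1126 c10623 (k1 c5166 k0))))))) (by decide +kernel)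
def c10625 : PP 9 3 T 0x4004400000000081000000000000000000000000000000000100000000000000000000000000000000000040000000000000000000011000002000000000 := rS 0x9564ecc621b0b4e87d59 (k8 c5559 c5655 c5166 c2910 c5475 c5476 c7601 c1064 (k2 c1461 c5678 k0)) (by decide +kernel)
def c10626 : PP 9 3 T 0x4000000000000000000000000000000000000000000000000000000000000000000000000000000000000000000000000000000002000000002000000000 := rS 0x6064264bd933b1d73065d9a5434ae0e911533b1b8c40f284bec59e8555fb04eff789ad63b6a5d67e6877ec04c604019bd8e9d68a6d9be3d00042a0f089e5227bce07b6b146fa3c823b1eb87c1df (k8 c10620 c10617 c5460 c3030 c5456 c511 c4843 c4898 (k8 c3028 c5414 c3029 c9664 c5372 c5374 c5524 c3026 (k8 c9737 c507 c10567 c6203 c10517 c5537 c5536 c5459 (k8 c5458 c5535 c5565 c4015 c5642 c9755 c10537 c1242 (k8 c5373 c5588 c5559 c5334 c5231 c3999 c9690 c4062 (k8 c4937 c60 c8154 c6368 c5541 c5543 c10621 c10624 (k8 c10625 c5432 c5434 c5435 c6290 c10611 c10608 c335 (k8 c2968 c2969 c10191 c5406 c1130 c9662 c5482 c10201 (k4 c5356 c8106 c2317 c8772 (k2 c10171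 c62 k0)))))))))) (by decide +kernel)
def c10627 : PP 9 3 T 0x1000000000000080000000000000000000000000040008000000002000010000000000000000000001000000000000000000000000000000002500000000 := rS 0x2af661b (k4 c5475 c7601 c7110 c9222 k0) (by decide +kernel)
def c10628 : PP 9 3 T 0x4000000000000000000000000000000000000000000000100000000000020000000011000000005001410000000000000000000111000002100000004 := rS 0x67a646a930b0f84f59 (k8 c5559 c60 c5655 c2910 c326 c441 c1464 c2340 (k1 c10207 k0)) (by decide +kernel)
def c10629 : PP 9 3 T 0x2000000002000000000 := rS 0x1b81c7f282b829e8ab7ba54b9b29daa4b7edcca11164581fb87a41f1b3536e168a758e3bf0226268dd0010d20179c042215419e522873ded81f9c01ed4422356bfc3c716fc511f5913fce9647 (k8 c157 c5334 c5588 c60 c5559 c4843 c3028 c4898 (k8 c4953 c3029 c4937 c4955 c1263 c344 c5414 c4015 (k8 c9664 c9737 c5231 c5372 c5373 c5374 c5524 c5525 (k8 c507 c3026 c10537 c451 c10567 c9744 c5642 c6203 (k8 c5381 c5382 c5567 c10617 c5456 c5535 c5458 c5459 (k8 c5460 c5536 c5537 c10517 c511 c3030 c10626 c5508 (k8 c5582 c5583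 c8783 c8308 c5541 c3839 c2449 c10627 (k8 c5228 c6013 c5488 c498 c1085 c5657 c2335 c770 (k4 c10628 c5318 c5432 c5435 (k1 c10519 k0)))))))))) (by decide +kernel)
def c10630 : PP 9 3 T 0x2000000000010000000000000000000000100000000000000000000000000000000000200000000000000000000400004004002004000000000150140 := rS 0xc3933f1f50271d06dbe74b208ec7ae1 (k8 c5460 c3030 c5456 c511 c5334 c5588 c5231 c5646 (k4 c5571 c5380 c5566 c3569 (k2 c5358 c728 (k1 c10162 k0)))) (by decide +kernel)
def c10631 : PP 9 3 T 0x41000400000000000000200000000000000000000000000000000000000014000000000000000000000000001402000500000004000015000000000150140 := rS 0x22bdd93819f8fb1340a0d0e8d (k8 c950 c164 c128 c5380 c5382 c5566 c3569 c2629 (k4 c5358 c5694 c8304 c5583 k0)) (by decide +kernel)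
def c10632 : PP 9 3 T 0x40002400000000000000101040000000000000000000000000000001000015000000000000200000455000100000000402004000000000000000000000020 := rS 0x1ee8178d63b65a9c4c1b5 (k8 c5529 c10162 c10408 c2611 c5685 c5421 c6706 c3623 (k2 c5186 c5508 k0)) (by decide +kernel)
def c10633 : PP 9 3 T 0x8000000000000000000000000000000000000000000000000000001000015000000000000200000455000000000200002000000000000000000000000000 := rS 0x715a32e06b1 (k4 c5506 c5508 c1324 c3623 (k2 c752 c2611 k0)) (by decide +kernel)
def c10634 : PP 9 3 T 0x1002400000000000000000000000000000000000000000000000000000005020000000004000000055000151002000000000000002004000000080040000 := rS 0x36e715832cded669a2a05ef401fcfb92d0c048758f9a759adf208ec7ae18a8956647cc9dc2a8f07844aec739ed4d80a02024ea630081c62c868865365c (k8 c2336 c5536 c1164 c5459 c8772 c1915 c822 c9745 (k8 c9755 c1966 c421 c9750 c2335 c717 c5529 c9719 (k8 c5535 c770 c3026 c9740 c2843 c507 c788 c5365 (k8 c157 c2321 c10629 c1086 c5460 c3030 c5456 c511 (k8 c5538 c5537 c5458 c5588 c10630 c5561 c1927 c10631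 (k8 c10632 c5442 c5358 c3569 c10633 c5694 c2630 c2087 (k4 c857 c2978 c10216 c2189 (k2 c752 c5421 (k1 c5666 k0))))))))) (by decide +kernel)
def c10635 : PP 9 3 T 0x1002000000000000000000000000000000000000000004000000000000000040000000000000000005000000002000000000000002004040000080000000 := rS 0xdbad44c71091b0080167828b8f47ffcd664757875e22556a5d2a9179bf4066bce52fbe99d96659a9d (k8 c5458 c5537 c5365 c5210 c2317 c6325 c5334 c5218 (k8 c5523 c1111 c5405 c2532 c5374 c5488 c5404 c5490 (k8 c10629 c9695 c9681 c10145 c157 c2321 c5588 c3007 (k8 c5657 c2336 c2335 c2339 c9745 c9750 c717 c10634 (k4 c2869 c317 c2611 c5570 (k1 c8402 k0)))))) (by decide +kernel)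
def c10636 : PP 9 3 T 0x2400000000000000021000000000000000000000004000000000100000000000000000200000000000100000000401000000000000011000005001002 := rS 0x62e4cc46103ca066172f9d76269639ed3a9b0e9acf265 (k8 c1056 c5524 c5523 c9681 c5536 c5458 c5457 c5535 (k8 c9742 c5396 c1965 c1118 c1064 c5284 c5653 c5432 (k4 c661 c10253 c10443 c837 (k1 c5668 k0)))) (by decide +kernel)
def c10637 : PP 9 3 T 0x2400000000000000021000000000000000000000000000000000100000000000000000000000000000140000000501100000000000000000000001042 := rS 0x17cc6c4c99858e7b4ea6cd679 (k8 c5524 c5523 c5536 c5458 c5457 c5535 c661 c10443 (k4 c5668 c837 c1629 c10253 k0)) (by decide +kernel)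
def c10638 : PP 9 3 T 0x2000000000000000021000000000000000000000004000000000100000080000000000000000005000100000000400000040000000000000080005000 := rS 0x248659294818eace64800da050d8c46a5d348eda2210ca6d2efd4a9e4066befec99a9d (k8 c5458 c5537 c5210 c6325 c5523 c1111 c5524 c5488 (k8 c5405 c5404 c5536 c1164 c58 c5459 c5456 c9742 (k8 c498 c501 c2105 c2103 c6013 c2316 c5642 c10636 (k8 c3617 c1530 c10637 c5432 c5214 c5653 c10507 c323 k0)))) (by decide +kernel)
def c10639 : PP 9 3 T 0x1002000000000000000000000000000000000000000004000000000000000000000000000000000005000000002000000000000002000040000080000000 := rS 0x169b75009924c80200652cf050ccb83e7a3dd33f388b459a194dacc8e0f3bb1c1b9ca5a5d2a5b79bf76599 (k8 c5365 c5210 c5405 c2532 c684 c5488 c5404 c5334 (k8 c5218 c4690 c5535 c788 c9740 c157 c2321 c5536 (k8 c1164 c5537 c5459 c9727 c5588 c2317 c10638 c5657 (k8 c10635 c2336 c2045 c2335 c2339 c5318 c9745 c9750 (k4 c8772 c10198 c326 c327 (k2 c5570 c8402 (k1 c1199 k0))))))) (by decide +kernel)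
def c10640 : PP 9 3 T 0x1000000000000000000000000000000000000000000000000000001000005004000000008100000455000000000000000000000000008024000000000000 := rS 0x407deb181911a4d5 (k8 c2997 c442 c441 c2634 c2085 c5582 c3067 c9179 k0) (by decide +kernel)
def c10641 : PP 9 3 T 0x5002000000000000000000000000000000000000000004000000000000004020000000008000000000000000102050000000010002004000000000000140 := rS 0x4d028a6a40a0243ac7cc823b1eb842a0f08a473999a595c14c7 (k8 c5535 c2335 c770 c5334 c5365 c5218 c5374 c3026 (k8 c9740 c507 c5460 c3030 c5456 c511 c5588 c5171 (k8 c5561 c1927 c5694 c8707 c2630 c1659 c2977 c3569 k0))) (by decide +kernel)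
def c10642 : PP 9 3 T 0x1002000000000000000000000000000000000000000004000000000000000000000000000000000005000100002000000000000002000000000080000020 := rS 0x10021ad6b071f1a00264581ac7dc3f30ec00e171a33992934eb44823b1eb84329b8aacc8eaf788955a974a84522093ce70b21d46855fe33669b0fa7fc915c14f47b970b60f79bf76599a5b1e5236 (k8 c10639 c5435 c5535 c5334 c5365 c5210 c5405 c2532 (k8 c9740 c684 c6013 c498 c5657 c2335 c770 c10195 (k8 c5358 c5442 c717 c5537 c2045 c3007 c507 c944 (k8 c9681 c313 c5218 c5524 c1510 c5374 c3026 c5488 (k8 c5404 c5490 c10629 c9695 c10145 c157 c2321 c1086 (k8 c5536 c1164 c5460 c3030 c5456 c511 c5459 c5458 (k8 c1567 c10198 c3617 c2340 c1619 c1618 c5648 c5445 (k8 c10640 c10641 c5506 c5508 c5582 c424 c3569 c5463 (k4 c751 c5655 c2611 c5561 (k2 c3623 c1927 k0)))))))))) (by decide +kernel)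
def c10643 : PP 9 3 T 0x1002000000000000000000000000000000000000000004000000000000000000000000008000000005000000002000000000000002004000000080000020 := rS 0x8010d6b584ff8d001322c0d63ee208ec7ae18aacc8eaf788955a1148824f39c399643a8d0abfcfa7fc915c14f47b970b60f79bf76599a5b1e523603a493001 (k8 c53 c10642 c2318 c1564 c10639 c5435 c5535 c5334 (k8 c5365 c5210 c5405 c2532 c9740 c684 c6013 c498 (k8 c5657 c2335 c770 c10195 c5358 c5442 c3007 c507 (k8 c944 c9681 c313 c9718 c5218 c5524 c1510 c5374 (k8 c3026 c5490 c10629 c9695 c10145 c157 c2321 c1086 (k8 c5460 c3030 c5456 c511 c10641 c5506 c5508 c5582 (k8 c424 c3569 c5463 c1604 c5655 c2613 c5561 c3623 (k1 c1927 k0)))))))) (by decide +kernel)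
def c10644 : PP 9 3 T 0x40000000000000000000000000000000000000000000000000000000000000000000000000000000400000208000000000000000000008000000001000820 := rS 0x1b75a8993e01 (k4 c53 c2879 c326 c2613 (k2 c5570 c8402 k0)) (by decide +kernel)
def c10645 : PP 9 3 T 0x40000000000000008000000000000000000000000000000000100001000004020000000140110001445000000002000000000004000015000000000110160 := rS 0x40e028b21a02b013f1ac44fb656bf76a6c051f4ff92 (k8 c10195 c5358 c5442 c2335 c717 c5529 c5405 c5490 (k8 c5685 c5570 c5421 c6458 c317 c5655 c3569 c5561 (k4 c856 c1927 c2630 c3623 k0))) (by decide +kernel)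
def c10646 : PP 9 3 T 0x1002000000000000000000000000000000000000000004000000000000000000000000000000000005000000002000000000000002000000000080000020 := rS 0x4d02705a34d92d562f786acf1f8c40ecb49260fe7dc915cd80a19bd1fef72e007e6c766904763d7086537155991c2a0f57875e2254a84522033596de6fdd94a412363ce73334b (k8 c5334 c5365 c5218 c5524 c10639 c1510 c5435 c5210 (k8 c5405 c2532 c684 c5523 c1111 c5374 c3026 c5488 (k8 c10629 c9695 c9681 c10145 c9740 c507 c157 c2321 (k8 c1086 c5536 c1164 c5460 c3030 c5456 c511 c5537 (k8 c5535 c5588 c53 c6013 c498 c3007 c5657 c2045 (k8 c2335 c717 c770 c10195 c5442 c5358 c10642 c2318 (k8 c1760 c1564 c1565 c10644 c10643 c1621 c5653 c5451 (k8 c5454 c5494 c5496 c10645 c2611 c752 c2869 c3569 k0)))))))) (by decide +kernel)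
def c10647 : PP 9 3 T 0x2000000000000000000000000000000000000000000000000000000001080000000140000002000000210000000000000000002044014000000000000 := rS 0x8eb5c8b584f3ff6ff3a5904763d708c5a3b5 (k8 c5530 c5459 c2105 c5460 c3030 c5456 c511 c5334 (k8 c5588 c5422 c2572 c2613 c5231 c504 c1605 c5341 (k1 c3588 k0))) (by decide +kernel)
def c10648 : PP 9 3 T 0x2000000000008000000000000000000000000000000000100000000000081000000140100000040000201400000015550120002044014000094000000 := rS 0x1108b22236071dac44bc6b13989f6cb5f9c4696411d8f5c31512acc524756bf52bb5 (k8 c5530 c5488 c5405 c5490 c157 c1312 c2321 c10629 (k8 c1086 c5460 c3030 c5456 c511 c5334 c9727 c5588 (k8 c10647 c5685 c5570 c5419 c5421 c6458 c3604 c5655 (k4 c5341 c2195 c2169 c3582 (k2 c859 c3602 (k1 c2834 k0)))))) (by decide +kernel)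
def c10649 : PP 9 3 T 0x1002000000000000000000000000000000000000000004000000000000000000000000000000000005000000002000000000000002000000000080000000 := rS 0x36eb51327c7cd364b57bc33496d4cbb10ba6036311a90cbef6379c4b0f5001b4ba053182652362d80c22f33c9ad22fd57a3f39b20e99de20d3b83d0e83ccfce234b34b1cf69d68884329b8a8956647 (k8 c157 c2321 c10629 c1086 c5536 c1164 c58 c5459 (k8 c5458 c5457 c5535 c9742 c5334 c9727 c5588 c5365 (k8 c128 c164 c9740 c788 c4690 c9695 c9680 c9681 (k8 c5210 c5218 c2843 c10145 c5405 c5374 c5523 c5524 (k8 c2532 c3026 c1111 c684 c10639 c5435 c1510 c9753 (k8 c10646 c9750 c2316 c5642 c2336 c5644 c667 c1060 (k8 c10523 c1055 c3033 c1622 c2105 c2103 c10638 c10515 (k8 c10556 c1056 c5530 c2318 c5284 c5653 c5454 c5494 (k4 c5496 c10648 c2879 c326 (k2 c2613 c5570 (k1 c5685 k0))))))))))) (by decide +kernel)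
def c10650 : PP 9 3 T 0x40000000000000000000000000000000000000000000000000000001000000000000000000000000400000208000000000000000000008000000001000000 := rS 0x1b75a8993fb5 (k4 c5530 c2879 c326 c2613 (k2 c5570 c5685 k0)) (by decide +kernel)
def c10651 : PP 9 3 T 0x2800000000010000000080000000000000000000000000000000100000000000000000000000001000000005001000400000000000000000000000000 := rS 0x679eda277 (k4 c5356 c5459 c5457 c5453 (k1 c8645 k0)) (by decide +kernel)
def c10652 : PP 9 3 T 0x1000000000000000000000000000000000000000040004000000000000001044000000000000000001000000004400000440000000000000000080000002 := rS 0xda21 (k2 c58 c666 (k1 c10523 k0)) (by decide +kernel)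
def c10653 : PP 9 3 T 0x40000000000000010000000000000000000000000000004000100001000005020000000009000001455000000004054400000054000015000000000110160 := rS 0xb88cccb52050121d63c68009ac44fb6 (k8 c5685 c5570 c5421 c317 c3569 c5463 c5655 c5561 (k4 c1927 c3623 c2634 c10410 (k2 c1659 c5644 (k1 c944 k0)))) (by decide +kernel)
def c10654 : PP 9 3 T 0x1002000000000000000000000000000000000000000004000000000000000000000000000000000005000200000000000000000002000000000080000000 := rS 0x4d029e379cd685b0381002ff2cb39e8f71a77c7e3119844ee7f3ea54ce1d7eabd5a833ca450e150182725292bec8d79c0785de6921b6c76bf388d2cf6cd208ec7ae110865371512acc8e85 (k8 c10649 c157 c2321 c10629 c1086 c5536 c1164 c58 (k8 c5460 c3030 c5456 c511 c5537 c5457 c5334 c9727 (k8 c5588 c5530 c5447 c2317 c2318 c4689 c1464 c9737 (k8 c5211 c9672 c5228 c9760 c5435 c9675 c9679 c261 (k8 c507 c5373 c5374 c5524 c5525 c5490 c5406 c5405 (k8 c5486 c5487 c5488 c5442 c5358 c5356 c3026 c5284 (k8 c1565 c10650 c10651 c5653 c501 c1622 c1621 c280 (k8 c3007 c10652 c5642 c1564 c715 c10653 c9719 c1148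 (k4 c2613 c1604 c318 c3569 k0))))))))) (by decide +kernel)
def c10655 : PP 9 3 T 0x1002000000000000000000000000000000000000000004000000000000000000000000004200000000000000005401500000054000000040000000004060 := rS 0xb04970bf991db1da239 (k8 c5534 c5459 c5535 c5456 c10196 c1118 c5644 c312 (k2 c823 c10486 k0)) (by decide +kernel)
def c10656 : PP 9 3 T 0x1002000000000000000000000000000000000000000004000000000000001020000000000000000005000158005401000044000000000020000000004020 := rS 0x64cc184bb933b1d590cf1b95da29b2c96c0e17 (k8 c1619 c714 c715 c1947 c5536 c5459 c9756 c1567 (k8 c2339 c8772 c1966 c10655 c5356 c785 c724 c6012 (k2 c10171 c5481 k0))) (by decide +kernel)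
def c10657 : PP 9 3 T 0x4000000000000000000000000000200000000000000000000800005050000000000000000000000 := rS 0xbb992b9936393 (k4 c5356 c5396 c10171 c9760 (k2 c5481 c785 (k1 c5644 k0))) (by decide +kernel)
def c10658 : PP 9 3 T 0x2000000000000000000000000000000000000000004000000000100001020000000000000000005000150005400800444040000000000000080000140 := rS 0x166c2e1959cc930e4cd29d68a6d9a59 (k8 c1947 c5537 c5536 c5459 c5458 c9742 c5356 c724 (k4 c10657 c3617 c2053 c10085 (k2 c3601 c823 (k1 c2315 k0)))) (by decide +kernel)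
def c10659 : PP 9 3 T 0x1002000000000010000000000000000000000000000004000000000000000000000000008000000005000000000000000000000002000020000080000000 := rS 0x20426705a1b0c23f3f9f4bfb064e4a5236f9b1cf69d669047ae10ca6e2a255991c2aad5784522337f964ae7704a4cf20f0385cb6040198c02f47b8ede69533bf52fb241a1f386b4ca16234b (k8 c5334 c9727 c10649 c10654 c9672 c5211 c5373 c5525 (k8 c5228 c5404 c5405 c5487 c5488 c2532 c5456 c501 (k8 c5657 c10652 c9755 c1111 c5642 c715 c1619 c714 (k8 c9737 c5524 c10656 c311 c10658 c436 c1947 c3007 (k8 c120 c5374 c3026 c5406 c5490 c507 c157 c2321 (k8 c10629 c1086 c5536 c1164 c5460 c3030 c511 c5537 (k8 c5458 c5457 c5535 c5588 c2339 c5435 c5643 c10198 (k8 c5648 c5439 c5442 c5358 c10640 c5445 c10556 c10653 (k4 c2611 c2869 c751 c3569 k0))))))))) (by decide +kernel)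
def c10660 : PP 9 3 T 0x1002000000000010000000000000000000000000000004000000000000000000000000000000000005000000000000000000000002000020000080000000 := rS 0x376433cae773a82526072d810c65900bd1ee17888eda29b42a641e873ca0f380335a5cce9579bf7654b (k8 c5334 c5228 c5405 c2532 c5488 c5487 c5404 c9672 (k8 c1111 c5211 c5525 c5524 c5373 c9737 c10654 c10649 (k8 c5536 c5459 c5456 c9727 c1619 c501 c5657 c10652 (k8 c1947 c9755 c5642 c715 c714 c10656 c311 c1526 (k4 c10658 c436 c10659 c8772 (k2 c1621 c10655 k0)))))) (by decide +kernel)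
def c10661 : PP 9 3 T 0x1002400000000000000000000000000000000000040004000000000000001020000000004200000001000000005401400440000000000010000080004000 := rS 0x16cea3703810c728008ccb2f76680de6310ca6cafb1 (k8 c5396 c9760 c5536 c1164 c1915 c2532 c1111 c5537 (k8 c155 c1947 c2045 c10652 c5653 c9755 c5642 c5432 (k4 c5435 c1966 c715 c10655 k0))) (by decide +kernel)
def c10662 : PP 9 3 T 0x1002400000000000000020000000000000000000040004000000000000001000000000004000000005000150001000400440000000000010000080005000 := rS 0x3ae60b6f67ab2222c73db4536cd439e506f3 (k8 c2532 c5525 c5524 c5373 c5537 c5536 c5459 c5457 (k8 c5535 c9727 c8772 c10661 c5657 c2101 c10638 c5482 (k1 c10201 k0))) (by decide +kernel)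
def c10663 : PP 9 3 T 0x210000000000000000000500000154000000011000015000020 := rS 0xe330485cbfb1 (k4 c5396 c1118 c1064 c312 (k2 c5284 c714 (k1 c3567 k0))) (by decide +kernel)
def c10664 : PP 9 3 T 0x10000000000000000000000000000000000000000000000080000000000000002000000000050000002040010002000000000000000020 := rS 0x11a4509d60e0ff37edfe66b08a44ba0f2da1f394b (k8 c5334 c5211 c5373 c2101 c9737 c498 c5374 c3026 (k8 c9672 c5588 c5422 c1148 c4711 c2611 c5231 c318 (k2 c504 c753 (k1 c8187 k0)))) (by decide +kernel)
def c10665 : PP 9 3 T 0x1000000000000000000000000000000000000000000004000000200000000000000000000000000000000000000000000000000002000000000000000000 := rS 0xacfbfe74b (k4 c5334 c5588 c5504 c5341 (k1 c5171 k0)) (by decide +kernel)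
def c10666 : PP 9 3 T 0x6000000000008000002040000000000000000000000000000001000000000000000000400001500004100000101454000800000000000000000000000 := rS 0x3e9ff42e2462853ae14db7d5a89 (k8 c5484 c5490 c5538 c5536 c5460 c5458 c1121 c9639 (k4 c3620 c5381 c807 c1551 (k1 c5670 k0))) (by decide +kernel)
def c10667 : PP 9 3 T 0x6000000000000000100040000000000000000000000000000001000000000000000000400001400004100000141000000800000000000000000000000 := rS 0x388f8a14eb8536df (k8 c5538 c5536 c5460 c5458 c1122 c5670 c3620 c1551 k0) (by decide +kernel)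
def c10668 : PP 9 3 T 0x200002000000000000100020000000000000000000000000000000000001100500000000000001000000000000001000000000000100000040000000000820 := rS 0x3497eb3c7e0e4f74e2dce3943ded0789 (k8 c5527 c5525 c5375 c5373 c5534 c5461 c5553 c5555 (k4 c5630 c5634 c975 c6262 (k2 c3614 c6187 (k1 c5389 k0)))) (by decide +kernel)
def c10669 : PP 9 3 T 0x505000000000000010000000000000000040000000004000000000014000000510000000000000000000000000000000000000150002000000000000040000 := rS 0x3571fd7c86fe4e917c235f307def394b (k8 c5334 c5211 c5375 c9737 c5588 c5697 c5208 c3127 (k4 c3128 c5511 c310 c3411 (k2 c517 c3405 (k1 c3573 k0)))) (by decide +kernel)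
def c10670 : PP 9 3 T 0x101000000000000000000000000080000000000000000000000000000001100000000000000000000004000000000000000000000000000000000000000000 := rS 0x20ff1 (k2 c5512 c2153 (k1 c5695 k0)) (by decide +kernel)
def c10671 : PP 9 3 T 0x800000400000000088100000000040000000000000004000000000000000000000000010800001000000000000000000000000000400200015000000000000 := rS 0x185aff8b66dedb8543646ed (k8 c5639 c5594 c5640 c6820 c1771 c603 c2193 c5629 (k2 c3213 c3589 (k1 c5781 k0))) (by decide +kernel)
def c10672 : PP 9 3 T 0x1002400000000098100000000000000000000000000000000000000000100580000000808001000004000000001000000000010102200055000000000820 := rS 0x117b7c2fe1f7c3fd68edd8cfcdea5d0796d0f9ca584c4fef29c25c4fe (k8 c504 c1769 c4783 c4938 c5582 c5570 c317 c5334 (k8 c5211 c5373 c2101 c9737 c498 c2340 c5588 c2576 (k8 c1819 c506 c10668 c10670 c10671 c5208 c5629 c5510 (k2 c3014 c10669 k0)))) (by decide +kernel)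
def c10673 : PP 9 3 T 0x115002000000000080000000000000000000000000000004000000005000000000000000000000050000000008000000000000000002000000000000000000 := rS 0x232b7fb59be74b (k4 c5334 c5588 c5172 c5208 (k2 c7381 c5641 (k1 c7209 k0))) (by decide +kernel)
def c10674 : PP 9 3 T 0x1002000000000010000000000000000000000000000004000000000000000000000000000000000005000000000000400000000002000004000080000040 := rS 0x16c2d86dbacf4727ba7e91b5debd7317f8c11c4d66a9fb426e69b2d245e40e4f5a37608fc1128738e4823b3a9e4625d62be5f6513995c14c738a7fc7ef7f404891d788755ead588a4861b13ed96a0436194d2834496517982da1e22f67ab3bbecd4ea552e0d35e701e99428d4cff38a895664779bf7654b (k8 c5334 c5228 c5405 c2532 c157 c2321 c10629 c1086 (k8 c5588 c5487 c10660 c10649 c10654 c9737 c5211 c9672 (k8 c9673 c5404 c5488 c5458 c5537 c6325 c10662 c2340 (k8 c5657 c9727 c5373 c2101 c10638 c5366 c5480 c5484 (k8 c5525 c9742 c5481 c3601 c2316 c10664 c5685 c5570 (k8 c2103 c3033 c1312 c5421 c5490 c5406 c5486 c5401 (k8 c10665 c3582 c3067 c504 c5582 c6706 c5572 c5571 (k8 c5535 c2315 c770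 c934 c4757 c5485 c5367 c5364 (k8 c498 c1474 c5524 c1530 c5456 c511 c5534 c5461 (k8 c5653 c3567 c5318 c5319 c5435 c5437 c5438 c1744 (k8 c312 c311 c1753 c2936 c10666 c5565 c10667 c4931 (k8 c5689 c1769 c10672 c5628 c3395 c3391 c3212 c4718 (k8 c4723 c10673 c5555 c5630 c505 c6262 c5659 c2205 (k2 c3702 c7319 (k1 c2324 k0))))))))))))))) (by decide +kernel)
def c10675 : PP 9 3 T 0x2000000000000000000000000000000000000000000000000000400040000000000000010000000000001440001000000004000200008000000040000 := rS 0x205c67f3eb501329639edc2df (k8 c5538 c5460 c5457 c5535 c5316 c3641 c390 c8164 (k4 c2998 c1663 c1658 c3610 k0)) (by decide +kernel)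
def c10676 : PP 9 3 T 0x1002000000000010000000000000000000000000000004000000000000000000000000000000000005000000000000400000000002000000000080000000 := rS 0x6940ce26fe2240c26b113ed96a5702028d8893296516c5cc06cb6437b0c5eacef9c44d2c78ec544ab31491d0a6b06a3c1e87489e5079c56abde2970e99d2bdf4cb353af37eeca9635 (k8 c10660 c5334 c5228 c5405 c2532 c5458 c5537 c10654 (k8 c6325 c5488 c5487 c5486 c5404 c5401 c5406 c5490 (k8 c5211 c5525 c5524 c5374 c5373 c9737 c2843 c9673 (k8 c9672 c10649 c157 c1312 c2321 c10629 c1086 c10665 (k8 c5535 c9742 c9727 c5588 c10662 c2340 c1474 c5657 (k8 c3033 c2101 c2103 c10638 c5364 c5366 c5480 c5481 (k8 c5484 c3601 c2315 c2316 c770 c10664 c5685 c5570 (k8 c5421 c317 c2195 c3582 c504 c2570 c10675 c5653 (k2 c10674 c5432 k0))))))))) (by decide +kernel)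
def c10677 : PP 9 3 T 0x2000000000000000000000000000000000000000000000000001000040000000000200400001440004100000000000000000000000000000000000000 := rS 0x1c6a14eb8536df (k4 c5538 c5536 c5460 c5458 (k2 c3000 c1663 (k1 c3620 k0))) (by decide +kernel)
def c10678 : PP 9 3 T 0x1002000000000010000000000000000000000000000004000000000000000000000000000000000005000000000000000000000002200000000080000020 := rS 0x5b0b61b6eb3d1c9ee9fa46d77af5cc5fe30471359aa92f1b2d3fad1b85d8233db4a16afe8186caef628829ea6c673eccaf945b2463982c96cc7f3889a58ed1738e63a194dc544ab323a14d68741e715ef14b8752bdf4cb353a6133fbd125d3b34c6b0179bf7654b (k8 c5334 c5228 c5405 c2532 c3067 c10660 c2937 c10676 (k8 c786 c2834 c5582 c5487 c724 c5458 c5537 c10654 (k8 c6325 c5488 c5486 c5404 c5401 c5406 c5211 c5525 (k8 c5373 c9672 c10649 c157 c2321 c10629 c1086 c5536 (k8 c1164 c10665 c5534 c5461 c5459 c5535 c9742 c9727 (k8 c5588 c9754 c715 c313 c6013 c1912 c10657 c5366 (k8 c5367 c5481 c5485 c3617 c3601 c2340 c2315 c4757 (k8 c5657 c770 c2103 c2195 c504 c10664 c5912 c5685 (k8 c5316 c5319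 c5433 c5435 c5437 c5572 c5420 c6706 (k8 c3577 c10677 c5689 c1769 c10672 c5628 c3395 c3391 (k8 c3212 c4718 c4723 c10673 c5555 c5630 c505 c6262 (k4 c5659 c2205 c3702 c7319 (k1 c2324 k0))))))))))))) (by decide +kernel)
def c10679 : PP 9 3 T 0x400000000000000000000000000000000000000000000000000100001000000000000000000005000000005400800540000000000000000080000010 := rS 0xbf9932000da03 (k4 c1111 c2316 c5642 c3601 (k2 c5481 c8384 (k1 c2054 k0))) (by decide +kernel)
def c10680 : PP 9 3 T 0x1002000000000010000000000000000000000000000004000000000000000000000000000000000005000000000000000000000002000000000080000000 := rS 0x2c44fb65a86c86f67a9b19c8932a2d9245cc164b66302184ba761abcfbe9533875fa9778abd5a8343ec8d79cf9c4696694eb4536cd8ec544ab31491d0a99 (k8 c10654 c10649 c157 c1312 c2321 c10629 c1086 c10665 (k8 c5537 c5536 c5459 c5458 c9742 c5334 c9727 c5588 (k8 c5211 c9672 c5228 c5373 c5525 c5490 c5406 c5401 (k8 c5404 c5405 c5486 c5487 c5488 c6325 c2532 c10660 (k8 c10676 c786 c724 c10679 c9754 c715 c313 c6013 (k8 c10678 c10657 c5366 c5481 c5484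 c3617 c3601 c2340 (k8 c5657 c3033 c2103 c10664 c5685 c5570 c5421 c3582 k0))))))) (by decide +kernel)
def c10681 : PP 9 3 T 0x101000000000000000000000000000000000000080000000000000000000000000000140400000000000000000000000000000000 := rS 0x113ef (k2 c5508 c1985 (k1 c5673 k0)) (by decide +kernel)
def c10682 : PP 9 3 T 0x40000000000000000000000000000000000000000000000000000000000004000000000008000000000000001080000500000004000015000000000150140 := rS 0x1fd027d6a407ded7 (k8 c1770 c5583 c3068 c8707 c2981 c857 c2999 c3569 k0) (by decide +kernel)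
def c10683 : PP 9 3 T 0x20000002000000000000000000040000000000000000001000000000000000000000000000000000000040000000000000000000005020 := rS 0xd687ce004b683 (k4 c5483 c715 c53 c6008 (k2 c8435 c5523 (k1 c10430 k0))) (by decide +kernel)
def c10684 : PP 9 3 T 0x80000000000000000000000000000000000000000000000000110000000000050000000100154154000000011000011000140 := rS 0x2e32d8980ee5f (k4 c5439 c5356 c3597 c10013 (k2 c3567 c1459 (k1 c5284 k0))) (by decide +kernel)
def c10685 : PP 9 3 T 0x2000000000000000000000000000000000000000000000000000100000000000050000000000140004000000011000015000160 := rS 0x5f30a48edb10b8ce51937898cb6592eb14ca75 (k8 c5482 c5481 c5364 c5361 c313 c715 c9754 c5811 (k8 c10684 c10195 c5316 c5433 c9240 c10209 c3577 c724 (k2 c1516 c5663 k0))) (by decide +kernel)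
def c10686 : PP 9 3 T 0x4000000000000000000000000000200000000000000000000800044050000000000000000000000 := rS 0x61 (k2 c724 c10657 k0) (by decide +kernel)
def c10687 : PP 9 3 T 0x10000000000000000000000000000000000000000000000000000000000000000000000000000000000002000000000000200000 := rS 0xace87e74b (k4 c5334 c5588 c5377 c5337 (k1 c5221 k0)) (by decide +kernel)
def c10688 : PP 9 3 T 0x40002000000000020000100000000000000000000000008000000100000000000000000000000000000014000028001040110400000000000000000000000 := rS 0x38d6acbdba38e2e14db7e2ab3 (k8 c5532 c5414 c5538 c5536 c5460 c2873 c2118 c8411 (k4 c8466 c2402 c2403 c5920 k0)) (by decide +kernel)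
def c10689 : PP 9 3 T 0x200000000000000000000000008000000100000000000000000000000000000000000040000000000110000000000000000110000 := rS 0x112134690c8a5b (k4 c5474 c5326 c5478 c5381 (k2 c5564 c5567 (k1 c3572 k0))) (by decide +kernel)
def c10690 : PP 9 3 T 0x80000000000000000000000000000008000000000000000000000000000000000 := rS 0x11890 (k2 c2198 c2197 (k1 c10035 k0)) (by decide +kernel)
def c10691 : PP 9 3 T 0x100000000000000000000000000000000000000000000000000000000000000008000000050040000004000010000000001050140 := rS 0x3c0aa047fb7 (k4 c5572 c2879 c1604 c9724 (k2 c3569 c8150 k0)) (by decide +kernel)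
def c10692 : PP 9 3 T 0x110000000000000000000040000000100001000000000000000000000000400005100000000000000004005002100000001000020 := rS 0x38137f25ab2dc69350b7eb229 (k8 c8199 c5560 c2771 c2767 c1569 c1494 c1490 c9106 (k4 c5221 c9848 c3620 c5591 k0)) (by decide +kernel)
def c10693 : PP 9 3 T 0x8000000000000000000000000000010000000000000000000500000014000000004000000000140 := rS 0x1896c6a5d (k4 c5321 c5324 c5474 c5476 (k1 c3567 k0)) (by decide +kernel)
def c10694 : PP 9 3 T 0x100000000000000000000000000000000000000000000000000200000000000180001000000000000208000 := rS 0x3dafd7fc06071554aad0cf3899b497b410d2f3bef569cd666558edb43110088c340457909e203 (k8 c9722 c9697 c925 c2777 c9725 c716 c9734 c9723 (k8 c9730 c5381 c5212 c5421 c2171 c5574 c9717 c2031 (k8 c5505 c5369 c5329 c9735 c9737 c10387 c741 c954 (k8 c445 c872 c9859 c1907 c5414 c1936 c2142 c2781 (k2 c1076 c5499 (k1 c9179 k0)))))) (by decide +kernel)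
def c10695 : PP 9 3 T 0x4000000000080000000000000000000000000000000000000001000045000000100040000000041001001000008000080000000000000000000000000 := rS 0x40556e336f8566b1 (k8 c5421 c5574 c5457 c743 c1776 c2124 c9158 c8604 k0) (by decide +kernel)
def c10696 : PP 9 3 T 0x5000000000000000000010000000000000000000000000000000001000055000000000000040001551000000000004000010404000020000000000204040 := rS 0x39069b096aaf9444023b058de9404 (k8 c9725 c6008 c5518 c5516 c5332 c9723 c9730 c5694 (k4 c3623 c5546 c9859 c531 (k2 c546 c5710 k0))) (by decide +kernel)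
def c10697 : PP 9 3 T 0x4000000000000000010000000000000000100000000000000001000045000000000040040000041001000200001000080404000020000000000204140 := rS 0x720d6fc4a007bf6fbd129138ab4e6b35a99563b6d084c1637708ee9404 (k8 c9725 c6008 c5332 c1714 c5518 c5516 c184 c5381 (k8 c5212 c5421 c2171 c5422 c5574 c9717 c2031 c9684 (k8 c10035 c195 c5505 c10405 c10695 c10696 c2142 c2952 (k2 c2599 c547 (k1 c3568 k0))))) (by decide +kernel)
def c10698 : PP 9 3 T 0x40000000000000000100000000000000001000000000000000000000000000000000400400000000000082000010000804040000a0000000008204140 := rS 0x3d8e41a6c35b7d1fb58a3fd53037ea748ef51b82c3e3ba5244091100abde203 (k8 c9722 c9697 c2777 c9723 c9730 c9725 c10035 c6008 (k8 c5332 c5517 c5516 c5518 c5519 c5520 c1694 c1075 (k8 c1935 c1906 c2780 c10697 c5414 c2845 c2951 c1140 (k4 c5665 c532 c547 c743 (k1 c3568 k0))))) (by decide +kernel)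
def c10699 : PP 9 3 T 0x80000000000000000000000000000000000000000000000000040000000000000000004000000004000000540000000005440 := rS 0xf209 (k2 c5438 c5441 (k1 c3568 k0)) (by decide +kernel)
def c10700 : PP 9 3 T 0x1000000000000000000000000000000000000000000000000000000000001000000000000000000001000000000000000080000000000000000000002024 := rS 0x6d0406d (k4 c2427 c315 c5830 c5528 k0) (by decide +kernel)
def c10701 : PP 9 3 T 0x4000000000000000000000000000000000000000000000001000000000000000010000000000000000000000000080000000004000000 := rS 0x3b3b (k2 c5478 c2000 (k1 c5649 k0)) (by decide +kernel)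
def c10702 : PP 9 3 T 0x4004000000000000000000000000000000000000000000000000000000000000000000140000000000000000000040800000000000000000000000000000 := rS 0x1afdf (k2 c5493 c2188 (k1 c5689 k0)) (by decide +kernel)
def c10703 : PP 9 3 T 0x84000000000000000000000000000000000000000000000000000140200000000005011500008000000000000000000000000000000000 := rS 0xe38ac0fdab34fb2d6b01 (k8 c3072 c5422 c5420 c5572 c5574 c5499 c10690 c9222 (k2 c1663 c3620 k0)) (by decide +kernel)
def c10704 : PP 9 3 T 0x1000000000000000000041000000010400000080000000000000000000202000 := rS 0x40e2bec471a823a1099c4060439d66220159ac56bb6 (k8 c9724 c5422 c5421 c5574 c9723 c9730 c5337 c9717 (k8 c9725 c9722 c9720 c184 c5377 c183 c316 c532 (k4 c10700 c10439 c2405 c10405 k0))) (by decide +kernel)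
def c10705 : PP 9 3 T 0x4000000000085000100040000000000000000000000000200000000000054000100200040000005001500000160000000950001000000000000005020 := rS 0x453c01e3c8290edf59a7d96b50b8dd428541e63dfdf (k8 c5454 c5585 c5186 c5483 c5365 c1122 c5435 c5433 (k8 c5422 c5420 c5572 c5574 c2830 c10703 c3571 c2307 (k4 c718 c10403 c10667 c1087 k0))) (by decide +kernel)
def c10706 : PP 9 3 T 0x80000000000000000000000000000000000000001000000000000440000000000000010588000000000000000000800000000100000000 := rS 0x3853a3d59a7d96b5 (k8 c5422 c5420 c5572 c5574 c4211 c1695 c2788 c3620 k0) (by decide +kernel)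
def c10707 : PP 9 3 T 0x10000000000000000000000000000000000000000000001000000000000000000000000050004000500080044000000850000080000144 := rS 0x1ed54bd9ea3218b15561b2c97766f1 (k8 c9697 c5487 c9748 c2004 c1902 c2123 c734 c9332 (k4 c3567 c2046 c492 c2319 (k2 c5498 c5682 k0))) (by decide +kernel)
def c10708 : PP 9 3 T 0x2000000000000000000000000000000000000000000000000000000440000000000010050020010000000000000000000000000200000 := rS 0x6aabcd20165ac55bb6 (k8 c9724 c5573 c5421 c5420 c9723 c9744 c2836 c2837 (k1 c5982 k0)) (by decide +kernel)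
def c10709 : PP 9 3 T 0x1000000000000000000000002040000000000000000000000000000000200900 := rS 0x81aa7d8420d4ecb5b333227ded36ba04ea7df1648ee071aa565257d8325423a308586e9bf0e86b2713498d96b156ed8474b4784cf62100a1cd6032584517b5364543c042483fe712 (k8 c926 c5547 c150 c507 c9725 c718 c1087 c717 (k8 c5529 c3896 c183 c2589 c9722 c2306 c3841 c9723 (k8 c2417 c3840 c184 c2312 c5516 c9734 c9724 c5573 (k8 c5421 c5420 c9755 c9744 c9720 c5337 c5377 c5458 (k8 c168 c1480 c5855 c1696 c1083 c1277 c3997 c7600 (k8 c771 c5433 c4237 c1619 c713 c5912 c10195 c5168 (k8 c8164 c5440 c5463 c5465 c5579 c5892 c10708 c8130 (k8 c5487 c10707 c5474 c716 c925 c5228 c1907 c1936 (k1 c10407 k0))))))))) (by decide +kernel)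
def c10710 : PP 9 3 T 0x14000000000000000000000000000000000000000000000000000000000000000000000000000000000000080000000000000080200000 := rS 0x10354fb0841a9de84e2010208496b5db1ad1f9ca5c54920f (k8 c9737 c507 c1087 c5517 c5211 c5526 c9672 c9724 (k8 c5422 c2590 c58 c9725 c9723 c9720 c5377 c5474 (k4 c716 c925 c5228 c1907 (k2 c1936 c10407 k0)))) (by decide +kernel)
def c10711 : PP 9 3 T 0x200000000000001000000000000000000000040000000500080054000000000000000000140 := rS 0x1c1a06f665d18ced8a33 (k8 c5316 c734 c10693 c5434 c9748 c5487 c1902 c3567 (k2 c5649 c332 k0)) (by decide +kernel)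
def c10712 : PP 9 3 T 0x20000000000000000000000000000000000000000000000004000000000000000000000000000000000000080000000000000080200000 := rS 0x1f2807b5ff037eabfde420d2327611d0d6402047880d66b156d2c96b5db2ae2aa9 (k8 c5531 c5414 c5413 c9724 c5422 c2590 c5517 c5573 (k8 c5421 c5574 c9722 c9697 c9725 c9723 c5337 c5377 (k8 c183 c5474 c924 c716 c925 c5505 c10406 c1076 (k4 c1936 c2781 c10275 c3623 (k2 c5171 c5592 k0))))) (by decide +kernel)
def c10713 : PP 9 3 T 0x1001000000000000000000000000000000000000040000000000000000008000000000014000000000000000000000800000004000000000000000200000 := rS 0x3f3ac6471f3c6de66207bf93d0811a67f (k8 c804 c2943 c9725 c5377 c5356 c5493 c939 c5688 (k8 c2506 c5580 c5670 c2829 c2830 c5526 c794 c6008 k0)) (by decide +kernel)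
def c10714 : PP 9 3 T 0x8000000000000008000000000000000000000000040000000500080054000001800000000200140 := rS 0x3c4de20b325232acbc4063f69b3c6ac5 (k8 c734 c5324 c1646 c2943 c3746 c9722 c9697 c5337 (k4 c10693 c10711 c493 c545 (k2 c2506 c5655 (k1 c5580 k0)))) (by decide +kernel)
def c10715 : PP 9 3 T 0x80000000000000020000000000000000000000000000000000000000000000000000000000000000000000000000000000000008000000000000000200000 := rS 0xc9ca743594ec55c6e1 (k8 c5591 c5549 c5414 c5412 c5337 c5377 c5313 c5353 (k1 c9176 k0)) (by decide +kernel)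
def c10716 : PP 9 3 T 0x1000000000000000000000000000000000000000000000000000000000008000000000010000000000000080000000101080004000000810000000200000 := rS 0x3b38f7cc8ce51e320b79a88704b3127dfac8fc1a3d7096c86f32c80d06a959ed9ea452e9dd9fe1a582c0885 (k8 c735 c9725 c717 c5332 c5456 c1646 c10713 c9748 (k8 c454 c2342 c9724 c5574 c2452 c2007 c9722 c2004 (k8 c449 c2781 c925 c3013 c1680 c3762 c3746 c5337 (k8 c5452 c1637 c5688 c311 c2073 c2507 c2506 c1656 (k8 c5580 c5655 c5316 c10209 c2071 c8541 c3571 c5369 k0))))) (by decide +kernel)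
def c10717 : PP 9 3 T 0x40000000000000000000000000080000000000000000000000060000000000000000000000000000220 := rS 0xce83d1c79 (k4 c2388 c2829 c472 c5526 (k1 c6008 k0)) (by decide +kernel)
def c10718 : PP 9 3 T 0x1000000000000020000000000000000000000000000008000000001000008000000000010000000000000000000000100080004000000800000000200000 := rS 0x3f3ac635269bea13e178109736a75669f65ad76c9911810b6437981c7ae12c80dc64922974fe77678d7c34b (k8 c5332 c5456 c5324 c1646 c10713 c804 c9748 c454 (k8 c3006 c1774 c9722 c2004 c3013 c1680 c923 c449 (k8 c2781 c925 c9725 c9734 c1592 c9724 c5422 c5420 (k8 c5572 c5574 c5412 c5529 c10716 c10714 c312 c528 (k8 c1122 c10717 c3620 c1119 c1120 c5523 c794 c6008 k0))))) (by decide +kernel)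
def c10719 : PP 9 3 T 0x1000000000000004000000000000000000000000000000000000000000000000000000000000000005002040000000000000000000000000000000000000 := rS 0x1fbb5 (k2 c5412 c1239 (k1 c5682 k0)) (by decide +kernel)
def c10720 : PP 9 3 T 0x8000000000000008000000100000000000000000040000000100080004000000800000000200200 := rS 0x7e758c6a4d27556ae6ab7daec950a54807c2f27d96b15aab533ed54acf6db332b8cfed3678d62a4b79d2c4604ac9248a5d (k8 c9748 c454 c3006 c5337 c9725 c9734 c5332 c5325 (k8 c2568 c6578 c5324 c1646 c2943 c804 c1774 c63 (k8 c5487 c9724 c5574 c2452 c5544 c1592 c5573 c5422 (k8 c5421 c5420 c5572 c312 c528 c527 c1518 c1122 (k8 c1117 c1549 c10717 c1656 c3618 c1286 c10719 c3620 (k4 c1119 c1120 c5523 c794 (k1 c6008 k0))))))) (by decide +kernel)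
def c10721 : PP 9 3 T 0x8000000000000008000000000000000000000000000000000800000004000000800000000200000 := rS 0x398c866852fc20df696d9e35 (k8 c5324 c1646 c5474 c5544 c3762 c5456 c5332 c10713 (k4 c2131 c2132 c8435 c794 k0)) (by decide +kernel)
def c10722 : PP 9 3 T 0x8000000000000008000000000000000000000000040000000100080004000001800000000200000 := rS 0x10e103d669659019248a5d2d9dc96f3 (k8 c5325 c2568 c10721 c5474 c9748 c454 c3006 c9722 (k4 c2004 c5332 c5337 c923 (k2 c6188 c10714 (k1 c10720 k0)))) (by decide +kernel)
def c10723 : PP 9 3 T 0x8000000000000008000000000000000000000000040000000100080004000000800000000200000 := rS 0x3303b3502096f8f0ee111c96406c5 (k8 c734 c9722 c2004 c154 c183 c10721 c10722 c2771 (k4 c1513 c4239 c2506 c922 (k2 c493 c10693 k0))) (by decide +kernel)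
def c10724 : PP 9 3 T 0x1000000000000000000000000000000000000000000004000000000000000001000000000000000000000040000000500080054000000805000000000140 := rS 0x7786929a5f84bac5 (k8 c734 c9748 c5456 c5332 c10711 c3567 c5165 c5450 k0) (by decide +kernel)
def c10725 : PP 9 3 T 0x8000000040000000000000000040000000500080004000000800000000200100 := rS 0x1a779e4957b868b43366ec5e2b365ad76c5901b8c92317a914bb1570fcab3ef059b40e174eed277b3a5fb408c9 (k8 c2063 c9725 c5544 c5332 c5487 c10723 c5228 c5412 (k8 c1676 c714 c5529 c717 c5586 c5337 c5171 c5591 (k8 c5414 c9748 c454 c2342 c1679 c3006 c1774 c9722 (k8 c2004 c9724 c5422 c5420 c5574 c9697 c6118 c2506 (k8 c493 c10724 c716 c2102 c1904 c5657 c5678 c448 (k1 c5450 k0)))))) (by decide +kernel)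
def c10726 : PP 9 3 T 0x1000000000000004000000000000000000000000000004000000000000000010000000040100000000000040000000000000080000001800000000200000 := rS 0x69ded8b55aef24aabc84f70d04742017880d96b156ed8620b36ed29604 (k8 c9725 c5332 c5228 c5529 c717 c1679 c9724 c5573 (k8 c5421 c5420 c9722 c9697 c9723 c5377 c183 c716 (k8 c2102 c925 c10406 c1904 c5657 c1933 c2778 c9617 (k2 c5678 c448 (k1 c5450 k0))))) (by decide +kernel)
def c10727 : PP 9 3 T 0x8000000000000000000000000040000000500080004000000800000000200100 := rS 0x3bc329496da6cf6f325e3e12c80c62f5229747ae1f9567de070ba77693bd9d2fda04 (k8 c9725 c5544 c5332 c5487 c10723 c5228 c5412 c1676 (k8 c714 c5586 c5337 c5171 c5591 c1680 c9748 c454 (k8 c2342 c1679 c9722 c2004 c5456 c9697 c2063 c10725 (k4 c5851 c2943 c10726 c10711 (k2 c10724 c5165 (k1 c5492 k0)))))) (by decide +kernel)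
def c10728 : PP 9 3 T 0x4000000000000008000000000000000000000000040000000800080004000000800000004200000 := rS 0x6a343c6cf69a6c6b1cd807086f101ab76de1719248a5d3fed366e1f952eb3edf7f7d2a63008ce5004 (k8 c9725 c5912 c5316 c9723 c9755 c2015 c5493 c5586 (k8 c5544 c5337 c5332 c5171 c5591 c5487 c5228 c804 (k8 c9748 c454 c3006 c1774 c5456 c9724 c5573 c9722 (k8 c9697 c10701 c5649 c9823 c9858 c332 c5397 c2081 (k4 c1646 c6661 c10713 c10702 (k1 c1710 k0)))))) (by decide +kernel)
def c10729 : PP 9 3 T 0x4000000000000008000000000000000000000000040000000800080004000000800000000200000 := rS 0xc86834d9e5a7b86bc2f52297557b4d98f5c3f2a5d67dbef (k8 c5586 c5544 c5337 c5332 c5171 c5591 c1680 c5487 (k8 c5228 c5413 c9748 c454 c2342 c5456 c10728 c2103 (k4 c1902 c1647 c2943 c10713 (k2 c10726 c4497 k0)))) (by decide +kernel)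
def c10730 : PP 9 3 T 0x8000000000000000000000000040000000100080004000000800000000200000 := rS 0x3f3ac635269bea13e178107770c553bf2da4eeb2b34fb2d6bb6a5a644604f7fb766e324914ba7f (k8 c804 c9748 c454 c3006 c1774 c5487 c5544 c5586 (k8 c9725 c9734 c1592 c5332 c9724 c5422 c5420 c5572 (k8 c5574 c5337 c10723 c5228 c5171 c5412 c5414 c5591 (k8 c10729 c10727 c312 c528 c1122 c10717 c3620 c1119 (k4 c1120 c5523 c794 c6008 k0))))) (by decide +kernel)
def c10731 : PP 9 3 T 0x4000000000000008000000000000000000000000000000000100080004000000800000000200000 := rS 0x142df4db4d9ccd8e3d886f30d8d1a21719b84db154eca3e5b4acbc406b34fb2d6aaddb52fc29911813dfedd9bd5c64922977be96 (k8 c10730 c5452 c9748 c454 c3006 c1774 c2342 c5487 (k8 c5544 c5586 c9725 c9734 c1592 c5456 c5332 c9724 (k8 c5573 c5422 c5420 c5572 c5574 c9722 c9697 c5337 (k8 c5228 c5171 c5165 c5412 c5414 c5529 c5591 c5316 (k8 c5433 c1708 c10716 c1073 c449 c10701 c5657 c9858 (k4 c2071 c502 c2081 c1232 (k2 c5851 c1234 (k1 c3620 k0)))))))) (by decide +kernel)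
def c10732 : PP 9 3 T 0x20000000000000000000000000000000000000000000008000000000000000000000000000000000100080004000000800000000200000 := rS 0x3413bed4b45496f39d52c4604ac9248a5d (k8 c9748 c454 c3006 c5337 c9725 c9734 c5332 c10731 (k8 c5325 c2568 c6578 c10730 c5544 c5412 c10718 c1708 k0)) (by decide +kernel)
def c10733 : PP 9 3 T 0x8000000000000000000000000000000000100080004000000800000000200000 := rS 0xc80ecd4db14c27bd83f339b504aad26cf3b96c6b3aefa58094bf0fb552b3db6ccb20318bd48a5d (k8 c9748 c454 c2342 c1679 c9722 c2004 c5487 c9724 (k8 c5574 c2452 c5544 c5456 c5332 c9725 c10730 c5452 (k8 c10731 c5324 c5474 c10721 c1646 c1637 c1285 c311 (k8 c10732 c5211 c5682 c5195 c5372 c5445 c733 c5397 (k4 c2504 c1674 c3567 c493 k0))))) (by decide +kernel)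
def c10734 : PP 9 3 T 0x1000000000011000000000000000000000000040000000000000000000000000000000000000000001100000000000000800000000000000000000000 := rS 0x1346b (k2 c9672 c5679 (k1 c1119 k0)) (by decide +kernel)
def c10735 : PP 9 3 T 0x40000000000000000000000000000000000000000000800000000000000804000000000000000000020 := rS 0x7e758c6a (k4 c1119 c1120 c5523 c794 (k1 c6008 k0)) (by decide +kernel)
def c10736 : PP 9 3 T 0x8000000000000000000000000000000000000080004000000800000000200000 := rS 0x19d43a38f2de4da14dbb43e455429dd8b8518ab2f251ab993a1ff429f65ad697e14c88c09eff6a2d12ad41aa567b6719248a5d (k8 c9748 c454 c3006 c1774 c9724 c5574 c2452 c2007 (k8 c5573 c2009 c3858 c5544 c5586 c9725 c9734 c1592 (k8 c5456 c5332 c5422 c5420 c5572 c5377 c804 c10733 (k8 c5482 c1533 c2005 c2006 c4491 c5673 c3012 c5446 (k8 c1699 c1122 c3011 c2174 c10734 c5529 c735 c10735 (k4 c3620 c2388 c2829 c2116 (k2 c5526 c5672 k0))))))) (by decide +kernel)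
def c10737 : PP 9 3 T 0x8000000800000000000000 := rS 0x3380ec9ca697e1 (k4 c5456 c5332 c5313 c5353 (k2 c489 c5215 (k1 c5369 k0))) (by decide +kernel)
def c10738 : PP 9 3 T 0x1000000000000000000000000000000000000000000000000100000000000000000000200000000000000000000000000000000000020800000000000000 := rS 0x13a1a77e97e1 (k4 c5456 c5332 c5454 c1656 (k2 c5165 c5324 k0)) (by decide +kernel)
def c10739 : PP 9 3 T 0x1000400000000000000000000000000000000000000000000100000000000000000000001000000000000000000004500000010000000800000000000100 := rS 0xd0620d6754bf095c0e33 (k8 c493 c1674 c10737 c5456 c5332 c5165 c5324 c10693 (k2 c6899 c1706 k0)) (by decide +kernel)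
def c10740 : PP 9 3 T 0x20000000000000000000000000000000000100000000000000000000000000000000000400000000000000000001011800000000200000 := rS 0x70f889759db52c7ee3 (k8 c1774 c3746 c5332 c9724 c5337 c562 c5655 c6188 (k1 c6661 k0)) (by decide +kernel)
def c10741 : PP 9 3 T 0x8000000000000000020080000000000000100000000000100000000008000000400000000000000000000000000400000010000000800000000000000 := rS 0x313bc339d337e6dfa595fdfed039ec1275 (k8 c5440 c5438 c5372 c1674 c5544 c5586 c10737 c5332 (k8 c5580 c8118 c2506 c5171 c493 c10739 c10693 c5451 k0)) (by decide +kernel)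
def c10742 : PP 9 3 T 0x20000000000000000000000000000100000000008000000000000000000000000000000000000000000000000800000000200000 := rS 0x18975eb9822cec6ac5ef0cd9ad5200f5c3f2f19d413923be86b34bf08ffdfed2d99cae04039edc64907965128f (k8 c5526 c2839 c530 c5369 c507 c1774 c5372 c1674 (k8 c9725 c10737 c10736 c715 c5544 c5586 c3746 c5456 (k8 c5332 c5337 c5377 c5912 c10195 c5438 c5440 c10741 (k8 c5168 c5591 c1680 c5655 c10738 c2507 c493 c10739 (k8 c5451 c5450 c10693 c458 c5219 c2342 c5361 c1679 (k1 c3567 k0)))))) (by decide +kernel)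
def c10743 : PP 9 3 T 0x4000000000000000000000000000000000100000004000000000000008000000000100000000000000000000000000000000000100820000000000000 := rS 0x33884d28efbfbed7 (k8 c1764 c5450 c5586 c553 c5689 c5658 c2943 c10442 k0) (by decide +kernel)
def c10744 : PP 9 3 T 0x4000000000000000020080000000000000000000000000000000000008000000000000010000000000000000000000000000000000800000000200000 := rS 0x7b33dbcf340b45a6d47af7c8ae1898d0bbf2cc4ef4359f0a4697eff696cce57021e40e7b719241e5944a3c6728049f4ee75 (k8 c5440 c5356 c5442 c5438 c10742 c5316 c5526 c2839 (k8 c530 c5369 c507 c1774 c5372 c1674 c5524 c9725 (k8 c10737 c10736 c715 c5544 c5586 c5332 c10190 c5456 (k8 c5337 c5377 c10693 c5219 c5171 c5361 c10209 c5547 (k8 c5591 c454 c5450 c2342 c10743 c141 c7428 c1658 (k4 c449 c5846 c2565 c5657 (k1 c502 k0))))))) (by decide +kernel)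
def c10745 : PP 9 3 T 0x4000000000000000000000000000000000000000000000000000000000000000000000000020000000000000010000000000000000020000000000200000 := rS 0xd5a93a466674359 (k8 c5337 c5377 c5364 c9178 c5219 c948 c5324 c1656 k0) (by decide +kernel)
def c10746 : PP 9 3 T 0x1000000000000000000000000000008000200000000000000000000140110000040000050000000500000014000000000000010200040 := rS 0x35d427c2f0200829d0a7d96addb1fc661b (k8 c5475 c5316 c804 c9724 c5573 c5420 c5572 c5377 (k8 c8199 c9725 c10693 c312 c528 c1122 c1549 c10482 k0)) (by decide +kernel)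
def c10747 : PP 9 3 T 0x21000000000000000000000008000000000000008000000000000000000000000000000000000000000000020800000000200000 := rS 0x42bdc17130ffc936df3e1781074daadb62950eabd9297d977919597880cd2630088e97e11f834fe5b338110e83039edc64907964661718ca326c5f1bcc36f53b95cca8b2ea251fefd0ac76cd367b85aa35 (k8 c5324 c1656 c3012 c1646 c2943 c9724 c5421 c5377 (k8 c5586 c5526 c2839 c5321 c853 c8120 c10737 c10721 (k8 c5477 c5475 c5325 c5462 c10745 c10744 c10742 c5434 (k8 c5433 c5316 c530 c5369 c507 c1774 c5372 c1674 (k8 c5525 c5373 c9725 c10736 c715 c804 c3762 c3746 (k8 c5456 c5332 c9734 c9723 c9755 c9744 c9722 c9697 (k8 c5337 c9178 c5186 c5664 c5452 c5494 c5406 c5486 (k8 c5488 c7402 c8057 c5533 c10746 c9278 c9271 c2174 (k8 c10717 c10735 c5691 c7579 c5547 c718 c8123 c949 (k1 c3571 k0)))))))))) (by decide +kernel)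
def c10748 : PP 9 3 T 0x20000000000000000000000008000000000000008000000000000000000000000000000000000000000000020800000000200000 := rS 0x157b37eed55c9c4bb5d36c950a55be923e1781075cc455c2d33292daacf459dde6352ee86b29f65ac56aada5a64467ff7fb552b3db16cce570238c920f2ca251f28 (k8 c10742 c5526 c2839 c530 c5369 c507 c1774 c9725 (k8 c10737 c10736 c715 c9724 c5574 c2452 c5544 c5586 (k8 c804 c9734 c1592 c5332 c5573 c5422 c5421 c5420 (k8 c5572 c5337 c5377 c5321 c5324 c5325 c10721 c853 (k8 c1646 c1656 c2568 c8120 c2943 c3012 c6578 c10747 (k8 c5482 c10209 c312 c528 c311 c10717 c1519 c1122 (k8 c1117 c10735 c1549 c1637 c3620 c10481 c5412 c1239 (k2 c5406 c1286 (k1 c5682 k0))))))))) (by decide +kernel)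
def c10749 : PP 9 3 T 0x20000000000000000000000000000000000000008000000000000000000000000000000000000000000000020810000000200000 := rS 0xd9ed55c9c4bb5d36c950a55be923e178107769b559eb34fb2d6aaddb264467f2d99cae04719241e5944a3e51e3329d731a18ab87e53ba5d67dbef (k8 c5586 c5544 c5337 c5332 c10748 c5171 c5591 c5590 (k8 c5377 c5219 c5482 c5481 c5462 c10742 c5526 c2839 (k8 c530 c5369 c507 c1774 c9725 c10737 c10736 c715 (k8 c804 c9734 c1592 c9724 c5573 c5422 c5420 c5572 (k8 c5574 c1646 c1656 c2943 c10702 c10209 c312 c528 (k8 c311 c10717 c1519 c1122 c1117 c10735 c1549 c1637 (k4 c3620 c10481 c5412 c5406 (k1 c5228 k0)))))))) (by decide +kernel)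
def c10750 : PP 9 3 T 0x20000000000000000000000000000000000000008000000000000000000000000000000000000000000000020800000000200000 := rS 0x9b4ea499c216f82142f6649f1e66140b45a9df1a3d48ae18a994bbf2cc4ef26c5f1e86b26300acd3ecb5aeda97e14c88c087f2bfbfda8947b8c920f (k8 c5369 c507 c1774 c5526 c2839 c5544 c5586 c10737 (k8 c804 c9725 c9734 c1592 c5456 c5332 c9724 c5422 (k8 c5420 c5572 c5574 c9723 c9755 c5337 c5377 c5462 (k8 c10745 c10744 c10748 c5219 c5171 c5361 c5481 c5590 (k8 c5591 c454 c2342 c10749 c5450 c10743 c7428 c1658 (k8 c10426 c449 c5670 c10171 c5657 c2826 c1545 c2829 (k4 c3690 c502 c311 c1695 (k2 c2563 c3620 k0)))))))) (by decide +kernel)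
def c10751 : PP 9 3 T 0x20000000000000000000000004000000000000008000000000000000000000000000000000000000000000000820000000200000 := rS 0x178c29ad89f13a77c9b7d428110b43c446793551a426b98c02b34fb2d6bb64c96cce57439ad128f7185e2a230238496412483c7b28f952fdac5459d48a5dcc7bf4359 (k8 c5337 c5377 c5586 c5219 c5361 c454 c5482 c5366 (k8 c5364 c5544 c5332 c5171 c10742 c5436 c5369 c507 (k8 c10750 c562 c6188 c9725 c9734 c6578 c5433 c1774 (k8 c5526 c2839 c5523 c5373 c10737 c10736 c715 c1592 (k8 c9724 c5422 c5420 c5572 c5574 c9723 c9755 c1764 (k8 c5281 c1929 c2778 c2781 c2780 c10743 c449 c2422 (k8 c5463 c5578 c5580 c8118 c2131 c5855 c5287 c6118 (k4 c3620 c1579 c5663 c1119 k0)))))))) (by decide +kernel)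
def c10752 : PP 9 3 T 0x20000000000000000000000004000000000000008000000000000000000000000000000000000000000000000800000000200000 := rS 0xd03b33c6a756297731a1acd2fc3eff696cce570221c0e7b2ca251e3318ca01241 (k8 c10750 c527 c10742 c5434 c5316 c5526 c2839 c530 (k8 c5372 c1674 c5373 c9725 c10737 c10736 c715 c5544 (k8 c5586 c5456 c5332 c5337 c5377 c5219 c5361 c5364 (k4 c5482 c10751 c1646 c3567 (k2 c10713 c2131 k0))))) (by decide +kernel)
def c10753 : PP 9 3 T 0x200000000000000000000000000000000000000000000200050000000000010000004000101 := rS 0x6cd9297cc9a4c633 (k8 c5316 c9755 c9744 c5482 c1529 c1966 c9278 c5664 k0) (by decide +kernel)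
def c10754 : PP 9 3 T 0x20000000000000000000000000000000000000008000000000000000000000000000000000000000000000000800000000200000 := rS 0xb7ba1626c766231a3dfccb10ea65459ddea1b798d4bb3a0490467282ca240e8f41a1cf60fd0d6402b1db037dfed2d99cae04 (k8 c9725 c10737 c10736 c715 c5544 c5586 c3762 c9724 (k8 c5421 c9723 c5337 c5377 c5369 c5372 c5373 c5525 (k8 c5526 c1674 c2839 c530 c10742 c5316 c10750 c527 (k8 c10752 c5321 c5324 c5325 c5475 c5477 c10721 c853 (k8 c8120 c10753 c10693 c10209 c5451 c1706 c9178 c6899 (k4 c3938 c4668 c2502 c2071 (k2 c926 c3571 k0))))))) (by decide +kernel)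
def c10755 : PP 9 3 T 0x2000000000000000100000000000000000000008000000000000000000000000000000000400000150000005811000000000140 := rS 0x789bc41660ca525769b3d8a75 (k8 c5482 c5364 c1646 c2943 c10737 c10209 c3567 c493 (k4 c545 c2506 c5655 c5580 k0)) (by decide +kernel)
def c10756 : PP 9 3 T 0x10000000000000000000000000000000000000000000000000000000000000000000000000000000000000000800000000200200 := rS 0x9b50b7cf85e59a7d96b5db26446043f95dc6494ec5768e1f952f4359 (k8 c5337 c5377 c5332 c5221 c5591 c5211 c5414 c5412 (k8 c10687 c1774 c10737 c804 c9725 c9734 c1592 c9724 (k8 c5422 c5420 c5572 c5574 c312 c528 c10717 c1122 (k2 c10735 c3620 k0)))) (by decide +kernel)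
def c10757 : PP 9 3 T 0x2000000000000000000000000000000000000008000000000000000000000000000000000400000000000000810000000200000 := rS 0x3d08a302e8fcb6672b81c6e3d70fcb43592ca250a0ea5810139d (k8 c10754 c10756 c9725 c5332 c6008 c9740 c2840 c530 (k8 c5337 c5377 c5221 c5591 c1680 c153 c871 c10737 (k8 c10736 c715 c3746 c5361 c10755 c454 c1679 c2342 k0))) (by decide +kernel)
def c10758 : PP 9 3 T 0x4000000000000000000001000000000000000000000000000000000000000000000000000000004000000000010000000040000000000000000000200000 := rS 0x366659d23343593480563b6 (k8 c9724 c5421 c9723 c9744 c5337 c5377 c9178 c5219 (k2 c2171 c8057 (k1 c5664 k0))) (by decide +kernel)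
def c10759 : PP 9 3 T 0x8000000000000000000000000000000000000000000000000810000000200000 := rS 0x1a07667f87dac7cc2250a0e022df699da599cafef (k8 c5586 c10737 c10736 c5332 c10754 c5211 c5533 c9725 (k8 c6008 c9740 c2840 c10758 c794 c5544 c5456 c1646 (k2 c10757 c10713 (k1 c2132 k0)))) (by decide +kernel)
def c10760 : PP 9 3 T 0x8000000000000000000000000000000000000000000000000800000000200000 := rS 0x25b66a0d8ab936df6a34c36ce66c71ec434a8ce77df7abcc68452ee6112e15bc55569d42b8fe5b4071273a67f6fbf43597880d669f65ad76d4b4c88c0857 (k8 c10737 c9725 c9734 c1592 c5332 c9724 c5422 c5420 (k8 c5572 c5574 c9722 c9697 c5337 c5377 c5586 c5544 (k8 c10736 c10754 c10687 c6008 c5211 c5221 c1774 c9740 (k8 c5412 c5413 c5414 c5533 c5591 c2840 c10758 c5361 (k8 c454 c10759 c445 c2342 c5450 c5324 c120 c1584 (k8 c2781 c5657 c9858 c2071 c502 c2103 c2081 c553 (k8 c3003 c5856 c6662 c6118 c3620 c5406 c9823 c1234 k0))))))) (by decide +kernel)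
def c10761 : PP 9 3 T 0x5000000000000004000000000000000000000000000000000000000000000000000000008000000000000000000000000000100000000820000000200000 := rS 0x1a6a070c71c7f2acacd3ecb5aa6466df7fa6d3a21118102f28eff862a4356ed92c1c0daaf694b7b3c4073b (k8 c5324 c9722 c9697 c1647 c5332 c5228 c5413 c2103 (k8 c5649 c332 c9724 c5573 c10701 c5414 c5456 c5450 (k8 c5165 c5433 c9725 c9734 c3690 c5855 c5856 c10760 (k8 c2564 c120 c1592 c5422 c5420 c5572 c5574 c5337 (k4 c5171 c10455 c9858 c5591 (k2 c3620 c2081 (k1 c1234 k0))))))) (by decide +kernel)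
def c10762 : PP 9 3 T 0x800000000000000000000000000000000000000000800000000200000 := rS 0x3b3848f9e86b34b (k8 c5332 c5337 c5377 c5549 c1774 c5221 c507 c5369 k0) (by decide +kernel)
def c10763 : PP 9 3 T 0x40000000000002000000000000000000000000000000000000000000000000004000000000000200000 := rS 0x1e48dad644604 (k4 c9725 c9734 c5337 c5414 (k2 c6578 c9737 (k1 c507 k0))) (by decide +kernel)
def c10764 : PP 9 3 T 0x1000000000000004000000000000000000000000000000000000000000000000000100008000000000000000000000000000100000000820000000200000 := rS 0x2bd2dee19a55409f0daaf69b18a92dbeff5aacd97b671a653a21118102f28a5f7e77e14dbc406f6 (k8 c1647 c9722 c9697 c5856 c5456 c5324 c5450 c5332 (k8 c5165 c5433 c9725 c9734 c3690 c5855 c1592 c10762 (k8 c9724 c5420 c5574 c5422 c10760 c2564 c3777 c10763 (k8 c6118 c5679 c5413 c2103 c5572 c3620 c1584 c120 (k4 c10761 c9823 c5584 c1233 k0))))) (by decide +kernel)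
def c10765 : PP 9 3 T 0x1000000000000000000000000000000000000000000000000000000000000000000100008000000000000000000000000000100000000820000000200000 := rS 0x1faafd92ae03b4f96c540b34fb2d62b556ed9beff4dbc406a94ca7442230205e51df9df8606e38a92ded4b (k8 c5332 c1647 c3777 c10763 c10762 c2633 c5456 c5324 (k8 c5450 c5165 c5433 c9725 c9734 c3690 c5855 c1592 (k8 c2450 c9722 c9697 c5856 c10760 c2564 c9724 c5573 (k8 c5422 c5421 c5420 c5572 c5574 c3620 c6118 c10309 (k4 c5679 c5592 c5413 c10764 (k2 c5406 c5405 (k1 c3623 k0))))))) (by decide +kernel)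
def c10766 : PP 9 3 T 0x1000000000000000000000000000000000000000000000000000000000000000000000008000000000000000000000000000100000000820000000200000 := rS 0x7b9a9f370566973b (k8 c5324 c5332 c5337 c10765 c5591 c1652 c5171 c5585 k0) (by decide +kernel)
def c10767 : PP 9 3 T 0x1000000000000000000002000000000000000000000000000000000000000000000200000000000000000000000000000000000000000820000000200000 := rS 0x25924c904284c3933e1dda6d079101ea4a24b555f0346a1cf60ff7671bff3d0d64086300a7d5bb63f95d2af101a2cca7544b5c8a3d9452fbf3bf0bdd9e5d (k8 c5361 c10766 c502 c5456 c5324 c5450 c5332 c5165 (k8 c5436 c454 c1764 c5484 c5482 c5481 c5366 c9722 (k8 c9697 c1584 c10737 c804 c9724 c5573 c5572 c9723 (k8 c9755 c9725 c5337 c5377 c5591 c175 c5221 c5171 (k8 c5369 c5372 c5373 c5505 c5508 c5584 c5585 c507 (k8 c6188 c2594 c562 c5657 c449 c2136 c2131 c8163 (k8 c5442 c4193 c2826 c1545 c10171 c311 c10481 c4254 k0))))))) (by decide +kernel)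
def c10768 : PP 9 3 T 0x1000000000000000000000000000000000000000040004000000000000000000000000000000000002000000000000000000000000000000000000000000 := rS 0x367b5 (k2 c5531 c5489 (k1 c5228 k0)) (by decide +kernel)
def c10769 : PP 9 3 T 0x40000000000000000020040000000000000000000000000000000000000000004000000000000200000 := rS 0x3c919c23fcf4359 (k8 c5337 c5377 c5592 c2791 c5221 c5660 c5369 c507 k0) (by decide +kernel)
def c10770 : PP 9 3 T 0x1000000000000000000000000000000000000000000000000000001000010000000000404000000048000000000000000000000000000820000000200000 := rS 0x50b25a6d54e34040f24da5c3ef5daa7d5bb611811fe957880e514befcefc2f7 (k8 c502 c5456 c5324 c5450 c5332 c5165 c9722 c9697 (k8 c1584 c10760 c9725 c9734 c9724 c5573 c5572 c5413 (k8 c1924 c1085 c1285 c7393 c5657 c5650 c449 c341 (k4 c1711 c2135 c2134 c1277 (k1 c10481 k0))))) (by decide +kernel)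
def c10771 : PP 9 3 T 0x1000000000000000000000000000000000000000000000000000000000012000000000404000000040000000000000000000000000000820000000200000 := rS 0x1a6976ab413aa1796d192f5d9a7d5bb6a5bffbf3b4abc406f7 (k8 c502 c9722 c9697 c1584 c5324 c5450 c10760 c5332 (k8 c9724 c5573 c5572 c5405 c2338 c1181 c5228 c5657 (k4 c10048 c5412 c449 c1711 (k2 c1708 c2135 (k1 c10481 k0))))) (by decide +kernel)
def c10772 : PP 9 3 T 0x1000000000000000000000000000000000000100040004000000000000080000000000000000000000000000000000000000000000000000000000000000 := rS 0x3dff3 (k2 c5550 c5508 (k1 c5171 k0)) (by decide +kernel)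
def c10773 : PP 9 3 T 0x1000000000000000000000000000000000000000000000000000001000010000000000404000000040000000000000000000000000000820000000200000 := rS 0xfd55acd62b556ed9fea981cee9759 (k8 c5337 c5332 c5324 c10772 c10768 c10760 c9724 c5573 (k4 c5422 c5421 c5574 c10770 (k2 c10771 c3623 k0))) (by decide +kernel)
def c10774 : PP 9 3 T 0x1000000000000000000002000000000000000000000000000000000000000000000000000000000000000000000000000000000000000820000000200000 := rS 0xf37ac7087ef5740e031525b85eecfacbc4074b9db5c8a5d (k8 c5361 c454 c1764 c5324 c5332 c9722 c9697 c5337 (k8 c10766 c502 c10767 c563 c10763 c10769 c10772 c10773 (k4 c5584 c2777 c5658 c2165 (k2 c554 c5657 k0)))) (by decide +kernel)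
def c10775 : PP 9 3 T 0x4000000000000000000000000000000000000000000000000001000000054000140000000000000010400005400000000150000000800000000200000 := rS 0xf05ed6269cf92cd3ecb5aedbc299118101ae3 (k8 c10762 c3762 c9725 c9734 c1592 c5456 c9724 c5422 (k8 c5420 c5572 c5574 c5691 c3620 c5547 c5412 c926 (k2 c9737 c3571 k0))) (by decide +kernel)
def c10776 : PP 9 3 T 0x54000200000000000000000000005400000000150000021800000000200000 := rS 0x3c164a23835234b (k8 c5332 c10190 c3762 c2788 c1715 c927 c559 c3571 k0) (by decide +kernel)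
def c10777 : PP 9 3 T 0x54000040000000000000010400005400000000150000021800000000200000 := rS 0x11425b8697e3 (k4 c5462 c5332 c10776 c563 (k2 c10775 c10763 k0)) (by decide +kernel)
def c10778 : PP 9 3 T 0x2000000000000000000000000000000000000000000000000000000000080000000000000000000000000000820000000200000 := rS 0x8a8848cf44db7d42924b325a8d30e4707a5b2006c87b3f7d676c9911bfdc7df9d8cd2af101964088541914baf743bcdfbec (k8 c10774 c5542 c5540 c5499 c5498 c5361 c454 c5483 (k8 c5365 c9725 c3659 c9722 c9697 c1584 c120 c5324 (k8 c5450 c10762 c10760 c9734 c1592 c9724 c5337 c5584 (k8 c5406 c2777 c1078 c5281 c925 c1624 c5658 c5649 (k8 c2081 c553 c2061 c332 c331 c5869 c3002 c1231 (k4 c10777 c2166 c2421 c2787 (k1 c10706 k0))))))) (by decide +kernel)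
def c10779 : PP 9 3 T 0x1000000000000000000000000000000000100040000000000200000004060000400000000000000000000000000000000000000040020000000000000 := rS 0x3e6dff1b8604d4201247a4b (k8 c2595 c1624 c513 c552 c553 c2165 c6188 c5462 (k2 c3002 c5550 (k1 c5691 k0))) (by decide +kernel)
def c10780 : PP 9 3 T 0x2000000000000000000000000000000001000000020000000000000000000000000000000000000000000040820000000200000 := rS 0x1261cd80793a212305fe7288964d1e49ce03d37b55440d1bee8e92eb2b358edbc29911811234b2bbfdc73b4abc406c545a0d12d722975ee8755c07d8af (k8 c10778 c10774 c5502 c5500 c5499 c5498 c5361 c454 (k8 c1764 c5484 c5483 c5366 c5364 c9722 c9697 c1584 (k8 c5324 c10762 c10760 c10737 c5332 c10190 c9725 c9734 (k8 c1592 c5456 c9724 c5421 c5574 c5337 c2595 c10779 (k8 c9858 c5505 c5508 c8528 c5531 c2495 c9737 c5211 (k8 c507 c5526 c8137 c8308 c10195 c5547 c5433 c5660 (k4 c2422 c5855 c5650 c5679 (k2 c2320 c5444 (k1 c331 k0))))))))) (by decide +kernel)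
def c10781 : PP 9 3 T 0x2000000000000000000000000000000001000040000000000000000000000000000000000000000000000080820000000200000 := rS 0x1b14ba482e200fb2434a8d9ac532230277d2af101aae03ec578755bb6 (k8 c9724 c5573 c2000 c10778 c10774 c5502 c5500 c9722 (k8 c9697 c1584 c5450 c9725 c9734 c1592 c5421 c6986 (k8 c8528 c10701 c2066 c2320 c1907 c1677 c340 c1073 (k2 c5444 c5678 k0)))) (by decide +kernel)
def c10782 : PP 9 3 T 0x2000000000000000000000000000000001000000000000000000000000000000000000000000000000000080820000000200000 := rS 0xd5f190094d3f7c0a3ae3efb5c8a5d (k8 c5361 c454 c1764 c5450 c10762 c189 c10781 c5508 (k4 c2088 c1936 c562 c5462 (k2 c1657 c5689 k0))) (by decide +kernel)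
def c10783 : PP 9 3 T 0x80054000000000000000000000000005400000000150000000800000000200000 := rS 0xf05e708ff3d0d66960d (k8 c3762 c5332 c5337 c5377 c5550 c2349 c5221 c927 (k2 c5369 c3571 k0)) (by decide +kernel)
def c10784 : PP 9 3 T 0x2000000000000000000000000000000001000000000000000000000000000000000000000000000000000000820000000200000 := rS 0x583c3fb55440dea5b21ac76c0d2c810ba8541bdd0eab80bcfd8af (k8 c10778 c10774 c5540 c5502 c5500 c5499 c5498 c5483 (k8 c5365 c5361 c9725 c3659 c3762 c9724 c5421 c10782 (k8 c925 c10780 c10783 c8528 c5531 c2319 c9737 c718 (k1 c3571 k0)))) (by decide +kernel)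
def c10785 : PP 9 3 T 0x4400000000000000000000000000000000000000000000000000000000000000000440000000000000000000000000000080000001000000000200000 := rS 0x6afbc848c (k4 c924 c925 c5505 c2778 (k1 c5689 k0)) (by decide +kernel)
def c10786 : PP 9 3 T 0x2000000000000000000000000000000000000000000000000000000000000000000000000000000000000000820000000200000 := rS 0x6cfded55440884f42db27629c4978c40d32007dc03d079281647dac51e70155a1defec6b91506852e847420165ad76c23a5837be957880cb204 (k8 c9725 c3659 c9722 c9697 c1584 c5450 c3762 c5332 (k8 c9734 c9724 c5422 c5420 c9723 c5377 c183 c5361 (k8 c5365 c5483 c454 c1764 c10774 c5498 c5499 c5500 (k8 c5502 c5540 c10784 c5414 c2787 c8636 c10763 c9737 (k8 c1681 c563 c2590 c562 c3062 c5650 c5462 c340 (k8 c341 c5444 c1275 c10785 c3571 c2595 c2594 c2420 (k4 c2778 c5508 c5489 c10379 k0))))))) (by decide +kernel)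
def c10787 : PP 9 3 T 0x20000000000000000000000000000000000000000000000820000000200000 := rS 0x3d9018a92d9ef7db0de97b26bc0d5feecccef4359 (k8 c5337 c5377 c5324 c10786 c5219 c5584 c5508 c5507 (k8 c5210 c5332 c153 c9724 c155 c2339 c2594 c10763 (k2 c10769 c10773 (k1 c6986 k0)))) (by decide +kernel)
def c10788 : PP 9 3 T 0x1000010000000000004000000000000000000000000000000000000820000000200000 := rS 0x7b36db26bc0d5feecccef4359 (k8 c5337 c5377 c5324 c10786 c5219 c5584 c5508 c5507 (k4 c5210 c9724 c10773 c6986 k0)) (by decide +kernel)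
def c10789 : PP 9 3 T 0x10040000000000000000000000000000000000000000000000820000000200000 := rS 0x1e7ed662a9909c5088136d39407dc04adafce289f5aab76c23020dc734bf0a55e2036babdabeed0d652fb2cccedeacf (k8 c1647 c10787 c5324 c10786 c5210 c5404 c5337 c5377 (k8 c5219 c5585 c5584 c5507 c9722 c9697 c1584 c5456 (k8 c5332 c154 c153 c9725 c9734 c9724 c5573 c5422 (k8 c5572 c10788 c5590 c5414 c10763 c563 c2590 c6327 (k8 c3062 c7393 c5650 c3061 c341 c10481 c1275 c1276 (k2 c5500 c2500 (k1 c5657 k0))))))) (by decide +kernel)
def c10790 : PP 9 3 T 0x80000000000000000000000000000000000000000000000000000200560000000040000450000000000000000000000000000000000000 := rS 0x64a853ead (k4 c5573 c5572 c3061 c2134 (k1 c10481 k0)) (by decide +kernel)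
def c10791 : PP 9 3 T 0x40000000000000000000000000000000000000000000000820000000200000 := rS 0x50b262aabda269a6d00fb81bef29412bdbf38027d6aaddb0e697e171f7d2af101b5d5ed5f7686b297d966676f5 (k8 c10787 c5324 c10786 c5210 c5404 c5337 c5377 c5219 (k8 c5585 c5584 c5507 c9722 c9697 c1584 c5450 c10762 (k8 c5456 c5332 c154 c9724 c5573 c5422 c5572 c10789 (k8 c5592 c5502 c10769 c5165 c5657 c2510 c563 c2590 (k8 c449 c2136 c10790 c7393 c5413 c5414 c2133 c10309 (k1 c10481 k0)))))) (by decide +kernel)
def c10792 : PP 9 3 T 0x820000000200000 := rS 0xef6bd8b85b33e667604 (k8 c9725 c5324 c10786 c9680 c715 c6013 c10791 c5498 (k2 c498 c9180 k0)) (by decide +kernel)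
def c10793 : PP 9 3 T 0x4000000000000000080000000000000000000000000000000000000200000000000000000000000 := rS 0x3b33ed (k4 c5498 c5361 c498 c9180 k0) (by decide +kernel)
def c10794 : PP 9 3 T 0x4000000000000000000000000000000000000000000000000000000540100000040000050000000100000154000000001000000200100 := rS 0x77941b100864069f65ac55bb6 (k8 c9724 c5573 c5421 c5420 c5572 c9722 c9701 c9723 (k4 c9617 c3618 c5678 c9174 k0)) (by decide +kernel)
def c10795 : PP 9 3 T 0x10000000000000000000000000000000000000000000000000001050000000000000000000100000150000000811000000000140 := rS 0x1ef267619f84ae79 (k8 c1535 c10737 c5456 c493 c3567 c5356 c890 c5669 k0) (by decide +kernel)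
def c10796 : PP 9 3 T 0x4000000000000000080000000002000000000000000000000000000000000000800000000000000 := rS 0x25032efd2fc3ed (k4 c5498 c5456 c5332 c5495 (k2 c2071 c5165 (k1 c5316 k0))) (by decide +kernel)
def c10797 : PP 9 3 T 0x10000000000000000000000000000000000000000000000000001010000000000000000000100000150000000801000000200000 := rS 0x7638241c041bd2cae35 (k8 c10792 c10737 c5332 c153 c9725 c6008 c10756 c794 (k2 c871 c10795 k0)) (by decide +kernel)
def c10798 : PP 9 3 T 0x1001000000000000000000000000000000000000000000000000000000000000000000005000000000000000004000800000000000000000000000000000 := rS 0x1a3df (k2 c5493 c2131 (k1 c5688 k0)) (by decide +kernel)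
def c10799 : PP 9 3 T 0x4000000000000000080000000000000000000000000000000000000040000000800000000200000 := rS 0x1c3154efc957b3f7ab9aa976fb4dae9b64a852a40491f0bc083b81d1e873de70ea652cb17315959a7d96b556eda97e14c9fcaeff71b3c6bed5488c08311b97466cd (k8 c10796 c493 c10793 c153 c2106 c9725 c9734 c2021 (k8 c5498 c10792 c1646 c10762 c10760 c10737 c804 c1592 (k8 c5456 c5332 c9724 c5573 c5422 c5420 c5572 c5574 (k8 c5337 c6013 c5364 c5480 c5481 c5482 c10797 c5372 (k8 c5373 c5526 c1674 c10798 c3567 c312 c528 c311 (k8 c527 c1518 c1122 c1117 c10735 c1549 c2828 c2829 (k8 c1637 c1656 c10481 c5584 c5406 c1287 c5171 c10719 (k2 c5590 c5591 (k1 c3620 k0))))))))) (by decide +kernel)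
def c10800 : PP 9 3 T 0x80000000000000000000000000000000000000080000000000000000200000 := rS 0x848c (k2 c924 c925 (k1 c4483 k0)) (by decide +kernel)
def c10801 : PP 9 3 T 0x20000000000000000000000000000000000000000080000000000000000000000000200000000000000000000800000000200200 := rS 0x1d5ad9857ecd541c4a88138d54bb7d36c950b4c80923e179021709805669f65ad55a993f95dc6355488c086558ed91f1525d2dc3f2819241fef80a1fdaff (k8 c10760 c5498 c5373 c2141 c5505 c5369 c507 c2196 (k8 c5694 c5591 c5332 c565 c10763 c5526 c9724 c5421 (k8 c2171 c9725 c9734 c2021 c10792 c10762 c10737 c804 (k8 c1592 c5573 c5422 c5420 c5572 c5574 c9723 c184 (k8 c1507 c1745 c312 c528 c311 c527 c2084 c1122 (k8 c1117 c10735 c2829 c1637 c1656 c3620 c5855 c1699 (k8 c342 c343 c5486 c1287 c8138 c10481 c5482 c1549 k0))))))) (by decide +kernel)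
def c10802 : PP 9 3 T 0x800010000000000000000040100000154000004011000000000140 := rS 0x6677 (k2 c2188 c2186 (k1 c3567 k0)) (by decide +kernel)
def c10803 : PP 9 3 T 0x1000000000000000000000000000000000000000008000000000000000080000000004010000000000000004000100000014000000004000000000140 := rS 0x334eded (k4 c5498 c10693 c2071 c10798 k0) (by decide +kernel)
def c10804 : PP 9 3 T 0x80000000000000000000020000000000000000000000000000000000000000000000000000000000000000000200000000000000000000808000000200000 := rS 0x41f1b4f247794d64083f2bb8c7ae1 (k8 c5591 c1680 c10762 c10737 c3746 c9725 c5337 c5316 (k4 c5912 c10195 c2083 c8118 (k2 c545 c5655 k0))) (by decide +kernel)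
def c10805 : PP 9 3 T 0x1001000000000000000000000000000000000000000000000000000000000000000000005020000000000000000004000000000000000000000000000000 := rS 0x1a3df (k2 c5451 c1706 (k1 c5688 k0)) (by decide +kernel)
def c10806 : PP 9 3 T 0x20000000000000000000000000000000000000000080000000000000000000000000200000000000000000000800000000200000 := rS 0x1369d2f2af66666fa86507c64a5f267462b34660970c57e44b81c040e4947a1cf60f3498c02b34fb2d6b4bf0a64aeff71b3c6bed5488c081b9d16fde590999563b6 (k8 c9724 c5421 c2171 c184 c2170 c5505 c10800 c10799 (k8 c5475 c9725 c9734 c2021 c5498 c10792 c1646 c10762 (k8 c10760 c10737 c1592 c5456 c5332 c5422 c5420 c5572 (k8 c5574 c9723 c9755 c9744 c5369 c5372 c5373 c5526 (k8 c507 c1674 c2141 c2196 c565 c5694 c10763 c5591 (k8 c10801 c10804 c2071 c10805 c10803 c5440 c1529 c1966 (k8 c2174 c10195 c2826 c2829 c10753 c9278 c2123 c2006 (k2 c10719 c10735 (k1 c3620 k0))))))))) (by decide +kernel)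
def c10807 : PP 9 3 T 0x1000000000000000000010000000000000000000000000000000000000000000000000000000000000000000001401200000000000000000000000000000 := rS 0x10f99 (k2 c5482 c2116 (k1 c5672 k0)) (by decide +kernel)
def c10808 : PP 9 3 T 0x80000000000000000000000000204000000000000000000800000000200000 := rS 0x15efd6425d24a14d78882d33bca5983262e60320359f847e57678d5522318976745b2c84e0649038380837559b6220132ac76d15da4047ae1f952f43593a9e4139d41a15ffed (k8 c5498 c10760 c950 c4524 c10806 c10756 c1535 c10807 (k8 c5337 c5377 c5332 c5221 c5591 c1680 c5592 c5211 (k8 c5414 c9724 c5421 c2171 c9723 c9730 c9683 c9859 (k8 c153 c9725 c6008 c871 c10687 c2196 c184 c2170 (k8 c10800 c10799 c5321 c2106 c9734 c2021 c10792 c1646 (k8 c10737 c3746 c5456 c5574 c9722 c9701 c5672 c5364 (k8 c10803 c10797 c5316 c5912 c2083 c545 c5655 c10740 (k4 c5578 c9848 c1637 c323 (k2 c2505 c1182 (k1 c8604 k0)))))))))) (by decide +kernel)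
def c10809 : PP 9 3 T 0x80000000000000000000000000200000000000000000000800000000200000 := rS 0x1293b0c998c5431d4f209cea0d0a5909810aeff678d7da311b976745b (k8 c10800 c10799 c5321 c153 c2106 c5498 c10792 c1646 (k8 c10760 c10737 c9725 c184 c2170 c950 c4524 c10806 (k8 c10756 c1535 c10807 c10808 c899 c10797 c2071 c2073 (k2 c5316 c5912 k0)))) (by decide +kernel)
def c10810 : PP 9 3 T 0x10000000000000000000000000000000000000000080000000000000000000000000008000100000000000000800000000200000 := rS 0x949d864cc62964080d2bb3c6a311b976745b (k8 c10800 c10799 c5321 c153 c2106 c10792 c1646 c10737 (k8 c3762 c9725 c2112 c899 c10797 c2071 c2073 c5316 (k1 c5912 k0))) (by decide +kernel)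
def c10811 : PP 9 3 T 0x24000000000000000000000000000000000000000000050000000000002000000001000040000000000000000001001808000000200000 := rS 0x193b150a6bc44169ab9fb5959ac76c3f7faae2b29efa543203 (k8 c9722 c9701 c2013 c5492 c5316 c5414 c5413 c10760 (k8 c3746 c9724 c5421 c5574 c5337 c2505 c8604 c2941 (k4 c545 c5655 c10740 c5578 (k2 c5397 c1182 (k1 c5678 k0))))) (by decide +kernel)
def c10812 : PP 9 3 T 0x10000000000000000000000000000000000000000080000000000000000000000000000000100000010000000800000000200000 := rS 0x1a6407ea8536934b4a5983262e61061901acd62b556f847e5771b3c6bed5488c625d04c0c928503838083755c0766b7da4e8b6ffdb0f5c3f2a5e86b287 (k8 c10810 c5337 c5377 c5332 c5221 c5591 c1680 c9724 (k8 c10760 c10800 c10799 c5211 c5533 c7986 c5592 c5413 (k8 c153 c9725 c6008 c871 c9740 c10687 c2196 c10756 (k8 c5321 c2106 c9734 c2021 c5498 c10792 c1646 c10762 (k8 c10737 c3746 c5456 c5573 c5422 c5421 c5574 c9722 (k8 c9701 c1971 c5672 c5364 c10803 c10797 c5316 c10811 (k4 c1637 c9848 c8159 c2504 (k2 c10740 c8157 (k1 c545 k0))))))))) (by decide +kernel)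
def c10813 : PP 9 3 T 0x1000050000000000000000000005000000001000000000020000000000000000200000 := rS 0x110640e5676c04 (k4 c9725 c9724 c5337 c313 (k2 c314 c530 (k1 c9162 k0))) (by decide +kernel)
def c10814 : PP 9 3 T 0x10000000000000000000000000000000000000000080000000000000000000000000000000000000000000000800000000200000 := rS 0x7441964f3018aaad0b0304fcb680e24e86b34bf6aa44604 (k8 c9725 c9734 c2021 c5498 c5332 c5337 c5377 c10687 (k8 c6008 c5211 c5221 c10756 c2196 c9740 c5413 c5414 (k4 c5592 c1535 c10813 c1971 (k2 c10812 c10807 k0)))) (by decide +kernel)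
def c10815 : PP 9 3 T 0x4000000000000000000000000000000000000001000054000000000000000000005000000020000000400000000000000000000200000 := rS 0x1f864579a402b358ad55bb6 (k8 c9724 c5573 c5422 c5421 c5574 c9723 c9744 c2836 (k2 c8134 c3623 (k1 c1128 k0))) (by decide +kernel)
def c10816 : PP 9 3 T 0x1000000000000000000000000000000000000040008000000100800000000000500540000000000000000000000000000000000005114000000000400 := rS 0x8ff3 (k2 c5547 c2343 (k1 c9266 k0)) (by decide +kernel)
def c10817 : PP 9 3 T 0x20000000000000000000000000000000000000000000010080000000000000000004000000000000200000000000000800000000200000 := rS 0xc8fc4244d5ed78efb913b305adcdba13480566b15aab76c39f08fd22ff718d5522346a1cd68347c0f32336aa2cbb3a2db4cff157092eb34b1eca326042b9241f9c (k8 c10814 c5369 c507 c10737 c9725 c5440 c10195 c5436 (k8 c5332 c5337 c565 c6188 c10763 c804 c1970 c10800 (k8 c10799 c5321 c853 c1533 c1964 c5482 c2196 c5526 (k8 c5525 c5523 c5373 c10809 c9734 c2021 c10792 c10762 (k8 c10760 c10190 c3746 c5456 c154 c9724 c5573 c5422 (k8 c5421 c5574 c9723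 c9744 c5377 c5529 c5533 c717 (k8 c7986 c10815 c5673 c5504 c5507 c5584 c10816 c8783 (k2 c3623 c5871 (k1 c1128 k0))))))))) (by decide +kernel)
def c10818 : PP 9 3 T 0x10000000000000000000000000000000000000000000000080000000000000000000001000010000200000000000000800000000200000 := rS 0x5ed8b5e3bee408474273acb2d5bb6a5f8532231fa3732774b9a402336aa2cbb3a2db4cfe3d9464c0857 (k8 c10737 c9725 c5440 c10195 c5436 c804 c1970 c10800 (k8 c10799 c5321 c853 c1533 c1964 c9723 c9744 c1529 (k8 c91 c5482 c10809 c3746 c9734 c1592 c5456 c5332 (k8 c9724 c5573 c5420 c5337 c9717 c5377 c183 c1749 (k4 c5673 c5504 c5507 c8156 (k2 c8459 c10734 k0)))))) (by decide +kernel)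
def c10819 : PP 9 3 T 0x10080000000000000000004000000000000200000010000000800000000200000 := rS 0xd947511b54e88453a158ed9fea911ce8b66b819241f9c0bca326042bc54974b (k8 c5332 c565 c10763 c10737 c9725 c5440 c10195 c5433 (k8 c10814 c5369 c507 c2196 c5523 c10800 c10799 c9734 (k8 c2021 c10760 c9724 c5421 c5377 c8199 c343 c5855 (k4 c10817 c10818 c1979 c10815 (k1 c8393 k0))))) (by decide +kernel)
def c10820 : PP 9 3 T 0x21000000000000000000040000000000000000000080000000000000000008000000000000000000010000000000000404000000 := rS 0x32ecc3820 (k4 c7110 c342 c5486 c1953 (k1 c8138 k0)) (by decide +kernel)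
def c10821 : PP 9 3 T 0x80000000000000000000000000000000200000010000000800000000200000 := rS 0x227df1c23fce00abd0d644604a590c368b2ece8b68d2483f3999 (k8 c5482 c10814 c5369 c507 c10809 c10800 c10799 c5321 (k8 c853 c5475 c5478 c5332 c9725 c9734 c5337 c5377 (k8 c10820 c10819 c5592 c2790 c8188 c5504 c1979 c5673 k0))) (by decide +kernel)
def c10822 : PP 9 3 T 0x80000000000000000000000000000000200000000000000800000000200000 := rS 0xd7d82bf668832073be5869e4f32043480596b156ed8fe5745976745b (k8 c10800 c10799 c5321 c853 c10737 c804 c9724 c5573 (k8 c5421 c5420 c9723 c9744 c9725 c5482 c5440 c1970 (k8 c10821 c9442 c313 c314 c530 c5486 c1131 c5234 (k2 c8514 c8516 k0)))) (by decide +kernel)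
def c10823 : PP 9 3 T 0x80000000000000000000000000000000000000020000000800000000200000 := rS 0x1b1dab5d54fdd9a20c81cefed808371cd2fc2577ffb507032483f3875 (k8 c10822 c10814 c5369 c507 c2196 c5525 c5498 c10760 (k8 c10737 c5456 c5332 c154 c153 c9725 c9724 c9442 (k8 c313 c314 c530 c5486 c9094 c8656 c1983 c5413 (k2 c8519 c5195 k0)))) (by decide +kernel)
def c10824 : PP 9 3 T 0x80000000000000000000000000020000000000000000000800000000200000 := rS 0x47f9c01fb153212f66ab8eabf335914e84d20158ad55bb6a5bffdaa911810861b9d16cd7032483f3859 (k8 c10823 c10814 c5369 c507 c2196 c5523 c10800 c10799 (k8 c5475 c5478 c9725 c9734 c2021 c5498 c10760 c5332 (k8 c9724 c5573 c5422 c5421 c9723 c9744 c5377 c8199 (k8 c5337 c5484 c2836 c1979 c10820 c8393 c564 c8411 (k4 c10763 c1128 c9083 c5592 (k2 c2790 c8188 k0)))))) (by decide +kernel)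
def c10825 : PP 9 3 T 0x4000000000000000000000000000000000000000000000080000000000000000000000000000000000020000000000800000000200000 := rS 0x23fce01158eed157ee57bf733a1acac56aaddb52dffed5488c08430da2cbb3a2d9ae064907e70b289 (k8 c10824 c10823 c10814 c5369 c507 c2196 c5523 c10800 (k8 c10799 c5321 c853 c5475 c5478 c9725 c9734 c2021 (k8 c5498 c10760 c5332 c9724 c5573 c5422 c5421 c5337 (k8 c5377 c5481 c1128 c1131 c8120 c10820 c5682 c5504 (k4 c5414 c9083 c5592 c2790 (k1 c8188 k0)))))) (by decide +kernel)
def c10826 : PP 9 3 T 0x8000000000000000000000000000000000000000000000000000001000005080000000000000000004000000000000000000000001040000000000200000 := rS 0x47f9c015f1dacacd63b65488c0903 (k8 c2196 c9725 c9734 c2021 c9724 c5421 c5574 c5337 (k4 c5504 c5584 c8604 c5592 (k2 c2790 c8188 k0))) (by decide +kernel)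
def c10827 : PP 9 3 T 0x1000001080000000000000000044000000000000000000000000000800000000200000 := rS 0x4ba57bc922f78d42082037c664a23b5dabf380565669f65ac55bb61cd2fc25771b3c6bed5488c0887039ee06752cb1731ef2483f38437fa2cbb3a2de85128d (k8 c10809 c10824 c5377 c10800 c10799 c5321 c853 c10760 (k8 c5478 c10814 c5369 c507 c10826 c5673 c5364 c10823 (k8 c10822 c2196 c5372 c1674 c5373 c9725 c9734 c2021 (k8 c5498 c10792 c1646 c10762 c10737 c5456 c5332 c154 (k8 c9724 c5573 c5421 c5420 c5572 c5574 c5337 c8604 (k8 c5592 c3073 c2146 c2790 c5660 c3776 c2510 c562 (k8 c10803 c10309 c5462 c312 c311 c5204 c1518 c1637 (k1 c8161 k0)))))))) (by decide +kernel)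
def c10828 : PP 9 3 T 0x4000000000000000000000000000000000000000000001080000000000000000004000000000000000000000000000800000000200000 := rS 0x3e51280abb31ef8aed34291a5bffdaa911810868b2ece8b68d43a0d1f032483f3889 (k8 c10824 c10814 c5369 c507 c2196 c5526 c5525 c5373 (k8 c10809 c10800 c10799 c5321 c853 c5478 c9725 c9734 (k8 c2021 c5498 c10760 c5332 c10190 c5377 c5682 c5414 (k4 c10826 c5673 c10827 c3070 (k2 c8308 c5694 (k1 c5547 k0)))))) (by decide +kernel)
def c10829 : PP 9 3 T 0x5000000000000000000002000000000000000000000000000000000000054000000000000000000000000001544400000000000000000000000000000000 := rS 0x3e512 (k2 c8308 c5694 (k1 c5547 k0)) (by decide +kernel)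
def c10830 : PP 9 3 T 0x80000000000000000080000000000000000000000000000800000100200000 := rS 0x369140fc0331efd0d656bb611811234b7ffb4868b2ece8b68d43a0d1f032483f3889 (k8 c10824 c10814 c5369 c507 c2196 c5526 c5525 c5373 (k8 c10809 c10800 c10799 c5321 c853 c5478 c5498 c10760 (k8 c5332 c10190 c9725 c9734 c9724 c5422 c5337 c5377 (k4 c5584 c5673 c10829 c6743 (k2 c3070 c5650 (k1 c5414 k0)))))) (by decide +kernel)
def c10831 : PP 9 3 T 0x1000020080000000000000000040000000000000000000000000000800000000200000 := rS 0x5e4a25c11de62f8d43ef2037c671c2511daed5f9d64089f65ac55bb61cd2fc25771b3c6bed21ce8b6872483c0e7bce1d4b289 (k8 c10824 c10823 c10822 c10814 c5372 c1674 c5369 c507 (k8 c5373 c10800 c10799 c5478 c5498 c10792 c1646 c10762 (k8 c10737 c5456 c5332 c154 c9724 c5573 c5421 c5420 (k8 c5572 c9725 c5337 c5592 c3073 c2146 c2790 c5660 (k8 c8188 c3776 c2510 c562 c5504 c10309 c5462 c10745 (k4 c5204 c10803 c5452 c8161 (k2 c312 c1518 k0))))))) (by decide +kernel)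
def c10832 : PP 9 3 T 0x5000000000000000000100000000000000000000000000000000000000054000000000000000000000000001554400000000000000000000000000000000 := rS 0x198 (k2 c5673 c10829 k0) (by decide +kernel)
def c10833 : PP 9 3 T 0x2080000000000000000000000000000000002000000000000800000100200000 := rS 0xd8275245e0b8218a333bb3509b500d2fc29911810aecf1afb462372ece8b6073de70ea59 (k8 c10823 c10822 c10814 c5372 c1674 c10800 c10799 c5321 (k8 c153 c2106 c5498 c10792 c1646 c10737 c9725 c9734 (k8 c1592 c5456 c5332 c9723 c5529 c2552 c4666 c789 (k8 c493 c10805 c3567 c1507 c312 c311 c5855 c10734 (k1 c5444 k0))))) (by decide +kernel)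
def c10834 : PP 9 3 T 0x4000000000000000000000000000000000000000000000080000000000000000004000000000000000000000000000800000000200000 := rS 0x47f9c490a0b3692e031557bf04359021a40291a5bfd165d9d16d1a8741a3e064907e711265 (k8 c10825 c10824 c10814 c5369 c507 c2196 c5526 c5525 (k8 c5373 c10809 c10800 c10799 c5321 c853 c10760 c5332 (k8 c10190 c9723 c9744 c9725 c5337 c343 c10828 c10830 (k8 c1241 c10831 c565 c10833 c717 c5871 c3613 c5547 (k2 c2343 c5660 k0))))) (by decide +kernel)
def c10835 : PP 9 3 T 0x4000000000000000000000000000000000000000000000080000000000000000000000000000000000000000000000800000000200000 := rS 0xd750b4daa7c2f778ee0830ec59ac9628cd38920e6603e204aa5d5efddaaa8ca69318053ecb58ab76d4bf0a6446043f95dfecf1afb4373a2da350e073de70ea59 (k8 c10823 c10822 c10814 c5372 c1674 c5373 c10809 c10800 (k8 c10799 c5475 c5498 c10792 c1646 c10760 c10737 c804 (k8 c9725 c9734 c1592 c5456 c5332 c9724 c5573 c5421 (k8 c5420 c5572 c9723 c9755 c9744 c10825 c10834 c5413 (k8 c170 c1287 c1285 c2126 c7110 c1084 c10820 c8123 (k8 c340 c341 c3688 c5364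 c2061 c4454 c5444 c1696 (k8 c10803 c10798 c5678 c8121 c528 c5454 c5496 c1122 (k2 c1550 c3618 k0)))))))) (by decide +kernel)
def c10836 : PP 9 3 T 0x80000000000000000000000000000000000000000000000800000000200000 := rS 0xf40331b5f78856d1c0eec9130324a3d068707e711a8b2e90e745bf6d6453a158ad76c230224696ff (k8 c10760 c5332 c10190 c9725 c9734 c9724 c5422 c5421 (k8 c5377 c8199 c5337 c5498 c10800 c10799 c5478 c5321 (k8 c853 c10809 c10814 c5369 c5373 c5525 c5526 c507 (k8 c2196 c10824 c10835 c5486 c8393 c8057 c342 c5504 (k4 c5533 c5673 c10829 c5650 (k1 c6743 k0)))))) (by decide +kernel)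
def c10837 : PP 9 3 T 0x1000000000000018000000000000000000000000000000000000000000000000000000000000000000000000000000000000000000000800000100200000 := rS 0x7a4ea050155c5496490f03eb2b358ad55bb61181296ff7babdfaa9 (k8 c5489 c5405 c5406 c10836 c10760 c5332 c9725 c9734 (k8 c9724 c5573 c5422 c5421 c5574 c5337 c9737 c5650 (k8 c507 c2590 c1087 c1085 c10769 c3623 c10772 c7606 (k1 c5477 k0)))) (by decide +kernel)
def c10838 : PP 9 3 T 0x1000000000000008000000000000000000000000000000000000000000000000000000000000000000000000000000000000000000000800000100200000 := rS 0x97007a40e771555ed2b2b358ed84604a5bfde6357babdfaa9 (k8 c5489 c5405 c5406 c10836 c10792 c448 c10760 c5332 (k8 c9725 c9734 c9724 c5421 c5574 c5337 c10837 c5413 (k4 c5414 c7811 c10772 c5657 (k2 c8604 c2594 (k1 c10769 k0))))) (by decide +kernel)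
def c10839 : PP 9 3 T 0x2000000000000028000000000000000000000000000000000000000000000000000000000000000000000000004000000000000000000800000000200000 := rS 0x8335e6339eff9c0a7715d0d6403b61181296ff7bbf4cf01 (k8 c5502 c5487 c5405 c10836 c10760 c5332 c9725 c9734 (k8 c9724 c9723 c5337 c5377 c5414 c7811 c6986 c5550 (k4 c5508 c5221 c5219 c5523 (k2 c5525 c10430 k0)))) (by decide +kernel)
def c10840 : PP 9 3 T 0x18000000000000000000000000000000000000000000000000000000000000000000000000000000000000800000000801000084200000 := rS 0x361284de4c08f10c80e97e12b8d52e1d (k8 c5486 c5404 c10792 c10737 c5456 c5332 c9722 c9701 (k4 c9697 c9725 c5439 c10735 (k2 c10195 c7600 (k1 c9240 k0)))) (by decide +kernel)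
def c10841 : PP 9 3 T 0x4000000000000018000000000000000000000000000004000000000000000000000000000000000000000000110000000000000000040801000080200000 := rS 0x190760497c367562976399822d6432033498c02b1db15c6a337ba5d2a590e96cce04039ef394b (k8 c5332 c5211 c5372 c1674 c9725 c5487 c715 c5486 (k8 c313 c5488 c5404 c10836 c492 c10792 c10737 c9724 (k8 c5421 c9723 c9755 c9744 c9722 c9701 c5337 c455 (k8 c9178 c5658 c5361 c5364 c5482 c2161 c10840 c312 (k2 c3567 c10685 (k1 c10686 k0)))))) (by decide +kernel)
def c10842 : PP 9 3 T 0x18000000000000000000000000000000000000000000000000000000000000000000000000000000000000000000000800000100200000 := rS 0xc83b024be756286cbb988e115193b2310d12f4f7fce04078a92d067b2487b380fd0d6432033498c02b15aed8474b2bbfc6a337ba5d2a590e96cce04808c5a3ec (k8 c10838 c5501 c1678 c5502 c9725 c5487 c715 c5486 (k8 c313 c5488 c5404 c10836 c492 c10792 c10760 c10737 (k8 c5332 c9734 c9724 c5422 c5421 c9723 c9755 c9744 (k8 c9722 c9701 c5337 c5377 c9737 c5211 c5650 c507 (k8 c5372 c5525 c2590 c1087 c1674 c6986 c5550 c5508 (k8 c7606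 c1985 c1936 c6300 c5477 c10841 c2972 c2350 (k8 c5219 c945 c2161 c5364 c5482 c10840 c312 c3567 (k2 c10685 c10686 k0)))))))) (by decide +kernel)
def c10843 : PP 9 3 T 0x8000000000000000000000000000000000000000000000000000000000000000000000000000000000000000000000800000100200000 := rS 0x21f69ec (k4 c10838 c10842 c5499 c10839 k0) (by decide +kernel)
def c10844 : PP 9 3 T 0x2000000000000008000000000000000000000000000000000000000000000000000000000000000000000000000000000000000000000800000000200000 := rS 0x37894a08a35606d7f7664b8c99da1602abd0d65669f58ed873e17fb8de6357babd2efd4a9643a9c05bd50e0fa596cce04419ac1bb51044402a9 (k8 c5489 c9723 c9730 c10843 c5528 c3762 c2371 c8722 (k8 c9725 c5487 c715 c5332 c9735 c8435 c2420 c2417 (k8 c341 c5486 c313 c5488 c5405 c5404 c5406 c10836 (k8 c10792 c448 c10762 c10760 c5456 c154 c9724 c5421 (k8 c5572 c5574 c5337 c5377 c5500 c5502 c5541 c10404 (k8 c1275 c3571 c5361 c5219 c5507 c5508 c5585 c8604 (k4 c8628 c10763 c1278 c2510 k0))))))) (by decide +kernel)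
def c10845 : PP 9 3 T 0x8000000000000000000000000000000000000000000000000000000000000000000000000000000000000000000000800000000200000 := rS 0x46e6513ef42470bb3af6a0d0ef5059ac1fb51016cb2a933876b20414e86220158eda960d7fbcc6af7 (k8 c10836 c10792 c448 c10760 c3762 c5332 c9724 c5421 (k8 c9723 c9730 c5377 c8199 c9725 c5337 c5486 c5487 (k8 c5489 c313 c715 c10843 c5528 c9735 c2371 c2417 (k8 c2420 c8435 c8722 c10844 c5657 c5321 c8393 c3571 (k4 c5504 c1979 c5365 c950 (k1 c9178 k0)))))) (by decide +kernel)
def c10846 : PP 9 3 T 0x1000000000000000000000000000000000000000000008000000000000000000000000000000000001000000020000000020000000000800000200200000 := rS 0x327de94257629c496d4081901a7d96b156eda97e12eecc3631 (k8 c5476 c5475 c10845 c9749 c5456 c5332 c9724 c5573 (k8 c5421 c5420 c5572 c9722 c9701 c9725 c5528 c340 (k4 c341 c5444 c1699 c9066 (k2 c5195 c9175 (k1 c9177 k0))))) (by decide +kernel)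
def c10847 : PP 9 3 T 0x5000000000000000000001000000000000000000000008000000000000000000000000000000000001000000002000000000010000000800000000204000 := rS 0x80c543cab10875fa648eabd110346e86b2f1019a402b358ad55bb611bfde6357ba2cbbb32186dea4935e729604 (k8 c9725 c5332 c6008 c5523 c507 c5477 c5475 c5478 (k8 c10845 c9749 c853 c10836 c10792 c448 c10760 c9734 (k8 c9724 c5573 c5422 c5421 c5574 c9723 c9744 c9722 (k8 c9697 c5337 c5377 c950 c2630 c5673 c2836 c1979 (k8 c8411 c1128 c1953 c10846 c7110 c3581 c1087 c6743 (k1 c3623 k0)))))) (by decide +kernel)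
def c10848 : PP 9 3 T 0x5000000000000000000001000000000000000000000008000000000000000000000000000000000001000000004400000000010000000800000000204000 := rS 0x55bf76a21360290a0111812960d798d5ee5dd996c36f5 (k8 c5477 c5475 c5474 c10845 c9749 c10836 c10792 c448 (k8 c3762 c5332 c9725 c9734 c9723 c10847 c3571 c717 (k4 c2417 c5529 c2552 c7110 (k1 c5682 k0)))) (by decide +kernel)
def c10849 : PP 9 3 T 0x5000000000000000000001000000000000000000000008000000000000000000000000000000000000000000004400000000010000000800000000204000 := rS 0x283e8554010d20106bcc6af72eeccb6f5 (k8 c5477 c5474 c10845 c9749 c10836 c10792 c448 c3762 (k8 c9723 c9744 c9725 c10848 c2449 c2319 c3571 c718 k0)) (by decide +kernel)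
def c10850 : PP 9 3 T 0x1000000000000000000001000000000000000000000000000000000000000000000000000000000000000000004400000000000000000000000000008000 := rS 0x10b9d (k2 c5369 c9740 (k1 c5672 k0)) (by decide +kernel)
def c10851 : PP 9 3 T 0x400000000020000000800000000200000 := rS 0x40d56fd4419039b60252dfef7 (k8 c10836 c10760 c5332 c9725 c9724 c313 c314 c530 (k4 c9094 c2121 c1985 c8656 k0)) (by decide +kernel)
def c10852 : PP 9 3 T 0x1000000000000000000001000000000000000000000008000000000000041000000000000000000044000000000400000020000001000800000000200000 := rS 0x1000f457681d54d65e20359ac56aaddb08c08ff798d5efb32186dea59 (k8 c10851 c5477 c5475 c5478 c10845 c10836 c10792 c448 (k8 c10760 c9725 c9734 c9724 c5573 c5422 c5421 c5574 (k8 c9722 c9697 c5337 c1957 c1953 c8720 c5414 c5816 (k2 c3623 c6743 k0)))) (by decide +kernel)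
def c10853 : PP 9 3 T 0x1000000000000000000001000000000000000000000008000000000000001000000000000000000004000000004400000000000000000800000000200000 := rS 0xa9da878d80a42998ca04348041af31abdcbbb32dbd4930357fb8b20f (k8 c10850 c10851 c10849 c5584 c5508 c507 c5477 c5474 (k8 c10845 c9749 c10836 c10792 c448 c3762 c9723 c9744 (k8 c9725 c10852 c5664 c736 c3571 c717 c718 c5529 (k2 c2319 c5682 k0)))) (by decide +kernel)
def c10854 : PP 9 3 T 0x9000000000000000000000000000000000000000000008000000000000000000000000000000000008000000000000000000000000000800000000200000 := rS 0x37be6a08a77b629c23a4848204a8776a29d0acd3ecb58ab76d4bf0a6446047b914bbb30dc75aeaf (k8 c5584 c5507 c5504 c5475 c10845 c9749 c454 c10836 (k8 c9725 c9734 c1592 c5456 c5332 c9724 c5573 c5421 (k8 c5420 c5572 c5574 c5377 c8199 c5413 c2121 c2126 (k8 c7110 c8309 c340 c2422 c341 c5444 c5195 c9122 (k4 c9031 c5590 c1278 c10489 k0))))) (by decide +kernel)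
def c10855 : PP 9 3 T 0x1000000000000000000000000000000000000000000000000000000000002000000000400000000040002010004004100000010000000800000000200000 := rS 0x1dc1329efb35a01650a6c02cb56ed84604a5885e635 (k8 c10792 c448 c2550 c5332 c9725 c9734 c9724 c5573 (k8 c5420 c9723 c168 c4067 c5855 c1240 c2504 c9031 (k4 c5433 c1507 c2131 c10739 k0))) (by decide +kernel)
def c10856 : PP 9 3 T 0x1000000000000002000000000000000000000000000008000000000000002000000000000000000000000000004000100080000000000800000000200040 := rS 0xeccd04985369301813c257678d466f72eeccb631 (k8 c5476 c5474 c10845 c9749 c10836 c492 c10792 c1646 (k8 c10737 c5456 c9725 c9722 c5444 c5397 c5445 c311 (k2 c2504 c5729 (k1 c10798 k0)))) (by decide +kernel)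
def c10857 : PP 9 3 T 0x1000000000000010000000000000000000000000000008000000000000002000000000400000000040000010004004000080010000000800000000200000 := rS 0x3ba5c13de2fca3629d3abc4074bf0a6446042beccb607 (k8 c1674 c5474 c10845 c10737 c9725 c9734 c1592 c5456 (k8 c5332 c9722 c9697 c2005 c10855 c10856 c5225 c10734 (k4 c5195 c312 c5452 c5493 (k1 c10711 k0)))) (by decide +kernel)
def c10858 : PP 9 3 T 0x1000000000000010000000000000000000000000000008000000000000002000000000400000000040000000004004000080010000000800000000200000 := rS 0xea092fca13a774bec528f10198c034bf0a6446042b96c0ea9 (k8 c135 c1674 c5474 c10737 c9725 c9734 c1592 c5456 (k8 c5332 c9723 c9755 c9722 c9697 c10857 c5446 c133 (k4 c2015 c1699 c5225 c10734 (k2 c312 c2006 (k1 c10711 k0))))) (by decide +kernel)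
def c10859 : PP 9 3 T 0x1000000000000000000001000000000000000000000008000000000000000000000000000000000000000000004400000000000000000800000000200000 := rS 0x4282cdbb433195f8ab57b5fdc59359ef380f021a4034b06bcc6af72eeccb6f5 (k8 c5477 c5474 c10845 c9749 c10836 c10792 c448 c3762 (k8 c5332 c9723 c9744 c9725 c10850 c6008 c5372 c5523 (k8 c10851 c10849 c5507 c5584 c10854 c10853 c1128 c5664 (k4 c10858 c5529 c717 c735 (k1 c3571 k0))))) (by decide +kernel)
def c10860 : PP 9 3 T 0x1000000000000000000001000000000000000000000008000000000000000000000000000000000000000000004000000000000000000800000000200000 := rS 0x1915c6781aa62bf2da405faabcea0b4359889a402b358ed9234b7fa2cbbb3 (k8 c10845 c9749 c853 c10760 c5332 c10190 c9724 c5421 (k8 c5574 c9723 c9744 c9730 c5337 c5377 c10859 c5525 (k8 c1974 c2393 c1978 c5211 c5221 c5414 c5531 c5550 (k4 c2007 c8604 c5664 c1131 k0)))) (by decide +kernel)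
def c10861 : PP 9 3 T 0x1000000000000014000000000000000000000000000000000000000000001054000000000000000004000000005400000000050000000000000000001020 := rS 0x1f052a01e5d (k4 c9749 c9737 c5682 c3571 (k2 c2319 c718 k0)) (by decide +kernel)
def c10862 : PP 9 3 T 0x20000000000000000000000000000008000000000000000000000000000010000000000000005400100000010000000800000000200000 := rS 0x7bc99d8f20963e741c070585cda9d027841a57798d466f72eeccb6f5 (k8 c5477 c5474 c10845 c9749 c10836 c492 c10792 c448 (k8 c10737 c3762 c5456 c9725 c5412 c5529 c1676 c717 (k8 c714 c3571 c5369 c794 c10756 c1535 c10693 c5356 (k2 c889 c5669 k0)))) (by decide +kernel)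
def c10863 : PP 9 3 T 0x44000000000000000008000000005400000000110000000000000000005020 := rS 0xce1f (k2 c1085 c2123 (k1 c8389 k0)) (by decide +kernel)
def c10864 : PP 9 3 T 0x1000000000000000000000000000000000000000000008000000000000000000000000000000000000000000004000000000000000000800000000200000 := rS 0xfc362ac140fdaa0cea5942b1730f52d8101af31abdcbbb3 (k8 c10845 c9749 c10836 c10792 c448 c3762 c9725 c5474 (k8 c5477 c10860 c5364 c5365 c5480 c5482 c5483 c10862 (k4 c9737 c3571 c10863 c717 (k2 c10861 c2552 k0)))) (by decide +kernel)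
def c10865 : PP 9 3 T 0x1000000000000000000000000000000000000000000004000000000000000000000000000000000000000000000000000000000000000800000000200000 := rS 0x5706a021d8a92dfaab54ed1e903acbc406b358ed84604a5bfde6357b914bbb3 (k8 c10845 c9749 c454 c10836 c10792 c448 c10760 c5332 (k8 c9725 c9734 c9724 c5421 c5574 c9722 c9697 c5337 (k8 c10772 c5657 c5228 c10768 c1924 c2338 c2594 c5414 (k4 c1998 c10769 c5649 c8604 (k1 c1078 k0))))) (by decide +kernel)
def c10866 : PP 9 3 T 0x800014000000000a2000000000000000000000000000000000000000000045000000400400000000001000000000000000000000000000000000000000000 := rS 0xd5f1b4dbc9b50b2d6aad70fbd5d1555acd6301 (k8 c5592 c5421 c5574 c5413 c5414 c8604 c5584 c5591 (k8 c5573 c5422 c5420 c5398 c5397 c5271 c8157 c6661 (k2 c3002 c5689 k0))) (by decide +kernel)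
def c10867 : PP 9 3 T 0x1000000000000000000000000000000000000000000000000000000000001000000000000000000000000000000000000000000000000800000000200000 := rS 0x78da8a03032362ae31acd63b67fb8e06a988805571580fcb43592fa7769e16383a96d73f8ffbecc2d9776631c99d8ea7942a0c139d0382cb20d19bdcaec5434e99e35 (k8 c10792 c1646 c10865 c10864 c899 c10737 c10836 c492 (k8 c3762 c2112 c3933 c1675 c5373 c10756 c163 c164 (k8 c1535 c10807 c10693 c5356 c5476 c10845 c9749 c5474 (k8 c10797 c5495 c3746 c804 c10802 c5332 c8435 c794 (k8 c5456 c5211 c5412 c10245 c5337 c5377 c5221 c5592 (k8 c5414 c5413 c9723 c9730 c2023 c10690 c10762 c10760 (k8 c9724 c5421 c5574 c9755 c8604 c10866 c9903 c5663 (k4 c1182 c1183 c5578 c10426 k0)))))))) (by decide +kernel)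
def c10868 : PP 9 3 T 0x1000000000000000000000000000000000000000000000000000000000000000000000000000000000000000000000000000000000000800000000200000 := rS 0x3609a64bf32676661d4be794eb1c0e09da03816c52ca0d0b9d430c4b73a8880697e10695d9e3519bdcbbb3 (k8 c10845 c9749 c10836 c492 c10792 c1646 c10737 c3762 (k8 c5456 c5332 c9723 c9730 c10865 c5474 c5476 c10864 (k8 c5373 c164 c163 c2112 c899 c3933 c8435 c5211 (k8 c10756 c1675 c794 c5412 c1535 c10245 c10807 c10797 (k4 c10693 c5356 c10867 c1181 (k2 c2504 c9903 (k1 c5397 k0))))))) (by decide +kernel)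
def c10869 : PP 9 3 T 0x10040000000000000000000000000000000000000000000000000000000000000000000005000000000000000800000000000020 := rS 0xc60752fc257 (k4 c10737 c5456 c5332 c6008 (k2 c5669 c794 k0)) (by decide +kernel)
def c10870 : PP 9 3 T 0x20000000040000000000000000000000000000000000000000000000000010000000000000000000100000050000000800000000200100 := rS 0xe86de86607e73313b3da0cecf101d2c1a57798d466f72eecd0e857e8c5a3ec5482cda070ba740879 (k8 c1535 c9725 c5412 c1676 c714 c5529 c717 c5531 (k8 c10868 c5501 c1678 c5542 c5541 c5499 c10845 c9749 (k8 c10836 c492 c10792 c448 c10737 c3762 c5332 c9722 (k8 c9697 c3567 c2056 c889 c10862 c5210 c10869 c5369 (k4 c10683 c3571 c1902 c1998 (k1 c5649 k0)))))) (by decide +kernel)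
def c10871 : PP 9 3 T 0x2000000000000000000000000000000000200000000000000000000000020000000000000000000000000450000000800000000200000 := rS 0x25c3a640d99f32f10c80cd2011a977663168fb0c295 (k8 c5446 c5445 c10868 c5501 c1678 c10845 c9749 c10792 (k8 c9723 c9744 c9722 c9701 c9697 c5364 c733 c5280 (k4 c5664 c1953 c1126 c5974 k0))) (by decide +kernel)
def c10872 : PP 9 3 T 0x40000000000000000000000000000000000000000000000012000000000000000000001200000000000000800000000000020 := rS 0x674f682 (k4 c1967 c1688 c5525 c10869 k0) (by decide +kernel)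
def c10873 : PP 9 3 T 0x22000000040000000000000000000000000000000000000000000000000000000000000000000000100000450000000800000000200000 := rS 0x18b282b8252604 (k4 c9725 c5444 c311 c10737 (k2 c10195 c10871 (k1 c10870 k0))) (by decide +kernel)
def c10874 : PP 9 3 T 0x22000000000000000000000000000000000000000000000000000000000000000000000000000000000000080000000800000000200000 := rS 0xd281355ae97579083411d080408f101acd96b15aab76cff718d557017e8c5a3ec8aaa54295 (k8 c5446 c5398 c5531 c5414 c10868 c5501 c1678 c5542 (k8 c5502 c5500 c10792 c10762 c10760 c9724 c5573 c5422 (k8 c5421 c5420 c5574 c9722 c9697 c9725 c9723 c5377 (k8 c183 c716 c925 c10406 c1074 c1933 c2779 c3623 (k2 c5982 c2088 k0))))) (by decide +kernel)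
def c10875 : PP 9 3 T 0x22000000040000000000000000000000000000000000000000000000002000000000000000000000000000400000000800000000200000 := rS 0x4419038583ab47d87904a4c085b (k8 c10874 c9725 c5444 c311 c1535 c10868 c5501 c10872 (k4 c10873 c313 c314 c530 (k1 c8673 k0))) (by decide +kernel)
def c10876 : PP 9 3 T 0x22000000040000000000000000000000000000000000000000000000000000000000000000000000000000400000000800000000200000 := rS 0x164ea654b334d2014c88c08ab68fb13aa964a6d2a5b (k8 c10874 c5446 c5397 c5396 c5531 c5412 c10868 c5501 (k8 c5500 c9725 c9734 c1592 c9723 c9744 c10875 c8724 (k4 c1126 c1529 c314 c10873 k0))) (by decide +kernel)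
def c10877 : PP 9 3 T 0x22000000040000000000000000000000000000000000000000000000000000000000000000000000000000000000000800000000200000 := rS 0x19834650ecede859419ac1f9c3d978b67904a4de203889a4034b06bcc6af72eecd0eab42bf7d89d5482cda04 (k8 c9725 c5529 c717 c5531 c5412 c10868 c5542 c5541 (k8 c5500 c5499 c10845 c9749 c10836 c10792 c448 c3762 (k8 c5332 c9723 c9744 c9730 c9722 c9697 c5444 c311 (k8 c1535 c10874 c10876 c1686 c10869 c5369 c5523 c5525 (k8 c10851 c3571 c10404 c1998 c9670 c5649 c3601 c1902 k0))))) (by decide +kernel)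
def c10878 : PP 9 3 T 0x20000020000000000000000000000000000000000000000000000000000000000000000000000000000010050000000800000000200000 := rS 0x1b0e99a76f4419ac1ef101c44d201a5835e6357b977668755a15fbec5482cda04 (k8 c9725 c5529 c717 c5531 c10868 c5542 c5541 c5500 (k8 c5499 c10845 c9749 c10836 c10792 c448 c3762 c5332 (k8 c9723 c9744 c9730 c9722 c9697 c5369 c5523 c5525 (k4 c3571 c10404 c3601 c1998 (k2 c1902 c5649 k0))))) (by decide +kernel)
def c10879 : PP 9 3 T 0x10040000000000000000000000000000000000000000000000000000000000000000000004000000000000000800000000200000 := rS 0x1e01204 (k4 c9725 c10756 c10869 c1535 k0) (by decide +kernel)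
def c10880 : PP 9 3 T 0x20000020000000000000000000000000000000000000000000000000000000000000000000000000000000050000000800000000200000 := rS 0x2766407d2c1bb3f602cda04 (k8 c9725 c5529 c717 c10868 c10845 c3762 c5332 c5369 (k2 c10878 c10404 (k1 c9670 k0))) (by decide +kernel)
def c10881 : PP 9 3 T 0x20000000040000000000000000000000000000000000000000000000000000000000000000000000000000050000000800000000200000 := rS 0x1de62664ea773d0273a35d9a1da3ec94010afb1 (k8 c10877 c10737 c9725 c10195 c10868 c5501 c5499 c10845 (k8 c10792 c10880 c10756 c10879 c889 c1688 c10209 c10870 (k2 c5234 c5451 k0))) (by decide +kernel)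
def c10882 : PP 9 3 T 0x20000000000000000000000000000000000000000000000000000000000000000000000000000000000000080000001800000000200000 := rS 0x81e2efb7c94d3f9c09ae974aabc841a08e8402047880d669f65ac56aaddb3fdc63555c05fa3168fb22aa9 (k8 c5531 c5414 c10868 c5501 c1678 c5542 c5502 c5500 (k8 c10792 c10762 c10760 c9724 c5573 c5422 c5421 c5420 (k8 c5572 c5574 c9722 c9697 c9725 c9723 c5377 c183 (k8 c716 c925 c10406 c1904 c1074 c1933 c3623 c5550 (k4 c2088 c1936 c2517 c8572 (k2 c10785 c562 (k1 c5462 k0))))))) (by decide +kernel)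
def c10883 : PP 9 3 T 0x20000000040000000000000000000000000000000000000000000000000000000000000000000000000000000000000800000000200000 := rS 0x3bf992c16f623d94010afb3 (k8 c10845 c10737 c9725 c10195 c5436 c10877 c10882 c10881 (k2 c5480 c9442 (k1 c5234 k0))) (by decide +kernel)
def c10884 : PP 9 3 T 0x20000000000000000000000000000000000000000000000000000000000000000000000000000000000000020000000800000000200000 := rS 0x81220c81cef813c2ab80a17d915549e4eb92 (k8 c10883 c5440 c5441 c5531 c5414 c10868 c5541 c5502 (k8 c5500 c5456 c9725 c9442 c313 c314 c530 c10813 (k1 c8611 k0))) (by decide +kernel)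
def c10885 : PP 9 3 T 0x400000000020000000000000000000000000000000000000000000000000000000000000000000000000000000000000080000000800000000200000 := rS 0x940f06a3168fb0ef92 (k8 c10883 c5356 c10868 c5501 c1678 c10792 c10882 c9931 (k1 c5436 k0)) (by decide +kernel)
def c10886 : PP 9 3 T 0x20000000000000000000000000000000000000000000000000000000000000000000000000000000000000040000000800000000200000 := rS 0x9bf1a85bec94b201a8833323113ef573d5c3039d7cb339d62686b26900ac76d4b2bbfde63519bdd165dd9a1d56857e8c5a3ec8aaa56e070ba7408093b9d72459 (k8 c10884 c10883 c5440 c5356 c5438 c9725 c5412 c1676 (k8 c714 c5533 c5531 c5414 c10868 c5501 c1678 c5542 (k8 c5541 c5500 c5499 c10845 c9749 c853 c10836 c492 (k8 c10792 c448 c10760 c10737 c5332 c9724 c5421 c9723 (k8 c9744 c5337 c5377 c3567 c10880 c5364 c5221 c5210 (k8 c5550 c5591 c5477 c10275 c5584 c2836 c5673 c10758 (k8 c2175 c948 c947 c734 c2063 c3002 c3001 c5463 (k2 c1231 c10775 k0)))))))) (by decide +kernel)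
def c10887 : PP 9 3 T 0x20000000000000000000000000000000000000000000000000000000000000000000000000000000000000000000000800000000200000 := rS 0x142d74af7878af21068b411d080408f10c80d96addb0c5a3ec (k8 c10868 c5501 c1678 c9724 c5573 c5420 c9722 c9701 (k8 c9697 c9725 c9723 c5377 c183 c10886 c716 c925 (k4 c10406 c10882 c10885 c1904 (k2 c1933 c2767 (k1 c9031 k0))))) (by decide +kernel)
def c10888 : PP 9 3 T 0x800000000000000000000000000000000000000000000000000000000000000000000000000000000000000000000000080000000800000000200000 := rS 0x5e30a8137b16bb192a1f57908ea1a3284742f1019a4c60165ac55bb63fecd0efd189e41e7b41a5daac969ca326cd62b3c6a7742e736b4b68fb00857 (k8 c10737 c9725 c10868 c5501 c5332 c10887 c5211 c5541 (k8 c5493 c10792 c1646 c5451 c5495 c8127 c10195 c5496 (k8 c5494 c5454 c5452 c5525 c5372 c9737 c1536 c1678 (k8 c5542 c5499 c10845 c804 c9724 c5573 c5421 c5420 (k8 c9723 c9755 c9744 c9722 c9697 c5377 c183 c1893 (k8 c716 c1894 c925 c10406 c10710 c1904 c3607 c1933 (k4 c9617 c7393 c9031 c727 (k2 c8121 c1122 k0)))))))) (by decide +kernel)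
def c10889 : PP 9 3 T 0x800000000000000000000000000000000000000000000000000000000000000000000000000000020000000000000000000000000800000000200000 := rS 0xa981c55106446e653a7430025007d2fec7c7a1020640663009fcaeff4597766ab808c4d6073d965079366b159e353ba1739b5a5b47d85b (k8 c10888 c10868 c5501 c5332 c10887 c5211 c5541 c5493 (k8 c10792 c1646 c5451 c5495 c8127 c5525 c10851 c5372 (k8 c1674 c9672 c1678 c5502 c5500 c10845 c9749 c853 (k8 c10760 c10737 c804 c9723 c9755 c9722 c9701 c9725 (k8 c5377 c5578 c5398 c1122 c2826 c5670 c312 c5663 (k8 c9174 c1696 c5482 c2174 c1576 c1749 c8106 c10681 (k2 c1957 c10815 k0))))))) (by decide +kernel)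
def c10890 : PP 9 3 T 0x8000000000000000000000000000000000040000000000000000000040000000800000000200000 := rS 0x54c543d03053d408b358ad55bb606bfde6357b977668755c050afdf61241e5941e736b4b (k8 c5332 c10887 c5211 c5525 c10851 c9737 c507 c10868 (k8 c5542 c5541 c5502 c5500 c5499 c10845 c9749 c10836 (k8 c10792 c448 c10760 c3762 c9724 c5573 c5422 c5421 (k8 c5574 c9725 c5477 c10404 c10783 c718 c1087 c2319 (k1 c3623 k0))))) (by decide +kernel)
def c10891 : PP 9 3 T 0x800000000000000000000000000000000000000000000000000000000000000000000000000040000000000000000000000000000800000000200000 := rS 0x35d2a7c2f020eb989db2d5bb6d99650728c9b358acf1a9dd0b9cdad2da3ec0215cb6a1 (k8 c10889 c10888 c10737 c9725 c10868 c5501 c5332 c10887 (k8 c5211 c5541 c5493 c10792 c1646 c5451 c5495 c8127 (k8 c10195 c5525 c10851 c10845 c9724 c5573 c5420 c10890 (k8 c5210 c5482 c10209 c312 c528 c1518 c1549 c9031 k0)))) (by decide +kernel)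
def c10892 : PP 9 3 T 0x800000000000000000000000000000000000000000000000000000000000000000000000000000000000000000000000000000000800000000200200 := rS 0x421f7a6c5be9b20248f85e11f85e6f743a3cb2830b8f6519366b159e353ba1739b5a5b47d8042b96d421b57114bbb3 (k8 c10845 c9749 c454 c10891 c1078 c10889 c10888 c10737 (k8 c9725 c10868 c5501 c5332 c10887 c5211 c5541 c5493 (k8 c10792 c1646 c5451 c5495 c8127 c10195 c5436 c5433 (k8 c5525 c10851 c5526 c5499 c10836 c448 c5456 c9734 (k8 c312 c528 c311 c527 c10735 c2829 c5444 c10777 (k2 c7579 c2421 (k1 c5650 k0))))))) (by decide +kernel)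
def c10893 : PP 9 3 T 0x800000000000000000000000000000000000000000000000000000000000000000000000000000000000000000000000000000000800000000200000 := rS 0x3db14d829285e9d664cc740499436ae2d85e5193669dd8a01027841a57678d466f745914bbb3428c5a3ec0781cf65941e736b4b (k8 c5332 c10887 c5211 c5525 c10851 c5372 c1674 c9737 (k8 c10868 c5501 c1678 c5541 c10845 c9749 c454 c853 (k8 c10836 c492 c10792 c1646 c10737 c3762 c5456 c9725 (k8 c9723 c5451 c5493 c5495 c8127 c10195 c5433 c10888 (k8 c10891 c1078 c1131 c10892 c3567 c10753 c5482 c9680 (k4 c2006 c2005 c10404 c10735 (k2 c5446 c718 (k1 c7579 k0)))))))) (by decide +kernel)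
def c10894 : PP 9 3 T 0x4000400000000000000101000000000000000000000000000000000000000000000000000000000000000000200000200000000000000000000000000000 := rS 0x789ad93 (k4 c5440 c2173 c5186 c5465 k0) (by decide +kernel)
def c10895 : PP 9 3 T 0x4000000000000000000001040000000000000000000000000000000000000000000000000000000000000000000000000000000000000800000000200000 := rS 0x3853adf1e85fc5b09468566cb5aed8465771f7c4201234543c0a9d6ccb283ce52c1bec021241fb5 (k8 c10887 c9737 c507 c9725 c10868 c3762 c5332 c5211 (k8 c5525 c10851 c10845 c5210 c10404 c718 c1087 c927 (k8 c9723 c2417 c10893 c10762 c10737 c9734 c9724 c5422 (k8 c5420 c5574 c5377 c10195 c5234 c5186 c5433 c5436 (k4 c5580 c5855 c2788 c6118 k0))))) (by decide +kernel)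
def c10896 : PP 9 3 T 0x1000000000000000000000000000000000000000000000000000000000000000000000000000000040000000800000000200000 := rS 0xd8181367763827247533230ca89f7878d8ae054eb4203021a403e10695c6a337ba2cbbb318b47d80f039ecb283ce6d697df (k8 c10893 c5332 c10887 c5211 c5525 c10851 c5372 c1674 (k8 c9737 c10868 c5501 c1678 c10845 c9749 c853 c10836 (k8 c492 c10792 c10737 c3762 c5456 c9723 c9744 c9725 (k8 c9722 c5377 c5210 c10404 c10890 c717 c718 c5584 (k8 c2836 c1131 c5673 c5664 c10894 c10895 c5438 c5357 (k4 c5356 c2492 c5729 c7600 (k1 c5445 k0))))))) (by decide +kernel)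
def c10897 : PP 9 3 T 0x80000000000000000000000000000000000000000000000000010000000000000000000100000154000000015000000000040 := rS 0xee09 (k2 c5438 c5356 (k1 c3567 k0)) (by decide +kernel)
def c10898 : PP 9 3 T 0x2000000000000000000000000000000000200000000000000000000000000000080000000000000800000000000000800000000200000 := rS 0x1abe36f3862a4b4e879a62150a4eb2b365ad76c230252cfe577fb8c920fda85c7bef (k8 c5584 c5436 c5433 c10887 c9737 c507 c10762 c10760 (k8 c10737 c804 c5332 c9725 c9734 c9724 c5422 c5420 (k8 c5574 c5337 c5444 c5398 c340 c2940 c5650 c5855 (k4 c2590 c1087 c6188 c6118 (k2 c5580 c3002 (k1 c10702 k0)))))) (by decide +kernel)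
def c10899 : PP 9 3 T 0x40000000000000000000000000000000000000000000000000000000080000000000000800000000000000800000080200000 := rS 0xf1281027d6434cc0972fa693ba14feda97e14c88cffb37efb36bdf0ba54c601d8ca00857 (k8 c10737 c9725 c10195 c10898 c9723 c9755 c2015 c5433 (k8 c10893 c10887 c10868 c5542 c10845 c804 c9734 c1592 (k8 c5456 c5332 c9724 c5572 c5377 c1082 c7579 c10734 (k8 c1231 c5663 c2941 c5678 c1579 c939 c1182 c5670 (k1 c5578 k0))))) (by decide +kernel)
def c10900 : PP 9 3 T 0x10000000000000000000000000040000000000000000000044000000000000000000000000005000000000150000000000000044001020 := rS 0x3d0400b1183d079c (k8 c5211 c5525 c9737 c9734 c718 c5650 c3571 c2421 k0) (by decide +kernel)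
def c10901 : PP 9 3 T 0x80000000000000000000040000000800000000200000 := rS 0x6c1245e041dd3a1e0df85322306bcc8a874285e51933ab1730594181cf79cdad2c62d1f617766337b8d40857 (k8 c10737 c9725 c10792 c10836 c492 c10845 c9749 c10868 (k8 c5501 c1678 c5332 c10887 c5211 c5372 c1674 c5525 (k8 c10851 c10896 c5364 c5482 c10897 c10195 c5433 c5541 (k8 c5499 c454 c448 c3762 c9734 c1592 c5456 c1078 (k8 c10900 c1082 c10899 c3567 c312 c311 c10734 c5444 k0))))) (by decide +kernel)
def c10902 : PP 9 3 T 0x400000000004000002000000000000000000000000000000000000000000000000000000000000000000000000000000000000000010000000000220 := rS 0x4bec52ac949178ca75 (k8 c5482 c5481 c312 c311 c1117 c1518 c5444 c1637 (k1 c5678 k0)) (by decide +kernel)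
def c10903 : PP 9 3 T 0x11000000000000000000000000000000000000000000000000000000000000000000000000000000000000800000000800000400400100 := rS 0x429c49d2fc299 (k4 c1592 c5456 c5332 c1516 (k2 c10734 c340 (k1 c5855 k0))) (by decide +kernel)
def c10904 : PP 9 3 T 0x1000000000000000000000000000000000000000000000000000000000000000000000000000000000000040000000800000000200000 := rS 0x6d2e663017de2031185e76af4a9d813df9464d8a594181cf79cdad2c62d1f617766337b8d408573ae60c601 (k8 c9723 c9755 c10896 c5482 c10737 c9725 c10792 c10836 (k8 c492 c10845 c9749 c10868 c5501 c1678 c5332 c10887 (k8 c5211 c5372 c1674 c5525 c10851 c5364 c10897 c10195 (k8 c10893 c10902 c10209 c2015 c10901 c10890 c5433 c9734 (k8 c9722 c9697 c10903 c5663 c724 c1639 c1902 c9823 k0))))) (by decide +kernel)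
def c10905 : PP 9 3 T 0x40000000800000000200000 := rS 0x1ef21a3038808eaa1aa7df1b79c31525a743c214db254293d835cec099dabc7a179464ceac5cc686b2b34fb2d6aaddb26446041f9fcaeff718d466f72297766ab80bf462d1f61241e8f039ecb283ce6d697df (k8 c10893 c5332 c10887 c5211 c5525 c10851 c5372 c1674 (k8 c5526 c9737 c507 c10868 c5501 c1678 c5542 c5502 (k8 c5500 c10845 c9749 c454 c10836 c492 c10792 c10762 (k8 c10760 c10737 c804 c3746 c9725 c9734 c1592 c9724 (k8 c5573 c5422 c5420 c5572 c5574 c5337 c5377 c10896 (k8 c5364 c5482 c10897 c10195 c5433 c5436 c10901 c10890 (k8 c10902 c10209 c10802 c10904 c5444 c5398 c5396 c5397 (k8 c340 c5650 c5855 c2590 c1087 c6188 c3620 c5580 (k8 c2829 c3002 c10153 c5778 c5670 c2320 c938 c4421 (k2 c5505 c5658 k0)))))))))) (by decide +kernel)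
def c10906 : PP 9 3 T 0x800000000200000 := rS 0xc9d8a7124204ba543e1a2d77f6a3168aafd9b31ad2c4604 (k8 c9725 c9734 c5332 c10792 c10845 c10868 c5500 c5501 (k8 c1678 c10887 c10893 c10905 c716 c10710 c1904 c1074 (k4 c5650 c340 c341 c5444 (k2 c1275 c5678 k0)))) (by decide +kernel)
def c10907 : PP 9 3 T 0x11000000000000000000000000040000000200000000000000000000000000000000000000000000000000400000000000000040200100 := rS 0x1379c0698c023b2b83c1604 (k8 c9725 c718 c9737 c9760 c10906 c9723 c9755 c9673 (k2 c5211 c7393 (k1 c9123 k0))) (by decide +kernel)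
def c10908 : PP 9 3 T 0x400000000015000000000000000000000000000000000000000000000000000000000000000000000800000000000000080000000000000000200000 := rS 0x4e1acf714f667157e158ed95e11d0bc4020768e4ced03212a5eb4a04980cc5f6425c2e951899407289d87c3404 (k8 c9725 c716 c10710 c5474 c5224 c9722 c1893 c5434 (k8 c1904 c5433 c1073 c5678 c1117 c715 c2064 c1574 (k8 c10907 c5519 c1906 c925 c1935 c2063 c5356 c4497 (k8 c5432 c9723 c9697 c5377 c183 c10406 c9724 c5421 (k8 c5536 c1190 c8100 c5195 c10275 c5372 c5523 c8106 (k1 c168 k0)))))) (by decide +kernel)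
def c10909 : PP 9 3 T 0x400000000015000000000000000000000000000000000000000000000000000000000000000000000000000000000000080000000000000000200000 := rS 0x457d86a369efc0c7cea6c1aa981bd69409c997cc076642552e371885c0e397e82d07280fabc841a33224cb3b08e842671021ceb2f101c44c60159ac56bb61d95d220f (k8 c9737 c904 c9760 c10906 c9724 c5422 c5421 c5574 (k8 c9723 c9755 c9730 c9722 c9697 c5337 c9717 c9725 (k8 c9720 c184 c5377 c183 c5474 c1893 c1899 c715 (k8 c716 c925 c10406 c10710 c5224 c4357 c718 c1075 (k8 c5317 c5432 c5433 c5434 c5435 c1073 c1904 c5678 (k8 c2063 c2064 c1117 c5356 c1574 c10907 c5519 c1935 (k8 c1906 c10704 c10908 c9123 c727 c5235 c5457 c5710 (k4 c5665 c5830 c1140 c10405 k0)))))))) (by decide +kernel)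
def c10910 : PP 9 3 T 0x2000000000000000000002000000000000000000000000000000000000000050000000000000000000000000000000000000140000000000000000005400 := rS 0x832ca1de685 (k4 c5541 c5540 c5499 c5480 (k2 c5483 c3571 k0)) (by decide +kernel)
def c10911 : PP 9 3 T 0x2000400000000015000000000000000000000000000000000200000000000000000000000000000000000400000000000002400000000000000000201400 := rS 0x1065932a59926c4e2652a7a6678724359d6659e8579b45568788974b6331c81c623763bddeb4ace8247657318041e04 (k8 c9725 c9737 c9723 c9755 c9760 c10906 c312 c9123 (k8 c6008 c5519 c5780 c727 c5435 c5434 c5432 c5317 (k8 c5316 c10909 c9749 c9730 c5499 c5500 c5501 c5540 (k8 c5541 c5543 c10910 c5210 c6012 c5234 c6290 c3587 (k8 c10699 c2017 c1594 c5679 c1697 c1275 c5678 c1126 (k2 c314 c2431 (k1 c3571 k0))))))) (by decide +kernel)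
def c10912 : PP 9 3 T 0x400000000015000000000000000000000000000000000200000000000000000000000000000000000400000000000002400000000000000000201400 := rS 0x3ba51f8a94c2acd478c99b50675329ef31e0f6e75e2038898c023b2b83c72071b82408c7 (k8 c727 c9725 c312 c5435 c5432 c5317 c9737 c9760 (k8 c10906 c9723 c9755 c9730 c9722 c9697 c9123 c10911 (k8 c5195 c5238 c5457 c5481 c5482 c5483 c5710 c10699 (k8 c3568 c5665 c9859 c1577 c2375 c5682 c2555 c2015 (k1 c10416 k0))))) (by decide +kernel)
def c10913 : PP 9 3 T 0x1000000000000014000000000000000000000000000000000200000000000000000000000000000000020400000000000002044000000000000000200900 := rS 0xf72b91a9662354ef993aa24b26664a10cafc54aadea1b9d565e20334ab76c231981e966c108043c04 (k8 c9725 c718 c9723 c2417 c717 c5516 c5432 c5316 (k8 c9734 c9724 c5573 c9744 c9722 c9697 c5337 c5228 (k8 c5475 c5477 c7110 c2319 c5682 c8316 c2552 c1180 (k8 c2553 c314 c8134 c1576 c5365 c3851 c3001 c10693 (k4 c10711 c948 c1233 c9178 (k1 c5584 k0)))))) (by decide +kernel)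
def c10914 : PP 9 3 T 0x400000000015000000000000000000000000000000000200000000000000000000000000000000000400000000000002000000000000000000200900 := rS 0x68cc954b9d98a75cc19676cf42fb140d18af80f2460f21f6c047880cc6012b9241e5b1985c6ec7 (k8 c727 c5435 c5433 c5316 c10909 c9737 c507 c9760 (k8 c9723 c9755 c9722 c9697 c9725 c9724 c3841 c718 (k8 c927 c2307 c10403 c1087 c5459 c6350 c10913 c5541 (k8 c5543 c6290 c9670 c5210 c1576 c5364 c10196 c1639 (k4 c2015 c724 c9823 c1902 k0))))) (by decide +kernel)
def c10915 : PP 9 3 T 0x2002400000000005000000000000000000000000000000000200000000000050000000000000000000000040000000000000000000000000000004200000 := rS 0x128349db35e2031d8cc72311bb45e6cf (k8 c5543 c5540 c5501 c5435 c5434 c5317 c5316 c10906 (k4 c9722 c9697 c5537 c6290 (k2 c3587 c9823 (k1 c1584 k0)))) (by decide +kernel)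
def c10916 : PP 9 3 T 0x1000000000011000000000000000000000000000000000000000000000000000000000000000000000400000000000000400000000000000000002020 := rS 0x78c92633a6a (k4 c316 c5522 c9046 c5235 (k2 c2373 c5441 k0)) (by decide +kernel)
def c10917 : PP 9 3 T 0x2002400000000005000000000000000000000000000000000200001000000050000000000000000000000000800000000802000000000000000000200000 := rS 0x5706a06a94ba0d8b989dbfdfb0155acd62b556ed88a5d (k8 c9749 c454 c9724 c5573 c5422 c5421 c5574 c5500 (k8 c5502 c5542 c5544 c6290 c5210 c5364 c5483 c1639 (k4 c2375 c2405 c10915 c3623 (k1 c1078 k0)))) (by decide +kernel)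
def c10918 : PP 9 3 T 0x400000000015000000000000000000000000000000000200000000000000000000000000000000000400000000000002400000000000000000200000 := rS 0x3b8d5921c7e2a55697419d4ca5962e63dbe08aa39ee20351b5eb9d0602c2213ac80e22012b974b633038c41204 (k8 c9725 c312 c5434 c5432 c5316 c10909 c9749 c9760 (k8 c9723 c9730 c9722 c5337 c184 c183 c10914 c10912 (k8 c5522 c2366 c2427 c316 c315 c3664 c532 c10439 (k8 c10916 c10917 c5238 c5364 c5480 c5481 c5482 c5483 (k8 c1639 c9859 c2375 c5682 c2551 c1180 c332 c725 (k1 c3567 k0)))))) (by decide +kernel)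
def c10919 : PP 9 3 T 0x41000400000000014000010000000000000000000000000000200000000000000000040000000000000020400800000501800044000000000000000200100 := rS 0x1ef7fab9a4c97e256030354aac688941994b3987880e2201 (k8 c9723 c9730 c9722 c9697 c5238 c5480 c5481 c5483 (k8 c5484 c10209 c9859 c2375 c2405 c2848 c1584 c5682 (k4 c1180 c5869 c10048 c2942 (k2 c5584 c5694 k0)))) (by decide +kernel)
def c10920 : PP 9 3 T 0x400000000015000000000000000000000000000000000200000000000000000000000000000000000400000000000000400000000000000000202000 := rS 0x3333b67a1fd8a068b7fe6e370a650b154ef80948e101a8db9d0884eb20388acd3ecb5aed8ae5b1c82408c73e9e4ee75c9184c601 (k8 c9723 c9755 c10918 c5663 c5440 c5356 c5441 c5442 (k8 c5357 c9725 c312 c5317 c10909 c9760 c9724 c5422 (k8 c5420 c5572 c5574 c9730 c9722 c5337 c184 c183 (k8 c5522 c2427 c316 c315 c532 c531 c10916 c1135 (k8 c10439 c4691 c2374 c2846 c2403 c5546 c2510 c5459 (k4 c3620 c10919 c5499 c5543 (k2 c6290 c10196 (k1 c5210 k0)))))))) (by decide +kernel)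
def c10921 : PP 9 3 T 0x11000000000000000000000000000000000200000000000000000000000000000000000400000000000801400000000000000000201000 := rS 0xf01e9320b4e80c7657078e40e3763e48c601 (k8 c9723 c9755 c5663 c5357 c5435 c5432 c5317 c9737 (k8 c9760 c10906 c9722 c1135 c2306 c2374 c10699 c5679 (k1 c5457 k0))) (by decide +kernel)
def c10922 : PP 9 3 T 0x2002000000000004000000080000000000000000000000000200000000000000000000000000000000000000000000000000000000000000000000000000 := rS 0x3333b639e4ee7543b450acf (k8 c5543 c5541 c5501 c5499 c5440 c5356 c5441 c5357 (k2 c6290 c10196 (k1 c5210 k0))) (by decide +kernel)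
def c10923 : PP 9 3 T 0x10000000080000000000000000000000000200000000000000000000000000000000000000000000000401004000000000000000201400 := rS 0x1b0f59d88804760f1c81c6ec7 (k8 c5357 c5435 c5432 c5317 c9737 c10906 c9723 c9730 (k4 c6200 c10699 c5665 c742 k0)) (by decide +kernel)
def c10924 : PP 9 3 T 0x400000000015000000000000000000000000000000000200000000000000000000000000000000000400000000000000400000000000000000200000 := rS 0x3f552ab33bd436359d7b7c01e109b2960a35834ea7763e48c2090198c02230215cba5b1981c2e31 (k8 c5434 c5433 c5432 c5316 c10909 c9749 c9760 c9725 (k8 c9734 c9723 c9755 c9722 c312 c10918 c5663 c5357 (k8 c5356 c5440 c10920 c10921 c10923 c5516 c717 c2417 (k8 c718 c10403 c10922 c5228 c5324 c5475 c5477 c5729 (k4 c7110 c2319 c2553 c5682 k0))))) (by decide +kernel)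
def c10925 : PP 9 3 T 0x2000000000000000000000000000000000000000000000000000000000000000000000000000000010000000000000000000001000040000000200800 := rS 0x1152307b6c04 (k4 c9725 c9724 c718 c927 (k2 c1087 c6350 k0)) (by decide +kernel)
def c10926 : PP 9 3 T 0x2000000000010000000000000000000000000000000000000000000000000000000000000000000000000000040000000800000000040000080200000 := rS 0x1e7c699ce45742b34fad4920fc9a0597b6 (k8 c9724 c5420 c1746 c5439 c9737 c507 c5422 c5572 (k8 c5574 c5377 c1087 c9664 c2317 c6706 c5524 c10667 k0)) (by decide +kernel)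
def c10927 : PP 9 3 T 0x2000000000000000000000000000000000000000000000000001000000000000000000000000000000000000041000000800000000000000000200000 := rS 0x3c499d0acd3eb5c9a0597b6 (k8 c9724 c5420 c1746 c5439 c5422 c5572 c5574 c5377 (k2 c1520 c10667 (k1 c6706 k0))) (by decide +kernel)
def c10928 : PP 9 3 T 0x10000000000000000000000000000000000000000000000000000000000000000004000080001402000400150000000000000000201400 := rS 0x2a1e49843bd4d8f7a567408f101c44020f (k8 c9737 c9723 c9730 c9722 c9697 c9725 c5524 c6008 (k8 c5780 c5665 c5519 c745 c2428 c3571 c1642 c2447 k0)) (by decide +kernel)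
def c10929 : PP 9 3 T 0x2000000000000000000000000000000000000000050000000000000000004000000000000002000140000000000000020005400 := rS 0x1e4fd43a14b283 (k4 c5483 c5480 c5365 c745 (k2 c2552 c3571 (k1 c334 k0))) (by decide +kernel)
def c10930 : PP 9 3 T 0x2400000000014000002000000000000000000000000000200000000000000000000000000000000000080000000000400844000000000000000201000 := rS 0x1ee57475f8f2ce1b695ed7abde761c7f8d12514041e6b2048880476452e8e40e852ca0c861b0bab76cf101b1cf6ab4e82d42490787c6e7f (k8 c804 c5435 c10926 c9737 c507 c1122 c10925 c5458 (k8 c1284 c5457 c5535 c9722 c9697 c9724 c5573 c5433 (k8 c1073 c10701 c5483 c5480 c5365 c5432 c5317 c9749 (k8 c454 c10906 c9723 c9730 c9725 c5337 c10928 c3568 (k8 c10927 c311 c10902 c3011 c1638 c5324 c501 c1999 (k8 c10910 c5228 c10929 c5665 c8145 c334 c555 c1241 (k2 c5658 c5584 k0))))))) (by decide +kernel)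
def c10931 : PP 9 3 T 0x2000000000000000000040000000000000000000000000000000000000000000000000000000000010401000140000801000000000000000000200000 := rS 0x1f7c6e24cc4e2ba159a7d96b5db275c2df (k8 c5538 c5460 c5458 c9724 c5422 c5420 c5572 c5574 (k8 c5377 c1140 c2600 c2374 c3620 c6706 c1552 c5670 k0)) (by decide +kernel)
def c10932 : PP 9 3 T 0x2400000000014000002000000000000000000000000000200000000000000000000000000000000000480000000000000844000000000000000200000 := rS 0x69ac08910798726a13fa0597b6 (k8 c9724 c5420 c1746 c804 c1122 c5439 c62 c9737 (k4 c904 c9725 c10931 c316 (k1 c10930 k0))) (by decide +kernel)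
def c10933 : PP 9 3 T 0x400000000015000000000000000000000000000000000200000000000000000000000000000000000400000000000000000000000000000000200000 := rS 0x1e94a05bcdee0d4387fd99cf086d2cc941994b285cc64cc25e0218c02572e83cb617 (k8 c5433 c10909 c9737 c9749 c9760 c9723 c9755 c9725 (k8 c10924 c62 c5439 c5234 c5365 c5480 c5481 c5483 (k8 c10171 c8117 c1073 c10932 c5235 c5195 c7579 c5373 (k4 c5522 c5498 c5540 c718 (k2 c10900 c3571 (k1 c5519 k0)))))) (by decide +kernel)
def c10934 : PP 9 3 T 0x400000000005000000040000000000000000000000000000000000000000000000000100000000000040000000100002000000000000000000000004 := rS 0x250eef1 (k4 c9697 c725 c5678 c10416 k0) (by decide +kernel)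
def c10935 : PP 9 3 T 0x2000000000000004000002000000000000000000000000000200001000000000000000400000000001000800000010400400044000000000000010200000 := rS 0x1aa8d40909bed3f7c095f1d63068d93b33d65e203889a402b13fa2c8a5d1981c7ae35aed90eab42a5dfac52c994ea8344824be04 (k8 c9725 c1119 c312 c5484 c5483 c5482 c5481 c5480 (k8 c5364 c5542 c1231 c5541 c5500 c5499 c9724 c5422 (k8 c2621 c5436 c5432 c5316 c9749 c454 c853 c804 (k8 c5421 c9723 c9744 c9730 c9722 c9697 c5337 c10711 (k8 c10693 c3601 c5649 c2492 c2161 c1078 c10275 c5508 (k4 c2088 c2517 c5658 c941 (k2 c1929 c2778 (k1 c3608 k0)))))))) (by decide +kernel)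
def c10936 : PP 9 3 T 0x400000000015000002040000000000000000000000000200000000000000000000000000000000000000000000000000000000000000000000200000 := rS 0x6f35140aef9c0e241e053d6741b331d9521d6ba55907d30454be6b3de72b2f10198c029f5888cae5d2483cb63303a7532e35aed81a211c811eeab79bfd2efdf67853475 (k8 c5482 c10933 c5536 c5195 c5542 c1231 c5544 c5540 (k8 c5500 c5498 c9725 c5317 c2490 c315 c9724 c5422 (k8 c2621 c98 c168 c5432 c5316 c10909 c9737 c507 (k8 c9749 c9760 c9734 c5421 c5572 c9723 c9755 c9722 (k8 c9697 c5337 c8100 c5372 c5523 c1119 c8106 c5663 (k8 c1579 c10934 c97 c2189 c2061 c2066 c10935 c724 (k8 c1902 c9823 c5477 c10910 c3581 c926 c7606 c5547 (k4 c10275 c1182 c1183 c10309 (k1 c3002 k0))))))))) (by decide +kernel)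
def c10937 : PP 9 3 T 0x400000000015000002000000000000000000000000000200000000000000000000000000000000000000000000000000000000000000000000200000 := rS 0xa53d33a0b63e48765d0796c2e370688472047bfb3c29a (k8 c10933 c5536 c5195 c5498 c9725 c5317 c2490 c315 (k8 c5435 c5433 c10909 c9737 c9749 c10906 c10936 c5357 (k4 c10403 c6200 c10910 c6008 (k1 c5519 k0)))) (by decide +kernel)
def c10938 : PP 9 3 T 0x1054000000000200000004000100000000000000000000000004000144200000 := rS 0x1521d7880c4604 (k4 c9725 c9734 c9722 c9697 (k2 c2061 c2066 (k1 c3581 k0))) (by decide +kernel)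
def c10939 : PP 9 3 T 0x400000000015000000000000000000000000000000000200000000000000000000000000000000000000000000000000000000000000000000200000 := rS 0x2c1958a946487f3a0b3ab1deb920d8d675994bbf5e6ab7bfb04299f0a686e310b81c7233021a4023b2b9741e5b (k8 c10909 c9737 c9749 c9760 c10906 c9723 c9744 c9725 (k8 c5316 c5317 c5432 c5433 c5434 c5435 c10933 c5536 (k8 c98 c2490 c5195 c5498 c5500 c5540 c5542 c1231 (k8 c10937 c5210 c6012 c5280 c5234 c5477 c5357 c5440 (k8 c10403 c6200 c9664 c10938 c5678 c1586 c1955 c10897 (k1 c314 k0)))))) (by decide +kernel)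
def c10940 : PP 9 3 T 0x400000000015000000000000000000000000000000000000000000000000000000000100000000000048000000000000000000000000000000200040 := rS 0x5832b14669434804ba5b3ae4808571a8c67529 (k8 c10939 c5224 c5476 c5324 c9760 c9725 c10195 c5440 (k8 c10909 c9749 c9723 c9744 c5678 c323 c1586 c8650 (k2 c10897 c314 k0))) (by decide +kernel)
def c10941 : PP 9 3 T 0x400000000015000011000000000000000000000000000000000000000000000000000000000000000800000000000000000000000000000000200000 := rS 0x8ff9c091aaf3219d52c889c54d4074b9b524174ce843203889a402b15aed9165d4883ceec7c94a408570faadfbec (k8 c5238 c5542 c8880 c9664 c9760 c9725 c10939 c10195 (k8 c5357 c5912 c9737 c904 c9749 c853 c9724 c5422 (k8 c5421 c9723 c9744 c9730 c9722 c9701 c5377 c98 (k8 c1066 c9848 c2492 c1231 c714 c5665 c1140 c2600 (k8 c10940 c2066 c2063 c5664 c1131 c2171 c10275 c5550 (k2 c2406 c5675 k0)))))) (by decide +kernel)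
def c10942 : PP 9 3 T 0x15000000000000000000044000001100000000040000000000000000000202000 := rS 0x2048e3501163b6 (k4 c9724 c5421 c9725 c316 (k2 c532 c8602 (k1 c2406 k0))) (by decide +kernel)
def c10943 : PP 9 3 T 0x15000001000000000000000000000000000100000000015000000000000200000004000400000000000000000000000040000004200400 := rS 0x133e13d0351aaf1c991240733a742e1901c44d20158ed8768b2ea441e7763e480857 (k8 c9760 c9725 c10195 c5357 c5912 c9737 c904 c9749 (k8 c853 c10906 c9724 c5421 c9723 c9744 c9730 c9722 (k8 c9701 c1064 c1275 c2063 c714 c5648 c5664 c325 (k4 c1131 c2171 c10942 c10699 (k2 c5457 c1594 (k1 c5679 k0)))))) (by decide +kernel)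
def c10944 : PP 9 3 T 0x400000000005000000000000000000000000000000000000000000000000000000000100000000000000000000100020400000000000000000000000 := rS 0x12a97 (k2 c1126 c1955 (k1 c5678 k0)) (by decide +kernel)
def c10945 : PP 9 3 T 0x400000000015000000000000000000000000000000000000000000000000000000000100000000000040000000000000000000000000000000200040 := rS 0xba4d2819018c67529 (k8 c10939 c5224 c5476 c9722 c9701 c5678 c10940 c1461 (k1 c5648 k0)) (by decide +kernel)
def c10946 : PP 9 3 T 0x11000000080000000000000000000000000000000000000054000000000000000000000500005000000080550000000540000000001440 := rS 0x4e1abc2823d15c1ec7 (k8 c5357 c9737 c9760 c10699 c3571 c5457 c2008 c5679 (k1 c1135 k0)) (by decide +kernel)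
def c10947 : PP 9 3 T 0x11000000080000000000000000000000000000000000000054000000000000000000000500005000000080550000000440000000001440 := rS 0x13be1350e1040f (k4 c9737 c3571 c10946 c2008 (k2 c5534 c1135 (k1 c5679 k0))) (by decide +kernel)
def c10948 : PP 9 3 T 0x400000000015000000000000000000000000000000000000000000000040000000004100000000000400005000000080000000000040000000200440 := rS 0xdf71b853b1525238d40c20859429949a582213ac864071100acd3ecb5aed8763f2e96cfa791abcdeb3a2c994eb922b97e5204 (k8 c9725 c10939 c9668 c9760 c10195 c5440 c10944 c314 (k8 c5224 c5477 c5325 c5324 c5441 c5442 c10909 c9749 (k8 c403 c10906 c9724 c5422 c5420 c5572 c5574 c9723 (k8 c9730 c9722 c9701 c5337 c184 c183 c10945 c1637 (k8 c1641 c8159 c5648 c9012 c10947 c316 c532 c531 (k4 c10439 c1135 c2846 c2403 (k2 c2511 c3620 k0))))))) (by decide +kernel)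
def c10949 : PP 9 3 T 0x440000000000000010500000010000002000000000000000000202000 := rS 0x1c29d8aa38d46d0884eb2030244402b34fb2d6bb6 (k8 c9724 c5422 c5420 c5572 c5574 c9723 c9730 c9725 (k8 c9722 c5337 c184 c183 c2427 c316 c532 c10439 (k2 c1697 c2846 (k1 c3620 k0)))) (by decide +kernel)
def c10950 : PP 9 3 T 0x400000000015000011000000000000000000000000000000000000000000000000000000000000000000000000000000000000000000000000200000 := rS 0x1154eb84d46d89a081a9971a85be600b200780633224b26564a6dfecf7ea160287238dc16f7f62ae9419019a402b34fb2d6aaddb175220f2d97cfa75c9010aef30dbd67529 (k8 c10939 c5224 c5477 c5475 c5325 c9760 c9725 c10195 (k8 c5440 c5442 c9668 c10909 c9737 c904 c9749 c9724 (k8 c5573 c5422 c5420 c5572 c5574 c9723 c9744 c9722 (k8 c9701 c6008 c8880 c5238 c5333 c5516 c5518 c5520 (k8 c5499 c5502 c5541 c5542 c5543 c5544 c10941 c10943 (k8 c10944 c314 c8134 c5664 c10948 c923 c922 c714 (k8 c713 c2770 c2767 c1493 c1463 c10949 c3571 c2605 (k4 c2431 c2008 c1717 c1697 (k2 c1140 c3620 k0))))))))) (by decide +kernel)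
def c10951 : PP 9 3 T 0x15000001000000000000000000000000000000000000000014000500000000000004011500014400000080050000000040000000201000 := rS 0xa9f6bd90afd8a02dbfe0d0acd3ecb5aed8460445974920f (k8 c9737 c507 c9749 c853 c9725 c9734 c9724 c5422 (k8 c5420 c5572 c5574 c5377 c5679 c5538 c10925 c3620 (k4 c8141 c736 c3571 c5498 (k2 c2021 c5682 k0)))) (by decide +kernel)
def c10952 : PP 9 3 T 0x11000000000000000000000000000000000100000000000000000000000000000000000800000000000000000000000000000000800000 := rS 0x5283de1 (k4 c5536 c1066 c5225 c5517 k0) (by decide +kernel)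
def c10953 : PP 9 3 T 0x15000001000000000000000000000000000000000000000014000100000000000004001400014400000080050000002040000000a01000 := rS 0x9971a843203 (k4 c9722 c9701 c2767 c1493 (k2 c1463 c10951 k0)) (by decide +kernel)
def c10954 : PP 9 3 T 0x10000000000000000000000000000000000000000000000000000140000000000000001500000000000000000000002080000000200000 := rS 0x71c54961e59a7d96b5db08c084907a843203 (k8 c9722 c9701 c2767 c9737 c507 c9725 c9734 c9724 (k8 c5422 c5420 c5572 c5574 c8484 c2590 c1087 c1494 (k1 c3620 k0))) (by decide +kernel)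
def c10955 : PP 9 3 T 0x400000000015000001000000000000000000000000000000000000000000000000000000000000000000000000000000000000000000000000200080 := rS 0x857b82d501f4c37c6c9b332ad12594b1953a9564b8526600b200786900ab76c231f9741e5b2f9d724042bbcc36317acea527b43835079c (k8 c10950 c5525 c5522 c5373 c5372 c10939 c5224 c5477 (k8 c5476 c5475 c5325 c9760 c9725 c10195 c5440 c9668 (k8 c10909 c9737 c9749 c403 c9734 c9724 c5573 c9723 (k8 c9744 c923 c922 c714 c713 c1564 c1716 c1064 (k8 c1461 c1696 c10944 c5678 c314 c8134 c8138 c5664 (k8 c10952 c10953 c2332 c10954 c2318 c1642 c718 c2021 (k2 c2449 c3571 k0))))))) (by decide +kernel)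
def c10956 : PP 9 3 T 0x400000000015000001000000000000000000000000000000000000000000000000000000000000000200000000000000000000000000000000a00000 := rS 0x3dd0a665596416fd328812ac934804ba0f2d97ceb920215de61b18bd6752943835079c (k8 c10950 c5525 c5522 c5373 c10939 c5224 c5477 c5476 (k8 c5475 c5325 c9760 c9725 c10195 c5440 c9668 c10909 (k8 c9737 c9749 c9723 c9744 c1064 c1461 c1464 c10944 (k8 c2555 c2417 c314 c8138 c5664 c736 c343 c3571 k0)))) (by decide +kernel)
def c10957 : PP 9 3 T 0x400000000015000001000000000000000000000000000000000000000000000000000000000000000000000000000000000000000080000000600000 := rS 0x15c64f619dfaa981c5590ab0f25c4292ac9a402b15aed8468b2e9241e772b8106a1b7acea5207a5a6c3203 (k8 c9722 c9701 c2328 c5518 c10955 c10939 c5224 c5477 (k8 c5475 c5324 c9725 c9760 c5912 c9737 c507 c9749 (k8 c853 c9734 c9724 c5422 c5421 c9723 c9744 c5337 (k8 c5648 c2419 c1637 c1568 c7110 c10945 c1087 c7606 (k4 c2319 c1180 c2063 c5682 (k2 c5664 c10275 (k1 c1131 k0))))))) (by decide +kernel)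
def c10958 : PP 9 3 T 0x400000000015000001000000000000000000000000000000000000000000000000000000000000000000000000000000000000000080000000200000 := rS 0x78a2a3d0f264821670b7d369df05676c190188c083f2b9241f29 (k8 c10939 c9737 c507 c9760 c403 c9725 c9734 c9722 (k8 c9701 c9724 c5337 c6642 c1480 c2328 c2332 c1484 (k8 c10957 c9012 c10956 c8484 c10954 c1087 c5655 c6706 k0))) (by decide +kernel)
def c10959 : PP 9 3 T 0x11000000080000000000000000000000000000000000000000000000000000000000010400000004000000000000000040000080201040 := rS 0xb1cf82963b2b9241ec7 (k8 c5357 c9737 c507 c9760 c10906 c5517 c7600 c2472 (k2 c10925 c10699 k0)) (by decide +kernel)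
def c10960 : PP 9 3 T 0x400000000015000001000000000000000000000000000000000000000000000000000000000000000000000000000000000000000000000000a00000 := rS 0x42bdfd94af08e0161f2c99536a1648ec7e5d0796cbec73ae4808577986deb3a949ed0e0d41e700e37 (k8 c10958 c10955 c10950 c5525 c5522 c5373 c5372 c10939 (k8 c5224 c5477 c5475 c5325 c9760 c9725 c10195 c5440 (k8 c5357 c9668 c10909 c9737 c9749 c403 c10906 c1064 (k8 c1069 c10952 c10944 c314 c10959 c718 c10699 c5534 (k4 c5225 c5195 c5333 c5541 (k1 c3571 k0)))))) (by decide +kernel)
def c10961 : PP 9 3 T 0x4000000000000000000000000000000000000000000040000000000000000000001000000000000000020000001000000000004200800 := rS 0x22aabf6078434b00ac76c23022bd165d (k8 c9749 c853 c1131 c9725 c9734 c9724 c5421 c9723 (k4 c5516 c2417 c718 c8316 (k2 c7110 c1087 (k1 c10275 k0)))) (by decide +kernel)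
def c10962 : PP 9 3 T 0x400000000015000001000000000000000000000000000000000000000000000000000000000000000000000000000000000000000000000000200400 := rS 0x880e161fe8555fb1efe11c0ec1e5b63e49e6f53da1c1a377e9ae068d3219d90974905c32031ace80e779495c086900ac76c8b2ee85079c (k8 c10950 c5525 c5377 c9749 c853 c9724 c5421 c9723 (k8 c9744 c9725 c9760 c10939 c5912 c10955 c5224 c5324 (k8 c9722 c9701 c10960 c5648 c1637 c10945 c2063 c5664 (k8 c2171 c10681 c5523 c1128 c10958 c5522 c5373 c5372 (k8 c5477 c5325 c10195 c5357 c10909 c9737 c10906 c10699 (k8 c5534 c3677 c5195 c5500 c5541 c5544 c3571 c313 (k2 c530 c8656 k0))))))) (by decide +kernel)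
def c10963 : PP 9 3 T 0x400000000015000001000000000000000000000000000000000000000000000000000000000000000000000000000000000000000000000000200000 := rS 0x2a4150346990cec84ba482e0741e734219019a402b1db22cba49079dcae041a86e7529 (k8 c10939 c5224 c5475 c5324 c9725 c9760 c5912 c9737 (k8 c507 c9749 c853 c9724 c5421 c9723 c9744 c9722 (k8 c9701 c5377 c10950 c5525 c10955 c10960 c5648 c1637 (k8 c10945 c2063 c5664 c2171 c10681 c10962 c1957 c10961 k0)))) (by decide +kernel)
def c10964 : PP 9 3 T 0x15000002000000000000000000000000000100000000000010000000000000000000000000000000000000000000000008000004200800 := rS 0x7b19cd154aadfbe01c8790e213652c02233bb1cf275c9010ae85 (k8 c5365 c9760 c9725 c10195 c5440 c5441 c5357 c5912 (k8 c9734 c9723 c5516 c717 c2417 c3841 c718 c2470 (k8 c5225 c2552 c7110 c2319 c2130 c10196 c5682 c5543 k0))) (by decide +kernel)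
def c10965 : PP 9 3 T 0x2000000000000011000002000000000000000000000000000000000000000010000000010040000000000000000001500000540000000100000000000420 := rS 0x9a1078418cf43bdc1e85 (k8 c5365 c9737 c5498 c5499 c5543 c10910 c10196 c315 (k2 c10916 c2490 k0)) (by decide +kernel)
def c10966 : PP 9 3 T 0x1000400000000015000000000000000000000000000000000000000000000000000000000000000009000000004000000000000000000000000000200040 := rS 0xe671900d4b9ac3203079dc12c779a14ca83058c8ea5bc90118a312e9646a57cc3d4373a94a759be0 (k8 c5195 c5537 c5458 c10939 c5224 c5475 c5477 c10963 (k8 c9760 c5324 c5480 c9749 c5476 c5364 c9725 c10195 (k8 c10909 c5440 c10897 c10964 c5483 c5481 c5365 c5325 (k8 c5357 c9669 c5912 c9737 c9722 c9701 c1137 c1284 (k4 c316 c10945 c5777 c10663 (k1 c8553 k0)))))) (by decide +kernel)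
def c10967 : PP 9 3 T 0x1000400000000015000000000000000000000000000000000000000000000000000000000000000001000000004000000000000000000000000000200040 := rS 0x35670c20d4ca58da217e2ae22630083cbec73cbcd0a834a864060b191d4b79202314625d2c8d4af987a86e75293da7537e0 (k8 c5195 c5536 c5458 c5457 c10939 c5224 c5475 c5477 (k8 c10963 c9760 c5324 c5480 c9749 c5476 c5364 c9725 (k8 c10195 c10909 c5440 c10897 c10964 c9722 c9701 c2013 (k8 c5483 c5365 c5325 c5441 c5357 c9668 c9737 c9723 (k8 c9755 c9730 c10966 c5682 c2550 c2552 c10429 c2555 (k4 c315 c1639 c5777 c3598 (k1 c5523 k0))))))) (by decide +kernel)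
def c10968 : PP 9 3 T 0x400000000015000000000000000000000000000000000000000000000000000000000000000001000000000000000000000000000100000000200040 := rS 0xfd55880da0c1bd2b3a863df83dad101c44023b079dcbec73cbccca0b191d4b79202314625d2c8d4af987a86e7529 (k8 c10939 c5224 c5475 c5477 c10963 c9760 c5324 c5480 (k8 c9749 c5476 c5364 c9725 c10195 c10909 c5440 c10897 (k8 c10964 c5481 c5325 c5441 c5357 c9668 c5912 c9737 (k8 c10906 c9723 c9730 c9722 c2130 c10965 c5195 c5457 (k8 c10967 c5373 c6008 c5518 c10699 c2427 c315 c9859 (k2 c2550 c5682 k0)))))) (by decide +kernel)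
def c10969 : PP 9 3 T 0x400000000015000000000000000000000000000000000000000000000000000000000000000001000000000000000000000000000000000000200040 := rS 0x7894041640f5a697492ba069a8aa38d40c7eaaf3af7f652bc2380884eb21901c44029f58ed87e0f2fbcd060b191d4b79202314625d2c8d4af987a86e7529 (k8 c10939 c5224 c5475 c5477 c10963 c9760 c5324 c5480 (k8 c9749 c5476 c5364 c9725 c10195 c10909 c5440 c10897 (k8 c10964 c5483 c5325 c9668 c9737 c403 c9724 c5421 (k8 c5572 c9723 c9730 c9722 c9701 c5337 c184 c183 (k8 c10968 c5534 c5225 c5195 c5333 c8145 c5500 c5542 (k8 c10910 c316 c532 c10439 c10916 c2405 c10275 c9848 (k8 c1231 c2941 c1569 c323 c545 c1182 c5655 c5578 k0))))))) (by decide +kernel)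
def c10970 : PP 9 3 T 0x400000000015000000000000000000000000000000000000000000000000000000000000000000000000000000000000000000000000000000200040 := rS 0xc35a1deea8058ca2201119741e5b3ae4808571abcc36317acea52c5429650798 (k8 c10963 c5483 c5480 c5365 c5364 c10939 c5224 c5477 (k8 c5476 c5475 c5325 c5324 c9760 c9725 c10195 c5440 (k8 c10909 c9737 c9749 c9734 c9723 c9730 c10897 c10964 (k4 c10969 c2021 c2023 c2375 (k2 c3571 c316 k0))))) (by decide +kernel)
def c10971 : PP 9 3 T 0x400000000015000000000000000000000000000000000000000000000000000000000000000000000000000000000000000000000000000000200000 := rS 0x974ab24c0160331730310dcea5204 (k8 c9725 c10939 c5224 c5475 c5476 c10963 c5364 c10970 (k4 c714 c713 c1064 c1461 (k2 c1639 c5678 k0))) (by decide +kernel)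
def c10972 : PP 9 3 T 0x4000000000050000000000000000000000000000000000000000000000000000000000100000000000000000000000000000000000000000000000a0 := rS 0x95648c436979d1802d29 (k8 c5432 c714 c713 c5224 c1639 c5475 c5476 c1064 (k2 c1461 c5678 k0)) (by decide +kernel)
def c10973 : PP 9 3 T 0x400000000000000000080000000000000000000008000000000000000000000000010010000000000000001400400000014000000540000000005440 := rS 0x66fb50ccff0e74f4c7 (k8 c5357 c10699 c5372 c5457 c1648 c5777 c5499 c2073 (k1 c5688 k0)) (by decide +kernel)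
def c10974 : PP 9 3 T 0x400000000005000002000000000000000000000000000100000000000000000000000000000000000040000000000000000000000000000000200000 := rS 0xff57b49aa407ef8dbe9b80c0fc1f22492e979d070e46e3d493442ec8d0d65669f58ed8763f55c5532a906884166dda21507921a86dea95194e8ee0762810b2752b8243203 (k8 c9722 c9701 c9669 c9760 c5482 c5480 c9725 c5364 (k8 c10972 c5912 c5224 c10693 c2013 c5477 c5475 c5324 (k8 c10195 c5483 c5365 c10971 c5529 c717 c5528 c315 (k8 c5531 c5530 c5414 c5413 c403 c10906 c9724 c5421 (k8 c5572 c5574 c5337 c5377 c5678 c1064 c2133 c5648 (k8 c1569 c1567 c324 c10973 c5369 c5329 c10387 c10687 (k8 c5221 c5654 c7820 c5592 c5536 c5538 c6706 c10429 (k4 c5655 c1656 c545 c1183 (k2 c2942 c8604 k0))))))))) (by decide +kernel)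
def c10975 : PP 9 3 T 0x20000000000000000000000000000000000100000000000000000000000000000000000004000000000000004000010000000000208000 := rS 0x789c6e11efc93649258e6979dd0d64081901acd3fb61fa762a99 (k8 c5530 c5414 c5412 c403 c9724 c5572 c5574 c9722 (k8 c9701 c9725 c5337 c5377 c5369 c5329 c393 c10387 (k8 c10687 c9848 c5221 c10692 c6188 c5549 c5655 c6661 k0))) (by decide +kernel)
def c10976 : PP 9 3 T 0x400000000000000000080000000000000000000008000000000000000000000000010010000000001100001400401001414000000100000000a05040 := rS 0xd59c3dd2c6c9b8898c023b058118e79 (k8 c5441 c5357 c9725 c717 c10906 c9723 c9755 c9730 (k4 c1067 c10973 c5518 c1478 (k2 c6008 c3598 (k1 c5523 k0)))) (by decide +kernel)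
def c10977 : PP 9 3 T 0x400000000005000002000000000000000000000000000100000000000000000000000000000000000000000000000000000000000000000000200000 := rS 0x337da867bb3fc238079042cd130a4d2cf52dbcc6b3a2fe48ee190195cba9d4c834420b36ed10a594181d8a04 (k8 c9725 c5364 c10972 c5483 c5480 c5365 c10971 c5529 (k8 c717 c5528 c315 c5530 c5412 c9749 c9760 c9722 (k8 c9701 c5912 c10195 c9668 c5224 c5324 c5325 c5474 (k8 c5477 c10974 c1637 c1639 c1708 c5648 c9012 c10975 (k8 c10976 c5534 c2558 c398 c3571 c10910 c2073 c5688 k0))))) (by decide +kernel)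
def c10978 : PP 9 3 T 0x21000000000000000000000000000000000000000000000000000000000040000000000004000000000000800000000140000000604040 := rS 0xfa6c02190188c765710a64166d04810f69d (k8 c5412 c1686 c9725 c311 c5529 c717 c5530 c5528 (k8 c9760 c10906 c9734 c9722 c9701 c9723 c1120 c5837 (k1 c6193 k0))) (by decide +kernel)
def c10979 : PP 9 3 T 0x21000000000000000000000000000008000000000000000000000000000010000000000084001400100000110000000145000000604040 := rS 0xf03d99e876317b26f5798d4c6012b834420b36824c2d14e96c3604 (k8 c9725 c1073 c716 c5412 c1708 c1639 c311 c5529 (k8 c717 c5528 c315 c9760 c9723 c9755 c5324 c5325 (k8 c5477 c10897 c5663 c10978 c799 c2560 c3571 c10803 (k1 c5535 k0)))) (by decide +kernel)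
def c10980 : PP 9 3 T 0x25000002000000000000000000000000000200000000000000000000000000000000000084000000000000000000000000000000204040 := rS 0x66fb5eccf43f858c5e3b64deaf31a872765b6898436f10198c023b2b9753aa906884166d62a14b275418cc7217188dc1204 (k8 c9725 c311 c5435 c5434 c5433 c5317 c5316 c5483 (k8 c5482 c5480 c5365 c5364 c5529 c717 c5528 c315 (k8 c5531 c5412 c9749 c9760 c10906 c9723 c9755 c9722 (k8 c9697 c1073 c1639 c1708 c716 c10979 c5649 c331 (k8 c333 c1998 c10897 c10209 c5663 c10978 c5535 c799 (k4 c2560 c3571 c5498 c2072 (k1 c10798 k0))))))) (by decide +kernel)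
def c10981 : PP 9 3 T 0x400000000005000000040000000000000000000000000000000000000000000000000000000000000040000000000015000000000000000000000000 := rS 0xbcc9 (k2 c10171 c5663 (k1 c8117 k0)) (by decide +kernel)
def c10982 : PP 9 3 T 0x400000000000000002000000000000000000000000000000000000000000000000010200000000000000004008000000100000000100000000005420 := rS 0x66fb5e45b339dd0a5941f859ec57bbd6959d (k8 c5372 c6008 c5519 c5780 c5364 c1648 c5457 c5483 (k8 c5480 c5365 c889 c2063 c715 c3571 c10910 c2500 (k1 c5688 k0))) (by decide +kernel)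
def c10983 : PP 9 3 T 0x400000000000000002000000000000000000000000000000001000000000000000010200000005000100000008000002100000000104000100204400 := rS 0x7fc07de42461695e660d1d9e6cc81fb50cb358ab76c4506f85eefd67b143ef523d2b3a04 (k8 c9725 c5372 c6008 c5520 c5519 c5517 c5364 c1648 (k8 c1181 c5780 c5457 c315 c454 c9724 c5573 c5421 (k8 c5574 c10982 c5499 c10690 c5688 c2500 c2073 c10938 (k8 c724 c1078 c1902 c924 c925 c5505 c4458 c2780 (k1 c9179 k0))))) (by decide +kernel)
def c10984 : PP 9 3 T 0x400000000000000002000000000000000000000000000000001000000000000000000200000005000100000008000002100000000104000100204400 := rS 0xd0 (k2 c10983 c2133 k0) (by decide +kernel)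
def c10985 : PP 9 3 T 0x400000000005000002040000000000000000000000000000000000000000000000000000000000000004000000000000000000000000000000204000 := rS 0x1e8f2c7641800663008ecae5d55c5532a906884166d329d466391b8252f2803b1409b4 (k8 c10971 c9725 c5364 c10972 c10977 c10980 c311 c5435 (k8 c5317 c5316 c5482 c5481 c5529 c717 c5528 c315 (k8 c5531 c5530 c5414 c5413 c9749 c9760 c10906 c9723 (k8 c9755 c9722 c10981 c10934 c726 c1577 c3568 c10984 k0)))) (by decide +kernel)
def c10986 : PP 9 3 T 0x80000000000000000000000000000000000000000000000000010000000000024000000100000114000000005000000200040 := rS 0xb41b1a811e203 (k4 c9722 c9697 c9725 c1584 (k2 c1905 c10897 (k1 c716 k0))) (by decide +kernel)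
def c10987 : PP 9 3 T 0x400000000005000002000000000000000000000000000000000000000000000000000000000000000004000000000000000000000000000000204000 := rS 0x66fb50cd1642559fe13d1dd8f924b8ecae5d55834420b36ed0b27503b1408331c8c46f28 (k8 c10977 c5435 c5434 c5317 c5316 c9725 c5364 c10972 (k8 c5482 c5480 c10971 c5529 c717 c5528 c315 c5413 (k8 c9749 c9760 c10906 c10980 c10985 c5357 c5356 c10699 (k8 c5457 c1648 c10986 c5678 c2133 c10982 c5499 c2073 (k1 c5688 k0))))) (by decide +kernel)
def c10988 : PP 9 3 T 0x400000000000000002080000000000000000000000000000000000000000000000010200000000000000000000000000104000000140000000205440 := rS 0x337da8667f84f4776381076c5 (k8 c5364 c10906 c9725 c5357 c5356 c10699 c5457 c1648 (k4 c10982 c5499 c2073 c5688 k0)) (by decide +kernel)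
def c10989 : PP 9 3 T 0x400000000005000002000000000000000000000000000000000000000000000000000200000000000000000000000000000000000000000000204000 := rS 0x1ecf2c73064c12d12fa5cc6011d95cbaab8aa65520d1082cdbb43281d8a04198e46f28 (k8 c10977 c5435 c5317 c5316 c9725 c5364 c10972 c5481 (k8 c10971 c5529 c717 c5528 c315 c5531 c5530 c5414 (k8 c5413 c9749 c9760 c10906 c9723 c9755 c134 c1117 (k8 c2133 c312 c10988 c10981 c726 c1577 c10984 c3568 k0)))) (by decide +kernel)
def c10990 : PP 9 3 T 0x400000000005000002040000000000000000000000000000000000000000000000000100000000000040000000000000000000000000000000200000 := rS 0xc00331804ca75 (k4 c5482 c5481 c9723 c9755 (k2 c9722 c10981 (k1 c10934 k0))) (by decide +kernel)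
def c10991 : PP 9 3 T 0x400000000005000002040000000000000000000000000000000000000000000000000040000000000000000000000000000000000000000000204000 := rS 0x46c4bdce26ab7d37a159a7d6a9d55c5532496ba84fe5740b2f6c867983442f71a16c361794215ea1c54964ba0b36ed00883699f113e370900105e30a5992c531805243b (k8 c10906 c10987 c9723 c9755 c5364 c10989 c10990 c1639 (k8 c5663 c1516 c527 c1714 c5462 c5484 c528 c2827 (k8 c5483 c9725 c10971 c5529 c717 c9749 c5480 c5531 (k8 c1638 c1998 c5365 c10977 c5433 c1073 c716 c1637 (k8 c501 c5528 c315 c333 c3571 c9724 c5420 c1746 (k8 c9760 c804 c1122 c1767 c507 c5530 c5414 c5413 (k8 c5412 c5422 c5572 c5574 c5377 c1120 c2830 c10705 (k4 c3620 c5689 c1552 c5505 (k1 c958 k0))))))))) (by decide +kernel)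
def c10992 : PP 9 3 T 0x400000000005000002040000000000000000000000000000000000000000000000000000000000000000000000000000000000000000000000204000 := rS 0x68b190cf579bdcb61c1a06d2c3b2ea75520d1082cdbb402214b2830bca124c9 (k8 c10989 c10987 c10977 c5433 c5483 c5480 c5365 c9725 (k8 c10971 c5529 c717 c5528 c315 c5531 c5412 c9749 (k8 c10906 c10990 c1073 c1637 c1638 c716 c501 c333 (k4 c1998 c3571 c10991 c1708 (k1 c799 k0))))) (by decide +kernel)
def c10993 : PP 9 3 T 0x400000000005000002000000000000000000000000000000000000000000000000020000000000000000000000000000000000000000000000204000 := rS 0xd250b4971a8ecae5d4eed0b27503b14083318ca19392 (k8 c10992 c10989 c10977 c5434 c5316 c9725 c5364 c10972 (k8 c5482 c5480 c10971 c5412 c9749 c9760 c10906 c1704 (k4 c1708 c10897 c5678 c716 (k1 c1904 k0)))) (by decide +kernel)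
def c10994 : PP 9 3 T 0x400000000004000000000000000000000000000000000200000000000000000000000100000000000000000000400000080000000000000000200000 := rS 0x50b55ae954bb4d5e420d23023a100811e2034fb2d62addb05c623d (k8 c5436 c5434 c5433 c9724 c5573 c5421 c5420 c5572 (k8 c9722 c9697 c9725 c9723 c5377 c183 c924 c716 (k8 c925 c10406 c2083 c1073 c1904 c1933 c2778 c10048 (k1 c3618 k0)))) (by decide +kernel)
def c10995 : PP 9 3 T 0x400000000005000002000000000000000000000000000000000000000000000000000000000000000000000000000000000000000000000000204000 := rS 0x10ef3667b4b6d17ab3fc2f7a51eb3a7763e49923b2b9741a21059b768852ca0c0ec5020e46f28 (k8 c10977 c5435 c5317 c9725 c5364 c10972 c5483 c5480 (k8 c5365 c10971 c5529 c717 c5528 c315 c9749 c9760 (k8 c10906 c10989 c10992 c5357 c5356 c6200 c10699 c6008 (k8 c5780 c5457 c1648 c5519 c10993 c10994 c10910 c5688 (k2 c2500 c2073 (k1 c3571 k0)))))) (by decide +kernel)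
def c10996 : PP 9 3 T 0x400000000005000002000000000000000000000004000000000000000000000000000100000000000000000000000000000000000020000000200000 := rS 0x142df6a473de9b573fdfbec7a870861b4b2cd3ecb58ad55bb622a7557154caa7681779975c24b1eca092e381fca979d07686b2957880dee3b (k8 c10906 c501 c9722 c9697 c1584 c5337 c5377 c10995 (k8 c5369 c5329 c5221 c5550 c5549 c10687 c10977 c5436 (k8 c10387 c6188 c9749 c445 c5433 c10971 c5531 c5530 (k8 c5414 c5413 c5412 c454 c9724 c5573 c5422 c5421 (k8 c5420 c5572 c5574 c5678 c1073 c10701 c5649 c1998 (k8 c5657 c5542 c5544 c10275 c1231 c5584 c5658 c553 (k2 c3002 c3001 (k1 c3620 k0)))))))) (by decide +kernel)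
def c10997 : PP 9 3 T 0x400000000005000002000000000000000000000004000000000000000000000000000000000000000000000000000000000000000020000000200000 := rS 0xf47f7b5faaf0d25d90f74abc406b358ed8764555c5553b419ca1e65d81c07e54bce83b4359 (k8 c5337 c5377 c10995 c5369 c5329 c5221 c5592 c5550 (k8 c9749 c445 c10977 c5316 c10971 c5531 c5414 c5413 (k8 c454 c10906 c9724 c5421 c5574 c9722 c9697 c1584 (k8 c501 c10996 c134 c9823 c1078 c1076 c8528 c8604 (k2 c5657 c2342 k0))))) (by decide +kernel)
def c10998 : PP 9 3 T 0x180000000000000000208000 := rS 0x46564939d (k4 c5369 c10687 c5337 c924 (k1 c10694 k0)) (by decide +kernel)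
def c10999 : PP 9 3 T 0x1000000000000020000000040000000000000000040000000000000000049000000500210000000040000000000000800002004000000000000000200000 := rS 0x6726bc3e2d0acd3ecb5aeda2a99 (k8 c5530 c5414 c9724 c5422 c5420 c5572 c5574 c5377 (k4 c10426 c10677 c6661 c10713 (k1 c2562 k0))) (by decide +kernel)
def c11000 : PP 9 3 T 0x5000000000000020000010040000000000000000040000000000000000001054000100010000000040000000000000800002004000000155000000200000 := rS 0x1a4df4df819c7b66b55fcb358ed876ab8aaa5c70380fcb4359 (k8 c5337 c5377 c5221 c5592 c5550 c5549 c5531 c5414 (k8 c5413 c10906 c9724 c5421 c5574 c8604 c10999 c2507 (k4 c890 c3587 c10425 c2562 (k2 c5538 c6662 (k1 c2942 k0))))) (by decide +kernel)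
def c11001 : PP 9 3 T 0x10040000000000000000000000000000000000002000000000000200000000000000000000800002000000000000000000000000 := rS 0x1e13da699a97 (k4 c134 c2505 c1180 c890 (k2 c5536 c10425 k0)) (by decide +kernel)
def c11002 : PP 9 3 T 0x5000000000000020000010040000000000000000040000000000000000001014000100010000000040000000000000800002004000000155000000200000 := rS 0x69f8dbfe03db559afe7b2cd63b61d9fd57154caa5c70380fcb4359 (k8 c5337 c5377 c5221 c5592 c5550 c5549 c5531 c5530 (k8 c5414 c5413 c804 c10906 c9724 c5421 c5574 c11000 (k8 c8604 c2072 c10999 c890 c10425 c5538 c6706 c2942 (k1 c10702 k0)))) (by decide +kernel)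
def c11003 : PP 9 3 T 0x100040000000000000000000000000000000000000000000000000200000080000000000000000002000000000000000000000000 := rS 0x78da8a0 (k4 c1182 c1183 c5578 c10426 k0) (by decide +kernel)
def c11004 : PP 9 3 T 0x4000400000000005000002000000000000000000000000000000000000000000000000000200000000000000000000000000000000000010000000200000 := rS 0x1ed57bf5eb3a0d998c0977880d63b655c5553b4328e46ef37092c7a4981c07e54bcee86b3931881d8a0419a54c601689da50752b824b65d2cb1c1c3b (k8 c10906 c10995 c795 c5480 c9749 c10998 c471 c9760 (k8 c5482 c10977 c10209 c2132 c9723 c9755 c2015 c5316 (k8 c9725 c5364 c10972 c5434 c10897 c5337 c5377 c5369 (k8 c5329 c5221 c5592 c5550 c10687 c5436 c10387 c6188 (k8 c445 c5435 c5317 c5481 c10971 c5531 c5414 c5413 (k8 c9724 c5421 c9722 c9697 c134 c10171 c724 c1902 (k4 c9823 c5477 c11001 c11003 (k2 c8528 c11002 k0)))))))) (by decide +kernel)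
def c11005 : PP 9 3 T 0x20000000040000000000000000000000000000000000000000000500000040000000000000000040000000800000000000000000200000 := rS 0x1f7c6de4da0543a159a7d96b5db2762a99 (k8 c5530 c5414 c5412 c9724 c5422 c5420 c5572 c5574 (k8 c5377 c1122 c1746 c1120 c3620 c6661 c2830 c5670 k0)) (by decide +kernel)
def c11006 : PP 9 3 T 0x400000000005000002000000000000000000000000000000000000000000000000000000000000000000000000000000000000000010000000200000 := rS 0x1fdee57bf590602f9db266300acd63b63f95d571554ed0b27503b140833188258e3b7092c7b2824b8e0701f952f3ba1ac96c1c5d (k8 c9749 c10995 c10998 c5337 c5377 c5369 c5329 c5221 (k8 c5592 c5550 c5549 c10687 c10977 c5436 c10387 c6188 (k8 c10906 c795 c471 c5434 c5316 c9725 c5364 c10972 (k8 c5482 c5480 c10971 c5531 c5414 c5413 c9760 c804 (k8 c9724 c5421 c5574 c9723 c9755 c10897 c10209 c11005 (k4 c5663 c725 c11001 c11003 (k2 c11004 c8604 (k1 c5586 k0)))))))) (by decide +kernel)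
def c11007 : PP 9 3 T 0x400000000005000002000000000000000000000000000000000000000000000000000000000000000000000000000000000000000000000000200000 := rS 0x27634 (k2 c11006 c5324 (k1 c10997 k0)) (by decide +kernel)
def c11008 : PP 9 3 T 0x8000000000000000000000000000000000000000000008000000001000001000000000000000000045000000000000000000000000100000000114200000 := rS 0x1ee1f24c0048ff81c76b229d0bc406b358ad76c230210de6f5 (k8 c5477 c5325 c5478 c9725 c9734 c9724 c5422 c5421 (k8 c5574 c9722 c9697 c5377 c8199 c5337 c5504 c5508 (k4 c5586 c8309 c8604 c10629 (k2 c6743 c10826 (k1 c3581 k0))))) (by decide +kernel)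
def c11009 : PP 9 3 T 0x100000021014000000000000000005000000000000000000000001040000000114200000 := rS 0x3dc8e1ff9d65e2035aed84604 (k8 c9725 c9734 c9724 c5422 c9722 c9697 c5337 c5592 (k4 c6743 c2790 c8188 c3581 k0)) (by decide +kernel)
def c11010 : PP 9 3 T 0x4000000000000004000001000000000000000000040000000000001000051000000000000000000005000000000000000020000000000000000000200000 := rS 0xce83d1c837f7b6b227020a566af43a23428d58ed9165d (k8 c9749 c853 c9724 c5421 c2171 c5377 c5673 c2113 (k8 c1131 c5574 c8199 c9725 c9721 c5337 c10275 c9087 (k4 c2397 c2839 c10850 c5526 (k1 c6008 k0)))) (by decide +kernel)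
def c11011 : PP 9 3 T 0x24000001000000000000000000000000000000000000001000000000000000000000000000000000000020010000000000000010200000 := rS 0x4111fe70280924491d447be962714e85e2035aab4460422aae2a215486c86f37ace95e8b2ea3563b6 (k8 c9724 c5421 c2171 c9749 c853 c1131 c5210 c5477 (k8 c5325 c5478 c9662 c5531 c5528 c5414 c5413 c454 (k8 c9725 c9734 c5573 c5422 c9722 c9697 c5377 c8199 (k8 c9721 c10456 c11008 c5673 c1979 c8309 c10629 c11009 (k4 c11010 c5550 c2350 c10681 (k1 c8493 k0)))))) (by decide +kernel)
def c11012 : PP 9 3 T 0x400000000024000001080000000000000000000000000000000000000000000000000200000000000000000000000000014000000004000000200040 := rS 0xdc727b07a699a8441fb5f8873219c3ad14b8640669008ed560d1082cda0479ce98e77 (k8 c5356 c5357 c5210 c5325 c9725 c5529 c717 c5528 (k8 c315 c5413 c10906 c9723 c9744 c9722 c9701 c134 (k8 c2133 c2061 c2063 c5664 c2113 c11011 c5542 c2393 (k8 c1129 c2505 c1180 c10850 c848 c6897 c2328 c10699 k0)))) (by decide +kernel)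
def c11013 : PP 9 3 T 0x1000000000000001000001080000000000000000000000000000000000000000000000000120000000001104001400000000000000000000000100604400 := rS 0x134ce0fa1a959d1181076391bca03203 (k8 c9722 c9701 c5648 c5435 c5317 c10906 c9725 c9734 (k4 c6200 c6008 c5672 c5517 (k2 c899 c6193 (k1 c2563 k0)))) (by decide +kernel)
def c11014 : PP 9 3 T 0x1000000000000000000000000000000000000000000000080008000000000000000010000400000000000000000000000200000 := rS 0x1ef46bf9a559 (k4 c5337 c2565 c2564 c2083 (k2 c5586 c9178 k0)) (by decide +kernel)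
def c11015 : PP 9 3 T 0x400000000004000001000000000000000000000000000000000000000000000000000100000000020010010000400000000000000000000000200000 := rS 0x1ef46ab9a559 (k4 c5337 c5869 c10048 c2083 (k2 c5584 c9178 k0)) (by decide +kernel)
def c11016 : PP 9 3 T 0x1000000000000000000000000000000000000000014000080200000000000000000005400000000150000000400000000001400 := rS 0xef6bddfccc (k4 c3003 c3002 c2072 c5544 (k2 c3571 c10850 k0)) (by decide +kernel)
def c11017 : PP 9 3 T 0x1000000000000000000000000000000001000000014000080010060000005000000011440400000150000000000000000201400 := rS 0xcefb51cff57fb91ad543b3e269180c0eb2b1db0edae8b (k8 c853 c1766 c10906 c9724 c5421 c5337 c2517 c2953 (k8 c2948 c2512 c11014 c899 c11016 c948 c9178 c5584 (k4 c5586 c8783 c10275 c5526 (k1 c5672 k0)))) (by decide +kernel)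
def c11018 : PP 9 3 T 0x1000001080000000000000000000000000000000000000000000000000120000000001984001400000000000000000000000100600400 := rS 0xe43fb59efc (k4 c1231 c2563 c5542 c899 (k2 c11013 c10850 k0)) (by decide +kernel)
def c11019 : PP 9 3 T 0x400000000005000000000000000000000000000000000000000000000000000100000000000000000000000000000002010000000004000000200040 := rS 0x7e73e74b7107936df508dc732841b452685332252c6564a542ec4d0d64320334805669f65ad55bb6118ecfe572ea7557154caa41a21059b768042d8d5e6317ace8bec73b9d72599 (k8 c11007 c5234 c5440 c5356 c5357 c5439 c5210 c5477 (k8 c5476 c5325 c5324 c9663 c9725 c10971 c5529 c717 (k8 c5528 c315 c5531 c5530 c5414 c5413 c5412 c9749 (k8 c9760 c804 c10906 c9734 c9724 c5573 c5422 c5420 (k8 c5572 c5574 c9723 c9744 c9722 c9701 c5337 c5377 (k8 c10897 c1459 c1586 c11012 c10944 c5678 c8134 c5664 (k8 c5871 c1637 c1708 c2007 c5648 c5317 c5435 c11015 (k8 c11017 c11018 c6193 c3620 c5517 c5549 c5221 c5369 (k1 c6200 k0))))))))) (by decide +kernel)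
def c11020 : PP 9 3 T 0x4400000000000000000000000000000000000000000000000000000000014000800000020000000000000001400000000150001002004000000005400 := rS 0x6ac7206f643928f6d7 (k8 c4159 c4161 c1494 c898 c3571 c2196 c564 c1663 (k1 c5778 k0)) (by decide +kernel)
def c11021 : PP 9 3 T 0x400000000005000000000000000000000000000000000000000000000000000100000000000000000000000000000002010000000004000000200000 := rS 0xa5e71981ef0a69c6df41b450a6644a58ca0f4ab27c64950b1082930b200792903044320334805669f65ad55bb61d9fc7e572ea7557154caa41a21059b768042d86de6317ace8bec73b9d72599 (k8 c11007 c5234 c5440 c5356 c5357 c5439 c5210 c5477 (k8 c5476 c5325 c9662 c9663 c9725 c10971 c5529 c717 (k8 c5528 c315 c5531 c5530 c5414 c5413 c5412 c9749 (k8 c9760 c403 c804 c10906 c9724 c5573 c5422 c5420 (k8 c5572 c5574 c9723 c9744 c9722 c9701 c183 c11019 (k8 c5432 c923 c922 c714 c1564 c1735 c10972 c8159 (k8 c3030 c5463 c1064 c1461 c10975 c10944 c5678 c8134 (k8 c5664 c5871 c1708 c2007 c11017 c11020 c3620 c5536 (k4 c1066 c1232 c9848 c5517 (k1 c8146 k0)))))))))) (by decide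 +kernel)
def c11022 : PP 9 3 T 0x400000000005000000000000000000000000000000000000000000000000000000000000000000000000000000100000420000000004000000000020 := rS 0x324c81c (k4 c313 c314 c2061 c10944 k0) (by decide +kernel)
def c11023 : PP 9 3 T 0x400000000005000000000000000000000000000000000000000000000000000000000000000000000000000000000001000000000004000000200000 := rS 0xc8c93381c06690095cbbb42d8d4633a049dcb2752fe4b3204 (k8 c9725 c11007 c5234 c5439 c5440 c11022 c5356 c5438 (k8 c5210 c5476 c5324 c9663 c10971 c9749 c9760 c9723 (k4 c9744 c9722 c713 c5729 (k2 c11012 c5664 (k1 c10944 k0))))) (by decide +kernel)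
def c11024 : PP 9 3 T 0x400000000024000001080000000000000000000000000000000000000000000000000200000000000000000000000000014000000004000000200000 := rS 0x305c081b (k4 c9662 c9725 c1064 c11012 (k1 c714 k0)) (by decide +kernel)
def c11025 : PP 9 3 T 0x400000000005000000000000000000000000000000000000000000000000000000000000000000000000000000000000000000000004000000200080 := rS 0x33a87079ea24c449a02520d1082e744170180768536a0ccc656496408573a97f25993480553b4 (k8 c10971 c5531 c9723 c9744 c11007 c5234 c5439 c5440 (k8 c9760 c9725 c11022 c11024 c10944 c5664 c2007 c5529 (k8 c5871 c10906 c11023 c11021 c1714 c5210 c717 c5528 (k8 c315 c5432 c922 c1564 c10972 c1717 c1716 c10975 (k2 c3942 c5372 (k1 c5777 k0)))))) (by decide +kernel)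
def c11026 : PP 9 3 T 0x400000000005000000000000000000000000000000000000000000000000000000000000000000000000000000000000000000000004000000200000 := rS 0x120481e1e8dc729b9424d2c176201d06853319592a12091fe6e030166b22714e843203348053ecb5aed8463b1f95cba9d8a88532a9059b768042d8d4633a2f9d72599 (k8 c11007 c5234 c5440 c5439 c5210 c5476 c5324 c9663 (k8 c9725 c10971 c5529 c717 c5531 c5530 c5528 c5414 (k8 c5412 c9749 c9760 c403 c10906 c9734 c9724 c5422 (k8 c5420 c5572 c9723 c9744 c9722 c9701 c5377 c8199 (k8 c9721 c5337 c11022 c11023 c11021 c5591 c2789 c1714 (k8 c3060 c11024 c10944 c5664 c5871 c2007 c11025 c10897 (k8 c1459 c734 c1637 c5648 c11018 c5317 c5435 c5436 (k4 c3578 c3579 c6300 c10629 k0)))))))) (by decide +kernel)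
def c11027 : PP 9 3 T 0x400000000005000001000000000000000000000000000000000000000000000000000020000000000000000000000100000000000000000000800040 := rS 0x3299d92610d97ceb92 (k8 c5234 c5440 c5439 c9662 c1459 c1064 c733 c10944 (k1 c5664 k0)) (by decide +kernel)
def c11028 : PP 9 3 T 0x400000000005000000000000000000000000000000000000000000000000000000000000000000000000000000000000010000000000000000600000 := rS 0xccc832a483819019a40277c96665232 (k8 c11026 c5316 c11007 c5234 c5356 c9723 c9744 c9722 (k4 c9701 c5284 c5648 c1953 (k2 c323 c5664 (k1 c2063 k0)))) (by decide +kernel)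
def c11029 : PP 9 3 T 0x400000000000000000000000000000000000000000000000000000000014000000010000000000000000001400400000150000000200000000005400 := rS 0x19bed433dd9fe1 (k4 c5534 c2558 c398 c3571 (k2 c5499 c2073 (k1 c5688 k0))) (by decide +kernel)
def c11030 : PP 9 3 T 0x400000000005000000000000000000000000000000000000000000000000000000000000000000000000000000000000010000000000000000200040 := rS 0x18a614c8e5066654b452c950c80d3a8532b2436752f9a4020f499042d291915cef927abce745bcc82cda0d10ed0085d (k8 c9749 c9725 c10971 c5528 c315 c5529 c717 c11007 (k8 c9663 c5210 c5325 c5477 c5234 c5356 c9760 c11026 (k8 c5316 c11028 c9012 c55 c10975 c9723 c9744 c5439 (k8 c5440 c9662 c1064 c10944 c5871 c5412 c9722 c9701 (k8 c2013 c5678 c1708 c5531 c5664 c2007 c11029 c5530 (k2 c1459 c11027 (k1 c10976 k0))))))) (by decide +kernel)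
def c11031 : PP 9 3 T 0xa0000000000000000000000000000000000000000000000000000040000020000000010401008200000000000000000000000000000000 := rS 0x38dc27a672cd3ecb5aa762a99 (k8 c5530 c5414 c5412 c5422 c5420 c5572 c5574 c899 (k4 c898 c4220 c1776 c3620 k0)) (by decide +kernel)
def c11032 : PP 9 3 T 0x400000000005000000000000000000000000000000000000000000000000000000000000000000000000000000000000010000000000000000200000 := rS 0xf7471aa47f9b89c27b81e71ec87f1b7da6c4400f00c9b1ca0da2853312522963283d92a120a4c2d5934805669f65ad76c3f2b9753b154caa41a21059b768042d86c86f37ace8be773ae4b33294a8c83203 (k8 c9722 c9701 c11026 c2013 c5316 c11007 c5234 c5440 (k8 c5356 c5439 c5210 c5477 c5325 c5478 c9662 c9663 (k8 c9725 c10971 c5529 c717 c5528 c315 c5531 c5530 (k8 c5414 c5412 c9749 c9760 c403 c9724 c5422 c5420 (k8 c5572 c5574 c9723 c9744 c5337 c11028 c55 c9012 (k8 c1069 c1064 c10975 c10944 c5678 c904 c507 c5664 (k8 c5871 c1708 c2007 c11029 c1067 c11030 c923 c922 (k8 c10972 c2768 c2771 c5463 c11031 c3571 c5777 c2196 (k8 c5372 c1716 c3620 c5549 c2348 c1663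 c8188 c10379 (k1 c5504 k0)))))))))) (by decide +kernel)
def c11033 : PP 9 3 T 0x400000000005000000000000000000000000000000000000000000000000000000000000000000000000000000000000000000000000000000200000 := rS 0x220c81c2c4a46404 (k8 c9725 c11026 c5316 c11032 c313 c314 c530 c8704 k0) (by decide +kernel)
def c11034 : PP 9 3 T 0x800000000004000000080000000000000000000000000000000000000000000000000000000000000000000000000020404000000000000000200100 := rS 0x1ef44a8462959d2bcb7a13880432034fb2d62addb22cbac9699640875 (k8 c5440 c9725 c9442 c5496 c5494 c9749 c853 c9724 (k8 c5573 c5421 c5420 c5572 c9722 c9701 c9723 c9720 (k8 c5377 c1893 c1131 c9670 c1955 c5476 c9174 c9175 (k2 c8847 c8120 k0)))) (by decide +kernel)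
def c11035 : PP 9 3 T 0x800000000000000000080000000000000000000000000000000000000000000800000000000000000000001000000000000000002000000000004020 := rS 0xced2da23662b3ceecd (k8 c5495 c5493 c5453 c5451 c1493 c4163 c5518 c8127 (k1 c6008 k0)) (by decide +kernel)
def c11036 : PP 9 3 T 0x800000000024000000080000000000000000000000000100000000000014000040000000000080011500000200000010040000002000000000204000 := rS 0x10cf741d2a25e1f9b81c68505836026d10c56b2b34fb2d6a5d2c81112addb1a403e3 (k8 c5463 c9723 c9744 c9724 c5573 c8134 c9725 c9442 (k8 c9749 c5422 c5420 c5572 c5574 c5337 c5414 c5528 (k8 c5529 c3070 c315 c717 c5871 c11035 c3620 c5591 (k4 c5460 c1717 c5168 c2605 (k2 c5333 c3571 (k1 c959 k0)))))) (by decide +kernel)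
def c11037 : PP 9 3 T 0x100000000000000000000000000000000000000000000000000004000000000000000208080 := rS 0x1b4498048211 (k4 c183 c1735 c9723 c1564 (k2 c9737 c10975 k0)) (by decide +kernel)
def c11038 : PP 9 3 T 0x5000000000000000000000000000008000100000000000000000000000000000000002000000000000000000000000000000010200000 := rS 0x453e4aa89a19068f80bdd0b9d0682cd8fd0f9e937e1dae8567b6118ecca5f79bd522605735c78950b0c52ec969b54ba5b078198a093b964eb92020cfbc57 (k8 c9760 c11033 c5492 c9725 c10195 c5440 c9442 c5493 (k8 c9669 c5451 c10693 c11037 c5474 c9749 c5454 c5496 (k8 c5494 c5452 c5476 c714 c1461 c923 c1491 c10794 (k8 c713 c3919 c5477 c5325 c9668 c11034 c10906 c9734 (k8 c9724 c5574 c5377 c5412 c5458 c168 c1696 c1083 (k8 c1239 c1697 c10709 c10916 c5372 c847 c8123 c3071 (k8 c2432 c2431 c3571 c959 c745 c5675 c1286 c5590 k0))))))) (by decide +kernel)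
def c11039 : PP 9 3 T 0x4000000080000000000000000000000000000000000000000000000005010000000000210000000400110000000000000000000800000 := rS 0x67cca13394b7eb446db5 (k8 c5530 c1463 c4144 c2555 c5518 c5211 c8127 c5365 (k2 c736 c5664 k0)) (by decide +kernel)
def c11040 : PP 9 3 T 0x15000000000000000000000000000008000100000000000000000000000000000000011000000000000000000000000000000000200000 := rS 0x553f732a98a211ece343e701a37a5b7c72e168f8137a159a7d96b5118ed165d1aa5d928956ed9e65b7a8f01e994a8c42c062c9d466652f82724042bb34eecf62f78d201 (k8 c9723 c9744 c11033 c5451 c5453 c5493 c5495 c9760 (k8 c9725 c10195 c9669 c9668 c11034 c5492 c5440 c9442 (k8 c10693 c714 c5476 c1461 c11039 c11037 c923 c5477 (k8 c5474 c5325 c9724 c5573 c8134 c5494 c5452 c5450 (k8 c9749 c853 c10906 c9734 c5422 c5420 c5572 c5574 (k8 c5377 c10952 c5679 c5459 c5460 c5534 c5538 c6344 (k8 c10954 c9673 c5211 c8435 c1493 c3587 c8127 c3620 (k4 c2021 c5365 c8141 c8772 (k1 c8138 k0))))))))) (by decide +kernel)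
def c11041 : PP 9 3 T 0x20080000000000000000000000000100000000000014000000005010000000000000001000400000150000000405000000005400 := rS 0x734b1bbdbc2d041a1cf675 (k8 c5440 c5372 c5373 c5525 c8127 c8115 c3571 c1481 (k2 c5333 c397 (k1 c5654 k0))) (by decide +kernel)
def c11042 : PP 9 3 T 0x5000000000000000000000000000008000100000000000000000000000000000000011000000000000000000000000000000000200000 := rS 0xde23a6e959d4282c1a6d10ed032031dbcdea8049ab9ae3c4bb25a6d52e96c1e994a8c42c062c9d466652f82724042bb34eecf62f78d201 (k8 c9723 c9744 c11033 c5451 c5453 c5493 c5495 c9760 (k8 c9725 c10195 c9669 c9668 c11034 c5492 c5440 c9442 (k8 c10693 c714 c5476 c1461 c11039 c11037 c5474 c9749 (k8 c5454 c5496 c5494 c5452 c923 c1491 c10794 c1564 (k8 c922 c5477 c5325 c10906 c9722 c9701 c11040 c5528 (k8 c5529 c315 c717 c5871 c11041 c6008 c9848 c5520 (k2 c11036 c2770 k0))))))) (by decide +kernel)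
def c11043 : PP 9 3 T 0x5000000000000000000000000000008000100000000000000000000000000000000010000000000000000000000000000000000200000 := rS 0x55a19ee8342834394a059b1fa7a4df876a9c079800cf52dbccbac54b8ccee593a994be09c9013bc57 (k8 c9760 c11033 c9725 c10195 c9669 c9668 c11034 c5440 (k8 c9442 c5493 c5492 c5452 c5451 c9749 c5325 c5474 (k8 c5477 c10693 c713 c11037 c11042 c5412 c5458 c168 (k8 c1696 c1239 c1697 c10709 c9066 c11038 c10916 c847 (k4 c2431 c5333 c3571 c2121 (k1 c745 k0)))))) (by decide +kernel)
def c11044 : PP 9 3 T 0x4000000000000000000000000000004000000000000000041000000000000000000000000008000002000040000000000000000000000 := rS 0xe86d5466 (k4 c744 c745 c1902 c2121 (k1 c5649 k0)) (by decide +kernel)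
def c11045 : PP 9 3 T 0x4000000000000000000000000000000000000100000000000000000140100000040010040000000100000054000000000000010200180 := rS 0xc52ad70b0f0081901a7d96b156ed87e5d (k8 c9749 c403 c9724 c5573 c5421 c5420 c5572 c9722 (k8 c9701 c9725 c923 c714 c1492 c1462 c8160 c10794 k0)) (by decide +kernel)
def c11046 : PP 9 3 T 0x800000000000000000000000000000000000000000000000000000000000000000000000000040010000000000000000000000006002000008200000 := rS 0x956ba4c32034fb2d5a976ac7563b6 (k8 c9724 c5421 c2161 c5454 c5452 c5573 c5420 c5572 (k4 c9722 c9701 c1569 c1492 (k2 c1905 c8160 k0))) (by decide +kernel)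
def c11047 : PP 9 3 T 0x800000000001000000000000000000000000000000000100000000000000000000000000000000000010000000000050000000000002000000200040 := rS 0x174998032033498c02c54b9dd925f3ae480857 (k8 c9760 c9725 c10195 c5440 c9668 c5494 c5493 c5452 (k8 c5451 c9723 c9755 c9744 c9722 c9701 c3597 c1565 (k2 c1459 c5648 k0))) (by decide +kernel)
def c11048 : PP 9 3 T 0x1000000000000000000000000000000000000000000004000000101000041004000400800000000045000000000000000000000000100000000000200000 := rS 0x427f407df5959ac55bb6 (k8 c9724 c5573 c5421 c5574 c5337 c5507 c2146 c9179 (k2 c5658 c2781 k0)) (by decide +kernel)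
def c11049 : PP 9 3 T 0x5000000000000000000000000080000000100000000000004000000000000000000010000000000000000040000000000000010201000 := rS 0x118812178bde416bb8cf439492507a30038862bb433bf55f1d0d565623b1fa2c8ac51aa5daa333bb25a6c73e9d512addb1a46e91f6c0d52ab36a181e852c97416837bbc4071100994be09c9013bc57cebd7313b (k8 c11043 c5210 c5519 c8145 c9760 c11033 c9725 c10195 (k8 c9669 c9668 c11034 c9723 c9730 c9722 c9697 c5333 (k8 c5483 c5516 c9749 c9442 c5365 c5329 c3571 c11044 (k8 c9859 c2023 c10690 c10910 c904 c5518 c9744 c9724 (k8 c5573 c8134 c5440 c5442 c5357 c5496 c5494 c5493 (k8 c5492 c5454 c5452 c5450 c5451 c454 c853 c403 (k8 c10906 c5421 c5337 c5649 c2161 c1078 c1076 c1902 (k8 c5682 c5414 c5528 c11045 c10897 c11046 c11047 c1905 (k8 c324 c10699 c1776 c11048 c1738 c10230 c5655 c5658 (k2 c5463 c5287 (k1 c1929 k0))))))))))) (by decide +kernel)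
def c11050 : PP 9 3 T 0x110000000000000000000000000000000000400000000000000000000000000000001000000000000000008000000000000001000 := rS 0x11ff3 (k2 c5546 c2399 (k1 c5675 k0)) (by decide +kernel)
def c11051 : PP 9 3 T 0x8000000000000000000110000000000000000000080000000000000000000004000000000000000000000001018000000000000000140000000000001000 := rS 0x47fce004b89a35ea47 (k8 c5520 c5519 c5505 c958 c11050 c9072 c5592 c2848 (k1 c5675 k0)) (by decide +kernel)
def c11052 : PP 9 3 T 0x80000000000001000000000000500000000000000011000000000000000000000000000000000200080 := rS 0x1329b6f858780459a7d96b5db07c6e47 (k8 c5520 c5518 c5517 c9724 c5422 c5420 c5572 c5574 (k4 c9725 c923 c714 c2770 (k2 c1066 c1463 (k1 c3620 k0)))) (by decide +kernel)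
def c11053 : PP 9 3 T 0x80000000000000000080000000000201000000000000000000010000000011000800000000000154000000014000020200000 := rS 0x6fa65363c0b0c00ee370acd3ecb5aed8fa793a87c6e47 (k8 c5520 c5518 c5517 c5440 c5441 c5442 c9724 c5422 (k8 c5420 c5572 c5574 c2846 c2403 c11052 c10897 c1997 (k4 c2164 c1066 c1463 c2770 (k1 c3620 k0)))) (by decide +kernel)
def c11054 : PP 9 3 T 0x80000000000000000080000000000201000000000000500000010000000011000000000000000154000000014000020200000 := rS 0x6fa65363c0b0c00eb34fb2d6bb63a87c6e47 (k8 c5520 c5518 c5517 c5440 c9724 c5422 c5420 c5572 (k8 c5574 c11052 c10897 c1997 c2164 c1066 c1463 c2770 (k1 c3620 k0))) (by decide +kernel)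
def c11055 : PP 9 3 T 0x5000000000000000000000000080000000100000000000004000000000000000000010000000000000000040000000000000000201000 := rS 0x381c7f247c5627018e7bc861c4eaacdaa9437b743597880e22452eb146a971996512652f8272404ef15d5bb6348050a837b82d220fcebd7313b (k8 c11043 c5210 c5519 c8145 c5329 c904 c5516 c5333 (k8 c5483 c5365 c9723 c9744 c9724 c5573 c9760 c11033 (k8 c9725 c10195 c9669 c9668 c11034 c8134 c9442 c5492 (k8 c5452 c5450 c5451 c9749 c454 c9730 c9722 c9697 (k8 c5337 c5377 c10910 c3571 c2023 c11044 c9859 c10719 (k8 c11049 c2000 c11051 c5658 c2139 c959 c9222 c11053 (k4 c5675 c5549 c11054 c5591 k0))))))) (by decide +kernel)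
def c11056 : PP 9 3 T 0x5000000000000000000000000080000000100000000000004000000000000000000010000000000000000040000000000000000200000 := rS 0x13493f086c60d143ab80fec7fc0e02e370bf76aa94eaae2a4a47080d46d066742213ac864071159ac48a5d628d59e333b9658e7d3c9d512652f8272404ef15d5bb6348050a83cc4ec3ef5 (k8 c5519 c5517 c11043 c5210 c5483 c5365 c9723 c9744 (k8 c9724 c5573 c9760 c11033 c9725 c10195 c9669 c9668 (k8 c11034 c8134 c5440 c5441 c5442 c5357 c9442 c5493 (k8 c5492 c5453 c5450 c5451 c9749 c454 c5421 c5574 (k8 c9730 c9722 c9701 c5337 c184 c183 c8145 c11055 (k8 c2427 c316 c315 c532 c531 c10439 c9859 c1135 (k8 c2375 c5528 c2550 c2846 c2403 c2848 c2405 c2568 (k8 c5682 c11052 c8604 c5499 c5501 c10897 c1078 c10196 (k2 c1566 c10916 (k1 c6036 k0)))))))))) (by decide +kernel)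
def c11057 : PP 9 3 T 0x4000000000000000000000000000004000000001000000000000500000000000000011400000000000000000008000042000004200000 := rS 0x132df0b10438437880d669f65ad55bb6 (k8 c9724 c5573 c5422 c5420 c5572 c5574 c9722 c9697 (k4 c10701 c5649 c1739 c1997 (k2 c2511 c1463 (k1 c3620 k0)))) (by decide +kernel)
def c11058 : PP 9 3 T 0x4000000000000000000000000080004000000000000010008000500000000000004011400000000000000000008000002000000200000 := rS 0x1fefd57c7434b358ed83e3781914bb15f6aa5e203 (k8 c9722 c9697 c2447 c5540 c9222 c9749 c454 c2628 (k8 c5518 c5517 c9724 c5421 c5574 c11057 c2161 c1078 (k2 c1075 c2569 (k1 c8604 k0)))) (by decide +kernel)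
def c11059 : PP 9 3 T 0x100000004000000100000008000000000000000000000000000000000000000000000500000000000000000 := rS 0x87ef (k2 c5586 c2780 (k1 c5658 k0)) (by decide +kernel)
def c11060 : PP 9 3 T 0x4000000000000000000000000000004000000000000015008000000000000000004000000000000000000000000000000000000200000 := rS 0x34ae0eacd63b681914bb15f6aa5e203 (k8 c9722 c9697 c2447 c5540 c9222 c9749 c454 c2628 (k4 c9724 c5421 c5574 c334 (k2 c8604 c5649 (k1 c1078 k0)))) (by decide +kernel)
def c11061 : PP 9 3 T 0x4000000000000000000000000080004000100000000010008000500004000000004011400000000000000000000004002000000200000 := rS 0xf7c6416f10d321b7e3fe3a4bacacd3ecb5aab76c452e87c8f15f6aa5e203 (k8 c9722 c9697 c2447 c5540 c9222 c5520 c5517 c9749 (k8 c454 c9724 c5573 c5422 c5420 c5572 c5574 c5337 (k8 c11058 c554 c11059 c11060 c1075 c2554 c10701 c3620 (k4 c1739 c5580 c2770 c5655 k0)))) (by decide +kernel)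
def c11062 : PP 9 3 T 0x4000000000000000000000000080004000100000000010008000500004010000004011000000000000000054000000014000000200000 := rS 0x1fefd57c74343d492686007ac865669f58ed87e75c90103e4781914bb15f6aa5e203 (k8 c9722 c9697 c2447 c5540 c9222 c9749 c454 c2628 (k8 c5520 c5517 c9725 c10195 c5440 c403 c9724 c5421 (k8 c5572 c5574 c9701 c5337 c11052 c10897 c11061 c6036 (k4 c1569 c1566 c2164 c1078 (k2 c1075 c11059 (k1 c8604 k0)))))) (by decide +kernel)
def c11063 : PP 9 3 T 0x4000000000000000000000000000004000000000000010008000200140010000004000000010050500000000000000000000040200000 := rS 0xdae74d6203d44838800d9b51afcf735dfff37880e22015aed90b98f6c0c8a5d (k8 c9749 c454 c2628 c5540 c5210 c5365 c9724 c5422 (k8 c9723 c9730 c9722 c9697 c5591 c3012 c1721 c5694 (k8 c11060 c5505 c2552 c1075 c5861 c5649 c1717 c1716 (k4 c333 c2600 c5372 c5528 (k1 c5665 k0))))) (by decide +kernel)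
def c11064 : PP 9 3 T 0x80000000000000000080000000000000000000000000800000000000000000000000000000000004000000000000000200000 := rS 0x1a073da3c723d1d8fd8e79058dd220f (k8 c5329 c904 c5518 c5516 c5441 c5357 c403 c10906 (k4 c1493 c2618 c2403 c1776 (k2 c923 c532 (k1 c10699 k0)))) (by decide +kernel)
def c11065 : PP 9 3 T 0x4000000000000000000000000080004000100000000010008000000144010000004010040010000400000054000000014000000200000 := rS 0xe14e9fcfa750fb8f2404f6aa5e203 (k8 c9722 c9697 c2447 c5540 c9725 c10195 c11064 c5517 (k4 c5440 c5442 c804 c10719 (k2 c11063 c11062 k0))) (by decide +kernel)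
def c11066 : PP 9 3 T 0x5000000000000000000000000080000000100000000000000000000000000000008010000000000000000040000000000000000200000 := rS 0xf6394c24928300399d5f1d0d0343a9b35bc4071100ac76c3b229758a354bb5466c9699658e753297c139202778af3b07bdc1637 (k8 c5518 c5516 c5333 c5329 c11043 c9760 c11033 c9725 (k8 c10195 c9669 c9668 c11034 c5440 c5357 c9442 c5496 (k8 c5494 c5492 c5454 c5452 c5450 c5451 c9749 c454 (k8 c10906 c9724 c5421 c9723 c9730 c9722 c9697 c1137 (k8 c1189 c2121 c316 c5649 c2161 c1078 c1902 c11045 (k4 c10897 c11047 c1905 c2126 (k2 c325 c1594 (k1 c10699 k0)))))))) (by decide +kernel)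
def c11067 : PP 9 3 T 0x1000000000000084000000000000000000000000000000000000000000000000000000540100000005010040000000000000000000100200000048000000 := rS 0x4292da251faaf4fb2d62ad (k8 c5573 c5421 c5420 c5572 c1078 c1075 c3618 c5682 (k2 c1905 c5528 (k1 c324 k0))) (by decide +kernel)
def c11068 : PP 9 3 T 0x5000000000000000000000000080000000100000000000000000000000000000000010000000004000000040000000000000000200040 := rS 0x6d53620498703699f08e060191d914bac9639d43e0f058dd3bed54bc406d7718351f0055bca7659699dc66d567a5c6ac544994be09c9013bc5756ed8d201 (k8 c9723 c9744 c9724 c5573 c9760 c11033 c9725 c10195 (k8 c9669 c9668 c11034 c8134 c5451 c5450 c5452 c5453 (k8 c5454 c5492 c5493 c5496 c9442 c11043 c11056 c11066 (k8 c11065 c2848 c532 c11064 c2146 c9722 c9697 c2447 (k8 c5540 c10719 c5518 c5516 c5329 c5517 c5440 c5357 (k8 c5494 c9749 c454 c10906 c9701 c10897 c10699 c5534 (k8 c2437 c11067 c5649 c1566 c333 c6036 c5528 c5679 k0))))))) (by decide +kernel)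
def c11069 : PP 9 3 T 0x5000000000000000000000000080000000100000000000000000000000000000000010000000004000000040000000000000000200000 := rS 0x6d73b1468b87c680034459ac73aa1507984883d3bed54bc407f36bb8dbf0055bca76893297c139256ed8d2012c810ee336ab3d2e356295da7de (k8 c11033 c5496 c9760 c5451 c5450 c5452 c5453 c5454 (k8 c5492 c5493 c9725 c9442 c9723 c9744 c9724 c5573 (k8 c10195 c9669 c9668 c11034 c8134 c11043 c11056 c11066 (k8 c11065 c2952 c11064 c2146 c5592 c9722 c9697 c2447 (k8 c5540 c10719 c5329 c904 c5210 c5483 c5365 c5440 (k8 c5357 c5495 c9730 c11068 c922 c5463 c1716 c8355 (k4 c11052 c8127 c5414 c10412 k0))))))) (by decide +kernel)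
def c11070 : PP 9 3 T 0x5000000000000000000000000080000000100000000000000000000000000000000010000000000000000040000000000000000200000 := rS 0x60e8f0424157ed1c06bf1c49006dce9e91f1df9c013aab54fb5e5a1acbc407115a8ec7ec51aa5d9ed5199dd92d32c9d512652f8272404ef15d5bb6348050b989dbdd220f (k8 c5329 c904 c5333 c11043 c5210 c5365 c9723 c9744 (k8 c9724 c5573 c9760 c11033 c9725 c10195 c9669 c9668 (k8 c11034 c8134 c5440 c9442 c5496 c5494 c5493 c5492 (k8 c5454 c5453 c5452 c5450 c5451 c403 c10906 c5422 (k8 c9730 c9722 c9697 c5337 c5377 c11056 c5540 c2447 (k8 c11066 c10719 c11065 c5592 c2139 c2848 c11069 c5372 (k8 c743 c6202 c5675 c5463 c2600 c957 c5665 c9308 (k4 c1714 c5528 c5655 c333 (k2 c1487 c11045 k0))))))))) (by decide +kernel)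
def c11071 : PP 9 3 T 0x800000000000000000000000000000000000000000000000000000000000000000000000000000010000000000000000080000000000000000200080 := rS 0x255ae161e27d96b156ed92ed564b4c3b1d578443404d0bc40601 (k8 c9723 c9722 c9697 c5377 c9725 c716 c183 c10406 (k8 c2160 c1995 c5496 c5494 c5454 c5452 c9724 c5573 (k8 c5421 c5420 c5572 c923 c714 c1492 c1462 c3618 k0))) (by decide +kernel)
def c11072 : PP 9 3 T 0x800000000080000000000000000000000000000000000000100000000000000000000000000040010000000000000000000000002000000008000000 := rS 0x255ae934fb2d62ad4bb5592d3 (k8 c5496 c5494 c5454 c5452 c5573 c5421 c5420 c5572 (k4 c1569 c1492 c1905 c3618 k0)) (by decide +kernel)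
def c11073 : PP 9 3 T 0x45000000000000000000045000001200108000000000000000000000000200000 := rS 0x23fe71480c4f431100acd63b6 (k8 c9724 c5421 c5574 c9723 c9730 c5377 c956 c2142 (k4 c8604 c5590 c2845 c6202 k0)) (by decide +kernel)
def c11074 : PP 9 3 T 0x1000000000000000000000000000000000100000000045000000000040000000045000000200008000080000000081000000008204040 := rS 0x4985c81e340676b21901b2f6c3f0497d8e79c9010ae91 (k8 c904 c9760 c9725 c10195 c5441 c5357 c9668 c9669 (k8 c403 c9724 c5420 c9722 c9701 c5337 c5372 c11073 (k4 c5463 c5655 c1736 c10698 (k1 c5648 k0)))) (by decide +kernel)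
def c11075 : PP 9 3 T 0x4000000000000000000000000000000000000000000000100000000045000000400040000000045010000000000000000000000005200000000200000 := rS 0x45602de70902b2b358ed877e1 (k8 c5534 c10906 c9724 c5421 c5574 c5337 c5655 c1714 (k4 c547 c9158 c2950 c8604 k0)) (by decide +kernel)
def c11076 : PP 9 3 T 0x5000000000000000000000000080000000100000000000000000000000000000004010000000000000000000000000000000000200000 := rS 0x1a287f635fc4383d8ec7e452ea5d9ed53bb259ad3639e4ea850782c6ee34640dfe422383552f57e87ccc83cc4ed12652f8272457569a40e3d57e85e20300c74221a2d013bdb6 (k8 c9724 c11033 c9725 c11070 c716 c183 c2160 c9723 (k8 c9722 c9697 c5377 c10406 c11072 c11071 c9744 c5573 (k8 c9760 c10195 c9669 c9668 c11034 c8134 c11043 c5210 (k8 c5483 c715 c5517 c1075 c5519 c1906 c10704 c5520 (k8 c925 c2780 c1935 c924 c11064 c5518 c5516 c5329 (k8 c5365 c5440 c5441 c5357 c5496 c5495 c5494 c5493 (k8 c5454 c5453 c5452 c9749 c454 c403 c10906 c11074 (k4 c10699 c11075 c5465 c11067 (k2 c5499 c5501 (k1 c10201 k0)))))))))) (by decide +kernel)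
def c11077 : PP 9 3 T 0x800000000001000000000000000000000000000000000100000000000000000000000000000048010000000000000000000000080200000000200000 := rS 0x416b0592a934c864069f65ac55bb64bb5536c9 (k8 c5494 c1189 c5454 c5452 c9724 c5573 c5421 c5420 (k8 c5572 c9722 c9701 c2437 c325 c2126 c5648 c8161 (k2 c9012 c1934 k0))) (by decide +kernel)
def c11078 : PP 9 3 T 0x5000000000000000000000000080000000100000000000000000000000000000000010000000000000000000000000000000000200000 := rS 0xba4cc09c3d0e4d8aa03835faa95790834662d3d46e0b0787c23a178864063b63a24ca5f04e4809de2bab76c6900a0f313b (k8 c11043 c5210 c5483 c9723 c9744 c9724 c5573 c9760 (k8 c11033 c9725 c10195 c9669 c9668 c11034 c8134 c5357 (k8 c10906 c9722 c9701 c9697 c5377 c183 c5517 c5329 (k8 c5516 c5518 c5519 c11070 c715 c716 c925 c10406 (k8 c1906 c1075 c10704 c11071 c11076 c2124 c11077 c5710 (k4 c743 c742 c1694 c1459 (k1 c5648 k0))))))) (by decide +kernel)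
def c11079 : PP 9 3 T 0x4000000000000000000000000040004000000000000000000000000000000000008000000000000000000000000000000000000000000 := rS 0x3dbb5 (k2 c5413 c5500 (k1 c5228 k0)) (by decide +kernel)
def c11080 : PP 9 3 T 0x40000000100000000000000000000000000000000000000000008000000004000000000000000200040 := rS 0xe01c37f0e74083b (k8 c10906 c9725 c5372 c5457 c1477 c6008 c5654 c393 k0) (by decide +kernel)
def c11081 : PP 9 3 T 0x1000000000000000000000000000000000000000040004000000001000000000000000000000000044000000000000000000100000000000000008208000 := rS 0x1fcf47ec05e64b59ac76c457baa60759 (k8 c5337 c10772 c10768 c2103 c454 c9724 c5421 c5574 (k4 c10387 c445 c10769 c1076 (k2 c5657 c8604 (k1 c2342 k0)))) (by decide +kernel)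
def c11082 : PP 9 3 T 0x800000000001000000000000000000000000000000000100000000000000000000000000000040010004000000000000000000000000000008200000 := rS 0x789ac414a85ab21901a7d96ad1f95d2ed51ec7563b6 (k8 c9724 c5421 c2161 c11072 c5454 c5452 c9760 c403 (k8 c5573 c5420 c5572 c9722 c9701 c5337 c5648 c1905 (k4 c9012 c8161 c5655 c5465 k0))) (by decide +kernel)
def c11083 : PP 9 3 T 0x5000000000000000000000000000000000100000000000000000000000000000040010000000000000000000000000000000008200000 := rS 0x229b4077b73a8668f81247b038f63ab1db0ecbac5679dd9bde639e4eb920215d0a83cc2ae973b (k8 c11043 c11078 c11079 c5210 c5483 c5365 c9760 c9725 (k8 c10195 c5440 c5441 c5357 c11033 c5495 c5493 c5453 (k8 c5451 c9749 c10906 c9724 c5421 c2161 c11072 c923 (k8 c11080 c11082 c9007 c5459 c10196 c8115 c5499 c6008 (k2 c5211 c11081 (k1 c5414 k0)))))) (by decide +kernel)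
def c11084 : PP 9 3 T 0x4000100000000000000000000000010000000000000010000000000154000041014000000200000 := rS 0x1afe2f71063a3003d647e8b229d72404 (k8 c9725 c10195 c5440 c454 c853 c403 c5337 c923 (k4 c10897 c2164 c1739 c5658 (k2 c5655 c5507 (k1 c8136 k0)))) (by decide +kernel)
def c11085 : PP 9 3 T 0x8000800000000000000000000000000000000000000000000000000000000000000000000000000000000000010110000000000000050000000000200000 := rS 0x8d08b2d5bb6 (k4 c9724 c5573 c5420 c183 (k2 c5505 c10618 k0)) (by decide +kernel)
def c11086 : PP 9 3 T 0x2000000000000000002080000000000000000040004000000200000000000000000005010000000000000000004400000100000000002000000000020 := rS 0xf2073d7daf7cea19a2c73c9d50a83 (k8 c5483 c5365 c5440 c5441 c5357 c5459 c10196 c8115 (k4 c2105 c5499 c4520 c6008 (k2 c5657 c445 k0))) (by decide +kernel)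
def c11087 : PP 9 3 T 0x5000000000000000000000000000000000100000000000000000000000000000040010000000000000000000000000000000000200040 := rS 0x396f23ded9c7abcfdae181b8e260f549b44315f96d3c3e36b473de81181ef427139d64c6b358ad4fe45679dd9a7d3c9d7314b0e105263c21bc4065b0dced12652f82724ad34804b204198d58bde2e95d3fb6 (k8 c9724 c5572 c9760 c9749 c11033 c5451 c5450 c5492 (k8 c9725 c9442 c9723 c9744 c5573 c10195 c9669 c9668 (k8 c11034 c8134 c11043 c11083 c716 c9722 c9697 c10701 (k8 c11084 c1569 c187 c5649 c11078 c5210 c5440 c5441 (k8 c5442 c5495 c5493 c5453 c454 c804 c5422 c5421 (k8 c5574 c9755 c5337 c9717 c9720 c5377 c11080 c10897 (k8 c1487 c11085 c5658 c2163 c5465 c11086 c5225 c5168 (k8 c5414 c5528 c5529 c5531 c10975 c5547 c5549 c5550 (k8 c5591 c10405 c333 c1998 c6008 c5657 c5526 c5864 (k2 c397 c2771 k0)))))))))) (by decide +kernel)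
def c11088 : PP 9 3 T 0x5000000000000000000000000000000000100000000000000000000000000000040010000000000000000000000000000000000200000 := rS 0x37d36367b0c1e60b10c562701da2a5ea99f6b87c2d0069edc79cf183d00061e070865b0dbc4320359a7d96b51d8fcbac51ab3c667766b4cb2c73aa24ca5f04e4809de2bab76c6900a1507984eaae973b (k8 c11043 c11078 c11079 c9066 c5210 c5483 c5365 c9723 (k8 c9744 c9724 c5573 c9760 c11033 c9725 c10195 c9669 (k8 c9668 c11034 c8134 c5440 c5357 c9442 c5496 c5495 (k8 c5493 c5492 c5453 c5450 c5451 c9749 c403 c10906 (k8 c5422 c5420 c5572 c5574 c9722 c9701 c9697 c11083 (k8 c716 c10701 c5649 c11084 c11087 c922 c11037 c5463 (k8 c6008 c11035 c5372 c5522 c8127 c8115 c1716 c5501 (k8 c1596 c1926 c2025 c5225 c9158 c8617 c9222 c5528 (k8 c926 c333 c11041 c5657 c2106 c2328 c2332 c3620 k0))))))))) (by decide +kernel)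
def c11089 : PP 9 3 T 0x5000000000000000000000000000000000100000000000000000000000000000000010000000000000000000000000000000000200080 := rS 0x6fa6c6cf6183cc16218ac4e03b454bd533ed70f85a00d3db8f39e307a0032b34fb2d6a3b1fb3ceecd69b1cea8541e613aaba58f0b64344994be09c92b76c690096408331ab17bc570e06d5c452ecede203 (k8 c9722 c9697 c11043 c9749 c454 c11088 c1078 c5649 (k8 c9760 c11033 c5451 c5450 c5492 c9725 c9442 c9723 (k8 c9744 c9724 c5573 c10195 c9669 c9668 c11034 c8134 (k8 c2777 c925 c11084 c11078 c11079 c9066 c5210 c5483 (k8 c5365 c5440 c5357 c5496 c5495 c5493 c5453 c403 (k8 c10906 c5422 c5420 c5572 c5574 c9701 c922 c11037 (k8 c5463 c6008 c11035 c5372 c5522 c8127 c8115 c1716 (k8 c5501 c1596 c1926 c2025 c5225 c9158 c8617 c9222 (k8 c5528 c926 c333 c11041 c5657 c2106 c2328 c2332 (k1 c3620 k0)))))))))) (by decide +kernel)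
def c11090 : PP 9 3 T 0x5000000000000000000000000000000000100000000000000000000000000000000010000000000000000000000000000000000200000 := rS 0xe5bc8f7b21f38f505bcc1ae171c4c1ea936887e5b4f1f85ac81181ec0e9320870785b8e06c87ef5752d0685cc4eeb2f10198d3e7f229758a35678cceecd2c9f4f27544994be09c9013bc5756ed8d201 (k8 c9723 c9744 c9724 c5573 c9760 c11033 c9725 c10195 (k8 c9669 c9668 c11034 c8134 c5440 c5441 c5442 c9442 (k8 c5495 c5493 c5492 c5453 c5450 c5451 c9749 c454 (k8 c804 c5572 c9755 c9722 c9697 c5337 c11043 c5210 (k8 c5365 c5483 c11078 c11088 c5584 c2777 c1078 c5658 (k8 c925 c11084 c5649 c187 c1569 c11089 c11080 c10897 (k8 c1487 c2163 c11086 c5465 c5225 c5168 c5528 c5529 (k8 c5531 c10975 c5547 c5549 c5591 c315 c333 c717 (k8 c1998 c6008 c8435 c3571 c5526 c5864 c397 c2771 k0))))))))) (by decide +kernel)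
def c11091 : PP 9 3 T 0x4000800000000001000002000000000000000000040000000100000000000000000000000000000000000008000000000000040000080000000000200040 := rS 0xe7afb73a86689efc03b67b358e799db1412772c9d724042b8cd0a83 (k8 c5483 c5365 c5492 c9760 c9725 c10195 c5440 c9442 (k8 c5493 c9669 c5451 c10693 c5441 c5357 c5495 c5453 (k8 c10906 c9007 c11080 c5459 c10196 c8115 c5499 c1921 (k2 c6008 c10440 k0)))) (by decide +kernel)
def c11092 : PP 9 3 T 0x84000002000000000000000000000000000000000000055000000000015040000041000020000005500000000000000000000000000000 := rS 0x453daab432cd6285 (k8 c5365 c5421 c5574 c10201 c2125 c5499 c8604 c9222 k0) (by decide +kernel)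
def c11093 : PP 9 3 T 0x4000000000000004000002000000000000000000000000000000000000055000000000005040000041000020000005500000004000020040000000204540 := rS 0x1c83497f2f6b436c3b (k8 c10906 c9724 c11092 c5501 c5694 c5546 c531 c546 (k1 c3568 k0)) (by decide +kernel)
def c11094 : PP 9 3 T 0x5000000000000000000000000000000000100000000000000000000000000000000000000000000000000040000000000000000200000 := rS 0x1b48a1ad566d4ce74f5017fc0d52917eb8c8ef51b82c1e1fa57bcceaf6b250351d210c1e31159ac48a5d1ab3d9ac73ca24ca5f56ed8d2012078eb29d490fc77989d81c7aa00c80d8a093b964eb920215c67de (k8 c11033 c5492 c9760 c9725 c10195 c5440 c9442 c5493 (k8 c9669 c5451 c9722 c9701 c11090 c2767 c923 c10693 (k8 c5210 c10906 c403 c8159 c1694 c5337 c5578 c5655 (k8 c9723 c9744 c9724 c5573 c9668 c11034 c8134 c5441 (k8 c5357 c5495 c5453 c5450 c9749 c454 c5421 c5574 (k8 c9730 c9697 c9174 c11084 c2164 c1566 c1565 c1738 (k8 c2777 c1902 c5507 c11091 c5517 c5329 c5516 c5518 (k8 c5519 c5520 c11064 c1075 c904 c1906 c1935 c11059 (k8 c2146 c11093 c5372 c1594 c743 c2126 c8602 c8604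 (k2 c5665 c5414 k0)))))))))) (by decide +kernel)
def c11095 : PP 9 3 T 0x5000000000000000000000000000000000100000000000000000000000000000000000000000000000000000000000000000000200000 := rS 0x1fefd2387e2b4a54c0fdb0155f85a0873de73de0f57c74841a33230b48342e627607202487be3501d4f2c72f8272411d0d6402f10c80d66b156ed8763f2b914bac5678cceecd69967bc04 (k8 c9725 c11033 c9442 c5496 c5495 c5493 c5492 c5453 (k8 c5451 c9749 c454 c9760 c403 c10906 c9724 c5573 (k8 c5421 c5574 c9722 c9701 c9697 c9723 c5337 c5377 (k8 c183 c10195 c9669 c9668 c5357 c5441 c5440 c11090 (k8 c5578 c2767 c8159 c5655 c923 c10693 c5210 c5365 (k8 c5483 c11094 c924 c715 c716 c925 c2160 c10406 (k8 c10998 c5505 c10698 c5372 c5373 c8127 c8115 c2123 (k8 c2141 c5501 c4377 c4361 c9007 c9222 c5517 c5520 (k2 c1075 c11059 (k1 c9179 k0)))))))))) (by decide +kernel)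
def c11096 : PP 9 3 T 0x1000000000000000000040000000010400000080000000000000000000202000 := rS 0x2a0d404 (k4 c9725 c316 c10704 c2375 k0) (by decide +kernel)
def c11097 : PP 9 3 T 0x5000000080000000000000000000000000000000000000000000000000040000000000000001000000000000000000000000008200800 := rS 0x2a76be035a1c426c018122201ef05e5079 (k8 c5441 c11095 c5433 c11033 c9723 c9730 c9725 c9722 (k8 c717 c2417 c3841 c2306 c10403 c5529 c1907 c10651 k0)) (by decide +kernel)
def c11098 : PP 9 3 T 0x5000000080000000000000000000004000000000000000000000000000040000000000000000004000000000000080000000000200000 := rS 0x3f03e0c059e47639038dd1265348050a830d1981e5a0497d40950eab53eb16aabde2036b8c597b64b9fcef282b9d730352cf78085d (k8 c9749 c9725 c11033 c9442 c5450 c5210 c5482 c9760 (k8 c11095 c5493 c804 c5452 c9724 c5420 c5434 c1933 (k8 c9722 c9697 c2777 c5454 c5421 c5572 c5573 c2000 (k8 c10191 c8161 c1122 c312 c10209 c10998 c715 c10701 (k8 c5483 c5365 c9723 c9744 c9670 c8134 c5435 c5432 (k8 c5317 c10906 c5441 c11097 c3568 c5837 c11096 c1075 k0))))))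 (by decide +kernel)
def c11099 : PP 9 3 T 0x200000000000000000000000040000040000000010405000080004000000000000008204500 := rS 0x7e07c18011d8e40e37 (k8 c5435 c5432 c5317 c10906 c9723 c3568 c5837 c11096 (k1 c1075 k0)) (by decide +kernel)
def c11100 : PP 9 3 T 0x4000000000000000000000000000000000000000000000000000000000000000000000000000000000000080000000000000000200800 := rS 0xda878d804 (k4 c9725 c717 c718 c5529 (k1 c10710 k0)) (by decide +kernel)
def c11101 : PP 9 3 T 0x5000000000000000000000000000004000000000000000000000000000040000000000000000004000000000000080000000000200000 := rS 0x80bfd56f27ac4dc46d68e75fa780fa0327a1888ed9e3364b3472071ba24ca694186bc67d3180518667b83cba0b2d024bea04a8755a9f58b555ef101b5c62cbdb25cfe779415ceb981a967bc04 (k8 c9725 c11033 c9442 c5450 c5210 c5482 c9760 c11095 (k8 c5493 c804 c5452 c9724 c5420 c5434 c1933 c9722 (k8 c9697 c2777 c5454 c5421 c5572 c5573 c2000 c10191 (k8 c8161 c1122 c312 c10209 c11100 c9749 c10998 c10800 (k8 c715 c924 c9723 c9755 c2826 c5578 c10701 c5483 (k8 c9744 c9670 c8134 c5435 c5432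 c5317 c5495 c5494 (k8 c5492 c5453 c10906 c9730 c5377 c11098 c5670 c5837 (k8 c11099 c1075 c5524 c1539 c2429 c1750 c2603 c10143 (k4 c3587 c9859 c2574 c2142 (k1 c11060 k0)))))))))) (by decide +kernel)
def c11102 : PP 9 3 T 0x5000000000000000000000000000004000000000000000000000000000000000000000000000004000000000000080000000000200000 := rS 0x9d8a2a5faff4d1b224de81aae02604038d0fe1c9b18cc8c2d024fa5ff1a812ad75787742f10198c02b34fb2d62addb1fcae354bb54eecd2cf78083194214eb98 (k8 c5210 c5482 c5365 c11095 c5434 c9725 c11033 c9442 (k8 c5495 c5493 c5454 c5452 c5450 c9760 c804 c9724 (k8 c5573 c5421 c5420 c5572 c5574 c9723 c9755 c9722 (k8 c9697 c5377 c2000 c2777 c1933 c10191 c8161 c5578 (k8 c1122 c2826 c312 c10209 c924 c715 c11101 c5357 (k8 c5535 c798 c2620 c5670 c5663 c8168 c2123 c10410 (k8 c941 c940 c726 c727 c2570 c2552 c2495 c8604 (k2 c1696 c2951 k0)))))))) (by decide +kernel)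
def c11103 : PP 9 3 T 0x1000000000001000000000000000000000000000000000000000000000000000000000000000000001100000000002001000000000000000000000000 := rS 0x137b5 (k2 c5529 c2493 (k1 c5679 k0)) (by decide +kernel)
def c11104 : PP 9 3 T 0x5000002000000000000000000000000000000000000000000000000000080000000000400000000000000040000000000000020200000 := rS 0x7b529eaf36f2a44315da2cd3ecb5aed90a833e03d425e709010e0d1cb8cfe0b36a64c601f0a75243b30820ea072e8d463283b8cd8a59ef15c0604 (k8 c9725 c9722 c9760 c11033 c9442 c5451 c5492 c5493 (k8 c11095 c5434 c5450 c9749 c5432 c5482 c3567 c1574 (k8 c10906 c311 c1694 c5535 c9723 c9755 c2439 c11103 (k8 c717 c804 c2620 c5317 c2480 c798 c527 c1714 (k8 c312 c1122 c471 c528 c5483 c5365 c9724 c5422 (k8 c5420 c5572 c5574 c5679 c5414 c5528 c5531 c3620 (k4 c333 c1998 c10717 c3571 (k1 c5333 k0)))))))) (by decide +kernel)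
def c11105 : PP 9 3 T 0x5000002000000000000000000000000000000000000000000000000000080000000000000000000000000040000000000000020200000 := rS 0x79bddea21a52a5340b36a641a87f098c023942a0cc20307a54bc9d49020ea072e8d463283b8cd8a59ef15c083b (k8 c10906 c9725 c9760 c11033 c9442 c5451 c5492 c5493 (k8 c11095 c5434 c5450 c9749 c5432 c5482 c3567 c311 (k8 c1694 c312 c1518 c471 c9722 c1574 c5483 c5365 (k8 c5317 c9723 c9755 c5535 c798 c2480 c2439 c11103 (k8 c717 c11104 c2495 c10735 c2490 c1998 c5333 c333 (k1 c3571 k0)))))) (by decide +kernel)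
def c11106 : PP 9 3 T 0x5000000000000000100040000000000000000000000000000000000000000000800000000000000000000000020000000000000000000000000000000 := rS 0x670f1f3 (k4 c5549 c1551 c5188 c5524 k0) (by decide +kernel)
def c11107 : PP 9 3 T 0x5000000000001000000040000000000000000000000000000000000000000000100000040000000001000000020000000800000000000000000200000 := rS 0x794c6736ae3d09fcae9b (k8 c1120 c9760 c804 c5377 c11106 c11005 c5235 c5679 (k2 c5524 c1520 k0)) (by decide +kernel)
def c11108 : PP 9 3 T 0x5000000000000000000000000000004000000000000000000000000000000000000000000000004000000000000000000000000200000 := rS 0x20da3c8daab7abde940d05e74d6d1f026d8e1c0dab922e1f1a75ae955083c8049491f0c25e40823265b2184de203888053ecb58ab76c3b3f95c8a5d628d52ecf6a8cceecd2cf780839038c46f28429d50798 (k8 c5210 c5483 c5482 c5365 c11095 c5435 c5434 c5432 (k8 c5317 c9725 c11033 c9442 c5495 c5493 c5492 c5454 (k8 c5453 c5452 c5450 c5451 c9749 c454 c9760 c804 (k8 c10906 c9724 c5573 c5421 c5420 c5572 c9723 c9730 (k8 c9722 c9697 c184 c11102 c925 c10897 c3567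 c1745 (k8 c312 c1574 c528 c311 c3751 c527 c471 c1122 (k8 c1518 c1549 c1694 c5462 c1714 c904 c8161 c1078 (k8 c5649 c11105 c1120 c11107 c5459 c10931 c8115 c10925 (k8 c316 c6008 c5780 c5519 c2121 c10929 c3587 c5665 (k2 c333 c5528 k0)))))))))) (by decide +kernel)
def c11109 : PP 9 3 T 0xa0000000000000000000000000000000000000000000045000000000040000000041020001000008000080000000000000000000000000 := rS 0x70c553be3 (k4 c5578 c5412 c5414 c3060 (k1 c10695 k0)) (by decide +kernel)
def c11110 : PP 9 3 T 0x5000000000000000000000000000004000000000000000000000000000000000000000000000000000000000000000000000000200000 := rS 0xf9c4e28e14e23d366c556d5ff0354bf7da477a87d414a6ba541ef757a463a420d198b409ce9e8eb9808e86b2017880d669f65ac55bb61d95c8a5d1aa5daa7764b4cb3de020c46f28 (k8 c11095 c5435 c5434 c9725 c11033 c9442 c5496 c5494 (k8 c5493 c5454 c5452 c5450 c9749 c454 c9760 c10906 (k8 c9724 c5573 c5421 c5420 c5572 c5574 c9722 c9697 (k8 c9723 c5337 c5377 c183 c5210 c5482 c11108 c5372 (k8 c1684 c10209 c715 c716 c925 c2160 c3920 c10406 (k8 c10800 c10998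 c1904 c1933 c6008 c8161 c5517 c5519 (k8 c5520 c10382 c1075 c1906 c1935 c11059 c11109 c5682 (k8 c5830 c1189 c2432 c743 c3061 c1277 c957 c5590 (k1 c5675 k0))))))))) (by decide +kernel)
def c11111 : PP 9 3 T 0x200000000000000000000000100000000000054000000200000010000000014000004200000 := rS 0x190386700bc432030b8c41204 (k8 c9725 c311 c5434 c5433 c9722 c9701 c9697 c9723 (k4 c2005 c3577 c10753 c1953 k0)) (by decide +kernel)
def c11112 : PP 9 3 T 0x15000000000000000000000000000000000000000000000000000000000000000000002000000000000000000000000000000000200000 := rS 0xf63dd0ad055aa0cc9441834bd9c30a1f267404bf526794cf8622630088c7657628d52e333bb24b3de0201e50f32d86deb3a (k8 c11110 c5477 c5475 c5474 c5325 c11095 c5432 c9725 (k8 c11033 c9442 c5494 c5493 c5492 c5452 c5450 c5451 (k8 c9760 c10906 c9734 c9723 c9755 c9730 c5458 c167 (k8 c1538 c1694 c1239 c311 c10693 c5440 c2116 c4251 (k8 c5235 c5663 c5522 c5525 c11111 c1519 c1699 c2126 (k4 c1698 c736 c2021 c10861 (k1 c5501 k0))))))) (by decide +kernel)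
def c11113 : PP 9 3 T 0x14000000005000000002001000000000000000000000000155000000200000 := rS 0xd17b88c083b (k4 c10906 c9725 c9734 c2021 (k2 c2025 c3587 k0)) (by decide +kernel)
def c11114 : PP 9 3 T 0x15000000000000000000000000000000000000000000000000000000020000000000001000000000200080000000000000000000000000 := rS 0x4d1ad339c2f667dbe1 (k8 c5459 c5501 c5482 c2006 c5238 c4173 c5523 c5679 (k1 c1119 k0)) (by decide +kernel)
def c11115 : PP 9 3 T 0x8000000000000000000000000000010000000000020000000500000014000000004000000000060 := rS 0xbe08 (k2 c10693 c1518 (k1 c312 k0)) (by decide +kernel)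
def c11116 : PP 9 3 T 0x15000000000000000000000000000000000000000000000000000000020000000000000020000000000000000000000000000000200000 := rS 0x4d82d540906990bf9c33e64e86931804463b2bb14eec92c8100e1b07aa53af579ce86e311cca19a33678d7bded (k8 c5501 c11033 c5450 c5453 c5492 c5495 c11095 c5317 (k8 c5434 c5435 c11110 c5325 c5477 c11112 c11113 c9737 (k8 c5475 c5432 c9725 c9442 c5494 c5493 c5451 c9760 (k8 c10906 c9734 c9723 c9755 c9744 c11115 c5482 c11114 (k8 c5238 c1519 c5664 c5522 c312 c8720 c8316 c1189 (k1 c9123 k0)))))) (by decide +kernel)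
def c11117 : PP 9 3 T 0x1000000000000014000000000000000000000000000008000200000000000000000000000010000004000000000000400040014000000014000000000101 := rS 0x199321d00e1b (k4 c5475 c5432 c10693 c10753 (k2 c5482 c8720 k0)) (by decide +kernel)
def c11118 : PP 9 3 T 0x1000000000011000000000000000000000000000000000000000000000000000000000000000000000800000000000000000000000000000000000220 := rS 0x35670bd93 (k4 c5438 c312 c5235 c1119 (k1 c5523 k0)) (by decide +kernel)
def c11119 : PP 9 3 T 0x15000000000000000000000000000000000000000000000000000000020000000000000000000000000000000000000000000000200000 := rS 0x198e80955a693295f0fb40257628d4667764967bc0403ca2749d (k8 c11112 c11110 c11095 c5432 c9725 c11033 c9442 c5494 (k8 c5493 c5492 c5450 c5451 c9760 c9723 c5501 c5459 (k8 c11116 c1595 c5679 c1189 c11118 c10693 c11117 c11114 k0))) (by decide +kernel)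
def c11120 : PP 9 3 T 0x11000000000000000000000000040000000000000000000000000000000000000000001100000000000000800000000040000080200000 := rS 0x780fe57 (k4 c9760 c804 c10734 c10926 k0) (by decide +kernel)
def c11121 : PP 9 3 T 0x15000000000000000000000000000000000000000000000000000000000000000000000000000000000080000000000000000000200000 := rS 0xea092f87932215588caec53b81d3b4b43bd9a23779bd4723b678cd9a3518ca0b73a07967bc04 (k8 c9725 c11033 c9442 c9737 c11110 c5474 c11095 c5434 (k8 c5450 c5495 c5492 c5453 c10906 c5317 c5477 c5325 (k8 c5435 c11119 c3587 c9904 c5333 c11112 c5432 c5493 (k8 c5451 c9760 c9734 c2123 c343 c9107 c5650 c11120 (k2 c312 c2006 (k1 c10693 k0)))))) (by decide +kernel)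
def c11122 : PP 9 3 T 0x15000000000000000000000000000000000000000000000000000000000000000004000000000000000000000000000000000000200000 := rS 0x1783c084c88402232bb14ee5902277db4b7b3446ef37ace8723b678cd9a35ef0c65067 (k8 c11121 c11095 c5434 c11033 c5450 c5495 c5492 c5453 (k8 c10906 c5317 c11110 c5477 c5325 c5435 c11119 c3587 (k8 c5333 c5498 c11112 c9725 c9442 c5493 c5451 c9760 (k8 c9734 c9723 c343 c9107 c11117 c5650 c312 c11120 k0)))) (by decide +kernel)
def c11123 : PP 9 3 T 0x15000000000000000000000000000000000000000000000000000000000000000000000000000000000000000000000000000000200000 := rS 0x639d50a1ccc07d54793de710687a5bd9a20f118ed8a35678cceecd2cf780839188de50f32d86deb3a (k8 c11110 c5477 c5475 c5474 c5325 c11095 c5435 c5434 (k8 c5317 c9725 c11033 c9442 c5495 c5493 c5492 c5453 (k8 c5450 c5451 c10906 c9734 c9737 c11119 c3587 c5333 (k8 c9904 c1972 c6008 c5372 c5524 c11122 c1084 c10820 (k4 c8123 c5365 c5482 c11105 (k1 c3607 k0)))))) (by decide +kernel)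
def c11124 : PP 9 3 T 0x20000000000000000000000000000000000000000000000080000000000000000000000000000000000000004000000000000000200200 := rS 0x7971671c2df4da841e403e179669f65ad76c3b3fa762a99059b4094b (k8 c5333 c9725 c5529 c717 c5530 c5414 c5412 c804 (k8 c10906 c9724 c5422 c5420 c5572 c5574 c312 c528 (k8 c527 c471 c1122 c10735 c10717 c1714 c5780 c3620 (k2 c5524 c1551 k0)))) (by decide +kernel)
def c11125 : PP 9 3 T 0x5000000000000000000000000000000000000000000000080000000000000000000000000000000000000800000000000000040200000 := rS 0x9b498640623020ec7217942744299a58276857 (k8 c9760 c11123 c11124 c5333 c5530 c5528 c5412 c11095 (k8 c5433 c5317 c10906 c9725 c9734 c9722 c9701 c1516 (k2 c10735 c6193 k0))) (by decide +kernel)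
def c11126 : PP 9 3 T 0x5000000000000000000000000000000000000000000000080000000000000000000000000000000000000400000000000000000200000 := rS 0x1c873ca518e643019cc6011d8d472370da641a21059b7db99c99ece809da3140f283bce8ae3341967bc04 (k8 c9725 c11033 c9442 c1971 c5492 c9760 c11110 c5493 (k8 c11095 c5432 c5451 c11123 c11124 c10693 c1689 c5440 (k8 c5482 c5498 c5529 c717 c5528 c315 c5530 c5475 (k8 c5435 c5317 c5450 c10906 c9723 c9755 c2006 c5663 (k4 c10753 c726 c1575 c1577 (k2 c4485 c3568 (k1 c10850 k0))))))) (by decide +kernel)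
def c11127 : PP 9 3 T 0x20000000040000000000000000040000000000000000000000000000000000000000000000000040000000800004001000000000208000 := rS 0xe370fc892c7cee86b23b (k8 c10906 c5337 c5377 c5369 c795 c10687 c5221 c6188 (k2 c5549 c11005 k0)) (by decide +kernel)
def c11128 : PP 9 3 T 0x5000000000000000000000000000000000000000000000080000000000000000000000000000000000000000000000000000000200000 := rS 0x7df1b79c68f70b1b38490792c3c9b49a05425ec99d0134bd0d65669f65ad76c7f2bb1466772cf7872070b8dc7b289d2762a99059b76804 (k8 c9725 c11123 c5529 c717 c5530 c5414 c5412 c11110 (k8 c11095 c5436 c5435 c5433 c5432 c5317 c11033 c9442 (k8 c5493 c5492 c5451 c9760 c804 c9724 c5422 c5420 (k8 c5572 c5574 c5337 c5377 c5333 c11124 c10693 c5440 (k8 c11126 c1122 c1746 c1516 c10735 c11125 c2590 c11127 (k8 c507 c5780 c10978 c6188 c5526 c2620 c3620 c6661 (k2 c2829 c5670 k0))))))) (by decide +kernel)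
def c11129 : PP 9 3 T 0x800000000024000000000000000000000000040000000000000000000054000000000000000000000000000400000000040000000000000000204000 := rS 0xfc0e993328435a1f386900974b20d1082cda04 (k8 c9725 c5529 c717 c5528 c315 c9442 c9749 c9723 (k8 c9744 c6008 c8435 c5523 c3571 c5365 c5871 c9172 (k2 c11011 c1128 k0))) (by decide +kernel)
def c11130 : PP 9 3 T 0x800000000024000020000000000000000000000000000000000000000054000000000000000000000000000400000000040000000000000000204000 := rS 0xfc0e991099935a1cd2012e9641a21059b4094a (k8 c11129 c9725 c5529 c717 c5528 c315 c9442 c9749 (k8 c9723 c9744 c5373 c5523 c8145 c3571 c5871 c9172 (k2 c11011 c1128 k0))) (by decide +kernel)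
def c11131 : PP 9 3 T 0x4000000000000000000000000000000000000000000000000000000000000000000000140100000000000040040000000020800000000000000000200000 := rS 0x1109557e853ecb58ab76c61 (k8 c62 c9724 c5573 c5421 c5420 c5572 c5377 c1131 (k2 c1956 c8120 (k1 c8361 k0))) (by decide +kernel)
def c11132 : PP 9 3 T 0x800000000024000000000000000000000000000008000200000000000040000000000000000000000000000040000000800000000000000000204000 := rS 0x717c9c3993c1d18e86429973bef23d2893a13480516452ea5daa7764b4cb24306884166d027b7c2912de4d067b4eb406ef37a8e476cf19b346a31 (k8 c5434 c5450 c5495 c5492 c5453 c10906 c5317 c5477 (k8 c5325 c5435 c3587 c5412 c1686 c1976 c5439 c5474 (k8 c9793 c5459 c5501 c9725 c5529 c717 c5528 c315 (k8 c5478 c9442 c5496 c5494 c5493 c5454 c5452 c9749 (k8 c454 c853 c9723 c9744 c5377 c507 c11129 c5520 (k8 c9159 c11130 c11131 c5871 c3571 c798 c8113 c10245 (k4 c5482 c1542 c5191 c11005 (k1 c5549 k0)))))))) (by decide +kernel)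
def c11133 : PP 9 3 T 0x800000000024000000000000000000000000000008000200000000000040000000000000000000000000000040000000800000000000000000200000 := rS 0x4ba583b263d (k4 c5436 c5439 c11132 c5329 (k2 c10387 c11127 k0)) (by decide +kernel)
def c11134 : PP 9 3 T 0x5000000000000000000000000000000000000000000000000000000000000000000000000000000000000000000000000000000200000 := rS 0x33a7b3520df81d32180cf93cc9d0125ff0b41efb47a86de73a1b8c40e39941659a7719b3c6ac5ef010d263008ecfe57 (k8 c9760 c804 c10906 c9723 c9755 c9744 c9725 c11033 (k8 c5451 c5450 c5453 c5492 c5493 c5495 c9442 c11095 (k8 c5317 c5432 c5434 c5435 c11110 c5325 c5475 c5477 (k8 c11123 c11128 c3587 c5459 c11133 c312 c10693 c5482 (k8 c5440 c2006 c5663 c10753 c9172 c11011 c2393 c1128 (k2 c1689 c5523 (k1 c10425 k0))))))) (by decide +kernel)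
def c11135 : PP 9 3 T 0x800000000001000000000000000000000000000008000200000000000000000000000000000000000000000000000000000000000000000000200100 := rS 0x7503804aeaf4b99d2a350d99512590e811165df7c736429d0ac76cc56a9dd92d3 (k8 c5496 c5494 c5493 c5454 c5451 c9724 c5421 c5377 (k8 c8199 c11134 c8393 c5504 c5321 c853 c9725 c5486 (k8 c313 c1979 c8120 c5475 c5324 c5488 c5487 c5404 (k4 c5406 c9760 c9723 c5432 (k2 c10753 c10746 k0))))) (by decide +kernel)
def c11136 : PP 9 3 T 0x800000000001000000000000000000000000000008000000000000000000000000000000000000000000000000000000000000000000000000200100 := rS 0x39d42f9294ed87e572c877640462b546677 (k8 c5493 c5492 c5454 c5451 c9725 c11134 c5486 c313 (k8 c9760 c403 c9724 c11135 c10195 c7658 c5440 c714 (k1 c10693 k0))) (by decide +kernel)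
def c11137 : PP 9 3 T 0x800000000001000000000000000000000000000008000000000000000040000000000000000000000000000000000000000000000000000000200000 := rS 0x4cf85a09d4d8de50922f020083b4abcdebb535e2749b9b3adb65b6 (k8 c9724 c11134 c8057 c7805 c5616 c5213 c5610 c2379 (k8 c5533 c5477 c5325 c5488 c10906 c9725 c11136 c312 (k8 c311 c9679 c4171 c1119 c1694 c9979 c5459 c1595 (k1 c5679 k0)))) (by decide +kernel)
def c11138 : PP 9 3 T 0x400000000001000000000000000000000000000008000000000000000000000000000000000000000000000000000000800000000000000000200000 := rS 0x753be61abe320021a69219b258a179401f26033f95d5e974a8d4ca892c874088b2efbe39b214e8563b6 (k8 c9724 c5421 c5377 c8199 c11134 c8393 c5504 c5321 (k8 c853 c9725 c5486 c313 c1979 c8120 c5324 c5488 (k8 c5404 c5406 c9760 c804 c9722 c5439 c1451 c9668 (k8 c9689 c1629 c1117 c5316 c7843 c2081 c1516 c527 (k4 c5462 c1656 c5186 c10702 (k2 c5482 c10746 k0)))))) (by decide +kernel)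
def c11139 : PP 9 3 T 0x10000000080000000000000000000000000200000000000000000000000040000000001000000000000400004000000000000000200400 := rS 0x361eb3b11008ec1e0d020e40e37 (k8 c5435 c5432 c5317 c9725 c316 c9737 c10906 c9723 (k4 c9730 c6200 c10699 c5665 (k1 c743 k0))) (by decide +kernel)
def c11140 : PP 9 3 T 0x400000000001000000000000000000000000000008000200000000000000000000000000000000000000000000400000000001000000000000200000 := rS 0x1e10564bc6a163a01a88cccb10aeaf2d99d165df7a263829d0ac4b21dda9af13a4dcd9d6c09020cc0e373a97d2e31318046af10186d3a920bedb643b (k8 c10906 c11134 c9724 c5433 c7843 c1694 c5475 c9722 (k8 c9697 c5324 c9723 c9755 c5476 c5404 c11138 c9271 (k8 c5435 c5432 c5316 c9725 c312 c8057 c7805 c5616 (k8 c5213 c5610 c2379 c5533 c5486 c313 c5421 c5377 (k8 c8199 c8393 c1979 c5504 c5321 c853 c5487 c715 (k8 c5406 c9760 c10693 c10209 c5673 c948 c947 c3938 (k4 c3000 c5463 c5186 c11139 (k2 c10925 c10403 k0)))))))) (by decide +kernel)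
def c11141 : PP 9 3 T 0x1000000000000000000000000000000000000000000000000000000000000000000000000000000800044400000000000000000000000 := rS 0xc393 (k2 c5356 c724 (k1 c5663 k0)) (by decide +kernel)
def c11142 : PP 9 3 T 0x1000000000000000000000000000008000000000000000040000000000000000000000000000000000000000000000000000000200000 := rS 0xd50ac9a0ba5395d3e4c94a4ee5fef834d78990e923e0fbde2c9e51dced493675b47053a18898c02b1db5f45e230215ccfb2 (k8 c11134 c5487 c9760 c9725 c9734 c9709 c9703 c9724 (k8 c5421 c9723 c9755 c9730 c5377 c8199 c8393 c8057 (k8 c7805 c513 c5533 c5616 c2464 c3298 c2465 c3299 (k8 c9737 c9714 c5213 c5606 c5610 c2379 c316 c11137 (k8 c11138 c11141 c11140 c10195 c5227 c5472 c5622 c7561 (k4 c5516 c5521 c3197 c3575 (k1 c722 k0))))))) (by decide +kernel)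
def c11143 : PP 9 3 T 0x400000000001000000000000000000000000000004000100200000000000000000000000000000000000000000000000000000000000000000200000 := rS 0xc81881dae8162977c5980d8d7dfa1ac864066900ac76c974a9643a5b33ec8ee093ae480857 (k8 c9760 c9725 c10195 c5440 c9669 c5912 c11134 c5487 (k8 c715 c5486 c313 c5488 c5404 c9724 c5421 c9723 (k8 c9744 c9722 c9701 c5337 c5377 c5504 c10024 c2161 (k8 c5219 c5166 c5361 c5364 c5463 c5465 c922 c2163 (k2 c10685 c10663 k0))))) (by decide +kernel)
def c11144 : PP 9 3 T 0x4000400000000001000002000000000000000000000004000100000000000000000000000010000000000000000000000000000000000000000000200000 := rS 0xba4c683c6a34dae8146f8885590c80d3fb64b96ccfb23e8242675c9010ae8b8ea248a5d (k8 c5361 c454 c5484 c11143 c854 c9760 c9725 c10195 (k8 c5440 c184 c9669 c8164 c11134 c5487 c715 c5404 (k8 c9724 c5572 c9722 c9701 c5337 c5658 c5166 c1929 (k8 c5463 c5465 c5579 c8254 c2778 c2779 c1569 c1619 (k1 c5648 k0))))) (by decide +kernel)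
def c11145 : PP 9 3 T 0x100040000000000000000000000000000000000000000000000008000000000000000000000000010000000000000005420 := rS 0xd50aca22f2788f177d8fee64381 (k8 c3238 c320 c5616 c9714 c9703 c2465 c9734 c3298 (k4 c9709 c2464 c3197 c3575 (k1 c722 k0))) (by decide +kernel)
def c11146 : PP 9 3 T 0x10000010000000000000000000000000000000000000000000000000000040000000000008000000000400404000000000000000200440 := rS 0x3d8dc726ca5444020f068113a3b (k8 c10906 c1694 c9725 c316 c9737 c9723 c9730 c5211 (k4 c5665 c9515 c5518 c743 (k1 c5710 k0))) (by decide +kernel)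
def c11147 : PP 9 3 T 0x80000000000000000000000000000000000000000000440400000000000000000000000080054000000001000010000a0000000205000 := rS 0x8ac05561e7a3cd66b1db2bdfaa92c8740831 (k8 c119 c9725 c5486 c313 c5489 c5405 c5406 c9724 (k8 c5421 c5574 c2535 c1622 c1568 c10863 c1928 c1087 (k1 c8604 k0))) (by decide +kernel)
def c11148 : PP 9 3 T 0x4000000000011000002000000000000000000000000000100000000044040000000100000000000000000140000000400000001000020000000200440 := rS 0x10089b8d99e11c0dd1e873de71c240490f42f590c80c763f4b97d8f922ba441e0d0220e220154ec8ba85 (k8 c5365 c5361 c11134 c5489 c9723 c9730 c8722 c9725 (k8 c316 c9737 c904 c9760 c10195 c5357 c9668 c5404 (k8 c403 c10906 c9722 c9701 c5337 c1619 c1623 c5648 (k8 c5655 c1714 c11146 c5372 c5373 c5526 c11147 c10699 (k4 c5534 c440 c2618 c8617 (k2 c8308 c2078 k0)))))) (by decide +kernel)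
def c11149 : PP 9 3 T 0x400000000001000000000000000000000000000004000100000000000000000000000000000000000010000000000000000000000010000011400000 := rS 0xc12433 (k4 c5284 c5648 c5653 c1565 k0) (by decide +kernel)
def c11150 : PP 9 3 T 0x11000022000000000000000000000000000100000000000000000000000200000000000400000000000000000000000050000000201440 := rS 0x4e335e4f5a5267c2383d864063b2d99f64c7c9010ae0f (k8 c9737 c9760 c9725 c10195 c5357 c11134 c5487 c715 (k8 c10906 c9722 c9701 c5372 c10699 c5534 c2437 c5225 (k4 c5519 c8145 c2501 c5679 (k1 c1276 k0)))) (by decide +kernel)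
def c11151 : PP 9 3 T 0x400000000011000002000000000000000000000000000100000000000000000000000200000000000000000000000400000000000058000000a00440 := rS 0x19c9c79784d8f51c2673a972c874b6673be48ae0f06811071100aa7645d42985a29b (k8 c10952 c2134 c1459 c5365 c5361 c11134 c5489 c9723 (k8 c9730 c8722 c9725 c316 c9737 c9760 c10195 c5912 (k8 c5487 c715 c5486 c313 c5404 c11150 c1463 c10988 (k4 c2046 c5665 c5534 c11029 (k2 c11103 c388 (k1 c1650 k0)))))) (by decide +kernel)
def c11152 : PP 9 3 T 0x400000000011000002000000000000000000000000000100000000000040000000000010000000000000000000000400000001000000000000200440 := rS 0x1e8cd43bcfc14b1b0c9903130a842c35f1bfdab036ba37dc8932a14ba19019a4c69f65ac55bb61fabd2e952c874b6673b97ceb922ba2e3b3b0783408838880553b2 (k8 c11134 c5489 c9723 c9730 c8722 c9725 c316 c9737 (k8 c11142 c11143 c854 c9760 c10195 c5440 c9668 c5912 (k8 c5487 c715 c5486 c313 c5488 c5404 c5406 c403 (k8 c9724 c5573 c5421 c5420 c5572 c9755 c9744 c9722 (k8 c9701 c5361 c5365 c5481 c5484 c11144 c5505 c5507 (k8 c5508 c5585 c5586 c8136 c11148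 c11149 c1069 c1459 (k8 c8160 c3597 c5653 c11151 c5518 c6642 c2535 c8435 (k2 c5537 c3571 (k1 c2045 k0))))))))) (by decide +kernel)
def c11153 : PP 9 3 T 0x400000000001000000000000000000000000000004000100000000000000000000500000000000000000000000000000000000000014000000200000 := rS 0xa11805832034fb2d62addb0fcaeaf4b8752bb2 (k8 c11134 c5488 c5486 c5404 c5406 c9760 c403 c9724 (k8 c5573 c5421 c5420 c5572 c9722 c9701 c11149 c5653 (k2 c1069 c8160 k0))) (by decide +kernel)
def c11154 : PP 9 3 T 0x80000000000000000000000000000000000000000000440000000000000000000000000080000000000000000010000a0000000200000 := rS 0x11580aac3cf459ac76c23022bdfaa9 (k8 c5489 c5405 c5406 c9725 c9734 c9724 c5421 c5574 (k4 c1622 c1568 c1924 c1928 (k2 c1087 c8604 k0))) (by decide +kernel)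
def c11155 : PP 9 3 T 0x88000000000000000000000000000000000000000000044000000100002000000004000800000000000000000000000000000000000000 := rS 0x45602b358abdfaa9 (k8 c5489 c5405 c5406 c5421 c5574 c2078 c1192 c8604 k0) (by decide +kernel)
def c11156 : PP 9 3 T 0x100000004000100000000020000000000002000000000000000000400000000200000004004000000000000 := rS 0xd2 (k2 c2077 c10488 k0) (by decide +kernel)
def c11157 : PP 9 3 T 0x400000000011000000000000000000000000000000000100000000000040000000000010000000000000000000000400000001000000000000200440 := rS 0x11450c07c441702ad34cc1c0dcf79c4ea487a171a3fdab036b8cfdc5ccce86b21901acd62b556ed8763f57a5dfa590e96ccf3b2fb1f24570783408838880553b2 (k8 c11134 c5489 c9723 c9730 c8722 c9725 c316 c9737 (k8 c9760 c10195 c5357 c9668 c11142 c5487 c715 c5486 (k8 c313 c5405 c5404 c5406 c403 c10906 c9724 c5573 (k8 c5422 c5421 c5574 c9722 c9701 c5337 c5377 c11152 (k8 c5644 c5219 c384 c5507 c5508 c5585 c5586 c11153 (k8 c1619 c1623 c5648 c1694 c11146 c5372 c11154 c10699 (k8 c440 c325 c2076 c11155 c1714 c5655 c11156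 c5578 (k2 c3623 c1191 k0)))))))) (by decide +kernel)
def c11158 : PP 9 3 T 0x400000000011000000000000000000000000000000000100000000000040000000000000000000000000000000000400000001000000000000200440 := rS 0x3c4a020c51c10155a6998383d8df389d490f42e347fb560633f7170639962686b21901acd62b556ed8763f57a5dfa590e96ccf3b2fb1f24570783408838880553b2 (k8 c11134 c5489 c9723 c9730 c8722 c9725 c316 c9737 (k8 c9760 c10195 c5357 c9668 c11142 c5487 c715 c5486 (k8 c313 c5405 c5404 c5406 c403 c10906 c9724 c5573 (k8 c5422 c5421 c5574 c9722 c9701 c5337 c5377 c11157 (k8 c5364 c1469 c5644 c5219 c383 c5508 c5585 c5586 (k8 c5653 c1619 c1623 c5648 c1694 c11146 c11154 c5372 (k8 c10699 c440 c325 c2076 c11156 c11155 c3623 c1714 (k2 c1191 c5655 (k1 c5578 k0))))))))) (by decide +kernel)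
def c11159 : PP 9 3 T 0x11000000000000000000000000000000000000000000000040000000002000000000000000001400400000050000000018000000001400 := rS 0x7a0dd0ef3f083cba57 (k8 c9760 c383 c9737 c5537 c2501 c2073 c6642 c3571 (k1 c2046 k0)) (by decide +kernel)
def c11160 : PP 9 3 T 0x1001400000000011000000000000000000000000000000000000000000000000000000011000000000000540000000000000000000000000000000000000 := rS 0x19c9c (k2 c5679 c5688 (k1 c1650 k0)) (by decide +kernel)
def c11161 : PP 9 3 T 0x10000002000000000000000000000004000000000100000054000000000000000004000000000400000400150000000000000000001400 := rS 0x1b73b4a43217da0f (k8 c9737 c10910 c5365 c3571 c5657 c8145 c745 c5665 k0) (by decide +kernel)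
def c11162 : PP 9 3 T 0x11000000000000000000000000000000000000000000000008000000000000000000000440000000000000000000000008000001000000 := rS 0x9d4cf859c38 (k4 c387 c388 c5534 c2437 (k2 c1650 c5679 k0)) (by decide +kernel)
def c11163 : PP 9 3 T 0x400000000011000000000000000000000000000000000100000000000040000000000000000000000000000000000400000001000000000000200400 := rS 0xdb9da5219e7ed7ab350b982e8c9abee4df8dae350b2007806ac86406972c874b6673b95e3b3b0783408838880553b2 (k8 c11134 c5489 c9723 c9730 c8722 c9725 c316 c9737 (k8 c11142 c11143 c9760 c5912 c5487 c715 c5486 c313 (k8 c5404 c9722 c9701 c5337 c11158 c923 c922 c714 (k8 c1618 c1492 c5463 c10952 c5166 c5585 c11153 c383 (k8 c6013 c5365 c11159 c2045 c10910 c11162 c3571 c5657 (k2 c8145 c744 (k1 c5665 k0))))))) (by decide +kernel)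
def c11164 : PP 9 3 T 0x8000000000000000000000000000004000000100000000040000000000000000000000000000000000000000001000000000000200800 := rS 0x3dcfef6fce030355c5624460f52eb20459ac56aaddb2bdfaa9 (k8 c5489 c5405 c5406 c9724 c5573 c5422 c5421 c5574 (k8 c9725 c5337 c5516 c718 c927 c926 c1087 c1085 (k4 c2350 c2791 c5547 c6986 (k2 c3623 c5171 (k1 c5586 k0))))) (by decide +kernel)
def c11165 : PP 9 3 T 0x9000000000000008000000000000000000000000000004000000000000000000000000000000000000000001040000000800000000000000000000200000 := rS 0x10f9941c01ff03469c4e7593480562ad57c5626b5db215faabce96cce04 (k8 c9725 c5487 c715 c5523 c10433 c5405 c2542 c9724 (k8 c5422 c2600 c1140 c5406 c5573 c5421 c9723 c9744 (k8 c5337 c9717 c9720 c5505 c5508 c5586 c8602 c1978 (k2 c10434 c9480 (k1 c5672 k0))))) (by decide +kernel)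
def c11166 : PP 9 3 T 0x4000400000000001000000000000000000000000000004000100000000000000000000000000000000000000000000000000000000000000000000200000 := rS 0x62e634359 (k4 c5337 c5377 c5219 c5364 (k1 c11144 k0)) (by decide +kernel)
def c11167 : PP 9 3 T 0x400000000011000000000000000000000000000000000100000000000040000000000000000000000000000000000000000001000000000000200000 := rS 0xabf6454d49107ac76caf54a2e07ee05c7677b2 (k8 c11134 c11142 c11143 c11164 c11166 c5508 c854 c5489 (k8 c5406 c9724 c5421 c9737 c904 c11163 c1140 c11165 (k2 c5500 c10275 k0))) (by decide +kernel)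
def c11168 : PP 9 3 T 0x8000000000000028000000000000000000000000000004000000000000000000000000000000000000000000040000000800000000000000000000200000 := rS 0x14a4867423a1acfb7e70055ab56ab17fc0d67b67ec555ea9 (k8 c5489 c5406 c5414 c5405 c9724 c5574 c5508 c5586 (k8 c5421 c5422 c5573 c5413 c3623 c5592 c10275 c5337 (k4 c5377 c183 c5523 c11165 (k2 c5221 c9924 k0)))) (by decide +kernel)
def c11169 : PP 9 3 T 0x20000000000000000000000000000000000000000000000000000000000000000000000002000000000000000000000000000000200000 := rS 0xa504743b6 (k4 c9724 c5377 c183 c10190 (k1 c9924 k0)) (by decide +kernel)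
def c11170 : PP 9 3 T 0x1000400000000001000011000000000000000000080004000100000000000000000000000000000000000000000400000000000000000000000000201400 := rS 0x7b1c81da234420cd9a872e0ecb21d2d99f64c7c9010aed76afb81e37 (k8 c5518 c5329 c11166 c5585 c5507 c9760 c9725 c10195 (k8 c5357 c11134 c5487 c715 c5486 c313 c10906 c5644 (k8 c9480 c8541 c383 c5672 c11153 c1704 c1618 c440 (k2 c848 c10699 k0)))) (by decide +kernel)
def c11171 : PP 9 3 T 0x400000000021000010000000000000000000080004000100000000000000000000000000000000000000000000000000000000000000000000200400 := rS 0x22486cc1c4e75934804ce8df6834420435a2e3a8348c0156ad5aac5ff03f72cf6cfd8aabd53b2 (k8 c11134 c5489 c5406 c5414 c5405 c9724 c5574 c11166 (k8 c5508 c5586 c5421 c5422 c5573 c5413 c3623 c11169 (k8 c1978 c11143 c854 c11168 c9725 c5528 c315 c10275 (k8 c5505 c5487 c9723 c9744 c5337 c9717 c9720 c11170 (k2 c10430 c10434 (k1 c958 k0)))))) (by decide +kernel)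
def c11172 : PP 9 3 T 0x400000000021000000000000000000000000080004000100000000000000000000000000000000000000000000000000000000000000000000200400 := rS 0x1c81d9a341997332873de706e0fac804763f2c874b66763e48aed76a834420435a2e3a8348c0156ad5aac5ff03f72cf6cfd8aabd53b2 (k8 c11134 c5489 c5406 c5414 c5405 c9724 c5574 c11166 (k8 c5508 c5586 c5421 c5422 c5573 c5413 c3623 c11169 (k8 c1978 c11143 c854 c11168 c9725 c5528 c315 c5585 (k8 c5507 c9760 c10195 c5357 c5487 c715 c5486 c313 (k8 c403 c10906 c9723 c5337 c5329 c5518 c11171 c5372 (k8 c5373 c10430 c5644 c383 c11153 c11156 c1618 c440 (k1 c10699 k0))))))) (by decide +kernel)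
def c11173 : PP 9 3 T 0x400000000001000000000000000000000000000000000100000000000040000000000000000000000000000000000000000001000000000000200000 := rS 0x6e071a0cc1e393dbcb39e0a5bd7e60d807b4431555ed017a1acacd62b556ed876af7eaa4b667d931f24042bc75af036abffdd3b (k8 c11142 c11166 c5586 c5585 c5508 c5507 c11143 c9760 (k8 c9725 c10195 c5357 c11134 c5487 c715 c5489 c5405 (k8 c5406 c10906 c9724 c5573 c5422 c5421 c5574 c5337 (k8 c5377 c11164 c11167 c5413 c5414 c5528 c10275 c3623 (k8 c315 c5592 c1928 c11172 c5165 c5221 c5657 c5457 (k4 c5534 c5369 c387 c11153 (k2 c1618 c1622 (k1 c10699 k0)))))))) (by decide +kernel)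
def c11174 : PP 9 3 T 0x2000000000000200000 := rS 0x1d9c (k2 c10687 c507 (k1 c5369 k0)) (by decide +kernel)
def c11175 : PP 9 3 T 0x28000020000000000000000000000004000000000000010000000000000000000000000000000000000000000000000000000000200000 := rS 0xff81fbb331555e86b20159ac56aaddb2bdfa6754a1cd683 (k8 c5525 c5523 c5373 c5489 c5487 c5405 c5406 c9724 (k8 c5573 c5422 c5421 c5574 c9723 c5337 c5377 c5413 (k4 c5414 c10430 c5219 c5508 (k2 c5586 c3623 k0)))) (by decide +kernel)
def c11176 : PP 9 3 T 0x18000020000000000000000000040004000000100000008000000000000000000004000000000000000000000000000000000000200400 := rS 0x210f918d84542974cb9844fbf4359889a402b358ed846047e99d528735a0d1e8b (k8 c854 c5526 c5525 c5523 c5373 c5489 c5487 c5405 (k8 c9725 c9734 c9724 c5421 c5574 c9723 c9744 c9730 (k8 c5337 c5377 c5586 c2839 c5219 c8120 c5361 c5365 (k4 c454 c3601 c11059 c2315 (k2 c2422 c5650 k0))))) (by decide +kernel)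
def c11177 : PP 9 3 T 0x18000020000000000000000000040004000000100000080040000000000000000000000000000000000000000000000000000000200000 := rS 0x207a1743ef3cc11d0becf7fcf43595aed846a92c874b6670203d0e0d41a2c1649 (k8 c11174 c11164 c854 c5525 c5522 c5373 c5369 c9725 (k8 c5487 c715 c5486 c313 c5489 c9734 c9724 c5422 (k8 c5337 c5377 c5550 c5508 c10772 c2630 c2350 c5219 (k4 c5540 c6300 c5361 c3571 (k2 c5650 c2420 k0))))) (by decide +kernel)
def c11178 : PP 9 3 T 0x8000020000000000000000000040004000000101000050000000000000000000004000000000000000000000000000000000000200400 := rS 0x1feb358ad55bb657bf553b5 (k8 c11175 c5489 c5405 c5406 c9724 c5573 c5422 c5421 (k2 c5574 c11176 (k1 c3623 k0))) (by decide +kernel)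
def c11179 : PP 9 3 T 0x5000000000000000000022000000000000000000000004000000100000054000000000000000000000000000000000000000040000000000000000200000 := rS 0x848cd0a1d228347a2cba89 (k8 c5484 c5361 c854 c5526 c5525 c5374 c5373 c5377 (k2 c10832 c9858 (k1 c1929 k0))) (by decide +kernel)
def c11180 : PP 9 3 T 0x20000000000000000000000000000200001000000000000040000040000000000400000000002000004000000000000000200400 := rS 0xe14eb8d32a120248f85e04011669f65ad76c3b3f8e40e37079ec1a79 (k8 c5524 c5522 c5372 c5369 c5435 c5432 c5317 c804 (k8 c10906 c9724 c5422 c5420 c5572 c5574 c9725 c3568 (k8 c5710 c528 c311 c527 c1122 c1520 c1551 c1694 (k2 c1714 c3620 k0)))) (by decide +kernel)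
def c11181 : PP 9 3 T 0x41000400000000001000000040000000000000000000000000000001000010000000040501080000000000400001000000010000000000000000000200000 := rS 0xd364a85a06167b8fc26300a7d96b156ed8fe5757a5d2bb2 (k8 c11134 c5488 c5404 c5406 c9760 c804 c9724 c5573 (k8 c5421 c5420 c5572 c9723 c9755 c5535 c2620 c2560 (k4 c727 c5688 c10309 c10171 (k2 c2135 c3618 k0)))) (by decide +kernel)
def c11182 : PP 9 3 T 0x400000000001000022000000000000000000040004000200101000054000000000001000000000000400000000000000000000400000000000200400 := rS 0x277c29949178da0863b7c95f389355ae8df7224ca85ac924fe572d99c0839039ed0e91069e5068fc983c7637dafb765b6 (k8 c9724 c11134 c6986 c11175 c5435 c10906 c5369 c6200 (k8 c5526 c5525 c5524 c5522 c5374 c5373 c5372 c5432 (k8 c5317 c9725 c5487 c715 c9760 c804 c11174 c5337 (k8 c5365 c5481 c5484 c11179 c5505 c5507 c5585 c8783 (k8 c5547 c5660 c2510 c11181 c3568 c11180 c312 c311 (k4 c1521 c10927 c1694 c10734 k0)))))) (by decide +kernel)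
def c11183 : PP 9 3 T 0x1000400000000001000020040000000000000000000000000000000000000000000000500040000000000400000000000000200000000140000000200440 := rS 0x50b4d925e3a020086300a7d5bb61d9fcaeaf4ba57640f3d834f283 (k8 c5525 c5524 c5522 c5372 c5369 c11134 c5488 c5404 (k8 c5406 c9760 c804 c10906 c9724 c5573 c5572 c9723 (k8 c9755 c9725 c3568 c10480 c312 c1966 c1970 c1122 (k1 c10481 k0)))) (by decide +kernel)
def c11184 : PP 9 3 T 0x1000400000000011000021040000000000000000000004000000001000000000000000001000000000000400000000000000000000000140000000200440 := rS 0x285a6c94e31533e163355ae77f71734359318053eaddb1fcaeaf4ba54b21d2d99f6404 (k8 c9725 c11134 c5487 c715 c5486 c313 c5488 c5404 (k8 c5406 c9760 c804 c9724 c5573 c5572 c9723 c9755 (k8 c5337 c5377 c5644 c5219 c785 c5507 c5585 c11183 (k8 c5535 c2439 c839 c5679 c10110 c8433 c1277 c10481 k0)))) (by decide +kernel)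
def c11185 : PP 9 3 T 0x400000000001000020000000000000000000040000000000101000010040000000000000000000000000000000000000000000000000000000200000 := rS 0x115fc5dcc11d9a9b103c83ef5557b6b2b3db08c083903e4c160f1d8de504981ed677b2 (k8 c11134 c11142 c11175 c11177 c11174 c11173 c5435 c10906 (k8 c5369 c11164 c6200 c5432 c5317 c9725 c9734 c9724 (k8 c5574 c5337 c6986 c11178 c1924 c1085 c5657 c5650 (k8 c7393 c2500 c2422 c11184 c5361 c11182 c454 c11059 k0)))) (by decide +kernel)
def c11186 : PP 9 3 T 0x1000400000000011000000040000000000000000000000000000002000000000000040501080000000000400000000000010000000000000000000200000 := rS 0x50b25a09c30a67c3b6318052fb2 (k8 c11134 c5404 c9723 c9755 c9724 c5535 c2439 c727 (k4 c5679 c11160 c10171 c1278 (k1 c6604 k0))) (by decide +kernel)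
def c11187 : PP 9 3 T 0x400000000001000022000000000000000000000000000000002000050050000040000000000000000400000000000000000000000000000000200400 := rS 0x1a6c9509f0bc0863b55aecdf73cbda8932a14ba9f65ac55bb63f95d2e952c874b667020e40e7b43834f283c983c7637941276b3bf9bfd5fb2 (k8 c11134 c5406 c3010 c5590 c11142 c11175 c11174 c11173 (k8 c5435 c10906 c5369 c6200 c5525 c5524 c5522 c5373 (k8 c5372 c5432 c5317 c9725 c5487 c715 c5486 c313 (k8 c5488 c5404 c9760 c804 c9724 c5573 c5421 c5420 (k8 c5572 c5361 c5365 c5481 c5484 c10910 c3571 c5694 (k8 c2500 c5507 c5585 c11186 c3568 c312 c528 c1122 (k2 c1117 c2827 (k1 c3618 k0)))))))) (by decide +kernel)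
def c11188 : PP 9 3 T 0x1000400000000011000021000000000000000000040000000000002000000050000000000000000000000000000000000000000000000000000000200400 := rS 0x28592d04e31533e166b19e5b6318052e07c983c76374d87dbe4a1cca0925c2d99cb21dd9011aed5f74ef4359 (k8 c5337 c5377 c11142 c5219 c5585 c5507 c9725 c11134 (k8 c5486 c313 c5487 c715 c5644 c11174 c11173 c5317 (k8 c10763 c2510 c1087 c7393 c5435 c10906 c5369 c6200 (k8 c5432 c5404 c9723 c9755 c9724 c5657 c11183 c2500 (k8 c5535 c2439 c839 c5679 c11160 c10110 c1278 c6604 k0))))) (by decide +kernel)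
def c11189 : PP 9 3 T 0x11000001040000000000000000000000000000000000000000000040501080000000000400000000000000200000000000000000200000 := rS 0x285a6c94e31533e1318053eaddb1fd5e974aec8ee57 (k8 c9760 c785 c11134 c5488 c5404 c5406 c804 c9724 (k8 c5573 c5572 c9723 c9755 c5535 c2439 c839 c5679 (k4 c10110 c8433 c1278 c10481 k0))) (by decide +kernel)
def c11190 : PP 9 3 T 0x1000000000000000000000000000000000000000000000000000000500000000000000000000000400000000000000000000000200200 := rS 0xd364a84f85e0227d96b156ed8fe5757a5d2bb2 (k8 c11134 c5488 c5404 c5406 c9760 c804 c9724 c5573 (k8 c5421 c5420 c5572 c9725 c312 c528 c1122 c1118 (k2 c2828 c3618 k0))) (by decide +kernel)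
def c11191 : PP 9 3 T 0x400000000001000020000000000000000000040000000000100000010040000000000000000000000000000000000000000000000000000000200000 := rS 0x3318ac604a17d8d56b9dfdc5cccb7dea9b2507e2903dae86b2572c874b667020e40e7b069e5079305cef640f1d8de5049 (k8 c11174 c11173 c5435 c10906 c5369 c11134 c11142 c11164 (k8 c6200 c5525 c5524 c5522 c5372 c5432 c5317 c9725 (k8 c5487 c715 c5486 c313 c9760 c5337 c5377 c11175 (k8 c11177 c11185 c1087 c10763 c7393 c2594 c2510 c11187 (k8 c5644 c5219 c785 c5507 c5585 c11188 c5541 c11190 (k4 c3568 c838 c11189 c8354 k0)))))) (by decide +kernel)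
def c11192 : PP 9 3 T 0x400000000001000020040000000000000000000000000000000000000000000000501000000000000000000000000000200000000140000000200440 := rS 0x179406169b24e8c563024ef99318053eaddb0ecfe5757a5d2bb2079ec1a79 (k8 c5524 c5522 c5372 c5369 c11134 c5488 c5404 c5406 (k8 c9760 c804 c10906 c9724 c5573 c5572 c9723 c9755 (k8 c5361 c785 c11190 c3568 c839 c5668 c10110 c8433 (k4 c1575 c10481 c5663 c1122 k0)))) (by decide +kernel)
def c11193 : PP 9 3 T 0x1000400000000011000000000000000000000000000000000000000000000000000000501090000000000400005000100000100000000005000000200040 := rS 0x6809681dd9e99f098c023b2ba5cb21d2d99f6404 (k8 c9725 c11134 c5487 c715 c5486 c313 c5404 c9760 (k8 c10906 c9723 c9755 c5535 c2439 c2560 c10798 c11160 (k2 c11190 c3567 (k1 c1704 k0)))) (by decide +kernel)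
def c11194 : PP 9 3 T 0x400000000001000020000000000000000000040000000000100000000040000000000000000000000000000000000000000000000000000000200000 := rS 0x34d92a13e17810c74ded5127532a158b982eb35aa1f797b88ed77afb7e700c982eb2014fb2d62b556ed8767f2babd2efd4a96ccfb2024ec6639038c46f282483cf687069acf283 (k8 c5525 c5524 c5523 c5522 c5373 c5372 c5369 c11174 (k8 c11173 c5435 c5434 c5432 c5317 c5316 c11142 c9725 (k8 c11134 c5487 c715 c5488 c5405 c5404 c5406 c9760 (k8 c804 c10906 c9724 c5573 c5422 c5421 c5420 c5572 (k8 c9723 c5337 c11164 c6200 c11191 c5592 c5502 c1928 (k8 c10483 c2791 c5171 c5657 c6300 c5585 c2500 c11192 (k8 c6013 c5364 c5365 c5481 c5482 c5484 c10430 c7393 (k8 c11193 c3568 c312 c528 c1122 c1117 c2827 c3618 k0)))))))) (by decide +kernel)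
def c11195 : PP 9 3 T 0x1000020000000000000000000040000000000200000000040000000000000000000000000000000000000000000000040000000200200 := rS 0x1fef28a07dc29d6fb8d329b50901247c2f2cd3ecb5a8ecfe57579643a5b338110e0d359e51e1b58edb6b01d91750b98f7cef4359 (k8 c5337 c5377 c11142 c5504 c5219 c5365 c5361 c11134 (k8 c2139 c11175 c9724 c5421 c2161 c5526 c5524 c5523 (k8 c5522 c5373 c9725 c5487 c715 c5486 c313 c5406 (k8 c9760 c804 c10906 c5422 c5420 c5572 c5574 c312 (k8 c528 c311 c527 c1122 c1119 c1520 c1551 c2829 (k4 c1694 c1714 c11120 c3620 (k2 c10900 c3010 (k1 c555 k0)))))))) (by decide +kernel)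
def c11196 : PP 9 3 T 0x100040004000000200000000008000000000000000000000000000000000000000000000000000000000000 := rS 0xf912bdbef (k4 c5504 c5540 c554 c5171 (k1 c5546 k0)) (by decide +kernel)
def c11197 : PP 9 3 T 0x400000000001000020000000000000000000040000000000000000000040000000000000000000000000000000000000000000000000000000200000 := rS 0x3c0a1f1b5081ec1a7cceee18917d324b052762a6c0f2ade6093a9950ac52eed731010dfbe39a1acc44d26300ac56bb62babdfaa92c874b667d901276330385c62371eca0920f43834d683 (k8 c5525 c5523 c5522 c5373 c5369 c11174 c11173 c5436 (k8 c5435 c5434 c5433 c5432 c5316 c11142 c9725 c11134 (k8 c5487 c715 c5486 c313 c5489 c5405 c5406 c9760 (k8 c9724 c5422 c5421 c9723 c9755 c9744 c9730 c5337 (k8 c5377 c11194 c5504 c2161 c2139 c5219 c11175 c5361 (k8 c5364 c5365 c5481 c5482 c11195 c11196 c10863 c10900 (k8 c3601 c1087 c1082 c2315 c2590 c2317 c11120 c926 (k8 c6188 c11141 c5547 c3567 c5171 c552 c553 c5462 (k2 c3000 c6631 (k1 c10925 k0)))))))))) (by decide +kernel)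
def c11198 : PP 9 3 T 0x400000000001000021000000000000000000000004000200000000000000000000000000000000000000000000000000000000000000000000200400 := rS 0xd2f14010315702ad3a9a3e97d88d166025fed581b5cefee2e686b26300acd62b556ed8fe5757a5dfaa92c874b667d901072073d834d683c983c7637 (k8 c5435 c10906 c5369 c6200 c5525 c5523 c5522 c5372 (k8 c5432 c5317 c9725 c11134 c5487 c715 c5486 c313 (k8 c5489 c5405 c5404 c5406 c9760 c804 c9724 c5573 (k8 c5422 c5421 c5574 c9723 c9755 c5337 c5377 c5644 (k8 c5219 c785 c5507 c5508 c5585 c5586 c11190 c11192 (k8 c173 c8354 c1629 c1633 c9123 c168 c1190 c11155 (k4 c8106 c1716 c3623 c5670 (k2 c2077 c5579 k0)))))))) (by decide +kernel)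
def c11199 : PP 9 3 T 0x1000400000000000000000000000000000000000000000000000000000000000000000001010000000000000005005100000154000000545000000005540 := rS 0x6a776833fc2c6 (k4 c3568 c5535 c2560 c5688 (k2 c10798 c1704 (k1 c3567 k0))) (by decide +kernel)
def c11200 : PP 9 3 T 0x8000000000000088000000000000000000000000000000000000000000000000000000040100000000010000000000000000000000000000000000000000 := rS 0x355ae9f56abd2e95 (k8 c5488 c5404 c5406 c5573 c5572 c5507 c5585 c10481 k0) (by decide +kernel)
def c11201 : PP 9 3 T 0x400000000001000020000000000000000000000000000000000000000040000000000000000000000000000000000000000000000000000000200000 := rS 0x401a8d78a3853ad36fb8d92994da8480923e178110366917daf2449d4ca856297730f505d291e79358350e7b07acd3ecb58ad55bb61d9fcaeaf4ba54b21d2d99f64049d8cc7207188de5049 (k8 c11174 c11173 c5435 c5434 c5432 c5317 c5316 c11142 (k8 c9725 c11134 c5487 c715 c5486 c313 c5488 c5404 (k8 c5406 c9760 c804 c10906 c9724 c5573 c5422 c5421 (k8 c5420 c5572 c5574 c5369 c5372 c5373 c5522 c5523 (k8 c5524 c5526 c11197 c5516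 c5519 c11198 c5361 c5364 (k8 c5365 c5481 c5482 c5484 c8145 c10910 c454 c2500 (k8 c2628 c11199 c312 c528 c311 c527 c1122 c1119 (k8 c1520 c1117 c1551 c2829 c2827 c1694 c1714 c3620 (k4 c1549 c3618 c11187 c3072 k0))))))))) (by decide +kernel)
def c11202 : PP 9 3 T 0x1000010000000000000000000000000000000200000000008000000000000000000000000001000000000900000000100000000200000 := rS 0x36be14d880d4c70644d22fe2503f420430e4d427f2ba0597b6 (k8 c9724 c5420 c1746 c9760 c804 c1122 c5439 c62 (k8 c9725 c5377 c445 c554 c555 c904 c2570 c11050 (k4 c2480 c316 c315 c1120 (k2 c10931 c5528 (k1 c5235 k0))))) (by decide +kernel)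
def c11203 : PP 9 3 T 0x1000010000000000000000000000000000000000000000044000000000000000000000000001400000000900000000000000004204000 := rS 0x8636034d69bf06d5ea0b0fd2922f101c4402237eaa4b21d2d99f640430e4d427f2ba0597b6 (k8 c9724 c5420 c1746 c9760 c804 c1122 c5439 c62 (k8 c9725 c11134 c5487 c715 c5486 c313 c5489 c5405 (k8 c9734 c9723 c9730 c9722 c9697 c904 c6008 c5517 (k8 c5516 c5519 c5816 c5235 c8100 c10931 c316 c5665 (k2 c3571 c744 k0))))) (by decide +kernel)
def c11204 : PP 9 3 T 0x40000000800000001000000000208000 := rS 0x25ed29793 (k4 c5439 c5329 c9737 c10387 (k1 c11127 k0)) (by decide +kernel)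
def c11205 : PP 9 3 T 0x4000000100000000000000000000000000000000000200000000000140000000000000000200000 := rS 0x87ef (k2 c5505 c1929 (k1 c9858 k0)) (by decide +kernel)
def c11206 : PP 9 3 T 0x1000002000000000000000000000000000200000000000000000000000000000000000000000000000000800000080000000000200000 := rS 0x3ef8da4d56be853ead57a5d2bb2188f726a13f95d02cbdb2259265 (k8 c5481 c1117 c5484 c9724 c5420 c1746 c9760 c804 (k8 c1122 c5439 c5436 c5434 c11134 c5488 c5404 c5406 (k8 c5573 c5572 c5377 c1933 c2778 c10481 c6616 c2827 (k1 c5670 k0)))) (by decide +kernel)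
def c11207 : PP 9 3 T 0x400000000001000000000000000000000000000000000000000000000044000000000000000000000000000000000000900000000000000000200000 := rS 0x7df1b49abee21c7434c944a0cca85cc685625b33ec8093bcee4d428165ed81e3d94124fe57 (k8 c9760 c804 c11174 c11173 c5436 c11204 c9724 c5420 (k8 c1746 c1122 c5439 c11201 c11142 c9725 c11134 c5487 (k8 c715 c5421 c5377 c6013 c5365 c5481 c5483 c5484 (k8 c1117 c11203 c2161 c11206 c9858 c5585 c11200 c6616 (k2 c2827 c5670 k0))))) (by decide +kernel)
def c11208 : PP 9 3 T 0x1000000000000000000000000000004000000000000000000000000000000000000000000000000000000a00000000000000000200000 := rS 0xd364fb8ef99d0d676c6300e4d427f2bb152fb2 (k8 c11134 c5404 c1629 c9760 c804 c1122 c5439 c9723 (k8 c9755 c9724 c5337 c5377 c5361 c785 c5219 c10110 (k2 c8433 c11200 k0))) (by decide +kernel)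
def c11209 : PP 9 3 T 0x400000000001000000000000000000000000000000000000000000000040000000000000000000000000000000000000800000000000000000200000 := rS 0x1f7c6d26afb9931d21a24ca8579660ba8150e4f42cbdb1fcae5b33ec8093b1cca0939d (k8 c11201 c11174 c11173 c5317 c11142 c9725 c11134 c5487 (k8 c715 c9760 c804 c9724 c5420 c5377 c5439 c1122 (k8 c1746 c11208 c6013 c11207 c5365 c5481 c5484 c11206 (k8 c11202 c1117 c9858 c5585 c11200 c6616 c2827 c5670 k0)))) (by decide +kernel)
def c11210 : PP 9 3 T 0x1000400000000000000000000000000000000000000000000000000000000000000000011010000000000000000008000000000000000000000000000000 := rS 0x19fe1 (k2 c5457 c1648 (k1 c5688 k0)) (by decide +kernel)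
def c11211 : PP 9 3 T 0x1001400000000001000010000000000000000000000000000000000000000000000000011000000000000000001004000000400000000140000000205440 := rS 0x3064d8ece318047657 (k8 c9760 c10906 c9723 c9755 c5688 c2560 c10699 c5663 (k1 c10425 k0)) (by decide +kernel)
def c11212 : PP 9 3 T 0x8000400000000001000010000000000000000000000004000000000000000008000000010000000000000000000000000000500000000140000000200440 := rS 0x603c64d8fe03d834d6916683fda63008ecae0945b150b982d99f6404 (k8 c9725 c11134 c5487 c715 c6013 c5365 c5364 c853 (k8 c312 c9760 c10906 c9723 c9755 c5540 c445 c2500 (k8 c904 c11165 c316 c11210 c11211 c5535 c10699 c3568 (k2 c5663 c1578 k0)))) (by decide +kernel)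
def c11213 : PP 9 3 T 0x8000000000000008000010000000000000000000000004000000000000000044000000000000000000000000000000000000100000000000000000205000 := rS 0x20115da2ae266d35a1bda7139d66226900acd62b556ed95efd549643a8b4299507982d99d1b037f82e3a4948bd69404 (k8 c9725 c6008 c5519 c904 c11174 c5504 c11164 c5586 (k8 c5508 c5505 c5487 c715 c6013 c5483 c5481 c5365 (k8 c853 c5486 c313 c5489 c5405 c5406 c9724 c5573 (k8 c5422 c5421 c5574 c9723 c9744 c9730 c5337 c9717 (k8 c9720 c10910 c3571 c11165 c744 c958 c9859 c5665 (k2 c5414 c3623 (k1 c10434 k0))))))) (by decide +kernel)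
def c11214 : PP 9 3 T 0x8000000000000008000010000000000000000000000004000000000000000044000000000000000000000000000000000000100000000000000000204000 := rS 0x200ab471a8da0c4880e220158ed95efd32a27305b3381206ff (k8 c5586 c5508 c9725 c5487 c715 c6013 c5484 c5481 (k8 c5405 c5406 c9724 c5421 c9723 c9730 c9722 c904 (k4 c11213 c2427 c316 c532 (k2 c9859 c8602 (k1 c2848 k0))))) (by decide +kernel)
def c11215 : PP 9 3 T 0x8000400000000001000000000000000000000000000000000000000000000040000000000000000000000000000000000000100000000000000000200000 := rS 0x80c55564bda52c1cf305bfe071d59ac56aaddb2bdfaa91c81c6f9d688d0eb989d9dcc6012bca0925b33824be590eec8083b (k8 c10906 c9725 c11134 c5486 c313 c11209 c312 c5487 (k8 c715 c11174 c11173 c9760 c9723 c9755 c11141 c11142 (k8 c6013 c5482 c10209 c1704 c11201 c5435 c5432 c5317 (k8 c5489 c5405 c5406 c9724 c5573 c5422 c5421 c5574 (k8 c5504 c5508 c5586 c11164 c11212 c11214 c5329 c9737 (k4 c10387 c5413 c5414 c10769 (k1 c3623 k0))))))) (by decide +kernel)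
def c11216 : PP 9 3 T 0x8000010000000000000000000000004000000000000000044000000000000000000000000000000000000000000100000000000208000 := rS 0xf47f7b607018aaafe44bda52f435959ac56aaddb2bdfaa9 (k8 c5489 c5405 c5406 c9724 c5573 c5422 c5421 c5574 (k8 c5337 c5377 c5329 c9737 c10387 c5221 c5413 c5414 (k4 c10769 c5550 c6986 c3623 (k2 c5657 c2342 k0)))) (by decide +kernel)
def c11217 : PP 9 3 T 0x400000000001000000000000000000000000000000000000000000008044000000000000000000000000000000000000100000000000000000200000 := rS 0x3de499ac7409f7c6866a1001b1c2192fdba1ac9fc72071bb150a83688d0eb983b98c025794124b6670497cb21d1dfbc16f523d281e459decb3a04 (k8 c9725 c11201 c11134 c11142 c454 c11216 c6008 c5520 (k8 c5519 c5516 c11215 c10906 c5486 c313 c11209 c312 (k8 c5487 c715 c11174 c11173 c9760 c9723 c9755 c11141 (k8 c6013 c5482 c10209 c1704 c5483 c5365 c5364 c5435 (k8 c5432 c5317 c804 c5337 c5377 c5544 c2568 c2781 (k8 c11059 c531 c5281 c553 c3571 c5462 c1545 c1658 (k4 c798 c2073 c5670 c11210 (k1 c10699 k0)))))))) (by decide +kernel)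
def c11218 : PP 9 3 T 0x400000000001000000000000000000000000000000000000000000000044000000000000000000000000000000000000100000000000000000201000 := rS 0x46c022b13351f4c078c99ed56cd639b60686f69c4e759889a53eb156ed95efd1c81c6e8b62a14ca83688d0eb983b98c025794124b6670497cb21d1da4416f5a503c8b3bd967408ff (k8 c11217 c9725 c11201 c11134 c11142 c454 c11216 c6008 (k8 c5519 c5516 c904 c10906 c5486 c313 c11209 c312 (k8 c5487 c715 c11174 c11173 c9760 c9723 c9755 c11141 (k8 c6013 c5482 c10209 c1704 c5483 c5481 c5365 c5364 (k8 c853 c5435 c5432 c5317 c5405 c5406 c9724 c5573 (k8 c5421 c5572 c9744 c9730 c5337 c9717 c9720 c10910 (k8 c3571 c10690 c744 c798 c2073 c9859 c11210 c10699 (k8 c3568 c5663 c1579 c1578 c2603 c1140 c8602 c2142 (k1 c10434 k0))))))))) (by decide +kernel)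
def c11219 : PP 9 3 T 0x400000000001000000000000000000000000000000000000000000000044000000000000000000000000000000000000100000000000000000200000 := rS 0x10380aae2a8e351b418ff0884eb2038880566b15aab76caf7eaa73a6541a27313b2d99f6404 (k8 c9725 c11134 c5487 c715 c11142 c6013 c5484 c5483 (k8 c5481 c11201 c5489 c5405 c5406 c9724 c5573 c5422 (k8 c5421 c5574 c9723 c9730 c9722 c5337 c184 c183 (k8 c11217 c11218 c2427 c316 c532 c10439 c9859 c2848 (k2 c2405 c3623 k0))))) (by decide +kernel)
def c11220 : PP 9 3 T 0x8000010000000000000000000000000000000000000044000000000000000000000000001010000000010000000000000000000202000 := rS 0x200ab471a8da030244402b1db2bdfa67 (k8 c5487 c5405 c5406 c9724 c5421 c9723 c9730 c9725 (k4 c9722 c2427 c316 c532 (k2 c9859 c8602 (k1 c2848 k0)))) (by decide +kernel)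
def c11221 : PP 9 3 T 0x4000400000000001000010000000000000000000000004000000000000004008000000010000000000000000000000000000500000000140000000200040 := rS 0x8ac4cd47d302acf19336b1fc00d46c74e273acc44d2b34fac55bb61d95d5efd54824ee6300a2cca754482d0b0322a441e7b66fb58b982d99f6404 (k8 c9725 c11134 c5487 c715 c6013 c5364 c5540 c2500 (k8 c11210 c445 c904 c454 c2628 c5365 c2530 c5484 (k8 c5482 c5481 c853 c9723 c9755 c11141 c312 c5489 (k8 c5405 c5406 c9760 c10906 c9724 c5573 c5421 c5572 (k8 c5574 c9744 c9730 c5337 c9717 c9720 c555 c11205 (k8 c11220 c11211 c5535 c5710 c10699 c3568 c9859 c5663 (k4 c1579 c1578 c2603 c1140 (k1 c10437 k0)))))))) (by decide +kernel)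
def c11222 : PP 9 3 T 0x400000000001000000000000000000000000000000000000000000000040000000000000000000000000000000000000100000000000000000200000 := rS 0xf298c91abc081067ccfbe36a128811c21c4e2afe23d29230307fb5e5ef688d0ea8562e608ba1acacd3ecb5aed8767f2babcb21d2dcec72071bca0939d04810ee5f33ec8c601 (k8 c9723 c9755 c11134 c5487 c11209 c11141 c9725 c312 (k8 c11201 c11174 c11173 c5435 c5432 c5317 c11142 c715 (k8 c5486 c313 c5406 c9760 c804 c10906 c9724 c5422 (k8 c5420 c5572 c5574 c5337 c5377 c454 c6013 c5364 (k8 c5365 c5482 c10209 c1704 c11215 c11219 c5540 c445 (k8 c2628 c904 c6008 c5520 c11221 c3010 c2570 c2780 (k8 c11059 c5281 c554 c553 c5462 c1545 c5546 c11050 (k4 c1658 c5204 c316 c5670 (k2 c10677 c5441 (k1 c2373 k0)))))))))) (by decide +kernel)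
def c11223 : PP 9 3 T 0x80000000000000000000000000000000000000000000000000000000000000000000004000000004000000540000000005440 := rS 0xc7 (k2 c5357 c10699 k0) (by decide +kernel)
def c11224 : PP 9 3 T 0x1000400000000001000011000000000000000000000000000000000000000000000000010000000000000000002000000000400000000140000000205440 := rS 0x18ac73af80c1933d8ecae952c874087733ec8c601 (k8 c9723 c9755 c11134 c5487 c11141 c9725 c5486 c313 (k8 c5488 c9760 c10906 c848 c11223 c5663 c5185 c1575 (k2 c5535 c10431 (k1 c5668 k0)))) (by decide +kernel)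
def c11225 : PP 9 3 T 0x8000000000000001000000080000000000000000000000000200001000010000000000021000000000000000000000000400000000000000000000200400 := rS 0x285929cdaaa9a6b358ad55bb62babdfaa9d940dfec7 (k8 c5357 c5586 c5508 c11134 c5489 c5405 c5406 c9760 (k8 c9724 c5573 c5422 c5421 c5574 c2135 c3623 c5413 (k4 c11139 c1276 c1277 c11200 k0))) (by decide +kernel)
def c11226 : PP 9 3 T 0x8000000000000001000010080000000000000000000000000200001000000000000000021000000000000001400008000400000000000000000000200400 := rS 0x6d1549d6426942d37044be700d0a7d5bb62babd2e95d935daac7 (k8 c5357 c5585 c5507 c11134 c5488 c5404 c5406 c9760 (k8 c9724 c5573 c5572 c5377 c11225 c5592 c5675 c957 (k8 c3063 c3060 c10790 c10481 c168 c2133 c11139 c5413 k0))) (by decide +kernel)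
def c11227 : PP 9 3 T 0x400000000001000011000000000000000000000004000200000000000008000000000000000000000000000000000000400000000000000000200400 := rS 0xd34db80d912dafce287a63e4bc2d047a11060d35a450e0f66fb76d11008ecaeaf4ba54b667d901072071bb5d16d57ffbb4359 (k8 c5337 c5377 c5219 c5586 c5585 c5583 c5507 c5435 (k8 c5432 c5317 c9725 c11134 c5487 c715 c5488 c5404 (k8 c5406 c9760 c10906 c9723 c9730 c9724 c5540 c2500 (k8 c9180 c9480 c904 c11165 c316 c2390 c5672 c2546 (k8 c11224 c5459 c5185 c5357 c11223 c11226 c5590 c5414 (k4 c5675 c5665 c957 c2492 (k2 c3063 c10790 k0))))))) (by decide +kernel)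
def c11228 : PP 9 3 T 0x9000400000000001000011000000000000000000000000000200000000000000000000020000000000000000004000000400000000000000000000205400 := rS 0x1a69b701b225b5f9c511e84419e8eac7c9337c3a1db444023b2babd2e95d90e40e376bb55fe91 (k8 c904 c5586 c5585 c5507 c5435 c5432 c5317 c11134 (k8 c5488 c5404 c5406 c9760 c10906 c9723 c9730 c9724 (k8 c5377 c5459 c173 c5185 c5357 c5440 c11223 c1975 (k8 c5672 c2546 c11226 c5590 c5414 c5675 c5665 c957 (k2 c2492 c3063 (k1 c10790 k0)))))) (by decide +kernel)
def c11229 : PP 9 3 T 0x8000000000000000000000000000000000000000000044000000000000000000000000001000800000400000000000000000000200000 := rS 0x229b480aae220159ac56aaddb2bdfaa9 (k8 c5489 c5405 c5406 c9724 c5573 c5422 c5421 c5574 (k4 c9723 c9730 c1974 c1978 (k2 c8722 c3623 (k1 c5414 k0)))) (by decide +kernel)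
def c11230 : PP 9 3 T 0x9000400000000001000011000000000000000000000000000200000000000000000000000000000000000000004000000400400000000000000000205400 := rS 0x108d11c81c6e8348bfe07b2 (k8 c11134 c5508 c5586 c904 c11229 c5435 c5432 c5317 (k2 c11228 c5672 (k1 c11224 k0))) (by decide +kernel)
def c11231 : PP 9 3 T 0x11000000080000000000000000000000000200000800054000000000514000000004000000000000002400000000000000000000205400 := rS 0xa164a67c29b6fa70f4c7888053eb1db0ecaeaf4bbf52aa9d90e40e37 (k8 c5435 c5432 c5317 c11134 c5489 c5488 c5405 c5404 (k8 c5406 c9760 c10906 c9724 c5421 c5572 c9723 c9730 (k8 c5357 c11223 c11139 c2512 c2492 c5457 c1594 c1275 (k2 c1278 c8633 k0)))) (by decide +kernel)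
def c11232 : PP 9 3 T 0x8000400000000001000011000000000000000000000000000200000000000000000000000000000000000000004000000400400000000000000000205400 := rS 0xf6c7f064cd91247ed7e71467c05a2abf6684091100ac76c3b2babd53b21c81c6ed781b55fe91 (k8 c904 c5586 c5585 c5508 c5507 c5435 c5432 c5317 (k8 c11134 c5489 c5406 c9760 c10906 c9724 c5421 c9723 (k8 c9730 c9725 c5377 c11230 c5500 c5501 c5502 c5543 (k8 c10275 c5590 c5414 c2845 c5675 c5665 c11231 c5235 (k2 c5535 c5457 (k1 c5710 k0)))))) (by decide +kernel)
def c11233 : PP 9 3 T 0x400000000001000000000000000000000000000000000000000000000040000000000000000000000000000000000000000000000000000000200000 := rS 0xabf6454d491438341ef305a2c8b038efbb325c2fe7651a1acac76c4957aa7653b (k8 c11142 c11134 c5489 c5406 c11174 c9724 c5421 c5337 (k8 c5377 c11173 c11201 c11209 c11222 c5361 c5219 c5504 (k8 c5508 c5582 c5583 c11164 c11227 c11216 c422 c896 (k4 c904 c11232 c1140 c11165 (k2 c1138 c10275 k0))))) (by decide +kernel)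
def c11234 : PP 9 3 T 0x4000000000000080000000000000000000000000001000000000800000000000000000000200000 := rS 0x20b308ef7fcf4359cec4d6bb6 (k8 c9724 c5422 c2600 c5523 c5337 c5377 c5550 c5508 (k4 c5675 c5219 c2405 c5483 k0)) (by decide +kernel)
def c11235 : PP 9 3 T 0x2000000000000088000000000000000000000000000000000000001000040000000000000000000000000000000000000000000000000000000000000000 := rS 0x55ac55ea9 (k4 c5489 c5406 c5421 c5500 (k1 c10275 k0)) (by decide +kernel)
def c11236 : PP 9 3 T 0x8000000000000000000000000000000000000200000000050000000000000000004000001000000000800000000000000000040201000 := rS 0xf22588742f10188c08fd0eaa73b135a86d63b6 (k8 c9724 c5421 c2161 c5422 c2600 c5523 c5489 c5486 (k8 c5405 c9725 c9734 c9722 c9697 c5377 c2371 c11050 (k2 c3581 c554 k0))) (by decide +kernel)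
def c11237 : PP 9 3 T 0x1000002000000000000000000080000000100000000000040000400000000000000000000000000000800000000040000000000202000 := rS 0x134996fa4d42603c8f0fa5f04e482619019a4c6014fed8ae974a9643a5b33ec8093b628d4667764f783e472e994ea89 (k8 c5484 c5482 c5481 c5361 c5520 c5517 c11233 c5494 (k8 c5493 c5492 c5450 c5451 c11142 c9725 c11134 c5487 (k8 c715 c5486 c313 c5488 c5404 c9760 c9724 c5572 (k8 c9723 c9755 c9744 c9722 c9701 c184 c10195 c9669 (k8 c9668 c8164 c11084 c5441 c3597 c2767 c1569 c2770 (k2 c2373 c10949 (k1 c6036 k0))))))) (by decide +kernel)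
def c11238 : PP 9 3 T 0x1000002000000000000000000000000000000000000008040000000000000000000000000000000000800000000000000000000204000 := rS 0x17c1039943c8940c71c7087592b9643a35679dfbc857e87dea47a52afdb038aa476d9d2d99f64049d9d48a5d (k8 c5361 c454 c5482 c11142 c9725 c11134 c5487 c715 (k8 c5523 c9724 c904 c1140 c11234 c11235 c10433 c6008 (k8 c5520 c5519 c5517 c5405 c2542 c11233 c5493 c5453 (k8 c5450 c5486 c313 c9760 c5337 c2780 c11059 c2574 (k8 c11236 c531 c2568 c11237 c5317 c10209 c11202 c312 k0))))) (by decide +kernel)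
def c11239 : PP 9 3 T 0x12000000000000000000000000000000001400020000000000000000000150000000040000050140000000000000000000000000 := rS 0x8c (k2 c10434 c2142 k0) (by decide +kernel)
def c11240 : PP 9 3 T 0x1000002000000000000000000000000000000000000000040000000000000000000000000000000000800000000000000000000204000 := rS 0x200ff459c4e7593480562ad57bf626b555fb6071548edb3a5b33ec8093b (k8 c11142 c9725 c11134 c5487 c715 c5523 c9724 c904 (k8 c1140 c11234 c11235 c10433 c5422 c2600 c5405 c5406 (k8 c5573 c5421 c9723 c9744 c5337 c9717 c9720 c5366 (k2 c11238 c8602 (k1 c11239 k0))))) (by decide +kernel)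
def c11241 : PP 9 3 T 0x1000000000000000000000000000000000000000000000040000000000000000000000000000000000800000000000000000000204000 := rS 0x45fbb33ed81c5523a1acedb653b (k8 c11142 c11134 c9724 c5337 c5377 c904 c1140 c11234 (k4 c11235 c11240 c5219 c5583 (k1 c11165 k0))) (by decide +kernel)
def c11242 : PP 9 3 T 0x1000000000000000000000000000000000000000000000040000000000000000000000000000000000800000000000000000000200000 := rS 0x3cc8a5dcc7b6071555a47694b0767563b657aa7653b (k8 c11142 c11134 c5489 c5406 c9724 c5421 c5523 c11241 (k8 c5329 c9737 c10190 c5413 c5414 c11234 c10275 c9180 (k4 c5361 c454 c445 c11216 k0))) (by decide +kernel)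
def c11243 : PP 9 3 T 0x8000000000000000000000000000004000000000000000040000000000000000000000000000000000000100000000000000000208000 := rS 0x3cf3a45 (k4 c454 c5369 c445 c11216 k0) (by decide +kernel)
def c11244 : PP 9 3 T 0x8000012000000000000000000000004000000001000020040000000000000000000000000008000000000000000000000000000200000 := rS 0x8d89474e273ac9a402b156ed95e5b33810ba8b (k8 c5366 c5361 c9725 c5487 c715 c5406 c9724 c5573 (k8 c5421 c9723 c9744 c5337 c9717 c9720 c2139 c11239 (k2 c11205 c958 k0))) (by decide +kernel)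
def c11245 : PP 9 3 T 0x8000012000000000000000000000004000000001000000048000000000000000004000001008000000000000000000000000000201000 := rS 0x971c89bfa03a1acacd62b556ed95efd5491e940f0240c8a5d (k8 c5361 c454 c2628 c9725 c11243 c6008 c5520 c5489 (k8 c5405 c5406 c9724 c5573 c5422 c5421 c5574 c5337 (k4 c5377 c11244 c3623 c959 (k2 c11059 c11050 (k1 c554 k0))))) (by decide +kernel)
def c11246 : PP 9 3 T 0x12000000000000000000000004000000000000008008000000000000000000000001000000000000000000400000000000201000 := rS 0x25c7227a1aca148a5d (k8 c5361 c454 c5365 c5337 c5377 c2570 c11059 c11050 (k1 c554 k0)) (by decide +kernel)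
def c11247 : PP 9 3 T 0x8000800000000001000002000000000000000000000000000000000000000000000000000000000000000000000000000000000000000000000000200000 := rS 0x24a52300b82540d700ed832031f95d2a590e96ccfb2020d5aa7764b4cba75 (k8 c5482 c5361 c5496 c5494 c5493 c5454 c5450 c9725 (k8 c11134 c5487 c715 c5486 c313 c5488 c9760 c403 (k8 c9722 c9701 c9724 c9723 c5507 c11200 c11190 c1069 (k4 c9174 c10209 c5648 c1565 k0)))) (by decide +kernel)
def c11248 : PP 9 3 T 0x800000000001000002000000000000000000000000000100000000000000000000000000000000020000000000000000000000000000000000200000 := rS 0x921800432031f95d2a590e96ccfb202174ea09 (k8 c9669 c5482 c5361 c9725 c11134 c5487 c715 c5486 (k8 c313 c5488 c9760 c403 c9722 c9701 c9723 c9174 (k2 c8159 c1565 k0))) (by decide +kernel)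
def c11249 : PP 9 3 T 0x800000000000000002080000000000000000000000000000000000000000000000000000000000000018000000000000054000000000000000000001 := rS 0xc40ec51a8ccba75 (k8 c5482 c5361 c5492 c5450 c5451 c1564 c1565 c10897 k0) (by decide +kernel)
def c11250 : PP 9 3 T 0x1000002000000000000000000000000000100000000000040000000000000000000000000004000000000000000000000000000200000 := rS 0x1bf1c1e10c821649b5942f27191dea0ba5784f392ac864071165ab47e5757a5552590e96dabe3db03408850797677efef6d4026735a0dfbb2 (k8 c11134 c5405 c5483 c11242 c5487 c9723 c10430 c11233 (k8 c11247 c11142 c5361 c11243 c5365 c9725 c316 c9724 (k8 c6601 c5454 c715 c5486 c313 c5489 c5488 c5406 (k8 c9760 c403 c5573 c5420 c9730 c9722 c9701 c5337 (k8 c10195 c5441 c10651 c5225 c5516 c5519 c5520 c11064 (k8 c3571 c11248 c9031 c11249 c5648 c9012 c1934 c5655 (k2 c9858 c2770 (k1 c8251 k0)))))))) (by decide +kernel)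
def c11251 : PP 9 3 T 0x800000000001000000000000000000000000000000000000000000000000000000000000000000000000000000100000000000000000000000200200 := rS 0x6b1f1aa77 (k4 c5493 c5454 c528 c11190 (k1 c1549 k0)) (by decide +kernel)
def c11252 : PP 9 3 T 0x1000002000000000000000000000000000000000000000040000000000000000000000001000000000000000000000000000000200000 := rS 0x1e5150faaf681ba53d4db9d49a194392948241e7532975e20388804465757bf52aa92c874b667d94ec6a77ef034d604 (k8 c9725 c11242 c316 c11233 c5493 c5450 c11142 c11134 (k8 c5487 c715 c5486 c313 c5489 c5488 c5405 c5406 (k8 c9760 c9734 c9723 c9730 c9722 c9697 c5361 c5481 (k8 c5482 c11243 c11251 c10209 c10195 c11248 c11250 c11249 (k8 c5373 c744 c1921 c8435 c11082 c5665 c9859 c5517 (k2 c5414 c5816 (k1 c11245 k0))))))) (by decide +kernel)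
def c11253 : PP 9 3 T 0x1000000000000000000000004000000000000000000000000000000000000000000008000000000040000000000000000000000 := rS 0x3db9d (k2 c5373 c5499 (k1 c9480 k0)) (by decide +kernel)
def c11254 : PP 9 3 T 0x1000011000000000000000000000000000100000000000040000000000000000000000000000000000000000000000000000000200000 := rS 0x38a95e1807b5331555ed166b15aab55efd54b34d65f03970b6672c8758b037f82e3a4963e48089d4938481e31f95c7aa0f74ef435964b4fbdb2db064063b (k8 c10906 c9722 c9701 c9724 c11134 c11233 c5496 c5494 (k8 c5337 c5377 c11142 c5219 c11200 c2767 c9760 c403 (k8 c6601 c5655 c1714 c8159 c1694 c9725 c10195 c5357 (k8 c11174 c5504 c11164 c5586 c5508 c5451 c5486 c313 (k8 c5487 c715 c5644 c821 c11208 c11242 c5495 c5489 (k8 c5405 c5406 c5573 c5422 c5421 c5574 c11146 c5413 (k8 c5414 c5530 c10275 c3623 c6325 c5218 c9158 c11064 k0))))))) (by decide +kernel)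
def c11255 : PP 9 3 T 0x1000001000000000000000000080000000100000000000040000000000000000000000000000000000000000000000000000000200000 := rS 0x45557014d78470e31bacd62b556abdfaa9069ac0e5c2d99cb21d62c0dfe0b8e92524c7c9011c240f18fcae3d507ba77a1acb25a7ded96d832031d83cf79c (k8 c11254 c5372 c5369 c10906 c9722 c9701 c9724 c11134 (k8 c11233 c5496 c5494 c5337 c5377 c11142 c5219 c11200 (k8 c2767 c9760 c403 c6601 c5655 c1714 c9725 c10195 (k8 c5357 c8159 c11174 c5504 c11164 c5586 c5508 c5451 (k8 c5486 c313 c5487 c715 c5644 c821 c11242 c316 (k8 c5489 c5405 c5406 c5573 c5422 c5421 c5574 c5518 (k8 c11064 c10699 c5534 c325 c9158 c1189 c1192 c3623 k0))))))) (by decide +kernel)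
def c11256 : PP 9 3 T 0x1000000000000000000000000000000000100000000000040000000000000000000000001000000000000000000000000000000200000 := rS 0x7b1e6f51b21073e0a59ec1f9c189d4f2c74964832031d8fcae95679dd9a0d03b14125c2d99cb21d020d540c969f7b6c0b8e92506ff35c0fdd999de86b3b2 (k8 c11134 c5337 c5377 c11142 c11252 c5219 c5508 c11242 (k8 c5586 c11229 c11174 c5504 c11164 c9724 c11233 c5496 (k8 c5494 c11200 c5450 c9725 c5486 c313 c5487 c715 (k8 c5644 c420 c5451 c821 c316 c5495 c5493 c5453 (k8 c5488 c9760 c403 c10906 c9722 c9701 c10195 c8159 (k8 c5357 c5441 c5440 c1565 c11254 c5369 c5372 c11255 (k8 c9007 c5534 c8115 c3568 c2335 c2535 c5657 c5541 k0))))))) (by decide +kernel)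
def c11257 : PP 9 3 T 0x80008000000000a8000000000000000000000000000000000000000000000000000000000000000000000000000000000000000000000000000000000000 := rS 0x6ffce011555acd3ecb58ad55aaf4bbf52aa969b5e06ff (k8 c5586 c5508 c5507 c5496 c5489 c5488 c5405 c5404 (k8 c5406 c5573 c5422 c5421 c5420 c5572 c5574 c5413 (k4 c5414 c3623 c5592 c2952 (k1 c8572 k0)))) (by decide +kernel)
def c11258 : PP 9 3 T 0x800000000001000000000000000000000000000000000000000000044000000000000080000000000000000010000000400000000000000000200000 := rS 0x4062aab70b7934803064cf7a13180566b15aab4fe5757bf552c969f8f65b6 (k8 c9724 c11134 c6601 c5496 c5494 c5489 c5405 c5406 (k8 c9760 c804 c5573 c5422 c5421 c5574 c9723 c9755 (k8 c5377 c162 c5357 c5663 c5670 c727 c941 c1716 (k4 c1189 c1192 c2952 c3623 k0)))) (by decide +kernel)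
def c11259 : PP 9 3 T 0x1000000000000000000000000000000000000000000000000000000000040000000000000000004000400400000000140000000204540 := rS 0x61c99e0c6011d95c1a04 (k8 c9725 c316 c9760 c10906 c9723 c9755 c3568 c11223 (k2 c1578 c5663 k0)) (by decide +kernel)
def c11260 : PP 9 3 T 0x1000000000000000000000000000000000000000000000040000000000000000000000001000000000000000000000000000000200000 := rS 0xf65290b9d3d31c1fb51b8e650873ea0c16a07fc0e3a090397fdc5ccce86b3b63180492590e96ccfb2024ed8a3564b4fbc6b (k8 c11242 c11233 c5496 c5494 c5450 c5451 c11142 c9725 (k8 c11134 c5487 c715 c5486 c313 c11174 c9723 c9755 (k8 c9724 c5337 c5377 c11252 c5644 c5219 c11208 c821 (k8 c420 c5504 c5508 c5586 c11200 c11164 c11229 c2826 (k8 c11253 c11256 c5317 c5435 c11257 c9737 c11258 c11259 (k4 c5372 c847 c6008 c5672 (k1 c10382 k0))))))) (by decide +kernel)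
def c11261 : PP 9 3 T 0x1000000000000000000000000000000000000000000000040000000000000000000000000000000000000000000000000000000200000 := rS 0xda9b73a90359c62201 (k8 c9723 c9730 c9720 c11242 c11260 c5374 c746 c11169 (k1 c5665 k0)) (by decide +kernel)
def c11262 : PP 9 3 T 0x11000000000000000000000000000004000000000000004000000000000000000000000000000000000000400000000000000000200000 := rS 0x1c43c4ca8483e30b7b9afdf6737d36e1f064a52893aa158b98ac864071159a7d963f2ba5552cd1aa0c426b4396cb24b5aeda2a494e878461d1d9ecf39ca5a2cba0f7b024087733ec8c601 (k8 c9723 c9755 c11134 c5487 c11141 c9725 c312 c11261 (k8 c9737 c498 c853 c5333 c5211 c5524 c5372 c10906 (k8 c5486 c9734 c8123 c1083 c11174 c1087 c9724 c5422 (k8 c2590 c313 c715 c9904 c9672 c342 c1971 c501 (k8 c2072 c5489 c5488 c9760 c403 c5420 c5572 c5574 (k8 c9730 c9722 c9701 c5337 c6013 c5364 c5365 c5482 (k8 c5484 c10209 c10195 c5225 c5460 c5536 c5538 c8115 (k8 c10651 c1770 c11144 c11149 c8136 c9012 c1069 c1464 (k2 c5655 c3620 (k1 c1494 k0)))))))))) (by decide +kernel)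
def c11263 : PP 9 3 T 0x11000000000000000000000000000000000000000000004000000000000000000000000000000000000000400000000000000000200000 := rS 0xab8086c873aacacd62b556ed95efd54c0e96218a87846047b0776449 (k8 c11174 c11134 c5486 c11261 c9725 c9734 c8123 c1087 (k8 c342 c5333 c2196 c5489 c5405 c5406 c9724 c5573 (k8 c5422 c5421 c5574 c5337 c11262 c5478 c5475 c6743 (k2 c7110 c3623 k0)))) (by decide +kernel)
def c11264 : PP 9 3 T 0x1000000000000000000000000000008000000000000000000000000000000000000000000000000000000400000000000000080200000 := rS 0xe4c9791d3b994f7eceb6db124af4b7b024087733ec8c601 (k8 c9723 c9755 c11134 c5487 c11141 c9725 c312 c11261 (k8 c5333 c9760 c11174 c9724 c8057 c7805 c11136 c11140 (k4 c5616 c4600 c5227 c10195 (k2 c7561 c5622 k0)))) (by decide +kernel)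
def c11265 : PP 9 3 T 0x11000000000000000000000000000000000000000000000000000000000000000000000000000000001000400000000000000000200000 := rS 0x2a836858e66276654490fdefed0c44d20158ed9faa979a0c421e119ad0e5b339643bb20223f394b459741ef6 (k8 c11261 c9737 c498 c853 c5333 c5211 c5526 c9725 (k8 c11134 c5486 c313 c5487 c715 c9904 c9672 c9734 (k8 c8123 c342 c1971 c156 c5489 c5405 c9724 c5421 (k8 c9723 c9744 c9730 c5377 c11263 c5586 c2781 c2839 (k8 c8120 c11264 c6013 c9858 c5365 c2161 c3601 c7110 k0))))) (by decide +kernel)
def c11266 : PP 9 3 T 0x11000000000000000000000000000000000000000000000000000000000000000000000000000000000000800000000000000000200000 := rS 0xf0a6cfe5735c543c230207764493ce7296f6 (k8 c11261 c5333 c5211 c5524 c11174 c11134 c5486 c9725 (k8 c9734 c8123 c1087 c9672 c9760 c804 c1119 c10927 (k1 c7600 k0))) (by decide +kernel)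
def c11267 : PP 9 3 T 0x11000000000000000000000000000000000000000000000000000000000000000000000000000000000000000000000000000000200000 := rS 0x113057cbde6c9dbf8be1eac88c081dd97b696f6 (k8 c11261 c5333 c5498 c11134 c5486 c9725 c9734 c5337 (k8 c8123 c11266 c11263 c11264 c11265 c5586 c5171 c2315 (k2 c5547 c926 k0))) (by decide +kernel)
def c11268 : PP 9 3 T 0x1000000000000000000000000000000000100000000000000000000000000000000000000000000000000000000000000000000200000 := rS 0xcc7bded0864069f1a8ed3a9962a2472572590fdefe80c4ce26900e741d982dd2c1a590e810ce8b2eced6e73acab56ab155c5768b3db3f606497b2bd53b2 (k8 c11134 c5489 c5406 c11261 c11174 c2196 c5405 c9724 (k8 c5574 c11267 c5414 c5413 c5421 c5422 c5573 c5337 (k8 c9717 c5533 c8057 c10793 c853 c5487 c9725 c5486 (k8 c313 c291 c5333 c715 c6013 c10683 c5369 c9723 (k8 c9744 c9720 c954 c11239 c3623 c5586 c2107 c10387 (k8 c9760 c393 c5484 c5364 c5530 c5412 c10906 c501 (k8 c5572 c9722 c9701 c5377 c11166 c10692 c5492 c11084 k0))))))) (by decide +kernel)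
def c11269 : PP 9 3 T 0x1000000000000000000000000000000000000000000000000000000000000000000000000000000000000000000000000000000200000 := rS 0x5f3b0f6500e3ae60bb3b04adf680d1ad2dec5b2c99c3afdd91fcafb60218c023b (k8 c10906 c9723 c9755 c9725 c9724 c9760 c804 c11134 (k8 c5405 c5486 c5487 c313 c715 c11261 c5333 c501 (k8 c291 c11267 c5533 c11124 c8057 c10793 c6013 c5482 (k4 c10683 c11268 c5436 c10209 (k2 c11204 c11141 k0))))) (by decide +kernel)
def c11270 : PP 9 3 T 0x4000200000000000000000000000000000000000000000000000000000000000010000014200000 := rS 0x4b6c9e21901a576031 (k8 c5434 c11269 c5446 c9722 c9701 c9697 c5649 c5974 (k1 c5404 k0)) (by decide +kernel)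
def c11271 : PP 9 3 T 0x28000002000000000000000000040004000000000000000040000000000000000000000000000000000040100000000000000000200000 := rS 0xf7e8344204 (k4 c9725 c5528 c315 c5405 (k2 c11243 c10683 k0)) (by decide +kernel)
def c11272 : PP 9 3 T 0x20000000000000000000000000040004000000000000000000000000000000000000000000000000000000100000000000000008208000 := rS 0x102f97b33ba1acac76cab8aaa55e45 (k8 c454 c1078 c5531 c5414 c5413 c9724 c5421 c5337 (k4 c5377 c5369 c11081 c5221 (k2 c10275 c5550 k0))) (by decide +kernel)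
def c11273 : PP 9 3 T 0x400000000020000002000000000000000000040004000200000000000000000000000000000000000000000000000000140000000000000008200000 := rS 0x337da793dbf10f9c0799d2e3b04a4c0e61d83150a593a95c66390b8c46e0d1082cda04 (k8 c9725 c5529 c717 c5528 c315 c5435 c5434 c5433 (k8 c5317 c5316 c5313 c5482 c5480 c5365 c5364 c11269 (k8 c5445 c713 c5444 c311 c10906 c1073 c1902 c11272 (k8 c6008 c8435 c10683 c5372 c5524 c5542 c2505 c11199 k0)))) (by decide +kernel)
def c11274 : PP 9 3 T 0x1000400000000020000002000000000000000000000000000200000000000080000000001000000000000000000004000000140000000000000000204000 := rS 0x1e338871d825260730ec18a852c9d4ae331c8c46e0d1082cda04 (k8 c9725 c5529 c717 c5528 c315 c5435 c5434 c5317 (k8 c5316 c5313 c5482 c5480 c5365 c5364 c11269 c5445 (k8 c713 c5444 c311 c10906 c9904 c5780 c11199 c5524 k0))) (by decide +kernel)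
def c11275 : PP 9 3 T 0x20000002000000000000000000040004000200000000002010000000000000000000000000000000800000140000000000000000200000 := rS 0xf0def0b8fe4c7ce838f6f666fb7435965ed9427f2be4de61bef8793a214d86406390b8dc76931181133b0 (k8 c11269 c5447 c9725 c9734 c5444 c10906 c5435 c5433 (k8 c5317 c9722 c9701 c5397 c5528 c5412 c3578 c5493 (k8 c11273 c2533 c5356 c5313 c804 c5398 c9724 c5420 (k8 c5337 c5377 c5542 c2504 c5657 c890 c11274 c5369 (k4 c795 c5221 c5549 c7694 (k2 c5271 c5669 (k1 c2388 k0))))))) (by decide +kernel)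
def c11276 : PP 9 3 T 0x20000000000000000000000000040000000000000000041000000000000010000000000000000000800000004000000000000000208000 := rS 0x3d33bda797f37bc2e368fc98f9dd0d6597b61da876193efb5cfea9 (k8 c5531 c804 c2188 c5493 c5356 c11269 c5398 c10906 (k8 c9724 c5420 c5337 c5377 c5369 c795 c5221 c2132 (k8 c5549 c7694 c5271 c10866 c2388 c5544 c10713 c5669 (k1 c1648 k0)))) (by decide +kernel)
def c11277 : PP 9 3 T 0x20000002000000000000000000040004000200000000000000000000000000000000000000000000800000140000000010000000200000 := rS 0x19bed3dbd90f9c07bf606f50e3cc360b06879526d10a76b21901ad76c23020ec92934da6760c54296506571c85c6fdf (k8 c5493 c5435 c5433 c5317 c5313 c5483 c5480 c5365 (k8 c5364 c11269 c5447 c5397 c5444 c11174 c10906 c9725 (k8 c9734 c9724 c5422 c9722 c9701 c5337 c5412 c5528 (k8 c5529 c5531 c3578 c315 c717 c11273 c2533 c11270 (k8 c1998 c7606 c11275 c11276 c6008 c8435 c3571 c5372 (k2 c5498 c2072 (k1 c11274 k0))))))) (by decide +kernel)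
def c11278 : PP 9 3 T 0x1000400000000010000002000000000000000000040004000200000000001010000000000000000000000000000100000000140000000000000080200000 := rS 0xdf71c488c0a66bd9c2f34ec54975959a7d96b5db0ec92a14da64129303987600462a14b2752b8cc72311b8f50e0f069ecf39c (k8 c5211 c5524 c5372 c9673 c9737 c8435 c5436 c5435 (k8 c5434 c5317 c5316 c5313 c5482 c5480 c5365 c5364 (k8 c9725 c11269 c5445 c713 c5444 c311 c5447 c5397 (k8 c5398 c11174 c10906 c9724 c5422 c5420 c5572 c5574 (k8 c5337 c2590 c1087 c1083 c2532 c6188 c5657 c2072 (k4 c11199 c927 c926 c2347 (k2 c2513 c3620 k0))))))) (by decide +kernel)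
def c11279 : PP 9 3 T 0x1000400000000010000002000000000000000000040004000200000000001010000000000000000000000000000100000000140000000010000000200000 := rS 0x1e4cc7b82c3e3b04a4c0e61d80118a852c9d4ae331c8c46e8707834f679ce0683bb2 (k8 c5228 c5486 c11270 c5211 c5524 c5372 c9673 c9737 (k8 c8435 c5435 c5434 c5317 c5316 c5313 c5482 c5480 (k8 c5365 c5364 c9725 c11269 c5445 c713 c5444 c311 (k4 c10906 c11278 c718 c2104 (k2 c11199 c5657 (k1 c2501 k0)))))) (by decide +kernel)
def c11280 : PP 9 3 T 0x1000000000000000000002000000000000000000040004000200000000001000000000000000000000000000000000800000140000000010000000200000 := rS 0x45097017faade88146c74341d57c0d53b2acacd62b556ed8460424917bfb5 (k8 c11277 c5493 c454 c11174 c9725 c9734 c9724 c5573 (k8 c5422 c5421 c5574 c5337 c5228 c10768 c10772 c5406 (k8 c5486 c11270 c2161 c11205 c938 c11279 c1924 c2342 (k4 c1928 c2594 c3623 c10763 k0)))) (by decide +kernel)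
def c11281 : PP 9 3 T 0x10000000000000000000000000040000000200002000000020000000400000000040000040000000000000000000000000000000200000 := rS 0x1a6d57190a04c62502c8e11d08053ecb58ab76c231da85929504a4c0e61d801072371e9fcae0f069ecf39c (k8 c5211 c5524 c5372 c9673 c9737 c5313 c804 c5436 (k8 c5435 c5317 c9725 c11269 c5445 c713 c5444 c311 (k8 c5446 c5396 c5398 c10906 c9734 c9724 c5573 c5421 (k8 c5420 c5572 c9723 c5377 c183 c2787 c8636 c10763 (k4 c3568 c2594 c2595 c2620 (k2 c2778 c2088 (k1 c3618 k0))))))) (by decide +kernel)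
def c11282 : PP 9 3 T 0x200000000000020000000400000000040000040000005000000000008000000000000205000 := rS 0x6938daac62140816114fb2d62addb0ed42c94a825260730ec008391b8f4fe57 (k8 c5313 c804 c5436 c5435 c5317 c9725 c11269 c5445 (k8 c713 c5444 c311 c5446 c5396 c5398 c10906 c9724 (k8 c5573 c5421 c5420 c5572 c183 c2589 c2594 c2595 (k4 c3568 c2778 c2620 c3618 (k1 c2088 k0))))) (by decide +kernel)
def c11283 : PP 9 3 T 0x40000000000100000080000000000000000000000000000000000000000000004000000000000200000 := rS 0x23fceb249 (k4 c11174 c5337 c5550 c2350 (k1 c5660 k0)) (by decide +kernel)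
def c11284 : PP 9 3 T 0x2000000000000010000002000000000000000000040000000200000000000020000000400000000000000000104000000000100000000000000008200000 := rS 0x8ff310449510325c552eaf8ed6566b1db125228b22a0c2e0f069ecf28fce2ae02ff (k8 c5544 c5502 c5500 c5211 c5526 c5524 c5372 c9673 (k8 c9737 c5433 c5483 c454 c853 c10190 c11174 c9724 (k8 c5421 c5574 c5337 c2161 c1078 c1073 c11281 c11282 (k4 c11283 c10275 c8308 c1907 (k2 c5547 c2422 (k1 c5660 k0)))))) (by decide +kernel)
def c11285 : PP 9 3 T 0x40000000000001800000000000100000000000000001000000100000000000004000040000000200000 := rS 0x3888cdff9d65669f65ad76c4950a6d33b0 (k8 c11269 c5447 c5397 c5398 c11174 c9724 c5422 c5420 (k8 c5572 c5574 c5337 c5547 c2513 c5660 c3620 c2347 k0)) (by decide +kernel)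
def c11286 : PP 9 3 T 0x2000000000000010000002000000000000000000040000000200000000000020000000400000000000000000100100000000140000000000000000200000 := rS 0x1c6df63408171370a762a4b0f06eb20159a7d96b5db0ec92a14da64129303987600448a2d0a59418e46e3d3f95d0e0f069ed1f9c7bc05e6ff (k8 c5544 c5540 c5502 c5498 c5211 c5526 c5372 c9673 (k8 c9737 c8435 c5313 c804 c5436 c5435 c5317 c5483 (k8 c5480 c5365 c853 c10190 c9725 c11269 c5445 c713 (k8 c5444 c311 c5447 c5397 c5398 c11174 c10906 c9724 (k8 c5422 c5420 c5572 c5574 c9723 c5337 c11284 c10900 (k8 c2590 c1087 c1083 c6188 c11285 c926 c8308 c5837 (k2 c2517 c2620 (k1 c3620 k0)))))))) (by decide +kernel)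
def c11287 : PP 9 3 T 0x2000000000000010000002000000000000000000040004000200000000000020000000400000000000000000200000000000140000000000000000200000 := rS 0x275c6df0f3862a468106c971c21d6408b34fb2d62b5db0ec92a14da6760852c8dc7a8707835eef3 (k8 c5540 c5498 c9673 c9737 c8435 c5436 c5435 c5480 (k8 c5365 c11269 c5447 c5397 c5398 c11174 c10906 c9724 (k8 c5422 c5421 c5420 c5572 c5574 c9725 c5337 c1929 (k8 c11205 c2595 c2161 c2165 c2166 c10763 c6188 c10900 (k4 c2517 c2347 c1083 c3620 k0))))) (by decide +kernel)
def c11288 : PP 9 3 T 0x2000000000000010000002000000000000000000040004000200000000000020000000000000000000000000000000800000140000000000000000200000 := rS 0x8146b5cfe57 (k4 c5313 c804 c2188 c11287 (k2 c938 c11286 k0)) (by decide +kernel)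
def c11289 : PP 9 3 T 0x2000000000000000000040004000200000000001000000000000000000000000000000000800000140000000010000000200000 := rS 0x201a6e181aa62a9d71f86244b2307842cc053d5fecf79c0556f7f6046b20159ac56aaddb08c083b24a8760852ca0c66390b8c46ed14383c1bb5 (k8 c11277 c9673 c9737 c8435 c2131 c5435 c5434 c5433 (k8 c5317 c5316 c5483 c5480 c5365 c11269 c5398 c11174 (k8 c10906 c9725 c9734 c9724 c5573 c5422 c5421 c5574 (k8 c9723 c5337 c183 c11280 c5498 c5500 c5502 c5540 (k8 c5543 c5544 c11288 c3571 c3587 c2417 c718 c927 (k8 c2589 c926 c10925 c4605 c5855 c1087 c2319 c7606 (k4 c2789 c8157 c11285 c939 k0))))))) (by decide +kernel)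
def c11290 : PP 9 3 T 0x2000000000000000000040004000200000000000000000000000000000000000000000000800000140000000010000000200000 := rS 0xd9fb5f9b5 (k4 c11277 c11289 c5542 c5405 (k1 c5228 k0)) (by decide +kernel)
def c11291 : PP 9 3 T 0x8000000000000008000000000000000000000000000000000000000000000000000000000000000000000000010040800000000000000000000000200000 := rS 0x3ef8d02d26aa3743b650b276193 (k8 c5356 c11269 c5396 c5398 c9724 c5377 c5505 c5585 (k4 c11200 c938 c6616 c2827 (k1 c5670 k0))) (by decide +kernel)
def c11292 : PP 9 3 T 0x8000000000000000000000000000004000200100000000000000000000000000000000000010000800000140000000000000000200000 := rS 0x3ef8da4d5409091ba165ac55bb664ec07b936bfbcfe57 (k8 c5313 c804 c11291 c2188 c5356 c5436 c11269 c5396 (k8 c9724 c5573 c5421 c5420 c5377 c11205 c9858 c938 (k4 c2778 c5991 c6616 c2827 (k1 c5670 k0)))) (by decide +kernel)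
def c11293 : PP 9 3 T 0x40000000000000000000000000000200000000000000000000010000000000000000040000000000000000020000000200000 := rS 0x1027df1b5081a104a4f6004 (k8 c9725 c11269 c5444 c311 c5377 c552 c553 c5462 (k2 c1545 c1658 (k1 c5670 k0))) (by decide +kernel)
def c11294 : PP 9 3 T 0x2000000000000000000040004000200000000000000000000000000000000000000000000800000140000000000000000200000 := rS 0x81079520a7abce0287f6037380fdaabc34abd9c743af71a77f2611d0d6402f10c80d62b5db08c764904a4f600422b150a5941a24fe57 (k8 c5313 c804 c5484 c5483 c5480 c5365 c5364 c454 (k8 c9725 c11269 c5444 c311 c11174 c10906 c9734 c9724 (k8 c5422 c5421 c9722 c9701 c9697 c9723 c5337 c5377 (k8 c183 c5356 c5493 c11290 c501 c331 c11293 c11292 (k8 c11079 c5649 c1078 c11273 c9737 c5211 c9673 c5228 (k8 c5373 c5502 c5540 c11288 c3571 c1906 c718 c8616 (k1 c7606 k0))))))) (by decide +kernel)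
def c11295 : PP 9 3 T 0x8000000000000008000000040000000000000000000000000000000000000000000000000000000000000000010140000000000000000000000000200000 := rS 0x7df1b49aba1db28593b0 (k8 c11269 c5396 c5398 c9724 c5377 c5585 c11200 c6616 (k2 c2827 c5670 k0)) (by decide +kernel)
def c11296 : PP 9 3 T 0x8000002000000000000000000000004000000000000000000000000000000000000000000000040400000100000001020000000200000 := rS 0x7df1b49aa42f7c7503932f19d2fa13498c02cb58ab76cc94aec18a653aa25ae45 (k8 c454 c1764 c5484 c5482 c5481 c5364 c11269 c5446 (k8 c5396 c9724 c5573 c5421 c5420 c9723 c9755 c9744 (k8 c5377 c5404 c5487 c10013 c5439 c1746 c11293 c11295 (k4 c9858 c2778 c5991 c6616 (k2 c2827 c5670 k0))))) (by decide +kernel)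
def c11297 : PP 9 3 T 0x2000000000000000000040004000200000000000000000000000000000000000000000000000000140000000000000000200000 := rS 0x1020f2a414f579c050e81f6037380f2f2376a674babe3a1a55ecc3ad77bf7c68773f8f42e5708e86b2f10c80cd26300b2d62b5db08c76494a82527b0021158a852c994ea83 (k8 c5483 c5482 c5481 c5480 c5365 c5364 c454 c9725 (k8 c11269 c5444 c311 c5446 c11174 c10906 c9734 c9724 (k8 c5422 c5421 c5420 c9723 c9755 c9744 c9722 c9701 (k8 c9697 c5337 c5377 c183 c5313 c5433 c5436 c804 (k8 c11294 c10209 c5450 c501 c1764 c331 c11296 c11079 (k8 c5649 c2161 c1078 c1073 c1902 c11273 c11205 c10013 (k8 c9737 c5211 c9673 c5228 c1746 c5373 c5502 c5540 (k4 c11286 c3571 c1906 c718 (k2 c8616 c7606 k0))))))))) (by decide +kernel)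
def c11298 : PP 9 3 T 0x800000000008000002000000000000000000000000000100000000000000000000000000000000000000000000000000000000000000000000200000 := rS 0x1922f78cefa1aced8d26300a5760c5329d52e67 (k8 c5487 c5404 c5482 c5481 c5364 c11269 c5446 c9723 (k8 c9755 c9744 c9724 c5337 c5377 c5493 c6601 c10013 (k2 c5216 c5439 k0))) (by decide +kernel)
def c11299 : PP 9 3 T 0x28000002000000000000000000040004000100000000000000000000000000000000000000000000000000100000000000000000200000 := rS 0x7cf3be0077b41af610c5557a1aced80899d83f4cfdf (k8 c11298 c5487 c5405 c11269 c5447 c9725 c9724 c5337 (k8 c5377 c5413 c5414 c5528 c11271 c315 c5498 c10683 (k4 c5165 c5369 c7210 c5221 k0))) (by decide +kernel)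
def c11300 : PP 9 3 T 0x80000400000000000000000000000000000000000040004000100000000000000000000000000000041000000010000000000000000000000000000200000 := rS 0x1edf0c5607a1389ceb2b358ad76db0 (k8 c11269 c9724 c5422 c5421 c5574 c5337 c9717 c9720 (k4 c5377 c5550 c5590 c7694 (k2 c10405 c5165 k0))) (by decide +kernel)
def c11301 : PP 9 3 T 0x8000002080000000000000000000000000000000000000000000000000000000000000000000000000000000000000000000000200000 := rS 0x3b97cd26300a5760c5329d52e67 (k8 c5487 c5404 c5482 c5481 c5364 c11269 c5446 c9723 (k4 c9755 c9744 c5439 c5356 (k1 c10013 k0))) (by decide +kernel)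
def c11302 : PP 9 3 T 0x8000002000000000000000000040004000000000000000000000000000000000000000000000000000000140000000000000000200000 := rS 0xe14ec546c390f784d81b67bcda2ab7b8cbd831f7b50fee3408d7c456c9b7fe687069ac1fb5efaa4cefd4babf435902444d20159a7d96b5db0ec92a164a6d2a99d81150a5932a0d1329 (k8 c11297 c5484 c5483 c5481 c5480 c5365 c454 c11269 (k8 c5447 c5446 c5397 c5396 c5398 c11174 c10906 c9724 (k8 c5422 c5420 c5572 c5574 c9723 c9744 c9730 c9725 (k8 c5337 c5377 c5406 c5404 c5405 c5487 c5489 c11298 (k8 c11299 c9737 c9672 c9673 c8435 c11300 c6120 c11301 (k8 c10195 c5216 c435 c5463 c5466 c5577 c6616 c11295 (k8 c1476 c5171 c5653 c5498 c5500 c5501 c5540 c5543 (k8 c2043 c3601 c8772 c10900 c4654 c5654 c1087 c1083 (k2 c1484 c3620 k0))))))))) (by decide +kernel)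
def c11303 : PP 9 3 T 0x880000000000000020000000000000000000400000040000000100000000000000000000000000000000000000000000000000000000000000000000200000 := rS 0x1f45d7862f155cade33e550a8f61b6 (k8 c9724 c11269 c5449 c5398 c7591 c5641 c5533 c5415 (k4 c5414 c5593 c7694 c7209 (k2 c5169 c5554 k0))) (by decide +kernel)
def c11304 : PP 9 3 T 0x800000000000000020000000000000000000400000040000000100000000000000000000000000000000000000000000000000000000000000000000200000 := rS 0x22ebbfa787c59335b7f39f3f2c674359db28d429b30a67609d8aae4dab7 (k8 c5533 c5529 c5415 c5414 c5412 c11269 c5447 c5445 (k8 c5397 c5398 c5449 c9724 c5337 c5377 c5641 c7591 (k8 c11303 c5221 c6120 c5523 c10443 c5216 c6324 c5169 (k2 c5554 c5635 (k1 c7209 k0))))) (by decide +kernel)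
def c11305 : PP 9 3 T 0x80000000000000020000000000000000000000000040000000100000000000000000000000000000000000000000000000000000000000000000000200000 := rS 0x1f9d1c17c6e3fc9378afe170b8f43590232f6c3b50ec13b15 (k8 c5414 c5412 c11269 c5398 c10906 c9724 c5420 c9725 (k8 c5337 c5377 c5549 c5591 c7694 c10715 c5271 c9176 (k4 c403 c2332 c5439 c5654 (k2 c8483 c393 (k1 c6008 k0))))) (by decide +kernel)
def c11306 : PP 9 3 T 0x24000002000000000000400000040004000100000000000000000000000000000000000000000000000000000000000000000000200000 := rS 0xf8ee6097683c2577f4c4e06ff8bd27de2201be8110af941bed726d5ba1ef66bce7cf4359 (k8 c5337 c5377 c11305 c5221 c5523 c5375 c5373 c5533 (k8 c5529 c5415 c5485 c5483 c5367 c5365 c9725 c9703 (k8 c9723 c9730 c11304 c5223 c5390 c5389 c5607 c5610 (k8 c5174 c5554 c5556 c5634 c3605 c3614 c5613 c5628 (k1 c5230 k0))))) (by decide +kernel)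
def c11307 : PP 9 3 T 0x800008000000000000010020000000000000800000000000000000000000000000000000000000000000000000000000001000000008000000000000201000 := rS 0xbb62b4b81dc93e42a62aaff6d7d51a97600b0203ef7898f947564d (k8 c5604 c5600 c5350 c5345 c5527 c5375 c5369 c9725 (k8 c717 c11269 c5399 c5449 c9703 c9724 c5596 c5636 (k8 c7008 c533 c566 c5428 c1154 c6201 c3575 c5667 (k1 c764 k0)))) (by decide +kernel)
def c11308 : PP 9 3 T 0x200000000000000000000800000000000000000040000000000140000000000010000000000000000000000000000000200000140200000 := rS 0x73939dcbb53aff6c2302297604d (k8 c5604 c11269 c5399 c9725 c9734 c9724 c5431 c5428 (k4 c5430 c7220 c8139 c1733 (k1 c402 k0))) (by decide +kernel)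
def c11309 : PP 9 3 T 0x200000000000000000040000000100040000000000000000000000441000000000000000000000014000000000000000000000000110000000000000205400 := rS 0x8caff19809045c9ebbc581166bdc2ad76d25 (k8 c1007 c9724 c5422 c5423 c5575 c5574 c9725 c5553 (k8 c5554 c5630 c5635 c3575 c320 c534 c1160 c3264 (k1 c3626 k0))) (by decide +kernel)
def c11310 : PP 9 3 T 0x40000000500040000000000000000000000441000000000000000000000014000000000000000000000000150000000000000205400 := rS 0x4662ebb5fe30a9809001166bdc2ad76d25 (k8 c1007 c9724 c5422 c5423 c5575 c5574 c9725 c3575 (k8 c320 c533 c534 c1160 c1158 c3448 c3264 c3626 k0)) (by decide +kernel)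
def c11311 : PP 9 3 T 0x41000000000140000000000000000001000000000000000000088000200000000200000 := rS 0x5fbbd4f16736d94bb0 (k8 c11269 c5399 c9724 c402 c567 c1728 c1733 c3080 (k1 c7220 k0)) (by decide +kernel)
def c11312 : PP 9 3 T 0x24000002000000000000000000040004000100000000000000000000000000000000000000000000000000000000000000000000200000 := rS 0xa777aff0116bbc6715a527fd773f774c6e4ba91c1283e4dd59463e3723e26cce0f0baddae3f115b266bbd83dbf9cf982c1ab73688573154ee86b29f5eb2f0ab5db5f4083b24a8d4aa14d98533b0 (k8 c11269 c5447 c5445 c5397 c5398 c5399 c5449 c11174 (k8 c10906 c9725 c9703 c9724 c5422 c5423 c5420 c5575 (k8 c5572 c5337 c5377 c5412 c5414 c5415 c5528 c5529 (k8 c5533 c315 c717 c11305 c5221 c6120 c5369 c5375 (k8 c5523 c10443 c10195 c5216 c5466 c5467 c5581 c6324 (k8 c6661 c11306 c5527 c2789 c1484 c5345 c5350 c5600 (k8 c5604 c6300 c5660 c5654 c987 c1007 c2687 c2668 (k8 c11307 c11308 c11309 c11311 c6201 c11310 c2640 c764 (k4 c5697 c5667 c3080 c3083 (k2 c1154 c3622 k0)))))))))) (by decide +kernel)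
def c11313 : PP 9 3 T 0x82000000000000000000002000000000000000000000004000000000000000000000000000000000000000001404000000000140000000000000000205000 := rS 0x471e88c05c0e268b41bde02ff (k8 c5544 c5502 c5498 c5483 c853 c5547 c5550 c926 (k4 c8308 c10910 c11205 c2165 k0)) (by decide +kernel)
def c11314 : PP 9 3 T 0x40000000000000000000002000000000000000000000000000100000000000000000040014000000000000000004005000000000000000000000080200000 := rS 0x1db24c766f8dc4e1232762ba1acacd3ecb5aed8764950a6d33b062a14ea83 (k8 c5483 c5482 c5365 c5364 c11269 c5447 c5397 c5398 (k8 c11174 c10906 c9724 c5422 c5420 c5572 c5574 c5337 (k8 c5377 c1087 c1083 c6300 c2789 c3620 c5466 c4605 (k4 c4603 c5216 c3607 c5356 k0)))) (by decide +kernel)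
def c11315 : PP 9 3 T 0x40004000000000000000002000000000000000000040000000100000000000000000000014000000000000000004001000000000000000000000000200000 := rS 0x3bb1fc192d0d650a75 (k8 c5482 c5365 c5337 c5377 c5216 c5168 c5357 c5356 (k1 c10196 k0)) (by decide +kernel)
def c11316 : PP 9 3 T 0x24000000400000000040000000000000000000000000084200000008200000 := rS 0x1aa97180d432034fb2d62addb2852bb0 (k8 c11269 c5446 c5398 c9724 c5573 c5421 c5420 c5572 (k4 c9722 c9701 c439 c2475 (k2 c1074 c2779 (k1 c8160 k0)))) (by decide +kernel)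
def c11317 : PP 9 3 T 0x2000000000000000000040004000000000000000000000000000000000000000000000000000000140000000000000000200000 := rS 0xd0ac7663f80723f6bf88844a5791c66f40d0806e0b0fb7fe6cf79b45ee8f3c9ed0fec06e701fb5d9ca6b2b3db08c76494c825260730ec0089122a14b275 (k8 c5482 c5480 c5365 c454 c10190 c9725 c11269 c5445 (k8 c713 c5444 c311 c5447 c11174 c10906 c9734 c9724 (k8 c5574 c5337 c11297 c11302 c11312 c9737 c5211 c9673 (k8 c5228 c8435 c5372 c5524 c5526 c5498 c5501 c5540 (k8 c5543 c11313 c6120 c11314 c718 c8484 c5650 c10900 (k8 c10910 c2046 c2422 c1078 c5660 c2595 c11315 c5465 (k8 c5576 c11316 c6327 c5535 c10196 c3568 c9300 c435 k0))))))) (by decide +kernel)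
def c11318 : PP 9 3 T 0x20000002000000000000000000040004000000000000000000000000000000000000000000000000000000080000000000000000204000 := rS 0x7666fb7bef267f85aad74b8798c3d1b8c42e392bca0429d0ca7d96b156ed8463b50b2536954c825260730ec10a425784435a17880c020bd9998f687069e73804 (k8 c9725 c6008 c5524 c5522 c5373 c5372 c715 c5487 (k8 c11100 c9723 c9722 c9697 c5377 c716 c183 c10406 (k8 c925 c5365 c11269 c5445 c713 c5444 c311 c5447 (k8 c5446 c5397 c5396 c5398 c10906 c9734 c9724 c5573 (k8 c5421 c5420 c5572 c9701 c5412 c5528 c11312 c5313 (k8 c5317 c5433 c5434 c5435 c5436 c3568 c3578 c1073 (k8 c1933 c2778 c5535 c2560 c10712 c8161 c5540 c4663 (k2 c10994 c10798 k0)))))))) (by decide +kernel)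
def c11319 : PP 9 3 T 0x40000000200000000000000000000000000000040000000200000000000000000480040000008204400 := rS 0x3e64b8937900d26ab5d2ec61e8c42e392bd6596b156ed8764950a54129303987607b069e73804 (k8 c9725 c6008 c5524 c5522 c5372 c11269 c5445 c713 (k8 c5444 c311 c5446 c5398 c11174 c10906 c9724 c5573 (k8 c5421 c5420 c5337 c5313 c5317 c5433 c5434 c5436 (k8 c3568 c1073 c1933 c2778 c5982 c2084 c941 c940 (k2 c2510 c5547 (k1 c5660 k0)))))) (by decide +kernel)
def c11320 : PP 9 3 T 0x80000000000000000000000000000000000000000040000000100000000015004000000000000000044000000200000000000000000080040000008200000 := rS 0x34daa976b8c06a417a0e151e18ac0c96b365ac55bb61da852bb0 (k8 c11269 c5446 c5398 c10906 c9724 c5573 c5421 c5420 (k8 c5574 c5546 c5550 c5590 c7694 c8604 c5654 c1906 (k8 c546 c439 c2475 c1934 c1074 c2779 c4368 c5982 k0))) (by decide +kernel)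
def c11321 : PP 9 3 T 0x440000000040000000000000000000000000080010000008200000 := rS 0x3552ecb58ab76db0 (k8 c11269 c9724 c5573 c5421 c5420 c1074 c2779 c9617 k0) (by decide +kernel)
def c11322 : PP 9 3 T 0x2000000000000000000040004000000000000000000000000000000000000000000000000000000100000000000000000200000 := rS 0x324392b8d1a6d7f17ce52477fb3de6d17e8806fec0fed6027906a1cf60b55e73660f5790834664616823a100bc406b3db08c7699039876004 (k8 c9725 c11269 c5445 c713 c5447 c10906 c9734 c9724 (k8 c5574 c9722 c9697 c9723 c5377 c183 c11317 c924 (k8 c715 c716 c925 c10406 c10998 c5487 c6008 c11079 (k8 c11100 c5372 c5373 c5522 c5524 c2141 c11318 c10710 (k8 c5228 c8484 c5650 c1075 c5501 c5540 c5543 c5544 (k8 c2422 c11319 c11320 c11315 c5465 c5579 c11321 c435 (k2 c439 c10195 (k1 c11223 k0)))))))) (by decide +kernel)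
def c11323 : PP 9 3 T 0x1000000000000000000000004000000000000000000000000000000000000000000000000000000100000000000000000000020 := rS 0xce5a (k2 c6013 c9680 (k1 c715 k0)) (by decide +kernel)
def c11324 : PP 9 3 T 0x40004000000000000000000000000000000000000000000000000000000100000000000000000200000 := rS 0x33204 (k2 c9725 c11322 (k1 c11323 k0)) (by decide +kernel)
def c11325 : PP 9 3 T 0x20000000000000000000000000040004000200000000000000000000000000000000000000000000000000000000000000000000200000 := rS 0x2507a00218aaad3a1901acd62b556ed846041da4d3699d83dd5efd54eca06fff7664b9a1ac8e42e37 (k8 c5435 c5433 c5317 c5337 c5377 c11324 c5361 c5219 (k8 c5586 c5508 c9749 c5489 c5405 c5406 c10793 c11269 (k8 c5447 c5397 c5444 c10906 c9725 c9734 c9724 c5573 (k8 c5422 c5421 c5574 c9722 c9701 c5412 c5413 c5414 (k4 c5528 c3623 c3578 c10769 (k1 c2590 k0)))))) (by decide +kernel)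
def c11326 : PP 9 3 T 0x40004000200000000000000000000000000000000000000000000000000000000000000000000200000 := rS 0x40556cf66785c2d16320188793de4c1b9c3583f6a7d3a9dcfe371c95c769b4c825260730811faa981bfda5df4bab53eb150a5596af6b82e3a497bf8dabeecce86b2c9d86db645c (k8 c11324 c9749 c9724 c11269 c5396 c5337 c5377 c5361 (k8 c5219 c5585 c6616 c10793 c11174 c5504 c11164 c5507 (k8 c5406 c5420 c5446 c5398 c5421 c5572 c5573 c5404 (k8 c8161 c11200 c5586 c5508 c5489 c5405 c9725 c5445 (k8 c713 c5444 c311 c5447 c5397 c10906 c5313 c5317 (k8 c5435 c804 c785 c1970 c2828 c11325 c9737 c9672 (k8 c5211 c9673 c10923 c5372 c5524 c5668 c5670 c3568 (k8 c1706 c1716 c5535 c839 c2561 c2075 c2078 c8633 k0)))))))) (by decide +kernel)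
def c11327 : PP 9 3 T 0x8000000000000028000000000000000000000000000004000000000000000000000000000040000000000000000005000000400000000000000000200000 := rS 0x6b36a76226300a6f608b (k8 c5583 c11269 c5397 c9723 c9755 c9730 c5412 c5529 (k2 c11168 c10556 k0)) (by decide +kernel)
def c11328 : PP 9 3 T 0x80000000000000000000000000000000000000000040004000000000000000000000000000000000000000000000000000000000000000000000000200000 := rS 0xdc73e17192c76401e8cda5e3648fcaf92efa5d5a9f58b554295d832f6cafd935fdda1ace64b929 (k8 c11326 c11324 c5361 c5337 c5377 c5219 c5507 c9749 (k8 c5406 c9724 c5420 c11269 c5446 c5398 c5585 c5421 (k8 c5572 c5573 c5404 c8161 c5214 c5353 c403 c5396 (k8 c6616 c11200 c383 c2769 c5655 c10906 c5546 c5549 (k4 c7694 c546 c1740 c5654 k0))))) (by decide +kernel)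
def c11329 : PP 9 3 T 0x40004000000000000000000000000000000000000000000000000000000000000000000000000200000 := rS 0x78d8364e8e7c0dff9834d60fda9007a333d8fcae796397f2529f182fbed26ab5e3a9757fb9efb2cc97343598898c029f65ac55bb6118ec92a164a6d2a99039876004 (k8 c9725 c11269 c5445 c713 c5447 c5446 c5397 c5396 (k8 c5398 c11174 c10906 c9734 c9724 c5573 c5421 c5420 (k8 c5572 c9723 c9755 c9730 c5337 c5377 c11324 c5361 (k8 c9749 c10793 c5219 c5406 c5404 c5504 c5507 c5585 (k8 c11200 c8161 c11164 c6616 c11326 c5214 c5439 c5357 (k8 c5441 c5353 c403 c11080 c383 c2769 c5655 c11327 (k8 c9737 c9672 c9673 c11328 c6120 c5168 c547 c5458 (k4 c10699 c3598 c8484 c2315 k0)))))))) (by decide +kernel)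
def c11330 : PP 9 3 T 0x80000000000000020000000000000000000000000040000000200000000000000000000000000000000000000000000000000000000000000000000204000 := rS 0x401f58d93479ef39a1008240e613f95c166d89b7942cbf1b8dc24b0f084729b0c80c2e9d1b8ed26230226760b5db5647a49 (k8 c11174 c5436 c5337 c9724 c5422 c11269 c5447 c9725 (k8 c9734 c5444 c10906 c5435 c5412 c5433 c9722 c9701 (k8 c5397 c5317 c5528 c3578 c2590 c6188 c5549 c6661 (k8 c5420 c5398 c5271 c5547 c5529 c717 c5313 c804 (k8 c5445 c713 c311 c9723 c5377 c6008 c5372 c5526 (k4 c6200 c5837 c2829 c5670 (k1 c940 k0))))))) (by decide +kernel)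
def c11331 : PP 9 3 T 0x8000200000000000000000000000000000000000000000000000020410000000000000000200000 := rS 0x3a97788640695d80d43631 (k8 c5476 c5475 c5324 c11269 c5446 c9722 c9701 c9697 (k2 c1126 c1953 (k1 c5974 k0))) (by decide +kernel)
def c11332 : PP 9 3 T 0x80000000000000020000001000000000000000000040000000200000000000000000000000000000000000000000000000000000000000000000000200000 := rS 0x1ec7e77f2676629d4cc652c97d0b9d07784d2014a8240e612e8d4b631198f7667f2baae2aa98090e061e108e536190185d3a371da4c46044cec2b2495aed9eb3a (k8 c11329 c5477 c9724 c5422 c11174 c5337 c11269 c5447 (k8 c9725 c9734 c5444 c10906 c5435 c5412 c5433 c9722 (k8 c9701 c5397 c5317 c5528 c3578 c7606 c5478 c6743 (k8 c5531 c5414 c5413 c5313 c804 c7843 c5436 c5316 (k8 c5476 c5474 c5324 c5321 c5445 c713 c311 c5446 (k8 c9723 c9744 c7694 c11330 c5369 c9740 c11204 c10813 (k8 c11331 c5664 c2005 c733 c5729 c10897 c5493 c11276 (k2 c5185 c5542 k0)))))))) (by decide +kernel)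
def c11333 : PP 9 3 T 0x20000001000000000000000000040000000200000000000000000000000000000000000000000000000000000000000000000000200000 := rS 0xfa81f1b798ce389e4d1e7b0791b39f37092c161e368862a9dd0d64021901acd3ecb5aed8463b24a85369904a4c0e61d801072171b8f4fe57 (k8 c5313 c804 c5436 c5435 c5433 c5317 c9725 c11269 (k8 c5445 c713 c5444 c311 c5447 c5397 c5398 c11174 (k8 c10906 c9734 c9724 c5422 c5420 c5572 c5574 c9722 (k8 c9701 c9723 c5337 c5377 c5412 c5414 c5528 c5529 (k8 c3578 c717 c2590 c6188 c11332 c5221 c6300 c5369 (k8 c5372 c5526 c6200 c2343 c2347 c5837 c3620 c6661 (k2 c940 c2829 (k1 c5670 k0)))))))) (by decide +kernel)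
def c11334 : PP 9 3 T 0x80000000000000000000000000000000000000000000000000200000000000000000000000000000000000000400020000000000000400000000000200000 := rS 0x105be3b2482527b0020e47e371e92dc6e1 (k8 c5591 c5549 c5546 c5436 c5435 c5318 c5317 c9725 (k8 c11269 c5444 c311 c11174 c10906 c2829 c1545 c3590 k0)) (by decide +kernel)
def c11335 : PP 9 3 T 0x80000000000000000000020040000000000000000000000000200000000000000000000000000000000000000000100000000000000400000000000204000 := rS 0x81e23ee8476493f95d1e4b71b841713 (k8 c5547 c926 c5591 c5549 c5546 c5526 c5313 c804 (k4 c11174 c10906 c5377 c11334 (k2 c5670 c9121 (k1 c5462 k0)))) (by decide +kernel)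
def c11336 : PP 9 3 T 0x80000000000000010000000000000000000000000040000000200000000000000000000000000000000000000000000000000000000000000000000200000 := rS 0x1f7c6de4e8848c816364c16e18ab8e27a159a7d96b5db08c76a14da6412930398760041c85c6e7f2b83cd60d3d9e51f9c (k8 c5211 c5526 c5524 c5372 c9673 c9672 c9737 c5313 (k8 c804 c5435 c5433 c5317 c9725 c11269 c5445 c713 (k8 c5444 c311 c5447 c5397 c5398 c10906 c9734 c9724 (k8 c5422 c5420 c5572 c5574 c5377 c5547 c5549 c5590 (k8 c5591 c926 c10923 c3568 c940 c11335 c2422 c5855 (k4 c3620 c5580 c2829 c5670 k0)))))) (by decide +kernel)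
def c11337 : PP 9 3 T 0x1000000000000014000001000000000000000000000008000000000000000000000000000000000004000000004400000000000000000000000200201000 := rS 0x2ca14caa87b810d2012dbd5faf3 (k8 c5325 c2550 c5477 c5474 c9723 c9744 c9725 c343 (k4 c5682 c8720 c2449 c314 (k1 c10861 k0))) (by decide +kernel)
def c11338 : PP 9 3 T 0x4000021040000000000000000000000000000000000000000000200000080000048000000040000000000000000000000000000200000 := rS 0x77ceac5699ddaecd3240cd20165ac55bb650b252bb0 (k8 c11269 c5446 c5396 c5398 c9724 c5573 c5421 c5420 (k8 c9723 c9744 c2199 c8138 c2075 c1721 c2053 c3063 (k4 c839 c8516 c9031 c5668 k0))) (by decide +kernel)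
def c11339 : PP 9 3 T 0x4000000000000000001000000000000000000040000000200000000000000000000000000000004000000000000000000000000000000000200200400 := rS 0x1ee69f7cb10168fb1ee11d0bcdebb30ba1cb73a41e4cd6e06f9288eb3db126b2e33ff858c0d3c9ef380f0398476392b8dc1293d8013e7b5 (k8 c11333 c11336 c9725 c11269 c5444 c311 c5435 c5313 (k8 c5317 c10906 c5445 c713 c9737 c5211 c5372 c5524 (k8 c9673 c3568 c5535 c804 c2620 c5337 c11174 c9724 (k8 c5574 c2422 c5660 c2510 c5691 c9672 c10923 c5525 (k8 c11329 c5474 c8435 c5433 c7843 c5477 c5325 c5377 (k8 c183 c343 c11337 c5501 c5502 c10404 c9979 c3062 (k2 c5186 c8619 k0))))))) (by decide +kernel)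
def c11340 : PP 9 3 T 0x4000000000000000001000000000000000000040000000200000000000000000000000000000000000000000000000000000000000000000200200400 := rS 0x572a9c0ff6f9288f5959925e68b2eecc2fb69d7cf266bf0b8d8c0d3c9ef380fda81cc23b1c8dc1293d8010fe57 (k8 c5313 c804 c9725 c11269 c5444 c311 c5435 c5317 (k8 c10906 c5445 c713 c11333 c9737 c5211 c5372 c5524 (k8 c9673 c3568 c2620 c5535 c9672 c10923 c11336 c11329 (k8 c9724 c5433 c7843 c5321 c853 c5325 c11174 c5574 (k8 c5337 c2422 c5660 c2510 c2568 c5691 c11339 c11338 (k1 c1287 k0)))))) (by decide +kernel)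
def c11341 : PP 9 3 T 0x4000000000000000001000000000000000000040000000200000000000000000000000000000000000000000000000000000000000000000000200400 := rS 0x3ea05bd1370918961e10b8fc2c6c9e86b2b5db08c764904a4c0e61d801072371e9fcae0f35834f67947e73e7b5 (k8 c11333 c11336 c5211 c5526 c5524 c5372 c9673 c9672 (k8 c9737 c5313 c804 c5436 c5435 c5317 c9725 c11269 (k8 c5445 c713 c5444 c311 c11174 c10906 c9734 c9724 (k8 c5422 c5337 c5377 c10923 c3568 c5535 c2620 c11340 (k8 c5650 c2590 c6300 c6188 c2343 c5691 c940 c2829 (k1 c5670 k0)))))) (by decide +kernel)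
def c11342 : PP 9 3 T 0x4000000000000000001000000000000000000040000000200000000000000000000000000000000000000000000000000000000000000000000200000 := rS 0x7b919df3b1d4cc89c99958c8071b8553038aa77c312259183c21050474359019a402b55688c7649508240e61021746a5b0d8c5ea57198df6617db24f613a (k8 c11329 c11269 c5444 c9724 c5433 c7843 c5435 c5316 (k8 c5313 c5477 c5476 c5475 c5474 c5324 c5321 c9725 (k8 c5445 c713 c311 c5398 c11174 c10906 c9734 c5573 (k8 c5422 c9723 c9744 c9722 c5337 c5377 c183 c11341 (k8 c2417 c718 c927 c2589 c926 c10925 c5855 c1087 (k8 c7606 c2319 c2789 c2347 c11285 c8617 c10961 c5357 (k8 c8134 c5664 c1749 c5729 c5493 c938 c5186 c5505 k0))))))) (by decide +kernel)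
def c11343 : PP 9 3 T 0x1000000000000000000040000000200000000000000000000000000000004000000000000000000000000000000000040200000 := rS 0x1dd8acc2c33d0ad1f63dc6af318bd467b30bed90e5b9d20c4023c99ad8c0b069e4f79c07ed40e611d8e4ae3704a4f6004 (k8 c9725 c11269 c5444 c311 c5435 c5313 c5317 c10906 (k8 c5445 c713 c11333 c9737 c5211 c5372 c5524 c9673 (k8 c718 c3568 c9672 c10923 c9734 c5650 c5525 c11329 (k8 c5474 c8435 c9724 c5433 c7843 c5316 c5477 c5476 (k8 c5325 c5324 c343 c11337 c5501 c5541 c5543 c10404 (k4 c3587 c838 c2051 c8354 k0)))))) (by decide +kernel)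
def c11344 : PP 9 3 T 0x1000000000000000000040000000200000000000000000000000000000000000000000000000000000000000000000040200000 := rS 0x75441de00af6699154ff2511c41a1389ceb26900acd96b15688c084964bcd165dd985f6c93d8673e7b5f7b4c7e4122ce9afe2 (k8 c11342 c5465 c11329 c5326 c5462 c5318 c5579 c5891 (k8 c11333 c11336 c5211 c11269 c5444 c9724 c5433 c7843 (k8 c5321 c853 c5325 c5396 c11174 c9725 c9734 c5573 (k8 c5421 c5420 c5574 c9723 c9744 c5337 c9717 c9720 (k8 c5377 c5650 c2422 c5660 c2568 c11343 c8138 c2075 (k4 c1287 c6368 c2053 c8120 (k2 c8516 c8490 k0))))))) (by decide +kernel)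
def c11345 : PP 9 3 T 0x1000000000000000000040000000200000000000000000000000000000000000000000000000000000000000000000000200000 := rS 0xe14ec54961e6fb8fc55959a7d96b5db0ec92a14da67603d (k8 c5436 c11269 c5447 c5397 c5398 c11174 c10906 c9724 (k8 c5422 c5420 c5572 c5574 c5337 c11342 c5466 c5580 (k4 c11344 c2590 c1087 c1083 (k2 c6188 c3620 k0)))) (by decide +kernel)
def c11346 : PP 9 3 T 0x80000000000000020000000000000000000000000040000000200000000000000000000000000000000000000000000000000000000000000000000200000 := rS 0x19a7a7e31f3a790737bc2e365a84fe7604e4d8a752d8d4620730974b3981995e061e108e536190185d3a371da4c46044cec2b2495aed9eb3a (k8 c11329 c5477 c9724 c5422 c11174 c5337 c11269 c5447 (k8 c9725 c9734 c5444 c10906 c5435 c5412 c5433 c9722 (k8 c9701 c5397 c5317 c5528 c3578 c7606 c5313 c5316 (k8 c11345 c5480 c5321 c5445 c713 c5476 c5324 c5474 (k8 c5482 c5364 c10897 c311 c10209 c804 c5398 c5420 (k8 c5549 c7694 c5271 c11330 c2388 c5369 c795 c11276 (k2 c5669 c2504 (k1 c890 k0)))))))) (by decide +kernel)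
def c11347 : PP 9 3 T 0x20000000000000000000000000040000000200000000000000000000000000000000000000000000000000000000000000000000200000 := rS 0xccf6bd8f2873d83f39f305834da21d0d64760730975e6317a8cc723762a1507df3b1d46a5704a4f60042dce8b398 (k8 c11345 c5480 c11329 c5474 c9725 c11269 c5444 c311 (k8 c5313 c5324 c5482 c10209 c5493 c5483 c5365 c5364 (k8 c5435 c5317 c5316 c5477 c5476 c5325 c5321 c5445 (k8 c713 c10906 c5337 c5377 c5528 c5529 c315 c717 (k8 c11346 c5221 c5369 c5372 c5373 c5524 c3571 c10404 (k2 c11199 c2072 k0)))))) (by decide +kernel)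
def c11348 : PP 9 3 T 0x40000000200000000000000000000000000000000000000000000000000000000000000000040200000 := rS 0x66fb5ec0b1d81cc25d7986c62331c8dd8a85ef9d8ea352b82527b002167308707834b73a3d9e739b5 (k8 c11347 c5211 c5524 c5372 c11329 c5474 c9673 c9737 (k8 c8435 c11345 c5480 c9725 c11269 c5444 c311 c5313 (k8 c5324 c5482 c10209 c5493 c5365 c5364 c5435 c5317 (k8 c5316 c5476 c5475 c5325 c5321 c5445 c713 c10906 (k4 c718 c10900 c10404 c2072 (k1 c11199 k0)))))) (by decide +kernel)
def c11349 : PP 9 3 T 0x40000000200000000000000000000000000000000000000000000000000000000000000000000200000 := rS 0x1ec57fbda48c401f7c6de71f85c24654c0d57014ec54961e47fcf39b5efe4cec752cb17307f1e8dc6657d0d6566cb58ad76c3b24a841293039876004219746a5b0d8c5eb3a (k8 c11329 c5477 c5476 c5475 c5474 c5324 c5321 c5478 (k8 c9725 c11269 c5445 c713 c5444 c311 c5398 c11174 (k8 c10906 c9724 c5422 c5421 c5420 c5574 c5337 c5377 (k8 c5313 c5316 c5435 c5436 c804 c11345 c5364 c5480 (k8 c5482 c10209 c10897 c5493 c11347 c5211 c11336 c5526 (k8 c11348 c2590 c1087 c1083 c6743 c1084 c7606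 c2319 (k8 c6300 c6188 c6350 c2347 c6118 c5580 c2829 c5670 (k4 c938 c939 c5505 c2940 (k2 c5204 c8528 k0))))))))) (by decide +kernel)
def c11350 : PP 9 3 T 0x800000000020000000000000000000000000040000000000000000000000000000000000000000000000000000000000000000000000000000200000 := rS 0xf619bccb6f5d9ade740f418e06ee071927c3e2c9a74da6bce7cd3661ace8653b64cec22a3b (k8 c10906 c5414 c11269 c5447 c9724 c11349 c5377 c5337 (k8 c5445 c5397 c11305 c5221 c5523 c5529 c5412 c10443 (k8 c5216 c6706 c11174 c5466 c9176 c1484 c5654 c5525 (k8 c5369 c11329 c5533 c8057 c5477 c5474 c5325 c5492 (k2 c11129 c397 k0))))) (by decide +kernel)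
def c11351 : PP 9 3 T 0x4000001000000000000000000000000000000000000000000000000440000000000000000040000200000000000000000000000200000 := rS 0x194ceae3480596b156ed92bb0 (k8 c11269 c5446 c9724 c5573 c5421 c5420 c9723 c9744 (k4 c8516 c2005 c1131 c5664 k0)) (by decide +kernel)
def c11352 : PP 9 3 T 0x400000000004000001040000000000000000000008000000000000000000000000440000000000000000004400000000008000000200000000205400 := rS 0xf668a14ec593a96dea8b629759ef3 (k8 c5325 c2558 c5321 c836 c853 c5477 c5474 c11351 (k4 c368 c5668 c789 c2131 (k2 c3571 c398 k0))) (by decide +kernel)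
def c11353 : PP 9 3 T 0x20000000000000000000000000040000000000000000000000000000000000000000000000000000000000000000000000000000200000 := rS 0x15ed58025da0f62ca1731df7f8e0943723b83c2d371b5fc456c9a0cd68707e73660b06fcd6e6d10c553ba1ac81032034fb2d62addb0ec929364a6cc2954cec0baf32dbd67529 (k8 c11349 c11329 c5477 c5474 c5325 c5321 c11269 c5447 (k8 c5446 c5445 c5397 c5396 c5444 c11174 c10906 c9724 (k8 c5573 c5421 c5420 c5572 c9722 c9701 c9725 c5337 (k8 c5377 c5412 c5414 c5528 c5529 c5533 c11305 c315 (k8 c717 c8057 c5221 c5369 c5373 c5523 c5525 c10443 (k8 c10195 c5216 c5465 c5466 c5579 c6706 c9176 c2789 (k8 c1484 c5660 c5654 c2568 c11350 c11352 c5365 c5480 (k4 c3571 c398 c8190 c565 (k2 c1711 c3070 (k1 c8943 k0)))))))))) (by decide +kernel)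
def c11354 : PP 9 3 T 0x8000000000000000000000000040000000000000000000000000000000000000000000000000000000000004000000000000000200000 := rS 0x208f7c6c44019513ef2cc70ce1d4bd6453a13498c02b1db3252a0730ec1165d9d0fcee5f3ae480929 (k8 c11349 c9725 c10195 c5440 c5439 c5912 c403 c11329 (k8 c5321 c853 c11269 c5445 c713 c5446 c5396 c9724 (k8 c5421 c9723 c9755 c9744 c5377 c8199 c5337 c5404 (k8 c5486 c5487 c8393 c313 c5504 c1979 c8120 c8130 (k4 c10013 c5463 c1487 c10745 (k1 c5655 k0)))))) (by decide +kernel)
def c11355 : PP 9 3 T 0x80004000000000000000000000000000000000000040000000000000000000000000000000000000000000000000000000000004000000200000000200000 := rS 0x816f91c78202087eb2b3db08d360730a44f67947e736a3fc91f6520949ec0081325c4dc6e1 (k8 c5591 c5549 c5547 c5546 c184 c9725 c11269 c5444 (k8 c311 c11349 c8164 c10195 c403 c11353 c5211 c5526 (k8 c5524 c5372 c10190 c5445 c713 c5397 c9734 c9724 (k8 c5574 c5337 c2472 c546 c5650 c5655 c2422 c2770 (k2 c1487 c5846 k0))))) (by decide +kernel)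
def c11356 : PP 9 3 T 0x80004000000000000000000000000000000000000040000000000000000000000000000000000000000000000000000000000004000000000000000200000 := rS 0x1be9d1b0e7c2e18ab8d669f65ad76c23020ed429b4cec2523f (k8 c403 c11349 c11269 c5447 c5397 c5398 c10906 c9725 (k8 c9734 c9724 c5422 c5420 c5572 c5574 c5549 c5590 (k4 c5591 c7694 c11355 c5654 (k2 c1480 c2332 (k1 c3620 k0))))) (by decide +kernel)
def c11357 : PP 9 3 T 0x2000000000000000000000000000000000000040000000000000000000000000000000000000000000000000000000000004000000040000000200000 := rS 0x50ec92a104a4c0e61d803c1a7b3ce736ac7c90125239 (k8 c5534 c11349 c9725 c10195 c5357 c11353 c5211 c5524 (k8 c5372 c9673 c9737 c11269 c5445 c713 c5444 c311 (k4 c5398 c11174 c10906 c3568 (k1 c10925 k0)))) (by decide +kernel)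
def c11358 : PP 9 3 T 0x4000000000000000001000000000000000000040000000000000000000000000000000000000000000000000000000000004000000000000000200000 := rS 0x11bef6947064664499414a9819003c4b1e8d8d8e14ef81bff3ac80cd20156ed846494da64129303987605d1a96c36317ace8d79cda8fcee75c901253b3 (k8 c11354 c11349 c9725 c10195 c5440 c5912 c403 c11353 (k8 c5211 c9672 c11329 c5477 c5476 c5475 c5474 c5324 (k8 c5321 c11269 c5445 c713 c5444 c311 c5447 c5397 (k8 c11174 c9734 c9724 c5573 c9723 c9744 c9722 c5337 (k8 c11356 c6120 c5168 c5458 c5460 c10443 c11357 c10954 (k8 c2593 c8484 c5655 c7820 c2319 c2315 c10961 c8134 (k4 c5664 c5729 c544 c545 (k2 c5504 c2083 (k1 c9178 k0))))))))) (by decide +kernel)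
def c11359 : PP 9 3 T 0x4000001000000000000000000000000000000000000000000000000440020000000000000040110000000400000000000000000200000 := rS 0x2212fef579911a67d0d64e26900a7f6ca1649852bb0 (k8 c11269 c5446 c5445 c5396 c5398 c9724 c5572 c9723 (k8 c9744 c9720 c5337 c5377 c733 c947 c5664 c1131 (k4 c8847 c1126 c9178 c10708 k0))) (by decide +kernel)
def c11360 : PP 9 3 T 0x100000000000000000000040000000000000000000000000000020000000000000000200000 := rS 0x3207009b0 (k4 c11269 c9725 c313 c314 (k1 c8915 k0)) (by decide +kernel)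
def c11361 : PP 9 3 T 0x1000000000000000000040000000000000000000000000000000000000000000000000000000000004000000200000000200000 := rS 0x341eecd557b4401f0588d929b7986d0e0f06a0f39b563f7c64593a96c6a31039858ad36ba07c5b32fe48fb2904a4f600409a2cbb3a (k8 c11329 c5321 c853 c184 c9725 c11269 c5444 c311 (k8 c11349 c8164 c10195 c5439 c11354 c11358 c5463 c5465 (k8 c5579 c11359 c5445 c713 c5476 c5324 c5474 c5440 (k8 c11360 c10897 c5492 c5357 c11353 c5211 c5525 c9673 (k8 c9737 c8435 c5475 c5325 c5397 c5396 c9734 c2470 (k8 c2472 c5650 c10404 c11337 c2075 c10820 c6897 c2129 k0)))))) (by decide +kernel)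
def c11362 : PP 9 3 T 0x40000000000000000000000000000000000000000000000000000000000004000000140000000200000 := rS 0x7847729 (k4 c11349 c10906 c11357 c5654 k0) (by decide +kernel)
def c11363 : PP 9 3 T 0x1000000000000000000040000000000000000000000000000000000000000000000000000000000004000000000000000200000 := rS 0x114258f5c29d1b0e5bee3f12cd96b5db08c08494da6761b5 (k8 c11353 c11269 c5447 c5397 c11174 c9725 c9734 c9724 (k8 c5422 c5420 c5574 c11358 c5466 c5580 c11361 c11362 (k4 c1480 c1484 c10954 c2593 (k2 c6118 c10763 k0)))) (by decide +kernel)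
def c11364 : PP 9 3 T 0x2000000000008000001000000000000000000040000000000000000000000000000000000000000000000000000000000000000000000000000200400 := rS 0x210ecf73af7c3aaf3480596b15688c08f37aa2d0e0f0696d079cdab14bb3a6b965a6c70fc536c99d878b2656ace865249 (k8 c11174 c11349 c5377 c5337 c11363 c5353 c5216 c11269 (k8 c5447 c9724 c6706 c1087 c5535 c5579 c11360 c5465 (k8 c11329 c5321 c836 c11353 c5211 c5525 c5474 c9673 (k8 c9737 c8435 c853 c5477 c5325 c9725 c9734 c5573 (k8 c5421 c5420 c9723 c9744 c5406 c5486 c7702 c8516 (k4 c8123 c5668 c3571 c788 k0)))))) (by decide +kernel)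
def c11365 : PP 9 3 T 0x2000000000000000001000000000000000000040000000000000000000000000000000000000000000000000000000000000000000000000000200400 := rS 0x1df3babcc8aa3aecdfe202507e28cb56ed8460424a8592954cec1e68b4396d079c62975afed9d03cb2d3f164cad59d0ca41bb5 (k8 c11353 c9673 c11349 c5377 c5337 c11363 c5353 c5216 (k8 c5579 c11360 c9737 c11329 c10404 c5465 c5321 c836 (k8 c5211 c5525 c5474 c8435 c853 c5325 c11269 c5447 (k8 c5446 c5396 c5398 c11174 c9725 c9734 c9724 c5573 (k8 c5420 c6706 c1087 c10763 c5650 c2568 c11364 c11351 (k4 c11337 c8138 c1287 c2053 (k2 c9031 c5668 k0))))))) (by decide +kernel)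
def c11366 : PP 9 3 T 0x8000001000000000000000000040000000000000000000000000000000000000000000000000000000000000000000040000000200000 := rS 0x843b3dcebdf0eabcd20165ac55bb611811ea8b4383c1a5b41e736ac52eb5cb2d3f164eb3a10fa6f60cf1c7841656948ede73a (k8 c11329 c5325 c10906 c11349 c11363 c771 c11365 c5654 (k8 c2558 c11269 c5397 c2472 c5377 c5337 c5353 c5216 (k8 c5579 c11360 c5465 c5321 c836 c11353 c5211 c5525 (k8 c5474 c9673 c9737 c8435 c853 c5477 c9725 c9734 (k8 c9724 c5573 c5421 c5420 c9723 c9744 c5406 c5486 (k4 c7702 c8516 c8123 c5668 (k2 c3571 c789 k0))))))) (by decide +kernel)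
def c11367 : PP 9 3 T 0x1000000000000000000040000000000000000000000000000000000000000000000000000000000000000000040000000200000 := rS 0x322b955ded98803e38f0fb416cb56ed846041da853695d822cba8707834b73a41e736ad72cb4fc5932b5674329 (k8 c11349 c5377 c5337 c11363 c5353 c5216 c5579 c11360 (k8 c5465 c11353 c5211 c5525 c11329 c5474 c9673 c9737 (k8 c8435 c5321 c853 c11269 c5446 c5397 c5398 c10906 (k8 c9725 c9734 c9724 c5573 c5420 c771 c10404 c11365 (k8 c5654 c2472 c5650 c11366 c11352 c11337 c9031 c8138 (k1 c1131 k0)))))) (by decide +kernel)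
def c11368 : PP 9 3 T 0x1000000000000000000040000000000000000000000000000000000000000000000000000000000000000000000000000200000 := rS 0x114258f5c29d1b37dc7e2c995b435911810929b4cec253b5 (k8 c11353 c11349 c11269 c5447 c5397 c11174 c9725 c9734 (k8 c5337 c5377 c11363 c5353 c5216 c5466 c5580 c11367 (k4 c1480 c1484 c10954 c2593 (k2 c9176 c10763 k0)))) (by decide +kernel)
def c11369 : PP 9 3 T 0x40000000000000000000000000000000000000000000000000000000000004000000200000000200000 := rS 0x12e6755081eccf0f82cd2630088d3695d8175e6f54383c1a5b9d20f39b562a14b2653ae60ee5f63e480929 (k8 c11349 c9725 c10195 c5357 c5439 c5912 c11368 c5482 (k8 c5481 c5480 c5365 c5364 c11353 c5211 c5525 c11329 (k8 c5474 c9673 c9737 c8435 c5477 c5325 c5321 c11269 (k8 c5446 c5397 c9734 c9723 c9755 c9744 c2470 c2472 (k4 c2558 c3571 c5650 c343 (k2 c2123 c1285 (k1 c10013 k0))))))) (by decide +kernel)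
def c11370 : PP 9 3 T 0x40000000000000000000000000000000000000000000000000000000000004000000000000000200000 := rS 0x1ec7eb3952ab363343c9d688d872c7196cf247711a6d320730ec0085d1a86c62f5949ad0e0f0696e747b3ce736ac542964eb98 (k8 c11368 c5482 c5480 c5365 c5364 c11353 c5211 c5524 (k8 c5372 c11329 c5474 c9673 c9737 c8435 c9672 c11349 (k8 c5477 c5476 c5475 c5324 c5321 c9725 c11269 c5445 (k8 c713 c5447 c5397 c9734 c5912 c10195 c11354 c10897 (k8 c5357 c11369 c11362 c2130 c1480 c8484 c2329 c10443 (k4 c1084 c2319 c10201 c2552 (k2 c5682 c5543 k0))))))) (by decide +kernel)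
def c11371 : PP 9 3 T 0x2000000000000000000000000000000000000040000000000000000000080000000000000000000000000000000000000000000000000000000200000 := rS 0x4bb555eaa803fc404a0fc51c29d4fb2d62addb08c084950b252a99d83ce75b56bb4fc5932b5674329 (k8 c11349 c5377 c5337 c11370 c5353 c5216 c5579 c5465 (k8 c11353 c11329 c5325 c11269 c5447 c5446 c5396 c5398 (k8 c11174 c9725 c9734 c9724 c5573 c5421 c5420 c5572 (k8 c5458 c5460 c6706 c1087 c10763 c5650 c2568 c565 (k4 c343 c1287 c3072 c1284 (k1 c3618 k0)))))) (by decide +kernel)
def c11372 : PP 9 3 T 0x40000000000000000000000000000000000000000000000000000000000000008000040000000200000 := rS 0x1aaaf803fc32034fb2d62addb24d929571b4fc559d0b412f93550803e38f0ca4769bd808c08f605958b2870696de6f541e70bb3a42e601fb5 (k8 c11353 c9737 c11368 c5365 c11329 c5321 c5211 c5525 (k8 c5477 c5325 c5474 c9673 c8435 c5480 c11370 c771 (k8 c3571 c9725 c9734 c11269 c5397 c10906 c11349 c11371 (k8 c5654 c2472 c5650 c343 c5353 c8190 c398 c5377 (k8 c5337 c5216 c5579 c5466 c5446 c5396 c5444 c9724 (k8 c5573 c5421 c5420 c5572 c9722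 c9701 c2568 c565 (k2 c1287 c1711 (k1 c8943 k0)))))))) (by decide +kernel)
def c11373 : PP 9 3 T 0x40000000000000000000000000000000000000000000000000000000000000000000040000000200000 := rS 0x6a3855ff28a92d54204bb403e471c785ec0b65ac55bb61181076494dec0baf37aa1c1e0d2dce9079cdaa14b3986bb4fc5932b5674329 (k8 c11349 c5377 c5337 c11370 c5353 c5216 c5579 c5465 (k8 c11368 c5480 c5365 c11353 c5211 c5525 c11329 c5474 (k8 c9673 c9737 c8435 c5477 c5325 c5321 c11269 c5397 (k8 c11174 c10906 c9725 c9734 c9724 c5573 c5421 c5420 (k8 c771 c3571 c11371 c5654 c8287 c2472 c398 c8190 (k8 c5650 c343 c11372 c10763 c5660 c1286 c5591 c9617 (k1 c1710 k0))))))) (by decide +kernel)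
def c11374 : PP 9 3 T 0x40000000000000000000000000000000000000000000000000000000000000000000000000000200000 := rS 0x114258f5c29d1b37dc7e2c995b6b29d0d64460424a6d33b0 (k8 c11269 c5447 c5397 c11174 c9725 c9734 c5337 c5377 (k8 c11349 c11353 c11370 c5353 c5216 c5466 c5580 c11373 (k4 c1480 c1484 c10954 c2593 (k2 c9176 c10763 k0)))) (by decide +kernel)
def c11375 : PP 9 3 T 0x80000000000000000000000000200000000000000000000000000000000000000000000000000000000000000000000201000 := rS 0x429d350640623020ed269b30a643e0b1b95c7217dad2b605f (k8 c5439 c11269 c11374 c9578 c5433 c5317 c5313 c5518 (k8 c5516 c5517 c5447 c5445 c5397 c5444 c10906 c9725 (k4 c9734 c9722 c9701 c10923 (k2 c1135 c2371 (k1 c3578 k0))))) (by decide +kernel)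
def c11376 : PP 9 3 T 0x80000000000000000000000000200000000000000000000000000000000000000000000000000000000000000000000200000 := rS 0xdf70a762a4a471a818e33e97c2213ac812220159b2d6bb6d8528ae39 (k8 c5317 c5313 c11374 c11269 c9724 c5422 c5420 c5574 (k8 c9723 c9730 c9725 c5337 c184 c183 c5439 c5442 (k8 c11064 c11375 c316 c532 c531 c10439 c1135 c2846 (k2 c2510 c6118 k0)))) (by decide +kernel)
def c11377 : PP 9 3 T 0x2004000000000000000001000000000000000000000000000200000000000000000000000000000000000000000000000000100004000000000000200000 := rS 0x7bfbfa124bdc6ef523d2b264521bce7404 (k8 c9725 c11323 c5325 c5478 c454 c11376 c11374 c5520 (k8 c5519 c5518 c5333 c11174 c5377 c10382 c8823 c5186 k0)) (by decide +kernel)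
def c11378 : PP 9 3 T 0x4000000000000000001000000000000000000000000000200000000000000000000000000000000001000000000000000100004000000000000200000 := rS 0x1d4baa90687ce7b7661b1aceb6cf14abdc63b5068806e9b0c80c72170fd2876931181133b0 (k8 c11269 c5447 c9725 c9734 c5444 c10906 c11374 c5517 (k8 c5433 c5317 c9722 c9701 c5397 c5518 c3578 c531 (k8 c9578 c5434 c5333 c5446 c9697 c9724 c11323 c5324 (k8 c5475 c7843 c11377 c5238 c5373 c5525 c11337 c1284 (k2 c2121 c5974 k0))))) (by decide +kernel)
def c11379 : PP 9 3 T 0x5400000000008000011040000000000000000000000000000000000040000000000000000000000000000000000000000000000000000000000200000 := rS 0x115f67cb43b6 (k4 c9724 c5377 c5188 c5185 (k2 c5590 c11235 k0)) (by decide +kernel)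
def c11380 : PP 9 3 T 0x4000000000000000000000000000000000000000000000200000000005000000000500020000041000000000205000000000000000000000000201000 := rS 0xe18045556de6631966b51db24129303984080f058de94571cf7d4295d832d5bb6 (k8 c9724 c5573 c5420 c11269 c5446 c5398 c9031 c5317 (k8 c5313 c11374 c5518 c5516 c5329 c9725 c5445 c713 (k8 c5444 c311 c5396 c10906 c5422 c5574 c3568 c839 (k4 c941 c2075 c2950 c10153 (k2 c1716 c2078 k0))))) (by decide +kernel)
def c11381 : PP 9 3 T 0x10000000000000000000000000000000000000000000000000000000000000000000000000000008000400000000000000000000200000 := rS 0xdb9d88804c3b0 (k4 c11269 c5445 c9723 c9730 (k2 c5372 c742 (k1 c5665 k0))) (by decide +kernel)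
def c11382 : PP 9 3 T 0x4000000000000000001000000000000000000000000000200000000000000000000000000000000001000000000000000000004000000000000200000 := rS 0x1e500c43ea0da4ff6ab5d52af7efb8efb20ececb9a1aceda220150b24fe57c99ecd6201ba6c32031c85c3e3b4988c089906ed695b0 (k8 c11269 c11374 c9578 c531 c5447 c9725 c9734 c5444 (k8 c10906 c5517 c5433 c5317 c9722 c9701 c5397 c5518 (k8 c3578 c2371 c11381 c11376 c5313 c804 c5396 c5398 (k8 c9723 c9730 c9724 c5337 c5377 c11378 c5321 c9747 (k8 c9749 c785 c5219 c2551 c5406 c5489 c5507 c5585 (k8 c5586 c11200 c8722 c2828 c8433 c5670 c1632 c11380 k0)))))) (by decide +kernel)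
def c11383 : PP 9 3 T 0x8000001000000000000000000000000000000000000000000000000040000000000000000000000000000000000000000002000200000 := rS 0xf7cef4359db28593b0 (k8 c11269 c5396 c5398 c9724 c5337 c5377 c7601 c11200 (k1 c5219 k0)) (by decide +kernel)
def c11384 : PP 9 3 T 0x4000011000000000000000000000000000200000000000000000000000080000000000000000000100400000000000000000000201000 := rS 0xec5862f7d0a87f62acd9110083dee0b1bbd467b5a56c3265d2dbce7483 (k8 c2485 c5210 c5325 c9663 c9749 c11376 c11269 c11374 (k8 c9578 c5316 c5519 c5518 c5516 c5333 c5329 c9723 (k8 c9730 c5665 c8880 c5238 c745 c5541 c10382 c838 (k2 c3571 c5668 (k1 c2051 k0))))) (by decide +kernel)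
def c11385 : PP 9 3 T 0x4000001000000000000000000000000000200000000000000000200400000000040000000000000100000000000000000000200201000 := rS 0x1d8b0c542fb157df65ab76ca14abddea33c996d165d79ce90687ce318f2911c9ef6a370781cc23b05d28ae0949ec0086b (k8 c2371 c9725 c11269 c5444 c311 c5313 c11374 c5516 (k8 c10906 c5445 c713 c5329 c5518 c9578 c11381 c5317 (k8 c904 c1542 c3568 c11384 c5373 c2485 c5210 c5325 (k8 c9749 c853 c9663 c11376 c5316 c5519 c5333 c5446 (k8 c5398 c9724 c5573 c5420 c9031 c11338 c11337 c5541 (k4 c838 c3571 c5668 c2051 k0)))))) (by decide +kernel)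
def c11386 : PP 9 3 T 0x1000000000000000000000000000200000000000000000000000000000000001000000000000000000004000000000000200000 := rS 0x210cc5944ab96f89bda1f38837e9d7def34596e745dd9b18f2e01237da6e36b907c47b358804e29d0864066900a7d97b6118ec929b4c8252607308103ef7058ddea4726a441e571c8fc2e3ddad2b600d (k8 c531 c11269 c11374 c9578 c5436 c5433 c5318 c5317 (k8 c5313 c5329 c904 c5521 c5520 c5519 c5518 c5516 (k8 c5333 c5517 c9725 c5445 c713 c5444 c311 c5447 (k8 c5397 c11174 c10906 c9734 c9724 c5420 c5572 c9723 (k8 c9744 c9722 c9701 c5377 c8199 c9721 c3578 c2371 (k8 c11381 c11382 c5462 c5465 c5466 c5579 c5580 c7824 (k8 c6010 c1542 c3568 c11383 c9749 c5210 c9663 c853 (k8 c5325 c6923 c11351 c2550 c2485 c11384 c5373 c5375 (k8 c5527 c11145 c11385 c2836 c530 c10758 c3571 c736 k0))))))))) (by decide +kernel)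
def c11387 : PP 9 3 T 0x4000000000008000001000000000000000000000000000200000000000000000000000000000000000000000000000000000004000000000000200000 := rS 0x1ed019c621f7bed27fb5606d73bfb8b93b54bf55fa1ac81196addb24d42c94aec02e7f2be4c1be13ca722201 (k8 c9723 c9730 c11386 c1538 c5458 c531 c11376 c5313 (k8 c804 c5433 c11269 c5446 c5396 c5398 c5444 c9724 (k8 c5573 c5420 c9725 c5337 c5377 c5406 c5405 c5489 (k8 c7843 c11323 c5219 c785 c5507 c5508 c5585 c5586 (k8 c11200 c9031 c2828 c8433 c11379 c5670 c5372 c11380 k0))))) (by decide +kernel)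
def c11388 : PP 9 3 T 0x4000000000000000001000000000000000000000000000200000000000000000000080000000000000000000000000000000004000000000000200000 := rS 0xe05537d53f37ec01a3ee3aabfbfa156a85ea473fe4fc2e365ed9164521bce74c63de73da5ddaecc72794e44402370781cc23b0682e945704a4f6004 (k8 c9725 c11269 c5444 c311 c5313 c11374 c5516 c531 (k8 c10906 c5445 c713 c5329 c5518 c9723 c9730 c11386 (k8 c1538 c5317 c11387 c9578 c9749 c11377 c5238 c5372 (k8 c3568 c5210 c5325 c5478 c454 c853 c9724 c5420 (k8 c1777 c5458 c11376 c804 c5520 c5519 c5398 c5573 (k8 c5377 c5496 c2940 c1970 c5186 c10484 c9072 c1240 (k4 c5592 c2026 c2953 c5682 (k2 c5691 c11338 k0)))))))) (by decide +kernel)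
def c11389 : PP 9 3 T 0x8005000000000000000000000000000000000000000008000200000000000000000400040000000000000000000000000000000004100000000000200000 := rS 0xe18010076f523d2886f3 (k8 c5325 c5478 c11374 c5520 c5519 c10906 c6923 c9072 (k2 c1714 c9158 k0)) (by decide +kernel)
def c11390 : PP 9 3 T 0x4000000000000000001000000000000000000000000000200000000000000000000000000000000000000000000000000000004000000000000200000 := rS 0x1d4b2774bb17bdef698d48a1b9d17767a164a5412930398760042b8cf27e171a7197b6 (k8 c9724 c5420 c11386 c1777 c5458 c11376 c5316 c5313 (k8 c9725 c11269 c5445 c713 c5444 c311 c5446 c5396 (k8 c5377 c11387 c9749 c5210 c9662 c454 c5324 c11388 (k8 c11389 c5186 c5451 c5452 c5493 c9442 c11111 c10693 k0)))) (by decide +kernel)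
def c11391 : PP 9 3 T 0x4001000000000004000011040000000000000000000000000000000000001000000000002020000000000000001101100000000000000000000100200000 := rS 0x1506d0e9e9106463a34cf597880cd20111810c3b00fbddeb4a0dbce74ab (k8 c8880 c5210 c5325 c9662 c11374 c5519 c5333 c5517 (k8 c11269 c5445 c9725 c9734 c9723 c9744 c9722 c9697 (k8 c5337 c733 c947 c838 c5664 c9178 c5669 c8673 (k2 c742 c3581 (k1 c1958 k0))))) (by decide +kernel)
def c11392 : PP 9 3 T 0x2000000000000000000000000000000000000000080000000000000000000004000000000000000000000000000001800000140000000004000000001000 := rS 0x2ca0c1ef705bd50e85 (k8 c5541 c5499 c5519 c5516 c5333 c5329 c2056 c2051 (k1 c3571 k0)) (by decide +kernel)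
def c11393 : PP 9 3 T 0x11000000000000000000000000000200000000000000000000000000000000000000000000000000000004000000000000200000 := rS 0xaf1019188673bb33befd42b459fec559a4120730811ee377a95c663918ed7260df09e6220140b8092df1d91e94e34e16c6af3f7ce882754597766246586406174fed87a93d809c53a11fb4dafe2 (k8 c11390 c5465 c5579 c5318 c5377 c8199 c9721 c11269 (k8 c5444 c5436 c9724 c5572 c5433 c9722 c9701 c5420 (k8 c7824 c11383 c9749 c853 c11351 c5462 c5210 c6923 (k8 c5325 c5324 c9663 c11386 c1777 c11374 c5520 c10906 (k8 c5580 c11174 c6010 c5463 c9723 c9730 c1538 c5458 (k8 c531 c11376 c9578 c5434 c5317 c5316 c5313 c5519 (k8 c5518 c5333 c9725 c5445 c713 c311 c9744 c8880 (k8 c5238 c1651 c5501 c5541 c5542 c10382 c3587 c11392 (k4 c5729 c5668 c5664 c11391 (k2 c1131 c11385 k0)))))))))) (by decide +kernel)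
def c11394 : PP 9 3 T 0x140000010000000000000000000000000000000000000000000000000000a0000004000000000000000000000000000000000000200000 := rS 0xf6991086734804c3b0 (k8 c11269 c5445 c9723 c9744 c733 c838 c5664 c5541 (k1 c8720 k0)) (by decide +kernel)
def c11395 : PP 9 3 T 0x400000000000000001000000000000000000000000000200000000000000000000000000000004000000000000000000000004000000000000200000 := rS 0x214b27662b3deef519ed7265b79ce8ea8b2eecc48cb0c80c2e9fdb0f44e29d08fda6d7f121d06c63de7072794e44402370781cc23b0682e945704a4f6004 (k8 c9725 c11269 c5444 c311 c5313 c11374 c5516 c531 (k8 c10906 c5445 c713 c5329 c5518 c9723 c9730 c11386 (k8 c1538 c5317 c11393 c5372 c3568 c5525 c5373 c11390 (k8 c5465 c5579 c5318 c5377 c8199 c9721 c5436 c9724 (k8 c5572 c5433 c9722 c9701 c5420 c7824 c11383 c9749 (k8 c853 c11351 c5210 c5325 c9663 c11376 c9578 c5316 (k8 c5519 c5333 c1651 c11394 c5668 c2051 c789 c3571 k0))))))) (by decide +kernel)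
def c11396 : PP 9 3 T 0x4000021040000000000000000000000000000000000000000000200000080000008000000000000000000000000000000000000200000 := rS 0x57191165d (k4 c9749 c853 c8138 c11338 (k1 c1131 k0)) (by decide +kernel)
def c11397 : PP 9 3 T 0x1000000000000000000000000000200000000000000000000000000000000000000000000000000000004000000000000200000 := rS 0xb277ef31556c63de70ea354596e745dd9b8048df69b5c83e2719e5380d138a7421901c44029f65ed8764904a4c0e610203c16372395c66391f85c623ddad2b6193 (k8 c11376 c11269 c11374 c9578 c5436 c5434 c5433 c5318 (k8 c5317 c5316 c5313 c5520 c5518 c5516 c5329 c9725 (k8 c5445 c713 c5444 c311 c11174 c10906 c9724 c5420 (k8 c5572 c9723 c9730 c9722 c9701 c5377 c8199 c9721 (k8 c531 c11386 c1538 c1777 c11390 c5462 c5465 c5579 (k8 c5580 c7824 c6010 c11383 c9749 c5210 c9663 c853 (k8 c5324 c11351 c11393 c5372 c3568 c11396 c11394 c11395 (k2 c5493 c9442 (k1 c3567 k0))))))))) (by decide +kernel)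
def c11398 : PP 9 3 T 0x45000000000000000000040000000004000000040000000000000000000202000 := rS 0x200ab471a808b1db2441f4a (k8 c11374 c5329 c904 c9724 c5421 c9725 c316 c532 (k2 c1138 c8602 (k1 c2849 k0))) (by decide +kernel)
def c11399 : PP 9 3 T 0x8000001000000000000000000000000000200000000000000000000000000000000000000000000000000000000000000000000200000 := rS 0x7847834f680f1b10fad27fb5606d73ba1fdc5c2dced52677eabf4359db01126a164ec02e7f2be4fe64a (k8 c11397 c5546 c11376 c5313 c804 c5433 c11269 c5396 (k8 c5398 c5444 c9725 c9724 c5337 c5377 c5406 c5405 (k8 c5487 c5489 c7843 c715 c11323 c5219 c11253 c785 (k8 c5507 c5508 c5585 c5586 c11200 c2828 c8433 c6616 (k4 c5670 c8438 c11398 c2399 (k2 c11380 c1751 k0)))))) (by decide +kernel)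
def c11400 : PP 9 3 T 0x1000000000000000000000000000200000000000000000000000000000000000000000000400000000000000000000000202000 := rS 0x10257a3552646219c066959ac56aaddb01cc2572da2cbaff47454d41109c44035955bf44101ef9d598cf1cb446af71d8dc62337abcd8e094981103e2f0fb36b4ad84eb67a1c9fcc959d (k8 c5522 c11397 c5546 c11376 c5377 c11399 c5210 c11269 (k8 c11374 c9578 c5238 c6290 c5188 c5463 c9725 c5444 (k8 c311 c2481 c5325 c5519 c5316 c5434 c5518 c10906 (k8 c5333 c5324 c5501 c5317 c5543 c3587 c1968 c10382 (k8 c5502 c315 c2550 c8880 c5337 c9723 c9730 c184 (k8 c183 c316 c10439 c532 c2568 c9749 c853 c9663 (k8 c5313 c5445 c713 c9724 c5573 c5422 c5421 c5574 (k8 c9744 c9722 c5729 c5668 c5664 c2376 c947 c1131 (k2 c3623 c2406 k0))))))))) (by decide +kernel)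
def c11401 : PP 9 3 T 0x1000000000000000000000000000200000000000000000000000000000000000000000000000000000000000000000000202000 := rS 0x13ae13d9d9c6cc67b450fec8aa38d46dce844275901812220159a7d96b5db0ed429b4cbdc6ef5198c76b4ad837c94391abce75b3 (k8 c11399 c5210 c5325 c5324 c5317 c11397 c2510 c11269 (k8 c11374 c9578 c5434 c5316 c5519 c5518 c5333 c5447 (k8 c5397 c5398 c10906 c9724 c5422 c5420 c5572 c5574 (k8 c9723 c9730 c9725 c9722 c5337 c184 c183 c5522 (k8 c2427 c316 c532 c10439 c5238 c5499 c5501 c5543 (k4 c3587 c4623 c11400 c889 (k2 c2847 c8792 (k1 c3620 k0)))))))) (by decide +kernel)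
def c11402 : PP 9 3 T 0x40004000000000014000111040000000000000000000000000200000000000000000000000000000000000000000000000000000000000000000000000000 := rS 0x783d93a (k4 c5210 c5238 c5188 c6290 k0) (by decide +kernel)
def c11403 : PP 9 3 T 0x4000000000000000001000000000000000000000000000200000000000000000000000000000000000000000000000000000000000000000200200000 := rS 0x661dd9ed162fb156e071f858c833ca1f39a11d8252607308101ef7058ddea33189fcaf93f9b7c94392e96c6af39d6ccf66b06ed695b0 (k8 c11269 c11374 c9578 c11401 c2371 c11381 c11399 c5210 (k8 c5325 c5324 c9663 c9749 c5317 c11397 c2510 c5546 (k8 c11376 c5313 c804 c5434 c5316 c5519 c5518 c5516 (k8 c5333 c5329 c9725 c5445 c713 c5444 c311 c10906 (k8 c5377 c11402 c5373 c5524 c5525 c3568 c5535 c2620 (k8 c5691 c11396 c11337 c11394 c5501 c5543 c11392 c3587 (k1 c8354 k0))))))) (by decide +kernel)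
def c11404 : PP 9 3 T 0x11000000000000000000000000000200000000000000000000000000000000000000000000000000000000000000000200200000 := rS 0x1e58f12d08ec129303984080b1ba441e571c928f66b06ed695b0719d5a68b2eecdafe2 (k8 c11403 c5465 c11399 c9749 c853 c5579 c11351 c5466 (k8 c11269 c11374 c9578 c11401 c2371 c11381 c11397 c5317 (k8 c5313 c5329 c904 c5518 c5516 c9725 c5445 c713 (k8 c5444 c311 c10906 c5377 c11050 c11384 c2602 c3568 k0)))) (by decide +kernel)
def c11405 : PP 9 3 T 0x140000010000000000000000000000000000000000000000000000000000a0000000000000000000000000000000000000000000200000 := rS 0x662a993b0 (k4 c11269 c5396 c11394 c839 (k1 c2075 k0)) (by decide +kernel)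
def c11406 : PP 9 3 T 0x1000000000000000000000000000200000000000000000000000000000000000000000000800000000000000000000200200000 := rS 0x157ed32b2467b5a56c0ba5b79ceb660d439e5079c (k8 c11404 c5525 c5524 c5373 c11401 c11399 c5210 c5325 (k8 c9663 c9749 c11269 c11374 c9578 c5316 c5396 c2053 (k2 c11392 c8138 (k1 c11337 k0)))) (by decide +kernel)
def c11407 : PP 9 3 T 0x1000000000000000000000000000200000000000000000000000000000000000000000000000000000000000000000200200000 := rS 0x58ef1dd8ac63ce70ead36bf88f66b1d8252607308101e0b1b95c663918ed695b0c996d165d1aceb660d (k8 c11401 c11399 c5210 c5324 c9749 c853 c9663 c11376 (k8 c11269 c11374 c9578 c5434 c5317 c5316 c5313 c5518 (k8 c5516 c5329 c9725 c5445 c713 c5444 c311 c10906 (k8 c2371 c11381 c11403 c5465 c5579 c11351 c11404 c5524 (k4 c3568 c11405 c11406 c5668 (k2 c3567 c9442 k0)))))) (by decide +kernel)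
def c11408 : PP 9 3 T 0x11000000000000000000000000000200000000000000000000000000000000000000000000000000000000000000000000200000 := rS 0x18c753db4dae6bf144b42b5db0240e6105a441e57dae4fe64a45977660df09e538211ba6c32031c85c3f4a1da4c46044cec22201 (k8 c9723 c9730 c11269 c5447 c9725 c9734 c5444 c10906 (k8 c11374 c5517 c5433 c5317 c9722 c9701 c5397 c5518 (k8 c11407 c3578 c1538 c5458 c11401 c11399 c9749 c853 (k8 c11397 c5546 c11376 c9578 c5313 c5329 c904 c5516 (k8 c5445 c713 c311 c9724 c5422 c5377 c11050 c5188 (k4 c2600 c5465 c5579 c11381 (k2 c11351 c3568 (k1 c11384 k0)))))))) (by decide +kernel)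
def c11409 : PP 9 3 T 0x8000000000000004000000240080000000004002000000020000000000000000004000104200000 := rS 0x3207152fd44401a3038e9a402ad24bd6944379b8d97b6 (k8 c9724 c5420 c1777 c5325 c5478 c11374 c5519 c11174 (k8 c5573 c9723 c9744 c2081 c2088 c2136 c3062 c2827 (k4 c1240 c2026 c11009 c8411 (k1 c8656 k0)))) (by decide +kernel)
def c11410 : PP 9 3 T 0x800000000000000001000000000000000000000000000200000000000000000000000000000000000000000000000000000000000000000000200000 := rS 0x752c9dd2ec94a8cc625d2d86c6b3a62b18f79c3ca70429b0c80c72170f88d3311008dc1e07308ec1a0b2b8252604d9ed695b0 (k8 c11269 c11374 c9578 c11399 c9725 c5444 c311 c5313 (k8 c5516 c11401 c10906 c5445 c713 c5329 c5518 c9723 (k8 c9730 c5447 c9734 c5517 c5433 c5317 c9722 c9701 (k8 c5397 c11407 c3578 c1538 c11408 c5372 c3568 c11405 (k8 c5210 c5324 c9662 c9663 c9749 c5434 c5316 c5446 (k4 c5396 c5452 c5493 c9442 (k2 c11111 c3567 k0))))))) (by decide +kernel)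
def c11411 : PP 9 3 T 0x4000000000000000001000000000000000000000000000200000000000000000000000000000000000000000000000000000000000000000000200000 := rS 0xd255907dc7c70684667fc9fcc36ff79ceb67e171b2f6c81631ef38794e08536190185c3e234cc4402370781cc23b0682e945704a4f60046f92873df (k8 c11410 c5317 c11397 c2510 c9725 c11269 c5444 c311 (k8 c5313 c11374 c5516 c11401 c10906 c5445 c713 c5329 (k8 c5518 c9723 c9730 c5447 c9734 c5517 c5433 c9722 (k8 c9701 c5397 c11407 c3578 c1538 c11408 c5372 c3568 (k8 c941 c9724 c5420 c1777 c5458 c11399 c5210 c5325 (k8 c2568 c9662 c5546 c11376 c804 c5316 c5377 c5691 (k4 c5670 c5186 c1714 c11396 (k2 c6923 c11409 k0)))))))) (by decide +kernel)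
def c11412 : PP 9 3 T 0x1000000000000000000000000000200000000000000000000000000000000000000000000000000000000000000000000200000 := rS 0xfd42199a259329d8ead36bf8bbec56320d0e7bce1e5382106bcd165b9d177661901c44d201118ed929b4c8252607308103e0f7b82c6ef52b8cc7217dad2b6193 (k8 c11376 c11269 c11374 c9578 c5433 c5317 c5316 c5313 (k8 c5519 c5518 c5516 c5333 c5329 c5517 c9725 c5445 (k8 c713 c5444 c311 c5447 c5397 c5396 c10906 c9734 (k8 c9723 c9744 c9730 c9722 c9701 c11399 c9749 c5210 (k8 c9663 c853 c5325 c11401 c11407 c3578 c1538 c11408 (k8 c5372 c5373 c5525 c3568 c11405 c11410 c11411 c5465 (k8 c5579 c11351 c5668 c2053 c2051 c2131 c5664 c3571 (k2 c1240 c736 k0)))))))) (by decide +kernel)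
def c11413 : PP 9 3 T 0x8000000000000000000000000000000000200200000000000000000000000000000000000000000000000000000000000000000200000 := rS 0x6a1b589fcaf9362e603b3b0bed927b0 (k8 c11269 c5444 c9724 c5433 c7843 c5486 c11412 c5364 (k4 c11376 c5313 c804 c5421 (k2 c2161 c11293 (k1 c11270 k0)))) (by decide +kernel)
def c11414 : PP 9 3 T 0x8000000000000000000000000000000000200000000000000000000000000000000000000000000000000000000000000000000200000 := rS 0x1a1de3a5b9d99f6c0949ec008171e9fcae5d2c9d51398 (k8 c11412 c5484 c5482 c5480 c5361 c5313 c804 c5436 (k8 c5433 c9725 c11269 c5444 c311 c9724 c5487 c7843 (k4 c715 c11413 c11292 c10209 (k1 c11296 k0)))) (by decide +kernel)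
def c11415 : PP 9 3 T 0x10000000000000000000000008000200000000000000000000000000000000000000000000000000000000000000000000202000 := rS 0xf0cc3df859e87f63f5a276798d4769503985ee377a95c663918ed6959362964ebb31031c1293d82acda0388804caa9350110798 (k8 c11412 c5483 c9725 c316 c2375 c5481 c9723 c9730 (k8 c9722 c2427 c9859 c11269 c5444 c311 c2481 c315 (k8 c11414 c5482 c5480 c5364 c11376 c11374 c9578 c5434 (k8 c5317 c5316 c5313 c5519 c5518 c5333 c5445 c713 (k8 c5446 c10906 c5324 c5325 c10693 c9201 c2550 c5682 (k4 c5499 c5543 c6290 c889 (k2 c3587 c5669 (k1 c2385 k0)))))))) (by decide +kernel)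
def c11416 : PP 9 3 T 0x40000000000000000000000000000000000000000000000000200001000050000000040080000000005000000000200000000000000000000000200200000 := rS 0x771a96d1a1cf73f3daff57e84e20139d6566b15aed9420949ec008572c9d51398 (k8 c11412 c5484 c5482 c5480 c5313 c9725 c11269 c5444 (k8 c311 c5398 c9724 c5422 c5421 c5574 c5337 c9717 (k8 c9723 c9720 c5377 c2940 c2942 c10405 c8604 c5694 (k4 c2551 c5505 c1995 c331 (k2 c938 c10209 k0))))) (by decide +kernel)
def c11417 : PP 9 3 T 0x4000000000000000000000000000000000000000000000000001000050000000800140000000005000000000000000000000000100020000200200000 := rS 0x57bf5ffee0eb5fbeb358ed927b0 (k8 c11269 c5444 c9724 c5421 c5574 c5450 c1764 c331 (k4 c5689 c2575 c2551 c5584 (k1 c8604 k0))) (by decide +kernel)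
def c11418 : PP 9 3 T 0x2000000000000000000000000000000000000000000000000000000000000000000000000000000080000000000000000202000 := rS 0x1f8af0d19823a100811e2030fd290689 (k8 c5484 c5483 c11374 c5517 c9722 c9697 c9725 c9723 (k4 c5377 c183 c715 c716 (k2 c10406 c11096 (k1 c1075 k0)))) (by decide +kernel)
def c11419 : PP 9 3 T 0x4000000000000000010000000000000000000000000000200000000000000000000000000000000000000000000000000000000000000000000202000 := rS 0xd4eed36ab89009d70f80f7a159a7d96b5db28536614c82527b04883e947f2be4d8a593a914ba208a8442759559b4071100995526a0240d070147227e6df250e4b798 (k8 c11412 c11418 c5317 c531 c2510 c5546 c5484 c532 (k8 c2848 c5483 c2405 c9725 c316 c2375 c5481 c9723 (k8 c9730 c9722 c2427 c9859 c5337 c184 c183 c10439 (k8 c315 c5361 c454 c5482 c5480 c5364 c11376 c5313 (k8 c804 c11374 c5329 c904 c11269 c5444 c311 c5447 (k8 c5445 c5397 c5398 c9724 c5422 c5420 c5572 c5574 (k8 c5377 c8438 c5188 c2847 c8792 c10931 c3620 c1658 (k4 c11416 c939 c11417 c10209 k0)))))))) (by decide +kernel)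
def c11420 : PP 9 3 T 0x4000200000000050000000000000000000004000000000000000800040000000020000200200000 := rS 0xceaf7fbf4351d0ed65e20358ed927b023a441f4a3f95f26c52297731b3 (k8 c11414 c11412 c5361 c454 c5364 c11376 c5313 c804 (k8 c11374 c5329 c904 c5520 c11269 c5444 c9724 c5421 (k8 c9722 c9697 c5337 c331 c11293 c5649 c2551 c11059 (k2 c1078 c1902 (k1 c8602 k0))))) (by decide +kernel)
def c11421 : PP 9 3 T 0x14000000000000000000000000000000000000000000000000000000000000000005000000000008800000000000000000000200000000 := rS 0x7efb59886 (k4 c889 c890 c5499 c4665 (k1 c5682 k0)) (by decide +kernel)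
def c11422 : PP 9 3 T 0x10000000000000000000000000000200000000000000000000000000000000000000000000000000000000000000000000202000 := rS 0x9d709ecec3571f88b73b6fc0606a955c54948e101a8da1109d64071100acd3ecb5aed9429b4c82526042b8e76b4ad8164ca7541a2731b3 (k8 c11414 c11412 c5484 c5483 c5482 c5481 c5480 c11269 (k8 c11374 c9578 c5317 c5313 c9725 c5444 c311 c5447 (k8 c5397 c5398 c9724 c5422 c5420 c5572 c5574 c9723 (k8 c9730 c9722 c5337 c184 c183 c2427 c316 c315 (k8 c532 c531 c10439 c9859 c2375 c2405 c2848 c2510 (k8 c11415 c11418 c11419 c5466 c11420 c10209 c11421 c2847 (k2 c8792 c3620 k0))))))) (by decide +kernel)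
def c11423 : PP 9 3 T 0x200000000000000000000000000000004002000000000400000040000000000000000201000 := rS 0x1e6877eb31a3df1a7b47609498101ef705bd4ae39dad2b605d42964ea83cc6cfc2cf (k8 c1651 c5458 c11414 c11412 c5483 c5482 c5480 c5365 (k8 c5361 c11269 c11374 c9578 c5317 c5313 c5519 c5516 (k8 c5333 c5329 c9725 c5444 c311 c10906 c10910 c10209 (k4 c5450 c1704 c5688 c1240 (k2 c2073 c2500 (k1 c10861 k0)))))) (by decide +kernel)
def c11424 : PP 9 3 T 0x200000000000000000000000000000000000000000000400000080000000000000000200000 := rS 0x1aad74bb4d5e420d23023a100811e2034fb2d62addb2859295d805c623d (k8 c5436 c5434 c5433 c11269 c5446 c5396 c5398 c9724 (k8 c5573 c5421 c5420 c5572 c9722 c9697 c9725 c9723 (k8 c5377 c183 c924 c716 c925 c10406 c2083 c1073 (k2 c1933 c2778 (k1 c3618 k0))))) (by decide +kernel)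
def c11425 : PP 9 3 T 0x200000000000000000000000000000004000000000000400000000000000000000000201000 := rS 0xfd1027432231da6d321f1b8e42fb5f6bdc1e5d05aa4341d1a16e765904a4ceac5cc01cc3b00215c66f101ecdeb4a (k8 c11374 c5519 c11414 c9722 c9697 c5316 c5313 c9725 (k8 c11269 c5445 c713 c11412 c5364 c5482 c5444 c311 (k8 c5480 c10693 c11424 c10209 c331 c5649 c1906 c5516 (k8 c5361 c5329 c5333 c10910 c9578 c5433 c5317 c5518 (k8 c5517 c5447 c5397 c10906 c9734 c9701 c11423 c3578 (k2 c2551 c5682 k0)))))) (by decide +kernel)
def c11426 : PP 9 3 T 0x10000000000000000000000000000200000000000000000000000000000000000000000000400000000000000000000000200000 := rS 0x79439ecd8cd35aabbe34f696e76f101c44023b64a64129303984080f7b82c6ef52b8cc7231dad2b605d62a14b2653ae63660d (k8 c11422 c11414 c11412 c5482 c5481 c5480 c5365 c5364 (k8 c5361 c11269 c11374 c9578 c5434 c5317 c5316 c5313 (k8 c5519 c5518 c5516 c5333 c5329 c9725 c5445 c713 (k8 c5444 c311 c5447 c5396 c10906 c9723 c9730 c9722 (k8 c9697 c10693 c11424 c10910 c10209 c5450 c11425 c1137 (k4 c2075 c9859 c11381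 c11044 (k2 c2428 c11199 k0))))))) (by decide +kernel)
def c11427 : PP 9 3 T 0x1000000000000000000010000000000000000000000000000200000000000000000000000000000004002000008000000000000000000000000000200000 := rS 0xcd3d3f0daa98880537b5a56c36676 (k8 c11426 c11414 c11269 c11374 c9578 c5397 c9723 c9730 (k4 c2023 c745 c5682 c8792 (k2 c2504 c890 k0))) (by decide +kernel)
def c11428 : PP 9 3 T 0x10000000000000000000000000000200000000000000000000000000000004002000000000000000040000000000000000200000 := rS 0x331e48767f8472852ca0ceded7b83cba0bcc3d6940d (k8 c11422 c11374 c5519 c11412 c5516 c5361 c5329 c5333 (k8 c10910 c11426 c5483 c5480 c5365 c5317 c5458 c1651 (k4 c11427 c3571 c10798 c2500 k0))) (by decide +kernel)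
def c11429 : PP 9 3 T 0x10000000000000000000000000000200000000000000000000000000000004000000000000000000040000000000000000200000 := rS 0x150f27ea1cd86b10277daf10c80e22011181076934da643e0f7b82c6ef51c85f6b4ad81750a5941e63660d (k8 c11422 c11414 c11412 c5483 c5480 c5365 c5361 c11269 (k8 c11374 c9578 c5433 c5317 c5519 c5518 c5516 c5333 (k8 c5329 c5517 c5447 c5397 c5444 c10906 c9725 c9734 (k8 c9723 c9730 c9722 c9701 c9697 c10910 c11428 c3578 (k4 c2371 c5665 c745 c2552 (k2 c3571 c5682 (k1 c2447 k0))))))) (by decide +kernel)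
def c11430 : PP 9 3 T 0x10000000000000000000000000000200000000000000000000000000000004000000000000000000000000000000000000200000 := rS 0x3c2cf80b47d8d57fc0d2ea97eabc841a2d0474201023c4069f58ed942c94da55321f7a91c2e3ddad2b61b36b9d8fe57 (k8 c5313 c804 c11426 c2188 c11414 c11269 c11374 c9578 (k8 c5436 c5433 c5520 c5519 c5517 c5447 c5446 c5397 (k8 c5396 c5398 c9724 c5421 c5572 c9722 c9697 c9725 (k8 c9723 c5377 c183 c11429 c716 c925 c10406 c1075 (k8 c1906 c1073 c1935 c2780 c2778 c5682 c5501 c5502 (k2 c5543 c8772 (k1 c8633 k0))))))) (by decide +kernel)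
def c11431 : PP 9 3 T 0x10000000000000000000000000000200000000000000000000000000000000000000000000000000000000000000000000200000 := rS 0x34c848c2d2bc34353325da08667f858c793d874d8cd35fb554d7ef9d81af10c80e22011db2532094981cc20407bdc16371c8c76b4ad81fcae8532914bb98 (k8 c11412 c5361 c454 c5481 c5365 c5313 c804 c11269 (k8 c11374 c9578 c5434 c5317 c5518 c5516 c5333 c5329 (k8 c9725 c5445 c713 c5444 c311 c5447 c5396 c10906 (k8 c9723 c9730 c9722 c9701 c9697 c11422 c11426 c5493 (k8 c2188 c11430 c5500 c1137 c2075 c9859 c2121 c11381 (k8 c2428 c3568 c5535 c2560 c10798 c5688 c1285 c744 (k8 c1704 c9240 c1078 c1902 c924 c925 c4500 c11321 k0))))))) (by decide +kernel)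
def c11432 : PP 9 3 T 0x1000000000000000022000000000000000000080000000000000000000000000000004000000000000000000000800000040000000100000000000000 := rS 0x198f2f683dee0b7a9750e0d (k8 c5522 c5373 c5361 c5519 c5516 c5333 c5329 c10910 (k2 c8145 c10798 (k1 c2500 k0))) (by decide +kernel)
def c11433 : PP 9 3 T 0x200000000000000000000000000000004000000000000000000000000000000000000200000 := rS 0x355ff034baa5fb0157908348c2d35cec11d0805e2034fac76ca164a543ef52385c7a87f0b8cfecf631e4727b1b83c0e611d837380ba515c1293d80110b98 (k8 c11412 c5365 c9725 c11269 c5444 c311 c5313 c11374 (k8 c5516 c11431 c5522 c10906 c5445 c713 c5329 c5518 (k8 c5372 c5317 c5524 c3568 c2560 c804 c2620 c5535 (k8 c5373 c5436 c5433 c5520 c5519 c5517 c5446 c5396 (k8 c5398 c9724 c5421 c5572 c9722 c9697 c9723 c5377 (k8 c183 c11425 c2188 c11432 c924 c716 c925 c10406 (k8 c2141 c1075 c1906 c1073 c1935 c2780 c2778 c8628 k0))))))) (by decide +kernel)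
def c11434 : PP 9 3 T 0x200000000000000000000000000000000000000000000000000000000000000000000200000 := rS 0x3bc342d9dccecdf6aa99fe1631e41a873de70ea5942b14bb98188e466571db2412930398760040782c6f4a (k8 c11374 c5518 c5516 c5329 c9725 c11269 c5445 c713 (k8 c5444 c311 c5396 c10906 c5313 c5316 c5317 c5434 (k8 c11412 c5361 c5364 c5365 c5480 c5482 c11431 c5372 (k8 c5373 c5522 c5524 c3568 c5535 c2560 c11433 c5500 (k4 c2075 c2123 c10798 c715 (k2 c10209 c11199 (k1 c5450 k0))))))) (by decide +kernel)
def c11435 : PP 9 3 T 0x100000000202000 := rS 0x275c2e32f9f724df2bacd3ecb5aed9429b4c82527b0a54a51c4a8a9a8081109c440359 (k8 c5337 c9723 c9730 c184 c183 c9725 c316 c10439 (k8 c531 c532 c11434 c11374 c11269 c5444 c311 c5447 (k8 c5397 c5398 c9724 c5422 c5420 c5572 c5574 c369 (k8 c2510 c10195 c8164 c5439 c11064 c2846 c1135 c3620 k0)))) (by decide +kernel)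
def c11436 : PP 9 3 T 0x1000000000000008000011000000000000000000000000000000000000000000000000000000000000000000000000000000000000000000000000202000 := rS 0x4ed171df70a742b1db2441f4a35013e64a (k8 c531 c5546 c9725 c316 c11374 c5329 c904 c9724 (k8 c5421 c5377 c8199 c5191 c5504 c5583 c8393 c11165 k0)) (by decide +kernel)
def c11437 : PP 9 3 T 0x8000011000000000000000000000000000000000000000000000000000000000004000000000000000000044000000000000000202000 := rS 0xc518b586a5d46331ab027fbce02d1f616552670ebf52eaf64a6d2a9903985ea9107d2bc27f3af8dbc9d2fe4a2a6a08c4403595ab84fb2904a4c0813472cd97b6718e07fb0 (k8 c11269 c3720 c11435 c2618 c9724 c5420 c5574 c532 (k8 c184 c9725 c5444 c311 c11434 c8164 c2846 c5422 (k8 c5337 c9723 c9730 c183 c316 c10439 c10195 c5439 (k8 c1135 c6118 c5580 c5440 c804 c5534 c11374 c5329 (k8 c904 c5519 c5445 c713 c5447 c5446 c5397 c5396 (k8 c5406 c5404 c5405 c5486 c5487 c5489 c313 c11436 (k8 c5501 c5502 c5540 c5544 c11235 c6631 c8724 c10942 (k4 c422 c439 c2517 c1916 (k2 c948 c10802 k0))))))))) (by decide +kernel)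
def c11438 : PP 9 3 T 0x10000000000000000000000000000000000000000000000000000000000000000000000000000000020000000000000000200000 := rS 0x88320700929 (k4 c11434 c9725 c313 c314 (k2 c530 c8682 k0)) (by decide +kernel)
def c11439 : PP 9 3 T 0x2000000000000000000000000000000000000000000000000000000000000000000000001000000005000000000000000000004000000000000000202000 := rS 0x1ef69ab9af034b2c55aa164a55a3017ef8daade8a8462201acad5c27d04a4c268e59b2f6ce31fbffbe9bda883c2384e97f25293501133b0 (k8 c11269 c5447 c9725 c316 c11434 c10195 c5439 c1135 (k8 c11435 c5534 c315 c5528 c5397 c9090 c5544 c3720 (k8 c2618 c9724 c5420 c5574 c532 c184 c5444 c311 (k8 c8164 c2846 c5422 c5337 c9723 c9730 c183 c10439 (k8 c6118 c3002 c5580 c5542 c5502 c5501 c5446 c5396 (k8 c5398 c5573 c5421 c8724 c2516 c1767 c10275 c8157 (k2 c5584 c5689 k0))))))) (by decide +kernel)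
def c11440 : PP 9 3 T 0x800000000000000000000000000000154000004011000000200000 := rS 0x62825260730ec1167f3ae480929 (k8 c11434 c9725 c10195 c5440 c804 c853 c11269 c5445 (k4 c713 c5444 c311 c1766 (k1 c10802 k0))) (by decide +kernel)
def c11441 : PP 9 3 T 0x2000000000000000000000000000000000000000000000000000000000000000000080400000000005001000000000000000000000000000000000202000 := rS 0x3ded35777d66b15aab76ca164a6d33b08a9a8221388806b3b510013c2e31c0fe02fdf1b55ff03 (k8 c2517 c5544 c3002 c5580 c5542 c5502 c3720 c11435 (k8 c2618 c5534 c9725 c315 c5528 c5337 c9723 c9730 (k8 c184 c183 c316 c10439 c11269 c5447 c5397 c5396 (k8 c5398 c9724 c5573 c5422 c5421 c5574 c9090 c10153 (k2 c8157 c5584 (k1 c5689 k0)))))) (by decide +kernel)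
def c11442 : PP 9 3 T 0x2000000000000004000001000000000000000000000000000000000000000000000000000000000004000000000000400000054000000000000000202000 := rS 0x3dd1c468c912823319551036b901bc9d709d4be7dc91a566cb5aab76c094981cc3b0949b4068e25454d41109c440359718e07e352e810633a (k8 c5210 c5476 c9725 c9749 c6012 c3720 c11435 c2618 (k8 c5337 c9723 c9730 c184 c183 c316 c10439 c531 (k8 c532 c9722 c2427 c11434 c11269 c5445 c713 c5444 (k8 c311 c9724 c5573 c5422 c5420 c5574 c9744 c10195 (k8 c8164 c5439 c5440 c2846 c1135 c6118 c2511 c11440 (k8 c2517 c11441 c1958 c2376 c2375 c8134 c5729 c2175 (k2 c544 c9178 (k1 c5504 k0)))))))) (by decide +kernel)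
def c11443 : PP 9 3 T 0x8000000000000000202000 := rS 0xe14eb7cf04159a7d96b5db2853699d82441f4a25454d4040884e2201acb8c703f (k8 c3720 c11435 c2618 c5337 c9723 c9730 c184 c183 (k8 c9725 c316 c10439 c531 c11374 c5329 c904 c11269 (k8 c5447 c5397 c5398 c9724 c5422 c5420 c5572 c5574 (k4 c3766 c370 c2511 c1538 (k2 c1542 c3620 k0))))) (by decide +kernel)
def c11444 : PP 9 3 T 0x11000000000000000000000000000000000000000000000000000000000004000000000000000000040000000000000000202000 := rS 0x1ecd99676a203b95e5204 (k8 c9725 c11434 c11443 c5912 c315 c5528 c11438 c11437 (k2 c5238 c11442 k0)) (by decide +kernel)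
def c11445 : PP 9 3 T 0x1000000000000000000000000000000000000000000000000000000000000000000000000000000080000000000000000000020 := rS 0x2765d (k2 c115 c5474 (k1 c11323 k0)) (by decide +kernel)
def c11446 : PP 9 3 T 0x11000000000000000000000000000000000000000000000000000000000000000000000000000000040000000000000000202000 := rS 0x6cbdaaa (k4 c11444 c5500 c8880 c11436 k0) (by decide +kernel)
def c11447 : PP 9 3 T 0x11000000000000000000000000000000000000000000000000000000000000000000000000000000000000000000000000202000 := rS 0xb604 (k2 c9725 c11445 (k1 c11446 k0)) (by decide +kernel)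
def c11448 : PP 9 3 T 0x4000000000000000000000000080004000100000000010008000500004010000004011000000000000000054000000010000000200000 := rS 0x32 (k2 c11062 c388 k0) (by decide +kernel)
def c11449 : PP 9 3 T 0x4000000000000000000000000000000000000000000012000000500004010000004001000000000000000054000000200000200200000 := rS 0x13b1abc99aa14dec29529 (k8 c11434 c11374 c11269 c5397 c5398 c2504 c2550 c440 (k2 c5325 c11448 k0)) (by decide +kernel)
def c11450 : PP 9 3 T 0x10000000000000000000000000000000000000000000000000000000000000000000000000000000000000000000000000202000 := rS 0xd6667b1fb0181aa5565bd9a25066562e619ede4eb84be7dc915dc638dac547e4a47080d46d0884eb2038880566cb5aed81293d80125259 (k8 c11438 c11434 c9725 c11269 c5444 c311 c9724 c5422 (k8 c5420 c5574 c9723 c9730 c9722 c5337 c184 c183 (k8 c2427 c316 c315 c532 c531 c3720 c10439 c5528 (k8 c11435 c2618 c11443 c10195 c8164 c5439 c2846 c1135 (k8 c6118 c4701 c11447 c5364 c5481 c5483 c5484 c11301 (k8 c11418 c9859 c2375 c2405 c2848 c11449 c5682 c11439 (k2 c11441 c2191 k0))))))) (by decide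 +kernel)
def c11451 : PP 9 3 T 0x28000001000000000000000000000000000000000000000000000000000000000004000000000000000000004000000000000000200000 := rS 0x401066b693fd170319fb8b93b8ae86b20459ac76ca164ec03ef74883e952957bf5523f (k8 c403 c5489 c5405 c5406 c11434 c11374 c5329 c904 (k8 c5333 c5517 c11269 c5396 c5398 c9724 c5421 c5574 (k8 c9725 c5337 c5377 c5414 c7262 c11323 c5219 c383 (k8 c5508 c5583 c5586 c11200 c11168 c11229 c8604 c10488 k0)))) (by decide +kernel)
def c11452 : PP 9 3 T 0x1000000000000008000011000000000000000000000000000000000000000000000200001000000000000000000000000000000000000000000000200000 := rS 0xf734fe7a1db28593b0 (k8 c11269 c5396 c5398 c9724 c5377 c5591 c3063 c5191 (k1 c11200 k0)) (by decide +kernel)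
def c11453 : PP 9 3 T 0x10000000000000000000000000000000000000000000000080000000000000000000000000000000004000000200000000200000 := rS 0x4b2044c7be3d0d648e9107d281a3f63e480929 (k8 c11434 c9725 c10195 c5357 c403 c11450 c11374 c5329 (k8 c904 c5520 c5337 c5377 c5580 c2770 c2512 c5655 (k2 c11050 c546 k0))) (by decide +kernel)
def c11454 : PP 9 3 T 0x1000000000000008000011000000000000000000000000000000000000000000000000000000000004001000000000000400004000000000000000200000 := rS 0x34bc5eef9c51bee166f8508871c20cd87bd0c4402b34fb2d6bb61da85929b4c81cc3b00782c6e0d54b1dc792024a695b5 (k8 c11451 c11374 c11434 c9725 c10195 c11064 c5357 c5489 (k8 c11450 c5518 c5516 c5329 c11269 c5445 c713 c5447 (k8 c5397 c5396 c5398 c10906 c9724 c5422 c5420 c5572 (k8 c5574 c9723 c9730 c5377 c11381 c5665 c8722 c11223 (k8 c745 c5672 c5534 c2502 c11452 c11453 c3620 c5590 (k4 c5191 c5691 c11200 c5579 k0)))))) (by decide +kernel)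
def c11455 : PP 9 3 T 0x1000000000000008000001000000000000000000000000000000000000000000000000000000000004000000000000000800000000000000000000201000 := rS 0x7be768b8ed6453a158ed83ef77aa441f4a (k8 c11374 c5329 c904 c5519 c5333 c5517 c9724 c5421 (k8 c5377 c8199 c5337 c11236 c854 c8393 c11165 c5219 k0)) (by decide +kernel)
def c11456 : PP 9 3 T 0x1000000000000008000010000000000000000000000008000000000000000000000000001010000000000000000000000000004000000200000000200000 := rS 0x1a032efbcf6c094981cc3b005d28b2773ae480929 (k8 c11434 c9725 c10195 c5440 c5912 c11438 c11374 c5516 (k8 c11269 c5445 c713 c5444 c311 c9724 c5325 c7702 (k2 c10693 c6897 (k1 c9505 k0)))) (by decide +kernel)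
def c11457 : PP 9 3 T 0x1000000000000008000011000000000000000000000000000000000000000000000000000000000004000000000000000000004000000000000000200000 := rS 0x80b49fed581b5c67ee2e4ed8acd4233fc2871c271066c3d9af4359888053eb1db0ed42c94a81cc3b00782c6e0d57a5dfaa91fb1dc792024a695b5 (k8 c11451 c11374 c11434 c9725 c10195 c11064 c5357 c403 (k8 c5489 c5405 c5404 c5406 c11450 c5518 c5516 c5329 (k8 c11269 c5445 c713 c5446 c5396 c5398 c10906 c9724 (k8 c5421 c5572 c9723 c9730 c5337 c5377 c11455 c11381 (k8 c5665 c8722 c11454 c11223 c745 c5458 c1651 c5672 (k8 c2502 c10805 c11456 c11323 c5219 c383 c5507 c5508 (k4 c5585 c5586 c11200 c10488 (k1 c8628 k0)))))))) (by decide +kernel)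
def c11458 : PP 9 3 T 0x400000000010000010000000000000000000000000000000000000000004000000000000000001000000005000000400044000000001000000200000 := rS 0x198d6765c1c20cf711008ec0e61d803dee0b1bbd6945906e480929 (k8 c11434 c9725 c10195 c11450 c11438 c11374 c5519 c5518 (k8 c5516 c5333 c5329 c11269 c5445 c713 c10906 c9723 (k8 c9730 c11381 c8722 c11223 c3571 c5777 c439 c383 (k1 c5653 k0)))) (by decide +kernel)
def c11459 : PP 9 3 T 0x2000000000000008000000000000000000000000000000000000000000000000000000000000000004000000000000000800000000000000000000201000 := rS 0x277028e8a742b1db07deef54883e94af7e99e02ff (k8 c5544 c5502 c5487 c5405 c5406 c11374 c5329 c904 (k8 c5519 c5333 c5517 c9724 c5421 c5377 c8199 c11236 (k2 c8602 c8393 (k1 c11234 k0)))) (by decide +kernel)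
def c11460 : PP 9 3 T 0x8000011000000000000000000000000000000000000000000000000000000000004000000000000000000004000000000000000200000 := rS 0x69fb8613befa0cf66b67a15e6d143fb36a79c91dc7fa1aceda220150b27600f05d2a52590696c08a9 (k8 c5489 c9725 c11445 c11450 c11438 c11434 c11374 c5516 (k8 c5329 c11269 c5396 c5398 c9723 c9730 c9724 c5337 (k8 c5377 c403 c5912 c10195 c5441 c11451 c11457 c5499 (k8 c5501 c5540 c5541 c5543 c11459 c11381 c8722 c8645 (k4 c5777 c11458 c5219 c1919 (k1 c11200 k0)))))) (by decide +kernel)
def c11461 : PP 9 3 T 0x8000011000000000000000000000000000000000000000000000000000000000004000000000000000000000000000000000000200000 := rS 0x623497bdcd9d6d3aeff8b2656d0d676c04888041e0b26d2a520d (k8 c11450 c11434 c11374 c5521 c5516 c5329 c9723 c9730 (k8 c9725 c9724 c5337 c5377 c11460 c5353 c5216 c6601 (k8 c5214 c8057 c7805 c5616 c3299 c5213 c11145 c5610 k0))) (by decide +kernel)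
def c11462 : PP 9 3 T 0x24000001000000000000000000000000000000000000001000000000000000000000000000000000000020010000000000000000200000 := rS 0x1c (k2 c11011 c1953 k0) (by decide +kernel)
def c11463 : PP 9 3 T 0x24000001000000000000000000000000000000000000000000000000000000000000000000000000000420010000000000000000200000 := rS 0xfd (k2 c1128 c11462 k0) (by decide +kernel)
def c11464 : PP 9 3 T 0x1000000000000004000011000000000000000000000000000000000000000000000000000000000000000000000000000400004000000000000000200000 := rS 0xcd68f7d0c3241b14cc85329e807113498c029b04a4c0e61d802e94591a974b6319d1dcbec73c9d7240494a74dbb4 (k8 c5238 c5529 c5412 c11434 c9725 c10195 c5440 c5441 (k8 c5357 c5439 c5912 c5210 c5476 c11445 c9749 c6012 (k8 c11438 c11374 c5516 c11269 c5445 c713 c5444 c311 (k8 c5397 c9723 c9755 c9744 c9730 c9722 c10556 c11463 (k8 c5871 c5664 c733 c2008 c5729 c5672 c5492 c9505 (k2 c2073 c11210 k0)))))) (by decide +kernel)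
def c11465 : PP 9 3 T 0x20000010000000000000000000000000000000000400000000000040000000000000000000000000000000004000000000000000200000 := rS 0x11ce0f9e85669f65ad76ca14da65220f3e82527b009b8f240494d293b15 (k8 c5414 c5412 c11374 c11434 c9725 c10195 c11064 c184 (k8 c11269 c5444 c311 c8164 c5329 c904 c5447 c5397 (k8 c5398 c9724 c5422 c5420 c5572 c5574 c5377 c5271 (k2 c3620 c5675 (k1 c2846 k0))))) (by decide +kernel)
def c11466 : PP 9 3 T 0x1000000000000004000011000000000000000000000000000000000000000000000000000000000000000000000000000000004000000000000000200000 := rS 0x2c401c8f7c6de899a8429dda564320365ad76c23020ed269b4cec03e3723d2a523f (k8 c403 c11434 c11374 c5520 c5518 c5517 c11269 c5447 (k8 c5397 c5444 c10906 c9725 c9734 c9724 c5422 c5420 (k8 c9722 c9701 c5337 c5238 c5412 c5528 c11464 c2600 (k4 c11465 c5580 c2770 c11453 (k2 c5655 c3578 (k1 c1736 k0)))))) (by decide +kernel)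
def c11467 : PP 9 3 T 0x24000001000000000000000000000000000000000000001000000000000000000000000000000800000000010000000000000000200000 := rS 0x6732aa4d201 (k4 c9723 c9744 c5531 c11462 (k2 c2007 c5664 k0)) (by decide +kernel)
def c11468 : PP 9 3 T 0x80000000000000000000000000000000000054000000000200000 := rS 0x1ef8eb329 (k4 c11434 c5337 c5579 c2768 (k1 c5655 k0)) (by decide +kernel)
def c11469 : PP 9 3 T 0x10000010000000000000000000000000000000000000000000000000400000000000000000040800000400004000040000000000200000 := rS 0x8144fbda8d320a5d5e8d6f9911e38339b0f7a1889a4c60159a7d96b156ed876a164a540e610782c6f4a068fcfa0949ec0265f3ae480929 (k8 c11434 c9725 c10195 c5440 c5439 c184 c11269 c5444 (k8 c311 c8164 c403 c11450 c11374 c5518 c5516 c5329 (k8 c5445 c713 c5446 c5396 c5398 c10906 c9724 c5573 (k8 c5421 c5420 c5572 c5574 c9723 c9755 c9744 c9730 (k8 c5377 c11381 c5665 c2008 c11223 c2432 c2431 c11453 (k8 c2176 c1131 c1126 c547 c11468 c3618 c5892 c10708 (k2 c1659 c8130 k0))))))) (by decide +kernel)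
def c11470 : PP 9 3 T 0x10000000000000000000000000000000000400000000000200000000000000000000000010000000000000000000000000200000 := rS 0x11ff3d0a441f4a (k4 c11374 c5329 c904 c5377 (k2 c5591 c2846 (k1 c5675 k0))) (by decide +kernel)
def c11471 : PP 9 3 T 0x4000011000000000000000000000000000000000000000000000000000000000000000000000000000000004000000000000000200000 := rS 0x5c72401ef8dbce14e8862b13356d504fd42a1fd8e32fb5cfb921f84eb21901acd3ecb5aed8463b50a6d320949ec03e0b1b91d220fa54a4b20d458d4ba5b0210c633a (k8 c5210 c5476 c5478 c9725 c11445 c9749 c6012 c853 (k8 c11450 c11438 c11434 c11374 c5329 c904 c5520 c5518 (k8 c5516 c5517 c11269 c5444 c311 c5447 c5397 c5398 (k8 c10906 c9734 c9724 c5422 c5420 c5572 c5574 c9722 (k8 c9701 c5337 c184 c403 c10195 c8164 c11440 c5439 (k8 c11064 c11466 c5499 c5541 c5542 c5777 c11467 c11469 (k8 c2600 c1140 c2371 c1135 c11470 c3620 c5580 c2770 (k4 c5655 c11453 c1736 c3578 k0)))))))) (by decide +kernel)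
def c11472 : PP 9 3 T 0x1000000000000004000011000000000000000000000000000000000000000000000000000000000000000000000000000000000000000000000000200000 := rS 0x96ef7bbc3f38aed196addb25533b06bb4fc5932b5674329 (k8 c11434 c5377 c5337 c11471 c5353 c5216 c5579 c5465 (k8 c11269 c5447 c5446 c9724 c5573 c5420 c5238 c5414 (k4 c10715 c6706 c5191 c5185 (k2 c5892 c5452 k0)))) (by decide +kernel)
def c11473 : PP 9 3 T 0x1040000000000000000000000000000000000000000000000000010000000000000040800102000000000000000000000200000 := rS 0xef9dd1a794781167b64cec1aed3f15674329 (k8 c11434 c5377 c5337 c5216 c5579 c5465 c11269 c5447 (k8 c9724 c5574 c9725 c2432 c2428 c2176 c2056 c8176 (k1 c5668 k0))) (by decide +kernel)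
def c11474 : PP 9 3 T 0x4000011000000000000000000000000000000000000000000000000000000000000000000000000000000000000000000000000200000 := rS 0x1e1c1e18aa74d46ddab1d04fd42a1fd875699fdc6d740f898a7bc9959173a2ee86b31100a853661d802d220fa54a4b20d (k8 c11450 c11438 c11434 c11374 c5329 c904 c5516 c11269 (k8 c5445 c5397 c5398 c9723 c9730 c5337 c5377 c9749 (k8 c5210 c853 c11471 c5353 c886 c836 c5216 c5463 (k8 c5465 c5466 c5577 c5579 c11351 c11472 c5499 c5541 (k8 c5542 c5777 c2485 c11467 c11473 c5665 c8792 c1140 (k4 c10931 c9176 c5669 c1542 k0)))))) (by decide +kernel)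
def c11475 : PP 9 3 T 0x11000000000000000000000008000000000000000000000000000000000000000000000004000000004000000000000000200000 := rS 0xd067b13bef3db7b59aaad9327c238c94a40e61d80101e0d058de943b (k8 c10906 c11374 c5518 c5516 c11450 c5329 c9725 c11269 (k8 c5445 c713 c11434 c10195 c11223 c5534 c5396 c11474 (k8 c11461 c2075 c5500 c9724 c5325 c7702 c11456 c2558 (k2 c5688 c1706 k0)))) (by decide +kernel)
def c11476 : PP 9 3 T 0x11000000000000000000000000000000000000000000000000000000000000000000000004000000004000000000000000200000 := rS 0x3c63d6935467ee2e4ec82df1c686b3b61da85920730ec01e0b1bd281bb21fe480929 (k8 c11434 c9725 c10195 c403 c11474 c11450 c11374 c5518 (k8 c5516 c5329 c11269 c5445 c713 c5396 c5398 c10906 (k8 c9724 c5337 c5377 c11223 c11453 c547 c11475 c11323 (k4 c5219 c383 c5585 c11200 (k2 c2769 c6616 (k1 c5655 k0)))))) (by decide +kernel)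
def c11477 : PP 9 3 T 0x11000000000000000000000000000000000000000000000000000000000000000000000008000000000000000000000000200000 := rS 0x94973a10c56266a14e8567b61191d220fa5034b604dab859ac9d87b555b2 (k8 c11474 c11461 c5500 c11269 c5396 c2075 c11452 c5413 (k8 c9725 c11445 c11450 c11374 c5329 c904 c5520 c9734 (k8 c9724 c5574 c5377 c8199 c11381 c957 c1140 c2371 (k4 c10433 c11050 c7601 c8534 k0)))) (by decide +kernel)
def c11478 : PP 9 3 T 0x11000000000000000000000000000000000000000000000000000000000000000000000000000000000000000000000000200000 := rS 0x7cbc1efefb4fc5932b1efdaaad9686b3b650b276129 (k8 c11434 c11269 c5396 c5398 c9724 c5337 c5377 c11474 (k8 c11461 c5500 c11477 c11476 c5353 c5216 c5579 c6601 (k4 c11200 c5185 c5191 c7694 k0))) (by decide +kernel)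
def c11479 : PP 9 3 T 0x28000010000000000000000000000000000000000000000000000000000000000004000000000000000000000000000000000000200000 := rS 0x4344a026b47c71c1f39d9b6226900a6c3ef77aa441a8532a0dfa67549ec1f4a7190c6a5602175a8c9d86dbde81449ffc559d0ca72798 (k8 c11478 c11301 c11434 c5377 c5337 c5216 c5577 c5484 (k8 c5463 c11295 c9724 c11269 c5396 c6616 c5361 c9725 (k8 c10195 c435 c2779 c5466 c11374 c5329 c886 c5489 (k8 c5487 c5405 c5483 c5481 c5365 c11450 c904 c5519 (k8 c5333 c5517 c5397 c9723 c9744 c9730 c5529 c7262 (k8 c10715 c6661 c9858 c2847 c11236 c2139 c5675 c3601 (k1 c959 k0))))))) (by decide +kernel)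
def c11480 : PP 9 3 T 0x8000010000000000000000000000000000000000000000000000000000000000000000000004000000000000000000000000000200000 := rS 0x7fc71e53b7b82dea474883e945906a15065b3390c6a5602175a8c9d86dbde81449ffc559d0ca72798 (k8 c11478 c11301 c11434 c5377 c5337 c5216 c5577 c5484 (k8 c5463 c11295 c9724 c11269 c5396 c6616 c5361 c9725 (k8 c10195 c435 c2779 c5487 c715 c5483 c5365 c11450 (k8 c11438 c11374 c5329 c904 c5520 c5519 c5516 c5333 (k4 c5777 c3571 c9858 c11246 (k1 c555 k0)))))) (by decide +kernel)
def c11481 : PP 9 3 T 0x4000000000000008000000000000000000000000000000000000100000000000000000000000000000000000000000000000100000040000000000200000 := rS 0x13b14e8563b6 (k4 c9724 c5421 c5377 c8199 (k2 c8393 c9858 k0)) (by decide +kernel)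
def c11482 : PP 9 3 T 0x8000010000000000000000000000000000000000000000000000000000000000000000000000000000000000000000000000000200000 := rS 0x35ed5566d8e21bde436a1fd0235f115b2667d0d676c048880593b00fbddea9107d2a520d2e9951398 (k8 c11478 c5484 c5481 c5361 c11450 c11434 c11374 c5329 (k8 c904 c5519 c5333 c5517 c11269 c5396 c9723 c9730 (k8 c9725 c9724 c5337 c5377 c5487 c11301 c10195 c5216 (k8 c435 c5463 c5577 c6616 c2779 c11295 c11480 c11481 (k4 c744 c9859 c11479 c11236 (k1 c5665 k0)))))) (by decide +kernel)
def c11483 : PP 9 3 T 0x10000000000000000000000008000000000000000000000000000000000000000000000008000000004000000000000000200000 := rS 0x66b47bfed430c8b6094981cc3b007bdc16f5a51641a5d62a14ea83cc1de5204 (k8 c9725 c11434 c5912 c11478 c5483 c5482 c5365 c5364 (k8 c5361 c11450 c11438 c11374 c5519 c5516 c5333 c5329 (k8 c11269 c5445 c713 c5444 c311 c5474 c10693 c5777 (k4 c10910 c5492 c9505 c2073 (k1 c11210 k0))))) (by decide +kernel)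
def c11484 : PP 9 3 T 0x800000000000000010000000000000000000000000000000000000000000000000000000000000000000008008000000044000000000000000200000 := rS 0x6c606619a5c6af1019a4c6014a81cc3b0069758a653ae6366772fe480929 (k8 c11434 c9725 c10195 c5439 c5912 c11482 c11478 c5482 (k8 c5481 c5364 c5361 c11450 c11269 c5445 c713 c5446 (k8 c9723 c9755 c9744 c9722 c9697 c5450 c5452 c5492 (k4 c10013 c9602 c1902 c9332 k0)))) (by decide +kernel)
def c11485 : PP 9 3 T 0x1000000000000000000010000000000000000000000000000000000000000000000000000000000000000000008008000000044000000000000000200000 := rS 0x34661825c66356877de203889a4c6011da540e61d802e940d2eb14ca75cc6ccbf92669de5204 (k8 c9725 c11434 c5912 c2073 c10195 c5439 c11482 c11478 (k8 c5482 c5481 c5364 c5361 c11450 c11374 c5516 c11269 (k8 c5445 c713 c5446 c10906 c9723 c9755 c9744 c9730 (k8 c9722 c9697 c11484 c11210 c1704 c9505 c9368 c9602 (k2 c10013 c9332 (k1 c1902 k0)))))) (by decide +kernel)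
def c11486 : PP 9 3 T 0x1000000000000020000010000000000000000000000000000000000000000000000000000000000004000000008008000000004000000000000000200000 := rS 0x411ef8d00ff7eb4d5e420d199185a81847435900bc406094981cc3b00f91d220fa50fcee5f639e7240494a762aa9 (k8 c5531 c5414 c5412 c11434 c9725 c10195 c5441 c5357 (k8 c5439 c5912 c403 c11374 c5329 c904 c5520 c5517 (k8 c11269 c5445 c713 c5444 c311 c9722 c9697 c9723 (k8 c5337 c5377 c183 c10690 c11485 c924 c715 c716 (k8 c925 c10406 c2083 c1075 c2780 c11073 c5463 c1487 (k2 c10697 c5655 k0)))))) (by decide +kernel)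
def c11487 : PP 9 3 T 0x20000010000000000000000000000004000000000000000000000000000000000004000000004000000400040000000000000000200000 := rS 0x3f4ce1a0ebc9e203889a4021f07bdc16f5a51641a5d429950798d9884daa9 (k8 c5531 c5529 c5528 c11482 c11478 c5483 c5481 c5365 (k8 c5361 c11450 c11438 c11374 c5519 c5516 c5333 c5329 (k8 c5517 c9723 c9744 c9730 c9722 c9697 c3571 c333 (k4 c5649 c1902 c1075 c3601 k0)))) (by decide +kernel)
def c11488 : PP 9 3 T 0x20000010000000000000000000000004000000000000000000000000000000000004000000004000000400000000000000000000200000 := rS 0x7fc0dfb0157908348c2d0474201023c406b358ed83ef523d2a2aa9 (k8 c5531 c5414 c11374 c5520 c5519 c5517 c9724 c5421 (k8 c5574 c9722 c9697 c9725 c9723 c5377 c183 c11487 (k8 c924 c716 c925 c10406 c2141 c1075 c1935 c2780 (k1 c8604 k0)))) (by decide +kernel)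
def c11489 : PP 9 3 T 0x20000010000000000000000000000000000000000000000000000000000000000004000000000000000400004000000000000000200000 := rS 0x7b50d3b3d444c6014d98533b02fb1cf392024a53a6d (k8 c5529 c5412 c11434 c9725 c10195 c5441 c5357 c5439 (k8 c11269 c5447 c5445 c5397 c9723 c9755 c9730 c3598 (k4 c11483 c11488 c5499 c11486 k0))) (by decide +kernel)
def c11490 : PP 9 3 T 0x20000010000000000000000000000000000000000000000000000000000000000004000000000000000000004000000000000000200000 := rS 0x16200e47be36f44cd4214ed64320365ad76c23020ed269b4cec03e3723d2a523f (k8 c403 c11434 c11374 c5520 c5518 c5517 c11269 c5447 (k8 c5397 c5444 c10906 c9725 c9734 c9724 c5422 c5420 (k8 c9722 c9701 c5337 c5412 c5528 c11489 c2600 c11465 (k4 c5580 c2770 c11453 c5655 (k2 c3578 c1736 k0))))) (by decide +kernel)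
def c11491 : PP 9 3 T 0x10000010000000000000000000000000000000000000000000000000000000000006000000000000000400000000000000000000200000 := rS 0xb41b79811e2037bbd4bb3b439b2220105a0c1f4a2ca17300d (k8 c11450 c11478 c5365 c11438 c11374 c5329 c5483 c5516 (k8 c9723 c9730 c5665 c745 c5777 c5361 c5519 c5333 (k4 c9722 c9697 c9725 c2447 (k2 c1906 c11161 (k1 c716 k0))))) (by decide +kernel)
def c11492 : PP 9 3 T 0x10000000000000000000000000000000000000000000000000000000000004000000000000000400004000000000000000200000 := rS 0x31ef8d5985a67bcda3ec54f85fa871c1b0f711008ec0e61d803dee0b1bbd6940d2ea14eb98d99dd8e79c901253b5 (k8 c11490 c11434 c9725 c10195 c5441 c5357 c5912 c11482 (k8 c11478 c5482 c5365 c5361 c11450 c11374 c5519 c5518 (k8 c5516 c5333 c5329 c11269 c5445 c713 c10906 c9723 (k8 c9730 c11381 c5665 c11223 c745 c2552 c5534 c11491 (k8 c5682 c5501 c5540 c5543 c10910 c10201 c439 c8645 (k2 c1916 c10340 k0)))))) (by decide +kernel)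
def c11493 : PP 9 3 T 0x10000000000000000000000000000000000000000000000000000000000000000000000000000800004000000000000000200000 := rS 0xb100723df1b79c29d10c5627590c80d66cb5aed8463b4da643e3723a441e0d1f9f41293d804cbee3c9012534a (k8 c11374 c11434 c9725 c10195 c11064 c5439 c184 c11269 (k8 c5444 c311 c8164 c403 c11450 c5329 c904 c5520 (k8 c5518 c5517 c5447 c5397 c10906 c9734 c9724 c5422 (k8 c5420 c5574 c9722 c9701 c5337 c2600 c1140 c2371 (k8 c1135 c11470 c6118 c5580 c2770 c11453 c5655 c3578 (k1 c1736 k0)))))) (by decide +kernel)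
def c11494 : PP 9 3 T 0x10000000000000000000000008000000000000000000000000000000000000000000000000000000004000000000000000200000 := rS 0x347becf193cc12932cb14ea77f6b3593e11c1b2220132e60160730ec01ec73ded5546b1d97f2404948346f4a (k8 c11374 c5518 c11450 c11434 c9725 c10195 c5439 c10906 (k8 c11493 c11492 c5413 c11381 c5357 c5329 c11269 c5445 (k8 c713 c5516 c11478 c5481 c9723 c9730 c9859 c5710 (k8 c5534 c5396 c2075 c5500 c5912 c5482 c5364 c11438 (k8 c5444 c311 c5325 c10693 c2558 c5492 c9505 c5688 k0))))) (by decide +kernel)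
def c11495 : PP 9 3 T 0x10000000000000000000000000000000000000000000000000000000000000000000000000000000004000000000000000200000 := rS 0x6bb4c848c2d1992eaf0d4ec82356f8e0f66c0eb376aaa35b1cbf923bbc407113498c023b64a540e61d80101ef7058de952906b14ca752297731b3 (k8 c11482 c11478 c5361 c454 c5482 c5481 c5364 c11450 (k8 c11434 c11374 c5518 c5516 c5333 c5329 c9725 c11269 (k8 c5445 c713 c5446 c5396 c10906 c9723 c9755 c9744 (k8 c9730 c9722 c9697 c5912 c10195 c5439 c5357 c11493 (k8 c11492 c5413 c2075 c2121 c9859 c11381 c5710 c11453 (k8 c440 c547 c11494 c5649 c1078 c1074 c10013 c1902 (k4 c924 c925 c2083 c1934 (k1 c11321 k0)))))))) (by decide +kernel)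
def c11496 : PP 9 3 T 0x20000010000000000000000000000000000000000000000000000000000000000000000000008000000000000000000000000000200000 := rS 0x57b552f006844402956bb4d8de18aa64f2ff8923dc09bd838f6de2c9d66527bd0a441f4af99590b98 (k8 c11478 c5365 c11495 c10715 c11374 c5329 c904 c5377 (k8 c886 c11434 c5337 c5353 c5216 c9724 c5466 c11269 (k8 c5397 c6661 c2847 c5675 c2570 c1542 c5447 c5414 (k8 c6706 c5669 c5579 c5465 c5446 c9723 c9730 c799 (k4 c959 c9609 c1711 c3070 (k1 c10790 k0)))))) (by decide +kernel)
def c11497 : PP 9 3 T 0x20000010000000000000000000000000000000000000000000000000000000000000000000000000000400000000000000000000200000 := rS 0x4ed0eab0782e945906a150798 (k8 c11478 c5483 c5365 c11450 c11438 c11374 c5516 c5329 (k4 c5413 c11496 c5777 c11488 k0)) (by decide +kernel)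
def c11498 : PP 9 3 T 0x10000000000000000000000000000000000000000000000000000000000000000000000000000000080000000000000000200000 := rS 0x2bc841a0880408f1018d4bb986bb4fc5932b5674329 (k8 c11434 c5377 c5337 c11495 c5353 c5216 c5579 c5465 (k8 c11478 c5361 c435 c9722 c9697 c9725 c9723 c183 (k4 c716 c925 c10406 c11321 k0))) (by decide +kernel)
def c11499 : PP 9 3 T 0x10000000000000000000000000000000000000000000000000000000000004000000000000000400000000000000000000200000 := rS 0x153b3f696dee0f2e82deb4a06bf4d9b5888050b98 (k8 c11478 c5365 c9723 c9730 c11497 c5665 c2552 c11450 (k8 c11374 c5519 c5516 c5361 c5329 c5333 c11498 c10910 (k2 c11482 c11491 (k1 c5682 k0)))) (by decide +kernel)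
def c11500 : PP 9 3 T 0x2000000000000000010000000000000000000000000000000000000000000000000000000000000000040008000000400000000000000000000200000 := rS 0x3560112f9b853ecb50b252bb04883e9485cc35da7e2c995ab3a194a3cd9b58880567b6 (k8 c9724 c5574 c9723 c9730 c11497 c5665 c2432 c11434 (k8 c5377 c5337 c11495 c5353 c5216 c5579 c5465 c11478 (k8 c5365 c11374 c5329 c904 c11269 c5446 c5396 c5398 (k8 c5420 c5572 c5460 c7694 c5675 c959 c3072 c8171 k0)))) (by decide +kernel)
def c11501 : PP 9 3 T 0x10000000000000000000000000000000000000000000000100000000000000001000008000000400000000000000000000200000 := rS 0x89407e6d58a27d96a164a552285cc35dc6d3f1567432947acf6cd0637852eaa3d83e9479366d622014cec32656 (k8 c11495 c5353 c11269 c5447 c9723 c9730 c11497 c5665 (k8 c2428 c11374 c5329 c886 c11499 c1284 c11500 c5669 (k8 c799 c9724 c5574 c2432 c11434 c5377 c5337 c5216 (k8 c5579 c5466 c5465 c11478 c5365 c904 c5446 c5396 (k8 c5398 c5420 c5572 c9176 c1710 c5590 c8171 c5675 (k1 c959 k0)))))) (by decide +kernel)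
def c11502 : PP 9 3 T 0x10000000000000000000000000000000000000000000000000000000000000001000008000000400000000000000000000200000 := rS 0x6ac01ff12f9b81a0c6f0a5d3ecb50b252a9142e60f60fa535da7e2c995ab3a194a3d67b63c9b36b1100a6760aa (k8 c11499 c11269 c5447 c9723 c9730 c11497 c5665 c2428 (k8 c9724 c5574 c2432 c11434 c5377 c5337 c11495 c5353 (k8 c5216 c5579 c5465 c11374 c5329 c886 c11478 c5365 (k8 c904 c5446 c5396 c5398 c5420 c5572 c1284 c11500 (k8 c5669 c799 c11501 c5591 c5675 c2570 c959 c1711 (k1 c8171 k0)))))) (by decide +kernel)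
def c11503 : PP 9 3 T 0x10000000000000000000000000000000000000000000000000100000000000000000008000000400000000000000000000200000 := rS 0xf945226ae80a7d96b156a859295d8245aed3f15674329479b36ab3db25d9e9cc99ecac0fa544402aa (k8 c11499 c9723 c9730 c11374 c5329 c11495 c886 c5353 (k8 c11502 c5842 c1285 c9724 c5574 c11497 c5665 c2432 (k8 c11434 c5377 c5337 c5216 c5579 c5465 c904 c11269 (k8 c5446 c5396 c5398 c5573 c5421 c5420 c5572 c8170 (k4 c9617 c959 c1286 c5675 (k1 c5590 k0)))))) (by decide +kernel)
def c11504 : PP 9 3 T 0x10000000000000000000000000000000000000000000000000000000000000000000008000000400000000000000000000200000 := rS 0x7ce26e080b51a0c667f8539a148e4cf65607d291eb3db1e4d9b58880533b0 (k8 c11269 c5447 c9723 c9730 c11497 c5665 c2428 c9724 (k8 c5574 c2432 c11374 c5329 c11495 c886 c5353 c904 (k8 c5377 c11502 c5458 c5842 c5669 c799 c11503 c3073 (k4 c1710 c959 c5591 c5675 k0)))) (by decide +kernel)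
def c11505 : PP 9 3 T 0x10000000000000000000000000000000000000000000000000000000000000000000000000000400000000000000000000200000 := rS 0x7bc869757c75fe1a794ed0e1d55011e20365ab76c95d83dc16474883e945906a150645d98d4bb986bb4fc5932b5674329 (k8 c11434 c5377 c5337 c11495 c5353 c5216 c5579 c5465 (k8 c11478 c5361 c435 c11482 c454 c5483 c5365 c11450 (k8 c11438 c11374 c5329 c904 c5520 c5516 c5333 c11269 (k8 c5446 c9724 c5573 c5420 c9722 c9697 c9725 c11499 (k8 c2121 c11504 c5777 c10863 c5649 c11246 c555 c1078 (k4 c1074 c11321 c5892 c9858 k0)))))) (by decide +kernel)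
def c11506 : PP 9 3 T 0x10000000000000000000000000000000000000000000000000000000000000000000000000000000000000000000000000200000 := rS 0x3c383c29d63c54d47f71a07c47bc995b435950a6cc3b04883e9529 (k8 c11434 c11374 c5329 c904 c11269 c5445 c5397 c5398 (k8 c5337 c5377 c11495 c5353 c886 c5216 c5463 c5466 (k8 c5577 c11505 c1140 c2482 c1136 c10931 c9176 c5669 (k1 c1542 k0)))) (by decide +kernel)
def c11507 : PP 9 3 T 0x20000000000000000000000000000008000000000000000000000000000000000000000000000000000000000000000000000000200000 := rS 0xca84cceccb6f32eed8d2017bbd50e835be241b7b059341f4a02165a7e2c99b53a6bce2653661d85674329 (k8 c11434 c5377 c5337 c11269 c5445 c5397 c5447 c11506 (k8 c5523 c5412 c5529 c10443 c5216 c5579 c11360 c9725 (k8 c11374 c5329 c5521 c5516 c5375 c5522 c5527 c11145 (k8 c5525 c5373 c5519 c5333 c9723 c9744 c9724 c5321 (k4 c5325 c5474 c8057 c8145 (k2 c3571 c11463 (k1 c5871 k0))))))) (by decide +kernel)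
def c11508 : PP 9 3 T 0x20000001000000000000000000000000000000000000000000000000000000000000000000000000000000000000000000000000200000 := rS 0x1ded96dbc59336a74d79c4ca6cc3b0ace86533b (k8 c11507 c11434 c5377 c5337 c11269 c5445 c5397 c5447 (k8 c11506 c5523 c5412 c5529 c10443 c5216 c9724 c5210 (k2 c5214 c6601 k0))) (by decide +kernel)
def c11509 : PP 9 3 T 0x28000000000000000000000000000000000000000000000000000000000000000000000000000000000000000000000000000000200000 := rS 0x33bf4028735a0f3998 (k8 c11508 c11506 c5525 c5523 c5373 c9723 c5405 c5487 (k1 c10430 k0)) (by decide +kernel)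
def c11510 : PP 9 3 T 0x20000000000000000000000000000000000000000000000000000000000000000000000000000000000000040000000000000000200000 := rS 0x19dfa1a0ebc802f10187deb4a439ad079c10cef31b3 (k8 c11509 c11508 c11507 c5528 c11506 c5525 c5523 c5373 (k8 c11374 c5519 c5517 c9722 c9697 c9723 c8145 c333 (k4 c5649 c1075 c1902 c10430 k0))) (by decide +kernel)
def c11511 : PP 9 3 T 0x20000000000000000000000000000000000000000000000000000000000000000000000000000000000000000000000000000000200000 := rS 0x57908345a1a97730d36bf88ad9336a7423a1ac80408f101a6cc299d84a4d79c (k8 c11506 c5523 c11434 c11269 c5447 c5445 c5397 c9722 (k8 c9697 c9725 c9723 c5337 c5377 c183 c5412 c5529 (k8 c10443 c10195 c5216 c5465 c5579 c11508 c5361 c435 (k4 c11510 c716 c925 c10406 (k1 c11321 k0))))) (by decide +kernel)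
def c11512 : PP 9 3 T 0x20000000000000000200000 := rS 0x88320700929 (k4 c11434 c9725 c313 c314 (k2 c530 c8704 k0)) (by decide +kernel)
def c11513 : PP 9 3 T 0x4000000001000000000000000000000000080144000000011000000200000 := rS 0xcff0b47be3819648ee031d8252607308106f293dfb5080b06965ea8741e71ee0fa51d52bb0 (k8 c11269 c5446 c2005 c11374 c5329 c5333 c11506 c5525 (k8 c5373 c5519 c11512 c5522 c5516 c3571 c5541 c5372 (k8 c11434 c5518 c9725 c5445 c713 c5444 c311 c10906 (k8 c9722 c5912 c10195 c5729 c11223 c5492 c2129 c5534 (k2 c2558 c5688 k0))))) (by decide +kernel)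
def c11514 : PP 9 3 T 0x8800000000000000001000000000000000000000000000000000000000000000200000000000000000000042000000000000000000000000000200000 := rS 0xff4635743b6026c1aed3 (k8 c5579 c5465 c11269 c9725 c9724 c5377 c5454 c8176 (k2 c3012 c950 k0)) (by decide +kernel)
def c11515 : PP 9 3 T 0x1000000000000000001040000000000000000000000000000000000000000000200001010000000000000052000100000000000000000000000200000 := rS 0x7bd1ad47fb39a276efa1f39edf15674329 (k8 c11434 c5377 c5337 c5216 c5541 c11506 c5373 c11514 (k8 c5668 c10484 c10798 c3013 c1652 c950 c5585 c5673 k0)) (by decide +kernel)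
def c11516 : PP 9 3 T 0x1000000000000000000000008000000000000000000000000000000000004000000000000000000000000000000000000200000 := rS 0xefb412c9c70f85c7e2c99598a758ab34cc897e19553ed4222f6631798d4bba1ac9a402addb26cc2954cec1eef594a1d06b7c4836f79c059341f4ada964b604 (k8 c9725 c11445 c11512 c11511 c11374 c5329 c5521 c5516 (k8 c11506 c5375 c5522 c5527 c11145 c5525 c5373 c11434 (k8 c5519 c5333 c11269 c5447 c5446 c5445 c5397 c9724 (k8 c5573 c9723 c9744 c5337 c5377 c5321 c5324 c5325 (k8 c5476 c8057 c853 c3571 c5541 c2449 c8720 c5682 (k8 c8134 c5664 c2504 c8141 c2005 c733 c11513 c5353 (k8 c5216 c5466 c6706 c11515 c9176 c10719 c1240 c5452 (k1 c10484 k0)))))))) (by decide +kernel)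
def c11517 : PP 9 3 T 0x1000000000000000000000000000000000000000000000000000000000004000000000000000000000000000000000000200000 := rS 0x203e1198fc70e32be4bc7df693fdab036baa5fa9757fb8b9b29de86b29f65ac55bb61da8592950398760040782c6f4a949ec1b9c (k8 c11506 c5522 c5372 c11434 c11374 c5518 c5516 c5329 (k8 c9725 c11269 c5445 c713 c5446 c5396 c5398 c10906 (k8 c9724 c5573 c5421 c5420 c5572 c5337 c5377 c11516 (k8 c5210 c11323 c5219 c5406 c5404 c5405 c5489 c5507 (k8 c5508 c5585 c5586 c11200 c9031 c6616 c5214 c5353 (k4 c11064 c11223 c403 c383 (k2 c5534 c10485 (k1 c8628 k0)))))))) (by decide +kernel)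
def c11518 : PP 9 3 T 0x2000000000000000000000008000000000000000000000000000000000000000000000000000000000000000000000000200000 := rS 0x5b79bd6959c (k4 c11506 c11374 c5519 c5325 (k2 c5474 c8145 k0)) (by decide +kernel)
def c11519 : PP 9 3 T 0x4000000000000000000044000000000000000200000 := rS 0x34064314e0d4366d66bf153ed793c4069b4aa6412930fbddea6bda964bac5429d4efb3cc0e325293d81cc3b00203c1b9c058de943b (k8 c10906 c11374 c5518 c5516 c11506 c5522 c5329 c9725 (k8 c11269 c5445 c713 c5372 c11434 c10195 c11223 c11517 (k8 c11301 c5912 c5482 c5365 c5364 c5361 c11512 c11511 (k8 c5523 c5519 c5333 c5517 c5444 c311 c5447 c5446 (k8 c5397 c9722 c9697 c8145 c10910 c2447 c5682 c2504 (k8 c2552 c1075 c440 c10443 c9332 c3567 c1240 c2129 k0)))))) (by decide +kernel)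
def c11520 : PP 9 3 T 0x4000000000000000000004000000000000000200000 := rS 0x6bb446adff9fb1e7147fc0d52fd80b4d5e420d230b5e11c6cdc7923b84742017880d66b15aab76c3b5081cc3b00207c1e0b1bbd48f4a949ed0e0dce6d67798 (k8 c11517 c11518 c11511 c11506 c5522 c5373 c5372 c11434 (k8 c11374 c5520 c5519 c5518 c5516 c5329 c5517 c9725 (k8 c11269 c5445 c713 c5398 c10906 c9724 c5573 c5422 (k8 c5421 c5574 c9722 c9697 c9723 c5377 c183 c5912 (k8 c10195 c11064 c11301 c11223 c5534 c11519 c924 c716 (k8 c925 c10406 c2083 c2141 c1075 c1906 c1935 c2780 (k8 c3623 c11060 c5682 c5590 c2950 c439 c5501 c10298 (k1 c11321 k0)))))))) (by decide +kernel)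
def c11521 : PP 9 3 T 0x8000000000000000000000000000000000000000000000000000000000000000004000000000000000000000000000000000000200000 := rS 0x115673fa02327947086312dfbda9df33a5f6c0464ec1eef5a567112459d8d4bb98409ffc5932b5674329 (k8 c11434 c5377 c5337 c11520 c5353 c5216 c5577 c5463 (k8 c11517 c5361 c435 c11518 c454 c5484 c11506 c11374 (k8 c5519 c5333 c11269 c5396 c9725 c9724 c5404 c5487 (k8 c11298 c6616 c11295 c715 c1476 c2779 c9858 c8145 (k4 c5653 c2139 c555 c388 (k2 c3011 c7080 k0)))))) (by decide +kernel)
def c11522 : PP 9 3 T 0x8000000000000000000000000000000000000000000000000000000000000000000000000000000004000000000000000000040000000000000000200000 := rS 0xefb555eb34fb2d6aaddb285369943a0cb2851ab5dc6dff164cad59d0ca4621b7e2a5e5ed7b83cba0bcc3d41b9cda87e95b37880d2bb0 (k8 c11269 c5446 c9722 c9697 c11521 c11374 c5517 c11511 (k8 c11506 c5522 c5519 c11517 c5516 c5361 c5329 c5333 (k8 c10910 c8145 c2447 c5682 c1075 c9332 c11434 c5377 (k8 c5337 c11520 c5353 c5216 c5580 c5466 c5465 c435 (k8 c5365 c11512 c5525 c5373 c5447 c5397 c5398 c9724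 (k8 c5573 c5422 c5420 c5572 c5574 c5584 c5585 c9031 (k1 c8189 k0))))))) (by decide +kernel)
def c11523 : PP 9 3 T 0x200000000000004000000000000000000040000000000000000200000 := rS 0xef8cda8d0948d4ac314aec1fd1cf7cec861b7e2a7daf707974160dda87d5bb6d9bc406f27ae63394a (k8 c11374 c11506 c11517 c5519 c8145 c9722 c9697 c11521 (k8 c9724 c5573 c5517 c11511 c5522 c5516 c5361 c5329 (k8 c5333 c10910 c2447 c5682 c1075 c10701 c11518 c11522 (k8 c9858 c555 c11269 c5446 c9332 c11520 c435 c11434 (k4 c3013 c3012 c2129 c5454 (k1 c5653 k0)))))) (by decide +kernel)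
def c11524 : PP 9 3 T 0x4000000000000000000040000000000000000200000 := rS 0xef8cd2ccf4e3862b018e7bc86310dbf153ed793c406addb257601f07bdc16f5a503739b59d8d4bb9871f8b2656ace8653b3 (k8 c11521 c11434 c5377 c5337 c11520 c5353 c5216 c5466 (k8 c11517 c5361 c435 c11518 c11511 c11506 c5522 c11374 (k8 c5519 c5516 c5333 c5329 c5517 c11269 c5446 c9724 (k8 c5573 c9722 c9697 c8145 c10910 c2447 c5682 c1075 (k8 c9332 c10701 c11522 c9858 c2139 c1242 c11523 c9176 (k4 c1651 c10719 c388 c5452 (k1 c5653 k0))))))) (by decide +kernel)
def c11525 : PP 9 3 T 0x4000000000000000000000000000000000000200000 := rS 0x57908345a69b5fc435c9958bb9808e86b201023c40729 (k8 c11434 c9722 c9697 c9725 c9723 c5337 c5377 c183 (k8 c11517 c5361 c11520 c5353 c435 c5216 c5465 c5579 (k4 c11524 c716 c925 c10406 (k1 c11321 k0)))) (by decide +kernel)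
def c11526 : PP 9 3 T 0x4000000080000000000000000000000000000000000000004000000000000000000000000000000000020100000000011000000200000 := rS 0x3362b419fe1ef8e0ea572f8ec1293039841ef7058de947b06967dacd64ec0b6675521f3804 (k8 c9725 c11506 c5373 c11525 c2123 c715 c11269 c5396 (k8 c2075 c5500 c11512 c5522 c5372 c11374 c5518 c5516 (k8 c5333 c5329 c5445 c713 c5444 c311 c10906 c5439 (k8 c5353 c5440 c11223 c11034 c5534 c2558 c6897 c10805 (k2 c2129 c10897 k0))))) (by decide +kernel)
def c11527 : PP 9 3 T 0x1000000000000000000000008000000000000000000000000000000000000000000000000000000000000000000000000200000 := rS 0x1d7bed36bb17c456c99dd1a6445ecc62f31a97743593480563b664ec252b7c4836f60b2683e940433aa90f9c (k8 c11506 c5373 c11525 c2123 c9725 c11374 c5329 c5521 (k8 c5516 c5375 c5522 c5527 c11145 c11434 c11269 c5396 (k8 c9724 c5421 c9723 c9744 c5337 c5377 c5321 c5324 (k8 c5325 c5476 c8057 c853 c5664 c2171 c2053 c11526 (k8 c10195 c5216 c836 c5465 c5579 c8176 c11351 c5668 k0))))) (by decide +kernel)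
def c11528 : PP 9 3 T 0x1000000000000000000000000000000000000000000000000000000000000000000000000000000000000000000000000200000 := rS 0xc46a331f8e0af92efb55ae9757fb8b9b29de86b21901a7d96b156ed876a14a81cc2040782c6f4a949ec1b9c66aa993b0 (k8 c11269 c5396 c11525 c2075 c11506 c5522 c5372 c11434 (k8 c11374 c5518 c5516 c5329 c9725 c5445 c713 c5446 (k8 c5398 c10906 c9724 c5573 c5421 c5420 c5572 c9722 (k8 c9701 c5337 c5377 c11527 c5210 c11323 c5219 c5406 (k8 c5404 c5507 c5585 c9031 c5214 c5353 c11223 c403 (k4 c383 c440 c8160 c5653 k0)))))) (by decide +kernel)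
def c11529 : PP 9 3 T 0x80000000000000000000000000000000000000000000000000000000000000000000000000000000000000000000000200000 := rS 0x6a1a4b0e366772b97de2033498c023b4a81cc2040782c6e7b06b3593b00ebde94675521f38c5329d67798 (k8 c11528 c11518 c5482 c5481 c5364 c11506 c5373 c11525 (k8 c2123 c11374 c5333 c2121 c11269 c5396 c2075 c5522 (k8 c5372 c5518 c5516 c5329 c9725 c5445 c713 c5446 (k8 c10906 c9723 c9755 c9744 c9722 c9697 c5439 c5353 (k4 c5356 c11301 c11223 c10013 (k2 c5649 c440 (k1 c1074 k0))))))) (by decide +kernel)
def c11530 : PP 9 3 T 0x8000000000000000000000000000000000000000000000000000000000000000000000000000000000000000000000000000000200000 := rS 0x8ab39fd01194708631f7b53be9757ed993b07ba2676f27a96cceaa43e7294451a958085dcc204ffe2c9d674329 (k8 c11434 c5377 c5337 c11529 c5216 c5577 c5463 c11528 (k8 c5361 c9725 c10195 c435 c454 c11374 c11506 c5373 (k8 c11525 c2123 c715 c5519 c8145 c11518 c5484 c5333 (k8 c11269 c5396 c9724 c5406 c5404 c11298 c6616 c11295 (k8 c1476 c2779 c9858 c5653 c2139 c555 c388 c3010 (k1 c7080 k0)))))) (by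 decide +kernel)
def c11531 : PP 9 3 T 0x200000 := rS 0x1ee21a5d5f1d0d6cda6d71af88ad9322cecbb980eaaa52f7a525760ad58b2de204db00eb3a1 (k8 c5377 c5337 c9722 c9724 c9725 c9697 c5420 c5421 (k8 c5573 c11269 c5446 c11374 c5333 c11434 c11525 c2121 (k8 c11528 c5361 c11518 c454 c11529 c10195 c5216 c435 (k8 c5465 c5579 c11530 c5649 c2161 c1078 c1074 c11321 (k2 c9858 c5892 k0))))) (by decide +kernel)
def c11532 : PP 9 3 T 0x4400000000028000201080000000000000000000008000200000000000080000000500000000204000000000008000000000000000000000000002000 := rS 0x7dbe2e774e2d9cc45fa6da2dd653213ed2f79e55badd88c52e191aa051b1393a271a9d8aae532b35bfb59a3b849611686f0b8d234b0ebf5ea230daa5e2857996d6b1980c5fe51d19d64ae09038fcfa7f1e91d1e0b07e749213 (k8 c5564 c293 c5522 c151 c34 c5568 c5779 c5436 (k8 c5358 c5442 c5318 c5432 c5438 c5353 c9764 c5316 (k8 c5778 c8188 c5593 c5592 c5551 c5548 c5474 c5325 (k8 c2540 c9695 c5489 c5475 c9732 c5477 c5405 c5486 (k8 c10456 c9821 c1776 c5457 c292 c900 c291 c4579 (k8 c289 c2072 c5498 c5533 c5532 c5530 c5415 c5414 (k8 c5412 c5569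 c5567 c5383 c5382 c5381 c5380 c5324 (k8 c5315 c5404 c5476 c9240 c5437 c5490 c5441 c5506 (k8 c5689 c2882 c2085 c2086 c4575 c2135 c1326 c4134 (k8 c11210 c5688 c3964 c5759 c5755 c10469 c10468 c10471 k0)))))))))) (by decide +kernel)
def c11533 : PP 9 3 T 0x4400000000028000201080000000000000000000008000200000000000080000000500000000004000000000008000000000000000000000000002010 := rS 0x20be00098802901a49929b653393ed2f7a85fc7058c5e03195afca3aad579a4ce9519b042e37d6ec462970c8d4e68146c9cde89c6d64ae09038fcfa3d23a3c160fcec55729959edd6f032484e125832a2d234b0ebf5ea230daa5e27f42bccb686 (k8 c292 c5474 c5325 c2540 c5358 c9695 c5489 c5475 (k8 c9732 c5477 c5405 c5486 c10456 c9821 c900 c2113 (k8 c291 c4579 c5564 c293 c2196 c5533 c8057 c5532 (k8 c5530 c5415 c5414 c5522 c151 c34 c5568 c5779 (k8 c5436 c5442 c5318 c5432 c5438 c5353 c9764 c5569 (k8 c5567 c5565 c5383 c5381 c5380 c5379 c5324 c5315 (k8 c5404 c5476 c9240 c5437 c5435 c5433 c5319 c5316 (k8 c5488 c5487 c5403 c5406 c5490 c5778 c8188 c5548 (k8 c5551 c5592 c5593 c11532 c3602 c3623 c2929 c5586 (k8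 c5689 c2882 c2943 c5680 c2562 c1324 c3577 c261 (k4 c537 c1753 c1754 c5642 (k2 c10472 c667 (k1 c5014 k0))))))))))))) (by decide +kernel)
def c11534 : PP 9 3 T 0x4400000000028000201080000000000000000000008000200000000000080000000400000000004000000000008000000000000000000000000002010 := rS 0x38497f26f907ded471f846a3f2484c8e8f0583f3bed668ec1291a5875faf51186d52f13fa15e65b (k8 c5474 c5325 c2540 c5358 c9695 c5489 c5475 c9732 (k8 c5477 c5405 c5486 c10456 c9821 c5438 c289 c2072 (k8 c5498 c5522 c151 c34 c5568 c5779 c5564 c293 (k8 c5318 c5324 c5457 c1776 c11533 c5585 c1656 c3003 (k4 c5204 c5546 c5591 c6010 k0))))) (by decide +kernel)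
def c11535 : PP 9 3 T 0x800004000000000029100000081400000000000000000008000040014401000000000080008000401004000001400100000000000001400000000001000000 := rS 0x3a7e11b54c5572b35bf87defe (k8 c2564 c5586 c5538 c5533 c5532 c5415 c5414 c5489 (k4 c5599 c10471 c2676 c10469 k0)) (by decide +kernel)
def c11536 : PP 9 3 T 0x414004400000000000000000000000000000000000000000000000000000000000004000080000015200005500000000000000000000000000000000000000 := rS 0x3c8e8 (k2 c10468 c5206 (k1 c5472 k0)) (by decide +kernel)
def c11537 : PP 9 3 T 0x404004400000000008000010000000000000000100040008000200000001000000004000080000015204001500000000000010000000000000000000000000 := rS 0xfbbeee34967fabe7e069c199d53910cedd3ead (k8 c5490 c2882 c8057 c5315 c5491 c5489 c5487 c5407 (k8 c5403 c11536 c5625 c5938 c7749 c5222 c5233 c5387 (k2 c5609 c5289 k0))) (by decide +kernel)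
def c11538 : PP 9 3 T 0x1004400000000028000011081000000000000100040008000240014401000000004080088810001004000001400100000010000001400000000000000000 := rS 0x7c1d38a8dfd97eb064184be633b9d4d2674aaa75bb11887436970c8d5e29d5ca656fe14dbf7defe (k8 c2564 c5586 c5405 c2562 c5538 c5533 c5530 c5415 (k8 c5412 c9695 c5324 c5315 c5404 c5475 c5486 c5476 (k8 c9240 c5437 c5489 c5488 c5487 c5403 c5440 c5356 (k8 c5355 c5439 c1755 c3597 c1324 c4134 c11537 c5599 (k4 c11535 c2676 c9538 c10469 k0))))) (by decide +kernel)
def c11539 : PP 9 3 T 0x4400000000028000201080000000000000000000008000200000000000080000000500000000004000000000004000000000000000000000000002000 := rS 0x70502c596e7f7bf99de168b7a2f018cb8d6ae14ffc9a51d3c9dceaad579a4ce33d88c52e191a9cd028d89c9cde89c6d64ae071f9f47a490991d1e0bdbadd9a3b04c24b06545a46961d7ebd4461b54bc4fe5b43317da8307e750af3 (k8 c5325 c2540 c5522 c151 c1972 c5498 c5732 c292 (k8 c5474 c5358 c9695 c5489 c5475 c9732 c5477 c5405 (k8 c5486 c10456 c9821 c900 c2113 c291 c4579 c5438 (k8 c289 c2072 c5533 c8057 c34 c5568 c5779 c5564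 (k8 c293 c5436 c5442 c5318 c5432 c5353 c9764 c5569 (k8 c5567 c5565 c5383 c5382 c5381 c5380 c5379 c5324 (k8 c5315 c5404 c5476 c9240 c5316 c5487 c5403 c5406 (k8 c5490 c5440 c5356 c5441 c5778 c3608 c8188 c2882 (k8 c3063 c5548 c5549 c5551 c5592 c5593 c5846 c2135 (k8 c5538 c5688 c2564 c5586 c5755 c11538 c2086 c5680 (k2 c3602 c2929 k0))))))))))) (by decide +kernel)
def c11540 : PP 9 3 T 0x4400000000028000201080000000000000000000008000200000000000080000000400000000004000000000000000000000000000000000000002010 := rS 0x3c3f37037dc7ef6a1ed225b639f4f27f42a06268fa5bcc3afd7a88c36a978fb59a3b04c0c9213 (k8 c5564 c293 c2196 c5438 c289 c2072 c5498 c9695 (k8 c5489 c5475 c9732 c5477 c5405 c5486 c5325 c10456 (k8 c5568 c5382 c5380 c2540 c5358 c5441 c5442 c5357 (k8 c5474 c9821 c11534 c11539 c5585 c1663 c3003 c3610 (k2 c5591 c5460 (k1 c5204 k0)))))) (by decide +kernel)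
def c11541 : PP 9 3 T 0x8000000080000000000000000000008000200000000000001000000000110000000000000000000000010000000000000000000000010 := rS 0x300a48c0350d8c4be09319dcea694b874ce950c8cc0e17 (k8 c5433 c5432 c5316 c5315 c5488 c5487 c5486 c5404 (k8 c5403 c5440 c5356 c5355 c5438 c5439 c5476 c5475 (k4 c5324 c3597 c3577 c661 (k2 c261 c5642 k0)))) (by decide +kernel)
def c11542 : PP 9 3 T 0x4400000000028000201080000000000000000000008000200000000000080000000000000000004000000000000000000000000000000000000002010 := rS 0x944e295828190c54fb4dacf10da543281ac95c12071f9f4fe3ddbadcca86 (k8 c292 c2113 c5533 c8057 c5436 c5358 c5442 c5318 (k8 c5432 c5438 c5353 c9764 c5380 c5315 c5488 c5475 (k8 c9695 c11540 c205 c1605 c1765 c11541 c10123 c2189 (k4 c1195 c2927 c1092 c5651 k0)))) (by decide +kernel)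
def c11543 : PP 9 3 T 0x8000000000028000201080000000000000000000008000200000000000080000000100000000004000000000000000000000000000000000000002010 := rS 0xb17fc0094e167310ee7556abcd2671d9cd028d37a26b2570481c7e7d1e92426474782c1f9d4e88532b732905c6df45a45af4b0ebf5ea230daa5e27f42bccb686 (k8 c292 c5474 c5325 c2540 c5358 c9695 c5489 c5475 (k8 c9732 c5477 c5405 c5486 c10456 c5465 c9821 c900 (k8 c5580 c5466 c5462 c2113 c5533 c5530 c5528 c5412 (k8 c5522 c151 c34 c5568 c5779 c5564 c293 c5436 (k8 c5442 c5318 c5432 c5438 c5353 c9764 c5567 c5565 (k8 c5381 c5380 c5379 c289 c5487 c5403 c5406 c5490 (k8 c5440 c5356 c5287 c899 c1652 c6010 c565 c2568 (k2 c2143 c9795 k0)))))))) (by decide +kernel)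
def c11544 : PP 9 3 T 0x200000000010080000440008000000000000000000000000000000001410400000000000000 := rS 0x7092c7e3d (k4 c5436 c5318 c565 c1653 (k1 c5985 k0)) (by decide +kernel)
def c11545 : PP 9 3 T 0x28000001000000000000000100000008000200000000000080000440008000000004000000150000044010000001410400000400000010 := rS 0x4a58bffe70056abcd2674e88532b7a5bcc3afd7a86d52f1 (k8 c9695 c5489 c5475 c5477 c5405 c5486 c5325 c10456 (k8 c5533 c5530 c5528 c5412 c5487 c5403 c5406 c5490 (k4 c11544 c5592 c178 c2143 (k2 c5660 c9795 k0)))) (by decide +kernel)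
def c11546 : PP 9 3 T 0x400000000028000201080000000000000000000008000200000000000080000000000000000004000000000000000000000000000000000000002010 := rS 0xe125c059ed445a45bee36b907c4654316c768539a34de89ac95c12071f9f4fe3d2484c8e8f0583f3b4b79875faf51186d52f1 (k8 c9695 c5489 c5475 c9732 c5477 c5405 c5486 c5325 (k8 c10456 c5522 c151 c34 c5568 c5779 c5564 c293 (k8 c5436 c5358 c5442 c5318 c5432 c5438 c5353 c9764 (k8 c5567 c5565 c5381 c5379 c2540 c289 c5474 c292 (k8 c2113 c11542 c5462 c5465 c5466 c5580 c9821 c900 (k4 c11543 c11545 c3073 c565 (k2 c6188 c5985 k0))))))) (by decide +kernel)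
def c11547 : PP 9 3 T 0x5400000000000000000000000000000000000000008000000100000050040000540500000000000000000000000000000000001400000000000000000 := rS 0xd3f7bf897f221915e6f5 (k8 c5477 c5325 c5326 c5478 c5691 c5546 c3593 c5996 (k2 c2942 c5689 k0)) (by decide +kernel)
def c11548 : PP 9 3 T 0x4004400000000029000010081400000000000100040008000240000400000000004080008000000204000001400100000010000001400000000000000000 := rS 0x17ff66532033ad4eae532b74dbf56b098cc5dfcd2 (k8 c2565 c2564 c4895 c4704 c4780 c4703 c5405 c2562 (k8 c5533 c5530 c5415 c5412 c5437 c5315 c2085 c2086 (k2 c11537 c4134 (k1 c11535 k0)))) (by decide +kernel)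
def c11549 : PP 9 3 T 0x4400000000028000201080000000000000000000008000200000000010040000000500000000004000000008000000000000000000000000000002000 := rS 0x1244164afd9426509c162e78bfbe33097f348969f5ab78211d21914baad579a4ce951cb042e37d6ec462970c8d4e68146c4e4e6f44e36b23f3e8f492138aae532b3dbadf162923a3c160fce994001ef6c0d9a8bf0b8cf491a5875ea230daa5e27f42bccb69b7eb859cc42c9d41257039dc6615 (k8 c11531 c5316 c5356 c5432 c5353 c5438 c5440 c2111 (k8 c10693 c899 c1653 c5405 c2562 c5474 c5325 c2540 (k8 c5358 c9695 c5489 c5475 c9732 c5477 c5486 c10456 (k8 c9821 c898 c1776 c5457 c900 c2073 c10690 c5499 (k8 c7262 c2362 c1056 c5522 c151 c34 c5568 c5779 (k8 c1312 c4759 c5533 c8057 c5532 c5530 c5415 c5414 (k8 c5564 c293 c5436 c5442 c5318 c9764 c5569 c5567 (k8 c5565 c5383 c5382 c5381 c5380 c5379 c5324 c5315 (k8 c5404 c5476 c9240 c5437 c5435 c5433 c5319 c5317 (k8 c5488 c5487 c5403 c5406 c5490 c5321 c5326 c5478 (k8 c5778 c10689 c11547 c4703 c2885 c2510 c2565 c2564 (k8 c4780 c4704 c5996 c4895 c5755 c11548 c3602 c2929 (k4 c668 c5680 c5014 c1324 (k2 c10472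 c3577 (k1 c1753 k0))))))))))))))) (by decide +kernel)
def c11550 : PP 9 3 T 0x4400000000028000201080000000000000000000008000200000000010040000000400000000004000000008000000000000000000000000000002000 := rS 0x12dbe41f7b51c2e3671e988cd2cc0fda352b9dcea331f81c76092484c8e8f0583f3a91a5875faf51186d52f13fa15e65b (k8 c5474 c5325 c2540 c5358 c9695 c5489 c5475 c9732 (k8 c5477 c5405 c5486 c10456 c9821 c5522 c151 c34 (k8 c5568 c5779 c5564 c293 c5438 c289 c5432 c5318 (k8 c5316 c5440 c5356 c5353 c5324 c5499 c10690 c2111 (k8 c2073 c10693 c898 c899 c1776 c1653 c11549 c5585 (k4 c1656 c3003 c9182 c6010 k0)))))) (by decide +kernel)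
def c11551 : PP 9 3 T 0x11000000000000000000000000000000000000000000000000008000000000000000005001000000000000000000000000000000 := rS 0x107ed (k2 c5543 c2394 (k1 c5672 k0)) (by decide +kernel)
def c11552 : PP 9 3 T 0x5005400000000000000000000000000000000000000008000000100000014040000400500000000000000000000000000000000001400000000000000000 := rS 0x25c0fe4d221915e6f5 (k8 c5477 c5325 c5326 c5478 c5689 c5204 c2088 c5546 (k1 c3593 k0)) (by decide +kernel)
def c11553 : PP 9 3 T 0x8000000000000008000000000000000000000000000008000000000000010040000000000000000000000000110000044010000001400000000080000010 := rS 0x48702522e06b121915e6f556abcd267 (k8 c5487 c5403 c5406 c5490 c5477 c5325 c5326 c5478 (k4 c5506 c5508 c5583 c5996 (k2 c3602 c2591 (k1 c2755 k0)))) (by decide +kernel)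
def c11554 : PP 9 3 T 0x5400000000000000000000000000000000000000008000000100000014040000400580000000000000000000000000000000001400100000000000000 := rS 0x6f12a064322bcdeae1 (k8 c3062 c5477 c5325 c5326 c5478 c2088 c3593 c11547 (k1 c2510 k0)) (by decide +kernel)
def c11555 : PP 9 3 T 0x4004400000000008000000000000000000000100040008000200000000010040000000504000000000000000110040044000000001400400000180000002 := rS 0x2c4e2241392be6e2f0b31fed145b4a3a35798c5eaad579a4ce331c8dcca1b (k8 c5475 c1056 c5435 c5317 c5316 c5487 c5403 c5406 (k8 c5490 c5477 c5476 c5325 c5324 c5778 c5689 c2938 (k8 c2135 c2943 c3587 c5537 c11554 c5549 c5660 c353 (k4 c2591 c668 c1092 c3602 k0)))) (by decide +kernel)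
def c11556 : PP 9 3 T 0x4400000000028000201080000000000000000000008000200000000010000000000400000000004000000000000000000000000000000000000002010 := rS 0x1c24b12b7d3ce320a8596d4f7b3d0e7957ec462970c8d4768539a34de89ac95c12071f9f4fe3d2484c8e8f0583f3a2159d2de61d7ebd446a978edd6e6500079ee1b (k8 c5475 c11546 c7262 c2362 c1056 c5533 c8057 c9695 (k8 c5489 c9732 c5477 c5405 c5486 c5325 c10456 c5532 (k8 c5528 c5522 c151 c34 c5568 c5779 c5564 c293 (k8 c5436 c5358 c5442 c5318 c5432 c5438 c5353 c9764 (k8 c5567 c5565 c5381 c5379 c2540 c289 c5324 c5315 (k8 c5404 c5476 c9240 c5406 c5441 c11550 c11551 c11553 (k8 c11555 c1660 c3000 c1656 c1662 c5680 c2884 c2756 (k2 c2591 c6188 (k1 c5985 k0))))))))) (by decide +kernel)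
def c11557 : PP 9 3 T 0x4400000000028000201080000000000000000000008000200000000000000000000400000000004000000000000000000000000000000000000002010 := rS 0x4870252c517f380244b6ad579a4ce8539a34de89ac95c12071f9f4fe3d2484c8e8f0583f3b4b79875faf511aa5e26500079ee1b (k8 c5475 c11546 c7262 c2362 c1056 c9695 c5489 c9732 (k8 c5477 c5405 c5486 c5325 c10456 c5522 c151 c34 (k8 c5568 c5779 c5564 c293 c5436 c5358 c5442 c5318 (k8 c5432 c5438 c5353 c9764 c5567 c5565 c5381 c5379 (k8 c2540 c5487 c5403 c5406 c5490 c5474 c9821 c11556 (k4 c5592 c3068 c2143 c5660 (k2 c3602 c2591 (k1 c2755 k0)))))))) (by decide +kernel)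
def c11558 : PP 9 3 T 0x4400000000028000201080000000000000000000008000200000000000000000000000000000004000000000000000000000000000000000000002010 := rS 0x2513ac140c862a7da6d678a5503592b8240e3f3e9fc7bb75b8a48e8f0583f3a6500079ee1b (k8 c5475 c11546 c7262 c2362 c1056 c5522 c151 c34 (k8 c5568 c5779 c1312 c5533 c8057 c5436 c5358 c5442 (k8 c5318 c5432 c5438 c5353 c9764 c5380 c5488 c9695 (k8 c11557 c205 c1605 c1765 c11541 c10123 c2189 c2927 (k2 c1092 c5651 k0))))) (by decide +kernel)
def c11559 : PP 9 3 T 0x40000000080000000000000100000000000000000000000000000000000400000000010000000100044001000000001000014000000002 := rS 0x27848712f9f4fe63 (k8 c5355 c5358 c5442 c5439 c668 c5651 c3599 c2756 k0) (by decide +kernel)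
def c11560 : PP 9 3 T 0x400000000028000201080000000000000000000008000200000000000000000000000000000004000000000000000000000000000000000000002010 := rS 0xe125899bea171b2c83e2308a4001e7bede96b710bc5e61b7abf43aa9118ece68137d64ae09038fcfa7f1e92426474782c1f9d (k8 c5522 c151 c34 c5568 c5779 c5564 c293 c5436 (k8 c5358 c5442 c5318 c5432 c5438 c5353 c9764 c5565 (k8 c5380 c5379 c289 c9732 c5489 c5486 c5405 c5477 (k8 c5475 c5325 c9695 c5528 c5533 c10456 c8057 c11546 (k8 c7262 c2362 c1312 c661 c11558 c5462 c5464 c5466 (k4 c5578 c5580 c11559 c353 (k2 c6188 c5985 k0))))))) (by decide +kernel)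
def c11561 : PP 9 3 T 0x18000001080000000000000000000008000200000000000000000000008000000000000400000000000400000000000000000000002000 := rS 0x4c187c2003d441886d2ca193a093c95cee75338cc0fb11887436970c8d5e28579bde959d (k8 c5522 c5211 c5333 c5325 c2540 c9695 c5324 c5315 (k8 c5404 c5475 c5486 c5476 c9240 c5432 c5316 c5487 (k8 c5440 c5356 c5353 c5441 c5438 c1650 c11551 c2111 (k8 c744 c10693 c5665 c898 c9730 c5457 c661 c5679 (k1 c1593 k0))))) (by decide +kernel)
def c11562 : PP 9 3 T 0x80000000000000000000008000200000000000040000000004000000000000000008000000000000000000000000000000000 := rS 0x6296412573b9d46607 (k8 c5432 c5316 c5440 c5356 c5353 c5438 c2111 c899 (k1 c10693 k0)) (by decide +kernel)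
def c11563 : PP 9 3 T 0x400000000008000201080000000000000000000008000200000000000000000000000000000004000000000000000000000000000000000000002010 := rS 0xc84e26598d14121fdbe167a6cd6207b87e95b57abf552331c8df62310e86d2e191abc73a231d8250af3 (k8 c5325 c2540 c5438 c289 c9732 c5522 c9695 c5324 (k8 c5315 c5404 c5475 c5486 c5476 c9240 c5435 c5317 (k8 c5316 c5489 c5405 c5477 c11560 c5211 c9664 c5333 (k8 c3581 c2372 c2490 c11561 c7058 c7897 c11562 c5672 (k4 c5261 c3587 c2440 c5679 (k2 c6455 c1275 k0)))))) (by decide +kernel)
def c11564 : PP 9 3 T 0x8000001080000000000000000000008000200000000000000000000000000000004000000000000000000000000000000000000002020 := rS 0x43b399a7bf026f6a994eb1294f7101a8b25f049e4ae773a8cc7207d88c43a1b4b8646af1ce83d0af3 (k8 c5325 c2540 c151 c5522 c9695 c5324 c5315 c5404 (k8 c5475 c5486 c5476 c9240 c5432 c5317 c5316 c5440 (k8 c5356 c5353 c5441 c5438 c5439 c313 c316 c315 (k8 c3664 c6008 c10693 c1135 c2373 c5528 c2490 c5679 (k4 c5457 c5537 c7029 c898 (k1 c11551 k0)))))) (by decide +kernel)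
def c11565 : PP 9 3 T 0x8000101080000000000000000000000000200001000050000000000008000000404000001108000000000000004000000000000012000 := rS 0x11ce2f9b7d68ff58fb9c2893cab55efd548e47e37ce8ec1247899251615 (k8 c11531 c900 c294 c2598 c2368 c5438 c289 c5522 (k8 c5435 c5318 c5317 c5489 c5405 c5406 c5490 c5441 (k8 c2117 c1653 c5673 c5506 c5586 c3623 c2564 c5548 (k2 c10446 c5675 (k1 c2403 k0))))) (by decide +kernel)
def c11566 : PP 9 3 T 0x8000101080000000000000000000000000200001000040000000000008000000404000001108000000000000004000000000000012000 := rS 0x38dc28e6ffce00d13e9e4723f1be74760923c4c9215 (k8 c11531 c294 c2598 c2368 c5438 c289 c5522 c5435 (k8 c5318 c5317 c5441 c5442 c174 c11565 c5592 c2953 (k4 c5675 c2846 c2403 c10446 k0))) (by decide +kernel)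
def c11567 : PP 9 3 T 0x400000000028000001080000000000000000000008000200000000000080000000000000000004000001000000000000000000000000000000002000 := rS 0x23fe6e26fb87c0d1643159e49789e4723f1be762ab323846264bf6b34760981a34b11dac6dd6fa1029950c15 (k8 c11531 c292 c2113 c11564 c11563 c5533 c8057 c5212 (k8 c5341 c291 c2169 c2195 c5438 c289 c2072 c5498 (k8 c5342 c2598 c9667 c2368 c5532 c5414 c5522 c5435 (k8 c5318 c5317 c5441 c9695 c294 c11566 c899 c11541 (k8 c2133 c5688 c5460 c5538 c10446 c5549 c2403 c5675 k0))))) (by decide +kernel)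
def c11568 : PP 9 3 T 0x400000000028000001080000000000000000000008000200000000000080000000000000000004000000000000000000000000000000000000002000 := rS 0xf735be690f696cff9d42e840b4b79875faf51186d52f1 (k8 c9695 c5489 c5475 c9732 c5477 c5405 c5486 c5325 (k8 c10456 c11564 c11563 c2540 c5522 c5358 c5474 c5498 (k4 c11567 c5589 c9821 c5191 (k1 c5507 k0)))) (by decide +kernel)
def c11569 : PP 9 3 T 0x400000000028000001080000000000000000000008000200000000000000000000000000000004000000000000000000000000000000000000002000 := rS 0x69409910149a1d94cf6f38dc2ff24a396891391bcd4000f3dc971d23906b02508edd6ef1219146af30d8c5ea7d3c9fd2efd0ea5432331f85c7a3b04e840a15 (k8 c11531 c11564 c11563 c5438 c289 c5436 c5433 c5318 (k8 c5316 c5315 c5488 c5486 c5405 c5404 c5358 c5441 (k8 c5442 c5477 c5476 c5475 c5325 c5324 c5326 c5478 (k8 c9695 c5533 c8057 c9667 c9666 c5212 c8151 c2368 (k8 c5341 c5342 c11568 c7262 c2362 c2361 c1060 c9806 (k8 c9824 c1318 c1319 c294 c2572 c2846 c2403 c5985 (k8 c4703 c2515 c11562 c1753 c2849 c3577 c3593 c1325 (k1 c2088 k0)))))))) (by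 decide +kernel)
def c11570 : PP 9 3 T 0x18000001080000000000000000000008000200000000000000000000000000000004000000000000000000000000000000000000002000 := rS 0xc84e26598d1417b50fe167a6cd6207b87e94f57eaa466391bec4621d0da5c323578e74463b04a15e605 (k8 c11564 c5325 c2540 c5438 c289 c9732 c5522 c9695 (k8 c5324 c5315 c5404 c5475 c5486 c5476 c9240 c5435 (k8 c5317 c5316 c5489 c5405 c5477 c5211 c9664 c5333 (k8 c3581 c2372 c2490 c11561 c7058 c11562 c7897 c5672 (k4 c5261 c3587 c2440 c5679 (k2 c6455 c1275 k0)))))) (by decide +kernel)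
def c11571 : PP 9 3 T 0x8000001080000000000000000000008000200000000000000000000000000000004000000000000000000000000000000000000002000 := rS 0x80cc89264b17bdb402bc46a1b188252e1d4a8646617 (k8 c5433 c5316 c5315 c5488 c5486 c5404 c5438 c5476 (k8 c5475 c5324 c9695 c11564 c11570 c11569 c5451 c5494 (k4 c3577 c11541 c261 c1056 (k1 c5642 k0)))) (by decide +kernel)
def c11572 : PP 9 3 T 0x8000001080000000000000000000008000200000000000000000000008000000000000000000000000000000000000000000000002010 := rS 0x124024c884026a4da74f2977e86472171b88c7609da87d541b (k8 c5475 c11571 c1084 c5413 c5438 c289 c9732 c5435 (k8 c5433 c5317 c5315 c5405 c5404 c5441 c1650 c2562 (k4 c11561 c3979 c2372 c2373 (k2 c5642 c3578 (k1 c261 k0))))) (by decide +kernel)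
def c11573 : PP 9 3 T 0x8000000000800000000000000000000000004000000 := rS 0xc910 (k4 c1974 c1973 c9730 c1056 k0) (by decide +kernel)
def c11574 : PP 9 3 T 0x8000001080000000000000000000008000200000000000000000000000000000000000000000000000000000000000000000000002000 := rS 0x3c07a0226d88ce2ca1906f70ffb76aaa4288f3af32f824ae773abf46607d88c43a1b4b8646af1 (k8 c9695 c5324 c5315 c5404 c5475 c5486 c5476 c9240 (k8 c5432 c5316 c5405 c5440 c5356 c5353 c5438 c5439 (k8 c5325 c5522 c9732 c2540 c11571 c5413 c5500 c1084 (k8 c8123 c11573 c5672 c2111 c11562 c10693 c2562 c11572 (k2 c898 c10916 (k1 c5457 k0)))))) (by decide +kernel)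
def c11575 : PP 9 3 T 0x1000000000000000000001000000000000000000000000000000000000001000000000000000000000000000004400000800000000000000000000000000 := rS 0x10b9d (k2 c5523 c2542 (k1 c5672 k0)) (by decide +kernel)
def c11576 : PP 9 3 T 0x20000000080000000000000000000000000000000000001000000000008000000000000000000004000400000000000150000001401050 := rS 0x1f49808029b1d97c12c73c98c47114e884da99 (k8 c5530 c5529 c5528 c5412 c5411 c5409 c5355 c5441 (k8 c5357 c5438 c5439 c1646 c2562 c10253 c5642 c261 (k2 c1111 c3578 k0))) (by decide +kernel)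
def c11577 : PP 9 3 T 0x400000000028000000080000000000000000000008000200000000000081000000004000000004000000000004000000000000000000000000001012 := rS 0x321a0c5f0a68ca1b639e4c6070bc453a214cfb59a33 (k8 c5316 c2071 c5498 c5530 c5528 c5412 c5411 c5433 (k8 c5432 c5355 c5441 c5357 c5475 c1056 c10500 c5536 (k4 c10805 c5688 c11541 c2133 k0))) (by decide +kernel)
def c11578 : PP 9 3 T 0x400000000028000000080000000000000000000008000200000000000081000000000000000004000000000004000400000000000000000000001010 := rS 0x1363bf0345901f4980802cf1a86c62094bbf43a950c8e40e171b88d3a214cfb59a33 (k8 c5316 c2071 c5498 c5530 c5528 c5412 c5409 c5435 (k8 c5433 c5432 c5317 c5315 c5488 c5486 c5405 c5404 (k8 c5438 c5476 c5475 c5324 c11576 c11577 c5642 c261 (k4 c1111 c3577 c2133 c5688 (k2 c6899 c5536 (k1 c3578 k0)))))) (by decide +kernel)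
def c11579 : PP 9 3 T 0x400000000028000001080000000000000000000008000200000000000080000000000000000004000000000000000000000000000000000000000010 := rS 0x5e74f46b41a1c1e5b0383696f30ebf5ea230daa5e3ed (k8 c5498 c9695 c5489 c5475 c5409 c5477 c5405 c5486 (k8 c5325 c10456 c11574 c5432 c5474 c9739 c8435 c1972 (k4 c11575 c11578 c5372 c690 (k1 c5645 k0)))) (by decide +kernel)
def c11580 : PP 9 3 T 0x400000000000000200080000000000000000040008000200000000000000000000000000000000000000008008000000010000000000000000008000 := rS 0x23a8b6aa4481e37184d025d1a9f4fe3f1e845aece621d41257039dc6615 (k8 c11531 c5316 c5356 c5432 c5353 c5438 c5440 c10693 (k8 c899 c4298 c10107 c5436 c5318 c5358 c5442 c5324 (k8 c5321 c5380 c5564 c1775 c10343 c3569 c10301 c1656 (k2 c900 c5778 (k1 c10689 k0))))) (by decide +kernel)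
def c11581 : PP 9 3 T 0x8000000000000000000000000000008000000100000000000000000400000000000020000000000000000000000004000011000000000 := rS 0x13ac486ad (k4 c5490 c5478 c1198 c2927 (k1 c6206 k0)) (by decide +kernel)
def c11582 : PP 9 3 T 0x100080000000000000000000000000200000000000000000000000000000000008000000000000000000000000000000000010020 := rS 0x48de7d3f95c3207399041215 (k8 c11531 c5438 c8151 c9718 c5432 c5315 c5353 c5358 (k4 c5442 c2815 c10691 c318 k0)) (by decide +kernel)
def c11583 : PP 9 3 T 0x8000000000000000001080000000000000000000008000200100000000000000000400020000000000000000000000000000000010000000000010000 := rS 0x89f7a35a81269a048a7d198fc7a15 (k8 c11531 c5436 c5318 c5316 c5442 c5326 c5463 c5579 (k4 c10343 c6627 c947 c6923 (k2 c2837 c8818 k0))) (by decide +kernel)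
def c11584 : PP 9 3 T 0x1000400000000028000011080000000000000000000008000200000000000000000000000000000000000000000400000000000000000000000000000020 := rS 0x22d12d24684ce0d537b2bc69f50c74835812e85aece3d21822850710c8a5d2d97cfead1f8f762314b8646a0da5bcdfaf51186d52f1dbadc5273059b588590e9d41257039dc6615 (k8 c11531 c5316 c5356 c5432 c5353 c5438 c5440 c5486 (k8 c313 c10693 c5529 c717 c9718 c9692 c5533 c8057 (k8 c9695 c5489 c5475 c5409 c5477 c5405 c5325 c10456 (k8 c11574 c5324 c5315 c5404 c5476 c9240 c5436 c5318 (k8 c5490 c5358 c5439 c5474 c5321 c5326 c5478 c5645 (k8 c9740 c10107 c10850 c5732 c899 c4298 c11580 c9666 (k8 c5212 c8151 c5341 c11581 c11582 c11583 c5680 c1144 (k8 c1660 c8466 c318 c948 c3588 c2872 c2938 c8187 k0)))))))) (by decide +kernel)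
def c11585 : PP 9 3 T 0x400000000028000001080000000000000000000008000200000000000080000000000000000004000000000000000000000000000000000000000000 := rS 0x1a23a3d83f38836202cb2041a824ae773a8740e3736fb59a33 (k8 c5316 c2071 c5498 c5529 c5435 c5432 c5486 c5440 (k8 c5356 c5353 c5438 c5324 c11579 c313 c717 c10693 (k4 c1971 c11584 c5369 c5372 (k2 c6200 c1706 (k1 c6899 k0))))) (by decide +kernel)
def c11586 : PP 9 3 T 0x800000000008000000080000000000000000000008000200000000000001000000000000000000000000000000000000000000000000000000000000 := rS 0x6401815245864b146a1b18824ae773aa5c3a950c8cc0e17 (k8 c5433 c5432 c5316 c5315 c5488 c5486 c5404 c5440 (k8 c5356 c5353 c5438 c5476 c5475 c5324 c5451 c5494 (k4 c10693 c3577 c9442 c261 (k2 c11541 c5642 (k1 c1056 k0))))) (by decide +kernel)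
def c11587 : PP 9 3 T 0x1000000000000028000011080000000000000000000008000200000000000000000000000000000004000000000000000000000000000000000000000010 := rS 0x321a0c5f0a68ca006780cd6cd1ab1cf2630c8e42e3788a7442990f3dfbe872d9ec0e830503c1b4b79875fa230daa5e2f5 (k8 c5477 c9695 c5489 c5475 c5409 c5405 c5486 c5325 (k8 c10456 c11574 c9739 c5645 c2309 c5432 c690 c5474 (k8 c8435 c11586 c11585 c7262 c5530 c5528 c5412 c5411 (k8 c5435 c5433 c5317 c5315 c5355 c5441 c5357 c5324 (k8 c8541 c11575 c1111 c11576 c5642 c1056 c10500 c5536 (k4 c10805 c5688 c11541 c2133 k0)))))) (by decide +kernel)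
def c11588 : PP 9 3 T 0x8000000000000000000000000000000000000000100000000000000000000000004000000005400001000000000000000000084001002 := rS 0x65359a5fa1d (k4 c5486 c5405 c5403 c1059 (k2 c1056 c10497 k0)) (by decide +kernel)
def c11589 : PP 9 3 T 0x40000200080000000000000000040000000200001000014010000000000200000000000000005000000000000000000000000480000808 := rS 0x65b79a6e3452d08ce181a4450491289eb28f449bc271346a0412c73e9e4fe571f8dc7a7b03a0c966a (k8 c1111 c4724 c2309 c5432 c690 c5436 c5435 c5318 (k8 c5353 c5358 c5441 c5442 c5357 c5438 c5380 c5381 (k8 c5382 c5564 c5565 c5567 c5568 c9764 c267 c1113 (k8 c10038 c5651 c695 c7820 c6188 c1312 c1311 c3613 (k4 c2347 c2938 c3610 c1325 (k1 c2515 k0)))))) (by decide +kernel)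
def c11590 : PP 9 3 T 0x8000101080000000000000000000008000200100000000000000000400000000000000000100000040000000000000000001000050008 := rS 0x227de8b582004ef121914367d3f95d5aaf0e8fc0e3d149041215 (k8 c11531 c5438 c8151 c8199 c5436 c5432 c5318 c5486 (k8 c5406 c5490 c5353 c5358 c5442 c5475 c5326 c5478 (k8 c9695 c267 c3569 c3582 c857 c5506 c1982 c5673 k0))) (by decide +kernel)
def c11591 : PP 9 3 T 0x48000111080000000000000000000008000200000000014040000000400000000400000001100400041000000004000000000000000008 := rS 0x581b84e71f9922068b093c486457986deaad57874521112c748f58 (k8 c5212 c5562 c5341 c9666 c9667 c8199 c5486 c5406 (k8 c5490 c5477 c5475 c5325 c5326 c5478 c9695 c11590 (k8 c2976 c10681 c3593 c5588 c10427 c268 c5666 c3582 (k1 c1147 k0)))) (by decide +kernel)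
def c11592 : PP 9 3 T 0x48000111080000000000000000000008000200000000014040000000400020000400000001000400041000000004000000000000000008 := rS 0x4f201a68cf1a84ee3f6424c329778a546a1d1985c363114894820908c76b015 (k8 c11531 c5212 c5341 c9667 c5438 c8151 c9666 c8199 (k8 c5476 c5475 c5433 c5316 c5486 c5324 c5488 c9695 (k8 c5404 c5315 c261 c3577 c5318 c5356 c11581 c11583 (k4 c11591 c2083 c947 c10123 (k1 c1604 k0))))) (by decide +kernel)
def c11593 : PP 9 3 T 0x48000111080000000000000000000008000200000000014040000000000020000400000001000400041000000004000000000000000008 := rS 0x6f38b2d148069b595ec849824329778a546a1d1985c3631 (k8 c5476 c5475 c5433 c5316 c5486 c5324 c5488 c9695 (k8 c5404 c5315 c5438 c261 c3577 c5406 c11592 c205 (k4 c1765 c1766 c1325 c752 (k2 c2978 c5666 k0)))) (by decide +kernel)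
def c11594 : PP 9 3 T 0x28000011080000000000000000000008000200000000000000000000000000000004000000000000000000000000000000000000000010 := rS 0x402282689f7b591a5862c752241ac047424b641a9260239805fe8580fb1060a228d462093e9fcae773aa5d2a19198fc0e171ec462a6d59edd6e1e7bf7d0e0f2dd2de61d7ebd4461b54bc41a15 (k8 c11531 c11574 c9695 c5489 c5475 c5409 c5477 c5405 (k8 c5486 c5325 c10456 c5474 c9739 c8435 c11586 c11585 (k8 c7262 c5533 c8057 c5532 c5529 c5414 c5411 c5436 (k8 c5433 c5432 c5318 c5316 c5315 c5488 c5404 c5440 (k8 c5356 c5353 c5358 c5442 c5438 c5476 c5324 c5326 (k8 c5645 c2309 c11587 c5502 c5541 c5544 c11588 c9719 (k8 c5642 c261 c1111 c3577 c4724 c11589 c9667 c5212 (k8 c8151 c694 c5341 c11593 c10693 c2169 c11591 c5507 (k4 c4411 c8818 c5673 c3569 (k1 c856 k0)))))))))) (by decide +kernel)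
def c11595 : PP 9 3 T 0x28000001080000000000000000000008000200000000000000000000000000000004000000000000000000000000000000000000000010 := rS 0xc8683159bed42784ca006780d066b3de710e0f1a96d8e773a9a52e191c81c2e3706c44da99a5bcc3afd7a88c36a90f3dfbef1 (k8 c9695 c11586 c11585 c7262 c5489 c5475 c5409 c5477 (k8 c5405 c5486 c5325 c10456 c5530 c5529 c5411 c11574 (k8 c5435 c5433 c5432 c5317 c5315 c5404 c5403 c5440 (k8 c5356 c5357 c5474 c5324 c9739 c8435 c11594 c5372 (k8 c5523 c5525 c1111 c11576 c5642 c1056 c10637 c11588 (k4 c5541 c2502 c10805 c5688 (k2 c11541 c2133 k0))))))) (by decide +kernel)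
def c11596 : PP 9 3 T 0x400000000000000200080000000000000000000008000200000000000000000000000000000000000000000000000000010000000000000000010000 := rS 0x69fbd151d6a903c6d709a04ba353e9fc7e3d621d41257039dc6615 (k8 c11531 c5316 c5356 c5432 c5353 c5438 c5440 c10693 (k8 c5436 c5318 c5358 c5442 c5324 c5321 c5380 c5564 (k8 c1765 c10343 c3569 c1656 c5778 c10689 c5583 c2938 (k1 c5689 k0)))) (by decide +kernel)
def c11597 : PP 9 3 T 0x48000001080000000000000000000008000200000000000000000000400000000000000000000000000000000000000000000000010020 := rS 0x114896923426706a9bd94a1f190c8a5d2d97cfead1f8f762310da5c3235149cd88752b81cee3312904129f8ed6342590ef7de215 (k8 c11531 c9695 c11586 c5486 c313 c11596 c5212 c5341 (k8 c11582 c5438 c8151 c9666 c5316 c5356 c5432 c5353 (k8 c5440 c10693 c9718 c9692 c5324 c5315 c5404 c5475 (k8 c5476 c9240 c5436 c5318 c5490 c5358 c5439 c5474 (k8 c5321 c5326 c5478 c11583 c11581 c5680 c1144 c1660 (k4 c8466 c318 c948 c3588 (k2 c2872 c8187 (k1 c2938 k0)))))))) (by decide +kernel)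
def c11598 : PP 9 3 T 0x1000400000000000000111000000000000000000000008000000000000000040000000814000000000000000000000000000000000000144000000000000 := rS 0x3b66c0fe435798c5ebef (k8 c5507 c5477 c5476 c5325 c5324 c5191 c5550 c2191 (k2 c6899 c3587 k0)) (by decide +kernel)
def c11599 : PP 9 3 T 0x48000001080000000000000000000008000200000000000000000000000000000000000000000000000000000000000000000000010020 := rS 0x9364b29427037a2900d620e846a1b189fd5e974a8642fdf789cd88590e9d41257039dc6615 (k8 c11531 c5316 c5356 c5432 c5353 c5438 c5440 c5486 (k8 c313 c10693 c9718 c9695 c11586 c5433 c5315 c5488 (k8 c5404 c5406 c5358 c5476 c5475 c5324 c11596 c8151 (k8 c11597 c1765 c1766 c2978 c5666 c2929 c752 c2190 (k2 c1753 c3577 k0))))) (by decide +kernel)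
def c11600 : PP 9 3 T 0x28000001080000000000000000000008000200000000000000000000000000000004000000000000000000000000000000000000000000 := rS 0xcc4234474833dfb7388707841880b2c811efb7a5adcda232e8d5e65b0dbd412c72b9dceafd0eaa466071b837bef1 (k8 c9695 c11586 c11574 c5435 c5432 c5316 c5489 c5486 (k8 c5405 c5440 c5356 c5353 c5357 c5438 c5477 c5475 (k8 c5474 c5325 c5324 c5321 c5409 c5529 c5533 c10456 (k8 c8057 c11585 c11595 c313 c717 c10693 c11599 c10107 (k8 c8435 c6008 c10404 c5372 c5525 c6200 c1706 c3571 (k2 c6899 c2502 k0)))))) (by decide +kernel)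
def c11601 : PP 9 3 T 0x18000010080000000000000000000008000200000000000001000000000000000004000000000000000000000000000000000000001010 := rS 0x1909c4c984009b01f84407a05bdc761fa508de6f56395dfaa9198e40e37d88c43a1b4b8646a0f (k8 c9737 c5324 c5315 c5404 c5475 c5486 c5476 c9240 (k8 c5435 c5432 c5317 c5316 c5489 c5405 c5353 c5357 (k8 c5477 c5325 c9733 c5211 c9664 c5332 c5333 c5516 (k8 c10699 c3581 c5457 c265 c2490 c5642 c661 c1593 (k2 c5679 c6455 (k1 c1275 k0)))))) (by decide +kernel)
def c11602 : PP 9 3 T 0x8000000080000000000000000000008000200000000000081000000000000000004000000000004000000000000000800000000000010 := rS 0x2033224992c56833fc2350d8c412970ea543217effb59a33 (k8 c5316 c2071 c5498 c11586 c5433 c5315 c5488 c5486 (k8 c5404 c5438 c5476 c5475 c5324 c5456 c1646 c6899 (k4 c10805 c2133 c3577 c11541 (k2 c261 c1056 (k1 c5642 k0))))) (by decide +kernel)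
def c11603 : PP 9 3 T 0x8000020000000000000000000000000000000000000000000000000000000000004000000001000000000000000000000000104000002 := rS 0xca6d34bf4cea988a1cd683 (k8 c5525 c5523 c5373 c5371 c5489 c5487 c5405 c5403 (k2 c666 c1056 (k1 c3601 k0))) (by decide +kernel)
def c11604 : PP 9 3 T 0x400000000019000220080000000000000000040008000200000000000080000000010000000000000000000000000000000000000000000000000008 := rS 0x99f0b79c2e350fc8509bdb8944e1f499e52e190b9ed226b47fb59a3340c4c266fac95c12071f9f4fe3d (k8 c5436 c5358 c5442 c5318 c5432 c5438 c5353 c9764 (k8 c5565 c5564 c5382 c5380 c5316 c2071 c5498 c5526 (k8 c5523 c5374 c5372 c5433 c5315 c5404 c5441 c261 (k8 c1111 c267 c1113 c7843 c7393 c5651 c5231 c1195 (k4 c5549 c5591 c5846 c5538 (k2 c2443 c11160 k0)))))) (by decide +kernel)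
def c11605 : PP 9 3 T 0x1000400000000008000021080000000000000000040000000000000000000000000000011000000000000000000000000000000000000040000100401042 := rS 0xcff0a69329d3688d8e79319dcea694bbf6227b (k8 c5372 c5371 c5405 c5404 c5403 c5440 c5356 c5355 (k8 c5441 c5357 c9731 c666 c5855 c7114 c10500 c10637 (k2 c2562 c5688 k0))) (by decide +kernel)
def c11606 : PP 9 3 T 0x1005400000000051000100080000000000000000000000000000000000000000000000011000000000010440000000000000000004004540000000000000 := rS 0x1c24971b7fe4980891eb015 (k8 c11531 c5212 c5562 c9667 c11160 c5198 c2443 c5549 (k2 c5588 c5591 (k1 c10446 k0))) (by decide +kernel)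
def c11607 : PP 9 3 T 0x4000000000041000120080000000000000000000000000000000000000000000140000000000000010100000100041002000000000000000000000000 := rS 0x1c2246f71a79967d3c9ed228f (k8 c5526 c5374 c5372 c5441 c5442 c1755 c5680 c1607 (k4 c2815 c5846 c5666 c755 k0)) (by decide +kernel)
def c11608 : PP 9 3 T 0x2000000000040000120080000000000000000000000000000000000000000000000000000001000008000000000040000000000000000000000000000 := rS 0x38449026f719f4f27b48a3dc2df (k8 c5538 c5460 c5526 c5374 c5372 c5441 c5442 c1608 (k4 c2815 c1604 c5846 c5666 (k1 c756 k0))) (by decide +kernel)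
def c11609 : PP 9 3 T 0x40000100000000000000000000000000000000000000000000000000800220000040000000000040040000000000000000000000000000 := rS 0x389bd408a (k4 c1766 c2190 c2978 c2929 (k1 c5666 k0)) (by decide +kernel)
def c11610 : PP 9 3 T 0x18000021080000000000000000040008000200000000000080000000000020000000000000000000000000000000000400000000000010 := rS 0x25ef44a356070693293fe050f8daf1d5a904975812844529b116dd91a10fa4c047300b448a5f049fceead57a54723f0385c6fb11886d2e191a837bef13d9afdacd198843a15 (k8 c11531 c5486 c342 c5316 c2071 c5498 c5523 c5372 (k8 c9695 c11586 c11574 c5324 c5315 c5404 c5475 c5476 (k8 c9240 c5435 c5433 c5432 c5318 c5317 c5488 c5406 (k8 c5490 c5356 c5358 c5438 c5439 c5326 c1706 c11605 (k8 c9719 c5642 c261 c1111 c11604 c3577 c7843 c8123 (k8 c7393 c8199 c9667 c9666 c5212 c8142 c8151 c1339 (k8 c5341 c11609 c11583 c11581 c11606 c11608 c5680 c10123 (k4 c8466 c1324 c2083 c2872 (k2 c5506 c11590 (k1 c8818 k0)))))))))) (by decide +kernel)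
def c11611 : PP 9 3 T 0x8000001080000000000000000040008000200000000000080000000000000000004000000000000000000000000000000000000000012 := rS 0x64340ca1b0385c6fdff6b3466210eb14767bce035e3b5 (k8 c11600 c9695 c11574 c11601 c5372 c11602 c11610 c5486 (k8 c342 c5316 c2071 c5498 c11586 c5435 c5433 c5432 (k4 c5475 c1056 c11605 c11541 (k1 c2133 k0)))) (by decide +kernel)
def c11612 : PP 9 3 T 0x8000000000000000101000000000000000000000008000200100000000000000000400010000000000000040000000000020000000000000000010100 := rS 0x44fbda8d3198fc7a8d (k8 c2169 c5436 c5318 c5316 c5579 c6627 c8619 c2838 (k1 c5673 k0)) (by decide +kernel)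
def c11613 : PP 9 3 T 0x1000000000000008000121080000000000000000000008000200000000040000000000401010001004000400000000040000000000000400000000000008 := rS 0x101f7a25feb038349949f6ff83c68b092848a5f568e47e37d8f7f6a8748a0d1ed1640652ef14a8d43a1b188a44a4b068451b1dac6dd26172c1d41257039dc6615 (k8 c11531 c5316 c5356 c5432 c5353 c5438 c5440 c10693 (k8 c5433 c261 c7843 c5212 c5341 c2169 c9667 c11574 (k8 c8142 c9666 c8199 c5476 c5475 c5486 c5324 c5488 (k8 c9695 c5404 c5315 c3577 c2133 c5526 c5525 c5374 (k8 c5373 c11600 c11586 c9240 c5435 c5318 c5317 c5490 (k8 c5439 c5326 c11581 c11590 c2976 c11612 c11606 c5538 (k8 c11608 c5680 c10123 c8466 c1324 c2942 c2872 c5506 (k2 c2143 c10832 k0)))))))) (by decide +kernel)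
def c11614 : PP 9 3 T 0x8000001080000000000000000040008000200000000000080000000000000000004000000000000000000000000000000000000000010 := rS 0x1008a09a27ded646c0e3ab520d602229d09cda29b116dd901f498080258628ed9bed22824fa7f2b9dcea95198fc0e171eec4621d0da5c3235ef9ecd79cda835e215 (k8 c11531 c9695 c11574 c11600 c11601 c5523 c5372 c11586 (k8 c5324 c5315 c5404 c5475 c5486 c5476 c9240 c5436 (k8 c5433 c5432 c5318 c5316 c5488 c5440 c5356 c5353 (k8 c5358 c5442 c5438 c5326 c5498 c2071 c11602 c11610 (k8 c10693 c11611 c5642 c261 c1111 c3577 c7843 c8123 (k8 c7393 c2133 c9719 c11604 c8199 c9667 c5212 c8151 (k8 c1339 c5341 c2195 c2169 c11613 c5507 c1983 c8818 (k2 c5673 c3569 (k1 c856 k0))))))))) (by decide +kernel)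
def c11615 : PP 9 3 T 0x19000000000000000000000000000000000000000000000000000080408000000000000000110040044010000000000000000000000000 := rS 0x2c4e2a045a61a49b4eab55e694bbf4cfe1 (k8 c5538 c5487 c5405 c5404 c5403 c5406 c5490 c1650 (k8 c2562 c2565 c5679 c2938 c2443 c2929 c1198 c3602 k0)) (by decide +kernel)
def c11616 : PP 9 3 T 0x1000400000000059000020080000000000000100040008000000000400000040000000000020000004000000110100044001000000000104000000400002 := rS 0x1ff1d23b544aca50a7d389b3608132856633fc2de80b862a4981b8c97e3f910c8af37ab1cfa793f9a52efd33aa6227b43a44d68347b5cca1b (k8 c5475 c1056 c1765 c5526 c5525 c5523 c5374 c5373 (k8 c5372 c5371 c5489 c5487 c5405 c5404 c5403 c5358 (k8 c5441 c5442 c5357 c5477 c5325 c5326 c5478 c5231 (k8 c9025 c5546 c5549 c5550 c5588 c5590 c5591 c5592 (k8 c5846 c5538 c11615 c10805 c2502 c2440 c11603 c3601 (k8 c2490 c11103 c2885 c1277 c5680 c1090 c1660 c2423 (k2 c5778 c2507 (k1 c3593 k0)))))))) (by decide +kernel)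
def c11617 : PP 9 3 T 0x1000400000000019000020080000000000000100040008000000000400000040000000000020000004000000110100044000000000000104000000400042 := rS 0xd5f1c7140b165a7ce3b6308a4be7d3f98d5ed7 (k8 c1765 c5406 c5355 c5358 c5442 c5439 c9693 c661 (k8 c11616 c5571 c5572 c5420 c5421 c3599 c8393 c5578 (k2 c3000 c5778 k0))) (by decide +kernel)
def c11618 : PP 9 3 T 0x1000000000000018000220080000000000000000040008000200000000000041000000000020000004000000000000000000000000000000000000000010 := rS 0x133e16f385c6a1f9274509bdbb204a270fa4c0401aca24de1389a350273049f4f27f2ba5466391f81c2e3dd88c43a1b4b8646bdf3da44d68f (k8 c5526 c5523 c5374 c5372 c11586 c5324 c5315 c5404 (k8 c5475 c5486 c5476 c9240 c5436 c5433 c5432 c5318 (k8 c5317 c5316 c5488 c5353 c5358 c5441 c5442 c5438 (k8 c5379 c5380 c5381 c5382 c5564 c5565 c5567 c9764 (k8 c11617 c5642 c261 c1111 c267 c1113 c3577 c7843 (k8 c7393 c5651 c1275 c5231 c1195 c5549 c5591 c5846 (k2 c5538 c2443 (k1 c5679 k0)))))))) (by decide +kernel)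
def c11619 : PP 9 3 T 0x1004000000000048000121080000000000000000040008000200000000000040000000411000000004000000000000000000000000000000000000000002 := rS 0xfe7140e02df70acbc06c4d92414201d90c8af37ab1caea91c8fc0e171bec4621d0da5c3235efbc41fb53d92c1b1d23d622b11509c8de2538844c615 (k8 c11531 c5355 c9667 c667 c9666 c1060 c5666 c1196 (k8 c5371 c1290 c5212 c5562 c5341 c11574 c8142 c5372 (k8 c11600 c9737 c9695 c11586 c5324 c5315 c5404 c5475 (k8 c5486 c5476 c9240 c5435 c5433 c5432 c5318 c5317 (k8 c5489 c5353 c5357 c5477 c5325 c5326 c5478 c6899 (k8 c11605 c10699 c345 c2490 c2416 c11606 c934 c5460 (k4 c5538 c2901 c2460 c10446 (k2 c3593 c2575 k0)))))))) (by decide +kernel)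
def c11620 : PP 9 3 T 0x1000000000000048000121080000000000000000040008000200000000000040000000000020000004000000000000000000000000000000000000000002 := rS 0x899b3e485f0b33c6d7459ca3a6f209c6b025088258e697e99d53b1188752e191abc76b11439ad06d13d9943615 (k8 c11531 c5475 c1056 c5372 c1706 c5525 c5523 c5373 (k8 c5371 c11600 c9695 c5324 c5315 c5404 c5486 c5476 (k8 c9240 c5489 c5487 c5405 c5403 c5357 c5438 c9667 (k8 c9666 c5212 c667 c8151 c1060 c5341 c5666 c855 (k8 c1766 c11583 c11619 c5537 c2502 c5198 c3601 c5547 (k1 c933 k0)))))) (by decide +kernel)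
def c11621 : PP 9 3 T 0x1000400000000019000021080001500000000000040000000000000000000400012000011000000000000000000000000010000000000140000000401042 := rS 0x2ef875229df2986c26d9c20bc9a52f8333e44c3e1 (k8 c5539 c661 c5491 c5487 c5407 c5404 c5403 c5359 (k8 c11605 c5688 c2490 c2567 c11160 c3336 c1810 c2445 (k2 c2096 c3328 (k1 c3603 k0)))) (by decide +kernel)
def c11622 : PP 9 3 T 0x1000000000000008000121080000000000000000040008000200000000000040000000000020000004000000000000000000000000000000000000000002 := rS 0x82dbc9adb16299469b0fa94409942b31c9e573ba5f77fd4df717f4d26061307279477292b3adb6c65118bde7477aebd8ea9c88e40e171bec4621d0da5c323506f7de3b5bde25a27b (k8 c5372 c1706 c5527 c5375 c11600 c9695 c11586 c11574 (k8 c5324 c5315 c5404 c5475 c5486 c5476 c9240 c5435 (k8 c5433 c5432 c5317 c5491 c5489 c5357 c5479 c5477 (k8 c5327 c5325 c9707 c9731 c1056 c11620 c8057 c7805 (k8 c7843 c5616 c2464 c3298 c3302 c2468 c3238 c5213 (k8 c5232 c5390 c5387 c5388 c5389 c5609 c5555 c5633 (k8 c8870 c9462 c11621 c2502 c2440 c11603 c3331 c58 (k8 c2490 c3290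 c5681 c1807 c4231 c3272 c360 c2509 (k1 c3594 k0))))))))) (by decide +kernel)
def c11623 : PP 9 3 T 0x4000000000041000101080000000000000000000000000000000000000000000000000200000010014000000000040000000000000000000000000000 := rS 0x7bd128d45ac0e0d26517cfe77 (k8 c5356 c5358 c5439 c5680 c10123 c8466 c1324 c2938 (k4 c2083 c2872 c5506 c5673 k0)) (by decide +kernel)
def c11624 : PP 9 3 T 0x1000000000000008000001080000000000000000040008000200000000000000000000000020000004000000000000000000000000000000000000000010 := rS 0x2251ad4f784902d34f287c71d20d604a116bedd9093011cc0229d090c8a093e9fcaead57a54663f0385c7bb11887436970c8d739b506bc5ee15 (k8 c11531 c11614 c9695 c11574 c11600 c11601 c5324 c5315 (k8 c5404 c5475 c5486 c5476 c9240 c5436 c5433 c5432 (k8 c5318 c5316 c5488 c5406 c5490 c5353 c5358 c5442 (k8 c5438 c5326 c5478 c11618 c8199 c11622 c9719 c5642 (k8 c261 c3577 c7843 c11609 c9667 c9666 c5212 c8151 (k8 c5341 c11583 c11581 c11623 c2882 c1604 c10691 c6923 (k4 c3588 c947 c2837 c8818 k0))))))) (by decide +kernel)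
def c11625 : PP 9 3 T 0x19000200000000000000000000000000000000000000000000000480008000000000000000000040000010000000000000000000000000 := rS 0xd739a34de89 (k4 c5567 c5565 c5381 c5379 (k2 c1769 c11615 k0)) (by decide +kernel)
def c11626 : PP 9 3 T 0x81000400000000019000220080000000000000000000000000000000000000000000000010000000004001000000000000011000000000000000000000000 := rS 0xd89942b319fe16f385c6c73e9e4fe697e99d53113da1d226b41a3d0313 (k8 c5382 c5380 c5526 c5525 c5523 c5374 c5373 c5372 (k8 c5371 c5489 c5487 c5405 c5403 c5358 c5441 c5442 (k8 c5357 c5549 c5591 c3610 c5538 c11625 c5688 c2502 (k2 c2440 c3601 (k1 c11103 k0))))) (by decide +kernel)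
def c11627 : PP 9 3 T 0x1000400000000019000220080000000000000000040008000000000000000000000000000200000004000000000000000011000000005004010000000040 := rS 0x6af8daf1c502c5969f38edbe75937a04e65f049f4fe5731abd3ad1 (k8 c2133 c1275 c5406 c5355 c5353 c5358 c5442 c5438 (k8 c5439 c5379 c5380 c5565 c9764 c11626 c5231 c5571 (k8 c5572 c5420 c5421 c3599 c8393 c2189 c5578 c3000 (k1 c5778 k0)))) (by decide +kernel)
def c11628 : PP 9 3 T 0x9000020000000000000000000000000000000000000000000000000002040000004001000000000000011000000000000000000000000 := rS 0x362650be134bf4cea988a1cd683 (k8 c5525 c5523 c5373 c5371 c5489 c5487 c5405 c5403 (k4 c5537 c2502 c2440 c3601 (k1 c11103 k0))) (by decide +kernel)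
def c11629 : PP 9 3 T 0x1000000000000048000021080000000000000000040008000200000000000040000000000210000004000000000000000000000000000000000000000002 := rS 0xf1b5d428b39474de71ac094226334960ea092b9dda3a114ed7be3d1f8cd9a9d3081ccbb11887436970c8d5e2c7 (k8 c5357 c9695 c5324 c5315 c5404 c5475 c5486 c5476 (k8 c9240 c1056 c5432 c661 c1275 c11628 c5316 c5318 (k8 c5436 c11586 c11600 c9693 c11627 c2133 c5356 c5353 (k8 c5438 c5440 c10693 c5403 c5355 c9667 c9666 c5212 (k8 c667 c1060 c5341 c5666 c855 c1196 c2190 c11612 (k1 c11619 k0)))))) (by decide +kernel)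
def c11630 : PP 9 3 T 0x1000000000000008000001080000000000000000040008000200000000000000000000000000000004000000000000000000000000000000000000000012 := rS 0x1c8e97ddff537dc5fd348e7c0ee6ceb6db335a29d64184cac71c81c2e37d88c43a1b4b8646bdf3de2739b506bc5eec5 (k8 c11624 c11614 c9695 c11574 c11600 c11601 c5527 c5372 (k8 c11586 c5324 c5315 c5404 c5475 c5486 c5476 c9240 (k8 c5435 c5433 c5432 c5317 c5357 c1056 c661 c11541 (k8 c1275 c2133 c11628 c11629 c8057 c7805 c5616 c3238 (k8 c3301 c5213 c5232 c5390 c5387 c5388 c5389 c5609 (k2 c5555 c9462 (k1 c11621 k0))))))) (by decide +kernel)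
def c11631 : PP 9 3 T 0x51000220080000000000000000040000000000000000000000000000000000000000001400000000000000000000005000000001000048 := rS 0x133e16f285c2e3147c84a27ac9bc271340824fa7f2b9ed228f (k8 c5526 c5374 c5372 c5353 c5358 c5442 c5438 c5380 (k8 c5382 c5564 c5565 c9764 c267 c1113 c5231 c5651 (k4 c5549 c5591 c1195 c5972 (k2 c5538 c2443 (k1 c5679 k0))))) (by decide +kernel)
def c11632 : PP 9 3 T 0x1000000000000008000121080000000000000000000008000200000000000000000000401010001004000400000000040000000000000000000000000008 := rS 0x45c082445418444a8d8ed636e583a95c0e771db459093048652e950e8cc2e1b18f7de235 (k8 c5324 c9695 c11586 c5476 c5475 c5433 c5316 c5486 (k8 c5488 c5404 c5315 c5438 c261 c3577 c2133 c6899 (k8 c5356 c5432 c5353 c5440 c10693 c7843 c5212 c5341 (k8 c2169 c9666 c9667 c5525 c5326 c11590 c11613 c2976 (k1 c10681 k0))))) (by decide +kernel)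
def c11633 : PP 9 3 T 0x101080000000000000000000000000200000000000000000000800010000000000000100000000000000000100000000000010000 := rS 0x204268a44fbcfa7f2b9d47e071e9041215 (k8 c11531 c5438 c8151 c5436 c5432 c5318 c5440 c5353 (k8 c5358 c5442 c5507 c1983 c5673 c8818 c856 c3569 k0)) (by decide +kernel)
def c11634 : PP 9 3 T 0x1000000000000008000001080000000000000000040008000200000000000000000000000000000004000000000000000000000000000000000000000010 := rS 0x267c2cc6ba363ab5ac04453a14ea6c45b76407d260239804b0c522824ae773aa5552331f81c2e3dd88c43a1b4b8646a6bce6d41af1 (k8 c9695 c11574 c11600 c11601 c5523 c5324 c5315 c5404 (k8 c5475 c5486 c5476 c9240 c5436 c5433 c5432 c5318 (k8 c5316 c5489 c5488 c5440 c5356 c5353 c5438 c5326 (k8 c11624 c10693 c11630 c9719 c5642 c261 c1111 c3577 (k8 c7843 c6197 c7393 c1275 c11631 c8199 c9667 c5212 (k8 c1339 c5341 c2169 c11633 c11632 c5537 c2440 c5679 k0)))))) (by decide +kernel)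
def c11635 : PP 9 3 T 0x400000000050000020080000000000000100040000000000000400014000000000400000000000000000111100000000000000000000000000000000 := rS 0xd36aa29bce181b8fc7f23e9fcf7ef48a3d0e83 (k8 c5525 c5373 c5526 c5374 c8783 c5372 c5358 c5442 (k8 c5231 c9025 c5549 c5550 c5591 c5972 c3613 c3002 (k2 c2938 c5689 k0))) (by decide +kernel)
def c11636 : PP 9 3 T 0x400000000018000220080000000000000000040008000000000000014000000000000020000000000000001000000000000000005004000000000042 := rS 0x1abe38e28162cb4f9c76cd7aca24df1346a04e65f049f4fe5731abc5261 (k8 c661 c9693 c5406 c5355 c5353 c5358 c5442 c5438 (k8 c5439 c5379 c5380 c5381 c5382 c5565 c5567 c9764 (k8 c1765 c11635 c5571 c5572 c5420 c5421 c3599 c8393 (k2 c5578 c3000 (k1 c5778 k0))))) (by decide +kernel)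
def c11637 : PP 9 3 T 0x40000100080000000000000000000008000200000100014040000000000000000001000000000000002000000000000000000200001002 := rS 0x2064959454e51d239bc975812844864579bd4fe15 (k8 c11531 c5358 c5477 c5325 c5326 c5478 c9667 c9666 (k8 c5212 c8142 c1060 c2423 c5341 c9806 c1290 c934 (k2 c345 c2460 (k1 c3593 k0)))) (by decide +kernel)
def c11638 : PP 9 3 T 0x2000400000000018000020080000000000000000040008000200000000000040000000000020000000000000000000002000000000000000000200001002 := rS 0xdb6cfc5c8dd7c795cee97ddff538bfa69213b9b3adb6da1bcaa4663f038f6227bbda0f130183a15ff05 (k8 c5545 c5544 c5541 c5503 c5502 c5527 c5525 c5375 (k8 c5372 c5371 c5436 c5432 c5318 c5316 c5489 c5359 (k8 c11636 c11637 c8057 c7805 c5616 c2468 c5213 c5232 (k8 c5390 c5388 c5389 c5609 c5555 c5633 c8870 c5274 (k4 c1815 c9462 c5625 c3336 (k2 c3382 c5690 k0)))))) (by decide +kernel)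
def c11639 : PP 9 3 T 0x2000000000000018000000080000000000000000040008000200000000000041000000000000000004000000000000000000000000000000000000001012 := rS 0x138c866314d820309958e793b9d4d2fd33aa40fb11887436970c8d7bf113da1cd683ce3450acf (k8 c5543 c5541 c5501 c11601 c5525 c5523 c5373 c5372 (k8 c5371 c11586 c5324 c5315 c5404 c5475 c5486 c5476 (k8 c9240 c5432 c5489 c5487 c5405 c5403 c5440 c5356 (k8 c5441 c5357 c1056 c661 c11603 c3601 c11638 c3607 (k2 c11541 c11628 (k1 c1275 k0)))))) (by decide +kernel)
def c11640 : PP 9 3 T 0x8000001080000000000000000040008000200000000000000000000000000000004000000000000000000000000000000000000000010 := rS 0x668ed309d4db203e9301007c2cf68fb1eef37a8252aa9198e42e37d88c43a1b4b8646a6bce6d41af1 (k8 c9695 c11574 c11600 c11601 c5523 c5324 c5315 c5404 (k8 c5475 c5486 c5476 c9240 c5435 c5433 c5317 c5316 (k8 c5489 c5488 c5438 c5477 c5325 c11614 c11634 c5501 (k8 c5543 c6290 c11639 c5642 c261 c1111 c3577 c7393 (k4 c1275 c5679 c1591 c2440 (k1 c3587 k0)))))) (by decide +kernel)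
def c11641 : PP 9 3 T 0x8000001080000000000000000000008000200000000000000000000000000000004000000000000000000000000000000000000000010 := rS 0x163ba51ef38f16395c72071b8341fb5 (k8 c11600 c9737 c11574 c5435 c5432 c5317 c5353 c5357 (k4 c9695 c11601 c5372 c11640 (k2 c5332 c5516 (k1 c10699 k0)))) (by decide +kernel)
def c11642 : PP 9 3 T 0x18000010080000000000000000000008000200000000000001000000000000000004000000000000000000000000000000000000001020 := rS 0x3213899f0a6cf42005bdc761fa53cdea577eaa46639038df62310e86d2e191a83e2223 (k8 c9734 c9728 c9737 c5324 c5315 c5404 c5475 c5486 (k8 c5476 c9240 c5435 c5432 c5317 c5316 c5489 c5405 (k8 c5353 c5477 c5325 c6008 c9664 c5332 c5333 c5516 (k8 c3581 c11223 c2490 c5457 c1594 c5679 c6455 c1275 k0)))) (by decide +kernel)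
def c11643 : PP 9 3 T 0x400000000019000200080000000000000000040008000200000000000000000000000000000000000000000000000000000000000000000000000020 := rS 0x78d43b765a7ce02408564127d3f95c7e070b8f4b21d (k8 c5486 c313 c5436 c5433 c5432 c5318 c5353 c5358 (k8 c5442 c5438 c9764 c11596 c720 c719 c2756 c1090 (k4 c7601 c2929 c9025 c5680 k0))) (by decide +kernel)
def c11644 : PP 9 3 T 0x48000101080000000000000000000008000200000000000000000000000000000000000000000000000000000000000000000000000020 := rS 0x10 (k2 c11599 c9667 k0) (by decide +kernel)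
def c11645 : PP 9 3 T 0x8000101080000000000000000000008000200000000000000000000000000000000000000000000000000000000000000000000000020 := rS 0x2b11c09845622738ed85215 (k8 c11531 c9692 c11644 c5571 c5570 c5421 c719 c317 (k2 c8393 c5646 (k1 c5341 k0))) (by decide +kernel)
def c11646 : PP 9 3 T 0x8000001080000000000000000000008000200000000000000000000000000000004000000000000000000000000000000000000000000 := rS 0x2c774ad0670080fda8df62310e86d2e191a837bef1 (k8 c9695 c11586 c11574 c5324 c5315 c5404 c5475 c5486 (k8 c5476 c9240 c5435 c11600 c9737 c11641 c11642 c11645 (k4 c11643 c5332 c5516 c6200 k0))) (by decide +kernel)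
def c11647 : PP 9 3 T 0x400000000040000000080000000000000100040000000000000400000000000000004020000008004000110100000000000000000000000000000000 := rS 0x69a85fc9c6421598d763fb7c71580f85bce171fc8f68f48e736a7d (k8 c5442 c5413 c5211 c5374 c5526 c5372 c5231 c5549 (k8 c5591 c5972 c5538 c5592 c5590 c9025 c5500 c5357 (k8 c1765 c10805 c2502 c2075 c2076 c11635 c1277 c2943 (k1 c10123 k0)))) (by decide +kernel)
def c11648 : PP 9 3 T 0x48000200080000000000000000040008000200000000000001000000000000000008000000000000000010000000000000000000000010 := rS 0xd350bf938856bb31a2c862b3d8fb1188752e191af7fda8d44f8e2b01f0a7dbce171fcab2570481c7e7f1e9ed1e91ce44cfa814d87c37b5 (k8 c5413 c5475 c1084 c7393 c5380 c5442 c5382 c5211 (k8 c5374 c5526 c5372 c5436 c5358 c5318 c5432 c5438 (k8 c5353 c9764 c5231 c5549 c5591 c5972 c2885 c5538 (k8 c5592 c5590 c9025 c5567 c5381 c5500 c11586 c5324 (k8 c5315 c5404 c5486 c5476 c9240 c5357 c11625 c11647 (k8 c11541 c2134 c5688 c4538 c2502 c2076 c11635 c1277 (k2 c2943 c10123 k0))))))) (by decide +kernel)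
def c11649 : PP 9 3 T 0x48000200080000000000000000040008000200000000000001000000000000000008000000000000000000000000000000000000000010 := rS 0x7f3490ad750b319ec84e24c04013227dbd0170c55c7e3f931d2a330bec4621d4b8646bdf4d87c367b48a3f39b540a362689ac95c12071f9f4fe3d (k8 c5436 c5358 c5442 c5318 c5432 c5438 c5353 c9764 (k8 c5567 c5382 c5381 c5380 c5413 c5211 c5526 c5374 (k8 c5372 c5475 c1084 c7393 c11586 c5324 c5315 c5404 (k8 c5486 c5476 c9240 c5433 c5316 c5488 c5357 c5231 (k8 c9025 c5549 c5590 c5591 c5592 c5972 c2885 c11648 (k8 c1056 c5642 c261 c11631 c3577 c10444 c1276 c1277 (k4 c4538 c2502 c10123 c11635 (k1 c2943 k0)))))))) (by decide +kernel)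
def c11650 : PP 9 3 T 0x8000200080000000000000000040008000200000000000001000000000000000008000000000000000000000000000000000000000010 := rS 0x11c41f38c08f1725007d3484b80927de038bc6f73038e24aceb6588a57ab3db5671b2789bcc127d3f95c3a3f0385c7bed0f86d237b47e2739b5 (k8 c5413 c5211 c5527 c5526 c5375 c5374 c5475 c1084 (k8 c5500 c5436 c5433 c5432 c5318 c5486 c5353 c5358 (k8 c5442 c5438 c5325 c5382 c5383 c5569 c9764 c11649 (k8 c5574 c5575 c5417 c5421 c8057 c7805 c7843 c8393 (k8 c2199 c5616 c2469 c3303 c261 c5504 c514 c10477 (k8 c9182 c5213 c5232 c5642 c5391 c5390 c9731 c5275 (k4 c8076 c7110 c4635 c5660 k0))))))) (by decide +kernel)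
def c11651 : PP 9 3 T 0x1004400000000059000120080000000000000000000008000200000000040040000000411000000000000400000000080000000005000000000200000000 := rS 0x3fe02e25937dc26cf00287643228d5e6f556a5c723f1b8f41e41088263a47ac284c615 (k8 c11531 c5355 c1196 c5212 c5562 c5341 c5438 c9667 (k8 c8151 c9737 c5436 c5435 c5318 c5317 c5404 c5490 (k8 c5477 c5325 c5324 c5326 c5478 c6899 c6200 c11606 (k8 c2416 c5460 c5538 c934 c5985 c2900 c2575 c3593 k0)))) (by decide +kernel)
def c11652 : PP 9 3 T 0x48000121080000000000000000000008000200000000040040000000000020000000000400000000080000000001000000000200000000 := rS 0x6434dfc9f80b87e49c67f8599e36bb44864579bd762310e86d2e191af7de3b5f6aa8f64b0690422098e91eb08b34a84c615 (k8 c11531 c5355 c1196 c5403 c855 c5212 c5562 c5341 (k8 c5438 c9667 c8151 c11574 c8142 c5372 c11646 c5500 (k8 c5413 c9695 c11586 c5324 c5315 c5404 c5475 c5486 (k8 c5476 c9240 c5477 c5325 c5326 c5478 c1706 c1766 (k8 c11583 c11651 c5537 c139 c2076 c5198 c5591 c5592 (k4 c1700 c3593 c2943 c2075 (k1 c10123 k0))))))) (by decide +kernel)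
def c11653 : PP 9 3 T 0x48000001080000000000000000040008000200000000000000000000000000000000000000000000000000000000000000000000000012 := rS 0xd34fbfa02e189fc9388567f8599e36bb451ac82c314930350a2e2a72103dcde6511915e609639fcae633b9d55a691981f62310ea5c3235effb507114396c1e9b0f86d228fce6d44a4b088363b58d0aa9e215 (k8 c11531 c9695 c11646 c11650 c5212 c5341 c11574 c9667 (k8 c8142 c9666 c5413 c5211 c5526 c5374 c5475 c1084 (k8 c7393 c9737 c5474 c8435 c9727 c11573 c5500 c11586 (k8 c5324 c5315 c5404 c5486 c5476 c9240 c5432 c5316 (k8 c5403 c5490 c5440 c5356 c5355 c5353 c5358 c5357 (k8 c5438 c5325 c5326 c9731 c1056 c1060 c8123 c7110 (k8 c9806 c1290 c855 c1196 c2200 c345 c11652 c10693 (k8 c11541 c2169 c2134 c2190 c11612 c11651 c5537 c139 (k8 c2502 c2076 c5198 c5547 c5591 c5592 c5251 c1700 (k2 c2943 c10123 k0)))))))))) (by decide +kernel)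
def c11654 : PP 9 3 T 0x48000101080000000000000000000008000200000000000000000000000220000000000000000000040000000000000000000000000000 := rS 0x1108d6a7bc248169a7943e36b90c8a7d3f95d5aaf198fc0e3dd88c43a1b4b8646af114894821104c76b015 (k8 c11531 c5212 c5341 c5438 c9667 c8151 c9666 c8199 (k8 c9695 c5324 c5315 c5404 c5475 c5486 c5476 c9240 (k8 c5436 c5432 c5318 c5316 c5406 c5490 c5353 c5358 (k8 c5442 c5326 c5478 c11609 c11583 c11581 c11623 c2882 (k4 c1604 c10691 c6923 c3588 (k2 c947 c8818 (k1 c2837 k0))))))) (by decide +kernel)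
def c11655 : PP 9 3 T 0x48000001080000000000000000040008000200000000000000000000000000000000000000000000000000000000000000000000000010 := rS 0x44353ded34f78d16a10935d1a5862b212602398063a41ac094224322824ae773aab52a331f81c2e3dd88c43a1b4b8646a29d0aa9e215 (k8 c11531 c9695 c11646 c11650 c8199 c5324 c5315 c5404 (k8 c5475 c5486 c5476 c9240 c5436 c5433 c5432 c5318 (k8 c5316 c5488 c5490 c5440 c5356 c5353 c5438 c5326 (k8 c5478 c9667 c9666 c5212 c8151 c5341 c11653 c9719 (k8 c5642 c261 c3577 c11654 c10693 c2169 c11633 c11590 (k8 c11581 c2976 c11612 c11623 c2882 c6923 c3588 c5673 (k1 c2838 k0))))))) (by decide +kernel)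
def c11656 : PP 9 3 T 0x8000001080000000000000000040008000200000000000000000000000000000000000000000000000000000000000000000000000010 := rS 0x30f0bf87de4de371fc88e2011f95d38dc5c9401f4d212e0249acfbc07178dee6071c4959d6cb15eacf6c29d0e26f67bce3cc121d0bf7de3b5f687d541b (k8 c5475 c11646 c1084 c5500 c5413 c9695 c11586 c5433 (k8 c5486 c5438 c5325 c5211 c5372 c5375 c5527 c11650 (k8 c8199 c11655 c5574 c5575 c5421 c8057 c7805 c7843 (k8 c8393 c2199 c5616 c2469 c3303 c261 c5504 c5341 (k8 c514 c10477 c9182 c5213 c5232 c5642 c5391 c5390 (k8 c5611 c5555 c8870 c9731 c7110 c2422 c5660 c5549 (k4 c8118 c8076 c5637 c5206 (k2 c5629 c5512 (k1 c8093 k0))))))))) (by decide +kernel)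
def c11657 : PP 9 3 T 0x1000400000000019000011080000000000000000000000000000000000000000000000000000000000000000000408000000000000000000000004001042 := rS 0x198864ca6da28530996206b2f98cee7534a5ccfe1 (k8 c5457 c5487 c5404 c5403 c5440 c5356 c5355 c5439 (k8 c1059 c8158 c1056 c661 c845 c9572 c1187 c1593 (k2 c5672 c11160 (k1 c2073 k0)))) (by decide +kernel)
def c11658 : PP 9 3 T 0x1000010080000000000000000000008000200000100001040000000000000000008001000000008000000000000000000000000000000 := rS 0x4333cd49a36ed7c299 (k8 c1594 c5457 c5413 c743 c5679 c5665 c2562 c1138 (k1 c11562 k0)) (by decide +kernel)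
def c11659 : PP 9 3 T 0x8000001080000000000000000000008000200000000000000000000000000000000000000000000000000000000000000000000000010 := rS 0x21d98cf4e321260288804f59d05bdc774a0495dfa95198e40e171bec4621d4b8646a0defbc7da830d83f6aaa (k8 c11646 c5413 c9737 c5475 c11573 c5500 c9695 c11586 (k8 c11574 c5324 c5315 c5404 c5486 c5476 c9240 c5435 (k8 c5433 c5432 c5317 c5316 c5488 c5405 c5353 c5438 (k8 c11656 c5332 c5333 c5516 c6200 c11223 c11657 c9730 (k8 c5642 c261 c3577 c11658 c10444 c1276 c11562 c8541 k0))))) (by decide +kernel)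
def c11660 : PP 9 3 T 0x8000001080000000000000000000008000200000000000000000000000000000000000000000000000000000000000000000000000000 := rS 0x64a4d9a9c439eb3acf1d9c0494a083dc17a02c88e220407a0c3feddaaabbe0dd88dc2e071c8cc32f11a86c62574bbf43a95 (k8 c5488 c5486 c5405 c5404 c5353 c5476 c5475 c5324 (k8 c9695 c5315 c5316 c5317 c5432 c5433 c5435 c9240 (k8 c11574 c11586 c11646 c5413 c5500 c1084 c11573 c9737 (k8 c11659 c9728 c9734 c313 c11645 c718 c8123 c11596 (k8 c11643 c720 c719 c5332 c6082 c6200 c11223 c11562 (k4 c11658 c8541 c1694 c1276 (k1 c3577 k0))))))) (by decide +kernel)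
def c11661 : PP 9 3 T 0x11000000000000000000000008000000000000000000000000011000000000000000004001000000000000000544000000002000 := rS 0x33dee3518bd50af3 (k8 c5325 c2540 c5477 c5476 c5324 c292 c11551 c3587 k0) (by decide +kernel)
def c11662 : PP 9 3 T 0x2000000000041000200000000000000000100040000000100000000000080000000000000000050000000001001000140000001400000000004000002 := rS 0x22d6300121c49427f9a43c429329cd1a6f44a3cf6df (k8 c5538 c5457 c5568 c5567 c5565 c5381 c5379 c1056 (k8 c9693 c5226 c10517 c5589 c10074 c5660 c668 c5651 (k4 c565 c1092 c3069 c3602 k0))) (by decide +kernel)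
def c11663 : PP 9 3 T 0x4400000000008000200000000000000000000000000000000000000000000000000500000000000020000000040010010000000000000000000000000 := rS 0x69fbd14b156abcd26739a34de89 (k8 c5567 c5565 c5381 c5379 c5487 c5403 c5406 c5490 (k4 c1198 c3602 c5583 c2938 (k1 c5689 k0))) (by decide +kernel)
def c11664 : PP 9 3 T 0x200000400000000028000000000040000000000000000000000000000001000000005014000000040004440400000000000000000000000000000000000000 := rS 0x367cb04527c60ee97ee0d53914eae532b7 (k8 c5533 c5530 c5415 c5412 c5491 c5489 c5407 c5405 (k8 c5555 c5634 c5938 c3621 c3624 c5620 c3340 c5690 k0)) (by decide +kernel)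
def c11665 : PP 9 3 T 0x400000000228000010000000000000400000040000000000000001000000005004000200000004400400000000000000000000000000000080002000 := rS 0x1349f8990e93ea516eaef0ea3 (k8 c5614 c5429 c5430 c2231 c2649 c11664 c5222 c5606 (k4 c5610 c295 c2369 c5661 k0)) (by decide +kernel)
def c11666 : PP 9 3 T 0x45000400000000029000210080000000000400000040000000100000001000000005004000210000004400400000004000000000000000000000080002000 := rS 0x7dfe3f575b6712fbbfea7c9a4dce3ef27d3fa071b8b (k8 c4759 c5569 c5380 c5358 c5442 c5359 c5443 c11665 (k8 c5213 c5227 c5388 c5389 c5609 c5610 c5621 c5623 (k4 c9462 c9458 c9954 c5208 k0))) (by decide +kernel)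
def c11667 : PP 9 3 T 0x1004400000000029000210080000000000000000040008000100400001000000000000808210000004400000000000000800001404000000000000012002 := rS 0x8b46c9f19c45ed757cc0ddf73a5268af572328d99b7f37f388fa7f88a071a374c9242647479edce9b72f8076094905c3619c587bded3 (k8 c205 c5507 c1058 c4759 c9699 c5475 c1064 c5648 (k8 c5438 c289 c9007 c5539 c5536 c5461 c5457 c5568 (k8 c2367 c5564 c293 c5530 c1567 c5569 c5380 c9727 (k8 c5358 c5442 c1769 c1770 c5549 c9955 c11666 c5350 (k8 c5351 c5600 c5601 c5604 c9413 c7665 c669 c1062 (k8 c5667 c1368 c914 c1369 c4716 c296 c2415 c3596 (k1 c3258 k0))))))) (by decide +kernel)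
def c11668 : PP 9 3 T 0x80002000000000000000200080000000000000000000000000000000000000000000000000000000000000000000000000000000000000000000000000000 := rS 0x48b8d8e7d3c9fd0313479edc2df (k8 c5538 c5460 c5457 c5568 c5382 c5380 c5358 c5441 (k4 c5442 c5357 c5549 c5589 (k1 c3610 k0))) (by decide +kernel)
def c11669 : PP 9 3 T 0x1000400000000029000211080000000000000000040008000000400000000000000000000200000004000000000000000000000000000000000000002042 := rS 0xc17493d4b88bddf30377dce975a2bd5946ccdbf9a9d60d3f7b5940d5f19c47c531e844ab5884bd8b0c54362c3c6a72b3536e73df808e49428ede65f04b1cfa793f95cc6773aab55e6933c453a6ddbadcca8109a3f1a61688cc3a39108dd24170d8665299 (k8 c5530 c11660 c9699 c5475 c1064 c5648 c1567 c5528 (k8 c324 c5486 c5284 c2133 c661 c5569 c5568 c5564 (k8 c5380 c1056 c5533 c8057 c5529 c5412 c9727 c5487 (k8 c5403 c5406 c5490 c5440 c5356 c5355 c5353 c5358 (k8 c5441 c5442 c5357 c5438 c5439 c5325 c289 c2540 (k8 c293 c2367 c9007 c5457 c5461 c5536 c5537 c5539 (k8 c3598 c1058 c4759 c11661 c898 c10693 c2111 c4579 (k8 c11662 c5343 c5558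 c5560 c5563 c9764 c667 c5576 (k8 c2997 c327 c11663 c5507 c205 c2189 c4120 c11668 (k8 c9955 c11666 c5350 c5600 c5601 c5602 c9413 c7665 (k8 c669 c1062 c5667 c914 c1369 c1204 c296 c2412 (k2 c329 c6262 k0)))))))))))) (by decide +kernel)
def c11670 : PP 9 3 T 0x1000400000000029000211080000000000000000040008000000000000000000000000000200000004000000000000000000000000000000000000000052 := rS 0xf0b359e9a3da10d60a438346e39490cda2171a96c36312fb1cf2633b9a5fa1d94a74426d4cc7c1e19 (k8 c9699 c9739 c9713 c5530 c5529 c5528 c5412 c11660 (k8 c5486 c5405 c5403 c5356 c5355 c5441 c5357 c5439 (k8 c5476 c5475 c5474 c5324 c1064 c2133 c5284 c5648 (k8 c324 c1567 c11669 c8435 c5645 c1059 c10375 c690 (k4 c10374 c11576 c2502 c5536 (k1 c5688 k0)))))) (by decide +kernel)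
def c11671 : PP 9 3 T 0x5005400000000041000000000000000000000000000008000100000000014040000000000000000000000000000000000000000001400000000000000000 := rS 0x10325c77e55821915e6f5 (k8 c5477 c5325 c5326 c5478 c5226 c5204 c5341 c5342 (k2 c5550 c3593 k0)) (by decide +kernel)
def c11672 : PP 9 3 T 0x200080000000000000000000000000000000000000000000000000400000000010000000000000001000000000000004000800002 := rS 0x9f3897cfa7f319cd026f (k8 c5565 c5380 c5379 c5355 c5358 c5442 c5439 c668 (k2 c1466 c3599 k0)) (by decide +kernel)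
def c11673 : PP 9 3 T 0x1001400000000029000211080000000000000000040008000000000000000000000000000020000000000000000000000000000000000000000000002052 := rS 0x1ed62044b8e899423f65f8bdf017fa090e1e0b3319ef7498e086457a9f4fe570eca443b75b864ca1b39a34de89308dcf23b04924264747b450af3 (k8 c5325 c2540 c1707 c5568 c2367 c5564 c293 c5438 (k8 c289 c5441 c2363 c661 c5567 c5565 c5381 c5379 (k8 c5475 c1056 c9699 c5533 c8057 c5528 c11660 c5486 (k8 c5353 c5358 c5442 c5477 c5326 c5478 c5654 c9007 (k8 c398 c2558 c6897 c5648 c7262 c899 c8541 c2396 (k8 c1977 c11553 c11671 c5464 c5576 c5578 c11672 c351 (k4 c353 c3593 c7820 c5560 (k1 c9764 k0)))))))) (by decide +kernel)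
def c11674 : PP 9 3 T 0x1000400000000029000211080000000000000000040008000000000000000000000000000000000004000000000000000000000000000000000000002052 := rS 0x826726cf7e068a15e6797eaa532c4649d4ee694b9852a673286cc65f (k8 c5439 c5355 c5475 c1056 c5487 c5488 c661 c5404 (k8 c5403 c5356 c5440 c11670 c3597 c5530 c5489 c5405 (k8 c5441 c5325 c2540 c1707 c11673 c5457 c5536 c8772 (k2 c5732 c2394 k0)))) (by decide +kernel)
def c11675 : PP 9 3 T 0x1000400000000029000211080000000000000000040008000000000000000000000000000000000004000000000000000000000000000000000000000052 := rS 0x67f859ad14d20cf60a4383588c93096dea5f639e4c6773a9a52efd33a553a6d4c83cca1b (k8 c5475 c1056 c9739 c5530 c5529 c5412 c5488 c5487 (k8 c5405 c5404 c5403 c5440 c5356 c5355 c5441 c5357 (k8 c5439 c5477 c5474 c661 c11670 c3597 c11674 c8435 (k8 c5645 c690 c2309 c10374 c1706 c8541 c5536 c2562 (k1 c5688 k0))))) (by decide +kernel)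
def c11676 : PP 9 3 T 0x1001400000000029000211080000000000000000040008000000000000000000000000000000000000000000000000000000000000000000000000002012 := rS 0x380453f58f9c08971d1328597e2f7c05fe1e413dd0ed1623242ccf30a4c704322bd4be7d3f98cee7534a5c3a674aca442b3dbadc32650d9cd028d37a246e791d8250af32484c8e8f (k8 c5568 c2367 c5564 c293 c5325 c2540 c5438 c289 (k8 c5441 c2363 c5567 c5565 c5381 c5380 c5379 c5475 (k8 c1056 c9699 c5533 c8057 c5532 c5528 c11660 c5488 (k8 c5487 c5486 c5404 c5403 c5440 c5356 c5355 c5358 (k8 c5442 c5439 c5477 c5326 c5478 c5654 c9007 c9230 (k8 c2558 c5648 c1064 c3597 c1707 c899 c398 c5672 (k8 c7262 c2396 c1977 c11553 c11671 c5464 c5578 c11672 (k8 c351 c353 c3593 c5550 c7820 c8973 c5558 c3599 (k1 c667 k0))))))))) (by decide +kernel)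
def c11677 : PP 9 3 T 0x2000000000009000011000000000000000000000008000000000000000000000000000000000004000100004001000000000000000400000001002000 := rS 0x16640c99e1b4bbf43a95548dd0af3688e536cd (k8 c5537 c5536 c5534 c5459 c5325 c2540 c2363 c5489 (k8 c5488 c5486 c5405 c5404 c5475 c11551 c11661 c8772 (k2 c5284 c1064 k0))) (by decide +kernel)
def c11678 : PP 9 3 T 0x4000000000041000000000000000000000000000000000000000000000000000140000400000000010108000000000000000005411540000000000000 := rS 0x3893c3f (k4 c327 c5680 c3590 c1607 k0) (by decide +kernel)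
def c11679 : PP 9 3 T 0x5002400000000228000211080000000000400000040000000000000001000000000004000600000004400002000000010010000000000000000000000000 := rS 0xebf8e11f0fbd27d5babbc3df57aa3c7de4fa7f34e0ccf9139a064e6fc6b9d36e5 (k8 c5539 c5536 c5461 c5569 c5565 c5383 c5380 c5379 (k8 c5491 c5487 c5407 c5403 c5358 c5442 c5359 c5443 (k8 c5614 c5617 c5427 c5429 c5430 c2231 c11664 c5222 (k4 c5609 c5289 c8937 c5625 (k2 c3359 c10341 k0))))) (by decide +kernel)
def c11680 : PP 9 3 T 0x5002400000000029000211080400000000400000040000000100000001000000000004000610000004400002000000010010000000000000000000000000 := rS 0xf8fd5d6d9c4beeffa9f2693738fbc9f4fe81c69edcee5 (k8 c5539 c5461 c5457 c5569 c5380 c5358 c5442 c5359 (k8 c5443 c11679 c5213 c5227 c5388 c5389 c5609 c5610 (k4 c5621 c5623 c9462 c9458 (k1 c10341 k0)))) (by decide +kernel)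
def c11681 : PP 9 3 T 0x1006400000000029000211080000000000000000040008000000400001000000000000808600001004400000000000000002000000000000000000002002 := rS 0x37544a5be606efb9d28af57666de2d14907f1acfa7f31c4566650d9cd031337a3f1a37f9b150c3b0486532793d954965338846b129dbadfded3 (k8 c205 c5507 c5533 c8057 c11660 c5226 c5558 c667 (k8 c5563 c5342 c5343 c5457 c5441 c5530 c9699 c5438 (k8 c289 c11677 c898 c11668 c2363 c5569 c5568 c5565 (k8 c5382 c5380 c5379 c5475 c1056 c5532 c9727 c5355 (k8 c5358 c5442 c11667 c1770 c8385 c3008 c3965 c9955 (k8 c11680 c5600 c5601 c9413 c7665 c669 c1062 c5667 (k4 c1204 c981 c2232 c6651 k0))))))) (by decide +kernel)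
def c11682 : PP 9 3 T 0x1006400000000029000211080000000000000000040008000000400001000000000000800600001004400000000000000002000000000000000000002002 := rS 0x6ea894b7cc0ddf73a515eaeccdbc5a2920e367b1cfa7f31994368189a3f1a3770b7d8a7b2a94ce211ac4a76eb769bfa03f381a1876090ca64f3ef (k8 c5507 c5441 c5530 c9699 c5438 c289 c11677 c10690 (k8 c11668 c10483 c5694 c205 c5533 c8057 c11660 c5226 (k8 c5558 c667 c5563 c5343 c5457 c898 c5538 c5460 (k8 c2363 c5569 c5568 c5382 c5380 c5475 c1056 c5355 (k8 c5358 c5442 c5357 c11681 c2574 c3610 c3008 c3965 (k8 c9955 c11680 c5600 c5601 c9413 c7665 c669 c1062 (k4 c5667 c1204 c981 c2232 (k1 c6651 k0)))))))) (by decide +kernel)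
def c11683 : PP 9 3 T 0x1000000000000000000011000000000000000000000000000000000002000000000000000000000000000000008000000000000000000000000000000000 := rS 0x2fdf5 (k2 c5556 c2239 (k1 c9772 k0)) (by decide +kernel)
def c11684 : PP 9 3 T 0x1006400000000029000211080000000000000000040008000000400000000000000000000600000004400000000000000002000000010000000000002002 := rS 0x1acb56aa80e24b1e846b07f57edd6e651b924264747b84729b6fc250c3b04a64f2920b86c3329 (k8 c11660 c9699 c5475 c1064 c5648 c5441 c5530 c5438 (k8 c289 c11677 c11683 c5538 c5536 c5534 c5460 c5568 (k8 c2367 c5564 c293 c2363 c1056 c5533 c8057 c5406 (k8 c5358 c5226 c5558 c5560 c5342 c667 c11678 c3000 (k2 c1199 c11663 (k1 c11682 k0)))))) (by decide +kernel)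
def c11685 : PP 9 3 T 0x8000000000000000000000000000000000200000000000000000000000000000140000000000000000000000000000000000001410540000000000000 := rS 0x258f5c63f (k4 c5576 c5466 c5560 c5342 (k1 c3590 k0)) (by decide +kernel)
def c11686 : PP 9 3 T 0x1002400000000029000211080000000000000000040008000000400000000000000000000200000004000000000000000000000000000000000000002082 := rS 0xd580129ef59f7b4dafe253b2cc0921985c86452d86cfa7f3b9d55aaf34874cf29dbadd1a8920a046e8579924264747b8472dff9a0e06c5430ec12194c9e4f615 (k8 c11531 c5457 c5441 c5530 c9699 c5438 c289 c11677 (k8 c898 c10690 c163 c11668 c5538 c5534 c5460 c5568 (k8 c2367 c5564 c293 c5325 c2540 c2363 c5380 c1734 (k8 c5567 c5381 c5533 c8057 c11660 c5487 c5486 c5403 (k8 c5406 c5490 c5440 c5356 c5358 c5442 c5475 c5474 (k8 c5326 c5478 c1064 c5284 c5648 c1563 c4286 c4322 (k8 c11684 c5465 c5579 c5861 c11685 c11662 c5660 c9182 (k2 c3072 c9438 k0)))))))) (by decide +kernel)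
def c11687 : PP 9 3 T 0x200000400000000228000000000000000000000000000000000000000001000000005004008000000004400400000000000000000000000000000000000000 := rS 0xdc74a8f0ebb (k4 c5430 c5429 c5614 c5555 (k2 c11664 c1818 k0)) (by decide +kernel)
def c11688 : PP 9 3 T 0x5000400000000228000211080000000000400000040000000000000001000000005004008400000004400402000000010010000000000000000000000000 := rS 0x1d7f1c23e1f7a4fadf57b8fbc9f4fe69c199f227340c9cdf8d (k8 c5569 c5565 c5383 c5380 c5379 c5491 c5487 c5407 (k8 c5403 c5358 c5442 c5359 c5443 c5617 c5427 c11687 (k4 c5222 c5609 c5289 c8937 (k2 c5625 c3359 (k1 c10341 k0))))) (by decide +kernel)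
def c11689 : PP 9 3 T 0x5000400000000029000211080400000000400000040000000100000001000000005004008410000004400402000004010010000000000000000000000000 := rS 0x1f1fabadb3897ddff53e4d26e71f793e9fd038d (k8 c5569 c5380 c5358 c5442 c5359 c5443 c11688 c5213 (k8 c5227 c5388 c5389 c5609 c5610 c5621 c5623 c9462 (k2 c9458 c10341 k0))) (by decide +kernel)
def c11690 : PP 9 3 T 0x41004400000000029000211080000000000000000040008000000400000000000005140008100000004400400008004000000000001410540000000000002 := rS 0x371457cc0ddf73a515eaeccdb69e2d21ef452c540712992c7a112ad60fa7f56abe5299dbadc3273469bd138d84a4996603a9dcd29762a54ce650d98cbe81 (k8 c5380 c5439 c5355 c5475 c1056 c5487 c5488 c898 (k8 c5404 c5403 c5356 c5440 c3597 c1755 c662 c11683 (k8 c5569 c5567 c5565 c5381 c5379 c9699 c5533 c8057 (k8 c5530 c11660 c5406 c5490 c5358 c5442 c5226 c5343 (k8 c5558 c5560 c5342 c5563 c667 c11678 c1197 c3602 (k8 c5583 c900 c3965 c2938 c9955 c11689 c5600 c5601 (k8 c9413 c7665 c669 c1062 c5667 c981 c6651 c1612 k0))))))) (by decide +kernel)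
def c11691 : PP 9 3 T 0x1000400000000029000211080000000000000000040008000000000000000000000000000000000004000000000000000000000000000000000000002012 := rS 0x6ac0094f7f7d65a6d7f129c66920bb38c0c962c0d0686f9b95be9b1cb9dc2d13df808e49428ec6e4322bccb65f049f4f27f319dceaad579a52efd0e99d2aa994a676eb78f864ca1b4684d128f208190215 (k8 c11531 c5380 c11675 c1734 c5568 c5567 c5564 c5381 (k8 c5475 c1056 c9699 c9713 c5533 c8057 c5530 c11660 (k8 c5489 c5488 c5487 c5486 c5405 c5404 c5403 c5406 (k8 c5490 c5440 c5356 c5355 c5358 c5441 c5442 c5438 (k8 c5439 c5474 c5325 c5326 c5478 c2363 c289 c2540 (k8 c293 c2367 c11676 c5457 c5459 c5460 c5461 c5534 (k8 c5536 c5538 c5539 c11668 c11677 c163 c10690 c898 (k8 c11686 c3597 c8772 c1460 c662 c5284 c4322 c11690 (k8 c5465 c5579 c11685 c5861 c11662 c5660 c9182 c3072 (k1 c9438 k0)))))))))) (by decide +kernel)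
def c11692 : PP 9 3 T 0x1005400000000029000200000000000000000000000008000100000100000000000000420400000000000008000040000400000000010004000000000002 := rS 0x1a63f6fa8568718e8f422d5ac10c8a3518acf6eb73286ce71337a3d225b (k8 c5474 c9793 c5568 c5565 c5382 c5379 c5475 c1056 (k8 c5533 c8057 c5532 c5476 c5324 c5326 c5478 c5226 (k8 c7428 c5558 c5560 c5341 c667 c8385 c11663 c2515 (k2 c327 c2136 (k1 c3588 k0))))) (by decide +kernel)
def c11693 : PP 9 3 T 0x80008000000000020000200000000000000000000000008000000000100000000000000420000000000000000000000000400000000000804000010000002 := rS 0x11c133547a7070ad62a6d599ce266f47a44b63f (k8 c5576 c5474 c9793 c5568 c5565 c5382 c5379 c5532 (k8 c5529 c5414 c5548 c5591 c3604 c1680 c1710 c668 (k2 c6627 c351 k0))) (by decide +kernel)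
def c11694 : PP 9 3 T 0x40000000000000000000000000000000000000100040000000000000000000000000000000000000400000001000000020000000004000000000000000002 := rS 0x239244c10 (k4 c667 c668 c3026 c2864 (k1 c5660 k0)) (by decide +kernel)
def c11695 : PP 9 3 T 0x40008000000000020000200000000000000000100040008000000000000041000000000420000000000000000000000000400000004000804000000000002 := rS 0x23ad51e921fe475a1c622b3149ce266f47a44b63f (k8 c5576 c5474 c9793 c5568 c5565 c5382 c5379 c9693 (k8 c5532 c9727 c11694 c8385 c2346 c2572 c9106 c1681 (k2 c1711 c514 (k1 c6627 k0)))) (by decide +kernel)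
def c11696 : PP 9 3 T 0x1001400000000029000200000000000000000000040008000100000000000000000000001000000000000008002040000400000004000104000000000082 := rS 0xfe5a350e31d1e846b1f31ff89aec4489e9a03a1a96dfa1d88acce66f479050303898dd32cb (k8 c4286 c5530 c1567 c5382 c2629 c5380 c1734 c5568 (k8 c5565 c5379 c5532 c9727 c5486 c5405 c5474 c5324 (k8 c5654 c6899 c1674 c9793 c847 c1765 c11692 c5576 (k8 c11693 c11695 c5558 c5560 c5341 c667 c6627 c8385 (k2 c1711 c2572 k0))))) (by decide +kernel)
def c11697 : PP 9 3 T 0x4000000000061000200080000000000000000000000000100000100000000000140000400000000000400000004000400000000000000000000000802 := rS 0x50a7d68e238a4423583ea65667340c4cde8f (k8 c5568 c5565 c5382 c5380 c5379 c5532 c5530 c5442 (k8 c5226 c5558 c694 c667 c5972 c8385 c1607 c1199 (k1 c5680 k0))) (by decide +kernel)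
def c11698 : PP 9 3 T 0x1000400000000029000211080000000000000000040008000000000000000000000000000000000004000000000000000000000000000000000000000012 := rS 0x1a83d801208e90698fdc7e2f9b7d36e13df8196921985d9a84258e5066b0521c1a062296dea5f639e4fe630eca6229d36a676eb707866268f (k8 c5568 c5382 c9699 c9739 c5533 c8057 c5530 c5529 (k8 c5412 c9727 c11660 c5486 c5355 c5358 c5441 c5357 (k8 c5439 c5477 c5474 c5326 c11675 c11691 c8435 c5645 (k8 c1059 c2309 c2470 c2588 c5672 c8541 c10373 c5284 (k8 c5648 c4286 c11696 c5457 c5460 c5536 c5538 c11668 (k8 c11697 c5466 c5576 c5579 c10517 c2785 c695 c850 (k2 c10315 c10502 (k1 c3072 k0)))))))) (by decide +kernel)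
def c11699 : PP 9 3 T 0x1000800000000029000011080000000000000000040008000000000000000000000000000000000004000000000000000000000000000000000000004002 := rS 0x85419e814871d0352406307859ac96296dea5f319dcea694b99d2b294ea64ca1b (k8 c5475 c1056 c5530 c5412 c11660 c5488 c5487 c5404 (k8 c5403 c5440 c5356 c5355 c5439 c5477 c5474 c5451 (k8 c5494 c5495 c6325 c3597 c661 c662 c9230 c9007 (k4 c8435 c5645 c1674 c2309 (k2 c847 c5672 k0))))) (by decide +kernel)
def c11700 : PP 9 3 T 0x1000000000000000000111000000000000000000000000000000000000080000000000000000000000000000000000000000000000000000000000000000 := rS 0x3dff3 (k2 c5550 c5508 (k1 c5191 k0)) (by decide +kernel)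
def c11701 : PP 9 3 T 0x1001000000000009000011080000000000000000040008000000100000040000000000000000000000000001040000000000000004400000000000002002 := rS 0x3fe02827ba1da2c4648599e931c18486457a97cc6773a9a52e674aca432650d8dcf23b04a15e649 (k8 c294 c5325 c2540 c5438 c289 c5441 c2363 c5475 (k8 c1056 c9699 c11660 c5488 c5487 c5404 c5403 c5440 (k8 c5356 c5355 c5439 c5477 c5326 c5478 c9230 c5654 (k8 c9007 c2558 c5648 c1064 c3597 c1707 c899 c398 (k4 c5672 c1978 c2397 c3593 k0))))) (by decide +kernel)
def c11702 : PP 9 3 T 0x4000000000041000000000000000000000000000000000000000000000000000140000000000000010108000000000000000005411540000000000000 := rS 0xcb (k2 c1753 c11678 k0) (by decide +kernel)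
def c11703 : PP 9 3 T 0x1000000000000029000011080000000000000200040008000000000000040000000000000000000004010001040000000000000000011000000000002002 := rS 0x3202c6149b17c6866f8e5c27bf012476372f824f2633b9d4d29733a565299dbadc32650dc749647 (k8 c5562 c5342 c5341 c5475 c1056 c9699 c5533 c8057 (k8 c5530 c11660 c5488 c5487 c5404 c5403 c5440 c5356 (k8 c5355 c5441 c5438 c5439 c2363 c289 c294 c11701 (k8 c5457 c5460 c5534 c5538 c11677 c11685 c898 c11702 (k4 c662 c5648 c3597 c1064 k0))))) (by decide +kernel)
def c11704 : PP 9 3 T 0x1005400000000049000000000000000000000000000008000000100000000000000000020400000000010000000000000000000000015004000000000000 := rS 0x1a6d74f35486451a8c55a95 (k8 c5488 c5490 c5476 c5324 c5326 c5478 c7428 c5680 (k2 c1605 c2882 (k1 c3588 k0))) (by decide +kernel)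
def c11705 : PP 9 3 T 0x1001400000000049000111000000000000000000040008000100000000000000000000001400000000010000000000000000000000015144000000000000 := rS 0x7c9c1ef6a35fc4d01d0d63b58 (k8 c5212 c5341 c5324 c5654 c6899 c11704 c5465 c6627 (k4 c5585 c1710 c5191 c5591 k0)) (by decide +kernel)
def c11706 : PP 9 3 T 0x1000000000000029000011080000000000000000040008000000000000000000000000000000000004000000000000000000000000000000000000000012 := rS 0x7cfde486a38da6d74f181be9b709ec77e01fb2c6e921985d9a39419ac148706c0d428b489c88e4b8e9bce2411ed604a11d0f7c86451a96c62f52f8258e7d3c98d5a690ea5653114e9b533b75b83c3215 (k8 c11531 c9699 c9739 c5533 c8057 c5530 c5529 c5412 (k8 c9727 c11660 c5488 c5486 c5403 c5490 c5355 c5441 (k8 c5442 c5357 c5438 c5439 c5477 c5476 c5474 c5324 (k8 c5326 c5478 c11699 c11698 c9667 c9666 c5212 c8150 (k8 c8151 c667 c1060 c5341 c5342 c5562 c5666 c9824 (k8 c855 c1196 c11700 c11703 c8435 c5645 c1059 c2309 (k8 c2470 c8541 c10373 c5284 c5648 c1567 c1753 c327 (k8 c11705 c5456 c5457 c5460 c5536 c5538 c3598 c930 (k8 c1605 c2882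 c1607 c3588 c3590 c5585 c5588 c5191 k0))))))))) (by decide +kernel)
def c11707 : PP 9 3 T 0x4000000000041000200080000000000000000000008000100000000014040000000400000000000000800000000000001000001400000000000800002 := rS 0x6fb2a047125c747a1112d60864579bd4be7d3f98d026f (k8 c5565 c5380 c5355 c5358 c5442 c5439 c5477 c5325 (k8 c5326 c5478 c5226 c5559 c5558 c5560 c5341 c5342 (k4 c667 c3593 c9210 c2517 (k1 c1327 k0)))) (by decide +kernel)
def c11708 : PP 9 3 T 0x1000000000041000200080000000000000000040008000100000000014040000000000000000400000050000000000140000000000000000190002002 := rS 0x1c0229fac7ce044b8e89942cbf135d88c90b26870612491c763721915e6f52f824fa793f98cee750c99436734084cde8f (k8 c5568 c5565 c5564 c5380 c5379 c5475 c1056 c9699 (k8 c5440 c5356 c5355 c5358 c5441 c5442 c5438 c5439 (k8 c5477 c5325 c5326 c5478 c2363 c289 c2367 c293 (k8 c9230 c5654 c2472 c2473 c1064 c3597 c1765 c11707 (k8 c5464 c5578 c11672 c351 c353 c3593 c5550 c7820 (k4 c8973 c5558 c3599 c667 k0)))))) (by decide +kernel)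
def c11709 : PP 9 3 T 0x8000010000000000000000000040008000000000000000000000000000000000004000000005000001000000000000000000080005002 := rS 0x820506deb11 (k4 c9727 c5477 c5475 c5645 (k2 c11588 c2309 k0)) (by decide +kernel)
def c11710 : PP 9 3 T 0x29000011080000000000000000040008000000000000000000000000000000000004000000000000000000000000000000000000000012 := rS 0x3c4806fa3204e1f9b5c928e5a22d227262474de47259c5935812845c61630e847113f09a8763706079fe8580a1defec3286486457986dea5f049f4f2633b9d4d2970e99d2b29109b532b3dbadc1e15 (k8 c11531 c9739 c5533 c8057 c5532 c5530 c5529 c5528 (k8 c11660 c5488 c5487 c5486 c5404 c5403 c5440 c5356 (k8 c5355 c5441 c5442 c5438 c5439 c5477 c5475 c5325 (k8 c5326 c5478 c9699 c1056 c11706 c5498 c5499 c5502 (k8 c5541 c5544 c7262 c11709 c2363 c289 c2361 c11677 (k8 c4731 c5654 c11708 c9230 c2473 c4736 c9667 c9666 (k8 c5212 c1064 c667 c9905 c2368 c1060 c5341 c3597 (k8 c5666 c9824 c855 c1318 c1319 c294 c1766 c5548 (k4 c2846 c3593 c2406 c2517 (k2 c947 c5691 (k1 c5463 k0))))))))))) (by decide +kernel)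
def c11711 : PP 9 3 T 0x1005000000000041000000080000000000000000000008000100000000000001000000020110000050000000150100000000000000000008005010000000 := rS 0x34daeb08eb54535821914367d3f9dcebdf (k8 c5492 c5440 c5356 c5358 c5442 c5475 c5326 c5478 (k8 c5226 c9421 c7428 c5341 c3582 c2185 c2085 c3608 k0)) (by decide +kernel)
def c11712 : PP 9 3 T 0x1001000000000041000010080000000000000000040008000100001000001001000000000000000455000000510100000000000000000400005510046001 := rS 0xac0a3e64b5ab81fcd46bf8916c948b159e326821870f6239243e3705bccb6f53e9e4ee75 (k8 c5440 c5356 c5441 c5442 c5477 c5474 c5325 c34 (k8 c2363 c2362 c293 c2367 c9945 c5654 c292 c398 (k8 c397 c2558 c899 c9793 c2133 c900 c11711 c5465 (k8 c5287 c1711 c1710 c2572 c2568 c5591 c3584 c5660 (k1 c5339 k0))))) (by decide +kernel)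
def c11713 : PP 9 3 T 0x1005000000000041000000080000000000000000000008000100000400040001000000000000000054000000400104000000000000000080005010000800 := rS 0x7fb3fe701f7b89beb07091e3a3d488a6b0432286cfa79 (k8 c5441 c5442 c5475 c5326 c5478 c5226 c9421 c9383 (k8 c5560 c5341 c5562 c1483 c3582 c2331 c5846 c5506 (k4 c2143 c5549 c10455 c2574 (k1 c5694 k0)))) (by decide +kernel)
def c11714 : PP 9 3 T 0x200080000000000000000000000000000000000000000000440000000000000000000000004000000000001000080000000000800 := rS 0x385227d3ca06268f (k8 c5568 c5382 c5380 c5441 c5442 c695 c1484 c5846 k0) (by decide +kernel)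
def c11715 : PP 9 3 T 0x1001000000000029000211080000000000000000040008000000000000000000000000000000000004000000000000000000000000000400005000004001 := rS 0x101f7ac23aff14fcc90df71f8a0636421ec72830521c1af121914b61b7ab1d5aaf7e875532911c5442b3dbadd028d8984d128f (k8 c5568 c5567 c5564 c5382 c5381 c5380 c5533 c8057 (k8 c5532 c5528 c5414 c5409 c11660 c5489 c5486 c5405 (k8 c5406 c5490 c5357 c5477 c5475 c5474 c5326 c5478 (k8 c9695 c11712 c8435 c5645 c2309 c2470 c691 c5672 (k8 c5654 c2629 c11713 c5466 c5580 c11714 c5588 c509 (k4 c3006 c514 c3582 c5506 (k2 c2143 c5694 k0))))))) (by decide +kernel)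
def c11716 : PP 9 3 T 0x41004000000000041000000000000000000000000000008000100001000041001000000000000000454000000000000000000000001400000005550000000 := rS 0x80fbdfeb05a12e3a29ac10c8a1b (k8 c5475 c5326 c5478 c5226 c9421 c5341 c5342 c3584 (k4 c3582 c2572 c5506 c2143 (k1 c5694 k0))) (by decide +kernel)
def c11717 : PP 9 3 T 0x41000000000000041000010080000000000000000040008000100001000001081000140000000000454000000510504000000000000000500005550042000 := rS 0x355170025565ae41f140d8a4724a146ef33e9e4ee75 (k8 c5440 c5356 c5441 c5442 c5325 c2363 c2540 c293 (k8 c2367 c5732 c2196 c11716 c5462 c5465 c11685 c5660 (k4 c565 c3069 c3072 c5287 k0))) (by decide +kernel)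
def c11718 : PP 9 3 T 0x41004000000000041000000000000000000000000000008000100001000041001000000000000000454000000000000000000000000000000005550000000 := rS 0x7fc07de485811e3a29ac10c8a1b (k8 c5475 c5326 c5478 c5226 c9421 c5341 c5562 c3582 (k4 c11716 c5506 c2143 c3006 (k1 c5694 k0))) (by decide +kernel)
def c11719 : PP 9 3 T 0x1000000000000029000211080000000000000000040008000000000000000000000000000000000004000000000000000000000000000000005002004001 := rS 0x1592404121e281a10148706a0dec1ff9b7d3639709efc0f17996c36f53cab55efd0eaa6531510acf6eb71d88d028d8984d128f (k8 c5568 c5567 c5564 c5382 c5381 c5380 c5409 c491 (k8 c5533 c8057 c5532 c5528 c5414 c11660 c5489 c5486 (k8 c5405 c5406 c5490 c5441 c5477 c5475 c5474 c5325 (k8 c9695 c11715 c5457 c5460 c5534 c5536 c5538 c11668 (k8 c1164 c5816 c1972 c11717 c8435 c5645 c5672 c2629 (k4 c11718 c10517 c694 c695 (k2 c5558 c10038 k0))))))) (by decide +kernel)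
def c11720 : PP 9 3 T 0x4000000000041000000080000000000000000000008000100000400000001000000400000000050000800400104000000000000000080005010000800 := rS 0xa17137d60e123c747a9114d6086450d9f4f3e1 (k8 c5536 c5441 c5442 c5475 c5326 c5478 c5226 c9421 (k8 c9383 c5560 c5341 c5562 c1483 c3582 c2331 c5846 (k2 c1198 c2622 k0))) (by decide +kernel)
def c11721 : PP 9 3 T 0x29000211080000000000000000040008000000000000000000000000000000000004000000000000000000000000000000000000000010 := rS 0x385223d08d6090df71f89aec4668d9347b4187814cf42b450ef7f60944e8f3784e26817896deac73e9e4ee7556abdfa1d54c5443b75b83c76180b97d2602008265223 (k8 c5409 c11660 c5438 c11710 c5642 c261 c5439 c1107 (k8 c5648 c491 c9739 c5533 c8057 c5528 c5414 c5489 (k8 c5486 c5405 c5406 c5490 c5440 c5356 c5441 c5442 (k8 c5357 c5477 c5474 c9695 c5380 c5382 c5564 c5565 (k8 c5568 c267 c1113 c11719 c5498 c5499 c5501 c5541 (k8 c5543 c10419 c7262 c2309 c691 c1164 c1165 c2329 (k8 c3607 c1765 c11720 c5466 c5580 c11714 c10038 c5558 (k4 c5560 c694 c1483 c5846 k0)))))))) (by decide +kernel)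
def c11722 : PP 9 3 T 0x4000000000041000000080000000000000000000000000000000000000000000000500410000010000000140000020000000000000000000000000000 := rS 0xd24f20542893e9fcee75 (k8 c5440 c5356 c5358 c5442 c2872 c2929 c752 c5680 (k2 c3608 c2882 k0)) (by decide +kernel)
def c11723 : PP 9 3 T 0x1005000000000041000110080000000000000000040008000100000000001001000000000000000055000000000000000000000000000400000110006009 := rS 0x581b84e716aa2d1ad7efb1522654316064d0418e1ec851b82c86457996c36f53c9cc4acb148602e5f498263b58 (k8 c5212 c5341 c5438 c261 c5439 c1107 c5648 c8199 (k8 c1320 c9666 c9719 c5441 c5477 c5475 c5474 c5325 (k8 c5326 c5478 c34 c2363 c2540 c9945 c5654 c1972 (k8 c398 c397 c291 c292 c5733 c9793 c1707 c5492 (k8 c2185 c2169 c900 c7428 c11722 c268 c5666 c3582 (k1 c1146 k0)))))) (by decide +kernel)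
def c11724 : PP 9 3 T 0x20000110080000000000000000000000000000000000000000000140000400000000000001400004020000000000000000000000000000 := rS 0x717c903133e9e4dab3 (k8 c5532 c5529 c5441 c5442 c755 c752 c10427 c5846 (k1 c5549 k0)) (by decide +kernel)
def c11725 : PP 9 3 T 0x1005000000000029000111080000000000000000040008000000000000000000000000000000000004000000000000000000000000000000000000004009 := rS 0x24ad7e46e139c5bee10f8d8d6913da3c72830521c1af12dbd58ead57bf43aa98a88566731d88c4acb148602e5f49826523d089f48f58dbade0615 (k8 c11531 c11700 c5533 c8057 c5212 c5562 c5442 c9667 (k8 c8150 c11660 c5438 c261 c5439 c1107 c5648 c8199 (k8 c1320 c9666 c5409 c491 c9719 c5532 c5528 c5414 (k8 c5489 c5486 c5405 c5406 c5490 c5357 c5477 c5474 (k8 c9695 c11723 c8435 c5645 c2309 c2470 c2311 c691 (k8 c694 c11575 c5654 c1111 c1483 c2331 c11724 c268 (k4 c5666 c11718 c1148 c5588 (k1 c8140 k0)))))))) (by decide +kernel)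
def c11726 : PP 9 3 T 0x1000000000000000000001000000000000000000040008000000000000001000000000000000000000000000000000000000000000000000000080004009 := rS 0x2090e0a35034b6f5 (k8 c5477 c5474 c2362 c1111 c1112 c8435 c11575 c2309 k0) (by decide +kernel)
def c11727 : PP 9 3 T 0x1000000000000028000111000000000000000000000008000000000000000000000000000000000000000000000000000000000000000000004040000000 := rS 0x92b5f97bd60f12191436ad578744621598a44b1d23d636eb7 (k8 c5533 c8057 c5212 c5562 c5341 c9666 c8199 c5532 (k8 c5528 c5409 c5486 c5406 c5490 c5475 c5326 c5478 (k4 c9695 c3582 c5506 c5191 (k2 c5548 c5588 (k1 c8140 k0))))) (by decide +kernel)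
def c11728 : PP 9 3 T 0x1000000000000029000111080000000000000000040008000000000000000000000000000000000004000000000000000000000000000000000000004009 := rS 0x12084709ed89e089a3d128d45b7dc68169b5dabe3380493c3e1320dec1f78915e61b7ab1cfa793f9dceaad7e874ce955488cda99599cc30172fa4c1329 (k8 c11660 c5438 c261 c5439 c1107 c5648 c9719 c5532 (k8 c5530 c5529 c5409 c5489 c5488 c5487 c5486 c5405 (k8 c5490 c5440 c5356 c5358 c5441 c5442 c5357 c5477 (k8 c5475 c5325 c5326 c9695 c11726 c5816 c1972 c11727 (k8 c379 c380 c267 c268 c5576 c2996 c1605 c2882 (k8 c1604 c1607 c2884 c2976 c753 c2872 c2874 c755 (k4 c11725 c3608 c5457 c5460 (k2 c5732 c3610 (k1 c849 k0))))))))) (by decide +kernel)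
def c11729 : PP 9 3 T 0x29000011080000000000000000040008000000000000000000000000000000000004000000000000000000000000000000000000000010 := rS 0x1e350a01ae8c45a7d606e139c588df70b346c913da3d061e0533d0ad143bdfd8478e8f597581284453a11d8602e93011cc02f121914b61b7a97c12c73e9e4ee7556abdfa1d54ca44621dbadc1e15 (k8 c11531 c9739 c5533 c8057 c5528 c5409 c11660 c5489 (k8 c5486 c5405 c5406 c5490 c5440 c5356 c5441 c5442 (k8 c5357 c5438 c5439 c5477 c5475 c5474 c5326 c5478 (k8 c9695 c11710 c9719 c5642 c261 c1107 c5648 c491 (k8 c11721 c8199 c9667 c9666 c5212 c1320 c8150 c5341 (k8 c5562 c11728 c5498 c5499 c5501 c5541 c5543 c10419 (k8 c7262 c2309 c2311 c691 c694 c1165 c2329 c1483 (k8 c2331 c3607 c11724 c268 c5666 c3582 c2815 c2978 (k4 c1147 c1766 c947 c1198 (k2 c5463 c5680 k0)))))))))) (by decide +kernel)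
def c11730 : PP 9 3 T 0x1000000000020000000080000000000000000040008000100000000001001000000000020000001000400000000000000000000000000000010002000 := rS 0xf70fb4470851d8dde61b7a824f223 (k8 c5409 c5441 c5438 c5477 c5475 c5325 c2363 c289 (k4 c2540 c5654 c1707 c2472 (k2 c398 c5816 k0))) (by decide +kernel)
def c11731 : PP 9 3 T 0x100000000000002a000011080000000000000000040008000000000000000000000000000000000000000000000000000000000000000000000000001012 := rS 0x7432669e82e83358290ef11a96c62f5639e43b114e9b5320f49865929befb10ca1b3aa54c6673497cee97 (k8 c5404 c5356 c5439 c5403 c5487 c5355 c5488 c5440 (k8 c5475 c1056 c10013 c5451 c5397 c5396 c5393 c5444 (k8 c9739 c5530 c5529 c5412 c9727 c5486 c5441 c5357 (k8 c5477 c5476 c5474 c5324 c9695 c8435 c5645 c1059 (k4 c2309 c10371 c10556 c8541 (k2 c3577 c691 (k1 c493 k0))))))) (by decide +kernel)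
def c11732 : PP 9 3 T 0x1000000000000028000011080000000000000000040008000000000000000000000000000000000004000000000000000000000000000000000000000012 := rS 0x82671eda3e042831e2f33cbf43aa994a65929b6219437b03aa54c6673497cee97 (k8 c5404 c5356 c5439 c5403 c5487 c5355 c5488 c5440 (k8 c11729 c5475 c1056 c10013 c5397 c5396 c5530 c11660 (k8 c5489 c5486 c5405 c5441 c5325 c9695 c11731 c2540 (k4 c11730 c1707 c5457 c8772 (k2 c5732 c2394 k0))))) (by decide +kernel)
def c11733 : PP 9 3 T 0x200000000000002a000000000000000000000000000008000100000000000000000000000000000004000000000000000000000000000000000000000000 := rS 0x761e7bbd52e954ea4c32c9 (k8 c5396 c5393 c5444 c5412 c5488 c5404 c5477 c5498 (k2 c7262 c6724 (k1 c8815 k0))) (by decide +kernel)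
def c11734 : PP 9 3 T 0x1000000000022000010080000000000000000040008000100000000001001000000000000000001000050000400000140000000000000000010002000 := rS 0xc532a15e65f319dcea9b (k8 c5397 c5440 c5356 c5355 c5439 c5325 c2540 c9813 (k2 c11730 c10013 k0)) (by decide +kernel)
def c11735 : PP 9 3 T 0x100100000000002a000011080000000000000000040008000000000000000000000000000000000000000000000400000000000000000008000000004000 := rS 0x1b0ecf439669ac148706bc4b65f639e4c6694bbf43a674aaa653114e9b537df (k8 c5492 c5397 c5529 c5412 c9727 c11660 c5489 c5488 (k8 c5487 c5486 c5405 c5404 c5403 c5355 c5441 c5357 (k8 c5439 c5474 c9695 c11734 c8435 c5645 c11575 c8541 (k4 c2470 c10556 c493 c5654 (k1 c1478 k0))))) (by decide +kernel)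
def c11736 : PP 9 3 T 0x28000011080000000000000000040008000000000000000000000000000000000004000000000000000000000000000000000000000010 := rS 0x682c6c6a1c9ec77e041bd8641f0b80803ed4db243293d83c46af30d8c5ea5f639e4c6977e8752aa994c44469d109b5320f (k8 c9739 c5530 c5529 c5528 c5412 c5409 c9727 c11660 (k8 c5489 c5488 c5486 c5405 c5404 c5355 c5441 c5357 (k8 c5439 c5477 c5476 c5475 c5325 c5324 c9695 c11729 (k8 c5444 c5393 c5396 c5397 c11733 c11732 c5642 c1107 (k8 c11726 c3577 c5816 c1972 c11735 c5456 c5457 c5534 (k4 c10556 c3578 c2305 c2363 (k1 c5645 k0))))))) (by decide +kernel)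
def c11737 : PP 9 3 T 0x1001000000000020000020080000000000000000000000000100000000001000000000001000000000000054000000000140000000000000000004000002 := rS 0x18ac9678593461319dcea9d10a64f66bd897c3265 (k8 c1056 c9699 c5439 c8483 c5523 c5372 c5530 c5528 (k8 c5412 c5440 c5356 c5355 c662 c10507 c5648 c2562 (k2 c1064 c10805 (k1 c3597 k0)))) (by decide +kernel)
def c11738 : PP 9 3 T 0x1000000000028000021080000000000000000040008000000000000000000000000000000000004000000000000000000000000000000000000000002 := rS 0xd1efb20c2c503b3c74370ba486a633b9d4d2977e99d2b294c9ec1bb12f997dacd4208436c7 (k8 c5357 c5475 c5528 c11603 c2502 c5541 c1056 c5439 (k8 c8483 c5522 c5372 c5530 c11660 c5488 c5487 c5405 (k8 c5404 c5403 c5440 c5356 c5355 c5324 c11737 c55 (k8 c1567 c9007 c1646 c1674 c10805 c661 c3597 c5494 (k2 c2133 c11605 k0))))) (by decide +kernel)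
def c11739 : PP 9 3 T 0x2000000000041000220080000000000000000000000000000001100000000000000000400000400001100000000001000000000000000000000000000 := rS 0x168a038a7dc5e337c4d0273639f4f27f319ed226b47b8536df (k8 c5538 c5536 c5460 c5526 c5523 c5374 c5372 c5355 (k8 c5358 c5441 c5442 c5357 c5379 c5380 c5382 c5565 (k4 c10517 c3610 c1607 c6190 (k2 c5680 c3604 (k1 c1199 k0))))) (by decide +kernel)
def c11740 : PP 9 3 T 0x28000001080000000000000000040008000000000000000000000000000000000004000000000000000000000000000000000000000012 := rS 0xfff9c07de486a38da6d71fc0d3ca1459c88f1d3792ce2411ed604a11d08dc66cb491802e06efb7d3639708efc0cdf6a103243228d4363104b1cfa79319dceaad34a5c3a9588a762a2136a6567b75b9ec1a6bd8e70be15 (k8 c11531 c5439 c11736 c8483 c5523 c5522 c5372 c5533 (k8 c8057 c5532 c5530 c5529 c5528 c5414 c5412 c9727 (k8 c5488 c5486 c5404 c5403 c5490 c5440 c5356 c5355 (k8 c5441 c5442 c5357 c5438 c5476 c5475 c5324 c5326 (k8 c5478 c9699 c11603 c5541 c2502 c11738 c5456 c5460 (k8 c5534 c5536 c5538 c6325 c10637 c10515 c10443 c10507 (k8 c4286 c5284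 c1567 c11739 c9667 c9666 c5212 c8150 (k8 c8151 c667 c8142 c1060 c5341 c5562 c5666 c855 (k8 c1196 c930 c2630 c327 c1605 c2882 c1607 c3588 (k4 c3590 c5585 c3072 c5588 (k2 c3006 c5694 k0))))))))))) (by decide +kernel)
def c11741 : PP 9 3 T 0x1004000000000041000000000000000000000000000008000100001000041001000000000000000454000000000000000000000000000000005550000000 := rS 0x92b523fc85358 (k4 c5226 c9421 c11718 c5562 (k2 c5548 c5588 (k1 c8140 k0))) (by decide +kernel)
def c11742 : PP 9 3 T 0x200080000000000000000000000000000000000020000000000444010000000000001000000000000000000000000000000000000 := rS 0xd5459f4fe773aa051a89 (k8 c5567 c5381 c5380 c5440 c5356 c5358 c5442 c3068 (k2 c3073 c3608 k0)) (by decide +kernel)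
def c11743 : PP 9 3 T 0x1000000000041000220080000000000000000040008000100001000001081000000001000000454000000000000000000000000000200005550004000 := rS 0x1580812e024724fcdbed31fb8dafe281b15a0326782de6c73da441a8ff6c4c2615 (k8 c11531 c5564 c5382 c5498 c5526 c5522 c5374 c5372 (k8 c5357 c5325 c2470 c2558 c397 c398 c10805 c4549 (k8 c11741 c5465 c5466 c5576 c5579 c5580 c8118 c399 (k4 c2476 c11742 c565 c3574 (k2 c5660 c5558 k0))))) (by decide +kernel)
def c11744 : PP 9 3 T 0x4000000000041000000000000000000000000000008000100001000001081000000000000000454000000000000000000000000000000005550000000 := rS 0x8ec0ab1ed (k4 c5498 c5226 c11741 c5341 (k1 c2195 k0)) (by decide +kernel)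
def c11745 : PP 9 3 T 0x1000000000041000220080000000000000000040008000100001000001081000000000000000454000000000000001000000000000000000510004008 := rS 0x1581e121c0df71f886c391289cde1389a04fa793f98d1e1f35b3476180b97d2609 (k8 c5438 c261 c5439 c1107 c5648 c491 c2072 c5523 (k8 c1111 c5526 c5355 c5358 c5441 c5442 c5380 c5382 (k8 c5564 c5565 c267 c1113 c11743 c5654 c11744 c5466 (k4 c5580 c5864 c1484 c1483 (k2 c10038 c5560 k0))))) (by decide +kernel)
def c11746 : PP 9 3 T 0x1001000000000028000020080000000000000000000000000000000000000000000000001000000000000000000000040000000000100000008002000008 := rS 0xcf62382268946a2dbee340b4daed5380493c3e3e9e4fe633b9d55a674a9b532b33da3f625f (k8 c5439 c8483 c5526 c5372 c5532 c5530 c5529 c5488 (k8 c5487 c5490 c5440 c5356 c5355 c5358 c5441 c5442 (k8 c379 c380 c267 c268 c2996 c1605 c2882 c1604 (k8 c1607 c2884 c2976 c753 c2872 c755 c5864 c3608 (k2 c1652 c10805 k0))))) (by decide +kernel)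
def c11747 : PP 9 3 T 0x1000000000028000020080000000000000000040008000100000000000001000000000000000004000000000000040000000000000000000000004008 := rS 0x92b57f407dff371ac3c4278191e3a4bac0942229d090c8aad57c54426d59edd6e0df6b3476180ba4c13b12fbd83e6b7ebcc3af51186d5215 (k8 c11531 c5489 c5475 c5409 c5477 c5486 c5325 c5405 (k8 c5523 c1111 c5816 c5439 c8483 c5438 c261 c1107 (k8 c5648 c491 c2072 c5498 c5522 c5533 c8057 c5532 (k8 c5529 c5528 c5414 c5406 c5490 c5326 c5478 c11745 (k8 c8199 c9667 c9666 c5212 c8142 c5341 c5562 c2195 (k8 c11746 c11744 c3582 c5466 c8118 c5506 c2143 c5694 (k2 c2572 c3006 (k1 c3584 k0)))))))) (by decide +kernel)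
def c11748 : PP 9 3 T 0x2000000000041000220080000000000000000000000000000001100000000000000000000000400001100000000001000000000000000000000000000 := rS 0xca40981366b (k4 c5523 c5536 c10443 c5380 (k2 c11739 c1755 k0)) (by decide +kernel)
def c11749 : PP 9 3 T 0x1004000000000041000120080000000000000000000008000100001000041001000140000000000454000104000000041002000000000000000552000000 := rS 0x8150a784c25 (k4 c9666 c11741 c380 c2928 (k2 c1604 c11607 k0)) (by decide +kernel)
def c11750 : PP 9 3 T 0x28000001080000000000000000040008000000000000000000000000000000000004000000000000000000000000000000000000000010 := rS 0x5aa7cdc7189285c681f140e3acbac0a742606fa6dc3e0f6bd8301f0ba4c047300ec51e6bce03de2f30dbd4be093e9e4fe6356abdfa1d54ca622234ec54426d4cacf6eb7 (k8 c5533 c8057 c5532 c5530 c5529 c5528 c5414 c5412 (k8 c5409 c9727 c11660 c5489 c5486 c5405 c5406 c5490 (k8 c5355 c5358 c5441 c5442 c5438 c5439 c5477 c5475 (k8 c5325 c9695 c9739 c11736 c5523 c5526 c8483 c11740 (k8 c9719 c5642 c261 c1107 c1111 c5648 c5816 c5498 (k8 c11747 c5460 c5536 c5538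 c10443 c11748 c8199 c5212 (k8 c1320 c5341 c2195 c11749 c5463 c5466 c5578 c5864 (k4 c755 c5666 c2815 c1148 (k1 c3620 k0))))))))) (by decide +kernel)
def c11751 : PP 9 3 T 0x1005000000000000000000000000000000000000000000000000000000000000000000000000000000000000088040000000040000000000000000000000 := rS 0x1c4cf70f79a2dff9bf921ef (k8 c5583 c900 c901 c5589 c2948 c9793 c5204 c3013 (k2 c5453 c5691 (k1 c2574 k0))) (by decide +kernel)
def c11752 : PP 9 3 T 0x4004000000000000000200080000000000000000000008000000000000000000000000040000000000000008000000000000000000011000000010010020 := rS 0x1aad7ef8f9883303914ba352d8c4127d3f95cea012ca042615 (k8 c11531 c5564 c5380 c313 c53 c5440 c5353 c5358 (k8 c5442 c5438 c5476 c5474 c5324 c5321 c5326 c1564 (k4 c322 c10897 c3569 c5451 (k2 c1765 c2996 (k1 c5689 k0))))) (by decide +kernel)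
def c11753 : PP 9 3 T 0x1005000000000029000211080000000000000000040008000000000000000000000000000000000004000000000000000000000000000000000000000000 := rS 0x19836648ec2c9b49b459e8243b4fde8a208f6b0452e96c36f53c9fcea977ea5553294ea676eb70c9643a85088e41c042ba342689 (k8 c5567 c5564 c5381 c5353 c11750 c6008 c393 c10107 (k8 c9740 c5486 c313 c9698 c5533 c8057 c5530 c5412 (k8 c11660 c5489 c5488 c5405 c5404 c5440 c5358 c5441 (k8 c5477 c5475 c5474 c5321 c5326 c5226 c5560 c5340 (k8 c8187 c5583 c2938 c11751 c5672 c11551 c1975 c11752 (k4 c9848 c5648 c1676 c1064 (k2 c5654 c3617 (k1 c2329 k0)))))))) (by decide +kernel)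
def c11754 : PP 9 3 T 0x1000000000001000000080000000000000000040008000100000000000000000000000000000000000008008000000000000000000000000010000020 := rS 0xcf620e866072e8d4b6312b9d40259 (k8 c313 c53 c5440 c5353 c5476 c5474 c5324 c5321 (k4 c1564 c322 c9007 c10897 (k2 c1646 c899 k0))) (by decide +kernel)
def c11755 : PP 9 3 T 0x1000000000000000000211000000000000000100040008000000000000000000000000000000000000000000008400000000010000000000008010010400 := rS 0x48125151d229742615 (k8 c11531 c5564 c5321 c5326 c351 c10689 c9521 c900 (k1 c10074 k0)) (by decide +kernel)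
def c11756 : PP 9 3 T 0x1001000000000029000211080000000000000100040008000000000000000000000000000000000004000000000400000000000000000000000000000000 := rS 0x8a48ac4e22413b39a236648ec2c9b49b34ca860d8c4eead579a52efd33a5553294ea676eb714864e6590e82cda85088e41c042ba34de89 (k8 c5567 c5565 c5381 c5353 c11750 c6008 c393 c10107 (k8 c9740 c5529 c717 c5486 c313 c9718 c9698 c9692 (k8 c5533 c8057 c5530 c5412 c11660 c5489 c5488 c5487 (k8 c5405 c5404 c5403 c5406 c5490 c5356 c5476 c5475 (k8 c10850 c5733 c2073 c11754 c9848 c5648 c1676 c1064 (k8 c5654 c1481 c3617 c11755 c5651 c10436 c1092 c10165 (k2 c3602 c900 k0))))))) (by decide +kernel)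
def c11757 : PP 9 3 T 0x1000000000001000000080000000000000000040008000100001000015000000000000000000455000008000100000000000000014000000000048001 := rS 0x1035aac48c241e0e80e1b7a824fa7f2b8449615 (k8 c11531 c10387 c10107 c5353 c5358 c5442 c5438 c5477 (k8 c5475 c1564 c9007 c3569 c1570 c1681 c1092 c1095 (k2 c2349 c3623 k0))) (by decide +kernel)
def c11758 : PP 9 3 T 0x1000000000001000010080000000000000000040008000100001000001000000000000000000455001150410900000000000000014000000000040020 := rS 0x660d9923b0b26d26ff80b3da21b7a9e4ea010c8e41c57 (k8 c5353 c6008 c393 c9698 c53 c5440 c5441 c5477 (k8 c5475 c1975 c2394 c1977 c2396 c11757 c9848 c5648 (k4 c1676 c1064 c5654 c3617 (k1 c2329 k0)))) (by decide +kernel)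
def c11759 : PP 9 3 T 0x1001000000000029000211080000000000000000040008000000000000000000000000000000000004000000000000000000000000000000000000000000 := rS 0x5a3f93ee10b26d143d49d610c836fa847ee365907c48f4484d1a8122974b6c73e95d5aaf4bbf52aa994a762a9959864b21d088380815 (k8 c11531 c11750 c6008 c10107 c5486 c313 c9698 c5532 (k8 c5530 c5414 c5412 c11660 c5489 c5488 c5405 c5404 (k8 c5406 c5490 c5353 c5442 c5357 c5474 c5321 c5326 (k8 c5380 c5381 c5564 c5567 c5568 c11753 c5462 c5464 (k8 c5466 c5576 c5578 c5580 c11758 c10850 c11756 c11754 (k8 c5560 c8187 c9848 c5648 c10187 c1465 c901 c3620 (k1 c2572 k0))))))) (by decide +kernel)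
def c11760 : PP 9 3 T 0x28000000000000000000000000000000000000000000040000000400402000000004020000000000000000000000000000000000000000 := rS 0x80bfd62e15ab555aaf7eaa62ab3 (k8 c5532 c5414 c5489 c5405 c5406 c5490 c3000 c1200 (k4 c3060 c1198 c2507 c2078 (k1 c3623 k0))) (by decide +kernel)
def c11761 : PP 9 3 T 0x1005000000000029000011080000000000000000040008000000000000000000000000000000000004000008000000000000000000000000000000000000 := rS 0x246f4f285aecc7bb47be8271b3d8887658e86e33039746a5b189f4fe7594a676eb700864e6590ea147257819074209088380815 (k8 c11531 c11750 c6008 c10107 c5438 c11759 c8151 c11700 (k8 c5353 c393 c9740 c5486 c313 c9718 c9698 c53 (k8 c5533 c8057 c5530 c11660 c5440 c5358 c5442 c5476 (k8 c5474 c5324 c5321 c1564 c322 c1567 c9007 c1753 (k8 c11754 c10897 c1646 c8999 c5672 c5451 c1707 c1971 (k4 c6899 c11598 c11760 c5680 (k2 c2815 c10691 (k1 c318 k0)))))))) (by decide +kernel)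
def c11762 : PP 9 3 T 0x1005000000000029000011080000000000000000040008000000000000000000000000000000000004000000000000000000000000000000000000000000 := rS 0x2290c894684d9c7037b459aca1b27d42c91d859369322974b61b18bd4be793fab52efd33a5553294ea6432732c8750a392b896b1b75b8f7427d088380815 (k8 c11531 c11750 c6008 c10107 c5442 c11759 c8150 c5533 (k8 c8057 c5212 c9666 c5353 c393 c9740 c5486 c313 (k8 c9718 c9698 c5530 c5412 c11660 c5489 c5488 c5487 (k8 c5405 c5404 c5490 c5358 c5441 c5439 c5477 c5476 (k8 c5475 c5474 c5321 c5326 c11761 c9848 c5648 c1676 (k8 c1064 c1068 c1465 c5654 c5680 c2329 c1481 c1144 (k8 c8466 c3617 c318 c753 c2872 c11551 c8187 c11751 k0))))))) (by decide +kernel)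
def c11763 : PP 9 3 T 0x1001400000000049000111080000000000000000040008000000000000000000000040440400000000010108000100000000010000004000000000008001 := rS 0x44fbdfe8e46b519812620dc660721914ba352d8c4fe750eca472571e9f4820908c76b015 (k8 c11531 c5212 c5341 c10107 c5438 c8151 c5442 c8150 (k8 c5353 c393 c11660 c5486 c5440 c5358 c5476 c5474 (k8 c5324 c5321 c5326 c5478 c1564 c322 c1567 c10897 (k8 c3569 c11705 c3588 c947 c476 c2506 c5585 c2837 (k1 c8824 k0))))) (by decide +kernel)
def c11764 : PP 9 3 T 0x1001000000000029000011080000000000000000040008000000000000000000000000000000000004000000000000000000000000000000000000000000 := rS 0x235121345a411e6f7ffcd0cb467385a2cd1b27d923b0b26d27df6fb4d423f71b5d9681f10f6b1a122974b61b18bd4fa794bbf52aa994a762a9959edd6e010c9ccb21d428447257898380815 (k8 c11531 c11750 c6008 c953 c5353 c393 c10107 c9740 (k8 c5486 c313 c9718 c9698 c53 c5533 c8057 c5532 (k8 c5530 c5414 c5412 c11660 c5489 c5488 c5405 c5404 (k8 c5441 c5442 c5477 c5476 c5475 c5474 c5321 c5326 (k8 c11759 c5212 c8150 c11762 c5463 c5464 c5465 c5466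 (k8 c5576 c5578 c5579 c5580 c9525 c11763 c9848 c5648 (k8 c1676 c1064 c1465 c5654 c2329 c1481 c1483 c3617 (k8 c3620 c11551 c5548 c2572 c1149 c2402 c5675 c901 (k4 c318 c2118 c10035 c8187 k0))))))))) (by decide +kernel)
def c11765 : PP 9 3 T 0x2001000000000001000010000000000000000000040008000100000000000000000000000000000005001154000000000000004000000000000000000020 := rS 0x660d9923b0b26c36f50c8e41cd1 (k8 c5501 c6008 c393 c9698 c5477 c5475 c9848 c5648 (k4 c1676 c1064 c5654 c8724 (k1 c2329 k0))) (by decide +kernel)
def c11766 : PP 9 3 T 0x4000000000041000200080000000000000000000008000100000000000000000000000000000000000008000000000000000000000000000010010020 := rS 0x1a7ef451047b5822974b67f2ca342689 (k8 c5567 c5564 c5381 c313 c5358 c5474 c5321 c5326 (k4 c5226 c5560 c5340 c8187 (k2 c5583 c2938 (k1 c11752 k0)))) (by decide +kernel)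
def c11767 : PP 9 3 T 0x1000000000041000200080000000000000000040008000100001000015000000000000000000455000008000000000000000000000000000010008020 := rS 0xfc83e209a040211 (k8 c10107 c53 c5380 c5564 c11766 c5462 c5576 c11757 k0) (by decide +kernel)
def c11768 : PP 9 3 T 0x4000000000049000100080000000000000000000008000000000000000001000000000420000000000000000000040000000000000000010001050040 := rS 0x2c44e8d37354e2a04f90c8a1b3e9fcaead578744a4104c76b015 (k8 c11531 c5212 c5341 c5438 c8151 c9666 c5486 c5406 (k8 c5490 c5353 c5358 c5442 c5475 c5326 c5478 c10691 (k8 c5680 c2929 c3000 c5666 c948 c2813 c1147 c3582 k0))) (by decide +kernel)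
def c11769 : PP 9 3 T 0x5000000000049000100080000000000000000000008000000001000014001000400000420000404000000000000000000000000000000000000008060 := rS 0x206b150379aee15aa7fe68b471b89012229f55aaf7eaa45219398462615 (k8 c11531 c953 c10107 c9718 c9698 c9692 c5489 c5405 (k8 c5406 c5490 c5442 c5326 c11768 c475 c318 c476 (k8 c2976 c5588 c2815 c1149 c2846 c1766 c5691 c5680 (k2 c1198 c2517 (k1 c3623 k0))))) (by decide +kernel)
def c11770 : PP 9 3 T 0x1000000000029000011080000000000000000040008000000000000000000000000000000000004000000000000000000000000000000000000000000 := rS 0x22d13ef09235a83f6ba07c4cb8e9047b58d0b8d883a1981d24ff80fb1e2452e8d4b631049f4ae7556abd2efd4aaa6529d8aa6567b75b804b21d088380815 (k8 c11531 c11750 c6008 c10107 c5486 c313 c53 c5533 (k8 c8057 c5532 c5530 c5414 c5412 c11660 c5489 c5488 (k8 c5405 c5404 c5406 c5490 c5440 c5353 c5442 c5438 (k8 c5476 c5474 c5324 c5321 c5326 c9695 c11764 c5502 (k8 c5544 c11765 c1564 c322 c9007 c10897 c8999 c11767 (k8 c5212 c8150 c8151 c5341 c1753 c11769 c5463 c5465 (k8 c5576 c6627 c947 c11757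 c5585 c2837 c2976 c5673 k0))))))) (by decide +kernel)
def c11771 : PP 9 3 T 0x1000000000000000000011080000000000000000000008000000000000000000000000011000000000000108001004000000010000000500000010000040 := rS 0x7bb3d0487620dc6635798c5ea093c95cee75 (k8 c5440 c5356 c5353 c5441 c5438 c5477 c5476 c5325 (k8 c5324 c322 c1567 c10693 c898 c5732 c11551 c1971 (k1 c3587 k0))) (by decide +kernel)
def c11772 : PP 9 3 T 0x1002000000000009000011080000000000000000000008000000000000000000000000000000000004000100001000000000010000000100000001000040 := rS 0x18a6541b399216499746a5b0d8c412792b98cea694bbf43a674aaa6523b3db4536cd (k8 c5537 c5536 c5459 c5457 c5456 c11660 c5489 c5488 (k8 c5487 c5486 c5405 c5404 c5403 c5440 c5355 c5353 (k8 c5441 c5438 c5476 c5475 c5474 c5324 c5321 c11771 (k4 c5648 c1064 c8772 c2394 (k2 c5733 c5732 (k1 c10684 k0)))))) (by decide +kernel)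
def c11773 : PP 9 3 T 0x29000011080000000000000000040008000000000000000000000000000000000004000000000000000000000000000000000000000000 := rS 0x6e334905d90cf7bfb00ecd4db44f63bf00e50a0e1abcc36317a95d2e9554ca53a990c964081d (k8 c5486 c11750 c313 c9698 c5530 c5412 c11660 c5489 (k8 c5488 c5404 c5353 c5477 c5476 c5475 c5325 c5324 (k8 c6008 c9740 c393 c11770 c5456 c5457 c5459 c5536 (k8 c5537 c870 c11772 c5498 c5543 c8724 c1064 c5648 (k2 c5284 c1567 (k1 c3587 k0)))))) (by decide +kernel)
def c11774 : PP 9 3 T 0x1000000000001000000080000000000000000040008000100000000000000000000000000000000000008004404000000010000000000000010005401 := rS 0x215eecc67b107433039746af32dbd412c72b9dcebed (k8 c10404 c5440 c5356 c5353 c5357 c5438 c5477 c5474 (k8 c5325 c5324 c5321 c1564 c322 c9007 c10693 c1646 (k4 c10805 c2071 c2502 c3571 k0))) (by decide +kernel)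
def c11775 : PP 9 3 T 0x4000000000041000220080000000000000000040000000100000000000000000000000000000000001100000000001000000000000000000000801020 := rS 0xc29b6fb28909f5091c963d08896b00b07a44d63b40c4c2615 (k8 c11531 c5564 c5382 c5380 c1676 c5523 c5374 c5369 (k8 c717 c5226 c5559 c5558 c5560 c5342 c5562 c1068 (k4 c1465 c9111 c5680 c2947 (k2 c1327 c1755 (k1 c10443 k0))))) (by decide +kernel)
def c11776 : PP 9 3 T 0x40000000000000028000020000000000000000000040008000000000000000000000000440500000000010004000000000000000000400000000000020020 := rS 0x407deff6a40d9e4a4fac4e04912565e61b7aab55e974aa1d2283f683c166d2c8741a21 (k8 c5528 c315 c5486 c313 c5529 c717 c5369 c10404 (k8 c5525 c5374 c5373 c5488 c5404 c5406 c5490 c5477 (k8 c5475 c5325 c5558 c720 c3026 c719 c1092 c2757 (k8 c5660 c6082 c5720 c3618 c2568 c5585 c3073 c5694 k0)))) (by decide +kernel)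
def c11777 : PP 9 3 T 0x1001000000000000000200000000000000000000040008000100000000000000000600001020000000000001000004000000010000000400000000010000 := rS 0x8e12d1636800e59cd1ef975e615 (k8 c11531 c5325 c5321 c5451 c1706 c10805 c6897 c1653 (k4 c5654 c3068 c2592 c10689 (k1 c2140 k0))) (by decide +kernel)
def c11778 : PP 9 3 T 0x1000000000000000200000000000000000000040008000100000000000000000600008000000000000001000000000000010000000400000000010000 := rS 0x11c25a2c6d001c975e615 (k8 c11531 c5325 c5321 c2558 c1653 c5654 c3068 c2592 (k2 c10689 c2140 k0)) (by decide +kernel)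
def c11779 : PP 9 3 T 0x5000000000000000000000000000000000000000000008000000000400010000000000000000000000000000004400000000010008000000000000005400 := rS 0x21204f72ebccb6f5 (k8 c5477 c5474 c5325 c5321 c565 c9182 c3571 c2629 k0) (by decide +kernel)
def c11780 : PP 9 3 T 0x40001000000000000000220080000000000000000040008000100000000001000000600441000000005001150000000000000010000004000000000811420 := rS 0x68a6e04397f9209701f7b148a7d3f9dcea7b43a0fda0f6486d028d8984d1247678ed2215 (k8 c11531 c5374 c1676 c11778 c2789 c5567 c5564 c5382 (k8 c5381 c5380 c5475 c1064 c5369 c10404 c5525 c5373 (k8 c5372 c5440 c5356 c5358 c5442 c5326 c11777 c5861 (k8 c11742 c11779 c9111 c3006 c399 c5694 c1067 c2201 (k1 c3617 k0))))) (by decide +kernel)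
def c11781 : PP 9 3 T 0x1000000000000000020000000000000000000040008000100000000000000000000002040000000000000000000000000010000000400000000000000 := rS 0x852ebccb6f5 (k4 c5477 c5474 c5325 c5321 (k2 c2502 c8146 k0)) (by decide +kernel)
def c11782 : PP 9 3 T 0x1000000000029000220080000000000000000040008000100000000000000000000000000000004000000000000000000000000000000000000000020 := rS 0x1023b83e6df69a847ee36bb2fc513409f4f2977ea555299dbadd228f6486d9a3b0b24d06873d83c166d0688402194e9643ac7 (k8 c5357 c5486 c313 c5412 c9698 c53 c5528 c315 (k8 c5529 c717 c5369 c5372 c5373 c5525 c11774 c5648 (k8 c1676 c11781 c5475 c1064 c5526 c5374 c5533 c8057 (k8 c5530 c5489 c5488 c5405 c5404 c5441 c5442 c5380 (k8 c5382 c11775 c5464 c5465 c5466 c5576 c5578 c5579 (k4 c5580 c8118 c5846 c2789 (k2 c11780 c11776 k0))))))) (by decide +kernel)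
def c11783 : PP 9 3 T 0x8000120080000000000000200040008000000000000000000000000001800000004001100000000001000000000000400000000011020 := rS 0x684099edf7ffce02d3f7921151344a3426e138354de452e96cbe7f56a5dfa674aaa4e691f683c16590e92c8e15 (k8 c11531 c5562 c8919 c5486 c313 c717 c5369 c10404 (k8 c5374 c9718 c5489 c5488 c5487 c5405 c5404 c5490 (k8 c5358 c5439 c5474 c5321 c5326 c1144 c1660 c8466 (k8 c1718 c318 c753 c2872 c755 c8187 c9111 c5583 (k8 c2938 c3068 c5588 c3006 c2947 c8707 c5694 c10216 (k1 c2202 k0)))))) (by decide +kernel)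
def c11784 : PP 9 3 T 0x40001000000000040000120080000000000000000040000000100001000001004000440008400000400014000000100041000000000000400000000000000 := rS 0x6f38ad224e11b26c72793da44d68f1e9f42215 (k8 c11531 c9667 c5442 c8150 c5526 c5523 c5374 c5372 (k8 c5441 c2558 c2562 c5654 c1483 c5846 c5920 c755 (k2 c1148 c5666 k0))) (by decide +kernel)
def c11785 : PP 9 3 T 0x200000020000401100000000000000000000000000100000000000000000000014000000000000000001000000000000000000000000000 := rS 0xbbbbdecd789 (k4 c5527 c5523 c5375 c5613 (k2 c5430 c3605 k0)) (by decide +kernel)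
def c11786 : PP 9 3 T 0x1008000000000041000020080400000000400000000000000100400100000000010000000000014200000000000000009000000000000000000000000020 := rS 0x3e186faafbc9b95ee17ef8dc0ea7498fbc9f4ff7d3ddef128175fcdc7ef (k8 c5506 c5466 c8118 c5581 c5463 c5527 c5375 c5372 (k8 c9703 c5358 c5442 c5359 c5443 c6187 c5388 c5607 (k8 c5611 c9954 c1150 c2821 c11785 c5227 c5687 c8870 (k2 c1395 c5208 (k1 c5512 k0))))) (by decide +kernel)
def c11787 : PP 9 3 T 0x9000000000000000000800000000008000000000000000000140000000004000000400000000000000000001400015000000000800000 := rS 0xc177f9146a5dceb45723 (k8 c5351 c5601 c5602 c7665 c1070 c1467 c5681 c5473 (k2 c5618 c3592 k0)) (by decide +kernel)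
def c11788 : PP 9 3 T 0x1008000000000041000020080000000000400000000000000100400100000000010000000000014200000000000000009000000000000000000000000020 := rS 0x315a4 (k2 c6187 c11786 (k1 c5390 k0)) (by decide +kernel)
def c11789 : PP 9 3 T 0x10000000000000090000200800000000000000000000080001000001000000000100000004000142004100000000000090000014000010000000008000a0 := rS 0xef52e157ea35eeb18327dc0b6ef1eb395c82ed1fbafc5b74fb0cc015 (k8 c11531 c713 c4319 c1465 c8057 c5680 c5581 c5576 (k8 c5467 c9012 c5353 c11787 c11788 c9710 c9711 c9714 (k8 c962 c411 c972 c2822 c1468 c5431 c1151 c1071 (k2 c1504 c3622 k0)))) (by decide +kernel)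
def c11790 : PP 9 3 T 0x1000000000000009000120080000000000000000000008000100001100000001000000000400014400000000000000001000000000000200000500840020 := rS 0xb7eadf2fb90dfecd1fd45db73e5533a5181e582d44e6e38c48c00621914bb472d86f5e093f95d5aaf33e440629399643a0d0583d226b4790496558e91ca758409247fe2508953e3d3e8476e15 (k8 c11531 c8057 c9667 c5442 c8150 c1465 c9666 c1068 (k8 c5680 c5576 c399 c5463 c5212 c5563 c5562 c5341 (k8 c5343 c8919 c9012 c5526 c5523 c5374 c5369 c717 (k8 c315 c5486 c313 c9718 c9692 c54 c5491 c5487 (k8 c5406 c5490 c5353 c5358 c5438 c5479 c5475 c5474 (k8 c5327 c5321 c5326 c5478 c3569 c713 c3574 c755 (k8 c5666 c2813 c1148 c3582 c3584 c1147 c4765 c11789 (k8 c5470 c5428 c1809 c1808 c9714 c5227 c762 c3275 (k4 c3278 c3939 c3847 c5349 (k1 c3573 k0)))))))))) (by decide +kernel)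
def c11791 : PP 9 3 T 0x9000000000000000000800000000008000000000000008000140200000004000000001800000000000000001404415200000000800000 := rS 0x8cc5e364f5d391cea626c8ca249 (k8 c399 c5350 c5351 c5604 c11787 c1728 c1376 c1375 (k4 c402 c3134 c3352 c4716 (k1 c3596 k0))) (by decide +kernel)
def c11792 : PP 9 3 T 0x80000000000000000000000000000800000000000140000000400000000014000000000008000000000000000008000880000 := rS 0x52bbf0aa75fa8d7ac1c649f702dbb9f4ae15 (k8 c11531 c5353 c5442 c9710 c9711 c9714 c962 c584 (k8 c411 c2822 c1468 c3101 c5428 c1151 c2854 c1071 (k1 c3622 k0))) (by decide +kernel)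
def c11793 : PP 9 3 T 0x5008000000000009000020080000000000000000000008000100400100040000000200000004014204001800000000009000001404401200000000800020 := rS 0x7f59a03b720bb47eebf9b8dd21e (k8 c1066 c4765 c5466 c8118 c5581 c5576 c5467 c9012 (k4 c8057 c2143 c11788 c5694 (k1 c11791 k0))) (by decide +kernel)
def c11794 : PP 9 3 T 0x1000000000000009000120080000000000000000000008000100400100000000000200020410014004001100040000019000000000000200000000800060 := rS 0xd4442c586f6f7a686464309746a5b1897c1257319d55aaf34a5cce950c9643a6b6486c96552394eb08169c0dafe2508953e3d3e8476e15 (k8 c11531 c8057 c9667 c5442 c8150 c1465 c9666 c1068 (k8 c5680 c5465 c2201 c5579 c5463 c5212 c5563 c5562 (k8 c5343 c8919 c5475 c1064 c5523 c5486 c313 c9698 (k8 c5488 c5487 c5404 c5403 c5406 c5490 c5440 c5355 (k8 c5353 c5438 c5439 c5476 c5474 c5324 c5321 c1459 (k8 c10684 c10897 c10443 c8847 c2129 c3794 c11793 c8130 (k2 c3618 c2838 k0))))))) (by decide +kernel)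
def c11795 : PP 9 3 T 0x10000000000000090000200800000000000000000000080001004001000000000002000204000142040100000000000090000014000012000000008010a0 := rS 0x27c87164dd5945cf76b3299d2d47f407de030583ef789f9b8e06d7f16dd3e60 (k8 c713 c1465 c8057 c5680 c5465 c2201 c5466 c8118 (k8 c5527 c5375 c5369 c717 c54 c5506 c2143 c5694 (k8 c3012 c4340 c11789 c11788 c1809 c4277 c5350 c5600 (k4 c5604 c764 c3275 c402 (k1 c3575 k0))))) (by decide +kernel)
def c11796 : PP 9 3 T 0x1000000000000009000020080000000000000000000008000100501100000000000100020400014404011000000000009000001404401200000000800020 := rS 0x1198dc5c9eba7239d4c4d91945fcc3b3407def674ac0641e6aa695aaf4ba5482c90dbb5a6df75fcdc7036b9247fe2dba7d6a6b (k8 c5523 c1148 c1465 c8057 c5680 c5576 c399 c5465 (k8 c2201 c5466 c8118 c5581 c5580 c5579 c5467 c5475 (k8 c1064 c9012 c5488 c5404 c5406 c5490 c5920 c1710 (k8 c1066 c6627 c3618 c4765 c2129 c5506 c2143 c11788 (k8 c3794 c5694 c5350 c5351 c5604 c11787 c1728 c1376 (k4 c1375 c402 c3353 c2528 (k2 c4716 c3596 k0))))))) (by decide +kernel)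
def c11797 : PP 9 3 T 0x1000000000041000020080000000000400000040000000100400000000000050000000000014000000000000100009000000000000200008100000020 := rS 0xa04d167d5cabef27dd7bb9c2e3703a9c5e909f8fbc9f4ff11be9eef789 (k8 c5527 c5375 c5372 c9703 c9727 c5358 c5442 c5359 (k8 c5443 c8985 c6187 c5390 c5388 c5607 c5611 c1150 (k8 c11785 c2821 c9954 c5227 c5687 c5622 c8870 c3101 (k2 c2478 c5661 (k1 c362 k0))))) (by decide +kernel)
def c11798 : PP 9 3 T 0x1000000000029000020080000000000000000040008000100000000000001000000000000000004000000000000000000000000000000000000000020 := rS 0x3172127ddb02e7531375651b33a5a8c3589800ce08fa2cdc26388487037683159fdff9badbed31fbb5c6d740f89969f2991e3a55508f6b0250892f42cd648ec821649915e61b1897d8e7d56abd2efd4ac44469d8aae532b3dbadc02030c9ccf687bda0f13ed0782cda590e8344215 (k8 c11531 c5528 c315 c5486 c313 c5529 c717 c5369 (k8 c10404 c5527 c5525 c5375 c5373 c5372 c9718 c9698 (k8 c54 c53 c5533 c8057 c5532 c5530 c5415 c5414 (k8 c5412 c5409 c9727 c5488 c5405 c5404 c5406 c5490 (k8 c5442 c5357 c5439 c5476 c5475 c5325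 c5326 c11774 (k8 c5648 c9012 c1676 c1064 c11781 c11782 c8919 c9667 (k8 c9666 c5212 c8150 c1068 c5343 c5341 c5562 c5563 (k8 c1465 c11783 c5680 c5463 c5465 c5466 c5467 c5576 (k8 c5579 c5580 c5581 c8118 c9525 c11784 c10805 c5688 (k8 c1481 c5654 c11790 c2869 c317 c318 c2976 c11792 (k8 c11796 c11794 c713 c11795 c4319 c3618 c4340 c11797 (k8 c5350 c5600 c5604 c11787 c1728 c1153 c1809 c402 (k2 c320 c764 (k1 c3575 k0)))))))))))))) (by decide +kernel)
def c11799 : PP 9 3 T 0x1000000080000000000000000000000000100000000000000000000000000000000000100000004000000000000000500000000405420 := rS 0x364901cae19 (k4 c9698 c5353 c714 c5648 (k2 c11223 c1567 k0)) (by decide +kernel)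
def c11800 : PP 9 3 T 0x29000001080000000000000000040008000000000000000000000000000000000004000000000000000000000000000000000000000000 := rS 0x1bce2b48938d03e24fa842ccb1ed604a11d0b7d9a9b1cb8477e0479ad227b07e71e27d3cca6229d8aa6567b75b9cc1a2105810da15 (k8 c11531 c5529 c11750 c717 c5528 c315 c9718 c5533 (k8 c8057 c5532 c5530 c5414 c5412 c9727 c11660 c5441 (k8 c5442 c9695 c11773 c5369 c5372 c5374 c5523 c5526 (k8 c11798 c5456 c5460 c5534 c5536 c5537 c5538 c11748 (k8 c9667 c9666 c5212 c8150 c11783 c11799 c1068 c1465 (k8 c5680 c5463 c5466 c5846 c3620 c755 c1148 c5666 k0)))))) (by decide +kernel)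
def c11801 : PP 9 3 T 0x100000000000000a000010080000000000000000000008000000000000000000000000000000000004001100001000000000000000000080000000000000 := rS 0x1958a83671eda2cd18bd4be79319dcea694bbf4ce9554b253661 (k8 c5445 c5397 c5396 c5489 c5488 c5487 c5405 c5404 (k8 c5403 c5440 c5356 c5355 c5441 c5439 c5477 c5476 (k8 c2329 c1481 c10461 c3617 c2394 c5732 c5733 c10013 k0))) (by decide +kernel)
def c11802 : PP 9 3 T 0x1000000000000008000001000000000000000000000008000000000000000000000000000100000000001004000000400000010000000800000001008000 := rS 0xcc430c906177b3c46a1b18a5c3a95 (k8 c5488 c5486 c5404 c5476 c5475 c5324 c9695 c6724 (k4 c1676 c1971 c3577 c10850 (k2 c493 c2073 k0))) (by decide +kernel)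
def c11803 : PP 9 3 T 0x28000001080000000000000000040008000000000000000000000000000000000004000000000000000000000000000000000000000000 := rS 0xc532a0d9cd13df8076371ca141dedcea6d9293d816432044ca74be792b98cee7534a5dfa1d33a555329 (k8 c11660 c5489 c5488 c5487 c5486 c5405 c5404 c5403 (k8 c5440 c5356 c5355 c5353 c5441 c5439 c5412 c5530 (k8 c11750 c9698 c313 c11800 c5444 c5396 c5397 c8483 (k8 c11733 c6008 c9740 c393 c11801 c11802 c5654 c5457 (k4 c5459 c8772 c2394 c5733 (k2 c5732 c10013 k0)))))) (by decide +kernel)
def c11804 : PP 9 3 T 0x40006000000000010000000080000000000000000040000000100000400000000000000000000000000000000000100000000000000001040000000020000 := rS 0x501c9440248feb2093f95c1e0d1d8e48ee2479f5c27948b7cf79c (k8 c5211 c5372 c5538 c5374 c5441 c5460 c5442 c5526 (k8 c5846 c2347 c5534 c5456 c9673 c9737 c5353 c5358 (k8 c5438 c5558 c2907 c3026 c5655 c5660 c1734 c9151 (k1 c2588 k0)))) (by decide +kernel)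
def c11805 : PP 9 3 T 0x4000000000009000000000000000000000000000008000100000000000001000000000400000000014008000000000000000000011000010000000000 := rS 0x11d12ac44f58db0fc86450dab55e1d (k8 c5486 c5406 c5490 c5475 c5326 c5478 c327 c5680 (k4 c5655 c5570 c5421 c7601 (k2 c5341 c3582 k0))) (by decide +kernel)
def c11806 : PP 9 3 T 0x1002000000000009000221080000000000000000000008000000000100000000000000000000000004001108004000011400000000000000000000001002 := rS 0xfe8a407deb56b281ab0320b2d0806303c4bec73f98cee7534a5dfa6754ca5069befb34520304994367337fcfc63d4facdc48189a3cfae13ca45be7b (k8 c5372 c5538 c5374 c5441 c5460 c5442 c5526 c5382 (k8 c5380 c5846 c2458 c1607 c4189 c10517 c11668 c5565 (k8 c5379 c5475 c1056 c5438 c261 c9694 c5537 c6325 (k8 c5536 c5525 c11660 c5489 c5487 c5405 c5404 c5403 (k8 c5440 c5356 c5355 c5358 c5357 c5439 c9695 c3598 (k8 c10637 c3601 c1755 c1734 c2629 c1663 c11805 c11663 (k4 c1199 c5507 c10483 c3604 (k2 c5694 c3011 k0)))))))) (by decide +kernel)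
def c11807 : PP 9 3 T 0x1000000000000009000201080000000000000000040008000000000000000000000000000000000004000108000000000000000000000000000000000002 := rS 0xb18eedab11524bf9acd55032c82ce25bdd6a0a101b0e21159a7c7a477178fe71340bc48a35798c5ea7d3c9fd5f1135a1c1e5b069ed228fce0eda2e11cb7fbecdf06d53b29198746e2901824ca1b (k8 c5475 c1056 c5438 c261 c9694 c1567 c5486 c322 (k8 c11660 c9066 c11803 c5225 c5537 c6325 c5538 c5534 (k8 c5460 c5459 c5456 c5211 c5526 c5374 c5372 c9673 (k8 c5474 c9737 c8435 c9672 c9727 c5406 c5358 c5441 (k8 c5442 c5477 c5476 c5325 c5324 c5326 c9695 c5380 (k8 c5382 c11668 c10517 c5846 c2347 c4189 c1607 c2458 (k8 c11804 c667 c11806 c666 c665 c2610 c342 c2588 (k8 c3587 c10205 c1753 c11805 c3000 c11663 c1770 c3006 (k4 c3011 c5660 c5685 c5341 (k2 c5421 c8393 k0)))))))))) (by decide +kernel)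
def c11808 : PP 9 3 T 0x88000000080000000000000000040008000000000000000000001000000000000000000100000000000000000000000000000000000000 := rS 0x3a6ceb6 (k4 c8057 c7805 c2466 c7561 k0) (by decide +kernel)
def c11809 : PP 9 3 T 0x4000000000049000121000000000000000000000008000000001000000000000140000000000004010108000010000000000004010500000000000002 := rS 0x23513ef4235042ff69b5c909e219146a1b18ab52a330e8dc7b1d23d61968b391bc4a71089a47e15 (k8 c11531 c327 c5403 c9667 c667 c9666 c1060 c5666 (k8 c855 c1753 c5212 c5562 c5341 c8150 c1567 c5486 (k8 c322 c5488 c5490 c5476 c5475 c5324 c5326 c5478 (k8 c5680 c11678 c1605 c2882 c3006 c345 c3588 c11603 (k4 c5585 c2837 c950 c5673 k0))))) (by decide +kernel)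
def c11810 : PP 9 3 T 0x1000000000000009000001080000000000000000040008000000000000000000000000000000000004000108000000000000000000000000000000000010 := rS 0x6c599849081f12862a72239bc824b38d604a11d0800463701824fa6388837386b4e8edc2394db7f6ee5f06d65215 (k8 c11531 c11660 c11803 c5225 c5539 c11808 c5538 c5536 (k8 c5534 c5460 c5456 c9066 c9672 c5211 c9673 c9727 (k8 c5355 c5442 c5438 c261 c1567 c481 c5642 c11807 (k8 c9667 c9666 c5212 c667 c8142 c8151 c1060 c5562 (k8 c5666 c1290 c1196 c11809 c5463 c11685 c929 c2895 (k2 c10443 c934 k0)))))) (by decide +kernel)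
def c11811 : PP 9 3 T 0x2000000000051000220080000000000000000000000000000001100000000000000000000000000001100000000000000000000000000000000000000 := rS 0x5a1b3e6b37144d1e7d70a45be793f9ed02c7 (k8 c5357 c5380 c5372 c5358 c5441 c5538 c5374 c5460 (k8 c5442 c5526 c5382 c3610 c2458 c11668 c11748 c5685 (k1 c2610 k0))) (by decide +kernel)
def c11812 : PP 9 3 T 0x19000200080000000000000000040008000100000000000000000000000000000004000104000000000000000000000000000000000000 := rS 0x1328162cb8a4744a9f14d61c5e3f9c4d0243639f4f27f56c44f69147e713ae16feddcbe0 (k8 c5225 c5539 c11808 c5538 c5460 c9066 c5211 c5526 (k8 c5374 c5372 c9727 c5490 c5358 c5441 c5442 c5357 (k8 c5478 c5380 c5382 c11668 c10517 c3610 c5231 c9421 (k8 c1607 c5559 c5341 c11811 c1292 c1294 c5680 c6206 (k1 c2928 k0))))) (by decide +kernel)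
def c11813 : PP 9 3 T 0x2000000000001000120080000000000000000000008000100100000001000000000000800000005001154000000000540000004400000000010010010 := rS 0x3fe031259234e4497bb12067110194d8ce0018592030b455aa1921915e61b7a97cc6773ab453629 (k8 c8199 c5536 c5459 c5440 c5356 c5355 c5439 c5477 (k8 c5475 c5325 c5326 c5478 c1320 c1660 c1292 c5648 (k8 c1107 c1064 c1460 c5642 c8772 c10443 c1056 c10507 (k8 c667 c2634 c3597 c342 c345 c8466 c948 c934 (k4 c933 c2901 c2571 c3593 k0))))) (by decide +kernel)
def c11814 : PP 9 3 T 0x51000100080000000000000000040000000100000000000000000000000000000000008004000000000000000000000000000000000000 := rS 0x5a088e61f010043017ce26fc0291e844fa15 (k8 c11531 c5442 c9667 c8150 c8199 c5225 c5536 c5211 (k8 c1465 c5648 c9699 c9701 c1164 c9719 c6197 c11608 (k1 c1339 k0))) (by decide +kernel)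
def c11815 : PP 9 3 T 0x2000000000058000120080000000000000000000008000000000000000001000000000000000004020104000000000000000000000000000000000000 := rS 0x33d0ae389b17e4d646455606e5aacc4ed5399c486450d9fcc6773aab55e1d3da0d36cd148963b58 (k8 c5212 c5341 c9666 c8199 c5537 c5536 c5525 c5372 (k8 c5486 c5406 c5490 c5440 c5356 c5355 c5358 c5475 (k8 c5326 c5478 c2929 c1196 c3000 c2928 c2934 c1199 (k8 c5666 c3582 c1294 c1147 c1198 c5685 c948 c5547 (k4 c5549 c949 c1769 c8115 k0))))) (by decide +kernel)
def c11816 : PP 9 3 T 0x51000100080000000000000000040008000100000000000001000000000400000054010104000000001000000000000000000010000010 := rS 0x8a2c16a221387cdc020c1cc021738accc0432286cbec731c44d69d4d8a44b1dac7ce248171f893e8f3eb84f2916ff80f79c (k8 c5211 c5372 c5225 c5538 c5374 c5441 c5460 c5442 (k8 c5526 c11814 c5680 c5466 c5463 c5846 c8118 c5212 (k8 c5341 c9666 c8199 c5536 c9066 c9672 c9727 c5355 (k8 c5357 c5439 c5475 c5326 c5478 c3598 c2456 c755 (k8 c1460 c662 c930 c5648 c5642 c5666 c1164 c380 (k4 c6197 c4033 c3582 c5920 (k1 c1294 k0)))))))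 (by decide +kernel)
def c11817 : PP 9 3 T 0x2000000000010000100080000000000000000000000000000000000000000000400000000000000010104000100002000000004404000001040010002 := rS 0xb2241c86e6f38984465f3e9fcc63b708e5be15 (k8 c11531 c5538 c5534 c5460 c5456 c5355 c5358 c5442 (k8 c5439 c9731 c662 c667 c1060 c8484 c9934 c10446 (k2 c934 c2895 k0))) (by decide +kernel)
def c11818 : PP 9 3 T 0x19000000080000000000000000040008000100000000000001000000000000000004000104000000000000000000000000000000000010 := rS 0x584504eb5112cc04730087cd912f98fdc681f12853ecb23c7497581284453a121914367d3cab55e694bbf43a674aaa41a6b3da451f9c4eb8536dfdbb97c015 (k8 c11531 c5225 c5539 c11808 c5538 c5536 c5460 c9066 (k8 c5211 c5526 c5374 c5372 c9672 c9673 c5489 c5488 (k8 c5487 c5486 c5405 c5404 c5403 c5406 c5490 c5441 (k8 c5442 c5475 c5326 c5478 c11812 c8199 c9667 c9666 (k8 c5212 c8142 c5341 c5562 c11813 c11814 c11815 c5680 (k8 c5463 c5466 c5576 c8118 c5846 c11816 c2316 c11817 (k8 c9719 c5642 c2457 c6197 c1339 c486 c5920 c3582 (k1 c1294 k0)))))))) (by decide +kernel)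
def c11819 : PP 9 3 T 0x9000001080000000000000000040008000000000000000000000000000000000004000100000000000000000000000000000000000010 := rS 0x33defec1b8cd24f11abcc62f50e8eda23966f836b29 (k8 c11660 c11803 c5225 c5537 c5534 c5459 c5456 c5486 (k8 c5477 c5476 c5325 c5324 c9695 c11818 c322 c1567 (k4 c11810 c5498 c5543 c3587 k0))) (by decide +kernel)
def c11820 : PP 9 3 T 0x4000000000009000020000000000000000200000008000100000400000001000800000000000004010008000000000000000000000000010000000002 := rS 0x21204216a2d1a6d74f0fc86451a86c62ad4a8cc3a3d8e92d9641 (k8 c5340 c1753 c5342 c5341 c4189 c5486 c322 c5488 (k8 c5490 c5476 c5475 c5324 c5326 c5478 c327 c11805 (k8 c1605 c2882 c1608 c3588 c2608 c1663 c11603 c2629 k0))) (by decide +kernel)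
def c11821 : PP 9 3 T 0x40004000000000059000000000000000000000000040008000100000400000001000800000000000004000008110000044000000000000000010000000002 := rS 0x33a03ef1bbdd141f7fac628b56aa8166cb389042225ac0d5e6317aab55e697e99d5291ce344729b668cc3a231df80ca1b (k8 c5475 c1056 c5225 c5456 c481 c5486 c322 c5537 (k8 c5536 c5534 c5459 c5211 c5374 c5489 c5487 c5405 (k8 c5403 c5406 c5490 c5477 c5476 c5325 c5324 c5231 (k8 c5559 c5558 c5340 c667 c1753 c2459 c11820 c3000 (k8 c1199 c5685 c1294 c3011 c1086 c3602 c8123 c1568 (k4 c5583 c3068 c3587 c10438 k0)))))) (by decide +kernel)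
def c11822 : PP 9 3 T 0x98000000080000000000000000040008000000000000000000001000000000000000000000000000000000000000000000000000000000 := rS 0x1f4746e6ceb6 (k4 c8057 c7805 c5616 c7561 (k2 c5232 c5555 k0)) (by decide +kernel)
def c11823 : PP 9 3 T 0x19000200080000000000000000040008000100000000000001000000000000000004000008000000000000000000000000000000000002 := rS 0xe2f1fcd126f89a350273639f4f27f3da451f9c70b7f6ee5f00a40609 (k8 c5438 c261 c9694 c5225 c5539 c11822 c5538 c5460 (k8 c5211 c5526 c5374 c5372 c5358 c5441 c5442 c5357 (k8 c5379 c5380 c5381 c5382 c5565 c5567 c11668 c10517 (k2 c3610 c11821 k0)))) (by decide +kernel)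
def c11824 : PP 9 3 T 0x8000000000000000000000000000000000000000500000000000000000000000004000000204400080410000000000000000000000000 := rS 0x10a6d34bf4cea9 (k4 c5489 c5487 c5405 c5403 (k2 c933 c949 (k1 c3601 k0))) (by decide +kernel)
def c11825 : PP 9 3 T 0x40000000000000040000100080000000000000000000000000000001000000000000540000000000000000208000000000000000004004500000000000000 := rS 0x360f92564230891eb015 (k8 c11531 c5212 c5562 c9667 c481 c5802 c2895 c2321 (k2 c10446 c1568 k0)) (by decide +kernel)
def c11826 : PP 9 3 T 0x48000101080000000000000000000008000000000100000000000140000000000004008208004400080410000004000500000000000000 := rS 0x214daff59b8be71246227ded469b5c86451a8c55afd33a5552330e8f4fb1dac32c821104c5516691fa84c615 (k8 c11531 c5355 c1196 c327 c5403 c855 c1290 c5438 (k8 c9667 c8151 c1753 c5212 c5341 c5442 c8150 c5486 (k8 c322 c5489 c5488 c5487 c5405 c5490 c5476 c5324 (k8 c5326 c5478 c1605 c2882 c3588 c5585 c2837 c5673 (k8 c11824 c5547 c11825 c2459 c2575 c934 c950 c3601 k0))))) (by decide +kernel)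
def c11827 : PP 9 3 T 0x9000001080000000000000000040008000000000000000000000000000000000004000008000000000000000000000000000000000010 := rS 0x3e6e3f127c7ea18a9c9966f38904962508e84ca0001bc4360931c44d6870796c1a83ce0edc2396feddcbe094ed53015 (k8 c11531 c11819 c11803 c11660 c5225 c5539 c11822 c5538 (k8 c5534 c5460 c5456 c5211 c5525 c9673 c5474 c9737 (k8 c8435 c9672 c9727 c5355 c5438 c5475 c9695 c261 (k8 c5642 c1056 c11823 c9667 c9666 c8142 c8151 c667 (k8 c1060 c1753 c5666 c1290 c1196 c327 c11826 c5680 (k2 c5466 c8118 (k1 c11825 k0))))))) (by decide +kernel)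
def c11828 : PP 9 3 T 0x4000000000011000000080000000000000000040008000100100000000000000800000000000005000254000100004140000004401000001010010002 := rS 0x3fe070124b5d65156232992207b858e2613288c324322bcc36f52f9f4fe633b9d53a1f (k8 c2318 c9066 c5440 c5356 c5355 c5358 c5442 c5439 (k8 c5477 c5475 c5325 c5326 c5478 c9699 c9731 c1056 (k8 c662 c667 c5648 c8123 c5650 c1064 c9210 c3597 (k8 c1292 c1760 c1765 c345 c2901 c2460 c2575 c3593 k0)))) (by decide +kernel)
def c11829 : PP 9 3 T 0x51000200080000000000000000040008000100000000000001000000000000000055000254000000000140000000000000000010000010 := rS 0x1671565ac16a18138882e020091c971d1e8444a29ac38bc7f33784e268121914365f639f4f27f3da451f9c70b7fc01f (k8 c2318 c5225 c5538 c5460 c5211 c5526 c5374 c5372 (k8 c5358 c5441 c5442 c5357 c5439 c5475 c5326 c5478 (k8 c5380 c5382 c5564 c5565 c11668 c10517 c3610 c5231 (k8 c9421 c5559 c5558 c5560 c5341 c5342 c5562 c11828 (k8 c5642 c1107 c6197 c267 c5648 c1339 c3582 c1320 (k2 c1294 c2459 (k1 c5685 k0))))))) (by decide +kernel)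
def c11830 : PP 9 3 T 0x8000000100000000040000000400800000005000200000000000000000005400000000000000000 := rS 0x10380bfd64e221915e6f5 (k8 c5477 c5325 c5326 c5478 c1759 c1760 c2575 c2901 (k2 c2460 c3593 k0)) (by decide +kernel)
def c11831 : PP 9 3 T 0x9000001080000000000000000040008000000000000000000000000000000000004000000000000000000000000000000000000000012 := rS 0x203037faca248df9b8d03e265b5c92c445c5542c939081ee16379c4c2651186486457986dea5f3e9e4c6773ac44f69141a3f38e16f87c4a9f258441b1d23d6342934c2a52a670ea5cd2af56bc76ee5f04a76a15 (k8 c11531 c11803 c11660 c5225 c5539 c11822 c9695 c5490 (k8 c5406 c5403 c5404 c5486 c5487 c5488 c5489 c11819 (k8 c11827 c11829 c5212 c5562 c5341 c9673 c9667 c8142 (k8 c11814 c9666 c2318 c5538 c5460 c5211 c5526 c5525 (k8 c5374 c5372 c9727 c5440 c5356 c5355 c5441 c5442 (k8 c5439 c5477 c5475 c5325 c5326 c5478 c9699 c9731 (k8 c1056 c662 c667 c1060 c5648 c8123 c5650 c5666 (k8 c1064 c1068 c1290 c855 c3597 c345 c1766 c11830 (k8 c5680 c5463 c5466 c8118 c947 c5846 c5802 c2571 (k2 c10681 c2901 (k1 c3593 k0)))))))))))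 (by decide +kernel)
def c11832 : PP 9 3 T 0x6000000000051000120080000000000000000000000000000001000000000000000000400001240004000000000040000000000000000000000000000 := rS 0x67a15c71346317e46e6b2cce2c8501fcee753da0d9adf (k8 c5538 c5537 c5525 c5372 c5440 c5356 c5358 c5680 (k8 c9422 c2929 c2933 c1198 c5666 c5685 c11609 c1147 (k4 c5547 c5549 c949 c1769 (k1 c8115 k0)))) (by decide +kernel)
def c11833 : PP 9 3 T 0x9000001080000000000000000040008000000000000000000000000000000000004000000000000000000000000000000000000000010 := rS 0x5944be6a171a07c5155809d96180b808e6015ac753f58128a742934c3c486450d97cfa7956abcd2970e99d2aa93da451f9c70a6dbfb772f8253b5 (k8 c11803 c11660 c5225 c5539 c11822 c5538 c5536 c5460 (k8 c5211 c5526 c5374 c5372 c5489 c5488 c5487 c5486 (k8 c5404 c5403 c5406 c5490 c5441 c5442 c5439 c5475 (k8 c5326 c5478 c9695 c11819 c11827 c11829 c8199 c9666 (k8 c5212 c11814 c5341 c2613 c11831 c9719 c5642 c1107 (k8 c5648 c1320 c380 c3582 c1294 c11832 c5463 c5466 (k4 c5578 c8118 c5846 c5920 (k1 c2457 k0)))))))) (by decide +kernel)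
def c11834 : PP 9 3 T 0x51000200080000000000000000040008000100000000000000000000000000000000000008000000000000000000000000000010000020 := rS 0x42b1e3f99e4f69147e71bfe0 (k8 c5225 c5538 c5211 c5526 c5374 c5372 c5441 c11668 (k4 c10517 c5231 c11766 c5558 k0)) (by decide +kernel)
def c11835 : PP 9 3 T 0x101000000000000000000000000000000000000008000000000000000000000000000540000000000000000000000000000000000 := rS 0x113ef (k2 c5586 c2839 (k1 c5673 k0)) (by decide +kernel)
def c11836 : PP 9 3 T 0x48000100000000000000000000000000000000000000044000000000000000001504000000000000000000000000000000008000000820 := rS 0x403e51556abdfaa9008448f58 (k8 c5212 c5562 c9667 c53 c5489 c5405 c5406 c5490 (k4 c8636 c8402 c3623 c5592 k0)) (by decide +kernel)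
def c11837 : PP 9 3 T 0x4000000000059000101080000000000000000000008000000000000000000000000000000000004000008400404000400000000000500000000001020 := rS 0x201f28a8786c0b7fc0d1ab16aa81aeb54facd166e131c424f122ab55efd54ca41e0314864e6c403804ea572c9dc661d128f4facb208441215 (k8 c11531 c5438 c9667 c8151 c1753 c5442 c8150 c9666 (k8 c5486 c322 c5356 c313 c5353 c5440 c53 c1564 (k8 c10693 c9718 c9698 c9692 c54 c9737 c11660 c5489 (k8 c5405 c5406 c5490 c5326 c9695 c11768 c2869 c317 (k8 c318 c2976 c8280 c2815 c1148 c1766 c11805 c3000 (k8 c1198 c948 c10681 c11835 c11836 c11223 c1568 c1086 (k2 c5685 c3623 (k1 c5592 k0)))))))) (by decide +kernel)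
def c11838 : PP 9 3 T 0x9000001080000000000000000040008000000000000000000000000000000000004000008000000000000000000000000000000000000 := rS 0x45a27de1246b507ed740f8a3a411ed6023a16201c6645049f4fe573b9d41a6b3da0d1f9c1d8e76ee5f04a76a012c8103a15 (k8 c11531 c5486 c11833 c313 c53 c11803 c11660 c5225 (k8 c5539 c11822 c5534 c5456 c5211 c5526 c5525 c5372 (k8 c9672 c9673 c5440 c5356 c5353 c5358 c5442 c5438 (k8 c5326 c322 c1564 c10693 c11834 c9667 c5212 c8150 (k8 c8151 c5341 c11837 c5463 c5465 c5576 c6627 c947 (k4 c3569 c5585 c2837 c2976 (k1 c5673 k0))))))) (by decide +kernel)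
def c11839 : PP 9 3 T 0x19000200080000000000000000040008000100000000000000000000000000000004000004000000000000000000000000000000000020 := rS 0x8a32890a10592c222523a7c401fac38931e3f984e2681639f4f27f07834f69147e713ae16feddcbe0208583215 (k8 c11531 c9698 c5648 c9012 c5225 c5539 c11822 c5538 (k8 c5460 c9066 c5211 c5526 c5374 c5372 c9673 c9737 (k8 c5358 c5441 c5442 c5357 c5380 c5382 c5564 c11668 (k8 c10517 c11812 c3610 c5231 c2318 c1464 c4146 c2348 (k8 c5559 c5558 c5342 c718 c1068 c3574 c5680 c345 (k1 c1292 k0)))))) (by decide +kernel)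
def c11840 : PP 9 3 T 0x80002000000000008000000080000000000000000000000000000000000000000000000000900000004000001480004000000000000000000000000000000 := rS 0x6b339009971c4cfa794bbf52aa968b8536df (k8 c5538 c5536 c5460 c5459 c5489 c5488 c5405 c5404 (k8 c5441 c5442 c5547 c5549 c1759 c5846 c8772 c857 (k1 c1769 k0))) (by decide +kernel)
def c11841 : PP 9 3 T 0x44006000000000058000000000000000000000000000000000000001000000000000000140100000004001100000000000000000000000000000000000000 := rS 0x166b5713f9acceefa5dfa9554b4536cd (k8 c5537 c5536 c5459 c5489 c5488 c5405 c5404 c6325 (k4 c8772 c5689 c1770 c1769 (k2 c2572 c2458 (k1 c5685 k0)))) (by decide +kernel)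
def c11842 : PP 9 3 T 0x6000000000059000100080000000000000000000008000000000000000000000000000000000004005005400004000000000000000000000000801020 := rS 0x8992416b51007d31f369fbd14894684ce1156a9bd94452e96cbe7f56a5cce0f399643ac90d92c22a11291eb015 (k8 c11531 c5212 c5562 c9666 c1068 c9667 c8919 c5475 (k8 c1064 c5486 c313 c9718 c9737 c5487 c5404 c5490 (k8 c5358 c5439 c5474 c5321 c5326 c5680 c1144 c1660 (k8 c1292 c8466 c318 c753 c2872 c8187 c5583 c2938 (k8 c11840 c11841 c2318 c1464 c2613 c718 c345 c756 (k1 c3574 k0)))))) (by decide +kernel)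
def c11843 : PP 9 3 T 0x48000100000000000000000000000008000000000000000000000000000000000000000000040000004000000000000000000000000020 := rS 0x1128d3804c8a5d2dab4ce732c8742358 (k8 c5212 c9667 c5486 c313 c9718 c5487 c5490 c5474 (k4 c5321 c5326 c318 c5666 (k2 c753 c2872 (k1 c8187 k0)))) (by decide +kernel)
def c11844 : PP 9 3 T 0x40002000000000058000100000000000000000000000008000000000800000000000400440500000004015100000000000400000000000000000000000020 := rS 0x80fbda8ff58c516a6e45c0d9ded56abd2efd4aaa5a2e14db356673 (k8 c9718 c2457 c5537 c5536 c5460 c5459 c5489 c5488 (k8 c5405 c5404 c5406 c5490 c8724 c8772 c2633 c859 (k8 c11843 c1148 c5685 c1294 c3011 c3618 c5585 c3072 (k1 c5694 k0)))) (by decide +kernel)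
def c11845 : PP 9 3 T 0x9000001080000000000000000040008000000000000000000000000000000000004000000000000000000000000000000000000000000 := rS 0x227de8b46b504c6e423fd62717b82e28b50fa616712f9b4dc6d765a07c51d50a7eb025d0b242c932c88ce619148136ee56fb87c09d21975e61b7a9f4f2ad57a5c3a95949ad0e0f2d834f69141a3f39b5 (k8 c11803 c5211 c5526 c5525 c5374 c5372 c9673 c5474 (k8 c9737 c8435 c9672 c11660 c5488 c5486 c5404 c5406 (k8 c5490 c5441 c5442 c5477 c5475 c5325 c5321 c5478 (k8 c9066 c5225 c5460 c5538 c5539 c11822 c11833 c9692 (k8 c9698 c9718 c9734 c313 c11838 c5648 c1064 c11839 (k8 c9666 c5212 c11814 c1068 c5341 c11842 c5463 c5464 (k8 c5465 c5466 c5579 c8118 c5846 c2457 c11844 c2318 (k8 c2613 c5802 c718 c8123 c756 c1294 c3011 c3571 (k8 c5666 c6206 c3618 c950 c4918 c5585 c2837 c5673 k0))))))))) (by decide +kernel)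
def c11846 : PP 9 3 T 0x5000000000000000000000000000000000100040008000100001000011001000080000900001455000054000000000000000004004000000011400000 := rS 0x688e99bed1cbf880d7ef8f464350d8c5aa37 (k8 c2332 c1660 c5476 c5475 c5324 c3577 c1489 c5492 (k8 c2186 c5655 c10153 c546 c5544 c2507 c5654 c2130 (k1 c6899 k0))) (by decide +kernel)
def c11847 : PP 9 3 T 0x5000000000000000200000000000000000100040008000100001000011001000080000900001455000055400000000400400004004000000011000010 := rS 0xf1b074711c890803d1480c2d1139c4cde37 (k8 c2332 c5565 c5382 c5379 c9727 c11846 c1107 c9694 (k8 c1490 c5655 c1737 c546 c2755 c5654 c3604 c1677 (k1 c2316 k0))) (by decide +kernel)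
def c11848 : PP 9 3 T 0x5000000000050000200080000000000000000040008000100000000000001000000000900000000000054000000000000000000000000000011420000 := rS 0x42bfd98cf1d34872406bf7c7a321a86c628d4492e02376f3851e7d89a45c7f2ac9e4f79c40b1c7e7f (k8 c5358 c2907 c5357 c5380 c5211 c5372 c5441 c5558 (k8 c5231 c5549 c5374 c5382 c5442 c5526 c5591 c3610 (k8 c2332 c5592 c5546 c5567 c5381 c5476 c5475 c5324 (k8 c3577 c1489 c5492 c2186 c5655 c546 c545 c5654 (k4 c1646 c493 c2943 c2502 (k1 c11635 k0)))))) (by decide +kernel)
def c11849 : PP 9 3 T 0x5000000000050000200080000000000000000040008000100000000001001000000000900000055000054000000000000000000000000000011020010 := rS 0x3a100e448401e8a40616590ddbd0170c55c6b525fc87f592fb1cfa793f9acf69147e710313 (k8 c5382 c5380 c5211 c5526 c5374 c5372 c9672 c5358 (k8 c5441 c5442 c5357 c5439 c5558 c2907 c5231 c5546 (k8 c5548 c5549 c5590 c5591 c5592 c3610 c2332 c11847 (k8 c11848 c1107 c9694 c1490 c5655 c1737 c546 c2761 (k2 c5654 c340 k0))))) (by decide +kernel)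
def c11850 : PP 9 3 T 0x5000000000040000200080000000000000100040008000100001000011001000080000900001455010055400000000400000005000000000011015010 := rS 0x700a1b91c4c3b128a47c5f63c4c2615 (k8 c11531 c5564 c5382 c5357 c5439 c11847 c404 c2909 (k4 c494 c5651 c2864 c2331 (k2 c3574 c5654 (k1 c2470 k0)))) (by decide +kernel)
def c11851 : PP 9 3 T 0x2000000080000000000000100000000000000000100000000000080000800000000000000000004000400000000000080000000400010 := rS 0x260f8a4d8461f274bec73c98c329b (k8 c5397 c5393 c5355 c5441 c5357 c5439 c1479 c2332 (k4 c2331 c10556 c404 c2316 (k2 c9148 c2865 k0))) (by decide +kernel)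
def c11852 : PP 9 3 T 0x80000000000000000000200000000000000000000000000000000000000000000000000000040000000000001400000000000000000001200000000015000 := rS 0x11c17130992c9215 (k8 c11531 c5588 c5546 c5564 c5382 c2470 c2477 c3574 k0) (by decide +kernel)
def c11853 : PP 9 3 T 0x80001000000000052000200080000000000000100040008000100000000000001000000000800000000000050000000000000000000000000000010410010 := rS 0x1acff42b3074391bf7c7a321a86c631107834d6930cb251a896ac0e02de70a3cfb1348b8cf27f3de7102c7 (k8 c5357 c5380 c5211 c5372 c5358 c5441 c5549 c5374 (k8 c5382 c5442 c5526 c5591 c3610 c5592 c5550 c1660 (k8 c5567 c5381 c5396 c5393 c5444 c9672 c9673 c9737 (k8 c9727 c5476 c5475 c5324 c3577 c1489 c5492 c11851 (k4 c11852 c5654 c493 c2502 (k2 c2507 c11635 (k1 c2191 k0))))))) (by decide +kernel)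
def c11854 : PP 9 3 T 0x20080000000000000000000000000000000000000000000000000000000000000504000000000400000000000080000000000002 := rS 0x2744223 (k4 c9731 c2418 c1480 c10507 k0) (by decide +kernel)
def c11855 : PP 9 3 T 0x80005000000000052000200080000000000000100040008000100000000001001000000000800000055000050000000000000000000000000000010000010 := rS 0x1004a3f0388474371c8f4002901859645f0495c1e0d35a8536990984592194992d6a498ac05bce1479f62691719e4fe7bce2058e15 (k8 c11531 c5357 c5380 c5211 c5372 c5358 c5441 c5549 (k8 c5374 c5382 c5442 c5526 c5591 c3610 c5592 c5590 (k8 c5588 c5548 c5546 c5444 c5393 c5396 c11849 c5564 (k8 c5447 c5397 c5398 c9672 c9673 c9737 c5353 c5438 (k8 c5439 c11850 c11853 c1107 c9694 c5642 c1490 c11852 (k8 c11854 c5654 c340 c1674 c494 c2761 c3569 c1737 k0)))))) (by decide +kernel)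
def c11856 : PP 9 3 T 0x80005000000000052000200080000000000000000040008000100000000001001000000000800000055000050000000000000000000000000000010000010 := rS 0x7e071d0dc72471ed61bce124b8c12c73e9e4fe5707834f69147e71031308b243293 (k8 c5444 c5393 c5396 c11849 c5382 c5380 c5211 c5526 (k8 c5374 c5372 c9673 c9737 c5353 c5358 c5441 c5442 (k8 c5357 c5438 c5549 c5588 c5591 c3610 c11855 c5560 (k4 c5562 c11852 c2331 c5654 (k2 c1674 c494 (k1 c9764 k0)))))) (by decide +kernel)
def c11857 : PP 9 3 T 0x40000000000000052000200080000000000000000000000000000000100000000000040000800000000000001400004000400000000000080000000400000 := rS 0xb25ab8a2a6c70a74bec73e9e4fe634da650313 (k8 c5382 c5380 c5447 c5397 c5355 c5358 c5441 c5442 (k8 c5357 c5439 c1479 c4156 c10556 c1292 c3610 c2610 (k2 c5685 c2458 k0))) (by decide +kernel)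
def c11858 : PP 9 3 T 0x10000200000000000000000000040000000000000000000000000000000840000000000000000000000000000004400200000001410000 := rS 0x45440487187c162307835228fce44c2615 (k8 c11531 c5564 c5382 c5211 c5526 c5374 c9673 c9737 (k8 c395 c2470 c2473 c2617 c3574 c5650 c1293 c345 k0)) (by decide +kernel)
def c11859 : PP 9 3 T 0x200080000000000000200000000000000000000000000000040000000000000000000000004000000000000000800000000000000 := rS 0xfc0e093e9fcae3d (k8 c5560 c5353 c5358 c5442 c5438 c1674 c495 c9764 k0) (by decide +kernel)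
def c11860 : PP 9 3 T 0x40001000000000052000200080000000000000000040000000100000000000000000040000800000000000000000000000000000000000000000000410000 := rS 0x723763c44d6914786496471dd60f79c (k8 c5211 c5372 c5231 c11859 c5562 c5342 c5393 c5526 (k4 c5374 c9672 c9727 c5357 (k2 c11857 c11858 (k1 c5654 k0)))) (by decide +kernel)
def c11861 : PP 9 3 T 0x40001000000000052000200080000000000000000040000000100000000000000000040000800000000000000000000000000000000000000000000010010 := rS 0x822a480fb8c16381b88c00030b0ecbec707834d67b48a3f38934da6626132591eb015 (k8 c11531 c5231 c5562 c5342 c5564 c5382 c5447 c5397 (k8 c5444 c5211 c5526 c5374 c5372 c9672 c9673 c9737 (k8 c5357 c5439 c11859 c11860 c1107 c5642 c9731 c11854 (k8 c5654 c2470 c2617 c2472 c3574 c1293 c5650 c345 k0)))) (by decide +kernel)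
def c11862 : PP 9 3 T 0x40005000000000010000200000000000000000000040008000100000000010001000000000940000000000054000000000000000004400040000011410000 := rS 0x1ee7fa17dacc7b0ebbe39190d436314383cb60d48a0d1f9c46c4d12d5 (k8 c1660 c5567 c5382 c5381 c5211 c5526 c5525 c5374 (k8 c9673 c5474 c9737 c8435 c5476 c5475 c5324 c3577 (k8 c11858 c5492 c5654 c492 c493 c5498 c2502 c2507 (k2 c5204 c8783 k0)))) (by decide +kernel)
def c11863 : PP 9 3 T 0x5000000000052000200080000000000000000040008000100000000001001000000000800000055000050000000000000000000000000000010000010 := rS 0x2870491d8583f01590dd6b156f11c9758f98458e0f06a451f9c49a8432c94dc4c2615 (k8 c11531 c5564 c5382 c5397 c5396 c5393 c5398 c5444 (k8 c5211 c5526 c5374 c9673 c9737 c5357 c11849 c11856 (k8 c5231 c5342 c5562 c11861 c2950 c2514 c2331 c5685 (k8 c2901 c2321 c11862 c1677 c2947 c5654 c3574 c2470 k0)))) (by decide +kernel)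
def c11864 : PP 9 3 T 0x4000000000010000000000000000000000100040000000100000000000000000080000000000000000000000000000000000004004200001001400000 := rS 0x8e3c101043e23 (k4 c395 c2473 c546 c5650 (k2 c5655 c2423 (k1 c2770 k0))) (by decide +kernel)
def c11865 : PP 9 3 T 0x80005000000000050000200080000000000000000040008000100000000000001000000000100000000000054000000000000000000000000001011420000 := rS 0x1fe856ab30803a1e8e5afdf190d4363146a249701ac8dc7ede70a3cfb1348b8cf27f3de7102c7 (k8 c5357 c5380 c5211 c5372 c5358 c5441 c5549 c5374 (k8 c5382 c5442 c5526 c5591 c3610 c2907 c2332 c5558 (k8 c5592 c5546 c5567 c5381 c5476 c5475 c5324 c3577 (k8 c5492 c2186 c11864 c2771 c5654 c5655 c493 c1656 (k2 c2502 c2507 (k1 c11635 k0)))))) (by decide +kernel)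
def c11866 : PP 9 3 T 0x80005000000000050000200080000000000000000040008000100000000000001000000000500000000000054000000000000000000000000001011020000 := rS 0x130f052410b0feb2de70a3cfb1348b8cf27f3de7102c7 (k8 c5357 c5380 c5211 c5372 c5358 c5441 c5549 c5374 (k8 c5382 c5442 c5526 c5591 c3610 c5558 c2907 c11865 (k4 c1736 c1307 c5655 c5651 (k1 c4851 k0)))) (by decide +kernel)
def c11867 : PP 9 3 T 0x5000000000040000200080000000000000100040000000100000000050000000080000000000000000001404400000000000000000108005001000000 := rS 0x10a8b7fb31ecd28e0e880371f8a18e7f46c4d123d (k8 c2771 c5567 c5382 c5381 c5358 c5357 c5651 c404 (k8 c2332 c5655 c5654 c544 c545 c492 c493 c7800 (k2 c2938 c2502 (k1 c3613 k0)))) (by decide +kernel)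
def c11868 : PP 9 3 T 0x80005000000000050000200080000000000000000040008000100000000000001000000000500000000014054000000020000000000000000000011000010 := rS 0x76371f11c8229ac0f472221909c3e210b80802116f405c24981b8c6a1b1897d8e7d3c9fcd6870796c1a7b48a0d1f9c40c4c2625 (k8 c2755 c5564 c5382 c5380 c5211 c5526 c5525 c5374 (k8 c5372 c9673 c5474 c9737 c8435 c9672 c5358 c5441 (k8 c5442 c5357 c5439 c5476 c5475 c5324 c5549 c5550 (k8 c5588 c5591 c5592 c3610 c11866 c667 c5642 c1107 (k8 c265 c1111 c267 c3577 c5650 c395 c2771 c11867 (k4 c5339 c5340 c5562 c3579 (k2 c2331 c494 (k1 c5654 k0)))))))) (by decide +kernel)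
def c11869 : PP 9 3 T 0x5000000000052000200080000000000000000040008000100000000001001000000000000000055000050000000000000000000000000000010000010 := rS 0xd3f7b55afdf580f864270b808031d208a47a11ac7cc4a706590c8a350d8c4be7d3f98d269f50865926139a04266f (k8 c5565 c5564 c5380 c5379 c5445 c5396 c5393 c5398 (k8 c5448 c5444 c5355 c5358 c5442 c5439 c5476 c5475 (k8 c5324 c5326 c5478 c11863 c3599 c2755 c11868 c5231 (k8 c5558 c5560 c5339 c5340 c5341 c667 c5642 c1107 (k8 c267 c3577 c3579 c3582 c5492 c2185 c2996 c5506 (k2 c2086 c5689 k0)))))) (by decide +kernel)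
def c11870 : PP 9 3 T 0x2000000000052000200080000000000000000000000000000000100000000000000000000000000000001400004000400000000000000000000000000 := rS 0x196718a2cd6ae2367cdbee14e97d8e7d3c9fcc69f50a6cc29939a06266f (k8 c5565 c5382 c5380 c5379 c5447 c5445 c5397 c5398 (k8 c5448 c5355 c5358 c5441 c5442 c5357 c5439 c5458 (k8 c5460 c5538 c11668 c10556 c5846 c2610 c2458 c5685 (k2 c3048 c1292 (k1 c3599 k0))))) (by decide +kernel)
def c11871 : PP 9 3 T 0x52000200080000000000000000040008000100000000001001000000000000000055000050000000000000000000000000000010000010 := rS 0x1107d6802598062a2908b80e1f3ac37dc6cbf117cfa793f98d3ea1309cd031337f851e913de70d711 (k8 c9727 c9672 c5211 c5372 c5374 c5526 c11870 c5565 (k8 c5382 c5380 c5379 c5445 c5398 c5448 c5355 c5358 (k8 c5441 c5442 c5439 c11869 c5464 c5466 c5580 c9025 (k8 c8118 c3599 c5846 c5558 c5339 c3048 c667 c2898 (k4 c5642 c5685 c1111 c6197 (k1 c1339 k0)))))) (by decide +kernel)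
def c11872 : PP 9 3 T 0x5000000000000000000080000000000000000040008000100001000051000000080100000001055000004000004000000010004001000000000020060 := rS 0x628cd9bed7f2cc423a1cac46e406789ce0241fd64ba352d86c627f2b9d40229 (k8 c9692 c53 c5440 c5353 c5358 c5476 c5475 c5474 (k8 c5324 c5321 c5558 c2907 c720 c719 c2859 c10436 (k8 c5655 c2332 c1092 c546 c5654 c340 c2761 c3623 (k4 c5544 c2507 c493 c10805 (k1 c10897 k0))))) (by decide +kernel)
def c11873 : PP 9 3 T 0xa000000000000000000000100000008000000000000000001000000000800000000000000110040000000010000000000010000450000 := rS 0x69fbdae8a8ef7c4c3221914ba352d86c621d4aa4c32c9f1b552e15 (k8 c11531 c5404 c1660 c5464 c5396 c5393 c5444 c5488 (k8 c5486 c5476 c5475 c5474 c5324 c5321 c5326 c5478 (k8 c3577 c9148 c5492 c351 c3572 c2185 c5583 c2938 (k1 c5689 k0)))) (by decide +kernel)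
def c11874 : PP 9 3 T 0x1000000000040000020080000000000000100040008000100000000001000000080000100000005010550110000000000010000000500010410050000 := rS 0x22e3ad2133384a9d1f3446ccd21914ba5b18b1cfe15 (k8 c11531 c5358 c5357 c5476 c5474 c5321 c5326 c5478 (k8 c11781 c5654 c1481 c2332 c1480 c2909 c3617 c5651 (k4 c2565 c351 c2938 c3572 k0))) (by decide +kernel)
def c11875 : PP 9 3 T 0x100000000004a000020080000000000000100040008000100001000050001000080000800001004000000110100000000010001000100010400050040 := rS 0x19b159bed7f2cd6224200fc42cf1d058ba352d86c62093e9fcae7556abdfa1d4aaa4f69350b2536996aa5c7a15 (k8 c11531 c1490 c5404 c1660 c5447 c5397 c5396 c5398 (k8 c5444 c5372 c5489 c5488 c5486 c5405 c5406 c5490 (k8 c5440 c5353 c5358 c5442 c5438 c5476 c5475 c5474 (k8 c5324 c5321 c11873 c11874 c1646 c340 c494 c3569 (k8 c1737 c1092 c2761 c3623 c5544 c2507 c10805 c493 (k1 c10897 k0)))))) (by decide +kernel)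
def c11876 : PP 9 3 T 0x8000100000000004a000220080000000000000000040008000100000000000001000000000800000004000000000000000000000000000000000000005020 := rS 0x3b1b8f88f581c845bd0170c54930371ad49609639f4f27f2bab55efd549ed228f49a051b1309a2446590e81cc3e36aa5c7a29 (k8 c9692 c1490 c5404 c1660 c5464 c5445 c713 c5486 (k8 c313 c9734 c5567 c5564 c5382 c5381 c5380 c5444 (k8 c5526 c5374 c5372 c5489 c5405 c5406 c5490 c5353 (k8 c5358 c5441 c5442 c5357 c5438 c5546 c5548 c5549 (k8 c5550 c5588 c5590 c5591 c5592 c3610 c11872 c11852 (k4 c11875 c5562 c9764 c2331 (k2 c494 c5654 k0))))))) (by decide +kernel)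
def c11877 : PP 9 3 T 0x4001000000000000000000080000000000000000040000000100000400001000000040001100000005000551400104000000000000008501000400000000 := rS 0x19e9d68b886ce1639f4f27f (k8 c5358 c5441 c5442 c5357 c3057 c5654 c3610 c1481 (k2 c1480 c10455 (k1 c3617 k0))) (by decide +kernel)
def c11878 : PP 9 3 T 0x10000000000000000000000000040000000000000400000000000000000840000000000400000000000000000004400200000400050000 := rS 0x10454901f7182c1e0d48a3f3815 (k8 c11531 c5211 c5526 c5374 c9673 c9737 c2470 c2617 (k4 c2472 c3574 c1293 c5650 (k1 c345 k0))) (by decide +kernel)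
def c11879 : PP 9 3 T 0x1000000000000000220080000000000000200040008000100000000001000000040000100000005000550000000000000010000008100000400000000 := rS 0x19a3b18b1cf69147a0627ef45174b6112284d1a89 (k8 c5567 c5381 c5564 c5326 c5558 c5474 c5321 c8187 (k8 c5583 c5382 c5380 c5526 c5374 c5372 c5357 c5476 (k2 c11859 c11781 (k1 c11877 k0)))) (by decide +kernel)
def c11880 : PP 9 3 T 0x5a000200080000000000000000040008000100000000000001000000000800000004000000000000000000000000000000000000000000 := rS 0x7c2c3a590dd6b156f0e6023e4511c9611ac7cc7be322974b609639f4fe570783526a10cb25369946c4c2689f0a3d227bce1ae2229119640e0454a543afd4babd5a61 (k8 c5445 c5490 c5406 c5404 c5405 c5486 c5488 c5489 (k8 c11871 c713 c313 c9734 c9692 c9727 c9672 c5211 (k8 c5372 c5374 c5526 c11870 c5567 c5564 c5382 c5381 (k8 c5447 c5397 c5396 c5393 c5398 c5444 c9673 c9737 (k8 c5353 c5358 c5442 c5357 c5438 c5474 c5321 c5326 (k8 c5464 c1490 c11876 c8910 c5558 c5342 c5562 c8187 (k8 c9764 c3068 c11878 c11879 c2950 c2514 c2331 c5685 (k4 c5654 c11862 c2321 c1677 k0)))))))) (by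 decide +kernel)
def c11881 : PP 9 3 T 0x5000000000002000000080000000000000000040008000100001000051000000080100400001055000050000004000000010004000000000000020020 := rS 0x69b5c784318a4d420730ac4481b (k8 c5475 c720 c1092 c5445 c713 c5398 c5444 c5476 (k4 c5478 c11872 c1491 c2768 (k1 c5982 k0))) (by decide +kernel)
def c11882 : PP 9 3 T 0x5000000000002000020080000000000000000040008000100001000051000000180000400001055000050000000000000010004000000000000020020 := rS 0x851db3078d4121746af32dbd58e7b (k8 c5372 c5357 c5477 c5474 c5325 c5324 c5321 c720 (k4 c11881 c6973 c3003 c1680 (k2 c2502 c8146 k0))) (by decide +kernel)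
def c11883 : PP 9 3 T 0x80001000000000040000220080000000000000100040008000100000000001000000000000500000005010550000000000000010000000000011410015040 := rS 0x3b1c8f87a41130258e7f2ba34268924b79c681479f6267948b84f615 (k8 c11531 c5372 c5591 c5374 c5441 c5382 c5442 c5526 (k8 c5380 c5549 c5846 c5588 c5567 c5564 c5381 c5353 (k8 c5358 c5357 c5438 c5651 c350 c4851 c3569 c11852 (k2 c494 c11874 k0)))) (by decide +kernel)
def c11884 : PP 9 3 T 0x80001000000000042000220080000000000000000040008000100000000001000000000000400000055000050000000000000000000000000000010005020 := rS 0x3b1b8e47c471ed604a116f78e02e124c0dc6b5258258e792b9ed1ec94da662629119640f153818ce66f4097cc2a14f9fcfa91 (k8 c5374 c5442 c5358 c5448 c5398 c5445 c5439 c5380 (k8 c5565 c5379 c5355 c3599 c3048 c713 c313 c9734 (k8 c9692 c5382 c5447 c5397 c5396 c5526 c5372 c5353 (k8 c5441 c5357 c5438 c5546 c5548 c5549 c5550 c5588 (k8 c5591 c5592 c8118 c5846 c11882 c2754 c11883 c5560 (k4 c5562 c9764 c11852 c2331 (k2 c494 c5654 k0))))))) (by decide +kernel)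
def c11885 : PP 9 3 T 0x10000000000000000000000000040000000000000400000000000000000040000000000400000000020000000004000200000400050000 := rS 0x210f82c1e0d48a3f3815 (k8 c11531 c5211 c5526 c5374 c9673 c9737 c2470 c2472 (k2 c8802 c5650 k0)) (by decide +kernel)
def c11886 : PP 9 3 T 0x5a000200080000000000000000040008000100000000000001000000000000000004000000000000000000000000000000000000000000 := rS 0x12474b21bad5bc391f11c963d08d63e7153832c0e5911813c26f09c4d02732f8258e7d3f95cc6ad57a5dfa1d4aaa6220f069acf69147e713ea164a6cc299 (k8 c5447 c5445 c5397 c5396 c5398 c5448 c5211 c5526 (k8 c5374 c5372 c9672 c9673 c9737 c9727 c5489 c5488 (k8 c5486 c5405 c5404 c5406 c5490 c5355 c5353 c5358 (k8 c5442 c5357 c5438 c5439 c5379 c5380 c5382 c5564 (k8 c5565 c11870 c11871 c9734 c313 c713 c11880 c3599 (k8 c3048 c11884 c8910 c5558 c5560 c5342 c5562 c9764 (k8 c11885 c11879 c2515 c2331 c5685 c5654 c2895 c494 k0))))))) (by decide +kernel)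
def c11887 : PP 9 3 T 0x8000100000000000a000100080000000000000000000000000000000100000000000040000800000004000001404404000400000000000000000004000000 := rS 0x66fb59ec442270ca6d001c8e28070b8e265f639f4f27f319dcea694bbf4ce9554a6cc299 (k8 c5447 c5445 c5397 c5489 c5488 c5487 c5405 c5404 (k8 c5403 c5440 c5356 c5355 c5358 c5441 c5442 c5357 (k8 c5439 c5547 c5549 c5591 c3610 c751 c8466 c9719 (k8 c933 c1056 c3598 c3601 c10013 c1651 c5541 c2502 (k1 c10805 k0))))) (by decide +kernel)
def c11888 : PP 9 3 T 0x40001000000000010000000000000000000000000040000000000000000000000000040000800000000000400000000000000000004000200000001000000 := rS 0x2d040e00fb8c47e3 (k8 c5464 c395 c2617 c2472 c5691 c5650 c1719 c2608 k0) (by decide +kernel)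
def c11889 : PP 9 3 T 0x4000100000000001a000000080000000000000000040008000100000000000000000040000800000004000000000000000000000000000800010000000010 := rS 0x19bed62210ca000187846b47038c42cf1a86cbec7319dcea694b99d2a6b3de7127e3 (k8 c5464 c5444 c5211 c5372 c9672 c5488 c5487 c5404 (k8 c5403 c5440 c5356 c5355 c5357 c5439 c5475 c5324 (k8 c1646 c340 c8999 c5691 c1719 c1339 c5650 c1111 (k4 c5642 c1056 c11603 c10013 (k2 c5541 c2502 (k1 c10805 k0)))))) (by decide +kernel)
def c11890 : PP 9 3 T 0x100000000005a000100080000000000000000040008000100000000000000000040000800000004000000000000000000000000000000000000000010 := rS 0xb4114543e7059808e6e200b846c3b1cfcc365f889ad0e0f2d9ed228347e7126194da64524b08837c615 (k8 c11531 c5464 c9673 c9667 c8142 c8199 c5447 c5397 (k8 c5393 c5444 c5211 c5526 c5525 c5374 c5372 c5474 (k8 c9737 c8435 c9672 c9727 c5439 c5475 c11887 c11888 (k8 c11889 c5654 c4156 c11854 c5691 c9719 c5642 c2458 (k4 c8466 c1111 c3048 c8484 (k2 c5685 c1339 k0)))))) (by decide +kernel)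
def c11891 : PP 9 3 T 0x80000000000000048000001080000000000000000040008000000000400000000000000000800000004000000000000000000000000000200000000000010 := rS 0x7232a30e2007f22c06f70907c464322bcc36f52fb1c3b1135a1c1e5b41a3f38194d92c220d8e91eb1a1d86d652f1819260215 (k8 c11531 c5592 c5588 c5550 c9695 c11660 c11803 c11845 (k8 c11886 c5212 c5562 c5341 c9673 c9667 c8142 c5397 (k8 c5393 c5211 c5526 c5525 c5474 c9737 c8435 c9672 (k8 c9727 c5486 c5357 c5439 c5477 c5475 c5325 c5326 (k8 c5478 c395 c2472 c11878 c8123 c6197 c2976 c3593 (k4 c5642 c2869 c11835 c1056 (k2 c8466 c11824 k0))))))) (by decide +kernel)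
def c11892 : PP 9 3 T 0x100000000000a000020080000000000000000000000000000000000000000000000004000000004000000000000000000000000000000000104000002 := rS 0x337dac442194bec7319dcea694b99d2a7b (k8 c5372 c5488 c5487 c5404 c5403 c5440 c5356 c5355 (k8 c5357 c5439 c1056 c11603 c10013 c5541 c2502 c10805 k0)) (by decide +kernel)
def c11893 : PP 9 3 T 0x80001000000000048000001080000000000000000040008000000000000000000000000000800000004000000000000000000000000000000000000000010 := rS 0x4d02271107ce002398047e0710b3c7439248d4365f3f95cd67bce24cc23d3e904220989b1c6ede23d6343b0daca5e215 (k8 c11531 c9695 c11660 c11803 c11845 c11886 c5212 c5562 (k8 c11890 c2331 c5357 c2512 c5438 c9667 c8151 c5442 (k8 c8150 c5445 c5444 c5211 c5372 c9672 c5353 c5358 (k8 c5439 c5475 c5324 c5588 c11891 c5654 c1646 c340 (k8 c1674 c494 c11892 c9719 c5642 c8466 c1111 c5650 (k4 c485 c751 c2868 c3569 k0)))))) (by decide +kernel)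
def c11894 : PP 9 3 T 0x1000000000048000001080000000000000000040008000000000000000000000000000800000004000000000000000000000000000400000000000010 := rS 0x230e4657f1c4008b7b80c24231c12486457986dea5f0ec44d6870796d068fce064961106c7626c71bc0606a90facbe71550ad5bc9b23d6343b0daca5e215 (k8 c11531 c9695 c11660 c11803 c11845 c11886 c5212 c5562 (k8 c5397 c11890 c2514 c5398 c2950 c11893 c5685 c2321 (k8 c5489 c2460 c2901 c2331 c5357 c2512 c5341 c9673 (k8 c9667 c8142 c5393 c5211 c5526 c5525 c5474 c9737 (k8 c8435 c9672 c9727 c5486 c5439 c5477 c5475 c5325 (k8 c5326 c5478 c2947 c5654 c395 c11878 c6197 c8123 (k8 c2976 c5642 c2869 c3593 c1056 c8466 c11835 c11824 k0))))))) (by decide +kernel)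
def c11895 : PP 9 3 T 0x1000000000048000001080000000000000000040008000000000000000000000000000800000004000000000000000000000000000000000000000010 := rS 0x1ee44a35fe85f69c198f6ef9cc64010b8859e3a0fc0565f35ac4e2ade1a86c625f63ab43a674aa1c1e5b06a45068fce24d421964a6c8f58d0ec36b2978f8daa97 (k8 c5404 c1660 c5464 c9695 c11660 c11803 c11845 c11886 (k8 c5212 c5562 c5397 c5396 c5393 c5398 c5444 c5211 (k8 c5526 c5525 c5374 c9673 c5474 c9737 c8435 c5488 (k8 c5487 c5486 c5490 c5357 c5439 c5476 c5475 c5324 (k8 c11890 c2950 c2512 c2514 c11893 c5685 c2901 c2321 (k8 c11894 c1646 c340 c1677 c11892 c3577 c9719 c5492 (k8 c492 c493 c8466 c5498 c2502 c2507 c753 c2872 (k2 c5204 c8783 k0)))))))) (by decide +kernel)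
def c11896 : PP 9 3 T 0x400100000000001a000100080000000000000000040008000100000000000000000040000800000004000000000000000000010004008000000400000000 := rS 0xce71275a2e11b334723bf986c62c74bbf52aa9889ad0e0f2d834f69141a3f381964a6d33e3 (k8 c5464 c5447 c5397 c5396 c5393 c5211 c5526 c5525 (k8 c5374 c5372 c9673 c5474 c9737 c8435 c9672 c9727 (k8 c5489 c5488 c5405 c5404 c5357 c5476 c5475 c11887 (k8 c495 c11888 c11781 c5654 c3057 c1481 c1480 c5691 (k2 c3617 c10455 k0))))) (by decide +kernel)
def c11897 : PP 9 3 T 0x1000000000048000001080000000000000000040008000000000000000000000000000800000004000000000000000000000000000000000000000000 := rS 0x167f3240e872375ac4dbc3e40c57de704504c0e59119cc086f2fb1cfe570ea47389b3092c1a3d3e904220923d6343b0daca5e215 (k8 c11531 c9695 c11660 c11803 c11845 c11886 c5212 c5562 (k8 c5438 c9667 c8151 c5442 c8150 c9673 c8142 c5445 (k8 c5397 c5211 c5374 c5486 c5353 c5358 c5357 c5439 (k8 c1144 c11895 c9718 c9734 c313 c713 c318 c11843 (k8 c8466 c5583 c3048 c751 c3569 c11896 c2512 c2514 (k4 c2331 c11878 c5654 c494 (k2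 c5588 c2895 (k1 c5685 k0)))))))) (by decide +kernel)
def c11898 : PP 9 3 T 0x80000000000000002000120080000000000000000000000000000000000000000000040000400000000000000000000000400000000000080000000000010 := rS 0x9c0bacc04730097d269b4cad62a71403851e7d89a45c6793f9ed8e61 (k8 c5445 c5357 c5372 c5358 c5441 c5549 c5374 c5547 (k8 c5442 c5526 c5591 c3610 c751 c5590 c5548 c5447 (k8 c5397 c5444 c5439 c11854 c9719 c5642 c8280 c1107 (k2 c5986 c1479 k0)))) (by decide +kernel)
def c11899 : PP 9 3 T 0x8000100000000001a000000080000000000000000040008000000100000000000000040000000000000000000000000000000000004400200000000000010 := rS 0x62337da657f001ee030fb3c464322bcc36f52f98cee7534a5c3a674a9ef38194dc0c9301 (k8 c5592 c5588 c5550 c5397 c5393 c5211 c5372 c5488 (k8 c5487 c5486 c5404 c5403 c5440 c5356 c5355 c5439 (k8 c5477 c5475 c5325 c5326 c5478 c395 c2558 c2472 (k8 c6197 c8123 c5642 c3593 c1056 c5544 c2506 c10013 (k1 c10805 k0))))) (by decide +kernel)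
def c11900 : PP 9 3 T 0x8000100000000001a000100080000000000000000040008000100100000000000000040000400000004000000000000000000000004411000001000000010 := rS 0x270b808023f10b3c74391b9c500e171c4c6a1b2fb1cfa793f9acf69147e71269f50864c229 (k8 c8199 c5445 c5393 c5398 c5448 c5444 c5211 c5526 (k8 c5374 c5372 c9672 c5358 c5441 c5442 c5357 c5439 (k8 c5475 c5324 c5547 c5549 c5591 c3610 c751 c11898 (k8 c11899 c5654 c1646 c340 c495 c11892 c5642 c1107 (k2 c268 c3579 k0))))) (by decide +kernel)
def c11901 : PP 9 3 T 0x1000000000008000000000000000000000000000008000000100000000001000800008000000000000100000000000000000000000000011800000000 := rS 0x16227f72cc86450dab55e1d (k8 c5486 c5406 c5490 c5475 c5326 c5478 c2458 c10455 (k2 c486 c5506 (k1 c3582 k0))) (by decide +kernel)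
def c11902 : PP 9 3 T 0x40001000000000018000000080000000000000000040008000000100000000001000040000500000004004504000000000000000000001080011001000010 := rS 0x594484c811ff89c6ce4e8883e17011cdc20168b3462f52f9f4f2977ea55526b3da451f9c (k8 c5211 c5526 c5374 c5372 c9672 c5489 c5488 c5405 (k8 c5404 c5441 c5442 c5439 c5477 c5476 c2329 c1481 (k8 c11854 c1483 c9719 c5642 c1107 c1111 c6197 c1479 (k8 c3617 c11901 c5691 c5576 c5463 c7824 c5846 c486 (k1 c2457 k0))))) (by decide +kernel)
def c11903 : PP 9 3 T 0x100000000001a000000080000000000000000040008000000000000000000000000000000000004000000000000000000000000000200000000000010 := rS 0x19bed68f7d08c43699400030fb3c16237986cbec7319dcea694bbf4ce9554c44d6870796c1a7b41e70329b (k8 c5397 c5393 c5211 c5525 c5372 c9673 c5474 c9737 (k8 c8435 c9672 c9727 c5489 c5488 c5487 c5405 c5404 (k8 c5403 c5440 c5356 c5355 c5357 c5439 c5475 c5325 (k8 c395 c2470 c2558 c2472 c6197 c5642 c1056 c665 (k4 c10013 c3601 c5451 c1706 (k2 c5541 c2502 (k1 c5688 k0))))))) (by decide +kernel)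
def c11904 : PP 9 3 T 0x100000000005a000000080000000000000000040008000100000000000001000040000400000004000000000000000000000000000000000000000010 := rS 0x44a35171380bfd0b033804964cc7b09864220f85c0473008fc42cf1d0dfe6451a86c625f63ab52e1d33a54d6870796d228347e71269f50865929b4c8a44a4b068f4fa41088263a47ac6847215 (k8 c11531 c11903 c11886 c5212 c5562 c5341 c5438 c9667 (k8 c8151 c5442 c8150 c9673 c8142 c9666 c8199 c5447 (k8 c5397 c5396 c5393 c5398 c5448 c5444 c5211 c5526 (k8 c5525 c5374 c5474 c9737 c8435 c9672 c5488 c5487 (k8 c5486 c5404 c5490 c5357 c5439 c5476 c5475 c5324 (k8 c5326 c11900 c11902 c5654 c1646 c340 c495 c11892 (k8 c9719 c5642 c1107 c1111 c6197 c3577 c3579 c492 (k8 c493 c486 c267 c268 c2195 c2502 c2506 c2901 (k4 c2457 c2976 c753 c2872 (k1 c3613 k0)))))))))) (by decide +kernel)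
def c11905 : PP 9 3 T 0x2000000000000000000000000000000000000000000000000000000000400000000000000000000000000000001011800011800400000 := rS 0x7e2749a7d4219 (k4 c5393 c5398 c5448 c5444 (k2 c485 c494 (k1 c3579 k0))) (by decide +kernel)
def c11906 : PP 9 3 T 0x100000000005a000000080000000000000000040008000100000000000001000000000400000004000000000000000000000000000000000000000010 := rS 0x8945a34e1ee593ffe64842c0fdb01663d9a3df190883e17011cc0221678e86f138aad7c6de1c9146a1b1897d8ead4b8752a6b4383cb60d48a0d1f9c49a8432c9148947a7d20844131d23d634215 (k8 c11531 c11886 c5212 c5562 c5341 c5438 c9667 c8151 (k8 c5442 c8150 c9666 c8199 c5396 c5393 c5398 c5444 (k8 c5211 c5526 c5525 c5374 c9673 c5474 c9737 c8435 (k8 c9672 c5488 c5486 c5404 c5490 c5357 c5439 c5476 (k8 c5475 c5324 c5326 c11903 c11904 c5580 c2515 c2950 (k8 c2512 c2331 c5654 c1646 c340 c11892 c9719 c5642 (k8 c1107 c1111 c6197 c3577 c5492 c2130 c492 c493 (k8 c2953 c5498 c2195 c2502 c11905 c5588 c3006 c5685 (k4 c5204 c8280 c5505 c5583 (k2 c2872 c3613 k0)))))))))) (by decide +kernel)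
def c11907 : PP 9 3 T 0x1000000000010000101000000000000000000040008000100100400050000000000000040000000002000040000000000010005400400000410000000 := rS 0x46bf908f70587c704322975e6f54383cb60d41a3f3837 (k8 c1480 c5211 c5526 c5525 c9673 c5474 c9737 c8435 (k8 c5477 c5325 c5321 c5326 c5478 c5654 c1083 c2470 (k4 c8123 c3571 c3593 c949 (k1 c11835 k0)))) (by decide +kernel)
def c11908 : PP 9 3 T 0x82000000000000000000000000000000000000000000008000000100000000000000000000000000000000000000000000000000004400000000000000000 := rS 0xff7b90c8af37ac0c9301 (k8 c5592 c5588 c5550 c5477 c5325 c5326 c5478 c5498 (k2 c5544 c3593 k0)) (by decide +kernel)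
def c11909 : PP 9 3 T 0x1001000000000000000000080000000000000000000008000000000000000000000000005000000000000000000004000000010000000800000000000040 := rS 0x628ccba352d8c4ae75 (k8 c5440 c5353 c5476 c5474 c5324 c5321 c493 c10805 (k1 c10897 k0)) (by decide +kernel)
def c11910 : PP 9 3 T 0x11000000000010100000080000000000400000040008000100400000400000000000002000000000000000000000000000000000000800000000800020 := rS 0x105bffd1b7a44383cb60d3dded0789ce77d0ac7 (k8 c5357 c2502 c5495 c5211 c5527 c5525 c5375 c5372 (k8 c9673 c5474 c9737 c8435 c6187 c6463 c5169 c5389 (k2 c2509 c8874 k0))) (by decide +kernel)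
def c11911 : PP 9 3 T 0x1000000000018000000080000000000000000040008000100014000000000002040002000000000100400000000000000001505400800000080800820 := rS 0x16ff5276e49b23b347e0fad8de2d76b9f2b1c72d1 (k8 c173 c154 c5357 c5622 c3348 c2524 c2522 c2528 (k8 c3206 c3351 c975 c11910 c5351 c5604 c7665 c3596 (k2 c5630 c2323 (k1 c5686 k0)))) (by decide +kernel)
def c11912 : PP 9 3 T 0x12002000080000000000400000040000000000000000000000011000000000000000000000000000000000000000000000000000000000 := rS 0xfa39b739c (k4 c5211 c8905 c7476 c5232 (k1 c5633 k0)) (by decide +kernel)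
def c11913 : PP 9 3 T 0x12000000080000000000400000040000000000015000000000011000000000001400000000000000008000000000400000000080000820 := rS 0x46d73852613e4ebb5eafe3db8d2adc1e15 (k8 c11531 c9737 c7561 c11912 c5213 c6187 c5431 c5617 (k8 c5430 c962 c517 c976 c1151 c1089 c2359 c3626 k0)) (by decide +kernel)
def c11914 : PP 9 3 T 0x100000000001a000000080000000000000000040008000100015000000000000040002000001400000000000000008000001505400800000000800820 := rS 0x9f1bfa2ed6eb9dc9375a2bd5c8d871fb3305ca6c2f826f25735a953603be81cc21e10a4c46e9 (k8 c4335 c9734 c5444 c340 c5650 c5445 c713 c9703 (k8 c54 c5397 c5399 c9672 c5353 c5359 c5438 c5439 (k8 c717 c11911 c497 c11913 c5345 c5348 c5351 c5600 (k8 c5601 c5602 c5604 c7665 c1088 c2323 c8835 c5686 (k2 c5557 c5630 (k1 c3596 k0)))))) (by decide +kernel)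
def c11915 : PP 9 3 T 0x1000000000010000000080000000000400000040008000100000000000000002000002020000000000000000000000000000000000800000000800020 := rS 0x105bffd1b6870796c1a7bbda0f139cefa158fe5d68e60ed1 (k8 c173 c3351 c154 c3206 c5622 c5357 c2502 c5495 (k8 c5211 c5527 c5525 c5375 c5372 c9673 c5474 c9737 (k4 c8435 c6463 c5169 c996 (k2 c2509 c8874 k0)))) (by decide +kernel)
def c11916 : PP 9 3 T 0x1000000000018000000080000000000000000040008000100014000000000002040002020000000100400000000000000001505400800000080800020 := rS 0x3e84e5bee49b23b346d76b9 (k8 c3348 c2524 c2528 c11915 c5351 c5604 c7665 c2323 (k2 c3596 c5686 (k1 c5630 k0))) (by decide +kernel)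
def c11917 : PP 9 3 T 0x12000000080000000000400000040000000000015000000000011000000000001400000000000000008000000000000000000080080020 := rS 0x5cc6f0a4fc649d76bd5fc7b71a55ba3f3815 (k8 c11531 c5211 c5526 c7561 c11912 c5213 c6187 c5431 (k8 c5617 c5430 c962 c584 c3760 c1151 c2857 c1089 (k1 c3626 k0))) (by decide +kernel)
def c11918 : PP 9 3 T 0x200000000000000000000000000000000000000000000000000004014000000000000000000000000000000000000000000000001515400000000000000000 := rS 0x9f1b (k2 c5557 c5630 (k1 c3596 k0)) (by decide +kernel)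
def c11919 : PP 9 3 T 0x80001000000000048000001080000000000000000040008000000000000000000000040000000000004000000000000000000000000000000000000000000 := rS 0x3bddbe5fbbadcca685aebeab784936476fb3415ca1205b10a2d41934fdef6583fdafdf667b5d2160f08474cf4e22d666e38a03c71780b862a498cc0dc6b58990c8af37ab1cfa793fab55efd5483cf69147e7126a54d92c220d2ac748e53ac6845e73119643a070232f6b29789876015 (k8 c11531 c11845 c5445 c9695 c11660 c11803 c11897 c11906 (k8 c713 c5486 c313 c9734 c9718 c9709 c11886 c5212 (k8 c5563 c5562 c5341 c5343 c9673 c9667 c8142 c5397 (k8 c5399 c5444 c5211 c5526 c5374 c5372 c9737 c5489 (k8 c5405 c5406 c5490 c5358 c5441 c5442 c5357 c5477 (k8 c5325 c5326 c5478 c5547 c5548 c5549 c5550 c5551 (k8 c5588 c5590 c5591 c5592 c5593 c8118 c3610 c751 (k8 c5666 c8280 c2978 c5986 c1651 c11907 c340 c5650 (k8 c5855 c4335 c11908 c11909 c5495 c2191 c2506 c3623 (k8 c3593 c5506 c2086 c2071 c5689 c3798 c1658 c11914 (k8 c9111 c11916 c2508 c11917 c5349 c5351 c5604 c2237 (k8 c2323 c11918 c6214 c5736 c1387 c1388 c3004 c8941 (k4 c5470 c1786 c1732 c5693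 k0))))))))))))) (by decide +kernel)
def c11920 : PP 9 3 T 0x40000000000000050000100080000000000000000040000000000000000000000000040000400000000000004000000000000000000000800000000000060 := rS 0x4084ce06f5a2ce2a1e1f884fe57358947a7d208441247ac1cc4615 (k8 c11531 c9734 c9718 c5212 c5562 c5438 c9667 c8151 (k8 c5442 c8150 c9666 c9672 c5353 c5358 c340 c495 (k8 c5650 c1086 c2321 c5685 c1148 c5666 c318 c752 (k1 c3569 k0)))) (by decide +kernel)
def c11921 : PP 9 3 T 0x40000000000000052000000080000000000000000000000000000000500000000000000000000000000000000000004000400000000400400001080000000 := rS 0x1686c59c553a5f639e4c69b (k8 c5397 c5355 c5441 c5357 c5439 c1083 c1086 c2321 (k2 c10556 c5685 (k1 c2610 k0))) (by decide +kernel)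
def c11922 : PP 9 3 T 0x1000000000010000000080000000000000000040008000000000000000000000000001000000000000100000000000000000000000400000050000060 := rS 0x68f7c64c567fb470f71b82cba357996c62c72b9d41e0d3de704659 (k8 c313 c9734 c5211 c5372 c9673 c9737 c5440 c5353 (k8 c5357 c5476 c5474 c5325 c5324 c5321 c718 c8484 (k8 c8123 c10699 c10404 c2558 c10805 c10897 c5492 c2129 (k1 c5688 k0)))) (by decide +kernel)
def c11923 : PP 9 3 T 0x1000000000048000001080000000000000000040008000000000000000000000040000000000004000000000000000000000000000000000000000000 := rS 0xf1fbfbe3e45339021337b44e0b41b1b166398afb53a1e668efe6317a97d8e793f95cc6977ea555311359ef389364a6d32251e9f482110491eb1a1019643a070232f6b29789876015 (k8 c11531 c11845 c5445 c9695 c11660 c11803 c11897 c11906 (k8 c713 c5486 c313 c54 c11886 c5212 c5562 c5438 (k8 c9667 c8151 c5442 c8150 c9666 c5447 c5397 c5396 (k8 c5444 c5211 c5372 c9672 c9727 c5489 c5488 c5405 (k8 c5404 c5355 c5353 c5358 c5441 c5357 c5439 c5477 (k8 c5476 c11919 c11920 c11781 c11922 c1083 c8815 c1086 (k8 c2472 c2321 c10556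 c5654 c5685 c2611 c1481 c1148 (k8 c2869 c752 c3617 c11843 c3569 c5453 c5583 c5576 (k1 c5204 k0))))))))) (by decide +kernel)
def c11924 : PP 9 3 T 0x8000000000000001a000000080000000000000000040008000000100000000080011080002400000000002000000000008000001504400000000080080020 := rS 0x3addbe5fbb994d0b5d7d56f0926c8edf6682bbc5fe35ac55431924c5fdab3 (k8 c2321 c11908 c5593 c5588 c5551 c5398 c2950 c2515 (k8 c5580 c9709 c3116 c2508 c11917 c5349 c5351 c5604 (k8 c2237 c2323 c11918 c6214 c5736 c1387 c1388 c8941 (k4 c5470 c1786 c3436 c5693 k0)))) (by decide +kernel)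
def c11925 : PP 9 3 T 0x80000000000000018000000000000000000800000000008000000000000000000000000000000050000000000000000000000001504400000000080000000 := rS 0xfaadf724d91c649317 (k8 c5593 c5588 c5551 c5351 c5604 c7665 c2323 c11918 (k1 c5686 k0)) (by decide +kernel)
def c11926 : PP 9 3 T 0x8000000000000000000000000000000000000001000010000000080502100001404000000000000000000000000000000000000000000 := rS 0x3f95aaf7eaa7c7df (k8 c5495 c5580 c5489 c5405 c5406 c5490 c10153 c2507 k0) (by decide +kernel)
def c11927 : PP 9 3 T 0x8000100000000001a000000080000000000000000040008000100100000000000000080000420000000002000000000008000001404400808000000080020 := rS 0xb32ed72e47b1454a9b667b59e3503984b21d3de703ce90b08c4293 (k8 c5444 c340 c9734 c5855 c4335 c5650 c5211 c5372 (k8 c5486 c313 c5445 c713 c5324 c1646 c11908 c11909 (k8 c5397 c5399 c3798 c492 c11924 c3348 c2524 c11915 (k1 c11925 k0)))) (by decide +kernel)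
def c11928 : PP 9 3 T 0x8000000000000001a000000080000000000000000040008000000001000000040011000002000001400000000000000008000000000000800000000080020 := rS 0x2ed6ff5dc9375bab61c7ecd056097c13792b9ac077d1781cc3198b8784293119b01483ce1643a5d79bd50ac74396c1a0f (k8 c9737 c9673 c5474 c8435 c5357 c2502 c5477 c5325 (k8 c5321 c5486 c313 c5211 c5525 c3571 c717 c9734 (k8 c5444 c340 c5650 c5593 c5551 c5445 c713 c9709 (k8 c9703 c54 c9672 c5353 c5359 c5438 c5439 c497 (k8 c2508 c11917 c5345 c5348 c5600 c5602 c5604 c7665 (k4 c6751 c2323 c8835 c6214 k0)))))) (by decide +kernel)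
def c11929 : PP 9 3 T 0x8000100000000001a000000080000000000000000040008000100100000000000000080000420000000002000000000008000001404400800000000080020 := rS 0x1665dae5c85136029ee332ebcdea870796c1a8352a6d6b1550a1599ed678d40e612c874f79c63acc3ce90b08c4293 (k8 c5444 c340 c9734 c5855 c4335 c5650 c2321 c5357 (k8 c5211 c5372 c5486 c313 c5445 c713 c5324 c1646 (k8 c11908 c11909 c2502 c5398 c2950 c2515 c5397 c5399 (k8 c5525 c9673 c5474 c9737 c8435 c5477 c5325 c5321 (k8 c11927 c2071 c3571 c717 c4757 c11928 c3348 c2524 (k2 c11915 c11925 k0)))))) (by decide +kernel)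
def c11930 : PP 9 3 T 0x8000000000000001a000000080000000000000000040008000000001000000000011000000000001000000000000000008000001404400800000000000820 := rS 0x5dae773ad15ead871fb3304be09bc95cd603be81cc3198bacca26c0f0852623 (k8 c9734 c5444 c340 c5650 c717 c4757 c2321 c5593 (k8 c5551 c5445 c713 c9703 c54 c9672 c5353 c5359 (k8 c5438 c5439 c497 c11913 c5345 c5348 c5600 c5601 (k4 c5602 c7665 c1088 c8835 (k1 c11925 k0))))) (by decide +kernel)
def c11931 : PP 9 3 T 0x8000100000000005a000100080000000000000000040008000100000000000000000080200400000000002000000200000000000000000800000000000020 := rS 0xb32ed72e4289b0141337310e20f48a3d4a9b2a94ce6b58aa8626c724b33da478ed60961106b3c6a07309643a7bce079d216118852615 (k8 c11531 c5444 c340 c9734 c5855 c4335 c5650 c5211 (k8 c5372 c5486 c313 c5445 c713 c5324 c1646 c9673 (k8 c9667 c8142 c5212 c5341 c5562 c11908 c11909 c5588 (k8 c5357 c2512 c5398 c2950 c2515 c9718 c5563 c5343 (k8 c5397 c5399 c5526 c5374 c9737 c751 c1658 c5666 (k8 c11929 c3574 c717 c4757 c11930 c3348 c2524 c11915 (k1 c11925 k0))))))) (by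 decide +kernel)
def c11932 : PP 9 3 T 0x8000100000000005a000100080000000000000000040008000100000000000000000080200400000000002000000000000000000000000800000000000020 := rS 0xc30b6fd058f7d1b76783eb576b9f2b91ec51191918a6e09205d2162e86c625f3f95cc6773a9a52e674aa1c1e5bbda0f12a54d8f4fa4104954a62f1c8fc921e10a4c47df68a1599ed23c76b04b088359e3503984b21d3de718e15 (k8 c11531 c5357 c5211 c5372 c5486 c313 c5445 c713 (k8 c5324 c1646 c9673 c9667 c8142 c5212 c5341 c5562 (k8 c11908 c11909 c2502 c173 c5495 c9734 c5444 c340 (k8 c5650 c5588 c494 c154 c9709 c5563 c5343 c5438 (k8 c8151 c5442 c8150 c5397 c5399 c5527 c5525 c5375 (k8 c5474 c9737 c8435 c5488 c5487 c5404 c5403 c5440 (k8 c5356 c5355 c5353 c5358 c5439 c5476 c5475 c5321 (k8 c5855 c4335 c11931 c3569 c318 c11929 c10013 c10897 (k8 c3798 c492 c11924 c5622 c3348 c2524 c3206 c3351 (k8 c11925 c6463 c5169 c11910 c2509 c8874 c9711 c2220 (k1 c6295 k0))))))))))) (by decide +kernel)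
def c11933 : PP 9 3 T 0x8000100000000005a000100080000000000000000040008000100001000000000010000200000001000000000000200000000000100000800000000000820 := rS 0x105bfb6e3f6783eb716bb5cf95c86e621c6f2870796ef683c4a953655299cc721e10a4c47df68a1599ed23c76b04b088359e3503984b21d3de718e15 (k8 c11531 c5357 c5211 c5372 c5486 c313 c5445 c713 (k8 c5324 c1646 c9673 c9667 c8142 c5212 c5341 c5562 (k8 c11908 c11909 c2502 c173 c5495 c9734 c5444 c340 (k8 c5650 c154 c9718 c5563 c5343 c5397 c5399 c5527 (k8 c5525 c5375 c5474 c9737 c8435 c5359 c751 c1658 (k8 c5666 c11930 c5622 c3348 c2524 c2522 c3206 c3351 (k4 c11925 c975 c6463 c996 (k2 c2509 c8839 k0)))))))) (by decide +kernel)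
def c11934 : PP 9 3 T 0x8000100000000005a000100080000000000000000040008000100000000000000000080000400000004000000000000000000000000000800000000000020 := rS 0x17e82e91b71fb3c1f5b8b5dae7cae4370490251051b1d29d7f35166d742b47be1e660fc42cf1c8d4bec7bc9e4fe5731c44d6870796cf77b41e27389352b25363d3e90412552988cb21d039856b1550c0c9301f691e3b58258441a15 (k8 c11531 c9673 c9667 c8142 c5212 c5341 c5562 c11908 (k8 c5592 c5588 c5550 c5398 c2950 c2515 c5445 c713 (k8 c5486 c313 c9734 c5563 c5343 c5438 c8151 c5442 (k8 c8150 c5397 c5396 c5399 c5444 c5211 c5527 c5525 (k8 c5375 c5372 c5474 c9737 c8435 c9672 c9727 c5355 (k8 c5353 c5358 c5441 c5359 c5357 c5439 c5324 c154 (k8 c1646 c340 c494 c11909 c5650 c5495 c173 c2502 (k8 c2191 c2321 c11926 c3002 c11932 c4771 c10556 c2315 (k8 c4757 c11933 c3569 c318 c11930 c5622 c3348 c2524 (k8 c2522 c3206 c3351 c11925 c975 c6463 c6187 c2509 (k2 c8839 c5389 k0))))))))))) (by decide +kernel)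
def c11935 : PP 9 3 T 0x1000000000010000000080000000000000000040008000100000000000000000000000000000000000500000000000000000000000440000010000060 := rS 0x3c3866b1f3859 (k4 c313 c5211 c5357 c11781 (k2 c5654 c11922 (k1 c2472 k0))) (by decide +kernel)
def c11936 : PP 9 3 T 0x1000000000048000001080000000000000000040008000000000000000000000000000000000004000000000000000000000000000000000000000000 := rS 0x1641ef988474378aad5bc0711811961d49a8536614c91eb1a1d86d652f1 (k8 c9695 c11660 c11803 c11845 c11886 c5212 c5562 c5447 (k8 c5445 c5397 c5398 c5444 c5486 c11897 c11906 c9734 (k8 c713 c11923 c2515 c2950 c2331 c11935 c340 c11934 (k2 c5650 c5685 (k1 c2321 k0))))) (by decide +kernel)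
def c11937 : PP 9 3 T 0x80000000000000002000100080000000000000000000000000000000000000000000140000000000000001001400004040000000000000000000000000000 := rS 0x2cd967140455c6b58997d8e7d3c9fd3661 (k8 c5445 c5397 c5358 c5441 c5442 c5357 c5439 c5547 (k8 c5548 c5549 c5590 c3610 c751 c8466 c8280 c5986 k0)) (by decide +kernel)
def c11938 : PP 9 3 T 0x40000000000000048000100080000000000000000000008000000000000000000000000008000002000000001000000000400000000000000000000000060 := rS 0x3507d01f7a28266f7f914ae773abf47a7d208441215 (k8 c11531 c5438 c9667 c8151 c5442 c8150 c5405 c5440 (k8 c5356 c5353 c5326 c2572 c1148 c318 c11843 c5583 (k4 c3068 c10682 c8707 c2996 k0))) (by decide +kernel)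
def c11939 : PP 9 3 T 0x40000000000000050000000000000000000000000000000000000000000000000000000000000001000000000000000000000000000400000001080000000 := rS 0x16715 (k2 c1086 c2321 (k1 c5685 k0)) (by decide +kernel)
def c11940 : PP 9 3 T 0x5a000100080000000000000000000008000000000000000000000140008000000000001001400004000400000000000500000000001020 := rS 0x1b82c3eb5f981c46736395c1e614c8948f58 (k8 c5212 c5562 c9666 c5447 c5445 c9737 c5353 c5357 (k8 c9718 c9734 c713 c11937 c11938 c11939 c718 c8484 (k1 c10699 k0))) (by decide +kernel)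
def c11941 : PP 9 3 T 0x80000000000000002000100080000000000000000000000000000000000000000000140000000000000001001400004002000000000000000000000000000 := rS 0xe513 (k2 c5547 c11937 (k1 c933 k0)) (by decide +kernel)
def c11942 : PP 9 3 T 0x40000000000000058000100000000000000000000000008000000000000000000000000000000001404000001000000002000000000000000000000000010 := rS 0x131b9627139c5086ad148963b58 (k8 c5212 c5341 c9666 c8199 c5490 c5478 c5685 c934 (k4 c3048 c1294 c5666 c6206 (k1 c2814 k0))) (by decide +kernel)
def c11943 : PP 9 3 T 0x120080000000000000000000000000000000000000000000540000400000800000000000000040000000000000000000000000000 := rS 0x1007089b1cfa793f9ed228f (k8 c5526 c5374 c5372 c5358 c5441 c5442 c5357 c2457 (k2 c8280 c3610 (k1 c752 k0))) (by decide +kernel)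
def c11944 : PP 9 3 T 0x400000000018000120080000000000000200000008000000000000000000000140008400000804000504000000000400000004011500000040000000 := rS 0x69b55fde3f78f892f71b88c00726bb8e070121915e6f50eaa63a47 (k8 c5562 c5341 c5489 c5486 c5477 c5325 c5326 c5478 (k8 c2901 c2460 c2458 c1769 c11943 c9719 c9731 c11854 (k8 c8123 c2895 c3590 c5996 c11685 c3593 c2996 c2942 (k1 c5689 k0)))) (by decide +kernel)
def c11945 : PP 9 3 T 0x10000000000000000000000000040000000000000000000000000000000000002000000000000000000000000004000000010040000000 := rS 0x4223 (k2 c1339 c2608 (k1 c5650 k0)) (by decide +kernel)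
def c11946 : PP 9 3 T 0x100080000000000000000000000000000000000000000000540000000000800000001400004040001000000000000000000000000 := rS 0x200e113639f4f27f (k8 c5358 c5441 c5442 c5357 c2457 c8280 c3610 c751 k0) (by decide +kernel)
def c11947 : PP 9 3 T 0x48000001080000000000000000040008000000000000000000000000000000000004000000000000000000000000000000000000000000 := rS 0x693fbde497b88c00726af8daeca71c0e02b25afcc3e053633bbedf668e5c2d14e8efc0478e9047a4bac04453a17890c8af37a97c12c73e9e4c6977e8752aa994c441a6b3da451f9cdaa4d929b30a676015 (k8 c11531 c11845 c5447 c5445 c5397 c5396 c5444 c11803 (k8 c5211 c5526 c5374 c5372 c9672 c9673 c9727 c11660 (k8 c5489 c5488 c5486 c5405 c5404 c5355 c5441 c5442 (k8 c5357 c5438 c5439 c5477 c5325 c5326 c5478 c9695 (k8 c11886 c8199 c9667 c5212 c8142 c8150 c8151 c5341 (k8 c5562 c11936 c5456 c5458 c5459 c5460 c5534 c5537 (k8 c5538 c6325 c8772 c10556 c11940 c2316 c11941 c11945 (k8 c11942 c2901 c2460 c2458 c11944 c1769 c5464 c1660 (k8 c11946 c9719 c9731 c8123 c2895 c5996 c3593 c5689 (k1 c2942 k0)))))))))) (by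 decide +kernel)
def c11948 : PP 9 3 T 0x80010000000000000000020081400000000400100000000000110044000000000000000000000000000000000000000000000000000000000000000000000 := rS 0x3ed26f1b8ef789 (k4 c5527 c5375 c5549 c8118 (k2 c8076 c5170 (k1 c5637 k0))) (by decide +kernel)
def c11949 : PP 9 3 T 0x8000001080000000000000000040008000000000000000000000000000000000004000000000000000000000000000000000000000000 := rS 0xdc8a40f8be78d92e911359f7e2fc3e58bc6f731c7259d6da1589cc52cb5eacce3b64c98592a1d86736a5f639f4fe633aabcd29733a565215 (k8 c11531 c11660 c5488 c5487 c5404 c5403 c5406 c5440 (k8 c5355 c5358 c5442 c5357 c5439 c11803 c5211 c11845 (k8 c5398 c5396 c5445 c5447 c11947 c5571 c5574 c5575 (k8 c5420 c5417 c5419 c5421 c10494 c8057 c7805 c11808 (k8 c8393 c5616 c2469 c3303 c5622 c5539 c2522 c5504 (k8 c5341 c1980 c5213 c5391 c5611 c11948 c5168 c5463 (k2 c8130 c9215 (k1 c2978 k0)))))))) (by decide +kernel)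
def c11950 : PP 9 3 T 0x1000000000002000000080000000000000000040008000000000000000000000000000000000008000000000000000000000000000000000010000020 := rS 0x1d0800e23da87c369330a659ac9 (k8 c5396 c2075 c5447 c5445 c5444 c5475 c1084 c5413 (k4 c9734 c713 c7110 c11922 (k1 c340 k0))) (by decide +kernel)
def c11951 : PP 9 3 T 0x8000000000000000000000000000008000000000000000001000000001100000000000004000000000000000000000800000041000000 := rS 0x1985c6a1b18a5c3a95 (k8 c5488 c5486 c5404 c5476 c5475 c5324 c1677 c493 (k1 c3577 k0)) (by decide +kernel)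
def c11952 : PP 9 3 T 0x8000100000000001a000100080000000000000000040008000100100000000000000040000000000000000000000000000000000000400400000000000010 := rS 0x1cd94011b1c472802f9f4f26b3da451f9c25c4dc6e149a6cc299 (k8 c5447 c5445 c5397 c5444 c5591 c5549 c5547 c5546 (k8 c5211 c5526 c5374 c5372 c9672 c5441 c5442 c5439 (k8 c5846 c11899 c751 c5654 c11854 c11898 c9719 c8466 k0))) (by decide +kernel)
def c11953 : PP 9 3 T 0x8000100000000000a000100080000000000000000040008000100100000000000000000000000000008000000000000000000000000400400000000000000 := rS 0x640031406cf118e06ede02bccbe633b9d4d2970e99d2bed0f86cf79cda8659ac9 (k8 c5396 c2075 c5393 c5413 c5211 c5372 c5475 c1084 (k8 c5500 c5488 c5487 c5486 c5404 c5403 c5440 c5356 (k8 c5355 c5439 c5325 c11950 c11952 c2331 c5654 c395 (k4 c2558 c6197 c10805 c5642 (k2 c10013 c1056 k0))))) (by decide +kernel)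
def c11954 : PP 9 3 T 0x8000000000000004a000100080000000000000000040008000100000000000000000000000000000008000000000000000000000000000400000000000000 := rS 0x3637d3be023c76b05f639e4c711359ed228fce6d5c29b (k8 c5397 c5591 c5413 c5211 c5526 c5374 c5372 c9672 (k8 c9727 c5355 c5441 c5357 c5439 c5212 c5341 c5562 (k4 c11953 c5458 c5538 c10556 (k1 c11941 k0)))) (by decide +kernel)
def c11955 : PP 9 3 T 0x80005000000000000000200080000000000000000040000000100000000000000000080000000000000000001400000000000000000400400000000005000 := rS 0x7f590810470371eb1cfe4b (k8 c5546 c5358 c5357 c2770 c2331 c5654 c546 c11852 (k2 c5558 c2907 (k1 c5655 k0))) (by decide +kernel)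
def c11956 : PP 9 3 T 0x80001000000000050000200080000000000000100040008000100000000000001000000000100000000000054000400000000000000000000004051000008 := rS 0x7232110942e350d8c4be870796c1b0380f8cdede40a3cfae348c4cf27f3de71c2c7 (k8 c5357 c5591 c5211 c5372 c5358 c5441 c5547 c5374 (k8 c5549 c5442 c5526 c5380 c3610 c5565 c8118 c5592 (k8 c5550 c9673 c5474 c9737 c8435 c5439 c5476 c5475 (k4 c5324 c1107 c1113 c6197 (k2 c3577 c395 (k1 c11867 k0)))))) (by decide +kernel)
def c11957 : PP 9 3 T 0x8000000000000004a000000080000000000000000040008000100000000000001000000000000000008000000000000000000000000000000000000000000 := rS 0xce1c3106e650000c4f5923015bde140e8076cd4ca6d921949bccbec73e9e4fe633b9d4d2970e99d2b11f687d061b07834d67b48a3e26e1f1e736ae3 (k8 c5549 c5413 c5211 c8118 c5591 c5547 c5526 c5374 (k8 c5372 c9672 c9673 c9737 c5475 c11573 c1084 c5500 (k8 c9727 c5488 c5487 c5486 c5404 c5403 c5440 c5356 (k8 c5355 c5358 c5441 c5442 c5357 c5439 c5325 c5444 (k8 c5393 c5396 c5397 c5447 c2075 c11951 c11954 c5380 (k8 c11870 c3610 c11950 c11955 c5562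 c2865 c11956 c5642 (k4 c1056 c11854 c10013 c5654 (k2 c10805 c2558 k0)))))))) (by decide +kernel)
def c11958 : PP 9 3 T 0x80000000000000010000101000000000000000000040008000000100000000000000000000000000000000000000400000000000000400000000050010020 := rS 0x22d1afe09211ee0b2c88c86452ebcdea870796c1a9147e709713819260215 (k8 c11531 c5592 c5588 c5550 c5547 c5546 c5211 c5526 (k8 c5374 c9673 c5474 c9737 c8435 c5477 c5325 c5321 (k8 c5326 c5478 c9734 c313 c718 c8123 c3571 c9111 (k4 c3593 c949 c2976 c11835 k0)))) (by decide +kernel)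
def c11959 : PP 9 3 T 0x4000000000049000000000000000000000000000008000000100000000000000000000500000000004004000000000000000000000000011000000000 := rS 0x26502c486ad (k4 c5490 c5478 c9422 c5680 (k2 c6206 c2928 k0)) (by decide +kernel)
def c11960 : PP 9 3 T 0x80000000000000059000000080000000000000000040008000100000000000000000000000100000000000004000000000000000000000000000000000010 := rS 0x399c4d8610b264de196527cbe6b4e8a537a112c76b1e34037fc0e1479f5c67948c4cf79c (k8 c5211 c5372 c5547 c5374 c5441 c5549 c5442 c5526 (k8 c5591 c5225 c5538 c5846 c8118 c5226 c5341 c5559 (k8 c11668 c5536 c9421 c9066 c9672 c5439 c11814 c11959 (k8 c1320 c1144 c1759 c5648 c1460 c10443 c751 c933 (k1 c5666 k0))))) (by decide +kernel)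
def c11961 : PP 9 3 T 0x80000000000000040000100080000000000000000000000000000000000000000000040000000000000000008000200000000000000411500001040000010 := rS 0x1c9406f388f800cb1b80c126325b8c92e1 (k8 c5591 c5588 c5549 c5546 c5355 c5438 c261 c1568 (k8 c1753 c5642 c3590 c752 c1060 c327 c5666 c1196 k0)) (by decide +kernel)
def c11962 : PP 9 3 T 0x80000000000000048000001080000000000000000040008000000000000000000000000000000000000000000000000000000000000000000000000000000 := rS 0x1607313b2c02180bb213e9302a008f1d208f42225d0b7c723bac0a7c1b17890c8a7d3cab55e1d9487d061b3da451f135ac55c3e3ce6d554e3 (k8 c5549 c11949 c5413 c5211 c8118 c5591 c5590 c5548 (k8 c5547 c5526 c5374 c5372 c5475 c11573 c1084 c11660 (k8 c5486 c5406 c5490 c5441 c5442 c5326 c5478 c9695 (k8 c11957 c5225 c9421 c5226 c5456 c5534 c5538 c11668 (k8 c5559 c5558 c5560 c5340 c5341 c5562 c5846 c11958 (k8 c11961 c11814 c11960 c1064 c5648 c9699 c1320 c380 (k2 c9719 c3582 (k1 c11832 k0)))))))) (by decide +kernel)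
def c11963 : PP 9 3 T 0x80000000000000008000001080000000000000000040008000000000000000000000000000000000000000000000000000000000000000000000000000000 := rS 0x24f8dfb693e959f2ee638e4b3ad96229db78e2ee389ca5228fc4e736aaa (k8 c11949 c5413 c5211 c5527 c5526 c5374 c11660 c5547 (k8 c5549 c5593 c8118 c11962 c5417 c5421 c8057 c7805 (k8 c11822 c8393 c5616 c5622 c5341 c5232 c5213 c5170 (k2 c5611 c5637 (k1 c10602 k0))))) (by decide +kernel)
def c11964 : PP 9 3 T 0x41001000000000018000020080000000000000200000008000000000400000001000040001100000000000504000000000400000000000080000041000010 := rS 0x40789c6ceef8c82e021138402d11a86c625f3e9e52e1d4a9ed228f128f4531d (k8 c5341 c5339 c5560 c5559 c5526 c5374 c5372 c5488 (k8 c5486 c5404 c5441 c5442 c5439 c5476 c5475 c5324 (k8 c1481 c11854 c1483 c8484 c5642 c1107 c3577 c5492 (k4 c5688 c11901 c5691 c5846 (k1 c5463 k0))))) (by decide +kernel)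
def c11965 : PP 9 3 T 0x100100000000001a000000080000000000000000040008000000000000000000000000001000000000000000000000000000000000000200000040000010 := rS 0x19000c501b3c46f30d97cc6773a9a52e674a9ef3819 (k8 c5393 c5211 c5372 c5488 c5487 c5404 c5403 c5440 (k8 c5356 c5355 c5439 c5475 c5325 c395 c2558 c6197 (k4 c10805 c5642 c10013 c1056 k0))) (by decide +kernel)
def c11966 : PP 9 3 T 0x4100100000000004a000100000000000000000200000008000000000000000001000000000000000000000000000000050000400000000000000000000018 := rS 0x7b961e3139b9964322ab55e2514c753e61ef8c82e194ba546a1d49b243631 (k8 c5476 c5475 c5396 c5444 c5486 c5324 c5488 c5404 (k8 c5393 c1107 c3577 c5492 c5445 c5448 c5341 c5339 (k8 c5559 c5406 c5490 c5326 c5478 c8466 c5666 c268 (k4 c8131 c3582 c5204 c5506 k0)))) (by decide +kernel)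
def c11967 : PP 9 3 T 0x4000100000000004a000100080000000000000000040008000100000000000001000000000000000008000000000000000000000000000000000000000000 := rS 0x1126f9c00473008d872052f877db9c3591d6a4b14d636a9b4c8ed9ac90ca4c3e1b (k8 c5475 c1084 c5444 c5393 c5396 c2075 c11951 c5447 (k8 c5397 c5413 c5231 c5339 c5342 c11945 c5562 c9672 (k8 c5211 c5500 c5486 c5439 c11950 c11965 c5654 c11854 (k4 c9719 c5642 c11966 c2331 (k2 c11964 c756 k0))))) (by decide +kernel)
def c11968 : PP 9 3 T 0x10000000080000000000000000000000000000000000000000000000000000000000000100000004000001000000000500000040001020 := rS 0xdc0e0b11b1cae0f (k8 c9737 c5353 c5357 c9734 c718 c713 c8484 c10699 k0) (by decide +kernel)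
def c11969 : PP 9 3 T 0x40000100000000000000000000000000000000000000000000000000000000000000000000000000040000000000000000001000010002 := rS 0xe26f (k2 c1060 c667 (k1 c5666 k0)) (by decide +kernel)
def c11970 : PP 9 3 T 0x400000000000a000000000000000000000200000008000000000000000001000000000400000000000000000000000000000000000000004000400000 := rS 0x6ab4fde3e5810c8aad578947a2920a7d43df6b8c832974a8d43a936486c631d (k8 c5341 c5476 c5475 c5396 c5444 c5486 c5324 c5488 (k8 c5404 c5393 c3577 c2185 c5492 c5398 c5448 c5340 (k8 c5339 c5560 c5559 c5406 c5490 c5326 c5478 c3582 (k4 c3579 c5506 c2086 c2996 (k1 c5689 k0))))) (by decide +kernel)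
def c11971 : PP 9 3 T 0x120080000000000000000000000000000000000000000000140000400000800000100000000040000000000000000000000000000 := rS 0xe3 (k2 c2458 c11943 k0) (by decide +kernel)
def c11972 : PP 9 3 T 0xa000120080000000000000200000008000100000000000001000140000400000000000000000000040000000000000000000800400000 := rS 0x1e313acc4a3d14a4c3299 (k8 c5447 c5393 c5444 c5339 c5560 c5559 c11971 c486 (k2 c10342 c11970 k0)) (by decide +kernel)
def c11973 : PP 9 3 T 0x4000000000000005a000100080000000000000000040008000100000000000001000140000000000000001000000000040000000000000000000040000010 := rS 0xe35945594220b808025f3da451f9c128456a4b14d60c299 (k8 c5447 c5445 c5231 c5339 c5342 c11945 c5558 c5559 (k8 c5211 c5526 c5374 c5372 c5439 c11969 c5642 c1107 (k4 c6197 c11972 c1292 c5685 (k2 c2458 c11946 k0)))) (by decide +kernel)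
def c11974 : PP 9 3 T 0x4000000000000004a000100080000000000000000040008000100000000000001000000000000000008000000000000000000000000000000000000000000 := rS 0x69b55afdff7bf87de3623ddc70124c0c40373288d648b8a800e4053637c72e14ef80864579bd4bec73c98cee75569a52e1d33a56220d359ef383d20c749647ac6d536614c8ed9ac90ca4c3e1b (k8 c5475 c1084 c5444 c5393 c5396 c2075 c11951 c5447 (k8 c5445 c5397 c5413 c5231 c5562 c5342 c5341 c5340 (k8 c5560 c5211 c5372 c9672 c9673 c9727 c5488 c5487 (k8 c5486 c5404 c5403 c5490 c5440 c5356 c5355 c5441 (k8 c5357 c5439 c5477 c5325 c5326 c5478 c11967 c5458 (k8 c5460 c5534 c5538 c10556 c11968 c11973 c9719 c1290 (k8 c855 c934 c9731 c1056 c11854 c10507 c2200 c345 (k8 c2900 c2458 c8123 c10013 c11685 c3590 c3593 c5996 (k4 c5451 c1766 c2996 c2942 (k1 c5689 k0)))))))))) (by decide +kernel)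
def c11975 : PP 9 3 T 0x4000000000000004a000000080000000000000000040008000100000000000001000000000000000008000000000000000000000000000000000000000000 := rS 0x37c6c3902f8627a01db35329b64865261d88fb43e1b359ed228fce11eb1b5 (k8 c5413 c5231 c5562 c5211 c5526 c5374 c5372 c9672 (k8 c5475 c1084 c5500 c9727 c5486 c5444 c5393 c5396 (k8 c5397 c5447 c2075 c11951 c11974 c5382 c11870 c11950 (k4 c11965 c5654 c2331 c11964 k0)))) (by decide +kernel)
def c11976 : PP 9 3 T 0xa000000000000000020080000000000000000000000000000000400000000000000000000000000000000000000000000000000000000000000000000 := rS 0x38d02c73e9e4fe7b48a3dc2df (k8 c5538 c5460 c5526 c5374 c5372 c5358 c5441 c5442 (k4 c5357 c5463 c5466 c3610 k0)) (by decide +kernel)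
def c11977 : PP 9 3 T 0x2000000000041000120080000000000000000000000000000000400000000000000000000000000014000000000000000000004000000000200015420 := rS 0x267037b2bc65f48a3ce615 (k8 c11531 c9718 c5526 c5374 c5439 c11976 c5680 c1144 (k2 c8466 c318 (k1 c8802 k0))) (by decide +kernel)
def c11978 : PP 9 3 T 0x41002000000000059000120080000000000000000000000000000000000000000000000000000001000000000002000000000000004000000001204811420 := rS 0x407ded458c0da6d77fa2fc5143732d667189285925f56abd2e9507b853e73 (k8 c9718 c11608 c5460 c9737 c5488 c5404 c5406 c5490 (k8 c5439 c1064 c1068 c11977 c756 c2457 c8466 c5666 (k8 c5685 c5680 c2978 c3010 c5465 c5579 c2630 c1295 (k4 c3618 c5585 c3072 c5694 k0)))) (by decide +kernel)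
def c11979 : PP 9 3 T 0x40002000000000049000100080000000000000000040008000000000000000000000000000000000008000000000000000000000000000000000000000020 := rS 0x6e070ba11ee2005964465d79bd58e570efb506870796c1a7bce09422b52587c3629ac6d47639 (k8 c5534 c5456 c5413 c5231 c5339 c5475 c1084 c5342 (k8 c11945 c5558 c5559 c5211 c5372 c9673 c5474 c9737 (k8 c8435 c11573 c5500 c5486 c5353 c5357 c5477 c5325 (k8 c5321 c9734 c313 c718 c7110 c8123 c3571 c11978 (k2 c714 c2419 (k1 c10699 k0)))))) (by decide +kernel)
def c11980 : PP 9 3 T 0x2000000000059000120080000000000000000000008000100100400000001000000001000001000004004000400040000000000000000011000010010 := rS 0x67a158b026b451aab0642804ecb0c05c040121914365f3f9dceaad57874f7e3 (k8 c11976 c5372 c5486 c5406 c5490 c5440 c5356 c5358 (k8 c5439 c5475 c5326 c5478 c11969 c5642 c1107 c5648 (k8 c1320 c380 c5680 c11959 c3582 c3000 c11832 c1198 (k4 c1295 c11609 c2629 c2634 (k1 c8115 k0))))) (by decide +kernel)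
def c11981 : PP 9 3 T 0x40002000000000049000120080000000000000000000008000100100500000001000000000000001008005004000000000400000004400000011000010010 := rS 0x6b311fcc97112602f70b26194b281994461936985428b8a8000672f190c8af37a97d8e79319dceaad34a5c3a674aed43e830d9ed9a9b (k8 c5536 c2076 c5372 c5475 c11573 c1084 c5413 c5488 (k8 c5487 c5486 c5404 c5403 c5490 c5440 c5356 c5355 (k8 c5441 c5357 c5439 c5477 c5325 c5326 c5478 c11976 (k8 c11980 c9716 c9719 c1290 c855 c1196 c930 c933 (k8 c9701 c9731 c1056 c2200 c5685 c5680 c3598 c5648 (k8 c8123 c2900 c2895 c1759 c1064 c3593 c3597 c2575 (k1 c1766 k0))))))) (by decide +kernel)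
def c11982 : PP 9 3 T 0x44002000000000000000020080000000000000000000000000000000000014000000000101000000000000000201400000000000000000000000000000000 := rS 0xc5679dcea7b (k4 c5372 c5440 c5356 c8707 (k2 c948 c8115 k0)) (by decide +kernel)
def c11983 : PP 9 3 T 0x40002000000000059000120080000000000000000000008000000100800000001000000001000001000004000000400040000000000000000011000000010 := rS 0x33d8ae340f8942d442a320501f7ac1fe8b13c50dccb5990c8a1b2f9dceaad57874f671 (k8 c756 c5372 c5486 c5406 c5490 c5440 c5356 c5439 (k8 c5475 c5326 c5478 c2457 c8466 c5666 c5685 c2814 (k8 c2978 c3010 c3582 c5506 c2144 c1295 c1147 c2630 (k8 c11982 c3000 c5680 c5463 c5466 c947 c2633 c8115 k0)))) (by decide +kernel)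
def c11984 : PP 9 3 T 0x40000000000000048000100080000000000000000040008000100000000000001000000000000000008000004000000000000000000000000000000000000 := rS 0x78d96806a23188fe6492602f70b2ca066511864c2a18a80006728927c864579bd4be633b9d55a694b874ce9588a0f386b128463a475a92c3e1b14d619a9d02f836bb1 (k8 c11975 c5413 c5225 c11979 c9066 c2076 c5231 c5339 (k8 c5475 c1084 c5342 c11945 c5562 c5341 c5558 c5559 (k8 c9672 c5211 c11573 c9727 c5488 c5487 c5486 c5404 (k8 c5403 c5490 c5440 c5356 c5355 c5439 c5477 c5325 (k8 c5326 c5478 c11814 c11981 c11983 c9716 c9719 c1290 (k8 c1196 c930 c9701 c9731 c1056 c2200 c5685 c5648 (k8 c8123 c2900 c2895 c1064 c3593 c3597 c2571 c948 (k4 c947 c1660 c5463 c5680 k0)))))))) (by decide +kernel)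
def c11985 : PP 9 3 T 0x40000000000000048000100080000000000000000040008000100000000000001000000000000000008000000000000000000000000000000000000000000 := rS 0x718fc92b250c54e4200032c6e2301a480a0931c444a111e9048eb52587c3629ac0edc2396ff8363b5 (k8 c5413 c11975 c5225 c5538 c5534 c5460 c5456 c5231 (k8 c5339 c5475 c1084 c5342 c11945 c5562 c5340 c5560 (k8 c5558 c5559 c9727 c5355 c5438 c11979 c11984 c261 (k8 c481 c1568 c1753 c5642 c7110 c11969 c1290 c1196 (k4 c5685 c345 c327 c2459 (k1 c3590 k0)))))) (by decide +kernel)
def c11986 : PP 9 3 T 0x41000000000000010000200000000000000000000000008000000100000000000000000000000000000000001404400000000000004400000000050011020 := rS 0x7fc0e03ef2421114f70596446452ebccb6f507c4c2615 (k8 c11531 c5564 c5382 c9737 c5477 c5474 c5325 c5321 (k8 c5326 c9734 c313 c718 c8123 c10689 c3571 c3574 (k4 c5583 c3068 c2629 c3006 (k1 c5694 k0)))) (by decide +kernel)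
def c11987 : PP 9 3 T 0x40006000000000059000020080000000000000000000008000000100400000001000000001400001000000004000500000000000000000000011000000000 := rS 0xc542b3dad0280fbd60ff13b5628a05990c8a1b3b9d55aaf0ea7dc48f3eb8522793f9edbec7 (k8 c5357 c5538 c5372 c5358 c5441 c5374 c5460 c5442 (k8 c5526 c3610 c1608 c5486 c5406 c5490 c5440 c5356 (k8 c5475 c5326 c5478 c2459 c5680 c5685 c3000 c2928 (k8 c3010 c3582 c5506 c2144 c1295 c1198 c8707 c2629 (k2 c1765 c8115 k0))))) (by decide +kernel)
def c11988 : PP 9 3 T 0x40006000000000049000020080000000000000000000008000100100400000001000000000000001008001004000100000000000004400000011000000010 := rS 0x311ac657f3dc00498088d92035940c2c618a865944322bcdea5f319dceaad34a5c3a674aed43e830db35c48f3eb8522793f9edbec7 (k8 c5357 c5538 c5372 c5358 c5441 c5374 c5460 c5442 (k8 c5526 c3610 c2076 c5475 c11573 c1084 c5413 c5488 (k8 c5487 c5486 c5404 c5403 c5490 c5440 c5356 c5355 (k8 c5439 c5477 c5325 c5326 c5478 c11987 c1320 c1292 (k8 c1755 c5648 c2200 c5685 c1107 c1064 c1258 c2900 (k8 c2895 c5642 c8123 c3593 c1056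 c2575 c3597 c1765 k0)))))) (by decide +kernel)
def c11989 : PP 9 3 T 0x40000000000000048000000080000000000000000040008000100000000000001000000000000000008000000000000000000000000000000000000000000 := rS 0x7fb5a29df32b54e2b3673dc00a0658dc463301a480a9f7178e2681d037c72e1688ed9be04eec56a4725c7482291e8444b581abcc62f504b1cfa793fabc3bed0fa0c36870796c1a7b48a3f39b5 (k8 c5413 c5211 c5526 c5374 c5372 c9673 c5474 c9737 (k8 c8435 c5475 c11573 c1084 c5500 c5486 c5406 c5358 (k8 c5441 c5442 c5357 c5438 c5477 c5476 c5325 c5324 (k8 c5231 c5559 c5558 c5560 c5339 c5340 c5341 c5342 (k8 c5562 c11945 c11975 c9066 c5225 c2076 c5456 c5459 (k8 c5460 c5534 c5538 c11985 c5380 c5382 c10517 c3610 (k8 c1608 c11986 c11988 c261 c322 c481 c1568 c1753 (k8 c11805 c5642 c8123 c3587 c2459 c2929 c3000 c1056 (k4 c5453 c5685 c11663 c3010 (k1 c1770 k0)))))))))) (by decide +kernel)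
def c11990 : PP 9 3 T 0x8000001080000000000000000040008000000000000000000000000000000000000000000000000000000000000000000000000000000 := rS 0x6e0820742615091897e2d81260359f7f87cbb981c71c96712ad9627314b2d3e71db7cc3feddaaa9e2f30d97cfa7f318765215 (k8 c11531 c11660 c5486 c5355 c5358 c5442 c5439 c5475 (k8 c5325 c9695 c11949 c5413 c5500 c1084 c11963 c11989 (k8 c5571 c5572 c5420 c5417 c5419 c5421 c8057 c7601 (k8 c7805 c11822 c8393 c2199 c5616 c5622 c5539 c5504 (k8 c5341 c10477 c514 c5227 c5168 c9182 c5660 c5398 (k4 c5445 c10494 c5463 c10411 (k2 c3599 c2745 k0))))))) (by decide +kernel)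
def c11991 : PP 9 3 T 0x80000000000000000000021000000000000000000080008000000100000000000000000000000000000000000000000000000000000000000000000010000 := rS 0x4296518890923d060d43974b60f05c4d23ef7f3dde64525c0492478190dea15 (k8 c11531 c5477 c5478 c5550 c5520 c5334 c5592 c5546 (k8 c5326 c5325 c5333 c3593 c5996 c5589 c5547 c5516 (k8 c5329 c5474 c5321 c5373 c5522 c5525 c5526 c3574 (k4 c2839 c8818 c2169 c949 (k1 c3571 k0))))) (by decide +kernel)
def c11992 : PP 9 3 T 0x1001000000000000000010080000000000000000080008000000000000000000000000001000000004002000000004000000010000000000000000000060 := rS 0x1a3df1c0c81ac53633cba357996c62c72b9d4760f058dc0711 (k8 c9728 c54 c5518 c5516 c5329 c5332 c5440 c5353 (k8 c5357 c5476 c5474 c5325 c5324 c5321 c1651 c8792 (k4 c10805 c2427 c10897 c10699 (k2 c5492 c9505 (k1 c6897 k0))))) (by decide +kernel)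
def c11993 : PP 9 3 T 0x1001000000000002000010080000000000000000000008000000000000001000000000005000000005001050000004000000010000000000000000000420 := rS 0x64d0629746a5b1895ceac94da640e61 (k8 c5445 c713 c5447 c5397 c5396 c5440 c5353 c5476 (k4 c5474 c5324 c5321 c10805 (k2 c3617 c10897 (k1 c9505 k0)))) (by decide +kernel)
def c11994 : PP 9 3 T 0x8100100000000000a000111080000000000000000000008000000000000008000000040000000000004000000000004000000000000000000000000000020 := rS 0x2150e3941b459c9d668258e792b9d52efd4aaa4760f058ddc3ef81c04964721915e6f57b92694590e81cc215 (k8 c11531 c5445 c713 c5486 c313 c11990 c5334 c5333 (k8 c5477 c5325 c5326 c5478 c5520 c5546 c5592 c5550 (k8 c5996 c5591 c5518 c5516 c5329 c5332 c5489 c5488 (k8 c5405 c5404 c5440 c5353 c5441 c5357 c5438 c2506 (k8 c11992 c11993 c174 c2394 c2558 c10447 c5827 c5672 k0))))) (by decide +kernel)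
def c11995 : PP 9 3 T 0x5000000000000000000011080000000000000000000000000000000000048000000000002000000000000000000000000000000000111000000000010040 := rS 0x8109a347e89413510a87ef8258e7d3f95cee15 (k8 c11531 c5356 c5353 c5358 c5442 c5357 c5438 c5495 (k8 c2073 c2502 c2507 c8541 c2840 c2996 c2175 c8818 (k2 c1659 c3569 k0))) (by decide +kernel)
def c11996 : PP 9 3 T 0x8100100000000000a000111080000000000000000000008000000000000008000000000001000000004000000000004000000000000000000000000000020 := rS 0x44a351685690e5a2ce4eb7812c73f95cee754bbf52aa91d83c1637f7c0e024b2390c8af37abdc934a2c8740e61 (k8 c5445 c713 c5486 c313 c11990 c5334 c5333 c5477 (k8 c5325 c5326 c5478 c5520 c5546 c5592 c5550 c5996 (k8 c5518 c5516 c5329 c5332 c5489 c5488 c5405 c5404 (k8 c5440 c5356 c5353 c5358 c5357 c5438 c11994 c11992 (k8 c11993 c174 c2558 c2565 c5827 c2938 c2083 c2840 (k1 c5673 k0)))))) (by decide +kernel)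
def c11997 : PP 9 3 T 0x100000000000000a000001080000000000000000000008000000000000000000000000001000000004001000000800000000000000000000000000002020 := rS 0x33da2792ba5dfa9554b253699 (k8 c5447 c5397 c5396 c5489 c5488 c5405 c5404 c5353 (k4 c5441 c9183 c2394 c3617 k0)) (by decide +kernel)
def c11998 : PP 9 3 T 0x8100100000000000a000111080000000000000000000008000000000000008000000000000000000004000000000000000000000000000000000000010020 := rS 0xde1cb4da2ceefa31888b32a1906894ea14186a369e99a078897cc6773a9a52e674a8ec6fb548b87df038092c8e432292440f30fbc43aa91186deaf7a53f4c23d3e9041215 (k8 c11531 c5438 c8151 c5442 c8150 c5445 c5405 c11990 (k8 c5333 c5477 c5475 c5331 c5489 c5486 c9695 c5517 (k8 c5325 c3581 c5334 c5326 c5478 c5520 c5546 c5592 (k8 c5550 c5996 c5591 c5589 c10456 c5518 c5332 c5488 (k8 c5487 c5404 c5403 c5440 c5356 c5355 c5439 c9728 (k8 c713 c11995 c11996 c742 c5665 c2371 c4691 c1135 (k8 c2840 c11997 c11575 c5733 c900 c10013 c5673 c5451 (k4 c899 c1707 c2083 c6897 (k2 c10447 c2565 k0))))))))) (by decide +kernel)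
def c11999 : PP 9 3 T 0x50000100000000000000000000000000000000000000008000000000000000000001000000000800000500000000000000000000000000 := rS 0xe600454402225 (k4 c9666 c9667 c8722 c2397 (k2 c9730 c855 (k1 c11969 k0))) (by decide +kernel)
def c12000 : PP 9 3 T 0x1000000000000000000011000000000000000000000000000000000000000000000000002000000000000000000400400000000000000000000000000000 := rS 0x10fdf (k2 c5495 c2073 (k1 c8541 k0)) (by decide +kernel)
def c12001 : PP 9 3 T 0x1000000000000000000010000000000000000000000008000000000000000000000000000000000004000000000400000020000000000000000200000010 := rS 0x1a0242005e61b (k4 c5475 c5325 c1056 c5733 (k2 c5642 c2540 (k1 c265 k0))) (by decide +kernel)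
def c12002 : PP 9 3 T 0x10000010000000000000000000000000000000000000000004000000000000000000000000002000000100000000000000000200000010 := rS 0x300836226b (k4 c2372 c845 c2540 c8158 (k2 c265 c5642 k0)) (by decide +kernel)
def c12003 : PP 9 3 T 0x8000100000000004a000101080000000000000000000008000000000000000000000000000000000004000000000000000000000000000000000000000000 := rS 0x1fa2d9c86448e5a285efb10cacd419ac0a312f98cee7534a5cce951d8df6ae348b87de200fbc43aa91186dfbed7f3dde64525c0492478190deb9d8ed60234a (k8 c11990 c9667 c5212 c5341 c11991 c5477 c5478 c5550 (k8 c5520 c5334 c5592 c5546 c5326 c5325 c5333 c3593 (k8 c11908 c5405 c5475 c5331 c5489 c5486 c9695 c5517 (k8 c3581 c5996 c5591 c5589 c5549 c10456 c5518 c5332 (k8 c5488 c5487 c5404 c5403 c5440 c5356 c5355 c5439 (k8 c5476 c11998 c2372 c11999 c12000 c12001 c10013 c5451 (k8 c12002 c1707 c6897 c2840 c5672 c5688 c900 c10445 (k1 c10474 k0)))))))) (by decide +kernel)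
def c12004 : PP 9 3 T 0x8000000000000004a000101080000000000000000000008000000000000000000000000000000000004000000000000000000000000000000000000000000 := rS 0xd46b8f9a7e36777dbecd1cf81fd1d208f6b011049f4763771b87df038092c8e4322bcdeaf724d283215 (k8 c11531 c5393 c11990 c5334 c5333 c5477 c5325 c5326 (k8 c5478 c5520 c5546 c5592 c5550 c5996 c5591 c5549 (k8 c5518 c5332 c5442 c5438 c9667 c5212 c8150 c8151 (k8 c5341 c3593 c12003 c5534 c5537 c5538 c6344 c7029 (k4 c11685 c2942 c9944 c1769 (k2 c5689 c2996 k0)))))) (by decide +kernel)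
def c12005 : PP 9 3 T 0x80000000000000008000221080000000000000000000008000000000000000000000000000000000000000000000000000000000000000000000000000000 := rS 0x7207200feb23d0837bc60d3d90c8af37a8258e7d3c9fcaf291d83dee49058dc8f4a25c4dc70348b86028146a251e15 (k8 c11531 c5568 c5567 c5381 c5380 c5592 c5591 c5589 (k8 c5550 c5549 c5547 c5546 c11990 c5520 c5518 c5516 (k8 c5334 c5333 c5329 c5332 c11660 c5353 c5358 c5441 (k8 c5442 c5357 c5438 c5477 c5325 c5326 c5478 c5372 (k8 c5522 c8118 c5846 c8977 c2770 c5558 c2907 c5655 (k2 c1734 c546 (k1 c3568 k0))))))) (by decide +kernel)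
def c12006 : PP 9 3 T 0x80000000000000000000201000000000000000000000008000000100000001040000000000000000000000000000000000800010001400000000000010000 := rS 0x43a0d14fef690c8a5d79bd4970348c051e15 (k8 c11531 c5568 c5592 c5589 c5550 c5546 c5477 c5325 (k8 c5321 c5326 c5478 c11908 c3593 c10689 c2396 c900 (k1 c11575 k0))) (by decide +kernel)
def c12007 : PP 9 3 T 0x80000000000000040000211000000000000000000000008000000000000001040000000000000000055000000000000000140000001400000010010012020 := rS 0x459950c83f6bf8e2b11209eb31c599a8b21b5ac0d2315809cd1a6f44a3d0af3 (k8 c5325 c2540 c5568 c5567 c5565 c5381 c5379 c5592 (k8 c5590 c5589 c5550 c5548 c5475 c313 c316 c2377 (k8 c12006 c5341 c351 c5651 c1092 c2754 c3623 c5544 (k4 c2396 c11575 c5733 c900 (k1 c3602 k0))))) (by decide +kernel)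
def c12008 : PP 9 3 T 0x80000000000000000000211000000000000000000080008000000100000000000000000000000000000000000000000000000000000000000000000010000 := rS 0x116594320dfded21914baf57bc0e02850623c26912392e26490583de615 (k8 c11531 c5325 c5329 c5516 c5334 c5547 c5546 c5520 (k8 c5589 c5564 c5568 c3574 c2540 c5592 c5550 c5333 (k8 c5477 c5321 c5326 c5478 c11908 c3593 c2396 c5672 (k2 c2111 c900 (k1 c10689 k0))))) (by decide +kernel)
def c12009 : PP 9 3 T 0x80000000000000040000211000000000000000000080008000000000000001000000000000000000055000000000000000140000000000000000010010000 := rS 0x8a4319507ed003f9660338ac44827acc700a850603c920b23c4d6b0348c560229103cc3ef11186deaf7259cd1a1337a251e15 (k8 c11531 c5568 c5567 c5565 c5564 c5381 c5379 c5546 (k8 c5333 c5477 c5475 c5331 c9695 c5517 c5325 c3581 (k8 c540 c5592 c5590 c5589 c5550 c5548 c5547 c5520 (k8 c5516 c5334 c5329 c3574 c2540 c12007 c12008 c5341 (k8 c351 c5651 c1092 c2754 c1113 c2760 c3623 c5642 (k4 c5544 c2396 c1056 c5672 (k2 c3602 c900 k0))))))) (by decide +kernel)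
def c12010 : PP 9 3 T 0x1001000000000002000010080000000000000000080008000000000000001000000000005000000005000050000004000000010000000000000000000020 := rS 0x4e02c0e61 (k4 c5445 c713 c5516 c11993 (k1 c11992 k0)) (by decide +kernel)
def c12011 : PP 9 3 T 0x100100000000000a000011080000000000000000000008000000000000000000000000000000000004000000000400000000000000000000010000020020 := rS 0xc532a190a6a369e99e273816622012f98cea694b99d2bb5103cc3ef10eaa4461b7abde94fd30d659a77 (k8 c5356 c12000 c5558 c5445 c5405 c11990 c5333 c5477 (k8 c5475 c5331 c5489 c5486 c9695 c5517 c5325 c3581 (k8 c10456 c5488 c5487 c5404 c5403 c5440 c5355 c5439 (k8 c53 c9728 c313 c719 c2859 c10436 c12010 c742 (k4 c5665 c4691 c11575 c5733 (k2 c899 c10013 k0)))))) (by decide +kernel)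
def c12012 : PP 9 3 T 0x8000000000000004a000001080000000000000000000008000000100000000000000000000000000004000000000000000000000000000000000000000000 := rS 0x91602738c41166d431950a6b02a0dfded219149247dac0d230114881e61f7888c36f57b92ce68d37a251fe1ac8433ba0a52a4ce1d7e9a55ead (k8 c5490 c5406 c5403 c5405 c5486 c5487 c5489 c11990 (k8 c12004 c12005 c12009 c5558 c11668 c5568 c5567 c5565 (k8 c5381 c5379 c5546 c5333 c5477 c5475 c5331 c9695 (k8 c5517 c5325 c3581 c540 c5592 c5589 c5550 c10456 (k8 c5520 c5334 c5326 c5478 c11908 c3593 c2396 c12011 (k8 c2372 c12002 c12001 c5672 c744 c900 c5665 c884 (k4 c2858 c3602 c5651 c1092 k0))))))) (by decide +kernel)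
def c12013 : PP 9 3 T 0x8000000000000004a000001080000000000000000000008000000000000000000000000000000000004000000000000000000000000000000000000000000 := rS 0x8a431c4ca8502a0fdafe59ac448278e564219df0a3d126f469cf40ad579a4ce47daad606918ac0452207987de21d5488c36f57bd29fa4b (k8 c5546 c5405 c11990 c5333 c5477 c5475 c5331 c5489 (k8 c5486 c9695 c5517 c5325 c3581 c540 c5592 c5590 (k8 c5589 c5550 c5548 c10456 c5520 c5487 c5403 c5406 (k8 c5490 c12004 c5379 c5381 c5565 c5567 c5568 c11668 (k8 c12005 c12009 c5558 c12012 c351 c5651 c1092 c2760 (k8 c3623 c5544 c2396 c12011 c12002 c12001 c2755 c5672 (k2 c3602 c900 k0))))))) (by decide +kernel)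
def c12014 : PP 9 3 T 0x1000000000011000010080000000000000000000008000000000000001000000000000000000000000000008000000040000000000000000250000020 := rS 0xc51981d9e174d264186a369746a5b1897cf2573a8662259 (k8 c313 c9728 c9698 c5440 c5353 c5441 c5439 c5476 (k8 c5474 c5324 c5321 c744 c5665 c2371 c2373 c9046 (k4 c1066 c2562 c714 c5284 (k2 c899 c10897 k0)))) (by decide +kernel)
def c12015 : PP 9 3 T 0x80000000000000000000001000000000000000000080008000000000000008000000000000000000000000000500000000000000000000000000000011000 := rS 0x4490c8af37a83dee490591c971381a460215 (k8 c11531 c5592 c5589 c5550 c5547 c5546 c5520 c5516 (k8 c5334 c5333 c5329 c5477 c5325 c5326 c5478 c2839 (k1 c8977 k0))) (by decide +kernel)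
def c12016 : PP 9 3 T 0x1001000000000000000000080000000000000000080008000000000000008000000000505400000954004050000004000000000000000000000010000020 := rS 0xd14c28192c5699746a5b0d8c4ae773abdc3259 (k8 c313 c9698 c5333 c5440 c5356 c5353 c5476 c5475 (k8 c5474 c5324 c5321 c2943 c10805 c10663 c3618 c2934 (k2 c1596 c7030 k0))) (by decide +kernel)
def c12017 : PP 9 3 T 0x1001000000000011000000080000000000000000080008000000000000008000000000501400000954004450000004000000000000000000000010001020 := rS 0x2e064c0e5a3df673cd8e571d83c1637 (k8 c5518 c5516 c5329 c5332 c5353 c5357 c5325 c12016 (k4 c5453 c174 c2558 c11160 (k2 c10699 c1463 (k1 c714 k0)))) (by decide +kernel)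
def c12018 : PP 9 3 T 0x81001000000000009000111080000000000000000000008000000000000008000000000000000000004000000000400000000000000000000000000010020 := rS 0x34d92a167a71327a4fb55aeb1659b910715926d1c8d36035086b4397d8e7d3aab55e9733a576b13103cc3ef10eaa4461b7abde94fd39c459a77 (k8 c5356 c12000 c9728 c9718 c5405 c11990 c5333 c5477 (k8 c5475 c5331 c5489 c5486 c9695 c5517 c5325 c3581 (k8 c5547 c10456 c5488 c5487 c5404 c5406 c5490 c5440 (k8 c5442 c5357 c5439 c12014 c11575 c5672 c316 c5665 (k8 c949 c12015 c2492 c2432 c2875 c2547 c2433 c8466 (k8 c1982 c1983 c2837 c2815 c12017 c1594 c743 c1649 (k4 c2934 c1275 c2943 c3618 k0))))))) (by decide +kernel)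
def c12019 : PP 9 3 T 0x80000000000000009000101080000000000000200000008000000000000000000000000000000000004000000000400000000000000000000000000010020 := rS 0x1a8d71f34fc6ceefb7c73e0669dc763771b87de3d3e90413ed7f3dde64525c0492478190deb9d8ed283215 (k8 c11531 c9698 c11990 c5341 c11991 c5477 c5478 c5550 (k8 c5520 c5334 c5592 c5546 c5326 c5325 c5333 c3593 (k8 c11908 c5438 c8151 c5442 c8150 c5996 c5591 c5549 (k8 c5518 c5332 c5356 c12000 c12018 c5534 c5538 c6344 (k4 c7029 c11685 c2942 c9944 (k2 c1769 c5689 (k1 c2996 k0))))))) (by decide +kernel)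
def c12020 : PP 9 3 T 0x80000000000000048000101080000000000000000000008000000000000000000000000000000000004000000000000000000000000000000000000000020 := rS 0xfc0e8150b2d241738268266f06785146a67a08b31139864be793f95d5f29daad4401f7887552230dbf7623d3e90412fe7bbcc8a4b809248f0321bd73b1dac0469415 (k8 c11531 c11990 c9667 c5212 c5341 c11991 c5477 c5478 (k8 c5550 c5520 c5334 c5592 c5546 c5326 c5325 c5333 (k8 c3593 c5438 c8151 c5442 c8150 c12013 c5405 c5475 (k8 c5331 c5489 c5486 c9695 c5517 c3581 c5548 c10456 (k8 c11660 c5406 c5353 c5358 c5441 c5439 c9698 c9718 (k8 c9728 c313 c12019 c2394 c8722 c2397 c7058 c2371 (k8 c2978 c2977 c10916 c5666 c1066 c9848 c1326 c2929 (k4 c752 c714 c327 c3569 k0)))))))) (by decide +kernel)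
def c12021 : PP 9 3 T 0x1001000000000000000000080000000000000000080008000000000200000000000000015000000000000050008000000150000000000000000011000000 := rS 0x19261ef2658a5f319dceaf7 (k8 c5333 c5440 c5356 c5355 c5439 c899 c7030 c5688 (k2 c881 c5494 (k1 c3597 k0))) (by decide +kernel)
def c12022 : PP 9 3 T 0x4000000000000000000111080000000000000000080000000000000000000004000100048000000000000000008000000000000000000000000000000000 := rS 0x378723b248dc8e15 (k8 c11531 c5520 c5518 c5334 c5332 c2558 c10447 c2565 k0) (by decide +kernel)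
def c12023 : PP 9 3 T 0x80000000000000048000101080000000000000000000008000000000000000000000000000000000004000000000000000000000000000000000000000000 := rS 0x7859ed368865191001a2cdacd431951283429ac0b9d7f7b63b580897cc6773a9a52e674aed522e1f7c0e024b2390c8a49103cc3ef10eaa4461b7abde94fd (k8 c5405 c11990 c5333 c5477 c5475 c5331 c5489 c5486 (k8 c9695 c5517 c5325 c3581 c5334 c5326 c5478 c5520 (k8 c5546 c5592 c5550 c5996 c5591 c5589 c10456 c5488 (k8 c5487 c5404 c5403 c5440 c5356 c5355 c5439 c9667 (k8 c5212 c5341 c11908 c3593 c11991 c12020 c2372 c12002 (k8 c11999 c2840 c5733 c5672 c12000 c744 c900 c266 (k8 c5665 c5673 c9701 c9572 c2083 c12022 c7058 c12021 k0))))))) (by decide +kernel)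
def c12024 : PP 9 3 T 0x80001000000000009000011080000000000000000000008000000000000000000000000440400000004010000400008000000000000000000000000020020 := rS 0x4fb55929c681b1086b41fb5fcb358a1c491156abd2e674a91f6ab581c55c301103cc3ef10eaa4461b7abde94fd (k8 c5405 c11990 c5333 c5477 c5475 c5331 c5489 c5486 (k8 c9695 c5517 c5325 c3581 c5592 c5591 c5590 c5550 (k8 c5548 c10456 c5520 c5488 c5487 c5404 c5406 c5490 (k8 c9728 c720 c12014 c1092 c2760 c3623 c5544 c2396 (k8 c11575 c5672 c5665 c848 c743 c2133 c1710 c1700 (k1 c3618 k0)))))) (by decide +kernel)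
def c12025 : PP 9 3 T 0x1000000000000050000011000000000000000000000008000000000000000000000000000000000054000001110400044140000000000000010200020010 := rS 0x48b0139c6208b36a18ca1bac9ad0af3 (k8 c5325 c12002 c2372 c5558 c5475 c12001 c5672 c744 (k4 c900 c5665 c884 c2858 (k2 c3602 c5651 (k1 c1092 k0)))) (by decide +kernel)
def c12026 : PP 9 3 T 0x82000000000000040000000000000000000000100000008000000000000001000000000000000000055000000000000000000000000400000010010000000 := rS 0x59ac448278e3fc364b5ac0e2b01 (k8 c5592 c5590 c5550 c5548 c5546 c5475 c5544 c11908 (k4 c351 c5651 c1092 c2760 (k1 c3623 k0))) (by decide +kernel)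
def c12027 : PP 9 3 T 0x80000000000000048000001080000000000000000000008000000000000000000000000000000000004000000000000000000000000000000000000000000 := rS 0xb3588904e717fc4105ed35814f4df69a85aecbf1564219df0a3d126f46a04e7a0d88a4407d3cab55e6933ca43ef723ed5e61d7ebd4474a0daa5e24b89ad5c70348c55c301 (k8 c5592 c5591 c5590 c5589 c5550 c5549 c5548 c5547 (k8 c5546 c9695 c5489 c5475 c11990 c5331 c5477 c5405 (k8 c5486 c5325 c10456 c5520 c5333 c5517 c11660 c5487 (k8 c5403 c5406 c5490 c5441 c5442 c3581 c540 c12013 (k8 c12023 c5379 c5380 c5381 c5565 c5567 c5568 c11668 (k8 c12005 c12009 c5558 c5226 c5464 c5465 c5578 c5579 (k8 c5580 c5846 c12024 c2372 c12026 c12025 c8722 c2396 (k4 c884 c2858 c5651 c1092 (k2 c2760 c3623 k0))))))))) (by decide +kernel)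
def c12028 : PP 9 3 T 0x8000100000000000a000111080000000000000000000008000000000000008000000000000000000008000000000000000400000000000000000000010020 := rS 0x6bac596d5441c58ad34733d1a38421ed0e6c0697ceaad57a5cce3b0fed5e61d7ebd4474a54bc626cd4186fda7739c44c299 (k8 c5447 c5445 c9728 c9718 c5356 c5500 c5475 c11573 (k8 c12000 c5547 c9695 c5489 c11990 c5331 c5477 c5405 (k8 c5486 c5325 c10456 c5517 c5332 c5487 c5404 c5406 (k8 c5490 c5440 c5439 c316 c5665 c744 c742 c5672 (k8 c11968 c949 c2558 c12015 c2943 c10805 c2875 c2547 (k4 c2838 c8466 c1982 c1983 (k1 c9617 k0))))))) (by decide +kernel)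
def c12029 : PP 9 3 T 0x8000100000000000a000111080000000000000000000008000000000000008000000000000000000008000000000000000000000000000000000000010020 := rS 0x347be3262b3da68c45a250c853501cc25d1a96c62573abf4169170fbe07012591c864579bd5ee49a5335061bf69dcb21d (k8 c5486 c313 c5356 c5500 c5475 c11573 c12000 c11990 (k8 c5334 c5333 c5477 c5325 c5326 c5478 c5520 c5546 (k8 c5592 c5550 c5996 c5591 c5589 c5516 c5405 c5440 (k8 c5353 c5476 c5474 c5324 c5321 c5445 c713 c12028 (k8 c2542 c1138 c2840 c900 c5673 c2083 c12022 c899 (k4 c10897 c5492 c9505 c5688 k0)))))) (by decide +kernel)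
def c12030 : PP 9 3 T 0x80008000000000000000000000000005000000000000210000000000000000000000000000011000000 := rS 0x1a2f7 (k2 c5333 c1595 (k1 c7030 k0)) (by decide +kernel)
def c12031 : PP 9 3 T 0x1000000000011000000000000000000000000080008000000000000008000000000505400000950004450000000000000000000000000000011000000 := rS 0xc950a7132d3 (k4 c2943 c12030 c5679 c2934 (k2 c1276 c3618 k0)) (by decide +kernel)
def c12032 : PP 9 3 T 0x80001000000000008000111080000000000000000000008000000000000008000000000000000000008000000000000000400000000000000000000010020 := rS 0x580c981cb47bece4fb55aeb1659b91071592391a8443a6cd80d2f8258e7d3c95ceaad57a5cce951d83c1637dabcdfaf511d2952f189b35061bf69dc3273889643bb1 (k8 c12029 c5486 c313 c9728 c9718 c9698 c5356 c5500 (k8 c5475 c11573 c12000 c5547 c9695 c5489 c11990 c5331 (k8 c5477 c5405 c5325 c10456 c5518 c5516 c5329 c5332 (k8 c5488 c5487 c5404 c5406 c5490 c5440 c5353 c5441 (k8 c5442 c5357 c5438 c5439 c316 c5665 c2492 c744 (k8 c5672 c949 c12015 c2432 c2875 c2547 c2433 c8466 (k8 c1982 c1983 c2837 c2815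 c12031 c5453 c174 c2558 (k4 c11160 c5745 c714 c1463 k0)))))))) (by decide +kernel)
def c12033 : PP 9 3 T 0x80001000000000008000111080000000000000000000008000000000000008000000000000000000008000000000000000000000000000000000000010020 := rS 0x341889a64085329d43214d5b12e8d4b6312f9e4ae773a99c3ef7dabcdfaf511d2836a978864b21d (k8 c5486 c313 c9698 c9695 c5489 c5475 c11990 c5331 (k8 c5477 c5405 c5325 c10456 c5333 c5517 c5487 c5440 (k8 c5356 c5353 c5441 c5439 c5476 c5474 c5324 c5321 (k8 c12029 c12032 c2542 c1138 c1135 c2373 c12014 c8250 (k4 c5679 c10663 c1190 c1707 k0))))) (by decide +kernel)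
def c12034 : PP 9 3 T 0x80002000000000000000100080000000000000200080008000000000000000000000000001000000000000000000000000000000000000000000000010000 := rS 0xcf19b59aa3e69f8fbedf1cb446a311d8ddc6e1f790412fe8ebdde64525c0492478190dea15 (k8 c11531 c5477 c5478 c5550 c5520 c5334 c5592 c5546 (k8 c5326 c5325 c5333 c5341 c3593 c5438 c8151 c5996 (k8 c5591 c5549 c5518 c5332 c5476 c5324 c5459 c5534 (k8 c5538 c6344 c11685 c2942 c10446 c2996 c5689 c2185 (k2 c1769 c3587 k0))))) (by decide +kernel)
def c12035 : PP 9 3 T 0x80001000000000008000111080000000000000000000008000000000000008000000000000000000008000000001000000400000000000000000000000000 := rS 0x67065a6d101a32208b329b50c892f98cea694b99d2bb50ebf446a978a45c3ef81c04964721915e6f57b92694cd4186fda77 (k8 c5356 c5500 c5475 c11573 c12000 c11990 c5334 c5333 (k8 c5477 c5325 c5326 c5478 c5520 c5546 c5592 c5550 (k8 c5996 c5591 c5589 c9695 c5489 c5331 c5405 c5486 (k8 c10456 c5488 c5487 c5404 c5403 c5440 c5355 c5439 (k8 c2840 c5672 c744 c2114 c900 c5665 c5673 c9729 (k4 c9572 c2083 c9701 c12021 (k1 c12022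 k0))))))) (by decide +kernel)
def c12036 : PP 9 3 T 0x80000000000000008000101080000000000000200000008000000000000000000000000000000000008000000000000000400000000000000000000010000 := rS 0x1b9108e360051a0d88a115e69da875fa2354bc62605f0b35061bf69df3afe8ebdde64525c049247a540c86f5 (k8 c5477 c5478 c5550 c11990 c5520 c5334 c5592 c5546 (k8 c5326 c5325 c5333 c5341 c3593 c11991 c5356 c5500 (k8 c5475 c11573 c12000 c12034 c12033 c5547 c9695 c5489 (k8 c5331 c5405 c5486 c10456 c5403 c5406 c12035 c845 (k8 c2540 c949 c8158 c5665 c12015 c2547 c2433 c8124 k0))))) (by decide +kernel)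
def c12037 : PP 9 3 T 0x80000000000000048000101080000000000000000000008000000000000000000000000000000000000000000000000000000000000000000000000000000 := rS 0x4eb338a311689012190a21009a80be166e75fd1dac09422293bbf4ce1f11ad52315f7c0e024b2390c8af37abdc934af6a0d541b (k8 c5475 c12027 c11573 c5500 c11990 c5334 c5333 c5477 (k8 c5325 c5326 c5478 c5520 c5546 c5592 c5550 c5996 (k8 c5590 c5589 c5548 c5331 c5517 c5487 c5405 c5356 (k8 c8199 c9667 c9666 c5212 c5341 c3593 c11991 c12000 (k8 c12034 c12033 c12036 c3979 c2372 c2542 c1138 c5642 (k4 c2840 c900 c5673 c753 (k2 c2378 c268 (k1 c3584 k0)))))))) (by decide +kernel)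
def c12038 : PP 9 3 T 0x1001000000000000000010080000000000000000000008000100000000000000000000105000000000000000158100000000010000004000000000010460 := rS 0x1a3df1935d8a5d1a96c62093e9fcae75 (k8 c5440 c5353 c5358 c5442 c5438 c5476 c5474 c5324 (k4 c5321 c899 c10802 c10897 (k2 c10339 c9505 (k1 c5688 k0)))) (by decide +kernel)
def c12039 : PP 9 3 T 0x81005400000000000000000000000000000800000080008000000000001000000015000001000000000000000000000000000000000000100000000000000 := rS 0x3e31bfa7949e378bfbe07012591c864579bd5ee49 (k8 c5334 c5333 c5477 c5325 c5326 c5478 c5520 c5546 (k8 c5592 c5550 c5996 c5593 c5518 c5335 c7451 c5692 (k2 c5557 c9523 (k1 c7440 k0)))) (by decide +kernel)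
def c12040 : PP 9 3 T 0x80015000000000000000000001000000000400100000000000140000000000000015000000000000000000000400000000000000000000000000000002020 := rS 0x1a58fe20a3f6fa44d2317 (k8 c5593 c5589 c5547 c5692 c5170 c5552 c10602 c581 (k2 c5610 c6187 k0)) (by decide +kernel)
def c12041 : PP 9 3 T 0x80005400000000048000000081000000000000000080008000140200001000000015000081100000008140400400100000000000000000100000000002020 := rS 0x105fac1fe2b85bb6977b8c3fde170d75b6753e4b386f1f793e9ff061df6d64529d2fa64d479 (k8 c5441 c316 c2373 c5439 c1135 c9692 c5341 c5500 (k8 c5486 c5407 c5358 c5442 c5359 c5443 c5475 c12039 (k8 c12040 c5469 c5621 c5623 c2089 c2944 c9954 c8031 (k8 c5233 c1389 c6451 c5616 c10607 c5627 c3444 c5632 (k2 c3390 c5695 k0))))) (by decide +kernel)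
def c12042 : PP 9 3 T 0x80000000000000048000001080000000000000000000008000000000000000000000000000000000000000000000008000000000000000000000000010020 := rS 0x926921f0bbfc37e2fb7c945b0db76c1ef6e474b7589793c93c9b1984a8d4ac94d8e480d173b49aee3eff8d9cd56518ce66f2fa7ce27f3ea5c0e611fa876020da88d52f10f99dfa2414d644f1c0e967c28194fbd9a778ba2d0c830de77daaa42830164b7aa44868f22c0607132383c92f7a53ce4e8dc6a274015 (k8 c11531 c12037 c5567 c5569 c5381 c5383 c5325 c11990 (k8 c5333 c5334 c5329 c5520 c5547 c5550 c5592 c5326 (k8 c5568 c5478 c5589 c5477 c5546 c5516 c8977 c2540 (k8 c12027 c5500 c12005 c5475 c11573 c5672 c900 c5593 (k8 c5356 c12000 c5996 c11660 c5380 c11668 c2111 c5486 (k8 c12008 c351 c5341 c9692 c5651 c5405 c5487 c5517 (k8 c9695 c5489 c5331 c10456 c315 c12014 c5398 c2909 (k8 c5445 c713 c5404 c5442 c5358 c2754 c5448 c5439 (k8 c5565 c5379 c5355 c3599 c1660 c12038 c5464 c5453 (k8 c5549 c1769 c5689 c5755 c174 c1091 c546 c5397 (k8 c5396 c5399 c5449 c11683 c5551 c5521 c5335 c5441 (k8 c5359 c11210 c4329 c5759 c12041 c3346 c3351 c3488 (k8 c3383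 c2567 c4705 c902 c2119 c7542 c2090 c996 (k4 c2945 c4477 c5674 c3615 (k1 c5391 k0))))))))))))))) (by decide +kernel)
def c12043 : PP 9 3 T 0x81001400000000008000000000000000000000000000000000000000001008000020080080800000500100000000000000000000000000000000000000000 := rS 0xc3c3f0b0d5faf7e10b82ba9db1afaf955aafc1e45c717 (k8 c5593 c5549 c5491 c5407 c5406 c5490 c5472 c5555 (k8 c2676 c1790 c2677 c4720 c5736 c5205 c2906 c1394 (k4 c2090 c3358 c4913 c5512 (k1 c3625 k0)))) (by decide +kernel)
def c12044 : PP 9 3 T 0x80000000000000048000001080000000000000000000008000000000000000000000000000000000000000000000000000000000000000000000000010020 := rS 0x49349f1bfc2e1b0f7dbe608d86dbb63707bdb91d2fe6f1edced26bb47bece1c901abe3038fd94614db2542a54fa8ce2b159ec0486a100a4be7d3c9fcc69733ca43fb57e88d52f171c65c317f79cd032737e37c2cd3bd644f1c0ec24b28b43214180b25bd4868f22c0513038991d1a0f24bde94f34186f3ba0f6aa92215 (k8 c11531 c5589 c12027 c5500 c12037 c12005 c5475 c11573 (k8 c5325 c11990 c5333 c5334 c5329 c5381 c5520 c5547 (k8 c5550 c5567 c5592 c5326 c5568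 c5478 c5477 c5546 (k8 c5516 c8977 c2540 c5672 c900 c2111 c11683 c5486 (k8 c12008 c351 c5341 c5356 c12000 c11668 c5569 c5565 (k8 c5383 c5380 c5379 c5996 c5593 c5591 c5551 c5549 (k8 c9695 c5489 c5331 c5405 c10456 c5517 c11660 c5487 (k8 c5404 c5355 c5358 c5441 c5442 c5439 c9692 c315 (k8 c316 c5651 c12014 c2377 c1092 c2754 c5449 c5448 (k8 c5399 c5398 c5396 c5397 c5445 c3599 c2909 c713 (k8 c5464 c1660 c1091 c546 c12038 c5453 c174 c1769 (k8 c5689 c5755 c12042 c5846 c2564 c12043 c12041 c3347 (k8 c3351 c4707 c3488 c3383 c2567 c2566 c902 c2119 (k8 c3125 c2090 c2945 c2093 c5628 c5674 c3615 c5391 k0)))))))))))))) (by decide +kernel)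
def c12045 : PP 9 3 T 0x1001000000000018000010080000000000000000080008000000000000000000000000005000000000000000008000000400000000000000000000000000 := rS 0x65a20388194be633b9d4d2970ea54da67 (k8 c5487 c744 c5488 c5486 c5404 c5403 c5440 c5356 (k8 c5355 c5439 c2114 c5665 c9729 c9572 c9701 c12021 k0)) (by decide +kernel)
def c12046 : PP 9 3 T 0x1001000000000000000000000000000000000000000000000000000000000040000000005000000000000000000000000000000000000008000000000000 := rS 0x1a3df (k2 c5492 c2129 (k1 c5688 k0)) (by decide +kernel)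
def c12047 : PP 9 3 T 0x1001000000000000000000080000000000000000000008000000200000000040000100005000000000000000158100000000000000000000000000000000 := rS 0x68f7da8d31f8cd8a7d2b9d6b259 (k8 c2111 c5341 c5440 c5353 c5442 c899 c12046 c405 (k4 c2081 c9190 c5454 c1710 (k1 c5688 k0))) (by decide +kernel)
def c12048 : PP 9 3 T 0x50000010000000000000000100000000000000000000000000000000000000000050000001118000044540000000000000004004000000 := rS 0x24580a4e20388194da8b (k8 c900 c744 c2114 c5665 c9729 c884 c9694 c3602 (k2 c5651 c1092 k0)) (by decide +kernel)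
def c12049 : PP 9 3 T 0x80000000000000048000001080000000000000000000008000000000000000000000000000000000000000000000000000000000000000000000000010000 := rS 0xc85d27b00126442013526d3a3968f7d9c0545a184f5942c7018432297c127956abcd297338ec3e0f7b924163723ed5e61d7ebd4474a54bc4971381a45c30139a051a6f44a3fc2cdcee81061bf6aa8ee15 (k8 c11531 c5356 c12027 c5500 c5475 c11573 c12037 c12005 (k8 c12000 c11668 c5568 c5567 c5565 c5381 c5380 c5379 (k8 c5592 c5591 c5589 c5550 c5547 c5546 c9695 c5489 (k8 c11990 c5331 c5477 c5405 c5486 c5325 c10456 c5520 (k8 c5518 c5516 c5334 c5333 c5329 c5517 c5332 c5487 (k8 c5404 c5403 c5406 c5490 c5441 c5438 c5439 c5326 (k8 c5478 c8977 c12008 c2540 c5341 c351 c5672 c900 (k8 c12044 c12047 c5453 c174 c2558 c1650 c2562 c12048 (k8 c3979 c2372 c2373 c5642 c11160 c261 c1107 c5393 (k1 c3578 k0)))))))))) (by decide +kernel)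
def c12050 : PP 9 3 T 0x1000000000010000010080000000000000000000008000000000000000040000000001000000008000000008000001000000000000000000010020020 := rS 0x360604d819923362a653acf3509ce1110c8a4025d1a96c36312f9e4ae773afb6b259 (k8 c2111 c5558 c5500 c5440 c5356 c5353 c5441 c5439 (k8 c5476 c5475 c5474 c5324 c5321 c53 c9692 c9698 (k8 c9728 c719 c2859 c5665 c10436 c1135 c2373 c899 (k4 c12046 c10663 c10897 c1189 (k2 c713 c5679 (k1 c5445 k0)))))) (by decide +kernel)
def c12051 : PP 9 3 T 0x81001000000000000000000080000000000000100080008000000000000000000000000005000000000000000118100000000000000004000000000000000 := rS 0xd1efb51a6fe8e8cd8a4322bcdea7d2b9d4924725c0dc3012cbdd1691 (k8 c5589 c900 c5333 c2111 c5592 c5591 c5550 c5546 (k8 c5520 c5334 c5440 c5353 c5442 c5477 c5325 c5326 (k8 c5478 c899 c12046 c12047 c3593 c2943 c9190 c5454 (k2 c1710 c5688 k0)))) (by decide +kernel)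
def c12052 : PP 9 3 T 0x50000010000000000000000000000000000000000000000000000000000000000050000001118000044540000000000000000004020000 := rS 0x7113442b26d (k4 c744 c5558 c5665 c12048 (k2 c884 c2858 k0)) (by decide +kernel)
def c12053 : PP 9 3 T 0x80001000000000050000010080000000000000000080008000000000000001000000000001000000058000040118100044140000000000000000010020000 := rS 0xc85d27b00126442013526d3a3968f7d9c0536bcc365f049e4761f11bdc6e91f6d647e7f (k8 c5358 c2907 c5558 c5500 c5589 c5518 c5333 c5331 (k8 c5517 c5332 c5441 c5438 c5439 c5475 c5325 c744 (k8 c12050 c12051 c5453 c174 c2558 c1650 c2562 c12052 (k8 c3979 c2372 c2373 c5642 c11160 c261 c1107 c5393 (k1 c3578 k0))))) (by decide +kernel)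
def c12054 : PP 9 3 T 0x80000000000000000000000080000000000000100000008000100000000000040000000015000000000000000402100000000000000404444000000000000 := rS 0x3df1905bc383d8d5e6317a9f4f24b89b8d22e1 (k8 c5591 c5589 c5549 c5547 c5546 c5441 c5442 c5477 (k8 c5476 c5325 c5324 c848 c3587 c5846 c546 c5580 (k2 c2770 c5655 k0))) (by decide +kernel)
def c12055 : PP 9 3 T 0x1001000000000000000000080000000000000000000008000000000000000000000000005000000000000000000000002001010000000004000000000020 := rS 0xc43d81cba352d8c4ae75 (k8 c5440 c5353 c5476 c5474 c5324 c5321 c713 c742 (k2 c10897 c10805 k0)) (by decide +kernel)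
def c12056 : PP 9 3 T 0x1001000000000050000000080000000000000000080008000100000000000000000100145100000050000050000100002000000000000000000010020020 := rS 0x9f6ba73c4cbd898162a14c890e0590c86cff594db1c66f7 (k8 c5333 c12046 c5357 c2492 c5558 c5358 c5475 c9698 (k8 c313 c719 c720 c12030 c2929 c1092 c12055 c5445 (k4 c1755 c5226 c5679 c5465 (k2 c1700 c3618 k0)))) (by decide +kernel)
def c12057 : PP 9 3 T 0x81001000000000050000000080000000000000000080008000100000000000001000000005000000050000050402100002000000000000000000010020001 := rS 0x13bb10c05d26024c815aad364b4066350d8c4be091d88dee3723b8603591f9fd36c7 (k8 c5357 c2492 c5358 c2907 c5558 c5592 c5591 c5520 (k8 c5518 c5333 c5331 c5332 c5438 c5439 c5476 c5475 (k8 c5324 c12046 c12054 c2134 c2135 c1710 c12056 c1595 (k4 c5642 c261 c1107 c3577 (k2 c5393 c1273 (k1 c5679 k0)))))) (by decide +kernel)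
def c12058 : PP 9 3 T 0x80000000000000048000001080000000000000000000008000000000000000000000000000000000000000000000000000000000000000000000000000000 := rS 0xf7c6416f018f639671b0020d88a10d6871fd6420cdcef851e8937a350273d020fdaaa639f4f27f2b9dd5aaf34a5cce95948ec1e0b1b91f6af30ebf5ea23a506d52f189b8d22e1 (k8 c5591 c5589 c5549 c5547 c9695 c5489 c5475 c11990 (k8 c5331 c5477 c5405 c5486 c5325 c10456 c5520 c5518 (k8 c5516 c5329 c5332 c11660 c5488 c5487 c5404 c5403 (k8 c5406 c5490 c5356 c5353 c5358 c5441 c5442 c5357 (k8 c12027 c5500 c11573 c12037 c5379 c5380 c5381 c5565 (k8 c5567 c5568 c11668 c12005 c12000 c12049 c5558 c2907 (k8 c12053 c1138 c5672 c845 c2540 c8158 c5665 c12057 (k8 c2558 c1649 c10699 c5846 c1734 c5580 c2770 c5655 k0)))))))) (by decide +kernel)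
def c12059 : PP 9 3 T 0x20000100000000000000080000000000001400000000000000000000009400000001000000050000000000000000001200000000 := rS 0x6d37800060547836f7110782c9a6b (k8 c2379 c5521 c5516 c5329 c5371 c5375 c5522 c5526 (k4 c11145 c265 c5642 c1060 (k2 c665 c3604 k0))) (by decide +kernel)
def c12060 : PP 9 3 T 0x1000000000000010000011000000000000000000000000000000200000000044000000000000000000000000000400000100000000000000000200080000 := rS 0x43a14b005 (k4 c3668 c299 c12002 c2111 (k1 c5672 k0)) (by decide +kernel)
def c12061 : PP 9 3 T 0x5000000000000010000111000000000000000000000008000000200000000040000000000000000000000001000400000100000000000000000200000000 := rS 0x432290a8d0284026f32dd651215 (k8 c11531 c1980 c5341 c5474 c5325 c12060 c5646 c9080 (k4 c701 c12002 c5673 c5672 (k1 c900 k0))) (by decide +kernel)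
def c12062 : PP 9 3 T 0x5000000000000010000111000000000000000000000008000000200000048040000000000000000000000001000000000100000000400000000200000000 := rS 0x44268e46a0ab215 (k8 c11531 c5341 c12061 c2175 c2396 c300 c2751 c5646 k0) (by decide +kernel)
def c12063 : PP 9 3 T 0x5000000000000010000011001500000000000000000008000010254400448040000000000000008150000001000000050140000000400000000200000000 := rS 0x1148632a162083bd23cdf2746e811215 (k8 c11531 c1980 c12062 c5381 c5383 c5565 c5568 c3616 (k4 c2396 c3299 c852 c1270 (k2 c5672 c3602 (k1 c900 k0)))) (by decide +kernel)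
def c12064 : PP 9 3 T 0x80000000000000008000001080000000000000000000008000000000000000000000000000000000000000000000000000000000000000000000000000000 := rS 0x2290c6542c42f48f37c9d1ba041aa9ff9dc6e271725d222441078dee639edb38956cb1398a56671db7be2f018aa4633035ac4c964322ab55e6933e45ee4923ed5e61d7ebd4474a0daa5e215 (k8 c11531 c9695 c5489 c5475 c11990 c5331 c5477 c5405 (k8 c5486 c5325 c10456 c5520 c5334 c5333 c5491 c5487 (k8 c5403 c5406 c5490 c5326 c5478 c5546 c5547 c5548 (k8 c5550 c5551 c5589 c5590 c5592 c5593 c5996 c12058 (k8 c5571 c5574 c5417 c5419 c5421 c8057 c7601 c7805 (k8 c11235 c8393 c5616 c2469 c3302 c8534 c1980 c5213 (k8 c5391 c5390 c5610 c5611 c12059 c12063 c8604 c11573 (k8 c12061 c5381 c5383 c5565 c5568 c3616 c3299 c852 (k4 c1270 c5672 c3602 c900 k0))))))))) (by decide +kernel)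
def c12065 : PP 9 3 T 0x20000000000000000000000008000000000000001040000000000000000005000000001000000100000000000000000050004404 := rS 0xda6500014b05d7996c36f588a1c1a83 (k8 c5525 c5522 c5373 c5371 c5477 c5475 c5474 c5325 (k4 c5321 c3571 c313 c5642 (k2 c1056 c665 (k1 c9248 k0)))) (by decide +kernel)
def c12066 : PP 9 3 T 0x40000000000000050000100000000000000000000000000000000000000000000000000000000001004000000602000040040000000000000000000000000 := rS 0x8aacdfc71 (k4 c753 c950 c8280 c3011 (k1 c5685 k0)) (by decide +kernel)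
def c12067 : PP 9 3 T 0x40000000000000058000100000000000000000000000008000000000000000000000000000000001000000000500000050000000001000000000000000000 := rS 0x9d6314372cc86ad148963b58 (k8 c5212 c5341 c9666 c8199 c5490 c5478 c8280 c5666 (k4 c5685 c1147 c3046 c6206 k0)) (by decide +kernel)
def c12068 : PP 9 3 T 0x20000000000000000000080000000000000000000000000000000000000000000000000000020000000004000000000200010000 := rS 0x9c4c1e490591d228f5a80c1a15 (k8 c11531 c5522 c265 c2608 c5526 c5374 c5520 c5516 (k4 c5334 c5329 c756 c2869 (k1 c3574 k0))) (by decide +kernel)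
def c12069 : PP 9 3 T 0x40000000000000050000100000000000000000000000000000000000000000000000000000000001004000000602000000040000000000000000000000400 := rS 0x1b564008a9ca24fe (k8 c950 c949 c12066 c3011 c9719 c5685 c665 c2456 k0) (by decide +kernel)
def c12070 : PP 9 3 T 0x41000000000000048000121000000000000000000080008000000000000000000000000000000000004000000000000000000000000000000000000000000 := rS 0xf7c05ff035922e2a72469c508035a88086453499c3e0f7b9241647dabcc3afd7a88c36a978c45068f258441a15 (k8 c11531 c5522 c9667 c8142 c5526 c5525 c5371 c9695 (k8 c5489 c5475 c5331 c5477 c5405 c5486 c5325 c10456 (k8 c5520 c5516 c5334 c5333 c5329 c5517 c5487 c5403 (k8 c5326 c5478 c3581 c2608 c265 c12065 c12068 c12069 (k8 c12067 c1290 c855 c5685 c10681 c11835 c2901 c5996 (k1 c5694 k0)))))) (by decide +kernel)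
def c12071 : PP 9 3 T 0x40000000000000058000100000000000000000000000008000000000000000000000000000000000008000000500000050000000001000000000000000000 := rS 0xdcb4 (k2 c12067 c5666 (k1 c4035 k0)) (by decide +kernel)
def c12072 : PP 9 3 T 0x40000000000000050000021000000000000000000000008000000000000040040000000000000001010000000100000020000000005400000000000014400 := rS 0x1005944c864579bd41a8f44c552215 (k8 c11531 c5374 c3048 c2872 c5526 c5522 c5477 c5325 (k4 c5326 c5478 c756 c5685 (k2 c8977 c2900 k0))) (by decide +kernel)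
def c12073 : PP 9 3 T 0x40000000000000050000121000000000000000000000008000000000000000040000000000000000018000000100000020000000001400000000000004400 := rS 0x8bf7c0160b481c551291258441a15 (k8 c11531 c5522 c9667 c8142 c5374 c2872 c3048 c2200 (k4 c12072 c1344 c1345 c5506 (k2 c3068 c5673 k0))) (by decide +kernel)
def c12074 : PP 9 3 T 0x40000000000000058000121000000000000000000000008000000000000000040000000000000000008000000100000000000000001400000000000004400 := rS 0x89f7ac168b3803fe066545c5400723890c8af30dbd55a6988a3c961106c76b015 (k8 c11531 c5212 c5341 c5522 c9667 c8142 c5526 c5371 (k8 c5403 c5490 c5477 c5475 c5325 c5326 c5478 c12073 (k8 c12071 c9719 c1290 c855 c1056 c2200 c11835 c3593 (k4 c2900 c5685 c1344 c5506 (k2 c1981 c5673 k0))))) (by decide +kernel)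
def c12075 : PP 9 3 T 0x41000000000000048000121000000000000000000080008000000000000000000000000000000000000000000000000000000000000000000000000000000 := rS 0x6c392ca2b127f2d508718096518aa8ed60ba5b5799c1ef72482c8fb579875faf51186d52f143835068f (k8 c5526 c5525 c5522 c5373 c9695 c5489 c5475 c5331 (k8 c5477 c5405 c5486 c5325 c10456 c5520 c5516 c5334 (k8 c5333 c5329 c5487 c5406 c5474 c5321 c5212 c5341 (k8 c12070 c12074 c2169 c2141 c753 c3571 c1345 c950 (k4 c949 c3010 c5685 c8280 (k2 c2456 c9719 (k1 c665 k0))))))) (by decide +kernel)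
def c12076 : PP 9 3 T 0x80100000000000000400100080000000004044000000000000000000000000000000000000000000000000500000000000000011000 := rS 0x8c15496492791c9a15 (k8 c11531 c5521 c5520 c5335 c5334 c8142 c3459 c3596 (k1 c8902 k0)) (by decide +kernel)
def c12077 : PP 9 3 T 0x45000000000000000000120000000000000400100080008000000004000011001000000000000009405000000000000050100000000000000005010000000 := rS 0xfe8a40e26109194f542c289b4de2f0021006207986dea1f11bde229135a3e362b02dec1b890583c9b1fc5c8749b9 (k8 c5616 c5213 c5606 c5390 c9714 c5521 c5329 c5516 (k8 c5527 c5522 c5375 c11145 c3197 c2469 c5526 c5523 (k8 c5374 c5371 c5333 c5331 c5517 c5477 c5475 c5325 (k8 c3581 c265 c12065 c5642 c9707 c1060 c665 c2464 (k8 c5652 c8098 c3274 c364 c12076 c703 c2629 c3604 (k2 c5694 c3011 k0)))))) (by decide +kernel)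
def c12078 : PP 9 3 T 0x41000000000000008000121000000000000000000080008000000000000000000000000000000000000000000000000000000000000000000000000000000 := rS 0x91ea858511794c00120880e24208a92dfd0355636438bd247e0359f781457178dee6396712ad96ab13989d7ab338ed852af3487c1e0b239376af30ebf5ea230daa5e291bd8371215 (k8 c11531 c5527 c5522 c5375 c5374 c9695 c5489 c5475 (k8 c5331 c5477 c5405 c5486 c5325 c10456 c5521 c5520 (k8 c5516 c5329 c5517 c5403 c5406 c8199 c12075 c5571 (k8 c5574 c5575 c5570 c5419 c5421 c5422 c8057 c7601 (k8 c7805 c8393 c5616 c2469 c3303 c3197 c11145 c5504 (k8 c5341 c10477 c9714 c5213 c5390 c5606 c5611 c12077 (k8 c2199 c6368 c9182 c3010 c8534 c12059 c265 c703 (k8 c6199 c5642 c2812 c9707 c2464 c5652 c8098 c364 (k1 c12076 k0))))))))) (by decide +kernel)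
def c12079 : PP 9 3 T 0x8000200000000000000000000000008000000100000000001000000000000000100000000040000010000000000000000010000010000 := rS 0xa642c10c8a5d0dab55e690e99ce68d099bd1215 (k8 c11531 c5567 c5565 c5564 c5381 c5379 c5487 c5486 (k8 c5403 c5406 c5490 c5475 c5321 c5326 c5478 c10689 (k2 c3602 c313 (k1 c9423 k0)))) (by decide +kernel)
def c12080 : PP 9 3 T 0x1000000000000000000000000000000000000000000000000000000000040004000000000000000000000001080000000000000008000000000000000000 := rS 0x203ef (k2 c5583 c3068 (k1 c9182 k0)) (by decide +kernel)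
def c12081 : PP 9 3 T 0x1000000000000000000000000000000000000000000000000000000000040004000000000000000204000000000000000000000008000000000000000000 := rS 0x203ef (k2 c5506 c2143 (k1 c9182 k0)) (by decide +kernel)
def c12082 : PP 9 3 T 0x41000000000000008000220000000000000000000000008000000000000040041000000000000000004000000000000000000000001400000000000014404 := rS 0x1c5620002961171d7f928baf30ea441a8f8984c5215 (k8 c11531 c9694 c5564 c5382 c5526 c5522 c5374 c5486 (k8 c5325 c5321 c3574 c2568 c6335 c12080 c10689 c313 (k4 c5642 c12081 c667 c12079 k0))) (by decide +kernel)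
def c12083 : PP 9 3 T 0x41000000000000050000000000000000000000000000008000000000000040040000000000000000054000001110000054140000001400000000200020004 := rS 0x11d25c05fe8a8a19566b1000916a051390c8af30dbd45359 (k8 c5558 c9694 c5477 c5475 c5325 c5326 c5478 c2858 (k8 c719 c2609 c5651 c5642 c1092 c5926 c1056 c5685 (k4 c3602 c3011 c3068 c12080 (k2 c6335 c3593 k0)))) (by decide +kernel)
def c12084 : PP 9 3 T 0x2000000000050000220080000000000000100000000000100000000000000000000000000000000000000000000000000000000000000000000000000 := rS 0xf1ec6227b489ad1f13 (k8 c5382 c5526 c5523 c5374 c5372 c5371 c11870 c11976 (k1 c5226 k0)) (by decide +kernel)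
def c12085 : PP 9 3 T 0x100100000000000a000020080000000000000000000000000000000000000000000000001000000004000000000000001010000000000000000000000000 := rS 0xce4e311365f639e4c6773a9a52e674ac44f66b (k8 c5523 c5372 c5371 c5488 c5487 c5404 c5403 c5440 (k8 c5356 c5355 c5441 c5357 c5439 c5397 c10013 c10556 (k2 c10805 c1651 k0))) (by decide +kernel)
def c12086 : PP 9 3 T 0x41001000000000058000020080000000000000000000008000000101400040040000000001000000004000000000100000000000005400000000200020400 := rS 0xc2c962a71a0cf7037dc7e2d89b4ca00133f84b01592d486457986dea5f3e9e4fe633b9d4d29733a54f68f1480c1b59 (k8 c5558 c5522 c265 c9694 c5526 c5372 c5488 c5487 (k8 c5404 c5403 c5440 c5356 c5355 c5358 c5441 c5442 (k8 c5439 c5477 c5475 c5325 c5326 c5478 c2608 c5685 (k8 c2901 c5926 c3593 c5651 c2859 c1056 c665 c12085 (k8 c5198 c5466 c5580 c5864 c1653 c3013 c2899 c10805 (k2 c2133 c1697 (k1 c3597 k0))))))) (by decide +kernel)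
def c12087 : PP 9 3 T 0x41000000000000058000220080000000000000000000008000100100000040041000000001000000004000000000000000000000001400000000240020400 := rS 0x101f7b159e9a4ca75a6e36bb2fc5b132814da255a2c5664a21915e61b3e9d5fa1d3da06261314c54e00306a24de8d3999cd2af56a47c359 (k8 c5558 c12084 c5374 c5490 c5406 c5403 c5487 c5379 (k8 c5381 c5565 c5567 c5522 c265 c12083 c3048 c9694 (k8 c5564 c5382 c5380 c5372 c5486 c5405 c5440 c5442 (k8 c5475 c5325 c5326 c5478 c12086 c2455 c12081 c5685 (k8 c1094 c2610 c720 c9423 c12085 c5198 c5464 c5465 (k8 c5466 c5579 c1342 c2612 c5679 c2562 c10805 c5896 (k2 c11742 c9182 k0))))))) (by decide +kernel)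
def c12088 : PP 9 3 T 0x41000000000000058000220080000000000000000000008000100000000000041000000000000000004000000000000000000000001400000000440004400 := rS 0xb2122d44f1c8a9c2b21081b35082901881e61b7ab1d5aaf34bf43a6754a441a7346c4cde89 (k8 c5567 c5565 c5382 c5381 c5379 c5522 c5374 c5489 (k8 c5487 c5486 c5405 c5403 c5406 c5490 c5357 c5477 (k8 c5475 c5325 c3581 c265 c9694 c12065 c2502 c2629 (k8 c12082 c5558 c12083 c3048 c12087 c351 c2609 c5651 (k2 c5685 c5926 k0))))) (by decide +kernel)
def c12089 : PP 9 3 T 0x40000000000000058000200000000000000000000000008000000100000020001000000000000001000000000040000010000000000000000000400010000 := rS 0x2958c5166ad (k4 c5490 c2900 c5685 c2144 (k2 c1289 c12079 k0)) (by decide +kernel)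
def c12090 : PP 9 3 T 0x1001000000000002000020080000000000000000000008000000000000000041000000001000000000000050000000001000000000000000000010000008 := rS 0x33938324db2432350d8c58e7931c44f66b498242e5f (k8 c5439 c1107 c5438 c261 c5523 c5372 c5371 c5355 (k8 c5441 c5357 c5476 c5475 c5324 c5393 c5396 c5397 (k4 c3577 c10556 c12046 c1650 k0))) (by decide +kernel)
def c12091 : PP 9 3 T 0x41001000000000050000220080000000000000000000008000100000000021041000000001000002000000050000000001000000000000000000010000008 := rS 0xc567a69329d69b8dae18f16c42e932f824f691 (k8 c5374 c5372 c5438 c5439 c261 c1107 c12090 c5198 (k8 c5648 c5465 c5466 c5579 c4111 c2612 c5679 c2562 (k2 c10805 c11742 k0))) (by decide +kernel)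
def c12092 : PP 9 3 T 0x100100000000000a000020080000000000000000000000000000000000000000000000001000000000000000000000001010000000000000000000000000 := rS 0xce4e311365f639e4c6773a9a52e674ac44f66b (k8 c5523 c5372 c5371 c5488 c5487 c5404 c5403 c5440 (k8 c5356 c5355 c5441 c5357 c5439 c5397 c10013 c10556 (k2 c10805 c1650 k0))) (by decide +kernel)
def c12093 : PP 9 3 T 0x41000000000000058000220080000000000000000000008000100100000040041000000000000000008000000001000010000000008000000000400010010 := rS 0xc567a69329d69b8daecbf16c4ca0001b34dab05a401161b4bbf43a953da1d228347a3626897fbcfc359 (k8 c5342 c12084 c5325 c2568 c5567 c5382 c5381 c5526 (k8 c5525 c5374 c5373 c5372 c5488 c5486 c5405 c5404 (k8 c5475 c12080 c3613 c12089 c1344 c2611 c4459 c12091 (k8 c5642 c1056 c12092 c5198 c5464 c5465 c5466 c5579 (k4 c1342 c2612 c5679 c2562 (k2 c10805 c11742 k0)))))) (by decide +kernel)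
def c12094 : PP 9 3 T 0x40000000000000000000000100080000000000000000080000000000000000000008000000000000000000000000000000000004000000 := rS 0x9c52258a2c04649 (k8 c5334 c5331 c2199 c2200 c1092 c1289 c3046 c5651 k0) (by decide +kernel)
def c12095 : PP 9 3 T 0x41001000000000050000220080000000000000000000008000100000000021041000000000000000408000050000000020000000000000000000010010010 := rS 0xcc36ac004b400c552313 (k8 c5382 c5374 c3048 c667 c5685 c5642 c1344 c2610 (k2 c12091 c4459 k0)) (by decide +kernel)
def c12096 : PP 9 3 T 0x41000000000000048000220080000000000000000080008000100000000000001000000000000000000000000001000000000000000000000000000010000 := rS 0x23a7159c011703f0bfeb24a56a5d2a9147a36261344aab6afd0daa48e491187c0a5843bdcb65d79bd41a0b4183c3a15 (k8 c11531 c5486 c5329 c5525 c5516 c5522 c5477 c5325 (k8 c5321 c5474 c5333 c5373 c3571 c313 c5517 c5331 (k8 c5334 c5520 c5489 c5475 c5405 c10456 c12088 c5567 (k8 c5564 c5382 c5381 c5526 c5374 c5488 c5404 c5490 (k8 c3574 c5342 c2568 c12084 c12094 c12080 c3613 c2900 (k2 c12095 c6335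 (k1 c12093 k0))))))) (by decide +kernel)
def c12097 : PP 9 3 T 0x45001000000000000000000000000000000000000000000000000000000008000000000002000000000000000000000000000000000000000000000000000 := rS 0x789bddf (k4 c5495 c2506 c5204 c5580 k0) (by decide +kernel)
def c12098 : PP 9 3 T 0x45001000000000002000000080000000000000000000008000000000000000001000000000000000000000054000100054000000000000000000010400000 := rS 0xf1f7d943230b2432a14f8d436312f9f4fe63 (k8 c5355 c5358 c5442 c5439 c5476 c5475 c5324 c5448 (k8 c5398 c5393 c5396 c5445 c3577 c3599 c5492 c5464 (k1 c5204 k0))) (by decide +kernel)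
def c12099 : PP 9 3 T 0x41001000000000050000020080000000000000100080008000100100400010001000000000000000048000050000100054000000004000000004010000000 := rS 0x70275bee30c78b621749808502559455fdef5a90c8af37a97c12c73e9e4fe237b9248e7b48a3e061b (k8 c5475 c12094 c5526 c5374 c5372 c5520 c5334 c5333 (k8 c5331 c5358 c5441 c5442 c5357 c5438 c5439 c5477 (k8 c5325 c5326 c5478 c1345 c9072 c3593 c3010 c5685 (k8 c5926 c5651 c9694 c261 c1107 c12098 c5198 c5648 (k4 c5466 c5580 c1273 c3610 (k1 c2899 k0)))))) (by decide +kernel)
def c12100 : PP 9 3 T 0x40000000000000050000200000000000000000000000008000000100000020001000000000000001050000000040000010140000000000000000410000010 := rS 0x293245162432286ce68d099bd12b3 (k8 c2900 c5567 c5565 c5564 c5381 c5379 c5475 c5326 (k4 c5478 c2144 c5685 c3602 (k2 c1289 c9423 k0))) (by decide +kernel)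
def c12101 : PP 9 3 T 0x41000000000000050000220080000000000000100000008000100100000021041000000000000000058000050000000010140000000000000004410000010 := rS 0x4cd141b560255a22d23e1 (k8 c12084 c5374 c3068 c12100 c4007 c1344 c2611 c5651 (k2 c4459 c9694 (k1 c12091 k0))) (by decide +kernel)
def c12102 : PP 9 3 T 0x41000000000000050000220080000000000000100080008000100100000001001000000000000000058000050001000010140000000000000004010000000 := rS 0x45bfc950111a451e7340a36266f44814b0877b96cbaf37a834168307f86061b (k8 c5475 c12094 c12084 c5329 c5525 c5516 c5522 c5477 (k8 c5325 c5321 c5474 c5333 c5373 c3571 c313 c5567 (k8 c5565 c5382 c5381 c5380 c5379 c5526 c5374 c5331 (k4 c12101 c12099 c2568 c12080 (k1 c3613 k0))))) (by decide +kernel)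
def c12103 : PP 9 3 T 0x41000000000000050000220080000000000000000080008000100000000001001000000000000000058000050001000010140000000000000000010020000 := rS 0x3813adf71863c5b10ba4c042812aca2ab57f407df1c1397c12c73e9e4fe237b9ed228f39a06266ff0c0eb21b (k8 c5475 c5558 c12094 c12084 c5565 c5382 c5380 c5379 (k8 c5526 c5374 c5372 c5333 c5331 c5358 c5441 c5442 (k8 c5357 c5438 c5439 c2858 c12102 c5504 c2139 c6335 (k8 c1345 c3010 c5685 c5926 c5651 c9694 c261 c1107 (k8 c12098 c5198 c5648 c5466 c5580 c1273 c3610 c2899 k0))))) (by decide +kernel)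
def c12104 : PP 9 3 T 0x41001000000000058000020080000000000000000000000000000000400008000000000001000000800000000001100000000000000000000000004000402 := rS 0x30b258a9c6838136df71f8b626d3297d8e7d3c9fcc6773a9a52e674a9ed228f (k8 c5526 c5374 c5372 c5488 c5487 c5404 c5403 c5440 (k8 c5356 c5355 c5358 c5441 c5442 c5357 c5439 c1056 (k8 c665 c12092 c5198 c5466 c5580 c2496 c3610 c3013 (k4 c2899 c1707 c2134 c1696 (k1 c3597 k0))))) (by decide +kernel)
def c12105 : PP 9 3 T 0x45001000000000002000020080000000000000000000008000000000400000001000000000000000800000054000100000000000000000000000010400000 := rS 0x3c7df6f38c64e14cb24329f1a86c627d3c9ed228f (k8 c5526 c5374 c5372 c5441 c5442 c5476 c5475 c5324 (k8 c5448 c5393 c5396 c5447 c2898 c3577 c2458 c5846 (k2 c5492 c5580 (k1 c5204 k0)))) (by decide +kernel)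
def c12106 : PP 9 3 T 0x41001000000000048000020080000000000000000080008000100100400050001000000000000000800000000001100000000000004000000000000000000 := rS 0x3813adf71863c5b10ba4c040166bfbde432297c12c73e9e4fe974a9248fb57e88c36a93da451e052c21dee5b2ebcdea0d05a0c1e1d (k8 c5486 c5329 c5525 c5516 c5522 c5477 c5325 c5321 (k8 c5474 c5333 c5373 c3571 c313 c5526 c5374 c5372 (k8 c5489 c5475 c5331 c5405 c10456 c5520 c5334 c5488 (k8 c5404 c5358 c5441 c5442 c5357 c5438 c5439 c5326 (k8 c5478 c9072 c3593 c12097 c12104 c5642 c261 c1107 (k8 c12105 c5198 c5648 c5466 c5580 c1273 c3610 c2899 k0)))))) (by decide +kernel)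
def c12107 : PP 9 3 T 0x1000000000000000000020000000000000000000000000000000000400050004000000000000000000000000111000000000000008000000000000000000 := rS 0x116ff43a45068f (k4 c5526 c5525 c5374 c5373 (k2 c2568 c12080 (k1 c3613 k0))) (by decide +kernel)
def c12108 : PP 9 3 T 0x41001000000000048000020080000000000000000080008000100000400050001000000000000000008000000111100020000000000000000000000000000 := rS 0x1c09d6fb8c31e2d885d26020089e39ef25ac96a432297c12c73e9e4fe974a91f6afd1186d527b47814b0877b96cbaf37a8341683078762a91 (k8 c5374 c3048 c5486 c5329 c5525 c5516 c5522 c5477 (k8 c5325 c5321 c5474 c5333 c5373 c3571 c313 c5526 (k8 c5372 c5489 c5475 c5331 c5405 c10456 c5520 c5488 (k8 c5404 c5358 c5441 c5442 c5357 c5438 c5439 c5326 (k8 c5478 c1345 c5685 c12107 c9072 c12106 c351 c668 (k8 c5642 c261 c1107 c12105 c5198 c5648 c5466 c5580 (k2 c1273 c3610 (k1 c2899 k0)))))))) (by decide +kernel)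
def c12109 : PP 9 3 T 0x41000000000000048000220080000000000000000080008000100000000000001000000000000000000000000001000000000000000000000000000000000 := rS 0x62b3d34994eb4dc6d765f8b62650000d9a6d582d167008a9c207e1ac8400a582e96d5aaf34a5cce953da1d220d41a051b1344aab6af30ebf5ea1b5491c16497b88c1e1f (k8 c5517 c5329 c5331 c5333 c5334 c5516 c5520 c5489 (k8 c5475 c5477 c5405 c5486 c5325 c10456 c12088 c5567 (k8 c5382 c5381 c5380 c5525 c5522 c5374 c5373 c5372 (k8 c5488 c5487 c5404 c5403 c5406 c5490 c5474 c5321 (k8 c3571 c313 c12096 c5558 c12084 c12094 c12103 c3048 (k8 c12108 c2900 c5685 c1344 c2610 c4459 c12091 c5642 (k8 c1056 c12092 c5198 c5464 c5465 c5466 c5579 c1342 (k4 c2612 c5679 c2562 c10805 (k1 c11742 k0))))))))) (by decide +kernel)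
def c12110 : PP 9 3 T 0x220000000000000000200080000000000000000000000000000000000000000000000000000000000000000000000000000000000 := rS 0x258441e490591d220d47c4c2615 (k8 c11531 c5564 c5382 c5526 c5522 c5374 c5520 c5516 (k4 c5334 c5329 c5558 c5342 (k1 c3574 k0))) (by decide +kernel)
def c12111 : PP 9 3 T 0x41001000000000058000020080000000000000000000000000000000400008000000000001000000800000000000100000000000000000000000004000402 := rS 0x30b15929c6838136df71f8b626d3297d8e7d3c9fcc6773a9a52e674a9ed228f (k8 c5526 c5374 c5372 c5488 c5487 c5404 c5403 c5440 (k8 c5356 c5355 c5358 c5441 c5442 c5357 c5439 c1056 (k8 c665 c12092 c5198 c5466 c5580 c2496 c3610 c3013 (k4 c2899 c2134 c1706 c1696 (k1 c3597 k0))))) (by decide +kernel)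
def c12112 : PP 9 3 T 0x1000000000000048000021080000000000000000000008000000000000010000000000000000000000000000000000000000000004000000000000000000 := rS 0x70275bee30c78b621749808020512aca2afef784086452f824fa793fabd2e953da441a8f40a3512cd63c0d0913f0d656aaad07cf6af30ebf5ea1b5491c16497b88c1e1fa54a5e215 (k8 c11531 c9695 c11660 c11990 c5517 c5329 c5331 c5333 (k8 c5334 c5516 c5520 c5489 c5475 c5477 c5405 c5486 (k8 c5325 c10456 c12064 c12078 c12088 c1345 c12110 c12084 (k8 c5382 c12109 c2629 c5357 c2502 c5567 c5381 c5380 (k8 c5526 c5522 c5374 c5372 c5488 c5404 c5406 c5358 (k8 c5441 c5442 c5438 c5439 c5326 c5478 c8977 c9072 (k8 c5694 c3010 c5685 c5926 c720 c12111 c5642 c261 (k8 c1107 c12105 c5198 c5648 c5466 c5580 c1273 c3610 (k1 c2899 k0))))))))) (by decide +kernel)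
def c12113 : PP 9 3 T 0x40000000000000050000000000000000000000000000000000000000000000000000000000000001000000000000000000000000008000000020400001000 := rS 0x590862a02 (k4 c9694 c1289 c265 c5685 (k1 c2454 k0)) (by decide +kernel)
def c12114 : PP 9 3 T 0x8000200000000000000000000000008000000100000000001000000000000000100000000040000000000000000000000012000010000 := rS 0x70 (k2 c12079 c2754 k0) (by decide +kernel)
def c12115 : PP 9 3 T 0x1000000000000048000021080000000000000000000008000000000000010000000000000000000000000000000000000000000000000000000000000000 := rS 0x64029c42114122cc52b18e89fdc8b7f9296a4322ab55e6933a441a734684cde89acaab6af30ebf5ea1b5491c16497b88c1e1f81a1252f189e83e74a (k8 c11990 c12064 c12078 c5382 c9695 c11660 c12109 c2629 (k8 c5517 c5329 c5331 c5333 c5334 c5516 c5520 c5489 (k8 c5475 c5477 c5405 c5486 c5325 c10456 c12088 c12110 (k8 c5567 c5565 c5564 c5381 c5379 c5522 c5374 c5487 (k8 c5403 c5406 c5490 c5326 c5478 c1345 c12112 c2568 (k8 c12080 c9182 c354 c6335 c5506 c12113 c2455 c5651 (k4 c5685 c12114 c3048 c719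 (k2 c3602 c9423 k0)))))))) (by decide +kernel)
def c12116 : PP 9 3 T 0x40000000000000050000200000000000000000000000008000000100000020001000000000000001050000001000000000140000000000000000410020000 := rS 0x538c5116b3 (k4 c2900 c3068 c5685 c3048 (k2 c719 c12100 k0)) (by decide +kernel)
def c12117 : PP 9 3 T 0x41001000000000058000220080000000000000000000008000100000000020041000000001000000000000000000000000000000005400000000440004400 := rS 0x62b3d34994eb4dc6d765f8b62650000c0a213689568100dab55e694bbf43a674ac44f691069ad1f1309aaa3a15 (k8 c11531 c2139 c12088 c5564 c5382 c5526 c5523 c5522 (k8 c5374 c5372 c5371 c5488 c5487 c5486 c5405 c5404 (k8 c5403 c5406 c5490 c5475 c3574 c12116 c4007 c2610 (k8 c2608 c720 c12091 c3566 c1056 c12092 c5198 c5464 (k8 c5465 c5466 c5579 c1342 c2612 c5679 c2562 c10805 (k1 c11742 k0)))))) (by decide +kernel)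
def c12118 : PP 9 3 T 0x41000000000000058000220080000000000000100000008000100000000020041000000001000000008000000000000000000000008000000000400010000 := rS 0xc567a69329d69b8daecbf16c4ca00019b44cb438814b05d0dabcd2977e874ce953df85169159ab63a15 (k8 c11531 c2139 c5490 c2900 c5374 c3068 c12084 c5372 (k8 c5488 c5487 c5486 c5405 c5404 c5403 c5406 c5475 (k8 c5321 c10689 c313 c12095 c12100 c12101 c2611 c3639 (k8 c5642 c1056 c12092 c5198 c5464 c5465 c5466 c5579 (k4 c1342 c2612 c5679 c2562 (k2 c10805 c11742 k0)))))) (by decide +kernel)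
def c12119 : PP 9 3 T 0x1000000000000048000021080000000000000000000008000000000000000000000000000000000000000000000000000000000000000000000000000000 := rS 0x62b3d34994eb4dc6d765f8b62650000c0a6d12ad0204a8ec03c2cd422a98ead579a52e674aca43e0f7b9241647dabcc3afd7a88c36a9789ed2313ace83e74a (k8 c11990 c12064 c12078 c12110 c5382 c5374 c5372 c9695 (k8 c5489 c5475 c5331 c5477 c5405 c5486 c5325 c10456 (k8 c5520 c5516 c5334 c5333 c5329 c5517 c11660 c5488 (k8 c5487 c5404 c5403 c5406 c5490 c5357 c12088 c12109 (k8 c2502 c12084 c12115 c2139 c12117 c12118 c12116 c4007 (k8 c2610 c720 c12091 c5642 c1056 c12092 c5198 c5464 (k8 c5465 c5466 c5579 c1342 c2612 c5679 c2562 c10805 (k1 c11742 k0)))))))) (by decide +kernel)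
def c12120 : PP 9 3 T 0x1000000000000008000021080000000000000000000008000000000000000000000000000000000000000000000000000000000000000000000000000000 := rS 0x77bc3f0f1b9beeecfabadcae96eea64be4d27bf731cd8d9c4ab6588a44fb6c6c9d0273d03c486450d97f1f793e9fcc6ad57876534af99eef789 (k8 c5527 c5375 c5372 c12064 c11990 c11660 c5486 c5406 (k8 c5490 c5355 c5358 c5442 c5359 c5443 c5439 c5475 (k8 c5326 c5478 c9695 c12078 c5379 c5380 c5383 c5569 (k8 c12119 c5570 c5417 c5421 c8057 c7601 c7805 c8833 (k8 c3582 c5616 c5504 c5213 c5227 c5391 c5388 c5471 (k8 c5472 c5622 c5623 c8870 c5931 c9954 c7476 c5467 (k4 c5208 c5461 c5204 c9516 k0))))))) (by decide +kernel)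
def c12121 : PP 9 3 T 0x8000021080000000000000000000008000000000000000000000000000000000000000000000000000000000000000000000000000000 := rS 0x10810aabf6035e2f30dbd4d2fd0eaa43e0f11bdc174a (k8 c11990 c5516 c5333 c5331 c5329 c5517 c5489 c5486 (k8 c5405 c5403 c5477 c5475 c5325 c9695 c5522 c12120 (k4 c5500 c5541 c3581 c12065 (k1 c265 k0)))) (by decide +kernel)
def c12122 : PP 9 3 T 0x41000000000000018000111000000000000000000000008000000000000000000000000000000000000000000000000000000000000000000000000000000 := rS 0x23a255889fddb614bc486450dab55e1d (k8 c5486 c5406 c5490 c5475 c5326 c5478 c9695 c8199 (k4 c5241 c5191 c5570 c5421 (k2 c7601 c5504 (k1 c3582 k0)))) (by decide +kernel)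
def c12123 : PP 9 3 T 0x200000000000000000000000008000000100000000040000000000000000000000001008000000000000000000000000000010000 := rS 0x45964ba15 (k4 c11531 c5321 c2111 c900 (k1 c10689 k0)) (by decide +kernel)
def c12124 : PP 9 3 T 0x45001000000000002000000080000000000000000000000000000000000000000000000000000000000000050000100054150000000000000000000000000 := rS 0x1e3efb29886150a7cbe7d3f98cee75 (k8 c5440 c5356 c5355 c5358 c5442 c5439 c5448 c5398 (k4 c5445 c10013 c3599 c5451 (k2 c5464 c5204 k0))) (by decide +kernel)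
def c12125 : PP 9 3 T 0x80008000000000000000000000000014000000001000200000000000000000000000000000011000000 := rS 0x19af7 (k2 c5333 c2440 (k1 c7030 k0)) (by decide +kernel)
def c12126 : PP 9 3 T 0x5000000000000048000001080000000000000000000008000000100000010000000000000000001004000001000000000000000000000000010000012000 := rS 0x9f30a6542cbf16c4cb5988014482735ac4e314598660403f0bfcdad167a090e432297cfa793f98ceaad34a5cce9594924e681099bd1fa0cefcf6a85103cc3ef10eaa4461b7abde94fd (k8 c5405 c11990 c5333 c5477 c5475 c5331 c5489 c5486 (k8 c9695 c5517 c5325 c3581 c2540 c10456 c12064 c12121 (k8 c12122 c5568 c5565 c5564 c5380 c5379 c5334 c11660 (k8 c5488 c5487 c5404 c5403 c5490 c5440 c5355 c5358 (k8 c5441 c5442 c5439 c5326 c5478 c12123 c5672 c11551 (k8 c1975 c2430 c2396 c8058 c266 c5694 c9701 c2460 (k8 c5685 c3048 c1294 c1140 c3046 c6206 c316 c5665 (k8 c5559 c9423 c12124 c5226 c5464 c5578 c12125 c881 (k2 c3051 c3599 k0))))))))) (by decide +kernel)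
def c12127 : PP 9 3 T 0x1000000000000048000001080000000000000000000008000000000000010000000000000000000004000001000000000000000004000000000000010000 := rS 0x50b2fc5b14f987c29967b44ca8788000d6058a1b4e2b3018644827acc7052b51017cfa793f98cee7556abcd29733a56521f7b9cd028d37a27de4322a14188f2384e27a0cefcf6a1d7ebd4461b54bc4920b07d29e615 (k8 c11531 c5325 c11990 c5329 c5516 c5334 c9695 c5489 (k8 c5475 c5331 c5477 c5405 c5486 c10456 c12064 c12121 (k8 c12122 c5382 c5564 c5520 c5568 c3574 c2540 c5326 (k8 c5478 c9072 c5567 c5565 c5381 c5380 c5379 c5333 (k8 c5517 c11660 c5488 c5487 c5404 c5403 c5406 c5490 (k8 c5440 c5356 c5355 c5358 c5441 c5442 c5439 c3581 (k8 c2608 c540 c12126 c5341 c351 c5651 c6512 c1113 (k8 c5926 c2754 c2427 c5803 c5715 c1140 c5642 c5665 (k8 c12048 c1056 c9572 c11551 c12125 c8058 c881 c3051 (k4 c12124 c5226 c5464 c5578 (k1 c3599 k0))))))))))) (by decide +kernel)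
def c12128 : PP 9 3 T 0x1000000000000048000001080000000000000000000008000000000000010000000000000000000000000001000000000000000004000000000000010000 := rS 0x2c8d51513d65fd1c4596606865aa0d548506174b6ad579a4ce0f7b924167346c4c266f44a3f419df9ed43afd1186d52f1f7bd48f4a7990c8a15 (k8 c11531 c5326 c5478 c5325 c11990 c5520 c5477 c9072 (k8 c9695 c5489 c5475 c5331 c5405 c5486 c10456 c12064 (k8 c12121 c12122 c5568 c5567 c5565 c5564 c5382 c5381 (k8 c5379 c5516 c5334 c5333 c5329 c5487 c5403 c5406 (k8 c5490 c5474 c5321 c3574 c2540 c12127 c11573 c1345 (k8 c5672 c10690 c2111 c900 c12123 c5694 c8187 c351 (k4 c3010 c12048 c5685 c2377 k0))))))) (by decide +kernel)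
def c12129 : PP 9 3 T 0x5000000000000048000001080000000000000000000008000000100000000000000000000000000004000001000000010000000000000000010000020000 := rS 0x50b2fc5b14f987c2998a196206d67b456619589ad04240289c86452f9f4f27f319d55aaf34a5cce95949cd028d099bd13a0cefcf6b59103cc3ef10eaa4461b7abde94fd (k8 c5405 c11990 c5333 c5477 c5475 c5331 c5489 c5486 (k8 c9695 c5517 c5325 c3581 c5558 c10456 c12064 c12121 (k8 c12122 c5567 c5565 c5564 c5381 c5380 c5379 c11660 (k8 c5488 c5487 c5404 c5403 c5406 c5490 c5440 c5355 (k8 c5358 c5441 c5442 c5439 c5326 c5478 c2858 c719 (k8 c5651 c12025 c2372 c1092 c6512 c5926 c1975 c2394 (k8 c2430 c5665 c9423 c5803 c12125 c8058 c881 c3051 (k4 c12124 c5226 c5464 c5578 (k1 c3599 k0))))))))) (by decide +kernel)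
def c12130 : PP 9 3 T 0x5000000000000048000001080000000000000000000008000000100000000000000000000000000004000001000000000000000004000000000000020000 := rS 0x15062535aca2b11380a56a2056abcd2670fbdce68d37a251fa0cefcf6af30ebf5ea23a506d52f1 (k8 c9695 c5489 c5475 c11990 c5331 c5477 c5405 c5486 (k8 c5325 c10456 c12064 c12121 c12122 c5568 c5567 c5565 (k8 c5381 c5379 c5333 c5517 c5487 c5403 c5406 c5490 (k8 c3581 c2608 c540 c12129 c884 c3048 c5685 c2377 (k4 c5926 c8722 c720 c12025 k0))))) (by decide +kernel)
def c12131 : PP 9 3 T 0x41000200080000000000000100000000000100000000000000000000000000000800000005000000002000000000000000000400400000 := rS 0x1c27b4eb7dc618f131cfa793fa06268f (k8 c5568 c5382 c5380 c5358 c5441 c5442 c5357 c5226 (k4 c5648 c5466 c5580 c1273 (k2 c743 c2899 (k1 c3610 k0)))) (by decide +kernel)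
def c12132 : PP 9 3 T 0x1000000000000048000001080000000000000000000008000000000000010000000000000000000008000001000000000000000004000000000000000000 := rS 0xf137bbfe1719ec64e14c98592194fec02e9301004d911420150e2535aca2afe81ad506351897c12c73e9e4fead579a52e674aca4e68146c4cde8947e833bf3da875fa230daa5e3ef7a91e94f321916b210 (k8 c12128 c5558 c5326 c5478 c5325 c11990 c5520 c5477 (k8 c9072 c9695 c5489 c5475 c5331 c5405 c5486 c10456 (k8 c12064 c12121 c12122 c5568 c5567 c5565 c5382 c5381 (k8 c5380 c5379 c11660 c5488 c5487 c5404 c5403 c5406 (k8 c5490 c5358 c5441 c5442 c5357 c5438 c5439 c5476 (k8 c5324 c11573 c1345 c12094 c5694 c3010 c5685 c2377 (k8 c5926 c12052 c720 c5672 c845 c5665 c8158 c5642 (k8 c261 c1107 c12131 c5448 c5393 c5396 c5445 c5447 (k8 c2898 c3577 c742 c2458 c11870 c5492 c3610 c5204 (k1 c5580 k0)))))))))) (by decide +kernel)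
def c12133 : PP 9 3 T 0x1000000000000048000001080000000000000000000008000000000000010000000000000000000000000001000000000000000004000000000000000000 := rS 0x5942cb49f893861d8a6fc29932c419ed1002080a6b38c5166030c8904e298e0815759087bc86453c98ceaad579a52e674aca4761f7b91ce681469bd13a0cefcf6af30ebf5ea23a506d52f1 (k8 c9695 c5489 c5475 c11990 c5331 c5477 c5405 c5486 (k8 c5325 c10456 c12064 c12121 c12122 c5567 c5565 c5381 (k8 c5380 c5379 c5520 c5333 c5517 c5332 c11660 c5488 (k8 c5487 c5404 c5403 c5406 c5490 c5440 c5355 c5441 (k8 c5326 c5478 c9072 c12128 c5558 c12132 c3581 c12130 (k8 c540 c351 c5651 c6512 c1113 c5926 c5803 c3048 (k8 c1140 c719 c12025 c5642 c1975 c2394 c8722 c1056 (k8 c12125 c8058 c1187 c12124 c881 c5679 c5226 c1694 (k4 c5464 c5578 c5648 c11672 k0))))))))) (by decide +kernel)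
def c12134 : PP 9 3 T 0x1000000000041000200080000000000000100000000000100000000000000000000000000000000000100000000000000000000000000008040012020 := rS 0xf40e171f90535e22f824fa7f2ba042615 (k8 c11531 c5564 c5380 c5353 c5358 c5442 c5438 c5439 (k8 c5226 c9046 c5462 c5576 c1066 c714 c2861 c3569 k0)) (by decide +kernel)
def c12135 : PP 9 3 T 0x1000000000000048000001080000000000000000000008000000101000000000000000000000000404000001000000000000000008000000000000010000 := rS 0x1f38c0e3d20b30c29f49ec1a68af09659e0406209329d429aa22265a0a44a5d2f824fa793f95e528109d64401f43e833bf3dabcc3afd7a88c36a978bde9415 (k8 c11531 c11990 c5333 c9695 c5489 c5475 c5331 c5477 (k8 c5405 c5486 c5325 c10456 c12064 c12121 c12122 c12123 (k8 c5517 c3581 c5342 c5564 c5380 c11660 c5353 c5358 (k8 c5441 c5442 c5438 c5439 c5321 c5803 c541 c5685 (k8 c5651 c1341 c8714 c2542 c1135 c2373 c11575 c2371 (k8 c2372 c11551 c313 c8058 c10689 c2938 c12134 c5444 (k8 c5448 c5445 c11997 c349 c2860 c713 c2624 c3569 (k1 c408 k0)))))))) (by decide +kernel)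
def c12136 : PP 9 3 T 0x1000000000000010000011000000000000000000000000000000000000000004000000000000000801000000404000000100000008000000000200000000 := rS 0x20a228500814506b (k8 c2377 c2455 c9692 c9693 c12002 c9730 c5672 c8722 k0) (by decide +kernel)
def c12137 : PP 9 3 T 0x1000000000000048000001080000000000000000000008000000100000000000000000000000000004000001000000000000000008000000000000010000 := rS 0x142cbf16c53e6132a67c31068b3d04850cc0bde244509cd6b138c5052b34397cfa793f98ceaaf34a5cce9594924e681899bd1fa0cefcf6b59103cc3ef10eaa4461b7abde94fd (k8 c5405 c11990 c5333 c5477 c5475 c5331 c5489 c5486 (k8 c9695 c5517 c5325 c3581 c5342 c10456 c12064 c12121 (k8 c12122 c5568 c5565 c5382 c5380 c5379 c5334 c11660 (k8 c5488 c5487 c5404 c5403 c5406 c5440 c5355 c5358 (k8 c5441 c5442 c5439 c12123 c12136 c541 c12135 c3048 (k8 c1294 c1140 c3046 c12079 c5651 c5583 c12080 c6512 (k8 c2629 c5672 c11551 c1975 c8722 c8058 c12125 c1269 (k4 c881 c3051 c12124 c5226 (k2 c5464 c5578 (k1 c3599 k0)))))))))) (by decide +kernel)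
def c12138 : PP 9 3 T 0x1000000000000048000001080000000000000000000008000000000000000000000000000000000004000001000000000000000008000000000000010000 := rS 0xa165f8b629f309953219f0c41a224359c59e8214c510ab343ad60427f7c70405f3e9e4fe633aabcd29733a56521f7b9cd031337e833bf3da875faf511d2836a978d65fef3 (k8 c5325 c2568 c5342 c9695 c5489 c5475 c11990 c5331 (k8 c5477 c5405 c5486 c10456 c12064 c12121 c12122 c5565 (k8 c5382 c5380 c5379 c5333 c5517 c11660 c5488 c5487 (k8 c5404 c5403 c5406 c5440 c5355 c5358 c5441 c5442 (k8 c5439 c3581 c12137 c5504 c351 c6335 c2609 c10690 (k8 c2460 c2629 c5685 c541 c5672 c11551 c3048 c1140 (k8 c5651 c1975 c8722 c8058 c6512 c12125 c1269 c881 (k4 c3051 c12124 c5226 c5464 (k2 c5578 c3599 k0))))))))) (by decide +kernel)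
def c12139 : PP 9 3 T 0x1000000000000048000001080000000000000000000008000000000000010000000000000000000000000001000000000000000000000000000000010000 := rS 0x90520d4221d628b8efb84f035aa0d54f746c4d128fd0677e7b50ebf5ea23a506d52f1acbfc94f3 (k8 c5325 c12133 c2568 c5342 c9695 c5489 c5475 c11990 (k8 c5331 c5477 c5405 c5486 c10456 c12064 c12121 c12122 (k8 c5568 c5567 c5382 c5381 c5333 c12138 c11573 c1345 (k8 c12094 c354 c5694 c6335 c12080 c5506 c12123 c3613 (k4 c2540 c12113 c5651 c12114 k0))))) (by decide +kernel)
def c12140 : PP 9 3 T 0x40000000000000050000010000000000000000000000000000000001000000000000000000000000400000001000000000000000000000000000200020000 := rS 0x6a02c444ab4 (k4 c5685 c5803 c1341 c720 (k2 c8714 c2372 k0)) (by decide +kernel)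
def c12141 : PP 9 3 T 0x1000000000000050000011000000000000000000000008000000000000000000000000000000000851000001510000044140000008000000000200020000 := rS 0x431ade61b (k4 c5475 c5325 c2377 c12136 (k1 c12052 k0)) (by decide +kernel)
def c12142 : PP 9 3 T 0x1000000000000048000001080000000000000000000008000000100000000000000000000000000104000001000000010000000000000000010000020000 := rS 0x45997dc4322ab55e69339cd1a1337a27419df9ed5e61d7ebd4474a0daa5e205 (k8 c719 c9695 c5489 c5475 c11990 c5331 c5477 c5405 (k8 c5486 c5325 c10456 c12064 c12121 c12122 c5567 c5565 (k8 c5564 c5381 c5379 c5487 c5403 c5406 c5490 c5326 (k4 c5478 c12129 c9423 c5583 (k1 c3602 k0))))) (by decide +kernel)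
def c12143 : PP 9 3 T 0x1000000000000048000001080000000000000000000008000000000000010000000000000000000004000001000000000000000000000000000000000000 := rS 0x142cbf16c53e61f0fbcca990cb3d0b1c883440682438900a6b5889ce31414acc405f3e9e4fe633aab55e694b99d2b290fbdce681469bd128fd0677e7b579875faf511d2836a978d649410 (k8 c12139 c12133 c5342 c9695 c5489 c5475 c11990 c5331 (k8 c5477 c5405 c5486 c5325 c10456 c12064 c12121 c12122 (k8 c5568 c5567 c5565 c5381 c5380 c5379 c5333 c5517 (k8 c11660 c5488 c5487 c5404 c5403 c5406 c5490 c5440 (k8 c5355 c5358 c5441 c5442 c5439 c3581 c12141 c541 (k8 c12140 c3048 c4972 c1294 c1140 c719 c5651 c12052 (k8 c12025 c1113 c1975 c8722 c12142 c12002 c11551 c9701 (k8 c12125 c1269 c5504 c8058 c881 c3051 c12124 c5226 (k2 c5464 c5578 (k1 c3599 k0)))))))))) (by decide +kernel)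
def c12144 : PP 9 3 T 0x1000000000000050000011000000000000000000000008000000000000000000000000000000000851000001510000044140000008000000000000020000 := rS 0x20 (k2 c2454 c12141 k0) (by decide +kernel)
def c12145 : PP 9 3 T 0x1000000000000048000001080000000000000000000008000000000000010000000000000000000000000001000000000000000000000000000000000000 := rS 0x1900a7114c5166b145c77dd035aaa820ffac928864556abcd2677b9cd1a1337a251fa0cefcf6af30ebf5ea23a506d52f1 (k8 c9695 c5489 c5475 c11990 c5331 c5477 c5405 c5486 (k8 c5325 c10456 c12064 c12121 c12122 c5568 c5567 c5565 (k8 c5564 c5381 c5379 c5333 c5487 c5403 c5406 c5490 (k8 c5326 c5478 c12133 c5342 c2568 c12139 c12143 c1345 (k8 c12094 c5694 c6335 c12080 c5506 c12144 c5685 c1289 (k4 c3048 c719 c3602 c9423 k0)))))) (by decide +kernel)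
def c12146 : PP 9 3 T 0x41000000000000058000011000000000000000000000008000000000000020040000000000000000000000001000000000000000000000000000400010000 := rS 0x450e0b535c4508f121914ba5b34bf51a1344e81168359ab63a15 (k8 c11531 c2139 c5490 c2900 c1978 c3068 c12122 c5567 (k8 c5564 c5381 c5405 c5403 c5474 c5321 c5326 c5478 (k8 c9695 c9450 c845 c2542 c8714 c12089 c5685 c3048 k0))) (by decide +kernel)
def c12147 : PP 9 3 T 0x2000000000040000200000000000000000100000000000100000000000000000000000000000000001105000001000000000000000440000540400000 := rS 0xd8063c6df4d8e4f68f (k8 c5568 c5457 c5534 c5536 c5538 c10517 c3578 c5226 (k1 c5393 k0)) (by decide +kernel)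
def c12148 : PP 9 3 T 0x1001000000000002000000000000000000000000000008000000000000000041000000001000000000001154000000000000000000000440000550400000 := rS 0x19e321c26d92191abcc3631 (k8 c5476 c5475 c5325 c5324 c5393 c5396 c5397 c3578 (k2 c3577 c2558 (k1 c12046 k0))) (by decide +kernel)
def c12149 : PP 9 3 T 0x1000000000000048000001080000000000000000000008000000000000000000000000000000000000000001000000000000000000000000000000000000 := rS 0xc567b4dae9af16c7c217498090c014ca740a213509623155a56420cd8eacd07002f824f27756abcd29733a56523b0fbdc6fa0cefcf6af30ebf5ea23a506d52f1 (k8 c9695 c5489 c5475 c11990 c5331 c5477 c5405 c5486 (k8 c5325 c10456 c12064 c12121 c12122 c5518 c5333 c5517 (k8 c5332 c11660 c5488 c5487 c5404 c5403 c5406 c5490 (k8 c5356 c5441 c5438 c5439 c12145 c1978 c2900 c2139 (k8 c12000 c12146 c5558 c12116 c204 c1341 c1094 c8714 (k8 c12140 c720 c1135 c2373 c1058 c11575 c5642 c261 (k8 c1107 c12147 c12148 c5226 c5679 c5465 c5579 c2562 (k2 c899 c11742 k0)))))))) (by decide +kernel)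
def c12150 : PP 9 3 T 0x1000000000000048000001080000000000000000000008000000000000010000000000000000002000000000000000000000000000000000000000010000 := rS 0xf9c6071e90598614fa4f61e167a090ed345476b25913128080c4ca74406a7faae225d2f824fa793f95e521f7b9cd0213d0677e7b579875faf511d2836a978a152015 (k8 c11531 c12149 c850 c9695 c5489 c5475 c11990 c5331 (k8 c5477 c5405 c5486 c5325 c10456 c12064 c12121 c12122 (k8 c5564 c5380 c5379 c5333 c5517 c11660 c5353 c5358 (k8 c5441 c5442 c5438 c5439 c5321 c1340 c1345 c2572 (k8 c8714 c3581 c1135 c2373 c2371 c2372 c2608 c2609 (k8 c313 c5342 c351 c10689 c2938 c901 c11575 c11551 (k8 c8058 c12134 c5444 c5448 c5445 c11997 c349 c2860 (k4 c713 c2624 c3569 c408 k0)))))))) (by decide +kernel)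
def c12151 : PP 9 3 T 0x800000002000000000000000000000000000000010000 := rS 0xe110 (k4 c2897 c2896 c9730 c667 k0) (by decide +kernel)
def c12152 : PP 9 3 T 0x10000010000000000000000000000008000000000000000000000000000000000001000000001000000440000000000000000010004420 := rS 0x10c8336034b311 (k4 c9728 c313 c316 c5665 (k2 c8722 c5777 (k1 c744 k0))) (by decide +kernel)
def c12153 : PP 9 3 T 0x1000000000000000000011000000000000000000000000000000002000000000000000000000000054000000111400044140000000000000000000000000 := rS 0x1c1166d32a19feb1 (k8 c1294 c3010 c5672 c5733 c744 c901 c3602 c3049 k0) (by decide +kernel)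
def c12154 : PP 9 3 T 0x1000000000000048000001080000000000000000000008000000002000000000000000000000000004000000001000000000000000000000000000000000 := rS 0x28597e2d8a7cc3ef4ca283265019c7c31036b3d04b11017cfa793f98d5aaf34a5cce950fbdce68146a25a2902d9acdfa0cefcf6af30ebf5ea23a506d52f1 (k8 c9695 c5489 c5475 c11990 c5331 c5477 c5405 c5486 (k8 c5325 c10456 c12064 c12121 c12122 c5565 c1139 c5474 (k8 c12149 c9793 c5567 c5381 c5380 c5379 c5333 c5517 (k8 c5488 c5487 c5404 c5403 c5406 c5490 c5355 c5358 (k8 c5441 c5442 c5439 c3581 c1294 c12153 c2394 c2430 (k8 c8722 c8058 c3049 c266 c1269 c9701 c3602 c12125 (k8 c5583 c881 c3051 c12124 c5198 c5464 c5578 c3599 k0))))))) (by decide +kernel)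
def c12155 : PP 9 3 T 0x1000000000000048000001080000000000000000000008000000000000010000000000000000000000000000000000000000000000000000000000010000 := rS 0x23a8b2cc0d0c83553fe28b5429755ef7d0677e7b579875faf511d2836a978acd2015 (k8 c11531 c12149 c12151 c9695 c5489 c5475 c11990 c5331 (k8 c5477 c5405 c5486 c5325 c10456 c12064 c12121 c12122 (k8 c5333 c5406 c5321 c850 c12150 c5685 c3010 c12154 (k4 c11573 c5672 c10690 c2111 (k2 c901 c6335 (k1 c10689 k0)))))) (by decide +kernel)
def c12156 : PP 9 3 T 0x1000000000000048000001080000000000000000000008000000000000000000000000000000000000000000000000000000000000000000000000010000 := rS 0x1289c52b1384516a6c35c45091d41c0086452e96d5a697b9251a1344e833bf3dabcc3afd7a88e941b54bc52015 (k8 c11531 c12149 c9695 c5489 c5475 c11990 c5331 c5477 (k8 c5405 c5486 c5325 c10456 c12064 c12121 c12122 c5567 (k8 c5564 c5381 c5334 c5333 c5403 c5490 c5474 c5321 (k8 c5326 c5478 c12155 c1977 c2139 c9450 c845 c2542 (k8 c5665 c8714 c747 c746 c2144 c1289 c3046 c2754 (k1 c6206 k0)))))) (by decide +kernel)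
def c12157 : PP 9 3 T 0x40000000000000050000010000000000000000000000008000000001000011041000000000000000401000000000000040000000000000000000450020000 := rS 0x4005352ae22255a3cc36f5 (k8 c5477 c5475 c5325 c5685 c5803 c1340 c1345 c8714 (k2 c720 c3581 (k1 c2372 k0))) (by decide +kernel)
def c12158 : PP 9 3 T 0x5001000000000048000001080000000000000000000008000000000000000000000100001000000000000400088000001400000004000000008000000010 := rS 0x6c532614f0587841718e7c4ce2d8ec6e47dabcc3afd7a88e941b54bc73adf480fc207f (k8 c5358 c12156 c2907 c12149 c2948 c12121 c9695 c5489 (k8 c5475 c11990 c5331 c5477 c5405 c5486 c5325 c10456 (k8 c5520 c5518 c5332 c5474 c12045 c11751 c2558 c10455 (k8 c5462 c5258 c2861 c2860 c1460 c1463 c5448 c10476 k0)))) (by decide +kernel)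
def c12159 : PP 9 3 T 0x1000000000000048000001080000000000000000000008000000001000010000000000000000000000000000000000000000000000000000000000000000 := rS 0xc8d8b14c27bf0165c2cd45219fdef8e92c4c650c8a4000302a6e066b38441646d21914ba312f98cee7534a5cce950fbdc924739a34de8947e833bf3dabcc3afd7a88e941b54bc5be7f68a40b610 (k8 c12156 c5474 c12149 c9793 c5358 c2948 c9695 c5489 (k8 c5475 c11990 c5331 c5477 c5405 c5486 c5325 c10456 (k8 c12064 c12121 c12122 c5568 c5567 c5565 c5381 c5379 (k8 c5520 c5334 c5333 c5517 c5488 c5487 c5404 c5403 (k8 c5440 c5356 c5355 c5439 c5476 c5321 c5326 c5478 (k8 c747 c12157 c2897 c2896 c2377 c2460 c2496 c9728 (k8 c9729 c9730 c9694 c9701 c1056 c668 c2455 c351 (k8 c9072 c3593 c9181 c10449 c2506 c3013 c2111 c12158 (k4 c5457 c880 c898 c10013 (k2 c3597 c10451 k0)))))))))) (by decide +kernel)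
def c12160 : PP 9 3 T 0x1000000000000048000001080000000000000000000008000000000000010000000000000000000000000000000000000000000000000000000000000000 := rS 0x6545a18e2b14181448aa7f9ac4e298a2155aaf3499c1e0b39a34de89d0677e7b579875faf511d2836a978a42b210 (k8 c12156 c5558 c12149 c9695 c5489 c5475 c11990 c5331 (k8 c5477 c5405 c5486 c5325 c10456 c12064 c12121 c12122 (k8 c5567 c5565 c5381 c5379 c5516 c5329 c5487 c5403 (k8 c5406 c5490 c850 c12159 c1289 c4972 c1139 c3010 (k8 c12154 c5651 c12152 c11573 c1092 c2755 c5672 c901 (k2 c2114 c3602 k0)))))) (by decide +kernel)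
def c12161 : PP 9 3 T 0x2000000000040000200080000000000000100000000000100000000020000000000400000000000001504048000000000000000000440000540400000 := rS 0x363e30c3558a39709ecfa773aa051a89 (k8 c5567 c5381 c5380 c5440 c5356 c5442 c5457 c5460 (k4 c5534 c898 c3072 c3578 (k2 c5287 c5393 (k1 c5226 k0)))) (by decide +kernel)
def c12162 : PP 9 3 T 0x1000000000000048000001080000000000000000000008000000001000000000000000000000000000000000000000000000000000000000000000000000 := rS 0xd8785361749aa8048b10a1802994ea140a6a88895685f049e52e95948ec3ef71b9ceb21059ab5aed14816d9a838022741f3dabcc3afd7a88e941b54bc73a77 (k8 c5356 c12121 c9695 c5489 c5475 c11990 c5331 c5477 (k8 c5405 c5486 c5325 c10456 c12064 c12122 c5567 c12160 (k8 c1977 c12000 c5474 c12149 c9793 c2145 c5490 c2900 (k8 c12156 c5558 c5379 c5518 c5333 c5517 c5332 c11660 (k8 c5488 c5404 c5441 c5438 c5439 c5685 c5803 c1340 (k8 c8714 c720 c2542 c1135 c2373 c1058 c11575 c2372 (k8 c3069 c5642 c3581 c261 c1107 c1190 c12161 c5679 (k1 c12148 k0)))))))) (by decide +kernel)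
def c12163 : PP 9 3 T 0x1000000000000010000010080000000000000000080008000100002000020000000000001000000051000052000000000440000000000000002011020020 := rS 0x2e396477d3fb169a65aacb3da299ee350a101a707986cfe3b07bdc16d76896d6303 (k8 c212 c1295 c5474 c9793 c2145 c5516 c5333 c5329 (k8 c5332 c5358 c5475 c5325 c719 c316 c12152 c2929 (k8 c5731 c6082 c849 c848 c1293 c3073 c7030 c2938 (k4 c5982 c3051 c8161 c3618 (k2 c6897 c1064 (k1 c11799 k0)))))) (by decide +kernel)
def c12164 : PP 9 3 T 0x1000000000000048000001080000000000000000000008000000000000000000000000000000000000000000000000000000000000000000000000000000 := rS 0x848822800710286406243589c52b58a3363a838056420903bab55e694b99d2b297b9bd13a0cefcf6af30ebf5ea23a506d52f1 (k8 c9695 c5489 c5475 c11990 c5331 c5477 c5405 c5486 (k8 c5325 c10456 c12064 c12121 c12122 c5567 c5565 c5333 (k8 c11660 c5488 c5487 c5404 c5403 c5406 c5490 c5356 (k8 c12149 c12156 c5558 c12160 c1977 c2139 c12000 c12162 (k8 c204 c1289 c4972 c1139 c5651 c1113 c9701 c12163 (k4 c2755 c5642 c12100 c8158 (k2 c3069 c845 k0)))))))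 (by decide +kernel)
def c12165 : PP 9 3 T 0x100000000000000080000000000000000000000000000000000008000000000000000000000000000000000000000000020 := rS 0x5ec1b110782c9a6b (k8 c2379 c5521 c5516 c5329 c9728 c316 c3299 c11145 k0) (by decide +kernel)
def c12166 : PP 9 3 T 0x1000000000000010000011000000000000000000000008000000000000001040000000000000000155000001110400054140000000000000000450000010 := rS 0x8a431950a2078bcc36f5 (k8 c5477 c5475 c5325 c9695 c3581 c12002 c12001 c5672 (k2 c3602 c900 k0)) (by decide +kernel)
def c12167 : PP 9 3 T 0x41000000000000098000011000000000000000000000008000000001000000040000000000000000008000001000000000000000001400000000440000000 := rS 0x61a190b8c08096fe81bcd5aaf3499ce713c6e80e2275a89636b383e462ebdf7c0638b114c971789d26e56d67 (k8 c7805 c8057 c5616 c5213 c5610 c5390 c5391 c5417 (k8 c5421 c8393 c2139 c5504 c5575 c3303 c5491 c3302 (k8 c5574 c2469 c7601 c5422 c5570 c5571 c12122 c5569 (k8 c5382 c5379 c5487 c5403 c5406 c5490 c5325 c2200 (k8 c6368 c9182 c3584 c12063 c3404 c2577 c8093 c2208 k0))))) (by decide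 +kernel)
def c12168 : PP 9 3 T 0x1000000000000008000001080000000000000000000008000000000000000000000000000000000004000001000000000000000000000000000000000000 := rS 0x3026592c50cf78ca03f0c40dacf68a0840793b9d55aaf34a5cce950fbdd1a6f449c7df1c588a4d7e3764971fa940e364eebf26c4e7a0cefcf6af30ebf5ea230daa5e27f2f98e527d02e2749b9b3adb6d4a (k8 c11990 c12164 c8057 c7805 c5616 c5213 c5610 c12165 (k8 c5442 c11660 c5355 c5439 c5358 c9695 c5489 c5475 (k8 c5331 c5477 c5405 c5486 c5325 c10456 c12064 c12121 (k8 c12122 c5379 c8833 c5227 c5623 c5383 c5569 c5380 (k8 c5388 c5443 c5391 c5931 c5467 c2379 c5417 c5421 (k8 c8393 c5504 c5571 c5567 c5565 c5381 c5333 c5517 (k8 c5488 c5487 c5404 c5403 c5406 c5490 c5440 c5356 (k8 c5441 c3581 c12166 c1975 c2394 c2430 c8722 c8058 (k8 c266 c1269 c5204 c9701 c5451 c5494 c12125 c3597 (k1 c881 k0)))))))))) (by decide +kernel)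
def c12169 : PP 9 3 T 0x1000000000000008000001080000000000000000000008000000000000000000000000000000000000000001000000000000000000000000000000000000 := rS 0x228fe552bc3e4923ed5e61d7ebd4461b54bc7e79df7c0638b114ed9ef4a (k8 c11990 c5333 c12164 c5417 c5421 c8393 c2139 c5504 (k8 c12121 c12064 c9695 c5489 c5475 c5331 c5477 c5405 (k8 c5486 c5325 c10456 c5520 c5334 c5517 c5406 c12168 (k2 c6368 c12167 (k1 c3010 k0))))) (by decide +kernel)
def c12170 : PP 9 3 T 0x1000000000000008000001080000000000000000000008000000000000000000000000000000000000000000000000000000000000000000000000000000 := rS 0xe3f0b84f4e7bdfd3e25117802206d6fa43c66b763add389d4c97c9a4f7c260fb98e6c6ceb6588a4e3b6c6c9d0273d017f1f793e9fcc79194bdc9e4ddabcc3afd7a88e941b54bc7e79d (k8 c12121 c12064 c9695 c5489 c5475 c11990 c5331 c5477 (k8 c5405 c5486 c5325 c10456 c5521 c5335 c5333 c11660 (k8 c5491 c5355 c5358 c5442 c5359 c5443 c5439 c12122 (k8 c5379 c5380 c5383 c5569 c12164 c5571 c5417 c5421 (k8 c8057 c7805 c8833 c8393 c5616 c3302 c2468 c5504 (k8 c5213 c5227 c5391 c5388 c5610 c5472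 c5623 c5931 (k8 c2379 c5467 c12169 c2948 c746 c5665 c9730 c9707 (k8 c2464 c7542 c10341 c5631 c5633 c8870 c1722 c5457 (k2 c1775 c5691 k0))))))))) (by decide +kernel)
def c12171 : PP 9 3 T 0x42000000000000048000010080000000000000000080008000100001000000001000000000000000000000000000000000000000000000000000000000020 := rS 0x7ce303b307a4130a6d929f49b4f608aacc7494265a04418b34ea64d4590c974be093e9fcae9733a541e0b68c050be167881561f7ba3ce681099bf41b579875faf51186d5215 (k8 c11531 c5489 c5475 c5331 c5477 c5405 c5486 c5325 (k8 c10456 c5241 c5565 c5564 c5380 c5379 c5263 c5333 (k8 c5517 c5500 c3581 c5543 c8058 c5541 c5502 c5501 (k8 c5516 c5329 c5488 c5487 c5404 c5353 c5358 c5442 (k8 c5438 c5439 c5321 c9698 c313 c12152 c7911 c1135 (k8 c2377 c2371 c12157 c5685 c5715 c2608 c351 c5342 (k8 c10689 c12134 c2938 c5444 c5448 c5396 c5397 c5445 (k4 c349 c2860 c3617 c713 (k2 c2624 c3569 (k1 c408 k0)))))))))) (by decide +kernel)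
def c12172 : PP 9 3 T 0x40000200080000000000000000000008000100100000054041000000000000000800000055400000002000000001400000000410400000 := rS 0x37882e33d8c9c29930b24329fd85649443228d5e61b18bd58e7d3c9fd0313 (k8 c5382 c5380 c5358 c5441 c5442 c5357 c5477 c5476 (k8 c5475 c5325 c5324 c5326 c5478 c3593 c5342 c12131 (k8 c5448 c5393 c5396 c5445 c5447 c2898 c3577 c742 (k4 c2458 c544 c3610 c2511 k0)))) (by decide +kernel)
def c12173 : PP 9 3 T 0x50000010000000000000000000000000000000000000000000000000000000002000000001000000000400000000000000000000000000 := rS 0x111 (k2 c1341 c8714 k0) (by decide +kernel)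
def c12174 : PP 9 3 T 0x40000000000000000000000000000008000000000000054040000000000000000800000000000000000000000001400000011010000000 := rS 0x13d66384b21915e6f5 (k8 c5477 c5325 c5326 c5478 c2455 c3593 c5341 c351 (k1 c5651 k0)) (by decide +kernel)
def c12175 : PP 9 3 T 0x42000000000000048000010080000000000000000080008000100001000000001000000000000000000000001000000000000000000000000000000000000 := rS 0x6f105c67b19385a69930b24329f456c1066c0ba4e224a01006b2288189564b5358146a312f8258e7d3c9fd2e952491d0f0142bfc40ab0fbdd1e8146c4d13a0dabcc3afd7a88c36a9 (k8 c5489 c5475 c5331 c5477 c5405 c5486 c5325 c10456 (k8 c5241 c5567 c5382 c5381 c5380 c5263 c5333 c5517 (k8 c5500 c3581 c5544 c5541 c5502 c5499 c5520 c5334 (k8 c5488 c5404 c5358 c5441 c5442 c5357 c5438 c5439 (k8 c5476 c5324 c12171 c2372 c12173 c5685 c5926 c2460 (k8 c12174 c5339 c9693 c9694 c540 c9730 c261 c1107 (k8 c266 c8722 c12131 c3613 c5448 c5393 c5396 c5445 (k8 c5447 c2938 c2898 c3577 c742 c2458 c545 c3610 (k1 c2511 k0))))))))) (by decide +kernel)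
def c12176 : PP 9 3 T 0x48000000000000000000000000000008000000000000000000000000000000000100000000000000000000000000000000015000000000 := rS 0x8e56086ad (k4 c5490 c5478 c5651 c6206 (k1 c5341 k0)) (by decide +kernel)
def c12177 : PP 9 3 T 0x400000000000000a000200080000000000000000000000000000000000000000000000040000000000004000000000010011000000000000000000000000 := rS 0x6af8dafdf65311425f3e9fcc6773a9a52e674a9cd026f (k8 c5565 c5380 c5379 c5488 c5487 c5404 c5403 c5440 (k8 c5356 c5355 c5358 c5442 c5439 c5398 c10013 c3599 (k4 c5451 c1765 c5464 c1660 (k1 c5689 k0)))) (by decide +kernel)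
def c12178 : PP 9 3 T 0x8000000000000000200080000000000000000000000000000000000000000000000000000000000004000000000010001000000000000000000000000 := rS 0xa16597cfa7f319cd026f (k8 c5565 c5380 c5379 c5355 c5358 c5442 c5439 c5464 (k2 c5578 c3599 k0)) (by decide +kernel)
def c12179 : PP 9 3 T 0x42000000000000048000010080000000000000000080008000100000000000001000000000000000000000001000000000000000000000000000000000000 := rS 0x6c3dfe369a293e6132c4132000c80eb22402ac44e6b388a6287f56abcd26707924163742f859e205587dee73469bd13a0dabcc3afd7a88c36a9 (k8 c5489 c5475 c5331 c5477 c5405 c5486 c5325 c10456 (k8 c5241 c5567 c5565 c5381 c5379 c5333 c5517 c5500 (k8 c3581 c5543 c8058 c5541 c5518 c5516 c5334 c5329 (k8 c5487 c5403 c5406 c5490 c5358 c12175 c1289 c3048 (k8 c1140 c3046 c1294 c12152 c12176 c5559 c1113 c7280 (k8 c5642 c7911 c8158 c1056 c881 c3051 c3602 c2938 (k4 c12178 c5583 c5226 c12177 k0))))))) (by decide +kernel)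
def c12180 : PP 9 3 T 0x42000000000000048000010080000000000000000080008000100001000000001000000000000000000000000000000000000000000000000000000000000 := rS 0x10312ac96b10149ac0605369248f017f881561f7b9cf41b579875faf51186d5290 (k8 c12179 c5489 c5475 c5331 c5477 c5405 c5486 c5325 (k8 c10456 c5241 c5379 c5333 c5517 c5500 c3581 c5544 (k8 c5502 c5520 c5334 c747 c12171 c266 c2372 c9694 (k4 c5665 c1340 c5685 c4805 (k2 c2460 c12174 k0))))) (by decide +kernel)
def c12181 : PP 9 3 T 0x42000000000000048000010080000000000000000080008000100000000000001000000000000000000000000000000000000000000000000000000000000 := rS 0x6c1a7eff1a293e6132c413200388640759120156227358a6288937a34e7a03fab55e693383c920b1bed50be16788156f30f87552230dbd5eefd (k8 c5405 c5333 c5477 c5475 c5331 c5489 c5486 c5517 (k8 c5325 c5500 c3581 c5543 c8058 c5541 c10456 c5518 (k8 c5516 c5334 c5329 c5487 c5403 c5406 c5490 c5358 (k8 c5241 c5379 c5381 c5565 c5567 c12180 c1289 c1139 (k8 c3046 c1294 c12152 c12176 c5559 c1113 c7280 c2755 (k8 c5642 c7911 c8158 c1056 c881 c3051 c3602 c12178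 (k4 c5583 c2938 c5226 c12177 k0))))))) (by decide +kernel)
def c12182 : PP 9 3 T 0x42000000000000010000110000000000000400000000000000000204100000000000000000000008401000001000000000000000000000000040200000010 := rS 0x3eff591c2a4c5086955182e458485a0c893e0048fbda0c026c83a161359c5dfe42fb35e2749b9 (k8 c5616 c5213 c5610 c2379 c5609 c5606 c5389 c5390 (k8 c5341 c2468 c5541 c5503 c5665 c8158 c8722 c3299 (k8 c2432 c5642 c5274 c5675 c265 c269 c2599 c858 (k8 c5652 c300 c303 c3493 c590 c951 c952 c618 (k2 c5552 c5637 (k1 c7053 k0)))))) (by decide +kernel)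
def c12183 : PP 9 3 T 0x2000000000000000000000000000000000400000000008000000000001000000000000000000008000000000000000000000000050000000400010000000 := rS 0x2dc2c28c1f722b (k4 c3197 c5616 c5503 c2464 (k2 c5652 c6276 (k1 c360 k0))) (by decide +kernel)
def c12184 : PP 9 3 T 0x42000000000000010000010000000000000400000000000000000204100000000000000000000008401000001000000000000000200000000040200000010 := rS 0x91c621b2789e823725c6a3cd8f8419ae0f7b84e2f12fbbfe937285 (k8 c5541 c5616 c5213 c5389 c5609 c5610 c5390 c2468 (k8 c3299 c5503 c2379 c8722 c5274 c5665 c2432 c5611 (k8 c5391 c2469 c12182 c5382 c5383 c3492 c3616 c618 (k1 c2638 k0)))) (by decide +kernel)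
def c12185 : PP 9 3 T 0x8000001080000000000000000000008000000000000000000000000000000000000000000000000000000000000000000000000000000 := rS 0x240d911280045c0535e27482b8bc27731cb3ad962295eacce3b6102afd99df9ed49a4f7b88c3f4a94aa43afd78bcc36f5 (k8 c5477 c5475 c5325 c9695 c5405 c5486 c5489 c11660 (k8 c11990 c5517 c5331 c5333 c5335 c5521 c10456 c12064 (k8 c12121 c12170 c5500 c3581 c12181 c5571 c5574 c5575 (k8 c5417 c5421 c8057 c7805 c8393 c5616 c2468 c3303 (k8 c3197 c5213 c5610 c2379 c12165 c12183 c9707 c590 (k4 c9730 c5665 c12184 c746 k0)))))) (by decide +kernel)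
def c12186 : PP 9 3 T 0x1000000000000006000020080000000000000000000000000000000000002000000000000000000005000000000000001080110000000000000080000000 := rS 0x9762a719a614d97d8e7931c44f66b (k8 c5523 c5372 c5371 c5355 c5441 c5357 c5439 c5397 (k4 c5445 c2504 c10556 c733 (k2 c8143 c10719 k0))) (by decide +kernel)
def c12187 : PP 9 3 T 0x81000000000000044000020080000000000000000000008000000000000006000000000000400000005004000141000000080010000000000001080000020 := rS 0x30cd8a174a28362ac441b4ba573b9d50e9141a3e270380f8dc669 (k8 c9743 c5549 c8118 c5592 c5550 c5547 c5526 c5525 (k8 c5374 c5373 c5440 c5356 c5353 c5321 c2552 c3613 (k8 c2009 c12186 c5680 c2932 c1068 c1586 c9926 c11115 (k1 c714 k0)))) (by decide +kernel)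
def c12188 : PP 9 3 T 0x80000000000000012000120080000000000000000040008000100000000000000000000001000000000000400000000000080000000400000000090000020 := rS 0xdfc2de4e8ec64074c984ba352d8c412573b9d4f69147b840673 (k8 c9718 c54 c5591 c5526 c5374 c5372 c5440 c5356 (k8 c5353 c5438 c5476 c5474 c5324 c5321 c5445 c5447 (k8 c713 c5729 c493 c1083 c11937 c5538 c2331 c11935 k0))) (by decide +kernel)
def c12189 : PP 9 3 T 0x81000000000000054000120080000000000000000040008000100000000004000000000000000000045000000140000010090000000000000000090000020 := rS 0x3303b142e97506c5366c66a113e6e659746a5b1897d8e7d2b9d7c6e30c9ccd2597e0948f58 (k8 c5212 c5562 c9666 c5682 c313 c9743 c9718 c9698 (k8 c5549 c8118 c5440 c5353 c5442 c5357 c5439 c5476 (k8 c5474 c5324 c5321 c8466 c5666 c2815 c12187 c2502 (k8 c5871 c2492 c12188 c5680 c1233 c1068 c734 c714 (k2 c5284 c10897 k0))))) (by decide +kernel)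
def c12190 : PP 9 3 T 0x200000008000000000000000000000000000000000000000000140000020010010000000000000000010004 := rS 0x1344914ba5b (k4 c5474 c5321 c5326 c2873 (k2 c2869 c8187 k0)) (by decide +kernel)
def c12191 : PP 9 3 T 0x81000000000000050000121080000000000000000040008000000000000000000000000000000000005000000000000000000000000000000000090000020 := rS 0x143b14b1800e334fca0dccb38bfd5e8b46fbab011789746a5b1897c127d2b9dcebe37180ce659331976669 (k8 c9743 c12185 c8720 c5664 c313 c9718 c54 c5549 (k8 c8118 c5440 c5356 c5353 c5442 c5438 c5439 c5476 (k8 c5474 c5324 c5321 c9695 c9667 c5212 c5239 c5505 (k8 c5583 c5584 c5586 c12190 c8466 c5666 c12189 c2815 (k4 c5316 c5432 c5729 c10711 (k2 c5445 c1233 (k1 c5680 k0))))))) (by decide +kernel)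
def c12192 : PP 9 3 T 0x1001000000000010000200080000000000000000040008000100000000002000000480000000000000000000000000000080010000000000000080000020 := rS 0x118ea2c7c41690d99cd11df7c6407668e4c29bd81746a5b18824fe573b9d40615 (k8 c11531 c54 c5440 c5356 c5353 c5358 c5438 c5476 (k8 c5474 c5324 c5321 c5225 c5397 c5445 c2472 c2504 (k8 c713 c5729 c5492 c493 c2130 c5688 c5654 c2565 (k4 c1740 c2332 c2938 c2082 (k2 c2907 c10689 k0))))) (by decide +kernel)
def c12193 : PP 9 3 T 0x81000000000000050000021080000000000000000040008000000000000000080000000000000000001000000000000000000000000000000000410000020 := rS 0x137b14ea599a600b81c67284cb7bc281d0198cafc0f2ade25d1a96c3631049f4f2573b9d7667b48a3e26e37080cd259 (k8 c313 c9743 c54 c5591 c5549 c5547 c5526 c5374 (k8 c5372 c12185 c5440 c5356 c5353 c5441 c5442 c5438 (k8 c5476 c5475 c5474 c5324 c5321 c9695 c10820 c8123 (k8 c5682 c8720 c5664 c12191 c5380 c11668 c5846 c4693 (k8 c12192 c5316 c5432 c5433 c5729 c2071 c10711 c1082 (k2 c5445 c1232 (k1 c5679 k0))))))) (by decide +kernel)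
def c12194 : PP 9 3 T 0x80000000000000044000101000000000000000000000008000000000000000040000000000000000000000000000000000000000000000000000000000000 := rS 0x11fdd5821915e6f525c0c9301 (k8 c5592 c5588 c5550 c5546 c5477 c5325 c5326 c5478 (k4 c5212 c5239 c5562 c5996 k0)) (by decide +kernel)
def c12195 : PP 9 3 T 0x1001000000000010000201080000000000000000040008000000000000000000000480000000000005000000000000000000010000000000000400000020 := rS 0xefec58860038ce501e33084cafc2e8d5e65b18824ae773aecc0669 (k8 c9743 c54 c12185 c5440 c5356 c5353 c5438 c5476 (k8 c5474 c5325 c5324 c5321 c5682 c8720 c2550 c5664 (k8 c5650 c12192 c5316 c5432 c5729 c10897 c5445 c5451 (k1 c5195 k0)))) (by decide +kernel)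
def c12196 : PP 9 3 T 0x81000000000000050000021080000000000000000040008000000000000000000000000000000000001000000000000000000000000000000000410000020 := rS 0x6781c75de943346e0bd8a10401f5537bc281d03dcb25d7986d8e7d3cecc1e7b43a441a8347c4dc6e1 (k8 c5591 c5549 c5547 c5526 c5525 c5522 c5374 c5373 (k8 c5372 c5369 c12185 c5441 c5442 c5357 c5475 c5325 (k8 c5321 c313 c12193 c12194 c5380 c11668 c5846 c12195 (k8 c1084 c7110 c10863 c11950 c718 c4630 c2502 c5225 (k4 c5195 c6200 c5432 c5453 (k1 c11909 k0)))))) (by decide +kernel)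
def c12197 : PP 9 3 T 0x80000000000000002000020080000000000000000000008000000100000002000000000500000000000000000000000001000000000011000000080000000 := rS 0x3f19b4c74d01ca713643228d4625f639e4c7113d9ac9301 (k8 c5592 c5588 c5523 c5372 c5371 c5355 c5441 c5357 (k8 c5439 c5476 c5324 c5326 c5478 c5397 c10556 c2472 (k4 c1240 c1083 c2135 c2130 (k2 c494 c3588 k0)))) (by decide +kernel)
def c12198 : PP 9 3 T 0x4000000000051000020080000000000000000040008000100100000000000000000500100000000010000000000001000000000011000000111000010 := rS 0x1a49e1fb2d24330bf8086451a8c4be7931c44f66b (k8 c5523 c5372 c5371 c5355 c5441 c5439 c5476 c5324 (k8 c5326 c5478 c5225 c10515 c5284 c5648 c1753 c327 (k2 c5680 c3588 (k1 c2883 k0)))) (by decide +kernel)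
def c12199 : PP 9 3 T 0x81000000000000050000121080000000000000000040008000000000000002000000000000100000000000000000000000000000000000000000190000010 := rS 0x78135df4ca74c2d21b85c0f28d8a85aad78e9c8823df75604a11049f4c7b3f1b8cda190000cd615 (k8 c11531 c5523 c1111 c5642 c9701 c2316 c5549 c8118 (k8 c12185 c5355 c5442 c5438 c9667 c9666 c5212 c5239 (k8 c8150 c8151 c11969 c5341 c5507 c5585 c1196 c12197 (k8 c12198 c5432 c5433 c5435 c6923 c661 c1082 c2317 (k4 c5496 c10443 c5195 c5536 k0))))) (by decide +kernel)
def c12200 : PP 9 3 T 0x80000000000000000000020000000000000000000000000000000000000000000000000000000000000000000000000045000000000000000004080000002 := rS 0x7159c45226b47c4d6b15 (k8 c5590 c5548 c5547 c5526 c5523 c5374 c5371 c2322 (k2 c668 c3604 k0)) (by decide +kernel)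
def c12201 : PP 9 3 T 0x81000000000000006000020080000000000000000000008000000100000002000000080000000000005000000000000001000000000000000008080000000 := rS 0x1aed54b334829c4da4cbec73c98e227b35abc8a3d (k8 c4851 c5326 c2986 c5523 c5372 c5371 c5355 c5441 (k8 c5357 c5439 c5444 c5397 c10556 c349 c2504 c10719 (k2 c3003 c1768 (k1 c12197 k0)))) (by decide +kernel)
def c12202 : PP 9 3 T 0x81000000000000050000021080000000000000000040008000000000000000080000000000000000001000000000000000000000000000000000410000000 := rS 0x35c82ac65fbda6d51f8cd35de946c47aaf8e899bde137a350273d0324d0b100195f80336aac3c21219146a1b189f4f27f319d7667b489ad1f135ab8dc205 (k8 c12196 c5591 c5549 c5548 c5547 c5526 c5523 c5374 (k8 c5372 c12185 c5440 c5355 c5358 c5441 c5442 c5476 (k8 c5475 c5324 c5326 c5478 c342 c8123 c7110 c2316 (k8 c1111 c5682 c8720 c5642 c1335 c8135 c1179 c12199 (k8 c5379 c5380 c5381 c5565 c11668 c5846 c12200 c351 (k8 c2986 c4851 c12201 c5225 c5195 c7600 c5316 c5318 (k8 c5454 c5496 c5725 c1326 c5683 c350 c2033 c3588 k0))))))) (by decide +kernel)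
def c12203 : PP 9 3 T 0x81000000000000054000220080000000000000000040008000000000000000000000000000000000005000000000000000000000000000000000410000010 := rS 0x35c82ac65fbda6d51f8cd35de946c47aaf8e89800033687842b17e10c8a35798c4fe7535ad4e68d37f85bc8147b84fae33ca46267b (k8 c5372 c5547 c5374 c5441 c5549 c5442 c5591 c5526 (k8 c5380 c5846 c11668 c5565 c5381 c5379 c5548 c5523 (k8 c5440 c5358 c5476 c5325 c5324 c5326 c5478 c5682 (k8 c1335 c2550 c5650 c2316 c1111 c5642 c12200 c351 (k8 c2986 c4851 c12201 c5225 c5195 c7600 c5316 c5318 (k8 c5454 c5496 c5725 c1326 c5683 c350 c2033 c3588 k0)))))) (by decide +kernel)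
def c12204 : PP 9 3 T 0x81000000000000050000021080000000000000000040008000000000000000000000000000000000001000000000000000000000000000000000410000000 := rS 0x2033207d55a07b81437b3 (k8 c12185 c5475 c12196 c12202 c12194 c12203 c1084 c8138 (k2 c6197 c1056 (k1 c5642 k0))) (by decide +kernel)
def c12205 : PP 9 3 T 0x44000101000000000000000000000008000000000000000000000000000000000050000000000000000000000000000000005010000000 := rS 0xb18efbab0297890c8a1b (k8 c5475 c5326 c5478 c9695 c8199 c5212 c5239 c5341 (k2 c5506 c3582 k0)) (by decide +kernel)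
def c12206 : PP 9 3 T 0x80000000000000050000220080000000000000000040008000100000000000001000000000000000008000050000000000000000000000000004050000008 := rS 0x8e3bac0c99ac90cec06a1b1883c1a83f1a4c12172ff85bc8147b84fae33ca46267b (k8 c5372 c5547 c5374 c5441 c5549 c5442 c5591 c5526 (k8 c5380 c5846 c11668 c5439 c1107 c5438 c261 c8118 (k8 c5525 c5522 c5369 c5476 c5475 c5324 c5225 c5393 (k4 c5396 c2075 c3577 c11956 (k2 c493 c5562 (k1 c11955 k0)))))) (by decide +kernel)
def c12207 : PP 9 3 T 0x81000000000000050000021080000000000000000040008000000000000000000000000000000000001000000000000000000000000000000000010000000 := rS 0x77991b11986651e1d02552ead579902e93550084e257e814021f113c46a1b1897c1275d99262b01 (k8 c5592 c5590 c5588 c12185 c5440 c5438 c5439 c5476 (k8 c5475 c5324 c9695 c12204 c152 c9731 c9734 c1237 (k8 c1262 c485 c5642 c5682 c261 c1107 c8138 c1286 (k8 c2127 c1126 c1955 c12205 c11668 c12206 c5315 c5316 (k4 c9240 c3577 c5195 c5494 k0))))) (by decide +kernel)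
def c12208 : PP 9 3 T 0x1000000000000014000020000000000000000000000008000000000000000000000000000000000002000000000000000000000000000000000010000020 := rS 0x42164d2f32dbd50e0d41bf556f7 (k8 c2020 c169 c135 c5525 c5522 c5373 c5477 c5474 (k4 c5325 c9743 c313 c10861 (k1 c2449 k0))) (by decide +kernel)
def c12209 : PP 9 3 T 0x80000000000000010000220080000000000000000040000000100000000000000000000000000000000000000000000000000000000000000000240000002 := rS 0x196711209c82461c0ecc2a14fa4f605f3f98c1e0d25f8ce66ff08ddbc8147b84fae33ca46267b (k8 c5372 c5547 c5374 c5441 c5549 c5442 c5591 c5526 (k8 c5380 c5846 c4630 c11668 c5565 c5379 c8118 c5546 (k8 c5522 c5369 c5355 c5358 c5439 c5225 c5444 c5448 (k8 c5398 c5445 c340 c5654 c11955 c546 c2865 c2423 (k2 c668 c1091 (k1 c3599 k0)))))) (by decide +kernel)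
def c12210 : PP 9 3 T 0x2000020080000000000000000000008000000000000000040000000004000000002000000000000000200000000000144000200000040 := rS 0x214d8cc053447695498d5e6317a8258e792b83cf60d (k8 c5522 c5372 c5369 c5353 c5441 c5357 c5438 c5477 (k8 c5476 c5325 c5324 c5444 c5446 c340 c2024 c3568 (k4 c3587 c2416 c2502 c832 k0))) (by decide +kernel)
def c12211 : PP 9 3 T 0x81000000000000050000021080000000000000000040008000000000000000000000000000000000000000000000000000000000000000000000410000000 := rS 0x11d23bfc4c2557b29429c4ca5fbdb14fa6eb217038e46728340006e291000c8645798c4fe4b819262b01f1aacca1f7a9ccdfe167b7903a07ba3dc27d719e523133d81551b3 (k8 c12185 c12207 c12208 c5372 c5547 c5374 c5441 c5549 (k8 c5442 c5591 c5526 c2020 c12194 c5380 c5846 c4647 (k8 c11668 c5565 c5379 c5477 c2319 c9109 c169 c8118 (k8 c5592 c5590 c5588 c5550 c5546 c5358 c5476 c5325 (k8 c5326 c5478 c6197 c5650 c9694 c4630 c5642 c8135 (k8 c12209 c5316 c5317 c5432 c5433 c9806 c7393 c2885 (k8 c12210 c5195 c5452 c9107 c5679 c1277 c5680 c1246 (k4 c1090 c9148 c2453 c2423 (k2 c351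 c3593 k0))))))))) (by decide +kernel)
def c12212 : PP 9 3 T 0x1000000000010000020080000000000000000040008000100000000000040000000004000000002000000000000000080010000000000000800000000 := rS 0xcc0e3a663458a9530ec0baf32dbd58e793b9d4f68741a14d201 (k8 c9731 c9744 c2449 c5525 c5373 c5372 c5440 c5356 (k8 c5441 c5357 c5477 c5474 c5325 c5321 c5225 c5445 (k8 c5446 c733 c2024 c3607 c8146 c1674 c492 c8153 k0))) (by decide +kernel)
def c12213 : PP 9 3 T 0x81000000000000050000021080000000000000000040008000000000000000000000000000000000000000000000000000000000000000000000010000000 := rS 0x6c0c1df622580e3394164cc69008899edef0a0740f732aa1e25d1a96c62093e9e4ae773aeccf69147c4dc6e1 (k8 c5591 c5549 c5547 c5526 c5374 c5372 c12185 c5440 (k8 c5356 c5353 c5441 c5442 c5438 c5476 c5474 c5324 (k8 c5321 c9695 c12207 c9109 c2020 c12194 c5380 c11668 (k8 c5846 c4647 c12211 c9731 c9744 c5664 c2003 c12212 (k8 c5316 c5432 c10711 c10897 c5452 c733 c5195 c5445 k0))))) (by decide +kernel)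
def c12214 : PP 9 3 T 0x81000000000000012000121080000000000000000000008000000000000004000000000000000000001000000000000000000000000000000000080000020 := rS 0x19fe16f275a23bef8c8cccd32bf072ab2e8d4b61b18824ae773aeccf69147b84067334a6c0e61 (k8 c5445 c713 c5397 c9743 c9718 c54 c5591 c5526 (k8 c5374 c5372 c12185 c5440 c5356 c5353 c5438 c5476 (k8 c5475 c5474 c5324 c5321 c1084 c2472 c5682 c8720 (k8 c2504 c5664 c5729 c5492 c493 c2130 c1083 c11937 (k2 c5538 c2564 (k1 c5688 k0)))))) (by decide +kernel)
def c12215 : PP 9 3 T 0x81000000000000012000121080000000000000000040008000100000000004080000000000000000001000000000000000000000000000000000020000020 := rS 0xd26877cc8aa1007cafb34192e0223 (k8 c484 c5592 c5546 c5525 c12185 c5353 c12214 c5650 (k4 c343 c8138 c9073 c8521 (k2 c8886 c2135 k0))) (by decide +kernel)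
def c12216 : PP 9 3 T 0x1004000000000051000101080000000000000000000008000100000000000000000000000000000005004400000000000000000000000000000000000020 := rS 0x324901d8a174ba8196713316592657e1746a5b1897cae7508896b08d45abfddb301864e669 (k8 c9743 c9718 c9698 c54 c12185 c5239 c5584 c5583 (k8 c5505 c5212 c9666 c9667 c5440 c5353 c5439 c5476 (k8 c5474 c5324 c5321 c5682 c8720 c1180 c314 c5664 (k8 c12190 c8466 c5680 c1233 c1068 c734 c714 c5648 (k2 c10897 c323 k0))))) (by decide +kernel)
def c12217 : PP 9 3 T 0x81000000000000050000121080000000000000000040008000100000000000000000000000000000001000000000000000000000000000000000000000020 := rS 0x3bc954b991549f66a6da29df06c412c73c95d06b5f1b8c38f67ffbb6673 (k8 c9718 c12185 c5239 c5586 c12194 c12213 c5549 c8118 (k8 c5548 c5525 c5353 c5441 c5357 c5438 c12215 c5225 (k8 c9066 c5459 c5536 c5537 c11608 c12216 c8138 c1284 (k2 c2125 c8959 (k1 c9073 k0))))) (by decide +kernel)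
def c12218 : PP 9 3 T 0x81000000000000050000121080000000000000000040008000000000000000000000000000000000001000000000000000000000000000000000000000020 := rS 0xd8a6fc21e36378143b68f7d9ad21b8fc67281ab1c1e4b71925c3017b0f4fa41088248f587ffbb6615 (k8 c11531 c12185 c5239 c5586 c5212 c5562 c5438 c9667 (k8 c8151 c5442 c8150 c12194 c5592 c5591 c5588 c5549 (k8 c5546 c5369 c5357 c5324 c12217 c5316 c5318 c5435 (k8 c6923 c2071 c5496 c2135 c6899 c6200 c5985 c717 (k4 c718 c5538 c2492 c12214 (k1 c7600 k0)))))) (by decide +kernel)
def c12219 : PP 9 3 T 0x4000000000041000000000000000000000000000008000000100000000000000000500100000000010008000000000000000000011000000000000000 := rS 0x9e690fd9633219146a31 (k8 c5476 c5324 c5326 c5478 c323 c1753 c327 c3588 (k2 c5680 c2883 k0)) (by decide +kernel)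
def c12220 : PP 9 3 T 0x11000020080000000000000000040000000100000000000000000000000000000000000004000000001000000000000000000101000010 := rS 0xb780be7931c44f66b (k8 c5523 c5372 c5371 c5355 c5441 c5439 c5225 c5648 (k1 c10515 k0)) (by decide +kernel)
def c12221 : PP 9 3 T 0x81000000000000050000121080000000000000000040008000000000000000000000000000000000001000000000000000000000000000000000000000000 := rS 0x1e04d77d3ad20bca1326149a8592723400033b1019b43c217e2acca056ab5e3a411ebdbdd5812844127d31eccd7e37188c3815 (k8 c11531 c12213 c484 c5549 c8118 c5523 c12185 c5355 (k8 c5442 c5438 c9667 c9666 c5212 c5239 c12194 c8150 (k8 c8151 c5341 c5507 c5585 c12218 c1954 c8138 c5682 (k8 c343 c5650 c2316 c1111 c12197 c9701 c5642 c8135 (k8 c11969 c1179 c1196 c12219 c662 c2318 c12220 c5433 (k4 c6923 c5855 c5496 c10443 (k2 c5195 c5536 k0))))))) (by decide +kernel)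
def c12222 : PP 9 3 T 0x1001000000000010000201080000000000000000040008000000000000000000000480000000000005000000000000000000000000000000000400000020 := rS 0x160cbb3 (k4 c12185 c8720 c12195 c314 k0) (by decide +kernel)
def c12223 : PP 9 3 T 0x1000400000000012000021080000000000000000000000000000000000010080000000000000000000000000000000000020020000000000000660000020 := rS 0x694a5a03b1ba652609639e4ae0f4182d2e5f (k8 c5439 c1126 c718 c5525 c5369 c5353 c5441 c5357 (k8 c5438 c5444 c5447 c8484 c340 c8521 c6200 c9507 (k1 c2135 k0))) (by decide +kernel)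
def c12224 : PP 9 3 T 0x81000000000000010000221080000000000000000040008000000000000000000000000000000000001000000000000000000000000000000000020000020 := rS 0x95d8a5fbe0b2c190ce207b3343eaa1abcc365f04b1cae75d9a1e070111f85bc8147b84fae33ca46267b (k8 c5372 c5547 c5374 c5441 c5549 c5442 c5591 c5526 (k8 c5380 c5846 c11668 c484 c5592 c5550 c5373 c12185 (k8 c5440 c5353 c5357 c5438 c5439 c5475 c5325 c5324 (k8 c12222 c1084 c4454 c2121 c2122 c2123 c8138 c10820 (k4 c718 c9126 c1126 c12223 (k2 c1955 c8668 k0)))))) (by decide +kernel)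
def c12225 : PP 9 3 T 0x81000000000000050000021080000000000000000040008000000000000000000000000000000000001000000000000000000000000000000000000000000 := rS 0x1ae415632fded36a8fc669aef4a3623d8eabc4c00019b43c2158bf1566502b7bc26f46a04e7a01190c8a35798c4fa793f9d7667b489ad1f135ab8dc21c (k8 c12213 c5591 c5549 c5548 c5547 c5526 c5523 c5374 (k8 c5372 c12185 c5440 c5358 c5441 c5442 c5476 c5325 (k8 c5324 c5326 c5478 c484 c12221 c5379 c5380 c5381 (k8 c5565 c11668 c5846 c12224 c1954 c8138 c5682 c1335 (k8 c2550 c5650 c2316 c1111 c5642 c12200 c2986 c352 (k8 c4851 c12201 c5225 c5195 c7600 c5316 c5318 c5454 (k4 c5496 c5725 c1326 c5683 (k2 c350 c2033 (k1 c3588 k0))))))))) (by decide +kernel)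
def c12226 : PP 9 3 T 0x2000020080000000000000000000000000000000000000080000000000400000002000000000000000080000001011000011000000000 := rS 0xcd67b458a3b4ca54c277429a42e0200814445f (k8 c5439 c2021 c9734 c9731 c5642 c1107 c9744 c2449 (k8 c5356 c5445 c5446 c5447 c11905 c733 c2024 c2450 (k2 c2072 c8127 k0))) (by decide +kernel)
def c12227 : PP 9 3 T 0x80000000000000040000121080000000000000000000008000000000000000000000000000000000002000000000000000010000000000000000000000000 := rS 0x335a2cf62a513a97506c53ecb372b0e28833214d27300889feaf469047af6f709422292f824fa77d9a1d228347c4c931580f8dc615 (k8 c11531 c5549 c8118 c5592 c5590 c5588 c5547 c5526 (k8 c5525 c5374 c5373 c12185 c5356 c5442 c5438 c5439 (k8 c8199 c9667 c9666 c5239 c12194 c8150 c8151 c5505 (k8 c5584 c5586 c2021 c9731 c9719 c9744 c2449 c5664 (k8 c8783 c2873 c2009 c2010 c8466 c2815 c12226 c5680 (k8 c1233 c1277 c2932 c734 c2451 c2025 c4427 c8127 k0)))))) (by decide +kernel)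
def c12228 : PP 9 3 T 0x10000020000000000000000000040008000000000000000040000000000000000002000000000000000000000000000000000000000020 := rS 0x42964d25d7996c3687069943ef5 (k8 c5477 c2319 c9109 c5522 c5373 c5475 c5474 c5325 (k4 c5321 c9743 c314 c2449 (k1 c10900 k0))) (by decide +kernel)
def c12229 : PP 9 3 T 0x80000000000000012000221080000000000000000040008000000000000000000000000000000000002000000000000000000000000000000000400000000 := rS 0x1c7233941a000051b88006f7d99943ef567b79028f709f5c67948c4cf699 (k8 c5447 c5372 c5547 c5374 c5441 c5549 c5442 c5591 (k8 c5526 c5380 c5846 c4647 c5477 c2319 c9109 c12185 (k8 c2021 c6197 c5650 c8484 c12228 c5642 c8135 c12209 (k4 c5316 c5317 c5432 c12210 k0)))) (by decide +kernel)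
def c12230 : PP 9 3 T 0x80000000000000052000021080000000000000000040008000000000000000000000000000000000002000000000000000000000000000000000020000000 := rS 0xac4a47e07190e998c5332147a691389472f600889a29530864127f2b9df668741c0c931580f8fc2cf6f207406547b84fae33ca46267b (k8 c5372 c5547 c5374 c5441 c5549 c5442 c5591 c5526 (k8 c9109 c12227 c5380 c5846 c4647 c11668 c8118 c5592 (k8 c5590 c5588 c5550 c5525 c5373 c12185 c5356 c5353 (k8 c5358 c5438 c5393 c5445 c5446 c2024 c12229 c9731 (k8 c483 c3715 c1262 c485 c9744 c2771 c2449 c5664 (k8 c733 c8127 c2072 c2071 c1674 c494 c5316 c11867 (k1 c9764 k0))))))) (by decide +kernel)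
def c12231 : PP 9 3 T 0x5800000000051000000000000000000000100040008000000001000050000000000000000000002004000000000000000000005000000000400000000 := rS 0x8e91dfe2612abd94a14e0a5322001bdc8645798c556b11b8e42e9b9407dea97 (k8 c5452 c5477 c2319 c5225 c7393 c5433 c5317 c6642 (k8 c2183 c169 c5476 c5325 c5326 c5478 c2021 c6197 (k8 c5650 c9107 c9694 c5679 c1277 c5680 c1246 c1090 (k4 c9148 c2453 c2423 c352 (k1 c3593 k0))))) (by decide +kernel)
def c12232 : PP 9 3 T 0x81000000000000050000021080000000000000000040008000000000000000000000000000000000000000000000000000000000000000000000000000000 := rS 0x3fd16ac428a0d22712804449faca6c7a071ff7a51b16f785128d40e803e657eaa038f5049f4f27f2beccf68748a0d1e4b89c0c931570c07c6e3 (k8 c5549 c8118 c5592 c5591 c5590 c5588 c5550 c5547 (k8 c5546 c5526 c5525 c5374 c5373 c5372 c12185 c5353 (k8 c5358 c5441 c5442 c5438 c5477 c12213 c12225 c135 (k8 c9109 c2319 c12227 c5380 c5381 c5567 c11668 c5846 (k8 c12230 c5225 c5195 c5318 c5432 c5436 c7393 c9764 (k8 c2885 c12231 c9731 c1262 c485 c9744 c5651 c2449 (k4 c539 c2889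 c2893 c3613 k0))))))) (by decide +kernel)
def c12233 : PP 9 3 T 0x80000000000000000000020000000000000000000040000000000000000000000000000000000000000000000000000021000000000400000000000010005 := rS 0x16130203d220d25c4c9215 (k8 c11531 c5588 c5547 c5546 c5522 c5374 c5369 c5642 (k2 c2869 c717 (k1 c9111 k0))) (by decide +kernel)
def c12234 : PP 9 3 T 0x80000000000000000000020080000000000000000000000000000000000000000000000000000000400000000000000020000000000000000018002000000 := rS 0x6fa053ccb3e9e4f69147c4dc6e1 (k8 c5591 c5549 c5547 c5526 c5374 c5372 c5441 c5442 (k4 c1320 c380 c752 c2884 (k1 c5846 k0))) (by decide +kernel)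
def c12235 : PP 9 3 T 0x81000000000000064000120080000000000000000040008000000000000004081000000000000000140000000000000000020000000000000000000000000 := rS 0x7819e9e68f7c6e07643347328198644c1f0ba4c3a05011c0e6ac4aa5dfa01338d43631049d4f60d3592d6b0324c56022355884daa959ec4be29088948f58 (k8 c5212 c5562 c9666 c9667 c8199 c5439 c8483 c5532 (k8 c5531 c5529 c5528 c5413 c5409 c5592 c5590 c5588 (k8 c5550 c5548 c5546 c5523 c5522 c5372 c5440 c5438 (k8 c5476 c5475 c5324 c63 c1056 c1128 c1126 c1955 (k8 c9083 c1316 c1960 c12233 c54 c264 c261 c1107 (k8 c1111 c3584 c12234 c5284 c5648 c397 c2071 c3577 (k8 c5432 c5435 c5494 c4498 c2068 c11576 c5688 c11608 k0))))))) (by decide +kernel)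
def c12236 : PP 9 3 T 0x80000000000000060000121080000000000000000000008000000000000000000000000000000000000000000000000000010000000000000000000000002 := rS 0x205be9e65a68c29350b24e468639e4fe633da44d68f89ad5c3e371a74429959ec4be251e9f4821104c76b0d76afbb6615 (k8 c11531 c12185 c5239 c5585 c5507 c5212 c5341 c5438 (k8 c9667 c8151 c5442 c8150 c9666 c5439 c8483 c5532 (k8 c5530 c5528 c5412 c5549 c8118 c5591 c5548 c5547 (k8 c5526 c5523 c5374 c5372 c5355 c5358 c5441 c5357 (k8 c8135 c11969 c1179 c1196 c12219 c662 c10507 c1326 (k4 c5680 c2884 c1603 c3610 k0)))))) (by decide +kernel)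
def c12237 : PP 9 3 T 0x81000000000000040000121080000000000000000040008000000000000000000000000000000000000000000000000000000000000000000000000000000 := rS 0x3459ecd62b4928975027d966e561c51085331a4e60132bfd5eb146bdbdcf1639f4f2773aeccf68748a0d1f1380f8dc66d4cec7685f (k8 c5439 c12232 c8483 c5530 c5529 c5549 c8118 c5592 (k8 c5547 c5526 c5525 c5374 c5373 c5372 c12185 c5440 (k8 c5356 c5441 c5442 c5357 c9695 c5239 c12194 c5505 (k8 c5506 c5584 c5586 c12235 c12236 c9719 c9744 c5664 (k8 c5871 c8783 c2873 c2009 c2010 c8466 c2815 c5680 (k8 c1233 c2932 c2931 c734 c4427 c1587 c2135 c3607 k0)))))) (by decide +kernel)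
def c12238 : PP 9 3 T 0x81000000000000040000021080000000000000000040008000000000000000000000000000000000000000000000000000000000000000000000000000000 := rS 0x30a6d949f38378de8139e81669936a77687d3c98e227b489ad1f135ab87c6e3 (k8 c5549 c8118 c5591 c5548 c5547 c5526 c5523 c5374 (k8 c5372 c5371 c5355 c5441 c5442 c12232 c5412 c5529 (k8 c5530 c5532 c12237 c5379 c5380 c5565 c5846 c8385 (k4 c2884 c6190 c1326 c1755 (k1 c10443 k0))))) (by decide +kernel)
def c12239 : PP 9 3 T 0x81000000000000040000021080000000000000000000008000000000000000000000000000000000000000000000000000000000000000000000000000000 := rS 0x1c81c803f1e841bd5946a0653a04491c6e0b7b8ee95e380b84930371c4c964322bcdea09639f4f27f2becc1e7b488351e15 (k8 c11531 c5526 c5522 c5374 c5372 c5369 c12185 c5353 (k8 c5358 c5441 c5442 c5357 c5438 c5477 c5325 c5326 (k8 c5478 c5546 c5547 c5549 c5550 c5588 c5591 c5592 (k8 c8118 c12238 c5332 c5333 c5516 c5518 c5520 c8529 (k8 c12194 c6200 c5380 c5381 c12110 c5846 c8977 c2770 (k4 c2907 c5655 c1734 c546 (k1 c3568 k0))))))) (by decide +kernel)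
def c12240 : PP 9 3 T 0x41000000000000052000021080000000000000000040000000000000000000080000000000000001008000000000000000020000000000000000404000000 := rS 0x8aacdbcad69225a10094f7c760b021603820018dcae0f4192eb0010fa4d4299 (k8 c5447 c5398 c5444 c1084 c1056 c5231 c5342 c5525 (k8 c5369 c5353 c8484 c6197 c7110 c8123 c10820 c5642 (k8 c2417 c340 c9172 c6200 c12223 c8521 c8704 c8886 (k4 c1959 c2136 c2900 c2950 (k1 c5685 k0))))) (by decide +kernel)
def c12241 : PP 9 3 T 0x1000000000000052000021080000000000000000040008000000000000000000000000000000000000000000000000000020000000000000000800000000 := rS 0x37f0b79c2e3590ed0315898c8e01794808721d02bc48a35189f4f27b48a3e3aaf128a48f580086d52972fa54eab558fbbe6934f864c29966b2555b3 (k8 c12185 c8720 c5396 c2075 c5447 c5445 c5393 c5448 (k8 c5444 c12239 c5201 c5506 c1344 c5440 c1955 c5439 (k8 c1126 c9109 c5475 c1056 c5231 c5562 c5339 c5559 (k8 c5584 c5504 c5526 c5374 c5372 c5441 c5442 c5476 (k8 c5324 c5326 c9695 c9734 c484 c395 c5642 c9240 (k8 c1107 c8310 c3577 c8340 c3048 c751 c493 c5685 (k4 c2458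 c2898 c5846 c5538 (k2 c2331 c5654 k0)))))))) (by decide +kernel)
def c12242 : PP 9 3 T 0x1000000000000052000021080000000000000000040008000000000000000000000000000000000000000000000000000020000000000000000000000000 := rS 0x780701d1d811ee200188d3261499ec1a010f86d6aaa58fbbe7b3 (k8 c12185 c12239 c5201 c5506 c8720 c1344 c5475 c1084 (k8 c1056 c5522 c5372 c5444 c5445 c5447 c12241 c6197 (k8 c7110 c12240 c5642 c340 c2121 c11968 c11950 c5534 k0))) (by decide +kernel)
def c12243 : PP 9 3 T 0x1000000000000011000020080000000000000000040008000000000000000080000000000000000008000000000000000020000000000000000400000000 := rS 0xcdef82c081c1000c6af304b1cae6700aa52e5f4a9d43e1b (k8 c5475 c1084 c5440 c1955 c5439 c1126 c9109 c1056 (k8 c63 c5353 c5357 c5438 c5325 c5324 c6197 c7110 (k4 c8123 c5642 c2417 c9172 (k2 c4454 c8668 k0)))) (by decide +kernel)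
def c12244 : PP 9 3 T 0x51000120080000000000000000040000000100000400000000000000000000000000010004000000000000000000000000010000400000 := rS 0xcbf1863c09f (k4 c11814 c5225 c5648 c11976 (k2 c1320 c5680 k0)) (by decide +kernel)
def c12245 : PP 9 3 T 0x1000000000000050000121080000000000000000040008000000000000000080000000000000000000000000000000000020000000000000000000000000 := rS 0x38dbecbf038591e366b487e330cca1651550c4ce017498083a05113c48a3518824fe918eb5d5ed5128f45241ac00436a94b97d2a7539ad554b1f77cf67b1 (k8 c12242 c12185 c12239 c5201 c5506 c8720 c1344 c1316 (k8 c5440 c1955 c5439 c1126 c9109 c5475 c1056 c5231 (k8 c5340 c5339 c5560 c5559 c5585 c5584 c5507 c5504 (k8 c5374 c5358 c5438 c5476 c5324 c5326 c9695 c12243 (k8 c9734 c484 c5642 c261 c1107 c8310 c8340 c2929 (k8 c3048 c5685 c12244 c5315 c5316 c5318 c6923 c2071 (k8 c6627 c3577 c3063 c5198 c1324 c5538 c2459 c11943 k0))))))) (by decide +kernel)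
def c12246 : PP 9 3 T 0x9000000000000055000120080000000000000000040008000100000000000000000000000000000008000000000000000020010004000000001400010000 := rS 0x70892842c06698cd8bde64a7d36391df813a5d1a96c625f04b1cf257078355e953a9cd6ab10c810061f05880021b (k8 c5475 c1056 c7110 c2417 c1084 c6197 c5642 c9701 (k8 c5506 c1344 c1316 c5440 c1955 c5584 c5522 c5369 (k8 c5353 c5441 c5357 c5438 c5439 c5476 c5474 c5324 (k8 c5321 c9066 c5225 c341 c5534 c5536 c11608 c10478 (k8 c10944 c5451 c5492 c5496 c10897 c714 c1068 c11977 (k2 c8847 c756 k0)))))) (by decide +kernel)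
def c12247 : PP 9 3 T 0x9000000000000055000120080000000000000000040008000000000000000040000000000000000008000000000000000020000004000000001400010000 := rS 0x19fe11d0dc0f2866a10b20b02080065d1abccb6c7079ed0e0d0087c361d (k8 c2121 c5475 c1084 c1056 c5522 c5373 c5372 c5369 (k8 c5357 c5474 c5325 c5324 c5321 c6197 c7110 c5642 (k8 c2417 c313 c10900 c2502 c12246 c5432 c5435 c6200 (k2 c5456 c1646 (k1 c11909 k0))))) (by decide +kernel)
def c12248 : PP 9 3 T 0x1000000000000050000121080000000000000000040008000000000000000000000000000000000000000000000000000020000000000000000000000000 := rS 0xe36fb2fc0e16478da43f1986565288aa8626700ba4c040511075efb15a9cd2a97552a402f1228d436312f824fe7548c7562d757b57ddb3128447a292092eb1f3 (k8 c12239 c5231 c5342 c5340 c5339 c5560 c5558 c5559 (k8 c12185 c5201 c5585 c5584 c5507 c5506 c5504 c5374 (k8 c5440 c5358 c5438 c5439 c5476 c5475 c5324 c5326 (k8 c9695 c1056 c9109 c8720 c1126 c1955 c1316 c1344 (k8 c12242 c12245 c2121 c12247 c9734 c5642 c261 c1107 (k8 c8310 c8340 c2929 c3048 c12244 c5685 c5315 c5316 (k8 c5318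 c6923 c6627 c3577 c4866 c5198 c1324 c5538 (k2 c2459 c11943 k0)))))))) (by decide +kernel)
def c12249 : PP 9 3 T 0x40000100000000000000000200000008000000000000000000000000000000000000000000140000004010000000000000000000000024 := rS 0x38164e611 (k4 c5558 c9718 c314 c5666 (k1 c12190 k0)) (by decide +kernel)
def c12250 : PP 9 3 T 0x41000000000000056000120080000000000000000040008000000000000000080000000000000000004000000000000000010000000000000000400000000 := rS 0x1fb4c66e06827000056f9bc72b401bf03ca9219146a3135c751ad745b57dc251e9048f5849a6d3221 (k8 c343 c5447 c5397 c5444 c5231 c5562 c5340 c5560 (k8 c5559 c5201 c5585 c5583 c5507 c5505 c5504 c5523 (k8 c5476 c5324 c5326 c5478 c2021 c5650 c5682 c1111 (k8 c11939 c2472 c1148 c2514 c12249 c5642 c10507 c1240 (k4 c1343 c2130 c2136 c3057 (k1 c3588 k0)))))) (by decide +kernel)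
def c12251 : PP 9 3 T 0x2000100000000000000000200000000000000000000000000000000000000000000000000000000010000400000004000000800000000 := rS 0x9d96251e8a482934fa8432730b8080a01 (k8 c9731 c9734 c5642 c1107 c9719 c5393 c5398 c5448 (k8 c5444 c5340 c5339 c5560 c5559 c8466 c268 c3579 k0)) (by decide +kernel)
def c12252 : PP 9 3 T 0x8000000000000000000020000000000000000000000000000000000400000000000000000000000002000000001000020010000000000000000000000000 := rS 0x4022a8943a45068f46c0d16ff (k8 c5586 c5583 c5508 c5505 c5526 c5525 c5374 c5373 (k4 c2873 c3048 c3613 c2027 k0)) (by decide +kernel)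
def c12253 : PP 9 3 T 0x12000120080000000000000200000000000000000000004080000000002000000000000000040000010080020000000000000800000000 := rS 0x7cb32fb1d0e9141a3d42b5149cc023a (k8 c2072 c9731 c9719 c5339 c1339 c5398 c5526 c5525 (k4 c5374 c5373 c5357 c5439 (k2 c8280 c12251 (k1 c8147 k0)))) (by decide +kernel)
def c12254 : PP 9 3 T 0x1000000000000052000121080000000000000000040008000000000000000080000000000000000000000000000000000000000000000000000000000000 := rS 0x22670661618acf68870cc8554008d2b57e814022278b1cf2773a9ed0e8345bffdc29ac7cd5665d99852a99 (k8 c5447 c5446 c5445 c12185 c12248 c8138 c12239 c5231 (k8 c5339 c5201 c5586 c5583 c5525 c5373 c5372 c5440 (k8 c5356 c5441 c5357 c9695 c12250 c9731 c9734 c1237 (k8 c1339 c9744 c5642 c5682 c2449 c5664 c2020 c2024 (k4 c2450 c733 c263 c3607 (k2 c12253 c756 (k1 c12252 k0))))))) (by decide +kernel)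
def c12255 : PP 9 3 T 0x41000000000000054000120000000000000000000040008000000000000000040000000000000000004000000000000000010000000000000000000000020 := rS 0x22ab559bf0dca9019ad1f5846a2d5fee (k8 c5201 c5584 c5583 c5505 c5231 c5526 c5523 c54 (k4 c12228 c12249 c5682 c2819 (k2 c1148 c1241 (k1 c5685 k0)))) (by decide +kernel)
def c12256 : PP 9 3 T 0x41000000000000056000020000000000000000000040008000000001000000040000000000040000005000000000001000204400000000000000400000000 := rS 0x7ed319b7c72e06833fc2b40f27166cd109b5f843228d5e631889ecd71d6bb55ffee1e906b09b (k8 c5397 c5231 c5340 c5560 c5201 c5586 c5585 c5507 (k8 c5504 c5523 c5372 c5371 c5476 c5325 c5324 c5326 (k8 c5478 c5682 c833 c2550 c2504 c2556 c10556 c5650 (k8 c5685 c5458 c1651 c1240 c1343 c2472 c2514 c12046 (k2 c2136 c3057 (k1 c3588 k0)))))) (by decide +kernel)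
def c12257 : PP 9 3 T 0x1000000000000052000121080000000000000000040008000000000000000000000000000000000000000000000000000000000000000000000400000002 := rS 0x12041010faa22a723410c8af37a97d8e7931c463b037ffb84a112591eb1f35599766f7 (k8 c12254 c12185 c12248 c8138 c12239 c5231 c5562 c5342 (k8 c5558 c5559 c5201 c5586 c5508 c5504 c5371 c5355 (k8 c5441 c5357 c5439 c5477 c5325 c5326 c5478 c8135 (k8 c11969 c1290 c12256 c2319 c2027 c5650 c3593 c345 k0)))) (by decide +kernel)
def c12258 : PP 9 3 T 0x1000000000000052000121080000000000000000040008000000000000000000000000000000000000000000000000000000000000000000000400000000 := rS 0x3e02009ac0af755997e7b3 (k8 c12185 c12239 c12248 c8138 c12254 c12255 c5523 c12257 (k2 c5642 c1111 (k1 c6197 k0))) (by decide +kernel)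
def c12259 : PP 9 3 T 0x1000000000000052000121080000000000000000040008000000000000000000000000000000000000000000000000000000000000000000000000000000 := rS 0x719ca3c2cc2cb150acf6899950690ebf402227ba652a61789746a5b18b1cf2573b9d4f68741aaccbb3 (k8 c12185 c12248 c8138 c5525 c5373 c5372 c5440 c5356 (k8 c5353 c5441 c5357 c5476 c5474 c5324 c5321 c9695 (k8 c5445 c5446 c5447 c12254 c12258 c9731 c1237 c483 (k8 c9744 c5682 c5664 c2024 c2450 c2449 c733 c2003 (k4 c3607 c5537 c12212 c5316 (k2 c5432 c10897 k0)))))) (by decide +kernel)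
def c12260 : PP 9 3 T 0x41001000000000055000000000000000000000200000008000000000000000000000000000000000000000000000000000000000000000000000000000000 := rS 0xef789afee (k4 c5201 c5507 c5198 c5195 (k1 c9525 k0)) (by decide +kernel)
def c12261 : PP 9 3 T 0x2000000000000000020080000000000000000000000000200000000000000000000000000000000000000000000000000000000000000000180400002 := rS 0x2606e07639e4c7113d8353a9b (k8 c5536 c5458 c5522 c5372 c5371 c5355 c5441 c5357 (k4 c5432 c5435 c10500 c2317 k0)) (by decide +kernel)
def c12262 : PP 9 3 T 0x41000000000000055000120080000000000000000040008000000000000000080000000000000000004000000000000000010000000000000000400000000 := rS 0x3c43f19a4a5217001b40aa137b2432b401bf03ca92f9e4c7113d9ae3a8d6ba2dabee128f482474df82b021 (k8 c343 c5231 c12260 c5536 c5562 c5340 c5560 c5559 (k8 c5201 c5585 c5583 c5507 c5505 c5504 c5523 c5372 (k8 c5371 c5355 c5441 c5439 c2021 c5650 c5682 c1111 (k8 c11939 c1164 c1180 c1148 c1199 c12249 c2316 c5642 (k4 c10515 c12261 c5648 c323 (k2 c327 c12219 (k1 c6627 k0))))))) (by decide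 +kernel)
def c12263 : PP 9 3 T 0x2000000000000000020080000000000000000000000000000000000000000000000000000000002000040001000000080000000000000000000000000 := rS 0x33d8ac73c9dcea7b43a0da2cd (k8 c5537 c5459 c5525 c5373 c5372 c5440 c5356 c5441 (k4 c5357 c734 c2451 c3607 k0)) (by decide +kernel)
def c12264 : PP 9 3 T 0x1002000000000051000121080000000000000000000008000000000000000000000000000000000000000000000000000010000000001000010800000000 := rS 0x1133832bc63f19ca142194b214cc9f541a4e61749ad5fa017897e3ad757b57ddf355ecc769d (k8 c5458 c5456 c12185 c8138 c12239 c5201 c5585 c5584 (k8 c5507 c5504 c5439 c9695 c9731 c1237 c1339 c481 (k8 c1258 c9719 c9744 c5682 c11608 c5664 c2449 c12263 (k8 c1227 c1233 c5648 c5316 c5318 c6627 c5680 c8466 (k2 c756 c12252 k0))))) (by decide +kernel)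
def c12265 : PP 9 3 T 0x40002000000000051000020080000000000000000040008000000100000006000000000500000000040000000000000000000000000000000000400000010 := rS 0xf10fc66929485c00a13686406b40f325671510bccbe7931c44f66b1e906b09b (k8 c5536 c5231 c5340 c5560 c5523 c5372 c5371 c5355 (k8 c5441 c5439 c5325 c2550 c1241 c2556 c1180 c5650 (k8 c5685 c1111 c1164 c2316 c1199 c5642 c10515 c12261 (k4 c5648 c323 c327 c12219 (k1 c6627 k0))))) (by decide +kernel)
def c12266 : PP 9 3 T 0x1000000000000050000121080000000000000000040008000000000000000000000000000000000000000000000000000000000000000000000000000000 := rS 0x93018a9c800031007d50fd02bdc47e0d8aacca4322bcdeb118eb5e06af6abffddb3128447a292591eb1f3 (k8 c12239 c5231 c5562 c5342 c5339 c5560 c5558 c5559 (k8 c12185 c5201 c5586 c5585 c5584 c5508 c5507 c5504 (k8 c5371 c5477 c5325 c5326 c5478 c12248 c8138 c12259 (k8 c12260 c12264 c12262 c12255 c12265 c5682 c2319 c5650 (k4 c6197 c5642 c11969 c1290 (k2 c2027 c345 (k1 c3593 k0))))))) (by decide +kernel)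
def c12267 : PP 9 3 T 0x40000000000000052000220080000000000000200000000000000000000000000000000000000000000000000000000000000000000000000000080000000 := rS 0x1be3a5a444f66b1291e269b (k8 c5397 c5382 c5562 c5559 c5523 c5372 c5371 c11939 (k2 c11921 c2514 (k1 c11859 k0))) (by decide +kernel)
def c12268 : PP 9 3 T 0x1000000000010000000080000000000000000040000000100000400000000000000000000000000014504000100044001000004400000000440050010 := rS 0xcb388e0003b1b80c405f639f4fe63 (k8 c5355 c5358 c5442 c5357 c5439 c5650 c6197 c8484 (k4 c340 c5642 c5654 c667 (k2 c11878 c3599 k0))) (by decide +kernel)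
def c12269 : PP 9 3 T 0x1000000000000052000021080000000000000000040008000000000000000000000000000000000000000000000000000000000000000000000000000000 := rS 0x37d950038b450aa834bf402220f815572932f85329530a6d429f49bc4be093e9fcae63889ed0e9135a0d1e8d81bfc4a3d1492c8e7340c4c266f44963408b08d623beef9eccba15 (k8 c11531 c5321 c12185 c12239 c5201 c5504 c5231 c5558 (k8 c5583 c12266 c10689 c5567 c5565 c5564 c5382 c5380 (k8 c5379 c5562 c5342 c5339 c5560 c5559 c5586 c5508 (k8 c5505 c5526 c5525 c5523 c5374 c5373 c5372 c5371 (k8 c5355 c5353 c5358 c5442 c5438 c5439 c9695 c5444 (k8 c5448 c5398 c5397 c5445 c5446 c5447 c11870 c12242 (k8 c10214 c8138 c314 c12267 c12268 c9731 c1237 c9744 (k8 c5682 c2449 c2024 c12252 c3613 c3599 c2953 c11861 k0)))))))) (by decide +kernel)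
def c12270 : PP 9 3 T 0x41000400000000011000221080000000000000000040008000000100000000000000000001000000100000000000000000020000004400000010000010000 := rS 0x143a1f56a552eaa54bc486450d97c12c73c95cebb343a441a834784cde89 (k8 c5567 c5565 c5564 c5526 c5525 c5522 c5374 c5373 (k8 c12185 c5440 c5353 c5441 c5357 c5438 c5439 c5475 (k8 c5326 c5478 c9695 c9109 c8720 c1126 c1955 c1959 (k4 c1084 c8959 c11986 c9423 k0)))) (by decide +kernel)
def c12271 : PP 9 3 T 0x8000000101000044040000000000000000002000000000000000000000004400000000200000000 := rS 0x930121915e6f5 (k4 c5477 c5325 c5326 c5478 (k2 c2027 c345 (k1 c3593 k0))) (by decide +kernel)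
def c12272 : PP 9 3 T 0x41004400000000055000020080000000000000000040008000000000000000000000800000000000004000000000000000000000000000000000400000010 := rS 0xcc6ecf4a05d2ea065c50329f10325eeb50faa1fa35798c5eb1d6bc0d5ed57ffb84a4b238ed3ad11cb37c158 (k8 c5231 c12260 c5537 c5534 c5459 c5458 c5456 c5562 (k8 c5342 c5559 c5201 c5586 c5585 c5584 c5508 c5507 (k8 c5504 c5477 c5476 c5325 c5324 c12265 c5682 c2319 (k8 c2614 c2021 c2065 c5650 c1608 c377 c12271 c1292 (k8 c5680 c1233 c1068 c10048 c2451 c2419 c2013 c3587 k0))))) (by decide +kernel)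
def c12273 : PP 9 3 T 0x1000000000000050000021080000000000000000040008000000000000000000000000000000000000000000000000000000000000000000000000000000 := rS 0x97429983129541a42e937e804440555995c5e36fb35c29d1df836258ef84e2681d011c96291e8444ad545ac51b1dac7b9e25d049f4f27f2b9d7667b48a3fe615 (k8 c11531 c12239 c5526 c5374 c5372 c12185 c5440 c5353 (k8 c5358 c5441 c5442 c5438 c5321 c9695 c5201 c5231 (k8 c5504 c5505 c5506 c5583 c5585 c5559 c5558 c5560 (k8 c5339 c5342 c5562 c12266 c5380 c5382 c5564 c5725 (k8 c10689 c12269 c12260 c5456 c5458 c5460 c5537 c5538 (k8 c10517 c5846 c12270 c8138 c314 c12272 c9731 c1237 (k8 c481 c1258 c9744 c5682 c10214 c5648 c5664 c2449 (k2 c1227 c12263 k0)))))))) (by decide +kernel)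
def c12274 : PP 9 3 T 0x1000000000005000000000000000000000000040008000100000000001080000000000000000005001100000000100020400000000000000000800000 := rS 0x1a0364d8e466cf66f7876c90d8c52e95 (k8 c1955 c1126 c5476 c5475 c1064 c1676 c10944 c2072 (k4 c5453 c5492 c397 c1067 (k2 c5654 c3617 (k1 c1481 k0)))) (by decide +kernel)
def c12275 : PP 9 3 T 0x5000000000000000000000000000000000000000000000000000000000000000000000000000000100000420000000004000000000020 := rS 0x1de (k2 c11022 c9442 k0) (by decide +kernel)
def c12276 : PP 9 3 T 0x1001000000000005000000080000000000000000000008000000000000000000000000001000000000000000000004000000000000000800000000000060 := rS 0xb0332f9d59e35 (k4 c5324 c1646 c5440 c5439 (k2 c493 c11909 (k1 c12275 k0))) (by decide +kernel)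
def c12277 : PP 9 3 T 0x40001000000000060000020080000000000000000000008000100100000020000000000502400000000000000000000000020000000001000000020000420 := rS 0x9f7078da4f304b1cf257079ec1aa9d8a5cbe953a8655a89 (k8 c8704 c1959 c9698 c5440 c1955 c5439 c1126 c8483 (k8 c5531 c5522 c5372 c5369 c5353 c5441 c5357 c5438 (k4 c5325 c8962 c8552 c2078 (k2 c2882 c9396 k0)))) (by decide +kernel)
def c12278 : PP 9 3 T 0x1001000000000005000020080000000000000000000008000200000000000080000000000000000000000000000000000000000000000000000000000420 := rS 0x3347437038cc1e7b (k8 c5372 c5369 c5316 c5432 c5435 c6200 c2071 c12276 k0) (by decide +kernel)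
def c12279 : PP 9 3 T 0x41001000000000064000120080000000000000000040008000000000000044080000000500000000140000000140000000020000000000000000000000020 := rS 0x6f38ad224ad80a24383242b3074cb4901c2f29639d4f68748a0d1e9d55c54da9959ec4be3d3e90422098ed61fa6b3986416a90088c3615 (k8 c11531 c5475 c5409 c1056 c5531 c8316 c9698 c1316 (k8 c5523 c1128 c5212 c5341 c5438 c9667 c8151 c5442 (k8 c8150 c5439 c8483 c5532 c5530 c5529 c5414 c5413 (k8 c5412 c5526 c5525 c5374 c5373 c5372 c5440 c5357 (k8 c12278 c12274 c714 c5648 c1753 c9007 c12276 c2502 (k8 c2071 c5284 c8704 c12277 c1959 c3613 c3623 c755 (k2 c1148 c5666 k0))))))) (by decide +kernel)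
def c12280 : PP 9 3 T 0x1000000000005000000000000000000000000040000000100000000000040000000000000000000000000000000100020400000000008000005000000 := rS 0x1749b2077df (k4 c5492 c492 c10944 c9007 (k2 c1064 c5648 k0)) (by decide +kernel)
def c12281 : PP 9 3 T 0x1001000000000040000121080000000000000000040008000100000000000000000000000000000000000000000000000020000000000000000000000020 := rS 0x1a0df24384271330328e006f1b4d9ec5ef27d423b648599a9342074b2332e8d5e65b18bd58e57079ed0e9141a755699d8896b04b068f4fa4708bf4d6972fa54ea030c82d52011186deeff6aabd17036bac51beeda7cf6615 (k8 c11531 c12185 c12239 c12273 c5239 c5505 c5506 c5507 (k8 c5508 c5583 c5584 c5585 c5586 c12279 c5475 c5409 (k8 c1056 c5531 c8316 c9698 c54 c5440 c1955 c5439 (k8 c1126 c5523 c1128 c9667 c10411 c5442 c8150 c5522 (k8 c8142 c5212 c9666 c8483 c5530 c5413 c5412 c5525 (k8 c5374 c5373 c5372 c5369 c5353 c5357 c5477 c5476 (k8 c5474 c5325 c5324 c5321 c12280 c12275 c1953 c3571 (k8 c11774 c2502 c5648 c10198 c1676 c1068 c1465 c10944 (k8 c5451 c5453 c5496 c9525 c10897 c8847 c5680 c713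 (k4 c8340 c2869 c4267 c9111 (k2 c2947 c10216 (k1 c8355 k0)))))))))))) (by decide +kernel)
def c12282 : PP 9 3 T 0x1001000000000040000121080000000000000000040008000000000000000000000000000000000000000000000000000020000000000000000000000020 := rS 0x21198591d0dc0e33943dcbaf32dbd58e75079ed0e0d41fcf625f46ac5af0345abdaafff702f66a90088f681b (k8 c5475 c12273 c5409 c1056 c5531 c12185 c8316 c5239 (k8 c5586 c5585 c5584 c5583 c5508 c5507 c5506 c5505 (k8 c5439 c8483 c12239 c5525 c5522 c5373 c5372 c5369 (k8 c5440 c5357 c5477 c5474 c5325 c5321 c12279 c12281 (k8 c5316 c5432 c5435 c6200 c12275 c12276 c3571 c2502 k0))))) (by decide +kernel)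
def c12283 : PP 9 3 T 0x1000000000000040000121080000000000000000040008000000000000000000000000000000000000000000000000000020000000000000000000000020 := rS 0x67779921694a6c72d11df8016092b98f660f3d83446ab4caa763b40086dfa6b4b97d2a75 (k8 c5440 c1955 c5439 c1126 c5523 c1128 c5475 c1056 (k8 c12273 c8483 c5531 c5530 c5413 c5409 c5522 c5372 (k8 c5369 c12185 c5355 c5353 c5438 c8316 c12282 c5456 (k8 c5459 c5534 c5536 c9123 c11799 c1064 c10944 c8772 (k1 c5453 k0))))) (by decide +kernel)
def c12284 : PP 9 3 T 0x60000120080000000000000000000000000000000400005000000000108000000000010000000100040000000000000000000000000000 := rS 0x71788c0e16fa6d8e7d3c98e227b489ad1e9d36a67625f (k8 c5439 c8483 c5530 c5529 c5412 c5526 c5523 c5374 (k8 c5372 c5371 c5355 c5441 c5442 c5357 c2562 c2564 (k4 c1652 c3598 c11607 c5846 (k1 c5466 k0)))) (by decide +kernel)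
def c12285 : PP 9 3 T 0x1001400000000005000000000000000000000000000000000000000000000000000000005000000004000000000000100020400000000000000000000000 := rS 0x1a0c8 (k2 c10944 c5688 (k1 c2133 k0)) (by decide +kernel)
def c12286 : PP 9 3 T 0x1001000000000064000120080000000000000000000008000000000400004080000000500000000000000000000000060020000000000000000002000000 := rS 0x6fb8dc29e1f0e7c6d319f799e8166b2c7643228d462c73c9d4f6914788d569959ec4be291e9f4821104c76b0fd35a84fe15 (k8 c11531 c5358 c2929 c5523 c1128 c5212 c5341 c5438 (k8 c9667 c8151 c5442 c8150 c8199 c5439 c8483 c5532 (k8 c5530 c5413 c5409 c5526 c5374 c5372 c5440 c5441 (k8 c5357 c5476 c5324 c5326 c5478 c491 c1320 c2072 (k8 c752 c12284 c12285 c5492 c5496 c9525 c397 c3588 (k4 c5680 c3057 c1607 c2884 (k1 c3610 k0))))))) (by decide +kernel)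
def c12287 : PP 9 3 T 0x9001000000000064000120080000000000000000000008000000000400000080000000000000000000000000000000000020000000000000000000000010 := rS 0x1df67b35a437038e467280c8d4ea7b06aaf624108b5daaff7e9ace6700eabe3b58588a44a45498242e020086cbe15 (k8 c11531 c5439 c5475 c1056 c5642 c1107 c5438 c261 (k8 c5326 c9666 c8199 c5506 c5212 c5341 c5584 c1954 (k8 c8310 c1316 c5523 c1128 c5586 c5585 c5507 c9667 (k8 c8151 c8483 c5413 c5522 c5372 c5440 c5324 c12286 (k8 c5648 c5284 c5317 c5432 c5435 c6923 c2071 c11576 (k2 c5496 c12285 k0)))))) (by decide +kernel)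
def c12288 : PP 9 3 T 0x1000000000000040000121080000000000000000040008000000000000000000000000000000000000000000000000000020000000000000000000000000 := rS 0x32d00183078dbe9b1cb8477e07b286261f0ba4ce0020e814e6fd00bc48af30dbd412c73c9fcc7113d9ac469d55884da9954ec7685f148963b5858abfddb3 (k8 c12185 c5239 c5584 c5506 c5212 c5341 c9666 c8199 (k8 c5439 c12273 c8483 c5531 c5530 c5529 c5528 c5413 (k8 c5412 c5409 c5523 c5372 c5371 c5355 c5358 c5441 (k8 c5357 c5438 c5477 c5475 c5325 c5326 c9695 c1056 (k8 c1128 c1316 c12283 c1954 c5642 c8310 c261 c1107 (k8 c1111 c8340 c2929 c3581 c12287 c5456 c5460 c5534 (k8 c5536 c5538 c11976 c3598 c6193 c11607 c1320 c752 k0))))))) (by decide +kernel)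
def c12289 : PP 9 3 T 0x1001000000000005000000080000000000000000000008000000000000000000000000001000000000000000000004000000000000000800000000000020 := rS 0x7 (k2 c1674 c12276 k0) (by decide +kernel)
def c12290 : PP 9 3 T 0x1001000000000045000020080000000000000000040008000000001000000080000000000400001400005100000000000000000000401004001000000420 := rS 0x38bc4e16fa6d42360b0ed9a39079ec1b29 (k8 c12278 c5522 c5372 c5369 c397 c2071 c12289 c11799 (k8 c5654 c1068 c1067 c2331 c1483 c5680 c3620 c5466 k0)) (by decide +kernel)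
def c12291 : PP 9 3 T 0x1001000000000040000121080000000000000000040008000000000000000080000000000000000000000000000000000000000000000000000000000020 := rS 0x38136366fb8c723bf13442ca14b24d2bdf193256a9f65ca4cc6e059a432033b9ad3b1536a6567b1da17c4b581e9f48e11f9a3516aff76ccca15 (k8 c11531 c12288 c12185 c5239 c5584 c5583 c5505 c12239 (k8 c9667 c10411 c5442 c8150 c5212 c9666 c5439 c12273 (k8 c8483 c5532 c5530 c5529 c5414 c5412 c5523 c5356 (k8 c54 c9698 c9743 c717 c12249 c5664 c12278 c1144 (k8 c2815 c1148 c2063 c12290 c5492 c2013 c323 c5678 (k8 c10048 c5648 c1708 c5680 c1676 c398 c5466 c5580 (k4 c5654 c1067 c5920 c1483 k0))))))) (by decide +kernel)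
def c12292 : PP 9 3 T 0x4000001000000000000000000000000000000000000000000000000000000000000000008000000000014000000000008000000000110 := rS 0x348019003 (k4 c261 c323 c5642 c1179 (k1 c8135 k0)) (by decide +kernel)
def c12293 : PP 9 3 T 0x1000000000000000000000000000000000100000000000000000000000000000000001004000000000000000000000800000400000000 := rS 0x2e19 (k2 c491 c1676 (k1 c5648 k0)) (by decide +kernel)
def c12294 : PP 9 3 T 0x24000020080000000000000000000000000100000000001000000000000000000000000004000000000000000000000008000005000010 := rS 0x9a4b18592164a9ad3a6d4cec4bfdf (k8 c5492 c5439 c8483 c5530 c5529 c5412 c5523 c2013 (k4 c5648 c1064 c1460 c5678 (k2 c10443 c1231 k0))) (by decide +kernel)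
def c12295 : PP 9 3 T 0x8000000000000000000000080000000000000000000000000000000000000000000000040010000000008000000000040080000000000000000000000000 := rS 0x89409bcfa7f3b9d51ad7 (k8 c5507 c5505 c5440 c5356 c5358 c5442 c2815 c1604 (k2 c2010 c5861 k0)) (by decide +kernel)
def c12296 : PP 9 3 T 0x8000000000000041000000080000000000000000000000000000001000000000000000000010000400010020000000000480000004400200011502000000 := rS 0x1686e24a207e81f109d3ed33e9dcea8d6ba2daacb398043e02 (k8 c9701 c1111 c9699 c9719 c1320 c5585 c5583 c5507 (k8 c5505 c5440 c5356 c5442 c2019 c12295 c380 c5680 (k4 c5463 c5576 c5287 c399 (k2 c2010 c3584 (k1 c1148 k0))))) (by decide +kernel)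
def c12297 : PP 9 3 T 0x9001000000000064000021080000000000000000000000000100000000001080000000000000000000000000000000000010000004400008011004000010 := rS 0x4913ad5c2a01c38da0cf4a31592660f9a52e02008619a3b49f7de209319dcd6234ec54429959ec4bed7 (k8 c5507 c5439 c8483 c5532 c5530 c5528 c5414 c5412 (k8 c5409 c5523 c5356 c5355 c5438 c9695 c5492 c12292 (k8 c12293 c2072 c12294 c9699 c9701 c1227 c9744 c1111 (k8 c5664 c2063 c734 c5678 c1587 c5688 c1779 c2130 (k4 c12296 c3060 c1200 c2928 (k2 c400 c3584 k0)))))) (by decide +kernel)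
def c12298 : PP 9 3 T 0x1001000000000041000101080000000000000000000008000100000000000000000000001000000000001000000004000010000000000804000400000010 := rS 0x1ff8942c9391a00067019612407678d4c6251e9f4821104c76b0d76afbb6615 (k8 c11531 c12185 c5239 c5585 c5507 c5212 c5341 c5438 (k8 c9667 c8151 c5442 c8150 c9666 c5355 c5324 c1646 (k8 c1674 c12293 c11909 c261 c2004 c5642 c5664 c11969 (k4 c1179 c1196 c12219 c327 (k1 c6627 k0))))) (by decide +kernel)
def c12299 : PP 9 3 T 0x20000020080000000000000000000000000100000000000000000000000000000000000004000000000000000000000080000001000010 := rS 0xc29b0b31cf263889ecd69d36a67625f (k8 c5439 c8483 c5530 c5529 c5412 c5523 c5372 c5371 (k4 c5355 c5441 c5357 c5648 (k2 c2328 c1460 (k1 c3598 k0)))) (by decide +kernel)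
def c12300 : PP 9 3 T 0x1001000000000040000121080000000000000000040008000100000000001080000000000000000000000000000000000000000000000000000000000000 := rS 0x95efb398ac942998d29700861a236498ed9a3919bc436313b9ec469d36ec7685f14897ddb3258348e11f99940a15 (k8 c11531 c12291 c12288 c12239 c9667 c10411 c5522 c8142 (k8 c12185 c5239 c9666 c8199 c5439 c12273 c8483 c5529 (k8 c5412 c5409 c5372 c5356 c5476 c5475 c9695 c12297 (k8 c397 c2071 c12298 c9007 c5654 c1481 c12299 c9699 (k8 c1227 c9744 c5664 c5871 c2063 c734 c8127 c5453 (k2 c1588 c5678 k0)))))) (by decide +kernel)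
def c12301 : PP 9 3 T 0x1000000000024000020080000000000000000040000000100000000000080000000000000000000000004000000000000000000000008000005000010 := rS 0x966832470161ba57be3bd897d3a23 (k8 c5409 c5412 c5439 c8483 c12293 c5492 c2013 c12299 (k4 c5648 c5654 c1064 c398 (k2 c5678 c1708 k0))) (by decide +kernel)
def c12302 : PP 9 3 T 0x9001000000000064000021080000000000000000040000000100000000000080000000000000000000000000000000000010000004400008011004000010 := rS 0x4913ad5c2a01c38da0cf4a31592660f9a52e02008619a3b49f7de209319dcd6234ec54429959ec4bed7 (k8 c5507 c5439 c8483 c5532 c5530 c5528 c5414 c5412 (k8 c5409 c5523 c5356 c5355 c5438 c9695 c5492 c12292 (k8 c12293 c2072 c12301 c9699 c9701 c1227 c9744 c1111 (k8 c5664 c2063 c734 c5678 c1587 c5688 c1779 c2130 (k4 c12296 c3060 c1200 c2928 (k2 c400 c3584 k0)))))) (by decide +kernel)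
def c12303 : PP 9 3 T 0x1001000000000040000121080000000000000000040008000100000000000080000000000000000000000000000000000000000000000000000000000000 := rS 0x12bdf6731536853307cd2970100430d11b24c76cd1c8cdf8f10d8c4ee7b3588d3a6d4cec7685f14897ddb3258348e11f99940a15 (k8 c11531 c12291 c12288 c12239 c9667 c10411 c5522 c8142 (k8 c12185 c5239 c9666 c8199 c5439 c12273 c8483 c5530 (k8 c5529 c5412 c5409 c5523 c5372 c5356 c5476 c5475 (k8 c9695 c12300 c12302 c397 c2071 c12298 c9007 c5654 (k8 c1481 c12299 c9699 c9701 c1227 c9744 c1111 c5664 (k4 c5871 c2327 c734 c8127 (k2 c5453 c1587 (k1 c10429 k0)))))))) (by decide +kernel)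
def c12304 : PP 9 3 T 0x41005000000000045000100000000000000000000000000000000001000000000000000481000000404001000000000000404000004014810000500000010 := rS 0x3008784e735aa8196944bb25bcd0718a44a4708f7dc215 (k8 c11531 c3063 c5496 c9667 c10411 c9666 c8199 c1773 (k8 c6899 c5691 c2133 c1708 c5678 c1757 c2019 c2515 (k4 c1196 c2927 c10381 c11969 (k2 c1111 c5642 k0)))) (by decide +kernel)
def c12305 : PP 9 3 T 0x400010000000000450001000000000000000000000000000000000010000000000000004a0100000400001000000000000404000004004000000500000010 := rS 0x6010f09ce6b55032d28de71a5c522523847be15 (k8 c11531 c5496 c9667 c10411 c9666 c8199 c1708 c1779 (k8 c2136 c5678 c1757 c2019 c2515 c1196 c2927 c10381 (k2 c11969 c1111 (k1 c5642 k0)))) (by decide +kernel)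
def c12306 : PP 9 3 T 0x20000020080000000000000000000000000000000000000000000000000000000000000404000000000000000000000500000001400010 := rS 0x41e009ac469d10a67625f (k8 c5439 c8483 c5530 c5528 c5412 c5409 c5523 c10507 (k2 c6193 c5642 (k1 c1111 k0))) (by decide +kernel)
def c12307 : PP 9 3 T 0x41001000000000045000100000000000000000000000000000000001000000000000000481100000400001800000000000404000004004000000500000010 := rS 0x33da3df (k4 c5496 c12305 c2563 c5688 k0) (by decide +kernel)
def c12308 : PP 9 3 T 0x4000001000000000000000000000000000000000000000000000000000200000000000000000000400014000000000000000000000000 := rS 0xce69 (k2 c1179 c2063 (k1 c5664 k0)) (by decide +kernel)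
def c12309 : PP 9 3 T 0x1001000000000040000121080000000000000000040008000000000000000000000000000000000000000000000000000000000000000000000000000020 := rS 0x857b82cb2692ebccb6f5d983d0e0d419b76865 (k8 c12288 c12273 c5529 c5525 c5522 c5373 c5369 c12185 (k8 c5477 c5474 c5325 c5321 c9743 c314 c717 c12291 (k2 c5871 c3571 k0))) (by decide +kernel)
def c12310 : PP 9 3 T 0x1001000000000040000121080000000000000000040008000000000000000080000000000000000000000000000000000000000000000000000000000000 := rS 0x1248023b4df8d9ad20b81c7e39198665035639e6227b35fcc469d55c54426d4cacf63b42f92c1a3d3e90422098ed61aed5f7324cbb33b98c0a15 (k8 c11531 c12309 c5355 c5356 c12185 c12288 c12308 c5239 (k8 c5585 c5507 c5212 c5341 c5438 c9667 c8151 c5442 (k8 c8150 c5522 c8142 c5439 c12273 c8483 c5532 c5530 (k8 c5529 c5528 c5414 c5413 c5412 c5409 c12239 c5523 (k8 c5372 c5371 c5441 c5357 c5324 c12303 c5315 c5316 (k8 c5317 c5318 c5432 c5433 c6923 c2071 c6627 c12307 (k4 c12304 c10253 c12306 c5642 (k1 c261 k0)))))))) (by decide +kernel)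
def c12311 : PP 9 3 T 0x8000000100000044040000100002000000000000000000000000000000004400200000000000000 := rS 0x930121915e6f5 (k4 c5477 c5325 c5326 c5478 (k2 c2078 c400 (k1 c3593 k0))) (by decide +kernel)
def c12312 : PP 9 3 T 0x9001000000000064000020080000000000000000040008000100100000000040000000000100000000000004000000000000000004401008000001000010 := rS 0x40492d31ff8996e0660e13ea11b8592a4322bcdea9dd897e06af7ff7c76d1 (k8 c2129 c492 c5492 c5586 c5584 c5508 c5439 c8483 (k8 c5412 c5477 c5325 c5326 c5478 c2013 c5648 c12299 (k8 c10048 c1465 c5654 c6897 c12311 c1718 c5680 c5576 (k4 c5579 c399 c2077 c5996 k0)))) (by decide +kernel)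
def c12313 : PP 9 3 T 0x1001000000000040000121080000000000000000040008000100000000000000000000000000000000000000000000000000000000000008000000000000 := rS 0x19acf62a1528694b804309368f7de20936a6553b1da17fdc4b068f4fa4708fce3b5864997667731815ee15 (k8 c11531 c12310 c12309 c5355 c5356 c12185 c12288 c12308 (k8 c5212 c5341 c12239 c9667 c10411 c5442 c8150 c5522 (k8 c8142 c5239 c5439 c12273 c8483 c5531 c5530 c5529 (k8 c5438 c9695 c5492 c2129 c12292 c12312 c9699 c1227 (k4 c9744 c5678 c5871 c1586 (k2 c1587 c2016 (k1 c8127 k0))))))) (by decide +kernel)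
def c12314 : PP 9 3 T 0x8000000000000000000000000000000000000000008000000100000000000000000500000000000000000000000000000000000001004000000000000 := rS 0x3f (k2 c5576 c6627 k0) (by decide +kernel)
def c12315 : PP 9 3 T 0x5000000000045000000000000000000000000040008000100100000044040000000102100000041001000000000000000000004400000000400000000 := rS 0x38708ed949f49a852c374af7c6af5 (k8 c5477 c5324 c5495 c2016 c2329 c5678 c10048 c1637 (k4 c1643 c5680 c12293 c1718 (k2 c5654 c12311 k0))) (by decide +kernel)
def c12316 : PP 9 3 T 0x8005000000000064000020080000000000000000040008000100000000000040000000001100000000000000000000000000000004401400001001000010 := rS 0x200d324f79c2de4bb8d949a1c27d42614a8dc2c4322bcc62f535a74da9981a4f625f (k8 c5439 c8483 c9007 c5508 c5530 c5529 c5412 c5523 (k8 c5477 c5476 c5325 c5326 c5478 c5648 c12299 c1461 (k8 c1460 c1068 c1465 c5654 c10443 c5680 c2617 c1232 (k4 c1327 c1718 c5678 c2947 (k2 c5496 c5996 (k1 c9158 k0)))))) (by decide +kernel)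
def c12317 : PP 9 3 T 0x1001000000000040000121080000000000000000040008000100000000000000000000000000000000000000000000000000000000000000000000000000 := rS 0x95efb39a2361c828b2c542998d21d4b804303b66f8c66f12ebccb6317ab1cf275079ed0e8311a74da9954ec7685f1292c1a3d3e91c23f38ed61af0357b55ffee64997667731815ee15 (k8 c11531 c12310 c12309 c5355 c5356 c12185 c12288 c12308 (k8 c5239 c5586 c5585 c5584 c5508 c5507 c5212 c5341 (k8 c12239 c9667 c10411 c5442 c8150 c5522 c8142 c9666 (k8 c5439 c12273 c8483 c5531 c5530 c5529 c5412 c5409 (k8 c5525 c5373 c5372 c5369 c5440 c5441 c5357 c5477 (k8 c5476 c5474 c5325 c5321 c9695 c12313 c12314 c12315 (k8 c12298 c12316 c9699 c1227 c375 c9744 c5664 c5871 (k8 c734 c2003 c3571 c2470 c5654 c1481 c3607 c5453 (k2 c1587 c5678 k0))))))))) (by decide +kernel)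
def c12318 : PP 9 3 T 0x40004400000000045000000000000000000000000000008000000100000044040000000002100000041005000000000000000000004404000000000000000 := rS 0x121bd0170b29429521915e6f5 (k8 c5477 c5325 c5326 c5478 c2016 c10048 c5680 c1718 (k4 c2078 c8709 c3593 c2946 k0)) (by decide +kernel)
def c12319 : PP 9 3 T 0x1001000000000040000121080000000000000000040008000000000000000000000000000000000000000000000000000000000000000000000000000000 := rS 0x1248029b1db353fdff1b482e071f8e46619943dc0a35639e6227b3588d3aab8a884da9954acf63b42f92c1a3d3e904124708fce3b586bc0d5ed57ffb99265d99dcc615 (k8 c11531 c5355 c5356 c12185 c12288 c12308 c5239 c5586 (k8 c5585 c5584 c5508 c5507 c5212 c5341 c12239 c9667 (k8 c10411 c5438 c8151 c5442 c8150 c5522 c8142 c5439 (k8 c12273 c8483 c5532 c5531 c5530 c5529 c5528 c5414 (k8 c5413 c5412 c5409 c5523 c5372 c5371 c5441 c5357 (k8 c5324 c12309 c12310 c12317 c5315 c5316 c5317 c5318 (k8 c5432 c5433 c6923 c12314 c5496 c2883 c12318 c12304 (k4 c12307 c10253 c12306 c5642 (k1 c261 k0))))))))) (by decide +kernel)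
def c12320 : PP 9 3 T 0x60000120080000000000000000000008000100000000000000000140000000000000000400140000000010000000000500000000000020 := rS 0x38bc4b565a7d426e0b02c060f3d834d69d8a9b532b3d897c4b581e844fa15 (k8 c11531 c5442 c9667 c8150 c5212 c9666 c5439 c8483 (k8 c5532 c5530 c5529 c5414 c5412 c5523 c5522 c5372 (k8 c5369 c54 c717 c11799 c12249 c1068 c1465 c1144 (k4 c1148 c5680 c3620 c5466 k0)))) (by decide +kernel)
def c12321 : PP 9 3 T 0x2000000000024000021080000000000000000000000000100000000000000000000000000000000000000000000000010000000000008000000400000 := rS 0x33d8a944b8610a663480527df789d4f66b41a74426d4cec4bec93b98d36cd (k8 c5537 c5536 c5355 c5356 c12308 c5439 c8483 c5530 (k8 c5529 c5528 c5412 c5525 c5523 c5372 c5440 c9695 (k8 c5492 c323 c10507 c9744 c5664 c5871 c5648 c1227 (k4 c5678 c734 c1587 c8115 k0)))) (by decide +kernel)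
def c12322 : PP 9 3 T 0x4000000000041000100080000000000000000000008000000000000000000000000500100000000000008000000000000000000000000000000000010 := rS 0xe6005000cc6251e9f4821104c76b015 (k8 c11531 c5212 c5341 c5438 c9667 c8151 c5442 c8150 (k4 c9666 c5355 c261 c12219 (k2 c5642 c1196 (k1 c11969 k0)))) (by decide +kernel)
def c12323 : PP 9 3 T 0x2000000000060000121080000000000000000000008000100000000000000000000000000000000000000000000000010000000000000000000000000 := rS 0x95efb398a853325cd21800a4fc6330b815e2793ac44f66b41a74426d4cec4be3d089f63b5846b5d16d5f73276677318edc2394db35be15 (k8 c11531 c5538 c5537 c5536 c5534 c5460 c5456 c5355 (k8 c5356 c12185 c12308 c5239 c5585 c5583 c5507 c5505 (k8 c5212 c5341 c5442 c9667 c8150 c5439 c8483 c5530 (k8 c5529 c5528 c5412 c5525 c5523 c5372 c5371 c5440 (k8 c5441 c9695 c12320 c10515 c12321 c12314 c12322 c10507 (k8 c5648 c9744 c1227 c5664 c5871 c734 c8115 c5453 (k2 c1587 c5678 k0))))))) (by decide +kernel)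
def c12324 : PP 9 3 T 0x1000000000000040000121080000000000000000040008000000000000000000000000000000000000000000000000000000000000000000000000000000 := rS 0x49817c60a1b85c66199426c723bf0324cad56bc747beeac044fa633becc1e6dd8ed0be15 (k8 c11531 c5439 c12273 c8483 c5529 c5369 c12185 c5356 (k8 c5355 c5442 c9667 c5212 c5239 c8150 c5341 c5507 (k8 c5585 c12288 c12308 c12319 c5456 c5534 c5536 c12323 (k8 c5315 c5316 c5433 c5435 c6200 c12314 c717 c12322 (k1 c12306 k0))))) (by decide +kernel)
def c12325 : PP 9 3 T 0x4000400000000065000020000000000000000000000000000100000000000000000000400000000050000000000100000020004000000000000020400020 := rS 0x208447fe20099d2419 (k8 c9698 c5648 c63 c53 c5196 c9010 c9002 c5462 (k1 c9001 k0)) (by decide +kernel)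
def c12326 : PP 9 3 T 0x41001000000000064000020080000000000000000040008000100000400000000000000000000000000000000110100004020000000000008000000000020 := rS 0x3c23c0196ff6aa2e06b18efb90ad7660e838920bb21ecad4bbf55e67218d5e61b04b1cae7543a44d68347a75569954ec4bfdf059b52a19 (k8 c9698 c2013 c5529 c717 c5492 c5439 c8483 c5531 (k8 c5530 c5413 c5412 c5526 c5525 c5523 c5374 c5373 (k8 c5440 c5353 c5357 c5438 c5475 c5325 c5324 c5478 (k8 c63 c1130 c1128 c1126 c1959 c12280 c10944 c12274 (k8 c5648 c5284 c9007 c8668 c4534 c2502 c12325 c5504 (k8 c5506 c5508 c5583 c5585 c5586 c1324 c3613 c2790 (k2 c12277 c1681 k0))))))) (by decide +kernel)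
def c12327 : PP 9 3 T 0x1000000000000040000021080000000000000000040008000100000000000000000000000000000000000000000000000000000000000008000000000020 := rS 0x10243806cdf71b3873e266b442c3b7b25926852cb24ca95059a4325d7996deac73e9e4fe633becc1e7b43a441a8347fcc468146c4cde89f0e813a6d59ec4bf154ced223df (k8 c5492 c5371 c12273 c5530 c5414 c5439 c8483 c5532 (k8 c5529 c5412 c12324 c11748 c5567 c5565 c5382 c5381 (k8 c5380 c5409 c12239 c5526 c5525 c5522 c5374 c5373 (k8 c5372 c5369 c12185 c5356 c5355 c5358 c5441 c5442 (k8 c5357 c5477 c5474 c5325 c5321 c9698 c9743 c717 (k8 c2013 c12326 c12308 c314 c5871 c323 c5678 c3571 (k8 c12293 c5648 c1708 c2072 c11775 c398 c5688 c5466 (k4 c5580 c5654 c3610 c1484 (k2 c11778 c3026 k0))))))))) (by decide +kernel)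
def c12328 : PP 9 3 T 0x60000220080000000000000000040008000100000000000001000000000000000000000000000000000020000000000000000000000010 := rS 0x7b87c041d56bf55e017986dea0f3588d5621549bd13e14e9b567b12fc553311 (k8 c5371 c5530 c5414 c5439 c8483 c5532 c5529 c5412 (k8 c11748 c5567 c5565 c5531 c5528 c5413 c5409 c5523 (k8 c5369 c5477 c5475 c5325 c1056 c1130 c1128 c1959 (k4 c1954 c5642 c1111 c11745 (k1 c5816 k0))))) (by decide +kernel)
def c12329 : PP 9 3 T 0x40008000000000000000220080000000000000000040000000000000000000080000000404010000000000000000000000000000000000200000000000000 := rS 0x21582591e02496fb4c7e0f488351f130982d8e15 (k8 c11531 c5357 c2470 c5564 c5382 c5526 c5522 c5374 (k8 c5369 c5576 c5579 c5580 c399 c11742 c2476 c565 (k2 c5660 c3574 (k1 c5558 k0)))) (by decide +kernel)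
def c12330 : PP 9 3 T 0x41000000000000064000221080000000000000000040000000100000000000080000000000000000000000000000000000010000000000008000004000010 := rS 0x11c9629ac7bbc6386bb419ec542a504a694b80802cd0c3c4dfe136ace2a9988f7d92771da4cc609d897d3a23 (k8 c5409 c5412 c5439 c8483 c5438 c5355 c12292 c12293 (k8 c5356 c12308 c5492 c5371 c5530 c5414 c5532 c5529 (k8 c11748 c5565 c9695 c12301 c2072 c9699 c9701 c1227 (k8 c9744 c1113 c5678 c5871 c1586 c1587 c8127 c9339 (k8 c2130 c12329 c5204 c5168 c9421 c5342 c5562 c12302 k0))))) (by decide +kernel)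
def c12331 : PP 9 3 T 0x1009000000000024000220080000000000000000040008000100000000000040000000000000000000000004000000000000000000000008000001000010 := rS 0x40e024b8eabc92cc13000706101ac46e167e10c8af30dbd443df658fd42d3238ef625f4e88dfee06fa04fb1348b8cf27f3da3d8ed1 (k8 c2129 c5357 c5526 c5372 c5358 c5441 c5466 c5374 (k8 c5382 c5442 c5380 c5580 c3610 c3013 c5409 c5412 (k8 c5439 c8483 c12293 c2789 c5579 c5578 c5576 c5464 (k8 c5492 c5528 c5477 c5475 c5325 c5326 c5478 c12294 (k8 c5648 c12299 c1336 c1107 c1460 c5654 c5642 c11672 (k8 c6897 c399 c2986 c352 c353 c2077 c2632 c3593 k0)))))) (by decide +kernel)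
def c12332 : PP 9 3 T 0x400000000005000020000000000000000000000000000000000000000001000000010140000001000100000001501010000000000000000002000000 := rS 0x3359ec542a50d297009ed0e83 (k8 c5525 c5373 c5372 c9699 c1227 c9744 c5678 c5871 (k4 c1586 c1587 c2016 c3607 k0)) (by decide +kernel)
def c12333 : PP 9 3 T 0x1000000000000040000021080000000000000000040008000100000000000000000000000000000000000000000000000000000000000008000000000000 := rS 0x8e4b7fb555f038eb32b1ee1c78c6e1968bdc7693649940bdf78bcc3609639e4c6773aecfe62354f87409d36acf625f8aa676911 (k8 c5371 c12273 c5530 c5414 c5439 c8483 c5532 c5529 (k8 c5412 c12324 c11748 c5531 c5409 c12239 c12185 c5440 (k8 c5356 c5355 c5441 c5357 c5438 c5475 c5325 c9695 (k8 c5492 c12327 c12328 c12308 c12292 c12293 c12330 c2129 (k8 c12332 c12299 c12331 c5654 c5204 c5168 c6897 c5504 (k4 c5508 c5584 c5585 c5586 (k2 c5342 c5562 (k1 c12315 k0)))))))) (by decide +kernel)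
def c12334 : PP 9 3 T 0x41001000000000045000220080000000000000000040008000100000000000080000000000000000000001100000000001000000000000004000000000020 := rS 0x207ef80a118acf08921fee06fb4dc6d768f886c161db347231639f4f27f3b83cf68748835068f40a36268905964ea5f (k8 c5439 c5440 c12275 c717 c5567 c5382 c5381 c5380 (k8 c5526 c5525 c5522 c5374 c5373 c5372 c5369 c5356 (k8 c5358 c5441 c5442 c5357 c5476 c397 c2071 c12289 (k8 c11799 c5654 c11775 c1481 c5465 c5466 c5579 c5580 (k8 c3610 c3013 c1484 c3026 c11778 c11777 c3607 c11742 (k2 c5861 c2629 (k1 c5694 k0))))))) (by decide +kernel)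
def c12335 : PP 9 3 T 0x41001000000000045000220080000000000000000040008000100000000000000000000000000000000001100000000001000000000000004000000000020 := rS 0x1fce080b7dc6d7f7b4daacf62f8bbc1664a4c77033233508f72c82cd2192ebccb6f52fb1cfa793f9d41e7b43a441a8347a051b13 (k8 c5382 c5381 c5380 c5526 c5525 c5522 c5374 c5373 (k8 c5372 c5369 c5440 c5358 c5441 c5442 c5357 c5439 (k8 c5477 c5474 c5325 c5321 c9698 c9743 c717 c12275 (k8 c12334 c3571 c2502 c5871 c2629 c12289 c9007 c10198 (k8 c5648 c10944 c11775 c5451 c5453 c5454 c5496 c5725 (k4 c5465 c5466 c5580 c11742 (k2 c3610 c5694 (k1 c3012 k0)))))))) (by decide +kernel)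
def c12336 : PP 9 3 T 0x4000000000001000220080000000000000200000000000100001000000000000000000000000400001100000000001000000000000800000400000000 := rS 0x38ad53ecb6f248c7113da44d68f39c4cde41 (k8 c5340 c5565 c5382 c5379 c5526 c5523 c5374 c5372 (k8 c5371 c5355 c12293 c11859 c1753 c2884 c2515 c6190 (k1 c3604 k0))) (by decide +kernel)
def c12337 : PP 9 3 T 0x1000000000020000020080000000000000000040000000100000000000000000000000000000000000000000000000000000000000500000001000010 := rS 0x1b24f625f (k4 c5439 c8483 c9007 c5654 (k1 c12299 k0)) (by decide +kernel)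
def c12338 : PP 9 3 T 0x40005000000000001000220080000000000000000040000000100001000000000000000000000000400001100000000001000000000000800000400000000 := rS 0x158 (k2 c5168 c12336 k0) (by decide +kernel)
def c12339 : PP 9 3 T 0x40001000000000001000220080000000000000000040000000100001000000000000000000000000400001100000000001000000000000800000400000010 := rS 0x88f490475a1c6b24b6f8fc83e2000a4069203824fa7f2bc44f69135a3ce6818984cde15 (k8 c11531 c5565 c5564 c5382 c5380 c5379 c5526 c5523 (k8 c5374 c5372 c5371 c5353 c5358 c5442 c5438 c1674 (k8 c12293 c261 c9694 c5642 c12338 c5462 c5576 c5580 (k8 c562 c11859 c11694 c3604 c2346 c9106 c1681 c3026 (k1 c3569 k0))))) (by decide +kernel)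
def c12340 : PP 9 3 T 0x1000000000024000020080000000000000000040000000100000000000081000000000100000000000000000000000010000000000405000000000010 := rS 0x2159ec534f7802d10c0d99a39639e4ee753da1d066d4caa7625f (k8 c5439 c8483 c5531 c5530 c5529 c5525 c5373 c5372 (k8 c5440 c5356 c5441 c5357 c397 c2071 c5654 c12337 (k8 c1481 c9699 c12332 c9744 c5451 c5453 c5871 c3607 k0))) (by decide +kernel)
def c12341 : PP 9 3 T 0x40005000000000001000020080000000000000000040000000100000400000000000000000000000000001000000100004001000000000200000000840002 := rS 0xe065120e247258f42225ac17cfa7f3183d220d4782d8e15 (k8 c11531 c5357 c2470 c5526 c5522 c5374 c5369 c5355 (k8 c5358 c5442 c5439 c5168 c5559 c5558 c5560 c5342 (k4 c5562 c667 c3574 c9210 (k2 c400 c1718 k0)))) (by decide +kernel)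
def c12342 : PP 9 3 T 0x40001000000000020000220080000000000000000040000000100000000000000000000000000000000000000000000000000000000000000000001000010 := rS 0x2b0102591c92266fa847ecbf1000c2030585870c707a441a8f10a06261337a4c76b34c9b62a9d11ec4be15 (k8 c11531 c5439 c8483 c5409 c5412 c5414 c5529 c5530 (k8 c5532 c12339 c9007 c5565 c5564 c5382 c5380 c5528 (k8 c5526 c5522 c5374 c5369 c5357 c12337 c5648 c2470 (k8 c1107 c1460 c5642 c12341 c5464 c5576 c5578 c5580 (k4 c11672 c399 c2476 c353 (k2 c3574 c5660 (k1 c5558 k0))))))) (by decide +kernel)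
def c12343 : PP 9 3 T 0x1000000000000040000021080000000000000000040008000100000000000000000000000000000000000000000000000000000000000000000000000000 := rS 0x33bbcd11b0e4145962b350a667e07cd21d4b80802187b8ed9265028cde25d7996c36317ab1cf2633b9d7660f43834d683f988d562154f87409d36acf625f8aa676911 (k8 c5371 c12273 c5530 c5414 c5439 c8483 c5532 c5529 (k8 c5412 c12324 c11748 c5531 c5528 c5413 c5409 c12239 (k8 c5525 c5523 c5522 c5373 c5369 c12185 c5440 c5356 (k8 c5355 c5441 c5357 c5477 c5476 c5475 c5474 c5325 (k8 c5321 c9695 c12333 c12335 c12328 c12308 c12339 c12340 (k8 c12342 c9699 c9701 c1227 c375 c9744 c1111 c3581 (k8 c5664 c5871 c2505 c734 c2003 c3571 c2470 c5654 (k4 c1481 c12332 c8127 c5453 k0)))))))) (by decide +kernel)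
def c12344 : PP 9 3 T 0x1001000000000005000020080000000000000000000008000200000000000000000000000000000000000000000000001000000000000000000000000020 := rS 0x6621074f72c82cbaf32dbd4bec73a83cf68706a0c6637 (k8 c5435 c5316 c5525 c5522 c5373 c5372 c5369 c5440 (k8 c5357 c5439 c5477 c5474 c5325 c5321 c717 c12275 (k4 c12278 c6200 c3571 c12289 (k1 c2502 k0)))) (by decide +kernel)
def c12345 : PP 9 3 T 0x1001000000000005000000000000000000000000000008000000000000000001000000005000000004000004000000100020400000000004000001400010 := rS 0x647783a954b8d43631 (k8 c5476 c5475 c5324 c1126 c1955 c1954 c12285 c3577 (k1 c5494 k0)) (by decide +kernel)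
def c12346 : PP 9 3 T 0x41005400000000045000020080000000000000000000000000000001400000000000000005100000400001100110100045000000000000000000000000000 := rS 0x2d4e2a04fb2d28d271b5d2fee681f4fe633b9d6229135a3d8a7b (k8 c5372 c10805 c5526 c5523 c5374 c5371 c5440 c5356 (k8 c5355 c5358 c5442 c5688 c5196 c1708 c9339 c1779 (k8 c5861 c5678 c1757 c2883 c2019 c6190 c1200 c3604 k0))) (by decide +kernel)
def c12347 : PP 9 3 T 0x45000000000000044000001000000000000000100000000000000001000000080000000140010000400000000110150504010020000000800000400040011 := rS 0x401acff45b8e06ac248a03827129980469 (k8 c9744 c5642 c5664 c1113 c267 c2003 c5651 c10038 (k8 c539 c2196 c1774 c2889 c2892 c3608 c5694 c2146 k0)) (by decide +kernel)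
def c12348 : PP 9 3 T 0x40000000000000040000220080000000000000000040000000200001000000000000000000000000400000004000000001000000004000000000000000002 := rS 0x444a485a1c6229135a3ce713099beb23d2b8240e7d3f8fc5215 (k8 c11531 c9693 c5318 c5358 c5442 c5432 c5438 c5353 (k8 c5436 c9764 c5565 c5564 c5382 c5379 c5526 c5523 (k8 c5374 c5371 c11694 c3604 c9106 c1095 c3026 c10214 k0))) (by decide +kernel)
def c12349 : PP 9 3 T 0x1004000000000040000021080000000000000000040008000000000000000080000000000000000000000004000000000000000000000800000000000000 := rS 0x285962770128c229007bda6d5ef324caf1319dcebf311aace68146c4c266f448642f591e95c127d3f8fc0bb3629619a3303ca19e35f0e813a6d59ec4bf154ced2227b (k8 c5372 c5371 c12273 c5530 c5414 c5439 c8483 c5532 (k8 c5529 c5412 c12324 c11748 c5324 c1646 c12343 c5432 (k8 c5316 c2071 c11909 c10805 c12185 c12344 c5318 c5358 (k8 c5442 c5438 c5353 c5436 c9764 c5433 c5315 c5567 (k8 c5565 c5564 c5382 c5381 c5380 c5379 c5413 c5409 (k8 c12239 c5440 c5356 c5355 c9695 c12345 c12308 c12346 (k8 c5454 c5496 c5725 c12347 c9693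 c661 c12348 c563 (k4 c3698 c1718 c3060 c11559 k0)))))))) (by decide +kernel)
def c12350 : PP 9 3 T 0x40000800000000044000220080000000000000100040000000000001000000080000000404010000500000000000000001000000000100000010400000002 := rS 0x4cae242b5687125a2a0311489ad1e73899bda7ef469fcead5 (k8 c5454 c5440 c5358 c5381 c5725 c5496 c5565 c5382 (k8 c5379 c5526 c5523 c5374 c5371 c11742 c5278 c565 (k4 c11694 c3604 c2888 c9106 (k2 c5683 c10038 (k1 c2986 k0))))) (by decide +kernel)
def c12351 : PP 9 3 T 0x40000000080000000000000100000000000000001000000000000000000000000000000801000100000000000002005000000400040040 := rS 0x196401337c22093e9fcae15 (k8 c11531 c5353 c5358 c5442 c5438 c3026 c2946 c10038 (k2 c3569 c1327 (k1 c350 k0))) (by decide +kernel)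
def c12352 : PP 9 3 T 0x1004000000000040000021080000000000000000040008000000000000000080000000000000000000000000000000000000000000000800000000000000 := rS 0x16a7125b8606496b77962c934268ca67000a406922286d8e79319dd220d35a3fe62339a051b13099bd13591e95c127d3f8fc0bb3629619a3303ca19e35f0e813a6d59ec4bf154ced2227b (k8 c5372 c5371 c12273 c5530 c5414 c5439 c8483 c5532 (k8 c5529 c5412 c12324 c11748 c5324 c1646 c12343 c5432 (k8 c5316 c2071 c11909 c10805 c12185 c12344 c5318 c5358 (k8 c5442 c5438 c5353 c5436 c9764 c5567 c5565 c5564 (k8 c5382 c5381 c5380 c5379 c5409 c12239 c5526 c5523 (k8 c5522 c5374 c5356 c5355 c5441 c5357 c5475 c5326 (k8 c12349 c261 c9694 c5642 c2004 c1056 c10253 c5664 (k8 c12308 c1332 c12346 c12350 c12351 c2196 c1721 c563 (k2 c11694 c9106 (k1 c3604 k0)))))))))) (by decide +kernel)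
def c12353 : PP 9 3 T 0x8000000000000000020080000000000000100040000000200000400000000000000000000000000000000000100000000000000000800000000040000 := rS 0x24b8096106fb8c82c73e9e4fe7b48a3c7a15 (k8 c11531 c5436 c5526 c5374 c5372 c5358 c5441 c5442 (k8 c5357 c5462 c5466 c5580 c10343 c562 c3610 c3026 (k1 c6188 k0))) (by decide +kernel)
def c12354 : PP 9 3 T 0x40005000000000045000021000000000000000000000000000000000400000000000000002040000000001000110000400004000000000000000000000000 := rS 0x322b1909e65b49c1007ffb90bdf43a45068f (k8 c5526 c5525 c5374 c5373 c5495 c2502 c5196 c5586 (k8 c8783 c2078 c2077 c1718 c9396 c2883 c2882 c12308 (k1 c1959 k0))) (by decide +kernel)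
def c12355 : PP 9 3 T 0x41000000000000044000001000000000000000100000000000000000000000040000000000000000401000000000000004010020000000000000000040011 := rS 0x3fe071c560a03827129980469 (k8 c9744 c5642 c5664 c1113 c267 c2003 c5651 c539 (k4 c538 c2034 c2892 c6335 k0)) (by decide +kernel)
def c12356 : PP 9 3 T 0x1000000000000040000021080000000000000000040008000000000000000000000000000000000000000004000000000000000000000800000000000000 := rS 0x50b2c4ee025184520032bc4eaab549ccde191985c0af72c337c7591e95c127d3f8fc268144c4d1bf3d99dcc6c703ca19e35f0e813a6d59ec4bf154ced2227b (k8 c5372 c5371 c12273 c5530 c5414 c5439 c8483 c5532 (k8 c5529 c5412 c12324 c11748 c5324 c1646 c12343 c5432 (k8 c5357 c5355 c5356 c12185 c12239 c5381 c5382 c5567 (k8 c5380 c5564 c5318 c5358 c5442 c5438 c5353 c5436 (k8 c9764 c12353 c12354 c11909 c12352 c12344 c5433 c5316 (k8 c5315 c5565 c5379 c5531 c5413 c5440 c9695 c12345 (k8 c12355 c9693 c661 c12348 c563 c3698 c1718 c3060 (k1 c11559 k0)))))))) (by decide +kernel)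
def c12357 : PP 9 3 T 0x40000000000000000000020000000000000000100040000000000001400000000000000000000000400000000000000045000000005000000010000000002 := rS 0xe2b588a44d68f (k4 c5526 c5523 c5374 c5371 (k2 c9106 c11694 (k1 c3604 k0))) (by decide +kernel)
def c12358 : PP 9 3 T 0x1000000000000040000021080000000000000000040008000000000000000000000000000000000000000000000000000000000000000800000000000000 := rS 0x28596277012892614d00052034931cf2633da441bf3119cd0313099beb23d2b8240e7d3f8fc0b28f0e813ab38aa6623b12f9b769b3 (k8 c12185 c12273 c5529 c5439 c8483 c5371 c5530 c5414 (k8 c5532 c5412 c12324 c11748 c12343 c12344 c5318 c5358 (k8 c5442 c5432 c5438 c5353 c5436 c9764 c5565 c5564 (k8 c5382 c5380 c5379 c5409 c12239 c5522 c5374 c5372 (k8 c5355 c5441 c5357 c12356 c261 c9694 c5642 c10253 (k8 c661 c12351 c12357 c563 c3698 c1718 c3060 c11559 k0)))))) (by decide +kernel)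
def c12359 : PP 9 3 T 0x40000000000000060000220080000000000000000040000000200000000000000000000000000000000000004000000000000000000000400000000000010 := rS 0x27fc6a16f32c50e35a89c4a1f23384044900a68f27b489ad1e238a9b567b12fa04266f0c8e42f591e95c12073e9fc7e4b050dc1f13 (k8 c5382 c5369 c5435 c6200 c2588 c5318 c5358 c5442 (k8 c5432 c5438 c5353 c5436 c9764 c5433 c5317 c5315 (k8 c5565 c5564 c5380 c5439 c8483 c5532 c5529 c5414 (k8 c5409 c5526 c5523 c5374 c5372 c5441 c12306 c12348 (k8 c12351 c5642 c6188 c5660 c1111 c1113 c267 c2345 (k8 c2347 c5651 c1326 c5846 c1195 c5580 c2884 c5680 k0)))))) (by decide +kernel)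
def c12360 : PP 9 3 T 0x1000000000000040000021080000000000000000040008000000000000000000000000000000000000000000000000000000000000000000000000000000 := rS 0x909a000a40692258287605ac8f46e071fca3c26f09c4d0273d06c5669936c553a23da17c12c73e9e4fe5731ecc1f113da441bf3 (k8 c12239 c5522 c5374 c5372 c5371 c5369 c12185 c5355 (k8 c5353 c5358 c5441 c5442 c5357 c5438 c5439 c12273 (k8 c5409 c5412 c5414 c5529 c5530 c5532 c8483 c12324 (k8 c5379 c5380 c5382 c5564 c5565 c11748 c12343 c5318 (k8 c5432 c5435 c5436 c9764 c12344 c12358 c6200 c2588 (k4 c12359 c261 c9694 c5642 (k2 c10253 c12357 (k1 c12351 k0)))))))) (by decide +kernel)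
def c12361 : PP 9 3 T 0x1000000000000054000101000000000000000000000008000000000000000000000000000000002000000000000000000400000000000000000000000020 := rS 0x64559beb08d58a2fdc03 (k8 c54 c5239 c5583 c5506 c5505 c5212 c1148 c1344 (k2 c12249 c8720 k0)) (by decide +kernel)
def c12362 : PP 9 3 T 0x1000000000000002000021080000000000000000000008000000000000001040000000002000000000000000000000000000000000000000000000000020 := rS 0x194b0ab42bccb6f563ecd0e0d41b276a5f (k8 c5439 c8483 c5396 c5525 c5522 c5373 c12185 c5357 (k8 c5477 c5474 c5325 c2502 c2075 c10861 c8720 c314 k0)) (by decide +kernel)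
def c12363 : PP 9 3 T 0x41001000000000002000021080000000000000000000008000100102000020040000400504000000040000000140000000000000000001000000000000020 := rS 0x68b4c39df32380b067f1a258a3366b7dfa712e8d4b631049f4fe573b9d7667b48a0d4203399a40e61 (k8 c5445 c713 c9743 c9718 c54 c5398 c5525 c5374 (k8 c5372 c12185 c5440 c5356 c5353 c5358 c5442 c5438 (k8 c5476 c5474 c5324 c5321 c3048 c1241 c2950 c12362 (k8 c12046 c10805 c8490 c12314 c5729 c10897 c5691 c5664 (k4 c9442 c313 c3063 c8163 (k1 c8522 k0)))))) (by decide +kernel)
def c12364 : PP 9 3 T 0x1001000000000042000121080000000000000000000008000000000000000000000000000000000000000000000000000000000000000000000000000020 := rS 0x271337aca2ab571b3c70733da44d68ff987e520b1b83c763d3ec76b08d6ba2d5ed58040fddb37b92c220d21915e6f52491e94614ced4be15 (k8 c11531 c5439 c8483 c5447 c5445 c12360 c5520 c5334 (k8 c5477 c5325 c5326 c5478 c5522 c9667 c8142 c5333 (k8 c12185 c5239 c5508 c5996 c5585 c5584 c5583 c5507 (k8 c5505 c5212 c5341 c5442 c8150 c5332 c5369 c5518 (k8 c5516 c6200 c5517 c12239 c5526 c5523 c5374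 c5372 (k8 c9718 c11968 c2558 c2617 c12361 c12363 c5685 c4836 (k2 c2457 c318 (k1 c3574 k0)))))))) (by decide +kernel)
def c12365 : PP 9 3 T 0x41000000000000054000000000000000000000000000008000000101000020040000000500000000500002400000000000000000001011000000000000000 := rS 0x34c66cd1fbf19ee055ad15243228d463e1 (k8 c5458 c5476 c5324 c5326 c5478 c2027 c5685 c1344 (k8 c1343 c1651 c5682 c3056 c2504 c12046 c3063 c3588 k0)) (by decide +kernel)
def c12366 : PP 9 3 T 0x41000000000000054000120000000000000000000000008000000000000020040000000500000000500016404000000000000400001411000000441000010 := rS 0x7e210bb8c04cb0089ce2735ac52229114894961106c76b015 (k8 c11531 c5212 c5341 c5522 c9667 c8142 c9666 c8199 (k8 c5374 c5371 c12365 c204 c1290 c3048 c3046 c11969 (k4 c8466 c5642 c1777 c1107 (k2 c265 c8152 (k1 c3579 k0))))) (by decide +kernel)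
def c12367 : PP 9 3 T 0x1000000000000042000121080000000000000000000008000000000000000000000000000000000000000000000000001000000000000000000000000000 := rS 0x497008759a64552c80be14e3c436c73c98e227b35fcc3e231e9f4820958b5dab0081fbb66f7258441a4322bcdea4923d29269f50865929b4aed4be15 (k8 c11531 c5439 c8483 c5446 c5397 c5396 c5393 c5398 (k8 c5448 c5444 c12360 c5520 c5334 c5477 c5325 c5326 (k8 c5478 c5522 c9667 c8142 c5333 c12185 c5239 c5508 (k8 c5996 c5585 c5507 c5506 c5438 c8151 c5442 c8150 (k8 c5331 c5517 c12239 c5523 c5372 c5371 c5355 c5441 (k8 c5357 c5475 c9695 c10556 c5458 c12364 c12366 c2901 (k4 c8138 c2075 c2121 c1056 (k2 c1126 c5642 (k1 c12090 k0))))))))) (by decide +kernel)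
def c12368 : PP 9 3 T 0x121080000000000000000000008000000000000020040000000000100000800004114000000040001000000000000000001400000 := rS 0x649768074c8de71b8554f11a86c625fd99ed228f (k8 c5526 c5374 c5372 c12185 c5439 c5476 c5475 c5324 (k8 c9695 c2901 c2898 c2458 c11946 c8138 c2121 c2953 (k2 c1126 c3577 (k1 c2129 k0)))) (by decide +kernel)
def c12369 : PP 9 3 T 0x49001000000000054000001000000000000000000000000000000001000020000000000004000000400000400000050502101000000000000000000000000 := rS 0x1a4d062f7d9a6640a25f8653837d56b454a3562d7 (k8 c5507 c5506 c5505 c2027 c5685 c1344 c2514 c2611 (k8 c8720 c5682 c2873 c751 c5664 c2504 c8993 c733 (k2 c5688 c5861 (k1 c2136 k0)))) (by decide +kernel)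
def c12370 : PP 9 3 T 0x1001000000000042000121080000000000000000000008000000000000000000000000000000000000000000000000000000000000000000000000000000 := rS 0x3807de313b2dbf1471b3c709d598842e02029fcee75f987c47291b83c7629128f4fa4104ac5aed58040fddb37b92c220d21915e6f52491d269f50865929b30a5533b52f9ccd2013602e9415 (k8 c11531 c12360 c5516 c12367 c665 c9744 c9719 c5439 (k8 c8483 c5447 c5446 c5445 c5397 c5396 c5393 c5398 (k8 c5448 c5444 c5520 c5334 c5477 c5325 c5326 c5478 (k8 c5522 c9667 c8142 c5333 c12185 c5239 c5508 c5996 (k8 c5585 c5507 c5506 c5438 c8151 c5442 c8150 c9666 (k8 c8199 c5332 c5369 c5518 c6200 c5331 c5517 c12239 (k8 c5440 c5356 c5358 c12364 c5642 c1107 c265 c12368 (k8 c12366 c3578 c2558 c2617 c12369 c2950 c1292 c3046 (k4 c10342 c3579 c5691 c3056 k0))))))))) (by decide +kernel)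
def c12371 : PP 9 3 T 0x1000000000000042000121080000000000000000000008000000000000000000000000000000000000000000000000000000000000000000000000000000 := rS 0x1085c04051ca77c001366d532614d865265f3d834761f1182c6f4a (k8 c12360 c5518 c5516 c5331 c5517 c5332 c5522 c5372 (k8 c5439 c5444 c5393 c5397 c5445 c5447 c8483 c12367 (k8 c665 c12370 c5458 c5534 c11968 c5642 c1107 c265 (k1 c3578 k0)))) (by decide +kernel)
def c12372 : PP 9 3 T 0x25000000000000000000000000080008000000000000000001000000000100000000000000000000100420400000000000000000000000 := rS 0x39de7ebcc36f50f88deea9 (k8 c5531 c5333 c5331 c5517 c5477 c5475 c5325 c1128 (k2 c10944 c5816 (k1 c9172 k0))) (by decide +kernel)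
def c12373 : PP 9 3 T 0x40000000000000064000120000000000000000000000008000000000000000040000000000000000000000000140000000010000000000000000000000420 := rS 0x429b8b25d7996dea0f4383507588aacc0669 (k8 c9743 c54 c5532 c5414 c5212 c5525 c5522 c5373 (k8 c5369 c5477 c5474 c5325 c5321 c314 c12249 c8434 (k1 c3571 k0))) (by decide +kernel)
def c12374 : PP 9 3 T 0x41001000000000045000120080000000000000000080008000000000000020001000000500000000100000000140000000000000000000000000000000020 := rS 0x6632fbe1c642552efd323cc36f52f8258e792b9d4d6830f88def29058dc1e3b1e844fb1d54ed2b015 (k8 c11531 c5212 c12260 c5531 c5341 c5442 c9667 c8150 (k8 c5332 c5369 c5518 c5516 c6200 c5333 c5331 c5517 (k8 c5525 c5523 c5440 c5353 c5441 c5357 c5438 c5439 (k8 c5477 c5475 c5325 c12373 c1128 c1126 c1955 c12372 (k4 c5816 c5494 c1324 c8959 (k1 c12277 k0)))))) (by decide +kernel)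
def c12375 : PP 9 3 T 0x20000000000000000000000000080008000000000000000001000000000000000000000000000000000420000000000000000000000010 := rS 0x1d7ebcc36f50f88deea9 (k8 c5531 c5333 c5331 c5517 c5477 c5475 c5325 c1128 (k2 c1954 c5816 k0)) (by decide +kernel)
def c12376 : PP 9 3 T 0x1000020080000000000000000080000000000000000000000000000000000000000001104000000001000000000000000000001000010 := rS 0xc29b0b1ac3f29058dc1e3b (k8 c5332 c5369 c5518 c5516 c6200 c5517 c5523 c5648 (k2 c6036 c1460 (k1 c10443 k0))) (by decide +kernel)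
def c12377 : PP 9 3 T 0x1001000000000004000021000000000000000000000008000000000000000040000000000000000001000100000000001010000000000000000002000400 := rS 0x66b3da3df4a0c8385842998d2012ebccb6f507a1c1a83 (k8 c5525 c5522 c5373 c5369 c5477 c5474 c5325 c5321 (k8 c9699 c9744 c5664 c5871 c3571 c2003 c375 c376 (k4 c5492 c2129 c1587 c2016 (k1 c5688 k0)))) (by decide +kernel)
def c12378 : PP 9 3 T 0x1001000000000040000121080000000000000000000008000000000000000000000000000000000000000000000000000000000000000000000000000000 := rS 0xf10cd2419649940aa94c9b53bb47898cee6bf982c7a7d8ed611ab16ba2dab0081fbb66f7258441a4322bcdea4923d2b6215 (k8 c11531 c12371 c12360 c5520 c5334 c5477 c5325 c5326 (k8 c5478 c5522 c9667 c8142 c5333 c12185 c5239 c5508 (k8 c5996 c5585 c5583 c5507 c5506 c5505 c5212 c5341 (k8 c5442 c8150 c5516 c12239 c5523 c5356 c5355 c9695 (k8 c12260 c5412 c5529 c5530 c5531 c12374 c12375 c12308 (k4 c12377 c12376 c323 c12322 (k1 c12314 k0))))))) (by decide +kernel)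
def c12379 : PP 9 3 T 0x1000000000000050000121080000000000000000000008000000000000000000000000000000000000000000000000000000000000000000000000000020 := rS 0x3799594a164a7c2cb53980c365f3a9ac4a8d45fbb67b1eff8dc249208448f586f81873e0639e416371dd281e0d3d95c1215 (k8 c11531 c5438 c5353 c5372 c5522 c5369 c12360 c5332 (k8 c5518 c5516 c5441 c5357 c12378 c5534 c3568 c5538 (k8 c5212 c5520 c9667 c8151 c5334 c5460 c11685 c6344 (k8 c12371 c12185 c5239 c5583 c5505 c9666 c5523 c5440 (k8 c5439 c5475 c54 c9718 c12361 c714 c11608 c1064 (k4 c1068 c5680 c10944 c1144 (k1 c12249 k0))))))) (by decide +kernel)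
def c12380 : PP 9 3 T 0x1000000000000050000121080000000000000000000008000000000000000000000000000000000000000000000000000020000000000000000000000000 := rS 0xa14fb2ce0b5013203a73550048a1b2f9fcea2912c7562aff76cf63dff1b849241088248f581cb7fc03b1bd280a15 (k8 c11531 c12379 c12360 c5518 c5332 c12378 c5538 c5534 (k8 c5212 c5520 c5438 c9667 c8151 c5334 c5460 c11685 (k8 c6344 c12371 c12185 c5239 c5584 c5506 c5341 c9666 (k8 c8199 c5440 c5358 c5439 c5475 c5326 c1056 c8720 (k8 c1316 c1954 c10944 c5642 c1344 c8310 c1324 c11608 (k2 c2929 c5680 k0)))))) (by decide +kernel)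
def c12381 : PP 9 3 T 0x2400000000005000020080000000000000000080000000000000000000001000000000100000000000104000000001010000000000000000000000010 := rS 0xc442a519e695425c02183031cf2773a9ecd6834eb4536cd (k8 c5537 c5536 c5459 c5458 c5525 c5523 c5372 c5440 (k8 c5356 c5441 c5357 c10443 c12376 c662 c1227 c12332 (k4 c9744 c2451 c5678 c2448 (k2 c8115 c1586 k0)))) (by decide +kernel)
def c12382 : PP 9 3 T 0x49002400000000055000021080000000000000000080000000000000000000000000000000000000400000004000000001010000000000000000000000010 := rS 0x1a69e50ad22afc54b150a664a1a4e697008602e9878ca41637078ed5e9b55b24ee63 (k8 c5355 c5356 c12308 c8138 c5536 c5584 c5332 c5369 (k8 c5518 c5516 c6200 c9695 c12381 c1463 c5648 c9699 (k8 c1227 c9719 c9744 c5678 c5664 c5871 c1586 c12263 (k4 c5682 c1241 c5685 c1199 (k2 c2613 c2019 (k1 c12295 k0)))))) (by decide +kernel)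
def c12383 : PP 9 3 T 0x40000000000000054000000000000000000000000000000000000000000000000000000500410000440000420142050502190000000000000000000000000 := rS 0x8169a24e0a137ad22afc (k8 c736 c1241 c5685 c8434 c1199 c2611 c2010 c2019 (k2 c752 c3608 k0)) (by decide +kernel)
def c12384 : PP 9 3 T 0x1000000000000050000121080000000000000000000008000000000000000000000000000000000000000000000000000000000000000000000000000000 := rS 0xce7ea158a9465a5c301733008d2013624d66c9559940af12f9f4fe633b9d4f683f9ca4160f14a35ae8b57b560103f76cdee4b0690c8af37aec536cdeff8dc249208441247ac0e5bfe01d8de9415 (k8 c11531 c12360 c5518 c5332 c12378 c5538 c5534 c5212 (k8 c5520 c5438 c9667 c8151 c5334 c5460 c11685 c6344 (k8 c5537 c5536 c12371 c5477 c5325 c5326 c5478 c5522 (k8 c8142 c5333 c12185 c5239 c5508 c5996 c5585 c5584 (k8 c5583 c5507 c5505 c8199 c5369 c5516 c6200 c12239 (k8 c5525 c5372 c5440 c5356 c5355 c5358 c5442 c5439 (k8 c9695 c12379 c12380 c8138 c12308 c2901 c12322 c12382 (k8 c665 c9744 c5642 c5664 c1107 c5648 c1227 c1320 (k4 c5678 c734 c12383 c2552 (k2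 c8115 c1588 k0)))))))))) (by decide +kernel)
def c12385 : PP 9 3 T 0x1000000000000040000121080000000000000000000008000000000000000000000000000000000000000000000000000000000000000000000000000000 := rS 0xea552efd322a769df66f8362f17986dea5f04b1cf2573a9ad061f11bde520b1b83c774a (k8 c12360 c5332 c5369 c5518 c5516 c6200 c5333 c5331 (k8 c5517 c5525 c5523 c5440 c5353 c5441 c5357 c5438 (k8 c5439 c5477 c5475 c5325 c9695 c12371 c12378 c5537 (k8 c6344 c12384 c5531 c12323 c1128 c1126 c1955 c8959 (k1 c5816 k0))))) (by decide +kernel)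
def c12386 : PP 9 3 T 0x1001000000000002000021080000000000000000000008000000000000000040000000004000000000000000000000000020000000000000000000000020 := rS 0x2cb14661d66aa9fa5d1a96c62573aeccf66bda97c0e61 (k8 c5445 c713 c5439 c8483 c5523 c5372 c12185 c5440 (k8 c5353 c5476 c5474 c5324 c5321 c1128 c8720 c12362 (k4 c2121 c12046 c10805 c313 (k1 c10897 k0)))) (by decide +kernel)
def c12387 : PP 9 3 T 0x1001000000000002000021080000000000000000000008000000000000000040000000000000000000000000000000000000000000000400000040000420 := rS 0x668c908662c9959e38039a4065d1abccb6317a8258e573b9d7660f3da1c1a8330a676a5f (k8 c5439 c8483 c5447 c5445 c5525 c5522 c5373 c5372 (k8 c5369 c12185 c5440 c5356 c5353 c5357 c5438 c5477 (k8 c5476 c5474 c5325 c5324 c5321 c54 c9743 c713 (k8 c11968 c2558 c12386 c314 c5664 c3571 c5729 c2502 (k1 c12046 k0))))) (by decide +kernel)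
def c12388 : PP 9 3 T 0x1001000000000012000001080000000000000000000008000000000000000040000000000000000000000000000000000020000000000440000440001010 := rS 0x19c9c190842ecd010752eaa00bc46a1b1897f66930cb252a99 (k8 c5447 c5446 c5396 c5393 c5444 c12185 c5439 c5476 (k8 c5475 c5324 c9695 c1056 c8720 c1126 c1954 c5642 (k4 c2075 c1107 c265 c3577 (k2 c12148 c12046 (k1 c1650 k0))))) (by decide +kernel)
def c12389 : PP 9 3 T 0x9000000000000014000020000000000000000000000000000000000400000000000000002040000004014400110150044015400000000000000000000000 := rS 0x196715ab8151007ea150e9141a3e06ff (k8 c5586 c5508 c5526 c5525 c5374 c5373 c2502 c2504 (k4 c8783 c5682 c2078 c2614 (k2 c12252 c1719 (k1 c3599 k0)))) (by decide +kernel)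
def c12390 : PP 9 3 T 0x49001400000000050000000080000000000000000000000000000000000000000000000001000000004012000110104000000000000000000000000000000 := rS 0x2ce2ab580379c2d2683159e7d3f9dcead7 (k8 c5507 c5440 c5356 c5358 c5442 c1651 c10805 c5688 (k8 c5861 c3063 c2136 c2135 c1343 c2950 c2901 c5685 k0)) (by decide +kernel)
def c12391 : PP 9 3 T 0x1000000000000042000021080000000000000000000008000000000000000000000000000000000000000000000000000000000000000000000000000000 := rS 0x401e92c7fe3690a070c513894421733008d2b5009b13acd559940bdf6aa2dafeef0ed532614d865429f4990cbec73e9e4fe633b9d767113da441a6b47fcc3e237bca41637078ece68146c4c266f44d67414a (k8 c12360 c12385 c12110 c5567 c5565 c5564 c5382 c5381 (k8 c5380 c5379 c5332 c5369 c5518 c5516 c6200 c5333 (k8 c5331 c5517 c12239 c5526 c5523 c5522 c5374 c5372 (k8 c5371 c12185 c5440 c5356 c5355 c5358 c5441 c5442 (k8 c5357 c5439 c5478 c5444 c5448 c5398 c5393 c5397 (k8 c5445 c5447 c8483 c11870 c5201 c5507 c5583 c5585 (k8 c5725 c12387 c12388 c8138 c12389 c12390 c10556 c665 (k8 c2610 c9744 c5642 c5664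 c1107 c265 c1113 c267 (k8 c733 c3578 c5651 c5861 c5287 c404 c12113 c2768 (k2 c5655 c546 k0)))))))))) (by decide +kernel)
def c12392 : PP 9 3 T 0x41001000000000055000200000000000000000000000000000000000000000000000000000000000000000000000040100000000000000000000000000000 := rS 0x6af7bdc8d (k4 c5381 c5201 c5195 c5585 (k1 c5725 k0)) (by decide +kernel)
def c12393 : PP 9 3 T 0x25000020080000000000000000080008000000000000000001000000000000000000000000000000000020000000000000000000000020 := rS 0x384905c38c87ebcc36f52f9d4f60d3587c46f79482c6e0f1d88532a9 (k8 c5531 c5530 c5528 c5332 c5369 c5518 c5516 c6200 (k8 c5333 c5331 c5517 c5523 c5522 c5372 c5440 c5439 (k8 c5477 c5475 c5325 c1128 c12372 c5816 c1064 c2062 (k2 c11799 c324 k0)))) (by decide +kernel)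
def c12394 : PP 9 3 T 0x25000020080000000000000000080008000000000000000001000000000000000000000000000000000000000000000000000000000020 := rS 0x214b26534975e65b7a83d0e0d41bdc166d (k8 c5529 c5516 c5333 c5525 c5522 c5373 c5369 c5477 (k8 c5474 c5325 c5321 c9743 c12393 c314 c5871 c3571 k0)) (by decide +kernel)
def c12395 : PP 9 3 T 0x1000000000000040000021080000000000000000000008000000000000000000000000000000000000000000000000000000000000000000000000000000 := rS 0x67b358894301a00c001c80d2419328155299368853bb470785bee3f16c6b31340e82523705bdc774af9bc412c73e9e4fe573aecc1e7b48834d68f (k8 c5526 c5523 c5522 c5374 c5372 c5369 c12185 c5440 (k8 c5353 c5358 c5441 c5442 c5357 c5438 c9695 c12239 (k8 c12360 c5332 c5333 c5516 c5518 c6200 c12385 c5380 (k8 c5382 c12110 c12391 c5226 c5466 c5580 c10517 c5846 (k8 c12392 c5412 c5528 c5529 c5530 c5531 c12394 c12375 (k8 c12377 c12376 c261 c324 c5642 c3568 c8135 c1563 (k4 c831 c830 c2016 c4195 (k1 c10805 k0)))))))) (by decide +kernel)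
def c12396 : PP 9 3 T 0x42000000000000050000100080000000000000000040008000000000000040000000000500100000001000554000000000000000000000800000000000060 := rS 0xcb4eb7d681e1988486451a8c5eeab808947a7d208248e118ed604615 (k8 c11531 c9734 c5212 c5341 c9667 c10411 c5438 c8151 (k8 c5442 c8150 c9666 c5502 c5500 c5498 c5476 c5324 (k8 c5326 c5478 c340 c492 c5650 c11939 c2514 c8629 (k2 c8890 c11920 k0)))) (by decide +kernel)
def c12397 : PP 9 3 T 0x2000020080000000000000000000008000000100000055040000000002000000005000000001000000020000004400400000040000020 := rS 0xd2704a438380583cf60d30a676a5f019a46ef5 (k8 c5477 c2329 c9743 c54 c5439 c8483 c5447 c5445 (k8 c5522 c5372 c5369 c718 c11968 c12065 c6200 c12311 (k2 c8886 c3062 k0))) (by decide +kernel)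
def c12398 : PP 9 3 T 0x4a000000000000002000020080000000000000000000008000000100000000000000000002000000000000000000000000020000004411400000000000020 := rS 0x387c6d219ca03cab42bf5fed781b552aa97bed697014b97dbe4821bd5e645 (k8 c5326 c5325 c5477 c5478 c8823 c2947 c5439 c1126 (k8 c5502 c9072 c8483 c5498 c12228 c5446 c5585 c5508 (k8 c5507 c5544 c5542 c5541 c5500 c12397 c8815 c5316 (k4 c6923 c12314 c3062 c8709 k0)))) (by decide +kernel)
def c12399 : PP 9 3 T 0x4a000000000000042000120080000000000000000000008000000000000000000000000000000000000000000000000000020000000000000000000000020 := rS 0x1a4e094870700b0f8dd38cd1da5c1e7b55b450afd678f4fa4104c76b0d781b54909364a6d2a990188cd2a97bed4bf4b25835ea4708c05e6432281cc215 (k8 c11531 c5445 c713 c5326 c5478 c5325 c5502 c9667 (k8 c10411 c5477 c5522 c8142 c9072 c5439 c8483 c5498 (k8 c12228 c9743 c9734 c54 c5447 c5446 c5397 c5396 (k8 c5444 c8823 c5585 c5508 c5507 c5212 c5341 c5438 (k8 c8151 c5442 c8150 c5543 c5542 c5541 c5501 c5500 (k8 c5372 c5369 c1126 c12396 c12398 c3617 c1480 c1083 (k4 c718 c11968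 c12065 c6200 (k2 c400 c8886 (k1 c3062 k0))))))))) (by decide +kernel)
def c12400 : PP 9 3 T 0x4a000000000000042000120080000000000000000000008000000000000000000000000000000000000000000000000000000000000000000000000000020 := rS 0x16a1e37164ca032e96c368735bdd0a25ac235174b25835ea4708c05e64322ed4be15 (k8 c11531 c5439 c8483 c5326 c5478 c5325 c5502 c9667 (k8 c10411 c5477 c5522 c8142 c9072 c5583 c5505 c5212 (k8 c9666 c5541 c5498 c5523 c5373 c5475 c5474 c5321 (k4 c54 c12399 c314 c12249 (k2 c10900 c1148 (k1 c11939 k0)))))) (by decide +kernel)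
def c12401 : PP 9 3 T 0x40000000000000050000100080000000000000000040008000000000000000041000000000100000140004115400004000421000006000000000001000010 := rS 0xe370b7d643b5a8ca2a1f0b9c0041d39a5c02451a86c625f148963b58 (k8 c5212 c5341 c9666 c8199 c5439 c5476 c5475 c5324 (k8 c5326 c1056 c1126 c1316 c1954 c5642 c8310 c1107 (k8 c1111 c3048 c3577 c11945 c492 c5685 c2947 c2898 (k2 c2458 c11946 k0)))) (by decide +kernel)
def c12402 : PP 9 3 T 0x40000000000000052000000080000000000000000000008000000100100010000000000500000000000000000000004000400000000411804001080000010 := rS 0x4e9b56843228d4625f639e4c69b (k8 c5397 c5355 c5441 c5357 c5439 c5476 c5324 c5326 (k4 c5478 c11939 c2316 c8629 (k1 c10556 k0))) (by decide +kernel)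
def c12403 : PP 9 3 T 0x42000121080000000000000000000008000000000000000000000000000000000000000000000000000000000000000800000000000000 := rS 0x3358a6634804441f1981c427788b450acf128f4fa4104c76b0d76a9940bb52fa652a61648653e93a5c04904323bd5e64557ac7dc4b08837e7b37bfb11e6b489ede215 (k8 c11531 c9695 c5372 c5374 c5523 c5526 c12395 c5498 (k8 c12185 c12194 c5522 c9667 c8142 c5239 c5506 c5584 (k8 c5326 c5325 c5477 c10411 c5478 c8823 c5502 c9072 (k8 c5444 c5448 c5393 c5396 c5445 c5446 c5447 c5439 (k8 c8483 c12400 c12401 c5585 c5507 c5212 c5341 c5438 (k8 c8151 c5442 c8150 c9666 c5543 c5541 c5501 c5371 (k8 c5356 c340 c1674 c492 c12402 c5650 c9731 c9744 (k4 c5664 c733 c8153 c8127 k0)))))))) (by decide +kernel)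
def c12404 : PP 9 3 T 0x2000020080000000000000000000000000000000000000000000000000000000000000000000000000000000000000400000080000010 := rS 0x13a6d2fb1cf263889ecd69b (k8 c5397 c5523 c5372 c5371 c5355 c5441 c5357 c5439 (k2 c2316 c1083 (k1 c10556 k0))) (by decide +kernel)
def c12405 : PP 9 3 T 0x40000000000000050000100000000000000000000040000000000000100000000000000000000001000000000000000000000000002000000000440000010 := rS 0x1cc011401acc2225 (k8 c9666 c9667 c2895 c6197 c5685 c5642 c1290 c11969 k0) (by decide +kernel)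
def c12406 : PP 9 3 T 0x80000000000000000000008000200000000000000000000002010000000000000000000000080000000000000000800000000 := rS 0xe33 (k2 c5316 c5432 (k1 c8153 k0)) (by decide +kernel)
def c12407 : PP 9 3 T 0x42000121080000000000000000000008000000000000000000000000000000000000000000000000000000000000000000000000000000 := rS 0x3c3291bb318a66348e402225a87c766502ed5329530b24329f49bc4be77889ed226b47b450acf14ac55e48a592c1af523847e6f780fb3ddb37990c8a15 (k8 c11531 c5326 c5478 c5325 c12185 c5239 c12395 c5502 (k8 c5498 c12194 c9667 c10411 c5477 c5522 c8142 c9072 (k8 c8823 c5584 c5506 c8199 c5543 c5541 c5501 c5526 (k8 c5523 c5374 c5372 c5371 c5356 c5439 c9695 c5444 (k8 c5448 c5393 c5396 c5445 c5446 c5447 c8483 c12400 (k8 c12401 c12403 c12404 c11945 c12405 c9731 c395 c9744 (k4 c5664 c733 c8127 c2329 (k2 c12406 c5537 (k1 c5654 k0))))))))) (by decide +kernel)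
def c12408 : PP 9 3 T 0x40000000000000051000000000000000000000000000008000000100000000040000000500000000000000000000000000000000000001800000000000000 := rS 0x78867e1 (k4 c5456 c492 c5198 c12314 k0) (by decide +kernel)
def c12409 : PP 9 3 T 0x41000100080000000000000000000000000000000000000000000000000400000000000000000000004000000000000000000000000060 := rS 0x3ef1205429f3804cfe571e9f4821104864e615 (k8 c11531 c9718 c9698 c5438 c9667 c8151 c5442 c8150 (k8 c5353 c5358 c318 c5666 c10691 c2929 c752 c5680 (k2 c3569 c5576 k0))) (by decide +kernel)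
def c12410 : PP 9 3 T 0x40000000000000051000120080000000000000000040008000000000000001040000000000200000104000000001000000000000002000400000000000020 := rS 0x38490dc38200587d6a6e03b2c2e1b04b1cf257079ec1a6b1291c2203119a55215 (k8 c11531 c12228 c9743 c9734 c54 c9667 c10411 c9666 (k8 c5523 c5522 c5372 c5369 c5353 c5441 c5357 c5438 (k8 c5475 c1064 c1324 c714 c12409 c1148 c11939 c718 (k4 c5650 c12065 c2419 c2062 (k2 c3568 c3678 k0))))) (by decide +kernel)
def c12411 : PP 9 3 T 0x40000000000000055000120080000000000000000040008000000000000001040000000014000000104000000141000000000000002000400000000000020 := rS 0x2d43c6e2c99593df5480cbaf32d86cbe793b9d6227b43834d625ac11c2215 (k8 c11531 c9667 c10411 c5212 c9666 c5523 c5522 c5373 (k8 c5372 c5371 c5440 c5356 c5441 c5439 c5475 c5474 (k8 c5325 c5321 c54 c12228 c8645 c12410 c10944 c314 (k4 c12249 c10900 c1148 c11939 k0)))) (by decide +kernel)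
def c12412 : PP 9 3 T 0x40000000000000055000120080000000000000000040008000000000000000000000040014000000144000000001000000020000000000000000000000010 := rS 0xe071ac96b1565a743e706477c041d39a552ea900914365f3c9dceb113da1d226b14894961106c76b015 (k8 c11531 c5212 c5341 c5522 c9667 c8142 c9666 c8199 (k8 c5523 c5374 c5373 c5372 c5371 c5440 c5356 c5441 (k8 c5439 c5475 c5326 c1056 c9109 c1126 c1955 c1316 (k8 c1954 c5642 c8645 c5678 c8310 c1111 c1275 c1324 (k4 c3048 c11945 c5685 c2459 (k2 c11943 c2899 k0)))))) (by decide +kernel)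
def c12413 : PP 9 3 T 0x48001000000000051000000000000000000000000040008000000000000000000000000000000000000000000000000000000000000010000000000000000 := rS 0x34bc528 (k4 c5225 c5198 c6923 c5579 k0) (by decide +kernel)
def c12414 : PP 9 3 T 0x41000100080000000000000000000008000000000000000000000000500100000000000008000000000000000000000000000000000010 := rS 0xf10cc7a113ec76b015 (k8 c11531 c5212 c5341 c5442 c9667 c8150 c323 c12322 (k1 c12314 k0)) (by decide +kernel)
def c12415 : PP 9 3 T 0x11000020080000000000000000040000000100000000000000000000000000000000000404000000000000000000000000000080000010 := rS 0x64da21 (k4 c58 c2316 c1164 c12220 k0) (by decide +kernel)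
def c12416 : PP 9 3 T 0x50000121080000000000000000000008000000000000000000000000000000000000000000000000000000000000000000000000000000 := rS 0x25ccc183485c02225a87d3a93624a59a9bf0324ca056f8ede2c73c98cee75889ed0e8355b450afd678a47a7d208263b5846ac5ae8b57b54914b25835ea4708fcdef01f67bb66f3219176215 (k8 c11531 c12407 c5326 c5478 c5325 c12185 c5239 c12395 (k8 c5502 c5498 c12194 c9667 c10411 c5477 c5522 c8142 (k8 c9072 c8823 c5585 c5584 c5583 c5507 c5506 c5505 (k8 c5212 c5341 c5438 c8151 c5442 c8150 c8199 c5543 (k8 c5542 c5541 c5501 c5500 c5525 c5373 c5372 c5371 (k8 c5440 c5356 c5355 c5441 c5357 c9695 c12408 c2947 (k8 c12411 c12412 c12308 c12413 c5536 c5537 c10922 c3607 (k8 c12414 c5458 c12415 c11945 c12405 c9731 c1258 c9744 (k4 c5648 c5664 c1227 c734 k0))))))))) (by decide +kernel)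
def c12417 : PP 9 3 T 0x40000000000000065000120080000000000000000000008000000000000000040000000000000000000000000141000000000000000000000000000000020 := rS 0xe42e3b94a4990320e77cc85805975e65b0dbd4be75079ed0e0d41884da99 (k8 c5530 c5529 c5528 c5525 c5522 c5373 c5372 c5369 (k8 c5440 c5439 c5477 c5475 c5474 c5325 c5321 c717 (k8 c3571 c12373 c9442 c313 c12275 c10944 c2062 c5316 (k4 c492 c1064 c324 c11799 k0)))) (by decide +kernel)
def c12418 : PP 9 3 T 0x20000000000000000000000000000008000000000000001041000000000000000000000000000000000420000000000000000000000010 := rS 0x1e0107402f30dbd446a9 (k8 c5531 c5409 c5477 c5475 c5325 c1056 c1954 c5642 (k2 c5816 c1111 k0)) (by decide +kernel)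
def c12419 : PP 9 3 T 0x4a000000000000001000000000000000000000000000008000000100000000000000000000000000000001004000000000000000002011800000400000000 := rS 0xe16fb487fe39438c67e17bc05aed5 (k8 c5585 c5507 c5502 c5498 c5456 c492 c1773 c12293 (k4 c12314 c5318 c6923 c2946 (k2 c3062 c5691 k0))) (by decide +kernel)
def c12420 : PP 9 3 T 0x8000000000000065000020080000000000000000040008000100100000005040000000000100000000000004000000000000000004401400001000000014 := rS 0x19be31986daf0357b5446a90cf8534004ca74d621 (k8 c5528 c5523 c5412 c5530 c5642 c10507 c5536 c9701 (k8 c5531 c5409 c5585 c5584 c5508 c5507 c5475 c12294 (k2 c12314 c12315 (k1 c12316 k0)))) (by decide +kernel)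
def c12421 : PP 9 3 T 0x8000000000000065000120080000000000000000040008000000000000005040000000010100000000000000000000000000000000400400000000000014 := rS 0x4a34bbf284b8dd429a3900032f37a98cd625258347a7d20844131dac274429949b55ae15 (k8 c11531 c5507 c5585 c12414 c5530 c5528 c5412 c5212 (k8 c5341 c5438 c9667 c8151 c5442 c8150 c5522 c8142 (k8 c9666 c5523 c5355 c5477 c5325 c9701 c5642 c11969 (k8 c10507 c1196 c2328 c1231 c12420 c9979 c6923 c5678 (k1 c2019 k0))))) (by decide +kernel)
def c12422 : PP 9 3 T 0x5000020000000000000000000000000000000000000000001000000010140000001000100000001501010000000000000000022000000 := rS 0x65de (k2 c12332 c375 (k1 c5492 k0)) (by decide +kernel)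
def c12423 : PP 9 3 T 0x40000121080000000000000000000008000000000000000000000000000000000000000000000000000000000000000000000000000000 := rS 0x4ff8d98d2ef8dc7e3919ca0321c0f85c043b49b24ca0554a64da9d11ed3634b243555e8b81b5d1b1d239047a4bf9fbab0117890c8a357986c62f52f8258e7d3c98cee75d9834d6f768c050afd67bffd815 (k8 c11531 c12395 c5544 c5543 c5542 c5541 c5502 c5501 (k8 c5498 c5523 c5522 c12185 c5440 c5356 c5355 c5441 (k8 c5442 c5357 c5438 c5439 c5477 c5476 c5475 c5325 (k8 c5324 c5326 c5478 c9695 c9667 c5212 c5239 c12194 (k8 c8142 c8150 c8151 c10411 c5341 c5505 c5507 c5508 (k8 c5583 c5584 c5585 c8823 c9072 c12407 c12416 c5409 (k8 c5412 c5529 c5530 c5531 c12417 c12418 c12308 c12414 (k8 c12419 c12421 c1107 c1111 c5816 c12422 c5648 c5316 (k8 c5317 c5318 c5435 c9979 c6923 c3587 c12314 c2883 (k1 c12318 k0)))))))))) (by decide +kernel)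
def c12424 : PP 9 3 T 0x80000000000000000000000000000000000040000000000814000000000000000005504000000000000000000000000000000 := rS 0x18acd639e4ee75 (k4 c5440 c5356 c5441 c5357 (k2 c2191 c1765 (k1 c3607 k0))) (by decide +kernel)
def c12425 : PP 9 3 T 0x800000000000000020080000000000000000000000000000000000000000000000014000000000000000001000000000000000000000000000000000 := rS 0x3358a77 (k4 c5356 c5451 c5495 c8127 k0) (by decide +kernel)
def c12426 : PP 9 3 T 0x80000000000000000000020080000000000000000000000000000000400014000000000014000000000000000111100000000000000000000000000000000 := rS 0x6ab4dbcd74578dc30371b1cfa793f9efde8347a1d23df (k8 c12425 c5374 c5373 c5526 c5525 c8783 c5372 c5358 (k8 c5441 c5442 c5357 c5549 c5550 c5591 c8118 c3613 (k4 c12424 c3610 c2938 c3002 (k1 c5689 k0)))) (by decide +kernel)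
def c12427 : PP 9 3 T 0x40000000000000000000000000000000000000000000000000000000000000000000004000000000000000000000002000011000000000 := rS 0x4f59 (k2 c5560 c2860 (k1 c5651 k0)) (by decide +kernel)
def c12428 : PP 9 3 T 0x40000000000000042000220080000000000000000000000000000000000000000000000000000000000000000000000000000000000000000000000000820 := rS 0x1580f52f6a5f (k4 c5439 c8483 c5516 c718 (k2 c5231 c12267 k0)) (by decide +kernel)
def c12429 : PP 9 3 T 0x44000000000000046000220080000000000000000000008000000000000000040000000000000000000000000001000000000000000000000000000000020 := rS 0x1281eb4c4a11132c15aaf339903858058a406012ebccb61b7a824fa7f2b83d0e0d4184cde8949a7d9215 (k8 c11531 c5396 c5448 c5444 c5567 c5565 c5564 c5525 (k8 c5522 c5373 c5369 c5353 c5358 c5442 c5438 c5477 (k8 c5475 c5474 c5325 c5321 c53 c54 c9692 c12428 (k8 c3571 c313 c314 c2004 c1130 c1959 c9092 c5283 (k4 c9002 c1092 c2085 c2860 (k2 c8915 c10214 k0)))))) (by decide +kernel)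
def c12430 : PP 9 3 T 0x52000200080000000000000000000008000000000000001041000000000000000004000000000400000420000000000000000000001010 := rS 0x454a0f8865202568752ea9578046af30d8c5ea5f37a243295 (k8 c5446 c5393 c5567 c5565 c5439 c5477 c5476 c5475 (k8 c5325 c5324 c1056 c1130 c1957 c1126 c1954 c1959 (k4 c5642 c9240 c265 c1111 (k2 c11871 c3581 (k1 c5331 k0))))) (by decide +kernel)
def c12431 : PP 9 3 T 0x40000000000000042000220080000000000000000000000000000000000000000000000000000000000000000000000000000000000000000000080000000 := rS 0xacd2f6a5f (k4 c5439 c8483 c5517 c12267 (k1 c5231 k0)) (by decide +kernel)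
def c12432 : PP 9 3 T 0x42000021080000000000000000040008000000000000000000000000000000000000000000000000000000000000000000000000000000 := rS 0x22ab3382b914a92c998d21d008896b292392c523d08896b0452e96c127d3f95ce61337a4d3ea14d98533e13dc44ca05f7a3d0e91d9ed4befd55bdd066b06bc43ff344c4d1a817fb3d0b0168fb34015 (k8 c11531 c12423 c12395 c5501 c5502 c5541 c5543 c5544 (k8 c5380 c5381 c5382 c5567 c12426 c12431 c9695 c5522 (k8 c5523 c5525 c5498 c5500 c5542 c5439 c8483 c12185 (k8 c5374 c5373 c5526 c8783 c12429 c12430 c5371 c5372 (k8 c11870 c5447 c5445 c5397 c5398 c5448 c5444 c5565 (k8 c5564 c5379 c5353 c5358 c5442 c5438 c5474 c5321 (k8 c5326 c5231 c5559 c5558 c5560 c5339 c5342 c5562 (k8 c10214 c11945 c12268 c9731 c483 c9744 c5664 c2003 (k4 c12212 c8187 c738 c737 (k2 c2993 c3048 (k1 c5685 k0))))))))))) (by decide +kernel)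
def c12433 : PP 9 3 T 0x44000000000000054000001000000000000000000000000000000000000001000000000000000000410000001100000020010000000000000000000000000 := rS 0xaf332d0d315 (k4 c3048 c835 c5685 c5664 (k2 c1248 c5282 k0)) (by decide +kernel)
def c12434 : PP 9 3 T 0x42000021080000000000000000000008000000000000000000000000200000000000000000000000000000000000000000000000000000 := rS 0x82c281e32bc67159b81c6df208fd5a451a9f4f27f319ccde9f50987c27b889940bf340b3da3ef44bfd1f0143c4d1a9142ecf6a5f7eaadefec419ac1af1ace82523b1b83c174a (k8 c12432 c5516 c5369 c5518 c5332 c6200 c12423 c12110 (k8 c9695 c5522 c5523 c5525 c12395 c5498 c5500 c5542 (k8 c5439 c8483 c12185 c5541 c5374 c5381 c5382 c5373 (k8 c5502 c5526 c5544 c5567 c8783 c5501 c5543 c5380 (k8 c12426 c12429 c12430 c5371 c5372 c11870 c5445 c5398 (k8 c5448 c5565 c5379 c5355 c5358 c5441 c5442 c5324 (k8 c5326 c2890 c2996 c1656 c3002 c10334 c5846 c2898 (k8 c12433 c12178 c3599 c5655 c1490 c1489 c9694 c1107 k0)))))))) (by decide +kernel)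
def c12435 : PP 9 3 T 0x4004400000000044000000000000000000000000000000000000000000090000000000500800000100002000000000000000000000000000000000000000 := rS 0x114563895ed2 (k4 c5689 c1247 c2088 c5683 (k2 c1778 c3052 k0)) (by decide +kernel)
def c12436 : PP 9 3 T 0x44000000000000046000221080000000000000000000000000000000000090000000000114000000000000000041000000010000000000000000000000402 := rS 0x451c6b5663858ad36b32bc6b34e1c5626d3431cfa793f98cef113d9ace68137f7d3ea14d9876a5f (k8 c5439 c8483 c5445 c5397 c5398 c5448 c12425 c5565 (k8 c5380 c5379 c5523 c5372 c5371 c5356 c5355 c5358 (k8 c5441 c5442 c5357 c8135 c665 c1332 c834 c10556 (k8 c2461 c12178 c3599 c12435 c205 c1766 c1720 c8127 (k4 c1343 c2624 c5685 c1293 k0))))) (by decide +kernel)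
def c12437 : PP 9 3 T 0x46000221080000000000000100000000000000000000014000000000114000000000000000041000000010020000000000000400000410 := rS 0x32d39e336b5d68ac8ab31662862871622712998046900c098e7d3c98cee75889ecd61337fbd068f43a47bff344c4d1a814d9876a5f (k8 c5439 c8483 c5445 c5397 c5380 c5381 c5382 c5567 (k8 c12426 c12425 c5374 c5373 c5526 c5525 c8783 c5565 (k8 c5564 c5523 c5372 c5371 c5440 c5356 c5355 c5441 (k8 c5442 c5357 c3613 c12436 c9744 c5642 c5664 c1113 (k8 c267 c2179 c2003 c733 c5651 c2461 c8127 c1289 (k8 c539 c5685 c4433 c2610 c5287 c10556 c12435 c1342 k0)))))) (by decide +kernel)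
def c12438 : PP 9 3 T 0x40008000000000052000200080000000000000000000000000000000100000000000000000000000000000001400004000400000000000000000000000000 := rS 0x9d36ad16715701c1bee36597d8e7d3c9fcc68189a7d3661 (k8 c5445 c5397 c5448 c5382 c5380 c5355 c5358 c5441 (k8 c5442 c5357 c5439 c5464 c5466 c5580 c12178 c3610 (k4 c3048 c2898 c5685 c2610 (k2 c1342 c10556 k0)))) (by decide +kernel)
def c12439 : PP 9 3 T 0x42000021080000000000000000000008000000000000000000000000000000000000000000000000000000000000000000000000000000 := rS 0x6734ac164b58ab79990262b5bc6d345354b1590588e946502ed536a178975e65b7a97cfe77d983e227b069adeeab7e9cfde8347a1d23dff9a26268d40e81fecf42c05a3ec (k8 c12395 c5501 c5502 c5541 c5543 c5544 c12423 c5380 (k8 c5381 c5382 c5567 c12426 c12425 c5374 c5373 c5526 (k8 c5525 c8783 c5379 c5542 c5500 c5498 c5523 c5522 (k8 c5372 c5371 c5369 c12185 c5356 c5358 c5439 c5477 (k8 c5474 c5325 c5321 c9695 c5398 c5397 c8483 c12429 (k8 c12430 c12432 c5331 c5516 c12110 c3571 c12434 c12437 (k8 c2938 c12438 c5689 c1765 c12424 c8127 c2192 c2950 (k4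 c2514 c5685 c2461 c1332 (k2 c4528 c5664 k0))))))))) (by decide +kernel)
def c12440 : PP 9 3 T 0x4000400000000045000000000000000000000000000000000000000000000000000000000000000000000000000150100020404000000000000004040120 := rS 0x127291e01c221712b2160411ff883215 (k8 c11531 c9698 c5196 c5576 c5462 c9092 c10944 c1092 (k4 c1064 c720 c714 c3569 (k2 c5436 c1570 (k1 c5648 k0)))) (by decide +kernel)
def c12441 : PP 9 3 T 0x4001400000000055000000000000000000000000000008000000000000000040000000000040000000000000005550100000404000000000000000045120 := rS 0x4d878d94b05164ca5d7996c36f5 (k8 c5477 c5475 c5474 c5325 c5321 c12440 c314 c3571 (k4 c5516 c717 c718 c2492 (k1 c7600 k0))) (by decide +kernel)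
def c12442 : PP 9 3 T 0x4001400000000055000000000000000000000000000008000000000000001041000200000000000004000000000400100420400000000000000000001010 := rS 0x4a6961811269321f10a762a02642c03aa900bcc36f5 (k8 c5477 c5475 c5325 c1056 c1957 c1954 c9092 c10944 (k8 c5642 c1294 c1275 c265 c1111 c1598 c5679 c3581 (k4 c1186 c5331 c5315 c5225 k0))) (by decide +kernel)
def c12443 : PP 9 3 T 0x40009000000000051000000080000000000000000040000000000000000000000000000000000000000000000000000000000000000000000000000040000 := rS 0x3d08ca2b015 (k4 c11531 c5231 c5225 c5558 (k2 c5560 c10343 k0)) (by decide +kernel)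
def c12444 : PP 9 3 T 0x4000001000000000000000000000000000000000000000000000000000000000200000000000000040010020000000000000000000000 := rS 0xce69 (k2 c1332 c4528 (k1 c5664 k0)) (by decide +kernel)
def c12445 : PP 9 3 T 0x8000000000000000200080000000000000000000000000000000000000000000000000000000400002000000004010000000000000000000000000000 := rS 0xc29f (k2 c1701 c1696 (k1 c12178 k0)) (by decide +kernel)
def c12446 : PP 9 3 T 0x45000001000000000000000100000000000100000000000000000000200000000000000000000000004010420000000000000000040108 := rS 0x5625c38280c1984e250ba4cd2f1 (k8 c9695 c9741 c261 c1107 c1113 c267 c5664 c5648 (k4 c5651 c2003 c1227 c539 (k1 c2891 k0))) (by decide +kernel)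
def c12447 : PP 9 3 T 0x40008000000000050000200080000000000000000000000000000000000000000000000000000000400002001000004000000000000000000000000000000 := rS 0x8a1c16acb (k4 c5464 c1342 c12445 c5685 (k1 c3048 k0)) (by decide +kernel)
def c12448 : PP 9 3 T 0x1000000000000000000000000000008000100000000000040000200014100000000000200000000000000000000000440000001000000 := rS 0x32493342e391abcc62f5 (k8 c5477 c5476 c5325 c5324 c2437 c4145 c2441 c5648 (k2 c3587 c323 k0)) (by decide +kernel)
def c12449 : PP 9 3 T 0x40008000000000051000200080000000000000000000008000100000000014040000000000000000100002001000004000000000001400400010001000002 := rS 0x2382625c0c2cb249984864579bd596a1 (k8 c5578 c5464 c5477 c5325 c5326 c5478 c1696 c1694 (k4 c12447 c5648 c2461 c2455 (k2 c11672 c3593 (k1 c352 k0)))) (by decide +kernel)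
def c12450 : PP 9 3 T 0x50000021080000000000000000000008000000000000000000000000200000000000000000000000000000000000000000000000000000 := rS 0xaf4a2d12f1559a693a9900064520337a859277319248f59948dc76b12c02e95f32d975e6f532814260f2b9fd8e09701f5c681f09e5bfe23dec7becf68fbd12ff47c050e8589a3522fd55bdfd88335834ea5f789cf41b3 (k8 c12185 c12423 c5379 c9695 c5439 c5440 c5522 c5523 (k8 c5525 c12395 c5498 c5500 c5542 c5374 c5381 c5382 (k8 c5541 c5373 c5502 c5526 c5544 c5567 c8783 c5501 (k8 c5543 c12425 c12439 c5372 c5196 c5580 c5441 c10517 (k8 c5380 c5466 c5442 c5846 c5438 c5357 c5358 c5353 (k8 c5369 c5564 c12441 c12442 c5477 c5325 c5321 c5474 (k8 c12426 c12443 c5516 c3571 c12444 c5332 c6642 c6200 (k8 c12110 c5520 c5334 c5355 c5356 c12308 c5578 c5565 (k8 c12446 c9694 c9701 c5642 c12448 c12449 c5679 c2899 (k4 c1191 c1231 c5685 c5678 (k2 c1248 c1590 k0))))))))))) (by decide +kernel)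
def c12451 : PP 9 3 T 0x4000000000000044000000000000000000000000000000000000000000010000000200100000000100000200000000000000000000000000000000000000 := rS 0x56abe289e (k4 c1597 c1598 c2990 c3052 (k1 c5683 k0)) (by decide +kernel)
def c12452 : PP 9 3 T 0x8000000000040000000000000000000000100000008000000000000000000000000100000000020000020000000000000000000000000001000400004 := rS 0x7a338e8983229219146a3120b5c7ed3 (k8 c5579 c5576 c5465 c5462 c5476 c5324 c5326 c5478 (k4 c9694 c9701 c5651 c2029 (k2 c2013 c2861 (k1 c3588 k0)))) (by decide +kernel)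
def c12453 : PP 9 3 T 0x44001400000000055000200080000000000000100000008000000000000001000000000100100000500000101000004000000000000000000000000000000 := rS 0x45b14d202562bc4a945a25e2a174d274fa7f3b9d5028d44b5d42d30fd2bc413 (k8 c5564 c5196 c12443 c5517 c5579 c5578 c5465 c5567 (k8 c5381 c5380 c5440 c5356 c5358 c5442 c12447 c5679 (k8 c1066 c1191 c1231 c5685 c5678 c1094 c1248 c5683 (k4 c12452 c9741 c1586 c2889 (k1 c3608 k0))))) (by decide +kernel)
def c12454 : PP 9 3 T 0x50000021080000000000000000000008000000000000000000000000000000000000000000000000000000000000000000000000000000 := rS 0x4ba553c9c59265aab12c564174a649940af12ebccb6f52f8258e7f2b98cee7507834d6f755bf4e613f9f85c0df3eb8fc5df67b4767ef44a0dfe8f80a1d0bec89a37627948a07407b (k8 c5372 c12423 c5380 c5374 c5441 c12439 c5381 c5382 (k8 c12395 c5541 c5373 c5502 c5526 c5544 c5525 c5567 (k8 c8783 c12185 c5501 c5543 c12425 c5196 c5466 c5442 (k8 c5580 c5846 c10517 c12426 c5564 c5379 c5542 c5500 (k8 c5498 c5523 c5522 c5369 c5440 c5356 c5355 c5353 (k8 c5358 c5357 c5438 c5439 c5477 c5474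 c5325 c5321 (k8 c9695 c12441 c12442 c12308 c12443 c5516 c12110 c3571 (k8 c12444 c12450 c12451 c12453 c2899 c2898 c1698 c1643 (k1 c5678 k0))))))))) (by decide +kernel)
def c12455 : PP 9 3 T 0x4000400000000065000000000000000000000000000008000000000000001041000000000000000000000000000150100420404000000000000000040100 := rS 0x81b (k2 c5475 c12418 (k1 c12440 k0)) (by decide +kernel)
def c12456 : PP 9 3 T 0x8000000000000000040000000000000000000000000005400001010000000000000000000005020 := rS 0xb20b2ebccb6f5 (k4 c5477 c5474 c5325 c5321 (k2 c717 c314 (k1 c3571 k0))) (by decide +kernel)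
def c12457 : PP 9 3 T 0x40008000000000020000220080000000000000000040000000000000000000000000000000000000000000000000000000000000000000000000001000010 := rS 0x163b25126b247080f46e0794024fe570784c823ff0b81be8f899f5c67948a04f615 (k8 c11531 c5372 c5380 c5374 c5441 c5466 c5442 c5382 (k8 c5526 c5580 c5846 c10517 c5576 c5462 c5564 c5369 (k8 c5353 c5358 c5438 c12342 c5432 c5435 c5436 c3569 (k4 c2788 c9764 c3026 c5660 (k2 c12353 c2588 (k1 c6200 k0)))))) (by decide +kernel)
def c12458 : PP 9 3 T 0x40000021080000000000000000000008000000000000000000000000000000000000000000000000000000000000000000000000000000 := rS 0xcc4a0e46697490dc774a02865926554a64da214eed3c5b1f9f7fde8909c4d1a81d03fd9efd42c05a2f7f623d066b06a450e0f788d5e6317a97c12c73e9e4fe57319dcebb3 (k8 c12185 c5440 c5356 c5355 c5353 c5358 c5441 c5442 (k8 c5357 c5438 c5439 c5477 c5476 c5325 c5324 c9695 (k8 c5369 c5373 c5374 c5522 c5523 c5525 c5526 c12395 (k8 c5498 c5501 c5502 c5541 c5542 c5543 c5544 c12423 (k8 c5380 c5381 c5382 c5564 c5567 c8783 c12425 c12426 (k8 c12439 c5196 c12454 c5412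 c5528 c5529 c5530 c5531 (k8 c12455 c12308 c12332 c12456 c12457 c5332 c5518 c12376 (k4 c1637 c323 c324 c5678 (k2 c3587 c2016 k0))))))))) (by decide +kernel)
def c12459 : PP 9 3 T 0x8000000000000014000011000000000000000000000008000000000000000000000000000000000000000000000000000000000004400000000000000000 := rS 0x403d94a21915e6f5 (k8 c5477 c5325 c5326 c5478 c5211 c5238 c9072 c5502 k0) (by decide +kernel)
def c12460 : PP 9 3 T 0x1000000000002000111000000000000000000000000000000000000054080000000002000000505000001001000000020000000000000000000000000 := rS 0x47fcd68ad692243804899601d29410cbdaa1439cdfae3 (k8 c2623 c1129 c1316 c2113 c5398 c5498 c2071 c5672 (k8 c5316 c1972 c1971 c2604 c9739 c313 c8682 c8904 (k4 c1959 c8157 c5548 c2402 (k1 c5675 k0)))) (by decide +kernel)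
def c12461 : PP 9 3 T 0x42000101080000000000000000000008000000000000010000000000010000000000000001001000000020000000000000000000000000 := rS 0x449c3e35a3495a6e38fcdeee3667858f0357bfd3a6d54acf684725d613ea164a6d2a994b97ce6b1f733d0eabd9e74f2fd (k8 c1129 c5441 c12458 c12185 c8880 c2113 c11551 c5239 (k8 c5506 c1316 c5439 c1126 c5447 c5446 c5397 c5396 (k8 c5398 c5448 c5212 c5342 c5562 c12459 c5532 c5531 (k8 c5529 c5412 c5586 c5584 c5508 c5357 c8772 c3617 (k8 c2623 c12460 c12194 c10427 c5666 c1960 c8847 c8157 (k4 c5579 c3062 c1149 c8617 k0)))))) (by decide +kernel)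
def c12462 : PP 9 3 T 0x42000101080000000000000000000008000000000000010000000000000000000000000001001000000020000000000000000000000000 := rS 0x41fb5a07543aaf3bb3 (k8 c12185 c12458 c8880 c2113 c5440 c12461 c5501 c1975 (k1 c5672 k0)) (by decide +kernel)
def c12463 : PP 9 3 T 0x42000101080000000000000000000008000000000000010000000000000000000000000001000000000020000000000000000000000000 := rS 0xcff0b78f6e1688efbff2191c02e3901074140547b341a0ff6a10e69700bc46a1b1897d8e2912c7562af7fa74dab3da675261964a5696f52392eb1eed9bcc8645 (k8 c5326 c5478 c5325 c12185 c5239 c5212 c5342 c5562 (k8 c5477 c9072 c5446 c5396 c5393 c5444 c12458 c12459 (k8 c5532 c5529 c5412 c5586 c5584 c5506 c5341 c9666 (k8 c8199 c5357 c5439 c5476 c5475 c5324 c9695 c1056 (k8 c1126 c1316 c12462 c5541 c9740 c2540 c2502 c2546 (k8 c6008 c5645 c1954 c5642 c2470 c1107 c8310 c3577 (k8 c10427 c5492 c493 c2130 c5591 c691 c11937 c5538 (k2 c2564 c5688 k0)))))))) (by decide +kernel)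
def c12464 : PP 9 3 T 0x8000000000000004000011000000000000000000000008000000000000010000000000000000000000000001000800000010000004400000000000000000 := rS 0x24031ee0f029a0ce0b81aa7694b7abcc8645 (k8 c5326 c5478 c5325 c5477 c9072 c12459 c5531 c5508 (k8 c2309 c2007 c5664 c9743 c9739 c1972 c5645 c5996 (k1 c294 k0))) (by decide +kernel)
def c12465 : PP 9 3 T 0x42000110080000000000000000040008000000001400000000000000001010000400001000150000000010000000000000000000000020 := rS 0x71b85be8e242d5963b091b80e590700c8a5d1a96c625f04b1cfa793a846b061 (k8 c5445 c5212 c9667 c5440 c5441 c5442 c5357 c5438 (k8 c5439 c5476 c5474 c5324 c5321 c5326 c54 c6008 (k8 c314 c713 c12249 c8187 c10795 c1144 c1149 c475 (k4 c476 c2947 c2846 c2403 (k1 c6118 k0))))) (by decide +kernel)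
def c12466 : PP 9 3 T 0x1000000000000042000101080000000000000000000008000000000000010000000000010000000000000001001000000000000000000000000000000000 := rS 0xf61c12476370f85c1802078158a66009a5131305b350c5b2f824f27711a36068b88a762a2159ed126194d985334b7abcc8645419948e4bac7bb3bb3 (k8 c12185 c12458 c5239 c5212 c5342 c5562 c12463 c12464 (k8 c5326 c5478 c5325 c5477 c9072 c5447 c5445 c5397 (k8 c5393 c5444 c12459 c5532 c5528 c5414 c5412 c5411 (k8 c5583 c5508 c5505 c9733 c5356 c5441 c5438 c5439 (k8 c5474 c5672 c12000 c692 c959 c2117 c897 c8135 (k8 c5664 c733 c12465 c9739 c5642 c5645 c1107 c1112 (k4 c2363 c289 c294 c3578 (k2 c5996 c398 k0)))))))) (by decide +kernel)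
def c12467 : PP 9 3 T 0x2000000000000042000101080000000000000000040008000000000000000000000000000000000000000001000000000010000000000000000000000020 := rS 0xdf71b84768e5a8ca2666659b80e0e349cc065d1a96c625f049f4f2573b9d51a8b8aa7d429b30bdc90437abcc8a71f9c74dab3da11c9758f76cf3a15 (k8 c11531 c12458 c12185 c5239 c5212 c5342 c5562 c12459 (k8 c5532 c5529 c5341 c11908 c10427 c5326 c5325 c5477 (k8 c5478 c8823 c5498 c5445 c5397 c5398 c5448 c5414 (k8 c5583 c5505 c5440 c5356 c5353 c5441 c5442 c5438 (k8 c5439 c5476 c5474 c5324 c5321 c54 c9718 c9743 (k8 c6008 c713 c12249 c8466 c5664 c953 c5729 c1149 (k4 c5675 c492 c2846 c2403 (k2 c2947 c5920 k0)))))))) (by decide +kernel)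
def c12468 : PP 9 3 T 0x40004000000000006000001000000000000000000000000000000000900041000000100014040000000001000005401501014400000000000000000000000 := rS 0xce69621a99a7b4d98532df (k8 c2512 c5447 c5445 c5397 c957 c8709 c3598 c3607 (k2 c1223 c733 (k1 c5664 k0))) (by decide +kernel)
def c12469 : PP 9 3 T 0x8000000000000000000000000000000000000000040008000000100000010040000200000000000000000000000000000000000000011100000000000000 := rS 0x371d8ca523f69f8486451a8c5aed5 (k8 c5585 c5507 c5476 c5324 c5326 c5478 c5460 c3062 (k4 c3057 c6923 c3588 c492 (k2 c1483 c5654 k0))) (by decide +kernel)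
def c12470 : PP 9 3 T 0x42000101080000000000000000000008000000000000010000000000010000000000000001001000000000000000000000000000000000 := rS 0x2e6e0132cd5e23db862439478281e0506fcc90cf7ea1defec2fb1cf2633b9d47a7d20844131d81c453a6dda27c329b30a6696f57990c8a833291c9758f76776615 (k8 c11531 c12185 c12458 c5239 c5212 c5342 c5562 c12463 (k8 c12464 c5326 c5478 c5325 c5477 c9072 c5447 c5445 (k8 c5397 c5393 c5448 c12459 c5529 c5412 c5411 c5508 (k8 c5341 c5438 c9667 c8151 c5442 c8150 c5440 c5356 (k8 c5355 c5441 c5357 c5439 c12466 c5498 c5499 c5542 (k8 c5543 c8823 c11908 c294 c12467 c9739 c5645 c2843 (k8 c2470 c5675 c12469 c957 c12468 c3598 c5464 c2306 (k2 c2601 c1107 (k1 c8131 k0))))))))) (by decide +kernel)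
def c12471 : PP 9 3 T 0x42000101080000000000000000000008000000000000010000000000000000000000000001001000000000000000000000000000000000 := rS 0x2b0dccb399c4028034a250cd362a5fdad02f9f4fe773aa35ae8b6ac476861419948e4bac7bb3bb3 (k8 c12185 c12458 c5239 c5212 c5342 c5562 c12463 c12464 (k8 c5445 c12459 c5411 c5585 c5583 c5507 c5505 c5440 (k8 c5356 c5358 c5442 c5439 c12470 c5501 c9368 c1707 (k8 c2135 c5672 c2117 c897 c3608 c8135 c751 c9719 (k4 c8466 c5666 c8156 c2817 k0))))) (by decide +kernel)
def c12472 : PP 9 3 T 0x42000101080000000000000000000008000000000000010000000000000000000000000001000000000000000000000000000000000000 := rS 0x227f36f1207cd319b4074393d0291e6b0683d08651a8c4bec73c98c7a7d20844131d6bb55ff114e9b7699d4dd2dea4725d63ddb37990c8a15 (k8 c11531 c5326 c5478 c5325 c12185 c5239 c5212 c5342 (k8 c5562 c5477 c9072 c5397 c12458 c12459 c5529 c5412 (k8 c5411 c5586 c5585 c5507 c5341 c5438 c9667 c8151 (k8 c5442 c8150 c5355 c5441 c5357 c5439 c5476 c5324 (k8 c12463 c12471 c9740 c2540 c2543 c2546 c5645 c10556 (k8 c2470 c691 c848 c2130 c2135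 c3588 c494 c495 (k2 c5588 c2512 (k1 c5675 k0)))))))) (by decide +kernel)
def c12473 : PP 9 3 T 0x40000000000000000000000000000000000000000000000000000000000050000000040082000000000000000000000000000000000000000000000000000 := rS 0x1c3e3 (k2 c5579 c3062 (k1 c8709 k0)) (by decide +kernel)
def c12474 : PP 9 3 T 0x8000000000000002000011080000000000000000000000000000001000010000000000010000000405001002000000000020000000000000000000000000 := rS 0xcaf634d98cf7eab52e872f9e606c94da5533f36f9fd1285 (k8 c850 c3042 c5358 c2948 c5589 c5447 c5446 c5397 (k8 c5396 c5508 c5441 c5439 c2113 c1126 c1959 c1129 (k4 c11551 c3617 c12473 c8892 (k2 c8156 c8890 k0)))) (by decide +kernel)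
def c12475 : PP 9 3 T 0x42000101080000000000000000000008000000000000010000000000000000000000000000000000000000000000000000000000000000 := rS 0x1c7e11c0ec6e1f0b830040f02b35c2d2f1b14cc65409a4e001449bda20b6f9ce27f34852c86457996dea5f049f4f27f3b9d446ab088951ad781a2daa9d8a88552b3da11c9758f767766930ca6cc299 (k8 c5447 c5445 c5397 c5393 c5444 c12185 c12458 c5239 (k8 c5212 c5342 c5562 c12459 c5532 c5531 c5528 c5414 (k8 c5412 c5585 c5583 c5508 c5507 c5505 c9666 c9667 (k8 c8880 c9733 c5440 c5356 c5358 c5441 c5442 c5438 (k8 c5439 c5477 c5474 c5325 c5326 c5478 c9072 c12472 (k8 c5589 c198 c9824 c2948 c694 c9793 c3038 c3042 (k8 c11969 c5666 c9744 c751 c12474 c5664 c733 c8136 (k8 c3608 c3062 c12473 c12465 c9739 c5642 c5645 c1107 (k4 c1112 c2363 c289 c3578 (k2 c5534 c2617 (k1 c5691 k0))))))))))) (by decide +kernel)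
def c12476 : PP 9 3 T 0x10000000000000000000040008000000100000002000000000000000000140000000000000010020000000000000011000004000 := rS 0x41d02914021b (k4 c5475 c1056 c5326 c6008 (k2 c9094 c5642 (k1 c8310 k0))) (by decide +kernel)
def c12477 : PP 9 3 T 0x8000000000000020000111080000000000000000000008000000100000020000000000000100000000014515000000000021000000400000001001000000 := rS 0x6020dc174a7e0e4766a689edbee1ef83624cb07b495a84479cd2e87219146af31897d8e792b98c46abd98a562d757b56229d389b567f366a0fda77 (k8 c5356 c5502 c1978 c12000 c5592 c5532 c5529 c10427 (k8 c5412 c5411 c5585 c5584 c5507 c5506 c8199 c12185 (k8 c8880 c9733 c5355 c5353 c5441 c5357 c5439 c5476 (k8 c5325 c5324 c5326 c5478 c2113 c1126 c1316 c8319 (k8 c5733 c1960 c8847 c10850 c8466 c5675 c2540 c8161 (k8 c3063 c2512 c957 c2136 c3598 c8491 c6897 c2542 (k4 c12476 c5516 c5518 c9932 (k2 c10699 c713 k0)))))))) (by decide +kernel)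
def c12478 : PP 9 3 T 0x6000111000000000000000000000000000000000100020000000000000000000000000001108000510010000000000000000000000000 := rS 0xe68800a38d313f9b3507ed (k8 c5502 c1978 c12000 c5592 c958 c897 c5675 c8135 (k2 c2848 c9719 (k1 c8490 k0))) (by decide +kernel)
def c12479 : PP 9 3 T 0x8000000100000000000000200560000000000000000000000000000000000011100000000000000 := rS 0x7e33219146a31 (k4 c5476 c5324 c5326 c5478 (k2 c2130 c3057 (k1 c3588 k0))) (by decide +kernel)
def c12480 : PP 9 3 T 0x8000000000000022000111080000000000000000000008000000100000020000000000000000000000000001000000000000000000411000001000000000 := rS 0xcc7ef7a502c71e369b8100d071f85be7a891ac1a0f47a110e6538a0c86451abcc625f639e4c6773aecd1ad76ac453a6d59a4d3ea10cb2536614aa67e7ed (k8 c5502 c5592 c5447 c5446 c5445 c5397 c5396 c5393 (k8 c5398 c5448 c5444 c5532 c5529 c5412 c5411 c5585 (k8 c5507 c5505 c12185 c5440 c5356 c5355 c5441 c5357 (k8 c5439 c5476 c5325 c5324 c5326 c5478 c1978 c10427 (k8 c12477 c12478 c5672 c2849 c10850 c2540 c2543 c5675 (k8 c10556 c2512 c5457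 c1776 c848 c6202 c957 c2136 (k8 c5463 c12479 c2470 c5645 c5333 c9341 c2129 c3588 k0))))))) (by decide +kernel)
def c12481 : PP 9 3 T 0x20000011080000000000000000000008000000000000020000000000000100000000000512001100020020000000001000000000000001 := rS 0x3e1c838260401d2dc0ac0eb3110cf7ea092e8778bcc36f52fb1cfa792b88d57b388a762aa9f6b44b615 (k8 c11531 c5474 c9793 c5502 c5531 c5414 c5412 c5411 (k8 c12185 c8880 c9733 c5353 c5441 c5442 c5357 c5439 (k8 c5477 c5475 c5325 c9695 c2113 c1126 c5733 c1129 (k8 c11551 c1977 c3617 c8679 c2872 c2078 c10456 c8313 (k4 c5642 c2869 c6008 c393 (k2 c10187 c3057 k0)))))) (by decide +kernel)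
def c12482 : PP 9 3 T 0x62000110080000000000000000040008000000000400000000000000001010000000000000158000000010000000000500000000000401 := rS 0xd8180207814b65f3c88d3b1559a4c329b (k8 c5397 c5393 c5444 c5532 c5414 c5412 c9733 c5441 (k8 c5439 c5474 c12465 c9739 c5642 c8435 c9933 c2363 k0)) (by decide +kernel)
def c12483 : PP 9 3 T 0x42000101080000000000000000000008000000000000000000000000000000000000000000000000000000000000000000000000000000 := rS 0x9125ef4a1d8e50ccd62f7d0666449950269380050a6f6882dbe7389a43dbf3802652a614db2486452e8d5e65b189fcee75128f4fa41088263a8d6ba2dab15da11c9758f76776615 (k8 c11531 c12185 c12458 c5239 c5212 c5342 c5562 c12459 (k8 c5414 c5585 c5583 c5507 c5505 c5341 c5438 c9667 (k8 c8151 c5442 c8150 c9666 c5440 c5356 c5358 c5476 (k8 c5474 c5325 c5324 c5321 c5326 c5478 c5396 c5397 (k8 c5445 c5446 c5447 c12475 c5592 c5502 c12480 c198 (k8 c9824 c2948 c694 c9793 c3038 c849 c11969 c5666 (k8 c9744 c751 c12481 c2873 c5664 c1977 c8993 c733 (k8 c12000 c5672 c6897 c8491 c12482 c5333 c5334 c9450 (k1 c3036 k0))))))))) (by decide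 +kernel)
def c12484 : PP 9 3 T 0x81000000000000040000101080000000000000000000008000000000000011000000000000000000000000000000800000020000000000000000000000000 := rS 0x4a4383202220b00e563d96a5f3aaad630357bfe2aa9da11c9758f767767b1 (k8 c12483 c12185 c12458 c5239 c5212 c5342 c5562 c12459 (k8 c5531 c5414 c5586 c5584 c5508 c5506 c8880 c5440 (k8 c5439 c5548 c12194 c9083 c1972 c1971 c1959 c9739 (k4 c12275 c313 c5316 c8682 k0)))) (by decide +kernel)
def c12485 : PP 9 3 T 0x1000000000000040000101080000000000000000000008000000000000010000000000000000000000000001001000000020000000000000000000000000 := rS 0xb556a38e3f389a09570357bfe2a6d54acf684725d633a7358fbb66fd (k8 c1129 c12185 c5239 c5506 c1316 c12458 c5212 c5342 (k8 c5562 c12459 c5532 c5531 c5529 c5414 c5586 c5584 (k8 c5508 c8880 c5733 c2604 c12484 c10427 c5675 c1960 (k2 c2402 c9083 k0)))) (by decide +kernel)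
def c12486 : PP 9 3 T 0x40000101080000000000000000000008000000000000010000000000000000000000000001001000000020000000000000000000000000 := rS 0x10740a0f892d15a6e38fcfd8fd3980436ab148963ab181abdff1536aa567b4ced2dea4725d63ddb37990c8a15 (k8 c11531 c5326 c5478 c5325 c12185 c5239 c5212 c5342 (k8 c5562 c5477 c9072 c12458 c12459 c5532 c5531 c5529 (k8 c5414 c5586 c5584 c5508 c5506 c5341 c9666 c8199 (k8 c8880 c5475 c1056 c1316 c1129 c12485 c11908 c10427 (k8 c5666 c1960 c3623 c1149 c953 c6008 c1954 c5642 (k1 c8310 k0)))))) (by decide +kernel)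
def c12487 : PP 9 3 T 0x20000110080000000000000000040000000000000000000000000100000000000000000001000000020000000000000500008002000000 := rS 0x3793ccb3d8a51eb3 (k8 c5532 c2874 c8199 c10458 c1320 c380 c11724 c2884 k0) (by decide +kernel)
def c12488 : PP 9 3 T 0x89000000000000061000110080000000000000000040008000000000000000000000000011100000000000001008000000000000000000100000000004001 := rS 0x1de6933fc3284d064e0171324c041f1d8dc0a0c2f9e4462912904220923d61aed510acc165b5a925c215 (k8 c11531 c5591 c5588 c5548 c5474 c692 c5532 c5528 (k8 c5585 c5507 c5212 c5562 c5438 c9667 c8151 c9666 (k8 c8199 c9733 c5441 c5439 c8435 c6008 c2363 c289 (k8 c2362 c5642 c12414 c8140 c1107 c268 c12487 c9933 (k4 c5648 c5536 c2563 c6923 (k2 c5688 c5496 k0)))))) (by decide +kernel)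
def c12489 : PP 9 3 T 0x200000008000000000000000000000000000000000000000000150400000000000001000000000000018000 := rS 0x132c914ba5b (k4 c5474 c5321 c5326 c474 (k2 c475 c8187 k0)) (by decide +kernel)
def c12490 : PP 9 3 T 0x89000000000000061000110080000000000000000040008000000000000000080000000011100000000000001008000000000000000000000000000004001 := rS 0x39 (k2 c398 c12488 k0) (by decide +kernel)
def c12491 : PP 9 3 T 0x81000000000000040000101080000000000000000000008000000000000010000000000000000000000000001001000000000000000000000000000000000 := rS 0x33294fb4d8ad00b89926020f814180f7b1256a5b2f88c522520844128d6ba2daa2159ec696f57990c8ac931b34ee89331cc02694320e23b42392eb1eece9976615 (k8 c11531 c12185 c12486 c12458 c5239 c5212 c5342 c5562 (k8 c12459 c5411 c12464 c5672 c897 c8135 c9719 c5664 (k8 c2117 c5356 c12000 c5355 c12308 c5326 c5478 c5325 (k8 c5477 c9072 c12483 c5532 c5528 c5585 c5583 c5507 (k8 c5505 c5438 c9667 c8151 c9666 c8199 c9733 c5439 (k8 c5474 c5548 c5588 c12194 c12489 c8435 c6008 c2362 (k8 c5642 c12414 c8140 c1107 c12490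 c1707 c2135 c12295 (k2 c6923 c380 (k1 c5648 k0))))))))) (by decide +kernel)
def c12492 : PP 9 3 T 0x10000000000000000000040000000000001000000000000000000000000400000000808000008000040004400000011100004001 := rS 0x1387c0a490608d6a73 (k8 c9719 c2402 c9733 c8435 c2843 c6008 c2362 c2814 (k1 c3584 k0)) (by decide +kernel)
def c12493 : PP 9 3 T 0x80000000000000000000008000000000000000000000000000100000040020000000000000080010000000000009000000020 := rS 0x1981d8a920ba5cba352d8c4ae75 (k8 c5440 c5353 c5476 c5474 c5324 c5321 c1233 c1068 (k4 c2928 c734 c714 c323 (k1 c10897 k0))) (by decide +kernel)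
def c12494 : PP 9 3 T 0x1000000000000040000101080000000000000000000008000000000000010000000000000000000000000001001000000000000000000000000000000000 := rS 0x934d4a464df69f89422609064b204018393eb571b84dccb471c7e67333004d28989a18ba5b2f9e4ae29128f4fa41088263a8d6ba2d5ed588c54426d59ed3634b7abcc8645649dcc6833291c9758f76776615 (k8 c11531 c12185 c12458 c5239 c5212 c5342 c5562 c12486 (k8 c12464 c5355 c5356 c12308 c5326 c5478 c5325 c5477 (k8 c9072 c12483 c12459 c5532 c5529 c5528 c5414 c5411 (k8 c5585 c5584 c5583 c5507 c5505 c5341 c5438 c9667 (k8 c8151 c5442 c8150 c9666 c8199 c5353 c5441 c5439 (k8 c5474 c5321 c5672 c959 c2117 c897 c8135 c5664 (k8 c9719 c12491 c10427 c5675 c8466 c5666 c2846 c2403 (k8 c2402 c2815 c12492 c9738 c9739 c474 c9701 c8187 (k8 c317 c12493 c5680 c5579 c5580 c12314 c6923 c5920 (k2 c323 c9848 k0)))))))))) (by decide +kernel)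
def c12495 : PP 9 3 T 0x41000000000000000000000000000000000000000000000000000000000400002000004404000000008000000000001000015000400800 := rS 0x7e19f1079426a (k4 c1148 c1199 c2305 c5680 (k2 c1164 c5576 (k1 c7824 k0))) (by decide +kernel)
def c12496 : PP 9 3 T 0x61000000080000000000000000000008000000000800001041000000014400000000000404005400008080000000001400015400000808 := rS 0x19ac54a25c301c0f9ad6af30dbd4f2773aa7442a94c8e58e7b0b97d3e7d (k8 c5442 c2815 c5439 c1107 c691 c5357 c2470 c5530 (k8 c5531 c5528 c5412 c5440 c5356 c5441 c5477 c5475 (k8 c5325 c12495 c2600 c1111 c5816 c6193 c1227 c376 (k2 c734 c2016 (k1 c3607 k0))))) (by decide +kernel)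
def c12497 : PP 9 3 T 0x40000101080000000000000000000008000000000800001040000000014000000000000000005400010010000000000400000000000811 := rS 0x95efb318a974d09ccc6e65808d2737897d8e793a88c52251e844faa9da11c9758cea4dabb1649dcc6d7f76ccf615 (k8 c11531 c691 c12185 c5239 c5507 c5355 c5356 c12308 (k8 c12483 c5585 c12414 c12458 c5212 c5342 c5562 c12459 (k8 c5531 c5442 c9667 c8150 c9666 c8199 c9733 c5440 (k8 c5441 c5357 c5439 c9695 c9719 c9744 c5642 c8466 (k8 c5666 c5664 c268 c12496 c1231 c734 c3607 c5495 (k2 c2016 c5678 k0)))))) (by decide +kernel)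
def c12498 : PP 9 3 T 0x40000101080000000000000000000008000000000000010000000000000000000000000001001000000000000000000000000000004000 := rS 0xd2f178650e34d05d4261359c832003db84763949c4814054797d8e79118947a7d2084412d76ac453bb14cd2d927731a0ccaf743b45facf0692086f579914e3f3f6474dab3da11c9758f76cf3a15 (k8 c11531 c12458 c12185 c5239 c5212 c5342 c5562 c12459 (k8 c5532 c5529 c5341 c12494 c11908 c10427 c5326 c5325 (k8 c5477 c5478 c8823 c294 c5543 c5542 c5501 c5499 (k8 c5498 c12486 c12464 c5355 c5356 c12308 c9072 c5530 (k8 c12483 c5412 c5411 c5585 c5507 c5438 c9667 c8151 (k8 c5442 c8150 c9666 c9733 c5441 c5357 c5439 c2843 (k8 c6008 c5645 c5675 c12414 c2470 c12419 c12469 c691 (k8 c12497 c9699 c11969 c1059 c662 c1196 c10373 c3598 (k4 c2622 c5648 c5536 c8617 (k2 c6923 c5579 k0)))))))))) (by decide +kernel)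
def c12499 : PP 9 3 T 0x40000101080000000000000000000008000000000000010000000000000000000000000001001000000000000000000000000000000000 := rS 0x1269a948c9bed3f12844c1271ad53e6665a39c26e0c9a4e659898e4080300838e3f3243dfd88364994be792b98cee251e9f4821104c751ad745abdab1536acf699dd8d2dea4725d63ddb37990c8a15 (k8 c11531 c5326 c5478 c5325 c12185 c5239 c5212 c5342 (k8 c5562 c5477 c9072 c12483 c12458 c12459 c5532 c5529 (k8 c5414 c5585 c5584 c5583 c5507 c5505 c5341 c5438 (k8 c9667 c8151 c5442 c8150 c9666 c5356 c5355 c5353 (k8 c5441 c5439 c12486 c12308 c12464 c12494 c5498 c8823 (k8 c11908 c10427 c12498 c9736 c9738 c9739 c393 c953 (k8 c474 c9719 c9744 c9701 c12249 c12469 c5675 c8466 (k8 c5664 c2815 c1149 c2403 c2842 c317 c12493 c5680 (k4 c5579 c5580 c12314 c6923 (k2 c5920 c323 (k1 c9848 k0))))))))))) (by decide +kernel)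
def c12500 : PP 9 3 T 0x1000000000000020000010000000000000000000040008000000000000001001000000000000000004000000000800000020000000000000000000004401 := rS 0x700af779bd442a9 (k8 c5531 c5528 c5477 c5325 c1972 c6008 c9945 c1954 k0) (by decide +kernel)
def c12501 : PP 9 3 T 0x1000000000000065000110080000000000000000040008000000000000000001000000000000000104000000551000004020000000000000000000000401 := rS 0x32c0ec80e77cb0130203904fd4a99c86452e96cbe7508c76b015 (k8 c11531 c5212 c5341 c9667 c5440 c5439 c5474 c5321 (k8 c5326 c5478 c63 c1955 c1129 c5733 c12500 c9739 (k8 c476 c3572 c9442 c313 c10944 c8613 c1324 c12409 k0))) (by decide +kernel)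
def c12502 : PP 9 3 T 0x8000000000000041000000080000000000000000000000000000000000000001000000000100000000000000010000020080000000000000010002000000 := rS 0x4ff8da48162b2d2e7d3b9d51ad745b55427f (k8 c5358 c2929 c5585 c5583 c5507 c5505 c5440 c5356 (k8 c5442 c1227 c1320 c734 c752 c3608 c8136 c2883 (k1 c5680 k0))) (by decide +kernel)
def c12503 : PP 9 3 T 0x40000101080000000000000000040008000000000000000000000000000100000000000002009000000000000000000000000001004000 := rS 0xb00927290f814185b2f9ff3ad76afbb67b1009cc2225 (k8 c9666 c9667 c9824 c11969 c12483 c12185 c5239 c5585 (k8 c5507 c12458 c5358 c5439 c5474 c8435 c6008 c2362 (k4 c9817 c12414 c5642 c5648 (k1 c1107 k0)))) (by decide +kernel)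
def c12504 : PP 9 3 T 0x1000000000000040000101080000000000000000040008000000000000000000000000000000000000000002011000000000000000000000000000000000 := rS 0x200c1c194320cccc932bc4c677558a51ab145aa7628f059c0df15da11c9758f76776669009cc2225 (k8 c9666 c9667 c9824 c11969 c9744 c12185 c12458 c5239 (k8 c5212 c5342 c5562 c12459 c5414 c3038 c5666 c694 (k8 c165 c12483 c5531 c5583 c5506 c5505 c8199 c8880 (k8 c5356 c5355 c9695 c12501 c12308 c5664 c2007 c5672 (k4 c12502 c12503 c9738 c9739 (k1 c12249 k0)))))) (by decide +kernel)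
def c12505 : PP 9 3 T 0x2000000000000020000010000000000000000000040008000000000000000000000000000000000000000000000000000020000000000000000000004400 := rS 0x300a23 (k4 c9733 c6008 c5645 c9803 k0) (by decide +kernel)
def c12506 : PP 9 3 T 0x8000000100000000040000000000000000000000000550000000000000000000000000000018000 := rS 0x164264322974b615 (k8 c11531 c5474 c5321 c5326 c5478 c476 c473 c3572 k0) (by decide +kernel)
def c12507 : PP 9 3 T 0x40000101080000000000000000000008000000000000010000000000000000000000000000001000000000000000000000000000000000 := rS 0x32174999993290f808ca0c0283defec349c002893782ce68f483c4b65f049fcc677148444b1d46a2e2bb4ceec696f52392eb1eed9bcc8645 (k8 c5326 c5478 c5325 c12185 c5239 c5212 c5342 c5562 (k8 c5477 c9072 c12483 c12458 c12459 c5414 c5583 c5505 (k8 c5341 c9666 c9667 c8199 c5356 c5355 c5358 c5438 (k8 c5439 c5474 c9695 c12499 c165 c9824 c694 c3038 (k8 c3042 c11969 c5666 c9744 c12504 c5498 c12506 c6008 (k8 c5645 c12505 c5642 c2362 c9817 c12308 c5664 c261 (k2 c1107 c12502 (k1 c5648 k0)))))))) (by decide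 +kernel)
def c12508 : PP 9 3 T 0x45000000080000000000000200000008000000000000000001000000500100000010000004140000020020000000000000010010400000 := rS 0xca0c78c66c5ef0d436314b97d2a75 (k8 c5440 c1955 c5439 c1126 c5476 c5475 c5324 c10944 (k4 c5451 c5492 c9525 c3577 (k2 c11722 c1320 k0))) (by decide +kernel)
def c12509 : PP 9 3 T 0x65000110080000000000000000000008000000000000054001000000500000000154000004142000020020000000000000000010400000 := rS 0x37cf6ce65b4590fc14d622aa9f6a3d6ae1f91b56691 (k8 c849 c5532 c5529 c10427 c5591 c5548 c2546 c5541 (k8 c5531 c5414 c5212 c8199 c9083 c12508 c2133 c4104 (k4 c1181 c848 c2564 c11724 k0))) (by decide +kernel)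
def c12510 : PP 9 3 T 0x65000110080000000000000000040008000000000000000001000000500100000000000005000000020020000000000100000010400000 := rS 0x2784ecb1d8f831e3698cfbc43228d43631118a47a7d20844131dac25cbe953aa84fee1f91b56615 (k8 c11531 c5532 c5529 c10427 c5591 c5358 c2929 c5440 (k8 c1955 c5439 c1126 c5212 c5341 c5438 c9667 c8151 (k8 c5442 c8150 c8199 c9733 c5476 c5475 c5324 c5326 (k8 c5478 c10944 c5492 c5496 c9525 c3577 c3588 c491 (k4 c1320 c12487 c5680 c2878 k0))))) (by decide +kernel)
def c12511 : PP 9 3 T 0x65000110080000000000000000040008000000000000054001000000500000000144000000142000000020000000000000000000000000 := rS 0x1bc7b4f32da2c856387e4700ba4c041d00914365f048a44b1dac1b5668f48814720a06bcc1ec7 (k8 c5357 c9740 c5325 c2540 c5645 c2470 c6008 c849 (k8 c2546 c5532 c5529 c5212 c5341 c9666 c8199 c5438 (k8 c5439 c5475 c5326 c1056 c1954 c5642 c261 c1107 (k8 c8310 c10427 c5591 c12509 c12510 c2133 c1324 c2068 (k2 c848 c11724 (k1 c2884 k0)))))) (by decide +kernel)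
def c12512 : PP 9 3 T 0x40000101080000000000000000000008000000000000010000000000000000000000000000000000000000000000000000000000000000 := rS 0x4ba57be9a3db480ea1941c832170000d266b34324ca3905014cecd0683d094b7890c8af37a97d8e79319dd562520844128d58b5e068b57b55ff114e9b76299da11c9758f76776615 (k8 c11531 c12185 c12458 c5239 c5212 c5342 c5562 c12459 (k8 c5530 c12483 c5529 c5412 c5411 c5586 c5585 c5584 (k8 c5583 c5508 c5507 c5506 c5505 c5438 c9667 c8151 (k8 c9666 c8880 c5356 c5355 c5441 c5357 c5439 c5477 (k8 c5325 c5326 c5478 c9695 c9072 c12507 c9740 c2540 (k8 c2502 c735 c6008 c5645 c2470 c12511 c12308 c5664 (k8 c2543 c12414 c9741 c9744 c10373 c9701 c11969 c5648 (k8 c1196 c5432 c6923 c690 c10253 c5496 c2019 c1232 (k1 c5678 k0))))))))) (by decide +kernel)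
def c12513 : PP 9 3 T 0x5000000080000000000000000000008000000000000020000000000014100000004001100020000020020000000000100000000000020 := rS 0x2c9a0333466c5ef1746a5b1895d2e5f4a9d4b21d (k8 c8576 c313 c5440 c1955 c5439 c1126 c5353 c5476 (k8 c5474 c5324 c5321 c10944 c5451 c5492 c5495 c10897 (k2 c8338 c714 (k1 c1067 k0)))) (by decide +kernel)
def c12514 : PP 9 3 T 0x40000101080000000000000000000008000000000000000000000000000000000000000000001000000020000000000000000000000000 := rS 0x76585d903902038e14b3787520886882d9e827ebc5e6f53c95cea234ec5553b14ced08e4bac7b600010da1d579d39ac7ddb3 (k8 c12185 c5239 c5506 c1316 c12458 c8880 c2113 c5475 (k8 c1056 c12512 c5502 c5212 c5342 c5562 c12459 c5530 (k8 c12483 c5531 c5414 c5412 c9733 c5440 c5353 c5441 (k8 c5477 c5325 c9695 c1129 c5733 c11551 c2309 c1975 (k8 c1977 c1978 c8576 c3038 c10456 c5666 c12500 c9739 (k4 c393 c12513 c1064 c1324 (k2 c714 c12409 k0))))))) (by decide +kernel)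
def c12515 : PP 9 3 T 0x8000000100000000000000000000000000140000000000000010020000000000000011000000010 := rS 0x20e914021b (k4 c5475 c1056 c5326 c1954 (k2 c5642 c8310 k0)) (by decide +kernel)
def c12516 : PP 9 3 T 0x800000000040000101080000000000000000000008000000000000000000000000000000000000000000000000000020000000000000000000000000 := rS 0x70b8cf61df1967c2336290c8a352db5f63ed0086d06ad6597dbf1247b1d3e6e399f4163b1bd28087148a2cdab3da11c97f3802bd63eed9c76b0251483d099d (k8 c12458 c12514 c9740 c8199 c9666 c5212 c5341 c12185 (k8 c5239 c5506 c5584 c12512 c5592 c5342 c5562 c12459 (k8 c5532 c5529 c5583 c849 c10427 c12515 c6008 c5518 (k8 c5332 c717 c5442 c1316 c5666 c2815 c5357 c8319 (k8 c5675 c2512 c5439 c8466 c1960 c128 c5475 c1056 (k8 c5502 c12483 c5507 c5474 c5324 c5326 c5478 c5451 (k8 c5492 c6344 c9442 c9525 c9172 c847 c9427 c9396 (k1 c5691 k0)))))))) (by decide +kernel)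
def c12517 : PP 9 3 T 0x40000101080000000000000000000008000000000000000000000000000000000000000000000000000020000000000000000000000000 := rS 0x72072cb442e1d6477c6e3b05d28087148b341e83422552ef30d97c12c73c95ceaab148963ab145abcdaa959ed08e4bac7bb3bb3d8fcfdb00 (k8 c12512 c5502 c5592 c12483 c12185 c12458 c5239 c5212 (k8 c5342 c5562 c12459 c5532 c5531 c5529 c5584 c5583 (k8 c5506 c5341 c9666 c8199 c8880 c5440 c5353 c5441 (k8 c5357 c5438 c5439 c5475 c5325 c1126 c1955 c12514 (k8 c128 c9740 c2502 c849 c10427 c12515 c6008 c717 (k8 c5332 c5518 c12516 c10944 c8959 c1064 c2133 c313 (k2 c714 c6897 (k1 c5745 k0)))))))) (by decide +kernel)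
def c12518 : PP 9 3 T 0x40000000000000041000000000000000000000000000000000000001000000000000500000400001400004000000000000000000000000100001000800000 := rS 0xf1379429b (k4 c1067 c1068 c5920 c5680 (k1 c5580 k0)) (by decide +kernel)
def c12519 : PP 9 3 T 0x41000000080000000000000000000008000200100000000001000000500400000040004000000000000080010000001000000000000040 := rS 0xa1f1a58665b0495cee75 (k8 c5440 c5356 c5353 c5438 c5474 c5316 c10711 c12314 (k2 c1233 c5680 k0)) (by decide +kernel)
def c12520 : PP 9 3 T 0x40000101080000000000000000040008000000000000000000000000000000000000000001001000000000000000000000000000000000 := rS 0xc519a5d25290385c32591c810060e4fad5966e39a21c6e1330051c6989a18e283789746a5b1897cf2573a8a44a3d089f63a8d6babdab118a884dab3da11c9758f767763f3f6c019265d99dcc615 (k8 c11531 c5355 c5356 c12185 c12517 c12308 c12512 c5502 (k8 c5592 c12483 c12458 c5239 c5212 c5342 c5562 c12459 (k8 c5532 c5529 c5528 c5414 c5411 c5585 c5584 c5507 (k8 c5505 c5341 c5442 c9667 c8150 c9666 c8199 c5440 (k8 c5353 c5441 c5439 c5476 c5474 c5324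 c5321 c9695 (k8 c1978 c10427 c5672 c958 c897 c5675 c8135 c5664 (k8 c2846 c2403 c2848 c9719 c2010 c8466 c2402 c2815 (k8 c12492 c9738 c9739 c393 c474 c9701 c12518 c714 (k4 c12519 c5648 c1637 c323 (k2 c734 c10897 k0)))))))))) (by decide +kernel)
def c12521 : PP 9 3 T 0x40000101080000000000000000040008000000000000000000000000000000000000000000001000000000000000000000000000000000 := rS 0x38220de7348457684725d63dd9dd9fb60065 (k8 c12517 c12512 c5502 c12185 c12458 c5239 c5212 c5342 (k8 c5562 c12459 c5414 c12520 c9824 c3038 c12504 c5666 (k1 c2873 k0))) (by decide +kernel)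
def c12522 : PP 9 3 T 0x40000101080000000000000000000008000000000000000000000000000000000000000001001000000000000000000000000000000000 := rS 0xce1c0c9bfe1f128408264fb2d6a6e39a21c26600a38b26989b350c7141bccbe79118a44a3d3e90422098ea35aeaf6ac462a2136acf684725d63dd9dd8fcfdb00649976677318ec3ef7248de9415 (k8 c11531 c12521 c5518 c5334 c5333 c5517 c5332 c5355 (k8 c5356 c12185 c12517 c12308 c12512 c5502 c5592 c12483 (k8 c12458 c5239 c5212 c5342 c5562 c12459 c5532 c5529 (k8 c5528 c5414 c5411 c5585 c5584 c5507 c5505 c5341 (k8 c5438 c9667 c8151 c5442 c8150 c9666 c8199 c9733 (k8 c5441 c5439 c5325 c1978 c10427 c5672 c12000 c958 (k8 c897 c2111 c5675 c8135 c5664 c2846 c2848 c9719 (k8 c2010 c2402 c8466 c2815 c3584 c2814 c12493 c5680 (k4 c10688 c5580 c12314 c11685 (k2 c12046 c2558 k0)))))))))) (by decide +kernel)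
def c12523 : PP 9 3 T 0x40000101080000000000000000000008000000000000000000000000000000000000000000001000000000000000000000000000000000 := rS 0x41a24e013379cd20497bd2886452e96c228d8aed08e4bac7bb3bb3f6c00ca15 (k8 c11531 c12517 c12512 c5502 c12185 c12458 c5239 c5212 (k8 c5342 c5562 c12459 c5414 c5505 c9667 c5474 c5321 (k8 c5326 c5478 c12521 c5333 c5334 c12522 c9824 c3038 (k4 c3036 c5666 c2873 c1977 (k1 c9450 k0))))) (by decide +kernel)
def c12524 : PP 9 3 T 0x49000000000000045000100000000000000000000000008000000001100000000000000001140000400001104000001001404400000010000000501001812 := rS 0xf0a68f6d2038fe50171c92eb0d7 (k8 c5507 c5212 c5342 c2470 c10373 c5648 c5318 c5432 (k4 c6923 c690 c10253 c5536 (k1 c12307 k0))) (by decide +kernel)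
def c12525 : PP 9 3 T 0x40000000000000041000100080000000000000000000000000000000900000000000000000000000000001101400000001401000000000000000040800000 := rS 0x6578dc080f09e93e9b2fb1cf2631e844fa15 (k8 c11531 c5442 c9667 c8150 c5355 c5441 c5357 c5439 (k8 c1066 c1465 c3598 c5457 c6202 c957 c5463 c9396 (k1 c1718 k0))) (by decide +kernel)
def c12526 : PP 9 3 T 0x40000101080000000000000000000008000000000000000000000000000000000000000000000000000000000000000000000000000000 := rS 0x3c29a690fc73280b8dc3e3ba502cc2930c8000a03891a0d69147b341a0f42324cbedf9c0133b1599b443154ec4768ff6aa2dae4725907dd5808bccbe09639e4c677d988f3a15 (k8 c11531 c12458 c9733 c12185 c5356 c5355 c5441 c5357 (k8 c5438 c5439 c5325 c9667 c5212 c5239 c8151 c5342 (k8 c5562 c5507 c5583 c5585 c5586 c12459 c5411 c5412 (k8 c5414 c5528 c5529 c5532 c12483 c5530 c12512 c5592 (k8 c5502 c12517 c12308 c12523 c9740 c2540 c2502 c2546 (k8 c849 c2543 c5871 c5675 c9741 c9743 c9744 c9701 (k8 c12414 c662 c12524 c5645 c5332 c5517 c5518 c12525 (k4 c5648 c5317 c5318 c6923 (k2 c3578 c5536 (k1 c12307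 k0)))))))))) (by decide +kernel)
def c12527 : PP 9 3 T 0x1001000000000042000200080000000000000000040008000000000000000001000000000000000204001000000800000020000000000140000000010020 := rS 0x193dc2e591d076523d698946a1b18824fa7f2b84d2e5f4a9d5269f0cb245215 (k8 c11531 c9692 c5396 c5393 c5448 c5444 c5440 c1955 (k8 c5439 c1126 c5564 c5353 c5358 c5442 c5438 c5476 (k8 c5475 c5324 c1092 c2085 c12427 c10214 c8904 c5654 (k4 c313 c1676 c1971 c3577 (k1 c492 k0))))) (by decide +kernel)
def c12528 : PP 9 3 T 0x1000000000000046000210080000000000000000040008000000000000010001000000004000000004000000001000000020000000000000000000000020 := rS 0xdff9b87c6b465b4a07ee588dfc2ff68b3104f53ca3d5e6f43a5cbe953aab512fd54a762a9959ed1929b088e41c57 (k8 c5353 c6008 c393 c10107 c5397 c5396 c5211 c5532 (k8 c5530 c5414 c5412 c9109 c1129 c5567 c1959 c5440 (k8 c1955 c5439 c1126 c2113 c5565 c1130 c5568 c5441 (k8 c5477 c5733 c8934 c1975 c2396 c5537 c2329 c12527 (k8 c9092 c5508 c8857 c8850 c9083 c5579 c3062 c5548 (k2 c2515 c8709 k0)))))) (by decide +kernel)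
def c12529 : PP 9 3 T 0x46000210080000000000000000040008000000000000010001000000004000000004000000001000000020000000000000000000000020 := rS 0x66171d0de521df0b30b3df68bdfd839088386a1b18bd4ae972fa54eafd54a7533b449865929b (k8 c5397 c5396 c5393 c5444 c5211 c5530 c5412 c9109 (k8 c1129 c5440 c1955 c5439 c1126 c5353 c5477 c5476 (k8 c5475 c5324 c6008 c10107 c393 c12528 c5498 c5501 (k8 c10390 c473 c3617 c8772 c1953 c11596 c2329 c5654 (k2 c1676 c492 (k1 c3577 k0)))))) (by decide +kernel)
def c12530 : PP 9 3 T 0x1000000000000000000010000000000000000000040008000000000000000001000000000000000004000000001000000020000000000000000000004000 := rS 0x2d04f50086dfbb4 (k8 c5211 c1129 c5475 c1056 c5477 c5733 c2309 c12500 k0) (by decide +kernel)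
def c12531 : PP 9 3 T 0x46000210080000000000000000040008000000000000010001000000004000000004000000001000000020000000000000000000000000 := rS 0x1d879efec1905e52020e83c0ac90ca4c6af318bd446010da5cbe953abf553b4 (k8 c5211 c9109 c1129 c5440 c1955 c5439 c1126 c5475 (k8 c1056 c9733 c5477 c5476 c5325 c5324 c5444 c5393 (k8 c5396 c12529 c9739 c1954 c5642 c9240 c1107 c3577 (k4 c12530 c5498 c5816 c492 (k1 c8815 k0))))) (by decide +kernel)
def c12532 : PP 9 3 T 0x1000000000000005000010080000000000000000000008000000000000000000000000004100000005001100001000000020000000000100000000000020 := rS 0x2c9a031659a3362f78ba352d8c4ae874b97d2a75 (k8 c5440 c1955 c5439 c1126 c2113 c5353 c5476 c5474 (k8 c5324 c5321 c10944 c5451 c5492 c5495 c9442 c10897 (k2 c8934 c714 (k1 c1067 k0)))) (by decide +kernel)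
def c12533 : PP 9 3 T 0x1000000000000045000210080000000000000000040008000000000000010000000000004000000004000000001000000020000000000000000000000020 := rS 0x781343b500f87a3749106521c19095be585a32d170358c740fee0bf7d90ff41174365f049f4fe754084d1eaf37ab512fd54a762a99da064224b1c838ae15 (k8 c11531 c5353 c6008 c393 c10387 c10107 c9698 c5211 (k8 c5530 c5414 c5412 c9109 c1129 c5567 c1959 c5565 (k8 c1130 c5568 c5564 c5380 c5440 c5358 c5442 c5438 (k8 c5439 c5475 c5321 c5733 c2396 c12532 c5494 c1064 (k8 c12440 c714 c5504 c5506 c5508 c5583 c1324 c9083 (k8 c10689 c2515 c1095 c12275 c313 c5316 c544 c2062 (k8 c8495 c1570 c3569 c327 c495 c1199 c5654 c5536 k0))))))) (by decide +kernel)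
def c12534 : PP 9 3 T 0x2000000000000005000000080000000000000000000008000000000000000000000000000100000005001100000000000020010000000100000000000020 := rS 0x164d0199a3362f78ba352d8c4ae972fa54ead1 (k8 c5501 c5440 c1955 c5439 c1126 c5353 c5476 c5474 (k8 c5324 c5321 c10944 c5451 c5492 c5495 c10897 c8724 (k2 c714 c1067 k0))) (by decide +kernel)
def c12535 : PP 9 3 T 0x45000210080000000000000000040008000000000000010000000000004000000004000000001000000020000000000000000000000020 := rS 0x22e3beeefb20b2f7f60e4220e0d97c127d3f95cea814684d128f54a7533b4 (k8 c5211 c5530 c5412 c9109 c5568 c5567 c5564 c5381 (k8 c5380 c5440 c5353 c5358 c5442 c5438 c5439 c5475 (k8 c6008 c10107 c393 c12533 c5498 c473 c12534 c5494 (k4 c12440 c5504 c5583 c12506 k0)))) (by decide +kernel)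
def c12536 : PP 9 3 T 0x5000000000000000000000000040008000000000000000001000000014140000000000004005401500020400000000100000410400000 := rS 0x1d9e830cd19b17bc350d8c52e95 (k8 c1955 c1126 c5476 c5475 c5324 c10944 c5451 c5492 (k4 c5495 c3577 c3607 c491 (k1 c10458 k0))) (by decide +kernel)
def c12537 : PP 9 3 T 0x44000210080000000000000000040008000000000000010001000000004000000004000001001000000020000000000000000000000000 := rS 0x5607848700d8f6df718ec31e294f7d91ef1ca0c3c0a7fb45ee270ba4fd8020e83c0bb18aa7768a979bd4be09639f4f2773a88d028d8984d128f0086d0efd (k8 c1129 c2113 c5475 c1056 c5568 c5567 c5564 c5382 (k8 c5381 c5380 c9733 c5440 c5356 c5441 c5442 c5357 (k8 c5438 c5439 c5477 c5325 c9109 c5211 c5412 c5414 (k8 c12531 c12535 c9739 c1954 c5642 c12530 c261 c1107 (k8 c267 c5498 c5501 c5544 c12505 c5816 c2309 c2470 (k8 c8783 c12536 c5494 c11589 c5196 c5648 c12293 c5466 (k8 c5580 c10458 c1165 c5846 c11714 c1483 c10038 c5560 k0))))))) (by decide +kernel)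
def c12538 : PP 9 3 T 0x1000000000000046000011000000000000000000080008000000000000010000000000000000000050000000401000000020000000000000010000000000 := rS 0x9503f72c5a41c7fca55282da3c486457986dea2355bf43e47 (k8 c5520 c5517 c1129 c8880 c9733 c5477 c5475 c5325 (k8 c5326 c5478 c9695 c5238 c5733 c5531 c9578 c2396 (k4 c10456 c8904 c4466 c9092 (k2 c5508 c9072 (k1 c8928 k0))))) (by decide +kernel)
def c12539 : PP 9 3 T 0x50000211000000000000000000080008000000001000001000000000000000000004000001000000000020000004000000000010010020 := rS 0x7cd6aa959880d40c8984d1e6734abcdead4483c1615 (k8 c11531 c5516 c5329 c5567 c1959 c5565 c1130 c124 (k8 c63 c5568 c5564 c5382 c8854 c316 c315 c2377 (k4 c2376 c2608 c12009 c5685 k0))) (by decide +kernel)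
def c12540 : PP 9 3 T 0x52000001080000000000000000080008000000000000000000000000010000000200000001001000000020000000000000000000000020 := rS 0x38c7c9d209a952265a2ceb3f325076523d08b4c4b150d824fa7f2ba0427a04b97d2a7588bf59e8755ecf3a7949a7d92991481cc215 (k8 c11531 c5445 c713 c9692 c5447 c5396 c5448 c5444 (k8 c5441 c12458 c12185 c8880 c2113 c11551 c1129 c1269 (k8 c5440 c1955 c5439 c1126 c12526 c5564 c5380 c5353 (k8 c5358 c5442 c5438 c5475 c1294 c1092 c2085 c720 (k8 c12427 c10214 c8915 c12539 c5546 c5342 c2455 c5685 (k8 c5651 c2184 c8714 c349 c1135 c3569 c10055 c408 k0)))))) (by decide +kernel)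
def c12541 : PP 9 3 T 0x48000000000000012000000080000000000000000000000000000000000011000000040014000000405000000010800004020000000000000000000000000 := rS 0xd2664553a6a3cabd2e5f4a9d622ad64a6d3303 (k8 c5508 c5447 c5397 c5396 c1959 c1269 c5440 c1955 (k8 c5439 c1126 c1130 c5441 c8722 c1135 c1139 c3617 (k2 c8857 c12473 k0))) (by decide +kernel)
def c12542 : PP 9 3 T 0x8000000000000012000000080000000000000000080000000000000000011000000000014000000004000000010800004020000008000100000000000020 := rS 0xd3d9b150df1d87cc29901fcd6629 (k8 c9692 c2455 c5546 c54 c5447 c5445 c5517 c5332 (k4 c2510 c12541 c1958 c742 (k2 c2427 c11968 k0))) (by decide +kernel)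
def c12543 : PP 9 3 T 0x4a000400000000012000000080000000000000000000000000000000000011000000000004000000405000000010800004020000000000000000000000000 := rS 0x16be38ab78d4af88ab5929b68bfdaed5 (k8 c5585 c5507 c5544 c5501 c5397 c5396 c1959 c1269 (k4 c1130 c8722 c12541 c1139 (k2 c5580 c2514 (k1 c10153 k0)))) (by decide +kernel)
def c12544 : PP 9 3 T 0x52000001080000000000000000000008000000000000010000000000000000000000000001001000000020000000000000000000000020 := rS 0x20b2848df3889e28b5540e16759f992905df6ac0fdcb121915e6f52f9f4fe633a9cd028d89bf48e9f50985a2fff60a694cf439e556f156a255e6f47e833bb3 (k8 c12185 c12458 c12526 c5568 c5565 c1130 c5567 c1959 (k8 c9695 c8880 c5441 c2113 c11551 c12537 c9692 c12538 (k8 c5544 c5501 c5445 c5398 c5448 c5520 c1129 c5382 (k8 c5381 c5380 c5379 c5440 c5355 c5358 c5442 c5439 (k8 c5477 c5325 c5326 c5478 c12540 c9092 c5508 c5585 (k8 c5725 c8783 c9072 c5546 c5342 c2455 c12542 c12543 (k8 c2614 c5685 c354 c3048 c2950 c5651 c3599 c547 (k1 c1091 k0)))))))) (by decide +kernel)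
def c12545 : PP 9 3 T 0x42000001080000000000000000000008000000000000010000000000000000000000000001001000000020000000000000000000000020 := rS 0x4a81fb962d20e4a55221da3ffd82921915e61b7a88d1eaf37ab512fd0fbdc8f4a67a1cf3a055e7766f1 (k8 c9695 c12185 c12458 c8880 c12526 c5441 c2113 c11551 (k8 c12537 c5520 c5333 c5517 c1129 c5567 c1959 c5565 (k8 c1130 c5568 c9733 c5477 c5475 c5325 c5326 c5478 (k8 c9692 c12538 c5544 c12544 c5528 c5531 c9578 c3581 (k4 c8915 c4466 c9092 c5508 (k2 c9072 c8928 k0)))))) (by decide +kernel)
def c12546 : PP 9 3 T 0x20000000000000000000000000080008000000000000001001000000000000000000000000000000000000000000000000000410000000 := rS 0x54bcc36f5 (k4 c5477 c5475 c5325 c5531 (k1 c10456 k0)) (by decide +kernel)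
def c12547 : PP 9 3 T 0x50000211000000000000000000080008000000001000014000000000000000000001000000000000000000000004000000005200000000 := rS 0x2ca05f38e846b02921915e6f57b9248eb5 (k8 c2609 c5520 c5334 c5333 c5477 c5325 c5326 c5478 (k8 c540 c5651 c5558 c5341 c12008 c3593 c5685 c2460 k0)) (by decide +kernel)
def c12548 : PP 9 3 T 0x42000001080000000000000000000008000000000000010000000000000000000001000001001000000020000000000000000000000000 := rS 0x38dc2b26ffcc944169c5561ef3da0d6a6c103cdea7d40a3626894787dee9f30a644a6f1384c64170100526191ab252a754b97c36317ffb36a1d02d299e873ce8156fd11bc7679d (k8 c12458 c12185 c9695 c9733 c1129 c8880 c12526 c5441 (k8 c2113 c11551 c12537 c12545 c1954 c12546 c5238 c5544 (k8 c5476 c5475 c5439 c1126 c5440 c1955 c5396 c5324 (k8 c5393 c5444 c1056 c5642 c1107 c3577 c5564 c267 (k8 c5565 c1113 c5447 c5445 c5448 c5333 c5517 c5568 (k8 c5567 c5382 c5381 c5380 c5442 c5477 c5325 c3581 (k8 c266 c2609 c2430 c742 c8783 c9092 c1294 c2085 (k8 c545 c12547 c5546 c2511 c5685 c2898 c2458 c5846 k0)))))))) (by decide +kernel)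
def c12549 : PP 9 3 T 0x40000000000000000000000000000000000000000000000000000000800000000000000000000000000000000000000008005001000000 := rS 0x14d647d1c (k4 c2185 c2186 c5341 c404 (k1 c5651 k0)) (by decide +kernel)
def c12550 : PP 9 3 T 0x4000000000000054000000000000000000000000000000000000000500000000000000400040000002004101400155000020000000000000000000000000 := rS 0x1bee370c0964b036208d667 (k8 c63 c2376 c1957 c1958 c9092 c10370 c2183 c2898 (k2 c2458 c2517 (k1 c3610 k0))) (by decide +kernel)
def c12551 : PP 9 3 T 0x42000001080000000000000000000008000000000000010000000000000000000000000001001000000020000000000000000000000000 := rS 0x8afcd66282540d631df735cf6b5362a1ffecda8c84e250bca4041d02a64c2c90ca7d2643228d5e6317ab1cfa7f11a06261337a3c021b4b97d2a7588ab512fd7b9248f4a67a1cf3a055e7766f1 (k8 c9695 c12185 c12458 c8880 c12526 c5441 c2113 c11551 (k8 c12537 c5520 c5334 c5333 c1129 c5567 c1959 c1269 (k8 c5440 c1955 c5439 c1126 c5475 c1056 c5568 c5565 (k8 c5564 c5382 c5380 c9733 c5358 c5442 c5357 c5477 (k8 c5476 c5325 c5324 c5326 c5478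 c5444 c5448 c5393 (k8 c5396 c5445 c5447 c12545 c1954 c5642 c9240 c1107 (k8 c1113 c267 c3577 c12546 c5238 c5544 c12548 c1958 (k8 c2615 c742 c12549 c12550 c5504 c5506 c5508 c9072 (k4 c9423 c12172 c5546 c1289 (k1 c5685 k0)))))))))) (by decide +kernel)
def c12552 : PP 9 3 T 0x2000800000000011000010080000000000000000080008000000000000000001000000000000000005000000001000000020000000000000000000000020 := rS 0x1360c0b1a840060eca4b3e119b14ba357996c36317a97cae751199dfa1f07bdc1637 (k8 c5518 c5516 c5333 c5329 c5517 c1129 c63 c9733 (k8 c5440 c5353 c5439 c5477 c5476 c5475 c5474 c5325 (k8 c5324 c5321 c5451 c5492 c6344 c9442 c10382 c9172 (k4 c10897 c3581 c12152 c714 (k2 c2371 c10952 (k1 c10916 k0)))))) (by decide +kernel)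
def c12553 : PP 9 3 T 0x2000000000000055000010080000000000000000080008000000000400010001000000000000000005000001511100004020000000000000000000040020 := rS 0x4a7c63e1e904222612c556759f99a99607252096217f7323be4322bcc36f52f824fa7f2b9d50f11238a5fe15 (k8 c11531 c5544 c9692 c5520 c1269 c2113 c5440 c5353 (k8 c5358 c5442 c5438 c5439 c5477 c5475 c5325 c5326 (k8 c5478 c12552 c10944 c12440 c1064 c5506 c8783 c9072 (k8 c714 c1324 c8722 c5546 c5342 c2455 c1139 c5803 (k8 c5651 c720 c350 c2861 c3569 c5576 c5318 c5226 k0))))) (by decide +kernel)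
def c12554 : PP 9 3 T 0x4000000000000051000001080000000000000000080008000000000000001000000000000000000000000001000800002420000000000000000000000020 := rS 0x44961d12c5565de5806cbe093e9fcae754084f411155e776629 (k8 c9692 c12185 c12458 c8880 c1269 c12526 c5564 c5380 (k8 c5440 c5353 c5358 c5442 c5438 c5439 c5475 c9092 (k8 c12440 c10370 c1294 c1092 c9172 c2455 c720 c12539 k0))) (by decide +kernel)
def c12555 : PP 9 3 T 0x50000001080000000000000000000008000000000000010000000000000000000000000001001000000020000000000000000000000020 := rS 0x1c9ec0e980bb23bed5f7034d682362a3d81b2f8258e7f2b9d5028d8984cde894799e22fd1d83c1637a533d0e79d02af3bb378ec40619 (k8 c9698 c54 c12551 c9695 c12185 c12458 c8880 c12526 (k8 c5441 c2113 c11551 c12537 c5518 c5516 c5329 c5332 (k8 c1129 c1269 c63 c5568 c5567 c5565 c5564 c5382 (k8 c5381 c5380 c5440 c5353 c5358 c5357 c5438 c5439 (k8 c5475 c5238 c12553 c1958 c1957 c2376 c2427 c12554 (k8 c5585 c5725 c10944 c1064 c2066 c714 c1594 c2437 (k1 c3568 k0))))))) (by decide +kernel)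
def c12556 : PP 9 3 T 0x40000001080000000000000000000008000000000000010000000000000000000000000001001000000020000000000000000000000020 := rS 0x253fe06b1f777c39b41490c8af30dbd4be093e9fcae7511a0426af37ab512fd0f91e94cf439e740abceecde3b1 (k8 c12551 c9695 c12185 c12458 c8880 c12526 c5441 c2113 (k8 c11551 c12537 c5520 c5517 c1129 c5567 c1959 c5565 (k8 c1130 c5564 c5380 c9733 c5440 c5353 c5358 c5442 (k8 c5438 c5439 c5477 c5475 c5325 c5326 c5478 c9692 (k8 c12555 c12546 c9172 c12440 c5506 c5508 c5586 c9072 (k1 c8928 k0)))))) (by decide +kernel)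
def c12557 : PP 9 3 T 0x40000001080000000000000000000008000000001000010000000000000000000001000001001000000020000000000000000000000000 := rS 0x4e32133e11986650b2acfcd6a9b251b040352d8c5ea974a9d417b1498242e5f129bc4e020086c26d17ffb36a1d02d299e873ce8156fd11bc7679d (k8 c12458 c12185 c9695 c9733 c1129 c8880 c12526 c5441 (k8 c2113 c11551 c12537 c12556 c1954 c12546 c5238 c5544 (k8 c5501 c5564 c5475 c1056 c5642 c267 c5565 c1113 (k8 c5439 c1107 c5438 c261 c12551 c5516 c5440 c1955 (k8 c1126 c5477 c5476 c5474 c5324 c10419 c266 c12547 (k8 c2491 c2609 c5546 c5342 c5685 c12131 c5315 c5316 (k4 c6290 c12125 c3577 c5679 (k1 c1275 k0)))))))) (by decide +kernel)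
def c12558 : PP 9 3 T 0x42000800000000051000200080000000000000000080008000000000000000000000000000000000800000005000000002000000000000000000400400000 := rS 0x35eb1e294f85ee37 (k8 c5518 c5333 c6344 c10382 c5198 c12131 c5465 c9525 k0) (by decide +kernel)
def c12559 : PP 9 3 T 0x4000000000000040000001080000000000000000000008000000000000010000000000000000000000000001001000000020000000000000000000000000 := rS 0x384f6df71a63c4cc6477fe6b2811b15115581f5031347a5d2a7588ec526090b808021b2ffb36a1d02d299e873ce8156fd11bc7679d (k8 c12458 c12185 c9695 c9733 c1129 c8880 c12526 c5441 (k8 c2113 c11551 c12537 c12556 c1954 c12546 c5238 c5439 (k8 c5475 c1056 c5642 c1107 c5438 c261 c12551 c1269 (k8 c5440 c1955 c1126 c5568 c5382 c5380 c5442 c9092 (k8 c1294 c12557 c1958 c2183 c2184 c5550 c12558 c10944 (k8 c5268 c5196 c2066 c4649 c5580 c1594 c1598 c5846 k0)))))) (by decide +kernel)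
def c12560 : PP 9 3 T 0x40000001080000000000000000000008000000000000010000000000000000000000000001001000000020000000000000000000000000 := rS 0xdf70b8cf698661b1509d8ab20504aefb5606b18efb84e25010740bb123d29e24322bcdea7d3f88d028d8984d1e010dabcde972fa54eaad44e819e8755ecf3a79 (k8 c5441 c12458 c12185 c8880 c2113 c11551 c12526 c5567 (k8 c1959 c5440 c1955 c5439 c1126 c5565 c1130 c5475 (k8 c1056 c5568 c5564 c5382 c5381 c5380 c9733 c5358 (k8 c5442 c5477 c5325 c5326 c5478 c9695 c12537 c5520 (k8 c12551 c12556 c1954 c5642 c1113 c267 c12559 c5504 (k8 c5506 c5508 c5585 c5725 c9072 c3582 c10944 c1289 (k8 c1275 c12557 c1958 c5268 c2066 c743 c2623 c1598 (k2 c4645 c5846 k0)))))))) (by decide +kernel)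
def c12561 : PP 9 3 T 0x44000210080000000000000000040008000000000000010001000000004000000004000002001000000020000000000000000000000000 := rS 0xac920200a13fb0040f02c5763b41184c021b (k8 c5475 c1056 c5564 c9733 c5211 c12531 c5414 c12535 (k8 c9739 c5642 c12530 c267 c12505 c694 c695 c5558 (k1 c10038 k0))) (by decide +kernel)
def c12562 : PP 9 3 T 0x44000000000000056000010000000000000000000000008000000000000010041000040014000000415000010001150040020404001000000000040044520 := rS 0x1f905c626252747ab43508022258a87560f30dbd4466749a7c520730f8536c94ba65fa15 (k8 c11531 c1129 c5447 c1126 c5396 c5397 c8772 c5445 (k8 c713 c9692 c5448 c5444 c63 c9733 c5477 c5475 (k8 c5325 c9092 c8883 c1294 c1092 c12157 c3581 c12152 (k8 c5685 c12427 c1135 c2608 c2609 c10055 c349 c408 (k1 c3569 k0))))) (by decide +kernel)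
def c12563 : PP 9 3 T 0x40000000000000050000010000000000000000000000008000000100000011041000000000000000401000000151000044040000000000000000050044420 := rS 0x22a103516486452e96c4615 (k8 c11531 c9733 c5474 c5321 c5326 c5478 c313 c12152 (k2 c3572 c1139 (k1 c12157 k0))) (by decide +kernel)
def c12564 : PP 9 3 T 0x56000210000000000000000000080008000000000000010001000000004040000005000002001051100024404000000000000000000120 := rS 0x4870139b2287b4e3899ae1f1b4839592577daa8b81b5e3beef090c8af37a9cd028d099bcce974aab512fdf9b7da25b59c443e0f7b924164764a6d3229 (k8 c9692 c5447 c5397 c5396 c5520 c5516 c5334 c5333 (k8 c5329 c5517 c1269 c2897 c5474 c9793 c2948 c5589 (k8 c1129 c5567 c1959 c1955 c1126 c63 c5565 c5564 (k8 c5381 c5380 c5379 c5477 c5325 c5326 c5478 c8772 (k8 c12562 c5504 c5507 c5508 c5583 c5585 c5725 c9072 (k8 c5342 c12563 c8893 c5579 c3062 c12473 c11547 c8710 (k4 c1775 c1778 c8792 c3046 (k2 c746 c5651 (k1 c5731 k0))))))))) (by decide +kernel)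
def c12565 : PP 9 3 T 0x56000210000000000000000000080008000000000000010001000000004040000004000002001051100024404000000000000000000120 := rS 0x7be36932c7e24ac906524a138e3dc7b8a034d682362a0864579bd4ce9756a25beb3888ec1e49058dc8ea1018a40e61 (k8 c5445 c713 c9692 c54 c5398 c5520 c5518 c5516 (k8 c5334 c5329 c5332 c1269 c2897 c2948 c5567 c1959 (k8 c1126 c63 c5477 c5325 c5326 c5478 c12564 c1958 (k8 c1957 c2376 c2427 c747 c742 c10370 c3568 c3046 (k8 c9072 c5317 c547 c5342 c5651 c2909 c1091 c8156 (k2 c5579 c2768 (k1 c5655 k0))))))) (by decide +kernel)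
def c12566 : PP 9 3 T 0x62000001080000000000000000000008000000000000010000000000000000000000000000001000000020000000000000000000000000 := rS 0xf0fbc38a98aa74127d2b88c26972fa54eaad44bf7e6df3fb44b6b388926949067a1cf3a055e7766f164a6d3215 (k8 c11531 c5447 c5397 c5396 c9695 c12185 c12458 c8880 (k8 c12526 c5441 c2113 c11551 c12560 c12561 c5334 c1269 (k8 c2897 c5474 c9793 c5358 c2948 c5589 c1129 c5567 (k8 c1959 c5440 c1955 c5439 c1126 c5564 c9733 c5353 (k8 c5442 c5438 c5412 c5414 c5531 c12546 c12474 c8772 (k1 c8883 k0)))))) (by decide +kernel)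
def c12567 : PP 9 3 T 0x2000000000000054000001000000000000000000000008000000000000001040000000000000000015000002000000004020000000000000000440040410 := rS 0x473dc2958881e24322bccb6f57fa1d67110e808021b (k8 c5475 c1056 c5642 c1954 c1269 c2897 c2113 c3009 (k8 c5477 c5474 c5325 c5326 c5478 c9695 c10419 c10346 (k4 c541 c9092 c9423 c5504 k0))) (by decide +kernel)
def c12568 : PP 9 3 T 0x42000001080000000000000000000008000000000000010000000000000000000000000000001000000020000000000000000000000000 := rS 0x23a29f7451626b411b1501d02fb36a432286cbe09639f4fe57319d446133799d5a897eace221f7b82e949067a1cf3a055e7766f1 (k8 c9695 c12185 c12458 c8880 c12526 c5441 c2113 c11551 (k8 c12560 c12561 c5516 c5333 c5517 c1269 c2897 c1129 (k8 c5567 c1959 c63 c5565 c5564 c9733 c5440 c5355 (k8 c5353 c5358 c5442 c5357 c5438 c5439 c5475 c5326 (k8 c5478 c12566 c5238 c12565 c1954 c12567 c1958 c1957 (k4 c2376 c2184 c747 c10370 (k2 c1289 c5504 (k1 c9423 k0)))))))) (by decide +kernel)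
def c12569 : PP 9 3 T 0x42000000000000055000010080000000000000000080008000000000000010001000000000000000405000000111100044020000000000000000000040020 := rS 0x3c4d2948cab21c2522e3bee6477c86457986dea5f049f4fe573a99dfa1f07bdc1647 (k8 c5520 c5516 c5333 c5329 c5517 c1129 c63 c5440 (k8 c5353 c5358 c5442 c5438 c5439 c5477 c5475 c5325 (k8 c5326 c5478 c12552 c10944 c12440 c5504 c5583 c9072 (k4 c12563 c5342 c2061 c5316 (k2 c8946 c5226 (k1 c5579 k0)))))) (by decide +kernel)
def c12570 : PP 9 3 T 0x50000001080000000000000000000008000000000000010000000000000000000000000000001000000020000000000000000000000020 := rS 0x727b03a613a176477dabee069ad046c547b0365f04b1cfe573a9cd028d099bd1267f9ace223b0782c6f4a4833d0e79d02af3bb378ec40619 (k8 c9698 c54 c12568 c9695 c12185 c12458 c8880 c12526 (k8 c5441 c2113 c11551 c12560 c12561 c5518 c5516 c5329 (k8 c5332 c1269 c2897 c5589 c63 c5567 c5565 c5564 (k8 c5381 c5380 c5379 c5440 c5353 c5358 c5357 c5438 (k8 c5439 c5475 c5238 c12569 c1958 c1957 c2376 c2427 (k8 c10370 c5585 c5725 c10944 c1064 c1275 c2066 c714 (k2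 c743 c2437 (k1 c3568 k0)))))))) (by decide +kernel)
def c12571 : PP 9 3 T 0x40000001080000000000000000000008000000000000010000000000000000000000000000001000000020000000000000000000000020 := rS 0x4a81ac7dddf0e6d0524322bcc36f52f824fa7f2b9d4468109abcdead44bf5fe1f23d2920cf439e740abceecde3b1 (k8 c12568 c9695 c12185 c12458 c8880 c12526 c5441 c2113 (k8 c11551 c12560 c12561 c5520 c5517 c3009 c1129 c5567 (k8 c1959 c5565 c1130 c5564 c5380 c9733 c5440 c5353 (k8 c5358 c5442 c5438 c5439 c5477 c5475 c5325 c5326 (k8 c5478 c9692 c12570 c12546 c9172 c12440 c5506 c5508 (k2 c9072 c8928 k0)))))) (by decide +kernel)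
def c12572 : PP 9 3 T 0x40000001080000000000000000000008000000000000010000000000000000000000000000001000000020000000000000000000000000 := rS 0x47453ee8a2c4d682362a3d82712ed4041d0282dee1fa52cd20f12191446133380436af37c455a89d03f59e8755ecf3a79 (k8 c5441 c12458 c12185 c8880 c2113 c11551 c1129 c12526 (k8 c5567 c1959 c1269 c5565 c1130 c5475 c1056 c63 (k8 c5564 c9733 c5326 c5478 c9695 c12560 c2897 c12561 (k8 c5517 c5333 c5516 c12571 c1954 c5642 c12546 c1113 (k8 c267 c5238 c12567 c1958 c1957 c2376 c2184 c747 (k4 c10370 c1289 c5504 c3582 k0)))))) (by decide +kernel)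
def c12573 : PP 9 3 T 0x40000001080000000000000000000008000000000000000000000000000000000000000000001000000020000000000000000000000000 := rS 0x41fb600abceecd13a0 (k8 c12526 c5567 c12185 c12458 c8880 c12572 c5502 c1977 (k1 c5733 k0)) (by decide +kernel)
def c12574 : PP 9 3 T 0x200080000000000000000000000000000000000002000000000410000000200000401000004000000000000000000000000000000 := rS 0x1c6e16fbf9687d3ca06268f (k8 c5568 c5382 c5380 c5441 c5442 c1335 c1336 c2514 (k2 c3013 c2575 (k1 c5846 k0))) (by decide +kernel)
def c12575 : PP 9 3 T 0x46000200080000000000000000000008000000000100000001000000000000000000001001002000001020000000000000000000000810 := rS 0x6fb85c6b423104511df72c43cfc351eda23b6b8c936c90c90c8a35189f4f27f31a06268f4ba54eaad44b343a3963a4c12172f894de27010043613 (k8 c5564 c5475 c1056 c5642 c267 c5565 c1113 c5439 (k8 c1107 c5438 c261 c5357 c2470 c1954 c2502 c5567 (k8 c1959 c5440 c1955 c1126 c5568 c5382 c5380 c5355 (k8 c5358 c5441 c5442 c5476 c5324 c5326 c5478 c5393 (k8 c5396 c5397 c3577 c12549 c493 c2130 c691 c10556 (k8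 c2542 c2305 c12574 c9092 c5504 c9423 c544 c1312 (k4 c1311 c2348 c2789 c2514 (k1 c3610 k0)))))))) (by decide +kernel)
def c12576 : PP 9 3 T 0x45000200000000000000000000040008000000001000001081000000000140000404000005002051100020400000000100005550400000 := rS 0x1b125c1e1acb7dc6d7f10ee52183d8cd8bde1a86c628189a3d5e6f4ba555a89 (k8 c5567 c1959 c1955 c1126 c5565 c1130 c5568 c5382 (k8 c5380 c5476 c5475 c5324 c10944 c5451 c5492 c847 (k8 c3577 c5315 c491 c11744 c5465 c5466 c5580 c9525 (k4 c10517 c3610 c10038 c5654 (k1 c1484 k0))))) (by decide +kernel)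
def c12577 : PP 9 3 T 0xa000000000000000200000000000000000000000000000000000000000000000000000000000000000001000005000000000000000000000000000000 := rS 0x1be8f (k2 c5568 c5538 (k1 c10517 k0)) (by decide +kernel)
def c12578 : PP 9 3 T 0x4000000000000045000200000000000000000000000000000000000000010000000000000240000004000000002051100020400000000000000000000000 := rS 0x3819cdf71f84f7e268f7d031347fb59a91 (k8 c850 c2502 c5541 c5568 c5382 c5380 c5494 c2133 (k8 c5196 c848 c12577 c5466 c5580 c12285 c3610 c1653 k0)) (by decide +kernel)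
def c12579 : PP 9 3 T 0x40000001080000000000000000040008000000000000001000000000000100000000000001000000000020000000000000000000000000 := rS 0xf60f9acfa793f9d4471510acc3a3963a4c1217129bc4e020086c27b105035e605079b7689df6aa4d2972fa1222abcee8366f1 (k8 c9695 c12185 c12526 c12458 c8880 c1269 c12573 c5439 (k8 c1126 c124 c2449 c5541 c10719 c5238 c5529 c9740 (k8 c6008 c5325 c2540 c5645 c12575 c5564 c5475 c1056 (k8 c5642 c267 c5565 c1113 c1107 c5438 c261 c5357 (k8 c2470 c1954 c5532 c5528 c5414 c9733 c5440 c5358 (k4 c5441 c5442 c2542 c11726 (k2 c12418 c12576 k0))))))) (by decide +kernel)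
def c12580 : PP 9 3 T 0x4000000000000040000001080000000000000000040008000000000000010000000000000000000000000000000000000020000000000000000000000000 := rS 0x1bccb71b843cfe5a1a9f8183d8cdaacf62f7992b01a8c58e7d3c9fd031347a54ea1d498242e020086f620a06bcc0a0f489b7689df6aa4d2972fa1222abcee8366f1 (k8 c9695 c12185 c12526 c12458 c8880 c1269 c12573 c5439 (k8 c1126 c124 c2449 c5541 c10719 c5238 c5529 c850 (k8 c9740 c6008 c5325 c2540 c5645 c12575 c5475 c1056 (k8 c5642 c1107 c5438 c261 c1954 c5440 c1955 c5568 (k8 c5382 c5380 c5358 c5441 c5442 c5357 c5476 c5324 (k8 c9092 c12578 c10944 c5451 c5453 c5454 c5492 c847 (k8 c3577 c12579 c1128 c1335 c1336 c2305 c3012 c2574 (k2 c4101 c3610 (k1 c2515 k0))))))))) (by decide +kernel)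
def c12581 : PP 9 3 T 0x20000001000000000000000100040008000000100000055000000000000000000154000000002000000020000001000000000000000010 := rS 0x23fcdecb40f9ade3ed07aa4d31559808021b (k8 c5475 c1056 c5642 c5532 c5414 c124 c2449 c9740 (k8 c5541 c9695 c2542 c11726 c3623 c12418 c5548 c2345 (k1 c8188 k0))) (by decide +kernel)
def c12582 : PP 9 3 T 0x40000001080000000000000000040008000000000000010000000000000000000000000000000000000020000000000000000000000000 := rS 0x1c44670b7c3cce4d1a9f87b68926b2c81477dfed558c77ddb10e8280af121914367d3c9fcea2340a34268f579be22ad4483c1af381c4f409d549a556972f9b769edd9e752284 (k8 c12573 c850 c12458 c12185 c5541 c5238 c5529 c5439 (k8 c1126 c8880 c124 c2449 c10719 c12526 c5382 c2629 (k8 c5325 c2540 c9740 c5567 c1959 c1269 c5565 c1130 (k8 c5568 c5564 c5381 c5380 c9733 c5440 c5358 c5441 (k8 c5442 c5475 c5326 c5478 c9695 c6008 c5645 c1954 (k8 c12575 c12580 c5504 c5506 c5585 c5586 c5725 c9423 (k8 c10944 c5339 c509 c2133 c848 c12581 c1128 c1180 (k4 c1181 c2305 c2564 c1653 (k2 c1312 c5846 (k1 c4604 k0)))))))))) (by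 decide +kernel)
def c12583 : PP 9 3 T 0x4000000000000044000010000000000000000000000008000000000400010000000000000000000004000000012000000020000000000000000000040420 := rS 0x809496b02e86fda0d79c0d2215 (k8 c11531 c850 c2629 c5325 c2540 c5541 c5475 c5321 (k4 c9092 c9182 c1092 c8853 (k1 c720 k0))) (by decide +kernel)
def c12584 : PP 9 3 T 0x400000000000000200080000000000000000000000000000000000010004000440500000000000000000042004000000000000000440000000000440 := rS 0xd368380707d3c9fcae773aa051b1344a3fda0f06b358e91 (k8 c850 c5357 c2502 c2540 c9740 c5541 c5568 c5567 (k8 c5382 c5381 c5380 c5440 c5356 c5353 c5358 c5441 (k4 c5442 c11223 c5846 c6897 (k2 c3062 c8163 k0)))) (by decide +kernel)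
def c12585 : PP 9 3 T 0x48000000000000002000200080000000000000000000000000000000000010004000440000000000010001040002000000000000000000440000000000440 := rS 0xe1f1b29a6d03d35d17df469fcead5 (k8 c5585 c5440 c5358 c5381 c5725 c5583 c5507 c12584 (k4 c848 c2135 c8156 c5464 (k2 c1718 c8355 k0))) (by decide +kernel)
def c12586 : PP 9 3 T 0x40000000100000000000000080000000000440000000000000000000000800000000000000000021000000100000000000000005004 := rS 0xbdc871724bb13c164d (k8 c5521 c5516 c5335 c3103 c3102 c764 c3275 c920 (k1 c3575 k0)) (by decide +kernel)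
def c12587 : PP 9 3 T 0x220000000000000000000800000080000000000000000000000000000000000000000000000000000000000000000000000000400000000 := rS 0x176b91087c9e4d (k4 c5521 c5335 c5517 c5528 (k2 c5415 c5430 (k1 c8139 k0))) (by decide +kernel)
def c12588 : PP 9 3 T 0x60000000000000000000800000080008000000100004000000000000000000000000000000000000020000000008000000002400005004 := rS 0x188bb2fb72bdc2c6fee5315eaca36f8f9b56f23 (k8 c5010 c5533 c5529 c5345 c5349 c5350 c5600 c5601 (k8 c5605 c8941 c2687 c1096 c2762 c12587 c5687 c3103 (k2 c12586 c3280 k0))) (by decide +kernel)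
def c12589 : PP 9 3 T 0x140000000081000000000400100000000000100000000000000000000000004000000000000000100000000000000020000000000000000 := rS 0x1e5d6b05d4ed2aea7eda4c7de4fa7f (k8 c5358 c5442 c5359 c5443 c5213 c5233 c5388 c5636 (k4 c5639 c9954 c548 c1742 (k2 c5623 c5656 k0))) (by decide +kernel)
def c12590 : PP 9 3 T 0x62000000081000000000400000000000000100000000000000000000000000001000000001000100000000000118020200000000020020 := rS 0x119c2c5cab248f69576bd5fee1871b8aae566b7919c049591489c4215 (k8 c11531 c5528 c353 c9692 c5342 c5651 c719 c5010 (k8 c5533 c5532 c5415 c5414 c2687 c597 c12589 c5431 (k8 c5617 c5430 c8905 c6187 c977 c568 c3078 c1097 (k2 c8902 c3626 k0)))) (by decide +kernel)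
def c12591 : PP 9 3 T 0x140400000000040000000400100000000000000000014000000000000000000100150000000000000000020000000000000500000000000 := rS 0x183c8c3f0abfc08abeda4 (k8 c5213 c5233 c5652 c5607 c5596 c5638 c5598 c3195 (k2 c1132 c3625 k0)) (by decide +kernel)
def c12592 : PP 9 3 T 0x8000000000000062000210080000000000000000080008000000000000010000000000000000000004001000002000000020000000000000000000020020 := rS 0x3137b8f62f4abbdc2f70e2d82fd4a1671c101bce3386bc4681c6a5cbfed07835223b058dc9b29018bc0e618ec3617f35a892b22710c24d4fc253d48ef321915feb114abcdead4487e0713 (k8 c5382 c2629 c5517 c5567 c1959 c5565 c1130 c9692 (k8 c5506 c5586 c5326 c5478 c5325 c5520 c5477 c9072 (k8 c8928 c1128 c4776 c5528 c353 c5342 c5651 c1094 (k8 c5546 c5587 c5509 c5504 c5445 c713 c9709 c54 (k8 c9578 c5521 c5518 c5516 c5332 c850 c2540 c9740 (k8 c5541 c5439 c1126 c5569 c5380 c9733 c5479 c719 (k8 c5731 c12585 c2511 c2510 c12588 c12590 c5552 c2578 (k8 c362 c10670 c2763 c12591 c5430 c8905 c2657 c6187 (k2 c3929 c2408 (k1 c5676 k0)))))))))) (by decide +kernel)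
def c12593 : PP 9 3 T 0x42000001080000000000000000000008000000000000010000000000000000000000000000000000000020000000000000000000000020 := rS 0x341a41c2c047bed545c77dc5d3f95cea8d8984d13a041a75526955a5cbe0b94ed3da84d9e769415 (k8 c11531 c12582 c12458 c12185 c12573 c5541 c5238 c9578 (k8 c5516 c5439 c1126 c8880 c124 c2449 c10719 c128 (k8 c12526 c5567 c5564 c5382 c5381 c5440 c5353 c5358 (k8 c5321 c12583 c5504 c5583 c5585 c5725 c12592 c10689 (k4 c313 c8904 c8522 c2135 k0))))) (by decide +kernel)
def c12594 : PP 9 3 T 0x42000001080000000000000000000008000000000000010000000000000000000000000000000000000020000000000000000000000000 := rS 0xf00e02e020e815361949bc446010da54eacd63a75526955a5cbe214ced3da84d9e74761f7b82c6f4a (k8 c12582 c5518 c5516 c5333 c5517 c5332 c12458 c12185 (k8 c12573 c5541 c5238 c5530 c5528 c5439 c1126 c8880 (k8 c124 c2449 c10719 c5357 c2502 c5440 c1955 c5475 (k8 c1056 c9733 c9695 c5444 c5393 c5397 c12593 c1954 (k4 c5642 c1107 c9933 c12148 (k1 c5534 k0)))))) (by decide +kernel)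
def c12595 : PP 9 3 T 0x45000210000000000000000000000008000000000000010000000000000040000004000000002041100020404000000440000000000520 := rS 0x1c81cb2d10b87591df6afb9e61b46c4c26894ba57da8307aa4d2cd (k8 c2502 c124 c2449 c9740 c128 c5541 c1955 c1126 (k8 c5567 c5564 c5382 c5381 c5475 c5325 c12583 c5585 (k8 c5725 c10944 c8959 c1064 c2133 c313 c714 c6897 (k1 c5745 k0)))) (by decide +kernel)
def c12596 : PP 9 3 T 0x4000000000000040000001080000000000000000000008000000000000010000000000000000000000000000000000000020000000000000000000000000 := rS 0xcb6f061c2e33d8cdaacf628ffbc107f2d1924b5810c8a3518bd4fa8146a251e974a83c1af381c4d22f72491df81dda7b446f14985c0405d88dc163ba521340abceeccea573f9e58e090086cbe15 (k8 c11531 c5439 c5475 c1056 c5438 c5357 c5441 c5358 (k8 c5353 c5440 c12185 c12458 c8880 c12526 c12573 c12582 (k8 c5332 c5516 c5518 c12594 c12595 c5642 c1107 c261 (k8 c9695 c9733 c5541 c5238 c1954 c12546 c5520 c5334 (k8 c5333 c850 c5382 c2629 c5325 c2540 c9740 c1955 (k8 c1126 c5568 c5567 c5381 c5380 c5442 c5477 c5476 (k8 c5324 c5326 c5478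 c9092 c9182 c12578 c1335 c1336 (k8 c8977 c10944 c2907 c5451 c5453 c5454 c5492 c847 (k4 c2574 c3012 c3577 c3610 (k2 c1321 c2515 k0)))))))))) (by decide +kernel)
def c12597 : PP 9 3 T 0x40000001080000000000000000000008000000000000010000000000000000000000000000000000000020000000000000000000000000 := rS 0x78e52e203385be393db39a3596412bbeff6afb9f81d02ec48e37058ee94917890c8af52f824fa793f95cea2355a051b1347e801e0d79b358fb4f6a13679d (k8 c12458 c12185 c12573 c5541 c5238 c5357 c2502 c5325 (k8 c2540 c9740 c12526 c5568 c5382 c5381 c5380 c8880 (k8 c9733 c5440 c5353 c5358 c5441 c5442 c5438 c5439 (k8 c5477 c5326 c5478 c9695 c850 c12582 c5332 c5516 (k8 c5518 c5520 c12594 c12595 c1954 c12546 c12596 c5585 (k8 c5586 c5725 c9072 c10944 c5342 c2133 c1181 c848 (k8 c6897 c2564 c1653 c10699 c3610 c5432 c5466 c5226 k0))))))) (by decide +kernel)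
def c12598 : PP 9 3 T 0x40000000000000000000010000000000000000000040008000000100400000001000000000000000110000000000000004020000000400000000000045000 := rS 0x126b24b140741405219143623 (k8 c9733 c5475 c5326 c5478 c6008 c5645 c1954 c9423 (k4 c2588 c5339 c509 c5660 k0)) (by decide +kernel)
def c12599 : PP 9 3 T 0x48000000000000002000000080000000000000000000000000000000000000000000440000000000010001040002000000000010000000540000000001440 := rS 0x70f8d94d3f0b40f409639e4ae0f (k8 c9740 c5353 c5441 c5357 c5438 c10699 c5745 c5457 (k4 c2136 c8156 c5464 c1718 (k1 c5691 k0))) (by decide +kernel)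
def c12600 : PP 9 3 T 0x60000000080000000000800100080008000000100004000000000000000800000000000000000000020001000000004000002400000044 := rS 0x60c8752ecbb2fbeebddc94f5babb7b0e3e09c7de4af23 (k8 c5010 c5353 c5359 c5443 c5438 c5345 c5348 c5349 (k8 c5600 c5602 c5605 c12587 c2762 c8941 c5310 c3103 (k4 c1394 c760 c3275 c3481 (k1 c3570 k0)))) (by decide +kernel)
def c12601 : PP 9 3 T 0x140400000081000000000400100000000000100000014002000000000000000000150000004000100000020000000020000404000800000 := rS 0x1875e8b454c2 (k4 c12589 c1795 c358 c3200 (k2 c4010 c12591 k0)) (by decide +kernel)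
def c12602 : PP 9 3 T 0x1000000000000062000000081000000000000000080008000000100014020001000080001000001150001001000100000020000000000000000410020020 := rS 0x11b8ce162e522ac923da55daf57fb8b3b2880161ef87c7af4b97d2a758aae4429959adc761f7b8dc9a0317a4e520730bf2b23f3f89c021b919c04815 (k8 c11531 c720 c719 c5010 c5475 c1056 c2859 c5358 (k8 c2907 c5558 c12546 c5445 c713 c9578 c5444 c9709 (k8 c54 c5521 c5518 c5333 c5517 c5332 c5533 c5532 (k8 c5530 c5528 c5415 c5414 c5440 c1955 c5439 c1126 (k8 c5479 c5580 c5538 c4815 c12148 c5655 c1736 c12600 (k8 c12601 c5431 c5617 c5430 c8905 c6187 c977 c568 (k4 c978 c3078 c1097 c8902 (k2 c4828 c3626 k0)))))))) (by decide +kernel)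
def c12603 : PP 9 3 T 0x8000400000000062000010081000000000000000080008000000000000020001000000000000000140001000112100000020000000000000000010040020 := rS 0xcb69905a0386fb8d6a2438040b24322974b6234b97d5bed06bcd9ac7f9c761b0b48a2c760b1b81cc215 (k8 c11531 c5445 c713 c5518 c5516 c5332 c5583 c849 (k8 c5587 c5509 c5504 c5592 c5357 c2502 c5325 c2540 (k8 c5541 c1959 c5439 c1126 c9733 c5474 c5321 c5326 (k8 c5478 c313 c3572 c719 c720 c5804 c5731 c12602 (k4 c12599 c6897 c547 c2136 (k2 c1091 c8156 k0)))))) (by decide +kernel)
def c12604 : PP 9 3 T 0x40000010000000000000000000000000000000000400000000000000000000000004000001012000000020100000000000001100041420 := rS 0x4f59250445215 (k4 c11531 c9692 c720 c8853 (k2 c5342 c353 (k1 c5651 k0))) (by decide +kernel)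
def c12605 : PP 9 3 T 0x40000000000000060000000000000000000800000080008000004100015000000000000000000000000000000000000000000000008000000402420000000 := rS 0x1178cafbeb06fbaf637b98294ca36f79d1debaf5c8856e1f7b93c9b59 (k8 c5559 c5521 c5335 c5333 c5517 c5533 c5528 c5415 (k8 c5479 c5477 c5327 c5325 c5349 c5350 c5605 c8900 (k8 c12587 c2687 c2762 c8941 c8896 c6751 c5310 c3507 (k2 c8094 c5697 k0)))) (by decide +kernel)
def c12606 : PP 9 3 T 0x42000001080000000000000000000008000000000000000000000000000000000000000000000000000020000000000000000000010020 := rS 0x8ce162f1b28db8abf48f69577b8f8d9df816919a994383892b5e7d3188ce72747c462ab936acd6f0d8587c9e4d148bc4e934f984b17f84ad5bcd04195d3640ac8fc480b48a2c425d50f8c7ad20e77cfe756aa7552694b97d5f8d46a0653b4f6d2a3bee58aaf6647f9c001af307a115a893784e27a0cebc48615 (k8 c11531 c5478 c9695 c12458 c12526 c5382 c5564 c5565 (k8 c5567 c1959 c12573 c9740 c5325 c2540 c12597 c5592 (k8 c2790 c12185 c8880 c2143 c9092 c5504 c12598 c5541 (k8 c5238 c9578 c5380 c5381 c5569 c1130 c5439 c1126 (k8 c124 c2449 c10719 c5585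 c5440 c5358 c5725 c12603 (k8 c8962 c2768 c5579 c5398 c5321 c5528 c5583 c849 (k8 c5516 c12604 c2909 c5559 c5655 c5397 c5353 c128 (k8 c8522 c2136 c2514 c4583 c4563 c1953 c5445 c5448 (k8 c5444 c60 c9709 c9692 c5521 c5335 c5517 c5587 (k8 c5509 c5533 c5532 c5529 c5415 c5414 c1269 c5568 (k8 c5383 c5379 c9733 c5355 c5442 c5479 c8853 c2754 (k8 c2510 c3599 c3604 c3801 c9148 c2542 c12605 c8894 (k8 c12601 c5430 c8905 c6187 c5192 c568 c579 c5552 (k4 c5557 c5635 c1097 c8902 (k1 c8903 k0))))))))))))))) (by decide +kernel)
def c12607 : PP 9 3 T 0x140000000081000000000400100000008000100000014000000000000000000000150000004000100000020000000020000404000800000 := rS 0x61d7a2d1530837af (k8 c5479 c5475 c12589 c1795 c358 c3200 c1101 c12591 k0) (by decide +kernel)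
def c12608 : PP 9 3 T 0x42000001080000000000000000000008000000000000000000000000000000000000000000000000000020000000000000000000800020 := rS 0x233858bc6cabf48f69576bd5fee3e3676508e4f155cacd6f0d85934062f13a4c0e612c5fd6ade6820cae9b205647ea1f18f5a41cef9fcead54eaa4d2972fabf1a8d40ca6467008090174a8e91c87f307ab4def148a2fdcb18008769ed06bcd088909c4f40abd9e74ba15 (k8 c11531 c5321 c12458 c12185 c8880 c12526 c5382 c5564 (k8 c5567 c12573 c5325 c2540 c5541 c5238 c5528 c12597 (k8 c2143 c9092 c5583 c849 c9695 c5565 c1959 c9740 (k8 c5592 c5478 c2790 c5504 c12598 c5516 c12604 c12606 (k8 c719 c5010 c9578 c5380 c5381 c5569 c1130 c5439 (k8 c1126 c124 c2449 c10719 c5585 c5440 c5358 c5725 (k8 c12603 c8962 c2768 c5579 c5398 c2909 c5559 c5655 (k8 c5397 c5353 c128 c8522 c2136 c2514 c4563 c1953 (k8 c5445 c713 c5444 c60 c9709 c54 c5521 c5587 (k8 c5509 c5533 c5532 c5415 c5414 c5383 c9733 c1736 (k8 c12600 c8894 c12607 c5431 c5617 c5430 c8905 c6187 (k4 c5192 c568 c5557 c5635 (k2 c1097 c8902 (k1 c3626 k0)))))))))))))) (by decide +kernel)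
def c12609 : PP 9 3 T 0x42000001080000000000000000000008000000000000000000000000000000000000000000000000000020000000000000000000000020 := rS 0x370bdd261c5b05fa943e367250e02e70081007eb584b787be36834afe580e4a536a149ebcae2340c9f1aaf41a7552694b97d330d85f7d1a7f3ab54761f1b934061917d64480ba54748e43f983d5a6f78a4517ee58c0043b4f6835e6844484e27a055ecf3a5d (k8 c5321 c12458 c12185 c8880 c12526 c5382 c5564 c5567 (k8 c12573 c5325 c2540 c5541 c5238 c5528 c12597 c2143 (k8 c9092 c5583 c849 c9695 c5565 c1959 c9740 c5592 (k8 c5478 c2790 c5504 c12598 c5516 c12604 c5559 c9709 (k8 c9698 c54 c5521 c5518 c5517 c5332 c5585 c5440 (k8 c5358 c5381 c5725 c5587 c5509 c5530 c5439 c1126 (k8 c124 c2449 c10719 c128 c1130 c5569 c5383 c5380 (k8 c9733 c5353 c5479 c5444 c5398 c5397 c9578 c12603 (k8 c1953 c4563 c8962 c8522 c5579 c2768 c2136 c4583 (k8 c2514 c2909 c5655 c12606 c719 c12608 c3578 c546 (k8 c12588 c8894 c12590 c5552 c2578 c362 c10670 c5192 (k2 c2763 c12591 (k1 c8905 k0))))))))))))) (by decide +kernel)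
def c12610 : PP 9 3 T 0x40000001080000000000000000000008000000000000000000000000000000000000000000000000000020000000000000000000000020 := rS 0xe40e596885c3ac8d886c12792ba5cbe95f6a0d526966b1fbe8d3f9d5aa3b058de951df72c557b32390fe70006bcc1e8456a24de1389e833af1 (k8 c9695 c12458 c12526 c5382 c5564 c5565 c5567 c1959 (k8 c12573 c9740 c5325 c2540 c12597 c5592 c5478 c2790 (k8 c12185 c8880 c2143 c9092 c5504 c12598 c5518 c5516 (k8 c5332 c5585 c5440 c5358 c5381 c5725 c5357 c2502 (k8 c124 c2449 c128 c5541 c1955 c5439 c1126 c5353 (k8 c5441 c5438 c5475 c12609 c10944 c8959 c1064 c2133 (k4 c313 c714 c6897 c5745 k0))))))) (by decide +kernel)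
def c12611 : PP 9 3 T 0x800000000000000000000000000000000000000000000000002000000000000000000000 := rS 0x15 (k2 c11531 c568 k0) (by decide +kernel)
def c12612 : PP 9 3 T 0x2000000000000000000000000000000000000000000000000000000000000000000000000000002000000000000000000000 := rS 0x15 (k2 c11531 c3260 k0) (by decide +kernel)
def c12613 : PP 9 3 T 0x150000000004000015000000000050140 := rS 0x15 (k2 c11531 c3569 k0) (by decide +kernel)
def c12614 : PP 9 3 T 0x400000000000000000000000000000001400000000000000005400000000000055400 := rS 0x15 (k2 c11531 c3574 k0) (by decide +kernel)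
def c12615 : PP 9 3 T 0x100000000000000000000000000000000000150000000000150000140000000000050000 := rS 0x15 (k2 c11531 c3572 k0) (by decide +kernel)
def c12616 : PP 9 3 T 0x200000000000000000080000000000000000 := rS 0x15 (k2 c11531 c1930 k0) (by decide +kernel)
def c12617 : PP 9 3 T 0x100000000000000000100000000000000000000000000000000000000000000000000000000000000000000000000000000050000 := rS 0x15 (k2 c11531 c5646 k0) (by decide +kernel)
def c12618 : PP 9 3 T 0x8000000000000000020000000000 := rS 0x15 (k2 c11531 c1143 k0) (by decide +kernel)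
def c12619 : PP 9 3 T 0x80800000000000000000000000000000000000000000000000000000000000000000000000 := rS 0x15 (k2 c11531 c962 k0) (by decide +kernel)
def c12620 : PP 9 3 T 0x200000000000000002000000000000000 := rS 0x15 (k2 c11531 c1488 k0) (by decide +kernel)
def c12621 : PP 9 3 T 0x40000001000000000000000000000000055400000000000000000000000000000000000000000000000001400000000000000050000 := rS 0x15 (k2 c11531 c3576 k0) (by decide +kernel)
def c12622 : PP 9 3 T 0x800000000000000000000000000000000000000000000000000000000000000008000 := rS 0x15 (k2 c11531 c953 k0) (by decide +kernel)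
def c12623 : PP 9 3 T 0x800000000000000000000000000000000000000000000000000800000000000000000 := rS 0x15 (k2 c11531 c2344 k0) (by decide +kernel)
def c12624 : PP 9 3 T 0x800000000000000008000000000000000000 := rS 0x15 (k2 c11531 c2400 k0) (by decide +kernel)
def c12625 : PP 9 3 T 0x20000000000000020000000000000000 := rS 0x15 (k2 c11531 c1546 k0) (by decide +kernel)
def c12626 : PP 9 3 T 0x200000000008000000000000000000000 := rS 0x15 (k2 c11531 c935 k0) (by decide +kernel)
def c12627 : PP 9 3 T 0x8000000000000008000 := rS 0x15 (k2 c11531 c558 k0) (by decide +kernel)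
def c12628 : PP 9 3 T 0x8000020000000000000000 := rS 0x15 (k2 c11531 c542 k0) (by decide +kernel)
def c12629 : PP 9 3 T 0x200000000000200000000000000000000000 := rS 0x15 (k2 c11531 c944 k0) (by decide +kernel)
def c12630 : PP 9 3 T 0x200000000000000000000000000000000000020000000000000000000000000000000000 := rS 0x15 (k2 c11531 c1980 k0) (by decide +kernel)
def c12631 : PP 9 3 T 0x200000000000000000000000000000000000000000000000200000000000000000000000 := rS 0x15 (k2 c11531 c550 k0) (by decide +kernel)
def c12632 : PP 9 3 T 0x100000000000000000000000000000000000000000000000000000000000000000000000000000000000000000000002000010001 := rS 0x15 (k2 c11531 c6203 k0) (by decide +kernel)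
def c12633 : PP 9 3 T 0x100000000000000000800000000000000000000000000000000000000000000000000000000000000040400 := rS 0x15 (k2 c11531 c6199 k0) (by decide +kernel)
def c12634 : PP 9 3 T 0x100000000000000000000000000000000000000000000000000000000000000000000000000000000000000020008000000010000 := rS 0x15 (k2 c11531 c8149 k0) (by decide +kernel)
def c12635 : PP 9 3 T 0x100000000000000000100000000000000000000000000000000000000000000000000000000000000000000000000000000040020 := rS 0x15 (k2 c11531 c9080 k0) (by decide +kernel)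
def c12636 : PP 9 3 T 0x100000000000000000000000000000000000000000000000000000000000000000000000000000000000000020000000000010100 := rS 0x15 (k2 c11531 c8151 k0) (by decide +kernel)
def c12637 : PP 9 3 T 0x100000000000000000100040000000000000000000000000000000000000000000000000000000000000002000000000000040000 := rS 0x15 (k2 c11531 c9074 k0) (by decide +kernel)
def c12638 : PP 9 3 T 0x100000000000000000000000000000000000000000000000000000000000000000000000000000000000008000000000000011000 := rS 0x15 (k2 c11531 c8142 k0) (by decide +kernel)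
def c12639 : PP 9 3 T 0x100000000000000000000000000000000000000000000000000000000000000000000000000000000000008000000000000000020 := rS 0x15 (k2 c11531 c8919 k0) (by decide +kernel)
def c12640 : PP 9 3 T 0x100000000000000000000000000000000000000000000000000000000000000000000000010000000000000002000000000010000 := rS 0x15 (k2 c11531 c8150 k0) (by decide +kernel)
def c12641 : PP 9 3 T 0x8000000000000000100000000000000000000000000000000000000000000000000000400000000004004000000000000000000001000014001010201 := rS 0x15 (k2 c11531 c8196 k0) (by decide +kernel)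
def c12642 : PP 9 3 T 0x1000000000000000000000008000200000000000000000000040000000000000000150020000000000000000000000000000000 := rS 0x15 (k2 c11531 c9153 k0) (by decide +kernel)
def c12643 : PP 9 3 T 0x80000000000000000000000000000000000000000000000000000100000054014000000000000000000000001000000000000000004540000000000054420 := rS 0x15 (k2 c11531 c8520 k0) (by decide +kernel)
def c12644 : PP 9 3 T 0x80000000000000000000000000000000000000000000000000000000000000000000000008000050000000004008010000000000000160 := rS 0x15 (k2 c11531 c8922 k0) (by decide +kernel)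
def c12645 : PP 9 3 T 0x90000000000000000000000000000000000000000400000000000000000000000000000001400000000000000004400000000440055020 := rS 0x15 (k2 c11531 c8868 k0) (by decide +kernel)
def c12646 : PP 9 3 T 0x82000000000000000000000100000000000000000000000000000000000000000000000000000050040004400000000000000000040020 := rS 0x15 (k2 c11531 c8909 k0) (by decide +kernel)
def c12647 : PP 9 3 T 0x10000000000000000000000000000000000400000000000000000000000000000001400000000000000004000000000000055420 := rS 0x15 (k2 c11531 c8854 k0) (by decide +kernel)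
def c12648 : PP 9 3 T 0x40000000000000400000000000000000000000000000001000000000000000005400000000000055420 := rS 0x15 (k2 c11531 c9111 k0) (by decide +kernel)
def c12649 : PP 9 3 T 0x1000000000000000000000000000000000400050054000000000000000000000001510000000000000005540000000000015400 := rS 0x15 (k2 c11531 c8977 k0) (by decide +kernel)
def c12650 : PP 9 3 T 0x400000000014004000020000000000000005000004000400001 := rS 0x15 (k2 c11531 c8390 k0) (by decide +kernel)
def c12651 : PP 9 3 T 0x80000000000000000000000000000000000000000400000000000000000000000000000001400000000000000004000000000200055400 := rS 0x15 (k2 c11531 c8806 k0) (by decide +kernel)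
def c12652 : PP 9 3 T 0x80000000000200400000000000000000000000000000001100000000000000004000000000000015400 := rS 0x15 (k2 c11531 c8816 k0) (by decide +kernel)
def c12653 : PP 9 3 T 0x40000000000000000000000000100000000000000000000000000000000000000000200000000000000010000000000000040 := rS 0x15 (k2 c11531 c8301 k0) (by decide +kernel)
def c12654 : PP 9 3 T 0x110008000404000015000000000050060 := rS 0x15 (k2 c11531 c9095 k0) (by decide +kernel)
def c12655 : PP 9 3 T 0x200000040000000000000000110000000004004005000000000050140 := rS 0x15 (k2 c11531 c9135 k0) (by decide +kernel)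
def c12656 : PP 9 3 T 0x1000010800000110000004404000005000008000050140 := rS 0x15 (k2 c11531 c9102 k0) (by decide +kernel)
def c12657 : PP 9 3 T 0x400000000000000000000000000000001400000020000000004000000000200055400 := rS 0x15 (k2 c11531 c8802 k0) (by decide +kernel)
def c12658 : PP 9 3 T 0x1400000000012000000000000000000000000000000000100000400000000000000440000000010000041400000000000000004500440000440055400 := rS 0x15 (k2 c11531 c8785 k0) (by decide +kernel)
def c12659 : PP 9 3 T 0x4000000000000000000000000000000000000000000004000000100000000000000000000000000000000000110000000000150000140000000000040000 := rS 0x15 (k2 c11531 c9297 k0) (by decide +kernel)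
def c12660 : PP 9 3 T 0x102000000000000000000000000000000000000000000000000000000000000000000110000000000040000100000000000050000 := rS 0x15 (k2 c11531 c9372 k0) (by decide +kernel)
def c12661 : PP 9 3 T 0x40000000000000000000100000000000000000000000000000000000000000000000000000000000000000000000000000000000000800000000000010000 := rS 0x15 (k2 c11531 c10411 k0) (by decide +kernel)
def c12662 : PP 9 3 T 0x4000000000000000000111080000000000000000000000000000000000000000000140008000000000000000008000000000000001400540000000000000 := rS 0x15 (k2 c11531 c10447 k0) (by decide +kernel)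
def c12663 : PP 9 3 T 0x100000000000000000000000000000000000400000000000000000000000000000000000000000000000008000000000000010000 := rS 0x15 (k2 c11531 c9905 k0) (by decide +kernel)
def c12664 : PP 9 3 T 0x1000000000000000000011080000000000000100000008000000000000020040000000140010000000000000111500000000040000140004000000040000 := rS 0x15 (k2 c11531 c9438 k0) (by decide +kernel)
def c12665 : PP 9 3 T 0x1000000000000000000011000000000000000000000000000000000000020040000000000000000000000000111400000000140000140000000000050000 := rS 0x15 (k2 c11531 c9450 k0) (by decide +kernel)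
def c12666 : PP 9 3 T 0x84008000000000000000000000000200000000000000000000000000000040000 := rS 0x15 (k2 c11531 c9828 k0) (by decide +kernel)
def c12667 : PP 9 3 T 0x100080000000000000000000000000000000000000000000540000000000000000000000000000000000005404540000000010000 := rS 0x15 (k2 c11531 c10446 k0) (by decide +kernel)
def c12668 : PP 9 3 T 0x8000000000000000000000000000000000000000000000200000000000000000000000000000000000000000010000000000000001000000000050100 := rS 0x15 (k2 c11531 c10344 k0) (by decide +kernel)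
def c12669 : PP 9 3 T 0x8000000000000000000000000000000000000000000000200000000000000000000000000000000000000000050000000004000001000000000050100 := rS 0x15 (k2 c11531 c10211 k0) (by decide +kernel)
def c12670 : PP 9 3 T 0x40000200000000000000000000000000000200000000000000000000000000000000000004000050000000004000001000011000050100 := rS 0x15 (k2 c11531 c10214 k0) (by decide +kernel)
def c12671 : PP 9 3 T 0x80000000000000200000000000000000000000000000000040010000000000000000150000000000000000020000000040000 := rS 0x15 (k2 c11531 c9987 k0) (by decide +kernel)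
def c12672 : PP 9 3 T 0x100000000000000000000000000000800000080000000000000000000000000000000004000000000010000 := rS 0x15 (k2 c11531 c10492 k0) (by decide +kernel)
def c12673 : PP 9 3 T 0x1000040000000000000000000054000000000000000000000000020000000000000000000000001400000000000180054020 := rS 0x15 (k2 c11531 c10595 k0) (by decide +kernel)
def c12674 : PP 9 3 T 0x4000000000000000000000000000008000000100000000000000000000000000010000000000000010010000000040000002000010005 := rS 0x15 (k2 c11531 c10623 k0) (by decide +kernel)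
def c12675 : PP 9 3 T 0x4000000000000000000000000000000000000100000000000000000000000000010000000140000000010140000140000002000010005 := rS 0x15 (k2 c11531 c10508 k0) (by decide +kernel)
def c12676 : PP 9 3 T 0x4000000000000000000000000000000000000100000000000000000000000000010000000000000010010140000140000002000010005 := rS 0x15 (k2 c11531 c10570 k0) (by decide +kernel)
def c12677 : PP 9 3 T 0x900000000000000000200000000000000000000020000000040000 := rS 0x15 (k2 c11531 c9827 k0) (by decide +kernel)
def c12678 : PP 9 3 T 0x40008000000100000000000000000000000000000000000158000000080040000400000000080040001 := rS 0x15 (k2 c11531 c9583 k0) (by decide +kernel)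
def c12679 : PP 9 3 T 0x200000040000000000000000110000000004000005000000000048000 := rS 0x15 (k2 c11531 c10187 k0) (by decide +kernel)
def c12680 : PP 9 3 T 0x40000000000000000000000000000000000000000000000000000000000004000000000008000000000000001080000500000004000015000000000050140 := rS 0x15 (k2 c11531 c10682 k0) (by decide +kernel)
def c12681 : PP 9 3 T 0x200000000000000000000000008000000100000000000000000000000000000000000040000000000110000000000000000010000 := rS 0x15 (k2 c11531 c10689 k0) (by decide +kernel)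
def c12682 : PP 9 3 T 0x1000000000000062000200000000000000000100080008000000000000000001000000001000000000001055000001000000000000000000000410400000 := rS 0xf04a442991d87dee37 (k8 c5518 c5333 c5517 c5332 c5530 c5528 c9578 c12148 (k1 c12147 k0)) (by decide +kernel)
def c12683 : PP 9 3 T 0x40000001080000000000000000000008000000000000000000000000000000000000000000000000000020000000000000000000000000 := rS 0xf1ca5c406708e5be7b6734591b1ac85d26fc140083a051b82c774a48f7daa8b8efb96247f9c013bb466835520ff6a115a954b804d2f121915e61b2f8258e7d3c9fcae7511aaf3bb340a36261337a251fa0 (k8 c12526 c5568 c5567 c5565 c5564 c5382 c5381 c5380 (k8 c12185 c12458 c8880 c9733 c5440 c5353 c5358 c5441 (k8 c5442 c5357 c5438 c5439 c5475 c5325 c5326 c5478 (k8 c9695 c124 c1056 c1126 c1955 c1959 c12573 c5541 (k8 c9740 c2449 c2540 c2502 c5238 c10719 c12597 c5592 (k8 c2790 c2143 c9092 c5504 c5583 c5585 c5725 c849 (k8 c12598 c5332 c5516 c5518 c12610 c1954 c5642 c9423 (k8 c12546 c261 c1107 c5339 c12682 c10944 c2133 c1181 (k8 c848 c2953 c6897 c1652 c10699 c3610 c5432 c5466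 (k1 c9421 k0)))))))))) (by decide +kernel)
def c12684 : PP 9 3 T 0x2000200000000000000000000000008000000101000000000000000010000000400001000008040000080010000000008000000010000 := rS 0x1c6e165ad5befe5724114d72ec0d429b (k8 c5397 c5398 c10690 c5321 c2185 c12681 c900 c738 (k4 c901 c2948 c1249 c1247 (k2 c3013 c2575 (k1 c5255 k0)))) (by decide +kernel)
def c12685 : PP 9 3 T 0x42000210080000000000000000000008000000001000000000000000000000000400001000008000000080010000000000000000008420 := rS 0x3288271698915c2756d67df1c688c80ec530a853e5d1a96c625f3e9fcae633a9cd026f14ac51a11 (k8 c10107 c5381 c2179 c9692 c5565 c5380 c5379 c5440 (k8 c5355 c5353 c5358 c5442 c5439 c5476 c5474 c5324 (k8 c5321 c5448 c5398 c5445 c733 c713 c10897 c9505 (k8 c12684 c5504 c5341 c2029 c352 c5282 c5651 c2940 (k4 c6185 c545 c3599 c1091 k0))))) (by decide +kernel)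
def c12686 : PP 9 3 T 0x10080000000000000000000008000000000000000000000000001010000000000000000000000000010000000800000000000400 := rS 0x39746a5b188258e75 (k8 c5440 c5357 c5438 c5476 c5474 c5324 c5321 c1675 (k1 c10795 k0)) (by decide +kernel)
def c12687 : PP 9 3 T 0x5000000080000000000000000000008000000000000000000000000000110000000000040000000000000010000000400000000008040 := rS 0x3bc324a9746a5b1895cee75 (k8 c5440 c5356 c5353 c5476 c5474 c5324 c5321 c9925 (k2 c10897 c5678 (k1 c5492 k0))) (by decide +kernel)
def c12688 : PP 9 3 T 0x40000000000000045000010080000000000000000000008000000001000000000000100001100001480000040000100000080010000000000001000008420 := rS 0x4fb8c2c7a030ed8acb1c95c4e45 (k8 c5326 c2986 c5353 c393 c1246 c734 c12686 c12687 (k4 c870 c714 c1775 c1466 (k1 c12518 k0))) (by decide +kernel)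
def c12689 : PP 9 3 T 0x4000000000000045000210080000000000000000040008000000001000000000000000001100000400000000088000000080010000000000000000000420 := rS 0x71b2c2de294a7d27df4b3856a2568fcdfcae56a406a5b40864d303088e41c57 (k8 c5353 c6008 c393 c10107 c10690 c9743 c9698 c5380 (k8 c5474 c5324 c900 c2889 c738 c901 c5589 c9793 (k8 c10165 c1249 c3013 c12688 c5452 c1637 c1644 c11596 (k4 c5196 c5648 c5464 c5466 (k1 c12518 k0))))) (by decide +kernel)
def c12690 : PP 9 3 T 0x45000010080000000000000100000008000000000000000000000000001100000090000040150100044080010000000000000000008420 := rS 0xa0f177a52061db14127d2b9d56211 (k8 c10107 c2179 c5440 c5353 c5442 c5438 c734 c12686 (k4 c12687 c5432 c10972 c6060 (k2 c10378 c5578 k0))) (by decide +kernel)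
def c12691 : PP 9 3 T 0x4000000000000044000210080000000000000000040008000000001000000000000000001100000400001100008000000080010000000000000000000420 := rS 0x6e0670181bea171b2c2de294a7d3693efa58e2ae5a9255b598e22c86452e8d4b67340a34266f448a433030892f620e (k8 c6008 c12685 c12627 c10107 c10690 c9698 c9692 c5567 (k8 c5565 c5564 c5381 c5380 c5379 c5474 c5324 c5321 (k8 c5326 c5478 c12689 c12615 c8187 c2029 c514 c9106 (k8 c5282 c2988 c12690 c5452 c1637 c1232 c1644 c11596 (k8 c5196 c5648 c5464 c5466 c5578 c5580 c12178 c3620 (k2 c1459 c1484 (k1 c871 k0))))))) (by decide +kernel)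
def c12692 : PP 9 3 T 0x44000210080000000000000000040008000000001000000000000000001100000400001100008000000080010000000000000000000420 := rS 0x1171df70441c5d (k4 c5321 c6008 c10107 c12691 (k2 c5504 c5583 (k1 c12681 k0))) (by decide +kernel)
def c12693 : PP 9 3 T 0x10080000000000000000000008000000000000000000000000000000000000000000001400000081010000000440000000005420 := rS 0x3968f7c6407629746af32d8c5ea092b9dcea03 (k8 c54 c5440 c5356 c5353 c5438 c5477 c5476 c5474 (k8 c5325 c5324 c5321 c733 c713 c5729 c5492 c9505 (k2 c11029 c10973 k0))) (by decide +kernel)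
def c12694 : PP 9 3 T 0x80000000000000000000008000000000000000001000000000100000000000040000000000082010000000000000001000040 := rS 0x12617194a4ba352d8c412573b9d762c5 (k8 c734 c5445 c5440 c5356 c5353 c5438 c5476 c5474 (k4 c5324 c5321 c10711 c10897 (k2 c1459 c323 (k1 c5648 k0)))) (by decide +kernel)
def c12695 : PP 9 3 T 0x1001800000000040000200000000000000000000000008000000100000000000000000000000000000000000008040000080010000000000010000010000 := rS 0x565ae2513f88e0ae45114ba5b (k8 c5474 c5321 c5326 c12681 c738 c737 c11751 c2986 (k4 c2754 c5465 c9525 c5651 k0)) (by decide +kernel)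
def c12696 : PP 9 3 T 0x5000000000000040000001080000000000000000000008000000100000000000000000000000000000000040001000000000000000000000000000000020 := rS 0x703f9be9f71a87e701f12d448701fd6421e1698cdaacf4da4fbc16948198af121914b67f4684d120114866061f7bec596601b83c774a66a1966998aa75927731a0d520b3683443b4331a7665932e7503a0 (k8 c12526 c5380 c12458 c12683 c314 c12185 c9743 c5664 (k8 c5238 c5528 c315 c5529 c717 c5531 c2007 c5355 (k8 c5356 c12308 c5412 c5414 c5530 c5532 c5672 c12000 (k8 c12692 c5332 c5329 c5518 c12693 c1755 c5445 c5333 (k8 c5517 c10690 c9698 c9692 c53 c5567 c5564 c5381 (k8 c5358 c5474 c5326 c5478 c9695 c734 c12694 c5432 (k8 c714 c10972 c1564 c1066 c5453 c5454 c5492 c5496 (k8 c6344 c12695 c5558 c2907 c719 c720 c5804 c5226 (k8 c12664 c12051 c1069 c5731 c2757 c5580 c5694 c3620 (k1 c3012 k0)))))))))) (by decide +kernel)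
def c12697 : PP 9 3 T 0x1008000000000000000211000000000000000000000008000000100000000040000000008000000000000000001400000080010001400540010000010000 := rS 0x13d64e0ae70a2a024322974b68d09a2482df (k8 c5580 c5462 c5567 c5564 c5381 c5474 c5321 c5326 (k8 c5478 c12665 c12681 c1653 c738 c737 c11685 c2986 (k1 c10436 k0))) (by decide +kernel)
def c12698 : PP 9 3 T 0x5000000000000040000001080000000000000000000008000000100000000000000000000000000000000000001000000000000000000000000000000020 := rS 0x139c2b210677898839efa5802297b9248fb1300dc1e3ba53350cb34cc553ac93b98f40835482cda0d10ed0cc69d9964cb9d (k8 c12458 c12683 c314 c12185 c9743 c5664 c5238 c5528 (k8 c315 c5529 c717 c5531 c2007 c12526 c5355 c5356 (k8 c12308 c5412 c5414 c5530 c5532 c5672 c12000 c12692 (k8 c5332 c5329 c5518 c12693 c5445 c5520 c5334 c5333 (k8 c9692 c53 c12696 c5452 c8166 c1639 c5196 c899 (k4 c12697 c5558 c719 c2859 (k1 c10436 k0))))))) (by decide +kernel)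
def c12699 : PP 9 3 T 0x44000000080000000000000100000008000000001000000001000000000100001400001140118100000082010000000000004040000020 := rS 0xff45381bea171b5daa9f4df8bbc1603314fa773a86762cb (k8 c1755 c5445 c9698 c5440 c5356 c5442 c734 c12694 (k8 c714 c10972 c6060 c1066 c1466 c5454 c5465 c5466 (k4 c5578 c5580 c3620 c5287 (k2 c3012 c901 k0)))) (by decide +kernel)
def c12700 : PP 9 3 T 0x5000000000000040000001080000000000000000000008000000000000000000000000000000000000000000001000000000000000000000000000000020 := rS 0xe16fa85c6cef127d889befa596aae8089d5b598e3c5122958a36061f7bec596601b83c774a66a1966998aa75927731a0d520b3683443b4331a7665932e7503a0 (k8 c12526 c5380 c12458 c12683 c314 c12185 c9743 c5664 (k8 c5238 c5528 c315 c5529 c717 c5531 c2007 c5355 (k8 c5356 c12308 c5412 c5414 c5530 c5532 c5672 c12000 (k8 c12692 c5332 c5329 c5518 c12693 c1755 c5445 c5333 (k8 c5517 c10690 c5381 c2179 c9692 c5567 c9695 c12698 (k8 c5341 c2029 c352 c2139 c5282 c1249 c12699 c5452 (k8 c1232 c1639 c1644 c5196 c899 c5466 c5578 c5580 (k2 c1653 c3620 k0))))))))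 (by decide +kernel)
def c12701 : PP 9 3 T 0x1000000000000040000001080000000000000000000008000000000000000000000000000000000000000000001000000000000000000000000000000020 := rS 0x3152ccf5a89c4870ac841171df71806e0f0f8ee94cd4320c160d59aa5326d10c553bb47890c8a5d2de75028d09a2740c93b98c0259331a76665 (k8 c12683 c12185 c9743 c5664 c314 c53 c5355 c5356 (k8 c12308 c12526 c5567 c5564 c5381 c5380 c12458 c5474 (k8 c5321 c5326 c5478 c9695 c5238 c5412 c5414 c5528 (k8 c5529 c5530 c5531 c5532 c315 c717 c2007 c5672 (k8 c12000 c12692 c5332 c5517 c5329 c5518 c12693 c12700 (k8 c5504 c5583 c12615 c5558 c719 c720 c2859 c5804 (k4 c6082 c12699 c899 c1639 k0))))))) (by decide +kernel)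
def c12702 : PP 9 3 T 0x400000000040000200080000000000000000000008000000100000000040000000000000000000004000000000000080000000000008010000008040 := rS 0x1abe31f0f6b025139c15cd3f7b5d1445049f4fe5746a251e11 (k8 c10107 c5568 c5567 c5381 c5353 c5358 c5442 c5438 (k8 c5326 c12506 c2185 c5583 c2938 c738 c737 c2986 (k4 c6185 c5651 c12427 c9764 (k2 c5576 c2996 (k1 c5689 k0))))) (by decide +kernel)
def c12703 : PP 9 3 T 0x40000000000000000000000000040000000000200400014050000000000000000000000000515400000080000000000000010000008000 := rS 0x1169138892064913d65624b (k8 c12627 c2179 c5341 c352 c513 c7820 c5651 c6185 (k2 c10165 c737 (k1 c3613 k0))) (by decide +kernel)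
def c12704 : PP 9 3 T 0x2000000000000062000200080000000000000000000008000000100000000000000000000000000000000000000000000080000000000000000000008020 := rS 0x3203f7cc29f2e8d4b6310495cee75018a5ee99 (k8 c5530 c5498 c9692 c54 c5440 c5356 c5353 c5438 (k8 c5476 c5474 c5324 c5321 c5448 c5445 c10390 c713 (k2 c5729 c12702 k0))) (by decide +kernel)
def c12705 : PP 9 3 T 0x40008000000000041000200080000000000000000000000000000001000000000000000000000001400000000000000000000000000000000005000008020 := rS 0x13e16708187ee3658258e7d3fa0426392b8f6b029 (k8 c9692 c5651 c5560 c5353 c393 c5564 c5380 c5358 (k8 c5442 c5357 c5438 c5464 c5466 c5576 c9764 c12679 (k2 c714 c1466 (k1 c12518 k0)))) (by decide +kernel)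
def c12706 : PP 9 3 T 0x2000000000000044000210080000000000000000040008000000000000000000000000000100000000000000001000000080010000000000000000000020 := rS 0x700d99a97ef78f63f3238f6b0255a89ce0aef7a2a3a832584416b354c541db422974b6317aa051b1344a3c52f743c05faff (k8 c5544 c5542 c5502 c5499 c5498 c9692 c5568 c5567 (k8 c5382 c5381 c5380 c5477 c5476 c5474 c5321 c5326 (k8 c5211 c6008 c5414 c5531 c5532 c150 c10107 c12627 (k8 c2007 c12703 c12506 c5583 c738 c737 c2986 c1248 (k8 c6185 c5651 c5560 c5562 c11908 c12704 c12705 c5196 (k4 c5452 c5495 c9522 c12688 (k1 c1483 k0))))))) (by decide +kernel)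
def c12707 : PP 9 3 T 0x40000211000000000000000000080008000000100000000000000000000000000000000000000000000080010000000000000000012020 := rS 0x4caef9a288a5d37accd48f (k8 c5568 c316 c2377 c5565 c5321 c5326 c12681 c12008 (k2 c738 c5715 (k1 c2986 k0))) (by decide +kernel)
def c12708 : PP 9 3 T 0x82000000000000000000000000000000000000000000008000000100000000000000000000000000000000000000000000000000000400000000000000000 := rS 0x4b (k2 c5546 c11908 k0) (by decide +kernel)
def c12709 : PP 9 3 T 0x40000000000000050000211000000000000000000080008000000100000000000000000000000000000000000000000000080010000000000000000002020 := rS 0x916715081a8de8f (k8 c5568 c5565 c316 c12707 c1139 c2377 c720 c5803 k0) (by decide +kernel)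
def c12710 : PP 9 3 T 0x40000000000000050000211000000000000000000080008000000100000001000000000000000000000000000005000000080010000000000000000000020 := rS 0x2295e115a0956715352081a5d37a3c1e0b (k8 c5516 c5329 c5568 c5565 c5321 c12709 c5777 c2008 (k8 c1139 c2377 c5803 c5685 c720 c1248 c12681 c738 k0)) (by decide +kernel)
def c12711 : PP 9 3 T 0x20000010000000000000000000000008000000000000000000000000000000000000000000005000000080010000000000000000004420 := rS 0x418355221 (k4 c5528 c5531 c315 c2007 (k1 c5777 k0)) (by decide +kernel)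
def c12712 : PP 9 3 T 0x2000000000000040000211000000000000000000080008000000100000000000000000000000000000000000001000000080010000000000000000000020 := rS 0x7cdfa47da82c1e87 (k8 c5499 c5329 c5516 c12711 c5520 c5542 c12708 c12710 k0) (by decide +kernel)
def c12713 : PP 9 3 T 0x4000400000000000000000000000000000000000000000000000000000004000000080440000000000000000000000000000000000000000000000000000 := rS 0x1abe3 (k2 c5580 c3002 (k1 c5689 k0)) (by decide +kernel)
def c12714 : PP 9 3 T 0x40000000000000000000000000000000000000000000000000000440000400001400014500000000004000400000000000004000002020 := rS 0xe18aa77e46a (k4 c316 c5715 c1135 c1139 (k2 c5591 c3620 k0)) (by decide +kernel)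
def c12715 : PP 9 3 T 0x4000000000000042000010080000000000000000000008000000000000004000000000000000001080000000005100044090000000000000006000004420 := rS 0x1c1f24ec54d46d41035bee33832dae411fb4fbe3203b1532614da853e5d1a96c625f3e9fcae633aed4b2b3 (k8 c2992 c314 c12711 c5440 c5355 c5353 c5358 c5442 (k8 c5439 c5476 c5474 c5324 c5321 c5448 c5398 c5397 (k8 c5445 c5447 c733 c713 c10897 c5492 c2940 c2909 (k8 c545 c2186 c1091 c3599 c5731 c12713 c12714 c5777 (k4 c2431 c2008 c3049 c1135 (k2 c5803 c5986 (k1 c5591 k0))))))) (by decide +kernel)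
def c12716 : PP 9 3 T 0x51000200080000000000000000000008000000000000001000000000000100000400000000000000000080010000000000004040002020 := rS 0x18a3303a5d24174d787e4202e8d4b6312f95cea6f (k8 c5565 c5440 c5353 c5439 c5476 c5474 c5324 c5321 (k8 c315 c5715 c11668 c10916 c1066 c2491 c1231 c714 (k2 c323 c734 (k1 c10897 k0)))) (by decide +kernel)
def c12717 : PP 9 3 T 0x40000001080000000000000000000008000000000000000000000000000000000000000000001000000000000000000000000000000020 := rS 0xec51985d289af0fca2a994e9a9508206ec56ab3122b84eadacfbe39b50583c3f4a7fbf50fec58998b269149746a5b1897cf2573ae74e681469bf40c932eccee63 (k8 c5355 c5356 c12185 c12683 c12308 c12526 c5565 c5381 (k8 c5380 c5379 c12458 c5440 c5353 c5441 c5439 c5476 (k8 c5474 c5324 c5321 c9692 c9743 c314 c5664 c2179 (k8 c12701 c5499 c5542 c5544 c12706 c5517 c5329 c5516 (k8 c12711 c12712 c5504 c5341 c2029 c352 c5282 c5651 (k8 c2992 c1248 c12715 c12716 c5777 c2007 c2008 c1135 (k8 c2373 c1139 c5803 c11668 c5679 c2495 c1066 c9926 (k2 c1586 c714 (k1 c10897 k0))))))))) (by decide +kernel)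
def c12718 : PP 9 3 T 0x80000000000000000000000000000000000000000000008000000100000014040000000000000000000000000000000000000000001400000000000000000 := rS 0x2064b21915e6f5 (k4 c5477 c5325 c5326 c5478 (k2 c5546 c5550 (k1 c3593 k0))) (by decide +kernel)
def c12719 : PP 9 3 T 0x45000000000000042000001080000000000000000000008000000100000014000000000010000000000000000000000000200000000000000000000002000 := rS 0x33473e0ef8cd2cd6f1b295c7156c08be7d3f98d026f54ac4e7a043c4769b3ce8dcf23b04a7d4261 (k8 c5445 c5398 c5448 c5438 c289 c5441 c2363 c12458 (k8 c12185 c5238 c5411 c897 c12526 c5379 c1332 c5531 (k8 c5565 c5380 c5355 c5358 c5442 c5439 c5694 c2034 (k8 c835 c5683 c3599 c12178 c1247 c1246 c2185 c5452 (k4 c5204 c5534 c5537 c11661 k0))))) (by decide +kernel)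
def c12720 : PP 9 3 T 0x1000000000000042000001080000000000000000040008000000100000014040000000010000000000000000000000000200000001400000000000002000 := rS 0xe59adf19ca480e10b093c6ca13d64e24a45c0fdc6150a7c864579bd4be7d3f98ce68137e813a2143c4769b3ce8a406373c8ec13f3 (k8 c12718 c5438 c289 c5441 c2363 c9741 c9694 c12458 (k8 c12185 c5238 c5411 c897 c5528 c5412 c12526 c5565 (k8 c5380 c5379 c5355 c5358 c5442 c5439 c5477 c5325 (k8 c5326 c5478 c5448 c5398 c5445 c12719 c5508 c5583 (k8 c5996 c834 c5342 c353 c3599 c12178 c5651 c9148 (k8 c1718 c1091 c5433 c544 c6120 c8709 c547 c11661 k0)))))) (by decide +kernel)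
def c12721 : PP 9 3 T 0x20000000000000000000000000000000000000000000080000000000000000001000000000000000000200000005400000005400002000 := rS 0x35879fb1510acc5203 (k8 c9741 c9694 c5532 c5528 c5414 c2631 c3584 c1223 (k1 c2361 k0)) (by decide +kernel)
def c12722 : PP 9 3 T 0x1000200080000000000000000000000000100000000000000000000000400000000010000000000000001000000000000004001000082 := rS 0x2e93 (k2 c1563 c11672 (k1 c5648 k0)) (by decide +kernel)
def c12723 : PP 9 3 T 0x8000000000001000200080000000000000200040000000100000000000000000000000000000000000000000000000000000001400000004001002002 := rS 0x72e1f01800cdf508fd967d3f95c6e791d8247a41 (k8 c5340 c5560 c5438 c289 c5441 c2363 c5353 c5358 (k8 c5442 c5464 c5576 c5578 c5580 c9764 c12722 c9230 (k2 c5460 c5534 (k1 c11685 k0)))) (by decide +kernel)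
def c12724 : PP 9 3 T 0x4000000000000061000001080000000000000000040008000000000000080000000000000000000000000000000800000200000001400000001000002000 := rS 0xb8e19661668cd2ec5ef78c3c6a7e2d2524b1ed60be7d3f98c479d409bc0087888a43203689d46e791d824e227572b552b139e836645 (k8 c5326 c12185 c12526 c5379 c1332 c5531 c2034 c5683 (k8 c2986 c835 c5438 c289 c5441 c2363 c5440 c1975 (k8 c9741 c9701 c9694 c5411 c897 c9744 c5565 c5380 (k8 c12458 c9733 c5355 c5358 c5442 c5439 c5651 c5560 (k8 c5342 c9806 c12721 c1248 c2392 c1058 c12723 c5196 (k8 c5451 c5452 c5492 c5495 c830 c1246 c11661 c9210 (k1 c2473 k0))))))) (by decide +kernel)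
def c12725 : PP 9 3 T 0x80000000000000000000008000000000000000000000000000000000080008000000000000001010000000000002000000000 := rS 0x1d8a3349250ba352d8c4ae75 (k8 c5440 c5353 c5476 c5474 c5324 c5321 c2991 c2757 (k4 c9926 c1585 c1563 c10897 k0)) (by decide +kernel)
def c12726 : PP 9 3 T 0x4004000000000045000000000000000000000100000008000000000000000040000000010000000000000000000000000000000000000440000000000000 := rS 0xef4a1e6f5 (k4 c5477 c5325 c5226 c5196 (k1 c9979 k0)) (by decide +kernel)
def c12727 : PP 9 3 T 0x8000000000000000200080000000000000000000008000000000000000000000000000000000080000000000000010001010000000000002000000000 := rS 0x9f (k2 c12725 c12178 k0) (by decide +kernel)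
def c12728 : PP 9 3 T 0x11000000000000000000040008000000000000000000000000010100000000000000004001000002000000000400000000002002 := rS 0x66cd1ca4bc037 (k4 c2363 c9230 c662 c5534 (k2 c5537 c323 (k1 c11661 k0))) (by decide +kernel)
def c12729 : PP 9 3 T 0x40004000000000041000011000000000000000000000008000000000000040000000000010000000000000000004001000000000008000400002000002000 := rS 0xe0f0a7d96df660f42e3919ca06f59 (k8 c5342 c2363 c5226 c5316 c5317 c5433 c5436 c11661 (k4 c2510 c1090 c2756 c5537 (k2 c8709 c9396 k0))) (by decide +kernel)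
def c12730 : PP 9 3 T 0x48000000000000041000001080000000000000000000008000000000000010040000000010000000000000000004000000201000001400000000100002000 := rS 0x4ba553cc4f12b44827ac9c495df6aa2e06d721915e6f53c9fceb9d46a2740c932eccee631480c7609 (k8 c5438 c289 c9741 c9694 c5355 c5356 c12185 c12683 (k8 c12308 c12526 c5567 c5381 c12458 c5440 c5358 c5441 (k8 c5477 c5325 c5326 c5478 c5507 c5508 c5583 c5585 (k8 c5725 c5996 c834 c5342 c353 c5651 c2758 c12729 (k4 c8136 c12178 c1585 c1644 (k1 c5678 k0)))))) (by decide +kernel)
def c12731 : PP 9 3 T 0x1000000000000040000001080000000000000000040008000000100000000000000000000000000000000000001000000200000000000000000000000000 := rS 0x723366a49289ef15655c71122b605ef30ec7e63b1b92418477bbfe02d105a0832875880006f5049e4ea7309a251fa064994ee6307816222154ed3679d (k8 c12458 c12185 c5238 c5531 c5528 c5411 c12717 c9739 (k8 c5355 c5356 c12683 c12308 c12526 c5568 c5567 c5564 (k8 c5379 c5440 c5441 c5438 c5477 c9741 c9744 c1332 (k8 c897 c9701 c5672 c2309 c1975 c1977 c2396 c1972 (k8 c5779 c5645 c10368 c2363 c289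 c12718 c12720 c12728 (k8 c12730 c5694 c2034 c12724 c835 c5683 c5559 c12726 (k4 c12178 c2991 c2757 c2016 (k2 c2013 c324 (k1 c11661 k0))))))))) (by decide +kernel)
def c12732 : PP 9 3 T 0x5000000000000000000200080000000000000200000000000000001000000000000000004000000500000004008000000000040001400200005541400000 := rS 0x69b5dabde803ffe68b71ad3c64b148f4fe7546c0e53e1 (k8 c5534 c5317 c10690 c5381 c5440 c5358 c5560 c5339 (k8 c5342 c10342 c3584 c2617 c11751 c5548 c2573 c5694 (k4 c5204 c3073 c2146 c5496 (k1 c5278 k0)))) (by decide +kernel)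
def c12733 : PP 9 3 T 0x1001000000000002000000000000000000000000000008000000000000000001000000001000000000001144008000000080000000000440000550404000 := rS 0x7b164b695 (k4 c5446 c5474 c2003 c12148 (k1 c9904 k0)) (by decide +kernel)
def c12734 : PP 9 3 T 0x1000000000000042000001080000000000000000000008000000100000000000000000000000000000000000008000000080000000000440000000004008 := rS 0x1bed26bad3dc3225b42b0f614960389767f858a3830a6c32f1799f4fe7511a05129d8a88532b358a3526090b97c4a6f13b3506a9da6ccee1f23a3c920b2d84f419d (k8 c12458 c12526 c5564 c5474 c692 c10368 c5568 c5779 (k8 c1112 c5356 c12185 c5238 c5531 c2007 c12000 c267 (k8 c5565 c1113 c5439 c1107 c5438 c261 c5381 c2179 (k8 c5532 c5530 c5528 c5414 c5412 c5567 c5380 c9733 (k8 c5440 c5358 c5442 c5325 c9695 c5393 c5397 c5445 (k8 c9933 c733 c5534 c2558 c8166 c12733 c263 c538 (k8 c2111 c5651 c398 c564 c397 c12732 c3584 c2185 (k2 c5861 c2514 (k1 c2136 k0))))))))) (by decide +kernel)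
def c12735 : PP 9 3 T 0x4000000000000065000200000000000000000200000000000000000000000001000000000000000000000004008050500080004001400000005440400100 := rS 0x77fc6d76ab15588b65a5d5eff0c2d2524b148f4228109a262a2159ac51b03 (k8 c10690 c5381 c2179 c5532 c5528 c5414 c5567 c5564 (k8 c5380 c5558 c5560 c5339 c5342 c12670 c3584 c5648 (k8 c2573 c1249 c1227 c1320 c901 c5683 c734 c2891 (k4 c2033 c5287 c10339 c5196 k0)))) (by decide +kernel)
def c12736 : PP 9 3 T 0x80000000000000000000000000000000000000000000008000000100000004040000000000000000000000000000000000000000001400000000000000000 := rS 0x101 (k2 c5592 c12718 k0) (by decide +kernel)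
def c12737 : PP 9 3 T 0x4004000000000045000000080000000000000100000008000000000000000040000000000000000000000000008000000000000000000000000000000000 := rS 0x33bbd28 (k4 c5226 c5196 c11562 c5453 k0) (by decide +kernel)
def c12738 : PP 9 3 T 0x20000000000000000000000000000000000000000000020005000000200100000020000004000000000000000000000440000440400000 := rS 0xca6c7296672744299 (k8 c5530 c5528 c5412 c3073 c2891 c2558 c2563 c1227 (k1 c3578 k0)) (by decide +kernel)
def c12739 : PP 9 3 T 0x20000000000000000000000000000000000000000000000005000000000120000000000004008000000080000000000440000440400000 := rS 0xca6c7296672744299 (k8 c5530 c5528 c5412 c899 c734 c2558 c2563 c1227 (k1 c3578 k0)) (by decide +kernel)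
def c12740 : PP 9 3 T 0x5000000000000065000200080000000000000000000008000000100000000001000000000100000000000004008000000080000001400440005440404000 := rS 0xd46bc03c5f37bbfcb2ac458755e28ac96c127d3f95cee7540a2566b146c0d8af3 (k8 c5325 c12739 c10690 c5381 c2179 c5532 c5567 c5380 (k8 c5440 c5356 c5353 c5358 c5442 c5438 c5474 c12735 (k8 c5651 c1243 c538 c738 c5683 c2003 c2892 c9904 (k4 c12736 c12737 c5694 c5465 (k2 c5287 c12738 k0))))) (by decide +kernel)
def c12741 : PP 9 3 T 0x1000400000000041000200080000000000000200000008000000001000000000000000081000000400000104040000000080000001400000005540400000 := rS 0xf0b4534df5033d96940c07169292c12c521122974b6093e9fcae8d09a247a43 (k8 c5478 c2768 c5567 c5564 c5381 c5353 c5358 c5442 (k8 c5438 c5474 c5321 c5326 c5558 c5339 c5342 c8187 (k8 c12670 c3584 c2003 c5648 c376 c1320 c1587 c2019 (k4 c2515 c1199 c2136 c5536 (k1 c5688 k0))))) (by decide +kernel)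
def c12742 : PP 9 3 T 0x1000000000000040000001080000000000000000040008000000100000000000000000000000000000000000001000000000000000000000000000000000 := rS 0x2c81c661d940a2b2d2efb5516d7f7317623b1b9248e1f0602d9a86138942e9341808cc0134bc4ba357996c625f049f4f27f2b9d446814684cde8947e8192653b98c1e058a88532a959ed3679d (k8 c12458 c12185 c5238 c5532 c5531 c5530 c5528 c5414 (k8 c12717 c9739 c5355 c5356 c12683 c12308 c12526 c5568 (k8 c5567 c5565 c5564 c5381 c5380 c9733 c5440 c5353 (k8 c5358 c5441 c5442 c5438 c5439 c5476 c5474 c5325 (k8 c5324 c5321 c9695 c12731 c8135 c5664 c5642 c2007 (k8 c261 c1107 c1113 c267 c5672 c12000 c692 c8435 (k8 c1112 c5779 c10368 c2363 c289 c12734 c12739 c12740 (k8 c5507 c5583 c5585 c5725 c5861 c12741 c5651 c5896 (k4 c538 c5316 c5432 c2003 (k1 c10897 k0)))))))))) (by decide +kernel)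
def c12743 : PP 9 3 T 0x22000000080000000000000000000000000000200000000080000000000010000020000000150100000000000000000440000400000408 := rS 0x68349ae386aa5536194f97cfa7f3b9d52609 (k8 c5438 c261 c5440 c5356 c5358 c5442 c5439 c5448 (k8 c5393 c5397 c5446 c2890 c9933 c2032 c3608 c398 (k1 c4499 k0))) (by decide +kernel)
def c12744 : PP 9 3 T 0x1004000000000045000200000000000000000000000000000000200000044000000000000000000020001104040040100000000000000400000540400000 := rS 0x1f380ad1c6ca4d285ac390cb4dab28ef237df59 (k8 c5341 c5504 c5381 c5196 c5226 c5454 c5496 c5315 (k8 c5317 c5278 c2931 c6193 c2033 c2622 c1326 c2146 (k2 c5548 c5694 k0))) (by decide +kernel)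
def c12745 : PP 9 3 T 0x1000000000000044000211080000000000000000000000000000200000000004000000000000000000000000001400000010000000000000000000002410 := rS 0x136191ca5a50d16a35fc5b17b16038ff5622d5e286289c4a1749ac43e0233004d30366a19e25f3e9fcea2340a34266f44b24ee6388a74429959ed3df591b9e47609 (k8 c5438 c289 c5441 c2363 c5341 c5504 c5238 c5532 (k8 c5530 c5528 c5412 c5411 c5355 c5356 c12308 c5567 (k8 c5565 c5564 c5381 c5380 c9733 c5440 c5358 c5442 (k8 c5439 c9695 c5672 c12000 c10690 c897 c8135 c5664 (k8 c5642 c2362 c2179 c261 c1107 c1113 c267 c12739 (k8 c5651 c1243 c738 c5683 c2892 c2028 c263 c2111 (k8 c12743 c12744 c5465 c5287 c1711 c12446 c2891 c398 (k2 c5315 c1232 (k1 c3578 k0))))))))) (by decide +kernel)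
def c12746 : PP 9 3 T 0x11000000000000000000000008000000000000000000000000010000000000000400004001000200000000000404000080002000 := rS 0xcc7e0e4d437 (k4 c2363 c2361 c2472 c1223 (k2 c11661 c2504 k0)) (by decide +kernel)
def c12747 : PP 9 3 T 0x62000001080000000000000000000008000000000000000000000000010000000080000000004000010201000000000000002000002000 := rS 0x37fe6e3f0a40f4b53587c66d670b287fe34da853e5f639f4f27f31e74e681899bd1fa088a762a6d598ec1200 (k8 c9744 c5438 c289 c5532 c5529 c5414 c5412 c5411 (k8 c12526 c5568 c5565 c5382 c5380 c5379 c12458 c5355 (k8 c5358 c5441 c5442 c5357 c5439 c5448 c5398 c5397 (k8 c12178 c2909 c3599 c1718 c1247 c2186 c12746 c1058 (k8 c1094 c10556 c3604 c5457 c1775 c5589 c2948 c5691 k0))))) (by decide +kernel)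
def c12748 : PP 9 3 T 0x1000000000000040000001080000000000000000040008000000000000000000000000000000000000000000001000000000000000000000000000000400 := rS 0x1c8cd9a924a27bc5b1571c55a241398432295880006687b99da287410ec6e0c79824f27539e8192653b98c1e0510aa769b3cefbeb31c (k8 c12742 c5341 c5504 c12458 c12185 c5238 c5531 c5528 (k8 c12717 c9739 c5355 c5356 c12683 c12308 c12526 c5379 (k8 c5440 c5441 c5438 c5325 c5645 c2363 c289 c12745 (k8 c163 c1975 c2007 c1972 c5664 c9741 c9744 c1332 (k8 c9694 c9701 c12728 c352 c5651 c2029 c668 c5683 (k8 c12747 c12726 c12178 c2991 c2757 c2016 c2013 c324 (k1 c11661 k0))))))) (by decide +kernel)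
def c12749 : PP 9 3 T 0x1000000000000000000011000000000000000000000008000000000000000000000000000000000000000000001000000000000000000000000000000800 := rS 0x41a1cb6f5 (k4 c5477 c5474 c692 c2309 (k1 c5672 k0)) (by decide +kernel)
def c12750 : PP 9 3 T 0x45001000000000044000200080000000000000000000000000000000000014000000000000000000001014000000000000201000000000000000000000000 := rS 0x4b77995e3571c55b022f9f4fe63409bd6273 (k8 c5379 c1332 c5565 c5380 c5355 c5358 c5442 c5439 (k8 c5694 c2034 c835 c5683 c12178 c3599 c5204 c1246 (k1 c5452 k0))) (by decide +kernel)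
def c12751 : PP 9 3 T 0x49000000000000064000001000000000000000000080008000000000000015000000000000000000104000000000000000000000000400000010000000000 := rS 0x4b595609c94af8190c8af30dbd4421f (k8 c5517 c5528 c5477 c5475 c5325 c5326 c5478 c5508 (k4 c5584 c9072 c9331 c8928 (k2 c5342 c5700 (k1 c5651 k0)))) (by decide +kernel)
def c12752 : PP 9 3 T 0x45000000000000046000200080000000000000000000000000000000100014000000000000000000001001000000000001600000000000000000000000000 := rS 0x3c07a30a6d429f2fb1cf263 (k8 c5355 c5441 c5357 c5439 c5448 c5398 c5397 c5445 (k2 c10556 c12750 (k1 c5457 k0))) (by decide +kernel)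
def c12753 : PP 9 3 T 0x40000000000000000000000000000000000000001000000000000000000000001400000000000000000000000001400000015540000000 := rS 0x9558 (k2 c5651 c3584 (k1 c5342 k0)) (by decide +kernel)
def c12754 : PP 9 3 T 0x8000000000000000040000000014100000001000000000000000202000000000440000100000000 := rS 0x19a3919a512435798c5ea00 (k8 c9744 c5477 c5476 c5325 c5324 c662 c831 c323 (k2 c324 c2016 (k1 c3587 k0))) (by decide +kernel)
def c12755 : PP 9 3 T 0x41000000000000040000001080000000000000000080008000000000000015000000000014000000000000000000000000200000001400000000000000000 := rS 0xe466cd492513de2ac89362b513ab8e2ad817bc8a35798c5ea2355c453b1536acd6273d00a43203358003e611bbdc76a910ed33ac932eccee63 (k8 c5355 c5356 c12185 c12683 c12308 c12458 c5238 c5528 (k8 c5531 c5332 c5333 c5518 c12754 c5517 c9744 c1058 (k8 c9741 c9701 c9694 c12526 c5379 c1332 c5532 c5529 (k8 c5414 c5412 c5411 c8880 c9733 c5477 c5476 c5325 (k8 c5324 c5326 c12751 c5694 c2034 c835 c5683 c2986 (k8 c1248 c12752 c12753 c5559 c12726 c12178 c2991 c2757 (k4 c2016 c2013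 c324 c3587 k0))))))) (by decide +kernel)
def c12756 : PP 9 3 T 0x1000000000000040000001080000000000000000000008000000000000000000000000000000000000000000005000000000000000000000000000000000 := rS 0x15a708e2456bf27e9ac5200019a0ceff80b4504cf3c9d4e71337a24cb1154acf69b323a3c920f0284f401f7bd28179d (k8 c12458 c12749 c12748 c5333 c5517 c12526 c5564 c12717 (k8 c9739 c10368 c5568 c5779 c12185 c5238 c5532 c5531 (k8 c5411 c12683 c5567 c5565 c5382 c5379 c5440 c5441 (k8 c11551 c5672 c1975 c1977 c2396 c2007 c5664 c9741 (k8 c9744 c9694 c1058 c2392 c12755 c5548 c5589 c12736 (k2 c8385 c2029 (k1 c835 k0))))))) (by decide +kernel)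
def c12757 : PP 9 3 T 0x1000000000000040000001080000000000000000000008000000100000000000000000000000000000000000008000000000010001400440000040004008 := rS 0x719ca0323fac8f420d2f1f7daa8b6bfbb62432e8d4b6313e9fcae7540a35131510a6566cd129bc4e13d00758a172fa4c126634c4768c932eccee6311e75e6f1 (k8 c9695 c5325 c12458 c9733 c5355 c5356 c12185 c12683 (k8 c12308 c5238 c5411 c897 c5664 c5438 c261 c5439 (k8 c1107 c12739 c263 c12526 c5564 c267 c5565 c1113 (k8 c2073 c5532 c5530 c5528 c5414 c5567 c5381 c5380 (k8 c5440 c5353 c5358 c5442 c5476 c5474 c5324 c5321 (k8 c5478 c12734 c12740 c5507 c5583 c5585 c5725 c8136 (k8 c5861 c12681 c2768 c12741 c2907 c6195 c5896 c5284 (k2 c5432 c10897 k0)))))))) (by decide +kernel)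
def c12758 : PP 9 3 T 0x1000000000000040000001080000000000000000000008000000000000000000000000000000000000000000001000000000000000000000000000000000 := rS 0x570a15b59f7c703a2712808cc012c9a50c377b87c774a2491c1711da3c7679d4684cde8fd01941e05 (k8 c12717 c9739 c12683 c12526 c5568 c5565 c5564 c5381 (k8 c12458 c12185 c9695 c5238 c5411 c12749 c5779 c10368 (k8 c12748 c5332 c5517 c5333 c5518 c12756 c897 c2111 (k8 c8135 c5664 c5642 c1113 c267 c263 c12757 c5504 (k4 c5341 c2028 c5651 c5282 (k1 c1243 k0)))))) (by decide +kernel)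
def c12759 : PP 9 3 T 0x6000000000000064000000000000000000000000000008000000100000000000000000000000000100000000000000000000000005400000011440000000 := rS 0xb513ab95b0221915e6f57bc05faff8a88552b3 (k8 c5532 c5531 c5528 c5414 c5544 c5542 c5502 c5498 (k8 c5477 c5325 c5326 c5478 c3593 c2034 c5683 c2986 (k2 c1248 c3584 k0))) (by decide +kernel)
def c12760 : PP 9 3 T 0x6000000000000064000000000000000000000000000008000000100000000000000000000000000100000000000000000000000001400000011440000000 := rS 0x13d649421 (k4 c5528 c12759 c5342 c353 (k1 c5651 k0)) (by decide +kernel)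
def c12761 : PP 9 3 T 0x4000000000000060000001080000000000000000000008000000100000000000000000000000000000000000001000000200000001400000000000002000 := rS 0xe466cd492513de2d8ab8e2adac8908635798c5ea23ce8150eb139e80c2d1678dcf2f71d8255221649976677318a432030f9adfbec (k8 c12758 c5542 c1223 c2361 c9741 c9701 c9694 c5355 (k8 c5356 c12185 c12683 c12308 c5528 c5531 c5438 c289 (k8 c5498 c5441 c2363 c5543 c5501 c12754 c12526 c5379 (k8 c1332 c5499 c12717 c12458 c9733 c5477 c5476 c5325 (k8 c5324 c5478 c12760 c5559 c2758 c2755 c5683 c12747 (k8 c12726 c12178 c2991 c2757 c2016 c2013 c324 c3587 k0)))))) (by decide +kernel)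
def c12762 : PP 9 3 T 0xa000000000000060000001000000000000000000000008000000000000000000000000000000000104000000000000000000000001400000010040000000 := rS 0x944f59561295f0321915e6f580bf5fe21 (k8 c5528 c5544 c5542 c5502 c5477 c5325 c5326 c5478 (k8 c5508 c5584 c8823 c8928 c5342 c353 c5700 c5651 k0)) (by decide +kernel)
def c12763 : PP 9 3 T 0x60000001080000000000000000000008000000000000000000000000000000000000000000001000000200000001400000000000002000 := rS 0x3919b3524944f78b62ae121c55a27acc73de1f0c8a4d661588000635798c5eaabce9cf40c932eccee637ba1da2fd67fb042a91b9e47609 (k8 c5438 c289 c5441 c2363 c5531 c5528 c12758 c5543 (k8 c5542 c5501 c5499 c5498 c5355 c5356 c12185 c12683 (k8 c12308 c12526 c5379 c12458 c8880 c5477 c5476 c5325 (k8 c5324 c9741 c9744 c1332 c12754 c1223 c9694 c9701 (k8 c2361 c12762 c12761 c5341 c352 c2029 c668 c5651 (k8 c5683 c12747 c12726 c12178 c2991 c2757 c2016 c2013 (k2 c324 c3587 k0))))))) (by decide +kernel)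
def c12764 : PP 9 3 T 0x2000000000000064000001000000000000000000000008000000100000000000000000000000000104000000000000000000000001400000001460000000 := rS 0x3de29 (k2 c538 c12762 (k1 c12760 k0)) (by decide +kernel)
def c12765 : PP 9 3 T 0x40000000000000022000000080000000000000100040000000000000000000000000000000000000020000000150100000080000000000440000400000408 := rS 0x3c7e194b5d8a386aa54c29b0ca7cbe7d3b9d52609 (k8 c5438 c261 c5440 c5356 c5442 c5439 c5448 c5393 (k8 c5397 c5445 c5446 c2890 c9933 c733 c2032 c5317 (k2 c5534 c5287 (k1 c5168 k0)))) (by decide +kernel)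
def c12766 : PP 9 3 T 0x40000001080000000000000000040008000000000000000000000000000000000000000000001000000000000000000000000000000400 := rS 0x3112ed50c4a5afe2d8fcd210345ab15e28acfbe3858138942e9341ac4381f0119802691d8dc184923bc4b6f52f824fa793f9dcea2355ecd028d8984cde8947e80ca0f02bdd0ed180bf5ffec10aa7699d (k8 c12458 c5211 c5531 c5528 c12758 c5544 c5542 c5502 (k8 c5501 c5499 c5498 c12717 c9739 c12683 c12526 c5568 (k8 c5567 c5565 c5564 c5382 c5381 c5380 c12185 c8880 (k8 c9733 c5440 c5356 c5358 c5441 c5442 c5438 c5439 (k8 c5477 c5474 c9695 c5779 c10368 c5645 c2363 c289 (k8 c12763 c8135 c5664 c5642 c2362 c10419 c2179 c2007 (k8 c261 c1107 c1113 c267 c263 c12764 c5504 c5341 (k8 c5651 c1243 c539 c738 c2034 c3613 c5589 c12765 (k8 c12726 c5465 c9821 c5648 c12446 c1227 c5287 c734 k0))))))))) (by decide +kernel)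
def c12767 : PP 9 3 T 0x40005000000000000000210000000000000800200000008000000500004100040000000000000000000000000000008000000000000000000000000000800 := rS 0x6a715e4c4defeff5d29375723b79542253 (k8 c5563 c5558 c5343 c5349 c5351 c5600 c5604 c9413 (k8 c6751 c8941 c696 c2313 c5207 c5676 c5469 c1001 k0)) (by decide +kernel)
def c12768 : PP 9 3 T 0x2000000000000000001010000100400000400000040000000000000000000000000000000000000000000000001400000080000000000000000000000000 := rS 0x1f6f9bdc271791bbfd37107 (k8 c5503 c5213 c5222 c5613 c5615 c5553 c5556 c5631 (k2 c739 c2011 (k1 c5274 k0))) (by decide +kernel)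
def c12769 : PP 9 3 T 0x2000000000000002000010080000400000400000040000000000000000000000000000000000000000000000001400000080000010000000000080000808 := rS 0x158b7738190e93122f (k8 c1360 c2313 c12768 c5606 c5607 c8905 c269 c1115 (k1 c5652 k0)) (by decide +kernel)
def c12770 : PP 9 3 T 0x2000000000000000001011000040400000400000040000000000000001000000000000000000000004000000001400000080000000000000000000000000 := rS 0x7c1f7827ce457788dc41dfb055caa56fb4 (k8 c5211 c5533 c5531 c5415 c5545 c5542 c5503 c5213 (k8 c12768 c5430 c5615 c3371 c3624 c2011 c5674 c5626 k0)) (by decide +kernel)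
def c12771 : PP 9 3 T 0x1000000000042000001080040000000000000040008000000100004000000000080000000000000000000081008000100000001400000000080000000 := rS 0xbb1746057b9c4e064ba48dc27177b8b932cf7f55c4e4e8fc6c7c1ef782adf699d41bd4cdf3f61a9220af18642e5f94844fa573f8f6b0291384c4a6fd024c040132ecc0a09 (k8 c5438 c12717 c12185 c12683 c8135 c5642 c261 c12526 (k8 c5565 c1113 c5564 c267 c1312 c5651 c5560 c5358 (k8 c5353 c5442 c5558 c12670 c5439 c1107 c5393 c10342 (k8 c12766 c694 c1111 c12758 c12708 c5664 c5477 c2309 (k8 c12458 c5211 c5533 c5545 c5498 c9739 c9713 c5569 (k8 c5568 c5383 c5382 c8880 c1000 c12767 c12769 c3221 (k8 c3215 c4608 c2358 c2359 c12770 c5391 c5607 c5610 (k4 c8905 c1115 c3616 c6191 (k2 c4685 c1359 k0))))))))) (by decide +kernel)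
def c12772 : PP 9 3 T 0x10000000000000004000211000000000000800000000008000000400000100040000000000000000000000000000000000800001400000000000000010800 := rS 0xbbc56e3137bfae949bab (k8 c5600 c5604 c9413 c6751 c696 c2313 c5240 c5676 (k2 c5430 c2657 k0)) (by decide +kernel)
def c12773 : PP 9 3 T 0x2000000000000002000010080000000000400000040000000004010000000000000000000000000000000001081400000080001415400000000080000808 := rS 0x45fe924d2df8a26a (k8 c1111 c4756 c12769 c5389 c999 c5222 c3078 c11918 k0) (by decide +kernel)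
def c12774 : PP 9 3 T 0x220000000000010000000000000000000000000054000000000000000000000401000000000000000000000000000000000000000000000 := rS 0x176bd8aae566b7 (k4 c5533 c5532 c5415 c5414 (k2 c5617 c5430 (k1 c3626 k0))) (by decide +kernel)
def c12775 : PP 9 3 T 0x1000000000042000001080040000000000000040008000000100000000000000080000000001000000000081008000100000001400000000080000000 := rS 0x31325d26e7177b8b932cf198dafe4785f8c28e04593a3f1b1f07bddff05f66d33a837a92e26b133234d45529a4423581489c262501004cbb3029bf400a (k8 c12766 c12526 c5565 c12717 c12185 c12683 c8135 c5642 (k8 c1113 c5564 c267 c1312 c5651 c5558 c694 c5563 (k8 c5343 c1111 c5381 c5664 c2179 c5382 c2588 c5477 (k8 c2309 c12458 c5211 c12758 c5545 c5544 c5498 c9739 (k8 c9713 c5569 c5568 c5383 c5326 c737 c12771 c5629 (k8 c3400 c3016 c4948 c3024 c3403 c12772 c12773 c3221 (k4 c3215 c4608 c12774 c5213 (k2 c5391 c5610 (k1 c3616 k0))))))))) (by decide +kernel)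
def c12776 : PP 9 3 T 0x20000200000010000000400000000000000010050000000000000000000000401000000001000000000800000021000000000000004000 := rS 0x34988dce2ef71789c9d1f8d (k8 c5569 c5568 c5383 c5382 c3221 c3215 c4608 c12774 (k2 c3616 c5213 (k1 c5610 k0))) (by decide +kernel)
def c12777 : PP 9 3 T 0x42000001080040000000000000040008000000000008000000000000000000001000000000041000000100001401000000000080010000 := rS 0x45be9b8d2df89b678cafe3725c2fc63e0f7bbfe0becda67506f5589991ba0350080265d9815220a (k8 c12766 c694 c12717 c12185 c12683 c8135 c5642 c1111 (k8 c12526 c5381 c5664 c2179 c5477 c2309 c12458 c5211 (k8 c12758 c5545 c5544 c5498 c9739 c9713 c5629 c3400 (k8 c3018 c3024 c3021 c3403 c12772 c12776 c12769 c5389 (k4 c5213 c5222 c12774 c5635 k0))))) (by decide +kernel)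
def c12778 : PP 9 3 T 0x2000000000000002001011000040000000400000040000000000000001000000000014800000000004000000001400000080000000000000000000000000 := rS 0x1e56cfc5cebbbf7d3709d5cadd46a54df7d33b4 (k8 c5211 c5530 c10390 c5397 c5399 c5449 c5533 c5415 (k8 c5412 c5213 c5222 c12770 c5430 c5633 c5511 c4539 (k2 c10607 c5690 k0))) (by decide +kernel)
def c12779 : PP 9 3 T 0x6000000000000046000011081040000000400000040000000040000400000010000004802000000000000001401400000880000021400000000000004000 := rS 0xf8fddf118dce25f77f92e91bb1b84e2ef71755a1e0f05 (k8 c5545 c5503 c5499 c8880 c3221 c3215 c4608 c2358 (k8 c2359 c2233 c12778 c5391 c5389 c5609 c5610 c8905 (k4 c3616 c3614 c5641 c5625 (k1 c5202 k0)))) (by decide +kernel)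
def c12780 : PP 9 3 T 0x4000000000000042000001080000000000000000040008000000100000000000000000000000000000000000001000000100000001400800000080000000 := rS 0xfb7d21bf1d2df89b676dc2d170f6637b0ed6709e994061fb8fc32747e363e0f82a7507f335154825348ad55cad813cc8b017fbdc960a8990deaa9da6751a667efb13ea1f18642e5f94844fa573f8f6b0291384c4a6fd024c040132ecc0a09 (k8 c5438 c12717 c12185 c12683 c8135 c5642 c261 c12526 (k8 c5565 c1113 c5564 c267 c1312 c5651 c5560 c5358 (k8 c5353 c5442 c5558 c12670 c5439 c1107 c5393 c10342 (k8 c5398 c5448 c12758 c5542 c5664 c5381 c12458 c5211 (k8 c5531 c5477 c5478 c5382 c12766 c2588 c5498 c5544 (k8 c5502 c5326 c5325 c3593 c2034 c5282 c1248 c694 (k8 c5563 c5340 c5343 c1111 c12708 c2309 c5412 c5545 (k8 c9739 c9713 c5569 c5568 c5383 c5456 c1773 c494 (k8 c9764 c3579 c1674 c1718 c1247 c4125 c5691 c2516 (k8 c4590 c12775 c12777 c1772 c12767 c12779 c12769 c5389 (k4 c5511 c2207 c5222 c5696 (k1 c8101 k0)))))))))))) (by decide +kernel)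
def c12781 : PP 9 3 T 0x4000000000000042000001080000000000000000040008000000100000000000000000000000000000000000001000000100000001400000000080000000 := rS 0x1bf85987b1db14c2793b9d50ed167fb106f51c8298e6694844fa3dac0a44e573fa4c4a020099766053784f4009 (k8 c5438 c12526 c5564 c5565 c12717 c12185 c12683 c8135 (k8 c5642 c1113 c261 c5358 c5353 c267 c1312 c5651 (k8 c5560 c5442 c5558 c12670 c5664 c5357 c12766 c2470 (k8 c5477 c2309 c12758 c5543 c5501 c5499 c5440 c5356 (k8 c5441 c5445 c733 c12780 c691 c3607 c5537 c2329 (k1 c5654 k0)))))) (by decide +kernel)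
def c12782 : PP 9 3 T 0x1000000080000000000000000000000000100000000000011000000014000000000001004005000000080000000000000000480400800 := rS 0x66b146c973d86076c73c9dcea83 (k8 c2309 c5440 c5356 c5441 c5357 c12293 c5648 c691 (k4 c1227 c1165 c734 c2329 (k1 c3607 k0))) (by decide +kernel)
def c12783 : PP 9 3 T 0x20000200000010000000400000000000000000050000000000000000000000401000000001000000000800000420000000000000004000 := rS 0x6264ba4dcc5f177b89c9d1f8d (k8 c5569 c5568 c5383 c5382 c3215 c4608 c3220 c12774 (k4 c5213 c5391 c5610 c3616 k0)) (by decide +kernel)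
def c12784 : PP 9 3 T 0x42000001080000000000000000040008000000000008000000000000000000001000000000081000000100001400000000000080010000 := rS 0x45f7124d2df89b678cc6d7f85f8c7c1ef77fc17d9b4cea0deab146e80d40200815220a3819b6665 (k8 c12683 c12185 c5664 c737 c12766 c694 c12717 c8135 (k8 c5642 c1111 c12526 c5381 c2179 c5477 c2309 c12458 (k8 c5211 c12758 c5545 c5544 c5498 c9739 c9713 c5629 (k8 c3400 c4948 c3024 c3403 c12772 c12783 c12769 c5389 (k4 c999 c5213 c3078 c12774 k0))))) (by decide +kernel)
def c12785 : PP 9 3 T 0x2000000000000002000011081040400000400000040000000040000400000010000000000000001004000001401000000080000400400000000080004808 := rS 0x2ec5d1815ee7138192e922f1b84e2ef64c5bed1066a (k8 c1111 c2309 c5211 c5533 c12769 c3215 c4608 c2358 (k8 c2359 c3220 c12770 c5391 c5607 c5610 c8905 c1115 (k4 c3616 c6191 c2641 c1359 k0))) (by decide +kernel)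
def c12786 : PP 9 3 T 0x40000001080000000000000000040008000000100000000000000000000000000080000000081000000100000002400000000080000000 := rS 0x4631517c4dee37f7fae96184dd5c8edf66bfe1e170f3810c8b4755c4e4e8fc6c7c1ef783c17e66a2a94d23b094844fa3dac0a44e573f894de13d005cbe93010040a09336ccca0a4eed19ed14388f3af578ad5fbec (k8 c12758 c5542 c1248 c9695 c5477 c12458 c9733 c5499 (k8 c5501 c5543 c5211 c5412 c12766 c12683 c12185 c5664 (k8 c5438 c12717 c8135 c5642 c261 c5439 c1107 c12526 (k8 c5564 c5565 c1113 c5358 c5353 c267 c1312 c5651 (k8 c5560 c5442 c5558 c12670 c12782 c694 c5563 c5343 (k8 c1111 c12708 c5545 c5503 c5498 c9739 c9713 c5569 (k8 c5568 c5383 c5382 c8880 c5327 c5326 c5478 c737 (k8 c5028 c12784 c1384 c1000 c12785 c5349 c5351 c5600 (k8 c5604 c9779 c9413 c6751 c8941 c3127 c696 c2313 (k4 c3456 c5676 c5697 c4754 k0)))))))))) (by decide +kernel)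
def c12787 : PP 9 3 T 0x40000001080040000000000000040008000000000008000000000000000000001000000000001000000100000000400000000080000000 := rS 0x22df4dc696fd678cafe3785f8aae272747e363e0f7bbfe0ab1469a8aa5348ec252113e8f6b0291395cfe253784f40172fa4c040102824cdb3328293bb467b450fec11e75eaf1 (k8 c9695 c5477 c12458 c9733 c12758 c5499 c5501 c5543 (k8 c5211 c5412 c12766 c12683 c12185 c5664 c5438 c12717 (k8 c8135 c5642 c261 c5439 c1107 c12526 c5564 c5565 (k8 c1113 c5358 c5353 c267 c1312 c5651 c5560 c5442 (k8 c5558 c12670 c12782 c694 c5563 c5343 c1111 c5381 (k8 c2179 c5545 c5544 c5498 c9739 c9713 c5569 c5568 (k8 c5383 c5382 c8880 c5629 c3400 c3024 c3021 c3403 (k4 c12772 c12785 c5389 c5213 (k2 c5222 c12774 (k1 c5635 k0)))))))))) (by decide +kernel)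
def c12788 : PP 9 3 T 0x40000001080000000000400000040008000000000000000000000000000000000080000000001000000100020000400000000080000000 := rS 0x2fe462f168af0bb890646efab86e96fc5b55a36272747e341f7d2a94d23b094844fa3dac0a44e573f894de13d005cbe93010040a090527768cf68a1c479d7abc438bd85e1ccdb332ad5fbec (k8 c12758 c5542 c1248 c12683 c12185 c5664 c4565 c12787 (k8 c2994 c2003 c9695 c5477 c12458 c9733 c5499 c5501 (k8 c5543 c5211 c5412 c12766 c5438 c12717 c8135 c5642 (k8 c261 c5439 c1107 c12526 c5564 c5565 c1113 c5358 (k8 c5353 c267 c1312 c5651 c5560 c5442 c5558 c12670 (k8 c12782 c694 c5563 c5343 c9704 c9739 c5569 c5568 (k8 c5383 c5382 c5381 c8880 c5474 c12785 c5389 c2207 (k8 c709 c763 c2037 c2219 c5213 c1251 c1116 c270 (k4 c589 c310 c5431 c3586 k0))))))))) (by decide +kernel)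
def c12789 : PP 9 3 T 0x40000001080000000000000000040008000000100000000000000000000000000080000000001000000100000002400800000080000000 := rS 0x8c62a2f89bdc6feff5d2c309bab91dbecd0b87b31bcd670e1d9458811c516b521914bb472d98ce68146c4d128f8fbde03077ebfe0a83f99a8aa5348a7d4261f186760660527768cf68a1fd823cebd5e2172fca4227d2b9fc7a9304f85c641ac0a44e13128080265d9814dfa0 (k8 c12526 c5565 c12717 c12185 c12683 c8135 c5642 c1113 (k8 c5564 c267 c1312 c5651 c5340 c1773 c5456 c5438 (k8 c261 c5560 c5358 c5353 c5442 c5558 c12670 c5439 (k8 c1107 c9695 c5477 c12458 c9733 c12758 c5499 c5501 (k8 c5543 c5211 c5412 c12766 c5664 c12782 c5393 c10342 (k8 c5445 c5398 c5448 c694 c5563 c5343 c1111 c12708 (k8 c2309 c5545 c5544 c5542 c5503 c5502 c5498 c9713 (k8 c5568 c5567 c5382 c5381 c5380 c5379 c5355 c5474 (k8 c5327 c5321 c5326 c5478 c1248 c12786 c2988 c3613 (k8 c8187 c3599 c4565 c1718 c1247 c5691 c2516 c4590 (k8 c12787 c12788 c5349 c5351 c5600 c5604 c9779 c9413 (k8 c6751 c8941 c3127 c696 c2313 c3456 c5676 c5697 (k1 c4754 k0))))))))))))) (by decide +kernel)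
def c12790 : PP 9 3 T 0x4000000000000044000000000000000000000000000000000000000400014000000000000000000041000001515400000080000000000000000000000000 := rS 0x812b116b1 (k4 c2179 c738 c5683 c3613 (k1 c2034 k0)) (by decide +kernel)
def c12791 : PP 9 3 T 0x4000000000000040000001080000000000000000040008000000100000000000000000000000000000000000001000000100000000400000000080000000 := rS 0xd766329be7b388ed16ae62920c2a14fec252911e846b02978b1cfa793f95cc6773a88ce68146c4d128f43b4602cf7ffb13aa9da675060a7a99926090b97c4a6f138080265d981427a0 (k8 c12526 c5564 c12717 c12185 c12683 c8135 c5642 c267 (k8 c5565 c1113 c5439 c1107 c5438 c261 c5664 c5477 (k8 c12766 c2309 c12458 c5211 c5531 c5412 c12758 c5544 (k8 c5543 c5502 c5501 c5499 c5568 c5567 c5382 c5381 (k8 c5380 c5379 c9733 c5440 c5356 c5355 c5353 c5358 (k8 c5441 c5442 c5357 c9695 c1312 c5651 c5558 c5560 (k8 c694 c12670 c12782 c5448 c5398 c5445 c12781 c733 (k8 c12790 c12786 c12789 c2988 c691 c2947 c3599 c3607 (k2 c2192 c1247 k0))))))))) (by decide +kernel)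
def c12792 : PP 9 3 T 0x6004400000000000001011000040000000400000040000000000000000000000000000000000000004140400081400000080000000000000000000000000 := rS 0x1f6927c7cb7ec139e13915dfd371077ec153ab94caa56fb4 (k8 c5211 c5533 c5531 c5530 c5415 c5412 c5545 c5542 (k8 c5503 c5213 c5222 c5430 c5615 c5556 c5633 c3624 (k4 c12770 c10607 c5626 c999 (k2 c5206 c5595 k0)))) (by decide +kernel)
def c12793 : PP 9 3 T 0x6004000000000002000011080040000000400000040000000000000000000000000000000000000004000000081400000080000000000000000020000808 := rS 0x425f37bc860c9e2e158b773897de06437fc5e91e22383aa546a54df7d33b4 (k8 c5211 c5530 c10390 c5397 c5399 c5449 c5531 c5503 (k8 c9733 c9695 c12792 c5390 c5389 c5606 c5607 c5609 (k8 c5610 c8905 c269 c1115 c5652 c519 c1252 c589 (k4 c697 c740 c2039 c5274 k0)))) (by decide +kernel)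
def c12794 : PP 9 3 T 0x4000000000000042000001080000000000000000040008000000100000000000000000000000000000000000001000000100000000400000000000000000 := rS 0xf8c5626f77f857d74a4dd5dbecde1f19e93619639e4c78d8fc153a172ffcf0e580796caa53949f47a573fa4c128a382d6226b599ce2a6d572442358148703ef37888deefd0daac4227098940401029bccc6541829eaa9da675ff0143fb11e8989a3741b3 (k8 c12185 c12526 c5381 c5382 c5567 c5568 c12758 c5499 (k8 c5502 c5544 c12458 c5211 c5531 c5477 c12766 c2309 (k8 c12683 c5664 c5565 c12717 c8135 c5642 c1113 c5564 (k8 c267 c5528 c8880 c5475 c5542 c5498 c9733 c9695 (k8 c5325 c12791 c3581 c538 c5651 c5558 c694 c12790 (k8 c5529 c5414 c5379 c5532 c2305 c9727 c1248 c3604 (k8 c2988 c5438 c261 c5358 c5353 c5560 c5442 c12670 (k8 c5563 c5343 c5474 c9739 c9250 c4565 c12708 c5439 (k8 c1107 c5412 c5545 c9713 c5569 c5355 c5441 c5357 (k8 c5393 c5397 c10556 c10342 c5457 c12793 c5349 c5600 (k8 c5604 c9413 c6751 c12767 c2218 c696 c2313 c5676 (k2 c9511 c3899 k0)))))))))))) (by decide +kernel)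
def c12795 : PP 9 3 T 0x4000000000000040000001080000000000000000040008000000100000000000000000000000000000000000001000000100000000400000000000000000 := rS 0x66b1528973d86077b1948f42358148703ef17986d8e7d3c9fcae773a88d56f743b45facff627442a9da675060a7a99926090b97c4a6f138080265d981427a0 (k8 c12526 c5564 c12717 c12185 c12683 c8135 c5642 c267 (k8 c5565 c1113 c5439 c1107 c5438 c261 c5664 c5477 (k8 c12766 c2309 c12458 c5211 c5531 c5528 c5412 c12758 (k8 c5543 c5542 c5501 c5499 c5498 c8880 c9733 c5440 (k8 c5356 c5353 c5358 c5441 c5442 c5357 c5475 c5325 (k8 c9695 c12791 c3581 c538 c5651 c5558 c5560 c12670 (k8 c12794 c12293 c5648 c691 c1227 c376 c734 c2016 (k1 c3607 k0)))))))) (by decide +kernel)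
def c12796 : PP 9 3 T 0x4000000000000040000001080000000000000000040008000000100000000000000000000000000000000000001000000100000000000000000000000000 := rS 0x570a12359233c51b1344a3c1e8780bffd8a9da675060a7a9984a6f138080265d981427a0 (k8 c12526 c5564 c12717 c12185 c12683 c8135 c5642 c267 (k8 c5565 c1113 c5664 c5477 c12766 c2309 c12458 c5211 (k8 c5531 c12758 c5544 c5502 c5499 c9739 c5568 c5567 (k8 c5382 c5381 c9695 c12795 c5562 c2785 c5651 c12790 (k1 c1243 k0))))) (by decide +kernel)
def c12797 : PP 9 3 T 0x40000001080000000000000000040008000000100000000000000000000000000000000000001000000100000000000000000000000000 := rS 0xac9202090f709c0401d988d1b1309a251fa0328150f017ffb22bb4cea0c14f5 (k8 c5477 c12766 c2309 c12458 c5211 c5414 c12758 c5544 (k8 c5502 c5499 c12717 c12683 c12526 c5568 c5567 c5564 (k8 c5382 c5381 c9733 c12185 c8135 c5642 c267 c12796 (k4 c8783 c694 c695 c5558 (k1 c10038 k0))))) (by decide +kernel)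
def c12798 : PP 9 3 T 0x44000000000000000000000000000000000000001500015000000000000000000401000000515400045200000000000000000000010800 := rS 0x22e06ac57ad3de7148801626b (k8 c1223 c1332 c9744 c694 c667 c8783 c3604 c1248 (k4 c5683 c2034 c2888 c3613 k0)) (by decide +kernel)
def c12799 : PP 9 3 T 0x2001000000000000000200080000000000000100040008000100100000000000000000000000000000004000000000000201000000400800000000000000 := rS 0xac6a1c1afe21efcc66f7 (k8 c5498 c492 c12708 c1681 c5168 c5465 c12178 c12314 (k2 c835 c2890 k0)) (by decide +kernel)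
def c12800 : PP 9 3 T 0x200000000000000000000000000000000001100000000000000000000000400000000000000001400000000800000010000004002 := rS 0x38ad44e9139c4cde8f (k8 c5568 c5565 c5382 c5379 c2785 c2864 c2346 c668 (k1 c3604 k0)) (by decide +kernel)
def c12801 : PP 9 3 T 0x2000000080000000000000000000008000000100100000040000000040000000020001000000000001400000000005000008000000800 := rS 0x643a6bb54827a4aa6d3e93219146a312fb1cf263 (k8 c5355 c5441 c5357 c5439 c5476 c5324 c5326 c5478 (k8 c5444 c5448 c5397 c5446 c10556 c349 c2890 c2032 (k2 c691 c3588 (k1 c492 k0)))) (by decide +kernel)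
def c12802 : PP 9 3 T 0x42000000000000001000000080000000000000000000008000000100000000000000040040000000020001104000000001000000000004800008001400802 := rS 0x1a8976ba69c60720ca086451a8c4bec73c98da2fd1ef8466f7 (k8 c5498 c492 c5456 c2861 c5542 c5501 c5355 c5441 (k8 c5357 c5439 c5476 c5324 c5326 c5478 c5648 c349 (k4 c5432 c1773 c10374 c10298 (k2 c1231 c3588 (k1 c2891 k0))))) (by decide +kernel)
def c12803 : PP 9 3 T 0x40001000000000000000000000000000000000000040008000100100000000000000000140000000000000002000000000000000004405004000000000800 := rS 0x35bc441219146a31 (k8 c5476 c5324 c5326 c5478 c10205 c9383 c3588 c5465 k0) (by decide +kernel)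
def c12804 : PP 9 3 T 0x2000000000000001000000080000000000000000040008000000100000040000000040040000000020001102001100001000000004404800008001400802 := rS 0x2032dae9a3d81e50d54ba4867e1219146a312fb1cf2637ba1da2cf41bd7e63d (k8 c2861 c12708 c5477 c2309 c5543 c5501 c5499 c5498 (k8 c5355 c5441 c5357 c5439 c5476 c5324 c5326 c5478 (k8 c5456 c492 c12802 c1637 c2891 c12803 c5432 c690 (k4 c10374 c12424 c1327 c3588 (k1 c350 k0))))) (by decide +kernel)
def c12805 : PP 9 3 T 0x1000000080000000000000000000008000000100100001000000000440000000020001104000004001400000000015000000001400002 := rS 0x1a89719a6a5061219146a312fb1cf263 (k8 c5355 c5441 c5357 c5439 c5476 c5324 c5326 c5478 (k4 c662 c5648 c3598 c5316 (k2 c1231 c3588 (k1 c2891 k0)))) (by decide +kernel)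
def c12806 : PP 9 3 T 0x2000000000000000000000080000000000000000040008000000100000000000000040040100000021001102001100001400000006404000008001400802 := rS 0x35466974935c827b1dec60643228d462f743b45facf88a0dea3d (k8 c2861 c5477 c2309 c9727 c5543 c5542 c5501 c5499 (k8 c5498 c5476 c5324 c5326 c5478 c2034 c12801 c12804 (k8 c691 c511 c12424 c12805 c1637 c323 c2891 c3588 k0))) (by decide +kernel)
def c12807 : PP 9 3 T 0x40000001080000000000000000040008000000100000000000000000000000000000000000001000000000000000000000000000000000 := rS 0x2b5a68a3837d2026247cc8e3fac8402e19149ac00033417cf27f119cd028d37a251ec932eccee63078150f017ebffd9114ec54da9954acf699d41bd472c72582a27a0 (k8 c12526 c5382 c12766 c2588 c5357 c2470 c5477 c2309 (k8 c12458 c5211 c5532 c5531 c5530 c5529 c5414 c5412 (k8 c9727 c12758 c5544 c5542 c5502 c5499 c12717 c9739 (k8 c5355 c5356 c12185 c12683 c12308 c5568 c5567 c5565 (k8 c5381 c5380 c5379 c9733 c5358 c5441 c5439 c12797 (k8 c9741 c9744 c1223 c9694 c9701 c10373 c12798 c5558 (k8 c2907 c12800 c12708 c5660 c10038 c3026 c4897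 c2858 (k4 c834 c2938 c12806 c835 k0)))))))) (by decide +kernel)
def c12808 : PP 9 3 T 0x4000000000000044000001000000000000000100000000000000000400014000000000000000000001000001515400004110000000000000000000040010 := rS 0x1489c4aae0119802f1 (k8 c9695 c8135 c5664 c5642 c12790 c1113 c267 c1243 (k1 c5651 k0)) (by decide +kernel)
def c12809 : PP 9 3 T 0x40000001080000000000000000040008000000000000000000000000000000000000000000001000000000000000000000000000000000 := rS 0xe2b5138a4d6b10000cd09124d67df1c25a0c14b3549b62bb488bd7679d39a36261337a251fa032815ee8780bf5ffec (k8 c12758 c5544 c5542 c5502 c5499 c5498 c12717 c12683 (k8 c12526 c5568 c5567 c5565 c5564 c5382 c5381 c5379 (k8 c12458 c12185 c5477 c9727 c5211 c5414 c5529 c5531 (k8 c5532 c12766 c2309 c2588 c12807 c5504 c5341 c513 (k8 c695 c12808 c9741 c9744 c1332 c1223 c9694 c352 (k2 c9106 c668 (k1 c3604 k0))))))) (by decide +kernel)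
def c12810 : PP 9 3 T 0x4000000000000044000000000000000000000000000000000000000400015000000000000000000400000001515400004880000005400000015440000010 := rS 0xae5a2a44315 (k4 c1139 c2372 c2375 c3584 (k2 c12790 c1248 k0)) (by decide +kernel)
def c12811 : PP 9 3 T 0x2000200080000000000000000000000000000002000000000000000014000000080000000005400012080000000000000000000000000 := rS 0x66388f6c569b28c2a14f97d8e7d3c9fcc6773a9cd026f (k8 c5565 c5380 c5379 c5440 c5356 c5355 c5358 c5441 (k8 c5442 c5357 c5439 c5448 c5398 c5445 c3599 c2940 (k4 c733 c742 c1293 c3607 (k1 c2624 k0)))) (by decide +kernel)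
def c12812 : PP 9 3 T 0x44000000000000054000210080000000000000200000008000000000100095001000000014000000000000005005400000080000001400000005040400010 := rS 0x66314f6944ba7431b10e16116ae38a6d5b14362d4d6452e96d8e793b9d4471337a251e4b94844527d1e95cfe1304acd628d (k8 c5381 c2179 c2461 c5438 c5564 c5358 c5353 c5560 (k8 c5442 c5339 c5558 c12670 c5342 c5568 c5567 c5565 (k8 c5382 c9733 c5440 c5356 c5441 c5357 c5474 c5321 (k8 c5326 c12810 c12173 c5665 c5685 c2035 c2492 c3048 (k8 c5282 c737 c8187 c2003 c12811 c5648 c1273 c1227 (k4 c376 c743 c734 c3607 (k1 c2017 k0))))))) (by decide +kernel)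
def c12813 : PP 9 3 T 0x4000000000000040000000000000000000000000000000000000000000081000000000000000000000000000100400004880000005400000015440000010 := rS 0x57ab568a910c5566b1 (k8 c2179 c2461 c1139 c2372 c2375 c3584 c2034 c1248 (k1 c5282 k0)) (by decide +kernel)
def c12814 : PP 9 3 T 0x44000000000000054000210080000000000000200000008000000000100095001000000014000000000000000005400000080000001400400000040000018 := rS 0x1fb2dc0e3f0b318a614f9ef61e30ca29a6ae50ab628705a9b0d6df4831cf2773a88d1a172f89c824b94844527d1e95cfe93129bc2609 (k8 c5438 c5564 c5565 c1113 c261 c5358 c5353 c5560 (k8 c5442 c5339 c5558 c12670 c5342 c5340 c267 c5439 (k8 c1107 c5381 c9733 c5440 c5356 c5441 c5357 c12812 (k8 c2948 c12813 c5665 c8714 c746 c747 c2035 c2929 (k8 c5282 c2940 c2988 c10363 c10342 c5648 c10369 c5448 (k8 c5445 c733 c3607 c5537 c2624 c5691 c1293 c3056 (k1 c3579 k0))))))) (by decide +kernel)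
def c12815 : PP 9 3 T 0x2000000080000000000000000080000000000000000080000000000000000000020001104150100000080000004000000000500400000 := rS 0x1a4e36bb1470d54a98536194f9f4fe773a8ec3e37 (k8 c5518 c5517 c5332 c5440 c5356 c5358 c5442 c5448 (k8 c5393 c5397 c5445 c5446 c2890 c3578 c733 c2032 (k2 c2617 c3608 (k1 c2088 k0)))) (by decide +kernel)
def c12816 : PP 9 3 T 0x40000001080000000000000200000008000000000000000000000000000000000000000000001000000100000000000000000000000000 := rS 0xd36bb558a9465a5c31b10e16116ac5a455329d109a9506d416d567ef814a7e64b8e8a47a117890c8a5d7996dea7d3c9fcae773a88f3a8144bdd0ed180bf59efff60ec3e4923d2a22b13323526090b97c4a6f138080265d981427a0 (k8 c12526 c5564 c12717 c12185 c12683 c8135 c5642 c267 (k8 c5565 c1113 c5439 c1107 c5438 c261 c5381 c5664 (k8 c2179 c9730 c12809 c5520 c5334 c5517 c5332 c12758 (k8 c5544 c5543 c5542 c5502 c5501 c5499 c5498 c5567 (k8 c5380 c12458 c9733 c5440 c5356 c5353 c5358 c5441 (k8 c5442 c5477 c5474 c5325 c5321 c5326 c5478 c9695 (k8 c5558 c5560 c5339 c5341 c5342 c12008 c12670 c3593 (k8 c8823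 c2461 c12760 c12814 c2431 c2007 c2008 c266 (k8 c1135 c2373 c1139 c12753 c2615 c2889 c8187 c2003 (k8 c12815 c5648 c1227 c1320 c376 c734 c2891 c2033 (k2 c4429 c3608 k0))))))))))) (by decide +kernel)
def c12817 : PP 9 3 T 0x40000000000000050000010000000000000000000000008000000001000011041000000000000000000000000400400040800000000000000000050020000 := rS 0x2a56623 (k4 c9733 c2377 c2375 c12157 k0) (by decide +kernel)
def c12818 : PP 9 3 T 0x40000000000000050000010000000000000000000000008000000001500015041000000000000000100000000555400040000000000000000000050020000 := rS 0x204b248ad4d86b (k4 c12817 c5665 c8714 c747 (k2 c5685 c3613 (k1 c2461 k0))) (by decide +kernel)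
def c12819 : PP 9 3 T 0x2000000080000000000000000080000000000000000080000000000000000000020001104150100000080000000004000000500400000 := rS 0x1a4e36bb1470d54a98536194f9f4fe773a8ec3e37 (k8 c5518 c5517 c5332 c5440 c5356 c5358 c5442 c5448 (k8 c5393 c5397 c5445 c5446 c2890 c3578 c733 c2032 (k2 c2618 c3608 (k1 c2088 k0)))) (by decide +kernel)
def c12820 : PP 9 3 T 0x1000000080000000000000000000000000000000000001001000000000000000000001104000000000080050000000440000541400000 := rS 0x9a4b01c73280495cee75 (k8 c5440 c5356 c5353 c5438 c5648 c5317 c5432 c10711 (k2 c3578 c1231 k0)) (by decide +kernel)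
def c12821 : PP 9 3 T 0x2000000000000044000010080000000000000100080008000000100500000001000000000000000000000000511100040090000000000000020000040008 := rS 0xd562a5c30d7f16c7deac812d166994e884d4a836a087e10da9643bf321914ba5b3e9e4fe773abdd0ed180bf5fe3b0f8dc8eb1498242e5f8a88d16af (k8 c1243 c738 c9733 c1289 c5439 c1107 c5438 c261 (k8 c2179 c5520 c5518 c5517 c5332 c5544 c5542 c5502 (k8 c5501 c5499 c5498 c5440 c5356 c5358 c5441 c5442 (k8 c5474 c5321 c5326 c5478 c12708 c538 c2003 c12546 (k8 c12615 c2907 c12818 c2431 c2007 c2008 c266 c1135 (k8 c2373 c2377 c5685 c2614 c2615 c5508 c12819 c12726 (k4 c5465 c12820 c1227 c734 (k2 c2891 c5287 k0)))))))) (by decide +kernel)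
def c12822 : PP 9 3 T 0x2000000080000000000000000080000000000200000000000000040000000000020001104150100000080000000000000000500400000 := rS 0x1a4416bb1470d54a98536194f9f4fe773a8ec3e37 (k8 c5518 c5517 c5332 c5440 c5356 c5358 c5442 c5448 (k8 c5393 c5397 c5445 c5446 c2890 c3578 c733 c2032 (k2 c547 c3608 (k1 c2082 k0)))) (by decide +kernel)
def c12823 : PP 9 3 T 0x8000000000000000000080000000000000000000000000200000000000000000000000000000000000000000000000000000000000000000000050000 := rS 0x3d049f4fe57 (k4 c5353 c5358 c5442 c5438 (k2 c5436 c12669 k0)) (by decide +kernel)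
def c12824 : PP 9 3 T 0x8000000000045000001000000000000000100000000000100000000000000000000000000000000000000110110504090420000000000000000040108 := rS 0xc44bb5430930ba2d5e2813895e2d7 (k8 c5465 c9695 c1113 c267 c5651 c1243 c738 c1107 (k4 c261 c5648 c12446 c1227 (k2 c5287 c734 k0))) (by decide +kernel)
def c12825 : PP 9 3 T 0x40000001080000000000000000000008000000000000000000000000000000000000000000001400000900000000000000000000000000 := rS 0x25d2a9a6677c72330cca3c5b16fa4152214ca746af318bd4fa793f9d446c93b98dee8768c05facf7f8ec3e37498242e5f4596038acf7ac55f1c1409c4a6facc44cd4af623d121389a350273d0675e202009976605 (k8 c12717 c12185 c12683 c8135 c5642 c9695 c12458 c12526 (k8 c5379 c5380 c5381 c5382 c5564 c5567 c5568 c12758 (k8 c12809 c5664 c9730 c12816 c5565 c1113 c267 c5651 (k8 c12821 c1243 c2179 c5504 c5683 c2028 c263 c738 (k8 c5439 c1107 c5438 c261 c5518 c5517 c5332 c5544 (k8 c5543 c5542 c5502 c5501 c5499 c5498 c5355 c5356 (k8 c12308 c9733 c5440 c5358 c5441 c5442 c5477 c5476 (k8 c5325 c5324 c1135 c2373 c2372 c2375 c12790 c2948 (k8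 c12822 c12726 c12824 c5315 c5316 c5317 c10382 c3587 (k4 c3578 c2016 c1231 c5678 k0)))))))))) (by decide +kernel)
def c12826 : PP 9 3 T 0x4000000000000044000010000000000000000000000000000000000500014000000000000000000040000001515400000480000000000000000000000000 := rS 0x2d36b025422d58b1 (k8 c2179 c5683 c738 c12790 c3613 c5531 c2035 c8714 k0) (by decide +kernel)
def c12827 : PP 9 3 T 0x40000001080000000000000000000008000000000000000000000000000000000000000000001400000100000000000000000000000000 := rS 0x25d2a9a6677c72330cca3c5b154a653bb4109b566df481ac6af318bd4fa7f3ab24ee637ba1da3017eb3dfe3b0f8dd26090b97e2a234596038acf7ac55f1c1409c4a6facc44cd4af623d121389a350273d0675e202009976605 (k8 c12717 c12185 c12683 c8135 c5642 c9695 c12458 c12526 (k8 c5379 c5380 c5381 c5382 c5564 c5567 c5568 c12758 (k8 c12809 c5664 c9730 c12816 c5565 c1113 c267 c5651 (k8 c12821 c1243 c2179 c5504 c5683 c2028 c263 c738 (k8 c9733 c1289 c5439 c1107 c5438 c261 c5518 c5517 (k8 c5332 c5544 c5543 c5542 c5502 c5501 c5499 c5498 (k8 c5355 c5356 c12308 c5440 c5358 c5442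 c5477 c5476 (k8 c5325 c5324 c12825 c12826 c2948 c2897 c747 c541 (k8 c5665 c5412 c5530 c5531 c12822 c12726 c12824 c5315 (k8 c5316 c5317 c10382 c3587 c6193 c2016 c1231 c5678 k0)))))))))) (by decide +kernel)
def c12828 : PP 9 3 T 0x52000000080000000000000100080000000000201000000000000000000000000420001104150100000080000000004000000500400000 := rS 0x12c81f2948f56be31c37936191d87c6e47 (k8 c5520 c5518 c5517 c5332 c5393 c5397 c12822 c3578 (k8 c5580 c2514 c2770 c5317 c5685 c5655 c5546 c546 k0)) (by decide +kernel)
def c12829 : PP 9 3 T 0x40000001080000000000000000000008000000000000000000000000000000000000000000001000000100000000000000000000000000 := rS 0x315aa944d0e433286bf8b62b34ca7443b5352a0da821f96038acf7c7116af8a8a2b2271285d26b101444cc017897c127d3c9dcebb311e74e68146c4c266f44a3f406502bdda3ec1d87c6f4a (k8 c12809 c5518 c5517 c5332 c12758 c5501 c5498 c12717 (k8 c12683 c12526 c5568 c5567 c5565 c5564 c5382 c5381 (k8 c5380 c5379 c12458 c9733 c12185 c5440 c5356 c5441 (k8 c5442 c5438 c5439 c9695 c8135 c5664 c9730 c5642 (k8 c2179 c261 c1107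 c1113 c267 c12816 c5651 c1289 (k8 c1243 c738 c12821 c5504 c5683 c2028 c263 c3721 (k8 c12827 c2431 c2007 c2008 c9812 c266 c1135 c2373 (k8 c2377 c12828 c12726 c5465 c12824 c5315 c5317 c6193 (k4 c2495 c1590 c1586 c5287 k0))))))))) (by decide +kernel)
def c12830 : PP 9 3 T 0x2000200080000000000000000000000000000000000000000000000000400000000000000000000010000000000000000000000000000 := rS 0xc2a14f97cfa7f319cd026f (k8 c5565 c5380 c5379 c5355 c5358 c5442 c5439 c5448 (k2 c5398 c5445 (k1 c3599 k0))) (by decide +kernel)
def c12831 : PP 9 3 T 0x1000200080000000000000000000000000100000000000000000000000400000000000004000000000200000000000000005000000000 := rS 0x14016308003203 (k4 c9741 c9701 c9744 c662 (k2 c5648 c11672 (k1 c1068 k0))) (by decide +kernel)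
def c12832 : PP 9 3 T 0x6000000000000044000011000000000000000100000008000000100000000000000000000000000120000000000000041400000001400000010040000000 := rS 0x12e06b58809b6a2521915e6f511bde02ff (k8 c5544 c5502 c5498 c9733 c5477 c5325 c5326 c5478 (k8 c5700 c12760 c5651 c5665 c1340 c2035 c354 c3593 k0)) (by decide +kernel)
def c12833 : PP 9 3 T 0x8000000000020000210080000000000000000000008000000000000000040000000014100000080000000000000010600000000000440002000000000 := rS 0x39668cd24944f1855221888d5e6317ab1c3203 (k8 c9741 c9701 c5357 c5477 c5476 c5325 c5324 c5411 (k8 c5528 c5531 c12754 c12178 c2991 c2757 c2013 c2016 (k2 c9515 c3587 k0))) (by decide +kernel)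
def c12834 : PP 9 3 T 0x8000000000000000200080000000000000000000000000000000000000000000000000000000000000004000000010000000000000000002000000002 := rS 0xc29f (k2 c2757 c662 (k1 c12178 k0)) (by decide +kernel)
def c12835 : PP 9 3 T 0x2000000000000044000010000000000000000200000008000000100000000000000000000000000140000000000000041400000001400000010040000000 := rS 0x882d36aac817bc962521915e6f511bde02ff (k8 c5544 c5502 c5498 c9733 c5477 c5325 c5326 c5478 (k8 c5559 c5342 c8823 c3593 c5683 c12760 c2035 c5665 (k1 c1340 k0))) (by decide +kernel)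
def c12836 : PP 9 3 T 0x6000000000000044000011000000000000000000000008000000100000000000000000000000000140000000000000041400000001400000010040000000 := rS 0x15959 (k2 c12835 c5683 (k1 c12832 k0)) (by decide +kernel)
def c12837 : PP 9 3 T 0x42004000000000055000000080000000000000100000000000000000000000000000000000000000000000000000000000000000000000000000000000000 := rS 0x251e0 (k2 c5198 c5226 (k1 c10922 k0)) (by decide +kernel)
def c12838 : PP 9 3 T 0x6000000000000044000000000000000000000200000008000000100000000000000000800800001500010000000000000000000001400440010440000000 := rS 0x3966b89bf14da92c4a35798c5eaf768b3fe633 (k8 c2185 c12708 c5543 c5501 c5498 c5477 c5476 c5325 (k8 c5324 c5559 c5342 c12760 c5685 c2950 c1293 c2192 (k2 c2617 c3587 k0))) (by decide +kernel)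
def c12839 : PP 9 3 T 0x40000000000000022000200080000000000000000000000000000000000000000000000810000001400000000000000011400000000000000000000000000 := rS 0x1c7e16f9e9209d8897d8e793f98ce681899bd1e9b (k8 c5397 c5568 c5565 c5382 c5380 c5379 c5355 c5358 (k8 c5441 c5357 c5439 c5411 c5412 c8385 c10556 c2948 (k2 c5457 c1775 (k1 c10298 k0)))) (by decide +kernel)
def c12840 : PP 9 3 T 0x2000000000000046000200080000000000000000000008000000100000000000000000000000000180000000000000001440000001400440010440000000 := rS 0x1cb35bf14da900495919b5994b55989ce3ef228d5e6317abdda2fd67bffe6a1 (k8 c5398 c12708 c5544 c5543 c5542 c5501 c5498 c5477 (k8 c5476 c5325 c5324 c5326 c5584 c2989 c2986 c2992 (k8 c1248 c12830 c1247 c2185 c12838 c5651 c1091 c12839 (k4 c5685 c2950 c2192 c547 (k1 c3587 k0))))) (by decide +kernel)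
def c12841 : PP 9 3 T 0x42000001080000000000000000000008000000100000000000000000000000000000000000001000000000000000000000000000000000 := rS 0x33668e480df124504ee15af8d9510599c76a4a45c0fdd5957985429f219146af318bd446abceecdeed180b3c761f248dcceb139e80da6b7e8a40668f991e95ec (k8 c12758 c12809 c5520 c12708 c12829 c9741 c9694 c5542 (k8 c1223 c832 c12526 c5379 c1332 c125 c5518 c5334 (k8 c5517 c5332 c5543 c5502 c5501 c5498 c12185 c12458 (k8 c8880 c9733 c5477 c5476 c5325 c5324 c5326 c5478 (k8 c5448 c5398 c5445 c12840 c12835 c12836 c5508 c5583 (k8 c9072 c12762 c834 c2455 c5665 c12830 c12178 c1340 (k8 c1719 c354 c5685 c5651 c2950 c1091 c547 c8709 (k2 c544 c3587 k0)))))))) (by decide +kernel)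
def c12842 : PP 9 3 T 0x2000000000000044000000000000000000000200000008000000100000000000000000000800000180000000000000000000000001400440010440000000 := rS 0x35943ef59bfd6afd (k8 c5542 c1248 c5544 c2992 c5584 c200 c1247 c12838 k0) (by decide +kernel)
def c12843 : PP 9 3 T 0x2000000000000045000210080000000000000200000008000000100000000000000000000100000080000000000000001200000001400440000040000000 := rS 0x264c0cc030e47e334932d3710daca47a251abcc62f5049f4fe573188cdef768b3c00b1399adfa2901fbc4e45 (k8 c5326 c2986 c5584 c9741 c9694 c5542 c1223 c5379 (k8 c1332 c9744 c5543 c5501 c5498 c5565 c9733 c5355 (k8 c5353 c5358 c5442 c5438 c5477 c5476 c5325 c5324 (k8 c5559 c5560 c9806 c12760 c5665 c1187 c12842 c12831 (k8 c323 c326 c325 c9764 c3587 c1563 c2441 c881 k0))))) (by decide +kernel)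
def c12844 : PP 9 3 T 0x2000000000000045000210080000000000000000000008000000100000000000000000000100000080000000000000001200000001400440000040000000 := rS 0x133e1660e536334ec5125b550893c5595989ce3ef228d5e6317abdda2cf7f99c006b7e8a407f3 (k8 c12708 c9741 c9694 c5542 c1223 c9744 c125 c5544 (k8 c5543 c5501 c5498 c5477 c5476 c5325 c5324 c5326 (k8 c5584 c2989 c2986 c2992 c12843 c12726 c5651 c5578 (k8 c12833 c12834 c5803 c1694 c323 c1191 c325 c3587 (k2 c5537 c2441 (k1 c5679 k0)))))) (by decide +kernel)
def c12845 : PP 9 3 T 0x40000001080000000000000000000008000000100000000000000000000000000000000000001000000000000000000000000000000000 := rS 0x6625072334ba4848275aa6fc51038ed495df6aa2fdd5957ec7e643228d5e6317a9fceaabcea359265d99dcc6f768c059e3b0f9246e47a50016273d01b4d6fdf60a40668 (k8 c12829 c9741 c9694 c12758 c5542 c1223 c832 c12526 (k8 c5379 c1332 c9744 c12809 c5520 c5518 c5334 c5517 (k8 c5332 c5543 c5502 c5501 c5498 c5355 c5356 c12185 (k8 c12683 c12308 c5381 c12458 c8880 c5440 c5358 c5477 (k8 c5476 c5325 c5324 c5326 c5478 c12708 c12841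 c12844 (k8 c12835 c12836 c5583 c5585 c5725 c9072 c12762 c834 (k8 c5665 c12837 c1187 c1340 c354 c5651 c12834 c1637 (k4 c323 c325 c5678 c3587 (k1 c2017 k0))))))))) (by decide +kernel)
def c12846 : PP 9 3 T 0x22000200080000000000000000000000000000000000000000000000810000001400000000000000011400000000000000000000000000 := rS 0x243e51139c4cde8f (k8 c5568 c5565 c5382 c5379 c5411 c12839 c8385 c5589 k0) (by decide +kernel)
def c12847 : PP 9 3 T 0x8000000000000000040000040814000000000000000000000000000000000020444000000000000 := rS 0x19a391abcc62f5 (k4 c5477 c5476 c5325 c5324 (k2 c547 c2192 (k1 c3587 k0))) (by decide +kernel)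
def c12848 : PP 9 3 T 0x42000200080000000000000000000008000000000000000040000000014000001480000000000000011400000000000440002000000000 := rS 0x19a398192fe5156f6d466406b0fd94a11abcc62f5 (k8 c5477 c5476 c5325 c5324 c5398 c12830 c2909 c1247 (k8 c1091 c2186 c12846 c12847 c2950 c5685 c5546 c5550 (k2 c546 c2191 (k1 c3587 k0)))) (by decide +kernel)
def c12849 : PP 9 3 T 0x40000001080000000000000000000008000000000000000000000000000000000000000000001000000000000000000000000000000000 := rS 0x267c2cc1ca6c669d8824b6be2d8ad566ae121c55a27acfbe3829359b56200019a08e370f8ee94cf7eb45efec1abcc62f5ce9cf40c932eccee63 (k8 c5355 c5356 c12185 c12683 c12308 c12526 c5379 c12458 (k8 c5477 c5476 c5325 c5324 c12758 c5498 c5501 c5542 (k8 c5543 c12809 c5332 c5517 c5518 c5520 c12829 c9741 (k8 c9744 c1332 c832 c1223 c9694 c12845 c5504 c5341 (k8 c352 c2029 c668 c5651 c5683 c2760 c1094 c12848 (k8 c12726 c12833 c12834 c5665 c1694 c323 c1187 c325 (k4 c3587 c5537 c2441 c5679 k0))))))) (by decide +kernel)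
def c12850 : PP 9 3 T 0x20000000000000000000000000000000000000000500040000000000000000000080000001400000044440000000000000000000000000 := rS 0x2d4e2b3 (k4 c5532 c2989 c1249 c8385 k0) (by decide +kernel)
def c12851 : PP 9 3 T 0x5001400000000044000000000000000000000000000008000000000000000000000000420000000140004000000000000000000000001004010000000000 := rS 0x405a5f2f1b563aac (k8 c5683 c2029 c2890 c12314 c5204 c5689 c5592 c2135 k0) (by decide +kernel)
def c12852 : PP 9 3 T 0x1000400000000066000200080000000000000000000008000000000100000000000000420000000040000000000000000600000000400000000000000800 := rS 0xe16ffcd94b4f19c5aa8b8efb87a331d0e6266f47acd62731480d3fe1719e9369d319b4bec73ca05225b (k8 c5474 c9793 c5380 c5441 c5357 c5439 c5529 c5355 (k8 c5412 c5397 c10556 c1775 c5457 c5448 c9741 c9694 (k8 c5379 c1332 c5532 c5568 c5565 c5382 c2470 c691 (k8 c2130 c1681 c12851 c5504 c5583 c5585 c834 c12314 (k4 c8385 c12830 c5548 c2514 (k2 c1718 c5691 k0)))))) (by decide +kernel)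
def c12853 : PP 9 3 T 0x5001400000000044000001000000000000000000000008000000000000000000000000420000000140004000000000000000000000000004010000000000 := rS 0x9478ac (k4 c5683 c12851 c5700 c12427 k0) (by decide +kernel)
def c12854 : PP 9 3 T 0x42000001080000000000000000000008000000000000000000000000000000000000000000000000000000000000000000000000000000 := rS 0x1c2dff1b2969f338bfd171df70cdef4a2482d5e916bf7d9ed062784f4614da7cb65f3c98d021337a3d0e0d79b358f0389a74ceb13991c520335800d065599b62bb4f6c45579dd983d09a0 (k8 c12526 c12849 c9740 c12185 c12458 c8880 c846 c5541 (k8 c5238 c5414 c5529 c5532 c12683 c5871 c9744 c2543 (k8 c9741 c9694 c12800 c5379 c1332 c735 c5412 c5382 (k8 c2629 c5357 c2502 c5325 c2540 c164 c5568 c5565 (k8 c5564 c5380 c5355 c5441 c5439 c5474 c5448 c5397 (k8 c5445 c10556 c5457 c847 c848 c1649 c5451 c1765 (k8 c9793 c12850 c12852 c10368 c5645 c5333 c12046 c12853 (k8 c5504 c5583 c5586 c834 c12736 c8385 c12830 c12178 (k2 c2514 c1718 (k1 c8355 k0)))))))))) (by decide +kernel)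
def c12855 : PP 9 3 T 0x20000000000000000000000000000000000000000500000000000000000000000080000000402000044400000000000000000000000000 := rS 0x1210181c54ce6d (k4 c5529 c735 c5414 c2629 (k2 c3070 c12850 (k1 c850 k0))) (by decide +kernel)
def c12856 : PP 9 3 T 0x61000200080000000000000200040000000000000100000000000040000000000000000000000004000400000000000000000001400802 := rS 0xf1a6dc3e065a49223b9490422793f9ccde8f (k8 c5568 c5565 c5379 c5358 c5441 c5558 c5340 c9806 (k8 c11859 c694 c5648 c1753 c9007 c5460 c5536 c10517 (k1 c11697 k0))) (by decide +kernel)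
def c12857 : PP 9 3 T 0x1000000000000000000000080000000000000000000008000000000000020000000000011000000000001100000004001000000002001800008000000802 := rS 0xa171269a6d51f81c67de679146a5f639e4c6df (k8 c2953 c5355 c5441 c5357 c5439 c5324 c5326 c1646 (k8 c6899 c493 c1674 c495 c3073 c5496 c10374 c10502 (k2 c2927 c2622 k0))) (by decide +kernel)
def c12858 : PP 9 3 T 0x4000000000000045000000000000000000000100000008000000100000000000000000500000000000000000000000000000000000011004000000000000 := rS 0x3f69ca3bde3219146a31 (k8 c5476 c5324 c5326 c5478 c12314 c5196 c5226 c5496 (k2 c5318 c3588 k0)) (by decide +kernel)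
def c12859 : PP 9 3 T 0x5000001000000000000000000000000000000000000000000000000000000000000000000000000000014000000000008000001400110 := rS 0x12729 (k2 c5316 c12292 (k1 c5648 k0)) (by decide +kernel)
def c12860 : PP 9 3 T 0x5000000000000061000200080000000000000200040000000000000100044000000000010000000000000000000004000400000000000000000001400802 := rS 0xf92d2027148b782273899bd1eb3 (k8 c5532 c5568 c5565 c5382 c5379 c5558 c12856 c694 (k4 c667 c2953 c8385 c5694 (k1 c5548 k0))) (by decide +kernel)
def c12861 : PP 9 3 T 0x44000000000000040000001080000000000000000040008000000000000000000000000010000000000000000000000000000000000000000000000000000 := rS 0x26cc2ce4b350823b6b92200cd3391e2b1d258cc123d13564f6ff59ec43200818a40625562c55f1155a3cdf1339e802e9d319e40a682f9acca9936ed3dbb31c8281af307a133ac7 (k8 c5357 c12458 c12849 c9740 c5325 c2540 c5645 c2470 (k8 c12185 c5541 c5238 c5529 c5530 c12683 c2543 c5439 (k8 c5871 c9743 c5441 c5355 c5412 c10373 c12526 c5379 (k8 c5382 c5565 c5568 c8880 c846 c12855 c1332 c5683 (k8 c5700 c9741 c9694 c2629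 c9744 c9701 c12854 c5532 (k8 c2892 c848 c12860 c5651 c2861 c5438 c12859 c2588 (k8 c2029 c5414 c12800 c735 c2502 c5694 c5660 c2145 (k8 c12857 c511 c12858 c2891 c3073 c1640 c1232 c10476 k0)))))))) (by decide +kernel)
def c12862 : PP 9 3 T 0x4000000000000040000001080000000000000000040008000000000000000000000000010000000000000000000000000000000000000000000000000000 := rS 0x9b30b293fe350b78e0e148b8d6bf23d97d8e7d3c9fcc67340c4cde8fd0445566b32a762a6d4cacf69ed426cf3bb1 (k8 c12854 c12458 c12185 c12849 c5541 c5238 c5532 c5530 (k8 c5529 c5414 c5412 c12683 c2543 c8880 c846 c12526 (k8 c5568 c5565 c5382 c5380 c5379 c5355 c5358 c5441 (k8 c5442 c5357 c5439 c848 c12861 c5548 c5549 c5589 (k8 c5591 c3604 c5846 c2929 c5580 c2884 c5680 c1755 (k2 c1326 c3598 k0)))))) (by decide +kernel)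
def c12863 : PP 9 3 T 0x41000000080000000000000200040008000000100000000000000000120000002020000000000000044000000000000104000001400002 := rS 0x3f69b5dbecb1d24a52411e90c8a353ff846e31 (k8 c5476 c1481 c5459 c5358 c5324 c5326 c5478 c5560 (k8 c5340 c9806 c5648 c5654 c1753 c2515 c2033 c2136 (k2 c495 c3588 k0))) (by decide +kernel)
def c12864 : PP 9 3 T 0x40000000000000000000000000000000000000100040000000000000000000000000080000000000000000000000000000000000002000000000000000000 := rS 0x7d28 (k2 c6120 c2946 (k1 c5318 k0)) (by decide +kernel)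
def c12865 : PP 9 3 T 0x80000000000000000000008000000000000020000000040140000000000011100000000001000000002001804000000000802 := rS 0x9b03b887e452fb1cf263 (k8 c5355 c5441 c5357 c5439 c5326 c495 c10502 c4300 (k2 c2622 c10374 k0)) (by decide +kernel)
def c12866 : PP 9 3 T 0x45000000000000061000000080000000000000000040008000000000500040000000000020000000020000000400100044600000000400004001000040800 := rS 0x71fca0823b50b4dbe111e9204d595a1c51700049f4fe57000663a290192c2e9d319e40a5f4c9b472c7f0a44b63718b55feb3 (k8 c5532 c2892 c1711 c5476 c1481 c5474 c9793 c5459 (k8 c5357 c2470 c5529 c5530 c5439 c9743 c5441 c5355 (k8 c5412 c10373 c2588 c9741 c9694 c2029 c9701 c9744 (k8 c5353 c5358 c5442 c5438 c5694 c3068 c834 c8385 (k8 c12863 c5651 c5660 c2861 c2858 c12864 c2136 c2931 (k4 c12865 c511 c5654 c5318 (k2 c5432 c12613 k0))))))) (by decide +kernel)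
def c12867 : PP 9 3 T 0x41000000080000000000000100000000000000000000000000000080000000001400011100000000001000000000000000000000000802 := rS 0x13607654a13fe32fb1cf263 (k8 c5355 c5441 c5357 c5439 c5580 c2884 c5226 c5680 (k2 c5432 c1326 (k1 c10374 k0))) (by decide +kernel)
def c12868 : PP 9 3 T 0x4000000000000040000001080000000000000000040008000000000000000000000000000000000000000000000000000000000000000000000000000000 := rS 0x82d703310f4df1ed644c10509c1c2e35afc9aa91680cc2e390516cbe09639f4f27f31a04260d79c0d3a99028648e008a83f62257face3aac58abcd71155a3cdf1339e805203341b769edcea10cbb3 (k8 c12185 c12683 c12849 c12458 c5541 c5238 c5529 c5871 (k8 c9741 c9694 c12526 c5379 c5382 c5565 c5568 c8880 (k8 c846 c2543 c12855 c1332 c5683 c2029 c5532 c2892 (k8 c5700 c12854 c9740 c5414 c9744 c12800 c9701 c9743 (k8 c5530 c5412 c2629 c5325 c2540 c5564 c5380 c5355 (k8 c5358 c5441 c5442 c5357 c5438 c5439 c5474 c5645 (k8 c2470 c10373 c12859 c12862 c9793 c1711 c12866 c5548 (k8 c5549 c5591 c3604 c2929 c667 c668 c5558 c2861 (k4 c12867 c5846 c847 c690 (k2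 c1765 c1734 (k1 c12858 k0))))))))))) (by decide +kernel)
def c12869 : PP 9 3 T 0x200000000000000000400000000000000000000000020000000402000000000000001400000000000041402 := rS 0x116903892c220f (k4 c9740 c5558 c5342 c667 (k2 c12614 c2888 (k1 c849 k0))) (by decide +kernel)
def c12870 : PP 9 3 T 0x4000000000000001000001080000000000000000000000000000000000000000000000008100000000000100000000001600000000000000000000000000 := rS 0x1813695 (k4 c1587 c2563 c10476 c831 k0) (by decide +kernel)
def c12871 : PP 9 3 T 0x4000000000000045000000000000000000000100000008000000100100020040000000014140000001001100002001001604400000000440008140000000 := rS 0xf46617f0a68c2d31f907c4d73d90c8a3518fb59ad5 (k8 c3073 c2502 c5541 c5476 c5324 c5326 c5478 c848 (k8 c2145 c12726 c5462 c5576 c5579 c12754 c3598 c5536 (k4 c1066 c12046 c2861 c3588 k0))) (by decide +kernel)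
def c12872 : PP 9 3 T 0x4000000000000040000001080000000000000000000008000000000000000000000000000000000000000000000000000000000000000000000000000000 := rS 0x1c4208b48b419e4b1356601f31b82c92f70f8ee951d7f895585b2fb1cf213649dcc60d79c0d3a214caa562471480c0068599b62a0fd8abf69ed3599622abceecd088f37c4ce7a0 (k8 c12526 c5379 c5382 c5565 c5568 c12849 c12185 c12458 (k8 c8880 c846 c12683 c2543 c5541 c5238 c12855 c12854 (k8 c9740 c5414 c5529 c5532 c5871 c9744 c9741 c9694 (k8 c12800 c1332 c5531 c5530 c5528 c5412 c2629 c5325 (k8 c2540 c5355 c5356 c12308 c5564 c5441 c5357 c5439 (k8 c5474 c5683 c5700 c2892 c2029 c12868 c5332 c5517 (k8 c5333 c5334 c5516 c5518 c12736 c5694 c12869 c5651 (k8 c353 c12870 c12871 c9793 c3068 c12614 c834 c2858 k0)))))))) (by decide +kernel)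
def c12873 : PP 9 3 T 0x61000200080000000000000200040000000000000100000000000000000000002000000000000004000400000000000000000001400802 := rS 0x65249bd29209fce66f (k8 c5565 c5379 c5358 c5340 c9806 c12856 c5648 c2515 (k1 c1753 k0)) (by decide +kernel)
def c12874 : PP 9 3 T 0x400000000061000200080000000000000000040008000000100100000000000000510000002000000000002000010400000000000004010001400802 := rS 0x1c7f28f19047a112409ab23b3d8d4127d3f95d0213f6b358e47599b62a0ff98949713 (k8 c5382 c2588 c1095 c5548 c9740 c5414 c5529 c5532 (k8 c12800 c5357 c2502 c5541 c5564 c5380 c5353 c5358 (k8 c5442 c5438 c5324 c848 c6899 c12873 c5651 c5660 (k8 c2858 c2861 c511 c12314 c5226 c5318 c5432 c12613 k0)))) (by decide +kernel)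
def c12875 : PP 9 3 T 0x40000001080000000000000000040008000000000000000000000000000000000000000000000000000000000000000000000000000000 := rS 0xfc7a411d018f4c46fb4d96a14a38d2ed01985c720a219146a312f8258e7d3ca0512c93b98c1af34ea640a19238a406008a83f631d6bf7d1a7f3ab556871341b5666b32a4517ee479ce266fd044557b4f6a13679d (k8 c12458 c12185 c12849 c5541 c5238 c8880 c846 c12526 (k8 c5565 c5382 c5379 c5568 c12872 c5583 c849 c12683 (k8 c2543 c5532 c5529 c5871 c834 c8385 c5585 c5440 (k8 c5358 c5381 c5725 c5507 c5504 c12854 c9740 c5414 (k8 c9744 c9741 c9694 c12800 c9701 c9743 c5530 c5412 (k8 c5325 c2540 c5355 c5356 c12308 c5567 c5380 c5441 (k8 c5442 c5357 c5438 c5439 c5476 c5324 c5326 c5478 (k8 c5645 c2470 c10373 c12859 c12874 c9368 c1779 c5678 (k8 c1200 c1757 c2019 c2515 c5861 c1706 c690 c691 (k4 c1734 c1681 c495 c3588 k0)))))))))) (by decide +kernel)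
def c12876 : PP 9 3 T 0x200000000000000000400000000000000000000000000000001400000000000000001400000000000045400 := rS 0x9611 (k2 c5558 c5342 (k1 c12614 k0)) (by decide +kernel)
def c12877 : PP 9 3 T 0x40000001080000000000000000000008000000000000000000000000000000000000000000000000000000000000000000000000000000 := rS 0x112589ab225059243f4a5a1c5228bf711c5200019a1666d10c57686b06c441fed421951e6f09c4ce7a055e75e7b3 (k8 c12185 c5325 c12458 c8880 c12526 c5379 c5382 c5564 (k8 c5565 c5568 c12683 c12849 c5541 c9740 c846 c2540 (k8 c2543 c5238 c5414 c5528 c5529 c5532 c5871 c9741 (k8 c9744 c9694 c12800 c12872 c5583 c849 c834 c8385 (k8 c12875 c5517 c5334 c5516 c1094 c12876 c5651 c353 (k2 c2858 c12614 k0)))))) (by decide +kernel)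
def c12878 : PP 9 3 T 0x40000000000000000000110000000000000000200000000000000000400000000000000000000000000000000000000000000000000000000000000000800 := rS 0x48a3c2247 (k4 c5562 c5558 c2311 c694 (k1 c5675 k0)) (by decide +kernel)
def c12879 : PP 9 3 T 0x6000000000000022000101000000000000000000000000000000000000000000000000000400000004000002000050050004400000000000000000000000 := rS 0x259ace269a01148937a362aa9509852b01 (k8 c5502 c5446 c5445 c5398 c5531 c5414 c10035 c3038 (k8 c3042 c5673 c9215 c2938 c908 c857 c8884 c1767 k0)) (by decide +kernel)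
def c12880 : PP 9 3 T 0x6000000000000022000001080000000000000200000008000000000000000000000000000000000000000000000000000900000000000000000000000001 := rS 0x19cca8244c0892130200d168e4882fe6ff80bdc864579bd4fa6338acd962714ac626b511aaf3bb38a88553a13f97ce7b612c749647 (k8 c5562 c5342 c5341 c5559 c12877 c5419 c5439 c5358 (k8 c10494 c5531 c5528 c5414 c12185 c5523 c8880 c9733 (k8 c5422 c2600 c5421 c5417 c5570 c5420 c5574 c5571 (k8 c5355 c5442 c5477 c5325 c5326 c5478 c5498 c5502 (k8 c5544 c12708 c12878 c12879 c5675 c2982 c10415 c5642 (k8 c9118 c2842 c3593 c1986 c2405 c8120 c2007 c5664 k0)))))) (by decide +kernel)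
def c12881 : PP 9 3 T 0x1001000000000000000011080000000000000000040008000000000000000000000000000000000000000000000000000111000000000140000000000464 := rS 0x4a476cd193150659331746a5b18824ae773aecd53b4 (k8 c5211 c5531 c12185 c5440 c5356 c5353 c5438 c5476 (k8 c5474 c5324 c5321 c5664 c314 c2007 c733 c5729 (k4 c12000 c12686 c5316 c5654 k0))) (by decide +kernel)
def c12882 : PP 9 3 T 0x4000000000000002000001080000000000000200040008000000000000000000000000010000000000000000001000000900000000000000000000000001 := rS 0x7f35fbecc67bf52e873201c080e1b8e4060d6f7843c497182fe503f691c823d088948ab36589c52b54ea64f22355ecc42a9da67542c94d9852ba13f97ce7b6 (k8 c12877 c5419 c5439 c5358 c10494 c5446 c5445 c5397 (k8 c5396 c5398 c5523 c5211 c5531 c5528 c12185 c8880 (k8 c9733 c5441 c2373 c1135 c5422 c5417 c5570 c5420 (k8 c5574 c5326 c5559 c5558 c5560 c5340 c5562 c12880 (k8 c11700 c5191 c12749 c5549 c5588 c8140 c7694 c5271 (k8 c2362 c1112 c2472 c2331 c5645 c5642 c871 c12881 (k8 c2113 c1126 c1129 c11551 c3617 c5495 c2191 c10866 (k1 c11995 k0)))))))) (by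 decide +kernel)
def c12883 : PP 9 3 T 0x820000000000000a2000000000000000000000000000000000000000000000000000000010000000004001100000000000000000000000000000000000000 := rS 0x19a976b77dfefd65aa5929b4ab8e07e1 (k8 c7694 c5550 c5549 c5446 c5397 c5396 c5531 c5420 (k4 c5542 c5544 c10390 c10866 (k2 c1767 c2191 (k1 c8724 k0)))) (by decide +kernel)
def c12884 : PP 9 3 T 0x80000110000000000000000100040000000000000000000000000000000000000000000000000000000000000000400000000000010401 := rS 0x1a0f0f0484ab3138a56a2310ed093f2 (k8 c5221 c5588 c5211 c5528 c9733 c5422 c5417 c5570 (k4 c5574 c12632 c12617 c8140 (k2 c475 c2362 (k1 c5645 k0)))) (by decide +kernel)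
def c12885 : PP 9 3 T 0x5000000000000000000111080000000000000000040008000000000000000000000000000000000000000000001000000100000000000000000000020000 := rS 0x6645195128d07bc4865b38ed957b3 (k8 c12185 c8880 c12877 c5571 c5474 c5478 c9695 c10107 (k4 c701 c2749 c12530 c5673 (k2 c5664 c737 k0))) (by decide +kernel)
def c12886 : PP 9 3 T 0x4000000000000002000001080000000000000000040008000000000000000000000000010000000000000000001000000900000000000000000000000001 := rS 0x118241105fb7e5594ea64f2abd9ed33ba13f97ce7b6 (k8 c12877 c5419 c5439 c5358 c10494 c5523 c5211 c12185 (k8 c8880 c5441 c2373 c1135 c12882 c5221 c12883 c12749 (k4 c12885 c12617 c12884 c2811 k0))) (by decide +kernel)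
def c12887 : PP 9 3 T 0x4000001000000000000000000000000000000000000000000000000000000000000000000000000000100000000000000000004000002 := rS 0x65 (k2 c1056 c8135 k0) (by decide +kernel)
def c12888 : PP 9 3 T 0x80001000000000000000010080000000000000200040008000000000000000001000000001010001400000440200000000080000000000040015000000400 := rS 0x7940e4761e2c91e3a5b0495cee75118876849 (k8 c5588 c5211 c5528 c9733 c5440 c5356 c5353 c5438 (k8 c5474 c5341 c5562 c2169 c8140 c12686 c2472 c5654 (k2 c5432 c10711 k0))) (by decide +kernel)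
def c12889 : PP 9 3 T 0x4000000000000002000001080000000000000000040008000000000000000000000000000000000000000000001000000900000000000000000000000000 := rS 0x11825594622ccc8912a18ca1105fc98a831ba5d22cdf0fb5a0017896c36313aacc4e295aab622abceecd37a13f97ce7b6 (k8 c12877 c5419 c5439 c5358 c10494 c5397 c12185 c5523 (k8 c8880 c159 c5573 c5422 c5417 c5570 c5574 c5440 (k8 c5476 c5475 c5474 c9695 c12887 c12886 c5501 c5459 (k8 c173 c9793 c9368 c1481 c1975 c1707 c5191 c12749 (k8 c12885 c5733 c5672 c12632 c8134 c5664 c900 c5673 (k4 c12888 c12617 c12884 c2811 k0)))))) (by decide +kernel)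
def c12890 : PP 9 3 T 0x4000000000000002000001080000000000000000040008000000000000000000000000000000000000000000001000000800000000000000000000000000 := rS 0x1e0f90c876371cb459bed7bb3c181e413f10e0034685365f049e4fe7539edb3b11 (k8 c159 c5523 c12877 c5419 c5440 c5358 c5441 c5438 (k8 c5439 c5397 c10494 c12889 c9744 c897 c1223 c1224 (k8 c1058 c1059 c11551 c292 c5542 c2504 c1975 c2472 (k4 c2363 c289 c11661 c5191 (k2 c12046 c7694 k0))))) (by decide +kernel)
def c12891 : PP 9 3 T 0x200080000000000000200000000000200000000000000000000000000000000000000000000000000000000000000000000000000 := rS 0x1c7e093e9fcae3d (k8 c5560 c5353 c5358 c5442 c5438 c5318 c5432 c9764 k0) (by decide +kernel)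
def c12892 : PP 9 3 T 0x2000000000000001000201080000000000000200040008000000000000000000000000000000000000000000001000000900000000000000000000000800 := rS 0xcc17499943c020683de2f504ecd62ad4e97e26b5db08f3a8768b3c266ff991e3b29 (k8 c12891 c5341 c5562 c12708 c5565 c5564 c5543 c5501 (k8 c5499 c5523 c9733 c12877 c5422 c2600 c5439 c1135 (k8 c5573 c5421 c12185 c5438 c5477 c9695 c150 c34 (k4 c2306 c2305 c12598 c261 (k2 c1107 c5664 (k1 c12782 k0)))))) (by decide +kernel)
def c12893 : PP 9 3 T 0xa0000210000000000000000000000008000000100000000040000000000000000000000000000000000080000004400000001000010400 := rS 0x7c920207961165d38acc4e295a88e2a214684d128f (k8 c5568 c5567 c5564 c5381 c5528 c5414 c9733 c5422 (k8 c5417 c5570 c5574 c5571 c5321 c737 c12681 c12506 (k4 c2004 c10368 c1112 c3584 k0))) (by decide +kernel)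
def c12894 : PP 9 3 T 0x2000000000000001000201080000000000000200040008000000000000000000000000000000000000000000001000000900000000000000000000000000 := rS 0x1c2cabc1c643382c8e4b8e8444a45d98a563b6da675ee6f (k8 c5565 c5498 c5523 c5211 c12877 c5421 c5417 c12185 (k8 c5326 c5559 c5558 c5341 c5342 c5562 c12892 c12893 (k4 c5664 c12505 c1130 c473 (k2 c8309 c1953 k0)))) (by decide +kernel)
def c12895 : PP 9 3 T 0x2000000000000080001011000000000000400100040000000000000000000000000000000000000004000000001400000080020002000000000000040000 := rS 0x1209114cab7efbc5c9f095dfd371155cadf6987 (k8 c4565 c5211 c5533 c5415 c5414 c5213 c5222 c5430 (k8 c5556 c5630 c5635 c7323 c12770 c515 c3034 c5662 (k2 c2219 c310 k0))) (by decide +kernel)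
def c12896 : PP 9 3 T 0x2000000000000080100011005000010000400100040000000040000000000000000000000040000004000400001405004080020002000800000080040808 := rS 0x39dd37b729309eba170ac5bb9c4e0643a9c5e90e2bdc29cc477d (k8 c9704 c9733 c5419 c5423 c5575 c5571 c12895 c5390 (k8 c5388 c5606 c5607 c5610 c8937 c269 c1115 c5652 (k8 c1359 c519 c1360 c2524 c697 c1823 c3217 c3611 k0))) (by decide +kernel)
def c12897 : PP 9 3 T 0x2000080000000000800000000000000200400000000000000000000000000000000000000000000000000000000000000000000000 := rS 0x121d48271f792bb040fad (k8 c5437 c5432 c5319 c5353 c5359 c5443 c5438 c5388 (k2 c5606 c6108 k0)) (by decide +kernel)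
def c12898 : PP 9 3 T 0x2000000000000000000201080000000000000100040008000200000000000000000040000000000000000000001000000880000002000000000000010800 := rS 0x52a9c5aa35d60315a5c4defea4d15ead862fb326c74e270900b0912eb1f1f793e9e4fe5755e77670540c9c266f47e3506f525c4d6a1e8f814da930485c045f459c76c191fb047bad3d81e3af7 (k8 c5498 c513 c5432 c690 c5437 c5436 c5319 c5318 (k8 c5315 c12877 c5571 c737 c5439 c2306 c1107 c5438 (k8 c261 c64 c717 c9713 c2305 c5422 c2600 c2588 (k8 c5477 c2309 c5569 c5568 c5565 c5564 c5383 c5380 (k8 c5545 c12185 c5523 c8880 c5353 c5358 c5441 c5442 (k8 c5359 c5443 c5357 c5321 c694 c12681 c12613 c12655 (k8 c5846 c511 c2621 c12896 c5347 c5348 c5600 c5601 (k8 c5604 c6751 c696 c2313 c12897 c5676 c2658 c2657 (k4 c3236 c3235 c1153 c1207 (k1 c3580 k0)))))))))) (by decide +kernel)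
def c12899 : PP 9 3 T 0x40001000000000080000000000000000000000000000000000000001000000000000040000000000000000004000000000000000000015800001001400000 := rS 0x1c6a04fb2c4e29 (k4 c5417 c5570 c5420 c5572 (k2 c3579 c1773 (k1 c10309 k0))) (by decide +kernel)
def c12900 : PP 9 3 T 0x2000000000000080001011000040000000400100040000000000000000000000000000000020000004000000001400000080000002000000000000020000 := rS 0xd5c88a655bf7de2e4f84aefe9b88aae56fb4 (k8 c5211 c5533 c5415 c5414 c5213 c5222 c5430 c5556 (k8 c5630 c5635 c7323 c12770 c515 c3034 c5662 c3829 (k1 c3087 k0))) (by decide +kernel)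
def c12901 : PP 9 3 T 0x2000000000000080100011005040010000400100040000000040000000000000000000000060000004000400001405004080000002000800000080020808 := rS 0x39dd37b729309eba170ac5bb9c4e0643a9c5e90e2bdc29cc477d (k8 c9704 c9733 c5419 c5423 c5575 c5571 c12900 c5390 (k8 c5388 c5606 c5607 c5610 c8937 c269 c1115 c5652 (k8 c1359 c519 c1360 c2524 c697 c1823 c3217 c3611 k0))) (by decide +kernel)
def c12902 : PP 9 3 T 0x2000000000000000000000080000000000800000000008000200000000000000000000000000000000000400000000000800000000000000000000000800 := rS 0x2954e2d51aeb018ac4def4bf5268af56c317e3f3af782c7c0a6d498242e022f86583ad (k8 c5437 c5319 c5315 c5439 c2306 c1107 c5438 c261 (k8 c64 c717 c9713 c5545 c5498 c5523 c5443 c5347 (k8 c5348 c5600 c5601 c5604 c6751 c12897 c696 c2313 (k8 c5676 c2658 c2657 c3236 c3235 c1153 c1207 c3580 k0)))) (by decide +kernel)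
def c12903 : PP 9 3 T 0x46000000000000001000011081000000000400100040008000240000000000000000000000100000000000400001000004080000002000800000080060808 := rS 0xa1696192bdf573112c1d2cb5480f121914ba352d86c62c7c7de4f2573b9d562ad55ece2bb441bd467adf0f8c7e290c85cbe3d13a4c129f12b2f6c7b03c75eedf (k8 c12864 c5498 c513 c5432 c690 c12877 c5420 c1113 (k8 c5572 c5438 c261 c5570 c5436 c5439 c1107 c5315 (k8 c5417 c5318 c7824 c6290 c5437 c5316 c5477 c2309 (k8 c5211 c5414 c12185 c8880 c5573 c5421 c5440 c5356 (k8 c5353 c5441 c5359 c5443 c5357 c5476 c5475 c5474 (k8 c5324 c5321 c5326 c5478 c9695 c12899 c1656 c12896 (k8 c263 c10711 c10897 c3582 c5452 c133 c12901 c10379 (k2 c4122 c2940 k0)))))))) (by decide +kernel)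
def c12904 : PP 9 3 T 0x2200004010010000400000000000000200000000000000000000000040100000000400000001050000000000000400000480000808 := rS 0x3a5cf7b729309eba170ac5bb9c4e0643a9c5c9cdf8dbe8dcf607 (k8 c5432 c690 c5435 c9704 c5569 c5565 c5383 c5390 (k8 c5388 c5606 c5607 c5610 c8937 c269 c1115 c5652 (k8 c1359 c519 c1360 c2524 c697 c3218 c2356 c3611 k0))) (by decide +kernel)
def c12905 : PP 9 3 T 0x46000000000000000000201080000000000000100040008000000000000000000000000000100000000000400001000000880000002000000000000000800 := rS 0x18a59d2e1d40964a907becc1dd9cba357996c638fbc9e4ae7538a7d7acbc289c5273db2af66f79384f1a831cb1c4a6f0c8cc7e071b8f420df946c526090f05c049d2fb3da28711e75eaf1 (k8 c9695 c5477 c5523 c9733 c5499 c5501 c5543 c5439 (k8 c1135 c2306 c1107 c2305 c5438 c261 c12890 c12782 (k8 c12864 c12898 c5436 c5435 c5432 c5318 c5316 c5315 (k8 c5565 c1113 c5357 c2470 c2309 c5569 c5564 c5383 (k8 c5498 c12185 c8880 c12877 c5419 c5417 c5570 c5423 (k8 c5420 c5575 c5572 c5571 c5440 c5353 c5441 c5359 (k8 c5443 c5476 c5474 c5325 c5324 c5321 c12902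 c12903 (k8 c3587 c9979 c511 c2017 c5678 c3579 c4122 c12904 (k2 c12895 c12900 (k1 c10897 k0)))))))))) (by decide +kernel)
def c12906 : PP 9 3 T 0x46000000000000000000201080000000000000100040008000000000000000000000000000100000000000000001000000880000000400000000000000800 := rS 0x20a85c69a6f920fa7f319c53ecb138a4e715da2040a6d25c4d6bb6129bc7fe1946c526090f05c049d2fb3da28711e75eaf1 (k8 c9695 c5477 c5523 c9733 c5499 c5501 c5543 c5439 (k8 c1135 c2306 c1107 c2305 c5438 c261 c12890 c12782 (k8 c6290 c5318 c5565 c1113 c12877 c5422 c2600 c2588 (k8 c64 c717 c5380 c5211 c5414 c5419 c5417 c5570 (k8 c5420 c5572 c5571 c5355 c5358 c5442 c5660 c12864 (k4 c12905 c2621 c10309 c512 (k1 c10308 k0))))))) (by decide +kernel)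
def c12907 : PP 9 3 T 0x6000000000000000000201080000000000000000040008000000000000000000000000000000000000000000001000000910000000400000000000000800 := rS 0x24607f24599992633becce3135aed90f017fa35128facec506f5 (k8 c5477 c2309 c12890 c12894 c5568 c5567 c5381 c5544 (k8 c5502 c5499 c12877 c5422 c2600 c5571 c12185 c5356 (k8 c5355 c12308 c5664 c737 c12906 c5550 c5589 c3613 k0))) (by decide +kernel)
def c12908 : PP 9 3 T 0x20000000000000a0000000000000000000000100000008000000000000000000000000000000000004000000000000004020000000000000001080000010 := rS 0x488e4095ef5388a562b58aaa5ef01 (k8 c5502 c5498 c5531 c5414 c5422 c5421 c5417 c5571 (k4 c5477 c1130 c8528 c12515 (k2 c7606 c513 k0))) (by decide +kernel)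
def c12909 : PP 9 3 T 0x6000000000000000000201080000000000000000040008000000000000000000000000000000000000000000001000000900000000000000000000000800 := rS 0x40d228b23198ca250f009060507bd4e26d89ad76cabd9ed33a8780bfd1a6f44a3eb3b1 (k8 c12890 c12894 c5568 c5567 c5565 c5381 c5544 c5502 (k8 c5499 c5523 c5211 c12185 c8880 c12877 c5422 c2600 (k8 c64 c5571 c5477 c150 c717 c2309 c2306 c2305 (k8 c1113 c12908 c5664 c12907 c737 c2785 c2349 c3613 k0)))) (by decide +kernel)
def c12910 : PP 9 3 T 0x42000000000000001000000000000000000000100040000000100000000000001000000000040000011004004151151500080000000000000000020400000 := rS 0x787c67a6b335a6d562a512e1843b459e83 (k8 c2007 c5543 c5501 c5499 c5648 c1227 c376 c734 (k8 c1589 c2018 c2016 c3608 c3607 c5465 c5457 c5168 k0)) (by decide +kernel)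
def c12911 : PP 9 3 T 0x42000000000000001000001080000000000000100040008000000000000000000000000000000000000000000111100000910000001400000000000000400 := rS 0x4a333be971c8ce5017498ec6e0206160380f0f929e2357996c36f504b1cfa7f3aa7d6aad36a74be993c88d56217ba1da2fd649dcc68b38ed90666d9aa7699d (k8 c5523 c5211 c5531 c12185 c5664 c2007 c12877 c5571 (k8 c737 c5355 c5356 c12308 c5542 c5501 c5499 c5498 (k8 c5528 c8880 c9733 c5441 c2373 c5439 c1135 c64 (k8 c5573 c5422 c5572 c5440 c5358 c5442 c5357 c5438 (k8 c5477 c5475 c5474 c5325 c5324 c9695 c5660 c6300 (k8 c12627 c5816 c9250 c5645 c2004 c2363 c289 c261 (k8 c1107 c12910 c5316 c5317 c9800 c9979 c11661 c5678 (k1 c2016 k0)))))))) (by decide +kernel)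
def c12912 : PP 9 3 T 0xa0000210000000000000000000000008000000000000000040000000000000000000000000000000000080000002400000000000000400 := rS 0x8e8444a4b (k4 c192 c10629 c3027 c513 (k1 c12893 k0)) (by decide +kernel)
def c12913 : PP 9 3 T 0x82000000000000000000200000000000000000000000000000000000400000000000000000000000000000000041400000000000000000000000000000000 := rS 0x48c0d0f017fa35128f (k8 c5568 c5567 c5381 c5544 c5502 c5499 c5550 c5589 (k1 c3613 k0)) (by decide +kernel)
def c12914 : PP 9 3 T 0x2000000000000001000201080000000000000000040008000000000000000000000000000000000000000000001000000910000000400000000000000400 := rS 0x92f740a351359f9a0d53b4cea2ccdb338c4d6bb6 (k8 c12877 c5422 c2600 c5571 c12185 c5664 c737 c5523 (k8 c5211 c5531 c2007 c12913 c12894 c5567 c5381 c5380 (k2 c5498 c12912 (k1 c12911 k0)))) (by decide +kernel)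
def c12915 : PP 9 3 T 0x2000000000000001000201080000000000000000040008000000000000000000000000000000000000000000001000000910000000000000000000000400 := rS 0x240230307119068b333d7667189ad76ca9da6750f017fa35128f (k8 c5568 c5567 c5381 c5544 c5502 c5499 c5523 c5211 (k8 c5531 c12877 c5422 c2600 c5571 c12185 c5477 c5664 (k8 c737 c2007 c12914 c5779 c2349 c10107 c3613 c2784 k0))) (by decide +kernel)
def c12916 : PP 9 3 T 0x6000000000000000000201080000000000000000040008000000000000000000000000000000000000000000001000000900000000000000000000000000 := rS 0x8e894901d8116496af07190175937bc486450dbd44e2958ab76cabd9c5553b4ceec5ef01 (k8 c5502 c5498 c12890 c5523 c5211 c5531 c5414 c12185 (k8 c8880 c12877 c5573 c5421 c5417 c5570 c5477 c5475 (k8 c5326 c5478 c9695 c5565 c12894 c12909 c12915 c12505 (k8 c1130 c12627 c473 c8528 c1953 c7820 c10629 c513 (k1 c3582 k0))))) (by decide +kernel)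
def c12917 : PP 9 3 T 0x2000000000000000000110000000000000000200000008000000000400000000000000000000000000000000000000000000000000000000000000000800 := rS 0x7c88f1d (k4 c5341 c5562 c12878 c12708 k0) (by decide +kernel)
def c12918 : PP 9 3 T 0x4000000000000001000101080000000000000000000008000000000000040000000000014000000000000000015000000910000000000000000000000800 := rS 0xd7efc71985862b552fe350094827b698447a071f8cc328c9422cccc97896d8e792b98cee7538a7d962714ed93a23ce807661b41bd43c930485c045f (k8 c5439 c2306 c1107 c5438 c261 c2305 c5477 c2309 (k8 c5475 c12185 c12887 c5523 c9733 c1135 c12877 c5417 (k8 c5570 c5420 c5572 c5571 c5440 c5356 c5355 c5353 (k8 c5441 c5357 c5474 c9695 c12308 c5664 c737 c12782 (k8 c5673 c5315 c5316 c5318 c5432 c5436 c701 c2083 (k8 c690 c12636 c12632 c3579 c7824 c1234 c3001 c734 (k4 c10711 c3607 c2169 c5495 (k2 c2191 c5778 k0)))))))) (by decide +kernel)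
def c12919 : PP 9 3 T 0x6000000000000000000001080000000000000000040008000000000000000000000000000000000000000000001000000900000000000000000000000800 := rS 0x4a474063d37d02d7efa3da6c80ea291a97322255ce148c0dc7f2ac85d26021ca0c0af17a8258e7d3c9fcee75589b53a5f89ad76c2355ece2aa9da677628768b3dffa1 (k8 c12916 c5544 c5543 c5501 c5499 c12890 c5523 c5211 (k8 c5531 c5414 c12185 c8880 c9733 c12877 c5422 c2600 (k8 c5439 c1135 c64 c5421 c5440 c5356 c5358 c5441 (k8 c5442 c5357 c5438 c5477 c9695 c717 c2309 c2470 (k8 c2306 c261 c1107 c12917 c5221 c5549 c5550 c5589 (k8 c5591 c10275 c2836 c12918 c1126 c2171 c8120 c1954 (k8 c12536 c2941 c8824 c5494 c2189 c857 c12713 c3610 (k4 c690 c691 c5432 c12293 k0)))))))) (by decide +kernel)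
def c12920 : PP 9 3 T 0x44000000000000020000101080000000000000000000008000000100000014040000000000000000000000000000000000910000004400000001000000400 := rS 0x9920090301a39228c41a2ccc8921915e6f538acc4e2956c4d6bb611e762a2154807661b (k8 c5475 c12185 c12887 c5531 c5528 c5414 c5523 c9733 (k8 c12877 c5422 c2600 c5573 c5417 c5570 c5574 c5571 (k8 c5477 c5325 c5326 c5478 c8134 c5664 c737 c2007 (k8 c5673 c10035 c5675 c10415 c2405 c5642 c3593 c9118 (k1 c2842 k0))))) (by decide +kernel)
def c12921 : PP 9 3 T 0x6000000000000001000101080000000000000200040008000000000000000000000000000000000000000000000000000900000000000000000000000400 := rS 0x3f4081d14d46b85d5cc80e84cb23902038c9f32392e3a411e8444af12191436093e9fcae2714ac55bb64e97d327955ecd53b4cebde02ff (k8 c5544 c5502 c5498 c5523 c5211 c5531 c12185 c8880 (k8 c5441 c2373 c5439 c1135 c12877 c5573 c5421 c5417 (k8 c5570 c5353 c5358 c5442 c5438 c5475 c5326 c5478 (k8 c9695 c5559 c5558 c5560 c5340 c5341 c5342 c5562 (k8 c11908 c12920 c12505 c9739 c393 c473 c9118 c1953 (k8 c12534 c3582 c1064 c2189 c1183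 c1131 c714 c857 (k2 c2996 c12613 k0))))))) (by decide +kernel)
def c12922 : PP 9 3 T 0x80000110000000000000000100040000000000000000000000000000000000000000000000000000000000000000000000000000010401 := rS 0x8c12 (k2 c12617 c12884 (k1 c2811 k0)) (by decide +kernel)
def c12923 : PP 9 3 T 0x6000000000000000000001080000000000000000040008000000000000000000000000000000000000000000001000000900000000000000000000000000 := rS 0xcc8a32a341e1044aba07f2ac82f425b38ac76cab8aaa7699dd8807661b (k8 c5475 c12185 c12887 c12890 c5523 c5211 c5531 c5414 (k8 c8880 c12877 c5421 c5571 c5474 c12916 c12919 c12921 (k8 c5221 c5550 c10275 c2836 c12922 c10107 c701 c12505 (k2 c5673 c5664 (k1 c737 k0))))) (by decide +kernel)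
def c12924 : PP 9 3 T 0x1000000000000080000211000000000000000200040008000000000000000000000000000000000000000000001000000080000000000000000000000001 := rS 0x490f83d0c5841a2c8a5d2d9c5662714ad4471510aa7680b4684d122508c749647 (k8 c5562 c5342 c5341 c5558 c5559 c5567 c5564 c5381 (k8 c12749 c5211 c5531 c5528 c5414 c9733 c5422 c5417 (k8 c5570 c5574 c5571 c5474 c5321 c5326 c737 c2007 (k4 c8187 c5672 c474 c12678 (k2 c10368 c3584 k0))))) (by decide +kernel)
def c12925 : PP 9 3 T 0x5000000000000000000211080000000000000200040008000000000000000000000000000000000000000000001000000100000000000000000000000000 := rS 0x3dcb1020e3fe02af413f41c6433c744af122acc52b156ed9571554ed003b30d9bd128f (k8 c5568 c5567 c5565 c5475 c12185 c12887 c5211 c5531 (k8 c5414 c8880 c12877 c5573 c5421 c5417 c5574 c5326 (k8 c9695 c5559 c5341 c12924 c5664 c12530 c1129 c5733 (k8 c1130 c1977 c2396 c8309 c9179 c1953 c2195 c473 k0)))) (by decide +kernel)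
def c12926 : PP 9 3 T 0x40000000000000001000000080000000000000100040000000100201000040000000000400410001440004104150100000000000008000140010000400000 := rS 0x34882d50c780fa75 (k8 c5440 c5442 c6327 c5648 c10677 c543 c8254 c2082 k0) (by decide +kernel)
def c12927 : PP 9 3 T 0x40000000000000001000200080000000000000100040008000000000000060080000000010510001400004004041000000800000008000000010040402000 := rS 0x67b4d34911986650d71c96cfe9d2fa64462140a3512af8aed33a373c8ec131c (k8 c564 c5438 c289 c5441 c2363 c5523 c5211 c5414 (k8 c3070 c5567 c5381 c5380 c5528 c9733 c2373 c5439 (k8 c1135 c5358 c5474 c398 c2145 c12926 c5315 c5316 (k4 c9821 c6193 c2081 c2563 (k1 c11742 k0))))) (by decide +kernel)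
def c12928 : PP 9 3 T 0x40000000000000001000200080000000000000100040008000000000000020080000000000510001400004004049000000880000008000000010040402000 := rS 0x136390cb8866d669a459ed00e470b05b4e97d327911887699d8183c7609 (k8 c5438 c289 c12627 c10690 c5523 c5211 c5528 c9733 (k8 c5441 c2373 c5439 c1135 c5474 c9904 c564 c2003 (k8 c12927 c174 c9793 c4499 c11742 c4508 c2146 c375 (k2 c397 c2621 (k1 c6193 k0))))) (by decide +kernel)
def c12929 : PP 9 3 T 0x45000000000000081000200080000000000000100040008000000000000000001000000000100000000000000009000000880000001400000000000000401 := rS 0x3b1d2cbdd8a250ba4c7637012bc1805803fc1e1f25115e65f049e5669f658a562b511c57699d37a2ce303 (k8 c10690 c5571 c737 c5565 c5523 c5211 c5414 c9733 (k8 c5422 c5421 c5417 c5420 c5572 c5574 c5441 c5438 (k8 c5439 c5325 c5326 c5660 c6300 c12627 c2568 c9182 (k8 c6008 c5645 c3070 c5642 c2363 c289 c261 c1107 (k4 c1113 c12739 c12928 c2111 (k2 c6335 c263 (k1 c8309 k0))))))) (by decide +kernel)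
def c12930 : PP 9 3 T 0x210000000000000000000000008000000000000040000000000000000000000000000040400000000000002000000000000000400 := rS 0xb00e8e844ba13 (k4 c5564 c5321 c3027 c514 (k2 c10368 c12681 (k1 c474 k0))) (by decide +kernel)
def c12931 : PP 9 3 T 0x4000200000000000000000000040008000000101000000000000000000000001410000000008000010090000005400000014500000001 := rS 0x810018903e4322974b68d099bd128b (k8 c737 c5567 c5565 c5564 c5381 c5474 c5321 c5326 (k4 c5478 c12678 c3584 c1113 (k2 c12675 c5642 (k1 c719 k0)))) (by decide +kernel)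
def c12932 : PP 9 3 T 0x200080000000000000000000008000200000000000000000000000000000000000000000400000000010000000000000000018000 := rS 0x1de1b974b631 (k4 c5476 c5474 c5321 c5435 (k2 c11596 c9522 k0)) (by decide +kernel)
def c12933 : PP 9 3 T 0x1000000000001000010000000000000000000040000000100000000000000000500000400001400005104000000000000004000400100001001000020 := rS 0xdf508d82c3b4d88e2bb4 (k8 c5211 c5414 c9733 c9848 c12293 c5648 c5654 c1068 (k2 c2331 c3620 k0)) (by decide +kernel)
def c12934 : PP 9 3 T 0x80000000000000000000008000000000000000001000000000100000000000008000000000080010000000000000000000005 := rS 0x61038cd2e5d1a96c62092b9dcea19 (k8 c9701 c5440 c5356 c5353 c5438 c5476 c5474 c5324 (k4 c5321 c1637 c323 c1564 (k2 c12694 c5729 k0))) (by decide +kernel)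
def c12935 : PP 9 3 T 0x1000000000005000200080000000000000000040008000000200000000001000500000500001400004000008000000880000000400000000080010401 := rS 0x32ef0f940d36fa5482360b0ed3693948e408192c838060d1895d3a5f4c9e4471541aa7699d (k8 c5523 c5211 c5531 c2007 c5414 c9733 c5441 c2373 (k8 c5439 c1135 c5353 c5476 c2362 c1112 c5645 c2112 (k8 c9701 c5642 c393 c12932 c12934 c9848 c12293 c5648 (k8 c5654 c9012 c1461 c2331 c2082 c3620 c1069 c5869 (k2 c405 c5492 k0))))) (by decide +kernel)
def c12936 : PP 9 3 T 0x1000000000005000200080000000000000000040008000000200000000001000500000500001400004000008000000880000005400000014000010401 := rS 0x197787ca069b7d2a411b058769b1ca4e520e2c81032031207c62574e97d327911c54426f41aa7699d (k8 c5523 c5211 c5531 c2007 c5565 c5528 c5414 c9733 (k8 c5441 c2373 c5439 c1135 c5353 c5476 c12935 c3584 (k8 c1113 c9701 c5642 c2004 c6008 c12932 c12934 c393 (k8 c6036 c12293 c5648 c5654 c9012 c1461 c2331 c2082 (k4 c3620 c1069 c5869 c405 (k1 c5492 k0)))))) (by decide +kernel)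
def c12937 : PP 9 3 T 0x5000000000000085000200080000000000000100040008000000000000000001000000000100000000000000009000000890000000400000000000000401 := rS 0x1287c040c0283c211cf0b85c64bf92cd3ecb138a56aad11c54426f24c0d06a9da22ce39d (k8 c5523 c5571 c737 c5211 c5531 c2007 c10690 c12930 (k8 c5565 c5528 c5414 c9733 c5573 c5422 c5417 c5570 (k8 c5420 c5572 c5574 c12929 c5546 c5549 c5591 c11668 (k8 c12931 c12936 c10107 c719 c5645 c5642 c2362 c1113 (k1 c3584 k0))))) (by decide +kernel)
def c12938 : PP 9 3 T 0x40004000000000000000000080000000000000100040000000100000400000000000500000000000000000001400100000000000000000000000000000000 := rS 0x1ebc0df639f4f27f (k8 c5358 c5441 c5442 c5357 c6120 c5168 c3610 c5457 k0) (by decide +kernel)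
def c12939 : PP 9 3 T 0x4004000000000005000000000000000000000000000000000000200000000000000080041500000000000010000000000000000000000080000000000000 := rS 0x197787cd5 (k4 c3003 c2332 c10379 c405 (k1 c5492 k0)) (by decide +kernel)
def c12940 : PP 9 3 T 0x4000000000000000000201080000000000000000040008000000000000000000000000000000000000000000001000000910000000000000000000000000 := rS 0xa01fb7c6de1f978da6e34a905c2161da6d231c0ca4e5239088100659070348ccd4320d166664bc4ba312b98cee7159a7d969d2fa64f3135aed8471554ed36201d986c168147d67db9d (k8 c5523 c12923 c12925 c5568 c5380 c12749 c5475 c12185 (k8 c12887 c12890 c5211 c5531 c5414 c9733 c12877 c5422 (k8 c2600 c5441 c2373 c5439 c1135 c5420 c5572 c5574 (k8 c5571 c5356 c5355 c5353 c5476 c5321 c9695 c12308 (k8 c5664 c737 c2007 c5672 c12000 c12937 c2367 c5779 (k8 c2112 c9738 c9739 c10107 c393 c12932 c12934 c9701 (k8 c12681 c2784 c9848 c12293 c5648 c2789 c9012 c1461 (k8 c2348 c2082 c6661 c12938 c11668 c5654 c12939 c2913 (k2 c3620 c8159 k0))))))))) (by decide +kernel)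
def c12941 : PP 9 3 T 0x10000000000000a0000000000000000000000000000008000000000000000001000000000000000040000000000800000020010002000000000000000000 := rS 0x471ee1d22bd452b1 (k8 c5421 c5417 c5477 c5326 c1953 c1971 c10428 c513 k0) (by decide +kernel)
def c12942 : PP 9 3 T 0x4000000000000000000201080000000000000000040008000000000000000000000000000000000000000000001000000900000000000000000000000000 := rS 0x1e8fc82928e0c838f62c0940e486b85e04c87fc04724b088119eaf413f41c87325651e893784d02f10dbd4127d3f95ceab358ad55bb64e97d327955ece2aa9da67763ed (k8 c12923 c12890 c5523 c5211 c5531 c5414 c12185 c8880 (k8 c5441 c2373 c5439 c1135 c12877 c5573 c5422 c5421 (k8 c5574 c5440 c5353 c5358 c5442 c5438 c5477 c5475 (k8 c9695 c5380 c5564 c5565 c5567 c5568 c12925 c12940 (k8 c2113 c12530 c1129 c5733 c1130 c11551 c9739 c10107 (k8 c12627 c393 c1977 c2396 c12532 c3623 c1064 c2189 (k8 c7820 c714 c10629 c12941 c473 c313 c12275 c2195 (k4 c2062 c3754 c406 c1570 (k1 c12613 k0))))))))) (by decide +kernel)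
def c12943 : PP 9 3 T 0x1000000000000000000000000000000000000000000000001000000040400000000004004000000500080054000011000015001400120 := rS 0xa04b0fe5007 (k4 c714 c5648 c5318 c10711 (k2 c3579 c1234 k0)) (by decide +kernel)
def c12944 : PP 9 3 T 0x4000000000000001000101080000000000000000040008000000000000000000000500000000000000000000000000000910000000411100001000000004 := rS 0x1bde050a6e521669a31268b2c99912c97896c1257319dcea7159a7d962714ad55bb64e97d32798aed33a1902007661b (k8 c5475 c12185 c12887 c5642 c9701 c5523 c5211 c5414 (k8 c5441 c2373 c5439 c1135 c12877 c5573 c5422 c5417 (k8 c5570 c5420 c5572 c5574 c5571 c5440 c5356 c5355 (k8 c5353 c5438 c5474 c9695 c12308 c8134 c5664 c314 (k8 c737 c12934 c5673 c2083 c12943 c5433 c1067 c1068 (k2 c12933 c3620 (k1 c5538 k0))))))) (by decide +kernel)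
def c12945 : PP 9 3 T 0x80000000000000000000000000000000000000000000000400200000080000000000000000020000000111000000000050040 := rS 0x1fa05a88a049f4fe57 (k8 c5353 c5358 c5442 c5438 c1131 c1183 c857 c2996 (k1 c12613 k0)) (by decide +kernel)
def c12946 : PP 9 3 T 0x4000000000000000000001080000000000000000040008000000000000000000000000000000000000000000001000000900000000000000000000000000 := rS 0xfd029245071fcaf03b5c2ec867a09fa873204c72040700c1a1e23c76b025208f602e124b8c9611f940f420bf68048a1b049f4fe575989c52b15aab76c9d2fa64f22355ece2a2154ed33bb1 (k8 c12890 c5523 c5211 c5531 c5528 c5414 c12185 c8880 (k8 c9733 c5441 c2373 c5439 c1135 c12877 c5573 c5422 (k8 c5421 c5417 c5570 c5574 c5353 c5358 c5442 c5438 (k8 c5475 c5326 c12887 c12923 c12749 c12942 c11700 c5191 (k8 c12885 c5546 c5549 c5588 c5591 c5592 c12640 c12636 (k8 c12632 c12922 c5341 c5562 c3584 c2362 c1112 c5645 (k8 c5642 c393 c475 c12944 c2113 c1129 c5733 c11551 (k8 c12532 c1064 c2189 c714 c12945 c9179 c8309 c2397 (k4 c2062 c857 c326 c12613 k0))))))))) (by decide +kernel)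
def c12947 : PP 9 3 T 0x1001000000000001000000000000000000000000040008000000200000000040000000015000000000020000000000000000000000000440000001000000 := rS 0x24c7f2919f79e6f5 (k8 c5477 c5325 c5688 c12046 c9979 c405 c9007 c8159 k0) (by decide +kernel)
def c12948 : PP 9 3 T 0x4000000000000001000210080000000000000000040008000000000000042000000000004500000000004000000800050001000004000440000001004400 := rS 0x948fd26326ba5bbeccf0c73e4d523bfe02a024f8d1e893784d0243228d5e6f52f9f4fe63f6b44eaf7 (k8 c1972 c5440 c1975 c5542 c5355 c5358 c5442 c5439 (k8 c5477 c5325 c5324 c5326 c5478 c5380 c5564 c5565 (k8 c5567 c5568 c12178 c10368 c3599 c1977 c2396 c5779 (k8 c3001 c5694 c3593 c11668 c12947 c5495 c2505 c2191 (k4 c5778 c1637 c406 c5316 (k1 c8159 k0)))))) (by decide +kernel)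
def c12949 : PP 9 3 T 0x5000000000000001000011080000000000000000000008000000000000048000000000010000000000000004004000000010000000011000000081412010 := rS 0x3b3250331c914c7b31b9e47609 (k8 c5438 c289 c5441 c2363 c12185 c5355 c5326 c2473 (k4 c12859 c5648 c11661 c5432 (k1 c11995 k0))) (by decide +kernel)
def c12950 : PP 9 3 T 0x4000000000000005000100000000000000000000000000000000000000000000000000040500000000000000180050054005400000000001001000800000 := rS 0x779aac4f1a014295 (k8 c1461 c1068 c9215 c5463 c856 c1659 c10379 c5451 k0) (by decide +kernel)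
def c12951 : PP 9 3 T 0x4000000000000001000111080000000000000200000008000000000000002000000000004100000000000000104800000011000000400000000081002012 := rS 0x25d9892198e42e8a69bf8df1d208f422251a8c4be7d3f98f6671659ce06b5db344eaf7078dcf23b04927e5ed (k8 c5542 c5191 c5588 c5438 c289 c5441 c2363 c9739 (k8 c1972 c5440 c1975 c12877 c5422 c2631 c5419 c5420 (k8 c5571 c12185 c5355 c5358 c5442 c5439 c5476 c5324 (k8 c5559 c5558 c5560 c5340 c5341 c1060 c12736 c2943 (k8 c2397 c12950 c2473 c12859 c12949 c11661 c1637 c2505 k0))))) (by decide +kernel)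
def c12952 : PP 9 3 T 0x80000000000000000000000000000000000000000000008000000000000000040000000000000000000000000100800000000000000400000000000080000 := rS 0xff8ea2c8a49 (k4 c5588 c5326 c2976 c300 (k2 c2397 c12736 k0)) (by decide +kernel)
def c12953 : PP 9 3 T 0x1000111080000000000000000000008000000000000002000000000050000000000000004004000004011000000000000000081422010 := rS 0xa140a580ecc940cc725f3e9fcc7b338b2ce7b61b9e47609 (k8 c5438 c289 c5441 c2363 c12877 c5419 c5420 c5571 (k8 c12185 c5355 c5358 c5442 c5439 c2473 c12859 c5648 (k4 c11661 c5432 c2505 c699 (k2 c1234 c9215 k0)))) (by decide +kernel)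
def c12954 : PP 9 3 T 0x1000100080000000000000000000000000000000000000000000000000400000000000000000000054001000000000000000000820000 := rS 0x1065263 (k4 c5355 c5433 c9012 c9832 k0) (by decide +kernel)
def c12955 : PP 9 3 T 0x4000000000000001000111080000000000000000000008000000000000002000000000004100000000000000104800000011000000400000000081002012 := rS 0x4bb3124331c85da68a44840de13ac90c6a7f31ecce2cb39ed9a2757b83c6e791d827e5ed (k8 c5542 c5191 c5438 c289 c5441 c2363 c9739 c1972 (k8 c5440 c1975 c12877 c5419 c5420 c5571 c12185 c5355 (k8 c5358 c5324 c5478 c12951 c12952 c1061 c12617 c2749 (k8 c5673 c2938 c12954 c2473 c12859 c12953 c11661 c1637 (k1 c2505 k0))))) (by decide +kernel)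
def c12956 : PP 9 3 T 0x4000000000000000000001080000000000000000040008000000000000000000000000000000000000000000001000000800000000000000000000000000 := rS 0x4b24998d3198e5fc1737a24208e23684c23b1b92da303678303c0f058651a827e21d92000280cca68d890c6a093c98cebb338a7d96735aedb3b11 (k8 c159 c5523 c12877 c5422 c5419 c5420 c5572 c5571 (k8 c12185 c5440 c5355 c5441 c5438 c5324 c5478 c12890 (k8 c12946 c124 c9741 c9743 c9744 c4044 c897 c1223 (k8 c1224 c946 c9701 c2306 c9739 c1058 c1059 c11551 (k8 c2631 c1975 c2590 c2363 c289 c12728 c12948 c12955 (k8 c2367 c2368 c2749 c2746 c12954 c8824 c2473 c12859 (k4 c2943 c11661 c12953 c2505 (k1 c1637 k0)))))))) (by decide +kernel)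
def c12957 : PP 9 3 T 0x8000000000000080000010000000000000000000040008000000000000000001000000000000000000000000008000004000000008000000000000000001 := rS 0x12874045902bdc1e432286c4e2958ab63aaf (k8 c5584 c5504 c5573 c5421 c5417 c5570 c5475 c5326 (k8 c5478 c12627 c564 c6008 c2111 c5642 c263 c1113 (k1 c3582 k0))) (by decide +kernel)
def c12958 : PP 9 3 T 0x8000000000000000000211080000000000000000040008000000000000000000000000000000000000000000001000000110000000000000000000000000 := rS 0x112c8381a46259250c83333c4ba715989c52b55688c431d4582fdaaf55aa60715da2c76c6f47807661b (k8 c5475 c12185 c12887 c5568 c5565 c12877 c5421 c5211 (k8 c5414 c5508 c5531 c8880 c5584 c10275 c12749 c5583 (k8 c5504 c5528 c9733 c5573 c5422 c5417 c5570 c5574 (k8 c5571 c5321 c9695 c5664 c2007 c5672 c12930 c12957 (k4 c12931 c2367 c5779 c2112 (k2 c10107 c12681 k0)))))) (by decide +kernel)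
def c12959 : PP 9 3 T 0x1000000000000024000010000000000000000000000000000000000000044000000000000000001154000000011000000020000000000000000000000000 := rS 0x100413f62aa9 (k4 c5531 c5414 c1129 c5733 (k2 c9083 c1977 k0)) (by decide +kernel)
def c12960 : PP 9 3 T 0x201080000000000000000040008000000000000000000000000000000000000000000001000000800000000000000000000000000 := rS 0x2591c93017b8781e8200014d06547a24264322bcdeab556c75fe0bf6abd57b354c0fdd15da2c76d9d (k8 c5523 c12877 c5421 c5211 c5414 c12956 c5508 c5531 (k8 c12185 c8880 c5584 c10275 c12749 c5586 c5504 c5573 (k8 c5422 c5477 c5325 c5326 c5478 c5564 c5567 c5568 (k8 c12959 c12958 c9743 c9744 c1224 c9739 c1058 c1972 (k4 c1977 c10368 c5779 c2590 (k1 c3593 k0)))))) (by decide +kernel)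
def c12961 : PP 9 3 T 0x9000000000000002000101080000000000000000000008000000000000000000000000001000000000000004008000000810000000000440000140400000 := rS 0x202d248a5da1df1c255361950bccb6773aecce2cb56eda229d2fa64f223cea35aeaf (k8 c5584 c5507 c5505 c5523 c9733 c5441 c2373 c5439 (k8 c1135 c159 c12877 c5573 c5420 c5571 c12185 c5440 (k8 c5356 c5474 c5325 c5398 c5393 c5397 c5446 c3578 (k4 c9031 c6897 c8166 c9793 (k2 c8156 c12478 (k1 c2135 k0)))))) (by decide +kernel)
def c12962 : PP 9 3 T 0x8000000000000081000100080000000000000000040008000000000000000000000000000010000000000000019000000800000000400000000000012009 := rS 0x205a67b4a060732968bd920582407096252296cfa7f3b9d5662714ac55b135a88e2a21da6763a8d6babc761f498242e5f (k8 c5439 c1107 c5438 c261 c2362 c289 c5584 c5507 (k8 c5505 c5504 c5523 c5211 c5528 c5414 c9733 c5422 (k8 c2600 c5573 c5421 c5417 c5570 c5574 c5440 c5356 (k8 c5358 c5442 c5474 c5326 c12632 c12663 c8309 c3584 (k8 c263 c294 c2111 c9793 c9821 c398 c5648 c376 (k4 c10458 c2018 c907 c5861 k0)))))) (by decide +kernel)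
def c12963 : PP 9 3 T 0x9000000000000025000001000000000000000000000000000000000000010080000000001010000000000000010050500014400000000440000401020518 := rS 0x6834bbecff0a0534071cca0668d6bb252617 (k8 c1107 c261 c12308 c5507 c5505 c12859 c5648 c397 (k8 c5432 c9933 c699 c5536 c2563 c8993 c5861 c5688 (k1 c2135 k0))) (by decide +kernel)
def c12964 : PP 9 3 T 0x1080000000000000000040008000000000000000000000000000000000000000000011000000890000000400000000000004001 := rS 0x69a047818123da03f224d6421b16285d261f1d8dc040c02bc486f32f824fa793f9d5662714ad446218ea35aeff05e8592634333507ed57aaf66a981fba2bb4ceac76c77 (k8 c5356 c12877 c5421 c5523 c5211 c5414 c12956 c5508 (k8 c5531 c12185 c8880 c5584 c10275 c2007 c12000 c5672 (k8 c5355 c12308 c12960 c12749 c5586 c5507 c5505 c5504 (k8 c5528 c9733 c5422 c5417 c5570 c5574 c5440 c5358 (k8 c5441 c5442 c5438 c5439 c5325 c5478 c9695 c6008 (k8 c5645 c5642 c2363 c289 c2362 c261 c1107 c12739 (k8 c12961 c12962 c5558 c3027 c5221 c5592 c12736 c8140 (k4 c12963 c1167 c12620 c2768 (k1 c5861 k0))))))))) (by decide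 +kernel)
def c12965 : PP 9 3 T 0x100000000000000000000000008000000000000000000000000000000000000000000150400000000000000000000004000008000 := rS 0xac04cb21102114ba5b (k8 c5474 c5321 c5326 c9739 c10107 c474 c317 c12635 (k1 c8187 k0)) (by decide +kernel)
def c12966 : PP 9 3 T 0x9000000000000021000001080000000000000000000008000000000000010000000000001010000000000000018000000010000000000440000401020418 := rS 0x2c81def28199746a5b189f4fe57319dcebb3498242e5f (k8 c5439 c1107 c5438 c261 c12185 c5440 c5356 c5355 (k8 c5353 c5358 c5442 c5476 c5474 c5324 c5321 c12859 (k4 c5648 c12963 c5432 c2111 (k1 c10897 k0)))) (by decide +kernel)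
def c12967 : PP 9 3 T 0x1080000000000000000040008000000000000000000000000000000000000000000001000000910000000000000000000000000 := rS 0x34d023c20863c7b11fb142e9380842b21f1d8dc0446060141ecd4320ccc8964bc486f32f824fa793f98cee75138a55a2310a35ae8b05fb55eab54c0fdd15da2c76d9dd0807661b (k8 c5475 c12185 c12887 c12960 c5523 c12877 c5421 c5211 (k8 c5414 c12956 c5508 c5531 c8880 c5584 c10275 c12749 (k8 c5583 c5507 c5505 c5528 c9733 c5573 c5417 c5570 (k8 c5440 c5356 c5355 c5358 c5441 c5442 c5438 c5439 (k8 c5325 c5478 c9695 c12308 c8134 c5664 c2007 c5672 (k8 c12000 c12965 c6008 c5645 c12964 c5642 c2363 c289 (k8 c2362 c5562 c2368 c2790 c261 c1107 c12739 c2914 (k8 c12961 c8136 c12966 c543 c6195 c700 c2768 c5861 k0)))))))) (by decide +kernel)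
def c12968 : PP 9 3 T 0x84000010000000000000000000040008000000100000044001000000000000000044000000001000000020000000000000000000000000 := rS 0x748ff30222200827e83886457986dea2714ad55bed54c5768b1 (k8 c5421 c5211 c5414 c5531 c10275 c5573 c5422 c5417 (k8 c5570 c5477 c5475 c5325 c5326 c5478 c12530 c1129 (k8 c5733 c9083 c12959 c9739 c5592 c2790 c8656 c8493 k0))) (by decide +kernel)
def c12969 : PP 9 3 T 0x1000000000000082000100000000000000000000000000000000001000002000000000414000000040000000000051004805400000000000000000000000 := rS 0x23922e2f9b7cf6e1f033501df4aa6d427159b2ce6adcea7626b5 (k8 c5422 c2600 c1135 c5523 c5573 c5419 c5420 c5574 (k8 c5571 c5398 c5397 c5446 c9031 c9215 c2504 c5688 (k8 c1717 c5457 c5538 c7694 c5986 c907 c5675 c2403 k0))) (by decide +kernel)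
def c12970 : PP 9 3 T 0x8000000000000004000011000000000000000000040008000100000000010040000100000000000000000000000a00000010000004400440000000000000 := rS 0x3c07a1ca40904322bcdeb03 (k8 c5508 c5477 c5325 c5326 c5478 c5996 c12464 c400 (k2 c907 c5654 (k1 c5457 k0))) (by decide +kernel)
def c12971 : PP 9 3 T 0x1080000000000000000040008000000000000000000000000000000000000000004001000000800000000400000001000010000 := rS 0xf01e99a908038501df50a542d29219146a3138a7d9627149cd5b136a86406f707814961e5a8df62611d83000c93bb45047567a1e226f7e1a0caff8ebc7daabd9aa606b157b5fdd15da6776c633f9e4be3d3e90413a1 (k8 c12960 c5438 c12636 c5442 c12640 c5439 c5441 c5358 (k8 c5355 c12877 c5523 c5211 c5414 c12956 c5507 c5584 (k8 c5421 c5508 c5531 c12185 c8880 c10275 c9695 c5504 (k8 c5586 c12968 c12967 c1223 c1225 c159 c897 c11551 (k8 c5440 c1224 c1975 c5356 c12308 c9744 c1059 c289 (k8 c12728 c12969 c2363 c5422 c1058 c2590 c9743 c9739 (k8 c1972 c9741 c9701 c5585 c2600 c5573 c5419 c5417 (k8 c5570 c5420 c5572 c5571 c5476 c5324 c5326 c5478 (k8 c10044 c5648 c1461 c1068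 c9031 c9215 c1717 c12970 (k4 c1978 c2078 c907 c5688 (k1 c5457 k0))))))))))) (by decide +kernel)
def c12972 : PP 9 3 T 0x100000000000000000000000000000000000000000000000000000000000000000000000000004000000000000000002000010000 := rS 0x2759 (k2 c5559 c2804 (k1 c12617 k0)) (by decide +kernel)
def c12973 : PP 9 3 T 0x11000000000000000000000008000000000000002000000000010100000000000008004001000000000000000400000100002000 := rS 0x19a3919a5c6a37 (k4 c2363 c5324 c1637 c323 (k2 c324 c2505 (k1 c11661 k0))) (by decide +kernel)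
def c12974 : PP 9 3 T 0x1080000000000000000040008000000000000000000000000000000000000000000001000000800000000400000000000010000 := rS 0x12e84de931d825a2823a83000fc439a222c932bfd5f038efb957b678eccee6310ed33a79 (k8 c5441 c5523 c5211 c5528 c5355 c5356 c12185 c9695 (k8 c12877 c8880 c12956 c5504 c5508 c5584 c5586 c12968 (k8 c12308 c159 c12967 c897 c1223 c9744 c1059 c5440 (k8 c1224 c1975 c5438 c289 c12973 c1225 c12960 c12972 (k1 c12971 k0))))) (by decide +kernel)
def c12975 : PP 9 3 T 0x1080000000000000000040008000000000000000000000000000000000000000000001000000800000000400000000000000000 := rS 0x7c893590802fdaa98aed163a17ba081e0534195feaf81c77dcabceedb66f1 (k8 c9695 c12185 c12877 c5523 c8880 c12956 c5504 c5508 (k8 c5584 c5586 c12968 c12967 c9743 c9739 c1224 c1972 (k8 c12960 c5421 c5211 c5414 c5531 c10275 c12749 c12974 (k4 c5558 c3027 c5221 c12736 k0)))) (by decide +kernel)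
def c12976 : PP 9 3 T 0x1080000000000000000040008000000000000000000000000000000000000000000001000000800000000000000000000000000 := rS 0x40a840e95efca1a4170811927b1308eda2cf06078326f413f10e000280cd0c932e87daff57c0daf1df73c4be093e9e4fe633b9d4e2cb39ac55bb688aaf671510aa7699d (k8 c5523 c5211 c5531 c5528 c5414 c12185 c8880 c159 (k8 c12877 c5573 c5421 c5419 c5420 c5571 c5440 c5356 (k8 c5355 c5358 c5441 c5442 c5438 c5439 c9695 c12956 (k8 c5504 c5507 c5508 c5584 c5586 c10275 c12960 c12968 (k8 c12308 c12967 c9741 c9743 c9744 c897 c1223 c1224 (k8 c1225 c9701 c1058 c1059 c11551 c1975 c289 c12728 (k8 c12969 c12973 c12975 c2368 c12954 c12953 c5648 c5496 (k4 c2018 c5432 c10048 c699 (k1 c9215 k0))))))))) (by decide +kernel)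
def c12977 : PP 9 3 T 0x5000000080000000000000000000008000000000400000001000500000100000000000005402100000020000000400000000090400000 := rS 0x1b378307b19b17bc350d8c4fa794b97d2a75 (k8 c5440 c1955 c5439 c1126 c5441 c5442 c5476 c5475 (k8 c5324 c10944 c5451 c5492 c847 c3577 c5846 c1165 (k1 c2331 k0))) (by decide +kernel)
def c12978 : PP 9 3 T 0x5000200080000000000000000040008000000200400000001000000000000000104000005402000000020000004400000000090400000 := rS 0x194a1abe36f0ecf6d768f7d91e170b8fe4353e9e7da0f06bcd9ac740d649303 (k8 c2629 c514 c5341 c5380 c5357 c2502 c5325 c2540 (k8 c9740 c5541 c5441 c5442 c5324 c5660 c5549 c5591 (k8 c11668 c12977 c5494 c2133 c2189 c848 c6899 c5846 (k4 c5580 c3003 c11955 c5778 (k1 c5316 k0))))) (by decide +kernel)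
def c12979 : PP 9 3 T 0x5000200080000000000000000000008000000200000000001000000000100000000000004002000000020000001800000010090400800 := rS 0xde718d882181f9ec66c5ef0d436314b97d2a75 (k8 c5440 c1955 c5439 c1126 c5476 c5475 c5324 c10944 (k8 c5451 c5492 c847 c405 c3577 c543 c1165 c2348 (k2 c11714 c2332 k0))) (by decide +kernel)
def c12980 : PP 9 3 T 0x84000200080000000000000000040008000000000400002001000000000000000004000004002000000020000000000000000080400810 := rS 0x250321bb57c6de70b8fc23f1d9ed9c9a6bb47bec82324602498e6c4de134090c8a350d97cfa793f98c527356fb59b030e8e58e4b47a256271 (k8 c5571 c5421 c8464 c2547 c2588 c5357 c2470 c9094 (k8 c2629 c2502 c5541 c5573 c5419 c5417 c5355 c5358 (k8 c5441 c5442 c5439 c5475 c5324 c5326 c5478 c5380 (k8 c5564 c5565 c8833 c9423 c514 c2140 c695 c12978 (k8 c12979 c5494 c2133 c2189 c1180 c1181 c848 c6899 (k8 c406 c5536 c4604 c1653 c5846 c5580 c3003 c2332 (k2 c5778 c5654 (k1 c5316 k0)))))))) (by decide +kernel)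
def c12981 : PP 9 3 T 0x800000000000000a2000000000000000000000000040008000000000000000001000000001100000000000054000000000000000000400100000010400000 := rS 0x3b1b8c9bde19486542350d8c596e3 (k8 c5549 c5420 c5476 c5475 c5324 c5398 c5393 c5974 (k4 c7694 c5271 c3577 c2331 (k2 c493 c5654 k0))) (by decide +kernel)
def c12982 : PP 9 3 T 0x800000000000000a4000000080000000000000000040008000000000400000001000000000100000000000004482000000020000000400100000090400000 := rS 0xc4ef20362cd63a5cbe953ab8d22e1 (k8 c5591 c5589 c5549 c5440 c1955 c5439 c1126 c5357 (k4 c2502 c12981 c12977 c10944 (k2 c856 c5451 k0))) (by decide +kernel)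
def c12983 : PP 9 3 T 0x4000000000000000000001080000000000000000040008000000000000000000000000000000000000000000000000000800000000400000000000000000 := rS 0x6fa04f6ce6bb4590e148b8da7f2451f4f27fda7b43a3963a3d12b138e842e5f4980802090f0281af30283df864422af3b135aedb66f1 (k8 c9695 c12185 c12877 c5422 c2600 c5523 c8880 c12976 (k8 c2543 c2542 c9740 c6008 c5325 c2540 c5645 c2305 (k8 c5438 c1059 c5642 c261 c5439 c1107 c12980 c5571 (k8 c5421 c8464 c2547 c5357 c2470 c9094 c5541 c5211 (k8 c5358 c5441 c5442 c8120 c5191 c2938 c5549 c5589 (k8 c5591 c12982 c2133 c2189 c1181 c848 c857 c2565 (k1 c5846 k0))))))) (by decide +kernel)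
def c12984 : PP 9 3 T 0x800000000000000a4000000080000000000000000040008000000000400000001000000000100000000000005402000000020000000400100002090400000 := rS 0x19198f7bc80d88d4363166b1d2e5f4a9d5c6e1 (k8 c5591 c5549 c5440 c1955 c5439 c1126 c5357 c2502 (k8 c5476 c5475 c5324 c12981 c12977 c10944 c12620 c5492 (k2 c1167 c3577 k0))) (by decide +kernel)
def c12985 : PP 9 3 T 0x1080000000000000000040008000000000000000000000000000000000000000000000000000800000000400000000000000000 := rS 0x1290c8187a806f9ed9cd1d8b21c2e3087c848917fabd171df71f4f27f14ed03a3963a3d12b138e842e5f4980802090f0281af30283df864422af3b135aedb66f1 (k8 c9695 c12185 c12877 c5422 c2600 c5523 c8880 c12976 (k8 c2543 c2542 c9740 c6008 c5325 c2540 c5645 c2305 (k8 c5438 c1059 c5642 c261 c5439 c1107 c12980 c5571 (k8 c5421 c8464 c2547 c5357 c2470 c9094 c5211 c5417 (k8 c5358 c5441 c5442 c12983 c5504 c5583 c5584 c5586 (k8 c849 c12476 c5675 c12632 c5549 c5591 c12984 c5396 (k8 c2133 c1181 c848 c2564 c3610 c12620 c699 c1167 (k2 c5432 c5648 k0)))))))) (by decide +kernel)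
def c12986 : PP 9 3 T 0x840000000000000a2000000000000000000000000000008000000000000000001000000041100000000000054000000000000000000004000000010400000 := rS 0x35fbed5f18c9bc9b0ca846a1b18b2dc6e1 (k8 c5591 c5549 c5420 c5476 c5475 c5324 c5398 c5393 (k8 c5397 c5271 c3577 c6661 c3003 c5492 c2186 c5689 k0)) (by decide +kernel)
def c12987 : PP 9 3 T 0x840000000000000a4000000080000000000000000000008000000000400000001000000000100000000000005482000000020000000004000000090400000 := rS 0x1b37830813d8cd8bded88d436313e9e59ac74b97d2a7571b85a67f (k8 c5358 c2938 c5591 c5549 c5440 c1955 c5439 c1126 (k8 c5357 c2502 c5441 c5442 c5476 c5475 c5324 c12986 (k8 c10944 c5451 c5492 c847 c856 c3577 c5846 c1165 (k1 c2332 k0)))) (by decide +kernel)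
def c12988 : PP 9 3 T 0x840000000000000a4000100080000000000000000000008000000000400002001000000000000000004000005012000000020000000004000000090400000 := rS 0x6fa04f6ce6bb4590d3451f4f27f58a3dc6e1 (k8 c5591 c5549 c2547 c5421 c5358 c5441 c5442 c8120 (k8 c2938 c12987 c2133 c2189 c1181 c848 c857 c2565 (k1 c5846 k0))) (by decide +kernel)
def c12989 : PP 9 3 T 0x890000000000000a2000000000000000000000000000000000000000000010000000000001000000000000050000000000000000000000000000000000000 := rS 0xcf68f7dbde16928596ad71b5d5eff (k8 c5586 c5584 c5507 c5549 c5573 c5420 c5398 c8156 (k4 c7694 c5271 c9031 c2135 (k2 c2564 c5688 k0))) (by decide +kernel)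
def c12990 : PP 9 3 T 0x8000000000000005000000080000000000000100000008000000000000000001000000000100000000000004110000000020000000004000000010400000 := rS 0x7a18f1a0066c5ef0d436313e9fd2e5f4a9d5ae8b (k8 c5583 c5507 c5440 c1955 c5439 c1126 c5358 c5442 (k8 c5476 c5475 c5324 c10944 c5451 c5492 c8993 c8136 (k2 c3577 c12620 (k1 c6195 k0)))) (by decide +kernel)
def c12991 : PP 9 3 T 0x1080000000000000000040008000000000000000000000000000000000000000000000000000800000000000000000000000000 := rS 0x4a432061ea01be7b6734591b1123fd5f1df70fdc2e30804d2301f95648da14785d261e448083a954b82802057e1911acd0683fda84da3c486f32f8258e7d3c9fcea7114ac626b5db2af3bb3 (k8 c12185 c5523 c8880 c12877 c5422 c2600 c5421 c5417 (k8 c5571 c5440 c5358 c5441 c5442 c5357 c5438 c5439 (k8 c5325 c5478 c9695 c5211 c12976 c5541 c9740 c2540 (k8 c2502 c949 c2543 c2542 c6008 c1059 c5645 c1126 (k8 c1955 c9094 c5642 c8464 c2305 c261 c1107 c2547 (k8 c12980 c12985 c5562 c10418 c2790 c2785 c2810 c12617 (k8 c5549 c5591 c2907 c12988 c5504 c5584 c5586 c12476 (k8 c12989 c12990 c2133 c1181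 c848 c2564 c3610 c12620 (k4 c699 c1167 c5432 c5648 k0))))))))) (by decide +kernel)
def c12992 : PP 9 3 T 0x2000000000000021000001080000000000000000000008000000000000001000000000004000000000000004000000000810000000000000000001400010 := rS 0x12e954d333be3919ca06af318bd4be0911e7476f71bd2993b33b98d52d1 (k8 c5501 c5531 c5355 c5356 c12185 c12308 c12991 c5518 (k8 c5333 c5332 c5523 c9733 c5438 c5439 c5477 c5476 (k8 c5325 c5324 c5648 c12859 c5317 c10382 c3587 c9932 (k2 c2016 c1231 (k1 c5678 k0))))) (by decide +kernel)
def c12993 : PP 9 3 T 0x20000201080000000000000000000008000000000000001000000000000000000000000004001000000810000000000000000000400010 := rS 0xe3f0b58f4cd69b55bec54a1052e1868fb19e872c07106a978bcc36f5639e4ee754fab5ee8146a27627d399fcbe634599b66693892a2bf312808026f1087c92b314ad44fb611e748f4a (k8 c12991 c5520 c5523 c9733 c12877 c5570 c5422 c5417 (k8 c5574 c5334 c5517 c2372 c5565 c1058 c5642 c1113 (k8 c8140 c1139 c3584 c5571 c9744 c12185 c5664 c737 (k8 c5355 c5439 c5358 c5419 c5442 c8833 c5567 c5381 (k8 c5380 c5333 c5573 c5572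 c5440 c5356 c5441 c5357 (k8 c5477 c5475 c5325 c9695 c5531 c9812 c10456 c263 (k8 c2111 c11551 c5672 c5501 c12992 c1227 c543 c376 (k8 c734 c2511 c1589 c2018 c2016 c3607 c3608 c5457 (k2 c1775 c10298 k0))))))))) (by decide +kernel)
def c12994 : PP 9 3 T 0x40000000000000095000000000000000000000000000000000000001000000000000040002110000000000140150150500000000000000000000000000000 := rS 0xd569a5142e36bf7fc29f (k8 c5572 c5537 c5495 c2192 c6448 c10309 c5678 c2019 (k2 c1589 c3608 k0)) (by decide +kernel)
def c12995 : PP 9 3 T 0x91000000000000000000000100000000000000001000000000000440000000000000001500000000000000000000004000001002000000 := rS 0x3c5078dc3e059a7d96b5 (k8 c5422 c5420 c5572 c5574 c5679 c5460 c6706 c3620 (k2 c6195 c2766 k0)) (by decide +kernel)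
def c12996 : PP 9 3 T 0x40000000000000091000000080000000000000000000008000000001000001041000400011010000004001100150100000000000008000000001542000000 := rS 0x69b55281c6baa7c29a1fbcc36f53e9d53eadacb7c8229 (k8 c5417 c543 c2511 c5342 c5573 c5572 c5440 c5442 (k8 c5477 c5475 c5325 c408 c12995 c5536 c2494 c10298 (k4 c3581 c376 c1589 c2018 (k1 c8254 k0)))) (by decide +kernel)
def c12997 : PP 9 3 T 0x40000000000000095000000080000000000000000000008000000001000001041000000010100000004001100110100000080000008000040001542000000 := rS 0xf8723df078dc4cd6fb1482973e9fcee7514a2ce359 (k8 c5342 c5571 c737 c5417 c5440 c5356 c5358 c5442 (k8 c1227 c543 c734 c2511 c12994 c12996 c5466 c6448 (k4 c1493 c5534 c6195 c407 k0))) (by decide +kernel)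
def c12998 : PP 9 3 T 0x201080000000000000000000008000000000000001000000000000000000000000004001000000810000000000000000000400010 := rS 0x1889766269be3919ca032cf68fb36af11abcc62f5049d53a993caac76f71ba051a89d89f4e67f2fb24ee634599b66693892a2bf312808026f1087c92b314ad44fb611e748f4a (k8 c12991 c5520 c5523 c9733 c12877 c5570 c5422 c5417 (k8 c5574 c5334 c5517 c2372 c5565 c1058 c5642 c1113 (k8 c8140 c1139 c3584 c5571 c9744 c12185 c5664 c737 (k8 c5355 c5356 c12308 c5439 c5358 c5419 c5442 c8833 (k8 c5567 c5381 c5380 c5518 c5333 c5332 c8880 c5441 (k8 c2373 c1135 c5440 c5438 c5477 c5476 c5325 c5324 (k8 c9695 c12993 c5238 c5501 c5543 c12997 c5648 c12859 (k4 c5317 c2510 c6193 c3587 (k2 c1231 c12994 (k1 c734 k0)))))))))) (by decide +kernel)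
def c12999 : PP 9 3 T 0x4000000000000000000201080000000000000000000008000000000000000000000000000000000000000004001000000810000000000000000000400010 := rS 0x70b2af43476010341fb5f8fff99284a0210bc486457986d662714ac56aaddb08f3af72491cd2010fd2a2a6f (k8 c5565 c1139 c12991 c5517 c1058 c9744 c5520 c5334 (k8 c5333 c5523 c9733 c12877 c5573 c5422 c5421 c5417 (k8 c5570 c5574 c5475 c5325 c5326 c5478 c9695 c2372 (k8 c5642 c1113 c3584 c8140 c2568 c12998 c5542 c2393 (k8 c2631 c9182 c6335 c5672 c3070 c2111 c3582 c263 k0))))) (by decide +kernel)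
def c13000 : PP 9 3 T 0x4000000000000000000201080000000000000000000008000000000000000000000000000000000000000004001000000810000000000000000000400000 := rS 0xef25a50072c84432047896c12573b9d4e3b13e9cf6c7f2f98ccdb3348043f4a (k8 c12991 c5517 c1058 c9744 c12185 c5664 c5355 c5439 (k8 c5358 c12877 c5419 c5442 c8833 c5571 c5440 c5356 (k8 c5353 c5438 c5474 c9695 c12999 c9698 c719 c314 (k4 c714 c5648 c10711 c11596 (k1 c5452 k0))))) (by decide +kernel)
def c13001 : PP 9 3 T 0x44000000000000020000211000000000000000000000008000000000400000040000000000000000000000000041000000080010001400000000000014420 := rS 0x120fe25c0fda0d43084864579bd51a8947c06385d (k8 c5321 c12681 c2139 c5568 c5567 c5381 c5477 c5325 (k8 c5326 c5478 c5528 c12711 c315 c5499 c10690 c9182 (k2 c5694 c12649 (k1 c3008 k0)))) (by decide +kernel)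
def c13002 : PP 9 3 T 0x4000000000000010000201080000000000000000000008000000000000000000000000040100000000000410000000000800000000000000000000000000 := rS 0xe350b53c7df6fb859fe0f66cd669f65ad73a9d4c9e695b13e9cf6c7f2f98e2a6f (k8 c5565 c1139 c5355 c5439 c5358 c12877 c5419 c5442 (k8 c8833 c12991 c5441 c2373 c1135 c5523 c5422 c5420 (k8 c5572 c5574 c12185 c5238 c5679 c5543 c5460 c5538 (k4 c6344 c6706 c10379 c5869 (k2 c1662 c3620 k0))))) (by decide +kernel)
def c13003 : PP 9 3 T 0x4000000000000000000201080000000000000000000008000000000000000000000000000000000000000004001000000810000000000000000000000000 := rS 0x1224b81837e48610ed1a7018e044b2044da5406419485886452ebcc62f5cec4d6a0f7b924164746a251fb13e9ccfe5f649dcc68b336ccd2010fd28e3b6 (k8 c12877 c5571 c12991 c5517 c1058 c9744 c12185 c5664 (k8 c737 c5355 c5356 c12308 c5439 c5358 c5419 c5442 (k8 c8833 c5568 c5567 c5381 c5520 c5516 c5334 c5333 (k8 c5329 c5422 c2600 c5523 c5477 c5476 c5325 c5321 (k8 c5326 c5478 c13000 c5433 c9012 c1107 c1461 c1066 (k8 c5642 c2004 c719 c12681 c2139 c2082 c13002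 c5528 (k4 c12711 c13001 c315 c10690 (k2 c5546 c5589 (k1 c12649 k0))))))))) (by decide +kernel)
def c13004 : PP 9 3 T 0x201080000000000000000000008000000000000000000000000000000000000000004001000000810000000000000000000400010 := rS 0x1610c1c41fb44afc013c486450d89c52b156edb3af7348043f4a37c755fee (k8 c13003 c5584 c5504 c5565 c12991 c5517 c1058 c9744 (k8 c5333 c5523 c12877 c5573 c5421 c5417 c5570 c5475 (k8 c5326 c5478 c9695 c5642 c12998 c1113 c5542 c2393 (k4 c3582 c5672 c263 c2111 k0)))) (by decide +kernel)
def c13005 : PP 9 3 T 0x200000000000000000000000008000000100000000000000000000000000000000000040000010010000000000000000000000020 := rS 0x164225d (k4 c5321 c719 c314 c12681 k0) (by decide +kernel)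
def c13006 : PP 9 3 T 0x201080000000000000000000008000000000000000000000000000000000000000004001000000810000000000000000000000000 := rS 0x5804058efb8be8b336ccd2010fd28e3b6 (k8 c12877 c5571 c12991 c5517 c1058 c9744 c12185 c5664 (k8 c737 c5439 c13003 c5504 c13005 c5642 c13004 c1107 k0)) (by decide +kernel)
def c13007 : PP 9 3 T 0x80000000000000000000008000000000000000001000000000100000000000008000000000080000000000000000000000005 := rS 0x58 (k2 c12934 c2004 k0) (by decide +kernel)
def c13008 : PP 9 3 T 0x201080000000000000000000008000000000000000000000000000000000000000000001000000810000000000000000000000000 := rS 0x34919992f10498cefb3348043f4a (k8 c12991 c5517 c1058 c9744 c12185 c5356 c5355 c5438 (k4 c9695 c12308 c5664 c13006 (k2 c261 c13007 k0))) (by decide +kernel)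
def c13009 : PP 9 3 T 0x8000000000000001041000000000000000004000000000000000820000000000000000040000010 := rS 0x1d10bcc36f511e75526d (k8 c64 c1958 c5523 c9733 c5477 c5475 c5325 c2372 (k2 c1954 c3581 k0)) (by decide +kernel)
def c13010 : PP 9 3 T 0x5000200080000000000000000000008000000000000000000000000000000000000000004000000000000000000000000000000410020 := rS 0x3bcc42c8ce50072e8d4b6312f95cea19 (k8 c9698 c5440 c5353 c5439 c5476 c5474 c5324 c5321 (k4 c714 c5648 c5316 c12275 (k2 c10897 c11596 (k1 c5451 k0)))) (by decide +kernel)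
def c13011 : PP 9 3 T 0x201080000000000000000000008000000000000001000000000000000000000000000000000000820000000000000000000800000 := rS 0x1b40efbda6d5ef26d92f10decc479d0fd291bb13e9cf6c7f2f98d2a75 (k8 c5440 c1955 c5355 c5439 c5358 c12877 c5419 c5442 (k8 c8833 c5381 c12991 c5517 c5523 c9733 c12185 c5475 (k8 c9695 c1064 c1066 c10944 c5454 c5496 c5725 c9172 (k2 c13002 c12546 k0)))) (by decide +kernel)
def c13012 : PP 9 3 T 0x5000000080000000000000000000008000000000000000000000000000100000000000008000000000020000000000000000000000060 := rS 0x1658a33ef1746a5b1897cae75 (k8 c5440 c5353 c5439 c5476 c5474 c5324 c5321 c10944 (k4 c323 c5451 c9442 c10897 k0)) (by decide +kernel)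
def c13013 : PP 9 3 T 0xa0000000080000000000000000080008000000001000005001000000080200000045000008000100000000000000020000000400000060 := rS 0x2070171c70f4321c83438217986deac72bacd623b07bdc1637 (k8 c5518 c5516 c5333 c5329 c5332 c5421 c5574 c5353 (k8 c5357 c5477 c5475 c5325 c5528 c10456 c315 c324 (k4 c2061 c10699 c544 c1775 (k2 c2139 c2088 (k1 c8604 k0))))) (by decide +kernel)
def c13014 : PP 9 3 T 0x1000001080000000000000000000008000000001000001000000000084200000041000008000100000800000000020000000000000060 := rS 0x1e06638a05ecdabfde2b1db264f22355e77674a (k8 c12991 c12185 c5523 c8880 c9733 c5441 c2373 c12877 (k8 c5421 c9695 c2943 c13013 c5238 c10275 c2088 c2087 (k2 c6448 c5537 k0))) (by decide +kernel)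
def c13015 : PP 9 3 T 0x201080000000000000000000008000000000000000000000000000000000000000000001000000800000000000000000000000000 := rS 0xb28b8e8cfdcd36bf7d90d5f19007e3d4901c2e110233d5efd54a1cc915d89bc2681789746a5f049f4f27f2b98cea714f89ce6b1db1b5579dd987def4a (k8 c12991 c5333 c5517 c12185 c5523 c8880 c64 c12877 (k8 c5421 c5419 c5570 c5572 c5571 c5440 c5355 c5353 (k8 c5358 c5441 c5442 c5438 c5439 c5324 c5321 c9695 (k8 c5380 c5564 c5565 c8833 c1139 c13008 c2113 c1958 (k8 c1129 c1130 c11551 c13009 c719 c13011 c714 c13010 (k8 c1569 c326 c12613 c5462 c1656 c13012 c5494 c2189 (k4 c13014 c5689 c545 c5504 (k2 c5583 c12275 (k1 c12681 k0))))))))) (by decide +kernel)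
def c13016 : PP 9 3 T 0x80000100000000000000000000080000000000000400000000000000000000000000010004000010000000000000000200000501410101 := rS 0x1bee171c507df3f192c4a411eacd3ecb138a56a1f2491e53e1 (k8 c5534 c5317 c5520 c5334 c5517 c5422 c5417 c5570 (k8 c5420 c5572 c5574 c12640 c12636 c12632 c12663 c10342 (k4 c8140 c3579 c8534 c2617 (k2 c3056 c2950 (k1 c5691 k0))))) (by decide +kernel)
def c13017 : PP 9 3 T 0x2000101080000000000000000000008000000000000000000000000000000000000000004000000000810000000000000000000000010 := rS 0xf1a44140b7d21f3f1b5e3ae3f73fd1e3f46d642129628e0c29b0ca84865b049f4fe773aa75327989ad4479d1dbdc923723a255a8b336ccd271db0842e020087e945f (k8 c5439 c12991 c5517 c1058 c5642 c1107 c2372 c12877 (k8 c5571 c9744 c12185 c5664 c737 c5573 c8134 c5520 (k8 c5518 c5334 c5333 c5332 c5523 c9733 c5422 c2600 (k8 c5441 c2373 c1135 c5440 c5356 c5358 c5442 c5438 (k8 c5474 c5478 c5398 c5393 c5397 c5445 c3578 c733 (k8 c5317 c13016 c5558 c701 c2907 c2751 c11835 c5673 (k8 c2618 c5504 c5507 c8136 c12736 c5675 c2948 c908 (k4 c547 c5861 c5655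 c2768 k0)))))))) (by decide +kernel)
def c13018 : PP 9 3 T 0x101080000000000000000000008000000000000000000000000000000000000000000000000000810000000000000000100010000 := rS 0x8c487be29b525895662989ad4479d23a255a8b336ccd2010fd28e3b6 (k8 c12877 c5571 c12991 c5517 c1058 c9744 c12185 c5664 (k8 c737 c5573 c8134 c5520 c5523 c9733 c5422 c2600 (k8 c5417 c5574 c12632 c12663 c9048 c8534 c12459 c1140 (k2 c5673 c10035 k0)))) (by decide +kernel)
def c13019 : PP 9 3 T 0xa0000111000000000000000000080008000000000000041000000000000000000040000000011000000100000000000000000000000008 := rS 0x218b1ed0e20d531578bcc36f538acce6b15a88c3ef7 (k8 c5333 c5517 c9733 c5422 c5421 c5419 c5574 c5571 (k8 c5477 c5475 c5325 c9695 c5414 c5531 c9812 c10456 (k4 c10405 c263 c5672 c2111 k0))) (by decide +kernel)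
def c13020 : PP 9 3 T 0x10000101080000000000000000000008000000000000000000000000000000000000000004000000000810000000000000001001000010 := rS 0x7038fc640f08f65033219146a3104a7d962714ac532791db24ee630b808bfb11fb55be90f9c77dc8956bddfe8d2da2ccc690087ce24989ad76c8f080848f4a3ffb3679d (k8 c5523 c12185 c5238 c5358 c12991 c5520 c2372 c13018 (k8 c2751 c12877 c5422 c2600 c5334 c5571 c5517 c1058 (k8 c9744 c5664 c737 c5474 c701 c11835 c5333 c5573 (k8 c8134 c5673 c5504 c12736 c5675 c2948 c5585 c2907 (k8 c13017 c5439 c5642 c1107 c5355 c5356 c12308 c5332 (k8 c5441 c2373 c5421 c5417 c5570 c5420 c5572 c5438 (k8 c5476 c5324 c5326 c5478 c12859 c5648 c5436 c6290 (k4 c10044 c10413 c6448 c5691 (k1 c1714 k0))))))))) (by decide +kernel)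
def c13021 : PP 9 3 T 0x10000101080000000000000000000008000000001000001000000000000000000000000004000000000810000000000000000000000010 := rS 0x40104302537bc4529d2fa64f223558dd92773180b62d1487ce3af77f92626b5479288fee46840425b45998e28956ed8d2010fd2b3bb3 (k8 c12185 c5523 c12991 c5517 c1058 c9744 c12877 c5573 (k8 c8134 c5571 c5664 c737 c5474 c2372 c13018 c701 (k8 c5673 c5520 c12459 c2751 c5422 c2600 c5334 c11835 (k8 c5333 c5504 c12736 c5675 c9793 c13017 c5642 c5355 (k8 c5356 c12308 c5518 c8880 c9733 c5441 c2373 c5439 (k8 c1135 c5417 c9695 c3038 c1113 c13020 c543 c12997 (k1 c700 k0))))))) (by decide +kernel)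
def c13022 : PP 9 3 T 0x48000000000000011000001080000000000000000000008000000000000000000000040010000000000000004000000000810000000004000000001000010 := rS 0x105a6e071f8d99e11e8e65033228d5e6317a824c7b64c9e476f71b85c04010fd28bf1d6bc0dab0167fb3679d (k8 c5523 c12185 c5238 c5543 c5502 c5585 c5508 c5507 (k8 c5504 c5439 c12991 c5517 c1058 c5642 c1107 c5518 (k8 c5333 c5332 c5441 c2373 c12877 c5355 c5438 c5477 (k8 c5476 c5325 c5324 c5326 c12859 c5648 c5317 c5436 (k8 c6290 c3587 c12314 c6448 c5691 c12473 c1714 c5891 k0))))) (by decide +kernel)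
def c13023 : PP 9 3 T 0x1080000000000000000000008000000000000001000000000000000000000000004001000000810000000000000000000000010 := rS 0x100d3628f082970c090dd14dabc4867d3b9d45202d88fdaf0357b7cfed1487ce3bee44ab5eeff46a2ccdb3348043e7124c4d6bb6cea3c2021d091e945b (k8 c5474 c12991 c5520 c13015 c2372 c13018 c2751 c5523 (k8 c12877 c5422 c2600 c5334 c5571 c5517 c1058 c9744 (k8 c12185 c5664 c737 c701 c11835 c5333 c5573 c8134 (k8 c5673 c5504 c12736 c5675 c9793 c5358 c2948 c5584 (k8 c5508 c5507 c2907 c13017 c5642 c5417 c5440 c5356 (k8 c5442 c5478 c9695 c13019 c13021 c1139 c2745 c13022 (k4 c1227 c543 c1167 c734 (k2 c2768 c5861 (k1 c700 k0))))))))) (by decide +kernel)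
def c13024 : PP 9 3 T 0x1080000000000000000000008000000000000000000000000000000000000000004001000000810000000000000000000000010 := rS 0x3a252c9bd0d1541fb5f890f9abe3bee7fa3d1a1001085e2432296c362714ac73b135abdc9247d0a255a8b336ccd2010fd28e3b6 (k8 c12877 c5571 c12991 c5517 c1058 c9744 c12185 c5664 (k8 c737 c5573 c8134 c13015 c5520 c5334 c5333 c5422 (k8 c2600 c5523 c5421 c5417 c5570 c5475 c5474 c5326 (k8 c5478 c9695 c2372 c5642 c13018 c701 c2751 c11835 (k8 c5673 c5504 c5584 c12736 c5675 c13023 c5542 c2393 (k4 c1241 c5672 c3038 c2111 (k2 c1113 c263 (k1 c3582 k0)))))))) (by decide +kernel)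
def c13025 : PP 9 3 T 0x8000000101000080001000500040400001400005004000000500080014000011000015000400120 := rS 0x6b0c9bc61d801cba352d8c40619 (k8 c9698 c54 c5476 c5474 c5324 c5321 c714 c12943 (k4 c5445 c6118 c5729 c2517 (k1 c2185 k0))) (by decide +kernel)
def c13026 : PP 9 3 T 0x1080000000000000000000008000000000000000000000000000000000000000004001000000810000000000000000000000000 := rS 0x6308cd8bb06b357c2de50859c6e14740a2bf37fc05a691f626d19b58e8804a411e966b0130892c08f121914ba357996c62f5049f4ae773aacd3ecb138a73a9d2fa64f3135abdc9247d0a255a8b336ccd2010fd28e3b6 (k8 c12877 c5571 c12991 c5517 c1058 c9744 c12185 c5664 (k8 c737 c5573 c8134 c13015 c5520 c5334 c5333 c5422 (k8 c2600 c5441 c2373 c5439 c1135 c5523 c5417 c5570 (k8 c5420 c5572 c5574 c5440 c5356 c5353 c5442 c5438 (k8 c5477 c5476 c5474 c5325 c5324 c5321 c5326 c5478 (k8 c9695 c13024 c12639 c719 c317 c12635 c314 c12640 (k8 c12636 c12632 c13018 c5341 c9399 c8187 c2491 c5238 (k8 c10035 c2083 c2142 c5544 c11908 c1140 c3593 c5675 (k8 c2846 c2403 c13025 c1068 c3620 c5538 c3002 c2517 (k4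 c5679 c948 c2185 c5445 (k2 c10897 c713 k0))))))))))) (by decide +kernel)
def c13027 : PP 9 3 T 0x1080000000000000000000008000000000000000000000000000000000000000000001000000810000000000000000000000000 := rS 0x34919992f10498cefb3348043f4a (k8 c12991 c5517 c1058 c9744 c12185 c5356 c5355 c5438 (k4 c9695 c12308 c5664 c13026 (k2 c261 c13007 k0))) (by decide +kernel)
def c13028 : PP 9 3 T 0x42000000000000082000000000000000000000000000000000000000000001000000040044000000005000154000000000000000001011000001001400000 := rS 0xe1f1f847ce34db25429f6589c52d1 (k8 c5501 c5417 c5570 c5420 c5572 c5398 c5396 c5397 (k4 c8884 c3579 c8772 c5576 (k2 c3056 c5691 k0))) (by decide +kernel)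
def c13029 : PP 9 3 T 0x42000000000000094000010080000000000000000080008000000100000000001000040044000000005000104001000000020000000011000001000400020 := rS 0x2bdae1d640cfbf28d881c8a29589252e5f4a9d5fa19089c42627 (k8 c5570 c317 c5571 c719 c9698 c1129 c5440 c1955 (k8 c5439 c1126 c5334 c5421 c5417 c5326 c714 c13028 (k8 c5648 c12552 c5316 c10944 c2061 c2189 c12945 c8309 k0))) (by decide +kernel)
def c13030 : PP 9 3 T 0x40000000000000010000000080000000000000000000000000000000000001000000040014000000005001150080000000000000001011000000044850020 := rS 0x1c3e31f01cc281d838dafe16626d92093e95da67f (k8 c5358 c2938 c5353 c5442 c5438 c1064 c1066 c3617 (k8 c8772 c2192 c2624 c5679 c857 c5445 c713 c12613 (k2 c5576 c3056 (k1 c5691 k0)))) (by decide +kernel)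
def c13031 : PP 9 3 T 0x1080000000000000000000008000000000000000000000000000000000000000000001000000800000000000000000000000000 := rS 0x35d00c81fec524070bb7da6904523d1302f9bfe02d1f7fb36b1d129047b5809844960467bf5528d4aa5d0e64d0bc486457986dea093e9fcae753889d626d4e97d327989ad76cabceecdee49238043f4a (k8 c12991 c5517 c1058 c5520 c5334 c5333 c12185 c5523 (k8 c8880 c12877 c5422 c2600 c5441 c2373 c5439 c1135 (k8 c64 c5421 c5570 c5571 c5440 c5353 c5358 c5442 (k8 c5438 c5477 c5475 c5325 c5326 c5478 c9695 c13015 (k8 c13027 c2113 c1126 c1955 c2171 c1958 c1129 c11551 (k8 c13009 c12639 c719 c317 c12635 c12640 c12636 c12632 (k8 c5341 c9399 c5238 c12459 c5501 c5502 c5544 c11908 (k8 c3593 c1986 c2406 c8120 c5675 c2938 c2948 c13030 (k8 c714 c13029 c5444 c326 c13012 c12613 c2189 c857 k0))))))))) (by decide +kernel)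
def c13032 : PP 9 3 T 0x10000000000000a0000200000000000000000000080008000000000000040001000000000000000000000000000000000020000000000000000400000011 := rS 0x9501f7896381d0110c8af30d8a562ad7b91c266f (k8 c5565 c5564 c5520 c5333 c5573 c5421 c5417 c5475 (k8 c5325 c5326 c5478 c5642 c1954 c9423 c1113 c5504 (k2 c2139 c9048 (k1 c9182 k0)))) (by decide +kernel)
def c13033 : PP 9 3 T 0x40001800000000080000000000000000000000000000008000000001400000040000000001000000040000010402040000000000005400440000000054400 := rS 0x1c6a01c35e00d16fa406a5b18bd596ad06bcd9e33 (k8 c5492 c5453 c5325 c2540 c5573 c5420 c5477 c5476 (k8 c5474 c5324 c12614 c2948 c9793 c850 c2145 c3587 (k2 c9031 c2617 (k1 c10309 k0)))) (by decide +kernel)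
def c13034 : PP 9 3 T 0x8000000000000010000000000000004000000000080000000000000000000000000000000000000000500000000000200040000000000000000000a0 := rS 0xc36e0ba31 (k4 c5476 c5321 c5213 c9431 (k1 c5429 k0)) (by decide +kernel)
def c13035 : PP 9 3 T 0x45000800000000005000000081010500000400000000008000140000000020000000000000000100100000000080100054020000000000000000000000020 := rS 0x3b1d7f686f93e30fc36e5f7a992e931e7d3fa5cbe956db640c332c95c6a312d974eac5 (k8 c5451 c5440 c5321 c5474 c5476 c5324 c5353 c9442 (k8 c5492 c10897 c5497 c5455 c1955 c5439 c1126 c5358 (k8 c5442 c5443 c13034 c5391 c5388 c5609 c8937 c9428 (k8 c3119 c9458 c5227 c2208 c9460 c5623 c5931 c5639 k0)))) (by decide +kernel)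
def c13036 : PP 9 3 T 0x40000000000000000000201080000000000000000000008000000100000000000000800000000000000000000000000000800000000000000000000800000 := rS 0x6a348a651a9773f1f2eb45766bfa4114bdc2ac6fa8193e365260030ccb2571a8c4b65d62c0095e10881368010f88f3af138abcde8f09c55f89566b1c8e3705925ee0f1dd2bde8d6af79921bd89f4e67f3197cc9b33afb5e7034244d6bb6 (k8 c12877 c5422 c2600 c13031 c2629 c5325 c5541 c5440 (k8 c12185 c2543 c5439 c5355 c5358 c5419 c5442 c8833 (k8 c5475 c1064 c10944 c5454 c949 c5725 c12991 c5332 (k8 c5329 c5333 c5334 c5516 c5518 c5520 c5357 c2502 (k8 c1955 c2542 c4025 c5564 c5568 c5565 c1130 c5571 (k8 c9695 c5523 c9733 c5517 c1058 c5238 c13032 c719 (k8 c6344 c13033 c9182 c5451 c5321 c5474 c5476 c5324 (k8 c5353 c9442 c5492 c10897 c713 c5433 c5569 c5383 (k8 c5380 c4114 c5421 c5423 c5575 c12681 c12080 c3959 (k8 c13035 c5601 c5602 c6640 c9448 c12587 c1070 c1467 (k4 c5681 c5240 c1808 c5388 k0))))))))))) (by decide +kernel)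
def c13037 : PP 9 3 T 0x40000000000000000000201080000000000000000000008000000000000000000000000000000000000000004000000000800000000000000000000000000 := rS 0x471c5007f929e69f65ac55a3b07bdc920b1b91d9ac74ba562afc09a3d5e6f0cca5a7e1f7a35abde648582204da40e26b5f68043f4a11e75e2710dec4fa73db1fcc65f322136675 (k8 c5440 c12185 c13031 c2543 c5439 c5355 c5358 c12877 (k8 c5419 c5442 c8833 c5475 c5571 c9695 c5523 c9733 (k8 c12991 c5517 c1058 c5541 c5422 c2600 c2629 c5238 (k8 c13032 c719 c13010 c1064 c10944 c5454 c949 c5725 (k8 c6344 c5496 c5433 c9698 c5565 c1130 c5568 c5564 (k8 c2542 c4025 c1955 c1126 c5357 c2502 c5520 c5518 (k8 c5516 c5334 c5333 c5329 c5332 c5573 c5421 c5420 (k8 c5572 c5325 c13033 c2568 c9182 c8943 c13036 c6335 k0)))))))) (by decide +kernel)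
def c13038 : PP 9 3 T 0x80000000000000000000211000000000000000000080008000000000400000000000000000000000000000000100000000000000000000000000000011000 := rS 0x11c4892c1e0b (k4 c5516 c5329 c5546 c5589 (k2 c12008 c12652 k0)) (by decide +kernel)
def c13039 : PP 9 3 T 0x201080000000000000000000008000000000000000000000000000000000000000000000000000800000000000000000000000000 := rS 0x1a27a1cb200e92f984409b17897d8e7d3f95cc6713988d563b0782c6e010fd281af381a3626b5db19043b4f6a13679d (k8 c5523 c12185 c13031 c5541 c5238 c4691 c2543 c12877 (k8 c5422 c2600 c949 c2629 c5325 c2540 c12991 c5517 (k8 c1058 c5518 c5516 c5329 c5332 c8880 c9733 c5419 (k8 c5571 c5355 c5353 c5358 c5442 c5357 c5439 c9695 (k8 c8833 c13032 c719 c13038 c13037 c1564 c13012 c324 (k2 c10699 c2133 (k1 c848 k0))))))) (by decide +kernel)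
def c13040 : PP 9 3 T 0xa0000100000000000000000000080000000000000400000000000000000000000000000000000000000000000000000000000400010001 := rS 0x258945247 (k4 c5520 c5417 c12632 c12663 (k1 c9048 k0)) (by decide +kernel)
def c13041 : PP 9 3 T 0x1000000000000022000000000000000000000000000008000000000000000041000000001000000000001154000000000000400000000440000550000408 := rS 0x38f026c3217 (k4 c1107 c5393 c5397 c12148 (k2 c9933 c5534 k0)) (by decide +kernel)
def c13042 : PP 9 3 T 0x40000000000000000000111000000000000000000000000000000000400000000000000000000000000000000402000000000000000000000000000000000 := rS 0x45a43dded (k4 c5541 c5191 c5675 c5583 (k1 c849 k0)) (by decide +kernel)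
def c13043 : PP 9 3 T 0x5000000080000000000000000000008000000000400000001000500000100000000000005482000000020000000400000002010400000 := rS 0x3c6f061027b19b17bc350d8c4fa794b97d2a75 (k8 c5440 c1955 c5439 c1126 c5441 c5442 c5476 c5475 (k8 c5324 c10944 c5451 c5492 c847 c856 c3577 c5846 (k2 c1167 c2770 k0))) (by decide +kernel)
def c13044 : PP 9 3 T 0x1080000000000000000000008000000000000000000000000000000000000000000000000000800000000000000000000000010 := rS 0xdf409ed9cd768b21a68a377bc490170a45c64bf96c51e174987512027890c8af37a824fa715989c52b14ea64f3135aed846ab1dbdc920b1b91c021fa53358efc10ed3dbb3cea5cbe9532210eba1 (k8 c13039 c5440 c13031 c2543 c1955 c5439 c1126 c5523 (k8 c12185 c5541 c5238 c4691 c2542 c5357 c2502 c12991 (k8 c5517 c1058 c5520 c5518 c5516 c5334 c5333 c5332 (k8 c8880 c9733 c12877 c5422 c2600 c5441 c2373 c1135 (k8 c5421 c5417 c5570 c5574 c5571 c5442 c5438 c5477 (k8 c5325 c5326 c5478 c9695 c5642 c8464 c1954 c261 (k8 c1107 c2547 c13041 c13042 c5546 c5549 c5589 c5591 (k8 c5592 c8140 c9072 c1113 c8120 c4889 c13043 c2133 (k4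 c2189 c1181 c848 c857 (k2 c2565 c5846 k0)))))))))) (by decide +kernel)
def c13045 : PP 9 3 T 0x1080000000000000000000008000000000000000000000000000000000000000000000000000800000000000000000000000000 := rS 0x204343b4f6a10021fa508e279dd99c56bb6 (k8 c12877 c5422 c5571 c12185 c5523 c2600 c9733 c12991 (k8 c5517 c1058 c13031 c5541 c5238 c13039 c13040 c13044 (k1 c719 k0))) (by decide +kernel)
def c13046 : PP 9 3 T 0x2000000000000001000010080000000000000000040008000000000000000001000000000000001410004006151100000080000000000000015040454000 := rS 0x101ac3d038fc6728ac9287637248301609639f4f2573b9d62a21f9b7cfed12d91d9e1c7ebcd53b47a88c36f7 (k8 c5498 c5475 c9733 c5477 c5211 c5531 c5325 c5542 (k8 c5816 c5543 c2785 c5474 c9793 c5358 c2948 c5589 (k8 c5528 c5414 c5440 c5356 c5353 c5441 c5442 c5357 (k8 c5438 c694 c5645 c10368 c2363 c289 c3584 c5342 (k8 c12910 c5316 c5318 c5432 c5436 c9821 c12613 c12847 k0))))) (by decide +kernel)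
def c13047 : PP 9 3 T 0x2000000000000080000211000000000000400100040000000000000000000000000000000000000004000000001400000080020002000000000020000808 := rS 0x425f37bc860c9e2e158b773897de06437fc5e91e2715ee14e727099bf1a2354ed20f7d (k8 c9704 c5503 c5211 c5531 c9733 c5569 c5565 c5564 (k8 c5383 c5419 c5423 c5575 c5571 c9695 c12895 c5390 (k8 c5389 c5606 c5607 c5609 c5610 c8937 c269 c1115 (k8 c5652 c519 c1252 c589 c697 c740 c2039 c5274 k0)))) (by decide +kernel)
def c13048 : PP 9 3 T 0x2000000000000000000211080000000000000000040008000000400000000000000000000000000000000000001400000080020004400000000000020008 := rS 0xb57e55bbc5b1589bdfd74a53268af572317d9814485ee144e2955ece2b0512ca2b217f9a4222b35ac4cde8f459c4381f35bf5e6f51186dee8946a052609d89ccbe6354ed15a9fdb1d4ee7f3c9f58ef1 (k8 c9695 c5357 c5442 c5441 c5358 c5356 c5440 c12877 (k8 c5572 c5573 c5211 c5531 c5355 c5439 c5419 c8833 (k8 c5438 c261 c5380 c5381 c5567 c5498 c5475 c9733 (k8 c5477 c5325 c5542 c13045 c1111 c5816 c5571 c737 (k8 c5568 c5565 c5382 c5422 c5574 c9727 c8385 c5589 (k8 c1107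 c5558 c12910 c1113 c5545 c5414 c12185 c8880 (k8 c5417 c5570 c5423 c5575 c5660 c3027 c13047 c5347 (k8 c5351 c5600 c5601 c5604 c5605 c12897 c6751 c696 (k8 c2313 c5676 c1006 c3869 c3449 c3080 c270 c3586 k0))))))))) (by decide +kernel)
def c13049 : PP 9 3 T 0x2000000000000000000211080000000000000000040008000000000000000000000000000000000000000000001000000010000000000000000000000011 := rS 0x66358760c059286e3919ca2b2102c07116831287c2e9333008d2f17986dea09639e4ee754f89c52ad40a342689d89f4be638f88d57b336aa7e6df3fb44b64748445666b38ad4e7b6899bd1fb407bdd0efd (k8 c5542 c5499 c5498 c9739 c5211 c5568 c5565 c5382 (k8 c12877 c5419 c5422 c5571 c13045 c5574 c9727 c8385 (k8 c2785 c5474 c9793 c5358 c2948 c5589 c5531 c5529 (k8 c12185 c8880 c9733 c9713 c5355 c5439 c5442 c8833 (k8 c5567 c5564 c5381 c5380 c5573 c5417 c5570 c5572 (k8 c5440 c5356 c5441 c5357 c5438 c5477 c5475 c5325 (k8 c9695 c9744 c5642 c5664 c261 c1107 c1111 c1113 (k8 c9812 c737 c5816 c9250 c13046 c5558 c12910 c5316 (k8 c5317 c5435 c13048 c2588 c5645 c289 c9821 c11661 (k1 c2192 k0))))))))))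 (by decide +kernel)
def c13050 : PP 9 3 T 0x201080000000000000000040008000000000000000040000000004000000000000006001000000010000000001000000001412010 := rS 0x203580e3f19ca0afb34084f627d39ed8be636f9fda25b1b9e47609 (k8 c5438 c289 c5441 c2363 c5474 c9793 c5358 c2948 (k8 c5355 c5439 c12877 c5419 c5442 c8833 c5564 c5380 (k8 c12185 c5353 c5648 c12859 c5318 c5432 c9821 c12613 (k1 c12847 k0)))) (by decide +kernel)
def c13051 : PP 9 3 T 0x2000000000000000000211080000000000000000040008000000000000000000000000000000000000000004001000000010000000000000000000010010 := rS 0x1e1ac9e8489b948583e0c05b1cf3b107a74da99f9a4222b335ad6268fda3dd9fe31ea80c263399bd025f38b2d3fb63f9f43200 (k8 c13049 c9699 c5442 c5358 c12877 c5572 c5420 c5571 (k8 c5439 c5380 c5565 c5419 c5355 c662 c3599 c2767 (k8 c12178 c5543 c5498 c5211 c5568 c5382 c5422 c13045 (k8 c5574 c9727 c8385 c5589 c5530 c5529 c5412 c9739 (k8 c8833 c5441 c5357 c694 c5645 c2361 c13050 c5433 (k4 c1066 c9210 c3598 c5559 (k2 c5457 c5168 k0))))))) (by decide +kernel)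
def c13052 : PP 9 3 T 0x2000000000000000000211080000000000000000040008000000000000000000000000000000000000000004001000000010000000000000000000000010 := rS 0x1367b71786503f08280c25f639f4f2634fb2d029d8a9b533f36fa4222b3359c56a73db44cde8fda1fc3200 (k8 c13049 c9699 c5358 c5211 c5568 c5565 c5382 c12877 (k8 c5419 c5422 c5571 c13045 c5574 c9727 c8385 c2948 (k8 c5589 c5530 c5529 c5414 c5412 c5380 c5420 c5572 (k8 c5355 c5441 c5442 c5357 c5439 c662 c3599 c13051 (k4 c2907 c8159 c6290 c10309 (k2 c1775 c2621 (k1 c3598 k0))))))) (by decide +kernel)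
def c13053 : PP 9 3 T 0x5000000000000000000000000000000000000000000000000000000002100000001000040000000000000000000000000000000000000 := rS 0x12bdf (k2 c5495 c2016 (k1 c5678 k0)) (by decide +kernel)
def c13054 : PP 9 3 T 0x2000000000000000000200080000000000000000040008000100000000000000000000040000000000004002000000000200000000405804000000000800 := rS 0x4a981a9f3f092e27590847490f7 (k8 c5498 c695 c513 c694 c5558 c5382 c2588 c5456 (k4 c5589 c12803 c12799 c1589 (k1 c831 k0))) (by decide +kernel)
def c13055 : PP 9 3 T 0x40001000000000000000200000000000000000000000000000000001000000000000040000440001000005100000051051004400000000000000000000842 := rS 0x1c6a04d185026f (k4 c5565 c5380 c661 c10374 (k2 c3599 c2621 (k1 c10309 k0))) (by decide +kernel)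
def c13056 : PP 9 3 T 0x2000000000000000000211080000000000000000040008000000000000000000000000000000000000000000001000000010000000000000000000000010 := rS 0x34bc52903564200a06f8474cd198fc7a391ba5d24680033dee35798c5ea09639e53ecb13ec4fa5f64eccee634ec54da9954fcdbe7f6896c8e9088accd6715a9cf6d1337a3f680f (k8 c9739 c5211 c5568 c5565 c5382 c12877 c5419 c5422 (k8 c5571 c13045 c5574 c9727 c8385 c2785 c5474 c9793 (k8 c5358 c2948 c5589 c5531 c5530 c5529 c5414 c5412 (k8 c5355 c5356 c12185 c12308 c5439 c5442 c8833 c5570 (k8 c5420 c5572 c5441 c5357 c5438 c5477 c5476 c5325 (k8 c5324 c5498 c5543 c13049 c8135 c13052 c1637 c1567 (k8 c9515 c1569 c326 c323 c13053 c3587 c5456 c289 (k8 c5645 c694 c5558 c13055 c5432 c5168 c13054 c5579 k0)))))))) (by decide +kernel)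
def c13057 : PP 9 3 T 0x40000000000000001000000080000000000000100040000000100001000040080000000410410001440004104150100000000000008000040010000400000 := rS 0x731c (k2 c564 c398 (k1 c12926 k0)) (by decide +kernel)
def c13058 : PP 9 3 T 0x211080000000000000000040008000000000000000000000000000000000000000004001000000010000000000000000000000011 := rS 0xec74b2f794b5d5f0062c0d0cff25565068b1285fde66011a5e24579a7d962714ac5028d44ec4fa7f2fb2766773188e2a214cfcda25b23a4222b338ad4e7b6899bd1fb42484c6e791d8243e0c05fb41e6b (k8 c13045 c9739 c13056 c12749 c5645 c2361 c5438 c289 (k8 c5441 c2363 c5564 c10368 c5211 c5568 c5565 c5382 (k8 c12877 c5419 c5422 c5571 c5574 c9727 c8385 c2785 (k8 c5474 c9793 c5589 c5530 c5528 c5414 c9733 c5355 (k8 c5356 c12185 c12308 c5439 c5358 c5442 c8833 c5567 (k8 c5381 c5380 c5421 c5417 c5570 c5420 c5572 c5325 (k8 c5326 c9695 c9744 c5642 c5664 c12958 c1107 c1113 (k8 c737 c2008 c12924 c3584 c3008 c5672 c10690 c12739 (k8 c5694 c3070 c2145 c9821 c13057 c2111 c6335 c263 (k1 c8309 k0)))))))))) (by decide +kernel)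
def c13059 : PP 9 3 T 0x40004000000000001000000000000000000000000040000000000000000000000000000000440000000001100000151015405400000001000000040800000 := rS 0x786b27a1226e5311 (k8 c9727 c5433 c1066 c9210 c3598 c5559 c5457 c5168 k0) (by decide +kernel)
def c13060 : PP 9 3 T 0x211080000000000000000040008000000000000000000000000000000000000000004001000000010000000000000000000000010 := rS 0x6635872339405c7aa0f1a1cc2680c8018fb34fb2d03b13e97cc69d36a67e6df3fb452111599c56a73db44cde8fda16c6e791d8243e0c05fb41e6b (k8 c13045 c9739 c13056 c12749 c5645 c2361 c5438 c289 (k8 c5441 c2363 c5474 c5211 c5568 c5565 c5382 c12877 (k8 c5419 c5422 c5571 c5574 c9727 c8385 c9793 c5358 (k8 c2948 c5589 c5530 c5529 c5412 c5355 c5439 c5442 (k8 c8833 c5380 c5420 c5572 c12185 c5357 c13058 c9699 (k8 c8135 c662 c897 c12178 c3599 c2767 c13059 c5648 (k4 c12859 c5317 c9821 c11661 (k1 c2192 k0)))))))) (by decide +kernel)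
def c13061 : PP 9 3 T 0x211080000000000000000040008000000000000000000000000000000000000000000001000000010000000000000000000000010 := rS 0x10c686680066394b80d243b1b83017ed68aa521b4888d4b609639e4e2b35a9ae266f47ec4fa73db1fcbe0f64eccee63 (k8 c5355 c5356 c12185 c12308 c9739 c5439 c5358 c12877 (k8 c5419 c5442 c8833 c5568 c5565 c5382 c13045 c5422 (k8 c5574 c5571 c5441 c5357 c5438 c5474 c5324 c9727 (k8 c5211 c8385 c5531 c9793 c13056 c12749 c5645 c2363 (k8 c289 c13060 c261 c1637 c9515 c323 c5642 c13053 (k2 c8135 c11661 (k1 c897 k0))))))) (by decide +kernel)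
def c13062 : PP 9 3 T 0x2000000000000011000000080000000000000000000000000000000000000001000000000100000000000000001400002080000000000000000402000000 := rS 0x267c2cc629ed2e9d3c9dcea8768b3d36c7 (k8 c5357 c2492 c5543 c5501 c5499 c5440 c5356 c5441 (k8 c1273 c1227 c743 c734 c3607 c5537 c2441 c5679 k0)) (by decide +kernel)
def c13063 : PP 9 3 T 0x2000000000000000000211080000000000000000000008000000000000000000000000000000000000000005001000000010000000000000000000000011 := rS 0x2035143e369a59c6954cb33c3df1e8fc723394065366cf7ed604f11abcc62f504b1d669f6589c52b540a36268947ec4fa733fb24ee63118edee37a54442e5f12808de8b38ed9066634eccd68768c059eff (k8 c5544 c5543 c5502 c5501 c5499 c13045 c12185 c9744 (k8 c5664 c2008 c12877 c5571 c737 c5565 c5642 c1113 (k8 c5439 c1107 c9730 c13061 c5518 c5333 c5332 c9733 (k8 c5355 c5356 c12308 c5358 c5419 c5442 c8833 c5568 (k8 c5567 c5382 c5381 c5380 c5422 c5417 c5570 c5420 (k8 c5572 c5574 c5357 c5438 c5477 c5476 c5325 c5324 (k8 c9695 c3613 c8385 c8783 c5665 c2492 c13062 c5648 (k8 c12859 c5317 c5318 c5436 c10382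 c6290 c3587 c2441 (k8 c2017 c6448 c5678 c2088 c7824 c1234 c10379 c10308 (k1 c1656 k0)))))))))) (by decide +kernel)
def c13064 : PP 9 3 T 0x40000000000000005000000000000000000000000000000000000000000000001000040014140000011004000155551500080000000000000000022000000 := rS 0x1c7e16b1e9a6d566b152897 (k8 c1227 c376 c734 c13053 c1589 c2018 c3607 c3608 (k2 c5457 c1775 (k1 c10298 k0))) (by decide +kernel)
def c13065 : PP 9 3 T 0x2000000000000000000211080000000000000000000008000000000000000000000000000000000000000004001000000010000000000000000000000011 := rS 0x12c9a660e467280c87152994e887686d6fa43e6cf7eb450ef11abcc36317a8258e793aa7d5a8146c4d13b13e9ccfec93b98c463b0fbdc6f4a8885c045f459c76c83331a7666b (k8 c13045 c12185 c9744 c5664 c2008 c12877 c5571 c737 (k8 c5439 c5642 c1107 c9730 c13061 c5518 c5333 c5517 (k8 c5332 c9733 c5355 c5356 c12308 c5358 c5419 c5442 (k8 c8833 c5567 c5382 c5381 c5380 c5573 c5572 c5440 (k8 c5441 c5357 c5438 c5477 c5476 c5475 c5325 c5324 (k8 c9695 c5499 c5501 c5542 c5543 c12913 c13063 c2948 (k8 c746 c5665 c266 c5412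 c5530 c5531 c10456 c13064 (k4 c5648 c12859 c5317 c3587 (k2 c3578 c13053 (k1 c1231 k0)))))))))) (by decide +kernel)
def c13066 : PP 9 3 T 0x211080000000000000000000008000000000000000000000000000000000000000004001000000010000000000000000000000011 := rS 0x203ef570763afff9966069010c550db4f6a0d162533008d3117890c8a1bd99c56627149cd62b556ed8d71337a3c461f7b9248f4a (k8 c13061 c5520 c5334 c5333 c5517 c9733 c5568 c5565 (k8 c5382 c13045 c12877 c5573 c5422 c5421 c5419 c5417 (k8 c5570 c5574 c5571 c12185 c5475 c5326 c5478 c9695 (k8 c9730 c9744 c5642 c5664 c1113 c737 c2008 c13065 (k8 c5238 c5672 c5414 c5528 c8385 c10690 c2111 c8140 (k4 c3008 c6335 c263 c3582 (k2 c5584 c3070 (k1 c5694 k0)))))))) (by decide +kernel)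
def c13067 : PP 9 3 T 0x20000200000000000000000000000000000000000000000000000000000000001400000001000000050400000000000000000000000000 := rS 0x88c4cde8f (k4 c5568 c5565 c5382 c5411 (k1 c8385 k0)) (by decide +kernel)
def c13068 : PP 9 3 T 0x2004000000000011000001080000000000000000080008000000000000000000000000000000000000020404000000000010000000000000000001400010 := rS 0x23ad769259c6954cb33c3df1c8ce5035798c5ea0965ed876f7248dc8ed564eccee6368c059eff (k8 c5544 c5543 c5502 c5501 c5355 c5356 c12185 c12308 (k8 c3001 c5520 c5518 c5334 c5333 c5332 c12877 c5420 (k8 c5438 c5477 c5476 c5325 c5324 c5648 c12859 c5317 (k8 c10382 c6290 c3587 c2441 c2017 c6448 c5678 c5869 (k2 c1767 c2081 (k1 c11554 k0)))))) (by decide +kernel)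
def c13069 : PP 9 3 T 0x42000800000000091000000000000000000000000080008000000000000000000000000000000000000000100000000000000000000008000002000000000 := rS 0x2064b6f38e3be1668cc864579bd5ee491b91e02ff (k8 c5544 c5502 c5520 c5518 c5334 c5333 c5477 c5325 (k8 c5326 c5478 c5492 c5495 c6344 c405 c6448 c6471 (k2 c408 c2516 (k1 c3593 k0)))) (by decide +kernel)
def c13070 : PP 9 3 T 0x2004400000000091000000000000000000000000080008000000100000000000000100582000000000000100000000000000000000008000000000000000 := rS 0x2064b1c38fc2f72491e02ff (k8 c5544 c5502 c5520 c5334 c5333 c5537 c6448 c11554 (k2 c408 c2088 (k1 c12311 k0))) (by decide +kernel)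
def c13071 : PP 9 3 T 0x42004000000000095000000000000000000000000080008000000000000000000000100000100000000020110000000000000000000018000002000000000 := rS 0x78070df2540d9b1d6bb492ddf21915e6f565bdc923723b5602ff (k8 c5544 c5502 c3001 c5520 c5518 c5334 c5333 c5420 (k8 c5477 c5325 c5326 c5478 c13069 c5678 c5869 c1767 (k8 c2082 c13070 c2087 c3593 c2511 c407 c6471 c5534 k0))) (by decide +kernel)
def c13072 : PP 9 3 T 0x2000000000000010000211080000000000000000080008000000000000000000000000000000000000000004000000001011000000000000000001000010 := rS 0x277c315f90f848994a90652164dc40626bd8b2766771bf8dc23d5018ce66f4097ce2cb4fed8fe7d (k8 c5442 c5358 c12877 c5572 c5420 c5571 c5439 c5380 (k8 c5565 c5419 c5355 c3599 c2767 c9214 c12178 c5518 (k8 c5356 c12185 c12308 c8833 c13045 c5476 c5665 c1187 (k8 c13068 c5433 c9012 c1461 c1463 c9210 c1069 c13071 (k4 c5590 c11668 c1277 c5679 k0))))) (by decide +kernel)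
def c13073 : PP 9 3 T 0x42004000000000001000000000000000000000000000008000000000000000000000140000000001000001104000000000000000000000400000541400000 := rS 0xe24d7847328 (k4 c5648 c5317 c6290 c6193 (k2 c5691 c2621 k0)) (by decide +kernel)
def c13074 : PP 9 3 T 0x2000000000000000000211080000000000000000080008000000000000000000000000000000000000000004000000001011000000000000000001000010 := rS 0x71f84f49b0b37fe6904c8853b11da31cf2b35a9af62231d87fc6e1501cd025f38b2d3fb63f9f4c66f (k8 c5565 c5355 c5442 c5358 c12877 c5572 c5420 c5571 (k8 c5439 c5380 c5419 c3599 c9214 c12178 c5517 c5332 (k8 c9733 c8833 c13045 c5422 c5574 c5441 c5357 c13072 (k8 c5411 c5412 c5528 c5530 c13067 c5589 c2948 c13073 (k4 c1066 c3598 c5457 c1775 (k1 c5691 k0)))))) (by decide +kernel)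
def c13075 : PP 9 3 T 0x1000001080000000000000000000008000000000000001040000000014000000001001104000000000010000000000440000541400010 := rS 0x25934cc1c8ce5035798c5ea0964eccee63 (k8 c5355 c5356 c12185 c12308 c5438 c5477 c5476 c5325 (k8 c5324 c5648 c12859 c5317 c3587 c6193 c13053 c1231 k0)) (by decide +kernel)
def c13076 : PP 9 3 T 0x211080000000000000000000008000000000000000000000000000000000000000004001000000010000000000000000000000010 := rS 0x1c7e13d26c2cfd4133da2dff9a1d20a94c8853b11da7b5c2a0f1984da680c800b6c73cecce2b34fb2d6a6b409bf627d39ed8fe5f3188c761f7b82c6f4a (k8 c13061 c5518 c5516 c5333 c5517 c5332 c9733 c5355 (k8 c5439 c5358 c12877 c5419 c5442 c8833 c5565 c5380 (k8 c13045 c5422 c5420 c5572 c5574 c5571 c12185 c5441 (k8 c5357 c5474 c13066 c9699 c8135 c665 c662 c12178 (k8 c3599 c9214 c13074 c5238 c5411 c5412 c5528 c5530 (k8 c5531 c13067 c897 c5589 c2948 c9793 c11551 c5672 (k4 c2392 c13075 c1066 c3598 (k2 c5457 c1775 (k1 c5691 k0))))))))) (by decide +kernel)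
def c13077 : PP 9 3 T 0x11000011080000000000000000000008000000000000000040000000000100000000000008000000001000000000000440000000000000 := rS 0x133e1660e536cf68c43d835798c5ea63d99ad3a33 (k8 c323 c1694 c13045 c12185 c5355 c5477 c5476 c5325 (k8 c5324 c5238 c5665 c5501 c5543 c1187 c325 c3587 (k2 c5537 c2441 (k1 c5679 k0)))) (by decide +kernel)
def c13078 : PP 9 3 T 0x211080000000000000000000008000000000000000000000000000000000000000000001000000010000000000000000000000010 := rS 0x33da2cd1ca1d20a988ed0da68000cd2e03490dc16f71dd286af32d8c5ea09639e4e2b35a9af627d39ed8fe5f64eccee63 (k8 c5355 c5356 c12185 c12308 c5439 c5358 c12877 c5419 (k8 c5442 c8833 c13045 c5422 c5574 c5571 c5441 c5357 (k8 c5438 c5477 c5476 c5474 c5325 c5324 c13061 c5332 (k8 c5333 c5516 c5518 c13076 c261 c1637 c323 c5642 (k8 c8135 c665 c13077 c5411 c5531 c13067 c897 c9515 (k4 c13053 c9793 c11551 c3587 k0)))))) (by decide +kernel)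
def c13079 : PP 9 3 T 0x40000400000000000000200080000000000000000040008000200000000000000000000000000000000000001000000000000010004400000000000000000 := rS 0x1202159 (k4 c12891 c11596 c5660 c3026 k0) (by decide +kernel)
def c13080 : PP 9 3 T 0x2000000000000011000220080000000000000000040008000000000000000001000000000000000000000004041000000080000004000000000800400000 := rS 0x4bb119a18f04a48e598177c3bf37fb3e02d17bbd4ee7546c4d128f3da1d2283 (k8 c5525 c5374 c5373 c5372 c5568 c5567 c5382 c5381 (k8 c5440 c5356 c5477 c5498 c5501 c5502 c5543 c5544 (k8 c12913 c483 c12425 c3613 c2003 c2349 c13079 c5225 (k4 c5648 c5537 c8115 c1227 (k1 c734 k0))))) (by decide +kernel)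
def c13081 : PP 9 3 T 0x1001000000000015000000000000000000000000040000000000000000000001000000000000000000000000000000500080054000000000000000000100 := rS 0x4b81fbd28 (k4 c5225 c5195 c5432 c5452 (k1 c10711 k0)) (by decide +kernel)
def c13082 : PP 9 3 T 0x41000000000000015000220080000000000000000040008000000000000000001000000000000000002000004001000000080010004400000000000400000 := rS 0x4a433df4b780b6092b9dcea91 (k8 c5374 c5440 c5356 c5353 c5438 c5474 c13081 c12263 (k4 c5452 c1227 c13079 c5648 k0)) (by decide +kernel)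
def c13083 : PP 9 3 T 0x1001000000000015000020080000000000000000040000000000000000080000000000000000000000000000001100000000000006000000000000040000 := rS 0x341c2cf038fc7bde940dc12c73e95c2291 (k8 c5374 c3026 c5353 c5442 c5357 c5438 c6642 c5225 (k8 c5195 c3031 c5318 c5432 c5453 c12655 c12425 c2202 k0)) (by decide +kernel)
def c13084 : PP 9 3 T 0x201080000000000000000040008000000000000000000000000000000000000000000001000000010000000000000000000000011 := rS 0x1fca142d70c9052c3bf034c911c7b070b047f9c09ff01547b496fd1122c42250f85d2666011a5e2f5049c5669f6589c52ad35a051b13099bd128fd89f4fe5f31a1d220d41ed4e7b688aaf39b3 (k8 c12185 c13078 c8138 c5371 c12877 c5419 c8114 c5525 (k8 c5522 c5374 c5373 c5355 c5439 c5358 c5442 c8833 (k8 c5568 c5567 c5565 c5564 c5382 c5381 c5380 c13045 (k8 c5573 c5417 c5570 c5420 c5572 c5574 c5571 c5438 (k8 c5477 c9695 c9744 c5642 c5664 c261 c1107 c1111 (k8 c1113 c265 c737 c5650 c1237 c560 c13080 c5682 (k8 c2026 c2452 c3613 c5550 c2349 c13082 c2003 c483 (k8 c2195 c2196 c4469 c13083 c5456 c12263 c511 c1227 (k4 c1767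 c1234 c5648 c406 (k1 c10308 k0)))))))))) (by decide +kernel)
def c13085 : PP 9 3 T 0x10000000000000000000000000040000000000002000000000000000000000000000000000000000000000000002000000004400000000 := rS 0x7c4225 (k4 c10629 c344 c1086 c5650 k0) (by decide +kernel)
def c13086 : PP 9 3 T 0x1000020000000000000000000040000000000000000000000000000000440000000004004000151055404404008000000000200004102 := rS 0x2606e164e8f652a04d8ecc3113d834320b (k8 c2416 c9699 c5522 c5372 c5371 c662 c340 c2491 (k8 c3599 c9123 c2767 c9066 c5648 c2593 c3598 c1463 k0)) (by decide +kernel)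
def c13087 : PP 9 3 T 0x2000000000000015000020080000000000000000040008000000000000000000000000000100000000000040001000000000000000000044000200004400 := rS 0x33473e0948ed3a94efb3da2f71abcc62f5 (k8 c5477 c5476 c5325 c5324 c5498 c5501 c5543 c12425 (k8 c5678 c1698 c341 c6200 c5225 c5534 c5537 c3587 k0)) (by decide +kernel)
def c13088 : PP 9 3 T 0x11000000000000000000000000040008000100000000000040000000004000000002000000000000000000000000000044000200000000 := rS 0x19a391db47c09d1abcc62f5 (k8 c5477 c5476 c5325 c5324 c9066 c5225 c2025 c341 (k2 c5534 c5537 (k1 c3587 k0))) (by decide +kernel)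
def c13089 : PP 9 3 T 0x201080000000000000000040008000000000000000000000000000000000000000000001000000010000000000000000000000010 := rS 0xa04e185be3a038e650cf543f5efed198dd2e922556416200f9248ff38a1b4d023000d5e609639e4ae7159a7d96275a9ad0313099bd1fb13e9fcbe0f649dcc69106ed4e7b688aaf39b3 (k8 c12185 c13078 c8138 c5371 c12877 c5419 c8114 c5522 (k8 c5374 c5355 c5356 c12308 c9739 c5439 c5358 c5442 (k8 c8833 c5568 c5565 c5564 c5382 c5380 c13045 c5422 (k8 c5570 c5420 c5572 c5574 c5571 c5353 c5441 c5357 (k8 c5438 c5325 c5324 c13084 c9731 c8135 c832 c3604 (k8 c5590 c2787 c13085 c1087 c5650 c2416 c12876 c5660 (k8 c13086 c1637 c1568 c323 c13087 c343 c2550 c5682 (k8 c2451 c13088 c5317 c5432 c6200 c2510 c661 c341 (k2 c3599 c1278 k0))))))))) (by decide +kernel)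
def c13090 : PP 9 3 T 0x95000001000000000000000000000000000100000400000000000000000000000000000001510150500010420001400000000000041511 := rS 0x4cf85c438250447cd669b558a324a25c301c458842e9333008d2f138a7d5a0f (k8 c9739 c5573 c5572 c5571 c9695 c9744 c5642 c5664 (k8 c261 c1107 c265 c737 c2003 c5648 c1227 c376 (k8 c375 c734 c1589 c2018 c3608 c2186 c2907 c12614 (k4 c407 c408 c5534 c2436 (k1 c6448 k0))))) (by decide +kernel)
def c13091 : PP 9 3 T 0x1000000000000000000000000000000000100000500000000000000000440000000004005400155054404400001400040000040045402 := rS 0x2538c229c1f265409b0b184326d (k8 c665 c9699 c662 c5648 c6036 c3599 c1463 c1069 (k4 c3598 c2907 c1777 c12614 (k1 c408 k0))) (by decide +kernel)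
def c13092 : PP 9 3 T 0x80000000000000100000008000100002000000040000000014000000000000020000104000000000000005544000000005400 := rS 0x141e24d10598061abcc62f504b1cf257 (k8 c5353 c5441 c5357 c5438 c5477 c5476 c5325 c5324 (k4 c3568 c3587 c1734 c2017 (k2 c5655 c1191 (k1 c5578 k0)))) (by decide +kernel)
def c13093 : PP 9 3 T 0x100000000000100002000000000000040000000000000000008000000000000000000005200000000000000 := rS 0xf1280829a (k4 c325 c547 c1191 c5655 (k1 c5578 k0)) (by decide +kernel)
def c13094 : PP 9 3 T 0x201080000000000000000000008000000000000000000000000000000000000000000001000000010000000000000000000000010 := rS 0x339c0d16ab8d8894f118082061cb7d3a331f8f52514369a0005894d648e3705925ee1f1dd2b6a8306a450e7b88e71925d7996dea09639e4ae773aecce2b34fb2c4eb535a051b13099bd128fd89f4e7b63f97cc60f (k8 c9739 c5355 c5439 c5358 c12877 c5419 c5442 c8833 (k8 c5568 c5567 c5565 c5564 c5382 c5381 c5380 c13045 (k8 c5422 c5570 c5420 c5572 c5574 c5571 c12185 c5440 (k8 c5356 c5353 c5441 c5357 c5438 c5477 c5474 c5325 (k8 c5321 c12308 c13078 c5371 c5372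 c5373 c5374 c5522 (k8 c5525 c8114 c13089 c5332 c5517 c5333 c5334 c5516 (k8 c5518 c5520 c12110 c6200 c3571 c13090 c8135 c665 (k8 c3604 c13091 c1569 c326 c323 c1694 c2951 c13093 (k8 c3568 c1734 c1563 c5655 c831 c830 c5466 c1589 (k4 c1706 c5864 c13092 c1652 k0)))))))))) (by decide +kernel)
def c13095 : PP 9 3 T 0x10000000000000000000040008000000000000000001000000000000000004000000001000000420000000000000000000000010 := rS 0xf6f66d01efd (k4 c1129 c9739 c5211 c12530 (k2 c12418 c5498 k0)) (by decide +kernel)
def c13096 : PP 9 3 T 0x11000000000000000000000000000000000000000000000000000200000000000000005400000000000000000000000000000000000000 := rS 0x133e1 (k2 c5460 c1597 (k1 c5679 k0)) (by decide +kernel)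
def c13097 : PP 9 3 T 0x11000000000000000000000000000000000000000000000000000080000000000400001400000000000000000000000000000000000000 := rS 0x133e1 (k2 c5538 c2442 (k1 c5679 k0)) (by decide +kernel)
def c13098 : PP 9 3 T 0x5000000000000000000000000000000000000200000000000000000000000000100000000000000100020400000008000000000000000 := rS 0x64f7dac32 (k4 c405 c406 c5492 c2189 (k1 c10944 k0)) (by decide +kernel)
def c13099 : PP 9 3 T 0x11000000000000000000000100000000000100000400000000000000000040000400004005400151002000000000004040010400400000 := rS 0x7be37137dc27b20a74309b (k8 c2492 c5648 c1273 c543 c743 c13096 c13097 c3610 (k2 c5466 c1493 (k1 c5655 k0))) (by decide +kernel)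
def c13100 : PP 9 3 T 0x211080000000000000000000008000000000000000000000000000000000000000000001000000000000000000000000000000010 := rS 0x1bee13db8d3acc69b2072330cca1229b689b3d9b51bbdc774a67aac4635798c5eac73c9c5669f40c4d1e8735a5d2b11498242e0200d647f1c0e84de229569bc364322993627d399fcc6b1db6ccea5f (k8 c5439 c5440 c12185 c12877 c5421 c5355 c5358 c5419 (k8 c5442 c8833 c13094 c5326 c5478 c5475 c5565 c5573 (k8 c5417 c9695 c5564 c1954 c9423 c13098 c5341 c1056 (k8 c5642 c1107 c5438 c261 c9730 c1955 c1126 c13045 (k8 c2114 c5568 c5382 c5380 c5572 c5574 c5571 c5441 (k8 c5357 c5477 c5476 c5325 c5324 c9733 c8880 c11551 (k8 c13095 c5332 c5333 c5518 c12375 c5238 c5665 c5501 (k8 c2492 c746 c13099 c5315 c5316 c5317 c3577 c2081 (k4 c3587 c1275 c2624 c743 (k2 c13096 c13097 (k1 c5846 k0))))))))))) (by decide +kernel)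
def c13101 : PP 9 3 T 0x11000020080000000000000100040000000100000400000000000000000000000000000004400100000000000004004000010000400000 := rS 0x78e220f8dbee10c7818e7d3c9fcf691 (k8 c5374 c5372 c5358 c5441 c5442 c5357 c5225 c5648 (k4 c5460 c5538 c11976 c543 (k2 c3610 c5655 (k1 c1494 k0)))) (by decide +kernel)
def c13102 : PP 9 3 T 0x200000000000000000000000008000200200000000001000000000400000140004054000050050004400000004000015010400110 := rS 0x4150b51afdf69b23c63d198646a1b18a04dfef (k8 c5504 c5565 c5380 c5476 c5475 c5324 c5315 c5316 (k8 c5436 c7824 c3577 c2081 c5494 c2189 c5689 c3000 (k2 c1656 c10308 k0))) (by decide +kernel)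
def c13103 : PP 9 3 T 0x11000020080000000000000100040000000100000400000000000000000000000000000000400100000000000000004000010040000008 := rS 0x9422498242e5f (k4 c5439 c1107 c5438 c261 (k2 c6197 c13101 (k1 c560 k0))) (by decide +kernel)
def c13104 : PP 9 3 T 0x201080000000000000000000008000000000000000000000000000000000000000000001000000000000000000000000000000010 := rS 0x228fe36fcd54471b925ee23a54a602a910ed5060d48e707f59f78943e1749c7005110eabdfa954b804c8f121915e61b7a8258e793aecce2b34fb2c4e2958ad55a6b40c4c266f47ec4fa73db1fcbe63 (k8 c5355 c5439 c5358 c12877 c5419 c5442 c8833 c5568 (k8 c5565 c5564 c5382 c5380 c13045 c5573 c5422 c5421 (k8 c5417 c5570 c5420 c5572 c5574 c5571 c12185 c5440 (k8 c5441 c5357 c5438 c5477 c5475 c5325 c5326 c5478 (k8 c9695 c13094 c1056 c1126 c1955 c1129 c1130 c1954 (k8 c9730 c5642 c9423 c261 c1107 c1111 c1113 c5504 (k8 c5341 c13098 c13100 c5374 c5522 c5525 c8114 c265 (k8 c1957 c10477 c13102 c13103 c5331 c5333 c5334 c5518 (k4 c5520 c3581 c8140 c13099 (k2 c6368 c3604 (k1 c3010 k0))))))))))) (by decide +kernel)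
def c13105 : PP 9 3 T 0x211080000000000000000040008000000000000000000000000000000000000000000001000000010000000000000000000000000 := rS 0x10fed813d89047f992c1690076d166735aa0cd71caca2ccdb334974b68d22964268908810e3b6 (k8 c12877 c5571 c13104 c719 c5567 c5564 c314 c5326 (k8 c5381 c5474 c5321 c9743 c12185 c5664 c737 c8187 (k8 c13005 c13045 c2008 c5422 c5419 c5574 c5211 c6008 (k8 c13067 c150 c12627 c5589 c2784 c5660 c12912 c514 (k2 c5498 c10690 (k1 c5672 k0)))))) (by decide +kernel)
def c13106 : PP 9 3 T 0x211080000000000000000000008000000000000000000000000000000000000000000001000000010000000000000000000000000 := rS 0x3dbb5437cc8e0b24bdc1f4a2ebccb6f546c4c220d2ca0cd7ef8e22ccdb334810e3b6 (k8 c12877 c5571 c13104 c9743 c12185 c5664 c737 c13005 (k8 c5504 c13045 c2008 c314 c316 c719 c5382 c5381 (k8 c5477 c5474 c5325 c5321 c13105 c5329 c5333 c5334 (k4 c5516 c5520 c13038 c3571 (k2 c13001 c5499 (k1 c5238 k0)))))) (by decide +kernel)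
def c13107 : PP 9 3 T 0x40000000000000010000000000000000000000100040008000000200000000040000000000000001000000000005000000000010000400000000000001020 := rS 0x921e2ebccb61b (k4 c5475 c5474 c5325 c5321 (k2 c10900 c513 (k1 c6300 k0))) (by decide +kernel)
def c13108 : PP 9 3 T 0x15000200080000000000000100040008000100200000000000000000000000001404004401005004000000010000010000000000001020 := rS 0x122061e7e2a443ed7b11dc5f36fb87c09d639f4f27f40c4d1e23 (k8 c9734 c5568 c5382 c5380 c5358 c5441 c5442 c5357 (k8 c9066 c5225 c13096 c13097 c11668 c3610 c2348 c13107 (k8 c5498 c343 c2021 c5682 c5650 c2631 c6300 c514 k0))) (by decide +kernel)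
def c13109 : PP 9 3 T 0x201080000000000000000000008000000000000000000000000000000000000000000001000000010000000000000000000000000 := rS 0x5bde949b55ed522873d83f38419485ab31c49a0d16662cb25e2452ebccb6f53becd669f5aa342689d89f4e67f2f98c0203889a42271db034086b (k8 c13045 c13104 c316 c12877 c5571 c719 c9743 c9728 (k8 c54 c53 c5355 c5439 c5358 c5419 c5442 c8833 (k8 c5567 c5564 c5381 c5422 c5572 c5574 c12185 c5356 (k8 c5477 c5474 c5325 c5321 c5326 c9695 c12308 c314 (k8 c5664 c737 c2008 c13007 c13005 c8187 c13010 c5433 (k8 c9012 c13106 c5369 c5372 c5373 c5374 c8114 c8138 (k4 c10952 c13108 c5333 c5516 (k1 c3571 k0)))))))) (by decide +kernel)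
def c13110 : PP 9 3 T 0x5000210080000000000000000000008000100000000001000000000014000000005001154000000000000000000000000000000010020 := rS 0x331929b0b06cae19 (k8 c9698 c5353 c5475 c13010 c9848 c1064 c3617 c13053 k0) (by decide +kernel)
def c13111 : PP 9 3 T 0x40000000000000005000210080000000000000000040008000100000000001000000000014000000005004050000000000000000000400000004000010020 := rS 0x71f8f52441049f4fe574084c029d4ced0960e (k8 c6008 c12627 c5211 c5530 c5412 c53 c5564 c5380 (k8 c5353 c5358 c5442 c5438 c10205 c13110 c1569 c326 (k2 c1564 c12613 k0))) (by decide +kernel)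
def c13112 : PP 9 3 T 0x5000200080000000000000000000008000200000000000000000000000000000000000000000000000000000000000000000000010020 := rS 0xef310b207199746a5b1897cae75 (k8 c5440 c5353 c5439 c5476 c5474 c5324 c5321 c5316 (k4 c5432 c12275 c10897 c11596 (k1 c5451 k0))) (by decide +kernel)
def c13113 : PP 9 3 T 0x5000210080000000000000000040008000000000000001000000000004000001404004000000000050420000000000000004000000020 := rS 0x4768fcd20a9da16d2e5f4a9d65211 (k8 c719 c13112 c5440 c1955 c5439 c1126 c5474 c5211 (k4 c9109 c13067 c5589 c9793 (k2 c2784 c13111 k0))) (by decide +kernel)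
def c13114 : PP 9 3 T 0xa4000200080000000000000000080008000000000000001001000000000000000004000000000000000420000000000000000000000020 := rS 0xd2200fc7a324901fbeff6407120a98a824aeb34f89d6a8109ec4fa733f98c461138a1d2e5f4a9d55e6f (k8 c5565 c1130 c5440 c1955 c5439 c1126 c2114 c5571 (k8 c719 c9734 c5355 c5358 c5419 c5442 c8833 c5564 (k8 c5380 c5422 c5570 c5572 c5574 c5353 c5438 c5414 (k8 c5531 c13067 c12546 c12372 c3009 c9172 c8499 c2062 (k4 c2061 c1569 c326 c12613 (k2 c545 c13013 k0)))))) (by decide +kernel)
def c13115 : PP 9 3 T 0x40000000000000095000000000000000000000000080008000100000000000000000000010000000040000400000000100020400008000000000000800000 := rS 0x35d42e34e785abde6fa6592410da7d96b156a5d2a37 (k8 c5518 c1955 c1126 c5573 c5421 c5420 c5572 c5475 (k8 c9012 c1064 c1463 c2511 c10944 c5454 c6344 c5679 (k4 c6448 c1278 c10298 c8161 k0))) (by decide +kernel)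
def c13116 : PP 9 3 T 0x211080000000000000000000008000000000000000000000000000000000000000000001000000000000000000000000000000000 := rS 0xf49d1ca480e172524536d1367b36bf3238dc160f0f8ee94cf55bc412c73c95ceab34f89d6a8d8984d1f11118350e6b7eabcc86f94844e204d89f4e7b63f97cc7b3 (k8 c12185 c5355 c5439 c5358 c12877 c5419 c5442 c8833 (k8 c13104 c5571 c719 c13112 c5565 c13109 c1130 c1129 (k8 c13045 c2114 c316 c9734 c9728 c5568 c5564 c5382 (k8 c5381 c5422 c5570 c5572 c5574 c5440 c5353 c5441 (k8 c5357 c5438 c9695 c8880 c11551 c13113 c5332 c5517 (k8 c5329 c5516 c5518 c5520 c13038 c13114 c5238 c5665 (k8 c5501 c2492 c746 c12645 c13115 c714 c13010 c9515 (k2 c1694 c3568 (k1 c743 k0))))))))) (by decide +kernel)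
def c13117 : PP 9 3 T 0x40000000000000000000000080000000000000000040000000100000400000000000000000000000000000000000004000000000000420500000000005040 := rS 0xb1b9298e57 (k4 c5353 c5357 c10205 c1741 (k2 c2588 c10699 k0)) (by decide +kernel)
def c13118 : PP 9 3 T 0x15000200080000000000000000040008000000000000000000000000000000001511004001001004000420000000000000004000014020 := rS 0x1570380c544246200fc7aff4901dae176438bbff36f8e5c23bf010c36f52f8258e7d3c9fcae7540c4c268f8888c1a877eabcdf29 (k8 c13112 c5565 c1130 c1129 c2114 c316 c9734 c9728 (k8 c5568 c5564 c5382 c5380 c5440 c5353 c5358 c5441 (k8 c5442 c5357 c5438 c5439 c5477 c5475 c5478 c5225 (k8 c5456 c5460 c5534 c5538 c11668 c10651 c3610 c10944 (k8 c1064 c2189 c714 c13010 c2575 c1569 c326 c12613 (k4 c13117 c4633 c2787 c2790 (k2 c2349 c7110 (k1 c3623 k0)))))))) (by decide +kernel)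
def c13119 : PP 9 3 T 0x201080000000000000000000008000000000000000000000000000000000000000000001000000000000000000000000000000000 := rS 0x1c499f0c051638f63480eabef871fe582511c6e0b7b87c774a54ed506913d83f392957bf52a97439901a1111c443204d8a3d126f09c4cbaf32dbd4be09639f4f27f2b98cee75d99c5669f6589ce6b15aab76c6b (k8 c13045 c12877 c5573 c5422 c5421 c5419 c5570 c5420 (k8 c5572 c5574 c5571 c12185 c5440 c5356 c5355 c5353 (k8 c5358 c5441 c5442 c5357 c5438 c5439 c5477 c5474 (k8 c5325 c5321 c5382 c5564 c5565 c5567 c5568 c8833 (k8 c13104 c9698 c9728 c9734 c719 c316 c13109 c2114 (k8 c1126 c1955 c1129 c1130 c13112 c13116 c5369 c5372 (k8 c5374 c5525 c8114 c1957 c13118 c5332 c5517 c5333 (k8 c5516 c5518 c5520 c12645 c3571 c2568 c313 c9442 (k8 c2121 c8499 c8946 c8720 c3568 c2938 c5502 c5534 (k2 c2437 c8128 (k1 c6448 k0))))))))))) (by decide +kernel)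
def c13120 : PP 9 3 T 0x110000000000000000000040000000000000400000000000000000000001400000001400000050400000000400000015000000010 := rS 0x41e00924ddf211c4443b4 (k8 c5211 c5528 c9727 c9733 c5675 c8385 c5588 c1060 (k2 c8140 c5642 (k1 c1111 k0))) (by decide +kernel)
def c13121 : PP 9 3 T 0x110000000000000000000040000000000000400000000000000000000001400000001000000050400000000400000014000050010 := rS 0x1e06124168e12d60962307c5443b4 (k8 c5211 c5528 c5414 c9739 c9733 c12663 c12617 c5559 (k4 c13120 c2311 c2842 c5645 (k2 c3584 c2361 k0))) (by decide +kernel)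
def c13122 : PP 9 3 T 0x11080000000000000000040008000000000400000000000000000000000000000001005000000010000000400000000000020000 := rS 0x82f73fd17018192cddf247a251b592196f6671599cd6bb635e8623b4 (k8 c5211 c9727 c13119 c13045 c12877 c5422 c5419 c5574 (k8 c5571 c12185 c5474 c5478 c5558 c701 c2749 c2751 (k8 c5221 c8385 c5546 c5550 c5592 c2979 c11835 c5673 (k2 c3613 c12464 k0)))) (by decide +kernel)
def c13123 : PP 9 3 T 0x82000110000000000000000000040000000100000400000000000400000000000000000001400000000400000000411000000000000010 := rS 0x78c7f5970893e4715989c52735aed1429b (k8 c5397 c5398 c5211 c5422 c5419 c5417 c5570 c5574 (k8 c5571 c5675 c13120 c5591 c5559 c2909 c6661 c5655 k0)) (by decide +kernel)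
def c13124 : PP 9 3 T 0x82000110000000000000000000040000000100000400000000000400000000000000000001000010000400000000400000000000010110 := rS 0x1fd64481ff183092e105a3896411eacc4e295a88c1f1510ed1429b (k8 c5397 c5398 c5211 c5528 c5414 c9739 c9733 c5422 (k8 c5417 c5570 c5574 c12640 c12636 c12663 c13123 c2311 (k8 c2846 c2843 c5645 c6661 c2361 c3584 c5559 c2909 (k1 c5655 k0)))) (by decide +kernel)
def c13125 : PP 9 3 T 0x2000011080000000000000000040008000100000400000000000000000000000000000001001000000000000000400000000000000010 := rS 0xe07696f700a020c34b3417ed377c90c8f46d64205b049f4ee7538acce6b5db684466555ecde2930ca546e0f719e937114e98cdbb42fb1cf26b (k8 c13045 c5441 c5357 c5439 c5211 c5529 c5355 c5412 (k8 c9727 c5397 c10556 c1776 c9739 c1478 c5446 c5393 (k8 c5444 c9695 c12185 c8880 c13095 c9733 c13119 c12877 (k8 c5422 c5419 c5574 c5571 c5440 c5356 c5442 c5438 (k8 c5474 c13124 c5558 c701 c2751 c13122 c5221 c8385 (k8 c5499 c692 c2073 c897 c8435 c12478 c2746 c12885 (k4 c12989 c289 c9933 c8166 k0))))))) (by decide +kernel)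
def c13126 : PP 9 3 T 0x2000110000000000000000000040000000000000800000000000000000440000000004000000011000404400000000000014000000110 := rS 0x1f85c720a0692c4a411ed61c011f983d329350864f49b88a74dbb4 (k8 c5211 c5529 c5412 c9727 c5397 c10556 c5393 c5398 (k8 c5444 c5530 c9739 c5547 c3828 c957 c5221 c12640 (k8 c12636 c5559 c5342 c2598 c5645 c2470 c10373 c3057 (k1 c3579 k0)))) (by decide +kernel)
def c13127 : PP 9 3 T 0x4000000000000000100080000000000000100000000000100000000000000000000000000000000000000000000000000000000004000000000010000 := rS 0x208f4127d (k4 c5442 c5438 c12640 c12636 (k1 c5655 k0)) (by decide +kernel)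
def c13128 : PP 9 3 T 0x11080000000000000000040008000000000400000000000000000000000000000001511000000010000000800000000000004000 := rS 0xff41a1d160a069b8b671599cd6bb635e8623b48090e06f5 (k8 c5477 c2349 c5478 c2790 c5211 c9727 c13119 c13045 (k8 c12877 c5422 c5419 c5574 c5571 c5474 c8385 c2367 (k4 c5779 c2979 c8435 c2309 (k2 c11835 c3613 k0)))) (by decide +kernel)
def c13129 : PP 9 3 T 0x2000011080000000000000000040008000100000000000000000000000000000000000001001000000000000000000000000000000010 := rS 0xc4337b8d28b3734dae811e0e0760c472251a10f1b847ff2ac919c6432d8c4fe773a9c4e66555ecde2a130f846e7a4dc453a6dda03e27a1358a44ecb4fed8c6793eb1c125f (k8 c5439 c5438 c5357 c5442 c5441 c5355 c12877 c5572 (k8 c5420 c5570 c5417 c13045 c13119 c13126 c9739 c5211 (k8 c5529 c5412 c9727 c5397 c10556 c1478 c5457 c5445 (k8 c5398 c9695 c12185 c8880 c13095 c5419 c5571 c5440 (k8 c5356 c5358 c5476 c5474 c5478 c1776 c13125 c5562 (k8 c10418 c2914 c5591 c6661 c13127 c701 c2749 c13128 (k8 c2752 c289 c5654 c2477 c12620 c1491 c2768 c9215 (k4 c2979 c1226 c5673 c5664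 (k2 c5861 c733 k0))))))))) (by decide +kernel)
def c13130 : PP 9 3 T 0x2000011080000000000000000040008000100000000000000000000000000000000000000001000000000000000000000000000000010 := rS 0xe476e20612d000bac1bfe6903f9c4e6a130f846e7a4dc453a6dda03e27a1358a44ecb4fed8c6793eb1c125f (k8 c5439 c5438 c5357 c5442 c5441 c5355 c12877 c5572 (k8 c5420 c5570 c5417 c13045 c13119 c13126 c9739 c5211 (k8 c5529 c5412 c9727 c5397 c10556 c1478 c5457 c5445 (k8 c5398 c5419 c5571 c5358 c13129 c5589 c3039 c5221 (k8 c12878 c9215 c5342 c5645 c908 c289 c2617 c5654 k0))))) (by decide +kernel)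
def c13131 : PP 9 3 T 0x2000011080000000000000000040008000000000000000000000000000000000000000000001000000000000000000000000000000010 := rS 0x7c760c0585c0e39940dcf49b0ca4cbe09639e4c66b1183e229d109b533b4 (k8 c5211 c5530 c5529 c5528 c5412 c9727 c9739 c9733 (k8 c13045 c5355 c5441 c5357 c5438 c5439 c5444 c5393 (k8 c5397 c10556 c1478 c13130 c5317 c5432 c5433 c690 (k4 c5645 c289 c2361 c3578 k0)))) (by decide +kernel)
def c13132 : PP 9 3 T 0x110000000000000000000040000000000000400000000000000000000001400000001000000050400000004400000015000000010 := rS 0x3c0c2482d1c2307c5443b4 (k8 c5211 c5528 c5414 c9739 c9733 c13120 c2311 c2843 (k2 c5645 c3584 (k1 c2361 k0))) (by decide +kernel)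
def c13133 : PP 9 3 T 0x11080000000000000000040008000000000400000000000000000000000000000001001000000000000000400000000000010010 := rS 0x104f6f6bfe3a8843a36026881fc8dc0024d6448122590c8af37a9c56627149cd6bb6d083e226555eccd6f1 (k8 c9695 c13045 c12185 c8880 c13095 c9727 c9739 c13119 (k8 c12877 c5422 c5419 c5417 c5570 c5574 c5571 c5477 (k8 c5325 c5326 c5478 c12663 c13121 c13132 c5559 c10629 (k8 c2805 c2804 c5221 c7820 c8135 c5592 c946 c897 (k4 c1226 c300 c2840 c12708 (k2 c3593 c5672 (k1 c1972 k0))))))) (by decide +kernel)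
def c13134 : PP 9 3 T 0x11080000000000000000040008000100000400000000000000000000000000000001001000000000000000400000000000000010 := rS 0x34d023c20b1430d70ba4c3e3b1b99bdc02061a7da24372191e894684086f32d97c127d3c9fcea715989c52735aedb422307c4768c932aacd6f1d99dcc7b1 (k8 c13131 c5355 c5356 c12185 c9695 c13045 c8880 c13095 (k8 c12308 c5211 c9727 c9739 c9733 c13119 c12877 c5422 (k8 c5419 c5417 c5570 c5574 c5571 c5440 c5358 c5441 (k8 c5442 c5438 c5439 c5474 c5325 c5478 c13133 c701 (k8 c2749 c2751 c13122 c8385 c13120 c5499 c897 c8435 (k8 c2746 c12885 c5664 c2363 c289 c2361 c261 c1107 (k8 c5507 c5648 c12739 c543 c1167 c700 c2768 c5861 k0))))))) (by decide +kernel)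
def c13135 : PP 9 3 T 0x5000001000000000000000000000000000100000000000000000000014140000001001004005401500010000000000000000400400800 := rS 0x18866669a52e013d86076f1 (k8 c9695 c12293 c5648 c691 c9699 c1227 c9744 c13053 (k2 c5664 c3607 (k1 c734 k0))) (by decide +kernel)
def c13136 : PP 9 3 T 0x11080000000000000000040008000100000000000000000000000000000000000000001000000000000000800000000000010010 := rS 0x221a88d6fb5cd1e269b34003f4b80d25ef573fda217f620d9e0a438e4240d1e9146a5b2f8258e7d3c9d44e7358ed8460f4ec54da9954ed19265559ade3b33b98f63598090e06f571b87e5a1 (k8 c13119 c10418 c5591 c5549 c5477 c2349 c5478 c2790 (k8 c5562 c13131 c5355 c5356 c12185 c9695 c13045 c8880 (k8 c13095 c12308 c5211 c5531 c5530 c5529 c5414 c5412 (k8 c9739 c9733 c12877 c5421 c5419 c5570 c5440 c5441 (k8 c5442 c5357 c5438 c5439 c5474 c5324 c5326 c12640 (k8 c2368 c12617 c2477 c8435 c5645 c11551 c2309 c12749 (k8 c10373 c5501 c5544 c8528 c5584 c13135 c261 c1637 (k8 c326 c5642 c13053 c2941 c13127 c8135 c5465 c5580 (k4 c946 c3627 c8818 c2837 k0))))))))) (by decide +kernel)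
def c13137 : PP 9 3 T 0xa0000111000000000000000000000000000000000000050000000000000000000004000000915400000000000000000000000000000000 := rS 0x7b95c8bf62c62aa9 (k8 c5531 c5414 c5421 c5672 c2983 c8528 c5673 c5584 k0) (by decide +kernel)
def c13138 : PP 9 3 T 0x11080000000000000000040008000100000000050000000000000000000000000000805000000000000000000000000000020010 := rS 0x19a394b8cd24170c9bcc2033419da2827bb3c6ac73a9c59673db686222154ed19265559ade3b33b98f628d2da2486373c8ec1809 (k8 c5438 c2752 c289 c5441 c2363 c5478 c2749 c5474 (k8 c701 c13131 c5355 c5356 c12185 c9695 c13045 c8880 (k8 c13095 c12308 c5211 c5531 c5528 c9727 c13119 c12877 (k8 c5419 c5420 c5571 c5440 c5357 c5324 c11551 c292 (k8 c13137 c1975 c2007 c5664 c9741 c12754 c1226 c9701 (k4 c12954 c5648 c12859 c1637 (k2 c9515 c13053 (k1 c11661 k0)))))))) (by decide +kernel)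
def c13139 : PP 9 3 T 0x11080000000000000000040008000100000400000000000000000000000000000001001000000000000000000000000000000010 := rS 0x34d023c20f8c30c50ba4c04d56b99803ee459a7da860f8ec6e0c470fd128d0840e03592310de65b0dbd4be093e9e4fe7514edb422307c4768c932aacd6f1d99dcc7b1 (k8 c13131 c5355 c5356 c12185 c9695 c13045 c8880 c13095 (k8 c12308 c5211 c9727 c9739 c9733 c13119 c12877 c5417 (k8 c5440 c5358 c5441 c5442 c5438 c5439 c5477 c5475 (k8 c5474 c5325 c5478 c13134 c5562 c2790 c2349 c13136 (k8 c701 c2749 c2907 c13128 c2752 c2363 c289 c2361 (k8 c13138 c5499 c897 c900 c12885 c12887 c5664 c5507 (k8 c5585 c5642 c261 c1107 c12739 c5648 c8136 c543 (k4 c6195 c700 c2768 c3608 k0)))))))) (by decide +kernel)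
def c13140 : PP 9 3 T 0x11080000000000000000040008000100000000000000000000000000000000000001001000000000000000000000000000000010 := rS 0x113ef5740d1a6f34000069280b442fec1ca0d9e0a438349625ac22fe7122dbd4be09639e4ea7358edb422307a762a6d4caa768c932aacd6f1d99dcc7b1 (k8 c13131 c5355 c5356 c12185 c9695 c13045 c8880 c13095 (k8 c12308 c5211 c5531 c5530 c5529 c5414 c5412 c9739 (k8 c9733 c13119 c12877 c5421 c5419 c5440 c5441 c5357 (k8 c5438 c5439 c5477 c5474 c13139 c5547 c858 c5221 (k8 c5559 c5342 c2598 c8435 c5645 c11551 c2309 c2470 (k8 c12749 c10373 c5501 c5502 c13135 c261 c5642 c8135 (k4 c1060 c946 c10681 c8528 (k2 c5584 c2835 (k1 c5673 k0))))))))) (by decide +kernel)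
def c13141 : PP 9 3 T 0x11080000000000000000040008000000000400000000000000000000000000000001001000000000000000400000000000000010 := rS 0xc47b24c3e3b337b8050125830d2cd05c0fda6ef92191e4944d64204322bccb6f52f824fa7f3a9c566735aedb422307c4768c932aacd6f1d99dcc7b10c85c6f28 (k8 c13140 c5435 c5433 c5315 c13131 c5355 c5356 c12185 (k8 c9695 c13045 c8880 c13095 c12308 c5211 c9727 c9739 (k8 c9733 c13119 c12877 c5422 c5419 c5574 c5571 c5440 (k8 c5358 c5442 c5438 c5439 c5477 c5474 c5325 c5326 (k8 c5478 c13133 c5558 c2749 c3026 c2751 c13122 c5221 (k8 c8385 c5499 c10690 c692 c2073 c897 c8435 c5546 (k8 c5592 c2746 c12885 c5664 c289 c2361 c261 c5996 (k2 c12963 c12739 k0)))))))) (by decide +kernel)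
def c13142 : PP 9 3 T 0x5000101000000000000000000000000000200000000000000000000014540000001004004205405540000000000010000014004010000 := rS 0xcd62a5daaa012804d2d30c8fc2e3d (k8 c5436 c5433 c5318 c5315 c2083 c946 c12887 c12632 (k4 c3579 c3001 c1234 c948 (k2 c13053 c3607 k0))) (by decide +kernel)
def c13143 : PP 9 3 T 0x20000011080000000000000000000008000200000000000000000000000000000000000000105000000000000000800000000000080800 := rS 0x1349600349aa68444748a351897d8e7d3c98f429d36a64663f03a3906fd577b22b0121ac557b381bd553b6 (k8 c12877 c5531 c5477 c2349 c12185 c8880 c5421 c5478 (k8 c2790 c5414 c12749 c8528 c5542 c2309 c2810 c5432 (k8 c5318 c5316 c5530 c5529 c5412 c13119 c5355 c5441 (k8 c5442 c5357 c5439 c5476 c5324 c5326 c300 c13137 (k4 c2836 c2837 c8122 c9744 (k2 c2941 c10374 (k1 c1231 k0))))))) (by decide +kernel)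
def c13144 : PP 9 3 T 0x11080000000000000000040008000200000000000000000000000000000000000000001000000000000000800000000000010010 := rS 0xc029234a31a27bf620d9e0a438481a412d86dea09639e4ea9f6589c5273db6841ea9da324caab35bc7667731ec40f59 (k8 c5562 c5432 c13131 c5355 c5356 c12185 c9695 c13045 (k8 c8880 c13095 c12308 c5211 c5531 c9739 c13119 c12877 (k8 c5419 c5417 c5570 c5420 c5572 c5440 c5441 c5357 (k8 c5438 c5477 c5475 c5474 c12636 c2368 c12617 c8435 (k8 c5645 c11551 c2309 c12749 c690 c5501 c13143 c946 (k4 c13142 c12887 c261 c5642 k0)))))) (by decide +kernel)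
def c13145 : PP 9 3 T 0x11080000000000000000040008000200000000050000000000000000000000000000915000000000000000000000000000002010 := rS 0x4b24998fd68a09eecf1a9e4ebb6d088d3a214caa768c932aade3b33b98f6219198e42e371d8243e6b (k8 c13045 c2361 c5438 c289 c5435 c5433 c5317 c5316 (k8 c5315 c13131 c5355 c5356 c12185 c9695 c8880 c13095 (k8 c12308 c5211 c5531 c5530 c5528 c5412 c9733 c13119 (k8 c12877 c5440 c5441 c5324 c11551 c292 c13137 c1975 (k4 c2392 c11661 c13075 c13053 (k1 c1637 k0)))))) (by decide +kernel)
def c13146 : PP 9 3 T 0x11080000000000000000040008000000000400000000000000000000000000000001001000000000000000000000000000000010 := rS 0x188930119803ee34b37da860f8ec180b472251a130840e024621bccb61b7a827422307c4768c932aacd6f1d99dcc7b10c85c6f28 (k8 c13140 c5435 c5433 c5315 c13131 c5355 c5356 c12185 (k8 c9695 c13045 c8880 c13095 c12308 c5211 c9727 c9739 (k8 c9733 c13119 c5438 c5477 c5475 c5474 c5325 c5478 (k8 c13141 c2790 c2349 c13144 c36 c701 c2749 c13128 (k8 c2312 c2752 c289 c2361 c13145 c5499 c2073 c897 (k4 c12885 c12887 c5664 c5642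 (k2 c261 c12966 (k1 c12739 k0)))))))) (by decide +kernel)
def c13147 : PP 9 3 T 0x40001000000000001000001080000000000000000000008000200001000000040000040014100000001000004045404000000000000010000001000010000 := rS 0x1c503662811a3b1abcc36317ab1cf2773aecd3ecb138a4e7b6d086466391f85c6e3d (k8 c5436 c5435 c5433 c5318 c5317 c5316 c5315 c13119 (k8 c12877 c5419 c5417 c5570 c5420 c5572 c12185 c5440 (k8 c5356 c5441 c5357 c5477 c5476 c5475 c5325 c5324 (k4 c12899 c13142 c3579 c3587 (k2 c10681 c10309 (k1 c2623 k0)))))) (by decide +kernel)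
def c13148 : PP 9 3 T 0x11080000000000000000040008000000000000000000000000000000000000000001001000000000000000000000000000000010 := rS 0x257bec430b34009701a4bc2d17b9efd883678290e0d259042225ac22dbff38901e50352dbd412c73c9d7420f8aaa768c932aacd6f1d99dcc7b1 (k8 c13131 c5355 c5356 c12185 c9695 c13045 c8880 c13095 (k8 c12308 c5211 c5531 c5414 c9739 c13119 c5440 c5441 (k8 c5357 c5438 c5477 c5474 c5324 c13140 c5432 c13146 (k8 c5547 c2512 c858 c5221 c5559 c5558 c5340 c5342 (k8 c2598 c8435 c5645 c11551 c2309 c12749 c690 c5498 (k8 c5501 c6290 c13147 c261 c1637 c5642 c13053 c661 (k4 c3607 c5451 c1585 c5678 k0))))))) (by decide +kernel)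
def c13149 : PP 9 3 T 0x2000000000000080000001000000000000000000000000000000001000000000000000000000000005000002000000000000000000100000000000080000 := rS 0x2be07ee44c05628d (k8 c10035 c5421 c5502 c3042 c8818 c5508 c5584 c8528 k0) (by decide +kernel)
def c13150 : PP 9 3 T 0x41000000000000081000100000000000000000000000000000100000500040000000040414040000040001104000051005405400000000001001041000000 := rS 0x331c3e3f0a03be7a50a55361638b2ce6ad (k8 c5573 c5419 c5420 c5571 c5648 c6036 c1461 c1068 (k8 c3598 c9031 c9215 c5457 c5463 c1717 c5688 c8709 k0)) (by decide +kernel)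
def c13151 : PP 9 3 T 0x11080000000000000000040008000100000000000000000000000000000000000000005000000000000000000000000000000010 := rS 0x668e4669749064c2033419d04f7678d4625f639f6229d36a6592653b98f62df3fb44b66f1b9e4760981b5c38aff77b424480f830d6b323ad446212582e260f54c5768abd9bc562278e9144b58f9a43422921ab76c1b (k8 c5475 c12877 c5573 c5478 c5417 c13119 c13148 c5589 (k8 c5221 c5559 c5326 c5341 c5570 c5421 c9695 c12185 (k8 c8880 c5211 c5414 c5531 c9739 c198 c12878 c5342 (k8 c5528 c9733 c5422 c2785 c5574 c13045 c5645 c2361 (k8 c3584 c10368 c13149 c5191 c5584 c3582 c5507 c11700 (k8 c5438 c289 c5441 c2363 c3039 c5474 c9793 c5358 (k8 c2948 c13131 c5355 c5356 c13095 c12308 c5530 c5529 (k8 c5412 c9727 c5442 c5357 c5439 c5476 c5324 c11551 (k8 c292 c5672 c2007 c5664 c264 c12754 c9701 c13150 (k4 c1637 c12292 c9515 c13053 (k1 c11661 k0))))))))))) (by decide +kernel)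
def c13152 : PP 9 3 T 0x11080000000000000000040008000100000000000000000000000000000000000000001000000000000000000000000000000010 := rS 0x200f6d31ca51ec18629602e9301198028934a19e65f3e9fceb1164994ee63d8a3d1ad12d8dcf23b04b5c38aff77b424480f830d6b323ad446212582e260f54c5768abd9bc562278e9144b58f9a43422921ab76c1b (k8 c5475 c12877 c5573 c5478 c5417 c13119 c13148 c5589 (k8 c5221 c5559 c5326 c5341 c5570 c5421 c9695 c12185 (k8 c8880 c5211 c5414 c5531 c9739 c198 c12878 c5342 (k8 c5528 c9733 c5422 c2785 c5574 c13045 c5645 c2361 (k8 c3584 c10368 c13149 c5191 c5584 c3582 c5507 c5438 (k8 c289 c5441 c2363 c5474 c9793 c10035 c165 c13131 (k8 c5355 c5356 c13095 c12308 c9727 c5440 c5358 c5442 (k8 c5439 c5325 c13151 c897 c2118 c12887 c5664 c5642 (k8 c261 c1107 c263 c12739 c5648 c2111 c376 c398 (k4 c2018 c10458 c5861 c907 k0)))))))))) (by decide +kernel)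
def c13153 : PP 9 3 T 0x11080000000000000000040008000000000000000000000000000000000000000000001000000000000000000000000000000010 := rS 0x128f77b424480f830962505d608f13f9a4152218aed08a5b3facc4e295aed8d7a111aaf660f (k8 c9739 c12185 c8880 c9733 c13119 c13045 c12877 c5422 (k8 c5417 c5570 c5574 c5358 c5474 c5326 c5211 c5414 (k8 c5528 c5531 c13148 c5589 c198 c2785 c5221 c12878 (k8 c5559 c5342 c5645 c2361 c3584 c10368 c13149 c5191 (k2 c13152 c9817 k0))))) (by decide +kernel)
def c13154 : PP 9 3 T 0x80000000000a2000110000000000000000000000000000000000400000000000400000000000000000001000010000000000000000000000000000000 := rS 0x23fe6e06fb2d429b (k8 c5397 c5398 c5420 c5580 c6661 c5271 c2846 c5675 k0) (by decide +kernel)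
def c13155 : PP 9 3 T 0x4000000000020000111080000000000000000080008000100000400000000000000000000000000010001000000000010000004000000000000000000 := rS 0x3de8b80c0cddf247a251a101f89086457996dea71598a4e6b53588dee4923c46b3b6 (k8 c12877 c9399 c5411 c5520 c5334 c5333 c9733 c13045 (k8 c5422 c5419 c5417 c5574 c5571 c5477 c5474 c5325 (k8 c5326 c5478 c9048 c2909 c13127 c701 c2749 c2751 (k4 c5675 c8385 c5550 c5592 (k2 c2979 c5996 (k1 c5673 k0)))))) (by decide +kernel)
def c13156 : PP 9 3 T 0x110000000000000000000000000000000000400000000000000000000000000000001000000000000000008000000000000000000 := rS 0x11ff3 (k2 c5546 c12624 (k1 c5675 k0)) (by decide +kernel)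
def c13157 : PP 9 3 T 0x22000111080000000000000000080008000100000400000000000000000000000000000001000000000000000000000000000000000010 := rS 0x1c7e23d194da9d88bc4bec73e9e4c7b63592d429b (k8 c5397 c5398 c13156 c13045 c12877 c5355 c5441 c5442 (k8 c5357 c5439 c9695 c5411 c5412 c5529 c12375 c10556 (k2 c13155 c1776 (k1 c13154 k0)))) (by decide +kernel)
def c13158 : PP 9 3 T 0x2000000000000000000111080000000000000000080008000000100400000000000000000000000000000001000000000010000000000000000000000000 := rS 0x6734a09188e817cc864579bd76673db1adee492392e02ff (k8 c5544 c5502 c13156 c5520 c5334 c5333 c13045 c12877 (k8 c5419 c12185 c5477 c5325 c5326 c5478 c12708 c3593 (k4 c5675 c2406 c2405 c946 (k2 c2008 c5664 k0)))) (by decide +kernel)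
def c13159 : PP 9 3 T 0x4000000000000000000111080000000000000000080008000000000400000000000000014000000000010001010000000011000000000000000000020000 := rS 0x33466396b1010103699bfe48a47a346af32d8c5ea5f3e9fcc671659cf6c3b7b8dc8e4b (k8 c13156 c5520 c5518 c5333 c5332 c12877 c5419 c5420 (k8 c5571 c5355 c5358 c5442 c5439 c5477 c5476 c5474 (k8 c5325 c5324 c701 c2751 c5673 c5675 c2979 c2938 (k8 c5550 c9215 c700 c857 c546 c545 c2191 c3587 k0)))) (by decide +kernel)
def c13160 : PP 9 3 T 0x10000011080000000000000000000008000000000400000000000000000000000000010005001000000011000000000000000001000010 := rS 0x81b5999f21f1ed1e1736315062501444cc0134a3024411e84513598e114365f04b1cfa793b9d5669f6589c5273db1afde47a512f428768b3fd9b3 (k8 c12185 c5238 c5543 c5501 c5499 c13119 c13156 c13153 (k8 c5520 c12459 c13045 c12877 c5419 c5417 c5570 c5420 (k8 c5572 c5574 c5440 c5356 c5441 c5442 c5357 c5438 (k8 c5439 c5475 c5326 c13158 c5341 c12630 c13159 c12640 (k8 c12636 c12617 c8818 c946 c12887 c5664 c9730 c5642 (k8 c12632 c2008 c733 c5665 c1107 c2432 c742 c3579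 (k4 c5675 c3607 c406 c5550 (k1 c2191 k0)))))))) (by decide +kernel)
def c13161 : PP 9 3 T 0x2000011080000000000000000000008000100000400000000000000000000000000000001001000000000000000000000000000000010 := rS 0xde6ba047e10ac907bf1c70b8c647bf905da66c09a3c048a44c443a8d4b804c8fff7fb36a9530b2432a149bc48a350d8c4be7d3c9fce2b1db1ad57b323d2897a1 (k8 c13119 c13156 c13153 c5520 c12185 c8880 c13045 c12877 (k8 c5421 c5571 c5358 c5441 c5442 c5439 c5476 c5475 (k8 c5324 c5326 c9695 c5444 c5398 c5393 c5396 c5445 (k8 c5446 c13157 c5238 c12459 c5544 c13160 c1056 c1126 (k8 c2171 c1954 c1269 c8464 c8120 c5642 c8824 c8818 (k8 c5665 c2938 c1107 c5675 c742 c3577 c5549 c5591 (k8 c11908 c5492 c545 c5341 c12617 c2907 c700 c2186 (k2 c5846 c12713 k0)))))))) (by decide +kernel)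
def c13162 : PP 9 3 T 0x20000001080000000000000000080008000000000400000000000000000000000000000000001000000010000004000000000400010000 := rS 0x203037fc755c88469a0dc120010c8af37aecce7a17b9262b591211c53b6 (k8 c12877 c5417 c5520 c9048 c9399 c5414 c5334 c5333 (k8 c13119 c5419 c12185 c5477 c5325 c5326 c5478 c13040 (k8 c12617 c12972 c8135 c946 c1226 c1225 c300 c2840 (k2 c1986 c3070 (k1 c3593 k0))))) (by decide +kernel)
def c13163 : PP 9 3 T 0x20000011080000000000000000000008000000000400000000000000000000000000000001001000000000000000000000000000000010 := rS 0x7bd1701819bbe48f44a34206588bc486457996dea71599cd6bb63588dee4923d2897a1 (k8 c13119 c13156 c13153 c5520 c5334 c5333 c9733 c13045 (k8 c12877 c5422 c5419 c5574 c5571 c5477 c5474 c5325 (k8 c5326 c5478 c9695 c5411 c12375 c13162 c701 c2749 (k8 c2751 c5675 c8385 c5550 c5592 c2979 c5996 c5673 k0)))) (by decide +kernel)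
def c13164 : PP 9 3 T 0x15000011080000000000000000000000000100000000000000000000000000000000000000001000000510000000000000000004000010 := rS 0x190ba4cd88301444cc017897c1223f6324ee63 (k8 c5355 c5356 c12308 c5238 c9733 c5438 c5439 c9695 (k8 c12887 c5664 c9730 c5642 c2008 c5665 c261 c1107 (k2 c13062 c5648 k0))) (by decide +kernel)
def c13165 : PP 9 3 T 0x11080000000000000000000008000100000400000000000000000000000000000001001000000010000000000000000000000010 := rS 0x100b18426930c9bd1a6d0000cd089acc7192450d98cee71659cf6c6b1dbdc6fb1f67bf6a47a512f43b3 (k8 c12185 c13119 c13156 c13153 c5520 c13163 c12459 c5238 (k8 c13161 c5518 c5333 c5332 c13045 c12877 c5419 c5420 (k8 c5571 c5356 c5355 c5475 c5326 c12308 c13158 c5341 (k8 c12630 c13164 c9741 c9744 c832 c946 c1226 c9701 (k4 c13077 c8818 c662 c5648 (k2 c12617 c12954 k0)))))) (by decide +kernel)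
def c13166 : PP 9 3 T 0x11080000000000000000000008000100000400000000000000000000000000000001001000000000000000000000000000000010 := rS 0x400407f5920c7031f20ba4cd81347809131146804c8fff7fb36bb125914365f04b1cfa793f9d4e2b34f8a563b635e8446abd98dc8f4a (k8 c13153 c5520 c5518 c12185 c8880 c9733 c13119 c13045 (k8 c12877 c5421 c5417 c5572 c5574 c5571 c5440 c5358 (k8 c5441 c5442 c5357 c5438 c5439 c5475 c5326 c13156 (k8 c13161 c13163 c5238 c12459 c5544 c13165 c1056 c2171 (k8 c1269 c8464 c5642 c8824 c8818 c5665 c261 c1107 (k8 c5675 c5648 c12708 c543 c5341 c13098 c12617 c13099 (k1 c700 k0))))))) (by decide +kernel)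
def c13167 : PP 9 3 T 0x100080000000000000100000000000100000800000000000000000000000000000000000008000000000001000000000000010000 := rS 0x1ff8dc080 (k4 c956 c957 c5463 c3056 (k1 c13127 k0)) (by decide +kernel)
def c13168 : PP 9 3 T 0x2000000000000000000000000000000000000000100000000000000000040000000001000000005001404400000000000000000000000 := rS 0x9b (k2 c5397 c10556 k0) (by decide +kernel)
def c13169 : PP 9 3 T 0x100000000000000000000000000000100000100000000000000000040000000001104000005001404400000001000002040010000 := rS 0x4d9843200 (k4 c12632 c1167 c662 c6036 (k1 c3598 k0)) (by decide +kernel)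
def c13170 : PP 9 3 T 0x2000000000000020000111080000000000000000000008000000000000000040000000000000000000000000140000000010000000000000000040080011 := rS 0xaf81fb90689011a48ab156ed846abd9c555301 (k8 c5502 c5531 c5414 c12185 c8880 c9733 c12877 c5573 (k8 c5421 c5326 c9744 c5642 c8134 c9812 c8818 c10681 (k2 c5584 c8528 k0))) (by decide +kernel)
def c13171 : PP 9 3 T 0x100000100000000000000000040000000001104000005001404400000000000000040000002 := rS 0x26cc219 (k4 c9699 c662 c6036 c3598 k0) (by decide +kernel)
def c13172 : PP 9 3 T 0x2000000000000020000111080000000000000000000008000100000100000040000000004000000000000000140004000010000000000440000040080010 := rS 0xcd1c8cd2e92003446af318bd4129954b276677d89b53a6b319e58e5f (k8 c5439 c5357 c5441 c5355 c13045 c5412 c5529 c13168 (k8 c5356 c12185 c12308 c5531 c5530 c5438 c5477 c5476 (k8 c5325 c5324 c5501 c13170 c13171 c1637 c12292 c9515 (k2 c13053 c3587 k0)))) (by decide +kernel)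
def c13173 : PP 9 3 T 0x20000011080000000000000000000008000100000800000000000000000000000000000000101000000000000000000000000000000010 := rS 0x8281fb59e873c8ec3ef71bc44e68b329ade2123dd676c110592695a1 (k8 c13119 c13153 c5334 c5516 c703 c12877 c9399 c13167 (k8 c12633 c9695 c13045 c12375 c858 c5419 c955 c5518 (k8 c5333 c5517 c5332 c5441 c958 c11551 c13172 c11700 (k2 c5672 c2604 k0)))) (by decide +kernel)
def c13174 : PP 9 3 T 0x20000011080000000000000000000008000100000800000000000000000000000000000000001000000000000000000000000000000010 := rS 0x19ac54b8602e930133da28733007d88334fbd19b13db24cb59549b53af10d97c12c73c98cee75d99af4249f9a3e2273db044174a (k8 c13153 c5516 c703 c12877 c5419 c955 c197 c5547 (k8 c5334 c13119 c13045 c12185 c5440 c5356 c5355 c5441 (k8 c5357 c5438 c5439 c5475 c9695 c5412 c5529 c5531 (k8 c9399 c12375 c12308 c13167 c13168 c13173 c5505 c946 (k8 c2176 c5191 c12887 c5664 c5499 c5501 c5543 c5642 (k4 c261 c1107 c5648 c1227 (k2 c734 c13053 (k1 c3607 k0)))))))) (by decide +kernel)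
def c13175 : PP 9 3 T 0x40000000000000014000111080000000000000000000000000100000000000000000040000400000000004004041000002410000001011000015004400010 := rS 0x1a48c7140bc2cc70b14f7e31f18432a13320f60c73c9dcea8768b3fd869 (k8 c832 c5238 c5543 c5501 c5499 c5440 c5356 c5441 (k8 c5357 c13164 c2431 c5664 c5398 c5393 c5445 c3579 (k8 c10342 c742 c733 c3056 c3607 c5537 c8709 c5691 (k2 c10681 c2624 (k1 c2083 k0))))) (by decide +kernel)
def c13176 : PP 9 3 T 0x11080000000000000000000008000100000000000000000000000000000000000001001000000000000000000000000000000010 := rS 0x4715fee449902e9312808026cda9047a1145b7e23f38906cbe09639f766714fb2c4e2939ac76c6bd0924174a (k8 c13153 c5516 c5334 c13119 c13045 c12877 c5421 c5419 (k8 c5417 c5570 c5420 c5572 c5571 c12185 c5442 c5357 (k8 c5438 c5439 c5475 c13166 c5547 c955 c2512 c858 (k8 c703 c12640 c12636 c13174 c5665 c8158 c5642 c12632 (k8 c261 c1107 c13175 c8464 c8120 c1131 c12515 c5504 k0))))) (by decide +kernel)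
def c13177 : PP 9 3 T 0x10000111080000000000000000080008000200200000000000000000000000000000000000000000000010000000000000000000010010 := rS 0x6c537e35024cd82501444026946048821b04b1d3ecb138a4e7b6358647e171efb36759 (k8 c5341 c12185 c5238 c5436 c5433 c5318 c5315 c13045 (k8 c12877 c5419 c5417 c5570 c5420 c5572 c5357 c5438 (k8 c5475 c12636 c12617 c300 c946 c12887 c9730 c5642 (k8 c12632 c5665 c261 c3579 c7824 c2492 c5398 c13068 k0)))) (by decide +kernel)
def c13178 : PP 9 3 T 0x10000111080000000000000000080008000200000400000000000000000000000000000001000000000010000000000000000000000010 := rS 0x4aa81366188000d0674523420d344c71925b319dce3b63581fde4b23f7d98cf1dbcdeed1f66cc6e33188e5ea35 (k8 c5324 c5477 c5317 c5476 c5316 c5518 c12185 c5238 (k8 c5501 c5333 c5325 c5332 c5543 c3587 c10382 c5520 (k8 c13156 c12459 c5432 c13045 c12877 c5571 c5356 c5355 (k8 c5474 c12308 c13158 c12630 c2081 c13177 c701 c5673 (k8 c737 c5664 c9744 c8158 c661 c1187 c13159 c2017 (k1 c5869 k0)))))) (by decide +kernel)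
def c13179 : PP 9 3 T 0x11080000000000000000000008000000000400000000000000000000000000000001001000000000000000000000000000000010 := rS 0x7b6fa053ad770b8d91f2699b3628f45226221d46a552e646677dfecf68fb3dfb525bc46af30d8c5ea5f3e9e4fe7538ac76c6bd0aaf663b7b8dc8f4a0c8cc7328 (k8 c13176 c5317 c5316 c5315 c13153 c5520 c5518 c5333 (k8 c5332 c12185 c8880 c13119 c13045 c12877 c5421 c5571 (k8 c5440 c5358 c5441 c5442 c5439 c5477 c5476 c5475 (k8 c5325 c5324 c9695 c13156 c13163 c12459 c5238 c5501 (k8 c5543 c5544 c10382 c3587 c13178 c1126 c1955 c2171 (k8 c1954 c1269 c8464 c8120 c8824 c5974 c5665 c2938 (k8 c5675 c5678 c2624 c5591 c2189 c1275 c857 c12713 (k2 c743 c5846 k0)))))))) (by decide +kernel)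
def c13180 : PP 9 3 T 0x2000000000000001000001080000000000000000000008000200000000000040000000004000000001001100000000000010000000000440000540000010 := rS 0x9649331fad11abcc62f50c8cc721764eccee63 (k8 c5355 c5356 c12185 c12308 c5433 c5317 c5316 c5315 (k8 c5477 c5476 c5325 c5324 c5501 c5542 c3587 c13075 (k2 c13053 c1637 k0))) (by decide +kernel)
def c13181 : PP 9 3 T 0x20000011080000000000000000000008000000000000000000000000000000000000000001005000000000000000000000000000000010 := rS 0x10503f6b3cf3a1118ec3ef71bc493a214caa4ca6b78ec6514a (k8 c13153 c13176 c9578 c9695 c13045 c12375 c5531 c5530 (k8 c5528 c5412 c13179 c5518 c5333 c5517 c5332 c9733 (k4 c13119 c5441 c11551 c13180 (k2 c11700 c5672 (k1 c2604 k0))))) (by decide +kernel)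
def c13182 : PP 9 3 T 0x111000000000000000000000000000000000800000000000000000000000000000000008000000000000000000000000000000000 := rS 0xf7233dbf3 (k4 c5547 c5499 c958 c5191 (k1 c5505 k0)) (by decide +kernel)
def c13183 : PP 9 3 T 0x11080000000000000000000008000000000000000000000000000000000000000001001000000000000000000000000000000010 := rS 0x1ee44c08c8e1d8f8d409366094049b68804d9ecdab3d0e4108a2dbf11f9c487a171f8e46619940d5e6317a8258e79d99c53ecb138a4e6b1db1af423b7b82c6f4a (k8 c13153 c5518 c5516 c5333 c5332 c13119 c13045 c12877 (k8 c5421 c5419 c5417 c5570 c5420 c5572 c5571 c12185 (k8 c5441 c5357 c5438 c5477 c5476 c5325 c5324 c13176 (k8 c5315 c5316 c5317 c5318 c5433 c5436 c13179 c5547 (k8 c955 c2512 c858 c703 c12636 c13182 c11551 c13181 (k8 c5238 c5665 c8158 c5501 c2492 c5642 c12632 c3587 (k8 c261 c3579 c7824 c5398 c3061 c13068 c8709 c8464 (k2 c8120 c5508 k0)))))))) (by decide +kernel)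
def c13184 : PP 9 3 T 0xa0000000000000a0000000000000000000000000000000000000000000000000000000000000000004000000000000000000000000000000000000000000 := rS 0x15f0358c555301 (k4 c5502 c5531 c5414 c5421 (k2 c5508 c5584 (k1 c8528 k0))) (by decide +kernel)
def c13185 : PP 9 3 T 0x2000000000000020000111080000000000000000080008000100000000000000000000000000000000000002000000000000000000000000000000000010 := rS 0x660e52e334905c3261019a0ce8ad8fbc38cf7e8d5e6317a97c12c73e9fce2cb3988d563b7b8dd1ad12d9be222154b24ca6b78eccee63448436c43 (k8 c5478 c12877 c9924 c2749 c5355 c5356 c12185 c9695 (k8 c13045 c12375 c12308 c5531 c5528 c5411 c3039 c5474 (k8 c9793 c10035 c5518 c5333 c5332 c8880 c9733 c5419 (k8 c5420 c5571 c5358 c5442 c5357 c5438 c5439 c5477 (k8 c5476 c5325 c5324 c5542 c5543 c12546 c13184 c12879 (k8 c5673 c737 c5664 c264 c12754 c9701 c12954 c5648 (k4 c12859 c1637 c9515 c3587 (k1 c13053 k0)))))))) (by decide +kernel)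
def c13186 : PP 9 3 T 0x2000100000000000000000000000000000000000000000000000040000400000000001100000050054004400000000440000540020000 := rS 0x390b90100614d8654293 (k8 c5444 c5398 c5393 c5397 c5445 c9215 c700 c1736 (k2 c547 c3578 k0)) (by decide +kernel)
def c13187 : PP 9 3 T 0x1000100080000000000000000000000000000000000000000000000000400000000000000000000054000000000000000000000820010 := rS 0x60 (k2 c12954 c1460 k0) (by decide +kernel)
def c13188 : PP 9 3 T 0x10000000000000a0000011000000000000000000000008000000100000000040000000000000000040000000001000004000000000000000000042000000 := rS 0x590e2184a833480802f121914362714ac55a23 (k8 c9733 c5573 c5421 c5417 c5570 c5475 c5326 c5478 (k8 c9695 c9699 c9701 c9744 c9812 c1113 c5672 c3582 (k2 c2111 c263 k0))) (by decide +kernel)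
def c13189 : PP 9 3 T 0x20000011080000000000000000000008000100000000000000000000000000000000000000001000000000000000000000000000000010 := rS 0x87671a19a001ca5c0633490655f1df77b46af318bd412c73cbdfe6d12dc4552c932bc766770bec532214eb7c6e1f1d88cc67f3e97c214a37a40d7a139b2ce3b6 (k8 c12877 c5571 c5420 c5419 c13119 c13045 c13183 c3039 (k8 c13153 c9924 c5439 c5442 c5358 c5355 c9733 c5332 (k8 c5517 c5518 c2948 c5412 c5528 c5530 c13186 c13187 (k8 c5356 c12185 c9695 c12375 c12308 c5531 c5411 c5474 (k8 c9793 c5589 c5333 c5441 c5357 c5438 c5477 c5476 (k8 c5325 c5324 c13185 c5191 c5504 c5584 c13188 c5648 (k8 c12859 c261 c1637 c9515 c5642 c13053 c8135 c3587 (k2 c897 c11551 k0)))))))) (by decide +kernel)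
def c13190 : PP 9 3 T 0x2000000000000001000001080000000000000000000008000200000000000040000000000000000001001100000000000010000000000440000540000010 := rS 0xcf (k2 c5543 c13180 k0) (by decide +kernel)
def c13191 : PP 9 3 T 0x20000011080000000000000000000008000000000000000000000000000000000000000004001000000000000000000000000000000010 := rS 0x104fc43b3d34d12db2766770b86473ed946c4206f6fa434273659c76c633f9f4be6535bc5529910a746ef70f8ee9423 (k8 c9733 c13153 c5332 c5517 c5333 c5518 c5412 c5528 (k8 c5530 c5531 c9695 c13045 c12375 c5439 c5442 c5358 (k8 c5355 c12877 c5571 c5420 c5419 c13119 c13183 c2948 (k8 c3039 c9924 c13186 c13189 c13190 c5317 c5315 c13187 (k8 c5356 c12185 c12308 c5474 c9793 c3578 c2563 c11562 (k2 c13075 c5672 (k1 c2392 k0))))))) (by decide +kernel)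
def c13192 : PP 9 3 T 0x20000011080000000000000000000008000000000000000000000000000000000000000000001000000000000000000000000000000010 := rS 0xce4a3352e92ef8e46728d8b24206554a64429d788d5e6317a97cfa633becce2cb39edb42231d87dee37a537cfed12d9bd206b (k8 c13045 c13183 c3039 c5474 c9793 c5358 c2948 c13153 (k8 c5518 c5333 c5517 c5332 c9733 c13119 c12877 c5419 (k8 c5420 c5571 c12185 c5356 c5355 c5442 c5439 c5477 (k8 c5476 c5325 c5324 c9695 c5412 c5528 c5530 c5531 (k8 c12375 c9924 c12308 c13186 c13189 c5316 c5317 c9979 (k4 c13191 c1637 c13053 c5678 (k2 c3587 c1587 k0))))))) (by decide +kernel)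
def c13193 : PP 9 3 T 0x14000111000000000000000000000008000000000400000040000800011000000000000000110200000000000000400440000000050000 := rS 0x1ac324547473efac12c6af318bd59fec (k8 c5238 c5543 c5477 c5476 c5325 c5324 c12663 c12617 (k4 c12459 c2617 c5341 c5673 (k2 c3587 c857 (k1 c2185 k0)))) (by decide +kernel)
def c13194 : PP 9 3 T 0x10000111080000000000000000000008000000000000000040000000000000000000000002000200000000000000400440000000040000 := rS 0x1ef45c71a4321c9007e10669e9c4e1f18d5e6317ac4d1adf3fb44b6cf44c07d9b3 (k8 c12185 c5238 c5502 c3042 c5543 c5474 c9793 c5358 (k8 c2948 c10035 c198 c5477 c5476 c5325 c5324 c5463 (k8 c1717 c908 c907 c10210 c13193 c2907 c700 c2618 (k4 c3587 c545 c544 c2938 (k2 c5504 c5673 k0))))) (by decide +kernel)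
def c13195 : PP 9 3 T 0x2000100000000000000000000000000000000000000000000000000000400000000000000000150054004400000000000000000000000 := rS 0xc2a1 (k2 c5398 c5445 (k1 c9215 k0)) (by decide +kernel)
def c13196 : PP 9 3 T 0x1000100080000000000000000000000000000000000000000000000000400000000020000000000054000000000000000000000800010 := rS 0x4a11 (k2 c13187 c12972 (k1 c1068 k0)) (by decide +kernel)
def c13197 : PP 9 3 T 0x11080000000000000000000008000000000000000000000000000000000000000000001000000000000000000000000000000010 := rS 0x5fc6a030a4f628164864ca9b0000e21ecda84cda6f4811c6e497b8ee945f3e9fcc67738b2ce7b635e8557b3 (k8 c12185 c8880 c13119 c13045 c12877 c5419 c5420 c5571 (k8 c5356 c5355 c5358 c5442 c5439 c13153 c5332 c5333 (k8 c5334 c5518 c5520 c13183 c3039 c746 c3036 c13192 (k8 c5238 c5665 c9729 c9730 c1187 c1269 c9701 c12308 (k8 c13194 c13195 c13077 c662 c9215 c5578 c13196 c13068 k0))))) (by decide +kernel)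
def c13198 : PP 9 3 T 0x110000000000000000000000000000000000400000000000000000000000000000001000000000000000002000000000000040000 := rS 0x11ff3 (k2 c5588 c2842 (k1 c5675 k0)) (by decide +kernel)
def c13199 : PP 9 3 T 0x82000000000000000000000000000000000000000000000000000000000000000000001000000000000000000001011800001001000000 := rS 0x1f85d3ecb138a526a1 (k8 c5398 c5444 c5417 c5570 c5420 c5572 c1676 c494 (k1 c3579 k0)) (by decide +kernel)
def c13200 : PP 9 3 T 0x82000000000000000000000000040000000000000000000000000000000040000000001000000001001404400001011100001000000020 := rS 0x2e3f940ec6fe1039e8c29b50a4d3ecb138a43311 (k8 c9728 c9698 c5417 c5570 c5420 c5572 c5444 c5398 (k8 c5397 c5445 c10556 c713 c5457 c1477 c13199 c5654 (k2 c5318 c5433 (k1 c3579 k0)))) (by decide +kernel)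
def c13201 : PP 9 3 T 0x1000001080000000000000000000008000000100000000040000000000000000000000040000000000100000000011800001000058040 := rS 0x15e1d6b99190674af7d88332c914ba352d8c4ae75d98a563b6 (k8 c12877 c5421 c5417 c12185 c5440 c5353 c5476 c5474 (k8 c5324 c5321 c5326 c473 c492 c10897 c5451 c1586 (k4 c734 c5678 c5664 c2189 (k2 c2061 c12945 (k1 c8309 k0))))) (by decide +kernel)
def c13202 : PP 9 3 T 0x1080000000000000000000008000000000000000000000000000000000000000008000000000010000000000000000000000020 := rS 0x6664bc4c677d98040669 (k8 c9743 c54 c53 c12185 c5356 c5355 c9695 c12308 (k2 c5664 c13007 k0)) (by decide +kernel)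
def c13203 : PP 9 3 T 0x20000011080000000000000000000008000100000000000000000000000000000000000000001000000000000001000800000000000040 := rS 0x1fccc57b47bed564234c903f6bd900971fa499ef11a9fd622355eccd31d4caa762390715e97580989cda9d208247a7d12807421138810d7b6319e58e5f (k8 c5439 c5357 c5441 c5355 c12877 c13045 c13197 c5571 (k8 c719 c13119 c53 c12632 c5442 c12640 c5438 c12636 (k8 c5412 c5529 c5570 c317 c12617 c9399 c5353 c6008 (k8 c393 c13200 c5531 c5530 c5341 c9743 c12185 c8880 (k8 c9733 c5421 c5358 c5324 c9695 c1646 c12293 c494 (k8 c1637 c12613 c13201 c5498 c2195 c13202 c2171 c12532 (k4 c1659 c5494 c2133 c1183 (k2 c6899 c12968 (k1 c2507 k0))))))))) (by decide +kernel)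
def c13204 : PP 9 3 T 0x110000000000000000000000000000000000400000000000800000000000000000001000001000000000000000000000000000000 := rS 0x11ff3 (k2 c5549 c2403 (k1 c5675 k0)) (by decide +kernel)
def c13205 : PP 9 3 T 0x20000011080000000000000000000008000100000000000000000000000000000000000000001000000000000001000800000000000000 := rS 0x382cda04 (k4 c13197 c5529 c717 c1675 (k1 c13203 k0)) (by decide +kernel)
def c13206 : PP 9 3 T 0x1000100080000000000000000040000000100000100000000000400000000000000001100000000001400000005400440004001018000 := rS 0x4985c7c606fa6dc27bf001cbec73c98c7257 (k8 c5353 c393 c5355 c5441 c5357 c5439 c871 c5654 (k8 c5457 c5460 c5536 c5538 c3598 c12667 c1459 c326 (k1 c5648 k0))) (by decide +kernel)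
def c13207 : PP 9 3 T 0x20000011080000000000000000000008000100000000000000000000000000000000000001001000000000000000000000000000000000 := rS 0x2802cdf70a6d26361dacd3ecb5a866224b23c5533b1248e4ae6d4e904123d3e894026b31b1cbee38983a9758089c42627db0134279 (k8 c5441 c13119 c13197 c12877 c5570 c317 c5571 c719 (k8 c12617 c9399 c6008 c12622 c13204 c5439 c5357 c5355 (k8 c13045 c53 c12632 c5442 c12640 c5438 c12636 c5412 (k8 c5529 c5353 c393 c13198 c13200 c5530 c5414 c5562 (k8 c12639 c9728 c9698 c5422 c5420 c5572 c5574 c13205 (k8 c13206 c1567 c2328 c1483 c2331 c5648 c3620 c1068 k0)))))) (by decide +kernel)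
def c13208 : PP 9 3 T 0x1080000000000000200000008000000000000000000000000000020000000020000000000000110000001000000000000018000 := rS 0x11a8345b54cc896498cefb338ab76c6b (k8 c13045 c12877 c5573 c5571 c12185 c5356 c5355 c12308 (k4 c8134 c5664 c3001 c737 (k2 c2008 c948 (k1 c12489 k0)))) (by decide +kernel)
def c13209 : PP 9 3 T 0x400000000085000000000000000000000000000008000000100000000000000000000000000000000000000200100020410000000000001000000000 := rS 0x57355901d4691452b1 (k8 c5421 c5417 c5326 c2171 c1953 c10944 c1659 c8309 (k1 c1183 k0)) (by decide +kernel)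
def c13210 : PP 9 3 T 0x20000011080000000000000000000008000000000000000000000000000000000000000001001000000000000000000000000000000000 := rS 0xa149997bec4401642e071f8ce51b1249746a5b1897d8e793f98cebb34fb2c526b0c9a44a011e9f482098ea74db131c83a9758089c7421313ed80857 (k8 c5353 c13197 c12877 c5570 c317 c13119 c5571 c719 (k8 c12617 c9399 c6008 c393 c12622 c5529 c5412 c5341 (k8 c5438 c12636 c5442 c12640 c53 c12632 c9743 c9698 (k8 c13045 c5417 c5420 c5572 c12185 c5440 c5355 c5358 (k8 c5441 c5357 c5439 c5476 c5474 c5324 c5321 c13198 (k8 c13200 c13207 c5316 c5318 c5432 c5433 c12275 c12613 (k4 c10897 c5451 c13209 c13202 (k2 c13208 c3579 k0)))))))) (by decide +kernel)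
def c13211 : PP 9 3 T 0x1080000000000000200000008000000000000000000000000000000000000000000100000000010000000000000000000000020 := rS 0x228cc892c914ba5bd9ab4d2113884c4fb6 (k8 c12877 c5570 c317 c5571 c719 c9743 c5573 c12185 (k8 c5474 c5321 c5326 c314 c8134 c5664 c8187 c737 k0)) (by decide +kernel)
def c13212 : PP 9 3 T 0x20000011080000000000000000000008000000000000000000000000000000000000000000001000000000000000000000000000000000 := rS 0xb0f70e409feaf43990de8d4803a96f121914362958ab4d6abd9894031dac044e3a1098104fb6 (k8 c12877 c5570 c13197 c317 c13119 c5571 c719 c12617 (k8 c5341 c53 c12632 c12185 c8880 c13045 c5573 c5421 (k8 c5417 c5475 c5326 c5478 c9695 c9399 c6008 c13210 (k8 c10035 c3039 c13211 c2114 c1130 c3009 c12968 c3582 (k2 c2195 c1953 (k1 c473 k0)))))) (by decide +kernel)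
def c13213 : PP 9 3 T 0x8000000000000000040000000000000000000000000005000002010000000000000000000005420 := rS 0x106592ebccb6f5 (k4 c5477 c5474 c5325 c5321 (k2 c314 c2431 (k1 c3571 k0))) (by decide +kernel)
def c13214 : PP 9 3 T 0x11080000000000000000000008000000000000000000000000000000000000000000001000000000000000000000000000000000 := rS 0x589433438af44191171248a3fe6cf438dc16f7f79b3d94a07ed48f1dac0941a130892e2201023c486450d9d766715989c52b156ed8d7a1 (k8 c13119 c13045 c12877 c5573 c5421 c5417 c5570 c5574 (k8 c5571 c12185 c5440 c5475 c5326 c5478 c9695 c13197 (k8 c53 c9728 c12639 c719 c317 c316 c12632 c12617 (k8 c5341 c5562 c13212 c9737 c5211 c5238 c5665 c12459 (k8 c5333 c5516 c5518 c5499 c5543 c11908 c2432 c746 (k8 c5675 c858 c13213 c8120 c1131 c3582 c8673 c8682 (k2 c1953 c8610 k0))))))) (by decide +kernel)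
def c13215 : PP 9 3 T 0x2000000000005000020000000000000000000000000000000000000000001000000000150000001000100001001501010000000000000000002000000 := rS 0x7799cd13da0d9a97 (k8 c1227 c13053 c5525 c5372 c5459 c8115 c12332 c5453 k0) (by decide +kernel)
def c13216 : PP 9 3 T 0x20000001080000000000000000040008000100100400000000000000000000000000000004001000000010000004400040001000040010 := rS 0xf7233bed71940deded6af8da681680f9c0cf058e3c2cd62fcd2e480c07c2e6644808d201459b9e245798c58e7d3c9d4e2b3138a4e6b556ed8d7113da1d228347c54426d4caa4769dd897f382364eccee63 (k8 c5355 c5356 c12185 c12308 c5409 c13214 c5439 c8483 (k8 c5412 c12293 c5531 c5530 c5529 c5528 c5414 c5526 (k8 c5525 c5374 c5373 c5372 c5371 c13045 c12877 c5573 (k8 c5422 c5419 c5417 c5570 c5574 c5571 c5440 c5441 (k8 c5442 c5357 c5476 c5325 c5326 c9695 c8385 c2979 (k8 c1061 c9744 c5642 c8134 c5664 c1107 c1111 c5648 (k8 c3584 c1227 c5588 c734 c13053 c13215 c5654 c2470 (k8 c2558 c400 c399 c3607 c1717 c3063 c5576 c2996 (k8 c5501 c12377 c2195 c12340 c1721 c5492 c8254 c5204 (k1 c5505 k0))))))))))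 (by decide +kernel)
def c13217 : PP 9 3 T 0x20000120080000000000000000000000000000000800000000000000000400001000000000000000050400000000000000001000840010 := rS 0x387c680719bd3400f0a84c2032fb1cfa793f98e227b4e884da99 (k8 c5530 c5529 c5528 c5412 c5372 c5371 c5355 c5358 (k8 c5441 c5442 c5357 c5439 c1107 c1460 c1068 c10515 (k8 c5642 c10443 c1061 c2621 c9215 c5463 c1716 c8617 k0))) (by decide +kernel)
def c13218 : PP 9 3 T 0x20000001080000000000000000040008000100100000000000000000000000000000000004001000000010000004400040001000040010 := rS 0xf7233bed71940deded6af8da681680f9c0cf058e3c2c53322490cd3487d2e010c05d17f3893c48af318b1cfa793a9c566cb138a4e6b556ed8d7a13dc54426d4caa4769dd897f382364eccee63 (k8 c5355 c5356 c12185 c12308 c5409 c13214 c5439 c8483 (k8 c5412 c12293 c5531 c5530 c5529 c5528 c5414 c5372 (k8 c13119 c13045 c12877 c5573 c5422 c5419 c5417 c5570 (k8 c5420 c5574 c5571 c5440 c5441 c5442 c5357 c5476 (k8 c5325 c5326 c9695 c13216 c5547 c858 c13217 c5648 (k8 c9699 c1227 c1165 c9744 c13053 c3584 c8134 c5664 (k8 c734 c13215 c5654 c2470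 c2558 c400 c399 c8127 (k8 c1716 c3063 c5576 c2996 c5501 c12377 c2195 c12340 (k4 c1721 c5492 c8254 c5204 (k1 c5505 k0)))))))))) (by decide +kernel)
def c13219 : PP 9 3 T 0x20000001080000000000000000040008000100100000000000000000000000000000000004001000000010000004400000001000040010 := rS 0x67f7830d11b325e231639e4c6773aeccda9954ec4bf9c (k8 c13214 c5439 c8483 c5531 c5530 c5529 c12185 c5440 (k8 c5356 c5355 c5441 c5357 c5476 c9695 c12308 c13218 (k4 c1481 c12299 c12332 c5453 (k1 c12425 k0)))) (by decide +kernel)
def c13220 : PP 9 3 T 0x20000001080000000000000000040008000100000000000000000000000000000000000004001000000000000000000000000000050010 := rS 0x7ffcc9103f687e03ef7b0095cfd009908f1d12d61e2450d9c5662714ac56bb63588e2a212583739a1 (k8 c13119 c13214 c5522 c12638 c5528 c5414 c5409 c13045 (k8 c12877 c5422 c5421 c5417 c5570 c5574 c5571 c5475 (k8 c5326 c9695 c12617 c5559 c5341 c5562 c13219 c1056 (k8 c1129 c12515 c5642 c12418 c5584 c3070 c1111 c5498 (k4 c2195 c3584 c5588 c3006 (k1 c5694 k0)))))) (by decide +kernel)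
def c13221 : PP 9 3 T 0x20000120080000000000000000000000000000000000000000000000000400001400000000000000050400000000000000001000800010 := rS 0x1c3e340449c66f4d003c2a13080cbec73e9e4fe63889ed228f4e884da99 (k8 c5530 c5529 c5528 c5412 c5526 c5374 c5372 c5371 (k8 c5355 c5358 c5441 c5442 c5357 c5439 c1107 c1460 (k8 c1068 c10515 c5642 c10443 c1060 c2621 c8385 c9215 (k2 c5463 c1716 (k1 c8617 k0))))) (by decide +kernel)
def c13222 : PP 9 3 T 0x20000001080000000000000000040008000100000000000000000000000000000000000004001000000010000004400040001000000010 := rS 0x35e3a8df777c64f6f6f8da681680f9c0cf058e3c2c5f99991248669a43e97008602ef1798c58e7d3c9fcea7159b2c4e2939ad55bb635e84f68741c54426d4caa4769dd897f382364eccee63 (k8 c5355 c5356 c12185 c12308 c5409 c13214 c5439 c8483 (k8 c5412 c12293 c5531 c5530 c5529 c5528 c5414 c5525 (k8 c5373 c5372 c13119 c13045 c12877 c5573 c5422 c5419 (k8 c5417 c5570 c5420 c5574 c5571 c5440 c5358 c5441 (k8 c5442 c5357 c5476 c5325 c9695 c13221 c5648 c9699 (k8 c1227 c1165 c9744 c13053 c3584 c8134 c5664 c5588 (k8 c734 c13215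 c5654 c2470 c2558 c400 c399 c3607 (k8 c1716 c3063 c5576 c5501 c12377 c12340 c5492 c5204 (k4 c5505 c3718 c2185 c5861 k0))))))))) (by decide +kernel)
def c13223 : PP 9 3 T 0x20000001080000000000000000040008000100000000000000000000000000000000000004001000000010000000000000002000010010 := rS 0x337b3fe3be146a68d1f20c80093597886c6273db1ac42991e9f4960dd08ed3bb12f88d1645238491f9c64eccee63 (k8 c5355 c5356 c12185 c12308 c13214 c5526 c13220 c2810 (k8 c5326 c2976 c5409 c5439 c8483 c5412 c12293 c13119 (k8 c5522 c12638 c5442 c12640 c5530 c5528 c13045 c12877 (k8 c5419 c5476 c5475 c9695 c5559 c10629 c12632 c1167 (k8 c5660 c8135 c10507 c946 c5536 c300 c11835 c12736 (k2 c12301 c12340 k0)))))) (by decide +kernel)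
def c13224 : PP 9 3 T 0x20000001080000000000000000040008000100000000000000000000000000000000000004001000000010000000000000000000010010 := rS 0x33fbcd10c0d82e2564bc462c73c98cee75d99c566cb39ad76c6b36a6553b12f92c1ba1238491f9c (k8 c13214 c5526 c13220 c2810 c13119 c5522 c12638 c5439 (k8 c8483 c5531 c5530 c5529 c13045 c12877 c5422 c5419 (k8 c5420 c5574 c5571 c12185 c5440 c5356 c5355 c5441 (k8 c5357 c5476 c9695 c12308 c13223 c13221 c13222 c5648 (k4 c1481 c12332 c5453 c12425 k0))))) (by decide +kernel)
def c13225 : PP 9 3 T 0x20000001080000000000000000040008000100000000000000000000000000000000000004001000000000000000000000000000010010 := rS 0x11d128095e1d46804c88b09114367114ac76da1 (k8 c13119 c12877 c5421 c5417 c5571 c5475 c5326 c13220 (k8 c2976 c13224 c1056 c2171 c1954 c1131 c5642 c12632 (k2 c300 c8310 k0))) (by decide +kernel)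
def c13226 : PP 9 3 T 0x80000000000000000000000000100000800000000000000000000000000000000000004000000000000015800000000050000 := rS 0x387c68003b8fc209639f4fe57 (k8 c5353 c5358 c5442 c5357 c5438 c5456 c8999 c1674 (k4 c12613 c5463 c1716 c8617 k0)) (by decide +kernel)
def c13227 : PP 9 3 T 0x1000100080000000000000000040008000100000900000000000000000000000010005108040004001600000000004004000000050000 := rS 0x35da6d562250c09bf00ee3b58219146a312fb1cf2631e9f48209 (k8 c5438 c12636 c5442 c12640 c5355 c5441 c5357 c5439 (k8 c5476 c5324 c5326 c5478 c12617 c5341 c13226 c9007 (k8 c5536 c3598 c831 c830 c1589 c2018 c1766 c3588 k0))) (by decide +kernel)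
def c13228 : PP 9 3 T 0x100000000000000000000000000000100001800000000000000000440000000000000000054054004400000000800000000000002 := rS 0x1c3e340185420771f87e6df (k8 c2512 c5547 c5456 c8999 c1674 c10309 c661 c9215 (k2 c5463 c1716 (k1 c8617 k0))) (by decide +kernel)
def c13229 : PP 9 3 T 0x21000100080000000000000000040008000100000100000000000000000400001410004009401004054600000000004004000000010002 := rS 0x35da6d562250c09bf00ee3a1245c4886451a8c4bec73c9fcc69d8a9b5323d3e904128d (k8 c946 c5438 c12636 c5442 c12640 c5530 c5529 c5414 (k8 c5412 c5355 c5358 c5441 c5357 c5439 c5476 c5324 (k8 c5326 c5478 c8385 c858 c13227 c300 c13228 c9007 (k8 c5536 c3598 c831 c830 c1589 c2018 c1766 c3588 k0)))) (by decide +kernel)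
def c13230 : PP 9 3 T 0x20000001080000000000000000040008000100000000000000000000000000000000000000001000000000000000000000000000010010 := rS 0x349ab1d57220246e468ccd065000fd2e034910c8a350d8c4127d31ecce2b34fb2c4e735aab76c6bd0c44f69147ec4bf9c (k8 c13214 c5439 c8483 c5526 c5374 c5372 c5371 c13119 (k8 c13045 c12877 c5573 c5422 c5419 c5570 c5420 c5572 (k8 c5574 c5571 c12185 c5355 c5442 c5438 c5476 c5475 (k8 c5324 c5326 c5478 c13225 c261 c1637 c326 c5642 (k8 c1056 c8135 c12292 c946 c13229 c1061 c1226 c1225 (k4 c300 c2837 c8122 c2941 k0)))))) (by decide +kernel)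
def c13231 : PP 9 3 T 0x20000001080000000000000000000008000100000000000000000000000000000000000004001000000000000000000000001000020010 := rS 0x6832464650e3dd5f1df712916188905cdef12286d8e793b9d7667159b2c4e2939ac56aaddb1af431148a3cda9954ec4bf9c4696d1243 (k8 c5478 c2749 c5474 c701 c13214 c5439 c8483 c5531 (k8 c5530 c5529 c5526 c5374 c5371 c13119 c13045 c12877 (k8 c5573 c5422 c5421 c5419 c5417 c5570 c5420 c5574 (k8 c5571 c12185 c5440 c5356 c5441 c5357 c5475 c5326 (k8 c9695 c2745 c13221 c8385 c5648 c858 c704 c5673 (k8 c5504 c5584 c564 c3582 c12515 c375 c2062 c12422 (k1 c2129 k0))))))) (by decide +kernel)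
def c13232 : PP 9 3 T 0x5000101080000000000000000000000000100000000000000000000000000000000000004100000010010000000040000012000020011 := rS 0x69a058ad56b8f08297f7061161733008d2f12f9f4ea89 (k8 c2749 c5440 c5442 c5439 c9695 c9744 c5642 c5664 (k8 c1107 c737 c5648 c5673 c1227 c543 c1167 c5507 (k4 c5585 c734 c700 c2768 (k1 c8254 k0)))) (by decide +kernel)
def c13233 : PP 9 3 T 0x1000100080000000000000000000000000100000000000000000000000400000000000004000000050000000000000000000000020002 := rS 0x16379843213 (k4 c36 c9699 c662 c1061 (k2 c5648 c12954 k0)) (by decide +kernel)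
def c13234 : PP 9 3 T 0x5000000000000000000000000000000000000000000000080000080041000000004000000000000100020400000002000000000000000 := rS 0x3bc32678e3c3ed (k4 c5498 c5538 c2771 c2565 (k2 c397 c12285 (k1 c5492 k0))) (by decide +kernel)
def c13235 : PP 9 3 T 0x101000000000000000100000000000000000000000084000800000000000000000001110000000000000001012000000000000000 := rS 0xf7a2e384a23fcfdb03 (k8 c2196 c5498 c5549 c2348 c1494 c8188 c12080 c5504 (k1 c5673 k0)) (by decide +kernel)
def c13236 : PP 9 3 T 0x20000001080000000000000000000008000100000000000000000000000000000000000004001000000000000000000000000000020010 := rS 0x7ba388b23fce24e36fb85a68166a8078417b061fa173200802241dbc5e67d3c9fcc675d99c5962939ed8d7a14788d3aab8a9b7625faca34b68921925239c (k8 c13214 c5374 c3026 c5478 c2749 c5474 c701 c5558 (k8 c5439 c8483 c5529 c5414 c5413 c5412 c5409 c5526 (k8 c13119 c13045 c12877 c5419 c5417 c5420 c5571 c12185 (k8 c5440 c5355 c5358 c5441 c5442 c5325 c9695 c12293 (k8 c13231 c13233 c5642 c13232 c1107 c1129 c5648 c12418 (k8 c543 c1167 c1166 c2072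 c700 c2768 c3060 c13234 (k8 c13235 c5864 c5547 c12623 c858 c8188 c5673 c5504 k0))))))) (by decide +kernel)
def c13237 : PP 9 3 T 0x20000001080000000000000000040008000100000000000000000000000000000000000000001000000000000000000000000000000010 := rS 0x4a9819cf74db463be0f7334943b458cd931234194de001b8e52e03492251a10218d5e65b0d8c5ea09639f4f27f319df667159b2ce6b5db1af43113da451e9d8a884da9954ec4bf9c (k8 c13214 c5439 c8483 c5531 c5530 c5529 c5528 c5414 (k8 c5412 c5526 c5374 c5372 c5371 c13119 c13045 c12877 (k8 c5422 c5419 c5420 c5574 c5571 c12185 c5356 c5355 (k8 c5358 c5441 c5442 c5357 c5438 c5477 c5476 c5475 (k8 c5474 c5325 c5324 c5478 c13230 c701 c2749 c13236 (k8 c261 c1637 c324 c1567 c5642 c2746 c1056 c8135 (k8 c8385 c12308 c12292 c858 c13228 c704 c13053 c5673 (k8 c9007 c5504 c5459 c5536 c564 c3587 c3598 c1587 (k1 c831 k0))))))))) (by decide +kernel)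
def c13238 : PP 9 3 T 0x20000001080000000000000000000008000200000000000000000000000000000000000004001000000010000000000000001000010011 := rS 0x3459f027ffcc904709470b0c580a31161f3322404692e96c3631639e4ae7538acce6b5359ed0e834788c42a9d897c66072583738e18afbdaaa00b8fc8209d090c7acb4fab48a2913ed832c93b98c6bb3 (k8 c12185 c5324 c5355 c5356 c12308 c5315 c12877 c5570 (k8 c5417 c5326 c5573 c5572 c5420 c5436 c5478 c13119 (k8 c5438 c12636 c5318 c5433 c3579 c3001 c10044 c5414 (k8 c3060 c13214 c5522 c12638 c5432 c5316 c5439 c8483 (k8 c5531 c5528 c5409 c5526 c5525 c5373 c5372 c13045 (k8 c5422 c5419 c5574 c5571 c5440 c5353 c5441 c5357 (k8 c5476 c5475 c5474 c5321 c9744 c5642 c8134 c5664 (k8 c1111 c737 c5673 c2141 c948 c10897 c2169 c2170 (k8 c2810 c3584 c5588 c3006 c514 c8707 c2202 c13142 k0))))))))) (by decide +kernel)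
def c13239 : PP 9 3 T 0x20000001080000000000000000000008000200000000000000000000000000000000000004001000000010000000000000001000010010 := rS 0x449c7e137a6800e15078d8e7159a7d9627149cd6bb635c45228fce2762a214c8647e171e90413a1 (k8 c13119 c5438 c12636 c5436 c5433 c5318 c5315 c5530 (k8 c5528 c5414 c5412 c13214 c5526 c5374 c5371 c13045 (k8 c12877 c5422 c5419 c5417 c5570 c5420 c5572 c5574 (k8 c5571 c5357 c7824 c3579 c3060 c13238 c10507 c1060 (k4 c5536 c2621 c8385 c8617 k0))))) (by decide +kernel)
def c13240 : PP 9 3 T 0x20000001080000000000000000040008000000000000000000000000000000000000000004001000000010000000000000000000010010 := rS 0x19ad1effb5ecd26ac77e5017fb3fc2884691d5c8b4d1a0246e00126b2246490c8a35189f4c677d99cf6c6b47a762a214c8cc7f282583739a1 (k8 c13119 c13214 c5522 c12638 c13237 c5318 c5316 c5530 (k8 c5528 c5414 c5412 c5526 c13045 c12877 c5419 c12185 (k8 c5356 c5355 c5442 c5476 c5324 c5326 c5478 c12308 (k8 c13239 c5559 c10629 c12632 c12972 c12617 c8135 c10507 (k8 c2979 c1225 c2810 c946 c1226 c5536 c2563 c11835 (k8 c3070 c5660 c300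 c2837 c8122 c12736 c12708 c5496 (k2 c2135 c2071 (k1 c5688 k0)))))))) (by decide +kernel)
def c13241 : PP 9 3 T 0x25000000080000000000000000000008000200000000000001000000000000000000000004001004000420000000000000000000001010 := rS 0x9b1df81a3df66fb43ec867bd8041d7ea552e011a86c625f3a88d3aab10a6432331c81c2e37 (k8 c5435 c5433 c5432 c5317 c5316 c5315 c5530 c5528 (k8 c5413 c5412 c5409 c5440 c5439 c5476 c5475 c5324 (k8 c1056 c1126 c1955 c1129 c1954 c5642 c12418 c11576 (k8 c3577 c1111 c5498 c2071 c5494 c2133 c12345 c6899 (k2 c5536 c3578 k0))))) (by decide +kernel)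
def c13242 : PP 9 3 T 0x80000000000000a0001100000040000000400100000000000000000000020000000000000000000000000000000000000000000000000000000000000000 := rS 0x20ff182fd613828b43e33915daffedb85ee1562ad8aae56f0d57c2fdaab (k8 c5413 c13184 c5587 c5584 c5509 c5533 c5415 c5414 (k8 c5573 c5421 c5423 c5575 c5213 c5223 c5431 c5430 (k8 c5615 c5641 c5598 c7209 c3625 c2245 c5635 c3394 (k2 c5626 c3442 (k1 c5695 k0))))) (by decide +kernel)
def c13243 : PP 9 3 T 0x80000000000000a0000120000000000000400000000000000000000000020001000000000000000000000000150000000080000000000000000020020008 := rS 0x21ef993e430655170af722dc6bef0321bfe2e4ba414ab622b936adeb30d85df70e58 (k8 c263 c4565 c9704 c5587 c5509 c5558 c5533 c5529 (k8 c5415 c5371 c5573 c5417 c13242 c5391 c5390 c5389 (k8 c5606 c5607 c5609 c5611 c269 c11785 c1115 c5652 (k4 c569 c1252 c589 c706 (k2 c740 c2040 (k1 c3615 k0)))))) (by decide +kernel)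
def c13244 : PP 9 3 T 0x100080000000000800000000008000204500814040000000000000000000000000000001000000000000001000000000000020000 := rS 0x1098393e0b18c5493ef8d93e94a64dd5dbde7477aebdee4a (k8 c704 c564 c5479 c5477 c5327 c5325 c5349 c5600 (k8 c5604 c5605 c12897 c705 c2753 c8941 c5677 c1012 (k4 c1013 c2580 c3501 c3507 (k2 c2645 c8896 k0)))) (by decide +kernel)
def c13245 : PP 9 3 T 0x10014000000000a0001100000040000000400100000000000000000014000000000000000000000040010000000000000000000000000000000000000000 := rS 0xf8fd70516f2c3e33915da8d7ff6dc2f70ab156c5572b7 (k8 c5533 c5415 c5414 c5573 c5421 c5423 c5575 c5213 (k8 c5223 c5431 c5614 c5430 c5615 c5641 c5598 c7591 (k4 c7209 c3625 c5635 c5626 (k1 c5205 k0)))) (by decide +kernel)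
def c13246 : PP 9 3 T 0x10004000000000a0000120080000000000000000000008000200500814040001000000000000000040000000001000000080000000000800000020020008 := rS 0x10f7cc9f21832a8b857b916e35f78190dff1725d259d432371f8452ad88c55726d5bd651a5b4490c9291f9b7d8e8b255f70e58 (k8 c263 c4565 c9704 c704 c858 c5357 c2512 c5547 (k8 c5374 c3026 c5478 c2749 c5474 c701 c5558 c5533 (k8 c5529 c5415 c5414 c5371 c5573 c5417 c5456 c1774 (k8 c3804 c10309 c13244 c13245 c5391 c5390 c5389 c5606 (k8 c5607 c5609 c5611 c269 c11785 c1115 c5652 c569 (k4 c1252 c589 c706 c740 (k2 c2040 c3615 k0))))))) (by decide +kernel)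
def c13247 : PP 9 3 T 0x40004000000000020000000000000000000000000000000000200000000000000000040000000001000000004000000000000000000020400000040000000 := rS 0x71f85c29a11a7442990c8e42e37 (k8 c5435 c5433 c5317 c5315 c5530 c5528 c5412 c5409 (k4 c3578 c1714 c5536 c2621 (k1 c5691 k0))) (by decide +kernel)
def c13248 : PP 9 3 T 0x20000001080000000000000000000008000200000000000000000000000000000000000004001000000000000000000000001000020010 := rS 0xcc0234804c0a171f8474400e77fdb0b6aabe1b1d81fb83e8b6f91fe712f19bc8a350db1cfa7f3a9c5669f6589c527358ad55bb6d0c45068f55c563e191f85c7ac932ec4be0d3d9ade3b33b98eb28d2da24864948e710207 (k8 c5432 c699 c13214 c5374 c3026 c5478 c2749 c5474 (k8 c701 c5558 c5355 c5356 c12185 c9695 c13045 c5372 (k8 c5522 c5439 c8483 c13241 c12308 c5436 c5433 c5318 (k8 c5315 c9713 c5414 c5413 c5526 c5525 c5371 c13119 (k8 c12877 c5573 c5422 c5421 c5419 c5417 c5570 c5420 (k8 c5572 c5574 c5571 c5440 c5358 c5442 c5357 c5475 (k8 c5324 c5326 c2745 c7824 c8385 c5547 c12623 c2512 (k8 c858 c6300 c5673 c10681 c5504 c5509 c5584 c5585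 (k8 c5587 c13184 c8993 c3582 c10044 c13247 c5456 c1774 (k4 c10309 c9215 c662 c9744 (k2 c5642 c5664 (k1 c13246 k0)))))))))))) (by decide +kernel)
def c13249 : PP 9 3 T 0x80000000000000a0000120080000000000000000040008000200000400044001000000000000000000000004001000008080000000000000000000020018 := rS 0x14aa716a8d7d80927df1b2777e94a62bd5dbd862fb307080581d02c94f723fce005d79bd4bec7c795c1e7b43835068f8f86472c10385c6fadaca34b68921925228b38c8e3b0b (k8 c5587 c5504 c5009 c5571 c737 c5374 c3026 c5478 (k8 c2749 c5474 c701 c5558 c5437 c5435 c5433 c5432 (k8 c5319 c5317 c5315 c9713 c5526 c5525 c5522 c5373 (k8 c5372 c5369 c5353 c5443 c5357 c5439 c5477 c5325 (k8 c5321 c3613 c5592 c2790 c8188 c5660 c2588 c10699 (k8 c3571 c562 c2003 c13243 c5347 c5348 c5349 c5600 (k8 c5601 c5605 c12897 c1832 c705 c2753 c8941 c5677 (k4 c3097 c3096 c3236 c3235 (k2 c1153 c1210 (k1 c3580 k0)))))))))) (by decide +kernel)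
def c13250 : PP 9 3 T 0x10004000000000a0000120080000000000000000000008000200500814040001000000000100000040000000001000000080000000000800002040020008 := rS 0xed77c9dd6522aaf85c2bdc8b71b8190ea71725d261d34966616542fc0e901c6cff08d5e65b0dbd4138fbc9f4fe573b9d453113d88d3b155c884da9954adf625fd6a040f7d6fb1c9567919b9eff323d649291 (k8 c5374 c3026 c5558 c12623 c5547 c8188 c1113 c5009 (k8 c13244 c704 c5357 c2512 c9704 c5432 c699 c5437 (k8 c5439 c8483 c5533 c5531 c5530 c5529 c5528 c5415 (k8 c5414 c5412 c5409 c5372 c5371 c5417 c5440 c5356 (k8 c5353 c5358 c5442 c5359 c5443 c5438 c5477 c5475 (k8 c5474 c5325 c5324 c5456 c1646 c1774 c562 c13246 (k8 c8250 c10309 c2003 c11909 c10711 c2504 c4121 c13245 (k8 c5391 c5390 c5388 c5606 c5607 c5611 c269 c11785 (k8 c1115 c5652 c1361 c569 c1362 c2960 c706 c1833 (k2 c3223 c3612 k0)))))))))) (by decide +kernel)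
def c13251 : PP 9 3 T 0x20000001080000000000000000040008000000000000000000000000000000000000000004001000000000000000000000000000000011 := rS 0x3b5df2775948aabe170af722dc6e0643a9c5c9749874b25542d271f84829a1dd9dbff38978fbfed85b555f0d6bc75ff03f748d166e0fdf4cc0234b1f1f793e9fcea7114ad55bb6d0c45068f11a7557155c884da995bc7c32331c85c6e3d649dcc7594696d124324a45020712040cbb12f834f79c35ecde328 (k8 c13237 c9695 c12185 c13045 c13214 c5372 c5522 c5439 (k8 c8483 c13241 c13240 c13248 c5432 c699 c5374 c3026 (k8 c5478 c2749 c5474 c701 c5558 c5355 c5356 c12308 (k8 c5436 c5435 c5433 c5317 c5316 c5315 c9713 c5533 (k8 c5530 c5529 c5528 c5415 c5414 c5413 c5412 c5409 (k8 c5526 c5525 c5371 c13119 c12877 c5573 c5422 c5417 (k8 c5571 c5440 c5358 c5442 c5359 c5443 c5357 c9744 (k8 c5642 c5664 c9704 c1111 c1113 c737 c5009 c5673 (k8 c10681 c11835 c5504 c5507 c5509 c5584 c5585 c5587 (k8 c13184 c8993 c12314 c13249 c5547 c2512 c13244 c13250 (k8 c3578 c13247 c5536 c2621 c6923 c10309 c2018 c5678 (k8 c4121 c13245 c5391 c5390 c5388 c5606 c5607 c5611 (k8 c269 c11785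 c1115 c5652 c1361 c569 c1362 c2960 (k4 c706 c2798 c3224 c3612 k0)))))))))))))) (by decide +kernel)
def c13252 : PP 9 3 T 0x20000001080000000000000000040008000000000000000000000000000000000000000004001000000000000000000000000000000010 := rS 0x6ffcdc3e389281c7e13798534004084c206578b1cfa7f31ecce2b3659cd6bb635e86227b488351e9d8a88533b12fe700f28 (k8 c13237 c5432 c13214 c5439 c8483 c5530 c5528 c5414 (k8 c5412 c5526 c5522 c5374 c5372 c5371 c13119 c13045 (k8 c12877 c5422 c5419 c5420 c5574 c5571 c12185 c5355 (k8 c5358 c5442 c5357 c9695 c13241 c13240 c36 c699 (k8 c13251 c10507 c662 c1061 c5536 c2621 c9215 c8385 (k4 c5578 c3060 c5547 c2512 (k1 c5691 k0))))))) (by decide +kernel)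
def c13253 : PP 9 3 T 0x1000000000020000100000000000000000000000000000000000100000000000400000440001400000001400054054405400000000000000000000000 := rS 0x70f8d00a16ffce2515 (k8 c5414 c8385 c5547 c2512 c10309 c9215 c5463 c1716 (k1 c5691 k0)) (by decide +kernel)
def c13254 : PP 9 3 T 0x20000001080000000000000000040008000000000000000000000000000000000000000000001000000000000000000000000000000010 := rS 0x6ab4e3a8857048dce3f0a35346134194009701a480e3f19ca086451a86c625f04b1cfa793f98f667159b2ce6b5db1af43113da441a8fce274da99 (k8 c5530 c5529 c5412 c13214 c5526 c5522 c5374 c5372 (k8 c5371 c13119 c13045 c12877 c5422 c5419 c5420 c5574 (k8 c5571 c12185 c5355 c5358 c5441 c5442 c5357 c5438 (k8 c5439 c5476 c5475 c5324 c5326 c5478 c13237 c5316 (k8 c5318 c5432 c13252 c261 c1637 c5642 c1056 c8135 (k8 c661 c10253 c946 c5536 c2621 c13253 c1061 c1225 (k4 c1226 c300 c2941 c2837 (k1 c8122 k0)))))))) (by decide +kernel)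
def c13255 : PP 9 3 T 0x20000001080000000000000000000008000000000000000000000000000000000000000004001000000000000000000000000000000010 := rS 0x25258f4225f639f4f26314ed8d7a1889ec1a234e9b5321f23ca4163707e70774a (k8 c13254 c5332 c13214 c5369 c5518 c5516 c6200 c5520 (k8 c5517 c5530 c5529 c5412 c5409 c5522 c5372 c5371 (k8 c13119 c13045 c12877 c5417 c5355 c5441 c5442 c5357 (k4 c5439 c13236 c12640 c12638 (k2 c13169 c9048 k0))))) (by decide +kernel)
def c13256 : PP 9 3 T 0x20000001080000000000000000000008000000000000000000000000000000000000000000001000000000000000000000000000000010 := rS 0x1a2cf62250c0680333400331ca5c0692649946e0b7b8ee94f11abcc62f504b1cae633beccd60f3d834429954ec4bf9c (k8 c13214 c5439 c8483 c5531 c5530 c5528 c5522 c5372 (k8 c5369 c13045 c12185 c5356 c5355 c5353 c5357 c5438 (k8 c5477 c5476 c5325 c5324 c9695 c13254 c5332 c5333 (k8 c5516 c5518 c12375 c12308 c13255 c261 c1637 c324 (k8 c12292 c5642 c13053 c10699 c8135 c1563 c831 c830 (k2 c1587 c1707 (k1 c3587 k0))))))) (by decide +kernel)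
def c13257 : PP 9 3 T 0x5000000000000000000000000000000000000000000000000000000000050000000000000000000000000000000000000000000002100000000000000000 := rS 0x1fff3 (k2 c5588 c3006 (k1 c5694 k0)) (by decide +kernel)
def c13258 : PP 9 3 T 0x20000001080000000000000000000008000000000000000000000000000000000000000000001000000010000000000000000000000000 := rS 0x7ffce244981c07dfed7b230b24507a1d220d4192c2271a5ec4bf9cd9bc4166d8e91eb01313edb4204 (k8 c13256 c13119 c12877 c5570 c317 c12635 c5562 c5341 (k8 c5529 c717 c9695 c12185 c13214 c5439 c8483 c12394 (k8 c5571 c719 c12639 c5525 c5522 c5374 c5373 c5369 (k8 c5326 c314 c13211 c12456 c10404 c5505 c2141 c2195 (k4 c13257 c12648 c5547 c2570 (k1 c5694 k0)))))) (by decide +kernel)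
def c13259 : PP 9 3 T 0x5000020080000000000000000000008000100000000000000000000000000000001001004001000000020000000000000000400000420 := rS 0xb23367b159bde64858765d7996c36317a9dcea0f068652e5f (k8 c5439 c1126 c9698 c5522 c5369 c5440 c5356 c5477 (k8 c5476 c5475 c5474 c5325 c5321 c12293 c5648 c1064 (k4 c10944 c13053 c5451 c5453 (k2 c5492 c9442 (k1 c11041 k0))))) (by decide +kernel)
def c13260 : PP 9 3 T 0x85000000080000000000000000000008000200100000000000000000000000000000000000000000000020000000011000001000000020 := rS 0x1de62200b2071f8ccba352d8c4be093e9fcae75089c42627 (k8 c5570 c317 c5571 c719 c5440 c5353 c5358 c5442 (k8 c5438 c5439 c5476 c5474 c5324 c5321 c5316 c5318 (k4 c5432 c12275 c12613 c10897 (k2 c13209 c5451 k0)))) (by decide +kernel)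
def c13261 : PP 9 3 T 0x20000001080000000000000000000008000000000000000000000000000000000000000000001000000000000000000000000000000000 := rS 0x331bff3818c8908b2c44dc3e36bf7c74806401c723f0ba4a528d3211e3b58208f44a0ba584c224b0081362a94c9b4429d11bc4be093e9fcae75d99c44eb1db6841e7b48835079c (k8 c13214 c5525 c5522 c5374 c5372 c5369 c13119 c12877 (k8 c5421 c5570 c5571 c12185 c5440 c5353 c5358 c5442 (k8 c5438 c5439 c9695 c5409 c5412 c5528 c5529 c5530 (k8 c5531 c8483 c13256 c53 c12639 c719 c317 c12394 (k8 c717 c12632 c12640 c12636 c12635 c5341 c5562 c13258 (k8 c2171 c13260 c13259 c55 c326 c324 c1564 c13012 (k8 c12613 c11799 c5494 c2189 c5463 c1716 c13226 c13209 (k8 c857 c12648 c12275 c10681 c5588 c2946 c493 c8709 k0)))))))) (by decide +kernel)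
def c13262 : PP 9 3 T 0x80000101000000000000000000000008000000100400000000000000000000000000000001555400000000000000000000001800000000 := rS 0x1521c802bdffee7890c8a1b138a562ad (k8 c5573 c5421 c5417 c5570 c5475 c5326 c5478 c9695 (k4 c5673 c11835 c5584 c8783 (k2 c3582 c2026 (k1 c484 k0)))) (by decide +kernel)
def c13263 : PP 9 3 T 0x2000000080000000000000000000008000000100000000000000000000410000000000000200004000000000000019800011800400000 := rS 0x1afdf193fc0ede24114ba352d8c4ae75f7b4cee59 (k8 c2169 c5356 c2083 c5505 c5440 c5353 c5476 c5474 (k8 c5324 c5321 c5326 c11905 c495 c1674 c3006 c10897 (k2 c5492 c2185 (k1 c12713 k0)))) (by decide +kernel)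
def c13264 : PP 9 3 T 0x40000000100000000000000000000000000000000002000000000000000000000000500000000400000 := rS 0x6fe1 (k2 c5458 c1479 (k1 c5654 k0)) (by decide +kernel)
def c13265 : PP 9 3 T 0x14000000000000000000000000000000000000000000001000000000008000000004000100000000000000000000000000000000000000 := rS 0x153ed (k2 c5543 c2450 (k1 c5682 k0)) (by decide +kernel)
def c13266 : PP 9 3 T 0x1000000000000000020080000000000000000040008000100000000000000000000004010000000000000001000000000010000000500000000000000 := rS 0x3459a362ebccb6317ab1cf2773a9ed0e83 (k8 c5525 c5373 c5372 c5440 c5356 c5441 c5357 c5477 (k8 c5476 c5474 c5325 c5321 c5654 c8146 c1481 c3607 k0)) (by decide +kernel)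
def c13267 : PP 9 3 T 0x2000000000000000020080000000000000000000000000000000000000000000000004010000000000000001000000000000000000000000000000000 := rS 0xcd3b9d4f683 (k4 c5525 c5372 c5440 c5356 (k2 c5537 c8115 k0)) (by decide +kernel)
def c13268 : PP 9 3 T 0x4000000000000000001080000000000000000000008000000100000000000000100004010000000000000151000000000000000000000001800000000 := rS 0xcd68b7fe6d78940fdcc73bedb428748a0d1f9c (k8 c13214 c5526 c5525 c5374 c5373 c13119 c12877 c5356 (k8 c5357 c5673 c10681 c13262 c5507 c5547 c2512 c8355 (k2 c8709 c8127 k0))) (by decide +kernel)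
def c13269 : PP 9 3 T 0x4000000000002000001080000000000000000040008000100100000000000000000004010000000000000051000000000000000008000001800410000 := rS 0x3b2ca319629db1ec7a7d2082742e11c867c39c (k8 c13214 c13267 c5393 c395 c3057 c13119 c5438 c12636 (k8 c5442 c12640 c5372 c12877 c5417 c5420 c13268 c2169 (k2 c13263 c13266 k0))) (by decide +kernel)
def c13270 : PP 9 3 T 0x2000001080000000000000000040008000100000000000000000000000000000004000004011000000080000000000000001800410000 := rS 0x3306cd11d8ca39e167b17c6391f264c21950bd4efb34fb2c4e29ce6d47a7d20827428b38ed9faf1 (k8 c9695 c1237 c12877 c5571 c737 c13119 c5438 c12636 (k8 c5442 c12640 c13261 c13214 c5417 c5570 c5420 c5572 (k8 c12185 c5356 c5477 c5398 c5393 c5445 c5447 c3579 (k8 c395 c10342 c733 c13265 c13267 c13269 c405 c3747 (k4 c2130 c5654 c8127 c2329 k0))))) (by decide +kernel)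
def c13271 : PP 9 3 T 0x1080000000000000000040008000100000000000000000000000000000000000004001000000010000000000000000000010011 := rS 0x7b19ca962a5c31e0d8bf4441f0b9991225011a5e25f56ed8d7a1daaaf39b3 (k8 c12185 c13214 c8138 c13261 c13119 c13045 c12877 c5573 (k8 c5439 c9695 c9744 c5642 c12632 c8134 c5664 c1107 (k8 c1111 c6197 c1237 c13270 c5225 c5648 c1227 c734 (k4 c12263 c13267 c5682 c5543 k0)))) (by decide +kernel)
def c13272 : PP 9 3 T 0x1000000000002000100000000000000000000000000000000000100000000000400000440001400000001400054055404400000000000000000000000 := rS 0x6ffce291370f8d00a1 (k8 c5398 c13195 c5463 c1716 c8617 c3604 c5590 c2950 (k1 c5691 k0)) (by decide +kernel)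
def c13273 : PP 9 3 T 0x2000120080000000000000000040000000100000000000000000000000400001400000000000000051400000000000000000000010002 := rS 0x1e2f90fc935923890246e71f8538a12fb1cfa793f98e227b48a3c960d (k8 c5522 c12638 c5526 c5374 c5372 c5371 c5355 c5358 (k8 c5441 c5442 c5357 c5439 c5398 c13168 c5458 c1777 (k8 c13272 c1061 c1060 c2810 c5559 c10629 c2909 c5660 (k2 c13127 c8118 k0)))) (by decide +kernel)
def c13274 : PP 9 3 T 0x14000000000000000000000000000000000000000000021000000000000000000014000000000000000000000000000000000000000000 := rS 0x153ed (k2 c5502 c2026 (k1 c5682 k0)) (by decide +kernel)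
def c13275 : PP 9 3 T 0x1080000000000000000000008000000100400010040000000000000000004000000101000005000000001400000000000010400 := rS 0x8122dfe128a10c8af37a9c566735aed8d60f88a45068f2583739a1 (k8 c13119 c13214 c5522 c12638 c5526 c5525 c5374 c5371 (k8 c5369 c13045 c12877 c5422 c5419 c5574 c5571 c5477 (k8 c5325 c5326 c5478 c3604 c12614 c3011 c2976 c3593 (k1 c10681 k0)))) (by decide +kernel)
def c13276 : PP 9 3 T 0x1080000000000000000000008000000100000010040000000000000000004000000101000005000000001400000000000010400 := rS 0x10245bfe244322bcdea832583739a1 (k8 c13119 c13214 c5522 c12638 c5525 c5477 c5325 c5326 (k4 c5478 c13275 c2570 c858 (k2 c3593 c10681 k0))) (by decide +kernel)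
def c13277 : PP 9 3 T 0x100000000000000000000000000000000200000000000000000000000000000000000100000000000000000000000000000010000 := rS 0x2759 (k2 c5341 c300 (k1 c12617 k0)) (by decide +kernel)
def c13278 : PP 9 3 T 0x1080000000000000000040008000100000000000000000000000000000000000004001000000010000000000000000000010010 := rS 0x7fc0d166e8ec048e0b24bf5ee20d8a34da680c800864579bd4e2b36589ce6b556ed8d68347ed557b32583739a1 (k8 c13119 c13214 c5522 c12638 c12185 c8138 c13261 c5526 (k8 c5525 c13045 c12877 c5573 c5422 c5419 c5570 c5420 (k8 c5574 c5571 c5477 c5325 c5326 c5478 c13271 c9699 (k8 c8135 c832 c946 c13273 c12220 c343 c2550 c344 (k8 c2416 c2422 c13274 c13277 c13276 c2979 c10681 c11835 (k1 c3593 k0)))))) (by decide +kernel)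
def c13279 : PP 9 3 T 0x16000020080000000000000000000000000000202000001040000000000400000004004004001000000080000000011000015000400000 := rS 0xcd68b5864cf628f9be99308654277 (k8 c5356 c5398 c5393 c5445 c5447 c2950 c3579 c733 (k4 c13265 c405 c406 c2129 (k2 c2192 c8127 k0))) (by decide +kernel)
def c13280 : PP 9 3 T 0x1080000000000000000000008000100000000000000000000000000000000000004001000000010000000000000000000010011 := rS 0x141e24d35d98d1efb3daadf628c9289d4b863631c69a33df017e87117141085ccc8912808d2f121914be7738acd3ecb138a55bb6daaaf663d3e904124bd088c8e5805a1c1a5b2ebcdea837bd281f9c (k8 c13214 c5369 c13278 c5333 c5525 c5477 c5325 c5321 (k8 c5474 c5522 c5373 c5516 c3571 c5520 c5331 c13119 (k8 c12638 c5438 c12636 c5442 c12640 c12185 c8138 c13261 (k8 c12877 c5573 c5417 c5570 c5420 c5572 c5574 c5571 (k8 c5356 c5439 c5326 c5478 c9695 c9744 c5642 c12632 (k8 c8134 c5664 c1107 c265 c8534 c737 c2003 c8141 (k8 c13274 c9072 c5673 c2083 c2169 c13279 c5648 c1227 (k8 c1273 c376 c375 c734 c2951 c1589 c1588 c5492 (k4 c2129 c8127 c2192 c2017 (k2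 c5689 c1191 (k1 c5578 k0))))))))))) (by decide +kernel)
def c13281 : PP 9 3 T 0x1080000000000000000000008000000000000000040000000000000000004000000101000000000000001400000001440010402 := rS 0x5722228217e22e006f79ecd662714ad55bb643ed4960dce1b63ba1 (k8 c13119 c13277 c665 c13214 c5522 c12638 c13261 c5373 (k8 c12877 c5573 c5422 c5417 c5570 c5574 c12185 c5325 (k8 c1060 c13276 c3069 c13274 c2550 c3584 c8141 c1241 (k1 c2835 k0)))) (by decide +kernel)
def c13282 : PP 9 3 T 0x1000000000000002000020080000000000000000000008000000100000000040000000001000000084000000020000001400000000000000002000080000 := rS 0xc99fe1698fd38a1219146a312fb1cf263889edaa7d (k8 c5442 c2837 c5372 c5371 c5355 c5441 c5357 c5439 (k8 c5476 c5324 c5326 c5478 c5398 c13168 c2909 c2940 (k4 c5458 c1651 c8122 c12046 k0))) (by decide +kernel)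
def c13283 : PP 9 3 T 0x1080000000000000000000008000100000000000000000000000000000000000004001000000010000000000000000000010010 := rS 0x12e9cef267c216d8b3442fc54fb601037fa215c8b091bab2248ea35366d3406400471b82c92f71187e944b1e90c8af37a97d8e7d3c98ce6addb1af43113d835068fdaaaf39b3 (k8 c12185 c13214 c8138 c13261 c5526 c5525 c5522 c5372 (k8 c5371 c13119 c13045 c12877 c5573 c5419 c5355 c5441 (k8 c5442 c5357 c5439 c5477 c5325 c5326 c5478 c12640 (k8 c12638 c13278 c5517 c5331 c5333 c5334 c5516 c5518 (k8 c5520 c13280 c9699 c8135 c665 c6036 c946 c13277 (k8 c13281 c5559 c12972 c12617 c2979 c1225 c1226 c11835 (k8 c10681 c3593 c5502 c2026 c13274 c2550 c2504 c13282 (k4 c5648 c10515 c1463 c5195 (k2 c13169 c5452 (k1 c10719 k0)))))))))) (by decide +kernel)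
def c13284 : PP 9 3 T 0x14000101000000000000000000040000000000000000000000000000000000000014000001515400010410000000000000010000020011 := rS 0x11380c0dfe4b7ea2c441f33008d2f1 (k8 c9695 c9744 c5642 c5664 c1111 c6197 c737 c1237 (k4 c560 c11835 c10681 c13274 (k2 c704 c3613 k0))) (by decide +kernel)
def c13285 : PP 9 3 T 0x4000101080000000000000000000000000100000100000000000000000400001400000005401004050410000000000000000000020002 := rS 0x1c7e14e1b4dfb03417d8e7d3c9fcc613 (k8 c36 c5355 c5358 c5441 c5442 c5357 c5439 c8135 (k4 c13233 c1061 c832 c13168 (k2 c5458 c1777 (k1 c13272 k0)))) (by decide +kernel)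
def c13286 : PP 9 3 T 0x400000000080001100000040000000400100000000000100000014000000000000000000000040150080000000000000000000020010000000000000 := rS 0x6cfc585ad60e09bbe587bb4ab9153affedb85ee1562ad (k8 c5573 c5421 c5423 c5575 c5213 c5223 c5431 c5428 (k8 c5615 c5636 c5639 c5598 c7591 c1817 c3625 c548 (k4 c1742 c5656 c5626 c3338 (k1 c5781 k0)))) (by decide +kernel)
def c13287 : PP 9 3 T 0x400000000082000100080140040000400000000000000104001414020000000000000000000040000081400000000000000010020010002000020008 := rS 0x2371993c5ca4555f0b8562ddce370321c5c974829aca8d4aa1 (k8 c5398 c5399 c5449 c5558 c5417 c13286 c5391 c5390 (k8 c5606 c5607 c5611 c8905 c269 c1115 c5652 c1361 (k4 c569 c1362 c3080 c706 (k2 c8902 c4828 (k1 c3616 k0))))) (by decide +kernel)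
def c13288 : PP 9 3 T 0x120000000000000800000000008000000101004000000000000000000000000000000000000009400000050000000000540020410 := rS 0x2e5762d5bafb0124fbe364fa5298af5651b78bc1f23 (k8 c5009 c5369 c5347 c5349 c5350 c5600 c5601 c5605 (k8 c6201 c705 c2753 c8941 c5677 c3097 c3096 c3239 (k4 c3235 c1157 c1304 c3585 k0))) (by decide +kernel)
def c13289 : PP 9 3 T 0x1080000000000000000000008000100000000000000000000000000000000000004001000000010000000000000000000000010 := rS 0x1a43c40906cfe34b317be9c4a98543b091890dc6d8abf153ed85b555f0d6bc760187f740dff132c22c9a0b27bdc46210f99a9402348047e8946d6420432e8d5e65b7a97d8e7d3c9fcc67538acd962939ad55bb635e841f113da1d237b06a0d1f89daaaf39b3 (k8 c12185 c13214 c8138 c13261 c5527 c5526 c5525 c5522 (k8 c5375 c5374 c5373 c5372 c5371 c5369 c13119 c13045 (k8 c12877 c5573 c5422 c5419 c5417 c5420 c5574 c5571 (k8 c5440 c5355 c5358 c5441 c5442 c5357 c5439 c5477 (k8 c5474 c5325 c5324 c5321 c5478 c13283 c5558 c701 (k8 c2749 c2907 c13285 c9744 c5642 c13284 c5664 c1111 (k8 c265 c5331 c5333 c5335 c5516 c5521 c737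 c3571 (k8 c703 c11835 c10681 c5673 c4565 c3613 c5504 c5507 (k8 c5509 c5584 c5585 c5587 c5502 c2026 c13274 c1241 (k8 c2552 c3604 c2745 c5009 c13232 c5398 c5445 c5446 (k8 c13168 c9031 c733 c10719 c8136 c13288 c13287 c700 (k2 c5655 c8254 (k1 c2768 k0))))))))))))) (by decide +kernel)
def c13290 : PP 9 3 T 0x1080000000000000000040008000000000000000000000000000000000000000004001000000010000000000000000000010011 := rS 0xf9452069c687b59eff7b2a0385866a5d8ad3467be02e16abf5368b500883e664489404697890c8a5d1a96c62c73c95cea7159a7d962714ab76c6b3da1d07b5649dcc6abce6cc32331f81c2e3d9410413a1 (k8 c13119 c5438 c12636 c13289 c5436 c5433 c5432 c5318 (k8 c5316 c5315 c12185 c13214 c8138 c5355 c5356 c12308 (k8 c13261 c5525 c5373 c5372 c13045 c12877 c5573 c5417 (k8 c5570 c5420 c5572 c5574 c5571 c5440 c5353 c5441 (k8 c5357 c5476 c5474 c5324 c5321 c5326 c5478 c9695 (k8 c9744 c5642 c12632 c8134 c5664 c1111 c6197 c3579 (k8 c737 c7393 c1237 c3001 c3061 c13274 c10044 c5673 (k8 c2083 c948 c1234 c12406 c10897 c2003 c484 c483 (k8 c2452 c2451 c5498 c3607 c2025 c2202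 c1277 c5694 (k1 c5590 k0)))))))))) (by decide +kernel)
def c13291 : PP 9 3 T 0x10000100000000000000000000040000000000000100000000000000000000001400000001481000055400000000100000005400015000 := rS 0x400a0f9248f14ac44c264b (k8 c12638 c2976 c858 c12617 c3604 c5562 c13085 c1086 (k2 c12614 c5650 (k1 c2416 k0))) (by decide +kernel)
def c13292 : PP 9 3 T 0x1080000000000000000040008000200000000000000000000000100000000000004101000001000000000000000001000010002 := rS 0x257bed24bb5d5e8845fbdabb1501bc86451a8c4ebb338acd3ecb138a4e6b556ed8d60f88a441a8fce6d432331f85c7a410488e3ba1 (k8 c13119 c13277 c9731 c5438 c12636 c5436 c5433 c5318 (k8 c5316 c5315 c13261 c13214 c5526 c5522 c5374 c5371 (k8 c5369 c13045 c12877 c5573 c5422 c5419 c5417 c5570 (k8 c5420 c5572 c5574 c5571 c12185 c5440 c5476 c5324 (k8 c5326 c5478 c1060 c3579 c5398 c3001 c10044 c13291 (k8 c5673 c2835 c1983 c1233 c3588 c5496 c2018 c5678 k0)))))) (by decide +kernel)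
def c13293 : PP 9 3 T 0x1080000000000000000040008000000000000000000000000000000000000000004001000000010000000000000000000010010 := rS 0x78137b10f25940cd10b49ecd56bbfe0247442b917038a848dc49ac8923a8d369a04600219146af318bd4fa7539ed91fb5649dcc6abd98cc7e171eca082092583739a1 (k8 c13119 c13214 c5522 c12638 c5438 c12636 c13289 c5436 (k8 c5433 c5318 c5316 c12185 c8138 c5355 c5356 c12308 (k8 c13261 c5526 c12877 c5419 c5440 c5442 c5477 c5476 (k8 c5325 c5324 c5326 c5478 c13290 c9731 c8135 c832 (k8 c946 c13277 c13292 c5559 c10629 c12972 c12617 c6578 (k8 c7820 c2979 c1225 c1226 c2810 c3070 c11835 c1983 (k8 c2837 c3593 c3588 c343 c2071 c2940 c2941 c5650 (k4 c5398 c1232 c7600 c12261 k0)))))))) (by decide +kernel)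
def c13294 : PP 9 3 T 0x20080000000000000000080000000200000000000000000000000000000000000000000000000000000000000000000000000000 := rS 0x58ec1e37 (k4 c5435 c5369 c5332 c5516 (k1 c6200 k0)) (by decide +kernel)
def c13295 : PP 9 3 T 0x10000000000000000000000000040000000000000800000000000000000000001000000000000000001000000001000000000400020000 := rS 0x421f0511fe759 (k4 c5558 c5547 c12623 c703 (k2 c6300 c2416 (k1 c5650 k0))) (by decide +kernel)
def c13296 : PP 9 3 T 0x1080000000000000000000008000000000000000000000000000000000000000004001000000010000000000000000000000010 := rS 0x101283f1489ec4da6f3408c008124a251b590984296079410cb65f04b1cfa793f95cc67159a7d962939ad55bb635e841f1143a45068fdaaaf39b3 (k8 c12185 c13214 c8138 c13261 c5526 c5525 c5374 c5373 (k8 c5371 c5369 c13119 c13045 c12877 c5573 c5422 c5419 (k8 c5417 c5420 c5572 c5574 c5571 c5355 c5353 c5358 (k8 c5441 c5442 c5357 c5438 c5439 c5474 c5478 c13289 (k8 c5432 c13294 c13293 c36 c5558 c701 c2749 c3026 (k8 c699 c13284 c9731 c8135 c1061 c832 c13195 c13295 (k4 c3604 c1087 c6578 c5650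 (k1 c13086 k0)))))))) (by decide +kernel)
def c13297 : PP 9 3 T 0x5000000000000000000000000000000000000000000000000000000080100000010000040000000000000000000000000000000000000 := rS 0x12bdf (k2 c5496 c2018 (k1 c5678 k0)) (by decide +kernel)
def c13298 : PP 9 3 T 0x8000000000000000000000000000000000000000000008000000100000000000000000040000000000000000000000000000000000015004000000000000 := rS 0x1aad7219146a31 (k4 c5476 c5324 c5326 c5478 (k2 c5507 c5585 (k1 c3588 k0))) (by decide +kernel)
def c13299 : PP 9 3 T 0x80000000000000000000008000000100000000000000000040000000000000000020000000000000000015004000000000000 := rS 0x6ab5c86451a8c4fa75 (k8 c5440 c5442 c5476 c5324 c5326 c5478 c1983 c2837 (k1 c3588 k0)) (by decide +kernel)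
def c13300 : PP 9 3 T 0x1080000000000000000000008000000000000000000000000040000000004000000001000000200000000005004000000010002 := rS 0x4705925ee1fa5095146f44fbe3a4122824e2b313ad4d7a107c45220d47e736a2336a34e7b6 (k8 c12877 c5419 c946 c832 c9731 c13261 c13214 c5526 (k8 c5522 c5374 c5371 c5369 c13119 c13045 c5422 c5570 (k8 c5574 c5571 c5438 c5326 c12636 c13277 c13298 c13299 (k8 c1226 c5673 c12972 c13291 c5517 c5333 c5334 c5516 (k2 c5520 c13281 k0))))) (by decide +kernel)
def c13301 : PP 9 3 T 0x14000120080000000000000000040008000000000000000000000000000500001404000008001000051400000000000004000000020002 := rS 0x281388130b7c74071cca19ea8f6bf5ee0b100dc941f8a44de65f3e9fcc60f88a3f62971a88eb249489bc0609 (k8 c5438 c261 c2746 c5374 c3026 c5558 c9731 c5324 (k8 c1637 c5444 c5526 c5371 c5369 c5355 c5358 c5442 (k8 c5439 c5325 c13295 c3604 c1087 c6578 c1568 c5650 (k8 c2588 c343 c2550 c13087 c5682 c2451 c13088 c5317 (k8 c5432 c6200 c2510 c661 c699 c341 c9215 c1278 k0))))) (by decide +kernel)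
def c13302 : PP 9 3 T 0x80000000000000100000008000100002000004040000040110000000000000020081004000000000000005544000000005400 := rS 0x35d00cc67c07de35798c5ebf3 (k8 c5590 c5477 c5476 c5325 c5324 c5583 c3069 c8707 (k4 c3587 c13092 c2192 c857 k0)) (by decide +kernel)
def c13303 : PP 9 3 T 0x1080000000000000000000008000000000000000000000000000000000000000000001000000010000000000000000000000010 := rS 0x200fd81a2da2d562250c0061cb7dff1489a76523705bdc774a37a26b21069a34da68000cc7e3d4b80f629255b24863504b1cf257319df667159a7d962739ad55bb635e841f113da1d220d41a3f39b5 (k8 c13261 c13214 c5526 c5525 c5522 c5374 c5373 c5372 (k8 c5371 c5369 c13119 c13045 c12877 c5573 c5422 c5419 (k8 c5570 c5420 c5572 c5574 c5571 c12185 c5356 c5355 (k8 c5353 c5441 c5357 c5438 c5324 c5478 c12308 c8138 (k8 c13296 c5444 c261 c1637 c1569 c326 c12292 c5642 (k8 c8135 c832 c946 c13297 c13300 c5558 c2749 c2746 (k8 c13301 c5332 c5333 c5516 c5518 c13294 c1694 c703 (k8 c3604 c3011 c2951 c13093 c3568 c1563 c831 c830 (k4 c1589 c1707 c13302 c10681 (k2 c8141 c3613 (k1 c13274 k0)))))))))))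 (by decide +kernel)
def c13304 : PP 9 3 T 0x4000000000000002000100000000000000000200000008000100100000000001000000040000000000000054000000010000400000001000015810400000 := rS 0x6bf7dabe3190f99219228d43631 (k8 c5476 c5475 c5324 c5326 c5393 c5396 c12251 c3577 (k4 c10342 c2996 c5492 c2185 (k1 c5689 k0))) (by decide +kernel)
def c13305 : PP 9 3 T 0x1080000000000000000040008000100000000000000000000000000000000000000001000000000000000000000000000010010 := rS 0x1ed55b3a04e240b51aec8efb7dc3e0d8bc4f3b313c44f68748a3d2a750eaa5079c498242e3d3eb4d2e5f89a2ab013f7aba3a2514a24e24546ac76da11107cd7b501004c81b (k8 c5475 c13303 c1056 c5642 c13261 c13045 c1111 c6197 (k8 c13119 c12877 c5421 c2171 c5326 c5571 c8464 c5417 (k8 c12632 c13277 c12515 c5584 c8818 c12617 c1131 c858 (k8 c5439 c1126 c2941 c5442 c12640 c1107 c5438 c261 (k8 c13214 c5525 c1957 c1954 c5440 c1955 c5526 c5374 (k8 c5373 c5372 c5371 c5570 c12185 c5441 c9695 c13304 (k8 c5225 c5460 c5538 c10651 c10944 c2189 c1183 c857 (k4 c5846 c1663 c1662 c2199 (k2 c5543 c8720 k0))))))))) (by decide +kernel)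
def c13306 : PP 9 3 T 0x80000000000000000000008000200000000000001000000000000000180000004000000000020000000011000000010450000 := rS 0xd76401c6619228d436314b97d2a75 (k8 c5440 c1955 c5439 c1126 c5476 c5475 c5324 c5326 (k4 c5315 c5316 c5432 c3577 (k2 c2189 c12945 k0))) (by decide +kernel)
def c13307 : PP 9 3 T 0x1080000000000000000000008000000000000000000000000000000000000000000001000000000000000000000000000010010 := rS 0x2c934a9491eb11309a2bdeae12c74823d78914fa29d083d220d47e711a1d44ac4e3b6498242e0200990365f (k8 c5439 c5475 c13303 c1056 c5642 c1107 c5438 c261 (k8 c12877 c5571 c5421 c8464 c1954 c2171 c13214 c5526 (k8 c5522 c5374 c5369 c13119 c5417 c5442 c5326 c9695 (k8 c12640 c12636 c13277 c12632 c12515 c5584 c1131 c8818 (k8 c858 c12617 c5562 c13306 c13305 c5334 c5516 c12876 k0))))) (by decide +kernel)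
def c13308 : PP 9 3 T 0x2000100000000000000000000000008000000000000000001000000040400000000000054000050054004400000000000000010420000 := rS 0x200c900c90c8d43631 (k8 c5476 c5475 c5324 c5393 c5396 c13195 c3577 c700 (k1 c545 k0)) (by decide +kernel)
def c13309 : PP 9 3 T 0x11000020080000000000000000040000000100000000000000000000000000000000000000000000000000000000000000010040020008 := rS 0x82800c23d26090b97eb23f3fc4c9622 (k8 c6197 c560 c704 c5358 c2907 c5558 c5439 c1107 (k4 c5438 c261 c5526 c5648 (k2 c13103 c543 (k1 c700 k0)))) (by decide +kernel)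
def c13310 : PP 9 3 T 0x2000100000000000000000000000008000000000000000001000000400400000110000000000050054024400000000000010000040010 := rS 0x8bf7a0238432286c3a89 (k8 c8464 c1954 c5475 c5326 c5478 c9423 c13195 c5504 (k2 c857 c8120 k0)) (by decide +kernel)
def c13311 : PP 9 3 T 0x40000000000000000000020080000000000000000000000000000000400050000000040410000000000000000080000000000000000800008000000000000 := rS 0x1ec7b3fc74e07190502d3f7b1cfa793f9ed228f (k8 c5526 c5374 c5372 c5358 c5441 c5442 c5357 c5583 (k8 c2938 c857 c545 c2348 c3610 c2789 c3013 c492 (k2 c5694 c5498 k0))) (by decide +kernel)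
def c13312 : PP 9 3 T 0x2000001080000000000000000040008000000000000000000000000000000000000000000001000000000000000000000000000000010 := rS 0x3fd16dff9c062846121b9aed1190e5921950bc48635189f4c6cb39ab7428741a3d2e953aa343a89589c526090b97c263f3fc4e064b1107cd7b501004c81b14ed9eb5924841239c (k8 c13214 c5374 c13307 c3026 c5558 c5477 c12877 c5417 (k8 c5475 c13303 c1056 c5642 c13261 c13045 c1111 c6197 (k8 c560 c7820 c704 c5358 c2907 c36 c5439 c1107 (k8 c5438 c261 c5571 c5421 c8464 c1954 c2171 c5440 (k8 c1955 c1126 c5526 c5525 c5373 c13119 c5573 c5419 (k8 c5420 c5355 c5442 c5476 c5324 c5478 c9695 c5398 (k8 c5393 c5396 c395 c3577 c2130 c2186 c13310 c2745 (k8 c1263 c1262 c2790 c5590 c2950 c13311 c11835 c3613 k0)))))))) (by decide +kernel)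
def c13313 : PP 9 3 T 0x400000000000000000000000000000000000000008000200000000000001000000400400000110004000000050050024400000000000015000020110 := rS 0x10542d457c73c66f219146a1d4985c04010d84c7e19198f50207 (k8 c5432 c699 c5436 c5316 c5315 c2907 c36 c5475 (k8 c1056 c5642 c1107 c261 c1954 c5324 c5326 c5478 (k8 c2745 c7824 c9423 c1130 c5778 c3000 c1656 c10308 k0))) (by decide +kernel)
def c13314 : PP 9 3 T 0x1080000000000000000040008000000000000000000000000000000000000000000001000000000000000000000000000000010 := rS 0x557b139e16f38e28461235fbee140b207a37038cc3328d8c4c9622788d462c73e9e4fe63d99c53ecb138a4e6b156ed8f68fdaa5d2a750ea4c12172f87c04013206cd75924841239c (k8 c13214 c5374 c13307 c3026 c5558 c13045 c5475 c13303 (k8 c1056 c5642 c1111 c5439 c1107 c5438 c261 c1954 (k8 c5440 c1955 c1126 c13261 c5526 c5372 c12877 c5573 (k8 c5421 c5419 c5417 c5570 c5420 c5572 c5571 c12185 (k8 c5355 c5358 c5441 c5442 c5357 c5476 c5324 c9695 (k8 c6197 c560 c704 c13312 c13309 c5315 c5316 c5432 (k8 c5435 c5436 c3577 c699 c6188 c5494 c2189 c13313 (k8 c1263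 c1262 c2347 c3610 c5538 c2951 c5195 c1275 (k1 c5500 k0))))))))) (by decide +kernel)
def c13315 : PP 9 3 T 0x1000000000000080000000000000000000000000000008000000000000040041000000000000000000000000000000000020000001400000001540020010 := rS 0x45496fe57c73e66f21915e61b5989c52b15aab43a13 (k8 c36 c1954 c5573 c5422 c5421 c5417 c5570 c5574 (k8 c5475 c5325 c5326 c5478 c2745 c8140 c9423 c1130 (k4 c6335 c2568 c3010 c3584 k0))) (by decide +kernel)
def c13316 : PP 9 3 T 0x2000001080000000000000000000008000000000000000000000000000000000000000000001000000000000000000000000000000010 := rS 0x729df02653619daa4c12172f8ec6fed5508de6f7a53c4420d0f808026b7e86dea1d54991079c (k8 c13214 c5525 c13303 c1957 c1954 c5477 c5475 c1129 (k8 c13045 c1056 c5642 c1111 c5522 c265 c9695 c13314 (k8 c5333 c5325 c5331 c3581 c5500 c5518 c5332 c5439 (k8 c1107 c5438 c261 c13261 c5393 c5397 c5447 c12388 (k2 c5458 c5534 (k1 c3578 k0)))))) (by decide +kernel)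
def c13317 : PP 9 3 T 0x1080000000000000000000008000000000000000000000000000000000000000000001000000000000000000000000000000010 := rS 0x191de4cf85c0df71a04789d20863622481fb626aa9491c6e0b7b88e9449080843e1749809521d7e804c8f17986dea5f049f4f3b34f8a563b6359ed220d41a3f39b5 (k8 c13261 c13214 c5526 c5525 c5522 c5374 c5372 c13045 (k8 c12877 c5421 c5417 c5572 c12185 c5441 c5442 c5438 (k8 c5439 c5477 c5475 c5325 c9695 c13303 c1056 c1129 (k8 c1954 c1957 c5642 c261 c1107 c1111 c265 c13307 (k8 c3026 c13314 c5331 c5333 c5516 c5518 c5520 c13294 (k8 c3581 c703 c5500 c2199 c13315 c13316 c5648 c543 (k8 c1273 c1167 c700 c1493 c2770 c5846 c5460 c1597 (k2 c5195 c8250 (k1 c5494 k0))))))))) (by decide +kernel)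
def c13318 : PP 9 3 T 0x4000400000000000000000000000000000000000000000000000000000000000000000440010000000000000000200000000000000000000000000000000 := rS 0x1abe3 (k2 c5463 c1658 (k1 c5689 k0)) (by decide +kernel)
def c13319 : PP 9 3 T 0x4000000000000000000000080000000000000000000008000000100000000000000000040000000000000000000000000081000000011000000000050020 := rS 0xd5f18f902d7ef8c98a07229746a5b18824fa7f2b9dcea03 (k8 c54 c5440 c5356 c5353 c5358 c5442 c5438 c5476 (k8 c5474 c5324 c5321 c5326 c713 c733 c5729 c5492 (k4 c2185 c13318 c12613 c5576 (k2 c2996 c5689 k0)))) (by decide +kernel)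
def c13320 : PP 9 3 T 0x4002000000000005000020080000000000000000000000000000000000000000000000840500000000000010041000000000000000000000000000000000 := rS 0xceef315abe3 (k4 c5465 c206 c1766 c10379 (k2 c13267 c5453 k0)) (by decide +kernel)
def c13321 : PP 9 3 T 0x14000000000000000000000000000000000000000000000000000140200400001404015404000000000000000000000000001080000000 := rS 0x1face8138a2a99 (k4 c2318 c1086 c3620 c1663 (k2 c1662 c2631 (k1 c13265 k0))) (by decide +kernel)
def c13322 : PP 9 3 T 0x10000000000000000000000000040008000000000000000000000000000000000004000000005000000000010000000000000040001020 := rS 0x81ec5d7996c3623 (k8 c9734 c5475 c5474 c5325 c5321 c10900 c5650 c343 k0) (by decide +kernel)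
def c13323 : PP 9 3 T 0x4000000000000095000020080000000000000000040008000100000000000000000000040100000004011414041000000400010000000000001000000020 := rS 0x1e3efb5532a910879afe07a9e596b588a1c1a2370a7dbeb3 (k8 c5574 c13097 c5572 c13096 c9734 c5522 c5373 c5371 (k8 c5422 c5420 c5441 c5477 c5225 c13320 c13322 c58 (k4 c2319 c2318 c13321 c10651 (k2 c7833 c5689 k0)))) (by decide +kernel)
def c13324 : PP 9 3 T 0x1080000000000000000000008000000000000000000000000000000000000000000001000000010000000000000000000000000 := rS 0x2def4a50a6d2b290b277626069a2fde6655a31265964bc4baf32d8c5ea57319dcebb34fb2c526b079ed0e0d41e736a19348f4fa4104894227100c76b01313edb4204 (k8 c13317 c13119 c12877 c5570 c317 c12635 c5341 c53 (k8 c5571 c719 c12632 c5438 c12636 c5442 c12640 c9743 (k8 c9698 c13261 c13214 c5525 c5522 c5373 c5372 c5369 (k8 c13045 c5417 c5420 c5572 c12185 c5440 c5356 c5355 (k8 c5353 c5477 c5476 c5474 c5325 c5321 c9695 c12308 (k8 c314 c13202 c13211 c8138 c5664 c5505 c196 c2083 (k8 c13319 c5445 c1696 c12943 c5433 c1461 c10952 c1068 (k4 c13323 c5333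 c5516 c3571 k0)))))))) (by decide +kernel)
def c13325 : PP 9 3 T 0x2000000000000000000000000000008000100100000000001000000800000000000000050000000000020000000000000000001400000 := rS 0xe8cda6350d8c526c9 (k8 c5396 c5444 c5476 c5475 c5324 c205 c2185 c8915 (k1 c3577 k0)) (by decide +kernel)
def c13326 : PP 9 3 T 0x94000000000000000000000000000000000000000000045000000000000000000041000000000000000000000000000000001084000000 := rS 0x2031555acd62ad (k4 c5573 c5421 c5574 c1084 (k2 c1086 c13274 (k1 c8604 k0))) (by decide +kernel)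
def c13327 : PP 9 3 T 0x2000001080000000000000000040008000100000000000000000000080000000000000000001000000000000000000000000000000000 := rS 0x3dad124b7c41120ffb9121c81bfd5e8befbc486457986deac73f95f66295683d220d47ed4464b12844e2018e91eb01313e84088d58ed9faa93220f38a1 (k8 c5398 c13214 c5525 c13324 c1957 c1129 c12877 c5421 (k8 c2171 c13317 c13119 c5570 c317 c12635 c5562 c5341 (k8 c53 c5571 c719 c12632 c12639 c9734 c13261 c5526 (k8 c5522 c5374 c5369 c5573 c5417 c12185 c5353 c5358 (k8 c5357 c5477 c5475 c5325 c5326 c5478 c9695 c5496 (k8 c2938 c2940 c11835 c10681 c3582 c8704 c8120 c13326 (k4 c12645 c5650 c2512 c344 (k2 c2136 c8823 (k1 c8522 k0))))))))) (by decide +kernel)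
def c13328 : PP 9 3 T 0x1000000000012000000080000000000400000040008000100011000000000000000002020001400000000000000008000000001400800000080800820 := rS 0x9b1e8b695cae9 (k4 c4335 c11915 c11912 c11913 (k2 c6187 c3221 (k1 c976 k0))) (by decide +kernel)
def c13329 : PP 9 3 T 0x14000000000000000001001080000000000800000000008000000000000000000000000000000000000000000001000000000000000000000000000000000 := rS 0x186dc7da8fb35ee144a1138806b01313edb4204 (k8 c13317 c13119 c12877 c5570 c317 c12635 c53 c5571 (k8 c719 c12632 c5423 c5575 c12185 c5327 c5193 c5240 (k2 c8871 c5429 k0))) (by decide +kernel)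
def c13330 : PP 9 3 T 0x2000001080000000000000000040008000100000008000000000000002000000000000000001000000000000001000000000000000000 := rS 0x63643a4d5c7ecd1992c8e4ff159ad4aa5346fbd96ad374560a0af0b459efd54a0d329b0b3c5261964b10663a7aa5cbe957bfb1561e89a295cb1128048b1d1492c1e47ac04c4fa111a451e0dce044e3b60ded766073095c6a312d974ea590eb4cc804 (k8 c13317 c13324 c13327 c8915 c313 c5440 c5321 c5474 (k8 c5476 c5324 c5353 c5445 c713 c12185 c13261 c5475 (k8 c12877 c5571 c719 c13214 c5522 c5526 c5374 c9734 (k8 c13119 c5570 c317 c12635 c5562 c5369 c12639 c5417 (k8 c5341 c5326 c53 c12632 c5421 c8309 c1131 c858 (k8 c12645 c1084 c8720 c5498 c1955 c5439 c1126 c5477 (k8 c8815 c492 c10897 c5396 c9698 c5444 c9695 c3577 (k8 c5397 c5447 c5525 c1957 c1129 c13265 c5501 c8772 (k8 c10404 c5545 c1086 c1130 c5573 c5420 c8156 c2171 (k8 c5563 c5343 c5422 c5574 c5629 c3399 c3016 c4947 (k8 c3403 c13328 c5345 c5600 c13329 c5606 c5611 c12621 k0))))))))))) (by decide +kernel)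
def c13331 : PP 9 3 T 0x1000000000012000000080000000000400000040008000100001000000000000080002020001400000000000000008000000001400800000080800820 := rS 0x230e5 (k2 c11915 c13328 (k1 c2518 k0)) (by decide +kernel)
def c13332 : PP 9 3 T 0x2000001080000000000000000040008000100000000000000000000800000000000000000001000000000000001000000000000000000 := rS 0x36583e46efdfeb0cd6dbd87666de1e16cc8110de747d7acd7b855a954a701879ba2aff828282cf149867c6de71b2fe7e167bf5528364a6536d177b10663a7aa5cbe957bfb1561e89a295cb1128048b1d1492c1e47ac04c4fa111a451e0dce044e3b60ded766073095c6a312d974ea590eb4cc804 (k8 c13317 c13324 c13327 c8915 c313 c5440 c5321 c5474 (k8 c5476 c5324 c5353 c5445 c713 c12185 c13261 c5475 (k8 c12877 c5571 c719 c13214 c5522 c5526 c5374 c9734 (k8 c13119 c5570 c317 c12635 c5562 c5369 c12639 c5417 (k8 c5341 c5326 c53 c12632 c5421 c8309 c1131 c858 (k8 c12645 c1084 c8720 c5498 c1955 c5439 c1126 c5477 (k8 c8815 c492 c10897 c4347 c5501 c5397 c5447 c5396 (k8 c5525 c1957 c1129 c13265 c8772 c11908 c5420 c8884 (k8 c10298 c5465 c9698 c5444 c9695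 c3577 c10404 c5545 (k8 c5544 c1086 c1130 c5027 c3071 c5563 c5343 c5422 (k8 c5423 c5575 c5574 c5479 c5327 c5325 c5478 c3593 (k8 c2516 c13330 c1384 c1772 c13331 c5348 c5349 c5602 (k8 c9779 c6751 c8871 c2210 c5207 c5618 c5621 c3589 k0))))))))))))) (by decide +kernel)
def c13333 : PP 9 3 T 0x4000000000000000000001080000000000800000000008000000000008000000000000000000000000000000001000008000000000000000000000000000 := rS 0x31b21d24964ff1089c4aa53ac04c4fa102234c8b1db47e47ab (k8 c5600 c5351 c5345 c12877 c5421 c13324 c2171 c13317 (k8 c13119 c5570 c317 c12635 c5563 c5343 c5571 c719 (k4 c5629 c3399 c4947 c13329 (k2 c5606 c5611 (k1 c12621 k0))))) (by decide +kernel)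
def c13334 : PP 9 3 T 0x6000000000000000000001080000000000800000000008000000000040000000000000000000000000000000001000008000000102000000000000000000 := rS 0x9d1884c5fef0c85c6fea4d91dbc8645a3954a6f783c17e64b23c76b01313edb4204 (k8 c13317 c13119 c12877 c5570 c317 c12635 c5341 c5562 (k8 c12639 c11908 c5545 c5503 c5498 c5563 c5343 c5327 (k8 c5326 c5478 c5349 c5351 c5604 c6751 c3127 c13333 (k4 c9779 c8941 c3456 c2212 (k2 c5697 c6276 (k1 c3500 k0)))))) (by decide +kernel)
def c13335 : PP 9 3 T 0x14001000000000082001101000000000000400000040000000100000000000000000000000000000000000000000000000000000000000000000000000820 := rS 0x7d7cb8afb47946a1 (k8 c5398 c5449 c6187 c5193 c975 c7591 c5553 c5169 k0) (by decide +kernel)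
def c13336 : PP 9 3 T 0x4001000000000092000101080100040000400000040000000100000408104000000000000000000000000001500000008000000000100000000080004820 := rS 0x2e62cbbdce3717a48cc6e4b2393fc57a1138954a7580989c426c (k8 c717 c58 c5570 c317 c12635 c5563 c5343 c5571 (k8 c719 c5575 c5629 c3399 c3016 c4947 c3024 c3403 (k8 c13335 c5390 c5611 c8905 c2663 c3616 c12673 c6204 k0))) (by decide +kernel)
def c13337 : PP 9 3 T 0x4001000000000082001101000040000000400000040000000100000000501000000000000000000005000000000000000000000000000000000080004820 := rS 0x173838493d6f915dfc23db8 (k8 c5213 c6187 c13335 c5430 c5615 c5616 c517 c5514 (k2 c5626 c1089 (k1 c3624 k0))) (by decide +kernel)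
def c13338 : PP 9 3 T 0x2000001080000000000000000040008000100000000000000000000800000000000000000001000000000000000000000000000000000 := rS 0x1f1f084e4706dd726e5f781d4e2f498785d9c917f405ef128df7b2d5b0f3741dff05f0b459efd54a0d329b289b014c403984ae5b2e965d21619bdde2931a86592311d7b366f54b97d2a755586c3d13452b83ad35889402458e8a4c84b0791eb01313e84469147837381138ed809b5 (k8 c13261 c13317 c12877 c5571 c719 c13214 c5522 c5526 (k8 c5374 c9734 c13119 c5570 c317 c12635 c5562 c5369 (k8 c12639 c13324 c5417 c5341 c5326 c53 c12632 c5421 (k8 c13327 c8915 c8309 c1131 c858 c12645 c5475 c1084 (k8 c5440 c1955 c5439 c1126 c5477 c12185 c8720 c8815 (k8 c5476 c5396 c9698 c5324 c5444 c9695 c5498 c492 (k8 c3577 c4335 c313 c5321 c5474 c5353 c5445 c713 (k8 c10897 c10404 c717 c4757 c5397 c5447 c5525 c1957 (k8 c1129 c13265 c5501 c8772 c5545 c5544 c5503 c1130 (k8 c5027 c5573 c5420 c8156 c2171 c5527 c5375 c1765 (k8 c3960 c13332 c13334 c13336 c1384 c13337 c5390 c5388 (k8 c5607 c5609 c8905 c11912 c1815 c1132 c1961 c2527 (k2 c5684 c5274 (k1 c5625 k0))))))))))))))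 (by decide +kernel)
def c13339 : PP 9 3 T 0x2000001080000000000000000040008000100000000000000000000000000000000000000001000000000000000000000000000000000 := rS 0x3e6fa05afdf1d3fda2cff62ac3d13452b83bef6991436f53c9fcae77d9b2c52b1569ac1f113da1d220d47ed4464b1e9f4820912844e2018e91eb01313edb42972fa54eafd54991079c4c81cc204 (k8 c13317 c5445 c713 c5447 c13214 c5525 c13324 c1957 (k8 c1129 c5440 c1955 c5439 c1126 c13119 c12877 c5570 (k8 c317 c12635 c5562 c5341 c53 c5571 c719 c12632 (k8 c5438 c12636 c5442 c12640 c12639 c9734 c13261 c5526 (k8 c5522 c5374 c5373 c5372 c5371 c5369 c13045 c5573 (k8 c5421 c5417 c5420 c12185 c5356 c5353 c5358 c5441 (k8 c5477 c5475 c5326 c13327 c8156 c8915 c8309 c1131 (k8 c858 c12645 c1084 c8720 c13265 c5501 c5544 c8815 (k4 c8645 c13338 c857 c12713 (k2 c12613 c495 k0)))))))))) (by decide +kernel)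
def c13340 : PP 9 3 T 0x82000000000000000000000000000000000200000000000000000000000000000000000000000000000000000000011000001001000000 := rS 0xb8fd3ecb138a526a1 (k8 c5398 c5444 c5417 c5570 c5420 c5572 c5318 c5433 (k1 c3579 k0)) (by decide +kernel)
def c13341 : PP 9 3 T 0x2000001080000000000000000000008000000000000000000000000000000000000000000001000000000000000000000000000000000 := rS 0x403d903f0a2dfe388902c92f70f8ee95294c984864579bd41e7b48835068fce6d43223258f4fa4104894227100c748f580989f42044699163b6 (k8 c12877 c5421 c13324 c2171 c13317 c13119 c5570 c317 (k8 c12635 c5562 c5341 c53 c5571 c719 c12632 c5438 (k8 c12636 c5442 c12640 c12639 c9734 c9698 c13261 c13214 (k8 c5526 c5525 c5522 c5374 c5372 c5369 c5477 c5325 (k8 c5326 c5478 c5445 c5447 c13340 c13339 c5332 c5517 (k8 c5333 c5334 c5516 c12645 c11968 c2570 c858 c5534 (k4 c10681 c12387 c3593 c5502 k0))))))) (by decide +kernel)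
def c13342 : PP 9 3 T 0x1080000000000000000040008000000000000000000000000000000000000000000001000000000000000000000000000000000 := rS 0x1142440dff0155fb917ec44a00383f57a480ed70bb23becdf03c486457986deac73c9fcaeb314ad55a6b88a1f6a191192c8e972fa54ea8d58bf55283ce4a76264208247a7d12844e2018ed602627d08136db3 (k8 c12185 c12877 c13317 c13119 c5570 c317 c12635 c5341 (k8 c53 c5571 c719 c12632 c5442 c12640 c5438 c12636 (k8 c13324 c13341 c13260 c13214 c5525 c1957 c1129 c5421 (k8 c2171 c5440 c1955 c5439 c1126 c5562 c12639 c9734 (k8 c9698 c13261 c5373 c5371 c13045 c5573 c5422 c5417 (k8 c5574 c5353 c5358 c5441 c5357 c5477 c5475 c5325 (k8 c5326 c5478 c9695 c5225 c5537 c10651 c10944 c1064 (k8 c2189 c714 c5648 c12945 c326 c3582 c12613 c8704 (k8 c8959 c857 c8120 c5500 c5502 c5544 c10681 c8823 (k2 c3623 c13085 k0)))))))))) (by decide +kernel)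
def c13343 : PP 9 3 T 0x1080000000000000000000008000000000000000000000000000000000000000000001000000000000000000000000000000000 := rS 0x10055c0c388b7f962240b24bdc3f4a7ea34c8478ed6026112588c09b547a0c1a914383f39a121914baf32dbd7667113ac55bb6 (k8 c12877 c5573 c5421 c5570 c5571 c12185 c5477 c5474 (k8 c5325 c5321 c5326 c5478 c13119 c13214 c5369 c5373 (k8 c5374 c5522 c5525 c5526 c13261 c13317 c9734 c12639 (k8 c719 c317 c12635 c5341 c5562 c13324 c2171 c1129 (k8 c13342 c5517 c5333 c5334 c5516 c12645 c3571 c2570 (k4 c858 c313 c10681 c2121 (k2 c3593 c13274 k0))))))) (by decide +kernel)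
def c13344 : PP 9 3 T 0x4000000000082000010080000000000000000040000000100000000000000000400000000000000000001000000000400000000000040000000010010 := rS 0x3fac91a27a13f9cc522765a7cc6793eb1c125f (k8 c5439 c5438 c5357 c5442 c5441 c5355 c5572 c5420 (k8 c5570 c5417 c5419 c5358 c10494 c13126 c13124 c5562 (k2 c2914 c13127 k0))) (by decide +kernel)
def c13345 : PP 9 3 T 0xa6000000080000000000000000040000000000000000000000000000000000000000000000002000000410040000000000000000001010 := rS 0x6f47843c72971a440c031bb41880a899a0f59d36a7412c73e9e4c67159a7d962714ad41fa13f97ce711 (k8 c9727 c5419 c5439 c5358 c10494 c9740 c5422 c5417 (k8 c5570 c5420 c5572 c5574 c5571 c5355 c5441 c5442 (k8 c5357 c5438 c5412 c5529 c8483 c13168 c5871 c13126 (k8 c5645 c847 c848 c1478 c9741 c690 c9793 c4308 (k4 c5432 c13154 c13344 c2752 (k2 c2746 c8385 k0)))))) (by decide +kernel)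
def c13346 : PP 9 3 T 0x2000120080000000000000000040000000100000000000000000000000400001400000000000000050400000000000000000080010010 := rS 0xda03 (k4 c1111 c2316 c5642 c13273 k0) (by decide +kernel)
def c13347 : PP 9 3 T 0x12000001080000000000000000040008000100100000000000000000000000000000000000080000000010000000000000000040010000 := rS 0x19ef77e880723b360dc46d1ef8cc00c46b1a10067378d5e6317a9f4c67159b2d6a6bf6b3508c749a6d33a13f97ce7b63daaf39b3 (k8 c12185 c5211 c8138 c5372 c12877 c5419 c5439 c5358 (k8 c10494 c5447 c5397 c5444 c5357 c13343 c2502 c5541 (k8 c13045 c5422 c5420 c5574 c5571 c5355 c5442 c5477 (k8 c5476 c5325 c5324 c2979 c737 c13195 c5664 c857 (k8 c856 c9744 c2185 c5451 c1706 c9731 c11854 c13273 (k4 c6899 c6897 c5650 c2553 (k2 c343 c13265 (k1 c3587 k0)))))))) (by decide +kernel)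
def c13348 : PP 9 3 T 0x14000001000000000000000000040000000000000000000000000000000000000404000000202000040000000000000000000044000010 := rS 0x23013f002a934bf9e3ed (k8 c5541 c9695 c950 c946 c2452 c12887 c5682 c5642 (k2 c1237 c6197 k0)) (by decide +kernel)
def c13349 : PP 9 3 T 0x101000000000000000000000000000000000000000000000000800000000000000000140000100000000000000000000000000000 := rS 0x113ef (k2 c5507 c1983 (k1 c5673 k0)) (by decide +kernel)
def c13350 : PP 9 3 T 0x10000001080000000000000000000008000000100000045000000000000000000004000000000000000010000004000000000000000000 := rS 0xf7239244000361a202a83390c8af37aecd662756edbda84 (k8 c13343 c5541 c12877 c5573 c5570 c5574 c12185 c5477 (k8 c5325 c5326 c5478 c736 c5682 c13274 c5664 c2448 (k4 c9744 c666 c344 c2422 (k2 c343 c3593 k0)))) (by decide +kernel)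
def c13351 : PP 9 3 T 0x10000000000000000000000000040000000000000000002005000000000000000000000000000000000000000000000000000040000000 := rS 0x4223 (k2 c1237 c2550 (k1 c5650 k0)) (by decide +kernel)
def c13352 : PP 9 3 T 0x2000001080000000000000000040008000100000000000000000000000000000000000000000000000010000000000000000000010010 := rS 0x206ff45aa23afd4687c96f10d9c566cb5afb7427f2f9cd579cda835e68435ed8b7b3 (k8 c12185 c5474 c12877 c13045 c13343 c5325 c2540 c13345 (k8 c5211 c8138 c5419 c5439 c5358 c10494 c5541 c5422 (k8 c5420 c5574 c5571 c5475 c9695 c12638 c13346 c13348 (k4 c13351 c13277 c5682 c13347 (k2 c2452 c2630 (k1 c13350 k0)))))) (by decide +kernel)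
def c13353 : PP 9 3 T 0x10000000000000000000000000040000000000000000000000000000000000001400000000000000050400000000000000000080020010 := rS 0x44cdf153680c471147925239c (k8 c5211 c5374 c3026 c5526 c9727 c152 c1111 c2316 (k4 c1087 c2746 c13295 c3604 k0)) (by decide +kernel)
def c13354 : PP 9 3 T 0x2000001080000000000000000040008000100000000000000000000000000000000000000000000000010000000000000000000000010 := rS 0x207eff9b4a3832f0101ee3b1ca006e20051bc00d17f9b0d0cf80aa0cefd0fa2420f1218d462f53e98ce2b365ad55bed66b1d269b4aa67427f2f9cd579cda835e68435ed8b7b3 (k8 c12185 c5474 c12877 c13045 c13343 c5325 c2540 c13345 (k8 c5211 c8138 c5419 c5439 c5358 c10494 c5447 c5446 (k8 c5397 c5444 c5357 c2502 c5541 c5573 c5422 c5420 (k8 c5574 c5571 c5355 c5442 c5477 c5476 c5324 c5478 (k8 c9695 c13352 c2749 c13353 c13351 c736 c5682 c13274 (k8 c13265 c5664 c2448 c2452 c2024 c9744 c1226 c665 (k8 c666 c11854 c13195 c2470 c340 c343 c700 c5654 (k4 c3587 c544 c545 c7694 (k2 c5504 c2087 (k1 c5694 k0)))))))))) (by decide +kernel)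
def c13355 : PP 9 3 T 0x2000001080000000000000000000008000200000000000000000000000000000000000000000000000010000000000000000000010000 := rS 0x23ad3442355c6837000484104ecd4219d09fcbe73db0cc7e3d (k8 c5436 c5318 c5316 c12877 c5419 c5439 c5358 c10494 (k8 c5393 c5398 c12185 c5438 c12636 c13340 c12632 c12972 (k4 c8135 c1225 c946 c1226 (k2 c2940 c13277 (k1 c13299 k0))))) (by decide +kernel)
def c13356 : PP 9 3 T 0x2000001080000000000000000040008000000000000000000000000000000000000000000000000000010000000000000000000000010 := rS 0xd267373f5021f448400f28dabc4865b3e98f667159b2d6a6b06a11e7a13f97ce7b6 (k8 c12877 c5419 c5439 c5358 c10494 c5325 c13343 c2540 (k8 c13045 c5422 c5420 c5574 c5571 c12185 c5355 c5442 (k8 c5474 c5478 c9695 c13345 c13354 c5432 c13355 c2749 (k4 c13353 c699 c13351 c13195 (k2 c736 c1226 (k1 c5664 k0)))))) (by decide +kernel)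
def c13357 : PP 9 3 T 0x2000100000000000000000000000008000000000000000001000000000400000100004040000010010020000000000000014010410108 := rS 0xd3f7b55afe3570fa3a25208f48aa100a3653df1924c6a1964a543631 (k8 c5476 c5475 c5446 c5396 c5393 c5324 c5444 c3577 (k8 c5492 c9240 c2171 c1056 c5398 c5326 c12640 c12636 (k8 c12632 c13277 c3579 c8310 c10342 c13325 c2996 c5584 (k2 c2940 c5689 k0)))) (by decide +kernel)
def c13358 : PP 9 3 T 0x22000000080000000000000000040000000000000000000000000000000000000000000000000000000400000000000400000000005000 := rS 0x147ace9b53a5f639e4c711 (k8 c9727 c5355 c5441 c5357 c5439 c5412 c5529 c8483 (k2 c13168 c5645 (k1 c691 k0))) (by decide +kernel)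
def c13359 : PP 9 3 T 0x2000001080000000000000000040008000000000000000000000000000000000000000000000000000000000000000000000000000010 := rS 0xf7c64169477dcaf45b7fe70168c4e28461c92e0622556736a243735c7f590984076320f85e5202448751a9700991e2431a86c62093e98f66714fb2c4e2958ab4d7ed07835e6cd4231d26a10cb252ba13f97ce7b6 (k8 c12877 c5419 c5439 c5358 c10494 c5446 c5396 c5393 (k8 c5398 c5444 c5357 c13343 c2502 c5325 c2540 c9740 (k8 c5541 c13045 c5573 c5421 c5417 c5570 c5420 c5572 (k8 c5571 c12185 c5355 c5442 c5438 c5476 c5475 c5324 (k8 c5478 c9695 c13356 c1056 c1126 c2171 c1954 c8464 (k8 c5642 c9240 c1107 c1111 c3577 c493 c13357 c36 (k8 c5558 c2907 c2186 c13310 c2745 c13358 c5211 c8720 (k8 c6197 c2199 c560 c395 c1263 c1262 c704 c2130 (k8 c2790 c5590 c2950 c13311 c1131 c5673 c5504 c8847 (k4 c544 c5579 c2768 c5655 k0)))))))))) (by decide +kernel)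
def c13360 : PP 9 3 T 0x22000001080000000000000000000008000100000000000000000000000000000000000000000000000000000000000000000000010010 := rS 0x448f55948e74da9d88b1cf26335e84fe5f39ed8934a (k8 c13359 c5334 c12877 c5419 c5439 c5358 c10494 c13045 (k8 c5355 c5441 c5357 c5411 c5412 c5529 c8483 c9924 (k4 c9399 c13168 c13157 c13167 k0))) (by decide +kernel)
def c13361 : PP 9 3 T 0x1000000000000002000100000000000000000000000008000000100000000040000000001400000000000001580054050014400001400440000000015400 := rS 0x1cf7c66d167b11acd570c0901123784c8a35798c5ea4b (k8 c12638 c5477 c5476 c5325 c5324 c5326 c2976 c2979 (k8 c12614 c13195 c859 c1716 c1659 c857 c856 c2634 (k4 c2202 c2185 c5451 c6897 (k1 c3587 k0)))) (by decide +kernel)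
def c13362 : PP 9 3 T 0x80000101000000000000000000080000000000000000002000000000000000000000000000044000004000000004000000000100010000 := rS 0x572222825598a44647 (k8 c5520 c5331 c5417 c5574 c12972 c8534 c8141 c1241 (k1 c2835 k0)) (by decide +kernel)
def c13363 : PP 9 3 T 0x101080000000000000000080008000000100000002000000000000000000000000000040000008010000004000000001000000000 := rS 0x694400628b314ed90e841191c42f3 (k8 c5325 c2550 c5520 c5331 c13343 c164 c12877 c5417 (k4 c5574 c8534 c1060 c8141 (k2 c9744 c8411 k0))) (by decide +kernel)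
def c13364 : PP 9 3 T 0x12000001080000000000000000080008000000100000000000000000000000000000000000100000000010000000000000000000010000 := rS 0xae441b4d01200564486e10bf1ff03459f4c671659ad0e0f66b1c76f72482c6e4725835e7a13f97ce7b63da451eabce7b509b3 (k8 c12185 c13343 c5541 c5238 c8138 c5526 c5374 c5372 (k8 c12877 c5419 c5439 c5358 c10494 c5325 c2540 c12638 (k8 c5520 c5518 c5516 c5334 c5333 c5332 c5357 c2502 (k8 c9740 c164 c13045 c5420 c5571 c5355 c5442 c13361 (k8 c2630 c11835 c13350 c2550 c13362 c13363 c5559 c12632 (k4 c12617 c8135 c665 c1226 (k2 c1225 c13282 k0))))))) (by decide +kernel)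
def c13365 : PP 9 3 T 0x10000101080000000000000000080008000000000000000000000000000000000004000000200000000000000000000000000000010000 := rS 0x2112bf00315549a5fc1bd9acc5273db7b446472583508f3 (k8 c5325 c13343 c2540 c12638 c5520 c5331 c5541 c12877 (k8 c5419 c5417 c5574 c12185 c5475 c950 c946 c2452 (k4 c3011 c12887 c5682 c12632 (k2 c2550 c8534 k0)))) (by decide +kernel)
def c13366 : PP 9 3 T 0x2000001080000000000000000000008000100000000000000000000000000000000000000000000000010000000000000000000010010 := rS 0x23a8d55e736bb3f6a13427f2f9cf6d4a (k8 c13359 c12877 c5419 c5439 c5358 c10494 c13343 c5541 (k4 c12185 c13360 c5238 c8138 (k2 c13365 c13277 (k1 c13364 k0)))) (by decide +kernel)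
def c13367 : PP 9 3 T 0x22000001080000000000000000000008000100000000000000000000000000000000000000000000000000000000000000000000020010 := rS 0x7c9219dd09fcbe73db23c1a8479c4c174a (k8 c13359 c5516 c703 c5325 c13343 c2540 c2752 c12877 (k8 c5419 c5439 c5358 c10494 c8483 c13157 c13042 c5589 k0)) (by decide +kernel)
def c13368 : PP 9 3 T 0x1080000000000000000080008000000100500000000000000000000000004000001480000000010000000000000000000000000 := rS 0x1b62a007f1a09701339bc864579bd76671599cd6bb635fb5ee490591e0684 (k8 c13343 c2629 c5520 c5516 c5334 c5333 c5541 c13045 (k8 c12877 c5422 c5419 c5574 c5571 c12185 c5477 c5325 (k8 c5326 c5478 c2979 c737 c3068 c12080 c5664 c3593 (k4 c9744 c3011 c665 c3604 k0)))) (by decide +kernel)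
def c13369 : PP 9 3 T 0x12000001080000000000000000000008000000100400004000000000000000000000000000410000004010000004000000000000000010 := rS 0x80cd8248a885f8f338acc52b535a1f427f2f9cf6c230591e068b55a46239cd9fb5094a (k8 c13359 c13343 c5541 c12185 c5238 c5371 c5374 c8138 (k8 c13368 c2629 c5520 c5516 c5331 c12877 c5419 c5439 (k8 c5358 c10494 c164 c13045 c5422 c5417 c5574 c5571 (k8 c5325 c13350 c2550 c8141 c8534 c3604 c1113 c665 (k1 c5642 k0))))) (by decide +kernel)
def c13370 : PP 9 3 T 0x14000001000000000000000000000000000000000000001000000000000000000000000000002000000010000000000000000000000400 := rS 0x1b0d0a833aaf39ed (k8 c5541 c5238 c8138 c736 c5682 c5664 c2448 c9744 (k1 c665 k0)) (by decide +kernel)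
def c13371 : PP 9 3 T 0x1000400000000000000000000000000000000000000000000000000000002004000000011000000000000504000000000000000000000440000441400000 := rS 0xe53a21 (k4 c2550 c1240 c6897 c3578 k0) (by decide +kernel)
def c13372 : PP 9 3 T 0x400000000092000000080140040000400000000000000104000414000000000000000000000040000081400000002000000018020010000400020008 := rS 0x45e33278dae4aa2e158b577b9c6e06438b92e917a2951a9543a13f97ce759 (k8 c5558 c5419 c5439 c5358 c10494 c5398 c5399 c5449 (k8 c5417 c5575 c13286 c5391 c5390 c5606 c5607 c5611 (k8 c8905 c2663 c269 c1115 c5652 c569 c1298 c2688 (k4 c706 c8902 c6204 c3616 k0)))) (by decide +kernel)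
def c13373 : PP 9 3 T 0x8000000000000092000020080040000000000000000008000104100000000000000000460000000000000000400200002000000058000000000400024408 := rS 0xdd60b65b6ecd44931b27fbe94a7add5dbd87664b0d68e31d7e84be731f9fe2691bde261b0befabd429565ab46640 (k8 c700 c544 c5573 c5420 c5446 c5398 c5584 c9031 (k8 c5587 c5509 c5527 c5375 c5374 c703 c5358 c2907 (k8 c5419 c5439 c10494 c5479 c5476 c5327 c5324 c8156 (k8 c13372 c5348 c5349 c5600 c5602 c5605 c6201 c8941 (k8 c705 c2753 c5677 c1008 c1009 c4259 c3487 c3481 (k2 c1788 c3589 k0)))))) (by decide +kernel)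
def c13374 : PP 9 3 T 0x120000000000000800000000008000004100014000000000000420000000000000000000200000000000040004000000000024400 := rS 0x1b2dd60b6dd9a8926364ff7d294f5babb7b0c6b4718ebc6640 (k8 c700 c544 c5479 c5476 c5327 c5324 c5348 c5349 (k8 c5600 c5602 c5605 c6201 c8941 c705 c2753 c5677 (k4 c1008 c1009 c4259 c3481 (k2 c1788 c3486 (k1 c3589 k0))))) (by decide +kernel)
def c13375 : PP 9 3 T 0x400000000080001100000040000000400100000008000100000014000000000000080000000040050040000000000000000000020000000000000000 := rS 0xd9f8b6dbbadc17961eedc8affedb85ee1562ad (k8 c5573 c5421 c5423 c5575 c5213 c5223 c5431 c5615 (k8 c5639 c5598 c7591 c3625 c1742 c2235 c6463 c5626 (k2 c3339 c5690 k0))) (by decide +kernel)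
def c13376 : PP 9 3 T 0x2000001080000000000000000000008000100100000000000000000000000000000000000000000004010000000000000000000000011 := rS 0x43df327c860caa2e158b7738d7de06437f92e912f676948c70dec39603840708949480789146a1b3e98ce22714ac41ea327936b23f3ddef13f37f91dee4986c2cd9e362998d2616805c05df57fb9124350b5d16ab48c473913478351a5bd09fcbe733aa5596addb3f36a1005ecc6e230f8ee94994d86526cd63fb508f3 (k8 c5325 c13343 c5541 c5357 c2502 c5444 c5393 c5397 (k8 c5447 c13359 c5332 c5517 c5331 c5518 c12185 c5516 (k8 c13366 c13367 c13370 c12877 c5573 c5420 c5446 c5440 (k8 c5419 c5439 c5358 c10494 c5474 c701 c2540 c2752 (k8 c703 c5238 c5371 c5374 c8138 c13368 c13349 c5398 (k8 c5478 c2749 c5673 c5584 c9031 c5642 c1107 c13371 (k8 c5445 c9744 c5664 c733 c8136 c5871 c5587 c5509 (k8 c5334 c5333 c5520 c11835 c12736 c5527 c5375 c5372 (k8 c2907 c5558 c5521 c5335 c5449 c9740 c5421 c5417 (k8 c5570 c5571 c5355 c5442 c5475 c5324 c5326 c9695 (k8 c13195 c13369 c1113 c1716 c700 c3582 c263 c4565 (k8 c8355 c2510 c3801 c13373 c13374 c13372 c13375 c5391 (k8 c5389 c5606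 c5607 c5609 c5611 c8905 c269 c1115 (k8 c5652 c569 c1252 c589 c706 c740 c2040 c3615 k0)))))))))))))) (by decide +kernel)
def c13377 : PP 9 3 T 0x8004000000000000000000080000000000000000000000000100000000000000000000400010000000000000100000000000000000050000000000020000 := rS 0x1a43c409f4ee75aca247e7f (k8 c5358 c2907 c2749 c5558 c5440 c5356 c5442 c700 (k2 c5655 c5861 (k1 c2768 k0))) (by decide +kernel)
def c13378 : PP 9 3 T 0x1000000000000086000020080000000000000000000008000104101014046040000000420000000044000000000000000000000055420440002440025408 := rS 0x2cc80c3a580c9c1cc0086451abd58e57498653699d09cc7e7f47c4cf691bde25522179f7d429565ab42e5f (k8 c5439 c1107 c5573 c5420 c5446 c5398 c9031 c5325 (k8 c2550 c135 c5527 c5375 c5374 c5372 c703 c2752 (k8 c5358 c2907 c5419 c10494 c5447 c5397 c5393 c5444 (k8 c5353 c5357 c5477 c5324 c5326 c5478 c3593 c546 (k4 c3578 c10699 c10719 c4123 (k2 c1734 c13287 (k1 c13374 k0))))))) (by decide +kernel)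
def c13379 : PP 9 3 T 0x120000000000000800000000008000000101004000000000000000000000000000000000000008400000050000000000540024410 := rS 0x2e576b716afb0124fbe364fa5298af5651b78bf1323 (k8 c5009 c5527 c5347 c5349 c5350 c5600 c5601 c5605 (k8 c6201 c705 c2753 c8941 c5677 c3097 c3096 c3235 (k4 c3238 c1157 c1304 c3585 k0))) (by decide +kernel)
def c13380 : PP 9 3 T 0x12002000080100040000400000000000000004000400000000000000000000100000000001400000002000000058000000012000020008 := rS 0x11993c6cab17172e4562d5dee71b8190e2e4b59 (k8 c5558 c5391 c5390 c5606 c5607 c5611 c8905 c2663 (k8 c269 c1115 c7180 c5652 c6204 c569 c2688 c706 (k2 c8902 c3616 k0))) (by decide +kernel)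
def c13381 : PP 9 3 T 0x2000001080000000000000000000008000100100000000000000000000000000000000000000000000010000000000000000000000011 := rS 0x6925f0fb8d2d9c944091890dcd0f1b142e6636008d2355e8a5626b07b358e935186536614c8ec3e237b9249e3723936b303bde2442ff86b5617df57fb942d74696cea9565ab62afc43a2d569188e736bb3f6c4c168f06a11e74a4484087a13f97ce7b6 (k8 c12877 c5419 c5439 c5358 c10494 c5478 c13366 c2749 (k8 c13359 c5325 c13343 c2540 c2752 c5516 c703 c5541 (k8 c12185 c13367 c5238 c5371 c5374 c8138 c13368 c164 (k8 c13370 c8141 c5573 c5420 c5446 c5440 c5474 c701 (k8 c13349 c5398 c5673 c5584 c9031 c5587 c5585 c5509 (k8 c11835 c2550 c5527 c5375 c2629 c5558 c5521 c5520 (k8 c5518 c5335 c5334 c5333 c5331 c5517 c5332 c5447 (k8 c5445 c5397 c5393 c5449 c5444 c5357 c2502 c9740 (k8 c13045 c5421 c5417 c5575 c5324 c9744 c5642 c5871 (k8 c5664 c1107 c733 c8136 c13371 c13376 c2745 c5009 (k8 c13377 c13378 c13379 c13380 c5213 c5429 c13372 c9617 (k1 c13375 k0)))))))))))) (by decide +kernel)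
def c13382 : PP 9 3 T 0x2000001080000000000000000000008000100100000000000000000000000000000000000000000000010000000000000000000000010 := rS 0xda6f00455167159ad4d687d09fcbe73db04d124347835e71388a45579cf6bf36a1005d2909b3 (k8 c12185 c13343 c13359 c5516 c13366 c13367 c13370 c5541 (k8 c5238 c8138 c5374 c5371 c703 c5325 c2540 c2752 (k8 c5478 c2749 c36 c12877 c5419 c5439 c5358 c10494 (k8 c164 c13045 c5422 c5574 c5571 c13368 c8141 c13381 (k2 c1061 c665 (k1 c3604 k0)))))) (by decide +kernel)
def c13383 : PP 9 3 T 0x2000001080000000000000000000008000100000000000000000000000000000000000000000000000010000000000000000000000010 := rS 0x6c339be2a8a80fbe38fc48c4739b589a3d128d0810cb7b338acd6a6bf683508f3d09fcbe73db3dc174a (k8 c13359 c5516 c5333 c12877 c5419 c5439 c5358 c10494 (k8 c5325 c13343 c2540 c5541 c13045 c5422 c5574 c5571 (k8 c12185 c5474 c5478 c13366 c701 c2749 c2752 c703 (k8 c13367 c5238 c5371 c5374 c13370 c13382 c5504 c2139 (k4 c5673 c1242 c2979 c737 (k2 c3604 c2553 k0)))))) (by decide +kernel)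
def c13384 : PP 9 3 T 0x2000001080000000000000000000008000000000000000000000000000000000000000000000000000020000000000000000000000010 := rS 0x729d1085fc002da805e21b2f9afda0d423cd26194da64761f11bdc6f4a (k8 c13359 c5518 c5333 c5331 c5517 c5332 c5447 c5397 (k8 c5393 c5444 c5325 c13343 c2540 c5541 c13045 c5439 (k8 c5475 c9695 c1056 c12375 c5642 c12388 c1107 c265 (k2 c5458 c5534 (k1 c3578 k0))))) (by decide +kernel)
def c13385 : PP 9 3 T 0x2000001080000000000000000000008000000000000000000000000000000000000000000000000000000000000000000000000000010 := rS 0xceed65065a56cfda84 (k8 c13343 c5541 c12185 c13359 c13384 c13383 c9578 c13294 (k1 c5238 k0)) (by decide +kernel)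
def c13386 : PP 9 3 T 0xa0000200000000000000000000040000000000000000000000000000000000000000000000000000000400000000000000000000015000 := rS 0x52433a71599cd6b11 (k8 c5411 c5422 c5419 c5574 c5571 c8114 c13067 c5645 (k1 c694 k0)) (by decide +kernel)
def c13387 : PP 9 3 T 0x20000011080000000000000000040008000100000000000000000000000000000000000000000000000010000000000000000000010010 := rS 0x44be46f47fbd12d31fa5c66920ba44720a1a97d8e7938acc4eb556fb762c93b98e229d4c864063d3e904131dd0835e60f35a34d06d426cce7b6 (k8 c12877 c5419 c12185 c13343 c5529 c5871 c946 c13045 (k8 c9740 c5325 c2540 c13386 c13277 c5438 c12636 c5442 (k8 c12640 c9741 c9701 c5530 c5412 c5411 c5355 c5356 (k8 c12308 c13385 c5541 c5573 c5422 c5570 c5574 c5571 (k8 c5441 c5357 c5439 c5324 c5645 c2470 c694 c10373 (k8 c5648 c12859 c1637 c326 c13297 c13299 c13298 c2547 (k4 c1226 c5191 c8385 c5547 k0))))))) (by decide +kernel)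
def c13388 : PP 9 3 T 0x20000001080000000000000000040008000100000000000000000000000000000000000000080000000010000000000000000000010010 := rS 0x1a2371cf81ee33490ee041712c499e6f09fbc8a3518bd4be093e9fce2b365ad59ac7d8b24ee6388c54429900064071dd0835e60f35a34d06d426cce7b63da451f9c (k8 c13387 c5526 c5374 c5372 c12877 c5419 c12185 c13343 (k8 c5529 c5871 c946 c13045 c9740 c5325 c2540 c13386 (k8 c13277 c9741 c9701 c9744 c5530 c5528 c5414 c5411 (k8 c5355 c5356 c12308 c13385 c5357 c2502 c5422 c5420 (k8 c5574 c5571 c5358 c5442 c5438 c5439 c5477 c5476 (k8 c5324 c5326 c5583 c2976 c2979 c12870 c8385 c12972 (k8 c13217 c859 c13228 c5648 c12859 c2195 c9007 c324 (k2 c1567 c5459 (k1 c3587 k0))))))))) (by decide +kernel)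
def c13389 : PP 9 3 T 0x101080000000000000000000008000100100000000000000000000000000000000000040000000210000000011000000000400010 := rS 0x1ef44b4c7e9719a486a0913ab762c9d99dcc68d39ed83203 (k8 c9741 c9701 c12877 c5419 c946 c5355 c5356 c12185 (k8 c12308 c13385 c5573 c5570 c5438 c5324 c5648 c12859 (k4 c1637 c326 c13297 c13299 (k2 c13298 c5673 k0)))) (by decide +kernel)
def c13390 : PP 9 3 T 0x20000001080000000000000000040008000100000000000000000000000000000000000000000000000010000000000000000000010010 := rS 0x19bd88f0124d64701e1d893c2930b3fe068b479ef391d259047ba12191436f52f8258e7d3c98ce2b365ad4d60f06bce229d10a64008d39ed83203341b509b3 (k8 c12185 c13343 c5529 c5871 c9741 c9701 c12877 c5419 (k8 c946 c9744 c5530 c5528 c5412 c5411 c5325 c2540 (k8 c9740 c13045 c5422 c5420 c5574 c5571 c5355 c5441 (k8 c5442 c5357 c5438 c5439 c5477 c5475 c5326 c5478 (k8 c13386 c12640 c12636 c12638 c13277 c13387 c5372 c5526 (k8 c13388 c2630 c11835 c13389 c55 c10515 c13221 c1676 (k8 c13171 c12337 c5559 c10629 c6743 c2477 c3593 c12301 (k1 c397 k0)))))))) (by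 decide +kernel)
def c13391 : PP 9 3 T 0x20000201080000000000000000040008000100000000000000000000000000000000000000000000000010000000000000000000000010 := rS 0x1eb5466926785da7ef6bc74824b1ca2a00d1f98288e90cec4c86451a96c625f04b1cf27159a7c52735aed8d60f06bcf62c93b98e229d8aa640019019a0da84d98fc207f (k8 c5358 c13390 c2907 c12185 c13343 c5529 c5871 c9741 (k8 c9701 c9744 c5530 c5414 c5412 c5411 c5355 c5356 (k8 c12308 c13385 c5325 c2540 c9740 c13045 c12877 c5422 (k8 c5419 c5417 c5572 c5574 c5571 c5441 c5357 c5438 (k8 c5439 c5476 c5474 c5324 c5326 c5478 c5382 c8114 (k8 c13067 c12800 c5645 c5589 c9793 c850 c849 c2470 (k8 c2588 c10205 c2140 c2145 c5583 c2938 c10373 c12870 (k4 c5648 c12859 c3073 c1569 (k1 c3588 k0))))))))) (by decide +kernel)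
def c13392 : PP 9 3 T 0x20000110000000000000000100040000000000000000000000000000000000001400000000400000054400000001000000000000005000 := rS 0x11348fc81511 (k4 c5411 c5645 c5221 c695 (k2 c5547 c8385 k0)) (by decide +kernel)
def c13393 : PP 9 3 T 0x20000001080000000000000000040008000100000000000000000000000000000000000000000000000010000000000000000000000010 := rS 0xd680471eddf67b55889420183c69b68f80764a23fce24913de706e39198f49292d09bd1e3fac84c203518bd4be093e9fcc67159a7d96735aed8d60f06bcd9ac7d8c453b1510a640600341b509b3 (k8 c12185 c13343 c5529 c5871 c9744 c9741 c5530 c5528 (k8 c5414 c5412 c5411 c13385 c5357 c2502 c5325 c2540 (k8 c9740 c13045 c12877 c5422 c5419 c5420 c5572 c5574 (k8 c5571 c5355 c5358 c5442 c5438 c5439 c5477 c5476 (k8 c5324 c13390 c36 c5558 c2907 c2752 c2746 c13391 (k8 c13233 c12637 c1569 c12292 c324 c1567 c13392 c5372 (k8 c5374 c8385 c5547 c12623 c704 c13228 c6327 c5459 (k8 c5536 c6706 c10443 c5655 c831 c830 c1656 c1587 (k4 c5451 c3587 c8188 c565 (k2 c5778 c2145 k0)))))))))) (by decide +kernel)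
def c13394 : PP 9 3 T 0x20000001080000000000000000000008000100000000000000000000000000000000000002000000000010000000000000000000000010 := rS 0x3919b3d25ef3da29a2357996c62f52f824f26b66b1f62c93b98e229d10a64006836a13663b0fbdc6f4a (k8 c13393 c5518 c5333 c5517 c5332 c12185 c13343 c5529 (k8 c5871 c9744 c5530 c5528 c5412 c5411 c5355 c5356 (k8 c12308 c13385 c5357 c2502 c13045 c5441 c5438 c5439 (k8 c5477 c5476 c5474 c5325 c5324 c9793 c849 c848 (k4 c5583 c13171 c12870 c12292 (k2 c324 c3587 k0)))))) (by decide +kernel)
def c13395 : PP 9 3 T 0x5000000080000000000000000080000000100000100000000000000000100000000001100002000001400000000000001000001800012 := rS 0x97efb41887acea55265f639e4c61f (k8 c5517 c5355 c5441 c5357 c5439 c55 c1461 c12376 (k4 c13171 c847 c848 c5451 (k2 c9368 c5678 k0))) (by decide +kernel)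
def c13396 : PP 9 3 T 0x20000001080000000000000000000008000100000000000000000000000000000000000000000000000010000000000000000000010010 := rS 0x45c748212228251b59d0a456a73599c47a920bd2800994ec459277319ac6219019a0da84d9ec53fb6 (k8 c12877 c5572 c13385 c12185 c13343 c5529 c5871 c9741 (k8 c9701 c5476 c13045 c5355 c5356 c12308 c5411 c5412 (k8 c5530 c9744 c13393 c13395 c5648 c1569 c5571 c5574 (k8 c5419 c5422 c13394 c13067 c9399 c946 c5438 c5326 (k4 c12617 c12636 c13277 c2976 (k1 c13389 k0)))))) (by decide +kernel)
def c13397 : PP 9 3 T 0x20000001080000000000000000000008000100000000000000000000000000000000000000000000000010000000000000000000000010 := rS 0x11337a3c209105d28066836c476671599cd6bb63583508f3 (k8 c5325 c13343 c2540 c13045 c12877 c5422 c5419 c5574 (k8 c5571 c12185 c5411 c5529 c5871 c9741 c13393 c5516 (k4 c13394 c13396 c2752 c2746 (k2 c703 c8385 k0)))) (by decide +kernel)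
def c13398 : PP 9 3 T 0x14000000000000000000000000040000000000000000000005000000000000000004000000002000000110000000000000000000000010 := rS 0xfc0faa4d9ed (k4 c5541 c5871 c2449 c2316 (k2 c5682 c13351 k0)) (by decide +kernel)
def c13399 : PP 9 3 T 0x14000200000000000000000000040000000000000100000005000000000000001404000001402000051400000000000000004400000000 := rS 0xf925f91454fb6266f (k8 c5565 c5382 c5541 c2448 c3604 c5682 c13085 c1087 (k1 c13351 k0)) (by decide +kernel)
def c13400 : PP 9 3 T 0x15000200080000000000000000040008000100000100000001000000000000001414000001402000050410000000000000004000000010 := rS 0x4bf73fe02f72392550fd10028d8230019cd1f3f010c8af37afb60713 (k8 c5382 c2629 c5541 c5477 c5325 c5326 c5478 c5225 (k8 c11668 c13398 c125 c9744 c9731 c13399 c665 c666 (k8 c2553 c833 c344 c2422 c343 c13274 c2452 c5694 (k2 c2588 c5996 k0)))) (by decide +kernel)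
def c13401 : PP 9 3 T 0x201080000000000000000000008000100000000000000000000000000000000000000000000000110000000000000000000000010 := rS 0x3fe384a08fcc7c250ba4d165901198d8012e86cbe09639f4f27f3b9d53e2907835028d099bd13038987c46f7248dc8f5910bf0174a55a3d2311ce7b7626b56ad4e627599c76cf1daa1366f3 (k8 c5325 c12185 c13343 c13397 c9695 c12877 c5571 c5574 (k8 c5570 c5419 c5422 c5573 c13045 c13385 c5541 c5238 (k8 c5371 c5374 c5526 c8138 c13400 c5516 c13370 c2550 (k8 c12110 c5520 c5518 c5334 c5333 c5331 c5517 c5382 (k8 c2629 c5567 c5565 c5564 c5381 c5380 c2540 c9740 (k8 c5417 c5572 c5440 c5356 c5358 c5441 c5442 c5357 (k8 c5438 c5439 c5475 c5321 c12887 c5871 c5664 c5642 (k8 c13090 c737 c261 c1107 c1113 c13099 c8140 c2907 (k4 c12614 c12681 c2568 c6335 k0))))))))) (by decide +kernel)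
def c13402 : PP 9 3 T 0x201080000000000000000000008000100000000000000000000000000000000000000000000000010000000000000000000000010 := rS 0x1aed5f13112841304740cfff98e4663f1ec51246d001a042a97e5648e3705925ee1f1dd2a066f09c4d02f12f8258e7d3c9fcae6338acd3ecb139cd6aaddb1ac1e0d79ec6227b48a3d579cdafb509b3 (k8 c12185 c13343 c5541 c13397 c5238 c8138 c5526 c5374 (k8 c5372 c5371 c13385 c5325 c2540 c9740 c13045 c12877 (k8 c5573 c5422 c5419 c5570 c5420 c5572 c5574 c5571 (k8 c5355 c5353 c5358 c5441 c5442 c5357 c5438 c5439 (k8 c9695 c5380 c5382 c5564 c5565 c2629 c13400 c5332 (k8 c5517 c5333 c5334 c5516 c5518 c5520 c12110 c13370 (k8 c135 c2550 c13401 c9744 c833 c13091 c3604 c1569 (k8 c326 c12292 c324 c5590 c3011 c10699 c6335 c1563 (k4 c1734 c831 c830 c5655 (k2 c1589 c1765 (k1 c6627 k0))))))))))) (by decide +kernel)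
def c13403 : PP 9 3 T 0x1080000000000000000040008000100000000000000000000000000000000000000000000001010000000000000000000000010 := rS 0x8a44e026f45225a71d208fc7a971984524170f40c42fc548d4be093c9c5669f13ad55a6b649dcc7113da451fa1f06c51a73db064066855e73dbb5426cde6f1 (k8 c9695 c5325 c12185 c13343 c13397 c5541 c5238 c8138 (k8 c13398 c9741 c9701 c12877 c5419 c946 c13385 c5225 (k8 c13402 c5526 c5374 c5372 c5371 c5355 c5356 c12308 (k8 c13045 c5573 c5422 c5570 c5572 c5574 c5571 c5441 (k8 c5438 c5439 c5324 c2448 c5682 c2550 c2631 c13351 (k8 c10515 c12220 c13353 c12859 c1637 c1569 c326 c12636 (k8 c13277 c13297 c13299 c13389 c1226 c3068 c859 c3604 (k1 c1242 k0)))))))) (by decide +kernel)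
def c13404 : PP 9 3 T 0x1080000000000000000040008000100000000000000000000000000000000000008000000000010000000000000000000000010 := rS 0x33c6e334b8d41263d887d50f7101b0006879bc5579cdafb509b3 (k8 c12185 c13343 c5541 c13397 c5238 c8138 c9695 c5325 (k8 c13398 c9744 c13403 c666 c343 c833 c2316 c13385 (k8 c5355 c5438 c5324 c1637 c12292 c1568 c2451 c13088 k0))) (by decide +kernel)
def c13405 : PP 9 3 T 0x1080000000000000000040008000100000000000000000000000000000000000000000000000010000000000000000000000010 := rS 0x121bda758457be051d25858226149bfc92a87e880d819468000667343c462f52f9f4fe7159b2c4e73db035e6cd63ec5927731aaf39b5f6a1367a1 (k8 c13402 c12185 c13343 c5541 c13397 c5238 c8138 c5355 (k8 c5356 c12308 c13385 c5357 c2502 c5325 c2540 c12877 (k8 c5419 c5570 c5420 c5574 c5571 c5358 c5442 c5439 (k8 c5477 c5476 c9695 c13398 c125 c9741 c9744 c946 (k8 c9701 c13403 c666 c2553 c833 c344 c2452 c13404 (k8 c662 c13233 c5648 c12638 c13277 c13350 c5508 c2630 (k4 c7820 c2087 c2979 c12950 (k1 c5559 k0)))))))) (by decide +kernel)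
def c13406 : PP 9 3 T 0x11000100000000000000000000000000000100000000000000000000000040000400004005400051002000000008000040010400401400 := rS 0x408fe261009d648218 (k8 c5648 c543 c5342 c301 c12638 c12633 c2907 c700 (k1 c13099 k0)) (by decide +kernel)
def c13407 : PP 9 3 T 0x1080000000000000000000008000100000000000000000000000000000000000000000000000110000000000000000000000010 := rS 0x234202425c542e9345808cc8936004865b0d97c12c73e9e4fe7159a7c52addb21c1bb148a3f39edd088c6e4710bf0174adaa1366f3 (k8 c5325 c12185 c13343 c13397 c13405 c5516 c13370 c2550 (k8 c5520 c5518 c5331 c13402 c5541 c5238 c5526 c5374 (k8 c13385 c2540 c164 c12877 c5573 c5417 c5572 c5574 (k8 c5571 c5358 c5441 c5442 c5357 c5438 c5439 c5475 (k8 c5474 c5478 c12887 c5871 c8134 c5664 c5642 c737 (k8 c261 c1107 c8141 c13406 c8534 c12632 c701 c13232 k0)))))) (by decide +kernel)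
def c13408 : PP 9 3 T 0x1080000000000000000080008000000100100040000000000000000000004000001480000000010000000000000000000000000 := rS 0x112 (k2 c13368 c859 k0) (by decide +kernel)
def c13409 : PP 9 3 T 0x1080000000000000000000008000100000000000000000000000000000000000000000000000010000000000000000000010010 := rS 0x96ef27133e1498902c6e45c7496411e97c12c73e9e4c66b4383763113da451eabce7b7421f10bce06b5469cf6c6d342a5f80ba56d509b3 (k8 c12185 c13343 c13397 c13405 c5516 c13370 c135 c13407 (k8 c833 c12877 c5419 c946 c5422 c2631 c5325 c2550 (k8 c5517 c13402 c5541 c5238 c8138 c5526 c5374 c5372 (k8 c5371 c13385 c2540 c164 c13045 c5355 c5441 c5442 (k8 c5357 c5438 c5439 c12640 c12636 c12638 c13277 c13408 (k8 c13362 c13389 c13363 c55 c10515 c1464 c13169 c5195 (k2 c10719 c5452 k0))))))) (by decide +kernel)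
def c13410 : PP 9 3 T 0x1080000000000000000000008000100000000000000000000000000000000000000000000000010000000000000000000000010 := rS 0x45402291337a24206d019a152fc05d2b42ab47a46239cda90f6671599cd6bb635fb50e84 (k8 c13343 c164 c5541 c13045 c12877 c5422 c5419 c5574 (k8 c5571 c12185 c5478 c13397 c5238 c5371 c5374 c5526 (k8 c8138 c13402 c13405 c5516 c13370 c135 c13407 c9741 (k8 c833 c13409 c2749 c2746 c703 c3604 c9222 c8141 (k1 c3068 k0))))) (by decide +kernel)
def c13411 : PP 9 3 T 0xa0000200000000000000000000000008000000000000000001000000000000000000000000002000000420000000000000000000000010 := rS 0x920a8e40d219d3784e26432286ce2b3149cd62b55683c1af30ec45074b (k8 c12375 c128 c1270 c1954 c5325 c2540 c9740 c5573 (k8 c5422 c5421 c5419 c5417 c5574 c5571 c5475 c5326 (k8 c5478 c5382 c5564 c5565 c8114 c13067 c2629 c9423 (k2 c5645 c514 (k1 c695 k0))))) (by decide +kernel)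
def c13412 : PP 9 3 T 0x101080000000000000000000008000000001000000080000000000000000000000000110000000000000000000000000550010001 := rS 0x8d582484e03ef5740c4b1d25bc486450dacc4e2958ad55bb6f683508f3 (k8 c5325 c13343 c2540 c5541 c12877 c5573 c5422 c5421 (k8 c5417 c5570 c5574 c5475 c5326 c5478 c9695 c12638 (k8 c13277 c12632 c2195 c3582 c5584 c3070 c8818 c13257 (k2 c12617 c3584 (k1 c5562 k0))))) (by decide +kernel)
def c13413 : PP 9 3 T 0x25000101000000000000000000040000000000000100000084000000001040001400000001590051150424400000010000000002025000 := rS 0xa3d675c2df71a8078243744da6ab8a9b47623aca060649 (k8 c3026 c2196 c700 c5558 c5409 c491 c5529 c5414 (k8 c5413 c2938 c859 c8385 c2745 c1167 c1166 c13235 (k4 c13234 c3060 c5864 c3610 (k2 c5645 c691 k0)))) (by decide +kernel)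
def c13414 : PP 9 3 T 0x21000101080000000000000000040008000000000000000080000000000000000000000001010000000020000000000000000002020000 := rS 0x47f992e011d7ffb95e8b81924865f3e9e4fe633aecce2b339ad55bed07835e6cd63a3562fd35aa6228347a108229db2ae2b59 (k8 c5558 c5414 c5413 c12877 c5417 c543 c13343 c2547 (k8 c128 c1270 c1957 c13045 c1128 c5421 c2171 c5357 (k8 c2502 c5325 c2540 c9740 c5541 c5573 c5422 c5419 (k8 c5574 c5571 c12185 c5440 c5355 c5358 c5441 c5442 (k8 c5439 c5478 c3026 c2196 c13413 c1131 c8120 c11835 (k4 c5504 c9083 c564 c5592 (k2 c2790 c5660 k0))))))) (by decide +kernel)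
def c13415 : PP 9 3 T 0x20000001080000000000000000000008000100000000000000000000000000000000000000000000000000000000000000000000000010 := rS 0xbce925215909843434b7b45446f107a35fa1d44ac4e3b60f9ac420d423cc30172fa4c04013206c13b1 (k8 c13385 c5438 c5475 c13410 c1056 c5642 c261 c5439 (k8 c1107 c5648 c5325 c13343 c2540 c265 c13045 c1111 (k8 c12877 c5571 c5421 c8464 c1954 c1128 c2171 c9740 (k8 c9695 c5409 c5414 c12418 c12375 c13411 c13412 c36 (k4 c5558 c13414 c12637 c5374 (k2 c695 c5645 k0)))))) (by decide +kernel)
def c13416 : PP 9 3 T 0x1000000000000095000220080000000000000000000008000100000000040001000000000000000000000000400000000020000000000000000040005010 := rS 0x102382dee2325d2893011fd67de258e1bc27134090c8af32f9d452ad46ac43a21010043691 (k8 c5374 c5475 c1056 c5642 c265 c1954 c5421 c2171 (k8 c5573 c5417 c5440 c5439 c5325 c5326 c5478 c5380 (k8 c5382 c5564 c5565 c9423 c1113 c5504 c5341 c13098 (k8 c10477 c514 c13103 c9182 c5331 c5333 c5516 c5520 (k2 c12652 c13315 k0))))) (by decide +kernel)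
def c13417 : PP 9 3 T 0x5000000000000000000000000000000000000000000048000000800000000000080000000000000100020400000000000000000000000 := rS 0xefb259cd5 (k4 c1663 c2574 c1183 c5453 (k1 c10944 k0)) (by decide +kernel)
def c13418 : PP 9 3 T 0x5000000000000000000000000000000000000000000000000000000000000000080000000100200100020400000000000000000000000 := rS 0x1df64b11aa8a (k4 c1131 c1659 c856 c1183 (k2 c5451 c10944 k0)) (by decide +kernel)
def c13419 : PP 9 3 T 0x15000120080000000000000000040008000100000000000000000000000000000108000000400000010020000000000000010040000010 := rS 0x205c7137f2295c258eb7dc211f017cfa793aa3404010d9ed2303 (k8 c2199 c5374 c5372 c5475 c1056 c5642 c2171 c5440 (k8 c5441 c5442 c5439 c5225 c13309 c5460 c5538 c13277 (k8 c12632 c12515 c1131 c1287 c859 c13417 c13418 c5846 k0))) (by decide +kernel)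
def c13420 : PP 9 3 T 0x1080000000000000000000008000100000000000000000000000000000000000000000000000000000000000000000000010010 := rS 0x44e028a570963a4b21915ea8d7ea45ee490591e95a181835e60f78aab39edda87c04010d9ad1e894219362b1149c76db3 (k8 c12185 c12877 c5571 c5417 c5421 c13385 c13410 c13343 (k8 c8464 c2547 c13045 c5475 c1056 c5642 c1111 c13415 (k8 c5541 c5238 c8720 c9695 c9740 c5325 c2540 c2199 (k8 c13416 c13419 c5520 c5516 c5334 c5333 c5374 c1128 (k8 c2171 c5477 c5326 c5478 c12638 c13277 c12632 c12515 (k4 c1131 c3071 c859 c12649 k0)))))) (by decide +kernel)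
def c13421 : PP 9 3 T 0x1080000000000000000000008000100000000000000000000000000000000000000000000000000000000000000000000000010 := rS 0x6477935e17037dc6a01e44c48810811c6e0b24bdc474ad0c0d227b556736a410c0843e1749a3c048900991e21b2f824fa79d99c452b1db1afda0f06a11e7b1 (k8 c13385 c5325 c13343 c2540 c9740 c5541 c13045 c12877 (k8 c5421 c5417 c5571 c12185 c5441 c5442 c5438 c5439 (k8 c5475 c9695 c13410 c1056 c8464 c5642 c2547 c261 (k8 c1107 c1111 c265 c5648 c543 c13415 c5238 c8720 (k8 c5372 c5374 c2199 c13416 c13419 c5331 c5333 c5334 (k8 c5516 c5518 c5520 c13420 c700 c13315 c703 c1167 (k8 c1166 c1493 c2770 c5846 c5460 c3061 c5195 c1189 (k1 c5494 k0)))))))) (by decide +kernel)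
def c13422 : PP 9 3 T 0x24000200000000000000000000000000000000000000000000000000000440001400004000002051050414440000000000000000001040 := rS 0x38fc2a04d184f60068b7fe66848264db154ec45026f (k8 c5565 c5380 c5411 c5412 c5414 c5529 c5530 c13067 (k8 c5871 c5589 c2948 c9793 c9744 c848 c661 c10253 (k4 c3599 c5536 c2621 c10309 k0))) (by decide +kernel)
def c13423 : PP 9 3 T 0x201080000000000000000000008000000000000000000000000000000000000000000000000000010000000000000000000000010 := rS 0x3793ae38afc88e4925b84400a4da80d86111800d14b55a44f711ce6d6b28f37c4d02f12d97d8e7d3c9fcc7b338acd3ecb139cd6bb635fb41a8479ec40f28 (k8 c13421 c5432 c13385 c5325 c13343 c2540 c5541 c13045 (k8 c12877 c5422 c5419 c5570 c5420 c5572 c5574 c5571 (k8 c12185 c5355 c5358 c5441 c5442 c5357 c5439 c5474 (k8 c9695 c5380 c5382 c5565 c5568 c12891 c13422 c5238 (k8 c5371 c5372 c5374 c8138 c13294 c13398 c9744 c9731 (k8 c661 c13399 c3599 c2492 c665 c666 c3061 c2588 (k8 c344 c2422 c5660 c6578 c5549 c1277 c5846 c13097 k0))))))) (by decide +kernel)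
def c13424 : PP 9 3 T 0x25000100080000000000000000000008000000000000000000000000001500001410000001400000050600000000005004000000010840 := rS 0x4434cdc9771f85347b2fb1cfa793f98e229d36a64c200208263a8d (k8 c946 c13277 c5438 c12636 c9744 c661 c5530 c5529 (k8 c5412 c5411 c5355 c5358 c5441 c5442 c5357 c5439 (k8 c690 c10374 c5536 c2621 c1232 c13253 c13297 c1226 (k1 c13299 k0)))) (by decide +kernel)
def c13425 : PP 9 3 T 0x25000100080000000000000000040008000200000000000000000000001500001410000001400000050600000000000000000000015000 := rS 0x221a66e4bb8fc29a3d8eb380b2fb1cfa7f318cc7e371ec453a6d4c9840007208263a8d (k8 c946 c13277 c5438 c12636 c5432 c9744 c661 c5530 (k8 c5529 c5412 c5411 c5436 c5435 c5318 c5316 c5355 (k8 c5358 c5442 c5357 c5439 c13424 c5645 c6200 c5372 (k8 c10443 c5456 c1773 c1232 c13253 c13297 c1226 c13299 k0)))) (by decide +kernel)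
def c13426 : PP 9 3 T 0x20000001080000000000000000040008000000000000000000000000000000000000000001000000000010000000000000000000010010 := rS 0xcf697bd10fe47474820938acd96b5569ac1e0d79b358fb1198fc7b28649dcc7a14ca34d06d426cce7b6 (k8 c12877 c5419 c12185 c13343 c5529 c5871 c946 c5530 (k8 c13423 c5355 c5356 c12308 c13421 c5436 c5318 c5316 (k8 c13385 c5357 c2502 c5325 c2540 c9740 c13045 c5573 (k8 c5422 c5420 c5574 c5571 c5438 c12636 c13277 c13425 (k4 c2546 c2547 c5586 c13299 (k2 c12870 c2943 k0)))))) (by decide +kernel)
def c13427 : PP 9 3 T 0x20000001080000000000000000040008000000000000000000000000000000000000000001000000000010000000000000000000000010 := rS 0x38fc2dff9a694112ce204926f47d64205f639f4fe6338acd96735aed8d60f06bcf43114ec55320330800d06d426cc0f28 (k8 c13421 c5432 c12185 c13343 c5529 c5871 c9744 c661 (k8 c9741 c5530 c5414 c5412 c5411 c13423 c5325 c2540 (k8 c9740 c13045 c12877 c5422 c5419 c5420 c5574 c5571 (k8 c5355 c5358 c5442 c5357 c5439 c13426 c5558 c2752 (k8 c2746 c3026 c699 c13392 c8385 c9215 c10443 c5547 (k4 c2512 c5536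 c2621 c10309 k0)))))) (by decide +kernel)
def c13428 : PP 9 3 T 0x101000000000000000000000000000000000000000000000000000000000000000002002000000000000000000000000000000000 := rS 0x89a3fe79d (k4 c5374 c5589 c165 c198 (k1 c13042 k0)) (by decide +kernel)
def c13429 : PP 9 3 T 0x20000001080000000000000000000008000000000000000000000000000000000000000000000000000010000000000000000000000010 := rS 0x25d2bdf68310f59d058ee9461001a0db112f8258e792b83c1af3d88e40e3794327667731a474284 (k8 c13343 c13423 c13428 c5355 c5356 c12185 c12308 c13421 (k8 c5435 c5432 c5317 c13385 c5325 c2540 c9740 c5353 (k8 c5441 c5357 c5438 c5439 c5411 c5529 c5871 c9744 (k8 c661 c13427 c5332 c5516 c13294 c3568 c847 c848 (k4 c5451 c1585 c9368 c5678 k0))))) (by decide +kernel)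
def c13430 : PP 9 3 T 0x800000000000000101080000000000000000000008000200000000000000000000000000000000000000100000000000000000000000000000010000 := rS 0x1aed36ab1486451a8c4663f1e904131d (k8 c13277 c5438 c12636 c5436 c5318 c5316 c5476 c5324 (k4 c5326 c5478 c5451 c5454 (k2 c5496 c11633 (k1 c3588 k0)))) (by decide +kernel)
def c13431 : PP 9 3 T 0x40000000200000100000000000000000040000000001400000005001004400000000000000000001802 := rS 0x214c01c6e23 (k4 c9731 c5435 c5432 c10253 (k2 c2416 c7114 k0)) (by decide +kernel)
def c13432 : PP 9 3 T 0x1080000000000000000000008000000000000000000000000000000000000000000000000000010000000000000000000010010 := rS 0x2689457be04cef9bfdee4724aa1fa203602936d14e8efc1df8e92c82451a8c5ea5f049e4ae633b9d566274183c1acd63ec466391f81c6e3d48e86227b338011a68a5ca1579cf6ed509b379bc4e7b6 (k8 c12877 c5419 c9695 c5325 c12185 c13343 c13429 c5541 (k8 c5238 c8138 c13421 c13294 c13398 c946 c9744 c125 (k8 c5372 c5371 c13423 c13428 c5436 c5435 c5432 c5318 (k8 c5317 c5316 c13385 c5357 c2502 c2540 c9740 c128 (k8 c5570 c5574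 c5440 c5356 c5355 c5353 c5441 c5438 (k8 c5439 c5477 c5476 c5324 c5326 c12636 c12638 c13277 (k8 c13430 c5195 c5456 c5458 c5459 c5536 c6200 c13431 (k8 c666 c2553 c833 c344 c2422 c343 c2452 c12736 (k4 c3587 c13350 c5508 c2630 (k2 c1985 c8818 (k1 c12680 k0))))))))))) (by decide +kernel)
def c13433 : PP 9 3 T 0x40000000000000000000000000000000000000100040008000200000000014040000100101000000002020000000000000000000001400000000000000800 := rS 0x577b92cce68a7476df250d5e6317a8cc7237 (k8 c5435 c5317 c5316 c5477 c5476 c5325 c5324 c5660 (k8 c4672 c563 c1278 c2025 c3587 c2451 c8707 c1233 (k1 c5584 k0))) (by decide +kernel)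
def c13434 : PP 9 3 T 0x1080000000000000000000008000000000000000000000000000000000000000000000000000010000000000000000000000010 := rS 0x9d6f455c713f93fdaaf7239b1c3015402940204dbf502493787eb2103088c00033452d568fce6d523a164bc5e65f3e9fcc677d99c566cb39ad55bb635fb59a8463ec40f28 (k8 c13421 c5432 c13385 c5357 c13343 c2502 c5541 c13045 (k8 c12877 c5573 c5422 c5419 c5420 c5574 c5571 c12185 (k8 c5356 c5355 c5358 c5442 c5439 c5325 c9695 c12308 (k8 c13423 c13428 c13429 c5238 c5526 c8138 c13294 c13398 (k8 c9741 c9744 c9731 c661 c13432 c5558 c13353 c2746 (k8 c3026 c699 c13351 c7393 c5650 c9215 c13370 c5682 (k8 c13274 c3061 c2416 c2422 c343 c3001 c2452 c13433 (k4 c5547 c5549 c5590 c8249 (k2 c1277 c13097 k0))))))))) (by decide +kernel)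
def c13435 : PP 9 3 T 0x25000000080000000000000000000000000000000000000000000000000200000000000004002000000420000000000150000141401050 := rS 0x1e04d33c767b68a6556232f9d7dafdefa759ac7 (k8 c5357 c2502 c1276 c5494 c1128 c5541 c5440 c5439 (k8 c5409 c5413 c5530 c2133 c848 c6899 c11576 c6193 (k2 c12285 c5536 k0))) (by decide +kernel)
def c13436 : PP 9 3 T 0x200000000000000000000000008000200000000000001000000000400000110004010000050050024400000000000014000000110 := rS 0x955f1c3784c86451f85d2e1d49808021b (k8 c5475 c1056 c5642 c261 c1954 c1126 c5433 c5318 (k8 c5326 c5478 c5564 c5565 c9423 c1130 c1113 c13102 k0)) (by decide +kernel)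
def c13437 : PP 9 3 T 0x1080000000000000000000008000000000000000000000000000000000000000000000000000000000000000000000000010010 := rS 0x97bd5c258e9048a171ea343a8949808021bd0a54ea64942b562731489d969f38ed8c67f3e824bef1 (k8 c9695 c5439 c5438 c5442 c5358 c5355 c12877 c5571 (k8 c5572 c5420 c5570 c5417 c5419 c5421 c5573 c13421 (k8 c13434 c5440 c1955 c13436 c5475 c1056 c5642 c261 (k8 c8464 c1954 c2171 c5436 c5433 c5326 c12636 c13277 (k4 c12632 c12515 c5584 c13306 (k1 c8818 k0)))))) (by decide +kernel)
def c13438 : PP 9 3 T 0x1080000000000000000000008000000000000000000000000000000000000000000000000000000000000000000000000000010 := rS 0xe22344c48810812c44df70d2d227bf02ab39b56bf7d90210fa4d1e02448752a97009906e17038e46619946c5e2350d8c4be093e9e4fe633aecce29f6589c527358ab76c6bf683508f3 (k8 c5325 c13343 c2540 c5541 c13045 c12877 c5573 c5421 (k8 c5419 c5417 c5570 c5420 c5572 c5571 c12185 c5440 (k8 c5355 c5358 c5441 c5442 c5438 c5439 c5476 c5475 (k8 c5324 c9695 c13385 c13421 c5315 c5316 c5317 c5432 (k8 c5433 c5435 c13434 c1056 c1126 c1955 c1954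 c8464 (k8 c5642 c2547 c261 c1111 c265 c3577 c5494 c2189 (k8 c13435 c5238 c8720 c5195 c5372 c5374 c13294 c5460 (k8 c5538 c7110 c560 c13437 c699 c13313 c704 c1263 (k2 c5846 c2347 k0))))))))) (by decide +kernel)
def c13439 : PP 9 3 T 0x11000200080000000000000100040000000100000000000000000000000000001400004401400004000000000001010000000500000000 := rS 0x2338be6df7087bc09d3e9e50313 (k8 c5382 c5380 c5441 c5442 c9066 c5225 c5650 c13096 (k4 c13097 c11668 c5846 c6300 (k1 c2348 k0))) (by decide +kernel)
def c13440 : PP 9 3 T 0x201080000000000000000000008000100000000000000000000000000000000000000000000000010000000000000000000000000 := rS 0x404940b7bd288249f7d642d1cd8c4d1a5d2f9f4fe634f9cfda834383c1a230896527b54db1d1eb3489b0f68b38885e7037e19b6669022116bb6 (k8 c12877 c5422 c13343 c13438 c9743 c12185 c5664 c736 (k8 c2631 c5325 c2550 c5571 c737 c3856 c5871 c746 (k8 c5574 c2432 c5357 c2492 c5529 c13202 c314 c719 (k8 c9734 c2540 c9740 c164 c128 c5541 c5419 c5572 (k8 c5355 c5358 c5442 c5439 c5321 c5381 c5382 c8833 (k8 c12681 c13010 c13211 c5504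 c514 c9012 c13439 c5333 (k4 c5516 c12652 c2139 c11779 k0))))))) (by decide +kernel)
def c13441 : PP 9 3 T 0x1080000000000000000000008000100000000000000000000000000000000000000000000000010000000000000000000000000 := rS 0x1de67355c5e350a55c3e00b27762996f9803d127f34fdf4b4611e3b15ac094823d25e848a5d2d8c4127d59a7d96295a80432230884c4ec93b98cb29344ab76a9b3631cf68b38ed9568710bf0cdb33481108f3 (k8 c5325 c13343 c13438 c9743 c12185 c5664 c736 c2550 (k8 c164 c2123 c12877 c5571 c737 c3856 c5357 c5871 (k8 c2492 c5529 c5573 c8134 c13202 c314 c5355 c5356 (k8 c12308 c5570 c317 c719 c9734 c9698 c53 c5422 (k8 c5417 c5420 c5572 c5574 c5442 c5438 c5476 c5474 (k8 c5321 c5326 c13440 c12639 c12640 c12636 c12632 c12635 (k8 c8141 c5341 c5562 c8187 c8534 c5505 c2083 c950 (k8 c949 c5650 c13319 c2512 c2318 c5445 c1696 c5648 (k8 c5225 c13096 c1461 c1068 c6706 c3620 c13321 c2574 (k2 c10379 c5453 k0)))))))))) (by decide +kernel)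
def c13442 : PP 9 3 T 0x1080000000000000000000008000000000000000000000000000000000000000000000000000010000000000000000000000000 := rS 0x8c695604a41d0ec47a179422ccc8949965e2452e96c12573b9d7669f658a55a010c9a42271098104fb6 (k8 c12877 c5570 c13438 c317 c5571 c719 c9743 c9698 (k8 c53 c5573 c5417 c5420 c5572 c12185 c5440 c5356 (k8 c5353 c5438 c5474 c5321 c5326 c9695 c314 c13202 (k8 c8134 c5664 c737 c13441 c5433 c5436 c13355 c13010 (k4 c12636 c12632 c12635 c12943 (k2 c8187 c2083 k0)))))) (by decide +kernel)
def c13443 : PP 9 3 T 0xa4000200080000000000000000000008000000000000000001000000000000000000000000000000000420000000000000000000005020 := rS 0x14a089c5faab (k4 c5413 c1128 c5571 c719 (k2 c13386 c13114 k0)) (by decide +kernel)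
def c13444 : PP 9 3 T 0x1000000000000005000000080000000000000000000008000100000000000000000000001000000004000100000004000020000000000000000100405420 := rS 0x3a68f7c72c84901c6a19 (k8 c9698 c5324 c714 c5648 c13012 c324 c5494 c2133 (k2 c11799 c6899 k0)) (by decide +kernel)
def c13445 : PP 9 3 T 0x4000000000000000000000000000000000000200000000000000000400010000000000000000000000000001402000000000000000100000000000041400 := rS 0x4881fb41e47 (k4 c5562 c9740 c5541 c2629 (k2 c12876 c13257 k0)) (by decide +kernel)
def c13446 : PP 9 3 T 0x1000000000000000000000000000000000000040000000100000000001000000000005100000005001550000000000000000000000401000080000000 := rS 0xdc72d0 (k4 c3617 c2472 c1481 c5654 k0) (by decide +kernel)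
def c13447 : PP 9 3 T 0x45000800000000001000020080000400000400000000008000100000000000000010000000000014000000000000100001020000000000000000000000020 := rS 0xfbfd5d7e4f8ee71afbc0ea717a4c7de4fa7fbec452e5f4a9eef7896db640c596295c6a312d974ea33 (k8 c5492 c5440 c5321 c5474 c5476 c5324 c5353 c5451 (k8 c9442 c10897 c5497 c5455 c5527 c5375 c5372 c1955 (k8 c5439 c1126 c9728 c9703 c5358 c5442 c5359 c5443 (k8 c13034 c5390 c5388 c5607 c5609 c5611 c11785 c9458 (k4 c5227 c5623 c8870 c9954 (k1 c5208 k0)))))) (by decide +kernel)
def c13448 : PP 9 3 T 0x280000000000000000000800200000000000000000000000000000000000000000000000000000000000000000000000000001000000000 := rS 0x2d5faf70a27 (k4 c5570 c5423 c5575 c5431 (k2 c5612 c6194 k0)) (by decide +kernel)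
def c13449 : PP 9 3 T 0x2000000000000000000000000000000000000000000000000000000001000000000005100000005001150000000000000000000000000000000000000 := rS 0x136d1 (k2 c5459 c5536 (k1 c3617 k0)) (by decide +kernel)
def c13450 : PP 9 3 T 0x20000001080000000000000000000008000100000000000000000000000000000000000000000000000000000000000000000000000000 := rS 0x4160f0927ae9c8e75328d4bb9f29375a2bb33a4709af0879ef7f817ce248180a2bdeae0eb659fde1db242db1479ef394b8ed604a91d0add326d10ae5569d789168e317aebc520f06bcd9ac7089c426274b97d2a7546ac76cfd3582cc9b3549a7da840088c081b (k8 c5475 c13438 c9734 c53 c13343 c5541 c9743 c2449 (k8 c12185 c13442 c8316 c13045 c1128 c12877 c5421 c2171 (k8 c5440 c1955 c5439 c1126 c5570 c317 c5571 c719 (k8 c5357 c2502 c5325 c2540 c9740 c5417 c5479 c5477 (k8 c5476 c5327 c5326 c9695 c5412 c5413 c5415 c5528 (k8 c5529 c5530 c5533 c13443 c13428 c12632 c12635 c13277 (k8 c9399 c6008 c5372 c5526 c8483 c13444 c1064 c1676 (k8 c10944 c5453 c5497 c9172 c8309 c5584 c1131 c3071 (k8 c13418 c13445 c5547 c859 c3961 c2195 c5816 c13449 (k8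 c13446 c1067 c4765 c13447 c5601 c5602 c5604 c6640 (k8 c13448 c1070 c1467 c5681 c1728 c1376 c1375 c402 (k4 c2526 c3350 c2582 c8896 k0)))))))))))) (by decide +kernel)
def c13451 : PP 9 3 T 0x1000000000000090000220080000000000000000040008000100000000000000000000000000000008000000000000000020000000000000000000005420 := rS 0x23a5945bffe61d25781ee2021914baf32d86c46113884c4e8d48a3e06b189a27627d399fcbe63 (k8 c5355 c5439 c5358 c5419 c5442 c8833 c5567 c5382 (k8 c5421 c2199 c5526 c5374 c2171 c5570 c317 c5571 (k8 c719 c9734 c5475 c5474 c5325 c5321 c5326 c5478 (k8 c7110 c12243 c5225 c12651 c2121 c11668 c2568 c12080 (k2 c313 c6335 (k1 c12615 k0)))))) (by decide +kernel)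
def c13452 : PP 9 3 T 0x1000000000000090000220080000000000000000000008000100000000000000000000000000000008000000000000000020000000000000000000005420 := rS 0x11d45bffe659250748ef7a5226264322975e65b11844e21313a35228f0f86e06b1 (k8 c5421 c2199 c5475 c1084 c5526 c5374 c2171 c5570 (k8 c317 c5571 c719 c9734 c5474 c5325 c5321 c5326 (k8 c5478 c5382 c5567 c13451 c5333 c5520 c2121 c12645 (k4 c313 c5546 c2568 c12080 (k2 c6335 c12615 k0))))) (by decide +kernel)
def c13453 : PP 9 3 T 0x1080000000000000000000008000100000000000000000000000000000000000000000000000000000000000000000000000000 := rS 0x1a4d0d83dbbe1c57bfdbf1223c76b02525e843e8f48aab39b57890c8a093c95c52ad4183c1af366b1c22710989d2e5f4a9d51ab1db02cc9b3549a7da840088c081b (k8 c5475 c13438 c9734 c53 c13343 c5541 c9743 c2449 (k8 c12185 c13442 c8316 c12877 c5421 c2171 c5440 c1955 (k8 c5439 c1126 c5570 c317 c5571 c719 c5357 c2502 (k8 c5325 c2540 c9740 c128 c5573 c5417 c5353 c5441 (k8 c5438 c5326 c5478 c9695 c13450 c5238 c8720 c5374 (k8 c5526 c1084 c13452 c12639 c12632 c12635 c13277 c5562 (k8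 c12645 c2512 c2571 c1287 c3582 c9172 c2121 c8959 (k2 c8521 c8915 (k1 c2136 k0))))))))) (by decide +kernel)
def c13454 : PP 9 3 T 0x84000100080000000000000000000008000200000000000000000000000000000000000000000000000020000000000000000000000020 := rS 0xd8c744a4104804321138a35623d (k8 c5436 c5421 c2171 c5571 c719 c9698 c53 c5438 (k4 c12636 c12632 c13277 c13340 (k1 c13260 k0))) (by decide +kernel)
def c13455 : PP 9 3 T 0x1080000000000000000000008000000000000000000000000000000000000000000000000000000000000000000000000000000 := rS 0x363a0941902204399c76db3319fcfa5f (k8 c5439 c5442 c5358 c5355 c12185 c12877 c5571 c5419 (k4 c13438 c719 c13442 c13453 (k2 c13454 c8833 (k1 c13112 k0)))) (by decide +kernel)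
def c13456 : PP 9 3 T 0x2000000000000046000201000000000000000000000000000000000000000000000000400000000001000001005000000010000000000000000001000211 := rS 0x32eb0aef7a4d3ea146c4cde8947c05fe83331a47e13 (k8 c5564 c275 c9744 c5664 c2007 c5544 c5502 c5568 (k8 c5567 c5565 c5382 c5381 c5398 c5448 c5444 c8783 (k4 c12790 c12808 c1247 c10337 k0))) (by decide +kernel)
def c13457 : PP 9 3 T 0x40000000000000000000000000000000000000000000002000000000000000000000000000000015000 := rS 0x179d (k2 c5374 c694 (k1 c5645 k0)) (by decide +kernel)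
def c13458 : PP 9 3 T 0x2000400000000044000201000000000000000000000008000100000000000000000000000000000001000001005000000010000000000000000000000011 := rS 0x86b81cecc53a95ccc023496c32614aec3268d (k8 c5381 c13455 c5209 c5446 c5445 c6205 c5474 c9744 (k8 c5642 c5664 c9757 c2005 c733 c5668 c672 c2187 (k2 c5643 c13456 k0))) (by decide +kernel)
def c13459 : PP 9 3 T 0x64000200000000000000000000000000000000000000015010000000000000000000000000005000000200000000000000000000010800 := rS 0x41c462a6d54acce68d899bd128f (k8 c5568 c5567 c5565 c5382 c5381 c5379 c5532 c5531 (k4 c5529 c5414 c5411 c2309 (k1 c12798 k0))) (by decide +kernel)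
def c13460 : PP 9 3 T 0x2000000000000064000201000000000000000000040008000100000000000000000000000000000000000000001000000010000000000000000000011010 := rS 0x8b81ab3de83ce02d5eb4589c4d6680077dfefd80bd533b0c9aa5667346c4d128f4396d220f (k8 c9739 c13457 c5474 c8435 c5568 c5567 c5382 c5381 (k8 c5379 c5532 c5531 c13455 c5209 c5447 c5477 c5502 (k8 c5542 c5544 c10390 c13458 c8135 c1059 c667 c1332 (k8 c13067 c1248 c13459 c5645 c5525 c8783 c5683 c2034 (k2 c2888 c3613 k0))))) (by decide +kernel)
def c13461 : PP 9 3 T 0x64000200000000000000000000000000000000000000000000000000402800000000000001005000000080000000000000000000000000 := rS 0x3df017fb855ed54ec4d128f58a3506a9 (k8 c5531 c2007 c5381 c2179 c5568 c5567 c5382 c5412 (k4 c1661 c1247 c1718 c2507 (k2 c2078 c8783 (k1 c12790 k0)))) (by decide +kernel)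
def c13462 : PP 9 3 T 0x200000000000000000000000008000000100000000000000000000000000000000000040000000080000000000000020000010000 := rS 0x1643a5d (k4 c5321 c538 c2003 c12681 k0) (by decide +kernel)
def c13463 : PP 9 3 T 0x1000400000000064000201000000000000000000040008000100000000000000000000000000000000000001005000000080000000000000000000010811 := rS 0x2b7defe8e40516e157c0c9228acb2d983a1b8f47e390405dae073b345e2352dbd432934fa85369911a762a2159a3626894795c4e13129bcea956298761933c87cd79c41aa4044b (k8 c2589 c5642 c5531 c2007 c5672 c5523 c1111 c5524 (k8 c13455 c5209 c5445 c733 c5446 c2005 c5565 c1113 (k8 c5564 c267 c9757 c5568 c5567 c5382 c5381 c5532 (k8 c5528 c5414 c5412 c5409 c5447 c5397 c5398 c5448 (k8 c5444 c6205 c5477 c5474 c5324 c9695 c10484 c5668 (k8 c672 c2187 c1108 c5643 c2471 c275 c1513 c1510 (k8 c3578 c6899 c13461 c10337 c5651 c10038 c7820 c1243 (k8 c6188 c738 c2078 c13462 c3613 c5504 c2892 c5282 k0)))))))) (by decide +kernel)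
def c13464 : PP 9 3 T 0x200000000000000800000000200000000000000000000000000000000000000000080000000180000000000000000100000005000000008 := rS 0x2b91e17570a8695452535faf45e2d (k8 c5612 c5425 c5617 c5431 c5563 c5339 c5343 c2207 (k4 c1000 c3830 c1251 c3016 (k2 c1116 c3586 k0))) (by decide +kernel)
def c13465 : PP 9 3 T 0x800000000000001001050040400000400000000000000100000000000500000000000000000000400000000000000000000000000000000000000000 := rS 0xc1b77e1e451a959295d825db6d9 (k8 c5497 c5455 c5452 c5209 c5446 c5396 c5399 c5449 (k4 c5217 c5674 c5471 c5626 (k1 c3619 k0))) (by decide +kernel)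
def c13466 : PP 9 3 T 0x800000000220000021000040000000400200000008000100000000000000000000000000000080000000180000000080000000000000005000000008 := rS 0xc0e2f497f7dbe722a7bb91727115c9b56f7d (k8 c9704 c5533 c5529 c5415 c5411 c13455 c5326 c5613 (k8 c5428 c5615 c739 c2011 c13464 c13465 c5390 c5607 (k1 c11785 k0))) (by decide +kernel)
def c13467 : PP 9 3 T 0x800000000020000021000000000000400200000008000100000000081000000000000000000080000000185000000080000000000000005020000008 := rS 0x83c260af9b7643062e158b5f78190dff17a4dcbc5077bc4e1cb0d04daad929766a559e9d54a676193 (k8 c13455 c5209 c5447 c5531 c5412 c5453 c5446 c5495 (k8 c5452 c5396 c5413 c5397 c3617 c263 c4565 c5527 (k8 c5375 c2007 c9695 c13466 c5213 c5390 c5389 c5606 (k8 c5607 c5609 c269 c1115 c5652 c1252 c589 c588 (k4 c740 c3296 c4437 c4552 (k1 c3614 k0)))))) (by decide +kernel)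
def c13468 : PP 9 3 T 0x1000800000000060000201000000000000000200000008000100400000001000000000000000000080000000085000000080400000000000000000010088 := rS 0x10583c249f8a7239f518fbce97ca4dd6eaecd02242d5a04579d1debaf4c88d56215989c26253787d9ecd6c954524729fbcfe8d3ab5603150e05d2e9378a546a196486c62f71c31a229b31ec3269d369ecf26bce20d5233 (k8 c5492 c5531 c2007 c5672 c5523 c5524 c5372 c5529 (k8 c5412 c13455 c5209 c5395 c5397 c5411 c10556 c675 (k8 c397 c5476 c5475 c5396 c6205 c5324 c5446 c9695 (k8 c5444 c5452 c1107 c3577 c5414 c3070 c5454 c2005 (k8 c5381 c676 c5725 c5563 c5562 c5339 c5343 c5497 (k8 c5495 c5453 c1111 c5565 c1113 c5564 c267 c5532 (k8 c5528 c5413 c5409 c5447 c5479 c5477 c5327 c5325 (k8 c5326 c3617 c1248 c12753 c13257 c13467 c5600 c5602 (k8 c5604 c6640 c9413 c678 c1458 c5671 c1726 c991 (k4 c990 c402 c2244 c3350 (k2 c2580 c8896 k0))))))))))) (by decide +kernel)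
def c13469 : PP 9 3 T 0x1000000000020000000000000000000000000000008000000100000004040000400000000000000000400000000000000000001408000005041000000 := rS 0x1f311c5442b3 (k4 c5532 c5528 c5414 c5409 (k2 c12736 c9334 k0)) (by decide +kernel)
def c13470 : PP 9 3 T 0x800000000220000221000040000000000200000008000100400000000000000000000000000080000000080000000080000000000000000000010008 := rS 0x1f0c1695f7847cd9aff9116af6eebf22a344e13129bcaa53 (k8 c5563 c5343 c5565 c1113 c5564 c267 c5381 c5326 (k8 c5431 c5613 c5617 c5612 c5615 c13464 c13466 c739 (k4 c6194 c2011 c9413 c1250 (k2 c5674 c5626 k0)))) (by decide +kernel)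
def c13471 : PP 9 3 T 0x104000001000000800000000000000000000000000000000000000000000000000000000000000000000000000000000000000000000000 := rS 0x3e3a5 (k2 c5389 c5511 (k1 c5240 k0)) (by decide +kernel)
def c13472 : PP 9 3 T 0x40005800000000104001001000000000000000000000008000000100000000040000000000000000000000000000000000000000400000000000000000000 := rS 0x1f5fbc1617e591dbfe166 (k8 c5213 c5240 c5349 c5351 c6640 c5629 c5628 c8941 (k2 c6751 c5207 k0)) (by decide +kernel)
def c13473 : PP 9 3 T 0x1000800000000064000201000000000000000200000008000100500000004000000000000000000080000000085000000080400000000000000000010088 := rS 0x20f0584be6dd90c18b8562db3bef0321c5e92ffb9817cc90fcc3961ee3ef1871c6380bb19e2451a86c621949a7d426364a6e229d36adc4e13129bef679c487cd633f09dd9acf62984f79c41aa4aa3d149048e53f79fd1a754aec326d580c559697 (k8 c5452 c1246 c5414 c3070 c5454 c13455 c5209 c5446 (k8 c2005 c5381 c676 c5725 c5563 c5562 c5340 c5339 (k8 c5560 c5343 c5531 c2007 c5672 c5372 c5445 c733 (k8 c5453 c5495 c5493 c8115 c5492 c5523 c1111 c5527 (k8 c5524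 c5375 c5565 c1113 c5564 c267 c5533 c5529 (k8 c5412 c5411 c5397 c5396 c5395 c5398 c5448 c5444 (k8 c6205 c5476 c5475 c5324 c5326 c9695 c10556 c1107 (k8 c675 c2620 c3577 c10342 c3579 c397 c263 c4565 (k8 c13468 c13469 c5588 c13257 c13470 c13471 c13472 c5390 (k8 c5606 c5607 c5609 c9413 c269 c1115 c5652 c1252 (k4 c589 c588 c740 c2682 (k2 c3295 c4552 (k1 c3614 k0))))))))))))) (by decide +kernel)
def c13474 : PP 9 3 T 0x800000000220000221000000000000000200000008000100400000000000000000000000000080000000080000000080000000000000000000010008 := rS 0x187 (k2 c5429 c13470 k0) (by decide +kernel)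
def c13475 : PP 9 3 T 0x800000000144001001000000000000000000000008000000100000000000000000000000000080000000000000004000800400000000000000000080 := rS 0x17d80c2fdd7ba8c7de7070bf2eb75723b7fc2cd93 (k8 c13455 c5213 c5240 c5349 c5351 c5600 c5602 c6640 (k8 c5629 c5626 c678 c1458 c5671 c2994 c8941 c1250 (k2 c1804 c5687 (k1 c1159 k0)))) (by decide +kernel)
def c13476 : PP 9 3 T 0x800000000144000201000000000000000200000008000000500000000000000000000010000080000000000000100080800000000000000000010088 := rS 0x6ede5f3ac60e0c5c2b16d9df78190ea71fa40b3c46219c99bdb6776c954a77f (k8 c13471 c5563 c5343 c5497 c5493 c5455 c5565 c13455 (k8 c6205 c5476 c9695 c1450 c13475 c5608 c5388 c5606 (k8 c5607 c5609 c9413 c269 c1115 c5652 c1252 c412 (k4 c1357 c740 c679 c1501 (k1 c3609 k0))))) (by decide +kernel)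
def c13477 : PP 9 3 T 0x60000000000000000000000200000000000000000000008000000000000000000100000000000000000000000000100000005040000000 := rS 0x24ad4471510acc5247 (k8 c5562 c5339 c5532 c5528 c5414 c5409 c2573 c3006 (k1 c12753 k0)) (by decide +kernel)
def c13478 : PP 9 3 T 0x1000800000000064000201000000000000000200000008000100500000000000000000000000000080000000085000000080000000000000000000010088 := rS 0x5edc9d52ac530ec326ff0f9af388354ac51a253789c2645 (k8 c5326 c5564 c267 c5565 c1113 c5381 c2179 c5531 (k8 c2007 c5672 c5523 c1111 c13477 c13455 c5209 c5445 (k4 c733 c5446 c2005 c13474 (k2 c13473 c13476 k0)))) (by decide +kernel)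
def c13479 : PP 9 3 T 0x1000800000000020001001050040000000400000000000000100000001080500000000000000040000400000000000000000000000000000000000000000 := rS 0x105fac1fe2e672dfbc8a352a6d33b04eae56edb (k8 c5455 c5533 c5415 c5412 c5209 c5447 c5397 c5399 (k8 c5449 c5217 c13465 c5622 c10571 c5511 c4553 c5633 (k2 c3392 c5695 k0))) (by decide +kernel)
def c13480 : PP 9 3 T 0x1000800000000020011001010040000000000000000008000100000001080500000000000000040000400000000000000000000000000000000000000080 := rS 0x63ef3e5d6eaecd93 (k8 c13455 c13479 c5600 c5602 c6640 c678 c1458 c5671 k0) (by decide +kernel)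
def c13481 : PP 9 3 T 0x1000800000000064000201000000000000000200000008000100500000000000000000000000000080000001005000000080000000000000000000010088 := rS 0x3038bd23ee13a97ce4576a7bbee1f85e5a61e04712c22d970121974b69f5098e23155c9b566b739a06267d44a3efa754ab14c3b0c9a5dfe1f35e7106a958a344a6f1384c8a7f (k8 c676 c5326 c5564 c267 c5565 c1113 c5381 c2179 (k8 c5531 c2007 c5672 c5523 c1111 c13477 c5452 c13455 (k8 c5209 c5445 c733 c5446 c2005 c9704 c5568 c5567 (k8 c5566 c5382 c5380 c5379 c5533 c5532 c5529 c5415 (k8 c5414 c5411 c5395 c5398 c5448 c5474 c5321 c5478 (k8 c3070 c1246 c13478 c12615 c2988 c3613 c4565 c8385 (k8 c3599 c1248 c13476 c5613 c5428 c5430 c5615 c739 (k4 c1803 c2681 c2011 c13480 (k2 c5390 c5607 (k1 c11785 k0)))))))))) (by decide +kernel)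
def c13482 : PP 9 3 T 0x1000800000000064000201000000000000000200000008000100500000000000000000000000000000000001005000000080000000000000000000010088 := rS 0xd65622d5fef3fa34ea95d864daad3 (k8 c5496 c5454 c13455 c5209 c5446 c2005 c5381 c676 (k4 c5725 c13481 c738 c5282 (k2 c5278 c2032 k0))) (by decide +kernel)
def c13483 : PP 9 3 T 0x1000800000000064000201000000000000000200000008000100100000000000000000000000000000000001005000000080000000000000000000010011 := rS 0x15aaf6b7bd943f0401c823d219146a310cc7d269f50a5761934684cae024bb5466d3 (k8 c5496 c5492 c5454 c5452 c5642 c9757 c5564 c5381 (k8 c13455 c5209 c5446 c5398 c5448 c5444 c9713 c6205 (k8 c5476 c5324 c5326 c5478 c5560 c5340 c13482 c5643 (k4 c275 c10337 c13298 c3588 (k2 c1246 c2032 (k1 c5282 k0)))))) (by decide +kernel)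
def c13484 : PP 9 3 T 0x1000800000000064000201000000000000000000000008000100100000000000000000000000000000000001005000000080000000000000000000010011 := rS 0x114af14565e22709894046f (k8 c5565 c5642 c1113 c5564 c267 c9695 c13483 c5651 (k2 c1243 c13462 (k1 c738 k0))) (by decide +kernel)
def c13485 : PP 9 3 T 0x1000000000000064000201000000000000000000040008000100000000000000000000000000000000000001005000000010000000000000000000010811 := rS 0xad57bf85101acfbe39de25bc5668d89a251e2709894046f41998d2a9 (k8 c5531 c9744 c5664 c2007 c5565 c5642 c1113 c5564 (k8 c267 c5568 c5567 c5382 c5381 c5532 c9695 c2589 (k8 c13463 c13484 c5504 c5341 c2140 c5651 c12808 c1243 (k2 c2892 c5282 k0)))) (by decide +kernel)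
def c13486 : PP 9 3 T 0x1000000000000064000201000000000000000200000008000100000000000000000000000000000000000001005000000080000000000000000000011411 := rS 0x668e994371c8fc10176b81cecd1efc746a5b0ca4d3ea14da64469d10a3426573aa558a61d864c3e6bce20d5202 (k8 c5642 c5531 c2007 c5672 c5523 c1111 c13455 c5209 (k8 c5445 c733 c5446 c2005 c9757 c5564 c5381 c5528 (k8 c5412 c5409 c5447 c5397 c5398 c5448 c5444 c6205 (k8 c5474 c5324 c5341 c13484 c10484 c5668 c672 c2187 (k8 c1108 c5643 c275 c273 c1511 c10337 c3578 c13461 (k1 c6899 k0)))))) (by decide +kernel)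
def c13487 : PP 9 3 T 0x1000400000000022000001000000000000000000000008000000000000000000000000001010000000000000000000100000020000000000000040000408 := rS 0xdc2e08038e47676688d5e65b0ce4d269b4c88d3a21 (k8 c5528 c5412 c5409 c5447 c5397 c5444 c13455 c6205 (k8 c5474 c5325 c5324 c10484 c5668 c6899 c6897 c672 (k4 c2052 c1108 c1511 c3578 k0))) (by decide +kernel)
def c13488 : PP 9 3 T 0x64000201000000000000000000040008000100000000000000000000000000000000000000001000000010000000000000000000011011 := rS 0x1bf8472083b8cd9fde253d99bf32c401aed50e3fd59ef8e22d5e28ac82c3e6b3de718a833a8944e5733008d2f14f9852bb0c9aa5668146c4c266f3ea251e872da441fed (k8 c13460 c9739 c13457 c5474 c8435 c5568 c5567 c5566 (k8 c5565 c5564 c5382 c5381 c5380 c5532 c5531 c13455 (k8 c5209 c5446 c5445 c5448 c9695 c9744 c5642 c5664 (k8 c9757 c267 c1113 c2005 c2007 c733 c5672 c5372 (k8 c5523 c1111 c13485 c13486 c5651 c1243 c738 c13462 (k8 c5504 c5282 c2892 c2028 c2890 c2032 c12808 c263 (k8 c5592 c4457 c2139 c2140 c13487 c5453 c5492 c5493 (k4 c10339 c397 c8115 c1511 (k1 c6327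 k0))))))))) (by decide +kernel)
def c13489 : PP 9 3 T 0x400000000020000021000000000000000000000008000100000000000000000000000000000000000000001000400400000000000000000000000102 := rS 0x629d58c062f8c4c69bd864e229d3695cf679 (k8 c5524 c5372 c9758 c5529 c5412 c5411 c13455 c5209 (k8 c5397 c5395 c5476 c1055 c5643 c10556 c1452 c838 (k1 c5668 k0))) (by decide +kernel)
def c13490 : PP 9 3 T 0x1000400000000022000200000000000000000200000008000000000000000000000000104000002080000001000000000440000000004144000000000000 := rS 0x3b68b599af77e34e0443228d5e6317aa85371139c4cde8ff98f4831d (k8 c5341 c5340 c5560 c5548 c5568 c5565 c5382 c5379 (k8 c5411 c5397 c5398 c5477 c5476 c5325 c5324 c5326 (k8 c5478 c12850 c2940 c1248 c2195 c2504 c3588 c9339 (k2 c6899 c3587 k0)))) (by decide +kernel)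
def c13491 : PP 9 3 T 0x1000400000000064000221000000000000000200000008000100000000000000000000000000002100000001001000400000000000000000000000001002 := rS 0x2b7ded669abdaacf3a0dd8a331c8fc1079219146a314aec326133ea24ce5b358f4831d (k8 c5341 c5340 c5560 c1059 c5474 c663 c5567 c5566 (k8 c5564 c13455 c5209 c5446 c5476 c5324 c5326 c5478 (k8 c5524 c13489 c275 c273 c272 c1627 c1510 c5668 (k8 c1530 c1532 c13490 c1969 c3588 c13298 c2032 c5683 k0)))) (by decide +kernel)
def c13492 : PP 9 3 T 0x1000000000000000000011000000000000000000040008000000000000000000000000000000000000000000001000000000000000000000000000005000 := rS 0xb (k2 c12749 c5645 k0) (by decide +kernel)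
def c13493 : PP 9 3 T 0x22000200000000000000000000000000000000000000000000000000000000000000000001000005010400400000000000000000000000 := rS 0xe1f1b28fee3f0b193ea1319853a6d409f7e6df5a2ce266f39c451e9b (k8 c5397 c5568 c5411 c5379 c5565 c5382 c5532 c8385 (k8 c2514 c5548 c5566 c5380 c5529 c5412 c5445 c5395 (k8 c5398 c5448 c10556 c5535 c2619 c10493 c3599 c5464 (k2 c1718 c9140 k0)))) (by decide +kernel)
def c13494 : PP 9 3 T 0x64000201000000000000000000040008000100000000000000000000000000000000000000001000000010000000000000000000011010 := rS 0xaff7ab6071c1212481e37b567c0d1efb3d9a371e8e47e3b19b152c7404058bc833c9ef39f35a1dd6271239acd06714803da91218d5e65b18bd41e63d864e229d8a9b566738984cde8f (k8 c5568 c5565 c5564 c5382 c5379 c5532 c5529 c5414 (k8 c5412 c5411 c13455 c5209 c5395 c9739 c5477 c5476 (k8 c5474 c5325 c5324 c5478 c13457 c13460 c13488 c9693 (k8 c663 c8135 c1059 c12800 c667 c1332 c787 c8385 (k8 c5548 c13492 c5372 c5524 c5525 c13493 c1054 c1055 (k8 c1222 c1221 c1630 c8431 c1676 c275 c273 c1513 (k8 c1510 c1967 c1530 c5452 c1708 c5654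 c13491 c3587 (k8 c12577 c5655 c6232 c1737 c8188 c2196 c2758 c5504 (k2 c12850 c5683 k0))))))))) (by decide +kernel)
def c13495 : PP 9 3 T 0x2000000000000026000001000000000000000000080008000000000000000000000000000000000000000000000000000010000000000000000000001011 := rS 0x390b8200e76629d4b066011a4b619c9a4d36614aa74423b0f8dfbe990e3f446f1 (k8 c9695 c5409 c5542 c12546 c5447 c10390 c5518 c5517 (k8 c5332 c5528 c5412 c5446 c5445 c5397 c5444 c13455 (k8 c6205 c5474 c9744 c5642 c5664 c263 c2005 c733 (k4 c5668 c672 c2052 c1108 (k2 c273 c3578 k0))))) (by decide +kernel)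
def c13496 : PP 9 3 T 0x60000200000000000000000000000000000000000000000000000000000000000000000001000000000000000001400000000040015402 := rS 0x1289d684aacc4442b339c4c266f478a4d671 (k8 c667 c1059 c9693 c5568 c5565 c5564 c5382 c5379 (k8 c5532 c5528 c5411 c12876 c12614 c8385 c353 c1094 (k1 c5651 k0))) (by decide +kernel)
def c13497 : PP 9 3 T 0x2000000000000064000001000000000000000200080008000000000000000000000000000000000100000000000000000000000000000000000000000000 := rS 0x23a255587c92470e3f446f1 (k8 c9695 c5409 c5542 c12546 c5520 c5334 c5517 c5413 (k2 c5559 c5341 (k1 c12764 k0))) (by decide +kernel)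
def c13498 : PP 9 3 T 0x200040000000000000000000000000100000000000000000000000000000000000000000000000000000000000000002000010102 := rS 0x65104fe062fa7d426330ec0e681379f4ae71 (k8 c667 c9758 c5566 c5565 c5380 c5379 c5209 c5445 (k8 c5395 c5398 c5448 c1055 c5643 c676 c1734 c3599 (k1 c1091 k0))) (by decide +kernel)
def c13499 : PP 9 3 T 0x2000000000000064000201000000000000000000000008000100100000000040000000000000000100000002000000400000000001400440000040011002 := rS 0xf1355ae746fb318a7b198f47208698fd5c241abcc62f55088cda733eb459fdf4cec3266bf78a5579d (k8 c5374 c5413 c9693 c12762 c1059 c13455 c5209 c5447 (k8 c10390 c5543 c5501 c5566 c5379 c5529 c5409 c5398 (k8 c5477 c5476 c5325 c5324 c12760 c12836 c2909 c2940 (k8 c13498 c273 c1513 c272 c1685 c1627 c3587 c2949 (k4 c5668 c2192 c1532 c5689 (k1 c6627 k0)))))) (by decide +kernel)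
def c13500 : PP 9 3 T 0x2000000000000064000201000000000000000000080008000100000000000000000000000000000000000000000000000010000000000000000000011010 := rS 0xfde263355ae746fb318a7b198e5a608570915a278e56521ef3bac4d0290077d9ed11abcc62f507a84c699d864d56733e8ec3ef72482c6e47 (k8 c5520 c5518 c5516 c5334 c5333 c5517 c5332 c5566 (k8 c5379 c5413 c13455 c5209 c5447 c5395 c5398 c9739 (k8 c5477 c5476 c5325 c5324 c5501 c5543 c10390 c13495 (k8 c9693 c8135 c1332 c787 c12762 c13496 c13497 c13499 (k8 c352 c2029 c5651 c5683 c13498 c2940 c273 c272 (k8 c1685 c1627 c3587 c2949 c5668 c2192 c1532 c1968 (k2 c5689 c800 (k1 c5577 k0)))))))) (by decide +kernel)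
def c13501 : PP 9 3 T 0x20000000040000000000000000080000000100000000000000000000000000000000000000000000000000000000000000000000001048 := rS 0xe010170ca4d3699d808d3a211d87c6e57 (k8 c9757 c5518 c5517 c5332 c5528 c5412 c5409 c5209 (k8 c5447 c5397 c5444 c6205 c1108 c5643 c3578 c273 k0)) (by decide +kernel)
def c13502 : PP 9 3 T 0x5000000000000064000201000000000000000000000008000000000000000040000000000000000000000001000000000010000001400000000000011411 := rS 0x8e075588b2cabfe62825565e20f54acd1b1347998d22709894046f (k8 c5565 c5642 c1113 c5564 c267 c9744 c5664 c5568 (k8 c5382 c5381 c5532 c5531 c9739 c9695 c12876 c12614 (k8 c5651 c5546 c1243 c12355 c738 c5282 c263 c13462 (k1 c2028 k0)))) (by decide +kernel)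
def c13503 : PP 9 3 T 0x64000201000000000000000000000008000100000000000000000000000000000000000000001000000010000000000000000000011011 := rS 0x38592fa1b3a90f7f852fde66b1cee7f3c8198a754199804697896d26614aa67619311a744281469f5123b0fbdc920b1b91fdb4a (k8 c13494 c13500 c5520 c5518 c5516 c5334 c5333 c5517 (k8 c5332 c5567 c5566 c5381 c5380 c5528 c5412 c5409 (k8 c13455 c5209 c5447 c5446 c5445 c5444 c5474 c9695 (k8 c9744 c5642 c5664 c9812 c2005 c733 c13501 c1455 (k8 c676 c672 c674 c8354 c5668 c5452 c6344 c8993 (k4 c13502 c5374 c5672 c10245 (k2 c2111 c13041 (k1 c263 k0)))))))) (by decide +kernel)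
def c13504 : PP 9 3 T 0x64000201000000000000000000000008000100000000000000000000000000000000000000001000000010000000000000000000011010 := rS 0x3c3df661799e16628cc7208122d44eae56c0bdf017ea09fed1f9e750e7758a40d668338a401ed238dc16497b87c774a228d5e65b18bd4320f4998d3699d864c47114eaae2a2154acce689 (k8 c5567 c5379 c5532 c5531 c5528 c5414 c5413 c5412 (k8 c5411 c5409 c13455 c5209 c5447 c5397 c5395 c5444 (k8 c9739 c6205 c5477 c5476 c5474 c5325 c5324 c5326 (k8 c13494 c5332 c5517 c5333 c5334 c5516 c5518 c5520 (k8 c13500 c13503 c9693 c663 c8135 c1059 c13496 c1332 (k8 c787 c897 c5374 c5589 c9793 c3009 c5672 c2392 (k8 c1977 c12751 c9181 c2034 c5683 c2986 c1248 c12753 (k8 c13498 c273 c272 c1627 c3578 c2395 c1506 c3587 (k2 c9113 c5537 (k1 c5185 k0)))))))))) (by decide +kernel)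
def c13505 : PP 9 3 T 0x40000000000000000000000000000000000000000000002000000000000000001000000000000005000 := rS 0x179d (k2 c5374 c695 (k1 c5645 k0)) (by decide +kernel)
def c13506 : PP 9 3 T 0x2000000000000064000201000000000000000000000008000100000000000000000000000000000000000001005000000010000000000000000000000011 := rS 0x1df4cec326a9 (k4 c5531 c13455 c5209 c5447 (k2 c10390 c13458 k0)) (by decide +kernel)
def c13507 : PP 9 3 T 0x40000000000000000000000000000000000000000000008000000000000000000440000000100000000080000000000000000000000000 := rS 0x15bef (k2 c5586 c2892 (k1 c5282 k0)) (by decide +kernel)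
def c13508 : PP 9 3 T 0x200000000000000000100040000000000000000004010000000002000000000000001045400000000000005001000000000000000 := rS 0x401c30346c4d128f (k8 c5568 c5567 c5382 c5381 c7820 c6188 c3613 c2078 k0) (by decide +kernel)
def c13509 : PP 9 3 T 0x1000400000000020000201000000000000000100040008000100000000004000000000000010000000000001045401100000000001000000000040001008 := rS 0x7cc94ccf08e86e3d1c8202e073b3446a5b7a865269b4cec326234e884fa57 (k8 c9757 c5566 c5528 c5412 c5409 c13455 c5209 c5447 (k8 c5397 c5444 c6205 c5477 c5474 c5324 c10484 c5668 (k8 c672 c1108 c5643 c273 c1512 c1510 c3578 c5456 (k4 c6899 c13508 c5546 c6327 k0)))) (by decide +kernel)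
def c13510 : PP 9 3 T 0x200000000000000000100040008000000000000004000000000000000000000000001045400000000000005000000000000000000 := rS 0x8ff38040c86f546c4d128f (k8 c5568 c5567 c5382 c5381 c5477 c5478 c7820 c3613 (k2 c5592 c2790 (k1 c5660 k0))) (by decide +kernel)
def c13511 : PP 9 3 T 0x64000201000000000000000000040008000100000000000000000000000000000000000000001000000010000000000000000000001011 := rS 0xd7f17cc95e1669ddaacfef3fc3e79359ef39ed48a2d5e2862a0cea49129984e0234bc4c295d864c471554acd028d379f513590821cb60f (k8 c9739 c5474 c8435 c13504 c5558 c5567 c5566 c5565 (k8 c5381 c5380 c5532 c5531 c5414 c5409 c13455 c5209 (k8 c5446 c5445 c9695 c9744 c5642 c2859 c5664 c1113 (k8 c10038 c2005 c2007 c733 c5651 c1243 c738 c13505 (k8 c13506 c13492 c5372 c5523 c5524 c1111 c13507 c13509 (k8 c5453 c5454 c5493 c5495 c8115 c13510 c5546 c5168 (k2 c5465 c5287 k0))))))) (by decide +kernel)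
def c13512 : PP 9 3 T 0x20000200000000000000000000000000000000000000001000000000000000000080000001000000000440000000000000000000000000 := rS 0x5a9c622b339c4cde8f (k8 c5568 c5565 c5382 c5379 c5532 c5411 c2989 c1248 (k1 c8385 k0)) (by decide +kernel)
def c13513 : PP 9 3 T 0x2000000000000024000201000000000000000100040008000000000000000000000000000000000140000001005000000000000001400000010000000800 := rS 0x4d1c81fbc968321915e6f555c5552b346c4d128f7bc05faff (k8 c5544 c5542 c5502 c5498 c5568 c5567 c5382 c5381 (k8 c5532 c5531 c5414 c5413 c5477 c5325 c5326 c5478 (k4 c2309 c2588 c8783 c7820 (k2 c3593 c9087 (k1 c352 k0))))) (by decide +kernel)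
def c13514 : PP 9 3 T 0x2000000000000064000201000000000000000000040008000100000000000000000000000000000100000001001000400000000000000000000000025002 := rS 0x1e369b5dab1d3a2b18a331e8ffde0841e7016af248d53e9546c4c267d44a3eb2873396c8e2935accdb118ac05faffefa676193 (k8 c13455 c5209 c5447 c10390 c5544 c5542 c5502 c5414 (k8 c5411 c5529 c5532 c1059 c9693 c12800 c5474 c663 (k8 c8435 c5558 c5568 c5567 c5566 c5564 c5382 c5381 (k8 c5446 c5448 c5324 c3026 c13512 c13513 c5645 c5525 (k8 c13489 c8783 c275 c1512 c272 c1627 c5683 c5668 (k4 c2029 c2890 c2032 c1969 (k2 c6627 c5689 k0))))))) (by decide +kernel)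
def c13515 : PP 9 3 T 0x400000000022000001000000000000000000000000000000000000000000000000004040000000000000000004100600000000000000000000000000 := rS 0x1e4bf114e9b4ee63 (k8 c5395 c787 c5529 c5412 c5411 c1222 c8612 c13168 k0) (by decide +kernel)
def c13516 : PP 9 3 T 0x2000000000000064000201000000000000000000040008000100000000000000000000000000000000000000001000000200000000000000000000025002 := rS 0xfda607199d1aaac6b9c15e3d4b334f6c720c744c25f01233a90efb3dfaf7219146a314fb252a9911a75571554a26b2292b9ad62733b98f6193 (k8 c13455 c5209 c5395 c787 c5379 c1332 c1059 c9758 (k8 c9693 c5558 c5567 c5531 c5414 c5413 c5412 c5409 (k8 c5447 c5446 c5396 c5448 c5476 c5324 c5326 c5478 (k8 c5498 c5542 c5543 c10390 c13514 c5374 c13505 c5215 (k8 c10629 c10038 c513 c6232 c5535 c5457 c5537 c13449 (k8 c12427 c2986 c2858 c1768 c835 c2890 c13515 c1964 (k4 c1452 c1969 c2908 c3588 k0))))))) (by decide +kernel)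
def c13517 : PP 9 3 T 0x22000200000000000000000000000008000000000000000000000000005000000080000001000005000600000001000144000000000002 := rS 0x688ed2c167b97a04711abcc62f588a74e71337a3cce5b (k8 c5474 c663 c5568 c5565 c5382 c5379 c5412 c5411 (k8 c5477 c5476 c5325 c5324 c2989 c12850 c13493 c2196 (k4 c1054 c1221 c1676 c1708 (k1 c3587 k0)))) (by decide +kernel)
def c13518 : PP 9 3 T 0x2000000000000000000000000000008000000000000000000000000140000000000000000000000020200000000005004000000000002 := rS 0x20b5e3a265610c8a3518a4d2a29 (k8 c9693 c5446 c5444 c5476 c5324 c5326 c5478 c835 (k4 c668 c2029 c2032 c349 (k1 c3588 k0))) (by decide +kernel)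
def c13519 : PP 9 3 T 0x400000000020000221000000000000000100040008000100000000000000000000000000000000000000001000000200000001400000000000001002 := rS 0x475ede36bb4477e04b05895f32f2d0e2af69b559ecd3a0dd8a331e8e47e081abcc62f588a7566738984cde7d44a3c526b3b98f61933da44f283 (k8 c5525 c5524 c5374 c5372 c13455 c5209 c5395 c787 (k8 c1059 c9693 c5568 c5567 c5566 c5565 c5564 c5382 (k8 c5379 c5532 c5412 c5411 c5477 c5476 c5325 c5324 (k8 c13489 c275 c273 c1512 c272 c1627 c1510 c5668 (k8 c8354 c1530 c1532 c1969 c13517 c13518 c8385 c13493 (k8 c5548 c9106 c1054 c1221 c6327 c1676 c1708 c1768 (k4 c12577 c3587 c5778 c8188 k0))))))) (by decide +kernel)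
def c13520 : PP 9 3 T 0x64000201000000000000000000040008000100000000000000000000000000000000000000001000000010000000000000000000001010 := rS 0xe40cf61f12e071d7fc047a26562284a706317da6336aa5fbc493ca44f79cf691cd66814800864579bd41e9f31ec327114ec54426d54aceb210 (k8 c13504 c5558 c5532 c5531 c5529 c5528 c5414 c5412 (k8 c5411 c13455 c5209 c5395 c5448 c9739 c5477 c5325 (k8 c5326 c5478 c13511 c9693 c8135 c1059 c12800 c13516 (k8 c13492 c5372 c5374 c5524 c3026 c13519 c5452 c5454 (k8 c5492 c5496 c1221 c13168 c13493 c2755 c834 c835 (k8 c668 c12427 c3069 c2892 c2029 c2034 c353 c13518 (k4 c3593 c2908 c397 c675 k0))))))) (by decide +kernel)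
def c13521 : PP 9 3 T 0x64000201000000000000000000080008000100000000000000000000000000000000000000000000000010000000000000000000021011 := rS 0xadf7b58fe8b69b547eafef1dc50c53a8184a6613808d2f12d864c295d864d028d379f51359 (k8 c5558 c5567 c5566 c5565 c5381 c5380 c13455 c5209 (k8 c5446 c5445 c6205 c5474 c9695 c9744 c5642 c2859 (k8 c5664 c1113 c13501 c2005 c733 c5651 c672 c5668 (k8 c1243 c404 c5454 c5496 c738 c677 c3608 c8993 (k2 c2032 c5282 k0))))) (by decide +kernel)
def c13522 : PP 9 3 T 0x2000000000000064000201000000000000000000000008000000000000000000000000000000000100000001000000000440000001400000010040000000 := rS 0x8e89558aff7bf446ab (k8 c5413 c5409 c5542 c12762 c13512 c5683 c5700 c2029 (k1 c12760 k0)) (by decide +kernel)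
def c13523 : PP 9 3 T 0x60000200000000000000000100000000000000000000000000000000000000000080000001000000000440000000100000010040000000 := rS 0x48b4139c622b339c4cde8f (k8 c5568 c5565 c5382 c5379 c5532 c5411 c2989 c2986 (k2 c8385 c5651 (k1 c1094 k0))) (by decide +kernel)
def c13524 : PP 9 3 T 0x60000200000000000000000100000000000000000000000000000000000000000000000001000000000400000000000000004040000002 := rS 0x1682438c456673899bd1e29 (k8 c9693 c5568 c5565 c5382 c5379 c5532 c5411 c668 (k2 c5651 c8385 (k1 c1094 k0))) (by decide +kernel)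
def c13525 : PP 9 3 T 0x20000000000000000000000000000008000000000000000040000000000000000100000000001000000200000001400000008000020000 := rS 0x40dff0156228e04b8e90c8af37a88552b3 (k8 c5532 c5531 c5528 c5477 c5325 c5326 c5478 c352 (k8 c353 c2858 c834 c835 c3069 c2892 c2034 c3593 k0)) (by decide +kernel)
def c13526 : PP 9 3 T 0x400000000002000201040000000000000000000000000000000000000000000000000000000080000000000000110200000000000000000000000000 := rS 0x329ae7f6217d3e6139a04de7d3b98da6a1 (k8 c5398 c2940 c5395 c787 c5566 c5565 c5380 c5379 (k8 c5445 c5448 c1222 c5668 c841 c1765 c3599 c1247 k0)) (by decide +kernel)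
def c13527 : PP 9 3 T 0x2000000000000064000201000000000000000000000008000100000000000040000000000000000010000002000000010200004001400440010040001000 := rS 0x3f7898cd7660e5be083db540e333a34d5defefb3c6af318bd54299d864d567d589cda25b (k8 c5474 c9793 c5379 c1332 c5566 c5413 c13455 c5209 (k8 c5447 c5398 c5477 c5476 c5325 c5324 c5543 c10390 (k8 c12762 c5683 c2940 c13526 c1964 c1452 c1532 c1688 (k8 c5643 c2949 c273 c3587 c2192 c1968 c5689 c800 (k1 c5577 k0))))) (by decide +kernel)
def c13528 : PP 9 3 T 0x1000400000000002000211000000000000000000000008000000000000000040000000010000000080000000001000010200004000000440000000000000 := rS 0x33c66cd1c9d3c035798c5eb93 (k8 c13455 c5477 c5476 c5325 c5324 c5185 c13526 c5534 (k4 c5537 c1964 c1531 c3587 k0)) (by decide +kernel)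
def c13529 : PP 9 3 T 0x64000201000000000000000000000008000100000000000000000000000000000000000000001000000010000000000000000000001010 := rS 0x66b3d2fde577bc39017ea0bdaff68fcf3aad48090e22743ac4d6682b8a400471b925ee1f1dd2ab2107890cb6c94da5533b0c988e229d55aa4e689 (k8 c5567 c5379 c5531 c5413 c5412 c5411 c5409 c13455 (k8 c5209 c5447 c5446 c5397 c5396 c5474 c5478 c9695 (k8 c13504 c5558 c13520 c5332 c5517 c5333 c5334 c5518 (k8 c5520 c13521 c9693 c9758 c8135 c1059 c1332 c897 (k8 c13525 c668 c5651 c13524 c2758 c5374 c5589 c9793 (k8 c3009 c13527 c5672 c2392 c1977 c12546 c12751 c5283 (k4 c13528 c5452 c5453 c5495 (k1 c3617 k0)))))))) (by decide +kernel)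
def c13530 : PP 9 3 T 0x2000000000000064000201000000000000000000000008000100000000000000000000000000000000000001001000000010000000000000000000000011 := rS 0x87 (k2 c5499 c13506 k0) (by decide +kernel)
def c13531 : PP 9 3 T 0x8000800000000000000200000000000000000000000008000100100000000000000000000010000000000000040000100000004000011000000000010000 := rS 0x207cd740a34267d44b5466d3 (k8 c5496 c5492 c5454 c5567 c5566 c5564 c5381 c5380 (k4 c5507 c13298 c10339 c275 k0)) (by decide +kernel)
def c13532 : PP 9 3 T 0x1000000000000060000201000000000000000200000008000100000000040000000000001000000000000000040000000080004001400000000040010408 := rS 0x1f021aeacf7b4c66d557f7968588e904523d21914ba352d8c4471510acd028d3ea244e13129bcea95629876193 (k8 c13455 c5209 c5445 c733 c5446 c2005 c5565 c1113 (k8 c5564 c267 c5567 c5566 c5381 c5380 c5532 c5528 (k8 c5414 c5409 c5476 c5474 c5324 c5321 c5326 c5478 (k8 c5560 c5339 c5340 c5341 c8187 c12753 c13487 c1249 (k8 c5454 c5492 c5496 c13531 c5282 c2032 c10339 c3588 (k1 c275 k0)))))) (by decide +kernel)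
def c13533 : PP 9 3 T 0x2000000000022000000000000000000000000000000000000000000000000000000000000000000000000000000000000000000000000000041000601 := rS 0x6e1749a6d32234e8847639 (k8 c5534 c5456 c5528 c5412 c5409 c5447 c5397 c5444 (k2 c1507 c1511 (k1 c3578 k0))) (by decide +kernel)
def c13534 : PP 9 3 T 0x1000000000000060000201000000000000000000000008000100000000040000000000001000000000000000040000000080004001400000000040010508 := rS 0x2bd5bef14358ff5978a051a7d4489c262537b57bc770316cea95629876193 (k8 c13455 c5209 c5445 c733 c5446 c2005 c5474 c5643 (k8 c672 c5668 c5454 c5565 c1113 c5564 c267 c5567 (k8 c5566 c5381 c5380 c9695 c13532 c676 c10339 c5651 (k4 c8993 c2032 c1243 c5282 k0)))) (by decide +kernel)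
def c13535 : PP 9 3 T 0x2000000000064000201000000000000000000000008000100000000000000000000000000000000000001001000000010000000000000000000000011 := rS 0x2b7ded63f8fd5e28ac8411703437b5e281469f5139d23a3c92cd1384c4a0237a0d52d569f78ee060487c16192b8e4185b3aa558a66349876193 (k8 c13455 c5209 c5445 c9744 c5664 c733 c5446 c2005 (k8 c5474 c13529 c5534 c369 c6205 c34 c2362 c13533 (k8 c5643 c672 c5668 c5496 c5454 c5531 c2007 c5565 (k8 c5642 c1113 c5564 c267 c5537 c293 c5568 c2367 (k8 c5522 c5567 c5566 c5381 c5380 c9695 c13530 c5672 (k8 c10690 c900 c13534 c5558 c5651 c1243 c404 c677 (k4 c5278 c8993 c2032 c5282 k0))))))) (by decide +kernel)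
def c13536 : PP 9 3 T 0x40000000000000060000201000000000000000000040008000100000000000000000000001000000000000000009000000080004001400000000040010508 := rS 0x56496fe80fbd147f22bcd027d4489c262537ac51bedef1dc0c5b3aa558a614cec32703 (k8 c10690 c13455 c5209 c5447 c5445 c733 c5446 c2005 (k8 c5474 c5643 c672 c5668 c10390 c5381 c2179 c5565 (k8 c1113 c5564 c267 c5567 c5566 c5380 c5325 c5326 (k8 c676 c13534 c8993 c3069 c901 c9182 c13477 c5660 k0)))) (by decide +kernel)
def c13537 : PP 9 3 T 0x64000201000000000000000000040008000100000000000000000000000000000000000000001000000010000000000000000000000011 := rS 0x15bef6b1fd163f578a2b210437cfda9069b57bc77030258a833a8944e660f808d2f12d864c2954cec15281469bcfa890591d1e4909b34ae39f0677260c (k8 c13529 c13455 c5522 c5215 c5534 c369 c5537 c5564 (k8 c293 c5568 c2367 c34 c5567 c5566 c5565 c5381 (k8 c5380 c5531 c5209 c5447 c5446 c5445 c6205 c5474 (k8 c9695 c9744 c5642 c2362 c5664 c267 c1113 c2005 (k8 c2007 c733 c13533 c5643 c672 c5668 c5454 c5496 (k8 c13535 c10390 c5589 c5672 c13536 c5558 c5651 c1243 (k4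 c404 c738 c677 c5278 (k2 c8993 c2032 (k1 c5282 k0))))))))) (by decide +kernel)
def c13538 : PP 9 3 T 0x2000000000000064000201000000000000000000000008000000000000000000000000000000000000000001000000000240000000000000010000002000 := rS 0x1f35bf48e8f2484d6273 (k8 c5379 c1332 c5564 c293 c5568 c2367 c5542 c1223 (k2 c2361 c13522 k0)) (by decide +kernel)
def c13539 : PP 9 3 T 0x1000400000000002000201000000000000000000000008000000000000000040000000010000000080000000001000010200004000000400000000002000 := rS 0xc741b0c7279d (k4 c5522 c13455 c5476 c13528 (k2 c13526 c2364 (k1 c1452 k0))) (by decide +kernel)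
def c13540 : PP 9 3 T 0x44000011000000000000000200000008000000000000004040000000000000000141000001000800000010000001400000000000000000 := rS 0x15902f792e3a4322bcdeb01 (k8 c1978 c5477 c5325 c5326 c5478 c5341 c5342 c12464 (k2 c3593 c5683 (k1 c2034 k0))) (by decide +kernel)
def c13541 : PP 9 3 T 0x8000000000000000040000000011000000000000000000800400000000000000500000000000600 := rS 0x678dd8a331abcc62f5 (k8 c5477 c5476 c5325 c5324 c272 c1627 c1511 c2395 (k1 c3587 k0)) (by decide +kernel)
def c13542 : PP 9 3 T 0x40000000000000000000000100040008000000000000004040000000000000000100000000000000000000000001400000011100000000 := rS 0xf992e3a26 (k4 c5651 c352 c353 c12736 (k1 c5660 k0)) (by decide +kernel)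
def c13543 : PP 9 3 T 0x64000211000000000000000000040008000100000000000040000000000000000000000001000800000010000001400000000000010182 := rS 0x4b7795d58651fc4a714fa84c661d864c42a9409bcfa29589a0e6ff4797cea31 (k8 c5476 c1452 c1055 c5568 c2396 c5379 c8135 c1332 (k8 c9693 c5566 c5565 c5380 c5531 c5528 c13455 c5209 (k8 c5445 c5395 c5398 c5448 c667 c13498 c676 c3599 (k4 c13542 c13540 c13526 c1246 (k1 c5452 k0))))) (by decide +kernel)
def c13544 : PP 9 3 T 0x64000201000000000000000000040008000100000000000000000000000000000000000001001000000010000000000000000000002002 := rS 0x1fd963f388904f59081040c5f04bfd05ed4fa84c221409bcfa0b23a3c92131db459a571cf833a293396d62733b98f61937ba1cd111 (k8 c5411 c8135 c897 c292 c13455 c5209 c5395 c787 (k8 c5379 c1332 c5474 c663 c9693 c5522 c5215 c5534 (k8 c369 c5537 c5459 c5456 c5564 c293 c5568 c2367 (k8 c34 c5566 c5565 c5380 c5528 c5445 c5398 c5448 (k8 c13538 c5672 c2396 c13541 c1055 c5643 c1734 c13543 (k8 c5558 c13525 c13542 c668 c2909 c1091 c677 c3599 k0)))))) (by decide +kernel)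
def c13545 : PP 9 3 T 0x2000000000000022000001000000000000000000000008000000000000000000000000011040000000000000000004000200000000000500000000002000 := rS 0x36038cce86befb3dfa35798c5ea992bbdd0f11 (k8 c5411 c897 c292 c369 c5447 c5477 c5476 c5325 (k8 c5324 c5542 c5543 c10390 c1223 c13515 c1964 c1452 (k2 c3587 c2364 k0))) (by decide +kernel)
def c13546 : PP 9 3 T 0x64000201000000000000000000040008000100000000014040000000000000000000000000000000000200000001400000000000010182 := rS 0x12dde572b7df0225c7595583f894e24322bcdea9f5098cc3b0c98855281379f452b13997cea31 (k8 c5476 c1452 c1055 c5379 c1332 c9693 c5566 c5565 (k8 c5380 c5531 c5528 c13455 c5209 c5445 c5395 c5398 (k8 c5448 c5477 c5325 c5326 c5478 c667 c13498 c676 (k8 c13542 c3599 c5341 c5342 c3593 c5508 c2034 c5683 (k2 c13526 c1246 (k1 c5452 k0)))))) (by decide +kernel)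
def c13547 : PP 9 3 T 0x64000201000000000000000000040008000100000000000000000000000000000000000000001000000010000000000000000000000010 := rS 0x3fb2c7e711209eb21020818be0980a0bdaff483dd0e77589a052002bb3472d13db1c77e04fa84c661d864e222139a04de7d44e741647479241813 (k8 c5564 c13529 c293 c5568 c2367 c34 c5522 c5567 (k8 c5566 c5565 c5380 c5379 c5528 c5411 c13455 c5209 (k8 c5445 c5395 c5398 c5448 c5215 c5456 c5535 c5457 (k8 c5459 c5534 c5537 c369 c13537 c9693 c8135 c1332 (k8 c787 c897 c292 c13544 c3009 c13545 c5672 c1977 (k8 c13541 c1055 c5643 c1734 c13546 c5558 c13525 c13542 (k4 c668 c2909 c1091 c677 (k1 c3599 k0)))))))) (by decide +kernel)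
def c13548 : PP 9 3 T 0x2000000000000064000201000000000000000000000008000100000000000000000000000000000000000000001000000010000000000000000000000011 := rS 0x3c47e20b18703d6f85c103f3d81cb0283b072b290efbf50ef12d865269b4c88d3a213e8ec3e37a509c2625011bcea9558a358a66349876193 (k8 c13455 c5209 c5445 c9744 c5664 c733 c5381 c2179 (k8 c5446 c2005 c5565 c5642 c1113 c5564 c267 c13547 (k8 c5518 c5517 c5332 c5566 c5528 c5412 c5409 c5447 (k8 c5397 c5444 c6205 c5474 c9695 c5499 c5542 c10390 (k8 c13506 c13497 c12546 c5668 c5651 c263 c672 c889 (k8 c404 c2052 c1108 c2949 c1512 c3578 c274 c547 (k2 c800 c5655 (k1 c5577 k0)))))))) (by decide +kernel)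
def c13549 : PP 9 3 T 0x1001000000000022000011000000000000000000000008000000000000000040000000001000000000000000008000000000000000000440000040000408 := rS 0x1e00c7b63858bc774bf79e39349a5532234e8843a59 (k8 c2111 c263 c5528 c5412 c5409 c5447 c5446 c5444 (k8 c13455 c9695 c5185 c5452 c5493 c13041 c12148 c798 (k4 c1686 c1108 c5669 c1454 k0))) (by decide +kernel)
def c13550 : PP 9 3 T 0x64000201000000000000000000000008000100000000000000000000000000000000000000001000000010000000000000000000000011 := rS 0x18ec09eff819afc0e9650ded629d5065733008d2f12d86536614aec32623ce82c183b0fbdc6f4a (k8 c13547 c5518 c5333 c5517 c5332 c13529 c34 c5522 (k8 c5409 c13455 c5209 c5446 c5445 c5397 c6205 c5474 (k8 c9695 c9744 c5642 c5664 c9757 c9812 c2005 c733 (k8 c13548 c5672 c2111 c263 c12546 c2504 c13549 c6344 (k4 c13533 c5668 c5643 c672 k0))))) (by decide +kernel)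
def c13551 : PP 9 3 T 0x6000000000000044000011000000000000000000000008000000000000000000000000000000000140000000000000041400000001400000010040000000 := rS 0x238ac (k2 c5683 c12836 (k1 c2029 k0)) (by decide +kernel)
def c13552 : PP 9 3 T 0x100000000000100000000000000000040000000000000000002000000000000000000005200000000000200 := rS 0xf11f882c6 (k4 c274 c547 c800 c5655 (k1 c5577 k0)) (by decide +kernel)
def c13553 : PP 9 3 T 0x2000000000000064000201000000000000000000080008000100000000000000000000000000000000000000000000000640004000000000010000002000 := rS 0x6631c723d6f820f607199d0e23f1209d5def48567becf689146af318bd54299d864d566d3ee748e8f2484c761f7b8dd6273 (k8 c5379 c1332 c5518 c5333 c5517 c5332 c5564 c293 (k8 c5568 c2367 c5522 c5566 c5529 c5413 c13455 c5209 (k8 c5447 c5398 c5477 c5476 c5325 c5324 c5326 c5501 (k8 c5543 c10390 c13497 c13538 c12762 c13551 c2986 c5651 (k8 c2909 c2989 c13526 c1964 c1452 c1688 c5643 c2949 (k4 c1512 c13552 c2480 c3587 (k1 c1968 k0))))))) (by decide +kernel)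
def c13554 : PP 9 3 T 0x64000211000000000000000000000008000000000000000040000000000000000000000001000800000010000001400000000040000002 := rS 0xac817bc971d135655e4322bcdea215499cb6b1341ce02897fa3dfa6b (k8 c1058 c2392 c5568 c2396 c5567 c1977 c5379 c8135 (k8 c1332 c5474 c663 c5531 c5528 c5477 c5325 c5326 (k8 c5478 c13512 c13540 c13524 c352 c353 c12464 c3593 (k2 c5683 c2034 k0)))) (by decide +kernel)
def c13555 : PP 9 3 T 0x64000201000000000000000000000008000100000000000000000000000000000000000000001000000010000000000000000000000010 := rS 0x66b3d2fde571c55b02f7b47e6907ebfe0282f6a1d626b3419cae29003dc3e3ba51248f9d0616d929b4aa67619388a7556a93984d128f (k8 c5568 c5567 c5564 c5379 c5531 c5413 c5412 c5411 (k8 c13455 c5209 c5447 c5446 c5397 c5396 c5474 c13529 (k8 c5522 c2367 c293 c13547 c5332 c5517 c5333 c13550 (k8 c9693 c9758 c663 c8135 c1058 c1332 c897 c13553 (k8 c5672 c1977 c2396 c2392 c13554 c5589 c9793 c12751 (k8 c9181 c2034 c835 c5683 c13539 c5452 c5453 c5495 (k1 c3617 k0))))))) (by decide +kernel)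
def c13556 : PP 9 3 T 0x20000000000000a0000201000000000000000000000008000100000000000000000000000010000000000000000000100000000000000000000000000011 := rS 0xec6e397107c8edf812bda4d524903c7591e8fc10176b81ceddff7bfdfb011a96dea1949a7d42c94da67619311a75571510aa5668d099f5962714ac56aad2b894046f (k8 c5565 c5642 c1113 c9757 c5573 c5422 c5421 c5417 (k8 c5570 c5420 c5566 c5564 c5381 c5532 c5531 c5528 (k8 c5414 c5413 c5412 c5409 c13455 c5209 c5447 c5397 (k8 c5396 c5398 c5448 c5444 c6205 c5477 c5474 c5324 (k8 c5502 c5542 c5544 c13184 c10390 c5668 c672 c2187 (k8 c1108 c5643 c275 c1512 c10337 c10342 c3579 c6232 (k8 c1656 c10131 c2940 c8604 c10153 c2349 c7606 c2088 (k4 c547 c1741 c1774 c3578 k0)))))))) (by decide +kernel)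
def c13557 : PP 9 3 T 0x410000000000000a0000011000000000000000000040008000100000000000000000000000010000000000000008000104000004008000000000040000401 := rS 0x77ceed75781a000968fbfc0f12d8654295d864e2acb56c0dfef3 (k8 c5325 c2568 c10690 c5573 c5420 c5414 c13455 c5209 (k8 c5446 c5398 c6205 c5474 c9695 c5215 c12957 c5459 (k8 c13533 c5694 c5643 c3070 c2145 c672 c9031 c5668 k0))) (by decide +kernel)
def c13558 : PP 9 3 T 0x24000201000000000000000000000008000100000000000000000000000000000000000000001000000010000000000000000000000011 := rS 0x101f7ab83b1d2cbde94fff99283e4923c0c1686f6b1506751295ccc0234915e60f30a57619311c5442a95984cde8f138a562b5ceed8e711 (k8 c5411 c5379 c13555 c8114 c5422 c5421 c5417 c5570 (k8 c5568 c5565 c5564 c5532 c5531 c5528 c5414 c5409 (k8 c13455 c5209 c5446 c5445 c9739 c5325 c5326 c9744 (k8 c5642 c5664 c9757 c1113 c2005 c2007 c733 c13556 (k8 c5672 c12749 c10690 c5779 c10368 c1112 c3584 c8140 (k8 c2568 c13557 c5333 c2111 c6335 c263 c8309 c5584 (k2 c3070 c5694 k0))))))) (by decide +kernel)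
def c13559 : PP 9 3 T 0x20000000000000a0000011040000000000000000040000000100000000000000000000000000000000000000010000000200000000000000000000000000 := rS 0x349ae746aa5bc6cd3db1dc5e064a553b1554acd96b567fbd57df4cec0d6fd (k8 c5542 c1223 c5209 c5447 c10390 c5413 c13184 c5543 (k8 c5422 c5420 c5532 c5531 c5414 c5412 c5446 c5396 (k8 c5215 c8677 c5535 c5457 c5537 c6706 c13449 c1662 (k4 c13515 c1767 c5689 c1969 k0)))) (by decide +kernel)
def c13560 : PP 9 3 T 0x20000000000000a0000201040000000000000000000000000100000000000000000000000000000000000000000000100200000000000000000000000002 := rS 0x1bc7a6bb1e047e3cb115e5f49a75571536aa502b13b98e02cf7ff7d33b0481adfa7159ad43f4ace9ce2289 (k8 c5567 c5411 c5379 c8114 c13559 c5517 c5422 c5532 (k8 c5571 c5542 c1223 c13067 c5209 c5447 c10390 c5544 (k8 c5543 c5502 c5395 c787 c5421 c5380 c5531 c5529 (k8 c5414 c5413 c5412 c5444 c1222 c13526 c5668 c8612 (k4 c10494 c8604 c3888 c1765 (k2 c13171 c892 (k1 c2517 k0))))))) (by decide +kernel)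
def c13561 : PP 9 3 T 0x20000000000000000000000100000000000100000000000054000000014400000000000506000000200000000000005555000041000000 := rS 0x7ef131882cc0b08d3a21 (k8 c5528 c5412 c5409 c3578 c3587 c1736 c1968 c5655 (k2 c800 c5577 k0)) (by decide +kernel)
def c13562 : PP 9 3 T 0x20000000000000a0000201000000000000000000000008000100000000000000000000000000000000000000000000000200000000000000000000000002 := rS 0x381e8fdbe083d81c6674ac8dc3e3ba5240d6cf7eb45ee35798c5ea1949a6d33b0c9acc267d449c596b5ce9ce2257 (k8 c9758 c5411 c5379 c8114 c5422 c5420 c5571 c5567 (k8 c5566 c5564 c5532 c13455 c5209 c5447 c5397 c5444 (k8 c6205 c5477 c5476 c5325 c5324 c5498 c5501 c5542 (k8 c5543 c1223 c13067 c13559 c5332 c5517 c5518 c9399 (k8 c13560 c1964 c1452 c1688 c5643 c2949 c275 c1512 (k2 c13561 c13552 k0)))))) (by decide +kernel)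
def c13563 : PP 9 3 T 0x80000210040000000000000000040008000100000000000040000000000000000000000000000800400000000001400000000000000402 := rS 0x159258407c7e0317c13f3668e5a23bf06c0e657 (k8 c9758 c5379 c5209 c5215 c5456 c5459 c5534 c5537 (k8 c7694 c13541 c1055 c5643 c10494 c677 c676 c407 (k2 c5558 c5660 k0))) (by decide +kernel)
def c13564 : PP 9 3 T 0x10004000000000a2000201040000000000000000000000000000000000015000000000000000000000000000000000100200000000000000000000000000 := rS 0x34a04cd622bfc0ab8aaa5667158e762277319f8be73 (k8 c5379 c1222 c10494 c5395 c787 c5411 c8114 c5421 (k8 c5571 c5532 c5531 c5414 c5413 c5185 c13526 c5668 (k4 c5537 c8604 c841 c2087 k0))) (by decide +kernel)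
def c13565 : PP 9 3 T 0x800000000022000000000000000000000000000000000000000000001000000000010000000000000000000000000000000000000000000000000000 := rS 0x19acf4bb2536954ca7556a9 (k8 c5531 c5413 c5412 c5447 c5446 c5397 c5396 c5452 (k2 c5453 c5495 (k1 c3617 k0))) (by decide +kernel)
def c13566 : PP 9 3 T 0x24000201000000000000000000000008000100000000000000000000000000000000000000001000000010000000000000000000000010 := rS 0x33c66cd1c9d3c1df68bf5206b1b87c774a2491dff017b82d05ed439dcd057006756a71db0d5e65b18bd41e63d864e22b33984d128f (k8 c5568 c5567 c5564 c5379 c5532 c5411 c13455 c5209 (k8 c5395 c9739 c5477 c5476 c5474 c5325 c5324 c13555 (k8 c5571 c5422 c8114 c13558 c9758 c8135 c787 c897 (k8 c13562 c5672 c12749 c1972 c1977 c2396 c5779 c10368 (k8 c13563 c5332 c5517 c5518 c1058 c13067 c2392 c9793 (k8 c13565 c5185 c13564 c5534 c5537 c1964 c1531 c3587 k0)))))) (by decide +kernel)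
def c13567 : PP 9 3 T 0x2000000000022000000000000000000000000000000000000000000000000000000000000000000000000002000100600000000000000000000000000 := rS 0x792f98d37114e9b58e7b (k8 c5457 c5535 c5529 c5412 c5411 c5397 c5395 c1222 (k2 c2545 c10556 k0)) (by decide +kernel)
def c13568 : PP 9 3 T 0x41000400000000000000000000000000000000000000008000000100000044000000000140000000000000000000000000000000000015004000000000000 := rS 0x407ded6219146a31 (k8 c5476 c5324 c5326 c5478 c3588 c13298 c10483 c5694 k0) (by decide +kernel)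
def c13569 : PP 9 3 T 0x41000000000000000000000000000000000000000000000000000200000044000000000000000000000000000000000000000000004000000000000000000 := rS 0x203ef (k2 c5504 c2140 (k1 c5694 k0)) (by decide +kernel)
def c13570 : PP 9 3 T 0x1000000000000000000000000000000000000000040008000100000000040000000000150000002100000000000000000000000004405004000000000000 := rS 0x407ded68e905fff3219146a31 (k8 c5476 c5324 c5326 c5478 c5548 c2573 c10205 c13569 (k4 c3588 c13298 c2145 c5694 k0)) (by decide +kernel)
def c13571 : PP 9 3 T 0x20000210040000000000000000040008000100000000000000000000000000000000000000002000000600000000000000000000004000 := rS 0x6bc748300f9a416a711e8fc10d36a81c667425b4415e0219146a31d804cfa89f6835e70389ac4e657238005203599b62315 (k8 c5414 c5411 c5529 c5532 c9741 c9694 c9744 c12800 (k8 c9758 c5379 c1332 c5382 c2629 c5325 c2540 c5541 (k8 c5567 c5566 c5564 c5209 c5476 c5324 c5326 c5478 (k8 c5215 c5645 c5459 c2588 c13567 c1964 c1452 c1532 (k8 c1969 c5643 c275 c1512 c13518 c13570 c13067 c5589 (k4 c850 c10205 c2140 c2145 (k1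 c3588 k0))))))) (by decide +kernel)
def c13572 : PP 9 3 T 0x1000400000000000000001000000000000000000000008000100000000000080000000000080000000000000000000500000004000000000000000000000 := rS 0x1c1239623446b93 (k8 c13455 c5324 c10484 c5668 c398 c1627 c675 c5643 k0) (by decide +kernel)
def c13573 : PP 9 3 T 0x1000000000000060000221000000000000000000000008000100000000040000000000000000000000000000000000100600000000000000000000000010 := rS 0x61c8f9a633ef3d892d58ebfc97011e841588a129c18c5f21915e6f54fa6d3a7731ec32657238005203599b6220f8a9ed2279 (k8 c5524 c5374 c5372 c5414 c9739 c5411 c5529 c5532 (k8 c9741 c9694 c9744 c12800 c9758 c13455 c5209 c5395 (k8 c787 c5412 c5397 c5448 c5477 c5325 c5326 c5478 (k8 c1222 c10556 c13493 c2755 c834 c835 c667 c12427 (k8 c3068 c12080 c2892 c2029 c2890 c3026 c3593 c13572 (k4 c5492 c5496 c13518 c397 (k2 c2908 c675 k0))))))) (by decide +kernel)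
def c13574 : PP 9 3 T 0x60000201000000000000000000040008000100000000000000000000000000000000000000002000000600000000000000000000000010 := rS 0x8e78c94f6f035da3df1da582c5e5a1c46e391e8fc10cf66b4daa07199d0f2913de706a317aec3269d099f513ed41835e70357c4d1e6f589ccae47000a406b336c441f15 (k8 c5414 c9739 c5411 c5529 c5532 c9741 c9694 c9744 (k8 c12800 c9758 c5379 c1332 c5565 c5568 c5382 c12855 (k8 c2629 c5325 c2540 c128 c5541 c5567 c5566 c5564 (k8 c5412 c13455 c5209 c5477 c5476 c5324 c13571 c5372 (k8 c5374 c5524 c13573 c1964 c1452 c1532 c1969 c1967 (k8 c1530 c5643 c275 c1512 c273 c1510 c13518 c8385 (k8 c13493 c1054 c1221 c1676 c5452 c1708 c1768 c5654 (k4 c3587 c13570 c12577 c564 (k1 c5778 k0))))))))) (by decide +kernel)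
def c13575 : PP 9 3 T 0x60000201000000000000000000000008000100000000000000000000000000000000000000002000100600000000000000000000000010 := rS 0xb8e41007631ed8bdecef84f25f0ca4cc69b4cec3262388a74426df6835e7038995c003b0f82c6f4a (k8 c13574 c5518 c5516 c5517 c5332 c9744 c9758 c5382 (k8 c2629 c5325 c2540 c5541 c5529 c5528 c5412 c5411 (k8 c5409 c13455 c5209 c5447 c5397 c5395 c5444 c6205 (k8 c1222 c2545 c13567 c13573 c5185 c5451 c847 c10556 (k4 c674 c5643 c273 c1506 (k1 c3578 k0)))))) (by decide +kernel)
def c13576 : PP 9 3 T 0x60000200000000000000000000000000000000000000000000000000000000000000000001000000010400000001400000000040005402 := rS 0x4c10acc4c268f (k4 c5568 c5564 c5382 c12876 (k2 c13496 c13524 (k1 c2858 k0))) (by decide +kernel)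
def c13577 : PP 9 3 T 0x64000201000000000000000000000008000100000000000000000000000000000000000000002000000600000000000000000000000010 := rS 0xadf7a2920711e8fc10d36a81c6674059243f4a18ec326133ea241af357c4d1e6f589ccae47000a406b336c441f15 (k8 c5414 c9739 c5411 c5529 c5532 c9741 c9694 c9744 (k8 c12800 c9758 c5379 c1332 c5565 c5568 c5382 c12855 (k8 c5325 c2540 c5567 c5566 c5564 c13455 c5209 c5476 (k8 c13574 c5517 c5334 c5516 c13575 c1964 c1452 c1532 (k8 c1969 c5643 c275 c1512 c13518 c13576 c849 c5583 (k2 c2888 c5683 k0)))))) (by decide +kernel)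
def c13578 : PP 9 3 T 0x24000201000000000000000000000008000100000000000000000000000000000000000000000000000010000000000000000000000010 := rS 0x69354e9e3f077fded745401a290ceab56acb38ed95f03341afda8447a24df133996d3ea14aa67619388c54dab3 (k8 c5532 c5529 c5414 c5411 c13455 c5209 c5447 c5446 (k8 c5398 c5448 c5474 c5379 c5382 c5565 c5567 c5568 (k8 c13566 c5541 c2543 c5871 c2629 c12855 c13577 c5571 (k8 c5420 c5422 c5573 c8114 c13067 c9793 c850 c849 (k8 c2145 c5583 c9031 c5185 c6706 c13567 c10677 c5689 (k1 c1969 k0)))))) (by decide +kernel)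
def c13579 : PP 9 3 T 0x40000000000000002000100000000000000000000000000000000000000000000000000000000000400000001400000041800000000011000001001400208 := rS 0x7e27659fce31249a7d422940e758e9b (k8 c5397 c2482 c5523 c1744 c8199 c5398 c5448 c5444 (k4 c5675 c10427 c809 c8797 (k2 c268 c276 (k1 c3579 k0)))) (by decide +kernel)
def c13580 : PP 9 3 T 0x40000000000000020000100040000000000000000040000000100000000000000000000000000000000000000400000000800000000010000001000014049 := rS 0x7c160c487833a19d81b566730b8f41057 (k8 c9757 c5643 c1513 c1108 c9719 c5532 c5529 c5209 (k8 c6205 c5523 c5215 c13579 c13457 c694 c2362 c13533 k0)) (by decide +kernel)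
def c13581 : PP 9 3 T 0x2000000000000064000101000000000000000000000008000100000000000000000000000000000000000000000000800000000000000000000000004009 := rS 0x1f89d967c3f9c6259d48828f00d638d876322c0703e6b1ca3e96484091c96411efcfdd5812845e24322bcc36f50ca4d3ea14da6760234eaac426d54acce6f780bf42e080396caf93 (k8 c13455 c9757 c5474 c672 c5643 c1108 c5542 c5502 (k8 c5498 c9719 c5532 c5531 c5529 c5528 c5413 c5412 (k8 c5409 c5209 c5447 c5397 c5398 c5448 c5444 c6205 (k8 c5477 c5475 c5325 c5326 c5478 c9695 c9667 c9666 (k8 c5212 c5239 c12194 c1513 c5340 c5342 c5562 c1744 (k8 c8823 c9072 c2843 c3643 c13580 c1111 c3581 c263 (k8 c2051 c492 c3578 c2326 c2364 c1510 c1511 c13457 (k8 c5524 c12917 c10427 c809 c2603 c8797 c268 c276 (k1 c12650 k0))))))))) (by decide +kernel)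
def c13582 : PP 9 3 T 0x2000000000000024000101000000000000000000000008000100000000000000000000000000000000000000000000000110000000000000000000004008 := rS 0x3d08a33c48945fbd5a27659c76c08039dbbe5b0ca4d3e99558a4021b3aa558a6630ec32657 (k8 c9757 c13455 c5209 c5445 c5664 c733 c5446 c2005 (k8 c5475 c12887 c8199 c5413 c5447 c5448 c5444 c6205 (k8 c5474 c10390 c5668 c672 c5643 c13581 c5571 c5420 (k8 c5570 c5573 c13184 c737 c8134 c5186 c5673 c701 (k2 c1513 c12641 k0))))) (by decide +kernel)
def c13583 : PP 9 3 T 0x60000111000000000000000000040008000100000400000000000000400010000000000001008000100000000000000000000000004409 := rS 0x1686e139c501e3ef1fcee7d0302493e00616c326111c5442b33995c223d128a53fb0c991eb01f (k8 c1112 c5212 c5562 c13455 c5209 c5448 c8199 c9666 (k8 c12427 c9667 c9757 c9719 c5532 c5528 c5414 c5409 (k8 c5445 c6205 c5474 c8435 c5215 c294 c13533 c5643 (k8 c1456 c672 c676 c5668 c9525 c5670 c751 c268 (k2 c5666 c12753 (k1 c1149 k0)))))) (by decide +kernel)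
def c13584 : PP 9 3 T 0x64000111000000000000000000000008000100000000000000000000000010000000000001008000100000000000000000000000004409 := rS 0x4eb538a3be6f7a508e2a2136acc52731292c8f586bc4d1bee (k8 c5239 c5505 c958 c5507 c5212 c5562 c5342 c9666 (k8 c9719 c8199 c5532 c5529 c5528 c5414 c5409 c13583 (k4 c5333 c12194 c5675 c10427 (k2 c2402 c268 (k1 c10415 k0))))) (by decide +kernel)
def c13585 : PP 9 3 T 0x8000000000000000000100040000000000000000000000000000000000000000000000000010000000000000010010120001040000000000000000000080 := rS 0x7758b5d16d5 (k4 c5585 c5583 c5507 c5506 (k2 c672 c8284 k0)) (by decide +kernel)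
def c13586 : PP 9 3 T 0x1000000000000064000101000000000000000000000008000100000000000000000000000010000000000000001400100800000000000000000000004009 := rS 0xec6e39a50202e073e9c1126f47fcd201f05a198f9d2d865269f4d98533b0c988d3b15109ccae1112fb88358 (k8 c5212 c5340 c5239 c9666 c9667 c9757 c9719 c5528 (k8 c5414 c5412 c5409 c13455 c5209 c5447 c5445 c5397 (k8 c5448 c5444 c6205 c5474 c5523 c2482 c5672 c12749 (k8 c1112 c13584 c5589 c165 c3038 c3043 c5666 c2870 (k8 c13585 c1108 c5643 c13580 c274 c1511 c5332 c3578 k0))))) (by decide +kernel)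
def c13587 : PP 9 3 T 0x1000000000000064000111000000000000000000000008000100000000000000000000000010000000000001001400100000000000000000000000004009 := rS 0x1686 (k2 c5672 c12749 (k1 c13584 k0)) (by decide +kernel)
def c13588 : PP 9 3 T 0x1000400000000000000101000000000000000000000008000000000000020000000400000000000000000001000110100000000000000800000000000000 := rS 0x3c4d23fb31bed11ae4fe7e1 (k8 c5456 c5592 c13455 c5324 c10484 c2953 c6899 c10493 (k2 c2077 c5670 (k1 c5579 k0))) (by decide +kernel)
def c13589 : PP 9 3 T 0x9000000000000000000101000000000000000200000008000100000000000000000000000010000000001001405401121010000000000000000540001008 := rS 0x380fde369f79c7e11d0dc72080bc000e8144c4cfa5b0ca4d3e9b30a6761932ba35aeff (k8 c5586 c5507 c5505 c9757 c13455 c5209 c5447 c5445 (k8 c5397 c5448 c5444 c6205 c5474 c2870 c755 c2873 (k8 c751 c13585 c8783 c1108 c5643 c273 c1510 c3578 (k8 c5456 c8999 c13588 c5496 c9525 c8993 c9158 c3058 k0)))) (by decide +kernel)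
def c13590 : PP 9 3 T 0x101000000000000000200000008000000000000000000000000400010000000000000005445100000000002001000000000000080 := rS 0x341c2c74078d9edf66f7876773e96f27f3 (k8 c5588 c13455 c5474 c1456 c672 c1674 c5668 c8354 (k8 c2947 c5453 c9525 c5670 c941 c1716 c3607 c8355 k0)) (by decide +kernel)
def c13591 : PP 9 3 T 0x1000000000000064000101000000000000000000000008000100000000000000000000000010000000000001001400100010000000000000000000004009 := rS 0x7c658ffc6810405c0e485a9b84e7f38a3cf20d439ef381949a84469d8a884dab33995c7a2514a7f61932092c8f586bfb83e6b (k8 c13586 c1111 c5239 c5507 c5212 c5562 c5342 c5340 (k8 c13455 c5209 c5448 c8199 c9666 c12427 c9757 c9719 (k8 c5532 c5529 c5528 c5414 c5412 c5409 c5398 c5444 (k8 c6205 c13587 c5372 c5373 c5522 c5524 c5526 c13589 (k8 c8379 c268 c5666 c1148 c3584 c13590 c1108 c5643 (k4 c12653 c10342 c276 c8797 (k2 c5670 c12650 k0))))))) (by decide +kernel)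
def c13592 : PP 9 3 T 0x1000000000000064000101000000000000000000000008000100000000000000000000000010000000000000001400100010000000000000000000004009 := rS 0xa50e873e11b8202e073e9c18e8605a24ded1cea403e6bf7044b61949a7d36614cec326234e884e657 (k8 c9757 c9719 c5528 c5412 c5409 c13455 c5209 c5447 (k8 c5445 c5397 c5448 c5444 c6205 c5474 c9667 c5239 (k8 c13586 c1111 c13591 c5374 c9793 c3039 c3043 c694 (k8 c5672 c799 c5666 c2870 c13585 c1108 c5643 c1511 (k4 c13533 c274 c3578 c5215 (k1 c5332 k0)))))) (by decide +kernel)
def c13593 : PP 9 3 T 0x50000000000000a0000101000000000000000000000008000100000000000000000000000000000000000000050000000800000000000000000000000001 := rS 0x14b71847e48c2de4c46b365e7626b5 (k8 c5422 c2600 c5523 c5420 c5532 c5409 c13455 c5474 (k4 c5673 c5191 c701 c5549 (k2 c13040 c8677 k0))) (by decide +kernel)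
def c13594 : PP 9 3 T 0x10000000000000a0000101000000000000000000000008000100000000000000000000000010000000000000051000100800000000000000000000000009 := rS 0x481fc076efabdafee0f82f3a5b0ca852bb0c995d96ad (k8 c5573 c5420 c9757 c13455 c5209 c5446 c5398 c6205 (k8 c5474 c5523 c12749 c1112 c13593 c5507 c5584 c9031 (k4 c5668 c5185 c672 c13533 (k1 c5643 k0)))) (by decide +kernel)
def c13595 : PP 9 3 T 0x50000000000000a0000111000000000000000000000008000100000400000000000000000000000000000000050000000000000000000000000000000001 := rS 0x52dc611f9230b79311acd96b5 (k8 c5422 c5420 c5532 c5409 c13455 c5474 c5673 c5191 (k4 c701 c5549 c13040 c8677 k0)) (by decide +kernel)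
def c13596 : PP 9 3 T 0x10000000000000a0000111000000000000000000000008000100000000000000000000000010000000000000051400100000004000000000000040000001 := rS 0x240fe03b77d5ed7f744c16862d8654295d864d96ad (k8 c5573 c5420 c13455 c5209 c5446 c5398 c6205 c5474 (k8 c5672 c12749 c13182 c13595 c5507 c5584 c9031 c5668 (k4 c5185 c672 c13533 c5643 k0))) (by decide +kernel)
def c13597 : PP 9 3 T 0x800000000022000100040000000000000000000000000000000000080000000000000000001000000000000054000000000000000000000000000000 := rS 0x103e370359a0fd (k4 c2631 c13565 c2201 c2202 (k2 c5465 c1716 (k1 c5670 k0))) (by decide +kernel)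
def c13598 : PP 9 3 T 0x100000000000000000000000000000000000000000000000000000000000000000000400000000000000000800000000000010000 := rS 0x2759 (k2 c5562 c2810 (k1 c12617 k0)) (by decide +kernel)
def c13599 : PP 9 3 T 0x22000101000000000000000000000008000000000000080000000000000010001000000000200004100000000000000000000000000080 := rS 0xd7681f3bc7f3b96f26fd (k8 c2631 c13455 c5474 c672 c3816 c5668 c13597 c13565 (k2 c4141 c2201 k0)) (by decide +kernel)
def c13600 : PP 9 3 T 0x50000000000000a0000101000000000000000000000008000100000000000000000000000010000000000000454004100000000000000000000040001009 := rS 0x773f7787de31e8202e4103c0be74b2411c96258084518452d865269f50ec326238a88566292bb2c4eb5 (k8 c5422 c5570 c5420 c9757 c8199 c5532 c5528 c5414 (k8 c5409 c13455 c5209 c5398 c5448 c5444 c6205 c5474 (k8 c5326 c5673 c701 c2141 c12632 c12638 c13598 c3584 (k8 c8534 c5588 c13257 c13599 c10205 c1108 c5643 c1513 (k4 c12641 c3579 c5186 c276 (k2 c5493 c807 k0)))))) (by decide +kernel)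
def c13601 : PP 9 3 T 0x24000001000000000000000000000008000100000000000000000000000000000000000000001000000110000000000000000000000010 := rS 0x489f5a5007eb31c63a1b8e410174081cecd1efbfd5f036ba37dc8f3c8350e7bce07cd68945ab56ab1659c76ded2bb1506750119802352d86c320f49a8536614aa67619311a75571510aa567a1 (k8 c13578 c5532 c5531 c5528 c5414 c5413 c5412 c5409 (k8 c13455 c5209 c5447 c5446 c5445 c5397 c5398 c5444 (k8 c9739 c6205 c5475 c5474 c5324 c12887 c5664 c5642 (k8 c2005 c2007 c733 c9757 c13582 c13592 c5571 c5420 (k8 c5421 c5422 c5573 c737 c8134 c13594 c1111 c13596 (k8 c5372 c5373 c5522 c5524 c5526 c13600 c5505 c5507 (k8 c5508 c5584 c5586 c9031 c10484 c5668 c672 c938 (k8 c1108 c5643 c273 c1510 c3578 c8999 c6899 c2504 (k4 c3623 c2077 c2827 c5374 (k1 c13588 k0)))))))))) (by decide +kernel)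
def c13602 : PP 9 3 T 0x2000000000000064000101000000000000000000080008000000000000000000000000000000000000000000000000000000000000000000000000000000 := rS 0x2c3dd58 (k4 c5212 c5239 c13497 c5506 k0) (by decide +kernel)
def c13603 : PP 9 3 T 0x2000100000000000000000000000000000000000000000000000000000420000000000000010140050200400000000000000000000000 := rS 0x1f4de63 (k4 c5395 c1226 c1634 c13195 k0) (by decide +kernel)
def c13604 : PP 9 3 T 0x2000000000000024000101000000000000000000000008000100000000000000000000000000000000000000001000100200000000000000000000000000 := rS 0x12e06118ea22267f40f8bde73659c76c4724d2bc27aceb1c12c435f7dfecf7ec05ee43228d5e6f54caac007731ec3265f (k8 c1222 c13455 c5209 c5395 c787 c9744 c5413 c5447 (k8 c5477 c5325 c5324 c5326 c5478 c5498 c5502 c5542 (k8 c5543 c5544 c10390 c1223 c5668 c1627 c838 c13489 (k8 c13515 c5457 c5215 c5334 c5520 c13602 c5571 c5420 (k8 c5419 c13184 c5186 c5463 c5577 c956 c13603 c12630 (k4 c2749 c1986 c12663 c3593 k0)))))) (by decide +kernel)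
def c13605 : PP 9 3 T 0x8000000000000004000011000000000000000000000008000000000000000000000000000000000000000001000800000010000004400000000000000000 := rS 0x100 (k2 c12464 c1978 k0) (by decide +kernel)
def c13606 : PP 9 3 T 0x9000000000000004000011000000000000000000000008000000000000000000000000000000000000000001005000000010000004400000000000000000 := rS 0x82 (k2 c5672 c13605 k0) (by decide +kernel)
def c13607 : PP 9 3 T 0x1000000000000044000101000000000000000000000008000100000100000000000000000000000000001000005000501010400000000000000000000002 := rS 0x1ef01248e1bc0640024fa3ef18cda7de62b190679359ef387f48c0dae4725c74823d397bab0250890c8af37aa7cc69bd864c5257 (k8 c9758 c8199 c13455 c5209 c5397 c5395 c5448 c5477 (k8 c5325 c5326 c5478 c9667 c9666 c5212 c5239 c11969 (k8 c12427 c5340 c5341 c5342 c5562 c5507 c5508 c9824 (k8 c806 c13606 c5372 c5523 c5524 c5525 c10556 c838 (k8 c5668 c8433 c5492 c9525 c13298 c2824 c276 c5670 (k4 c5643 c941 c675 c13590 (k2 c2952 c397 (k1 c5996 k0)))))))) (by decide +kernel)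
def c13608 : PP 9 3 T 0x800000000000000a0000110040000000000000000000000000100000000000000000000000000000000000000000000000000000000000000000000000000 := rS 0x158a5385c69d8aacd96b5 (k8 c5422 c5420 c5532 c5414 c5412 c5549 c5591 c8677 (k2 c9176 c9399 k0)) (by decide +kernel)
def c13609 : PP 9 3 T 0x10000000000000a4000111000000000000000000000008000100000000000000000000000000000000000000005000500010000000000000000000000000 := rS 0x4b48d6101e33f9f7c0c4efb555e8b6b91fddf350a5533b0c9c5596ad (k8 c5573 c5420 c5414 c13455 c5209 c5447 c5446 c5398 (k8 c13608 c5191 c10418 c5507 c5583 c5584 c5585 c9031 (k8 c5668 c5185 c1633 c840 c6706 c5670 c5216 c9822 (k2 c5342 c13606 k0)))) (by decide +kernel)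
def c13610 : PP 9 3 T 0x4000000000000000000101000000000000000000000000000000001100000000000000000000001400000001411000051600000000000000000000000000 := rS 0x89228de8d (k4 c946 c1226 c5673 c3604 (k1 c858 k0)) (by decide +kernel)
def c13611 : PP 9 3 T 0x24000101000000000000000000000008000100000000000000000000000000000000000000001000100210000000000000000000000000 := rS 0x1c35971fc84901372ba06d73fa23ded34bf798ac647a0cf26b489ef38ad5a9cd9671db7b4bea14aa762a6d59800ee63d864d0f11 (k8 c5411 c897 c13455 c5209 c5395 c787 c9744 c5532 (k8 c5529 c5414 c5412 c5446 c5398 c1222 c13604 c13607 (k8 c5571 c5420 c5419 c5422 c5573 c13609 c5372 c5374 (k8 c5523 c5524 c5525 c5526 c13168 c838 c5668 c5452 (k8 c5496 c8156 c13610 c2922 c1983 c1985 c9031 c2835 (k4 c3070 c1060 c8509 c2620 (k2 c5559 c5591 (k1 c9176 k0)))))))) (by decide +kernel)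
def c13612 : PP 9 3 T 0x44000101000000000000000000000008000100000000000000000000000000000000000000000000400000000000000004000000000042 := rS 0x813fb55af1d209c87beeac0942263d8020af93 (k8 c13455 c9758 c5643 c5209 c5395 c9667 c9666 c5212 (k8 c5239 c1513 c11969 c5340 c5341 c5507 c5585 c806 (k2 c12653 c8453 k0))) (by decide +kernel)
def c13613 : PP 9 3 T 0x44008000000000000000111000000000000000000000008000000001100000000000000000010001400000001401000051600000000000004000000000600 := rS 0xf5ab1d08a2224d7 (k8 c5465 c5675 c13610 c703 c12630 c2838 c1513 c12314 k0) (by decide +kernel)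
def c13614 : PP 9 3 T 0x44008000000000020000111000000000000000000000008000100000000000040000000010400001000000000401000250600000000000040000000000000 := rS 0x3966b1d200b1dd286af37ac462a6d59b1466cf0401c62570064dc67f (k8 c5577 c5466 c13455 c9744 c9758 c5476 c1452 c5643 (k8 c1531 c1964 c126 c5532 c5529 c5414 c5411 c5477 (k8 c5325 c5324 c8677 c5332 c5516 c13613 c800 c1968 (k2 c274 c3587 k0)))) (by decide +kernel)
def c13615 : PP 9 3 T 0x20000000000000a0000101000000000000000000000008000100000000000000000000000000000000000000001000200200000000000000000000000000 := rS 0xf1aa118ea21239c478ddc0e36bf88d67bf9fbfbefd68bdc869b4cec2229d55c54dab3628cc10071895c019338b2ce6b5 (k8 c5422 c5419 c5420 c5571 c13455 c9744 c9758 c5476 (k8 c1452 c5643 c1964 c126 c5532 c5529 c5414 c5413 (k8 c5412 c5411 c5209 c5447 c5397 c5478 c5498 c5501 (k8 c5542 c10390 c13184 c12883 c1688 c1223 c5186 c5465 (k8 c5466 c6661 c4167 c2847 c13614 c5374 c13610 c12630 (k4 c2749 c2838 c12314 c1513 k0)))))) (by decide +kernel)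
def c13616 : PP 9 3 T 0x50000000000000a0000111040000000000000000000000000100000000000000000000000000000000000000000000000000000000000000000000000000 := rS 0x1f3 (k2 c13608 c5191 k0) (by decide +kernel)
def c13617 : PP 9 3 T 0x8000000000000000000000000000000000000000008000000100000000000000000100000000000000000000000000000000000001004000000000000 := rS 0xd7 (k2 c5465 c12314 k0) (by decide +kernel)
def c13618 : PP 9 3 T 0x50000000000000a0000101000000000000000000000008000100000000000000000000000010000000000000001000000200000000000004000000000040 := rS 0x6b9fd02d320f7ab1e31eb54231d4423cd691ce10e231536accee63d8020ae00c99c4e6b5 (k8 c5422 c5419 c5571 c13455 c9744 c9758 c5643 c5209 (k8 c5395 c787 c5532 c5529 c5414 c5411 c5478 c13616 (k8 c5374 c5523 c5526 c13610 c12630 c2749 c2838 c1513 (k8 c13617 c5216 c5186 c5340 c5496 c12653 c2921 c1984 (k1 c8453 k0))))) (by decide +kernel)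
def c13619 : PP 9 3 T 0x1000400000000000000011000000000000000000000008000000000000000000000000004000000000000000005000000000000000000004000000004200 := rS 0x19a39688ec6ef7f002d0435798c5eb93 (k8 c13455 c5477 c5476 c5325 c5324 c5672 c12749 c5185 (k4 c1972 c1511 c5456 c5459 (k2 c5534 c5537 (k1 c3587 k0)))) (by decide +kernel)
def c13620 : PP 9 3 T 0x1000400000000082000100040000000000000000000000000000001800000000000000005000000400001080000101200000000000000000000000000000 := rS 0xffe363f80bcd14fa6596b5 (k8 c5422 c5420 c5447 c5448 c1708 c1528 c5688 c5535 (k2 c6706 c809 (k1 c10667 k0))) (by decide +kernel)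
def c13621 : PP 9 3 T 0x24000001000000000000000000000008000100000000000000000000000000000000000000001000000010000000000000000000000010 := rS 0x7d3f3492ecd8923d067935a4739df37a055ed7f77b55ab539b2ce3b60433c0e33629d0ae873b800d03107a84c695d864e229d8a9b567a1 (k8 c13578 c5532 c5529 c5414 c5412 c5411 c13455 c5209 (k8 c5446 c5395 c5398 c9739 c5476 c13601 c9744 c787 (k8 c897 c9758 c13611 c126 c1964 c1452 c1531 c5643 (k8 c13612 c5571 c5420 c5419 c5422 c5573 c13615 c13618 (k8 c5507 c5584 c1748 c1225 c9031 c13619 c5374 c5523 (k8 c5524 c5525 c5526 c3604 c1967 c13620 c8156 c8433 (k2 c2828 c8369 k0))))))) (by decide +kernel)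
def c13622 : PP 9 3 T 0x1001000000000044000111000000000000000000000008000100000000000000000000000000000000000000000000000000000000000000000000000000 := rS 0x1f27bf8e95dec9d61afee (k8 c5239 c5507 c5212 c13455 c5185 c5215 c9525 c5333 (k2 c5188 c12194 k0)) (by decide +kernel)
def c13623 : PP 9 3 T 0x9001400000000000000101000000000000000000000008000100100000000000000000000080000000000000000044500000004004400000000000000000 := rS 0x10124b4c7fe240b8070063e82598f76234486451abcdeb9381b55fecf (k8 c2561 c5586 c5585 c5508 c13455 c5477 c5325 c5324 (k8 c5326 c5478 c10484 c5668 c13572 c5688 c1627 c1633 (k8 c5643 c675 c12311 c1716 c5670 c5576 c5579 c399 (k2 c2077 c5996 k0)))) (by decide +kernel)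
def c13624 : PP 9 3 T 0x1001000000000044000101000000000000000000000008000100000100000000000000000000000000001000000001501400400000000000000000001002 := rS 0x40492de403dcfa381d81bc6d319f798c7bce1fe06d723c747a7225fbab0250890c8af37aa7cc69bd864c5257 (k8 c9758 c8199 c13455 c5209 c5397 c5395 c5448 c5477 (k8 c5325 c5326 c5478 c9667 c9666 c5212 c5239 c12638 (k8 c11969 c12427 c5341 c5562 c5507 c5508 c806 c13622 (k8 c5372 c10556 c13623 c5492 c5496 c9525 c13612 c1674 (k8 c675 c1456 c397 c5670 c941 c2947 c2952 c5996 k0))))) (by decide +kernel)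
def c13625 : PP 9 3 T 0x5001400000000022000101040000000000000000000000000000000000000000000000004400000000000000000400150200000000000000000000000000 := rS 0x103f9c0510df699fdc6816678988d1509dcc65f (k8 c1222 c5395 c787 c5398 c10484 c5668 c5186 c5688 (k8 c5463 c5466 c5577 c5579 c5580 c13603 c2077 c5271 (k2 c1985 c8509 k0))) (by decide +kernel)
def c13626 : PP 9 3 T 0x101040000000000000000000000000100000000000000000000800480000000000000000000150200000000000000000000000080 := rS 0x1f8228137d6114893ef8d426330ec0be8d (k8 c946 c1222 c5209 c5445 c5395 c5398 c5465 c4141 (k8 c1983 c13349 c5216 c1226 c3897 c5558 c9215 c676 k0)) (by decide +kernel)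
def c13627 : PP 9 3 T 0x50008000000000a2000100040000000000000200000000000000000000010000000000000000000000000000000044000000000000500000000040000080 := rS 0x1023e920963d1288e2a21598a44eb5 (k8 c5422 c5570 c8199 c5532 c5528 c5414 c5409 c5559 (k4 c5560 c5342 c3584 c1456 (k2 c13257 c13597 k0))) (by decide +kernel)
def c13628 : PP 9 3 T 0x50008000000000a0000100040000000000000000040000000100000000010000000400000000000000000000000044000000004000100200000000001080 := rS 0x3e04e044a24bffe63f7078ab29d8aad5aa092387d37b0 (k8 c5209 c5397 c2472 c8287 c30 c5454 c5422 c5414 (k8 c5412 c13627 c5216 c9176 c5576 c5591 c3012 c399 (k4 c5660 c5694 c301 c13597 (k1 c8164 k0)))) (by decide +kernel)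
def c13629 : PP 9 3 T 0x50008000000000a0000101000000000000000000000008000100000000000000000000000080000000000001000000100600000000000000000000001080 := rS 0xdf133f4055cd771d2c700a22a852bb088c54dab32b800be71659cd6aad3da3f3993 (k8 c13455 c13616 c5526 c5372 c5573 c5422 c5419 c5420 (k8 c5571 c1222 c9744 c9758 c5532 c5529 c5414 c5411 (k8 c5209 c5446 c5398 c5326 c674 c675 c5516 c4735 (k4 c13626 c9031 c3070 c13628 (k2 c3817 c2920 (k1 c3604 k0)))))) (by decide +kernel)
def c13630 : PP 9 3 T 0x4000000000000000000101000000000000000000000008000100000000000000000000800400000000000000100000100000000000000000004000400200 := rS 0x1f9044a13ac2247be322865269f50ec32629 (k8 c8199 c13455 c5209 c5398 c5448 c5444 c6205 c5326 (k8 c5465 c4169 c1983 c5216 c8818 c5559 c5340 c275 (k1 c3579 k0))) (by decide +kernel)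
def c13631 : PP 9 3 T 0x4000000000000002000001000000000000000200000008000000000000000000000000000400000080000000100000000000000000000000014000400202 := rS 0x12448f8de411e8948a19c9a4d3ea1 (k8 c5398 c5448 c5444 c13455 c6205 c5326 c5559 c5560 (k4 c5340 c1060 c3579 c2835 (k2 c275 c8818 k0))) (by decide +kernel)
def c13632 : PP 9 3 T 0x40000000000000a0000101000000000000000000000008000100000000000000000000000000000000000000002000100600000000000000000000000000 := rS 0x3e22a04fff9b81be7f71f8ab3015735c2e0803b57bccf631ef38a14da56229d8a9b453ed41835e6913b98cae002f9e7c3b0c99c596275aab51a73 (k8 c5419 c946 c5573 c5422 c5570 c5420 c5571 c13455 (k8 c5209 c13567 c2545 c1222 c9744 c9758 c5395 c787 (k8 c13428 c5325 c2540 c128 c5541 c8199 c5529 c5414 (k8 c5412 c5411 c5446 c5397 c5398 c13616 c5372 c10556 (k8 c2561 c13625 c5454 c13629 c5643 c1506 c13630 c9031 (k8 c3070 c13631 c5216 c5466 c5577 c5580 c6661 c5271 (k4 c3012 c5694 c2630 c13597 (k1 c2981 k0)))))))) (by decide +kernel)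
def c13633 : PP 9 3 T 0x24000101000000000000000000000008000100000000000000000000000000000000000000002000100600000000000000000000000000 := rS 0xde051290006631f4127b3f91d88d18923fbe6f7fb555ed78efb95ab539b2ce3b6f09e4be354fa8536614ac453b1536acfda0d79a44ee63d864cae00 (k8 c9744 c9758 c13455 c5209 c5395 c787 c13428 c5325 (k8 c2540 c5541 c5532 c5529 c5414 c5412 c5411 c5446 (k8 c5445 c5397 c5398 c5448 c5324 c1222 c2545 c13567 (k8 c13624 c5571 c5420 c5419 c5422 c5573 c13632 c5504 (k8 c5507 c5584 c5585 c5586 c1225 c9031 c2546 c3604 (k8 c10484 c5668 c12623 c3889 c848 c1627 c1633 c10556 (k4 c5643 c3599 c13623 c674 (k2 c941 c4672 k0)))))))) (by decide +kernel)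
def c13634 : PP 9 3 T 0x8000000000000000000000000000000000200000000000100000000000000000000000000000000000004000000000000000000000000014001400000 := rS 0x7a25 (k2 c5559 c5560 (k1 c10342 k0)) (by decide +kernel)
def c13635 : PP 9 3 T 0x4000000000000000000101000000000000000000000000000000001100040000000000000000001400000001410000051600000000000000000000000000 := rS 0x89228de8d (k4 c946 c1226 c5673 c3604 (k1 c859 k0)) (by decide +kernel)
def c13636 : PP 9 3 T 0x5000400000000080000101000000000000000000000008000000001100000000000000005010000400000101400000001600000000000004000000000200 := rS 0xf1aa118ea2206d0f0b5fc443c99c4e6b5 (k8 c5422 c5419 c5571 c13455 c5478 c5186 c5465 c6706 (k8 c5688 c2201 c13635 c12630 c2749 c2838 c13617 c1513 k0)) (by decide +kernel)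
def c13637 : PP 9 3 T 0x10000000000a0000100040000000000000000000000000100000000000000000000800000000000000001400000000400000000000140000000400042 := rS 0xdf890e9023e37d2c8225ac0f7c61949a7d43b088c54dab314820ae716589ce6b5 (k8 c5422 c5419 c5570 c5420 c5571 c9758 c5643 c8199 (k8 c5532 c5529 c5414 c5411 c5209 c5398 c5448 c5444 (k8 c6205 c5465 c4169 c5216 c5559 c5340 c9399 c1060 (k4 c3579 c12653 c5654 c3604 (k2 c2513 c495 k0))))) (by decide +kernel)
def c13638 : PP 9 3 T 0x40000000000000a0000101000000000000000000000008000100000000000000000000000000000000000000002000200600000000000000000000000000 := rS 0x3e22a04fff9b81be7f71f8ab3015735fc2176317daa97ef0dd9e8f3ce7142634da5533b088a762a6d598a7da91628ccf6cd418e410071895c019306bcd96275aab51a73 (k8 c5419 c946 c5573 c5422 c5570 c5420 c5325 c2540 (k8 c13455 c9744 c9758 c5476 c1452 c5643 c273 c128 (k8 c1967 c1689 c1964 c126 c13428 c5541 c8199 c5532 (k8 c5529 c5414 c5412 c5411 c5209 c5447 c5446 c5397 (k8 c5395 c5398 c13616 c5524 c5526 c1530 c1510 c13636 (k8 c5452 c5454 c1221 c10253 c1506 c5535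 c13637 c9031 (k8 c3070 c13631 c5216 c5466 c5577 c5580 c6661 c5271 (k4 c3012 c5694 c2630 c13597 (k1 c2980 k0))))))))) (by decide +kernel)
def c13639 : PP 9 3 T 0x8002000000000080000100040000000000000000000008000100001800000000000000000000000400001000000000200000000000000004000000000200 := rS 0x823d1fb4eb0e23ff8dc2c74cec196b58eb7d02d7 (k8 c5507 c1748 c2513 c5504 c5422 c5420 c5209 c5447 (k8 c5535 c5460 c6706 c809 c6118 c5216 c1970 c276 (k2 c4170 c5340 (k1 c13298 k0)))) (by decide +kernel)
def c13640 : PP 9 3 T 0x24000001000000000000000000000008000100000000000000000000000000000000000000000000000010000000000000000000000010 := rS 0xd26825d9e79ce785bf1247f7cde817fabdafee56ad4e6cb38ed810cd038cce8573b801226835a0fda84d0accdb154ec4462a131a576193 (k8 c13455 c5209 c5446 c5395 c5398 c5476 c5411 c5412 (k8 c5414 c5529 c5532 c13578 c13621 c5541 c128 c2543 (k8 c5871 c13428 c9744 c787 c9758 c13633 c1964 c1452 (k8 c1967 c5643 c13612 c5571 c5420 c5419 c5422 c5573 (k8 c13638 c5507 c5584 c5586 c1748 c1225 c9031 c2546 (k8 c3604 c2513 c13639 c5185 c5524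 c1530 c13620 c5688 (k2 c8156 c2136 k0))))))) (by decide +kernel)
def c13641 : PP 9 3 T 0x12000000000000000000000000000000000000000000000000000000000000000000000000000004000800000000000000000001400210 := rS 0x6e3b1c87e942310a758f9d07a4d3699 (k8 c5447 c5397 c5444 c9739 c5523 c2482 c1136 c2372 (k4 c1134 c9672 c9664 c274 (k2 c5332 c5518 (k1 c3578 k0)))) (by decide +kernel)
def c13642 : PP 9 3 T 0x42000000000000000000000000000000000000000000000001000000400000000080000000000000000000000000000000001001040211 := rS 0x158658a5269f5089c043f (k8 c275 c5642 c267 c5398 c5448 c5444 c1243 c1247 (k2 c5651 c10337 k0)) (by decide +kernel)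
def c13643 : PP 9 3 T 0x6000000000000054000210000000000000000000000000000000000100000000000000000000000040000000000000000480000000000000000000000000 := rS 0x1206c89a251e8742bfd0715562c51b01 (k8 c5502 c5381 c2179 c5683 c3052 c2008 c5544 c5541 (k4 c5499 c5568 c5567 c5382 (k2 c5665 c12826 (k1 c747 k0)))) (by decide +kernel)
def c13644 : PP 9 3 T 0x4000400000000044000000000000000000000000000000000100000000090000000000500800000100000504000000000000000000000140000141400000 := rS 0x22a50efc2e2663493be3 (k8 c5464 c12435 c5689 c2087 c2088 c5537 c8999 c5654 (k2 c3578 c5331 k0)) (by decide +kernel)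
def c13645 : PP 9 3 T 0x6000400000000054000201000000000000000000000008000100000000000000000000000000000000000000000000000080000000000000000000000011 := rS 0x8c774aaca7596b41b8e443023c835239c6afcd588b5787d066b1f8202ed73d81cecf12d865269f50a6d331309a251f113aa558a61d864d628d2b894046f43c050aff (k8 c5544 c5541 c5502 c5499 c5565 c5642 c1113 c9757 (k8 c5381 c2179 c13455 c5209 c5445 c733 c5446 c2005 (k8 c9730 c5568 c5567 c5564 c5382 c5447 c5397 c5398 (k8 c5448 c5444 c6205 c5474 c9695 c5668 c672 c889 (k8 c2187 c1108 c5643 c275 c13641 c2008 c1111 c13642 (k8 c738 c5683 c12913 c2890 c13643 c5374 c5522 c5524 (k8 c3613 c265 c273 c1510 c2035 c13644 c1342 c10337 (k4 c5231 c5332 c5331 c3578 k0)))))))) (by decide +kernel)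
def c13646 : PP 9 3 T 0x40000000000000000000000000000000000000001000001001000000000000000480000000000000000000000001400000005540000000 := rS 0x16a29 (k2 c1243 c1248 (k1 c12753 k0)) (by decide +kernel)
def c13647 : PP 9 3 T 0x4000800000000054000201000000000000000000000008000100000000001040000000014000000000000000000000000880004000000000005000000010 := rS 0x1f31f240fcd75622d5ee33d018f2091c7848e491d8dc3f15a508c42b363e75e235798c5ea1907a6d3281379f5128f3aa558a61d864d628d6a8cceecd (k8 c5495 c5493 c5492 c5454 c5381 c2179 c13455 c5209 (k8 c5445 c733 c5446 c2005 c5568 c5567 c5566 c5565 (k8 c5380 c5447 c5397 c9739 c6205 c5477 c5476 c5325 (k8 c5324 c9695 c5523 c2482 c2377 c2372 c1134 c9672 (k8 c1139 c9664 c8484 c5332 c5334 c5520 c6344 c3587 (k8 c274 c2382 c5643 c5669 c1775 c13646 c738 c5683 (k4 c2032 c10269 c891 c677 (k2 c5589 c9334 k0)))))))) (by decide +kernel)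
def c13648 : PP 9 3 T 0x200000000000000000000000000000000000400000000014004000000000000000000000000000001040211 := rS 0x3e (k2 c10337 c275 k0) (by decide +kernel)
def c13649 : PP 9 3 T 0x6000000000000054000210040000000000000000000000000100000000000015000000001000000000000040000000000480000000000015000000000011 := rS 0x45600e38658a4f6791d8dd5c6ca508c32934fa84c299d8444ae2709894def768b3c3e02 (k8 c5642 c1111 c5543 c5501 c5498 c5565 c1113 c5564 (k8 c267 c9757 c9730 c5209 c5447 c5445 c5398 c5448 (k8 c5444 c6205 c9733 c5211 c5665 c13643 c8484 c5332 (k8 c2428 c742 c1243 c1246 c3587 c8203 c5651 c5643 (k1 c13648 k0))))) (by decide +kernel)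
def c13650 : PP 9 3 T 0x10000000000000000000000000000000000000000000000000000000000080000000000000000000000000000000000000000041000088 := rS 0x11d2c700a (k4 c674 c675 c5516 c395 (k1 c6197 k0)) (by decide +kernel)
def c13651 : PP 9 3 T 0x6000000000000054000201000000000000000000000008000100000000000000000000000000000000000000000000000080000000000000000000000011 := rS 0x14a1d08c721c0405c0e37631e41a7bce07d066b669dc6697ef33dfa8568a1deef11abcc36317a86526c93aa558a61d864cae2709894046f (k8 c5565 c5642 c1113 c5564 c267 c9757 c13455 c5209 (k8 c5445 c733 c5446 c2005 c5396 c5444 c6205 c5477 (k8 c5476 c5475 c5325 c5324 c9695 c5498 c5499 c5501 (k8 c5541 c5542 c5543 c13645 c5452 c5492 c5493 c5495 (k8 c13647 c2008 c1111 c13649 c5372 c5522 c5524 c3607 (k8 c2326 c13650 c1108 c5643 c3577 c273 c483 c3587 (k2 c6197 c5332 k0))))))) (by decide +kernel)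
def c13652 : PP 9 3 T 0x1000800000000056000220000000000000000000000000000000000100000005000000001040000004000000001000400080000000000001005041000080 := rS 0x35cfe8b1e0fd5e280b564bd4a36a75f8a96818d1a754ab14c27b439acf2834bb3daad3 (k8 c5496 c5454 c5453 c5452 c5525 c5524 c5523 c5373 (k8 c5372 c5445 c733 c5446 c2005 c5381 c5395 c3607 (k8 c2024 c5682 c10719 c2552 c13351 c13168 c12110 c1450 (k8 c5651 c1243 c404 c1308 c738 c677 c1491 c5278 k0)))) (by decide +kernel)
def c13653 : PP 9 3 T 0x5000000000000056000201000000000000000000000008000000000000000000000000000000000000000000000000000110000000000000000000000090 := rS 0x1ae7f5622c7eaf14566948469b559bde639dde2f32d8c43393889d52ac530ac4cc8d1384c4a6f41aac3e6bce008021b (k8 c5475 c12887 c5642 c5238 c5523 c1111 c8138 c5525 (k8 c5565 c1113 c5564 c267 c5381 c5664 c2179 c5445 (k8 c733 c5446 c2005 c9730 c13455 c6205 c5476 c5474 (k8 c5325 c9695 c672 c13650 c5668 c8354 c5454 c5496 (k8 c13652 c13398 c12110 c5651 c1243 c404 c738 c5683 (k2 c677 c2032 (k1 c5278 k0))))))) (by decide +kernel)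
def c13654 : PP 9 3 T 0x4000000000000042000200000000000000000000000000000000000000000000000000000000000010000040000000000080000000000000000021000211 := rS 0x158658a55c934fa851a2709894046f (k8 c5565 c5642 c1113 c5564 c267 c5381 c5398 c5448 (k4 c5444 c5282 c539 c1246 (k2 c5651 c13648 k0))) (by decide +kernel)
def c13655 : PP 9 3 T 0x1000000000000016000000000000000000000000000000000000000000008005000000000000000024000040000000000000000000000140000161400000 := rS 0x754a11a75f8a949a6d32af (k8 c137 c5447 c5397 c5444 c2453 c2893 c10719 c484 (k2 c13351 c3578 (k1 c5332 k0))) (by decide +kernel)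
def c13656 : PP 9 3 T 0x5000000000000056000201000000000000000000000008000000000000000000000000000000000000000000000000400110000000000000000000000210 := rS 0x1d88d3b4a54a11fe8b560712e33ef3c46af318867269364a6d328d89a251e754ab14cc6143a4506ab81c07e4210f9ac2e07010043639068dcf39c (k8 c5238 c5524 c1510 c5522 c273 c5475 c12887 c5642 (k8 c13653 c1108 c5523 c1111 c265 c5201 c5592 c5550 (k8 c8138 c5525 c5374 c5373 c5445 c5664 c733 c5446 (k8 c2005 c5568 c5567 c5382 c5381 c5447 c5397 c5396 (k8 c5444 c13455 c6205 c5476 c5325 c5324 c9695 c5668 (k8 c272 c5452 c3577 c13654 c2889 c13655 c3613 c2449 (k4 c13398 c10719 c484 c5332 (k1 c3578 k0)))))))) (by decide +kernel)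
def c13657 : PP 9 3 T 0x1000400000000002000000000000000000000000000000000000000000008005000000010000000020000000000000000000000000000050000041400000 := rS 0x231dbf19a934da65aa9f (k8 c5448 c2890 c5447 c5397 c5444 c2507 c2893 c6899 (k2 c1237 c13371 k0)) (by decide +kernel)
def c13658 : PP 9 3 T 0x4000000000000044000201000000000000000000000008000100000000000000000000000000000000000000000000000110000000000000000000000010 := rS 0x8c76cd7e52908ff5622d5ed768f7cec370405c0e1f80c0d56833c9ad2287f9673daf11abcc32934da676b1309a251ec530ec326b133234ae2501004366f (k8 c5565 c5475 c12887 c5642 c1113 c9757 c5381 c5664 (k8 c2179 c13455 c5209 c5445 c733 c5568 c5567 c5564 (k8 c5382 c13640 c5447 c5397 c5444 c6205 c5325 c5324 (k8 c9695 c13651 c5238 c5201 c5373 c5374 c5523 c5524 (k8 c5525 c8138 c5550 c5592 c1111 c13653 c1108 c5643 (k8 c1510 c13656 c5493 c2131 c2187 c13642 c738 c5683 (k8 c13657 c3613 c13398 c736 c2503 c5332 c5331 c13371 k0))))))) (by decide +kernel)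
def c13659 : PP 9 3 T 0x40000201000000000000000000000008000100000000000000000000500010000000000000040000100000004000000000005000000080 := rS 0xa6b23e081fbbc770496c339340a34fa89 (k8 c5567 c5566 c5381 c5380 c13455 c6205 c5474 c30 (k8 c672 c5668 c10269 c10339 c677 c5558 c404 c5651 k0)) (by decide +kernel)
def c13660 : PP 9 3 T 0x8000000000000042000001000000000000000000000008000000000000000000000000000010000000000000000000500000000000005000005000400200 := rS 0x2b22920071a69719f79e2350d8c4339349b252b1d (k8 c5504 c5446 c5396 c5444 c13455 c6205 c5476 c5475 (k8 c5324 c9695 c5668 c272 c5452 c5496 c3577 c13298 (k2 c538 c5340 (k1 c5651 k0)))) (by decide +kernel)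
def c13661 : PP 9 3 T 0xa000000000000056000201000000000000000000000008000000000100000000000000000000000000000000000000000080000000000000005000400210 := rS 0x14d66284a5a88d6647cea43e683359ed0b0143867260f46c4d128f81a2dfe761e9f47e1362984ea95 (k8 c5446 c2005 c5445 c733 c5564 c275 c5566 c1512 (k8 c13660 c5586 c5583 c5508 c5568 c5567 c5382 c5381 (k8 c9739 c13455 c6205 c5499 c5502 c5541 c889 c13641 (k8 c2008 c12913 c3613 c5374 c2785 c2897 c9733 c8714 (k4 c12459 c5685 c5342 c1289 (k1 c5651 k0)))))) (by decide +kernel)
def c13662 : PP 9 3 T 0x50000220000000000000000200000000000100000000020000000000000000000400014004040000800000140000100000000001400211 := rS 0x1383b66c5064e15a96296ca258a4228d09a24720d0f9ac05f3 (k8 c5592 c5642 c5523 c1111 c5522 c273 c5567 c5564 (k8 c5381 c5558 c5339 c5342 c13648 c12110 c8187 c11945 (k4 c1719 c2051 c5685 c2078 (k2 c493 c1292 (k1 c13264 k0))))) (by decide +kernel)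
def c13663 : PP 9 3 T 0x8000000000000050000220000000000000000000000000000100000000000014000000000000000004014004001000800080140000100000000001400211 := rS 0x16416f70ed28515959fce000f46c4d128f1384c4a0237c7516ff43a441a83 (k8 c5525 c5522 c5374 c5373 c5586 c5583 c5504 c5565 (k8 c5642 c1113 c5564 c267 c5568 c5567 c5382 c5381 (k8 c9739 c8783 c5592 c2901 c13662 c5651 c5231 c538 (k4 c5333 c5516 c2003 c3571 k0)))) (by decide +kernel)
def c13664 : PP 9 3 T 0x44000201000000000000000000000008000100000000000000000000000000000000000000000000000110000000000000000000000010 := rS 0x8c76cd7e52908370faacf26bce347dbdf3b0f47e080b81daa8b6bfb84a272bb14ea028899802f122975e65b0dbd432934fa8536614aa676193da84cde7d (k8 c5566 c5565 c5564 c13640 c13455 c5209 c5447 c5446 (k8 c5445 c5397 c5398 c5448 c5444 c6205 c5477 c5475 (k8 c5474 c5325 c5321 c5326 c9695 c12887 c5664 c9730 (k8 c5642 c2005 c733 c9757 c267 c1113 c13658 c5507 (k8 c5583 c5585 c13659 c1108 c5643 c275 c1512 c13660 (k8 c5493 c13661 c10484 c5238 c5523 c5524 c8138 c1111 (k8 c1510 c13663 c13398 c736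 c2503 c5332 c5331 c13371 k0))))))) (by decide +kernel)
def c13665 : PP 9 3 T 0x6000000000000056000211000000000000000000000008000000000000000000000000000000000000000000000000000200000000000000000000000080 := rS 0x476064b1f379c67e3d32fc2cd19a5fbc71571e58e471b926201fa510c8af37ae4d3ea131985026f3e99d62731497c067518bde02ff36a14d6fd (k8 c5542 c1223 c5541 c832 c5544 c5502 c5498 c5476 (k8 c1452 c9741 c1451 c9694 c5379 c1332 c125 c5566 (k8 c5565 c5380 c5445 c5395 c5398 c5448 c13455 c5477 (k8 c5325 c5326 c5478 c5211 c9664 c5665 c5334 c5518 (k8 c5520 c796 c1454 c13551 c2989 c13526 c5452 c5492 (k8 c5495 c6344 c1246 c5669 c3599 c1775 c892 c677 (k4 c408 c2516 c405 c3593 k0))))))) (by decide +kernel)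
def c13666 : PP 9 3 T 0x40000220000000000000000000000000000000000000000000000000000000000000000000000000000000000000000000015200004400 := rS 0x24d62261347a441a47 (k8 c2423 c5522 c5374 c5568 c5564 c5382 c5651 c344 (k1 c12876 k0)) (by decide +kernel)
def c13667 : PP 9 3 T 0x6000000000000054000220000000000000000000040008000000000000000000000000000000000100000000000000001000000000000000011440004000 := rS 0x9115ac7cd591d578988e0b10116261347c05220d (k8 c5522 c5374 c5502 c5568 c5564 c5382 c5326 c5650 (k8 c2416 c2423 c13666 c2986 c352 c5683 c12708 c5231 (k2 c3052 c12876 (k1 c345 k0)))) (by decide +kernel)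
def c13668 : PP 9 3 T 0x40000000000000050000220000000000000000100000000000100001000000000000000000040000000006000000000000000000000005000000000000080 := rS 0x593816adf65f88ff133ea3c82813da44f2e3 (k8 c1778 c5524 c5374 c5372 c5380 c1734 c5568 c5566 (k8 c5382 c677 c5655 c5464 c5580 c1342 c3610 c5685 (k1 c2898 k0))) (by decide +kernel)
def c13669 : PP 9 3 T 0x6000400000000054000220000000000000000000000008000100000000000000000000400040000100006000000000001000000000000000011400004080 := rS 0x8134897e31f355c7f3564563aaf135648e49a50f4864579bd5ef017f87c767b (k8 c5372 c1674 c1083 c5544 c5502 c5498 c5477 c5325 (k8 c5326 c5478 c12427 c13667 c5334 c5520 c12110 c5651 (k8 c2986 c352 c3046 c5683 c12708 c1778 c2890 c13668 (k4 c5576 c408 c5689 c3593 (k1 c2088 k0))))) (by decide +kernel)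
def c13670 : PP 9 3 T 0x6000400000000054000201000000000000000000000008000100000000000000000000000000000000000000000000000200000000000000000000000090 := rS 0xae38ab4489c6bb1d884307a7d027731ac4e62911800be033a8c4da8535bf6227b3ce736193 (k8 c13455 c5209 c13665 c5524 c5372 c5371 c5542 c1223 (k8 c5541 c832 c5476 c1452 c9741 c1451 c9744 c9731 (k8 c9694 c5379 c1332 c5395 c787 c5380 c5448 c9739 (k8 c5478 c5668 c838 c1765 c13168 c13669 c2758 c2755 (k2 c5683 c13526 k0))))) (by decide +kernel)
def c13671 : PP 9 3 T 0x6000000000000054000201000000000000000000000008000100000000000000000000000000000000000000000000000200000000000000000000000090 := rS 0x434b053183ecd4bb17bc3b419e4f79c36b3d0ad155a1dea953b98f619311800ea31 (k8 c5476 c1452 c9744 c9731 c13455 c5209 c5395 c787 (k8 c5446 c5477 c5499 c5500 c5501 c5541 c5543 c832 (k8 c13665 c5372 c5524 c5525 c1674 c13670 c5451 c5452 (k4 c5495 c8815 c3607 c674 (k2 c5516 c2416 (k1 c5650 k0)))))) (by decide +kernel)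
def c13672 : PP 9 3 T 0x80000000000000040000220000000000000000000000008000000000000000040000000000000000102000000000000001000000000000000011200004000 := rS 0x7fc755e262382c8a49 (k8 c5588 c5326 c2416 c2423 c13666 c2986 c352 c2453 (k1 c12736 k0)) (by decide +kernel)
def c13673 : PP 9 3 T 0x80000000000000050000220000000000000000000000008000000000000000040000000000000000102000000000000001000000000000000011440004000 := rS 0x1ff1d5789ab247a50848a49 (k8 c5588 c5326 c13672 c5650 c5520 c12110 c5651 c2986 (k2 c352 c2453 (k1 c12736 k0))) (by decide +kernel)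
def c13674 : PP 9 3 T 0x5000400000000056000201000000000000000000000008000000000000000000000000000000000004000000001000100200400000000400000000000010 := rS 0xae38ab448f7543303efd67f8538c7623448793079dcc6b1398a40623007ca227b359e7386d (k8 c832 c5238 c5524 c5523 c5372 c5371 c5201 c9744 (k8 c9731 c9741 c9694 c5379 c1332 c5395 c787 c9739 (k8 c13455 c5478 c10484 c5668 c838 c13168 c5458 c1651 (k8 c1240 c1083 c5688 c5682 c2072 c13673 c2758 c2755 (k2 c5683 c13526 k0))))) (by decide +kernel)
def c13675 : PP 9 3 T 0x2000000000000000000000000000000000000000100000000000000000000000000000000000005001400400000000000000080000080 := rS 0x18e9d1c98d363b (k4 c1674 c5397 c5395 c2472 (k2 c1083 c675 (k1 c10556 k0))) (by decide +kernel)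
def c13676 : PP 9 3 T 0x81000000000000054000220000000000000000000040008000000000000000001000000000000000104000000000000001000000000000000011440004000 := rS 0xa87bbf440f3 (k4 c5325 c5650 c13351 c343 (k2 c5682 c13673 k0)) (by decide +kernel)
def c13677 : PP 9 3 T 0x81000000000000056000220000000000000000000000008000000000000000001000000000000000104000040000000001000400000000000011400004080 := rS 0x4eb1d520b7bd28c61f3c9acf711 (k8 c5371 c5372 c5523 c5524 c13675 c5395 c13676 c5333 (k4 c5516 c13673 c674 c10719 (k1 c13168 k0))) (by decide +kernel)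
def c13678 : PP 9 3 T 0x2000200000000000000000000000000000000000000000000000000000000000000000000000000000000400000000000002000000090 := rS 0x7f658fce29f5098cc273379f48281 (k8 c5380 c1734 c5566 c5565 c5379 c5445 c5395 c5398 (k4 c5448 c2755 c2909 c1091 (k2 c677 c3599 k0))) (by decide +kernel)
def c13679 : PP 9 3 T 0x5000000000000056000201000000000000000000000008000000000000000000000000000000000004000000001000000200000000000000000000000090 := rS 0x25bbc6d7883d62731488c007518fc8767bce094be03 (k8 c9741 c1451 c13678 c5238 c5372 c1674 c5201 c5476 (k8 c1452 c9744 c9731 c9694 c5379 c1332 c9739 c9695 (k4 c832 c13674 c13677 c5452 k0))) (by decide +kernel)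
def c13680 : PP 9 3 T 0x1000000000000016000000000000000000000000000000000000000100000000000000010020000004000000002005001400400000000000000000000000 := rS 0x31d3acd7e2a4c69b (k8 c5397 c5395 c2448 c5682 c2504 c1240 c839 c10556 k0) (by decide +kernel)
def c13681 : PP 9 3 T 0x80000400000000042000201000000000000000000000008000000000000000040000000000000000002000000000000100200000000400000005000000000 := rS 0x1ff1d57d60e393000a40649 (k8 c5588 c9741 c9694 c9744 c13455 c668 c5651 c13526 (k2 c5341 c2453 (k1 c12736 k0))) (by decide +kernel)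
def c13682 : PP 9 3 T 0x81000400000000056000201000000000000000000000008000000000000000000000000000000000004000000002000100200400000000000001000000000 := rS 0x7fc755e267b91d502036311a245c9800ee63589ce227b359e73849 (k8 c5588 c5238 c5524 c5523 c5372 c5371 c5379 c1332 (k8 c5395 c787 c9744 c13455 c5326 c10484 c5668 c13680 (k8 c666 c833 c2423 c343 c13681 c2986 c352 c2453 (k1 c12736 k0)))) (by decide +kernel)
def c13683 : PP 9 3 T 0x80000000000000042000200000000000000000000000008000000000000000040000000000000000002000040000000000000400000400000015000000082 := rS 0xae653f8ff1d08d60e29f5098cc273409bcfa49 (k8 c5588 c5566 c5565 c5380 c5379 c5445 c5395 c5398 (k8 c5448 c668 c5651 c5558 c5341 c676 c12736 c3599 (k2 c2453 c1246 k0))) (by decide +kernel)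
def c13684 : PP 9 3 T 0x4000000000000044000201000000000000000000000008000100000000000000000000000000000000000000000000000010000000000000000000000090 := rS 0x1ff1d57899ee4754080d897ef2104a4955fcb39ed3a97de2451883f6193daac4e6290188c0068 (k8 c13664 c9744 c9731 c9741 c9694 c5379 c1332 c13640 (k8 c13455 c5209 c9739 c5476 c5326 c9695 c1451 c1452 (k8 c13671 c5238 c5201 c8138 c5588 c13678 c13679 c13682 (k8 c5452 c13677 c666 c833 c2423 c343 c13683 c2986 (k2 c352 c2453 (k1 c12736 k0)))))) (by decide +kernel)
def c13685 : PP 9 3 T 0x10000010040000000000000000000000000000000000000054000000014000000000000000000000401404000000000011000000000200 := rS 0x1e7c2cc1c9ed8e371dc429433 (k8 c272 c5211 c5665 c5332 c5518 c796 c1684 c274 (k4 c3587 c5537 c2386 c5669 k0)) (by decide +kernel)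
def c13686 : PP 9 3 T 0x40001000000000050000000000000000000000000040008000000000000000000000400150000000000000400000000000000000000005004001080000000 := rS 0x37968d623c748358219146a31 (k8 c5476 c5324 c5326 c5478 c5231 c5340 c5341 c5562 (k4 c3588 c11939 c10298 c2514 k0)) (by decide +kernel)
def c13687 : PP 9 3 T 0x86000000000000044000220000000000000000000000000000000000000000000000000000000000100000000000000011000000000100000000080000002 := rS 0xaf568991473899bd0a83 (k8 c5525 c5541 c5565 c5382 c5379 c12913 c12200 c2888 (k2 c2986 c5683 k0)) (by decide +kernel)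
def c13688 : PP 9 3 T 0x6001000000000056000220000000000000000000040008000000000000000000000400000000000000000000000000200200000000005004000080000000 := rS 0x12563e67169b548a9b3ea2400b139b44da85 (k8 c5541 c832 c5501 c5379 c1332 c9744 c5567 c5566 (k8 c5397 c5326 c1532 c1969 c13518 c13687 c5231 c13686 (k1 c5559 k0))) (by decide +kernel)
def c13689 : PP 9 3 T 0x6000000000000054000201000000000000000000000008000100000000000000000000000000000000000000000000000200000000000000000000000200 := rS 0x13817ef17ceaa90f38c43e1a58e99a371ca0cf20dce1acdacf7ea15a2ab7bbcc62f549a6d3223003146a3f098f4fa333b98f6193 (k8 c13455 c5209 c5395 c787 c272 c5566 c1512 c5564 (k8 c275 c5324 c1627 c9744 c9731 c5447 c5397 c5444 (k8 c5477 c5476 c5325 c5498 c5500 c5501 c5541 c5542 (k8 c5543 c832 c1223 c13685 c5522 c5524 c5525 c273 (k8 c1510 c8354 c3587 c5332 c5456 c340 c8999 c5650 (k4 c2319 c13688 c1222 c5668 (k2 c1506 c9090 (k1 c1082 k0)))))))) (by decide +kernel)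
def c13690 : PP 9 3 T 0x80000000000000000000220000000000000000000000008000100000000000000000000100000000800000004000000001200000000005004000080000000 := rS 0x3c75920c748c26378016273 (k8 c5379 c1332 c9744 c5565 c12200 c2321 c352 c349 (k2 c5562 c13617 (k1 c5655 k0))) (by decide +kernel)
def c13691 : PP 9 3 T 0x81000000000000054000220000000000000000000000008000000000000000001000000000000000104000000000000011000000000000000011440004000 := rS 0x26085648e0ba544c268f488349649 (k8 c5588 c5546 c5522 c5374 c5568 c5564 c5382 c13676 (k4 c5516 c5520 c12110 c12614 (k2 c5651 c2858 k0))) (by decide +kernel)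
def c13692 : PP 9 3 T 0x5000000000000056000220000000000000000000000008000100000000000001000000001000000004000000001000200200000000005144000000004000 := rS 0x341503b7bab840ad1207d647169b559e431abcc62f549a56266f3ea251eb1398a4062300445226b5ac57e46d (k8 c832 c5201 c5590 c5548 c5523 c5374 c5371 c9744 (k8 c9731 c9741 c9694 c5379 c1332 c5568 c5567 c5566 (k8 c5565 c5382 c5446 c5444 c5477 c5476 c5325 c5324 (k8 c5478 c1531 c1532 c1969 c13518 c3604 c13690 c13691 (k8 c2758 c2761 c5683 c343 c340 c2993 c3587 c2024 k0))))) (by decide +kernel)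
def c13693 : PP 9 3 T 0x5000000000000054000201000000000000000000000008000100000000000000000000000010000004000000001000000200000000005144000000004000 := rS 0x1dd2c40461207d6471f0b4daacfef1d4daf149c4cde8f589cc520311802227b489ad6b15f9335079c3b98f6193 (k8 c13455 c5209 c5395 c787 c5238 c5525 c8354 c5201 (k8 c5590 c5548 c5523 c5374 c5372 c5371 c9744 c9731 (k8 c9741 c9694 c5379 c1332 c5568 c5565 c5382 c5444 (k8 c9695 c832 c13692 c5668 c5453 c5454 c5496 c8115 (k8 c13518 c3604 c13690 c13691 c2760 c2761 c5520 c340 (k1 c5654 k0)))))) (by decide +kernel)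
def c13694 : PP 9 3 T 0x81000800000000056000220000000000000000000000008000100000000000001000000000000000004000000000000001200000000005004000100004000 := rS 0x250fac8e2d36aa4e266f47ac4e6290188c0111489ad6b15 (k8 c5590 c5548 c5523 c5374 c5371 c9744 c9731 c9741 (k8 c9694 c5379 c1332 c5568 c5565 c5382 c5444 c5454 (k4 c5496 c13518 c3604 c13690 (k2 c2761 c13691 k0)))) (by decide +kernel)
def c13695 : PP 9 3 T 0x81000000000000054000201000000000000000000000008000100000000000000000000000010000004000000002000001200000000005004000000004000 := rS 0x943eb238b4daa74ef885f8a978bcd2713379f5128f3b98f6193589cc520311802229135e716b15 (k8 c5590 c5548 c5238 c5523 c5374 c5371 c9744 c9731 (k8 c9741 c9694 c5379 c1332 c13455 c5209 c5395 c787 (k8 c5568 c5567 c5566 c5565 c5382 c5444 c5325 c9695 (k8 c2448 c5682 c2550 c13694 c5668 c1532 c1969 c13518 (k4 c3604 c13690 c2761 c13691 k0))))) (by decide +kernel)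
def c13696 : PP 9 3 T 0x4000000000000044000201000000000000000000000008000100000000000000000000000000000000000000000000000010000000000000000000000010 := rS 0x68b3c76f7543f4406c423346e3955a0cf20df9673da331e8fd8a08038d5e6317a83d26954ced4267d339dcc7b0c995c0068 (k8 c13664 c9744 c9758 c13455 c5209 c5395 c787 c125 (k8 c5566 c5564 c13640 c5447 c5446 c5444 c9739 c5477 (k8 c5476 c5325 c5324 c13684 c5643 c1627 c275 c1512 (k8 c272 c13689 c5238 c5201 c5522 c5524 c5525 c8138 (k8 c273 c1510 c8354 c13693 c13695 c666 c2553 c833 (k4 c343 c340 c13265 c2024 (k1 c3587 k0))))))) (by decide +kernel)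
def c13697 : PP 9 3 T 0xa000000000000054000210040000000000000000000008000100000000000000000000000000000100000000000000401400000000000000010000000012 := rS 0x2513d640c5f5a9288e4904c403f4a219146af318bd4c7b03995e3aaf7bb4602cf (k8 c5543 c5502 c5501 c5498 c5584 c5504 c9758 c5379 (k8 c5209 c5395 c5477 c5476 c5325 c5324 c5326 c5478 (k8 c5211 c9664 c5665 c13685 c5334 c5520 c9072 c1340 (k4 c1055 c5643 c12835 c354 (k2 c13678 c5651 k0))))) (by decide +kernel)
def c13698 : PP 9 3 T 0xa000000000000054000200040000000000000000000008000100000000000000000000000000000000000000000000000200000000000000000000000010 := rS 0x41a47386b36bf50b0143a36268947800ee63d82c4e62901c0d16ff (k8 c5586 c5583 c5508 c9741 c9694 c5379 c1332 c5209 (k8 c5395 c787 c9744 c5568 c5567 c5382 c5381 c5499 (k8 c5502 c5541 c5542 c832 c1223 c13697 c5374 c5525 (k1 c3613 k0)))) (by decide +kernel)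
def c13699 : PP 9 3 T 0x9000000000000016000220000000000000000000000000000000000000000000000000000020000004000000001000001010400000000000000000000000 := rS 0x33fc2cd4e1fd8e9f5098d366139a051b13379f5128b889ecd679 (k8 c5524 c5523 c5372 c5371 c5583 c5567 c5566 c5565 (k8 c5382 c5381 c5380 c5379 c5445 c5397 c5395 c5398 (k8 c5448 c838 c840 c13168 c12389 c5458 c1651 c10805 k0))) (by decide +kernel)
def c13700 : PP 9 3 T 0x9000000000000016000201040000000000000000000000000000000000000000000000000000000000000000001000101210000000000000000000000000 := rS 0x18ed16fb4d9ee1ef337c67e6297d027d3b98daed53d9e557f38020d230347a2d1aff89a250f9c (k8 c5238 c5373 c5567 c5382 c5586 c5381 c5583 c5568 (k8 c5508 c5374 c5525 c3613 c5592 c8138 c5524 c5372 (k8 c5585 c5507 c5395 c787 c5566 c5380 c1222 c13699 (k8 c10269 c5287 c8354 c5668 c3058 c5453 c5496 c2952 (k2 c8355 c9140 (k1 c3607 k0)))))) (by decide +kernel)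
def c13701 : PP 9 3 T 0x8000000000000042000000000000000000000000000008000000000000000000000000040000000000000000000000000000000000004004011000000000 := rS 0x9eb2401ea4d3f1d (k8 c5504 c5448 c5444 c12427 c13298 c5340 c349 c5651 k0) (by decide +kernel)
def c13702 : PP 9 3 T 0x9000000000000054000201000000000000000000000008000100000000000000000000000000000000000000001000001210000000000000000000000000 := rS 0x2d62a1f7e5295b59120fc10d3038cce8b3f9c008631d864d1b1309a251e290195c010345abdfe8748a0d579c (k8 c5238 c8138 c5525 c5374 c5373 c5586 c5584 c5583 (k8 c5508 c9744 c9758 c9741 c9694 c5568 c5567 c5564 (k8 c5382 c5381 c13455 c5209 c5476 c5478 c3613 c5592 (k8 c2901 c13700 c1964 c1452 c1969 c5643 c275 c13701 (k8 c5559 c2758 c5231 c13274 c5517 c1241 c1094 c5685 k0))))) (by decide +kernel)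
def c13703 : PP 9 3 T 0x41000000000000056000220000000000000000000000008000000101000046001000000500000000100000000000000001000400000000000011000000080 := rS 0x802704cc7ac82c92f7a507c821b31a6d03113d9acf22179acc7a9f (k8 c5448 c12427 c2556 c5325 c2550 c5524 c5523 c5372 (k8 c5371 c5380 c5397 c5395 c5475 c1734 c13675 c13351 (k8 c5333 c5334 c5516 c12110 c674 c5651 c13168 c9331 (k1 c12365 k0)))) (by decide +kernel)
def c13704 : PP 9 3 T 0x49000000000000054000201000000000000000000000008000100000000002000000000000000000100000000000000501000404000000000011000000000 := rS 0x69778663f628200ef11aec326138eb5e06d57fe722aaf (k8 c5584 c1241 c5238 c5586 c5585 c5508 c5507 c5504 (k8 c5564 c13455 c5209 c5324 c9695 c13703 c5643 c1627 (k4 c275 c272 c5668 c13701 (k1 c5496 k0)))) (by decide +kernel)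
def c13705 : PP 9 3 T 0x50000000000000000000000000000000000000000000000000000000000000002000000000000000000000000000000000002000000000 := rS 0xa507ab3f3 (k4 c5548 c5559 c1094 c5231 (k1 c5517 k0)) (by decide +kernel)
def c13706 : PP 9 3 T 0x9000000000000054000201000000000000000000000008000100000000002000000000000000000000000000000000101200000000000000000000000000 := rS 0x17cee63d864d62290195c01f312ad22aaf489c516b37fa3e266f39c44d79c (k8 c5238 c5523 c5371 c5379 c5565 c5382 c5568 c5586 (k8 c2556 c5583 c834 c5374 c5584 c1241 c3604 c13705 (k8 c5548 c9744 c9758 c9741 c9694 c1332 c13455 c5209 (k4 c5395 c787 c1222 c13704 k0)))) (by decide +kernel)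
def c13707 : PP 9 3 T 0x9000000000000054000201000000000000000000000008000100000000000000000000000000000000000000000000001210000000000000000000000000 := rS 0xf810d3038cce8255a2ce2afc54a1063b0c99ce261337a251e290195c00af7f9c51711489ad579c (k8 c5238 c8138 c5523 c5374 c5371 c5583 c834 c5586 (k8 c5584 c9744 c9758 c9741 c9694 c5568 c5567 c5565 (k8 c5564 c5382 c5379 c13455 c5209 c5476 c13702 c2448 (k8 c5682 c1241 c2556 c3604 c13705 c13706 c1964 c1452 (k4 c1969 c5643 c13701 c275 k0))))) (by decide +kernel)
def c13708 : PP 9 3 T 0x9000000000000002000200000000000000000000000000000000002000000000000000014000001000000000000040110000400000000000000000000000 := rS 0xf0b3538e1f1b2bbe9f31984e681469bcfb036afcdbea1 (k8 c5398 c2950 c5590 c5585 c5508 c5566 c5565 c5381 (k8 c5380 c5379 c5445 c5395 c5448 c5725 c3599 c5464 (k4 c1719 c1292 c8709 c5458 (k1 c5688 k0)))) (by decide +kernel)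
def c13709 : PP 9 3 T 0x9000000000000050000201000000000000000000040008000100000000000040000000004000001002000000000000510000404004000000011200000000 := rS 0x7798a7e08906b1f38a11c7a9f8ec0d16ff68a576193 (k8 c13455 c5209 c5446 c2024 c5586 c5583 c5508 c5504 (k8 c5448 c12427 c2423 c12271 c5590 c5231 c10205 c5558 (k4 c13708 c840 c5668 c13531 k0))) (by decide +kernel)
def c13710 : PP 9 3 T 0x1000000000000000000000008000100000000000040000000014000000000000000000400400000004000000440000000000840 := rS 0x19a33628e41035798c5eb93 (k8 c13455 c5477 c5476 c5325 c5324 c5643 c2471 c1627 (k2 c272 c8354 (k1 c3587 k0))) (by decide +kernel)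
def c13711 : PP 9 3 T 0x44000201000000000000000000000008000100000000000000000000000000000000000000000000000010000000000000000000000010 := rS 0x129d4be0668b3c6e3b7b92e96a87ead4400a362ad079cf69c517ee2b8a4ee000199cd0314998d2a99d864f6b13 (k8 c5382 c13640 c13455 c5209 c5447 c5446 c5395 c5444 (k8 c5476 c13664 c125 c9741 c9744 c787 c9694 c9758 (k8 c13696 c5583 c834 c13698 c5238 c5525 c8138 c13707 (k8 c665 c666 c2610 c2553 c833 c5516 c2588 c343 (k8 c340 c2418 c13265 c2024 c13710 c1451 c1452 c13678 (k1 c13709 k0)))))) (by decide +kernel)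
def c13712 : PP 9 3 T 0x42000800000000000000210040000000000000000080008000100000000000000000000000040000000000000040000100000004008000000000000000000 := rS 0x1ae7f6fb8c827a031e41238f0b4d9a336a8d5e6317aa051af768b3c7637 (k8 c5518 c5332 c5543 c5501 c5498 c5381 c5380 c5477 (k8 c5476 c5325 c5324 c5454 c5492 c5495 c5496 c6344 (k8 c3587 c274 c2382 c5643 c5669 c1734 c1775 c2511 (k2 c892 c10298 (k1 c5278 k0))))) (by decide +kernel)
def c13713 : PP 9 3 T 0x2000000000000010000211000000000000000000000008000100000100000000000000000010001400000000040000101000000000000000014000000018 := rS 0x10173d81ceddf257ce2ac723924d41fa508cb6194dec326872b894de21 (k8 c266 c5565 c1113 c9757 c5499 c13455 c5209 c5397 (k8 c6205 c5474 c9733 c5211 c9664 c5665 c5334 c5520 (k8 c2482 c1139 c8140 c3584 c13712 c5668 c672 c889 (k2 c1108 c5643 (k1 c13641 k0))))) (by decide +kernel)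
def c13714 : PP 9 3 T 0x2000000000000000000221040000000000000000000000000000000000000000000040000010000000000000040000500000000000000000000000000000 := rS 0x3fb5dc7e169b558ccdef2350ed1679ed2279f9a0d0b13 (k8 c5382 c5541 c5525 c12913 c5524 c5374 c5372 c5543 (k8 c5501 c5499 c5381 c5668 c8354 c3607 c5454 c5496 (k4 c8115 c2619 c10298 c10493 (k1 c5278 k0)))) (by decide +kernel)
def c13715 : PP 9 3 T 0x6000000000000010000201000000000000000000000008000100000100000000000000000410001400000000040000111000000000000000014000000018 := rS 0x454a4e8efc2e266349abe3200dc723d1f8202e073b37e05140fa0cf26b06a4738211a96c32934fa853699d864ce68d8984cfa8947a1e02857f95c4a6f (k8 c5565 c1113 c9757 c5544 c5541 c5502 c5499 c5568 (k8 c5567 c5566 c5564 c5382 c5381 c5379 c13455 c5209 (k8 c5447 c5397 c5398 c5448 c5444 c6205 c5474 c5324 (k8 c266 c13713 c5374 c5522 c5523 c5524 c5525 c1111 (k8 c3604 c3613 c2950 c13714 c672 c1108 c5643 c275 (k8 c1512 c273 c1510 c3579 c7824 c1656 c10131 c2087 (k4 c2088 c5537 c8999 c1777 (k2 c5654 c3578 (k1 c5331 k0))))))))) (by decide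 +kernel)
def c13716 : PP 9 3 T 0x2000000000000000000201000000000000000000080008000000000000000000000000000010000000000001040405500000000000000000000000000000 := rS 0x1fdaee36ff85a6d563337bd9368b3e050147a35fe8943fcd0b13 (k8 c5382 c5541 c12913 c5499 c5567 c5544 c5381 c5568 (k8 c5502 c3613 c5543 c5501 c13455 c5668 c8354 c3607 (k8 c5454 c5496 c6344 c2516 c2619 c10298 c10493 c5278 k0))) (by decide +kernel)
def c13717 : PP 9 3 T 0x6000000000000010000211000000000000000000000008000100000000000000000000000410000000000001040405100000000000000000014000000008 := rS 0x1e06631da4e16af8c803d1fb7c10176b81cec3ba50d4b61949a7d43b0c984cfa57129be050147a35fe8943fcd0b13 (k8 c5382 c5541 c12913 c5499 c5567 c5544 c5381 c5568 (k8 c5502 c3613 c5565 c1113 c9757 c5566 c5564 c13455 (k8 c5209 c5398 c5448 c5444 c6205 c5474 c5324 c5211 (k8 c5332 c13716 c672 c2187 c1108 c5643 c2517 c275 (k8 c1512 c3579 c7824 c1656 c1714 c10131 c9140 c2087 (k2 c5669 c5537 k0)))))) (by decide +kernel)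
def c13718 : PP 9 3 T 0x2000000000000000000221040000000000000000000000000000000000080000000000000010000000000000040400500000000000000000000000000000 := rS 0x1bccd (k2 c8354 c13714 (k1 c2516 k0)) (by decide +kernel)
def c13719 : PP 9 3 T 0x6000000000000010000201000000000000000000000008000100000100000000000000000410001400000000040000110010000000000000014000000018 := rS 0x22a527477e171331a4d5f190072371e8fc1017039d8420dce409227b4187cf26c1a96c32934fa8536614cec3268d8984cfa8947a1e02857f95c4a6f (k8 c5565 c1113 c9757 c5544 c5541 c5502 c5499 c5568 (k8 c5567 c5566 c5564 c5382 c5381 c13455 c5209 c5447 (k8 c5445 c5397 c5398 c5448 c5444 c6205 c5474 c5324 (k8 c13715 c2428 c2316 c2431 c742 c746 c3613 c13717 (k8 c5522 c265 c13718 c672 c1108 c5643 c275 c1512 (k8 c1510 c273 c3579 c7824 c1656 c10131 c2087 c2088 (k4 c5537 c8999 c1777 c5654 (k2 c3578 c5331 k0)))))))) (by decide +kernel)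
def c13720 : PP 9 3 T 0x2000000000000004000201000000000000000000000008000100000000000000000000000000000000000000000000000110000000000000000000000010 := rS 0x411e8fc2e32041d8b1df0e2bdaf1df709516c53a80a226600914361949a7d42614aec327b5099bcfa7159b2c4e2958ad55bb6 (k8 c13711 c5573 c5422 c5421 c5417 c5570 c5420 c5574 (k8 c5571 c5566 c5565 c5564 c13640 c13455 c5209 c5446 (k8 c5445 c5398 c5448 c5444 c6205 c5475 c5326 c12887 (k8 c5664 c9730 c5642 c2005 c733 c737 c1113 c13719 (k8 c5504 c5507 c5584 c8309 c9031 c263 c5668 c2052 (k4 c2051 c1507 c275 c1512 (k2 c544 c3579 k0))))))) (by decide +kernel)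
def c13721 : PP 9 3 T 0x2000800000000000000010040000000000000000080008000000000000000000000000000040000000000000000181000000000000008000000000000000 := rS 0x2064b6f38cf51df0b34664322bcdeaf780bfc9247 (k8 c5520 c5334 c5544 c5502 c5498 c5477 c5325 c5326 (k8 c5478 c5492 c5495 c6344 c405 c5669 c1775 c892 (k2 c408 c2516 (k1 c3593 k0)))) (by decide +kernel)
def c13722 : PP 9 3 T 0x2000000000000010000011000000000000000000000008000100000000000000000000000000000000000000000180501400004000000000000000000000 := rS 0xf6387112a071d6935d89df1f1e40cc7238dc92098852886451abcc62f531ec326f768c059eff (k8 c5544 c5543 c5502 c5501 c5498 c13455 c5209 c5395 (k8 c5477 c5476 c5325 c5324 c5326 c5478 c5211 c5665 (k8 c13685 c5334 c5518 c5520 c796 c5643 c1454 c677 (k8 c13721 c5668 c1765 c841 c406 c10119 c3593 c408 (k2 c407 c1775 (k1 c8203 k0)))))) (by decide +kernel)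
def c13723 : PP 9 3 T 0x2000000000000090000201000000000000000000000008000100000000000000000000000000000000000000000000100200000000000000000000000000 := rS 0x71f8538c76ffcdc3143ca44f711ce78cfc5f509cd031337a3ce2b365ad4ee63d864cda8535bf4ae00 (k8 c9744 c9758 c5542 c1223 c5541 c832 c13455 c5209 (k8 c5395 c787 c5422 c5420 c5574 c5571 c5568 c5565 (k8 c5382 c5380 c5379 c5398 c1222 c10494 c5577 c13722 (k8 c5371 c5372 c5374 c5524 c3604 c3058 c5590 c2950 (k4 c9140 c13168 c5458 c1777 (k1 c10493 k0)))))) (by decide +kernel)
def c13724 : PP 9 3 T 0x2000000000000004000201000000000000000000000008000100000000000000000000000000000000000000000000000010000000000000000000000010 := rS 0x490f086963a668dc7314419e41a9188e701007199d0ae23359b4ee003433dfa8568bdc6af318bd52663d864f6a73899bd1e715989d6bb6 (k8 c13711 c5422 c5570 c5574 c5571 c5568 c5565 c5382 (k8 c5379 c13640 c13455 c5209 c5395 c5444 c5477 c5476 (k8 c5325 c5324 c5498 c5501 c5541 c5542 c5543 c13720 (k8 c9744 c787 c832 c1223 c9731 c9758 c13723 c1964 (k8 c1452 c5643 c13685 c5371 c5374 c5522 c5524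 c5525 (k8 c3604 c273 c1510 c1967 c3587 c5332 c340 c5650 (k2 c13085 c1087 k0))))))) (by decide +kernel)
def c13725 : PP 9 3 T 0x800000000000000200000000000000000100000000000100000000000000000000000000000000000000040000100000000000004001000000000080 := rS 0x3df1b58fe8d6ab4c8281 (k8 c5380 c1734 c5496 c5454 c5381 c677 c5278 c5465 (k2 c1491 c5655 k0)) (by decide +kernel)
def c13726 : PP 9 3 T 0x41000800000000080001001050040000000400000000000000100000040020500000000000000000000400000100000000000000000000000000000000000 := rS 0x10df8fdefde451a87de97d82b596d3 (k8 c5496 c5420 c5573 c5209 c5452 c8156 c5398 c5449 (k4 c5217 c13465 c7591 c5511 (k2 c2207 c9460 k0))) (by decide +kernel)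
def c13727 : PP 9 3 T 0x41000800000000280000001001040100000000000000008000140000000020000000000000000000080000000100000044080800000000000000000000080 := rS 0x63ef3e5d6eaeccfbd4be61fa5c8a9eeebfc99c57b85 (k8 c5423 c5575 c5571 c13455 c5431 c5613 c5428 c5615 (k8 c8937 c3121 c739 c1803 c2011 c13726 c5600 c5602 (k4 c6640 c678 c1458 c5671 k0))) (by decide +kernel)
def c13728 : PP 9 3 T 0x40005800000000104001001000000000000000000000008000000100000000040000000000000000000000000000000000000000000000000000000000000 := rS 0xa566 (k2 c5213 c13472 (k1 c5605 k0)) (by decide +kernel)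
def c13729 : PP 9 3 T 0x1000000000000094000201000000000000000000000008000100000000000000000000000000000004000000001000401080000000000000000000004088 := rS 0x436170f7cdbb2183170ac5b677de064325d25ff73e31f070b11dac82c9ef72f61e94ae4ec01f8a96831de25d7996c62f50c98d368d93a271abd43834f28bbe87fe714359c566b547c4cde7388a452fe166a0d9fde3aa54f79c629876193 (k8 c13455 c5209 c5445 c733 c5238 c5372 c5446 c2005 (k8 c5668 c5453 c5525 c8354 c8115 c5452 c5374 c5371 (k8 c5379 c5565 c5382 c5568 c5422 c5574 c5571 c5523 (k8 c3604 c5590 c1111 c9704 c737 c5524 c5522 c5373 (k8 c5575 c5569 c5567 c5383 c5381 c5397 c5395 c6205 (k8 c5477 c5476 c5474 c5325 c5321 c9695 c13650 c3607 (k8 c2024 c5682 c9222 c10719 c1241 c13351 c4124 c10556 (k8 c5333 c5335 c5516 c12110 c2139 c3571 c2003 c13725 (k8 c5576 c13727 c13471 c13728 c5391 c5606 c5607 c5609 (k8 c6201 c269 c1115 c5652 c1252 c589 c588 c740 (k4 c3122 c3297 c4511 c3615 k0))))))))))) (by decide +kernel)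
def c13730 : PP 9 3 T 0x1000000000000094000201000000000000000000000008000100000000000000000000000000000004000000001000401080000000000000000000000011 := rS 0xe24e384463ba578c80371cd647a3f0405c0fe167b37bc1907a4d3e9b4c84cfacb138a4f679419d52ac53095c4a210687c05f36fc50d67159ad51f13379ce2291ce2876193 (k8 c13455 c5209 c5398 c5238 c5374 c5371 c5379 c5565 (k8 c5382 c5568 c5422 c5574 c5571 c5523 c3604 c2950 (k8 c5590 c5642 c1111 c5522 c265 c1113 c9757 c5445 (k8 c733 c5446 c2005 c5525 c5524 c5372 c5417 c5570 (k8 c5420 c5566 c5564 c5447 c5397 c5448 c5444 c9739 (k8 c6205 c5668 c8354 c5453 c8115 c13729 c1108 c5643 (k8 c275 c1512 c13648 c273 c1510 c3579 c7824 c5168 (k4 c5332 c5331 c1714 c3578 (k2 c5691 c1777 k0))))))))) (by decide +kernel)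
def c13731 : PP 9 3 T 0x40000000000000010000000000000000000000100040000000000000000000000000000000000000000000000000000000000000001400000010040000008 := rS 0x9422 (k2 c6197 c5660 (k1 c560 k0)) (by decide +kernel)
def c13732 : PP 9 3 T 0x4000201000000000000000000000008000100000000000000000000000000000000000000000000001110000000000000000000000010 := rS 0x38fc29c7088c774a24f8c80371cd647a3f0405c0e7623b7fe7144296c32934fa853699d864ce713099f51e7159b2c4e295aeda22913caaccc57129bc420d0f808021b35e73dbb5 (k8 c13640 c13724 c5238 c5523 c5475 c12887 c5642 c1111 (k8 c5522 c265 c5565 c1113 c9757 c5664 c8138 c5524 (k8 c5374 c5371 c13711 c5422 c5417 c5570 c5420 c5574 (k8 c5571 c5568 c5566 c5564 c5382 c5379 c13455 c5209 (k8 c5447 c5397 c5398 c5448 c5444 c6205 c5474 c5871 (k8 c3604 c5590 c2950 c2786 c13730 c672 c1108 c5643 (k8 c275 c1512 c13648 c273 c1510 c3579 c7824 c6232 (k8 c13731 c5332 c5331 c1714 c3578 c5458 c1777 c5691 k0)))))))) (by decide +kernel)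
def c13733 : PP 9 3 T 0x1000000000000014000000000000000000000000040000000000000000000005000000005050000004000010004405500110000000000000000040000010 := rS 0x54341fa85 (k4 c13398 c13351 c3607 c5682 (k1 c2024 k0)) (by decide +kernel)
def c13734 : PP 9 3 T 0x1000000000000014000000000000000000000000000000000000000000000000000000005050000004000010005405502000000000000000000000000000 := rS 0x2a1a0fd (k4 c2552 c3607 c5682 c2024 k0) (by decide +kernel)
def c13735 : PP 9 3 T 0x41000800000000080001001050040000000400000000000000100000000020500000000800000000000400000100000000000000000000000000000000000 := rS 0x3761de4 (k4 c5217 c13726 c5471 c2252 k0) (by decide +kernel)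
def c13736 : PP 9 3 T 0x41001800000000280000001001000100000000000000008000140100000020040000800800000000000000000100000044080020000000000000000000000 := rS 0x5ffe36fb33edf3a5c8a9eef9338af70b87 (k8 c4565 c5423 c5575 c5571 c13455 c5613 c5428 c5615 (k8 c8937 c739 c2011 c13735 c5349 c9448 c2218 c5674 k0)) (by decide +kernel)
def c13737 : PP 9 3 T 0x1001000000000084000021001000000000000000000008000140001000040040000000000000000000000000100000444080000041408000000400004488 := rS 0x6ede5f39060e0c5c2b16d9df78190ea71fa4bfee4b01c6b2be00e2253c48af30ca8536b1beb6db3ef4bab596d3f9ad56621068944e1f358a7c71d19f78ea95629876193 (k8 c13455 c5209 c5445 c733 c5446 c2005 c5668 c5492 (k8 c405 c5576 c5417 c5523 c1111 c5570 c1113 c5522 (k8 c265 c5574 c5422 c8140 c5496 c5420 c5573 c5452 (k8 c8156 c5497 c5455 c9704 c5421 c5397 c5398 c6205 (k8 c5325 c5326 c9695 c3584 c9334 c9182 c3070 c9031 (k8 c8309 c263 c13736 c13471 c13728 c5608 c5388 c5606 (k8 c5607 c5609 c6201 c269 c1115 c5652 c1252 c412 (k4 c589 c740 c679 c2038 (k1 c3609 k0))))))))) (by decide +kernel)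
def c13738 : PP 9 3 T 0x41001800000000280000001001040100000000000000008000140100000020040000800000000000080000000100000044080020000000000000000000000 := rS 0xbffc6df667dbe61fa5c8a9eeebfc99c57b85 (k8 c5423 c5575 c5571 c13455 c5431 c5613 c5428 c5615 (k8 c8937 c3121 c739 c2011 c13726 c5349 c9448 c2218 (k1 c5674 k0))) (by decide +kernel)
def c13739 : PP 9 3 T 0x40005800000000114000021001000000000000100000008000040140400000040000000000000100000000000400000002000000050000000010400024408 := rS 0x22f195c9545c2b16aee4767c0c871725d2246f789 (k8 c5527 c5375 c5374 c13728 c5391 c5390 c5606 c5607 (k8 c6201 c3086 c2663 c269 c1115 c5652 c569 c1298 (k2 c8902 c6204 (k1 c3616 k0)))) (by decide +kernel)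
def c13740 : PP 9 3 T 0x41001800000000280000001001040000000000000000008000140100000020040000800000000000080000000100000044080000000000000000000000088 := rS 0x1d0b964bef11a86c621949b252bb0c9df52e33 (k8 c5492 c5452 c9704 c13455 c5209 c5446 c5396 c5444 (k8 c6205 c5476 c5475 c5324 c9695 c13727 c13738 c1107 (k2 c263 c3577 k0))) (by decide +kernel)
def c13741 : PP 9 3 T 0x4000201000000000000000000000008000100000000000000000000000000000000000000000000400110000000000000000000000090 := rS 0x436170f7cdbb218317070562d2c59df78190c9423a4bfee636e2c3aba00df8a3f1530342475c3e31f7cfc3592691c164f24bdc474a63bc4baf3188641ea139a36272744a3f1ab35e89c52b53da1cf2ab459c76c25378841a1f01004366b36335079cf6ed59e33ef1d52ac5331876193 (k8 c13455 c5209 c5445 c5664 c733 c5446 c2005 c5668 (k8 c5492 c5453 c13640 c13724 c5238 c5525 c8354 c13732 (k8 c5523 c5475 c12887 c5642 c1111 c5522 c265 c5565 (k8 c1113 c13711 c5571 c737 c8138 c5524 c5373 c5372 (k8 c5422 c5417 c5570 c5575 c5574 c5569 c5568 c5567 (k8 c5383 c5382 c5381 c5379 c5398 c9739 c6205 c5476 (k8 c5325 c5321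 c9695 c13650 c13733 c5331 c5333 c5334 (k8 c5335 c5516 c5520 c5521 c12110 c6344 c8140 c13725 (k8 c5576 c3056 c405 c13734 c2629 c2449 c736 c13737 (k8 c2950 c9222 c1241 c4124 c5691 c5043 c13740 c13471 (k8 c13728 c13739 c5391 c5606 c5607 c5609 c6201 c12681 (k8 c269 c1115 c2003 c5652 c1252 c589 c588 c740 (k4 c3122 c3297 c4511 c3615 k0))))))))))))) (by decide +kernel)
def c13742 : PP 9 3 T 0x1000000000000006000000000000000000000000080000000000000000000014000000005000000004000040000000000000000000000155000141400000 := rS 0x150d04e3dc463b49a6d2a99 (k8 c5447 c5446 c5397 c5444 c5332 c5331 c5333 c3578 (k2 c3587 c10719 (k1 c2024 k0))) (by decide +kernel)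
def c13743 : PP 9 3 T 0x4000201000000000000000000000008000100000000000000000000000000000000000000000000400110000000000000000000000010 := rS 0x1fca8258890b4b249006e39ac8f47e1c0405c0e3367a5d9bde788d5e6317a865269f50b24267d59b2c4e2943a44f283559d52ac530ec3268b331c76c57129bc420d0f808021b35e73dbb5 (k8 c13640 c13724 c5238 c5523 c5475 c12887 c5642 c1111 (k8 c5522 c265 c5565 c1113 c9757 c13711 c5571 c5664 (k8 c737 c13455 c5209 c5445 c733 c5446 c2005 c8138 (k8 c5525 c5524 c5374 c5373 c5417 c5570 c5420 c5574 (k8 c5566 c5564 c5396 c5398 c5448 c5444 c6205 c5477 (k8 c5476 c5325 c5324 c9695 c5668 c8354 c5452 c5453 (k8 c5492 c13741 c1108 c5643 c3577 c275 c1512 c13648 (k8 c273 c1510 c3579 c6232 c13742 c13398 c6197 c560 (k2 c484 c13510 (k1 c2452 k0)))))))))) (by decide +kernel)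
def c13744 : PP 9 3 T 0x1000000000000014000200000000000000000100040008000000000000000001000000000000000404000001044400000110000001000000010040000018 := rS 0x3f9504b7e8890af3 (k8 c5325 c13398 c6197 c13351 c560 c5682 c13510 c2452 k0) (by decide +kernel)
def c13745 : PP 9 3 T 0x4000201000000000000000000000008000100000000000000000000000000000000000000000000000110000000000000000000000010 := rS 0x1ff0142fb998fd67f87e69c2388c774a6a927c6401b8e6b23d1f8202ed103f7cec1f10894ae8b0119802f11a96c361949a7d429b4cec3268d8984cde7d44a3ce2b36589c52b556ed90e91069acf28355e73dbb5 (k8 c13640 c13724 c5238 c8138 c5525 c5524 c5523 c5522 (k8 c5374 c5373 c13711 c5573 c5422 c5417 c5570 c5420 (k8 c5574 c5571 c5568 c5567 c5566 c5565 c5564 c5382 (k8 c5381 c13455 c5209 c5447 c5397 c5398 c5448 c5444 (k8 c6205 c5475 c5474 c5324 c9695 c12887 c5664 c5642 (k8 c737 c9757 c1113 c265 c1111 c13743 c5493 c672 (k8 c2131 c1108 c5643 c275 c1512 c13648 c273 c1510 (k8 c3579 c7824 c6232 c1656 c13744 c5332 c5331 c5520 (k8 c3578 c8140 c5458 c1651 c1240 c10798 c5204 c789 (k2 c13274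 c2507 (k1 c8783 k0))))))))))) (by decide +kernel)
def c13746 : PP 9 3 T 0x1000400000000000000001000000000000000000000008000000000000014040000000000000000000000000000180500000000001408000000000000000 := rS 0x66c0bc1f3f7c75a48a6bb1327e3 (k8 c5577 c13455 c5668 c1765 c840 c841 c406 c5583 (k4 c12736 c5204 c5694 c5537 (k1 c2087 k0))) (by decide +kernel)
def c13747 : PP 9 3 T 0x1000000000000014000001000000000000000000040008000100000000000000000000000000001414000000000180550000000000000000000400000090 := rS 0x1e1f98e23acd19f79fed180b3d50f723bf440370fbc46af318bd52a99d864cd7e31d9ec7d5924841239c (k8 c5238 c5374 c676 c3026 c5558 c677 c5372 c1674 (k8 c5577 c5523 c13455 c5209 c5447 c5446 c5477 c5476 (k8 c5325 c5324 c9695 c13353 c8484 c5650 c13351 c2914 (k8 c343 c5682 c13265 c13274 c2024 c2452 c13746 c5492 (k4 c5495 c405 c3587 c12736 (k2 c5534 c5168 k0)))))) (by decide +kernel)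
def c13748 : PP 9 3 T 0x1000000000000014000001000000000000000000000008000100000400000000000000000400001414000000400180554000400000000000000000000092 := rS 0x38fc2dff9a7228c73682e94a131ec327113d9acf223f1b85239c (k8 c5238 c5374 c3058 c5577 c9731 c5524 c5523 c5372 (k8 c5371 c13455 c5209 c5395 c5398 c13747 c5516 c665 (k8 c674 c3604 c13168 c5590 c2950 c5458 c1777 c5691 k0))) (by decide +kernel)
def c13749 : PP 9 3 T 0x10000000000000000000000000040000000000000500000000000000000000001400000001400000054400000000000000004480000010 := rS 0x126286d (k4 c2316 c3604 c13085 c1087 k0) (by decide +kernel)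
def c13750 : PP 9 3 T 0x1000000000000016000000000000000000000000040008000000000500000001000000005000001404000001400000054400000000000144004400000010 := rS 0xd0540edeefd1007c6af318bd52695 (k8 c5446 c5444 c5477 c5476 c5325 c5324 c13749 c5650 (k4 c13351 c343 c340 c5682 (k2 c3587 c2024 k0))) (by decide +kernel)
def c13751 : PP 9 3 T 0x1000000000000094000201000000000000000000000008000100000000000000000000000000000004000000000000100200000000000000000000000010 := rS 0xa97eb4040f70f8ee94cf4bb37bc171b8e466c50401cfc5f788d5e6317a8652a7340c4cde8f38acd96275aab62291069acf283ce1dcc7b0c988cae00 (k8 c9744 c9758 c9731 c13455 c5209 c5395 c787 c5238 (k8 c5525 c5524 c5523 c5522 c5374 c5371 c5573 c5422 (k8 c5570 c5420 c5574 c5571 c5568 c5565 c5382 c5380 (k8 c5379 c5446 c6205 c5477 c5476 c5325 c5324 c9695 (k8 c1222 c10494 c13748 c5643 c1627 c272 c273 c1510 (k8 c1506 c5668 c8354 c5452 c5453 c13750 c5332 c5517 (k4 c5333 c13742 c3587 c2550 (k2 c2024 c5682 k0)))))))) (by decide +kernel)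
def c13752 : PP 9 3 T 0x4000201000000000000000000000008000100000000000000000000000000000000000000000000000010000000000000000000000010 := rS 0x174b903bde3f7c755c21807cdf91454f84dad0ac82dee1f1dd286e391e8fc10cd67b540e333a15c4600342ad0679358352311ce7b56a2765acce3b6479f4de13899cde235798c5ea194aec327b5 (k8 c13640 c13455 c5209 c5446 c6205 c5477 c5476 c5325 (k8 c5324 c9695 c5379 c5382 c5564 c5565 c5566 c5568 (k8 c13711 c5571 c5574 c5420 c5570 c5422 c13724 c5238 (k8 c5371 c5374 c5522 c5523 c5524 c5525 c8138 c13745 (k8 c9744 c9731 c9758 c13751 c1964 c1452 c1532 c1530 (k8 c1967 c5643 c275 c1512 c273 c1510 c13750 c5332 (k8 c5517 c5333 c5516 c12110 c3587 c665 c5459 c2024 (k8 c3604 c5682 c5590 c9222 c2550 c1241 c2139 c5584 (k4 c13617 c5204 c5655 c5452 (k2 c1736 c13742 k0)))))))))) (by decide +kernel)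
def c13753 : PP 9 3 T 0x2000000000000012000001000000000000000000000008000000000000000000000000000010000000000000000405500000000000000000000050000008 := rS 0x38598c334bb37bcf11a86c6219c9a4d929543b450acf (k8 c5543 c5541 c5501 c5499 c5446 c5396 c5444 c13455 (k8 c6205 c5476 c5475 c5324 c9695 c5668 c8354 c5452 (k4 c5492 c3607 c3577 c13650 (k1 c1108 k0)))) (by decide +kernel)
def c13754 : PP 9 3 T 0x40000000000000054000101000000000000000000000008000000000000010000000000000000001400000000000000000000000000000000000810000000 := rS 0x15914138955fee (k4 c5239 c5584 c9666 c486 (k2 c5685 c12205 (k1 c3052 k0))) (by decide +kernel)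
def c13755 : PP 9 3 T 0x2000000000000054000101000000000000000000000008000000000000000000000000000000000000000000000000040080000000000000000000000008 := rS 0x44c4cdeb20e8896a1f419ad2248a5e711e8d2591fe7eeac044864579bd452f743c050aff (k8 c5544 c5541 c5502 c5499 c5498 c8199 c5477 c5325 (k8 c5326 c5478 c9667 c5212 c5239 c12194 c12661 c5342 (k8 c5505 c5263 c5241 c9072 c8823 c5374 c5523 c5525 (k8 c1111 c11945 c6197 c483 c13754 c4834 c2457 c2010 (k1 c8783 k0))))) (by decide +kernel)
def c13756 : PP 9 3 T 0x82000000000000000000000200000000000000000000000000000000000000000000000000000000000000000000004000011001400000 := rS 0x1047a934fa859627 (k8 c5570 c5420 c5398 c5448 c5444 c5560 c5340 c3579 k0) (by decide +kernel)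
def c13757 : PP 9 3 T 0x42000000000000082000100000000000000000000040000000000000400000010000400000000000000000001450400000000040004004040001001400000 := rS 0x118108191ab2494f8a50f0142bfd9627 (k8 c5570 c5420 c5544 c5541 c5502 c5499 c8199 c5448 (k4 c8148 c13756 c5660 c7820 (k2 c12661 c3613 (k1 c701 k0)))) (by decide +kernel)
def c13758 : PP 9 3 T 0x42000000000000082000101000000000000000000040008000000000400000000000400400000000000000001450400000000000000000040001800400200 := rS 0x461fa3a3e2dbd4339343a149629 (k8 c8199 c560 c5541 c5499 c13455 c6205 c5477 c5474 (k4 c13757 c3644 c276 c13262 (k1 c808 k0))) (by decide +kernel)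
def c13759 : PP 9 3 T 0x42000000000000080000101000000000000000000040008000100000000000000000000400000000000000001450400000000000000000840001800400200 := rS 0x3f1e904fe478938c32934fa8761936589c9629 (k8 c8199 c560 c5570 c5420 c13455 c5209 c5398 c5448 (k8 c5444 c6205 c8999 c13758 c12623 c810 c10205 c1681 (k2 c276 c3579 k0))) (by decide +kernel)
def c13760 : PP 9 3 T 0x2000000000000000000000000000000000000000040008000100000000000000000000000000000000000000000000000000000000000544000000000000 := rS 0x1e0660d5e6317abdda2cf (k8 c5543 c5501 c5498 c5477 c5476 c5325 c5324 c3587 (k2 c5654 c5537 k0)) (by decide +kernel)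
def c13761 : PP 9 3 T 0x2000000000000014000101000000000000000000040000000000000000000000000000000000000010000000010400010010040000000000000000020011 := rS 0x8d14a1d568535a451f9c (k8 c5211 c5526 c5374 c9672 c5541 c5500 c5499 c8199 (k2 c701 c13284 k0)) (by decide +kernel)
def c13762 : PP 9 3 T 0x2000000000000004000001000000000000000000040008000100000000000000000000000000000000000000000000000110000000000000000000000010 := rS 0x7b89303f1fc87a471284474d74b0cc6e080b81fbe762c874724b1123cf2913d87d079c35bc486451abccb6317a86526c914bde02754ab14c3b0c995d9627459c512addb008e6010d99b43b5 (k8 c13640 c13752 c5664 c5475 c12887 c9719 c5642 c13755 (k8 c5573 c8134 c5571 c737 c5570 c5420 c9757 c13455 (k8 c5209 c5445 c733 c5446 c2005 c5502 c5498 c8199 (k8 c5396 c5444 c6205 c5477 c5476 c5474 c5325 c5324 (k8 c5326 c5478 c9695 c9672 c5211 c2008 c1111 c5372 (k8 c5374 c5524 c5526 c6197 c560 c395 c483 c2003 (k8 c13753 c5493 c672 c1108 c5643 c1510 c271 c3577 (k8 c1767 c13760 c13761 c12632 c13598 c1513 c13759 c10342 (k4 c5550 c5588 c5186 c5996 k0))))))))) (by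 decide +kernel)
def c13763 : PP 9 3 T 0x12000111000000000000000000080008000000000000000000000000000410001410000000050000100000000000000000004000000089 := rS 0x951312c54d42108a44da8c3d7bfc2d34bf798e793b96c3393308a6221f119246e47 (k8 c5520 c5518 c5334 c5331 c5517 c9730 c8199 c5445 (k8 c13455 c6205 c5474 c672 c1454 c13650 c5668 c5452 (k8 c5496 c6344 c8156 c5669 c5673 c742 c10035 c701 (k4 c266 c5665 c1140 c12632 (k2 c2600 c3584 (k1 c12663 k0)))))) (by decide +kernel)
def c13764 : PP 9 3 T 0x2000000000000012000101000000000000000000000008000000000000000000000000000410000010000000050401500000000000000440004040400209 := rS 0x208fc7a25091fc228cf796070d34b8719a33ef0d5e65b18bd4339349a7d42297bb459e7b (k8 c1684 c5543 c5501 c5498 c8199 c5398 c5448 c5444 (k8 c13455 c6205 c5477 c5476 c5474 c5325 c5324 c5668 (k8 c272 c8354 c13753 c5452 c5496 c3587 c263 c8156 (k8 c5673 c701 c807 c2170 c12632 c1513 c276 c3651 (k1 c3579 k0))))) (by decide +kernel)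
def c13765 : PP 9 3 T 0x2004400000000000000101000000000000000000080008000100000000000000000000000000000000000000000000000000000000000000000000000000 := rS 0x97eeac10c8af37ae4c9247 (k8 c5520 c5334 c13455 c5477 c5325 c5326 c5478 c5216 (k2 c5186 c5342 (k1 c8823 k0))) (by decide +kernel)
def c13766 : PP 9 3 T 0x2000000000000000000101000000000000000000000000000000000000000000000000000000000000000001450400000000040000000000000000020400 := rS 0x7ba268d43c050aff (k8 c5544 c5541 c5502 c5499 c701 c703 c5673 c8783 k0) (by decide +kernel)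
def c13767 : PP 9 3 T 0x8000000000000000100000000000000000000000000000000000000000000000000000400000000004004000000000000000000000000014001010201 := rS 0x3c (k2 c12641 c1513 k0) (by decide +kernel)
def c13768 : PP 9 3 T 0x2000000000000010000111000000000000000000080008000100000000000000000000000400001410000000010000010080000000000000004000000011 := rS 0x23e2ef9d9228f3c9b1066b3d8202e072d865269f4c8a622754ab14c3b0c995c048b1d87c1637 (k8 c5518 c5516 c5517 c5332 c737 c5642 c9757 c13455 (k8 c5209 c5445 c733 c5446 c2005 c9730 c8199 c5447 (k8 c5448 c5444 c6205 c5474 c13763 c1108 c5643 c1684 (k8 c13641 c2008 c5665 c2428 c2432 c746 c13764 c5493 (k2 c13765 c13766 (k1 c13767 k0)))))) (by decide +kernel)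
def c13769 : PP 9 3 T 0x2000000000000004000001000000000000000000000008000100000000000000000000000000000000000000000000000110000000000000000000000010 := rS 0x66b1cee0604f8ab31c467bc965808a3d067906a44f79c2382c3f4a44a2d5ab513b2d6671db15d8a75011cccc0121914baf32d86dea1907a4d3e614aec327b514e85ee8768c050acf (k8 c5543 c5541 c5502 c5501 c5499 c5498 c13752 c8199 (k8 c13640 c13455 c5209 c5446 c5445 c5448 c5444 c9739 (k8 c6205 c5477 c5475 c5474 c5325 c5321 c5326 c5478 (k8 c12887 c5664 c9719 c5642 c2005 c733 c9757 c13755 (k8 c5571 c5574 c5420 c5570 c5422 c5573 c737 c8134 (k8 c13762 c5517 c5516 c5520 c13768 c5372 c5374 c5522 (k8 c5524 c5525 c5526 c13766 c3571 c12638 c9072 c5673 (k8 c2169 c5341 c5216 c13767 c5643 c2052 c13650 c8354 (k1 c3607 k0))))))))) (by decide +kernel)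
def c13770 : PP 9 3 T 0x2000000000000000000000000000000000000000100000000000000000000000000000000000005001400000000000000000080000084 := rS 0x5f (k2 c1451 c13675 k0) (by decide +kernel)
def c13771 : PP 9 3 T 0x2000000000000054000101000000000000000000000008000100000000000000000000000000000000000000000000401400000000000000000000000006 := rS 0x64080387843153c9ee2248a5e708e4b397cfdd5812844864579bd761937bc044657 (k8 c9758 c9731 c5502 c5498 c13455 c5209 c5477 c5325 (k8 c5326 c5478 c9667 c9666 c5212 c5239 c12194 c11969 (k8 c5342 c5562 c5241 c9072 c8823 c5371 c5372 c5524 (k4 c1290 c345 c5650 c13770 (k2 c5643 c13612 (k1 c272 k0)))))) (by decide +kernel)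
def c13772 : PP 9 3 T 0x1000000000002000101000000000000000000000000000000000100000000000400000440001400000001481004154600400000000000000000000000 := rS 0x1bff33f450fa89f7a84c66d (k8 c832 c5395 c5398 c5583 c130 c2981 c13610 c13272 (k2 c5590 c2950 (k1 c10493 k0))) (by decide +kernel)
def c13773 : PP 9 3 T 0x2000000000000000000100000000000000000000000008000000000000040000000000000000000000000000020000000000000001400000000000001000 := rS 0x94118e90c8af37abde02ff (k8 c5544 c5502 c5498 c5477 c5325 c5326 c5478 c12630 (k2 c2749 c3593 (k1 c12638 k0))) (by decide +kernel)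
def c13774 : PP 9 3 T 0x2000000000000000000101000000000000000000000008000000000000000000000000000000000000000001540400000000000001400000000000001400 := rS 0x97ee08a26064322bccb6f5 (k8 c5477 c5474 c5325 c5326 c5478 c10681 c13773 c13766 (k2 c5673 c12638 (k1 c8823 k0))) (by decide +kernel)
def c13775 : PP 9 3 T 0x2000000000000010000101000000000000000000040008000100000000000000000000000400001400000000000000050210000000000000004000000080 := rS 0x1bd14e3f0a718e0b2491c401f3a97c629331a676193019adfa6d4288c008d88834f6913ca0d1f9c (k8 c5211 c5526 c5525 c5524 c5374 c5372 c9673 c9727 (k8 c946 c9744 c9731 c5541 c832 c5542 c1223 c9741 (k8 c13455 c5209 c5447 c5395 c5444 c5476 c1451 c1452 (k8 c13770 c5650 c2422 c344 c2416 c674 c13171 c5458 (k4 c1777 c13774 c2979 c13772 k0))))) (by decide +kernel)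
def c13776 : PP 9 3 T 0x10000000000000000000000000040000000000000000000000000000000000001400000000081000050410000000000000004480000010 := rS 0x2266f88a451f9c (k4 c5211 c5526 c5374 c9727 (k2 c2979 c858 (k1 c13749 k0))) (by decide +kernel)
def c13777 : PP 9 3 T 0x2000000000000004000001000000000000000000040008000100000000000000000000000000000000000000000000000010000000000000000000000010 := rS 0x113ef571bc4a4881a2c8f1d25845521e108e866391b8200e8f419e7380d21915e61b7aa4def017f88cae7159b2c4eb5469cf6c6d429adfa7731ec3260001e876a68 (k8 c13769 c13640 c13752 c9741 c9744 c13455 c5209 c5395 (k8 c787 c5542 c1223 c5541 c832 c13771 c5419 c946 (k8 c5422 c5570 c5420 c5574 c5571 c9758 c9731 c5544 (k8 c5502 c5498 c5444 c5477 c5475 c5325 c5326 c5478 (k8 c9673 c5211 c5524 c5525 c5526 c13775 c5643 c1510 (k8 c273 c272 c13760 c340 c5650 c2319 c13353 c2590 (k8 c13277 c13598 c13776 c10681 c3593 c10629 c1060 c13326 (k2 c5584 c2835 (k1 c5673 k0))))))))) (by decide +kernel)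
def c13778 : PP 9 3 T 0x2000000000000080000110040000000000000000000008000100000400000000000000000040000000000001400011004000400000400000000000000000 := rS 0x40788ff593d473c3f24fa84c661d81c59673 (k8 c5419 c5420 c5571 c5209 c5445 c5395 c5398 c5448 (k8 c5675 c7694 c12708 c5669 c5341 c891 c5216 c3599 (k1 c5463 k0))) (by decide +kernel)
def c13779 : PP 9 3 T 0x8000000000082000100000000000000000000000000000000000000000000000000000000000000000000000010004000400000000000000000000000 := rS 0xfe81319c59673 (k4 c5419 c5420 c5571 c5395 (k2 c5463 c5577 (k1 c13195 k0))) (by decide +kernel)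
def c13780 : PP 9 3 T 0x2000000000000080000110040000000000000000080008000100000400000000000000000040000000000000080001100010400000000000000000000000 := rS 0x783bde3f9a411e7d37ec1fe47 (k8 c5520 c5544 c5209 c2979 c2981 c2982 c13778 c5589 (k4 c13779 c8305 c5188 c6344 k0)) (by decide +kernel)
def c13781 : PP 9 3 T 0x101000000000000000000080008000000000400014040000000000000000000000000140000000000000004000000000000000000 := rS 0x2071d447bc864579bd49247 (k8 c5520 c5334 c5477 c5325 c5326 c5478 c9072 c5673 (k2 c12630 c1986 (k1 c3593 k0))) (by decide +kernel)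
def c13782 : PP 9 3 T 0x2000000000000090000111000000000000000000080008000100000000000000000000000040000000000000100001100410400000000000000000000002 := rS 0x3e9bfc49047d64948b89c4361937bc05fe73 (k8 c5419 c5544 c5502 c5498 c13455 c5209 c8158 c955 (k8 c13780 c13781 c5342 c12624 c13156 c5216 c1272 c3041 (k1 c13779 k0))) (by decide +kernel)
def c13783 : PP 9 3 T 0x2000000000000090000101000000000000000000080008000100000000000000000000000000000000000000000000000210000000000000000000000080 := rS 0x6f71f85149c47a0c1a913dc4738c73c9d4be3131a6f619301800d6fd36a14e2b365ad51a732482c6e47 (k8 c5520 c5518 c5516 c5334 c5419 c946 c5422 c5420 (k8 c5574 c5571 c5541 c832 c5542 c1223 c9744 c9741 (k8 c13455 c5209 c5397 c5395 c5476 c1451 c1452 c1454 (k8 c674 c13782 c5371 c5372 c5374 c5522 c5525 c5526 (k4 c10556 c13774 c5458 c1777 (k2 c2979 c13772 k0)))))) (by decide +kernel)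
def c13784 : PP 9 3 T 0x2000000000000004000001000000000000000000000008000100000000000000000000000000000000000000000000000010000000000000000000000010 := rS 0x19a3941834679c628200e371dd2b6c57369acee00019a19efd42b45ee35798c5ea63d864f6ba1 (k8 c13752 c13640 c13455 c5209 c5395 c5477 c5476 c5325 (k8 c5324 c5498 c5501 c5541 c5542 c5543 c13769 c9741 (k8 c9744 c787 c1223 c832 c9758 c13771 c13777 c5332 (k8 c5518 c13783 c5643 c1627 c13685 c272 c5522 c5525 (k2 c273 c8354 (k1 c3587 k0)))))) (by decide +kernel)
def c13785 : PP 9 3 T 0x1000000000000014000001000000000000000000040008000000000000000000000000004010000000000010000000000110000000000000000000000090 := rS 0xcd639dde2f32d867267b439e506ab3a9983e020086cd79c (k8 c5238 c5523 c5475 c12887 c5642 c1111 c5664 c2005 (k8 c8138 c5525 c5524 c5373 c5372 c13455 c6205 c5474 (k4 c5325 c9695 c672 c13650 (k2 c8354 c13733 k0)))) (by decide +kernel)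
def c13786 : PP 9 3 T 0x8000000000000000000020000000000000000000000000000000000000000000000000000000001002000000001000020010000000000000000000000000 := rS 0x112 (k2 c12252 c756 k0) (by decide +kernel)
def c13787 : PP 9 3 T 0x44000001000000000000000000040008000100000000000000000000000000000000000000000000000110000000000000000000000010 := rS 0x1fb2c4e7f38a04101703b3d50b57ea15e2f30ca4d42954caace6c533184ae1f01004366bf712c220dce7b76a3d128a53fb0c9906b1a1 (k8 c13752 c5212 c5340 c13455 c5209 c5448 c8199 c9666 (k8 c12427 c13640 c13784 c5238 c5522 c9667 c12638 c5239 (k8 c5523 c5475 c12887 c5642 c1111 c9757 c5445 c5664 (k8 c733 c9719 c8138 c5447 c5446 c5398 c5444 c6205 (k8 c5325 c9695 c13398 c13351 c11945 c5682 c13265 c13785 (k8 c1108 c5643 c12653 c13786 c8379 c268 c8797 c276 (k1 c3579 k0))))))) (by decide +kernel)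
def c13788 : PP 9 3 T 0x8000000000000042000001000000000000000200080008000000000000000000000000000000000000000000000400000080000004000000011000010080 := rS 0x34472e21f78fc23367b4d9bde3f9dc6af32d8c5eb933aa558a616b8edee37 (k8 c5518 c5333 c5332 c5507 c5445 c733 c5446 c2005 (k8 c13455 c5477 c5476 c5474 c5325 c5324 c672 c676 (k8 c5668 c8354 c8433 c5453 c5492 c6344 c9525 c13701 (k4 c9341 c2617 c1779 c3587 k0)))) (by decide +kernel)
def c13789 : PP 9 3 T 0x44000001000000000000000000000008000100000000000000000000000000000000000000000000000110000000000000000000000010 := rS 0x1f32cfe2738c513839408202e0759fce003724bdc463ba5355aeb18e9047a4725fbab0250890c8af37a865269f50a6d33b0c98a7429141a3d56663995c420d0f808021b35e73dbb5 (k8 c13640 c13784 c5238 c5523 c5475 c12887 c5642 c1111 (k8 c5522 c265 c9757 c9719 c5664 c8138 c5526 c5525 (k8 c5374 c13752 c8199 c13455 c5209 c5447 c5397 c5398 (k8 c5448 c5444 c6205 c5477 c5325 c5326 c5478 c9667 (k8 c9666 c5212 c5239 c12638 c13598 c12427 c5340 c5341 (k8 c5506 c5507 c5585 c13787 c5332 c5331 c5333 c5334 (k8 c5518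 c9072 c11991 c2901 c13788 c1108 c5643 c12653 (k8 c273 c3578 c12365 c3048 c3047 c8379 c8797 c3579 (k1 c276 k0))))))))) (by decide +kernel)
def c13790 : PP 9 3 T 0x101000000000000000000000008000100000000000000000000000410000010000000050000500000000000000000004000000049 := rS 0xacf8e381146163de1c69a5c67de788d4b61b18865269f64a5760290b820af93 (k8 c13455 c9757 c5643 c1108 c8199 c5209 c5446 c5396 (k8 c5448 c5444 c6205 c5476 c5475 c5474 c5324 c9695 (k8 c5668 c272 c5452 c5496 c3577 c8156 c263 c5673 (k4 c701 c2169 c13767 c5341 (k1 c5216 k0))))) (by decide +kernel)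
def c13791 : PP 9 3 T 0x4000400000000002000101000000000000000000000008000000000000000000000000000400000000000000050000000000000000000000004000000201 := rS 0x11f1230b619c9a4d3e29 (k8 c8199 c5448 c5444 c13455 c6205 c5474 c5673 c5186 (k2 c701 c13767 k0)) (by decide +kernel)
def c13792 : PP 9 3 T 0x4000001000000000000000000040008000100000000000000000000000000000000000000000000000110000000000000000000000010 := rS 0x3c0c61d9f87c411e895be47f9a04231246fbbbe761b8202e077fc059ea81c92dfa2242bc5e61949a7d429914e850e913ca0d1eab3aa558a61d864cae1f01004366bce7b76ab36589d1671332255bb6 (k8 c13789 c5573 c8134 c5664 c5571 c737 c5570 c5420 (k8 c5574 c13640 c13784 c5238 c5523 c5475 c12887 c5642 (k8 c1111 c9757 c13455 c5209 c5445 c733 c5446 c2005 (k8 c8138 c5526 c5525 c5524 c5374 c5373 c13752 c8199 (k8 c5447 c5398 c5448 c5444 c6205 c5325 c9695 c13398 (k8 c6197 c13351 c560 c395 c5682 c13265 c13274 c2452 (k8 c13785 c1108 c5643 c1510 c13790 c5493 c13791 c5505 (k8 c8783 c13284 c938 c5547 c12623 c2513 c12632 c1513 (k4 c10205 c3579 c276 c495 (k2 c809 c5654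 (k1 c5535 k0))))))))))) (by decide +kernel)
def c13793 : PP 9 3 T 0x1000000000000096000101000000000000000000080008000000000000000000000000000010000004000000050000100000000000000000000000000089 := rS 0xd142aa1ff14258960211467bda6cf4bb37bcc73b96c33934a8a4f6873ca0c420d0f9af38b365ab44647 (k8 c5520 c5331 c5573 c5420 c5574 c5238 c5523 c1111 (k8 c5522 c265 c5525 c5524 c5373 c5372 c8199 c5446 (k8 c13455 c6205 c5474 c672 c13650 c5668 c8354 c5452 (k8 c5453 c5496 c8156 c5673 c701 c2141 c12632 c12638 (k4 c8534 c3011 c9222 c950 (k2 c2024 c3607 k0)))))) (by decide +kernel)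
def c13794 : PP 9 3 T 0x4000001000000000000000000000008000100000000000000000000000000000000000000000000000110000000000000000000000010 := rS 0x224a894050aff81a363afdf7271a3df1c9d810170391c6e0b24bdc463ba522516ad13b2ce3b60f884aec53a808cc0121915e61b7a865269b30a5533b0c9e850e91069ad068f55e73dbb5 (k8 c13640 c13784 c5238 c8138 c5526 c5525 c5523 c5522 (k8 c5374 c5373 c13752 c13455 c5209 c5447 c5446 c5445 (k8 c5397 c5444 c6205 c5477 c5475 c5325 c5326 c5478 (k8 c12887 c5664 c5642 c2005 c733 c9757 c265 c1111 (k8 c13789 c5571 c5420 c5570 c5573 c737 c8134 c13792 (k8 c5332 c5331 c5333 c5334 c5516 c5518 c5520 c13793 (k8 c1108 c5643 c13790 c273 c5493 c2131 c3578 c13791 (k8 c1240 c5504 c5505 c5508 c5586 c736 c13274 c3613 (k2 c3593 c703 (k1 c12638 k0)))))))))) (by decide +kernel)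
def c13795 : PP 9 3 T 0x2000000000000000000000000000000000000000100000000000000000000000000000000000005000400000000000000000080000094 := rS 0x6d (k2 c2316 c13770 k0) (by decide +kernel)
def c13796 : PP 9 3 T 0x1000000000000014000000000000000000000000040008000000101000044001000000000000000004000000000000000000000004400000000440000000 := rS 0xa97bbf440f3 (k4 c5325 c5650 c13351 c343 (k2 c12271 c5682 k0)) (by decide +kernel)
def c13797 : PP 9 3 T 0x1000000000000054000101000000000000000000040008000100000000000000000000000000000004000000000000400000000000000000000000000016 := rS 0xc810070f455ff038e9c88e4bf75604a1178ec327113d834d67947e704657 (k8 c9758 c9731 c5238 c5526 c5524 c5523 c5522 c5372 (k8 c5371 c13455 c5209 c9695 c9667 c9666 c5212 c5239 (k8 c12638 c13598 c11969 c5341 c5508 c5586 c1290 c13796 (k4 c13795 c5643 c13612 c272 k0)))) (by decide +kernel)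
def c13798 : PP 9 3 T 0x82000101000000000000000000000008000000000000014040000000000000000000000000000400000200000001400000000000011080 := rS 0x3bcc4f1a00fa6f45226047f8e92c864579bd7266338b2d1a732f80cea31 (k8 c5476 c1452 c9741 c1451 c5419 c946 c5420 c5571 (k8 c5395 c13455 c5477 c5325 c5326 c5478 c12638 c13277 (k8 c676 c3593 c1985 c10681 c1226 c2981 c13195 c13779 (k2 c856 c8305 (k1 c5451 k0))))) (by decide +kernel)
def c13799 : PP 9 3 T 0x1000000000000014000101000000000000000000040008000100000000000000000000000000000004000000000000000200000000000000000000000090 := rS 0xf11bcfb59083fe02a82491deefd1007cbe0978bce227b069acf283ce08d662756ed8ee63d864c0003 (k8 c9741 c9744 c13455 c5209 c5395 c787 c13797 c5573 (k8 c5570 c5574 c9731 c5238 c5525 c5524 c5523 c5522 (k8 c5372 c5371 c5325 c9695 c30 c1451 c13795 c5650 (k8 c13351 c343 c2422 c344 c5682 c13274 c2452 c13798 (k4 c5558 c2748 c2746 c5216 (k1 c13779 k0)))))) (by decide +kernel)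
def c13800 : PP 9 3 T 0x80000101000000000000000000000008000100000000000000000000000000000000000000000000100200000000000000000000010200 := rS 0xaf6bd63dfe369b552e17ef17d429514801962756b146a333b98f61938ea34e63d (k8 c1513 c5419 c946 c13277 c13455 c5209 c5395 c787 (k8 c272 c5324 c1627 c5573 c5570 c5420 c9744 c8199 (k8 c5446 c5398 c1222 c5668 c1506 c5452 c5454 c5496 (k4 c13617 c8156 c5216 c13630 (k2 c13631 c9031 k0))))) (by decide +kernel)
def c13801 : PP 9 3 T 0x1000000000000016000000000000000000000000040008000000000100040001000000005000001404000001480000050410000000000144004400000010 := rS 0x2266f (k2 c2979 c859 (k1 c13750 k0)) (by decide +kernel)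
def c13802 : PP 9 3 T 0x4000000000000000000101000000000000000000000008000000100000000000000000100000000000000000140100400000000000011000000000000200 := rS 0x6b9fda7de4464fc633 (k8 c272 c13617 c13455 c5673 c5186 c5496 c2921 c1984 (k1 c8453 k0)) (by decide +kernel)
def c13803 : PP 9 3 T 0x4000001000000000000000000040008000100000000000000000000000000000000000000000000000010000000000000000080000010 := rS 0x7def9f95ed7f7449026f20896b1e36aa2d9e74818f63afc08aa5e2f550a56229135a3c467159b2c4eb556a34e7b6018dcf239068cd9ac50401d57a12b8006a773418f6083ce7b76b93 (k8 c13455 c13640 c13784 c5238 c5525 c5209 c5395 c13794 (k8 c787 c5324 c9744 c9758 c13752 c8138 c13799 c5643 (k8 c1627 c8354 c272 c5522 c273 c5524 c1510 c9741 (k8 c13797 c5419 c946 c5573 c5422 c5570 c5420 c5574 (k8 c5571 c9731 c5526 c5523 c5374 c5371 c5446 c5398 (k8 c5477 c9695 c2319 c13353 c5682 c13277 c1513 c2631 (k8 c13800 c1530 c13801 c1533 c13617 c5216 c5559 c5340 (k8 c1060 c12653 c13750 c13802 c5507 c5584 c8453 c9031 (k2 c95 c8369 k0))))))))) (by decide +kernel)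
def c13804 : PP 9 3 T 0x4000001000000000000000000040008000100000000000000000000000000000000000000000000000010000000000000000000000010 := rS 0x3419ea81dbddfa200fb3466391bb141007788d5e6317aa4d2a99d0834f28355e73dbb53b98f61931195c0068 (k8 c13794 c9744 c9758 c9731 c13455 c5209 c5395 c787 (k8 c13640 c13784 c5238 c8138 c5525 c5524 c5522 c13752 (k8 c5447 c5446 c5444 c5477 c5476 c5325 c5324 c9695 (k8 c13799 c5643 c1627 c1510 c273 c272 c8354 c13803 (k8 c5650 c13351 c343 c340 c5682 c13265 c3587 c2024 k0))))) (by decide +kernel)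
def c13805 : PP 9 3 T 0x1000000000000056000101000000000000000000080008000000000000000000000000000000000004002000000000000000000000000000000000000082 := rS 0xb38ac01aad758c747a722092fe7eeac094224322bcdea9f4d8a6220dce3dc9247 (k8 c5520 c5334 c5333 c5238 c5522 c5371 c8199 c5397 (k8 c5448 c5477 c5325 c5326 c5478 c9667 c9666 c5212 (k8 c5239 c12194 c12638 c1735 c11969 c12427 c5341 c5506 (k4 c5507 c5585 c9072 c1290 (k2 c2901 c12365 k0))))) (by decide +kernel)
def c13806 : PP 9 3 T 0x1000000000000096000101000000000000000000000008000000000000001040000000000000000004000000000000000200000001400000000000010080 := rS 0x7fc05500d41e7166ad (k8 c5573 c5574 c5238 c5525 c5522 c5682 c13274 c2452 (k1 c13798 k0)) (by decide +kernel)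
def c13807 : PP 9 3 T 0x1000000000000000000001040000000000000000000000000000000000002000000000000000000000002000000000100000000000000000000000000000 := rS 0x77da096 (k4 c1239 c1240 c5452 c10484 k0) (by decide +kernel)
def c13808 : PP 9 3 T 0x1000000000000014000101000000000000000000080008000100000000000000000000000000000004000000000000000200000000000000000000000080 := rS 0x1e2379f6b2107eed938c73a97c123131a6f6193889ecd679ce00dee49239b41600 (k8 c9744 c5516 c665 c5520 c5334 c5333 c9741 c5238 (k8 c5524 c5523 c5372 c5371 c13455 c5209 c5397 c5395 (k8 c5476 c30 c1451 c1452 c674 c10556 c13805 c13807 (k4 c13806 c5558 c2748 c2746 (k2 c5216 c13779 k0))))) (by decide +kernel)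
def c13809 : PP 9 3 T 0x1000000000000000000000008000000000000040040000000000000000000000001580000000000000005400000000000015400 := rS 0x44e028921915e6f5 (k8 c5477 c5325 c5326 c5478 c130 c3068 c859 c12649 k0) (by decide +kernel)
def c13810 : PP 9 3 T 0x1000000000000014000101000000000000000000080008000100000000000000000000000000000004000000000000000200000000000000000000014000 := rS 0x2b024f19b9aa8b81885f8a96833e3a741e92de6317aa550e913ca3c76f72482c6e471c8359ac51aa0f38b5469cf6c330415cee63d864c0e00 (k8 c9744 c13808 c13455 c5209 c5395 c787 c9758 c5643 (k8 c272 c13612 c5419 c946 c5422 c5238 c5525 c5324 (k8 c1627 c8354 c5522 c273 c5520 c5518 c5516 c5334 (k8 c5333 c5332 c5526 c5524 c5374 c5373 c5446 c5477 (k8 c5476 c5325 c12638 c1513 c13800 c13277 c1530 c3587 (k8 c2024 c5682 c2550 c2631 c13809 c1533 c13362 c13617 (k2 c1060 c5216 (k1 c5559 k0)))))))) (by decide +kernel)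
def c13811 : PP 9 3 T 0x1000000000000016000000000000000000000000000008000000000000001040000000001000000004000000000000000000000000000544000000000000 := rS 0xd167aa06af318bd52a99 (k8 c5447 c5446 c5477 c5476 c5325 c5324 c5682 c13265 (k2 c2024 c3587 k0)) (by decide +kernel)
def c13812 : PP 9 3 T 0x4000001000000000000000000000008000100000000000000000000000000000000000000000000000010000000000000000000000010 := rS 0x80229f914899bd12105a9cd6671db3346639628200e6d1b82dee3ba515cee00019a1568f419ac1a9143c4739edd0ed486350798f6193 (k8 c13455 c5209 c5395 c9739 c5324 c5478 c13640 c13752 (k8 c13784 c5238 c5371 c5373 c5374 c5522 c5523 c5525 (k8 c5526 c8138 c13794 c9741 c9744 c787 c9758 c13804 (k8 c5332 c5333 c5516 c5518 c665 c13808 c5643 c1627 (k8 c273 c272 c8354 c13612 c5571 c5574 c5419 c5422 (k8 c13810 c2749 c2746 c703 c3604 c13811 c8141 c1242 (k1 c3068 k0))))))) (by decide +kernel)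
def c13813 : PP 9 3 T 0x2001000000000010000001000000000000000000040008000100000000000000000000000000000001000040000000000010000000000000000050000088 := rS 0x9d6685c6c5f1cb1044f50cb2536954cec326ab68a0e226b3c9d462772d8ecf79c (k8 c5211 c5372 c1674 c5474 c672 c5476 c1452 c5524 (k8 c9672 c9727 c8722 c5501 c5500 c13455 c5209 c5447 (k8 c5446 c5397 c5396 c6205 c5477 c6197 c13753 c395 (k4 c1630 c5654 c1107 c2329 (k2 c1479 c8724 k0))))) (by decide +kernel)
def c13814 : PP 9 3 T 0x2000000000000000000001000000000000000000040008000100000000000000000000000000000000000000000000000010000000000000000000000090 := rS 0x1c31c6ec41197c1400018ecee752d8c41e630ebdfc2d14ca6d2acf4bb24f79c0f9b1068742c44d7b5d864dfa695499f64ab (k8 c5500 c13812 c5487 c5489 c5403 c5405 c13455 c5209 (k8 c11733 c9672 c9727 c5541 c5499 c8722 c3601 c2316 (k8 c5211 c5372 c5396 c5404 c5543 c5446 c5397 c5447 (k8 c5501 c8772 c5498 c5486 c5395 c9739 c5476 c5474 (k8 c1452 c672 c1674 c13813 c5642 c12065 c1451 c9731 (k4 c10013 c8484 c838 c5654 (k1 c2470 k0))))))) (by decide +kernel)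
def c13815 : PP 9 3 T 0x1000000000010000000040000000000000000040000000100000000000041000000000000000000000040000000000000000000000011000054000048 := rS 0xec6e321c8202e222b86526c94aec0f39c (k8 c5211 c5524 c5209 c5446 c5396 c5444 c6205 c9757 (k8 c6197 c1108 c5643 c395 c3577 c1510 c492 c5654 k0)) (by decide +kernel)
def c13816 : PP 9 3 T 0x2000000000000000000001000000000000000000040008000100000000000000000000000000000000000000000000000010000000000000000000000010 := rS 0x76371c880460a0000c0e1f3620f386b88bc46a1b1883d26690e99dee8742ed7c2d14ca6d56a94ab3dfa97d93276193 (k8 c13455 c5209 c5396 c13812 c5404 c5405 c5543 c5446 (k8 c5489 c5500 c5397 c5447 c5501 c8772 c11733 c5541 (k8 c5499 c5498 c5487 c5486 c5403 c5444 c9739 c5476 (k8 c5475 c5324 c9695 c9727 c9672 c5211 c8722 c3601 (k8 c2316 c13814 c13815 c5642 c12065 c9731 c11603 c2471 (k2 c8484 c340 (k1 c5654 k0))))))) (by decide +kernel)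
def c13817 : PP 9 3 T 0x1000000000000000000040000000000000000000000000000000000000000000000000040000000000000000001000001000000000000000200000008 := rS 0x3de74d80c (k4 c265 c266 c5522 c742 (k1 c5669 k0)) (by decide +kernel)
def c13818 : PP 9 3 T 0x48000000000000000000000000000008000000000000014040000000000000000800000000000000000000000001400000011000000000 := rS 0x40c3aa9 (k4 c5489 c5486 c2460 c12174 k0) (by decide +kernel)
def c13819 : PP 9 3 T 0x2000000000000008000211000000000000000000000008000100000200000000000000000000000000000000000008001400400001400000010000000090 := rS 0x1588e7ca2aca38acf6e7f71ad44a7d37a04e69f5098cc2ad57bf43aa97bc05ffb555ec326573a8c4ee5b (k8 c5474 c672 c5476 c1452 c80 c13455 c5209 c5500 (k8 c11733 c5544 c5502 c5498 c5489 c5486 c5405 c5406 (k8 c5490 c5445 c5395 c5398 c5448 c5379 c5380 c5565 (k8 c5566 c13678 c1340 c1775 c13722 c10494 c13818 c885 (k4 c3599 c1293 c5685 c12708 (k2 c12026 c5341 k0)))))) (by decide +kernel)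
def c13820 : PP 9 3 T 0x2000000000000000000001000000000000000000000008000100000000000000000000000000000000000000000000000010000000000000000000000090 := rS 0x8efc823b746a07c5a1efb10f5103697f3a001480d8e793b9d4b6310798cc26933a176be168a65369567a5d93b0c99241637239ac402379aa5e2f75587e941b7abf43bb2 (k8 c13812 c5486 c5405 c5477 c5475 c13816 c5517 c5500 (k8 c5498 c9695 c5489 c5325 c5331 c3581 c2372 c5520 (k8 c5518 c5516 c5334 c13455 c5209 c5396 c5404 c5543 (k8 c5446 c5397 c5447 c5501 c8772 c11733 c5541 c5487 (k8 c5403 c5445 c5395 c9739 c5476 c5474 c1452 c672 (k8 c1454 c674 c13817 c9694 c5642 c12065 c1451 c665 (k8 c8158 c5669 c10013 c5451 c13819 c13765 c5463 c947 (k4 c13782 c9667 c5241 c13277 (k1 c12708 k0))))))))) (by decide +kernel)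
def c13821 : PP 9 3 T 0x40000000000000058000000000000000000000000000008000000000000000000000000000000001404000000000000000000000000000000005200000000 := rS 0x2c22829 (k4 c541 c5685 c12176 c1294 k0) (by decide +kernel)
def c13822 : PP 9 3 T 0x40001000000000058000000000000000000000000000008000000000500014000000400000000001004000000515400800000000000000000005200000000 := rS 0x6f350fc8a81a4564a9 (k8 c5489 c13821 c2897 c2460 c3613 c790 c791 c10493 (k1 c3002 k0)) (by decide +kernel)
def c13823 : PP 9 3 T 0x1000000000058000211000000000000000000080008000000000100014000000400000000001004000000005400800000000000000000005200000000 := rS 0x8a92fe4a946c4d128f (k8 c5568 c5567 c5382 c5381 c5489 c13822 c5546 c5590 (k1 c12547 k0)) (by decide +kernel)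
def c13824 : PP 9 3 T 0x1000000000018000211000000000000000000080008000000000100014000000400000000001004014004005400840010000000000000000200400208 := rS 0x6aa2880b114b2ce3b61e8947e27449f4de13468d4339356abcd267 (k8 c5487 c5403 c5406 c5490 c13455 c6205 c5324 c5381 (k8 c5564 c5565 c5566 c5567 c267 c275 c1113 c1512 (k8 c13823 c5571 c5420 c5417 c5421 c3579 c3602 c1656 (k1 c791 k0)))) (by decide +kernel)
def c13825 : PP 9 3 T 0x2000000000000000000011000000000000000000000008000100000000000000000000000000000000000000000000000010000000000000000000000011 := rS 0x4704c8cf7a2516d33fb2fc5a1719d8b1df630c810b53c85c18573620c0511398d4621949a7d42ad43c050affda9ac402379bc5ee1fa506dea1d3df85a2994daad529567bf52fb264ec00f93 (k8 c13455 c13820 c5209 c5396 c13812 c5404 c5405 c5543 (k8 c5446 c5489 c5500 c5397 c5447 c5501 c8772 c9301 (k8 c5486 c5477 c5475 c13816 c5517 c5498 c9695 c5325 (k8 c5331 c3581 c2372 c11733 c5544 c5541 c5502 c5499 (k8 c5490 c5398 c5448 c5444 c6205 c5476 c5324 c9719 (k8 c9730 c5642 c8722 c5665 c9757 c265 c1108 c2428 (k8 c4734 c5643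 c3577 c5669 c5492 c271 c272 c4738 (k8 c13824 c13765 c5464 c5577 c5579 c790 c2057 c8156 (k4 c5673 c13791 c2169 c3638 k0))))))))) (by decide +kernel)
def c13826 : PP 9 3 T 0x40000000000000058000000000000000000000000000008000000000000014040000000000000001004000000000000000000000001400000015200000000 := rS 0xb3 (k2 c13818 c13821 k0) (by decide +kernel)
def c13827 : PP 9 3 T 0x8000100000000000000000000000000000050000000110000854150000000001000002000000000 := rS 0x78da87e452c46a1b (k8 c5475 c5324 c1092 c3602 c790 c791 c5577 c6973 k0) (by decide +kernel)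
def c13828 : PP 9 3 T 0x58000211000000000000000000080008000100000000014040000000000000001004000000000000800010000000001000000000010002 := rS 0x4504cb312fcce2ad579a4ce492388046f354bc43e1b7abf43a2939a34de89 (k8 c5567 c5565 c5381 c5379 c9693 c5486 c5405 c5477 (k8 c5475 c5517 c9695 c5489 c5325 c5331 c3581 c5520 (k8 c5334 c5487 c5403 c5406 c5490 c667 c12009 c13827 (k4 c13818 c13826 c5685 c3046 k0)))) (by decide +kernel)
def c13829 : PP 9 3 T 0x40000000000000058000000000000000000000000000008000100000000014040000000000000001004000000110000844010000001401000004200000002 := rS 0x90e2ad579a4ce29 (k8 c9693 c5487 c5403 c5406 c5490 c668 c13826 c13827 k0) (by decide +kernel)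
def c13830 : PP 9 3 T 0x2000000000000048000211000000000000000000080008000100000000000000000000000000001000000000000000800010000000001000000000000002 := rS 0xb38a8944df3ac8415aaf80bff6bb0c99248e2011bcd52f17baac3e1b7abf43a2939a34de89 (k8 c5567 c5565 c5381 c5379 c9693 c5486 c5405 c5477 (k8 c5475 c5517 c5500 c5498 c9695 c5489 c5325 c5331 (k8 c3581 c5520 c5334 c13455 c5209 c11733 c5544 c5502 (k8 c5406 c5490 c13828 c5558 c12026 c13829 c60 c3046 (k2 c13818 c5685 k0))))) (by decide +kernel)
def c13831 : PP 9 3 T 0x2000000000000088000000000000000000000000000008000000000000000000000000000000000000000000000000000000000050000000400000000000 := rS 0x109b3ad83aa9 (k4 c5489 c5486 c8057 c7805 (k2 c2468 c12183 k0)) (by decide +kernel)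
def c13832 : PP 9 3 T 0x2000000000000008000211000000000000000000080008000100000200000000000000000000000000000000000000800010000000000000000000000202 := rS 0x1ead4fa73db8bc9a4f (k8 c5335 c5521 c9707 c13831 c5379 c5566 c1340 c1512 (k1 c13830 k0)) (by decide +kernel)
def c13833 : PP 9 3 T 0x2000000000000000000011000000000000000000000008000100000000000000000000000000000000000000000000000010000000000000000000000010 := rS 0xe06f907e558f16876fdf1c9d98e08881b4ae2f000d4626368b3f6bb0c98ec924f058dc8e4d3588046f354bc5eeab0fd2836f57e8776407 (k8 c13820 c13812 c5486 c5405 c5477 c5475 c13816 c5517 (k8 c5500 c5498 c9695 c5489 c5325 c5331 c3581 c2372 (k8 c5521 c5520 c5518 c5516 c5335 c5334 c5332 c13455 (k8 c5209 c11733 c5543 c5501 c5395 c5476 c5324 c13825 (k8 c9707 c9758 c665 c8158 c5643 c796 c13685 c274 (k8 c5493 c13831 c13832 c13765 c5212 c5241 c5462 c5580 (k2 c11685 c5591 k0))))))) (by decide +kernel)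
def c13834 : PP 9 3 T 0x2000000000000000000001000000000000000000000008000100000000000000000000000000000000000000000000000010000000000000000000000010 := rS 0x206e70400b1187e948555bdde2f30dbd41e697e87553b2 (k8 c13812 c5489 c5486 c5405 c5403 c9739 c5477 c5475 (k8 c5325 c9695 c5498 c5500 c5541 c13816 c5517 c5331 (k4 c5516 c3581 c13833 c5522 (k2 c12065 c265 k0)))) (by decide +kernel)
def c13835 : PP 9 3 T 0x1000400000000022000011000000000000000000000008000000000000001080000000009000000000000000000004000810000000000000000040004008 := rS 0x2c314ea0b43214b683 (k8 c1972 c5474 c2543 c11575 c2305 c1531 c5732 c9904 (k1 c13487 k0)) (by decide +kernel)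
def c13836 : PP 9 3 T 0x2000000000022000000000000000000000000000000000000000100000000000000000020000000000000000400000410000000000000000000000000 := rS 0x2f9e4c69b4e9b58e7b (k8 c5457 c5535 c5529 c5412 c5397 c5395 c1632 c1630 (k1 c10556 k0)) (by decide +kernel)
def c13837 : PP 9 3 T 0x400000000000000001000000000000000000000008000000000000000000000000000010000000000000000000000000000000000000000000000080 := rS 0x773a96c6393 (k4 c13455 c5476 c5474 c1452 (k2 c672 c5668 k0)) (by decide +kernel)
def c13838 : PP 9 3 T 0x20000011000000000000000000040008000100000000000000000000000000000000000000000000000010000000000000000000000011 := rS 0x421d814320405c0ec535a0dec570f809e2357986c62f50c83d261df6c4446c73df7d9cc94caad52fd4aec12fb24eb37c193 (k8 c13455 c5215 c5537 c5412 c13812 c5404 c5209 c5446 (k8 c5405 c5489 c5413 c5447 c5396 c13449 c6325 c5457 (k8 c5535 c5409 c9727 c13834 c5486 c5444 c9739 c6205 (k8 c5477 c5476 c5475 c5325 c5324 c9695 c5642 c11726 (k8 c9757 c5816 c1972 c13835 c13836 c13837 c1108 c5643 (k4 c3577 c13533 c272 c12749 (k1 c788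 k0))))))) (by decide +kernel)
def c13839 : PP 9 3 T 0x4000400000000020000000000000000000000000000000000000000000015000000000408900000051000040000000000000000000000000000000000000 := rS 0x160d26af8d56b3 (k4 c5532 c5413 c5464 c1660 (k2 c5689 c10438 (k1 c2085 k0))) (by decide +kernel)
def c13840 : PP 9 3 T 0x44000000000000002000000000000000000000000040000000000000000014000000000008400000000000000000110444000400005400000000000000002 := rS 0x713f845a9584fa84c661 (k8 c5445 c5395 c5398 c5448 c5660 c8707 c5558 c2999 (k2 c667 c3599 k0)) (by decide +kernel)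
def c13841 : PP 9 3 T 0x40000000002a000200000000000000000000040008000000000000000040000040408000000000000000000800000010000000000000000000002092 := rS 0x1c7f265fbc96ff23c04922547a24fa6f09a35027350b255aaf4bbf5521e3b96cbe03 (k8 c28 c1451 c5474 c672 c7262 c5489 c5405 c5404 (k8 c5406 c5490 c5396 c5398 c5379 c5380 c5381 c5564 (k8 c5565 c5566 c5567 c5568 c13678 c293 c1977 c2367 (k4 c2396 c2591 c11553 c13839 (k2 c13840 c5549 (k1 c5271 k0)))))) (by decide +kernel)
def c13842 : PP 9 3 T 0x20000011000000000000000000040008000100000000000040000000000000000000000000000000000810000000000000000000000090 := rS 0xff24c0516918e9c88e4b81d604a11d0b5cf08243b10864579bd4d3eddbadcf6dfefb39929955aa5fa95d825d3acdf064d0b13060003db2 (k8 c13812 c7262 c13838 c1059 c4731 c2543 c13455 c5215 (k8 c5537 c5412 c5404 c5209 c5446 c5405 c5489 c5413 (k8 c5447 c5396 c13449 c6325 c5538 c5457 c5533 c8057 (k8 c13834 c5403 c5477 c5325 c5326 c5478 c13837 c898 (k8 c5732 c11551 c4294 c13841 c9667 c9666 c5212 c11700 (k8 c12663 c2368 c11969 c5341 c9824 c855 c1978 c294 (k2 c2397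 c3593 k0))))))) (by decide +kernel)
def c13843 : PP 9 3 T 0x4000000000000000000000000000000000000000000000000000000000050000000800408000000000000000000000000000000000000000000000000000 := rS 0x355fff3 (k4 c5549 c2575 c1663 c8707 k0) (by decide +kernel)
def c13844 : PP 9 3 T 0x8000100000000000000000000000000000050000004110000844150000000021000000000800002 := rS 0x1c44827 (k4 c349 c1737 c668 c13827 k0) (by decide +kernel)
def c13845 : PP 9 3 T 0x1000000000000008000000000000000000000000000008000000000000050040000140408000000000000000110000044010000001415540000080000010 := rS 0x7192fdef3 (k4 c5325 c11553 c9182 c13843 (k1 c3590 k0)) (by decide +kernel)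
def c13846 : PP 9 3 T 0x211000000000000000000000008000100000000040040000140008000000000000000001000800010000000000544000080002212 := rS 0xf1d65ab1d0840082471e8fc92d747a24fa6f09a34e64322974b6ad579a4cfed41b142c1d49bc52a350ca5f64c9d864c3631 (k8 c5476 c5475 c13455 c5209 c5396 c13812 c5404 c6205 (k8 c5324 c5446 c9695 c5444 c5486 c3577 c1627 c2395 (k8 c13834 c5487 c5403 c5406 c5490 c5474 c5321 c5326 (k8 c5478 c5379 c5381 c5564 c5565 c5566 c5567 c5568 (k8 c2187 c293 c275 c1512 c2367 c13844 c13845 c12665 (k4 c2139 c3072 c5558 c13617 (k1 c5655 k0))))))) (by decide +kernel)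
def c13847 : PP 9 3 T 0x20000011000000000000000000040008000100000000000040000000000000000000000000000000000810000000000000000000000010 := rS 0x38c7e49471fd22413911c963d1284742810b0ccb303431d906c51b8200f133a8310af11a86c62194998c3beddbadc76e11cb7fbece64a6556a97ea5760974eb37c1932b8003db2 (k8 c13812 c7262 c13838 c9758 c13455 c5215 c5537 c5412 (k8 c5404 c5209 c5446 c5405 c5489 c5413 c5447 c5396 (k8 c13449 c6325 c5538 c5534 c5460 c5456 c5533 c8057 (k8 c13834 c5486 c5395 c5444 c6205 c5476 c5475 c5324 (k8 c9695 c2543 c1059 c1531 c4731 c13842 c5643 c2364 (k8 c1627 c2395 c5668 c11575 c10690 c2111 c271 c3577 (k8 c4282 c13846 c9667 c9666 c1513 c12663 c2368 c11969 (k8 c1737 c9824 c806 c1319 c294 c276 c2404 c3590 k0)))))))) (by decide +kernel)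
def c13848 : PP 9 3 T 0x1000400000000000000000000000000000000000000008000000000000041040000000140000002000000000000000000000000000015004000000000000 := rS 0x475fff3 (k4 c5548 c2572 c6335 c13568 k0) (by decide +kernel)
def c13849 : PP 9 3 T 0x8000100000000000000000000100000000000000000000000020000000000015004000010000002 := rS 0x1e28ed644c10 (k4 c667 c668 c5558 c351 (k2 c5655 c13617 k0)) (by decide +kernel)
def c13850 : PP 9 3 T 0x1000400000000020000200000000000000000000000008000100000100041040000000000000000000000000004000200400000000000080000010004202 := rS 0x23afff9a40e2b520b4daa3d1f91d127d099ce2a6d598a46657 (k8 c9758 c1964 c9693 c5532 c5529 c5414 c5379 c5564 (k8 c5566 c5567 c12800 c275 c1512 c1532 c1969 c1741 (k4 c13848 c13849 c13067 c5589 (k2 c3009 c6335 (k1 c13568 k0))))) (by decide +kernel)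
def c13851 : PP 9 3 T 0x20000011000000000000000000040008000100000000000040000000000000000000000000000000000010000000000000000000000010 := rS 0xd76a9f0fe8b8e904e43dac09423a12f40c6c16409e066083a01d8a77418290887069ac3cf11a96c36310c83d266334877db11dbadd8fdf6732532ab54bf52bb04bec93acdf064cae00 (k8 c13838 c9758 c13455 c5215 c5537 c5412 c13812 c5404 (k8 c5209 c5446 c5405 c5489 c5413 c5447 c5396 c13449 (k8 c6325 c5535 c5533 c8057 c9727 c13834 c5486 c5403 (k8 c5395 c5444 c9739 c6205 c5476 c5475 c5474 c5324 (k8 c9695 c7262 c13847 c2361 c8435 c13492 c5645 c128 (k8 c788 c13836 c13837 c5668 c5643 c1964 c1530 c4285 (k8 c3577 c2307 c4747 c1506 c13850 c9667 c9666 c5212 (k8 c1513 c11969 c1737 c5341 c855 c806 c1315 c1533 (k2 c4181 c8453 k0))))))))) (by decide +kernel)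
def c13852 : PP 9 3 T 0x1002000000000022000001000000000000000000000000000000000100001000000000000020000000000000000400000010000000000000000000000000 := rS 0x1a90e7b (k4 c5457 c898 c13836 c11575 k0) (by decide +kernel)
def c13853 : PP 9 3 T 0x1000000000000008000200000000000000000000000008000000000000010001000800408000000000000000008000010000000004000000010000010000 := rS 0x2c63a8bf73ffe703 (k8 c10690 c5549 c2575 c13843 c901 c13569 c5506 c12079 k0) (by decide +kernel)
def c13854 : PP 9 3 T 0x40000000000000000000000000000000000000000000000000000000000000000000000004000000000000000000020000011000000000 := rS 0x4f59 (k2 c5340 c349 (k1 c5651 k0)) (by decide +kernel)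
def c13855 : PP 9 3 T 0x1000000000000028000200000000000000000000000008000100000000000001000140408000000000000004008000800010000001405540000080010002 := rS 0x58c7517007ffcdc44125894e2ad579a4ceabdbadc530339a34de89 (k8 c5567 c5565 c5381 c5379 c10690 c9693 c5533 c8057 (k8 c5413 c5487 c5403 c5406 c5490 c667 c13827 c2591 (k8 c13854 c3590 c5549 c2575 c13853 c901 c13569 c2143 (k1 c12079 k0)))) (by decide +kernel)
def c13856 : PP 9 3 T 0x22000000000000000000000100040008000100000000000000000140000000000050000000110000844150000005405540000000000002 := rS 0x171390194e3f924d4229 (k8 c9693 c5398 c5444 c5660 c5549 c5271 c3590 c349 (k2 c13844 c9148 k0)) (by decide +kernel)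
def c13857 : PP 9 3 T 0x100000000000002a000200000000000000000000040008000100000000000081000140008000000000000000008000800010000000000540000080002202 := rS 0x7145ac44eff2556420471e8fc928f449f4de13469cde69356abcd26755c0dae58 (k8 c291 c4531 c10690 c5413 c5487 c5403 c5406 c5490 (k8 c5444 c5325 c5379 c5381 c5564 c5565 c5566 c5567 (k8 c5568 c293 c275 c1512 c2367 c13855 c5558 c13856 (k4 c2568 c3699 c12081 c901 (k2 c668 c3602 k0))))) (by decide +kernel)
def c13858 : PP 9 3 T 0x1000400000000028000001000000000000000000040008000100000000000080000140008010000000000000000400000810000000000500000000000002 := rS 0x38c7e49471fd22813911c96411e89423a1191d86e58899d50c1e06215e263d83f76eb70401caf93 (k8 c13455 c9758 c13837 c5643 c5533 c8057 c5405 c5209 (k8 c5395 c9695 c2543 c1059 c1058 c11575 c1531 c4731 (k8 c291 c2364 c5668 c2051 c13857 c9667 c9666 c1513 (k8 c12634 c12663 c2368 c11969 c12653 c9824 c806 c1319 (k4 c294 c276 c2404 c3590 k0))))) (by decide +kernel)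
def c13859 : PP 9 3 T 0x1000400000000000000000000000000000000000000008000000000000041000000000140000002000000000000000000000000004015004000000000000 := rS 0x475fff3 (k4 c5548 c2572 c13569 c13568 k0) (by decide +kernel)
def c13860 : PP 9 3 T 0x1000400000000020000211000000000000000000040008000100000000001080000000008010000000000000000000400400000000000000000010004002 := rS 0x11d7fc03e6905a9c482362582a060d69b550878438cce8d1f01ce266f44a3c8e298aaccdb111f84c7a7d0401caf93 (k8 c13455 c9758 c13837 c5643 c5566 c1512 c5564 c275 (k8 c9727 c5529 c5532 c5414 c9693 c12800 c5568 c5567 (k8 c5565 c5382 c5379 c5215 c5459 c5668 c272 c2115 (k8 c1530 c1531 c1532 c1969 c292 c4747 c5645 c2588 (k8 c2307 c1741 c13849 c13859 c3604 c5589 c850 c3009 (k2 c2140 c13568 k0)))))) (by decide +kernel)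
def c13861 : PP 9 3 T 0x100000000000002a000200000000000000000000040008000100000000000001000140008000000000000000008000800010000005415540000000010002 := rS 0x2c517007fc75c55856abcd267558a4e66f44b5d1a71 (k8 c667 c5381 c2187 c5567 c5565 c5379 c9693 c5413 (k8 c5487 c5403 c5406 c5490 c13856 c3590 c5341 c2575 (k4 c13853 c901 c2143 c12079 k0))) (by decide +kernel)
def c13862 : PP 9 3 T 0x100000000000002a000200000000000000000000040008000100000000000081000140008000000000000000008000800010000001415540000000010002 := rS 0x13d64942538ab55e6933edd6e2939a34de89 (k8 c5567 c5565 c5381 c5379 c9693 c5533 c8057 c5487 (k8 c5403 c5406 c5490 c667 c13827 c13861 c5342 c3699 (k1 c5651 k0))) (by decide +kernel)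
def c13863 : PP 9 3 T 0x1000000000000028000211000000000000000000040008000100000000000080000000000000000000000000000000000010000000000000000000004002 := rS 0x7145ac44eff2556420410b1246e1f818310c853b0f47e47449f4de13469cde2f30ca4d36ad579a43a6711c54426d59b1c52080395cd6c588a0d9cc954bf52a97efaad33b066a75be39708efc193 (k8 c13455 c5215 c5456 c5460 c5534 c5538 c5412 c5537 (k8 c5209 c5447 c5413 c6325 c5404 c5446 c5405 c5489 (k8 c5396 c13449 c1972 c9727 c13852 c13858 c9758 c13837 (k8 c5643 c9693 c5535 c5532 c5529 c5528 c5414 c5409 (k8 c5487 c5486 c5403 c5406 c5490 c5397 c5444 c6205 (k8 c5325 c9695 c5379 c5381 c5564 c5565 c5566 c5567 (k8 c12800 c275 c1512 c13860 c788 c8112 c13492 c10690 (k8 c2361 c2364 c293 c3578 c13844 c13862 c5558 c13856 (k4 c2568 c3699 c12081 c901 (k2 c668 c3602 k0)))))))))) (by decide +kernel)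
def c13864 : PP 9 3 T 0x400000000000000101000000000000000000000008000000100000000000000000000010000000000000040040400000000000011000000000000200 := rS 0xf1fbdaad3199d3263f (k8 c276 c13455 c5668 c272 c8433 c1533 c13298 c13617 (k1 c5186 k0)) (by decide +kernel)
def c13865 : PP 9 3 T 0x20000011000000000000000000040008000100000000000000000000000000000000000000000000000010000000000000000000000010 := rS 0x1f7c6e2248de260c43214ec3f409fd16912392e3a41390f6b02508e84d60803b1506f62b8a400ceefb7d9a3970b1c77e007a4cc6c94aa67619334a5dfa6754fb6229d55edd6fb2 (k8 c13812 c5533 c8057 c5413 c5412 c9727 c13834 c5489 (k8 c5487 c5405 c5404 c5403 c13455 c5209 c5447 c5446 (k8 c5396 c5395 c5444 c9739 c5215 c5456 c5535 c5460 (k8 c5534 c5537 c5538 c6325 c13449 c13838 c9693 c9758 (k8 c13851 c1972 c13852 c13837 c5643 c13858 c13863 c9667 (k8 c9666 c5212 c1513 c11969 c13854 c5341 c5342 c5562 (k8 c9824 c855 c806 c12653 c276 c13864 c788 c8112 (k8 c13492 c13182 c2364 c294 c3590 c11685 c1552 c5670 k0)))))))) (by decide +kernel)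
def c13866 : PP 9 3 T 0x28000021000000000000000000040008000100000000000040000000000000000000000000002000000000000000000000000000000010 := rS 0xea776777d8fe0668dd8a082b8000e39018ec3c350ca4d929b4aa67619334a5dfaa988a75566d3d834d679 (k8 c5524 c5523 c5522 c5372 c5529 c5413 c5412 c9727 (k8 c5489 c5405 c5404 c5403 c13455 c5209 c5447 c5446 (k8 c5397 c5396 c5444 c6205 c5324 c7262 c6724 c1111 (k8 c2472 c13770 c5642 c9758 c5643 c1627 c1510 c2503 (k4 c5654 c5535 c6325 c13449 (k2 c788 c1530 (k1 c10637 k0))))))) (by decide +kernel)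
def c13867 : PP 9 3 T 0x1000400000000000000001000000000000000000000008000100000100000080000000000000000000001000000005001410004000000000000000000080 := rS 0x17d8ec431a6f61933a8c4ee5b (k8 c5474 c672 c5476 c1452 c13455 c5209 c5397 c5395 (k4 c13837 c13572 c1630 c10556 k0)) (by decide +kernel)
def c13868 : PP 9 3 T 0x1000000000000028000001000000000000000000040008000100000000000080000000000000000000000000000005000410004000000000000000000080 := rS 0x361cb43c233ef33476314cec326fd88a75566d (k8 c5529 c5413 c5412 c9727 c5405 c13455 c5209 c5447 (k8 c5476 c1674 c2072 c13867 c5492 c6325 c13565 c397 (k2 c5654 c1481 k0))) (by decide +kernel)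
def c13869 : PP 9 3 T 0x20000001000000000000000000040008000100000000000000000000000000000000000000000000000010000000000000000000000011 := rS 0x74cd68f7c6e39628c810170395c3e02788d436310c83d26c94da5533b0c9a5c3bed11a74427b069e5ec8443a0cd71136bf4d2a933aaf39b2 (k8 c13812 c13865 c5413 c5487 c5489 c5403 c5405 c5529 (k8 c9727 c5523 c5525 c5373 c3601 c13866 c5524 c5522 (k8 c5372 c5528 c5412 c5409 c13834 c5486 c5404 c13455 (k8 c5209 c5447 c5446 c5397 c5396 c5444 c9739 c6205 (k8 c5476 c5475 c5324 c9695 c5642 c11726 c9757 c13868 (k8 c1108 c5643 c3577 c1627 c273 c1510 c5492 c2130 (k2 c2503 c3578 (k1 c6899 k0)))))))) (by decide +kernel)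
def c13870 : PP 9 3 T 0x400000000000000001000000000000000000040008000100000000001000000000001000000005001040000001400000000000000100000010000200 := rS 0x78476cf0b1d066f10d8c4329364a5533b0c9b146a37 (k8 c1510 c5324 c1627 c13455 c5209 c5447 c5446 c5396 (k8 c5444 c6205 c5476 c5475 c9695 c272 c5668 c3577 (k4 c1530 c1676 c13449 c5654 k0))) (by decide +kernel)
def c13871 : PP 9 3 T 0x1000400000000000000001000000000000000000040008000100000000001000000000000000000005001040006001000000000000000100000010000200 := rS 0x1e11db19a2761bb358a35 (k8 c5324 c1627 c2503 c1510 c13870 c2131 c788 c6899 (k2 c5535 c5654 k0)) (by decide +kernel)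
def c13872 : PP 9 3 T 0x20000001000000000000000000040008000100000000000000000000000000000000000000000000000010000000000000000000000010 := rS 0x3a0b78467de668dc72c50401cae007b2110679358350e7bce1b5569d788d436310ca4d92954cec326694bbf43a6754ecbdb11 (k8 c9727 c13834 c13812 c5489 c5487 c5486 c5405 c5404 (k8 c5403 c13455 c5209 c5447 c5446 c5396 c5444 c6205 (k8 c5476 c5475 c5324 c9695 c5412 c5413 c5529 c13865 (k8 c5372 c5373 c5522 c5523 c5524 c5525 c3601 c13866 (k8 c13869 c9758 c13868 c5643 c1627 c273 c1510 c2503 (k4 c13871 c5492 c6325 c3577 (k2 c5654 c1676 k0))))))) (by decide +kernel)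
def c13873 : PP 9 3 T 0x1001000000000008000000000000000000000000040008000100000000000001000800008000000000000100000000000000000000011000001800000000 := rS 0x298ed63e7e3 (k4 c5466 c5549 c5168 c8051 (k2 c5339 c11901 k0)) (by decide +kernel)
def c13874 : PP 9 3 T 0x1001400000000008000000040000000000000000040008000100000400000041000000008060000000000001400115000000000000401000001800000080 := rS 0x243fe031d692287c106af8cfce370a6760772d905aedf1b0ec7219 (k8 c6205 c395 c1674 c5654 c2331 c1765 c1734 c5474 (k8 c672 c5209 c5447 c1483 c13873 c5910 c5577 c2999 (k8 c676 c677 c840 c841 c406 c3068 c2942 c11554 (k1 c3026 k0)))) (by decide +kernel)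
def c13875 : PP 9 3 T 0x1001400000000018000200040000000000000000040008000100000000000041000000008060000000000000000000040000400000400000001800400080 := rS 0x70b8fe5efdbb2da67fac8f1be43d82b52e913ca3cae361d9ef38390ca06267d (k8 c5566 c5382 c5380 c6205 c395 c5211 c5372 c1674 (k8 c5654 c80 c5526 c5524 c5374 c5404 c5490 c5209 (k8 c5478 c2331 c13874 c5560 c2765 c2768 c1489 c10494 (k4 c8156 c5231 c10455 c5591 (k1 c5910 k0))))) (by decide +kernel)
def c13876 : PP 9 3 T 0x8000000000000000000000100000008000000000000000000000080408100000000000000000000000000000000000080005001000000 := rS 0x36cb18e8a5a43e (k4 c2332 c2565 c404 c406 (k2 c2085 c5651 (k1 c8393 k0))) (by decide +kernel)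
def c13877 : PP 9 3 T 0x1001400000000018000200040000000000000000040008000100000000000041000000008060000000000000000000040000400000000000000800000098 := rS 0xfc3f6fb8dc3592309dae41129f4271340b2760794785c6c3b3de707219 (k8 c6205 c395 c5211 c5372 c1674 c5654 c1107 c5526 (k8 c5524 c5209 c5396 c5380 c5382 c5564 c5566 c13678 (k8 c1734 c1765 c267 c13875 c5562 c2789 c2348 c13876 (k2 c2913 c5910 (k1 c677 k0))))) (by decide +kernel)
def c13878 : PP 9 3 T 0x1001400000000008000000040000000000000000040008000100000000000041000000008060001000000001400015020000000000401000000800000080 := rS 0x81899876025 (k4 c1263 c5209 c5445 c756 (k2 c751 c13874 k0)) (by decide +kernel)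
def c13879 : PP 9 3 T 0x1001400000000008000100040000000000000000040008000100000000000041000000008060000000000001400015040000400000401000000800000088 := rS 0xac78d96273886527b00bad45225 (k8 c1263 c8199 c1339 c1107 c5209 c5444 c6205 c13878 (k4 c268 c8466 c10342 c5216 (k1 c11970 k0))) (by decide +kernel)
def c13880 : PP 9 3 T 0x1001400000000008000100040000000000000000040008000100000000000041000000008060000000000001400015040000400000400000000800000088 := rS 0x381bc4ecb69840ff591e10d26634aec12e1d2b85c5225 (k8 c1263 c8199 c1107 c80 c5486 c5404 c5209 c5446 (k8 c5395 c5444 c5478 c13879 c5560 c2765 c12640 c2768 (k4 c1489 c2861 c2745 c13308 (k1 c10436 k0)))) (by decide +kernel)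
def c13881 : PP 9 3 T 0x1001400000000008000100040000000000000000040008000100000000000041000000008060000000000001400005040010000000400000000800000088 := rS 0x36d1d46a207812409f04a9fd81a4be29 (k8 c8199 c1630 c5403 c5209 c5448 c1263 c13880 c193 (k4 c1457 c1456 c1634 c947 (k2 c300 c12427 (k1 c8411 k0)))) (by decide +kernel)
def c13882 : PP 9 3 T 0x440000000000a000000000000000000000200000008000000000000000001000000400000000000000000000000000000000000000000005000400000 := rS 0x34fded55832a3a2921b255a97 (k8 c5404 c5490 c5396 c5478 c5339 c5341 c11970 c6206 (k4 c1660 c5506 c2085 c5689 k0)) (by decide +kernel)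
def c13883 : PP 9 3 T 0x8000000000000000000000100000008000000000000000000000000400000000000000000000000000000000000008000005001000000 := rS 0x161b68e8a486ad (k4 c5490 c5478 c404 c406 (k2 c5651 c6206 (k1 c5421 k0))) (by decide +kernel)
def c13884 : PP 9 3 T 0x240000000000a000220000000000000000000000008000100000000000001000000000060000000000000000000000000400000000040000001000098 := rS 0xe21e1fc7f5913b5c83e3129f42713409ed22794785dc2df (k8 c5538 c5460 c1107 c5526 c5524 c5374 c5372 c5380 (k8 c5382 c5564 c5566 c13678 c12577 c1734 c1765 c267 (k4 c13882 c13883 c677 c5655 (k2 c3610 c1493 k0)))) (by decide +kernel)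
def c13885 : PP 9 3 T 0x2000000000000000120040000000000000000000000000000000000000000000000000040001000000000000050020001000000000000000000000000 := rS 0x3c4e240c4cf6913ca3dc2df (k8 c5538 c5460 c5526 c5524 c5374 c5372 c756 c751 (k2 c3610 c5670 (k1 c5466 k0))) (by decide +kernel)
def c13886 : PP 9 3 T 0x2400000000008000120040000000000000200000008000100000000000001000000000040001000000000000010000000000000000000001000400088 := rS 0xf189ce2d73fc7422611907526951a8652ec9d806c6229 (k8 c8199 c5476 c5475 c5209 c5396 c5404 c6205 c5324 (k8 c5446 c5444 c5486 c3577 c5445 c5558 c5341 c676 (k4 c2185 c13885 c268 c13634 (k1 c13882 k0)))) (by decide +kernel)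
def c13887 : PP 9 3 T 0x2400000000008000120040000000000000000000008000100000000000001000000000040001000000000000000000000000000001000001000400088 := rS 0x27f16dab27d0ca4f6029 (k8 c8199 c5209 c5444 c6205 c1456 c13886 c5212 c5216 (k2 c5570 c10342 k0)) (by decide +kernel)
def c13888 : PP 9 3 T 0x240000000001a000200000000000000000000040008000000000000000001000000000060000000000000000000040000400000000000000001000098 := rS 0x3e4e2db9fc7f5913b5fc6253e84e26813da44f28fce05dc2df (k8 c5538 c5460 c1107 c5211 c5526 c5524 c5374 c5372 (k8 c5380 c5382 c5564 c5566 c13678 c12577 c1765 c267 (k4 c13882 c13883 c677 c10494 (k2 c3610 c5231 (k1 c5549 k0))))) (by decide +kernel)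
def c13889 : PP 9 3 T 0x2400000000008000120040000000000000000040008000100000000000001000000000040001000001000000000000000000004000000001000400088 := rS 0x22ae324d6478e1 (k4 c5460 c13887 c5560 c3030 (k2 c1494 c7822 (k1 c9176 k0))) (by decide +kernel)
def c13890 : PP 9 3 T 0x2400000000008000120040000000000000000040008000100000000000001000000000040001000001000000000000000000004000000000000400088 := rS 0x36c24 (k2 c13889 c9666 (k1 c7601 k0)) (by decide +kernel)
def c13891 : PP 9 3 T 0x2400000000018000000040000000000000000040008000100000000000001000000000060000000000000000000040000400000000000000800000098 := rS 0x25ad453a1d827472190b8ecf79c (k8 c5211 c5372 c1674 c1107 c6205 c395 c13264 c5209 (k4 c13888 c8199 c1339 c560 (k1 c13890 k0))) (by decide +kernel)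
def c13892 : PP 9 3 T 0x400000000000000001000000000000000000040008000100000000000040000000000000000000000000000000000010000000000000000000000091 := rS 0x12c53c5b670c06b246d0b399a36f08e464220bb1c3e0239bc486350d8c5ea1907a4d9295d864d2efd0eecbda913ca3c767bce6d4bec4 (k8 c13837 c1630 c13872 c5211 c5372 c1674 c5526 c5524 (k8 c5374 c13834 c13812 c5486 c5405 c5404 c13455 c5209 (k8 c5446 c5396 c5444 c9739 c6205 c5477 c5476 c5475 (k8 c5324 c5478 c9695 c9719 c5642 c11726 c13650 c1107 (k8 c6197 c3577 c395 c13891 c5654 c2329 c12046 c13877 (k8 c13881 c5562 c2790 c2789 c5212 c5216 c7801 c7601 (k1 c2786 k0))))))) (by decide +kernel)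
def c13893 : PP 9 3 T 0x8000020000000000000000000000008000000000000000040000000002040000004000000000000000000000000000200000040004004 := rS 0x10a0b34bf43aa9 (k4 c5489 c5486 c5405 c5403 (k2 c2470 c2502 (k1 c12065 k0))) (by decide +kernel)
def c13894 : PP 9 3 T 0x200000008000000000000040040000000002000001000014040000110044005400004400200000000000082 := rS 0x7fb85aaca3f9c63a11 (k8 c5558 c5341 c667 c676 c3599 c1660 c1719 c2507 (k1 c12311 k0)) (by decide +kernel)
def c13895 : PP 9 3 T 0x2000200000000000000000100000000000000200000000000000000400000000000000000000000000000400000000000011010000080 := rS 0x1b63f89c7e73 (k4 c5379 c406 c351 c677 (k2 c5651 c10494 k0)) (by decide +kernel)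
def c13896 : PP 9 3 T 0x12000200000000000000000100040000000000000000000000000200000000000000000000000000000000400000000000000000000000 := rS 0x36c7ff9a473873 (k4 c5379 c5211 c5374 c5591 (k2 c3058 c5231 (k1 c10494 k0))) (by decide +kernel)
def c13897 : PP 9 3 T 0x12000200000000000000000000040008000100000000000040000000002020000000000040002000000000400000000200000010000892 := rS 0x1ef8c7ede6a3f9c31dac92e06476b9044a7d37c4d027322a7d4263308a56a200f80cf26b3de722223 (k8 c9731 c9727 c5211 c5372 c9672 c5524 c28 c13795 (k8 c5650 c4733 c9693 c5445 c5395 c5398 c5448 c5326 (k8 c5379 c5380 c5382 c5565 c5566 c13678 c1734 c1765 (k8 c2423 c2629 c2588 c13894 c13895 c13896 c12311 c2507 (k4 c2506 c2996 c5580 c2770 (k1 c5655 k0)))))) (by decide +kernel)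
def c13898 : PP 9 3 T 0x8000100000000000000000200000008000000000000000000000000000000000000000000000000040000000000000000001000000002 := rS 0xb1db4742229 (k4 c9693 c5558 c5341 c11969 (k2 c5421 c8393 k0)) (by decide +kernel)
def c13899 : PP 9 3 T 0x8000100040000000000000000000008000100000000000000000000000020000000000000000000040000400000000000001000000002 := rS 0x1111c3e2c7c5b6ac9bf6029 (k8 c9693 c5209 c1060 c13898 c5212 c5216 c5421 c13779 (k2 c8393 c1634 (k1 c12630 k0))) (by decide +kernel)
def c13900 : PP 9 3 T 0x8000100000000000000000000000008000000000000000000000000000000000000000000000000000000000000000000002000000000 := rS 0x1b6 (k2 c9666 c7601 k0) (by decide +kernel)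
def c13901 : PP 9 3 T 0x1000400000000018000001000000000000000000040008000100000000000040000000000000000000000000000000000000400000000200000000000092 := rS 0x10124bfd651545edce42523a37426c052118cab663cc1ec934a5c3a8f62344ea31148803e033c9acf79c88ec32623 (k8 c9731 c13455 c5209 c9727 c5211 c5372 c9672 c5524 (k8 c28 c13795 c5650 c9693 c5476 c1452 c10484 c13837 (k8 c5526 c5486 c5404 c5403 c5396 c9739 c5325 c6897 (k8 c2075 c13893 c838 c674 c2416 c13897 c3938 c8287 (k8 c13900 c13899 c5419 c855 c1290 c934 c11835 c345 (k2 c2901 c13818 k0)))))) (by decide +kernel)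
def c13902 : PP 9 3 T 0x12000200000000000000000000000000000000000000000000000140000040001000001001400005000000400000000000000000010082 := rS 0x167f38ab8995b73f9c53ea131985327340c4cde7d (k8 c5566 c5565 c5382 c5380 c5379 c5447 c5445 c5395 (k8 c5398 c5448 c667 c676 c10494 c3599 c3610 c1292 (k2 c5549 c2458 (k1 c5685 k0)))) (by decide +kernel)
def c13903 : PP 9 3 T 0x12000200000000000000000000040008000000000000000040000140000060000000001000000000000000400000000000000010000092 := rS 0xd33f3f9c7f28e926b2102392dae253ec4d0291478a56a0a3626cc6200f80cf26b3de722223 (k8 c9731 c9727 c5211 c5372 c9672 c5524 c28 c13795 (k8 c5650 c5395 c5397 c10556 c665 c4733 c9693 c5526 (k8 c5374 c5380 c5382 c5566 c13678 c1765 c2588 c2423 (k8 c13902 c5558 c3026 c13895 c5660 c5549 c12736 c3610 (k2 c2942 c841 k0))))) (by decide +kernel)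
def c13904 : PP 9 3 T 0x400000000000000001000000000000000000040008000100000000000040000000000000000000000000000000000010000000000000000000000090 := rS 0x7bfc703809249641ac2ca2a11db9c88e25d09b1bee14ef818e39100dc3e231480c005f6210c8af37aa4cc69b4cec326ad0eaa765ed88834d6791d9ef39b5 (k8 c13872 c5211 c5372 c1674 c5524 c9672 c9673 c9727 (k8 c13834 c13812 c5489 c5486 c5490 c13455 c5209 c5447 (k8 c5397 c5395 c5444 c5477 c5325 c5326 c5478 c13837 (k8 c1630 c13892 c28 c9693 c9731 c13795 c8484 c5650 (k8 c13901 c675 c5654 c5458 c5460 c5538 c10556 c13903 (k8 c13900 c2423 c13899 c5419 c9715 c1290 c934 c5212 (k8 c13854 c12638 c345 c2900 c2460 c11685 c5996 c5186 k0))))))) (by decide +kernel)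
def c13905 : PP 9 3 T 0x48000020000000000000000200000008000000000400040000000000000040000000002000000110000000000000000080005000000080 := rS 0x22ae26fac1c27f238a47a113da44f28f (k8 c5526 c5524 c5374 c5372 c5558 c5560 c5339 c5562 (k4 c676 c1483 c12176 c2331 (k2 c3610 c1295 (k1 c1778 k0)))) (by decide +kernel)
def c13906 : PP 9 3 T 0x58000200040000000000000000040008000000000000000000000000000000000000002000002000000000000000000080000000000088 := rS 0xdf3f8fdc2e3147cab22513c0cfa6f09c4d027b3ca3f38c70f9ac33e1 (k8 c5458 c6205 c9672 c1111 c13650 c5211 c5526 c5524 (k8 c5372 c5380 c5382 c5564 c5565 c5566 c2629 c267 (k8 c1113 c13905 c5231 c5651 c5549 c5591 c404 c677 (k2 c2332 c5910 k0)))) (by decide +kernel)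
def c13907 : PP 9 3 T 0x1000000000000000000040008000100000000000040000000000000000000000000000000000010000000000000000000000090 := rS 0x5889cdc714078cfb1d3f8f6b011128a74284688d938226387c04162f6dd9a336ab3d8bde3b9d5e2350d8c432934f98d92614aec326694b874ce8354eca226b43834b60f3d9e739b5 (k8 c13872 c5211 c5524 c5372 c9739 c5474 c9673 c8435 (k8 c9672 c9727 c13812 c5489 c8722 c5487 c5486 c5404 (k8 c5403 c13455 c5209 c5446 c5445 c5396 c5395 c5448 (k8 c5444 c6205 c5476 c5475 c5324 c9695 c1452 c672 (k8 c13904 c5451 c5453 c5454 c5492 c5495 c7702 c10013 (k8 c3577 c1451 c1111 c13650 c6197 c1258 c1259 c1481 (k8 c3607 c13906 c8199 c13900 c9667 c5212 c12427 c676 (k8 c5341 c1456 c13617 c5670 c751 c1747 c268 c1146 (k1 c12176 k0))))))))) (by decide +kernel)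
def c13908 : PP 9 3 T 0x1000400000000018000201000000000000000000040008000100000000000040000000000000000000000000000000000000400000000000000000000051 := rS 0x40606ff45c71a4d5205650ad73b0f47fe36fb358e32047804a270b95c3e02788d436310ca4d9295d864d2efd0ea0d531135a1c1a5b079ed227947e711b13099bcfa89 (k8 c5567 c5566 c5565 c5564 c5382 c5381 c5211 c5526 (k8 c5524 c5374 c5372 c9739 c5474 c9673 c8435 c9672 (k8 c9727 c5489 c8722 c5486 c5405 c5404 c13455 c5209 (k8 c5446 c5396 c5444 c6205 c5476 c5475 c5324 c9695 (k8 c5642 c11726 c9757 c1107 c267 c1113 c13815 c5643 (k8 c3577 c5535 c5537 c5538 c12577 c275 c1512 c272 (k8 c2186 c788 c13882 c5655 c1656 c545 c544 c791 (k4 c2942 c2087 c2139 c3613 k0)))))))) (by decide +kernel)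
def c13909 : PP 9 3 T 0x52000200000000000000000000000000000000000000000000000140000040001000001001400045010000400000000000000000000000 := rS 0x45567f3653893ea131985327340c4cde7d (k8 c5566 c5565 c5382 c5380 c5379 c5447 c5445 c5395 (k8 c5398 c5448 c3610 c3599 c5549 c2458 c1292 c5685 k0)) (by decide +kernel)
def c13910 : PP 9 3 T 0x1000000000000000000200000000000000000000000000000000000000000000000540008000000054000001000000010150000004515540000200000000 := rS 0x407de8a58c50910339a34de89 (k8 c5567 c5565 c5381 c5379 c2633 c3590 c345 c1294 (k4 c3602 c5583 c3068 c13257 k0)) (by decide +kernel)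
def c13911 : PP 9 3 T 0x1020000000000008000000000040000000000000000000000000000001000000005000000100044000141500000000000000000000000000000000000000 := rS 0x82fd60ff15c369b383 (k8 c5407 c5621 c6451 c10571 c5627 c3444 c5632 c3390 (k1 c5695 k0)) (by decide +kernel)
def c13912 : PP 9 3 T 0x1000000000000208000000040000100000400000000008000100000001000000005000000000044000001000000000800010004000000000000000000040 := rS 0x1b5ad7c3ef1fa4f2e1d46a564a6d33b034e0ccf91 (k8 c5491 c5487 c5407 c5403 c5209 c5447 c5397 c5396 (k8 c5399 c5449 c5429 c13911 c5217 c5608 c5609 c5289 (k2 c5911 c793 (k1 c6463 k0)))) (by decide +kernel)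
def c13913 : PP 9 3 T 0x5004400000000018000200040000100000400000040008000100000001000000005000000000044004001000000000800010004000000000000000000040 := rS 0xf2fdfe3175cfd372a352a6d33b054a451f89ce44e4f8d (k8 c5569 c5383 c5382 c5211 c5527 c5526 c5374 c5489 (k8 c5209 c5447 c5397 c5399 c5449 c13912 c5232 c5632 (k4 c5635 c5938 c10602 c10571 (k1 c5206 k0)))) (by decide +kernel)
def c13914 : PP 9 3 T 0x45004400000000018000200040000100000400000040008000100000000000000005000000000044004001000000000800010004052000000000000000040 := rS 0x24650fb7c7eb08 (k4 c13913 c5556 c5514 c5208 (k2 c5661 c5594 (k1 c612 k0))) (by decide +kernel)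
def c13915 : PP 9 3 T 0x8000200000000100000800200000008000000400000000000000000000000000000000000000000000000000000000000000000000002 := rS 0x181bbe97722bd59542253 (k8 c5563 c5558 c5343 c5600 c5601 c7665 c9413 c669 (k2 c1062 c5667 k0)) (by decide +kernel)
def c13916 : PP 9 3 T 0x45004400000000018000200040000000000000200040008000100400000000000005000008000004004001000000000802010000002000000000200000042 := rS 0xf26b5d0da27422ce4dbe8dc10573ce71760a (k8 c665 c4761 c5211 c5524 c9758 c5643 c1510 c984 (k8 c2424 c13915 c13913 c13914 c2684 c2683 c3410 c6463 (k1 c5472 k0))) (by decide +kernel)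
def c13917 : PP 9 3 T 0x2000000000110010200000000000000400000040000000000000000000000410000000000000000000000000000000000000000000000000000000000 := rS 0xeb76f9631f78bde31725fa692f68fc4c4e4f8d63b9dcbe33da44f39c (k8 c5211 c5524 c5374 c5372 c12577 c5539 c5461 c5535 (k8 c5569 c5383 c5382 c5527 c5526 c5375 c5213 c5232 (k8 c5391 c5390 c6902 c5635 c10602 c5275 c5619 c3482 (k2 c3362 c5693 k0)))) (by decide +kernel)
def c13918 : PP 9 3 T 0x1000400000000058000201000000000000000200040008000100400000000040000000000000000004001000000000802010000000400400008200000042 := rS 0x7c74be526d99de517493e1307dcadb53ef45121631459fcdc4ce22b252a99d82b55e694bbf4cea9c89cd1a6f4488c7e131e9f5c2e766b7dcbe3f00e41a370415f267b489e738b52582a26552094ce211 (k8 c5558 c667 c5563 c5340 c5343 c5382 c665 c2588 (k8 c2610 c5211 c5524 c5374 c5372 c13455 c9758 c5643 (k8 c1510 c9673 c273 c5654 c12577 c5539 c5538 c5537 (k8 c5461 c5460 c5566 c1512 c5564 c275 c9731 c5567 (k8 c5565 c5381 c5379 c5491 c5489 c5487 c5405 c5404 (k8 c5403 c5406 c5490 c5209 c5447 c5446 c5396 c5326 (k8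 c13449 c13910 c5549 c2458 c5685 c1294 c3046 c3602 (k8 c5583 c3954 c13916 c5616 c3302 c2468 c3298 c2466 (k8 c4651 c1840 c13917 c5604 c6333 c9413 c7542 c5187 k0))))))))) (by decide +kernel)
def c13919 : PP 9 3 T 0x40000000000000008000200000000000000000000000000000000000000004000000000000000000108000001000000010010000000000000000000000000 := rS 0x407de8a56abcd26739a34de89 (k8 c5567 c5565 c5381 c5379 c5487 c5403 c5406 c5490 (k4 c3602 c5583 c3068 c6368 k0)) (by decide +kernel)
def c13920 : PP 9 3 T 0x12000000000010010200050004100000400000040008000100000000000000000000000000000000000000000080800150004010000000000200000840 := rS 0x1d1f4dc93df2c26db075a5177bee438fc5c974808 (k8 c5643 c5217 c5391 c5390 c5608 c5606 c5609 c3109 (k8 c2647 c5911 c277 c6463 c5656 c793 c3694 c5289 (k2 c5661 c13917 (k1 c5555 k0)))) (by decide +kernel)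
def c13921 : PP 9 3 T 0x1002000000000018010200040000000000000200040008000100400000000000000000000000004008001000000080802010000000000000000200000042 := rS 0x21187dc3bdd3e4b3936fa69c199f225773b95760a (k8 c665 c4761 c5539 c5461 c9758 c5491 c5487 c5407 (k8 c5403 c984 c2424 c13915 c13920 c5472 c5473 c13917 (k2 c5429 c13912 (k1 c2241 k0)))) (by decide +kernel)
def c13922 : PP 9 3 T 0x2000000000110010200000000000000400000040000000000000000000000010000000000000000000000000080000000000000000000000000000000 := rS 0x495dda4 (k4 c5213 c13917 c5391 c3109 k0) (by decide +kernel)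
def c13923 : PP 9 3 T 0x1002400000000018010201000000000000000200040008000100400000000040000000000000000008001000000080802010000000000000000200000042 := rS 0x7c74be526d98a2e927c260fb95b26760a9c888c6e082be4cf39c051542253 (k8 c5563 c5558 c5343 c665 c5211 c5524 c13455 c9758 (k8 c5643 c1510 c9731 c5491 c5489 c5209 c5447 c13921 (k8 c5616 c3302 c2468 c3298 c2466 c4651 c13922 c5604 (k4 c6333 c9413 c7542 c5187 k0)))) (by decide +kernel)
def c13924 : PP 9 3 T 0x20000040000000000000000000000000100000000000000000000000000000000000000000000000000000000000000000000000200 := rS 0xb330b4be5 (k4 c5469 c5388 c1801 c5217 (k1 c5348 k0)) (by decide +kernel)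
def c13925 : PP 9 3 T 0x1000400000000018000201000000000000000200040008000100400000000040000000000000000000000000000000000010400000000000001000000042 := rS 0x7e551c76e2608a3c52766b8fc26e16ff8d22b5361ae27a9238818fe01ba7476320ea4de2951a8652ec90d8c472170415cf27bce264c60d4dec32711 (k8 c9727 c13455 c5209 c5397 c9673 c5395 c5447 c5211 (k8 c5372 c5524 c9758 c5643 c1506 c273 c5476 c5475 (k8 c5396 c5404 c6205 c5324 c5446 c9695 c5444 c5486 (k8 c3577 c492 c13264 c1510 c5654 c5535 c10500 c2423 (k8 c13924 c5382 c9672 c10556 c2610 c5374 c12577 c5538 (k8 c5460 c5564 c275 c2186 c272 c9693 c5526 c5558 (k4 c13882 c13756 c667 c13918 (k2 c13909 c13923 k0)))))))) (by decide +kernel)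
def c13926 : PP 9 3 T 0x1000400000000018000201000000000000000000040008000100400000000040000000000000000000000000000000000010400000000000001000000042 := rS 0xf96d88159238a47e131e9f7c69110264960a36276229b319ecd6c7f00ec64170ea4de2951a8652ec9d806c6239068dc1057c99e73913 (k8 c5382 c5211 c5524 c13455 c9758 c5643 c1510 c9673 (k8 c273 c5476 c5475 c5209 c5396 c5404 c6205 c5324 (k8 c5446 c9695 c5444 c5486 c1506 c3577 c492 c5654 (k8 c5535 c9672 c5372 c5395 c5397 c9727 c13264 c10556 (k8 c665 c2588 c5447 c10500 c5374 c12577 c5566 c1512 (k8 c5564 c275 c9693 c2423 c13925 c5655 c13854 c10205 (k1 c7694 k0))))))) (by decide +kernel)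
def c13927 : PP 9 3 T 0x400000000000000201000000000000000000040008000100000000000040000000000000000000000000000000000010400000000000000000000010 := rS 0x1c448761905c7a082b801e2350d8c4331f49b252bb0c9ab55e694b874cfb2f6ed40e73469bcfa89 (k8 c5567 c5566 c5565 c5381 c5379 c13907 c13872 c13834 (k8 c13812 c5487 c5486 c5404 c5403 c5406 c5490 c13455 (k8 c5209 c5446 c5396 c5444 c9713 c6205 c5476 c5475 (k8 c5324 c9695 c13908 c9758 c5643 c1512 c1506 c3577 (k4 c272 c13926 c2755 c13827 k0))))) (by decide +kernel)
def c13928 : PP 9 3 T 0x1000400000000018000201000000000000000000040008000100000000000040000000000000000000000000000000000000000000000000000000000251 := rS 0x10181bfd171c69354815942b5cede36fb358e32f00944e170f809e2350d8c4329364a5761934bbf43a8354c44d6870696c1e7b489e51f9c46c4cde891f84c7a7d (k8 c5566 c1512 c5564 c275 c5567 c5565 c5382 c5381 (k8 c5211 c5526 c5524 c5374 c5372 c9739 c5474 c9673 (k8 c8435 c9672 c9727 c5489 c8722 c5486 c5405 c5404 (k8 c13455 c5209 c5446 c5396 c5444 c6205 c5476 c5475 (k8 c5324 c9695 c5642 c11726 c1507 c267 c1113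 c13815 (k8 c3577 c5535 c5537 c5538 c12577 c272 c2186 c788 (k8 c13882 c5655 c1656 c545 c544 c791 c2942 c2087 (k2 c2139 c3613 k0)))))))) (by decide +kernel)
def c13929 : PP 9 3 T 0x1000400000000000000000000000000000000200000008000000000500041040000000140000000000000001400000045400000000005004000080000002 := rS 0x59ad4e315239042225 (k8 c5559 c5558 c5340 c5562 c1086 c667 c13848 c2321 (k1 c3604 k0)) (by decide +kernel)
def c13930 : PP 9 3 T 0x1000400000000018000001000000000000000000040008000100000400000040000000000050000000000000014010044010000000005800000000800002 := rS 0x1e320c744df2acedda6d53a1de0684559b43c331086d27b0c99a5fa1d41aa6226b48a3f3823 (k8 c9731 c5211 c5526 c5374 c9672 c9727 c5489 c8722 (k8 c5486 c5405 c5403 c13455 c5209 c5444 c5475 c340 (k8 c492 c1677 c666 c7110 c10497 c2629 c788 c5668 (k8 c1532 c1969 c7658 c13929 c5231 c12200 c351 c349 (k2 c13617 c5655 k0))))) (by decide +kernel)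
def c13931 : PP 9 3 T 0x400000000000000001000000000000000000000008000000000000000040000000011010000000000000000001400000000000000500000000000200 := rS 0xce3a0cc6af318bd72637 (k8 c1510 c13455 c5477 c5476 c5325 c5324 c272 c5668 (k2 c3587 c1530 k0)) (by decide +kernel)
def c13932 : PP 9 3 T 0x8000020000000000000000000040000000000000000000000000000000000000000000000001000000000000000000000000104000002 := rS 0x15623 (k2 c9731 c7110 (k1 c11603 k0)) (by decide +kernel)
def c13933 : PP 9 3 T 0x88000000000000000000000000000008000000100000000000000000000000000000000000000000000000000000000000010000000000 := rS 0xb1 (k2 c5421 c8393 k0) (by decide +kernel)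
def c13934 : PP 9 3 T 0x1000400000000018000201000000000000000200040008000100400000000040000000000000000004000000005000800010000000005540000000000042 := rS 0xb3f989dc46c6711592954cec326ad579a52efd33a0d531135a453ae166b7fc0252091ce2115a883381b25ede3a29 (k8 c9693 c5341 c13933 c5342 c5475 c5211 c13932 c2608 (k8 c5558 c667 c5562 c5340 c5559 c5654 c5538 c5537 (k8 c5460 c5458 c5374 c9672 c9727 c5489 c8722 c5487 (k8 c5405 c5404 c5403 c5406 c5490 c13455 c5209 c5447 (k8 c5446 c5396 c5326 c13449 c3601 c13910 c13918 c5549 (k2 c2458 c13821 k0)))))) (by decide +kernel)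
def c13935 : PP 9 3 T 0x10000000000000000000041000000000400000000000000140000000000000000000000400100000000000000000054000000000000000001000800250 := rS 0xc2afeeea61530983ad90e3f4857 (k8 c81 c5217 c5608 c5606 c5911 c277 c5656 c1795 (k4 c1794 c3192 c1105 c1350 (k1 c9325 k0))) (by decide +kernel)
def c13936 : PP 9 3 T 0x1002000000000018000200040000000000400000040008000100002000000000000000000000044008000000000000810010800000000000001000800050 := rS 0x8461f717d77ba54fe45e9ce4e6fc695f520873b95969d (k8 c5458 c1292 c5539 c5461 c8302 c13924 c81 c5569 (k8 c5565 c5383 c5379 c3055 c13935 c5470 c5472 c5473 (k4 c1364 c13917 c5429 c13912 (k1 c2241 k0)))) (by decide +kernel)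
def c13937 : PP 9 3 T 0x1002000000000018000200040000000000400000040008000100002000000000000000000000040008000000000080810010800000000000001000800050 := rS 0x3a772b64cec35208 (k8 c8302 c13924 c5209 c5447 c13936 c5616 c2466 c13922 k0) (by decide +kernel)
def c13938 : PP 9 3 T 0x8000200000000000000800200000008000000400000000000005000000000000000000000000001000004800000000500000200000202 := rS 0x74b049f8ebcae6f84dd69458637 (k8 c1510 c5348 c5350 c5602 c5604 c13915 c4093 c814 (k4 c1365 c347 c278 c1559 (k1 c3591 k0))) (by decide +kernel)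
def c13939 : PP 9 3 T 0x1002000000000018000200040000000000400000040008000100000000000000000000000040000008000000000000810010800002000000001200800050 := rS 0x1dee274ee4feb65dac228fff991533b03da44f28fce206267dd4821c2df (k8 c5538 c5460 c8302 c13924 c5566 c5382 c5380 c5211 (k8 c5526 c5524 c5374 c5372 c5209 c5447 c5326 c5588 (k8 c3006 c345 c13919 c4133 c13936 c13937 c5616 c2466 (k2 c3610 c1840 (k1 c13917 k0))))) (by decide +kernel)
def c13940 : PP 9 3 T 0x400000000000000201000000000000000200040008000100000000000040000000000040000000000000000000800010000000000400000000000010 := rS 0x77ba772b68a2cfe6bb710289367556dd6a712392e3a41088963e634cec10e5b07a451f131f84c7a7dd48a42ce173b7dcbe01c8346e791021400082f64c0fedce6d7641b (k8 c5475 c13812 c13872 c5211 c13834 c13907 c13455 c13927 (k8 c8302 c13928 c788 c13932 c5524 c1510 c9673 c273 (k8 c5654 c5539 c5538 c5461 c5460 c1054 c9693 c13924 (k8 c5566 c1512 c5564 c275 c5382 c5526 c5374 c9739 (k8 c5474 c8435 c5209 c5447 c5395 c9713 c5559 c5558 (k8 c5340 c5341 c5342 c5562 c667 c2608 c13933 c13934 (k8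 c13938 c13939 c12876 c3590 c4761 c5549 c2458 c5685 (k4 c13936 c5616 c2466 c1840 (k1 c13917 k0))))))))) (by decide +kernel)
def c13941 : PP 9 3 T 0x400000000000000201000000000000000000040008000100000000000040000000000050000000000000000000000010000000000000000000000010 := rS 0x83593b78d9ad1f00ed27b056abcd2674396c1e7b489cd1b1337a24720d1b9e7383f098f4fa16000232607dafb7645e (k8 c13927 c13812 c13834 c13872 c13907 c13455 c8302 c13928 (k8 c1054 c5566 c1512 c5564 c275 c5211 c5524 c1510 (k8 c9673 c273 c5567 c5565 c5382 c5381 c5379 c5374 (k8 c5372 c9739 c5474 c8435 c5487 c5403 c5406 c5490 (k8 c5209 c5444 c13930 c5654 c5459 c5537 c12577 c13931 (k2 c13940 c13844 (k1 c5655 k0))))))) (by decide +kernel)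
def c13942 : PP 9 3 T 0x400000000000000201000000000000000000040008000100000000000040000000000010000000000000000000000010000000000000000000000010 := rS 0x1e320c744df2acedda6d53a1de0684368786621678ebc2c60b0007a3f1b8e4105e449f4de13899cc6a1b49ec326fd0eecbdb11069ad227947e736a07 (k8 c13907 c13872 c5211 c5526 c5524 c5374 c9672 c9673 (k8 c9727 c13834 c13812 c5486 c5405 c13455 c5209 c5444 (k8 c5475 c5324 c5379 c5382 c5564 c5565 c5566 c5567 (k8 c13927 c8302 c273 c1510 c275 c1512 c13928 c1054 (k8 c13941 c5535 c5654 c1646 c340 c492 c1677 c666 (k8 c13932 c2629 c789 c5668 c1532 c1969 c7658 c13929 (k4 c5231 c12200 c351 c349 (k2 c13617 c5655 k0)))))))) (by decide +kernel)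
def c13943 : PP 9 3 T 0x40000000000a000101000000000000000200000008000000000000000000000000000040000000000001404400000000004000008000000800400200 := rS 0x2ca00ff81c4d1226459f8fbe356895ae853b2363a581907526f14a8d433934bb243631 (k8 c5476 c5475 c5396 c5404 c13455 c6205 c5324 c5446 (k8 c9695 c5444 c5486 c3577 c271 c5341 c2169 c272 (k8 c788 c4531 c13900 c5490 c5576 c2824 c276 c8305 (k8 c13882 c2058 c809 c10681 c11835 c3613 c486 c2900 k0)))) (by decide +kernel)
def c13944 : PP 9 3 T 0x40000000000a000000000000000000000200000008000000000000000001000000400000000000000000000080000000000000004000001000400008 := rS 0x9827e3 (k4 c5577 c2917 c13882 c267 k0) (by decide +kernel)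
def c13945 : PP 9 3 T 0x2000000000000000120040000000000000000000000000000000400000000000000000000000000000000000150000000000000000000000000000000 := rS 0x1e2711ed227947b1dc2df (k8 c5538 c5460 c5535 c5526 c5524 c5374 c5372 c3610 (k2 c5670 c5466 k0)) (by decide +kernel)
def c13946 : PP 9 3 T 0x2000000000000000000000000000000000000000000000000000000000000000000000000000020000000000000005000000000400009 := rS 0x98e2cb49a7d4273 (k8 c9719 c5398 c5448 c5444 c1548 c2870 c12650 c268 k0) (by decide +kernel)
def c13947 : PP 9 3 T 0x2400000000008000121000000000000000200000008000100000000000000000000000000000000000000004400000000000000000000000800000049 := rS 0x32c4fe2389f4fe3f409047a114f985228f129cd6a2963b5cb0761905c3a9378a546a194bb27601b18820af93 (k8 c13455 c9757 c5643 c5476 c5475 c5209 c5396 c5404 (k8 c6205 c5324 c5446 c9695 c5444 c5486 c1108 c3577 (k8 c272 c271 c4531 c5535 c8199 c1339 c9719 c13900 (k8 c5526 c5374 c5445 c5448 c5558 c5560 c5340 c12653 (k8 c13943 c13944 c13946 c13885 c5670 c268 c8797 c13767 k0))))) (by decide +kernel)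
def c13948 : PP 9 3 T 0x1000400000000018000101000000000000000000040008000100000000000040000000000000000000000000000000000000000000000000000000000051 := rS 0x498a0fdc62765f8b6d591b92c11e01105cae1f013c46a1b18a7d33b0c9a5dfa1d41aa6226b43834b60f3ce705225 (k8 c13900 c8199 c5211 c5524 c9739 c5474 c9673 c8435 (k8 c9672 c9727 c5489 c8722 c5486 c5405 c5404 c13455 (k8 c5209 c5447 c5448 c5476 c5475 c5324 c9695 c5642 (k8 c11726 c9757 c1108 c6197 c13815 c5643 c560 c1510 (k8 c13947 c5212 c5216 c5420 c5570 c5466 c5576 c6706 (k2 c8148 c7822 k0)))))) (by decide +kernel)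
def c13949 : PP 9 3 T 0x400000000008000101000000000000000200000008000000000000000000000000000010000000000000000000400004000000010000000000000202 := rS 0x1fd16728e8f4d225 (k8 c13900 c5403 c5560 c5341 c13898 c855 c806 c13864 k0) (by decide +kernel)
def c13950 : PP 9 3 T 0x400000000018000101000000000000000000040008000100000000000040000000000010000000000000000000000000000000000800000000000212 := rS 0x8d08b5e38b539acce3e2db564e87720a102c1e10a719e350d865266364ec3266bce0a44a23 (k8 c9731 c13900 c8199 c5211 c9672 c13455 c5209 c5396 (k8 c5395 c5444 c6205 c5475 c5324 c1646 c6724 c340 (k8 c5650 c5855 c13932 c1737 c789 c5668 c13949 c5212 (k8 c5216 c5571 c5574 c5419 c5422 c13933 c5465 c13353 (k2 c2173 c13277 k0))))) (by decide +kernel)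
def c13951 : PP 9 3 T 0x8000100040000000000000200000008000100000100000000000140000000000000000000000001000000000000000500000200000042 := rS 0x1f1c5e3248fe2a7f409c896411e98f60370415c8e25 (k8 c13900 c2423 c9758 c5643 c1510 c5209 c5395 c5560 (k8 c5340 c5342 c13898 c12653 c806 c1290 c276 c345 (k4 c11685 c3590 c5670 c1551 k0))) (by decide +kernel)
def c13952 : PP 9 3 T 0x400000000000000001000000000000000000040008000100000000000040000000000010000000000000000000000010000000000000000000000010 := rS 0x10461291689f7926287f8e09fc5b6ac8810a766fb35c2d163f8076371c820ae23000a7425b0da676193d97b6220d3ce736a07 (k8 c13907 c13872 c5211 c5524 c9673 c9727 c13834 c13812 (k8 c13455 c5209 c5447 c5475 c5474 c13942 c8199 c13948 (k8 c9731 c9758 c5643 c273 c1510 c13950 c5654 c5535 (k8 c5459 c5460 c5537 c5538 c13931 c788 c13932 c13951 (k8 c5212 c5216 c5570 c13933 c5577 c6706 c344 c5504 (k4 c12630 c790 c6578 c5673 (k2 c12638 c701 k0))))))) (by decide +kernel)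
def c13953 : PP 9 3 T 0x40000000000000000000000000100000000000000000000000020000000000000000000000000100000000010000000000040 := rS 0x1257 (k2 c836 c1627 (k1 c5643 k0)) (by decide +kernel)
def c13954 : PP 9 3 T 0x5000000000000008000220000000000000000000040008000100100000000041000000801100000000000004000000010400000004400800001001000002 := rS 0x5a3f8930359c56028436879c62121915e61b7abf62291479ce266f (k8 c5565 c5382 c5379 c5526 c5374 c9727 c5405 c5477 (k8 c5475 c5325 c5326 c5478 c340 c8999 c11951 c666 (k8 c13932 c2146 c1086 c2321 c2629 c13257 c3593 c3604 (k1 c2572 k0)))) (by decide +kernel)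
def c13955 : PP 9 3 T 0x40008000100000000000040000000005000000000000000000000000000000000000544000000000000 := rS 0x1a1e01abcc62f5 (k4 c5477 c5476 c5325 c5324 (k2 c5654 c3587 (k1 c5459 k0))) (by decide +kernel)
def c13956 : PP 9 3 T 0x100000000000004a000220000000000000000200040008000100000000000041000000141000000000000000000000000400000000005804010001000002 := rS 0x358e3ef2392e3a410889486451a8c526c9 (k8 c5396 c5444 c5476 c5324 c5326 c5478 c5559 c5558 (k8 c5340 c5341 c5342 c5562 c13701 c667 c3588 c13954 k0)) (by decide +kernel)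
def c13957 : PP 9 3 T 0x100000000000005a000200000000000000000000040008000100000000000041000000141000000000000000000000000000000000000804010001000202 := rS 0xf19063a26f95647a3f3e9bc26730e9af381e649b44293 (k8 c5444 c340 c666 c5396 c11951 c5211 c9672 c5486 (k8 c5379 c5564 c5565 c5566 c275 c1512 c13956 c5231 (k4 c12200 c351 c349 c13617 (k1 c5655 k0)))) (by decide +kernel)
def c13958 : PP 9 3 T 0x1000000000000000000040008000100000000000040000000000000000000000000000000000010000000000000000000000010 := rS 0x3e51270a31bed61fc0fc67c3fa2e3a721e906b01112e8508ab71887c23a409786e390415c46001480c2db769b34ee336ab3fbcc503bc4865d1a86c621949a7cc6c94aec326694b877da8354eca226b43834b60f3ca3f39b5 (k8 c13872 c5211 c5526 c5524 c9739 c5474 c9673 c8435 (k8 c9672 c9727 c13812 c5489 c8722 c13834 c5486 c5404 (k8 c5403 c13455 c5209 c5446 c5396 c5395 c5448 c5444 (k8 c6205 c5476 c5475 c5324 c5321 c5478 c9695 c13907 (k8 c13953 c13952 c5453 c5454 c5492 c5493 c5495 c5496 (k8 c7702 c3577 c1108 c9694 c5642 c9731 c9758 c5643 (k8 c273 c1510 c1506 c4282 c13955 c5456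 c340 c8999 (k8 c7110 c13932 c13957 c13900 c9667 c5212 c13854 c12427 (k8 c11969 c5341 c855 c806 c1315 c13617 c2630 c276 (k4 c8423 c2829 c1550 c1721 (k2 c11824 c5691 (k1 c5547 k0)))))))))))) (by decide +kernel)
def c13959 : PP 9 3 T 0x40000000000a000000000000000000000200000008000100000000000001000000400000000000000000000000000000000000000000005001400000 := rS 0x7885293 (k4 c5444 c5339 c13882 c13634 k0) (by decide +kernel)
def c13960 : PP 9 3 T 0x1000400000000018000200040000000000000000040008000100000000000001000000001060000000000000000000000000400000000100000000000098 := rS 0xf938b6e7f1fb85bf59670d84e17f08659279479ce26133e8ecf79c6ba044bb0 (k8 c5209 c13678 c5380 c1765 c5211 c5372 c1674 c5566 (k8 c5564 c5382 c5379 c5526 c5524 c5396 c6205 c13888 (k8 c1107 c267 c5654 c10805 c13959 c13876 c13896 c13883 (k4 c677 c10494 c5910 c5231 (k1 c5549 k0))))) (by decide +kernel)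
def c13961 : PP 9 3 T 0x400000000000000201000000000000000000040008000100000000000000000000000000000000000000000000000010000000000000000000000090 := rS 0x461f0000c725f66b458ec41d9dcea577896c63b0c9fb6226b3d9e739b510bd83bb2 (k8 c13812 c5486 c13958 c342 c13872 c5211 c5524 c5372 (k8 c9672 c9727 c13834 c13455 c5209 c5476 c5474 c9695 (k8 c80 c1452 c672 c1674 c13837 c13572 c10484 c2072 (k4 c1630 c398 c13960 c5642 (k2 c13795 c9731 (k1 c5650 k0)))))) (by decide +kernel)
def c13962 : PP 9 3 T 0x9000000000000000220040000000000000000000000000000000000000000000500000040000000000000000000000000000000000000000000000000 := rS 0x6f9fcf67947a06267d (k8 c5566 c5382 c5380 c5526 c5524 c5372 c5577 c5580 (k1 c5910 k0)) (by decide +kernel)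
def c13963 : PP 9 3 T 0x200000000000000000100040008000100000000000000000000002000000000000001005400800000000004021000000000000000 := rS 0x90ff45b546af5 (k4 c5477 c5324 c1656 c791 (k2 c2507 c13508 (k1 c6232 k0))) (by decide +kernel)
def c13964 : PP 9 3 T 0x200000000000000000100040008000100000000001000000000000100000001000005004400800550000000005808005001400000 := rS 0x92ff458a1be7ff11056a6c55a1496cc678d62313 (k8 c5382 c9727 c5324 c1646 c493 c3776 c789 c2075 (k8 c3601 c2610 c13963 c5655 c5577 c5580 c10342 c790 (k2 c2506 c510 (k1 c13510 k0)))) (by decide +kernel)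
def c13965 : PP 9 3 T 0x400000000000000201000000000000000000040008000100000000000000000000000000000000000000000000000010000000000000000000000011 := rS 0x45494707fac516d26a9248085f1b7d8fe01dd65ae761e8fc6e391902044271285cae1f013c46a1b1886526c94aec326ad579a52efd0e99fda8354eca226b43834b60f3da44f39cda9cd1a13379f51207 (k8 c13961 c5567 c5566 c5565 c5564 c5381 c5379 c13872 (k8 c5211 c5524 c5374 c5372 c9739 c5474 c9673 c8435 (k8 c9672 c9727 c13812 c5489 c8722 c13834 c5487 c5486 (k8 c5405 c5404 c5403 c5406 c5490 c13455 c5209 c5446 (k8 c5396 c5444 c6205 c5476 c5475 c5324 c9695 c5642 (k8 c11726 c9757 c1108 c1113 c267 c6197 c5643 c3577 (k8 c395 c1510 c275 c1512 c272 c2186 c13959 c13964 (k8 c5654 c5535 c5538 c12577 c788 c5655 c6232 c1656 (k8 c545 c791 c2085 c2942 c3602 c13510 c3048 c561 k0))))))))) (by decide +kernel)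
def c13966 : PP 9 3 T 0x1000400000000000000000000000000000000200000008000000000500041000000000140000000000000001400000045400000000005004000080000002 := rS 0xb35a9c62a47259042225 (k8 c5559 c5558 c5340 c5342 c5562 c1086 c667 c13859 (k2 c2321 c3604 k0)) (by decide +kernel)
def c13967 : PP 9 3 T 0x400000000000000201000000000000000000040008000100000000000000000000000000000000000000000000000010000000000000000000000010 := rS 0xf19063a26f95676ed36a9d066770b0e99fe11e8fd383981b3410ab0f210da57118018a07449f4de13899ccba350da4d37b0c9a5dfaa9f6c44d6870696c1e913ca3f39b510bd83bb2 (k8 c13812 c5486 c13958 c342 c13872 c5211 c5526 c5524 (k8 c5374 c9739 c5474 c9673 c8435 c9672 c9727 c13834 (k8 c5489 c5405 c5404 c13455 c5209 c5397 c5444 c5475 (k8 c5324 c5321 c5379 c5382 c5564 c5565 c5566 c5567 (k8 c13961 c13953 c13965 c9731 c9758 c666 c13932 c8123 (k8 c7110 c5643 c2503 c2629 c2472 c13871 c275 c1512 (k8 c5458 c1651 c1083 c5855 c10798 c493 c5668 c1532 (k8 c1969 c7658 c13966 c5231 c12200 c351 c349 c13617 (k1 c5655 k0))))))))) (by decide +kernel)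
def c13968 : PP 9 3 T 0x1000400000000018000001000000000000000200040008000100000000000000000000001040000000000000000000000000400000000100011000000091 := rS 0x20626705938dbee1133386cd7f08c844170f808e6f11a86c621907a4d92614aa6761934bbf43a913ca3e3a471d9ef38c43f844fa3d (k8 c5560 c1456 c5558 c676 c13837 c5211 c5372 c1674 (k8 c5562 c5341 c5526 c5524 c5374 c5486 c5405 c5404 (k8 c13455 c5209 c5447 c5446 c5445 c5396 c5444 c9739 (k8 c6205 c5476 c5475 c5324 c9695 c9719 c5642 c11726 (k8 c1107 c6197 c3577 c13891 c2185 c5654 c10805 c13959 (k8 c1483 c2331 c11901 c486 c268 c2457 c751 c3610 k0)))))) (by decide +kernel)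
def c13969 : PP 9 3 T 0x400000000000000001000000000000000200040008000100000000000000000000000000000000000000000000000010000000000000000000000090 := rS 0x7c4603000e4becd68b1d883b3b9d4ae5b18ec3261df6c44d67b3ce736af61489743b2 (k8 c13812 c13967 c13900 c8199 c13958 c13872 c5211 c5524 (k8 c5372 c9672 c9727 c13834 c5486 c13455 c5209 c5476 (k8 c5474 c80 c1452 c672 c1674 c13837 c13572 c10484 (k8 c2072 c1630 c398 c13968 c28 c9731 c13795 c8123 k0)))) (by decide +kernel)
def c13970 : PP 9 3 T 0x400000000000000001000000000000000200040008000100000000000000000000000000000000000000000000000010000000000000000000000011 := rS 0x3dc8989c05fe85091c16448678991a3a6b9d8b037f08e464081105cae1f011cde2451a86c621949b252bb0c9ab52efd0efb506a9889ad0e0d2d83d227947e736a25d0eca3a07 (k8 c13969 c5341 c13812 c13967 c13900 c13872 c5211 c5526 (k8 c5524 c5374 c9739 c5474 c9673 c8435 c9672 c9727 (k8 c5489 c8722 c13834 c5486 c5405 c5404 c5490 c13455 (k8 c5209 c5446 c5396 c5444 c6205 c5476 c5475 c5324 (k8 c5326 c9695 c9719 c5642 c11726 c9757 c1108 c6197 (k8 c5643 c3577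 c395 c13947 c1510 c271 c272 c2185 (k8 c5654 c2169 c13959 c1646 c485 c486 c268 c267 (k4 c789 c3006 c2900 c2457 (k2 c2873 c8818 (k1 c8783 k0)))))))))) (by decide +kernel)
def c13971 : PP 9 3 T 0x400000000000000001000000000000000200040008000100000000000000000000000000000000000000000000000010000000000000000000000010 := rS 0xcf3b2707208558790857118018a07209746a1b31a6f61934bbf553ed43834b60f3ce736a217b07765a1 (k8 c13967 c13812 c5486 c13958 c342 c13872 c5211 c5524 (k8 c9739 c5474 c9673 c8435 c13834 c5489 c5405 c5404 (k8 c13455 c5209 c5397 c5395 c5475 c5324 c5321 c5340 (k8 c13969 c13953 c13970 c9731 c9758 c13932 c8123 c7110 (k4 c5643 c2472 c13871 c13949 (k2 c1651 c789 k0)))))) (by decide +kernel)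
def c13972 : PP 9 3 T 0x4000000000000002000101000000000000000000000000000000000000000000000000000420000000000000010140050010000000000000000000000000 := rS 0x1146e3ea34be63 (k4 c5395 c1630 c947 c1634 (k2 c13195 c5673 (k1 c2979 k0))) (by decide +kernel)
def c13973 : PP 9 3 T 0x4000400000000000000101000000000000000000000008000100000000000000000000000400000000000040010040000000000000000000004010000051 := rS 0x76450c810172b809e2350d8c4329364a576193 (k8 c13455 c5209 c5446 c5396 c5444 c6205 c5476 c5475 (k8 c5324 c9695 c5642 c9757 c1108 c5643 c3577 c13791 (k2 c272 c790 k0))) (by decide +kernel)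
def c13974 : PP 9 3 T 0x400000000000000001000000000000000000040008000100000000000000000000000000000000000000000000000010000000000000000000000010 := rS 0x904781fcc22cdf0878de843688c000762a27ded33fb5d031c5a9cc4ecb599c7c5b6ac89453a10da5533b0c9ab52fed35a3f39b510bd83bb2 (k8 c13812 c5486 c13958 c342 c13872 c5211 c5526 c9672 (k8 c13834 c5404 c5490 c13455 c5209 c5447 c5446 c5475 (k8 c13967 c8199 c13900 c13971 c5212 c5216 c5571 c5574 (k8 c5420 c5570 c5419 c5422 c13933 c5463 c5465 c5577 (k8 c5579 c5892 c12630 c13972 c13837 c13973 c9731 c666 (k8 c13932 c1060 c8123 c7833 c2503 c13353 c12200 c7311 (k2 c13598 c6300 (k1 c514 k0)))))))) (by decide +kernel)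
def c13975 : PP 9 3 T 0x5a000200040000000000000000040008000000000000000000000000005010000000000000004000400010000000000100000000800080 := rS 0x215a2364e0883e022f31cea3131a54d29733a0d5311359ecf39c (k8 c5211 c5524 c5372 c9672 c9727 c5489 c8722 c5487 (k8 c5404 c5403 c5446 c5395 c5476 c1452 c675 c10013 (k8 c1451 c1111 c6197 c1258 c1259 c1481 c13906 c3607 k0))) (by decide +kernel)
def c13976 : PP 9 3 T 0x5a000000000000000000000200040008000100000400040000000000145000000004000000000000045000000000005004010080800002 := rS 0x3bf0a77e6e15a2cdade338fbe2a478e9042225219146a3164a6d2a994bbf5531135a451f9c (k8 c5211 c5526 c5374 c9672 c9727 c5489 c5405 c5404 (k8 c5447 c5446 c5397 c5396 c5476 c5324 c5326 c5478 (k8 c5559 c5558 c5340 c5341 c5562 c1086 c13701 c667 (k8 c13617 c3588 c2321 c3604 c1721 c5548 c1343 c11841 (k2 c1676 c13446 k0))))) (by decide +kernel)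
def c13977 : PP 9 3 T 0x58000200040000000000000000040008000100000000000080000000145010000000000000000000400010000000000004000000800010 := rS 0xf19063a26f95647a3f81821561e421b4ae23000a406073e9bc27133986d27b0ce21c1a5b078843a39 (k8 c397 c5486 c342 c9739 c5474 c9673 c8435 c5211 (k8 c5209 c5444 c5475 c5379 c5382 c5564 c5565 c5566 (k8 c13975 c1108 c9694 c5642 c9731 c9758 c666 c13932 (k8 c8123 c7110 c5643 c2629 c275 c1512 c13976 c5231 (k4 c12200 c351 c349 c13617 (k1 c5655 k0)))))) (by decide +kernel)
def c13978 : PP 9 3 T 0x400000000004a000100040000000000000000000008000000000000000000000000000010000000000000000000400010000000000000000000000080 := rS 0x16227371c404802f1f4fe751898cc29534a5cce111e894529f (k8 c5448 c8199 c13900 c12427 c9667 c5487 c5404 c5403 (k8 c5446 c5445 c5395 c5476 c1452 c676 c1456 c10013 (k4 c5670 c1451 c751 c1747 (k2 c268 c1146 (k1 c12176 k0))))) (by decide +kernel)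
def c13979 : PP 9 3 T 0x1000000000000000000040008000100000000000000000000000000000000000000000000000010000000000000000000000010 := rS 0x5afcdfd1246358f87f042ac3c724215c460001a040fe38e91c7a41ac0444a29d085b6ed3669dc66d567b17bc217b23d0e83ce1ac1bb588bc46a5b0d8c4320f49a7cc6c94aec326977e87553b2 (k8 c13812 c5489 c5486 c5405 c5404 c13455 c5209 c5446 (k8 c5396 c5395 c5448 c5444 c9739 c6205 c5476 c5475 (k8 c5474 c5324 c9695 c9727 c13872 c9673 c9672 c5211 (k8 c8722 c8435 c5526 c13958 c342 c13974 c5451 c5453 (k8 c5454 c5492 c5493 c5495 c5496 c7702 c3577 c13977 (k8 c8199 c13900 c9667 c5212 c13854 c12427 c13598 c5341 (k8 c13617 c13978 c12653 c1108 c5642 c9731 c9758 c13932 (k8 c13898 c8123 c7110 c5643 c806 c5670 c8453 c1550 (k4 c11824 c950 c5547 c2572 (k1 c11939 k0)))))))))) (by decide +kernel)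
def c13980 : PP 9 3 T 0x1000400000000010000011000000000000000000000008000000000100000000000000000020000001000504000000000100000000000440000440400010 := rS 0x411ad0a20438e53a7bf03cc3393 (k8 c13455 c6205 c5325 c5185 c5457 c5458 c5534 c898 (k4 c3578 c12002 c2372 c5672 (k1 c8722 k0))) (by decide +kernel)
def c13981 : PP 9 3 T 0x1000400000000018000201000000000000000000000008000100000000000040000000000040000000000000000000000000400000000440000440000091 := rS 0x672719aaa10f841b9c0b80a22f17986dea1949b2536954cec0d2977e87552c4689d46393 (k8 c13455 c5476 c1452 c10484 c13837 c5489 c5486 c5405 (k8 c5404 c5403 c5209 c5447 c5446 c5397 c5396 c5444 (k8 c6205 c5477 c5475 c5325 c9695 c9730 c5642 c1107 (k8 c13980 c5522 c13884 c265 c3581 c2075 c12148 c5688 (k1 c1650 k0))))) (by decide +kernel)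
def c13982 : PP 9 3 T 0x400000000000000011000000000000000000000008000100000000000000000000000000000000000000000000000010000000000000000000400090 := rS 0x156cf4121d0a7b8878032934da67619334aa7da3b0fbdf6a1d11bf764f1621e46f4a (k8 c13979 c5518 c1454 c13837 c9695 c13812 c5405 c5331 (k8 c5486 c12546 c5333 c5517 c5332 c13834 c5489 c5403 (k8 c13455 c5209 c5447 c5397 c5444 c6205 c5185 c13980 (k4 c5457 c845 c898 c5672 (k2 c11551 c1973 (k1 c7058 k0)))))) (by decide +kernel)
def c13983 : PP 9 3 T 0x1000000000000002000020000000000000000000000000000000000000001000000000000060000001000040000001001550000000000000000000000000 := rS 0x8555b319fe14e20d0e7b8898d925f (k8 c1630 c5396 c5395 c5371 c5372 c5373 c5525 c13168 (k4 c5458 c1650 c10805 c2075 (k2 c2502 c3601 k0))) (by decide +kernel)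
def c13984 : PP 9 3 T 0x400000000000000201000000000000000000000008000100000000000000000000000000000000000000000000000010000000000000000000000090 := rS 0x55b3d0487429ee21e0ce9b4d6002f9e58ec40cec326694b99d53ed1d87dee0b1bed43a23a53f764f1 (k8 c9695 c13812 c5405 c13979 c5331 c5486 c12546 c5518 (k8 c5516 c5333 c5517 c5332 c13834 c5489 c5487 c5404 (k8 c5403 c13455 c5209 c6205 c13837 c674 c1454 c1630 (k8 c13981 c1058 c665 c13983 c5185 c8158 c5457 c845 (k4 c898 c5672 c11551 c1973 (k1 c7058 k0)))))) (by decide +kernel)
def c13985 : PP 9 3 T 0x1000400000000000000011040000000000000000000000000000000000000000000000000000000000000000004400800000000000000000000000000000 := rS 0x31d09e0 (k4 c5185 c5672 c5535 c788 k0) (by decide +kernel)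
def c13986 : PP 9 3 T 0x1000400000000010000001000000000000000000000008000100000000001040000000000000000001000040000000000000000000000440000450000051 := rS 0x67f859a9c550e4420dce21d06d13b160d67b190202e5701445e2357986c62f50ca4d929b4aa676193 (k8 c13455 c5209 c5447 c5446 c5397 c5396 c5444 c6205 (k8 c5477 c5476 c5475 c5325 c5324 c9695 c9730 c5642 (k8 c9757 c1108 c5643 c3577 c1684 c13641 c271 c272 (k8 c2129 c8722 c2111 c13985 c5522 c265 c273 c3581 (k4 c3578 c2075 c5458 c1650 (k1 c5688 k0)))))) (by decide +kernel)
def c13987 : PP 9 3 T 0x1000400000000000000011040000000000000000000000000000000000000000000000000000000000000000004000800000000000000000000000000000 := rS 0x33505e0 (k4 c5185 c13985 c5537 c2055 k0) (by decide +kernel)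
def c13988 : PP 9 3 T 0x1001400000000000000000000000000000000000000000000100000100001000000000010100000001000144005405001154400000000000000040000002 := rS 0x13ac767335546b (k4 c1058 c3601 c2075 c5688 (k2 c2560 c1650 (k1 c13171 k0))) (by decide +kernel)
def c13989 : PP 9 3 T 0x100000050000004110000844150000000020018000000000002 := rS 0x1627145b484ed5 (k4 c1656 c349 c545 c791 (k2 c668 c2085 (k1 c3602 k0))) (by decide +kernel)
def c13990 : PP 9 3 T 0x5000000000000000000000000000000000000000080000000000000000040004000540200000000000000000000000000000000000015100000000000000 := rS 0x809287647 (k4 c5520 c5332 c5258 c3072 (k1 c9182 k0)) (by decide +kernel)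
def c13991 : PP 9 3 T 0x1000000000000000200000100000000400100000000000000000000000000052000008000000000000001000000000000001418000000000000000000 := rS 0x247f48b945cfe589c9d1f8d (k8 c5569 c5568 c5383 c5382 c5622 c177 c4705 c3352 (k2 c5932 c619 (k1 c10599 k0))) (by decide +kernel)
def c13992 : PP 9 3 T 0x40000000000400000000000000100000000000000020000000080000000000000000000000000000000000000000000000000 := rS 0x69315e5 (k4 c5472 c2670 c5217 c5390 k0) (by decide +kernel)
def c13993 : PP 9 3 T 0x1001400000000208000201000000000000400100000008000100000001000000050000009000000000000000004000800010004018000000008000000040 := rS 0x1a5f8dfdf6f96d419b37973394aa535b8b5777d5e9a70667c8a46f789ce64d3a97 (k8 c5404 c1650 c13455 c13987 c5527 c5375 c5374 c5491 (k8 c5487 c5407 c5403 c5617 c5427 c5430 c5612 c5616 (k8 c2866 c355 c13991 c13912 c3430 c3435 c1655 c1654 (k4 c792 c2059 c2151 c5627 (k2 c5289 c5943 k0))))) (by decide +kernel)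
def c13994 : PP 9 3 T 0x1001400000000048000201000000000000400100000008000100040000000000140000009080000000000000004040800010004018000000008000000040 := rS 0x36febad8b7971f8b8cc9749f6dcba50313939f51f8dd4821237bc4e732709 (k8 c4778 c13455 c13987 c5527 c5375 c5374 c5643 c13924 (k8 c5569 c5568 c5566 c5383 c5382 c5380 c13992 c13993 (k8 c5233 c5213 c5595 c5641 c5390 c5608 c5931 c3616 (k4 c5911 c5635 c6463 c6650 k0)))) (by decide +kernel)
def c13995 : PP 9 3 T 0x8000020000000000000800000000008000000000000000000140000000000000000004000000000060004000040015000000000004602 := rS 0x182ef2ade57985be606efa5dc94f5a2bd5c8d8626 (k8 c668 c5348 c5351 c5600 c5601 c5602 c5605 c7665 (k8 c6201 c669 c1062 c5667 c1349 c986 c814 c356 (k2 c2904 c278 (k1 c3592 k0)))) (by decide +kernel)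
def c13996 : PP 9 3 T 0x1001400000000058000201000000000000400100000008000100000000000000140000009080000000000000004040800010004018000000018000000040 := rS 0x46967f3 (k4 c5546 c2455 c13994 c5267 k0) (by decide +kernel)
def c13997 : PP 9 3 T 0x1001400000000008000201000000000000400000080008000100000000000000000000000000000000000000000000000010000000000000000000400042 := rS 0x403e6b57012c40e34eb199ccd42265521f1b91c9bb511bf626c52e8a4da0b3d8eda311489e5063906bb5beebdb8423a263832cc6a13097d3e813ff88828937a34e66734abd5a3f09d6738872c3dcec3249bc52a350ca5d93b00d8c47a082be4cfa1d (k8 c5486 c5566 c13455 c9758 c5643 c1512 c5476 c5475 (k8 c5209 c5396 c5404 c6205 c5324 c5446 c9695 c5444 (k8 c3577 c272 c5333 c271 c2111 c13987 c12110 c5564 (k8 c275 c5490 c5406 c5403 c5487 c5379 c5381 c5565 (k8 c5567 c13989 c5655 c5577 c5380 c5448 c1054 c5445 (k8 c5398 c5395 c5464 c3599 c668 c351 c667 c10494 (k8 c5581 c5580 c5467 c5522 c273 c5525 c5524 c5374 (k8 c5371 c2129 c5332 c1684 c5516 c665 c9693 c5321 (k8 c13953 c5382 c5405 c5331 c12546 c5521 c5520 c5518 (k8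 c5517 c5489 c5447 c13988 c2503 c789 c788 c1650 (k8 c2619 c12148 c13996 c9944 c2608 c5591 c1653 c12116 k0))))))))))) (by decide +kernel)
def c13998 : PP 9 3 T 0x1000400000000008000201000000000000000000080008000100000000000000000000000000000000000000000000000010000000000000000000404042 := rS 0x3c167383acfeed65f8883593ca4738873b160645f788d436310ca4d3ea131b24c295d82b55e694b874cef72782ce681469bd127b1d8f4fa3f0415f2613 (k8 c5564 c13455 c9758 c5643 c275 c5566 c1512 c5332 (k8 c1684 c5567 c5565 c5381 c5380 c5379 c5516 c5335 (k8 c5333 c5487 c5486 c5404 c5403 c5406 c5490 c5209 (k8 c5446 c5445 c5396 c5395 c5398 c5448 c5444 c6205 (k8 c5476 c5475 c5324 c9695 c1054 c3577 c271 c272 (k8 c2111 c13987 c5374 c5524 c12110 c13989 c5655 c5464 (k4 c5467 c5577 c5581 c3599 (k2 c13995 c13997 (k1 c12577 k0))))))))) (by decide +kernel)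
def c13999 : PP 9 3 T 0x1000400000000010000011040000000000000000000000000000000000000000000000000000000000000000000000000400800000000000000000000002 := rS 0x27621e0 (k4 c5185 c8158 c5458 c1267 k0) (by decide +kernel)
def c14000 : PP 9 3 T 0x8000000000042000000000000000000000100000008000000000000000000000000140000000050000040000000000000000000001004010010000000 := rS 0x944eb08e35d961b (k8 c5475 c5464 c5465 c13617 c9617 c351 c1092 c5651 k0) (by decide +kernel)
def c14001 : PP 9 3 T 0x1005400000000000000000000000000000000100000000000100000500000000000000000000000050000005510000045150000000405000000044800002 := rS 0x8a2d7e5ef452cd62711209c806b (k8 c1058 c5655 c349 c1737 c668 c1092 c2760 c3602 (k4 c5583 c5204 c1094 c3604 (k1 c5590 k0))) (by decide +kernel)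
def c14002 : PP 9 3 T 0x8400000000008000001000000000000000100000008000100000000000000000000000010000000000000000010400000000000004000010000800200 := rS 0xdbb54e833d864d5aaf4b8747ad3 (k8 c5579 c1512 c5486 c5404 c5406 c5490 c13455 c5209 (k4 c272 c5668 c1532 c7658 (k1 c14000 k0))) (by decide +kernel)
def c14003 : PP 9 3 T 0x100000008000100000000000000000000000000000050000000150000844150000000001000004000000002 := rS 0x1b658094e229 (k4 c9693 c668 c13827 c3602 (k2 c5651 c5421 k0)) (by decide +kernel)
def c14004 : PP 9 3 T 0x4102800000000000a000000000040000000000000000000000000000040020000000000000000500000400000000000000000000000000000000000000000 := rS 0x7de1bf1c2369dea34fa9542ed75fbd96956bb4d5a97 (k8 c5404 c5490 c5579 c5465 c5446 c5464 c5892 c5581 (k8 c5467 c5398 c5399 c5448 c5449 c5473 c6804 c3622 (k4 c5627 c3496 c5638 c9460 k0))) (by decide +kernel)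
def c14005 : PP 9 3 T 0x41008000000000208000000040000000000400000000000000100000000020000000000000000400200000000000000000000004000000000000000800040 := rS 0xc1d6c871fa4f2c3d878753af76008 (k8 c5643 c5209 c5617 c5428 c5429 c1794 c2250 c14004 (k4 c5217 c5608 c5606 c5911 (k2 c277 c5656 k0))) (by decide +kernel)
def c14006 : PP 9 3 T 0x1001400000000008000201000000000000000000080008000100000000000000000000000000000000000000000000000010000000000004000000004042 := rS 0x72fd5cfe58b5e31f8b8cbbe4ba4fb6e560aa1092d691bb3c0167f35f9c1c0106a3199d0366a10b24322bccb6f54f98d52f7279350327c6ea50f7b41e24720d20b8ddadf75fbd96956bb4d2fb78ec544c8b3f9dbc491889b4168f8991d27b00d8fc2629628d4bb59ce1782c6b0fed43a237ebc47a082be4cfa8937a34e66734abd5a49 (k8 c5334 c5490 c5406 c5403 c5487 c5379 c5381 c5565 (k8 c5567 c5566 c13455 c9758 c5643 c1512 c9695 c5405 (k8 c5331 c5486 c12546 c5517 c1058 c13998 c1506 c13999 (k8 c12110 c5321 c5324 c13953 c9693 c5564 c275 c5475 (k8 c5209 c5444 c5520 c5382 c5568 c5516 c665 c5371 (k8 c5374 c14001 c14002 c5577 c790 c14003 c3046 c351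 (k8 c5570 c5404 c5579 c5465 c5446 c5464 c5892 c5581 (k8 c5580 c5467 c5466 c5462 c5522 c273 c5527 c5525 (k8 c5375 c5373 c13924 c5569 c5383 c5380 c5521 c5335 (k8 c5333 c5489 c5395 c5448 c5477 c5474 c5325 c5326 (k8 c5478 c2051 c3571 c2503 c2629 c789 c788 c14000 (k8 c12615 c13990 c2858 c5014 c5591 c2898 c1653 c13995 (k8 c5267 c5685 c13996 c2608 c3581 c1344 c14005 c5233 (k8 c5213 c5595 c5597 c5641 c5390 c5608 c3612 c3616 (k4 c5931 c3430 c5635 c3352 (k1 c8109 k0)))))))))))))))) (by decide +kernel)
def c14007 : PP 9 3 T 0x1009000000000048000000041100040000400100000000000140040400000000000200008000400200000001400110000000004000000000000000800040 := rS 0x1f573f962d7874e3f171977c9749f6dcea410ed3fbafe700 (k8 c1653 c5591 c5581 c5577 c5467 c5643 c13924 c14005 (k8 c5233 c5213 c5595 c5597 c5641 c5390 c5608 c1830 (k4 c3612 c3616 c5931 c3430 (k2 c5635 c5932 k0)))) (by decide +kernel)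
def c14008 : PP 9 3 T 0x1001400000000008000201000000000000000000080008000100000000000000000000000000000000000000001000000010000000000000000000004042 := rS 0x1f574b9fcbf0c7299f37cc0ddeffa5dc8af576fb342560bf5a46e00b3f9b813ac767335549f64a5d524f40c9f1b7b3ca0f12e368a1f6f151322cfe76f1246226d05a3e264749ec0363f098a58a352ed67385e0b1ac3fb50e88dfaf11e9f5126f469ccce6957ab4925819020af93 (k8 c13455 c9758 c5643 c14006 c271 c5334 c5490 c5406 (k8 c5403 c5487 c5379 c5381 c5565 c5567 c5566 c1512 (k8 c9695 c5405 c5331 c5486 c12546 c5517 c1058 c13998 (k8 c1506 c13999 c12110 c5321 c5324 c13953 c9693 c5564 (k8 c275 c5475 c5209 c5444 c5520 c5382 c5568 c5516 (k8 c665 c5371 c5374 c14001 c14002 c5577 c790 c14003 (k8 c3046 c5570 c5373 c2131 c5466 c5527 c5525 c5524 (k8 c5375 c5569 c5383 c5380 c5335 c5489 c5404 c5396 (k8 c5448 c3601 c2075 c5688 c2560 c1650 c13962 c5591 (k8 c2898 c1653 c5267 c5685 c8097 c1344 c4585 c14007 (k8 c5349 c5600 c5601 c7665 c6201 c2218 c669 c1062 (k8 c5667 c862 c1364 c1365 c5943 c5470 c1728 c1559 (k2 c9523 c5932 k0))))))))))))) (by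 decide +kernel)
def c14009 : PP 9 3 T 0x1001400000000008000201000000000000000000080008000100000000000000000000000000000000000000000000020010000000000000000000004042 := rS 0xab10ac5691b59fcdc04b5fd9c20f37aa7cc6a97b93c9a8193e350f7bc48e41a4171bb5beebdbc544c8b3f9259ace63210ede248c447a6d05a3d126f89a34e647339a55ead49ec03759ce178d61fda87446fd788587e130415c52c5c98d4ba7d (k8 c5566 c5321 c5324 c13455 c13953 c9693 c9758 c5643 (k8 c5564 c275 c13998 c9695 c5405 c5331 c5486 c12546 (k8 c5517 c1058 c1506 c13999 c12110 c5475 c5209 c5444 (k8 c5490 c5406 c5403 c5487 c5520 c5379 c5381 c5382 (k8 c5565 c5567 c5568 c5516 c665 c1512 c5371 c5374 (k8 c14001 c14002 c14008 c788 c789 c2503 c5334 c5577 (k8 c790 c14003 c3046 c5570 c5581 c5580 c5467 c5466 (k8 c5462 c5522 c273 c5527 c5375 c5373 c5569 c5383 (k8 c5380 c5521 c5335 c5333 c5489 c5395 c5448 c5477 (k8 c5325 c667 c13995 c5014 c13996 c9944 c5591 c2898 (k4 c5267 c5685 c14007 c2608 (k2 c1344 c3581 k0)))))))))))) (by decide +kernel)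
def c14010 : PP 9 3 T 0x1001400000000008000201000000000000000000080008000100000000000000000000000000000000000000000000000010000000000000000000004042 := rS 0xfaba5cfe5f85e54cf9be606ef7fd2ee457abb7d98941138c253ac6673350858196dc4c8b3b3ada67f76b5fc4450da4cc7b056abcd297338ec9e3723934e68d899bd128f628d4ba293682c7a7d1f84e228748836b39c2f05810573587f6a1d11bf5e393 (k8 c13455 c9695 c5405 c5331 c5486 c12546 c5517 c1058 (k8 c9758 c5643 c13998 c1506 c13999 c12110 c5522 c5374 (k8 c5373 c5371 c5564 c275 c5566 c1512 c5516 c665 (k8 c9693 c5321 c5324 c13953 c5568 c5567 c5565 c5382 (k8 c5381 c5379 c5521 c5520 c5518 c5335 c5332 c5487 (k8 c5404 c5403 c5406 c5490 c5209 c5395 c5444 c5475 (k8 c5326 c14001 c5465 c5467 c5577 c5579 c5581 c14002 (k8 c790 c14003 c5570 c14006 c271 c14008 c2503 c789 (k8 c788 c1650 c4778 c14009 c2858 c12658 c13996 c5349 (k8 c5600 c5601 c7665 c6201 c2218 c669 c1062 c5667 (k8 c862 c1364 c814 c5943 c5470 c1728 c2671 c9523 (k1 c5932 k0)))))))))))) (by decide +kernel)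
def c14011 : PP 9 3 T 0x400000000000000201000000000000000000000008000100000000000000000000000000000000000000000000000010000000000000000000000010 := rS 0x403b78d9ad1f00e6b27906a47385e0b0fc7a7b041acae006281d127d3784d1a732e8d41e93d864d5aaf34a5ccea9f68ec3ef71bed43a23a53f764f1 (k8 c9695 c13812 c5405 c13979 c5331 c5486 c12546 c5518 (k8 c5333 c5517 c5332 c13834 c5489 c5487 c5404 c5403 (k8 c5406 c5490 c13455 c5209 c5444 c9739 c5324 c5321 (k8 c5379 c5381 c5564 c5565 c5566 c5567 c13984 c13953 (k8 c13986 c9758 c1058 c5643 c1684 c1512 c275 c13998 (k8 c1506 c13999 c5374 c5522 c5524 c12110 c273 c14010 (k4 c5459 c5537 c12577 c13931 (k2 c5655 c13844 k0)))))))) (by decide +kernel)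
def c14012 : PP 9 3 T 0x400000000000000001000000000000000000000008000100000000000000000000000000000000000000000000000010000000000000000000000098 := rS 0xb3db565be411cf899bef55405c31525887e40dce05de24322bcc36f564ec1fa1d548ec3e237b9246e47a50a44ba1d9344ea31c9fb4bec4 (k8 c13837 c1630 c13834 c13455 c5476 c1452 c10484 c13812 (k8 c14011 c13900 c8199 c13979 c5520 c5518 c5334 c5333 (k8 c5331 c5517 c5332 c5489 c5486 c5405 c5209 c5396 (k8 c5477 c5475 c5325 c5326 c5478 c9695 c1107 c13982 (k8 c5522 c12078 c265 c5546 c5590 c5591 c5592 c3581 (k8 c9072 c2075 c5186 c6897 c5462 c5580 c11685 c5212 (k2 c5574 c8534 k0))))))) (by decide +kernel)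
def c14013 : PP 9 3 T 0x400000000000000001000000000000000000000008000100000000000000000000000000000000000000000000000010000000000000000000000090 := rS 0x2090efe429ee3bf288782b19ddb9b4d6720000cbe7963b13619334a5ccea9f687dee49058dc8fb50e88e94fd7889743b2 (k8 c13812 c14011 c13900 c9695 c5405 c13979 c5331 c5486 (k8 c12546 c5520 c5518 c5516 c5334 c5333 c5517 c13834 (k8 c5489 c5487 c5404 c5403 c13455 c5209 c13837 c674 (k8 c1454 c1630 c14012 c5642 c13899 c1058 c665 c5419 (k8 c13983 c5212 c5185 c8158 c5241 c5341 c5457 c845 (k4 c12736 c898 c5672 c11999 k0)))))) (by decide +kernel)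
def c14014 : PP 9 3 T 0x1000400000000008000111000000000000000000080008000100000000000000000000000000000000000000000000000000000000000000000000000000 := rS 0x1e3f7906b1018ab8c97b76f8e5c29df9780864579bd527b0c98ec923723ed43a237ebc45225 (k8 c13900 c8199 c9695 c5405 c5331 c5486 c12546 c5520 (k8 c5518 c5334 c5332 c13455 c5209 c5444 c5477 c5325 (k8 c5326 c5478 c5185 c12122 c5458 c5460 c5534 c5538 (k8 c7694 c5546 c5549 c5590 c5592 c9176 c13854 c9072 (k2 c11685 c5186 k0))))) (by decide +kernel)
def c14015 : PP 9 3 T 0x400000000000000001000000000000000000000008000100000000000000000000000000000000000000000000000010000000000000000000000010 := rS 0x73599c76d596f907c5ef80b862ab58992c73f2478352311ce020da6b3795c000712e84864579bd7269754fb4761f7b924163723ed43a23a53f764f1 (k8 c9695 c13812 c5405 c13979 c5331 c5486 c12546 c5520 (k8 c5518 c5516 c5334 c5333 c5517 c5332 c13834 c5489 (k8 c5404 c13455 c5477 c5325 c5326 c5478 c14011 c13900 (k8 c14013 c13986 c9758 c1060 c1058 c665 c5643 c14014 (k8 c5371 c5374 c5522 c5526 c12078 c273 c5546 c5547 (k8 c5548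 c5590 c5591 c5592 c9072 c5186 c5462 c5580 (k4 c11685 c5212 c5571 c5574 (k2 c5419 c3604 k0)))))))) (by decide +kernel)
def c14016 : PP 9 3 T 0x1000000000002000010040000000000000000000000000000000000001055000000000010000001000040000000400150000000000041000454000480 := rS 0x21559b405113d178f2c73a98cc295 (k8 c5446 c5445 c5395 c1452 c674 c1454 c10013 c5669 (k4 c1268 c1451 c742 c9859 (k2 c13817 c3581 k0))) (by decide +kernel)
def c14017 : PP 9 3 T 0x1000000000050000210040000000000000000000008000100000000001041000000004010000051000040000000400150000000000040000450800410 := rS 0x4f5945c70b21143244f05e68440106d3595c000303914ba357996c36317a98f60734684cde89 (k8 c5567 c5565 c5564 c5381 c5379 c5209 c5395 c5477 (k8 c5476 c5475 c5474 c5325 c5324 c5321 c5326 c14016 (k8 c1108 c5642 c9758 c1058 c665 c5643 c8158 c13685 (k8 c1506 c1268 c9793 c1540 c12052 c2111 c12123 c900 (k2 c8187 c351 (k1 c12048 k0)))))) (by decide +kernel)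
def c14018 : PP 9 3 T 0x1800000000040000200040000000000000100000000000100000000001055000000000000000001000041000005000150000000400041000454800480 := rS 0x5a405c0df71a28feca1e0fc50aa138844a022f31cea19319852bb0629dd0313099bcfa8f (k8 c5568 c5566 c5565 c5564 c5382 c5380 c5493 c5451 (k8 c5209 c5446 c5445 c5395 c6205 c1452 c674 c10013 (k8 c1451 c1113 c13817 c267 c3581 c5651 c404 c1308 (k8 c1307 c677 c13725 c1493 c2770 c3610 c3068 c1719 (k1 c1345 k0))))) (by decide +kernel)
def c14019 : PP 9 3 T 0x800000000040000200040000000000000000080008000100000000001001000000000000000051000040000000000150000000000000000010000010 := rS 0x38a0314452cd6ab138b28482720343c6391e8fc106d2b800520303d64f26b06a44f711ce23d127d3784e268d39bcdea3b0fbdc163723ed446c567b54eecd69f842c3349a546a1964ec03631 (k8 c5476 c5475 c5209 c5396 c6205 c5324 c5446 c5444 (k8 c5492 c3577 c6344 c5496 c5495 c5493 c5454 c5453 (k8 c5451 c5331 c12546 c5520 c5518 c5516 c5333 c5517 (k8 c5332 c5477 c5325 c5379 c5381 c5382 c5564 c5565 (k8 c5566 c5567 c5568 c14017 c5371 c5372 c5374 c5522 (k8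 c5523 c5524 c12110 c14018 c1108 c9694 c5642 c9758 (k8 c665 c5643 c275 c1512 c273 c14000 c3587 c5655 (k8 c349 c1737 c1736 c668 c1092 c1094 c2760 c3602 (k4 c3604 c3068 c1293 c1780 k0))))))))) (by decide +kernel)
def c14020 : PP 9 3 T 0x1000000000000010000111000000000000000000080000000000000000000000000400800000000000000000000020000004000004015000000000000202 := rS 0xdf1cb1dc3108191cd61f (k8 c5517 c1058 c5520 c11700 c8158 c1721 c796 c274 (k2 c2830 c9944 k0)) (by decide +kernel)
def c14021 : PP 9 3 T 0x1000000000000000000000008000100000000000000000000000000000000000000000000000010000000000000000000000010 := rS 0x1f2ce38dac7c1f9fc10722b801020303f8c971d1e906b011128a74216f0edcee336ab17bdb511d2bdaa933875fa9734abd5bb24ab24c69f49ec1e2350d8c43393 (k8 c13455 c6205 c5476 c5475 c5324 c9695 c5209 c5444 (k8 c5448 c5395 c5396 c5446 c13812 c5490 c5406 c5403 (k8 c5404 c5405 c5486 c5487 c5489 c13834 c13979 c5331 (k8 c12546 c14015 c5451 c5454 c5492 c5493 c7702 c6344 (k8 c3577 c14019 c8199 c13900 c9667 c5212 c13854 c12427 (k8 c5341 c5342 c13617 c13978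 c1108 c12653 c5642 c9758 (k8 c13898 c5643 c806 c276 c5670 c8453 c11106 c14020 (k2 c12078 c11991 k0)))))))) (by decide +kernel)
def c14022 : PP 9 3 T 0x400000000004000201000000000000000200000008000000000000000000000000000000000000000000000000000010000000000000000000000011 := rS 0x22cb2d53b32962c53a89ccc0234914ba5b0c8cc7e171eca1269f509852bb0c9a342689128445241 (k8 c5340 c5339 c5558 c5559 c5567 c5564 c5381 c13455 (k8 c5234 c5446 c5445 c5398 c5448 c5444 c14021 c5436 (k8 c5433 c5318 c5316 c6205 c5474 c5321 c5326 c9744 (k8 c5642 c5664 c267 c2005 c733 c2179 c3579 c5668 (k4 c1661 c2051 c791 c8187 k0))))) (by decide +kernel)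
def c14023 : PP 9 3 T 0x2000000000000044000210000000000000000000040008000000100000000000000000000000000000000000000000000200000004400000011000014000 := rS 0x1ff7830920b35bfdfa858090c8af37a88f681343c456273 (k8 c5379 c1332 c9727 c897 c5564 c5211 c9733 c5477 (k8 c5325 c5326 c5478 c5502 c5541 c5542 c5544 c1223 (k4 c13459 c10368 c5645 c8823 (k2 c2361 c12760 k0)))) (by decide +kernel)
def c14024 : PP 9 3 T 0x2000010000000000000000000040000000000000000000000000000000040000000000000000004000400400000000040000080004000 := rS 0x5834f06388a74dbb4 (k8 c5211 c5529 c5412 c9727 c5395 c13168 c2361 c2307 (k1 c5645 k0)) (by decide +kernel)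
def c14025 : PP 9 3 T 0x400000000004000211000000000000000200040008000000000000000000000000000000000000000000000000000010000000000000000000000010 := rS 0x409ff0157925ee827e0310a6a0f344f6c71df83da872f9c4d000db91c971d148444a4322bcdea190795c723f0b8de50934da67619311c453a21da04d128f (k8 c5568 c5567 c5564 c5211 c5528 c5412 c9727 c9733 (k8 c13455 c5234 c5447 c5397 c5444 c14021 c5435 c5433 (k8 c5318 c5317 c5313 c9739 c6205 c5477 c5325 c5326 (k8 c5478 c5559 c5558 c5339 c5341 c5342 c5562 c13756 (k8 c14022 c8135 c667 c1054 c897 c14023 c5185 c5456 (k8 c5535 c5457 c5459 c3578 c14024 c2543 c1059 c1223 (k8 c1224 c292 c293 c13539 c1977 c2396 c3593 c2632 k0))))))) (by decide +kernel)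
def c14026 : PP 9 3 T 0x1400000000000000011000000000000000000040008000000000000000000000000000000000004000400001400800010000000000000000000000011 := rS 0x631a8f27b0f029fa877bfb1e2f32dbd7260f1b88c426d54ed0d21d2c8ce5002 (k8 c5642 c14021 c5316 c2051 c263 c9744 c5211 c5531 (k8 c5529 c5528 c9733 c5435 c9739 c13455 c5477 c5474 (k8 c5325 c9695 c5185 c5498 c5499 c5542 c10419 c9250 (k4 c889 c2307 c1111 c5669 (k1 c2482 k0))))) (by decide +kernel)
def c14027 : PP 9 3 T 0x400000000004000011000000000000000000040008000000000000000000000000000000000000000000000000000010000000000000000000000011 := rS 0x607bda3bf01d906c53aa14cc690c83c72171bca1269b30a5533b0c988d569d109b553b4 (k8 c5211 c5531 c5529 c5528 c5412 c8880 c9733 c13455 (k8 c5234 c5447 c5446 c5445 c5397 c5444 c14021 c5435 (k8 c5433 c5317 c9739 c6205 c9744 c5664 c5871 c2005 (k8 c733 c2007 c5668 c14026 c5456 c6290 c3578 c13492 (k1 c2362 k0))))) (by decide +kernel)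
def c14028 : PP 9 3 T 0x2000400000000002000011000000000000000000040008000200000000000000000000000000000004000000000000400400400000000000000080004000 := rS 0x12ecd3a3158c7b418281af5c981c6ec94da55329d54ed1a285 (k8 c5541 c5501 c5211 c5531 c5412 c5447 c5446 c5397 (k8 c5396 c5435 c5432 c13455 c5477 c2361 c5645 c2309 (k4 c690 c14024 c838 c5668 (k2 c8354 c1528 (k1 c8724 k0))))) (by decide +kernel)
def c14029 : PP 9 3 T 0x2000010000000000000000000040000000000000000000000000000000020000000000000001000000000400000000810000000004042 := rS 0x2c1ac70498d36994e9b76879 (k8 c1536 c5211 c5529 c5412 c5447 c5397 c5395 c1627 (k4 c838 c289 c10374 c5645 k0)) (by decide +kernel)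
def c14030 : PP 9 3 T 0x2000400000000002000011000000000000000000040008000200000000000000000000000000000004000000000000000200000000000000000000004002 := rS 0x20814cc06a5cf674628e83e6b7ea15a2357a8672639038dd26c94da5532234e88553b42f85cee63 (k8 c5395 c787 c5433 c1054 c5211 c5531 c5528 c5412 (k8 c9733 c5447 c5446 c5397 c5396 c5444 c5435 c5432 (k8 c5317 c13455 c6205 c5477 c5324 c5501 c5541 c5542 (k8 c1223 c14028 c3578 c14029 c5668 c1688 c1528 c290 (k4 c8724 c5645 c8354 c2309 k0))))) (by decide +kernel)
def c14031 : PP 9 3 T 0x400000000044000201000000000000000100040008000000000000004040000000000020000000000000000000100200400001400000010100400010 := rS 0x457b8fcaf659c55a2421a7d426330ec32681379f56273 (k8 c5379 c1332 c5566 c5565 c5380 c13455 c5234 c5445 (k8 c5395 c5398 c5448 c5478 c13542 c2758 c2755 c1090 (k4 c13526 c3599 c5683 c840 (k1 c5583 k0)))) (by decide +kernel)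
def c14032 : PP 9 3 T 0x400000000004000211000000000000000000040008000000000000000000000000000000000000000000000000000010000000000000000000000010 := rS 0xf9ad76cff23926b28f098a588823ab39ee0c43c45e633668c5a2f51aa14d47b6387877e0f69a156234e88768934ca6c32392f8002fb0c98de500f (k8 c9739 c14021 c5435 c13455 c5234 c5433 c14027 c1054 (k8 c5317 c6205 c5397 c5447 c5444 c5211 c5528 c5412 (k8 c9733 c8880 c8135 c14030 c5185 c5456 c3578 c5535 (k8 c5457 c14024 c2543 c5324 c5477 c5459 c5476 c5537 (k8 c5316 c5325 c9727 c897 c1059 c292 c3587 c1531 (k8 c1224 c2395 c9693 c5564 c5568 c14025 c293 c2367 (k4 c2396 c14031 c5422 c7694 (k1 c6300 k0)))))))) (by decide +kernel)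
def c14033 : PP 9 3 T 0x1000000000000006000111000000000000000200000008000000000000000000000000000000000000000000005000000010000000004000000000400002 := rS 0x247dc72db91c9611128672629 (k8 c9693 c13455 c6205 c5559 c5558 c5342 c5562 c13756 (k4 c11969 c5239 c9824 c13606 k0)) (by decide +kernel)
def c14034 : PP 9 3 T 0x400000000004000011000000000000000000040008000000000000000000000000000000000000000000000000000010000000000000000000000010 := rS 0x3e5b6ace850a6a0f1ed8e3bf07b50e5f34000429dda444320f1c8fc2e379424d3699d864c46ab (k8 c8880 c9733 c13455 c5234 c5447 c5397 c5444 c14021 (k8 c5435 c5433 c5318 c5317 c9739 c6205 c9727 c5211 (k8 c5412 c5528 c14027 c8135 c1054 c897 c14030 c5185 (k8 c5456 c5535 c5457 c3578 c14024 c2543 c14032 c14033 (k2 c5212 c5221 (k1 c7694 k0)))))) (by decide +kernel)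
def c14035 : PP 9 3 T 0x2000000000000000000000000000000000200000000000000000000000000000000000000000000000800400000000400000441000010 := rS 0x4e88472171ba4d3699 (k8 c5447 c5397 c5444 c5435 c5433 c5317 c2372 c1135 (k1 c3578 k0)) (by decide +kernel)
def c14036 : PP 9 3 T 0x1000000000000000010040000000000000000000000000000000000000054000000002000000000000000005404000000150000000100000000004400 := rS 0x3181879 (k4 c2385 c3571 c5669 c2480 k0) (by decide +kernel)
def c14037 : PP 9 3 T 0x400000000004000011000000000000000000000008000000000000000000000000000000000000000000000000000010000000000000000000000011 := rS 0x5f4e9a8da823d964ecc53a998d3112e96c320f0ba6cc2951187c168742f8598cf1dbcc6e331cbdc62d1f66d695b0c9ca1ea35 (k8 c5324 c5477 c14021 c13455 c5234 c14034 c9578 c5238 (k8 c5501 c5476 c5333 c5317 c5316 c5435 c5325 c5332 (k8 c5543 c3587 c6290 c5541 c5499 c5516 c5517 c9733 (k8 c5446 c5445 c5397 c5433 c9739 c6205 c5474 c5321 (k8 c9730 c9744 c5664 c2005 c733 c5668 c2051 c889 (k4 c14036 c2431 c2008 c8792 (k2 c8110 c14035 k0))))))) (by decide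 +kernel)
def c14038 : PP 9 3 T 0x2000400000000004000211000000000000000200000008000200000000000000000000000000000000000000000000101200000001400000000040000002 := rS 0x2b8e3b78e8444a191f85f6193149ad6273 (k8 c5379 c1332 c1058 c9693 c13455 c5234 c5433 c5318 (k8 c6205 c5559 c5558 c5341 c13756 c667 c12835 c13526 k0)) (by decide +kernel)
def c14039 : PP 9 3 T 0x54000011000000000000000000000008000000000000000000000000000000001100000000000000041400000001400000018040000000 := rS 0x1ee25abc8bec (k4 c5238 c5326 c2986 c354 (k2 c13551 c12459 k0)) (by decide +kernel)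
def c14040 : PP 9 3 T 0x400000000054000211000000000000000100000008000000000000000000000000000000000000000000000000101200000001400000000040400002 := rS 0x115ee3f2bd967113a7d4261f60a4bec43b98f6193409bcfab15a9ce206b (k8 c1058 c8158 c5379 c1340 c1332 c5566 c5565 c5380 (k8 c13455 c5234 c5395 c787 c5668 c1054 c9693 c5238 (k8 c5445 c5398 c5448 c14039 c668 c9148 c13526 c3599 (k2 c13551 c840 (k1 c5583 k0))))) (by decide +kernel)
def c14041 : PP 9 3 T 0x400000000014000211000000000000000000000008000200000000000040000000000000000000000000000008101200000001400000000040000002 := rS 0x8eb49abe33f6dab2e36ba04e6331cc05ffe1f617c2ec43b98f6193 (k8 c13455 c5234 c5395 c787 c5668 c5433 c1054 c5238 (k8 c6290 c5544 c5502 c5317 c5316 c5379 c5380 c1765 (k8 c1775 c14038 c14040 c10494 c5577 c2999 c841 c5778 (k1 c11554 k0)))) (by decide +kernel)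
def c14042 : PP 9 3 T 0x16000111000000000000000200000008000200000000000000000000000000000000000000000000000000000000400000010000000000 := rS 0xf7edc96250ce4c7e17 (k8 c5433 c5318 c13455 c6205 c5559 c5342 c13756 c12459 (k1 c5239 k0)) (by decide +kernel)
def c14043 : PP 9 3 T 0x4400000000004000111000000000000000000080008000200000400000000000000000000000000000000100000000000000000000000000000000000 := rS 0x968bf93de02fff66d76193 (k8 c13455 c5234 c9578 c5238 c5544 c5502 c5333 c11402 (k2 c8305 c5546 (k1 c13781 k0))) (by decide +kernel)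
def c14044 : PP 9 3 T 0x400000000004000011000000000000000000000008000000000000000000000000000000000000000000000000000010000000000000000000000010 := rS 0x2504516883fa07c513469cd9671db56742c43a9e98e79881dcd65f369a0520066785fecf80b47d9b52382c92f70f8ee94431abcc62f5198e42e379418f6193 (k8 c13455 c5234 c5395 c14021 c5435 c5433 c5317 c5316 (k8 c5477 c5476 c5325 c5324 c5478 c14034 c5332 c5517 (k8 c5333 c5334 c5516 c5520 c9578 c5238 c5501 c5502 (k8 c5543 c5544 c6290 c3587 c14037 c9693 c8135 c665 (k8 c1054 c1058 c787 c8158 c2386 c796 c5669 c1968 (k8 c5668 c14041 c14042 c5212 c5571 c5420 c5419 c946 (k8 c955 c14043 c5463 c5577 c13603 c130 c2749 c13781 (k1 c12663 k0)))))))) (by decide +kernel)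
def c14045 : PP 9 3 T 0x2000400000000000000001040000000000000000000000000000000000000000000000000180000005001510000400400000400000000000000000000000 := rS 0x12ecd3a3150ad1 (k4 c5501 c5541 c838 c5668 (k2 c8354 c1528 (k1 c8724 k0))) (by decide +kernel)
def c14046 : PP 9 3 T 0x1000000000000006000201000000000000000200000008000200000100000000000000000080000004000001400005401400000000000000000080000002 := rS 0x69314ffee66b7fe6fc5a6d566718aedc8f1d208444a19c98cc7e3d4daa5ea290197c2fe1399bdc713 (k8 c5382 c2619 c5565 c5379 c5535 c5433 c1054 c1111 (k8 c9694 c5477 c2319 c5397 c5436 c5318 c5316 c13455 (k8 c6205 c5559 c5558 c5340 c5341 c5562 c13756 c1086 (k8 c667 c2321 c13493 c3604 c5682 c5548 c2514 c2504 (k4 c5201 c10493 c839 c13298 (k1 c8433 k0)))))) (by decide +kernel)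
def c14047 : PP 9 3 T 0x1001400000000026000220000000000000000000000008000200000000000000000400004000000000000000000000001200000000000000010000004002 := rS 0x663dbc6d124bfe3ad76ac07deaf082b11447db9c16715198fc7a9f4ac44f691359e4ce5b2f85d6273 (k8 c5379 c1332 c5433 c1054 c5474 c663 c5524 c5523 (k8 c5374 c5372 c5371 c5446 c5448 c5436 c5318 c5316 (k8 c5414 c5532 c13493 c8114 c12800 c834 c835 c667 (k8 c2989 c5583 c3068 c2890 c2032 c2029 c2892 c3026 (k4 c12851 c6627 c11552 c5688 (k1 c2071 k0)))))) (by decide +kernel)
def c14048 : PP 9 3 T 0x1000400000000056000020000000000000000100040008000200000400002000000000060000000100000000000000055000000000000000000080000002 := rS 0x1adef562bc4ab2134556bf2228cc7e3d4fa55228f1480cd7e163444429d0b9e53263039ed360d (k8 c5522 c5397 c5372 c5432 c5395 c5447 c5524 c5433 (k8 c1082 c58 c5371 c10500 c5535 c5523 c1111 c9694 (k8 c5526 c5374 c5446 c5448 c5436 c5318 c5316 c5326 (k8 c5231 c5548 c5590 c12200 c3604 c60 c2986 c2557 (k2 c13701 c12851 (k1 c2032 k0)))))) (by decide +kernel)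
def c14049 : PP 9 3 T 0x400000000004000221000000000000000000040008000200000000000000000000000000000004000000000000000200000000000000000080000010 := rS 0xb513acf6c7169b54e8d062b35c2fcdad65c6b1449be2673078cc7e3d48a3c466d14f859fed3bb1a22213c98c0e7b0697c000335a742ea97aa0d32954db276193 (k8 c13455 c5234 c5396 c5397 c5446 c5447 c5525 c5477 (k8 c2319 c5433 c1082 c5523 c1111 c5642 c1054 c5522 (k8 c5372 c5432 c5395 c5524 c58 c5371 c10500 c787 (k8 c14045 c2561 c5535 c9694 c2316 c152 c5526 c5374 (k8 c5436 c5318 c5316 c9739 c5379 c5382 c5565 c5567 (k8 c1332 c2619 c14046 c14047 c5682 c13896 c2504 c839 (k8 c5688 c5668 c1710 c1969 c13518 c14048 c5574 c5570 (k2 c5422 c13749 k0)))))))) (by decide +kernel)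
def c14050 : PP 9 3 T 0x1000000000000046000101000000000000000000000008000200000000000000000000000080000000000000400004400000000000000000010080000002 := rS 0x93017bb79c2cc40310fe7df19c88ed225bfdab036bc742225f710c8af37ae4c663f1e98fc2cf (k8 c2561 c5535 c5395 c5436 c5318 c5316 c13455 c5477 (k8 c5325 c5326 c5478 c5239 c9666 c9667 c5504 c5507 (k8 c5508 c5585 c5586 c2591 c13701 c13598 c11969 c6627 (k8 c2828 c806 c8433 c5670 c10805 c1716 c941 c2071 (k2 c2078 c2946 (k1 c3593 k0)))))) (by decide +kernel)
def c14051 : PP 9 3 T 0x10014000000000a2000101000000000000000000000008000200000000000000000000006000000005000000000404000200000000000000000000000000 := rS 0x100e03e9fe01e37fb555e8b81b5e3bee621d5fb93198fc7a9b3b98ce2cb39ac62ab3 (k8 c5532 c5414 c5421 c5419 c5420 c5571 c5395 c787 (k8 c5397 c5436 c5318 c5316 c13455 c2504 c1967 c8354 (k8 c13625 c5504 c5507 c5508 c5583 c5584 c5585 c5586 (k4 c6627 c8604 c840 c1633 (k2 c2078 c5670 (k1 c1716 k0)))))) (by decide +kernel)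
def c14052 : PP 9 3 T 0x82000000000000000000000200000000000200000000000000000000000000000000000000000000000000000000000000010001000000 := rS 0x947e17 (k4 c5433 c5318 c5559 c13756 k0) (by decide +kernel)
def c14053 : PP 9 3 T 0xa2000020000000000000000000040000000200000000000000000000000000000000000000000000001000000000400000001081000002 := rS 0xe324047e712201bc7e3d48a3d8d1110a742e794c98c0e7b4d834e2273992d6b591480cd6b3 (k8 c5532 c5523 c1111 c9694 c14052 c5422 c2590 c5419 (k8 c5570 c5571 c5522 c5397 c5372 c5432 c5395 c5447 (k8 c5524 c5433 c1082 c58 c5371 c10500 c5526 c5374 (k8 c5436 c5318 c1060 c13340 c8385 c12200 c704 c5660 (k2 c12672 c512 k0))))) (by decide +kernel)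
def c14054 : PP 9 3 T 0x10004000000000a2000121000000000000000000040008000200000000000000000000021000000000000000000000001000000000400000000080000002 := rS 0x78fdee370fca02491210c7a9b4a92d6b591480cd619c9a5d3a17 (k8 c5433 c1082 c1708 c13455 c6205 c5523 c1111 c9694 (k8 c14052 c5422 c2590 c5446 c5397 c5436 c5478 c14053 (k8 c10629 c6743 c6300 c6188 c1780 c12989 c6661 c5186 k0))) (by decide +kernel)
def c14055 : PP 9 3 T 0x4000000000a2000121000000000000000000040008000200000000000000000000000000000004000000000000001200000000000000000080000002 := rS 0x3704e264668335669135a3fc2cff69dd8d11109e4c6073d834be9d0baa5ea834ca5536c9c99c4e6b5 (k8 c5422 c5419 c5571 c13455 c5396 c5397 c5446 c5447 (k8 c5525 c5477 c2319 c5433 c1082 c1054 c5522 c5372 (k8 c5432 c5395 c5524 c58 c5371 c10500 c787 c14045 (k8 c2561 c5535 c5526 c5523 c5374 c5532 c14051 c5688 (k4 c14054 c12623 c2810 c8385 (k1 c1061 k0)))))) (by decide +kernel)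
def c14056 : PP 9 3 T 0x400000000004000001000000000000000000040008000000000000000000000000000000000000000000000000000010000000000000000080000010 := rS 0x1e3f7b552ed37fb418a7f45b363a127e04567b5aca355ab539b2ce3b6d0fb59fe13bb18be68000a53a6d01aa442457a864663f0385c7b2831b2536954cec327113d834d67941a3d579c (k8 c14044 c8138 c5526 c5525 c5524 c5523 c5522 c5372 (k8 c5371 c13455 c5234 c5447 c5446 c5397 c5396 c5395 (k8 c14021 c5436 c5433 c5432 c5318 c5316 c6205 c5477 (k8 c5326 c58 c2319 c1111 c2316 c1082 c9694 c5642 (k8 c8135 c1054 c10500 c787 c5535 c2561 c14045 c14049 (k8 c14050 c5571 c5420 c5419 c5422 c5573 c946 c14052 (k8 c14055 c5574 c13353 c5682 c12617 c13277 c2504 c2976 (k8 c2917 c839 c5688 c11835 c8433 c1708 c1711 c8156 (k2 c13617 c5186 k0))))))))) (by decide +kernel)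
def c14057 : PP 9 3 T 0x2000000000000044000201000000000000000100040000000000000000000000000000000000000000000001414400000110000000000000005000000010 := rS 0xf922f6aaf540a1e266099bfde857fc4d1b01 (k8 c5502 c5381 c5382 c5544 c5541 c8783 c5565 c5564 (k8 c5664 c9695 c5651 c12808 c1243 c5531 c738 c5231 (k1 c12913 k0))) (by decide +kernel)
def c14058 : PP 9 3 T 0x2000400000000004000201000000000000000000040008000000000000000000000000000000000000000000000000000110000000000000000000000010 := rS 0x231d24357c68b200a59671db12c14ff429746a1907a4d3e8748835068fce16466893e85c7a3f9444eb2d7469d98a613a9992bb0c989c262537808021b (k8 c5475 c12887 c5642 c5565 c1113 c5564 c267 c13455 (k8 c5234 c5446 c5664 c2005 c5445 c733 c5668 c5381 (k8 c2187 c14022 c5382 c14021 c5318 c5436 c5433 c13946 (k8 c2058 c5316 c2051 c14044 c5526 c5525 c5522 c5374 (k8 c5373 c5448 c5444 c9739 c6205 c5324 c5321 c5541 (k8 c5544 c10404 c2588 c14057 c5571 c5420 c5417 c13340 (k4 c737 c7824 c1656 c13510 (k2 c5778 c3026 (k1 c12681 k0))))))))) (by decide +kernel)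
def c14059 : PP 9 3 T 0x1000400000000064000200000000000000000100040008000000000000000000000000010000000040000505004400000190010000000144020141405000 := rS 0x7b82d984a7fa147449599b53a232e8d5e65b7aa36268b (k8 c738 c5382 c5381 c5477 c5474 c5325 c5324 c5321 (k8 c5409 c5412 c5529 c5532 c509 c3578 c5871 c13507 (k4 c13510 c6899 c2588 c2071 (k1 c3571 k0)))) (by decide +kernel)
def c14060 : PP 9 3 T 0x1000400000000044000200000000000000000100040008000000000000000001000000010000000004000505004400000190010000000144005141401010 := rS 0xff2492d51f242bf76a8b578a1e60f (k8 c9739 c5325 c5651 c1243 c738 c14059 c13351 c13398 (k4 c5231 c5682 c5546 c5588 (k2 c2453 c13510 k0))) (by decide +kernel)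
def c14061 : PP 9 3 T 0x400000000004000201000000000000000000040008000000000000000000000000000000000000000000000000000110000000000000000000000010 := rS 0x47422d5f19211640da8a596b338edbda2513b5eb26f09a35e25d1a864723f0b8dc7a934fa6d331148a0d561f3988404010d834b23394344ecc5309d4cc95d864d0f9c (k8 c14044 c5373 c13455 c5234 c5446 c5664 c2005 c5445 (k8 c733 c5668 c2131 c14021 c5316 c2051 c5522 c5475 (k8 c12887 c5642 c265 c9719 c14056 c8138 c5525 c5374 (k8 c5371 c5447 c5397 c5448 c5444 c5436 c5435 c5433 (k8 c5318 c5317 c6205 c5324 c5321 c9695 c5381 c5564 (k8 c5565 c14022 c2187 c267 c1113 c14058 c14060 c5571 (k8 c5574 c5420 c5417 c8114 c13340 c737 c13744 c7824 (k4 c1656 c3026 c5778 c12681 k0)))))))) (by decide +kernel)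
def c14062 : PP 9 3 T 0x2000000000000020000000000000000000000000000008000000000000000001000000000000000000000000000000000000000000000000000050000000 := rS 0x2a446f30dbd5eefd (k8 c5542 c5498 c5477 c5475 c5325 c5409 c5531 c5816 k0) (by decide +kernel)
def c14063 : PP 9 3 T 0x2000400000000004000001000000000000000000040008000000000000000000000000000000000000000000000000000110000000000000000000000010 := rS 0x2bbdd1df18484a11acab56227659c76db578914b61949a7d079c0f9cd127d0b8f47e1d2c9d98a613a9992bb0c98ce50020086c53a1 (k8 c14061 c8199 c5475 c12887 c5642 c14021 c5316 c13455 (k8 c5234 c5446 c5664 c2005 c5445 c733 c5668 c2051 (k8 c263 c5318 c5436 c5433 c13946 c2058 c9719 c14056 (k8 c14044 c5525 c5448 c5444 c6205 c5474 c5326 c9695 (k8 c14062 c13755 c5571 c5420 c5570 c5421 c5573 c14052 (k8 c13761 c12632 c12617 c7824 c299 c5186 c8309 c5584 k0)))))) (by decide +kernel)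
def c14064 : PP 9 3 T 0x44000101000000000000000000000008000200000000000000000000000000000000000000000010800000000000000000000000000000 := rS 0x7f40f8c24d545b5d1b1d08fb886452e96f263f1e9646689 (k8 c2058 c5316 c2051 c5436 c5318 c13455 c5474 c5321 (k8 c5326 c5478 c5239 c9667 c5504 c5505 c5507 c5583 (k4 c5585 c12615 c6627 c938 (k2 c2917 c5670 k0)))) (by decide +kernel)
def c14065 : PP 9 3 T 0x1000400000000022000000000000000000000000000000000200000000000015000000010000000000000000000000000000000000000010000155000000 := rS 0x1eefd660e9529d118cc72171ba4d3699 (k8 c5447 c5397 c5444 c5435 c5433 c5317 c5316 c5409 (k4 c5412 c5531 c3578 c6899 (k2 c2504 c2071 (k1 c5816 k0)))) (by decide +kernel)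
def c14066 : PP 9 3 T 0x400000000082000101000000000000000000000008000200000000000000000000000000000000000000000000000000000000000000001010000000 := rS 0xaf8efb9abe320114663f0b8f5269f1489d62d765a58621b0ce4c6af1 (k8 c9695 c5324 c13455 c6205 c5475 c5476 c9240 c5420 (k8 c1767 c5421 c5570 c8199 c5448 c5444 c5436 c5433 (k8 c5318 c5316 c5326 c13340 c7824 c1656 c5186 c5778 (k2 c5584 c8309 k0)))) (by decide +kernel)
def c14067 : PP 9 3 T 0x400000000004000001000000000000000000040008000000000000000000000000000000000000000000000000000110000000000000000000000010 := rS 0x468404885daab4e3b6f68a7421d68a24b276109f58a750119802f11abccb61b7a864663f0b8f650614aec3268748834d68347aaf381f (k8 c14056 c14044 c8138 c5526 c5525 c5523 c5522 c5374 (k8 c5373 c13455 c5234 c5446 c5445 c14021 c5436 c5433 (k8 c5318 c5316 c6205 c5477 c5475 c5474 c5325 c5324 (k8 c9695 c12887 c5664 c5642 c2005 c733 c13946 c265 (k8 c5668 c2051 c2058 c2131 c263 c14061 c8199 c14063 (k8 c14064 c5571 c5573 c14065 c13398 c14066 c12632 c701 (k1 c13284 k0))))))) (by decide +kernel)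
def c14068 : PP 9 3 T 0x2000400000000020000001040000000000000000000000000200000100000000000000000100000004000510000405000204000000000000000000001000 := rS 0xc6548853a073b97c0017 (k8 c5433 c9744 c1054 c787 c5432 c5412 c5528 c5531 (k2 c10500 c14045 k0)) (by decide +kernel)
def c14069 : PP 9 3 T 0x2000400000000044000221000000000000000000040008000200000000000000000000000000000004000000000000000200000000000000000040000010 := rS 0x1d55ccc38ab47624106d4dbef7fb3d0b0168bdc8635798c5ea0f198e46e9331b2536954cec327113da1d220d3ca0d1e290188c008d89a256273 (k8 c5379 c1332 c5567 c5382 c5381 c9744 c9731 c9741 (k8 c9694 c5526 c5525 c5524 c5522 c5374 c5373 c5372 (k8 c5371 c13455 c5234 c5447 c5446 c5397 c5396 c5395 (k8 c5444 c5435 c5317 c5316 c9739 c5477 c5476 c5325 (k8 c5324 c5478 c5498 c5501 c5502 c5541 c5543 c5544 (k8 c8783 c832 c14068 c5650 c13667 c340 c2758 c2755 (k4 c3587 c5683 c1967 c13526 k0))))))) (by decide +kernel)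
def c14070 : PP 9 3 T 0x1000400000000026000220000000000000000000000008000200000000000000000000000000000000000000000000000200000000000000000041004000 := rS 0x1c6cff0b18746d10a746a390385c6e9331a6d33113d834f2290188c0113 (k8 c5382 c9744 c9731 c9741 c9694 c5524 c5522 c5372 (k8 c5371 c5447 c5397 c5395 c5444 c5435 c5433 c5432 (k8 c5317 c5324 c5412 c5528 c5529 c3578 c10500 c5456 (k2 c1646 c2619 (k1 c14047 k0))))) (by decide +kernel)
def c14071 : PP 9 3 T 0x400000000044000201040000000000000200000000000200000000000000000000000020000000000000000000100200000000000000000000000100 := rS 0x56fbd5e8a389f822571f81c7bb0001f56273 (k8 c5379 c1332 c5566 c9744 c5234 c5436 c5432 c5318 (k8 c5313 c5558 c9764 c667 c840 c13526 c5583 c2888 (k1 c5683 k0))) (by decide +kernel)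
def c14072 : PP 9 3 T 0x80000000000000040000000000000000000000100000008000000000000000040000000000000000102000000000000000000000000000000011200000000 := rS 0x3fa3aaf1311c8a49 (k8 c5588 c5326 c2423 c5651 c2986 c352 c12736 c2453 k0) (by decide +kernel)
def c14073 : PP 9 3 T 0x400000000044000221000000000000000000040008000200000000000000000000000000000004000000000000000200000000000000000040000010 := rS 0x457b8fcaf659c55a24f956412c43ab31a2cf1dbdd50fd106d7daf1218d5e6317a8641e331c8dd269f509852a99419dcc7b0c98a406232f8002e81379f56273 (k8 c5379 c1332 c5566 c5565 c5380 c5433 c9744 c1054 (k8 c9731 c9741 c9694 c13455 c5234 c5395 c787 c5525 (k8 c5447 c5446 c5445 c5398 c5448 c5444 c5435 c5317 (k8 c5316 c9739 c6205 c5477 c5476 c5325 c5324 c5478 (k8 c9695 c14069 c14070 c5650 c13351 c5682 c343 c340 (k8 c13265 c2024 c3587 c1967 c8354 c1627 c14071 c5231 (k8 c14072 c2758 c2755 c1090 c13526 c3599 c5683 c840 (k1 c5583 k0)))))))) (by decide +kernel)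
def c14074 : PP 9 3 T 0x2000000000000000000021000000000000000000000008000200000000000040000000004000000000000000000000400200000000000400000200004000 := rS 0x18e0905b10dacc42b446af318bd72657198e40e373d834f283 (k8 c5525 c5524 c5522 c5372 c5435 c5432 c5317 c5316 (k8 c5313 c13455 c5477 c5476 c5325 c5324 c5501 c5541 (k4 c3587 c832 c8354 c2416 (k2 c1627 c838 (k1 c3568 k0))))) (by decide +kernel)
def c14075 : PP 9 3 T 0x400000000004000221000000000000000000040008000200000000000000000000000000000004000000000000000200000000000000000040000010 := rS 0x1f3f7c7514d762785fecc547b59e49238edeed5f1bf4407eda89d67b6409cde2f3078cc723749a6622833b98f61931197c0017 (k8 c5433 c9744 c1054 c9731 c13455 c5234 c5395 c787 (k8 c5525 c5371 c5447 c5444 c5435 c5317 c5316 c9739 (k8 c5325 c9695 c5379 c5380 c14073 c5574 c5570 c8114 (k8 c10494 c5650 c13351 c5577 c2999 c343 c340 c2422 (k8 c344 c13265 c14074 c5682 c13811 c2452 c5537 c8354 (k4 c1765 c840 c5778 c5583 (k2 c12736 c5204 k0))))))) (by decide +kernel)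
def c14076 : PP 9 3 T 0x2000400000000000000021000000000000000000040008000200000000000000000000000100000004000514000000000204000000000000000040004000 := rS 0x7620dab3def93889ec1a79419dc4600 (k8 c9744 c9731 c787 c5525 c5524 c5522 c5372 c5371 (k4 c13455 c5498 c5543 c14068 (k2 c5650 c340 (k1 c14074 k0)))) (by decide +kernel)
def c14077 : PP 9 3 T 0x1001000000000046000101000000000000000000000008000200000000000000000000004080000000000000400004400000000000000000010000001002 := rS 0x12602f76f3859880621fcfbe33912c8ed26ac0daf1d08897dc4322bcdeb93198fc7a63 (k8 c5395 c5436 c5318 c5316 c13455 c5477 c5325 c5326 (k8 c5478 c5239 c9666 c9667 c5504 c5507 c5508 c5585 (k8 c13701 c13598 c12638 c11969 c6627 c2828 c806 c8433 (k8 c5670 c10805 c1716 c941 c2071 c2078 c2946 c5996 k0)))) (by decide +kernel)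
def c14078 : PP 9 3 T 0x1000400000000082000101040000000000000000000000000200001100000000000000001010000400000041400000401400000000000000011000000002 := rS 0x1fda4d7f71f625e3201bc323f0b8f5269f4a9c5962739ad55a74 (k8 c5668 c5573 c5422 c5419 c5570 c5420 c5571 c5446 (k8 c5448 c5444 c5436 c5433 c5318 c6205 c1060 c13340 (k8 c7824 c3604 c12625 c5186 c5507 c5892 c8369 c8433 k0))) (by decide +kernel)
def c14079 : PP 9 3 T 0x80000000000a0000000000000000000000100040000000000000000000000000000000000000000000400000000000000000001001800000000000000 := rS 0x25b8082e3 (k4 c1774 c5462 c6661 c562 (k1 c6188 k0)) (by decide +kernel)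
def c14080 : PP 9 3 T 0x1000400000000024000101000000000000000000040008000200000100000000000000000000000004000001400405000600000000000000000040001000 := rS 0x448fc6f692bdafeef1b8c92244bb418acdacab56a73659c76ccff0b1874b3549b443154e8d432390385c6e3d49a6d2a993b98f61931480c4600 (k8 c9744 c9731 c9741 c9694 c13455 c5234 c5395 c787 (k8 c5447 c5446 c5397 c5444 c5436 c5435 c5433 c5432 (k8 c5317 c6205 c5324 c5412 c5414 c5528 c5529 c5531 (k8 c5532 c3578 c10500 c5456 c1646 c14077 c5571 c5420 (k8 c5419 c5422 c5573 c14052 c14051 c839 c5688 c1708 (k8 c14078 c10629 c1774 c14079 c5186 c5507 c5584 c5892 (k4 c1225 c8433 c3604 c810 k0))))))) (by decide +kernel)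
def c14081 : PP 9 3 T 0x44000101000000000000000000000008000000000100000040000000000000000002000000000000000000000000000000000200001002 := rS 0x228722591dff038e8444bee (k8 c5239 c9666 c9667 c5504 c5508 c5586 c2423 c12638 (k2 c11969 c12271 (k1 c1290 k0))) (by decide +kernel)
def c14082 : PP 9 3 T 0x400000000082000100040000000000000000000000000200000000000000000000000020000000000000000000000200000000040000001000000100 := rS 0xfe8144a2c21e3200647e071ea4d3e290197c001738b2c4e73 (k8 c5419 c5570 c5420 c5571 c5433 c9744 c1054 c9741 (k8 c9694 c5448 c5444 c5436 c5432 c5318 c6205 c13340 (k4 c7824 c12636 c8305 c2749 (k2 c699 c840 (k1 c13603 k0))))) (by decide +kernel)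
def c14083 : PP 9 3 T 0x120000000000000000000000008000000000000014040000000000000000000000000020000000000000001400000000000000000 := rS 0x950308c74864579bd41a83 (k8 c5525 c5522 c5477 c5325 c5326 c5478 c12630 c2749 (k2 c1985 c3593 (k1 c12638 k0))) (by decide +kernel)
def c14084 : PP 9 3 T 0x400000000004000001000000000000000000040008000000000000000000000000000000000000000000000000000010000000000000000000000010 := rS 0x1f91681f1840fa6f4489202497f91d5a2759ed812c4663459e3b7baa1fa20dafb7425f119dc00680fbc48635798c5ea0f198e40e171bca1266364a6d2a99d864e227b48834d67941a3d579c (k8 c14044 c8138 c5526 c5525 c5524 c5523 c5522 c5374 (k8 c5372 c5371 c13455 c5234 c5447 c5446 c5397 c5396 (k8 c5395 c5444 c14021 c5435 c5433 c5432 c5317 c5316 (k8 c9739 c5477 c5476 c5325 c5324 c5478 c9695 c14056 (k8 c14067 c9744 c787 c9731 c1054 c14075 c14076 c14080 (k8 c5650 c13351 c5682 c343 c340 c13265 c2024 c3587 (k8 c8354 c1627 c14081 c5574 c5570 c5573 c2422 c2452 (k8 c344 c13274 c14082 c14083 c1226 c1634 c12972 c13779 (k4 c699 c8305 c5670 c840 k0))))))))) (by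 decide +kernel)
def c14085 : PP 9 3 T 0x400000000004000001000000000000000000000008000000000000000000000000000000000000000000000000000110000000000000000000000010 := rS 0x108fdf6965387610b14ea0233004baf32d86dea19078cc72171bca1269b30a5533b0c9a1c1a7941e70761f11bdc174a (k8 c14084 c5516 c5333 c5331 c5517 c5332 c14044 c5525 (k8 c5524 c5522 c5373 c13455 c5234 c5447 c5446 c5445 (k8 c5397 c5444 c14021 c5435 c5433 c5317 c5316 c9739 (k8 c6205 c5477 c5475 c5474 c5325 c5321 c12887 c5664 (k8 c5642 c2005 c733 c265 c5668 c3578 c2051 c11392 (k2 c13807 c3571 (k1 c736 k0))))))) (by decide +kernel)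
def c14086 : PP 9 3 T 0x2000000000000000000001000000000000000000000008000200000000000040000000000000000000000000000405400000000000000400000000005400 := rS 0xc704b1198cf42b446af318bd72657198e40e37 (k8 c5435 c5432 c5317 c5316 c5313 c13455 c5477 c5476 (k8 c5325 c5324 c5501 c5541 c5543 c3587 c8354 c1627 (k2 c838 c3568 k0))) (by decide +kernel)
def c14087 : PP 9 3 T 0x1000400000000004000001000000000000000000080008000200000000000000000000000010000004000000000400400000400000000000000100000000 := rS 0x12ecd3a0d5e6317a8cd9e9c1187c76934ca6f6019c98dc7217 (k8 c5433 c5317 c5435 c13455 c6205 c5234 c5397 c5447 (k8 c5444 c5332 c5517 c5331 c3578 c1651 c5316 c5477 (k4 c5476 c5325 c5324 c5668 (k2 c8354 c1528 (k1 c13742 k0))))) (by decide +kernel)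
def c14088 : PP 9 3 T 0x1000400000000004000001000000000000000000080008000200000000000000000000000010000004000000000400400000400000000000000000000000 := rS 0x7e0819af3198e46e3b7bed76193 (k8 c13455 c5234 c9578 c5333 c5332 c5435 c5317 c5316 (k4 c5325 c8354 c14087 c13811 (k1 c2550 k0))) (by decide +kernel)
def c14089 : PP 9 3 T 0x400000000004000001000000000000000000000008000000000000000000000000000000000000000000000000000010000000000000000000000010 := rS 0x31d0ad104b13da6d2f9dc0068da82dee3ba52ad067935834f711ce18f6035c983cae390385c6f28 (k8 c14021 c5435 c5433 c5432 c5317 c5313 c9739 c13455 (k8 c5324 c5234 c5395 c14044 c5371 c5372 c5522 c5523 (k8 c5524 c5525 c8138 c14084 c5332 c5333 c5516 c9578 (k8 c14085 c9744 c787 c1054 c665 c14086 c14088 c1627 (k4 c1706 c13680 c838 c3568 k0))))) (by decide +kernel)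
def c14090 : PP 9 3 T 0x2000000000000008000011000000000000000000000008000200000000000000000000000000000000000000000000400000000000000000000000000011 := rS 0x9364984f66305008b6f51981c2efd4aaa5562310ed3621d18a5c36191abc727e1 (k8 c6290 c13455 c9695 c5324 c6205 c5475 c5404 c5476 (k8 c5486 c9240 c5235 c5528 c9733 c5500 c5489 c5488 (k8 c5405 c5433 c5432 c5316 c5477 c5474 c5642 c10419 (k4 c9752 c690 c10425 c10162 (k2 c262 c3577 k0))))) (by decide +kernel)
def c14091 : PP 9 3 T 0x2000000000000008000011000000000000000000040008000200000000000000000000000000000000000000000000400000000000000000000000000010 := rS 0x7863b30767b31030c25f003cdea0f198e40e3788bdd0eab68a159e6d0f6d362314b86c3235c9f843af1 (k8 c9695 c5486 c6290 c13455 c5324 c6205 c5475 c5404 (k8 c5476 c9240 c5235 c14062 c5529 c5543 c5541 c5501 (k8 c5500 c5499 c5498 c9727 c5435 c5432 c5317 c5316 (k8 c9739 c5477 c5325 c14090 c10372 c661 c11709 c5663 (k4 c888 c290 c3587 c2480 (k2 c10247 c2386 k0)))))) (by decide +kernel)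
def c14092 : PP 9 3 T 0x8000000040000000000000000000000000000000000000001000000000000000000000000000000000011000000000015000004400008 := rS 0x32526630ca5c3a95 (k8 c5488 c5486 c5404 c6205 c9752 c262 c10171 c3577 k0) (by decide +kernel)
def c14093 : PP 9 3 T 0x1400000000048000000000000000000000000000008000200000000000000000140400000000000000804000000000000000001400400011080000000 := rS 0x23ad5507cfc6e22092c663f (k8 c5318 c5316 c2591 c13854 c6010 c5466 c5549 c2622 (k2 c10334 c5778 (k1 c11581 k0))) (by decide +kernel)
def c14094 : PP 9 3 T 0x1400000000048000000000000000000000000000008000200000000000001000140400000000000000804110000844010000001400400010081000010 := rS 0xa1f1b4da87e4527ce2b1123206a1b188cc2e3d56abcd2970e99d2ac5 (k8 c127 c5488 c5487 c5486 c5404 c5403 c5406 c5490 (k8 c5436 c5433 c5316 c5476 c5475 c5324 c3577 c14093 (k8 c1092 c2755 c2756 c3602 c790 c791 c2939 c5577 (k2 c3000 c10123 k0)))) (by decide +kernel)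
def c14095 : PP 9 3 T 0x4000000000041000000000000000000000000000000000200000000000000000140000400000000000108000000000000000005400400008000000000 := rS 0x82a11c8fc6e3d (k4 c5436 c5435 c5318 c5317 (k2 c2927 c350 (k1 c11678 k0))) (by decide +kernel)
def c14096 : PP 9 3 T 0x4000000000049000000000000000000000000000008000200000000000000000140400400000000000108000000000000000005400400011000000000 := rS 0x20a86b0b0138e46e3d (k8 c5436 c5435 c5317 c14095 c12176 c5651 c1198 c5340 (k1 c11678 k0)) (by decide +kernel)
def c14097 : PP 9 3 T 0x49000000000000000000000000000008000200000000000000000140400400000000000108000000000000000001400400011080000000 := rS 0x71907c44b1c8fc6e3d (k8 c5436 c5435 c5318 c5317 c2591 c14096 c5462 c5466 (k1 c3590 k0)) (by decide +kernel)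
def c14098 : PP 9 3 T 0x1400000000048000210040000000000000000000008000200000000000001000000400000000000000000000006800010000000000000000080002010 := rS 0xa1f1b50fc8a4f9c562244937c8ee124a3d127d3784d1a731eab55e694ced052c71c8ed34cb3117c00033085c6667d887462970d8646a6a (k8 c2361 c5324 c6205 c5475 c5404 c5476 c5486 c9240 (k8 c5487 c5316 c5433 c724 c14092 c5642 c10372 c11141 (k8 c4103 c1173 c290 c5317 c2480 c9694 c5235 c5530 (k8 c5403 c5406 c5490 c5436 c5379 c5381 c5564 c5565 (k8 c5566 c5567 c5568 c293 c10249 c2367 c2387 c14094 (k8 c14097 c1092 c2755 c2756 c3602 c790 c791 c5577 (k2 c3000 c5680 k0))))))) (by decide +kernel)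
def c14099 : PP 9 3 T 0x2000400000000000000011000000000000000000040008000000000000000000000000000000000000000000000000000010000000000000000000000010 := rS 0xe124fcd231d3911dbee3ac047c425d0b5d04cc3c0ed8e0b31030be00019ecb2613b6dc3c6dda08cbaf32dbd41e331c85c6e67d88746297d906c33931abc622f743aada28567bffc328 (k8 c14021 c6290 c5544 c5543 c5541 c5501 c5500 c5499 (k8 c5498 c9727 c9695 c5324 c13455 c6205 c5475 c14089 (k8 c5404 c5476 c5486 c9240 c5487 c5435 c5433 c5317 (k8 c5316 c9739 c5477 c5474 c5325 c5321 c9733 c5235 (k8 c5529 c14062 c7811 c14091 c724 c2051 c889 c14092 (k8 c5642 c10372 c11709 c11141 c34 c2480 c290 c10247 (k8 c3587 c14036 c4533 c14098 c13900 c5236 c9667 c5212 (k8 c5466 c5580 c2368 c11969 c5341 c9824 c12708 c294 (k2 c1542 c10335 k0))))))))) (by decide +kernel)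
def c14100 : PP 9 3 T 0x1400000000019000001000000000000000000000008000000000000000040000000014000000000000400000004400010000000000144000000400008 := rS 0x74936682530c44e9d4c0f11abcc36317ae4d2aa9 (k8 c5489 c5488 c13455 c5477 c5476 c5475 c5325 c5324 (k8 c9695 c14092 c1575 c1696 c5668 c5679 c1627 c2440 (k2 c261 c3587 (k1 c1591 k0)))) (by decide +kernel)
def c14101 : PP 9 3 T 0x1000000040000000000000000000000000200000000000054000000014000000001000000000000002000000000000011000000000002 := rS 0x334769831184be23198e40e37 (k8 c5435 c5432 c5317 c5316 c9731 c10372 c661 c5663 (k4 c780 c1592 c2440 c3587 k0)) (by decide +kernel)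
def c14102 : PP 9 3 T 0x2000400000000000000001000000000000000000040008000000000000000000000000000000000000000000000000000010000000000000000000000010 := rS 0x178ec6031808029b0fed4d883359ef39e167a15a2ab43bdde6f5198e42e3734bf4cea9d88746297d906c3393940d5e311 (k8 c9727 c9695 c5324 c14021 c13455 c6205 c5475 c14089 (k8 c5404 c5476 c5486 c9240 c5489 c5487 c5405 c5403 (k8 c5435 c5433 c5317 c5316 c5477 c5325 c5498 c5499 (k8 c5500 c5501 c5541 c5543 c6290 c14099 c5372 c5523 (k8 c5525 c3601 c8112 c2316 c7393 c14101 c5642 c9752 (k4 c14092 c14100 c11141 c62 k0)))))) (by decide +kernel)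
def c14103 : PP 9 3 T 0x400000000000000011000000000000000000040008000000000000000000000000000000000000000000000000400010000000000000000000000011 := rS 0x3101075491803e02788d436310c83c66390b8de50fd4aec8469d10a67683b4df83db93 (k8 c13455 c14102 c5185 c5536 c5456 c5211 c5530 c5528 (k8 c5412 c9733 c14089 c5488 c5405 c14021 c5435 c5433 (k8 c5317 c5316 c9739 c6205 c5476 c5475 c5324 c9695 (k8 c5642 c11726 c14092 c3578 c1575 c261 c5668 c1627 k0)))) (by decide +kernel)
def c14104 : PP 9 3 T 0x2000000000008000010000000000000000000040000000000000000000004000000000000000000000000000000200010000000000040000000004000 := rS 0x3416843c33992977ea5552ab4ced1a29b (k8 c5536 c5459 c5211 c5530 c5413 c5489 c5488 c5405 (k8 c5404 c1965 c8772 c1530 c1531 c2307 c2540 c5645 k0)) (by decide +kernel)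
def c14105 : PP 9 3 T 0x400000000000000011000000000000000000040008000000000000000000000000000000000000000000000000400010000000000000000000000010 := rS 0x31984bec40001cd3b10e8c52e1b0c8d5e275f07b727b21bca01ef3 (k8 c5325 c9739 c14021 c5435 c14089 c13455 c14102 c5185 (k8 c14104 c9695 c5324 c6205 c5475 c5404 c5476 c5486 (k8 c9240 c5403 c5432 c14103 c5668 c10372 c661 c837 (k1 c5663 k0)))) (by decide +kernel)
def c14106 : PP 9 3 T 0x400000000000000011000000000000000000040008000000000000000000000000000000000000000000000000000010000000000000000000000010 := rS 0x623517c3c007b83006862c984ec9bf06d046f32dbd41e330bbf4cea9d88746297d906c3393940d5e3ed (k8 c14102 c9695 c5324 c14021 c13455 c6205 c5475 c14089 (k8 c5404 c5476 c5486 c9240 c5489 c5487 c5405 c5433 (k8 c5316 c9739 c5477 c5474 c5325 c9733 c5211 c5185 (k8 c5536 c14105 c724 c2051 c13987 c14092 c8435 c9904 (k4 c5642 c5816 c10372 c2361 (k2 c11141 c1173 k0)))))) (by decide +kernel)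
def c14107 : PP 9 3 T 0x1000400000000029000000000000000000000000000008000200000000000000000000010020000000001004000004000000000000000000000141000000 := rS 0xcff0a6876cd7b2644635198e42efd (k8 c5405 c5433 c5317 c5316 c5324 c5409 c5530 c7262 (k4 c2071 c6899 c6193 c5536 (k2 c2562 c10805 k0))) (by decide +kernel)
def c14108 : PP 9 3 T 0x48000200000000000000000000000008000200000000000000000000000420000000000000000000000000000000000000015000000000 := rS 0x1f9a7585815c7e071e8246a7d (k8 c5566 c5324 c1627 c5436 c5432 c5318 c5313 c12176 (k4 c5651 c2086 c9764 c841 k0)) (by decide +kernel)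
def c14109 : PP 9 3 T 0x80000000000000000000020000000000000000000000000000000000400000000000040000040000000000000000150000000000000000000000000000000 := rS 0x1c2e33da44f28f (k4 c5526 c5524 c5374 c5372 (k2 c5549 c5591 (k1 c3610 k0))) (by decide +kernel)
def c14110 : PP 9 3 T 0x18000220000000000000000000040008000200000000000000000000000060000000000200000000000002000000000000000001000008 := rS 0x7cdbe7f50d64502513b2cfa6f09c4d03b7498246a17 (k8 c5433 c5324 c1627 c261 c7843 c5380 c5382 c5564 (k8 c5565 c5566 c1755 c267 c1113 c14108 c5339 c1195 (k4 c729 c2443 c14109 c5231 k0))) (by decide +kernel)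
def c14111 : PP 9 3 T 0x4008000000000000000001000000000000000000000008000200100000000000000000000000000000000000100050000000000000000000000000010100 := rS 0x491245c98f502d7 (k8 c5465 c5463 c5436 c13455 c5326 c8328 c12668 c8818 k0) (by decide +kernel)
def c14112 : PP 9 3 T 0x8000101000000000000000000000008000200000000000000000000000020000000000000000000000002000000000000000000000011 := rS 0x1106e3e7bd1b1d69a04827fac047c42514abf621d18a5c3619c9bc76e93048d40417 (k8 c5433 c5642 c5324 c1627 c261 c7843 c9695 c13455 (k8 c6205 c5475 c5404 c5476 c5486 c9240 c5406 c8199 (k8 c13900 c5236 c9667 c5212 c10398 c13854 c5463 c5579 (k4 c5341 c947 c6923 c14111 (k2 c1580 c1634 (k1 c8124 k0)))))) (by decide +kernel)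
def c14113 : PP 9 3 T 0x400000000000000001000000000000000000040008000000000000000000000000000000000000000000000000400010000000000000000000000011 := rS 0x1ffe4a1acb7c51e01289d96993e9bc271340e818e9bdaedd2609623453a753007c4202078cc2efd4aec43a314bec83619c9ca06af1f69ec1b9c (k8 c14106 c5522 c5372 c14102 c9695 c5324 c14021 c13455 (k8 c6205 c5475 c14089 c5404 c5476 c5486 c9240 c5488 (k8 c5405 c5433 c5316 c9739 c5642 c265 c11726 c14092 (k8 c1575 c1696 c10484 c5668 c1627 c261 c7843 c14107 (k8 c7393 c727 c14112 c5380 c5382 c5564 c5565 c5566 (k8 c14110 c1755 c267 c1113 c5679 c14108 c5538 c5339 (k4 c1195 c5231 c729 c14109 k0))))))) (by decide +kernel)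
def c14114 : PP 9 3 T 0x1001400000000049000000000000000000000000000008000200000000000000000000120400000000000000000000000000000000000000008000000000 := rS 0xf11063aa1198fc7a1d (k8 c5486 c5436 c5318 c5316 c2927 c351 c350 c11704 (k1 c13617 k0)) (by decide +kernel)
def c14115 : PP 9 3 T 0x49000100040000000000000000000008000200000000000000000000000000000000000000000000600000000000000000000000000002 := rS 0x8b6a474e47f6ba04835808f884a43198fc7a69 (k8 c5403 c5436 c5318 c5316 c5478 c13900 c5236 c9667 (k8 c5212 c5462 c5463 c5465 c5577 c11969 c5341 c8423 (k2 c855 c1533 k0))) (by decide +kernel)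
def c14116 : PP 9 3 T 0x1000400000000040000020000000000000000000040008000000001400041000000000140000000050000000110000045150000000405004004080000002 := rS 0x451296249127ceb2f30dc45226b478a44671 (k8 c668 c9731 c9693 c5526 c5523 c5374 c9727 c5475 (k8 c5325 c13966 c12200 c5651 c10038 c1092 c5660 c3602 (k1 c12080 k0))) (by decide +kernel)
def c14117 : PP 9 3 T 0x1000400000000029000020040000000000000000040008000200000000000000000000001000000000000000000000600010000000000000000000004002 := rS 0x8e907e7580fbfd687113b4dab036591d127d37c4d1a73d03436fe1422dd669936c5556331f8f55aaf34a5dfa674aaa50e9135a0c529d3117cc20788b259e79 (k8 c5524 c1530 c1965 c9727 c5432 c661 c10372 c5663 (k8 c1274 c9693 c5525 c5523 c5374 c5373 c5489 c5488 (k8 c5487 c5405 c5404 c5403 c5406 c5490 c5436 c5318 (k8 c5316 c5413 c5414 c5529 c5530 c5532 c5533 c8112 (k8 c13449 c8057 c5688 c14115 c5379 c5381 c5382 c5565 (k8 c5566 c5567 c12800 c1322 c2629 c1532 c1969 c14114 (k8 c668 c13067 c2572 c14116 c13524 c5548 c5340 c5341 (k1 c13568 k0)))))))) (by decide +kernel)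
def c14118 : PP 9 3 T 0x1001400000000059000020000000000000000100040008000200000000000000000000120400000000000000000000045000000000000000000080000002 := rS 0x3e427 (k2 c14114 c5231 (k1 c12200 k0)) (by decide +kernel)
def c14119 : PP 9 3 T 0x1001400000000019000220000000000000000000040008000200000000000000000000020000000000000000000000200008000000000000000080000012 := rS 0x2d44eb338edab2d36ac0d96893e9be2673198fc7afd489ad1e23422ac1a8788a0cda1b (k8 c5475 c2316 c5525 c9727 c5373 c5522 c1084 c11588 (k8 c9731 c5526 c5523 c5374 c5405 c5436 c5318 c5316 (k8 c5379 c5382 c5565 c5566 c5567 c1322 c2629 c1532 (k8 c1969 c13966 c14118 c5571 c5574 c5570 c5422 c13749 k0)))) (by decide +kernel)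
def c14120 : PP 9 3 T 0x1000400000000018000021000000000000000000040008000200000000000000000000000100000000000000000000400000000000000000000080000012 := rS 0x119ef08c716a73599c76da16878532ab1bbf52aa9358a53b1166a0d9e7462988bfb10e8c52e1b0c8d5e261039a72679 (k8 c5524 c13455 c5403 c5432 c661 c9695 c5324 c6205 (k8 c5475 c5404 c5476 c5486 c9240 c10372 c5663 c837 (k8 c5668 c1530 c5525 c8354 c9727 c1274 c9693 c5523 (k8 c5489 c5488 c5405 c5435 c1084 c2317 c13449 c5688 (k8 c14119 c14115 c5571 c5574 c5419 c5422 c13933 c13353 (k2 c5504 c13277 (k1 c10894 k0))))))) (by decide +kernel)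
def c14121 : PP 9 3 T 0x400000000000000001000000000000000000040008000000000000000000000000000000000000000000000000400010000000000000000000000010 := rS 0x99f0b4076f74d8803fb567b259a7462a74c4612f88c00f37a83c6639038dcd295d88746297d906c3393940d5e311f69e5079c (k8 c14106 c5525 c5524 c14102 c9727 c9695 c5324 c14021 (k8 c13455 c6205 c5475 c14089 c5404 c5476 c5486 c9240 (k8 c5488 c5403 c5435 c5432 c5317 c5316 c9739 c5477 (k8 c5325 c14113 c9731 c10372 c661 c5663 c1274 c837 (k8 c5668 c8354 c1965 c1530 c14117 c14120 c5650 c7393 (k4 c8123 c341 c3587 c5459 (k2 c1595 c5679 k0))))))) (by decide +kernel)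
def c14122 : PP 9 3 T 0x1000000000000020000200000000000000000200000008000000000000041000000000000000000000000001000000000400010000000000000000000002 := rS 0x7ffce03ef5a228e21122974b6b339a342689 (k8 c5567 c5564 c5381 c5379 c5532 c5474 c5321 c5326 (k8 c5558 c667 c8187 c13067 c5583 c3068 c5548 c2572 (k1 c5694 k0))) (by decide +kernel)
def c14123 : PP 9 3 T 0x41000000000000000000000000000000000200000000000000000040000400000000000109000000020008000004400400008000000002 := rS 0x4970f8c207e (k4 c781 c667 c5577 c3058 (k2 c3026 c14095 k0)) (by decide +kernel)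
def c14124 : PP 9 3 T 0x1000000000061000200000000000000000000000008000200100000000000000440000000000000000009000000800408000004400400008000000002 := rS 0x7f457cc22b438974b2334cacd9673 (k8 c5379 c1322 c5532 c5530 c5316 c2051 c5321 c14123 (k4 c13067 c2858 c5548 c12681 (k2 c10493 c790 k0))) (by decide +kernel)
def c14125 : PP 9 3 T 0x41000000000000000000000000000000000000000000000000000080000400000400010000000000000000000000000000000000000000 := rS 0x13fe3 (k2 c5580 c2884 (k1 c5680 k0)) (by decide +kernel)
def c14126 : PP 9 3 T 0x200000000000000000440000000000000000001000000020008000004410400000000000002 := rS 0x92e1081f87e3d (k4 c5436 c5318 c781 c667 (k2 c3058 c3026 (k1 c5985 k0))) (by decide +kernel)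
def c14127 : PP 9 3 T 0x1000000000061000200000000000000000100000008000200000000000000000400000000000000000001000000800408000000400400011090000002 := rS 0x1fd15f308ad0e2df20c754226259747e5919acd9673 (k8 c5379 c1322 c5532 c5316 c2051 c5318 c5321 c2591 (k8 c5651 c2927 c351 c350 c14125 c14126 c13067 c2858 (k4 c5548 c12681 c10493 c790 k0))) (by decide +kernel)
def c14128 : PP 9 3 T 0x1000000000000061000220000000000000000000040008000200000000041000000000000080000050000000000000800150000000000400010090000012 := rS 0x948af99c5624913892b2e323a24df13469cde61b07c45226b2c8ccc45f8a9b567e1 (k8 c5535 c5532 c5529 c5414 c10372 c11141 c5316 c2051 (k8 c5523 c5374 c9727 c9739 c5475 c5325 c5379 c5381 (k8 c5382 c5565 c5567 c12800 c2619 c14122 c14127 c60 (k4 c10629 c1092 c2755 c12200 (k2 c3602 c5660 (k1 c12080 k0)))))) (by decide +kernel)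
def c14129 : PP 9 3 T 0x1000000000000041000101000000000000000000000008000200000000040000000000008000000000000000404000800000000000000400000000000000 := rS 0x125c301467bd128b23b7da67f20d6023e222e4c7237 (k8 c5435 c5317 c13455 c5326 c5236 c9667 c5212 c5462 (k8 c5577 c5579 c5580 c13598 c790 c2057 c6923 c5673 (k4 c2141 c1653 c13257 c11685 k0))) (by decide +kernel)
def c14130 : PP 9 3 T 0x400000000020000001000000000000000000040008000000000000000000000000000000000000000000000000000010000000000000000000000010 := rS 0x6f47496a149099c6cb0fd648f1339e83c29b818ed8cce66edd08b759a64da218a83c723f1bab55e697eaa7da9135a0d1ec52cb450f9c1488d3a622f80006610b8cccfb10e8c52fb20d86727281abc4ed11 (k8 c9727 c14121 c9695 c5324 c14021 c13455 c6205 c5475 (k8 c14089 c5404 c5476 c5486 c9240 c5487 c5316 c5433 (k8 c724 c14092 c5642 c10372 c11141 c1274 c9731 c9694 (k8 c14106 c5373 c2131 c2051 c127 c5526 c5525 c5523 (k8 c5374 c14102 c5489 c5405 c5403 c5406 c5490 c5435 (k8 c5318 c5317 c9739 c5414 c5528 c5529 c5530 c5532 (k8 c5533 c8112 c8057 c2503 c789 c788 c6899 c4751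 (k8 c2562 c5535 c14129 c5379 c5382 c12800 c14122 c14128 (k8 c1322 c2619 c13524 c3578 c2927 c353 c351 c14124 (k1 c14125 k0)))))))))) (by decide +kernel)
def c14131 : PP 9 3 T 0x19000000000000000000000000000000000000000100000000000000000000000000000000004400800000000000000040000084001012 := rS 0x1e14db199c844c9b556fd4e988be67 (k8 c5487 c10372 c11141 c1274 c5405 c1084 c2316 c2317 (k4 c11588 c789 c788 c2562 (k2 c5535 c5679 k0))) (by decide +kernel)
def c14132 : PP 9 3 T 0x8000000000000000040000000008000000000000000005400000008010000000000000200005000 := rS 0x1b18e0a2ebccb6f5 (k8 c5477 c5474 c5325 c5321 c3571 c2560 c2416 c779 k0) (by decide +kernel)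
def c14133 : PP 9 3 T 0x49000200000000000000000200000008000000000000000000000000000000000000000000000000800000010000004000010000000002 := rS 0x9ff19f9428a38c7422252eb2ce6622f99dae8d (k8 c5381 c2187 c5487 c10372 c11141 c5379 c1322 c5321 (k8 c5559 c5558 c5341 c667 c12681 c11581 c790 c5577 (k2 c2880 c5680 k0))) (by decide +kernel)
def c14134 : PP 9 3 T 0x40000000000000000000000100000000000200000000000000000500000400000000000200000000000000000005000400011200000000 := rS 0x37c82a11311c7e3d (k8 c5436 c5318 c2423 c5651 c2927 c350 c2443 c5985 k0) (by decide +kernel)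
def c14135 : PP 9 3 T 0x41000000000000000000000000000000000000000000000000000000000400000050000000110000844150000000001000002004000010 := rS 0x50f8da87e4527ce2b1 (k8 c1092 c2755 c2756 c3602 c790 c791 c5577 c3000 (k1 c5680 k0)) (by decide +kernel)
def c14136 : PP 9 3 T 0x59000200000000000000000000040008000200000000000000000000000000000000000400000000800010000000000000010200000012 := rS 0x6f78082991311dc64b12b8493f2ac86c7e3d56abcd259198ed3b11469bd12cb39988be67 (k8 c5487 c10372 c11141 c5379 c1322 c5567 c5565 c5381 (k8 c9727 c1274 c341 c5316 c2051 c5403 c5406 c5490 (k8 c5436 c5318 c5475 c14133 c5231 c5588 c5591 c14135 (k8 c5546 c5549 c2423 c5651 c14134 c350 c5679 c5985 (k1 c5538 k0))))) (by decide +kernel)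
def c14137 : PP 9 3 T 0x1000400000000019000220000000000000000000040008000200000000000000000000000000000000000000000000800010000000000000010000000012 := rS 0x1e1f9ba71725f1fd349a93f7be2f1bdca2a39675b2c57ab338edb1a8937c9d1a7356abcd267bde2440234d87d060d43c446e1b (k8 c5475 c5435 c9727 c5373 c5522 c5525 c14131 c7393 (k8 c9731 c5650 c5527 c5375 c5487 c5403 c5406 c5490 (k8 c5379 c5381 c5383 c5565 c5567 c5569 c14136 c5571 (k8 c5574 c5575 c5421 c8057 c7805 c13933 c3602 c5616 (k8 c2469 c3303 c5504 c790 c3954 c5213 c5232 c5577 (k4 c5391 c5390 c5555 c8076 (k2 c13922 c5204 k0))))))) (by decide +kernel)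
def c14138 : PP 9 3 T 0x51000100040000000000000000000000000200000100000000000000000000000000001000000000000000000000000000001200001002 := rS 0xb3f9b8093155a9c896df20d6023e21c8dc7647 (k8 c2423 c341 c5435 c5317 c5236 c9667 c5212 c5462 (k8 c5580 c12638 c11969 c2608 c1290 c345 c11685 c5591 (k2 c2899 c5685 k0))) (by decide +kernel)
def c14139 : PP 9 3 T 0x400000000000000001000000000000000000040008000000000000000000000000000000000000000000000000000010000000000000000000000010 := rS 0x8b469fc21e209a27df598e1cf6c25d08803fb54e988be23000a40659309d9060d43e73db112d8cc2e3733ec43a314bec83619c9ca06af1 (k8 c9695 c5324 c14021 c13455 c6205 c5475 c14089 c5404 (k8 c5476 c5486 c9240 c5487 c5435 c5433 c5316 c5474 (k8 c9727 c14102 c14106 c5373 c5522 c5525 c14121 c724 (k8 c2051 c14092 c9694 c5642 c9731 c10372 c11141 c1274 (k8 c14130 c14131 c5650 c14137 c13900 c14138 c5419 c13933 (k8 c13898 c5504 c12630 c299 c5186 c12617 c5577 c701 (k2 c790 c5673 k0))))))) (by decide +kernel)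
def c14140 : PP 9 3 T 0x8000000000100001041000000008000000001000000000800000000000000000000000450000008 := rS 0x406d55bcc36f5 (k4 c5477 c5475 c5325 c1974 (k2 c4639 c3581 (k1 c266 k0))) (by decide +kernel)
def c14141 : PP 9 3 T 0x18000011000000000000000000000008000200000000000040000000000020000000000000000000400000000000000400000440000411 := rS 0x1a794220d9c87669ed8ed1f6f81e6f50795c72071bbf553b188b212609010cc2ef14a8d433934b8743631 (k8 c5476 c5475 c5486 c5404 c13455 c6205 c5324 c5488 (k8 c9695 c5433 c5316 c5642 c1627 c261 c3577 c9730 (k8 c9240 c5489 c5405 c5435 c5432 c5317 c5313 c9739 (k8 c5477 c5325 c5235 c14090 c9610 c5535 c5457 c5537 (k4 c898 c3587 c14140 c5672 (k2 c1632 c2540 (k1 c3568 k0))))))) (by decide +kernel)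
def c14142 : PP 9 3 T 0x400000000000000001000000000000000000000008000000000000000000000000000000000000000000000000400010000000000000000000000011 := rS 0xab10b45340d3de7012c43a97cc063013cdea0f2b8cc2e9554ec462970d86727281a8ec3ef705ed43a23a53f764f1 (k8 c9695 c14089 c5405 c14139 c5331 c5486 c12546 c5516 (k8 c5333 c5517 c5332 c5324 c14021 c13455 c6205 c5475 (k8 c5404 c5476 c9240 c5489 c5488 c5433 c5316 c5313 (k8 c9739 c5477 c5325 c5642 c9752 c14092 c62 c1575 (k8 c5668 c1627 c14141 c5372 c5522 c9123 c1706 c265 (k2 c1190 c3581 k0)))))) (by decide +kernel)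
def c14143 : PP 9 3 T 0x11000010040000000000000000000000000200000000000054000000000000000000000000000000200500000000000411000000000002 := rS 0xce42b35a310f00cc7237 (k8 c5435 c5317 c5316 c5235 c8158 c5459 c5537 c845 (k2 c3587 c1531 k0)) (by decide +kernel)
def c14144 : PP 9 3 T 0x400000000000000001000000000000000000000008000000000000000000000000000000000000000000000000400010000000000000000000000010 := rS 0x87c2d04cb359e833ce713a92649d18a6235984be0079bd466390385c6e694aaa762314b86c3393940d4761f7bed43a23a53f764f1 (k8 c9695 c14089 c5405 c14139 c5331 c5486 c12546 c5333 (k8 c5517 c5332 c5324 c14021 c13455 c6205 c5475 c5404 (k8 c5476 c9240 c5489 c5488 c5403 c5435 c5433 c5432 (k8 c5317 c5316 c5477 c5325 c14142 c10372 c661 c1058 (k8 c5663 c837 c5668 c1965 c3577 c1694 c14143 c5524 (k8 c5525 c1530 c8354 c12030 c3587 c5459 c6455 c8250 k0)))))) (by decide +kernel)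
def c14145 : PP 9 3 T 0x2000000000049000200000000000000000000080008000000000000000000000000000000001000000000000000800010010000005100010000000012 := rS 0x9ff1b889641508984b590dab55e691d91dc2df469bd12cb39988be67 (k8 c5487 c10372 c11141 c5379 c1322 c5567 c5565 c5381 (k8 c5538 c5460 c5520 c5332 c5403 c5406 c5490 c5475 (k8 c14133 c14135 c5651 c2927 c350 c354 c5258 c5466 (k2 c1608 c5680 k0)))) (by decide +kernel)
def c14146 : PP 9 3 T 0x1002000000000019000200000000000000000000080008000000000200040000000000008000000000000000000000800010010000005100010000000012 := rS 0x82e36a407de8a8e2c4e3b66bad5126f469cc6af356abcd21d3387dc2df (k8 c5538 c5460 c5517 c5487 c5486 c5403 c5406 c5490 (k8 c5325 c5324 c5379 c5381 c5565 c5567 c1340 c2187 (k8 c14145 c5571 c5421 c13933 c3602 c5504 c10477 c791 (k2 c13843 c1656 (k1 c13990 k0))))) (by decide +kernel)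
def c14147 : PP 9 3 T 0x400000000000000011000000000000000000000008000000000000000000000000000000000000000000000000000010000000000000000000000010 := rS 0x78fde4080b8c97f2d0c0d0ccef6b7d9ae168c43c04322bcdea391f8dc7bb14b86476f723ed43a237e964526b0000cc27633ec82e339464c621b1abc43f4a (k8 c14139 c5517 c9695 c5324 c5475 c5476 c13455 c14021 (k8 c5316 c5433 c14089 c5487 c14144 c724 c14092 c5642 (k8 c1058 c9694 c2051 c5405 c5331 c5486 c12546 c5520 (k8 c5333 c5332 c6205 c5404 c9240 c5436 c5435 c5318 (k8 c5317 c5477 c5325 c5326 c5478 c5235 c8158 c5459 (k8 c5460 c5537 c5538 c6290 c3587 c13987 c10690 c14146 (k8 c12122 c5546 c5549 c5592 c9944 c9072 c5462 c5186 k0))))))) (by decide +kernel)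
def c14148 : PP 9 3 T 0x400000000000000001000000000000000000000008000000000000000000000000000000000000000000000000000010000000000000000000000010 := rS 0x99f0a6d8cce42275060d43c4738623697c00032c984edb505bdc474ad899c3afd4bec9e25d1abccb61b18bd43393078cc2f28 (k8 c14021 c5433 c5316 c9739 c13455 c6205 c5477 c5476 (k8 c5475 c5474 c5325 c5324 c5321 c9695 c14089 c5404 (k8 c5405 c5486 c5487 c9240 c14139 c5331 c5333 c5516 (k8 c12546 c14144 c724 c2051 c14092 c5642 c10372 c665 (k8 c11141 c14147 c5371 c5373 c5522 c5525 c1274 c3571 (k4 c789 c788 c2562 c5535 (k2 c2438 c5679 k0))))))) (by decide +kernel)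
def c14149 : PP 9 3 T 0x62000000000000000000000000000000000200000000000000000400000000000000000000000000000000000001400000015041000000 := rS 0x70f8dbff3652d0823f1ea7d431559f84742310a4d329d4d8dc7217 (k8 c5433 c5317 c5435 c5397 c5412 c5447 c5444 c5528 (k8 c5409 c3578 c5456 c5532 c5414 c5398 c5448 c5436 (k8 c5318 c13854 c12753 c3579 c5548 c2514 c5464 c1718 (k1 c5691 k0)))) (by decide +kernel)
def c14150 : PP 9 3 T 0x22000200000000000000000000000000000200000000000000000400000000000000000000000008040000400001400000015041000000 := rS 0x1bc4a3f2d76c3911c5442b3 (k8 c5532 c5528 c5414 c5409 c5317 c14149 c5422 c10494 (k2 c3584 c892 (k1 c2510 k0))) (by decide +kernel)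
def c14151 : PP 9 3 T 0x22000200000000000000000000040000000200000000000001000000140010000000000000000010440080400000000000000061002008 := rS 0x25fcdbc903f35d16ac57d6450471289c928f449bc268d409d52ae33d020742310a4d329d4d8dc7217 (k8 c5433 c5317 c5435 c5397 c5412 c5447 c5444 c5528 (k8 c5409 c3578 c289 c290 c4303 c5446 c2005 c5380 (k8 c5381 c5564 c5565 c5567 c5568 c293 c267 c1113 (k8 c2367 c14150 c5339 c1243 c539 c738 c2032 c3608 (k4 c891 c892 c5589 c2510 (k1 c5660 k0)))))) (by decide +kernel)
def c14152 : PP 9 3 T 0x46000101000000000000000000000008000000000000000000000000040000000000000000000000000000000000004004000000000000 := rS 0x97dc29 (k4 c8199 c5239 c9666 c13701 k0) (by decide +kernel)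
def c14153 : PP 9 3 T 0x1000000000000026000011000000000000000000040008000200000000000000000000140010000000000040000000400010000000000000000000004009 := rS 0x8c087bd128bacab59671db0a7425f3cf84741f6382c18862d8cc723739a4d36990e0c43619c98d5e27d0b8f47e234e8850a6d41aa4cc69 (k8 c9744 c5664 c5531 c2007 c5529 c5871 c5528 c5412 (k8 c5409 c5318 c5436 c5433 c13946 c9695 c5324 c13455 (k8 c6205 c5475 c5476 c9240 c5447 c5397 c5444 c9719 (k8 c5435 c5317 c5316 c5474 c5672 c13492 c12749 c798 (k8 c2362 c3578 c5456 c1536 c10245 c14151 c8199 c14152 (k8 c5571 c5420 c5573 c14052 c737 c8134 c8156 c12922 (k2 c5673 c701 k0))))))) (by decide +kernel)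
def c14154 : PP 9 3 T 0x42000000000000000000000000000008000000000000000000000000140000000000000040100000000080000000005004015001400000 := rS 0x56abdacca8efbc8358219146a3149a7d4295 (k8 c5446 c5398 c5448 c5444 c5476 c5324 c5326 c5478 (k8 c5651 c13854 c13701 c5341 c3579 c3588 c1246 c2032 (k1 c5282 k0))) (by decide +kernel)
def c14155 : PP 9 3 T 0x22000221000000000000000000040008000000000100000000000000140010000000000040001010440080000000005804000020400008 := rS 0x1c24a3f35dfe8b561255f59140944fb7449bc268d40bc433933aa5446b341aa50e91 (k8 c5374 c5373 c5531 c2007 c5532 c5409 c5446 c2005 (k8 c13455 c6205 c9695 c5380 c5381 c5564 c5565 c5567 (k8 c8114 c267 c1113 c14154 c5339 c1243 c509 c539 (k4 c738 c13507 c2032 c10269 (k2 c13510 c3058 (k1 c563 k0)))))) (by decide +kernel)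
def c14156 : PP 9 3 T 0x800000000026000001000000000000000000040008000200000000000000000000000000000000000000000000000010000000000000000000004009 := rS 0x126064725896387f08a33de8945ab56a27659c76c29d08e83e8f35834f79c42fb5666d10c553a232d8cc723762b54eed339c44cc6949a6d327d0b8f47e580e0c52e1b0ce4c6af1 (k8 c9695 c5324 c13455 c6205 c5475 c5452 c5476 c9240 (k8 c263 c5318 c5436 c5433 c13946 c5447 c5397 c5444 (k8 c9744 c5664 c9730 c9719 c5496 c5493 c5454 c5451 (k8 c5435 c5317 c5316 c5474 c5409 c5412 c5414 c5528 (k8 c5529 c5532 c10390 c5871 c14153 c5372 c5522 c5523 (k8 c5526 c1111 c3578 c14155 c8199 c14152 c5571 c5420 (k8 c5570 c5422 c5573 c737 c8134 c8156 c5673 c701 (k8 c807 c2169 c12632 c12638 c13598 c13597 c514 c3584 k0)))))))) (by decide +kernel)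
def c14157 : PP 9 3 T 0x16000200000000000000000000040008000200000000000001000400140000000000000040000000000190000000000000010001000018 := rS 0x4945d6596b338ed8663f0b8dc7a9f559610e5b07a0d239cf6bd8441f358841a1c1886c6a8d1384c4a6f (k8 c5565 c1113 c5564 c267 c5381 c5324 c5475 c5476 (k8 c9240 c9673 c265 c9672 c1111 c5650 c483 c5498 (k8 c5211 c5374 c2008 c9739 c5474 c8435 c263 c4490 (k8 c5448 c5436 c5435 c5433 c5318 c5316 c14154 c5571 (k4 c5574 c5420 c14052 c737 (k2 c8148 c13744 k0)))))) (by decide +kernel)
def c14158 : PP 9 3 T 0x16000200000000000000000000040008000200000000000001000000140080000000000040000000000190000000000000000001000018 := rS 0xff459255f591438e268555961e6872d83d0691ce12d50220f9ac420d0e0c43635 (k8 c5324 c5475 c5476 c9240 c9673 c265 c9672 c1111 (k8 c5650 c484 c3775 c5211 c5374 c2008 c9739 c5474 (k8 c8435 c5325 c263 c4490 c13398 c5382 c2619 c14157 (k4 c5339 c1243 c3753 c738 (k2 c2453 c13510 k0))))) (by decide +kernel)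
def c14159 : PP 9 3 T 0x6000001000000000000000000040008000000000000000000000000000000000000000000000000000010000000000000000000000011 := rS 0x225f24012480e3238942411467bd128bacab44ecb38ed853a1633455022479e4f61f418850e85ce1ac1bb555960ea1c4aa7de2357996c36310ce4c1e331f85c6e3d943152ecf6a9dd9ad3ef008cc69 (k8 c9744 c5664 c5642 c14148 c5496 c5495 c5493 c5454 (k8 c5453 c5452 c5451 c14021 c5436 c5435 c5433 c5318 (k8 c5316 c9739 c13455 c6205 c5476 c5475 c5474 c5325 (k8 c5324 c9695 c5448 c5446 c9240 c2005 c263 c4490 (k8 c14156 c9673 c9672 c5211 c13398 c8435 c265 c2008 (k8 c1111 c5372 c5524 c5526 c5650 c484 c2024 c3607 (k8 c14158 c8199 c14152 c5571 c5420 c5570 c5573 c14052 (k8 c737 c8134 c8156 c5673 c701 c2170 c12632 c13598 (k4 c12672 c13340 c8148 c298 (k2 c13731 c940 (k1 c5547 k0))))))))))) (by decide +kernel)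
def c14160 : PP 9 3 T 0x81000200040000000000000000040008000200000000004000000400000000000000000004005400000085000004000000015000000800 := rS 0x93594890116cb388647e171e9ec0ea137a7cbc7d (k8 c5566 c5663 c1522 c5565 c1121 c5432 c690 c5436 (k8 c5433 c5318 c6205 c5571 c5420 c737 c3579 c10097 (k2 c5340 c512 (k1 c13510 k0)))) (by decide +kernel)
def c14161 : PP 9 3 T 0x5000211000000000000000000040008000200000000000000000000040000000001000000001000000080000000000000010080004009 := rS 0x122af08b2bdf5820edd3ea14d38cbc9363187c2ff809e4f7ec4392c140d3516c33931f81c2e371e98d068d899f5128f1384c4a6f (k8 c5565 c1113 c5564 c267 c5568 c5567 c5566 c5382 (k8 c5381 c2007 c9752 c5436 c5435 c5433 c5432 c5318 (k8 c13455 c6205 c5474 c1111 c2362 c1112 c2591 c8435 (k8 c13492 c690 c2307 c5502 c5544 c6290 c10425 c5669 (k8 c262 c5663 c4739 c2482 c1121 c1522 c14160 c13854 (k4 c5651 c6923 c3579 c5558 (k2 c4070 c694 (k1 c12790 k0)))))))) (by decide +kernel)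
def c14162 : PP 9 3 T 0x2000800000000064000000000000000000000000000008000200100000000000000000000000000100000000000000000000000000410000011040000000 := rS 0x38dbe3a247cfc2d17bbcdea3711fbdac43228fdaa31698d4663d (k8 c5436 c5316 c5324 c5496 c5476 c5454 c5318 c5326 (k8 c5478 c3588 c6923 c5409 c5435 c5477 c5325 c5498 (k8 c5501 c6290 c12708 c12760 c9979 c2946 c1773 c10298 k0))) (by decide +kernel)
def c14163 : PP 9 3 T 0x800000000065000011000000000000000000040008000200000000000000000000000000000000000000101000000080000000000000015040044000 := rS 0x1263b4db2942e2564015ff35a126060c437b5adef7f91c971d20d6086451a8c43393198e47e171eb55a6234ec54429959a0d52b1 (k8 c2179 c5531 c2007 c5532 c5530 c5528 c5414 c5412 (k8 c5409 c5496 c5454 c5436 c5433 c5318 c5317 c5316 (k8 c13455 c6205 c5476 c5324 c5326 c5478 c5651 c5340 (k8 c5341 c5342 c5562 c13477 c6923 c3588 c14162 c5672 (k8 c13492 c10690 c293 c3584 c5548 c1249 c5694 c5282 (k4 c2146 c2931 c2033 c2622 (k2 c1773 c1754 (k1 c6193 k0)))))))) (by decide +kernel)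
def c14164 : PP 9 3 T 0x40001000000000020000000000000000000000200000008000000000000000000000000150000001000000000000000000000000000005804015040000000 := rS 0x6f121ace32392e3a41219146a3111c5442b3 (k8 c5532 c5528 c5414 c5409 c5476 c5324 c5326 c5478 (k8 c5340 c5341 c5342 c5562 c1773 c3588 c3584 c10298 (k1 c2946 k0))) (by decide +kernel)
def c14165 : PP 9 3 T 0x200000000000000000100040008000000001000004000000000000000001400000000045400000000000005000000015540004000 := rS 0x12046 (k2 c3584 c13510 (k1 c2785 k0)) (by decide +kernel)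
def c14166 : PP 9 3 T 0x2000000000000000000211000000000000000100040008000000001000000000000000000000001400000100041400000010000001000000015540000010 := rS 0xc6bb8016df2538c8a3946a1dffe1f9c4cf23a688ddeef3ef4a1ea0f (k8 c9739 c5477 c14021 c14148 c5325 c5498 c5435 c5501 (k8 c9979 c1536 c5382 c12913 c6290 c5544 c5499 c5381 (k8 c5317 c5326 c1774 c14165 c2510 c2588 c563 c10298 (k2 c5645 c10391 k0)))) (by decide +kernel)
def c14167 : PP 9 3 T 0x20000000000000a1000211000000000000000000040008000000000000000000000000000000000000000000001000000090000000000000010040000018 := rS 0x24dc661631ec144b23922b2791d7cfc2ff68a1deef37ae4c1e331f81c6e3d94355a7de3188e2a214cacd06a98989c262537ad51671 (k8 c5571 c737 c5422 c5565 c1113 c5564 c267 c5382 (k8 c5531 c2007 c5532 c5530 c5528 c5414 c5409 c9752 (k8 c14148 c5496 c5454 c14021 c5436 c5435 c5432 c5318 (k8 c5316 c9739 c13455 c5477 c5325 c5498 c5499 c5501 (k8 c5544 c6290 c12913 c9979 c1536 c14164 c14166 c157 (k8 c192 c12912 c690 c5669 c10425 c2619 c262 c14160 k0)))))) (by decide +kernel)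
def c14168 : PP 9 3 T 0x800000000000000201040000000000000000000000000000000000020000000040000000000000000000048000000000000000000800000000006000 := rS 0x35cfe75719e8f2c56a9dd028d3ea249213 (k8 c5564 c293 c5567 c5566 c5381 c5380 c5493 c5454 (k8 c5451 c1536 c290 c1774 c2116 c892 c2146 c10269 k0)) (by decide +kernel)
def c14169 : PP 9 3 T 0x800000000001000200040000000000000000000000000000000000000000000000400000000000000020040000110004000000000000000000000000 := rS 0xc07e2fb55a68d (k4 c5381 c5496 c5454 c1518 (k2 c5278 c5663 (k1 c728 k0))) (by decide +kernel)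
def c14170 : PP 9 3 T 0x20000000000000000000000000000000000000000000000000000000000040000000000000000000200090000000000540000041400008 := rS 0x4da4cbc6111a744299 (k8 c5530 c5528 c5412 c5409 c1576 c2006 c262 c1120 (k1 c3578 k0)) (by decide +kernel)
def c14171 : PP 9 3 T 0x40001800000000081000200040000000000000000000000000000001000020000000440000000000000000000040000100004000000000000000000000000 := rS 0x25142d738b2d5aaf (k8 c3070 c5573 c5420 c5571 c2146 c10309 c9031 c14169 k0) (by decide +kernel)
def c14172 : PP 9 3 T 0x400018000000000a1000210040000000000000000000000000000000000020000000040000000000000000000040000100000000000000500000040400008 := rS 0xc2923da6dc4193188d3b1510a6502b5 (k8 c5422 c5380 c5530 c5528 c5414 c5412 c5409 c9752 (k4 c6205 c14171 c2621 c1775 (k2 c6193 c10425 (k1 c262 k0)))) (by decide +kernel)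
def c14173 : PP 9 3 T 0x24000211000000000000000000040008000000000000000000000000000000000000000000000000000010000000000000010000000011 := rS 0x180fc926ba6da3e03a8ee00dff792be64724b1e060c437b516b538ed83ef179867260f1c85c6f286a9dda7ded888d3b1510a65668536a0d526634a351e2709894de02 (k8 c5642 c5565 c1113 c5564 c267 c5568 c5381 c9744 (k8 c5664 c5531 c2007 c5529 c5871 c5532 c5530 c5528 (k8 c5414 c5412 c5409 c14159 c14148 c5496 c5493 c5454 (k8 c14021 c5435 c5433 c5317 c9739 c13455 c6205 c5325 (k8 c9695 c14161 c14163 c5571 c5422 c737 c14167 c5672 (k8 c13492 c10690 c798 c293 c2367 c8140 c3584 c12957 (k8 c2510 c9182 c14168 c14170 c14172 c5459 c5536 c2145 (k4 c6193 c5278 c262 c728 k0)))))))) (by decide +kernel)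
def c14174 : PP 9 3 T 0x200000000000000000100040008000000000000004000000000000000000000000000041400000000000001000000001080004001 := rS 0x914392c1a5b (k4 c5474 c2362 c2591 c8435 (k2 c13505 c13510 k0)) (by decide +kernel)
def c14175 : PP 9 3 T 0x2000000000000064000201000000000000000100040008000000000000000000000000000000000000000000040000000110000001000000005000000010 := rS 0xd77037c94e33c8308e3a487cfc2d143bdc8af37a83c723794779328536a0d526646c4d128f (k8 c5568 c5567 c5382 c5381 c5664 c5531 c2007 c5529 (k8 c5871 c5530 c14148 c14021 c5435 c5317 c9739 c5477 (k8 c5325 c5326 c5498 c5499 c5501 c6290 c12913 c14057 (k8 c9979 c2785 c13505 c1536 c1774 c5660 c2510 c563 (k2 c10298 c10391 k0))))) (by decide +kernel)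
def c14176 : PP 9 3 T 0x800000000041000211040000000000000000000000000000000000000000000000000000000040001001008000000084000000000800000000006000 := rS 0x5632dadef301fcbe753d1e7c2c56aa051a7d44a2d8e77 (k8 c5493 c798 c738 c5567 c5566 c5381 c5380 c5454 (k8 c5451 c5456 c1536 c290 c2116 c10245 c891 c5663 (k4 c5725 c10269 c1755 c5282 (k1 c2033 k0)))) (by decide +kernel)
def c14177 : PP 9 3 T 0x1000000000021000010000000000000000000000000000200000000000000000080000040001000000000400000000000000000000400020001000408 := rS 0x9b2fa4d94794f8e46e234eacf6ea1 (k8 c1195 c5417 c5532 c5412 c5409 c5435 c5317 c2884 (k4 c2387 c14125 c537 c10245 (k2 c1326 c9933 k0))) (by decide +kernel)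
def c14178 : PP 9 3 T 0x4000000000021000000000000000000000000000000000200000000000000000040000000000000004000000000000000000000000400020041000000 := rS 0x4d32926390b8dc469d10a676ea1 (k8 c1195 c5417 c5530 c5528 c5412 c5409 c5435 c5433 (k4 c5317 c537 c5680 c3578 (k1 c1327 k0))) (by decide +kernel)
def c14179 : PP 9 3 T 0x800000000000000200000000000000000000000000000000000000000000000000000000000100008000040000100004000000000000000000000000 := rS 0x7f6bb55a68d (k4 c5381 c5496 c5454 c1606 (k2 c2881 c5278 k0)) (by decide +kernel)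
def c14180 : PP 9 3 T 0x800000000021000211040000000000000000040000000200000000000000000000000000000000000000008000000090000004000000020040006408 := rS 0x103c4df65f8534934f9d4769171ad5c3f21c8fc2e371e98d3a214cac51bb7aca84324911a2d5ef1639dc8e8f (k8 c5568 c2367 c5493 c798 c9695 c1243 c738 c5409 (k8 c509 c6205 c1195 c5339 c5417 c5381 c2179 c5530 (k8 c5528 c5412 c9752 c5436 c5435 c5433 c5318 c5317 (k8 c5660 c6188 c5548 c5549 c5589 c14176 c14170 c14179 (k8 c537 c3578 c5536 c1326 c14177 c5680 c6010 c5462 k0))))) (by decide +kernel)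
def c14181 : PP 9 3 T 0x41000800000000000000201040000000000000000000000000000000000004000000040000000000000000000048000000000000000000800000000006000 := rS 0x1ee3f9d6027a3cb551b03 (k8 c10690 c5381 c5454 c1536 c290 c14168 c2116 c892 (k2 c5694 c5725 k0)) (by decide +kernel)
def c14182 : PP 9 3 T 0x24000211000000000000000000040008000000000000000000000000000000000000000000000000000010000000000000000000000011 := rS 0xd7f127cea3b6ffcc94c7058310ded0fbfd164957d676e281289d62893e9bc268d40bc43393078e42e3794315aa77ef18c05b111acd0a6d41aa4cc69 (k8 c9744 c5664 c5531 c2007 c5529 c5871 c5532 c5409 (k8 c14159 c5642 c9752 c14148 c5493 c5454 c5451 c14021 (k8 c5435 c5433 c5317 c9739 c13455 c6205 c9695 c5380 (k8 c5381 c5564 c5565 c5566 c5567 c2179 c267 c1113 (k8 c14173 c5417 c5339 c1243 c509 c738 c13507 c14174 (k8 c14175 c5672 c13492 c12749 c798 c14180 c5546 c2510 (k4 c14181 c14170 c14179 c14178 (k2 c5465 c5287 k0)))))))) (by decide +kernel)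
def c14183 : PP 9 3 T 0x800000000041000100040000000000000000000008000000000000000000000000000000000000000000000000000000000000000000000000000000 := rS 0x35eb1e2 (k4 c5236 c5212 c5465 c9525 k0) (by decide +kernel)
def c14184 : PP 9 3 T 0x2000000000000000000110040000000000000000000008000200000000000000000000000400001000004000000041000000000000000000005080010008 := rS 0x20a8526812f048c2c6ac9ee260a350647e070b8f453e1 (k8 c6290 c8199 c5436 c5433 c5432 c5318 c6205 c1111 (k8 c1112 c2600 c690 c12917 c5669 c10425 c12617 c2483 (k4 c940 c262 c1122 c298 (k1 c3579 k0)))) (by decide +kernel)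
def c14185 : PP 9 3 T 0x20008000000000a0000111000000000000000000040008000200000000000000000000000000000000000000051400000010000000000000000000004009 := rS 0x50a4cf86163238f6460512c935909470b01f129fc2279460ebdfe17eb450ef77996deb931f81c2e371e9dcd26311aae2a2136aa566294fb2c4eb5 (k8 c5422 c5570 c5420 c5572 c8199 c5532 c5531 c5529 (k8 c5528 c5414 c5413 c5409 c9752 c9744 c5493 c5436 (k8 c5435 c5433 c5432 c5318 c13455 c5477 c5474 c5325 (k8 c5498 c5499 c5501 c5542 c6290 c13184 c9979 c5673 (k8 c1536 c701 c807 c12632 c14184 c9250 c2169 c2170 (k8 c5341 c513 c3652 c12922 c3584 c690 c2810 c5669 (k4 c10425 c2487 c262 c2826 (k1 c12650 k0)))))))) (by decide +kernel)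
def c14186 : PP 9 3 T 0xa1000111000000000000000000040008000200000000000000000000140000000000000000150000000000000000000000001000006409 := rS 0x49a6c76613c1f91c8123043e449acf8c811df71f43393198e47e070b8f4c6234e88532b31489d6a1f (k8 c2362 c5422 c5570 c8199 c5532 c5530 c5528 c5412 (k8 c5409 c9752 c5436 c5433 c5432 c5318 c5317 c5316 (k8 c13455 c6205 c12642 c5673 c5504 c13298 c13617 c5340 (k8 c3648 c5221 c12922 c8140 c699 c5779 c5670 c2924 (k4 c10398 c1536 c2384 c262 (k1 c6193 k0)))))) (by decide +kernel)
def c14187 : PP 9 3 T 0x10000000000000a1000111000000000000000000040008000200000000000000000000140000000000000000050000000000000000000000001000006409 := rS 0x11c93f208a47de8c2d88c42b31489d6a1f (k8 c2362 c5422 c5570 c8199 c5532 c5528 c5409 c5474 (k8 c14186 c5505 c10035 c701 c5191 c294 c2368 c8140 k0)) (by decide +kernel)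
def c14188 : PP 9 3 T 0x24000011000000000000000000040008000000000000000000000000000000000000000000000000000010000000000000000000000011 := rS 0x9b1da4cbc7b309fbc71df7244fa81469b820240fb1c160c437b5128b569c76da12d867260f198e40e171b8f650d53bb4fbc02d888d3b1510a650a6d41aa4cc69 (k8 c9744 c5664 c5531 c2007 c5529 c5871 c5530 c5528 (k8 c5414 c5412 c5409 c14159 c5642 c14148 c5496 c5493 (k8 c5454 c14021 c5436 c5435 c5433 c5432 c5317 c5316 (k8 c9739 c13455 c6205 c5474 c14182 c14183 c5571 c5573 (k8 c737 c8134 c14185 c5672 c13492 c12749 c798 c2362 (k8 c14187 c12632 c1113 c701 c699 c2747 c3038 c5673 (k8 c5504 c13617 c5670 c10398 c891 c2920 c262 c290 (k2 c1120 c3578 k0)))))))) (by decide +kernel)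
def c14189 : PP 9 3 T 0x5004000000000041000000000000000000000000000000000000001000004000000000005010000400004041085405401090000000100000015540000000 := rS 0x5a927e5036831ceae13028196ae809c08f58 (k8 c5651 c5562 c737 c3068 c738 c1246 c5680 c2930 (k8 c3060 c1576 c726 c3607 c2202 c5694 c13257 c1249 (k1 c8140 k0))) (by decide +kernel)
def c14190 : PP 9 3 T 0x5004800000000045000000000000000000000000000000000000000400004000000000800000000005000001555000000080000000010800000000000000 := rS 0xa0f9b2e04ae80b8fc29766a0d3eb1 (k8 c2179 c1606 c2007 c5495 c5452 c5456 c1773 c2146 (k4 c12790 c3613 c1246 c5550 (k2 c5680 c10380 k0))) (by decide +kernel)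
def c14191 : PP 9 3 T 0x5000000000041000000000000000000000000000000000000000000000000000000020000002080004040000000000000000000000000000000000000 := rS 0x70c0997f3 (k4 c5548 c1246 c1249 c9396 (k1 c2202 k0)) (by decide +kernel)
def c14192 : PP 9 3 T 0x4005000000000061000000040000000000000000000000000000000000000000000000805050002000000040105105400090000000000540000040400008 := rS 0xc25f6525158af681d4326341aa53eb1 (k8 c2179 c1606 c5531 c2007 c9752 c6205 c14170 c3607 (k4 c14191 c5282 c2032 c2033 (k2 c1518 c1755 (k1 c5663 k0)))) (by decide +kernel)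
def c14193 : PP 9 3 T 0x1000000040000000000000000000000000200000000000000000000000000000000001100000000000401000000000400000500000008 := rS 0x9a2f24c32390b8dcc61f (k8 c1111 c9752 c5435 c5433 c5317 c6205 c262 c5663 (k2 c3578 c1119 k0)) (by decide +kernel)
def c14194 : PP 9 3 T 0x800000000065000220040000000000000000000008000200000000000000000000000000000000000000001000040090000000000000010000000008 := rS 0x571c15ab5f0b2d8e75300ed169ff6f8dadef7f91e3a41ac10c8a35188cc723f0b8dc7ac54bb3daa7766b4c469d55c54426d4cacd06a93da1d22794787cd68189a25628d1384c4a6f (k8 c5565 c1113 c5564 c267 c5381 c2179 c5567 c5382 (k8 c5380 c5523 c1111 c5526 c5524 c5374 c5373 c5372 (k8 c5531 c2007 c5532 c5530 c5529 c5528 c5414 c5413 (k8 c5412 c5409 c5496 c5495 c5493 c5454 c5453 c5452 (k8 c5451 c5436 c5435 c5433 c5318 c5317 c5316 c5476 (k8 c5324 c5326 c5478 c5651 c5340 c5341 c5562 c13477 (k8 c6923 c3588 c13617 c14162 c1606 c14189 c14190 c14193 (k8 c1576 c726 c1755 c8115 c14192 c2033 c13067 c5282 (k1 c2988 k0))))))))) (by decide +kernel)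
def c14195 : PP 9 3 T 0x800000000000000200000000000000000000000000000000000000000000000000000000000000008000040000000084000000000000000000000000 := rS 0x742f9f5628d (k4 c5381 c2179 c5566 c1522 (k2 c14179 c2006 k0)) (by decide +kernel)
def c14196 : PP 9 3 T 0x41000000000000000000000000000000000000000000000000000000000000000000005000000000000000000008000800000000000000 := rS 0x197e370103c3f3 (k4 c5546 c5456 c562 c563 (k2 c5462 c1718 (k1 c9396 k0))) (by decide +kernel)
def c14197 : PP 9 3 T 0x800000000025000220040000000000000000040008000200000100000001000000000000000000000000001000040090000000000000000000000008 := rS 0x3ab5cc1e21da7dbe4a7fa2c92afac8a36e893ea3502191cb15aa773188d3a214cacd06a943a443e6b (k8 c5523 c1111 c5374 c5373 c5531 c2007 c5532 c5530 (k8 c5528 c5412 c5409 c9752 c5493 c5454 c5451 c5317 (k8 c6205 c5380 c5381 c5566 c5567 c8114 c14194 c5339 (k8 c1243 c509 c738 c13507 c13510 c2510 c14195 c14196 (k4 c14178 c14193 c5465 c1576 (k1 c5287 k0)))))) (by decide +kernel)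
def c14198 : PP 9 3 T 0x5000000000000000000000000000000000000000000000000000000044000000500040040000000000001555400000000000000000000000000000000 := rS 0x22701 (k2 c9158 c8617 (k1 c3613 k0)) (by decide +kernel)
def c14199 : PP 9 3 T 0x5000000000000000100040000000000000000000000000000000000044000000400040040000000000001555414000000000000000000000000000000 := rS 0x1fd02e0 (k4 c14198 c1716 c3059 c5670 k0) (by decide +kernel)
def c14200 : PP 9 3 T 0x5000000000001000100040000000000000000000000000000001100044000000400040400001400000001555414051404000000020000001000000000 := rS 0xdf13081f826812f1858d59 (k8 c5340 c14199 c726 c5663 c1746 c298 c5670 c12617 (k2 c810 c2745 (k1 c3604 k0))) (by decide +kernel)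
def c14201 : PP 9 3 T 0x100000000000000000000040000000000000000000000000800405010000000000001005405400000000000024800000000000000 := rS 0x3ab1d0011093449159 (k8 c5340 c1774 c1779 c12637 c3026 c298 c12672 c1748 (k1 c3607 k0)) (by decide +kernel)
def c14202 : PP 9 3 T 0x4000000000001000100040000000000000000040000000000001000044000000000445410001400000001555415411404000000024800000000000041 := rS 0x401c3133f204202471f84e711 (k8 c9730 c9719 c5456 c14201 c14200 c12632 c699 c5670 (k4 c810 c3058 c3613 c9158 k0)) (by decide +kernel)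
def c14203 : PP 9 3 T 0x1000121000000000000000000040008000200001000000000000000145410001400001100151400411010000000000000000500000009 := rS 0x6838bc2c73ab84c03bf1901af1df740dfe7dc98cc7e071e98cf687489acf28f (k8 c5526 c5524 c5523 c5374 c5373 c5372 c9752 c5436 (k8 c5432 c5318 c5316 c13455 c12642 c11835 c10681 c5673 (k8 c5504 c5507 c13298 c13617 c14202 c14193 c1714 c1576 (k4 c726 c8115 c14198 c3607 (k1 c1779 k0))))) (by decide +kernel)
def c14204 : PP 9 3 T 0x101000000000000000000000000000000000000000000000000000000000200000000140000040000000000000000000000000000 := rS 0x113ef (k2 c5506 c1982 (k1 c5673 k0)) (by decide +kernel)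
def c14205 : PP 9 3 T 0x101000000000000000000000000000000000000000000000000000000000000000000140000000000100000200000000000000000 := rS 0x113ef (k2 c5582 c2834 (k1 c5673 k0)) (by decide +kernel)
def c14206 : PP 9 3 T 0x48000101000000000000000000000000000000000000000000000000000000000000000001545400040010000000000000000800000008 := rS 0x3dc8989c042470590988ab17fbc55aaf0e97436291290e3b58 (k8 c5212 c5341 c5561 c9666 c8199 c1109 c9746 c5486 (k8 c5406 c5490 c9695 c11835 c14204 c14205 c3582 c486 (k4 c268 c267 c2900 c2457 (k2 c2873 c8818 (k1 c8783 k0))))) (by decide +kernel)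
def c14207 : PP 9 3 T 0x51000100000000000000000000040000000100000400000000000000000000000000000000000000020000000000000000000000000008 := rS 0xa10ba4cfe5f04e48539c (k8 c5211 c8199 c5209 c9669 c9668 c5358 c261 c1107 (k2 c2929 c12244 k0)) (by decide +kernel)
def c14208 : PP 9 3 T 0x80000000000000000000004000000000400000001000000000000000001000441480004020010020000015005000811010048 := rS 0x7b154ff4e381c7036ffcd64481304902cb68b5d42d3640d4fe7d0495fdf01 (k8 c3068 c5583 c9757 c5438 c5442 c5358 c280 c9863 (k8 c2938 c2929 c2190 c2134 c1325 c857 c12613 c2868 (k8 c485 c486 c5588 c2946 c2460 c2459 c5972 c2899 (k4 c3013 c1275 c5694 c5500 k0)))) (by decide +kernel)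
def c14209 : PP 9 3 T 0x80000000000000000000000000000000000000000000000000200000000000000000440000000000000000000000000000000000004410400000000000000 := rS 0x384923f (k4 c5318 c5588 c5591 c6010 k0) (by decide +kernel)
def c14210 : PP 9 3 T 0x1000000040000000000000000000000000000000000000000000200000000000800000000000014000004000000000000000000000000 := rS 0x2f9853c9c (k4 c2899 c2898 c1696 c1522 (k1 c5663 k0)) (by decide +kernel)
def c14211 : PP 9 3 T 0x8000000000000000000000000000000000000000000000001000000000000000000000000080020020010000000000005000000400010 := rS 0x742f25c3a95 (k4 c5488 c5486 c5404 c2871 (k2 c2981 c8447 k0)) (by decide +kernel)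
def c14212 : PP 9 3 T 0x8000000040000000000000000000000000000000000000001000000000080000000000400001000000010020000000005000000400008 := rS 0x1a9858a1b (k4 c1109 c838 c727 c281 (k1 c14092 k0)) (by decide +kernel)
def c14213 : PP 9 3 T 0x51000101000000000000000000040004000000000000000000000000000000000000000000081000000010000000000000000000000011 := rS 0x2c9c1f363f84fadf3fb8d03e2c9a6c6217038fc661994454e058899bcb6f14b87553b239974c67b489e51f9c5a8883e6b108340429088f48358 (k8 c5212 c5340 c5560 c9667 c8199 c5642 c9673 c265 (k8 c9672 c1111 c5650 c1339 c5211 c5526 c5524 c5374 (k8 c5372 c9752 c9746 c9719 c5210 c5489 c5486 c5404 (k8 c9695 c685 c2979 c858 c5644 c5666 c3048 c14207 (k8 c5315 c5316 c5318 c5432 c5433 c5434 c7393 c14208 (k8 c5236 c5463 c5466 c5577 c5580 c14211 c13945 c14212 (k4 c14109 c5910 c5685 c14210 k0))))))) (by decide +kernel)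
def c14214 : PP 9 3 T 0x8000000000000000000000000000000000200000000000000000000000000000000000400000000000000000000008001000000000000000001400010 := rS 0x9e (k2 c8131 c2816 k0) (by decide +kernel)
def c14215 : PP 9 3 T 0x400000000041000101040000000000000000000000000000000000000000000000000010000000000000000000108040000000000000000001400010 := rS 0x61659dbc558 (k4 c5212 c5236 c5668 c5464 (k2 c724 c14214 k0)) (by decide +kernel)
def c14216 : PP 9 3 T 0x4000400000000041000101000000000000000000000004000200000000000000000000000000000100000000000000150000080000000000000004000018 := rS 0x3246ad66af8d409f49b2cfa092fe498ad31885c0e3f19864ce974a8f4826e223c63aaf1489d5a1dd910eb025 (k8 c9666 c5212 c5561 c5210 c5486 c5490 c268 c8199 (k8 c5406 c5341 c9695 c3582 c5666 c5340 c5560 c5488 (k8 c5404 c9680 c5315 c5316 c5318 c5432 c5433 c5434 (k8 c2936 c681 c14215 c5439 c5438 c5442 c8466 c261 (k8 c2815 c3579 c7824 c3000 c5689 c1763 c2189 c3577 k0))))) (by decide +kernel)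
def c14217 : PP 9 3 T 0x400000000051000101000000000000000000040004000000000000000000000000000000000000000000001000000010000000000000000000000011 := rS 0xcf628c06a181985d2677f017c139294ac4b46e2c9c4ebef4622cce732e86d06a9d94450e9147e71e6220f9ac420d013c63b58 (k8 c5212 c5341 c9695 c5642 c9673 c265 c9672 c1111 (k8 c5650 c447 c5211 c5526 c5374 c5373 c9727 c5210 (k8 c5489 c8722 c1109 c9746 c9719 c9680 c14213 c14206 (k8 c5505 c10894 c753 c2169 c5666 c5644 c1146 c14216 (k8 c5209 c9669 c9668 c5225 c5356 c261 c1107 c2041 (k4 c5648 c437 c5653 c682 (k2 c1474 c13267 k0))))))) (by decide +kernel)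
def c14218 : PP 9 3 T 0x8000000040000000000000000000000000000000000000081000000000080000000000400000000400010000000000005000000400008 := rS 0x1a9859e1b (k4 c1109 c2561 c727 c502 (k1 c14092 k0)) (by decide +kernel)
def c14219 : PP 9 3 T 0x59000120000000000000000000000004000000000000000081000000000000000000000400080000000010020000004005000801400051 := rS 0x2c9c1f363f85be7f71a07c5933ec54e11337a5c3aa93998c047b489e51eb5148447a4181c76b077 (k8 c2051 c5212 c5341 c2195 c5340 c5560 c9667 c8199 (k8 c1339 c5526 c5524 c5374 c5372 c5642 c9752 c9719 (k8 c5489 c5486 c5404 c2979 c859 c5666 c3048 c14211 (k8 c14208 c5236 c5463 c5466 c5577 c5580 c13945 c14218 (k4 c14109 c5910 c5685 c14210 k0))))) (by decide +kernel)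
def c14220 : PP 9 3 T 0x8000000000000049000120040000000000000000000000000200000400010081000040000000000000000400010040000010020000000000000000000008 := rS 0x1c27d6731068d371a058fe23da44f28f21906b017189dc66d5 (k8 c5585 c5316 c2051 c5434 c5433 c5212 c5340 c5561 (k8 c5526 c5524 c5374 c5372 c5236 c14218 c5463 c5466 (k4 c5579 c10432 c281 c502 (k2 c1634 c1653 (k1 c3610 k0))))) (by decide +kernel)
def c14221 : PP 9 3 T 0x51000101000000000000000000040004000200000000000080000000000000000000000000000000000010020000000000000000000011 := rS 0x27fc6cb693206a9304e49aa7ff722627016fa842470591204cb122a2d36310b81c7e330cbc55aaf4b8752bb23986c539c1107cd621068084a4320a363b58 (k8 c5212 c5341 c2169 c5340 c5561 c9666 c5642 c9673 (k8 c265 c9672 c1111 c5650 c5211 c8199 c1109 c9719 (k8 c5210 c5488 c5486 c5404 c5406 c5490 c9695 c5315 (k8 c5316 c5318 c5432 c5433 c5434 c7393 c14219 c285 (k8 c14204 c3582 c485 c486 c268 c267 c2927 c2946 (k8 c2900 c2457 c2873 c8818 c2917 c5585 c14220 c5438 (k8 c261 c280 c3577 c9641 c1324 c5579 c2882 c5680 k0))))))) (by decide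 +kernel)
def c14222 : PP 9 3 T 0x51000100000000000000000000040000000100000000040000000000000000000000000000080000040010000000000000000000000008 := rS 0x1c2266f (k4 c2979 c859 c5666 c14207 k0) (by decide +kernel)
def c14223 : PP 9 3 T 0x400000000051000101000000000000000000040004000000000000000000000000000000000000000000000000000010000000000000000000000011 := rS 0x5891516270c27c2e35f017c139294a3606587b16debed424748625ac2b55e1d4aec8e65d0de71e6f15a8883e6b108340429 (k8 c8199 c5642 c9673 c265 c9672 c1111 c5650 c1339 (k8 c9695 c447 c5211 c1109 c9746 c9719 c5210 c5488 (k8 c5486 c5406 c5490 c5212 c9666 c5561 c5341 c14217 (k8 c5541 c2336 c684 c5657 c5644 c2195 c2169 c14221 (k8 c5209 c9669 c9668 c5225 c280 c1107 c11608 c11149 (k4 c380 c14222 c285 c14204 (k1 c3582 k0))))))) (by decide +kernel)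
def c14224 : PP 9 3 T 0x400000000099000100040000000000000000000000000000000000000000000000000000000000000400480045000000000000005000001901400008 := rS 0x7b6048489335c3e1639f5309d1d18124df71a07c4a914a7d9627 (k8 c5570 c5420 c5572 c8199 c5489 c8305 c5463 c5466 (k8 c5580 c7824 c262 c481 c1695 c482 c1579 c727 (k8 c5456 c13096 c2440 c5910 c858 c859 c5541 c7311 k0))) (by decide +kernel)
def c14225 : PP 9 3 T 0x400000000091000101000000000000000000000004000000000000000000000000000000000000000400480005000010000000005005000901400008 := rS 0xd76ab23c6a01aa4c13923f848b0d32d9123a4108896b06f21fbde2ad57a5c3a95d917436294fb2c4eb1 (k8 c5421 c5570 c5420 c5572 c8199 c1109 c9746 c5210 (k8 c5488 c5486 c5404 c5406 c5490 c9695 c5583 c2775 (k8 c2979 c5219 c1113 c5558 c5340 c5341 c3582 c685 (k8 c2936 c5644 c284 c2917 c14224 c5438 c261 c280 (k4 c3579 c7824 c3577 c3000 (k2 c2189 c5689 k0)))))) (by decide +kernel)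
def c14226 : PP 9 3 T 0x88000000000000000000000200000000000000000000000001000000000000000000000000000000000000000000100000010004000000 := rS 0x8e90c4aad578744eb1 (k8 c5421 c5570 c5486 c5406 c5490 c5559 c5561 c5341 (k1 c3582 k0)) (by decide +kernel)
def c14227 : PP 9 3 T 0x8000000000019000000040000000000000000000000000000100000000001000000000200000100004401401005000010020000100005014800400008 := rS 0x43128448f1270a74fa60639dd5aaf0e98c364b40b8cfedf (k8 c5580 c5577 c5466 c5463 c560 c1109 c9752 c5486 (k8 c5406 c5490 c2051 c14212 c10162 c1579 c1696 c13096 (k4 c3610 c12623 c704 c1263 (k2 c1950 c3582 k0)))) (by decide +kernel)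
def c14228 : PP 9 3 T 0x8400000000091000101040000000000000000000004000000000000000000000000000000000000000401401005000010000000100005000800400048 := rS 0x1885a3b964be7564477dd5978ec8ce5d3186c529f13ac542d3 (k8 c5579 c5578 c5421 c5570 c5572 c8199 c1109 c9752 (k8 c9746 c9680 c5210 c9695 c14226 c5219 c5504 c11200 (k4 c1966 c1117 c14227 c11141 (k2 c5644 c5668 (k1 c681 k0))))) (by decide +kernel)
def c14229 : PP 9 3 T 0x8400000000091000101040000000000000000000004000000000000000000000000000000000000000401441005000010000000005005000801400058 := rS 0x1d8bec53aa491825f7911026757ec8ba6314a7d9627 (k8 c5570 c5420 c5572 c8199 c9752 c9746 c5210 c5406 (k8 c9680 c5463 c14228 c5582 c2968 c14205 c7824 c10894 (k4 c947 c1517 c5668 c11141 k0))) (by decide +kernel)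
def c14230 : PP 9 3 T 0x4000000000008000100040000000000000000000000000200000000000001000000000000000000000000000000000010020000080000000000000008 := rS 0xd4c2743f1f502104417436330385c623d (k8 c5436 c5434 c5433 c5432 c5316 c1109 c9746 c1949 (k8 c1950 c699 c2747 c5670 c2922 c10398 c1527 c14092 k0)) (by decide +kernel)
def c14231 : PP 9 3 T 0x8000000000000088000100000000000000000000000000000000000000000001000000000000000000000001405400000000000000040000000804000001 := rS 0x10189a248c10122b55e1d258a44eb18ea348aff (k8 c5586 c5582 c5505 c5504 c5421 c5570 c8199 c560 (k8 c5486 c5406 c5490 c3582 c12632 c1263 c2749 c704 (k2 c2790 c8783 k0))) (by decide +kernel)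
def c14232 : PP 9 3 T 0x4000000000080000100040000000000000000000000000200000000000000000000000000000000000004000140000000800000000000000000000001 := rS 0x509f13ecb138fc2e3d (k8 c5436 c5433 c5318 c5570 c5420 c5572 c5670 c1122 (k1 c12650 k0)) (by decide +kernel)
def c14233 : PP 9 3 T 0x400000000091000101040000000000000000000004000200000000000000000000000000000000000401445405000010000000000000000800000011 := rS 0x8011a2624081b826893f24d025e309d98af73a968b242acbfc8a8df778de26933ab55fb239974c61b0112c527158864663f0385c623d (k8 c5436 c5434 c5433 c5432 c5318 c5316 c5315 c5421 (k8 c5571 c8199 c560 c5642 c1109 c9752 c9746 c9719 (k8 c5210 c5406 c5490 c9680 c9742 c9695 c14229 c5186 (k8 c5505 c5582 c5586 c14226 c14231 c14230 c5644 c1894 (k8 c2101 c681 c5668 c724 c11141 c938 c262 c14232 (k8 c2922 c4877 c3602 c12617 c2745 c704 c1263 c8783 (k1 c2791 k0))))))) (by decide +kernel)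
def c14234 : PP 9 3 T 0x88000000000000000000000000000000000000100000000081000000000000000000000000000000000000000000500000010804000000 := rS 0x10c4aad578744eb1 (k8 c5421 c5570 c5486 c5406 c5490 c1263 c2108 c3582 k0) (by decide +kernel)
def c14235 : PP 9 3 T 0x8000000000000000020000000000000000000000000000000000400000000000500000040000000000000000110000000000000000000000000000000 := rS 0x1be7f3da44f28f (k4 c5526 c5524 c5374 c5372 (k2 c5577 c5580 (k1 c3610 k0))) (by decide +kernel)
def c14236 : PP 9 3 T 0x400000000011000101040000000000000000040004000200000000000000000000000000000000000000000000000010000000000000000000000011 := rS 0x1a314c27ef19f502e30838626468efbab2c7229dcb0f62dbd7da842e86c528354eca228748bcde2071ba2d363d1885c7e330ced8441f35a3cf27bce0841a02 (k8 c5642 c9673 c265 c5211 c5372 c5524 c5526 c9672 (k8 c1111 c5650 c14223 c5315 c5316 c5318 c5433 c5434 (k8 c5436 c7393 c14225 c5435 c5432 c9695 c447 c5374 (k8 c5373 c9727 c5210 c5489 c8722 c8199 c1109 c9746 (k8 c14233 c5541 c2336 c684 c5657 c5644 c2051 c285 (k8 c14218 c14226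 c5219 c5504 c14234 c12623 c2788 c13598 (k8 c2347 c699 c2747 c14235 c5670 c10398 c840 c14092 (k1 c281 k0)))))))) (by decide +kernel)
def c14237 : PP 9 3 T 0x8000000000080000120000000000000000000040000000000000000000000000000000040000000000004000010000000000004005000000001400001 := rS 0x89b842049ac891c68114a7d9627 (k8 c5570 c5420 c5572 c8199 c5463 c5466 c7824 c5559 (k4 c10629 c12632 c6188 c704 (k1 c14235 k0))) (by decide +kernel)
def c14238 : PP 9 3 T 0x88000000080000000000000000000000000000100400000081000100010000000000000001400105000000000000180040010804000000 := rS 0xdf71c008c7d (k4 c5442 c14234 c2107 c2347 (k2 c2953 c5846 k0)) (by decide +kernel)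
def c14239 : PP 9 3 T 0x91000101080000000000000000040004000000000000000000000000000000000000000404041000000000020000001045000805400041 := rS 0x71119bff34ec5202abf63de268170840924281c75a3ee645646a457aa5c3a95419ad53b2889ed0e913ca3f38f37892c52b304b1cfa7f (k8 c5358 c5442 c5357 c5438 c5574 c8199 c560 c9695 (k8 c447 c5211 c5526 c5524 c5374 c5373 c5372 c9727 (k8 c5210 c5489 c9672 c8722 c5488 c5486 c5404 c1947 (k8 c285 c280 c14226 c3577 c5219 c2134 c5504 c5508 (k8 c14231 c3033 c1950 c6188 c699 c704 c14238 c5657 (k8 c5500 c5502 c6986 c1275 c5590 c13097 c10155 c3610 (k1 c2347 k0))))))) (by decide +kernel)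
def c14240 : PP 9 3 T 0x4004400000000080000101000000000000000000000004000000000000000000000000000000000000000004000000000000000000005005000005400000 := rS 0xc91ab59aad3501108225ac3c55e970ea5764294fb2c4eb1 (k8 c5421 c5570 c5420 c5572 c8199 c5210 c5488 c5486 (k8 c5404 c5406 c9695 c5219 c5559 c5340 c14226 c3579 (k4 c2936 c3000 c5689 c1763 (k2 c2189 c3577 k0)))) (by decide +kernel)
def c14241 : PP 9 3 T 0x11000000000000000000000100040000000000000000000000000080000000000400020400000000000000000004080000001000000000 := rS 0x4553849 (k4 c4899 c13097 c7822 c1277 k0) (by decide +kernel)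
def c14242 : PP 9 3 T 0x4000000000011000100080000000000000100040000000000000400040000000000400410000400004404001100000000000004085040005001410000 := rS 0x3d19cd124337e6df70a80824714a3f3809639f4fe77 (k8 c5356 c5358 c5442 c5357 c5438 c5211 c5526 c8199 (k8 c13598 c12636 c3579 c3061 c14241 c14109 c8709 c5660 (k4 c8355 c8127 c3033 c2339 k0))) (by decide +kernel)
def c14243 : PP 9 3 T 0x4000000000011000100080000000000000100040000000000000400040000000000400410000550004404141100050150010004085040005001400000 := rS 0x1bd1210 (k4 c14242 c2750 c2745 c3602 k0) (by decide +kernel)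
def c14244 : PP 9 3 T 0x8004000000000011000100080000000000000100040000000000000400000040000000000410000550004404041500010150010000085040004801400001 := rS 0x80a248c10121cd0e9147e70962946b5e06ff (k8 c5586 c5508 c5507 c5505 c8199 c560 c5211 c5526 (k8 c5374 c5373 c9719 c14243 c12632 c1263 c2750 c2791 (k1 c8783 k0))) (by decide +kernel)
def c14245 : PP 9 3 T 0x8004000000000011000100080000000000000100040000000000000000000040000000000410000550004404041500010150010000085041004801400001 := rS 0x66385a2cf503d0824812845be47f9c4b384b14824ef03 (k8 c5508 c5356 c5438 c8199 c560 c5211 c14244 c5547 (k8 c12623 c2513 c704 c1263 c5660 c12636 c3033 c3579 (k4 c2339 c1925 c3061 c8127 (k1 c8709 k0)))) (by decide +kernel)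
def c14246 : PP 9 3 T 0x88000000000000000000000100040004000000000000040054000000000000000000000000000000000000000004080000001000000000 := rS 0x8a40493ec (k4 c5657 c3033 c5502 c6986 (k1 c7822 k0)) (by decide +kernel)
def c14247 : PP 9 3 T 0x8000000000000091000101080000000000000000040004000000000000000000000000000000000000000404041000000010100000005045000805400041 := rS 0x99f0b31a2cf7a275bea020894228021315ee5a2c9a4cead57a0cd6a988a1d228f799c5669f6589d62093bf8cfac725e720759228a764f1 (k8 c9695 c5210 c8199 c5582 c14226 c5508 c5211 c560 (k8 c5357 c5442 c14237 c5356 c5438 c5421 c5570 c5420 (k8 c5572 c5574 c5571 c447 c5526 c5374 c5373 c9727 (k8 c5489 c9672 c8722 c5406 c5490 c9680 c9742 c14239 (k8 c5644 c2101 c681 c14231 c14245 c699 c12632 c12636 (k8 c3579 c14241 c1278 c14246 c2339 c1925 c8127 c13267 (k2 c2440 c5679 k0))))))) (by decide +kernel)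
def c14248 : PP 9 3 T 0x400000000011000101000000000000000000040004000200000000000000000000000000000000000000000000000010000000000000000000000011 := rS 0x6f27502c871841c3131a918b0f66696debed421163beef1a4cfe7d63827248b4d8f46e310b81c7e330ca5c3a95d9174367b489e51f9c79bc496220f9ac420d010a567b6 (k8 c14223 c5574 c8199 c5642 c9673 c265 c9672 c1111 (k8 c5650 c560 c9695 c447 c5211 c5526 c5524 c5374 (k8 c5372 c1109 c9746 c5210 c5488 c5486 c5404 c5315 (k8 c5316 c5318 c5432 c5433 c5434 c5435 c5436 c7393 (k8 c14225 c14236 c5438 c5357 c5442 c5358 c261 c14237 (k8 c14240 c5504 c5582 c14247 c5541 c2336 c684 c2502 (k8 c5657 c5644 c14234 c280 c12623 c2788 c13598 c2347 (k4 c3577 c699 c1276 c3610 (k1 c13097 k0))))))))) (by decide +kernel)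
def c14249 : PP 9 3 T 0x21080000000000000000000004000000000000000004000000011000000000000000000000000000100000000002000000000000 := rS 0x210b4cf2cb14ee75 (k8 c5440 c5356 c1470 c1945 c1474 c5644 c8127 c684 k0) (by decide +kernel)
def c14250 : PP 9 3 T 0x80000101000000000000000000040004000000000000000010000140000040000000000001405455000000020000040008000804000001 := rS 0x3daf7673fdc51340b5114d722476b1efd90a5e6f1 (k8 c9695 c447 c8199 c5210 c14231 c5219 c5341 c14226 (k8 c2185 c285 c390 c857 c858 c3610 c2575 c1662 (k2 c504 c5543 (k1 c5657 k0)))) (by decide +kernel)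
def c14251 : PP 9 3 T 0x80000101000000000000000000000004000000000000000000000000000000000000000000000000000000000000140000001004000000 := rS 0x7ba395978ab55e1dd90a44eb1 (k8 c5421 c5570 c8199 c5210 c5486 c5406 c5490 c9695 (k4 c14226 c3582 c5219 c5504 k0)) (by decide +kernel)
def c14252 : PP 9 3 T 0x400000000011000101000000000000000000040004000000000000000000000000000000000000000000000000000010000000000000000000000011 := rS 0x71c4d02d746bf9151d223dbda842c3d4865b190c46a18128f5becd70b442e93089dcfe7d63f80be09c94a76c5d0d8a506a9d9444f687489e51f9c798883e6b1083404f1 (k8 c9695 c5642 c9673 c265 c9672 c1111 c5650 c447 (k8 c5211 c5526 c5524 c5374 c5373 c5372 c9727 c5210 (k8 c5489 c8722 c8199 c1109 c9746 c14223 c14248 c5209 (k8 c9669 c9668 c5225 c5357 c5442 c5358 c5356 c13309 (k8 c261 c1107 c5459 c5460 c5537 c5538 c12640 c12632 (k8 c5648 c437 c14249 c5653 c9931 c2048 c2045 c5644 (k8 c14250 c5541 c5657 c14251 c190 c285 c504 c2169 (k4 c2185 c857 c2571 c2575 (k1 c3610 k0))))))))) (by decide +kernel)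
def c14253 : PP 9 3 T 0x400000000048000121040000000000000000000000000000000000000000000000000000000000004404001410040010020000004025000801400008 := rS 0x164e01338d97e289a29028d0431de28748a3c8229128f63b58 (k8 c5212 c5341 c5560 c9666 c8199 c13854 c5526 c5374 (k8 c5373 c9695 c14212 c280 c2169 c1744 c14206 c858 (k4 c8305 c5464 c5466 c7824 (k2 c14235 c486 (k1 c2898 k0))))) (by decide +kernel)
def c14254 : PP 9 3 T 0x400000000040000101040000000000000000000000000200000000000000000000000000000000004004200000000040000000000000000001000008 := rS 0x32c4fe238fbc52251ed607e17 (k8 c5433 c5318 c5212 c5560 c9666 c8199 c5505 c753 (k4 c5186 c268 c5464 c7824 k0)) (by decide +kernel)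
def c14255 : PP 9 3 T 0x400000000040000121040000000000000000000004000000000000000000000000000000000000004404101410040010000000004025000801400008 := rS 0x5a45167645d43a451e11 (k8 c9667 c5526 c5374 c5373 c9746 c5210 c14253 c14206 (k2 c5644 c685 k0)) (by decide +kernel)
def c14256 : PP 9 3 T 0x400000000000000120040000000000000000000000000000000400000000000400008040000000000000080110000000000000000000000000000000 := rS 0x70f8a0291 (k4 c5374 c3068 c8305 c1653 (k1 c14235 k0)) (by decide +kernel)
def c14257 : PP 9 3 T 0x400000000052000101040000000000000000040004000200000000000000000000000000000000000000000010040010000000000000000000000008 := rS 0xe06ab7cffee7fa2d13133817d02c771f8588083bb3874587b16debed42234ce5d41aa6227b3ca3f38f35a8883e6b108353e9bac1045293128cc7e171a0c52e1dd906c32f1 (k8 c9695 c5393 c1109 c5210 c5486 c5404 c5434 c9240 (k8 c5433 c5318 c5316 c9666 c5444 c8199 c13854 c5212 (k8 c5397 c5448 c9673 c265 c9672 c1111 c5650 c1339 (k8 c447 c5211 c5526 c5524 c5372 c9727 c5489 c8722 (k8 c9746 c9680 c14254 c14255 c5541 c2336 c684 c5657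 (k8 c5644 c501 c502 c2051 c280 c281 c5456 c1773 (k8 c2561 c1744 c1630 c12251 c756 c2873 c14256 c11835 (k4 c5673 c840 c2564 c5585 (k2 c5910 c1652 k0))))))))) (by decide +kernel)
def c14258 : PP 9 3 T 0x400000000052000101000000000000000000040004000200000000000000000000000000000000000000000000000010000000000000000000000009 := rS 0xb659621dc125fc91d4fa341885c0e3f789a4ce970ea5764732e98c3619649847b58 (k8 c5212 c5560 c5445 c5396 c5393 c1109 c9752 c9746 (k8 c9719 c5210 c5488 c5486 c5404 c9680 c9742 c9695 (k8 c5318 c5432 c5433 c5434 c9240 c13946 c1527 c14257 (k4 c5439 c5438 c5356 c3597 (k2 c280 c681 (k1 c5644 k0)))))) (by decide +kernel)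
def c14259 : PP 9 3 T 0x42000101000000000000000000000004000000000000000000000000000000000000000001404400440010400000000020000800000108 := rS 0xf9a67146215165a2cec8ce5d79bc42358 (k8 c5212 c9667 c9695 c447 c9746 c9680 c5210 c280 (k8 c5644 c685 c684 c14206 c753 c2083 c12251 c442 k0)) (by decide +kernel)
def c14260 : PP 9 3 T 0x400000000000000000000000000000000200000000000100000000000000000000400000000000014044080040000000000000114000011001400008 := rS 0x6af8d942709b4fde3d (k8 c5560 c5583 c2938 c2976 c267 c3579 c13634 c1660 (k1 c5689 k0)) (by decide +kernel)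
def c14261 : PP 9 3 T 0x400000000052000101000000000000000000040004000100000000000000000000000000000000000000000000040010000000004000000000000008 := rS 0x1c6df70acbc026f6ac5088b40c4ce04556abcf6795aa7d4299208a44a433e9fdae321885de21d49864368d2c16c6a091107c420d47a450f9c419ad53116217d2e7764984d2674aec8c675c91763b58 (k8 c5212 c5341 c9746 c5214 c5440 c9752 c5210 c5488 (k8 c9680 c9742 c5445 c5396 c5356 c5404 c5439 c3597 (k8 c9727 c5489 c9672 c8722 c5211 c5373 c5374 c5526 (k8 c9673 c265 c1111 c5650 c5438 c14259 c682 c5644 (k8 c2169 c1109 c5393 c5444 c5486 c9695 c1107 c1470 (k8 c3577 c2185 c5358 c5442 c5561 c9666 c8199 c13854 (k8 c5447 c5398 c5448 c1339 c5524 c5372 c5406 c5490 (k8 c389 c12251 c756 c751 c14260 c14206 c14204 c5541 (k4 c3582 c5165 c486 c5460 (k2 c5538 c2458 (k1 c5846 k0))))))))))) (by decide +kernel)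
def c14262 : PP 9 3 T 0x400000000040000120080000000000000000000000000000000000000000000100000000000000000140080000040010020000008008000800000000 := rS 0x1beb224098761265911a870699bfde7f6bc76b1e3 (k8 c5576 c5212 c5341 c2185 c5358 c5583 c2979 c2938 (k8 c5666 c5689 c2996 c1660 c284 c3745 c2868 c485 (k2 c486 c2947 (k1 c11971 k0)))) (by decide +kernel)
def c14263 : PP 9 3 T 0x400000000052000101000000000000000000040004000000000000000000000000000000000000000000000000000010000000000000000000000009 := rS 0x38dbeb2f009bdab14211516e11f234b05b190d462c40b9d4ee092fe4a531d21896b0f13499d5aaf4b8752a732e98c362941aa765113da1d228fce24d92614c8e432220f9ac420d (k8 c9673 c265 c9672 c1111 c5650 c5393 c395 c5447 (k8 c5445 c5396 c5444 c5211 c5526 c5374 c5373 c5372 (k8 c9727 c5210 c5489 c8722 c8199 c1109 c9752 c9746 (k8 c9719 c5488 c5486 c5404 c5406 c5490 c9680 c9742 (k8 c9695 c5212 c9666 c5561 c5341 c14258 c5214 c5439 (k8 c5438 c5356 c5440 c1107 c3597 c1470 c14259 c3577 (k8 c682 c5644 c2169 c14261 c3057 c14262 c285 c14206 (k8 c14204 c5541 c3582 c5165 c486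 c5538 c2458 c11946 k0)))))))) (by decide +kernel)
def c14264 : PP 9 3 T 0x4000000000000000100040000000000000000000000000000000000000000000000000000000150010000140010850150000000000000000000000000 := rS 0x371f91281 (k4 c938 c2058 c5670 c3602 (k1 c2919 k0)) (by decide +kernel)
def c14265 : PP 9 3 T 0x4400000000080000101040000000000000000000004000200000000000000000000000000000000010000140010100010000000100000000000000009 := rS 0x240890d00583f96d8877789a4cead57ec8e65d0d9c56207 (k8 c5432 c5421 c5571 c1109 c9746 c9719 c5210 c5406 (k8 c5490 c9680 c9742 c9695 c14264 c5668 c681 c840 (k4 c5644 c5670 c14230 c699 (k2 c14251 c12632 k0)))) (by decide +kernel)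
def c14266 : PP 9 3 T 0x400000000082000101000000000000000000000004000200000000000000000000000000000000000000000000000010000000000000000000000009 := rS 0x5b2cb10ee092fe4bc6d5459151bee3a9f6b2341e8c42e071fbc4d2674b8752bb22e98c3629508659261 (k8 c5445 c5396 c5393 c5398 c8199 c1109 c9752 c9746 (k8 c5210 c5488 c5486 c5404 c9680 c9742 c9695 c5318 (k8 c5432 c5433 c5434 c5436 c9240 c14052 c13946 c1527 (k8 c5219 c5505 c5582 c5583 c5585 c6616 c14265 c5439 (k4 c5438 c5356 c3597 c280 (k2 c681 c5644 k0)))))) (by decide +kernel)
def c14267 : PP 9 3 T 0x8000000000000080000001000000000000000000000004000000000400000000000000000000000000000001404400040010110000000000000800020000 := rS 0x23892006e7ba15125a3499d5aafd93cde27158a3516ff (k8 c5586 c5583 c5505 c5421 c5571 c9695 c447 c5210 (k8 c5406 c5490 c9680 c9742 c5644 c2750 c684 c2101 (k4 c3602 c8783 c2745 c2791 (k1 c1263 k0)))) (by decide +kernel)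
def c14268 : PP 9 3 T 0x82000121080000000000000000040004000100000000000000000000000000000000000000000400040010100000004001000804400000 := rS 0xf0383e6e36fa047841190d4b1130878dab1df7565e2970ea57647b43a44f28f258a526c91c864e25f04b1cfa7f (k8 c5358 c5442 c5357 c5438 c5439 c5571 c5393 c395 (k8 c5396 c5444 c8199 c560 c5526 c5524 c5374 c5373 (k8 c5372 c5210 c5488 c5486 c5404 c9695 c12251 c5219 (k8 c5504 c5585 c6616 c13127 c704 c14267 c280 c3577 (k8 c544 c5655 c700 c2771 c1494 c14109 c5846 c5168 (k1 c5460 k0)))))) (by decide +kernel)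
def c14269 : PP 9 3 T 0x8000000000000000000000000000000000000100000000001000000800100000000000004000000000000000000010001000005400000 := rS 0x331aa5c3a95 (k4 c5488 c5486 c5404 c1763 (k2 c2185 c3577 k0)) (by decide +kernel)
def c14270 : PP 9 3 T 0x400000000010000101000000000000000000040004000000000000000000000000000000000000000000000000000010000000000000000000000011 := rS 0x68d32d230b28b6ba01131df79108625208f862c40b9d4ee7f2fe4a52cb38ed8c2c90ca8527b0789a4ce974a9ccba630de7106a9d9444441f358841a02 (k8 c5642 c9673 c265 c9672 c1111 c5650 c9727 c5210 (k8 c5489 c8722 c5211 c1109 c9752 c9746 c9719 c5488 (k8 c5404 c9680 c9742 c9695 c14252 c5444 c5398 c5393 (k8 c5396 c5445 c14263 c5571 c5420 c14266 c5214 c5439 (k8 c5358 c5356 c5440 c1107 c3597 c1470 c14268 c188 (k8 c2909 c2912 c14251 c5582 c190 c2834 c13972 c14269 (k4 c857 c285 c14205 c5644 (k2 c2083 c9931 (k1 c442 k0))))))))) (by decide +kernel)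
def c14271 : PP 9 3 T 0x51000101000000000000000000040004000200000000000000000000000000000000000000000000000010000000000000000000000011 := rS 0x587b16dea8468b1fda754c180be924d8c42e194b8752a5d3186d06a9d9444f6873ce71e6f1258883e6b108340429628d59e333bb259bde (k8 c14270 c5495 c5494 c5493 c5492 c5453 c5450 c5451 (k8 c8199 c5642 c9673 c265 c9672 c1111 c5650 c560 (k8 c9695 c447 c5211 c5524 c5373 c5372 c9727 c5210 (k8 c5489 c8722 c1109 c9752 c9746 c5488 c5486 c5404 (k8 c5315 c5433 c5434 c7393 c3577 c1517 c262 c482 (k8 c9271 c10400 c727 c1595 c3607 c2336 c684 c5657 (k2 c5644 c14221 k0))))))) (by decide +kernel)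
def c14272 : PP 9 3 T 0x51000101000000000000000000040004000000000000000000000000000000000000000000000000000010000000000000000000000011 := rS 0x2c48a8b46c0cb0f61396debed0c27d08600ba4cebe02f82725298e90c4b583499d5aaf4b8752aa9d9444e65d3186d0e79ce3cde24b5a8883e6b108340429629dd93de (k8 c14270 c5494 c5493 c5451 c8199 c5642 c9673 c265 (k8 c9672 c1111 c5650 c1339 c560 c9695 c447 c5211 (k8 c5524 c5373 c1109 c9752 c9746 c9719 c9727 c5210 (k8 c5489 c5488 c5486 c5404 c5406 c5490 c9680 c9742 (k8 c5212 c9666 c5561 c5341 c14271 c5209 c9669 c9668 (k8 c5225 c5440 c261 c1107 c3597 c10651 c11608 c5648 (k8 c10400 c2336 c684 c380 c5657 c5644 c2195 c2169 (k4 c14222 c285 c14204 c3582 k0)))))))) (by decide +kernel)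
def c14273 : PP 9 3 T 0x90000101000000000000000000040004000200000000000000000000000000000000000000000000000010000000000000000000000011 := rS 0x219144a5b09100228440344fac73f9d726983017c10924d8c42e070ca5c3a953186d06a9889ed0e79ce3cc441f358841a0278b146acf199dd92cd4ff8f65de (k8 c14270 c5210 c6601 c5572 c5495 c5494 c5493 c5492 (k8 c5453 c5450 c5451 c9695 c5642 c9673 c265 c9672 (k8 c1111 c5650 c447 c5211 c5524 c5373 c5372 c9727 (k8 c5489 c8722 c1109 c9752 c5488 c5486 c5404 c5315 (k8 c5432 c5433 c5434 c7393 c3577 c9863 c1517 c262 (k8 c482 c5438 c9271 c10398 c727 c1579 c1595 c5670 (k8 c3607 c699 c1744 c1745 c684 c12632 c458 c2809 (k1 c14251 k0)))))))) (by decide +kernel)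
def c14274 : PP 9 3 T 0x11000101000000000000000000040004000000000000000000000000000000000000000000000000000010000000000000000000000011 := rS 0x8171c4d1a8a7f47488432c3d8b6f5f691c4a846fb84c0113a9fcfac7f017f2529db1a4ce974aaa765112e98c367b43a44f28fce3cde24b1107cd6210680852c5679dd93de (k8 c14270 c5494 c5493 c5453 c5451 c8199 c5642 c9673 (k8 c265 c9672 c1111 c5650 c560 c9695 c447 c5211 (k8 c5526 c5524 c5374 c5373 c5372 c1109 c9752 c9746 (k8 c9727 c5210 c5489 c5488 c5404 c9680 c9742 c14272 (k8 c14273 c5209 c9668 c5225 c5357 c5442 c5358 c5440 (k8 c13309 c3597 c5460 c5538 c10651 c12632 c13598 c10400 (k8 c2336 c684 c5657 c5644 c2108 c14251 c190 c504 (k4 c285 c2169 c2571 c2574 (k2 c856 c3610 k0))))))))) (by decide +kernel)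
def c14275 : PP 9 3 T 0xa000000000000000000000000000000000200000000000001000000000000000000000000000000000000000000000010000004000000 := rS 0x18a5c3a19 (k4 c5393 c5486 c5404 c5434 (k1 c9240 k0)) (by decide +kernel)
def c14276 : PP 9 3 T 0x50000101040000000000000000040004000100000000000000000000100010000000000000080000040011000000000002000001000008 := rS 0x6ce071f87c4c73f8ec0cf589960e07d4096cde5dce20d53b288ad452391107cd621068447b58 (k8 c5212 c5560 c9667 c9673 c265 c9672 c1111 c5650 (k8 c395 c8199 c1339 c9727 c5210 c5489 c8722 c5211 (k8 c9746 c2979 c685 c856 c2980 c5666 c5644 c756 (k8 c1947 c1946 c1679 c676 c13650 c5670 c13885 c5466 (k2 c14235 c5654 (k1 c1483 k0)))))) (by decide +kernel)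
def c14277 : PP 9 3 T 0x58000101000000000000000000040000000100000000000000000000000000000000000100040000040001020000000002000005400008 := rS 0x40b8dc3136f9c164484e8998e7d3fac4764503235eaf156abc3a2941aa6227b489e51f9c1c8883e6b108342225218f63b58 (k8 c5212 c5341 c5560 c5561 c9666 c9667 c9673 c265 (k8 c9672 c1111 c5650 c395 c5211 c5526 c5524 c5374 (k8 c5372 c9727 c5489 c8722 c8199 c5486 c5406 c5490 (k8 c9695 c1947 c4522 c1946 c285 c1679 c14204 c676 (k8 c1456 c13650 c3582 c13264 c485 c486 c268 c2947 (k4 c2457 c2899 c2458 c751 (k1 c3610 k0))))))) (by decide +kernel)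
def c14278 : PP 9 3 T 0x42000100040000000000000000000000000100000000000000000000000000000000000000000040010000000000004000000800400009 := rS 0x80039f4bc41128f7c62714d612619 (k8 c5393 c5444 c5212 c8199 c268 c13634 c5560 c9666 (k4 c13854 c12251 c13946 c1450 (k2 c5670 c12653 k0))) (by decide +kernel)
def c14279 : PP 9 3 T 0x52000101040000000000000000040004000000000000000000000000100110000000000000000000400010000000000014000000400009 := rS 0x2f018ea093e8f8fe7146214b459458c0d2674b8752a732e98cae8354c450e9147e71e6220f9ac420d49864c2999486f64f1 (k8 c9695 c5210 c1109 c14275 c5447 c5445 c5393 c5444 (k8 c9673 c265 c9672 c1111 c5650 c447 c5211 c5526 (k8 c5374 c5373 c9727 c5489 c8722 c9757 c9752 c9746 (k8 c9719 c5488 c5486 c5404 c9680 c9742 c3577 c14276 (k8 c14277 c5644 c684 c14206 c753 c807 c14278 c2824 (k4 c276 c2174 c5643 c10013 (k1 c1450 k0))))))) (by decide +kernel)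
def c14280 : PP 9 3 T 0x40000120040000000000000000000000000000000000000000000100000050001000000000080050040010000000000000000000000000 := rS 0x1c713f11c1026f (k4 c2979 c856 c5666 c5670 (k2 c756 c5466 (k1 c14235 k0))) (by decide +kernel)
def c14281 : PP 9 3 T 0x101040000000000000000000004000000100000000004000000145050000000000000044445440000800000051095001004000098 := rS 0x80381bc7c266bac48a8d2c16d08d13abc55aaf0eec8ba29 (k8 c8199 c9746 c5210 c5486 c5406 c5490 c9695 c1452 (k8 c1481 c3607 c684 c5644 c2169 c285 c14204 c13349 (k4 c3582 c3588 c2814 c268 (k2 c8336 c1747 k0)))) (by decide +kernel)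
def c14282 : PP 9 3 T 0x140000040000000000101400055040000800000000000008800000010 := rS 0x8171c4cdeb2 (k4 c486 c2814 c2457 c2458 (k2 c1747 c3610 k0)) (by decide +kernel)
def c14283 : PP 9 3 T 0x48000101000000000000000000000000000000000000000000000000000000000000000000040000040000020000000002004004000000 := rS 0x589151af156abc3a291290e3b58 (k8 c5212 c5341 c5561 c9666 c8199 c5486 c5406 c5490 (k4 c9695 c4522 c285 c14204 (k1 c3582 k0))) (by decide +kernel)
def c14284 : PP 9 3 T 0x50000101040000000000000000040004000000000000000000000000000000000000000000000000000010000000000000000000000011 := rS 0x341ee853a968b2271822dbee1639f4fe362f0182c732e86d06a9d9444f687489e5e6f15a8883e6b1083404c51ab3daa333bb259ad3ef065324114a4f6025238451f9c218f63b58 (k8 c5212 c5341 c5560 c5561 c5211 c5526 c9667 c13598 (k8 c9666 c14274 c5444 c8199 c13854 c5447 c5393 c14270 (k8 c5496 c5495 c5494 c5493 c5492 c5454 c5453 c5450 (k8 c5451 c5642 c9673 c265 c9672 c1111 c5650 c1339 (k8 c9695 c447 c5524 c5374 c5373 c5372 c9727 c5210 (k8 c5489 c8722 c1109 c9746 c9719 c14279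 c1108 c1107 (k8 c1259 c676 c1456 c13650 c1483 c2331 c14280 c14281 (k8 c14282 c14283 c5644 c1453 c684 c2101 c3607 c1482 k0)))))))) (by decide +kernel)
def c14285 : PP 9 3 T 0x80000000000000000000000000000000000000000000000000110000000000050000000400155000000000000000000000000 := rS 0xea5f (k2 c5439 c5440 (k1 c3597 k0)) (by decide +kernel)
def c14286 : PP 9 3 T 0x4000000000000000101040000000000000000000004000000000000000000000000000010000000000000080010000000100000200002000000010000 := rS 0x247e04961025b (k4 c685 c856 c5644 c1509 (k2 c5670 c284 (k1 c2918 k0))) (by decide +kernel)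
def c14287 : PP 9 3 T 0x4004000000000082000101000000000000000000000004000000000000000000000000000110000000000000000000400010000000000014000000400008 := rS 0x2f200ea7f4622cfa3e18074ae930cb2c4a1144912b129c9984c6954b99cd2290dec9e25d (k8 c9746 c9695 c5210 c1109 c8199 c9742 c9680 c5404 (k8 c5488 c9752 c5445 c14285 c14275 c5216 c14226 c2834 (k8 c5558 c5559 c5420 c5393 c5444 c9757 c5486 c3577 (k8 c13756 c2824 c14286 c5673 c807 c2174 c5670 c10013 (k1 c1746 k0))))) (by decide +kernel)
def c14288 : PP 9 3 T 0x10000101000000000000000000040004000000000000000000000000000000000000000000000000000010000000000000000000000011 := rS 0x1027d3f9780c161e846b1eff1b2f6d939498543b069b24ee331ab17bcf13499d2e95d918c3602 (k8 c5642 c1109 c9752 c5210 c5488 c5404 c9680 c9742 (k8 c9695 c14270 c5451 c5450 c5492 c5493 c5494 c5496 (k8 c14274 c5398 c5445 c14275 c14285 c14284 c5420 c6601 (k8 c11200 c5216 c5558 c5560 c14287 c1108 c1107 c676 (k2 c1456 c1746 (k1 c5670 k0)))))) (by decide +kernel)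
def c14289 : PP 9 3 T 0x400000000028000120040000000000000000000000000000000400000001000400000040000000000000080110000000020000000020000004000008 := rS 0x7bbd43ef367a0cd60d7e8755223 (k8 c5409 c5489 c5486 c5405 c5522 c5523 c5525 c14256 (k4 c282 c1111 c1947 c502 (k1 c5816 k0))) (by decide +kernel)
def c14290 : PP 9 3 T 0x8000000000000000110000000000000000000000000000000000000000020000000000040000400000000000011021000040000000000000000000200 := rS 0x384f7f206a4502e33fb7d1f13 (k8 c755 c2874 c5580 c5577 c5466 c5463 c10333 c2366 (k4 c10427 c1685 c5591 c3610 k0)) (by decide +kernel)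
def c14291 : PP 9 3 T 0x8400000000001000101040000000000000000040004000000000000000000000000000000000000000000080000020010000000000020000000010011 := rS 0x381227b053d7d99d639e4c05f62020eaa93186c46ab10a640e8171b7cee7f2c16cba0247ace266dda1f42e3318ca364f1 (k8 c9695 c5210 c5209 c5434 c8428 c5433 c14211 c14288 (k8 c5529 c755 c5532 c2874 c5642 c9746 c685 c5644 (k8 c5577 c790 c5580 c5466 c5463 c5432 c5530 c5528 (k8 c5413 c5409 c1109 c9752 c5489 c1527 c280 c281 (k8 c1630 c5663 c1577 c726 c14289 c5218 c14290 c10422 (k4 c690 c694 c3610 c10249 k0)))))) (by decide +kernel)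
def c14292 : PP 9 3 T 0x8000000000029000020000000000000000000000000000000000400000001000000010000000000000000400011000000420000200000000004000008 := rS 0xf67fbd43ef37020cd60d7e875526311aac426d40b8cfedf (k8 c5580 c5577 c5466 c5463 c5529 c5528 c5413 c5409 (k8 c9752 c5489 c5486 c5405 c5522 c5523 c5525 c5864 (k4 c282 c1111 c1947 c3013 (k2 c3581 c504 k0)))) (by decide +kernel)
def c14293 : PP 9 3 T 0x110000000000000000000000000000000000000000020000440000040000400000000000151021000020000000000000000000040 := rS 0x384f7f2052451f13 (k8 c755 c2874 c10333 c1948 c10427 c690 c5591 c3610 k0) (by decide +kernel)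
def c14294 : PP 9 3 T 0x400000000041000101040000000000000000040004000000000000000000000000000000000000000000080000000010000000000000000000000011 := rS 0xe0489ec14f5f6675a2446404812c4639e4ea5f300d4fb1347960e0772d9bde2970eaa764732e86c042355884da9959ed0223dac06466070b8c65081719fdbfe2 (k8 c5236 c5580 c5577 c5466 c5463 c5209 c5434 c5433 (k8 c5432 c8428 c6205 c5212 c5560 c9667 c14288 c5532 (k8 c5530 c5529 c5528 c5413 c5409 c5642 c1109 c9746 (k8 c9719 c5210 c5489 c5486 c5404 c9695 c2979 c685 (k8 c790 c5666 c5644 c2874 c755 c14211 c14291 c14092 (k8 c62 c1576 c1577 c726 c5668 c1627 c12668 c9863 (k8 c2976 c2133 c14292 c5218 c14293 c10422 c690 c694 (k2 c3610 c10249 k0)))))))) (by decide +kernel)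
def c14295 : PP 9 3 T 0x8000000000029000020000000000000000000000000000000000400000001000000100000000000000000400011000000420000000020000004000008 := rS 0xf667bd43ef37020cd60d7e875526311aac426d40b8cfedf (k8 c5580 c5577 c5466 c5463 c5529 c5528 c5413 c5409 (k8 c9752 c5489 c5486 c5405 c5522 c5523 c5525 c5864 (k4 c282 c1111 c1947 c1652 (k2 c3581 c502 k0)))) (by decide +kernel)
def c14296 : PP 9 3 T 0x400000000041000101040000000000000000040004000000000000000000000000000000000000000000000010000010400000000020000000000011 := rS 0x3e448053cdebecceb57dd1344a3c24701302162452c234b6c73cb10c0777899d5aaf0eaa764733186c522355884da9959ed04a438e92c8f5803ca103e2459d4ba02 (k8 c5642 c9746 c1527 c14294 c5236 c5463 c5209 c5432 (k8 c5212 c5562 c5342 c5341 c5561 c9666 c14288 c5532 (k8 c5530 c5529 c5528 c5413 c5409 c8199 c1109 c9752 (k8 c9719 c5210 c5489 c5486 c5406 c5490 c9680 c9695 (k8 c11141 c5663 c5668 c1577 c726 c681 c947 c5644 (k8 c14205 c14204 c280 c3582 c268 c267 c2874 c2873 (k8 c755 c8818 c5585 c14295 c5218 c14290 c5540 c10422 (k2 c8823 c12878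 (k1 c5588 k0))))))))) (by decide +kernel)
def c14297 : PP 9 3 T 0x400000000041000101040000000000000000040004000000000000000000000000000000000000000000000010000010000000000020000000000011 := rS 0xd4f72c5128d3b27d92c549978ea6756abd2e95d91ccba020cca196d750b4fc48b (k8 c14294 c5236 c5579 c5578 c5465 c5464 c5209 c6205 (k8 c5642 c9746 c9719 c5210 c5488 c5404 c5406 c5490 (k8 c9680 c1527 c14296 c1517 c1629 c1117 c1522 c5668 (k4 c14254 c2058 c14204 c5673 (k2 c3618 c5585 k0))))) (by decide +kernel)
def c14298 : PP 9 3 T 0x400000000041000101040000000000000000040004000000000000000000000000000000000000000000000010000010000000000000000000000011 := rS 0x227ded422a3588753b9806af1d919cba1b0110c7a418ed60663f0b8c650816bb4fc48b (k8 c14294 c5236 c5579 c5465 c5463 c5209 c5434 c5433 (k8 c5318 c8428 c5212 c5341 c5340 c5560 c5561 c5642 (k8 c1109 c9746 c9680 c5210 c9695 c14297 c14092 c724 (k8 c1576 c5668 c947 c14205 c3588 c5585 c2837 c5673 k0)))) (by decide +kernel)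
def c14299 : PP 9 3 T 0x400000000001000001040000000000000200000004000000000000000000000000000000000000000000000020100000400000000000000000000011 := rS 0x1106e62180ee6757ec8c602 (k8 c5642 c9752 c5210 c5406 c9680 c11141 c5663 c5668 (k2 c1580 c1634 (k1 c8124 k0))) (by decide +kernel)
def c14300 : PP 9 3 T 0x21000020040000000000000000000000000000000100001000000000000000000001000000000000800151080000000000000000000008 := rS 0x1e6841d345066b4388d3aab109b53328 (k8 c5209 c5530 c5529 c5528 c5413 c5412 c5409 c5373 (k4 c5523 c5525 c2131 c14193 (k2 c3601 c449 (k1 c684 k0)))) (by decide +kernel)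
def c14301 : PP 9 3 T 0x400000000041000101040000000000000000040004000000000000000000000000000000000000000000000000000010000000000020000000000011 := rS 0xfbd521f35a3ce02f7f667606ff58fba268f46a24b4703b164dec530978eaf13499d5aaf4bbf553b2889ccba0211aae2a6d59ed2b0250c85e50cb69f89167c (k8 c14298 c14294 c5236 c5579 c5464 c5209 c5433 c6205 (k8 c9666 c5212 c14288 c5532 c5529 c5414 c5413 c5409 (k8 c5642 c9746 c9719 c9727 c5210 c5489 c5405 c5404 (k8 c5406 c5490 c9680 c9742 c9695 c1527 c14299 c62 (k8 c1629 c14214 c281 c5668 c5666 c5644 c2057 c753 (k8 c2874 c755 c5673 c14204 c11835 c5508 c14300 c5218 (k8 c5498 c5502 c5540 c3623 c5548 c5675 c10333 c10367 (k1 c9986 k0)))))))) (by decide +kernel)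
def c14302 : PP 9 3 T 0x400000000041000101040000000000000000040004000000000000000000000000000000000000000000000000000010000000000000000000000011 := rS 0xea5f300d4f8f1d906c05581985c6328 (k8 c5209 c5434 c5433 c8428 c5212 c5642 c1109 c5210 (k4 c9695 c14298 c14301 c14092 (k2 c62 c1576 (k1 c14299 k0)))) (by decide +kernel)
def c14303 : PP 9 3 T 0x4008800000000029000120000000000000000000040000000000000400010001000000000000000000000000400010000012020004200000000000000008 := rS 0x40dfff3f6b41c0630da05aee33fb7daa5f3ca658e6d (k8 c5529 c726 c5530 c1577 c62 c5454 c5580 c5577 (k8 c5466 c5465 c5463 c1109 c9752 c5864 c14292 c10400 (k4 c14109 c3012 c2201 c5694 k0))) (by decide +kernel)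
def c14304 : PP 9 3 T 0x41000101040000000000000000040004000000000000000000000000000000000000000000080010000010000000000000000000000011 := rS 0x16f53d7b33b010944d1e583816cde732e88c42b30892fde446ab5da7e220c747e431ed60101d03867c2cd4eaad92cf7eaa52e953ca658e601af7b64311986c0417943c4dbb4 (k8 c14288 c5529 c9695 c5209 c5433 c5642 c1109 c8428 (k8 c5434 c5210 c14302 c5450 c14092 c726 c5530 c1577 (k8 c5488 c5404 c5489 c5405 c5453 c5494 c5413 c5412 (k8 c5495 c13449 c6205 c5432 c5486 c9863 c5212 c5560 (k8 c5561 c5318 c5341 c5340 c5236 c5579 c5465 c5454 (k8 c3588 c10432 c5342 c9667 c5532 c5528 c5409 c9746 (k8 c9719 c2979 c685 c5666 c5644 c2874 c755 c284 (k4 c4993 c14303 c5218 c10425 (k2 c14290 c690 (k1 c10419 k0)))))))))) (by decide +kernel)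
def c14305 : PP 9 3 T 0x41000101040000000000000000040004000000000000000000000000000000000000000000000010000010000000000000000000000011 := rS 0x9f589b8e28c4599d5aaf4ba5764732e80996a122355aed3f11046bde8e8c47f28218cc7b58 (k8 c5212 c5560 c8428 c5561 c5209 c5318 c5434 c5341 (k8 c14302 c5450 c5340 c5236 c5579 c5465 c5454 c3588 (k8 c5578 c5464 c5642 c9746 c9719 c5210 c5488 c5404 (k8 c5406 c5490 c9680 c14304 c14205 c753 c5666 c1146 (k2 c2815 c8161 k0))))) (by decide +kernel)
def c14306 : PP 9 3 T 0x1000000000040000020040000000000000000000000000000001100001000000400000000000405000000200000409150080000400000015500000008 := rS 0x1e448422d43f01419ad0e7b (k8 c5372 c5373 c5523 c5525 c8168 c1111 c1148 c3601 (k2 c12753 c684 (k1 c451 k0))) (by decide +kernel)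
def c14307 : PP 9 3 T 0x41000101040000000000000000040004000000000000000000000000000000000000000000000000000010000000000000000000000011 := rS 0x5aa3a260b3d674b42746164dc8b3e784886066b24eed5678d7bcd371b5d02310b81c7fe2940cde26933a5dfa9554eca225d0d80852234eaae2a2136a6567b41290c7a418e92c8f58 (k8 c5212 c5562 c5342 c5341 c5340 c5560 c5561 c9666 (k8 c14288 c5532 c5530 c5529 c5528 c5414 c5413 c5412 (k8 c5409 c8199 c5642 c1109 c9746 c9727 c5210 c5489 (k8 c5488 c5405 c5404 c9680 c9742 c9695 c8428 c5209 (k8 c5236 c5318 c5432 c5433 c5434 c5463 c5465 c5466 (k8 c5579 c14302 c5450 c5453 c5454 c5493 c5494 c5495 (k8 c14092 c3588 c13449 c14305 c2980 c1580 c285 c14205 (k8 c2814 c5644 c14306 c10425 c690 c956 c1691 c1149 (k1 c10415 k0))))))))) (by decide +kernel)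
def c14308 : PP 9 3 T 0x400000000029000020080000000000000000000000000000000100000000000000010000000000000000000000000151000000000000000000000000 := rS 0xf6b3fc2844d335066b43bf5529d559b532c7 (k8 c5357 c5530 c5529 c5413 c5412 c5489 c5405 c5373 (k8 c5523 c5525 c11628 c10443 c3601 c5536 c2562 c5541 (k1 c5688 k0))) (by decide +kernel)
def c14309 : PP 9 3 T 0x8000000000040000101080000000000000000000000000000000000000000000000400010000000000000050000040041000000000000000001400010 := rS 0xe08c37fbd9758 (k4 c5212 c5464 c8136 c14214 (k2 c5673 c5666 (k1 c753 k0))) (by decide +kernel)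
def c14310 : PP 9 3 T 0x400000000041000101000000000000000000000004000200000000000000000000000000000000000000000000100010080000200000000000000011 := rS 0x581b8e28cf799ce65d0d8091611 (k8 c9667 c685 c5642 c1109 c9746 c9719 c9680 c5582 (k4 c14205 c753 c5666 c14216 (k1 c1146 k0))) (by decide +kernel)
def c14311 : PP 9 3 T 0x4000000000041000101080000000000000000000004000000000000000000000000400210000000000000050000060001000000000000000000000000 := rS 0xd24f7b902a14699d5bb23e9fcee75 (k8 c5440 c5356 c5358 c5442 c5210 c5490 c9680 c753 (k4 c2929 c751 c5673 c11623 (k2 c5861 c2882 k0))) (by decide +kernel)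
def c14312 : PP 9 3 T 0x48000100000000000000000000000000000000000000000001000000000000000000000000000000050010000000100000000000000008 := rS 0x581b84ead5787436291290e3b58 (k8 c5212 c5341 c5561 c9666 c8199 c1109 c5486 c5406 (k4 c5490 c268 c5666 c3582 (k1 c1146 k0))) (by decide +kernel)
def c14313 : PP 9 3 T 0x4000000000028000000000000000000000200000000000000000000044000000540040000000100000000000000000000000001004140000000000000 := rS 0x5ac07e5e11d2b55efd54aae2ab31e9049647 (k8 c5562 c5342 c5340 c5560 c5532 c5414 c5413 c5489 (k8 c5405 c5406 c5490 c3590 c5456 c5691 c9158 c5548 (k1 c3623 k0))) (by decide +kernel)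
def c14314 : PP 9 3 T 0x100000000000100040000400000000000000000000400000000000000000000006000000001400000020000000001000000018000000008 := rS 0x8bc663727912f30a2e158b71b8190e2e4ba4 (k8 c5213 c5391 c5390 c5606 c5607 c5611 c269 c1115 (k8 c5652 c1348 c593 c592 c758 c2692 c3309 c3076 (k1 c3616 k0))) (by decide +kernel)
def c14315 : PP 9 3 T 0x220002020000000100000000000000000000000000100000000000000000000000000000000000000000000000000000000000000000000 := rS 0x181c5ae4dab7 (k4 c5533 c5529 c5415 c5390 (k2 c5607 c11785 k0)) (by decide +kernel)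
def c14316 : PP 9 3 T 0x20000021000000000000400000000004000000000115010000000000000000002100000000000000020000000001000000018000000008 := rS 0x8cc5fef06c27d60b0ff869636bbc3af770ad57bf706a9c8ecafaab5cadd1eb3899b57e1248def13f3 (k8 c5548 c5527 c5375 c5374 c267 c5015 c5529 c755 (k8 c5532 c2874 c5533 c5415 c5413 c9704 c5210 c5491 (k8 c5489 c5407 c5405 c5406 c5490 c14314 c5617 c5429 (k8 c5430 c2691 c14315 c5220 c5515 c5628 c5938 c3625 (k4 c3624 c5638 c3452 c3508 (k1 c5697 k0)))))) (by decide +kernel)
def c14317 : PP 9 3 T 0x1001400000000228100000000000000040800000000000000000000000000001000000000001000000000004000000000000000000000000000045400000 := rS 0x3e3e5fad19484e16aef0ea751e0c3b9111ae4422f618af5e4d (k8 c5604 c5603 c5601 c5348 c5347 c5528 c5415 c5409 (k8 c5491 c5486 c5407 c5614 c5428 c5429 c5430 c5612 (k4 c8139 c3580 c3583 c5630 (k2 c5620 c5624 (k1 c5205 k0))))) (by decide +kernel)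
def c14318 : PP 9 3 T 0x1000400000000060000121080000000000000000000004000200400101000008000500041000000100000000000000020000000000100020000004000008 := rS 0x3e1e5a37d5d50f76fdb73a526c8d8766b78e968d080b3fc2de7eaa557152a92c8e530b97d26191c8fd8237d6bfd1eb3133c55e2912ab43bb28ec0e1b0bf1fb91a674490dae41ac22c22c52d164125d0387cd649 (k8 c450 c5523 c1111 c5432 c9746 c5438 c280 c5644 (k8 c681 c9667 c685 c5212 c5340 c1763 c5561 c1898 (k8 c9680 c753 c5673 c8136 c5587 c5509 c5508 c5341 (k8 c5210 c5486 c5490 c9666 c8199 c5406 c9695 c3582 (k8 c5532 c2874 c11835 c5437 c5435 c5319 c5318 c5317 (k8 c437 c261 c5439 c1107 c5563 c5562 c5342 c5343 (k8 c5414 c5413 c5489 c5405 c14313 c5538 c2564 c2952 (k8 c5688 c3623 c1704 c3795 c14316 c5348 c5351 c5604 (k8 c12897 c14317 c5243 c5639 c5598 c5699 c8101 c9455 (k2 c5623 c5205 (k1 c5624 k0))))))))))) (by decide +kernel)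
def c14319 : PP 9 3 T 0x1001400000000068000100080000000040800000000000000200400014000001000000000000000000000004000000000000000001100000000045400000 := rS 0xf87968df57543ddbf6dce949b236195486418e92c8e53ac0fd83ad (k8 c5437 c5319 c5318 c5212 c5563 c5562 c5342 c5341 (k8 c5340 c5561 c5343 c5348 c5351 c5604 c12897 c14317 (k8 c5243 c5639 c5598 c5699 c8101 c9455 c5623 c5205 (k1 c5624 k0)))) (by decide +kernel)
def c14320 : PP 9 3 T 0x20000021000000000000400000000004000000000115000000000000000000002100000000000000020000000001000000018000000008 := rS 0x8cc5fef06c27d60b0ff846f4abbc3af770ad57bf706a9c8ecafaab5cadd1eb3899b57e1248def13f3 (k8 c5548 c5527 c5375 c5374 c267 c5015 c5529 c755 (k8 c5532 c2874 c5533 c5415 c5413 c9704 c5210 c5491 (k8 c5489 c5407 c5405 c5406 c5490 c14314 c5617 c5429 (k8 c5430 c14315 c2691 c5220 c5515 c5628 c5938 c3625 (k4 c3624 c5638 c3452 c3507 (k1 c5697 k0)))))) (by decide +kernel)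
def c14321 : PP 9 3 T 0x2000000000020000020080000000000000000000000000000000000000000000000000000000000000004000000000000000000000100000001400010 := rS 0x1363b (k2 c5456 c5536 (k1 c12306 k0)) (by decide +kernel)
def c14322 : PP 9 3 T 0x220000021000000100000400000000004000000000115020000000000000000401100000000000000000000000000000000000000000000 := rS 0x1198bfde0d848dfd60b0ff869577875eab55efdc1aa723b255ae56ff3 (k8 c5592 c5533 c5415 c5413 c5210 c5491 c5489 c5407 (k8 c5405 c5406 c5490 c5617 c5429 c5430 c14315 c5220 (k8 c5515 c5628 c5938 c3135 c3625 c3624 c5638 c3453 (k2 c3507 c5697 k0)))) (by decide +kernel)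
def c14323 : PP 9 3 T 0x10014000000000600001210800000000000000000000040002004001010000080000000a0000000100000000000000020000000000100020000004000008 := rS 0x3e61f27a3af30a2e158b71afbc0c86ff25d26e56b67b7c00757d0b97d261986c2fdc8d33a2c22892d164125d5f8484cf1578a44aad0eec8871dac07cd649 (k8 c450 c5523 c1111 c5212 c5341 c5561 c5210 c5486 (k8 c5490 c9666 c8199 c5406 c9695 c3582 c267 c5015 (k8 c9746 c5438 c280 c5644 c1898 c9667 c685 c9680 (k8 c753 c5673 c5587 c5509 c437 c261 c5439 c1107 (k8 c9704 c1704 c2135 c3795 c14319 c14320 c14322 c5213 (k8 c5391 c5389 c5606 c5607 c5609 c5611 c269 c1115 (k8 c5652 c1348 c593 c465 c758 c2905 c688 c3615 k0))))))) (by decide +kernel)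
def c14324 : PP 9 3 T 0x1000400000000020000020080000000000000000000000000000000000001008000000011000000000000004000000000000000000000100000001400010 := rS 0x4d33877e1 (k4 c14321 c449 c5688 c12306 (k1 c2562 k0)) (by decide +kernel)
def c14325 : PP 9 3 T 0x400000000060000121080000000000000000000004000200000100000000000100000000000100000000000000020010000000100020000000000018 := rS 0xd371b43c30966829e5ed4220cd6873499dfaa9d947c36ab36b1c2e5f49865e25a2c824ba39 (k8 c5317 c9746 c5438 c280 c5644 c9695 c437 c261 (k8 c5439 c1107 c5357 c5529 c5413 c1109 c9713 c5210 (k8 c5489 c5405 c9680 c9742 c5373 c5523 c5525 c3601 (k8 c5541 c684 c683 c2502 c4774 c14321 c14324 c4307 (k2 c14323 c14318 k0))))) (by decide +kernel)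
def c14326 : PP 9 3 T 0x400000000041000101000000000000000000040004000000000000000000000000000000000000000000000000000010000000000020000000000011 := rS 0x1f7aa43e6b479c05efecceb8595e36ac0dffee58c4d1e8d3811512c54581cb5282cb5c32f133ab55efd54eca22732e88d3aab8a9b567b4088948641ac1d42e5f498272402 (k8 c5642 c14307 c5438 c261 c5439 c1107 c5440 c5212 (k8 c5340 c5561 c9666 c9667 c14288 c5532 c5529 c5414 (k8 c5413 c5412 c5409 c9746 c9719 c9727 c5210 c5489 (k8 c5405 c5406 c5490 c9680 c9695 c437 c1763 c280 (k8 c5648 c5644 c5432 c685 c681 c1898 c14310 c14312 (k8 c753 c2874 c755 c14204 c5673 c11835 c5508 c5585 (k8 c8136 c11722 c1718 c14325 c5218 c5498 c5502 c5540 (k4 c3623 c5548 c5675 c10333 (k2 c10367 c9986 k0))))))))) (by decide +kernel)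
def c14327 : PP 9 3 T 0x400000000020000020080000000000000000000000000000000100001000000000010000000001000004000000000150000000000150000001400050 := rS 0xcdf6a119fe1419ac1a873daacdac7 (k8 c5357 c5529 c5413 c5372 c5373 c5522 c5523 c5525 (k4 c14321 c11576 c3601 c5541 (k2 c2502 c5688 k0))) (by decide +kernel)
def c14328 : PP 9 3 T 0x41000101080000000000000000000000000000000000000000000000080200000010010000000000040000000000000000000000000000 := rS 0x13fe3 (k2 c5579 c2882 (k1 c11623 k0)) (by decide +kernel)
def c14329 : PP 9 3 T 0x49000101080000000000000000000000000200000000000000000000000000000000000004110000060000004000100010000004400000 := rS 0x97bd02d465b4daec81881c7e330cbc55a970ea5422431e9063b58049f5427f (k8 c5358 c2929 c5442 c5438 c5212 c5341 c5340 c5560 (k8 c5561 c9667 c5488 c5486 c5404 c5490 c9695 c5315 (k8 c5316 c5318 c5432 c5434 c3577 c2190 c14328 c1325 (k4 c3588 c752 c5585 c12613 (k1 c8818 k0))))) (by decide +kernel)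
def c14330 : PP 9 3 T 0x400000000069000120080000000000000000040004000100000400000000000040000000000000010000000100040050000000000000000000000000 := rS 0x60f1b85a3e0f6a11066b439a5faa988aacda99 (k8 c5530 c5529 c5413 c9727 c5489 c5405 c9742 c5373 (k8 c5523 c5525 c3601 c5541 c5165 c5459 c5460 c11976 (k2 c14308 c11607 k0))) (by decide +kernel)
def c14331 : PP 9 3 T 0x2000000000000008000111000000000000000200000000000000001400000000000000000000000404000000550150500000000000100010001506000011 := rS 0x1ea5b05a4189f369ad13d03137b9aeb178ab55efd0eaa4e62921c7602ff (k8 c5544 c5502 c5341 c5561 c8199 c9719 c5489 c5486 (k8 c5405 c5406 c5490 c9695 c14204 c13349 c5673 c3582 (k8 c5508 c380 c3623 c2882 c5548 c5861 c5675 c12878 (k2 c682 c10333 (k1 c10419 k0))))) (by decide +kernel)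
def c14332 : PP 9 3 T 0x5000000000000000000000000000000000000000000000000001400000000000540000040000400000000400151000000000004400000015502004000 := rS 0xd8f41e489256bf2 (k8 c5691 c5548 c5588 c5589 c3584 c3610 c1165 c1478 k0) (by decide +kernel)
def c14333 : PP 9 3 T 0x2000000000000008000111000000000000000200000000000000000400000000000200000000000004000000000000000000040000000008000500000011 := rS 0xf5058dfe6f17e875523d (k8 c5560 c5489 c5486 c5405 c9695 c5591 c1483 c12878 (k2 c2046 c10419 k0)) (by decide +kernel)
def c14334 : PP 9 3 T 0x2000000000028000000000000000000000000000000000000000000000045000000000000000000000000000000000000000000000008000006000000 := rS 0x1ea1f66a6dfa1d5488d5621 (k8 c5528 c5413 c5409 c5489 c5486 c5405 c5536 c5537 (k2 c1164 c2045 (k1 c3581 k0))) (by decide +kernel)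
def c14335 : PP 9 3 T 0x5000000000041000000000000000000000000000000000000001400000000000100000040000400010100400151000000000004400000015502004000 := rS 0x71279becb (k4 c1320 c14125 c5680 c14332 (k1 c1607 k0)) (by decide +kernel)
def c14336 : PP 9 3 T 0x80000000000000000000000000000000400000020000540000000000000000000400100000000020000000400000000000000 := rS 0x1e81491639f4f27f (k8 c5358 c5441 c5442 c5357 c10333 c1948 c3610 c691 k0) (by decide +kernel)
def c14337 : PP 9 3 T 0x400000000041000101000000000000000000040004000000000000000000000000000000000000000000000000000010000000100000000000000011 := rS 0x1ed220a0f3d5c7e2f0b84643113960265b453cdefeccea05becb1d86252a189a251e8d383c4cefd0eaa7640f39974ae1b1488d3aab8a884da9959ed022252591eb0c73e9e4fe773a85cbe9304e480435 (k8 c14326 c5642 c14307 c5438 c261 c5439 c1107 c5440 (k8 c5356 c5358 c5441 c5442 c5357 c5212 c5562 c5342 (k8 c9666 c9667 c14288 c5532 c5530 c5529 c5528 c5414 (k8 c5413 c5412 c5409 c8199 c1109 c9757 c9746 c9719 (k8 c9739 c5210 c5489 c5486 c5405 c9680 c9695 c14312 (k8 c753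 c2874 c2873 c755 c2929 c14329 c5648 c12293 (k8 c1320 c14125 c752 c14330 c5218 c5498 c5540 c14331 (k8 c685 c2976 c5644 c267 c1945 c5653 c14333 c14334 (k8 c14335 c5466 c14336 c5816 c10419 c10367 c691 c3610 k0))))))))) (by decide +kernel)
def c14338 : PP 9 3 T 0x2000000000000028000111080000000000000200000000000000000000000010000040000400000000000000000000020000040000000000001004000051 := rS 0x707c8f69105079e2fd0eaa4042355885eef347ace266d (k8 c5529 c755 c5532 c2874 c5540 c5498 c5528 c5413 (k8 c5409 c5642 c5489 c5486 c5405 c9695 c5816 c10419 (k4 c10367 c690 c12878 c11724 (k1 c5591 k0)))) (by decide +kernel)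
def c14339 : PP 9 3 T 0x400000000041000101000000000000000000040004000200000000000000000000000000000000000000000000000010000000000000000000000011 := rS 0x71245e8df40a862670f61bf3a8a65b44b0c82d8dc62071c8cc32f13499d2efd0ea5553b2889ccba1b559b567b4ac0958e7d3c9fcea172fa4c13920134c8835 (k8 c14326 c14337 c2937 c5642 c14307 c5438 c261 c5439 (k8 c1107 c5440 c5358 c5441 c5442 c5357 c9666 c5212 (k8 c14288 c5532 c5529 c5413 c1109 c9746 c9719 c9727 (k8 c5210 c5489 c5488 c5486 c5405 c5404 c9680 c9742 (k8 c9695 c5315 c5316 c5317 c5432 c5434 c5435 c14310 (k8 c3577 c5644 c2133 c1325 c285 c14327 c2979 c5218 (k8 c5666 c755 c2929 c752 c14125 c14338 c10333 c14293 (k1 c13204 k0)))))))) (by decide +kernel)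
def c14340 : PP 9 3 T 0x400000000041000101000000000000000000040004000000000000000000000000000000000000000000000000020010000000000000000000000011 := rS 0x701e48bd7e4e3f1f85c2d41f098641218b3de6f72c7b0b79d6fa2902a189a3d1af133bf43aa9d91ccba1b55884dab308d60fe751a91076234eed1961894a4c12172fe480429 (k8 c8199 c5642 c14307 c5439 c1107 c5438 c261 c14339 (k8 c5648 c1320 c14288 c5412 c5409 c12293 c14337 c14326 (k8 c5440 c5358 c5212 c9667 c5532 c5529 c5528 c5413 (k8 c1109 c9746 c9719 c5210 c5489 c5486 c5405 c9680 (k8 c9695 c753 c2874 c755 c2929 c752 c14205 c14125 (k8 c14330 c685 c5218 c5644 c5498 c5540 c5543 c1945 (k8 c284 c5653 c2868 c389 c390 c14333 c14334 c5576 (k4 c1662 c5691 c14336 c5589 (k2 c5816 c12487 (k1 c2473 k0)))))))))) (by decide +kernel)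
def c14341 : PP 9 3 T 0x40000020000000000000000000000000000000001100001000000000000000000405000000200000009150080000400000015500000008 := rS 0xf2242116a1f80a0cd687 (k8 c5373 c5523 c5525 c2141 c1111 c1148 c3601 c12753 (k2 c684 c451 k0)) (by decide +kernel)
def c14342 : PP 9 3 T 0x1000000000000080000000000400000000000000000000000004400400015502000000 := rS 0x1f248dd6acb (k4 c1320 c2515 c2331 c2947 (k2 c1165 c3584 k0)) (by decide +kernel)
def c14343 : PP 9 3 T 0x2000000000000048000110000000000000000000000000000000001400000000000000000000000400000000000000050010000000000000000500000008 := rS 0x168ef9c096aa9148949647ac09d226e (k8 c5666 c3038 c268 c5212 c5562 c5342 c9666 c8199 (k4 c5489 c1149 c10401 c5550 (k2 c5675 c12878 (k1 c10415 k0)))) (by decide +kernel)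
def c14344 : PP 9 3 T 0x400000000041000101000000000000000000040004000000000000000000000000000000000000000000000000000010000000000000000000000011 := rS 0x334f639051a81a838933d0ad143fb33ac5181691859459b84e711dca513ef220d4d2677eaa7640f889ccba2911a755715109b567b41292c8f58639e4ee75498272402 (k8 c5642 c14307 c5438 c261 c5440 c5356 c5441 c5357 (k8 c5212 c5562 c5342 c9666 c14288 c5532 c5529 c5528 (k8 c5414 c5413 c5412 c5409 c8199 c9746 c9719 c9727 (k8 c9739 c5210 c5489 c5405 c9680 c9742 c14326 c14337 (k8 c5582 c2834 c14339 c12293 c14340 c268 c5666 c2979 (k8 c285 c5673 c5644 c9931 c682 c14341 c5218 c5499 (k8 c5501 c5541 c5543 c14343 c2605 c2598 c3601 c5645 (k4 c4652 c691 c1917 c3607 k0)))))))) (by decide +kernel)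
def c14345 : PP 9 3 T 0x8000000000000000000000000000000000200000000000001000000000100000000000004000000000000000000000014000004400000 := rS 0x310ca5c3a95 (k4 c5488 c5486 c5404 c5315 (k2 c5434 c3577 k0)) (by decide +kernel)
def c14346 : PP 9 3 T 0x1000000000028000000000000000000000000040000000100000000000045000000001000000000000800000000000000000000000400000044000000 := rS 0x391bbd1fa1d5488d5621 (k8 c5528 c5413 c5409 c5489 c5486 c5405 c3581 c2327 (k2 c2474 c5654 k0)) (by decide +kernel)
def c14347 : PP 9 3 T 0x1000000000020000111080000000000000000040004000100000000000000000040001100000000000000000000020000000000001400001006004008 := rS 0x1c27b488d83c9a79b45efec78a5d2aa9d92755699658a51eb3 (k8 c5532 c2874 c8199 c1320 c5530 c5413 c5412 c5210 (k8 c5489 c5488 c5404 c9695 c5218 c5498 c5501 c5540 (k4 c8724 c14346 c1165 c10367 (k2 c1478 c1483 (k1 c11724 k0))))) (by decide +kernel)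
def c14348 : PP 9 3 T 0x800000000061000101080000000000000000040004000000000000000000000000000000000000000000000000020010000000000000000000004008 := rS 0x38dc2fe81a1203f3f6a0cd691ce21cb68a6ffbd02a189a251e8d56bf5531136acc2225218f4824bac31cfa793fb3daa603bb14c6954b99cd3e166a65563b11a75961894b2466350dec9e2930485cbe29 (k8 c8199 c5439 c1107 c5438 c261 c9695 c5210 c1109 (k8 c5450 c5492 c5494 c14345 c5648 c1320 c5412 c5409 (k8 c12293 c5413 c5530 c5495 c6325 c9742 c9680 c5404 (k8 c5488 c9752 c5451 c5356 c14285 c5454 c5453 c5358 (k8 c5441 c5442 c5357 c5212 c5342 c5340 c5560 c5561 (k8 c9666 c9667 c5532 c5529 c9727 c5489 c5405 c5490 (k8 c753 c2874 c2873 c755 c2929 c752 c10618 c14125 (k8 c5673 c685 c11253 c14347 c5374 c5523 c5525 c10400 (k8 c14109 c3068 c3601 c2629 c5694 c3012 c2574 c5864 k0))))))))) (by decide +kernel)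
def c14349 : PP 9 3 T 0x41000101000000000000000000040004000000000000000000000000000000000000000000000000000010000000000000000000000011 := rS 0x6c7a0f20d351242bcda2877bfb33a5a46165128b221b84e711d86253e166b2466cf1ab17bc930b9d4ee7963824bf9223896b0f13499d5e977ea5553b207c44e65d0d80852234eaae2a2136a6567b4 (k8 c14288 c5532 c5530 c5529 c5528 c5414 c5413 c5412 (k8 c5409 c8199 c5642 c1109 c9746 c9719 c9727 c9739 (k8 c5210 c5489 c5488 c5405 c5404 c5406 c9680 c9742 (k8 c9695 c5212 c9666 c5562 c14307 c5439 c5438 c5357 (k8 c5441 c5356 c5440 c1107 c261 c14344 c5451 c5450 (k8 c5453 c5492 c5494 c5495 c6325 c14345 c5648 c12293 (k8 c14348 c268 c5666 c14312 c2979 c8124 c285 c14205 (k8 c5644 c14341 c5218 c5498 c5499 c5501 c5540 c5541 (k4 c14343 c8724 c2605 c14346 (k2 c3607 c1165 (k1 c1478 k0))))))))))) (by decide +kernel)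
def c14350 : PP 9 3 T 0x10000000000000a0000101080000000000000000040004000000000000040018000000020000000000000000000004000000080000100120000004000000 := rS 0x69a25c0df0992be647803fdaa8df722c92d7acbc55aaf7e87553b214aae2ab358ad4fa7f3b9d63a3a (k8 c1704 c3772 c5440 c5356 c5358 c5442 c5422 c5421 (k8 c5532 c5414 c5413 c8199 c5210 c5489 c5486 c5405 (k8 c5406 c5490 c9695 c14226 c1764 c10428 c686 c5219 (k8 c5505 c5585 c5586 c3623 c2536 c5592 c5660 c3652 (k4 c2510 c563 c1899 c2136 (k1 c8163 k0)))))) (by decide +kernel)
def c14351 : PP 9 3 T 0x4000000000a0000121080000000000000000040004000200000000000000000000000000000000000000002000000000000000000020000004000011 := rS 0x3c44bf791074d081829e45a2cbf76419198e47e17188f4f7ed7a974fa93048099ac7 (k8 c5357 c2502 c5642 c5438 c261 c5442 c9746 c2336 (k8 c5541 c5372 c5436 c5434 c5433 c5318 c5317 c5316 (k8 c5315 c5210 c5405 c280 c5644 c684 c683 c4745 (k4 c14324 c1704 c14350 c5582 (k2 c3736 c14240 (k1 c14237 k0)))))) (by decide +kernel)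
def c14352 : PP 9 3 T 0x400000000080000121080000000000000000040004000200000000000000000000000000000000000000000000000010000000000000000000000011 := rS 0x341903549825e21b0106466390385c6e844199dfa6b88a1d566dda2a76469 (k8 c9742 c5210 c5489 c14288 c5529 c5413 c5373 c9727 (k8 c5523 c5405 c9680 c5525 c3601 c5435 c5433 c5432 (k8 c5317 c5316 c5315 c5642 c1109 c9695 c5438 c261 (k4 c14351 c14345 c14327 c2133 k0)))) (by decide +kernel)
def c14353 : PP 9 3 T 0x400000000021000021040000000000000000000004000000000100000000000000000000000000000000000000100010080000000000000000000048 := rS 0x309d98a6933bf553b2 (k8 c5210 c5489 c5405 c9680 c9742 c681 c5668 c724 (k1 c14300 k0)) (by decide +kernel)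
def c14354 : PP 9 3 T 0x10000000000000a0000101000000000000000000040004000000000000000010000000008000000000000000000000000000000000101800000004000000 := rS 0xf978dc70070925fed58eb7e07eeacab55efd0eaa7642955c5566b15af8536f1 (k8 c9695 c5856 c5456 c5422 c5421 c5532 c5414 c5413 (k8 c8199 c5210 c5489 c5486 c5405 c5406 c5490 c14226 (k8 c5219 c10772 c5851 c5504 c5585 c5586 c10428 c1652 (k4 c3623 c1774 c14079 c5691 (k1 c5592 k0))))) (by decide +kernel)
def c14355 : PP 9 3 T 0x4000000000a1000121040000000000000000040004000200000000000000000000000000000000000000000000000010000000000020000000000008 := rS 0x11340c0dc68a20c77de44f09f58ece1d181ec5f79b1010582d9d5e2630da7c0e3d06fb5ea844199dfa6b88a1d566d54ec8d25d (k8 c9746 c9742 c5210 c5489 c5529 c5413 c5373 c9727 (k8 c5523 c5405 c9680 c5525 c3601 c2336 c5541 c5522 (k8 c5436 c5432 c5572 c1109 c9752 c9695 c1527 c14353 (k8 c5644 c280 c281 c282 c1630 c5657 c5663 c501 (k8 c502 c726 c1579 c5456 c14354 c5582 c190 c3646 (k4 c285 c10455 c2195 c1744 (k2 c859 c14289 k0))))))) (by decide +kernel)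
def c14356 : PP 9 3 T 0x400000000001000121000000000000000000040004000200000000000000000000000000000000000000000000000010000000000000000000000011 := rS 0x33fc29a498ec12cd68b118e753b9806b93f6a103e8335a1de26933bf553b28886c04234eaac426d4ced36c19198e42e31 (k8 c5434 c5433 c5317 c5316 c5315 c14349 c14288 c5530 (k8 c5529 c5528 c5413 c5412 c5409 c5642 c1109 c9727 (k8 c5210 c5489 c5405 c9680 c9742 c9695 c5373 c5523 (k8 c5525 c1111 c3601 c5541 c14352 c14355 c14092 c724 (k8 c1576 c726 c5668 c10484 c2502 c1627 c6899 c261 (k4 c6193 c5536 c2562 c5688 k0)))))) (by decide +kernel)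
def c14357 : PP 9 3 T 0x4000400000000080000101000000000000000000000004000000000000000000000000000000000000000004000000000000000000005005000005400000 := rS 0x788529f6589c4b58 (k8 c5219 c5559 c5570 c5420 c5572 c8199 c14240 c7824 k0) (by decide +kernel)
def c14358 : PP 9 3 T 0x2000000000000028000001000000000000000000000000000000000000000000000000000000000000000000000000000000040000000000000000002411 := rS 0x7abc5fa1d5488d5621 (k8 c5528 c5413 c5409 c5489 c5486 c5405 c9695 c2366 (k1 c10419 k0)) (by decide +kernel)
def c14359 : PP 9 3 T 0x400000000001000101000000000000000000040004000200000000000000000000000000000000000000000000000010000000000000000000000011 := rS 0xc43a968160c3d787c5933b980105f49096b1eff66747a310b81c7e330cec8ce630d80846ab10a6769b6 (k8 c14349 c14288 c5530 c5528 c5413 c5409 c5642 c1109 (k8 c9752 c9680 c5210 c5315 c5316 c5318 c5432 c5433 (k8 c5434 c5436 c14356 c5218 c13184 c5219 c5559 c14357 (k8 c1517 c261 c262 c11141 c5438 c5186 c7833 c10425 (k4 c1685 c690 c14358 c1576 (k2 c5668 c681 k0)))))) (by decide +kernel)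
def c14360 : PP 9 3 T 0x40000000000000080000101080000000000000000040004000000000000000008000000000010000000000000000000000000010000100084000004001000 := rS 0x44b4d02101e1288eff6ba37dc49acbc764293e9fcee75 (k8 c5440 c5356 c5358 c5442 c8199 c5210 c9695 c14226 (k8 c450 c5219 c5505 c5507 c5586 c2536 c5660 c2593 (k4 c12638 c12620 c2769 c2750 (k1 c5861 k0)))) (by decide +kernel)
def c14361 : PP 9 3 T 0x400000000080000101080000000000000000040004000100001000000010000000000000000404001100002000000000080000000010000544001000 := rS 0x40490d66991c4a4bf79106cd56740d92c5053c866302cabd2efd4aaa4529f6589d6a7766b1fc6dff9f83dbb2 (k8 c5210 c5541 c5165 c7210 c5538 c6324 c5357 c2502 (k8 c5356 c5422 c5570 c5420 c5572 c8199 c5489 c5488 (k8 c5405 c5404 c5406 c32 c9931 c2041 c684 c683 (k8 c682 c1914 c4745 c13449 c10677 c1473 c14360 c5582 (k8 c461 c2968 c2973 c2937 c5689 c3584 c10483 c451 k0))))) (by decide +kernel)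
def c14362 : PP 9 3 T 0x1000120000000000000000000000000000000000000000000000140000000000000000000000051001004400000810000000000000000 := rS 0x8071842268f (k4 c5526 c12623 c13598 c2348 (k2 c5864 c700 k0)) (by decide +kernel)
def c14363 : PP 9 3 T 0x40000000000000080000101000000000000000000000004000000000000000080000000000000000000000000000000000000000000500000000004000000 := rS 0x11d24fb8495978ec85243 (k8 c2108 c8199 c5210 c9695 c14226 c14251 c5219 c10629 (k2 c5504 c8188 k0)) (by decide +kernel)
def c14364 : PP 9 3 T 0x400000000081000121000000000000000000040004000100001000000000000000000000000404001100000000001010000000000000000500000008 := rS 0x206d48e9108ef6193cc62582dfcdbee1f03d7da840fa0cd60d439a4ceaf7eaa765112e98c369f65ad4fa793f9d724357890430172fa4c1229 (k8 c8199 c9669 c261 c9668 c1107 c5648 c543 c9695 (k8 c437 c5209 c5440 c5358 c5441 c5442 c5422 c5420 (k8 c5572 c1109 c9752 c9746 c9727 c5210 c5489 c5405 (k8 c5406 c9680 c9742 c5373 c5522 c5523 c5525 c1111 (k8 c3601 c5541 c2336 c5165 c5460 c5538 c7210 c14361 (k8 c5644 c1945 c282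 c5653 c5657 c14362 c14363 c190 (k2 c390 c2195 (k1 c10677 k0)))))))) (by decide +kernel)
def c14365 : PP 9 3 T 0x20004000000000a8000000000000000000000000000000000000000000000000000040040000000000000000000000000000000000001002000004000000 := rS 0x7178534e166b5bc6d564a5dfa9554a7532b568b3fdeabf9c0a0315 (k8 c5414 c5502 c6986 c5550 c5413 c13184 c5543 c5501 (k8 c5422 c5530 c5412 c5489 c5488 c5405 c5404 c1914 (k8 c1475 c6616 c5689 c2192 c1720 c8724 c13449 c5691 (k1 c2621 k0)))) (by decide +kernel)
def c14366 : PP 9 3 T 0x400000000001000101000000000000000000040004000000000000000000000000000000000000000000000000000010000000000000000000000011 := rS 0x44914e0f1961a83ef096c643169b7c884b1e8948f58f9fbe048579c05efecce8d4303b0ba4cee5f04e4a52f1d917436021488d3aab8a884da9959ed04fb6 (k8 c14349 c5570 c14288 c5532 c5530 c5529 c5528 c5414 (k8 c5413 c5412 c5409 c8199 c5642 c1109 c9746 c5210 (k8 c9695 c14359 c5209 c9669 c9668 c5356 c261 c1107 (k8 c12293 c5648 c437 c14364 c5218 c5498 c5502 c5540 (k8 c5541 c6986 c13184 c5550 c5219 c10418 c5559 c5560 (k8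 c5342 c14226 c14342 c2937 c14365 c5653 c9931 c14334 (k8 c389 c390 c5644 c5576 c6631 c285 c14333 c858 k0))))))) (by decide +kernel)
def c14367 : PP 9 3 T 0x4000000000008000100000000000000000000000004000200000000000001000000000100000000004000000000000010000000010014000000000008 := rS 0xfa7f40e4cc008490c42e070ca5c3a1b (k8 c1109 c5486 c5404 c5315 c5432 c5433 c5434 c14345 (k4 c9863 c262 c5438 c1744 (k2 c10398 c1579 (k1 c5670 k0)))) (by decide +kernel)
def c14368 : PP 9 3 T 0x101000000000000000000000000000000000000000000000000000000000000000000006000000000180002200000000000010000 := rS 0x463fd16f7 (k4 c2101 c685 c3007 c14205 (k1 c950 k0)) (by decide +kernel)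
def c14369 : PP 9 3 T 0x800000000000000121000000000000000000040004000000101000000000000000000000001404000000000000051012000004600000005500010008 := rS 0x44a066f7b229e6582dbd490840ffb51e833583522873499dfaa9d9444ba29 (k8 c8199 c9746 c9727 c5210 c5489 c5405 c9680 c9742 (k8 c5373 c5374 c5522 c5523 c5525 c5526 c10400 c1111 (k8 c3601 c3584 c2336 c14368 c5644 c282 c285 c5657 (k4 c2979 c2195 c3604 c859 k0)))) (by decide +kernel)
def c14370 : PP 9 3 T 0x1000101000000000000000000040004000000000000000000000000000000000000000000000000000010000000000000000000000011 := rS 0x6b38fe69a81405a3ecceb7c303b0ba4cc05f04e4a52442392e3a4108896b1e1f7f8d9ac93b8cc6ac5ef2d5622765a7ce3b6789a4cead57a5dfa9554ec8e6630d80852234eaae2a2136a6567b4 (k8 c14288 c5532 c5530 c5529 c5528 c5414 c5413 c5412 (k8 c5409 c8199 c5642 c1109 c9752 c9719 c5210 c5489 (k8 c5488 c5405 c5404 c5406 c5490 c9680 c9742 c9695 (k8 c14349 c5571 c5572 c5420 c5570 c5421 c5422 c14366 (k8 c5451 c5450 c5492 c5493 c5494 c5495 c6601 c11257 (k8 c6325 c5219 c5559 c5558 c5340 c5341 c5342 c5562 (k8 c14226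 c14367 c5209 c9669 c9668 c14285 c261 c1107 (k8 c12293 c5648 c14342 c14369 c5218 c5501 c5502 c6986 (k4 c8724 c5550 c2621 c8572 (k1 c10298 k0)))))))))) (by decide +kernel)
def c14371 : PP 9 3 T 0x2000021000000000000000000040004000200000000000000000000000000000004001100000000001010000000000000000500000008 := rS 0x31d88cd2c3d8b6f368bd7da3a4264c3e833c9ad0e6933a5dfaa988a4c329b308cc72171bf7cea340dec9e25d (k8 c9746 c9695 c5210 c1109 c14275 c1527 c5450 c5435 (k8 c5433 c5317 c5316 c5445 c5397 c5393 c5444 c9727 (k8 c5489 c5405 c5404 c9680 c9742 c5373 c5523 c5524 (k8 c5525 c1111 c10443 c3601 c3578 c5541 c2336 c10484 (k8 c449 c684 c5657 c5644 c2071 c281 c839 c13983 k0))))) (by decide +kernel)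
def c14372 : PP 9 3 T 0x2000001080000000000000000000004000200000000000000000000000000000000000000000000000010000000000000000000000008 := rS 0x2d96588770497cd2674ba54c6c93081cea340dec9e25d (k8 c9746 c9695 c5210 c1109 c14275 c1527 c5432 c5445 (k8 c5396 c9752 c5488 c5404 c9680 c9742 c5439 c5438 (k4 c5356 c3597 c280 c681 (k1 c5644 k0)))) (by decide +kernel)
def c14373 : PP 9 3 T 0x200000000000004a000101000000000000000000000000000000001000000000000000400000000404001100100000040000080000000000000000000000 := rS 0xd365b7fe6b481fb9628945ab55efd0890eb1017fb3136a94aa5da2c9 (k8 c5396 c5501 c5404 c5488 c5489 c5397 c8724 c5544 (k8 c5502 c5212 c5561 c9667 c5405 c5406 c5490 c685 (k8 c1898 c14204 c5673 c5508 c3623 c5548 c2514 c8890 (k2 c12473 c5892 k0)))) (by decide +kernel)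
def c14374 : PP 9 3 T 0x40000101000000000000000000040004000200000000000000000000000000000000000000000000000010000000000000000000000011 := rS 0x5830f47963820ee582da3727e167a15a3ecce9d7bed71a0c42e0719bc4ce977ea5553b239974360211a755715109b532b3da27c32c94d9045293d80963b58 (k8 c5212 c5341 c9666 c14370 c5444 c8199 c13854 c5397 (k8 c5396 c5393 c5448 c14288 c5532 c5530 c5529 c5528 (k8 c5414 c5413 c5412 c5409 c5642 c1109 c9746 c9719 (k8 c5210 c5489 c5488 c5405 c5404 c9680 c9695 c5316 (k8 c5432 c5433 c5434 c14275 c14269 c5450 c1527 c14371 (k8 c5218 c5501 c5541 c5543 c8772 c14372 c14254 c14373 (k8 c5644 c2051 c280 c14212 c8612 c5669 c1685 c690 (k1 c14358 k0)))))))) (by decide +kernel)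
def c14375 : PP 9 3 T 0x2000000000000042000101000000000000000000000004000000001000000000000000400000000404001100000000440000400000000020000000000108 := rS 0x3f6589da67146168b3b2339753ea10c9045293128f6b017 (k8 c1107 c5212 c5560 c9666 c5444 c8199 c13854 c5393 (k8 c5398 c5448 c9746 c9680 c5210 c280 c5644 c14373 (k4 c753 c2083 c268 c8466 (k2 c442 c3579 k0)))) (by decide +kernel)
def c14376 : PP 9 3 T 0xa00000000000000a000000000000000000000000000000000000001000000000000000400000000404001100000000000000000000000000000000000000 := rS 0x34d96dff9ad206b156abdfb017fb3136a94aa5da2c9 (k8 c5396 c5501 c5404 c5488 c5489 c5397 c8724 c5544 (k8 c5502 c5405 c5406 c5490 c5506 c5508 c3623 c5548 (k4 c2514 c8890 c12473 c5892 k0))) (by decide +kernel)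
def c14377 : PP 9 3 T 0x4000400000000048000101000000000000000000000000000100000000000000000000400000000000014004100040040010000000100000000001400008 := rS 0xd5f18f9a68a449c1e297ac1045225 (k8 c9666 c8199 c13854 c5212 c5404 c9695 c14312 c2873 (k4 c5673 c2938 c14260 c5576 (k2 c2996 c5689 k0))) (by decide +kernel)
def c14378 : PP 9 3 T 0x40000101080000000000000000040004000000000000000000000000000000000000000000000000000010000000000000000000000011 := rS 0x7c9c2cbf1c4dc6df6a0f914d3227bd1a582d8c86be16bb31fecf42b4463dff63133a173b9fc125f789a4ce977e8752aa9d91ccba630d808469d55c54429959ed13ea10cb253661208a527b012c76b129 (k8 c14374 c5212 c5341 c9666 c14370 c5444 c8199 c13854 (k8 c5445 c5397 c5396 c5393 c5398 c5448 c14288 c5532 (k8 c5530 c5528 c5414 c5413 c5412 c5409 c5642 c1109 (k8 c9752 c9746 c9719 c5210 c5489 c5488 c5486 c5405 (k8 c5404 c9680 c9742 c9695 c5439 c5438 c5358 c5356 (k8 c1107 c8483 c14285 c5218 c5451 c1470 c5501 c5541 (k8 c5543 c5544 c8724 c14269 c8772 c14375 c3577 c682 (k8 c5644 c2169 c14376 c14377 c2937 c14205 c389 c390 (k8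 c12713 c2624 c858 c5576 c1660 c14333 c5691 c5271 k0))))))))) (by decide +kernel)
def c14379 : PP 9 3 T 0x8000000000000048000100040000000000000000000000000000000000000001000000100010000000000000050000540011000000000000000000000088 := rS 0x1c48ad7589f47b58 (k8 c5212 c5560 c1456 c5506 c5507 c5582 c8284 c14312 k0) (by decide +kernel)
def c14380 : PP 9 3 T 0x1000000000040000121040000000000000000040004000100001000000000000000020000000404000000000000041011080000000000000500000008 := rS 0x3709ce28cf79d5c6061c0ec6e8945829e4f72cbc452111290c9647ac3146ad53bf79088333bf4d71143aa76469 (k8 c9742 c5210 c5489 c5373 c9727 c5523 c5405 c9680 (k8 c5525 c3601 c5214 c5493 c5454 c5450 c5451 c5212 (k8 c5562 c5342 c5561 c9666 c9667 c8199 c9695 c32 (k8 c2101 c684 c683 c685 c1898 c1482 c448 c5654 (k8 c2471 c2617 c1453 c14379 c5673 c753 c268 c5666 (k1 c14306 k0)))))) (by decide +kernel)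
def c14381 : PP 9 3 T 0x800100000000000a000000000000000000000000000000000000001000040000000000060000000404001000000000000000000000000000000000000000 := rS 0xdff9ad202e1f1b8d94ff6bac55aaf4bbf5529b (k8 c5397 c5489 c5405 c5404 c5406 c5490 c5506 c5507 (k8 c5586 c8156 c1779 c5464 c1718 c9158 c3623 c5548 (k2 c2514 c5691 k0))) (by decide +kernel)
def c14382 : PP 9 3 T 0xa000000000000000000000000000000000000000100000001000000000000000000001000000005001404020000000114000004400000 := rS 0xbec7030c12e1d4aa4c32c9 (k8 c5396 c5393 c5444 c5488 c5486 c5404 c3577 c1946 (k2 c675 c1450 (k1 c13168 k0))) (by decide +kernel)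
def c14383 : PP 9 3 T 0x1000000000000000100040000000000000000000000000000000000000000000140000040000000000000400055021001000000000000000000000000 := rS 0xf13890313 (k4 c755 c751 c5910 c5670 (k1 c5466 k0)) (by decide +kernel)
def c14384 : PP 9 3 T 0x40000101000000000000000000040004000000000000000000000000000000000000000000000000000010000000000000000000000011 := rS 0x1146e139c460df708d98e7d3f8ec0c161cbd9e6582dbd5081f47a0cf26b06a1cf79cf0fb5a0cd1af7867939491c7b5808bc4d2677eaa7651139974c61b0108d3aab8a884da9959ed0c3b0 (k8 c14370 c5445 c14288 c5532 c5530 c5529 c5528 c5414 (k8 c5413 c5412 c5409 c5642 c1109 c9752 c9746 c9719 (k8 c9727 c5210 c5489 c5405 c9680 c9742 c9695 c9667 (k8 c5212 c5560 c5562 c14374 c14378 c8428 c5214 c5450 (k8 c5495 c13565 c10390 c6325 c5218 c5372 c5373 c5522 (k8 c5523 c5524 c5525 c5526 c1111 c3601 c2336 c14380 (k8 c5644 c282 c5657 c397 c14382 c1108 c1677 c676 (k8 c1456 c675 c5654 c1483 c2331 c1481 c14383 c268 (k2 c5666 c14283 (k1 c2979 k0)))))))))) (by decide +kernel)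
def c14385 : PP 9 3 T 0xa2000101080000000000000000040004000000000000000000000000000000000000000000000000040010000000000000000000000008 := rS 0xd1a65a46165168044b5c7c448e9044b58f78c7bfec626742f293b9fcbef13499d2e95d9174c61b14aad261964984e2cb (k8 c5420 c5571 c5445 c5396 c5393 c5444 c5413 c8199 (k8 c1109 c9752 c9746 c5210 c5488 c5404 c9680 c9742 (k8 c9695 c5439 c5358 c5356 c14372 c1107 c8483 c14285 (k8 c5218 c5451 c1470 c13184 c5219 c5559 c5340 c5341 (k8 c14226 c13756 c14269 c2834 c13972 c857 c285 c14205 (k4 c5644 c2083 c9931 c442 k0)))))) (by decide +kernel)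
def c14386 : PP 9 3 T 0x82000101000000000000000000000004000200000000000000000000000000000000000000000000000010000000000000000000000009 := rS 0x34ef3c7641b (k4 c1109 c5210 c9695 c14266 (k2 c14275 c5450 k0)) (by decide +kernel)
def c14387 : PP 9 3 T 0x101000000000000000000040004000000000000000000000000000000000000000000000000000010000000000000000000000011 := rS 0x1027d3f9780c3d0885ab1eff19dc6ac5ef4a4679365ed993b0da6c8e602 (k8 c5642 c9719 c5210 c14288 c14370 c5396 c14384 c5420 (k8 c14385 c8428 c14386 c5214 c5451 c5450 c5493 c6601 (k8 c11257 c5216 c14287 c5558 c5560 c1108 c1107 c676 (k2 c1456 c1746 (k1 c5670 k0))))) (by decide +kernel)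
def c14388 : PP 9 3 T 0x400000000061000021080000000000000000040004000200000000000000000000000000000000000000000000000010000000000020000000000011 := rS 0x65b78c0e171b2496d062829e45a2ca5d2a5d31a06267d478e40e171e9e4fe77498254219599244628ac89c262537e80047b48fb59a844199dfa6b88a1d566d54ec8d2c7 (k8 c5357 c9742 c5210 c5489 c5529 c5413 c5373 c9727 (k8 c5523 c5405 c9680 c5525 c3601 c2502 c5541 c5374 (k8 c5372 c5642 c14387 c5565 c1113 c5564 c267 c12891 (k8 c5651 c5409 c509 c5532 c5315 c1195 c5438 c261 (k8 c5356 c5358 c5441 c5436 c5433 c5432 c5317 c5568 (k8 c5566 c5382 c5380 c9752 c9746 c5488 c5404 c280 (k8 c5644 c684 c683 c681 c14324 c2588 c2133 c4307 (k4 c6188 c14285 c3610 c1755 (k1 c14125 k0))))))))) (by decide +kernel)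
def c14389 : PP 9 3 T 0x400000000061000021080000000000000000040004000200000000000000000000000000000000000000000000000010000000000000000000000011 := rS 0xc8680d5e26933bf553b28886c32331c81c2e374982404ab (k8 c5413 c5642 c5438 c261 c5435 c5433 c5432 c5317 (k8 c5316 c5315 c1109 c9727 c5210 c5489 c5405 c9680 (k4 c9742 c9695 c14388 c14327 (k2 c14345 c2133 k0)))) (by decide +kernel)
def c14390 : PP 9 3 T 0x8000000000000041000000080000000000000000000000000000000000000000000000400410000050000000150000044150000000000000000000000000 := rS 0x3878daab1 (k4 c5506 c5585 c8136 c3602 (k1 c11722 k0)) (by decide +kernel)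
def c14391 : PP 9 3 T 0x41000000080000000000000100000004000000100000000000000000400410000050000000150110044050000000101000000004000000 := rS 0x1e3383556242f79a4ee75 (k8 c5440 c5356 c9742 c14390 c5658 c1931 c2778 c3602 (k2 c5287 c11722 k0)) (by decide +kernel)
def c14392 : PP 9 3 T 0x41000001080000000000000100000004000200000000000000000000000000000000000000110110044014100000100020000004000000 := rS 0x10fdeb064185948b8eb14b4d72c9a4cead57a5d2bb2038f41277 (k8 c5356 c5438 c5436 c5432 c5210 c5488 c5404 c5406 (k8 c5490 c9680 c9742 c280 c1764 c5644 c681 c2159 (k8 c686 c14391 c1755 c14285 c1324 c5506 c1931 c5658 k0))) (by decide +kernel)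
def c14393 : PP 9 3 T 0x41000000080000000000000100000004000000000000000000000000400200000050000000110110044050080000101010000004000000 := rS 0x10fdeb06522e3ac5 (k8 c682 c2159 c686 c14391 c1324 c5506 c1931 c5658 k0) (by decide +kernel)
def c14394 : PP 9 3 T 0x8000000000000000000000000000000000000000000000000200000000000000000000400000000010008004000000000000000000140010000000000000 := rS 0x69904663f188f63ad5 (k8 c5585 c5504 c5436 c5434 c5318 c5316 c1601 c2882 (k1 c3588 k0)) (by decide +kernel)
def c14395 : PP 9 3 T 0x8000000000000041000000000000000000000000000000000200000000000000000000000200000010010004000000000000000000140010000000000000 := rS 0xd320f893ecb6aac63a331f8c47ad7 (k8 c2190 c5436 c5434 c5318 c5316 c5504 c5506 c5585 (k4 c1324 c14394 c5680 c5462 (k2 c5579 c3588 k0))) (by decide +kernel)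
def c14396 : PP 9 3 T 0x80000000000000008000000000000000000000000000000000000001000014000000000000000000504000000000000000000000000000000000000000000 := rS 0x206b556abdfaa9 (k4 c5489 c5405 c5406 c5490 (k2 c5548 c5550 (k1 c3623 k0))) (by decide +kernel)
def c14397 : PP 9 3 T 0x28000000000000000000000000000000000000200000000045000000000000000000000000000000000000000000400000020004000000 := rS 0x1ea1f7e8755223 (k4 c5409 c5489 c5486 c5405 (k2 c1312 c2166 (k1 c5816 k0))) (by decide +kernel)
def c14398 : PP 9 3 T 0x400000000061000001080000000000000000040004000200000000000000000000000000000000000000000000000010000000000000000000000011 := rS 0x3d38dc20a48919beff79bdfd99d07c4d1e071b9e5a71cf790cb05b6ba8432c80ba4c123531914502709895e23d3e9bd1a810d9cd5eadd919cba0244d674033 (k8 c5316 c14387 c12891 c5567 c5642 c9746 c9680 c5210 (k8 c5490 c5406 c9719 c1109 c5380 c5381 c5565 c5566 (k8 c5436 c9695 c1113 c5564 c267 c5651 c456 c9752 (k8 c14392 c5438 c261 c5433 c14345 c5315 c1195 c2190 (k8 c14393 c5644 c1949 c14395 c5658 c2081 c5441 c5435 (k8 c5432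 c5568 c5382 c9739 c14389 c5218 c5498 c5540 (k8 c5544 c12713 c14397 c2785 c5779 c2788 c2347 c5846 (k1 c690 k0)))))))) (by decide +kernel)
def c14399 : PP 9 3 T 0x51000000080000000000000100040000000200000400000000000000000400000000010000000110000000000000000000000000000008 := rS 0x136de4f07fe5e3ce1ad8e7f (k8 c5358 c5357 c9672 c5211 c9025 c5231 c1111 c5680 (k2 c14109 c7393 (k1 c2885 k0))) (by decide +kernel)
def c14400 : PP 9 3 T 0x41000001080000000000000000040004000200000000000000000000000000000000000000000000000010000000000000000000000011 := rS 0x3bfb465b4e39ef21960b6d7640d542451424eb2097899d5aafd91ccba630da051b133ea244e13129bf40020c8cc2e3d (k8 c5436 c5433 c5316 c5315 c5642 c14387 c5565 c1113 (k8 c5564 c267 c5567 c5566 c5382 c5381 c5380 c1109 (k8 c9752 c9746 c9719 c5210 c5406 c5490 c9680 c9695 (k8 c5438 c12891 c261 c5651 c456 c1195 c14392 c14345 (k8 c2190 c14393 c5644 c1949 c14395 c5658 c2081 c1325 (k2 c14399 c5494 (k1 c14398 k0))))))) (by decide +kernel)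
def c14401 : PP 9 3 T 0x8000000000000008000000000000000000000200000000000000000000000001000000000000000000000000000000000000000000000000005004000000 := rS 0x22ac55aaf0e90c531d (k8 c5341 c5339 c5561 c5486 c5406 c5490 c5506 c5582 (k1 c3582 k0)) (by decide +kernel)
def c14402 : PP 9 3 T 0x21000021040000000000000200040004000000000400000000000000000100000000000000400110000010000000000024001000040048 := rS 0x709fdbee3f0b1da6a1809819c3a66ac0bef67991588f5f6961085b419e4d60d439ede26933ab55efd0eaa765113186c4fdf3a975564314c75ae41 (k8 c5340 c1763 c5341 c5339 c5561 c5413 c9746 c1527 (k8 c5450 c267 c1109 c9752 c9727 c5210 c5489 c5486 (k8 c5405 c5406 c5490 c9680 c9742 c9695 c5372 c5373 (k8 c5522 c5523 c5524 c5525 c14353 c8112 c5644 c5541 (k8 c2336 c281 c284 c282 c5657 c1630 c3582 c2071 (k8 c501 c502 c5663 c2143 c1198 c2085 c839 c5456 (k4 c1773 c2565 c729 c1653 (k1 c5910 k0)))))))) (by decide +kernel)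
def c14403 : PP 9 3 T 0x8000000000000000000000200000000000000000000000001000000080100000000000000000000000000000000004000005004000000 := rS 0x589155aaf0e90c531d (k8 c5341 c5339 c5561 c5486 c5406 c5490 c2936 c2085 (k1 c3582 k0)) (by decide +kernel)
def c14404 : PP 9 3 T 0x4000000000000001000000000000000000000000000000000200000000000000000000040000000000010040100010800040000000010000015000000008 := rS 0x6af8d949f49978c2630c8fc2e3d (k8 c5436 c5433 c5318 c5315 c9752 c724 c11141 c262 (k4 c1522 c3579 c5464 c1660 (k1 c10131 k0))) (by decide +kernel)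
def c14405 : PP 9 3 T 0x2000000000000028000001000000000000000000000000000000000000000000000000000000000000000000000008000000040000000000000000000251 := rS 0x160c (k2 c1685 c690 (k1 c14358 k0)) (by decide +kernel)
def c14406 : PP 9 3 T 0x2000000000028000000000000000000000000000000000000000000000000000000004100000000000000000000000000000000000000000000000000 := rS 0x66a5dfa9554a755699 (k8 c5530 c5413 c5412 c5489 c5488 c5405 c5404 c5537 (k1 c13449 k0)) (by decide +kernel)
def c14407 : PP 9 3 T 0x4000000000000001000000000000000000000000000000000200000000000000000000040000000000000040100010804040000000010000014000000008 := rS 0x50178c625 (k4 c1113 c9752 c11141 c14404 (k1 c1121 k0)) (by decide +kernel)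
def c14408 : PP 9 3 T 0x21000001040000000000000200040004000200000000000000000000000100000000000000000000000010000000000020000000000011 := rS 0x83d1fcb6c73cb10efe169b3d0becce99d2e5740a36267d478cc7e071ef7cea5d14907de253789c27a00d80b64f1 (k8 c9695 c5210 c5642 c1109 c14387 c5564 c267 c5565 (k8 c1113 c14401 c5340 c5339 c9746 c1527 c5450 c5436 (k8 c5432 c5318 c5316 c5568 c5566 c5382 c5381 c5380 (k8 c9757 c5404 c9680 c14402 c5218 c5541 c5543 c14403 (k8 c14406 c14407 c5668 c8612 c838 c681 c841 c5669 (k2 c9764 c14405 k0)))))) (by decide +kernel)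
def c14409 : PP 9 3 T 0x4000000000000020000020000000000000000000000000000000000500011000000040000040000001000000004150000150000004500000015000000008 := rS 0x16a497f40fda840ffcd066b11c5442b3 (k8 c5532 c5528 c5414 c5409 c5523 c5525 c14109 c1111 (k4 c8112 c5541 c2629 c5694 (k2 c13257 c2572 (k1 c3584 k0)))) (by decide +kernel)
def c14410 : PP 9 3 T 0x4000000000041000200000000000000000000040000000200000000000000000140000440000000010108000045000000000004410400000000014000 := rS 0x9006b8c909e40c4c267d478e46e3d (k8 c5436 c5435 c5317 c5568 c5566 c5564 c5382 c5380 (k4 c5680 c11678 c1607 c293 (k2 c3610 c13457 k0))) (by decide +kernel)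
def c14411 : PP 9 3 T 0x61000001000000000000000200040004000200000000000000000000000000000000000000000000000010000000000020000000000011 := rS 0x352048f10edc3e03dfb33adf3fa8602b04911410584396d88cb639e4ee602fb23ded72392e3a411490c22f13499d5aaf7e87553b207c44c61b40c4cfa2709894dfa01c81c6f93ef9d4ba02559b532b3 (k8 c5532 c5530 c5529 c5413 c5642 c9746 c1527 c5450 (k8 c14400 c5435 c5432 c5317 c14387 c5565 c1113 c5564 (k8 c267 c5566 c5382 c5380 c1109 c9752 c9727 c9739 (k8 c5210 c5489 c5486 c5405 c5406 c5490 c9680 c9742 (k8 c9695 c5558 c5561 c5339 c5340 c5341 c5342 c5562 (k8 c1763 c14401 c14408 c1117 c10171 c11141 c1577 c726 (k8 c1755 c5668 c681 c11253 c5644 c280 c284 c1573 (k8 c3582 c2143 c1198 c729 c14125 c14409 c5218 c14405 (k8 c5669 c10249 c5456 c14410 c11685 c12577 c293 c13457 k0))))))))) (by decide +kernel)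
def c14412 : PP 9 3 T 0x1000201040000000000000200000004000200000000000000000000040000001000000400000005000010000000000020000800000008 := rS 0x7b154cf8a381becd71f8602a14c0e9609222b1c1058301fcb65f621dccead57a5c3aa93195d028d899f51e3f038f7be752e90c531df7894de270986f64d720b45e6f1 (k8 c9695 c447 c1705 c5340 c1763 c5210 c1109 c5564 (k8 c267 c5565 c1113 c14401 c5341 c5339 c5561 c9746 (k8 c1527 c5450 c5436 c5432 c5318 c5568 c5566 c5382 (k8 c5381 c5380 c9757 c9752 c5489 c5486 c5404 c5406 (k8 c5490 c9680 c14407 c5668 c1630 c681 c841 c5663 (k8 c5644 c9764 c727 c284 c1573 c3582 c481 c482 (k8 c1198 c2144 c5456 c1773 c2440 c2443 c5910 c1598 (k4 c1653 c1294 c5688 c5500 k0)))))))) (by decide +kernel)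
def c14413 : PP 9 3 T 0x41000001000000000000000200040004000200000000000000000000000000000000000000000000000010000000000020000000000011 := rS 0xca302c19045692d536223c9ec3e21ce1ac1bb525c74524378ab55e1dd918c36811384c4a6fd00087f93 (k8 c14400 c5318 c5642 c14387 c5565 c1113 c5564 c267 (k8 c5380 c1109 c9752 c5210 c5486 c5406 c5490 c9695 (k8 c5561 c5339 c5341 c5342 c14411 c9673 c9672 c5211 (k8 c265 c1111 c5372 c5524 c5650 c7393 c11945 c14412 (k4 c2936 c14403 c3582 c10171 (k2 c2086 c1755 k0)))))) (by decide +kernel)
def c14414 : PP 9 3 T 0x42000000000000000000000000000000000000000000000000000000000040000000040000900000005001150000000000000000000000000000000000000 := rS 0x9a (k2 c8890 c1327 k0) (by decide +kernel)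
def c14415 : PP 9 3 T 0x8000000000000000000200000000000000000000000000000000000000014000000080000000002000000000005000800000000000000000000000000000 := rS 0x41a44f28d89a251e7b (k8 c889 c5568 c5567 c5382 c5381 c4617 c2949 c2056 (k1 c8783 k0)) (by decide +kernel)
def c14416 : PP 9 3 T 0xa000000000000069000200000000000000000000000000000000000000000000000000400100000000014000000000800000000000000000000000000000 := rS 0x6978996df5a7cdab0358ab55e977ea55529d55c5532b343c050aff (k8 c5544 c5541 c5502 c5499 c5532 c5530 c5414 c5413 (k8 c5412 c5489 c5488 c5405 c5404 c5406 c5490 c5506 (k8 c5508 c5585 c14396 c3623 c14415 c14414 c5680 c3618 (k1 c5579 k0)))) (by decide +kernel)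
def c14417 : PP 9 3 T 0x4000000000000008000000000000000000000000000000000000000000000000000000540100000100014000100000800000000000000000000000000000 := rS 0x195e256abd2e95 (k4 c5488 c5404 c5406 c5490 (k2 c10131 c3618 (k1 c5464 k0))) (by decide +kernel)
def c14418 : PP 9 3 T 0x200000000000000000000000000000000000000014000000080400000000000000000045000800000000000000000000000000000 := rS 0x82819e5228d89a251e7b (k8 c889 c5568 c5567 c5382 c5381 c2949 c2387 c2517 (k2 c3613 c2056 k0)) (by decide +kernel)
def c14419 : PP 9 3 T 0x400000000061000201040000000000000100040004000200000000000000000000400100000000000000000000100010080000000000000000000008 := rS 0x1f1d91dc5026fb29c3e3697cdaab1217bd3fe12f3fd9e8580a1cedec45c758b9d33a5d2aa9d9444c61b469f40e3d22bc542194eaae2a995992446281384c4a6f (k8 c5565 c1113 c5564 c267 c5651 c5409 c509 c5532 (k8 c5530 c5414 c5413 c5412 c5315 c1195 c9695 c456 (k8 c5436 c5432 c5566 c5381 c1109 c9752 c9727 c5210 (k8 c5489 c5488 c5404 c9680 c14353 c681 c2159 c686 (k8 c5218 c5668 c5499 c5502 c5541 c5543 c5544 c11141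 (k8 c14406 c1522 c14416 c5658 c1931 c2778 c14396 c14417 (k8 c5579 c3062 c5680 c14418 c14414 c5691 c2350 c1774 (k2 c1312 c14178 k0)))))))) (by decide +kernel)
def c14420 : PP 9 3 T 0x9000020000000000000000000000000000000000400000001000440000000000004000000400151001000420000020020000504000008 := rS 0xf667bd43ef37020cd60d7e8755263 (k8 c9752 c5489 c5486 c5405 c5522 c5523 c5525 c5864 (k4 c282 c1111 c1947 c4219 (k2 c3581 c502 k0))) (by decide +kernel)
def c14421 : PP 9 3 T 0x61000001000000000000000000040004000200000000000000000000000100000000000000000000000010000000000020000000000011 := rS 0x3c27b67fb33ae320279be923fb2cf2602fb1010582dacd326d10aac47b23186d03133ea3c0f93ef9d4baa10cb5c8a28ac89c262537e8004f1 (k8 c9695 c5642 c14387 c5565 c1113 c5564 c267 c14413 (k8 c5651 c456 c1764 c5315 c1195 c9746 c1527 c5450 (k8 c14400 c5432 c5568 c5566 c5382 c5380 c1109 c9752 (k8 c5210 c5409 c5413 c5528 c5529 c5530 c5532 c14419 (k8 c5644 c280 c281 c1630 c5663 c1577 c1755 c729 (k8 c1573 c14125 c537 c536 c1607 c14420 c5218 c5543 (k2 c14405 c14406 (k1 c10425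 k0)))))))) (by decide +kernel)
def c14422 : PP 9 3 T 0x80000000000000000000200000000000000000000040004000000000000000004000000000000000000000001004400000000080000100000000000000000 := rS 0x7a3fbda857ba2d1b1344a3e0701 (k8 c5592 c5550 c5568 c5567 c5382 c5381 c686 c2101 (k4 c684 c12913 c3613 c5657 (k1 c2342 k0))) (by decide +kernel)
def c14423 : PP 9 3 T 0x51000201040000000000000100040004000200000000000000000000000000000000000000000000000010000000000020000000000008 := rS 0x6f2618e923f980bec404160b6f34d88922870fa0c43f2ce1ac1aa9d9444ba6340c4cfa4578a84502709894de19 (k8 c5315 c5565 c1113 c5564 c267 c5651 c1195 c9695 (k8 c456 c5566 c5382 c5380 c9752 c9746 c9727 c5210 (k8 c5489 c9673 c9672 c5211 c5231 c265 c8722 c1111 (k8 c5373 c5374 c5650 c7393 c447 c14422 c5644 c280 (k8 c281 c1630 c5663 c729 c1573 c727 c482 c14109 (k1 c2443 k0)))))) (by decide +kernel)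
def c14424 : PP 9 3 T 0x41000001000000000000000000040004000200000000000000000000000000000000000000000000000010000000000020000000000011 := rS 0x2dea90709efd99d719013c9204160b6df6231cfecb3c9dcc05f24b216699368855623da28451593af7de2677e87553b22e98c3681899f51e2709894dfa0010640f93 (k8 c14400 c5432 c5315 c5642 c14387 c5565 c1113 c5564 (k8 c267 c5568 c5566 c5382 c5380 c1109 c9752 c9746 (k8 c5210 c5489 c5486 c5405 c9680 c9695 c5450 c1527 (k8 c14413 c5651 c1195 c14423 c5409 c5413 c5528 c5529 (k8 c5530 c5532 c14421 c509 c1117 c10171 c11141 c1577 (k8 c1755 c729 c726 c5668 c14125 c681 c5644 c280 (k8 c1573 c537 c536 c1607 c14420 c5218 c14405 c10249 (k4 c3610 c10333 c695 c10419 k0)))))))) (by decide +kernel)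
def c14425 : PP 9 3 T 0x200000000000000001000000000000080000400000400000000000000000000000004000400005540000000 := rS 0x5a9245247 (k4 c5562 c5339 c2947 c2515 (k1 c3584 k0)) (by decide +kernel)
def c14426 : PP 9 3 T 0x9000000000000000000000200000000000000100000000001000000140500000000000000000000000000000000105015005004000000 := rS 0x27fc6b06b2b55e1d4a90c5241 (k8 c5340 c5339 c5561 c5488 c5486 c5406 c5490 c3588 (k4 c3582 c5465 c1605 c9422 k0)) (by decide +kernel)
def c14427 : PP 9 3 T 0x5000000000000008000000000000000000000000000000000000001000050008000000000000000504000000000000000000000004400000015540000000 := rS 0x2d1fc4956abdfaa9 (k8 c5489 c5405 c5406 c5490 c451 c9179 c3584 c2572 k0) (by decide +kernel)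
def c14428 : PP 9 3 T 0x4000800000000001000200040000000000800000000000000000400000000000000000000000000000000000000000000002001400215015000000010200 := rS 0x5e71f7751ee3cb0fd4e9646c3 (k8 c5348 c5351 c9413 c1801 c3117 c9321 c5237 c5614 (k4 c5613 c1581 c730 c5671 k0)) (by decide +kernel)
def c14429 : PP 9 3 T 0x1000000000220000021040000100000400000040004000000000001000008000005000101000000000800000000000002000000000100000000000200 := rS 0x1ca4d73fd60ba8f83a7cb79c7e957787bba8d53b288aad72b7 (k8 c5533 c5415 c5413 c9727 c5210 c5489 c5614 c5613 (k8 c5429 c5430 c14315 c1581 c730 c6451 c2672 c5220 (k4 c5671 c5628 c5938 c4274 (k2 c2538 c6186 (k1 c5692 k0))))) (by decide +kernel)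
def c14430 : PP 9 3 T 0x100000000000000000000400000000000000200000000000001000005000010000000000018000000500002080000000000000000000008 := rS 0x6ebe6f2a2a3a945c2b16bef0321bfea71fa4 (k8 c5213 c5608 c5388 c5389 c5606 c5607 c5609 c269 (k8 c1115 c5652 c7364 c465 c587 c731 c688 c1612 (k1 c3609 k0))) (by decide +kernel)
def c14431 : PP 9 3 T 0x20000021040000000000400000040004000200000001000008000000000010000000000008000000100002080000000000000000000208 := rS 0x3949ae973fd60addd4343e1e5bce3d37a5c3ddd47b878a5dfa9554c46fa3960b6d9ad94eaad72995bf8592cfef1dccfb2 (k8 c5210 c9680 c724 c5668 c5453 c5494 c14406 c5533 (k8 c5530 c5415 c5413 c4250 c5497 c5495 c5455 c5319 (k8 c5317 c9704 c9727 c5489 c5488 c5405 c5404 c9695 (k8 c14430 c5614 c5613 c5429 c14315 c14429 c1581 c730 (k8 c6451 c5220 c3617 c5671 c5513 c5628 c5938 c4274 (k4 c1828 c2538 c6186 c5692 k0)))))) (by decide +kernel)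
def c14432 : PP 9 3 T 0x800000000009000200040000000000800200000000000000500000000001000000000000000000000000000000000002000000005015005004000200 := rS 0x113de410895596816ab25a653 (k8 c5605 c5496 c5494 c5454 c5380 c1755 c5343 c5558 (k4 c5340 c14401 c14426 c14428 k0)) (by decide +kernel)
def c14433 : PP 9 3 T 0x61000221040000000000000000040004000200400000000000000000000000000000000000000000000010080000000010000000000008 := rS 0x38dbe7f70a79424914566cc4b84829e4c7422cd326d8a88cd2fd54c46267d4789c2625378fc7acb40c751a9204327bcc53a9dcc01b0b99c3a1918a5f64f11981cf687489acf283 (k8 c5525 c5524 c5523 c5374 c5373 c5372 c5432 c5316 (k8 c9695 c5210 c5404 c5434 c5315 c5486 c9680 c5433 (k8 c1109 c14092 c724 c1576 c682 c5668 c5494 c9863 (k8 c14345 c5381 c2159 c5380 c1755 c5436 c5318 c5565 (k8 c1113 c5564 c267 c5568 c5566 c5382 c9727 c5489 (k8 c5405 c9742 c5409 c5414 c5529 c5530 c5532 c8112 (k8 c726 c684 c683 c4774 c2588 c14431 c14432 c5651 (k8 c10038 c1195 c537 c6188 c729 c14125 c1607 c3610 k0)))))))) (by decide +kernel)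
def c14434 : PP 9 3 T 0x41000221040000000000000000040004000200400000000000000000000000000000000000000000000010080000000010000000000008 := rS 0xd142b1d30f34d88b6a1f10a0cf26b06a1cf69567b3524c9ef314ea77300c4ce330b86f64f1 (k8 c9695 c5210 c1109 c5433 c5316 c9680 c5434 c14092 (k8 c724 c1576 c682 c5668 c5494 c14345 c5495 c5453 (k8 c5488 c5372 c5373 c5522 c5523 c5524 c5525 c265 (k8 c1111 c14433 c5650 c7393 c447 c482 c727 c684 (k2 c1595 c3607 k0))))) (by decide +kernel)
def c14435 : PP 9 3 T 0x1000000000000000001040000000000000200000000000000001000000000000400010410000400000000110150500000080001400000005540000000 := rS 0x1bff36b2d1164b14845abde (k8 c5668 c5454 c5558 c5339 c5342 c685 c3584 c10269 (k2 c5548 c2515 (k1 c10298 k0))) (by decide +kernel)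
def c14436 : PP 9 3 T 0x41000201040000000000000000040004000200400000000000000000000000000000000000000000000010080000000010000000000009 := rS 0x1ae8b4f11451593fa45e8472487c18e33d3cda2f7f0acd32218afb36823cea74109264b559fde62a5dfa1d4aaa51a7d44a3c4e13129bc32073b99ceacb306c862330d85de281 (k8 c5380 c9695 c5433 c1109 c5316 c5434 c5210 c14092 (k8 c1755 c1576 c9680 c724 c5432 c5315 c5565 c1113 (k8 c5564 c267 c5568 c5567 c5566 c5381 c5489 c5488 (k8 c5486 c5405 c5404 c682 c5668 c5453 c5454 c5494 (k8 c14345 c9863 c4250 c14434 c9733 c5211 c5218 c5414 (k8 c5528 c5530 c5532 c14406 c5498 c5501 c5540 c10425 (k8 c4303 c1685 c2362 c293 c2367 c8250 c10333 c891 (k4 c14435 c5651 c456 c537 (k2 c686 c1605 (k1 c10269 k0)))))))))) (by decide +kernel)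
def c14437 : PP 9 3 T 0x1000000000000008000000000000000000000200000000000000001000040001000000000000000404000000000000000000000000140000005544000000 := rS 0x3ffe6b424c0561ef2392e3a2956abdfa1d (k8 c5486 c5405 c5406 c5490 c5339 c5341 c5342 c5562 (k8 c14401 c3582 c2143 c13257 c3584 c5548 c2572 c5694 k0)) (by decide +kernel)
def c14438 : PP 9 3 T 0x69000020000000000000000000040004000000000400000015000000000000000000000000404110000052000000141040005145000000 := rS 0xe37091a3beef9b7cfea1248a2b303f6b1dec84599b62aab119a5fa1d54c45967b489acf283 (k8 c5525 c5524 c5523 c5374 c5372 c1755 c9727 c5489 (k8 c5486 c5405 c9742 c5409 c5413 c5414 c5529 c5532 (k8 c8112 c5816 c726 c5541 c2629 c14437 c5651 c10038 (k8 c1195 c729 c14125 c14109 c5171 c5504 c8188 c2788 (k2 c2347 c3610 k0))))) (by decide +kernel)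
def c14439 : PP 9 3 T 0x800000000009000000000000000000000200000000000000000000000001000000040400000000000000000000000000000000105015005004000000 := rS 0x325ab1d (k4 c5341 c5454 c5494 c14426 k0) (by decide +kernel)
def c14440 : PP 9 3 T 0x9000201040000000000000200000000000000000000000000000000000400000000000000000000500000004000145015005004000040 := rS 0x7f04b13bed35847452f156abc3a7d (k8 c5566 c5486 c5406 c5490 c9695 c5339 c5341 c3582 (k4 c2086 c14439 c5668 c1627 (k2 c841 c9764 k0))) (by decide +kernel)
def c14441 : PP 9 3 T 0x49000020000000000000000100040004000200000400000001000000000000000000000000404110000052020000140000005000000008 := rS 0x279bde370b8fe4c74ded5ea1f79885067935835227b0d8dc7acb3fa845019 (k8 c5315 c5651 c1195 c729 c1755 c5436 c5435 c1109 (k8 c5372 c5374 c5522 c5523 c5524 c5525 c265 c282 (k8 c1111 c1947 c14438 c7393 c727 c5231 c5549 c5591 (k4 c14235 c3610 c5680 c2885 k0)))) (by decide +kernel)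
def c14442 : PP 9 3 T 0x2000800000000020000011040000000000000000000004000000000000000000000000000000000000000000000000000012040000000015000001000051 := rS 0x7a047859ac978a5c3bb2012755699 (k8 c5530 c5413 c5412 c5642 c5210 c5486 c5404 c9695 (k4 c5494 c5495 c6325 c9863 (k2 c10425 c14405 k0))) (by decide +kernel)
def c14443 : PP 9 3 T 0x41000001000000000000000000040004000200000000000000000000000000000000000000000000000010000000000000000000000011 := rS 0x7b71b84149123473dec84982589df6f9e58ef37bacd326df66d33a7f508a2b243229610e5b659d4ee601ae4c7a371885c0e3f19865e26756a5c3bb28f83cba570da06267d44a3c4e13129bf4002 (k8 c5642 c14387 c5565 c1113 c5564 c267 c5568 c5567 (k8 c5566 c5382 c5380 c1109 c9757 c9746 c9739 c9713 (k8 c5210 c5486 c5404 c5490 c9680 c9695 c5315 c5316 (k8 c5318 c5432 c5433 c5434 c5435 c5436 c14400 c14424 (k8 c14092 c724 c1576 c1755 c14436 c11253 c5644 c284 (k8 c1949 c14440 c5651 c1195 c729 c14441 c5211 c5218 (k8 c5529 c5530 c5532 c5498 c5540 c726 c1577 c14125 (k8 c14442 c5668 c1627 c261 c9863 c14395 c5658 c14397 (k4 c2785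 c5779 c2788 c2347 (k2 c690 c3610 k0)))))))))) (by decide +kernel)
def c14444 : PP 9 3 T 0x41000000080000000000000000000000000000000000000000000000000410000050000010150110044150000000041002000004000000 := rS 0x1c562a04ff8dacd569b24fe75 (k8 c5440 c5358 c1914 c1918 c1475 c8254 c5465 c1605 (k4 c5680 c9422 c2929 c3602 k0)) (by decide +kernel)
def c14445 : PP 9 3 T 0x41000200000000000000000200000004000100000000000000000000000000000050000010000000040050080000000010000006000000 := rS 0x7158a813fe36b34d92d5ef0c5968b148f4861134a051a6f3ea24fe75199df24c5 (k8 c682 c5209 c5356 c2041 c5440 c5358 c5567 c5566 (k8 c5565 c5381 c5380 c9742 c5558 c5561 c5560 c5339 (k8 c685 c1320 c14444 c5653 c5454 c5494 c5496 c5278 (k4 c5465 c1605 c5680 c9422 (k2 c2929 c3602 k0))))) (by decide +kernel)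
def c14446 : PP 9 3 T 0x41000200000000000000000000000004000100000000000001000000000000000050000010000000040050080000000000005006000000 := rS 0x350848b22b5fde28f15663ac540a34fa893b9d72435 (k8 c437 c5209 c5440 c5356 c5567 c5566 c5381 c5380 (k8 c682 c2159 c14445 c5226 c5651 c5896 c5465 c456 (k4 c686 c5658 c5287 c2779 k0))) (by decide +kernel)
def c14447 : PP 9 3 T 0x4000000000000061000020000000000000000000000000000000000500001000000000000440000201010000004150000150000004500000015000000008 := rS 0x6fc0566ab (k4 c5413 c5532 c2143 c14125 (k1 c14409 k0)) (by decide +kernel)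
def c14448 : PP 9 3 T 0x4000000000000041000020000000000000000000040000000100000400001000000000000000000201010000404110000150000004500000015000000008 := rS 0x279c5e36fb856be0da87cd6913dc458e793fe4996180b97d2609 (k8 c9669 c261 c9668 c1107 c5648 c1320 c5209 c5358 (k8 c5441 c5357 c9727 c5372 c5374 c5523 c1111 c14447 (k8 c5225 c11945 c5460 c5538 c11976 c3610 c5680 c1608 k0))) (by decide +kernel)
def c14449 : PP 9 3 T 0x4000400000000000000000000000000000000000000000000000000000000000000000440000000000000000000000000000000000108000000000000000 := rS 0x1abe3 (k2 c5576 c2996 (k1 c5689 k0)) (by decide +kernel)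
def c14450 : PP 9 3 T 0x200080000000000000000000000000000000000000020000440000000000000000000000000000000020000001408000000000000 := rS 0xe01b206268f (k4 c5568 c5382 c5380 c2046 (k2 c14336 c1483 k0)) (by decide +kernel)
def c14451 : PP 9 3 T 0x200080000000000000000000000000000000000000020000040040000000000000000000000000000020000001408000000000000 := rS 0x1c4cc (k2 c2045 c14450 (k1 c2624 k0)) (by decide +kernel)
def c14452 : PP 9 3 T 0x41000001000000000000000200040004000000000000000000000000000000000000000000000000000010000000000008000000000011 := rS 0xe370a686c7b4887814f56fbcdeeb310c55563bf66d0479d50b5cd2fd54a06267d47a758e793fe490e111e92c8fef69ac23a1d2290cb05b129bc4e1339a555eadd919de25d44e8036cb148602e5f498240529 (k8 c14443 c5642 c9669 c261 c9668 c1107 c5648 c5339 (k8 c1320 c1109 c14387 c5567 c9746 c9695 c9680 c5210 (k8 c5490 c5406 c5488 c9719 c5564 c267 c5565 c1113 (k8 c14446 c5644 c1949 c284 c5486 c5341 c3582 c2086 (k8 c14401 c5562 c5342 c5560 c5558 c11253 c5209 c5358 (k8 c5441 c5357 c9066 c5568 c5566 c5382 c5380 c5489 (k8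 c5405 c9742 c2185 c1198 c14448 c9733 c5211 c5218 (k8 c12293 c5413 c5414 c5528 c5532 c5498 c5540 c14342 (k8 c14451 c10419 c3581 c694 c691 c1165 c1164 c1483 (k2 c2622 c3610 k0)))))))))) (by decide +kernel)
def c14453 : PP 9 3 T 0x41000001000000000000000200040004000000000000000000000000000000000000000000000000000010000000000000000000000011 := rS 0x4ff8d423e64f7866d35832e3a291e8746a313ae488a432c16c30172fa4c1329129bc4e130d9cd2aaf56ec8cef12e80913a0 (k8 c14387 c5567 c5642 c9746 c9695 c9680 c5210 c5490 (k8 c5406 c5488 c9719 c1109 c5564 c267 c5565 c1113 (k8 c14443 c9669 c261 c9668 c1107 c5648 c14446 c5644 (k8 c1949 c284 c5209 c5440 c1945 c437 c5486 c5560 (k8 c5339 c5341 c1320 c3582 c2086 c14452 c5653 c5494 (k4 c14439 c1197 c5576 c2878 (k1 c5680 k0))))))) (by decide +kernel)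
def c14454 : PP 9 3 T 0x8400000000020000020080000000000000000040004000100000400001000000000000000000001000000004000000050000000000000000000000000 := rS 0x7b109e1419acd311 (k8 c9727 c9742 c5523 c5525 c11976 c8112 c5165 c5541 k0) (by decide +kernel)
def c14455 : PP 9 3 T 0x2000000000000008000201080000000000000000000000000000000000000010000440000000000004000000000000000000040001000400000506000011 := rS 0x6e7b0f029e2fd0eaa5eef3 (k8 c5540 c5498 c5489 c5486 c5405 c9695 c10419 c3581 (k2 c691 c11714 (k1 c1165 k0))) (by decide +kernel)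
def c14456 : PP 9 3 T 0x8400000000020000001080000000000000000040004000100000000000000000000000000000000000000000000000010040001000400000002000011 := rS 0x1ec6c0a7a7b33a3233bf553b20dc4f403578a1c62582e808eae36f88d5621 (k8 c5528 c5413 c5409 c5580 c5466 c5440 c5642 c9746 (k8 c5644 c1945 c11253 c9695 c437 c14387 c5382 c1109 (k8 c5210 c5489 c5405 c9680 c5653 c14454 c5218 c14455 (k4 c1948 c2046 c691 c11714 k0)))) (by decide +kernel)
def c14457 : PP 9 3 T 0x4008000000000000000221080000000000000100040004000000000000000000000000000000000004000000000000000000040001000400000506000011 := rS 0x3d8f5f9a0f64582e809c6df (k8 c5580 c5466 c5642 c9746 c5644 c5210 c5525 c8118 (k2 c1947 c5171 (k1 c14455 k0))) (by decide +kernel)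
def c14458 : PP 9 3 T 0x41000001000000000000000000040004000000000000000000000000000000000000000000000000000010000000000000000000000011 := rS 0x70119e8f7f6675e71cf7f78923b10aac47b46fb8c51e2ac90c8a582d8602e933a9fd3a5f04e4a52f133ab55e95d91ccba1b40a36267d44a3c4e13129bf4002 (k8 c5642 c14387 c5565 c1113 c5564 c267 c5568 c5567 (k8 c5566 c5382 c5381 c5380 c1109 c9746 c9719 c5210 (k8 c5488 c5406 c5490 c9680 c9695 c14443 c5209 c9669 (k8 c9668 c9066 c5358 c5440 c261 c1107 c5648 c14446 (k8 c5644 c284 c1949 c14453 c5226 c5651 c5466 c5580 (k8 c9025 c5409 c5413 c5528 c12293 c509 c14456 c8993 (k8 c5658 c11196 c14457 c5218 c5498 c14455 c14397 c14336 (k1 c2789 k0)))))))) (by decide +kernel)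
def c14459 : PP 9 3 T 0x5000000000000011000020080000000000000100040004000200001400000044000000010400000400004404001110000000000000200000015000000000 := rS 0x284829c6bb799ff27a40c323f0b8dc7ac73f9ed0e83 (k8 c5525 c5373 c5372 c5358 c5357 c5436 c5435 c5433 (k8 c5318 c5315 c10772 c5657 c5171 c2339 c14109 c12424 (k4 c13097 c459 c1277 c3579 k0))) (by decide +kernel)
def c14460 : PP 9 3 T 0x2000000000000098000000000000000000000100040000000000001000010000000000000000000000000000000000000000000001200000000040000008 := rS 0x11fe6ff55acc52b1 (k8 c5421 c5417 c5574 c5500 c5544 c14396 c2972 c13731 k0) (by decide +kernel)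
def c14461 : PP 9 3 T 0x4000000000000089000220080000000000000000040004000200000000000001000000000000000000000000000000040000080000200000000000020008 := rS 0x341e9ed8aa1496f34d8883e2124bdf6a6b06a450f1140c4cfa2709894deb34fb2c5231acc052609 (k8 c5438 c261 c4991 c5558 c5434 c5417 c5420 c5572 (k8 c5574 c5565 c1113 c5564 c267 c5566 c5382 c5380 (k8 c9727 c5373 c5374 c5522 c5523 c8114 c2101 c3026 (k8 c265 c1111 c5650 c7393 c447 c560 c684 c7822 (k4 c14460 c5657 c14459 c1925 k0))))) (by decide +kernel)
def c14462 : PP 9 3 T 0x4000000000000081000201080000000000000000040004000200000000000000000000040000000000000000000000040000080000200000000000024008 := rS 0x10542e3f0b30f6836f8281a4823fcc96ff67a15e6d143c5557ecda67526773cb1c12f1d909c262537acd3ecb14ac4323f0b8f58a073a8c6b301 (k8 c4991 c5558 c5434 c1894 c5432 c681 c5436 c5433 (k8 c5318 c5315 c5421 c5417 c5420 c5572 c5574 c5565 (k8 c1113 c5564 c267 c5210 c9695 c5438 c5357 c5441 (k8 c5356 c261 c14461 c5211 c5218 c5413 c5414 c5499 (k8 c5501 c5540 c5541 c5543 c5544 c460 c14396 c2972 (k8 c5660 c293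 c10368 c12864 c1897 c690 c3607 c5537 (k4 c2624 c10309 c512 c3579 k0))))))) (by decide +kernel)
def c14463 : PP 9 3 T 0x4000000000000001000000000000000000000000000000000200000000000000000000040000000000000040100010804040000000200000014000000008 := rS 0x80d7 (k2 c2187 c14407 (k1 c459 k0)) (by decide +kernel)
def c14464 : PP 9 3 T 0x80000221040000000000000000040004000200000000000000000000000000000000000000000000440002080000200000000000020008 := rS 0xc666b459ef4f6c550a4b79a6c441f10925efb5419e4d60d48a1cf6f1d94444a6f148dd8a073a8c6b301 (k8 c4991 c5558 c5434 c1894 c5432 c681 c5435 c5417 (k8 c5565 c1113 c9727 c5210 c9695 c5372 c5373 c5374 (k8 c5522 c5523 c5524 c5525 c8114 c2101 c3026 c265 (k8 c1111 c5650 c7393 c447 c560 c684 c7822 c14460 (k4 c5657 c2339 c1925 c8354 (k2 c3607 c727 k0)))))) (by decide +kernel)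
def c14465 : PP 9 3 T 0x81000201000000000000000000040004000200000000000000000000000000000000000000000000040010080000000000000000004008 := rS 0x359c6dff9a6a04ff68f85331555fb3689d66b3f3a08303246bde3be4e02d322040eac578a5dfa1d4aaa4367d1384d669f658a56bef452c51a89379c4d26757ab764191981c2e31 (k8 c5434 c5433 c5432 c5316 c5315 c5210 c5490 c5406 (k8 c9680 c9742 c5571 c5565 c5567 c5381 c5421 c3602 (k8 c5583 c5422 c5417 c5420 c5572 c5574 c5564 c267 (k8 c5566 c1109 c5489 c5488 c5486 c5405 c5404 c9695 (k8 c681 c1894 c685 c686 c2939 c4991 c14462 c14463 (k8 c5668 c5450 c5494 c14092 c9863 c14464 c5453 c5495 (k8 c4250 c5211 c5218 c5413 c5414 c5530 c14406 c5501 (k8 c5544 c6986 c8724 c14396 c2516 c2621 c8572 c10298 k0)))))))) (by decide +kernel)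
def c14466 : PP 9 3 T 0x88000000000000000000000000000000000200200000000001000000000000000000000000000000000000020000000000005004000108 := rS 0x10542d46bf7d91e31aa4d5e9f658a56219198fc2e3d (k8 c5436 c5433 c5318 c5316 c5315 c5421 c5417 c5420 (k8 c5572 c5406 c261 c280 c7824 c14345 c5494 c2189 (k4 c5778 c3000 c1656 c3579 k0))) (by decide +kernel)
def c14467 : PP 9 3 T 0x4000000000000011000000000000000000000100040000000000200400000010000000040000000400000401400115000014020004140020000000000200 := rS 0x1bec74eb8cc1033f97dc2d424b108193 (k8 c5438 c5281 c281 c3755 c553 c1715 c1630 c841 (k4 c7820 c5663 c1663 c4250 (k2 c727 c13097 (k1 c3610 k0)))) (by decide +kernel)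
def c14468 : PP 9 3 T 0x81000221000000000000000000040004000200000000000000000000000000000000000000004000040010020000000000000000000008 := rS 0x1ec427cda2cf6fa63bccd63a75247f3ab14c03525a6c44f50f8876a833c9ac1a913da56226340c4cfa8f59fbc2e313bd65a633c9822384521a291a89389a4ceaf2eab43a2958894de270986f64f1 (k8 c9695 c5210 c1109 c5564 c267 c5565 c1113 c5421 (k8 c5417 c5486 c5490 c9746 c5406 c9680 c9742 c5571 (k8 c5567 c5381 c3602 c2775 c284 c3582 c14466 c5438 (k8 c5316 c2081 c14226 c2051 c5434 c5433 c5583 c5574 (k8 c5568 c5566 c5382 c5380 c9752 c9727 c5488 c5372 (k8 c5374 c5522 c5523 c5524 c5525 c8114 c265 c1111 (k8 c1947 c5650 c7393 c560 c14467 c14092 c1627 c1576 (k8 c728 c1573 c4250 c727 c8354 c5668 c482 c13097 (k4 c5453 c1595 c14109 c3607 (k2 c5171 c5541 k0)))))))))) (by decide +kernel)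
def c14469 : PP 9 3 T 0x4000000000000000000011040000000000000000000000000000201000004000000000044400001440005100001014400000120000100020000000000000 := rS 0x9a70f81c6a16fb1cf2d46bb10ebdf (k8 c5450 c1527 c281 c1764 c553 c8612 c838 c12713 (k4 c3000 c1662 c5669 c10249 (k2 c3620 c5536 k0))) (by decide +kernel)
def c14470 : PP 9 3 T 0x1000001000000000000000000040004000200000000000000000000000000000000000000000000000010000000000000000000000011 := rS 0x3af7d8a601a9edfecf42a662a9df66d33b930434e38453b9610e5b1885c0e330cbc43a0f0d9f44e1312acd3ecb14ad7de43452c4e68d449bf4071db1a4ceaf56ec8ba02 (k8 c5642 c9746 c5210 c5490 c5406 c9680 c9742 c14458 (k8 c5571 c14387 c5565 c5567 c5381 c9719 c5421 c3602 (k8 c2775 c5583 c5422 c5417 c5420 c5572 c5574 c1113 (k8 c5564 c267 c5566 c1109 c9739 c5486 c9695 c5315 (k8 c5316 c5432 c5433 c5434 c14465 c11253 c5644 c2051 (k8 c284 c3582 c2081 c14466 c5438 c14468 c5211 c5218 (k8 c5412 c5414 c5530 c5541 c5543 c5544 c14405 c14469 (k4 c14092 c1627 c14442 c1576 (k1 c5668 k0))))))))) (by decide +kernel)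
def c14471 : PP 9 3 T 0x81000220000000000000000000040000000100000000000000000000000000000000000000000000040000000000000000000000020008 := rS 0xfed4d71140c4d1e29ac8fcff92 (k8 c5209 c5358 c2907 c5558 c5417 c5568 c5382 c5380 (k4 c9727 c5523 c8114 c1111 (k1 c13103 k0))) (by decide +kernel)
def c14472 : PP 9 3 T 0x81000201000000000000000000040004000100000000000000000000000000000000000000080000040000080000000000000000000008 := rS 0x4923fcc96917fbcd0ef78aaafd9b4cec06b244083f43bb238acd62180b97d2609 (k8 c9669 c261 c9668 c1107 c5648 c5421 c5574 c5571 (k8 c5210 c5486 c5405 c685 c686 c5558 c4991 c14471 (k8 c5211 c5218 c5413 c5414 c5498 c5499 c5540 c5544 (k4 c10366 c460 c14396 c2972 (k2 c3026 c5660 k0))))) (by decide +kernel)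
def c14473 : PP 9 3 T 0x4000000000000081000220000000000000000100040004000100200000000000000000000000000000000000000000040000000000000000000000000008 := rS 0x3bc32f18fbc01fda9ae228189a3c5392 (k8 c5209 c5417 c5568 c5382 c5380 c9727 c5523 c8114 (k4 c1111 c5225 c13103 c11976 (k2 c405 c5166 (k1 c5492 k0)))) (by decide +kernel)
def c14474 : PP 9 3 T 0x400000000001000001000000000000000000040004000000000000000000000000000000000000000000000000000010000000000000000000000011 := rS 0x1e2c96d076230c05cbe9304925efecced67df1c22960b72978894868a39a35126f389a4ceaf2e89c27a056877642958ed83602 (k8 c5642 c1109 c14458 c5421 c5417 c5210 c5486 c5490 (k8 c14387 c5564 c267 c9746 c5406 c9680 c9742 c5571 (k8 c5565 c5567 c5381 c9719 c3602 c2775 c1113 c9695 (k8 c14470 c14472 c5644 c284 c3582 c5583 c14226 c14473 (k8 c5218 c5498 c513 c9669 c261 c9668 c1107 c5648 (k4 c9733 c491 c5211 c5209 (k2 c5166 c14456 k0))))))) (by decide +kernel)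
def c14475 : PP 9 3 T 0x1000001000000000000000000040004000000000000000000000000000000000000000000000000000010000000000000000000000011 := rS 0x3c3e366f7be6ff80a662aabf66d33b1cac914b05b4eca487ef452c452b338ed9e26933ab55e1dd91ccba1b46a244e13129bf4002 (k8 c5642 c14387 c5565 c1113 c5564 c267 c5567 c5381 (k8 c1109 c9746 c9719 c5210 c5486 c5406 c5490 c9680 (k8 c9742 c9695 c14458 c5571 c5574 c5417 c5421 c3602 (k8 c5583 c2775 c14470 c9066 c14472 c5644 c284 c14226 (k8 c3582 c14473 c5211 c5218 c5413 c5414 c5530 c5502 (k4 c5544 c14396 c14474 c5495 (k2 c6601 c6325 (k1 c5168 k0)))))))) (by decide +kernel)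
def c14476 : PP 9 3 T 0x4000000000000048000000000000000000000000000000000200000000000001000000000100000000014004100000800000000000000000015005000000 := rS 0x1abe36534c83584b8fc2e3d (k8 c5436 c5433 c5318 c5404 c5651 c13854 c14403 c3579 (k2 c5464 c1660 (k1 c10131 k0))) (by decide +kernel)
def c14477 : PP 9 3 T 0x62000201000000000000000000040004000200000000000000000000000000000000000000000000000010080000000000000000000008 := rS 0xf8ec8ee281387c6d2f9b5562df2122c9245ac8a3c3ef663fd9e8580b450fecceaccda218aaad3a234ba55522709894de934fa8432c94da6472171b8f63ad73b3140f933a977be340dec9e28d (k8 c5381 c9695 c5210 c1109 c14275 c5450 c9746 c1527 (k8 c14372 c5432 c681 c5668 c2187 c2159 c5436 c5435 (k8 c5433 c5317 c5447 c5397 c5396 c5393 c5398 c5448 (k8 c5444 c5565 c1113 c5564 c267 c5489 c5488 c5404 (k8 c5409 c5412 c5413 c5414 c5528 c5529 c5532 c14371 (k8 c5218 c5499 c5501 c5502 c5541 c5543 c5544 c8724 (k8 c14376 c14406 c14476 c5339 c456 c509 c686 c5658 (k8 c14418 c1931 c2778 c14396 c14417 c5579 c3062 c12473 (k4 c5691 c2350 c1774 c1312 (k1 c3578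 k0)))))))))) (by decide +kernel)
def c14478 : PP 9 3 T 0x48000000000000000000000000000000000200000000000001000000000100000000014004100000800000000000000000015005000000 := rS 0x3dd58 (k2 c5651 c14476 (k1 c14401 k0)) (by decide +kernel)
def c14479 : PP 9 3 T 0x42000201000000000000000000040004000200000000000000000000000000000000000000000000000010080000000000000000000008 := rS 0xf9116b2287988922870fa0c439c358376a8d1384c4a6f49a7d4219649d98a07c99d4bbdf1a06f64f1 (k8 c9695 c5210 c1109 c14275 c5450 c9746 c1527 c14372 (k8 c5432 c681 c5668 c5396 c5393 c5398 c5448 c5444 (k8 c5565 c1113 c5564 c267 c5381 c14477 c9673 c9672 (k8 c5211 c265 c1897 c1111 c5373 c5374 c5650 c447 (k4 c14478 c5339 c456 c5231 (k1 c14422 k0)))))) (by decide +kernel)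
def c14480 : PP 9 3 T 0x2000201000000000000000000040004000200000000000000000000000000000000000000000000040010080000000000000000000008 := rS 0x22a2880b138ed9ae76629a4cead57a351225378640e3dc9f7cea340dec9e25d (k8 c9746 c9695 c5210 c1109 c14275 c1527 c5450 c14372 (k8 c5436 c5432 c5393 c5565 c1113 c5567 c5381 c5406 (k8 c5490 c9680 c9742 c681 c5668 c2187 c14479 c5571 (k4 c5421 c13340 c3602 c459 (k1 c686 k0))))) (by decide +kernel)
def c14481 : PP 9 3 T 0x400000000008000000000000000000000200000000000000000000000001000000400100000000014004000000000000000000004000001005040211 := rS 0x6af8d94d3f7a5c4e02 (k8 c5642 c267 c5404 c14401 c14403 c13648 c5464 c1660 (k1 c5689 k0)) (by decide +kernel)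
def c14482 : PP 9 3 T 0x20000001000000000000000000040004000200000000000000000000000000000000000000000000000010000000000000000000000011 := rS 0xf09e58e7b67a17d99d36885569d11b2536990385c6393ef9d4ee3304160b7a03997469b00d80b64f1 (k8 c9695 c5210 c5642 c1109 c14475 c14275 c9746 c9719 (k8 c14387 c14480 c5644 c280 c5316 c2051 c1527 c5450 (k8 c14372 c5434 c5433 c5432 c5447 c5397 c5396 c5409 (k8 c5412 c5413 c5528 c5529 c14371 c5218 c5541 c5543 (k4 c14405 c14212 c8612 c14406 (k1 c5669 k0)))))) (by decide +kernel)
def c14483 : PP 9 3 T 0x88000000000000008000020040000000000000100040004000000000400000015000000000020000000000400514510400010000000100025000000400008 := rS 0x6fb1d9c3a7b7b5087f7fa2d2301 (k8 c5592 c5374 c5583 c5586 c840 c8783 c5541 c5657 (k4 c501 c502 c14218 c5851 (k1 c14109 k0))) (by decide +kernel)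
def c14484 : PP 9 3 T 0x80000000000000008000020040000000000000000000000000000000400000081000000200000000000000400000150400010000000000005000000400008 := rS 0x37d8ecd (k4 c2071 c14218 c3003 c14109 k0) (by decide +kernel)
def c14485 : PP 9 3 T 0x80000000000000008000020040000000000000100040004000000000400000005000000000000000000000400514510000010020000100025000000400008 := rS 0xdf63bfd0bec7b9fda8d38e7bfbe7721b11aef5 (k8 c1947 c1764 c281 c1949 c2051 c5450 c14483 c5658 (k8 c2081 c553 c841 c14484 c5657 c5541 c5544 c14212 (k2 c12713 c14109 k0))) (by decide +kernel)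
def c14486 : PP 9 3 T 0x1000000000000000000040004000200000000000000000000000000000000000000000000000010000000000000000000000011 := rS 0x35639e33f2c452cbdb7cd06f3ce1ac1bb5ac97daec40410c8a772c21cb7dfc98d07a310b8fc66f156abc3aa9d9444e65d0da051b133ea251e2709894dfa00124d3ea10cb2537b0 (k8 c14475 c5397 c5396 c5393 c5398 c5448 c5444 c5642 (k8 c14387 c5565 c1113 c5564 c267 c5568 c5567 c5566 (k8 c5382 c5381 c5380 c1109 c9746 c9719 c9727 c5210 (k8 c5489 c5486 c5406 c5490 c9695 c5316 c5318 c5433 (k8 c5434 c5436 c14275 c14372 c5450 c14480 c11253 c5644 (k8 c2051 c284 c1949 c280 c281 c1764 c1630 c14481 (k8 c14482 c9673 c9672 c5211 c282 c8722 c14485 c5231 (k8 c5420 c5417 c5421 c10494 c7824 c3582 c2999 c5778 k0)))))))) (by decide +kernel)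
def c14487 : PP 9 3 T 0x4004400000000000000000000000000000000000000000000000000000000000000000440000000000014044000000000000000000011020015001400000 := rS 0x32c7ed4 (k4 c5689 c442 c1660 c3579 k0) (by decide +kernel)
def c14488 : PP 9 3 T 0x4400000000022000001080000000000000000040004000100000000000000000000500000000000000000000000000000000000008020000000000000 := rS 0x2d5bc3a1bf8472ff67bce03ecceace2aab56abdfaa9d9325365f (k8 c5439 c5397 c5396 c5210 c5489 c5405 c5406 c5490 (k8 c5413 c5414 c5532 c8483 c5218 c5502 c5540 c5543 (k8 c5544 c439 c14406 c1621 c5654 c495 c2514 c10153 k0))) (by decide +kernel)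
def c14489 : PP 9 3 T 0x400000000042000201080000000000000200040004000100000000000000000000400000000000000000000000000000000000000020000004004088 := rS 0xcf1b7b0723bf0888f61f48887386b06ed47cd56978fde291e845e297d94451e2709894de934fa8432c90b97c8281 (k8 c5380 c1734 c5439 c1107 c5396 c5393 c5398 c5448 (k8 c5444 c5565 c1113 c5564 c267 c5568 c9727 c5210 (k8 c5404 c9695 c5558 c5560 c5339 c14401 c13634 c14487 (k8 c141 c14403 c14488 c9673 c9672 c5211 c265 c13457 (k8 c1111 c5372 c5650 c11870 c1674 c395 c5165 c5654 (k2 c5543 c1621 k0)))))) (by decide +kernel)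
def c14490 : PP 9 3 T 0x62000001080000000000000100040004000100000400000000000000400000000000000000500000004000080000010020020000000080 := rS 0x10348a0c960a1d1086fe11cfbdfecf42bce02877bfb0939d59c55569d119a55bb264a64b31d2fa2c8af1 (k8 c9695 c456 c686 c5439 c2159 c32 c5447 c5396 (k8 c5210 c5490 c9742 c5409 c5412 c5413 c5414 c5532 (k8 c8483 c509 c5218 c5498 c5499 c5502 c5540 c5541 (k8 c5543 c5544 c14376 c439 c14406 c1621 c5658 c5654 (k4 c1675 c562 c2310 c695 (k2 c1936 c5251 k0)))))) (by decide +kernel)
def c14491 : PP 9 3 T 0x42000201080000000000000000040004000100000000000000000000000000000000000000000000000010080000000000000000004008 := rS 0x391e37897e3f96736a3f1456482346b81bbe17621dcfec72f9a4ce974aec8c61b40a36267d4789c2625378659261 (k8 c5445 c5396 c5393 c5565 c1113 c5564 c267 c5568 (k8 c5566 c5382 c5381 c5380 c1109 c9752 c5210 c5488 (k8 c5404 c9680 c9742 c5439 c5357 c5358 c5356 c14285 (k8 c1107 c5451 c681 c1765 c682 c1734 c14489 c5651 (k8 c3730 c14490 c5211 c5231 c9025 c5546 c14109 c5655 (k2 c11864 c2771 k0)))))) (by decide +kernel)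
def c14492 : PP 9 3 T 0x62000001040000000000000200040004000100000400000000000000000000000000000000110110000010080000000000005000000008 := rS 0x1fff35a12602e16b1d4fee3030e0760a7940c6e840fbdcd687ce20fc3ed682cc4315119a4cefd54c4592992cb146acf6a9dfbc292591fde1bd93c51611 (k8 c5558 c685 c9695 c5210 c1109 c14401 c5562 c5342 (k8 c5339 c5214 c5493 c5454 c5453 c5450 c5451 c32 (k8 c5447 c5396 c9727 c5489 c5405 c9680 c9742 c5409 (k8 c5414 c5528 c5532 c13565 c10390 c14406 c4353 c5218 (k8 c5373 c5523 c2101 c1111 c8112 c1482 c2629 c684 (k8 c683 c448 c5654 c2471 c2617 c676 c1453 c10269 (k4 c1721 c2146 c400 c12753 (k2 c5548 c2572 (k1 c5694 k0))))))))) (by decide +kernel)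
def c14493 : PP 9 3 T 0x50000000000000000000000000000000000000000400000020000000000000001051000001555400044150000000440000000004000000 := rS 0x7158c5167f3813fe02ab (k8 c1923 c1927 c2341 c3613 c5550 c2460 c5685 c1294 (k2 c3048 c3602 k0)) (by decide +kernel)
def c14494 : PP 9 3 T 0x42000201000000000000000200040004000100000000000000000000000000000000000000000000040010080000000000000000004008 := rS 0xe2b18a2ce05f37fc0557ec7aa15e6f75a8890e1f48a0c439c358376a8b2392c524308bc4d26756abd53b20da051b133ea251e2709894df93 (k8 c14491 c5565 c1113 c5564 c267 c5568 c5567 c5566 (k8 c5382 c5381 c5380 c1109 c5210 c5489 c5406 c5490 (k8 c9680 c9742 c9695 c5558 c5561 c5339 c5342 c5562 (k8 c685 c14492 c9673 c9672 c5211 c265 c1897 c13457 (k8 c1111 c5373 c5650 c11945 c2101 c447 c684 c14493 (k8 c5657 c5500 c5502 c5544 c12913 c3613 c2460 c5685 (k2 c1294 c3048 (k1 c3602 k0)))))))) (by decide +kernel)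
def c14495 : PP 9 3 T 0x800000000022000001000000000000000100040004000100000000000000000000000000000000000000110110000010080000104000000000000000 := rS 0xd73f9d482061c0ec960a790dfe442423dfde6b43c0f3883f0fb5a0b38aaad3a6933bf553b288b2532598eb146acf6a9dda68b (k8 c686 c5496 c5493 c5454 c5453 c5450 c5451 c2159 (k8 c32 c5447 c5396 c9727 c5210 c5489 c5405 c9680 (k8 c9742 c5412 c5413 c5414 c5532 c13565 c10390 c14406 (k8 c4353 c5218 c10772 c5373 c5523 c14381 c2101 c8112 (k8 c5658 c5171 c1482 c684 c683 c5546 c448 c5654 (k4 c2471 c546 c1453 c677 (k2 c1934 c3608 k0))))))) (by decide +kernel)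
def c14496 : PP 9 3 T 0x42000201000000000000000000040004000100000000000000000000000000000000000000000000040010080000000000000000004008 := rS 0x113c922870fa0c43f2ce1ac1bb51f9145159ef64de281469f5122709894de19 (k8 c5393 c5565 c1113 c5564 c267 c5567 c5566 c5381 (k8 c5380 c9695 c14491 c5214 c14494 c5651 c456 c404 (k8 c14495 c9673 c9672 c5211 c5231 c265 c1897 c1111 (k4 c5373 c5374 c14422 c5650 (k1 c447 k0))))) (by decide +kernel)
def c14497 : PP 9 3 T 0x400000000008000000000000000000000200000000000100000000000001000000400100000000014004000000000000000000140000005005400000 := rS 0x32c7ed469ac3c7ef8e904523d56abd2e1d (k8 c5486 c5404 c5406 c5490 c5560 c5339 c5340 c5341 (k8 c14401 c13634 c3582 c2085 c5689 c14449 c1660 c3579 k0)) (by decide +kernel)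
def c14498 : PP 9 3 T 0x400000000022000001080000000000000100040004000100000400000000000000400000000000000000400110000000000000140008020004004000 := rS 0x1e9c20a48b7dc646f147077ef79bdfd99d59c55569d78ec9325f (k8 c5439 c5447 c5210 c9695 c5412 c5413 c5414 c5532 (k8 c8483 c5218 c5498 c5540 c14376 c492 c5658 c5166 (k8 c14397 c5466 c5580 c2785 c5779 c2789 c5972 c691 k0))) (by decide +kernel)
def c14499 : PP 9 3 T 0x42000201080000000000000000040004000100000000000000000000000000000000000000004000000010020000000000000000004008 := rS 0x386f406064bf0a4507e3f9670d7b51f8a2b2326bf7c62350bb10ea773fb1c125f789a4ce970ea5553b28898c3681899f51e27129bd269f5086592612284c8689 (k8 c5567 c1949 c5564 c284 c5445 c5396 c5393 c5398 (k8 c5448 c5444 c5565 c1113 c267 c5568 c5566 c5382 (k8 c5380 c1109 c9752 c9727 c5210 c5489 c5488 c5486 (k8 c5404 c9680 c9742 c9695 c5439 c5438 c5357 c5358 (k8 c5356 c5440 c14285 c1107 c280 c1945 c5451 c1765 (k8 c3577 c14497 c5651 c404 c14498 c9672 c5211 c5231 (k8 c9025 c8722 c5374 c12084 c5546 c5550 c5592 c14109 (k2 c11867 c11864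 k0)))))))) (by decide +kernel)
def c14500 : PP 9 3 T 0x800000000022000001000000000000000200040004000000000400000000000000000000000000000000004000000010000000140000005000000008 := rS 0x1024207d066bce7b566218aaac46f13499dfaa9d94443699 (k8 c5447 c1109 c9727 c5210 c5489 c5405 c9680 c9742 (k8 c9695 c5409 c5413 c5414 c5528 c5532 c10390 c5218 (k4 c5523 c5525 c1111 c8112 (k2 c14437 c2629 k0)))) (by decide +kernel)
def c14501 : PP 9 3 T 0x10000000000000000000000000000000000000000400010080000000000000000000000001400115000000020000401002000041010008 := rS 0x6fb84fec7718d80cd0 (k8 c2105 c1946 c2106 c1780 c13650 c676 c1483 c2331 (k1 c3610 k0)) (by decide +kernel)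
def c14502 : PP 9 3 T 0x18000000000000000000000000000000000000100400010081000000000100000200000005400115000000020000401014000845010008 := rS 0x381bee33fb1c6c9c03058631581a5c3a95 (k8 c5488 c5486 c5404 c2195 c1295 c14501 c3577 c1108 (k8 c1258 c1259 c13650 c676 c1778 c2331 c3610 c1483 k0)) (by decide +kernel)
def c14503 : PP 9 3 T 0x8000000040000000000000000040000000100000000000011000000000000000000002000000000000011000000000114000000400008 := rS 0xe8601b (k4 c1109 c14092 c13264 c1679 k0) (by decide +kernel)
def c14504 : PP 9 3 T 0x2000001040000000000000200040004000100000400000000000000000000000000000000404110000010020000140000005000004008 := rS 0xdf709fd8e3603059c7154e34557ec7bc0472b5113d4f27b0fa0d22f310e70d60ddaac08e4b8e8a47a1178ab55e970ea5553b28886d261964a6cc299198d59bde (k8 c5214 c5495 c5450 c8428 c5447 c5445 c5397 c5396 (k8 c5393 c5444 c1109 c9727 c5210 c5489 c5488 c5486 (k8 c5404 c5406 c5490 c9695 c5558 c5560 c5339 c5341 (k8 c5342 c5562 c3582 c14500 c9673 c9672 c5211 c265 (k8 c282 c13457 c8722 c1111 c5372 c5524 c1947 c5650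 (k8 c11945 c395 c2144 c14502 c5657 c5500 c5501 c8724 (k8 c1294 c1778 c14503 c1108 c1259 c13650 c676 c1483 (k2 c2331 c3610 k0)))))))) (by decide +kernel)
def c14505 : PP 9 3 T 0x800000000022000001000000000000000100040004000000000400000000000000000000000000000000004110000000020000000004020004000008 := rS 0x1be7f638f00c161cbdbe4f3f79ac1a7b81e70f2f5f0fb5a0b336c55569d78bf7651131b25323567b4c7e19 (k8 c5393 c404 c5496 c5453 c5450 c5447 c5396 c9752 (k8 c9727 c5210 c5405 c9695 c5412 c5413 c5414 c5529 (k8 c5532 c13565 c10390 c14406 c4382 c1540 c5218 c10772 (k8 c5372 c5522 c5523 c14381 c282 c5171 c5657 c397 (k4 c14382 c1108 c1308 c675 (k2 c677 c2771 (k1 c14109 k0))))))) (by decide +kernel)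
def c14506 : PP 9 3 T 0x80000000000000010000020000000000000000000000000000000000400000080000000000000000000000000000110000000020000004002000041000008 := rS 0xdf3fb1c6c06 (k4 c1946 c2106 c13650 c677 (k2 c2332 c14109 k0)) (by decide +kernel)
def c14507 : PP 9 3 T 0x80000000000000010000020000000000000000000000000000000000400000000000000000000000000000000000110000000000000004000000841800008 := rS 0xdf3fb1c6c06 (k4 c1108 c1259 c13650 c677 (k2 c2332 c14109 k0)) (by decide +kernel)
def c14508 : PP 9 3 T 0x42000201000000000000000000040004000100000000000000000000000000000000000000000000040010000000000000000000004008 := rS 0x1a2abf63dd3a300b8e444f50fa0de621f9670d60dda8fc5159668d7bc33c990c8a584396de2974aaa765112e86d03133ea251e2709894de1964a6cc299 (k8 c5447 c5445 c5397 c5396 c5393 c5565 c1113 c5564 (k8 c267 c5568 c5567 c5566 c5382 c5380 c1109 c9746 (k8 c9727 c5210 c5489 c5488 c5404 c9695 c14496 c11253 (k8 c5644 c284 c1949 c14499 c8428 c5214 c5450 c5495 (k8 c14504 c5651 c404 c14505 c9673 c9672 c5211 c5231 (k8 c265 c282 c8722 c1111 c1947 c5650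 c395 c14507 (k4 c14092 c14503 c14506 c5657 (k2 c5500 c5501 (k1 c8724 k0))))))))) (by decide +kernel)
def c14509 : PP 9 3 T 0x80000001000000000000000200000004000000000000000000000000000000000000000000080000000000100000000000000004040000 := rS 0x164b64408bc76429 (k8 c5417 c5210 c9695 c5558 c14226 c685 c284 c5644 k0) (by decide +kernel)
def c14510 : PP 9 3 T 0x8000000000a2000201000000000000000000040004000000000000000000000000000000000000000000000000040000000000000000000000000000 := rS 0xf6e762299 (k4 c5447 c9727 c8114 c10390 (k1 c5218 k0)) (by decide +kernel)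
def c14511 : PP 9 3 T 0x4000000000010000000000000000000000100000000000100000000000004000000805110000000000050184000400551080000000010000801041008 := rS 0xd1428d9eec73d9e506162f1d40c091f1047a4408474c61f (k8 c1111 c9752 c2159 c685 c686 c1492 c458 c5655 (k8 c275 c2908 c1895 c3597 c1450 c1897 c1455 c1687 (k4 c13650 c2101 c1259 c684 (k2 c1482 c3607 k0)))) (by decide +kernel)
def c14512 : PP 9 3 T 0x5000000000000010000000000000000000000100040004000000000400000011000000000100000000000054000110000000020000004014000015000008 := rS 0x5c63f27b671e6220f9ac420d (k8 c9673 c265 c9672 c1111 c5650 c447 c5211 c5657 (k4 c5171 c14506 c14507 c3577 k0)) (by decide +kernel)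
def c14513 : PP 9 3 T 0x1000000000000000000040004000000000000000000000000000000000000000000000000000010000000000000000000000011 := rS 0x114f9125feab7bfb07f1c22bd4b1014196c96f3112450e1f10e70d60ddad65ade3669dd9e356290fdfde19a2b26b114b2d6671db4a532614db2432a149ec04a27449f4de1389a3503a00d9740473789a4cead57a5c3a9554ec81f11 (k8 c9727 c9739 c5210 c5489 c5488 c5486 c5404 c5406 (k8 c5490 c9680 c9742 c9695 c9719 c5642 c9746 c1109 (k8 c14387 c5380 c5381 c5382 c5564 c5565 c5566 c5567 (k8 c267 c1113 c14475 c5444 c5398 c5393 c5396 c5397 (k8 c5445 c5447 c14486 c14508 c5571 c5574 c5420 c5417 (k8 c5421 c12830 c3602 c8428 c5214 c5583 c2775 c5451 (k8 c5450 c5453 c5493 c5495 c6601 c9031 c14509 c14510 (k8 c9673 c9672 c5211 c265 c1111 c5373 c5374 c5650 (k8 c447 c560 c14511 c8722 c3068 c5644 c1947 c284 (k8 c3582 c405 c14512 c5498 c5500 c5544 c513 c5724 (k2 c14396 c7822 k0))))))))))) (by decide +kernel)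
def c14514 : PP 9 3 T 0x41000101000000000000000000000000000000000000000000000000000200000000010000050200400001000000000000000000000000 := rS 0x7bd1ab0693293fe3 (k8 c5463 c1603 c5680 c10123 c1324 c2083 c5506 c5673 k0) (by decide +kernel)
def c14515 : PP 9 3 T 0x41000101080000000000000000000000000000000000000000000000000210000010010000150100000000000000000000000000000000 := rS 0x27d96d2f1ac7dc7d3f9dcead7 (k8 c2190 c5440 c5356 c5358 c5442 c5673 c5506 c8136 (k4 c5861 c1324 c2882 c5680 k0)) (by decide +kernel)
def c14516 : PP 9 3 T 0x61000101080000000000000200040004000200000000000000000000000000000000000000000000000010080000000000000000000002 := rS 0x239c1f36fb4fde8c40b8c923b89831fe8543fb33ad768f7d90c544bc4cead4bbf52aa9d94447e3d3081c127d3c9dc86412591d566d48a2cd2a1390942263 (k8 c5355 c5558 c5559 c11969 c1196 c9742 c855 c9824 (k8 c5529 c5413 c5562 c5342 c5340 c5561 c5356 c5441 (k8 c5442 c5438 c5432 c661 c5436 c5318 c9727 c5210 (k8 c5489 c5488 c5405 c5404 c5490 c9680 c9695 c1898 (k8 c10463 c14285 c5494 c2133 c2190 c14308 c5218 c5499 (k8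 c5541 c5544 c10258 c2598 c289 c294 c13204 c14514 (k8 c14515 c5505 c2083 c12713 c14209 c5985 c5675 c2846 k0))))))) (by decide +kernel)
def c14517 : PP 9 3 T 0x400000000029000020080000000000000000000000000000000100000000000000000000000000000000000000000151000000000000000000000000 := rS 0xc564b40f6974a98ceeab (k8 c5413 c5356 c5355 c5488 c5404 c5372 c14308 c2133 (k2 c1706 c14285 k0)) (by decide +kernel)
def c14518 : PP 9 3 T 0x41000000000000000000000000000000000000000000000000000000000400000000010000000200000001000000000000000000000000 := rS 0x13fe3 (k2 c5463 c1603 (k1 c5680 k0)) (by decide +kernel)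
def c14519 : PP 9 3 T 0x41000000000000000000000000000000000000000000000000000000080400000010010000000000000000000000000000000000000000 := rS 0x13fe3 (k2 c5579 c2882 (k1 c5680 k0)) (by decide +kernel)
def c14520 : PP 9 3 T 0x101000000000000000000000000000000000000000000000000200000000000000000140010000000000000000000000000000000 := rS 0x113ef (k2 c5585 c2837 (k1 c5673 k0)) (by decide +kernel)
def c14521 : PP 9 3 T 0x61000101080000000000000200040004000200000000000000000000000000000000000000000000000010000000000000000000000002 := rS 0x88587bd909365349aad7228d51a1b2c16d428b393c4d2ad4b8752bb20c974663f0b8c47a093e98cea250890c831d (k8 c5341 c5340 c5561 c5558 c5559 c5440 c5355 c5442 (k8 c5438 c5436 c5434 c5433 c5318 c5316 c9745 c9699 (k8 c5210 c5488 c5486 c5404 c5490 c9742 c9695 c11969 (k8 c855 c1196 c14516 c5644 c1943 c2169 c280 c285 (k8 c13349 c14520 c3588 c14519 c1753 c3577 c14395 c1324 (k2 c5673 c1981 k0)))))) (by decide +kernel)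
def c14522 : PP 9 3 T 0x81000100080000000000000000000000000000000000000001000000000000000050000050000000014151480000040000000000010000 := rS 0x357c6a040b4fded7efa31908b62a24fa7f319dce6b1 (k8 c5421 c5419 c5356 c5355 c5358 c5442 c1898 c10463 (k8 c685 c14285 c3602 c5494 c2189 c5505 c2083 c13318 (k4 c9934 c5578 c3000 c5689 k0))) (by decide +kernel)
def c14523 : PP 9 3 T 0x4000000000000021000101080000000000000200040004000000000000010000000000040100000100000000090000054011420000000145000000004000 := rS 0x1428171b5d983b6fbd4189005a3fe7e189bfd9e8579b45efeccef7d886933a5d2bb2889f4fe633baae2ab346c746a09 (k8 c5438 c280 c5341 c2169 c5532 c5414 c5413 c5356 (k8 c5355 c5358 c5442 c9727 c5210 c5488 c5404 c9680 (k8 c9742 c14285 c5451 c14517 c5218 c5498 c5501 c5540 (k8 c5541 c5543 c5544 c858 c14406 c14396 c8824 c12878 (k8 c5675 c5645 c1948 c2948 c289 c3587 c2192 c2624 (k2 c857 c10309 (k1 c9934 k0))))))) (by decide +kernel)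
def c14524 : PP 9 3 T 0x21000101080000000000000200040004000200000000000000000000000000000000000000000000000010000000000000000000004002 := rS 0x6af8d40816bf7d910109229a689f79111a1b2c16d627313ed9e26933ab55e974aec8ba5f198e47e311b9840e7d3f98c871d37894e211 (k8 c5558 c667 c5559 c1060 c5341 c5561 c5355 c5358 (k8 c5442 c5432 c661 c5435 c5434 c5318 c5317 c5316 (k8 c10372 c9745 c5210 c5488 c5404 c5406 c5490 c9680 (k8 c9742 c9695 c14521 c5570 c5419 c5421 c14522 c5644 (k8 c1943 c2169 c14251 c14401 c2834 c2936 c14205 c284 (k8 c4993 c14523 c5494 c2189 c857 c9934 c5578 c3000 (k1 c5689 k0))))))) (by decide +kernel)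
def c14525 : PP 9 3 T 0x41004400000000059000001080000000000000000040000000200001000000000000040000400000000010000000000000000000004410000000000004002 := rS 0x719256a200533536e1688efc09e2b97c723f0385c6e3d0498c1b9c (k8 c5211 c9673 c5355 c5438 c5436 c5435 c5433 c5432 (k8 c5318 c5317 c10372 c9758 c5680 c5198 c5456 c5459 (k8 c5460 c5536 c5537 c9123 c11605 c4733 c345 c1608 (k1 c3590 k0)))) (by decide +kernel)
def c14526 : PP 9 3 T 0x2000000000000009000020080000000000000000000000000000000000000000000000000210000000000000000000000011000000000000000000000000 := rS 0x662759e8568aad8e77 (k8 c5356 c5357 c5500 c5501 c5541 c5543 c1275 c8127 (k1 c11628 k0)) (by decide +kernel)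
def c14527 : PP 9 3 T 0x40008000000000050000000000000000000000200040000000200001000011008000040000200000000000000000000000000000000000000010400000000 := rS 0x1c23b592756a2024b343e391b9049647 (k8 c5562 c5342 c5340 c5435 c5317 c2532 c2500 c451 (k4 c5650 c11945 c1276 c5685 (k2 c341 c2899 (k1 c11685 k0)))) (by decide +kernel)
def c14528 : PP 9 3 T 0x1000000000000018000000080000000000000000040004000200000400000040000000000200000000000000200000080010004000000000000400004000 := rS 0xe9a20b4dbc83ef55521472071b8258e7906a0cd6a9889ed0f9c (k8 c5211 c5373 c5372 c9727 c5489 c9672 c8722 c9673 (k8 c5441 c5357 c5438 c5435 c5432 c5317 c949 c11824 (k8 c1924 c1085 c5657 c7393 c2530 c2134 c3568 c449 k0))) (by decide +kernel)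
def c14529 : PP 9 3 T 0x1000000000000010000000000000000000000000040004000000000000001044000000000000000001000000000000000040000000000000000000000002 := rS 0x210fbd0468335c450f9c (k8 c5211 c5373 c9727 c9672 c8722 c9731 c5657 c10652 (k2 c2420 c5650 k0)) (by decide +kernel)
def c14530 : PP 9 3 T 0x41000101080000000000000200040004000200000000000000000000000000000000000000000000000010080000000000000000004002 := rS 0x3cbc4dff9c4bdacb80b4d1881efb21eec544bc4cead4bbf52aa9d90a446573081d8e7721904964743e736a8b34a84c715390942311 (k8 c9727 c5558 c5559 c11969 c1290 c5355 c1196 c9742 (k8 c855 c14524 c5211 c5373 c5562 c5342 c5340 c5561 (k8 c5356 c5357 c5432 c661 c9758 c9731 c9693 c5210 (k8 c5489 c5488 c5405 c5404 c5490 c9680 c9695 c1898 (k8 c10463 c2101 c14285 c5494 c14514 c14515 c2083 c2141 (k8 c1325 c14526 c14528 c5547 c2512 c14525 c14529 c14527 k0)))))) (by decide +kernel)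
def c14531 : PP 9 3 T 0x41000101080000000000000200040004000200000000000000000000000000000000000000000000000010000000000000000000004002 := rS 0x88587bd909365349aad7228d51a1b2c16d428b393c4d2ad4b8752bb20c974663f0b8c47a093e98cea250890c831d (k8 c5341 c5340 c5561 c5558 c5559 c5440 c5355 c5442 (k8 c5438 c5436 c5434 c5433 c5318 c5316 c9745 c9699 (k8 c5210 c5488 c5486 c5404 c5490 c9742 c9695 c11969 (k8 c855 c1196 c14530 c5644 c1943 c2169 c280 c285 (k8 c13349 c14520 c3588 c14519 c1753 c3577 c14395 c1324 (k2 c5673 c1981 k0)))))) (by decide +kernel)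
def c14532 : PP 9 3 T 0x1000000000000010000001080000000000000000040004000200000000000004000000000020000000000000000000000000000000000000000000000002 := rS 0xcd10bd8cefd0eaa764330385c6e0defb44f79c (k8 c5211 c5372 c1706 c5451 c9673 c5435 c5433 c5432 (k8 c5316 c5210 c5489 c5486 c5405 c9680 c14529 c342 (k2 c2071 c11605 k0))) (by decide +kernel)
def c14533 : PP 9 3 T 0x80000000080000000000800200000000000200400100500054000000000000000001000000000000002100020000000000000200000002 := rS 0xa3c249ef95b2e6f981bbee74a4dd78af5625 (k8 c5559 c5600 c5601 c5603 c5604 c12897 c13448 c669 (k8 c1062 c5667 c1299 c984 c862 c347 c2468 c287 (k1 c8896 k0))) (by decide +kernel)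
def c14534 : PP 9 3 T 0x209000000080000000000400000040000000000000001500000000000000001000004002000000000000001400000000100000200000844 := rS 0xc0ea754a528397ea4d27ae16e2dc3df54f7751bf706a9c8e3cc6bb (k8 c4761 c5355 c5443 c5491 c5489 c5407 c5405 c5614 (k8 c5613 c5428 c5427 c5429 c5612 c5616 c3624 c346 (k8 c2424 c5632 c6186 c5661 c1280 c2648 c707 c3183 (k1 c5264 k0)))) (by decide +kernel)
def c14535 : PP 9 3 T 0x2000400000000019000000080000400000400000040000000000000001000000010000002001000000002000000000000001400000000100000200000844 := rS 0x36db3f1723e3cae77dea717f4d26e5bb79419ad53113ddef139c55c1d0b05 (k8 c5545 c5541 c5503 c5500 c5211 c5527 c5375 c5372 (k8 c9727 c5489 c9672 c8722 c5359 c2233 c14534 c5213 (k8 c5232 c5390 c5388 c5609 c5633 c8870 c5274 c9462 (k4 c5625 c3336 c3382 c5690 k0)))) (by decide +kernel)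
def c14536 : PP 9 3 T 0x42000400000000091000001080000400000400000040004000000000000010010000080000001000000010000000000002001400000000100000200000844 := rS 0x60752a7bba95477dd26e1ca4d5bfc7eb0866409d3154e2a7658fbc98d669b (k8 c2493 c5574 c5355 c5359 c5443 c5210 c5489 c13097 (k8 c2950 c6044 c6986 c2516 c14535 c5556 c5514 c2468 (k8 c2358 c6186 c5232 c5220 c984 c1703 c1280 c5613 (k4 c5428 c5388 c5607 c3600 k0)))) (by decide +kernel)
def c14537 : PP 9 3 T 0x42004400000000091000001080000400000400000040004000000000000010014000100810001000000010000000000002001400000000155000200000844 := rS 0xe3f08e99adf7bb3c9227 (k8 c5570 c344 c5543 c5498 c14536 c2192 c3587 c5456 (k2 c1774 c5691 k0)) (by decide +kernel)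
def c14538 : PP 9 3 T 0x82000000000000008000000000000000000000000000000000000000000010000000000000000000500000000000000000000000000000000000000000000 := rS 0x45556ff (k4 c5544 c5500 c5590 c14396 k0) (by decide +kernel)
def c14539 : PP 9 3 T 0x2000400000000091000101080000000000400000040004000000000000010014000000010001000000010000080000016001400000000155000200000844 := rS 0x386fed6f1a00fa7f319ef3873f9ac567b2 (k8 c5210 c5574 c5421 c14538 c5419 c5211 c5372 c5355 (k8 c5358 c5442 c9934 c5463 c857 c3960 c1716 c14537 k0)) (by decide +kernel)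
def c14540 : PP 9 3 T 0x2000000000000019000000080000400000400000040000000000000001000000010000000021000000002000000000000001400000000100000200000844 := rS 0x6db67e2dd723e3cae77dea717f4d26e6f28335aa6227bbde2739df55c1d0b05 (k8 c5545 c5541 c5503 c5500 c5451 c5211 c5527 c5375 (k8 c5372 c9727 c5489 c9672 c8722 c5359 c14534 c5213 (k8 c5232 c5390 c5388 c5609 c5633 c8870 c5274 c9462 (k4 c1815 c5625 c3336 c3382 (k1 c5690 k0))))) (by decide +kernel)
def c14541 : PP 9 3 T 0x42000000000000011000001080000400000400000040004000000000000000010000080000021000400000000000000002001400000000100000200000844 := rS 0x148e5c0ea54f7751df749b826adfe3f5843a538a9d963cc69b (k8 c2493 c5355 c5443 c5210 c5489 c13097 c6044 c14540 (k8 c5556 c5514 c2468 c2358 c5232 c5220 c984 c1703 (k4 c5613 c5428 c5388 c5607 (k2 c6186 c5264 (k1 c1280 k0))))) (by decide +kernel)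
def c14542 : PP 9 3 T 0x91000101080000000000000200040004000200400000000000000000000020000000000000000000000010000000000000000000000002 := rS 0x749d66b7efe806b357c6a0f9d9c1420364159e8583aadefec68f7dfa03198e582311b9ed0f9c59ac46a097aa0cd6a988fbc4f0179835a63f45110368d2c16ce26f1290c22610397d2a9757ab7646734bc63a5d (k8 c9745 c5341 c9695 c9742 c9680 c5210 c5490 c5406 (k8 c5404 c5488 c10372 c5432 c661 c5558 c5561 c5559 (k8 c1060 c667 c14522 c5644 c2169 c1943 c14251 c14205 (k8 c5318 c2936 c9673 c282 c3067 c5570 c14401 c9727 (k8 c5489 c9672 c8722 c1947 c5438 c280 c5421 c5574 (k8 c5211 c5373 c5372 c5435 c5434 c5319 c5317 c5316 (k8 c28 c5405 c5451 c1706 c14532 c5498 c5500 c5503 (k8 c5541 c5543 c5545 c3601 c11603 c665 c14533 c14538 (k8 c14539 c5578 c3000 c5689 c1765 c3960 c14541 c2192 (k2 c1278 c3587 (k1 c341 k0))))))))))) (by decide +kernel)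
def c14543 : PP 9 3 T 0x1000101080000000000000200040004000200000000000000000000000000000000000000000000000010000000000000000000000010 := rS 0x357c6a06bf7d02c862a29a7ef2223436582dac4e627db6d4e26f8e90c2225789a4cead57a5d2bb28f83cba5f1f9840e003e9fcc677 (k8 c5356 c5355 c5358 c5442 c14513 c5432 c661 c5318 (k8 c10372 c9745 c9739 c9713 c5210 c5488 c5404 c5406 (k8 c5490 c9680 c9742 c9695 c5559 c5558 c5561 c5341 (k8 c1060 c667 c14524 c14531 c5570 c5419 c5421 c14522 (k8 c5644 c1943 c2169 c14251 c14401 c2936 c14205 c14542 (k8 c14285 c856 c5494 c2189 c9934 c5578 c3000 c5689 k0)))))) (by decide +kernel)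
def c14544 : PP 9 3 T 0x80000000000000a1000001080000000000000000040004000000000000000000000000000000000000000000000000000011000000000000000000000000 := rS 0xcefb7beab34ec8cf11 (k8 c9727 c9680 c5210 c9742 c5413 c11257 c13184 c14517 (k1 c5218 k0)) (by decide +kernel)
def c14545 : PP 9 3 T 0x10000101080000000000000100040004000200000000000000000000000100000000000000000000000010400000000000000000000002 := rS 0xed9ae150204dedf08129364910453e6cf42c05efec7abcc6a1b2c344b7e3621a4ce974a80c465d198e462373081c127d3f98cee715989ce6b1db40dabee06a0cd6a9d9444f79c (k8 c5211 c5372 c9727 c5210 c5489 c9672 c8722 c9673 (k8 c5219 c5585 c5508 c5212 c5421 c5419 c5570 c5574 (k8 c5571 c5356 c5355 c5358 c5442 c5438 c5432 c661 (k8 c5435 c5434 c5317 c5316 c9745 c9731 c28 c5488 (k8 c5404 c9680 c9742 c14285 c6616 c681 c1706 c5644 (k8 c1943 c280 c282 c1947 c14532 c5498 c5502 c5541 (k8 c5543 c14538 c6986 c13932 c13085 c2490 c6578 c12638 (k8 c2510 c2746 c699 c9934 c3061 c8709 c563 c3587 k0)))))))) (by decide +kernel)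
def c14546 : PP 9 3 T 0x100000000000000000100040000000200000000000000000140000000000000000000000000000000000001400400000000011100 := rS 0xf938896411c8fc6e3d (k8 c5436 c5435 c5318 c5317 c12636 c12638 c3590 c5660 (k1 c5549 k0)) (by decide +kernel)
def c14547 : PP 9 3 T 0x11000100000000000000000100040000000200000000005008000000000200000050000000140000000150000000100000000400000104 := rS 0x1126f0838476df4ea6c404724b343e591c9c5669f39ac76c0d (k8 c9673 c5212 c5421 c5419 c5572 c5574 c5571 c5317 (k8 c282 c2532 c2500 c450 c2536 c5650 c7393 c1276 (k4 c13097 c341 c13096 c14546 (k2 c2746 c2750 (k1 c3602 k0))))) (by decide +kernel)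
def c14548 : PP 9 3 T 0x1000000000000010000001080000000000000000040004000200000000000004000000000200000000000000000000000010000000000000000000000002 := rS 0x2a836d02c334425b7b19dfa1d54ec8465d1981c2e3706a1f39df (k8 c5494 c5211 c5373 c9673 c5435 c5433 c5432 c5316 (k8 c9745 c9731 c5210 c5489 c5486 c5405 c9680 c14529 (k8 c2101 c342 c2071 c5644 c11605 c1943 c2133 c7110 k0))) (by decide +kernel)
def c14549 : PP 9 3 T 0x1000101080000000000000000040004000200000000000000000000000000000000000000000000000010000000000000000000000010 := rS 0xd476f52c0819a5b3627588cf42b4556f7f63cd908741e70d7b57fa2c8a8df76dab2c7049a4cead57bf553b28880c465d2f8cc72311b9840e00 (k8 c14513 c5432 c661 c5435 c5434 c5317 c5316 c10372 (k8 c9745 c9731 c28 c9727 c5210 c5489 c5405 c5406 (k8 c5490 c9680 c9742 c5438 c5357 c14543 c5212 c5219 (k8 c5505 c5582 c5583 c5586 c14544 c9672 c5211 c8722 (k8 c5373 c14545 c14547 c14548 c5498 c5500 c5501 c5541 (k8 c5543 c14526 c1275 c3601 c681 c11628 c666 c5644 (k4 c2420 c341 c280 c3587 k0))))))) (by decide +kernel)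
def c14550 : PP 9 3 T 0x9008000000000000000001040000000000000200000000000200000000000008000000000010000000000000002000100000000000100000000000000000 := rS 0xe11db39a276ef8d1aa3f21904964771b4dbe49 (k8 c450 c5580 c5579 c5466 c5562 c5342 c5340 c5561 (k8 c5318 c5585 c9641 c5450 c5668 c10484 c789 c449 (k2 c1652 c6010 k0))) (by decide +kernel)
def c14551 : PP 9 3 T 0x8000000000000000000000000000000000200000000000200000000008008000000010000000000000000000000000000000001000000000000000000 := rS 0x708ec7e412591dc6df (k8 c5580 c5466 c5562 c5342 c5340 c5318 c449 c3013 (k1 c6010 k0)) (by decide +kernel)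
def c14552 : PP 9 3 T 0x1008000000000000000101040000000000000200000000000200000000000008000000000010000000000000052000100000000000100000000000000000 := rS 0xd51af79a0fe467bc92331f8c47a4320c75aed3 (k8 c5579 c5465 c5341 c5340 c5561 c5436 c5434 c5318 (k8 c5316 c450 c14550 c5673 c950 c14551 c10484 c5450 (k2 c5454 c3588 k0))) (by decide +kernel)
def c14553 : PP 9 3 T 0x1008000000000000000101040000000000000200000004000200000000000008000000000010000000000000046000000000100000000000000000001000 := rS 0x38476d51af79a0fe24a3088893a968b23f1884486412591dc6df (k8 c5580 c5466 c5562 c5342 c5340 c5561 c5558 c5434 (k8 c5318 c282 c5644 c1894 c1898 c14552 c14205 c14368 (k8 c950 c14551 c10484 c5450 c5454 c448 c3012 c6010 k0))) (by decide +kernel)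
def c14554 : PP 9 3 T 0x101000000000000000200000000000000000000000000000000440010000000000000040000000000020000005005000000000000 := rS 0x89f7b508a354690c831d (k8 c5341 c5340 c5561 c2169 c281 c285 c3588 c5585 (k2 c2838 c5673 k0)) (by decide +kernel)
def c14555 : PP 9 3 T 0x1008000000000020000101040000000000000200040004000200000000000000000000000010000000000000040000000010100000000000000000000000 := rS 0x3cd0883358350f9c3499dfaa9d9444b45969b5c7a311f8cd566d (k8 c5529 c5413 c5316 c5318 c5434 c5436 c5465 c5579 (k8 c14554 c5644 c9727 c5210 c5489 c5405 c9680 c9742 (k8 c5218 c5373 c5522 c5523 c5525 c3601 c14553 c684 k0))) (by decide +kernel)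
def c14556 : PP 9 3 T 0x100000000000000000200000000000200000000000000000440000000000000000001000004000000000000000000000000002000 := rS 0x23fe6e0248ee279d1f9049647 (k8 c5562 c5342 c5340 c5318 c5522 c2598 c290 c294 (k4 c6010 c14209 c2847 c5675 k0)) (by decide +kernel)
def c14557 : PP 9 3 T 0x8000000000020000101040000000000000200040004000200000000000000000000000010000000000000040000000010000000000000000000001002 := rS 0x42a1fd86d559a4cefd54eca225a2cb4dae3d188fc665d (k8 c9745 c5316 c5318 c5434 c5436 c5465 c5579 c14554 (k8 c5644 c9727 c5210 c5489 c5405 c9680 c9742 c5413 (k4 c5529 c14555 c5499 c5541 (k1 c10258 k0)))) (by decide +kernel)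
def c14558 : PP 9 3 T 0x41000101040000000000000200040004000200000000000000000000000000000000000000000000000010000000000000000000000002 := rS 0x10aab79bdc3c6d4388739b506968b2df69b8dae8b48f88e4677eaa764232e8cc7e311eb14d29d3d988be6103c444a11 (k8 c5558 c5559 c9727 c5432 c661 c10372 c5663 c888 (k8 c1274 c9742 c837 c5436 c5434 c5318 c5316 c9745 (k8 c9731 c5210 c5489 c5405 c9680 c11969 c5236 c9824 (k8 c855 c5465 c5466 c5579 c5580 c14554 c5644 c14556 (k8 c14557 c5211 c14138 c5373 c666 c5650 c2101 c2532 (k2 c1085 c684 (k1 c10258 k0))))))) (by decide +kernel)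
def c14559 : PP 9 3 T 0x1000000000000028000000000000000000000000000000000000000000000000000000000000000500000000006000040150080004440000005000010002 := rS 0x203ef0fa3206f244a2d5aaf7e8a4466f38aae2a21 (k8 c5528 c5414 c5413 c667 c1060 c9731 c9693 c5405 (k8 c5406 c5490 c685 c1898 c684 c2630 c3602 c2532 (k2 c5505 c2141 (k1 c14427 k0)))) (by decide +kernel)
def c14560 : PP 9 3 T 0x10000000000000a0000001000000000000000200040004000000000000000000000000000000000000000000000000000010000000000000000000000002 := rS 0x7b3fc88f34686cb05b7ac49088f419ac1a9143e71e26933bf553b2888a4ba438e92c8e6f129c422b3139cd62b5 (k8 c5422 c5421 c5419 c5570 c5574 c5558 c667 c5559 (k8 c1060 c5562 c5342 c5341 c5561 c9745 c9693 c9727 (k8 c5210 c5489 c5405 c9680 c9742 c9695 c5218 c5373 (k8 c5374 c5522 c5523 c5525 c5526 c8112 c8385 c2336 (k8 c14559 c5644 c1943 c2169 c282 c14226 c2571 c5657 (k1 c504 k0)))))) (by decide +kernel)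
def c14561 : PP 9 3 T 0x40000000000000000000100000000000000000200040000000200000000081000000000000000001555000000005000041158080000000000004000000012 := rS 0x37dc6784d238d49189e75180c44a2c527b8890c964737894e211 (k8 c5558 c667 c5559 c1060 c5562 c5342 c5561 c9727 (k8 c888 c9693 c685 c1898 c10258 c3602 c5522 c2598 (k8 c10035 c13132 c5675 c1173 c1174 c4622 c4618 c14556 k0))) (by decide +kernel)
def c14562 : PP 9 3 T 0xa0000101040000000000000200040004000200000000000000000000000000000000000000000000000018000000000000000000000010 := rS 0x746677c76c77a830179d220d4ee1b2c16fe70267a15e70168a1defec368862aab7899d5aaf7eaa7640f1497400331c8c46ec5349ee22b3139cd62b5 (k8 c5422 c5421 c5419 c5570 c5574 c9727 c888 c9742 (k8 c837 c5435 c5434 c5317 c5316 c14513 c9745 c9693 (k8 c9739 c5210 c5489 c5405 c5406 c5490 c9680 c9695 (k8 c5413 c5414 c5528 c5529 c14560 c5498 c5499 c5501 (k8 c5502 c5540 c5541 c5543 c6986 c14538 c14561 c5644 (k8 c1943 c2051 c281 c14226 c11603 c10377 c5645 c1948 (k4 c2480 c290 c9979 c3587 (k2 c5668 c1968 k0)))))))) (by decide +kernel)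
def c14563 : PP 9 3 T 0x1000000000000011000101040000000000000200040004000200000000000000000000000000000000000000000000000010080000000000000000000002 := rS 0x1fccff9f79c5e36fb84769b10126061f80fbde48c7ba25166933ab55efd54ec846391f8dc7a9d3117cc2078890c824b239bc4a7108acd3e7358ed90f9c (k8 c5211 c5373 c14558 c5421 c5419 c5572 c5574 c5558 (k8 c667 c5559 c1060 c5562 c5342 c5340 c5561 c9727 (k8 c5432 c661 c10372 c5663 c1274 c5436 c5435 c5318 (k8 c5317 c9731 c5210 c5489 c5405 c5406 c5490 c9680 (k8 c9742 c685 c1898 c2101 c3602 c14529 c5505 c2141 (k8 c2532 c2627 c451 c5650 c7393 c341 c13096 c13097 (k4 c11685 c5985 c5186 c5549 (k2 c5453 c5694 (k1 c2574 k0))))))))) (by decide +kernel)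
def c14564 : PP 9 3 T 0x1000000000000001000101000000000000000200040004000200000000000000000000000000000000000000000000000010000000000000000000000010 := rS 0x44c3cfe7b111e68d0d960b6f133bf43aa9d944452232ec74de2538acc4e735a9ad220d0883d1f9cdaed8c45f3081c0193 (k8 c14549 c14513 c5432 c661 c10372 c5663 c14558 c14562 (k8 c5211 c5526 c9739 c5558 c9673 c13457 c9672 c5422 (k8 c5419 c5570 c5574 c667 c5559 c1060 c5341 c9745 (k8 c9731 c9693 c9727 c5210 c5489 c5486 c5405 c9680 (k8 c9695 c14563 c5644 c1943 c2169 c282 c14226 c14529 (k4 c504 c8123 c2571 c13749 k0)))))) (by decide +kernel)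
def c14565 : PP 9 3 T 0x1000101000000000000000200040004000200000000000000000000000000000000000000000000000010000000000000000000000010 := rS 0x8b03f778fbedf708ec92f54c26c406c42bce02ab7bfb10e83ce1af6a274facf6c4725904866933bf553b2118e462374e98b265f3081c0111 (k8 c9727 c14513 c5432 c661 c10372 c14549 c5663 c1274 (k8 c5435 c5434 c5317 c9731 c5210 c5489 c5405 c9680 (k8 c9742 c5561 c5340 c5342 c5562 c14558 c5574 c5572 (k8 c5570 c14562 c9672 c5211 c8722 c5373 c14564 c5498 (k8 c5500 c5502 c5540 c5541 c3601 c666 c2493 c780 (k8 c2420 c344 c341 c13096 c13097 c9107 c11685 c5186 (k2 c5508 c5582 (k1 c5996 k0)))))))) (by decide +kernel)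
def c14566 : PP 9 3 T 0x100000000000000000100040000000000000000020000000000000000000050000000144000000150080001000000000000001004 := rS 0x449bc204a23bdcb27139ac76df3 (k8 c5592 c5212 c5421 c5419 c5571 c32 c2101 c2791 (k4 c5660 c12638 c2746 c2750 (k1 c3602 k0))) (by decide +kernel)
def c14567 : PP 9 3 T 0x20000101000000000000000100040004000000000000000000000000000000000000000000000000000010000000000000000000000002 := rS 0x3704e264625bd9e6582d925ea8447a0cd60d43fcf3900f69b62aab789a4cead57bf43aa9d944406292eacce6b1db4751b0322a2dffee (k8 c5219 c5586 c5583 c5582 c5508 c5505 c5504 c5212 (k8 c5421 c5419 c5574 c9745 c9693 c28 c9727 c5210 (k8 c5489 c5486 c5405 c5406 c5490 c9680 c9742 c9695 (k8 c5413 c5414 c5529 c13184 c8604 c5218 c5592 c5373 (k8 c5522 c5523 c5525 c5526 c8112 c2336 c10428 c14566 (k8 c5644 c282 c5657 c564 c8188 c12623 c2810 c12357 (k1 c1061 k0))))))) (by decide +kernel)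
def c14568 : PP 9 3 T 0x150000000140000050150010000000000000000020004 := rS 0x1126f (k2 c2746 c2750 (k1 c3602 k0)) (by decide +kernel)
def c14569 : PP 9 3 T 0x1000000000000011000100000000000000000100040004000200000000005000000000000000000051001000140100000050080000100000000000000002 := rS 0x1c5f22092c24116fb84769b101248e1f793dcb2690188c7e7159a7ce6b1db0350f9c (k8 c5211 c5373 c9673 c5212 c5421 c5419 c5572 c5574 (k8 c5571 c5318 c9731 c28 c9742 c32 c2101 c14529 (k8 c2532 c2536 c450 c5650 c7393 c341 c13096 c13097 (k4 c14568 c12617 c12638 c298 (k2 c5660 c6010 (k1 c5549 k0)))))) (by decide +kernel)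
def c14570 : PP 9 3 T 0x1000000000000001000101000000000000000000040004000200000000000000000000000000000000000000000000000010000000000000000000000010 := rS 0x1a47f2090c24110f3d86af33b960b66756abdfa1d54ec8465d198fd8a694ec44e2b35aa348a8b6abffdc8139ed8c5932f9840e0d35ed6b200 (k8 c14513 c14565 c14567 c9672 c9673 c5432 c661 c10372 (k8 c14549 c5663 c5212 c5419 c937 c5219 c5586 c5585 (k8 c5583 c5582 c5505 c5422 c5574 c5571 c9727 c1274 (k8 c9742 c837 c5318 c5316 c9745 c9731 c5210 c5489 (k8 c5486 c5405 c5406 c5490 c9680 c14569 c5644 c2051 (k8 c282 c281 c14529 c8123 c13353 c12617 c1950 c298 (k2 c2917 c9641 (k1 c8433 k0)))))))) (by decide +kernel)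
def c14571 : PP 9 3 T 0x1000101000000000000000000040004000200000000000000000000000000000000000000000000000010000000000000000000000010 := rS 0x16068107a9284049364519e8579c05a2ab7bfb10e83ce1ac1bb545c0d1ab13989ce3eedb5658a62c998462073499d5aaf7eaa765110188cbe00 (k8 c14513 c10372 c9731 c28 c9727 c5210 c5489 c5405 (k8 c5406 c5490 c9680 c9742 c5432 c5434 c661 c14549 (k8 c5663 c837 c14565 c5212 c5219 c5571 c5570 c5419 (k8 c5421 c5505 c5508 c5583 c14567 c9673 c9672 c5211 (k8 c8722 c5373 c14570 c5498 c5500 c5501 c5502 c5540 (k8 c5541 c5543 c6986 c3601 c13085 c666 c6578 c2420 (k4 c12638 c14101 c14568 c281 k0))))))) (by decide +kernel)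
def c14572 : PP 9 3 T 0x1000000000000021000101000000000000000200040004000100000000000008000040040000000000000000100000080010110000004145000000000000 := rS 0x713853c3bf0183be3424b5daa45049f4ee750890c7a418e92c8e99459ed9a84419a4cea97eeca226b43e718f92 (k8 c5209 c5357 c5218 c5373 c5523 c9727 c5210 c5405 (k8 c5489 c9680 c9742 c5525 c8112 c2502 c5372 c855 (k8 c5530 c5562 c5342 c5341 c5340 c5560 c5561 c5558 (k8 c5440 c5356 c5442 c9669 c14205 c14520 c13349 c450 (k8 c3588 c5450 c14517 c5165 c10739 c930 c5460 c12667 (k1 c1607 k0)))))) (by decide +kernel)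
def c14573 : PP 9 3 T 0x100080000000000000200000000000000000000000000000040000000000000000100000004080002000001004140000000000002 := rS 0xe1718ed009e030449647 (k8 c5562 c5342 c5558 c661 c930 c929 c1674 c1607 (k2 c1716 c12667 k0)) (by decide +kernel)
def c14574 : PP 9 3 T 0x1000000000000061000101000000000000000200040004000100000000000000000000000000000000000000000000000010080000000000000000000002 := rS 0x64b17bc6124c0518d36f8fd963718a48721f053c8665978ab52e952e97d3ac73c9dc826d4cacd427212844c7923da11066933aa5fbb2889ad0f9c (k8 c5218 c5373 c5523 c9727 c5210 c5405 c5489 c9680 (k8 c9742 c5525 c8112 c5372 c5209 c5355 c5558 c5559 (k8 c11969 c1196 c5532 c5530 c5529 c5340 c5356 c5441 (k8 c5357 c9066 c10372 c9745 c5488 c5404 c5490 c9695 (k8 c32 c2041 c684 c683 c2532 c2470 c13171 c1565 (k8 c1568 c1753 c327 c14125 c14519 c14572 c2141 c451 (k4 c14573 c14517 c10463 c5494 (k1 c14285 k0)))))))) (by decide +kernel)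
def c14575 : PP 9 3 T 0x9000000000000000000000200000000000000000000000000000000500000000000010000000000080002000000100011000000000012 := rS 0xd31f8cd3c920bab43a19218f4831d (k8 c5341 c5340 c5560 c5561 c9699 c5486 c5490 c1460 (k4 c662 c930 c5284 c327 (k2 c2882 c3588 k0))) (by decide +kernel)
def c14576 : PP 9 3 T 0x1000000000000061000101000000000000000200040004000000000000000000000000000000000000000000000000000010000000000000000000000010 := rS 0x192c5ef185aed5228c46a8d2c16f38674ba5765112e824fa773ac751669509c84a110018f2529 (k8 c14571 c5209 c5355 c14513 c5558 c5559 c11969 c1196 (k8 c9742 c855 c5341 c5440 c5356 c5442 c9669 c9745 (k8 c9727 c5210 c5488 c5404 c9680 c5218 c14574 c5644 (k8 c2169 c280 c1945 c285 c14520 c13349 c14575 c14517 (k2 c5451 c5494 (k1 c14285 k0)))))) (by decide +kernel)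
def c14577 : PP 9 3 T 0x200040000000000000000000000000500000000000000010000000000000002000001000440000000002002 := rS 0x3f6f8e525e01e9049647 (k8 c5562 c5342 c5340 c5560 c9230 c662 c5534 c5538 (k2 c327 c3590 k0)) (by decide +kernel)
def c14578 : PP 9 3 T 0x61000101080000000000000200040004000000000000014000000000000000000000000000100000000010080000000400000000002002 := rS 0x8064314c2e1477cd63ee7899d5a974aec8fa7755c55668b34a84c689218dc92e38992d2272128473a79 (k8 c5441 c5522 c5558 c5559 c11969 c9824 c5342 c2598 (k8 c13204 c294 c2363 c5561 c1898 c5355 c1196 c9742 (k8 c855 c5532 c5414 c5413 c5356 c5442 c5210 c5488 (k8 c5404 c5490 c9680 c9695 c5673 c5506 c14396 c5675 (k4 c2846 c14577 c10463 c14285 (k2 c14515 c14514 k0)))))) (by decide +kernel)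
def c14579 : PP 9 3 T 0x200040000000000000000000000000400000000000000010000000000000002000001000440000000002002 := rS 0x1c1e0 (k2 c9230 c14577 (k1 c5460 k0)) (by decide +kernel)
def c14580 : PP 9 3 T 0x61000101000000000000000200040004000100000000014000000000000000000000000000005000000010080000000000000000000002 := rS 0x383c03f1cb7dae92efb218a6169fbd18e3248ec6f13ce83066f13499d2efd4aaa765110c824f2772591d562136a45427212844c792 (k8 c5209 c5355 c5558 c5559 c11969 c1196 c9824 c5529 (k8 c5528 c5413 c5562 c5342 c5356 c5441 c9669 c9699 (k8 c9727 c5210 c5489 c5488 c5405 c5404 c9680 c9742 (k8 c9695 c2041 c10258 c5522 c2598 c2363 c289 c294 (k8 c13204 c14578 c5505 c2083 c14579 c10463 c14285 c5494 (k8 c10198 c2190 c12713 c324 c327 c9007 c12667 c5460 k0)))))) (by decide +kernel)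
def c14581 : PP 9 3 T 0x1000000000000000000000200000004000100000000000000000000500000000000010010000000000000000000100011000011400000 := rS 0xd31ff786692218f4831d (k8 c5341 c5340 c5560 c5561 c5648 c5284 c11149 c327 (k2 c5496 c3588 k0)) (by decide +kernel)
def c14582 : PP 9 3 T 0x20000010000000000000000000040000000000000000000000000000000040000000001000000001000004400000000000000000801012 := rS 0x720a3583cda99 (k4 c5530 c5529 c9739 c1059 (k2 c5645 c2470 (k1 c10373 k0))) (by decide +kernel)
def c14583 : PP 9 3 T 0x61000101000000000000000200040004000000000000000000000000000000000000000000000000000010000000000000000000000010 := rS 0x113ef8112626f506059aed5ce91462354686cb05b7fa15e70143bdfd8a145a44e4690ea5764192e97c00094eb1cfa79319d7252912844871d2591d5621 (k8 c5528 c5413 c5562 c5342 c5341 c5561 c5558 c5559 (k8 c14571 c5209 c5440 c5355 c5441 c5442 c5357 c9066 (k8 c9669 c14513 c10372 c9745 c9699 c5210 c5488 c5486 (k8 c9742 c11969 c9824 c855 c1196 c14576 c5498 c5499 (k8 c5502 c5540 c5541 c5544 c14580 c5644 c1943 c2169 (k8 c280 c1945 c285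 c11603 c14520 c13349 c14581 c14582 (k4 c2366 c2598 c294 c3593 (k2 c8823 c1986 (k1 c5673 k0))))))))) (by decide +kernel)
def c14584 : PP 9 3 T 0x20000020000000000000000000000000000000000100001000000000000000000001000000005000000150000000000000000000000000 := rS 0x1066b (k2 c5523 c5525 (k1 c8112 k0)) (by decide +kernel)
def c14585 : PP 9 3 T 0x80000000000000000000000000000000000000000000000000000000000000000050000000100000014150080000040000000000010000 := rS 0x44a2ce6b1 (k4 c5421 c5419 c685 c1898 (k1 c3602 k0)) (by decide +kernel)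
def c14586 : PP 9 3 T 0x29000000000000000000000000040004000100000000000000000000000000000000000000000000000002000000000010000000002012 := rS 0x3becd0bf803a950ca755699 (k8 c5530 c5413 c9066 c9699 c5488 c5486 c9230 c1460 (k2 c5537 c6325 (k1 c11149 k0))) (by decide +kernel)
def c14587 : PP 9 3 T 0x8000000000000000000000000000000000000000000000000000040014400000004001102080200044000000000000000000000000000 := rS 0x335c4d64bbf52aa9 (k8 c5489 c5488 c5405 c5404 c857 c908 c2192 c10217 k0) (by decide +kernel)
def c14588 : PP 9 3 T 0x21000101000000000000000200040004000000000000000000000000000000000000000000100000000010000000000000000000000010 := rS 0x19be0ef2482ea040985be3b48032260b451106a1b2c16d1ef1568752a0f14864ba5f04a74fa7f31e4a524337894e21136a65967368b3fe70258c5556afcea150fecdb00222a97eec8ce69 (k8 c9742 c9680 c5210 c5405 c5489 c9727 c14513 c14583 (k8 c14560 c5499 c5541 c14584 c5406 c5413 c5414 c5421 (k8 c10275 c5550 c5543 c5501 c5419 c5420 c5530 c5529 (k8 c5558 c667 c5559 c1060 c5561 c14571 c5209 c5355 (k8 c5358 c5442 c9066 c9669 c10372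 c9745 c9699 c9693 (k8 c9739 c5488 c5486 c5490 c9695 c2406 c14585 c5644 (k8 c1943 c280 c14226 c14205 c10377 c858 c5645 c5675 (k8 c289 c2948 c14586 c14587 c9215 c13196 c5648 c11149 (k2 c9007 c5495 (k1 c6325 k0)))))))))) (by decide +kernel)
def c14589 : PP 9 3 T 0x21000101000000000000000200040004000000000000000000000000000000000000000000000000000010000000000000000000000010 := rS 0x3f6f8e5c2e349780923b1bc4cc00c2d165228ccea150fec13ed8daab789a4cead57a5dfa9554eca225d2f824f3929490c7a418e92c8e6f129c42200 (k8 c14513 c5558 c667 c5559 c1060 c5562 c5342 c5341 (k8 c5340 c5560 c5561 c14571 c5209 c5441 c9669 c10372 (k8 c9745 c9727 c5210 c5489 c5488 c5405 c5404 c5406 (k8 c5490 c9680 c9742 c9695 c5413 c5529 c14583 c5570 (k8 c14560 c5499 c5541 c14584 c14588 c10035 c2169 c5644 (k8 c10258 c14522 c2598 c2363 c289 c294 c9230 c662 (k4 c13204 c5460 c5534 c5538 (k2 c326 c3590 k0)))))))) (by decide +kernel)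
def c14590 : PP 9 3 T 0x100080000000000000000000000000000000000000000000140000000001000000000000000080002000005400500000200010012 := rS 0x718fc6e9e4905d4263 (k8 c5355 c1196 c1460 c662 c930 c2419 c327 c1608 (k1 c12667 k0)) (by decide +kernel)
def c14591 : PP 9 3 T 0x1000000000000041000101000000000000000200040004000000000000000000000000000000000000000000100000000010080000000000000000000010 := rS 0x8064314c2b5101243ef244bdde26756a5dfa9554ec852233b90c964743e7076e11cb7fc1b55098f252922a2ce425089a4ba00 (k8 c14513 c9745 c9742 c5558 c5559 c11969 c855 c14205 (k8 c14571 c5209 c5355 c1196 c14589 c5225 c5538 c5534 (k8 c5460 c5456 c5211 c5373 c5562 c5342 c5561 c5356 (k8 c9731 c9693 c5210 c5489 c5488 c5405 c5404 c5490 (k8 c9680 c9695 c2101 c1898 c14529 c2532 c450 c5650 (k4 c11945 c14590 c10463 c14285 (k2 c14515 c14514 k0))))))) (by decide +kernel)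
def c14592 : PP 9 3 T 0x1000000000000041000101000000000000000200040004000000000000000000000000000000000000000000100000000010000000000000000000000010 := rS 0x1b1322130859ec311abccb05b6bb548a677e8752aa9d9444325d2f8253ac73e9e4ea0d359ef389bf06d51669509c84a110018f2529 (k8 c14571 c5209 c5355 c14513 c5558 c5559 c11969 c1196 (k8 c9742 c855 c14589 c5225 c5536 c5211 c5372 c9672 (k8 c9673 c5440 c5441 c5442 c5357 c9066 c9669 c10372 (k8 c9745 c9699 c9727 c5210 c5489 c5488 c5486 c5405 (k8 c9680 c14205 c14520 c13349 c14591 c5644 c282 c280 (k8 c1945 c14529 c14581 c14575 c342 c1464 c3598 c666 k0)))))) (by decide +kernel)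
def c14593 : PP 9 3 T 0x1000000000000041000101000000000000000200040004000000000000000000000000000000000000000000000000000010000000000000000000000010 := rS 0x9e7178c7e3765a4862c8629856a202487de4337b969a7012ca314272789a4ce977ea5553b214864465d0018cef92128447a418e92c8e87ce0edc2396ff836b29 (k8 c14571 c14589 c5225 c5538 c5534 c5460 c5456 c5211 (k8 c5373 c5562 c5342 c5341 c5340 c5560 c5558 c5559 (k8 c5209 c5356 c5355 c14513 c9745 c9731 c9699 c9693 (k8 c5210 c5489 c5488 c5405 c5404 c9680 c9742 c9695 (k8 c11969 c1196 c14592 c2169 c2141 c2083 c5644 c2101 (k8 c2041 c14529 c2532 c451 c5650 c11945 c14590 c10463 (k8 c14285 c1915 c10198 c1325 c2535 c327 c11685 c3590 (k2 c5680 c1608 k0)))))))) (by decide +kernel)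
def c14594 : PP 9 3 T 0x1000000000000090000001000000000000000200040004000000000000000000000000000000000000000000100000000010000000000000000000000010 := rS 0x2261e7f3d888f30d960b6f13499d5aaf7e87553b2888a4465d219bc4a71001ad220d0883d1f9c5989ce6b5 (k8 c5422 c5419 c5570 c5574 c5211 c5526 c9739 c5558 (k8 c9673 c13457 c9672 c14513 c667 c5559 c1060 c5561 (k8 c9745 c9731 c9693 c9727 c5210 c5489 c5486 c5405 (k8 c5406 c5490 c9680 c9742 c9695 c14585 c5644 c1943 (k4 c282 c14226 c14529 c504 (k2 c8123 c2571 (k1 c13749 k0))))))) (by decide +kernel)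
def c14595 : PP 9 3 T 0x1000000000000001000101000000000000000200040004000000000000000000000000000000000000000000000000000010000000000000000000000010 := rS 0xef8d59cc57f357e6e21f8dc62498187c0c9279181ee5a80967de8c13ed9e26933ab55e977ea5553b22e97cef92218f4831d2591cde25388440087ce0edc2396ff836b29 (k8 c14571 c14589 c5225 c5538 c5534 c5460 c5456 c5211 (k8 c5373 c14513 c5558 c667 c5559 c1060 c5562 c5342 (k8 c5341 c5340 c5560 c5561 c5209 c5356 c10372 c9745 (k8 c5210 c5489 c5488 c5405 c5404 c5406 c5490 c9680 (k8 c9742 c9695 c14593 c5570 c14594 c5505 c2169 c2141 (k8 c5644 c2101 c14522 c14529 c662 c661 c2532 c2627 (k8 c451 c1565 c1568 c326 c3590 c5549 c1663 c5694 (k4 c948 c2574 c1617 c5453 (k1 c9931 k0))))))))) (by decide +kernel)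
def c14596 : PP 9 3 T 0x1000101080000000000000000000004000000100100014044000140000020000000000000000000082000000004440500000000010012 := rS 0x164b64430c0c92b28aa2de2694b9756a717a88153b2 (k8 c5210 c5489 c666 c2420 c667 c2611 c9745 c5404 (k8 c9742 c9695 c855 c1290 c934 c345 c2460 c14590 (k4 c3593 c10463 c285 c5644 k0))) (by decide +kernel)
def c14597 : PP 9 3 T 0x400000000080000000000000000000000000000000000100000000000010000140004020000050000000000000414150080005451501000000010000 := rS 0x38c7e376a34c688c (k8 c14585 c9931 c2083 c948 c1622 c442 c1662 c3590 k0) (by decide +kernel)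
def c14598 : PP 9 3 T 0x1000101000000000000000200040004000000000000000000000000000000000000000000000000000010000000000000000000000010 := rS 0x8150985ae8a0b0c888354686cb05b2489f6c737a88189df360c5fecf42bce02ab7bfb1becd1cb85a23b43a0fc19c35ed4e26f2392e3a411e90c2225789a4cead57bf43a9554eca22290c974be00049f4f27f319df2529 (k8 c14571 c5209 c5356 c5355 c5358 c5441 c5442 c9669 (k8 c14513 c10372 c9745 c9699 c9693 c9727 c5210 c5489 (k8 c5488 c5486 c5405 c5406 c5490 c9680 c9742 c9695 (k8 c5559 c5558 c5561 c5560 c5340 c5341 c5342 c5562 (k8 c1060 c667 c14589 c9672 c5211 c5225 c8722 c5373 (k8 c5456 c5459 c5460 c5534 c5537 c5538 c14595 c5498 (k8 c5500 c5502 c5540 c5541 c5543 c5544 c14249 c3601 (k8 c10651 c13267 c666 c2420 c14596 c11969 c5570 c344 (k8 c14597 c5644 c1943 c2169 c280 c14226 c5653 c11149 (k4 c14205 c2185 c1460 c1068 (k2 c857 c9934 k0))))))))))) (by decide +kernel)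
def c14599 : PP 9 3 T 0x1000000000000010000100080000000000000100040004000100000000001000000000000000000051000050140000000050080000100000000000000002 := rS 0x31592611aa4c7de371fc8924b23bc822337b964d2030c98cee71139cd63b606a1d1f9c (k8 c5211 c5526 c5373 c9673 c5212 c5421 c5419 c5570 (k8 c5571 c5356 c5355 c9699 c28 c9742 c32 c2101 (k8 c2041 c14568 c14529 c13598 c12638 c450 c5660 c5549 (k8 c8118 c13127 c326 c441 c662 c10198 c682 c14285 k0)))) (by decide +kernel)
def c14600 : PP 9 3 T 0x1002000000000000000101080000000000000100040004000100000000000000000000000000000000000000000000000010000000000000000000000010 := rS 0x80c54864908aac3c217b3cc36582d99d5aaf4bbf43a9554ec8465d38acce6b15aed91b0322a2dffee069af6a00 (k8 c14513 c14567 c9672 c9673 c5219 c5586 c5583 c5582 (k8 c5508 c5505 c5212 c5422 c5421 c5419 c5574 c5571 (k8 c9745 c9731 c5210 c5489 c5488 c5486 c5405 c5404 (k8 c5406 c5490 c9680 c14599 c5644 c1943 c282 c14529 (k8 c342 c8123 c7110 c13353 c10680 c1950 c1087 c6743 (k1 c3623 k0)))))) (by decide +kernel)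
def c14601 : PP 9 3 T 0x1000101000000000000000000040004000000000000000000000000000000000000000000000000000010000000000000000000000010 := rS 0x68580b9bc204a24f7e288580fb10fe0ce1ac1a8b81a35627313b2ce3b5f76dab27904e4a526933ab55e1d4aaa76511018644600 (k8 c14513 c9731 c9699 c28 c9727 c5210 c5489 c5488 (k8 c5486 c5406 c5490 c9680 c9742 c14571 c5209 c9669 (k8 c5441 c14598 c5212 c5219 c14567 c5571 c5420 c5570 (k8 c5419 c5421 c5505 c5508 c5583 c9673 c9672 c5211 (k8 c5225 c5373 c14600 c5502 c5541 c6986 c10651 c13085 (k4 c6578 c12638 c2746 c13187 (k2 c14568 c11149 (k1 c280 k0)))))))) (by decide +kernel)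
def c14602 : PP 9 3 T 0x41000000000000000000000000000000000000000000000000000000000044000000000000000000204000000000000000000000000000000000000000000 := rS 0x203ef (k2 c5506 c2143 (k1 c5694 k0)) (by decide +kernel)
def c14603 : PP 9 3 T 0x1000000000000020000201000000000000000000040004000000000000000000000000000000000000000000000000010010000000000000000000000000 := rS 0x407de8a58bffe7035a210d69143e70d26756abdfaa9d9444e68d899bd128f55c54dab3 (k8 c5532 c5529 c5414 c5413 c5568 c5567 c5565 c5382 (k8 c5381 c5379 c9727 c5210 c5489 c5405 c5406 c5490 (k8 c9680 c9742 c5218 c5373 c5374 c5523 c14584 c3604 (k8 c2629 c5548 c2572 c14602 c3602 c5583 c3068 c5694 k0)))) (by decide +kernel)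
def c14604 : PP 9 3 T 0x8000001040000000000000200000000000200000000000000000140054010000204001100100000100000000001000400000000000000 := rS 0x3be7764357c6e24bbf52aa91e90496471c8fc6fef (k8 c5506 c5435 c5318 c5317 c5562 c5342 c5340 c5560 (k8 c5489 c5488 c5405 c5404 c5985 c11685 c1662 c10055 (k2 c10131 c5494 (k1 c5668 k0)))) (by decide +kernel)
def c14605 : PP 9 3 T 0x211000000000000000200000004000200000100000000000000014000000004001100005000001018080000000000000000000002 := rS 0xf3e16f385a63b24b1d600c3aa2ccead57bf553b24684cde7d44a3ce2111c8c726c5349ed9673 (k8 c5379 c1322 c888 c9742 c837 c12891 c5434 c5317 (k8 c5558 c667 c5568 c5567 c5566 c5565 c5564 c5381 (k8 c5210 c5489 c5405 c5406 c5490 c9680 c685 c1894 (k8 c10258 c3602 c2480 c293 c290 c2086 c10249 c14604 (k2 c5538 c2387 (k1 c10247 k0)))))) (by decide +kernel)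
def c14606 : PP 9 3 T 0x8000001040000000000000200000000000200000000000000000140054010000204001100100000000010000001000400000000000000 := rS 0x325c4744bbf52aa92092c8e3f (k8 c5318 c5562 c5342 c5340 c5489 c5488 c5405 c5404 (k4 c14604 c6010 c1965 c10055 k0)) (by decide +kernel)
def c14607 : PP 9 3 T 0x2000000000000000000001040000000000000000000000000200000000000000000000000010000000000000000004400000040000000010000000002000 := rS 0xe8ccef8ed8ef57bb45e6cf198e46237 (k8 c5435 c5434 c5317 c5316 c5543 c5540 c5501 c5498 (k4 c2366 c2480 c290 c9979 (k2 c3587 c5668 (k1 c1968 k0)))) (by decide +kernel)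
def c14608 : PP 9 3 T 0x8000011040000000000000000000000000000000100000000000000000010000004001100000801500008000000000000000000000000 := rS 0xf0b358fde (k4 c5668 c2485 c5495 c6325 (k1 c10247 k0)) (by decide +kernel)
def c14609 : PP 9 3 T 0x21000201000000000000000200040004000200000000000000000000000000000000000000000000000010000000000000000000004002 := rS 0x1aee369b55bff363784e8b43ca09220a358346a453b960b6cb3db14c461c98dc62071f8ccba5f39c4c266f3ea251e431e9063a9d55c54da9959b45e6cfcea150fec3884622a97eec8ce69 (k8 c9742 c9680 c5210 c5405 c5489 c9727 c5558 c667 (k8 c14603 c5499 c5541 c14584 c5543 c5540 c5501 c5532 (k8 c5530 c5529 c5414 c5413 c5412 c5341 c5340 c5560 (k8 c5561 c5568 c5567 c5566 c5565 c5564 c5382 c5379 (k8 c10372 c9745 c5316 c5318 c5432 c5434 c5435 c12891 (k8 c661 c5663 c837 c888 c1322 c14605 c5644 c2051 (k8 c284 c281 c14607 c1059 c5645 c13457 c8112 c2307 (k8 c3604 c14608 c14104 c10247 c5548 c2515 c1532 c1969 (k2 c2619 c10298 (k1 c3588 k0)))))))))) (by decide +kernel)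
def c14610 : PP 9 3 T 0x69000000000000000000000200040004000100000000000000000000000000000200000000000000000002000001000000000000002012 := rS 0x287c6d76f8e5c234497807a412591d32373ce487609 (k8 c9669 c289 c5209 c5441 c2363 c5530 c5562 c5342 (k8 c5340 c5560 c9230 c662 c14586 c5460 c5534 c5538 (k4 c1763 c11685 c1198 c11702 k0))) (by decide +kernel)
def c14611 : PP 9 3 T 0x29000000000000000000000200040004000100000000000001000000000000000000000000115110044050080000000000000000040012 := rS 0x1a4cb1a24863df64314c249580336e33459a55aaf4bbf52aa988864864138845566d3f98cef92 (k8 c5209 c5356 c5355 c5358 c5529 c5413 c5558 c667 (k8 c5340 c5561 c9699 c9727 c5489 c5488 c5405 c5404 (k8 c5406 c5490 c9742 c685 c2041 c14585 c10258 c3602 (k8 c293 c14610 c10463 c14285 c5494 c1915 c10198 c5653 (k2 c1753 c12671 (k1 c2086 k0)))))) (by decide +kernel)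
def c14612 : PP 9 3 T 0x29000000000000000000000200040004000100000400000000000000010000000000000000400100044002000000100011000000000012 := rS 0x6b8fdc6dff98e969e169b35aa9135f78660d65a482e1d4a83e2219218f4831d388453aab8a9b532b3 (k8 c5532 c5530 c5529 c5414 c5413 c5412 c5558 c667 (k8 c5341 c5340 c5560 c5561 c9699 c9727 c9739 c5488 (k8 c5486 c1460 c662 c1755 c14586 c5284 c11149 c1059 (k8 c13457 c5454 c5495 c5496 c6325 c3604 c9007 c5548 (k4 c2515 c8999 c495 c10298 (k1 c3588 k0)))))) (by decide +kernel)
def c14613 : PP 9 3 T 0x61000210000000000000000200040000000100000000000000000000000000000000000000000000000001000000000000000000001012 := rS 0xf4075a2492217051ac1f110c97ce71337a3ce2114ec54dab3639e4c792 (k8 c5209 c5355 c5441 c5357 c5532 c5529 c5414 c5412 (k8 c5558 c667 c5568 c5565 c5382 c5379 c10372 c9699 (k8 c9727 c9739 c1059 c5645 c14582 c13457 c5648 c3604 (k2 c1563 c12873 (k1 c690 k0))))) (by decide +kernel)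
def c14614 : PP 9 3 T 0x4000100100000080000000080000000000000000000000000000000000000000011000000000000 := rS 0xef8cd98d6 (k4 c2517 c2516 c2185 c5495 (k1 c5653 k0)) (by decide +kernel)
def c14615 : PP 9 3 T 0x800000000000000000080000000000000000000000000000000000000000000000000000000000000050000000000151000000000000000000000000 := rS 0x64b14c677 (k4 c5356 c5355 c5451 c5494 (k1 c14285 k0)) (by decide +kernel)
def c14616 : PP 9 3 T 0x21000001000000000000000200040004000000000000000000000000000000000000000000000000000010000000000000000000000010 := rS 0x2699438f1f853ec90b77dbe1e810ec92377a830c3b71a914621b2c16cea633f9e4139294e75fecf42bce02d143bdfd82155bc4d2674bbf43a9554ec81f1114864465d2f9cd028d8984cde7d44a3f4025218f63a4b239c42200 (k8 c14513 c5558 c667 c5562 c5342 c5341 c5560 c5561 (k8 c5559 c14601 c5568 c5567 c5566 c5565 c5564 c5382 (k8 c5381 c5380 c5379 c10372 c9745 c9731 c9699 c9693 (k8 c9727 c9739 c5210 c5489 c5488 c5486 c5405 c5404 (k8 c9680 c9742 c9695 c5413 c5528 c14603 c5498 c5499 (k8 c5501 c5502 c5540 c5541 c5543 c5544 c14584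 c14609 (k8 c5209 c9669 c5441 c5358 c5355 c5440 c14611 c5644 (k8 c1943 c1945 c284 c280 c14226 c14612 c14613 c2366 (k8 c2363 c293 c289 c3593 c3581 c14614 c14615 c11149 (k8 c1064 c1465 c14406 c12178 c5654 c9210 c2472 c1327 k0)))))))))) (by decide +kernel)
def c14617 : PP 9 3 T 0x1000000000000011000000000000000000000000040004000200000400001000000000000000000051000010510000044058080004411000000000054002 := rS 0xef3213ecff1b79c2d171f8530c636028923b8aa6c40cd8187da6f2583dd1669119c5220d43e70723f1ba7622cb (k8 c1322 c9727 c1274 c5435 c5318 c5317 c5211 c5373 (k8 c9673 c13457 c667 c9731 c9742 c685 c2101 c3602 (k8 c14529 c2086 c2532 c2627 c2500 c5650 c7393 c1295 (k8 c341 c345 c12614 c2416 c779 c780 c5535 c2619 (k8 c1595 c1598 c3590 c5580 c2565 c2885 c9422 c5688 (k1 c5494 k0)))))) (by decide +kernel)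
def c14618 : PP 9 3 T 0x1000000000000011000001000000000000000000040004000200100400000000000000000000000000000000510000044018000004411000001000054002 := rS 0x407de8a58bffe6b48aacd566d8187842f67986cb05b3499d5aaf7e8752aa9d9444465d389ad220d (k8 c9673 c13457 c9672 c667 c9745 c9731 c9727 c5210 (k8 c5489 c5488 c5486 c5405 c5406 c5490 c9680 c9742 (k8 c14617 c5644 c1943 c282 c14529 c342 c8123 c2195 (k8 c666 c7110 c2321 c1086 c3604 c5548 c2572 c14602 (k4 c3602 c5583 c3068 c9179 k0))))) (by decide +kernel)
def c14619 : PP 9 3 T 0x11000201000000000000000200040004000200000000000000000000000000000000000000000000000010000000000000000000004002 := rS 0xb28ac0be6b0dba2cb4591a3d56a20363fd9e8579c05a2ab7bfb18a6230e4c62073499d5aaf7e974be7346c4c266f44a3c4a431e9063a4b239c5220d08a0cd6a9d94450f9c (k8 c5211 c5373 c9727 c5210 c5489 c9672 c8722 c5558 (k8 c9673 c13457 c667 c5562 c5342 c5341 c5340 c5560 (k8 c5561 c5559 c5568 c5567 c5565 c5564 c5382 c5381 (k8 c5379 c10372 c9745 c5405 c5406 c5490 c9680 c9742 (k8 c5432 c5434 c12891 c661 c5663 c837 c14618 c5498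 (k8 c5500 c5501 c5502 c5540 c5541 c5543 c5544 c3601 (k8 c666 c2611 c2420 c14101 c281 c5644 c685 c14585 (k4 c3602 c12913 c3613 c1294 (k2 c5685 c2460 k0))))))))) (by decide +kernel)
def c14620 : PP 9 3 T 0x41000000000000050000200000000000000000000040004000000000000001000000000000000000451000000000000000050080004000000000000010002 := rS 0x1155ac0c3ef2583dd1669149cd1a6f449c50f9c (k8 c5211 c5373 c667 c5567 c5565 c5381 c5379 c9693 (k8 c9742 c685 c2101 c3602 c14529 c2532 c2627 c11945 (k2 c1295 c5685 k0))) (by decide +kernel)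
def c14621 : PP 9 3 T 0x1000000000000001000001000000000000000200040004000000000000000000000000000000000000000000000000000012000000000000000000000010 := rS 0x35e00ff81fbda6d567b15edde798d4b05b598c466cb032482e6756abdfa1d4aaa764192ec74967f3ab47e6e270e49220d08b7fc1290003d028f3ec4cf79cdbed51ba0 (k8 c14601 c5381 c14616 c14594 c5211 c5372 c5382 c5566 (k8 c5568 c5380 c9739 c14513 c14619 c5225 c5538 c5558 (k8 c9673 c13457 c5209 c5460 c5972 c11668 c5459 c5440 (k8 c5358 c5342 c5341 c9745 c9699 c5210 c5489 c5488 (k8 c5486 c5405 c5406 c5490 c9680 c1460 c662 c661 (k8 c1755 c5284 c1565 c2459 c14620 c5644 c1618 c282 (k8 c5653 c14529 c5451 c5453 c5454 c5496 c5725 c2195 (k4 c2574 c5694 c2145 c11742 k0)))))))) (by decide +kernel)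
def c14622 : PP 9 3 T 0x1000000000000051000200000000000000000000040004000100000000001001000800000000000051000050000000000051080004010000000000010002 := rS 0x926532164c5199a432633bfcfc192 (k8 c5209 c5225 c11668 c5356 c5355 c9699 c9742 c2041 (k4 c10463 c14620 c14285 c2459 (k2 c10198 c1753 k0))) (by decide +kernel)
def c14623 : PP 9 3 T 0x1000000000000001000001000000000000000200040004000000000000000000000000000000000000000000000000000010000000000000000000000010 := rS 0x368842cf61abccb05bef9876ef13499d5aaf4bbf43a9554eca22192e97d1a41259acf20931b89c3924883422dff04a4000f40a3cfb13d01ef39b5 (k8 c14616 c5211 c5372 c14601 c5382 c5566 c5568 c5380 (k8 c9739 c14513 c14619 c5225 c5538 c5558 c9673 c13457 (k8 c5209 c5460 c5972 c5355 c9669 c5524 c9672 c5342 (k8 c5340 c5381 c10372 c9745 c9699 c9727 c5210 c5489 (k8 c5488 c5486 c5405 c5404 c5406 c5490 c9680 c9742 (k8 c9695 c14594 c14621 c14615 c14622 c5644 c282 c280 (k4 c14529 c11149 c342 c666 (k1 c10515 k0)))))))) (by decide +kernel)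
def c14624 : PP 9 3 T 0x1000001000000000000000200040004000000000000000000000000000000000000000000000000000010000000000000000000000010 := rS 0x81a2da4d76ab13bfef7fb3d0b01f638bc6df66b84ffe0c94a4f2873da0d239c358376a1154ec81f11002051b133ea251fa0 (k8 c14601 c5568 c5567 c5566 c5382 c5381 c5380 c14513 (k8 c9727 c9739 c5210 c5489 c5558 c14616 c9673 c9672 (k8 c5211 c13457 c8722 c5372 c5373 c5524 c14619 c5209 (k8 c5225 c5358 c5460 c5537 c5538 c11976 c5972 c14623 (k8 c5502 c5541 c5543 c5544 c8783 c10651 c13267 c1662 (k4 c1765 c5689 c2938 c2087 (k1 c3613 k0))))))) (by decide +kernel)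
def c14625 : PP 9 3 T 0x29000020080000000000000000000000000000000100000000000000000000000000000000000000000151000000000000000000000000 := rS 0x7792e95 (k4 c5488 c5404 c14517 c14615 k0) (by decide +kernel)
def c14626 : PP 9 3 T 0x1000000000000000000001040000000000000000000000000000000000000000000000000000000000000000002000000000080000000801000000000000 := rS 0x1df680d1e475 (k4 c1894 c684 c448 c449 (k2 c5450 c10484 k0)) (by decide +kernel)
def c14627 : PP 9 3 T 0x1000000000000021000001000000000000000000040004000200000000000000000000000000000000000000000000000010000000000000000000000010 := rS 0x1aa353b914b05b1d35dbed3209f93ccb6298b26e3f912e3a492191d42260809509b735a450e70ce1a4cead7e8752aa9d903e22292e97ce7a0acc54426d598cc7e311e9840e00 (k8 c14513 c5432 c661 c5436 c5434 c5318 c5316 c5532 (k8 c5529 c5528 c5414 c14624 c14601 c5379 c10372 c9745 (k8 c9693 c9727 c9739 c5210 c5489 c5488 c5486 c5405 (k8 c5490 c9680 c9742 c5218 c14603 c5373 c5374 c5523 (k8 c8114 c14584 c2755 c667 c668 c2930 c12800 c5252 (k8 c3026 c351 c353 c5660 c5549 c14625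 c5663 c837 (k8 c1322 c782 c781 c350 c14519 c14125 c1605 c14209 (k4 c14626 c5644 c2967 c2051 (k2 c281 c2999 (k1 c3588 k0)))))))))) (by decide +kernel)
def c14628 : PP 9 3 T 0x80000000000000100000004000200000000000000000000000200000050000000110110044050080000000000000000050002 := rS 0xa16b098884312edfdeb045900e2691495c7e071e824ff1d (k8 c2159 c5358 c5438 c5436 c5432 c5318 c9758 c9693 (k8 c9742 c667 c12613 c685 c3602 c5506 c5421 c1093 (k4 c1932 c5658 c5651 c459 (k2 c2927 c2190 k0)))) (by decide +kernel)
def c14629 : PP 9 3 T 0x2000400000000028000000000000000000000100040004000000100000000000000000000200000000000000000000020001000001405541000000000012 := rS 0x1bcd3227bd60e370fc9ae4b4890d422612edd5a2910ace02ff (k8 c5544 c5502 c5532 c5528 c9693 c5490 c5571 c2755 (k8 c668 c2930 c5252 c10074 c353 c2190 c11694 c6188 (k4 c5549 c14538 c5506 c5658 (k2 c2936 c10448 (k1 c12713 k0))))) (by decide +kernel)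
def c14630 : PP 9 3 T 0x200000000000000000000000000000000000000000000000000000000000050000000000000010150080000000000002000000000 := rS 0x45115627337a263a8d (k8 c5381 c2159 c5567 c5565 c5379 c1093 c2968 c3602 (k1 c686 k0)) (by decide +kernel)
def c14631 : PP 9 3 T 0x2000000000000029000200080000000000000100040004000200000000000001000000000000000000000000000000000050080000000000000000000012 := rS 0x1aad75078d629fdb095962738840764923b2018c58eab55efd54c44525f39a051a13379f5128f559b4723f0b8c46e3d43a14127f319dfbe6103a552e69 (k8 c9742 c5404 c5488 c5432 c661 c14615 c5356 c5355 (k8 c5358 c5438 c5541 c5499 c5436 c5435 c5434 c5433 (k8 c5318 c5317 c5529 c5413 c5568 c5567 c5566 c5565 (k8 c5564 c5381 c5380 c5379 c10372 c9693 c9727 c5489 (k8 c5405 c5406 c5490 c2159 c10463 c10258 c14285 c2367 (k8 c293 c289 c14628 c14629 c2858 c9148 c14630 c5651 (k4 c5572 c5421 c12178 c3599 (k2 c2189 c3000 (k1 c11663 k0))))))))) (by decide +kernel)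
def c14632 : PP 9 3 T 0x20000210080000000000000100040000000000000000000000000000000000000000000000000000000000400000005000000000015042 := rS 0x92b44d12f6e91051ae2229119cd0313099bd1e9d8a9b532b3639e4c671 (k8 c667 c5355 c5441 c5357 c5532 c5530 c5529 c5414 (k8 c5412 c5568 c5565 c5564 c5382 c5380 c5379 c9731 (k8 c9693 c9727 c1059 c5645 c13457 c13386 c2588 c10374 (k2 c8385 c12351 (k1 c9106 k0))))) (by decide +kernel)
def c14633 : PP 9 3 T 0x2004400000000000000000000000000000000100040004000000000000000010000000102000000000000000000000000000000005540004000000000000 := rS 0xd78e40fdef3 (k4 c5540 c8823 c7820 c5658 (k2 c2191 c5778 k0)) (by decide +kernel)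
def c14634 : PP 9 3 T 0x2000400000000028000210080000000000000100040004000200000000000001000000000000000000000000000000000010440000140010000004014002 := rS 0x142cb6b891be4a66078764923bd418d54f903c6717e87552291195ce681099bcfa8f198e47e17188dc7a6103bdda2f367824fe63 (k8 c5355 c5358 c5438 c5543 c5540 c5501 c5498 c5432 (k8 c661 c5436 c5435 c5434 c5433 c5318 c5317 c5316 (k8 c5568 c5566 c5565 c5564 c5380 c5379 c9758 c9731 (k8 c9693 c5489 c5486 c5405 c667 c12823 c12613 c1602 (k8 c1656 c14632 c2366 c2367 c293 c289 c5816 c3587 (k4 c14633 c4673 c2591 c2192 (k2 c1090 c11663 (k1 c3599 k0)))))))) (by decide +kernel)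
def c14635 : PP 9 3 T 0x2000000000000020000200000000000000000100040004000000000000001000000000000000000051000000000000000050000000140000000000025002 := rS 0x206b15afb8931d48bd0968223828d62989aae2a6d59c05ff9d42a1e2269 (k8 c9742 c9727 c5499 c5541 c14584 c5544 c5502 c5532 (k8 c5529 c5414 c5413 c5382 c9693 c1059 c5645 c12800 (k8 c8112 c2588 c2309 c10333 c2166 c3026 c5658 c9106 (k2 c5506 c5508 (k1 c3623 k0))))) (by decide +kernel)
def c14636 : PP 9 3 T 0x2000000000000000000000000000000000000100000004000000000000000010000000000000000000000000000000020000000001540000000090000012 := rS 0x3df1d258984af3 (k4 c5540 c2755 c668 c2591 (k2 c351 c8823 (k1 c5658 k0))) (by decide +kernel)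
def c14637 : PP 9 3 T 0x2000000000000028000000080000000000000100040000000000000000000010000000002400000000000000000100044001000005001000004000000002 := rS 0x502c1afb75ac0d5aaf7eaa452ab8aace02ff (k8 c5544 c5502 c5532 c5414 c5413 c9693 c5489 c5405 (k8 c5406 c5490 c7820 c9106 c6986 c2191 c3623 c11559 (k1 c1198 k0))) (by decide +kernel)
def c14638 : PP 9 3 T 0x21000001080000000000000000040004000200000000000000000000000000000000000000000000000010000000000000000000000010 := rS 0x6af8d409fdbb5c48b46f929962738b303c3b2491dea0c080d486450d960b7df3f825e2ad57a5c3a95078a4465d2f9cd021337a251fa0ac8cc7217188dc7a6103801eed179b3f3a8543fb222a97eec8ce69 (k8 c9742 c9680 c5210 c5405 c5489 c9727 c14627 c5499 (k8 c5541 c14584 c5543 c5540 c5501 c5498 c14513 c5432 (k8 c661 c5436 c5435 c5434 c5433 c5317 c5316 c14624 (k8 c14601 c5568 c5567 c5565 c5564 c5380 c5379 c10372 (k8 c9745 c9731 c9693 c9739 c5488 c5486 c5404 c5406 (k8 c5490 c9695 c5438 c5358 c14615 c14631 c5644 c1943 (k8 c284 c1949 c280 c14634 c14635 c2366 c2367 c293 (k8 c289 c5816 c3587 c14636 c2858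 c9148 c14637 c4673 (k8 c2590 c2591 c2192 c5422 c2756 c11559 c12178 c3000 (k1 c11663 k0)))))))))) (by decide +kernel)
def c14639 : PP 9 3 T 0x21000200000000000000000100040000000200000000000000000100000400000050000000000000000150080001400400000000010002 := rS 0x7137fe4415092c4db7580951671149cd1a6f44885663f (k8 c5318 c5532 c5528 c5567 c5565 c5381 c5379 c9693 (k8 c667 c685 c14630 c3602 c5421 c5651 c353 c2927 (k4 c350 c5660 c14125 c6010 (k1 c5549 k0)))) (by decide +kernel)
def c14640 : PP 9 3 T 0x21000000000000000000000000000000000200000000000000000100000400000000000000000000020008000001400400000000000002 := rS 0x1c6df2092d3ca1136dc4299598fcc207 (k8 c5432 c661 c5318 c5532 c5530 c5528 c5571 c668 (k4 c2930 c782 c353 c350 (k2 c14125 c1607 (k1 c6010 k0)))) (by decide +kernel)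
def c14641 : PP 9 3 T 0x2000000000000029000200040000000000000100040000000200000000000000000000000000000000000000000000000150080000000000000000000002 := rS 0x25113e68a58ed84a2738841c23b2491d8e0c56abc528d099bcfa8947aacdab31cc05e79d42a1d52fd3dc4596622f9840e73 (k8 c5379 c5432 c661 c10372 c5663 c1322 c9727 c888 (k8 c5405 c5489 c5499 c5541 c14584 c5540 c5502 c5317 (k8 c5532 c5529 c5413 c5568 c5567 c5566 c5565 c5564 (k8 c5381 c9693 c5406 c5490 c10258 c2480 c2367 c293 (k8 c290 c10249 c14639 c14640 c2858 c14630 c5651 c5421 (k4 c3602 c14538 c686 c5660 (k1 c460 k0))))))) (by decide +kernel)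
def c14642 : PP 9 3 T 0x21000001000000000000000000040004000200000000000000000000000000000000000000000000000010000000000000000000000010 := rS 0x26207b890d36ac7568747a1c496913ca088fb708828d60d1a90c8a772c16d967b6298b279d42a1fd8611b81c666933ab55efd54ec81f111488cba5f001ce2613379f5128fd05653aab8a9b532b3 (k8 c5532 c5530 c5529 c5414 c5413 c5412 c14624 c14601 (k8 c5568 c5567 c5566 c5565 c5564 c5382 c5379 c14513 (k8 c10372 c9745 c9731 c9693 c9727 c9739 c5210 c5489 (k8 c5405 c5406 c5490 c9680 c9742 c5316 c5432 c5435 (k8 c661 c14627 c5499 c5541 c14584 c14638 c5663 c837 (k8 c888 c1322 c14641 c5644 c2051 c284 c1949 c281 (k8 c14607 c1059 c5645 c14635 c13386 c12800 c8112 c2307 (k8 c694 c2588 c667 c2309 c14608 c3604 c2166 c1532 (k4 c1969 c9106 c5658 c10432 (k2 c10038 c350 k0)))))))))) (by decide +kernel)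
def c14643 : PP 9 3 T 0x1000000000000021000201000000000000000100040004000100000000000000000000000000000000000000000000000010000000000000000000004002 := rS 0xe3f912fc4472489821b735a44e19c888a4e715109b56792 (k8 c5209 c5532 c5529 c5528 c5414 c5379 c9693 c9727 (k8 c5218 c14603 c5374 c5523 c8114 c667 c668 c3026 (k4 c12800 c5226 c353 c5660 (k2 c5466 c8118 k0)))) (by decide +kernel)
def c14644 : PP 9 3 T 0x1000200000000000000000100040000000100000000001001000000000000000055000050005000001150080000000000000100010002 := rS 0x3258a9330f87e44b136dd603b2491c4a8b060ce22290c9cd1a1337a251e09319df2471 (k8 c667 c5209 c5356 c5355 c9669 c5568 c5567 c5565 (k8 c5564 c5381 c5379 c9699 c9693 c9727 c2041 c10258 (k8 c685 c14630 c2367 c293 c289 c3602 c5421 c5651 (k8 c353 c5660 c11668 c9230 c9007 c10463 c10198 c14285 k0)))) (by decide +kernel)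
def c14645 : PP 9 3 T 0x21000200000000000000000100040004000100000000001000000000000000000001000010005000000050000000100010000010011012 := rS 0x23bef6a923e6f4ef12d688223a442e0a3583c52192f9cd1b1337a3d3b1536acd8e793f98ceb92cec44d271 (k8 c667 c9742 c9727 c14584 c5209 c5440 c5355 c5358 (k8 c5441 c5357 c5532 c5529 c5414 c5412 c5568 c5565 (k8 c5382 c5381 c5379 c10372 c9699 c9693 c9739 c1059 (k8 c5645 c14582 c13457 c12800 c8112 c3604 c2588 c11149 (k4 c2309 c5548 c9106 c5454 (k2 c5725 c2166 (k1 c10234 k0))))))) (by decide +kernel)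
def c14646 : PP 9 3 T 0x8000200080000000000000100040000000000001000014054000000000000000404000800000000000001000005540000000000800002 := rS 0x2650c7196b081ad55aaf7e8755229 (k8 c9693 c5489 c5486 c5405 c5406 c5490 c9106 c7820 (k4 c3623 c1326 c3593 c3987 (k2 c11672 c351 k0))) (by decide +kernel)
def c14647 : PP 9 3 T 0x21000001000000000000000000040004000000000000000000000000000000000000000000000000000010000000000000000000010010 := rS 0xf1093e64a4d0e3c2c94985bbe1e308ec92471bbd418352191436582d9c5e26933ab55e977e8752aa9d9064465d09a251eab8a884dab3049e724f743c05e68567bffd929ace80000f (k8 c9739 c14513 c14601 c14624 c14642 c14643 c5544 c5543 (k8 c5541 c5540 c5502 c5499 c5498 c5209 c5441 c9669 (k8 c5532 c5529 c5528 c5414 c5413 c5568 c5567 c5564 (k8 c9745 c9731 c9699 c5210 c5489 c5488 c5486 c5405 (k8 c5404 c5406 c5490 c9680 c9742 c9695 c667 c14644 (k8 c5644 c1943 c284 c1949 c280 c14645 c2366 c2363 (k8 c2367 c293 c289 c14586 c5816 c14615 c11149 c55 (k8 c1064 c14406 c5654 c2472 c14646 c5546 c2591 c5168 (k1 c12834 k0))))))))) (by decide +kernel)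
def c14648 : PP 9 3 T 0x1000000000001000000000000000000000000040000000100000000000001000000000000000000000050000000000150080000000000000000002002 := rS 0x3258a9330864c6333be487609 (k8 c9669 c289 c5209 c5356 c2041 c5355 c9699 c9230 (k4 c9007 c10463 c10198 c14285 k0)) (by decide +kernel)
def c14649 : PP 9 3 T 0x1000200000000000000000100040000000100000000001005000000000000000055000050005000001150080000000000000100000002 := rS 0x36e25581c516272292be7e02491c1911149cd1a1337a251f92 (k8 c5209 c5568 c5567 c5565 c5564 c5381 c5379 c9693 (k8 c9727 c10258 c2367 c293 c14648 c11668 c5660 c460 (k4 c353 c686 c668 c3602 (k2 c14630 c5421 (k1 c5651 k0))))) (by decide +kernel)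
def c14650 : PP 9 3 T 0x21000001000000000000000000040004000000000000000000000000000000000000000000000000000010000000000000000000000010 := rS 0xdbf8d949f13a84e2160f77c92477a98418352186c8a582d8fc208579a1defec3f82725293688556f13499d5aaf4bbf43a9554ec81e1911974001344a3f4159 (k8 c14624 c14601 c5568 c5567 c5564 c14513 c9745 c9731 (k8 c9699 c9739 c5210 c5489 c5488 c5486 c5405 c5404 (k8 c5406 c5490 c9680 c9742 c9695 c5413 c5528 c5529 (k8 c14642 c5209 c9669 c5358 c14643 c5498 c5499 c5540 (k8 c5541 c14647 c2907 c14649 c5644 c2967 c1943 c1949 (k8 c280 c14635 c14586 c2366 c2367 c293 c14615 c5816 (k8 c11149 c14636 c1069 c2858 c1466 c11672 c12178 c5420 (k1 c5226 k0)))))))) (by decide +kernel)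
def c14651 : PP 9 3 T 0x81000400000000019000220080000000000000000000000000000000000000000000000011000000000000000000000000010000000000000000000000000 := rS 0xce6f785c681899f58e7f (k8 c5358 c5357 c5566 c5382 c5380 c5549 c11668 c14109 (k2 c5688 c11625 k0)) (by decide +kernel)
def c14652 : PP 9 3 T 0x1000000000000019000200080000000000000100040004000200000000000000000000000000000000000000000000000050080000000000000000004002 := rS 0x7f91bddf325b44143b24a753620083343ec879315eead57bf552232b97ce68146c4c266f3ea241a8748e707209319dfbe6103a552e69 (k8 c9742 c5404 c5488 c5432 c661 c14615 c5356 c5355 (k8 c5438 c5317 c5211 c5374 c5373 c9673 c5567 c5566 (k8 c5565 c5564 c5382 c5381 c5380 c5379 c10372 c9758 (k8 c9731 c5489 c5405 c5406 c5490 c2101 c681 c14529 (k8 c14285 c2532 c2500 c14628 c5650 c7393 c1276 c3026 (k8 c341 c9123 c2134 c2588 c14651 c5171 c5660 c5586 (k1 c2536 k0))))))) (by decide +kernel)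
def c14653 : PP 9 3 T 0x1000000000000011000201080000000000000100040004000200000000000000000000000000000000000000000000000010000000000000000000004002 := rS 0x62b25e6582d9a4ce974aec8ba0d3081cc677 (k8 c5356 c5355 c5432 c661 c9673 c9745 c5210 c5488 (k8 c5404 c9680 c9742 c14652 c5644 c282 c14548 c14532 (k1 c14285 k0))) (by decide +kernel)
def c14654 : PP 9 3 T 0x11000201080000000000000100040004000200000000000000000000000000000000000000000000000010000000000000000000004002 := rS 0x1248e275992f6c20057ccd8ff67a1602d155fb0d2677ea051b1344a0cd6a9d94450f9c (k8 c5211 c5373 c9727 c5210 c5489 c9672 c8722 c5567 (k8 c5382 c5381 c5380 c5405 c9680 c9742 c14653 c5500 (k8 c5501 c5502 c5541 c5543 c5544 c3601 c12426 c665 (k8 c666 c5231 c2588 c5574 c5570 c2422 c344 c5660 k0)))) (by decide +kernel)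
def c14655 : PP 9 3 T 0x1000000000000011000200000000000000000100040004000200000000001000000000000000000051000010000000000058080004400000000000014002 := rS 0x36c2758094808b389a4528d8984cde89478f59673 (k8 c5379 c1322 c5436 c5568 c5567 c5565 c5564 c5382 (k8 c5381 c9693 c9742 c667 c685 c14617 c14630 c3602 (k2 c350 c5651 (k1 c5421 k0)))) (by decide +kernel)
def c14656 : PP 9 3 T 0x500000400000000000400000000020008000005405540000000000002 := rS 0x6f9053c26 (k4 c668 c782 c350 c2885 (k1 c3590 k0)) (by decide +kernel)
def c14657 : PP 9 3 T 0x1000000000000011000201000000000000000100040004000200000000000000000000000000000000000000000000000010080005400000000000004002 := rS 0xef9dc68d52210114df58acf6c25139c420e3f93855aaf4a8a4de891c8fc6e3d629a596738ea34ea314d8ec401f793dd0f9c5499dfbb211a74c5932f9840f11 (k8 c9727 c5432 c661 c10372 c14654 c5663 c1274 c9731 (k8 c5210 c5405 c9680 c5489 c5211 c5373 c2101 c14529 (k8 c2532 c5650 c341 c7393 c5434 c1894 c5381 c2159 (k8 c5379 c1322 c9742 c837 c5436 c5435 c5318 c5317 (k8 c5567 c5565 c9693 c5488 c5406 c5490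 c6188 c5660 (k8 c5549 c14655 c14656 c2858 c14630 c5651 c5574 c5421 (k8 c13097 c3602 c14209 c686 c1657 c458 c791 c5450 (k1 c5668 k0)))))))) (by decide +kernel)
def c14658 : PP 9 3 T 0x10000000000000000000000100040000000000000000040000000000000000000050000000110000044150080008000000000000000000 := rS 0x1627145ed88bf3 (k4 c5546 c461 c5231 c686 (k2 c5571 c5421 (k1 c3602 k0))) (by decide +kernel)
def c14659 : PP 9 3 T 0x1000000000000001000001000000000000000000040004000200000000000000000000000000000000000000000000000010080001000000000000000010 := rS 0x388908c4b1007de4f73499d5aaf7eaa7640f11800e68d37a274087ce6d60759 (k8 c14624 c10772 c14650 c5211 c5373 c14601 c5567 c5565 (k8 c5381 c5379 c14513 c9731 c9739 c5210 c5489 c5405 (k8 c5406 c5490 c9680 c9742 c2101 c14529 c2532 c5650 (k4 c14658 c14657 c2423 c2755 (k1 c14630 k0))))) (by decide +kernel)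
def c14660 : PP 9 3 T 0x1000020000000000000000100040004000200000400000000000000000000000410000000400000445408000005140010000090000002 := rS 0x7b9aad320c74fca1db898e1f25ac4452913081d9715 (k8 c1087 c1322 c5432 c661 c5374 c9693 c9727 c9106 (k8 c12357 c3604 c12200 c5571 c2930 c781 c351 c350 (k4 c14519 c2999 c5658 c10432 k0))) (by decide +kernel)
def c14661 : PP 9 3 T 0x1000000000000000000000000000000000000000000000000000000000040084000000000000000054000001110000044150000008000000000000000002 := rS 0x38a2d6227 (k4 c3699 c12081 c12080 c668 (k1 c3602 k0)) (by decide +kernel)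
def c14662 : PP 9 3 T 0x8000000000000000000000000000000000000000000000000200000000000000000000040000000000000000000000000000000000050010000000000000 := rS 0xd4 (k2 c10432 c5585 k0) (by decide +kernel)
def c14663 : PP 9 3 T 0x1000000000000001000001000000000000000000040004000200000000000000000000000000000000000000000000000010000001000000000000000010 := rS 0x7b9a6418ea844db75912d32ab3687842f61a90c8af33b86cb05b33ab55efd0eaa764232ea36261337a251e0d35a4738331bb14d2cb3164f6a0f2f9840e0039e820759 (k8 c14624 c10772 c14601 c5379 c14513 c5432 c661 c10372 (k8 c9739 c14650 c14654 c5663 c1322 c9742 c837 c5435 (k8 c5316 c5211 c5374 c9672 c9673 c5568 c5567 c5565 (k8 c5564 c5382 c5381 c9745 c9731 c5210 c5489 c5486 (k8 c5405 c5406 c5490 c9680 c14659 c5644 c1943 c2051 (k8 c282 c284 c1949 c281 c14529 c342 c8123 c666 (k8 c7110 c7114 c14661 c14660 c5574 c2322 c2934 c351 (k4 c350 c14519 c5658 c14662 k0)))))))) (by decide +kernel)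
def c14664 : PP 9 3 T 0x1000000000000001000001000000000000000000040004000200000000000000000000000000000000000000000000000010000000000000000000000010 := rS 0x8b589c7ddb65992fe6483499d5aafd908c0073469bd13a0aca4739b5 (k8 c14650 c5211 c5374 c14624 c14601 c5567 c5565 c5381 (k8 c5379 c14513 c9731 c5210 c5406 c5490 c9680 c9742 (k8 c14663 c5588 c192 c2895 c5231 c5171 c11694 c5421 (k2 c5583 c3602 k0)))) (by decide +kernel)
def c14665 : PP 9 3 T 0x2000000000000008000000000000000000000100040000000200000400000000000400000400000000000201514400000000080005000400010600000000 := rS 0x8824456ddc31581abc7b0142bfdeaa9 (k8 c5489 c2420 c5544 c5541 c5502 c5436 c5406 c7820 (k4 c6578 c6188 c6986 c3613 (k2 c14134 c686 (k1 c2968 k0)))) (by decide +kernel)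
def c14666 : PP 9 3 T 0x1000001000000000000000000040004000200000000000000000000000000000000000000000000000010000000000000000000000010 := rS 0x1c76c4308acfe6482d16468e31dbd4969863080146c67a15e70168aadefec65a758a62c998462073499d5aaf7e83c52232e97c007346c4cde8947e82b28335aa7651143a4739b5 (k8 c14650 c5211 c5374 c5373 c9727 c5210 c5489 c9672 (k8 c8722 c14624 c14601 c5568 c5567 c5565 c5382 c5381 (k8 c5379 c14513 c10372 c9745 c9731 c9693 c9739 c5405 (k8 c5406 c5490 c9680 c9742 c5432 c5434 c661 c14654 (k8 c5663 c837 c1274 c1322 c14664 c5498 c5500 c5501 (k8 c5502 c5540 c5541 c5543 c3601 c665 c666 c779 (k8 c780 c2588 c2420 c341 c2619 c14101 c281 c5644 (k8 c14665 c5588 c2895 c3026 c3032 c5231 c11694 c14585 k0)))))))) (by decide +kernel)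
def c14667 : PP 9 3 T 0x1000001000000000000000000040004000000000000000000000000000000000000000000000000000010000000000000000000000010 := rS 0x42f7bd9ef452c4e3e3f9edbc192949e50f9c35ed6b28937c4d1a73d01a4cead57aa76511 (k8 c9727 c5210 c5489 c5406 c5490 c9680 c9742 c14601 (k8 c5379 c5381 c5382 c5565 c5567 c14624 c14650 c9672 (k8 c5211 c5373 c5524 c14666 c5209 c5225 c12084 c11668 (k8 c11976 c5571 c5421 c3602 c5583 c5171 c5166 c5541 (k1 c10651 k0))))) (by decide +kernel)
def c14668 : PP 9 3 T 0x1000000000000020000001040000000000000000000000000200000000001000000000000000000000000504002000000000080000000000000401000000 := rS 0x1f1dbc87217188dd3a21 (k8 c5528 c5412 c5435 c5434 c5433 c5317 c684 c14626 (k2 c2532 c3578 k0)) (by decide +kernel)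
def c14669 : PP 9 3 T 0x1000000000000022000001000000000000000000040004000200000000000000000000000000000000000000000000000010500000000000000401000000 := rS 0x3d99e34799dc36582dbd58c84c99e4d60d439ef38f13499dfaa9d944526634d98532331c85d3a6d (k8 c5529 c5412 c5433 c5317 c5316 c5447 c5445 c5397 (k8 c5395 c5444 c9727 c5210 c5489 c5405 c9680 c9742 (k8 c9695 c5218 c5372 c5373 c5522 c5523 c5524 c8483 (k8 c14584 c3598 c2336 c14668 c5644 c1943 c2051 c282 (k4 c14382 c2561 c5657 c502 k0))))) (by decide +kernel)
def c14670 : PP 9 3 T 0x2000001080000000000000000000004000200000000000000000000000000000000000000000000000010100000000000000001000000 := rS 0xd436582db10ee09789a4ce970ea576463649840e31 (k8 c5434 c5432 c5445 c5396 c5395 c5210 c5488 c5486 (k8 c5404 c9680 c9742 c9695 c5438 c5356 c14285 c681 (k4 c5644 c1943 c280 c5974 k0))) (by decide +kernel)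
def c14671 : PP 9 3 T 0x2000400000000002000111000000000000000200000004000200001100000000000000000000000404001000000000001010080000000000000000000002 := rS 0x3c4df70fbcf03b6b9ec92c73b0318a753499c7207188df265d43a17c2d167b2536fd4aa5d53b24c9048e913f9c84bb7148642263 (k8 c5395 c5558 c9699 c9693 c14052 c5559 c11969 c806 (k8 c9824 c5562 c5340 c5447 c5210 c5489 c5404 c5488 (k8 c5405 c5397 c5396 c5543 c5501 c8772 c5541 c5499 (k8 c9745 c14670 c5435 c5434 c5432 c5317 c9680 c9742 (k8 c1894 c681 c10258 c5668 c2480 c294 c889 c2188 (k4 c290 c5669 c14376 c1542 (k2 c2388 c5186 (k1 c11685 k0)))))))) (by decide +kernel)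
def c14672 : PP 9 3 T 0x22000101000000000000000200040004000200000000000000000000000000000000000000000000000010000000000000000000004002 := rS 0x8112626f5061e8168840b1fde08621e5ae34229dd1a1b2c16d1691393c43a93318cc0e31c9c54dab37bc05e6ffefb313be168b3d56c94da552e99cea150fec2f85cba2388aa5fbb2339a44a11219063a4b23edc5219 (k8 c9699 c9693 c14052 c5562 c5342 c5341 c5340 c5561 (k8 c5558 c5559 c9742 c9680 c5210 c5405 c5489 c9727 (k8 c9731 c9745 c5433 c1054 c14669 c5499 c5541 c14584 (k8 c5447 c5404 c5488 c5397 c5396 c5413 c5543 c5501 (k8 c8772 c5412 c8724 c10390 c5544 c5540 c5502 c5498 (k8 c5532 c5529 c5414 c14670 c5434 c5432 c5316 c5395 (k8 c5444 c5486 c9695 c11969 c9824 c855 c14671 c5644 (k8 c1943 c2169 c2051 c285 c5974 c14269 c2386 c281 (k8 c280 c14376 c838 c1744 c5673 c10374 c5669 c5645 (k4 c1948 c956 c294 c3593 (k1 c1986 k0))))))))))) (by decide +kernel)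
def c14673 : PP 9 3 T 0x2000211000000000000000200000004000200000100014000000000014000000004001000005000001010080000000000000000000002 := rS 0x37dc23b69b5cf64963ac0ec0c45b14ea6933ab55e977ea5553b231b253239038c4be17c9974326f129c422734684cfa89 (k8 c5567 c5566 c5564 c5381 c5379 c5558 c667 c5559 (k8 c1060 c9699 c9745 c14670 c5433 c1054 c5434 c5432 (k8 c5317 c5447 c5396 c5395 c5210 c5489 c5488 c5405 (k8 c5404 c5406 c5490 c9680 c9742 c1894 c681 c685 (k8 c10258 c10013 c3602 c2480 c293 c889 c2187 c2085 (k4 c290 c10249 c14418 c14606 k0)))))) (by decide +kernel)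
def c14674 : PP 9 3 T 0x22000001000000000000000200040004000200000000000000000000000000000000000000000000000010000000000000000000004002 := rS 0x387c6ca3fb7fe70271925ea7a05b1c10c43cb5c68453b86cb05b3e84d0273d01c4de4725c74824308895e21d49a7d4263308cc0e31c99b5ef0179bfd989df0b459eab64a6d2a974ce750a87f617c2e5d1186622a97eec8ce69 (k8 c9742 c9680 c5210 c5405 c5489 c9727 c9699 c9731 (k8 c9745 c5433 c1054 c14669 c5499 c5541 c14584 c5447 (k8 c5404 c5488 c5397 c5396 c5413 c5543 c5501 c8772 (k8 c5412 c8724 c5544 c5540 c5502 c5498 c5529 c14670 (k8 c5434 c5432 c5316 c5445 c5395 c5398 c5448 c5444 (k8 c5486 c9695 c5559 c5558 c5561 c5340 c5341 c5342 (k8 c5562 c1060 c667 c14672 c5379 c5380 c5564 c5566 (k8 c14673 c5644 c1943 c2051 c284 c5974 c14269 c2386 (k8 c281 c280 c838 c10374 c5669 c1948 c10368 c4303 (k8 c3593 c5550 c2517 c892 c3599 c5464 c1718 c5691 k0)))))))))) (by decide +kernel)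
def c14675 : PP 9 3 T 0x4000000000000008000000000000000000000100040004000200101000014000000140400000000404000000000000000000000005400400010000000000 := rS 0x4322ac1c7f21c8fc6237 (k8 c5435 c5434 c5318 c5317 c5660 c5549 c14396 c10448 (k2 c1932 c5658 k0)) (by decide +kernel)
def c14676 : PP 9 3 T 0x200000000000000a000210040000000000000100040004000200001000000000000000000000000404001000000000001050080000000000000100000002 := rS 0x711209c94df0f7bdc2781db5cf64923b1cec0c629d63a6956abe22290c88d26631c81c62372f85d0f0142bffc2d167b2536fd4aa5d52994684cfa8f (k8 c5568 c5566 c5564 c5381 c5447 c5489 c5404 c5488 (k8 c5405 c5397 c5396 c5543 c5501 c8772 c5544 c5541 (k8 c5502 c5499 c5433 c1054 c5435 c5434 c5432 c5317 (k8 c5395 c5444 c9731 c9699 c9693 c9727 c5406 c5490 (k8 c9742 c2159 c1894 c681 c10258 c10013 c2480 c2367 (k8 c293 c889 c2187 c290 c5669 c10249 c14376 c3578 (k4 c2387 c14675 c353 c2591 (k2 c668 c14630 k0)))))))) (by decide +kernel)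
def c14677 : PP 9 3 T 0x22000001000000000000000000040004000200000000000000000000000000000000000000000000000010000000000000000000004002 := rS 0x1fd96716989e3840f7b11ae342290c36582da24fa6f09a04e7a0ace750a87f62ccda218aaad3af13499d2efd0ea5553b2888a446934fa84c6614c8cc625f0be4cba19 (k8 c9699 c9745 c14670 c5433 c1054 c5434 c5316 c5447 (k8 c5445 c5395 c5398 c5448 c5444 c9731 c9693 c9727 (k8 c5210 c5489 c5488 c5486 c5405 c5404 c9680 c9742 (k8 c9695 c5412 c5413 c5414 c5528 c5529 c5532 c14669 (k8 c5499 c5541 c14584 c14674 c14567 c5379 c5380 c5564 (k8 c5565 c5566 c5567 c14676 c5644 c1943 c1949 c284 (k8 c5974 c1764 c281 c14376 c5281 c5658 c349 c2081 (k4 c668 c9148 c841 c3599 k0)))))))) (by decide +kernel)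
def c14678 : PP 9 3 T 0x1000000000000000000101040000000000000200000004000200000000000008000000000000000000000000406040880000180001000000000200001000 := rS 0xe06fac9c69d3e1b18cce40f8c1497d90fc7a412591d16696281c76d1 (k8 c2131 c449 c5432 c681 c9742 c855 c5562 c5342 (k8 c5340 c5436 c5318 c5210 c5404 c683 c14553 c3937 (k8 c789 c788 c2416 c5670 c1650 c2620 c934 c2829 (k2 c5985 c2899 k0)))) (by decide +kernel)
def c14679 : PP 9 3 T 0x1000000000000000000000000000000000000000000000000000000000000000000000001080000000000000005000800000000000000000000000000000 := rS 0x19fe1 (k2 c5535 c2560 (k1 c10798 k0)) (by decide +kernel)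
def c14680 : PP 9 3 T 0x1000000000000012000101000000000000000200040004000200000000000000000000000000000000000000000000000010080000000000000000000002 := rS 0xcff0a718e6d05a1492206687cecf262bdcea6933a5dfa9554ec8469b4c8e40e312f85f265d069ed0e7947e70fe638a9c84bb7148642311 (k8 c9727 c5558 c9699 c9693 c14052 c5559 c11969 c1290 (k8 c5395 c806 c5211 c5526 c5524 c5373 c5372 c9673 (k8 c9745 c14670 c5433 c1054 c5434 c5432 c5317 c5447 (k8 c5397 c9731 c5210 c5489 c5488 c5405 c5404 c9680 (k8 c9742 c1894 c2101 c681 c14529 c10013 c2532 c2500 (k8 c5650 c345 c14678 c2530 c665 c14679 c10253 c5458 (k2 c1650 c10798 k0))))))) (by decide +kernel)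
def c14681 : PP 9 3 T 0x1000000000000012000000000000000000000000040004000200000000001001000000000000000001000050000000000050020000000000000010000002 := rS 0x18e9d10b39ec34799dc37110c98d36991981c2e31069ecf39c (k8 c5211 c5524 c5372 c9673 c5434 c5433 c5432 c5316 (k8 c5447 c5397 c5395 c9699 c9727 c1943 c2051 c282 (k4 c5974 c14529 c502 c342 (k2 c1650 c2561 (k1 c10500 k0))))) (by decide +kernel)
def c14682 : PP 9 3 T 0x1000000000000002000001000000000000000200040004000200000000000000000000000000000000000000000000000010000000000000000000004002 := rS 0xe171b7d9c8405126031569fbc76b5102c1aed18187c2713469ccecf2d022d12c57b9d4b459789a4cead57a5dfa1d4aaa7642911974c6c91f81c623d2f85c1a8748a3f39b521904964737894e211 (k8 c5558 c667 c5559 c1060 c5562 c5342 c5340 c5561 (k8 c14677 c5211 c5526 c5374 c5373 c9673 c5433 c1054 (k8 c5436 c5434 c5432 c5318 c5396 c5395 c9745 c9731 (k8 c9693 c5210 c5489 c5488 c5486 c5405 c5404 c5406 (k8 c5490 c9680 c9742 c9695 c14681 c5644 c1894 c2101 (k8 c681 c1898 c685 c14680 c14529 c10013 c5379 c5381 (k8 c5382 c5564 c2532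 c2627 c2131 c2187 c3602 c5650 (k8 c11945 c449 c5506 c2085 c1295 c2144 c345 c12876 (k4 c2530 c789 c2565 c13843 (k2 c1653 c5985 k0)))))))))) (by decide +kernel)
def c14683 : PP 9 3 T 0x1400000000040000101040000000000000200000000000000000100014044000000000000000001004100000000002000000000000540000000000002 := rS 0x1e3f7b7888e370c0fe6495944a2a7212844871d2591dea20 (k8 c666 c2420 c5562 c5342 c5341 c5561 c5558 c5559 (k8 c11969 c1290 c933 c934 c345 c5547 c2460 c2898 (k4 c2458 c3593 c10335 c5582 (k2 c5580 c5186 k0)))) (by decide +kernel)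
def c14684 : PP 9 3 T 0x2000000000000050000200000000000000000000000000000000000000000000000000000000001051000001444400014150000000000000000000000000 := rS 0xb38ac0961f355c050aff39a362689 (k8 c5567 c5382 c5381 c5379 c5544 c5541 c5502 c5500 (k4 c12913 c3602 c3613 c1294 (k2 c2460 c5685 k0))) (by decide +kernel)
def c14685 : PP 9 3 T 0x58000000000000000000000000000000000000100000014055000000000000001004000000000000000000000005540000011004000000 := rS 0x4eb18a2cfe70256abc3aa9 (k8 c5489 c5486 c5406 c5490 c3593 c5550 c2460 c5685 (k2 c1294 c3046 (k1 c3582 k0))) (by decide +kernel)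
def c14686 : PP 9 3 T 0x200000000000000000000800000000000000200000000000000000000000000000000140004000000000000000000000000400001000000 := rS 0xb54ec10beb5862b (k8 c5601 c5348 c5437 c5433 c5319 c5428 c5612 c3580 k0) (by decide +kernel)
def c14687 : PP 9 3 T 0x200000000000000800000000000000200400100500044000000000000000001140004000000002100021400000000000000010002 := rS 0x4228e4f7cad9737cdce06efa526ebc57ab0c8bdea20 (k8 c666 c2420 c9707 c9699 c5600 c5601 c5603 c5604 (k8 c9413 c669 c1062 c14686 c5667 c1299 c984 c862 (k4 c347 c287 c8896 c2468 k0))) (by decide +kernel)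
def c14688 : PP 9 3 T 0x11000000000208000000000000000000000000000000000000000001500000004000002000040004001000000000000000000000000000000000000000 := rS 0x1cbf55c3a5fb8354e470eb7 (k8 c5616 c5429 c5491 c5489 c5407 c5405 c2674 c3624 (k2 c5632 c3349 (k1 c5692 k0))) (by decide +kernel)
def c14689 : PP 9 3 T 0x5000000000208000000000000000000400000040000000000000000500000000800002008040004001000000000000000000052000000000000000000 := rS 0x917d8a1f58439fcbf3 (k8 c5588 c5468 c4310 c14688 c5556 c5661 c5207 c612 (k1 c5594 k0)) (by decide +kernel)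
def c14690 : PP 9 3 T 0x110000000000104000000000000000000000000000000000000000000020000000540000000000000005400200000000000000000804 := rS 0x18fc0de7558a (k4 c2647 c2648 c3890 c3183 (k2 c3184 c3600 k0)) (by decide +kernel)
def c14691 : PP 9 3 T 0x5000000000208100000000000000000400000040000000000000000500000000800002020000004141000000000000005400002000000000200000a04 := rS 0x2e613f428ea5864d27adc5b87bea9eeefdc1aa722bb (k8 c4761 c5491 c5489 c5407 c5405 c5613 c5428 c5427 (k8 c5429 c5612 c5616 c346 c2424 c14689 c1801 c14690 (k4 c5661 c5556 c5632 c3624 k0))) (by decide +kernel)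
def c14692 : PP 9 3 T 0x6000000000000018100000001000000000400000040000000040000400000000000040000120000000155500080110054005400002000000000200000a04 := rS 0x21bf185be2310ffbc5e12fbc5c97e9a4dcb8affe33f32d988335c45237b47e27390742c17c2cf68aadfa954baa7e714 (k8 c345 c5588 c5489 c5404 c5488 c5405 c5500 c5501 (k8 c5543 c8772 c5545 c5541 c5503 c5211 c5527 c5526 (k8 c5375 c5374 c9727 c9672 c8722 c3617 c1292 c3599 (k8 c5577 c3957 c10493 c14691 c5213 c5232 c5391 c5390 (k8 c5609 c5556 c5635 c10602 c3119 c5275 c5274 c3403 (k2 c5625 c3492 (k1 c5696 k0))))))) (by decide +kernel)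
def c14693 : PP 9 3 T 0x200100000000000000000000000000000000000000000000000000000000020000000140000000000000005400200000000000000000844 := rS 0x1a8d55dd4f7d (k4 c5427 c5428 c5613 c2648 (k2 c14690 c707 k0)) (by decide +kernel)
def c14694 : PP 9 3 T 0x208100000000000000000400000040000000000000000500000000000000020000004140000000000000005400000000000000200000844 := rS 0x17309fa1449a4f5b8b70efdc1aa722bb (k8 c4761 c5491 c5489 c5407 c5405 c5429 c5612 c5616 (k4 c346 c2424 c14693 c5661 (k2 c5556 c5632 (k1 c3624 k0)))) (by decide +kernel)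
def c14695 : PP 9 3 T 0x404000000000000000000000000000000000000000000000000040000044000200000000000000000000000000000000000000000000000000000000000000 := rS 0x21bf1 (k2 c5625 c3492 (k1 c5696 k0)) (by decide +kernel)
def c14696 : PP 9 3 T 0x1000000000000000200040004000200000000000000000000000000000000000000000000000010000000000000000000000010 := rS 0xbfbe6171887fde2f097de2e4bf4d26e6cec41a06cb05b457bf1a8993c4d1ba0ef8edeab51002bc26c82bfd9e8579c1e02d155bdfd87137edca6112a895e26933ab55e977e8752b1f018a526a34fa94c6c94d9853239038c46fad2f85f265d0ca0cd6a9d94450e91bda3f139cdaec0000f (k8 c9739 c14513 c14667 c14677 c5211 c5527 c5526 c5375 (k8 c5374 c5373 c9727 c5210 c5489 c9672 c8722 c9699 (k8 c9745 c14670 c5433 c1054 c5437 c5435 c5434 c5432 (k8 c5317 c5447 c5445 c5397 c5396 c5395 c5399 c5448 (k8 c5449 c5444 c9693 c28 c9713 c5488 c5486 c5405 (k8 c5404 c5406 c5490 c9680 c9742 c9695 c5559 c5343 (k8 c5558 c5563 c14052 c1060 c667 c14682 c5498 c5500 (k8 c5501 c5502 c5503 c5540 c5541 c5543 c5544 c5545 (k8 c3601 c8772 c665 c666 c2611 c2420 c340 c9979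 (k8 c14683 c5381 c5382 c5383 c5567 c5569 c8783 c14684 (k8 c685 c5644 c1943 c5974 c281 c14687 c14694 c5213 (k8 c5232 c5391 c5390 c5609 c5556 c5635 c10602 c3119 (k4 c5275 c3403 c14695 c5389 (k1 c5274 k0)))))))))))))) (by decide +kernel)
def c14697 : PP 9 3 T 0x4000000000000002000200000000000000000100000004000200000000000001000000000000000000000050000000000010020000000000000010000002 := rS 0x1fd96716989d891c1a114861b148653ea13198466312f85ce681099bcfa89 (k8 c5567 c5566 c5565 c5564 c5380 c5379 c5433 c1054 (k8 c5434 c5316 c5445 c5395 c5398 c5448 c9699 c9693 (k8 c1943 c1949 c284 c5974 c5658 c281 c3696 c2081 (k4 c668 c9148 c841 c3599 k0)))) (by decide +kernel)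
def c14698 : PP 9 3 T 0x2000000000000010000200000000000000000000000000000000000000000000000000000000001051000001404400000150080000000000000000010002 := rS 0xdb2c1167139a34de89 (k8 c5567 c5565 c5381 c5379 c667 c685 c3602 c14684 (k1 c5421 k0)) (by decide +kernel)
def c14699 : PP 9 3 T 0x2000000000000012000201000000000000000100040004000200000000000000000000000000000000000000000000000010000000000000000000000002 := rS 0xdf2091dc6d3227c915b781c5492106b9d98a752d167be3b7a92d6a20057bcd8ff42bce02d155bdde26933ab55e977e8752a232ea4cc607188dcbe17419ad53b288a1d228fce2362689 (k8 c5567 c5382 c5381 c5211 c5526 c5374 c5373 c9727 (k8 c5210 c5489 c9672 c8722 c5433 c1054 c5435 c5434 (k8 c5432 c5395 c5444 c9745 c9731 c5488 c5486 c5405 (k8 c5404 c5406 c5490 c9680 c9742 c9695 c5498 c5500 (k8 c5501 c5502 c5540 c5541 c5544 c3601 c8783 c665 (k8 c666 c2610 c2588 c2420 c340 c9979 c14697 c5644 (k8 c1894 c681 c10013 c2187 c14698 c3026 c6578 c7820 (k8 c6986 c3613 c5231 c686 c2939 c5549 c2972 c459 (k2 c12713 c14209 k0))))))))) (by decide +kernel)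
def c14700 : PP 9 3 T 0x1000000000000000000200000000000000000100040004000200000000000000000400008100000050000004000000000050080004000400000200010002 := rS 0xdf20fc9a7b7f791d6025459c4d22939a34de89 (k8 c5567 c5565 c5381 c5379 c9693 c9742 c667 c685 (k8 c14630 c3602 c2423 c5506 c5421 c2085 c5171 c13854 (k2 c2565 c14209 k0))) (by decide +kernel)
def c14701 : PP 9 3 T 0x40000200000000000000000100000000000000000000000000000000000000000050000000000000010150080000000000010000020000 := rS 0x4a27 (k2 c2858 c14630 (k1 c5651 k0)) (by decide +kernel)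
def c14702 : PP 9 3 T 0x50000200000000000000000100040004000200000000000000000400008000000050000004000000000050080004000400010200020010 := rS 0x22349fcde2091c4a70f91a63a8d (k8 c5381 c2159 c9742 c5231 c14701 c2755 c2423 c13854 (k4 c14209 c2564 c2565 c11059 (k1 c4886 k0))) (by decide +kernel)
def c14703 : PP 9 3 T 0x80000200000000000000000000000000000200000000000000000000400000000050014004000000000150080000000000010001000000 := rS 0x115144012ac44ecb388fc2e3d39a34de89 (k8 c5567 c5565 c5381 c5379 c5436 c5433 c5318 c5571 (k8 c5420 c5570 c5421 c14630 c3579 c3602 c459 c686 k0)) (by decide +kernel)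
def c14704 : PP 9 3 T 0x1000000000000000000200000000000000000100040004000200000000000008000400000100000050000005400000800050080005000400000200015002 := rS 0xb23a144acf389a62613 (k8 c5564 c5382 c9742 c667 c14700 c14630 c789 c2423 (k2 c2530 c12614 k0)) (by decide +kernel)
def c14705 : PP 9 3 T 0x201000000000000000000040004000200000000000000000000000000000000000000000000000010000000000000000000000010 := rS 0x6d4eb1c17e042b3c204971fcb6e3b1035da3df6687cecf225b15ee752d16607ed449bd1a73789a4cead57a5dfa1d4aaa7651114864465d49a7d426364a6d3239038c4be17069ed0e913ca3f39b5d80001f59 (k8 c14696 c9739 c14513 c14667 c14677 c5211 c5526 c5524 (k8 c5374 c5373 c5372 c9673 c5433 c1054 c5434 c5432 (k8 c5317 c5447 c5397 c5396 c5395 c5398 c5448 c5444 (k8 c9745 c9731 c9699 c9693 c9727 c5210 c5489 c5488 (k8 c5486 c5405 c5404 c5406 c5490 c9680 c9742 c9695 (k8 c5379 c5381 c5565 c5567 c14699 c10772 c14681 c5644 (k8 c1894 c2101 c681 c14658 c14529 c10013 c2532 c2500 (k8 c5493 c2131 c2187 c5650 c449 c14703 c5231 c5549 (k8 c5588 c14704 c14702 c789 c5688 c2530 c14679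 c5458 (k2 c665 c10253 k0)))))))))) (by decide +kernel)
def c14706 : PP 9 3 T 0x200000000000008a000000000000000000000000000000000000000000044000000000500000000000000000000000000000000000000000000000000000 := rS 0xf0b3e02d155abd2efd4aaa53ea164a6d32b1 (k8 c5421 c5447 c5397 c5396 c5398 c5448 c5489 c5488 (k8 c5405 c5404 c5406 c5500 c5501 c5502 c5543 c8772 (k1 c8633 k0))) (by decide +kernel)
def c14707 : PP 9 3 T 0x1000000000000000000040004000200000000000000000000000000000000000000000000000010000000000000000000000010 := rS 0xdf71907e47c40924767679344964709315ee7508968b3edf1f7dfed54591606d746ac4e6cb38fbb6da1aca3cf287ce0376b932f8c42e07789a4cead57a5dfa1d4aaa7640f01864ba005098d93b0 (k8 c14667 c5396 c5395 c5398 c14513 c9745 c9699 c28 (k8 c9739 c5210 c5489 c5488 c5486 c5405 c5404 c5406 (k8 c5490 c9680 c9742 c9695 c5432 c5433 c5434 c1054 (k8 c14670 c14677 c9673 c5211 c5373 c5524 c5526 c14696 (k8 c14705 c5212 c5219 c5571 c5420 c5419 c5421 c5505 (k8 c5507 c5508 c5582 c5583 c5585 c5586 c9031 c6616 (k8 c14706 c14681 c5644 c14568 c1894 c2101 c681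 c12617 (k8 c13598 c12638 c10484 c14529 c10013 c449 c450 c938 (k4 c14264 c5660 c298 c1551 (k2 c2829 c14209 k0)))))))))) (by decide +kernel)
def c14708 : PP 9 3 T 0x2000000000000010000201000000000000000200040004000000000000000000000000000000000000000000000000000010000000000000000000000010 := rS 0xdff9b2891b72f9fc8a1b03160705b1dbd46eb5100283e6c41a44d60d789a4cead5783e220314864465d49a7d426330ca4e6818984cde7d47bdd0f0179a15ffe155b459ec94dbf52a9754ec933b01290e3a4b239c42200 (k8 c14513 c5558 c667 c5562 c5342 c5341 c5561 c5559 (k8 c14667 c5447 c5210 c5489 c5404 c5488 c5405 c5397 (k8 c5396 c5543 c5501 c5500 c8772 c5544 c5541 c5540 (k8 c5502 c5499 c5498 c5568 c5566 c5565 c5564 c5382 (k8 c5380 c5379 c14707 c5445 c5395 c5398 c5448 c5444 (k8 c9745 c9731 c9699 c9693 c28 c9727 c9739 c5406 (k8 c5490 c9680 c9742 c9695 c9673 c9672 c13457 c8722 (k8 c3601 c2316 c665 c666 c2610 c8484 c2420 c340 (k8 c14698 c5654 c5644 c2471 c1943 c284 c676 c1451 (k4 c14226 c14685 c3599 c5588 (k2 c2947 c11888 k0))))))))))) (by decide +kernel)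
def c14709 : PP 9 3 T 0x2000000000000000000201000000000000000200040004000000000000000000000000000000000000000000000000000010000000000000000000000010 := rS 0x58a2da5ef6bb5589e3651dcff92eface2a9dda1c4226933ab55e974aec8009f31b24c299d84a4e681469bd12ab (k8 c5500 c5567 c5565 c5381 c5380 c5379 c14707 c14667 (k8 c5447 c5445 c5396 c5395 c5448 c14513 c5210 c5488 (k8 c5404 c5406 c5490 c9680 c9742 c5558 c667 c14708 (k8 c5412 c5414 c5532 c10390 c5214 c5358 c5356 c12830 (k8 c12178 c14285 c1660 c1765 c14376 c5689 c2938 c2085 (k1 c3602 k0)))))) (by decide +kernel)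
def c14710 : PP 9 3 T 0x2000000000000010000201000000000000000000040004000000000000000000000000000000000000000000000000000010000000000000000000000010 := rS 0x23a45218f46058db9d207153b924662570b17265f63018703b7a92c6e200507cd9ef48a0f386b3499d5b11018a4460049a7cc66194a36261344a3d0f0142bffc2ab68b3d929b7ea552ea9d92676159 (k8 c14709 c14667 c5447 c5210 c5489 c5404 c5488 c5405 (k8 c5397 c5396 c5543 c5501 c5500 c8772 c5544 c5541 (k8 c5502 c5499 c5568 c5567 c5564 c5382 c5381 c14707 (k8 c5445 c5395 c5448 c5444 c14513 c9731 c9693 c28 (k8 c9727 c5490 c9680 c9742 c9672 c5211 c8722 c5374 (k8 c8783 c3601 c2316 c665 c666 c8484 c2588 c2420 (k8 c340 c5654 c2471 c2470 c1451 c5357 c838 c13896 (k8 c13678 c8428 c400 c673 c6578 c7820 c3597 c6986 (k4 c1453 c1452 c12427 c5252 (k2 c284 c2164 (k1 c5658 k0))))))))))) (by decide +kernel)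
def c14711 : PP 9 3 T 0x2000000000000000000201000000000000000000040004000000000000000000000000000000000000000000000000000010000000000000000000000010 := rS 0x5920884b8e91c862612fcce0df71b2fc5ef6bb136e773f97f259defaccda218aa77695942aad0e6933ab52efd0ea5553b207c4452004fa84c6c930a67612939a04267d (k8 c5566 c5564 c5380 c5379 c14707 c14667 c5447 c5445 (k8 c5396 c5395 c5398 c5448 c14513 c9693 c9727 c9739 (k8 c5210 c5489 c5488 c5486 c5405 c5404 c5490 c9680 (k8 c9742 c5499 c5500 c5541 c14709 c14710 c5412 c5414 (k8 c5528 c5529 c5532 c10390 c14584 c5214 c5439 c5358 (k8 c5356 c8833 c14285 c1765 c14376 c5166 c5464 c5466 (k8 c5580 c12178 c5271 c2755 c668 c5252 c2864 c351 (k4 c353 c5658 c5660 c10377 (k1 c10368 k0))))))))) (by decide +kernel)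
def c14712 : PP 9 3 T 0x1000000000000010000000000000000000000000040004000000100400001000000000000000000051000001510000054450020000400000001010001002 := rS 0x80fbd14b17ffcd68b38aaacdb030f085ecf30d9a62223 (k8 c9731 c9727 c9742 c1943 c282 c14529 c342 c8123 (k8 c2195 c666 c7110 c1086 c2321 c3604 c5548 c2572 (k4 c14602 c3602 c5583 c3068 (k1 c5694 k0)))) (by decide +kernel)
def c14713 : PP 9 3 T 0x1000000000000050000200000000000000000000040004000000000000001000000800000000000051000100000000000050080004000000000000010002 := rS 0x167f3 (k2 c5549 c2458 (k1 c14620 k0)) (by decide +kernel)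
def c14714 : PP 9 3 T 0x40000000100000000000000000400000000000000000000000000200000090005411440000000040800 := rS 0x37dc3e01f8e41007 (k8 c1453 c1895 c2471 c275 c5654 c5460 c5538 c3590 k0) (by decide +kernel)
def c14715 : PP 9 3 T 0x201000000000000000200040004000000000000000000000000000000000000000000000000000010000000000000000000000010 := rS 0x6fb87c03f1c8200e5e3ab8ceec5057787649c98dc411569fbe061f583c916f72d1676fb53891c971d208f422253499d5aaf4bbf43a9554ec81e031197400934f98d92614cec2527346c4c266f44a3d0e91069af39ed (k8 c14711 c5218 c5523 c5522 c5374 c5373 c5568 c5567 (k8 c5565 c5564 c5382 c5381 c5379 c14707 c14667 c5447 (k8 c5445 c5396 c5395 c5448 c5444 c14513 c9745 c9731 (k8 c28 c9739 c5210 c5489 c5488 c5486 c5405 c5404 (k8 c5406 c5490 c9680 c9742 c5559 c5558 c5560 c5340 (k8 c5341 c5342 c5562 c667 c14603 c14594 c14712 c5644 (k8 c2101 c685 c14529 c3602 c2532 c2627 c5506 c2085 (k8 c1295 c5650 c8484 c12177 c345 c340 c5214 c12876 (k8 c5451 c5493 c14713 c14714 c10013 c1451 c8302 c2471 (k4 c275 c5654 c5460 c5538 (k1 c3590 k0)))))))))))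 (by decide +kernel)
def c14716 : PP 9 3 T 0x100000004000100000000000000000000000100000050014054110000044050000000140000008010000042 := rS 0x34d97e21f840e0d545b5d63ee1e9063a69 (k8 c9742 c351 c349 c2860 c5658 c5506 c5507 c5583 (k8 c5585 c3602 c667 c2908 c5655 c5464 c5579 c3618 k0)) (by decide +kernel)
def c14717 : PP 9 3 T 0x1000000000000012000020000000000000000100040004000100000400001000000000000000000051000050510000044050020000000000000010040012 := rS 0x36ff35a2cce227039b43c217b11486f38880c46934fa85927b48834d679 (k8 c5524 c5523 c5522 c5374 c5372 c5396 c5398 c5448 (k8 c5444 c9731 c28 c9727 c282 c1949 c284 c14529 (k8 c342 c8123 c666 c13770 c14716 c668 c2322 c13749 (k2 c12200 c5422 (k1 c5231 k0))))) (by decide +kernel)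
def c14718 : PP 9 3 T 0x42000200040000000000000100040000000100000000000000000500000010000050000051000000410150090005000040010200001014 := rS 0x1bde01f8e410072f1d4143d2091c222507a7cc71309a3c7693 (k8 c5444 c340 c5568 c5564 c5382 c5395 c5448 c9739 (k8 c14630 c14701 c2423 c13854 c12427 c12614 c14714 c10013 (k4 c1451 c8302 c2471 c275 (k2 c5654 c3590 (k1 c5538 k0))))) (by decide +kernel)
def c14719 : PP 9 3 T 0x100000000000100000000000000000500000000000000000000000000200000090005411440000000021000 := rS 0x1bde21c8fc1007 (k4 c1453 c1895 c2908 c273 (k2 c5655 c3590 (k1 c5580 k0))) (by decide +kernel)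
def c14720 : PP 9 3 T 0x50000201000000000000000000040004000000000000000000000000000000000000000000000000000010000000000000000000000010 := rS 0x1bde21c8fc10072f1d47a41238404a703bb17bd9370925c7f2018a53e63488349703348dd323b1007de4f72d166b28f449bc2713469ce52950ea5d5ead2ea1f39ed5499dfbb21180127b0 (k8 c14667 c5444 c14513 c9731 c5210 c5405 c9680 c5489 (k8 c14711 c5218 c5373 c9745 c5490 c5406 c5404 c5486 (k8 c5488 c14707 c5379 c5381 c5382 c5564 c5565 c5567 (k8 c5568 c14715 c14717 c5644 c2101 c14529 c2532 c5650 (k8 c340 c5447 c8484 c9742 c10772 c14658 c5522 c5374 (k8 c5395 c5448 c9693 c28 c5231 c5549 c5588 c5591 (k8 c12209 c5214 c5451 c5493 c14718 c2755 c667 c2423 (k8 c13854 c12427 c14719 c10013 c1451 c8302 c2908 c273 (k2 c5655 c3590 (k1 c5580 k0)))))))))) (by decide +kernel)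
def c14721 : PP 9 3 T 0x10000201000000000000000000040004000000000000000000000000000000000000000000000000000010000000000000000000000010 := rS 0x17812751f0f482e171f8ceed51ab148810f97791449c991d622765acce3b61d8dc401f7912dee5a2c9a4cead57a5dfa1d4aaa764232e80126634cec2527346c4c266f44a3d0e0dce40eb3ed (k8 c14711 c14715 c10772 c5218 c5522 c5373 c5568 c5567 (k8 c5565 c5564 c5382 c5381 c5379 c14707 c14667 c5447 (k8 c5395 c5444 c14513 c9745 c9731 c5210 c5489 c5488 (k8 c5486 c5405 c5404 c5406 c5490 c9680 c9742 c14717 (k8 c5644 c2101 c14658 c14529 c2532 c5650 c8484 c340 (k8 c14720 c5571 c5574 c5420 c5570 c5421 c2422 c12830 (k8 c344 c3602 c5214 c5660 c685 c686 c5451 c5450 (k8 c5454 c5493 c6601 c5549 c5591 c458 c2970 c5655 (k4 c14719 c275 c10013 c1055 k0))))))))) (by decide +kernel)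
def c14722 : PP 9 3 T 0x201000000000000000000040004000000000000000000000000000000000000000000000000000010000000000000000000000010 := rS 0xc5e1c1d47637053c8b2f72d111c7eff9785a0d3669dc6ac525c7492431e907bc26080948f93dba10e0b3368862aab4eed2075935a450f9cf684ce66933ab52efd0ea5553b207c4406290024d3e634da676129 (k8 c14707 c14667 c5447 c5397 c5395 c5448 c5444 c14513 (k8 c9693 c28 c9727 c9739 c5210 c5489 c5488 c5486 (k8 c5405 c5404 c5490 c9680 c9742 c5379 c5564 c14711 (k8 c5218 c5373 c5374 c5523 c14715 c10772 c14721 c5412 (k8 c5413 c5414 c5528 c5529 c5532 c14603 c14584 c8114 (k8 c10507 c12800 c2755 c667 c668 c5214 c13854 c12427 (k8 c5252 c3026 c351 c353 c5451 c5450 c5493 c5495 (k8 c5496 c13565 c6325 c5660 c14381 c5549 c5658 c2967 (k8 c503 c284 c684 c683 c1482 c448 c14714 c5654 (k2 c10013 c2471 (k1 c1451 k0))))))))))) (by decide +kernel)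
def c14723 : PP 9 3 T 0x101000000000000000200000000000000000100014054000000000000000000000000100400080100020000000000000200000000 := rS 0x4922c0e2a8b21c749647 (k8 c5562 c5342 c5341 c5561 c855 c1290 c10681 c285 (k2 c345 c3593 k0)) (by decide +kernel)
def c14724 : PP 9 3 T 0x2000000000000010000001000000000000000200040004000000000000000000000000000000000000000000000000000010000000000000000000000010 := rS 0x4411101b63986d1a583a1dc66c5c99fcbe7d63018703b7a8dc400a0ff84d8ff67a15e70168aadeef13499d2efd4a80c52232ea4d426364a6cc299d84a7423d37894e2110020cd6a9d94450f9c (k8 c5211 c5373 c9727 c5210 c5489 c9672 c8722 c14513 (k8 c5558 c667 c5559 c1060 c5560 c14722 c14707 c14667 (k8 c5447 c5445 c5397 c5396 c5395 c5398 c5444 c9745 (k8 c9731 c9693 c28 c5488 c5405 c5404 c9680 c9742 (k8 c9695 c5498 c5500 c5501 c5502 c5540 c5541 c5543 (k8 c5544 c3601 c8772 c2316 c665 c666 c8484 c2420 (k8 c340 c5654 c2471 c2470 c1456 c1451 c676 c5357 (k8 c838 c8428 c673 c3597 c1453 c2174 c1943 c14723 (k4 c11969 c9934 c14226 c1749 (k1 c2834 k0)))))))))) (by decide +kernel)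
def c14725 : PP 9 3 T 0x1000000000000002000121000000000000000200040004000100000000000000000000000020000000000000000000080410080001100440000000000000 := rS 0x38964df1cb847e6cf064868c7ef9a4ce977eaa764990892c8e79 (k8 c5524 c5562 c5342 c5558 c5447 c5210 c5489 c5405 (k8 c5404 c9680 c9742 c5451 c3818 c682 c5214 c5165 (k8 c13983 c441 c5460 c5534 c5538 c934 c12667 c2458 k0))) (by decide +kernel)
def c14726 : PP 9 3 T 0x8000000000000002000101000000000000000000000004000000000000000000000000000010000000000000010040400010400000000000000000000000 := rS 0x7df1a05947469e4cd26756a5d2bb231b24c2d7 (k8 c5507 c5445 c5396 c5395 c5210 c5488 c5404 c5490 (k8 c9680 c9742 c14285 c8433 c3597 c5892 c1749 c5464 (k2 c1547 c5670 k0))) (by decide +kernel)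
def c14727 : PP 9 3 T 0x1000000000000000000000004000100000000000000000000000000000000000000000000800000000000000000000000000000 := rS 0x3bf93 (k2 c5356 c5493 (k1 c5214 k0)) (by decide +kernel)
def c14728 : PP 9 3 T 0x400000000000000000000000000000000200000004000100000000000001000000000000000150000000000200000010020000000001014010000100 := rS 0x326a9106a8d0d894871d (k8 c5341 c5561 c5559 c1943 c2169 c280 c3582 c1659 (k2 c5653 c390 k0)) (by decide +kernel)
def c14729 : PP 9 3 T 0x200000000000002a000000000000000000000000000000000100000000000011000000000000000000000000000000000000000000000400000404000000 := rS 0x1e4bbf43a9554bdd56f3 (k8 c5540 c5500 c5498 c5489 c5488 c5486 c5405 c5404 (k2 c5816 c8815 k0)) (by decide +kernel)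
def c14730 : PP 9 3 T 0x200000000000002a000000000000000000000000000004000100000000000001000000000040000000000000000001000010420000000001000000004102 := rS 0x1a81af41d8c86a1b2d874322331a65efdf68bf53a6d (k8 c5529 c5412 c5405 c5501 c13565 c5498 c5447 c5395 (k8 c9731 c9699 c5486 c32 c1943 c280 c5653 c492 (k4 c14729 c2366 c10239 c1059 k0))) (by decide +kernel)
def c14731 : PP 9 3 T 0x2000000000000000000001000000000000000200040004000000000000000000000000000000000000000000000000000010000000000000000000000010 := rS 0xe476371a030665a2c8c5887963824beccc91b53bdff0ed19e8579b455687789a4ce977ea5553b207c44ba0031b2536614cec0ef29 (k8 c14707 c14727 c14667 c5447 c5445 c5397 c5396 c5395 (k8 c14513 c9745 c9727 c9739 c5210 c5489 c5488 c5405 (k8 c5404 c9680 c9742 c9695 c5499 c5500 c5501 c5540 (k8 c5541 c5543 c14724 c8772 c13565 c5412 c5529 c5214 (k8 c8710 c5439 c5438 c5357 c5441 c14285 c1470 c14730 (k8 c5644 c2041 c10258 c682 c2330 c289 c439 c5654 k0)))))) (by decide +kernel)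
def c14732 : PP 9 3 T 0x1000000000000000000001000000000000000000040004000100000000000000000000000020000000000100000000001000000000000000000000000042 := rS 0x3c3df3a9a52fb2889dc1b9c (k8 c5218 c5522 c14727 c9727 c5210 c5404 c9742 c126 (k2 c5451 c10637 (k1 c5165 k0))) (by decide +kernel)
def c14733 : PP 9 3 T 0x10000001000000000000000200040004000000000000000000000000000000000000000000000000000010020000000000000000000010 := rS 0x358f83f6a9782c08ef0cda7931ab146245039b4fe8b0f084e4f6dbbcd1a1b789a4ce977e8752aa9d944406191195c009331b24c299d8684ef2912844863d20c74f60d359e739ed (k8 c14731 c5218 c5524 c5523 c5522 c5372 c5341 c5340 (k8 c5560 c5561 c5558 c5559 c14707 c14727 c14722 c14667 (k8 c5447 c5445 c5396 c5395 c5444 c14513 c9758 c9731 (k8 c9699 c28 c9727 c5210 c5489 c5488 c5486 c5405 (k8 c5404 c9680 c9742 c9695 c1943 c2169 c282 c14594 (k8 c14529 c11969 c342 c8123 c855 c806 c666 c13770 (k8 c285 c1946 c14732 c281 c14285 c8433 c8428 c5214 (k8 c5643 c3577 c1506 c5454 c276 c1315 c3588 c1550 k0)))))))) (by decide +kernel)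
def c14734 : PP 9 3 T 0x90000001000000000000000200040004000000000000000000000000000020000000000000000000000010000000000000000000000010 := rS 0x34fdfe34609c521949a7d43b0d09de523d209bc4bedef97dae8b089f512430b8d0b4592e8012fb2 (k8 c5210 c5404 c14513 c9745 c14733 c5644 c682 c1619 (k8 c5561 c1898 c1634 c5558 c685 c1766 c1630 c5451 (k8 c14731 c5559 c1060 c5340 c5560 c14707 c14727 c14722 (k8 c14667 c5398 c5448 c5444 c9699 c9693 c5570 c14594 (k4 c13779 c5505 c2083 c14487 k0))))) (by decide +kernel)
def c14735 : PP 9 3 T 0x10000001000000000000000200040004000000000000000000000000000020000000000000000000000010000000000000000000000010 := rS 0x3507c8c719116449396dfe6df1cb853a6cf06498fdf34a5e23a11291cf691359e51e8b088ccef295a8a496374c8ec401f793dcb4592ea1f39ed5499dfbb21180127b0 (k8 c14667 c5444 c14513 c9731 c5210 c5405 c9680 c5489 (k8 c14731 c5218 c5373 c9745 c14733 c5644 c2101 c14529 (k8 c2532 c5650 c340 c5447 c8484 c5342 c9693 c11945 (k8 c14707 c14727 c2041 c5558 c685 c5526 c5524 c5523 (k8 c5374 c5372 c5562 c5559 c14722 c9727 c5404 c9742 (k8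 c5451 c3818 c5214 c5165 c13983 c5458 c5460 c5534 (k8 c5538 c11941 c14734 c11969 c12405 c934 c14725 c2458 (k4 c14205 c12667 c948 c2997 k0)))))))) (by decide +kernel)
def c14736 : PP 9 3 T 0x82000000000000000000000200000000000000000000000000000000000010000000000050000040400150480000000000010001000000 := rS 0x1f85c107431b24c225 (k8 c5559 c5445 c5396 c5395 c3597 c1895 c1506 c276 (k1 c13756 k0)) (by decide +kernel)
def c14737 : PP 9 3 T 0x90000001000000000000000200040004000000000000000000000000000000000000000000000000000010000000000000000000000010 := rS 0x6fb8cf83f1ca0410072f384fe496b78d182765ab55e031486543a11e9048e0d3ca3e064b1ba6476200fbc9ee5a2c9750f9cf6aa5fa230024fbd9362b24ee6131ec12a97d919cd329 (k8 c14707 c9742 c9680 c5210 c5404 c5488 c14667 c5395 (k8 c5445 c14727 c5396 c14735 c14285 c5214 c5444 c14513 (k8 c9731 c5405 c5489 c14731 c5218 c5373 c9745 c14733 (k8 c5644 c2101 c14529 c2532 c5650 c340 c5447 c8484 (k8 c5342 c2627 c5526 c5524 c5522 c5562 c5340 c5560 (k8 c14722 c5398 c9699 c9693 c28 c5406 c5490 c5420 (k8 c5570 c14594 c6601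 c9031 c344 c807 c1721 c14736 (k8 c1451 c8302 c1746 c273 c276 c5670 c1551 c2829 (k1 c3590 k0))))))))) (by decide +kernel)
def c14738 : PP 9 3 T 0x2000101000000000000000000000004000000000000040000000000000010000000000000450041400010480005411440000000001000 := rS 0x37dc6e13e3587e3946023de743499d2e95d918d9261 (k8 c5445 c5396 c5395 c5210 c5488 c5404 c9680 c9742 (k8 c3597 c14726 c1895 c5673 c273 c276 c2173 c2174 (k4 c1721 c1551 c2829 c3590 k0))) (by decide +kernel)
def c14739 : PP 9 3 T 0x10000001000000000000000200040004000000000000000000000000000000000000000000000000000010000000000000000000000010 := rS 0x70b7dc63f1cb28f8080397893153f9cb6f93628ec6eb51040c3ef244a2dee5a2c9a4ce977ea5553b28880c52232e80126636498533b0d09de52250890c7a412591d0e0d3ca3f39ed (k8 c14731 c5218 c5526 c5524 c5522 c5373 c5562 c5342 (k8 c5340 c5560 c5561 c5558 c5559 c14707 c14727 c14722 (k8 c14667 c5447 c5445 c5396 c5395 c5444 c14513 c9745 (k8 c9731 c9693 c28 c9727 c5210 c5489 c5488 c5405 (k8 c5404 c9680 c9742 c14733 c5644 c2101 c685 c1898 (k8 c14529 c2532 c2627 c5650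 c11945 c8484 c340 c14735 (k8 c14285 c14737 c11969 c806 c1290 c345 c14738 c1451 (k8 c8302 c1315 c1314 c273 c276 c1551 c2829 c1719 (k1 c3590 k0))))))))) (by decide +kernel)
def c14740 : PP 9 3 T 0x100100000000000a000000000000000000000000040004000100000000000011000000000000000000001000000005001410020000000054000000001000 := rS 0xb0e872f67986e2263 (k8 c5395 c9727 c1943 c282 c5657 c397 c5654 c14382 (k1 c1676 k0)) (by decide +kernel)
def c14741 : PP 9 3 T 0x1001000000000002000001000000000000000000040004000100000000000000000000000000000000001000002000001010504000000000000000000000 := rS 0x7639790280e5a2c8dd8c74789a4ce974aeca2263649dcf60d3cbd466c51af7b266bce185329b (k8 c5397 c5447 c5445 c5218 c5523 c10443 c5214 c5450 (k8 c5451 c8428 c2336 c5524 c5522 c5372 c14727 c5396 (k8 c5395 c9727 c5210 c5488 c5404 c9680 c9742 c9695 (k8 c3597 c3598 c2326 c14740 c5644 c1453 c683 c684 (k2 c2471 c448 (k1 c5654 k0)))))) (by decide +kernel)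
def c14742 : PP 9 3 T 0x1000000000000000200040004000000000000000000000000000000000000000000000000000010000000000000000000000010 := rS 0x3b1c8dc2c080397bc2cdef64d086d55a776879358350f9cf69a4cefd54eca22032e95c009b30a676129 (k8 c14707 c14667 c5447 c5445 c5397 c14513 c9758 c9745 (k8 c28 c9727 c5210 c5489 c5405 c9680 c9742 c14731 (k8 c5218 c5373 c5522 c5523 c5524 c14739 c5412 c5413 (k8 c5529 c14584 c10443 c5214 c5495 c6325 c14741 c1451 (k4 c8302 c1054 c1510 c273 (k2 c1676 c5654 k0)))))) (by decide +kernel)
def c14743 : PP 9 3 T 0x1000000000000000000040004000000000000000000000000000000000000000000000000000010000000000000000000000010 := rS 0xf064bdbdf7fb5606d765fbb6d59d0ca543b056abd2bb2 (k8 c5210 c5488 c5406 c5490 c14667 c5398 c14707 c14722 (k8 c14742 c5212 c5219 c5420 c5507 c5508 c5585 c5586 (k4 c9031 c14706 c5214 c5165 (k1 c14600 k0)))) (by decide +kernel)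
def c14744 : PP 9 3 T 0x1000000000002000011000000000000000000000004000200000000000000000000004060000000000000000000000010100000000400000000000000 := rS 0x1a86c12583d16cf2f14b8752bb2038c72619 (k8 c5393 c14670 c5434 c5432 c5210 c5488 c5486 c5404 (k8 c9695 c1631 c681 c5669 c5644 c1684 c1943 c280 (k1 c5974 k0))) (by decide +kernel)
def c14745 : PP 9 3 T 0xa000000000000000000000000000000000200000000000001000000000010000000000000000000000010020000000000000000000000 := rS 0xd436970ea543231 (k8 c5434 c5393 c5488 c5486 c5404 c1943 c281 c5974 k0) (by decide +kernel)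
def c14746 : PP 9 3 T 0x2000000000000002000201000000000000000200080004000200000000000000000000000000000000000000000000000010000000000000000000000002 := rS 0x8aacd6090f9a0d165a2cb156ac7886751e8989a34e6f13499d5aaf1dbd50e8531f8592ab68b3d36fd4aa5d53b24cedc5219da974d61f37894e211 (k8 c5558 c667 c5559 c1060 c5517 c1058 c9745 c9578 (k8 c5393 c5339 c14052 c5447 c5210 c5489 c5404 c5488 (k8 c5405 c5397 c5543 c5501 c5500 c5396 c8772 c5395 (k8 c5541 c5499 c5519 c5332 c5406 c5490 c9680 c9742 (k8 c9695 c5379 c5381 c5382 c5567 c5568 c12110 c8158 (k8 c796 c1340 c14744 c14745 c5644 c685 c1896 c12913 (k4 c14684 c3602 c2896 c1294 (k1 c5685 k0)))))))) (by decide +kernel)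
def c14747 : PP 9 3 T 0x2000000000000000000020000000000000000000000000000000000000001000000000000000000001000000000000001550000000000000000000000000 := rS 0x8388a1d5685 (k4 c5541 c5500 c5499 c5371 (k2 c5525 c3601 k0)) (by decide +kernel)
def c14748 : PP 9 3 T 0x2000000000000002000001000000000000000200080004000200000000000000000000000000000000000000000000000010000000000000000000000002 := rS 0x7bfc6446f40dc7f2cee87266d35974d2677eaa7641f2482c8e4320c7497017ff7c6ef579bdda23bdb8a433b5 (k8 c9578 c5393 c5339 c14052 c5332 c5501 c5333 c5540 (k8 c5519 c5518 c9979 c5544 c5502 c5342 c5341 c5340 (k8 c5561 c5520 c5516 c5334 c5517 c5210 c5489 c5405 (k8 c9680 c9742 c9745 c1058 c665 c14670 c14746 c14747 (k8 c5241 c5549 c5550 c14209 c3593 c5580 c5582 c5186 k0))))) (by decide +kernel)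
def c14749 : PP 9 3 T 0x2000000000000002000001000000000000000200000004000200000000000000000000000000000000000000000000000010000000000000000000000010 := rS 0x1e58e6c06083261b0100472f10e87c46f77ad29e661f0b2556d167a6dfa954baa76499 (k8 c5447 c5210 c5489 c5404 c5488 c5405 c5397 c5543 (k8 c5501 c5500 c5396 c8772 c5445 c5540 c14743 c5519 (k8 c5333 c5331 c5517 c5486 c9695 c5317 c14748 c5642 (k8 c1109 c14372 c3581 c265 c266 c2480 c2428 c13817 k0)))) (by decide +kernel)
def c14750 : PP 9 3 T 0x2000000000000058000000000000000000000200080000000000000000000001000000000000001000000000000000000010020000000000000000040000 := rS 0x11436f724bd48e25218a63a4b55c05e6ff (k8 c5544 c5540 c5502 c5500 c5342 c5341 c5339 c5561 (k8 c5559 c5520 c5519 c5334 c5333 c1943 c284 c14685 k0)) (by decide +kernel)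
def c14751 : PP 9 3 T 0x2000000000000050000201000000000000000200080004000000000000000000000000000000000000000000000000000010000000000000000000000002 := rS 0x45566b0f9a41068b2d165e2ad57bd50eab42974de25388451b1309a251eb539c433a6d059ac3ea97eec8ce69 (k8 c9742 c9680 c5210 c5405 c5489 c5517 c1058 c5516 (k8 c665 c14747 c8158 c5379 c1340 c5568 c5567 c5564 (k8 c5382 c5381 c5558 c667 c5559 c1060 c9745 c5541 (k8 c5500 c5499 c5519 c5406 c5490 c9695 c14750 c5644 (k8 c685 c1896 c14698 c12913 c3602 c2896 c1294 c5685 k0))))) (by decide +kernel)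
def c14752 : PP 9 3 T 0x2000000000000010000201000000000000000200080004000000000000000000000000000000000000000000000000000010000000000000000000000002 := rS 0x1a2c228b6b1db224268d399a4cead57ec8865d37894e211 (k8 c5558 c667 c5559 c1060 c9745 c5561 c5210 c5406 (k8 c5490 c9680 c9742 c5379 c5381 c5564 c5567 c14751 (k4 c5421 c14585 c3602 c5644 (k2 c14509 c1943 k0)))) (by decide +kernel)
def c14753 : PP 9 3 T 0x2000000000000050000101000000000000000200080004000000000000000000000000000000000000000000100000000000000000000000000004000002 := rS 0x45910e4692491c4a11218a63b017f9756a2055bcde2fd0eaa764f77a88c3e4b (k8 c5342 c5517 c5331 c5519 c5333 c5210 c5489 c5486 (k8 c5405 c9695 c5540 c5500 c3581 c2608 c9745 c5544 (k8 c5502 c5341 c5339 c5561 c5558 c5559 c5520 c5334 (k4 c9742 c11969 c14685 c855 (k1 c14205 k0))))) (by decide +kernel)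
def c14754 : PP 9 3 T 0x2000000000000010000001000000000000000200080004000100000000000000000000000020000000014000000000000015020000000000000000000002 := rS 0x402c4e62765ed91a1b78ab55e1dd90a63a6f129c423a118974be093e9ff25df (k8 c5451 c5214 c5358 c5442 c5438 c1630 c9745 c1470 (k8 c14752 c5558 c667 c5559 c1060 c5341 c5339 c5210 (k8 c5486 c5406 c5490 c9695 c1943 c2169 c14753 c5420 (k4 c5570 c5419 c5421 c3599 (k1 c14728 k0))))) (by decide +kernel)
def c14755 : PP 9 3 T 0x82000400000000000000101000000000000000200080000000000000000000000000000400000000000000000040000400000100000000020000000000000 := rS 0xfdbed3467bc88e181b8c76f724bd48e431e9063a4b80bfc72f3 (k8 c5540 c439 c5544 c5502 c5342 c5341 c5340 c5560 (k8 c5561 c5520 c5519 c5334 c5333 c5332 c5549 c5550 (k8 c5591 c3593 c5582 c14205 c2083 c12713 c442 c5258 k0))) (by decide +kernel)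
def c14756 : PP 9 3 T 0x2000000000000012000001000000000000000200080004000100000000000000000000000020000000000000000000000010000000000000000000000002 := rS 0x34fdfe34609f6df30bb5c688b2d164fb922ff7d5aaf4b90c7a2920a4d3ea10c98cc2772e9bc4a7108e74da0b3587d52fdd919cd3a1 (k8 c14752 c9742 c9680 c5210 c5405 c5489 c5517 c1058 (k8 c5516 c665 c14747 c5558 c667 c5559 c1060 c9745 (k8 c14727 c5445 c5395 c5393 c5398 c5448 c5444 c5340 (k8 c5339 c5560 c5561 c5404 c5406 c5490 c5451 c1630 (k8 c5214 c5442 c14754 c5644 c685 c682 c1766 c1619 (k8 c14755 c5241 c5570 c14585 c13779 c5505 c2083 c14487 k0)))))) (by decide +kernel)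
def c14757 : PP 9 3 T 0x1000000000002000010000000000000000000000000000000000000000000000000000050000000002050000400400150400000000000000000000000 := rS 0x1ecf274c9b24c263 (k8 c5395 c5445 c5396 c14285 c10013 c1537 c1689 c5669 k0) (by decide +kernel)
def c14758 : PP 9 3 T 0x2000000000000012000001000000000000000200000004000000000000000000000000000000000000000000000000000010000000000000000000000012 := rS 0x37c7e393e0200e5e41a30fe8b396dc88e18ac0dc7f24e357bd9362e858f107b925ea4712844863d20c74970179bfcc661f0b2556d167a6d2a974c9de52032ee74da0b3587e94a97eec8ce69 (k8 c9742 c9680 c5210 c5405 c5489 c14743 c5517 c1058 (k8 c5516 c665 c14747 c9745 c28 c14749 c14727 c5447 (k8 c5404 c5488 c5397 c5543 c5501 c5500 c5396 c8772 (k8 c5445 c5395 c5544 c5540 c5502 c5342 c5341 c5340 (k8 c5560 c5561 c5558 c5559 c5520 c5519 c5334 c5333 (k8 c8158 c796 c14752 c14756 c14285 c5214 c5454 c9090 (k8 c8352 c5549 c5550 c5590 c5591 c3593 c11235 c11969 (k8 c855 c806 c14205 c2175 c14757 c1451 c8302 c1315 (k4 c274 c276 c2830 c9944 k0))))))))) (by decide +kernel)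
def c14759 : PP 9 3 T 0x2000000000000002000001000000000000000200000004000000000000000000000000000000000000000000000000000010000000000000000000000012 := rS 0xb6594106a23b435975e26933bf43aa9d907c46f5a521de685 (k8 c5541 c5540 c5499 c14743 c5519 c5331 c5517 c5210 (k8 c5489 c5486 c5405 c9680 c9742 c9695 c9745 c1058 (k4 c14758 c5411 c10456 c8112 (k2 c1943 c1896 (k1 c5644 k0))))) (by decide +kernel)
def c14760 : PP 9 3 T 0x200000000000800000000000200000000000000002000000000000000000000000000000000000000000000000000000000004000042001 := rS 0x18515c8e33201295452535faf45e2d (k8 c5612 c5425 c5617 c5431 c5563 c5339 c5343 c5559 (k4 c2656 c4753 c310 c3229 (k2 c1297 c3586 k0))) (by decide +kernel)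
def c14761 : PP 9 3 T 0x200000000000020a000000080000000000000200000000000000002000000000000000000000000000000000000000002000000000000000004000042001 := rS 0x2e613f4c5e26f7a55be1eeefdc1aa722ab83c173abb (k8 c4763 c5522 c5545 c5503 c5500 c5491 c5489 c5407 (k8 c5405 c5613 c5429 c5616 c8905 c748 c2434 c14760 (k4 c5676 c5556 c5632 c3624 k0))) (by decide +kernel)
def c14762 : PP 9 3 T 0x140001000000000150000210080000000000000200000000000100400000000000000800000000000000000000000000000000000011400040000000000080 := rS 0xc1d6f9754e861c8ecf21d4c97eda42a844a6819384f1b79 (k8 c5359 c5569 c5564 c5383 c5380 c5563 c5558 c5343 (k8 c5242 c5203 c5391 c5388 c5606 c9413 c5594 c1792 (k4 c9459 c12621 c5472 c1502 (k2 c3311 c5656 k0)))) (by decide +kernel)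
def c14763 : PP 9 3 T 0x200000000000005a000200080000000000000200000000000100400000080000000000080000001000000000040000022450000011400040004000002081 := rS 0x1f37f7de2649765f2f70bf78bae6f709c5fd37314712ccaa5383f8592ab68b3d36fd4aa5d339d09fcd0a8354c46264b (k8 c5342 c2598 c9730 c5489 c8722 c5541 c12913 c5564 (k8 c5522 c5447 c5404 c5488 c5405 c5397 c5543 c5501 (k8 c5500 c5396 c8772 c5503 c5563 c5343 c2460 c2088 (k8 c5685 c14761 c14762 c5553 c5556 c5631 c5632 c5635 (k8 c8101 c1296 c3054 c5687 c3103 c3102 c3281 c3279 (k2 c762 c867 (k1 c5274 k0))))))) (by decide +kernel)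
def c14764 : PP 9 3 T 0x2000000000000002000201000000000000000200000004000000000000000000000000000020000000000000000000000010000000000000000000000010 := rS 0x312ecbb2f97b85657de2eb94e7d19bb97137e28b34840ce0e158b4be6340322cb5b72cf8cfe440be49ae5fef9a4cead57c7c76491b91c9a550890c7a292094d0f0142bfd269f50864c7e164b459e9b4aa5d3329399756a8335c476b9d89830967b3608156f37e87552f77a88c3f4a30a051a6f3ea251fef1384c36020089764f1 (k8 c9695 c5210 c5559 c14759 c5642 c1109 c5564 c267 (k8 c14401 c5568 c5567 c5566 c5565 c5381 c5380 c5445 (k8 c14743 c5517 c5331 c5519 c5333 c5489 c5486 c5405 (k8 c5540 c5500 c3581 c266 c742 c5342 c265 c2598 (k8 c5522 c5816 c9730 c2372 c8722 c2608 c9746 c9719 (k8 c14749 c5447 c5404 c5488 c5397 c5543 c5501 c5396 (k8 c8772 c5395 c5393 c5398 c5448 c5444 c5544 c5541 (k8 c5502 c5499 c5563 c5340 c5339 c5560 c5561 c5558 (k8 c5343 c5521 c5520 c5518 c5334 c5332 c9713 c5406 (k8 c5490 c9680 c9742 c5451 c1630 c1765 c5214 c1107 (k8 c14497 c5358 c13634 c284 c8833 c5644 c685 c681 (k8 c682 c12913 c14487 c2085 c4986 c3602 c14763 c3613 (k8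 c2897 c747 c10336 c8157 c14761 c8709 c14762 c8724 (k8 c5632 c5635 c8101 c1777 c1296 c3054 c5687 c3103 (k2 c1394 c3281 (k1 c9777 k0)))))))))))))))) (by decide +kernel)
def c14765 : PP 9 3 T 0x2000000000000002000201000000000000000200000004000000000000000000000000000000000000000000000000000010000000000000000000000010 := rS 0x6ffce048b48969c3e3183282e087181c6ac6ef0cd9b936289d1e8909a34d267088a50f0142bfd269f50864c661f0b25a2cf4da552e7794ad5066b88ed6260c259e4d8200daade6f17e87553b27bbd4461fa50080299 (k8 c5447 c14759 c5642 c14743 c5517 c5331 c5519 c5333 (k8 c5210 c5489 c5486 c5405 c9695 c5540 c5500 c1109 (k8 c3581 c266 c2428 c5342 c265 c2598 c5816 c9730 (k8 c2372 c8722 c2608 c14749 c14727 c5404 c5488 c5397 (k8 c5543 c5501 c5396 c8772 c5445 c5395 c5393 c5398 (k8 c5448 c5444 c5544 c5541 c5502 c5499 c5339 c5558 (k8 c9680 c9742 c5381 c5564 c5567 c5568 c267 c14764 (k8 c14285 c8354 c8428 c5214 c13817 c5450 c13650 c4738 (k8 c2481 c1108 c13648 c14092 c13634 c1719 c1509 c801 (k4 c685 c3613 c12913 c2516 (k1 c5691 k0))))))))))) (by decide +kernel)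
def c14766 : PP 9 3 T 0x4000400000000000000000080000000000000000000000000000000400004000000500400000000000000001080004000000000000000000000000000000 := rS 0x1bcd340a3cfa7f (k4 c5358 c5442 c2982 c857 (k2 c2938 c5972 (k1 c12713 k0))) (by decide +kernel)
def c14767 : PP 9 3 T 0x2000000000000040000111080000000000000200080004000000000400000000000000400020000000000000000004400000100000000000000004000000 := rS 0xb4352ca2dc29171fbfe4442491c4a4314c7602ffdaad440ab79bc5fa1d54ec9eef51187c97df (k8 c5451 c5342 c5517 c5331 c5519 c5333 c5210 c5489 (k8 c5486 c5405 c9695 c5540 c5500 c3581 c2608 c5816 (k8 c5544 c5502 c5341 c5339 c5561 c5559 c5520 c5334 (k8 c14685 c5241 c5582 c5549 c5589 c5591 c14766 c285 (k2 c14755 c5644 (k1 c682 k0)))))) (by decide +kernel)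
def c14768 : PP 9 3 T 0x2000000000000088000110000000000000000000000000000000000400000000000000000000000000000000000000002000000000000000000000000000 := rS 0x7cd1e9158acce301 (k8 c5502 c5571 c5574 c5421 c746 c2432 c14538 c5675 k0) (by decide +kernel)
def c14769 : PP 9 3 T 0x2000000000000000000101000000000000000200080004000100000000000000000000000120000000000004000004000010000000000000000001000008 := rS 0xd60be48be31ef9063a772eede264bce830d8200daade6f17e87552f77a88c3fb2 (k8 c5210 c5517 c5331 c5519 c5333 c5489 c5486 c5405 (k8 c9695 c5540 c5500 c1109 c3581 c266 c265 c5522 (k8 c5342 c2598 c14768 c9746 c14727 c5341 c5340 c5451 (k4 c1470 c1630 c5214 c1107 (k2 c14767 c14269 k0))))) (by decide +kernel)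
def c14770 : PP 9 3 T 0x2000000000000002000001000000000000000200000004000000000000000000000000000000000000000000000000000010000000000000000000000010 := rS 0x1f9f0fe8c459d0b4300b8200e35637786793629136fa13d9e6279d5a9b01820da86cba02009de53e14c98536c93186526f13499d2efd0ea5553b20f88dee497a91e94250890c7a298e92d56d180bcd9eff (k8 c5544 c5543 c5540 c5502 c5501 c5500 c5342 c5341 (k8 c5339 c5560 c5561 c5558 c5559 c14743 c5520 c5519 (k8 c5334 c5333 c5331 c5517 c5210 c5489 c5488 c5486 (k8 c5405 c5404 c9680 c9742 c9695 c5444 c5393 c5395 (k8 c5396 c5397 c5445 c5447 c8772 c14749 c14727 c14759 (k8 c5642 c9746 c1109 c5816 c3581 c265 c266 c2608 (k8 c5522 c2598 c2428 c742 c14765 c14768 c14685 c14769 (k8 c14285 c8428 c5214 c13817 c5450 c13650 c2481 c1108 (k8 c14092 c1509 c1508 c685 c14205 c807 c2174 c276 (k1 c13946 k0)))))))))) (by decide +kernel)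
def c14771 : PP 9 3 T 0x2000000000000000000201000000000000000200080004000000000000000000000000000000000000000000000000000010000000000000000000000002 := rS 0x5b2ca083511da1acbaf13499dfa1d54ec83e237aa1de685 (k8 c5541 c5540 c5499 c5519 c5331 c5517 c5210 c5489 (k8 c5486 c5405 c9680 c9742 c9695 c9745 c1058 c14752 (k4 c5411 c10456 c8112 c1943 (k2 c1896 c5644 k0)))) (by decide +kernel)
def c14772 : PP 9 3 T 0x4000000000000011000200000000000000000200080000000200000000014004000000014000000000000000000000000000000000000000000000000000 := rS 0x2064569355afe3710d1becd70f8327df188fc72331dbdc92377a91c863d20c74979d (k8 c12110 c5342 c5341 c5340 c5560 c5561 c5520 c5519 (k8 c5518 c5334 c5333 c5332 c5316 c5317 c5318 c5434 (k8 c9979 c12891 c5235 c5460 c5537 c5538 c3587 c5258 (k4 c11685 c1763 c1662 c5689 (k2 c2936 c2087 (k1 c3593 k0)))))) (by decide +kernel)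
def c14773 : PP 9 3 T 0x2000000000000000000201000000000000000200000004000000000000000000000000000000000000000000000000000010000000000000000000000010 := rS 0xdb114b05b62334f6984e8d43017499d4f2c73b97c139294a0cd86bf7ad441b51386cba028880426f17e87553b20f88deef5a5094528755b4602f342b3dffb1 (k8 c14770 c5544 c5543 c5541 c5540 c5502 c5501 c5500 (k8 c5499 c5339 c5559 c14743 c5519 c5333 c5331 c5517 (k8 c5210 c5489 c5486 c5405 c9695 c5564 c14771 c9730 (k8 c5642 c9746 c1109 c267 c5816 c3581 c2609 c14401 (k8 c2372 c266 c8722 c14772 c5209 c9669 c9668 c14727 (k8 c5357 c5441 c5440 c261 c1107 c5648 c437 c1273 (k8 c378 c743 c2440 c3607 c682 c5644 c284 c14750 (k1 c14226 k0)))))))) (by decide +kernel)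
def c14774 : PP 9 3 T 0xa000000000000000000000000000000000000200080000000000000000000000000000000000000000000000000000000000000000000000000000000000 := rS 0x115ea472192e02f3 (k8 c5540 c5502 c5342 c5561 c5520 c5519 c5582 c9072 k0) (by decide +kernel)
def c14775 : PP 9 3 T 0x4000400000000011000111040000000000000200080000000000000000000000000000000000000000000000000000000000000000000100000000000000 := rS 0xdf70f8bc03b248dc8e41 (k8 c5340 c5520 c5518 c5334 c5332 c5235 c5186 c5460 (k2 c5538 c11685 k0)) (by decide +kernel)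
def c14776 : PP 9 3 T 0x2000000000000011000101000000000000000200080004000200000000000000000000000000000000000000000000000010020000000000000000000002 := rS 0x99f0a759892db0d51a1b1ec759e19198fc2e3104a6cc792ef8ddeaf37bb447639f7c433a6d059ac3ea97eec8ce69 (k8 c9742 c9680 c5210 c5405 c5489 c5517 c1058 c5516 (k8 c665 c14747 c5665 c14774 c5317 c5332 c5501 c5333 (k8 c5540 c5519 c5518 c9979 c14775 c5355 c1187 c5438 (k8 c5434 c5433 c5318 c5316 c9699 c5543 c5341 c5560 (k8 c1943 c2169 c280 c14753 c14357 c3587 c1694 c5537 (k2 c2440 c5679 k0)))))) (by decide +kernel)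
def c14777 : PP 9 3 T 0x2000000000000011000101000000000000000200080004000200000000000000000000000000000000000000000000000010000000000000000000000002 := rS 0x35dbce350b4fe472463236e8945b14b4593b98f2461ef81c72f156abd2e951dbdc6ef52390c824b68bcdffef2e9bc4a710897f3a6d059ac3ea97eec8ce69 (k8 c9742 c9680 c5210 c5405 c5489 c5517 c1058 c5516 (k8 c665 c14747 c10372 c5558 c667 c5559 c1060 c9745 (k8 c14774 c5544 c5540 c5501 c5342 c5340 c5561 c5520 (k8 c5519 c5518 c5333 c5332 c5488 c5404 c5406 c5490 (k8 c9695 c5317 c5432 c9979 c661 c14775 c5355 c5356 (k8 c14776 c5644 c10463 c685 c1898 c14522 c14285 c5673 (k8 c11969 c5241 c2083 c1196 c5549 c14209 c2190 c12713 k0))))))) (by decide +kernel)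
def c14778 : PP 9 3 T 0x2000400000000050000111000000000000000200080004000100000000000000000000000020000000000000000000000000000000000000000000000002 := rS 0x5b2c8d488d781a2fe47234bdc92f52389422438e92e02f37f9dc625d (k8 c9745 c1470 c14727 c5544 c5540 c5502 c5342 c5341 (k8 c5561 c5558 c5559 c5520 c5519 c5334 c5333 c9742 (k8 c11969 c5241 c855 c5550 c1766 c3593 c14755 c285 (k2 c9931 c5644 k0)))) (by decide +kernel)
def c14779 : PP 9 3 T 0x44000000000000000000111000000000000000000000000000000100400004000000000000000000000000000010000000000020001200000000000000000 := rS 0x48a3c248d (k4 c2169 c284 c8824 c3036 (k1 c5675 k0)) (by decide +kernel)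
def c14780 : PP 9 3 T 0x81000000000000000000000200080000000000000200000005000000000020000050000040000000000150080000000000000000000002 := rS 0x1fb8dbee14024472923d26118343011c863d2092cde25388456627 (k8 c5570 c5574 c5558 c667 c5559 c1060 c5342 c5340 (k8 c5560 c5561 c5520 c10463 c682 c14585 c881 c880 (k8 c662 c439 c10035 c947 c4197 c2442 c1776 c326 (k1 c9944 k0)))) (by decide +kernel)
def c14781 : PP 9 3 T 0x2000400000000011000101000000000000000200080004000000000000000000000000000020000000000000000000000010000000000000000000000002 := rS 0x224881b2c16fe713589cd67b678ab55e97248a63b0179bffde5d88674da0b3587d52fdd919cd329 (k8 c14777 c9742 c9680 c5210 c5405 c5489 c5517 c1058 (k8 c5516 c665 c14747 c5665 c9745 c14774 c5544 c5540 (k8 c5502 c5341 c5339 c5334 c5404 c5406 c5490 c9695 (k8 c14778 c5574 c5419 c5421 c955 c14538 c14780 c5644 (k4 c1943 c14226 c2834 c14779 k0))))) (by decide +kernel)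
def c14782 : PP 9 3 T 0x82000400000000000000101000000000000000200080000000000000000000000000000000000000000000000040000400000100000000020000000000000 := rS 0x1ae41 (k2 c5340 c1763 (k1 c14755 k0)) (by decide +kernel)
def c14783 : PP 9 3 T 0x2000400000000050000001000000000000000200000004000000000000000000000000000000000000000000000000000010000000000000000000000012 := rS 0x320c2161a8ccb4592240d17f23925c3a957b925ea4712844871d25c05e6ff0c9773a6d059ac3ea97eec8ce693b98f252962e87634a (k8 c14743 c14770 c14773 c14781 c14777 c5209 c5355 c14727 (k8 c9742 c9680 c5210 c5405 c5489 c5517 c1058 c5516 (k8 c665 c14747 c9745 c9699 c5544 c5540 c5502 c5342 (k8 c5341 c5561 c5558 c5559 c5520 c5519 c5334 c5333 (k8 c5488 c5486 c5404 c11969 c5241 c855 c5550 c3593 (k8 c285 c5644 c2041 c14782 c11149 c1460 c14285 c1065 k0)))))) (by decide +kernel)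
def c14784 : PP 9 3 T 0x44000000000000088000111000000000000000200000000000000000400004000000000000000000000000000000000000010120001000000000000000000 := rS 0x112440dbc4531d (k4 c5341 c5339 c9695 c1943 (k2 c14226 c2834 (k1 c14779 k0))) (by decide +kernel)
def c14785 : PP 9 3 T 0x2000400000000010000001000000000000000200000004000000000000000000000000000000000000000000000000000010000000000000000000000012 := rS 0xd00c1730168b3f389ac4e6b3db315e2ad57a5c3a952490e02fff7864ba6f129c4225f88674da0b3587d52fdd919cd39294e8695b1 (k8 c14770 c14743 c14773 c14777 c5209 c9742 c9680 c5210 (k8 c5405 c5489 c5517 c1058 c5516 c665 c14747 c5665 (k8 c10372 c5558 c667 c5559 c1060 c9745 c9699 c14774 (k8 c5544 c5502 c5561 c5334 c5488 c5486 c5404 c5406 (k8 c5490 c9695 c14781 c14783 c5574 c5419 c5421 c955 (k8 c14538 c14784 c5644 c14522 c1460 c661 c11149 c1617 k0)))))) (by decide +kernel)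
def c14786 : PP 9 3 T 0x2000000000000010000001000000000000000200000004000000000000000000000000000000000000000000000000000010000000000000000000000012 := rS 0xc472924c1819a331af7b252988674da6b0c9a4ce977ea5553b21d87dee0b1bbd694d179b3f63a1 (k8 c14773 c14770 c5543 c5540 c5501 c14743 c5519 c5518 (k8 c5516 c5333 c5517 c5332 c5210 c5489 c5488 c5405 (k8 c5404 c9680 c9742 c9699 c1058 c665 c14747 c5665 (k8 c14777 c5209 c14785 c5450 c5492 c5495 c14615 c881 (k4 c662 c2437 c1565 c3587 k0))))) (by decide +kernel)
def c14787 : PP 9 3 T 0x82000000000000000000000000000000000000200080000000200000000000000000000000000000000000000000000000000000000200000000000000000 := rS 0x668d5acd36f77c623f1c8cc76f71bbd48e4125b45e6cf7ffbdc703 (k8 c5550 c5549 c14774 c5544 c5543 c5540 c5501 c5342 (k8 c5340 c5520 c5519 c5518 c5333 c5332 c5316 c5317 (k8 c5318 c5434 c9979 c14209 c2936 c12713 c1763 c2191 (k1 c3587 k0)))) (by decide +kernel)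
def c14788 : PP 9 3 T 0x2000000000000010000001000000000000000200000004000000000000000000000000000000000000000000000000000010000000000000000000000010 := rS 0x1935862c4efb34f6984e8d43017499d4f2c73b97c139294913e5b789e7506b536030d6200d974051100bc5fa1d54ec83e237b925ea47a509486298e92d0eab68c05e68567bff63a1 (k8 c14773 c14770 c5544 c5543 c5541 c5540 c5502 c5501 (k8 c5500 c5499 c5342 c5341 c5339 c5561 c5559 c14743 (k8 c5520 c5519 c5334 c5333 c5331 c5517 c5210 c5489 (k8 c5486 c5405 c9695 c14786 c9730 c5642 c9746 c1109 (k8 c3581 c2372 c265 c266 c2608 c8722 c5522 c2598 (k8 c14768 c5241 c14685 c14787 c5209 c9669 c9668 c14727 (k8 c5357 c5441 c5440 c261 c1107 c5648 c437 c1273 (k8 c378 c743 c2440 c8645 c3607 c1470 c14767 c5653 (k1 c2185 k0))))))))) (by decide +kernel)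
def c14789 : PP 9 3 T 0x2000000000000000000001000000000000000200000004000000000000000000000000000000000000000000000000000010000000000000000000000010 := rS 0x41168d65d0000cb21a88ed10af343bc4d2677e87553b20f88deb4a (k8 c14743 c5519 c5331 c5517 c5210 c5489 c5486 c5405 (k8 c9680 c9742 c9695 c5499 c5540 c5541 c14788 c5411 (k8 c10456 c1943 c1109 c5642 c9745 c1058 c5644 c8112 (k1 c1896 k0)))) (by decide +kernel)
def c14790 : PP 9 3 T 0x12000000000000000000000200000000000200000000000000000800000000001000001000000000000000000001000000000001000000 := rS 0x6589e28b3dba654293128f452411f85fe69f (k8 c1608 c5549 c5433 c5318 c5340 c5339 c5560 c5559 (k8 c5444 c5398 c5447 c14052 c2458 c5685 c3046 c1292 (k1 c3579 k0))) (by decide +kernel)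
def c14791 : PP 9 3 T 0x1000000000000050000011000000000000000000080004000000100000004004000000000000001000000000011000000010140004040000011000040000 := rS 0x1015591436822c21de3b27b925ea47 (k8 c5520 c5519 c5334 c5333 c5210 c9695 c11253 c5644 (k4 c5672 c1943 c284 c1973 (k2 c1977 c14685 k0))) (by decide +kernel)
def c14792 : PP 9 3 T 0x1000000000000000000011000000000000000000000004000000002000000010000000000000000000000000111000054010080000000000000000010000 := rS 0x204865820d166933ab55fb2 (k8 c5210 c5406 c5490 c9680 c9742 c685 c1896 c3602 (k2 c5672 c1295 (k1 c10690 k0))) (by decide +kernel)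
def c14793 : PP 9 3 T 0x41000000000000050000011000000000000000000080004000000100000000000000000000000000400000000110000044010000004040000011000050002 := rS 0x79160b6ff8a2bf64f52e9c50a695ac40d61f (k8 c5517 c1058 c8158 c1340 c9742 c845 c667 c9745 (k8 c5519 c5210 c5406 c5685 c3010 c14792 c5644 c14791 (k1 c283 k0))) (by decide +kernel)
def c14794 : PP 9 3 T 0x80000201000000000000000200000004000000000000000000000000000000000000000000000000000010000000000000000000000002 := rS 0x68b08a2dac4d26756abf644339a34266f44974e211 (k8 c5558 c667 c9745 c5567 c5565 c5564 c5381 c5379 (k8 c5561 c5210 c5406 c5490 c9680 c9742 c5421 c14585 (k4 c3602 c5644 c14509 c1943 k0))) (by decide +kernel)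
def c14795 : PP 9 3 T 0x200000000000000000200000000000200000000000000000000000000000000000001000008000000004000000400000000000000 := rS 0xfe091e9f47e07 (k4 c5432 c5318 c5566 c5560 (k2 c1684 c891 (k1 c9764 k0))) (by decide +kernel)
def c14796 : PP 9 3 T 0x10040000000000000000000000000000000000000000000080000040000000000000400004000000000000000000000000000000 := rS 0xf3e1 (k2 c5538 c2387 (k1 c5669 k0)) (by decide +kernel)
def c14797 : PP 9 3 T 0x10000200000000000000000200080000000200000000000000000000000000000800000000000000000000000000000000000000004002 := rS 0x31ec5949d7137dc27b6383123151d92416471e9049713099f51e192b9c422b5881ac3f9d398e47f933081cbe17 (k8 c5433 c1054 c5432 c661 c12891 c5318 c5317 c5379 (k8 c12110 c5517 c1058 c8158 c1340 c5558 c667 c9758 (k8 c9699 c5568 c5566 c5564 c5382 c5342 c5340 c5560 (k8 c5520 c5516 c5334 c5332 c171 c2896 c12614 c2480 (k8 c14795 c10249 c14796 c5258 c1778 c2459 c14790 c1322 (k1 c5663 k0)))))) (by decide +kernel)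
def c14798 : PP 9 3 T 0x10000201000000000000000200000004000200000000000000000000000000000000000000000000000010000000000000000000000012 := rS 0x18e7b0637922e3f92cf2639078ec920b238942243149063a4bf69cd1b13099bd128fced28afb7 (k8 c14794 c9758 c14743 c12110 c5568 c5567 c5565 c5564 (k8 c5382 c5381 c5379 c14789 c5342 c5341 c5340 c5339 (k8 c5561 c5558 c5559 c5520 c5516 c5334 c5332 c9739 (k8 c5317 c12891 c14797 c14793 c5549 c5589 c14209 c12614 (k2 c14795 c2480 (k1 c14796 k0)))))) (by decide +kernel)
def c14799 : PP 9 3 T 0x1000000000000050000011000000000000000000080004000000100000000004000000000000001000000000411000000010140004040000011000040000 := rS 0x209fc87 (k4 c11253 c14791 c5672 c2396 k0) (by decide +kernel)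
def c14800 : PP 9 3 T 0x2000000000000000000000000000000000000000000000000000000000010000000000050000000400150080000000000000000000102 := rS 0x752f98d9261 (k4 c5445 c5396 c5395 c1055 (k2 c1895 c3597 k0)) (by decide +kernel)
def c14801 : PP 9 3 T 0x200040000000000000200080000000000000000000000000500000040000000000000000000000000000000000000000000000200 := rS 0x70df1f9ec76491b91c7a412584d1f9d (k8 c12110 c5568 c5564 c5342 c5340 c5560 c5520 c5518 (k4 c5334 c5332 c1684 c275 (k2 c14796 c3590 (k1 c274 k0)))) (by decide +kernel)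
def c14802 : PP 9 3 T 0x1000000000000050000011000000000000000000080004000000100000000000000000000000001000000000411000000010140004040000011000040000 := rS 0x1e458 (k2 c5644 c14799 (k1 c283 k0)) (by decide +kernel)
def c14803 : PP 9 3 T 0x2000201000000000000000200080004000100000200000000000000000000000800000000000000000010080000000000000000000002 := rS 0x18a09ef64da6e363b8532616498d3e974a9dfdeb0459bd1a7338845126933abd5bb2 (k8 c5210 c5490 c5406 c9680 c9742 c5567 c5558 c667 (k8 c5379 c5381 c5565 c685 c3602 c5506 c14727 c5488 (k8 c5404 c5448 c5395 c5396 c5445 c5447 c2898 c796 (k4 c2458 c2085 c12177 c5214 (k2 c14801 c5451 (k1 c14800 k0)))))) (by decide +kernel)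
def c14804 : PP 9 3 T 0x1000000000000000000010000000000000000000000000000000000200008000000800000000000800000050000500500154400000000000000000000000 := rS 0x64b14c2a16b1edbe85 (k8 c845 c207 c1775 c2575 c2933 c880 c5732 c2190 (k1 c3597 k0)) (by decide +kernel)
def c14805 : PP 9 3 T 0x40000000000000051000000000000000000000000000000000000000000000000000080000000000000000000000000000000000000000000000000000000 := rS 0x3c3e3 (k2 c5580 c5538 (k1 c5198 k0)) (by decide +kernel)
def c14806 : PP 9 3 T 0x41000000000000010000201000000000000000200080004000100000000000000000000000000000000000000000000000010000000000000000000000002 := rS 0x3be614c8e3c27a6fb8dc2d14d9d4c7922fec5fd0380a4564974aaa476491b91d03133e8659a837a9dfdeb04596b6eb542c40d61f2ee751e1325c745243129bd1a7338845126933abd5bb2 (k8 c5210 c5490 c5406 c9680 c9742 c5567 c5558 c667 (k8 c5379 c5381 c5565 c5559 c5561 c5339 c5341 c5342 (k8 c5564 c5568 c12110 c9745 c5517 c1058 c8158 c845 (k8 c1340 c14794 c14802 c685 c3602 c5506 c14727 c5519 (k8 c1896 c12000 c9699 c5566 c5382 c5380 c5520 c5518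 (k8 c5334 c5332 c5489 c5488 c5404 c14793 c2896 c2900 (k8 c2460 c5694 c14803 c10372 c5209 c5355 c5440 c1187 (k8 c9572 c3013 c14804 c14805 c5972 c5457 c10335 c2437 (k2 c881 c14615 (k1 c11160 k0)))))))))) (by decide +kernel)
def c14807 : PP 9 3 T 0x2000201000000000000000200080004000100000000000000000500000040000000000000000000000010080000000000000000000002 := rS 0xc504f7b26d330b253e974a9dfdeb0459bd1a7338845126933abd5bb2 (k8 c5210 c5490 c5406 c9680 c9742 c5567 c5558 c667 (k8 c5379 c5381 c5565 c685 c3602 c5506 c14727 c5488 (k8 c5404 c5448 c5396 c5445 c2085 c12177 c5214 c14801 (k2 c5451 c14800 k0)))) (by decide +kernel)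
def c14808 : PP 9 3 T 0x1001400000000019000200000000000000000000080004000100000000000000000500011000000200000400000000000010000004011004000000000000 := rS 0x34c7c3465b7c72314c3392e3b1b91cff92 (k8 c5209 c5358 c5520 c5518 c5332 c5404 c5688 c11160 (k8 c1473 c2559 c11625 c1759 c5653 c5258 c2086 c442 k0)) (by decide +kernel)
def c14809 : PP 9 3 T 0x10000201000000000000000200000004000000000000000000000000000000000000000000000000000010000000000000000000000012 := rS 0x13fe365b58c0d364b558bde68a6fc27531e48bfb170b8fe4c766a19603341a2cb47794edd6a85881c4d65d3499d5aaf4ba57641f7a89422431e8a4831d25fb4e6814684cde7d44a3f3b4a (k8 c14743 c12110 c5568 c5567 c5566 c5565 c5564 c5381 (k8 c5380 c5379 c14789 c5342 c5341 c5340 c5339 c5560 (k8 c5561 c5558 c5559 c5519 c5517 c5210 c5488 c5404 (k8 c5406 c5490 c9680 c9742 c9745 c1058 c667 c8158 (k8 c845 c1340 c14794 c14798 c14727 c14802 c685 c1896 (k8 c2041 c3602 c5672 c12000 c798 c14806 c5549 c5591 (k8 c14807 c10372 c5209 c5355 c5440 c11668 c1187 c9572 (k8 c14808 c5451 c5454 c5494 c5496 c14615 c8254 c1756 (k2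 c5465 c1605 (k1 c9422 k0)))))))))) (by decide +kernel)
def c14810 : PP 9 3 T 0xa000000000000000000000200000000000200000000000001000000000000000000000000000000000000020000000000000004040011 := rS 0x11df6b8d192a14fa4d2e1d4a894831d0c8fc2e31 (k8 c5434 c5433 c5318 c5315 c5341 c5340 c5559 c5488 (k8 c5486 c5404 c5444 c5448 c5398 c5396 c5974 c14269 (k2 c5450 c280 (k1 c14481 k0)))) (by decide +kernel)
def c14811 : PP 9 3 T 0x45000000000000050000011040000000000000000080004000000100400000000000800000000001000000000410100000010040004050005011000440008 := rS 0x60650d564d68abfa0701422c08a582ebc436af13ab43bb2 (k8 c5210 c5486 c5490 c267 c5406 c1109 c9695 c9746 (k8 c5644 c284 c3582 c14802 c2144 c2629 c5694 c1295 (k4 c2575 c5685 c1763 c2459 (k2 c14092 c1755 k0)))) (by decide +kernel)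
def c14812 : PP 9 3 T 0x40000000000000050000201000000000000000200000004000200000000000000000000000000000000000000000000000010040000000000000000000010 := rS 0xf242aac426a5a389c3e06fec4b0fd0eaa4761f11bdc92377a91c863d149063a4bf6a06268947e7695112efbc3627010042625d93c466391f85c6393 (k8 c12891 c5434 c5433 c5318 c5317 c5316 c9695 c5210 (k8 c5559 c5564 c14809 c5642 c267 c1109 c14401 c9746 (k8 c9730 c14743 c12110 c5568 c5567 c5382 c5380 c14789 (k8 c5342 c5341 c5340 c5339 c5560 c5561 c5520 c5519 (k8 c5518 c5334 c5333 c5331 c5517 c5332 c5489 c5486 (k8 c5405 c5644 c14810 c14805 c5235 c5460 c3590 c14811 (k4 c8714 c2609 c10433 c2543 (k2 c3581 c283 k0)))))))) (by decide +kernel)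
def c14813 : PP 9 3 T 0x40000000000000050000201000000000000000200000004000200000000000000000000000000000000000000000000000010000000000000000000000010 := rS 0xff222d16715352ac426d81a1906852d3c4d26756abdfbb20f88c920b7a91c4a431492fda73469bd128fced2a221b138080213 (k8 c5564 c14809 c5642 c267 c1109 c9730 c14743 c12110 (k8 c5568 c5567 c5565 c5381 c5379 c14789 c5342 c5339 (k8 c5561 c5559 c5520 c5519 c5516 c5334 c5331 c5517 (k8 c5210 c5405 c5406 c5490 c9680 c9742 c9695 c14812 (k8 c683 c1896 c5672 c10690 c744 c266 c9859 c5665 (k4 c12153 c2377 c3584 c14437 (k2 c2572 c9612 k0))))))) (by decide +kernel)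
def c14814 : PP 9 3 T 0x50000201000000000000000200000004000200000000000000000000000000000000000000000000000010000000000000000000000010 := rS 0xc73d831bc9171fcb2639078ec920b23844824b8984d1f9da515c0401 (k8 c14809 c5642 c9757 c14743 c12110 c5568 c5564 c5382 (k8 c5342 c5340 c5558 c5520 c5516 c5334 c5332 c9739 (k8 c5317 c12891 c14813 c5549 c5589 c14209 c12614 c14795 (k2 c2480 c14796 k0)))) (by decide +kernel)
def c14815 : PP 9 3 T 0x45000000000000050000011000000000000000000080004000000100400004000000000000000001200000000410000000010140004040000011000040000 := rS 0x4090901 (k4 c2144 c14802 c5694 c2629 k0) (by decide +kernel)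
def c14816 : PP 9 3 T 0x1000000000000050000010000000000000000000080004000000000100001001000000000000002001000000000000000010060000000000004014000000 := rS 0xf242aac426a0f88deef5 (k8 c5519 c5333 c5331 c5517 c8714 c2609 c10433 c2543 (k2 c3581 c283 k0)) (by decide +kernel)
def c14817 : PP 9 3 T 0x200040000000000000200080000000100000000000000000540000040000000000001000005000000004000000000000000000000 := rS 0x31f8121140c4cfa8f (k8 c5568 c5566 c5382 c5380 c5558 c14801 c3610 c5643 (k1 c676 k0)) (by decide +kernel)
def c14818 : PP 9 3 T 0x40000000000000000000200040000000000000200080000000100000000000000000540000000000000000001000005000000000000000000000000002011 := rS 0xcaf10218d130995c041949a7d43b0 (k8 c5209 c5398 c5448 c5444 c6205 c5642 c9757 c5564 (k4 c5382 c14817 c2481 c9140 (k2 c13648 c5464 k0))) (by decide +kernel)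
def c14819 : PP 9 3 T 0x40000000000000010000201040000000000000200080004000100000000008000000000000000000000000001002000000000020000000000000004002011 := rS 0x1885c0ec66f385c6793db559e3562b2527ded80cc32f14b8752bb20fa3f3a02 (k8 c5642 c12110 c5568 c5517 c5210 c5488 c5486 c5404 (k8 c9695 c6205 c8428 c5209 c5214 c5444 c5396 c5451 (k8 c5450 c5453 c5454 c847 c2544 c2574 c3012 c14818 (k4 c14796 c13650 c1108 c1946 (k1 c3577 k0))))) (by decide +kernel)
def c14820 : PP 9 3 T 0x8000000000000000000000200000000000000000000008001000800000000000800000004000000000000000000000001000204400000 := rS 0xc90ca85ac396f9063a4b (k8 c5342 c5341 c5340 c207 c2617 c2575 c2933 c377 (k2 c2190 c14269 k0)) (by decide +kernel)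
def c14821 : PP 9 3 T 0x45000400000000000000000000000000000000000000004000100000400008048000400000040000000000001402151000000000000000011000000000000 := rS 0x6f788f6e1f0b447032 (k8 c5653 c387 c2129 c5534 c3013 c848 c5204 c3610 (k1 c5580 k0)) (by decide +kernel)
def c14822 : PP 9 3 T 0x40000000000000050000201000000000000000200000004000000000000000000000000000000000000000000000000000010040000000000000000000010 := rS 0x37dc3b13db558bde718c46a930b9d4fe7963824bf92102c8d91579031226b7f21202b558114b06933ab55e977e8752aa97b82c86298e92fda81899f5128fced2a225d31fbc3627010042625d93c4ef29 (k8 c14814 c14727 c9695 c5210 c5559 c5564 c14809 c5642 (k8 c267 c1109 c14401 c9752 c9746 c9730 c14743 c12110 (k8 c5568 c5567 c5566 c5382 c5380 c14789 c5342 c5341 (k8 c5339 c5561 c5516 c5333 c5489 c5488 c5486 c5405 (k8 c5404 c5406 c5490 c9680 c9742 c5644 c284 c3582 (k8 c14816 c2144 c14802 c14815 c2543 c850 c13445 c2540 (k8 c3010 c5665 c5685 c2426 c14819 c5439 c5438 c5357 (k8 c5441 c5358 c5440 c1107 c261 c280 c1945 c14820 (k8 c14821 c5451 c5454 c847 c10013 c3012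 c14805 c3610 k0))))))))) (by decide +kernel)
def c14823 : PP 9 3 T 0x40000000000000050000201000000000000000200000004000000000000000000000000000000000000000000000000000010000000000000000000000010 := rS 0x1fe445a2ce2a6a55884db034320d0a5a789a4cead57bf7641f1192416f51290fda73469bd128fced2a221b138080213 (k8 c5564 c14809 c5642 c267 c1109 c9730 c14743 c12110 (k8 c5568 c5567 c5565 c5381 c5379 c14789 c5561 c5559 (k8 c5519 c5516 c5334 c5331 c5517 c5210 c5405 c5406 (k8 c5490 c9680 c9742 c9695 c14822 c683 c1896 c5672 (k8 c10690 c744 c266 c9859 c5665 c12153 c2377 c5685 (k2 c14437 c2572 (k1 c9612 k0))))))) (by decide +kernel)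
def c14824 : PP 9 3 T 0x8000000000000000000000000000000000000000000000001000000000100000000000004000000000000020000000014000005000048 := rS 0x310ba5c3a95 (k4 c5488 c5486 c5404 c1108 (k2 c1946 c3577 k0)) (by decide +kernel)
def c14825 : PP 9 3 T 0x10000201040000000000000200080004000100000000000000000500000000000000000001000000002000020000000000000004000008 := rS 0x6f31c0c793d8d5326164a4fbdb019865e3b20fa3f3a57 (k8 c9757 c12110 c5568 c5517 c5210 c9695 c6205 c8428 (k8 c5209 c5214 c5444 c5396 c5445 c5447 c5450 c742 (k4 c2428 c14824 c13650 c14817 (k1 c14796 k0)))) (by decide +kernel)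
def c14826 : PP 9 3 T 0x80000000000000018000200080000000000000000000000000000000000000048000000000000000200000000002000000010000000000008000000000000 := rS 0x325a5b06f1ed9cd140c4cfa8f71a45c27f (k8 c5358 c5591 c5589 c5549 c5568 c5566 c5382 c5380 (k8 c2129 c388 c848 c5972 c11625 c2565 c5396 c2085 k0)) (by decide +kernel)
def c14827 : PP 9 3 T 0x81000000000000050000201000000000000000200080004000100000100000000000000000000000000000000000000000010040000000000000000002008 := rS 0x986f27543b13d98192c5ef0cc6235f09d4125fc926cd8b0791ac8a842c3c4d26756abd2e1d4aec9ee25218a63a4b40c4cfa8947e74ba630d89c26775ab8d22e1 (k8 c5591 c5589 c5549 c5548 c14727 c5564 c267 c1109 (k8 c9752 c9746 c12110 c5568 c5567 c5566 c5382 c5380 (k8 c5342 c5341 c5339 c5561 c5559 c5333 c5210 c5488 (k8 c5486 c5404 c5406 c5490 c9680 c9742 c9695 c5644 (k8 c14802 c284 c2543 c2540 c3582 c5665 c4660 c14825 (k8 c5439 c5438 c5440 c11668 c280 c1945 c14826 c5653 (k8 c5451 c5494 c14615 c847 c10013 c1197 c1696 c5972 (k2 c5679 c2443 k0)))))))) (by decide +kernel)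
def c14828 : PP 9 3 T 0x50000201000000000000000200000004000000000000000000000000000000000000000000000000000010000000000000000000000010 := rS 0x2c8d42136a1906852d03122b5f94a4ce0f0f88c920b7a91c4a111492fdb1347e769511138080213 (k8 c5564 c14809 c5642 c267 c9730 c14743 c12110 c5568 (k8 c5382 c14789 c5342 c5339 c5558 c5559 c5520 c5519 (k8 c5516 c5334 c5331 c5517 c9739 c9680 c14814 c14823 (k8 c5548 c5589 c12614 c14827 c683 c1896 c5672 c744 (k4 c266 c5665 c8140 c2377 k0))))) (by decide +kernel)
def c14829 : PP 9 3 T 0x10000201000000000000000200000004000000000000000000000000000000000000000000000000000010000000000000000000000010 := rS 0x116b138ed8365d01005126f09a34e66933ab55fb2 (k8 c5210 c5406 c5490 c9680 c9742 c5379 c5381 c5564 (k8 c5565 c5567 c14809 c5642 c9746 c1109 c14828 c5571 (k2 c5421 c14509 (k1 c3602 k0)))) (by decide +kernel)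
def c14830 : PP 9 3 T 0x40000000000000050000101000000000000000200080004000000000900000004000000000000000000000000100000000010000000000000000004000002 := rS 0x89f7ac154215a45516b3391b5e2697e87553b20f88dee0b7a894224b (k8 c5342 c5558 c5559 c5519 c5516 c5333 c5331 c5517 (k8 c5210 c5489 c5486 c5405 c9742 c9695 c665 c11969 (k8 c2456 c855 c1290 c5685 c2608 c3581 c1344 c5506 (k2 c1981 c5673 k0)))) (by decide +kernel)
def c14831 : PP 9 3 T 0x40000000000000050000021000000000000000200000004000000000000000000000000000000000000000000000000000010020000000000000000040010 := rS 0x40d1515552c0e02113808e60122c49e2ad57bf43aa9d903c3e237b92416f523d284a11218a497a188a451e1b46c75e60d (k8 c5522 c282 c5341 c2169 c1943 c5526 c5374 c5371 (k8 c14829 c5342 c5339 c5561 c5558 c5559 c14743 c5520 (k8 c5519 c5516 c5334 c5333 c5331 c5517 c9739 c5210 (k8 c5489 c5486 c5405 c5406 c5490 c9695 c12614 c284 (k8 c14830 c9719 c5642 c267 c265 c14312 c3582 c3581 (k4 c3048 c14204 c2200 c859 k0)))))) (by decide +kernel)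
def c14832 : PP 9 3 T 0x40000000000000050000121000000000000000200080004000000000000000000000000000000000000000000000000000010020000000000000000000002 := rS 0x44fbd60aa10ad1670081bfc8b1545c4ce4f134ab5fa1d54ec83e237b925ea4712844864b88a0d1e1b46c75e60d (k8 c5522 c282 c5341 c2169 c1943 c5526 c5525 c5371 (k8 c5342 c5561 c5558 c5559 c5520 c5519 c5334 c5333 (k8 c5331 c5517 c5210 c5489 c5486 c5405 c5490 c9742 (k8 c9695 c11969 c14830 c855 c1291 c285 c11835 c10681 (k8 c3593 c2900 c5685 c2608 c3581 c1344 c5506 c1981 (k1 c5673 k0)))))) (by decide +kernel)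
def c14833 : PP 9 3 T 0x120040000000000000000000000000000000400000000000800000000000000000000000040000000004000010540000000004440 := rS 0x40020fac7f19ec1a79 (k8 c5524 c5522 c5372 c5466 c2619 c1552 c3568 c5670 (k1 c1744 k0)) (by decide +kernel)
def c14834 : PP 9 3 T 0x100100000000000a000000000000000000000000080000000200000000000001000000000000000008000000000004000010020000000000000100000000 := rS 0x6733538c44ca6d92934b8ec3e231b8647217 (k8 c5433 c5317 c5315 c5518 c5331 c5517 c5332 c5404 (k8 c5444 c5396 c5397 c5447 c14745 c3578 c2075 c10805 (k1 c1650 k0))) (by decide +kernel)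
def c14835 : PP 9 3 T 0x40000000000000058000121000000000000000200000000000000000400040054000000000000001000000000110000040010000001500000000000084408 := rS 0x59c56007078ab4224325a441a8f (k8 c5526 c5522 c5374 c5342 c5561 c5558 c5490 c9695 (k4 c14312 c12649 c4973 c2900 (k1 c5685 k0))) (by decide +kernel)
def c14836 : PP 9 3 T 0x1000400000000008000001040000000000000000000000000000000000008004000200000000000000000000000000000010000000000005000004400008 := rS 0xc0741ab41a8f1 (k4 c9695 c3012 c3013 c1705 (k2 c10484 c14092 (k1 c4192 k0))) (by decide +kernel)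
def c14837 : PP 9 3 T 0x5000400000000008000101040000000000000000080000000200000000008004000400000000000000000000000000000010000004011000000004000008 := rS 0x1bde2708ec9247198fc2e31 (k8 c5434 c5433 c5318 c5316 c5520 c5334 c5332 c14836 (k2 c5186 c5985 (k1 c5580 k0))) (by decide +kernel)
def c14838 : PP 9 3 T 0x41000000000000058000121000000000000000200080000000200000400040004000000000000001000000000110000040010100000000000000004080018 := rS 0x1c2816ab17bc7d381bd14fef7911e2f724bd48e3d258cc2e31719fc7f93038e4ae411b82c760f (k8 c9739 c5332 c5516 c5518 c5340 c5313 c5317 c5432 (k8 c13294 c5318 c2917 c14833 c5434 c5433 c5316 c5342 (k8 c5560 c5520 c5519 c5334 c5333 c9695 c14835 c5582 (k8 c9612 c14205 c2979 c5666 c14211 c14837 c5451 c5454 (k2 c856 c3012 (k1 c9121 k0)))))) (by decide +kernel)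
def c14839 : PP 9 3 T 0x40000100000000000000000000000000000000000000080000000000000000000008000000000000040010000000000000000000080000 := rS 0x389be28b0 (k4 c2199 c2200 c1146 c4973 (k1 c5666 k0)) (by decide +kernel)
def c14840 : PP 9 3 T 0x41000000000000058000121000000000000000200080000000200000000000004000000000000001000000000110000040010100000000000000004080018 := rS 0x4538bfe244981aa8420d78bf43aa97bbd4461f (k8 c5517 c5331 c5519 c5333 c5489 c5486 c5405 c9695 (k8 c5522 c265 c3581 c14839 c5334 c14838 c2571 c756 (k2 c9612 c14312 k0))) (by decide +kernel)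
def c14841 : PP 9 3 T 0x101000000000000000000000000000000000000000000000000000000002008000001100000040000000000000000000000000000 := rS 0x22d6100 (k4 c1345 c1344 c3068 c14204 k0) (by decide +kernel)
def c14842 : PP 9 3 T 0x48000100000000000000000000000000000000000000000001000000000000000000000000020000040010100000000000000000000008 := rS 0xe245 (k2 c2834 c2873 (k1 c14312 k0)) (by decide +kernel)
def c14843 : PP 9 3 T 0x48000000000000000000000000000000000000000000048001000800040000001800010000000000000000000000210040008004000000 := rS 0x930b8d462336486594986b339aa9ff1a5c3a95 (k8 c5488 c5486 c5404 c5466 c1608 c1663 c2574 c2575 (k8 c2458 c2459 c380 c10123 c390 c1473 c1763 c1463 (k2 c1753 c3577 k0))) (by decide +kernel)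
def c14844 : PP 9 3 T 0x10000121040000000000000000000004000100000400000000000400000000000800000000000000020000020000000000000044010008 := rS 0x3c47f63a040c7d708d4c2c94fa4fbdb019865e3b2 (k8 c5210 c9695 c6205 c8428 c5209 c5214 c5444 c5448 (k8 c5396 c5445 c5450 c2898 c2870 c14824 c751 c13650 (k2 c676 c5670 (k1 c14235 k0)))) (by decide +kernel)
def c14845 : PP 9 3 T 0x41000400000000000000020080000000000000000000004000100100400000000000500000000000000000000080000000000000000200011000000000000 := rS 0x1e06f78d023e6b8c8f6913ca3fde7d (k8 c5442 c5582 c5526 c5524 c5374 c5372 c5653 c2185 (k4 c389 c857 c5576 c5846 (k2 c5204 c5538 k0))) (by decide +kernel)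
def c14846 : PP 9 3 T 0x41000000000000050000020080000000000000000000004000100100400000000000500000000000000000050080000400054000000200011000000000000 := rS 0xded8a058bde349ed22794797cfa75 (k8 c5440 c5442 c5439 c5526 c5524 c5374 c5372 c9742 (k4 c14845 c5451 c856 c10013 (k2 c5846 c14805 k0))) (by decide +kernel)
def c14847 : PP 9 3 T 0x40000000000000050000021000000000000000200000004000000000400000000000000000000000000000000000000000010120000000000000000000010 := rS 0xc930b159a9c67f85c0311a9d413927189942705934cdf15453fa03ef221a4ceaf4ba541e49058dc8e11209ecc7033bca512b555085e2fd0eaa5eef51187d22023980424f306a363a1bd0fb695b2 (k8 c5210 c14743 c14789 c14829 c1943 c5341 c2169 c5522 (k8 c282 c14831 c14832 c9719 c5642 c5374 c5517 c5331 (k8 c5519 c5333 c5489 c5486 c5405 c9695 c265 c3581 (k8 c14841 c14842 c14840 c14727 c14839 c9752 c5372 c5340 (k8 c5558 c5520 c5518 c5516 c5334 c9739 c5488 c5404 (k8 c5406 c9680 c9742 c14835 c5582 c3067 c9612 c14205 (k8 c3010 c2979 c4888 c5685 c5666 c4883 c2868 c14843 (k8 c14844 c5438 c5440 c280 c1945 c14846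 c5460 c1653 (k4 c2899 c12097 c10805 c1696 (k2 c1276 c14285 k0)))))))))) (by decide +kernel)
def c14848 : PP 9 3 T 0x40000000000000050000021000000000000000200000004000000000000000000000000000000000000000000000000000010140000000000000000000010 := rS 0x229c5ff125ac0d5421011cc021279a34365878bf43aa9d907c46f724bd6951df6e85220d (k8 c5522 c5374 c14829 c14789 c5341 c14743 c5519 c5334 (k8 c5333 c5331 c5517 c5210 c5489 c5486 c5405 c9695 (k8 c5644 c1943 c2169 c282 c14831 c14832 c9719 c5642 (k8 c265 c3581 c14839 c14841 c14847 c2571 c756 c9612 (k1 c14312 k0))))) (by decide +kernel)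
def c14849 : PP 9 3 T 0x200000000000000000000010 := rS 0x601 (k2 c9745 c9746 (k1 c5642 k0)) (by decide +kernel)
def c14850 : PP 9 3 T 0x40000000000000050000121000000000000000200000004000000000800000000000000000000000000000000000000000010080000000000000000000402 := rS 0xf7a3561005a45554b3391b4d2677eaa7642588a1c1a8b08a248685 (k8 c683 c5561 c1898 c5558 c685 c5522 c5373 c5371 (k8 c5559 c5210 c5489 c5405 c9680 c9742 c665 c11969 (k8 c2456 c10258 c1290 c5685 c1345 c1344 c2141 c5506 (k1 c5673 k0)))) (by decide +kernel)
def c14851 : PP 9 3 T 0x40000000000000050000021000000000000000200000004000000000000000000000000000000000000000000000000000010000000000000000000040010 := rS 0x2ade6b1811ba0271467bc42270d808e6017fc49e2677e87553b20787c46f724bd48e2525fb74287488351e8b08a2486852d174174a (k8 c14743 c5516 c14849 c14848 c683 c5561 c1898 c5558 (k8 c685 c5526 c5522 c5374 c5373 c14829 c14789 c5342 (k8 c5559 c5520 c5519 c5334 c5333 c5331 c5517 c9739 (k8 c5210 c5489 c5486 c5405 c9680 c9695 c12614 c2570 (k8 c14850 c9719 c5642 c1109 c267 c265 c14401 c5673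 (k8 c753 c2141 c5666 c5694 c1146 c2627 c2199 c3581 k0)))))) (by decide +kernel)
def c14852 : PP 9 3 T 0x121000000000000000000000000000000000400050000000000000000000000000000151000000000000000000000000000000000 := rS 0xff43a45068f (k4 c5526 c5525 c5374 c5373 (k2 c11835 c3613 k0)) (by decide +kernel)
def c14853 : PP 9 3 T 0x45000000000000050000121000000000000000000080004000000000000040000000080000010000000000000050040000010480004011000000000000000 := rS 0x3b77b61e1f18ec923723834f28f (k8 c5526 c5524 c5522 c5520 c5518 c5334 c5332 c5580 (k4 c5538 c14805 c5204 c14738 (k1 c5493 k0))) (by decide +kernel)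
def c14854 : PP 9 3 T 0x40000000000000050000021000000000000000200000004000200000000010000000000000000000000000000000000000010000000000000000000000012 := rS 0x77da0d47037dc6752fb14ff931885c0e3f1c83c76491b91c7a4125848aefef7a31124345fb60715390942313d0aa8da677ec450ea9d91a41a852d174174a (k8 c14743 c5516 c14849 c14848 c683 c5522 c9742 c5210 (k8 c5489 c5373 c5371 c5405 c9680 c665 c10258 c14829 (k8 c14850 c5558 c5559 c11969 c1291 c2200 c14789 c685 (k8 c5561 c1898 c14852 c5505 c5694 c9758 c14851 c5342 (k8 c5340 c5560 c5520 c5518 c5334 c5332 c9739 c5317 (k8 c5318 c5432 c5433 c5434 c13294 c2917 c681 c1054 (k8 c1894 c14833 c14853 c6010 c3012 c3013 c5454 c10484 k0))))))) (by decide +kernel)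
def c14855 : PP 9 3 T 0x48000000000000000000000000000000000000000000008001000800040000001800000000000000000000000000010044000005000000 := rS 0x4985c6a3164a8594986b3393edff1a5c3a95 (k8 c5488 c5486 c5404 c5466 c207 c1608 c2574 c2575 (k8 c2458 c2459 c2933 c10123 c1473 c1763 c1463 c1753 (k1 c3577 k0))) (by decide +kernel)
def c14856 : PP 9 3 T 0x121040000000000000200080004000100000000040000000400000000000800000000000040080010080000000000000000000002 := rS 0x37c7e393e020bce162a7fbdb03499d2e95d90ec9237238f4824b069e51e8b08a248677 (k8 c14727 c5561 c1898 c5558 c685 c5526 c5524 c5522 (k8 c5342 c5340 c5560 c5520 c5518 c5334 c5332 c5210 (k8 c5488 c5404 c9680 c9742 c5209 c5214 c5448 c5451 (k8 c2898 c14738 c14800 c1315 c273 c276 c2829 c5258 k0)))) (by decide +kernel)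
def c14857 : PP 9 3 T 0x45000000000000050000121000000000000000000080004000000000000048000000080040000000000000000050040000010480004011000000000000000 := rS 0xcd67b13c27b (k4 c5372 c5538 c14853 c2565 (k2 c12097 c10805 k0)) (by decide +kernel)
def c14858 : PP 9 3 T 0x101000000000000000000000000000000000000000000000000000000002008000000054000000000000000000000000000000000 := rS 0xf7a356100 (k4 c1345 c1344 c2141 c5506 (k1 c5673 k0)) (by decide +kernel)
def c14859 : PP 9 3 T 0x40000000000000000000000000000000000000000400040000000800000000001800000050200000480150000000000000000000000000 := rS 0x18d8ac9309d4bea1653553e7d6ff8da67f (k8 c807 c2083 c5466 c207 c1552 c1608 c1663 c2459 (k8 c2933 c1315 c2174 c930 c10123 c948 c1323 c3597 k0)) (by decide +kernel)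
def c14860 : PP 9 3 T 0x80000000000000000000000000100000000000000000000000000000000010050200000400150000000008004000001000002 := rS 0x18ac930b552663 (k4 c5355 c327 c2997 c662 (k2 c10198 c948 (k1 c14285 k0))) (by decide +kernel)
def c14861 : PP 9 3 T 0x40000000000000000000020080000000000000200080000000000000400000000000540000000000000000000000000000000000000004000000000000000 := rS 0x787c638400ec9237238f4824b3da451e7d (k8 c5442 c5526 c5374 c5372 c5342 c5340 c5560 c5520 (k8 c5518 c5334 c5332 c5972 c3590 c5463 c5534 c5691 k0)) (by decide +kernel)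
def c14862 : PP 9 3 T 0x40000000000000050000021000000000000000200000004000000000000000000000000000000000000000000000000000010000000000000000000000014 := rS 0x324c2c56833d03e1700fd36cd50b7cc65fc938cfed319bf8efef94a3202b25ac0e2aaa899c8da000c9a4cead4bbf52aa9d90947a4125fb743113da1c1a8b08a2486852d174174a (k8 c14743 c5516 c14849 c14848 c683 c5561 c1898 c5558 (k8 c685 c5522 c5373 c5372 c5371 c14829 c14789 c5342 (k8 c5340 c5560 c5559 c5210 c5489 c5488 c5405 c5404 (k8 c5490 c9680 c9742 c9701 c5642 c665 c11969 c14850 (k8 c10258 c1291 c2200 c14858 c5685 c2900 c14852 c14854 (k8 c5505 c14727 c5694 c2041 c2083 c807 c14859 c14856 (k8 c5439 c5355 c14857 c1196 c2506 c2496 c14860 c14861 (k8 c5460 c1716 c1653 c3013 c10805 c929 c2134 c14285 k0)))))))) (by decide +kernel)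
def c14863 : PP 9 3 T 0x40000000000000058000121000000000000000000000000000000000400000000000000000000001000000000151000000010100000000000000000080008 := rS 0x22ab338402064578ab50673 (k8 c9716 c5525 c5490 c9695 c14205 c10681 c14852 c14312 (k2 c2900 c4973 (k1 c5685 k0))) (by decide +kernel)
def c14864 : PP 9 3 T 0x40000000000000050000021000000000000000200000004000000000400000000000000000000001000000000000000000010000000000000000000000010 := rS 0xf355c09ff1458accdc44809c7de8c7899d5efd0eaa7641f11bdc92f525fb7428747a2c228921a14b45d05d2824730d884040d (k8 c5522 c14862 c265 c1109 c9716 c14851 c14743 c5516 (k8 c14849 c14848 c683 c5561 c1898 c5558 c685 c5526 (k8 c5373 c14829 c14789 c5342 c5519 c5334 c5333 c5331 (k8 c5517 c5210 c5489 c5486 c5405 c5406 c9680 c9695 (k8 c14863 c5505 c753 c2141 c14312 c5666 c8280 c1146 (k4 c5685 c3010 c9612 c6368 (k2 c2627 c3581 k0))))))) (by decide +kernel)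
def c14865 : PP 9 3 T 0x40000000000000050000021000000000000000200000004000000000400000000000000000000000000000000000000000010000000000000000000000010 := rS 0xdaab5a1a4cefd54ecb4311439ad068b08a2486852d174174a (k8 c14743 c5516 c14849 c14848 c683 c5561 c1898 c5558 (k8 c685 c5525 c5523 c5373 c5371 c14829 c5210 c5489 (k4 c5405 c9680 c9742 c14864 (k2 c14858 c2610 (k1 c3601 k0))))) (by decide +kernel)
def c14866 : PP 9 3 T 0x48000100000000000000000000080000000000000000080001000000000000000000000000000000040010000004000000000104080000 := rS 0xab79bf43aa90f88deef5 (k8 c5519 c5333 c5331 c5517 c5489 c5486 c5405 c2627 (k2 c14839 c3581 k0)) (by decide +kernel)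
def c14867 : PP 9 3 T 0x120040000000000000000000000000000000000000000000800000000000000000000000040000000004000010540000000004440 := rS 0x40020fac7f19ec1a79 (k8 c5524 c5522 c5372 c5466 c2620 c1551 c3568 c5670 (k1 c1744 k0)) (by decide +kernel)
def c14868 : PP 9 3 T 0x9000000000000000000121000000000000000000080000000200000000010008000040000000000000000000000000000000084004150000000000084000 := rS 0xef0d0eed367f85c0e33ab14fecdc98c40e3f1c8ec920b1b91d0ed5 (k8 c5585 c5373 c5520 c5518 c5516 c5334 c5332 c5317 (k8 c5318 c5432 c5434 c13294 c2500 c2917 c681 c1894 (k8 c14867 c6010 c5460 c1653 c3062 c10798 c9641 c5668 (k1 c5450 k0)))) (by decide +kernel)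
def c14869 : PP 9 3 T 0x1040000000000000000000004000100000000000000000000011000000004001400000000000000000000000000000000000000 := rS 0x19e9964f7b60977ea5553b2 (k8 c5210 c5489 c5488 c5405 c5404 c5209 c5214 c5396 (k2 c5447 c5453 (k1 c3617 k0))) (by decide +kernel)
def c14870 : PP 9 3 T 0x80000000000000000000000000000000000002000005404000000000000000000000100008100400000 := rS 0x132191d87c4637 (k4 c5518 c5331 c5517 c5332 (k2 c380 c2613 (k1 c3578 k0))) (by decide +kernel)
def c14871 : PP 9 3 T 0x8000000000000040000001000000000000000000080004000100001000050000000800000000002004010000150000004010080004000000008100000008 := rS 0x1a06189b165a7926170497f24d14eb353639789a4cead57ec8e6d7 (k8 c5507 c9716 c5210 c5406 c5490 c9680 c9742 c9695 (k8 c2617 c2622 c2623 c1778 c1780 c14869 c5439 c5438 (k8 c1107 c261 c14870 c199 c5448 c14390 c5648 c682 (k1 c437 k0)))) (by decide +kernel)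
def c14872 : PP 9 3 T 0x101040000000000000000000004000100000000000000000000500000000100010000000040020000000000000000000000000000 := rS 0x78d02ca3eb4cc2c94ff7b60ad57a5d2bb2 (k8 c5210 c5488 c5404 c5406 c5490 c5209 c5214 c5448 (k8 c5396 c5445 c5496 c2870 c3618 c751 c5464 c5670 k0)) (by decide +kernel)
def c14873 : PP 9 3 T 0x40000000000000000000000000000000000000000080000000000000000010000000440080000002010000404000000000000000000000000008100400000 := rS 0x1ca7433e070a7fc63b0f88c6e99 (k8 c2612 c5518 c5331 c5517 c5332 c5579 c2882 c3062 (k4 c5691 c380 c1343 c5534 (k1 c3578 k0))) (by decide +kernel)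
def c14874 : PP 9 3 T 0x8000000000000040000000080000000000000200080000000000000000000000000540040000000050001504100000044150080000000100000100400000 := rS 0x62b2f62350c0f8761f118dc8e3d14904968b08a2486d7 (k8 c5507 c5561 c1898 c5558 c685 c5342 c5340 c5339 (k8 c5560 c5520 c5518 c5331 c5517 c5332 c5258 c3578 (k4 c442 c5393 c1320 c682 (k1 c14390 k0)))) (by decide +kernel)
def c14875 : PP 9 3 T 0x48000000000000050000000080000000000000200080000000000000000000000000540040000002050000444100000044150080000000000000100400000 := rS 0x32f61e2f08e13a99 (k8 c2612 c1343 c14874 c5534 c5691 c5679 c5464 c8156 k0) (by decide +kernel)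
def c14876 : PP 9 3 T 0x540005000000000002001101001040000000000000000004000040000000000000000000000000000000000000000000000000000000000000000000080000 := rS 0x7c6ceda9179249b2 (k8 c5210 c5677 c5207 c3094 c6804 c5351 c5627 c5220 k0) (by decide +kernel)
def c14877 : PP 9 3 T 0x800000000000000208000000000000000000000000000000000000000014000000000000000000400100000000000000000000000000000000000000000000 := rS 0x87e155aafc1e457b87 (k8 c5429 c5617 c5491 c5407 c5406 c5490 c5638 c5598 (k1 c3625 k0)) (by decide +kernel)
def c14878 : PP 9 3 T 0x40005000000000202000101080000000000000000000004000000000814000000000000000000000100000000000000020000000000000000000000080000 := rS 0xc57d249f7c6c9f4b875eddf64bf (k8 c5015 c5210 c5613 c5617 c5429 c8905 c757 c2876 (k4 c14877 c5677 c14876 c1012 (k1 c5553 k0))) (by decide +kernel)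
def c14879 : PP 9 3 T 0x140000000000000150000000000000000000000200080000000000000000000000000040000000002000002000000000000000000000004000008000000000 := rS 0x182c375eb5cca65d0bd6eb991c670aed77fd8764f2a8f48253 (k8 c5563 c5340 c5560 c5343 c5335 c5332 c5203 c5597 (k8 c5639 c5638 c5641 c5594 c1346 c2616 c592 c5686 (k4 c1387 c1388 c1500 c3437 (k2 c1724 c3428 (k1 c3592 k0))))) (by decide +kernel)
def c14880 : PP 9 3 T 0x40000000000000050000021000000000000000200000004000000000000010000000000000000000000000000000000000010000000000000000000000010 := rS 0x2f5b8ac5b84c0c85dda475bb7cbf78bae57651fa6e539e374b2999b0620659e811ff85c0d34da4c2e753eb1c125fc91fdc72934ab55e970793c8e4d2a8a482533ddef1257599be2aa1132c5be6c6bc35ab0bf722c228921bc9568d33ad0e045818489649f6bfd0a5a2e82ce71248e84362101035e2fd0eaa764f77a88c3f4a (k8 c14743 c5517 c5331 c5519 c5333 c5210 c5489 c5486 (k8 c5405 c9695 c5522 c14862 c265 c1109 c14829 c5374 (k8 c14865 c9716 c5516 c14849 c14848 c683 c2570 c14789 (k8 c5334 c5342 c14851 c14866 c9612 c14312 c756 c9680 (k8 c753 c14841 c3581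 c5561 c1898 c5558 c685 c5673 (k8 c5587 c5585 c5509 c5507 c755 c4679 c14204 c2868 (k8 c4883 c4973 c65 c2457 c9757 c5527 c5375 c5372 (k8 c5563 c5340 c5339 c5343 c5521 c5520 c5335 c9739 (k8 c5404 c5406 c5490 c9742 c14868 c14871 c810 c14872 (k8 c5439 c5438 c5357 c5442 c5440 c1107 c261 c2492 (k8 c14873 c14875 c5460 c3056 c1716 c1653 c379 c8254 (k8 c5648 c10805 c8156 c4770 c5464 c1718 c14878 c14879 (k8 c5552 c5554 c5632 c5635 c8101 c8870 c9777 c3064 (k8 c5243 c5693 c5606 c5607 c1837 c269 c1115 c3479 (k2 c1348 c3585 k0))))))))))))))) (by decide +kernel)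
def c14881 : PP 9 3 T 0x9000000000000000000121040000000000000000000000000200000000000008000040000000000000000000000000000000084005550440000000084400 := rS 0x3bc343bb4d9fe1701d5c6c53fb3462071f8e50ed5 (k8 c5585 c5373 c5317 c5318 c5432 c5434 c2500 c2917 (k8 c681 c14867 c1894 c6010 c5460 c1652 c3063 c10798 (k2 c9641 c5668 (k1 c5450 k0)))) (by decide +kernel)
def c14882 : PP 9 3 T 0x49000000000000000000121040000000000000000000004000000000000000008000040000000002104000000000000020000084005550440000000084400 := rS 0x13ad165387c6d366b3d32c94f9fbbdb094ab55e977ea5553b248a85aed5 (k8 c5585 c5507 c4883 c5374 c5210 c5489 c5488 c5405 (k8 c5404 c5406 c5490 c14881 c5209 c5214 c14872 c5448 (k8 c5396 c5447 c5453 c5495 c5496 c5577 c3058 c3618 (k2 c8355 c1343 (k1 c10216 k0))))) (by decide +kernel)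
def c14883 : PP 9 3 T 0x8000000000000040000000080000000000000000000000000100000000000001000000000000000050008004150000044150080000000000000000400000 := rS 0x6818626c596d7 (k4 c5507 c199 c5448 c14390 (k2 c5648 c682 (k1 c437 k0))) (by decide +kernel)
def c14884 : PP 9 3 T 0x80000000000001000000000000800000000002000004404000000000000000004000000008100400000 := rS 0x13a39 (k2 c2617 c1778 (k1 c14870 k0)) (by decide +kernel)
def c14885 : PP 9 3 T 0x200080000000000000000020000000540000000000000000000000000000000000000004020000000000000 := rS 0xe19a3b238f4824b (k8 c5342 c5340 c5560 c5520 c5332 c2078 c5258 c440 k0) (by decide +kernel)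
def c14886 : PP 9 3 T 0x140000000000000150000000004000110000000000000000000000000000000000000200000000002000000400000050020401000000000000000000000000 := rS 0xd4e35d78172ae96eb98ce17ec81 (k8 c751 c5203 c5638 c5641 c1346 c2616 c5686 c2524 (k4 c1157 c3065 c2877 c5277 (k1 c9954 k0))) (by decide +kernel)
def c14887 : PP 9 3 T 0x40000000000000050000021000000000000000200000004000000000000000000000000000000000000000000000000000010000000000000000000000010 := rS 0xf843aceeed23addbe5fbc5fe9b9f1b49d2cc67f85c0e31f8d103df6218760194fa6d2617949dcfe7dbce3d8e092fe4a00f285b561adf55ac7dc265a454d88d379c08b037fc48421b2b9cefa0209215128b2d3c4d26756abd2efd0ea5553b2078ec3e237b9249e0b1bbd48e4da5174aa11219049653f6e84f691bd834d789 (k8 c5527 c5523 c5522 c5375 c5374 c5372 c14829 c14789 (k8 c5563 c5342 c5340 c5561 c5558 c5343 c14849 c14743 (k8 c5521 c5520 c5519 c5518 c5516 c5335 c5334 c5333 (k8 c5331 c5517 c5332 c9739 c5210 c5489 c5488 c5486 (k8 c5405 c5404 c5406 c5490 c9680 c9742 c9695 c14848 (k8 c685 c1898 c683 c14851 c14862 c9704 c9716 c9757 (k8 c1109 c265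 c14865 c2570 c14866 c9612 c14312 c65 (k8 c753 c755 c4973 c756 c2868 c5673 c14204 c14841 (k8 c4679 c5509 c5585 c5587 c3581 c14880 c14882 c5439 (k8 c5438 c5357 c5443 c5359 c5442 c5358 c5356 c6200 (k8 c1107 c261 c2492 c14883 c380 c5648 c5445 c14726 (k8 c14615 c751 c682 c441 c14884 c14885 c5460 c1652 (k8 c10805 c4770 c2077 c5579 c14878 c14886 c5635 c8101 (k8 c8870 c9777 c3064 c5243 c5693 c6201 c3113 c5167 (k1 c5515 k0))))))))))))))) (by decide +kernel)
def c14888 : PP 9 3 T 0x80000000000000000000120000000000000000200000000000200000000000000000000000000000000000000000000000000004001400440000000004400 := rS 0x63825007d3fb780e3f1c904967b3cb8dc21289835228f (k8 c5526 c5374 c5522 c5547 c12876 c5591 c5549 c5524 (k8 c5372 c5342 c5340 c5317 c5318 c5432 c14209 c2917 (k4 c2829 c9121 c1744 c940 (k1 c3568 k0)))) (by decide +kernel)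
def c14889 : PP 9 3 T 0x80000000000000000000121000000000000000200080000000000000000000000000000000000000000000000040000000000020000000000000000000000 := rS 0x3fc8af346bdc92f52390e3a4b06a3e0701 (k8 c5592 c5550 c5526 c5522 c5342 c5341 c5561 c5520 (k8 c5519 c5334 c5333 c2169 c282 c285 c11835 c3593 k0)) (by decide +kernel)
def c14890 : PP 9 3 T 0x80000000000000000000121040000000000000200080004000100000000000000000000000000000000000000000000080010080000000000000000000002 := rS 0xde3e0fc725e041fd8a63ef6c0ce974aec876491b91c7a4125834f28f71c0dc28b349dd1243 (k8 c5561 c1898 c14727 c9742 c855 c5591 c5550 c5549 (k8 c5526 c5524 c5522 c5342 c5340 c5560 c5520 c5518 (k8 c5334 c5332 c5210 c5488 c5404 c9680 c5209 c5214 (k8 c5395 c5451 c806 c14800 c14738 c273 c276 c1315 (k2 c3590 c2829 k0))))) (by decide +kernel)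
def c14891 : PP 9 3 T 0x80000000000000000000000000100000000000000000000000010000000000054000000400150000000000004000001000002 := rS 0x324c263 (k4 c5355 c662 c10198 c14285 k0) (by decide +kernel)
def c14892 : PP 9 3 T 0x1000000000000002000121000000000000000000080004000000000000040000000000000040000000000000050040401010480004011000000000000000 := rS 0x310d2674bbf553b21d9246e47069acf28f (k8 c5526 c5524 c5523 c5522 c5520 c5518 c5334 c5332 (k8 c5210 c5489 c5405 c5404 c9680 c9742 c14738 c13983 k0)) (by decide +kernel)
def c14893 : PP 9 3 T 0x1000000080000000000000000000004000100000000000000000000000000000008000050000000400050080000000210000011000002 := rS 0x64779341749314d233 (k8 c2041 c9742 c682 c14891 c55 c325 c11149 c1189 (k1 c5494 k0)) (by decide +kernel)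
def c14894 : PP 9 3 T 0x1000000080000000000000000000004000100000000000000000000000000000008000050000000400050080000000600000011000002 := rS 0x9c493302e34 (k4 c14893 c1619 c440 c5648 (k2 c2076 c1694 k0)) (by decide +kernel)
def c14895 : PP 9 3 T 0x1000000080000000000000000000000000100000000000001000000000000000000000054000000400150080000000000000001000002 := rS 0x310c233 (k4 c2041 c662 c14891 c10463 k0) (by decide +kernel)
def c14896 : PP 9 3 T 0x50000021000000000000000200000004000000000000000000000000000000000000000000000000000010000000000000000000000014 := rS 0x3bed7643553c9a66b2d3a924cf85bc39d88fd43e331b1cbe7f698cf25ef552310a892d164ef29459c8da5700065e26933a5dfa1d4aaa7640f1d924163723d28ba250890c7a4125fb743114383626e381b8603f2 (k8 c14887 c5592 c5591 c5550 c5549 c5547 c5522 c5373 (k8 c5371 c14829 c14789 c5342 c5340 c5560 c5561 c5558 (k8 c5559 c14849 c14743 c5520 c5518 c5516 c5334 c5332 (k8 c9739 c5210 c5489 c5488 c5486 c5405 c5404 c9680 (k8 c9742 c9695 c9701 c5642 c9758 c665 c11969 c855 (k8 c14888 c14727 c14889 c5644 c1898 c683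 c14852 c10258 (k8 c5505 c14890 c2041 c2083 c807 c5439 c5357 c5355 (k8 c8118 c1196 c14860 c14892 c14894 c3590 c5538 c2443 (k8 c14895 c1694 c1753 c2076 c5679 c5680 c3003 c1189 (k2 c1605 c5494 (k1 c5689 k0))))))))))) (by decide +kernel)
def c14897 : PP 9 3 T 0x50000121040000000000000000000004000100000000000000000100000000001000000000080000000010020000000000000040010008 := rS 0x1fd8e063e8d58ac94fa4fbdb019865e3b20d9c0de73 (k8 c9716 c2979 c5666 c1109 c5210 c9695 c6205 c8428 (k8 c5209 c5214 c5444 c5448 c5396 c5451 c5450 c2870 (k4 c14824 c13650 c676 c14280 k0))) (by decide +kernel)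
def c14898 : PP 9 3 T 0xa000020080000000000000000000000000000000400000001000500000000000008000004000000020000000000200011000004400000 := rS 0x6f35102326698592194b8752a7b489e51e7d (k8 c5442 c5526 c5524 c5374 c5372 c5488 c5486 c5404 (k8 c5393 c5396 c5445 c2075 c3577 c751 c390 c5846 (k1 c3003 k0))) (by decide +kernel)
def c14899 : PP 9 3 T 0x50000021000000000000000200000004000000000000000000000000000000000000000000000000000010020000000000000000000010 := rS 0x3bcc86aa69aede66a7964cb4e86362311aa4c2fe33a824bf92131c1a66ff7911548a79a35fa1d4aaa43e237bbd4224314c7496b571c0dc3010944d228f0d8841a893997764f19495c05f2d091c6e0b248ee940f (k8 c9739 c14743 c5332 c5334 c5516 c5518 c5520 c14829 (k8 c14887 c14896 c9757 c14888 c9695 c5210 c14849 c9716 (k8 c14842 c5522 c265 c1109 c5526 c5374 c5547 c12876 (k8 c5592 c5591 c5550 c5549 c5548 c5342 c5341 c5339 (k8 c5561 c5558 c5519 c5333 c5331 c5517 c5489 c5488 (k8 c5486 c5405 c2169 c282 c14889 c3581 c12649 c5583 (k8 c2979 c4888 c5666 c2868 c14897 c5439 c5438 c5440 (k8 c8118 c1107 c261 c280 c1945 c14898 c5648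 c1273 (k8 c1320 c12234 c380 c2076 c11943 c1605 c2885 c3003 (k2 c1189 c5689 (k1 c5494 k0))))))))))) (by decide +kernel)
def c14900 : PP 9 3 T 0x50000021000000000000000200000004000000000000000000000000000000000000000000000000000010000000000000000000000010 := rS 0xb3139c5188545968b289109cc041280c5606b589fc9e3b23383c3e232482c8f4a2e894524bd0a441a8f (k8 c5526 c5522 c5374 c14829 c5342 c5339 c5559 c14849 (k8 c14743 c5520 c5516 c5334 c5331 c5517 c9739 c9680 (k8 c5210 c9695 c14887 c5547 c5548 c5550 c5590 c5592 (k8 c12876 c14896 c9716 c265 c14842 c14899 c5644 c2977 (k4 c683 c14852 c753 c268 (k2 c8280 c3584 k0)))))) (by decide +kernel)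
def c14901 : PP 9 3 T 0x41000000000000000000000000000000000000000000000000000000100040000000000000000001440000001480000055400000001200000000000000000 := rS 0x45626fe (k4 c9612 c859 c3010 c3604 k0) (by decide +kernel)
def c14902 : PP 9 3 T 0x90000120000000000000000200080000000200000000000000000040000000000000000000000000000000000000000000000201084002 := rS 0x13ae03138cbe613fa6f27b10b81c7e391d9241637238f4524125c453e57 (k8 c9758 c5572 c5371 c5342 c5340 c5339 c5560 c5520 (k8 c5518 c5516 c5334 c5332 c5317 c5318 c5432 c5433 (k8 c14052 c13294 c2490 c2917 c661 c1054 c14867 c5663 (k2 c5985 c1274 (k1 c13096 k0))))) (by decide +kernel)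
def c14903 : PP 9 3 T 0x80000101040000000000000000000004000100000000080054000000000000000000000001080000000000100000200440000000091000 := rS 0xd11cb84107e189f503e366b559e3562f7867b2 (k8 c5210 c8428 c5214 c5451 c5450 c5453 c5454 c5495 (k8 c6601 c856 c2980 c14286 c5670 c2918 c3058 c273 (k2 c2202 c3587 k0))) (by decide +kernel)
def c14904 : PP 9 3 T 0x1000020000000000000000000080000000100000000000000000000000040000000001004000000000004400000000000000001000002 := rS 0x130160f8de227b359e4da0b (k8 c5516 c665 c5524 c5523 c5372 c5371 c5518 c5517 (k2 c5648 c13171 (k1 c1463 k0))) (by decide +kernel)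
def c14905 : PP 9 3 T 0x20000000000000000000080004000100000000010004000800001440001000000010000000000004400004000011000011000002 := rS 0x677786617496c53ad14d8e476f71bbd6227b359e4da0b (k8 c5516 c665 c5524 c5523 c5372 c5371 c5519 c5518 (k8 c5333 c5332 c2617 c2621 c1780 c1777 c10556 c14904 (k4 c55 c322 c11149 c3587 (k1 c5453 k0)))) (by decide +kernel)
def c14906 : PP 9 3 T 0x1000000000000002000020000000000000000000000000000000000000001000000000000040000001000050000000501154400000000000000000000000 := rS 0x314d679 (k4 c5524 c5523 c13983 c10013 k0) (by decide +kernel)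
def c14907 : PP 9 3 T 0x1000000000000011000020080000000000000000080000000100000000000000000000011000000000000054000000000150000000000000000001000002 := rS 0xf0a67be9c0b26cc21f1b97d8e63 (k8 c5355 c5357 c5439 c5518 c5517 c662 c6036 c5648 (k4 c14904 c14615 c1463 c5458 (k1 c11160 k0))) (by decide +kernel)
def c14908 : PP 9 3 T 0x1000000000000099000020080000000000000000080004000100000800080004000500001000000000000000000000000050000000000011000001000002 := rS 0x3c3e31c778661749344d2970ea5476f71bbd58ecf (k8 c2633 c5357 c5519 c5518 c5333 c5332 c5488 c5486 (k8 c5404 c9742 c2202 c14907 c55 c322 c11149 c3587 (k2 c6601 c5534 (k1 c8617 k0)))) (by decide +kernel)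
def c14909 : PP 9 3 T 0x288000000000000000000000200000000000100000000000000000005000100000000000008000100004000000000000000000000000084 := rS 0xc6e064b27d56a184c1f2eb6ce2dc3df6eea35f894225338af70a73 (k8 c5419 c5423 c5575 c5571 c5563 c5558 c5559 c5431 (k8 c5614 c5613 c5427 c5429 c5612 c13448 c1571 c6451 (k8 c328 c5656 c1792 c1793 c964 c711 c3183 c3190 (k1 c3606 k0)))) (by decide +kernel)
def c14910 : PP 9 3 T 0x11000000000111000120001000000000000200080000000100400000000000000000000000000000000000000000000000000000000000000000084000 := rS 0x934824bf7c5e97572328fd2cc492782c8e4d2a92ca77b (k8 c5375 c5563 c5342 c5343 c5521 c5520 c5516 c5335 (k8 c5334 c5227 c5199 c5350 c5351 c5600 c6201 c5553 (k4 c8101 c3094 c8098 c5677 (k1 c3466 k0)))) (by decide +kernel)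
def c14911 : PP 9 3 T 0x45001800000000111000120081000000000000200080000000100400040000000010000000000000000000000000100000000000000004015000000084000 := rS 0xf8693eff5b3badbba9f21547a41299eef789c7de4fa7f (k8 c5358 c5442 c5359 c5443 c5527 c5375 c5372 c5563 (k8 c5340 c5560 c5343 c14910 c5469 c5471 c5623 c9321 (k4 c8870 c9954 c5213 c5208 (k1 c9516 k0)))) (by decide +kernel)
def c14912 : PP 9 3 T 0x40000000000000010000021000000000000000200000004000000000000000000000000000000000000000000000000000010040000000000000000000014 := rS 0x82c1e8f09d7d99f50a7ceaf4b8cdcba534064e981b2c96da4bbcc519f8d023ff0b8362cf718c59a353a98d8e092fe4a52776fc48408455bfe050f092291301f7911e68d0d961e26933abd2efd0ea5553b28f83c761f11bdc924f1bbd49a5d088a63a4b29fb743113da1d220d35a0d1f8938acd3ecb139cd62b5db064da0ba51bc0025 (k8 c5559 c5642 c1060 c14743 c5516 c665 c9701 c14900 (k8 c5422 c5421 c5419 c5570 c5420 c5572 c5574 c5571 (k8 c5527 c5526 c5525 c5523 c5522 c5374 c5373 c5372 (k8 c5371 c14829 c14789 c5563 c5342 c5341 c5339 c5558 (k8 c14849 c5521 c5519 c5518 c5335 c5334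 c5333 c5331 (k8 c5517 c5332 c9739 c9713 c5210 c5489 c5488 c5486 (k8 c5405 c5404 c5406 c9680 c9742 c9695 c5644 c1943 (k8 c2169 c282 c14226 c14401 c3067 c2834 c14205 c284 (k8 c5026 c14901 c211 c2199 c9248 c3581 c2629 c4681 (k8 c3875 c14902 c14903 c5439 c5438 c5357 c5355 c5440 (k8 c280 c2502 c1945 c14905 c2633 c14906 c14908 c5460 (k8 c3056 c1716 c7311 c12046 c10805 c5204 c14891 c5455 (k8 c5494 c5497 c14615 c1694 c661 c13096 c4768 c14909 (k8 c14911 c5611 c3190 c3372 c2984 c2985 c5213 c1952 (k4 c2680 c287 c3447 c3250 (k1 c8896 k0)))))))))))))))) (by decide +kernel)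
def c14913 : PP 9 3 T 0x40000000000000010000021000000000000000200000004000000000000000000000000000000000000000000000000000010000000000000000000000014 := rS 0x89c55fd01f7aa918852d1bcda003499d5aaf7eaa7640ba5094224388a1d220d35a3ce2b339ac56bb6 (k8 c14900 c5422 c5421 c5419 c5574 c5571 c5526 c5523 (k8 c5522 c5374 c5373 c5371 c5561 c5558 c5559 c14743 (k8 c5516 c5210 c5489 c5405 c5406 c5490 c9680 c9742 (k8 c5642 c665 c1060 c14912 c683 c14585 c10258 c5505 (k4 c2141 c6368 c3010 c2570 (k1 c3604 k0)))))) (by decide +kernel)
def c14914 : PP 9 3 T 0x40000000000000010000021000000000000000200000004000000000000000000000000000000000000000000000000000010000000000000000000000010 := rS 0xf355c09ff018a7bc88210d809e2af7e87553b20f88dee497a91e94251492fda0d5989d63b6 (k8 c14900 c5421 c5570 c5574 c5522 c14789 c5342 c5339 (k8 c5559 c14743 c5520 c5519 c5334 c5333 c5331 c5517 (k8 c5210 c5489 c5486 c5405 c5406 c9695 c14913 c1109 (k8 c265 c14226 c14401 c8534 c3066 c3010 c9612 c6368 (k2 c2627 c3581 k0))))) (by decide +kernel)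
def c14915 : PP 9 3 T 0x10000021000000000000000200000004000000000000000000000000000000000000000000000000000010000000000000000000000010 := rS 0x1bcda00018822b13f92d4e627599c76c8f3583523110f88c920b23d284a29 (k8 c5339 c5559 c14743 c5520 c5516 c5334 c5331 c5517 (k8 c5371 c5374 c5522 c5523 c5526 c14900 c5571 c5574 (k8 c5570 c5419 c5422 c14914 c5547 c5590 c8140 c265 (k4 c5642 c665 c1060 c3604 k0)))) (by decide +kernel)
def c14916 : PP 9 3 T 0x1005000000000040000111040000000000000000000004000200000000000000000000000000000000000000000000000010500000000000000000000000 := rS 0x168e8593bb14c7ded83c4d2674ba576431 (k8 c5434 c5210 c5488 c5404 c9680 c9742 c9695 c5236 (k8 c5185 c5395 c5451 c5493 c14745 c10013 c5644 c1894 k0)) (by decide +kernel)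
def c14917 : PP 9 3 T 0x50000001000000000000000200000004000200000000000000000000000000000000000000000000000010000000000000000000000014 := rS 0x888d7fa09e6cc68a8537dfd89d4ee63c9787c65f30b782e071f8e4ce974aaa7643b7b9246ef52397486418e92e07ed0cc40d61fa538e03f2cea2ce425000474269 (k8 c9742 c14829 c5558 c5642 c5559 c11969 c855 c14915 (k8 c5241 c5592 c5549 c14743 c5517 c1058 c8158 c9701 (k8 c14789 c11700 c5342 c5341 c5340 c5561 c14849 c5520 (k8 c5519 c5518 c5334 c5333 c5332 c5210 c5489 c5488 (k8 c5404 c9680 c5317 c5318 c5432 c5433 c14209 c661 (k8 c1054 c5580 c5538 c14916 c5355 c5356 c5440 c14670 (k8 c14615 c1187 c1196 c9572 c11606 c2500 c12000 c11999 (k2 c2175 c3593 (k1 c14205 k0))))))))) (by decide +kernel)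
def c14918 : PP 9 3 T 0x50000001000000000000000200000004000000000000000000000000000000000000000000000000000010040000000000000000000012 := rS 0x7faade6450da08b08778aa764f724bd48e5d218a63a4bf6a16206b0fd296b01f96751672128474269 (k8 c9742 c14829 c5558 c5559 c11969 c855 c14915 c5241 (k8 c5592 c5548 c14743 c5517 c1058 c8158 c845 c14789 (k8 c5342 c5341 c5339 c5561 c14849 c5520 c5519 c5334 (k8 c5333 c5210 c5489 c9695 c11253 c5644 c5672 c1943 (k4 c285 c283 c1973 c11999 (k1 c14685 k0)))))) (by decide +kernel)
def c14919 : PP 9 3 T 0x101040000000000000200080004000100000200000000000500000000000000000000000000080010080000000000000000000002 := rS 0xfbe36f0e47e81041fd8ec531f7b606933a5d2bb21d9246e471e9049677 (k8 c14727 c5342 c5340 c5560 c5520 c5518 c5334 c5332 (k8 c5210 c5488 c5404 c9680 c9742 c5209 c5214 c5395 (k8 c5451 c796 c806 c14800 c1744 c276 c274 c3590 (k2 c5580 c2830 (k1 c5670 k0))))) (by decide +kernel)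
def c14920 : PP 9 3 T 0x111080000000000000200080000000000000000000000000540008000000000000000008000000000000000000120000000000000 := rS 0x451f7b876491b91c224b (k8 c5342 c5558 c5520 c5518 c5334 c5332 c12662 c12667 (k2 c5582 c441 k0)) (by decide +kernel)
def c14921 : PP 9 3 T 0x111080000000000000200080000000000000000000000000500001020000000000000048000000000080000000000000000000000 := rS 0x3de8d7f355bc39670d11243 (k8 c5561 c1898 c682 c899 c440 c14920 c3003 c2564 (k2 c948 c5586 (k1 c5673 k0))) (by decide +kernel)
def c14922 : PP 9 3 T 0x50000001000000000000000200000004000000000000000000000000000000000000000000000000000010000000000000000000000014 := rS 0x27fc6de1f8e597b149315429b318259a33c9219065a3bca516e1719cbe4674ba57643b248ddea47128447a4125fb7421942c40d61fa56740069 (k8 c9742 c5642 c14915 c14743 c5517 c1058 c8158 c845 (k8 c9701 c14829 c14789 c5342 c5340 c5560 c5558 c5559 (k8 c5520 c5519 c5518 c5334 c5332 c5210 c5488 c5404 (k8 c9680 c5241 c11969 c5549 c5591 c855 c14917 c14727 (k8 c14918 c1896 c5672 c14919 c2041 c12000 c5438 c5355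 (k8 c1187 c1196 c14921 c14891 c14800 c1753 c325 c327 (k4 c3590 c5580 c2885 c5680 k0))))))) (by decide +kernel)
def c14923 : PP 9 3 T 0x8000000000000080000001000000000000000200000004000000000000000000000000000000000000000000000000014010100000000000000000000000 := rS 0xb25b0d235e26933ab55fb2128448627 (k8 c5570 c5561 c5558 c5559 c5210 c5406 c5490 c9680 (k4 c9742 c9695 c5505 c14401 (k2 c14585 c1943 (k1 c5644 k0)))) (by decide +kernel)
def c14924 : PP 9 3 T 0x90000000000000000000000200080000000200001000000000000500000000000000000000000000000000000000000000000201000000 := rS 0xa149a7136ded885c7e391d9248e251e8a4824b59a7d9627 (k8 c5570 c5420 c5572 c5574 c5342 c5340 c5339 c5560 (k8 c5559 c5520 c5334 c5332 c5317 c5318 c5433 c14052 (k4 c5985 c2490 c13097 c1694 (k2 c1277 c3579 k0)))) (by decide +kernel)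
def c14925 : PP 9 3 T 0x90000111040000000000000000000004000100000000000054000000000000000000000000884000001400100000200000000000090000 := rS 0xd1041e0fc313ea07c6d5678d58a63ef6c36477 (k8 c14727 c5210 c5209 c5214 c5395 c5451 c5450 c5453 (k8 c5454 c6601 c856 c2980 c14286 c5670 c2924 c2918 (k2 c1540 c13685 k0))) (by decide +kernel)
def c14926 : PP 9 3 T 0x2000100080000000000000200000004000100000000000001000000000400000150000050000000054050020000000000004010000000 := rS 0xefa00c2691497c127d3f98c6275 (k8 c5440 c1945 c5355 c5358 c5442 c5438 c5439 c5339 (k4 c9742 c5445 c13195 c14615 (k1 c14728 k0))) (by decide +kernel)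
def c14927 : PP 9 3 T 0x400000000089000000000000000000000200000004000100000000000001000000000000000000000000000050014014420000000001000001000110 := rS 0x7899261408595aaf0ea544a431e8a63acb13ac43635 (k8 c280 c1943 c5421 c5570 c5420 c5341 c5339 c5560 (k8 c5561 c5559 c5488 c5486 c5406 c5490 c11149 c14728 (k4 c1460 c1064 c9210 c10016 k0))) (by decide +kernel)
def c14928 : PP 9 3 T 0x10000001000000000000000200000004000000000000000000000000000000000000000000000000000010040000000000000000000014 := rS 0x668e5243362f7b62d118a6d9e353a98cfe793e824bf924704914fe222ade61b411610ef133ab55e977e8752aa9d90edee377ac0cda0b42c40d669659cd63013bca4402759ad43e491488c8ee18ab8fe5ef38844de001297743edceed8334a (k8 c14743 c9701 c14922 c14915 c14789 c14829 c14849 c5559 (k8 c5642 c1060 c5558 c667 c14923 c5191 c5549 c5590 (k8 c5591 c5520 c5331 c5339 c5334 c5517 c5422 c5574 (k8 c5570 c8140 c14924 c14727 c5592 c5421 c5419 c5420 (k8 c9742 c1058 c8158 c845 c5516 c665 c11700 c5519 (k8 c5518 c5333 c5332 c5210 c5489 c5488 c5486 c5405 (k8 c5404 c5406 c5490 c9680 c9695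 c11253 c5644 c5672 (k8 c1943 c283 c1973 c14226 c9179 c285 c284 c2396 (k8 c14925 c5439 c5438 c5442 c5441 c5358 c5355 c5440 (k8 c280 c11551 c1187 c1945 c9572 c14926 c14927 c5451 (k4 c5492 c14891 c325 c5495 (k1 c3587 k0)))))))))))) (by decide +kernel)
def c14929 : PP 9 3 T 0x1000000000000090000111040000000000000000080004000100000000000000000400000000000000000000000040000010080004011000000000000002 := rS 0x3e0fd02086b78d8a6350f7b606933ab55e974aec99677 (k8 c14727 c5420 c5210 c5488 c5404 c5406 c5490 c9680 (k8 c9742 c5209 c5214 c5398 c5395 c5451 c6601 c9031 (k4 c14800 c1744 c276 c5670 (k1 c14020 k0)))) (by decide +kernel)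
def c14930 : PP 9 3 T 0x10000001000000000000000200000004000000000000000000000000000000000000000000000000000010000000000000000000000014 := rS 0xdf1f8e53a92d8a6d8a753197f247f66a18668c41a2cb47794881c31571fcbdeb513acf6c85881c4de6b00064d26756abd2e95d90ec3e23248ddea47a51744a11218f4524125fb7439d (k8 c14915 c14829 c14789 c5342 c5340 c5339 c5560 c5561 (k8 c5558 c5559 c14849 c14743 c5520 c5519 c5518 c5334 (k8 c5331 c5517 c5332 c5210 c5488 c5404 c5406 c5490 (k8 c9680 c9742 c9701 c5642 c1058 c1060 c667 c8158 (k8 c845 c14922 c5574 c5570 c5422 c14923 c5191 c5549 (k8 c5590 c5591 c8140 c14924 c14727 c14928 c685 c1896 (k8 c14585 c2041 c5672 c12000 c807 c14929 c5439 c5355 (k8 c5440 c14921 c1187 c10013 c14891 c1694 c325 c326 (k2 c13097 c3590 k0))))))))) (by decide +kernel)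
def c14931 : PP 9 3 T 0x1005000000000048000111040000000000000000000000000200000000000000000000000000000000000000000000000000000000000000000004000000 := rS 0x34ef6c1e2970ea543231 (k8 c5434 c5315 c5488 c5486 c5404 c9695 c5236 c5185 (k2 c5974 c5450 k0)) (by decide +kernel)
def c14932 : PP 9 3 T 0x49000111080000000000000000080000000000000100000000000080000200000000000004080000040010000000000100000004000000 := rS 0x3cd56cc109b5a89a6ba794270699bfdef156bf43aa90f88deef5f1b1cffdf (k8 c5494 c5358 c5357 c5580 c5519 c5333 c5331 c5517 (k8 c5489 c5486 c5405 c5490 c9695 c5583 c2979 c2938 (k8 c5666 c2929 c11623 c2190 c2885 c5689 c2492 c2491 (k4 c3003 c9859 c2500 c3581 k0)))) (by decide +kernel)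
def c14933 : PP 9 3 T 0x49000111080000000000000000080000000200100000000000000080000000000000000000010000000010020000000000000000000008 := rS 0xe04545b206a8d789ce22570d86466390385d2609 (k8 c5438 c261 c5433 c5432 c5317 c5316 c5315 c1109 (k8 c9757 c9729 c9716 c9695 c2169 c280 c14824 c14932 (k2 c285 c14312 (k1 c14329 k0)))) (by decide +kernel)
def c14934 : PP 9 3 T 0x40000000000000000000000200080000000000001000000000000000000000001000000000000000010800000000000000000100000008 := rS 0x5989c3e232491c4a29 (k8 c5339 c5559 c5520 c5334 c5331 c5517 c268 c2378 (k1 c12753 k0)) (by decide +kernel)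
def c14935 : PP 9 3 T 0x50000001000000000000000200000004000200000000000000000000000000000000000000000000000010000000000000000000000010 := rS 0x1ae8d3832d349d4c9a842d536b350cc541a15165a3b96527b13a824bf92f0f8dbc17038fc721933ab4761f1192416377a91e94111e9063a4bf6c4436893997405b278ad5c71570fcb439d (k8 c14915 c14829 c5241 c5591 c5590 c5549 c5548 c9695 (k8 c5210 c14930 c14849 c9716 c14842 c1109 c9729 c14789 (k8 c5342 c5341 c5340 c5560 c5558 c14743 c5520 c5519 (k8 c5518 c5516 c5334 c5331 c5517 c5332 c5490 c9680 (k8 c5315 c5317 c5318 c5432 c5433 c5985 c5580 c5538 (k8 c14931 c5439 c5438 c5440 c14372 c261 c14933 c5356 (k8 c5644 c685 c683 c1896 c681 c5672 c12000 c744 (k8 c3003 c266 c5665 c4614 c1135 c3578 c1326 c14934 (k2 c753 c13349 (k1 c11722 k0)))))))))) (by decide +kernel)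
def c14936 : PP 9 3 T 0x8000010040000000000000000080000000000000000000001000000000050000000000000000000000011020000000200000000000088 := rS 0x1e6ab429b4427af0bf43aa90f88deef58886cf237 (k8 c5518 c1454 c1109 c9729 c5519 c5333 c5331 c5517 (k8 c5489 c5486 c5405 c5534 c8203 c13817 c742 c847 (k2 c9859 c283 (k1 c3581 k0)))) (by decide +kernel)
def c14937 : PP 9 3 T 0x48000100000000000000000000000000000000000000000001000000000010000000000000000200000011020000000000000000000008 := rS 0x2222ce273 (k4 c9716 c751 c856 c14312 (k1 c285 k0)) (by decide +kernel)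
def c14938 : PP 9 3 T 0x58000110040000000000000200080000000000000000000001000000000110000000000004000000000011020000000014000000000008 := rS 0x6ff8902393fb1cfa061d87c9237238447a410db87e419 (k8 c6205 c5241 c5591 c1109 c5340 c5560 c5558 c5520 (k8 c5518 c5334 c5517 c5332 c14824 c1456 c13650 c676 (k4 c14936 c14937 c5670 c5580 (k1 c11685 k0)))) (by decide +kernel)
def c14939 : PP 9 3 T 0x50000001040000000000000200000004000000000000000000000000000000000000000000000000000010000000000000000000000010 := rS 0x2e083d81c247e1335d63ee469c0d42136a19068545968b2d51ab14c2c950a4fbdb019864ce0b7ad284a11f6c4436893997405b278ad52315f96873b29 (k8 c14935 c14915 c14829 c5241 c5590 c5589 c5548 c9695 (k8 c5210 c14930 c14849 c9716 c14842 c1109 c9729 c14789 (k8 c5558 c5559 c14743 c5519 c5516 c9680 c6205 c8428 (k8 c5209 c5214 c5444 c5398 c5396 c5445 c5451 c5450 (k8 c5454 c14938 c5644 c685 c683 c1896 c5672 c744 (k8 c266 c5665 c14934 c753 c5673 c14204 c5507 c14401 (k4 c14872 c267 c676 c891 (k2 c2918 c1108 (k1 c13641 k0))))))))) (by decide +kernel)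
def c14940 : PP 9 3 T 0x400000000000540000040000000000001000151020001000000000000000200000018 := rS 0x3da3cd86b (k4 c2372 c266 c2875 c742 (k1 c3610 k0)) (by decide +kernel)
def c14941 : PP 9 3 T 0x400000000000540000040000000000001000151006001000000000000000000000000 := rS 0xf68f (k2 c2433 c742 (k1 c3610 k0)) (by decide +kernel)
def c14942 : PP 9 3 T 0x1000000000000058000111000000000000000000000000000000000000000050000040400040000000000000084051000011000000000000000440000018 := rS 0x104f2352acda2138204def17e875525d39c44371371a45c3f2 (k8 c5241 c5591 c5589 c5549 c5547 c1109 c9729 c9716 (k8 c14849 c5489 c5486 c5405 c9695 c2979 c857 c5666 (k4 c14940 c14941 c9859 c5665 (k2 c3581 c11575 (k1 c2391 k0))))) (by decide +kernel)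
def c14943 : PP 9 3 T 0x1000000000000058000111000000000000000000000000000000000000000050000040400040000000000000104051000011020005440000000440000018 := rS 0x1acda83409bde470f711516fd81c4512732ebc626e348b8603f2 (k8 c5241 c5592 c5591 c5589 c5549 c5547 c9695 c14849 (k8 c9716 c14842 c9729 c11700 c5405 c14942 c285 c5673 (k8 c14312 c5996 c65 c751 c2391 c14941 c11575 c5665 k0))) (by decide +kernel)
def c14944 : PP 9 3 T 0x1001400000000008000011000000000000000000080000000000000000000000000000004100000000000000000000400010000000000008000000000008 := rS 0x101b55682663cde2fd0eaa43e237a86da2f7 (k8 c5333 c2129 c1109 c5519 c5331 c5517 c5489 c5486 (k8 c5405 c9695 c388 c5688 c12000 c2075 c2431 c3581 (k1 c266 k0))) (by decide +kernel)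
def c14945 : PP 9 3 T 0x52000001000000000000000200000004000000000000000000000000000000000000000000000000000010040000000000000000000010 := rS 0x1168f7f34908cef0b786435469610e1f11bdc92f523d28864bf6e751273d0b1cfa793ff7cc2d718b112e953bca4c6693a99cba410c85cbf1d64a4c13920d80b64f1 (k8 c9695 c5210 c14930 c1109 c14939 c5438 c261 c5396 (k8 c5341 c5439 c1107 c5393 c5340 c14849 c9680 c5440 (k8 c9742 c9752 c14935 c14727 c5488 c5404 c10013 c1470 (k8 c14269 c5445 c14615 c5358 c5441 c5442 c5357 c14829 (k8 c9716 c14842 c14915 c14789 c5342 c5561 c14743 c5520 (k8 c5519 c5334 c5333 c5331 c5517 c11253 c5644 c2169 (k8 c280 c5653 c14943 c5538 c14944 c11551 c2565 c2564 (k2 c2547 c2938 (k1 c11835 k0))))))))) (by decide +kernel)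
def c14946 : PP 9 3 T 0x52000001000000000000000200000004000000000000000000000000000000000000000000000000000010000000000000000000000010 := rS 0xcd4320d0a8b2d310d2674ba57640b7ad2823ed31809c6e1f96873a779497ceb92 (k8 c14939 c5440 c5439 c14935 c14727 c14915 c14829 c5241 (k8 c5591 c5549 c14930 c9752 c14789 c5558 c14743 c5519 (k8 c5516 c5210 c5488 c5404 c9680 c9742 c10013 c14945 (k4 c685 c683 c1896 c5672 (k2 c12000 c14921 k0))))) (by decide +kernel)
def c14947 : PP 9 3 T 0x400000000000540000040000000001001000151006000000000000000000000000000 := rS 0xf68f (k2 c2433 c743 (k1 c3610 k0)) (by decide +kernel)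
def c14948 : PP 9 3 T 0x1000000000000018000011000000000000000000000000000000000000000050000000000000000000000000004000001010100000000000000440000008 := rS 0x209e46a55885e2fd0eaa6221b (k8 c1109 c9729 c5489 c5486 c5405 c9695 c266 c9859 (k4 c5665 c3581 c11575 c2391 k0)) (by decide +kernel)
def c14949 : PP 9 3 T 0x41000100000000000000000000000000000000000400000000000500000440000000001001000051046000000000000000000000000000 := rS 0x27fc6de40a84e09b (k8 c2492 c5666 c2929 c752 c14947 c5580 c2885 c5680 k0) (by decide +kernel)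
def c14950 : PP 9 3 T 0x1000000000000051000111000000000000000000000004000000000000000000000000000440000000001000000051000010040000000000000000000018 := rS 0x44459c4dc6c2c21de3b20f88deef5a5174e71371a45c3f2 (k8 c5241 c5591 c5589 c5549 c5547 c9716 c14849 c14743 (k8 c5519 c5333 c5331 c5517 c5210 c9695 c11253 c5644 (k4 c14948 c14949 c65 c2979 (k2 c14312 c285 k0)))) (by decide +kernel)
def c14951 : PP 9 3 T 0x50000001000000000000000200000004000000000000000000000000000000000000000000000000000010000000000000000000000010 := rS 0x1a7ee6ba05428d381a8426d43315068545969969d1a86362930b9d4fe793eb1c125fc91de53155aa27e4f133ab7642305bd6945d088a7dba1ce9ce2202 (k8 c14930 c9729 c9716 c14915 c14829 c14789 c5339 c5558 (k8 c14849 c14743 c5519 c5516 c5331 c5210 c5490 c9680 (k8 c9695 c5241 c14842 c5548 c5590 c14935 c14727 c14939 (k8 c5439 c5438 c5357 c5442 c5441 c5358 c5440 c1107 (k8 c261 c14946 c5648 c437 c1273 c1320 c14950 c685 (k8 c683 c1896 c682 c5672 c744 c266 c5665 c14934 (k4 c753 c2929 c752 c13349 (k2 c5673 c14519 (k1 c5861 k0))))))))) (by decide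 +kernel)
def c14952 : PP 9 3 T 0x80000000000000090000011040000000000000200080004000000000000000000000000000000000000000000000000000000020000000000000004000008 := rS 0x31cf27b030d7c29930b2527ded84a4661978ec9c715709b0402513acd6a1f248a44647 (k8 c5520 c5331 c5339 c5334 c5517 c5422 c5574 c5570 (k8 c5559 c8140 c266 c5591 c5590 c5549 c5210 c9695 (k8 c6205 c8428 c14924 c5209 c5214 c5444 c5396 c5445 (k8 c5447 c7694 c5450 c14824 c742 c2428 c13650 c5669 k0)))) (by decide +kernel)
def c14953 : PP 9 3 T 0x82000100080000000000000200000004000000000000000001000000000000000050000050000000044050020000000000000010000000 := rS 0x4a4322938b2c4eb1 (k8 c5421 c5570 c5420 c5571 c5339 c5393 c14052 c14926 k0) (by decide +kernel)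
def c14954 : PP 9 3 T 0x91000000000000000000000200080000000000001000000000000500000000000000000004000000000000000000000000000201400000 := rS 0x129 (k2 c14924 c5648 k0) (by decide +kernel)
def c14955 : PP 9 3 T 0x10000001000000000000000200000004000000000000000000000000000000000000000000000000000010000000000000000000000010 := rS 0x3bcc44037d3b290c6c462930b9d4fe793eb1c125fc91bd14584221d368336030d62070c5522e389fcbde445aac44eb3db06e22730167742f133ab55e970ea5553b20f88c9247a509453ed (k8 c14789 c5339 c5559 c14743 c5520 c5334 c5331 c5517 (k8 c5210 c5489 c5488 c5486 c5404 c5406 c5490 c9680 (k8 c9695 c14829 c14915 c14930 c9716 c9729 c1109 c14951 (k8 c5574 c5570 c5421 c5422 c14226 c14401 c5191 c5547 (k8 c5549 c5589 c5590 c5591 c8140 c2372 c265 c266 (k8 c8722 c4660 c744 c5672 c2541 c285 c2979 c14952 (k8 c5439 c5438 c5357 c5442 c5441 c5358 c5440 c1107 (k8 c261 c1945 c14953 c14954 c5315 c1273 c13097 c14947 (k2 c856 c14728 (k1 c5451 k0)))))))))) (by decide +kernel)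
def c14956 : PP 9 3 T 0x20000021000000000000000000000004000000000000000000000000000000000000000000000000000010000000000000000000000010 := rS 0x1e61b2c16d080d43bc4d2677e87553b20f88dee0b7ad28bb11 (k8 c5411 c14849 c14743 c5519 c5516 c5333 c5331 c5517 (k8 c5210 c5489 c5486 c5405 c9680 c9742 c9695 c5373 (k4 c5522 c14584 c683 c5644 (k2 c1943 c282 (k1 c5816 k0))))) (by decide +kernel)
def c14957 : PP 9 3 T 0x201000000000000000200000004000000000000000000000000020000000000000000080000000010000000000000000000000012 := rS 0x206fff9bca02b40da44b05bf7bc5fa1d54ec846f77a97497ed59ed0e66b0fd28e211 (k8 c5558 c667 c14743 c5517 c1058 c5379 c14955 c5532 (k8 c14789 c5342 c14849 c5519 c5333 c5331 c5210 c5489 (k8 c5486 c5405 c9695 c5583 c685 c5644 c9793 c1943 (k4 c13067 c3068 c5816 c5548 (k2 c2572 c2627 (k1 c5694 k0)))))) (by decide +kernel)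
def c14958 : PP 9 3 T 0x201000000000000000200000004000000000000000000000000020000000000000000000000000010040000000000000000000012 := rS 0x1037ffcde4b40da44b0f17e87552237bbd4ba4bf6aad67b43587e94b045a251a73379c4226933abd5bb2 (k8 c5210 c5490 c5406 c9680 c9742 c5558 c667 c5565 (k8 c5379 c5381 c5567 c14957 c3602 c14743 c5517 c1058 (k8 c14955 c5532 c5413 c14789 c5342 c14849 c5519 c5333 (k8 c5331 c5489 c5486 c5405 c9695 c5644 c9793 c1943 (k4 c13067 c5816 c5548 c2572 (k2 c2627 c14602 k0)))))) (by decide +kernel)
def c14959 : PP 9 3 T 0x2000201040000000000000200000004000000000000000000000000000000000000000000000000000010000000000000000000000012 := rS 0x3858e7b4302106852d38e02b045b418bde3bca4d26756abd2efd4aaa7643b05bd622abceed0e68d379f5126b0fd28e211 (k8 c5558 c667 c14743 c5517 c1058 c5567 c5566 c5565 (k8 c5381 c5379 c14955 c14956 c5413 c5411 c5519 c5516 (k8 c5332 c5210 c5489 c5488 c5405 c5404 c5406 c5490 (k8 c9680 c9742 c9578 c14727 c5214 c5451 c13565 c14957 (k8 c3602 c2143 c1780 c14958 c683 c1896 c14800 c8112 (k4 c1684 c798 c10249 c14807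 k0)))))) (by decide +kernel)
def c14960 : PP 9 3 T 0x1000000000000029000210040000000000000200080000000000000000000001000000000400000000000000000004000010020000000000000000000000 := rS 0x4ff8dc4a170b7c4cc781831e4450dbf43aa91d87c46f7248ddea471290c824b55c54429959edc267d478e47f28 (k8 c5209 c5318 c5317 c5568 c5566 c5564 c9399 c5532 (k8 c5530 c5528 c5414 c5413 c5342 c5340 c5561 c5559 (k8 c5520 c5519 c5518 c5334 c5333 c5331 c5517 c5332 (k8 c5489 c5486 c5405 c1943 c284 c5816 c282 c2627 (k8 c2480 c14437 c14796 c10249 c2927 c6010 c11685 c1607 (k1 c5680 k0)))))) (by decide +kernel)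
def c14961 : PP 9 3 T 0x1000001040000000000000000000000000000000000040000000800000410000200000100100000100000000000000000000000000000 := rS 0xef320ee9f6af8fded3 (k8 c2086 c5506 c5466 c1663 c1607 c10131 c9422 c5668 (k1 c5494 k0)) (by decide +kernel)
def c14962 : PP 9 3 T 0x20000200000000000000000000000000000000000000000000000080000000000000000000000000010408000000000000000000000000 := rS 0x2456ab33dc459673 (k8 c5379 c1322 c5411 c888 c5532 c2515 c2949 c13067 k0) (by decide +kernel)
def c14963 : PP 9 3 T 0x201040000000000000200000004000000000000000000000000000000000000000000000000000010000000000000000000000012 := rS 0xedde63785c0df71c0d0cb03aa0d0a8b2d165967b62988c231038fe505fd8bc4d26756abdfaa9d90ec920b7a91cba4125fb62299ceed0e68d379f5126b0fd28e211 (k8 c5558 c667 c14743 c5517 c1058 c5567 c5566 c5565 (k8 c5381 c5379 c14955 c14956 c5530 c5411 c14789 c5342 (k8 c5340 c14849 c5520 c5519 c5516 c5334 c5332 c5210 (k8 c5489 c5405 c5406 c5490 c9680 c9742 c9695 c14959 (k8 c10372 c5209 c5318 c5432 c5434 c661 c5663 c837 (k8 c888 c1322 c14960 c5644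 c685 c683 c1896 c1894 (k8 c3602 c8112 c10690 c14961 c14962 c6010 c5460 c10249 (k2 c5185 c798 (k1 c5493 k0))))))))) (by decide +kernel)
def c14964 : PP 9 3 T 0x2000201000000000000000200000004000000000000000000000000000000000000000000000000000010000000000000000000000012 := rS 0x3c90a1b68960b6e3709e994f17e87553b211bddea5d88a74dbb4409ac3f4a38844bec73c98e5392 (k8 c14963 c12891 c5355 c5441 c5357 c5439 c5558 c667 (k8 c14743 c5517 c1058 c5380 c14955 c5529 c5412 c5411 (k8 c14849 c5519 c5333 c5331 c5210 c5489 c5486 c5405 (k8 c9695 c12830 c13168 c1718 c1775 c14807 c5644 c14958 (k4 c1943 c848 c5816 c283 k0))))) (by decide +kernel)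
def c14965 : PP 9 3 T 0x22800000000000000000000000008000000010000000000000000000500010000000000000a002000000400000000000000000000000084 := rS 0x607138bbdeab50c260f975b6716aef0f7dbba8c464d88ae4dab7 (k8 c5533 c5529 c5415 c5411 c5521 c5331 c5614 c5613 (k8 c5427 c5429 c5430 c5612 c12587 c1571 c6451 c328 (k8 c5656 c1792 c1793 c3895 c3832 c3188 c3183 c3605 k0))) (by decide +kernel)
def c14966 : PP 9 3 T 0x5001000000000101000200080000400000400200080000000000000000020000000805000010000000000000080000000000000000000000000000000000 := rS 0x86fc5f1f787ba5bafbd4c97c9a42491c9a8193e371f793b9d653f3 (k8 c5549 c12891 c5440 c5356 c5359 c5443 c5569 c5383 (k8 c5380 c5521 c5520 c5334 c5213 c5227 c5391 c5388 (k8 c5609 c5471 c5472 c3119 c9459 c3609 c9458 c3492 (k1 c9460 k0)))) (by decide +kernel)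
def c14967 : PP 9 3 T 0x5001000000000029000200080000000000000200080000000000400000040000000805004110000000000008082000000102020000000004000000000006 := rS 0x6eb068ea252be6f981bbe975fad15eaedec3b36e6fe90803ffe6952a844a66b0f98e5235048c4ea06 (k8 c661 c5440 c1945 c5438 c280 c12891 c5355 c5517 (k8 c1058 c5563 c5558 c5343 c5488 c5549 c2574 c5694 (k8 c3068 c3959 c14965 c14966 c5348 c5349 c5600 c5601 (k8 c5602 c5603 c9413 c669 c1062 c5667 c862 c1204 (k4 c981 c287 c329 c1612 (k1 c3589 k0)))))) (by decide +kernel)
def c14968 : PP 9 3 T 0x20000200000000000000000000000000000000000000000000000080000400000000000000000004010400000000000000000000000000 := rS 0x48ad56673 (k4 c5379 c5532 c2515 c2949 (k1 c13067 k0)) (by decide +kernel)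
def c14969 : PP 9 3 T 0x1000000000000000200080000000000000200080000000000000000000000000540000000000000000000000004000000000000000100000000000000 := rS 0x7c9203b248dc8e81899f51e79 (k8 c5441 c5568 c5566 c5382 c5380 c5520 c5518 c5334 (k4 c5332 c5846 c10335 c5589 k0)) (by decide +kernel)
def c14970 : PP 9 3 T 0x1000010000000000000000200000004000100000000040000000200000000000000000010000000005004000000100011000011400000 := rS 0x6ba85abde (k4 c11149 c5454 c9214 c1721 (k1 c14581 k0)) (by decide +kernel)
def c14971 : PP 9 3 T 0x201000000000000000200000004000000000000000000000000000000000000000000000000000010040000000000000000000014 := rS 0x45ac5c4e16ffbfc2606cb25b6cf62f7996391985d247b66c0d08f2188d48a1b68961e26933ab55e977e8752aa9d947c46f77a974864125fb6229d559b5339dda1cd028d099bcfa890c9ac3f4a38844be09639e4c67594e4b6200 (k8 c5642 c14964 c14963 c12891 c5440 c5355 c5441 c5357 (k8 c5438 c5439 c5558 c667 c14743 c5517 c1058 c9701 (k8 c5567 c5566 c5565 c5564 c5381 c5380 c5379 c14955 (k8 c14956 c5530 c5529 c5413 c5412 c5411 c14789 c5342 (k8 c5340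 c5561 c14849 c5519 c5333 c5331 c9713 c5210 (k8 c5489 c5488 c5486 c5405 c5404 c5406 c5490 c9680 (k8 c9742 c9695 c5644 c14958 c1943 c284 c280 c1945 (k8 c5816 c283 c2627 c2501 c848 c13171 c55 c3675 (k8 c9515 c1753 c11149 c5451 c5453 c5455 c5494 c5497 (k8 c14615 c6325 c10618 c14968 c14970 c14969 c10055 c14967 (k1 c3602 k0))))))))))) (by decide +kernel)
def c14972 : PP 9 3 T 0x20000200000000000000000000000000000000000000009000000000000000000000000000040000010400000000000000000000000000 := rS 0x5aa456673 (k4 c5379 c5532 c3008 c2572 (k1 c13067 k0)) (by decide +kernel)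
def c14973 : PP 9 3 T 0x201000000000000000200000004000000000000000000000000000000000000000000000000000010000000000000000000000014 := rS 0x915afc9ff0380fbd0cb041a15165a389ac006933ab55efd54ec83e0b7ad2823ed88aad67b439a34de89 (k8 c5567 c5565 c5381 c5379 c14955 c5532 c5413 c5411 (k8 c14789 c5558 c14743 c5519 c5516 c5517 c5210 c5489 (k8 c5405 c5406 c5490 c9680 c9742 c5642 c1058 c667 (k8 c14971 c685 c683 c1896 c3602 c8112 c5506 c2143 (k4 c10690 c14972 c5694 c5548 (k2 c5589 c13067 k0)))))) (by decide +kernel)
def c14974 : PP 9 3 T 0x201000000000000000200000004000000000000000000000000000000000000000000000000000010000000000000000000000010 := rS 0x447ffce06b47909c360209bc5fa1d54ec83e237b925ea471290c524bf6aae2a2159edf694a (k8 c14743 c14955 c9399 c5532 c5528 c5414 c5413 c14789 (k8 c5342 c5339 c5561 c5559 c5520 c5519 c5334 c5333 (k8 c5331 c5517 c5210 c5489 c5486 c5405 c9695 c5564 (k8 c14973 c1109 c267 c5816 c12753 c2627 c5548 c2572 (k2 c14437 c9612 k0))))) (by decide +kernel)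
def c14975 : PP 9 3 T 0x4001000000000000000001040000000000000200000004000000000000000000000000060010000000000000040040000010040000000000000000000010 := rS 0x6b8fc628104318f68406221e48d0d9e4b08778bf43aa9d907c46f77ad28ba3d8e8ce27f2d0fb73bb4 (k8 c14955 c14956 c14789 c14974 c5191 c5547 c8428 c5341 (k8 c5560 c14849 c14743 c5519 c5333 c5331 c5517 c5210 (k8 c5489 c5486 c5405 c9695 c11253 c5644 c1540 c1943 (k8 c2169 c5816 c5673 c282 c283 c847 c5669 c2481 (k4 c940 c1509 c276 c1984 (k1 c14554 k0)))))) (by decide +kernel)
def c14976 : PP 9 3 T 0x2000001040000000000000200000004000000000000000000000000000000000000000000000000000010000000000000000000000012 := rS 0x1bc781cb1c7e7b4302106852d385c7f2f7f85a0d366b17bc773fca4c6674bbf52bb21d82dea471e904969d55c5532b381fb73a8b390976fb4a50474269 (k8 c9742 c14974 c5558 c14743 c14955 c9399 c5559 c11969 (k8 c855 c14956 c14789 c11700 c5532 c5530 c5414 c5413 (k8 c5412 c5342 c5340 c5560 c5520 c5519 c5516 c5332 (k8 c5210 c5488 c5405 c5404 c9680 c5395 c9578 c806 (k8 c14727 c5214 c5451 c5495 c5496 c13565 c6325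 c14381 (k8 c5191 c5549 c5591 c14975 c683 c1896 c14800 c5672 (k4 c1684 c276 c798 c274 (k2 c5669 c5258 (k1 c2388 k0))))))))) (by decide +kernel)
def c14977 : PP 9 3 T 0x1040000000000000200000004000000000000000000000000000000000000000000000000000010000000000000000000000012 := rS 0x34ef7bbc3f37037da6e31ff8a51b11d9248e432092fdbb7a567769a1 (k8 c14974 c14955 c14956 c14743 c9399 c14789 c5342 c5340 (k8 c5561 c5520 c5334 c5332 c14976 c5209 c5236 c5318 (k8 c5466 c5579 c5580 c6010 c14209 c5460 c5191 c5185 (k2 c14662 c5450 k0)))) (by decide +kernel)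
def c14978 : PP 9 3 T 0x400000000020000001000000000000000000000004000100000000000000000000000000000000000000000008000010040000000001000000000110 := rS 0x64f21a86d9e5843bc5fa1d54ec83e237bbd6945d (k8 c14849 c14743 c5519 c5333 c5331 c5517 c5210 c5489 (k8 c5486 c5405 c9695 c11253 c5644 c1649 c1943 c280 (k2 c5816 c5653 (k1 c388 k0)))) (by decide +kernel)
def c14979 : PP 9 3 T 0x2000001000000000000000200000004000000000000000000000000000000000000000000000000000010000000000000000000000014 := rS 0x390bb3468832d0c7bec43d4a4c29b499a4ce974aec876231bbd4bbed88a74426d4ce7768193587e945f04b1cf2633b9d72400 (k8 c5642 c14977 c5440 c5356 c5355 c5441 c5357 c5438 (k8 c5439 c14743 c5517 c1058 c9701 c14955 c14956 c5530 (k8 c5529 c5528 c5412 c5411 c14789 c14849 c5519 c5518 (k8 c5331 c5332 c5210 c5488 c5404 c9680 c9742 c5444 (k8 c5397 c5445 c14670 c13168 c10013 c14615 c1470 c14978 (k4 c1896 c682 c12000 c1619 (k2 c440 c3578 k0))))))) (by decide +kernel)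
def c14980 : PP 9 3 T 0x1000400000000069000101000000000000000000080000000200100000000000000000000000000000010000040010100010020000051000000001000100 := rS 0x3459fe16426926ca69335aed5790d48a8d0dbc55afd0eaa4761f11bddea9d5588532331c8fc2e31 (k8 c5434 c5433 c5318 c5317 c5316 c5530 c5528 c5413 (k8 c5412 c5519 c5333 c5331 c5517 c5332 c5489 c5486 (k8 c5405 c5490 c9695 c1943 c2169 c285 c280 c5816 (k8 c14520 c13349 c2501 c3588 c14519 c1753 c6193 c14345 (k4 c5536 c2562 c2133 c5688 k0))))) (by decide +kernel)
def c14981 : PP 9 3 T 0x1000000000000000200000004000200000000000000000000000000000000000000000000000010000000000000000000000014 := rS 0xcff0a68f6d1643358a832d167be6103bc4ce977ea5764f52e90c7a418efb6229d559b5339d0c9ac3e8b3497c12c73e9e4ee755098f2472000976fb4a504743b1 (k8 c14979 c14974 c5558 c14743 c14955 c9399 c5559 c5642 (k8 c11969 c14977 c5355 c1196 c5440 c5356 c5441 c5442 (k8 c5357 c5438 c5439 c9742 c855 c5517 c1058 c9701 (k8 c14956 c5530 c5529 c5413 c5412 c5411 c14789 c5341 (k8 c5340 c5560 c5561 c14849 c5519 c5210 c5488 c5405 (k8 c5404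 c9680 c9695 c5432 c661 c14615 c14980 c5644 (k8 c1896 c10463 c12000 c14285 c2133 c11210 c3598 c5536 (k2 c2562 c5688 k0)))))))) (by decide +kernel)
def c14982 : PP 9 3 T 0x1000000000000000200000004000000000000000000000000000000000000000000000000000010040000000000000000000014 := rS 0x1ebbe9330859aed5188d48a8d2c19d2e1d4aec8bb1d88a74da990c9ac3e8b3497c12c73e9e4eaa131e48e40012edf694a08e876329 (k8 c14981 c14979 c14974 c5558 c14743 c14955 c9399 c5559 (k8 c5642 c11969 c14977 c5355 c1196 c5440 c5441 c5442 (k8 c5357 c5438 c5439 c9742 c855 c5517 c1058 c9701 (k8 c5530 c5529 c5412 c5411 c5341 c14849 c5210 c5488 (k8 c5486 c5404 c9680 c5644 c2169 c285 c280 c1945 (k8 c14520 c13349 c14581 c14575 c55 c14615 c13171 c14978 k0)))))) (by decide +kernel)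
def c14983 : PP 9 3 T 0x1000000000000000200000004000000000000000000000000000000000000000000000000000010000000000000000000000014 := rS 0x8ff9b81c6df898fd96394324906852d4a762a13b98cf27d63e4922723580032f13499d2e95d90ec3e49058ddea4712844824bf6c4567b7a567769a1 (k8 c14974 c14955 c14956 c14743 c9399 c5532 c5411 c14789 (k8 c5342 c5340 c5558 c5559 c5520 c5519 c5518 c5516 (k8 c5334 c5517 c5332 c5210 c5488 c5404 c9680 c9742 (k8 c9695 c9701 c5642 c1058 c11969 c9824 c14977 c5357 (k8 c5442 c5441 c5355 c5356 c1196 c14979 c14981 c14982 (k8 c683 c1896 c14895 c5672 c9515 c1753 c327 c13182 (k4 c14125 c13204 c12667 c5591 (k2 c2846 c5675 k0)))))))) (by decide +kernel)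
def c14984 : PP 9 3 T 0x1000000000000022000111040000000000000000080004000000000000000000000000000000000000000000010400000000000000000000011004000008 := rS 0xf6c73ca100c872c2291a123809922b5f97bfc2d0698d58acdef1de52c94999c920b23a75571510a656703793c552237abdc3efd0eec83233 (k8 c8428 c6205 c5210 c5486 c5405 c5517 c5333 c5519 (k8 c5331 c5489 c9695 c5816 c11700 c5532 c5530 c5528 (k8 c5414 c5413 c5412 c5520 c5516 c5334 c9680 c5444 (k8 c5396 c9578 c14727 c5214 c12000 c5451 c5450 c5496 (k8 c13565 c6325 c14381 c5191 c5548 c5589 c8140 c268 (k8 c267 c753 c5673 c2977 c900 c14824 c283 c1540 (k2 c674 c847 (k1 c5669 k0)))))))) (by decide +kernel)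
def c14985 : PP 9 3 T 0x1000000000000060000111040000000000000000080004000000000000000000000000000000000000000000010400000000000004050000011004000008 := rS 0x1a77bdde1f9b81bed3718ffc528d88ec9247 (k8 c5520 c5334 c5332 c14984 c5209 c5236 c5318 c5466 (k8 c5579 c5580 c6010 c14209 c5460 c5191 c5185 c14662 (k1 c5450 k0))) (by decide +kernel)
def c14986 : PP 9 3 T 0x2000001000000000000000200000004000000000000000000000000000000000000000000000000000010000000000000000000000010 := rS 0xd67b4396c6a31ef8e1892930a6c326933a5d2a3b1bc453a2136a64c6c73c9d42e5f498259a77c9224e7a1db92c82292189506f20d809e2a911bd5ee1fa53f43bb22efb73bb4 (k8 c14955 c14956 c14789 c14849 c5210 c5486 c5405 c14743 (k8 c5517 c5333 c5519 c5331 c5489 c9695 c14983 c1109 (k8 c5816 c2391 c5559 c5561 c5339 c5340 c5342 c9399 (k8 c14974 c9716 c14842 c14985 c5356 c12000 c5438 c261 (k8 c5439 c1107 c5440 c5441 c5357 c9752 c5530 c5529 (k8 c5528 c5412 c5411 c5518 c5332 c5488 c5404 c9680 (k8 c9742 c5393 c5397 c5445 c14670 c10013 c3578 c14615 (k4 c1470 c440 c9931 c11253 (k2 c14978 c11575 (k1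 c10556 k0)))))))))) (by decide +kernel)
def c14987 : PP 9 3 T 0x8000000000000000000000000000000000200000000000001000000020000000004000004000000000000000000000400000004400000 := rS 0xd59233 (k4 c5316 c2133 c1704 c14345 k0) (by decide +kernel)
def c14988 : PP 9 3 T 0x1000000000000028000000000000000000000000080004000200000000000001000000001000000000000000000000000010400000000000000000000108 := rS 0x3246bde68b3fc29a1881c72330ca5dfa1d1d88c16375586c2e93 (k8 c261 c1107 c1109 c5413 c5518 c5516 c5331 c5332 (k8 c5486 c5405 c5404 c5315 c5316 c5317 c5432 c5434 (k8 c9933 c5536 c2562 c14987 c5688 c5450 c5494 c9863 k0))) (by decide +kernel)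
def c14989 : PP 9 3 T 0x400000000000000001000000000000000200000004000000000000000000000000000000000000000000000000000010040000000000000000000010 := rS 0x3794270133856bf23dc4d1e9118831086b2c21cd2672491e2221599d5961894b34efb10b97d2609c920de4a911bd5ee1f7e87512732eec9e21bd0e776fb4f692c824312d280429 (k8 c5339 c14983 c14743 c5559 c5561 c5340 c5342 c14789 (k8 c14955 c9399 c14956 c14974 c1109 c9695 c5210 c14849 (k8 c9716 c14842 c5486 c5405 c5517 c5333 c5519 c5331 (k8 c5489 c5816 c2391 c14985 c5438 c261 c5439 c1107 (k8 c14986 c5356 c12000 c14988 c5648 c1320 c5440 c5532 (k8 c5528 c5411 c5520 c5334 c9680 c9742 c11253 c5644 (k8 c11575 c8112 c282 c1945 c13428 c2547 c2598 c14978 (k8 c13042 c5548 c5591 c8140 c268 c2928 c11724 c14125 k0)))))))) (by decide +kernel)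
def c14990 : PP 9 3 T 0x41000400000000048000111000000000000000000000000000000000000000000000000060410000000000000010050500010000000000000000000000008 := rS 0x382008a8d6bfb9e273 (k8 c9716 c9695 c5191 c9339 c5505 c5582 c5861 c14312 (k1 c752 k0)) (by decide +kernel)
def c14991 : PP 9 3 T 0x400000000000000001000000000000000200000004000000000000000000000000000000000000000000000000000010000000000000000000000010 := rS 0x1ef46a78e06f132d7e4d0f0b3da6c918315165a3499d5aaf248dc8e1110accfa7f3a8d5961894b34efb10b97d2609c920de4a911bd5ee1f7e87512732eec9e21bd0e776fb4f692c824312d280429 (k8 c5339 c14983 c14743 c5559 c5561 c5340 c5342 c14789 (k8 c14955 c9399 c14956 c14974 c1109 c9695 c5210 c14849 (k8 c9716 c14842 c5486 c5405 c5517 c5333 c5519 c5331 (k8 c5489 c5816 c2391 c14985 c5438 c261 c5439 c1107 (k8 c14986 c5356 c12000 c14988 c5648 c1320 c437 c5440 (k8 c5358 c5442 c5532 c5528 c5558 c5520 c5518 c5334 (k8 c5406 c5490 c9680 c9742 c14989 c685 c682 c9931 (k8 c1914 c1918 c1473 c14406 c5688 c14990 c5548 c8140 (k4 c2814 c268 c380 c753 (k2 c14883 c5673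 k0)))))))))) (by decide +kernel)
def c14992 : PP 9 3 T 0x1000000000000000200000004000000000000000000000000000000000000000000000000000010040000000000000000000010 := rS 0x3794270133856bf2899ed1e9106210d658439a4ce4923c4442b36586252cd3bec42e5f498272483792a446f57b87dfa1d449ccbbb27886f439ddbed3da4b2090c4b4a010a58bde (k8 c14991 c5451 c5339 c14983 c14743 c5559 c5561 c5340 (k8 c5342 c14789 c14955 c9399 c14956 c14974 c1109 c9695 (k8 c5210 c14849 c9716 c14842 c5486 c5405 c5517 c5333 (k8 c5519 c5331 c5489 c5816 c2391 c14985 c5438 c261 (k8 c5439 c1107 c14986 c5356 c12000 c14988 c5648 c1320 (k8 c5532 c5528 c5411 c5520 c5334 c9680 c9742 c11253 (k8 c5644 c11575 c8112 c282 c13428 c2547 c847 c2598 (k8 c13042 c5548 c5591 c8140 c268 c2928 c11724 c14125 k0)))))))) (by decide +kernel)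
def c14993 : PP 9 3 T 0x8000800000000048000100000000000000000000000000000000000000000001000000000400000000000000010010000010000000050000000000010008 := rS 0xe08022a355a73 (k4 c9716 c5490 c5505 c5582 (k2 c10618 c14312 (k1 c752 k0))) (by decide +kernel)
def c14994 : PP 9 3 T 0x1000000000000000200000004000000000000000000000000000000000000000000000000000010000000000000000000000010 := rS 0xe2265aa33e5ef4596bbccb0c4a762cd4985cee7d0497f2483792243673016873bb75988769ed25904524308895e2677e87553b20f88dee497a91e945d (k8 c14849 c14743 c5520 c5519 c5334 c5333 c5331 c5517 (k8 c5210 c5489 c5486 c5405 c9680 c9695 c5559 c5558 (k8 c5561 c5339 c5340 c5342 c14789 c14955 c5528 c5532 (k8 c9399 c14956 c14974 c14983 c9716 c1109 c14842 c5816 (k8 c2391 c14985 c5439 c5438 c5442 c5356 c1107 c261 (k8 c12000 c14986 c14988 c5648 c1320 c14991 c14992 c685 (k4 c14993 c5191 c5673 c5548 (k2 c8140 c753 (k1 c268 k0))))))))) (by decide +kernel)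
def c14995 : PP 9 3 T 0x2000011040000000000000000000004000200000200000000000000014000000004000400004000000010400000000000000000000010 := rS 0x274f07b3b1d5065a2cb17c2c74cb24c6f13499d2efd4aaa7643b7ad28ba31 (k8 c5434 c14849 c14743 c5519 c5332 c5210 c5489 c5488 (k8 c5405 c5404 c9680 c9742 c9695 c5395 c5396 c5447 (k8 c796 c8772 c14744 c14745 c5644 c1896 c1894 c10013 (k4 c889 c5669 c1537 c9899 k0)))) (by decide +kernel)
def c14996 : PP 9 3 T 0x200000000000000000000000000000000000000000000000000000000000050000000000000000150080000000000002000000010 := rS 0x71 (k2 c2755 c14630 k0) (by decide +kernel)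
def c14997 : PP 9 3 T 0x40000000000000050000000000000000000000100080000000000000000000000000140000400001000000000000000000000000000005100011000000000 := rS 0xe2591049715130ec9247 (k8 c5520 c5334 c5332 c5651 c3046 c354 c350 c5685 (k2 c5258 c2459 k0)) (by decide +kernel)
def c14998 : PP 9 3 T 0x2000000000000000000000000000000000000000080000000000000000000000000140400000000000000000080000800000080000004101000000000000 := rS 0x1c44b6a11076491b91de6cf (k8 c5543 c5540 c5520 c5518 c5334 c5332 c686 c791 (k2 c460 c10448 (k1 c1662 k0))) (by decide +kernel)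
def c14999 : PP 9 3 T 0x2000000000000010000201040000000000000000000004000200000000000000000000000000000000000000000000000010000000000000000000000014 := rS 0x16271db7cd16256ba0cb4762c9d468cb62b7d9ae131783625f30f7c7a310b81c7e3956abc76f71bbd4bb59198a50eab68bcd0acf4da36266f44ad4e710ceaa5fbb2339a4d61f36800174a (k8 c14743 c5516 c5642 c665 c5517 c1058 c9742 c9680 (k8 c5210 c5405 c5489 c14747 c5665 c5379 c1340 c5567 (k8 c5565 c5382 c5381 c8100 c5543 c5541 c5540 c5501 (k8 c5500 c5499 c9694 c8428 c14994 c14849 c5519 c5518 (k8 c5333 c5332 c5406 c5490 c5317 c5318 c5432 c5433 (k8 c5434 c5436 c10382 c661 c1054 c14995 c5235 c5663 (k8 c5460 c5537 c5538 c837 c1322 c3587 c1527 c281 (k8 c5668 c5644 c2055 c2187 c14996 c14998 c12913 c14997 (k2 c5571 c5421 (k1 c3602 k0)))))))))) (by decide +kernel)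
def c15000 : PP 9 3 T 0x4200100000000005a000000000000000000000100000004000000000000000000000000140400001000000000000000000000000000540000010004000000 := rS 0x1bed68a2c5662413c73dee356a5c3a9554aada2a1 (k8 c5398 c5501 c5500 c5489 c5488 c5486 c5404 c5490 (k8 c8884 c8156 c5658 c351 c5651 c2760 c1092 c5685 (k2 c5991 c2950 (k1 c10298 k0)))) (by decide +kernel)
def c15001 : PP 9 3 T 0x2000000000000058000000000000000000000100000000000000000000000051000000000000001000000000000000000000000001540000011004000000 := rS 0x25c744c1d55c05e6ff (k8 c5544 c5540 c5502 c5500 c5486 c5651 c351 c354 (k1 c14685 k0)) (by decide +kernel)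
def c15002 : PP 9 3 T 0x10000010040000000000000000080000000100000000000004000000014000000000000000000100400000000000060010000000000002 := rS 0x481c62f77a95cd61f3682cc7b0 (k8 c5209 c5395 c5516 c665 c5517 c1058 c9758 c5519 (k4 c5333 c1739 c1734 c13685 (k1 c5643 k0))) (by decide +kernel)
def c15003 : PP 9 3 T 0x200100000000005a000000000000000000000100000004000000000000000051000000140000001000000000000000000000000001550000010004000000 := rS 0x197f358acc4901 (k4 c5502 c15001 c2760 c1092 (k2 c14538 c1091 (k1 c15000 k0))) (by decide +kernel)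
def c15004 : PP 9 3 T 0x200180000000008a000000000000000000000000000000000000000000000000000000000000000000000000000000000000000000000000000000000000 := rS 0x81c55bdf371b5962cb59ab55e974aaa556d180a859ad3 (k8 c5496 c5495 c5398 c5502 c5501 c5500 c5489 c5488 (k8 c5404 c5406 c5490 c5574 c5420 c5421 c9031 c8884 (k4 c14538 c10298 c2950 c2516 (k1 c11235 k0)))) (by decide +kernel)
def c15005 : PP 9 3 T 0x2000000000000058000010040000000000000100080004000100000000000001000000140000001000000000010100400010020000000010010000040002 := rS 0x412290c36f724bd48ef3f0a6536ab64ec19efd4aa5d52d1 (k8 c5501 c5489 c5404 c5488 c5405 c5543 c5209 c5396 (k8 c5500 c8100 c5447 c8772 c5540 c5520 c5519 c5334 (k4 c5333 c1943 c1949 c284 (k2 c15002 c15003 k0)))) (by decide +kernel)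
def c15006 : PP 9 3 T 0x2000000000000010000201040000000000000000000004000000000000000000000000000000000000000000000000000010000000000000000000000014 := rS 0x71b7dc24b8a8e47e7b131047a0812968b3b74e7858ed366b546ac54cb24c69f49f7b607794ad51e893e84d027378ab55e974a8ec92472ed6452ab68b3e209bce9ac3e6d0002e94a97eec8ce69 (k8 c9742 c9680 c5210 c5405 c5489 c14743 c5516 c5642 (k8 c665 c5517 c1058 c14747 c8100 c5665 c5543 c5501 (k8 c5500 c9694 c14994 c14849 c5520 c5334 c5332 c5488 (k8 c5404 c5406 c5490 c9695 c5379 c5380 c5564 c5566 (k8 c5567 c5568 c1340 c14999 c14727 c5209 c5214 c5444 (k8 c5448 c5395 c5396 c5447 c5451 c5450 c5454 c5495 (k8 c5496 c796 c8772 c8724 c15004 c15005 c5644 c14996 (k8 c14800 c12427 c13854 c5651 c1684 c275 c274 c3046 (k4 c354 c10249 c14796 c1778 (k1 c5258 k0)))))))))) (by decide +kernel)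
def c15007 : PP 9 3 T 0x2000000000000010000001040000000000000000000004000000000000000000000000000000000000000000000000000010000000000000000000000014 := rS 0x239c4414892c24112ca058a621a185becd708f462071f8e7c1282fec7e7136aa2e06d746ac4e6b338fbb6da188675fecf79c05a26933ab55efd54ec876f7248ddea47ac8ccd61f36800174a (k8 c14743 c5516 c5642 c665 c5517 c1058 c8428 c14994 (k8 c5520 c5519 c5518 c5334 c5333 c5332 c5210 c5489 (k8 c5405 c5406 c5490 c9680 c9742 c5501 c5502 c5540 (k8 c5543 c5544 c14747 c5665 c15006 c5212 c5219 c5571 (k8 c5574 c5419 c5421 c5505 c5507 c5508 c5583 c5585 (k8 c955 c14538 c14706 c10372 c5209 c5235 c5317 c5318 (k8 c5432 c5434 c5436 c5460 c5537 c5538 c661 c3587 (k8 c5663 c837 c937 c281 c14568 c12617 c12663 c3036 (k4 c298 c5985 c5675 c2404 k0))))))))) (by decide +kernel)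
def c15008 : PP 9 3 T 0x20a000000000000000000000000000000000000000000000000000015000000000000000000000000000000000000000000000000000000 := rS 0x18753a5f0695c8a8d4ac9 (k8 c5396 c5399 c5449 c5491 c5488 c5407 c5404 c5428 (k2 c5429 c3619 k0)) (by decide +kernel)
def c15009 : PP 9 3 T 0x4001500000000020a000000000000000000000100000000000200000014000000000000000000400100000000000000000000000008000000408001000000 := rS 0x287d2445529fdece2d5ea4d46a5 (k8 c5399 c5449 c5444 c5617 c5612 c14686 c14877 c2866 (k4 c355 c5662 c5207 c619 (k1 c5552 k0))) (by decide +kernel)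
def c15010 : PP 9 3 T 0x140000200000000400040400100004004000000000014000000000000000000000000000000040000000000020000000000000000000000 := rS 0xf8ebdf10f7dc97eda446c9d138d (k8 c5569 c5567 c5383 c5381 c5213 c5233 c5391 c5609 (k4 c5598 c3615 c1951 c5625 (k1 c5659 k0))) (by decide +kernel)
def c15011 : PP 9 3 T 0x10000000000000202000001000000000000000100000004000200000014000000000000000000000100000000000000000000000000000000408001020000 := rS 0x24b22d2154a7f7b38b57bb249a8d4abf (k8 c5014 c5399 c5449 c5444 c5210 c5617 c5612 c14686 (k4 c14877 c2866 c355 c5220 (k2 c5662 c5391 (k1 c3086 k0)))) (by decide +kernel)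
def c15012 : PP 9 3 T 0x140010200000000010000400100000000000000000000000000040000000000000000000000000040000000000000000000000000000000 := rS 0x76e3feda440c9cfb8d (k8 c5569 c5566 c5383 c5380 c5213 c5233 c5608 c5639 (k1 c5698 k0)) (by decide +kernel)
def c15013 : PP 9 3 T 0x400000000042000221040000000000000100000004000200000014000050000008006000000100000000002040000000020050000000008000024602 := rS 0x28f0982be5cb7cf2606efa515eaca36fb36e60fafd4baef3f1348645fad3b8cde60d (k8 c5522 c282 c8428 c2051 c5437 c9707 c6205 c9742 (k8 c5627 c3379 c3384 c4230 c3210 c3445 c15011 c15012 (k8 c5349 c5350 c5600 c5601 c6201 c669 c1062 c5187 (k4 c5667 c5622 c862 c2508 (k2 c2680 c287 (k1 c3594 k0)))))) (by decide +kernel)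
def c15014 : PP 9 3 T 0x4000500000000020a000000000000000000000100000000000200000014000000000004000000400100000000000000000000000008000000408001000000 := rS 0x3c987 (k2 c5429 c15009 (k1 c6804 k0)) (by decide +kernel)
def c15015 : PP 9 3 T 0x140000200000000400040400100000004000000000014000000000000000000000000000000040000000000020000000000000000000000 := rS 0x4868da4 (k4 c5213 c15010 c5606 c286 k0) (by decide +kernel)
def c15016 : PP 9 3 T 0x140000220000000400040000100000004000000100014000000000000000000000010000000040000020000020040000000000000004402 := rS 0x14787955f2bcc2df30377d294c57abb31a4e643449142626 (k8 c668 c5564 c284 c5567 c1949 c5379 c9742 c15015 (k8 c5600 c5601 c5605 c6201 c669 c1062 c5667 c1349 (k4 c986 c862 c356 c2905 (k2 c287 c9779 k0)))) (by decide +kernel)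
def c15017 : PP 9 3 T 0x1000000000000042000221040000000000000000000004000200000000000000000000000000000000000000000000000010020000000000000000000012 := rS 0x1a9d2eaa4979913e4abe529fc3ef6716e1d7bb8b7e3db6bf13042fecc67a10e008631ffbf0b45c35631d1a310efee0dbc4d26756abd2efd0ea5553b207bdc9ef526d643233179ac3e6d05d280e313c9cd1a6f44a4d46a5 (k8 c5399 c5449 c5444 c5567 c5565 c5381 c5379 c5524 (k8 c5434 c5432 c14743 c5516 c665 c5517 c1058 c9707 (k8 c8428 c6205 c14994 c5521 c5519 c5335 c5333 c9739 (k8 c5210 c5489 c5488 c5486 c5405 c5404 c5406 c5490 (k8 c9680 c9742 c9695 c1943 c14697 c2051 c14745 c9240 (k8 c5504 c5506 c5509 c5583 c5587 c5451 c840 c13983 (k8 c280 c3602 c838 c2561 c839 c3956 c667 c668 (k8 c5014 c15013 c1635 c602 c15016 c5617 c5429 c5612 (k8 c14686 c14877 c15011 c2866 c6804 c355 c5625 c5662 (k4 c842 c3086 c3087 c5391 (k2 c707 c5671 k0))))))))))) (by decide +kernel)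
def c15018 : PP 9 3 T 0x1000000000000002000020000000000000000000000000000000000000001000000000000000000001000050000000001551480000000001000000000440 := rS 0x33fc29c63b47becd3b2a8eac542c44f6873ca0cc6c9 (k8 c5396 c5395 c5525 c5524 c5373 c5372 c5371 c683 (k8 c681 c1894 c3601 c3597 c2075 c5493 c2131 c14679 (k4 c13168 c5458 c1650 c5688 k0))) (by decide +kernel)
def c15019 : PP 9 3 T 0x1000000000000002000221040000000000000000000004000200000000000000000000000000000000000000000000000010000000000000000000000012 := rS 0x7f45ed989ee2c16de26933a5dfa1d4aaa7645dac9ac3e6d05d2862610397c2e73 (k8 c5379 c5433 c1054 c5432 c661 c5434 c14743 c5516 (k8 c665 c5517 c1058 c14994 c14849 c5210 c5489 c5488 (k8 c5486 c5405 c5404 c9680 c9742 c9695 c15018 c5644 (k4 c14697 c14745 c15017 c5583 (k2 c840 c10494 k0))))) (by decide +kernel)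
def c15020 : PP 9 3 T 0x19000000000000000000000000080000000200000000000005000000001000000000001000000001200010000000000014000004000000 := rS 0x813499f0b419ec97e8752aa91d87c46f71bbd47231 (k8 c5434 c5317 c5519 c5518 c5333 c5331 c5517 c5332 (k8 c5489 c5488 c5486 c5405 c1965 c1530 c3587 c5459 (k4 c1595 c5679 c8250 c2490 k0))) (by decide +kernel)
def c15021 : PP 9 3 T 0x19000021040000000000000000080000000200000000000000000000000010000000001000000000000010020000000004000000000000 := rS 0x1026933e168327bc7566bcc6a770dbc5fa1d4aaa4761f11bdc6ef51c834f283 (k8 c5525 c5524 c5522 c5317 c5519 c5518 c5333 c5331 (k8 c5517 c5332 c5489 c5488 c5486 c5405 c9695 c1943 (k8 c2051 c281 c282 c8354 c15020 c5668 c5494 c9979 (k4 c5459 c1595 c5679 c8250 (k1 c2490 k0))))) (by decide +kernel)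
def c15022 : PP 9 3 T 0x8000000000000050000020000000000000000000000000000000001400000000000000000000000018000000111000000000000000000000000000000000 := rS 0x167f35ac01feb143a45068f (k8 c5526 c5525 c5374 c5373 c5506 c5586 c8783 c1344 (k2 c5592 c2900 (k1 c5685 k0))) (by decide +kernel)
def c15023 : PP 9 3 T 0x51000220000000000000000100000004000200000000000000000000000000000058000010000000000058080001400440011000004402 := rS 0x77990d54d35dbce1f1b8cfc9e380416a4b80913ded381905431521898d2391f8f5220d47c4c2689659ce3a8d42b353b11 (k8 c5371 c1274 c2076 c683 c5381 c2159 c5379 c1322 (k8 c5567 c5564 c5382 c5526 c5522 c5374 c5436 c5318 (k8 c5317 c9742 c5651 c5252 c3046 c2927 c350 c2200 (k8 c14519 c15022 c5658 c3066 c461 c1345 c12614 c14701 (k8 c782 c781 c1608 c5577 c3058 c6010 c1605 c14656 (k4 c3003 c1189 c5689 c5494 k0)))))) (by decide +kernel)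
def c15024 : PP 9 3 T 0x10000221040000000000000000000004000200000000000000000000000000000000000000000000000010000000000000000000000014 := rS 0x1f32240e288a5aac56671db2a84a852d1653ac5316c5126f89a34e66933ab55efd4aaa7640f1d9246e472ed6466293587cda0ba57b4c2072f85c011143a45068f (k8 c5526 c5525 c5374 c5373 c5371 c5642 c5433 c1054 (k8 c5432 c661 c15007 c14743 c5516 c665 c5517 c1058 (k8 c9694 c8428 c14994 c14849 c5520 c5518 c5334 c5332 (k8 c9739 c5210 c5489 c5488 c5405 c5406 c5490 c9680 (k8 c9742 c5379 c5381 c5382 c5565 c5567 c15019 c5663 (k8 c837 c1274 c15021 c5644 c683 c14996 c3601 c15023 (k8 c5571 c5574 c5421 c5422 c3602 c3604 c2199 c686 (k2 c5590 c14901 k0)))))))) (by decide +kernel)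
def c15025 : PP 9 3 T 0x1000000000000002000121040000000000000000000004000200000000000000000000000000000000000000000000000010000000000000000000000012 := rS 0x200ab70b8d9880f08218c7f3a9f468c43b86cb1e3efb48b69964a85e26933ab55e977e8752aa9d917432333587cda0ba50c4c2072f85e220d3ca7d96b1db35e068b6abffdd59 (k8 c14994 c5219 c5586 c5585 c5583 c5508 c5507 c5212 (k8 c5421 c5420 c5572 c5524 c5522 c5371 c5433 c1054 (k8 c5432 c661 c5434 c14743 c5516 c665 c5517 c1058 (k8 c8428 c6205 c14849 c5210 c5489 c5488 c5486 c5405 (k8 c5404 c5406 c5490 c9680 c9742 c9695 c5398 c5396 (k8 c5447 c15018 c8156 c9031 c6616 c5644 c1943 c2051 (k8 c14745 c9240 c2828 c126 c840 c13983 c280 c10637 (k4 c5670 c839 c2620 c4263 (k2 c2075 c8628 (k1 c2078 k0)))))))))) (by decide +kernel)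
def c15026 : PP 9 3 T 0x11000000000000000000000000080000000200000000000000000400000000000400005400000000000000000004010000000000000000 := rS 0x1c2df1d9248e3f (k4 c5318 c5520 c5334 c5332 (k2 c13097 c13096 (k1 c6010 k0))) (by decide +kernel)
def c15027 : PP 9 3 T 0x10000021040000000000000000000004000200000000000000000000000000000000000000000000000010000000000000000000000014 := rS 0x3bed064269c6413faa896123aa14225a2ca053ac5316c5168d589cd3eb338fbb6da1418350f113499d5aaf7eaa7640f1d8dcbb591995cd61f3682e95ed1c8fc62610397c2e00 (k8 c5642 c5433 c1054 c5432 c661 c5434 c5318 c5317 (k8 c15007 c14743 c5516 c665 c5517 c1058 c9758 c8428 (k8 c14994 c14849 c5518 c5332 c9739 c5210 c5489 c5405 (k8 c5406 c5490 c9680 c9742 c5371 c5373 c5522 c5525 (k8 c15024 c5212 c5219 c5571 c5574 c5572 c5419 c5421 (k8 c5505 c5583 c15025 c5663 c837 c1274 c937 c15021 (k8 c5644 c14568 c683 c1894 c12617 c12638 c3601 c2917 (k4 c298 c14867 c15026 c1189 (k2 c1190 c5494 (k1 c10484 k0)))))))))) (by decide +kernel)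
def c15028 : PP 9 3 T 0x1000000000000002000211000000000000000000000004000200000200000000000000000000000000000000000000000010020000000000010000000012 := rS 0x59128e1017fa2e06b18ea08864579fb90ef133ab55e970ea5764f724bd48f4aaca14d2734684cde89 (k8 c5567 c5565 c5564 c5381 c5379 c9742 c845 c14994 (k8 c14743 c5520 c5519 c5334 c5333 c5210 c5488 c5486 (k8 c5404 c5406 c5490 c9680 c9695 c2111 c14697 c283 (k8 c284 c1949 c5672 c5504 c5506 c5508 c5583 c5586 (k4 c1977 c3602 c3593 c885 (k1 c2455 k0)))))) (by decide +kernel)
def c15029 : PP 9 3 T 0x12000201040000000000000000000004000200000000000000000000000000000000000000000000000010000000000000000000000014 := rS 0x2cfe6e225c5482266fb876fe06bf7cec7512b14b4594c98d429f499a4cead57a5d2bb21d9248e5dac86453ed1f81c625f0ba356a7388674d61f36800174a (k8 c14743 c5516 c5642 c665 c5517 c1058 c15027 c5665 (k8 c5379 c1340 c5381 c5433 c1054 c5434 c5432 c5318 (k8 c15007 c9694 c6205 c14994 c14849 c5520 c5334 c5332 (k8 c5210 c5488 c5404 c5406 c5490 c9680 c9742 c5444 (k8 c5448 c5398 c5395 c5447 c15028 c5644 c681 c14996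 (k8 c1894 c10013 c5493 c2187 c5185 c14703 c5460 c5538 (k8 c5651 c13854 c3046 c354 c6010 c5549 c2458 c5685 k0))))))) (by decide +kernel)
def c15030 : PP 9 3 T 0x1000000000000000000011000000000000000000080000000000000000000000000000011010000000000000001000000000020000000105000000000000 := rS 0xce413cc6a871dbdc6ef5 (k8 c5519 c5518 c5333 c5332 c2111 c281 c283 c5672 (k2 c3587 c2395 k0)) (by decide +kernel)
def c15031 : PP 9 3 T 0x50000000000000000000000100080000000200000000000000000140000400001000000000000000000000000000000000011000000000 := rS 0x1c64b20fc84c3b238e47e3d (k8 c5436 c5318 c5317 c5520 c5332 c5651 c14997 c350 (k2 c354 c5549 (k1 c14209 k0))) (by decide +kernel)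
def c15032 : PP 9 3 T 0x80000000200000000008000000140400000000000000000000000000000000004200000000000000000 := rS 0x710ec9237238e47e31 (k8 c5434 c5318 c5317 c5520 c5518 c5334 c5332 c10448 (k1 c2575 k0)) (by decide +kernel)
def c15033 : PP 9 3 T 0x10000201040000000000000000000004000200000000000000000000000000000000000000000000000010000000000000000000000014 := rS 0xe320b3c6bde3bb5896fe22229629f599c76d03431d44a832d16596c56fb35c2d14e98bc1b15aa24de8d3999d5aafd93d4bb59198a7da39189840e5f0ba6d0b10ce9ac3e6d0002e9469 (k8 c9742 c14743 c5516 c5642 c665 c5517 c1058 c15027 (k8 c5665 c845 c8100 c5433 c1054 c5432 c661 c5434 (k8 c5317 c15007 c9694 c8428 c14994 c14849 c5519 c5210 (k8 c5406 c5490 c9680 c5379 c5381 c5565 c5567 c1340 (k8 c15029 c5235 c5663 c5458 c5459 c5460 c5537 c5538 (k8 c837 c1322 c15030 c5644 c1896 c14996 c1894 c5672 (k8 c10690 c15031 c5571 c5574 c5572 c5421 c3602 c686 (k8 c901 c461 c15032 c2187 c5668 c5450 c5453 c458 (k2 c2574 c15026 k0))))))))) (by decide +kernel)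
def c15034 : PP 9 3 T 0x900400000000000a000111040000000000000000080000000200000400000000000000080000000000000000001000000010020000000004000000000000 := rS 0x87012584522803f9f504f3621dd0ef17b925ea4703c0c8a8b (k8 c5583 c5582 c11700 c5432 c5520 c5519 c5334 c5333 (k8 c9695 c2111 c2051 c14745 c283 c5672 c2828 c840 (k4 c5670 c9822 c699 c13156 (k2 c1978 c1950 (k1 c5996 k0))))) (by decide +kernel)
def c15035 : PP 9 3 T 0x1000000000000002000111040000000000000000000004000200000400000000000000000000000000000000001000000010000000000000000000000014 := rS 0x38c827c409d896123ab14225a2cb7dc3e0f1f7da4c931a84d26756abd2e95d90ec9247a5174663f038c4be17001c5967358ed91ad745b57dd59 (k8 c14994 c5219 c5585 c5583 c5507 c5505 c5212 c5421 (k8 c5419 c5420 c5571 c5642 c5433 c1054 c5434 c5432 (k8 c5318 c8428 c14849 c14743 c5520 c5334 c5332 c5210 (k8 c5488 c5404 c5406 c5490 c9680 c9742 c5398 c5395 (k8 c5396 c8156 c9031 c6616 c5185 c5460 c5538 c15034 (k8 c5644 c14568 c681 c1894 c12617 c12663 c10013 c938 (k4 c14264 c298 c1552 c6010 k0))))))) (by decide +kernel)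
def c15036 : PP 9 3 T 0x10000001040000000000000000000004000200000000000000000000000000000000000000000000000010000000000000000000000014 := rS 0x7df1b88827f25848225940b159ad14e98bc1b189a2d1ab139a7d6671f76db42854dc433a5f308c42e071f8e4d26756abf6559199ac3e6d0002e95ed (k8 c15007 c14743 c5516 c5642 c665 c5517 c1058 c8428 (k8 c14994 c5210 c5406 c5490 c9680 c9742 c5317 c5318 (k8 c5432 c5433 c5434 c661 c1054 c15027 c5665 c8100 (k8 c845 c15033 c5212 c5219 c5571 c5574 c5572 c5419 (k8 c5421 c5505 c5583 c955 c15035 c5235 c5663 c5458 (k8 c5459 c5537 c837 c937 c15030 c14568 c12617 c12663 (k4 c2917 c298 c15026 c5466 (k2 c1552 c5670 k0)))))))) (by decide +kernel)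
def c15037 : PP 9 3 T 0x1000000000000050000220000000000000000100000004000000000000001040000000000000000041000000080000001450020000400000010010000002 := rS 0x84812adfff38a2c566b5121c44f1c80fbcd273899bd1f1143a45061b2284c8689 (k8 c5567 c1949 c5564 c284 c1943 c5525 c5374 c5373 (k8 c5371 c5568 c5565 c5382 c5379 c9742 c5583 c3068 (k8 c5658 c351 c668 c5651 c13705 c2760 c1092 c3604 (k4 c5590 c3010 c6368 c6335 (k2 c3601 c2629 k0))))) (by decide +kernel)
def c15038 : PP 9 3 T 0x1000000000052000220000000000000000100080004000100000000000000000000040000000050000050000000020050020004000000000010000014 := rS 0xe01f38fe7e34e40194c72ffb80d1d1ec544c257a8a4d61f36801269f5098d929939a34df113d9e48a4344bcc200b0683c921389a3d2247 (k8 c5520 c5374 c5568 c5382 c5564 c5334 c9739 c5522 (k8 c5516 c12614 c282 c5567 c1949 c284 c5524 c5372 (k8 c5371 c5565 c5381 c5379 c5447 c5396 c5395 c5398 (k8 c5448 c5444 c5642 c665 c5517 c1058 c9694 c5519 (k8 c2755 c668 c3049 c12427 c351 c14716 c5658 c1451 (k8 c674 c8156 c9072 c13171 c5464 c5592 c1778 c13668 (k2 c9158 c4977 k0)))))))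 (by decide +kernel)
def c15039 : PP 9 3 T 0x50000220000000000000000100000004000100000000000000000000000100000050014154000000020054020008000000000050000414 := rS 0x3e71a718e5f030f62a26128a4d66d001cd1a6f889ecf2450990d13f3 (k8 c5546 c5567 c1949 c5564 c284 c5524 c5372 c5371 (k8 c5565 c5381 c5379 c5642 c665 c1058 c9694 c2755 (k8 c668 c3049 c12427 c14716 c1451 c674 c13171 c1778 (k2 c13668 c408 k0)))) (by decide +kernel)
def c15040 : PP 9 3 T 0x40000000000000000000000100000004000000000000000000000000000000000200000000000000000000000000140000010014000000 := rS 0x134704bef (k4 c5506 c1092 c5658 c5651 (k1 c351 k0)) (by decide +kernel)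
def c15041 : PP 9 3 T 0x1000000000000052000220000000000000000100080004000100000000001000000000040000000051000050000000000050020000000000000010000014 := rS 0x4eb1cbfe00312c4c7058a2cd2f7238a4d61f3680016934fa84c6c94c9cd1a6f889ecf21b2284c8689 (k8 c5567 c1949 c5564 c284 c1943 c5524 c5372 c5371 (k8 c5565 c5381 c5379 c5447 c5396 c5395 c5398 c5448 (k8 c5444 c5516 c5642 c665 c5517 c1058 c9694 c5520 (k8 c5333 c9742 c15037 c15040 c3602 c668 c15039 c14716 (k4 c15038 c1451 c674 c5458 (k1 c13171 k0)))))) (by decide +kernel)
def c15042 : PP 9 3 T 0x100000000000001a000220000000000000000100080004000100000000000000000000040000000000000000000000000050020000000000000000000014 := rS 0x42aae04fff9c063914457bd6ab1599c76c43229a55aaf4bbf43a9554bdcd61f3680016a1649cd1b13099bd128f88a1d2283 (k8 c5525 c5374 c5373 c5371 c5568 c5567 c5565 c5564 (k8 c5382 c5381 c5379 c5396 c5398 c5516 c5642 c665 (k8 c5517 c1058 c5333 c5489 c5488 c5486 c5405 c5404 (k8 c5406 c5490 c9742 c284 c1949 c15041 c5571 c5574 (k8 c5421 c5422 c11200 c3602 c3604 c5658 c3068 c5590 (k4 c3010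 c6335 c6368 c2629 (k1 c3601 k0))))))) (by decide +kernel)
def c15043 : PP 9 3 T 0x50000200000000000000000100080004000100000000000000000000000100000058014054000000000050000000005100011010000042 := rS 0x167f3702d5bee325c0607e2224548226218ec924739a34de89 (k8 c5567 c5565 c5381 c5379 c5520 c5334 c5332 c5252 (k8 c5651 c13854 c3046 c14716 c5655 c2200 c3066 c461 (k4 c5466 c5580 c1345 c5258 (k2 c5591 c2898 (k1 c5685 k0))))) (by decide +kernel)
def c15044 : PP 9 3 T 0x1000000000000012000221000000000000000000000004000100000000000000000000040010000000000000000000000010000000000000000000000014 := rS 0x44f9c0d15145aac56671db0e47e3d03821542542968b20d48a1e226933ab55e977e8752aa9d9124bb59149ac3e6d0002e947749a7d42c939a362613379f5128f (k8 c5568 c5567 c5566 c5565 c5564 c5382 c5381 c5379 (k8 c5396 c5398 c5448 c5444 c14727 c14743 c5516 c5642 (k8 c665 c5517 c1058 c9694 c14994 c14849 c5334 c5210 (k8 c5489 c5488 c5486 c5405 c5404 c5406 c5490 c9680 (k8 c9742 c5371 c5373 c5374 c5522 c15042 c5644 c683 (k8 c14996 c10258 c14800 c30 c1512 c275 c273 c15043 (k8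 c5571 c5574 c5421 c5422 c3604 c3602 c2199 c5590 (k2 c686 c14901 k0)))))))) (by decide +kernel)
def c15045 : PP 9 3 T 0x1000000000010000010040000000000000000080000000100000000000004000000004000000000000000000800401400024000000010000000000040 := rS 0x681ec62087bbd4c7b0 (k8 c5209 c5395 c5519 c5333 c5643 c1946 c9301 c13685 (k1 c1976 k0)) (by decide +kernel)
def c15046 : PP 9 3 T 0x2000200000000000000000000000000000000000000000000000000000000000000000000000000000000000000000000002000000094 := rS 0x5f (k2 c1451 c13678 k0) (by decide +kernel)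
def c15047 : PP 9 3 T 0x10000010040000000000000000080000000100000000000004000000004000000000000000000800401400024000000010000000000040 := rS 0x6878062087bbd4c7b0 (k8 c5209 c5395 c5519 c5333 c5643 c1946 c15045 c13685 (k1 c5459 k0)) (by decide +kernel)
def c15048 : PP 9 3 T 0x1000000000000050000011000000000000000000000004000000000000000000000000000000001000000000411000000010040000040000011000040010 := rS 0x25c744c1dd9528bb59 (k8 c14994 c14849 c14743 c5210 c5486 c5651 c351 c354 (k1 c14802 k0)) (by decide +kernel)
def c15049 : PP 9 3 T 0x10000201040000000000000000000004000000000000000000000000000000000000000000000000000010020000000000000000000014 := rS 0x8e0f562273f6d860741297c0c827990c8a870d96de26756abd2e1d4aec9ee292b9dcc6c9308d59e1344a3d0a695ac433ad362f7b6129f69ac3e6d0002e9473 (k8 c5379 c14743 c5516 c5642 c665 c5517 c1058 c15007 (k8 c15036 c5209 c5214 c5451 c5496 c15044 c5665 c1340 (k8 c9742 c845 c5568 c5567 c5564 c5453 c5450 c5445 (k8 c5396 c5395 c14727 c9758 c9694 c5333 c5210 c5488 (k8 c5486 c5404 c5406 c5490 c9680 c9695 c32 c1943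 (k8 c2111 c284 c1949 c283 c5672 c15047 c1451 c15046 (k8 c3597 c1452 c15048 c10494 c5570 c5421 c2765 c3582 (k1 c2164 k0)))))))) (by decide +kernel)
def c15050 : PP 9 3 T 0x40000000000000000000000100080000000100000000000000000140000000001000000004000000000000000000005100011000000000 := rS 0x38bc44b208987647 (k8 c5520 c5332 c5651 c13854 c354 c5655 c5258 c5466 k0) (by decide +kernel)
def c15051 : PP 9 3 T 0x10000201040000000000000000000004000000000000000000000000000000000000000000000000000010000000000000000000000014 := rS 0x110808af1ac4e3b670b7c723f3d8f410252d1656ac7886751e893e9bc268d399a4cead57a5d2bb21d976b2293587cda0005d2bda774998f60c51ab4fbd29 (k8 c15036 c5214 c5496 c5450 c5451 c5209 c5395 c5444 (k8 c14727 c15007 c14743 c5516 c5642 c665 c5517 c1058 (k8 c9694 c14994 c14849 c5332 c5210 c5488 c5404 c5406 (k8 c5490 c9680 c9742 c5379 c5381 c5564 c5565 c5566 (k8 c5567 c5568 c15044 c5665 c796 c1340 c15049 c5644 (k8 c14996 c14800 c1512 c1684 c275 c274 c14796 c10249 (k8 c15050 c5571 c5421 c6601 c3602 c5655 c686 c458 k0))))))) (by decide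 +kernel)
def c15052 : PP 9 3 T 0x10000001040000000000000000000004000000000000000000000000000000000000000000000000000010000000000000000000000014 := rS 0x78b6da1ef4a76559 (k8 c14994 c5210 c15036 c5214 c15051 c5212 c5216 c6601 k0) (by decide +kernel)
def c15053 : PP 9 3 T 0xa000000000000000000000000080000000200000000000001000000000000000008000000000004000010020000000000000101000000 := rS 0x4e781329b498ec3e231b8e42fed (k8 c5500 c5433 c5317 c5518 c5331 c5517 c5332 c5444 (k4 c5397 c5447 c14834 c3578 (k1 c5458 k0))) (by decide +kernel)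
def c15054 : PP 9 3 T 0x1000220040000000000000000000000000200000000000000000000000020001008000000000000000014004000000400020000004400 := rS 0x385bee32027924083fb1d36606897d03133ea3cf691069e54219 (k8 c6205 c1195 c5524 c5522 c5374 c5372 c5568 c5566 (k8 c5382 c5380 c1630 c1706 c5663 c1190 c727 c729 (k8 c9123 c1573 c537 c536 c1608 c2885 c1714 c3610 k0))) (by decide +kernel)
def c15055 : PP 9 3 T 0x18000021040000000000000000080000000200000000000000000000000010000000000000000000000010020000000004000000000008 := rS 0x604e0d42e31d8aa9e61b7e87552f77a88c3e21069ec32f1 (k8 c9695 c6205 c5372 c5522 c265 c5517 c5331 c5519 (k8 c5333 c5489 c5486 c5405 c1109 c282 c3581 c15053 (k4 c5434 c5433 c281 c15021 (k2 c14092 c1696 k0)))) (by decide +kernel)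
def c15056 : PP 9 3 T 0x41000220040000000000000100080004000200000000001000000000000020000008000000000000000014004000140000005004004000 := rS 0xf7c7560fff9ad206281dbdc17ed (k8 c5500 c5516 c5333 c5332 c5651 c12094 c15054 c5548 (k4 c2572 c1344 c6335 c5506 (k1 c5658 k0))) (by decide +kernel)
def c15057 : PP 9 3 T 0x10000221040000000000000000000004000200000000000000000000000000000000000000000000000010020000000000000000000010 := rS 0x228fe25c0fe68a5aac452b338ed989b1f6aa9e64322bc4d26756abdfa1d54ec81e1f11bdc92f523d2ab219199ccc6570da35122709894de7b488841a02 (k8 c15052 c5522 c265 c5374 c5372 c5565 c1113 c5564 (k8 c267 c5567 c5381 c1109 c9757 c9752 c9716 c8428 (k8 c6205 c14994 c14743 c5520 c5519 c5334 c5333 c5331 (k8 c5517 c9739 c5210 c5489 c5486 c5405 c5406 c5490 (k8 c9680 c9742 c9695 c284 c1949 c282 c3581 c5500 (k8 c15053 c15055 c15056 c5571 c5574 c5417 c5421 c5422 (k4 c3602 c8140 c2199 c12080 (k2 c13919 c8534 (k1 c3010 k0))))))))) (by decide +kernel)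
def c15058 : PP 9 3 T 0x2000000000000008000000000000000000000000080000000000000000000001000000000000000000000000000000000000000000000000000104000000 := rS 0xf355bf43aa90f88deef5 (k8 c5519 c5333 c5331 c5517 c5489 c5486 c5405 c5500 (k2 c5540 c3581 k0)) (by decide +kernel)
def c15059 : PP 9 3 T 0xa000001040000000000000000080000000200000000000000000000000010000000000000004000100000000000000000000104000000 := rS 0xab79b30eccff0f7d38344ca6d92934bbf43aa91d87c46f71bbd432390b8c7daf1 (k8 c9695 c15058 c5434 c5433 c5317 c6205 c5519 c5518 (k8 c5333 c5331 c5517 c5332 c5489 c5486 c5405 c5404 (k8 c5444 c5396 c5397 c5447 c9240 c3578 c5450 c5458 (k4 c1650 c5668 c10798 c2500 (k2 c2075 c3581 k0))))) (by decide +kernel)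
def c15060 : PP 9 3 T 0x50000000000000000000000000000000000000001000020000000000000000001010000000000000000000000000000000000000000000 := rS 0x167f3 (k2 c5592 c2900 (k1 c5685 k0)) (by decide +kernel)
def c15061 : PP 9 3 T 0x200000000000000000100000004000000100000014010000000000000000000000001045400000000000000100000000000000000 := rS 0x10a05ef46c4d128f (k8 c5568 c5567 c5382 c5381 c8783 c3613 c5658 c1935 k0) (by decide +kernel)
def c15062 : PP 9 3 T 0x50000220000000000000000100000004000000000000001011000000000000000011000000001000000050080000400000000400000008 := rS 0x10961ef551b569007fa2e2a45141a6221b89a244e13129bd0e9135a0e3a8d (k8 c5381 c2159 c5525 c5523 c5374 c5373 c5565 c1113 (k8 c5564 c267 c5567 c5382 c1109 c9729 c9742 c5651 (k8 c456 c1289 c686 c11059 c15061 c15060 c2610 c3601 (k4 c15022 c1344 c5658 c1931 k0)))) (by decide +kernel)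
def c15063 : PP 9 3 T 0x45000000000000080000000000000000000000000080000000000000000010008000000000000000040000000000000000000000004000000001100000000 := rS 0x3fe07141191d6629 (k8 c5417 c5574 c5520 c5331 c8534 c2627 c3010 c5694 k0) (by decide +kernel)
def c15064 : PP 9 3 T 0x400010000000800005010000000000000005405500000000000000000000000000000 := rS 0x1a2c7 (k2 c2619 c1780 (k1 c3607 k0)) (by decide +kernel)
def c15065 : PP 9 3 T 0x208000000000010000000000000000000000000000054000000000000000000100100000000000000000000000000000000000000000000 := rS 0x30ebf56abf0791 (k4 c5491 c5407 c5406 c5490 (k2 c5431 c5429 (k1 c3625 k0))) (by decide +kernel)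
def c15066 : PP 9 3 T 0x4000800000000009000020040010000000000000000000000200000054000001000000000000100100000008000000400002080040200004000000004408 := rS 0x1a5f2d9b72534a8fc7ac5039d462db6c9046a55 (k8 c463 c5450 c458 c5497 c5455 c5434 c1894 c5432 (k8 c681 c5436 c5318 c5488 c2974 c15065 c14430 c9321 (k2 c6201 c5237 k0))) (by decide +kernel)
def c15067 : PP 9 3 T 0x10000000000000200000201040010100000000000000004000000000000000000000005000100100000000000000000050002000000000000000000000200 := rS 0x187a8b3796f38fd2e1eeea3d949cdf8d (k8 c5569 c5565 c5383 c5210 c5614 c5613 c5429 c8937 (k4 c1581 c730 c6451 c5220 (k2 c5671 c5348 (k1 c1801 k0)))) (by decide +kernel)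
def c15068 : PP 9 3 T 0x4000000000000001000221040010000000000000000004000200000050000000000000000000100100000008000000410002080040200000000000004608 := rS 0x34be529d9b73f185155e295d90cefa731f8f5b6c96c9046bde6281cea31 (k8 c5434 c1894 c5432 c681 c5668 c5450 c458 c5497 (k8 c5494 c5455 c5436 c5318 c9716 c9704 c8428 c5210 (k8 c5488 c9695 c463 c15066 c5629 c15067 c14430 c5605 (k2 c9321 c6201 (k1 c5237 k0))))) (by decide +kernel)
def c15069 : PP 9 3 T 0x101000021040000400040000000000000000200000000000100000000000000000000000018000000400002080040000004000000004408 := rS 0xa3b77e1e47de975ec3b33c583ad1ab6db3de6281cea31 (k8 c5434 c1894 c5432 c681 c5668 c5497 c5455 c5450 (k8 c5437 c5319 c9695 c14430 c5348 c5603 c6201 c1900 (k4 c5237 c5674 c5471 c5624 (k1 c3589 k0)))) (by decide +kernel)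
def c15070 : PP 9 3 T 0x10000221040000000000000000000004000200000000000000000000000000000000000000000000000010000000000000000000000010 := rS 0x245679045d7255d47d28f79f2e3fe1a55dddd47b87c94eff87b7fde180849784c1e36cb25b6cf1af799a7787b4c8810f7a2be6b5588a70abd599c76db13ab150b1d2d16443894183522873dbc4d26756abd2efd0ea5553b20787c46492782dea4726d28bb590c8cefa730da3627273ea251f8d1384c4a6f0101c2e31 (k8 c5434 c5433 c5432 c15052 c5565 c1113 c5564 c267 (k8 c5569 c5568 c5567 c5566 c5383 c5382 c5381 c1109 (k8 c9716 c9704 c8428 c6205 c14994 c14849 c14743 c5521 (k8 c5520 c5519 c5516 c5335 c5334 c5331 c5517 c9739 (k8 c5210 c5489 c5488 c5486 c5405 c5404 c5406 c5490 (k8 c9680 c9742 c9695 c5372 c5373 c5374 c5522 c5525 (k8 c5527 c265 c15057 c5644 c2159 c683 c681 c1894 (k8 c15059 c15062 c5571 c5574 c5575 c5423 c5417 c5421 (k8 c5422 c8140 c3602 c5583 c685 c686 c2939 c5025 (k8 c14463 c8354 c5668 c5450 c5453 c5455 c5494 c5497 (k8 c6601 c14092 c8115 c14345 c9863 c15068 c5640 c2205 (k8 c2208 c2207 c3226 c3492 c15069 c5614 c5613 c5430 (k8 c8937 c15067 c1581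 c6451 c730 c5624 c5207 c5671 (k4 c462 c5632 c5635 c1802 (k2 c8139 c10599 (k1 c310 k0)))))))))))))))) (by decide +kernel)
def c15071 : PP 9 3 T 0x8000211040000000000000000000000000000000000000000000100200000000000000401005045002011020000000005000000400008 := rS 0x1c6df67b1de281899bcfa8f (k8 c5568 c5566 c5565 c5382 c5380 c9695 c14212 c11551 (k2 c14796 c1662 (k1 c14941 k0))) (by decide +kernel)
def c15072 : PP 9 3 T 0x4000000000000000000211040000000000000000000004000000000000000000000000000020000000000401000401002011020000100021000000400018 := rS 0xdf63b8d9b03f6a10fee16a34c811cd956503133ea3d0ef73b8cc86893d820774a (k8 c14743 c5332 c280 c1684 c5567 c1949 c8428 c2051 (k8 c5333 c2111 c5568 c5566 c5382 c5380 c14994 c5210 (k8 c5658 c5281 c2081 c553 c1714 c841 c15071 c5541 (k4 c2629 c12000 c1663 c839 (k2 c3003 c3610 k0))))) (by decide +kernel)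
def c15073 : PP 9 3 T 0x52000201040000000000000000000004000200000000000000000000000000000000000000000000000010020000000000000000000010 := rS 0xb271081bee14eb1fc0cdf69fd08ff45fba02915a9b10679359ec10c43ba1d5aa91d87dee3719806228146c4cfa89478e42e9bce9162a28ac894de270988e949330a67be340ca5c3bb20d80862f1 (k8 c9695 c5434 c15052 c1109 c5210 c5486 c5404 c6205 (k8 c9240 c5450 c5447 c5445 c5444 c14743 c5331 c5564 (k8 c267 c5565 c1113 c14994 c5651 c1289 c456 c15070 (k8 c8100 c5433 c5317 c5568 c5567 c5566 c5382 c5381 (k8 c5380 c9729 c28 c8428 c5518 c5333 c5517 c5332 (k8 c5489 c5490 c2111 c2051 c14745 c280 c1684 c13641 (k8 c10338 c8722 c5665 c8714 c747 c15060 c15072 c5583 (k8 c5586 c8783 c840 c5541 c12000 c5185 c839 c5458 (k4 c5460 c5538 c3578 c14947 (k2 c541 c2458 k0)))))))))) (by decide +kernel)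
def c15074 : PP 9 3 T 0xa000211040000000000000000080000000200001000044000000000000010000000000000045400100000000000000000000004000008 := rS 0x903640441ec46c4d128f (k8 c5568 c5567 c5382 c5381 c5672 c15059 c5502 c266 (k2 c3613 c747 k0)) (by decide +kernel)
def c15075 : PP 9 3 T 0x400000000000000011040000000000000000080000000000000000000000000000000000000000000504008000000040000000000100000000400008 := rS 0x13a21f01b7da3b0f88c6e19 (k8 c6205 c5518 c5331 c5517 c5332 c5499 c744 c5185 (k2 c266 c5458 (k1 c3578 k0))) (by decide +kernel)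
def c15076 : PP 9 3 T 0x52000201040000000000000000000004000200000000000000000000000000000000000000000000000010000000000000000000000010 := rS 0x2ca042043bfd16c541a163a5a2c9d7be344ca4cce970eaa7640b7a91cba190da3472070b8c5379d22bc62a28ac894de2709808474a (k8 c14743 c5331 c15052 c5564 c267 c5565 c1113 c14994 (k8 c5651 c1289 c9695 c456 c15070 c8100 c5434 c5433 (k8 c5432 c5317 c5381 c1109 c6205 c14849 c5520 c5519 (k8 c5516 c5210 c5489 c5486 c5404 c9680 c5444 c5447 (k8 c9240 c5450 c1527 c15073 c5644 c2159 c683 c1896 (k8 c681 c686 c11059 c15075 c15059 c15074 c541 c2460 k0)))))) (by decide +kernel)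
def c15077 : PP 9 3 T 0x8000211000000000000000000080000000000001000000000000140200060000000000000005444000000000000000000000004000008 := rS 0x481b1c62067fb0f2f140c4cfa8f (k8 c5568 c5566 c5382 c5380 c9695 c1632 c5732 c11551 (k4 c15058 c1662 c266 c3610 (k1 c747 k0))) (by decide +kernel)
def c15078 : PP 9 3 T 0x8000000000000000000000000080000000000000000000005000000000000000000000000000800000010000000000000000000000008 := rS 0x101b556fd0eaa43e237bbd6221b (k8 c1109 c9729 c5519 c5333 c5331 c5517 c5489 c5486 (k4 c5405 c1974 c2431 c3581 (k1 c266 k0))) (by decide +kernel)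
def c15079 : PP 9 3 T 0x8000210000000000000000000080000000000000000000001000140000460000000001000001044000010020000000000020000000008 := rS 0x71a45646c107b0f2837986d0313379f62a23 (k8 c5331 c1289 c5566 c5565 c5382 c5380 c1109 c283 (k8 c15078 c1632 c5732 c15058 c266 c541 c747 c2459 (k1 c14947 k0))) (by decide +kernel)
def c15080 : PP 9 3 T 0x51000211040000000000000000000004000000000000000000000000000020000000000000000000000010020000000000000000000010 := rS 0x13fe3712456a6c3cfb5087f65980be7578bf43aa9d907dea5d8898c3681899f51ea10cc545159129bc4e130108d8e7b4eb85bfe02da1def4a (k8 c14743 c5333 c2111 c32 c5235 c5538 c5460 c5458 (k8 c5457 c5535 c5331 c15052 c5564 c267 c5565 c1113 (k8 c14994 c5651 c1289 c6205 c1195 c5568 c5566 c5382 (k8 c5380 c1109 c9752 c9729 c14849 c5519 c5517 c5210 (k8 c5489 c5486 c5405 c9695 c126 c1630 c5663 c1755 (k8 c729 c15079 c5541 c2545 c14948 c14816 c747 c14947 (k2 c10517 c1608 (k1 c5680 k0)))))))) (by decide +kernel)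
def c15081 : PP 9 3 T 0x50000201040000000000000000000004000200000000000000000000000000000000000000000000000010020000000000000000000010 := rS 0xe33ca45fc843640638f2f6b3fdfde3f9d4be601ab14867743ec8761f11bdc6ef5a5174661b40a36267d448e42e3122bc54228ac894de270980832c74eb45c2cd6ff83639d (k8 c15070 c15076 c5235 c5538 c5537 c5460 c5459 c5458 (k8 c5535 c6205 c15052 c5564 c267 c5565 c1113 c14994 (k8 c5651 c1195 c9695 c456 c5434 c5433 c5317 c5567 (k8 c5566 c5382 c5381 c5380 c1109 c8428 c14849 c14743 (k8 c5519 c5518 c5333 c5331 c5517 c5332 c5210 c2111 (k8 c2051 c1949 c15080 c281 c14092 c62 c1576 c729 (k8 c5668 c8993 c5453 c10382 c9979 c5658 c9765 c14948 (k4 c15030 c555 c850 c2429 (k2 c2574 c14947 k0))))))))) (by decide +kernel)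
def c15082 : PP 9 3 T 0x211000000000000000000000004000000001000000000000000000000000000000000004000000010080000100000000000000011 := rS 0x481b1e70155fb1e2fd54ec83e237ba1416837aa2dff1d4691e9559 (k8 c14994 c14743 c5520 c5381 c2159 c11059 c686 c5519 (k8 c1896 c5516 c683 c5333 c5331 c5517 c5210 c5489 (k8 c5405 c9695 c5672 c5500 c5502 c5540 c9986 c15061 (k1 c747 k0)))) (by decide +kernel)
def c15083 : PP 9 3 T 0x50000201040000000000000000000004000200000000000000000000000000000000000000000000000010000000000000000000000010 := rS 0x426b357ded3ef1fd96773017cd46d4322ceac58e968b29df06c62aa1228a1e26756ec8761f118de945dac864031131a051a7d4489c26253780872070b8c5379d (k8 c15070 c8100 c5434 c5433 c5432 c5317 c15052 c5565 (k8 c1113 c5564 c267 c5567 c5566 c5381 c5380 c9752 (k8 c9729 c28 c6205 c14994 c14849 c14743 c5518 c5331 (k8 c5517 c5332 c5210 c5490 c9680 c9695 c5651 c456 (k8 c1195 c1289 c15076 c5235 c5458 c15081 c5644 c2159 (k8 c681 c1894 c686 c15082 c744 c5665 c8110 c5663 (k8 c11141 c1755 c729 c5668 c14519 c8993 c5454 c3608 (k2 c5658 c1933 k0))))))))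 (by decide +kernel)
def c15084 : PP 9 3 T 0x8a000200000000000000000000000000000200000000000001000000040000000000000000000000040010020000000000000000000000 := rS 0x1fcbec4 (k4 c14745 c1630 c841 c10494 k0) (by decide +kernel)
def c15085 : PP 9 3 T 0x8000211000000000000000000080000000000000000000000000140200060000000000000001044010010020000000000000000000008 := rS 0x903638c40cff61e506f37886d03133ea3d0ef7 (k8 c5333 c2111 c5568 c5566 c5382 c5380 c1109 c9695 (k8 c283 c15078 c1632 c5732 c11551 c15058 c1662 c266 (k2 c3610 c746 k0))) (by decide +kernel)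
def c15086 : PP 9 3 T 0x18000211000000000000000000080000000000200000010000000140040060000000001000000000010010120000000000000000000208 := rS 0x1c66c489e607ed42350687f3a87c46f540c4cde7d43bdcf63b (k8 c5332 c1684 c5333 c2111 c5566 c5565 c5382 c5380 (k8 c5519 c5331 c5517 c126 c841 c1627 c553 c15085 (k4 c5541 c2629 c2545 c850 (k2 c14948 c1663 (k1 c14947 k0))))) (by decide +kernel)
def c15087 : PP 9 3 T 0x98000211040000000000000000080000000200000000000000000000000000000000000000000000000010120000040004000000000008 := rS 0xe3489e5fc6c797b59fde3f9d4be601ab15bee168a758fe0d8c0410d38e114ee8778ab55e1d1d87c46f71bbd4e61b40c4cfa2709894de17189c452b1 (k8 c5421 c5417 c5571 c5434 c5433 c5565 c1113 c5564 (k8 c267 c5566 c5382 c5380 c1109 c9716 c5519 c5518 (k8 c5333 c5331 c5517 c5332 c5486 c5406 c5490 c9695 (k8 c2111 c2051 c284 c3582 c2081 c14466 c10477 c15084 (k8 c5235 c5535 c5458 c5459 c5460 c5538 c15086 c281 (k8 c14092 c62 c1576 c728 c5668 c5453 c10382 c9979 (k4 c14948 c555 c2429 c746 (k2 c2574 c14947 k0)))))))) (by decide +kernel)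
def c15088 : PP 9 3 T 0x82000201040000000000000000000004000200000000000000000000000000000000000000000000000010080000000000000004000000 := rS 0xefdf6b0d14293789a4cead57a5c3bb20ca353e296281cea31 (k8 c5434 c1894 c5432 c681 c5417 c5572 c5381 c6205 (k8 c5210 c5486 c5404 c5406 c5490 c9680 c9742 c9695 (k4 c5444 c5398 c9240 c14703 (k2 c5450 c2187 (k1 c5668 k0))))) (by decide +kernel)
def c15089 : PP 9 3 T 0x10000201040000000000000000000004000200000000000000000000000000000000000000000000000010000000000000000000000010 := rS 0x454424b7f1b60686f6f78efb169910eac541a14b45921fbd14b114acce3b6ce8c40e6933ab55e97d908dee0b1bbd48f4a2e8cce61b469f5122709894de02 (k8 c15052 c5565 c1113 c5564 c267 c5567 c5566 c5381 (k8 c1109 c9716 c8428 c14849 c14743 c5520 c5519 c5518 (k8 c5516 c5333 c5331 c5210 c5404 c5406 c5490 c9680 (k8 c9742 c5432 c5434 c15070 c15083 c5571 c5574 c5417 (k8 c5421 c3602 c5583 c2775 c15087 c5644 c683 c1896 (k8 c681 c1894 c686 c2939 c15088 c14463 c5668 c10382 (k8 c5672 c10690 c744 c901 c461 c266 c3010 c8534 k0))))))) (by decide +kernel)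
def c15090 : PP 9 3 T 0x1000000000000000000200000000000000000100080000000000000000000005000000000000000058000001000000000150000000140000010110000008 := rS 0x1147f12fe7038e2296ab1599c76c1f11bdc92473986d1a891384c4a6f (k8 c5565 c1113 c5564 c267 c5567 c5381 c1109 c9716 (k8 c5520 c5334 c5333 c5331 c5517 c5651 c5571 c5574 (k8 c5421 c5422 c3602 c3582 c2199 c8140 c12080 c6335 (k2 c8534 c3010 k0)))) (by decide +kernel)
def c15091 : PP 9 3 T 0x10000000000000000000000100000004000000100000040054000000000000000018000000000000000000000001540000020400001000 := rS 0x1f3254056ab1f73ff6f15 (k8 c1289 c5417 c11059 c5658 c5506 c1344 c15060 c3593 (k2 c5546 c12113 k0)) (by decide +kernel)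
def c15092 : PP 9 3 T 0x220000000000000000000000000000000000000000000000000000040001000000000000040000000000004400000020000800000 := rS 0x70b7dc6ca1e206267d479ed2279 (k8 c5524 c5374 c5372 c5568 c5566 c5382 c5380 c1308 (k4 c1307 c1494 c2770 c1719 (k1 c3610 k0))) (by decide +kernel)
def c15093 : PP 9 3 T 0x18000220000000000000000100080004000000000000000001000000000100000000000004000000000050020000000014000001000008 := rS 0x1c2df71b5878300b92d6b01f7c70ff031fedc50aa63bcc0c43229a55aaf4bbf43a955487c46f724bd48e818984cfa89479ed2279f68841a1b (k8 c1109 c5522 c265 c15058 c5524 c5374 c5372 c5568 (k8 c5567 c5566 c5564 c5382 c5380 c5520 c5519 c5334 (k8 c5333 c5331 c5517 c5489 c5488 c5486 c5405 c5404 (k8 c5406 c5490 c9742 c284 c1949 c14824 c282 c13650 (k8 c3581 c15090 c5417 c404 c12094 c677 c15091 c5504 (k8 c2139 c1345 c9182 c15092 c3577 c2164 c2163 c1494 (k2 c2770 c1721 (k1 c3610 k0)))))))) (by decide +kernel)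
def c15094 : PP 9 3 T 0x10000221040000000000000000000004000000000000000000000000000000000000000000000000000010000000000000000000000010 := rS 0x6f451c7e13a9f8123e2084089011efcd14d6f1ad5622965acce3b642c74b45910a0cf20d48a1cf6f13499d5aaf7ea5553b20f88c920b7a91e945dac864667346c4d122709894de023ba4d42c94dec18a3567b37bd29 (k8 c15089 c5214 c5495 c5453 c5450 c5451 c5209 c5397 (k8 c5396 c5398 c5444 c14727 c15052 c5565 c1113 c5564 (k8 c267 c5567 c5382 c5381 c9716 c8428 c6205 c14994 (k8 c14849 c14743 c5520 c5519 c5516 c5334 c5331 c5517 (k8 c5210 c5489 c5488 c5405 c5406 c5490 c9680 c9742 (k8 c9695 c5372 c5373 c5374 c5522 c5524 c5525 c265 (k8 c15093 c5644 c2159 c683 c15062 c5571 c5574 c5420 (k8 c5417 c5421 c5422 c6601 c9031 c3602 c8140 c1492 (k8 c3068 c686 c685 c458 c5655 c275 c2907 c1895 (k4 c8115 c15064 c9334 c10493 (k1 c2950 k0))))))))))) (by decide +kernel)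
def c15095 : PP 9 3 T 0x200080000000008a000000000000000000000000000000000000000000000000000000000000000000000000000000000000000000000000000000000000 := rS 0x781a2ab4bbf52aa964a6d32cf (k8 c5453 c5447 c5397 c5396 c5489 c5488 c5405 c5404 (k4 c5500 c5501 c15004 c8772 k0)) (by decide +kernel)
def c15096 : PP 9 3 T 0x800000000018000011040000000000000100000000000100000400000050000000000000000000000000004110004010100000540044014440000088 := rS 0x381227b367b5bee31e1fc7f1cf1ac4e3b678ab55e1d0d894c3b020b1c3279 (k8 c1454 c6205 c13650 c1734 c5209 c5445 c1113 c1109 (k8 c5486 c5406 c5490 c9695 c5651 c5571 c5421 c6601 (k8 c3582 c405 c677 c5655 c1493 c2770 c15095 c14948 (k4 c742 c746 c14941 c10249 k0)))) (by decide +kernel)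
def c15097 : PP 9 3 T 0x2000000000000008000000040000000000000000080000000000000000000001000000004140000000000500000001000001000000000000000004000008 := rS 0xf0881a2ab4bbf52aa9 (k8 c5489 c5488 c5405 c5404 c5500 c5501 c15058 c8772 (k1 c13817 k0)) (by decide +kernel)
def c15098 : PP 9 3 T 0x800000000018000211040000000000000100080000000100000000000000000000000000000000000000000000000010120000000004000000000008 := rS 0x78e2f1b7dc3e0489ecd9ed3fc547e283cb1c8206219150ef10f88dee377a91c321b40c4cde7d44a3c4e1349b2536614cec06acf (k8 c5453 c5450 c5209 c5447 c5445 c5397 c5396 c5444 (k8 c5564 c267 c5568 c5567 c5566 c5565 c5382 c5380 (k8 c1109 c6205 c5520 c5519 c5518 c5333 c5331 c5517 (k8 c9695 c2111 c284 c1949 c14824 c1734 c13650 c1454 (k8 c15096 c404 c1289 c677 c15097 c14948 c742 c747 (k4 c5669 c10249 c14796 c10517 (k2 c3610 c5655 (k1 c1493 k0)))))))) (by decide +kernel)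
def c15099 : PP 9 3 T 0x800000000002000011000000000000000000000004000000000000000000000000000000000000000000110000004010080000000000014000000018 := rS 0x8a88496fe36c0c8886457b56ab1599c76c6933ab55fb20f88c9247ac9cc4a8505a0deb4a (k8 c14743 c5519 c1896 c5516 c683 c1113 c9716 c14994 (k8 c5520 c5334 c5331 c5517 c5210 c5406 c5490 c9680 (k8 c9742 c5651 c5571 c5574 c5421 c5422 c15095 c3602 (k8 c5672 c686 c10690 c744 c901 c461 c266 c3010 (k1 c3584 k0))))) (by decide +kernel)
def c15100 : PP 9 3 T 0x12000000000000000000000000000000000000000000000000000000000000000000000000000400200800080000000000000001000011 := rS 0x5cf608 (k4 c1895 c1689 c1507 c13641 k0) (by decide +kernel)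
def c15101 : PP 9 3 T 0x11040000000000000000000004000100000100000000000000000040000004000000000004101000000000000000000000000000 := rS 0x1a29d4dec19bde (k4 c5214 c5495 c5209 c5397 (k2 c8792 c8113 (k1 c14869 k0))) (by decide +kernel)
def c15102 : PP 9 3 T 0x10000201040000000000000000000004000000000000000000000000000000000000000000000000000010000000000000000000000010 := rS 0x1e3582c7f03784f45e3aaacd4c736a1917151f91450838e968b39d6ab14c2c9ef6c0ef2913a24fa6f09a3502f13499d2e95d908deb4a2ed64323300c44c602 (k8 c15052 c9752 c9729 c28 c8428 c6205 c14994 c14849 (k8 c14743 c5519 c5331 c5210 c5488 c5404 c9680 c9742 (k8 c9695 c5380 c5381 c5564 c5565 c5566 c5567 c267 (k8 c15089 c14727 c5209 c5214 c5396 c5445 c5451 c5454 (k8 c15094 c15098 c5644 c2159 c1896 c15099 c456 c404 (k8 c1289 c686 c15082 c744 c798 c5665 c9859 c15100 (k8 c3597 c15101 c5457 c9301 c677 c1450 c10269 c1308 (k1 c1492 k0)))))))) (by decide +kernel)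
def c15103 : PP 9 3 T 0x120040000000000000000000000000000000000000000000140000040000000000000000050000000000000000000000000020440 := rS 0x71787c513409ecf28f (k8 c5526 c5524 c5372 c699 c703 c5670 c13945 c5910 (k1 c5466 k0)) (by decide +kernel)
def c15104 : PP 9 3 T 0x90000121040000000000000000080004000200000000000000000000100000000000000000040000000010020000100000000000000008 := rS 0x4312845bee163a753660551fda27d2fbcd88f17e87553b20f88dee0b7a8ccc61b59a7cf6210681f6201 (k8 c28 c14386 c5432 c5522 c265 c5372 c5572 c5574 (k8 c1109 c9752 c8428 c5519 c5516 c5333 c5331 c5517 (k8 c5210 c5489 c5486 c5405 c9695 c15055 c282 c1630 (k8 c1633 c1706 c840 c3581 c5663 c1190 c1696 c727 (k4 c13096 c13097 c15103 c12632 (k2 c1950 c14251 k0)))))) (by decide +kernel)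
def c15105 : PP 9 3 T 0x8000400000000090000121040000000000000000080004000200000000000000000000000010000000000000001000100010000000000000000000000008 := rS 0x201136638512e3f09f939e34da65929340978c2766899d2e3b1198d968d6abfd0e91359e5068ff68841a1bd93c76201 (k8 c28 c14386 c9695 c5210 c1109 c5522 c265 c15058 (k8 c5526 c5525 c5524 c5523 c5374 c5373 c5586 c5585 (k8 c5505 c5420 c9752 c5331 c5332 c5404 c9680 c10484 (k8 c5668 c724 c11141 c938 c262 c10171 c1520 c1119 (k8 c6616 c14193 c14232 c5458 c1777 c2922 c3058 c11160 (k2 c810 c8783 (k1 c2078 k0))))))) (by decide +kernel)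
def c15106 : PP 9 3 T 0x10000021040000000000000000000004000200000000000000000000000000000000000000000000000010000000000000000000000010 := rS 0xd163b7e29f325894228070a74fe7d2018141e366b24eecf1af78eac542968b2310b81de2ad57a57643b0f88c920b23d28ba330098c362959a7d96275aed9ae4545b57dda1ac9ed0e79418841a02 (k8 c15052 c5522 c265 c5525 c5524 c5373 c5372 c14994 (k8 c15102 c5219 c5585 c5583 c5582 c5507 c5212 c5422 (k8 c5570 c5420 c5572 c5574 c8199 c1109 c9752 c28 (k8 c8428 c14849 c14743 c5520 c5516 c5334 c5331 c5517 (k8 c5332 c5210 c5488 c5406 c5490 c9695 c5432 c5433 (k8 c5434 c15104 c5644 c683 c681 c1894 c15105 c5450 (k8 c5453 c5493 c5494 c5495 c6601 c9031 c14092 c14367 (k8 c2826 c10398 c1696 c1714 c5670 c699 c12632 c12638 (k4 c8140 c3584 c2951 c941 (k2 c8355 c3607 k0)))))))))) (by decide +kernel)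
def c15107 : PP 9 3 T 0x8000000000000000000001040000000000000000000004000100000000000000000000000400000000000000000000000000000000000000000000000000 := rS 0x1a5ded82b52fb2 (k4 c5210 c5404 c5490 c5209 (k2 c5214 c8156 (k1 c5496 k0))) (by decide +kernel)
def c15108 : PP 9 3 T 0x8000111040000000000000000080000000000000000000000000140000000000000000000000050000010020000005100002000000058 := rS 0xab10bccd485487cc94e320f891f13409b820f17e875523b0f88dee0b7a91c021b (k8 c1109 c28 c5520 c5519 c5516 c5333 c5331 c5517 (k8 c5332 c5489 c5486 c5405 c9695 c12632 c1113 c699 (k8 c703 c2751 c5670 c5462 c5466 c5258 c5546 c13156 (k4 c13042 c3039 c283 c2372 (k2 c1137 c3581 k0))))) (by decide +kernel)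
def c15109 : PP 9 3 T 0x18000111040000000000000000080000000200000000000000000140000000000000000000000000010010120000080000000000000008 := rS 0x7b2006d4812a26e32084111e2788ec3e2305bd48e391f8f50ef7 (k8 c5333 c2111 c5436 c5318 c5317 c5520 c5519 c5516 (k8 c5331 c5517 c5332 c9695 c14230 c1949 c1950 c5462 (k8 c5466 c703 c5258 c13156 c746 c3042 c14948 c5502 k0))) (by decide +kernel)
def c15110 : PP 9 3 T 0x10000001040000000000000000000004000000000000000000000000000000000000000000000000000010020000000000000000000010 := rS 0x1a314c27e3e840484378eca945d1986ce245458e47e070b8c47ae16ff8362010167650cbdb7bb4359 (k8 c14994 c15102 c5219 c5212 c5420 c15107 c15106 c15052 (k8 c28 c14386 c5235 c5538 c5460 c5436 c5434 c5433 (k8 c5432 c5318 c5317 c5583 c5582 c5571 c1109 c8428 (k8 c14849 c14743 c5210 c9695 c15109 c14251 c12632 c2747 (k4 c15108 c10398 c840 c14092 (k1 c281 k0)))))) (by decide +kernel)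
def c15111 : PP 9 3 T 0x10000001040000000000000000000004000000000000000000000000000000000000000000000080000010000000000000000000000010 := rS 0x1ed439d8d9df358d0bd1330bc764671d87c4637a50ce22630d8e42e9b63a77c1b10080b3ac5039d4b4592e8c650cbdb7bb4359 (k8 c14994 c15102 c5219 c5212 c5420 c15107 c5434 c14849 (k8 c15110 c5644 c1894 c5432 c681 c15106 c15052 c28 (k8 c14386 c5235 c5458 c5535 c8100 c5433 c5317 c1109 (k8 c9752 c9729 c8428 c14743 c5518 c5331 c5517 c5332 (k8 c9680 c5210 c9695 c10398 c809 c5663 c14092 c8110 (k4 c5450 c5665 c5668 c744 (k2 c14768 c13987 k0))))))) (by decide +kernel)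
def c15112 : PP 9 3 T 0x89000100040000000000000000000000000200000000000000000000100000000000000000100040800050000000000000000000000008 := rS 0xf132526812f1840263 (k8 c9752 c28 c724 c11141 c938 c262 c10171 c14232 (k1 c6616 k0)) (by decide +kernel)
def c15113 : PP 9 3 T 0x10000001040000000000000000000004000000000000000000000000000000000000000000000000000010000000000000000000000010 := rS 0x1292e2a11489a84280899b4fa865078fdbde3b9fceac541a14b459ceec4620794355ae8d65acfddb614e84c71100808cead57a5764237b82c6ef523d28bb59 (k8 c14994 c14849 c14743 c5520 c5519 c5518 c5516 c5333 (k8 c5331 c5210 c5488 c5406 c5490 c9680 c15052 c28 (k8 c9729 c9752 c15102 c8199 c5212 c5219 c5574 c5420 (k8 c5505 c5507 c5585 c15107 c5432 c5434 c14386 c15106 (k8 c15110 c5644 c683 c1896 c681 c1894 c15111 c15112 (k8 c5668 c10382 c6601 c9031 c5672 c2826 c744 c13182 (k8 c5670 c266 c5665 c9822 c699 c1140 c13156 c12632 (k1 c8534 k0)))))))) (by decide +kernel)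
def c15114 : PP 9 3 T 0x50000220080000000000000100000004000100000000001040000000000000000051000050000000001050020000400000010051000002 := rS 0x10ac949b302cd167f7d88d5f72663b15131c1628b218d48a1b049cd1a1337a26227b43a0fc2d769b81c68f899e4fedff16c4ee7531b1cbfed359a5027d (k8 c5442 c5380 c9742 c1058 c14747 c5439 c5357 c5355 (k8 c5440 c5356 c14906 c5226 c5580 c5358 c5441 c5382 (k8 c5568 c5466 c5864 c5579 c5465 c12084 c5525 c5373 (k8 c5372 c5371 c5567 c5565 c5564 c5381 c5379 c5438 (k8 c1943 c284 c280 c1949 c15037 c15040 c3602 c668 (k8 c3049 c351 c1598 c5658 c5585 c8136 c5725 c1652 (k4 c8163 c11149 c10805 c55 (k2 c1064 c2502 (k1 c13988 k0))))))))) (by decide +kernel)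
def c15115 : PP 9 3 T 0x50000221000000000000000000000004000000000000000000000000000000000000000000000000000010000000000000000000000014 := rS 0x447fc0fdeb48aacc86264eaa84a9242c74b459f9b81bee3f13c55aaf0ebdc92472ed64fa793fa051b1344a3c521988a1c1b291d83c6fb13b9d4c6c72fe4bda6b0f9b4000ba52a52afd4bec8ce69 (k8 c9742 c9680 c5210 c5404 c5405 c5488 c5489 c14743 (k8 c5516 c5642 c665 c5517 c1058 c14747 c15113 c5439 (k8 c5357 c5355 c5440 c5356 c14906 c5518 c9739 c5332 (k8 c6200 c5522 c5373 c5371 c9701 c9694 c5568 c5567 (k8 c5382 c5381 c5380 c5358 c5441 c5442 c14994 c14849 (k8 c5520 c5334 c5333 c5486 c5406 c5490 c9695 c5226 (k8 c5466 c5580 c5864 c8118 c15114 c5644 c2159 c683 (k8 c14895 c14996 c10258 c1694 c5651 c5252 c2899 c3046 (k4 c5685 c15022 c2200 c2572 (k2 c5658 c9612 k0)))))))))) (by decide +kernel)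
def c15116 : PP 9 3 T 0x10000221000000000000000000000004000000000000000000000000000000000000000000000000000010000000000000000000000014 := rS 0x1090255c07defff9a2a28b558acce3b6f6a0d2287889a4cead57bf553b239a36266f44a3cd61f36800174a (k8 c14743 c5516 c5642 c665 c5517 c1058 c5568 c5567 (k8 c5565 c5382 c5381 c5379 c5210 c5489 c5405 c5406 (k8 c5490 c9680 c9742 c5371 c5373 c5374 c5525 c14747 (k8 c15115 c5571 c5574 c5421 c5422 c3604 c3602 c5590 (k4 c3010 c5583 c3068 c13919 (k2 c5694 c3601 (k1 c2629 k0))))))) (by decide +kernel)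
def c15117 : PP 9 3 T 0x400000000019000011000000000000000000080000000200000000000000000000010000000000000400001001000010020000000000000000000100 := rS 0x41fb554c849a7133e16633de6354386de2a91dbdc6ef5198e42e31 (k8 c5434 c5433 c5317 c5316 c5519 c5518 c5333 c5332 (k8 c5489 c9695 c1943 c2111 c280 c283 c11551 c3587 (k8 c5537 c2440 c5679 c1694 c14345 c1275 c5500 c11573 (k1 c8541 k0)))) (by decide +kernel)
def c15118 : PP 9 3 T 0x58000011000000000000000100080000000200000000000000000000000200001800000002005440000000000000000000011000000000 := rS 0x32dc2d34ea29e6ab7ffb03af780c544c4956b7e06a9 (k8 c5489 c2460 c2948 c5490 c5334 c5651 c3046 c15060 (k8 c5333 c5486 c5672 c3009 c5500 c5540 c5276 c1275 (k4 c2938 c2899 c1325 c15031 k0))) (by decide +kernel)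
def c15119 : PP 9 3 T 0x50000201000000000000000000000004000200000000000000000000000000000000000000000000000010000000000000000000000014 := rS 0x7bc8ab069329c29d66a19beb2481c0867f14ad63a837a89420c862968b3df3081d2a97d8865a2752f9dd366342c40d6000f9a73a7904d28bb593ee48de1346a04e68957ab76467 (k8 c9680 c5210 c5490 c5406 c5567 c5379 c5380 c5381 (k8 c5564 c5565 c15113 c5442 c14994 c14849 c14743 c5438 (k8 c5441 c15116 c9742 c5517 c5642 c1058 c8158 c845 (k8 c5355 c1187 c5356 c5439 c5440 c9572 c9701 c14670 (k8 c5404 c5488 c5432 c661 c14615 c15117 c5644 c681 (k8 c14285 c14628 c14996 c5519 c1896 c2159 c1340 c9694 (k8 c5358 c5252 c14701 c884 c885 c2948 c15118 c2073 (k8 c1276 c2899 c15031 c1325 c1324 c4886 c5506 c5658 k0)))))))) (by decide +kernel)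
def c15120 : PP 9 3 T 0x10000201000000000000000000000004000200000000000000000000000000000000000000000000000010000000000000000000000014 := rS 0x1aad75078d62cb4f9c76cc862968b3df30ec40eaf4ba54ba093e9e4fe73409bc328534a6da310ce9ac001fa51d4be63339df25b2 (k8 c5210 c15113 c5356 c9680 c5355 c5439 c5440 c14743 (k8 c5517 c5642 c1058 c15116 c8158 c9572 c1187 c9742 (k8 c845 c9701 c5565 c5380 c5379 c5358 c5441 c5442 (k8 c5438 c14849 c5488 c5404 c5406 c5432 c14670 c661 (k8 c14615 c15117 c5644 c681 c14285 c15119 c5571 c5572 (k4 c5420 c5421 c12178 c3599 (k2 c2189 c3000 (k1 c11663 k0)))))))) (by decide +kernel)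
def c15121 : PP 9 3 T 0x400000000000000200080000000000000100000004000100000000000000000000000000000150000004000000000050000000000000002000000012 := rS 0x1ee4578ce26939a34de89 (k8 c5567 c5565 c5381 c5379 c9742 c2755 c12834 c3602 (k2 c5166 c5583 k0)) (by decide +kernel)
def c15122 : PP 9 3 T 0x52000201000000000000000000000004000000000000000000000000000000000000000000000000000010020000000000000000000014 := rS 0x7b04ab121914365b78ab55e1d7b925ea47ac84d128f14a156b10ce9ac001fa51ce5293ef98724954bec8ce69 (k8 c9742 c9680 c5210 c5404 c5488 c15113 c5445 c14615 (k8 c5444 c15120 c5379 c14743 c5517 c5642 c1058 c15116 (k8 c8158 c1340 c845 c9694 c5568 c5567 c5564 c14994 (k8 c5520 c5519 c5334 c5333 c5486 c5406 c5490 c9695 (k8 c32 c1943 c284 c1949 c15040 c15121 c15048 c15001 k0))))) (by decide +kernel)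
def c15123 : PP 9 3 T 0x2000000000000000000000100000004000100100000000000000000000000000010000040000000000000000000151020000000000000 := rS 0xd365f887fee (k4 c5658 c441 c5655 c5464 (k2 c5579 c8156 k0)) (by decide +kernel)
def c15124 : PP 9 3 T 0x52000201000000000000000000000004000000000000000000000000000000000000000000000000000010000000000000000000000014 := rS 0xf6b31e43870fcd64903837c7ecbf17bc883d2090c682541c74b45918f7d88614fa4cd26756abd2e95d93d4bb592f98cee75c923452b588674d6000fd28e729 (k8 c15120 c5379 c14743 c5517 c5642 c1058 c15116 c8158 (k8 c1340 c9694 c5381 c15113 c5440 c5356 c5355 c5439 (k8 c14994 c14849 c5519 c5210 c5488 c5404 c5406 c5490 (k8 c9680 c9742 c5444 c5448 c5445 c10013 c14615 c1470 (k8 c15122 c5644 c2159 c1896 c14996 c9931 c5252 c13854 (k8 c12427 c15123 c5582 c5166 c5464 c5576 c5580 c12178 (k8 c884 c885 c5589 c2898 c14997 c439 c440 c5540 (k1 c12000 k0)))))))) (by decide +kernel)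
def c15125 : PP 9 3 T 0x50000201000000000000000000000004000000000000000000000000000000000000000000000000000010020000000000001000000014 := rS 0x3d8f1d93dc92f523d651e29429a56b10ce9ac001fa51ccb61b2284c8689 (k8 c5567 c1949 c5564 c284 c1943 c32 c5379 c14743 (k8 c5517 c5642 c1058 c15116 c8158 c1340 c9742 c845 (k8 c9694 c5568 c14994 c5520 c5519 c5334 c5333 c5210 (k2 c9695 c15048 (k1 c15001 k0))))) (by decide +kernel)
def c15126 : PP 9 3 T 0x50000201000000000000000000000004000000000000000000000000000000000000000000000000000010020000000000000000000014 := rS 0x333bc391985d24711233de6311aa1c3a951dbdc6ef5049e4328534a6da310ce9ac001fa51d4be63339df25b2f16c6b329 (k8 c15120 c14994 c15124 c5226 c5210 c15113 c5356 c9680 (k8 c5355 c5439 c5440 c14743 c5517 c5642 c1058 c15116 (k8 c8158 c9572 c1187 c9742 c845 c9701 c5441 c5438 (k8 c5519 c5518 c5333 c5332 c5488 c5486 c2111 c280 (k8 c1945 c283 c11551 c15125 c2755 c12834 c55 c322 (k4 c325 c11149 c3587 c5495 k0)))))) (by decide +kernel)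
def c15127 : PP 9 3 T 0x50000201000000000000000000000004000000000000000000000000000000000000000000000000000010000000000000000000000014 := rS 0x2cfe6e025c544c391ea744a922d165be3f71907c5b1789a4cead57a5d2bb21d9248e5dac9dc52195a9cd3710ce9ac001fa518f2529 (k8 c15120 c15113 c5355 c14743 c5517 c5642 c1058 c15116 (k8 c8158 c1187 c5379 c1340 c9701 c9694 c5356 c14994 (k8 c14849 c5520 c5334 c5332 c5210 c5488 c5404 c5406 (k8 c5490 c9680 c9742 c9695 c15124 c5226 c5462 c5466 (k8 c5576 c5580 c15126 c5644 c14895 c14996 c1694 c1570 (k8 c325 c5651 c3046 c354 c9944 c5591 c2899 c5685 k0)))))) (by decide +kernel)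
def c15128 : PP 9 3 T 0x4000400000000001000200080000000000000100000004000100000000000000000000000000000000004010000000010000000000000010000011000010 := rS 0x187c416 (k4 c11149 c5166 c1460 c12178 k0) (by decide +kernel)
def c15129 : PP 9 3 T 0x4000000000000001000211080000000000000000000004000100000000000000000000010000000000004400001000010010020000000000000001000012 := rS 0xe124cd19b17bccf798c46a873499d2e1d4aec876f71bbd69559049e4ee75 (k8 c5440 c5356 c5441 c5438 c14994 c14743 c5519 c5518 (k8 c5333 c5332 c5210 c5488 c5486 c5404 c9680 c9742 (k8 c2111 c280 c1945 c283 c11551 c15128 c5451 c5492 (k4 c5495 c14891 c3587 c325 k0)))) (by decide +kernel)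
def c15130 : PP 9 3 T 0x8000000000088000200080000000000000000080000000000000200000000000140000000000000000000000000000000000000205100000000000000 := rS 0x1edf0b3604f23d26094607190476491b91ce29f (k8 c5572 c5571 c5520 c5518 c5334 c5332 c5462 c5466 (k8 c12178 c3590 c881 c880 c460 c461 c4644 c5457 (k2 c5540 c7311 k0))) (by decide +kernel)
def c15131 : PP 9 3 T 0x10000201000000000000000000000004000000000000000000000000000000000000000000000000000010000000000000000000000014 := rS 0x1a903bde370b7c7a391fa7488922d167de8ad8ac44e9f599c76d2968a6d0b10ce9ac0019789a4cead57a5d2bb21d87e945dac97cfa7f319dceb9239a34de89 (k8 c5567 c5565 c5381 c5379 c15113 c5440 c5356 c5355 (k8 c5358 c5442 c5439 c14994 c14849 c14743 c5517 c5332 (k8 c5210 c5488 c5404 c5406 c5490 c9680 c9742 c9695 (k8 c9701 c5642 c1058 c15116 c8158 c845 c1187 c9572 (k8 c15120 c15127 c5571 c5574 c5572 c5570 c5421 c8833 (k8 c3602 c5583 c15129 c5644 c14895 c686 c1694 c326 (k8 c325 c1569 c13097 c13096 c15130 c5166 c5655 c5450 (k1 c458 k0)))))))) (by decide +kernel)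
def c15132 : PP 9 3 T 0x400000000019000011000000000000000000080000000200000000000000000000000000000000000000005001000010020000000000000000000108 := rS 0x9a10347d88379bc43639 (k8 c5317 c1109 c9695 c283 c15078 c5672 c5501 c15058 (k2 c15117 c2490 k0)) (by decide +kernel)
def c15133 : PP 9 3 T 0x1000400000000011000000000000000000000000000000000000001000000000000200011000000000000440000000000000000000000000000000000000 := rS 0x133e1 (k2 c5460 c1598 (k1 c11160 k0)) (by decide +kernel)
def c15134 : PP 9 3 T 0x50000201000000000000000000000004000200000000000000000000000000000000000000000000000010000000000000000000000010 := rS 0x37dc64a59081c20c689ed369d3633523ed4232e02d38e7bc86584396dafdf640d62aa1228a1e26756abd2e1dd903c761f11bdc16377a976b2c73e9e4fe57319cd028d89a2436930489c2625378646639038c47b9da56c72402 (k8 c15131 c15113 c14372 c14743 c13294 c5436 c5434 c5432 (k8 c5317 c5316 c5315 c5565 c1113 c5564 c267 c5438 (k8 c261 c1109 c5567 c5382 c5381 c5380 c5379 c5355 (k8 c5353 c5358 c5441 c5442 c5357 c14994 c14849 c5519 (k8 c5518 c5516 c5333 c5331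 c5517 c5332 c9739 c5210 (k8 c5486 c5404 c5406 c5490 c9680 c9695 c5651 c456 (k8 c1195 c1289 c14392 c9863 c5494 c2190 c14393 c11253 (k8 c5644 c1949 c14395 c5658 c2081 c2139 c1325 c15132 (k8 c5541 c850 c2502 c14948 c1276 c2492 c743 c2134 (k8 c3568 c15133 c2426 c541 c540 c2459 c2510 c14947 k0)))))))))) (by decide +kernel)
def c15135 : PP 9 3 T 0x4000000000000088000000000000000000000100000004000200000000000001000000000000000000000000000000000000020000040000001004040108 := rS 0x4748a27 (k4 c267 c284 c14466 c5658 k0) (by decide +kernel)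
def c15136 : PP 9 3 T 0x200080000000000000000000000000000000000000000000140054010000000001001005400002000000000000000000000000000 := rS 0x66388f6c73e9e4fe773aa06266f (k8 c5565 c5382 c5380 c5440 c5356 c5358 c5441 c5442 (k4 c5357 c743 c14947 c3607 (k1 c2624 k0))) (by decide +kernel)
def c15137 : PP 9 3 T 0x40004000000000000000200080000000000000000000000000000000000000000000140054410000000000001005400002000000000000000000000000000 := rS 0x38fc29c (k4 c15136 c5458 c1777 c5691 k0) (by decide +kernel)
def c15138 : PP 9 3 T 0x200000001001010100040000000000004000040000050000000000000000000100100000000000000054000001000000000015000000000 := rS 0x14c576691fc615a5168bd7fb2 (k8 c5210 c5431 c5425 c5612 c8937 c15065 c5629 c3017 (k4 c5220 c5601 c5605 c3586 k0)) (by decide +kernel)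
def c15139 : PP 9 3 T 0x110000000001000000000400100000000000040040400000000000000000000140000000001400000002000001010000000000400020008 := rS 0x22f7b5c8ba322b16c8f138190e2e4ba4 (k8 c5213 c5391 c5390 c5606 c5607 c5610 c3086 c269 (k4 c1115 c8902 c5652 c1298 (k2 c749 c6204 (k1 c3616 k0)))) (by decide +kernel)
def c15140 : PP 9 3 T 0x400000000010000011081010000000000100000004000240400410580054000000800000140100000000400000056000000050200460014400020008 := rS 0x7c5b7e5a339213f46ee975ec3b36e5b31b2adf44ac187a46de40 (k8 c1763 c3797 c746 c5025 c5319 c1113 c9704 c463 (k8 c2696 c2193 c15138 c15139 c5348 c5603 c12897 c1813 (k8 c5242 c5556 c7375 c8896 c5622 c3382 c5624 c5690 k0))) (by decide +kernel)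
def c15141 : PP 9 3 T 0x40000000000000208000000000050000000000000000000000000002020500000000000000000040004000000000000000000000000000000000000000000 := rS 0x119faae2131b5bafdfb8354e47ef17 (k8 c3456 c5640 c5491 c5489 c5407 c5405 c5431 c5616 (k4 c3131 c2212 c3624 c5632 (k2 c3503 c5697 k0))) (by decide +kernel)
def c15142 : PP 9 3 T 0x404000000000000110000000001000000000400100000004000040040400000000000000000000140000000001400000002000000010200000000400020008 := rS 0x51be054 (k4 c15139 c5173 c462 c5624 k0) (by decide +kernel)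
def c15143 : PP 9 3 T 0x4000000000000110000001081000400000000100000004000240440420500054000000000000140000000001400000002000080050200000000400020008 := rS 0x1f17dd1b4bafb3427eef9 (k8 c3492 c5640 c2212 c15142 c5603 c12897 c8896 c1900 (k2 c5624 c5674 k0)) (by decide +kernel)
def c15144 : PP 9 3 T 0x40000000000000000000000080000400000000000000000000000080000080100000094000010000000000000000400000000000000000000000000000000 := rS 0xfb6cea611e4c7de4ee75 (k8 c5440 c5356 c5359 c5443 c5269 c2695 c5469 c5621 (k2 c1992 c3609 k0)) (by decide +kernel)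
def c15145 : PP 9 3 T 0x44000400000000010000011081010000000000100000004000240400400500054000080902000140104000000500000056000080050200460014400020008 := rS 0x233f55c4556fb884c6e2ef96eb6eff87fbc3204fdc1aa723b241b140e91 (k8 c746 c5432 c681 c1896 c5210 c5491 c5489 c5407 (k8 c5405 c2191 c15140 c5640 c2208 c2207 c3497 c4557 (k8 c3492 c3456 c15144 c2212 c15143 c5616 c15141 c3624 (k2 c5632 c3504 (k1 c5697 k0))))) (by decide +kernel)
def c15146 : PP 9 3 T 0x2000400000000110000010080000000000800000000000000200400000000050000001000000000000000000000000000000000050000460000000000000 := rS 0x7c5b7e5a339213f46ee975ec360c1de705 (k8 c5545 c5540 c5503 c5319 c5348 c5603 c12897 c1813 (k8 c5242 c5556 c7375 c8896 c5622 c3382 c5624 c5690 k0)) (by decide +kernel)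
def c15147 : PP 9 3 T 0x2000400000000010000011081010000000000100000004000240400410000050000000800000140100000000400000056000000050600460014400020008 := rS 0x9194fef258d692cfb96c956fa2587a46de40 (k8 c1763 c3797 c746 c5025 c1113 c9704 c463 c2193 (k8 c15138 c15146 c5213 c15139 c5391 c5599 c2802 c3086 (k1 c5662 k0))) (by decide +kernel)
def c15148 : PP 9 3 T 0x6000400000000091000011081000000000000100000004000240400400010050000080040000040000000400500000046000080050600460004400020008 := rS 0x5136571e48d6e5b77fc3c32290366b25acd54ca717b8514aae0ef37fc17e6b159ec92271 (k8 c5571 c746 c5210 c5574 c5421 c14538 c5545 c5544 (k8 c5540 c5503 c5500 c5417 c5423 c5575 c13097 c2442 (k8 c3002 c12713 c1275 c15145 c2516 c6986 c15147 c2208 (k8 c2207 c3497 c15141 c15143 c5269 c3132 c5621 c6451 (k1 c3427 k0))))) (by decide +kernel)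
def c15149 : PP 9 3 T 0x80000000000000000000000000200000000000000000200000400000000004400000100054000000004000000015000000010 := rS 0x50904be093e9fcc63f (k8 c5318 c5355 c5358 c5442 c5438 c5439 c1715 c3061 (k1 c10308 k0)) (by decide +kernel)
def c15150 : PP 9 3 T 0x2000400000000010000201000000000000000000000004000200000000000000000000000000000000000000000000000010000000000000000000000010 := rS 0x648d538de70aed229b061b097f31033de6d155a1d2efd0eaa63e3b0f88dee4f1b91c9a8189c9d1f8d008cc7231ceec567e34f8fc7a930b97c32cb1489da67f41bd420446281e02852d16487ef1286c041304e4ab2f12e82e948a389bd127358ed91a6933abd5bb2 (k8 c5210 c5490 c5406 c9680 c9742 c5381 c15134 c5421 (k8 c5379 c5567 c5565 c5571 c3602 c14743 c5516 c14849 (k8 c9695 c14994 c15113 c5438 c5564 c15131 c1109 c1113 (k8 c5583 c2775 c15135 c5644 c683 c3069 c5432 c681 (k8 c686 c14585 c5519 c1896 c5358 c2938 c267 c5417 (k8 c5420 c5315 c5439 c1107 c261 c5436 c5318 c5572 (k8 c7824 c5574 c14372 c13294 c5434 c5317 c5316 c28 (k8 c5569 c5568 c5383 c5382 c5380 c5521 c5520 c5518 (k8 c5335 c5333 c5331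 c5517 c5332 c9713 c5489 c5486 (k8 c5405 c5404 c5499 c5500 c5501 c5540 c5543 c15058 (k8 c14538 c460 c9986 c265 c2490 c746 c4763 c15149 (k4 c15137 c13097 c15148 c1275 (k1 c9863 k0))))))))))))) (by decide +kernel)
def c15151 : PP 9 3 T 0x80000000000000000000000000000000000001440000000088000000040000000200000015000000008 := rS 0x22a2125bf8db030f88c9247 (k8 c5520 c5334 c5331 c5517 c10690 c744 c901 c461 (k2 c266 c3010 (k1 c3584 k0))) (by decide +kernel)
def c15152 : PP 9 3 T 0x10000201000000000000000000000004000200000000000000000000000000000000000000000000000010000000000000000000000010 := rS 0x3bfec4391106852d16487ef452d56229599c76d9d789a4cead57ec9ee0b1bbd6945dac827247346a24362709894046f (k8 c5565 c15131 c1113 c5564 c267 c1109 c5567 c5381 (k8 c5379 c15113 c5438 c14994 c14849 c14743 c5519 c5518 (k8 c5516 c5333 c5210 c5406 c5490 c9680 c9742 c9695 (k8 c13294 c15134 c5571 c5574 c5417 c5421 c5422 c3602 (k8 c5583 c2775 c15135 c5644 c683 c1896 c686 c15151 (k2 c5672 c10382 (k1 c15150 k0))))))) (by decide +kernel)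
def c15153 : PP 9 3 T 0x2000000000000058000200080000000000000100080004000100000000000001000000000000000000000000004000000050000000000000000000000018 := rS 0x3c47bef987dfb0f9a4494b2361ad06207fa15e70134a5d2a8d89a251f110d85cbe9304c54502709894de23 (k8 c5331 c5565 c1113 c5564 c267 c5651 c1289 c5438 (k8 c261 c5439 c1107 c1109 c9729 c5568 c5567 c5382 (k8 c5381 c5488 c5404 c9742 c5502 c5540 c5541 c5544 (k8 c15058 c15078 c2372 c266 c541 c540 c747 c5546 (k4 c12131 c8783 c5445 c14615 (k2 c742 c5166 (k1 c12438 k0))))))) (by decide +kernel)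
def c15154 : PP 9 3 T 0x1000400000000050000020080000000000000100080004000100000400001001000000000000000011000000000100000000020000040000020014000008 := rS 0xfff9b81c64bf1407df1c81aa9e6210687c46497a91d8e7d22b4464313a8d412f7 (k8 c5333 c5438 c280 c5440 c1945 c5653 c2129 c456 (k8 c5442 c5357 c5520 c5519 c5334 c5331 c5517 c5522 (k8 c265 c282 c3581 c12094 c15091 c5504 c2139 c5166 (k4 c9182 c5466 c14235 c8118 (k2 c3013 c13569 k0))))) (by decide +kernel)
def c15155 : PP 9 3 T 0x1008400000000010000200080000000000000000000000000000001000000000000000011000000000000441000004010000000000000000000000000000 := rS 0x1c1b16fb8d967d3ca06268f (k8 c5568 c5382 c5380 c5441 c5442 c5464 c5466 c5580 (k2 c12830 c5846 (k1 c15133 k0))) (by decide +kernel)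
def c15156 : PP 9 3 T 0x1000400000000010000200080000000000000100000004000100001000000000000000011000000050000441000004010050000000000000000000000000 := rS 0x8b58fbbc66939a34de89 (k8 c5567 c5565 c5381 c5379 c9742 c15155 c5166 c5506 (k2 c5583 c3602 k0)) (by decide +kernel)
def c15157 : PP 9 3 T 0x1008000000000000000200080000000000000000000000000000000000010040000000001000000000000001000004000000000000000008000000000000 := rS 0x19ce0f0b7dc67d3ca06268f (k8 c5568 c5382 c5380 c5441 c5442 c5466 c5580 c12577 (k2 c5846 c12046 (k1 c1653 k0))) (by decide +kernel)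
def c15158 : PP 9 3 T 0x400000000050000201000000000000000000000004000000000000000000000000000000000000000000000000000010040000000000000000000010 := rS 0x710f1bee14e9059c3f7fc77c2c90cfbb61e33db35090148a0cd6b536675a23256a5dfa1d5487dee377ab1cfa793f9dd031347c4437151409c26253788c6a09189d486582ea27da879480b2559a519f64f1 (k8 c9695 c5210 c9680 c14743 c14994 c15113 c15131 c15152 (k8 c11253 c15153 c5567 c14849 c5644 c1949 c5440 c1945 (k8 c5438 c280 c5331 c5565 c1113 c5564 c267 c5651 (k8 c1289 c1109 c9729 c5568 c5382 c5380 c5356 c5358 (k8 c5441 c5442 c5357 c5519 c5518 c5333 c5517 c5489 (k8 c5486 c5405 c5404 c5490 c5653 c2129 c15154 c14948 (k8 c14816 c64 c2431 c747 c15060 c5672 c12000 c848 (k8 c15157 c9421 c5166 c5393 c5396 c11870 c5504 c5586 (k8 c404 c14944 c544 c1650 c1653 c2564 c5655 c14947 (k1 c1493 k0)))))))))) (by decide +kernel)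
def c15159 : PP 9 3 T 0x59000220080000000000000100000000000100000000000051000000000100000000001000000000000000020000000000000444000008 := rS 0x9979885c1e106bf43aa9639f503138a8a04e13129bdc7e2 (k8 c5226 c5466 c5565 c1113 c5564 c267 c5651 c1289 (k8 c5382 c5380 c5442 c5357 c5489 c5486 c5405 c5522 (k4 c12084 c14235 c265 c282 (k2 c1598 c8250 k0)))) (by decide +kernel)
def c15160 : PP 9 3 T 0x50000201000000000000000000000004000000000000000000000000000000000000000000000000000010040000000000000000000010 := rS 0x7c9c0b35a9b33a914537dc6d74ef8831b1648cdaac5ef7b462352c21de26933a5dfa1d4aaa7641f7bbd4bac73e9e4fe633b9d5028d89a26221b0b97d2609c94a62a28ac89c2625011bc474a (k8 c14743 c5331 c5565 c15131 c1113 c5564 c267 c14994 (k8 c5651 c1289 c15152 c15113 c5438 c261 c5439 c1107 (k8 c1109 c9729 c5567 c5382 c5381 c5380 c5440 c5356 (k8 c5355 c5358 c5441 c5442 c5357 c14849 c5519 c5333 (k8 c5517 c5210 c5489 c5488 c5486 c5405 c5404 c9680 (k8 c9742 c9695 c11253 c5644 c280 c1945 c15153 c15158 (k8 c5451 c5454 c5492 c5494 c10013 c3577 c5226 c1273 (k8 c5465 c5466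 c5580 c5287 c10363 c15159 c14948 c14816 (k4 c12131 c14947 c5685 c5591 k0))))))))) (by decide +kernel)
def c15161 : PP 9 3 T 0x80000000100000000000001000000001000000000001104000000000000000000000020000100400000 := rS 0x26c72191d87c4637 (k8 c5518 c5331 c5517 c5332 c437 c440 c6036 c3578 k0) (by decide +kernel)
def c15162 : PP 9 3 T 0x50000201000000000000000000000004000000000000000000000000000000000000000000000000000010000000000000000000000010 := rS 0xc6c58a354ca74d421669b50d9d4296a2a45143c4d26756abd2efd4aaa7642305bd48f4aac9e4c6773a9cc03110d85cbe9304e484e1312808df29 (k8 c15152 c5565 c15131 c1113 c5564 c267 c15113 c5438 (k8 c261 c5439 c1107 c1109 c9729 c28 c5379 c5440 (k8 c5356 c5355 c5441 c14994 c14743 c5520 c5519 c5516 (k8 c5331 c5210 c5489 c5488 c5405 c5404 c5406 c5490 (k8 c9680 c9742 c9695 c5651 c456 c1289 c15160 c683 (k8 c15062 c15082 c744 c2073 c266 c5665 c1135 c2373 (k4 c15161 c682 c10013 c5648 (k1 c14446 k0)))))))) (by decide +kernel)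
def c15163 : PP 9 3 T 0x1000000000000000000200000000000000000100080000000000000000001001000000000000000051000001000000000150020000040000010010001008 := rS 0x156f32287c46f77a84c3621 (k8 c265 c1109 c5564 c5519 c5333 c5331 c5517 c284 (k2 c282 c15090 (k1 c3581 k0))) (by decide +kernel)
def c15164 : PP 9 3 T 0x10000221000000000000000000000004000000000000000000000000000000000000000000000000000010000000000000000000000010 := rS 0x204aa368fc204442968b3f3f6885066b06bc5fa1d5487c4649058dc8f4aacb1cf28189a3e221b1384c4ab34f8a56a432ea1d2218d898cfa7f4982652170117f248a589bd127338ed91a6933abd5bb2 (k8 c5210 c5490 c5406 c9680 c9742 c5381 c15162 c5571 (k8 c5379 c5567 c5565 c5421 c3602 c15113 c5439 c15131 (k8 c1107 c15152 c5438 c261 c5358 c5442 c5355 c8833 (k8 c5648 c10363 c900 c14849 c2775 c5422 c5417 c5572 (k8 c5574 c1113 c5564 c267 c1109 c9729 c5568 c5382 (k8 c5380 c5441 c5357 c14994 c14743 c5520 c5518 c5516 (k8 c5334 c5331 c5517 c5489 c5486 c5405 c9695 c5522 (k8 c5523 c5525 c265 c15058 c8140 c15163 c5644 c683 (k4 c686 c685 c2907 c13099 (k2 c3601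 c14901 (k1 c2199 k0))))))))))) (by decide +kernel)
def c15165 : PP 9 3 T 0x6000000000000019000000080000000000000100080004000100000400000001000000000000000400004001404100000000000000000000010004000018 := rS 0x1e3ef8f8f66c358819e8568aa46ec73e9e4fe7788a7430930485cbe23 (k8 c5331 c5439 c1107 c5438 c261 c5648 c1273 c9729 (k8 c5356 c5358 c5441 c5442 c5357 c5518 c5489 c5501 (k8 c5541 c5543 c15058 c2372 c266 c743 c13099 c8645 (k2 c5576 c5166 k0)))) (by decide +kernel)
def c15166 : PP 9 3 T 0x1000000000000010000210000000000000000100080000000000000000001001000000000000000151000001002000002150020000048000010010000018 := rS 0x1e620064708a1b1384c4a6f (k8 c5565 c1113 c5564 c267 c1109 c284 c3582 c15163 (k2 c2426 c3722 (k1 c12002 k0))) (by decide +kernel)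
def c15167 : PP 9 3 T 0x10000201000000000000000000000004000000000000000000000000000000000000000000000000000010000000000000000000000010 := rS 0x16cb2841f20cd9edcea1d2243f786115b1588a53eb338eda52930b86c048f449be268d409cde26933ab55efd0eaa7641f11bdc16377ad28bb592f8258e7d3c9fcc792 (k8 c15113 c5355 c5358 c5441 c5442 c5357 c5438 c5439 (k8 c14994 c14849 c14743 c5519 c5518 c5516 c5333 c5331 (k8 c5517 c5210 c5489 c5486 c5405 c5406 c5490 c9680 (k8 c9742 c9695 c5379 c5380 c5381 c5382 c5565 c5567 (k8 c5568 c15131 c1109 c1107 c261 c15152 c15162 c5571 (k8 c5574 c5572 c5417 c5421 c8833 c3602 c5648 c5583 (k8 c2775 c10363 c900 c15164 c15165 c14948 c2431 c13099 (k4 c5672 c15166 c683 c5644 k0)))))))) (by decide +kernel)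
def c15168 : PP 9 3 T 0x10000001000000000000000000000004000200000000000000000000000000000000000000000000000010000000000000000000000014 := rS 0x3dacc55271c6916412c821262a0c225a2cc4da29b42f7e2061d8e740e6933ab55e974aec892f52e97c1279319dceb9238acd3e7358ed91a8bf7686b219358003f4a (k8 c14743 c5517 c5642 c1058 c9701 c14994 c15167 c5219 (k8 c5583 c5505 c5212 c5421 c5419 c5572 c5574 c5571 (k8 c15113 c5440 c5356 c5355 c5441 c5438 c5439 c14849 (k8 c5519 c5334 c5210 c5488 c5404 c5406 c5490 c9680 (k8 c9742 c5432 c13294 c14670 c661 c8158 c14615 c845 (k8 c1187 c9572 c955 c15117 c5644 c14568 c1896 c681 (k8 c12617 c12636 c12663 c14285 c3036 c13204 c15026 c1275 (k2 c1276 c5500 (k1 c12000 k0))))))))) (by decide +kernel)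
def c15169 : PP 9 3 T 0x1000400000000011000020080000000000000000080004000100000000000000000000000000000008000050000000000050020000000000000011000002 := rS 0xcc64b452616191a5ee1b1a8246275 (k8 c5440 c1945 c5438 c280 c1943 c5333 c9742 c5653 (k4 c11149 c322 c2129 c1064 (k2 c14907 c2075 k0))) (by decide +kernel)
def c15170 : PP 9 3 T 0x10000020080000000000000000080004000100000000001000000000000000000001000050001000000050020000000000000011000002 := rS 0x1329d4df85a06064b3fbcaa3cc450e83d89dcea636397fda6b0f9b41669 (k8 c9742 c5516 c665 c5517 c1058 c14747 c5439 c5357 (k8 c5355 c5440 c5356 c14906 c5525 c5373 c5371 c5441 (k8 c3601 c15169 c5453 c5494 c14615 c12425 c10651 c1189 (k2 c1697 c1595 (k1 c5679 k0))))) (by decide +kernel)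
def c15171 : PP 9 3 T 0x1000000000000011000020080000000000000000080000000100000000000000000000001000000000000050000000000150000000000008000011000002 := rS 0x34526f7 (k4 c5333 c322 c2129 c14907 k0) (by decide +kernel)
def c15172 : PP 9 3 T 0x18000120080000000000000100080004000100000000000000000000500000000000000000000000000050020000000000000000000006 := rS 0x3968b7fe714899bdc210200fc7a9d0324941e33033d8bde19b3508f3188d55aaf0e8edee377a824e2b34fb2c4e7358ad76c1988a441a8fd89dcea636397fda6b0f9b416a94abf52e69 (k8 c9742 c5404 c5405 c5488 c5489 c5516 c665 c5517 (k8 c1058 c14747 c5439 c5357 c5355 c5440 c5356 c14906 (k8 c5526 c5522 c5374 c5371 c9701 c5212 c5422 c5421 (k8 c5419 c5570 c5420 c5572 c5574 c5571 c5438 c5519 (k8 c5518 c5333 c5332 c5486 c5406 c5490 c280 c1945 (k8 c282 c15170 c2502 c15171 c5653 c5451 c5453 c14615 (k8 c6601 c8161 c14891 c661 c1697 c2767 c326 c5655 (k8 c13127 c4261 c2746 c703 c3604 c5590 c2951 c8355 (k2 c547 c3587 k0))))))))) (by decide +kernel)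
def c15173 : PP 9 3 T 0x10000021000000000000000000000004000000000000000000000000000000000000000000000000000010000000000000000000000014 := rS 0x1a2cff08d1c1df6fb8fc4cd1c8fd3a315512c823d490cd0a112d16763ed418350f11789a4cead57a5dfa1d4aaa7643b248dc8e5d2f8258e7d319dceb923889ce6b1db235ae8b6afbb43590c9ac3e6d0002e9529 (k8 c15168 c14743 c5516 c5642 c665 c5517 c1058 c9701 (k8 c14994 c15167 c5219 c5585 c5583 c5507 c5505 c5212 (k8 c5421 c5419 c5570 c5571 c15113 c5440 c5356 c5355 (k8 c5442 c5357 c5438 c5439 c14849 c5520 c5518 c5334 (k8 c5332 c5210 c5489 c5488 c5486 c5405 c5404 c5406 (k8 c5490 c9680 c9742 c9695 c5371 c5373 c5522 c5525 (k8 c14747 c14906 c15172 c5644 c14568 c683 c2041 c14895 (k8 c12640 c12636 c12638 c3601 c1565 c1694 c326 c14894 (k8 c2076 c5655 c5466 c5580 c6601 c12667 c5653 c5460 (k2 c1652 c1704 (k1 c5688 k0))))))))))) (by decide +kernel)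
def c15174 : PP 9 3 T 0x2000000000000000000100000000000000000000080000000000100400044000000000000000000000000000000000000000020000100000000000010000 := rS 0x2590dee497a91e02f3 (k8 c5540 c5502 c5520 c5519 c5334 c5333 c1950 c12663 (k1 c3593 k0)) (by decide +kernel)
def c15175 : PP 9 3 T 0x40000000000000000000110000000000000000000000000000000000400010000000000000000000150000000140000050150000000400000000000020004 := rS 0x482211e6f (k4 c2746 c2751 c3602 c5675 (k1 c3042 k0)) (by decide +kernel)
def c15176 : PP 9 3 T 0x2000000000000010000001000000000000000000000004000000000000000000000000000000000000000000000000000010000000000000000000000014 := rS 0x1bc391fa75c2924738cb4912c92c2411d8fce02f13499d5aaf4ba57643b248dc8e5d3e9e4ee715989d631d46b5e064545b55ffee0cca53663c944e219d358003f4a39edb4359 (k8 c14994 c15167 c5212 c5419 c14743 c5517 c5642 c1058 (k8 c15173 c8158 c955 c15113 c5355 c1187 c15168 c9701 (k8 c5219 c5586 c5585 c5583 c5582 c5508 c5507 c5505 (k8 c5504 c5421 c5570 c5574 c5571 c5356 c5441 c5442 (k8 c14849 c5520 c5518 c5334 c5332 c5210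 c5488 c5404 (k8 c5406 c5490 c9680 c9742 c9695 c5502 c14538 c14706 (k8 c15175 c12617 c12663 c15174 c3036 c5644 c13204 c5675 (k4 c14895 c2846 c1694 c326 (k2 c325 c12667 (k1 c13097 k0)))))))))) (by decide +kernel)
def c15177 : PP 9 3 T 0x100000000000008a000100000000000000000000000000000000000000044000000000514000000004000400000850000404400000000000000000000000 := rS 0x1026f4838e00ccf0f7d32c950ab55e977ea5552714fb2ce6b1 (k8 c5421 c5419 c5420 c5572 c5571 c5489 c5488 c5405 (k8 c5404 c5406 c5490 c5398 c5396 c5447 c9031 c8772 (k4 c5688 c8633 c2623 c1978 (k2 c3039 c908 (k1 c13195 k0))))) (by decide +kernel)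
def c15178 : PP 9 3 T 0x100000000000000000100000000000000100400044054000000000000000000000000000800000000020001500000000000010000 := rS 0x1004890c9612 (k4 c12617 c12663 c1950 c3036 (k2 c3593 c1978 k0)) (by decide +kernel)
def c15179 : PP 9 3 T 0x10000001000000000000000000000004000000000000000000000000000000000000000000000000000010040000000000000000000014 := rS 0x6677872330ba48de10d8aade6311ab3d0458438752a3b7b9246ef523974127d3c9fce2cb8eb5e06456abffdc1994a14d29b689d4be63339df25b289c433a6b0007e9473db686b3ed (k8 c15176 c14994 c15167 c5212 c5419 c14743 c5517 c5642 (k8 c1058 c15173 c8158 c955 c5210 c15113 c5356 c9680 (k8 c5355 c5439 c5440 c9572 c1187 c9742 c845 c15168 (k8 c9701 c5219 c5586 c5585 c5582 c5508 c5507 c5504 (k8 c5420 c5571 c5358 c5441 c5442 c5438 c14849 c5520 (k8 c5519 c5518 c5334 c5333 c5332 c5488 c5486 c11253 (k8 c5644 c5672 c11551 c280 c1945 c283 c1973 c15177 (k8 c15178 c2746 c13233 c13187 c322 c325 c11149 c3587 (k1 c5495 k0))))))))) (by decide +kernel)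
def c15180 : PP 9 3 T 0x8a000000000000000000000100000000000100000000000000000000100000000000000000000000500154480000111000000000000000 := rS 0xf869e3623252e95 (k8 c5488 c5404 c5396 c10013 c6616 c682 c5655 c441 k0) (by decide +kernel)
def c15181 : PP 9 3 T 0x10000001000000000000000000000004000000000000000000000000000000000000000000000000000010000000000000000000000014 := rS 0x6fb84723f4ea4b62e34892c823d09044b25a89a6e219d949ac0019789a4cead57a5d2bb21d87c923723d28be093e9e4c6773ae48e2b34f89ce6b1db2348a8b6afbb4359 (k8 c14994 c15167 c5219 c5585 c5583 c5582 c5505 c5212 (k8 c5421 c5419 c5570 c5572 c5574 c5571 c15113 c5440 (k8 c5356 c5355 c5441 c5442 c5438 c5439 c14743 c5520 (k8 c5518 c5334 c5517 c5332 c5210 c5488 c5404 c5406 (k8 c5490 c9680 c9742 c9695 c9701 c5642 c1058 c15168 (k8 c15173 c8158 c1187 c955 c15179 c32 c14568 c12617 (k8 c12640 c12636 c12663 c3036 c13204 c15180 c14895 c1694 (k4 c326 c325 c13096 c13097 (k1 c12667 k0))))))))) (by decide +kernel)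
def c15182 : PP 9 3 T 0x100080000000000000000080000000200000400000000000140000000000000000001400004000000000000000000000000000000 := rS 0x8201c64b1d9246e47639f4f27f1c8fc0f9d (k8 c13294 c5432 c5318 c5317 c5358 c5441 c5442 c5357 (k8 c5520 c5518 c5334 c5332 c13156 c13204 c3610 c12667 (k1 c699 k0))) (by decide +kernel)
def c15183 : PP 9 3 T 0x10000001000000000000000000000004000200000000000000000000000000000000000000000000000010040000000000000000000010 := rS 0x431284a240c6fb84f69b4e9b19a8f48fb509df640d4b08778ec81e3b0f88dee0b1bbd4bac73c95d669fdb115ffeed0d64021b0b97d2609198e40f9da56c72402 (k8 c15181 c15113 c14372 c14743 c13294 c5432 c5317 c5316 (k8 c5438 c261 c5439 c1107 c1109 c28 c14994 c15167 (k8 c5219 c5586 c5582 c5212 c5572 c5574 c5353 c5441 (k8 c5357 c14849 c5519 c5518 c5516 c5333 c5331 c5517 (k8 c5332 c9739 c5210 c9695 c11253 c5644 c280 c14345 (k8 c5494 c15132 c5541 c13428 c2546 c2502 c14948 c1276 (k8 c2492 c743 c13096 c13097 c3568 c15182 c2599 c2805 (k2 c2809 c14251 k0)))))))) (by decide +kernel)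
def c15184 : PP 9 3 T 0x2000000000000088000110000000000000000000080000000000000000040001000000000050000000000000000001500010080000005000000001400118 := rS 0x669edc29d5078c82256f84a249b061b041f367bce02d155a1dfaa90f88dee2959a7d96275880436934282d06f5 (k8 c5519 c1896 c5516 c683 c261 c1109 c28 c5421 (k8 c5570 c5420 c5572 c5574 c8199 c5333 c5331 c5517 (k8 c5489 c5405 c5499 c5500 c5501 c5502 c5540 c5543 (k8 c14538 c15058 c9986 c265 c2491 c14768 c2599 c4675 (k8 c2805 c297 c7824 c3579 c1278 c3061 c743 c8709 (k1 c3607 k0)))))) (by decide +kernel)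
def c15185 : PP 9 3 T 0x10000001000000000000000000000004000200000000000000000000000000000000000000000000000010000000000000000000000010 := rS 0x3246bde67f8534d14ca75566a109b59a86f6b1506852d6c73a3d038fc72330cbc4cefdd90ec3e2305bd694c73c9dcebb681fbb43598886c2e5f498081392 (k8 c15113 c5438 c15181 c261 c5439 c1107 c1109 c9729 (k8 c14994 c15167 c5219 c5508 c5212 c5440 c5356 c5441 (k8 c5357 c14743 c5519 c5516 c5331 c5517 c5332 c5210 (k8 c5405 c9680 c9695 c5315 c5316 c5317 c5318 c5432 (k8 c5436 c13294 c14372 c15183 c683 c1896 c681 c15184 (k8 c5672 c12000 c744 c266 c5665 c9859 c1135 c2373 (k8 c14987 c6193 c5536 c2562 c5688 c5450 c5494 c14345 k0))))))) (by decide +kernel)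
def c15186 : PP 9 3 T 0x1000000000000082000000000000000000000000080000000000000000000004000000400000000058000054000004500154400000000000000100400000 := rS 0x19fe14e0e5a2cdefb11329b64865423b0f88c6ecb (k8 c5420 c5518 c5331 c5517 c5332 c5398 c5393 c5396 (k8 c5397 c5447 c10013 c9031 c2075 c1706 c6897 c3578 (k2 c5458 c1650 (k1 c10805 k0)))) (by decide +kernel)
def c15187 : PP 9 3 T 0x80000101000000000000000000000004000000000000000000000000000000000000000000000000000000020000100000000004010001 := rS 0x8625 (k2 c12632 c1950 (k1 c14251 k0)) (by decide +kernel)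
def c15188 : PP 9 3 T 0x100000000000000000000000000000800000000000000000000000000000000000000004040000002000000 := rS 0x7be3 (k2 c5466 c1493 (k1 c6195 k0)) (by decide +kernel)
def c15189 : PP 9 3 T 0x11000020000000000000000000000000000000000400000000000400000000000400005400000151001004400000000000000000000000 := rS 0x37dc28f (k4 c5526 c13096 c13097 c5864 k0) (by decide +kernel)
def c15190 : PP 9 3 T 0x10000021000000000000000000000004000000000000000000000000000000000000000000000000000010020000000000000000000010 := rS 0x67df67b23c29a719b5023f898419a9d2086362aa798c46a6933ab55e977e8752aa90f88dee0b1bbd58e7d3c9fcc6773a8a5669fdb35c8beed0d6402172fa4c1392949ed228ff68841a1b0152b64f1 (k8 c9695 c5210 c14743 c15181 c1109 c5522 c265 c15058 (k8 c5526 c5374 c5372 c15185 c15113 c5438 c261 c5439 (k8 c1107 c28 c14994 c15167 c5219 c5582 c5507 c5212 (k8 c5572 c5574 c8199 c5440 c5356 c5355 c5358 c5441 (k8 c5442 c5357 c5519 c5518 c5516 c5333 c5331 c5517 (k8 c5489 c5488 c5486 c5405 c5404 c5406 c5490 c9680 (k8 c9742 c280 c1945 c282 c3581 c15186 c5648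 c543 (k8 c1273 c2076 c15187 c703 c2907 c700 c13099 c15188 (k4 c15189 c5536 c1189 c2562 (k2 c5494 c12046 (k1 c5653 k0))))))))))) (by decide +kernel)
def c15191 : PP 9 3 T 0x12000021000000000000000000000004000000000000000000000000000000000000000000000000000010000000000000000000000010 := rS 0x67f8538cd8044d12e1081007e3d1a01bc6d262265926933ab52e95319d596b1db235af0322a2dabeed0d642e5f49826527bf68841a1b016c9e28505d28665a2c974ef92 (k8 c15113 c5356 c14849 c15190 c5644 c2041 c14743 c5516 (k8 c683 c9695 c5210 c15181 c1109 c5522 c265 c15058 (k8 c5372 c15185 c5438 c261 c5439 c1107 c14994 c15167 (k8 c5219 c5585 c5583 c5582 c5508 c5507 c5505 c5212 (k8 c5421 c5420 c5440 c5355 c5488 c5404 c5490 c9680 (k8 c9742 c5396 c5447 c10013 c5991 c6616 c681 c682 (k8 c2769 c441 c15180 c13127 c4261 c2750 c703 c14852 (k4 c2078 c15161 c5458 c1650 (k1 c10805 k0))))))))) (by decide +kernel)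
def c15192 : PP 9 3 T 0x40000000000000088000020080000000000000000080000000000000000000000000140500010000000000000001000000000000000000002000004000000 := rS 0x6878d9ecd648ddea77 (k8 c5356 c5519 c5518 c1914 c1916 c1473 c6616 c8127 (k1 c8355 k0)) (by decide +kernel)
def c15193 : PP 9 3 T 0x121080000000000000100080004000100000000000000000140000000000000000000000000000000080000000010000104010001 := rS 0x1e31ff7863f321097641f119248e7714acc4eb5db35c8ad5f721416c5 (k8 c682 c5516 c683 c5219 c5585 c5582 c5507 c5212 (k8 c5422 c5570 c5574 c8199 c5356 c5520 c5334 c5331 (k8 c5517 c5210 c12632 c14251 c8140 c15192 c9931 c2912 (k2 c6601 c13127 k0)))) (by decide +kernel)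
def c15194 : PP 9 3 T 0x11000121080000000000000100080004000100000400000000000000000000000000001000000000000000080000000010000104010001 := rS 0x283c49a1fb81bf14258943e232491c52b34f89d6bb6 (k8 c5212 c5422 c5570 c5572 c5574 c8199 c5520 c5334 (k8 c5331 c5517 c12632 c12663 c3584 c2951 c15193 c3056 (k4 c13096 c13127 c1191 c5578 k0))) (by decide +kernel)
def c15195 : PP 9 3 T 0x8000000000000000000000000000000000000000000004000100000000000000000000000010000000000000000050500000010000010014000000020000 := rS 0x1834bbe811fa251ad7 (k8 c5507 c5505 c2750 c2907 c700 c8993 c5861 c5653 (k1 c1919 k0)) (by decide +kernel)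
def c15196 : PP 9 3 T 0x10000021000000000000000000000004000000000000000000000000000000000000000000000000000010000000000000000000000010 := rS 0x50789343f7037e29122589422c54e9046a18d88ccb45910835e21f119248f4a2eb1cfa7f3b9d453ee59a7c4eb5db686b2010d85cbe93010272529 (k8 c15185 c15113 c5438 c15181 c261 c5439 c1107 c1109 (k8 c28 c14994 c15167 c5212 c5422 c5570 c5572 c5574 (k8 c5219 c8199 c5440 c5356 c5358 c5442 c5357 c14849 (k8 c14743 c5520 c5334 c5331 c5517 c9695 c5522 c265 (k8 c15190 c5644 c2041 c15191 c5648 c437 c543 c1273 (k8 c682 c15195 c12632 c12638 c15194 c3584 c2512 c15193 (k4 c3056 c13096 c13127 c1191 (k1 c5578 k0)))))))) (by decide +kernel)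
def c15197 : PP 9 3 T 0x1a000111000000000000000100000000000100100400044050000000500040000000000004004051400010100000400011000440420008 := rS 0x1c2df71b3478813da450641360cbc7ed69185921978ab52e1d4a9c596b1db06d1e3f (k8 c2907 c2751 c1109 c5212 c5421 c5420 c5571 c5488 (k8 c5486 c5404 c5490 c9695 c5393 c5396 c5445 c5991 (k8 c14706 c6616 c3577 c14948 c544 c2431 c746 c742 (k4 c700 c5655 c12000 c13204 (k2 c2770 c3063 (k1 c3610 k0)))))) (by decide +kernel)
def c15198 : PP 9 3 T 0x2000000000000088000110000000000000000000080000000000000400000001000000000000000000000000000000000000000000000000000004000008 := rS 0xda20 (k2 c15058 c14768 (k1 c266 k0)) (by decide +kernel)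
def c15199 : PP 9 3 T 0x10000001000000000000000000000004000000000000000000000000000000000000000000000000000010040000000000000000000010 := rS 0x489b3da8120863623f47c4c20311a9610ef1d907c46f7058ddea47a51758e7d3c9fcee75149c5669fdb475af0322b55ffeed0d64021b0b97d260204e4a539d (k8 c15196 c15185 c15113 c5438 c15181 c261 c5439 c1107 (k8 c1109 c28 c14994 c15167 c5219 c5586 c5585 c5582 (k8 c5508 c5507 c5504 c5212 c5572 c5574 c5571 c8199 (k8 c5440 c5356 c5358 c5441 c5442 c5357 c14849 c14743 (k8 c5520 c5519 c5518 c5516 c5333 c5331 c5517 c5210 (k8 c9695 c11253 c5644 c280 c1945 c15187 c703 c2751 (k8 c2907 c15197 c5648 c543 c700 c15198 c14948 c746 (k1 c13099 k0)))))))) (by decide +kernel)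
def c15200 : PP 9 3 T 0x82000011000000000000000000080004000000000000044000000000500000000000000004000000500014480000000000000000000008 := rS 0x9d108e59c6d66a18f434f6b1132614d864d2674ba57643b0f88c6e174282d06f5 (k8 c5519 c1896 c5516 c683 c1107 c5518 c5331 c5517 (k8 c5332 c5210 c5488 c5404 c9680 c9742 c5393 c5397 (k8 c5445 c5447 c10013 c14706 c682 c5732 c5672 c12000 (k4 c742 c899 c440 c266 (k2 c1650 c3578 k0))))) (by decide +kernel)
def c15201 : PP 9 3 T 0x80000111000000000000000000080004000000000400000000000000000000000000000000021400000000000000000000000004010008 := rS 0x8a8851c6d437b496f1d919c460b238a566275ac444a01 (k8 c28 c12632 c9729 c5422 c5570 c5574 c8199 c5520 (k8 c5516 c5331 c9680 c5210 c9695 c12663 c15198 c5672 (k4 c744 c2118 c266 c2845 (k1 c10415 k0)))) (by decide +kernel)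
def c15202 : PP 9 3 T 0x10000001000000000000000000000004000000000000000000000000000000000000000000000000000010000000000000000000000010 := rS 0x130cc10347d8cf3da1e2488210484a11629046a18d88cd06852c96b3b294985c3601013fdaa4581b5fddb614e84ea77319fcf27d63824bf9278aa7644905bd69559 (k8 c14994 c14743 c5519 c5516 c5334 c5210 c5489 c9695 (k8 c15113 c5439 c5438 c5357 c5442 c5441 c5358 c5355 (k8 c5356 c5440 c15167 c8199 c5212 c5219 c5507 c5508 (k8 c5582 c5585 c5586 c15181 c28 c1109 c1107 c261 (k8 c15185 c15196 c15199 c32 c683 c1896 c2041 c15200 (k8 c5648 c437 c543 c682 c15195 c12632 c12617 c14251 (k8 c2808 c15201 c13182 c13167 c11551 c5672 c5501 c15058 (k2 c3607 c378 (k1 c2440 k0))))))))) (by decide +kernel)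
def c15203 : PP 9 3 T 0x40000201000000000000000000000004000000000000000000000000000000000000000000000000010010040000000000000000000014 := rS 0x4d1c48c07de8a589a4cead57d673a73469bc526b0021c8689f688606f20dbc552237abdc3f4a7e87765b422960ba13 (k8 c5564 c14849 c5644 c284 c15202 c5210 c5486 c5405 (k8 c14743 c5517 c5333 c5519 c5331 c5489 c9695 c1943 (k8 c5816 c2628 c5528 c15058 c5567 c1949 c11253 c5642 (k8 c1058 c9694 c5565 c5381 c5379 c14956 c14994 c5406 (k8 c5490 c9680 c9742 c15040 c3602 c5583 c9765 c9181 (k2 c5658 c13524 (k1 c3697 k0))))))) (by decide +kernel)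
def c15204 : PP 9 3 T 0x201000000000000000000000004000000000000000000000000000000000000000000000000010010040000000000000000000014 := rS 0x807bd208a5aac76c6933ab55f5988acf3a7346c4cde8f358008a1321a27da21423c836f15488deaf70fd29fa1dd96d0b05d (k8 c14849 c5644 c15202 c5210 c5486 c5405 c14743 c5517 (k8 c5333 c5519 c5331 c5489 c9695 c1943 c5816 c283 (k8 c5528 c15058 c5567 c1949 c5564 c284 c5642 c1058 (k8 c5568 c5565 c5382 c5381 c5379 c14956 c5532 c5411 (k8 c14994 c5406 c5490 c9680 c9742 c15203 c5421 c5422 (k4 c3602 c8385 c5583 c850 (k1 c9765 k0))))))) (by decide +kernel)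
def c15205 : PP 9 3 T 0x21000210040000000000000000000000000200000000000000000000000040000000000000000000020000000001400400000000000002 := rS 0x385967b31444e67d3081cbe17 (k8 c5433 c1054 c5432 c661 c5566 c5379 c5411 c5663 (k4 c888 c1322 c10249 c14640 k0)) (by decide +kernel)
def c15206 : PP 9 3 T 0x8000000000000049000000000000000000000000000000000200000000000001000000000000000000010004000000000000000000140010000004000000 := rS 0x642b46617 (k4 c5433 c5316 c5490 c14345 (k1 c14395 k0)) (by decide +kernel)
def c15207 : PP 9 3 T 0x41000000000000000000000000000000000000100000000000000000500000000010010008000000000000000000155015000000000000 := rS 0x1a4cb (k2 c1753 c3588 (k1 c14519 k0)) (by decide +kernel)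
def c15208 : PP 9 3 T 0x80000000000000028000000000000000000000000000000000000000000004000000000000000000100000000000000000000000000000000000000000000 := rS 0x80aae2ab3 (k4 c5532 c5414 c5413 c5592 (k1 c14396 k0)) (by decide +kernel)
def c15209 : PP 9 3 T 0x1000000000000020000000000000000000000000000000000000000000001000000000001060000000000000000005000405400000000000000000000000 := rS 0x33fc29a88a74da99 (k8 c5530 c5529 c5412 c5411 c3598 c5536 c2562 c10805 k0) (by decide +kernel)
def c15210 : PP 9 3 T 0x229000000004000000000000100080000000000000014000000000000000800000100000000000000000005400000004000008000020044 := rS 0x14b81d4baf55222a94fef6716df54ebdbba8c46bf (k8 c5014 c5331 c5614 c5613 c5617 c5428 c5427 c5612 (k8 c12587 c14877 c2866 c355 c5662 c3087 c2956 c707 (k2 c3183 c1329 (k1 c5264 k0)))) (by decide +kernel)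
def c15211 : PP 9 3 T 0x140000200010004400000400100000004000000000014000008000000000000500150000000040000000000020000000000400004000000 := rS 0x30c2d87e16ddf6 (k4 c5233 c15015 c5638 c5598 (k2 c3701 c3625 (k1 c6295 k0))) (by decide +kernel)
def c15212 : PP 9 3 T 0x100000200090004400000000100000004000200400014000008000000000000100150000000040000020000020000000000000004000002 := rS 0xc0ddf4a2bd5d9afa2fdbafc2026 (k8 c668 c667 c5014 c5571 c9707 c986 c15211 c5600 (k4 c5601 c12897 c669 c1062 (k1 c5667 k0))) (by decide +kernel)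
def c15213 : PP 9 3 T 0x140000200004001410000400100000004000000000014000008000000000800000000100008040000000005420000000000000000000002 := rS 0x14f77518b5dba9bedbbeda4 (k8 c5213 c5233 c15015 c5387 c5388 c5639 c3701 c1761 (k2 c670 c1807 (k1 c3600 k0))) (by decide +kernel)
def c15214 : PP 9 3 T 0x201000000000000000000000004000200000000000000000000000000000000000000000000000010040000000000000000000014 := rS 0xbe3e2ef46d294f576687a9702555e6e6fe7a62325949f202486a633cde71f925097cc2c73bec47a310b81c7e39199a4cead57a5f0695c8c7c764923e74e681469bcfb8d35fb442cd42031e4f15488deaf70fd29fbb4082c76e1b14b5e1a8b6ac2fdd1d131c0001dd910d135922960ba13 (k8 c5564 c14849 c5644 c284 c14994 c5567 c1949 c5210 (k8 c5486 c5642 c15204 c668 c351 c5658 c5587 c5585 (k8 c5583 c5509 c5507 c9694 c1943 c5571 c15040 c667 (k8 c15202 c5405 c14743 c5517 c5333 c5519 c5331 c5489 (k8 c9695 c5816 c282 c283 c4664 c5528 c15058 c1058 (k8 c5569 c5566 c5565 c5381 c5380 c5379 c14956 c5520 (k8 c5334 c5332 c9713 c5491 c5488 c5407 c5404 c5406 (k8 c5490 c9680 c9742 c5316 c5317 c5318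 c5432 c5433 (k8 c5434 c5436 c9578 c2051 c2480 c661 c1054 c2930 (k8 c15205 c5443 c5359 c5441 c5355 c14392 c15206 c15207 (k8 c1602 c350 c1324 c14285 c15209 c3958 c15210 c15212 (k8 c3304 c3240 c3333 c2905 c15213 c5600 c5605 c12897 (k4 c9779 c669 c287 c5667 (k1 c862 k0)))))))))))))) (by decide +kernel)
def c15215 : PP 9 3 T 0x8000000000000020000001040000000000000000000004000100000000040000000000001000000000000000000000000000000000000000000000000000 := rS 0xf0b41a7ded83f7649d55c5532b3 (k8 c5532 c5530 c5414 c5413 c5412 c5210 c5405 c5209 (k4 c5214 c5496 c13565 c6325 (k1 c14381 k0))) (by decide +kernel)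
def c15216 : PP 9 3 T 0x201000000000000000000000004000000000000000000000000000000000000000000000000000010040000000000000000000014 := rS 0x24cf632ef8c46a75319fcf2c70497f25296afba3a2638335080c81bc886450d961e2fd0eaa764237bbd4bb5988a74da99da2342689358003f4a (k8 c14743 c5517 c5642 c1058 c5567 c5564 c5381 c15202 (k8 c5530 c5529 c5412 c5411 c14994 c14849 c5519 c5333 (k8 c5331 c5210 c5489 c5486 c5405 c9695 c5644 c1943 (k8 c284 c1949 c5816 c2628 c282 c283 c4664 c15204 (k8 c668 c351 c5658 c5585 c15214 c15215 c5439 c5438 (k8 c5357 c5441 c5358 c5355 c5440 c280 c1945 c5725 (k4 c5653 c14978 c3675 c13171 k0))))))) (by decide +kernel)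
def c15217 : PP 9 3 T 0x40000201040000000000000000000004000200000000000000000000000040000000000000000000000010000000000000000000000014 := rS 0x1628b71045c2711d9248e99cea34de7d44c0d0c837aaa5fa6b0fa1416c53a8c4f7112588482df5089ab2252d2bd5bb2339a4523f59b2cc5b1a56d0c2072f85c0073 (k8 c5379 c5642 c5433 c1054 c5432 c661 c15202 c14743 (k8 c9578 c5663 c1322 c5532 c5318 c9694 c9742 c9680 (k8 c5210 c5490 c5406 c15216 c14996 c14994 c5651 c2927 (k8 c14125 c350 c5528 c353 c5411 c888 c5434 c1894 (k8 c681 c5516 c683 c5517 c1058 c5405 c5489 c5519 (k8 c1896 c8112 c10690 c5567 c5566 c5565 c5381 c14956 (k8 c5530 c5520 c5334 c5332 c15205 c10249 c14701 c6010 (k2 c685 c14961 (k1 c3602 k0))))))))) (by decide +kernel)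
def c15218 : PP 9 3 T 0x11040000000000000000000000000000000000000000000000000080000000000000008000000000000000000000000000000000 := rS 0xef1dbc3ed (k4 c5499 c5535 c798 c5185 (k1 c5493 k0)) (by decide +kernel)
def c15219 : PP 9 3 T 0x201040000000000000000000004000200000000000000000000000000000000000000000000000010000000000000000000000014 := rS 0x115144a58ed8e2c71d88c9247ce9cd1a6f448a44aaf56c0d0c837a9a4cea97eeca226b0007d0a5a05ec695b4 (k8 c15202 c14743 c9578 c5516 c15216 c683 c5517 c5642 (k8 c1058 c5411 c5210 c5405 c5489 c9680 c9742 c5519 (k8 c1896 c8112 c10690 c5490 c5406 c14996 c9694 c5567 (k8 c5565 c5381 c5379 c14956 c5520 c5334 c5331 c5332 (k8 c15218 c15205 c15217 c5421 c9048 c3602 c461 c686 k0))))) (by decide +kernel)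
def c15220 : PP 9 3 T 0x201000000000000000000000004000200000000000000000000000000000000000000000000000010000000000000000000000014 := rS 0x33fc29a3db459ac8ef9dcc67963e48bec53085c0e974aa75566d4ce77da8641bd4d26754bf76511da1ac001f42968174a (k8 c14743 c5516 c15216 c683 c5517 c5642 c1058 c15202 (k8 c5411 c5210 c5405 c5489 c9680 c9742 c5519 c1896 (k8 c8112 c5499 c14956 c5530 c5529 c5413 c5412 c5488 (k8 c5404 c5432 c5433 c661 c681 c1054 c15219 c5357 (k8 c5441 c5355 c5356 c14615 c14285 c12000 c2133 c11210 (k4 c3598 c5536 c2562 c5688 k0)))))) (by decide +kernel)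
def c15221 : PP 9 3 T 0x201040000000000000000000004000000000000000000000000000000000000000000000000000010000000000000000000000014 := rS 0xfff9ac168e36bb2fc4410b37dc2391f9ec7a0869b558a9b64a853e93ef6c12e951d88c6f594eaae2a214cacf3a133ea3c322557ab7db03639de528641bd4d26754bf76511da1ac001f42968174a (k8 c14743 c5516 c15216 c683 c5517 c5642 c1058 c15202 (k8 c5411 c5210 c5405 c5489 c9680 c9742 c5519 c1896 (k8 c8112 c15220 c14727 c798 c10690 c5499 c5490 c5406 (k8 c14996 c9701 c5568 c5566 c5564 c14956 c5532 c5530 (k8 c5528 c5414 c5413 c5412 c14994 c5518 c5331 c5332 (k8 c5488 c5404 c5209 c5214 c5444 c5448 c5398 c5396 (k8 c5397 c5451 c5454 c5496 c14800 c1512 c1684 c275 (k8 c274 c10249 c14796 c3578 c1737 c5655 c5464 c5465 (k4 c5466 c5255 c3618 c5271 (k2 c2572 c14602 k0)))))))))) (by decide +kernel)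
def c15222 : PP 9 3 T 0x2000000000000000000000000080000000100000000000001000000001000000000001150000000400150080000000000000100000102 := rS 0xb8d18893 (k4 c5444 c14800 c682 c1619 (k1 c15161 k0)) (by decide +kernel)
def c15223 : PP 9 3 T 0x8000000000000000000080000000000000100000004000000100000000000000200000000000000000000018000000000080000140000000000000000 := rS 0x19ec46afb916d7 (k4 c5465 c686 c5658 c5585 (k2 c8136 c1652 (k1 c899 k0))) (by decide +kernel)
def c15224 : PP 9 3 T 0x41000000080000000000000100000004000100100000000000000000000000000010000000018000400000080001401541011100000000 := rS 0x3be356a341fc44f9b81be3f7190497e21310fdb03 (k8 c10690 c5499 c5252 c5651 c5226 c353 c5462 c5466 (k8 c5576 c5580 c3590 c5591 c15223 c9612 c3013 c3012 (k2 c1704 c5454 (k1 c9931 k0)))) (by decide +kernel)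
def c15225 : PP 9 3 T 0x201000000000000000000000004000000000000000000000000000000000000000000000000000010000000000000000000000014 := rS 0x115144a589c76c3d1c8c525b104e498ecd3bca607ed4309506858e968d6000c8a5e26933ab55e977ea5553b21d87c4649058ddea47a5566229d10a673bb439a34de89 (k8 c5567 c5565 c5381 c5379 c15202 c14956 c5530 c5528 (k8 c5412 c5411 c14994 c14743 c5520 c5519 c5518 c5516 (k8 c5334 c5331 c5517 c5332 c5210 c5489 c5488 c5405 (k8 c5404 c5406 c5490 c9680 c9742 c9695 c9694 c9701 (k8 c5642 c1058 c15216 c2159 c683 c1896 c14996 c8112 (k8 c5499 c10690 c15220 c14727 c12000 c798 c15221 c5438 (k8 c15222 c14895 c1565 c9515 c1570 c15224 c5571 c5421 (k4 c9048 c3602 c461 c686 k0)))))))) (by decide +kernel)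
def c15226 : PP 9 3 T 0x1000000000000000000011000000000000000100000004000000000000000000000000000000000000000002002000000000000000140000000000000000 := rS 0x7b91500 (k4 c850 c849 c9765 c5583 k0) (by decide +kernel)
def c15227 : PP 9 3 T 0x200000000000000000000000000000000000000000000000140000040000000000109000004000002000000000000020001000000 := rS 0xe33fa794281899f51e79 (k8 c1577 c5568 c5566 c5382 c5380 c1195 c537 c729 (k2 c1607 c3610 k0)) (by decide +kernel)
def c15228 : PP 9 3 T 0x201040000000000000000000004000200000000000000000000000000000000000000000000000010040000000000000000000010 := rS 0x16a71db0a522df70a48f6082fb1cc00c21914d6842c21c775988a7532b3ce9ce267d44a3c4e13129bfda214197433b1668e5e41b013c552237abdc3f4a7e87765b4 (k8 c15202 c5210 c5486 c5405 c14743 c5517 c5333 c5519 (k8 c5331 c5489 c9695 c15225 c1109 c5816 c5317 c2500 (k8 c9578 c5315 c14849 c2391 c5528 c15058 c5565 c1113 (k8 c5564 c267 c5568 c5567 c5566 c5382 c5379 c14956 (k8 c5532 c5530 c5412 c5411 c14994 c5332 c11253 c5644 (k8 c5672 c11575 c284 c1949 c282 c14193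 c2480 c62 (k8 c14988 c1684 c1573 c10249 c14796 c15226 c15227 c5651 (k2 c5571 c5422 (k1 c8385 k0))))))))) (by decide +kernel)
def c15229 : PP 9 3 T 0x28000010040000000000000000080004000200000000000001000000000040000000000800000000000010000000000000000000000008 := rS 0x41e8be79f08ecc7ed10b3472f20daa446f57b87dfa1d (k8 c5486 c5405 c5517 c5333 c5519 c5331 c5489 c1109 (k8 c5816 c5317 c2500 c5528 c15058 c9752 c5332 c5536 (k4 c2384 c1120 c5669 c14988 (k1 c1684 k0)))) (by decide +kernel)
def c15230 : PP 9 3 T 0x49000000000000000000000100000000000000000000000001000000000010000000000008110110500002080000000000005001000000 := rS 0x1aad7699fc809e45a848a2856a563acb (k8 c1754 c2159 c5488 c5490 c5651 c456 c1195 c686 (k4 c537 c536 c729 c14519 (k2 c1605 c1657 (k1 c3608 k0)))) (by decide +kernel)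
def c15231 : PP 9 3 T 0x201040000000000000000000004000200000000000000000000000000000000000000000000000010000000000000000000000010 := rS 0xf0778f67730020be924db1d0c7562a14b4671d82d3aab4ce74c7ed10a0cba190385c63b1668e5e41b013c552237abdc3f4a7e87765b4 (k8 c15202 c5210 c5486 c5405 c14743 c5517 c5333 c5519 (k8 c5331 c5489 c9695 c15225 c1109 c5816 c5317 c2500 (k8 c9578 c5434 c5433 c5432 c5315 c14849 c2391 c5528 (k8 c15058 c9752 c14956 c5530 c5413 c5412 c5516 c5332 (k8 c9680 c15228 c683 c681 c1894 c5672 c15218 c15229 (k8 c6193 c1517 c261 c262 c11141 c1684 c5668 c10425 (k1 c6325 k0))))))) (by decide +kernel)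
def c15232 : PP 9 3 T 0x201000000000000000000000004000200000000000000000000000000000000000000000000000010000000000000000000000010 := rS 0x92fe499a39792a446f57b87dfa1df686c0421da52b64f1 (k8 c9695 c5210 c14743 c15202 c5528 c15225 c1109 c15058 (k8 c5486 c5405 c5517 c5333 c5519 c5331 c5489 c5816 (k4 c5317 c2500 c15231 c5439 (k2 c5438 c14988 k0)))) (by decide +kernel)
def c15233 : PP 9 3 T 0x1001000000000002000011000000000000000000000000000000000100001000000000020050000000001000004400001004000000000000000000000000 := rS 0x5f3d9e4d684 (k4 c5672 c11575 c1540 c847 (k2 c6192 c13168 k0)) (by decide +kernel)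
def c15234 : PP 9 3 T 0x40000000000000000000000000100000000000000000000020000000000000100000002000000004000000440000440000011 := rS 0x2472070ca4d37b0 (k8 c5209 c5397 c5444 c6205 c4139 c2382 c10338 c5643 k0) (by decide +kernel)
def c15235 : PP 9 3 T 0x201040000000000000000000004000000000000000000000000000040000000000000000000000010000000000000000000000010 := rS 0x1d4be863499d2e95889b4c6c930b17c2cd3be7506f254bd5ee1d2efb4362178a7556796877b60fdd94a4ae010126768371187c774a (k8 c14743 c5332 c5517 c5331 c5518 c15202 c5530 c15225 (k8 c28 c9757 c15232 c5210 c5405 c5209 c5214 c13565 (k8 c15234 c5413 c5412 c9695 c5528 c1109 c15058 c14849 (k8 c5486 c5333 c5519 c5489 c5816 c2391 c14956 c14727 (k8 c12000 c6325 c5451 c5445 c5396 c9752 c5529 c5411 (k8 c5488 c5404 c9680 c9742 c15233 c10245 c2116 c3597 k0)))))) (by decide +kernel)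
def c15236 : PP 9 3 T 0x201040000000000000000000004000000000000000000000000000000000000000000000000000010000000000000000000000010 := rS 0x164188403a1d8c3564a4fbdb019864179df688506f20d809e2a911bd5ee1fa53f43bb2da174ef29 (k8 c15232 c14727 c14849 c15202 c5210 c5486 c5405 c14743 (k8 c5517 c5333 c5519 c5331 c5489 c9695 c15225 c1109 (k8 c5816 c2391 c5528 c15058 c14956 c5516 c6205 c8428 (k8 c5209 c5214 c5444 c5396 c5450 c15235 c798 c674 (k4 c5672 c13501 c14824 c2541 k0))))) (by decide +kernel)
def c15237 : PP 9 3 T 0x2000201000000000000000000000004000000000000000000000000000000000000000000000000000010000000000000000000000010 := rS 0x3521cf65b18f7d88613499d2e95889b4c6c73c9d46a9304a653acd3be7506f25488deaf70fbf43a5df686c43b4d94a42e5fc900a94f1 (k8 c9695 c14743 c15225 c15236 c5439 c1107 c15232 c5210 (k8 c15202 c5528 c1109 c15058 c14849 c5486 c5405 c5517 (k8 c5333 c5519 c5331 c5489 c5816 c2391 c14956 c14727 (k8 c12000 c5412 c5530 c5438 c261 c15161 c5440 c5441 (k8 c5357 c9752 c5529 c5411 c5488 c5404 c9680 c9742 (k8 c5445 c10013 c14615 c1470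 c682 c14978 c11253 c13168 (k1 c11575 k0))))))) (by decide +kernel)
def c15238 : PP 9 3 T 0x1008000000000000000211080000000000000100000004000000000000000040000000009000000000000001000004000000000000140008000000000000 := rS 0x1a9ee70401bee340c4cfa8f (k8 c5568 c5566 c5382 c5380 c5466 c5580 c15157 c5972 (k2 c9765 c1652 (k1 c5585 k0))) (by decide +kernel)
def c15239 : PP 9 3 T 0x400000000000000201000000000000000000000004000000000000000000000000000000000000000000000000000010040000000000000000000010 := rS 0x16a71db0a7c6ce3d8ca22b339c4cde8f138d526094ca759a779485cbfb1358c4eb924890d12452c04d088741bc952237abdc3efd0e977da1b0108695b278e776959 (k8 c14994 c15202 c14956 c9695 c5210 c14743 c5528 c15225 (k8 c1109 c15058 c14849 c5486 c5405 c5517 c5333 c5519 (k8 c5331 c5489 c5816 c2391 c11253 c5672 c5564 c5644 (k8 c284 c5567 c1949 c15226 c15236 c5440 c1945 c11575 (k8 c15237 c5439 c1107 c15232 c14727 c12000 c5412 c5530 (k8 c5438 c261 c15161 c267 c5568 c5565 c5382 c5379 (k8 c5532 c5411 c5653 c14978 c388 c15238 c9421 c5226 (k2 c10436 c5422 (k1 c8385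 k0))))))))) (by decide +kernel)
def c15240 : PP 9 3 T 0x201000000000000000000000004000000000000000000000000000000000000000000000000000010040000000000000000000010 := rS 0xa1dbb78e0e15ab8dfc3f8e32cf7ef303558bde4890c8a6b421610e6933a5d2a37acacf3a7340a3626133ea251fed10a0de41b78aa446f57b87e94fd0eecb685d3c9fcea18d8ca42e5f498272402 (k8 c15225 c15236 c5438 c261 c5439 c1107 c15232 c15237 (k8 c5648 c5440 c5358 c5441 c14849 c15202 c5210 c5486 (k8 c5405 c14743 c5517 c5333 c5519 c5331 c5489 c9695 (k8 c1109 c5816 c2391 c5528 c15058 c5568 c5567 c5566 (k8 c5564 c5382 c5381 c5380 c5379 c14956 c5532 c14994 (k8 c5518 c5488 c5404 c9680 c9742 c11253 c5644 c5672 (k8 c11575 c284 c1949 c15226 c15239 c5451 c5454 c14615 (k8 c8993 c847 c1755 c5658 c3722 c555 c15188 c2572 (k4 c3012 c13067 c5846 c5571 (k2 c2929 c14125 k0)))))))))) (by decide +kernel)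
def c15241 : PP 9 3 T 0x201000000000000000000000004000000000000000000000000000000000000000000000000000010000000000000000000000010 := rS 0x22a2a064a588a4e286db214b418d8a4c2e092fe4a5283f6bc84a270d809126f09a34e6f13499d5aaf7e8752aa9d907c46f705bd48f4a2e8873bb4 (k8 c15202 c14956 c5528 c14849 c14743 c5520 c5519 c5516 (k8 c5333 c5331 c5517 c5210 c5489 c5488 c5486 c5405 (k8 c5406 c5490 c9680 c9742 c9695 c5379 c5381 c5564 (k8 c5565 c5567 c15225 c1109 c267 c1113 c5816 c15058 (k8 c2391 c15232 c15236 c5439 c5438 c1107 c261 c15237 (k8 c5648 c15240 c683 c14446 c5672 c5571 c5417 c5421 (k4 c9048 c10690 c3602 c461 (k1 c686 k0)))))))) (by decide +kernel)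
def c15242 : PP 9 3 T 0x1040000000000000000000004000000000000000000000000000000000000000000000000000010040000000000000000000010 := rS 0x6ad320b14f86237184480021844251242031e41b3ba3cb087789a43af705bd4bb1d6b915ab0081acd5efd8aaa7e6ff588cc7e07188f4be924df83daabce8e7629d10a6432231d87e94179477fddb4d96db4359 (k8 c14994 c15241 c5212 c5210 c15202 c5219 c11257 c5214 (k8 c5433 c14743 c5517 c5332 c5331 c6205 c5530 c5528 (k8 c5412 c9578 c5317 c14956 c5413 c13184 c5185 c5536 (k8 c6193 c1517 c5436 c5434 c5432 c5318 c8428 c5421 (k8 c5586 c15208 c5489 c5414 c5405 c5406 c5532 c5508 (k8 c8604 c5585 c5582 c5507 c5504 c14849 c5519 c5516 (k8 c5333 c5486 c9742 c9695 c11253 c5644 c2849 c13987 (k8 c1943 c5816 c282 c283 c13042 c2599 c703 c2809 (k8 c15187 c14251 c661 c12972 c5663 c1176 c837 c12625 (k2 c2828 c281 (k1 c3588 k0))))))))))) (by decide +kernel)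
def c15243 : PP 9 3 T 0x1040000000000000000000004000000000000000000000000000000000000000000000000000010000000000000000000000010 := rS 0x473888291258482203409862676431d58a8342964b4926fa6dc3b11e8c42e071f8e7c1280c9a4cead578ec3e2305bd48f4a4e885339d389cd1a8beffb557f37ffb963b6d0d6769b2 (k8 c5210 c15202 c14994 c15241 c5212 c5421 c5219 c5586 (k8 c15208 c5413 c13184 c11257 c5583 c5505 c5419 c5571 (k8 c14956 c5530 c5528 c5412 c14743 c5520 c5519 c5516 (k8 c5331 c5517 c5332 c5406 c5490 c9680 c9742 c6205 (k8 c5214 c5185 c5317 c5318 c5432 c5433 c5434 c5436 (k8 c9578 c5460 c5536 c5538 c6193 c15242 c32 c683 (k8 c1896 c681 c1894 c5672 c5668 c13182 c724 c938 (k8 c262 c14568 c12617 c12663 c9924 c298 c5258 c5675 (k1 c2404 k0))))))))) (by decide +kernel)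
def c15244 : PP 9 3 T 0x2000001000000000000000000000004000000000000000000000000000000000000000000000000000010040000000000000000000010 := rS 0x82791a8367b2c21de2fd0eaa43e237bbd695114e9b7bfedf72af69b6d0d6412c73cca432316218d2e95d91dcea692fe48ce5d (k8 c14849 c9680 c15243 c5439 c9742 c5440 c5356 c5210 (k8 c5488 c5404 c5355 c10013 c1470 c5393 c14670 c5441 (k8 c5357 c5438 c14994 c15241 c5212 c15202 c5413 c5219 (k8 c13184 c11257 c5529 c5412 c5411 c14743 c5519 c5333 (k8 c5331 c5517 c5489 c5486 c5405 c9695 c11253 c5644 (k4 c14978 c1943 c13168 c5816 (k2 c11575 c2391 k0))))))) (by decide +kernel)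
def c15245 : PP 9 3 T 0x2000001000000000000000000000004000000000000000000000000000000000000000000000000000010000000000000000000000010 := rS 0xbb3468832d0c589290ca4de26933a5d2af5a51753a214ce77bfb2f6fb957b4db686b25f319dceb92 (k8 c15243 c5440 c5356 c5355 c5439 c14994 c15241 c5212 (k8 c15202 c5413 c5219 c13184 c5210 c11257 c14956 c5530 (k8 c5528 c5412 c14849 c14743 c5519 c5488 c5404 c9680 (k8 c9742 c9695 c5444 c5393 c14670 c10013 c1470 c15244 (k4 c1896 c9931 c12000 c1619 (k1 c15161 k0)))))) (by decide +kernel)
def c15246 : PP 9 3 T 0x1000000000000000000000004000200000000000000000000000000000000000000000000000010040000000000000000000010 := rS 0xcff0a68f6d170b48824330b7c2400891ac06840620d9af21a86d1e5843bc43a1f11bddeb4a2ec453a6d4ce77bfed8040d66af7ec5556a9f9bffdcb1db686b3b4d917c12c73c98f2407 (k8 c5432 c15243 c5355 c5441 c5357 c5438 c5439 c5210 (k8 c15202 c14994 c15241 c5212 c5421 c5219 c5586 c15208 (k8 c5489 c5413 c5414 c5405 c5406 c5532 c5508 c8604 (k8 c13184 c11257 c14956 c5530 c5529 c5412 c5411 c14849 (k8 c14743 c5519 c5333 c5331 c5517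 c5486 c9695 c11253 (k8 c5644 c2849 c1943 c280 c5816 c2501 c2391 c282 (k8 c283 c14988 c11575 c13042 c5642 c2599 c2512 c661 (k8 c2809 c297 c14662 c3063 c2136 c957 c3598 c5536 (k2 c2562 c5688 k0))))))))) (by decide +kernel)
def c15247 : PP 9 3 T 0x1000000000000000000000004000200000000000000000000000000000000000000000000000010000000000000000000000010 := rS 0x1bce168b8d1cc820a44966108800071366a198a8342964b43d038fde26933ab52e951d92416f523d2b3a7139a3517ed8040d66af7ec5556a9f9bffdcb1db686b3b4d917c127d3c98cef92 (k8 c15243 c5356 c5355 c5441 c5442 c5438 c5439 c5210 (k8 c15202 c14994 c15241 c5212 c5421 c5219 c5586 c15208 (k8 c5489 c5413 c5414 c5405 c5406 c5532 c5508 c8604 (k8 c13184 c5583 c5505 c5419 c5571 c14956 c14743 c5520 (k8 c5519 c5516 c5334 c5332 c5488 c5404 c5490 c9680 (k8 c9742 c9695 c5318 c5432 c5436 c15246 c32 c683 (k8 c1896 c681 c5672 c12000 c13182 c14988 c5642 c14568 (k8 c661 c12663 c9924 c12636 c14285 c5675 c13204 c2133 (k2 c2846 c5985 (k1 c2953 k0)))))))))) (by decide +kernel)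
def c15248 : PP 9 3 T 0x1000000000000000000000004000000000000000000000000000000000000000000000000000010040000000000000000000010 := rS 0x2201891ad2684418c8f6f21a8c4368f2c21de21d0f88dee0b7ad28bb114e9b5339d22f7fdb0081acd5efd8aaad53f37ffb963b6d0d6769b22f8258e79319d72529 (k8 c15247 c15243 c5440 c5355 c5441 c5357 c5438 c5439 (k8 c5210 c15202 c14994 c15241 c5212 c5421 c5219 c5586 (k8 c15208 c5489 c5413 c5414 c5405 c5406 c5532 c5508 (k8 c8604 c13184 c11257 c5582 c14956 c5530 c5529 c5412 (k8 c5411 c14849 c14743 c5519 c5516 c5333 c5331 c5517 (k8 c5486 c9695 c11253 c5644 c2849 c1943 c1945 c280 (k8 c5816 c14978 c5653 c2391 c283 c3675 c11575 c13042 (k2 c13171 c703 (k1 c15187 k0))))))))) (by decide +kernel)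
def c15249 : PP 9 3 T 0x40000000000000021000110080000000000000100080000000100000400000001000000000000000050000050140000000150080000000000000000000014 := rS 0xe16fb8d1de21f8e48291258f5246b08800323b0f9246e47889c44e7358ed812c73e9e4ee59 (k8 c32 c5356 c5441 c5442 c5357 c5438 c5212 c5421 (k8 c5419 c5570 c5571 c5411 c5520 c5518 c5334 c5517 (k8 c5332 c9701 c5642 c14568 c1058 c14895 c12640 c12663 (k8 c9924 c12636 c9515 c326 c5655 c5675 c13204 c5580 (k2 c2846 c12667 k0))))) (by decide +kernel)
def c15250 : PP 9 3 T 0x1000000000000000000000004000000000000000000000000000000000000000000000000000010000000000000000000000010 := rS 0x1058a181a8402e930080a26cd430cd06852c96a53b13a9dcfe7d0497f25f3f6bfd168d58fbb6c29d0e75322155a7769597a82c474a789a4cead57a5d2bb2 (k8 c5210 c5488 c5404 c5406 c5490 c9680 c9742 c9695 (k8 c14743 c5331 c5516 c5519 c14994 c15202 c5412 c5413 (k8 c5528 c5530 c14956 c15241 c8199 c5212 c5219 c5421 (k8 c5505 c5583 c5586 c13184 c15208 c15243 c5439 c5438 (k8 c5442 c5358 c5356 c5440 c15245 c15247 c15248 c32 (k8 c683 c1896 c2041 c5672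 c12000 c13182 c15249 c28 (k8 c261 c1107 c13040 c15161 c5648 c682 c543 c15195 k0))))))) (by decide +kernel)
def c15251 : PP 9 3 T 0x21040000000000000000000000000200000000000044000000014000000001000004001000400000000000000000000200004500 := rS 0x6acd3a317bec61dbd4ae331c81c62373d834f283 (k8 c5525 c5524 c5522 c5372 c5435 c5434 c5432 c5317 (k8 c5316 c5313 c2420 c340 c3568 c9979 c838 c5668 (k2 c8354 c1526 (k1 c3587 k0)))) (by decide +kernel)
def c15252 : PP 9 3 T 0x2000000000000010000021040000000000000000000000000200000000000040000000000000000001000004000000400000000000000000000040000420 := rS 0xd59a7462b1bbef51dd2842091183cae331c81c62373d834f28368bcd0acf (k8 c5543 c5541 c5540 c5501 c5525 c5524 c5522 c5372 (k8 c5435 c5434 c5432 c5317 c5316 c5313 c9737 c9734 (k8 c311 c15251 c5650 c5332 c5519 c10382 c3568 c838 (k4 c5668 c8354 c1526 c3587 k0)))) (by decide +kernel)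
def c15253 : PP 9 3 T 0x8000220000000000000000200000000000000000000000000000000140100000004014008000000000000000000000020000200004400 := rS 0x228b02435d96472590422ad57a5d2b1309a3d220d (k8 c5522 c5374 c5568 c5564 c5382 c5488 c5404 c5406 (k8 c5490 c5558 c5340 c5342 c5562 c1753 c1763 c12614 (k2 c3618 c345 (k1 c1294 k0)))) (by decide +kernel)
def c15254 : PP 9 3 T 0x98000220000000000000000000000000000000000000000000000000140100000000014000000000000000000000000820000240000020 := rS 0x94e123845acb338ab55e974a88c1f1309a3d220d (k8 c5522 c5374 c5568 c5564 c5382 c9737 c9734 c5488 (k8 c5404 c5406 c5490 c5571 c5574 c10481 c719 c2422 (k2 c4268 c12645 (k1 c563 k0)))) (by decide +kernel)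
def c15255 : PP 9 3 T 0x4000000000000000000220000000000000000100000004000000100000004000000000000000000000000000080000000000000005000000000000014400 := rS 0x2290c8d1309a3d220d (k8 c5522 c5374 c5568 c5564 c5382 c12614 c2774 c2972 (k1 c5658 k0)) (by decide +kernel)
def c15256 : PP 9 3 T 0x6000000000000018000220000000000000000000040004000200000000000000000000000000000000000008000000000010200000000000000040000220 := rS 0x32daeb112108208a2492fe5b7ac8e939e16ab4d32a14fb2468742f2b55e977ea5552298e83e266f3ea242e313ca0d56d167bfc1685d8880469b (k8 c7393 c9734 c5650 c5444 c5541 c823 c5544 c5543 (k8 c5501 c5500 c5525 c5524 c5434 c5433 c5567 c5566 (k8 c5565 c5382 c9737 c12631 c9692 c5489 c5488 c5405 (k8 c5404 c5406 c5490 c312 c421 c420 c1117 c1522 (k8 c1121 c1520 c1969 c1532 c8772 c10734 c1694 c15253 (k8 c15254 c5231 c5546 c5588 c12913 c15255 c826 c720 (k4 c1932 c1933 c1090 c3618 k0))))))) (by decide +kernel)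
def c15257 : PP 9 3 T 0x6000000000000018000220040000000000000000040004000200000000000000000000000000000000000008000000000010200000000000000040000020 := rS 0x4e8e8c05f04a6c40233183cae7b0682d0bb1 (k8 c5444 c5541 c823 c5522 c5372 c5313 c9737 c9754 (k8 c9734 c5650 c7393 c15256 c1516 c5663 c9123 c1696 (k1 c341 k0))) (by decide +kernel)
def c15258 : PP 9 3 T 0x9000020000000000000000000000000000000000000000000000000014000000004001000000000002010000000000000000000000220 := rS 0x1e04ca6d92612f25dfa955480cd679 (k8 c5524 c5523 c54 c5489 c5488 c5405 c5404 c312 (k4 c1574 c1117 c1119 c1520 (k2 c11103 c8772 k0))) (by decide +kernel)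
def c15259 : PP 9 3 T 0x2000000000000010000221040000000000000000000004000200000000000000000000000000000000000000000000000010000000000000000000000000 := rS 0x75629818c5f04a77be3ba56c5241ff782cd8ff67a1602d1559a4cefd54ec8c6872da35ee0f89a251e39038dcee572e010f691069acf283 (k8 c5525 c5524 c5523 c5522 c5374 c5372 c15250 c11323 (k8 c5313 c785 c5435 c5432 c5317 c5568 c5567 c5382 (k8 c9737 c10793 c12629 c11445 c11253 c9754 c5210 c5489 (k8 c5405 c9680 c9742 c5500 c5501 c5502 c5541 c5543 (k8 c5544 c14747 c823 c8783 c2315 c15252 c5444 c15257 (k8 c5332 c10382 c1694 c15258 c1516 c3568 c5663 c838 (k2 c1576 c5668 k0))))))) (by decide +kernel)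
def c15260 : PP 9 3 T 0x4000000000040000220000000000000000000000000000000000000000000000000000000001000001000000000000000000000000000000240004220 := rS 0x924b238462a2665006261337a3d220d4f978fa0b (k8 c718 c5566 c312 c1522 c5522 c5374 c5568 c5565 (k8 c5564 c5382 c53 c5711 c5813 c1292 c2859 c2865 (k2 c354 c345 (k1 c12614 k0)))) (by decide +kernel)
def c15261 : PP 9 3 T 0x98000220000000000000000000000000000000000000000000000000140100000008014000000000000000000000000020000240000020 := rS 0x25112064708b5962b338ab55e974a88c1f1309a3d220d (k8 c5522 c5374 c5568 c5564 c5382 c9737 c9734 c5488 (k8 c5404 c5406 c5490 c5571 c5574 c5421 c10481 c719 (k4 c2422 c2199 c1764 c12645 (k1 c461 k0)))) (by decide +kernel)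
def c15262 : PP 9 3 T 0x18000220000000000000000000040000000000000000000000000000145100000000001000000000000000000000000020000040000220 := rS 0x567e6405a32b6fe3557812efd4aaa41e7b48a7cfaa137a64bc79d8a484023 (k8 c9734 c5650 c311 c5444 c5524 c312 c1520 c5565 (k8 c1121 c5566 c1522 c5374 c5372 c9737 c5489 c5488 (k8 c5405 c5404 c10734 c13449 c12577 c15261 c5711 c15260 (k4 c1753 c5548 c5340 c5231 k0)))) (by decide +kernel)
def c15263 : PP 9 3 T 0x8000220000000000000000200000000000000000000000008000000140100000000014008000000000000000000000020000200004400 := rS 0x1611481b5d96482392c82ad57a5d2b1309a3d220d (k8 c5522 c5374 c5568 c5564 c5382 c5488 c5404 c5406 (k8 c5490 c5340 c5342 c5562 c12876 c1753 c1763 c2627 (k2 c345 c3618 (k1 c1295 k0)))) (by decide +kernel)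
def c15264 : PP 9 3 T 0x8000000000000000000000000000000000200000000000008000000140100000000014000000000000000000000800000010200000000 := rS 0x32daeb1121095aaf4ba542e31 (k8 c5434 c5433 c5488 c5404 c5406 c5490 c2537 c2423 (k4 c1932 c1933 c1090 c3618 k0)) (by decide +kernel)
def c15265 : PP 9 3 T 0x8000000000000000000000000000000000200000000000000000000140100000000014000000000000000200000000000000000020020 := rS 0x65b5d6224212b55e974a8a42e31 (k8 c5434 c5433 c9692 c5488 c5404 c5406 c5490 c826 (k4 c720 c1932 c1933 c1090 (k1 c3618 k0))) (by decide +kernel)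
def c15266 : PP 9 3 T 0x1000000000000018000220000000000000000000040004000200000000000040000000145100000000000000000000000000000000000020000040010220 := rS 0x12497f223d676ef21d3d5382005aa4522307c4c268f48835249f3ea84bc6f (k8 c5565 c312 c1121 c5566 c1522 c311 c5522 c5374 (k8 c5568 c5564 c5382 c9737 c9734 c9692 c5489 c718 (k8 c5650 c15262 c2420 c1694 c5657 c15254 c15263 c15264 (k4 c5231 c5546 c5588 c12614 k0)))) (by decide +kernel)
def c15267 : PP 9 3 T 0x1000000000000018000220000000000000000000040004000200000000000000000000000000000000000000000000000010200000000000000000000220 := rS 0x1a29d55bcc3c116ab4d9ecd4ca853ec94d8d0e85e4bbf52aa97b9bcfa892b85cf283 (k8 c5525 c5524 c5433 c5313 c5567 c5566 c5565 c10793 (k8 c5489 c5488 c5405 c5404 c312 c421 c420 c10735 (k8 c1117 c1522 c1121 c1520 c1967 c1530 c1969 c1532 (k4 c15265 c15266 c2532 c1085 (k2 c1082 c1705 (k1 c3617 k0)))))) (by decide +kernel)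
def c15268 : PP 9 3 T 0x20000000000000000000000000000200000000000000000000001000000000000450000000500154400000000400000000004500 := rS 0x18bb06315c72071b9ec1a79 (k8 c5524 c5522 c5372 c5435 c5432 c5317 c5313 c3568 (k2 c9123 c839 (k1 c10013 k0))) (by decide +kernel)
def c15269 : PP 9 3 T 0x1000000000000000000021040000000000000000000004000200000000000008000000000000000000000400000000100010400000000000000000004500 := rS 0xefb40683a3499d2e95d918cee572e0119a39 (k8 c5317 c2500 c15250 c11323 c5313 c785 c9754 c5210 (k8 c5488 c5404 c9680 c9742 c15268 c448 c449 c5450 (k1 c10484 k0))) (by decide +kernel)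
def c15270 : PP 9 3 T 0x1000000000040000200000000000000000000000000000200000000000000000400000000000000000005000000000000000002000400010000010100 := rS 0x3fb7c4bf3099f4ae3d (k8 c5436 c5313 c5566 c5564 c5588 c10629 c2947 c10493 (k1 c12670 k0)) (by decide +kernel)
def c15271 : PP 9 3 T 0x50000220000000000000000000040000000200000000000000000000000000000000000004000000000000000000400400000000010520 := rS 0xf912ab2491484d1e91f0b8d8c391b9ec0e0d3c83caf13 (k8 c5382 c5313 c9737 c5524 c5522 c5432 c5372 c5435 (k8 c5317 c3568 c2619 c5535 c5374 c5568 c5564 c9692 (k4 c15270 c12876 c12648 c5231 (k1 c5546 k0)))) (by decide +kernel)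
def c15272 : PP 9 3 T 0x10000221040000000000000000040004000200000000000000000000000000000000000000000000000010400000000000000040000000 := rS 0x7c895efaced88e1150a7d27b01db55a6611ab24e89514864c60f8984cfa8947a441a0905a6de4f51008d53b2f6bdcb804 (k8 c15250 c11323 c10793 c15259 c5210 c5489 c9734 c5650 (k8 c2420 c5657 c7393 c718 c15267 c5522 c5374 c5568 (k8 c5567 c5566 c5564 c5382 c9737 c9754 c9698 c9692 (k8 c5488 c15269 c1966 c1526 c1575 c1969 c1532 c448 (k8 c5663 c5444 c5448 c5398 c15265 c15264 c15271 c14052 (k4 c11200 c12645 c5171 c5546 k0)))))) (by decide +kernel)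
def c15273 : PP 9 3 T 0x1000800000000018000220000000000000000000040004000200000000000000000000000100000000014004000000000000200000000000000040000120 := rS 0xacfcc95efdb11c22d36a8a41f1309a3d220d05bc9eaa97b8ec4023 (k8 c9734 c5650 c340 c10793 c5489 c2420 c5657 c718 (k8 c5522 c5374 c5568 c5564 c5382 c9737 c9692 c5454 (k8 c5496 c15265 c15264 c15271 c11200 c12645 c5546 c5342 (k1 c5171 k0)))) (by decide +kernel)
def c15274 : PP 9 3 T 0x10000221040000000000000000040004000200000000000000000000000000000000000000000000000010000000000000000040000000 := rS 0x7c895efdb78c8e116ab4ce9dff0b1876a14fb2526c52f3c9ea2005a5d522911bdc1f13099bcfa89478e40e371e9dcae7b48834f209f697009b2 (k8 c5210 c15250 c11323 c15259 c15267 c5524 c5522 c5374 (k8 c5372 c5313 c785 c5436 c5435 c5432 c5317 c5568 (k8 c5567 c5566 c5565 c5564 c5382 c9737 c10793 c9734 (k8 c9692 c5489 c5404 c718 c5650 c2420 c5657 c15272 (k8 c1629 c1516 c1117 c1522 c1121 c340 c3568 c5535 (k8 c15273 c5668 c1969 c1532 c15265 c15264 c12668 c15271 (k4 c11200 c12645 c5204 c5546 k0))))))) (by decide +kernel)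
def c15275 : PP 9 3 T 0x1000000000040000200000000000000000000000004000200100000055000000400080120001015010004000000000000000000000000010080010100 := rS 0xf722ab27e219184ab258914267d2b8fc7a21 (k8 c58 c5436 c5318 c5313 c5566 c5564 c2936 c2085 (k8 c8157 c2761 c2321 c5252 c12670 c5562 c840 c5658 (k1 c5583 k0))) (by decide +kernel)
def c15276 : PP 9 3 T 0x42000200000000000000000000000004000200100000001020000000100100001015000055002000500054400000000400010080010100 := rS 0x1232bdc7f69c0492ff71b5fbfe16631136a134a04ae994e85d9e37688c60713f184cfa3d (k8 c5436 c5566 c5564 c12668 c5382 c2629 c5434 c1925 (k8 c5435 c2339 c5433 c1082 c2317 c5313 c5380 c9742 (k8 c5398 c5397 c10013 c3617 c8772 c5451 c1765 c4743 (k8 c2507 c15270 c1928 c15275 c841 c5689 c5892 c12670 (k1 c1090 k0))))) (by decide +kernel)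
def c15277 : PP 9 3 T 0x4000000000049000000000000000000000000000000000000001000050020000000000500001004004104000000000000000000000000010000000000 := rS 0x1591291888fe13acd62a056abdfaa9 (k8 c5489 c5405 c5406 c5490 c5680 c9422 c2934 c2928 (k4 c3623 c2342 c2341 c2968 (k2 c5562 c5651 k0))) (by decide +kernel)
def c15278 : PP 9 3 T 0x200000000000000000000000000000200000000000000000000000000000000008004000000000004000000000000000000010100 := rS 0x7f20a04267d2b8fc0e3d (k8 c5436 c5432 c5318 c5313 c5566 c5564 c5380 c1601 (k2 c2881 c12613 k0)) (by decide +kernel)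
def c15279 : PP 9 3 T 0x4000000000059000020040000000000000000000000000000000000040020000000000100001004005104000100000000400000000000000000000060 := rS 0x10165c54c0ad1498cf66b (k8 c5523 c5372 c9754 c9692 c5490 c5663 c8106 c1755 (k2 c15060 c15277 k0)) (by decide +kernel)
def c15280 : PP 9 3 T 0x58000220040000000000000000000004000200100000000020000000000100001004000004002000500050400000000400000080010120 := rS 0x104fed4d827fc6ad4bbf52aa91498d02133e95c7e071ea4532374e85e0713 (k8 c5382 c2629 c5433 c1082 c5435 c2317 c5374 c5436 (k8 c5432 c5318 c5313 c5566 c5564 c5380 c9754 c9692 (k8 c5489 c5488 c5405 c5404 c5490 c12668 c15278 c15279 (k4 c15276 c2999 c1657 c12613 k0)))) (by decide +kernel)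
def c15281 : PP 9 3 T 0x58000000000000000000000000040000000000000000000004000000000000000004000001000000000000200004000000000100020020 := rS 0xb380bfd6315f9124488a215645223 (k8 c9734 c9692 c5558 c826 c825 c720 c3026 c5231 (k4 c6578 c1932 c2781 c3068 (k2 c2761 c14396 k0))) (by decide +kernel)
def c15282 : PP 9 3 T 0x4000000000058000021040000000000000000000000000000000000040000000000004200001004005100000100000010600000000000000000000060 := rS 0x1a7ef7f2c5aab35040596d78a98189dfd8ab55efd5498cf66b (k8 c5523 c5372 c9754 c5489 c5405 c5406 c5490 c5396 (k8 c5494 c10110 c10171 c8106 c1765 c1755 c15060 c5680 (k4 c2934 c3000 c1198 c3623 (k2 c5586 c2943 (k1 c5689 k0))))) (by decide +kernel)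
def c15283 : PP 9 3 T 0x50000000000000000000000000040000000000000000020020000000000000000000000000000000000000000000000000000000000000 := rS 0x56085f3 (k4 c5592 c1927 c5231 c5561 k0) (by decide +kernel)
def c15284 : PP 9 3 T 0x1000000000042000200000000000000000000000004000200100000051000000400102120001015000044000000000000000000000000010080010100 := rS 0x65093dc7f69bfcae17f184cfa3d50f7dae81 (k8 c5380 c1765 c5451 c5398 c5436 c5566 c5564 c12668 (k8 c5433 c5313 c2507 c15275 c841 c5689 c12670 c8156 (k1 c1090 k0))) (by decide +kernel)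
def c15285 : PP 9 3 T 0x50000221040000000000000000040004000200000000000000000000000000000000000004000000100010400000000000000000000800 := rS 0x827f6a405c6ccf0b11363ad83253fe3089a4cead4ba55522931c7502133e8fc0e3d3b95d220910aad329d0bb3c6ed17a3cc3cfdd97b5ee3125ad4d903421700913 (k8 c5382 c15250 c11323 c823 c2629 c717 c2610 c2588 (k8 c5434 c10793 c15259 c5210 c5405 c15274 c2532 c5657 (k8 c1925 c5435 c2339 c5433 c1082 c2317 c1085 c58 (k8 c15267 c5374 c5313 c785 c5436 c5432 c5318 c5566 (k8 c5564 c5380 c12631 c9754 c9692 c5489 c5488 c5404 (k8 c5490 c9680 c9742 c15281 c12668 c15278 c15282 c15279 (k8 c15280 c5397 c10013 c5456 c3617 c4743 c15283 c15284 (k2 c2999 c1657 (k1 c12613 k0))))))))) (by decide +kernel)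
def c15286 : PP 9 3 T 0x82000000000000000000000000000000000000000000051000000000114100000045001150002100500154400000000000000000000000 := rS 0x1fee36bf8598c44da853eb1 (k8 c5421 c5572 c5398 c5397 c10013 c3617 c8772 c1765 (k2 c4743 c2507 (k1 c8628 k0))) (by decide +kernel)
def c15287 : PP 9 3 T 0x1000000000000080000220040000000000000000000000000000000000011020000000114100000045001150002000500150404000005000000000000160 := rS 0x77fc2346691080fe3fc54c1b131a04267d3d9ae071359ac42271 (k8 c5571 c719 c5421 c5574 c5382 c2629 c5523 c5372 (k8 c5566 c5564 c5380 c9754 c15286 c5663 c8106 c728 (k8 c8604 c12613 c2342 c2507 c458 c13449 c5450 c5688 k0))) (by decide +kernel)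
def c15288 : PP 9 3 T 0x200000000000000000000000000000000100000000000000000200000000000000000000000400000004000005000000000010140 := rS 0x413fa04267d (k4 c5566 c5564 c5380 c2999 (k2 c1657 c12613 k0)) (by decide +kernel)
def c15289 : PP 9 3 T 0x1000000000000080000220040000000000000000000000000200100000001020000000000000000055001150102000500150400000000000000000000120 := rS 0xd23fb5cc1df6435603eff1a2822b1389ccc613379f512571f81c7a91678dda231 (k8 c5434 c1925 c5435 c2339 c5374 c5436 c5432 c5318 (k8 c5313 c5567 c5566 c5565 c5564 c9754 c9718 c5571 (k8 c5421 c719 c3602 c12668 c5583 c3068 c15288 c15287 (k4 c5494 c10171 c2189 c728 (k2 c5689 c2938 k0))))) (by decide +kernel)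
def c15290 : PP 9 3 T 0x4000000000049000000000000000000000000000000000000001000050020000000000500001004004100000000000000000000004000010000000000 := rS 0x1591291888fe13acd62a056abdfaa9 (k8 c5489 c5405 c5406 c5490 c5680 c9422 c2934 c2927 (k4 c3623 c2342 c2341 c2968 (k2 c5562 c5651 k0))) (by decide +kernel)
def c15291 : PP 9 3 T 0x200000000000000000000000000000200000000000000000000000000000000008000000000000000000000000000000000010120 := rS 0x104fe2931a04267d2b8fc0e3d (k8 c5436 c5432 c5318 c5313 c5566 c5564 c5380 c9754 (k4 c9692 c2881 c1602 c12613 k0)) (by decide +kernel)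
def c15292 : PP 9 3 T 0x10000221040000000000000000040004000200000000000000000000000000000000000000000000100010400000000000000000000800 := rS 0x64a7d9715306c7c692808476f035a92d086c3499d5aaf4ba55522931a363a818984cfa3f038f4ee573da44d60910aad329d0bb3de8f30f3f765ed7b9700837 (k8 c5435 c15250 c11323 c10793 c15259 c5210 c5405 c15274 (k8 c2532 c5657 c2339 c5433 c1082 c2317 c1085 c58 (k8 c15267 c5523 c5374 c5372 c5313 c785 c5436 c5432 (k8 c5318 c5566 c5564 c5382 c5380 c12631 c12629 c9754 (k8 c9692 c5489 c5488 c5404 c5406 c5490 c9680 c9742 (k8 c717 c823 c2588 c2610 c2629 c15289 c15281 c15283 (k8 c15285 c12668 c5444 c5663 c8106 c1755 c15291 c15282 (k1 c15290 k0)))))))) (by decide +kernel)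
def c15293 : PP 9 3 T 0x20000000000000000000000000000000000100001020000000000000000005000000004000000150000000000000000080000400 := rS 0x429b4d683 (k4 c5525 c5523 c2315 c2335 (k1 c3601 k0)) (by decide +kernel)
def c15294 : PP 9 3 T 0x8000000000000000000000000000000000000000000000000000000014000000004001100000400202004000000000000000000000000 := rS 0x4db34c2c94bbf52aa9 (k8 c5489 c5488 c5405 c5404 c1966 c1575 c1967 c2493 (k1 c3617 k0)) (by decide +kernel)
def c15295 : PP 9 3 T 0x10000221040000000000000000040004000200000000000000000000000000000000000000000000000010000000000000000000000000 := rS 0xcd64a6d8a5e3aa10d80a68b3de89d4caade61e3499d2efd4aaa7651131a1cb6f72e010ae17188dd07ed (k8 c15259 c5525 c5435 c5434 c5433 c5313 c15250 c11323 (k8 c10793 c11445 c11253 c9754 c9728 c5210 c5489 c5488 (k8 c5405 c5404 c9680 c9742 c15274 c2532 c1085 c2317 (k8 c1082 c5657 c2339 c1925 c15293 c717 c823 c15294 (k4 c15292 c1629 c10735 c1117 (k2 c2503 c3617 k0)))))) (by decide +kernel)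
def c15296 : PP 9 3 T 0x51000220000000000000000000080000000200000000000000000000000000000000000000000000000000000000000000000000010100 := rS 0x7c895e38984cfa8f1ea449247f0b1816391b9ec0e0d3c83cae3b (k8 c5332 c5313 c9737 c5524 c5522 c5432 c5372 c5435 (k8 c5317 c5516 c3568 c5535 c5520 c5334 c5374 c5436 (k8 c5568 c5566 c5564 c5382 c12668 c12614 c5198 c5546 k0))) (by decide +kernel)
def c15297 : PP 9 3 T 0x50000221040000000000000000000004000200000000000004000000000000000004001000001000100010400000000000000000000000 := rS 0xb381bfd62242104202218ab4135b1ef3356ac5361a4cead57a5dfa9554ec8531131a1cb6f7899dcb86b41bd58c090202c72373d81c1a790795c774a (k8 c15295 c5332 c5313 c9737 c5524 c5522 c5432 c5372 (k8 c5435 c5317 c5516 c15250 c312 c3568 c5519 c5525 (k8 c5523 c11323 c785 c5382 c10793 c11445 c11253 c9754 (k8 c9728 c9692 c5210 c5489 c5488 c5405 c5404 c5406 (k8 c5490 c9680 c9742 c3601 c838 c2610 c8354 c5668 (k8 c10013 c15268 c9979 c8106 c2490 c15060 c15296 c826 (k4 c720 c1932 c2781 c4377 (k2 c2761 c3623 k0)))))))) (by decide +kernel)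
def c15298 : PP 9 3 T 0x1000000000000050000220000000000000000000080000000200000000040004000000000000000000000050000000500154400000000000000000010100 := rS 0x3f90588df45fcf604a07a0626133ea3cae391f81c6e3d3da441a791d9241647 (k8 c5520 c5516 c5334 c5332 c5524 c5522 c5374 c5372 (k8 c5436 c5435 c5432 c5318 c5317 c5313 c5568 c5566 (k8 c5564 c5382 c5380 c9737 c12614 c15296 c5546 c12080 (k4 c2510 c10013 c9151 c840 (k1 c12613 k0))))) (by decide +kernel)
def c15299 : PP 9 3 T 0x50000221040000000000000000000004000200000000000004000000000000000004001000000000100010400000000000000000000000 := rS 0x1671580fbdfeb1121c114420840d086933ab55e977ea5553b21498e26772b97123ed23d281204 (k8 c15250 c312 c15295 c5520 c15259 c5374 c11323 c5313 (k8 c785 c5382 c9754 c9692 c5210 c5489 c5488 c5405 (k8 c5404 c5406 c5490 c9680 c9742 c15297 c2629 c15298 (k8 c826 c825 c719 c720 c1932 c2781 c5583 c3068 (k2 c3048 c2760 (k1 c9179 k0)))))) (by decide +kernel)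
def c15300 : PP 9 3 T 0x90000220000000000000000000080004000000100000000004000000000000000050000000100000000050000000000000000000000020 := rS 0x8a43f79291411589c4d2731183e261337a251e910687c8f59 (k8 c12110 c5520 c5517 c5522 c5374 c5568 c5567 c5565 (k8 c5564 c5382 c9737 c9734 c9718 c9742 c5571 c5421 (k4 c719 c3602 c12645 c5583 (k2 c2774 c460 (k1 c5658 k0))))) (by decide +kernel)
def c15301 : PP 9 3 T 0x10000221040000000000000000000004000200000000000004000000000100000004000000000000100010400000000000000000000000 := rS 0x1671580fbdfeb1121c114420840d08c430a70d2977ea55522931c4cee91f691d8c09058e46e7b03834f20f2b8ef6f4a8ea34b80457ab76467 (k8 c9680 c5210 c5490 c5406 c15250 c11323 c12629 c12631 (k8 c15295 c15300 c5332 c5313 c9737 c5524 c5522 c5432 (k8 c5372 c5435 c5317 c5516 c312 c3568 c5520 c15259 (k8 c5374 c785 c5382 c9754 c9692 c5489 c5488 c5405 (k8 c5404 c9742 c15299 c1696 c3597 c838 c2629 c15298 (k8 c826 c825 c719 c720 c1932 c2781 c5583 c3068 (k2 c3048 c2760 (k1 c9179 k0)))))))) (by decide +kernel)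
def c15302 : PP 9 3 T 0x20000000000000000000080000000200000000000000000000000100000008000050000000500154400000000000000000004100 := rS 0x66a6c760b (k4 c5516 c5332 c1189 c2075 (k1 c15268 k0)) (by decide +kernel)
def c15303 : PP 9 3 T 0x1000000000000059000220000000000000000000080000000200001000000000000000000000001004000000000000000000200000000000000000000120 := rS 0xb3f7bfe06b1122288501082b55efd548a5ea47 (k8 c5520 c5519 c9692 c5489 c5405 c5406 c5490 c15296 (k8 c15060 c826 c825 c720 c1932 c1935 c2780 c5583 (k2 c2760 c9179 k0))) (by decide +kernel)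
def c15304 : PP 9 3 T 0x10000221040000000000000000000004000200000000000000000000000100000000000000000000100010400000000000000000000000 := rS 0x442010fde7f450456271db2d4d8358a983bc9dd8b1534cd792acd26756abd2e95d91ccc68d8ea062613379f5123f1e9dcb86bf6d658c090202c72373d81c1a790795c774a (k8 c15295 c5332 c5313 c9737 c5524 c5522 c5432 c5372 (k8 c5435 c5317 c5516 c15250 c312 c3568 c12110 c15259 (k8 c5523 c11323 c785 c5436 c5318 c5567 c5566 c5565 (k8 c5564 c5382 c5380 c12631 c12629 c9754 c9718 c5210 (k8 c5488 c5404 c5406 c5490 c9680 c9742 c15302 c15301 (k8 c2500 c15269 c839 c5397 c168 c5668 c3597 c8106 (k8 c5450 c726 c2610 c15303 c5571 c5421 c719 c3602 (k4 c728 c5583 c2774 c12613 (k2 c5658 c458 k0))))))))) (by decide +kernel)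
def c15305 : PP 9 3 T 0x10000221040000000000000000000004000200000000000000000000000000000000000000000000100010400000000000000000000000 := rS 0x6d9e6ab4eb31a29a30313bfb16419d5aafd918d1b1d2e7b58c090202c72373d81c1a790795c774a (k8 c15295 c5332 c5313 c9737 c5524 c5522 c5432 c5372 (k8 c5435 c5317 c5516 c15250 c312 c3568 c15259 c11323 (k8 c12631 c12629 c9754 c5210 c5406 c5490 c9680 c15304 (k8 c5396 c5494 c10110 c10171 c9123 c10484 c839 c1696 (k4 c1190 c2500 c15299 c15300 k0))))) (by decide +kernel)
def c15306 : PP 9 3 T 0x10000221040000000000000000000004000200000000000000000000000000000000000000000000000010400000000000000000000000 := rS 0x7f20b7fe64a08a853fb06ab4cc2c93a38fc2c604a5764632e0101e818984cfa894795c723f038dc7a7b48834f23b2482c8f4a (k8 c15295 c5520 c5516 c5334 c5332 c5524 c5522 c5374 (k8 c5372 c5436 c5435 c5432 c5318 c5317 c5313 c5568 (k8 c5567 c5566 c5564 c5382 c5380 c9737 c15250 c11323 (k8 c9754 c5210 c5488 c312 c3568 c5535 c2619 c15305 (k8 c1966 c1575 c1969 c1532 c5663 c5448 c5398 c15265 (k4 c12614 c5546 c2510 c9151 (k2 c10493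 c12613 k0))))))) (by decide +kernel)
def c15307 : PP 9 3 T 0x8000221040000000000000000000000000200000000000000000000000110000000014000000000100000200001400400000000004420 := rS 0x7f20b7fe64a08b8fc2d36ab1bbc0940c4c267d478e47e071b8f4ee573da441a79 (k8 c5524 c5522 c5374 c5372 c5313 c785 c5436 c5435 (k8 c5432 c5318 c5317 c5568 c5566 c5564 c5382 c5380 (k8 c421 c5668 c3568 c5454 c5496 c5535 c2619 c15265 (k4 c12614 c5546 c2510 c9151 (k2 c10493 c12613 k0))))) (by decide +kernel)
def c15308 : PP 9 3 T 0x4000000000040000000000000000000000100000004000000100000000000000000000000000018005000000000004000000008000000000000000220 := rS 0x1ef22ac206b421c544cca (k8 c5711 c5813 c1292 c2862 c354 c2200 c1344 c461 (k2 c5506 c5658 k0)) (by decide +kernel)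
def c15309 : PP 9 3 T 0x18000220000000000000000100000004000000000000000000000000005100000000004500000000000010200008000400000000000220 := rS 0x2c4e3b6f1aabc0d14eec4689256a5dfa95549bcf6913cfcdff1d (k8 c12631 c2569 c5546 c5524 c5374 c5372 c5565 c5489 (k8 c5488 c5405 c5404 c5490 c311 c420 c5444 c1694 (k8 c1704 c5679 c3617 c12577 c15308 c5571 c5421 c13919 k0))) (by decide +kernel)
def c15310 : PP 9 3 T 0x10000221040000000000000000000004000200000000000000000000000000000000000000000000000010000000000000000000000000 := rS 0x7e71f8482c604b7fe64a08b55a6cf3a33532a14da7d92c52f5648e0b248ee9497d903d0313099bcfa89478e47e071b8f4ee572e010f691069acf283 (k8 c5525 c5524 c5523 c5522 c5374 c5372 c15250 c11323 (k8 c5313 c785 c5436 c5435 c5432 c5318 c5317 c5568 (k8 c5567 c5566 c5565 c5564 c5382 c5380 c9737 c5210 (k8 c5404 c15295 c5332 c5334 c5516 c5520 c12110 c15306 (k8 c1629 c1117 c1522 c1119 c1121 c1520 c8354 c15307 (k8 c1530 c1969 c1532 c15265 c12614 c5546 c2510 c15309 (k4 c3568 c9151 c5535 c2619 (k2 c12613 c10493 k0)))))))) (by decide +kernel)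
def c15311 : PP 9 3 T 0x18000220080000000000000000000004000200000000000000000000000000000000000000000000000010200000000000000000000820 := rS 0x7111892df70fcfc1dfd8b219bed68b3d3a9955a6c96847a078d8977ea5552f740c4cfa8f0b8c46e7b48b1eb34b (k8 c13294 c12891 c5357 c5374 c5372 c5435 c5434 c5433 (k8 c5568 c5566 c5382 c5380 c10793 c5489 c5488 c5405 (k8 c5404 c717 c718 c824 c823 c2588 c2492 c1085 (k8 c2317 c1082 c2339 c1925 c5541 c2502 c3617 c5396 (k8 c5494 c7600 c14651 c5460 c5538 c10680 c5660 c5972 (k1 c2347 k0)))))) (by decide +kernel)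
def c15312 : PP 9 3 T 0x20000000000000000000040004000000000100001040000000000000000005000000004000000050000000000000000080000400 := rS 0x3daf536bccd26b (k4 c5523 c9742 c2532 c2315 (k2 c15293 c14747 (k1 c5657 k0))) (by decide +kernel)
def c15313 : PP 9 3 T 0x200080000000000000100040004000000100000000040000000000100000001000051104404400054000000020800000200010000 := rS 0x2122bdeff42c07d8f322b45aec430a71ea6940c4d128f (k8 c5568 c5567 c5382 c5380 c9742 c2420 c341 c1696 (k8 c14285 c1765 c1706 c459 c449 c5657 c5502 c5541 (k4 c5544 c8783 c15061 c5658 (k1 c2774 k0)))) (by decide +kernel)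
def c15314 : PP 9 3 T 0x20000000000000000000040004000000000100001040000000000000000001000000004000000050000000000000000080000400 := rS 0xab (k2 c1085 c15312 k0) (by decide +kernel)
def c15315 : PP 9 3 T 0x10000220080000000000000100040004000000100000000040000000000100000001000050104000400050004000005800000200000060 := rS 0x20044e3b67fa1603ec79b45aec431a0626133ea252283049fdebdf30a70f669 (k8 c9742 c5372 c341 c1696 c14615 c2420 c5358 c5438 (k8 c5525 c5374 c5567 c5566 c5564 c5382 c5380 c9754 (k8 c14285 c1765 c1706 c449 c5657 c5502 c5541 c5544 (k4 c11635 c5571 c719 c12613 (k1 c15313 k0))))) (by decide +kernel)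
def c15316 : PP 9 3 T 0x10000221000000000000000000000004000200000000000000000000000000000000000000000000000010000000000000000000000000 := rS 0x1ed79aa9a2c84e3d536200f8e8174bace48ce977ea5553b28888d0e5b46c75ee0f1f81c6e3d3b95cb804 (k8 c15250 c11323 c5313 c785 c5436 c5435 c5432 c5318 (k8 c9737 c10793 c12631 c12629 c11445 c11253 c9734 c9728 (k8 c5210 c5489 c5488 c5405 c5404 c9680 c15310 c12891 (k8 c13294 c15311 c6200 c15314 c5650 c7393 c2420 c341 (k4 c15315 c2134 c1275 c449 (k2 c5500 c5657 k0)))))) (by decide +kernel)
def c15317 : PP 9 3 T 0x2000000000000010000210000000000000000000000004000000000000000000000000011100000005001451004000000001200000000000000000010020 := rS 0x10915ef22a0eb24a3583530ff42bce031146c76261344a3c920b7a91e940f (k8 c9737 c6008 c5520 c5519 c5516 c5334 c5568 c5567 (k8 c5564 c5382 c12631 c12629 c9728 c5502 c5540 c5541 (k8 c5544 c8724 c422 c2374 c12647 c12876 c8722 c460 (k4 c8783 c15061 c5658 c2774 k0)))) (by decide +kernel)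
def c15318 : PP 9 3 T 0x1002000000000008000011000000000000000000000000000000000000000000000000000100000004001000005000200010800000000000000000000000 := rS 0x9836b3d04977ea5552cd (k8 c5537 c5489 c5488 c5405 c5404 c5672 c1531 c2431 (k2 c13449 c1521 k0)) (by decide +kernel)
def c15319 : PP 9 3 T 0x2000000000010000201000000000000000000000004000200000000000000000000000100000004001401000000200011800000000020000000000000 := rS 0x6bac596457ffcc4f59252d41a6c819ad09ed56abd2e95548a622590ea1cb71d8984d1e172482c8ed11dd2b3a0f08b553e7d509bda6892e01364cd (k8 c5537 c5210 c15250 c11323 c5567 c1969 c5565 c1121 (k8 c5566 c1522 c1532 c15265 c9737 c15316 c6008 c5332 (k8 c1704 c5520 c5516 c5334 c5433 c5568 c5564 c5382 (k8 c12631 c11445 c11253 c5486 c313 c9728 c9692 c5489 (k8 c5488 c5404 c5406 c5490 c15317 c15318 c2543 c2629 (k8 c5665 c2541 c2610 c12647 c12876 c354 c5546 c2569 (k4 c461 c9148 c14602 c1764 (k1 c3618 k0)))))))) (by decide +kernel)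
def c15320 : PP 9 3 T 0x8000000000000000000000000000000000000000000000000000000140100000004004202000000004000000001000000000000000220 := rS 0xd6f12c44fb78a1c1966c56abd2e95509796711 (k8 c9728 c2897 c312 c1121 c5488 c5404 c5406 c5490 (k8 c1521 c1760 c746 c747 c5571 c3046 c1294 c5813 (k2 c3618 c5465 k0))) (by decide +kernel)
def c15321 : PP 9 3 T 0x10000201040000000000000000000004000200000000000000000000000100000004000000000000000010000000000000000000000200 := rS 0x369acf083f6b39329066f81a2d569a77629f628d0e892309792efd4aaa407112e1643bb24396cde7d448ec934a07811379d (k8 c15316 c8100 c15250 c9737 c6008 c5334 c5332 c5567 (k8 c5566 c5565 c11445 c11253 c5210 c5486 c313 c11323 (k8 c9728 c54 c5489 c5488 c5405 c5404 c312 c1574 (k8 c311 c421 c420 c1628 c1522 c5444 c1694 c1969 (k8 c1532 c1704 c5235 c5537 c15319 c15320 c8772 c8724 (k4 c2395 c1530 c11575 c2428 (k1 c5665 k0))))))) (by decide +kernel)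
def c15322 : PP 9 3 T 0x2000000000000010000011040000000000000000080000000200000100000040000000000000000000001000000000100000200000000000000401000100 := rS 0x85266ad8264dbe13d31d887906f7d9e857983c72070b8dcee570f8ec169b (k8 c8100 c5516 c5332 c9664 c5313 c785 c5435 c5433 (k8 c5432 c5317 c9737 c5540 c5541 c5543 c10382 c422 (k8 c8612 c5668 c838 c3568 c5457 c743 c1594 c5235 (k4 c5665 c5444 c2371 c3578 k0)))) (by decide +kernel)
def c15323 : PP 9 3 T 0x1000400000000010000201040000000000000000000004000200000000000004000000100000000004000001000000100010400008000000000000000100 := rS 0x1c516b113c0c42ce351e0da7b63b13c06933ab55fb2149ce228d37a2472071b9dcae3bac83416498991e959d07a3c27f37fc74b804 (k8 c15250 c11323 c12631 c2569 c5546 c5564 c5568 c9737 (k8 c15316 c6008 c5520 c5382 c5334 c5516 c422 c12876 (k8 c5332 c5313 c785 c5435 c5432 c5317 c5567 c5565 (k8 c12629 c9728 c9718 c9692 c5210 c5406 c5490 c9680 (k8 c9742 c5185 c5668 c5535 c5457 c5710 c3568 c5665 (k8 c1631 c2371 c2634 c353 c14602 c12080 c10436 c3602 k0)))))) (by decide +kernel)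
def c15324 : PP 9 3 T 0x1000000000000010000201040000000000000000000004000200000000000004000000000000000004000001000000100010400000000000000000010100 := rS 0x1e1d8b418bde25034d2674ba5764637bc4c268f1b8ec16f5a56741ed53b8f40e3f2bc74b804 (k8 c15250 c11323 c12631 c5313 c5318 c5432 c5436 c785 (k8 c15288 c9737 c15316 c6008 c5519 c5516 c5332 c5435 (k8 c5568 c5564 c5382 c10793 c9754 c5210 c5488 c5404 (k8 c9680 c9742 c422 c12647 c15323 c5451 c9979 c10013 (k2 c5459 c5235 k0))))) (by decide +kernel)
def c15325 : PP 9 3 T 0x1001000000000010000011040000000000000000000004000000000000000000000000000000000000000000000000500010400000000000000000000000 := rS 0x189ded81a4ce974aec8c604 (k8 c15250 c9754 c5210 c5488 c5404 c9680 c9742 c5235 (k2 c5185 c10013 (k1 c5451 k0))) (by decide +kernel)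
def c15326 : PP 9 3 T 0x4400000000000000000000000000000000000000000000000000000000000000000500100000200000000000000000000000000000000000000000000 := rS 0x1a7ef (k2 c5506 c2085 (k1 c5689 k0)) (by decide +kernel)
def c15327 : PP 9 3 T 0x100200000000001a000210000000000000000000000000000200001000014000000000101100000404001400000000500154400000000000010000010100 := rS 0x1fc4a8bf9edfdcb181b5fbece6226526ad57a5dfa9554a04aed1f184cfa3d (k8 c5436 c5566 c5564 c12668 c5459 c5313 c5380 c5489 (k8 c5488 c5405 c5404 c5406 c5490 c5444 c5447 c10013 (k8 c8772 c6325 c1765 c2634 c15326 c9179 c8604 c14396 (k4 c5583 c5803 c840 c12670 k0)))) (by decide +kernel)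
def c15328 : PP 9 3 T 0x2000000000008000000000000000000000000000000000000000000000000000000000100000004000500000800000002000000000000000000000000 := rS 0x1e59c977ea5552d1 (k8 c5459 c5489 c5488 c5405 c5404 c8772 c1577 c2394 k0) (by decide +kernel)
def c15329 : PP 9 3 T 0x10000201040000000000000000000004000200000000000000000000000100000004001001000000100010400000000000000000010000 := rS 0x401a9ffbc712233f6d025a9e131f358b2cc1b166bcbc69f6a9a4cead57bf452638ea04267d1f8f536ff80a25668f8a9a9048563b47c0772c874720b1d95c6e07f6826940fcebdcb8230ca1cb6a9d9444086f (k8 c5565 c15250 c9728 c5210 c5489 c11445 c11253 c9698 (k8 c9734 c11323 c10793 c15316 c9737 c6008 c15321 c15322 (k8 c5432 c5435 c5313 c5332 c5516 c5317 c5486 c313 (k8 c785 c15325 c5459 c5535 c5827 c5672 c8722 c1139 (k8 c5568 c2377 c5567 c1977 c2396 c8100 c5436 c5318 (k8 c5566 c5564 c5380 c12631 c9754 c9692 c5405 c5406 (k8 c5490 c9680 c9742 c15288 c15291 c12668 c15324 c2500 (k8 c15327 c5663 c1755 c9422 c14396 c15328 c2373 c2613 (k8 c3623 c5685 c2634 c2628 c5571 c8612 c728 c5450 (k2 c12613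 c458 k0)))))))))) (by decide +kernel)
def c15330 : PP 9 3 T 0x10000201040000000000000000000004000200000000000000000000000100000004001001000000100010400000000000000000000000 := rS 0xf7c0d628a210422ab380bfcd48242b458fe0f6ab55efd548a43311119643bb24396dee6f44a3c72071b9dcae5c1d82deb4ace83c0809 (k8 c15321 c15250 c9737 c15316 c6008 c5519 c5516 c5332 (k8 c11323 c5313 c785 c5435 c5432 c5317 c5568 c5567 (k8 c5565 c10793 c11445 c11253 c5210 c5486 c313 c9734 (k8 c9728 c9698 c9692 c5489 c5405 c5406 c5490 c15322 (k8 c15325 c5535 c5459 c5827 c5672 c8722 c2396 c1977 (k8 c2377 c1139 c15329 c826 c825 c1932 c1935 c5583 (k1 c9179 k0))))))) (by decide +kernel)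
def c15331 : PP 9 3 T 0x10000201040000000000000000000004000200000000000000000000000100000004000001000000100010400000000000000000000000 := rS 0x639ed0ac4309b3d9b0359e7c29c3499d2e95d9444c6772b970099d (k8 c15316 c15250 c11323 c5313 c785 c9754 c9728 c5210 (k8 c5488 c5404 c9680 c9742 c15330 c5458 c1538 c1135 (k8 c5235 c15325 c5665 c5445 c10013 c5541 c742 c838 (k1 c5669 k0)))) (by decide +kernel)
def c15332 : PP 9 3 T 0x2000000000000010000210000000000000000000000004000000000000000000000000000100000005001451004000200000200000000000000200010020 := rS 0x35a081acc79b462261 (k8 c1575 c9728 c5501 c5540 c15317 c422 c1967 c2371 (k1 c8722 k0)) (by decide +kernel)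
def c15333 : PP 9 3 T 0x5000000000010000210040000000000000000000000000000000000000000000000000000000001000001000001200000004000005140000200011160 := rS 0x701f98c413db7fe683251ae22818984cfa8f1d82e940f (k8 c9737 c6008 c5516 c5332 c5568 c5566 c5564 c5382 (k8 c5380 c9728 c2371 c12647 c8722 c5546 c2510 c1689 (k4 c9151 c5669 c12613 c9140 (k1 c3058 k0)))) (by decide +kernel)
def c15334 : PP 9 3 T 0x2000200000000000000000000000000000200000000000000000000000000000000000000000040000001400000000000000000010120 := rS 0xcb388936e293998d0213379f4ae171ea4d3ea1 (k8 c5398 c5448 c5444 c5436 c5433 c5313 c5566 c5565 (k8 c5564 c5380 c9754 c9718 c9692 c8833 c12670 c2754 (k2 c1090 c3599 k0))) (by decide +kernel)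
def c15335 : PP 9 3 T 0x1005000000000018000211040000000000000000000000000000000000000000000000000100000004001101004004200000204000005140000200010160 := rS 0x620cf2d066b3fbc977ea55529b (k8 c8100 c5489 c5488 c5405 c5404 c5185 c5453 c5495 (k4 c3617 c1540 c1976 c15333 (k1 c423 k0))) (by decide +kernel)
def c15336 : PP 9 3 T 0x4000000000010000211040000000000000000000004000000000000000000000000000100000004001001000004200000404000005140000000410160 := rS 0x1b4d67841b39a3e0f68812efd5486622232e21cb61f1dd281e9b62a4d33b030a576463 (k8 c9754 c5210 c5488 c1575 c5663 c5447 c5444 c126 (k8 c8100 c9737 c6008 c5332 c9664 c11445 c11253 c11323 (k8 c9734 c9728 c9698 c5489 c5405 c5404 c3578 c15332 (k8 c15335 c5459 c8772 c2395 c1530 c11575 c2429 c5665 k0)))) (by decide +kernel)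
def c15337 : PP 9 3 T 0x10000201040000000000000000000004000200000000000000000000000100000004000001000000000010400000000000000000000000 := rS 0x1bff3719298c0d41f84d89c3d9fbc61150a7f60d5699858a743499d2e95d900e22638984cfa89478e47e070b8dc7a772b970174ace83c0809 (k8 c15321 c15250 c9737 c15316 c6008 c5516 c11323 c5313 (k8 c785 c5436 c5435 c5433 c5432 c5318 c5317 c5568 (k8 c5567 c5566 c5564 c5382 c9754 c9728 c54 c5210 (k8 c5488 c5404 c9680 c9742 c15331 c126 c1575 c1969 (k8 c1532 c5663 c5448 c5398 c15265 c12668 c15334 c891 (k8 c15336 c8792 c5458 c2431 c2427 c14757 c12647 c2619 (k2 c5546 c2510 (k1 c10493 k0)))))))) (by decide +kernel)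
def c15338 : PP 9 3 T 0x10000201040000000000000000000004000200000000000000000000000100000004001000000000100010400000000000000000010000 := rS 0x8840790d4ffde38b3f6d025a9e162986598363e34fb54d26756abdfa2931c7502133e8fc7af54dfcd66ff66c051315352090ac7f01dda2902c874720b1d95c6e07f6826940fcebdcb8230ca1cb6a9d9444086f (k8 c5565 c15250 c9728 c5210 c5489 c11445 c11253 c9698 (k8 c9734 c11323 c10793 c15316 c9737 c6008 c15321 c15322 (k8 c5432 c5435 c5313 c5332 c5516 c5317 c5486 c313 (k8 c15337 c9793 c785 c15325 c5535 c5827 c5672 c8722 (k8 c1139 c5567 c1977 c5537 c3009 c2897 c5589 c8100 (k8 c5519 c5436 c5318 c5566 c5564 c5380 c12631 c9754 (k8 c9692 c5405 c5406 c5490 c9680 c9742 c15288 c15291 (k8 c12668 c15327 c5663 c1755 c15328 c9422 c2373 c2613 (k8 c3623 c5685 c2634 c5571 c8612 c728 c5450 c9979 (k2 c12613 c2628 (k1 c458 k0))))))))))) (by decide +kernel)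
def c15339 : PP 9 3 T 0x10000201040000000000000000000004000200000000000000000000000100000004001000000000100010400000000000000000000000 := rS 0x6dc487008454d48242b1fc1ed5486446590eec90ef7378e40e373b95cb83b05d2b3a0f04fcda25b59a422204 (k8 c15250 c9728 c15337 c2897 c11445 c9793 c5589 c15321 (k8 c9737 c15316 c6008 c5516 c5332 c11323 c5313 c785 (k8 c5435 c5432 c5317 c5565 c10793 c11253 c5210 c5486 (k8 c313 c9734 c9698 c5489 c15322 c15325 c5535 c5827 (k8 c5672 c8722 c1139 c15338 c719 c720 c5571 c5803 k0))))) (by decide +kernel)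
def c15340 : PP 9 3 T 0x10000201040000000000000000000004000200000000000000000000000100000004000000000000100010400000000000000000000000 := rS 0xc63da158861069b3d9b0359e7c29c3499d2e95d9444c639038dcee572e0ec174ace83c0809 (k8 c15321 c15250 c9737 c15316 c6008 c5516 c5332 c11323 (k8 c5313 c785 c5435 c5432 c5317 c9754 c9728 c5210 (k8 c5488 c5404 c9680 c9742 c15339 c5458 c1538 c1135 (k8 c5235 c15325 c5665 c316 c5445 c10013 c5541 c742 (k2 c3568 c838 k0))))) (by decide +kernel)
def c15341 : PP 9 3 T 0x2000000000000018000001040000000000000000000000000200000000000000000000010100000004001500000000600000000000000010000200000020 := rS 0x208d6cc06a5d2aa98896d8a7b (k8 c1688 c126 c11445 c9728 c5489 c5488 c5404 c14607 (k4 c8724 c2371 c1967 c8722 k0)) (by decide +kernel)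
def c15342 : PP 9 3 T 0x800000000008000000000000000000000000000000000000000000000000000000010100000004001500000000000000000000000000000000000000 := rS 0x19acf4bbf52aa9 (k4 c5489 c5488 c5405 c5404 (k2 c5453 c5495 (k1 c3617 k0))) (by decide +kernel)
def c15343 : PP 9 3 T 0x18000011040000000000000000000000000200000000000000000000010100000004001000004000600000400000000010000000000020 := rS 0xda6b3c20d9de0effb440977eaa43311118e42e370f8ee940f4db152699d81852a63 (k8 c9754 c5488 c1575 c5663 c5447 c5444 c126 c8100 (k8 c9737 c6008 c5332 c9664 c5435 c5433 c5317 c9734 (k8 c9728 c9698 c5489 c5405 c5404 c3578 c15341 c15342 (k4 c5185 c8772 c2395 c1530 (k2 c11575 c2429 (k1 c5665 k0)))))) (by decide +kernel)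
def c15344 : PP 9 3 T 0x10000201040000000000000000000004000200000000000000000000000100000004000000000000000010400000000000000000000000 := rS 0xcb1389482e38a1c01ac6361acf3e14e045429f49b7f607b1ab55a6613a347e6904aec852198898d0e5b899f512391f81c2e371e9dcae5c1d924174ace83c0809 (k8 c15321 c15250 c9737 c15316 c6008 c5516 c5334 c5332 (k8 c11323 c5313 c785 c5436 c5435 c5433 c5432 c5318 (k8 c5317 c5567 c5566 c5382 c11445 c11253 c9754 c9728 (k8 c9698 c9692 c5210 c5488 c15337 c5589 c9793 c15340 (k8 c1575 c1969 c1532 c1526 c1688 c5663 c2949 c5444 (k8 c5448 c5398 c15265 c15343 c5458 c1538 c1135 c8792 (k8 c5669 c316 c746 c747 c2619 c9151 c2754 c3046 (k2 c1293 c3579 k0)))))))) (by decide +kernel)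
def c15345 : PP 9 3 T 0x1800000000018000210040000000000000000000000000000000000000000000000000100000004001000004000100040a44000005140000000010160 := rS 0x1fc82dff9b8c94c63ca441ad041a6760fd54a0626133ea3c760ba503d367b (k8 c1686 c8100 c9737 c6008 c5516 c5332 c5568 c5566 (k8 c5564 c5382 c5380 c5489 c5405 c5235 c5447 c9113 (k8 c15342 c423 c9793 c1540 c8113 c12647 c2619 c5546 (k4 c2510 c9151 c10493 c12613 k0)))) (by decide +kernel)
def c15346 : PP 9 3 T 0x1002800000000008000011000000000000000000000000000200000000000050000000000100000004000400004000100000810000000400000000004500 := rS 0x411b1e4854c3458e977ea5552571c81c6ecf (k8 c5453 c5435 c5432 c5317 c5313 c5489 c5488 c5405 (k8 c5404 c5535 c5459 c8772 c5827 c9979 c1521 c5672 (k1 c4638 k0))) (by decide +kernel)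
def c15347 : PP 9 3 T 0x1001000000000000000211000000000000000000000000000000000000001000000000000000000000000001004401000000a04000005140000000014160 := rS 0xfe4171b7fe67b63128d60d40c4c267d478ec174a (k8 c6008 c5516 c5332 c5568 c5566 c5564 c5382 c5380 (k8 c423 c11575 c12647 c6192 c1687 c5546 c2510 c2619 (k2 c9151 c10493 (k1 c12613 k0)))) (by decide +kernel)
def c15348 : PP 9 3 T 0xa000000000000000000000000000000000200000000000000000000140000000000000000000000000000000000080000010000000000 := rS 0x35c2e31 (k4 c5434 c5433 c1933 c9281 k0) (by decide +kernel)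
def c15349 : PP 9 3 T 0x1000000000000000211040000000000000000000004000200000000000008000000000000000000000001000001100000800000040000000000014120 := rS 0x117de40ac9fcf4c7413f50e5b46c7502133ea24723f038f4760b1afb7bcc54bec8ee577b9729437 (k8 c5435 c6008 c11323 c10793 c5313 c785 c5210 c5404 (k8 c1629 c5668 c10382 c5450 c5516 c5332 c5436 c5432 (k8 c5318 c5317 c5567 c5566 c5564 c5380 c12631 c12629 (k8 c11445 c11253 c5405 c15347 c4658 c5669 c5822 c14795 (k4 c12613 c8993 c458 c5658 k0))))) (by decide +kernel)
def c15350 : PP 9 3 T 0x100180000000001a000011000000000000000000000000000000000500000000000000010000000000000002004401000000800000000000000000000000 := rS 0xca6bb8e2900631b1086b56abd2efd (k8 c5405 c5404 c5406 c5490 c11575 c5672 c5665 c6192 (k4 c850 c747 c2619 c2145 (k2 c9303 c1293 k0))) (by decide +kernel)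
def c15351 : PP 9 3 T 0x41000000000000008000000000000000000000000000000000000001000014008000080000000000404000000000000000000000000000000000200000000 := rS 0x2c206b556abdfaa9 (k8 c5489 c5405 c5406 c5490 c4678 c4680 c3623 c14602 k0) (by decide +kernel)
def c15352 : PP 9 3 T 0x1000000000010000211040000000000000000000004000200000000000000000000010000000004000000000001100000800000000000000000010120 := rS 0x104fee06fb8c41153d032026a63a09feb3f9a41e4a988a1cb681899bd123f038edebed7bd281e37f184cfa3d21ec1a6d5ef3152e772b97053b2 (k8 c5210 c9692 c11323 c5313 c785 c5404 c1629 c5668 (k8 c5454 c5496 c5235 c15348 c5436 c5566 c5564 c12668 (k8 c5435 c9737 c6008 c10793 c10382 c5519 c5332 c5432 (k8 c5318 c5567 c5565 c5382 c5380 c11445 c11253 c9728 (k8 c5489 c9979 c15349 c5589 c2897 c3009 c15350 c4658 (k8 c8722 c1977 c2390 c5669 c1139 c315 c4304 c15351 (k4 c5691 c892 c1714 c12613 k0))))))) (by decide +kernel)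
def c15353 : PP 9 3 T 0x10000211040000000000000000000004000200000000000000000000000100000004000000000000100000800000000000000000000120 := rS 0x48a0da0794e78423ed69b57bc677ec44b21d4396dee391f81c6e3d3b95cb83b05bd6940f4db152fb24f9f5426f (k8 c5565 c1121 c5566 c1522 c5210 c5404 c1629 c8100 (k8 c9737 c6008 c5519 c5516 c5332 c11323 c5313 c785 (k8 c5436 c5435 c5432 c5318 c5317 c10793 c11445 c11253 (k8 c5486 c313 c9728 c5405 c9680 c5668 c5454 c5496 (k8 c10382 c15265 c15346 c15345 c1538 c15352 c1975 c9793 (k1 c15347 k0)))))) (by decide +kernel)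
def c15354 : PP 9 3 T 0x2000000000000018000001040000000000000000000000000200000000000000000000000100000004001500000000600000000000000010000200000020 := rS 0xd1 (k2 c5501 c15341 k0) (by decide +kernel)

end Pool.Agent.H551.GP.E93
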