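import Pool.Agent.H551.GP.E93x3

/-! Certificate data. -/

set_option linter.all false
set_option maxRecDepth 100000

namespace Pool.Agent.H551.GP.E93

def c15355 : PP 9 3 T 0x1000000000018000211040000000000000000000000000200000000000000000000000100000004001000004000200000a00000000000000000000120 := rS 0x68243bded101ec32232d8e47e070b8dcee570f8ee940f4da4c6be308b553ea137b4d12133e8f533b0 (k8 c5235 c5447 c5436 c5566 c5564 c5567 c1969 c5565 (k8 c1121 c1522 c1532 c15265 c12668 c1526 c1516 c8100 (k8 c9737 c6008 c5332 c9664 c5313 c785 c5435 c5433 (k8 c5432 c5318 c5317 c11445 c9734 c9698 c1686 c3578 (k4 c15354 c5185 c15335 c15342 (k1 c9793 k0)))))) (by decide +kernel)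
def c15356 : PP 9 3 T 0x2000000000000010000000000000000000000000000000000000000100000050000000004000000001002000000000200000000000000555000000000000 := rS 0x1046b661ede6d1 (k4 c5501 c5540 c1688 c3587 (k2 c1136 c1967 (k1 c8722 k0))) (by decide +kernel)
def c15357 : PP 9 3 T 0x100180000000001a000211000000000000000000000000000000000000000000000000010000000000002000004000200000a04000005140000000010160 := rS 0x12083359edfaa907c4cf311 (k8 c9728 c1538 c5382 c9737 c5489 c5405 c1688 c1136 (k2 c8722 c15347 (k1 c15350 k0))) (by decide +kernel)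
def c15358 : PP 9 3 T 0x1000000000010000211040000000000000000000004000200000000000000000000000100000004000000000000000000800000000000000000000120 := rS 0x7b9964513902b27f3d31d049168337bded679e53843d82b52efd548a622872dc75ee810995c66391f81c2e311b8f4760b7ad281e931a845aa9f3ea84ded33a224b9b2 (k8 c5210 c11323 c5567 c15353 c1969 c5565 c1121 c5566 (k8 c1522 c1532 c15265 c1526 c1516 c9737 c6008 c5519 (k8 c5516 c5332 c5436 c5435 c5434 c5433 c5432 c5318 (k8 c5317 c5316 c5313 c5564 c5380 c10793 c12631 c11445 (k8 c11253 c9728 c9692 c5489 c5405 c5404 c5490 c5235 (k8 c15348 c15355 c1538 c1650 c15356 c5185 c5495 c15357 (k8 c9793 c15347 c2484 c1976 c5822 c14795 c12613 c349 (k4 c458 c9148 c5658 c8156 k0)))))))) (by decide +kernel)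
def c15359 : PP 9 3 T 0x2000000000000000000000000000000000000000000000000000000000000050000000011000000000000000000000000000000000000555000000000000 := rS 0x19ef3 (k2 c5540 c5543 (k1 c3587 k0)) (by decide +kernel)
def c15360 : PP 9 3 T 0x1000000000000008000000000000000000000000000000000000100000040000000000148100000004014200000000000000000008000000010000000000 := rS 0x196d758acdfff356abd2e95 (k8 c5488 c5404 c5406 c5490 c5546 c2569 c2455 c14602 (k2 c1770 c1760 (k1 c3618 k0))) (by decide +kernel)
def c15361 : PP 9 3 T 0x10000201040000000000000000000004000200000000000000000000000100000004000000000000000010000000000000000000000000 := rS 0x1aecb58bfd67f34812d30ce361e2066b06a13dacd68a758fe0088d5aad33a2853e5e04ab55e974a8a622590eec90e5b8ebdcb913099bcfa894795c6639038c46e3b2482dea47a56741e04 (k8 c15250 c9737 c15316 c6008 c5520 c5519 c5516 c5334 (k8 c5332 c5435 c5434 c5432 c5317 c5316 c5313 c5568 (k8 c5567 c5566 c5565 c5564 c5382 c11323 c10793 c12631 (k8 c11445 c11253 c5210 c5486 c313 c9728 c9692 c5488 (k8 c5404 c5406 c5490 c15321 c15344 c1522 c1121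 c15353 (k8 c1969 c1532 c1526 c15265 c15358 c5535 c5458 c5459 (k8 c5537 c15359 c15318 c2541 c2543 c2629 c5745 c5665 (k8 c2544 c2428 c15360 c12614 c5589 c2897 c3009 c14602 (k2 c1760 c1770 (k1 c3618 k0)))))))))) (by decide +kernel)
def c15362 : PP 9 3 T 0x2000000000000000000000000000000000000000000000000000000000000000000000000000000000000002000100000014000000540000000004540 := rS 0x1a2c7 (k2 c5535 c5459 (k1 c5827 k0)) (by decide +kernel)
def c15363 : PP 9 3 T 0x10000201040000000000000000000004000200000000000000000000000100000000000000000000100010000000000000000000000000 := rS 0x345201169b55429fef17b61e13c825fa590eeca26391f81c6e3d3b95cb83b05d281e8441c473bed5521cb604 (k8 c15250 c11445 c11253 c15361 c5500 c15316 c9728 c1974 (k8 c5672 c9737 c6008 c5516 c5332 c11323 c5313 c785 (k8 c5436 c5435 c5432 c5318 c5317 c5382 c5210 c5486 (k8 c313 c5405 c421 c2545 c15362 c5235 c15325 c5185 (k8 c5448 c5398 c5454 c5496 c15265 c15347 c9793 c15350 k0))))) (by decide +kernel)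
def c15364 : PP 9 3 T 0x100080000000000a000010000000000000000000000000000000000100040000000400000000000000000002006000002400000000000000000000000000 := rS 0x32daf008a2b55e97 (k8 c5404 c5406 c5490 c747 c850 c9267 c1293 c9303 k0) (by decide +kernel)
def c15365 : PP 9 3 T 0x1000000000000008000211040000000000000000000000000200000000000000000000140100000000000000006004002401600000000000000000005020 := rS 0x37fe6e125244fde3ef045c7e150a7d8db004c44c6133ea3cae39038dc7a3b05d2a0713 (k8 c5382 c2629 c6008 c5516 c5332 c5436 c5435 c5432 (k8 c5317 c5313 c5568 c5566 c5564 c9754 c9728 c312 (k8 c5663 c5710 c5448 c5398 c5535 c2619 c15265 c5185 (k8 c12668 c15334 c15364 c12647 c3058 c5546 c2510 c9140 k0)))) (by decide +kernel)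
def c15366 : PP 9 3 T 0x18000210000000000000000000000000000000000000040000000000140100001000014001000000000000000000000020000000411020 := rS 0x8a2c36ecb6b89c8ab3f992ab2ad57a5d2a298984d1e490591e940f (k8 c9737 c6008 c5520 c5516 c5334 c5568 c5564 c5382 (k8 c9692 c5488 c5404 c5406 c5490 c12876 c12647 c5546 (k8 c2455 c461 c354 c1764 c9148 c10481 c3618 c5685 (k1 c1295 k0)))) (by decide +kernel)
def c15367 : PP 9 3 T 0x18000210000000000000000000000000000000000000000000000000140100000000014000002000002000200000000000000000411220 := rS 0x6bac597008a241a29d1a2495aaf4ba54774a07ad60713 (k8 c5382 c2629 c2610 c9737 c6008 c5332 c5488 c5404 (k8 c5406 c5490 c311 c420 c1694 c1704 c15366 c747 (k4 c850 c1292 c1295 c2145 (k1 c3618 k0)))) (by decide +kernel)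
def c15368 : PP 9 3 T 0x1001000000000018000211040000000000000000000000000000000000000000000000000000000000000000004400002000a04000005140000000010160 := rS 0x34520794cf7b60fd8896c1f13 (k8 c5382 c9737 c11445 c9728 c5405 c5235 c5185 c5447 (k4 c2428 c15347 c9793 c15350 k0)) (by decide +kernel)
def c15369 : PP 9 3 T 0x4000000000008000000000000000000000000000000000000100000000000000000148100000000014200000000000000000008000000010000000000 := rS 0x162cb6bacdfead57a5d2bdf (k8 c5453 c5488 c5404 c5406 c5490 c2569 c2455 c1770 (k2 c1760 c15326 (k1 c3618 k0))) (by decide +kernel)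
def c15370 : PP 9 3 T 0x10000201040000000000000000000004000200000000000000000000000100000000000000000000000010000000000000000000000000 := rS 0x58b5d97147facd204b4c338f0c7f078c121150a7cbc7b6ab4cc27481a101a6c35a0fdaaa56abd2e95d90a622872dc74b913099bcfa894795c723f0385c6e3d1d9241647a56741e04 (k8 c15250 c9737 c15316 c6008 c5520 c5516 c5334 c5332 (k8 c5436 c5435 c5433 c5432 c5318 c5317 c5313 c5568 (k8 c5567 c5566 c5565 c5564 c5382 c11323 c12631 c11445 (k8 c11253 c9728 c9692 c5210 c5488 c5404 c5406 c5490 (k8 c15361 c5500 c1974 c1137 c9859 c423 c5672 c2629 (k8 c15363 c1575 c1969 c1532 c1689 c15365 c1522 c1121 (k8 c15265 c15367 c12668 c15368 c5535 c3568 c2544 c2428 (k8 c15369 c12614 c2897 c3009 c747 c1760 c1770 c1295 (k1 c3618 k0))))))))) (by decide +kernel)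
def c15371 : PP 9 3 T 0x4000000000001000000000000000000000000000000000000001000015000000000081400000455004401000000000840000000000000000000000000 := rS 0xa1dbad16303 (k4 c2087 c2086 c3623 c8602 (k2 c1199 c5680 k0)) (by decide +kernel)
def c15372 : PP 9 3 T 0x18000000000000000000000000000000000000001000014010000000000000000404000000000000000000200000000000000000020020 := rS 0x5aede06b1121c084ad57bf55229 (k8 c9692 c5489 c5405 c5406 c5490 c826 c719 c720 (k4 c1932 c1935 c5571 c13705 (k1 c3623 k0))) (by decide +kernel)
def c15373 : PP 9 3 T 0x4000000000009000000000000000000000000000000000000001000014000000000081400000404004400000000000000000000000000000000000000 := rS 0xa1dbad1630356abdfaa9 (k8 c5489 c5405 c5406 c5490 c2087 c2086 c3623 c8604 (k2 c1199 c5680 k0)) (by decide +kernel)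
def c15374 : PP 9 3 T 0x10000201040000000000000000000004000200000000000000000000000000000000000000000000000010000000000000000000000000 := rS 0xa1dbad206b1f734fc69f6a8462ab380bfcd4ab417b50acd4eb2dae09f01818875efec5909b56abdfaa90cc4446632c87764872dc75ee81099bcfa89478e47e071b8f4ee572e0ec16f5a56741e04 (k8 c15250 c9737 c15316 c6008 c5519 c5516 c5332 c11323 (k8 c5313 c785 c5436 c5435 c5432 c5318 c5317 c5568 (k8 c5567 c5566 c5565 c5564 c5380 c10793 c12631 c11445 (k8 c11253 c5210 c5486 c313 c9754 c9734 c9728 c9698 (k8 c5489 c5405 c5406 c5490 c8100 c15370 c5396 c5494 (k8 c1966 c10110 c10171 c5235 c421 c1765 c1755 c5458 (k8 c5537 c15362 c15322 c5672 c1974 c8722 c2396 c1977 (k8 c2377 c1139 c15372 c15288 c15291 c12668 c15373 c5689 (k4 c5506 c5508 c3623 c8604 (k2 c1199 c5680 k0)))))))))) (by decide +kernel)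
def c15375 : PP 9 3 T 0x5000000000000000000000000000000000000000000000000000000000000000500000000000000000000000000000000000008000100000000000000 := rS 0x1bff3 (k2 c5546 c2510 (k1 c5691 k0)) (by decide +kernel)
def c15376 : PP 9 3 T 0x200080000000000000000000000000200000000000000000000000000000000000000000000000000000001400400000000015400 := rS 0xdff9a4096e12078e26133ea3c7e3d3ff85c67a1c8dc0ec73c95c1281 (k8 c5380 c5438 c5313 c5441 c5357 c5432 c5435 c5317 (k8 c3568 c1775 c5457 c5358 c5436 c5318 c5568 c5566 (k8 c5564 c5382 c12823 c12613 c1714 c15375 c12614 c5589 (k2 c2948 c5691 k0)))) (by decide +kernel)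
def c15377 : PP 9 3 T 0x8000000000000000000000000000000000000000000000000000000000100000000000000000040000000200000001001000000420020 := rS 0x4fb2d42d36bb5562243822884ad57a5d2a29 (k8 c9692 c5488 c5404 c5406 c5490 c826 c825 c719 (k8 c720 c1932 c2778 c1933 c2938 c2929 c1090 c2756 (k1 c3618 k0))) (by decide +kernel)
def c15378 : PP 9 3 T 0x8000211080000000000000000000000000200000000000000000000000100000004000000004000000000200000000000000000004020 := rS 0x3bfe168b3d9a9b4ca75048579080d40c08a5dfa95549643a390b8c47a3b2482c8f4a2f9e4fe75 (k8 c5440 c5358 c5441 c5439 c6008 c5520 c5516 c5334 (k8 c5332 c5436 c5434 c5433 c5317 c5486 c313 c5489 (k8 c5488 c5405 c5404 c15377 c15376 c316 c315 c422 (k8 c2541 c423 c1135 c2373 c2490 c2500 c11551 c1975 (k2 c13449 c15342 (k1 c8710 k0)))))) (by decide +kernel)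
def c15379 : PP 9 3 T 0x41004000000000000000000000000000000000000000000000000001000015000000000081200000455004401000000000840000000000000000000000000 := rS 0x58b2a07b1 (k4 c5396 c2087 c15371 c14602 (k1 c1324 k0)) (by decide +kernel)
def c15380 : PP 9 3 T 0x40004000000000000000200000000000000000000000000000000000000000000000000140200000050000000100000000150000000020000000000002020 := rS 0x7bdae8a589c76c27659ccde89efaccd48f (k8 c5568 c316 c2377 c5494 c5567 c5565 c9718 c1325 (k8 c350 c5715 c5571 c5421 c3602 c2189 c5583 c5689 k0)) (by decide +kernel)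
def c15381 : PP 9 3 T 0x18000200080000000000000000000000000200000000000000000000000200000004000000000000000150200001400400000000010420 := rS 0xb16540da5f3f0405fecdf6a6d331559a09e42035030809f6af8d5aaf46c741e81099bcfa89478e47e071e9dcae093c9ff629d (k8 c1275 c5396 c5358 c5441 c5438 c5313 c785 c5436 (k8 c5432 c5318 c5317 c5568 c5567 c5566 c5565 c5564 (k8 c5380 c9737 c12631 c12629 c5406 c5490 c12823 c15288 (k8 c15291 c12613 c15376 c316 c315 c422 c423 c2377 (k8 c1139 c2373 c2490 c5540 c2500 c2396 c1977 c5679 (k4 c11668 c15380 c2087 c15373 (k2 c14602 c1324 k0))))))) (by decide +kernel)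
def c15382 : PP 9 3 T 0x10000201000000000000000000000004000200000000000000000000000000000004000000000000000010000000000000000000000000 := rS 0x1ec1a6cf9c5166b5dbc05ff035889c487045108208568a75906933ab55efd54804525c2c87764872d9bcae39038dc764905bd48f4ace83c0809639e4eb92 (k8 c15374 c5440 c5441 c5357 c5438 c15250 c9737 c15316 (k8 c6008 c5520 c5519 c5516 c5334 c5332 c5435 c5432 (k8 c5317 c5313 c5565 c11445 c11253 c5210 c5486 c313 (k8 c11323 c9692 c53 c5489 c5405 c5406 c5490 c9680 (k8 c9742 c15378 c1275 c2133 c5827 c15381 c826 c825 (k8 c719 c720 c2859 c1932 c1935 c2780 c3069 c5571 (k8 c13705 c2760 c3623 c5590 c3049 c5715 c743 c3568 k0))))))) (by decide +kernel)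
def c15383 : PP 9 3 T 0x10000201000000000000000000000004000200000000000000000000000000000000000000000000000010000000000000000000000000 := rS 0xc8680413684069b107ed551d4fec704e488e0b248ee959d1e8dc6217038e4af112e1643bb24396c080f (k8 c9737 c15250 c11445 c11253 c5210 c5486 c313 c11323 (k8 c9728 c5313 c5317 c5432 c5433 c5434 c5435 c5436 (k8 c15316 c6008 c5332 c5334 c5516 c5520 c15374 c5438 (k8 c5357 c5358 c5440 c15382 c5500 c1974 c9859 c423 (k4 c5672 c2492 c15376 c5827 (k2 c15377 c2134 k0)))))) (by decide +kernel)
def c15384 : PP 9 3 T 0x4000000000000000000220000000000000000000080004000000100000014004000000000000000000000000005000000000000000000000000000014400 := rS 0x848a2292ab2477a926261347a441a83 (k8 c5525 c5522 c5374 c5568 c5564 c5382 c5334 c5519 (k4 c5520 c12110 c12614 c460 (k2 c15061 c5658 (k1 c2774 k0)))) (by decide +kernel)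
def c15385 : PP 9 3 T 0x100000000000a000000000000000000000000000000000000002000000000000400150000000100000000000000000000000000000000000000000000 := rS 0xd765b7fe6ad57a5d2aa1 (k8 c5398 c5488 c5404 c5406 c5490 c5590 c2950 c1293 (k2 c10298 c5982 k0)) (by decide +kernel)
def c15386 : PP 9 3 T 0x50000220000000000000000000040000000000000000000000000000000000000000000000000000000000000001400000000000010400 := rS 0x1f3ac9281f1309a3d220d (k8 c5522 c5374 c5568 c5564 c5382 c9737 c12614 c12876 (k2 c5546 c5231 k0)) (by decide +kernel)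
def c15387 : PP 9 3 T 0x100000000000a000000000000000000000000000000000000002000000000000400150000000004000000000000000000000000000000000000000000 := rS 0xb1 (k2 c1294 c15385 k0) (by decide +kernel)
def c15388 : PP 9 3 T 0x50000220000000000000000000040004000000100000014000000000000000000000000000105000000000000001000000000200010400 := rS 0x45c0c97592303fdf1347a250691 (k8 c5374 c5525 c5567 c5568 c5382 c8783 c9737 c15386 (k4 c5562 c191 c4634 c15255 (k1 c3613 k0))) (by decide +kernel)
def c15389 : PP 9 3 T 0x200080000000001a000220000000000000000000000004000100000000000000000000000000000004000000004000000050200000000400000400010000 := rS 0x162e38a12c90201c52c6e1ff782fc29cdb9b1fe8579c05a2694bbf52aa946c741f1344a3d9ed564b35a69b4ca44d683 (k8 c5525 c5523 c5374 c5447 c5397 c5496 c5495 c5494 (k8 c5454 c5453 c5568 c5567 c5382 c9737 c12631 c12629 (k8 c5489 c5488 c5405 c5404 c9742 c5501 c5502 c5540 (k8 c5541 c5544 c14747 c15095 c3617 c8772 c823 c8783 (k8 c2315 c1480 c15384 c5654 c5650 c15388 c192 c345 (k2 c2617 c1294 (k1 c15385 k0))))))) (by decide +kernel)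
def c15390 : PP 9 3 T 0x8000000000000000000000000000000000100000000000040000000005000000004000500000000000000208000000010000000000820 := rS 0x1a29d7a0d83c955480d263b (k8 c10737 c9756 c54 c5489 c5488 c718 c771 c824 (k2 c1083 c1482 (k1 c10207 k0))) (by decide +kernel)
def c15391 : PP 9 3 T 0x100000000000100000000000000000800000000000000002000000000000000000000014000000000000000 := rS 0x7be3 (k2 c5466 c4162 (k1 c5655 k0)) (by decide +kernel)
def c15392 : PP 9 3 T 0x100000000001a000220000000000000000000000000000100000000000000000000155100000004000000000000000000000000010500000000010420 := rS 0x3c63d6509569b76bc55c63f6facfe64aac91c934a1ba715aaf4bbf52aa91488c1f1309a3d3ea14da65220d (k8 c5522 c5374 c5447 c5397 c5398 c5448 c5568 c5564 (k8 c5382 c9737 c9734 c9692 c5489 c5488 c5405 c5404 (k8 c5406 c5490 c3617 c1480 c5654 c5334 c5520 c12110 (k8 c12614 c5546 c2455 c2510 c407 c15391 c15387 c10298 (k4 c10481 c5685 c13705 c1342 (k2 c12427 c5464 (k1 c5655 k0))))))) (by decide +kernel)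
def c15393 : PP 9 3 T 0x41000000000000000000000000000000000000100000004000100100000004000000000120000000000000001080000000000000000014000000000010000 := rS 0xf13587b022240487ef (k8 c5583 c2774 c3068 c5658 c5694 c2970 c2201 c5655 (k1 c5465 k0)) (by decide +kernel)
def c15394 : PP 9 3 T 0x200000000000000000000000000000000002000000000000000000000000054000001140000040150000000000000000000000000 := rS 0x589c4de89 (k4 c5567 c5565 c3048 c1294 (k1 c3602 k0)) (by decide +kernel)
def c15395 : PP 9 3 T 0x2000000000000000000000100000000000100000000000000000000140000000150000050150000044150000000014000010000010000 := rS 0xd765f887a25db9c13ea1 (k8 c5398 c5448 c3602 c5571 c2754 c12427 c5655 c5464 (k2 c5465 c5982 k0)) (by decide +kernel)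
def c15396 : PP 9 3 T 0x100100000000001a000220000000000000000000000004000100100000000040000000145100000004000000104000000050000000010500000000010420 := rS 0x1b50ab4816dd6115458fd66fff992ab24724d286ed034ab55e977ea55522939c441f13099bd128f48834d683 (k8 c5525 c5523 c5522 c5374 c5568 c5567 c5565 c5564 (k8 c5382 c9737 c9728 c9718 c9692 c5489 c5488 c5405 (k8 c5404 c5406 c5490 c9742 c15392 c1482 c5654 c5334 (k8 c5520 c12110 c12614 c5546 c2569 c2455 c407 c15393 (k8 c15394 c15395 c5421 c14602 c5685 c2629 c2610 c3601 k0))))) (by decide +kernel)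
def c15397 : PP 9 3 T 0x100000000000a000000000000000000000000040000000100002000000000000000150000000004000000000000000000000000000200000000000000 := rS 0x2b04af1b8963f3 (k4 c5590 c1294 c15385 c5466 (k2 c2617 c5168 (k1 c5342 k0))) (by decide +kernel)
def c15398 : PP 9 3 T 0x40000000000000010000220000000000000000000040000000000000000000000000000000000000000000000000000000000000005000000000200010400 := rS 0x159db9181f1309a3d220d (k8 c5522 c5374 c5568 c5564 c5382 c9737 c12614 c12651 (k2 c5562 c5231 k0)) (by decide +kernel)
def c15399 : PP 9 3 T 0x40001800000000018000220000000000000000000040000000100000000000000000000000000000000000000000000000000000001000000000200010400 := rS 0xf16dab24a (k4 c15398 c5342 c5231 c5168 (k1 c6601 k0)) (by decide +kernel)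
def c15400 : PP 9 3 T 0x100180000000001a000220000000000000000000040004000100000000000040000000010000000004000000100000040050000000010200010400010400 := rS 0x58a2c7e42ac91897f224c55e42034ab55e974a83e261337a251ed569a441a370fa6deacd (k8 c5495 c2474 c5397 c2472 c85 c5522 c5374 c5496 (k8 c5454 c5568 c5567 c5565 c5564 c5382 c9737 c5488 (k8 c5404 c5406 c5490 c9742 c5650 c5657 c15397 c345 (k8 c15399 c5546 c12614 c5562 c2537 c2914 c2774 c1932 (k1 c15395 k0))))) (by decide +kernel)
def c15401 : PP 9 3 T 0x100000000000a000000000000000000000100000000000000002000000000000000150000000004002000000000000000000001000200010000000000 := rS 0xdb895943e13b8962a1 (k8 c5398 c1294 c15385 c3046 c2618 c1777 c2909 c5420 (k1 c5651 k0)) (by decide +kernel)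
def c15402 : PP 9 3 T 0x100180000000001a000220000000000000000000000004000100000000000040000000010000000004000000100000040050000000010200010400010400 := rS 0xf18f594255a6ddae3f71c55beb3f992ab24724d2938ad57a5dfa955483e261347b3daac966b4d3ea14da65220d (k8 c5522 c5374 c5447 c5397 c5398 c5448 c5496 c5495 (k8 c5494 c5454 c5453 c5568 c5564 c5382 c9737 c5489 (k8 c5488 c5405 c5404 c5406 c5490 c3617 c15400 c5334 (k8 c5520 c12110 c12614 c5546 c2455 c2511 c15401 c1778 (k8 c408 c10298 c10481 c5685 c13705 c1342 c12427 c5464 (k1 c5655 k0)))))) (by decide +kernel)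
def c15403 : PP 9 3 T 0x1800000000018000220000000000000000000040000000100002000000008000000000000000004000000100000040150000000000000000200010400 := rS 0x404908af9ab55e91 (k8 c5374 c5406 c5490 c5590 c15394 c15399 c3068 c451 k0) (by decide +kernel)
def c15404 : PP 9 3 T 0x1001800000000018000220000000000000000000040004000100000000000050000000000000000004000000100000040050000000000000010440010400 := rS 0x116b1211c48c4bf91262af2101a55aaf07c4c266f44a3d220d (k8 c5522 c5374 c5568 c5567 c5565 c5564 c5382 c9737 (k8 c5406 c5490 c9742 c5650 c5657 c15403 c345 c15399 (k4 c5546 c12614 c12657 c2537 (k2 c1932 c2774 (k1 c3602 k0))))) (by decide +kernel)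
def c15405 : PP 9 3 T 0x1000000000000000000000000000000000000100000004000100100000000000000000120000000000000001080000000000000008010000000000010000 := rS 0xe31f407e6ff (k4 c2569 c5546 c3068 c15393 (k2 c1780 c408 k0)) (by decide +kernel)
def c15406 : PP 9 3 T 0x100000000000a000000000000000000000100000004000000101000000000000000060000000404000000000000000000000009008000000000000000 := rS 0x7bc8a9d81b8886e1 (k8 c3056 c2911 c408 c2202 c1778 c461 c14381 c5658 k0) (by decide +kernel)
def c15407 : PP 9 3 T 0x100180000000001a000220000000000000000000000004000100100000000040000000000000000004000000104000000050000000010400000000010420 := rS 0x36a156902dbac07f1545acdfff3255648e49a5341ea1f1c1a55aaf4bbf52aa9149ce222307c4c266f44a3d9ed564b35a69b48834d683 (k8 c5525 c5523 c5522 c5374 c5397 c5496 c5495 c5494 (k8 c5454 c5453 c5568 c5567 c5565 c5564 c5382 c9737 (k8 c9734 c9728 c9718 c9692 c5489 c5488 c5405 c5404 (k8 c5406 c5490 c9742 c15396 c2472 c2474 c15402 c15404 (k8 c5334 c5520 c12110 c12614 c5546 c2569 c2455 c15405 (k8 c15394 c15406 c15395 c5421 c14602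 c5685 c2629 c2610 (k1 c3601 k0))))))) (by decide +kernel)
def c15408 : PP 9 3 T 0x80000000001a000220000000000000000000000004000100000000000000000000000000000004000000004000000050208000000000000000010020 := rS 0x68f8017ed4bbf52aa911a363af71ab3d92cd208ed3699 (k8 c5447 c5397 c10737 c12628 c5495 c5494 c5453 c5450 (k8 c10793 c12631 c12629 c9734 c5489 c5488 c5405 c5404 (k4 c15389 c15390 c15407 c5459 (k1 c8772 k0)))) (by decide +kernel)
def c15409 : PP 9 3 T 0x40000000000000008000200000000000000000100000000000000102000004000000000000000000008000001000000000010000001000000010000000000 := rS 0x25dbac04e71 (k4 c3048 c3046 c13919 c5421 (k2 c1093 c5651 k0)) (by decide +kernel)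
def c15410 : PP 9 3 T 0x40000000000000018000200000000000000000000000000000000001000004000000000000000000508000001000000000010000000000000000000000000 := rS 0x6d8e0b5 (k4 c1344 c13919 c5685 c5571 k0) (by decide +kernel)
def c15411 : PP 9 3 T 0x18000220000000000000000000080004000000100000000000000000000000000008000000000000000010000000000000010000010400 := rS 0x10fdeb022c0e2ab37ffcc9559239241f1309a3d220d (k8 c5522 c5374 c5568 c5564 c5382 c9737 c5334 c5520 (k8 c12110 c12614 c5546 c2569 c2455 c15409 c2200 c461 (k4 c15410 c5506 c1932 c5658 k0))) (by decide +kernel)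
def c15412 : PP 9 3 T 0x1800000000018000220000000000000000000040000000100002000000008000000000000000008000000000000000010000000000000000200010400 := rS 0x10058120e2ff5afcd5e91 (k8 c5374 c5406 c5590 c204 c3010 c3048 c15399 c13919 (k2 c451 c2144 k0)) (by decide +kernel)
def c15413 : PP 9 3 T 0x1800000000018000220000000000000000000040000000100000000000008000000000000000008000000100000040150000000000000010200010400 := rS 0x22d62423891897f224c555aaf07c4c266f44a3d220d (k8 c5522 c5374 c5568 c5567 c5565 c5564 c5382 c9737 (k8 c5406 c5490 c15412 c345 c15399 c5546 c12614 c12657 (k4 c2537 c1932 c2774 c3602 k0))) (by decide +kernel)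
def c15414 : PP 9 3 T 0x18000220000000000000000000040000000000002000000008000000000000000008000000000000000010000000000000000400010400 := rS 0x12203b7581c48eff5afcd5e91 (k8 c5374 c5406 c5590 c204 c3010 c2787 c3048 c13919 (k4 c5421 c2144 c15386 c451 k0)) (by decide +kernel)
def c15415 : PP 9 3 T 0x40000000000000018000220000000000000000000040000000000101000000000000000000000000008000000000000000010000000000000010200010400 := rS 0x586d966ffac9292249 (k8 c345 c5374 c15398 c5342 c2569 c2455 c5231 c15410 (k1 c5421 k0)) (by decide +kernel)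
def c15416 : PP 9 3 T 0x80000000001a000220000000000000000000000004000100000000000000000000000000000000000000004000000050208000000000000000010020 := rS 0x3fac8f48c7e25fc89315f1b7d8fe07908296370587debed551a4527311a363af740c4c267d47904f60f4ca441a79 (k8 c5524 c5522 c5374 c5447 c9737 c886 c12628 c5568 (k8 c5566 c5564 c5382 c5380 c10793 c12631 c12629 c9734 (k8 c9718 c9692 c9742 c15408 c5500 c1924 c1085 c824 (k8 c8484 c15411 c5650 c5657 c15413 c5535 c5538 c12577 (k8 c15414 c345 c15415 c5546 c14109 c12614 c2764 c5562 (k2 c2914 c5655 k0)))))) (by decide +kernel)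
def c15417 : PP 9 3 T 0x800000000008000000000000000000000000000000000000000000000000000000000000000000014000000000000000200000010000000000020020 := rS 0x32daeb1121095aaf4ba5452d5 (k8 c5454 c9692 c5488 c5404 c5406 c5490 c826 c720 (k4 c1932 c1934 c1091 c8161 k0)) (by decide +kernel)
def c15418 : PP 9 3 T 0x210000000000000000000000004000100102000000000000000120000000054000000100000000050040000010000000000014020 := rS 0x8aac92923ed349ce2613479241647a5034d66f (k8 c5565 c1139 c316 c6008 c5520 c5516 c5334 c5568 (k8 c5564 c5382 c9718 c9742 c5501 c9793 c12647 c12876 (k2 c15394 c15405 k0))) (by decide +kernel)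
def c15419 : PP 9 3 T 0x18000210040000000000000000000004000100102000000000000000144100000004000000100000000050040000000000000000010020 := rS 0x319c5e1689e4d86b56abd2efd4aaa6231337904f65607a6d33b0 (k8 c5209 c5447 c5397 c9737 c10195 c886 c12628 c5565 (k8 c5382 c9728 c5489 c5488 c5405 c5404 c5406 c5490 (k8 c1139 c5665 c2428 c15418 c8772 c15387 c5669 c2619 k0))) (by decide +kernel)
def c15420 : PP 9 3 T 0x2000800000000018000010040000000000000000000000000100001400000000000000000000000004000001400000000000200000000000000000040020 := rS 0x122cfe627ac9296a0d366dde6d14bbf552298881d9ec966845429fd8104ac490591e940f (k8 c9737 c6008 c5520 c5516 c5334 c10195 c12628 c5209 (k8 c5448 c5398 c15417 c5495 c5494 c5453 c8467 c9728 (k8 c9692 c5489 c5405 c5404 c5501 c5540 c15095 c9860 (k8 c422 c2610 c12647 c12876 c354 c5546 c2455 c5651 (k1 c5803 k0))))) (by decide +kernel)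
def c15421 : PP 9 3 T 0x8000010040000000000000000000000000100000100000000000000005100000004000000000004000000200000000000000000002044 := rS 0x1a08236a5dfaa9 (k4 c5489 c5405 c5404 c2427 (k2 c423 c9860 (k1 c1976 k0))) (by decide +kernel)
def c15422 : PP 9 3 T 0x40001800000000018000010040000000000000000000000000100001500000000000040010000000404000000000000000000000000000000000000000040 := rS 0x65b5f6ce35aa70d8ad57a5dfa9554b3d92cd50a6d33b0 (k8 c5209 c5447 c5397 c5398 c5495 c5494 c5453 c5489 (k8 c5488 c5405 c5404 c5406 c5490 c9860 c3617 c2610 (k4 c1778 c5685 c10298 c5420 (k1 c9031 k0)))) (by decide +kernel)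
def c15423 : PP 9 3 T 0x1000000000010000201040000000000000000000004000000000000000000000000000000000004000001000000000010000000000000000000000000 := rS 0x40d60841fa2d06d06facdfff3ac92bda6956abd2e95149ce261337a251e490591e951569b563a8d06e7422a14f90760872d99cf65607b3592cfef01e525c8880c09b2 (k8 c5210 c15250 c54 c9728 c11323 c15383 c8467 c5214 (k8 c5453 c5494 c5495 c9737 c10195 c886 c9680 c11445 (k8 c11253 c5209 c12628 c5448 c5398 c15417 c15416 c15421 (k8 c12629 c12631 c5454 c5496 c15419 c6008 c5520 c5516 (k8 c5334 c5568 c5567 c5565 c5564 c5382 c9718 c9692 (k8 c5488 c5404 c5406 c5490 c9742 c15420 c12647 c12876 (k8 c5546 c2569 c2455 c2511 c15422 c1976 c15405 c15406 (k4 c5672 c15395 c2629 c14602 k0)))))))) (by decide +kernel)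
def c15424 : PP 9 3 T 0x8000010040000000000000000000000000100001100000000000000005100000004000002000000000000040000000000000000000040 := rS 0x6d68a5dfaa9 (k4 c5489 c5405 c5404 c9793 (k2 c747 c9860 k0)) (by decide +kernel)
def c15425 : PP 9 3 T 0x10000201040000000000000000000004000000000000000000000000000000000004000000000000000010000000000000000000000000 := rS 0x1a3e048c552efd4aaa6228d8e81d9ed564b35a69b4ce7422a14f9076056ef4a50e5b2e010cfb2 (k8 c5210 c9680 c15250 c11323 c11445 c11253 c15383 c5214 (k8 c10195 c5209 c12628 c5448 c5398 c15417 c15416 c5447 (k8 c5397 c5496 c5495 c5494 c5454 c5453 c8467 c12631 (k8 c12629 c9728 c5489 c5488 c5405 c5404 c15419 c15424 (k2 c15423 c5459 (k1 c8772 k0)))))) (by decide +kernel)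
def c15426 : PP 9 3 T 0x8000200000000000000000000000000000000102000000000000000000000000008000001000000000010000001400000010000005400 := rS 0x566261347fcdfeaf (k8 c5406 c3010 c5590 c5568 c5564 c5382 c12876 c15409 k0) (by decide +kernel)
def c15427 : PP 9 3 T 0x80000000000a000210040000000000000000000000000000102100000000000000000000000008000000006004000010040001400000010000005400 := rS 0x78138c76535dc50068a415aaf4bfb4d679362660713 (k8 c5382 c2629 c5447 c9859 c2428 c1137 c5500 c5404 (k8 c5406 c5490 c15426 c9793 c850 c15364 c2145 c9303 (k4 c2619 c1292 c5669 c5458 k0))) (by decide +kernel)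
def c15428 : PP 9 3 T 0x10000201040000000000000000000004000000000000000000000000000000000000000000000000000010000000000000000000000000 := rS 0x36cb059bffe64a48c556a84069b107ed5511c1649a567422a14f9ec83b02b77b646714c450e5b8e970080f8984d1f29 (k8 c15383 c5568 c5564 c5382 c9737 c15250 c11323 c12631 (k8 c11445 c11253 c9728 c9692 c9680 c5210 c5214 c10195 (k8 c5209 c12628 c886 c5448 c5398 c15417 c15416 c6008 (k8 c5334 c5516 c5520 c15425 c5500 c1974 c9859 c423 (k8 c5672 c2610 c15427 c747 c12647 c5546 c2569 c2455 (k2 c15410 c5685 (k1 c5421 k0))))))) (by decide +kernel)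
def c15429 : PP 9 3 T 0xa000200080000000000000000000000000000002000000000000000000000000004000001100000040150000000000000000000000000 := rS 0xd3f7a28e2ad579fd3e61 (k8 c5445 c5448 c5358 c5406 c5490 c3048 c15394 c5583 (k2 c2938 c12177 k0)) (by decide +kernel)
def c15430 : PP 9 3 T 0x1400000000000000000000000000000000000000004000100000000000000000000000000000000000000000000000000200000000000000000000800 := rS 0x7b1094b (k4 c5516 c823 c5165 c5541 k0) (by decide +kernel)
def c15431 : PP 9 3 T 0x52000220080000000000000000000000000000001000000000000000000000000000000000000000000000000002000000000400000000 := rS 0xf88697f3 (k4 c5588 c5334 c345 c12431 (k1 c5650 k0)) (by decide +kernel)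
def c15432 : PP 9 3 T 0x1400000000050000220000000000000000000040004000100100100001040000000000000000001000000104000000050000001000000000400010400 := rS 0x40ff42c043fec (k4 c5165 c15314 c5502 c5541 (k2 c5544 c5650 (k1 c15388 k0))) (by decide +kernel)
def c15433 : PP 9 3 T 0x1a000220080000000000000000000004000100000000000000000000000000000004000000004000400050200000000000000000010020 := rS 0x1eff1a16023f7ffcd984a1c5648e371dd28920b8a8d063e1ef81d89b7309a52efd4aaa4e7111198d1b1d7b83e26133ea251e5f04b1cf27f3a8ccae7b48834d683 (k8 c5525 c5523 c5522 c5374 c5372 c5353 c383 c5440 (k8 c5358 c5441 c5357 c5438 c5439 c5568 c5567 c5566 (k8 c5564 c5382 c9737 c10793 c12631 c12629 c9754 c9734 (k8 c9728 c9718 c5489 c5488 c5405 c5404 c9742 c5445 (k8 c8833 c10013 c713 c14615 c11870 c1469 c5653 c15429 (k8 c15430 c15431 c15432 c5332 c5518 c5520 c12110 c3568 (k8 c12614 c440 c5546 c2569 c3731 c11156 c2502 c12438 (k2 c8783 c5166 k0)))))))) (by decide +kernel)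
def c15434 : PP 9 3 T 0x2000000000000000000000000000000000000000000000000000000000000080000000 := rS 0x9024 (k2 c1086 c1087 (k1 c10629 k0)) (by decide +kernel)
def c15435 : PP 9 3 T 0x400000000011000020080000000000000000000004000100002400000000000000040000000000000010400000000000000002000000000010050020 := rS 0x683e0ba813ecbf1b876e9df00984a4ba58641e910691c461f (k8 c15434 c9734 c2787 c5522 c5374 c9737 c9698 c5334 (k8 c192 c10629 c13085 c5225 c9066 c12645 c5460 c11976 (k4 c1292 c3050 c5680 c1068 (k2 c2927 c11149 (k1 c442 k0))))) (by decide +kernel)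
def c15436 : PP 9 3 T 0x4000400000000011000220080000000000000000000004000100102000000000000000040000000040000010000000000000000000040000000010010020 := rS 0x4fa6136e0db7853aa171897c444ac89c922907a0626133ea3d8e7b06acc8e2338a44161f (k8 c15434 c718 c5374 c3048 c9734 c2787 c171 c5522 (k8 c5372 c5357 c5568 c5566 c5564 c5382 c5380 c9737 (k8 c9692 c15435 c3046 c12876 c5658 c5166 c2968 c5466 (k8 c5578 c12445 c11976 c5651 c14235 c1191 c5679 c5572 (k1 c1597 k0))))) (by decide +kernel)
def c15437 : PP 9 3 T 0x11000020080000000000000000000000000100000000000000000000000000000000000008000000000000000002000040000000000440 := rS 0x3af00e6960f6395cf60d (k8 c5522 c5372 c5353 c5357 c9737 c5334 c3678 c5225 (k2 c10699 c5456 k0)) (by decide +kernel)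
def c15438 : PP 9 3 T 0x11000220080000000000000000000004000100002000000000000000000000000054000050000000000050200000000000000010010020 := rS 0xdb1044a44255644e491ba482e07300d58bde0587da643f7a288e6914864e62346c741f13099f51e093f95d220d (k8 c5522 c5374 c5353 c5358 c5438 c5568 c5566 c5564 (k8 c5382 c9737 c12631 c12629 c9734 c9718 c9698 c9692 (k8 c9742 c2787 c15394 c5583 c2774 c2938 c15434 c718 (k8 c15436 c5451 c5450 c14615 c821 c1459 c5648 c1568 (k8 c15437 c3046 c12876 c12614 c5658 c2968 c458 c5651 (k1 c12644 k0)))))) (by decide +kernel)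
def c15439 : PP 9 3 T 0x11000020000000000000000000000004000100001100001000000000000000000005000000004000000050200002000000000400000000 := rS 0x427b0141ef008696f7 (k8 c10793 c5334 c345 c5225 c5650 c15314 c10680 c823 (k1 c5541 k0)) (by decide +kernel)
def c15440 : PP 9 3 T 0x400000000000000220080000000000000000000004000100001000001000000000000000000055000000000000000000200001000000000000000820 := rS 0x2c5feb3717cdbee181fb602b5f0211e81e36206267d479e4f691 (k8 c5374 c5372 c5441 c5568 c5566 c5382 c5380 c717 (k8 c718 c824 c823 c15430 c2610 c1928 c5541 c2629 (k8 c5460 c5538 c11668 c5846 c4598 c4602 c14602 c3623 k0))) (by decide +kernel)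
def c15441 : PP 9 3 T 0x2000000000000000000220000000000000000000080004000000100000004000000000000000000000000000104000000000000000000000000000014400 := rS 0x1ee42bce031344a3d2283 (k8 c5525 c5374 c5568 c5567 c5382 c5502 c5540 c5541 (k2 c15384 c8783 k0)) (by decide +kernel)
def c15442 : PP 9 3 T 0x1400000000051000220080000000000000000000004000100001100001000000000000000000005000010004000000050000008000000010011000000 := rS 0x68380bb34409a42099326d12a75c6b4f11a626c73da44d683acd2be6b3 (k8 c2455 c5546 c5225 c12110 c5525 c5523 c5374 c5372 (k8 c5357 c5382 c9742 c5226 c5685 c5466 c12447 c13705 (k8 c2610 c2612 c5651 c3601 c5679 c353 c2502 c10952 (k2 c2490 c11149 (k1 c440 k0))))) (by decide +kernel)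
def c15443 : PP 9 3 T 0x1400000000019000220080000000000000000000004000100101100000000000000000000000004000000104000040050000001000000010001010400 := rS 0x2653acc8178a03ef4da28d8b5589c76ded59bfc955923d28d2ad57bf43a955483e261337a251ec73da441a6b (k8 c5523 c5522 c5374 c5372 c5357 c5568 c5567 c5565 (k8 c5564 c5382 c9737 c5489 c5488 c5486 c5405 c5406 (k8 c5490 c9742 c5225 c5520 c12110 c12614 c2569 c2455 (k8 c15441 c15442 c5571 c5421 c5422 c3604 c3602 c2492 (k8 c5583 c3068 c5166 c3623 c7311 c12445 c2440 c5679 k0))))) (by decide +kernel)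
def c15444 : PP 9 3 T 0x40004400000000010000220000000000000000000040004000100000100001040000800000000000051000000104000040050000001000000000400010400 := rS 0x8b589c7ddb6ac91c94200f9a4de89 (k8 c5567 c5565 c9742 c15314 c5650 c15398 c4633 c5342 (k4 c15386 c5166 c5571 c5421 (k2 c5583 c3602 k0))) (by decide +kernel)
def c15445 : PP 9 3 T 0x400000000019000220080000000000000000000004000100000000000000000000000000000004000000004000000050200000000000000000010020 := rS 0xfc824a1e81ab2471bd29c5e3f9b7c72e11df8016290c9cd1b1d7b83d0313099f51ec73c95cf691069262a950ea5d5ead11c4552fd (k8 c5405 c5489 c9728 c9734 c5490 c5406 c5404 c5486 (k8 c5488 c15438 c15439 c5522 c5374 c5372 c5353 c5441 (k8 c5357 c5568 c5566 c5564 c5382 c5380 c9737 c10793 (k8 c12631 c12629 c9718 c9698 c9692 c15440 c15443 c5456 (k8 c5460 c5534 c5538 c11668 c11976 c5846 c15444 c5518 (k8 c5520 c12110 c10699 c1493 c12614 c1734 c407 c5655 k0)))))) (by decide +kernel)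
def c15446 : PP 9 3 T 0x4000000000000001000220080000000000000000000000000000000000000000000000000000000000000000000000000000200001000000000000400820 := rS 0x389fdf36fb8607ed80f8108f440c4cfa8f639e4f691 (k8 c5374 c5372 c5441 c5357 c5568 c5566 c5382 c5380 (k8 c824 c823 c10403 c1928 c5541 c2629 c5460 c5538 (k4 c11668 c5694 c5846 c4602 k0))) (by decide +kernel)
def c15447 : PP 9 3 T 0x4001000000000011000220080000000000000000000004000100100100001000000000044010000005000008104000000050000001000000000000010440 := rS 0x35e0103427b4dae37ffcd3420250e08e3b1bd28d20f8984d1e09639e4ae7b48834d683 (k8 c5525 c5523 c5522 c5374 c5372 c5353 c5441 c5357 (k8 c5438 c5568 c5564 c5382 c9737 c9742 c5225 c6642 (k8 c5332 c5520 c3568 c12614 c324 c325 c5546 c2569 (k8 c4740 c2492 c15441 c3601 c2629 c5694 c2146 c11742 k0)))) (by decide +kernel)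
def c15448 : PP 9 3 T 0x18000220080000000000000000000004000100000000000000000000000000000004000000004000400050200000000000000000010020 := rS 0x79d2debed1b210723bf002c62920b81fde6069b3d8bde24c57626956abd2efd0ea5552198888d1b1d7b83d027d449e4fe573a9ec1a6b (k8 c5523 c5522 c5372 c5440 c5353 c5358 c5441 c5567 (k8 c5566 c5380 c9737 c10793 c12631 c12629 c9734 c9728 (k8 c9698 c5489 c5488 c5486 c5405 c5404 c5406 c5490 (k8 c9742 c15433 c15438 c15439 c15445 c5451 c5453 c5496 (k8 c14615 c8993 c821 c1459 c5648 c1565 c15446 c15447 (k8 c5456 c5534 c10651 c11223 c5541 c2335 c5518 c2535 (k1 c5657 k0))))))) (by decide +kernel)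
def c15449 : PP 9 3 T 0x4000000000000052000220080000000000000100000004000100000100000000000400000000000000000050000000000050000000000000000000000000 := rS 0x1f3f177cc269479ed226b (k8 c5523 c5374 c5372 c5568 c9742 c5445 c14615 c5166 (k2 c8118 c12438 k0)) (by decide +kernel)
def c15450 : PP 9 3 T 0x10000220080000000000000000000004000100000000000000000000000000000000000050000000000050200000000000000000020020 := rS 0x2cfe7e2d8b8d6b15dbfbc4870455662291 (k8 c5374 c9728 c5558 c825 c719 c720 c5583 c5571 (k8 c3048 c13705 c5731 c15449 c5226 c8118 c5926 c5685 k0)) (by decide +kernel)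
def c15451 : PP 9 3 T 0x18000220080000000000000000000004000100000000000000000000000000000000000000004000400050200000000000000000000020 := rS 0x3bde1f945440f2a582c3ef5f6aa822694ba54527311a363af7 (k8 c10793 c12631 c12629 c9734 c9718 c9692 c5488 c5404 (k8 c9742 c15450 c15448 c5500 c1924 c1085 c824 c15411 (k4 c5657 c5650 c15414 c15415 (k2 c11668 c5165 (k1 c15413 k0))))) (by decide +kernel)
def c15452 : PP 9 3 T 0x12000201000000000000000000000004000000000000000000000000000000000000000000000000000410000000000000000000000000 := rS 0x7b598f21a0c4707bef81d8899309a52e953197cea332b87c774a07a0d526c88e77247794a1cb65c33ec81a04 (k8 c15250 c316 c5210 c9680 c11323 c11445 c11253 c15383 (k8 c14727 c15428 c15451 c9728 c5665 c5489 c8722 c9737 (k8 c6008 c5332 c9664 c5353 c383 c5440 c5439 c9754 (k8 c5488 c5404 c9742 c5445 c5447 c10013 c713 c14615 (k8 c742 c11968 c1469 c5653 c439 c440 c5540 c12000 k0))))) (by decide +kernel)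
def c15453 : PP 9 3 T 0x211000000000000000000000004000000002000000000000000000000000004000001000400000010000000000000000000014000 := rS 0xf6a15e5022210fdf5945128d26756abf64734396d1b1d2e44c268f2482c8f4a069acde04 (k8 c15250 c5565 c1139 c316 c6008 c5520 c5516 c5334 (k8 c5568 c5564 c5382 c11323 c12631 c12629 c11445 c11253 (k8 c9718 c5210 c5406 c5490 c9680 c9742 c12647 c15394 (k8 c12876 c5583 c2774 c5658 c461 c460 c2629 c5540 (k1 c5672 k0))))) (by decide +kernel)
def c15454 : PP 9 3 T 0x8000000000008000200000000000000000200000000000000000000000000000000000000000100010000000040000000204000000000004000000120 := rS 0x27daa16180187ed765ab55e974a864fa3d (k8 c5560 c5566 c9698 c5488 c5404 c5406 c5490 c5464 (k8 c5465 c5576 c9764 c822 c714 c1475 c1466 c8160 k0)) (by decide +kernel)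
def c15455 : PP 9 3 T 0x10000201000000000000000000000004000000002000000000000000000000000004000000000000000010000000000000000000010000 := rS 0x27d96e14ef83c758508976e70486c4d883139ad63f3548a6226f049fcae49a5677247794a1cb65c33ec81e04 (k8 c15250 c9737 c5210 c9680 c11323 c11445 c11253 c15383 (k8 c14727 c15428 c15451 c6008 c5334 c5353 c5358 c5438 (k8 c5565 c9728 c9692 c5489 c5590 c1294 c1139 c3046 (k8 c8722 c5665 c15452 c15453 c746 c5571 c2754 c2929 (k8 c5651 c15454 c5198 c5458 c5460 c1292 c3050 c5680 k0))))) (by decide +kernel)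
def c15456 : PP 9 3 T 0x40000000000000050000010000000000000000000000000000000001400000000000000000000000400004005400150000000004000000020000000050160 := rS 0x420c258f87a415a09452490591e940f (k8 c9737 c6008 c5520 c5516 c5334 c9692 c5803 c5685 (k4 c13854 c12427 c12613 c3731 (k2 c12614 c2608 (k1 c315 k0)))) (by decide +kernel)
def c15457 : PP 9 3 T 0x58000010000000000000000000000000000000001400000000000000002100000404004005400150000000204000000020000000050160 := rS 0x1f8f5a64358105fe38413c8190125fc852490591e940f (k8 c9737 c6008 c5520 c5516 c5334 c9692 c15456 c5546 (k8 c5592 c12614 c422 c423 c2500 c2396 c546 c14396 (k4 c1932 c2085 c1624 c442 (k1 c12613 k0)))) (by decide +kernel)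
def c15458 : PP 9 3 T 0x12000201000000000000000000000004000000000000000000000000000000000004000000000000000010000000000000000000010000 := rS 0x72217138497e31f0f482b412b7fe6900bf85983468b3c629d59a17be07353136e9930a6d929f499a52efd4aaa452193988cc6818984cfa8f2f824f27f3a8ccae1f1d9246f4acee48ef294396cb867d903c0915 (k8 c15455 c15250 c9737 c5210 c9680 c11323 c11445 c11253 (k8 c15383 c14727 c15428 c15451 c6008 c5518 c5334 c5332 (k8 c9664 c5353 c383 c5440 c5358 c5441 c5438 c5439 (k8 c5568 c5566 c5564 c5382 c5380 c9754 c9734 c9718 (k8 c9698 c9692 c5489 c5488 c5405 c5404 c9742 c5444 (k8 c5448 c5396 c5397 c5445 c5447 c8833 c10013 c15452 (k8 c713 c14615 c2543 c2377 c1135 c1469 c11551 c1707 (k8 c5653 c3617 c8772 c1619 c15457 c5589 c2948 c5803 (k8 c5685 c13854 c12427 c12613 c5576 c3731 c3056 c5691 (k2 c2608 c2617 (k1 c3578 k0))))))))))) (by decide +kernel)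
def c15459 : PP 9 3 T 0x40000000000000050000010000000000000000000000000000000001400000000000000000000000000000001400000000000000000000000000000051020 := rS 0x844c6a12ad16759250a622490591e940f (k8 c9737 c6008 c5520 c5516 c5334 c9728 c9692 c12647 (k8 c12876 c2455 c5685 c5803 c8714 c5651 c2371 c353 k0)) (by decide +kernel)
def c15460 : PP 9 3 T 0x40001000000000051000010000000000000000000000000000100001400000000000000000000000000000001400150000000404000000000000000050120 := rS 0x3d03895241759a68d40c1f907c419 (k8 c9698 c5198 c5462 c5576 c15459 c316 c10916 c2377 (k4 c10952 c9848 c5803 c714 (k2 c1570 c12613 k0))) (by decide +kernel)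
def c15461 : PP 9 3 T 0x4001400000000000000011000000000000000000000004000100001400010000000000000000001504000001400000000000000000040000000000055020 := rS 0x19883f6b3da2f271b5e0444f13feb24a56abdfaa9d9474b8772482c8f4a (k8 c6008 c5520 c5516 c5334 c14727 c11323 c12631 c5210 (k8 c5489 c5405 c5406 c5490 c12647 c12876 c2569 c5166 (k8 c5658 c3623 c5465 c5466 c460 c2201 c2633 c5540 (k2 c2390 c5688 (k1 c12000 k0))))) (by decide +kernel)
def c15462 : PP 9 3 T 0x40001400000000010000201000000000000000000000004000000000000000000000000000000000004000001000000000010000000000000000000010000 := rS 0x251040edf810e124177ffb5348279080190121fbd14b558acce3b634ab55efd54864e68d07a062613379f5128f2f824fe57cee48ef294396cb80433eca2bb1 (k8 c15458 c15455 c5210 c9680 c15250 c11323 c11445 c11253 (k8 c15383 c14727 c15428 c15451 c5353 c5358 c5438 c5439 (k8 c5568 c5567 c5566 c5565 c5564 c5382 c5380 c9737 (k8 c12629 c9718 c9698 c5489 c5405 c5406 c5490 c9742 (k8 c15460 c5571 c5574 c5421 c5422 c3602 c5583 c2774 (k8 c3068 c15461 c315 c422 c423 c10916 c5540 c2396 (k8 c10952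 c9848 c2490 c9179 c15351 c714 c547 c2627 (k1 c12644 k0)))))))) (by decide +kernel)
def c15463 : PP 9 3 T 0x1400000000010000201000000000000000000000004000000000000000000000000000000000004000001000000000010000000000000000000010000 := rS 0x1f8f5a643208d00eb01c32c2eff59a6904203503202b525fc83a95148650313099f51e5f049fcae490591e959dc91de52872d970cfb2078122bb1 (k8 c15458 c15455 c15250 c9737 c5210 c9680 c11323 c11445 (k8 c11253 c15383 c14727 c15428 c15451 c6008 c5520 c5516 (k8 c5334 c5353 c5358 c5438 c5439 c5568 c5566 c5564 (k8 c5382 c5380 c9698 c9692 c5488 c5486 c15462 c5546 (k8 c5548 c5592 c12614 c316 c315 c423 c10916 c2377 (k8 c2396 c10952 c1326 c2490 c14396 c714 c11149 c546 (k4 c1932 c2086 c1624 c442 (k1 c12613 k0)))))))) (by decide +kernel)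
def c15464 : PP 9 3 T 0x4000000000000000010080000000000000000000000000100000400000000000000000000000000000001400104000000000000001100000000055020 := rS 0x208fc0d592515c7649058dc8f4a (k8 c6008 c5520 c5518 c5516 c5334 c5332 c5353 c12647 (k4 c12876 c11223 c407 c1734 (k1 c5655 k0))) (by decide +kernel)
def c15465 : PP 9 3 T 0x400000000010000201000000000000000000000004000000000000000000000000000000000004000001000000000010000000000000000000010000 := rS 0x1f0d00e41698c5aac84fc05fecff6a65668242bc8d40c1eb8bc7f36fb35363970b44f7e034ab55e977ea5552192c8751a818984cfa8947824f27f1995c6f4acee48ef294396cb867d903c0915 (k8 c15455 c15250 c9737 c5210 c9680 c11323 c11445 c11253 (k8 c15383 c14727 c15428 c15451 c6008 c5518 c5353 c383 (k8 c5358 c5441 c5438 c5568 c5567 c5566 c5564 c5382 (k8 c5380 c12629 c5486 c313 c9698 c5489 c5488 c5405 (k8 c5404 c5406 c5490 c9742 c15463 c5457 c5459 c5460 (k8 c5534 c5536 c5537 c5538 c11668 c10517 c5972 c1493 (k8 c15464 c316 c422 c2541 c423 c2377 c2373 c5540 (k8 c11551 c2396 c1977 c1607 c8772 c1662 c1915 c15379 (k4 c15380 c822 c5653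 c12613 (k1 c442 k0)))))))))) (by decide +kernel)
def c15466 : PP 9 3 T 0x4000000000000080000200000000000000000000000004000000100000000000000000000000000050000008100040040050004000000010000000010140 := rS 0x4420564863f1ea2962274f9c4d281099bcfa89 (k8 c5567 c5566 c5565 c5564 c5380 c9742 c5571 c5572 (k8 c5570 c5421 c3602 c1569 c326 c2774 c9764 c12613 (k2 c5658 c458 k0))) (by decide +kernel)
def c15467 : PP 9 3 T 0x4001000000000059000010000000000000000000000000000100001400000000000000000100000004000009400150000000604000000000000000050160 := rS 0x7a3f12a8482b01c3ffdab34d209e42035032030325fc95aaf7eaa63a490591e940f (k8 c9737 c6008 c5520 c5516 c5334 c12631 c5489 c5405 (k8 c5406 c5490 c15460 c5546 c5550 c5592 c12614 c316 (k8 c315 c422 c423 c10916 c2377 c5540 c2396 c2490 (k4 c9179 c546 c1197 c1093 (k2 c327 c1570 (k1 c12613 k0)))))) (by decide +kernel)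
def c15468 : PP 9 3 T 0x10000201000000000000000000000004000000000000000000000000000000000004000001000000000010000000000000000000010000 := rS 0xd4854c0e5a27bf06dd3a920b81fde6066b259e3562f78d2ad57a5d2aa90c9ce22590ea363a818984cfa894797c12793f95cea3b058de959dc91de52872d970cfb2078122bb1 (k8 c15458 c15455 c15250 c9737 c5210 c9680 c11323 c11445 (k8 c11253 c15383 c14727 c15428 c15451 c6008 c5518 c5516 (k8 c5332 c5440 c5353 c5358 c5441 c5438 c5439 c5568 (k8 c5567 c5566 c5564 c5382 c5380 c12631 c12629 c5486 (k8 c313 c9728 c9718 c9698 c5489 c5488 c5404 c5406 (k8 c5490 c9742 c15465 c5451 c5450 c5453 c5494 c5495 (k8 c14615 c8993 c821 c1459 c5648 c1694 c15466 c15467 (k4 c5457 c5459 c5534 c6325 (k2 c15362 c8645 (k1 c2373 k0)))))))))) (by decide +kernel)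
def c15469 : PP 9 3 T 0x40001000000000051000010000000000000000000000000000000001000000000000440000040000400001008000111004000004000000000000100050160 := rS 0xe1208f497e2128a43e3b058dc8f4a078e47ea1 (k8 c10309 c327 c324 c9737 c6008 c5520 c5518 c5516 (k8 c5332 c9664 c9692 c5803 c5198 c8929 c1570 c5462 (k2 c12655 c5258 k0))) (by decide +kernel)
def c15470 : PP 9 3 T 0x40001400000000011000210000000000000000000000004000100001000000000000040000040000450000000100041000850404000000000000000011120 := rS 0x2b3e3f78f4c08a58a7ce3b61fa85c67a1c884d2033998d0213379f5123b058de940f4906596070ba69329d (k8 c1135 c2373 c5679 c10952 c714 c1327 c9698 c9848 (k8 c9737 c6008 c5518 c5516 c5332 c5567 c5566 c5565 (k8 c5564 c5380 c9754 c9718 c54 c9742 c2371 c324 (k8 c3568 c1775 c10309 c327 c15469 c5571 c5572 c5421 (k4 c3602 c3599 c1569 c5583 (k2 c5279 c9764 (k1 c5166 k0))))))) (by decide +kernel)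
def c15471 : PP 9 3 T 0x40001400000000011000210000000000000000000000004000100001000000000000040000040000450000000100041000850404000000000000000010120 := rS 0x1b64f090783f20a8470e3100300e920ba683281099f5329d (k8 c1135 c2373 c5566 c5564 c5380 c9698 c5679 c10952 (k8 c9848 c714 c15470 c315 c4740 c2490 c10309 c547 (k4 c327 c12613 c1570 c1569 (k2 c5803 c5572 k0)))) (by decide +kernel)
def c15472 : PP 9 3 T 0x40000000000000051000010000000000000000000000000000100001000000000000000000000000400000408000150000000004000000000000200050140 := rS 0x1e2205647e4a508f56825 (k8 c5803 c5685 c1570 c1199 c2608 c327 c5342 c12613 (k2 c5226 c5462 k0)) (by decide +kernel)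
def c15473 : PP 9 3 T 0x40000400000000011000210080000000000000000000004000100001000001000000040004000000455000050000000000850200000000000000000010020 := rS 0x159f78fc7a8af1ac44e9f38ed8400c03a482e316433536393df80d21939a350213379f51209639fc66571d82e940f4c9e53a5f (k8 c5439 c1135 c5441 c2373 c9737 c6008 c5516 c5332 (k8 c5353 c383 c5358 c5357 c5438 c5567 c5566 c5565 (k8 c5564 c5380 c12629 c9718 c9698 c9742 c15471 c5457 (k8 c5534 c5536 c5537 c13449 c1915 c1065 c10198 c822 (k8 c11799 c315 c15472 c5571 c5572 c5570 c5421 c6706 (k4 c3602 c1569 c326 c5583 (k2 c9764 c5166 k0))))))) (by decide +kernel)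
def c15474 : PP 9 3 T 0x10000201000000000000000000000004000000000000000000000000000000000004000000000000000010000000000000000000010000 := rS 0x1f9047be212edd24074d787decd648d58bde67a753285351b5beb368fcd21b18aab55e977ea55521939c451b1d4084cfa892f824f27f2b9d73b923bca50e5b2e010cfb2 (k8 c5210 c9680 c15250 c11323 c11445 c11253 c15383 c14727 (k8 c15428 c15451 c5440 c5353 c5358 c5441 c5438 c5439 (k8 c5567 c5566 c5564 c5380 c12631 c12629 c9728 c9718 (k8 c9698 c5489 c5488 c5405 c5404 c5406 c5490 c15455 (k8 c15458 c15468 c5589 c9793 c2897 c2948 c747 c5665 (k8 c2543 c2373 c1135 c11551 c15473 c5451 c5450 c5494 (k8 c5495 c8993 c6325 c15342 c821 c9848 c15466 c5803 (k4 c5198 c1570 c5462 c5576 (k1 c12613 k0))))))))) (by decide +kernel)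
def c15475 : PP 9 3 T 0x19000200000000000000000000000000000000002000040000000000000000000008000000000040002010204001400000000000010520 := rS 0x9f65b853be0f1d614225db9c04e9058fcc531d078350711 (k8 c9728 c1974 c423 c9737 c12631 c9692 c5590 c1295 (k8 c15426 c3046 c746 c5571 c2754 c2929 c5651 c15454 (k4 c5198 c5458 c5460 c1292 (k2 c3050 c5680 k0)))) (by decide +kernel)
def c15476 : PP 9 3 T 0x10000201000000000000000000000004000000000000000000000000000000000000000000000000000010000000000000000000010000 := rS 0xb0db2cdfff3252462b03d8a101a6c35a0fdaaa14c463b1309a3c127f2b9241647a5677247794a1cb65c33ec81e04 (k8 c15250 c9737 c5210 c9680 c11323 c11445 c11253 c15383 (k8 c14727 c15428 c15451 c6008 c5520 c5516 c5334 c5353 (k8 c5358 c5438 c5568 c5564 c5382 c12631 c9728 c9692 (k8 c15474 c5500 c1974 c1137 c9859 c423 c5672 c15452 (k8 c2629 c15475 c747 c12647 c5546 c2569 c2455 c15459 (k2 c15410 c5421 k0)))))) (by decide +kernel)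
def c15477 : PP 9 3 T 0x1000000000000000000000000000000000100000000000000000000000000000000000000000008002000000000000400000001000040 := rS 0xba4cc09c (k4 c743 c742 c1694 c1459 (k1 c5648 k0)) (by decide +kernel)
def c15478 : PP 9 3 T 0x9000000000000000000000000000000000100000000000000000000440400000100010004000000000000000000080004002001000000 := rS 0x356a27c2cc956abd2e95 (k8 c5488 c5404 c5406 c5490 c10198 c5648 c2757 c3618 (k2 c1619 c2779 k0)) (by decide +kernel)
def c15479 : PP 9 3 T 0x10000201000000000000000000000004000000002000000000000000000000000000000000000000000010000000000000000000000000 := rS 0x1ec72074935fc5b106b2cd86bf9866226f2fb1c66571d82c6f5913805624214b4d15b7509fdc670598902047a5677247794a1cb65c33ec81e04 (k8 c15250 c9737 c5210 c9680 c11323 c11445 c11253 c15383 (k8 c14727 c15428 c15451 c6008 c5520 c15476 c720 c2760 (k8 c719 c5731 c5358 c2929 c5571 c825 c2938 c9692 (k8 c826 c1932 c53 c2859 c5558 c5518 c5516 c5332 (k8 c5353 c383 c5357 c5439 c5565 c9728 c9698 c5590 (k8 c1139 c3049 c1293 c5715 c15452 c5226 c5465 c15478 (k4 c1564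 c9515 c15477 c5710 k0))))))) (by decide +kernel)
def c15480 : PP 9 3 T 0x10000201000000000000000000000004000000000000000000000000000000000000000000000000000010000000000000000000000000 := rS 0x138926fb5d97e2d89b0d6e148aaa03f28aacdc6b550edda6ff58890e08a2156420477a8ec3f4ace8ccae7f3cb1f2477949f4df134099d5bb214866225c4396c080f (k8 c9737 c15250 c11445 c11253 c11323 c9728 c9698 c9692 (k8 c5210 c5490 c9680 c5380 c5382 c5565 c5566 c15383 (k8 c14727 c15428 c5357 c5441 c5358 c5353 c383 c15451 (k8 c6008 c9664 c5332 c5519 c5520 c15476 c5558 c826 (k8 c825 c719 c720 c1932 c2780 c2938 c5571 c2929 (k8 c1094 c5731 c2760 c15479 c5803 c15060 c15372 c5589 (k8 c5591 c1137 c9859 c15452 c5226 c5464 c5465 c5580 (k2 c15478 c14947 (k1 c1694 k0))))))))) (by decide +kernel)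
def c15481 : PP 9 3 T 0x120040000000000000000000000000000000000000000000800000000000000000000000040000000004000010140000000004440 := rS 0x3b (k2 c1773 c14867 k0) (by decide +kernel)
def c15482 : PP 9 3 T 0x1a000121040000000000000000000000000200002000040040000000000000000100000000000000000000200000010000001000000020 := rS 0x6bb559f006334fde3b4411040121332dc7ed56aa4520ff982cf60d3ca7c1293039846e990f88c723f0b9dcae7f376dc7a1938a44e6a1 (k8 c5398 c9718 c5374 c3048 c9698 c5436 c13340 c5666 (k8 c2919 c5313 c785 c5433 c5318 c5317 c9734 c15434 (k8 c5447 c8484 c5445 c713 c5444 c311 c5448 c5524 (k8 c5522 c5372 c718 c5590 c9737 c9692 c5489 c5490 (k8 c15252 c15481 c1293 c3579 c2813 c3047 c424 c425 (k8 c340 c5582 c2936 c3568 c8509 c2561 c3073 c2146 (k1 c5991 k0))))))) (by decide +kernel)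
def c15483 : PP 9 3 T 0x1a000121000000000000000000000000000200002000000040000000000000000000000000000000000010200000010000001000000020 := rS 0x65d2c745fc940d628b376dc7a390c9cd1bf30f9ec1a8338a4526996fa840e61 (k8 c5445 c713 c5398 c2950 c5447 c5444 c5374 c3048 (k8 c5525 c5522 c5372 c15434 c5590 c12629 c9718 c9698 (k8 c5317 c5436 c13340 c5666 c2979 c1146 c10681 c15482 (k4 c5439 c11968 c13294 c8466 (k1 c11920 k0))))) (by decide +kernel)
def c15484 : PP 9 3 T 0x80000000000a000101000000000000000000000000000000000000000000000000000400000000000000100100008010000000000000000000000000 := rS 0xd6442c516af4aa7d42d5f7b4d5a97 (k8 c5404 c5490 c5496 c8156 c5454 c5398 c5448 c5488 (k4 c5406 c2979 c1146 c5673 (k2 c8161 c1984 k0))) (by decide +kernel)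
def c15485 : PP 9 3 T 0x12000021040000000000000000000004000000002000000000000000000000000000000000000000000010000000000000000000010000 := rS 0x275a2ab71406047e451f512d68978d63b6099bfdecb69a07bcad57a5d2a734683c968f8891c461f069c522a164a6d320730ca482094989403a17b97009b2 (k8 c5210 c15250 c11323 c10793 c15480 c53 c12632 c5444 (k8 c311 c12636 c15483 c5445 c713 c5447 c5397 c5396 (k8 c5398 c5374 c3048 c5522 c15434 c9734 c2787 c9728 (k8 c2845 c12639 c9737 c12629 c9718 c5488 c5404 c5406 (k8 c5490 c5214 c12653 c5496 c8797 c8156 c15484 c318 (k8 c5666 c5421 c6601 c12645 c9031 c1984 c1550 c5673 (k8 c5670 c859 c3068 c810 c2199 c1780 c1777 c15342 k0))))))) (by decide +kernel)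
def c15486 : PP 9 3 T 0x101000000000000000000000000000000000000000000000000000400000000014004140000008000000000011020011001440000 := rS 0x89f79107c27 (k4 c2813 c3579 c441 c5582 (k2 c2833 c5673 k0)) (by decide +kernel)
def c15487 : PP 9 3 T 0xa000121080000000000000000000000000000002000000000000000000000000000000000000000008010200000011060001000004020 := rS 0x391d921c23e1311024d26aac516ad148651a0b0f9ec1a934fb7d420730b1cfa576597ce2913985d2ed7 (k8 c1763 c5404 c1619 c9718 c5374 c3048 c5439 c8466 (k8 c5353 c5442 c5357 c5445 c713 c5398 c2950 c5448 (k8 c5444 c5522 c5372 c15434 c718 c12629 c9698 c9692 (k8 c5490 c2979 c1146 c14520 c5991 c15486 c424 c317 (k4 c2936 c4986 c3046 c495 (k2 c400 c10699 k0)))))) (by decide +kernel)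
def c15488 : PP 9 3 T 0x12000021000000000000000000000004000000002000000000000000000000000000000000000000000010000000000000000000010000 := rS 0x882222c7cb1ac2036c1337b5c2e34188cc7ac4ef95cfe7d2fe48ef29208dc0e094c98592a1499a4cead57a5d2bb214864e62331a35ee5c0787c4ba100810e291 (k8 c5374 c3048 c15250 c53 c15480 c12632 c15434 c9737 (k8 c11323 c10793 c12629 c9754 c9734 c9718 c9698 c9692 (k8 c5210 c5488 c5404 c5406 c5490 c9680 c9742 c5444 (k8 c5398 c5396 c5445 c5447 c311 c713 c8484 c12636 (k8 c15483 c14727 c15485 c5439 c5442 c5358 c5353 c14615 (k8 c14285 c12640 c383 c1469 c5653 c1619 c1763 c15487 (k8 c318 c5666 c9934 c12635 c5421 c13756 c857 c441 (k2 c3602 c2833 k0)))))))) (by decide +kernel)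
def c15489 : PP 9 3 T 0x8000000000000000000000000000000000000000000000000000000440400000100010000040000010010200000000000000000000220 := rS 0xd54fb24e85e56abd2e95 (k8 c5488 c5404 c5406 c5490 c312 c421 c1117 c1523 (k2 c1533 c3618 k0)) (by decide +kernel)
def c15490 : PP 9 3 T 0x1000000040000000000000000000000000000002000000000000000000000000000008000000004010400000000000000000000000060 := rS 0x274beb3 (k4 c171 c1523 c1701 c8106 k0) (by decide +kernel)
def c15491 : PP 9 3 T 0x8000000000011000021040000000000000000000000000200002000040040000000000000000001000004000000008000200000000000001000000120 := rS 0x2f403de3b441104012137b452193183fe60b0f8347e171e9dcae9f039c5226b3db2d36a1 (k8 c5578 c1191 c5464 c5372 c5523 c5374 c3048 c5432 (k8 c15490 c5313 c785 c5436 c5433 c5318 c5522 c15434 (k8 c718 c5590 c9737 c9754 c9698 c9692 c15252 c7824 (k8 c2813 c3047 c424 c425 c340 c5582 c8509 c9123 (k1 c8456 k0))))) (by decide +kernel)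
def c15492 : PP 9 3 T 0x1000000040000000000000000000000000000002000000000000000000000000000000000000004000400400000000000000000000060 := rS 0x1813863 (k4 c9754 c8106 c5663 c1696 k0) (by decide +kernel)
def c15493 : PP 9 3 T 0x59000121040000000000000000000000000200002000000040000000000000000000000000000000000010200000000000001000000020 := rS 0x9204c0d628b69a85aecb37789527346a0ce2912f01cd67b (k8 c5372 c5523 c5432 c15492 c5374 c3048 c5525 c12629 (k8 c9718 c5489 c5236 c5666 c5464 c5465 c5578 c5579 (k4 c2979 c1146 c10681 c15489 (k2 c15491 c1516 k0)))) (by decide +kernel)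
def c15494 : PP 9 3 T 0x91000000000000000000000000000000000000000800000000000000000000000000000100000080000000000000000000000000000000 := rS 0x785c4c6 (k4 c809 c810 c5535 c6448 k0) (by decide +kernel)
def c15495 : PP 9 3 T 0x88000020000000000000000000000000000200002800000000000000041000000000014000000000000010a00000010000001000000020 := rS 0x787daab42405a28af7b51afdf678d0e808492b52efd4aaa45219f9bfd5e71488fc2e3d64a6cd6993cb2c4eb1 (k8 c5421 c5570 c5420 c5524 c1520 c5523 c1119 c1117 (k8 c5436 c5433 c5318 c5374 c3048 c5406 c3010 c5590 (k8 c9698 c9692 c5489 c5488 c5405 c5404 c5490 c3579 (k8 c1516 c421 c420 c1530 c5450 c1763 c10481 c11200 (k8 c15489 c1711 c3073 c858 c6368 c5541 c8772 c5688 k0))))) (by decide +kernel)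
def c15496 : PP 9 3 T 0x19000121040000000000000000000000000200002000000040000000000000000000000000000000000010200000000000000000010020 := rS 0x140d33f90625580989f6ccd4cb14bc9f4b83c968f8891c461f12804f60d359e506714881cee57 (k8 c5313 c785 c5432 c5374 c3048 c5525 c5524 c5523 (k8 c5522 c5372 c53 c12632 c15434 c9734 c2787 c9728 (k8 c2845 c12639 c9737 c5404 c15490 c15492 c1629 c1520 (k8 c8354 c15493 c5570 c317 c12635 c12645 c5340 c15494 (k2 c8433 c15495 (k1 c1122 k0)))))) (by decide +kernel)
def c15497 : PP 9 3 T 0x1000000000059000101080000000000000000000000000200002000000000000000000000000000006000000000050010200000000000000000010000 := rS 0x200cc557bd90446a849a6d750ac517e26f9b95a974aa37e6ff579f5965f (k8 c5439 c8466 c5442 c5406 c3010 c5590 c12629 c5488 (k8 c5404 c5490 c5666 c14805 c5198 c2979 c1146 c1278 (k8 c5465 c5579 c12823 c14520 c424 c3618 c5582 c1275 (k2 c1276 c6368 (k1 c2077 k0))))) (by decide +kernel)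
def c15498 : PP 9 3 T 0x19000121000000000000000000000000000200002000000040000000000000000000000000000000000010200000000000000000010020 := rS 0x1c0808978c2627db38d39e1101053e3aa59fcfac704e487a37038fcae730792d1f112388c161f3d834e291 (k8 c5374 c3048 c5522 c5372 c15434 c718 c9734 c2787 (k8 c9728 c2845 c12639 c9737 c9718 c5313 c5318 c5432 (k8 c5435 c5436 c15496 c5438 c5357 c5442 c5358 c13294 (k8 c6200 c11582 c12636 c5650 c5456 c341 c1773 c15497 (k4 c5570 c317 c12823 c12645 (k2 c12613 c8617 (k1 c1716 k0))))))) (by decide +kernel)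
def c15499 : PP 9 3 T 0x8000000000000000000000000000000000000000000000000000000000000000000000000000000000000000050000000004000011000000000050140 := rS 0x7e81 (k2 c5463 c5576 (k1 c12613 k0)) (by decide +kernel)
def c15500 : PP 9 3 T 0x40000000000000051000000000000000000000000000000000100000000000000000000000400000000004000000004000000000000011000001041051440 := rS 0x124360b8e476a0f078c1e093e9fcaf92 (k8 c5209 c5353 c5358 c5442 c9669 c9737 c15499 c5198 (k4 c5680 c5456 c5534 c1068 (k2 c11223 c5648 (k1 c1568 k0)))) (by decide +kernel)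
def c15501 : PP 9 3 T 0x80000000000000000000000000000000000000000000000000000005004000001000040000000000000002000000400000010000000a0 := rS 0x142d36485860ad57a5d2a19 (k8 c9698 c5488 c5404 c5406 c5490 c822 c714 c1915 (k2 c1918 c1068 (k1 c3618 k0))) (by decide +kernel)
def c15502 : PP 9 3 T 0x59000101000000000000000000000000000100002000000000000000000000000000000000000004010010200000000000000000011020 := rS 0xd350b246a161b0e477e07ad2c40481311024076ab5d3eb14590cdcad57a5d2aa9148651a0ff982c3e25009d482096597ce63d3e8ccaf92 (k8 c5209 c5353 c383 c5442 c12640 c9718 c9668 c8466 (k8 c9669 c12636 c5440 c53 c12632 c15434 c718 c5590 (k8 c9737 c12629 c9698 c9692 c5489 c5488 c5404 c5406 (k8 c5490 c5666 c5252 c2979 c1146 c2815 c13349 c14520 (k8 c15501 c15500 c424 c317 c3046 c3047 c5334 c2420 (k8 c5225 c5456 c5534 c11223 c2419 c1622 c1065 c1068 (k2 c2937 c3618 k0))))))) (by decide +kernel)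
def c15503 : PP 9 3 T 0x40004000000000000000000080000000000000000080000000000000000000000000040000000000000000000000004000000000004001000000000055540 := rS 0x408fdc0e3f08e06e491db1cfa57 (k8 c5353 c5442 c5357 c5332 c5334 c5518 c10699 c5534 (k4 c2617 c5691 c3056 c1716 (k1 c12655 k0))) (by decide +kernel)
def c15504 : PP 9 3 T 0x40000000000000011000000000000000000000000000004000100000000000000000040000000000001000050000004400054000004011004000440051440 := rS 0x60c4efb24c2350b0d8723b7af80414bf19a41e093e9fcaf92 (k8 c5209 c5353 c5358 c5442 c9669 c9737 c9742 c15499 (k8 c15503 c5650 c5225 c2420 c5456 c5534 c11223 c2419 (k4 c1622 c1459 c1065 c14615 (k2 c14285 c5653 (k1 c1469 k0))))) (by decide +kernel)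
def c15505 : PP 9 3 T 0x10000021000000000000000000000004000000002000000000000000000000000000000000000000000010000000000000000000010000 := rS 0x6d4a4c3d7daf355a12050166b3d15ef6b285369d68f7da6c96a858c0c418019be438956026b113a7f6c331e904ae7d63827247794ec4e20d489eccead4bbf52aa90c98dee5c0792fe68f88bfd5fb22388c161f12e840204 (k8 c15250 c53 c15480 c12632 c15434 c718 c9734 c2787 (k8 c5210 c5406 c3010 c9728 c2845 c5590 c12639 c9737 (k8 c11323 c10793 c9754 c9698 c5489 c5488 c5405 c5404 (k8 c5490 c9680 c5372 c5374 c5522 c3048 c15488 c15498 (k8 c14727 c5209 c9669 c5357 c5442 c5353 c12636 c12640 (k8 c383 c15502 c5572 c5570 c5421 c317 c12635 c12645 (k8 c5561 c2512 c15504 c822 c821 c713 c714 c1475 (k8 c1915 c1918 c5451 c1706 c1696 c10952 c1068 c10481 (k8 c11200 c1766 c1770 c2192 c10483 c859 c858 c6368 (k4 c2627 c5541 c2335 c3617 (k2 c5657 c1463 (k1 c5518 k0)))))))))))) (by decide +kernel)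
def c15506 : PP 9 3 T 0x40000000000000082000111040000000000000000000004000100000000000000000000000000000000000000000000000000000000000000000000000000 := rS 0x1edf7f7b64cb (k4 c5420 c5210 c5214 c15107 (k2 c15095 c5191 k0)) (by decide +kernel)
def c15507 : PP 9 3 T 0x40000000000000082000111000000000000000000000004000000000000000000000000000000000000000000000000000010000000000000001000000000 := rS 0x44fbd1644690f82e34188cfbec42b9ff247703ca4c2c950a4cd2674ba5764290c98d1a5c4fb2c7a41ac04c4e04 (k8 c15250 c5570 c317 c12635 c5340 c5560 c5420 c5572 (k8 c11323 c12629 c9754 c9698 c9692 c5210 c5488 c5404 (k8 c9680 c9742 c5444 c5398 c5396 c5445 c14052 c713 (k8 c14727 c15506 c5358 c5353 c14285 c14615 c383 c1469 (k8 c5653 c1619 c3579 c442 c441 c2938 c5582 c2833 (k1 c5673 k0)))))) (by decide +kernel)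
def c15508 : PP 9 3 T 0x19000111040000000000000000000000000000002000000000000000000000000000000001100000400010000000000000000000000020 := rS 0x3bcd7f79f1a68164b15425e3f9ae24ad57a5d2a8f88b2c0ec73df8dc23b6ff808e2320d602627db7cc6e49a503c7328 (k8 c5209 c5317 c9737 c6008 c5334 c5518 c5590 c5241 (k8 c5570 c317 c12635 c5340 c9734 c2787 c5235 c5538 (k8 c5332 c5460 c11685 c5457 c5535 c8467 c5420 c9728 (k8 c2845 c5488 c5404 c5406 c5490 c5675 c1140 c809 (k8 c15492 c1122 c1629 c1117 c1746 c8433 c5670 c11200 (k2 c1550 c14775 (k1 c9031 k0))))))) (by decide +kernel)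
def c15509 : PP 9 3 T 0x19000111040000000000000000000000000000002000000000000000000000000000000000004000000010200000000000000000000020 := rS 0x3ab17bfed2f2659261559a8fc6d409f50a90f19ddbecd70b453a392ba6fc1284ba55531131a348e231d9246f4a079c483580989f6df3 (k8 c5590 c5241 c5570 c317 c12635 c5340 c5571 c9737 (k8 c6008 c5518 c5334 c5332 c9734 c2787 c12629 c9754 (k8 c9728 c5489 c5488 c5404 c5209 c5235 c8100 c5313 (k8 c5317 c5458 c5459 c5460 c5537 c5538 c785 c11685 (k8 c15508 c13428 c9976 c9822 c746 c5670 c5665 c9859 (k8 c10398 c10171 c2374 c5663 c8724 c15342 c1629 c15318 (k1 c5668 k0))))))) (by decide +kernel)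
def c15510 : PP 9 3 T 0x10000110080000000000000000000000000200002000000000000000000000000000000001000000000000000000000000000000010020 := rS 0x126a14e381367a3637c1a6b890a4324b47c44161f12804774a07a7d963d20d6012c71f81c2fe30989f6df3 (k8 c5590 c5241 c5570 c317 c12823 c5433 c5432 c5318 (k8 c5357 c5438 c12635 c5340 c5560 c5420 c5572 c9737 (k8 c6008 c5332 c53 c12632 c15434 c718 c9728 c2845 (k8 c12639 c9698 c9692 c5675 c1140 c2599 c2512 c5665 (k4 c15503 c2492 c957 c743 (k2 c3061 c1694 (k1 c3579 k0))))))) (by decide +kernel)
def c15511 : PP 9 3 T 0x11000110080000000000000000000000000200002000000000000000000000000000000000000000000000000000000000000000010020 := rS 0x4cf853a9b3d3892080038fe22b5658f483580989f6df3049f4fe57 (k8 c5353 c5358 c5442 c5438 c5590 c5241 c5570 c317 (k8 c12635 c5340 c5560 c5420 c204 c9728 c5318 c5432 (k8 c12613 c15510 c908 c907 c2621 c1777 c5457 c1594 (k1 c5679 k0)))) (by decide +kernel)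
def c15512 : PP 9 3 T 0x11000110080000000000000000000000000000002000000000000000000000000000000001000000000000000000000000000000010060 := rS 0x7a3637c1a6b89064968f8882c3e3ba503d8f29f18f483580989f6df33f95cfa09 (k8 c5438 c5442 c5353 c5358 c5590 c5241 c5570 c317 (k8 c12635 c5340 c5560 c15499 c15511 c5357 c9737 c6008 (k8 c5332 c15434 c718 c9728 c2845 c12639 c9698 c5675 (k4 c1140 c2599 c2512 c5665 (k2 c15503 c15477 k0))))) (by decide +kernel)
def c15513 : PP 9 3 T 0x40000000000000011000000000000000000000000000004000100000000001000000000014000000005001152000054400054204005011000004441050540 := rS 0x9b64b35c293818f9e481060cfc6df (k8 c2948 c15499 c383 c15504 c907 c422 c12613 c2627 (k4 c326 c3056 c8709 c10198 (k2 c6036 c3617 k0))) (by decide +kernel)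
def c15514 : PP 9 3 T 0x10000001000000000000000000000004000000002000000000000000000000000000000000000000000010000000000000000000010040 := rS 0x1fa05c09271a6bc27a4ca75566a679b50ad14819d2efd4aaa433111198c960b0f926940f388f483580989cbe09639f4f27f2b9de53924396cb9b2d8ed84a01f9e774204 (k8 c15250 c15480 c15505 c5590 c53 c12632 c5241 c15507 (k8 c5210 c11323 c11445 c11253 c15509 c15511 c5356 c5353 (k8 c5358 c5441 c5442 c5357 c5438 c5439 c5570 c317 (k8 c12635 c5340 c5560 c5571 c9737 c6008 c5334 c15434 (k8 c718 c12639 c9754 c9734 c9728 c9698 c5489 c5488 (k8 c5405 c5404 c9680 c15512 c9793 c13428 c746 c11551 (k8 c5665 c9859 c1135 c2373 c15513 c5457 c5679 c6448 (k4 c9848 c1192 c908 c326 (k1 c12655 k0))))))))) (by decide +kernel)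
def c15515 : PP 9 3 T 0x10000001000000000000000000000004000000002000000000000000000000000000000000000000000010000000000000000000010000 := rS 0x71f8556d180fbdbed64ca8537df67b4d92d50b310600694e4b623d21d6026b113b2d3e37db52b3a254bbf52aa900864b8872d8101fa1f9bfd5fb2 (k8 c5210 c5406 c3010 c5590 c15480 c9737 c15250 c11445 (k8 c11253 c11323 c9698 c53 c5489 c5488 c5405 c5404 (k8 c12632 c15505 c6008 c5241 c5518 c5572 c5420 c5570 (k8 c5421 c317 c12635 c5561 c5560 c15507 c15509 c15511 (k8 c15514 c822 c821 c714 c1475 c1915 c1918 c1473 (k8 c5451 c10952 c1068 c1463 c15501 c2950 c11200 c10483 (k4 c9339 c6368 c8772 c6448 (k1 c10298 k0)))))))) (by decide +kernel)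
def c15516 : PP 9 3 T 0x100000000000000000000000000000000000000000000000000000000000000000000000000000000000000000000000000020020 := rS 0x2b213 (k2 c36 c5558 (k1 c12635 k0)) (by decide +kernel)
def c15517 : PP 9 3 T 0x4000000000000005a000001040000000000000000000000000000000000000040000000000000000000000000000480400000200000400041001000400820 := rS 0x621d625df67b45689d55bd03c6c31b253699 (k8 c5447 c5397 c5396 c9754 c717 c718 c824 c1085 (k8 c1082 c11939 c1925 c2339 c15342 c2610 c15294 c5668 (k1 c3889 k0))) (by decide +kernel)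
def c15518 : PP 9 3 T 0x40001000000000000000000000000000000000200000000000000000000000000000400000000000000000001400080000000000000404000000000045400 := rS 0x121bd13 (k4 c810 c10493 c12876 c2946 k0) (by decide +kernel)
def c15519 : PP 9 3 T 0x20000000000000000000000004000000000100001040000000000000000001000000004000000050000000000000000080000400 := rS 0x14b (k2 c5517 c15314 k0) (by decide +kernel)
def c15520 : PP 9 3 T 0x40000000000000050000000000000000000000000000000000000001000000000000800000000000000000504000000000000000004010140000040400020 := rS 0x2d040b34e8ec3223 (k8 c9734 c9698 c1773 c1778 c2458 c3578 c5685 c2608 k0) (by decide +kernel)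
def c15521 : PP 9 3 T 0x40000000000000012000021040000000000000000000004000200000000000000000000000000000000000000000080000010000000000000000000040000 := rS 0x52c424889b8c3e0b3819dfaa9d91ce22234396dee0f25c55220d4191d1e9b4c8e42e311b9dcae5cac6dc7a191280482094984409a1 (k8 c15480 c15250 c15516 c5444 c311 c12636 c53 c12632 (k8 c9698 c5436 c13340 c5212 c11323 c5313 c785 c5435 (k8 c5434 c5433 c5317 c5447 c5397 c5526 c13598 c5525 (k8 c5522 c5374 c15515 c12639 c9737 c10793 c11445 c11253 (k8 c9734 c9728 c9718 c5210 c5489 c5405 c9680 c8379 (k8 c15517 c15519 c15520 c810 c12876 c12657 c5334 c5650 k0)))))) (by decide +kernel)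
def c15522 : PP 9 3 T 0x40000000000000050000120000000000000000000000000000000001000000000000000000000000000000000000000050000000000000000000000000000 := rS 0xb4372ccd68f (k4 c5526 c5523 c8280 c5666 (k2 c5685 c1148 k0)) (by decide +kernel)
def c15523 : PP 9 3 T 0x40000000000000012000021040000000000000000000004000200000000000000000000000000000000000000000000000010000000000000000000040000 := rS 0x1027d381fce7154f81cc2571fedc7a191280482094984409a1 (k8 c15480 c15250 c15516 c5444 c311 c12636 c53 c12632 (k8 c9698 c5436 c13340 c5318 c5313 c5445 c713 c5448 (k4 c15515 c9718 c15521 c15522 (k2 c2870 c751 (k1 c12613 k0))))) (by decide +kernel)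
def c15524 : PP 9 3 T 0x12000021040000000000000000000004000200000000000000000000000000000000000000000000000010000000000000000000040000 := rS 0x1f7c48af79d7beb07fb3da2b34eaade81e3602a024989fcb647331a35ee5c0792e2a9106a0c8e8f08e85929b4c82526040b8c46e3d (k8 c5436 c5435 c5434 c5433 c15250 c5444 c311 c5447 (k8 c5397 c5396 c15480 c15516 c5526 c13598 c5525 c5522 (k8 c5374 c15515 c12639 c9737 c11323 c10793 c12629 c9754 (k8 c9718 c5210 c15523 c5547 c5588 c5592 c12614 c717 (k8 c718 c824 c1085 c1082 c2321 c1925 c2339 c2341 (k8 c14396 c15342 c15294 c5506 c14204 c5186 c2981 c12668 k0)))))) (by decide +kernel)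
def c15525 : PP 9 3 T 0x12000021040000000000000000000004000200000000000000000000000000000000000000000000000010000000000000000000000000 := rS 0x10d2c740b0fbd5544980fb7e4b559bfe06b1f79c4dc882204ab1b71e8dcaead57bf553b201864e6237b9701e2500c54d68323a3c82094984409a1 (k8 c15480 c15250 c15516 c5444 c311 c12636 c5526 c13598 (k8 c5525 c5523 c15515 c53 c12632 c9737 c11323 c10793 (k8 c9734 c9718 c9698 c54 c5210 c5489 c5405 c5406 (k8 c5490 c5313 c5435 c5436 c13340 c5212 c15524 c424 (k8 c425 c318 c2869 c5582 c1982 c1985 c2839 c2819 (k8 c1148 c15522 c10401 c15060 c5588 c9179 c1924 c1085 (k4 c824 c14888 c5332 c340 (k1 c5650 k0)))))))) (by decide +kernel)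
def c15526 : PP 9 3 T 0xa000000000000000000000000000000000100000000000040000000005000000000000000000000000000208000000010000000000820 := rS 0x550793699 (k4 c5447 c5397 c718 c15390 (k1 c1085 k0)) (by decide +kernel)
def c15527 : PP 9 3 T 0x1400080000000000004400200000000055400 := rS 0x8938c92e1 (k4 c3058 c400 c2617 c12614 (k1 c810 k0)) (by decide +kernel)
def c15528 : PP 9 3 T 0x10000000000000000000000200000000000000000400000000000000000000000000000001400000020000000004400000000440051400 := rS 0xa5120420f (k4 c9737 c12657 c12876 c5650 (k1 c5334 k0)) (by decide +kernel)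
def c15529 : PP 9 3 T 0x80000000000a000101000000000000000000000000000000001800000000000000000000002404000001110080000000000000000000000000000000 := rS 0x3de8b81c01a1e14eb898ce164a6d32d3 (k8 c5496 c5447 c5397 c5396 c3058 c809 c810 c1343 (k4 c5535 c15342 c1780 c2202 (k2 c3068 c14381 (k1 c5673 k0)))) (by decide +kernel)
def c15530 : PP 9 3 T 0x12000021040000000000000200000004000000000000000000000000000000000000000000000000020010000000000000000000040000 := rS 0x81341149df7b5d97e23faad68b3891f5127311a349715488348e8f4fa6d024104a4c23a1039843e0b66b3c6bde2b4a5ee5c4396e220454bf76467 (k8 c9680 c5210 c5405 c5489 c15250 c9728 c11445 c11253 (k8 c11323 c10793 c15525 c10195 c5214 c5450 c5453 c5495 (k8 c15526 c15519 c5445 c713 c15480 c15516 c5444 c311 (k8 c12636 c12653 c5397 c5448 c5526 c13598 c5522 c5374 (k8 c15515 c12639 c12629 c9734 c9718 c2873 c2870 c15528 (k8 c2457 c756 c14841 c15529 c5670 c5464 c5465 c15107 (k4 c1342 c5673 c14869 c859 (k1 c2201 k0)))))))) (by decide +kernel)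
def c15531 : PP 9 3 T 0x80000000004a000101000000000000000000000000000000000000000000000000000000000000000000100100050010000000000000000000000000 := rS 0x1966e (k2 c5666 c8797 (k1 c15484 k0)) (by decide +kernel)
def c15532 : PP 9 3 T 0x52000021040000000000000000000004000000000000000000000000000000000000000000000000000010000000000000000000000000 := rS 0x4ce158d900ce68d2e7790329208252611d081cc204 (k8 c15250 c5445 c713 c15480 c15516 c5444 c311 c12636 (k8 c15525 c12653 c5214 c11323 c12629 c9718 c54 c5210 (k4 c5212 c15531 c2869 c15530 k0))) (by decide +kernel)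
def c15533 : PP 9 3 T 0x12000021040000000000000000000004000000000000000000000000000000000000000000000000000010000000000000000000000000 := rS 0x9d55b45c502809fa248a449f427ef6b78d622765ed83e0b69b359e354095bbd2933ab55efd4aaa7651111a1cb68d7b9701e4b8aa441a4747a85929b0398482094984409a1 (k8 c15480 c15250 c15516 c5444 c311 c12636 c5445 c713 (k8 c5397 c5396 c5398 c5526 c13598 c5522 c5374 c15515 (k8 c12639 c9737 c11323 c10793 c12629 c11445 c11253 c9734 (k8 c9728 c5210 c5489 c5488 c5405 c5406 c5490 c9680 (k8 c15525 c5214 c10195 c12653 c5450 c5453 c5495 c5496 (k8 c15526 c15519 c15532 c5420 c5570 c5421 c6601 c9031 (k8 c11200 c317 c1550 c1984 c5673 c12645 c5670 c3068 (k4 c859 c810 c1780 c2199 (k2 c1778 c14869 k0))))))))) (by decide +kernel)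
def c15534 : PP 9 3 T 0x40000100000000000000000000000000000000000000000000000000000000000000014004000050000001404000004000000000440020 := rS 0x9d966e38a005219398940207208247a11 (k8 c15516 c12640 c311 c12636 c713 c53 c12632 c9718 (k8 c9698 c9692 c12613 c751 c5666 c8466 c2813 c3579 k0)) (by decide +kernel)
def c15535 : PP 9 3 T 0xa000100000000000000000000000000000200000000000000000000000000000000000000000050100000604000000000000000000020 := rS 0x65b55aeb1699b91044096dc2e3f56abd2e950c9cc4a014fa84c24104a4c7a11 (k8 c15516 c12640 c5444 c311 c12636 c5445 c5398 c5448 (k8 c53 c12632 c9718 c9698 c5488 c5404 c5406 c5490 (k8 c5318 c5433 c13340 c15534 c424 c425 c318 c2936 (k4 c1982 c1983 c2837 c1144 (k1 c5982 k0))))) (by decide +kernel)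
def c15536 : PP 9 3 T 0x40000101000000000000000000000000000000000000000000000000000000000000014004100050000001404000000020000000440020 := rS 0x113ef45911a43e (k4 c15534 c442 c441 c2938 (k2 c5582 c2833 (k1 c5673 k0))) (by decide +kernel)
def c15537 : PP 9 3 T 0x5a000121080000000000000000000000000000001000000040000000000000000000000000000000000010200000000020000000000020 := rS 0x1c3343e3b1f2a892d280fb7e4cb5aacdaaff81ac7de7137220881256abdfaa9019cd1a7b069ad068f4fa8592614c97cfa7f2b85d2ed7208252611 (k8 c15516 c5444 c311 c12636 c1763 c5404 c1619 c5353 (k8 c5358 c5442 c5439 c5447 c5445 c5396 c5398 c5448 (k8 c5526 c5525 c5523 c5522 c5372 c12629 c9718 c54 (k8 c5489 c5405 c5406 c5490 c15536 c424 c425 c318 (k8 c2869 c5582 c1982 c1985 c2839 c2837 c2819 c1148 (k8 c1144 c15522 c10401 c15060 c5991 c5588 c9179 c2936 (k4 c494 c1085 c2075 c11968 (k1 c440 k0)))))))) (by decide +kernel)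
def c15538 : PP 9 3 T 0x12000021000000000000000000000004000000000000000000000000000000000000000000000000000010000000000000000000000000 := rS 0x113ef45911a43e0989d97b60b8d25231198f7bec43a9dcae7f3e97f244103824c2c950a7d266933a5d2bb214864c68d7b9704a018a8474204 (k8 c15250 c15480 c15516 c15515 c53 c12632 c11323 c10793 (k8 c12629 c9754 c9698 c9692 c5210 c5488 c5404 c9680 (k8 c9742 c5444 c5448 c5398 c5396 c5445 c311 c713 (k8 c12636 c15533 c5439 c5442 c5358 c5353 c5356 c5440 (k8 c14285 c14615 c12640 c383 c1469 c15535 c5653 c1619 (k8 c15537 c5420 c5570 c317 c3579 c442 c441 c2938 (k2 c5582 c2833 (k1 c5673 k0)))))))) (by decide +kernel)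
def c15539 : PP 9 3 T 0x11000000000000000000000200000000000200000000000000000400000400000000004401400000020000000004400000000040051020 := rS 0x13b4a5a2ce240b149cc4641 (k8 c5340 c9734 c9718 c9692 c718 c15528 c2457 c756 (k2 c11945 c1342 (k1 c15026 k0))) (by decide +kernel)
def c15540 : PP 9 3 T 0x8000000000019000000000000000000000200000000000200000000000040000000004100000000000501400010020000a00004400000000000051020 := rS 0x68f8156f30f0d0109f4bbf52aa90b8f596e3 (k8 c5466 c5464 c5436 c5433 c5489 c5488 c5405 c5404 (k8 c1522 c12668 c420 c15539 c2532 c1085 c7579 c1705 (k1 c8772 k0))) (by decide +kernel)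
def c15541 : PP 9 3 T 0x19000101000000000000000000000000000000000800000000000000005100000000008501100000060000000000000000000000000000 := rS 0x1e055a7568b34bbf52aa9 (k8 c5489 c5488 c5405 c5404 c2457 c756 c1701 c14841 (k2 c5679 c13449 k0)) (by decide +kernel)
def c15542 : PP 9 3 T 0x10000000000000000000000200000000000000000400000000000000000000000000000001400000020000000004400000000040051020 := rS 0x1623 (k2 c9734 c718 (k1 c15528 k0)) (by decide +kernel)
def c15543 : PP 9 3 T 0x8000000000019000101000000000000000200000000000200000000000040000000005100000000000501400000020000a00000000000000000041020 := rS 0x1e04eaac3d134f1f12efd4aaa4e68d2591c2217 (k8 c5433 c15516 c13598 c12639 c12629 c9718 c5489 c5488 (k8 c5405 c5404 c15540 c2870 c15541 c15542 c1085 c1082 (k2 c7579 c13449 k0))) (by decide +kernel)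
def c15544 : PP 9 3 T 0x59000101040000000000000000000000000000000000000040000000000000000000000001400401020410200000000000000000041020 := rS 0x75efb399a994db14bcc930a5cc6772bca2b1e2 (k8 c5236 c5212 c5209 c5313 c785 c9754 c5404 c10408 (k8 c10171 c5663 c1629 c1119 c1520 c8354 c15543 c5453 (k2 c1530 c5668 k0))) (by decide +kernel)
def c15545 : PP 9 3 T 0x59000121040000000000000000000000000000001000000040000000000000000000000000000000000010200000000000000000040020 := rS 0x1e8aa053fe024989ac517f2372cce27311a341e4b48834d6794191d1e11 (k8 c15516 c5526 c13598 c5525 c5524 c5523 c5522 c5374 (k8 c12639 c9737 c12629 c9734 c9718 c15544 c8280 c5666 (k8 c15522 c2979 c1146 c5547 c5588 c5592 c11835 c12614 (k2 c14396 c824 (k1 c1924 k0))))) (by decide +kernel)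
def c15546 : PP 9 3 T 0x59000121040000000000000000000000000000001000000040000000000000000000000000000000000010200000000000000000000020 := rS 0x1389b0f98133e1a5aa8be3a70c0413f25aacdfeb1459c4dc880937da6a171b5d9641f15615a033988cc6590e92cf66b23a3c22391f85c7b28 (k8 c5209 c5436 c5433 c5318 c5317 c15516 c5526 c13598 (k8 c5523 c5372 c12639 c5486 c313 c9754 c9734 c9718 (k8 c54 c5490 c5212 c5236 c5340 c5464 c5465 c5466 (k8 c5578 c5579 c5580 c15545 c425 c318 c2869 c2977 (k8 c1982 c2839 c2819 c1148 c15522 c15489 c15060 c5591 (k8 c14209 c10903 c14396 c9944 c5456 c1592 c5663 c1085 (k2 c7393 c5679 (k1 c1696 k0)))))))) (by decide +kernel)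
def c15547 : PP 9 3 T 0x400000000099000101040000000000000000000000000000000800000000000000000000000000000000000011400015000000000000000000000000 := rS 0x789aa7f3a26502c52f3252ecb (k8 c5420 c5404 c10171 c5663 c1629 c1746 c1520 c5668 (k4 c15494 c1532 c5670 c6616 k0)) (by decide +kernel)
def c15548 : PP 9 3 T 0x40000000000000011000120040000000000000000000000000000000800000000000000000000000000004400000010000002000000000000000000040420 := rS 0x1e170b7dc7e31d2758e7f0497c066307844f60d0395c72371eca08358 (k8 c12635 c5340 c5209 c5436 c5435 c5317 c5313 c8467 (k8 c5522 c5372 c15516 c9737 c9754 c54 c62 c1574 (k8 c10398 c727 c1696 c9123 c12668 c15481 c2512 c13096 (k2 c5456 c5691 k0)))) (by decide +kernel)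
def c15549 : PP 9 3 T 0x40000000000000099000121040000000000000000000000000000000000000000000000000000000000000400000010400010000000000000000040000020 := rS 0x1ffc69940f78bc61319e53ecb05c49220f0692c262723a3c2223 (k8 c9734 c15516 c5526 c13598 c5570 c317 c12639 c5522 (k8 c9737 c5374 c12645 c718 c5420 c5572 c5524 c9754 (k8 c15548 c5663 c15547 c1746 c1520 c6601 c15494 c5670 k0))) (by decide +kernel)
def c15550 : PP 9 3 T 0x89000101040000000000000000000000000000001800000000000000000000000000000000000421000010200000000000000000000020 := rS 0x1edf0a1204cdf122932c5f7820bcc9efa48c2d769a855aaf4ba540263468fc2e3d3b95e50714fb2c4eb1 (k8 c5421 c5570 c5420 c5572 c5571 c5209 c5313 c785 (k8 c5436 c5433 c5318 c12629 c9754 c53 c5488 c5404 (k8 c5406 c5490 c2826 c2828 c1550 c1579 c12650 c9031 (k8 c10171 c5663 c1516 c11200 c1629 c1520 c15489 c5186 (k4 c8354 c859 c858 c6706 (k2 c5541 c7311 k0)))))) (by decide +kernel)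
def c15551 : PP 9 3 T 0x40000000000000099000121040000000000000000000000000000001000000000000000000000000000000000000000000010200000000000000040000020 := rS 0x21a5268fb121488c1e4b12805220d3ca0c8e8f088e4ee57942cc2627 (k8 c5570 c317 c5574 c5209 c5313 c785 c5317 c15516 (k8 c5526 c13598 c5525 c5524 c5522 c5374 c53 c12632 (k8 c12639 c9737 c9734 c9692 c12645 c15550 c15549 c7393 (k2 c2490 c8534 k0)))) (by decide +kernel)
def c15552 : PP 9 3 T 0x10000021040000000000000000000004000000000000000000000000000000000000000000000000000010000000000000000080000000 := rS 0xc4ef203c67f3ea2a250204bfe02cf68a11e86c4ca7414aba599d5efd54c450e5b3ca0c8e8f0395c7e17188dc7b2859ac48641ac04c4fb6d8c5422f72e6cb4204 (k8 c15250 c15480 c5210 c11323 c10793 c15516 c15515 c15538 (k8 c15546 c5570 c317 c12635 c5340 c5561 c5421 c5574 (k8 c5209 c5436 c5435 c5434 c5433 c5318 c5313 c8467 (k8 c5526 c13598 c5525 c5524 c11445 c11253 c9728 c5489 (k8 c5405 c5406 c9680 c5517 c1085 c15314 c1082 c2317 (k8 c717 c824 c823 c1925 c2339 c1927 c2341 c15258 (k8 c8604 c2629 c2630 c15550 c15494 c12668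 c12613 c8305 (k2 c856 c5451 k0)))))))) (by decide +kernel)
def c15553 : PP 9 3 T 0x10000021040000000000000000000004000000000000000000000000000000000000000000000000000010000000000000000000000000 := rS 0x1f28907c2627db6c846f72e03c9715488348e8f0881343b1 (k8 c15538 c15480 c15250 c15516 c5526 c13598 c5522 c5374 (k8 c15515 c12639 c9737 c11323 c10793 c9734 c5210 c15546 (k4 c5570 c317 c15552 c12645 (k2 c15551 c5547 k0)))) (by decide +kernel)
def c15554 : PP 9 3 T 0x40004000000000059000121080000000000000000000000000200001000000040000000000000000000000000000000000000200000000000000000000020 := rS 0xcf4caade81e0532536d11da87c07056a5dfa95549ccc60f0697c127f2b8dd3e11 (k8 c15516 c11582 c5435 c5353 c5358 c5438 c5439 c5522 (k8 c9737 c9754 c9718 c5489 c5488 c5405 c5404 c5490 (k8 c15522 c5198 c2929 c5456 c5459 c5536 c11623 c9123 (k4 c718 c824 c1085 c2317 (k2 c2339 c8772 k0))))) (by decide +kernel)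
def c15555 : PP 9 3 T 0x59000121080000000000000000000000000200001000000040000000000000000000000000000000000000200000000000000000040020 := rS 0xdf1df80144971c4fe5e3a585c1e4b488348e8f639041211 (k8 c15516 c5438 c12636 c5357 c5526 c13598 c5522 c5374 (k8 c12639 c9737 c5433 c13294 c12823 c15554 c5547 c5549 (k4 c5588 c12648 c10403 c5456 (k2 c5538 c14209 k0)))) (by decide +kernel)
def c15556 : PP 9 3 T 0x40000000000000010000021000000000000000200000004000100000000000000000040000000000000000000000000020010000000000000000040040000 := rS 0xcd67a65ea374eb45922155d2936163031060b43601a240b33a5dfa9554ec852193988cc68d259ed220d23a3f62c73b904123d3e84742332be48b804 (k8 c15250 c11323 c15553 c5353 c383 c15480 c15516 c5442 (k8 c12640 c5438 c12636 c5356 c5357 c15538 c5526 c13598 (k8 c5522 c5374 c5372 c12639 c12629 c9754 c9734 c9718 (k8 c9698 c9692 c5210 c5489 c5488 c5405 c5404 c9680 (k8 c718 c15542 c15504 c755 c756 c822 c821 c713 (k8 c714 c2492 c11945 c14841 c2608 c1915 c1706 c1696 (k4 c5518 c5519 c1464 c1473 (k2 c1916 c3617 k0)))))))) (by decide +kernel)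
def c15557 : PP 9 3 T 0x4000000000041000000000000000000000000000000000000000000000000000140000000000000010108000000000000000005411500000000000000 := rS 0x6ecb (k2 c1753 c1567 (k1 c11678 k0)) (by decide +kernel)
def c15558 : PP 9 3 T 0x2000000000009000000000000000000000000000000000100000000000020000000000000000004000104000000000000000000000004000001000000 := rS 0x6ace0b3252efd4aaa5a29b (k8 c5536 c5459 c5489 c5488 c5405 c5404 c10198 c5648 (k2 c8772 c1619 (k1 c2340 k0))) (by decide +kernel)
def c15559 : PP 9 3 T 0x2000000000049000100000000000000000000000000000100000000000020000040000000000004010100000050000000004001400104000000040120 := rS 0x7880e920086496411e84476e1 (k8 c5460 c5456 c15516 c12640 c12636 c12639 c9698 c53 (k4 c15558 c1564 c15557 c15499 k0)) (by decide +kernel)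
def c15560 : PP 9 3 T 0x40000000000000050000021000000000000000000000004000000000000000000000000000000000000000000000000000010000000000000000000040000 := rS 0x102071fb2d24174c0e5e849f02cc14aba58843ca13837ccefd54864e71111a1cb64747b1cfe41048f4fa332bd625392d8c5423a17b97009b2 (k8 c5210 c15250 c11323 c10793 c15480 c15516 c15515 c15538 (k8 c15553 c15555 c5212 c5353 c383 c5442 c12640 c5438 (k8 c12636 c5358 c5357 c5526 c13598 c11445 c11253 c9734 (k8 c9728 c9718 c9698 c5489 c5405 c9680 c14805 c15522 (k8 c2929 c15556 c58 c5517 c1085 c15314 c2321 c5225 (k8 c15439 c824 c2470 c15559 c1464 c2318 c1760 c10644 (k2 c714 c752 (k1 c12613 k0)))))))) (by decide +kernel)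
def c15561 : PP 9 3 T 0x50000021000000000000000000000004000000000000000000000000000000000000000000000000000010000000000000000000040000 := rS 0x190d365229609f7facd57e07a07a960af1c0492e35ac4fe52957ec8e68d7b9701e4b8a9ed220d23a3c2204d0ec4ff92 (k8 c15553 c5358 c15538 c15480 c15250 c15516 c5526 c13598 (k8 c5522 c5374 c5372 c15515 c12639 c9737 c11323 c10793 (k8 c12629 c9718 c5210 c5406 c15555 c15560 c5547 c5548 (k8 c5549 c5588 c5592 c8118 c12614 c5516 c718 c824 (k8 c5225 c1085 c2321 c2341 c11608 c14396 c14204 c11832 (k2 c2938 c11840 (k1 c1325 k0))))))) (by decide +kernel)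
def c15562 : PP 9 3 T 0x50000021000000000000000000000004000000000000000000000000000000000000000000000000000010000000000000000000000000 := rS 0x77990354d0e19a3b948dc169d1f2482e1f7aa8155e324b8e03ed03fc93ecb5aacdaad77fc0d63ef389b84c882204886ad57bf43a9554ec806290c9cc46f72e03c4a018a84742043d834d68347ec4bec73e95ceb92 (k8 c15553 c5440 c5353 c5442 c5357 c5439 c15538 c5526 (k8 c5525 c5523 c5522 c5372 c15250 c15480 c15516 c15515 (k8 c53 c12632 c9737 c11323 c10793 c9734 c9718 c9698 (k8 c9692 c54 c5210 c5489 c5488 c5486 c5405 c5406 (k8 c5490 c5252 c15561 c424 c425 c317 c318 c2869 (k8 c5582 c1982 c1985 c2839 c1983 c2837 c2819 c1148 (k8 c1144 c2815 c15522 c15501 c10401 c15060 c5549 c5588 (k8 c8118 c9179 c5680 c1924 c1085 c1068 c2928 c2927 (k8 c1277 c824 c1568 c5318 c494 c2076 c10699 c325 (k4 c440 c1189 c11149 c5494 k0)))))))))) (by decide +kernel)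
def c15563 : PP 9 3 T 0x40000000000000090000020080000000000000000000000000200000000000000000100000000000000000000000000000000000004410000000040010020 := rS 0x71f85be3a8902c460f488351ec71bf8c2627 (k8 c5570 c317 c12823 c5435 c5357 c5526 c5522 c5374 (k8 c9737 c9734 c718 c12645 c6200 c2512 c5456 c1773 (k1 c5691 k0))) (by decide +kernel)
def c15564 : PP 9 3 T 0x4000000000089000020000000000000000000040004000000001000000000000000100040000000000000004000000050200000440040000080400020 := rS 0x1afefefb4d910266b3dff014df8108f4362653a0a55abd2efd4aaa622f759a7d96b1 (k8 c5421 c5420 c5572 c5574 c10793 c9728 c5489 c5488 (k8 c5405 c5404 c5406 c1085 c15314 c1082 c2317 c717 (k8 c824 c823 c10403 c2492 c1927 c2341 c2339 c2502 (k4 c8604 c13449 c15373 c6325 (k2 c5508 c2189 (k1 c5689 k0)))))) (by decide +kernel)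
def c15565 : PP 9 3 T 0x99000020080000000000000000000004000200001000000000000000000000000000000000004000000050200004451000000000010020 := rS 0x3e5120fb85aa80f1d2c6e17038fc468d079ed220d478258e7d3f95c2627 (k8 c5570 c317 c5353 c5358 c5442 c5357 c5438 c5526 (k8 c5522 c5374 c5372 c9737 c12629 c9734 c5318 c5432 (k8 c5433 c5435 c13294 c12823 c12613 c1659 c1716 c15564 (k2 c12645 c15563 (k1 c5547 k0))))) (by decide +kernel)
def c15566 : PP 9 3 T 0x40000000000000099000000000000000000000000000004000100000000000000000000000040000000000001400004400050200004451004001040011020 := rS 0xda94987afb5e6ab4240a02cd67a2bded650a6d3ad1efb4d92d50b18188300337dff1205a5dfa9554864466346bdc1e9f65ac42627 (k8 c5570 c317 c5421 c5420 c5572 c9737 c10793 c12629 (k8 c9754 c9734 c9698 c5489 c5488 c5405 c5404 c718 (k8 c12645 c2571 c2512 c15504 c822 c821 c713 c714 (k8 c1475 c1915 c1918 c5451 c1706 c1696 c10952 c1068 (k8 c15501 c11200 c1766 c1770 c2192 c10483 c859 c858 (k8 c6368 c2627 c5541 c2335 c3617 c5657 c1463 c5518 k0)))))) (by decide +kernel)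
def c15567 : PP 9 3 T 0x1000000000000000000000000000004000100000000000000000000000000000000000010080050000000004000011000004010410120 := rS 0x3be3562359003f4901c3213 (k8 c317 c9698 c714 c5648 c326 c12613 c857 c856 (k2 c1763 c5451 (k1 c11149 k0))) (by decide +kernel)
def c15568 : PP 9 3 T 0x99000020000000000000000000000004000100001000000000000000000000000000000000004050000050204000411000000080010120 := rS 0x4ca4c2c8a813fe02847a127c00a55d2c42af7e8752aa90cc4446f719acc4eb1 (k8 c5421 c5570 c5574 c383 c10793 c9734 c9728 c9698 (k8 c5489 c5488 c5486 c5405 c5406 c58 c5517 c1085 (k8 c15314 c5225 c15439 c824 c823 c1928 c2341 c8604 (k4 c2630 c15567 c55 c1464 (k1 c15558 k0))))) (by decide +kernel)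
def c15569 : PP 9 3 T 0x10000021000000000000000000000004000000000000000000000000000000000000000000000000000010000000000000000000000000 := rS 0x7ca241f9490eb01313ed8663d209dcae7f3eb1c1392d891d1e0d489ef6467119710e5b0792c4a018a8474204 (k8 c15250 c15480 c15516 c15515 c53 c12632 c12639 c9737 (k8 c11445 c11253 c11323 c9734 c9680 c5210 c5372 c5374 (k8 c5522 c5526 c13598 c15538 c15553 c5438 c5357 c5442 (k8 c5358 c5353 c5356 c12636 c12640 c383 c15562 c5570 (k8 c317 c12635 c5561 c15565 c15568 c12645 c15566 c5547 k0))))) (by decide +kernel)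
def c15570 : PP 9 3 T 0x8000000000000004a000100040000000000000000000000000200001000000000000000000000000000000000400000000010200001400440000000044420 := rS 0xdcb040179feb3559fd04c7351e4fa0c89a4602074fa84c2094995c723f0bf8fc2de25906b0e3 (k8 c5549 c5212 c5340 c12639 c14209 c5538 c5580 c5433 (k8 c5318 c5317 c5313 c5444 c311 c5445 c5398 c5448 (k8 c8467 c5592 c5589 c5547 c12876 c2829 c2387 c316 (k8 c2480 c423 c5822 c1137 c2377 c2396 c15534 c5670 (k2 c14396 c1747 (k1 c1146 k0)))))) (by decide +kernel)
def c15571 : PP 9 3 T 0x1000000000048000111040000000000000000000000000000000000000000000000000140000000000501804080440010004000000540000000004540 := rS 0x1edefaad9ad14e9a8f07b3825d2aa9 (k8 c5489 c5488 c5404 c8379 c891 c5822 c2875 c1136 (k4 c1540 c2386 c1137 c15342 (k2 c8724 c5185 k0))) (by decide +kernel)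
def c15572 : PP 9 3 T 0x8000000000000004a000111040000000000000000000000000000001000000000000080000000000000000400804010400010004000004100000000444020 := rS 0x104fef6ac566ab459c4dc6a62a00f25e3fb1d2efd549cc760b1bd296b0348c040e9f50b24c29904a4fc7e1 (k8 c5538 c5580 c5444 c311 c5447 c5445 c5396 c5398 (k8 c5448 c8467 c5592 c5589 c5550 c5548 c6008 c5518 (k8 c5516 c5332 c9718 c5489 c5405 c5404 c2487 c15571 (k8 c15534 c2388 c5670 c1629 c6192 c1747 c751 c856 (k4 c1137 c2378 c1146 c10401 (k2 c14396 c11575 (k1 c2397 k0))))))) (by decide +kernel)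
def c15573 : PP 9 3 T 0x8000000000000004a000111040000000000000000000000000200001000000000000000000000000000000400004000000010200000000000000000044020 := rS 0x37098e2cb3e238eede0b8fc7257009cc963b2482c6e47a50f4835871a4d3ea1 (k8 c5398 c5448 c5444 c5549 c5212 c5340 c5560 c6008 (k8 c5520 c5518 c5516 c5334 c5332 c12639 c9718 c53 (k8 c5313 c5317 c5318 c5433 c14209 c785 c15570 c15572 (k4 c1548 c4858 c12650 c5666 (k1 c2813 k0))))) (by decide +kernel)
def c15574 : PP 9 3 T 0x8000010040000000000000000000000000100000000000000000000005100000000000000000004000010200000000000000000002020 := rS 0xaa3500e2207 (k4 c8467 c9728 c54 c316 (k2 c15421 c1137 k0)) (by decide +kernel)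
def c15575 : PP 9 3 T 0x52000001040000000000000000000004000000000000000000000000000000000000000000000000000010000000000000000000040000 := rS 0x20fdbe16827556c7369a91c0d3e9bcf67066b3d8a812b77a52977ea5553b239c44c6872da34b84b8a844920b23d281e41ac44d23f2d081c089bcea7d9299 (k8 c5447 c5396 c5448 c15569 c8100 c15250 c8467 c15480 (k8 c5241 c5589 c5547 c5212 c5340 c9737 c6008 c5520 (k8 c5516 c5334 c15516 c15515 c12639 c11323 c12629 c11445 (k8 c11253 c9754 c9728 c9718 c5210 c5489 c5488 c5405 (k8 c5404 c15573 c5214 c10195 c12653 c5451 c5453 c5495 (k8 c15531 c886 c65 c2870 c15574 c12614 c2875 c2433 (k8 c2487 c1137 c1136 c9860 c13449 c5501 c1976 c15233 k0))))))) (by decide +kernel)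
def c15576 : PP 9 3 T 0x8000000000000004a000111040000000000000000080000000200001100000000000000000000000000000000120040058010000004200000000000000000 := rS 0x7facd5685369e98e8062f78f3e1f6b795aaf7eaa4764720d6226e381c04c2b1 (k8 c1982 c5445 c5592 c5550 c5549 c5547 c5212 c5340 (k8 c5520 c5332 c5489 c5405 c5406 c5490 c14209 c14787 (k8 c5538 c2388 c5185 c5451 c15531 c940 c5669 c742 (k4 c847 c9859 c2820 c2840 (k1 c8676 k0))))) (by decide +kernel)
def c15577 : PP 9 3 T 0x52000001040000000000000000000004000000000000000000000000000000000000000000000000000010000000000000000000000000 := rS 0x81ef4a4fe7137220881204a4f640339c451a5c25c54234a07fcb3a41ac6840e04 (k8 c15250 c8467 c15480 c5212 c5340 c15569 c5241 c9737 (k8 c6008 c15516 c15515 c12639 c11323 c12629 c9728 c9718 (k8 c54 c5210 c5444 c311 c15575 c424 c425 c318 (k4 c2869 c2918 c15576 c5214 (k2 c12653 c15531 k0))))) (by decide +kernel)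
def c15578 : PP 9 3 T 0x50000001040000000000000000000004000000000000000000000000000000000000000000000000000010000000000000000000000000 := rS 0x6f78251b1258ec8f4a07810835871fcb3ba1 (k8 c15480 c15569 c5241 c5549 c5212 c5340 c15250 c9737 (k8 c6008 c5520 c5332 c12639 c15577 c5209 c5235 c14209 (k1 c5538 k0))) (by decide +kernel)
def c15579 : PP 9 3 T 0x11000000000000000000000000000000000000000000000000000040000000000000004000000000000000000220000000001000 := rS 0x83f6a15e4cc (k4 c440 c439 c2502 c5540 (k2 c2390 c5672 k0)) (by decide +kernel)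
def c15580 : PP 9 3 T 0x80000000000000008000011080000000000000000000000000000001000000000000000000000000104000000024000008001010000000460000000005440 := rS 0x59bfcda853d0e60209639e4aed1 (k8 c1704 c5353 c5441 c5357 c5438 c5592 c15579 c10699 (k4 c5745 c742 c2840 c2820 (k1 c14396 k0))) (by decide +kernel)
def c15581 : PP 9 3 T 0x80000000000000008000011080000000000000000000000000000001000000000000000000000000004000000024000018001000000000020000000004020 := rS 0xff59a14d40c56abdfaa92c874760b1bd296b038081d6273 (k8 c9718 c1982 c713 c5592 c5550 c5548 c6008 c5518 (k8 c5516 c5332 c5486 c313 c5489 c5405 c5406 c5490 (k4 c15580 c316 c2541 c2378 (k2 c2840 c3623 k0)))) (by decide +kernel)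
def c15582 : PP 9 3 T 0x52000001000000000000000000000004000000000000000000000000000000000000000000000000000010000000000000000000000000 := rS 0xe508cd41fb554713722024d10b8d063df03b12526164a853e933499d2e9501c44c6590eec90e5b46c54223b058de940ff9677425f04b1cfa793f9dcea332be48b804 (k8 c15250 c11323 c15578 c5353 c383 c5440 c5356 c5358 (k8 c5441 c5442 c5357 c5438 c5439 c15480 c15569 c5241 (k8 c9737 c6008 c5518 c5516 c5332 c15516 c15515 c12629 (k8 c11445 c11253 c5210 c5486 c313 c9754 c9728 c54 (k8 c5488 c5404 c9680 c9742 c5444 c5448 c5398 c5396 (k8 c5445 c15535 c10013 c713 c14615 c1469 c5653 c1619 (k8 c1704 c15536 c425 c318 c2869 c15581 c5500 c1974 (k4 c2075 c5672 c440 c5745 k0)))))))) (by decide +kernel)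
def c15583 : PP 9 3 T 0x1000000000011000000000000000000000000000000000000000000000000000000000000000000000000000000000000400000000100000000002020 := rS 0x13420 (k2 c315 c10916 (k1 c2490 k0)) (by decide +kernel)
def c15584 : PP 9 3 T 0x51000100000000000000000000080000000200001000000000000480000000000000004100000000010000400000000000000040040020 := rS 0x268409d59a804ecb371cc464b12844023b20d6073e3 (k8 c5580 c5317 c5212 c5340 c5332 c53 c15516 c12632 (k8 c12639 c9734 c9718 c5666 c8466 c2813 c5680 c2934 (k4 c1277 c14425 c15026 c2490 k0))) (by decide +kernel)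
def c15585 : PP 9 3 T 0x51000100000000000000000000080000000200001400000000000480000000001000004101000050000000404000000000000040040120 := rS 0x9d4d9a99470472001e4b0892416471e906b03f03837c239 (k8 c5317 c5538 c15583 c5432 c5318 c5212 c5340 c5560 (k8 c5520 c5516 c5334 c15516 c12639 c9737 c12613 c12614 (k4 c15584 c752 c2875 c1326 (k2 c1135 c5679 k0)))) (by decide +kernel)
def c15586 : PP 9 3 T 0x80000000000000059000100080000000000000000080000000200001000000000000000000000000000000000000000000000200000000000000040000020 := rS 0x64b2d42d76aac5a66e1322088124c9e81be1f1b793e071f8e55aaf4ba54e7110792c223b058dc8e41ac44d6ae34897c12c73e9fcae75 (k8 c5440 c5353 c5358 c5442 c5357 c5438 c5439 c5589 (k8 c5549 c5548 c5547 c5212 c5340 c5520 c5518 c5516 (k8 c5332 c15516 c12639 c9737 c9728 c9718 c5488 c5404 (k8 c5406 c5490 c5317 c5318 c5432 c11582 c14209 c5580 (k8 c5538 c15583 c10699 c1594 c15585 c424 c425 c317 (k8 c318 c2936 c1982 c2837 c1983 c2927 c1144 c10123 (k1 c3618 k0))))))) (by decide +kernel)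
def c15587 : PP 9 3 T 0x11000000080000000000000200000000000000001000000000000500000400000000020000000000000000000005404540005040001460 := rS 0x8134b34cf84f4de8888c1e3d20b1cae9d (k8 c1277 c5353 c5357 c5340 c5560 c9737 c9734 c9728 (k8 c3590 c10699 c5538 c1594 c2934 c5679 c14425 c2490 k0)) (by decide +kernel)
def c15588 : PP 9 3 T 0x51000110080000000000000000000000000100001000000000000000000000000000000000000000010000000000000000000000041060 := rS 0x80d4381fa482ea013b2cdd1125894021f1d924163723d281ee370fc8bec74f864e7e32b8f483583e824fe11 (k8 c15516 c5358 c5438 c5442 c5212 c5340 c5560 c5353 (k8 c15499 c9718 c9698 c10691 c5357 c5439 c5241 c5591 (k8 c5549 c9737 c6008 c5520 c5518 c5516 c5334 c5332 (k8 c9664 c53 c12632 c12639 c9728 c5666 c8466 c2813 (k8 c5680 c1068 c5648 c326 c15587 c9515 c324 c2371 k0))))) (by decide +kernel)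
def c15589 : PP 9 3 T 0x59000111080000000000000000000000000100001000000000000000000000000000000000004000000010000000000000000000041060 := rS 0x347c0cf4ea65569b64a14d4b250a24e08e56a5dfa955492c920b23d281f1348fc8be794f864e7e32b8f483583e824fe11 (k8 c15516 c5358 c5438 c5442 c5212 c5340 c5560 c5353 (k8 c15499 c9718 c9698 c10691 c5441 c5439 c5241 c5589 (k8 c5547 c9737 c6008 c5520 c5516 c5334 c12639 c5489 (k8 c5488 c5405 c5404 c5490 c12614 c15588 c2873 c2929 (k8 c2874 c2875 c2547 c11623 c2497 c1137 c2373 c1135 (k4 c11551 c5679 c5459 c8772 k0)))))) (by decide +kernel)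
def c15590 : PP 9 3 T 0x48000100000000000000000000000000000000001000050000000000000000001000000000000800050810000000000000000000000000 := rS 0x1fcb145accdcad57bf552ab (k8 c1137 c5489 c5405 c5406 c5490 c5666 c2378 c2979 (k2 c1146 c3623 (k1 c2397 k0))) (by decide +kernel)
def c15591 : PP 9 3 T 0x59000111080000000000000000000000000000001000000000000000000000000000000000004000000010200000000000000000040060 := rS 0xf026d94c9509c1a2cf4caad048535033c69f56a5dfa9554864e6590e8447a41ac2d607012f824fa793f95ceb29f907e940f (k8 c9737 c6008 c9664 c5241 c15586 c5440 c5353 c5358 (k8 c5441 c5442 c5438 c5439 c5592 c5550 c5548 c5212 (k8 c5340 c5560 c15516 c5486 c313 c9718 c9698 c5489 (k8 c5488 c5405 c5404 c5490 c10691 c15499 c15589 c316 (k8 c2541 c423 c1137 c2373 c11551 c1975 c15590 c2929 (k4 c11623 c5680 c1326 c10916 (k1 c8772 k0))))))) (by decide +kernel)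
def c15592 : PP 9 3 T 0x480001010000000000000000000000000000000000000000000000000000000000000000000000001100106000000000000000000000a0 := rS 0x359628b659b8e68d21ab44a11008a5aa304f8587b58 (k8 c5212 c5560 c714 c1465 c822 c1475 c9692 c53 (k8 c15516 c12632 c5490 c5252 c12629 c9718 c5666 c8466 (k4 c2979 c1146 c15501 c13349 k0))) (by decide +kernel)
def c15593 : PP 9 3 T 0x8000000000000000000000000000000000000000000000000000000005120000000000500800000020010400000000000000000000000 := rS 0x1a29d55a14d4977ea555289 (k8 c2873 c5489 c5488 c5405 c5404 c2875 c2547 c1137 (k2 c1135 c1707 (k1 c3617 k0))) (by decide +kernel)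
def c15594 : PP 9 3 T 0x59000111080000000000000000000000000000001000000000000000000000000000000000004000000010200000000000000000040020 := rS 0xabf0208d40c479c1329b66b3d92163031060060c92416377a91eb1134897ceb29f907e940f (k8 c9737 c6008 c9664 c5241 c15586 c5440 c5439 c5589 (k8 c5547 c5212 c5520 c5519 c5518 c5516 c5334 c9698 (k8 c15591 c822 c821 c713 c714 c1915 c1473 c1916 (k8 c10952 c1463 c15592 c15593 c12876 c316 c423 c10916 (k2 c1137 c15328 k0))))) (by decide +kernel)
def c15595 : PP 9 3 T 0x80000000000000008000000000000000000000000000000000000001000000000000000000000000104000000420000008000000000000000000000000000 := rS 0x2cdff01 (k4 c5592 c2839 c2819 c14396 k0) (by decide +kernel)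
def c15596 : PP 9 3 T 0x49000000000000000000000000000000000000001000000000000000500400000104006000000000000000000000000000000000000000 := rS 0x34d92a156abd2e95 (k8 c5488 c5404 c5406 c5490 c1277 c1275 c14519 c3618 k0) (by decide +kernel)
def c15597 : PP 9 3 T 0x2000000000000000000000000000000000000000000000000000000000000000000000040000000000000000001000000004000000440000000005540 := rS 0x727b (k2 c5457 c5534 (k1 c3568 k0)) (by decide +kernel)
def c15598 : PP 9 3 T 0x58000111000000000000000000000000000000001100000000000000000000000000004800804000050010000000000000000000000000 := rS 0x20fda6a599b5faa95ac0e03f2 (k8 c5241 c5592 c5550 c5548 c5489 c5405 c4662 c2497 (k4 c5665 c10401 c15590 c11575 k0)) (by decide +kernel)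
def c15599 : PP 9 3 T 0x40000000000200000001000000004000000440000000005560 := rS 0x1c9ec3311 (k4 c9728 c9698 c1594 c2437 (k1 c3568 k0)) (by decide +kernel)
def c15600 : PP 9 3 T 0x1000000000059000111000000000000000000000000000000001100000000000000500400000004004100024000058010000000000000000000000000 := rS 0x9b4ea3be4b1 (k4 c1982 c5241 c15595 c15596 (k2 c15598 c5679 k0)) (by decide +kernel)
def c15601 : PP 9 3 T 0x59000111000000000000000000000000000100001000000000000000500440000000004000024001418010004000200000000000001160 := rS 0x69b2542354e0e1367b669b107ed55267c2ad57a5d2a19888ec1637a503d6273 (k8 c9718 c1982 c9737 c6008 c5518 c5516 c5332 c9728 (k8 c9698 c5488 c5404 c5406 c5490 c15597 c15599 c15600 (k8 c5500 c1974 c9859 c12000 c15477 c2492 c3568 c5679 (k4 c15579 c1277 c1276 c2937 (k1 c3618 k0))))) (by decide +kernel)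
def c15602 : PP 9 3 T 0x50000001000000000000000000000004000000000000000000000000000000000000000000000000000010000000000000000000000000 := rS 0x1046a0601d969f6bb54e26e441102529d89d4ee573c9f58e092fe4a03035afcb6403399710e5b8a847434a078103f9d (k8 c15569 c9664 c15250 c9737 c6008 c15480 c15516 c15515 (k8 c11445 c11253 c11323 c9718 c54 c5210 c5241 c5548 (k8 c5550 c5592 c15578 c5439 c5438 c5357 c5442 c5441 (k8 c5353 c5356 c5440 c15582 c15586 c15594 c424 c425 (k8 c318 c2869 c2837 c1983 c2815 c1144 c15592 c15601 (k2 c316 c423 (k1 c15590 k0))))))) (by decide +kernel)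
def c15603 : PP 9 3 T 0x12000001040000000000000000000004000000000000000000000000000000000000000000000000000010000000000000000000000000 := rS 0xda6b470359acf3df7bc29189ca7e4c9d9066225c2482c40298aacc9623128440247a56741e3d20d602627db6840e04 (k8 c15250 c8467 c15480 c15602 c5570 c317 c12635 c5340 (k8 c5560 c9737 c15569 c6008 c5520 c53 c15516 c12632 (k8 c9734 c12639 c5574 c15515 c9692 c8534 c5516 c5334 (k8 c11323 c9728 c9698 c5210 c5396 c15507 c13340 c5547 (k8 c5589 c7694 c5214 c9301 c5453 c5495 c15574 c12614 (k2 c2371 c2432 (k1 c5665 k0))))))) (by decide +kernel)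
def c15604 : PP 9 3 T 0x4000000000098000111040000000000000000000000000000001000000000000000000040000000000000100004400010004000000100000000001020 := rS 0x1de6bfbd427c699fd02c962c48bc8f489b0d6ad57a5d2b111d92416376588052b32588c4a110091e940fac04c4e07 (k8 c8467 c5570 c317 c12635 c9737 c6008 c5520 c53 (k8 c15516 c12632 c9734 c12639 c5574 c9692 c8534 c5420 (k8 c5518 c5516 c5334 c5332 c9728 c5488 c5404 c5406 (k8 c5490 c2371 c5665 c747 c2432 c5710 c12876 c1629 (k8 c1117 c1746 c809 c8433 c5670 c1122 c11200 c1550 (k2 c5186 c9031 k0)))))) (by decide +kernel)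
def c15605 : PP 9 3 T 0x10000001040000000000000000000004000000000000000000000000000000000000000000000000000010000000000000000000000000 := rS 0x7e30204be9044400faff81aae2682791a818e2f19ddbee14e9ed8e392bf8251b14dabdfaa9d918d1a5c25c54223b248dc8f4ace83d669f58906b01313edb4204 (k8 c15250 c15480 c15602 c5570 c317 c12635 c5340 c5421 (k8 c5572 c5574 c9737 c15569 c6008 c5520 c5518 c5334 (k8 c5332 c15516 c15515 c12639 c11323 c12629 c9754 c5210 (k8 c5489 c5405 c5406 c8100 c15603 c5209 c5235 c5313 (k8 c5317 c5535 c5457 c5458 c5460 c5538 c785 c11685 (k8 c15026 c15604 c316 c422 c423 c2598 c1137 c2627 (k8 c4621 c1552 c8604 c1977 c1978 c8456 c9822 c5663 (k2 c5670 c10398 k0)))))))) (by decide +kernel)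
def c15606 : PP 9 3 T 0x12000001000000000000000000000004000000000000000000000000000000000000000000000000000010000000000000000000000000 := rS 0x113ef45911a43e0b8d063df03b1252613499d2e95d90a432634689422011e906b01313edb425f3f9dcea332be48b804 (k8 c15250 c11323 c15605 c5353 c383 c5440 c5356 c5358 (k8 c5439 c15480 c15602 c5570 c317 c12635 c5340 c5560 (k8 c53 c15516 c12632 c12629 c9754 c9698 c9692 c5210 (k8 c5488 c5404 c9680 c9742 c5445 c13340 c10013 c713 (k8 c14615 c1469 c5653 c1619 c13756 c442 c441 c2938 (k2 c5582 c2833 (k1 c5673 k0))))))) (by decide +kernel)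
def c15607 : PP 9 3 T 0x200001000000000000000000400000000006000000000000000000000011400005000000020 := rS 0x14293148647e17 (k4 c5433 c5318 c9698 c9692 (k2 c1694 c1277 (k1 c3579 k0))) (by decide +kernel)
def c15608 : PP 9 3 T 0x91000000000000000000000000000000000000000000000000000800000040000000000000000001000000004000000440000000001560 := rS 0x267c20f (k4 c9737 c15597 c15599 c6448 k0) (by decide +kernel)
def c15609 : PP 9 3 T 0x91000110000000000000000000000000000200001000000000000000000040000000000000000051000000404000000000000000000120 := rS 0x7b48782260c71275009b038fc723b058dd3ecb100a5664b11894220123d281e3d20d602627 (k8 c5570 c317 c12635 c5340 c5560 c9737 c6008 c5520 (k8 c53 c15516 c12632 c9734 c12639 c5574 c9692 c8534 (k8 c5420 c5572 c5518 c5516 c5332 c5317 c5318 c5432 (k8 c2490 c12613 c15607 c15026 c15608 c2598 c10916 c13204 (k2 c5457 c907 k0))))) (by decide +kernel)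
def c15610 : PP 9 3 T 0x99000010000000000000000200000004000100001000000000000000000040000000000000000000400050200004000004001000011060 := rS 0x1f28923cf691361ac33110f8ec920b100a5662323d281e131390c7a41 (k8 c5340 c5560 c5561 c5570 c317 c9737 c6008 c5520 (k8 c9734 c5574 c9692 c8534 c5516 c5334 c5332 c9664 (k8 c9728 c9698 c2371 c5665 c747 c15477 c2432 c12876 (k2 c15566 c5547 k0)))) (by decide +kernel)
def c15611 : PP 9 3 T 0x1000000000091000010000000000000000000000004000100001000041000000000000000000045000110000850000000404000011000000010012160 := rS 0x24600807f8fd16920ba69c61959ac42627 (k8 c5570 c317 c5421 c5574 c9698 c6448 c10916 c10952 (k8 c9848 c15567 c326 c2397 c12613 c8604 c908 c1978 k0)) (by decide +kernel)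
def c15612 : PP 9 3 T 0x10000001000000000000000000000004000000000000000000000000000000000000000000000000000010000000000000000000000040 := rS 0x3fe03ee48fccf7e068b3e07ed4ca75568242bc8d40c33abd2efd4aaa43223319643bb24396c96250087c920ba503d623d20d6026273b9d4665c94ec4ae7f3c9f58e092fe4b6d9d8a8474204 (k8 c15250 c15480 c15516 c15515 c15569 c15602 c15605 c5439 (k8 c5438 c5357 c5442 c5441 c5358 c5353 c15606 c15609 (k8 c11323 c383 c5440 c5356 c5570 c317 c12635 c5340 (k8 c5560 c5421 c9737 c6008 c5516 c5334 c9664 c53 (k8 c12632 c12639 c11445 c11253 c5210 c5486 c313 c9754 (k8 c9734 c9698 c5489 c5488 c5405 c5404 c5406 c9680 (k8 c15610 c316 c422 c2541 c423 c1137 c1135 c2373 (k8 c5540 c2627 c11551 c1975 c15611 c5457 c7210 c15513 (k4 c5191 c1978 c5586 c8602 k0))))))))) (by decide +kernel)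
def c15613 : PP 9 3 T 0x99000010000000000000000200000004000100001000000000000100000040000000000000080000400050200004000004001000011020 := rS 0x7bf9c49228f3620cd6a98887c920b100a5662323d281e131390c7a41 (k8 c5340 c5560 c5561 c5570 c317 c9737 c6008 c5520 (k8 c9734 c5574 c9692 c8534 c5516 c5334 c9664 c9728 (k8 c5489 c2371 c8722 c5665 c2983 c747 c12876 c5547 (k2 c957 c15566 k0)))) (by decide +kernel)
def c15614 : PP 9 3 T 0x10000001000000000000000000000004000000000000000000000000000000000000000000000000000010000000000000000000000000 := rS 0x27557e03503114e16b26536cd67b25aa16620c00d29d88ccee573f9e4fac70497f243d21d6026b113b2d3fb67a8de959d8a894224bd083cce977ea5553b200864b804 (k8 c15250 c11323 c9698 c53 c5210 c5489 c5488 c5405 (k8 c5404 c9680 c9737 c15480 c12639 c15516 c12632 c15515 (k8 c15569 c6008 c5518 c5519 c15602 c5572 c5420 c5570 (k8 c5421 c317 c12635 c5561 c5560 c15605 c5439 c5438 (k8 c5357 c5442 c5441 c5358 c5353 c5356 c383 c15606 (k8 c15609 c15612 c822 c821 c714 c1475 c1915 c1473 (k8 c1916 c10952 c1463 c15501 c4269 c1766 c15613 c316 (k4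 c10916 c1137 c1135 c13449 k0)))))))) (by decide +kernel)
def c15615 : PP 9 3 T 0x2000021000000000000000000000004000200000000000000000000000000000000000000000000000010000000000000000000000000 := rS 0x75efb159a3467f85e43a3bd2c6e171c95c322310825267bf687dee5cc99ad3a994d985ea844396e22a97eec8ce69059b76804 (k8 c15250 c15614 c5529 c717 c9742 c9680 c5210 c5405 (k8 c5489 c9728 c11445 c11253 c14584 c2335 c5445 c5397 (k8 c5530 c5412 c5523 c10443 c11323 c10793 c15519 c14747 (k8 c5372 c5444 c311 c5528 c9734 c9698 c5313 c5317 (k8 c5433 c5435 c9578 c785 c3578 c5657 c5456 c1647 (k4 c448 c2500 c10805 c5450 (k2 c1526 c5668 k0))))))) (by decide +kernel)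
def c15616 : PP 9 3 T 0x100180000000000a000220000000000000000000040000000100000000040040000000000000000004001000000000021000000004001440000000011405 := rS 0xd765ac5c0fff99208e3856abd2e954fa8626134783d22d5 (k8 c5454 c5374 c5369 c5568 c5564 c5382 c5398 c5448 (k8 c5488 c5404 c5406 c5490 c5654 c2477 c12614 c12233 (k4 c3007 c400 c14602 c1718 (k2 c1721 c8161 k0)))) (by decide +kernel)
def c15617 : PP 9 3 T 0x100180000000000a000220000000000000000000000000000100000000040040000000000000000004001000000000021000000004001440000000011405 := rS 0x23926951309a3c1e91 (k8 c5374 c5369 c5568 c5564 c5382 c15616 c5334 c5520 (k1 c12614 k0)) (by decide +kernel)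
def c15618 : PP 9 3 T 0x100180000000004a000220000000000000000000000000000100000000040040000000000000000004001000000000021000000000000440010100011405 := rS 0x4f59250f44a9f (k4 c5448 c2754 c12427 c15617 (k2 c5342 c353 (k1 c5651 k0))) (by decide +kernel)
def c15619 : PP 9 3 T 0x42000221000000000000000000000004000000000000000000000000000000000000000000000000000010000000000000000000000000 := rS 0x989425ac91c92b4a51c422371d907c2d06695bbd2981e4c3fed421ad220f3499dfaa9d9004062939c450e5b7b9713aab4cacc1a21059b768044fa8536618984cde8f (k8 c5568 c5565 c5564 c5382 c5445 c5397 c5398 c5448 (k8 c15250 c15614 c5529 c717 c5528 c315 c5532 c5530 (k8 c5413 c5412 c11323 c10793 c11445 c11253 c9728 c9718 (k8 c9692 c54 c53 c5210 c5489 c5405 c9680 c9742 (k8 c5369 c5374 c5523 c14584 c14747 c15519 c10443 c2629 (k8 c15615 c5214 c10195 c5495 c13565 c6325 c12628 c10737 (k8 c1482 c15417 c15618 c14603 c8385 c5334 c5520 c12110 (k4 c1094 c12614 c5651 c353 k0)))))))) (by decide +kernel)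
def c15620 : PP 9 3 T 0x2000211040000000000000000000004000200000000000000000000000000000000000000000000000010000000000000000000000000 := rS 0x5ab78fcd72f9e988753cf85abe3efb31fecf80b458e11f6038ef4b1e8fcaead57a5dfa9554eca3a5c4eaae2a9959ed1929b04a4c0e6102204267d (k8 c5566 c5564 c5380 c15250 c5445 c713 c5444 c311 (k8 c5397 c5396 c15614 c5532 c5530 c5414 c5413 c5412 (k8 c11323 c12631 c5210 c5489 c5488 c5405 c5404 c5406 (k8 c5490 c5313 c5318 c5436 c9578 c785 c6008 c5218 (k8 c10107 c794 c5501 c5502 c5543 c5544 c8724 c10390 (k8 c12668 c15288 c8772 c2386 c1968 c5668 c5669 c10245 (k4 c1765 c15334 c892 c2514 (k1 c10153 k0)))))))) (by decide +kernel)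
def c15621 : PP 9 3 T 0x2000211040000000000000000000004000000000000000000000000000000000000000000000000000010000000000000000000000000 := rS 0x58c0d163f7ffcd09592520c9247089ec1e9120f87dad069b35aacf2b77a526933ab55e977ea57642939c450e5b46c74b89d55c5532b306884166dda27d42c9039840913099bd128f (k8 c5568 c5567 c5565 c5564 c5382 c15250 c5445 c713 (k8 c5396 c5398 c5448 c15614 c5529 c717 c5528 c315 (k8 c5532 c5530 c5414 c5413 c5412 c11323 c12631 c12629 (k8 c11445 c11253 c9728 c9718 c9692 c5210 c5488 c5405 (k8 c5404 c5406 c5490 c9680 c9742 c15620 c5214 c10195 (k8 c5453 c5454 c5495 c5496 c13565 c10390 c6325 c12628 (k8 c15424 c9180 c9301 c15417 c5779 c10368 c1976 c12647 (k8 c12876 c5672 c5546 c2569 c15406 c15405 c2629 c14602 (k1 c15395 k0))))))))) (by decide +kernel)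
def c15622 : PP 9 3 T 0xa000200000000000000000000000000000200000000000000000000000000000000000000000040000000600000000001000000000020 := rS 0x407a17649841293 (k8 c5444 c311 c5445 c5396 c5433 c5436 c15334 c15377 k0) (by decide +kernel)
def c15623 : PP 9 3 T 0x2000000000000000000000000080000000000000000000000000000000000000000001100000000000000000000000100000501400000 := rS 0x370f8ed269b (k4 c5397 c5444 c5332 c5517 (k2 c5518 c3578 k0)) (by decide +kernel)
def c15624 : PP 9 3 T 0x400000000022000001080000000000000000040004000100000000000000000000400000000000000000000110000000000000011024000000050140 := rS 0xd41f78cfe57 (k4 c5353 c5358 c15499 c12613 (k2 c14488 c2997 k0)) (by decide +kernel)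
def c15625 : PP 9 3 T 0x42000200080000000000000000000000000000000000000000000000000000000000000000000000000000000000002800010000008000 := rS 0x38091969f (k4 c5448 c4240 c12427 c12830 (k1 c6185 k0)) (by decide +kernel)
def c15626 : PP 9 3 T 0x4000400000000000000000000000000000000000000004000100000000000000000000000000000000000000000000000000000000020000000000000000 := rS 0x2b3e3 (k2 c5462 c5340 (k1 c5166 k0)) (by decide +kernel)
def c15627 : PP 9 3 T 0x42000201000000000000000000000004000000000000000000000000000000000000000000000000000010000000000000000000000000 := rS 0x89047a3a1bf87decf68fb01d4b1c85c69296b8c466c4ef9dcae7f6397f259d3e84d026933a5dfa9554ec852191198cb8872da7557154cacc1a21da32536094981cc204 (k8 c15250 c5445 c713 c5444 c311 c5397 c5396 c15614 (k8 c5528 c315 c5532 c5530 c5414 c5413 c5412 c11445 (k8 c11253 c11323 c9754 c9734 c9698 c9692 c5210 c5489 (k8 c5488 c5405 c5404 c9680 c9742 c5380 c5564 c5566 (k8 c15619 c15621 c5439 c5357 c5358 c5353 c5356 c14615 (k8 c14285 c383 c1469 c1765 c15622 c5653 c1619 c15579 (k8 c15623 c6008 c5218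 c5501 c5543 c14376 c8772 c1621 (k4 c5654 c15625 c15626 c10107 (k1 c15624 k0))))))))) (by decide +kernel)
def c15628 : PP 9 3 T 0x42000021040000000000000000000004000000000000000000000000000000000000000000000000000010000000000000000000000000 := rS 0x100457bdfff3819222613449c19a81ef4a7da84479ad220f3499dfaa9d900ce7114396d1af72e034420b36ed00e612084412930211eb1a1 (k8 c15627 c5212 c5562 c15250 c5444 c311 c15516 c12636 (k8 c5445 c713 c15614 c5529 c717 c5528 c315 c11323 (k8 c10793 c12629 c11445 c11253 c9728 c9718 c54 c5210 (k8 c5489 c5405 c9680 c9742 c5369 c5374 c5523 c5526 (k8 c14584 c14747 c15615 c5214 c12653 c5495 c15531 c2873 (k8 c2869 c755 c12876 c2629 c5588 c3007 c15215 c5673 (k2 c5694 c3068 k0))))))) (by decide +kernel)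
def c15629 : PP 9 3 T 0x400000000040000100040000000000000000000000000200000000000000000000000020000000014004000010000001400000000000000000040020 := rS 0x115e33f024223dac15c7e17 (k8 c5433 c5318 c5313 c5212 c5560 c15516 c311 c15534 (k2 c12668 c840 (k1 c8305 k0))) (by decide +kernel)
def c15630 : PP 9 3 T 0x48000111000000000000000000040000000000001400014000000000000020000404000000000028140000200000000000000000000000 := rS 0x163034422d1cad57bf5528d (k8 c12629 c5489 c5405 c5406 c5490 c1691 c2981 c1634 (k2 c10402 c14204 (k1 c8676 k0))) (by decide +kernel)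
def c15631 : PP 9 3 T 0x42000001040000000000000000000004000200000000000000000000000000000000000000000000000010000000000000000000000000 := rS 0x123f1f4be7a621d4f3e1efb31fecf80b458f13f6038ef4b1f95d2efd4aaa764732e0113aab8aa6567b449a7d42c94d987439d (k8 c15628 c15627 c5445 c5397 c5396 c5398 c5448 c5444 (k8 c15614 c5532 c5530 c5414 c5413 c5412 c15250 c11323 (k8 c9718 c5210 c5489 c5488 c5405 c5404 c5313 c5318 (k8 c9578 c785 c6008 c5218 c12622 c794 c5501 c5502 (k8 c5543 c5544 c8724 c10390 c8772 c2386 c1968 c5668 (k4 c5669 c10245 c15630 c15535 (k2 c15629 c2917 k0))))))) (by decide +kernel)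
def c15632 : PP 9 3 T 0x42000001040000000000000000000004000000000000000000000000000000000000000000000000000010000000000000000000000000 := rS 0x4889a3c260f489c3dacd67a07bd29ceec806738896d1a5c55c5532b306884166dda3240e612084412930211eb1a1 (k8 c15627 c5212 c5562 c15250 c5444 c311 c15516 c12636 (k8 c5445 c713 c5396 c15614 c5529 c717 c5528 c315 (k8 c5532 c5530 c5414 c5413 c11323 c12629 c11445 c9728 (k8 c9718 c54 c5210 c15628 c15631 c5214 c12653 c5453 (k8 c5495 c10390 c15531 c15424 c9180 c2869 c2874 c755 (k2 c12876 c13198 k0)))))) (by decide +kernel)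
def c15633 : PP 9 3 T 0x42000001000000000000000000000004000000000000000000000000000000000000000000000000000010000000000000000000000000 := rS 0x81bfe031358fb01c88a584872171a0c46729ceb13be753b95cfe7d6397f25a10398592a14fa4cd26756abd2efd4aaa764193988cc6872da34b89d55c5532b3068876804 (k8 c15250 c15614 c5528 c315 c5532 c5530 c5414 c5413 (k8 c5412 c11323 c12629 c11445 c11253 c9754 c9734 c9718 (k8 c9698 c5210 c5489 c5488 c5405 c5404 c5406 c5490 (k8 c9680 c9742 c5444 c5448 c5398 c5396 c5445 c713 (k8 c15627 c15632 c5439 c5357 c5442 c5358 c5353 c5356 (k8 c5440 c14615 c14285 c8483 c15535 c383 c1469 c5653 (k8 c1619 c15579 c15536 c15623 c425 c6008 c5218 c1982 (k4 c12622 c5502 c5544 c1986 (k1 c8676 k0))))))))) (by decide +kernel)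
def c15634 : PP 9 3 T 0x1000021040000000000000000000004000000000000000000000000000000000000000000000000000010400000000000000000000000 := rS 0x77868c57933fc34b668e98e7530024c6f7068840e391b9dcaf282e03cf679f69adea844396e22a97eec8ce69059b76804 (k8 c15250 c15614 c5529 c717 c9742 c9680 c5210 c5405 (k8 c5489 c9728 c11445 c11253 c14584 c2335 c5523 c14747 (k8 c5524 c5372 c5369 c11323 c5209 c5313 c785 c5435 (k8 c5317 c8467 c5528 c315 c10793 c9754 c312 c5663 (k8 c1576 c726 c3568 c2502 c5332 c5456 c1647 c5657 (k4 c10805 c448 c5668 c5450 k0)))))) (by decide +kernel)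
def c15635 : PP 9 3 T 0x1000000000000000220000000000000000000000000000000000000000008000400040800000000001000000000000000000000400100000000011400 := rS 0x924b80b87c71309a3c1e91 (k8 c5374 c5369 c5568 c5564 c5382 c5464 c1718 c9158 (k2 c15375 c451 (k1 c12614 k0))) (by decide +kernel)
def c15636 : PP 9 3 T 0x1400000000040000221000000000000000000040004000000000000000000000000160100000000014000000000000010000000000100000000010000 := rS 0x24d6203ef5832dc6d7f991c8625791c15aaf4ba54020314bdcb89d55834431309a3c1e91f69adea844396e22a97eec8ce69059b76804 (k8 c15250 c15614 c5529 c717 c9742 c9680 c5210 c5405 (k8 c5489 c9728 c11445 c11253 c14584 c2335 c5523 c14747 (k8 c5374 c5369 c5568 c5564 c5382 c5528 c315 c5413 (k8 c5412 c11323 c10793 c9692 c54 c53 c5488 c5404 (k8 c5406 c5490 c14603 c5657 c2754 c5252 c2537 c12233 (k8 c9339 c1779 c15635 c3618 c5506 c2143 c5171 c451 (k1 c12876 k0))))))) (by decide +kernel)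
def c15637 : PP 9 3 T 0x400000000040000221040000000000000000000004000000000000000000000000000000000000000000000000000010000000000000000000000000 := rS 0x1035490ee941168785aad3679d12a1911a7556214ca2472173b95e50790f82cdaf72e325366b509bd3e7d66b14bdb14ba110e5bda44408a97eec8ce69 (k8 c9742 c9680 c5210 c5405 c5489 c15250 c9728 c15614 (k8 c11445 c11253 c14584 c5404 c15633 c15634 c1629 c2503 (k8 c5566 c1522 c5565 c1121 c5523 c1119 c1117 c11323 (k8 c10793 c5529 c717 c15519 c5524 c5209 c5313 c785 (k8 c5433 c5317 c5567 c5530 c5528 c5413 c5412 c9734 (k8 c9698 c5488 c5668 c1530 c1969 c1532 c14406 c3617 (k4 c15265 c15636 c5332 c6193 (k2 c1704 c1516 (k1 c420 k0))))))))) (by decide +kernel)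
def c15638 : PP 9 3 T 0x40000221040000000000000000000004000000000000000000000000000000000000000000000000000010000000000000000000000000 := rS 0x1e74b1d24c1235ef26cbcf50ffb5086b3499dfaa9d906622234396dee5c4e885320b36ed008390b8de51b1 (k8 c15633 c5209 c5435 c5433 c5317 c15250 c15614 c5529 (k8 c717 c5530 c5528 c5412 c11323 c10793 c11445 c11253 (k8 c9734 c9728 c9698 c5210 c5489 c5405 c9680 c9742 (k8 c5523 c14584 c14747 c15519 c2335 c15634 c1119 c15637 (k4 c5450 c420 c1516 c3578 (k2 c5332 c448 (k1 c5657 k0))))))) (by decide +kernel)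
def c15639 : PP 9 3 T 0x5000000000028000010040000000000000000000000000000000000014000000100400000000000020000000100000002000000000000000000000000 := rS 0x204de5ab8cf4ad57bf552ab8aacd8e6d3ca67e6b1 (k8 c1198 c15208 c5530 c1577 c5529 c726 c5532 c5414 (k8 c5413 c5489 c5405 c5406 c5490 c5669 c1775 c1200 (k2 c5691 c3623 (k1 c2517 k0)))) (by decide +kernel)
def c15640 : PP 9 3 T 0x400000000040000201040000000000000000040004000000000000000000000000000000000000000000000000000010400000000000000000000000 := rS 0x3dd0269ad59a9bf02c541e36aa7dff0170847d80e56abdfaa9d947557155984cfa071f8f73a09639b768cb6bb10ea60319dcaf28d89700881 (k8 c5380 c15250 c11323 c15633 c5209 c5313 c785 c9754 (k8 c5663 c1576 c5668 c1765 c1755 c15614 c5529 c726 (k8 c312 c15638 c5436 c5318 c8467 c5566 c5564 c5532 (k8 c5414 c5413 c12631 c5210 c5489 c5405 c5406 c5490 (k8 c6008 c5218 c10107 c12679 c5502 c5544 c15291 c15288 (k8 c12668 c5680 c1198 c15639 c5536 c5537 c1199 c15373 (k2 c3623 c5689 (k1 c5508 k0)))))))) (by decide +kernel)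
def c15641 : PP 9 3 T 0x1000000000069000210040000000000000000000000000000000000014000000000400000000000000000000000000000400000000000000000010020 := rS 0x38541e34f9b4266f3e8f6500965980c681 (k8 c5380 c9754 c5663 c1755 c312 c5209 c5436 c5566 (k8 c5565 c5564 c5529 c15291 c12668 c5680 c9214 c15639 k0)) (by decide +kernel)
def c15642 : PP 9 3 T 0x400000000040000201040000000000000000000004000000000000000000000000000000000000000000000000000010400000000000000000000000 := rS 0x5ac0d622421041ff01f6785ea0f0f8ee94d7622b55efd54ec852ab8aacc1a2105a040e373b95e505cce824eac7369e4c1b13181133b4 (k8 c15614 c5530 c15250 c9754 c15633 c5663 c1577 c5529 (k8 c726 c1576 c312 c15638 c11323 c5209 c5313 c785 (k8 c5435 c8467 c5380 c717 c5528 c315 c5532 c5414 (k8 c5413 c9692 c5210 c5489 c5405 c5406 c5490 c5668 (k8 c1765 c15640 c5332 c5517 c5329 c5519 c15597 c5185 (k8 c5502 c5544 c15641 c826 c720 c1932 c1935 c1094 (k1 c3623 k0))))))) (by decide +kernel)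
def c15643 : PP 9 3 T 0x40000201040000000000000000040004000000000000000000000000000000000000000000000000000010400000000000000000000000 := rS 0x37a05f35aac540d6f1a7dff0168847d80e56abdfaa98aacc267d1eca012cb64b8cf5e166f7b649d559e5339d639836263021b76881 (k8 c5380 c15614 c5529 c15250 c9754 c15633 c5663 c726 (k8 c15638 c5530 c1577 c5413 c5412 c5210 c15642 c5495 (k8 c6325 c5669 c1775 c5494 c1755 c312 c5209 c5436 (k8 c5566 c5564 c5532 c5414 c5489 c5405 c5406 c5490 (k8 c6008 c5218 c10107 c5501 c5502 c5544 c15291 c12668 (k8 c15641 c5680 c9422 c1200 c15208 c3623 c10298 c2516 k0)))))) (by decide +kernel)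
def c15644 : PP 9 3 T 0x40000201040000000000000000000004000000000000000000000000000000000000000000000000000010400000000000000000000000 := rS 0x68bcd05ed7a8ee94853d7859acf1ab17bc79639d4c1b231a1cb6f72e275566d4c83443b4020cc72311bca3639d (k8 c15638 c15633 c5209 c5435 c5434 c5317 c8428 c15250 (k8 c15614 c5528 c315 c5530 c5529 c5413 c5412 c11323 (k8 c10793 c11445 c11253 c9754 c5210 c5663 c1576 c726 (k8 c1577 c15642 c5451 c5450 c5453 c5495 c6325 c5669 (k8 c847 c15643 c5332 c5519 c10382 c5672 c2390 c1975 (k1 c3587 k0)))))) (by decide +kernel)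
def c15645 : PP 9 3 T 0x11040000000000000000040004000000000000000000000000000000000000000000000000000010804000000000000000000000 := rS 0x1e199e167b458e9bf60392efd4aaa764ab4c9dcb804649ed3bb4 (k8 c15614 c5412 c1686 c1117 c15250 c11323 c785 c5530 (k8 c5413 c5210 c5489 c5488 c5405 c5404 c6008 c5218 (k8 c10735 c794 c5501 c5543 c8772 c3617 c5669 c2386 k0))) (by decide +kernel)
def c15646 : PP 9 3 T 0x28000000000000000000000000000000000000000000000000000000014140000000000000000000200000800000000000000000000000 := rS 0xcd4da5dfa9554a755699 (k8 c5530 c5413 c5412 c5489 c5488 c5405 c5404 c1120 (k2 c1968 c3617 k0)) (by decide +kernel)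
def c15647 : PP 9 3 T 0x8000000000048000210000000000000000000000000000000100000000000000000540180000000014000000000000000000001400000000100014420 := rS 0x27ac9284a91581fd96ad57a5d2a2906c4c268f (k8 c5568 c5564 c5382 c315 c9692 c5488 c5404 c5406 (k8 c5490 c5464 c5577 c3618 c800 c1093 c12647 c12876 (k2 c353 c5651 k0))) (by decide +kernel)
def c15648 : PP 9 3 T 0x400000000048000210000000000000000000000000000000100000014054000000540180000000014000000000000000000001400000000100014620 := rS 0x4b219160626f778d5a6f (k8 c5565 c5490 c15647 c5689 c5813 c5508 c5582 c2862 (k2 c353 c3593 k0)) (by decide +kernel)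
def c15649 : PP 9 3 T 0x1400000000048000210000000000000000000000000000000000000014054000000140180000000014000000000000000200001400100000100014620 := rS 0x25a45c3e36b0d23a0d09a3dc713 (k8 c5382 c2619 c5568 c5564 c315 c12631 c420 c15648 (k4 c5465 c4268 c801 c15375 (k1 c12647 k0))) (by decide +kernel)
def c15650 : PP 9 3 T 0x2001000000000069000211040000000000000000080000000000000000000040000000000100000000000000000000000000a00000000000000000000020 := rS 0x12d22e16578c12e363045aad33a77dfecf79c05a29d06884166d8984d128f1c8dc7a772bca18a97509bd3e7d07925ea47 (k8 c5520 c5519 c5334 c5329 c5566 c1522 c5565 c1121 (k8 c5404 c1629 c5209 c5313 c785 c5436 c5435 c5317 (k8 c5568 c5567 c5564 c5382 c5529 c717 c5528 c315 (k8 c5412 c5501 c5502 c5540 c5543 c5544 c10382 c5668 (k8 c1969 c1532 c15265 c15646 c2619 c15649 c12668 c5680 (k4 c1718 c801 c15375 c12647 k0)))))) (by decide +kernel)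
def c15651 : PP 9 3 T 0x1000000000040000201040000000000000000000004000000000000000000000000000000000000000000000000000010000000000000000000000000 := rS 0x4da4cd609418d7bded33bf553b20c88d0e5b7b970089d5588533b41c85c6ec91d87e945ece95e51b1 (k8 c15633 c5209 c5313 c15638 c15644 c15645 c5517 c5332 (k8 c1117 c5435 c5433 c5317 c15614 c5530 c5528 c5413 (k8 c5412 c15250 c11323 c10793 c11445 c11253 c9734 c9698 (k8 c5210 c5489 c5405 c9680 c15650 c5185 c5450 c9113 (k4 c420 c11575 c1516 c1119 (k1 c3578 k0)))))) (by decide +kernel)
def c15652 : PP 9 3 T 0x1000000000000068000210000000000000000000000000000000100000010000000000000000000000000000002000000000000000000000000040014020 := rS 0x160fff992922ad57bf452ab06884166d09a3e0713 (k8 c5382 c2629 c5568 c5564 c5529 c717 c5528 c315 (k8 c5413 c9692 c5405 c5406 c5490 c850 c12647 c5546 (k2 c2569 c8928 (k1 c14602 k0)))) (by decide +kernel)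
def c15653 : PP 9 3 T 0x40000201040000000000000000000004000000000000000000000000000800000000000000000000000010000000000000000000000000 := rS 0x2449759218988025568a41a0b36c4c268f490e476191185c424580045aad33a77cee89509bd3e7d4220d9cc54396fda9b68b25529555a5d329d66f801e1fda474b804d9126945ece95e51b1 (k8 c15633 c5209 c5313 c15638 c15644 c15645 c5334 c5210 (k8 c15250 c11323 c12631 c15614 c5517 c5329 c15651 c5537 (k8 c5412 c5530 c5404 c5413 c5488 c5489 c1117 c5459 (k8 c5536 c8724 c11445 c11253 c1629 c14406 c2395 c5672 (k8 c5566 c1522 c5565 c1121 c5567 c785 c6325 c5668 (k8 c1969 c1532 c15265 c15652 c3066 c5528 c5433 c9734 (k8 c9698 c5332 c5317 c6193 c5568 c5564 c5382 c5529 (k8 c717 c315 c9692 c5490 c1090 c1753 c1754 c5252 (k4 c5340 c353 c15226 c12647 k0))))))))) (by decide +kernel)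
def c15654 : PP 9 3 T 0x40000201040000000000000000000004000000000000000000000000000000000000000000000000000010000000000000000000000000 := rS 0x6bb2d630008b55a6843a20fdbdf6733536d1f003c3f4a4fa8592c52f674ee57942b55e974aaa764872dc74b8044eaad33b4d89bcfa89 (k8 c5567 c5566 c5565 c15633 c15614 c5530 c5413 c5412 (k8 c15250 c11323 c12631 c11445 c11253 c5210 c5489 c5488 (k8 c5404 c5406 c5490 c5209 c5313 c785 c15638 c15644 (k8 c1629 c1117 c1121 c1522 c15645 c5517 c5329 c15651 (k8 c5459 c5536 c5537 c14406 c6325 c8724 c2395 c5668 (k8 c5672 c1969 c1532 c15265 c15652 c2143 c15653 c2145 (k1 c3618 k0))))))) (by decide +kernel)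
def c15655 : PP 9 3 T 0x41001000000000041000200080000000000000000040004000200000000000040000000001400000050000000100004040050000000000000000000005400 := rS 0xc445b5d9fee1d5646e071c9a4de8904b1cf257 (k8 c5353 c5441 c5357 c5438 c5567 c5565 c9742 c5317 (k8 c5432 c5435 c12891 c3568 c5171 c1647 c5507 c5583 (k2 c14390 c10805 k0))) (by decide +kernel)
def c15656 : PP 9 3 T 0x40000221000000000000000000040004000000000000000000000000000000000000000000000000000010000000000000000000000000 := rS 0x24c2e3b038d58bde94fcdbea1791c15aaf0c9cd1af72e03443133e9fc1e7bf69afc31559a7532f5059b59a844396d52fd63b2cc1b4d8e4a220433ec8d281 (k8 c5380 c9742 c5210 c9680 c15250 c9728 c15654 c15633 (k8 c15614 c14625 c1755 c5357 c5405 c5489 c11445 c11253 (k8 c14584 c2502 c5529 c717 c2335 c5530 c5412 c5532 (k8 c5414 c11748 c5523 c14747 c5372 c5369 c5358 c5566 (k8 c5382 c5528 c315 c11323 c10793 c12629 c9718 c9698 (k8 c5406 c5490 c14603 c5657 c2929 c14125 c14109 c15655 (k8 c5165 c5451 c5450 c821 c448 c1459 c9007 c5648 k0))))))) (by decide +kernel)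
def c15657 : PP 9 3 T 0x80000000000000000000000000000000000000000000200008000000000000000000004000000200000000440000000005400 := rS 0x38e46209639e46657 (k8 c5353 c383 c5441 c5357 c5438 c4153 c2559 c822 (k1 c3568 k0)) (by decide +kernel)
def c15658 : PP 9 3 T 0x40000221000000000000000000000004000000000000000000000000000000000000000000000000000010000000000000000000000000 := rS 0x248701703b159ee06fb8fc529ac8dc774a66983c3ed421acf60f3499dfaa9d906622632e21cb69d8aa65660d1082cdbb4026c503133ea3cbec73c9fcaf92 (k8 c15654 c5353 c5358 c5441 c5357 c5439 c5568 c5566 (k8 c5382 c5380 c15633 c15250 c15614 c5529 c717 c5528 (k8 c315 c5532 c5530 c5414 c5412 c11445 c11253 c11323 (k8 c9754 c9728 c9698 c5210 c5489 c5405 c9680 c9742 (k8 c5369 c5372 c5523 c14584 c14747 c11748 c14625 c2502 (k8 c15656 c5332 c5518 c12110 c13294 c5226 c5466 c5580 (k8 c5864 c15657 c10805 c821 c1459 c11223 c5648 c324 k0))))))) (by decide +kernel)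
def c15659 : PP 9 3 T 0x2000000000000068000000000000000000000100040004000000100000000000000000000800000000000000000000000000000004104000010000400000 := rS 0x2437993f381ac7dc47218984aad4ba55529d55a6566ff (k8 c5544 c5532 c5530 c5413 c5412 c5489 c5488 c5404 (k8 c5490 c1090 c9148 c5252 c2864 c5658 c5506 c5508 (k4 c15208 c1324 c14414 c5660 (k1 c2946 k0)))) (by decide +kernel)
def c15660 : PP 9 3 T 0x2004000000000069000200000000000000000100040004000000100000000000000000100020000000004000000040000010000004024000010000400000 := rS 0x1c540cb22b5fbe81 (k8 c5380 c5451 c1765 c459 c15659 c5680 c2929 c11663 k0) (by decide +kernel)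
def c15661 : PP 9 3 T 0x2000000000000068000000080000000000000100040004000000100000000000000000000810000000000000000100000054000004004000010000400000 := rS 0x69b20886134a5d2a77 (k8 c5356 c5488 c5404 c9742 c1755 c15659 c14285 c2936 (k1 c1325 k0)) (by decide +kernel)
def c15662 : PP 9 3 T 0x2000000000000069000200080000000000000000040004000200100000000000000000000000000000000000000000000050000004000000000000010020 := rS 0x8d02f9ad562491209d96c520357c69fac8f42e071fab55efd548a4466355c556681099f4127f2b9de02ff (k8 c5544 c5502 c5356 c5353 c5358 c5438 c5566 c5564 (k8 c5380 c5532 c5414 c5413 c9754 c9734 c9692 c5489 (k8 c5405 c5406 c5490 c5318 c5432 c5433 c5436 c12891 (k8 c15291 c12823 c15288 c12613 c15660 c15661 c350 c5651 (k4 c10038 c1093 c1095 c15208 (k2 c3623 c5660 (k1 c2350 k0))))))) (by decide +kernel)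
def c15663 : PP 9 3 T 0x2000000000000069000200000000000000000000040004000100100000000000000000000020000000014000000040400010004004000004010001010140 := rS 0x78eb2d5200fc7a920b8d062974084cfbdf (k8 c5451 c5566 c5564 c5380 c5404 c1469 c5653 c1619 (k8 c5648 c1569 c327 c12613 c15288 c9764 c5462 c15660 k0)) (by decide +kernel)
def c15664 : PP 9 3 T 0x8000000000000000000000000000000000000000000000000000000014000000004001100000000000000200000000100000001008080 := rS 0x9b66b246c304bbf52aa9 (k8 c5489 c5488 c5405 c5404 c822 c871 c1915 c1917 (k2 c2328 c3617 k0)) (by decide +kernel)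
def c15665 : PP 9 3 T 0x8000200000000000000000000000000000000000000000000000000000020000000020000000040000010000000000000000000000000 := rS 0x1c5abe357f7dae81 (k8 c5380 c1765 c5451 c5406 c5578 c3000 c2929 c11663 k0) (by decide +kernel)
def c15666 : PP 9 3 T 0x2000000000000069000200000000000000000000040004000100100000000000000000000020000000000000100040440050004000000004010001008140 := rS 0xe28b58890843c208fd3ca14905c6831ef9a55aaf4ba04266f3ea24224b (k8 c12627 c10107 c5567 c5566 c5565 c5564 c5380 c5404 (k8 c5406 c5490 c9742 c5451 c1469 c5653 c1619 c5648 (k8 c15665 c15663 c327 c1602 c12613 c1624 c1570 c1932 (k2 c2774 c6185 (k1 c3602 k0))))) (by decide +kernel)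
def c15667 : PP 9 3 T 0x4000000000041000000080000000000000000000000000100000000000000000000000010000000014050000100000154000000000004000001000000 := rS 0x321266120b2ab077 (k8 c5356 c5226 c5680 c5340 c1755 c1753 c14285 c10198 k0) (by decide +kernel)
def c15668 : PP 9 3 T 0x1000000080000000000000000000000000100000000000000000000000010000000000054000000000154000000000004000001000040 := rS 0x300599277 (k4 c5356 c10198 c5648 c14285 (k1 c1459 k0)) (by decide +kernel)
def c15669 : PP 9 3 T 0x8000000000000000000000000000000000000000000000000000000000000000000000000000000000000000050000000004000001000000000050140 := rS 0x41 (k2 c5462 c15499 k0) (by decide +kernel)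
def c15670 : PP 9 3 T 0x4400000000009000200000000000000000000000004000100000000000000000000000000000000020000000040000010000000010000000001400000 := rS 0x358681d4ab555e71 (k8 c2929 c5406 c3000 c5488 c5486 c11149 c11663 c1763 k0) (by decide +kernel)
def c15671 : PP 9 3 T 0x49000200080000000000000000040004000100101000014000000000000010000404005100000000000054000000000004000001010040 := rS 0x1035ab79c63a58f859ac91af787c4150563c63d56abdfaa94084cfa093f95c2e314925cd295 (k8 c5488 c9742 c5404 c15668 c1565 c55 c5353 c5358 (k8 c5438 c5566 c5564 c5380 c5489 c5405 c5406 c5490 (k8 c1569 c15669 c5226 c15667 c5340 c9764 c15670 c5450 (k8 c5494 c5495 c6325 c1197 c9007 c8999 c495 c1200 (k2 c14614 c3623 k0))))) (by decide +kernel)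
def c15672 : PP 9 3 T 0x40000201000000000000000000040004000000000000000000000000000000000000000000000000000010000000000000000000000000 := rS 0x22884b13891449591e7bc7ed720b4d3c31493140f297fb3e02d11c92c23ec071a4cead57a5d2bb214864e66346c753aab8aa6567b4d8a04266f3ea24127f3b9d46657c9170099d (k8 c15658 c15250 c11323 c15654 c5353 c383 c5440 c5356 (k8 c5358 c5438 c5567 c5566 c5565 c5564 c5380 c15633 (k8 c15614 c5532 c5530 c5414 c5413 c5412 c12631 c12629 (k8 c9754 c9718 c9698 c9692 c5210 c5488 c5404 c5406 (k8 c5490 c9680 c9742 c6008 c5218 c10107 c12627 c393 (k8 c5501 c5502 c5543 c5544 c15662 c15664 c15666 c15668 (k8 c1565 c15671 c2882 c1602 c1605 c2879 c5861 c12613 (k8 c5560 c1570 c2971 c6185 c1093 c5658 c3602 c2774 k0)))))))) (by decide +kernel)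
def c15673 : PP 9 3 T 0x2000000000000008000010000000000000000000000000000000001000000010000000000000000404000000000000000000200000000000000000021420 := rS 0x5ac0d6224212b55efd548a602ff (k8 c5544 c5502 c9692 c5489 c5405 c5406 c5490 c826 (k4 c720 c1932 c1935 c5804 (k1 c3623 k0))) (by decide +kernel)
def c15674 : PP 9 3 T 0x41000200000000000000000000000004000100000000000000000000000020000000014040000040000000004000000004000001010140 := rS 0x567c63f1ea482e341884cfbdf (k8 c5451 c5566 c5564 c1469 c5653 c1619 c5648 c1569 (k4 c327 c15669 c9764 c5226 k0)) (by decide +kernel)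
def c15675 : PP 9 3 T 0x20000000000000080000000000000000000000000800000000000000000000000000000000000000040011000000000000002000000000000000000000a0 := rS 0x136cd6485860977ea5552190fbd5a2cf (k8 c5543 c5501 c5519 c5517 c9698 c5489 c5488 c5405 (k4 c5404 c822 c714 c1915 (k2 c1916 c1066 (k1 c3617 k0)))) (by decide +kernel)
def c15676 : PP 9 3 T 0x49000200000000000000000000000004000100100000000000000000000020000000000000100040040050004000000004010001010140 := rS 0x45ac4e242120f1243f2085c689e18a87be6956abd2e81099bcfa89 (k8 c5567 c5566 c5565 c5564 c5380 c5404 c5406 c5490 (k8 c9742 c5451 c15665 c1469 c15674 c5653 c4203 c1602 (k8 c2879 c5648 c12613 c1570 c1624 c2754 c1093 c2774 (k1 c3602 k0)))) (by decide +kernel)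
def c15677 : PP 9 3 T 0x41000010080000000000000000000000000100000400000000000400000010000000004050400110005154000001400544000001055440 := rS 0x37fe6e148282b1e31e9ffc257049e58e92 (k8 c15668 c5357 c5441 c5438 c5353 c15597 c5358 c1569 (k8 c15669 c5226 c15667 c12876 c9214 c5589 c2948 c10335 k0)) (by decide +kernel)
def c15678 : PP 9 3 T 0x2000000000000049000210080000000000000000080004000000001000000000000000000000000404001100000000001050200000000000000100000020 := rS 0x45109627122892b23cf78fdae4169a79c67a1c8c42e926281e521134ab55e974a8a4327331a363a0d05a062613379f5128f049fcee751995c760f248ddea47 (k8 c5520 c5519 c5518 c5334 c5329 c5332 c5353 c383 (k8 c5440 c5356 c5358 c5438 c5568 c5567 c5566 c5565 (k8 c5564 c5382 c5380 c717 c315 c12631 c12629 c9754 (k8 c9718 c9698 c9692 c5488 c5404 c5406 c5490 c9742 (k8 c15673 c15376 c15675 c15676 c15668 c55 c1565 c324 (k8 c11799 c1775 c15677 c2882 c1602 c1605 c2879 c5861 (k8 c12613 c5560 c1570 c2971 c2754 c1093 c5658 c3602 (k1 c2774 k0)))))))) (by decide +kernel)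
def c15679 : PP 9 3 T 0x1000000000000008000211080000000000000000000000000200001000000010000000000000000404000000004000000000200001400440000000005420 := rS 0x80fbe06ff58a151442689e820c8038e55aaf7eaa45257 (k8 c5353 c9692 c5489 c5405 c5406 c5490 c5317 c5432 (k8 c15378 c15376 c11223 c2133 c826 c825 c848 c1932 (k4 c2780 c1935 c5583 c3069 (k1 c9179 k0)))) (by decide +kernel)
def c15680 : PP 9 3 T 0x1000000000000069000210000000000000000000000004000100000000000010000000000020000000000000000040000050244000000040000040014120 := rS 0x4f09daab125401228471b4da07af0b2d9acf64a4c2c601801943df56abd2e95008a4327346c75560d1082cda818984d1e33 (k8 c383 c5568 c5564 c5382 c5380 c5529 c717 c5528 (k8 c315 c5413 c12631 c12629 c9718 c9698 c9692 c53 (k8 c5488 c5404 c5406 c5490 c5451 c15665 c15676 c822 (k8 c713 c714 c1564 c1915 c1473 c1916 c1755 c14406 (k8 c10805 c5688 c14519 c1775 c1707 c9793 c15652 c12647 (k4 c2143 c3073 c353 c8943 (k1 c1466 k0))))))) (by decide +kernel)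
def c15681 : PP 9 3 T 0x1000000000000069000210080000000000000000000004000100000000000010000000000000000000000000000000000050240001400440000040014020 := rS 0x22884b13891449591e7bc7ed720b4d3ce33d0e462174901d8a6956abd2e9514864e66346c75320d1082cda818984cde7d44a3c127f3b9d46657 (k8 c5353 c383 c5440 c5356 c5358 c5438 c5568 c5567 (k8 c5566 c5565 c5564 c5382 c5380 c5529 c717 c5528 (k8 c315 c5530 c12631 c12629 c9754 c9718 c9698 c9692 (k8 c5488 c5404 c5406 c5490 c9742 c15680 c821 c15668 (k8 c55 c1565 c324 c11799 c1775 c15677 c2882 c1602 (k8 c1605 c2879 c5861 c12613 c5560 c1570 c2971 c2754 (k4 c1093 c5658 c3602 c2774 k0))))))) (by decide +kernel)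
def c15682 : PP 9 3 T 0x40000201000000000000000000000004000000000000000000000000000000000000000000000000000010000000000000000000000000 := rS 0x1a03903a4108928035d96a169fbe06ff58f8848704510ab21094fb48ef51b9241e1f1dd2b3a333a95cfec704e48cead57bf5520114864b8590eec90e5b4eaae2a9959834420b36ed009b1 (k8 c15633 c15250 c15614 c5529 c717 c5528 c315 c5532 (k8 c5530 c5414 c5413 c5412 c11445 c11253 c5210 c5486 (k8 c313 c11323 c9698 c9692 c53 c5489 c5405 c5406 (k8 c5490 c9680 c15654 c5438 c5357 c5358 c5353 c5440 (k8 c383 c15658 c15672 c5332 c5517 c5329 c5334 c5518 (k8 c5519 c5520 c15678 c15679 c15681 c5558 c826 c825 (k8 c719 c720 c5226 c1932 c2780 c1935 c5583 c2938 (k8 c2929 c5464 c5465 c9179 c15478 c3069 c3068 c1564 (k2 c324 c5827 (k1 c9793 k0)))))))))) (by decide +kernel)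
def c15683 : PP 9 3 T 0x2000000000000040000001040000000000000000040004000000000000000000000000000000000000000000000000000010000000000000000000000000 := rS 0x11d02f9ad522b1371c4c1132f83b3aff42c04d26756abdfaa9d91ce22632e21cb60455c5567b4d095e51b1 (k8 c15633 c5209 c5313 c15682 c15614 c5532 c5414 c5413 (k8 c15250 c11445 c11253 c11323 c9754 c9728 c9718 c5210 (k8 c5489 c5405 c5406 c5490 c9680 c9742 c5502 c5541 (k8 c5544 c14584 c6008 c15645 c12622 c5663 c10408 c5666 (k4 c1146 c3038 c1149 c15208 (k2 c3623 c5675 (k1 c10402 k0))))))) (by decide +kernel)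
def c15684 : PP 9 3 T 0x8000000000008000101000000000000000000000000000000000000000008000000100100000004004001400000040000a00004400000000000015400 := rS 0x4989c051413582255aaf4ba551acb6ba85a703 (k8 c2627 c5579 c5578 c5465 c5464 c12629 c5488 c5404 (k8 c5406 c5490 c8361 c3618 c425 c14204 c2143 c859 (k2 c451 c12614 k0))) (by decide +kernel)
def c15685 : PP 9 3 T 0x8000000000048000101000000000000000000000000000000000000000008000000000000000004004001400000240010a00004000000000000015400 := rS 0x389bcf88a6a11eb0c9 (k8 c1117 c5212 c5562 c15684 c1533 c1532 c2979 c2870 (k1 c5666 k0)) (by decide +kernel)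
def c15686 : PP 9 3 T 0x101000000000000000000000000000000000000000008000000000000000000008001500000001010800004400000000000015404 := rS 0x3de8b22400911309a24f870 (k8 c1523 c1522 c2873 c2869 c755 c12614 c451 c450 (k2 c4995 c5582 (k1 c5673 k0))) (by decide +kernel)
def c15687 : PP 9 3 T 0x40000001040000000000000000040004000000000000000000000000000000000000000000000000000010000000000000000000000000 := rS 0x3be756a27de4c962bd4bc8447a47380ff69a4ce977eaa7640339c450e5b46bdd560d1082cdbb4258448f58f1684ee57946c4b804 (k8 c15250 c11323 c15633 c5209 c5313 c785 c15682 c5236 (k8 c5212 c5562 c15516 c12639 c15614 c5529 c717 c5528 (k8 c315 c5413 c10793 c12629 c11445 c11253 c9728 c9718 (k8 c54 c5210 c5489 c5405 c5404 c9680 c9742 c15683 (k8 c9180 c5218 c13457 c5526 c14584 c15634 c2335 c1629 (k4 c1117 c5657 c15686 c15684 (k2 c15685 c5454 (k1 c5668 k0)))))))) (by decide +kernel)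
def c15688 : PP 9 3 T 0x40000000000000028000111000000000000000000000000000000000000000000000200454400000000010000001040000010200000000400000000000220 := rS 0x2c51671892451ec6649ece85e39a34dab3 (k8 c5532 c5529 c12629 c9718 c312 c421 c1684 c1117 (k8 c15646 c2847 c800 c5675 c10427 c858 c14204 c15489 k0)) (by decide +kernel)
def c15689 : PP 9 3 T 0x42000400000000069000111040000000000000000000000000000000000000050000200000010000000000000000000000004200000000404000000000100 := rS 0x1131238a4504c66623cbc353d984e8c956abd2a6d598e46237659ffc4772bca1a2cf (k8 c5543 c5501 c5209 c5313 c785 c5236 c5577 c5464 (k8 c5435 c5434 c5317 c5532 c5529 c5488 c5406 c5490 (k8 c10110 c5668 c1575 c1688 c1526 c5663 c2847 c15359 (k4 c15646 c1967 c800 c10427 (k2 c5675 c8442 (k1 c2605 k0)))))) (by decide +kernel)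
def c15690 : PP 9 3 T 0x2000000000000040000001040000000000000000000004000000000000000000000000000000000000000000000000000010000000000000000000000000 := rS 0x204885aac5166e899c4f4603cb1cbec404e77dfdf7fb3d0b01689a4cead57bf553b239c44c6872da35ee5c55c5567b4198dd02cb6b9fd42d37afcfc2e0258107e47208e650df71f8b623ba50f6b1a1 (k8 c15682 c5212 c5560 c15687 c5332 c15633 c5236 c5466 (k8 c5580 c5209 c5317 c5340 c5562 c5318 c15250 c12639 (k8 c5258 c5460 c14209 c5519 c5579 c5578 c5577 c5465 (k8 c5464 c5463 c5435 c8428 c15614 c5532 c5414 c5413 (k8 c11323 c10793 c12629 c11445 c11253 c9754 c9728 c9718 (k8 c5210 c5489 c5405 c5406 c5490 c9680 c9742 c5501 (k8 c5502 c5541 c5543 c5544 c10382 c14774 c14584 c15688 (k8 c15689 c1630 c838 c1631 c5663 c5669 c10408 c956 (k4 c5666 c2979 c1146 c1149 (k2 c5673 c3623 (k1 c1986 k0))))))))))) (by decide +kernel)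
def c15691 : PP 9 3 T 0x1000021040000000000000000000004000000000000000000000000000000000000000000000000000010000000000400000040000000 := rS 0x68b3c68740433524c962a6cbc843c9acd2674bbf52aa9d906622232e21cb6044eaac4299da0e42f28 (k8 c5209 c5433 c5317 c15614 c5530 c5528 c5413 c5412 (k8 c15250 c11445 c11253 c11323 c9734 c9728 c9698 c5210 (k8 c5489 c5488 c5405 c5404 c9680 c9742 c5523 c5524 (k8 c14584 c15634 c1119 c1629 c1117 c6193 c2503 c1516 (k4 c421 c420 c1530 c1704 (k1 c3617 k0)))))) (by decide +kernel)
def c15692 : PP 9 3 T 0x40000001040000000000000000000004000000000000000000000000000000000000000000000000000010000000000000000000000000 := rS 0xd3bdeecefb7c3f37007c774a6fb4dc63f1cf8a51b125810863d2091eb1a1 (k8 c15682 c5212 c5562 c5340 c5560 c5561 c15250 c12639 (k8 c15633 c5209 c5236 c5317 c5318 c5466 c5579 c5580 (k8 c15687 c5332 c5517 c5258 c14209 c5460 c15690 c15691 (k4 c5191 c5185 c14662 c5450 k0)))) (by decide +kernel)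
def c15693 : PP 9 3 T 0x5000000000000000120000000000000000000040000000000000000000000000400000800000000001000000000001000400000404000000000001020 := rS 0x6f123e71309b84e06f0080ce60b258441e91 (k8 c5374 c5369 c15516 c12639 c717 c9718 c54 c53 (k8 c1144 c8466 c1718 c318 c755 c12233 c12648 c5691 (k1 c2946 k0))) (by decide +kernel)
def c15694 : PP 9 3 T 0x1000000000000000000000000000000000000000000000000001000000000000400000000001400020000000000000000000004404000015540000000 := rS 0x91f2 (k2 c10381 c3584 (k1 c5588 k0)) (by decide +kernel)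
def c15695 : PP 9 3 T 0x1000000000000000000000000000000000000000000000000001000000000000400000000000400020000000000000000000004404000011540000000 := rS 0x16a27 (k2 c2927 c1200 (k1 c15694 k0)) (by decide +kernel)
def c15696 : PP 9 3 T 0x5000000000041000120000000000000000000040000000000000000000000000400000000000000015000000000001000400000004000000000001020 := rS 0x32c8f58 (k4 c5212 c5562 c15693 c5680 k0) (by decide +kernel)
def c15697 : PP 9 3 T 0x49000120080000000000000000040000000200001000000008000000000000000404001000000000001000200000000000000140000020 := rS 0x6aac5101269b2fc4a164b5dc6d01a784749f1b81c7e3956abd2e95149cc460d0592c22252091eb05f3e95c1e7b (k8 c5372 c5369 c5353 c5442 c5439 c5212 c5562 c5340 (k8 c9666 c15516 c12639 c717 c315 c9734 c9718 c9692 (k8 c5488 c5404 c5406 c5490 c5317 c5318 c5432 c5435 (k8 c11582 c11223 c5456 c448 c449 c1773 c1763 c2133 (k8 c15695 c15696 c5464 c5579 c12823 c425 c1982 c2837 (k1 c3618 k0)))))) (by decide +kernel)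
def c15698 : PP 9 3 T 0x40000021000000000000000000040004000000000000000000000000000000000000000000000000000010000000000000000000800000 := rS 0x1ef6b911ffe32433a261368f7daad338310600664a6d2e9501a641a4b0890c7a47ac17cea332b83cf691303358f29793d509ed359a43e0b7ba1cb71154bf4cf92d0ec5666d10c55569dda17009b2 (k8 c5210 c15250 c11323 c15614 c5412 c5413 c5414 c5528 (k8 c5529 c5532 c15633 c15682 c15692 c9680 c5405 c5489 (k8 c9728 c11445 c11253 c10793 c717 c15519 c9742 c5523 (k8 c14747 c14584 c2335 c5657 c15697 c5357 c2502 c14625 (k8 c5374 c5372 c5369 c5353 c383 c5440 c5439 c5212 (k8 c5562 c5560 c5561 c15516 c12639 c315 c5530 c54 (k8 c5488 c5404 c1066 c1065 c1459 c822 c821 c15592 (k8 c1918 c1475 c5451 c1706 c2869 c755 c3617 c12648 (k4 c14454 c3007 c450 c1770 (k2 c5582 c5689 k0)))))))))) (by decide +kernel)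
def c15699 : PP 9 3 T 0x40000021000000000000000000040004000000000000000000000000000000000000000000000000000010000000000000000000000000 := rS 0x778683a1ca482f2979335ebed0fa10d67b079a4cefd5486622590eec90e5b7b9713aab8aa65660d1082cdbb4026c74209639dceb92 (k8 c15692 c5440 c5356 c5357 c5438 c15682 c15633 c15250 (k8 c15614 c5529 c717 c5528 c315 c5532 c5530 c5414 (k8 c5413 c5412 c11323 c10793 c11445 c11253 c5210 c5486 (k8 c313 c9728 c9698 c5489 c5405 c9680 c9742 c5369 (k8 c5372 c5523 c14584 c15519 c14747 c2335 c2502 c5657 (k8 c15697 c15698 c5648 c324 c11799 c448 c10739 c5450 k0)))))) (by decide +kernel)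
def c15700 : PP 9 3 T 0x2000000000000028000110000000000000000000000000000200000400000000000000000900000000000001000001020000000004410400000000000000 := rS 0x1addf6634fde9b6f2c206b571fc92e9554a75566d4cacda2ff (k8 c5544 c5501 c5532 c5530 c5529 c5413 c5412 c5489 (k8 c5488 c5404 c10427 c13204 c5548 c5550 c15208 c14209 (k4 c1326 c5506 c2085 c8724 (k2 c15342 c12713 (k1 c2191 k0))))) (by decide +kernel)
def c15701 : PP 9 3 T 0x2004000000000069000111080000000000000000000000000200000400000000000000000000000000010000000000000010000000000400000000000060 := rS 0x4db34f4df482011213709c0dec9652b52e95549cd3aab4c92c7a4123d60be093e9e4fe57688fd3e11 (k8 c15516 c11582 c5318 c5501 c5353 c5358 c5441 c5442 (k8 c5438 c5439 c5212 c5562 c5340 c5560 c12639 c5530 (k8 c5413 c5412 c9718 c5489 c5488 c5404 c5490 c5680 (k8 c11623 c1144 c8466 c1718 c318 c2873 c12613 c15700 (k4 c2948 c907 c10210 c1327 (k1 c8724 k0)))))) (by decide +kernel)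
def c15702 : PP 9 3 T 0x2000000000000048000110000000000000000000040000000000001400000000000000000000000400000000000000050010200000000000000000000000 := rS 0x8e817cd6a91589b95301 (k8 c5502 c5489 c5666 c1146 c3038 c1149 c14538 c10401 (k2 c5675 c10402 k0)) (by decide +kernel)
def c15703 : PP 9 3 T 0x2000000000000069000111080000000000000000000000000200000400000000000000000000000000000000100000020010000000000000000000000060 := rS 0x6b331149b5840d6bf248b8c74c965203c69f1fab52e95549cd3aab36a6566111e906b0093e95da2ff0980d427f (k8 c5358 c2929 c54 c2869 c5544 c5501 c5353 c5442 (k8 c5438 c5212 c5340 c5560 c15516 c5532 c5530 c5529 (k8 c5413 c5412 c9718 c5489 c5488 c5404 c5490 c5318 (k8 c11582 c12823 c12613 c5680 c11623 c15701 c1773 c908 (k8 c10427 c5548 c5550 c15208 c1326 c14204 c8724 c857 (k1 c2191 k0)))))) (by decide +kernel)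
def c15704 : PP 9 3 T 0x40000001000000000000000000040004000000000000000000000000000000000000000000000000000010000000000000000000000000 := rS 0x1b330769bf0a4d92caf1a7e52a1099c00ecf688e627ec076755a974aaa764030c9cc468d4eaae2a9959ed362111e906b1a1049f4fe332be48b804 (k8 c15250 c11323 c15692 c5353 c383 c5358 c5442 c5438 (k8 c15682 c5212 c5340 c5560 c15516 c15633 c15614 c5532 (k8 c5530 c5414 c5413 c5412 c12629 c9734 c9718 c9698 (k8 c54 c5210 c5489 c5488 c5404 c5490 c15699 c6008 (k8 c5218 c12622 c393 c5501 c5543 c15664 c15702 c2869 (k8 c2929 c15703 c10691 c15499 c5680 c11623 c1753 c14406 (k4 c9848 c12293 c8724 c5654 (k1 c2330 k0)))))))) (by decide +kernel)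
def c15705 : PP 9 3 T 0x1000000000000000000000000000000000100000000000000000000000040000000000000000005000002004000000440000101005540 := rS 0x24c2e38 (k4 c3568 c1459 c324 c5648 k0) (by decide +kernel)
def c15706 : PP 9 3 T 0x29000020080000000000000000080000000000000000000000000000000000000000000000004000000150200000000000000000000020 := rS 0x136d167b242cc4180199b2930210f6977ea55521988a75569906884166d04b1cf2571d87c1e37 (k8 c5518 c5329 c5517 c5332 c5353 c5441 c5357 c5438 (k8 c5529 c717 c5528 c315 c5530 c5413 c5412 c9728 (k8 c9698 c5489 c5488 c5405 c5404 c5372 c14584 c14625 (k8 c13294 c2502 c15705 c822 c821 c714 c1915 c1473 (k2 c1706 c1066 (k1 c3617 k0)))))) (by decide +kernel)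
def c15707 : PP 9 3 T 0x1000000000040000100000000000000000000000000000000001000000000000000000000000400020000000048040000000004004000010540000000 := rS 0x240dce2388948f58 (k8 c5212 c5562 c9666 c2929 c15695 c5666 c1776 c3038 k0) (by decide +kernel)
def c15708 : PP 9 3 T 0x8000000000000000110080000000000000200000000000200000000000000000000000000000000000000000008000000000005000440000000011000 := rS 0x8f48fce26e00937dc6812091cfa39 (k8 c5317 c5442 c5562 c5340 c5463 c5466 c5580 c12823 (k4 c11685 c956 c14209 c3037 (k2 c2846 c5675 k0))) (by decide +kernel)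
def c15709 : PP 9 3 T 0x41000110080000000000000000000000000200001000000000000000000000000400001100000000001000000001000440000140004020 := rS 0x6f24135134784d267037b2bc6a13d7853e17038fc72290c9cc460d0592c224123d60be09639e4fe57 (k8 c5353 c5358 c5441 c5357 c5438 c5439 c5212 c5562 (k8 c5340 c15516 c12639 c717 c315 c9734 c9718 c9698 (k8 c9692 c5317 c5318 c5432 c5433 c11582 c15597 c3568 (k8 c15707 c15708 c5680 c1144 c8466 c1753 c318 c2874 (k4 c755 c3578 c12876 c1327 (k1 c2948 k0)))))) (by decide +kernel)
def c15710 : PP 9 3 T 0x2004000000000049000111080000000000000000000000000100000000000000000000000000000404015100000008001010000001000000000000005020 := rS 0x6fb31209b89a3d121349b84e06f64b295a974aaa43273059048f582f9fcaed1 (k8 c5501 c5353 c5358 c5439 c5212 c5562 c5340 c717 (k8 c9718 c9698 c5489 c5488 c5404 c5490 c5680 c11623 (k8 c1144 c8466 c1718 c1753 c318 c2873 c2874 c755 (k4 c9848 c12876 c8724 c2948 (k1 c10210 k0))))) (by decide +kernel)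
def c15711 : PP 9 3 T 0x100000000000000000000000000000000000000000000000000000000000000008000000050000000004000010000000000000160 := rS 0x1237864e611 (k4 c15516 c9718 c9698 c2815 (k2 c10691 c318 k0)) (by decide +kernel)
def c15712 : PP 9 3 T 0x6000000000000048000101000000000000000000000000000000001000000000000000000000000400020000100048040010000000000000000000000000 := rS 0x102442d5166e899c5c2a9 (k8 c5489 c3060 c2929 c957 c5666 c2979 c1149 c5673 (k2 c10401 c1986 k0)) (by decide +kernel)
def c15713 : PP 9 3 T 0x6000000000000049000111080000000000000000000000000100001000000000000000000000000404001100000008001010200001000000000000005060 := rS 0x10358a22261240f8942ad57bf55273468447a9f2b9fcfa0920d6202ff (k8 c5544 c5502 c5212 c5340 c5438 c5442 c5358 c5353 (k8 c15711 c5560 c15516 c12629 c9718 c5489 c5405 c5406 (k8 c5490 c15712 c15710 c5463 c15499 c956 c425 c1982 (k2 c1986 c8676 k0)))) (by decide +kernel)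
def c15714 : PP 9 3 T 0x40000001000000000000000000000004000000000000000000000000000000000000000000000004000010000000000000000000000040 := rS 0xc189df1aa4cc2384ba5432630682c12c73c8ccaf29cea1cb65c33ec8d2372483c3e3ba564b43b159a64da218aa776804 (k8 c15250 c15614 c5412 c5414 c5528 c5529 c5530 c5532 (k8 c15633 c15682 c15692 c15704 c5332 c5517 c5329 c5334 (k8 c5518 c9742 c5210 c9680 c11323 c11445 c11253 c15706 (k8 c15709 c5353 c383 c5441 c5357 c5438 c717 c315 (k8 c9754 c9698 c5488 c5404 c11223 c15705 c324 c15579 (k4 c14615 c15668 c5653 c1469 k0)))))) (by decide +kernel)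
def c15715 : PP 9 3 T 0x2000000000000049000111080000000000000000080000000100001000000000000000000000000404001100000008001010200000000000000000001060 := rS 0xf7d601e49 (k4 c5334 c5329 c5212 c14774 (k1 c15713 k0)) (by decide +kernel)
def c15716 : PP 9 3 T 0x1000000080000000000000000000004000100000000000000000000000000000000000054000000000054000000000004000001000040 := rS 0x63df1ab102c69 (k4 c9742 c5648 c15668 c1619 (k2 c5451 c1469 (k1 c5653 k0))) (by decide +kernel)
def c15717 : PP 9 3 T 0x5000000000049000101000000000000000000000000000000001000040000000000004000000404004008000048140010200005000000010540000000 := rS 0x1de6234d08fe80fbd10446b849628b131ba263e38b85aaa056abdfaa946b2c8358 (k8 c5212 c5340 c1753 c12629 c5489 c5405 c5406 c5490 (k8 c5680 c3000 c3060 c2929 c15707 c957 c5666 c326 (k8 c2979 c1146 c2813 c13349 c424 c425 c5582 c3066 (k4 c8676 c2840 c2943 c847 (k2 c5689 c5451 k0))))) (by decide +kernel)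
def c15718 : PP 9 3 T 0x40000001000000000000000000000004000000000000000000000000000000000000000000000000000010000000000000000000000040 := rS 0x700e5fcb180a2089130937d03e24940fdacf3d27fc2ad57a5dfa95548a432731198d560d0592c223d2091eb009639f4f27f3a8ccaf29cea1cb65c33ec8d2372483c3e3ba564b43b159a64da218aa776804 (k8 c15250 c15614 c5412 c5414 c5528 c5529 c5530 c5532 (k8 c15633 c15682 c15692 c15704 c5332 c5517 c5329 c5334 (k8 c5518 c9742 c5210 c9680 c11323 c11445 c11253 c15706 (k8 c15709 c5353 c383 c5440 c5358 c5441 c5442 c5357 (k8 c5438 c5212 c5562 c5340 c5560 c15516 c12639 c717 (k8 c315 c5413 c9754 c9734 c9718 c9698 c9692 c5489 (k8 c5488 c5405 c5404 c5406 c5490 c15597 c15711 c15714 (k8 c1649 c15715 c11700 c15716 c15717 c5463 c5580 c15499 (k8 c956 c424 c425 c3066 c1982 c8676 c324 c11685 (k1 c4842 k0)))))))))) (by decide +kernel)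
def c15719 : PP 9 3 T 0x40000001000000000000000000000004000000000000000000000000000000000000000000000000000010000000000000000000000000 := rS 0x9068786268f09f7d9ecd64fb4e0c418019ea372483e94752fe488f58d0ec806192d9713aab4cacc1a21059b76804 (k8 c15250 c15614 c5529 c717 c5528 c315 c5532 c5530 (k8 c5413 c5412 c11323 c11445 c9698 c54 c5210 c15682 (k8 c5212 c5562 c15692 c5439 c5440 c15704 c5329 c5334 (k8 c5518 c5519 c15718 c822 c821 c15592 c15675 c1915 (k8 c1916 c1473 c5451 c2869 c2874 c755 c14406 c5688 (k2 c12876 c9793 k0)))))) (by decide +kernel)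
def c15720 : PP 9 3 T 0x1000000000000000000040004000000000000000000000000000000000000000000000000000010000000000000000000004000 := rS 0x8b44fbe0044791204a4b7a91fda1fd0a111e6b48e71e26933abdfa1d54ec8022939c4446872da363af72e455660d1082cdbb458ad422710989f6c04 (k8 c15250 c15719 c5570 c317 c5571 c719 c5422 c5421 (k8 c15614 c5529 c717 c5528 c315 c5532 c5414 c11323 (k8 c10793 c12631 c12629 c11445 c11253 c9734 c9728 c9718 (k8 c9692 c53 c5210 c5489 c5486 c5405 c5406 c9680 (k8 c9742 c9695 c6008 c13457 c5523 c5526 c14584 c8114 (k8 c15519 c14747 c13598 c2335 c12639 c12632 c3584 c5657 (k4 c10428 c451 c5582 c2833 (k2 c3068 c5673 k0)))))))) (by decide +kernel)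
def c15721 : PP 9 3 T 0x1000000000000000000080004000000000000000000000000000000000000000000000000000010000000000000000000000000 := rS 0x41fb50af2811284a4421fbd159d449be27a0ac91cd26756abf642939c4446872da363a5c06884166dda2c422710989f6c04 (k8 c15250 c15719 c5570 c317 c5571 c719 c5421 c15614 (k8 c5529 c717 c5528 c315 c11323 c12631 c12629 c11445 (k8 c11253 c9734 c9728 c9718 c9692 c5210 c5406 c5490 (k8 c9680 c9742 c5520 c9399 c12635 c12633 c5565 c5567 (k8 c8114 c3602 c5583 c2774 c5658 c2968 c9048 c461 (k4 c460 c2629 c5540 c2390 (k1 c5672 k0))))))) (by decide +kernel)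
def c15722 : PP 9 3 T 0x201040000000000000000000004000000000000000000000000000000000000000000000000000010000000000000000000000000 := rS 0x1ec74e224102b27f3c980125f1e8fcaf28d89f502634c844e21313e7497f358acc8f02db407d80ea5eca2bb48e9700e04 (k8 c15250 c8467 c11323 c12631 c15614 c5414 c5210 c15721 (k8 c15720 c9180 c5502 c15719 c6986 c2350 c5532 c5421 (k8 c14538 c12627 c5369 c5570 c317 c5571 c719 c5530 (k8 c9754 c5380 c5566 c15621 c5209 c5313 c5318 c5436 (k8 c15645 c312 c5663 c1577 c728 c9764 c12613 c5660 (k4 c512 c511 c1775 c10869 k0)))))) (by decide +kernel)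
def c15723 : PP 9 3 T 0x1040000000000000000000004000000000000000000000000000000000000000000000000000010000000000000000000000000 := rS 0x78d007d3f980125f1f95e50411eec5215812e840e0131a7c22710989f3b13f9ac5668f816da03ec0752f6515da234b804 (k8 c15250 c11323 c12629 c15614 c5414 c5210 c15721 c15720 (k8 c9180 c5502 c15719 c6986 c2406 c5532 c5421 c14538 (k8 c12622 c5369 c5570 c317 c5571 c719 c5572 c9754 (k8 c53 c8467 c15722 c12632 c12617 c5675 c15507 c5560 (k8 c5340 c5209 c5313 c5318 c15645 c312 c5663 c10398 (k4 c1579 c12613 c12668 c9822 k0)))))) (by decide +kernel)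
def c15724 : PP 9 3 T 0x46000000000000000000200080000000000000000040004000200100000000000000000000000001105001150000000000000000004440000000000050040 := rS 0x136cd64b7dc4d62212081591e8fda2093e9fcae81 (k8 c5380 c5353 c5358 c5442 c5438 c5501 c5318 c5436 (k8 c12891 c12613 c5660 c5658 c459 c512 c12864 c2189 (k2 c2192 c2621 (k1 c8724 k0)))) (by decide +kernel)
def c15725 : PP 9 3 T 0x46000000000000000000200080000000000000000040004000000100000000000000000000400001105005150000000010054000004440004004001050040 := rS 0xfc7a41494a76281049f4fe57 (k8 c5353 c5358 c5442 c5438 c5380 c12830 c15724 c15716 (k4 c10205 c1569 c326 c12613 k0)) (by decide +kernel)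
def c15726 : PP 9 3 T 0x1000000000000000000000004000000000000000000000000000000000000000000000000000010000000000000000000000000 := rS 0x93948f902df37ec47a41452404ba1038e466573f9f4139221a251e47f9c0bdecf80b47d91325e741d4b098456ab113b2d3e71db2cd331555a77691d46970c6730c80408674ba5553b2 (k8 c5210 c5489 c5488 c5404 c9680 c15250 c53 c9698 (k8 c9718 c9754 c11323 c12629 c12631 c15614 c5412 c5413 (k8 c5414 c5530 c5532 c15719 c5571 c5572 c5420 c5570 (k8 c5421 c5422 c719 c317 c15721 c15720 c5369 c12627 (k8 c12622 c9180 c5501 c5502 c5543 c13184 c6986 c14538 (k8 c2350 c2406 c1986 c1936 c15723 c5438 c5442 c5358 (k8 c5353 c383 c393 c15664 c15725 c12632 c5675 c5673 (k8 c12636 c12640 c15507 c3038 c2948 c14587 c12613 c5318 (k2 c326 c15716 k0))))))))) (by decide +kernel)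
def c15727 : PP 9 3 T 0x2000000000000012000201040000000000000200040004000200002000000000000000000000000000001000000000000000000000000000000000000210 := rS 0x4559c147e3631c40482f96006c41300198cb34a5d2b1f39a064e13379f71a193d9e47e171eeb526a34fa94c69b30a64eec97baada30779c17de8546a0d53b288c4d1301439acc8ff479c5239c6fa844a55088a48253 (k8 c5563 c5340 c5339 c5558 c5343 c5559 c5398 c2950 (k8 c5211 c5374 c3048 c5568 c5544 c15726 c9672 c2114 (k8 c5502 c5567 c5382 c9727 c5210 c5489 c8722 c5381 (k8 c5541 c8783 c5545 c5540 c5503 c5501 c5500 c5498 (k8 c5396 c2053 c5447 c5445 c5397 c5395 c5399 c5448 (k8 c5449 c5444 c5437 c5436 c5433 c5318 c5524 c5372 (k8 c6205 c5569 c5566 c5565 c5564 c5383 c5380 c5379 (k8 c9713 c5488 c5404 c9742 c1292 c8724 c13648 c3579 (k8 c8354 c28 c1057 c1054 c3046 c3047 c838 c3598 (k4 c3599 c665 c14687 c840 (k1 c14692 k0))))))))))) (by decide +kernel)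
def c15728 : PP 9 3 T 0x600000000000001a000200000000400000400000040000000200040000000000000000000020000000000000000080000000000000000000000200000800 := rS 0x10a8c3e21ff78bc25f78b92fd349b94544e4e8fc6a0cd6a988a46f789ce01f5aa35298cc2ab83a160a030697c0017 (k8 c5433 c2417 c1054 c9673 c265 c5545 c5541 c5503 (k8 c5500 c5445 c5395 c5399 c5449 c5437 c5432 c5211 (k8 c5527 c5375 c5374 c9727 c5489 c9672 c8722 c5569 (k8 c5568 c5383 c5382 c840 c14694 c5213 c5232 c5391 (k8 c5390 c5609 c5556 c5635 c10602 c3119 c5274 c3616 (k2 c14695 c3403 k0)))))) (by decide +kernel)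
def c15729 : PP 9 3 T 0x400400000000000a000000000000000000000200040000000200002000000001000000000000000004002000000000000000000000000000000101000000 := rS 0x1df69b5c681b1109d2e1d1f85c623d49a7d42c9128a4831d (k8 c5341 c5340 c5339 c5559 c5396 c5398 c5448 c5444 (k8 c5436 c5434 c5433 c5318 c5486 c5404 c3047 c5855 (k4 c1260 c9240 c14269 c14403 (k2 c5450 c14487 k0)))) (by decide +kernel)
def c15730 : PP 9 3 T 0x2200000000000020a000000000000000000000000000000000000000000000000010010000000040000000000000000000000000000000000000000000000 := rS 0x1cee5faf95b0b86dc27079152c1e0be167b4556994dbf52a9754b270eb7 (k8 c5616 c5429 c5396 c5489 c5404 c5488 c5405 c5397 (k8 c5447 c5500 c5501 c5543 c8772 c5545 c5503 c5399 (k8 c5491 c5407 c5514 c5627 c3624 c15008 c6804 c5632 (k2 c3348 c3434 (k1 c5692 k0))))) (by decide +kernel)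
def c15731 : PP 9 3 T 0x2000000000000202000001000000000000400000000004000000000000000000000010000000040000002000000000000000020000000000000008000000 := rS 0x6be8efb90e93e36f74e1d4fb2 (k8 c5210 c5428 c5429 c1826 c2215 c15730 c5220 c5606 (k4 c5609 c286 c1951 c5659 k0)) (by decide +kernel)
def c15732 : PP 9 3 T 0x2000000000000012000201000000000000400000040004000000040000000000000010000000040000002000080000000000020000000000000008000000 := rS 0x10a8c3e21ff78bc25f78b92fd349b993e36f78983c17de8546a47388354eca231344c050e6b323fd1f7f (k8 c4562 c5568 c5544 c15726 c9672 c2114 c5502 c5567 (k8 c5382 c9727 c5210 c5489 c8722 c5211 c5374 c5381 (k8 c5541 c8783 c5545 c5503 c5527 c5375 c5569 c5383 (k8 c15731 c5213 c5232 c5391 c5390 c5609 c5556 c5635 (k4 c10602 c3119 c5274 c3616 (k2 c14695 c3403 k0)))))) (by decide +kernel)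
def c15733 : PP 9 3 T 0x2000000000000002000200000000000000800200000000000200400100000010000000000000000000000000000400000120000000000000000201000002 := rS 0x4268e4f7d3e5737cc0ddf73a526ebc57ab49a8d4af783bce0a550894c5e58 (k8 c1057 c9707 c5563 c5558 c5343 c5545 c5540 c5503 (k8 c5498 c5399 c5449 c5444 c5600 c5601 c5603 c5604 (k8 c9413 c14686 c669 c1062 c5667 c1299 c862 c1367 (k4 c347 c287 c1992 c8896 k0)))) (by decide +kernel)
def c15734 : PP 9 3 T 0x2000000000000012000201000000000000400000040004000000040000000000000000000020040000002000000080000000020000000000000008000200 := rS 0x114dd (k2 c4326 c840 (k1 c15732 k0)) (by decide +kernel)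
def c15735 : PP 9 3 T 0x2000000000000012000201040000000000000200040004000200042000000000000000000000000000000000000080000000000000000000000000000210 := rS 0x3a0d58b672c06801df01bd440bb650edc5e3789a63e191983472311b9ddeef3f7a151a91ce20e231344c050e6b323fd1fe167b4556994dbf52a9754ec993f36fa84829c (k8 c15727 c5340 c5398 c2950 c5590 c5396 c5210 c5489 (k8 c5404 c5488 c5405 c5397 c5447 c5500 c5501 c5543 (k8 c8772 c5568 c5544 c15726 c9672 c2114 c5502 c5567 (k8 c5382 c9727 c8722 c5211 c5374 c5381 c5541 c8783 (k8 c5540 c5498 c2053 c5435 c5434 c5317 c9673 c8428 (k8 c6205 c9713 c9742 c9695 c5577 c10493 c1773 c1777 (k8 c4132 c15729 c2420 c265 c9979 c5642 c1056 c1057 (k4 c15733 c15734 c281 c5668 (k1 c15356 k0))))))))) (by decide +kernel)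
def c15736 : PP 9 3 T 0x2000000000000012000201000000000000400000040004000000040000000000000010000000040000002000000000000000020000000000000008000000 := rS 0x42a30f887fde2f097de2e4b02fa69117b993e36f78983c17de8546a47388354eca231344c050e6b323fd1f7f (k8 c4562 c5568 c5544 c15726 c9672 c2114 c5502 c5567 (k8 c5382 c9727 c5210 c5489 c8722 c5211 c5374 c5381 (k8 c5541 c8783 c5545 c5503 c5527 c5375 c5569 c5383 (k8 c15731 c15732 c5213 c5232 c3613 c5391 c5390 c5609 (k8 c5556 c5635 c10602 c2254 c5274 c3616 c14695 c3403 k0))))) (by decide +kernel)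
def c15737 : PP 9 3 T 0x2000000000000012000201040000000000000200040004000200042000000000000000000000000000000000000000000000000000000000000200000210 := rS 0xe83562b7176cab397cb01a0077c76037a9a63e73409bcfa1919835066b54eca22390b8c46e934fa84c6613bb24c8f768bcd9e7148e71387f (k8 c15735 c15727 c5211 c5374 c3048 c5543 c5540 c5501 (k8 c5498 c15726 c5396 c2053 c5445 c5395 c5398 c5448 (k8 c5444 c5435 c5434 c5433 c5317 c9727 c5210 c5489 (k8 c9672 c8722 c9673 c8428 c6205 c5566 c5565 c5380 (k8 c5379 c9713 c9742 c2420 c265 c340 c9979 c5642 (k8 c1056 c1057 c1054 c15733 c3599 c4132 c15736 c4326 (k2 c281 c5668 (k1 c15356 k0)))))))) (by decide +kernel)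
def c15738 : PP 9 3 T 0x2000000000000052000201040000000000000000040004000200002000000000000000000000000400000000000000000000000000000000000000000210 := rS 0xcaf109c429c208a44b588dfcde2191f85c7a934fa8557ef42a35239c41aa7651189a26028735991fe8f (k8 c5568 c5544 c15726 c9672 c2114 c5502 c5567 c5382 (k8 c9727 c5210 c5489 c8722 c5211 c5374 c5381 c5541 (k8 c8783 c5500 c5398 c5448 c5444 c5436 c5433 c5318 (k8 c6205 c9695 c5590 c5267 c5231 c5559 c5339 c5340 (k4 c15727 c15737 c3047 c15729 (k2 c3579 c5464 k0)))))) (by decide +kernel)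
def c15739 : PP 9 3 T 0x2000000000000058000201040000000000000200000000000000001100000000000000000100000400001500000005400405000000000000000000000200 := rS 0x4981fc96a457a9b18e582fb1198974ac4c268354bdd56d180bcd0aff21c749647 (k8 c5562 c5342 c5341 c5561 c5544 c5541 c5540 c5502 (k8 c5501 c5500 c5498 c5489 c8722 c5564 c5382 c5488 (k8 c5404 c8724 c8354 c1629 c1628 c838 c3598 c1947 (k4 c284 c2610 c5685 c5550 (k2 c5588 c3593 k0))))) (by decide +kernel)
def c15740 : PP 9 3 T 0x2000000000000052000201040000000000000200040004000000001000000000000000000000000400000000000000000000100000000000000000400200 := rS 0x115ea582da289303f92d43e9c2392e3a29218462613419ad53b2889ecf39c31a6cc2993bb24c8f780bcd0aff (k8 c5544 c5541 c5540 c5502 c5498 c15726 c5396 c2053 (k8 c5447 c5445 c5397 c5395 c5211 c5524 c5372 c9727 (k8 c5210 c5489 c9672 c8722 c5564 c5382 c5558 c5561 (k8 c5339 c5341 c5342 c5562 c15739 c1082 c11945 c5685 (k8 c5550 c5588 c12913 c685 c5644 c1947 c284 c3593 k0))))) (by decide +kernel)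
def c15741 : PP 9 3 T 0x86000000000000008000221040000000000000000000000000000000000000000000000040100000000001500000400400000000000000000000000000000 := rS 0xfec76fb5d89df6625d2aa940c4cfaab68a15ff03 (k8 c5550 c5544 c5541 c5501 c5500 c5566 c5382 c5380 (k8 c5489 c5488 c5404 c8724 c15342 c8354 c2191 c12713 (k2 c838 c841 (k1 c14109 k0)))) (by decide +kernel)
def c15742 : PP 9 3 T 0x2000000000000000000000000000000000000000000000000200000000000000000000001010000001000004000000000020000000000004000200001010 := rS 0x59000d076037a8e462377bb45e6cf (k8 c5543 c5540 c5501 c5498 c5435 c5434 c5317 c2420 (k4 c265 c340 c3587 c5642 (k2 c281 c1057 k0))) (by decide +kernel)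
def c15743 : PP 9 3 T 0x2000000000000012000001040000000000000000040004000200000000000000000000000010000000002000000000000000000000000000000000000010 := rS 0xb25b1a06c442166bc52e1d2e864660d419ad53b28885c62933bb24c8ab (k8 c5500 c15726 c5396 c2053 c5444 c5434 c5433 c9727 (k8 c5210 c5489 c9672 c8722 c9673 c8428 c6205 c14849 (k8 c5486 c5404 c9695 c8354 c15742 c5855 c1260 c9240 (k2 c1892 c281 (k1 c5644 k0))))) (by decide +kernel)
def c15744 : PP 9 3 T 0x2000000000000052000201040000000000000000040004000200000000000000000000000000000400000000000000000000000000000000000000000210 := rS 0x1be7f63b5fbec44e34d60e171fcab3152ea04fa7b3c85d36993bb2557ef42a35239c41aa7651189a26028735991fe8f (k8 c5568 c5544 c15726 c9672 c2114 c5502 c5567 c5382 (k8 c9727 c5210 c5489 c8722 c5211 c5374 c5381 c5541 (k8 c8783 c5500 c5396 c2053 c5447 c5397 c5433 c5524 (k8 c5372 c5566 c5380 c14849 c15738 c15740 c5231 c5549 (k8 c5591 c14396 c2085 c15741 c15743 c5451 c4292 c838 (k2 c841 c12713 (k1 c3610 k0))))))) (by decide +kernel)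
def c15745 : PP 9 3 T 0x800000000000000000000000002000000000000040010 := rS 0x18044c22 (k4 c2895 c2894 c9731 c267 (k1 c5642 k0)) (by decide +kernel)
def c15746 : PP 9 3 T 0x2000000000000000000001000000000000000200000004000000000000040000000000000000000000000000080400000000100001000000000000040000 := rS 0x457a960b64725c7422f780bcdfe43 (k8 c2775 c5544 c5540 c5502 c5498 c5558 c5341 c5342 (k4 c5562 c685 c5644 c1947 (k2 c284 c3593 k0))) (by decide +kernel)
def c15747 : PP 9 3 T 0x4000000000000000000000000000000000000100000004000000000000000000000000080000000000000000000000000000000000044004000000000000 := rS 0x8b1d (k2 c2081 c2936 (k1 c5658 k0)) (by decide +kernel)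
def c15748 : PP 9 3 T 0x2000000000000052000201040000000000000000040004000200000000000000000000000000000000000000000000000000000000000000000000000210 := rS 0x37cfec76bf7d889c69fcab24921a29c6e181ac8ba81099f4667b3c8fd3e9b4c9dd93ef42a35239c41aa7651189a26028735991fe8f (k8 c5568 c5544 c15726 c9672 c2114 c5502 c5567 c5382 (k8 c9727 c5210 c5489 c8722 c5211 c5374 c5381 c5541 (k8 c8783 c5396 c2053 c5447 c5397 c5448 c5318 c5524 (k8 c5372 c8428 c5566 c5564 c5380 c14849 c15744 c2460 (k8 c2898 c2458 c3613 c2775 c15745 c15746 c5231 c15747 (k8 c15741 c15743 c5451 c4292 c838 c841 c12713 c3610 k0)))))) (by decide +kernel)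
def c15749 : PP 9 3 T 0x2000000000000052000201040000000000000200040004000200000000000000000000000000000400001000000000000000000000000000000000000010 := rS 0x2ace200008e361af9bd43e4558960d97f6935d8e5b2fb13becc789a55a970ea563e5d409bc327b3c98d36614caada3ef42a35239c41aa7651189a26028735bfd1e43149fbc6133eb54223d1f9dd92640395c131d (k8 c5341 c15748 c5313 c5432 c15726 c5396 c2053 c5318 (k8 c5436 c5558 c15288 c5566 c5564 c12668 c9764 c5339 (k8 c5561 c5568 c5544 c9672 c2114 c5502 c5567 c5382 (k8 c9727 c5210 c5489 c8722 c5211 c5374 c5381 c5541 (k8 c8783 c5501 c5500 c5447 c5445 c5397 c5395 c5524 (k8 c5372 c6205 c5565 c5380 c14849 c9713 c5488 c5486 (k8 c5404 c5490 c9742 c9695 c8724 c15342 c8354 c1629 (k8 c681 c838 c1765 c841 c3957 c3598 c5644 c15326 (k8 c2936 c2316 c1947 c14538 c9423 c5267 c1261 c1944 (k4 c5650 c15733 c665 c15728 k0)))))))))) (by decide +kernel)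
def c15750 : PP 9 3 T 0x2000000000000052000201040000000000000200040004000200000000000000000000000000000400000000000000000000000000000000000000000010 := rS 0x15671000237140d7cdea4558962fed26b96fbeb562271e269568763e0f2ea04de1949bdd56d179b3fde8546a0d53b288c4d1301439adfe8f218a7c6136a844eec932475c27e1e9f4ae09038fd239c (k8 c5211 c5374 c5318 c5432 c15748 c5313 c5566 c5436 (k8 c9764 c3058 c5341 c15726 c5396 c2053 c5558 c15288 (k8 c5564 c12668 c5339 c5561 c5568 c5544 c9672 c2114 (k8 c5502 c5567 c5382 c9727 c5210 c5489 c8722 c5381 (k8 c5541 c8783 c5543 c5540 c5501 c5500 c5498 c5444 (k8 c6205 c5565 c5380 c14849 c9739 c9713 c5486 c5490 (k8 c9742 c9695 c15749 c15743 c1343 c5451 c681 c1765 (k8 c841 c3957 c5644 c15326 c2936 c1947 c14538 c9423 (k4 c5685 c5267 c1944 c15729 (k2 c15733 c15251 (k1 c15728 k0))))))))))) (by decide +kernel)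
def c15751 : PP 9 3 T 0x2000000000000052000201040000000000000200040004000200000000000000000000000000000000000000000000000000000000000000000000000010 := rS 0x1144981ac8ba8d8984d128f41aa76511439acc891ce4050aff (k8 c5544 c5541 c5502 c5211 c5374 c15726 c9672 c2114 (k8 c9727 c5210 c5489 c8722 c5568 c5567 c5564 c5382 (k4 c5381 c14849 c15750 c2460 (k2 c15745 c3613 (k1 c15746 k0))))) (by decide +kernel)
def c15752 : PP 9 3 T 0x2000000000000052000201040000000000000000040004000200000000000000000000000000000000000000000000000000000000000000000000000010 := rS 0x1be7f6bb1fbec44e34c868a70b8fe559f7bfd0b012ea051b133ea251e3341aa76511439acf6913ce707e9b4c9dd9264 (k8 c15726 c5396 c2053 c5447 c5397 c5318 c5211 c5524 (k8 c5374 c5372 c9672 c2114 c9727 c5210 c5489 c8722 (k8 c8428 c5568 c5567 c5566 c5382 c5381 c5380 c14849 (k8 c5502 c5541 c5544 c8783 c15751 c5231 c5549 c5591 (k8 c12913 c2775 c15747 c15741 c15743 c5451 c838 c1765 (k2 c841 c12713 (k1 c3610 k0))))))) (by decide +kernel)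
def c15753 : PP 9 3 T 0x45004000000000000000000000000000000000000040004000000000000000000000000000020000000000000000400000000000000000000000000001200 := rS 0x7b0ede6f5f00d0b1df (k8 c5451 c1628 c1627 c5204 c1947 c282 c5456 c5657 (k1 c501 k0)) (by decide +kernel)
def c15754 : PP 9 3 T 0x45000000000000010000000000000000000000200040004000000002000011000000000000000000041015004000000000040000000000000000001040210 := rS 0x79bdc010265bfe3a4b (k8 c5342 c5341 c3010 c1292 c5694 c13648 c2195 c2627 (k1 c14529 k0)) (by decide +kernel)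
def c15755 : PP 9 3 T 0x45000000000000050000001040000000000000200040004000000000000010000000000000100000400015504000080000000000000000000000000040210 := rS 0x6833e04ab7fad22acd6299d5e977ea54320d419ad53b288f8daa7732385239c (k8 c5211 c5374 c3058 c15726 c2053 c2999 c5577 c9727 (k8 c5210 c5489 c9672 c8722 c9673 c6205 c5488 c5405 (k8 c5404 c5406 c9680 c15753 c8354 c15754 c5685 c2572 (k4 c1345 c5694 c8707 c3617 (k1 c2202 k0))))) (by decide +kernel)
def c15756 : PP 9 3 T 0x800000000000000a000201040000000000000200000000000000000000000000000000000410000000000000000000400000000000000000000000000000 := rS 0x3af7da4ad4ba051a7d448448641 (k8 c5340 c5561 c5558 c5567 c5566 c5381 c5380 c5404 (k4 c5490 c8156 c10618 c1969 (k1 c5668 k0))) (by decide +kernel)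
def c15757 : PP 9 3 T 0x41000000000000052000201040000000000000200040004000000000000010000000000000000000400001000000080000000000000000000000000000210 := rS 0x3dde6ab0f2d22aca7ab1434847fa2c8ab1f73c55afd0e9751b13099bd128f41aa76511439ad239c49a7d429b4c9dd9264218a63a4b (k8 c5342 c5341 c5339 c5561 c15726 c5396 c2053 c5447 (k8 c5397 c5398 c5448 c5444 c5211 c5374 c9672 c2114 (k8 c9727 c5210 c5489 c8722 c5568 c5567 c5565 c5564 (k8 c5382 c5381 c14849 c5486 c5405 c5490 c9695 c15755 (k8 c5506 c5582 c5583 c5586 c8783 c9423 c840 c2336 (k8 c15756 c1292 c5685 c11945 c1345 c2532 c2103 c5657 k0)))))) (by decide +kernel)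
def c15758 : PP 9 3 T 0x45000000000000050000000000000000000000200040004000000000000011000000000000000000441015004000000000040000000000000000001040210 := rS 0x7b80de7020f3fd6915358a63a4b (k8 c5342 c5341 c5339 c9672 c15754 c5685 c2572 c11945 (k4 c5694 c2532 c1111 c2195 (k2 c5642 c14529 k0))) (by decide +kernel)
def c15759 : PP 9 3 T 0x2000200000000000000000200000000000000002000000000000000000000000000001001000040000000000000000000000001400210 := rS 0xbc00659c4e681099bcfa934fa84c661 (k8 c5445 c5395 c5398 c5448 c5444 c5566 c5565 c5564 (k4 c5380 c5379 c3048 c1292 (k2 c13648 c3599 (k1 c1054 k0)))) (by decide +kernel)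
def c15760 : PP 9 3 T 0x41000000000000052000201040000000000000200040004000000000000010000000000000000000400001000000000000000000000000000000000400210 := rS 0x1eef35587969157aa1034ff4591606b1f71fde26756abdfa1d2ea36261337a251e1941aa76511439acc891ce24d3ea1218a63a4b (k8 c5342 c5341 c5339 c5561 c5398 c5448 c5444 c5211 (k8 c5374 c15726 c9672 c2114 c9727 c5210 c5489 c8722 (k8 c6205 c5568 c5567 c5565 c5564 c5382 c5381 c14849 (k8 c5486 c5405 c5406 c5490 c9680 c9695 c15757 c15758 (k8 c5506 c5508 c5582 c5583 c5586 c9423 c3613 c2336 (k4 c15759 c5685 c11945 c1345 (k2 c2532 c2103 (k1 c5657 k0)))))))) (by decide +kernel)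
def c15761 : PP 9 3 T 0x1000000000000010000000000000000000000200040004000000002000000010000000000000000000015004000000000020000000000000000011040210 := rS 0x79bdcb0230032c3e0d (k8 c9673 c15434 c1292 c13648 c9731 c1057 c8123 c282 (k1 c5657 k0)) (by decide +kernel)
def c15762 : PP 9 3 T 0x40000000000000052000201040000000000000200040004000200000000000000000000000000000400001000000000000000000000000000000000000210 := rS 0x1a67f6bb546ac571b3fc25866b1800f62280de6df1087969157ac01fa1dd944626130c8cc1a6b3da44f39c1f81c2e311ea4d3ea131a6d327764993da43149063a4b (k8 c5342 c5341 c5340 c5339 c5561 c15752 c15726 c5396 (k8 c2053 c5447 c5397 c5395 c5398 c5448 c5444 c5436 (k8 c5434 c5433 c5432 c5318 c5211 c5524 c5374 c5372 (k8 c9672 c9673 c8428 c6205 c5564 c5382 c9727 c5210 (k8 c5486 c5405 c15760 c1927 c15761 c5685 c11945 c2608 (k8 c2514 c2532 c1111 c3067 c5657 c5642 c10500 c2071 (k8 c1057 c5535 c2561 c2619 c839 c281 c3073 c2146 (k2 c10493 c8433 (k1 c3588 k0))))))))) (by decide +kernel)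
def c15763 : PP 9 3 T 0x1000000000000010000000000000000000000200040004000200002000010000000000000000000401015004000000000000000000000000000011000000 := rS 0x3d5e6f71012046266587c7e171e8945241 (k8 c5340 c5339 c5559 c5436 c5433 c5318 c15434 c1292 (k8 c3579 c486 c3046 c3047 c8123 c451 c2420 c5657 k0)) (by decide +kernel)
def c15764 : PP 9 3 T 0x40004000000000012000000000000000000000200040000000200000400000000000100000000002000001000000000000000000000000000000000000010 := rS 0x18e036f8843d11069acf679ce01c2e634da64524b (k8 c5342 c5339 c5447 c5397 c5395 c5433 c5432 c5211 (k8 c5524 c5372 c9672 c9673 c9727 c11945 c2608 c2514 (k4 c1111 c9140 c5642 c10500 k0))) (by decide +kernel)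
def c15765 : PP 9 3 T 0x40000000000000052000201040000000000000200040004000200000000000000000000000000000400001000000000000000000000000000000000000010 := rS 0x161e4007b92006237a89a00cb0fc516ae1f19f8121d54ec8c913099f43291ce15c7e070b8f5269f50fb44a11218a48247 (k8 c5562 c5340 c5339 c5561 c5558 c5559 c15752 c5398 (k8 c5448 c5444 c5436 c5433 c5432 c5318 c5313 c5211 (k8 c5374 c6205 c5566 c5564 c5382 c15726 c5210 c5489 (k8 c5486 c15762 c9764 c12668 c3058 c15764 c5685 c11939 (k8 c1292 c15763 c3579 c1927 c486 c267 c3046 c8123 (k4 c5642 c5657 c1057 c3645 k0)))))) (by decide +kernel)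
def c15766 : PP 9 3 T 0x80000000000000000000201000000000000000200000004000000000000000020000000000000000000000001004400000000100000000000000000000000 := rS 0x8a2d3fd0a5946c4d128f0891e0701 (k8 c5592 c5550 c5562 c5558 c5568 c5567 c5382 c5381 (k4 c1947 c2336 c2341 c5644 (k2 c3613 c685 k0))) (by decide +kernel)
def c15767 : PP 9 3 T 0x10000000000000000000000000040000000000000000001009000000000000000000000000000000000020000000000000000000000800 := rS 0x19683e23 (k4 c447 c2532 c2531 c6197 (k1 c1893 k0)) (by decide +kernel)
def c15768 : PP 9 3 T 0x200000000000000000000000000000000001100000000000000000000001400000001000000000400000000000000000100010002 := rS 0xe26d39c4cde8f (k4 c5568 c5565 c5382 c5379 (k2 c666 c667 (k1 c3604 k0))) (by decide +kernel)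
def c15769 : PP 9 3 T 0x81000000000000012000201000000000000000200040004000200000000000000000000000000000400000000000000000000000000000000000000000010 := rS 0xd804b0212dbd9e6f50545492b578bf43a0f2ec4c268f06a0d53b288a1cd66448e702247 (k8 c5562 c5558 c5211 c5374 c15726 c9672 c2114 c9727 (k8 c5210 c5489 c8722 c9673 c5568 c5564 c5382 c14849 (k8 c9739 c5486 c5405 c9695 c5548 c5588 c5590 c12876 (k8 c15766 c15767 c5657 c2101 c342 c5644 c15768 c1944 (k1 c14810 k0))))) (by decide +kernel)
def c15770 : PP 9 3 T 0x1000000000000010000201040000000000000200040004000000002000010044000000004000000000014004000000400000000000000001000000000210 := rS 0x19a7571314b4ca4296402f433bf4bb130986506a9d94450e6b321ecf39c (k8 c5211 c5524 c5372 c15726 c9672 c2114 c9727 c5210 (k8 c5489 c8722 c6205 c5564 c5382 c14849 c5405 c9680 (k8 c5657 c14529 c1947 c2336 c13648 c5644 c1628 c1293 (k2 c1894 c8354 (k1 c15064 k0))))) (by decide +kernel)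
def c15771 : PP 9 3 T 0x10000200000000000000000200040000000000000000011009000000000000000000000000000000000020000000000000000000004000 := rS 0xb24c4c268f06a473847 (k8 c5562 c5211 c5374 c9673 c5568 c5564 c5382 c451 (k2 c15767 c12876 k0)) (by decide +kernel)
def c15772 : PP 9 3 T 0xa000000000000000000000000000000000200000000000081000000000000000000002000000000000000000000000000000001000000 := rS 0x1a86c3a310f85d9e97 (k8 c5404 c1650 c5433 c1082 c5434 c5486 c2104 c502 (k1 c9240 k0)) (by decide +kernel)
def c15773 : PP 9 3 T 0x41000000000000010000201040000000000000200040004000200002000010040000000004000000000014004000000400000000000000000000000000010 := rS 0x3318a752d31dc2d142967c67e7a025e6f17e83cbb13099f506a9d94450e6b321ed2279ce15c7e07188f422df (k8 c2950 c5558 c5436 c5434 c5432 c5318 c5313 c5211 (k8 c5524 c5374 c5372 c15726 c9672 c2114 c9727 c5210 (k8 c5489 c8722 c5566 c5564 c5382 c14849 c9739 c5405 (k8 c9695 c15771 c15770 c5657 c9764 c12668 c1947 c2336 (k8 c1925 c3058 c9140 c5644 c1894 c681 c3607 c8354 k0))))) (by decide +kernel)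
def c15774 : PP 9 3 T 0x52000201040000000000000200040004000200000000000000000000000000000400000000000000000000000000000000000000000010 := rS 0x2032c88de4f5803de28b56787d39f378a5f64190685d269f509dd9264f690c524b (k8 c5342 c5339 c5561 c15752 c15726 c5396 c2053 c5398 (k8 c5448 c5444 c5433 c9673 c6205 c5210 c5404 c9695 (k8 c15769 c15765 c1082 c1650 c11945 c5685 c15772 c15773 (k4 c1927 c5657 c447 c282 (k2 c6197 c1057 (k1 c5642 k0)))))) (by decide +kernel)
def c15775 : PP 9 3 T 0x41000000000000000000200000000000000000000000000000000000000050020000000000000000000000001004400000000100000400000000000000000 := rS 0x7bdfe8546c4d128f (k8 c5568 c5567 c5382 c5381 c2336 c2341 c8783 c5694 k0) (by decide +kernel)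
def c15776 : PP 9 3 T 0x12000001000000000000000200000004000200000000000080000000000000000000000000004000000000000000000000000040040010 := rS 0x12c06c445b78877645d (k8 c14849 c5210 c5486 c9695 c2101 c8123 c2104 c5644 (k2 c9731 c14810 k0)) (by decide +kernel)
def c15777 : PP 9 3 T 0x52000201040000000000000200040004000200000000000000000000000000000000000000000000000000000000000000000000000010 := rS 0x1f37a3dde61f81c05644778ab5fa0f2e84d06a9d94450e6b3224739ed (k8 c15752 c5211 c5374 c15726 c9672 c2114 c9727 c5210 (k8 c5489 c8722 c5564 c14849 c9739 c5405 c5490 c9695 (k8 c5562 c15774 c2900 c2460 c2321 c15771 c15776 c5657 (k2 c15766 c15775 k0)))) (by decide +kernel)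
def c15778 : PP 9 3 T 0x1000000000000050000201000000000000000100040004000000000000000044000000000000000000000000000000000000000000000000000000000010 := rS 0x28220944e5a0116402f47899dfa5d099bd06a9d94450e6b3224739f2 (k8 c5231 c5211 c5374 c15726 c9672 c2114 c9727 c5210 (k8 c5489 c8722 c5565 c5564 c14849 c5405 c9680 c9695 (k8 c5657 c14529 c1947 c5642 c5644 c267 c1113 c14422 (k2 c5651 c456 k0)))) (by decide +kernel)
def c15779 : PP 9 3 T 0x10000000000000000000000000040000000000000000001009000000000000000000000000000000000020000000000000000000000010 := rS 0x2032c87c460d (k4 c9673 c447 c2532 c282 (k2 c6197 c1057 (k1 c5642 k0))) (by decide +kernel)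
def c15780 : PP 9 3 T 0x220000000000000000100000004000000000000000080000500000000000000000000000000000000020000144024000000000000 := rS 0x1ef69228fcdf638e99cc440c4cfa8f3da44f2cd (k8 c2071 c5524 c5374 c5372 c5568 c5566 c5382 c5380 (k8 c281 c502 c501 c839 c5851 c3610 c840 c841 (k2 c5583 c15747 k0))) (by decide +kernel)
def c15781 : PP 9 3 T 0x52000201040000000000000000040004000200000000000000000000000000000000000000000000000000000000000000000000000010 := rS 0x75efb4bdcc520c758c26368003c1a1a96086454eb34425b7b405c24971fcab3ed3ba6536c931a4c3a5d889ccde890c8cc1a87359ecf39c79991fbb2788fc0e17 (k8 c5433 c5432 c5318 c9695 c5210 c5405 c15726 c15779 (k8 c5211 c5524 c5372 c9672 c2114 c9673 c8428 c6205 (k8 c5567 c5565 c5379 c9727 c14849 c5486 c5444 c5395 (k8 c5396 c5397 c5447 c2053 c15752 c15777 c5231 c5549 (k8 c5588 c5591 c5592 c15778 c2101 c342 c2071 c15772 (k8 c503 c2107 c5644 c15780 c14275 c2104 c5280 c2316 (k8 c12200 c10500 c351 c349 c839 c5658 c14662 c5496 (k2 c1969 c5668 k0)))))))) (by decide +kernel)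
def c15782 : PP 9 3 T 0x2000000000000011000201040000000000000200040004000000000000000010000000000000000100001000000000000000020000000141000040400050 := rS 0x3566b14c43b3097c400011868ee452dbc4d2ad0e990ba13378cd066b54eca22f76890c531d (k8 c5341 c5339 c5561 c5501 c5498 c9727 c5210 c5489 (k8 c9672 c8722 c8428 c5565 c5564 c14849 c15726 c5486 (k8 c5490 c9742 c9695 c32 c284 c2051 c9423 c1261 (k8 c5280 c5650 c1054 c661 c341 c5663 c837 c8354 (k2 c281 c15359 k0))))) (by decide +kernel)
def c15783 : PP 9 3 T 0x42000000000000050000201040000000000000200040004000200000000000010000000000000000400001000000000000000000000000000000040000010 := rS 0x8834022d16563145a990ba390385c6237d8aac524b (k8 c5342 c5339 c5500 c15781 c5435 c5434 c5433 c5432 (k8 c5317 c14849 c15726 c11945 c5685 c1294 c15782 c5644 (k4 c1893 c1892 c6197 c1261 k0))) (by decide +kernel)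
def c15784 : PP 9 3 T 0x42000000000000050000201040000000000000200040004000200000000000010000000000000000400001000000000000000000000000000000000000010 := rS 0xe3f0b5874d5698d59a74629888a773097cb01a0000c3c69099f51233419ad531179991fbb2788e47e070b8c46e3d7bb459e4320c75bfb1 (k8 c15781 c14805 c5341 c5340 c5561 c5543 c5501 c5498 (k8 c5436 c5435 c5434 c5433 c5432 c5318 c5317 c9695 (k8 c5210 c5405 c15726 c15779 c9727 c5489 c9672 c8722 (k8 c8428 c5567 c5566 c5564 c9742 c15783 c1111 c5642 (k8 c1056 c1057 c1054 c661 c4442 c284 c5663 c837 (k8 c1172 c8354 c281 c1969 c1532 c3587 c3588 c5456 (k2 c1773 c10298 k0))))))) (by decide +kernel)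
def c15785 : PP 9 3 T 0x10000000000000000000000000040000000000000000000000000000000000000004000000000000000020080000000000000000000000 := rS 0x220f868046b (k4 c9672 c1893 c1892 c1111 (k2 c6197 c1260 k0)) (by decide +kernel)
def c15786 : PP 9 3 T 0x42000000000000050000201040000000000000200040004000200000000000000000000000000000400000000000000000000000000000000000000000010 := rS 0xa4c10cb2f788c2a14f98fc29c099f4327bce0f5ea582daacc85d419ad53b288845bfb1 (k8 c15781 c14805 c5558 c9727 c5210 c5489 c9672 c8722 (k8 c14849 c15726 c5500 c15785 c5644 c1947 c5436 c5211 (k8 c5372 c6205 c5566 c5564 c15784 c5458 c1274 c1701 (k8 c1278 c1696 c5198 c5663 c5464 c12668 c1517 c10372 (k1 c13648 k0))))) (by decide +kernel)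
def c15787 : PP 9 3 T 0x200000000000000000000014054000000000000000801000000000000000000000000100000000000040010 := rS 0x930321c749647 (k4 c5562 c5342 c5341 c5561 (k2 c2460 c15745 (k1 c3593 k0))) (by decide +kernel)
def c15788 : PP 9 3 T 0x2000000000000050000201040000000000000200040004000200000000000000000000000000000000000000000000000000000000000000000000000010 := rS 0x12607f25991c971d21bcdfaf17bc05fef5419ad53b288914b05b55990ba13 (k8 c5564 c14849 c15726 c5500 c15785 c5644 c284 c9727 (k8 c5210 c5489 c9672 c8722 c1947 c5544 c5502 c5498 (k8 c9695 c5405 c15779 c5561 c5341 c5342 c5562 c15787 (k4 c15786 c5550 c5588 c3593 k0)))) (by decide +kernel)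
def c15789 : PP 9 3 T 0x1000200040000000000000000000000000200001100000054000000014000001401000001000000000500020000000000004000000002 := rS 0x68c536188e2612f9ce266f4781c2e31 (k8 c5434 c5433 c5432 c5568 c5565 c5382 c5379 c1054 (k4 c661 c668 c5663 c3604 (k2 c837 c14101 (k1 c281 k0)))) (by decide +kernel)
def c15790 : PP 9 3 T 0x220000000000000000000000000000000000000000000000540040020000000000000001000000000000000000000000000000000 := rS 0x7f63a06267d479ed2279 (k8 c5524 c5374 c5372 c5568 c5566 c5382 c5380 c838 (k2 c841 c3610 k0)) (by decide +kernel)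
def c15791 : PP 9 3 T 0x19000221040000000000000000000000000200000000000044000500054000000400001400005400000004020000000004000004000000 := rS 0x1d0bec74c784743566b15bef14b9ecf239188ddea77 (k8 c2051 c1947 c5435 c5434 c5317 c5524 c5372 c5404 (k8 c9695 c13097 c15790 c8354 c281 c3587 c5456 c5679 (k4 c2439 c4172 c3607 c9271 k0))) (by decide +kernel)
def c15792 : PP 9 3 T 0x11000201040000000000000000040004000200001000000040000500054000001404000000001000000000000000000000004000000010 := rS 0x628d0bcc930a4d389b0f884c61b01004d297198350e7b48e71e6fd7885dea582d990ba8335aa76511 (k8 c9727 c5210 c5489 c9672 c8722 c14849 c15726 c15785 (k8 c5644 c1947 c5433 c9695 c5405 c15779 c5211 c5374 (k8 c5372 c2114 c9673 c8428 c5404 c9742 c15789 c5642 (k8 c1944 c9752 c265 c1111 c7393 c15791 c1695 c1696 (k4 c1275 c5663 c14345 c1629 (k1 c281 k0)))))) (by decide +kernel)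
def c15793 : PP 9 3 T 0x2000000000000011000001040000000000000000040000000000000000000000000000000000000000001000000400000100020000000145000040400042 := rS 0x3566b14766210184be237bb45ea77 (k8 c2051 c1947 c5501 c5498 c9731 c1054 c661 c5650 (k4 c5663 c341 c837 c8354 (k2 c281 c15359 k0))) (by decide +kernel)
def c15794 : PP 9 3 T 0x4000000000000000000220000000000000000000000000000000000000004000000500040020000000000000001000000000000000000000000000000000 := rS 0x6f35fbe81 (k4 c5380 c5451 c1765 c15790 (k1 c12713 k0)) (by decide +kernel)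
def c15795 : PP 9 3 T 0x2000000000000011000001040000000000000000040004000200000000000000000000000010000000001000000000000000000000000000000040000010 := rS 0x3a17d8e983186c040134a5d0e7b3ce700e1742a6fc23a1ab3c6239669dc66377bbd4b05b55975066b54c45e6647eec9e2d1 (k8 c5501 c9695 c5210 c5405 c15726 c15779 c9727 c5489 (k8 c9672 c8722 c14849 c5500 c15785 c5644 c1947 c5498 (k8 c5435 c8428 c2051 c8354 c5317 c5434 c5543 c281 (k8 c3587 c5456 c7393 c5541 c5433 c5432 c5211 c5524 (k8 c5372 c2114 c5404 c9742 c15793 c5642 c1944 c9752 (k4 c5679 c2439 c4172 c3607 (k1 c9271 k0))))))) (by decide +kernel)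
def c15796 : PP 9 3 T 0x2000000000000050000201040000000000000000040004000200000000000000000000000000000000000000000000000000000000000000000000000010 := rS 0x1a00a4cbc6131b25383566b143eb213b862ae35ac71a7f221d64ee452c16fdeff67a1602d155bdde21d2ea36261344a3c668354eca228735990f691ce0fc2fb1 (k8 c15781 c5433 c5318 c5211 c5374 c5372 c15726 c9672 (k8 c2114 c9727 c5210 c5489 c8722 c8428 c5568 c5567 (k8 c5564 c5382 c5381 c14849 c5486 c9695 c5498 c5500 (k8 c5501 c5502 c5541 c5543 c5544 c8783 c15785 c5644 (k8 c284 c2051 c15788 c1949 c5231 c15747 c5658 c5548 (k8 c5549 c5590 c5591 c351 c15792 c2322 c15794 c8354 (k8 c281 c15795 c1276 c1274 c1696 c5663 c1517 c10372 (k2 c14345 c1944 k0)))))))) (by decide +kernel)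
def c15797 : PP 9 3 T 0x40000000000000050000201040000000000000200040004000200000000000040000000000000000000000000000000000000000000000000000000000010 := rS 0xd7f138fc2d566f78eed35522d8a7513fbcb4027fc099ed180a14b2017a19d2e5d40a362613379f5128f41aa62287359ed2279ce3ccc8fdd93c40e311bfb422292091dbfb1 (k8 c15781 c14805 c5562 c5340 c5339 c5558 c15796 c5435 (k8 c5434 c5432 c9695 c5210 c5405 c15726 c15779 c5211 (k8 c5524 c5374 c5372 c9672 c2114 c9727 c5489 c8722 (k8 c5568 c5567 c5566 c5565 c5564 c5382 c5381 c5380 (k8 c14849 c5404 c9680 c5657 c14529 c1947 c2336 c15283 (k8 c1925 c2339 c15775 c2341 c5642 c5644 c8783 c267 (k8 c1894 c681 c685 c15785 c4471 c14407 c5668 c8354 (k4 c5454 c8115 c15064 c5198 (k2 c10298 c5287 k0))))))))) (by decide +kernel)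
def c15798 : PP 9 3 T 0x40000000000000050000000000000000000000200000000000000000000010080000000000000000000000000000000000020000000000000000010000002 := rS 0x2d1541e0d08c4a47 (k8 c5562 c5559 c9731 c1056 c8123 c2103 c11939 c1345 k0) (by decide +kernel)
def c15799 : PP 9 3 T 0x40000000000000050000200000000000000000200040000000000000000040001000000000000000410000000000000000020020000000000000010000011 := rS 0x22ab55807c3602379ac86298e92c8a13 (k8 c5564 c284 c5342 c5341 c5339 c5561 c9672 c5565 (k4 c5642 c1944 c1111 c9423 (k2 c11945 c1295 (k1 c5685 k0)))) (by decide +kernel)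
def c15800 : PP 9 3 T 0x40000000000000051000000040000000000000200000000000000000000000080000000000000000010000000000010000120020000105005000010400042 := rS 0x35daa3569a85907462b2d68625507a00612f8684625219063a47 (k8 c5562 c5341 c5340 c5561 c5559 c9731 c1056 c1054 (k8 c661 c15798 c8123 c2103 c5663 c11939 c4102 c837 (k8 c1172 c1171 c4055 c14519 c281 c1532 c4510 c3588 k0))) (by decide +kernel)
def c15801 : PP 9 3 T 0x40000000000000050000201040000000000000200040004000200000000000000000000000000000000000000000000000000000000000000000000000010 := rS 0x648d5266167a658de2f08e9c6d37f7bdc29b24c056ab01107c4e635906c04013b914b1032dbd9bef134ab43bb22ea062613379f51e1919a1cd6643da44f39c1f81c2e311b8f763ed12844862920c749647 (k8 c5562 c5342 c5341 c5340 c5339 c5561 c5558 c5559 (k8 c15796 c15781 c5436 c5435 c5434 c5433 c5432 c5318 (k8 c5211 c5524 c5374 c5372 c15726 c9672 c2114 c8428 (k8 c6205 c5568 c5566 c5565 c5564 c5382 c5380 c14849 (k8 c5210 c5486 c5490 c9742 c9695 c14805 c15797 c2101 (k8 c2195 c5644 c284 c2051 c15800 c5642 c1944 c15799 (k8 c9752 c267 c1111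 c6197 c9423 c203 c2900 c15745 (k8 c2496 c14210 c14401 c5694 c2942 c14855 c5985 c5456 (k8 c5198 c14235 c2439 c2561 c727 c482 c502 c10162 (k1 c14502 k0)))))))))) (by decide +kernel)
def c15802 : PP 9 3 T 0x80000000000000041000220040000000000000000000000000000000000000000000000001020000600000040000000000004000000000000000000000000 := rS 0x37cfecb509818ed72fa06267d (k8 c5566 c5382 c5380 c1629 c1765 c839 c5663 c1198 (k4 c1755 c729 c14125 c14109 k0)) (by decide +kernel)
def c15803 : PP 9 3 T 0x80000000000000019000201040000000000000200000000000200000000000000000000000000000400001400000000400004000000100014004004000000 := rS 0x3ab2cbe98f08e9bef14b95c7e07188f44a432092c8ee3 (k8 c5549 c5562 c5342 c5340 c5561 c5559 c5436 c5434 (k8 c5432 c5318 c5313 c5404 c9695 c13097 c14209 c5456 (k4 c5679 c4172 c4290 c9271 (k1 c14440 k0)))) (by decide +kernel)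
def c15804 : PP 9 3 T 0x50000201040000000000000200040004000200000000000000000000000000000400000000000000000000000000000000000000000010 := rS 0xc949a706ac54dac0441f1398c360200ab52e818984cde7d47864f6791eec4224314c748eb58ac04421d6691492772c16decf5f9247388354c45e6fdd93c7da8735990ba33 (k8 c8428 c14849 c15726 c9672 c2114 c15796 c9695 c5210 (k8 c5405 c15779 c9727 c5489 c8722 c5211 c5374 c15801 (k8 c15766 c5657 c2101 c5644 c2051 c5588 c503 c2071 (k8 c5486 c342 c5592 c5590 c5548 c5562 c5341 c5339 (k8 c5561 c5558 c15781 c5436 c5524 c5372 c6205 c5568 (k8 c5566 c5565 c5564 c5382 c5380 c5404 c5490 c15768 (k8 c5642 c1944 c9752 c267 c1111 c6197 c9423 c7393 (k4 c15802 c281 c15803 c1695 (k2 c1276 c14502 k0))))))))) (by decide +kernel)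
def c15805 : PP 9 3 T 0x80000000000000041000220040000000000000000000000000000000000000000000000001020000200000440000000000004000000000000000000000000 := rS 0x3793c7f65f8d426063b5cbe81899f5c6e1 (k8 c5591 c5549 c5566 c5382 c5380 c1629 c1765 c839 (k8 c5663 c1198 c14235 c1755 c729 c5680 c14109 c2885 k0)) (by decide +kernel)
def c15806 : PP 9 3 T 0x9000201040000000000000200000000000200000000000000000000000000000000000000000000400004400000100014004004000000 := rS 0xca301d5e2974095c7e07188f44a43 (k8 c5561 c5559 c5436 c5434 c5432 c5318 c5313 c5380 (k4 c5404 c9695 c9271 c5663 (k2 c14440 c1755 k0))) (by decide +kernel)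
def c15807 : PP 9 3 T 0x50000201040000000000000200040004000200000000000000000000000000000000000000000000000000000000000000000000000010 := rS 0x325265e1ab14c6025809c021b1126c3eb23b9608acd2dbd9eb0124fc88f1d1490c22ad4b874ba818984cde7d47864668354c450e6b3da44f39c79991fbb2788f763ed (k8 c15796 c15781 c5436 c9695 c5210 c5405 c15726 c15779 (k8 c5211 c5524 c5374 c5372 c9672 c2114 c9727 c5489 (k8 c8722 c8428 c6205 c5568 c5566 c5565 c5564 c5382 (k8 c5380 c14849 c5486 c5404 c5490 c5558 c5561 c5339 (k8 c5341 c5562 c15801 c5588 c5592 c15766 c5657 c2101 (k8 c2071 c503 c5644 c2051 c15804 c2321 c7393 c8123 (k8 c2104 c9731 c485 c9423 c5642 c9752 c15805 c281 (k4 c15806 c1517 c1118 c14502 k0)))))))) (by decide +kernel)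
def c15808 : PP 9 3 T 0x80000000000000051000220040000000000000100000004000200000000000080000000000000000010000000000000000020000000000010000010000002 := rS 0x7b9a64150c75962631078da612f88ce66f1f81c2e2121c048a49 (k8 c5588 c503 c5592 c2107 c342 c5433 c5432 c5318 (k8 c5565 c5379 c9731 c1054 c661 c666 c8123 c5663 (k8 c12200 c4102 c351 c2927 c350 c14519 c5658 c14662 k0))) (by decide +kernel)
def c15809 : PP 9 3 T 0x80000000000000041000220000000000000000000000000000000000000000000000000000000000400010400000000000002000000000000000000000000 := rS 0x37cfec765a06267d (k8 c5566 c5382 c5380 c1755 c727 c729 c14125 c14109 k0) (by decide +kernel)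
def c15810 : PP 9 3 T 0x8000000040000000000000000000000000200000000000001000000000000000000000000000000400001000000000014000004000008 := rS 0x49b242e63 (k4 c9752 c5433 c10162 c262 (k1 c14345 k0)) (by decide +kernel)
def c15811 : PP 9 3 T 0x50000201040000000000000000040004000200000000000000000000000000000000000000000000000000000000000000000000000010 := rS 0x13cdef19fd8ecb3028536280f8944e1b010046a772c114865b80b8492e37b7cab3edd88fd5a1d2ea062613379f43233ce21cd6f3323f764f1 (k8 c9695 c5210 c5405 c15726 c15779 c9672 c2114 c5211 (k8 c8428 c6205 c5566 c5565 c5564 c5382 c5380 c14849 (k8 c5486 c5490 c5318 c15781 c15796 c15807 c5231 c15778 (k8 c5549 c5588 c5591 c5592 c2101 c2107 c503 c5644 (k8 c2051 c15780 c15808 c5642 c1944 c267 c1113 c1111 (k8 c5651 c7393 c1195 c15810 c1755 c727 c729 c14235 (k2 c14109 c5680 (k1 c2885 k0)))))))) (by decide +kernel)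
def c15812 : PP 9 3 T 0x4000100000000005a000000000000000000000200040000000100000000000000000000150000000404000000000000000000000000000040000440000000 := rS 0x1c8ee28205aa4c524b (k8 c5342 c5339 c5444 c11945 c5650 c5685 c340 c15397 (k1 c5654 k0)) (by decide +kernel)
def c15813 : PP 9 3 T 0x4000000000000005a000000000000000000000200040004000100000000000044000000145000000000000000000000000060000000000014000000040012 := rS 0x1acdf718c5683a8a81c3c3759f8538ff80b4556457afb0b02301a5dfa95419ad53113d9e738c94da644a431e9063a47 (k8 c5562 c5341 c5340 c5560 c5561 c5559 c5447 c5397 (k8 c5396 c5211 c5524 c5372 c9727 c5489 c9672 c8722 (k8 c5488 c5405 c5404 c28 c9731 c1057 c14529 c1947 (k8 c284 c5500 c5501 c5502 c5544 c8724 c8772 c15787 (k8 c1480 c15812 c13795 c15434 c8815 c11939 c1946 c1778 (k2 c2514 c8629 (k1 c10298 k0))))))) (by decide +kernel)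
def c15814 : PP 9 3 T 0x40000000000000050000200000000000000000200040004000000000000000045000000000000000011000000000000000020020000000000000010000011 := rS 0x167157fc0556b0f606c8af5099bd071121c756a1f011ac9629 (k8 c5339 c5342 c9672 c5642 c1111 c11945 c5341 c5561 (k8 c9727 c8722 c5565 c5564 c1947 c284 c1944 c5657 (k4 c9423 c5500 c5502 c5544 (k2 c1294 c15787 (k1 c5685 k0))))) (by decide +kernel)
def c15815 : PP 9 3 T 0x40000000000000050000201040000000000000200040004000000000000000040000800000000000000000000000000000000000000000000000000000010 := rS 0x9c0b820e83b899ecf277628e4328559c0a02f40d0883e0223fb5545a2c805a6cd6ab3c6bded84a4661333bcdfa1d56bc5239c43991066b8897553b2 (k8 c5210 c5489 c14849 c9727 c9672 c8722 c15726 c2114 (k8 c5211 c5374 c9695 c5490 c5486 c5405 c15779 c9680 (k8 c5564 c8428 c15811 c5209 c5214 c5450 c5453 c5454 (k8 c5495 c5496 c15813 c15814 c5644 c15785 c5500 c5562 (k8 c5642 c1111 c6197 c1892 c1261 c15283 c15775 c2460 (k8 c684 c6205 c395 c5451 c14727 c5524 c5372 c5382 (k4 c8999 c15064 c1895 c1507 (k2 c15760 c13264 k0))))))))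 (by decide +kernel)
def c15816 : PP 9 3 T 0x40000000000000050000201040000000000000200040004000000000000000040000000000000000000000000000000000000000000000000000000000010 := rS 0xd0f08edac750302596e38a37e0501f6bd1548b42868b4591107cae020099d5a1d2ea051a133ea24323341aa62287359ed239c79991fbb2789dd269f50ec18a3567b559ad3ef4a42247 (k8 c5562 c5558 c15811 c5214 c5496 c5495 c5454 c5453 (k8 c5450 c5451 c5209 c5398 c5448 c5444 c14727 c9695 (k8 c5210 c5405 c15726 c15779 c5211 c5374 c5372 c9672 (k8 c2114 c9727 c5489 c8722 c8428 c6205 c5567 c5566 (k8 c5564 c5381 c5380 c14849 c5486 c5490 c9680 c15813 (k8 c5642 c9757 c1111 c6197 c15814 c5644 c1892 c684 (k8 c685 c15785 c1261 c5500 c15283 c15775 c2516 c2200 (k8 c15815 c1293 c13648 c5643 c1895 c10339 c1674 c8115 (k2 c10298 c1926 k0))))))))) (by decide +kernel)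
def c15817 : PP 9 3 T 0x40000000000000050000000040000000000000200040000000100000000000080000000140000000000000000000000000020020000000014000010040012 := rS 0xefc2e2683587e37040c40e1e8008c0711359ecf39cd810c7a418e8e4ae45 (k8 c284 c367 c397 c5341 c5340 c5560 c5561 c5209 (k8 c5211 c5524 c5372 c9672 c9727 c28 c9731 c15798 (k8 c8123 c13795 c1946 c5643 c1510 c275 c3588 c2145 (k4 c2146 c5459 c8999 c5654 k0)))) (by decide +kernel)
def c15818 : PP 9 3 T 0x40000000000000050000201040000000000000200040004000000000000000000000000000000000000000000000000000000000000000000000000000010 := rS 0x101580883e275906c040122962065b7b3c55aaf0eec8ba818984cfa8f0c8cd0e6b321ed2279ce24d93b01ab55a7de9489422431e8a63a47 (k8 c5562 c5341 c5339 c5560 c5561 c5558 c5559 c15811 (k8 c5214 c5496 c5454 c5450 c5209 c5396 c5444 c5211 (k8 c5524 c5374 c5372 c15726 c9672 c2114 c8428 c6205 (k8 c5568 c5566 c5564 c5382 c5380 c14849 c5210 c5486 (k8 c5406 c5490 c9695 c15816 c2101 c2195 c5644 c284 (k8 c15817 c5642 c5280 c15799 c267 c1111 c6197 c3582 (k2 c2900 c14502 k0))))))) (by decide +kernel)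
def c15819 : PP 9 3 T 0x82000000000000000000201000000000000000200000004000000000000000000000000000000000000000000000400000000100000000000000000000000 := rS 0x116858984e0649 (k4 c5588 c5550 c5564 c5382 (k2 c5541 c15746 (k1 c12913 k0))) (by decide +kernel)
def c15820 : PP 9 3 T 0x10000200000000000000000000000000000000001100000080000000000000001000000001000000000400000000400000000010010002 := rS 0xf2c84621 (k4 c342 c9731 c15768 c8123 (k1 c2321 k0)) (by decide +kernel)
def c15821 : PP 9 3 T 0x50000201040000000000000200040004000000000000000000000000000000000000000000000000000000000000000000000000000010 := rS 0x580883e270d80802582296deded7ac062a495afc88f1d148f4861112ab55e1d2ea0626133ea3c323341aa62287359ed2279ce3ccc8fdd93c526c9d80d7bd29 (k8 c15811 c5214 c5450 c5209 c5396 c5444 c9695 c5210 (k8 c5405 c15726 c15779 c5211 c5524 c5374 c5372 c9672 (k8 c2114 c9727 c5489 c8722 c8428 c6205 c5568 c5566 (k8 c5564 c5382 c5380 c14849 c5486 c5406 c5490 c5559 (k8 c5558 c5561 c5560 c5339 c5341 c5562 c15818 c5548 (k8 c5588 c5590 c5592 c15766 c15819 c5657 c2101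 c503 (k8 c5644 c15820 c5642 c5280 c267 c1111 c6197 c3582 (k1 c14502 k0)))))))) (by decide +kernel)
def c15822 : PP 9 3 T 0x40000200040000000000000100000000000100001100000054000000015000001000002001000000000400020000000014004000001012 := rS 0xb3368847439040c40e37121c44629019ce266f47a4f6057 (k8 c367 c5209 c5444 c5568 c5565 c5382 c5379 c28 (k8 c9693 c9731 c668 c5651 c1480 c15046 c1946 c5643 (k4 c273 c3587 c340 c666 (k2 c2761 c3604 k0)))) (by decide +kernel)
def c15823 : PP 9 3 T 0x50000201040000000000000000040004000000000000000040000000000000000000000000000000000000000000000000000000000010 := rS 0xec2e39030883e1b010047e278e115ea432c7bd149c2dbfd0ad155fb12e1d4a975028d8984cfa8947864660d41aa62287359ed239c79991fbb278a4d929b4cec06acf66f7a52b58ac07e559 (k8 c15821 c5231 c5592 c5590 c5548 c15811 c5214 c5495 (k8 c5453 c5450 c5209 c5447 c5397 c5396 c5444 c9695 (k8 c5210 c5405 c15726 c15779 c5211 c5374 c5372 c9672 (k8 c2114 c9727 c5489 c8722 c9673 c8428 c6205 c5568 (k8 c5567 c5566 c5564 c5382 c5381 c5380 c14849 c5488 (k8 c5486 c5404 c15778 c5500 c5501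 c5541 c5544 c15785 (k8 c8724 c12913 c8783 c5644 c2775 c1947 c284 c5658 (k8 c351 c405 c15822 c5642 c5280 c1111 c6197 c14824 (k4 c395 c14507 c1674 c13264 k0))))))))) (by decide +kernel)
def c15824 : PP 9 3 T 0x80000000000000010000220040000000000000100000004000100000100000080000000140000000000000000000000000400020000000014000010000012 := rS 0x6b7b87e411ec7410311301c3c6d1180ce613379ecf2934fec04243809149257 (k8 c367 c5588 c503 c5592 c2107 c342 c5209 c5448 (k8 c5444 c5524 c5372 c5565 c5564 c5379 c28 c9731 (k8 c666 c8123 c13795 c12200 c1946 c5643 c351 c2860 (k4 c349 c275 c5658 c3588 (k1 c5507 k0))))) (by decide +kernel)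
def c15825 : PP 9 3 T 0x50000201040000000000000000040004000000000000000000000000000000000000000000000000000000000000000000000000000010 := rS 0x1d0fe31f70fc50060f8944e1b01004b05b7afb5edf2acb4daa3564a4fbdb094a1f386b78a5c3a95d9190bb1140a362613379f43233 (k8 c8428 c6205 c5566 c5565 c5564 c5382 c5381 c5380 (k8 c9727 c14849 c15726 c5210 c5488 c5486 c5404 c9695 (k8 c9672 c5211 c2114 c15811 c5209 c5214 c5444 c5396 (k8 c5450 c5454 c5496 c15821 c5231 c15823 c5498 c155 (k8 c2101 c5644 c15824 c5642 c5280 c267 c1113 c1111 (k8 c14824 c5651 c404 c14512 c14506 c677 c5725 c1452 k0)))))) (by decide +kernel)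
def c15826 : PP 9 3 T 0x40001000000000022000200000000000000000200000000000000000100014044000400000000000000000000001001000400420000000020000000004042 := rS 0x387c6ca3fb7da70224bd73a0b3d31daec439a04de7d4e9b532438e92c8e61388448a134fa84c69b (k8 c5397 c5395 c5398 c5448 c5564 c284 c5558 c667 (k8 c661 c5562 c5342 c5341 c5561 c5530 c5529 c5412 (k8 c5566 c5565 c5380 c5379 c281 c1764 c838 c13168 (k8 c10374 c5372 c1948 c10368 c3593 c2088 c2517 c841 (k4 c3599 c5464 c1718 c5691 k0))))) (by decide +kernel)
def c15827 : PP 9 3 T 0x22000220000000000000000000000000000000000000000000000000000000000000000000000001010400400000000000000000000000 := rS 0x1227b (k2 c5372 c5374 (k1 c13493 k0)) (by decide +kernel)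
def c15828 : PP 9 3 T 0x40001400000000022000201040000000000000200040000000200000000014044000000010000000000000000001001400000020000000000000040004002 := rS 0x1200d3d9d18b9d1ab8c746b88864469d10a648239038dce2112f85d269b (k8 c5397 c5444 c5433 c1054 c5558 c667 c5435 c5432 (k8 c5317 c5340 c5530 c5528 c5412 c5409 c6205 c9727 (k8 c1058 c3578 c1773 c15826 c15827 c14029 c5668 c1688 (k2 c290 c13493 (k1 c13457 k0))))) (by decide +kernel)
def c15829 : PP 9 3 T 0x22000200000000000000000000040000000000000000000000000000000000000000000000000001010400400000000000000080014040 := rS 0x7a052473a0d (k4 c2361 c15827 c13457 c5645 (k2 c13493 c690 k0)) (by decide +kernel)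
def c15830 : PP 9 3 T 0x4200000000000002a000201040000000000000200040000000200000000000040000000000000000000000000000000400000020000000000000000004002 := rS 0x387c6ca6f9fdaed371b1205ef3d1d492f56382f3a6a0f1e7c2ccefbfd9e8579c05a2977ea555273409bcfa9d55a64871d2591c0661039c4225f0b914269f5098d929b (k8 c5397 c5396 c5395 c5398 c5448 c5564 c284 c5433 (k8 c1054 c5558 c667 c5432 c661 c28 c5562 c5342 (k8 c5341 c5561 c5530 c5413 c5412 c5566 c5565 c5380 (k8 c5379 c5489 c5488 c5405 c5404 c5501 c5502 c5540 (k8 c5541 c5543 c5544 c10390 c8724 c8772 c2386 c15828 (k8 c15829 c5523 c2306 c2482 c1948 c10368 c1968 c5669 (k8 c8823 c3593 c5668 c1775 c2088 c1765 c841 c12713 (k4 c3599 c5464 c1718 c5691 k0)))))))) (by decide +kernel)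
def c15831 : PP 9 3 T 0x40000000000000022000201040000000000000200040004000200000000000040000000000000000000000000000000000000000000000000000000004002 := rS 0x7935e73dbb238844be173b868b064 (k8 c15726 c1057 c1056 c4442 c5433 c1054 c5558 c667 (k4 c5210 c15830 c5218 c5523 (k2 c5524 c15827 k0))) (by decide +kernel)
def c15832 : PP 9 3 T 0x42000000000000020000201040000000000000200040000000200000000000040000000810010000000020000000000400008060000000004000000004002 := rS 0x837a6707679f0b8934c766ad1be9135834e7135990472311b9c4227b888d7c6e1 (k8 c1720 c5465 c281 c9727 c888 c5558 c667 c5435 (k8 c5434 c5317 c5340 c5532 c5382 c5379 c14607 c1059 (k8 c13457 c14962 c13067 c2192 c9140 c1199 c1200 c5536 (k4 c2383 c1773 c10247 c15359 (k2 c5525 c1947 k0))))) (by decide +kernel)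
def c15833 : PP 9 3 T 0x40000000000000020000201040000000000000200040004000200000000000040000000000000000000000000000000000000000000000000000000004002 := rS 0x1eacf79b3476833c837c19cf6a83c6d6f7b47bed5698d590746298b62453b96cbe612c06806693204cfa8919aac863d20c74723f0385c6237 (k8 c5435 c5434 c5433 c5432 c5318 c5317 c5341 c5340 (k8 c5560 c5561 c5413 c8428 c5567 c5566 c5564 c15726 (k8 c9742 c28 c1056 c1057 c661 c1054 c1893 c4442 (k8 c284 c15831 c5663 c837 c1172 c1171 c281 c1969 (k8 c1532 c5494 c2133 c14662 c3588 c5465 c2190 c15832 (k8 c5218 c5204 c5522 c5524 c5525 c5456 c5537 c282 (k2 c1530 c1947 (k1 c3587 k0)))))))) (by decide +kernel)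
def c15834 : PP 9 3 T 0x28000020000000000000000000000000000000000000000045000000000000000000000000000000000000020000000000000004000008 := rS 0x1ea1f419adfa1d5488d5621 (k8 c5528 c5413 c5409 c5489 c5486 c5405 c5523 c5525 (k2 c1111 c1947 (k1 c3581 k0))) (by decide +kernel)
def c15835 : PP 9 3 T 0x41000210040000000000000200040000000200000000000020000000000000000200000140000000000004020000000020000000000010 := rS 0x1247f65f8c7660f037dc2a12fb1daec4041d41e5d409f51e112092c8e4509a4504791b9ec1407 (k8 c5432 c1948 c690 c5435 c2307 c1947 c10333 c5564 (k8 c284 c5562 c5342 c5340 c5558 c5568 c5566 c5380 (k8 c14849 c9739 c1527 c280 c281 c1764 c2485 c1629 (k8 c1198 c10249 c14796 c5669 c5663 c5456 c10517 c1755 (k2 c729 c1573 (k1 c14410 k0)))))) (by decide +kernel)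
def c15836 : PP 9 3 T 0x9000201040000000000000200000000000200000000000000000000000000000000000000000000400000000000100014000004000008 := rS 0xc05e7898c4e13 (k4 c5564 c267 c9752 c9695 (k2 c15806 c15810 (k1 c62 k0))) (by decide +kernel)
def c15837 : PP 9 3 T 0x2000000000000068000201040000000000000200040000000200000000000040000000000000000200000000000000400000020000000020000000000011 := rS 0x3c63bf037dc291639ecf20a7ae759e8579aa41e7d4788d56214c844824b2381cb7df3a97596813fa85ae4549180bec44bec436137898c0408 (k8 c280 c5642 c9752 c9695 c5564 c1944 c14810 c5404 (k8 c281 c1629 c5663 c1573 c284 c1764 c1198 c729 (k8 c5380 c1755 c14849 c1527 c5450 c32 c5432 c5562 (k8 c5342 c5340 c5558 c5530 c5528 c5413 c5409 c5568 (k8 c5566 c9739 c5489 c5540 c5541 c5543 c15834 c15835 (k8 c10422 c8612 c14405 c838 c694 c10249 c14796 c5669 (k2 c5456 c10517 (k1 c14410 k0)))))))) (by decide +kernel)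
def c15838 : PP 9 3 T 0x40000201040000000000000200040004000200000000000040000000000000000000000000000000000000020000000000000000000011 := rS 0x3c81b9cf68d161b10d9dc8af1568776464099bc67b4218a63a02 (k8 c5642 c5341 c5339 c5561 c15825 c8428 c5565 c5564 (k8 c15726 c5210 c5486 c5490 c9695 c284 c2051 c1944 (k8 c14810 c9423 c15836 c15837 c5218 c5522 c15834 c282 k0))) (by decide +kernel)
def c15839 : PP 9 3 T 0x22000001040000000000000000040004000000000000000040000000000010000000000000000000100000000000000141000000400008 := rS 0x1d87de46b7aa0fdad01af78ee9b64a4dfbb20c88d3a214ca1d5664 (k8 c15726 c5413 c2113 c5530 c5528 c5412 c5409 c6205 (k8 c5210 c5405 c5444 c5396 c5397 c2053 c5668 c5450 (k8 c13565 c10390 c1975 c1925 c11575 c5657 c1111 c448 (k1 c3578 k0)))) (by decide +kernel)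
def c15840 : PP 9 3 T 0x2000000000000001000221040000000000000200000004000200000000000000000000000010000000001100044000100000000000000000000500000008 := rS 0x1c43a69184edef8120cd69133a5f648d899bcfa89478a4822709c050aff (k8 c5544 c5541 c5502 c5564 c267 c5340 c5339 c5568 (k8 c5567 c5566 c5565 c5382 c5381 c5210 c5404 c9680 (k8 c5374 c5523 c5525 c3613 c8783 c13718 c724 c14407 (k2 c14193 c2088 (k1 c1773 k0))))) (by decide +kernel)
def c15841 : PP 9 3 T 0x9000211040000000000000200000000000000001000000000000000010000000404001100000000500404080000004000004540004040 := rS 0x3f28492e3059e996602fa6bc2cd64f79028d099f512251492c8ec5 (k8 c681 c5562 c5342 c5339 c5559 c5567 c5566 c5564 (k8 c5381 c5380 c5668 c5494 c5495 c6325 c15342 c1119 (k8 c5663 c1755 c10425 c690 c1775 c10368 c15695 c14435 (k1 c729 k0)))) (by decide +kernel)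
def c15842 : PP 9 3 T 0x42000000000000001000201040000000000000200000004000200001000000000000000000000000404001100000000000400080000000000000500000018 := rS 0x387c6e3f0b28749f50a4dbe616b978ec1fd919c1e6f3e8644a3d149047e173189c26d180a15ff9d3a8c516116281d0e64 (k8 c15726 c2113 c5432 c681 c5558 c685 c5434 c1894 (k8 c15840 c5544 c5541 c5502 c5501 c5564 c267 c9752 (k8 c5433 c5318 c5340 c5339 c5560 c5559 c6205 c5566 (k8 c5565 c9739 c9680 c5210 c1111 c15841 c2054 c4532 (k8 c724 c14418 c1517 c1121 c1522 c14193 c3579 c5456 (k4 c1773 c5464 c1718 c5691 k0)))))) (by decide +kernel)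
def c15843 : PP 9 3 T 0x1000000000001000211040000000000000200040000000000001000000000000000010010000400001000000001500804080000004100004540004000 := rS 0x3f28596e3301e8bec72483016814684cfa89128a49647 (k8 c5562 c5342 c5339 c5559 c5567 c5566 c5564 c5381 (k8 c5380 c2305 c5645 c10368 c2480 c10245 c5669 c5663 (k4 c1775 c1755 c15695 c14435 (k1 c729 k0)))) (by decide +kernel)
def c15844 : PP 9 3 T 0x40000000000000009000211040000000000000200040000000000001000014000000000014000000404001100005000500800080000004100000500404049 := rS 0x9e6597926a16f985c7023da0d220a06878f29af0b3593de46c4cfa89478644a3d14904c62709b151611 (k8 c5558 c685 c681 c5564 c267 c9752 c5340 c5339 (k8 c5560 c5559 c6205 c5568 c5567 c5566 c5382 c5381 (k8 c5668 c5494 c5495 c6325 c15342 c2384 c15843 c2362 (k8 c1112 c13457 c1897 c690 c3613 c15064 c10425 c2516 (k4 c10309 c262 c5663 c1327 (k2 c3579 c1522 k0)))))) (by decide +kernel)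
def c15845 : PP 9 3 T 0x42000000000000001000201040000000000000200040004000200001000000000000000000000000404001100000000000000080000000000000500000011 := rS 0x333c1023ca0d220a068798e9b69387c6ca4fa8526df3db5cbcc83b1ab3aff67a1602d1d903d1b13379f5128f0ca1cc8251e8a482391f85c6e270104d8a0745844ea31 (k8 c5434 c1894 c5558 c685 c5432 c681 c5564 c5642 (k8 c267 c5435 c5433 c5318 c5317 c5340 c5339 c5560 (k8 c5559 c15726 c2113 c6205 c5568 c5567 c5566 c5565 (k8 c5382 c5381 c9739 c5210 c5501 c5502 c5541 c5543 (k8 c5544 c15840 c15842 c15844 c2053 c2054 c4532 c889 (k8 c14418 c1517 c1121 c1522 c3579 c5464 c1718 c1325 (k8 c1327 c9140 c8111 c2362 c1112 c13457 c1897 c2307 (k4 c3613 c5669 c2087 c5537 k0)))))))) (by decide +kernel)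
def c15846 : PP 9 3 T 0x40001000000000000000201040000000000000000000000000000000000000000000040010010000000010800040000500002000000000000000000000000 := rS 0xd6719fd028d3ea25abde (k8 c5668 c5454 c5567 c5566 c5381 c5380 c729 c2622 (k2 c10269 c10298 k0)) (by decide +kernel)
def c15847 : PP 9 3 T 0x1004000000000041000200000180440000400000000000000000000001100000010000000140000004000001000005000002000000000000000000000000 := rS 0x3c8e4d4fde2ee7c5e3ef3a4fa6054bb989c9d1f8d (k8 c5569 c5568 c5383 c5382 c5429 c1205 c1156 c10670 (k8 c5213 c731 c1582 c5553 c5633 c5635 c10602 c5388 (k2 c3611 c5200 (k1 c5622 k0)))) (by decide +kernel)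
def c15848 : PP 9 3 T 0x1004000000000061000200010104440000400000040004000000000000101008010015000110040001000001000005500002010000000000000000000940 := rS 0x1a9c7beef3aac51409f47f83e7eb06c393556b95bb1cdb09 (k8 c4774 c5529 c726 c5533 c5415 c5413 c2538 c15847 (k8 c3624 c5634 c3440 c5172 c5624 c452 c5661 c2647 (k4 c2648 c3854 c3187 c3185 (k2 c707 c3609 k0)))) (by decide +kernel)
def c15849 : PP 9 3 T 0x45000000000000020000201000000000000400000040004000000000000224000000000000000000000000000000000000000000000200000000000000008 := rS 0x17518562d876e70321fbc5f49f486fc5e31189c9d1f8dbea47139c (k8 c5218 c5527 c5374 c9704 c5569 c5568 c5383 c5382 (k8 c9727 c9695 c5628 c3499 c5172 c5220 c5635 c10602 (k8 c5606 c5607 c14315 c9460 c269 c1115 c3118 c5652 (k1 c465 k0)))) (by decide +kernel)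
def c15850 : PP 9 3 T 0x1004000000000061000200010104440000400000040004000000000000101008000005010110040001000801000005500002010000000000000000000940 := rS 0x20cdcc3ba556b95bb1cdb09 (k8 c4774 c5529 c726 c5533 c5415 c5413 c2672 c15847 (k2 c15848 c3624 (k1 c2155 k0))) (by decide +kernel)
def c15851 : PP 9 3 T 0x45004000000000061000201000000000000400000040004000200000000024008000005010110000000000800002000500002010000200000000000000908 := rS 0x2f2dd7cbef52a5c7fc3482bc0fd772babfc15fb8354e4764073da46f679c487cd79c (k8 c5218 c5523 c1111 c5527 c5524 c5375 c5374 c5372 (k8 c5432 c5210 c5491 c5489 c5407 c5405 c15849 c998 (k8 c15850 c5430 c5554 c1157 c1103 c5213 c5172 c1582 (k4 c7364 c5388 c5609 c5625 (k2 c5513 c731 (k1 c3609 k0)))))) (by decide +kernel)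
def c15852 : PP 9 3 T 0x41004000000000061000201040000000000000200040004000200400000024008000000010010000000000004000000500002010000000400000000000808 := rS 0x72fd5ce4e74a9176a3dc7961fa526c8c5f660486446b91095422530f9adb6d9f0fbd08793db35079c67b1cda8732269569964a7764446bc74863f188d466d36af78823d (k8 c5560 c5340 c5668 c5454 c5496 c8428 c5450 c5434 (k8 c5318 c5561 c5341 c2145 c3588 c5210 c5412 c5494 (k8 c5530 c5413 c15342 c15726 c2113 c5529 c726 c5453 (k8 c5218 c5525 c8354 c5372 c5524 c3607 c14662 c6325 (k8 c5497 c5455 c5523 c1111 c5563 c5558 c5343 c5528 (k8 c5415 c5409 c6205 c1573 c15851 c5347 c5351 c5604 (k8 c9413 c3117 c9321 c5237 c5614 c5430 c14686 c2672 (k4 c8139 c3432 c5630 c3345 (k1 c5692 k0))))))))) (by decide +kernel)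
def c15853 : PP 9 3 T 0x41000000000000061000201040000000000000200040004000200400000000000000000010000000000000000000000400002090000000000000000000008 := rS 0x1660424888d77fc01c4b1f1a81bf091d829e5034d212263311c5442b3439904a551e8a63a4b2394c7e2709a2c227b3c87cd6cf6ab27c2cd41e73649d4caafded31af798a073a8c4824365a058e6d (k8 c5529 c726 c5380 c1755 c5561 c5340 c5434 c1894 (k8 c5432 c681 c5668 c5450 c5496 c14662 c5413 c5530 (k8 c5412 c5210 c5218 c5525 c8354 c6325 c5494 c5454 (k8 c5453 c5523 c1111 c5524 c5372 c5558 c685 c5564 (k8 c267 c5318 c5563 c5562 c5342 c5341 c5339 c5560 (k8 c5343 c5559 c15726 c2113 c5532 c5528 c5414 c5409 (k8 c8428 c5382 c3607 c15342 c2629 c684 c683 c14626 (k8 c4774 c14425 c15846 c5578 c1197 c15695 c14427 c4714 (k4 c2145 c3588 c15852 c261 (k2 c14431 c14428 k0)))))))))) (by decide +kernel)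
def c15854 : PP 9 3 T 0x41000201040000000000000200040000000200000000040000000040000050000000010100040005500002000000000400000000004000 := rS 0xe1f1a49ac083fa34fa89088f4824b2395c7e076af799681 (k8 c5380 c1755 c5668 c5454 c5432 c5318 c5313 c5562 (k8 c5342 c5340 c5560 c5558 c5567 c5566 c5381 c729 (k4 c9764 c10269 c1573 c5465 (k2 c1721 c14410 k0)))) (by decide +kernel)
def c15855 : PP 9 3 T 0x800000000061000221040000000000000200040004000200400001000008000000000000000000020400000000000002080000000000000000000008 := rS 0x89660412124b50c8cc469d8a88532b312954223d1491ca6391f85c4e136281cea310f9afded32090c7635 (k8 c5450 c448 c5561 c5340 c5496 c14662 c5523 c1111 (k8 c5434 c1894 c5432 c681 c5564 c267 c5433 c5318 (k8 c5317 c5563 c5562 c5339 c5560 c5558 c5343 c5559 (k8 c5532 c5530 c5528 c5414 c5412 c5409 c8428 c6205 (k4 c1199 c6193 c12753 c261 (k2 c14431 c450 (k1 c14428 k0))))))) (by decide +kernel)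
def c15856 : PP 9 3 T 0x55004000000000061000201000000100000400000040004000000000000020000000000800000000000000000000000000000000000000000000000000000 := rS 0x1b9e48743773f78bc1f49f488c4e4e8fc6a47139c (k8 c5218 c5527 c5374 c5569 c5568 c5383 c5382 c9727 (k8 c5172 c5220 c5634 c5635 c10602 c14315 c2147 c9460 (k2 c5200 c2252 (k1 c5471 k0)))) (by decide +kernel)
def c15857 : PP 9 3 T 0x4000800000000001101001040000000040800200000000000000000000000500000010800001000000000000000000000020000000004005000000000000 := rS 0xc3dfb71f1f2d1a1e551e904a6356db6587af (k8 c5603 c5348 c5497 c5455 c5450 c5563 c5340 c5560 (k8 c5343 c2252 c3589 c9321 c5624 c5237 c5674 c5429 (k1 c2220 k0))) (by decide +kernel)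
def c15858 : PP 9 3 T 0x4000800000000001101001040000000040800200000000000000000000000500000000800001000000000000000000000020000000004005000000000000 := rS 0x30f7edc7c7cadc (k4 c15857 c5471 c5513 c5237 (k2 c5674 c5429 (k1 c2220 k0))) (by decide +kernel)
def c15859 : PP 9 3 T 0x4000800000000001100201040000000000800200000000000000400000000000000000800001000000000000000000000020080000004005000000000000 := rS 0xfb7ce975fab2a844a76f (k8 c4559 c5563 c5558 c5343 c5600 c5603 c9413 c687 (k2 c1900 c15858 k0)) (by decide +kernel)
def c15860 : PP 9 3 T 0x40000000000000040000201040000000000000200040004000200000000000040000000000000000000000000000000400002000000000000000000000010 := rS 0x8bfdf090d5faf6322d281349e2ffac168f8787c2fe1678dad1350980359c4b170f8d40df1dc0de4f56831d96ad57e0d53918fa0466b936adc4a292591ca63f60eb6fa2709868c88b089ecf21f35b27c2cd41e73dbb1010dc2e39598862a23d927532abf7b4c6bde6281cea5a2c807680f2e8c48243 (k8 c5561 c5340 c5434 c14849 c9739 c15825 c15833 c15838 (k8 c5644 c1894 c5432 c681 c5668 c5450 c5496 c14662 (k8 c5413 c5530 c5412 c5210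 c5409 c5414 c5528 c5532 (k8 c5317 c5433 c5435 c5642 c15839 c15845 c5218 c5525 (k8 c8354 c6325 c5494 c5523 c1111 c5524 c5372 c5558 (k8 c685 c15726 c1892 c5564 c267 c9704 c5437 c5319 (k8 c5318 c5563 c5562 c5342 c5339 c5559 c5533 c5529 (k8 c5415 c8428 c5380 c9713 c5491 c5489 c5407 c5406 (k8 c5490 c1755 c726 c15853 c1925 c5657 c2627 c448 (k8 c14425 c15854 c5578 c3060 c1197 c15695 c8355 c14427 (k8 c4586 c15855 c2621 c4789 c15859 c15856 c5629 c5515 (k8 c5512 c5624 c5628 c5938 c1358 c452 c2538 c5661 (k8 c362 c2637 c9409 c1398 c2148 c3625 c5638 c3452 (k1 c5697 k0)))))))))))))) (by decide +kernel)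
def c15861 : PP 9 3 T 0x40000000000000040000201040000000000000200040004000200000000000040000000000000000000000000000000400000000000000000000000000010 := rS 0xf4683cd363a2f1859235ef6c8c66bce7b762756281c04371885c725a2c974020f59a64431555a7447b4 (k8 c15825 c5409 c5412 c5413 c5414 c5528 c5530 c5532 (k8 c9739 c15833 c14849 c15838 c5644 c5317 c5433 c5434 (k8 c5435 c5642 c5432 c681 c1894 c15839 c15845 c5218 (k8 c5523 c9752 c5210 c5668 c5450 c5494 c15860 c5663 (k4 c14193 c1119 c448 c15342 (k2 c5657 c1925 k0)))))) (by decide +kernel)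
def c15862 : PP 9 3 T 0x40000000000000040000201040000000000000200040004000200000000000040000000000000000000000000000000000000000000000000000000000010 := rS 0x7b961e3f0b28749f50a4cc25e6477cec6bce7b7627562968b227010046e310b81c7e39339901e5d099bcfa1911a75571510a6567b4128f45241 (k8 c5340 c5339 c5560 c5559 c15825 c5532 c5530 c5528 (k8 c5414 c5413 c5412 c5409 c6205 c5566 c5565 c5564 (k8 c14849 c9739 c15726 c9680 c5317 c5318 c5432 c5433 (k8 c5434 c5435 c15833 c5642 c267 c15838 c5644 c681 (k8 c1894 c15839 c15845 c5218 c5523 c15861 c5493 c2053 (k8 c2054 c724 c1517 c1121 c1522 c14193 c3579 c5456 (k4 c5464 c1324 c5204 c5506 k0))))))) (by decide +kernel)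
def c15863 : PP 9 3 T 0x1000000000000000000000000000000000000000040004000000000000000040000000020000000000000000000000000000020000000000000000001000 := rS 0x1e6f5 (k2 c4382 c282 (k1 c5657 k0)) (by decide +kernel)
def c15864 : PP 9 3 T 0x40001800000000020000200000000000000000200040000000100000000000008000000000000000000000400040000100000004000000040004040001000 := rS 0x2d1bc4970f8dac09718e0770340a34fa8911c5442b312844524b23b146ad5 (k8 c5454 c5450 c5451 c5562 c5342 c5339 c5558 c5559 (k8 c5532 c5528 c5414 c5409 c5567 c5566 c5381 c5380 (k8 c2627 c448 c5654 c2617 c273 c10339 c5465 c1721 (k4 c400 c5691 c3584 c2514 k0)))) (by decide +kernel)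
def c15865 : PP 9 3 T 0x40001800000000020000200040000000000000200040004000100000000000040000000020000000000000000040004100000004000000000004040001000 := rS 0x1c123a183d1e69bf6a676037 (k8 c1482 c5209 c5530 c10390 c5397 c15864 c5657 c1925 (k4 c1926 c1508 c1674 c5643 k0)) (by decide +kernel)
def c15866 : PP 9 3 T 0x40000000000000040000201040000000000000200040004000000000000000040000000000000000000000000000000000000000000000000000000000010 := rS 0x10181bd1c6e11d78d94390b82060740f89cae8b01004b459419ac1a913de706fe1f6b41a6cd4da853e93ef6c0ef297eec8ba130c88d3a214ca1d57b4320445247 (k8 c5562 c5339 c5558 c15726 c15825 c5413 c2113 c5530 (k8 c5528 c5412 c5409 c6205 c5564 c14849 c5210 c5405 (k8 c15862 c14727 c5209 c5214 c5444 c5448 c5398 c5397 (k8 c5495 c5496 c13565 c10390 c6325 c1482 c5218 c5372 (k8 c5374 c5522 c5523 c5525 c15863 c5644 c1057 c1893 (k8 c685 c768 c267 c1111 c15865 c1894 c1895 c1507 (k8 c273 c13648 c13634 c3578 c1718 c8999 c1679 c2202 (k2 c9158 c15775 k0)))))))) (by decide +kernel)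
def c15867 : PP 9 3 T 0x20000001000000000000000200000004000000000000000080000000000000000000000000000000000000000000000000000000040010 := rS 0x7c4e0222804d6580dc0d065bf6bc5fbb207974471510acd0eab32094871d (k8 c5341 c5561 c5559 c15726 c5413 c2113 c5532 c5528 (k8 c5414 c5409 c14849 c9739 c5210 c5405 c9695 c5498 (k8 c2101 c1972 c2195 c2103 c5644 c11575 c1056 c284 (k4 c5642 c267 c1111 c14437 k0)))) (by decide +kernel)
def c15868 : PP 9 3 T 0x2000000000000020000200000000000000000000000000000000100100050040000000000000001000000001000000000020000005440000000000010014 := rS 0x7a02c8a6a2c000271510acde6ff (k8 c5544 c5540 c5532 c5528 c5414 c5564 c5642 c1057 (k4 c15768 c284 c2306 c3593 (k1 c1948 k0))) (by decide +kernel)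
def c15869 : PP 9 3 T 0x2000000000000040000201040000000000000200040004000000000000000000000000000000000000000000000000000000000000000000000000000010 := rS 0x1ded84a4b00a0f09c020241190bb111188532b31284486298e92c8eb5819252301f93df6813 (k8 c5564 c15825 c15867 c15866 c5592 c5589 c5588 c5550 (k8 c5548 c5562 c5342 c5341 c5339 c5561 c5558 c5559 (k8 c5532 c5530 c5528 c5409 c9727 c14849 c15726 c15819 (k8 c15868 c28 c267 c8140 c1112 c2310 c15838 c5209 (k2 c5214 c10390 k0))))) (by decide +kernel)
def c15870 : PP 9 3 T 0x40000201040000000000000200040004000000000000000000000000000000000000000000000000000000000000000000000000000010 := rS 0x7c4e02009af39ed489256bf27b91c521112c4426238a88567b4 (k8 c15825 c5532 c5528 c5414 c5409 c5564 c9727 c5559 (k8 c5558 c5339 c5562 c15867 c15866 c5548 c5588 c5589 (k8 c15869 c5218 c5523 c15768 c5642 c267 c1111 c8140 k0))) (by decide +kernel)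
def c15871 : PP 9 3 T 0xa00000000000002a000000000000000000000000000000000000000000000000000000000000000000000000000000000000000000000000000000000000 := rS 0x1ae9d55c5532b3 (k4 c5532 c5530 c5414 c5413 (k2 c5412 c5507 (k1 c14376 k0))) (by decide +kernel)
def c15872 : PP 9 3 T 0x40000000000000060000200000000000000000100040000000200000000000000000000000000000000000404000080000000000001000000016041004002 := rS 0xf60c6fa408e3a35c44469d8a884da99598e42e37 (k8 c5435 c5433 c5317 c5532 c5530 c5529 c5528 c5414 (k8 c5412 c5409 c9727 c1058 c3578 c12800 c13524 c10489 (k2 c13505 c892 (k1 c290 k0)))) (by decide +kernel)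
def c15873 : PP 9 3 T 0x42000000000000022000201040000000000000100000004000200000000000000000000000000000000000000000000000000000000000000010000000002 := rS 0x6a631edbc746b315abe33f32ce22771c71a7ef66787be9b6498d429f4b8752aa9d91cd026f3e8cd3aab4cb459e770d11426432c191123f3081cbe17 (k8 c5433 c1054 c5432 c661 c5318 c5567 c15726 c1057 (k8 c1949 c5564 c284 c1056 c4442 c5543 c5501 c5530 (k8 c5413 c5412 c8428 c5566 c5565 c5380 c5379 c5210 (k8 c5489 c5488 c5486 c5404 c5448 c5398 c5395 c5396 (k8 c5397 c10390 c14406 c8724 c15871 c15747 c5658 c2624 (k8 c351 c668 c9148 c3599 c5577 c2999 c841 c5778 (k4 c5668 c10298 c1688 c1968 (k2 c14968 c2483 k0)))))))) (by decide +kernel)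
def c15874 : PP 9 3 T 0x140600000000000000000000000000000000145015008010000000 := rS 0x6b905431d (k4 c351 c2927 c350 c2190 (k1 c3588 k0)) (by decide +kernel)
def c15875 : PP 9 3 T 0x42000000000000060000201040000000000000100040004000200000000000040000000000000000000000000000000000000040000000000010000004002 := rS 0x106ccce0edea0b2527c92241391cd60d6ab4c6a7b641d18acb316c4be611e8dc6217038fc72690eeca23133e8cc469d8a9b566d13b8688a1321960c889 (k8 c5567 c15726 c1057 c1949 c5564 c284 c1056 c4442 (k8 c5501 c5532 c5529 c5414 c5412 c5409 c8428 c5566 (k8 c5382 c9727 c5210 c5486 c9742 c5317 c5318 c5432 (k8 c5433 c5434 c5435 c5436 c661 c1054 c15873 c5663 (k8 c4102 c837 c1172 c1171 c888 c281 c1969 c1532 (k8 c14607 c1059 c12800 c15874 c5651 c10038 c2756 c5660 (k4 c2588 c2595 c14196 c5645 (k2 c15359 c5525 (k1 c8354 k0))))))))) (by decide +kernel)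
def c15876 : PP 9 3 T 0x2000000000000020000001040000000000000000000004000100000000000000000000000000000000000000000000000000000000000000000000000000 := rS 0x77b6099 (k4 c5530 c5209 c5214 c10390 k0) (by decide +kernel)
def c15877 : PP 9 3 T 0x2000210040000000000000000000000000000001000000000000500000440001400005001000000010001400000000000000000000000 := rS 0x1e8fcde4d98d4273409bcfa8f (k8 c5568 c5566 c5565 c5380 c5379 c5398 c5395 c5397 (k4 c5986 c3599 c14796 c891 k0)) (by decide +kernel)
def c15878 : PP 9 3 T 0x2000000000000040000201040000000000000000040004000000000000000040000000000000000000000000000000000000000000000000000000000014 := rS 0x6a7b6298b62c706674d49f659c448278e7bd60e148b8d6a5f30fc886453b960345b000a4d21dd91901f1139c4c266f44a3d3b1559d6602070b8f651b4 (k8 c15825 c15876 c5436 c5433 c5432 c5502 c15870 c5532 (k8 c5414 c5412 c5568 c5567 c5565 c5564 c5382 c5379 (k8 c9727 c9739 c15726 c5210 c5486 c9742 c9694 c5642 (k8 c1893 c1056 c1057 c4442 c284 c1949 c15875 c661 (k8 c1054 c5548 c5549 c5589 c5591 c14538 c5506 c5658 (k8 c351 c2162 c668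 c9148 c2756 c8385 c5523 c1059 (k4 c2483 c15877 c5663 c837 (k2 c888 c281 (k1 c14607 k0))))))))) (by decide +kernel)
def c15879 : PP 9 3 T 0x200000000000002a000001040000000000000000000000000200000000000040000000000000000000000000000001000000020000000000000000000018 := rS 0xc73db10119d1a06cb6f14b8752a1979a140e3100f8592cf (k8 c5543 c5396 c14406 c28 c5434 c5432 c5541 c5540 (k8 c6205 c5488 c5486 c5404 c9695 c32 c1944 c5974 (k4 c15834 c280 c281 c14405 (k2 c838 c5669 k0)))) (by decide +kernel)
def c15880 : PP 9 3 T 0x2000000000000022000001040000000000000000040004000000000000000040000000000000000000000000000000000000000000000000000000000018 := rS 0x7562968b279661dd36c94ba5553b2321753aab4cb4472070b8c46f28 (k8 c15876 c5435 c5434 c5433 c5432 c5317 c5501 c5530 (k8 c5413 c5412 c14849 c15726 c5210 c5489 c5488 c5404 (k8 c5396 c5397 c2053 c8724 c2386 c15879 c5644 c681 (k2 c1894 c15839 k0)))) (by decide +kernel)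
def c15881 : PP 9 3 T 0x40000000000000000000200000000000000000100040000000000000000000020000040000040000000000000000041000000020001001040000000000040 := rS 0xe223384f64b0524503133ea3c8689 (k8 c5567 c1949 c5568 c5566 c5382 c5380 c10333 c1948 (k4 c2595 c690 c6188 c5660 (k2 c3610 c2347 k0))) (by decide +kernel)
def c15882 : PP 9 3 T 0x42000000000000069000201040000000000000100040000000000000000000040000000000020000000000000000000000004020001001040020000000051 := rS 0x71b848c913d92c3c0a7ab7cfecb301e58e5f78a5dfa1d54a06267d4788d562159bcd0acf50864b61b (k8 c1944 c32 c6205 c1195 c5543 c5541 c5540 c5532 (k8 c5528 c5413 c5409 c5568 c5566 c5382 c5380 c5489 (k8 c5486 c5405 c5404 c9695 c1629 c838 c1631 c5663 (k8 c1755 c729 c14125 c15881 c10419 c5816 c2588 c690 (k4 c695 c1312 c6188 c2347 (k1 c3610 k0)))))) (by decide +kernel)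
def c15883 : PP 9 3 T 0x42000000000000069000201040000000000000100040000000200000000000040000000000000000000000000000000000000020000000004000000000018 := rS 0x20f492f0b3593de3a9806ac5ce86cee5b78a553aab4cbcc0e171b8f402632488e2a28129bc4e13 (k8 c5564 c267 c5565 c1113 c5651 c5414 c5409 c10038 (k8 c9752 c28 c5436 c5435 c5433 c5432 c5540 c5530 (k8 c5413 c5412 c5488 c9695 c32 c2051 c1944 c15834 (k8 c15882 c281 c15810 c1575 c5668 c5494 c5495 c6325 (k4 c14345 c10425 c261 c14405 k0))))) (by decide +kernel)
def c15884 : PP 9 3 T 0x41000201040000000000000000000004000000000000014000000000510010000004011100041000500004000000000000000000000000 := rS 0x81a4506de70b18bcca4d1853ecd649fbc7de33bf553b240a36267d44a3d0e64 (k8 c15726 c2113 c5568 c5567 c5566 c5382 c5381 c5380 (k8 c5210 c5489 c5405 c9680 c5668 c5287 c10269 c5494 (k8 c5495 c2881 c729 c15342 c5680 c5663 c1120 c1718 (k4 c1327 c9113 c801 c2516 (k1 c3613 k0))))) (by decide +kernel)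
def c15885 : PP 9 3 T 0x41000220040000000000000000000000000200000000014000000000000000000000005100045000000001000000080000000500000008 := rS 0x97021d20cd69146c4d128f (k8 c5568 c5567 c5382 c5381 c5374 c5523 c5525 c14193 (k2 c3613 c14196 (k1 c1936 k0))) (by decide +kernel)
def c15886 : PP 9 3 T 0x41000200000000000000000000040000000000000000014000000000000000000000005000045004800000000001080800000000004000 := rS 0x1230341834967946c4d128f (k8 c5568 c5567 c5382 c5381 c1536 c14196 c290 c2056 (k2 c1936 c13505 (k1 c3613 k0))) (by decide +kernel)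
def c15887 : PP 9 3 T 0x1000010000000000000000000040000000000000000000000000000000000000000001104000000000800800000000500000541404000 := rS 0x63031340b (k4 c2305 c6193 c5645 c1120 (k1 c2480 k0)) (by decide +kernel)
def c15888 : PP 9 3 T 0x200000000000000000000040000000000100000014000000000000000000000000000045000000000080001000000020080004001 := rS 0x9081a0c8c0d46c4d128f (k8 c5568 c5567 c5382 c5381 c2362 c1312 c1897 c2350 (k2 c3613 c13505 k0)) (by decide +kernel)
def c15889 : PP 9 3 T 0x41000201040000000000000000040004000200000000014000000000010000000000000000001000000000080000000000000000000018 := rS 0x350ecf61fcea7d26612f1d9aad72122ceac50d474ce0f3ea74429943aacc8390385c623d0098c92238aed08af1508a04a6f1384eb219 (k8 c6205 c15870 c5564 c267 c5565 c1113 c5651 c1195 (k8 c9695 c456 c15825 c5414 c5409 c10038 c9752 c28 (k8 c5436 c5434 c5433 c5432 c5317 c15726 c5413 c2113 (k8 c5530 c5528 c5412 c5566 c9739 c9680 c4516 c1892 (k8 c681 c1894 c686 c1310 c1933 c2778 c15884 c2054 (k8 c724 c1517 c1522 c15885 c15888 c889 c15886 c14193 (k1 c15887 k0)))))))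 (by decide +kernel)
def c15890 : PP 9 3 T 0x2000000000000040000201040000000000000000040004000000000000000040000000000000000000000000000000000000000000000000000000000010 := rS 0x11c7a7bc3eb081ad7e4430d960b7b1228a04a270080a50ff42bce02d178bf43aa9d9174266f448cc46ab10acf6959 (k8 c15870 c15825 c5532 c5528 c5413 c5409 c8428 c5567 (k8 c5565 c5564 c14849 c5210 c5489 c5486 c5405 c9695 (k8 c5501 c5502 c5540 c5541 c5544 c15876 c15878 c28 (k8 c267 c1113 c5651 c456 c15880 c15889 c5644 c5280 (k8 c1949 c15883 c5548 c5550 c14538 c1311 c5506 c3581 (k2 c5658 c2165 k0)))))) (by decide +kernel)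
def c15891 : PP 9 3 T 0x1000000000000000000000000000000000000000040004000000000000000040000000000000000000000000000400000000020000000000000000001000 := rS 0x1eaf3 (k2 c282 c1947 (k1 c5657 k0)) (by decide +kernel)
def c15892 : PP 9 3 T 0x1000000000000000000001040000000000000000000000000000000000000008000000000000000000000000000000100000000000000800000000000000 := rS 0x77868d0 (k4 c449 c448 c10484 c5450 k0) (by decide +kernel)
def c15893 : PP 9 3 T 0x1000000000000020000201040000000000000000040004000200000000000048000000000000000000010000040000000000080000080000000000000000 := rS 0x3f9dcc03bd8b55ae75628f46e310b81c726740a34fa8911a74429935e700464 (k8 c15726 c1893 c5218 c5523 c5530 c5528 c5412 c5409 (k8 c5567 c5566 c5381 c5380 c9680 c5317 c5432 c5433 (k8 c5434 c5435 c5436 c681 c1894 c1933 c2778 c15839 (k4 c15892 c14193 c724 c729 (k1 c10269 k0))))) (by decide +kernel)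
def c15894 : PP 9 3 T 0x40000201040000000000000000040004000000000000000040000000000000000000000000000000000000000000000000000000000010 := rS 0xfe750335c12411c0dc77e166b559e3562f78ef297912fe5ef45ac0843f5091450251395c34022d165060d48e73daf1d9175028d099bcfa890ca75328755ed0c959 (k8 c15870 c15726 c15825 c5413 c2113 c5530 c5412 c6205 (k8 c5567 c5566 c5565 c5564 c5381 c5380 c14849 c5210 (k8 c9695 c15890 c5218 c5374 c5522 c5525 c15891 c5644 (k8 c1893 c1892 c9757 c267 c1113 c5651 c456 c1195 (k8 c404 c1310 c1309 c686 c5506 c5171 c5546 c14422 (k8 c15893 c14727 c5214 c5451 c5450 c5453 c5454 c5495 (k8 c6325 c448 c2534 c5654 c546 c273 c1934 c5643 (k2 c1895 c677 (k1 c10269 k0))))))))) (by decide +kernel)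
def c15895 : PP 9 3 T 0x1000000000000020000000000000000000000000000000000000000000001000000000001020000000000000000005000405400000000000000000000000 := rS 0xc6 (k2 c15209 c839 k0) (by decide +kernel)
def c15896 : PP 9 3 T 0x100000000000002a000000000000000000000000000000000000000100000001000000001000000000000000000005000404020000000104000004400000 := rS 0x2fb1068614bbf53a6d (k8 c5529 c5412 c5405 c5404 c5445 c14382 c281 c1629 (k1 c15895 k0)) (by decide +kernel)
def c15897 : PP 9 3 T 0x9000000040000000000000000000000000200000000000001000000000000000000000000000000000001020000000004000004000008 := rS 0x18a342f25cee63 (k4 c9752 c2051 c5404 c5663 (k2 c15810 c1629 (k1 c281 k0))) (by decide +kernel)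
def c15898 : PP 9 3 T 0x68000220040000000000000100040004000200000000000081000000000000000000000000000000000400020000000004000000000008 := rS 0x1c6e12312e3beef9b7cfec765983623d1b85e2281899f51e6d59fb472cd0daacf6913c98c92238aa8450253789c2619 (k8 c6205 c5564 c267 c5565 c1113 c5651 c1195 c5414 (k8 c5409 c10038 c9752 c5524 c5374 c5372 c5413 c2103 (k8 c2071 c397 c5498 c5532 c5529 c5568 c5566 c5382 (k8 c5380 c9727 c5433 c5435 c5436 c15896 c15897 c1755 (k8 c726 c729 c14125 c14109 c5171 c5504 c564 c8188 (k2 c6188 c2347 (k1 c3610 k0))))))) (by decide +kernel)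
def c15899 : PP 9 3 T 0x40000201040000000000000000040004000000000000000000000000000000000000000000000000000000000000000000000000000010 := rS 0xef6c252281289c040135963381b4196fdaf6aca1d57b419bc5fbb23203cba818984cde7d (k8 c5566 c5565 c5564 c5382 c5380 c14849 c9739 c15726 (k8 c5210 c5405 c9695 c8428 c15825 c5413 c2113 c15870 (k8 c15894 c5498 c2101 c1972 c2103 c5218 c5644 c11575 (k8 c1056 c5642 c267 c1113 c5651 c15898 c5209 c5214 (k1 c14505 k0))))) (by decide +kernel)
def c15900 : PP 9 3 T 0x2000000000000050000200080000000000000000040004000000000000000000000000000000000001000000000000000000020000000000010018000012 := rS 0x4556aca0fa7d429b30ec52616640c8e2b39492c7a1112d61ebf3efa0f386b889cd028d899bcfa892f9fcc6f768c05e68567bfc8a131a8246275 (k8 c5440 c1945 c5438 c280 c5564 c284 c5544 c5543 (k8 c5541 c5540 c5502 c5501 c5498 c5355 c5358 c5439 (k8 c5567 c5566 c5565 c5382 c5381 c5380 c5379 c9727 (k8 c9672 c5211 c8722 c12425 c12426 c1947 c5231 c5559 (k8 c5558 c5560 c5342 c12891 c15787 c667 c5653 c2043 (k8 c2044 c322 c5396 c1460 c10952 c1068 c1465 c12415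 (k4 c3599 c11945 c4091 c5685 k0))))))) (by decide +kernel)
def c15901 : PP 9 3 T 0x200000000000006a000000080000000000000100000004000000000000000000000000000000000000000000000100044001000000141000010000400002 := rS 0x194278e7bd421d (k4 c5486 c5398 c15871 c5658 (k2 c351 c11559 (k1 c9148 k0))) (by decide +kernel)
def c15902 : PP 9 3 T 0x2000000000000041000020080000000000000100040004000200001400000000000000000000000400001100510100045000000000140000010008044002 := rS 0x749f05890951c24fbd35f341835227b8897d8e7931a1da30142b3dfe231f81c6e3d (k8 c5436 c5435 c5432 c5318 c9731 c5544 c5543 c5541 (k8 c5502 c5501 c5499 c5355 c5441 c5357 c5439 c9727 (k8 c5372 c5374 c5522 c5525 c12426 c10253 c8783 c12351 (k4 c5658 c12357 c2162 c2588 (k2 c2756 c6200 (k1 c14196 k0)))))) (by decide +kernel)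
def c15903 : PP 9 3 T 0x2000000000000069000000000000000000000100040004000000000000000000000000400000000000000000000000000000000000145015018000400000 := rS 0x105a6d565fb9424b8eab43a21 (k8 c5528 c5486 c5490 c351 c353 c2927 c5658 c15659 (k4 c5585 c14519 c350 c3588 k0)) (by decide +kernel)
def c15904 : PP 9 3 T 0x2000000000000069000000000000000000000100040004000000000000000000000000000000000000000000000000000000000000145015018000400000 := rS 0xf735a3a1d (k4 c5486 c351 c15903 c5658 (k1 c5507 k0)) (by decide +kernel)
def c15905 : PP 9 3 T 0x42004000000000041000000000000000000000100000004000200000000000000000100100000000000005000000000000000000008140011000000000000 := rS 0x477ded78177d983b6fbd5eed1798cc7237 (k8 c5435 c5317 c5316 c5540 c5501 c5498 c2595 c2510 (k8 c14196 c15359 c9979 c8709 c2192 c5508 c5778 c5658 k0)) (by decide +kernel)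
def c15906 : PP 9 3 T 0x210000000000000000000000000000000001100000000000000000000000400000000000000001000000000800000000000004006 := rS 0x51a91e29 (k4 c9694 c5568 c12800 c5779 (k1 c2306 k0)) (by decide +kernel)
def c15907 : PP 9 3 T 0x42004000000000041000000000000000000000100040004000200000000000000000100100000000000005000000000000000000001540011000000000000 := rS 0x4b (k2 c15905 c5660 k0) (by decide +kernel)
def c15908 : PP 9 3 T 0x2000000000000068000200080000000000000000040004000200000000000000000000000000000000000000000000000000000000140011000008004006 := rS 0x3b7ab34191c6b1a9609181ad7e44770b57c6a04fb2c48493889f3bb130d647a370b81c7e3919abe227340a36261337a251e097bb4602f3678a4469d8a9b532b3 (k8 c5532 c5530 c5529 c5414 c5412 c9731 c9694 c5543 (k8 c5540 c5502 c5501 c5498 c5438 c5568 c5567 c5565 (k8 c5564 c5382 c5381 c5380 c5379 c9727 c5406 c5316 (k8 c5317 c5318 c5432 c5433 c5435 c5436 c12891 c661 (k8 c15901 c15902 c15904 c668 c10038 c5651 c9148 c2756 (k8 c11559 c12178 c3000 c3060 c15906 c15907 c5548 c5550 (k8 c5589 c14538 c8385 c1198 c1093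 c1059 c2191 c2165 (k2 c289 c3587 k0)))))))) (by decide +kernel)
def c15909 : PP 9 3 T 0x2000000000000022000000000000000000000000000004000100000000000000000000000000000000000000000000000000000000000011000008000000 := rS 0x19f7d9299 (k4 c5530 c5396 c10390 c2043 (k1 c5653 k0)) (by decide +kernel)
def c15910 : PP 9 3 T 0x2000000000000069000200080000000000000200040004000100000000000000000000000000000000000000000000000001000000000010000001400012 := rS 0x60ebc39d66a4bbc1d4a82556d142b3d3a99 (k8 c5530 c5412 c5543 c5541 c5501 c5500 c5438 c5488 (k8 c5486 c11149 c5648 c5495 c12425 c6325 c9007 c14613 (k1 c289 k0))) (by decide +kernel)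
def c15911 : PP 9 3 T 0x2000000000000061000220080000000000000000040000000100000000000000000000000000000000000000000000000000000000000000000001000010 := rS 0x1e1f9c45028d89a25a30142b3dfe9d8a9b532b3 (k8 c5532 c5530 c5529 c5414 c5412 c5544 c5543 c5541 (k8 c5502 c5501 c5567 c5382 c5381 c5380 c9727 c12426 (k2 c11748 c12342 k0))) (by decide +kernel)
def c15912 : PP 9 3 T 0x40004000000000000000000000000000000000000000000000000000000000000000140000000000000000000000108000000000000000000000000000000 := rS 0x1c7e1 (k2 c5457 c1775 (k1 c5691 k0)) (by decide +kernel)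
def c15913 : PP 9 3 T 0x2000000000000069000200080000000000000200040004000100000000000000000000000000000000000000000000000000040000140011000001000012 := rS 0x1a6cdf00e43c6a3da6dbff3811246ef50638595e34fa847616389848e4b8e8f422254bbf52aa9889cd0313099bcfa8f2fb1cf27f31bdd56d180bcd9eff4e9b5339d (k8 c15911 c5530 c5529 c5412 c5544 c5543 c5540 c5502 (k8 c5501 c5500 c5498 c5355 c5358 c5441 c5357 c5439 (k8 c5568 c5566 c5565 c5564 c5382 c5380 c5379 c9727 (k8 c5489 c5488 c5405 c5404 c5559 c5558 c5560 c5341 (k8 c5342 c5562 c14612 c667 c15910 c1676 c1068 c1465 (k8 c12178 c3599 c1718 c14613 c2366 c2363 c293 c3593 (k8 c5550 c14614 c1327 c15912 c3598 c1058 c2472 c5654 (k2 c5537 c2087 (k1 c10216 k0))))))))) (by decide +kernel)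
def c15914 : PP 9 3 T 0x49000000080000000000000100040004000100000000000000000000000000000004001100110110044001000000540010010001400002 := rS 0x138f6383af7f859a92ef0752a7f3ab2d43e2 (k8 c5226 c5578 c5464 c5440 c5358 c5488 c5486 c11149 (k8 c5648 c5495 c6325 c8993 c9007 c5658 c1681 c351 (k1 c11559 k0))) (by decide +kernel)
def c15915 : PP 9 3 T 0x2000000000000069000200080000000000000100040004000100000000000000000000000000000000000000000000000001040000540010010001000012 := rS 0x8192e3a497a89818160e9cd028d099bcfa892fb1cf2637baae02f37fa744299ceb2d43e2 (k8 c5226 c5578 c5464 c15911 c5530 c5528 c5412 c5544 (k8 c5540 c5502 c5500 c5498 c5355 c5441 c5357 c5439 (k8 c5567 c5566 c5565 c5564 c5381 c5380 c5379 c5486 (k8 c15914 c14582 c11672 c2366 c293 c351 c353 c7820 (k1 c3593 k0))))) (by decide +kernel)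
def c15916 : PP 9 3 T 0x2000000000000048000200080000000000000000040004000000000000000000000000000000000000000000000000000020000000000000000000000014 := rS 0x40dc2f5248f6383a25fbfc2cd6a8286e39ef03524173037da6e36bf888f59ceec652b34c9b443154eed0623521914b01a2d80032290ea55520f88a051b13099f512093f9d5eeab68c059eff (k8 c5544 c5543 c5502 c5501 c5500 c5498 c5440 c5358 (k8 c5438 c5567 c5566 c5564 c5382 c5381 c5380 c9727 (k8 c9739 c5489 c5488 c5486 c9694 c9701 c5642 c1893 (k8 c1056 c1057 c284 c1949 c280 c1945 c15900 c5412 (k8 c5414 c5528 c5529 c5530 c5532 c15908 c15909 c15911 (k8 c15913 c15906 c5226 c5465 c5466 c5579 c5580 c15915 (k8 c1460 c662 c14586 c11149 c324 c1567 c5645 c5454 (k8 c5495 c6325 c8993 c2588 c5654 c5658 c1681 c513 (k4 c2166 c6188 c7820 c3627 k0))))))))) (by decide +kernel)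
def c15917 : PP 9 3 T 0x2000000000000050000201000000000000000000040004000000000000000000000000000000000000000000000000000000000000000000000000000010 := rS 0x560b1f32de71e2ad0eaa4ba8146c4d12f755b4602f342b3dfe0101648c9b2 (k8 c5210 c15726 c15899 c15916 c28 c5544 c5543 c5541 (k8 c5540 c5502 c5501 c5500 c5498 c5567 c5382 c5381 (k8 c5380 c14849 c5489 c5486 c5490 c9695 c5211 c15785 (k4 c12426 c5644 c5231 c15814 k0)))) (by decide +kernel)
def c15918 : PP 9 3 T 0x8000000000000000000000000000000000200000000000001000000000100000000000000000000000000020000000000000000000108 := rS 0xd43601498646607 (k8 c5432 c5316 c5315 c261 c28 c1944 c280 c14824 k0) (by decide +kernel)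
def c15919 : PP 9 3 T 0x2000000000000022000001080000000000000100000004000200000000000000000000000000000000000000110110000000100000000000020000000008 := rS 0x1a6d56bac0848b6286a3a5a2cfbd93b232024ea07188f48af1 (k8 c9695 c456 c5436 c5434 c5432 c5440 c5438 c15726 (k8 c5210 c5396 c15871 c15918 c5644 c4516 c1892 c681 (k4 c686 c5658 c1309 c1933 (k2 c2778 c2085 (k1 c8254 k0))))) (by decide +kernel)
def c15920 : PP 9 3 T 0x69000000080000000000000100000004000200000400004045000000000000000000000000410110000000020000000000020000004008 := rS 0x7b70b8c14912337da71c6bf7fdec81ae7436433c8052609198fc0e371e9154219 (k8 c5315 c1195 c456 c5436 c5435 c5432 c5318 c5316 (k8 c5438 c261 c28 c5441 c1949 c1944 c15834 c280 (k8 c15918 c15206 c5494 c2190 c5658 c15747 c12713 c14397 (k4 c2785 c5779 c2347 c2788 (k2 c690 c5846 k0))))) (by decide +kernel)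
def c15921 : PP 9 3 T 0x20000000000000000000000000000000000500014000000000400840000000001100555001001005400000000000000000000000 := rS 0x37a049a419ad227b (k8 c5372 c5374 c5523 c5525 c3598 c3613 c1327 c2517 k0) (by decide +kernel)
def c15922 : PP 9 3 T 0x4000000000061000000000000000000000000000000000200000000000000000000000000000000004000000000000000000008000000020040000000 := rS 0x3b6fa743239 (k4 c5317 c5315 c5412 c2510 (k2 c14196 c14178 k0)) (by decide +kernel)
def c15923 : PP 9 3 T 0x2000000000000040000210000000000000000000000000000000100000040000000000000000000010000000040000000100010005900000000000004000 := rS 0x82052451b1337a3dee8780bcd0aff (k8 c5544 c5541 c5540 c5502 c5499 c5498 c5568 c5565 (k4 c5382 c5381 c2785 c5779 (k2 c5251 c2310 k0))) (by decide +kernel)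
def c15924 : PP 9 3 T 0x2000000000000040000201000000000000000000040004000200000000000000000000000000000000000000000000000000000000000000000000000010 := rS 0x3a0626d04915afc88f0325e74c2ca4ff8da4d56b87c848b6286a3a5a2cec5424514126b23d1881c7219789a55a0f2ec45028d899f5128f639e4fe633b9d5ee8780bcd0aff0089c26253785cbe93011936409c908d3b15109b533b4 (k8 c15917 c5530 c5529 c5528 c5414 c5412 c5409 c15899 (k8 c5438 c5210 c15726 c15916 c261 c5439 c1107 c5565 (k8 c1113 c5564 c267 c28 c5544 c5541 c5540 c5502 (k8 c5499 c5498 c5440 c5356 c5355 c5358 c5441 c5357 (k8 c5568 c5567 c5566 c5382 c5381 c5380 c9727 c14849 (k8 c9739 c5490 c9742 c9695 c5315 c5317 c5432 c5434 (k8 c5436 c12891 c10038 c5651 c456 c1195 c15919 c15920 (k8 c5644 c4516 c1892 c681 c686 c1310 c15888 c1933 (k8 c2778 c3608 c5287 c2882 c14519 c1755 c15921 c15922 (k8 c1936 c15923 c10155 c5548 c5589 c14422 c1326 c1897 (k2 c6193 c289 k0))))))))))) (by decide +kernel)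
def c15925 : PP 9 3 T 0x400000000008000000000000000000000200000000000100000000000001000000000100000000014004000000100000020000010000005001440001 := rS 0x1ac310d914871d (k4 c5341 c5561 c284 c1944 (k2 c1945 c14497 (k1 c14269 k0))) (by decide +kernel)
def c15926 : PP 9 3 T 0x4005400000000000000000000000000000000000040000000100000400014004000000000000000000014044515000000000080000111060015001414100 := rS 0x1228381835c6d21d35c728b (k8 c685 c439 c1764 c5654 c14487 c8999 c289 c2088 (k2 c1897 c13457 (k1 c3613 k0))) (by decide +kernel)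
def c15927 : PP 9 3 T 0x2000000000000022000010000000000000000000000004000100000000000000000000002040000000000000150150500000080004441010015008044000 := rS 0x5a925bc0b0fb5870d5698c18a238a885669b (k8 c5397 c5532 c5528 c5414 c5409 c682 c15909 c1918 (k8 c1475 c1917 c3608 c2472 c2470 c2192 c10368 c2514 (k1 c3584 k0))) (by decide +kernel)
def c15928 : PP 9 3 T 0x2000000000000022000001080000000000000200040004000100000400000000000000000000000000000004510110000000000000000000005000440011 := rS 0xf9aad22235c683745868665a2cf8c8e4b148f48611789901e5d04b1cfe773aa1e02f342bfd3ea10ce74bfe16632552d167a7556fd4aa5d3641efa67dfb2 (k8 c5210 c15871 c5530 c10390 c15626 c5397 c5404 c5488 (k8 c5405 c5500 c5412 c5543 c5501 c5489 c5396 c3617 (k8 c14406 c5439 c8483 c5393 c5398 c5448 c5544 c5541 (k8 c5540 c5502 c5499 c5440 c5356 c5358 c5357 c5438 (k8 c14849 c9739 c15726 c9695 c5558 c5561 c5560 c5339 (k8 c5342 c5562 c13634 c15925 c5644 c4438 c1892 c685 (k8 c2330 c15927 c1763 c15926 c14487 c141 c2936 c14488 k0))))))) (by decide +kernel)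
def c15929 : PP 9 3 T 0x400000000022000001080000000000000100040004000100000400000000000000400000000000000004410110000000020000000000020000404001 := rS 0xcc62350d90d2e1d4aec812750cb248af1 (k8 c9695 c456 c5396 c5393 c5440 c5438 c5210 c5488 (k8 c5486 c5404 c1949 c1944 c280 c1945 c14498 c3577 k0)) (by decide +kernel)
def c15930 : PP 9 3 T 0x42000000000000040000210000000000000000000040000000000100000000000000000000000000010000000040000000100010005180000000000004000 := rS 0x11a0701 (k4 c5502 c1936 c10155 c15923 k0) (by decide +kernel)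
def c15931 : PP 9 3 T 0x2000000000000042000201000000000000000000040004000000000000000000000000000000000000000000000000000000000000000000000000000010 := rS 0x1aac51a8e094372122c671d2d167e6df71b5d9645f10a0935966787dfdfcea6d92a1789a55a977ea55520f2ea051b133ea251e773aaada2f3678044e13129bc2e5f49808c9b204e48469d8aa676929 (k8 c15924 c15917 c5530 c5414 c5412 c5409 c15899 c5438 (k8 c5210 c15726 c15916 c261 c5439 c1107 c5565 c1113 (k8 c5564 c267 c28 c5543 c5540 c5501 c5500 c5440 (k8 c5356 c5568 c5567 c5566 c5382 c5381 c5380 c14849 (k8 c9739 c5489 c5488 c5405 c5404 c5490 c9742 c9695 (k8 c5398 c5396 c5397 c8483 c10390 c15871 c14406 c3617 (k8 c15928 c10038 c5651 c5166 c456 c5464 c5465 c5466 (k8 c5580 c5271 c15929 c5644 c4516 c4438 c686 c5658 (k4 c2330 c15930 c6327 c439 (k2 c682 c2779 (k1 c5287 k0))))))))))) (by decide +kernel)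
def c15932 : PP 9 3 T 0x4000000000028000200080000000000000200000000000000000000000045000400000000000000000000000000000000020000000408005006004000 := rS 0x1b879c0f5f0bf43aa940c4cfa8f639e4fe3d6f92c8e218aacc4629 (k8 c5339 c5409 c5532 c5414 c5528 c5562 c5342 c14342 (k8 c5560 c5358 c5441 c5357 c5568 c5566 c5382 c5380 (k8 c5489 c5486 c5405 c14334 c14450 c14332 c5816 c1483 (k1 c1165 k0)))) (by decide +kernel)
def c15933 : PP 9 3 T 0x4000000000069000200080000000000000200000004000100000000000045000000040000000000010000000000000000020000000400005006004000 := rS 0x3bc331fb8d3c991a8f596292284c6275 (k8 c5440 c1945 c5564 c284 c5339 c1320 c5560 c437 (k4 c5530 c5680 c1607 c2878 (k2 c15932 c5653 (k1 c14439 k0)))) (by decide +kernel)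
def c15934 : PP 9 3 T 0x2000000000000028000001080000000000000000000000000000000400000010000440000000000000000000400110000000020000001400000002010011 := rS 0x1c27b488d8141e78bf43aa93cbdd56f311884b61b (k8 c1944 c32 c5528 c5409 c5540 c5500 c5498 c5441 (k8 c5489 c5486 c5405 c9695 c5816 c10419 c1165 c694 (k2 c691 c1483 (k1 c5846 k0)))) (by decide +kernel)
def c15935 : PP 9 3 T 0x2008000000000021000201080000000000000200000004000100000000000000000000000000000000000000000000000000020000000400005002000011 := rS 0xef0cde83f71a06267d478d4223d6f92c8e218aacc46313ab4d601b789be3aad0eec8c8432284d9629 (k8 c5339 c1320 c5564 c284 c5561 c15726 c5210 c5486 (k8 c5490 c5341 c5565 c9695 c1944 c9423 c2086 c5440 (k8 c1945 c5409 c5532 c5414 c5528 c5562 c5342 c14342 (k8 c5560 c5558 c437 c5568 c5566 c5382 c5380 c5466 (k4 c5576 c15934 c14450 c5653 (k1 c14439 k0)))))) (by decide +kernel)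
def c15936 : PP 9 3 T 0x2000000000000061000201080000000000000200000004000100000000000000000000000000000000000000000000000000020000000400005002000011 := rS 0xcfbed664283c6d3580c436455687764640784cde757bbcc6af121c759629 (k8 c5339 c1320 c5341 c5561 c9695 c437 c5540 c5498 (k8 c5440 c5565 c5564 c9739 c15726 c5210 c5486 c5490 (k8 c284 c1944 c1945 c9423 c2086 c15935 c15933 c1197 (k4 c1198 c5494 c2185 c5653 k0)))) (by decide +kernel)
def c15937 : PP 9 3 T 0x10000000000000000000040000000100001000000000000000001000000400020000000800000000090004400440015540044000 := rS 0x26bc0b41c925e80b (k8 c2310 c1896 c10368 c2474 c3584 c5654 c1199 c5536 k0) (by decide +kernel)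
def c15938 : PP 9 3 T 0x2004000000000000000201000000000000000200000004000000000000000000000140001050000000000000000401500000100000000000000000000000 := rS 0x1ebe68143b450acf (k8 c5543 c5541 c5501 c5499 c5380 c15819 c3607 c15912 k0) (by decide +kernel)
def c15939 : PP 9 3 T 0x2000000000000040000201000000000000000200040004000000000000000000000000000000000000000000000000000000000000000000000000000010 := rS 0x1b87c180b416759ae15078dacd569b20608b62868b4596f91c96291e90c220f2ea051a7d44b1cf2773ab45e6011384c4a6f8a885663b4e88f68350c6c42e5f49808c9b204e4a52f1 (k8 c9695 c15924 c15899 c5438 c5210 c15726 c15916 c261 (k8 c5439 c1107 c15931 c5648 c437 c15917 c5409 c5412 (k8 c12293 c5532 c5528 c5414 c5565 c1113 c5564 c267 (k8 c28 c5540 c5501 c5440 c5356 c5441 c5357 c5567 (k8 c5566 c5381 c5380 c14849 c9739 c5558 c5561 c5560 (k8 c5339 c5342 c5562 c14342 c15936 c5644 c1892 c682 (k8 c685 c1163 c1162 c1918 c1475 c8254 c5465 c2190 (k8 c1720 c2192 c14249 c15938 c2310 c1897 c1112 c2363 (k1 c15937 k0))))))))) (by decide +kernel)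
def c15940 : PP 9 3 T 0x2000000000000008000201080000000000000100040000000000000000000000000440000000000000000000000000000000020001000400000502000011 := rS 0x47f9b8096f40d90cb68189a251eab (k8 c5500 c5568 c5567 c5382 c5380 c32 c1949 c1944 (k4 c14455 c2595 c14336 c5591 (k2 c2789 c5660 k0))) (by decide +kernel)
def c15941 : PP 9 3 T 0x2000000000000040000201000000000000000000040004000000000000000000000000000000000000000000000000000000000000000000000000000010 := rS 0x1a84245b14345a2cb7dc6d722f885049ac8d47618d8ca443154e88f68930b8944e01013c764642ea051a13379f5125f049dceb92 (k8 c15899 c5440 c5356 c5438 c5439 c5567 c5566 c5565 (k8 c5564 c5381 c5380 c14849 c15726 c5210 c9695 c15916 (k8 c28 c267 c1113 c1107 c261 c15917 c5409 c5412 (k8 c5414 c5528 c15924 c15931 c5648 c12293 c437 c15939 (k8 c10038 c5651 c5226 c456 c5465 c5466 c5580 c15940 (k4 c5644 c1892 c682 c686 (k2 c1310 c5287 (k1 c2779 k0)))))))) (by decide +kernel)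
def c15942 : PP 9 3 T 0xa000021080000000000000000000000000200000000000080000000000000000000000000000000000000100000000010000000000000 := rS 0x10d275329b49bc4d6192da1c421d (k8 c5486 c342 c5373 c2101 c5315 c5523 c9695 c5444 (k4 c5397 c5447 c15772 c14275 (k2 c10507 c5280 k0))) (by decide +kernel)
def c15943 : PP 9 3 T 0x80000000000000051000020000000000000000000040000000000000000000080000000100040000010000000000001044024400000005055000010400042 := rS 0x1a6a16432c4c9a55079329d369843423889ecd621229248701 (k8 c5592 c2107 c5588 c503 c342 c5523 c5372 c9727 (k8 c9731 c1056 c661 c666 c5855 c7114 c5650 c2103 (k4 c3598 c12200 c4105 c1189 (k2 c2927 c14519 (k1 c15874 k0))))) (by decide +kernel)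
def c15944 : PP 9 3 T 0x50000201000000000000000000040004000200000000000000000000000000000000000000000000000000000000000000000000000010 := rS 0x261429d4d8a1901f1289c0401d88d4b0d56696dbde17b7cab23d1b8c42e071f8cc32ad0e974e6818984cde7d2f8258e793f98f248735e73daf3323f764f1 (k8 c9695 c5210 c5405 c15726 c15779 c15941 c5218 c5523 (k8 c5373 c15899 c5355 c5358 c5441 c5357 c5438 c5439 (k8 c5566 c5565 c5564 c5382 c5380 c5379 c14849 c5486 (k8 c5490 c5315 c5316 c5318 c5432 c5433 c5434 c5435 (k8 c5436 c12891 c5231 c15778 c11668 c14109 c2101 c2071 (k8 c3003 c5644 c280 c15942 c15943 c5642 c267 c1113 (k8 c1111 c15918 c5651 c7393 c1276 c1195 c5679 c2443 k0))))))) (by decide +kernel)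
def c15945 : PP 9 3 T 0x52000220080000000000000200040000000000000000000000000000000000000000000000000000000000000000000000000100000002 := rS 0x2d56715f90784711489ac2247 (k8 c5562 c5558 c5523 c5374 c9727 c9731 c5650 c12431 (k4 c15434 c2321 c5548 c15768 k0)) (by decide +kernel)
def c15946 : PP 9 3 T 0x52000201000000000000000200040004000000000000000000000000000000000000000000000000000000020000000000000000000010 := rS 0x2e1b0100442f61896de2970ea57645d2f9d41a8349865923519f7bc27b47e48d71148e7253ed (k8 c15941 c15944 c5218 c5374 c9727 c5523 c15899 c5568 (k8 c5372 c11870 c5165 c5492 c5450 c5396 c5393 c5444 (k8 c5525 c5522 c5440 c5439 c14849 c5210 c5488 c5486 (k8 c5404 c9695 c32 c1945 c15891 c342 c15945 c5642 (k2 c5280 c1107 (k1 c3577 k0)))))) (by decide +kernel)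
def c15947 : PP 9 3 T 0x52000201000000000000000200040004000000000000000000000000000000000000000000000000000000000000000000000000000010 := rS 0x1bd021d3fe02d07a22d0af72d1648e112ea36268943a0de6647eec9e2cf66f7bc27b47e48d71148e7253ed (k8 c15941 c15944 c5218 c5374 c9727 c5523 c15899 c5568 (k8 c5372 c11870 c5165 c5495 c5453 c9695 c5210 c5405 (k8 c15726 c15779 c5525 c5373 c5567 c5382 c5381 c14849 (k8 c5558 c5562 c15946 c5644 c4479 c684 c685 c5657 (k4 c12425 c15283 c2341 c1926 (k2 c3613 c11859 (k1 c2516 k0))))))) (by decide +kernel)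
def c15948 : PP 9 3 T 0x80000000000000010000020000000000000000000040000000000000000000000000000000000000000000000000000044000000000000000004100000002 := rS 0x78da23 (k4 c9731 c666 c5650 c12200 k0) (by decide +kernel)
def c15949 : PP 9 3 T 0x52000201000000000000000000040004000000000000000000000000000000000000000000000000000000000000000000000000000010 := rS 0x1b010047e278e16086451096deb0124bdbe559f78cc6bdef0b2432934b8752a5d889cd028d899bcfa89479fceb923da1d226bce7b5e6647eec9e329 (k8 c15944 c9695 c5210 c5405 c15726 c15779 c15941 c5218 (k8 c5523 c5374 c5373 c5372 c15899 c5440 c5358 c5568 (k8 c5567 c5566 c5565 c5382 c5381 c5380 c5379 c9727 (k8 c14849 c5488 c5486 c5404 c5444 c5393 c5396 c11870 (k8 c5165 c5450 c5492 c8993 c15947 c5231 c15778 c5588 (k8 c5592 c155 c2101 c342 c503 c2107 c5644 c5658 (k4 c351 c405 c15948 c5642 (k2 c5280 c14512 k0)))))))) (by decide +kernel)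
def c15950 : PP 9 3 T 0x40000000000000051000000000000000000000200040004000100000000000080000000100000000000000010000005000424400000100011000010000012 := rS 0xa05a35c2eaa0f400da1a1186622d1f00948e21 (k8 c342 c5562 c5559 c5225 c5459 c9727 c9699 c9731 (k8 c1056 c666 c15798 c5650 c2103 c10515 c2145 c11939 (k2 c14581 c4055 k0))) (by decide +kernel)
def c15951 : PP 9 3 T 0x41000000000000051000200000000000000000200040004000100000000000001000800000000000010000010000405000424420000000001010010001110 := rS 0x30ca4985d640200b5606f61a914271d (k8 c5341 c5564 c284 c280 c15891 c2195 c1663 c15950 (k4 c5642 c15799 c1107 c261 (k2 c2459 c5648 (k1 c1320 k0)))) (by decide +kernel)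
def c15952 : PP 9 3 T 0x50000201000000000000000000040004000000000000000000000000000000000000000000000000000000000000000000000000000010 := rS 0x194985c34022d16452e218d63c7f36fb35c2d1f06c652f378ab5fa1d4aec8c85d40c4cfa8f2f824f263c91ed220d35a0f39ed (k8 c15941 c5218 c5525 c5523 c5522 c5374 c5372 c15899 (k8 c5355 c5441 c5438 c5439 c5568 c5566 c5382 c5380 (k8 c14849 c15726 c5210 c5488 c5486 c5405 c5490 c9695 (k8 c15779 c15944 c15949 c5225 c5459 c5460 c5537 c5538 (k8 c11668 c11976 c12084 c14249 c5846 c9421 c15951 c5644 (k4 c1893 c1892 c1107 c261 (k2 c1163 c5648 k0))))))) (by decide +kernel)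
def c15953 : PP 9 3 T 0x1001000000000020000201080000000000000200040004000000000000000000000000000000000000000000000000000000000000000000000000000010 := rS 0xca4c2e1a011699259ef3de52642e84c120d41ec7385f (k8 c5439 c5218 c8483 c5525 c5522 c5438 c5564 c14849 (k8 c15726 c12891 c15867 c5165 c15891 c5494 c5644 c1893 (k4 c1892 c1107 c261 c1162 (k1 c5648 k0)))) (by decide +kernel)
def c15954 : PP 9 3 T 0x1001000000000028000000080000000000000000000000000200000000000081000000000000000000000000000004000400020000000000000000001018 := rS 0x68f7d9ecd640dc0e3919865faab1a8242e5f (k8 c5439 c1107 c5438 c280 c5413 c5405 c5315 c5316 (k8 c5317 c5432 c5435 c15918 c2071 c11576 c5494 c2133 (k1 c5688 k0))) (by decide +kernel)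
def c15955 : PP 9 3 T 0x40000201000000000000000000040004000000000000000000000000000000000000000000000000000000020000000000000000000010 := rS 0x7bc7618f177a52494985c4e020086dec5b78ec8c8814684cfa89049fcea7b069ad062355886b3e14cc54dab34ec47639c2fed3db92 (k8 c15899 c15941 c15952 c5439 c5218 c8483 c9727 c5412 (k8 c5532 c5529 c5414 c5530 c11748 c15953 c5528 c5413 (k8 c5409 c5525 c5523 c5522 c5372 c5440 c5358 c5438 (k8 c5567 c5566 c5564 c5381 c5380 c15726 c5210 c9695 (k8 c32 c15891 c2103 c1056 c5642 c267 c1107 c261 (k8 c10038 c15954 c5165 c5226 c5648 c12293 c8993 c14457 k0)))))) (by decide +kernel)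
def c15956 : PP 9 3 T 0x40000201000000000000000000040004000000000000000000000000000000000000000000000000000000000000000000000000000010 := rS 0x4d98594de5afcbdea1580a04a270d008b459acf8762b34c9b62a9dda1af39ed3fb1cbf923e9bc271340990bb11 (k8 c9727 c14849 c15726 c5380 c5382 c5564 c5565 c5566 (k8 c15899 c5439 c5357 c5358 c15941 c5218 c5523 c15952 (k8 c5412 c5414 c5529 c5530 c5532 c8483 c11748 c15953 (k8 c15955 c5644 c1893 c1892 c267 c1113 c5651 c1309 (k8 c4051 c5506 c5171 c5548 c14109 c14125 c1755 c1326 (k1 c10443 k0)))))) (by decide +kernel)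
def c15957 : PP 9 3 T 0x2000000000000042000101040000000000000000040004000200000000000000000000000000000000000000000405000000020000000000000000001002 := rS 0x1df63274da212f9c846694aaa7651108895eeab68c05e6ff46c76b0f53b8ccc6c94da640e17 (k8 c5433 c5432 c5447 c5397 c5396 c5395 c8428 c2051 (k8 c1947 c5212 c5341 c2169 c5544 c5540 c5502 c5501 (k8 c5500 c5498 c9666 c9667 c9727 c5210 c5489 c5488 (k8 c9742 c9731 c11969 c1054 c14723 c666 c5855 c10253 (k2 c15342 c14045 k0))))) (by decide +kernel)
def c15958 : PP 9 3 T 0x2000000000000052000001040000000000000000040004000200000000000000000000000000000000000000000000000000000000000000000000000010 := rS 0x2c9c1131337dc670f131cbe81622d4447f3e820681f1084836020085c0e3f78a5c523d2092eb0854883423a107a0cd6a9d9444f67947e70b05b55990ba1919a4d3ec9 (k8 c5396 c5448 c5444 c8428 c6205 c14849 c15726 c5500 (k8 c15785 c5644 c5211 c5526 c5524 c5372 c9727 c5210 (k8 c5489 c9672 c8722 c9739 c15956 c9667 c9673 c13457 (k8 c5541 c5212 c5342 c5340 c5560 c8199 c5404 c9695 (k8 c5318 c5432 c5433 c15957 c5642 c5280 c14810 c265 (k8 c1111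 c14824 c15918 c13946 c2917 c5650 c11945 c281 (k8 c1744 c1629 c838 c5670 c12251 c5466 c5580 c2868 (k4 c756 c3610 c486 c2898 k0)))))))) (by decide +kernel)
def c15959 : PP 9 3 T 0x2000000000000052000001040000000000000000040004000000000000000000000000000000000000000000000000000000000000000000000000000012 := rS 0x1aeb4408c7e6b3038e8901e8191443154422ce423019a4224314ab44a3d2092c8ef780bcdfe7b3ce711b1dac685ea582d990ba8335c4466356aa73bd29f0b259eab68bf52a9754ec93699 (k8 c5447 c5397 c5210 c5489 c5404 c5488 c5405 c5501 (k8 c5500 c5543 c5396 c8772 c15958 c5214 c9090 c5454 (k8 c5450 c8428 c9727 c9672 c8722 c14849 c15726 c15785 (k8 c5644 c1947 c15956 c5212 c5341 c2169 c5211 c5524 (k8 c5372 c5544 c5540 c5502 c5498 c5562 c5342 c5340 (k8 c5560 c9666 c5490 c8199 c5252 c9667 c9742 c28 (k8 c9731 c11969 c855 c1317 c4089 c14723 c14205 c10681 (k8 c5650 c3593 c8815 c13795 c2321 c5588 c1679 c12653 (k2 c5685 c1984 (k1 c8629 k0)))))))))) (by decide +kernel)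
def c15960 : PP 9 3 T 0x2000000000000052000001040000000000000000040004000000000000000000000000000000000000000000000000000000000000000000000000000010 := rS 0x3c4e240c4d142770b7cbc301b058e8391d9fd8e7d110183e210d808e6014e3346ac5ef4a7c2994db2526f14bbf52a3d23d610ed142b3d220d08e841e8335aa765113d9e51f9c0c9dc66582daacc85d (k8 c14849 c15726 c5500 c15785 c5644 c8428 c2051 c6205 (k8 c5211 c5526 c5524 c5372 c9727 c5210 c5489 c9672 (k8 c8722 c9739 c15956 c9667 c9673 c13457 c5543 c5541 (k8 c5501 c5499 c5212 c5562 c5560 c5488 c5405 c5404 (k8 c9695 c5444 c5396 c5397 c5447 c8772 c15958 c5214 (k8 c5451 c5450 c5495 c9090 c15959 c9719 c5642 c5280 (k8 c265 c1111 c14824 c5650 c1456 c13650 c676 c1674 (k8 c395 c3607 c13264 c5654 c1452 c1107 c2331 c1483 (k4 c14282 c14283 c858 c856 (k2 c3610 c5670 (k1 c5466 k0))))))))))) (by decide +kernel)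
def c15961 : PP 9 3 T 0x41000101040000000000000000000000000000000000000000000000000000000000000000000000000100020000000004000000000002 := rS 0xc43122cc25f390444a3dac0fc0e319435da7e2 (k8 c5236 c5579 c5465 c5209 c5434 c5432 c5318 c5212 (k8 c5560 c9666 c9667 c11969 c10372 c661 c855 c5663 (k2 c14554 c837 k0))) (by decide +kernel)
def c15962 : PP 9 3 T 0x1000000040000000000000000000000000000000000000000000440000040000800000001400155040004000000000000000000000000 := rS 0x1c313 (k2 c2457 c14210 (k1 c3610 k0)) (by decide +kernel)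
def c15963 : PP 9 3 T 0x40000100000000000000000000000000000000000000000000000200000000000000000201000010040000000000000000000000000000 := rS 0x389be289e (k4 c1597 c1598 c2815 c3048 (k1 c5666 k0)) (by decide +kernel)
def c15964 : PP 9 3 T 0x4000000000000048000101000000000000000000000000000000000800000000000000000000001000000000101000000000000000000000000000000011 := rS 0x220dc8b38abeb073 (k8 c9719 c5212 c5406 c756 c858 c5666 c5673 c8124 k0) (by decide +kernel)
def c15965 : PP 9 3 T 0x2000000000000050000001040000000000000000040004000000000000000000000000000000000000000000000000000000000000000000000000000010 := rS 0x267c2e089fbc4eb33ef7d88c74e9d4beb54d888c01f1098c360239805be7f71a07c528d88cde2694aec8522525a14d691068441e7b3ca3f388d2c16d56642ec76b1a1 (k8 c15956 c5212 c5341 c14849 c15726 c5500 c15785 c5644 (k8 c2169 c5211 c5526 c5524 c5372 c9739 c9667 c9673 (k8 c13457 c9672 c5541 c5342 c9666 c8199 c5210 c5488 (k8 c9742 c9695 c8428 c15960 c5209 c5236 c5463 c5466 (k8 c5577 c5580 c15961 c9719 c5642 c5280 c9752 c265 (k8 c1111 c15897 c5650 c7393 c11945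 c62 c1575 c1696 (k8 c727 c15795 c5451 c14299 c15962 c486 c14401 c15964 (k4 c3610 c13945 c15963 c5679 k0)))))))) (by decide +kernel)
def c15966 : PP 9 3 T 0x400000000040000101000000000000000000000004000000000000000000000000000100000000000000100010100000100000000011000000000002 := rS 0xfda6d76a91650b0458cce41a34990224314ab764251e9063b58 (k8 c5212 c5341 c5340 c5560 c9666 c5210 c5490 c8199 (k8 c5252 c9667 c15726 c9742 c1056 c11969 c2043 c855 (k8 c1316 c5653 c14205 c14520 c13349 c2085 c5318 c3588 k0))) (by decide +kernel)
def c15967 : PP 9 3 T 0x2000000000000052000001000000000000000000040004000000000000000000000000000000000000000000000000000000000000000000000000000010 := rS 0x198364e8ec7232114a42e1f1086c0401f0a6536c90ca4de2977e8752af706a363b58d0bd5066b54eca225f3ef7d0b9c67b446a09189d724582daacc85d (k8 c14849 c15726 c5500 c15785 c5644 c15965 c5440 c1945 (k8 c5438 c280 c5501 c5543 c5211 c5541 c12425 c5442 (k8 c5439 c9727 c5210 c5489 c9672 c8722 c1947 c15956 (k8 c5212 c5341 c2169 c9673 c5498 c5488 c5486 c5405 (k8 c5404 c9695 c5444 c5393 c5396 c5397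 c5447 c8772 (k8 c15966 c5642 c5280 c265 c1111 c1107 c15918 c5650 (k4 c3577 c395 c492 c13264 (k2 c5654 c8724 (k1 c2329 k0))))))))) (by decide +kernel)
def c15968 : PP 9 3 T 0x40000000000000051000020080000000000000000000000000200100000000000000000500000000000000000000000000000000000151011000180000002 := rS 0x3c4d2f085c7e33 (k4 c5316 c5318 c5433 c12261 (k2 c3588 c5198 (k1 c5579 k0))) (by decide +kernel)
def c15969 : PP 9 3 T 0x2000000000000050000001000000000000000000040004000000000000000000000000000000000000000000000000000000000000000000000000000012 := rS 0x16f04a7e6480f1b5ab0322b5c42a145b20e4230c9a43a950890c52ad128f4824b23bde02f37f9ecf28d8ed6342f5419ad53b28897cfa63efa1738cf688d412313ae48b05b55990bbb1 (k8 c15967 c14849 c15726 c5500 c15785 c5644 c15965 c5440 (k8 c1945 c5438 c280 c5501 c5543 c5211 c5541 c12425 (k8 c5355 c5442 c5439 c9727 c5210 c5489 c9672 c8722 (k8 c1947 c15956 c5212 c5341 c2169 c5524 c5372 c5544 (k8 c5540 c5502 c5498 c5562 c5342 c5340 c5560 c9666 (k8 c5490 c8199 c5252 c9667 c5488 c5486 c9742 c9699 (k8 c9731 c11969 c15966 c855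 c4053 c14723 c2190 c14205 (k8 c10681 c14520 c666 c5650 c3593 c5588 c15968 c5225 (k2 c11149 c10515 k0))))))))) (by decide +kernel)
def c15970 : PP 9 3 T 0x4000000000041000101080000000000000000000000000000000400000000000000000200001010001001400104040000000000004000008800000000 := rS 0x7137d3ce124285647d (k8 c5442 c486 c2927 c485 c2899 c11623 c2946 c5972 (k1 c1608 k0)) (by decide +kernel)
def c15971 : PP 9 3 T 0x48000101000000000000000000000000000000000000000000000000000000000000000000100000000000000000000000004004080011 := rS 0x1128b371c7def157d604a73 (k8 c9719 c9666 c5212 c5406 c9695 c14401 c2868 c5666 (k2 c2978 c8124 (k1 c5673 k0))) (by decide +kernel)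
def c15972 : PP 9 3 T 0x49000101080000000000000000000000000000000000000000000000000200001000001001500104000000000000004000000804000051 := rS 0x38bc4df70c4c90b2130495a111e906b0093e9fcae73 (k8 c9719 c5353 c5358 c5442 c5438 c5212 c5340 c5560 (k8 c9667 c5490 c12613 c15971 c486 c485 c2457 c2899 (k4 c2946 c15970 c5972 c5466 k0))) (by decide +kernel)
def c15973 : PP 9 3 T 0x49000101080000000000000000000000000200000000000000000000000000001004000001400004000000020000000000000804000011 := rS 0x58914dc133889d409ff1a013ac8038fde2af0e90c52ad12a363b58049fce602 (k8 c5642 c9719 c5358 c5438 c5212 c5341 c2169 c9666 (k8 c5490 c8199 c5252 c5486 c5406 c9695 c5318 c5432 (k8 c15918 c1275 c15972 c5463 c1604 c11623 c2927 c2929 (k4 c15971 c5666 c284 c1147 (k1 c3582 k0))))) (by decide +kernel)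
def c15974 : PP 9 3 T 0x2000000000000050000001000000000000000000040004000000000000000000000000000000000000000000000000000000000000000000000000000010 := rS 0x2c140458984fde276ba7c303294ad444930b87c421b0100762311af7cea092fe491a58479ed225bce1ac1af1578752a6407974224314ab764258e92eb1a155b450acf (k8 c5543 c5541 c5501 c5500 c15956 c5212 c5342 c5341 (k8 c9666 c5210 c5490 c8199 c5252 c9667 c14849 c9739 (k8 c15726 c5488 c5486 c5406 c9695 c9673 c9672 c5211 (k8 c15785 c13457 c5372 c5526 c5644 c2169 c15965 c5439 (k8 c5438 c5440 c12425 c280 c1945 c15967 c15969 c5642 (k8 c5280 c265 c1111 c1107 c261 c5650 c11945 c15973 (k8 c5653 c11149 c11814 c2185 c380 c14401 c15971 c15964 (k4 c284 c12244 c3582 c1198 k0)))))))) (by decide +kernel)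
def c15975 : PP 9 3 T 0x22000020000000000000000000000000000000000100000000000000000040000000000000000001000000400000000000000000000000 := rS 0x6b3da74da63 (k4 c5395 c5529 c5412 c5372 (k2 c5523 c13168 k0)) (by decide +kernel)
def c15976 : PP 9 3 T 0x2000000000000042000001040000000000000000040004000000000000000000000000000000000000000000000000000000020000000000000000000010 := rS 0x2064947030f59d7a82d8ec422a2d23f32f9c9bed371b5d96810005c0e3ff100e50333483cbb110890c52ad128f496477bc05e6857f9b54263effbfc2cf3c9dcc88d8ed63423166325369d54a5533b44bec9a2ab (k8 c5500 c5501 c5210 c5404 c15974 c5530 c5488 c5489 (k8 c5412 c5397 c5396 c8724 c4380 c15956 c5212 c5341 (k8 c2169 c15726 c2053 c2386 c5543 c14406 c15871 c10390 (k8 c5395 c5398 c5529 c5544 c5541 c5540 c5502 c5498 (k8 c5562 c5342 c5560 c9666 c5490 c8199 c5252 c9667 (k8 c9727 c14849 c9739 c9742 c8428 c15876 c15880 c5186 (k8 c5318 c5432 c5433 c5642 c5463 c5464 c5465 c5466 (k8 c5579 c5580 c11969 c1054 c5271 c9824 c855 c14205 (k8 c14554 c838 c10374 c1948 c15975 c5669 c5645 c6202 (k2 c294 c2406 (k1 c3593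 k0))))))))))) (by decide +kernel)
def c15977 : PP 9 3 T 0x2000000000000042000001000000000000000000040004000000000000000000000000000000000000000000000000000000020000000000000000000010 := rS 0x3722225f370b7cf68f350d8140d41245e83b194a42e1b011cc0235ce9d4fa092fe48628d2dbc55e1d079747b1d23d6342f711a4c33df66325369d54a5533b44bec9a2ab (k8 c5500 c5501 c5210 c5404 c15974 c5530 c5488 c5489 (k8 c5412 c5397 c5396 c8724 c10390 c5393 c5444 c5409 (k8 c5498 c15956 c5212 c5562 c5341 c5560 c14849 c9739 (k8 c5486 c5406 c9695 c32 c2169 c4380 c15976 c5439 (k8 c5438 c5442 c5440 c8483 c280 c15966 c9719 c5642 (k8 c5280 c1107 c15918 c3577 c492 c14729 c10333 c1947 (k8 c2366 c1948 c2046 c13358 c2311 c691 c2331 c1483 (k4 c11937 c12878 c2605 c2601 (k1 c8124 k0))))))))) (by decide +kernel)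
def c15978 : PP 9 3 T 0x2000000000000042000001000000000000000000040004000000000000000000000000000000000000000000000000000000000000000000000000000010 := rS 0x3ede1c0edac301ab56523ef189d9617371c5a65f46648e68945868660200968b2ccf7f7cc29b64865429f4999d2e9554990ba11218a55bb2128f4824bac685eeab6888d3b1510a6567b4 (k8 c15974 c5532 c5530 c5528 c5414 c5412 c5409 c5501 (k8 c5500 c5498 c15956 c5212 c5342 c5340 c5560 c9666 (k8 c5210 c5490 c8199 c5252 c9667 c14849 c15726 c5489 (k8 c5488 c5404 c9680 c5444 c5448 c5398 c5393 c5396 (k8 c5397 c5445 c10390 c15871 c8724 c15977 c5644 c1057 (k8 c1893 c4438 c1892 c685 c1898 c9719 c15880 c5673 (k8 c5439 c4465 c753 c2172 c1107 c8466 c268 c14214 (k8 c3579 c5318 c2997 c442 c15909 c5689 c1678 c1917 (k2 c2192 c2472 (k1 c14425 k0)))))))))) (by decide +kernel)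
def c15979 : PP 9 3 T 0x41000101040000000000000000000004000000000000000000000000000000000000000000000000000000020000000000000000000002 := rS 0x6669 (k2 c9742 c8428 (k1 c15961 k0)) (by decide +kernel)
def c15980 : PP 9 3 T 0x121000000000000000000000000000000100100014044000000000840000000001100040001000004020004444000000100400042 := rS 0x90de81bd53483069ed1a45 (k8 c285 c2169 c5372 c5522 c5525 c10500 c1947 c10681 (k2 c1327 c3593 (k1 c2946 k0))) (by decide +kernel)
def c15981 : PP 9 3 T 0x4000000000020000110000000000000000200040000000000000000000000000100000840000000010000000005000004400000000000000000005042 := rS 0x7ce26b471f85340a88a74da99 (k8 c5530 c5529 c5412 c9727 c5645 c10253 c5536 c2622 (k4 c1326 c8617 c5548 c12878 k0)) (by decide +kernel)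
def c15982 : PP 9 3 T 0x2000000000000000000000000000000000000000000000000000100000000000000000000000000000000001020000000000040004540000000000002000 := rS 0x8192626f57bc05e6ff (k8 c5544 c5540 c5502 c5498 c2366 c2598 c294 c1986 (k1 c3593 k0)) (by decide +kernel)
def c15983 : PP 9 3 T 0x61000101000000000000000000040000000200000000014044000000500040000010010000040001000004020000000011000000005002 := rS 0xf40aceb8595e36905c0e3f19c448629128f4831d2591eb09d10a64be45 (k8 c285 c10372 c5530 c5528 c5412 c5212 c5562 c5342 (k8 c5341 c5340 c5560 c9666 c8199 c5252 c9727 c5316 (k8 c5318 c5432 c5433 c3588 c5579 c14519 c3062 c15980 (k2 c5645 c15981 (k1 c690 k0))))) (by decide +kernel)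
def c15984 : PP 9 3 T 0x2000000000000040000001000000000000000000040004000000000000000000000000000000000000000000000000000000020000000000000000000012 := rS 0x335a4e06ffcc7c481c40dea9aefa0f383b0b4a4d60d30b5c62d51a9d4c6793eb1c1392f7915608850a2d225f39064d21d4a9901e11218a55bb21292c8ef768c05e68567bfd3a6d4ced3625b46c76b1a1 (k8 c15956 c5212 c5341 c2169 c32 c15978 c15974 c5530 (k8 c5529 c5412 c5544 c5543 c5541 c5540 c5502 c5501 (k8 c5498 c5562 c5342 c9666 c5210 c5490 c8199 c5252 (k8 c9667 c9739 c15726 c5488 c5486 c9742 c9699 c11969 (k8 c10372 c9824 c855 c4053 c1317 c1316 c285 c5506 (k8 c15979 c5438 c5357 c5442 c5441 c5355 c5440 c280 (k8 c14520 c1945 c13349 c14575 c15982 c1059 c15983 c14581 (k8 c1676 c14582 c5525 c12425 c10443 c1947 c10681 c1067 (k8 c3593 c399 c5588 c2947 c400 c14449 c12473 c3063 k0))))))))) (by decide +kernel)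
def c15985 : PP 9 3 T 0x40000000000000048000111000000000000000000000000000000000000000000000000000000000400000001501000001000000000000000000004000011 := rS 0x1ef44a2c4e6e891c5e2afac094e602 (k8 c5642 c9719 c9666 c5212 c5406 c9695 c10427 c5675 (k4 c5666 c268 c858 c8124 (k2 c14401 c5673 k0))) (by decide +kernel)
def c15986 : PP 9 3 T 0x2000000000000008000001000000000000000000000000000000000000000000000000000000000000000002000000000000040000000000000500010011 := rS 0x2deaf17e87552ab (k8 c5500 c5489 c5486 c5405 c9695 c10333 c694 c10419 k0) (by decide +kernel)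
def c15987 : PP 9 3 T 0x2000000000000008000001000000000000000000000000000000000000000000000000000000000000000000000000000000020000000000000500000411 := rS 0x3d5e2fd0eaa5565b (k8 c32 c5500 c5489 c5486 c5405 c9695 c1948 c10419 k0) (by decide +kernel)
def c15988 : PP 9 3 T 0x2000000000000061000101040000000000000000000004000000000400000000000500000000000000000001000000004000020000000000000004000808 := rS 0x1f58e793db7cfe81300dc0fe2940cde3b236a3c8f58 (k8 c5212 c5562 c2311 c5529 c5210 c9695 c8428 c15876 (k8 c5236 c5432 c5435 c15897 c5463 c5577 c5580 c690 (k4 c2307 c726 c1580 c3610 k0))) (by decide +kernel)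
def c15989 : PP 9 3 T 0x4000000000000008000000080000000000000000000000000200000400004001000500000000000000010001080000000000020000000000000000000808 := rS 0x1afdf3db200e09 (k4 c5438 c5432 c15918 c690 (k2 c5494 c2190 (k1 c14766 k0))) (by decide +kernel)
def c15990 : PP 9 3 T 0x2000000000000040000001000000000000000000040004000000000000000000000000000000000000000000000000000000020000000000000000000010 := rS 0x102df3db2c4e3b0c4a542394985cfe793eb1c125fc91c1146ff7ac1c2e389fc91e0a48e743602398051a5b78ec8ba29088963a4b23d6342f780bcd0aff11a762a2136acf69b1 (k8 c15978 c15974 c5532 c5529 c5528 c5414 c5412 c5409 (k8 c5544 c5541 c5540 c5502 c5498 c15956 c5212 c5562 (k8 c5342 c5341 c9666 c9667 c8199 c14849 c5210 c9695 (k8 c32 c2169 c15984 c9719 c5642 c5280 c15834 c15986 (k8 c15987 c2311 c15985 c5547 c5549 c5591 c14538 c5506 (k8 c1147 c14204 c5666 c15988 c5439 c5438 c5357 c5442 (k8 c5441 c5358 c1107 c261 c2470 c2929 c15989 c5648 (k4 c12293 c12487 c1320 c10458 (k2 c14342 c752 (k1 c5846 k0)))))))))) (by decide +kernel)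
def c15991 : PP 9 3 T 0x48000121000000000000000000000000000000001000014000000000000000000404000000155000041000000000000000000000000000 := rS 0x1bce2b48940fdcb156abdfaa9489ad068f (k8 c5526 c5525 c5523 c5374 c5489 c5405 c5406 c5490 (k8 c14204 c5673 c10681 c8783 c3623 c755 c1148 c5666 k0)) (by decide +kernel)
def c15992 : PP 9 3 T 0x41000121040000000000000000000004000000001000014000000000014010000404000000055000141000000000000000000000400010 := rS 0xcd639dfbc603723106793dec8ce64ac06597e2 (k8 c5236 c5464 c6205 c5212 c15726 c9680 c5210 c5372 (k8 c5524 c5525 c15991 c2172 c14214 c14215 c724 c726 (k2 c5495 c3607 k0))) (by decide +kernel)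
def c15993 : PP 9 3 T 0x2000000000000040000001040000000000000000040004000000000000000000000000000000000000000000100000000000000000000000000000000010 := rS 0x1363b0fb1c1890499c0f65e379dbbe34f9fb9626707906b0234e88532020c8e46e7f69f8b3a7518b140e17941cc02644490c52add9095165a2c97423b1599b62bb47fb3d0b0168aad0fa1 (k8 c15956 c5499 c5500 c5501 c5502 c5541 c5543 c5544 (k8 c15974 c5414 c5529 c5532 c15978 c9667 c14849 c15990 (k8 c5644 c685 c9666 c5210 c5490 c8199 c5252 c1898 (k8 c15726 c1057 c9719 c15876 c5433 c5432 c681 c5434 (k8 c1894 c15992 c5236 c5579 c5577 c5435 c5317 c6205 (k8 c1893 c5530 c5528 c5412 c5409 c5212 c5340 c9739 (k8 c9680 c14204 c5673 c14538 c14662 c5450 c5668 c14215 (k8 c2054 c889 c5666 c1517 c10427 c13457 c800 c10367 (k2 c290 c1120 (k1 c3578 k0)))))))))) (by decide +kernel)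
def c15994 : PP 9 3 T 0x2000000000000040000001040000000000000000040004000000000000000000000000000000000000000000000000000000000000000000000000000010 := rS 0x242d4181f8982cf5e166f78c027371c5228cce9d58acb408c42e07f14a032670792c8f5843aada30142b3dfe234ec54426d4cacf69b10122c22892d174862956ec84ba139804b264 (k8 c15726 c15990 c1057 c9719 c15956 c9666 c5210 c5490 (k8 c8199 c5252 c14849 c5644 c1898 c9667 c685 c1893 (k8 c15978 c15974 c5532 c5530 c5529 c5528 c5414 c5412 (k8 c5409 c5544 c5543 c5541 c5502 c5501 c5500 c5499 (k8 c5212 c5562 c5342 c9739 c9680 c6205 c15876 c5236 (k8 c5432 c5433 c5434 c5463 c5464 c681 c1894 c15992 (k8 c15993 c10035 c753 c2172 c268 c14214 c14215 c5495 (k8 c6325 c10425 c690 c956 c1112 c5645 c1149 c3584 (k1 c294 k0))))))))) (by decide +kernel)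
def c15995 : PP 9 3 T 0x60000121080000000000000000000004000000000000014000000000014010000004000000055000040000000000004100000001000018 := rS 0x1429f13b2dc66e38b4c3fe146330d7b23399052251e9049647ac08e2a2136accfa770b97d2609 (k8 c5438 c261 c5439 c1107 c5356 c5442 c5532 c5529 (k8 c5528 c5414 c5409 c5212 c5562 c5342 c5340 c5560 (k8 c9666 c8199 c15726 c9680 c5210 c5523 c8127 c15991 (k8 c14321 c1111 c4465 c753 c2172 c2624 c8466 c268 (k2 c2815 c15695 (k1 c3579 k0)))))) (by decide +kernel)
def c15996 : PP 9 3 T 0x40004000000000041000110000000000000000000040000000000001000040000000000014050000400000001415011541000400000000000000000004040 := rS 0x331c27b500293e836f834dccb891c49758 (k8 c5212 c5342 c10427 c5675 c8466 c5666 c2598 c2512 (k8 c2605 c2815 c5645 c5680 c690 c3060 c3607 c8709 k0)) (by decide +kernel)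
def c15997 : PP 9 3 T 0x2000000000000069000111080000000000000000040000000000000000000000000000000010000000000000150000040000000000000140000001004048 := rS 0x32d343b3837c160c37a411eb4f1c0fe6d76afb962ad57bf5521143aada30142b3dfe238a9b5665f639f4f27f3b9d52609 (k8 c5438 c261 c5440 c5356 c5358 c5441 c5442 c5357 (k8 c5439 c5532 c5529 c5414 c5409 c5544 c5543 c5541 (k8 c5502 c5501 c5500 c5499 c9667 c5489 c5405 c5406 (k8 c5490 c14204 c5673 c14520 c13349 c14538 c5508 c8136 (k8 c3623 c2402 c15996 c3038 c13457 c694 c2948 c5666 (k4 c289 c9933 c1327 c11722 k0)))))) (by decide +kernel)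
def c15998 : PP 9 3 T 0x4000000000000000110000000000000000200040000000000000000000000000100854050000000000000005005500000080000000000000000005000 := rS 0xf9c4e04e3f0b301483 (k8 c1897 c5645 c3607 c5537 c2624 c2191 c8617 c5550 (k1 c12878 k0)) (by decide +kernel)
def c15999 : PP 9 3 T 0x1000000000000000000000000400000001000000008000000004400000015500002001 := rS 0x5a926261f (k4 c2362 c2598 c294 c1149 (k1 c3584 k0)) (by decide +kernel)
def c16000 : PP 9 3 T 0x2000000000000040000001000000000000000000040004000200000000000000000000000000000000000000000000000000000000000000000000000010 := rS 0x3d0281ad670a83c69f13b2cdcb038b4d228cceb146e071f8e43267078f49647ac21d56d180a159eff11c5442b3da6c516114490c52add9097427300b1cfa793b9d42e5f4982724022d164ba64 (k8 c15726 c14849 c15990 c5644 c1893 c15994 c5438 c261 (k8 c5439 c1107 c5440 c5356 c5441 c5442 c5357 c1057 (k8 c9719 c15956 c9666 c5210 c5490 c8199 c5252 c1898 (k8 c9667 c685 c15978 c15974 c5532 c5528 c5414 c5409 (k8 c5544 c5543 c5541 c5502 c5501 c5500 c5499 c5212 (k8 c5562 c5342 c5560 c9739 c9680 c5315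 c5317 c5318 (k8 c5432 c5435 c681 c15995 c15997 c10035 c4465 c753 (k8 c2171 c2172 c8466 c268 c2815 c7824 c5680 c3060 (k4 c1198 c15999 c5645 c15998 (k1 c690 k0)))))))))) (by decide +kernel)
def c16001 : PP 9 3 T 0x400000000040000121080000000000000000000004000000001000014000000000014010000404000000055000041000000000000402000502000008 := rS 0x1e21f35c90df5a89cdc71f78e03e8c661acce642591ceed3218a55bb212b547b58 (k8 c5212 c5560 c1475 c9666 c5210 c5490 c8199 c5252 (k8 c1918 c5356 c5562 c5342 c15726 c9680 c5523 c8127 (k8 c15991 c1111 c1917 c5505 c753 c2172 c268 c1148 (k4 c14342 c12753 c2192 c399 (k2 c5689 c5576 k0))))) (by decide +kernel)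
def c16002 : PP 9 3 T 0x2000000000000049000101080000000000000000000000000000001000000000000000140410000400000000150000040000000000000000000000000000 := rS 0x334f68370c49406e6fa7ce2b44078e07f36bfb962ad57bf5528755b46028567bfd8e7d3c9fcee75 (k8 c5440 c5356 c5358 c5441 c5442 c5357 c5544 c5543 (k8 c5541 c5502 c5501 c5500 c5499 c5489 c5405 c5406 (k8 c5490 c14204 c5673 c13349 c14538 c5508 c8136 c5861 (k8 c3623 c11722 c1604 c2515 c5666 c5680 c1149 c3060 (k4 c2605 c957 c8709 c3607 k0))))) (by decide +kernel)
def c16003 : PP 9 3 T 0x2000000000000040000001000000000000000000040004000000000000000000000000000000000000000000000000000000000000000000000000000010 := rS 0x334f6390520c1a27371c5228ccef7daad362b2196301a8ec31294985cea773cb1c125fc91cd128b0d008025a2cec5666d10c553a23da3fd9e8580b4556877899cc80f2e844862956ec84a3d2591eb1a1 (k8 c15956 c5212 c5562 c5342 c5560 c9666 c5210 c5490 (k8 c8199 c5252 c9667 c14849 c9739 c15726 c9680 c9695 (k8 c5499 c5500 c5501 c5502 c5541 c5543 c5544 c15974 (k8 c5409 c5412 c5414 c5528 c5529 c5532 c15978 c15990 (k8 c5644 c1057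 c1893 c1892 c685 c1898 c9719 c15994 (k8 c5439 c5438 c5357 c5441 c5356 c5440 c1107 c261 (k8 c16000 c5648 c12293 c437 c1163 c1320 c1162 c682 (k8 c1918 c1475 c5494 c16001 c16002 c10035 c753 c2172 (k8 c268 c15999 c1897 c5645 c2470 c691 c1917 c3607 k0))))))))) (by decide +kernel)
def c16004 : PP 9 3 T 0x52000101000000000000000000000004000200000100000080000000000000000000000000000005000000000000000004000000001042 := rS 0xf944a02806b315c6c64e85c7ef11ed6032cd0d22cd28810877649b4c9fcc6d364ac0e425088c4b064 (k8 c15726 c1057 c1946 c9667 c9666 c11969 c1316 c5396 (k8 c2085 c5395 c806 c5447 c5397 c5210 c5486 c342 (k8 c1317 c9742 c855 c1056 c4451 c9699 c5212 c5560 (k8 c9695 c5318 c5433 c15772 c10500 c2620 c839 c14554 (k4 c1984 c2146 c940 c15798 (k1 c5547 k0)))))) (by decide +kernel)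
def c16005 : PP 9 3 T 0x50000001040000000000000000040004000000000000000000000000000000000000000000000000000000000000000000000000000012 := rS 0x3587e81628225231699fc0e996498f6033888f483583d834d679ce00cae58459a510b03909423a13687834f6f6bccc8f154bf76467 (k8 c9680 c5210 c5405 c5489 c9695 c15726 c15779 c16003 (k8 c14529 c1056 c2104 c2316 c15956 c9667 c9666 c11969 (k8 c1316 c1317 c9742 c855 c1057 c9758 c28 c5218 (k8 c5524 c5523 c5522 c5372 c5212 c5340 c5560 c9727 (k8 c8428 c15979 c5395 c5396 c5447 c13795 c806 c2085 (k8 c1946 c16004 c5643 c14732 c12653 c276 c14554 c1984 k0)))))) (by decide +kernel)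
def c16006 : PP 9 3 T 0x100000000000000a000021080000000000000000000000000000100000000080000000500000000200000000000000000000000000151011000008000010 := rS 0x202e12478c7ce3f08e5a633948e936c92ec0c3def (k8 c5506 c2104 c4541 c14849 c5396 c5397 c12404 c15942 (k8 c2043 c2085 c2472 c5456 c8999 c3588 c5576 c494 (k2 c3057 c9158 (k1 c13257 k0)))) (by decide +kernel)
def c16007 : PP 9 3 T 0x41000020080000000000000000040000000200100000000000000000500000000018010000000000000000000000151011000100000002 := rS 0x65269329d6924c6e171f8ccd623 (k8 c9731 c5523 c5316 c5318 c5433 c5435 c15207 c3588 (k4 c5855 c7114 c10507 c14519 (k1 c4105 k0))) (by decide +kernel)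
def c16008 : PP 9 3 T 0x50000001000000000000000000040004000000000000000000000000000000000000000000000000000000000000000000000000000012 := rS 0xb78253b16b8c5aa353a98cfa092fe48da4555085608850a2c3c8d7b1c8b01a0c9a4ce1d4aaa4bb110890c52ad128f4831dac684f66b3ce73daf3323f764f1 (k8 c9695 c5210 c5405 c15726 c15779 c16003 c5218 c5524 (k8 c5523 c5372 c15956 c5212 c5341 c5340 c5560 c9666 (k8 c5490 c8199 c5252 c9667 c9727 c14849 c5489 c5488 (k8 c5486 c9680 c9742 c9699 c1056 c1057 c11969 c14529 (k8 c4521 c2104 c855 c4053 c1317 c1316 c342 c2103 (k8 c14205 c2316 c16005 c5439 c5438 c5442 c5355 c5440 (k8 c280 c14520 c1945 c1983 c16006 c16007 c5225 c14581 (k1 c10515 k0)))))))) (by decide +kernel)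
def c16009 : PP 9 3 T 0x52000101000000000000000000000004000200000100000080000000001000000000000001004005000400020000000000000801000011 := rS 0x3637dc31371b1cbe4837ac9023a62098fe7d0427468121885c7ef14b8752bb21e904e6630f809368d8ed6036c9 (k8 c5396 c1944 c5212 c5341 c2169 c1186 c5642 c1111 (k8 c9752 c9719 c5340 c5560 c5210 c5488 c5486 c5404 (k8 c9695 c5318 c5433 c5434 c15776 c5974 c15772 c15918 (k8 c13946 c2917 c15971 c281 c501 c1744 c486 c2814 (k8 c485 c1629 c839 c1773 c2457 c2899 c2946 c10556 (k1 c14947 k0)))))) (by decide +kernel)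
def c16010 : PP 9 3 T 0x50000101040000000000000000000004000100000000000080000000000100000000010005480005040000020000000000000844000008 := rS 0x1ade2589c10301899bd5e4781c758ad53e8f6b07f030d7bc1919ec9e211 (k8 c9667 c9695 c5210 c8428 c6205 c5214 c5450 c14824 (k8 c676 c5212 c5560 c1456 c5454 c5451 c5341 c2195 (k8 c5562 c5406 c2978 c859 c3068 c856 c5666 c14502 (k2 c5670 c14872 (k1 c5465 k0))))) (by decide +kernel)
def c16011 : PP 9 3 T 0x52000121040000000000000000000004000000000100000080000000000000000000000000000000000000020000000000000800000011 := rS 0x1c513382c84cb122a2e529964a8526f157874224314ab764253da1d2279479cc3e02358651b1dac06d9a33 (k8 c8428 c2071 c1944 c5212 c5341 c2169 c6205 c5523 (k8 c5642 c1111 c9719 c5526 c5524 c5374 c5373 c5372 (k8 c9666 c5210 c5490 c8199 c5252 c9667 c5486 c5406 (k8 c9695 c5444 c5398 c5396 c5447 c16009 c16010 c285 (k4 c14204 c3582 c486 c268 (k2 c2457 c14844 (k1 c2458 k0))))))) (by decide +kernel)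
def c16012 : PP 9 3 T 0x51000120040000000000000000000000000000000000040000000000000040000000001400080000140000000000000000000000000000 := rS 0x130e0f09f6269140b8cffe2 (k8 c5236 c5577 c5466 c5463 c5374 c859 c2981 c13945 (k2 c14235 c5679 (k1 c15963 k0))) (by decide +kernel)
def c16013 : PP 9 3 T 0x50000001040000000000000000040004000000000000000000000000000000000000000000000000000000020000000000000000000010 := rS 0x7d5977c4cc45891516c74e9d4bedf699fdc6d740980623ff14a363030dbd91af1578752b11218a55bb2128f63b58d09ed227941a3ce66319a6c32220f9ac42020083739ed (k8 c16003 c5218 c5522 c16008 c5642 c265 c5523 c1111 (k8 c5650 c6205 c1186 c8428 c9752 c9719 c5526 c5525 (k8 c5524 c5374 c5372 c15956 c5212 c5341 c5560 c9666 (k8 c5210 c5490 c8199 c5252 c9727 c5488 c5486 c5406 (k8 c9695 c2169 c15891 c1944 c2195 c16011 c5209 c5236 (k8 c5318 c5434 c15897 c5463 c5465 c5466 c5577 c5579 (k8 c5580 c62 c1575 c1696 c727 c16012 c285 c14204 (k4 c14554 c3582 c5451 c486 (k2 c14299 c15962 k0))))))))) (by decide +kernel)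
def c16014 : PP 9 3 T 0x50000121040000000000000000000004000200000000000020000000001000000000014004001000440000080000000000000000000008 := rS 0x7ca251540329c6273f9b8e28cf7b4c6ac6ef33da275628dc6217038fcce641e906b07b439e5061945845124314ab76425 (k8 c9666 c5210 c5490 c8199 c5252 c1898 c9667 c685 (k8 c6205 c5525 c5524 c5373 c5372 c5212 c5340 c5560 (k8 c15726 c9680 c5318 c5432 c5433 c5434 c5435 c681 (k8 c1894 c1925 c2339 c5668 c3607 c5450 c5496 c14662 (k8 c5673 c753 c2172 c807 c268 c2620 c3579 c1145 (k4 c1293 c940 c15522 c5547 k0)))))) (by decide +kernel)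
def c16015 : PP 9 3 T 0x50000121040000000000000000000004000100000000010000000000001000001000010000151000440000000000000000000000000008 := rS 0xd163b7cea068a38501e338acfe6ca6bc4bdd0320d60f6873ca0c3e6b0cb159fde (k8 c5214 c5453 c5451 c6205 c5523 c1111 c5525 c5524 (k8 c5373 c5372 c5212 c5340 c10681 c5673 c14852 c5507 (k8 c15107 c5547 c2457 c756 c5464 c8797 c1719 c5685 (k4 c12653 c1748 c2950 c13650 (k2 c8355 c3607 k0))))) (by decide +kernel)
def c16016 : PP 9 3 T 0x20040000000000000000000000000100000000000020000000005050000000000000001000500000004000000000000000000000 := rS 0x7048e860d03da1cf283 (k8 c5525 c5524 c5373 c5372 c3607 c1925 c1926 c1508 (k2 c1674 c5643 k0)) (by decide +kernel)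
def c16017 : PP 9 3 T 0x2000000000000000000000000000000000000000000000000000000000000000000000000200040200000080000001000000000000009 := rS 0x1f85cf808 (k4 c1895 c2174 c1507 c276 (k1 c13946 k0)) (by decide +kernel)
def c16018 : PP 9 3 T 0x52000121040000000000000000000004000000000000010020000000000000001008000000001000000000080000000000000800000009 := rS 0x3e0405c0e37631d4fe714633d8bde94b34eec950a7d2667320f6b0732b87cd61945845124314ab76425 (k8 c9666 c5210 c5490 c8199 c5252 c1898 c9667 c685 (k8 c6205 c5523 c1111 c9757 c9719 c5212 c5560 c15726 (k8 c9680 c5444 c5448 c5398 c5396 c2053 c2075 c16014 (k8 c5214 c5451 c5453 c16015 c753 c807 c16017 c16016 (k4 c2326 c13650 c1259 c5643 (k2 c14278 c276 k0)))))) (by decide +kernel)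
def c16019 : PP 9 3 T 0x41000121040000000000000000000000000000000000010000000000000010001000000000151000140040000000040000000000000010 := rS 0x1bbbe711a44bdd0320d6106190bca1a7e2 (k8 c5236 c5579 c5209 c5433 c6205 c5525 c5212 c5340 (k8 c10681 c5673 c14852 c14662 c756 c5450 c5666 c14215 k0)) (by decide +kernel)
def c16020 : PP 9 3 T 0x50000001040000000000000000040004000000000000000000000000000000000000000000000000000000000000000000000000000010 := rS 0x63b34ee60ef1b918cf689d58acb1b8c42e07f14a363017a215128b553dcb4594d864ce5d0890d5a253da1cf28379991fbb2789cc442106ad43e02009af39ed25d6053a1 (k8 c15956 c8199 c5212 c5342 c16003 c5218 c5523 c16008 (k8 c5642 c1111 c11945 c5522 c265 c5650 c9719 c9695 (k8 c5210 c5405 c15726 c15779 c5525 c5524 c5373 c5372 (k8 c9666 c5490 c5252 c9667 c14849 c9680 c6205 c1186 (k8 c16013 c5644 c4479 c15785 c685 c1898 c684 c5657 (k8 c15283 c16018 c5209 c5236 c5432 c5433 c5434 c5435 (k8 c5464 c681 c1894 c1925 c2339 c16019 c2172 c14215 (k4 c14214 c5493 c5495 c727 (k1 c3607 k0))))))))) (by decide +kernel)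
def c16021 : PP 9 3 T 0x41000000000000000000000080000000000000000000000000000000000040000000140400000000000000001480005000000000000000000000000000000 := rS 0x389fc8180c4fde7d (k8 c5442 c5583 c859 c3068 c857 c5694 c5846 c2575 k0) (by decide +kernel)
def c16022 : PP 9 3 T 0x1000000000000002000101080000000000000000040004000000100000000000000000000000000000000004000000040000020000050000001804400000 := rS 0xe359099624545fcdbee14ef83be326bca5326164865e2ad57a5c3a95d90a4f6913ca3d1a35048c4eb037b20c1b9c (k8 c5218 c5522 c5525 c15891 c2195 c5440 c1945 c5438 (k8 c280 c2169 c5526 c5524 c5374 c5372 c8199 c5210 (k8 c5488 c5486 c5404 c5406 c5490 c9695 c5393 c5396 (k8 c5445 c5447 c14275 c14269 c3577 c5492 c5165 c5458 (k8 c5460 c5538 c11937 c16021 c285 c14204 c3582 c486 (k2 c2458 c11946 k0)))))) (by decide +kernel)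
def c16023 : PP 9 3 T 0x49000101080000000000000000000000000200000000000080000000000000001000000001400004000000020000000000000800000011 := rS 0x2c48a6e099c44ea04ff8d009d66b200e3f19bc55e1d218a55a2539808127f46c76b01b (k8 c1944 c5212 c5341 c2169 c5358 c5438 c5642 c9719 (k8 c9666 c5490 c8199 c5252 c5486 c5406 c9695 c5316 (k8 c5318 c5432 c15918 c2071 c1276 c15972 c5463 c1604 (k8 c11623 c2927 c2929 c15971 c5666 c284 c1147 c3582 k0)))) (by decide +kernel)
def c16024 : PP 9 3 T 0x50000001000000000000000000040004000000000000000000000000000000000000000000000000000000020000000000000000000010 := rS 0x44fc515452c08a1313b2d3e18f04a763030dbd91af15787486add9094831d3da45068f39888420d5a87cd79cf692eb029d085cbe9304e480401 (k8 c16008 c5642 c16020 c5438 c261 c5439 c1107 c15956 (k8 c8199 c5212 c5342 c16003 c5218 c5523 c1111 c11945 (k8 c5522 c265 c5650 c9719 c5526 c5525 c5374 c5372 (k8 c5341 c5340 c9666 c5210 c5490 c5252 c5486 c5406 (k8 c9695 c2169 c15891 c1944 c2195 c16022 c16023 c5225 (k8 c5648 c11814 c1320 c380 c15971 c284 c3582 c14204 (k4 c1295 c11832 c859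 c11976 k0))))))) (by decide +kernel)
def c16025 : PP 9 3 T 0x20000000000000000000000000000200000000000020000000001040000000000000001000500000080000000000000000000000 := rS 0x19ed1628dc62073da1cf283 (k8 c5525 c5524 c5373 c5372 c5432 c5434 c5435 c681 (k2 c1925 c2339 (k1 c3607 k0))) (by decide +kernel)
def c16026 : PP 9 3 T 0x2000121000000000000000200000004000100000000010000000000000000001000000000151000000000500000040004000800000000 := rS 0x63df1ab487c71897ba064557a57646441a7d42c9 (k8 c5396 c5398 c5448 c5525 c15726 c5210 c5488 c5406 (k8 c14205 c10681 c5673 c14852 c756 c12251 c8847 c441 (k2 c5496 c1918 (k1 c5653 k0)))) (by decide +kernel)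
def c16027 : PP 9 3 T 0x1000000000000002000121080000000000000200000004000000000000010020000000000000001008000000041000040000180000040000001800400000 := rS 0x3e448818e9a0cf62b846ad5658f8e2d3f7a3252cd1cb243267148f4825f639dcea3332225fe47 (k8 c5562 c2341 c1898 c15726 c4438 c5440 c5356 c5357 (k8 c5439 c5340 c5560 c8199 c9680 c5393 c5396 c395 (k8 c2075 c16025 c16026 c5505 c4465 c753 c12251 c8466 (k8 c2997 c442 c3057 c948 c2340 c8127 c1926 c2202 (k2 c11905 c5694 (k1 c5588 k0)))))) (by decide +kernel)
def c16028 : PP 9 3 T 0x51000121080000000000000000000004000200000000000020000000000000000008000000001000040000080000000000000000000018 := rS 0x27d42cb13b862a71f978cc2d74e323c2c56601c7e19338f483583db1cee750b97d260945845124314ab76425 (k8 c9666 c5210 c5490 c8199 c5252 c1898 c9667 c685 (k8 c5438 c261 c5439 c1107 c5440 c5356 c5357 c5372 (k8 c5212 c5340 c5560 c9680 c5315 c5318 c5432 c16025 (k8 c681 c5537 c2075 c2076 c4538 c1696 c14309 c5198 (k8 c14311 c5590 c5591 c268 c8466 c1277 c1700 c3579 k0))))) (by decide +kernel)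
def c16029 : PP 9 3 T 0x50000001000000000000000000040004000000000000000000000000000000000000000000000000000000000000000000000000000010 := rS 0x60cd68863c129d8c05e88545aa834f72d16526170497f24b51107c420239805e6f17e990ba11218a55bb21292eb1a1069af39ed (k8 c16003 c5218 c5523 c5522 c15956 c5212 c5342 c9666 (k8 c5210 c5490 c8199 c5252 c9667 c14849 c15726 c5405 (k8 c9695 c15779 c16008 c9719 c5642 c265 c1111 c5650 (k8 c11945 c16020 c5439 c5438 c1107 c261 c16024 c5644 (k8 c4479 c1892 c15785 c685 c684 c5657 c15283 c16027 (k4 c16028 c5225 c5648 c5459 (k2 c5537 c1163 (k1 c14249 k0)))))))) (by decide +kernel)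
def c16030 : PP 9 3 T 0x1000000000000022000101040000000000000000040004000000000000000000000000000000000000000000000000020000020000001000000000080008 := rS 0x385c636f17858e7fef0ec0c0994a04fa1630a7de3b2889ecd6794ea6472cd1980436f64183738ab3218e266d (k8 c5529 c755 c9752 c15726 c5413 c5218 c5522 c5525 (k8 c15891 c2103 c1056 c8428 c2071 c397 c5530 c5412 (k8 c5524 c5523 c5372 c9727 c5210 c9695 c5448 c5445 (k8 c15896 c2870 c751 c5433 c1507 c1108 c1676 c5214 (k8 c2918 c675 c6325 c5670 c5654 c5466 c1483 c14235 k0))))) (by decide +kernel)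
def c16031 : PP 9 3 T 0x41008000000000029000021040000000000000000000000000000000400040000000200000000000000000000080010100000420000000000000004080008 := rS 0x779a8d07f11203ef78a44f28f (k8 c5526 c5524 c5374 c9695 c5583 c3068 c2976 c5694 (k4 c14292 c3012 c10484 c5454 k0)) (by decide +kernel)
def c16032 : PP 9 3 T 0x40000001040000000000000000040004000000000000000000000000000000000000000000000000000000020000000000000000000010 := rS 0x1a3548a8bf9b80fac73a97dbed33fb8dae81300c47fe2946c626703789804010dc0c24f646bc52a64218a55bb2128f4831dac6841a7941a3f39ed559b76833 (k8 c8428 c16029 c5529 c5413 c16003 c5218 c5526 c5525 (k8 c5524 c5522 c15956 c5212 c5341 c5340 c5560 c9666 (k8 c5210 c5490 c8199 c5252 c15726 c5488 c9695 c2169 (k8 c15891 c15867 c2195 c2103 c1056 c5642 c15971 c2814 (k8 c268 c755 c16030 c5209 c5236 c5318 c5434 c15897 (k8 c5463 c5465 c5466 c5577 c5579 c5580 c62 c1575 (k8 c726 c1580 c14235 c14109 c16031 c285 c14520 c3588 (k1 c14295 k0)))))))) (by decide +kernel)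
def c16033 : PP 9 3 T 0x22000001040000000000000000040004000200000000000000000000000000000000000000000000000000080000000000000000000000 := rS 0xeac51b8c42e071c809ee64 (k8 c15726 c4479 c1893 c5317 c5432 c5433 c5434 c5435 (k2 c681 c1894 (k1 c15839 k0))) (by decide +kernel)
def c16034 : PP 9 3 T 0x20000101040000000000000000000004000100000000000000000000000000000000000000150400000000000000000000000000000000 := rS 0xf740d9bde (k4 c5214 c5495 c10681 c5673 (k1 c15215 k0)) (by decide +kernel)
def c16035 : PP 9 3 T 0x1000000000000062000101040000000000000000040004000000000000000000000000000000000000000000000000000000080000000000000000000001 := rS 0xd63e409fff3241d56a273f9b9607146343bd293bb24cefd1e91eb07b4188d571510acdee8b08a24862956ec84a1f01190d79c (k8 c5218 c5523 c15726 c1893 c1111 c9666 c5210 c5490 (k8 c8199 c5252 c1898 c9667 c685 c4479 c5532 c5528 (k8 c5414 c5413 c5409 c5525 c5372 c5212 c5562 c5560 (k8 c5405 c9680 c5396 c2053 c16033 c5214 c13565 c16034 (k8 c753 c2171 c2172 c807 c268 c1148 c16017 c12753 (k4 c5588 c3007 c14602 c13597 (k2 c2201 c1549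 k0))))))) (by decide +kernel)
def c16036 : PP 9 3 T 0x40000001040000000000000000040004000000000000000000000000000000000000000000100000000000000000000000000000000010 := rS 0x1e90079a16263a4da4ce0612f1bcecd1ef8d3dcff33bf4835843a44d68347e70469d109b53219013dd16114490c52add9094e61769f898a073a8c651b10099369edd0968b25d (k8 c14849 c16032 c5644 c15956 c16003 c16029 c15726 c1057 (k8 c16035 c5209 c5434 c1894 c5432 c681 c5236 c5579 (k8 c5433 c9719 c9666 c5210 c5490 c8199 c5252 c1898 (k8 c9667 c685 c4479 c1893 c6205 c5530 c5529 c5528 (k8 c5412 c5409 c5218 c5526 c5525 c5523 c5374 c5373 (k8 c5212 c5340 c5405 c9680 c11835 c5673 c14662 c5450 (k8 c10484 c5668 c14215 c2054 c724 c5666 c1517 c1119 (k4 c14193 c755 c14668 c449 (k2 c8783 c5657 (k1 c1927 k0)))))))))) (by decide +kernel)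
def c16037 : PP 9 3 T 0x40000001040000000000000000040004000000000000000000000000000000000000000000000000000000000000000000000000000010 := rS 0xf442bcdfec7669dc90605af784f01371c5187562b2c621703f8a51b10fbdc04012d164326732174522523d63426bce7b44715109b567b4 (k8 c16029 c5532 c5529 c5528 c5414 c5409 c16003 c5218 (k8 c5523 c15956 c5212 c5562 c9666 c8199 c14849 c15726 (k8 c9680 c6205 c16032 c5644 c1057 c1893 c4479 c1111 (k8 c16035 c5209 c5236 c5432 c5433 c5434 c5464 c681 (k8 c1894 c16036 c753 c2172 c4505 c268 c14215 c1148 (k8 c14214 c12753 c5493 c5495 c726 c3007 c451 c950 (k2 c5657 c16025 k0))))))) (by decide +kernel)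
def c16038 : PP 9 3 T 0x1000000000000028000020080000000000000000000000000200000000000081000000000000000000000000000000000000020000000000000000000018 := rS 0x3c0390c9ec1a6b0b97d2609 (k8 c5438 c261 c5439 c1107 c5523 c5522 c5372 c5315 (k2 c5317 c15954 (k1 c14321 k0))) (by decide +kernel)
def c16039 : PP 9 3 T 0x40000001000000000000000000040004000000000000000000000000000000000000000000000000000000020000000000000000000010 := rS 0x441c785c0e340b7d9a3e4f32c761894c4d42704985c4c023980436127b235e3b2320a63b58d09ed220d41a3c469d559b532b3049f763b4ce7b4bf92 (k8 c16037 c5439 c16003 c5218 c16029 c8483 c5442 c5438 (k8 c5532 c5530 c5529 c5413 c5412 c5409 c5526 c5525 (k8 c5522 c5374 c5372 c15956 c5212 c5341 c8199 c15726 (k8 c5210 c9695 c2169 c15891 c15867 c2103 c1056 c9719 (k8 c5642 c15971 c1107 c261 c268 c2928 c755 c16038 (k8 c5648 c12293 c1320 c380 c379 c2072 c14125 c752 (k4 c1607 c5972 c5460 c3057 (k2 c11746 c3717 k0)))))))) (by decide +kernel)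
def c16040 : PP 9 3 T 0x1000000000000040000100000000000000000000040004000000001000045040000000000000000555000000000000050400000000100000000500000008 := rS 0xf579c0090b5139b886291291eb01f (k8 c1111 c5212 c5562 c9666 c8199 c5252 c5666 c268 (k4 c1148 c12753 c3623 c450 (k2 c1927 c5657 k0))) (by decide +kernel)
def c16041 : PP 9 3 T 0x20000000000000000000000000000000000800000000000000000100014000000000000000000000000000000000000000000001400140000000000000000 := rS 0x28f0f (k2 c5515 c5624 (k1 c9779 k0)) (by decide +kernel)
def c16042 : PP 9 3 T 0x1080000000000800000000000000200500414010000000000000000002000000000002000000020081404540000000000000000 := rS 0x4622f1b27e2a0907bf7c5f6f9d29375fab9194492f2 (k8 c684 c450 c5350 c5351 c5600 c5603 c5604 c12897 (k8 c687 c1900 c16041 c5674 c4515 c998 c997 c453 (k4 c4722 c3395 c3596 c2639 k0))) (by decide +kernel)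
def c16043 : PP 9 3 T 0x11004000000000060000001080000100000400000040004000000000400000000010000000000000000000000000000000000000000000000000000000000 := rS 0x127fb6e71be58be93e9113da46f68fc4ec7385f (k8 c5439 c5218 c8483 c5527 c5526 c5375 c5374 c5372 (k8 c9727 c5172 c5220 c5635 c8870 c5611 c14315 c5200 (k2 c5637 c10602 k0))) (by decide +kernel)
def c16044 : PP 9 3 T 0x49004000000000060000001080000100000400000040004000200000401010008000100420100002000000000000000000000000000050000000008000000 := rS 0x29546e66129db250729349e2ffac15b7476ee1fe03a74a6868de69a5f069554e4764ab5cadc72c1 (k8 c5319 c5317 c5533 c5415 c5413 c5210 c5491 c5489 (k8 c5488 c5407 c5404 c2135 c8355 c14662 c2514 c4772 (k8 c1704 c16043 c5512 c5513 c5624 c5627 c5628 c5938 (k8 c1358 c452 c2538 c6186 c5661 c2138 c1376 c608 (k4 c609 c1609 c3432 c3619 k0))))) (by decide +kernel)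
def c16045 : PP 9 3 T 0x800000000000000000000000000000000000000000000200100000000000000000500000000000000000000000000000000000151004000000000000 := rS 0x698d47e31 (k4 c5434 c5318 c5450 c5496 (k1 c3588 k0)) (by decide +kernel)
def c16046 : PP 9 3 T 0x40000001000000000000000000040004000200000000010000000000000000000000000000100000000000000000000000000000000010 := rS 0x425a16705335e4b44247caa4b2394d8e1abe85d26090c8e7e70d85c4cdac970b28e10341ac5fe8f39805ee02598862aab119ad52fd57ec739ed2ff8fdcc503a253bb4efb5cead53ee488a8b088ccb4592e9923a411ed60862956ec84ba1 (k8 c15956 c9666 c5210 c5490 c8199 c5252 c5212 c5560 (k8 c5340 c5341 c15726 c14849 c16039 c5644 c4438 c9667 (k8 c685 c14205 c16037 c5442 c14520 c5440 c13349 c16045 (k8 c16029 c5412 c1898 c5432 c681 c5673 c8136 c5439 (k8 c16003 c5218 c8483 c5406 c5405 c5489 c5523 c5409 (k8 c5413 c5414 c5528 c5532 c1893 c4479 c1057 c9719 (k8 c5526 c11835 c14204 c5525 c10681 c16040 c11722 c1718 (k8 c1324 c5529 c755 c5587 c5509 c15208 c5317 c5315 (k8 c5438 c261 c1107 c9704 c1892 c5357 c5563 c5562 (k8 c5342 c5343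 c9713 c14852 c3623 c684 c2502 c683 (k4 c16042 c14324 c4774 c16044 k0))))))))))) (by decide +kernel)
def c16047 : PP 9 3 T 0x1080000000000800000000004000200500014000000000000000800000000000000000000000000081400140000000000000000 := rS 0x53a8c5aa5c05df0d7e7dbe7e3a5d78af56c31799f1e172fa4c04640486583ad (k8 c5437 c5319 c5315 c5438 c15726 c1893 c261 c5439 (k8 c1107 c5443 c9680 c5347 c5348 c5600 c5601 c5603 (k8 c12897 c16041 c687 c1900 c5674 c2220 c762 c2221 (k4 c4106 c270 c3236 c1153 (k1 c3580 k0))))) (by decide +kernel)
def c16048 : PP 9 3 T 0x40000001000000000000000000040004000200000000000000000000000000000000000000100000000000000000000000000000000010 := rS 0xe7f2ea146fb5ec845ad9283949a4f17fd60adba3e1efff0b3c25d2d26f341e4cd7ac03bee164b2a2670f1c2e1bf36bb57dd0322ac5feaf7eaa63e551e9063a53ac1ec1a6b41a3c469d55c55722136acd6e7d3aec5ee330d22c2289218a55bb212e84e601beb07c2390b97c3293011901392ce7b768c503968b25d (k8 c14849 c16039 c5644 c5432 c681 c16029 c16003 c5218 (k8 c16037 c5438 c15726 c1893 c261 c5315 c5439 c1107 (k8 c5317 c14321 c5319 c9704 c1057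 c9719 c15956 c9666 (k8 c5210 c5490 c8199 c5252 c1898 c9667 c685 c1892 (k8 c4438 c4479 c8483 c5440 c5442 c5533 c5532 c5529 (k8 c5528 c5415 c5414 c5413 c5412 c5409 c5526 c5525 (k8 c5523 c5522 c5372 c5212 c5563 c5341 c5340 c5560 (k8 c5343 c9713 c5489 c5405 c5406 c11835 c14204 c14205 (k8 c10681 c5673 c14520 c13349 c15208 c5509 c5587 c8136 (k8 c16040 c755 c11722 c1324 c1718 c16045 c16046 c1927 (k8 c2078 c5657 c14324 c8355 c2952 c6044 c4583 c16047 (k8 c16043 c5511 c5512 c5624 c5627 c5628 c5938 c1358 (k8 c452 c2538 c6186 c5661 c2138 c362 c309 c9409 (k4 c1901 c1762 c9458 c6451 (k2 c1726 c5692 k0))))))))))))))) (by decide +kernel)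
def c16049 : PP 9 3 T 0x40000001000000000000000000040004000200000000000000000000000000000000000000000000000000000000000000000000000010 := rS 0x1de647cfc6484fad59627372c0e3ef467847e390c99c52251e92c8f58d088e2a21599f763b4398043e6bce7b42e5f49808b4592e9901392 (k8 c16037 c5438 c15726 c14849 c16039 c5644 c1893 c261 (k8 c5439 c1107 c16003 c5218 c5523 c1111 c1057 c9719 (k8 c16029 c8483 c5442 c5532 c5528 c5414 c5409 c15956 (k8 c5212 c5562 c5342 c5560 c9666 c8199 c9680 c5315 (k8 c5317 c5318 c14321 c16048 c5505 c753 c2171 c2172 (k8 c268 c8466 c1148 c2815 c3584 c7824 c5588 c9422 (k2 c5204 c5494 k0))))))) (by decide +kernel)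
def c16050 : PP 9 3 T 0x1000000000000041000101080000000000000000040004000000001000040040000000100410000404000000150000040000100000000000000500000008 := rS 0xf19c1afee22ac5fead57bf553b235a3f3875 (k8 c5440 c5218 c5526 c5523 c5210 c5489 c5405 c5406 (k8 c5490 c11835 c14204 c14205 c5673 c13349 c16040 c8136 (k1 c11722 k0))) (by decide +kernel)
def c16051 : PP 9 3 T 0x40000001000000000000000000040004000000000000000000000000000000000000000000000000000000000000000000000000000010 := rS 0x495a89e026e38a3206f266f81a3df6ab1590cb180d431294985c3e7344a2c34f701004b459d8824bf92598862aab11ed0d79cf691c963d21896b01114e85e26756ec8c85d (k8 c14849 c15726 c5210 c5490 c9680 c9695 c15956 c8199 (k8 c9667 c5212 c9666 c5252 c5560 c5342 c5562 c16003 (k8 c5218 c5523 c16029 c5409 c5413 c5414 c5528 c5532 (k8 c16037 c5439 c5438 c8483 c16039 c5644 c1057 c1893 (k8 c4479 c1892 c685 c1898 c9719 c1111 c1107 c261 (k8 c16049 c5648 c437 c1163 c1320 c1162 c682 c1475 (k8 c5494 c2133 c5165 c5537 c14249 c2627 c16050 c753 (k4 c2172 c4505 c268 c1148 (k2 c451 c3584 k0))))))))) (by decide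 +kernel)
def c16052 : PP 9 3 T 0x2000000000000010000201040000000000000000040004000200000000000000000000000000000000000000000000000000000000000000000000000012 := rS 0x312736225ac4743e5f3086846715989c52735abd4326f2284fde8f80a47388354eca228d58ed90a8735c4dfe4344960b6ab32174723f0385c6237 (k8 c5435 c5434 c5433 c5432 c5318 c5317 c14849 c15726 (k8 c5500 c15785 c5644 c5567 c1949 c5544 c5382 c9672 (k8 c2114 c5541 c16051 c5421 c2171 c9727 c5210 c5489 (k8 c8722 c5211 c5374 c5502 c5526 c8783 c5564 c284 (k8 c5565 c6205 c1947 c5422 c5419 c5417 c5570 c5574 (k8 c5571 c9731 c1056 c661 c1054 c13749 c2161 c5658 (k4 c5559 c13756 c15782 c5663 (k1 c1274 k0)))))))) (by decide +kernel)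
def c16053 : PP 9 3 T 0x98000200000000000000000000040000000000000000014041000000000000000004000000000000000000020000000000000000000011 := rS 0x40e2a4b2488a39590f8844a1b012b55efd0eacc4e2958835ea8335aa6226f2284c8689 (k8 c5567 c1949 c5564 c284 c5565 c9727 c5489 c9672 (k8 c8722 c1947 c9673 c5421 c5417 c5570 c5574 c5486 (k8 c5405 c5406 c5490 c5642 c1944 c1113 c265 c1111 (k8 c14226 c3582 c5650 c513 c560 c7822 c7820 c8604 k0)))) (by decide +kernel)
def c16054 : PP 9 3 T 0x2000000000000080000001040000000000000000000004000100000000000000000000000000000000000000000000000000000000000000000000000000 := rS 0x77b61b2 (k4 c5210 c5209 c5214 c15095 k0) (by decide +kernel)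
def c16055 : PP 9 3 T 0x2000000000000010000201040000000000000000040004000000000000000000000000000000000000000000000000000000000000000000000000000010 := rS 0x78ec9ef017f960b6ab3217651b6 (k8 c16051 c16054 c14849 c15726 c5500 c15785 c5644 c5544 (k4 c5502 c5498 c5210 c9695 (k2 c16053 c16052 k0))) (by decide +kernel)
def c16056 : PP 9 3 T 0x2000000000000082000101000000000000000000000004000200000000000000000000000000000000000000000000000000000000000000000001000000 := rS 0x6ac0dafeeacec852ff (k8 c5544 c5417 c5210 c14052 c5219 c5507 c5508 c5585 (k1 c14706 k0)) (by decide +kernel)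
def c16057 : PP 9 3 T 0x2000000000000010000001040000000000000000040004000000000000000000000000000000000000000000000000000000000000000000000000000012 := rS 0x899bd15028a8793a622f984466957bf4e2b3139cd6a8d58a0cd6a9d9445228fce4050aff2c16d56642e8cc72070b8c46fb1d0ca033b6 (k8 c16051 c6205 c16054 c16055 c16056 c5435 c5434 c5433 (k8 c5432 c5317 c8428 c14849 c15726 c5500 c15785 c5644 (k8 c5544 c5541 c5502 c5211 c5526 c5374 c9727 c5210 (k8 c5489 c9672 c8722 c5421 c2171 c5422 c5419 c5570 (k8 c5574 c5571 c5405 c5406 c9742 c9731 c661 c1054 (k8 c5663 c4079 c15793 c15434 c8604 c10681 c2978 c858 (k1 c13749 k0))))))) (by decide +kernel)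
def c16058 : PP 9 3 T 0x400000000099000100040000000000000000000000000000000000000000000000000000000000000400480045000000000000005000000900400008 := rS 0x121bd5e19 (k4 c6205 c5406 c2978 c14224 (k1 c1113 k0)) (by decide +kernel)
def c16059 : PP 9 3 T 0x2000000000000010000001040000000000000000040004000000000000000000000000000000000000000000000000000000000000000000000000000010 := rS 0x38bc481898408a8befb11c2df25b1cfa9d3fa6c44600f884360200ec7423d0b81c7f2819865e3b259a7c53b6069acf6913ca3f38582daacc85d (k8 c14849 c15726 c5500 c15785 c5644 c5211 c5526 c5524 (k8 c5374 c5372 c9672 c9673 c16051 c5417 c5572 c5574 (k8 c5210 c9695 c6205 c8428 c16054 c5318 c5432 c5433 (k8 c5436 c16055 c16056 c16057 c5642 c1944 c265 c1111 (k8 c15897 c5650 c7393 c10398 c1696 c1579 c727 c560 (k8 c13097 c13096 c15795 c5451 c16058 c285 c15187 c704 (k4 c699 c5670 c3610 c5466 k0))))))) (by decide +kernel)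
def c16060 : PP 9 3 T 0x400000000098000200080000000000000000040004000000000000014041000000000000000004000000001000000020020000000000000000000010 := rS 0x30f8dbe16f040a524b1e8949247ac0823a1f0d08c3243f791401b1449bc2713408752a7159b2c4e735aa3562f37ea1cf6913ca3f38f5419ad53112f9f4fe631a8246275 (k8 c5440 c1945 c5438 c280 c5355 c5358 c5442 c5439 (k8 c9727 c5489 c9672 c8722 c1947 c5211 c5526 c5524 (k8 c5374 c5372 c2114 c5405 c15779 c5421 c2171 c5422 (k8 c5419 c5570 c5420 c5574 c5571 c5488 c5486 c5380 (k8 c5382 c5564 c5565 c5567 c12830 c16053 c284 c8783 (k8 c1949 c9699 c9731 c1056 c13749 c2161 c5650 c5658 (k8 c2422 c344 c5559 c5560 c5342 c12891 c3593 c5225 (k4 c11149 c14614 c10517 c1460 (k1 c9210 k0))))))))) (by decide +kernel)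
def c16061 : PP 9 3 T 0x2000000000000010000001000000000000000000040004000200000000000000000000000000000000000000080000000000000000100000000000000014 := rS 0x1d2759adf50311ace1b3f8c14803604cd31f07835e6fd3dc1e0bf358bd506a92f9f4fe571a8246275198e47ec11b8f762193081efe1a12844824bac7bf43df68b3f24582d975ff0155bdcc8f11007cdeafd91ac4f115a9c56713429cf6c8f48e704600 (k8 c5642 c9731 c5211 c5374 c5526 c16051 c5419 c5541 (k8 c858 c5574 c5571 c5422 c9727 c5570 c9672 c5210 (k8 c5406 c2978 c13749 c5650 c9695 c15726 c5498 c5500 (k8 c5502 c5544 c14849 c15785 c5644 c16059 c5543 c5501 (k8 c12425 c16060 c5583 c5219 c5342 c5340 c5558 c5559 (k8 c1056 c4562 c5432 c661 c5315 c16056 c5436 c5435 (k8 c5319 c5318 c5317 c5316 c5440 c1945 c5438 c280 (k8 c5353 c5358 c5442 c5439 c5489 c8722 c1947 c5421 (k8 c14538 c5545 c5503 c5372 c5405 c15779 c9673 c9739 (k8 c9713 c9742 c2976 c13291 c12613 c12651 c12823 c14533 (k8 c1716 c857 c856 c14537 c14541 c2192 c1278 c3587 (k1 c341 k0)))))))))))) (by decide +kernel)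
def c16062 : PP 9 3 T 0x4400000000080000000000000000000000000000000000000000000000000000000400000000040000000080050000005400000000000000000000000 := rS 0x140d4409c53ecb39fbcded3 (k8 c2938 c2978 c5583 c5419 c5420 c5572 c5571 c857 (k2 c5689 c3599 (k1 c3000 k0))) (by decide +kernel)
def c16063 : PP 9 3 T 0x2000000000000018000000000010400000400000040000000000000055000000000000000000100100000000080000000000000000000000000000000000 := rS 0x3e3ef177de2fe9a4dce35066b54c45237b47e273907f7c4d0b27 (k8 c860 c5541 c858 c5583 c5503 c5211 c5527 c5526 (k8 c5375 c5374 c9727 c5489 c9672 c8722 c2984 c15065 (k8 c5213 c5232 c5390 c5609 c5635 c10602 c5274 c14695 k0))) (by decide +kernel)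
def c16064 : PP 9 3 T 0x2000000000000010000001000010400000400000040004000000040011000000000000000000100100000000080000050000000000000000000000080000 := rS 0xfa45b738dbee2f491992fc6152748ded1f89ce414deafd944d0b0f (k8 c5026 c5541 c858 c5210 c5406 c2978 c5545 c5211 (k8 c5527 c5526 c5375 c5374 c860 c16063 c5629 c4946 (k8 c3403 c5220 c5390 c5387 c5611 c8937 c3616 c5232 (k1 c5635 k0)))) (by decide +kernel)
def c16065 : PP 9 3 T 0x42004000000000010000001080010400000400000040004000000002001080000010000000000140100000000080000050000000000000000000000080000 := rS 0x1f07c795f78bfa6937387fbc32368335aa765113ddef12ab83c17bed1ce2159fef (k8 c5583 c5543 c5541 c5211 c5501 c12425 c5545 c5503 (k8 c5500 c5527 c5375 c5372 c9727 c5210 c5489 c9672 (k8 c8722 c2695 c16064 c5640 c2208 c15141 c5213 c5232 (k4 c5390 c5609 c8870 c5274 (k2 c5206 c5625 k0))))) (by decide +kernel)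
def c16066 : PP 9 3 T 0x42004000000000010000001080010400000400000040004000200002000080010010000000000140100002000080000050001000000000000000000080000 := rS 0xc0ea54aa7bbdf547a472ee09afb5bfc7eb083220cd6a9d9444bf8fbc98c72c1 (k8 c5319 c5317 c5355 c5359 c5443 c5439 c9727 c5210 (k8 c5489 c9672 c8722 c15726 c16065 c5556 c5514 c2468 (k8 c1992 c2358 c5232 c6186 c5220 c1703 c1367 c5613 (k4 c5428 c1280 c5388 c5607 (k1 c3600 k0))))) (by decide +kernel)
def c16067 : PP 9 3 T 0x80000000080000000000800200000000000200400100500044000000000000000000000000000400000120020000000000000200000002 := rS 0x109a393df4f95cdf30377dce949baf15eadea25 (k8 c5559 c1947 c5600 c5601 c5603 c5604 c12897 c13448 (k8 c669 c1062 c5667 c1299 c862 c1367 c347 c287 (k2 c1992 c8896 k0))) (by decide +kernel)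
def c16068 : PP 9 3 T 0x40000000000000000000000000000000000000000000000000200000000000054000040814000000000000000000000000000000001000011000000000000 := rS 0x38fc23a668cc7237 (k8 c5435 c5317 c5316 c2192 c3587 c5456 c1774 c10298 k0) (by decide +kernel)
def c16069 : PP 9 3 T 0x42004000000000010000001080010400000400000040004000200002000080010000080000000100100000000080000050001000000000000000000080000 := rS 0x5da8138e9 (k4 c4773 c2951 c2950 c4129 (k1 c16066 k0)) (by decide +kernel)
def c16070 : PP 9 3 T 0x2004000000000091000001080000400000400000040004000200000000080014000000000000000000000400080000000000000000000011000200080006 := rS 0x29426c4e455bce16b444e2bdc29cd6a6b48a3deff358c05665f3e9fcc7df68e719e331cb046e61039bd5fb289a149227 (k8 c5570 c344 c5541 c858 c5210 c5406 c2978 c5432 (k8 c661 c5435 c5319 c5317 c5316 c5543 c5211 c5501 (k8 c12425 c5355 c5358 c5442 c5439 c5574 c5502 c5421 (k8 c14538 c5498 c5526 c5374 c9672 c5422 c5419 c5423 (k8 c5575 c5571 c9727 c16062 c1720 c16068 c16069 c13097 (k4 c3604 c1277 c665 c14537 k0)))))) (by decide +kernel)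
def c16071 : PP 9 3 T 0x8000000000080000000080000000000000000000000000000000000000000000000000000000000000000000000004001000000000000000000000000 := rS 0x1428138a7d96732f9f4fe63 (k8 c5355 c5358 c5442 c5439 c5419 c5420 c5572 c5571 (k2 c5463 c5578 (k1 c3599 k0))) (by decide +kernel)
def c16072 : PP 9 3 T 0x2000000000000080001001000000000000400000000004000000002040000000000000000000040000000000000000000000000000000000000000000000 := rS 0x85c370ebff86e15aafc1e457b8555c1e0bf358c0567b2 (k8 c5210 c5574 c5502 c5421 c14538 c5545 c5503 c5500 (k8 c5423 c5575 c5491 c5407 c5406 c5490 c5213 c5220 (k4 c5431 c5429 c15141 c5629 (k1 c3625 k0)))) (by decide +kernel)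
def c16073 : PP 9 3 T 0x2000000000000010400001000410400000400000044004000000000001000400000000000000100100000000080000050000000000200000000008080000 := rS 0x11a85436ddf17c20cd6a9d9446f789ce41d0aff (k8 c5544 c5541 c5503 c5211 c5527 c5375 c9727 c5210 (k8 c5489 c9672 c8722 c5274 c5625 c5659 c4555 c604 (k2 c16064 c3024 k0))) (by decide +kernel)
def c16074 : PP 9 3 T 0x2000000000000010000001000000000000000000040004000200000000000000000000000000000000000000080000000000000000000000000000000014 := rS 0x24fb886fd611afa3e35f721bee2f48bb5027228de81b5bc7678784888494d8803f58899bfde6957c7ce2bdc289ce6b579bf5228f83c17e6b159bd5066b54c44be7d3f98c6a09189d763a1efb4738cfc93fd0b017bec9e219db08cc207bf86800582daacc85d (k8 c14849 c15726 c5500 c15785 c5644 c5642 c1056 c4562 (k8 c5432 c661 c9731 c16051 c5315 c9695 c5210 c5498 (k8 c5502 c5541 c5544 c16059 c5543 c5211 c5501 c12425 (k8 c16060 c16056 c5440 c1945 c5438 c280 c5355 c5358 (k8 c5442 c5439 c9727 c5489 c9672 c8722 c1947 c5574 (k8 c5421 c14538 c5545 c5503 c5526 c5374 c5405 c15779 (k8 c5422 c5419 c5570 c5423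 c5575 c5571 c9713 c5406 (k8 c9742 c5583 c2978 c858 c5219 c13749 c5650 c7393 (k8 c344 c16061 c284 c5026 c16067 c16071 c16062 c16070 (k8 c16068 c11235 c2951 c2950 c4129 c16072 c5390 c5387 (k8 c5606 c5609 c5611 c286 c1951 c16073 c5556 c2211 (k2 c5232 c860 (k1 c8937 k0))))))))))))) (by decide +kernel)
def c16075 : PP 9 3 T 0x200000000000000100000054054000000000000000000000000000000000000000001500000000000000000 := rS 0x9643 (k2 c5561 c5342 (k1 c3593 k0)) (by decide +kernel)
def c16076 : PP 9 3 T 0x2000000000000010000001000000000000000000040004000200000000000000000000000000000000000000000000000000000000000000000000000014 := rS 0xf1b3076e150204dedf0804c95594d9248e1f8a40c8a8b8e9843423001c53ecb139cd1a0d79bf7e6b159bd5066b54c44be7d3f98c6a09189d743df68e719f922c16cbaff42c0556f7db19364f1198e40e37 (k8 c5435 c5432 c5317 c5316 c9695 c5210 c15726 c16051 (k8 c5498 c5500 c5502 c5541 c5544 c14849 c15785 c5644 (k8 c16059 c5543 c5211 c5501 c12425 c16060 c5440 c1945 (k8 c5438 c280 c5355 c5358 c5442 c5439 c9727 c5489 (k8 c9672 c8722 c1947 c5574 c5421 c14538 c5405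 c15779 (k8 c9673 c2171 c5419 c5570 c5420 c5572 c5571 c5642 (k8 c9731 c1056 c661 c2161 c16074 c285 c10681 c11235 (k8 c15434 c2787 c13085 c7393 c16075 c6578 c301 c12638 (k8 c2510 c1061 c699 c3599 c3061 c563 c15359 c16071 (k1 c8709 k0)))))))))) (by decide +kernel)
def c16077 : PP 9 3 T 0x2000000000000010000001000000000000000000040004000200000000000000000000000000000000000000000000000000000000000000000000000010 := rS 0x8af726c44930d87c4201016c47a370b81c7e330c834d609189d743df68e719f922c16cbaff42c0556f7db19364f1 (k8 c9695 c5210 c15726 c16051 c5498 c5500 c5502 c5541 (k8 c5544 c14849 c15785 c5644 c16059 c5543 c5211 c5501 (k8 c12425 c16060 c5440 c1945 c5438 c9672 c9673 c5315 (k8 c5316 c5318 c5432 c5433 c5435 c5436 c16056 c16076 (k8 c28 c265 c1111 c1110 c261 c5650 c7393 c14357 (k2 c14239 c5583 k0)))))) (by decide +kernel)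
def c16078 : PP 9 3 T 0x2000000000000010000001000000000000000000040004000000000000000000000000000000000000000000000000000000000000000000000000000012 := rS 0x40c8a8bf19bc4b582492c8e43100443e9bd885990d78e9843423579c5962739a341af37ea3fe6b159bd5066b54c44be7d3f98f42ff80bdf6cf1498ca53df68e710acf1a8246275c9160b6ab321743bb2 (k8 c5210 c5486 c14849 c15726 c5500 c15785 c5644 c16059 (k8 c5440 c1945 c5438 c280 c5543 c5541 c5211 c5501 (k8 c12425 c16077 c5653 c322 c9695 c16051 c5498 c5502 (k8 c5544 c16060 c5355 c5358 c5442 c5439 c9727 c5489 (k8 c9672 c8722 c1947 c5574 c5421 c14538 c5526 c5405 (k8 c15779 c9673 c2171 c5419 c5570 c5420 c5571 c5406 (k8 c9731 c1056 c662 c2161 c4530 c2043 c2044 c5396 (k8 c10952 c12415 c13233 c5650 c1950 c13598 c12638 c344 (k8 c5660 c5559 c1060 c16071 c16062 c285 c10681 c3593 k0))))))))) (by decide +kernel)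
def c16079 : PP 9 3 T 0x400000000090000101000000000000000000040004000100000000004000000000000040000000000000081050000004520000000008000800000001 := rS 0x3c0e0d8b7d02d78ed61a66f21fbd5e71659cd0e643da44f28fce3d5066b54eca221b (k8 c1944 c9727 c5210 c5489 c9672 c8722 c1947 c5211 (k8 c5526 c5524 c5374 c5372 c15726 c2114 c5419 c5420 (k8 c5571 c5406 c5583 c2775 c2978 c2938 c5219 c5341 (k4 c2185 c857 c12713 c13195 (k2 c14250 c5225 (k1 c5460 k0)))))) (by decide +kernel)
def c16080 : PP 9 3 T 0x2000000000000010000001000000000000000000040004000000000000000000000000000000000000000000000000000000000000000000000000000010 := rS 0x362106bb560645458883e210d808023294e846235ef9d4c67f3eb1c125fc9160b6ff67a1602d155bdde25d14a3563b632037388335aa76511 (k8 c9727 c5210 c5489 c9672 c8722 c5211 c9673 c15726 (k8 c16051 c5421 c2171 c5417 c14849 c9695 c5498 c5500 (k8 c5501 c5502 c5541 c5543 c5544 c15785 c5644 c16059 (k8 c5439 c5438 c5357 c5442 c5358 c5355 c5440 c12425 (k8 c280 c1945 c16060 c16077 c5653 c16078 c5642 c1944 (k8 c265 c1111 c5650 c16079 c285 c10681 c14520 c13349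 (k2 c15187 c14706 (k1 c13309 k0)))))))) (by decide +kernel)
def c16081 : PP 9 3 T 0x10000000000000000000000000040000000000000000040000000000000000001440000000080000050000000000000000004480000010 := rS 0x44cdf1135a451f9c (k8 c5211 c5526 c5374 c9672 c9727 c2978 c859 c13749 k0) (by decide +kernel)
def c16082 : PP 9 3 T 0x82000101040000000000000000000004000200000100000000000000001000000000001000000005401400400000000000000000010000 := rS 0x1fda4c5097b98d5931ab52fb2658a4323f (k8 c5318 c6205 c5417 c5420 c5210 c5404 c5490 c5395 (k8 c14052 c13168 c5219 c12617 c839 c8156 c2917 c8433 k0)) (by decide +kernel)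
def c16083 : PP 9 3 T 0x91000101040000000000000200040000000200000000000000000000400010000000000100040000000000020000000004000080000012 := rS 0x891f8ded212c44e2b3139cd6a6b48a3f383f188f4ee23 (k8 c9731 c2051 c5436 c5434 c5318 c5211 c5526 c5374 (k8 c9672 c5422 c5419 c5570 c5574 c5571 c9727 c5559 (k4 c14554 c1060 c8433 c13749 (k1 c15494 k0)))) (by decide +kernel)
def c16084 : PP 9 3 T 0x10000001040000000000000000040004000200000000000000000000000000000000000000000000000000020000000000000000000012 := rS 0x34c827f09565aed51aa0590746298b624545e8486118ac7606994e878da612f868466957990e2b3139cd62b5db1ed2279ce0fc0e17188dc7a77108759af6419ad53b288fb41a33 (k8 c8428 c9673 c16080 c9727 c5210 c5489 c9672 c8722 (k8 c15891 c2071 c5486 c342 c2051 c5436 c5435 c5434 (k8 c5433 c5432 c5318 c5211 c5524 c5374 c5372 c16051 (k8 c5422 c5421 c5419 c5570 c5574 c5571 c15726 c5406 (k8 c9742 c9731 c1056 c1054 c661 c666 c5650 c5855 (k8 c7114 c4541 c2161 c15434 c13353 c1950 c15768 c16081 (k8 c285 c16082 c5663 c837 c1172 c1171 c937 c281 (k8 c1533 c2189 c16083 c12617 c2917 c298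 c1970 c3588 k0)))))))) (by decide +kernel)
def c16085 : PP 9 3 T 0x1000000000000098000200040000000000000000040004000200000000000001000000000000000000000000000000000000020000000004000004000008 := rS 0x37d8e7f4e983623571b87e449f7c72b24312915127d3784e268156abce2b313ac4f79c1f8f4ee9b258883e217b20cd6a9888343a29 (k8 c5417 c5486 c9673 c9727 c5489 c9672 c8722 c15891 (k8 c342 c1111 c5650 c560 c7393 c2051 c5436 c5318 (k8 c5211 c5372 c5421 c5570 c5574 c5571 c5406 c5490 (k8 c5380 c5382 c5564 c5565 c5566 c5567 c284 c1113 (k8 c1949 c14226 c3582 c5504 c10665 c5171 c6188 c5549 (k8 c15780 c14275 c15810 c1696 c728 c727 c13097 c14109 k0)))))) (by decide +kernel)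
def c16086 : PP 9 3 T 0x90000101040000000000000000000004000200000000000000000000000000000000000400480005000000120000000000000904000008 := rS 0x207c6c5ef1f4fe60096c44b5837fbde2afd927c5219198fc2e3d (k8 c5436 c5433 c5318 c8428 c6205 c5417 c5572 c5210 (k8 c5406 c9695 c5583 c2978 c5219 c1113 c14052 c14509 (k8 c15897 c2917 c1579 c14224 c5451 c6601 c856 c5670 k0))) (by decide +kernel)
def c16087 : PP 9 3 T 0x8a000100040000000000000000000000000200000000000001000000100000000000000000040110000000020000000000000004000000 := rS 0xfcc4f18d192970ea543231 (k8 c5434 c6205 c5488 c5486 c5404 c5396 c5974 c6616 (k2 c281 c5670 (k1 c840 k0))) (by decide +kernel)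
def c16088 : PP 9 3 T 0x10000001040000000000000000040004000200000000000000000000000000000000000000000000000000020000000000000000000010 := rS 0x6fb1d3a7f306c5c64670b563a7d24a0627ee085648a8bd092d36220f86c040110bd9e21d2eacc53b606a0cd6a9d9444f6913ca3f39ed1981c6e3d (k8 c5436 c5435 c5432 c8428 c16080 c5211 c5526 c5524 (k8 c5374 c5372 c9727 c5210 c5489 c9672 c8722 c9673 (k8 c16051 c5417 c5574 c14849 c5486 c9695 c15891 c342 (k8 c16084 c5642 c1944 c1111 c5650 c7393 c560 c16085 (k8 c16086 c285 c14226 c15187 c5219 c704 c699 c3026 (k8 c2747 c5504 c5585 c6188 c14234 c2347 c16087 c15897 (k4 c10398 c1696 c727 c13097 (k1 c3610 k0)))))))) (by decide +kernel)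
def c16089 : PP 9 3 T 0x81000000000000082000000000000000000000000000000000200000000000000000000014000000008000000000000000000000000200000001001000000 := rS 0x77868cdf0901923d (k8 c5436 c5396 c13340 c7694 c2075 c458 c5688 c5450 k0) (by decide +kernel)
def c16090 : PP 9 3 T 0x1000000000000080000221040000000000000000040004000200000000000000000000014000000008000000080000000000080000000000000000000000 := rS 0x284825e498d4c3de3bec7e5596991021ef33a5f649f6589c527346ac4323f0b8f58a073a8c4c67d129bc0464 (k8 c15726 c1893 c5565 c1113 c5566 c9752 c5434 c1894 (k8 c5432 c681 c5436 c5433 c5318 c6205 c5421 c2171 (k8 c5419 c5417 c5570 c5420 c5572 c5210 c5404 c9680 (k8 c5583 c685 c686 c2939 c5558 c5171 c16089 c14463 (k8 c5668 c14464 c5450 c262 c5663 c458 c1121 c3579 k0))))) (by decide +kernel)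
def c16091 : PP 9 3 T 0x82000001040000000000000000000004000200100000000000000000000010000000000000000000100000000000000000001000000000 := rS 0x43f7915a635ef354ee40acb2543b2320a4323d (k8 c5436 c6205 c5417 c15726 c5210 c5398 c5396 c14052 (k8 c13340 c2053 c1657 c5668 c5450 c5496 c458 c11200 (k2 c15348 c5658 k0))) (by decide +kernel)
def c16092 : PP 9 3 T 0x1000000000000000000201000000000000000200000004000000000000040020000000000000000000000001004400000000100000000000000000000000 := rS 0x80fcc8e43 (k4 c5561 c5562 c15766 c1927 (k1 c15775 k0)) (by decide +kernel)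
def c16093 : PP 9 3 T 0x1000400000000080000001040000000000000000000000000200000000020020000000000010000000000000000000104020000004000000001000000010 := rS 0x1c04066285265e3b27d9627148647e171eb446248 (k8 c1928 c5434 c1925 c5436 c5433 c5318 c6205 c5417 (k8 c5570 c5420 c5572 c5668 c2054 c1517 c1121 c10098 (k2 c3579 c2078 (k1 c1715 k0)))) (by decide +kernel)
def c16094 : PP 9 3 T 0x10000201040000000000000000040004000200000000000000000000000000000000000000000000000000000000100000000000000010 := rS 0x1c4e16378541e3669dfbcdf6bc03dcfff9ab55e9565a34f68f42b140e754d87c971344894de0245b3c6ed118d6606aa58ed9e8f72d165e6fd78fb5239c43991066b54eca225d (k8 c14849 c9727 c5210 c5489 c9672 c8722 c15726 c2114 (k8 c5211 c5374 c16080 c9695 c5405 c15779 c16088 c5644 (k8 c4479 c5657 c16051 c5421 c15785 c2199 c16092 c5434 (k8 c1925 c5435 c2339 c16090 c1893 c5565 c1113 c5567 (k8 c5382 c2594 c1111 c7393 c1894 c5432 c681 c684 (k8 c5526 c5372 c2171 c5420 c5488 c5406 c5490 c14422 (k8 c2342 c5171 c3613 c5507 c2953 c16093 c5493 c5495 (k4 c6601 c9031 c8115 c16025 (k2 c3061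 c5691 (k1 c2619 k0)))))))))) (by decide +kernel)
def c16095 : PP 9 3 T 0x10000201040000000000000000040004000200000000000000000000000000000000000000000000000000000000000000000000000010 := rS 0x140934e104c299360d58d15f0f799bf23bb4fde44acec44a7d37c4cce9738acd3ecb138a4e6b546a0d5311439ed228fce0647e171ec750ac5039d4626381aa963b6110841a9b0f808d6cf7a3dcb4592efb5e6647eec9e237 (k8 c5435 c9695 c5210 c5405 c15726 c15779 c16080 c14849 (k8 c16088 c5644 c4479 c5657 c2339 c9672 c1893 c1111 (k8 c7393 c9673 c265 c5650 c16051 c5421 c15785 c2199 (k8 c9752 c5434 c1894 c5432 c681 c684 c4516 c5436 (k8 c5433 c5318 c6205 c5211 c5526 c5374 c5372 c2114 (k8 c9727 c5489 c8722 c2171 c5422 c5419 c5417 c5570 (k8 c5420 c5572 c5574 c5571 c5404 c9680 c5382 c5565 (k8 c5566 c1113 c16091 c16092 c16094 c5582 c2936 c14463 (k8 c5171 c8354 c5668 c8115 c5590 c16025 c5450 c3604 (k4 c2439 c727 c458 c11103 (k2 c482 c3579 (k1 c1277 k0)))))))))))) (by decide +kernel)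
def c16096 : PP 9 3 T 0x90000121040000000000000200000000000200000000040020000000000000000000000000001000000020080000000004000000000011 := rS 0xffe34ca4d025e3b77dab12f735c8b0144a2f6241218444a5d4fb2c4e2946ac4f2191f85c7b1d6281cea31 (k8 c5434 c1894 c5432 c681 c4516 c5436 c5433 c5318 (k8 c6205 c5524 c5421 c2171 c5417 c5570 c5420 c5572 (k8 c14849 c5559 c5558 c5561 c5340 c14052 c685 c1898 (k8 c1927 c14205 c13349 c8120 c14852 c5585 c16045 c5668 (k4 c2054 c938 c1517 c1520 (k2 c7824 c15494 (k1 c14232 k0))))))) (by decide +kernel)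
def c16097 : PP 9 3 T 0x82000001040000000000000000000004000000000000000000000000400010000000000000000000100000000000000000000000000000 := rS 0xefdf64a855aaf4aec8c8cb (k8 c5420 c15726 c5210 c5488 c5406 c5490 c5398 c5396 (k2 c9031 c2053 (k1 c5668 k0))) (by decide +kernel)
def c16098 : PP 9 3 T 0x1000400000000091000121040000000000000000000000000200000000040020000000000010000000000000041000104020000000000000000000000019 := rS 0x113449f8fbe380a844a9f6589c52191f85c7a4b40a3562934c978ec79 (k8 c5524 c5668 c2054 c1520 c1517 c5421 c2171 c938 (k8 c2594 c5436 c5433 c5318 c6205 c5417 c5570 c5420 (k8 c5572 c1113 c1121 c16093 c7824 c8391 c14232 c2058 (k2 c15494 c14852 k0)))) (by decide +kernel)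
def c16099 : PP 9 3 T 0x80000100040000000000000100000000000200000000000000000000000000000000000004000100008000800000000000001000000001 := rS 0x3f04bc6114fb2c4e290c8fc2e3d (k8 c5436 c5433 c5318 c6205 c5417 c5570 c5420 c5572 (k4 c2745 c7824 c12617 c14232 (k1 c2917 k0))) (by decide +kernel)
def c16100 : PP 9 3 T 0x121000000000000000000000000000000000000040020000000000000000000000000141000000000010000000000002000000001 := rS 0x2268980840924b (k4 c2594 c10629 c12632 c1928 (k2 c2750 c704 (k1 c14852 k0))) (by decide +kernel)
def c16101 : PP 9 3 T 0x1000400000000091000121040000000000000100000000000200000000040020000000000010000000000000041000100020000000000000001000000019 := rS 0x249025e371d91ab1 (k8 c5421 c2171 c5668 c16098 c2054 c938 c16099 c1517 k0) (by decide +kernel)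
def c16102 : PP 9 3 T 0x10000001040000000000000000040004000200000000000000000000000000000000000000000000000000000000000000000000000010 := rS 0x12628de80a71c69970b1bc2a0f1b4d9a77ef09762ff6aa2dafeeace859ed125a6e06f40f98ceac542aa9ee0200968b2371881c7ead57a54bacb46ac76cf3323f5e28335aa765113de73da33 (k8 c8428 c16080 c5211 c5372 c9727 c5210 c5489 c9672 (k8 c8722 c9695 c5405 c15726 c15779 c16051 c5421 c2171 (k8 c5420 c14849 c5488 c5406 c5490 c5318 c5432 c5434 (k8 c5435 c16088 c5644 c1057 c1893 c4479 c15785 c684 (k8 c681 c1894 c9752 c1111 c5657 c2199 c7393 c2594 (k8 c1925 c2339 c16095 c16096 c5219 c5507 c5583 c5585 (k8 c5586 c16097 c16100 c16101 c5493 c5495 c5496 c6601 (k8 c9031 c8115 c16025 c3061 c2439 c6448 c5679 c9158 (k4 c3627 c1277 c2946 c7822 k0))))))))) (by decide +kernel)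
def c16103 : PP 9 3 T 0x98000000000000000000000200040000000000000000000091000000000000000000000000080000000000000000100000000000000010 := rS 0xf08e061a8eabce2b3138a4e6b5 (k8 c5422 c5419 c5417 c5570 c5574 c5571 c5406 c5341 (k4 c14226 c2195 c1261 c2104 (k1 c16081 k0))) (by decide +kernel)
def c16104 : PP 9 3 T 0x5000000000000010000200000000000000000100040004000000000000000011000000000100000100000054000010040000020000040014004111000010 := rS 0x106c7e018e7cb3881899bc8a13 (k8 c5564 c284 c5565 c5382 c5380 c5211 c5171 c5658 (k4 c15948 c405 c2161 c5642 (k1 c14512 k0))) (by decide +kernel)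
def c16105 : PP 9 3 T 0x5000000000000098000200000000000000000000040004000000000000000001000000800100000000000004000010000000020000000014000001000010 := rS 0x3c230d560424521bd5ec970ea54e2b3138a4e6b15a835066b54c45228fce44c266f (k8 c5565 c5564 c5382 c5211 c5526 c5374 c9727 c5489 (k8 c9672 c8722 c9673 c5422 c5421 c5419 c5417 c5570 (k8 c5574 c5571 c5488 c5486 c5404 c15891 c1947 c4384 (k4 c284 c342 c16104 c14226 (k2 c1261 c2104 (k1 c13749 k0)))))) (by decide +kernel)
def c16106 : PP 9 3 T 0x10000201040000000000000000040004000000000000000000000000000000000000000000000000000000000000000000000000000010 := rS 0x18cd1031d476091f1048849f9566063d7a07cae855506a3af701168b2132ebcdfaf141aa62287359ed2279ce7b432333bfbd26c9628d59ecdf19f5aca1d82bd2acbef4a55bb246ac76c64 (k8 c15726 c16051 c5421 c2171 c5210 c5490 c16102 c5214 (k8 c5420 c5488 c5406 c5209 c5398 c9031 c1550 c6601 (k8 c5495 c5453 c5450 c5451 c5396 c5444 c15107 c14727 (k8 c8428 c6205 c16080 c5211 c5524 c5374 c5372 c9672 (k8 c2114 c9727 c5489 c8722 c9695 c5405 c15779 c14849 (k8 c5564 c16105 c5644 c1893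 c4479 c4516 c1892 c15785 (k8 c684 c768 c1111 c5657 c11072 c2199 c16092 c5171 (k8 c5588 c14422 c458 c5655 c275 c494 c1895 c5643 (k2 c1926 c3607 (k1 c13650 k0)))))))))) (by decide +kernel)
def c16107 : PP 9 3 T 0x4000000000098000100040000000000000200040000000000000000000081000000000110000000000004080010000000020000000014000000000010 := rS 0x106c021f364540efe3f112268137abce2b339ad5228fce06422f5419ad531110876071d (k8 c5341 c2195 c5486 c342 c9727 c5489 c9672 c8722 (k8 c1947 c5558 c6205 c5211 c5526 c5374 c5422 c5419 (k8 c5574 c5571 c5406 c2978 c856 c859 c16103 c5670 (k8 c504 c676 c3010 c3604 c2316 c666 c2104 c5642 (k1 c14824 k0))))) (by decide +kernel)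
def c16108 : PP 9 3 T 0x5004000000000098000100040000000000000200040004000100000000000001000000800010000000000000000000000020020000000014000000000010 := rS 0xc030f200348822a2dec5b14835066b54c44f679ce24d93b03ea356241 (k8 c5340 c5421 c2171 c1550 c5209 c5396 c5444 c5211 (k8 c5524 c5372 c9727 c5489 c9672 c8722 c9673 c5417 (k8 c32 c15891 c16107 c285 c8120 c14226 c1984 c2104 (k2 c1110 c12653 (k1 c13795 k0))))) (by decide +kernel)
def c16109 : PP 9 3 T 0x10000001040000000000000000040004000000000000000000000000000000000000000000000000000000000000000000000000000010 := rS 0x8b44968b211ac685ade31ab1543efef6c2523378ab55e95d9175968d58ed8c9ed (k8 c16080 c15726 c16051 c5421 c2171 c5420 c14849 c5210 (k8 c5488 c5406 c5490 c9695 c8428 c16102 c5209 c5214 (k8 c15107 c5398 c5451 c5450 c6601 c9031 c16106 c5219 (k4 c5558 c16108 c5644 c4355 (k2 c685 c5673 k0))))) (by decide +kernel)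
def c16110 : PP 9 3 T 0x5000000000000098000200000000000000000100040004000200000000000001000000000000000000000000000000000000020000000000000000000110 := rS 0x90041b00c73e42739ac7386f21a248a1310bd9066b54c441a1d (k8 c5486 c9673 c9727 c5489 c9672 c8722 c15891 c342 (k8 c5564 c284 c5567 c1949 c5565 c5211 c5421 c5419 (k8 c5570 c5171 c5658 c15948 c2161 c5642 c15135 c1113 k0))) (by decide +kernel)
def c16111 : PP 9 3 T 0x1000000000000098000200000000000000000100040004000200000000000001000000000000000000000000000000000020020000000000000000000110 := rS 0x3c230d477dc4521bd5ecad0e9c56627149cd62b506a0cd6a988a451f9c8984cde89 (k8 c5567 c5565 c5564 c5382 c5211 c5526 c5374 c9727 (k8 c5489 c9672 c8722 c9673 c5422 c5421 c5419 c5417 (k8 c5570 c5574 c5571 c5486 c5490 c15891 c1947 c1949 (k4 c284 c16110 c5504 c9423 (k2 c1261 c2104 (k1 c13749 k0)))))) (by decide +kernel)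
def c16112 : PP 9 3 T 0x10000201000000000000000000040004000200000000000000000000000000000000000000000000000000000000000000000000000010 := rS 0x45092a06f185c2e34e12d36cc7a0943e85553dc045a2cc0eb23f2e9c53ecb138a4e7b635bccc8fdd93c4f6913ca3f39ed2f8258e7d3f98cee75c9206266f (k8 c5565 c5382 c5380 c16109 c5440 c5356 c5355 c5358 (k8 c5442 c5357 c5438 c5439 c16080 c5211 c5526 c5524 (k8 c5374 c5372 c9695 c5210 c5405 c15726 c15779 c9672 (k8 c16051 c5419 c5417 c5570 c5420 c5572 c5571 c14849 (k8 c5318 c12891 c10772 c16111 c5644 c1893 c4479 c15785 (k8 c684 c1111 c1113 c5657 c16025 c7393 c2594 c2076 (k8 c2623 c15149 c1696 c5846 c3599 c2946 c1277 c7822 k0))))))) (by decide +kernel)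
def c16113 : PP 9 3 T 0x10000200000000000000000000040000000000000000000090000000000000001400000000000000050000000000000000004008000010 := rS 0x1e11c44d69147e72266f (k8 c5565 c5382 c5211 c5526 c5374 c9672 c9727 c1261 (k2 c2104 c13749 k0)) (by decide +kernel)
def c16114 : PP 9 3 T 0x1000000000000099000200000000000000000000040004000100000000000001000000000000000000000000000000000020020000000000000000000010 := rS 0xf780ab31c0086c8a437abd95a1d38acc4e2939ac56a0dce20cd6a98884cde89 (k8 c5567 c5565 c5564 c9727 c5489 c9672 c8722 c5211 (k8 c9673 c5422 c5421 c5419 c5417 c5570 c5574 c5571 (k8 c5486 c5490 c15891 c1947 c1949 c284 c16113 c1056 (k4 c9423 c14226 c5642 c5504 (k1 c14473 k0))))) (by decide +kernel)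
def c16115 : PP 9 3 T 0x10000201000000000000000000040004000000000000000000000000000000000000000000000000000000000000000000000000000010 := rS 0x6526170d008b45918b35a3e094ec4ba7165edb38f3323f764f1f697c1392 (k8 c16109 c5438 c5439 c16080 c9695 c5210 c5405 c15726 (k8 c15779 c5211 c16051 c5420 c5571 c14849 c12830 c16112 (k8 c5225 c5459 c5537 c14249 c16114 c5644 c1893 c1892 (k4 c1107 c261 c1163 c5648 k0)))) (by decide +kernel)
def c16116 : PP 9 3 T 0x5000000000000090000000080000000000000000040000000200000000000080000000000000000000000000000000000020000000000000001100000002 := rS 0x3bcc8f0fcd35e3552653a1e379b4c21a1189ce66bce01c2e37 (k8 c5435 c5433 c5432 c5211 c9672 c5419 c5570 c9731 (k8 c1056 c661 c666 c1060 c5650 c5855 c7114 c2103 (k4 c16071 c10443 c15948 c12261 (k2 c1189 c5204 (k1 c5494 k0))))) (by decide +kernel)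
def c16117 : PP 9 3 T 0x4000000000000010000001000000000000000000040004000200000000000000000000000000000000000000000000000000020000000000001000000010 := rS 0x1de6424c360200bc4c9b604e846275c9085ec8335aa623ed068776419198fc2e3d (k8 c5436 c5433 c5318 c5316 c5315 c5210 c5486 c9673 (k8 c16080 c9727 c5489 c9672 c8722 c15891 c342 c16109 (k8 c5440 c1945 c16115 c5438 c16051 c15726 c9695 c16116 (k4 c5642 c1944 c261 c15918 (k2 c14357 c5494 k0))))) (by decide +kernel)
def c16118 : PP 9 3 T 0x10000001000000000000000200040004000200000000000000000000000000000000000000000000000000020000000000000000000010 := rS 0x224e337f862a6d68387c6000f77da41a6a915afee8e904862578974e2b3139cd6bb648a3f38c72d8d41392108740e171b8f59a337b20cd6a9d9447da0d (k8 c9673 c16080 c9727 c5210 c5489 c9672 c8722 c15891 (k8 c5316 c2071 c5436 c5435 c5433 c5432 c5486 c342 (k8 c16109 c5438 c280 c32 c5357 c5211 c5526 c5374 (k8 c16051 c5422 c5419 c5570 c5574 c5571 c14849 c9695 (k8 c5559 c5561 c5340 c5341 c16117 c5507 c5582 c5585 (k8 c14401 c14662 c16045 c2104 c5280 c5579 c3063 c11605 (k4 c2316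 c15434 c12261 c1060 (k2 c1779 c3604 (k1 c8617 k0))))))))) (by decide +kernel)
def c16119 : PP 9 3 T 0x8000000000000010000100080000000000000100040000000200000000000080000000000000001400000000000000050020020000000000000100000012 := rS 0x486f401a44121b40229a552653a1e36984342335e706a091f81c2e37 (k8 c5435 c5433 c5432 c5318 c5438 c280 c5211 c9672 (k8 c9731 c1056 c661 c666 c5650 c5855 c7114 c2103 (k8 c10443 c13353 c1190 c1950 c12636 c14662 c2135 c2136 (k2 c6743 c2946 k0)))) (by decide +kernel)
def c16120 : PP 9 3 T 0x10000001000000000000000000040004000200000000000000000000000000000000000000000000000000020000000000000000000010 := rS 0x1c6e16f91903134ea6c44106407c36020092c8b1df75659bb11b81c66f132174e2b34f8a4e6b5db1ed228fce1f7423504e4842f6419ad5311f68343bb2 (k8 c5210 c5486 c9673 c16080 c9727 c5489 c9672 c8722 (k8 c15891 c342 c16109 c5438 c280 c16115 c5442 c5211 (k8 c5526 c5374 c5372 c16051 c5422 c5419 c5417 c5572 (k8 c5574 c5571 c14849 c15726 c9695 c5316 c5432 c5435 (k8 c15942 c2071 c16118 c5219 c5504 c5582 c564 c16119 (k8 c5642 c1944 c1111 c15918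 c15187 c5650 c7393 c1276 (k4 c704 c699 c14234 c13097 (k2 c13096 c2347 (k1 c5972 k0))))))))) (by decide +kernel)
def c16121 : PP 9 3 T 0x10000001000000000000000200040004000000000000000000000000000000000000000000000000000000020000000000000000000014 := rS 0xd2ef355ae451f8cc2e8b496c43c6d1180032af4a9c566cb139cd6a8d58ed8c99c3ee846a09189d724210eca422431e906071d7b20cd6a9d9447da0d (k8 c9673 c16080 c9727 c5210 c5489 c9672 c8722 c15891 (k8 c5341 c2195 c5340 c5560 c5561 c5558 c16120 c5486 (k8 c342 c16109 c5440 c1945 c5438 c280 c16115 c5442 (k8 c5211 c15726 c16051 c5421 c2171 c5422 c5419 c5570 (k8 c5420 c5574 c5571 c5488 c5406 c9701 c5642 c9731 (k8 c666 c5650 c13273 c12220 c16081 c55 c322 c326 (k4 c285 c13349 c14520 c11149 (k2 c3588 c5496 k0)))))))) (by decide +kernel)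
def c16122 : PP 9 3 T 0x10000001000000000000000200040004000000000000000000000000000000000000000000000000000000020000000000000000000010 := rS 0x71a059ec5ef0cdacdf70c4fe7e0453f891b12208926170d87c05038e9048625788a4e68d58ed8c87b489e51f9c2f9f7425b1a8246275c9085ec8335aa623ed068776529 (k8 c16120 c5210 c5486 c9673 c16080 c9727 c5489 c9672 (k8 c8722 c15891 c342 c16109 c5440 c1945 c5438 c280 (k8 c32 c16115 c5442 c5439 c5211 c5526 c5524 c5374 (k8 c5372 c15726 c16051 c5421 c2171 c5419 c5417 c9695 (k8 c5559 c5561 c5340 c5341 c2195 c16121 c1111 c1110 (k8 c1107 c261 c5650 c14226 c16022 c503 c504 c285 (k8 c5225 c5588 c2571 c5460 c5538 c16021 c2185 c5653 (k4 c5451 c5453 c856 c2574 (k1 c5972 k0))))))))) (by decide +kernel)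
def c16123 : PP 9 3 T 0x10000100080000000000000000040004000100100000000000000000500400001400000010000000050000020000100000004110000014 := rS 0xd2ef0fc661749780823d21ec4221e3688c0019889acf679ce17cfa631a8246275 (k8 c5440 c1945 c5438 c280 c5355 c5442 c5439 c5211 (k8 c5524 c5372 c9672 c9727 c9701 c5642 c9731 c666 (k8 c5650 c13353 c13346 c1950 c12640 c12636 c5225 c12220 (k4 c10515 c322 c326 c11149 (k2 c3588 c5496 k0))))) (by decide +kernel)
def c16124 : PP 9 3 T 0x10000001000000000000000000040004000000000000000000000000000000000000000000000000000000020000000000000000000010 := rS 0x102e3f9907c0e11978fbed26486543b08991820224985c361f0080896d522b5e3beeacca442311abd8b6f156abd2e1d4a9c566cb138a4e6b5db035066b54eca229147e73da5f049d725a1 (k8 c16115 c16109 c5440 c5438 c5439 c16080 c5211 c5526 (k8 c5374 c9727 c5210 c5489 c9672 c8722 c9673 c16051 (k8 c5422 c5419 c5417 c5570 c5420 c5574 c5571 c5488 (k8 c5486 c5404 c5406 c5490 c9695 c32 c15891 c280 (k8 c1945 c342 c16120 c16122 c5219 c5504 c5507 c5582 (k8 c5585 c564 c16123 c28 c1111 c1110 c1107 c261 (k8 c5650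 c15187 c14234 c704 c13309 c5398 c5393 c5396 (k8 c8156 c9031 c6616 c3577 c4821 c5165 c544 c7694 (k2 c2348 c700 (k1 c12938 k0)))))))))) (by decide +kernel)
def c16125 : PP 9 3 T 0x200000000000000000000044020000000000440000000006005545400000000080000005000015001400000 := rS 0x37a24a044c048243 (k8 c5561 c5340 c1927 c1898 c3579 c3613 c1278 c2512 k0) (by decide +kernel)
def c16126 : PP 9 3 T 0x400044020000000000000000000000001545400000000080000040000000000000000 := rS 0x11301 (k2 c1927 c1898 (k1 c3613 k0)) (by decide +kernel)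
def c16127 : PP 9 3 T 0x80000100000000000000000000000000000000000000000000000000000000000000010004000050000005400000005000001001400140 := rS 0xde8108100e29f6589c5273 (k8 c5419 c5417 c5570 c5420 c5572 c5571 c3579 c12636 (k2 c699 c2745 (k1 c3599 k0))) (by decide +kernel)
def c16128 : PP 9 3 T 0x80000121000000000000000000040000000200000000000020000000000040000048000004105450500004490000000000000000400101 := rS 0x2437a28a0ac895fe8b30b5d39dff1b307a071f8653ecb138a4f6914792e06b1 (k8 c5421 c2199 c2594 c5526 c5374 c5372 c5417 c5570 (k8 c5420 c5572 c5315 c5318 c5432 c5436 c16025 c14237 (k8 c5495 c2076 c4538 c1696 c16062 c11835 c16100 c16125 (k4 c16127 c1277 c1278 c7822 (k1 c2946 k0))))) (by decide +kernel)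
def c16129 : PP 9 3 T 0x11000001080000000000000000040004000100000000000004000000000000000000000004000000000000100000000000000008400000 := rS 0x60cd68863c19c (k4 c5211 c5225 c5648 c5459 (k2 c5537 c1163 (k1 c14249 k0))) (by decide +kernel)
def c16130 : PP 9 3 T 0x1000000000000082000121080000000000000200000004000000000000000020000000000000000008000000001000000000180000000000000800000000 := rS 0x405164308894e6b50b808c85f (k8 c5439 c15726 c1893 c1107 c5422 c5419 c5559 c5558 (k4 c5561 c685 c1927 c16027 k0)) (by decide +kernel)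
def c16131 : PP 9 3 T 0x10000001000000000000000000040004000000000000000000000000000000000000000000000000000000000000000000000000000010 := rS 0x203134492420401f8d062d11ef8c4bdf693fdaa8b22b5fdd5966b2432a1d84a4962281bd126170f8850aaa0d0cdee0200968b3a13a9dcc67f3eb1c125fc97b51e9143a0de79c35835e2ad57a5dfa9554ec8bb114fb2c4e2946ac76c64 (k8 c15726 c16051 c5421 c2171 c5417 c5570 c5420 c5572 (k8 c9727 c14849 c5210 c5489 c5488 c5405 c5404 c5406 (k8 c5490 c9695 c9673 c9672 c5211 c15779 c8722 c2114 (k8 c5374 c5526 c16080 c16109 c5439 c5438 c5357 c5442 (k8 c5358 c5355 c5356 c5440 c16115 c16124 c5644 c1057 (k8 c1893 c4479 c4438 c1892 c15785 c684 c265 c1111 (k8 c1107 c261 c5657 c2199 c5650 c2594 c16128 c16129 (k8 c5398 c5393 c5396 c2075 c16130 c5219 c5507 c5582 (k8 c5583 c5585 c5586 c8156 c9031 c16100 c6616 c2769 (k8 c4371 c14249 c5653 c441 c3579 c13127 c6232 c2750 (k2 c704 c1928 (k1 c8783 k0)))))))))))) (by decide +kernel)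
def c16132 : PP 9 3 T 0xa0000201040000000000000200040004000000000000000000000000000000000000000000000000000000020000000000000000004000 := rS 0x1a00bc4524509bdfe6b180acf6528f66762273 (k8 c5419 c9727 c8114 c5218 c15876 c5210 c5574 c5502 (k8 c5421 c14538 c5498 c5564 c284 c5417 c9695 c15833 (k2 c14226 c1944 k0))) (by decide +kernel)
def c16133 : PP 9 3 T 0x201040000000000000000040004000000000000000000000000000000000000000000000000000000020000000000000000000010 := rS 0x1bef463f80fe7b3c92cc1b105008021b24c72b23d1b81e5102f9fbe02f7f610c8b9d4484e26f1d91901f1138acce6b1db08d5715109b76833 (k8 c8428 c16131 c5529 c5528 c5414 c5413 c5409 c16051 (k8 c5421 c5419 c5574 c5571 c9727 c9739 c15726 c5210 (k8 c9695 c5382 c5564 c5567 c8114 c284 c1949 c5218 (k8 c5498 c5502 c13184 c14538 c6986 c15876 c5432 c5435 (k8 c5436 c16132 c5658 c513 c2161 c1056 c5642 c15987 (k8 c15880 c15897 c2588 c2307 c690 c728 c10425 c726 (k2 c7820 c5538 (k1 c15881 k0)))))))) (by decide +kernel)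
def c16134 : PP 9 3 T 0x2000000000000021000101040000000000000200040004000200000000080000000000000000001500000000000000050000020000000000000000004002 := rS 0x89a44d68a06b5da6353db20e8c5311bcc25f34c44b677198fc0e17188f44a1142a3d1a64 (k8 c15726 c2171 c2406 c5541 c5558 c5559 c5436 c5434 (k8 c5433 c5432 c5318 c8428 c2051 c32 c9727 c9742 (k8 c1054 c661 c1060 c5663 c837 c1172 c1171 c888 (k8 c281 c4400 c2189 c14607 c14554 c1059 c13457 c858 (k1 c8385 k0))))) (by decide +kernel)
def c16135 : PP 9 3 T 0x2000000000000000000001040000000000000200040004000200000000000000000000000000000000000000000000000000020000000000000000000010 := rS 0x45448899d4886c040147c0be68579c05eef1d903ce2b339ad51ab13208e2a21da16f4211d88a76c19 (k8 c6205 c16051 c5417 c14052 c5558 c16133 c32 c16131 (k8 c5528 c5414 c5409 c15726 c5421 c2171 c5422 c5419 (k8 c5574 c5571 c9739 c5210 c9695 c5498 c5502 c5540 (k8 c5541 c14538 c6986 c2406 c16134 c5642 c1944 c15986 (k4 c15834 c14226 c5675 c285 (k1 c858 k0)))))) (by decide +kernel)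
def c16136 : PP 9 3 T 0x1040000000000000200040004000200000000000000000000000000000000000000000000000000020000000000000000000010 := rS 0x6f89a29fc440dbd91e8335835239cf6bc55fb2889c5662939ad51ab1db19157b4 (k8 c16131 c5413 c15726 c16051 c5421 c2171 c5422 c5419 (k8 c5417 c5574 c5571 c9727 c5210 c5406 c9695 c16135 (k8 c5218 c5374 c5522 c5523 c5525 c5526 c15891 c2103 (k4 c14226 c504 c285 c2571 (k2 c2978 c8385 k0))))) (by decide +kernel)
def c16137 : PP 9 3 T 0x1040000000000000000040004000200000000000000000000000000000000000000000000000000020000000000000000000010 := rS 0x1e2639fcc05fd898d106e409f404e32144dc21000918961b7b125066b06a451ef5ce403e7ed7fb55164581c77dd591e8dc0ef157bf43aa9d9444e2b3149cd62b5db454da8755ed0c9a1 (k8 c16133 c15726 c16131 c5413 c2113 c5529 c5414 c16051 (k8 c5422 c5421 c5419 c5417 c5574 c5571 c9727 c5210 (k8 c5489 c5486 c5405 c5406 c9695 c5432 c5435 c5436 (k8 c16136 c5219 c5504 c5508 c5582 c5583 c5585 c5586 (k8 c13184 c15208 c8604 c5218 c4383 c2849 c5374 c5522 (k8 c5523 c5525 c10428 c15891 c2103 c564 c8188 c1056 (k8 c15187 c6188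 c12623 c2790 c2347 c5642 c2747 c699 (k8 c8385 c1949 c9752 c16087 c8456 c5663 c2920 c726 (k2 c5670 c14235 k0))))))))) (by decide +kernel)
def c16138 : PP 9 3 T 0x1040000000000000000040004000000000000000000000000000000000000000000000000000000020000000000000000000010 := rS 0x6e3b18a282c441c86dec11419ac1a7b3e9e6b19cf0b5bc6d0668d58a6350fbfdbded84a7423378ab55efd4aec8bb11658a51ab1db274da9943aaf6864 (k8 c15726 c16131 c5413 c2113 c5530 c5529 c5412 c16051 (k8 c5421 c2171 c5417 c5420 c9727 c14849 c5210 c5488 (k8 c5405 c5406 c5490 c9695 c8428 c16133 c16137 c5209 (k8 c5214 c15876 c15107 c5398 c5395 c5451 c5450 c5495 (k8 c13565 c6601 c9031 c6325 c5218 c5219 c1540 c1550 (k8 c5372 c5522 c5523 c5525 c5558 c15891 c2103 c397 (k4 c14226 c14382 c285 c14286 (k2 c1676 c1481 (k1 c5654 k0))))))))) (by decide +kernel)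
def c16139 : PP 9 3 T 0x20000121000000000000000000000000000000000100080000000000000000001440000000101000050000000000000000000000000000 := rS 0x44cde8a419ad228f (k8 c2406 c5374 c5523 c5525 c10681 c2978 c858 c8385 k0) (by decide +kernel)
def c16140 : PP 9 3 T 0x42004000000000080000110000000000000000000040000000200000000000000000000000000000040000000480050000005400000000011000000014100 := rS 0x6bf7d983b6f831ea90898cc72377bb45e685 (k8 c5541 c5540 c5501 c5498 c5435 c5317 c5316 c858 (k8 c5675 c10333 c13457 c2948 c289 c15359 c9979 c2192 (k1 c16062 k0))) (by decide +kernel)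
def c16141 : PP 9 3 T 0x46000000000000080000011080000000000000200040000000200000000080000000000000000000040001100100000001000020000000000000000004002 := rS 0x26cf6e171036249169221aad722a2fc66f30c456a5b2fb1cfa793f98c6a09189d4663f038f44a11219063a4b23e86028f (k8 c2406 c5502 c12891 c5562 c5342 c5341 c5340 c5561 (k8 c5558 c5559 c5436 c5432 c5318 c5316 c5440 c1945 (k8 c5438 c280 c5355 c5358 c5441 c5442 c5357 c5439 (k8 c32 c5422 c9727 c661 c1060 c16071 c16140 c285 (k8 c13349 c14520 c5673 c3588 c3042 c1986 c15982 c2088 (k4 c3062 c957 c2621 c10253 k0)))))) (by decide +kernel)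
def c16142 : PP 9 3 T 0x2000000000000000000001000000000000000200040004000200000000000000000000000000000000000000000000000000020000000000000000000010 := rS 0x77bc6c84986c0401cec0be7ef42c05e2afd903e227159a7d9627149cd6a8d58ed8c89d55c54da99da02462750c8cc7e171e8974392 (k8 c16138 c12891 c5559 c5436 c5433 c5318 c5316 c5315 (k8 c5440 c1945 c5438 c16131 c5530 c5529 c5414 c5413 (k8 c5412 c15726 c16051 c5421 c2171 c5422 c5419 c5417 (k8 c5570 c5420 c5572 c5574 c5571 c9727 c9739 c5210 (k8 c5406 c9695 c5502 c5541 c13184 c14538 c6986 c16139 (k8 c16141 c5642 c1944 c261 c15918 c7824 c14240 c5494 k0)))))) (by decide +kernel)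
def c16143 : PP 9 3 T 0x1000000000000000000001000000000000000000040004000200000000000000000000000000000000000000000000000000020000000000000000000010 := rS 0xd80dec8306e71e3b2322af6992 (k8 c16138 c16131 c5413 c15726 c5210 c9695 c5218 c5522 (k4 c5525 c15891 c16038 c2103 (k2 c5642 c1056 k0))) (by decide +kernel)
def c16144 : PP 9 3 T 0x1000000000000000000040004000200000000000000000000000000000000000000000000000000020000000000000000000010 := rS 0x4a020086e38453784f4043acc0bdf01f63c7646413ac76cab8aed01392 (k8 c16138 c5438 c16131 c5414 c5413 c16051 c5421 c5570 (k8 c15726 c5210 c9695 c16143 c5502 c13184 c6986 c16142 (k8 c4385 c5219 c5564 c5565 c284 c5658 c2161 c1056 (k2 c5642 c1113 (k1 c14466 k0))))) (by decide +kernel)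
def c16145 : PP 9 3 T 0x2000000000000000000201000000000000000200040004000000000000000000000000000000000000000000000000000000020000000000000000000010 := rS 0x38fd2417f198432000d117626f09c4d02f156874ba714fb2c4e293996cbe7d3f95cc635048c4eb9294894863d8eb451f0280eca2bb446ac76c64 (k8 c15726 c16051 c5421 c2171 c16131 c5414 c5210 c5502 (k8 c6986 c2406 c5501 c5341 c5560 c5561 c5559 c16144 (k8 c16138 c5440 c1945 c5438 c280 c5355 c5353 c5358 (k8 c5442 c5439 c32 c5419 c5417 c5570 c5420 c5572 (k8 c5571 c14849 c5486 c5490 c9695 c5380 c5382 c5564 (k8 c5565 c12830 c284 c9423 c5280 c1163 c14612 c12178 (k4 c9210 c5648 c326 c1563 (k1 c9764 k0)))))))) (by decide +kernel)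
def c16146 : PP 9 3 T 0x400000000000000a9000110080000000000000200040004000100000000000000000040014000000000000000481000000000000000000010000000000012 := rS 0x337c1de4905fc63b30a041890898752a0f38b2ce69d55a64be093e9fcc6111e864de25 (k8 c5559 c1060 c9699 c5560 c5558 c5355 c5358 c5442 (k8 c5438 c5439 c5530 c5413 c5412 c5419 c5420 c5571 (k8 c9739 c5488 c5486 c858 c5675 c13457 c14587 c14586 (k8 c289 c16071 c9210 c5648 c11149 c9007 c5495 c6325 k0)))) (by decide +kernel)
def c16147 : PP 9 3 T 0x2000000000000000000001000000000000000200040004000000000000000000000000000000000000000000000000000000020000000000000000000012 := rS 0x581a91efa21ae4545ec4341956a5dfa1d4aa7d969d2d97d8e793190c964768b3fdeabf9a3dbf291a8246275c94773ba142c0a0315da23562645a9cd6671db4455fb2 (k8 c5210 c5406 c9727 c16051 c5571 c5574 c5419 c5422 (k8 c15726 c5421 c2171 c16131 c5414 c5502 c6986 c5541 (k8 c16145 c16139 c5341 c16138 c5440 c1945 c5438 c280 (k8 c16144 c14614 c2406 c14538 c5413 c13184 c5543 c5501 (k8 c5562 c5342 c5561 c5355 c5441 c5357 c5439 c32 (k8 c5412 c5420 c5572 c5488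 c5486 c5405 c5404 c5490 (k8 c9699 c1056 c15909 c16146 c285 c13349 c5673 c8572 (k4 c3042 c15982 c11149 c14582 k0)))))))) (by decide +kernel)
def c16148 : PP 9 3 T 0x2000000000000000000001000000000000000200040004000000000000000000000000000000000000000000000000000000020000000000000000000010 := rS 0x8a89110141b00e774302f9a1602f157eca2271598a4e6b546ac76c6411c5443b4 (k8 c16131 c5528 c5414 c5409 c15726 c16051 c5421 c2171 (k8 c5422 c5419 c5417 c5574 c5571 c9727 c5210 c5406 (k8 c9695 c5502 c5541 c14538 c6986 c16145 c16139 c16147 (k4 c1944 c15987 c14226 c12878 (k2 c285 c858 k0))))) (by decide +kernel)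
def c16149 : PP 9 3 T 0x1000000000000000200040004000000000000000000000000000000000000000000000000000000020000000000000000000010 := rS 0x6f89a29fc440dbd91e8335835239cf6bc55fb2889c5662939ad51ab1db19157b4 (k8 c16131 c5413 c15726 c16051 c5421 c2171 c5422 c5419 (k8 c5417 c5574 c5571 c9727 c5210 c5406 c9695 c16148 (k8 c5218 c5374 c5522 c5523 c5525 c5526 c15891 c2103 (k4 c14226 c504 c285 c2571 (k2 c2978 c8385 k0))))) (by decide +kernel)
def c16150 : PP 9 3 T 0x2000000000000000000001000000000000000000040004000000000000000000000000000000000000000000000000000000020000000000000000000010 := rS 0xe220918303b25a4c2e0a0100436498e11762138990dbfa0817cfdf017bec8c87159b2c52b1db08d3aab8a887685f04e4a5359 (k8 c16149 c16144 c16138 c5438 c5439 c16131 c5528 c5414 (k8 c5413 c5412 c5409 c16051 c5421 c5417 c5420 c5574 (k8 c5571 c15726 c5210 c5498 c5502 c13184 c14538 c6986 (k8 c5219 c6120 c4385 c5382 c5564 c12830 c284 c5658 (k8 c513 c2161 c1056 c5642 c15987 c1107 c261 c2588 (k4 c12293 c5648 c5660 c543 (k2 c15940 c2348 k0))))))) (by decide +kernel)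
def c16151 : PP 9 3 T 0x1000000000000000000040004000000000000000000000000000000000000000000000000000000020000000000000000000010 := rS 0x4170b7c8c32f07cc924befbfc8b1df73d5edb1d0a0c1b9cf6d6652311a9d4c67f3c9f4125fc93c55e1dd9444527358ed8dbb4 (k8 c16131 c5529 c16051 c5421 c5419 c5417 c9727 c5210 (k8 c5486 c5406 c9695 c16138 c5439 c5438 c5442 c5441 (k8 c5358 c5355 c5440 c280 c1945 c16144 c16149 c16150 (k8 c5218 c5522 c5525 c8114 c8483 c15891 c1947 c5219 (k8 c5504 c5582 c5586 c11257 c564 c10428 c15208 c5165 (k4 c5653 c5660 c6120 c5460 (k2 c544 c14362 k0))))))) (by decide +kernel)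
def c16152 : PP 9 3 T 0x2000000000000000000001000000000000000200040004000200000000000000000000000000000000000000000000000000000000000000000000000010 := rS 0xc9ec4322911a762a214c807e70159ecb41ef55ed11243322c76c8b08968b25d (k8 c14849 c16151 c5644 c5558 c685 c16051 c5421 c15726 (k8 c5561 c1898 c16131 c5413 c13184 c8120 c5210 c5574 (k8 c5502 c14538 c1057 c5530 c5528 c5414 c5412 c5409 (k4 c5417 c5315 c14052 c12891 (k1 c15845 k0))))) (by decide +kernel)
def c16153 : PP 9 3 T 0x2000000000000000000001000000000000000200040004000000000000000000000000000000000000000000000000000000000000000000000000000010 := rS 0x35daad362b2060350c24c2fb13a824bf92949f503a0f7bc4e2cb46ac76cabda00834641ea2c228921968b25d (k8 c14849 c16151 c5644 c5561 c1898 c5558 c685 c5560 (k8 c15726 c1892 c1893 c16131 c5413 c16051 c5421 c2171 (k8 c5420 c5571 c9695 c13184 c8120 c5380 c5566 c16152 (k8 c15876 c5439 c5438 c5440 c12830 c1107 c261 c5648 (k8 c437 c1163 c1162 c682 c1918 c1475 c2189 c8254 k0))))) (by decide +kernel)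
def c16154 : PP 9 3 T 0x1000000000000000200040004000000000000000000000000000000000000000000000000000000000000000000000000000010 := rS 0xf4801208aff8187f428f419af39ed4591c964308895e2af7e87553b288acc4e2939ad51ab1db08d571510ed0051d2d164ba64 (k8 c15726 c14849 c16151 c5644 c4516 c1893 c16131 c5528 (k8 c5414 c5413 c5409 c16051 c5421 c2171 c5422 c5419 (k8 c5417 c5570 c5574 c9727 c5210 c5489 c5486 c5405 (k8 c5406 c9695 c5559 c5558 c5561 c5342 c5562 c685 (k8 c16153 c5218 c5523 c5525 c5526 c8114 c1111 c10681 (k4 c11835 c14205 c3584 c8604 (k2 c10428 c1927 k0))))))) (by decide +kernel)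
def c16155 : PP 9 3 T 0x2000000000000000000001040000000000000000040004000200000000000000000000000000000000000000000000000000000000080000000000000010 := rS 0x24c767b2f030ec6a0587fbedf48929aef456abd2efd4a83ce29f65ad4469d10a650ff358ace0501d9456279d889cc4a6fd07bd57b6ac86472176281cea31d8bdc045a2c974c9b4 (k8 c16131 c15726 c14849 c16151 c5644 c1893 c4479 c15880 (k8 c5434 c1894 c5432 c681 c5433 c5317 c5315 c16154 (k8 c16051 c5413 c13184 c5219 c5565 c1113 c5419 c9727 (k8 c8114 c5382 c5414 c5210 c5502 c6986 c5574 c5421 (k8 c14538 c2113 c5530 c5528 c5412 c5409 c5422 c5420 (k8 c5572 c5571 c9739 c5488 c5405 c5404 c5406 c5490 (k8 c1935 c1933 c1936 c10333 c2517 c8572 c2591 c2588 (k8 c13067 c5668 c5645 c2054 c889 c290 c1517 c15887 k0)))))))) (by decide +kernel)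
def c16156 : PP 9 3 T 0x2000000000000000000001040000000000000000040004000200000000000000000000000000000000000000000000000000000000000000000000000010 := rS 0x711ecf2836b7859a0a6ff78907725b4c8843d899d5aaf4bbf52a0f4fb2c4e295aa353a9943809ee3368bcd0acff9ac566478140765158e9922613379f73ba0f7aaeb311da1cf6c3f1bb140e7518968b25d (k8 c14849 c16151 c5644 c5434 c1894 c5432 c681 c5435 (k8 c5318 c16051 c5419 c16131 c9727 c16154 c5413 c13184 (k8 c5219 c8114 c5566 c5565 c5564 c5382 c15726 c4516 (k8 c5414 c5210 c5502 c6986 c2350 c5574 c5421 c14538 (k8 c5543 c5541 c5540 c5501 c4438 c4479 c1893 c2113 (k8 c5530 c5412 c2171 c5422 c5417 c5570 c5420 c5572 (k8 c9739 c5488 c5405 c5404 c5406 c5490 c9680 c15880 (k8 c16155 c5658 c15747 c460 c14463 c5660 c5668 c12864 (k8 c10368 c5495 c6325 c8572 c2310 c2307 c690 c10298 (k1 c15064 k0)))))))))) (by decide +kernel)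
def c16157 : PP 9 3 T 0x4000000000000001000000000000000000000100000004000000100000090000000000000010001000001104100150400000080000101101001501400000 := rS 0x9b1db883ed224929aad72122d1275 (k8 c1894 c4356 c686 c5658 c1933 c2778 c1936 c3032 (k4 c3608 c2591 c2088 c1774 (k2 c2621 c6193 k0))) (by decide +kernel)
def c16158 : PP 9 3 T 0x2000000000000000000001000000000000000000040004000200000000000000000000000000000000000000000000000000000000000000000000000010 := rS 0x20d32590c8893d89dcfe09c93147a310b81c7e390ca5d2aa9079c596735aa34469d10a65e7f358acc8f0280eca2b1d4084cfa2537e83deabda6dab2022d164ba64 (k8 c15726 c14849 c16151 c5644 c1893 c16154 c16051 c16131 (k8 c5413 c13184 c5219 c5565 c1113 c5566 c5564 c5380 (k8 c4516 c5414 c5210 c5502 c6986 c2350 c5574 c5421 (k8 c14538 c5540 c5530 c5528 c5412 c5409 c2171 c5422 (k8 c5419 c5420 c5571 c9739 c5489 c5488 c5404 c5315 (k8 c5317 c5318 c5432 c5433 c5434 c5436 c681 c16156 (k8 c5438 c5358 c5356 c12830 c261 c16157 c123 c460 (k2 c2936 c15724 (k1 c14462 k0))))))))) (by decide +kernel)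
def c16159 : PP 9 3 T 0x2000000000000000000001000000000000000000040004000000000000000000000000000000000000000000000000000000000000000000000000000010 := rS 0x41b34f60a1b12096441e351aed362b2060350c22d2617d89d4f2c70497f247794e74fa134091d13a0817cfdecf42bce02d178ec81f1138acd967346ac76d1543aaf68028e8cc345a2c974c959 (k8 c16154 c15726 c14849 c16151 c5644 c1892 c4438 c4516 (k8 c1893 c16131 c5413 c2113 c5414 c16051 c5421 c2171 (k8 c5419 c5420 c5574 c5571 c9727 c9739 c5210 c9695 (k8 c5501 c5502 c5540 c5541 c5543 c13184 c14538 c6986 (k8 c5219 c4356 c2350 c5380 c5564 c5566 c8114 c16158 (k8 c14727 c15876 c5439 c5438 c5357 c5441 c5440 c12830 (k8 c1107 c261 c14472 c5648 c437 c1163 c1162 c682 (k8 c4369 c2189 c8254 c1475 c1476 c460 c5660 c3031 (k4 c10368 c1478 c2330 c2310 (k1 c3607 k0)))))))))) (by decide +kernel)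
def c16160 : PP 9 3 T 0x1040000000000000000040004000200000000000000000000000000000000000000000000000000000000000000000000000010 := rS 0x1b84a4b7a3cd0a3a4da4d02612f1d9a3b133a34469d10a6402027b990d68befc01ffeed0e72227358c5607edacaaf68af7eacf6ca9d906472171bb140e7518968b25d (k8 c14849 c16151 c5644 c5434 c1894 c5432 c681 c5435 (k8 c5433 c5317 c5315 c5210 c5489 c16051 c5574 c5405 (k8 c5406 c16131 c5413 c16154 c16159 c10772 c5414 c5421 (k8 c5419 c9727 c5218 c8114 c5219 c5586 c8604 c11257 (k8 c5583 c5523 c15726 c4479 c1893 c1057 c5530 c5528 (k8 c5412 c5409 c2171 c9680 c15839 c10484 c5668 c2054 (k8 c724 c938 c1517 c1119 c14193 c14668 c449 c5657 (k4 c2594 c16100 c16093 c16099 k0)))))))) (by decide +kernel)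
def c16161 : PP 9 3 T 0x10000000000000a8000120000000000000000000000000000200100000020001000000000040000000000004000000400000180002100000000000000100 := rS 0x38140cc42905e81112abc3a9f6589c52b18aa44323f0b8f4ea31 (k8 c5434 c1894 c5436 c5433 c5318 c5315 c5374 c5414 (k8 c5421 c5417 c5570 c5420 c5572 c5486 c5406 c10629 (k8 c3026 c10428 c12636 c2336 c16025 c3579 c2078 c3060 k0))) (by decide +kernel)
def c16162 : PP 9 3 T 0x1000000000000000000040004000200000000000000000000000000000000000000000000000000000000000000000000000010 := rS 0x1a4d040a259adf0804de44a7a92526773eb1c13923ab146217038e432f14680a3a0d6b91516d5effcc8f007ffbb439c889cd631581fb6b2abda2bdfab3db2a764f72d164ba64 (k8 c15726 c14849 c16151 c5644 c4479 c5210 c5489 c16051 (k8 c5574 c5405 c5406 c16131 c5413 c16154 c16159 c10772 (k8 c5414 c5421 c5419 c9727 c5218 c8114 c5219 c5586 (k8 c8604 c2791 c15208 c11257 c5585 c5583 c5582 c5507 (k8 c5522 c4516 c1893 c2171 c9695 c5315 c5317 c5432 (k8 c5433 c5434 c681 c1894 c16160 c5438 c5357 c5442 (k8 c5356 c261 c16161 c1928 c5660 c5657 c301 c12638 (k4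 c2510 c2500 c1899 c699 (k2 c14324 c8254 (k1 c2136 k0)))))))))) (by decide +kernel)
def c16163 : PP 9 3 T 0x1000000000000000000040004000000000000000000000000000000000000000000000000000000000000000000000000000010 := rS 0x12c92117931482301a861261766a6c72d11d9d4fe7d0497fc1923bca48f00f9f7dfe45f7684f26b069ee079cf6d64c61a19bdc045a2c9b4431555ed1627314b2d67b688bc55efd54ec8c85d (k8 c14849 c15726 c5210 c5489 c5405 c5406 c9695 c9727 (k8 c16051 c5574 c5420 c5417 c5419 c5421 c16131 c5413 (k8 c5414 c5528 c5529 c16151 c5644 c1893 c4479 c4438 (k8 c1892 c9752 c16154 c16159 c5218 c10772 c5372 c5522 (k8 c5523 c5524 c8114 c5219 c5582 c5586 c11257 c15208 (k8 c8604 c2791 c16162 c14727 c15107 c5165 c5439 c5438 (k8 c5442 c5358 c5440 c5456 c5459 c5534 c5536 c5537 (k8 c10515 c261 c12306 c437 c1163 c543 c682 c14249 (k4 c15195 c450 c12638 c5660 k0))))))))) (by decide +kernel)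
def c16164 : PP 9 3 T 0x10000010000000000000000000000000000000000100000000000000000000000000000000000000000000000000000000000040000002 := rS 0x6b (k2 c1058 c8158 k0) (by decide +kernel)
def c16165 : PP 9 3 T 0xa000000000000000000000200000000000200000000000001000000000000000000000000000000000000020000000000000000040011 := rS 0x1b (k2 c1944 c14810 k0) (by decide +kernel)
def c16166 : PP 9 3 T 0x2000000000000010000201000000000000000200000004000200000000000000000000000000000000000000000000000000000000000000000000000010 := rS 0xeac52d164027764e4f619d09bc7645d0fb4602f367bffdf11559900e31efbdc6f4a (k8 c16163 c5518 c5333 c10382 c5434 c5432 c15726 c5500 (k8 c1269 c14774 c5544 c5543 c5540 c5502 c5501 c5517 (k8 c14849 c5210 c9695 c5564 c12110 c14772 c12891 c5396 (k4 c2053 c16164 c16165 c5644 (k2 c681 c1894 (k1 c5668 k0)))))) (by decide +kernel)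
def c16167 : PP 9 3 T 0x2000000000000000000101000000000000000200000000000000000000000050000000000000000000000001500400000000000001500000000000005400 := rS 0x1389a2a051d80bcd0aff (k8 c5544 c5541 c5540 c5502 c5341 c16075 c10681 c858 (k2 c2976 c12876 k0)) (by decide +kernel)
def c16168 : PP 9 3 T 0x2000000000000040000121000000000000000200000004000000000000000000000000000000000000000000400000000000020000000000000000000010 := rS 0x101c0026f39a29124446abf64640797446f72482dea47a5094231d25a441a83 (k8 c5525 c5522 c5374 c5342 c5341 c5558 c5559 c16163 (k8 c5520 c5519 c5516 c5334 c5333 c5331 c14849 c9739 (k8 c15726 c5210 c5406 c2169 c16167 c2834 c285 c1317 (k4 c2978 c11969 c5666 c15987 (k1 c12068 k0))))) (by decide +kernel)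
def c16169 : PP 9 3 T 0x42000000000000050000101000000000000000200000004000000000000000000000000000000000000000000000000000000000000000000000000000010 := rS 0x38c5518b039a2516012d167388f33990ba1121aafdf4a (k8 c16163 c14774 c5500 c5561 c5558 c14849 c15726 c9680 (k8 c5263 c5241 c16168 c5644 c1057 c685 c1898 c9719 (k4 c8120 c5673 c1294 c753 (k1 c15522 k0)))) (by decide +kernel)
def c16170 : PP 9 3 T 0x2000000000000050000001000000000000000200000004000200000000000000000000000000000000000000000000000000000000000000000000000010 := rS 0x4581fcb42f724bd48f4a8ec05e6ff (k8 c5544 c5540 c5502 c5341 c16163 c5520 c5519 c5334 (k4 c5333 c16166 c16169 c5550 (k2 c14787 c16075 k0))) (by decide +kernel)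
def c16171 : PP 9 3 T 0x2000000000000058000001000000000000000200000000000000000000000050000000000000000000000000000000000000020001400000000400040411 := rS 0x168200d915e225218a63a4b55c05e6ff (k8 c5544 c5540 c5502 c5500 c5342 c5341 c5339 c5561 (k4 c5559 c9695 c284 c1944 (k2 c15987 c14685 (k1 c2608 k0)))) (by decide +kernel)
def c16172 : PP 9 3 T 0x42005000000000000000000000000000000000200080000000000000000000000000000141000000000000000000000000000000000100015000000000000 := rS 0xf9c0d7718e07637218f4824b68b3dbf022491e3b017fbd5eef3 (k8 c5540 c5333 c5519 c5544 c5502 c5341 c5520 c5334 (k8 c16075 c2516 c5543 c5501 c5342 c5340 c5560 c5561 (k8 c5518 c5332 c3587 c2617 c10298 c5691 c3588 c3056 k0))) (by decide +kernel)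
def c16173 : PP 9 3 T 0x2004000000000010000201040000000000000200000004000100000000000000000000000000000000000000040400100000000000100004000000000010 := rS 0x1c2c76b0181230089dd028d3ea24ae020087fe65d0cb146ad569f859efd4aa5d52df66c0892478ec05fef57bbccf29c64f79379da534533b0d94455664 (k8 c15726 c5500 c1269 c5210 c5209 c5447 c5501 c16163 (k8 c12110 c8100 c5214 c5396 c15342 c1538 c5540 c5333 (k8 c5519 c5544 c5502 c5341 c5520 c5334 c16075 c5495 (k8 c2516 c5489 c5404 c5488 c5405 c5543 c8772 c5496 (k8 c5454 c5450 c5451 c6205 c14849 c15819 c5517 c16164 (k8 c5642 c9757 c5567 c5566 c5381 c5380 c14727 c5558 (k4 c16172 c1508 c5643 c10339 (k2 c13650 c1720 (k1 c15938 k0))))))))) (by decide +kernel)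
def c16174 : PP 9 3 T 0x2000000000000010000201040000000000000200000004000100000000000000000000000000000000000000040400100000000000100004000000000010 := rS 0x1afe23ba051a7d44b15abde (k8 c5214 c5454 c5451 c5567 c5566 c5381 c5380 c14727 (k2 c16173 c5465 (k1 c5287 k0))) (by decide +kernel)
def c16175 : PP 9 3 T 0x2000000000000010000201040000000000000200000004000100000000000000000000000000000000000000000000000000010000100000000000000010 := rS 0x3898d14651ec0e083a1e5be9cf0b3532c950a7d269bef6c032977ea55a2cf898073b115587c666445847e6832d176044923c7566ff7ac05ef4a7984d53b2 (k8 c5210 c5489 c5564 c5540 c16163 c5333 c5502 c5519 (k8 c5544 c15787 c5341 c5520 c5334 c16075 c14849 c5644 (k8 c1896 c15819 c5558 c685 c15726 c4438 c5517 c5500 (k8 c1269 c12110 c16164 c5382 c5543 c5501 c5488 c5405 (k8 c5404 c6205 c5209 c5214 c8100 c5444 c5448 c5398 (k8 c5396 c5447 c5495 c8772 c15342 c2516 c1538 c16174 (k8 c1895 c1453 c1688 c13648 c15422 c5669 c1293 c2619 k0))))))) (by decide +kernel)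
def c16176 : PP 9 3 T 0x40001000000000150000210080000000000000200000000000100402000000000000840000800000000000000000000002000000011400040000000000080 := rS 0x62302ec5f2f70bf78bae7e8552594cf681 (k8 c5380 c1775 c5563 c5342 c5343 c14762 c5632 c5635 (k8 c8101 c1296 c3054 c5687 c1394 c4037 c9777 c2435 k0)) (by decide +kernel)
def c16177 : PP 9 3 T 0x2000000000000052000201080000000000000200000004000000002000000000000850000800000000000000000000000000000000000000000000000090 := rS 0x3edf3afd5d9be37f74e970ea7dc1b1769c35c7c6e4d949bfe6832d164039d889903e132382c92f711bd6945df0b2532ab67b45fa954baa7649b (k8 c5397 c5210 c5489 c5404 c5488 c5405 c5501 c5543 (k8 c5500 c5447 c5396 c8772 c14849 c16163 c5519 c5331 (k8 c5333 c5334 c5516 c5520 c5564 c5517 c15726 c1269 (k8 c12110 c16164 c16171 c5644 c1896 c15819 c5565 c16170 (k8 c5521 c5518 c9713 c1139 c1292 c4132 c5665 c16176 (k8 c5428 c5429 c8905 c1826 c2220 c15730 c5220 c5600 (k4 c5603 c687 c1900 c5674 k0))))))) (by decide +kernel)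
def c16178 : PP 9 3 T 0x2000400000000052000201000000000000000200000004000000000000000000000000000000000000000000000000000000000000100020000000000010 := rS 0x429d5a455c4dd03329a4df1fb5c72971d8dc4a3d2092fde7d2bfcd065a2ec0a3ab37fc05e6a93fa7d429b4cf8c32172f8a44e9304e48b21323bd416497b88f640200e7622ab3207e9529 (k8 c16170 c16163 c5517 c15726 c5500 c1269 c12110 c16164 (k8 c5642 c5210 c5331 c5333 c5334 c5516 c5519 c5520 (k8 c5564 c16171 c16175 c5438 c261 c267 c5339 c5439 (k8 c1107 c5393 c13634 c5447 c5397 c5398 c5448 c5358 (k8 c5489 c5540 c5502 c5544 c15787 c5341 c16075 c14849 (k8 c5644 c1896 c15819 c9757 c5566 c14774 c5342 c5340 (k8 c5560 c5559 c5518 c5332 c5404 c439 c1763 c441 (k8 c2517 c14487 c3579 c9764 c4576 c2088 c16177 c5685 (k2 c1778 c2608 (k1 c3578 k0)))))))))) (by decide +kernel)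
def c16179 : PP 9 3 T 0x2000400000000052000201000000000000000200000004000000000000000000000000000000000000000000000000000000000000100000000000000010 := rS 0x385bed66ab35a630628d47ad1f79dd065a2ec0a3b017fbcd8e793af8c32172f8a44e9304e48b21323bd416497b88f640200e7622ab3207e9529 (k8 c16170 c16163 c5517 c15726 c5500 c1269 c12110 c16164 (k8 c5642 c5210 c5331 c5333 c5334 c5516 c5519 c5520 (k8 c5564 c16171 c16175 c5438 c261 c267 c5339 c5439 (k8 c1107 c5393 c13634 c5440 c5441 c5357 c5540 c5544 (k8 c5502 c5341 c16075 c14849 c5644 c1896 c14727 c14774 (k8 c5501 c5560 c16178 c682 c9931 c4369 c1916 c1475 (k4 c5689 c2516 c1720 c15938 k0))))))) (by decide +kernel)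
def c16180 : PP 9 3 T 0x2000000000000052000201000000000000000200000004000000000000000000000000000000000000000000000000000000000000100000000000000010 := rS 0x1c2df6b335aac5ef78c3229689dd028d3ea24ae2741a2cb45d08c0a3b017fbcd8e793a85cbe9304e48b21323bd416497b88f6529010073b11559903f4a (k8 c16163 c5517 c15726 c5500 c1269 c12110 c16164 c5642 (k8 c16170 c5210 c5331 c5333 c5334 c5516 c5519 c5520 (k8 c5564 c16171 c16175 c5438 c261 c5439 c1107 c5440 (k8 c5441 c5357 c5540 c5544 c5502 c5341 c16075 c5558 (k8 c14849 c5644 c685 c1896 c267 c9757 c5567 c5566 (k8 c5381 c5380 c14727 c5501 c5339 c5393 c13634 c16179 (k4 c5451 c5454 c5495 c10339 (k2 c2516 c1720 (k1 c15938 k0))))))))) (by decide +kernel)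
def c16181 : PP 9 3 T 0x2000000000000050000201000000000000000200000004000000000000000000000000000000000000000000000000000000000000100000000000000010 := rS 0x387c67a6b3559ad3628c06a186fec526173a9fcf2c70497f2502788f63a8768c05e68567bfcef2940a34fa89010691611f9a0cb45900e7622ab3207c264705925ee23d93d6945d (k8 c14849 c16163 c5519 c5210 c5331 c5333 c5334 c5516 (k8 c5520 c5564 c5517 c15726 c5500 c1269 c12110 c16164 (k8 c16171 c5644 c1896 c15819 c5558 c685 c1892 c5642 (k8 c5567 c5566 c5381 c5380 c16170 c14727 c5544 c5543 (k8 c5541 c5540 c5502 c5501 c5499 c5341 c5560 c9695 (k8 c16075 c16175 c5439 c5438 c5357 c5441 c5358 c5440 (k8 c1107 c261 c16180 c14805 c5648 c437 c1163 c682 (k8 c4369 c1916 c1475 c3608 c3607 c5465 c1720 c15912 k0)))))))) (by decide +kernel)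
def c16182 : PP 9 3 T 0x40001800000000018000010040000000000000200000000000100000500080000000000010000000004000000000000000000000000000400000000040211 := rS 0x7131a28ca3d81c32934fa84f29c64a6d33b059aa5becd (k8 c5495 c2516 c5489 c2460 c5209 c5447 c8100 c5396 (k8 c15342 c1538 c5398 c5448 c5444 c6205 c30 c1684 (k4 c13648 c15422 c5669 c1293 (k1 c2619 k0)))) (by decide +kernel)
def c16183 : PP 9 3 T 0x2000000000000010000201040000000000000200000004000100000000080000000000000000000000000000000000000000080000000000000000000010 := rS 0x1c3e363b580c7504b7c767740a3626133ea24ae020087d1611f9a0dea5d0cb15aacdf0b3dfa954baa4f29cef325379da534533b0d94455664 (k8 c15726 c5500 c1269 c5210 c5209 c5447 c5501 c16163 (k8 c12110 c8100 c5396 c5214 c15342 c1538 c5489 c5404 (k8 c5488 c5405 c5543 c8772 c5495 c5454 c5451 c6205 (k8 c14849 c5519 c1896 c15819 c5558 c685 c5517 c16164 (k8 c5642 c9757 c5567 c5566 c5564 c5382 c5381 c5380 (k8 c14727 c5332 c2516 c16182 c1895 c5643 c10339 c13650 (k2 c5465 c1720 (k1 c15938 k0)))))))) (by decide +kernel)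
def c16184 : PP 9 3 T 0x40001800000000018000010040000000000000200000000000100000500000000000040010000000404000000000000000000000000000400000000040211 := rS 0x7131a28ca3d81c32934fa84f29c64a6d33b0 (k8 c5209 c5447 c8100 c5396 c15342 c1538 c5398 c5448 (k8 c5444 c6205 c30 c1684 c13648 c15422 c5669 c1293 (k1 c2619 k0))) (by decide +kernel)
def c16185 : PP 9 3 T 0x2000000000000010000201040000000000000200000004000100000000000000000000000000000000000000000000000000080000000000000000000010 := rS 0x1c3e363b580c7504b7d6690819e7c29c66b558a9964a6fbdb00ca5dfa9554ec8768768c050acf7f9dd028d8984cfa894795c0401cec4556640fa2c23f341bd6945d (k8 c14849 c16163 c5519 c1896 c15819 c5558 c685 c5517 (k8 c15726 c5500 c1269 c12110 c16164 c5642 c9757 c5568 (k8 c5567 c5566 c5564 c5382 c5381 c5380 c14727 c5544 (k8 c5543 c5541 c5502 c5501 c5499 c5332 c5210 c5489 (k8 c5488 c5405 c5404 c6205 c5209 c5214 c8100 c5396 (k8 c5447 c5451 c5454 c5495 c15342 c8772 c1538 c16183 (k8 c3613 c2897 c10336 c16184 c1895 c5643 c10339 c13650 (k2 c5465 c1720 (k1 c15938 k0))))))))) (by decide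 +kernel)
def c16186 : PP 9 3 T 0x2000000000000100000000000000000000400000000000000000000000000001000000000000000001000000000400000000080000000000000600000008 := rS 0x3e6137ba3ad9722e158b712fbc0c86ff8bd241d0a6c (k8 c266 c5541 c5503 c5213 c5390 c5389 c5606 c5607 (k8 c5609 c5610 c269 c1115 c5652 c1298 c591 c465 (k4 c749 c2468 c688 c5274 k0))) (by decide +kernel)
def c16187 : PP 9 3 T 0x4600000000000005a000210080000000000000200000000000000400000000051000000000000000400000000000000000000080051600000000600002009 := rS 0x21bf185d1a31f78bc27e90fd2ebe4651b36e628b5362a4aa112594e0ef38289c2683 (k8 c1896 c5564 c267 c5545 c5540 c5503 c5563 c5342 (k8 c5558 c5343 c5489 c266 c2608 c5685 c14761 c16186 (k8 c5350 c5351 c5603 c9413 c3117 c5242 c5556 c5635 (k4 c8101 c11918 c8896 c3403 (k2 c5624 c3490 (k1 c5696 k0)))))) (by decide +kernel)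
def c16188 : PP 9 3 T 0x4200400000000005a000200080000000000000200080000000000400100000001000040000000000400000000000000000000080000200000000000004048 := rS 0x4e1b4423906388f6e11f0ec46f72493c16377a91c9a111e90497ef4084cfa01ce87cae7f0b97d26090cf85929955b3da2fd4aa5d529b (k8 c5397 c5489 c5404 c5488 c5405 c5501 c5543 c5500 (k8 c5447 c5396 c8772 c5393 c5438 c261 c5439 c1107 (k8 c5358 c9757 c5517 c12110 c16164 c5566 c5564 c5380 (k8 c14774 c5342 c5340 c5560 c5558 c5521 c5520 c5519 (k8 c5518 c5516 c5335 c5334 c5333 c5331 c5332 c12613 (k8 c3056 c15912 c5691 c15503 c2617 c16187 c2426 c3578 (k1 c8792 k0))))))) (by decide +kernel)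
def c16189 : PP 9 3 T 0x4600000000000005a000210080000000000000200000000000000400000000051000000000000000400000000000000000000080051600000000600000009 := rS 0xc (k2 c265 c16187 k0) (by decide +kernel)
def c16190 : PP 9 3 T 0x2000400000000052000201000000000000000200000004000000000000000000000840000000000000000000000000000000000000000000000100000090 := rS 0x309f6b37c7cba516af57edcdc451946c4e0e4f71f1d8dc9a2525fbd03f341f8c32172f8a44e9304e48b4590991dea0b24bdc465d010073b113207e9529f0b2532ab67b45fa954baa7649b (k8 c5397 c5210 c5489 c5404 c5488 c5405 c5501 c5543 (k8 c5500 c5447 c5396 c8772 c16170 c16163 c5517 c15726 (k8 c1269 c12110 c16164 c5642 c14849 c5331 c5333 c5334 (k8 c5516 c5519 c5520 c5564 c16171 c5644 c16185 c5438 (k8 c261 c267 c5339 c5439 c1107 c5393 c13634 c1896 (k8 c15819 c5380 c14774 c5342 c5559 c5521 c5518 c5332 (k8 c9713 c1775 c2617 c3578 c8792 c1777 c1778 c16176 (k8 c16177 c5431 c5617 c5612 c8905 c5471 c5513 c5220 (k2 c5206 c6194 (k1 c5638 k0)))))))))) (by decide +kernel)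
def c16191 : PP 9 3 T 0x2000400000000052000201000000000000000200000004000000000000080000000040000000000000000000000000000000000000000000000000000010 := rS 0xc1a8356bb4dc6251e904ee9f50f85929967b45fa954ba6c43ef2693c0de30c85cbe2913a4c12b354e4a5244f9a0cb4590991dea0b24bdc465d010073a1f88aacc94a07c7f64f1 (k8 c9695 c5210 c9713 c9739 c16163 c15726 c5500 c1269 (k8 c5517 c12110 c16164 c5642 c14849 c5331 c5333 c5334 (k8 c5516 c5519 c5520 c5564 c16171 c5644 c1896 c15819 (k8 c16181 c16170 c16185 c5489 c2460 c5438 c261 c267 (k8 c5339 c5439 c1107 c5393 c13634 c16188 c5335 c5521 (k8 c14774 c16189 c5397 c5404 c5488 c5405 c5501 c5543 (k8 c5447 c5396 c8772 c5398 c5448 c14727 c5340 c5560 (k8 c5559 c16190 c2088 c10298 c14487 c5689 c9931 c1475 k0)))))))) (by decide +kernel)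
def c16192 : PP 9 3 T 0x2000000000000052000201000000000000000200000004000000000000080000000040000000000000000000000000000000000000000000000000000010 := rS 0x70359a6cd6ab17bcd13ba051a7d44a0d1611639e4ebe30c85cbe2913a4c13922d16426477a82c92f711ec8ba0200e7622ab3207e9529 (k8 c16170 c16163 c5517 c15726 c5500 c1269 c12110 c16164 (k8 c5642 c14849 c5210 c5331 c5333 c5334 c5516 c5519 (k8 c5520 c5564 c16171 c5644 c16185 c5438 c261 c267 (k8 c5339 c5439 c1107 c5393 c13634 c5440 c5441 c5357 (k8 c5558 c685 c1896 c5567 c5566 c5381 c5380 c14727 (k8 c5501 c16191 c5451 c5454 c5495 c5496 c8254 c15938 (k1 c1720 k0))))))) (by decide +kernel)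
def c16193 : PP 9 3 T 0x2000000000000052000201000000000000000200000004000000000000080000000000000000000000000000000000000000000000000000000000000010 := rS 0x2d62ade4da87e6832d164039d88aacc81f0991c16497b88deb4a2eacd53b2 (k8 c5210 c5489 c2460 c14849 c16163 c5519 c5331 c5333 (k8 c5334 c5516 c5520 c5564 c5517 c15726 c5500 c1269 (k8 c12110 c16164 c16171 c5644 c1896 c15819 c5398 c5397 (k4 c16192 c2950 c2514 c5685 k0)))) (by decide +kernel)
def c16194 : PP 9 3 T 0x42000000000000051000000080000000000000000000000000100000000000011000000000000000000000004150110400000080000201000000008400000 := rS 0x70f8cf4d66ab35a6c5180d430df43b450acf41b1cf275 (k8 c5440 c5441 c5357 c1896 c5543 c5541 c5501 c5499 (k8 c14805 c5648 c437 c1163 c682 c2937 c1916 c1475 (k4 c8254 c3607 c5465 c1720 (k1 c15912 k0)))) (by decide +kernel)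
def c16195 : PP 9 3 T 0x2000400000000050000201000000000000000200000004000000000000000000000000000000000000000000000000000000000000000000000000000010 := rS 0x1a8ca698fdc0d771894829f50f85929967b45fa954baa53621f79349e066f8efc6191489d669081ec126090b97c347d409dc7b0143bfd0a8f44a36268b08e4a5244f9a0cb4590991dea0b24bdc465d010073a1f88aacc94a07c7f64f1 (k8 c9695 c5210 c9713 c9739 c16163 c15726 c5500 c1269 (k8 c5517 c12110 c16164 c5642 c14849 c5331 c5333 c5334 (k8 c5516 c5519 c5520 c5564 c16171 c5644 c1896 c15819 (k8 c16181 c16170 c16185 c5558 c685 c5382 c5381 c5567 (k8 c5568 c5541 c5544 c5499 c5502 c5560 c14727 c5380 (k8 c5566 c1892 c5439 c1107 c5438 c261 c16194 c16193 (k8 c3613 c2897 c267 c5339 c5393 c13634 c5332 c10336 (k8 c16188 c5335 c5521 c14774 c16189 c5397 c5489 c5404 (k8 c5488 c5405 c5501 c5543 c5447 c5396 c8772 c5398 (k8 c5448 c5340 c5559 c16190 c10298 c5691 c3056 c3062 (k2 c3579 c5689 (k1 c1660 k0)))))))))))) (by decide +kernel)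
def c16196 : PP 9 3 T 0x2000000000000050000201000000000000000200000004000000000000000000000000000000000000000000000000000000000000000000000000000010 := rS 0x703599ad562f79be90f1c0c33b04985cea7963824bf92227cd16830d168b2272b808039d47a24fa1389a3502f1d9174761f11bdc920b7a91e94111e8a50ed180a15ff1155990ef29 (k8 c16170 c14727 c15726 c5500 c1269 c5544 c5541 c5502 (k8 c5501 c5499 c5339 c5560 c5558 c16163 c5520 c5519 (k8 c5516 c5334 c5333 c5331 c5517 c5332 c14849 c5210 (k8 c9695 c5380 c5381 c5382 c5564 c5566 c5567 c5568 (k8 c12110 c16164 c5642 c9757 c267 c16171 c5644 c1892 (k8 c1896 c685 c15819 c16181 c16185 c5439 c5438 c5357 (k8 c5441 c5440 c1107 c261 c16194 c5393 c16193 c13634 (k8 c3613 c10336 c16195 c5451 c5454 c5495 c10339 c15938 (k1 c1720 k0))))))))) (by decide +kernel)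
def c16197 : PP 9 3 T 0x2000000000000012000001040000000000000000000004000000000000000000000000000000000000000000000001000000040000000010000000000011 := rS 0x18c060d961e3b22e87e94cf0124c32c94d9853233 (k8 c8428 c5447 c5445 c5397 c5396 c5393 c5444 c5642 (k8 c5543 c16163 c5517 c14849 c5210 c9695 c5644 c5280 (k2 c14824 c15097 (k1 c13650 k0)))) (by decide +kernel)
def c16198 : PP 9 3 T 0x2000000000000052000001040000000000000200000004000000000000000000000040000000000000000000000000000000000000000000000000000010 := rS 0xdab23d0858e803e89cea7f371c5188b4196bc6796b271a6cd6a8d58bde3387c463d14a1d0b113bca626b571b84040139a248903f91248f1d80bfdeaf7a53ccba64d08444a61f0b2532ab67b45fa954baa7649b (k8 c5397 c5210 c5489 c5404 c5488 c5405 c5501 c5543 (k8 c5500 c5447 c5396 c8772 c5445 c5559 c5558 c16196 (k8 c15726 c14849 c5540 c16163 c5333 c5519 c5544 c5502 (k8 c5341 c5520 c5334 c16169 c5550 c16075 c2834 c1317 (k8 c11969 c5642 c5591 c5549 c5548 c5547 c16170 c14727 (k8 c1269 c5541 c5499 c5339 c5560 c5331 c5517 c9680 (k8 c5214 c5451 c5450 c5454 c5495 c5496 c15342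 c3627 (k8 c1538 c5465 c16197 c1896 c685 c14205 c753 c2172 (k8 c807 c16017 c268 c1549 c5670 c940 c13817 c3607 (k2 c8140 c742 (k1 c2820 k0))))))))))) (by decide +kernel)
def c16199 : PP 9 3 T 0x2000000000000002000001000000000000000200000004000000000400000000000540000040000000000001000051100000040000200000000000400011 := rS 0x4035cde6c18a28401b2c3c55efd0eaa7645d1182deb4a20c755602498659261 (k8 c5445 c5396 c5393 c5444 c5642 c5500 c5341 c5340 (k8 c16163 c5519 c5516 c5331 c14849 c5210 c5489 c5486 (k8 c5405 c5406 c9695 c5644 c5280 c10419 c285 c1945 (k4 c266 c2978 c14269 c14941 (k1 c857 k0))))) (by decide +kernel)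
def c16200 : PP 9 3 T 0x200000000000001a000000080000000000000000000000000000000100000000000000001010000000000000000400400000000000000000000000000000 := rS 0x6d359e9399d4ba55528755b450acf64a6cc2992fb1cf275 (k8 c5440 c5441 c5357 c5439 c5447 c5445 c5397 c5396 (k8 c5543 c5541 c5501 c5500 c5499 c5489 c5488 c5404 (k4 c8127 c8724 c3607 c1135 (k2 c742 c5665 k0)))) (by decide +kernel)
def c16201 : PP 9 3 T 0x2000000000000052000001000000000000000200000004000000000000000000000040000000000000000000000000000000000000000000000000000010 := rS 0x63df663146ad51f32c4e7169a311683199682e753f9e4fac72fe4b64671e8a48311559de531371a45c202009cd124481fc892478ec05fef57bd29e65d32684222549a7d4219 (k8 c5393 c5398 c5448 c5444 c5559 c5558 c16196 c15726 (k8 c14849 c5540 c16163 c5333 c5519 c5544 c5502 c5341 (k8 c5520 c5334 c16169 c5550 c16075 c2834 c1317 c11969 (k8 c5642 c5591 c5589 c5549 c5547 c16170 c14727 c5500 (k8 c1269 c5340 c5339 c5560 c9680 c5210 c16198 c5439 (k8 c5357 c5442 c5441 c5358 c5440 c1107 c16199 c4438 (k8 c1896 c685 c14205 c4465 c753 c268 c8466 c3579 (k4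 c2997 c442 c948 c16200 (k2 c5495 c1916 (k1 c9931 k0)))))))))) (by decide +kernel)
def c16202 : PP 9 3 T 0x82001000000000000000000040000000000000200080000000000000000000000000000001050000000000000000401508001000000000000004000000008 := rS 0x1b5647a1087c464923894528768a159eb5 (k8 c5548 c5543 c5541 c5501 c5499 c5339 c5559 c5520 (k8 c5334 c5331 c5517 c13817 c3607 c8140 c742 c2820 k0)) (by decide +kernel)
def c16203 : PP 9 3 T 0x2000000000000052000001040000000000000200000004000000000000000000000000000000000000000000000000000000000000000000000000000010 := rS 0x2c3f6582102076309cea7f371c5188b41968f29c668d58bde3387c7a2920c44ef298995c040139a248903f91248f1d80bfdeaf7a53ccba64d08444a934fa843261f0b2532ab67b45fa954baa7649b (k8 c5397 c5210 c5489 c5404 c5488 c5405 c5501 c5543 (k8 c5500 c5447 c5396 c8772 c5445 c5393 c5398 c5448 (k8 c5444 c5559 c5558 c16196 c15726 c14849 c5540 c16163 (k8 c5333 c5519 c5544 c5502 c5341 c5520 c5334 c16169 (k8 c5550 c16075 c2834 c1317 c11969 c5642 c9757 c5547 (k8 c16170 c14727 c1269 c5340 c5339 c5560 c5517 c9680 (k8 c5214 c5451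 c5450 c5495 c15342 c1538 c16197 c1896 (k8 c685 c14205 c753 c2172 c807 c16017 c268 c16202 (k4 c13650 c940 c5643 c1145 (k2 c276 c3579 (k1 c1108 k0))))))))))) (by decide +kernel)
def c16204 : PP 9 3 T 0x1000000000000000000000004000000000000000000000000000100000000000004000000100000140000000004000001400101 := rS 0x311a86cb0f14b8752bb2 (k8 c5210 c5488 c5486 c5404 c9695 c5644 c5280 c280 (k2 c1945 c3577 k0)) (by decide +kernel)
def c16205 : PP 9 3 T 0x2000000000000052000001000000000000000200000004000000000000000000000000000000000000000000000000000000000000000000000000000010 := rS 0x3518f7c7ccc6589d8a7169a3116832d05cea092fe4866d56f32432a14fa4f64671e8a48311559de5202009cd124481fc892478ec05fef57bd29e65d326842225 (k8 c5559 c5558 c16196 c15726 c14849 c5540 c16163 c5333 (k8 c5519 c5544 c5502 c5341 c5520 c5334 c16169 c5550 (k8 c16075 c2834 c1317 c11969 c5642 c16170 c14727 c5500 (k8 c1269 c5340 c5339 c5560 c9680 c5210 c5444 c5448 (k8 c5398 c5393 c5396 c16201 c3002 c390 c16203 c5439 (k8 c5438 c5440 c1107 c16204 c1896 c685 c14205 c4465 (k8 c753 c948 c268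 c8466 c16200 c3579 c5495 c1916 (k2 c442 c9931 k0)))))))) (by decide +kernel)
def c16206 : PP 9 3 T 0x2000000000000041000101000000000000000000000004000000000400000000000500000440000000001001000051000000040000200000000000000011 := rS 0x6f36228405878abdfa1d54ec8460b7ad29567344974c802 (k8 c5642 c15726 c14849 c2834 c1317 c5500 c16163 c5519 (k8 c5516 c5331 c5210 c5489 c5486 c5405 c5406 c9695 (k4 c5644 c10419 c285 c266 (k2 c2978 c14949 k0)))) (by decide +kernel)
def c16207 : PP 9 3 T 0x2000000000000050000001000000000000000200000004000000000000000000000000000000000000000000000000000000000000000000000000000010 := rS 0x1662136a644e7a371c59a8c1831516830d169969d1a8602e933a9fcf27d6397c1392d8808027344911c29181b8d6b13f9684ef297899cba1f11bdc92f523d284a1114c750ed180bcd0acf7fc455664 (k8 c15726 c5500 c1269 c5544 c5543 c5541 c5540 c5502 (k8 c5501 c5499 c5341 c5339 c5558 c5559 c16163 c5520 (k8 c5519 c5334 c5333 c5331 c5517 c14849 c9680 c9695 (k8 c16170 c14727 c16196 c16169 c5547 c5548 c5549 c5550 (k8 c5589 c5591 c16075 c2834 c1317 c11969 c5642 c16205 (k8 c5209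 c9669 c9668 c5357 c5442 c5441 c5358 c5440 (k8 c261 c1107 c5648 c437 c1273 c1320 c16206 c1892 (k8 c1896 c685 c682 c1163 c14205 c1916 c753 c2172 (k4 c3607 c268 c1594 c743 (k2 c378 c2820 (k1 c8140 k0))))))))))) (by decide +kernel)
def c16208 : PP 9 3 T 0x80000001000000000000000200000004000000000000000000000000000000000000000000000000000000140000000000000000040001 := rS 0x8a1b2c3c76429 (k4 c5339 c5210 c9695 c5644 (k2 c5280 c284 (k1 c14226 k0))) (by decide +kernel)
def c16209 : PP 9 3 T 0x2000000000000010000201000000000000000200000004000000000000000000000000000000000000000000000000000000000000000000000000000010 := rS 0x35daad3640c18a8b0d1686a184985f62753f824be02c91dc0329cea24fa1340bc4ba1fa5044863d88aace2cb46ac76c64 (k8 c15726 c16207 c5421 c2171 c5420 c5571 c5500 c1269 (k8 c5560 c5561 c5558 c16163 c5517 c14849 c9695 c5380 (k8 c5564 c5566 c5567 c12110 c16166 c16164 c14727 c16054 (k8 c5642 c5439 c5438 c5358 c5440 c12830 c1107 c261 (k8 c5648 c437 c16208 c1892 c685 c682 c1163 c1162 (k4 c1918 c1475 c2189 c3608 k0)))))) (by decide +kernel)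
def c16210 : PP 9 3 T 0x2000000000000082000101000000000000000200000004000000000000000000000000000000000000000000000000000000120000000000000000000000 := rS 0x1e21f228881b6b8c862353a9fcfa092fe4a53df30b24c61978abf64298ea356264 (k8 c15726 c5421 c2171 c5341 c5339 c5210 c5406 c9695 (k8 c5393 c5395 c5396 c5445 c15095 c14052 c5214 c5439 (k8 c5438 c5442 c5358 c5440 c280 c1945 c5653 c2185 (k4 c2043 c14226 c14205 c389 (k2 c16062 c5576 k0))))) (by decide +kernel)
def c16211 : PP 9 3 T 0x2000000000000091000101040000000000000200080004000000000000000000000000000000000000000000000000000000000000000000000000000000 := rS 0x10c55349d70249bea171f8bbe171f8e650191d88dee491b91c4a3d1490497ef59a7d9627 (k8 c5570 c5420 c5572 c5574 c14774 c5342 c5340 c5339 (k8 c5560 c5559 c5520 c5518 c5334 c5333 c5331 c5332 (k8 c6205 c16054 c5317 c5318 c5433 c10382 c5186 c5466 (k8 c5578 c5580 c7824 c5985 c1694 c13096 c1191 c2490 (k1 c8534 k0))))) (by decide +kernel)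
def c16212 : PP 9 3 T 0x6000000000000090000101080000000000000000000004000200000000000000000000000000000000000000000000000000040000001000000000000010 := rS 0x1261b010073bdf0b8fc66190fbdc6f4a88aacc809189d4b05d (k8 c14849 c5644 c5440 c1945 c5438 c15726 c5500 c1269 (k8 c16163 c5518 c5333 c5517 c5315 c5316 c5318 c5433 (k4 c10382 c13294 c16164 c5642 (k2 c5280 c261 (k1 c14357 k0))))) (by decide +kernel)
def c16213 : PP 9 3 T 0x2000000000000010000001000000000000000200000004000000000000000000000000000000000000000000000000000000040000000000000001000012 := rS 0x3c4616b8f9141619113be8f06a45079c35abc3a9554ec81e1f7b92416f523c75a28567c45568d58990be7d3f98c6a09189d65392d8960bba1db7be943d (k8 c5560 c16163 c14774 c16207 c16209 c14849 c5644 c16210 (k8 c16211 c16212 c5440 c1945 c5438 c280 c5355 c5358 (k8 c5442 c5439 c15726 c5421 c2171 c5500 c1269 c5543 (k8 c5541 c5501 c5341 c5520 c5519 c5516 c5334 c5333 (k8 c5517 c9739 c5210 c5489 c5488 c5486 c5406 c1058 (k8 c16164 c8722 c5374 c5522 c5526 c12425 c16167 c5653 (k4 c11149 c14205 c389 c2185 (k2 c1460 c16062 (k1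 c5576 k0))))))))) (by decide +kernel)
def c16214 : PP 9 3 T 0x2000000000000010000001000000000000000200000004000000000000000000000000000000000000000000000000000000040000000000000001000010 := rS 0x4985c04012f8265392d8960bba1db7be943d (k8 c5560 c16163 c14774 c16207 c16209 c14849 c5644 c16210 (k8 c16211 c16212 c5438 c5439 c16213 c5642 c1107 c261 (k1 c5648 k0))) (by decide +kernel)
def c16215 : PP 9 3 T 0x2000000000000010000001000000000000000200000004000000000000000000000000000000000000000000000000000000040000000000000000000010 := rS 0xd7efc4dc7e16fb85147b060e1366b48910d8200906d3a0200a4c30313a9dcf392d8961e2fd0eaa4ba232482dea2925a1da28567bffdf4a88aad3e8d327cd630159edb65a1 (k8 c16209 c5210 c16207 c5574 c5502 c5421 c14538 c15726 (k8 c2171 c5572 c5500 c1269 c16163 c14774 c5544 c5543 (k8 c5541 c5501 c5499 c5342 c5339 c5519 c5516 c5334 (k8 c5331 c14849 c5489 c5486 c5405 c9695 c5644 c16210 (k8 c16211 c5441 c5356 c5440 c1945 c16214 c83 c9699 (k8 c9701 c1273 c1163 c16208 c10419 c266 c14226 c3036 (k8 c2372 c2491 c377 c265 c743 c14205 c13096 c13097 (k4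 c5534 c2617 c2598 c8645 (k2 c10298 c14766 k0))))))))) (by decide +kernel)
def c16216 : PP 9 3 T 0x2000000000000010000001000000000000000200000004000000000000000000000000000000000000000000000000000000000000000000000000000010 := rS 0x44a2cb5a146ac76c640890fdf4a (k8 c16163 c14774 c5561 c5558 c15726 c16207 c5421 c2171 (k4 c16209 c16215 c685 c1898 (k1 c5673 k0))) (by decide +kernel)
def c16217 : PP 9 3 T 0x2000000000000022000001000000000000000000080004000000000000000000000000000000000000000000000000000000020000000000000000000000 := rS 0xd01231c9332529b64a5d2aab68a75321a7a87446f37eaa764f1 (k8 c9695 c5210 c5489 c5405 c5540 c5331 c5486 c5519 (k8 c10456 c5530 c5412 c5501 c5500 c5488 c5404 c5396 (k8 c5397 c9578 c8724 c15876 c4380 c5438 c15909 c280 k0))) (by decide +kernel)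
def c16218 : PP 9 3 T 0x2000000000000020000201040000000000000200080004000000000000000000000000000000000000000000000000000000020000000000000000000002 := rS 0x6bb55a6356f9d18a62308c40e3f940ccd264218f482d1679f4e2113587fe7022284c92478ec05fef57bbccbfb1 (k8 c16217 c10372 c5540 c5333 c5519 c5544 c5502 c5341 (k8 c5520 c5334 c5564 c284 c16075 c5550 c5517 c1058 (k8 c5558 c667 c5566 c5543 c5501 c5340 c5560 c5561 (k8 c15726 c9742 c8428 c15876 c5318 c5432 c5434 c661 (k8 c5663 c837 c1172 c14962 c281 c4400 c1532 c16068 (k1 c3588 k0)))))) (by decide +kernel)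
def c16219 : PP 9 3 T 0x40000000000000001000200080000000000000200000000000000000100000000000040000000000000001104000000001000000000000000000040000002 := rS 0x1c0caf1b8fc2a14f9e82c61128f4e681379f43271089acbec73c9fcc729 (k8 c12891 c5355 c5358 c5441 c5357 c10372 c1058 c5558 (k8 c667 c9699 c5566 c5565 c5380 c5379 c5560 c5559 (k8 c662 c5648 c13171 c1465 c1068 c5457 c1775 c12178 (k2 c3599 c5691 (k1 c1718 k0))))) (by decide +kernel)
def c16220 : PP 9 3 T 0x2000000000000000000201000000000000000200000004000000000000000000000000000000000000000000000000000000040000000000000000000010 := rS 0x333bc391985d24df188d6527504e4b63f3810648a002c3c5fa1d4aaa7645d1d87c46f72482c6ef523d2a3ad180bcdff11559913a2136a676813 (k8 c5564 c16216 c5530 c5529 c5528 c5412 c15726 c5500 (k8 c1269 c5544 c5540 c5502 c5501 c5341 c16163 c5520 (k8 c5519 c5518 c5516 c5334 c5333 c5331 c5517 c5332 (k8 c14849 c5210 c5489 c5488 c5486 c5405 c9695 c5644 (k8 c10419 c284 c9699 c16075 c5550 c16217 c16218 c5438 (k8 c5440 c12891 c280 c1945 c14614 c16219 c55 c322 (k4 c324 c11149 c15359 c5495 k0)))))))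 (by decide +kernel)
def c16221 : PP 9 3 T 0x2000000000000022000001000000000000000000080004000000000000000000000000000000000000000000000000000000000000000000000000000008 := rS 0x381a17c6392664a536c90ca4d2e951d82c6eab68a75321a7a87446f37eaa764f1 (k8 c9695 c5210 c5489 c5405 c5540 c5331 c5486 c5519 (k8 c10456 c5530 c5412 c5501 c5500 c5518 c5516 c5332 (k8 c5488 c5404 c5444 c5393 c5396 c5397 c9578 c8724 (k4 c15876 c1916 c5439 c15909 (k2 c9933 c439 k0))))) (by decide +kernel)
def c16222 : PP 9 3 T 0x2000000000000000000201040000000000000200000004000000000000000000000000000000000000000000000000000000000000000000000000000010 := rS 0x1949a50b49bed72f1d8ea6aef8c42e071cca1e26756a5d53b21dbdc163720a1d570142bffde9d4cedd1a6f3ea2c22012cfcd06f52ead04e131088d66250f924524b23c5762022d193694a (k8 c16163 c16216 c15726 c16220 c1893 c16221 c5414 c5520 (k8 c5342 c5339 c5334 c5517 c5559 c5532 c5331 c5528 (k8 c5564 c267 c3584 c14849 c5519 c1896 c15819 c32 (k8 c1057 c5558 c685 c5566 c5565 c5381 c9399 c5530 (k8 c5412 c14774 c5544 c5541 c5502 c5500 c5499 c5340 (k8 c5518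 c5516 c5333 c5332 c5210 c5489 c5404 c5490 (k8 c9680 c9695 c15876 c5317 c5432 c5433 c5434 c10382 (k8 c15842 c1894 c10422 c2054 c4532 c14418 c14407 c4021 (k2 c8110 c14519 (k1 c1327 k0)))))))))) (by decide +kernel)
def c16223 : PP 9 3 T 0x2000000000000000000201000000000000000200000004000000000000000000000000000000000000000000000000000000000000000000000000000010 := rS 0x1c7e16b1e9aad366b15be301a8612617949d4ee7963824bf92d8fcc4e8b41808b4893e84d1a8132174764712844863d1492d0ed142b3e2a215986b68f50e88de6fda52a764f1 (k8 c9695 c5210 c5489 c16163 c5405 c5540 c5331 c5486 (k8 c5519 c16216 c10456 c5532 c5528 c5414 c5543 c5541 (k8 c5501 c5499 c5342 c5339 c5560 c5561 c5558 c5559 (k8 c5520 c5332 c14849 c15726 c5380 c5381 c5564 c5566 (k8 c5567 c16220 c1893 c1896 c685 c267 c15819 c16221 (k8 c16222 c5439 c5438 c5357 c5441 c5356 c5440 c12891 (k8 c1107 c261 c5648 c437 c1163 c14342 c682 c1916 (k4 c1918 c1475 c3607 c8254 (k2 c5457 c1775 (k1 c10298 k0)))))))))) (by decide +kernel)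
def c16224 : PP 9 3 T 0x2000000000000000000001000000000000000200000004000000000000000000000000000000000000000000000000000000040000000000000000000010 := rS 0x388f4d2038fc73281985e248ff998604311a835aad7229d4fa09442851691c91ace4570cec51a002c3c4d2fd0ea5553b207974761f11bdc920b1bbd48e250890c7a418e92e02f37fc4556644e884da99dbed295a1 (k8 c16223 c16163 c16216 c9399 c5530 c5529 c5528 c5412 (k8 c15726 c5500 c1269 c5544 c5540 c5502 c5342 c5341 (k8 c5340 c5560 c5561 c5558 c5559 c5520 c5519 c5518 (k8 c5516 c5334 c5333 c5331 c5517 c5332 c14849 c9739 (k8 c5210 c5489 c5488 c5486 c5405 c9742 c9695 c5644 (k8 c10419 c2169 c16217 c9699 c9758 c11969 c1058 c15979 (k8 c9824 c855 c4053 c1317 c5438 c5442 c5440 c285 (k8 c13349 c14520 c15982 c280 c1945 c16075 c14575 c5550 (k8 c2406 c1986 c12525 c5284 c14581 c5317 c5318 c5432 (k4 c3588 c11223 c2088 c1776 k0)))))))))) (by decide +kernel)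
def c16225 : PP 9 3 T 0x2000000000000000000001040000000000000200000004000000000000000000000000000000000000000000000000000000000000000000000000000010 := rS 0x1d8ea6065f7c621703f8a50197899d53b211bdc16377aaac43b7009676202da1b9188921fbe95a1459682264 (k8 c15726 c5558 c16224 c685 c16223 c16163 c14774 c5561 (k8 c1898 c5673 c2172 c16216 c1893 c16221 c32 c1057 (k8 c9399 c5528 c5500 c5519 c5518 c5516 c5333 c5331 (k8 c5210 c5489 c9680 c9695 c6205 c15876 c5236 c5432 (k8 c5433 c5434 c10382 c5464 c14214 c1894 c10422 c724 k0))))) (by decide +kernel)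
def c16226 : PP 9 3 T 0x40000100080000000000000200000000000200001000000000000000000400000400004004000000040000004000000440004540405400 := rS 0xf09e940071f8e432251e8a4824b04b1cf27f (k8 c5358 c5441 c5357 c5438 c5342 c5340 c5339 c5560 (k8 c5559 c5315 c5317 c5318 c5432 c3579 c11223 c15597 (k1 c15707 k0))) (by decide +kernel)
def c16227 : PP 9 3 T 0x2000000000000000000001000000000000000200000004000000000000000000000000000000000000000000000000000000000000000000000000000010 := rS 0x1ae8071f84f5df66b1590301a862529f49b2c2e753b9e4fac70497f24df891abe6b40689cdc7169a4519b12b9cc028945a0c04592d6876e1a598862bb4f7b3d0af368a1de2677e87553b23203c761f1192416377a91e94250890c524b (k8 c5342 c5339 c5561 c5558 c5559 c16163 c5520 c5519 (k8 c5518 c5516 c5334 c5331 c5517 c5332 c9739 c15726 (k8 c5210 c5489 c5486 c5405 c9680 c9695 c5499 c5501 (k8 c5540 c5541 c5543 c14774 c16216 c5414 c5528 c5532 (k8 c10456 c9399 c16223 c16224 c32 c1893 c1896 c685 (k8 c1898 c1057 c9716 c9757 c16221 c5673 c10035 c4465 (k8 c753 c2172 c268 c15999 c3584 c5548 c1148 c1149 (k8 c4676 c16225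 c5439 c5438 c5357 c5442 c5441 c5356 (k8 c5440 c1107 c8466 c261 c2815 c16226 c5648 c437 (k8 c1163 c1162 c682 c1916 c5494 c3607 c5457 c1776 (k2 c956 c10298 (k1 c13318 k0)))))))))))) (by decide +kernel)
def c16228 : PP 9 3 T 0x1a000010040000000000000200000000000200000000000051000000000000000000000000410100000120020001400000000040040010 := rS 0x3cf84f69c713284f14813fe02f363a0954858817c00171f8947a2920c748a1949a7d4263 (k8 c5395 c5398 c5448 c5444 c6205 c284 c5341 c5340 (k8 c5339 c5560 c5559 c5318 c5433 c16165 c1054 c16164 (k8 c845 c1269 c1270 c796 c283 c1977 c2396 c16075 (k8 c2200 c3046 c3579 c1293 c1292 c1775 c5458 c1537 (k1 c5669 k0))))) (by decide +kernel)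
def c16229 : PP 9 3 T 0x10000200040000000000000200080000000100000000000000000000004000000000014000000000400125024000000010000000000002 := rS 0x1e13da71c4ca8a1fcf25f81019ff0179b1d04aa42c40d66d3880c3ef72482c6ef5238463a73409bcfa8947e748a13 (k8 c5564 c284 c12110 c5568 c5567 c5566 c5565 c5380 (k8 c5379 c5341 c5558 c5520 c5519 c5518 c5516 c5334 (k8 c5333 c5517 c28 c667 c665 c1058 c16164 c845 (k8 c1269 c1270 c796 c283 c1977 c2396 c15047 c16075 (k8 c1451 c1454 c676 c2200 c3599 c1293 c1292 c1775 (k2 c5458 c5669 k0)))))) (by decide +kernel)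
def c16230 : PP 9 3 T 0x2800000000008000000000000000000000000000000000000000000000000000000000000000004000100000000000000000000000000000000000000 := rS 0x13acd (k2 c5495 c5458 (k1 c6325 k0)) (by decide +kernel)
def c16231 : PP 9 3 T 0x800000000008000010040000000000000000000000000000000000000051000000000040000004000100000001200001100000000000000444000008 := rS 0x79208427af0bf43aa9 (k8 c5489 c5486 c5405 c16230 c5669 c13817 c1689 c3581 (k1 c2391 k0)) (by decide +kernel)
def c16232 : PP 9 3 T 0x5000800000000058000011040000000000000000000000000000000500000050000000000040000200000100404151200001100000000000000444000008 := rS 0x7ffcdc49180b85bf035a9ed086b41aa9e2cf (k8 c5453 c9695 c16231 c1974 c1138 c5672 c1689 c8714 (k8 c2629 c14796 c10249 c2144 c9181 c3610 c5549 c2574 (k1 c5694 k0))) (by decide +kernel)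
def c16233 : PP 9 3 T 0x1001000000000008000011000000000000000000000000000000000000000050000000000040000000000000004001000000840000000000000440000090 := rS 0x3520de2fd0eaa4ba09 (k8 c30 c14849 c5489 c5486 c5405 c9695 c9288 c6192 (k1 c11575 k0)) (by decide +kernel)
def c16234 : PP 9 3 T 0x12000201040000000000000200000004000000000000000000000000000000000000000000000000000000040000000000000000000010 := rS 0xfff9b8923018a9b16b0335a1154df1cb85a29df01782c313a9fcf2c70481961ef1386f6e02888059acf1ab17bd294c985926350a7d26f134ab55e1dd91903e237b9246ef523894224314c77da8740c4cde7d44a3f3b4a2284c32573b8ccb05d (k8 c14849 c5644 c8428 c2051 c367 c6205 c5564 c284 (k8 c16163 c12110 c5568 c5567 c5566 c5565 c5382 c5380 (k8 c11253 c16227 c5341 c5339 c5561 c5558 c5559 c5520 (k8 c5519 c5518 c5334 c5333 c5331 c5517 c15726 c5210 (k8 c5486 c5406 c5490 c9742 c9695 c5444 c5448 c5398 (k8 c5395 c5396 c5445 c5447 c16228 c5214 c5451 c5450 (k8 c5453 c5495 c16229 c9730 c5642 c16208 c5280 c267 (k8 c14401 c3582 c14824 c30 c13650 c1454 c676 c16232 (k8 c1945 c16204 c1107 c16233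 c5458 c5459 c5460 c5534 (k8 c5538 c16230 c15030 c1138 c2629 c8714 c5665 c1295 (k4 c2144 c747 c14947 c5549 (k2 c2574 c5694 k0)))))))))))) (by decide +kernel)
def c16235 : PP 9 3 T 0x1000000000000011000011040000000000000000080000000000000000000000000000000000000000000000000000000100020000000004000000000002 := rS 0x1886242984bf100f8e40e31943459be0 (k8 c5235 c5537 c5459 c5209 c5434 c5432 c5317 c5517 (k4 c16164 c10372 c661 c845 (k2 c5663 c15030 (k1 c837 k0)))) (by decide +kernel)
def c16236 : PP 9 3 T 0x10000201040000000000000200000004000000000000000000000000000000000000000000000000000000040000000000000000000010 := rS 0x79aac430280ad1a89e69a8596d7ef98068b0f789c37b701007c6e26fb847e39f04a3627719bc4d2ad57bf43aa9d90ec3e237b9246ef523894863d149063a4bf6a073b4a2284cb05d (k8 c14849 c5644 c5564 c284 c16163 c12110 c5380 c16227 (k8 c5342 c5341 c5340 c5339 c5560 c5561 c5559 c5520 (k8 c5519 c5518 c5334 c5333 c5331 c5517 c5332 c5210 (k8 c5489 c5486 c5405 c5406 c5490 c9742 c9695 c8428 (k8 c2051 c16234 c5209 c5235 c5317 c5318 c5460 c5538 (k8 c9944 c11685 c16235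 c5642 c16208 c5280 c267 c14401 (k8 c3582 c15836 c15897 c5450 c1763 c1755 c1198 c14519 (k8 c5680 c5689 c1608 c3072 c1663 c2608 c1345 c2627 (k1 c3581 k0))))))))) (by decide +kernel)
def c16237 : PP 9 3 T 0x12000201080000000000000200080004000000000000000000000000000000000000000000004000000000020000000000000000000002 := rS 0xe3f0b7fe63881345ff0166b3de6e15aa095485f1b28671038868d2641d87dee491bbd48e118e92ce68947e748a133c8d412313aa7d9261 (k8 c5445 c5396 c5448 c5440 c1945 c5438 c280 c5441 (k8 c5564 c284 c12110 c5568 c5567 c5379 c5342 c5341 (k8 c5558 c5520 c5519 c5518 c5334 c5333 c5517 c5332 (k8 c15726 c9742 c1056 c667 c16164 c2043 c12830 c12178 (k8 c845 c1269 c1270 c1340 c1719 c283 c11551 c2075 (k8 c1977 c2396 c1975 c16075 c3587 c5550 c2516 c5534 (k2 c2617 c5691 k0))))))) (by decide +kernel)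
def c16238 : PP 9 3 T 0x12000201000000000000000200000004000000000000000000000000000000000000000000000000000000040000000000000000000010 := rS 0x32ef05c4e0200b2432a14fa4de3b2a509482872c174265f049d65392 (k8 c16236 c12891 c5440 c5438 c5439 c5564 c14849 c5644 (k8 c11253 c5340 c5559 c16163 c5210 c9695 c5444 c5448 (k8 c5398 c5393 c5396 c16237 c5642 c267 c1107 c15925 (k2 c16204 c5492 k0)))) (by decide +kernel)
def c16239 : PP 9 3 T 0x1000000000000000000000000080004000100000000000004000000014000000000000410000000000000000000000011000011400000 := rS 0xcd1cf7924331dbdc6ef5 (k8 c5519 c5518 c5333 c5332 c5284 c5648 c11149 c325 (k2 c5495 c3587 k0)) (by decide +kernel)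
def c16240 : PP 9 3 T 0x10000201000000000000000200000004000000000000000000000000000000000000000000000000000000040000000000000000000012 := rS 0x1e04e78d94a14f9842c27dbc5161f381345ff0167bcd36825521620710c9a43a95d91903ef724bd48e25088f63a8744a3f3b4a2284cf3291a8246275c9160bbb1 (k8 c16238 c14849 c5644 c16236 c5440 c1945 c5438 c280 (k8 c12891 c5441 c5564 c284 c16163 c12110 c5568 c5567 (k8 c11253 c5341 c5560 c5558 c5559 c5520 c5519 c5334 (k8 c5333 c5517 c15726 c5210 c5488 c5486 c9742 c9699 (k8 c667 c16164 c845 c1269 c1270 c4048 c283 c11551 (k8 c1977 c2396 c1975 c16075 c5550 c2199 c2200 c5421 (k8 c3046 c16239 c1460 c1465 c1068 c11672 c12178 c1292 (k2 c5198 c5458 k0)))))))) (by decide +kernel)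
def c16241 : PP 9 3 T 0x8000000000000000000000000000000000000000000000051000000000000000004000000000800000000100000000000000444000008 := rS 0x406d79bf43aa9 (k4 c5489 c5486 c5405 c2391 (k2 c2430 c3581 (k1 c266 k0))) (by decide +kernel)
def c16242 : PP 9 3 T 0x1000400000000051000200080000000000000000000004000100101000010040000000001400001200000440002000000000000000000011000000000000 := rS 0x38dbe9e70f8cf6a16bb446481899f51e91 (k8 c850 c5568 c5566 c5382 c5380 c5653 c2129 c2185 (k8 c1198 c848 c15157 c15133 c5680 c2885 c1608 c5972 k0)) (by decide +kernel)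
def c16243 : PP 9 3 T 0x51000201080000000000000200000004000000000100000000000000000000000004000000004000000000000000100011000004000018 := rS 0x37942e364b8471de4c080189b489b16a84669ad071580a5dfa642e87dee0b7a92fda81899bcfa8fceb1cf27f3bfbd60f11384d5ead0eeca3a2521a74474a6586126090b97e5229 (k8 c5339 c12891 c5439 c1107 c5438 c261 c5648 c1320 (k8 c16163 c5331 c1273 c5561 c5559 c5341 c5210 c5486 (k8 c5490 c5406 c5564 c267 c9695 c3582 c14401 c5356 (k8 c5358 c5441 c5357 c12110 c5568 c5566 c5565 c5382 (k8 c5380 c16227 c5342 c5519 c5516 c5333 c5517 c14849 (k8 c15726 c5405 c5404 c2143 c1294 c16241 c11575 c12000 (k8 c5733 c8714 c5665 c850 c2492 c13445 c2426 c378 (k8 c16242 c377 c1598 c5494 c2617 c1197 c14947 c2443 k0)))))))) (by decide +kernel)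
def c16244 : PP 9 3 T 0x10000201000000000000000200000004000000000000000000000000000000000000000000000000000000040000000000000000000010 := rS 0x13fe3508f99233ef4553701819b16a84669ad06aa69b2d3a185824c2e270dedc051100ec46235949d58e092fe488b9d09c4de2ad57a5c3bb211bde9425218f4531df6a1cb05d (k8 c14849 c5644 c11253 c16227 c5341 c5339 c5560 c5561 (k8 c5559 c16163 c5333 c5331 c5210 c5486 c5404 c5406 (k8 c5490 c9695 c5382 c5564 c12110 c284 c16236 c5439 (k8 c5438 c5357 c5440 c12891 c280 c1945 c16238 c16240 (k8 c9730 c5642 c16208 c5280 c267 c1107 c261 c3582 (k8 c5648 c1273 c1320 c2086 c16243 c1974 c1138 c2076 (k8 c5672 c8714 c5665 c2629 c2144 c2492 c1295 c16242 (k4 c5492 c5494 c14439 c1197 (k2 c5576 c2878 (k1 c5680 k0)))))))))) (by decide +kernel)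
def c16245 : PP 9 3 T 0x8000000000012000000000000000000000200080000000200001000000000000000000000000000000000000000000000000000000000000001000000 := rS 0x138215a2cfe6e01337dc6cb1d9246e47128f4824b49a7d36391f85f6e29 (k8 c5339 c14052 c5433 c5318 c5317 c5397 c5448 c5444 (k8 c5342 c5340 c5560 c5559 c5520 c5518 c5334 c5332 (k8 c5464 c5466 c5580 c7824 c11685 c14209 c2898 c5685 (k2 c2608 c14870 (k1 c1342 k0))))) (by decide +kernel)
def c16246 : PP 9 3 T 0x1000000000000010000100000000000000000200000000000200000000000000000000000000000205000000020000000020004001400440000040004402 := rS 0x81fcd079c80c44d7ef (k8 c5506 c1058 c1269 c2143 c16164 c8722 c14888 c1985 (k1 c8509 k0)) (by decide +kernel)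
def c16247 : PP 9 3 T 0x5000000000000000000120040000000000000200000000000200000000040000000000800000000000000000020040000000004001400440000000004400 := rS 0x200e3f99047207 (k4 c5432 c5317 c5340 c14888 (k2 c14867 c8509 (k1 c2146 k0))) (by decide +kernel)
def c16248 : PP 9 3 T 0x12000001040000000000000200000004000200000000000000000000000000000000000000000000000000040000000000000000000012 := rS 0x3fde68580c43e59d81aa9acd5ef78fde453fc556088459c8d2a9d91901e3b0fbdc920b1bbd48f4a12844863d20c77dba12b8ccb05d31edc5219 (k8 c6205 c5339 c14052 c5395 c14849 c5644 c8428 c367 (k8 c16244 c16227 c5341 c5340 c5560 c5561 c5558 c5559 (k8 c16163 c5520 c5519 c5518 c5516 c5334 c5333 c5517 (k8 c5332 c9739 c15726 c5210 c5489 c9742 c11969 c855 (k8 c1317 c1316 c4089 c806 c285 c5506 c16245 c5186 (k8 c5454 c16045 c16246 c4414 c16247 c5241 c16164 c5592 (k4 c845 c283 c2840 c16075 k0))))))) (by decide +kernel)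
def c16249 : PP 9 3 T 0x12000001040000000000000200000004000200000000000000000000000000000000000000000000000000040000000000000000000010 := rS 0xf1455027f131f410120d80803b70b8fde3b224d287a2920a34b05d8ee8432c9 (k8 c5396 c6205 c16244 c5341 c14849 c5644 c2169 c5340 (k8 c5339 c5560 c16163 c5334 c5210 c9695 c5318 c5433 (k8 c14052 c16248 c5642 c5280 c16165 c15918 c13946 c15971 (k4 c2917 c1744 c3046 c5670 (k1 c16245 k0))))) (by decide +kernel)
def c16250 : PP 9 3 T 0x1000000000000010000101000000000000000200080004000000000000000000000000000000000004000000000000080000020000000000000000000002 := rS 0x81fcd079c80c4553b23587d1669447bd6064 (k8 c15726 c1316 c5506 c1317 c9742 c855 c5517 c1058 (k8 c5210 c5489 c1269 c2143 c16164 c8722 c14889 c1985 (k1 c8509 k0))) (by decide +kernel)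
def c16251 : PP 9 3 T 0x2000100040000000000000000000000000000000100000000000040000000002000000000000045001400404001008000000000000000 := rS 0x63a7500e13ef8cc69b (k8 c5397 c5395 c5576 c2824 c3056 c5670 c1343 c941 (k1 c10556 k0)) (by decide +kernel)
def c16252 : PP 9 3 T 0x800000000000000101000000000000000200000000000000000000000000000000000000000000000000040000100000020000004004000000000000 := rS 0x35c62431e9051b1d1ab55a645 (k8 c285 c5496 c5454 c5450 c5341 c2169 c5340 c5560 (k4 c5561 c1945 c13349 c3588 k0)) (by decide +kernel)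
def c16253 : PP 9 3 T 0x40000000000000200000000000100000000000000000000140000000000000000020000200000000000104015000000000000 := rS 0x205ac07218f4831d (k8 c5341 c5340 c5560 c5561 c1452 c3588 c12653 c1984 k0) (by decide +kernel)
def c16254 : PP 9 3 T 0x5000800000000052000121040000000000000200080000000100001000040000000000000000000010000000060000000000020000000004000000000002 := rS 0x103e37032938c73e81860741f97dbeb4807ccf27b889247a574d98532356ab4cda0b3587cfe7208894c645 (k8 c285 c5395 c5559 c5558 c11969 c806 c5517 c1058 (k8 c5516 c665 c5496 c5454 c5450 c5447 c5445 c5397 (k8 c367 c5560 c5334 c5371 c5372 c5524 c14889 c8509 (k8 c15060 c2952 c8456 c16251 c16252 c16253 c1946 c1456 (k4 c674 c3598 c1342 c1343 (k2 c5464 c1716 (k1 c5670 k0))))))) (by decide +kernel)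
def c16255 : PP 9 3 T 0x1000000000000052000101040000000000000200080004000100000000000000000000000000000000000000000000000000020000000000000000000002 := rS 0x1fef342c0621f2cec0d55ef22c556088459c8d2add91903ef724bd48e2508c7467de (k8 c5214 c8428 c5341 c5558 c5559 c5520 c5519 c5334 (k8 c5333 c5517 c15726 c5210 c5490 c9742 c11969 c855 (k8 c1317 c1316 c4089 c285 c5506 c16250 c4414 c16254 (k4 c5241 c16164 c5592 c845 (k2 c283 c2840 (k1 c16075 k0)))))) (by decide +kernel)
def c16256 : PP 9 3 T 0x4800000000000000121040000000000000200000000000000000000000050000000800000000000000000000000100000020001500444000000004400 := rS 0x345c239811fa248109a28621125b146acf669f51b1d48a3de60d (k8 c5522 c282 c5526 c5374 c5341 c2169 c1550 c5495 (k8 c5453 c5450 c5451 c5342 c5558 c1945 c13349 c2976 (k8 c856 c12876 c5670 c859 c15527 c3058 c2202 c3587 k0))) (by decide +kernel)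
def c16257 : PP 9 3 T 0x4004000000000000000101040000000000000200000000000100000000010054000000805000000000000001500000200000004001500455000000005400 := rS 0x8938c26d03f22472810401c827d (k8 c1550 c5340 c1452 c5643 c12653 c273 c1984 c5670 (k4 c3587 c8818 c1780 c12876 (k1 c810 k0))) (by decide +kernel)
def c16258 : PP 9 3 T 0x1000000000002000120000000000000000000000000000000000000000000000000000400001400000000000010044400060000000002000000010402 := rS 0x1c49c639fcbe060498d36614c9c4db113da44f28f (k8 c5526 c5524 c5374 c5372 c5371 c665 c667 c5447 (k8 c5445 c5397 c5395 c1509 c1946 c1055 c676 c674 (k2 c3598 c13272 (k1 c1777 k0)))) (by decide +kernel)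
def c16259 : PP 9 3 T 0x4004800000000000000121040000000000000200000000000100000000010050000000800000000000000000000000000000020001500445000000004400 := rS 0x1d11b1d2b8d59ecd48a3de60d (k8 c5522 c282 c5526 c5374 c5495 c5453 c5450 c367 (k4 c5341 c2169 c16256 c16257 k0)) (by decide +kernel)
def c16260 : PP 9 3 T 0x80000121040000000000000200000004000100000000000000000000000000000000000000000000015400020000200000000000000010 := rS 0x453e5138184914afd917476f7248ddeb4a08fb51b1d599cd6b1148a3de60d (k8 c5522 c282 c5526 c5374 c5371 c5422 c5419 c5574 (k8 c5341 c2169 c16227 c5558 c16163 c5519 c5518 c5334 (k8 c5333 c5332 c14849 c5210 c5406 c14205 c284 c14903 (k4 c859 c14901 c3604 c5590 k0)))) (by decide +kernel)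
def c16261 : PP 9 3 T 0x2000120000000000000000000000000000000000000000000000000000400001400000000000010044400060000000002000000010402 := rS 0x13ac72ff800c0931a6cc29936c44f679 (k8 c5524 c5372 c5371 c665 c5447 c5445 c5397 c5395 (k4 c1509 c1946 c16258 c1055 (k2 c674 c5458 (k1 c3598 k0)))) (by decide +kernel)
def c16262 : PP 9 3 T 0x82000121040000000000000200000004000100000000000000000000000000000000000000000000000000040000000000000000000012 := rS 0x22516818001c627422a441e3b7b9246ef5239046671089b4166f129ac3f4a599cd6be3f7b25a67d6b2bd2acb50f795bb246960bb1d (k8 c5341 c14849 c5644 c2169 c5210 c5490 c5214 c5398 (k8 c5420 c5488 c5406 c9031 c1550 c5496 c5396 c11200 (k8 c6601 c5422 c5419 c5574 c16163 c5517 c1058 c5559 (k8 c1060 c5516 c665 c5558 c667 c8428 c5340 c5520 (k8 c5519 c5518 c5334 c5333 c5332 c9739 c5374 c16260 (k8 c16256 c16261 c1452 c16259 c12653 c3068 c1984 c5673 k0)))))) (by decide +kernel)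
def c16263 : PP 9 3 T 0x12000001040000000000000200000004000000000000000000000000000000000000000000000000000000040000000000000000000012 := rS 0x3fc8a8b401fcbe0679a090b01887ca079d3eb58e6cbdb1acde6d3880cd2ad57a5764640fbdc920b7a91e94250890c97ed46c7742573b8ccb05d5098cc2c51ab3fbd29 (k8 c16249 c5214 c5453 c5450 c5451 c5445 c5395 c5398 (k8 c14849 c5644 c8428 c2051 c367 c16244 c5341 c2169 (k8 c16227 c5342 c5561 c5558 c5559 c16163 c5520 c5519 (k8 c5516 c5334 c5333 c5517 c15726 c5210 c5488 c5406 (k8 c5490 c9742 c28 c667 c665 c1060 c1058 c16255 (k8 c5420 c5419 c9031 c1550 c16262 c11700 c15506 c16164 (k8 c5592 c845 c1270 c283 c15047 c1451 c676 c9215 (k4 c856 c285 c2397 c3593 k0)))))))) (by decide +kernel)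
def c16264 : PP 9 3 T 0x4000000000000040000101000000000000000200000000000000000000000000000000000000001040000001510000040000000001500000000000005400 := rS 0x70891bc268a (k4 c5673 c8818 c2978 c12876 (k2 c5666 c756 k0)) (by decide +kernel)
def c16265 : PP 9 3 T 0x48000101000000000000000200080000000000000000010004000000000000000000000001500000040000000000100000000004005008 := rS 0x4c7158a23dead5792416471290c531d25ad554210fbd5e2fd0eaa446f7 (k8 c5333 c5331 c5489 c5486 c5405 c9695 c5519 c5517 (k8 c265 c3581 c14841 c5342 c5341 c5339 c5561 c5559 (k8 c5520 c5516 c5334 c5406 c5490 c9072 c16264 c1982 (k2 c2872 c3582 (k1 c268 k0))))) (by decide +kernel)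
def c16266 : PP 9 3 T 0x50000121040000000000000000000004000100000000000000000000000040000000000000100050000000020000200000000004010011 := rS 0xf9acdbee389c57c47013204de12452bcba4962f796aaa108083ef578bf43aa9d908de60d7bd28e691 (k8 c5374 c9719 c16163 c5333 c5522 c282 c5331 c5210 (k8 c5489 c5486 c5405 c9695 c5519 c5517 c5642 c265 (k8 c3581 c14841 c5214 c5451 c5334 c14849 c5406 c14205 (k8 c284 c2978 c856 c15971 c5666 c5670 c3046 c756 (k4 c5466 c5580 c14844 c14109 (k1 c5685 k0)))))) (by decide +kernel)
def c16267 : PP 9 3 T 0x52000021040000000000000200000004000000000000000000000000000000000000000000000000000000040000000000000000000010 := rS 0x9d6314801156aaa10bcd1e0d48ab55efd0eaa41e237b925ea25218a51b1dd09ccfa3d6387e947f0306c6bde9486466930100592582eec9e211 (k8 c5558 c9695 c5210 c14849 c5644 c5396 c16263 c5642 (k8 c5444 c8428 c6205 c16249 c5214 c5450 c5280 c14824 (k8 c676 c16163 c5517 c13650 c5560 c1456 c9719 c16244 (k8 c5341 c2169 c5339 c5561 c5559 c5519 c5334 c5333 (k8 c5331 c9739 c5489 c5486 c5405 c5406 c5490 c5374 (k8 c5522 c5526 c282 c265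 c3581 c14841 c16266 c16265 (k4 c15060 c2144 c3046 c3582 k0))))))) (by decide +kernel)
def c16268 : PP 9 3 T 0x1000000000000008000011000000000000000000000000000000000000000054000000005140000000000004004000000000040000000455000445000098 := rS 0x72d1f01782cf14b8752a79 (k8 c1454 c5488 c5486 c5404 c9695 c3577 c1107 c16233 (k2 c5459 c5534 (k1 c3587 k0))) (by decide +kernel)
def c16269 : PP 9 3 T 0x1000800000000058000111040000000000000200080000000000000000000004000000000100000000000104004000000001060000100004000000000011 := rS 0x88372381a843620cd6aa3a0c15e0f1d88deef546c759ecd39c458e1f3c818365d1a86404f11ba4603f2 (k8 c5241 c5592 c5589 c5518 c9695 c5642 c6205 c5450 (k8 c14849 c5280 c14824 c1454 c5517 c13650 c9730 c9719 (k8 c5495 c5453 c5341 c2169 c5519 c5333 c5331 c5332 (k8 c9739 c5406 c16268 c1945 c16231 c1138 c11573 c5665 (k4 c5672 c2540 c16265 c2433 (k2 c2547 c8124 k0)))))) (by decide +kernel)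
def c16270 : PP 9 3 T 0x1000800000000058000111040000000000000200080000000000000000000000000000000100000000000104004000000001060000100004000000000011 := rS 0x9d627145a03c6dff00e4f684792b55e1d1d9248e25218a4828d8eb14e67d1eb1c3e791b9fc0c1b2e8d4320278845c3f2 (k8 c5241 c5591 c5558 c9695 c5642 c6205 c5450 c14849 (k8 c5280 c14824 c676 c5518 c1454 c5517 c13650 c5560 (k8 c1456 c9719 c5451 c5341 c2169 c5340 c5339 c5561 (k8 c5559 c5520 c5334 c5332 c5486 c5406 c5490 c16269 (k8 c283 c847 c8203 c5669 c5538 c11685 c5670 c856 (k4 c751 c14204 c268 c3582 k0)))))) (by decide +kernel)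
def c16271 : PP 9 3 T 0x1000000000000008000001000000000000000000000000000000000000000050000000000000000000000000004000000800100000000000000444000008 := rS 0x412ade2fd (k4 c5405 c9695 c1138 c11575 (k1 c16241 k0)) (by decide +kernel)
def c16272 : PP 9 3 T 0x52000001040000000000000200000004000000000000000000000000000000000000000000000000000000040000000000000000000010 := rS 0x1be81479ed148970a45c713421b089f2cea363ba130a658a7d1eb1cf2373f8186bde94864669364961e211419ac360243fb5eaf71187e945d54eca2201 (k8 c16263 c9730 c5210 c5489 c14849 c16163 c5517 c5331 (k8 c5333 c5519 c16227 c11253 c5642 c5280 c16271 c8722 (k8 c5558 c9695 c5644 c5396 c5444 c8428 c6205 c16249 (k8 c5214 c5450 c14824 c676 c5518 c1454 c13650 c5560 (k8 c1456 c5451 c5447 c5445 c16244 c5341 c2169 c16267 (k8 c5241 c16270 c5665 c5672 c5547 c5549 c5589 c5591 (k4 c2834 c14205 c742 c2547 (k2 c856 c14796 (k1 c3610 k0))))))))) (by decide +kernel)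
def c16273 : PP 9 3 T 0x12000001040000000000000200000004000000000000000000000000000000000000000000000000000000040000000000000000000010 := rS 0x804578c89b63f9f40c1b010046ac5ef4a5929378ec8223d14a34b05d8ee843233 (k8 c8428 c6205 c16244 c5341 c14849 c5644 c2169 c5339 (k8 c5560 c5558 c5210 c9695 c5444 c5396 c16249 c5214 (k8 c5451 c5450 c16263 c5642 c5280 c14824 c1456 c676 (k4 c16272 c14226 c6601 c14205 (k2 c5670 c856 k0))))) (by decide +kernel)
def c16274 : PP 9 3 T 0x10000001040000000000000200000004000000000000000000000000000000000000000000000000000000040000000000000000000012 := rS 0x69b548adf7fc50429a81b41aecf668d5907462a75e662f9a0cf20d58accc39c2fed8d2afd91901e3b11bdc920b1bbd48f4a1290c7a2920c7497edd095cee332c174723f038c651b1 (k8 c16273 c5209 c5434 c5432 c5318 c5317 c14849 c5644 (k8 c8428 c2051 c367 c16244 c16227 c5342 c5341 c5340 (k8 c5339 c5560 c5561 c5559 c16163 c5520 c5519 c5518 (k8 c5516 c5334 c5333 c5331 c5332 c9739 c15726 c5210 (k8 c5406 c9742 c15979 c10372 c16235 c661 c5574 c5421 (k8 c5522 c5524 c5525 c14888 c5663 c282 c4079 c837 (k8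 c1172 c1171 c281 c8354 c1530 c2189 c3587 c4551 (k8 c2134 c2490 c8534 c3010 c2951 c9612 c1711 c2136 (k1 c3588 k0))))))))) (by decide +kernel)
def c16275 : PP 9 3 T 0x59000101040000000000000200000000000000000000000050000000000000000000000000000000000002020001400440000444000011 := rS 0xb1229b8267113c516aaa59885e69d06a44f79c707cdbee3f13c55aaf7e8755225218f4524125a363a391fca0e602 (k8 c5642 c9719 c5209 c5318 c5317 c5341 c2169 c5342 (k8 c5340 c5339 c5560 c5561 c5559 c5489 c5486 c5405 (k8 c5406 c5490 c9695 c5236 c5466 c5580 c14209 c3590 (k8 c5241 c5372 c5374 c5522 c1696 c282 c265 c2899 (k8 c3581 c14841 c5685 c3046 c3048 c15971 c5666 c284 (k2 c1147 c3582 k0)))))) (by decide +kernel)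
def c16276 : PP 9 3 T 0x88000120000000000000000200080000000200000000000001000000000000000000000000000000000000024000000000000004004008 := rS 0xff5545042f3f98355efd0eaa4761f11bdc16377a91c96b358fbc4e25809105249 (k8 c5334 c5339 c14226 c3066 c5559 c5570 c14401 c5421 (k8 c5574 c5342 c5520 c5519 c5518 c5516 c5333 c5331 (k8 c5517 c5332 c5489 c5486 c5405 c5406 c5522 c14888 (k4 c282 c265 c8534 c3581 (k2 c3010 c6368 k0))))) (by decide +kernel)
def c16277 : PP 9 3 T 0x10000001040000000000000200000004000000000000000000000000000000000000000000000000000000040000000000000000000010 := rS 0x3e59df789f6c600d8080328d895c66f1d903c761f11bdc92377a91e9425f6960bba1 (k8 c16244 c14849 c5644 c16227 c5559 c16163 c5520 c5519 (k8 c5518 c5334 c5333 c5331 c5517 c5332 c9739 c5210 (k8 c9695 c8428 c367 c16273 c5209 c16274 c5642 c5280 (k4 c15897 c16275 c5570 c14401 (k2 c16276 c5191 (k1 c14952 k0)))))) (by decide +kernel)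
def c16278 : PP 9 3 T 0x1000000000000002000121080000000000000200080000000000000000040000000100000000000200000000060000000000020000000000000000000002 := rS 0x802d7e69c3682cd61f4d98533ef (k8 c5506 c5447 c5445 c5397 c5517 c1058 c5516 c665 (k4 c10443 c14889 c1343 c8509 (k1 c2144 k0))) (by decide +kernel)
def c16279 : PP 9 3 T 0x52000001000000000000000200000004000000000000000000000000000000000000000000000000000000040000000000000000000012 := rS 0x7fbcd0b01887cb3ae1818f88aaa5822117de391a43ef724bd48f4a12844864bf6a363ba13e8d412313ae48b05d19b243464 (k8 c15726 c1056 c5396 c2043 c14849 c5644 c16277 c5440 (k8 c1945 c5438 c280 c5442 c16244 c5341 c2169 c16227 (k8 c5342 c5561 c5558 c5559 c16163 c5520 c5519 c5334 (k8 c5333 c5517 c9742 c11969 c15966 c855 c1317 c1316 (k8 c16250 c285 c16252 c4414 c3056 c16278 c5241 c16164 (k4 c5592 c845 c283 c2840 (k1 c3593 k0))))))) (by decide +kernel)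
def c16280 : PP 9 3 T 0x12000001000000000000000200000004000000000000000000000000000000000000000000000000000000040000000000000000000012 := rS 0x116d662f79012939b2f6c3364a855aaf4aec8528d8ee84be7d3f98c6a09189d724582e864346438844de25 (k8 c5559 c1060 c5558 c667 c15726 c1056 c9699 c14849 (k8 c5644 c16277 c5440 c1945 c5438 c280 c5355 c5358 (k8 c5442 c5439 c16244 c5341 c2169 c5339 c5210 c5488 (k8 c5406 c5490 c5398 c5396 c2043 c16279 c5420 c5419 (k4 c14052 c13195 c5653 c5451 (k2 c9031 c856 (k1 c13349 k0))))))) (by decide +kernel)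
def c16281 : PP 9 3 T 0x50000021000000000000000200000004000000000000000000000000000000000000000000000000000000040000000000000000000012 := rS 0x1e3f0b2938b44ca4e0016f9ca55a1d4aec86e35048c4326d05ec5431522b54fad7459a4eb9246c76068855160bbeda57bd6072d08444a64 (k8 c15726 c5559 c5558 c16244 c11969 c1316 c5506 c16163 (k8 c16227 c14849 c5644 c16250 c1317 c4414 c5341 c2169 (k8 c16277 c5440 c9742 c855 c13349 c5442 c14520 c285 (k8 c4089 c4053 c16280 c5516 c665 c9699 c1945 c5438 (k8 c280 c5518 c5210 c5488 c5486 c5490 c13294 c14889 (k8 c14581 c8509 c55 c1463 c15060 c12376 c1342 c5458 (k2 c5464 c5198 k0))))))) (by decide +kernel)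
def c16282 : PP 9 3 T 0x50000001000000000000000200000004000000000000000000000000000000000000000000000000000000040000000000000000000012 := rS 0x1fef342c0621f2cec0c8aaa4422ce4693207dee497a91e94250890e3a4bf6960bba1 (k8 c16244 c14849 c5644 c16227 c5342 c5341 c5561 c5558 (k8 c5559 c16163 c5520 c5519 c5334 c5333 c5517 c15726 (k8 c9742 c11969 c855 c1317 c16250 c285 c4414 c16281 (k4 c5241 c16164 c5592 c845 (k2 c283 c2840 (k1 c3593 k0)))))) (by decide +kernel)
def c16283 : PP 9 3 T 0x4000000000001000000080000000000000200000000000100000000000000000000000400000000000000000100014001000000000000000001000080 := rS 0x4985c4a3d2f9f4fe63 (k8 c5355 c5358 c5442 c5439 c5560 c5559 c9210 c1563 (k1 c5648 k0)) (by decide +kernel)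
def c16284 : PP 9 3 T 0x1000000000000000000000000080004000100002000080004000100004000000000000010000000000000000000000011000011400000 := rS 0x1a29b (k2 c1192 c2202 (k1 c16239 k0)) (by decide +kernel)
def c16285 : PP 9 3 T 0x45000800000000101000000080100040000400000000000000100000000000000010000000000000000000000000104000000000000000000000000000000 := rS 0x1f7f8e37eaeb6eea749e4c7de4fa7f (k8 c5358 c5442 c5359 c5443 c5227 c5213 c5469 c5471 (k4 c5623 c8870 c5611 c9516 (k2 c9954 c5208 k0))) (by decide +kernel)
def c16286 : PP 9 3 T 0x45000800000000111000121080000000000000000000000000100000000080000000200800000000000000000000100000020001455415015000000004402 := rS 0x7c30df7be7d30377f2e9457abb343dd2d0f09eef789 (k8 c5527 c5375 c5372 c5460 c1720 c4342 c4593 c16285 (k8 c5600 c5601 c6201 c9321 c669 c1062 c5199 c5667 (k4 c8101 c1366 c5193 c5512 k0))) (by decide +kernel)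
def c16287 : PP 9 3 T 0x40000000000000010000021000000000000000200000004000000000000010000000000000000000000000000080000000000040000100004000000000012 := rS 0xe3c0e16b6e47e9230019bf02892042664078ec924f058dc9a551e9063a53f6e840671089bc4bb1139ed228f62b55b6c969b67c7ef2390deae33192d96f30697c32c766f786a09948c4eb922c1756bb6a52543bb2 (k8 c5210 c5486 c5488 c16163 c16282 c5422 c14849 c5644 (k8 c16277 c5440 c1945 c13294 c5438 c280 c5653 c5495 (k8 c5357 c9699 c5439 c5522 c282 c5420 c5342 c5355 (k8 c14905 c5519 c5561 c5520 c9072 c6601 c5497 c5496 (k8 c5494 c5455 c5454 c5451 c5526 c5374 c5372 c5570 (k8 c16280 c5559 c1060 c5558 c667 c28 c16244 c16227 (k8 c5563 c5341 c5340 c5560 c5343 c5521 c5518 c5516 (k8 c5335 c5334 c5332 c9739 c15726 c2976 c856 c12876 (k8 c859 c2513 c15503 c16283 c662 c326 c14909 c3588 (k4 c16286 c8617 c12667 c5534 k0)))))))))) (by decide +kernel)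
def c16288 : PP 9 3 T 0x40000000000000010000021000000000000000200000004000000000000010000000000000000000000000000000000000000040000100004000000000012 := rS 0x2068845fb51b1dd0a0fdef306960ba4721bd6944b (k8 c5342 c16163 c5519 c5561 c5520 c14849 c5644 c5522 (k8 c282 c9072 c5525 c16244 c5341 c2169 c16227 c16287 (k2 c5673 c10681 (k1 c8509 k0)))) (by decide +kernel)
def c16289 : PP 9 3 T 0x80000000000000000000020000000000000000000000000000000000000000000000000000000001400000000000000055400000000000000000000000000 := rS 0x11589c45228f (k4 c5526 c5374 c5371 c5547 (k2 c5590 c3604 k0)) (by decide +kernel)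
def c16290 : PP 9 3 T 0x800000000089000101080000000000000200000000000100000000000000000000000000000000000000040000014000020000000004000001000010 := rS 0x2e93500f9aead57a551b1d3ab2c4e73 (k8 c5419 c5570 c5420 c5440 c5341 c2169 c5488 c5406 (k4 c5490 c13349 c16252 c9031 (k2 c326 c13196 (k1 c5648 k0)))) (by decide +kernel)
def c16291 : PP 9 3 T 0x800000000288000020000000000000000200000000000100000000000000000000000040000000000008000000001000000000000600000000000002 := rS 0x3038b5cc85c8e761307cbadb3adc5b87bea8c4b116db25b29a (k8 c325 c5497 c5494 c5455 c5371 c5559 c5614 c5427 (k8 c5429 c5612 c5616 c13448 c1571 c6451 c328 c5656 (k4 c1724 c598 c3653 c1194 (k2 c2522 c1063 (k1 c11785 k0))))) (by decide +kernel)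
def c16292 : PP 9 3 T 0x5000800000000099000120080000000000000200080000000000400040000000000440000000000000000000000100000001000000000015000000084002 := rS 0x116162eca31991afecd8cdcc6dd31470268403ff08e124070ba807649278dc8e4d2a8f496532f8258e7d3c9fcae630ca7d7acbc289cf77b06e2653f35a9cd666b0f9bc4a6d059c423e3 (k8 c6601 c5558 c667 c5516 c665 c5559 c1060 c5517 (k8 c1058 c5574 c5419 c5422 c16289 c13294 c5527 c5522 (k8 c5375 c5372 c5570 c5423 c5420 c5575 c5572 c9699 (k8 c5355 c5353 c5358 c5441 c5442 c5357 c5438 c5439 (k8 c5563 c5342 c5560 c5343 c5521 c5520 c5518 c5335 (k8 c5334 c5332 c3599 c9210 c16283 c5648 c11223 c15597 (k8 c326 c324 c325 c5691 c10309 c4768 c5039 c16291 (k8 c14911 c16285 c2852 c2851 c3264 c5350 c1391 c6194 (k2 c3596 c6320 k0))))))))) (by decide +kernel)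
def c16293 : PP 9 3 T 0x10000021000000000000000200000004000000002000000000000000000000000000000000000000000000040000000004000000000012 := rS 0x116162eca31991afecd8c74880711b68a81ae9a4cf85c0641dbdc9e377a91c9a551e904a69f5ee14f77bc4b3c2e9d1f89d4fb94936592db03181bf024792622af8ec3c2444f99cd666b0f9b416e380a44c64b65bcc1a5f63b356a950efbfda0f8fa0515b13884433a162f786a09189d4b05d94e4a946f1280f6db2 (k8 c5210 c16282 c28 c5559 c1060 c16163 c16277 c13294 (k8 c14849 c5644 c5440 c1945 c5438 c280 c5653 c5451 (k8 c16244 c9699 c5558 c667 c16280 c16290 c856 c9713 (k8 c9739 c16227 c5583 c5486 c5488 c5422 c5495 c5357 (k8 c5439 c5522 c282 c5420 c5342 c5355 c5374 c3068 (k8 c14905 c5516 c665 c5517 c1058 c5574 c5419 c16289 (k8 c16288 c284 c5026 c5341 c5406 c5371 c5334 c5526 (k8 c14901 c14614 c16292 c661 c5455 c5494 c5497 c662 (k8 c14909 c4322 c5570 c326 c1697 c1460 c5453 c5527 (k8 c5375 c5372 c5423 c5575 c5572 c5563 c5340 c5560 (k8 c5343 c5521 c5520 c5519 c5518 c5335 c5333 c5332 (k8 c15726 c16284 c5460 c1597 c13096 c16286 c1191 c2201 (k8 c5039 c3587 c324 c7904 c14911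 c16285 c2852 c2851 (k4 c3264 c5350 c1391 c6194 (k2 c3596 c6320 k0))))))))))))))) (by decide +kernel)
def c16294 : PP 9 3 T 0x4000000000000000100080000000000000200080000000000000800000000000540000000000000000000000000000000000000004000000000000000 := rS 0x38f00ec92372384496c7 (k8 c5357 c5342 c5558 c5520 c5518 c5334 c5332 c8617 (k2 c12667 c5534 k0)) (by decide +kernel)
def c16295 : PP 9 3 T 0x10000021000000000000000200000004000000000000000000000000000000000000000000000000000000040000000004000000000012 := rS 0x1aea17044a2bb91f81924606fc3e04122238d0301f7a2bc6d966b25b6c5ef2b55e1d4aec8c91f079249e47269547a418e92ca7edd097d8e631a82462750186762cb13c45228f94e49e60d2c177e6b539acf6c6b0f9bc4a6d05d28e211 (k8 c5558 c667 c16163 c5516 c665 c5559 c1060 c5517 (k8 c1058 c16282 c5574 c5419 c5422 c16289 c14849 c5644 (k8 c5522 c282 c16277 c13294 c5526 c5374 c5371 c5570 (k8 c5420 c16280 c9699 c28 c5440 c1945 c5438 c280 (k8 c5355 c5357 c5439 c16244 c16227 c5563 c5342 c5341 (k8 c5340 c5560 c5343 c5521 c5520 c5335 c5334 c9739 (k8 c9713 c15726 c5210 c5488 c5486 c5406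 c5490 c5653 (k8 c5451 c5455 c5494 c5495 c5497 c6601 c16290 c5583 (k8 c3068 c856 c14905 c16288 c284 c14901 c5026 c14614 (k8 c16292 c662 c661 c326 c14909 c16293 c3604 c16294 (k2 c3060 c16286 (k1 c9031 k0)))))))))))) (by decide +kernel)
def c16296 : PP 9 3 T 0x10000021000000000000000200000004000000000000000000000000000000000000000000000000000000040000000000000000000012 := rS 0x10122c0fdce145aa999e14078d38616435c2c93ef8cbe6f394834f6af0eec9eef5218f63bed2c177425f639f4fe63c9064346438844da0b37894d61fa56c566cb39ac56bb6 (k8 c16282 c5422 c5421 c5419 c5420 c5574 c16280 c16163 (k8 c5517 c1058 c5559 c1060 c5516 c665 c5558 c667 (k8 c15726 c1056 c9699 c16277 c5355 c5358 c5442 c5357 (k8 c5439 c16244 c14849 c5644 c16227 c5341 c5560 c5561 (k8 c5519 c5333 c5210 c5486 c5406 c5372 c5522 c13294 (k8 c282 c16289 c16295 c5492 c322 c5284 c2185 c2043 (k8 c662 c14904 c16071 c9210 c5458 c1276 c1275 c16062 (k4 c1716 c5204 c2199 c285 (k2 c2078 c8527 k0))))))))) (by decide +kernel)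
def c16297 : PP 9 3 T 0x80000000080000000000000200080000000200000000040004000000004000000048000000000800000000020000000004000000000002 := rS 0x80379fe455022d27e36ba70c2ccef85c0e3f1c8edee491bbd48e431e8a4831d2597cfa7f318d412310c9bc4a9f6589da275 (k8 c5440 c1975 c5570 c5420 c5572 c5559 c1060 c9699 (k8 c1945 c5438 c280 c5355 c5358 c5442 c5439 c5342 (k8 c5341 c5340 c5339 c5560 c5561 c5520 c5519 c5518 (k8 c5334 c5333 c5332 c5317 c5318 c5432 c5433 c9979 (k8 c3587 c661 c2076 c4538 c16071 c1694 c16062 c3579 (k4 c285 c2397 c1278 c3593 (k1 c2953 k0))))))) (by decide +kernel)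
def c16298 : PP 9 3 T 0x81000101080000000000000200000004000000000000040004000000004000000008000400000800000000020000000004000000000012 := rS 0x804578d8a61ef05a52af0ea57654a1e97cfa7f318d412310c9c4226f12b2da275 (k8 c5440 c1975 c5420 c5559 c1060 c5558 c667 c9699 (k8 c1945 c5438 c280 c5355 c5358 c5442 c5439 c5560 (k8 c16163 c5210 c5488 c5486 c5406 c16297 c16239 c5653 (k4 c1460 c5451 c6601 c16290 (k2 c9210 c856 k0))))) (by decide +kernel)
def c16299 : PP 9 3 T 0x10000001000000000000000200000004000000000000000000000000000000000000000000000000000000040000000000000000000012 := rS 0x780f4cd48401fe4570a2d01e34c985ae1649f7c64d167bce269b412a90b1081e74e6cbdb6c4de710c9a55e970eec8c81f7b9246ef523d284a11218f63a4bf6a1cb05dd097cfa793f98ceb92 (k8 c16277 c5440 c5355 c5358 c5441 c5442 c5439 c16244 (k8 c14849 c5644 c11253 c16227 c5342 c5341 c5560 c5561 (k8 c5558 c5559 c16163 c5520 c5519 c5518 c5334 c5333 (k8 c5517 c15726 c5210 c5486 c5404 c5406 c9742 c9699 (k8 c667 c1060 c16280 c16282 c5420 c5419 c16296 c11700 (k8 c16164 c845 c1269 c1270 c4048 c955 c283 c11551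 (k8 c1975 c16298 c5492 c322 c5284 c2185 c662 c1463 (k8 c16071 c9210 c16062 c1717 c285 c2397 c3593 c1978 (k4 c2078 c907 c11160 c5457 k0))))))))) (by decide +kernel)
def c16300 : PP 9 3 T 0x10000001000000000000000000000004000100000000000004000000000000000000000000000000100000040000000004000100400111 := rS 0x99f0b40729dd8a6c30cd64b3fbc951d8dc6a312c24c04aa0fbd5e2fd0eaa7641b2e88def4a (k8 c16163 c5333 c5331 c14849 c5280 c5210 c5489 c5486 (k8 c5405 c9695 c5519 c5517 c3581 c5642 c261 c5644 (k8 c1945 c280 c5518 c5332 c5488 c5653 c5453 c5494 (k8 c5495 c16204 c1189 c5393 c1273 c8252 c3587 c5459 (k2 c1595 c5679 k0))))) (by decide +kernel)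
def c16301 : PP 9 3 T 0x1000000000000002000000000000000000000000080000000000000000000004000000000000000008000044000000000000000000000008000100400000 := rS 0x67f85383966a6592191d87c4637efa6da2f7 (k8 c5333 c2129 c1190 c5492 c5518 c5331 c5517 c5332 (k8 c5393 c5396 c5447 c2075 c6897 c3578 c5458 c1650 (k1 c12046 k0))) (by decide +kernel)
def c16302 : PP 9 3 T 0x58000101000000000000000200080000000000000000000004000000000000000000000001500000040000000000100000000004005008 := rS 0x4eb18a4015aaf2489486298ead554210fbd5e2fd0eaa446f7 (k8 c5333 c5331 c5489 c5486 c5405 c9695 c5519 c5517 (k8 c265 c3581 c14841 c5341 c5339 c5561 c5559 c5334 (k4 c5406 c5490 c16265 c15060 (k2 c2144 c3046 (k1 c3582 k0))))) (by decide +kernel)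
def c16303 : PP 9 3 T 0x50000021000000000000000200000004000000000000000000000000000000000000000000000000000000040000000000000000000010 := rS 0x1f271c4d3c7070b7c4c81378f9a812451115e0f24b1cfa7f1a8c51eb539a3523a1efb5e3acd4e86362323afb52e9304ca42e5fc92a842020fbd5e2fd0eaa7641b0088de60d2c175ef4a (k8 c16163 c5333 c14849 c5644 c5522 c282 c5331 c16299 (k8 c5280 c5210 c5489 c5486 c5405 c9695 c5519 c5517 (k8 c5642 c265 c3581 c16277 c5439 c1107 c13294 c5438 (k8 c261 c5404 c16227 c5440 c16300 c16301 c5648 c1273 (k8 c2076 c5341 c2185 c5492 c16244 c5374 c2169 c9719 (k8 c14841 c5526 c1945 c280 c5358 c5442 c5357 c5334 (k8 c9739 c5406 c16302 c14205 c284 c390 c389 c2978 (k8 c857 c15971 c3003 c3056 c5666 c380 c756 c1608 (k2 c14845 c14109 k0))))))))) (by decide +kernel)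
def c16304 : PP 9 3 T 0x10000021000000000000000200000004000000000000000000000000000000000000000000000000000000040000000000000000000010 := rS 0xff80fcfdf14222c44eb3db2d554217983522f157bf43aa9d907c46f724bd48f4a128a4968d2c47742730106c025d (k8 c14849 c16299 c5280 c5642 c9719 c16244 c5341 c5644 (k8 c2169 c5342 c5339 c5559 c16163 c5520 c5519 c5334 (k8 c5333 c5331 c5517 c5210 c5489 c5486 c5405 c5406 (k8 c9695 c5374 c5522 c282 c265 c3581 c14841 c16303 (k8 c5574 c5570 c5421 c14226 c8534 c14401 c8140 c3066 (k2 c3010 c6368 k0)))))) (by decide +kernel)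
def c16305 : PP 9 3 T 0x81000000000000058000101080000000000000200000000000200000000000000000000001000000000000001000000002000020000400440000004000011 := rS 0x44a2fde6e6909d96ce50787c69d68f7dbdb1640fc721978abd2e1d4a894824b46c74fa793f8d412313a9cc049b63c4dc6e1 (k8 c5591 c5549 c5547 c5357 c2492 c5642 c9719 c5440 (k8 c1945 c5438 c280 c5358 c5441 c5442 c5341 c2169 (k8 c5342 c5340 c5559 c5488 c5486 c5404 c5406 c9695 (k8 c5315 c5317 c5318 c15918 c5974 c14209 c5494 c2134 (k8 c1276 c5580 c5538 c11606 c5688 c200 c2927 c2565 (k4 c14949 c14401 c2938 c8124 (k1 c5673 k0))))))) (by decide +kernel)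
def c16306 : PP 9 3 T 0x8000000000000000000000200000000000000000000000001000000000000000000000000000000008000020000000000000004000010 := rS 0x22ac5162756abc3a25218a51b1d (k8 c5341 c2169 c5339 c5561 c5559 c5486 c5406 c5490 (k4 c2814 c2978 c1147 c285 (k1 c3582 k0))) (by decide +kernel)
def c16307 : PP 9 3 T 0x2000101080000000000000200000004000000000400000000000500001000000000000001000000022000040000000000000000000011 := rS 0x11412693f9624567357c3e36f77d027b6b8c8c2c90cab43a647bd28862920fb51b1d3e9e462750b97d260204a3cde1b2c17764f1 (k8 c9695 c5210 c14849 c5644 c5280 c16306 c2433 c5438 (k8 c5642 c261 c5439 c1107 c5440 c1945 c5441 c5442 (k8 c5341 c2169 c16227 c5340 c5339 c5561 c16163 c5333 (k8 c15726 c5486 c5490 c5393 c5396 c5445 c16204 c14269 (k8 c742 c751 c5492 c5846 c5580 c5538 c3003 c12046 (k4 c390 c15326 c2564 c2565 (k2 c9423 c11835 (k1 c4888 k0)))))))) (by decide +kernel)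
def c16308 : PP 9 3 T 0x50000001000000000000000200000004000000000000000000000000000000000000000000000000000000040000000000000000000010 := rS 0x1969d0c6c4e12970b8e27f21d8dc8e29639f4f27f3985cbe93049b19a77c9245099d419ac05ed7abdc461fa52a62287d09bc36012c17764f1 (k8 c9695 c5210 c14849 c5644 c16299 c5280 c16306 c16244 (k8 c11253 c9730 c5489 c16163 c5517 c5331 c5333 c5519 (k8 c16227 c5642 c16271 c8722 c16304 c5672 c13428 c16277 (k8 c5356 c12000 c5665 c5438 c261 c5439 c1107 c9719 (k8 c5358 c5441 c5442 c5357 c5339 c5520 c5518 c5332 (k8 c5241 c5547 c5549 c5591 c16305 c5666 c16307 c5648 (k2 c1273 c1320 (k1 c14949 k0)))))))) (by decide +kernel)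
def c16309 : PP 9 3 T 0x8a000100000000000000000200000000000000000000000001000000040000000000000004100050044004400000000001000004400000 := rS 0x351ae806486542ad57a5d2a418e9c53ecb (k8 c5420 c5572 c5571 c5341 c5340 c5488 c5404 c5406 (k8 c5490 c5398 c5393 c5396 c13195 c14269 c10481 c1659 k0)) (by decide +kernel)
def c16310 : PP 9 3 T 0x10000001000000000000000200000004000000000000000000000000000000000000000000000000000000040000000000000000000010 := rS 0x19cd662203c2df3d8e13a18d8881c31571c4fe4d3457bc88b513acf6c8f37a4536cd421b2079d419ad26170d80a2273008c46a753b98cfe793eb1c125fc96851a5843bc553b22e87c46f724bd48f4a128a63bed (k8 c16227 c5341 c5339 c5559 c16163 c5520 c5519 c5334 (k8 c5333 c5331 c5517 c14849 c5210 c5489 c9695 c11253 (k8 c5644 c2169 c16244 c16277 c5439 c5438 c5357 c5442 (k8 c5441 c5358 c5355 c5356 c5440 c280 c1945 c16299 (k8 c9719 c9730 c5642 c5280 c1107 c261 c16271 c8722 (k8 c16304 c11700 c5665 c5672 c12000 c2492 c13428 c16306 (k8 c2433 c16308 c5574 c5570 c5422 c14226 c14401 c14205 (k8 c2937 c5191 c859 c5549 c5590 c5591 c8140 c16309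 (k8 c14954 c1273 c377 c743 c13097 c5534 c3610 c856 (k2 c857 c10805 (k1 c1769 k0))))))))))) (by decide +kernel)
def c16311 : PP 9 3 T 0x8000000000000000000001040000000000000200000000000200000000000000000000000000000000000000000000400000080000100004000000000000 := rS 0x1d58bdf1881c863d20c75aed5 (k8 c5585 c5507 c5341 c5340 c5560 c5561 c5432 c5434 (k4 c16045 c681 c1894 c5668 k0)) (by decide +kernel)
def c16312 : PP 9 3 T 0x52000021040000000000000200080004000000000000000000000000000000000000000000000000004000080000100000000000000000 := rS 0x200b54e0e42e087081d9a7eef4a5aad78afb9627046ab7642319a14168b08a2486732ba4742210680832a14c9dd9264 (k8 c15726 c5396 c2053 c5447 c5398 c6205 c1893 c5522 (k8 c265 c12110 c5374 c9757 c9716 c5561 c1898 c5558 (k8 c685 c5516 c683 c4438 c5331 c5210 c5490 c2172 (k8 c5666 c14204 c5673 c3048 c5507 c5585 c16311 c5214 (k8 c14872 c5495 c676 c3058 c5643 c1108 c273 c15623 (k2 c1343 c16015 (k1 c15060 k0))))))) (by decide +kernel)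
def c16313 : PP 9 3 T 0x2000120040000000000000200000000000200002000000000000000000000000000000000000040000000004000000040004000004400 := rS 0x194e30b81c7e39128f452410ca4d3ea1 (k8 c5398 c5448 c5444 c6205 c5340 c5339 c5560 c5559 (k4 c5317 c5318 c5432 c5433 (k2 c15481 c3579 (k1 c1293 k0)))) (by decide +kernel)
def c16314 : PP 9 3 T 0x4000000000000000100040000000000000000000000000000000000080000000040005010000000000000005445500000004001008000000000000000 := rS 0xc768a01c27d (k4 c2824 c3056 c5670 c2202 (k2 c941 c3607 k0)) (by decide +kernel)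
def c16315 : PP 9 3 T 0x100040000000000000000000000000100000000000000000000000800000000000000000000048000000000010000000000400000 := rS 0x31790071 (k4 c65 c8797 c1144 c12653 (k1 c1450 k0)) (by decide +kernel)
def c16316 : PP 9 3 T 0x42000021040000000000000200000004000000000000000000000000000000000000000000000000008000080000100000000000400010 := rS 0x1023aac1183ef7b2fc6afd90f4828541bd516114490c0259399ed0e913c865269f3bb25bec567b37bd298a2cd1e21068a4464712ad4d61f249fd4227d095c04641b82e940f (k8 c9739 c16163 c5516 c5518 c15726 c1893 c9757 c12110 (k8 c2814 c5398 c2919 c5334 c5517 c5523 c1148 c5559 (k8 c5520 c5331 c5339 c5522 c265 c5526 c2819 c12753 (k8 c16313 c5214 c5495 c5453 c5451 c2950 c5396 c2053 (k8 c5448 c5444 c6205 c5524 c5374 c5373 c5372 c9716 (k8 c32 c1057 c5561 c1898 c5558 c685 c5519 c1896 (k8 c683 c5340 c5560 c5210 c5406 c13634 c16315 c15107 (k4 c3579 c16264 c8120 c16017 (k2 c1295 c16314 k0))))))))) (by decide +kernel)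
def c16317 : PP 9 3 T 0x101040000000000000000000004000100002000000000000000020400000000000000050050000000800000000000000000000000 := rS 0x35e05e258207de64 (k8 c15726 c15107 c1746 c8120 c5670 c1295 c5465 c2201 k0) (by decide +kernel)
def c16318 : PP 9 3 T 0x52000021040000000000000200000004000000000000000000000000000000000000000000000000000000000000100000000000000010 := rS 0x46401ace270f8d94d0639f4ea5e030242ccd67b17bd296ffce28b35a9fc4e6e0787c46491b91c4a3d14a1416837aa2c228921804b2573da1cd67947e86942106808b419509dd9264 (k8 c15726 c5396 c2053 c5398 c6205 c16310 c1893 c5522 (k8 c265 c16163 c12110 c5526 c5524 c5523 c5373 c5372 (k8 c9757 c32 c1057 c5561 c1898 c5558 c685 c5519 (k8 c1896 c5516 c683 c5339 c5560 c5559 c5520 c5518 (k8 c5334 c5331 c5517 c9739 c16312 c2814 c2919 c1148 (k8 c2819 c12753 c8140 c2950 c16313 c5214 c5451 c5453 (k8 c5495 c16316 c1507 c1108 c1107 c1895 c1456 c13650 (k8 c3607 c16317 c5464 c1719 c1293 c8355 c1780 c13349 (k1 c2141 k0))))))))) (by decide +kernel)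
def c16319 : PP 9 3 T 0x100040000000000000200000000000100000000080000000040005010000000014004005445548000004001000000004000400000 := rS 0x1fb2fc6251e8a48219 (k8 c6205 c5340 c5339 c5560 c5559 c13634 c16315 c16314 (k1 c3579 k0)) (by decide +kernel)
def c16320 : PP 9 3 T 0x52000021040000000000000200000004000000000000000000000000000000000000000000000000000000000000000000000000000010 := rS 0xe0653418e7d2f0182ccf62b37bcaa814a5bf145aacc4e753f9b8e2b0467bc887764a853e933383cba1f119246e47128f4528505a0dea8b08a2486012c9ccae7b439acf28fd0d28420d01168c819 (k8 c6205 c15726 c16310 c1893 c5522 c265 c16163 c12110 (k8 c5526 c5524 c5523 c5373 c5372 c9757 c9716 c32 (k8 c1057 c5561 c1898 c5558 c685 c5519 c1896 c5516 (k8 c683 c5339 c5560 c5559 c5520 c5518 c5334 c5331 (k8 c5517 c14849 c9739 c9680 c5444 c5448 c5398 c5396 (k8 c2053 c16318 c5582 c14205 c8120 c753 c2172 c807 (k8 c16017 c268 c8280 c1148 c12753 c2950 c16313 c1295 (k8 c1294 c5214 c2075 c5451 c5453 c16319 c1108 c1107 (k4 c1456 c13650 c3607 c16317 (k2 c2202 c1719 k0)))))))))) (by decide +kernel)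
def c16321 : PP 9 3 T 0x1000000000000000000101040000000000000200000000000200000000000050000200040000000000000000504000000000180001400004000000000000 := rS 0x405e6cc679d9abee7fc0c8b1d25a0d16114490c73e1 (k8 c5460 c5317 c5561 c1898 c5558 c685 c1896 c5342 (k8 c5341 c14205 c10681 c11835 c5673 c5585 c16311 c1652 (k4 c10798 c2500 c2077 c3593 k0))) (by decide +kernel)
def c16322 : PP 9 3 T 0x50000021040000000000000200000004000000000000000000000000000000000000000000000000000000000000000000000000000010 := rS 0xd163b34ef024db3fbc608a404dcb038a30eac57037da6d765fcc6217038e7c528d899c1e5d1dbdc923723907da334282d06f53995c045a321ed0e7947e869419 (k8 c6205 c16163 c12110 c5526 c5524 c5373 c5372 c15726 (k8 c16310 c1893 c9757 c9716 c5519 c1896 c5516 c683 (k8 c4438 c16227 c5340 c5520 c5518 c5334 c5333 c5332 (k8 c14849 c9739 c9680 c16320 c5209 c5236 c5317 c5432 (k8 c5433 c5434 c14888 c5464 c5465 c5579 c5580 c11685 (k8 c681 c1894 c16321 c753 c2171 c2172 c4505 c15522 (k8 c14214 c14215 c1653 c4049 c1295 c724 c5495 c727 (k2 c2201 c3607 k0)))))))) (by decide +kernel)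
def c16323 : PP 9 3 T 0x40001000000000000000000000000000000000200000000000000000000000000000400000000000000000001400080000000000000404000000000005400 := rS 0x12 (k2 c15518 c2917 k0) (by decide +kernel)
def c16324 : PP 9 3 T 0x10000021040000000000000200000004000000000000000000000000000000000000000000000000000000000000000000000000000010 := rS 0x1f9c7e150271329330978edb10b8fe5045f7237e6b55889d969f59ed8326707974761f119241647128f4524119a2c228921a44d67947e86942106808b464 (k8 c15726 c16310 c1893 c5522 c265 c16163 c12110 c5526 (k8 c5524 c5523 c5374 c5561 c1898 c5558 c685 c4438 (k8 c5340 c5339 c5560 c5559 c5520 c5516 c5334 c5331 (k8 c5517 c5332 c14849 c9739 c9680 c6205 c16322 c5574 (k8 c5572 c5420 c5570 c5421 c5422 c8140 c2171 c8120 (k8 c14205 c15107 c5318 c5433 c14052 c16311 c2054 c724 (k8 c1517 c1520 c14193 c3579 c5458 c1777 c1122 c16323 k0))))))) (by decide +kernel)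
def c16325 : PP 9 3 T 0x50000020000000000000000000000000000000000000044000000000000000001010000000151400020000000000000000000000000000 := rS 0x2031343a3e2a91 (k4 c5374 c3048 c5526 c5373 (k2 c756 c15060 (k1 c3613 k0))) (by decide +kernel)
def c16326 : PP 9 3 T 0x52000021000000000000000200000004000000000000000000000000000400000000000000000000004000000000000000000000000010 := rS 0x7c21d6777691d7e576fde2ff474ee5e5e189381983836401c69d090987e3418f8da4f157a5d2a0f1d87c4649278dc8e4d129547a292092ca77d8898cf77b359e7122106b1f1f793bca42e5f498253ea10ca648a5d58b55af1548c3617dff7204c27f3e9d725f36fad1fe8f819c0e602d0a34c88921a2c22837aa14b40ba52b7649b (k8 c5397 c5210 c5490 c16163 c5516 c16310 c683 c5519 (k8 c1896 c5558 c685 c5561 c1898 c15726 c2172 c12110 (k8 c1893 c9716 c5666 c10681 c5526 c11835 c16325 c2514 (k8 c5548 c16324 c5440 c5442 c5358 c5445 c751 c5673 (k8 c8993 c5587 c5509 c5374 c3048 c13349 c14520 c14204 (k8 c14849 c14205 c5447 c5393 c5398 c5448 c5438 c261 (k8 c5439 c1107 c13294 c5356 c5359 c5443 c5357 c5522 (k8 c265 c5527 c5524 c5523 c5375 c5372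 c9752 c9729 (k8 c9704 c5563 c5342 c5340 c5339 c5560 c5343 c5559 (k8 c5521 c5520 c5518 c5335 c5334 c5331 c5517 c5332 (k8 c9739 c5488 c5404 c5406 c9695 c5982 c5579 c1918 (k8 c9931 c441 c3579 c267 c1342 c14884 c14873 c13168 (k8 c3578 c15161 c14885 c2610 c5534 c439 c14878 c4770 (k8 c14886 c5635 c8101 c9777 c8870 c3064 c5243 c5693 (k4 c6201 c3113 c5167 c5515 k0))))))))))))))) (by decide +kernel)
def c16327 : PP 9 3 T 0x150000020080000000000000200080000000000000000000000000240000800002000000000000100000000000000000000008000004008 := rS 0x2f158b70967c0c85dda475f95dbf78bfd09e0b23934aa292594cf77bc4e87e7e31f92538e9 (k8 c4341 c1718 c5334 c3056 c5464 c5548 c12110 c5527 (k8 c5375 c5372 c5563 c5342 c5339 c5343 c5521 c5520 (k8 c5516 c5335 c14879 c5635 c8101 c9777 c8870 c3064 (k8 c5243 c5693 c5606 c5607 c6201 c1837 c269 c1115 (k2 c1348 c5652 k0))))) (by decide +kernel)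
def c16328 : PP 9 3 T 0x52000021000000000000000200000004000000000000000000000000002000000000000000000000004000000000000000008000000010 := rS 0x3afcaed927d1df8d93fdf4b8753af6efb80903cf77bc49ff24b1409861b0bf72ffc2e9707cfc6df5a3fd1f03381cc05a14699112434584506f542968174a56ec936ca (k8 c16326 c5397 c5210 c5490 c16163 c5516 c16310 c683 (k8 c5519 c1896 c5558 c685 c5561 c1898 c15726 c2172 (k8 c12110 c1893 c9716 c5666 c10681 c5526 c11835 c16325 (k8 c2514 c5464 c5548 c8709 c4341 c5537 c8097 c5673 (k8 c5587 c5509 c5445 c751 c14204 c16324 c5358 c5527 (k8 c5375 c5372 c9739 c267 c16327 c5613 c5617 c5428 (k8 c5429 c8905 c14877 c757 c2876 c1836 c14876 c5677 (k4 c9777 c8870 c2958 c5693 k0)))))))) (by decide +kernel)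
def c16329 : PP 9 3 T 0x152000120080000000000000200000000000000000000000000000200000800002000000000000000020000000051400000000000004408 := rS 0xbc562dc259f032177691d7e576fde2ff42a8a49653be9eef66bc4e3ef27d3fa04c3f36fa6fc6e9 (k8 c4341 c5464 c5397 c2514 c5548 c5445 c751 c5358 (k8 c5442 c5359 c5443 c5527 c5523 c5375 c5372 c9704 (k8 c5563 c5342 c5339 c5343 c14886 c5635 c8101 c9777 (k8 c8870 c3064 c5243 c5693 c5606 c5607 c6201 c1837 (k4 c269 c1115 c1348 c5652 k0))))) (by decide +kernel)
def c16330 : PP 9 3 T 0x52000021000000000000000200000004000000000000000000000000002000000000000000000000004000000000000000000000000010 := rS 0x4260eb982c631524c6c9fefa55baef0ebdbbee2241313b81fb8354e441e492791c9a0dc9455230d85fbbe6ab58b7d36bf5a3fd1f03381cc05a14699112434584506f542968174a56ecbc6ca (k8 c16326 c5464 c5210 c5490 c16163 c5516 c16310 c683 (k8 c5519 c1896 c5558 c685 c5561 c1898 c15726 c2172 (k8 c12110 c1893 c9716 c5666 c10681 c5526 c11835 c16325 (k8 c8097 c5397 c2514 c14204 c1344 c5548 c5673 c5587 (k8 c5509 c5374 c3048 c16324 c5522 c5521 c5520 c5335 (k8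 c5334 c9739 c5491 c5489 c5407 c5405 c8709 c16328 (k8 c2868 c12876 c16329 c5613 c5617 c5429 c5430 c5616 (k8 c8905 c14877 c757 c2876 c5677 c1012 c1013 c2580 (k4 c3504 c3507 c2645 c3624 k0))))))))) (by decide +kernel)
def c16331 : PP 9 3 T 0x4000000000002000000000000000000000000080000000000000000000000000500000000002000000004000000000000000000000000000100400000 := rS 0x1ca77c03b0f88c6e194cfcdbe9b (k8 c5397 c2514 c5548 c5447 c5393 c5518 c5331 c5517 (k4 c5332 c5691 c1343 c5534 (k1 c3578 k0))) (by decide +kernel)
def c16332 : PP 9 3 T 0x49000000000000050000000080000000000000000000000000000000000000000000200001800000004010000110104000000000000000000000000000000 := rS 0x139e1ef9fcfa75 (k4 c5440 c5442 c5358 c8993 (k2 c5460 c1718 (k1 c12390 k0))) (by decide +kernel)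
def c16333 : PP 9 3 T 0x52000021000000000000000200000004000000000000000000000000000000000000000000000000004000000000000000000000000010 := rS 0x3871275c2cdf1b2957f35a207dcff81ac4e08d56ec8761f118dc97ed4282d06f5458451243399ed1fa1a50841a172fa4c139201168c8a10ca6cc299 (k8 c5447 c5445 c5397 c5393 c5398 c15726 c16310 c1893 (k8 c16324 c5438 c261 c5439 c1107 c5522 c265 c16163 (k8 c12110 c5526 c5372 c9716 c5561 c1898 c5558 c685 (k8 c5519 c1896 c5516 c683 c16227 c5342 c5518 c5331 (k8 c5517 c5332 c5210 c5490 c2172 c5666 c14204 c10681 (k8 c11835 c5673 c751 c16325 c5548 c1344 c16326 c5464 (k4 c16330 c16332 c1343 c16331 (k2 c3578 c2617 k0)))))))) (by decide +kernel)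
def c16334 : PP 9 3 T 0x2000101000000000000000000000004000100000000000000000000000400000000000000140000140000100000048004000000000000 := rS 0xc3bed21ab5d624556abd2e95d927d42d5 (k8 c2997 c5398 c5448 c5210 c5488 c5404 c5406 c5490 (k8 c14205 c14204 c13349 c441 c5982 c8161 c5653 c1918 k0)) (by decide +kernel)
def c16335 : PP 9 3 T 0x52000021000000000000000200000004000000000000000000000000000000000000000000000000000000000000000000000000000010 := rS 0x66b459eaa8131602b0f7a31fee16afce283e65acd6a27372bf645d0f88c92471290c7a29208cd0a0b45844e66b47e84420d3b9d6534a0b97d2609c9008b4644fa8432c9 (k8 c5396 c5393 c5398 c5448 c15726 c16310 c1893 c16324 (k8 c5438 c261 c5439 c1107 c16163 c13294 c5440 c5356 (k8 c5522 c265 c12110 c5526 c5523 c9716 c5558 c685 (k8 c5516 c683 c4438 c5340 c5339 c5560 c5561 c5559 (k8 c5520 c5334 c5331 c5517 c14849 c5210 c5406 c16333 (k8 c2814 c1148 c2819 c1144 c3579 c12753 c8140 c2997 (k8 c3056 c3010 c16334 c5505 c2171 c4505 c948 c1295 (k4 c1294 c8707 c2202 c2075 (k1 c8127 k0))))))))) (by decide +kernel)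
def c16336 : PP 9 3 T 0x12000021000000000000000200000004000000000000000000000000000000000000000000000000000000000000000000000000000010 := rS 0x468f962cbdb064ba25218a4668b089cf427594d282e5fc9008b464 (k8 c15726 c16310 c1893 c16324 c5439 c1107 c16163 c13294 (k8 c5440 c12110 c9716 c5558 c685 c4438 c5339 c5561 (k8 c5559 c14849 c5393 c16335 c5420 c5421 c13756 c2171 (k1 c16334 k0)))) (by decide +kernel)
def c16337 : PP 9 3 T 0x40000101000000000000000000000000000000000000000000000000140410000000000000050050544020000000000000000000000000 := rS 0x4035ce08d (k4 c2172 c5666 c13349 c3608 (k1 c752 k0)) (by decide +kernel)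
def c16338 : PP 9 3 T 0x1000000000051000101000000000000000200000000000000000000000000000000140410001000000800450050540020000001400000000540000010 := rS 0x1e2507ce28b3139b84a29 (k8 c5339 c5559 c16337 c2814 c2819 c12753 c8140 c1191 (k2 c5198 c5578 k0)) (by decide +kernel)
def c16339 : PP 9 3 T 0x10000021000000000000000200000004000000000000000000000000000000000000000000000000000000000000000000000000000010 := rS 0x1c0d746c5162b3db2d534aa68785aad366b3d8ac81832c6a18d8a4c2f293a9dcfe7d0497f2421d0a3c1a873dbc43e23248ddea47128f4524b0d214174a45845124339808b464 (k8 c15726 c16310 c1893 c9716 c5561 c1898 c5558 c685 (k8 c16163 c5516 c683 c1892 c5342 c5339 c5560 c5559 (k8 c5520 c5519 c5518 c5334 c5331 c5517 c9695 c5372 (k8 c5373 c5522 c5526 c12110 c265 c16324 c5439 c5438 (k8 c5442 c5358 c5356 c5440 c13294 c1107 c261 c16336 (k8 c5648 c437 c1320 c1163 c1162 c682 c1473 c1916 (k8 c1918 c1475 c13267 c8127 c2133 c2134 c14858 c16338 (k4 c5574 c5421 c8534 c2171 (k2 c2189 c1192 (k1 c8163 k0)))))))))) (by decide +kernel)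
def c16340 : PP 9 3 T 0x40000000000000002000000000000000000000200080000000000000000000000000040000400000000011400000000000000000000000000004101400000 := rS 0x38fc2e1f18e07c3b0f88c9237128f4524125a4d3e99 (k8 c5447 c5448 c5444 c5342 c5340 c5339 c5560 c5559 (k8 c5518 c5334 c5331 c5517 c5332 c3579 c3578 c5576 (k4 c3056 c5534 c2617 c5691 k0))) (by decide +kernel)
def c16341 : PP 9 3 T 0x2000211040000000000000200080004000000000000020000000000040440002000010400040000100000000000000000000100000008 := rS 0x1a2d66a9ecffde2f01a52164e8451a2709fcc32df (k8 c2514 c6205 c5548 c5564 c267 c5381 c5558 c1342 (k8 c16340 c5433 c1108 c1107 c5214 c676 c1686 c5454 (k2 c5278 c8113 (k1 c2145 k0)))) (by decide +kernel)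
def c16342 : PP 9 3 T 0x2000011040000000000000200080000000200000000000000000000100000002000000400008000000040000000100004000000400008 := rS 0x6b383bc9c1c88c863d20c760621368652699 (k8 c5447 c5444 c6205 c744 c266 c10690 c5341 c5340 (k8 c5560 c5561 c5331 c5317 c15623 c15075 c1343 c16045 (k1 c1721 k0))) (by decide +kernel)
def c16343 : PP 9 3 T 0x4000000000002000000000000000000000000080000000000000000000000000100000000002000000400000000000000000004000000000101400000 := rS 0x3871274761f118dd2699 (k8 c5447 c5444 c5518 c5331 c5517 c5332 c1343 c16331 (k2 c3578 c2617 k0)) (by decide +kernel)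
def c16344 : PP 9 3 T 0x4000000000002000011040000000000000200080004000000000000000000000000100000002000000400158110100000000000100004000000400008 := rS 0x6b9fdc0c5ef4a49703109b4ce19639dd9264 (k8 c15726 c5396 c2053 c15218 c6205 c9680 c744 c266 (k8 c10690 c5342 c16342 c5214 c5451 c16343 c3059 c1721 (k1 c10269 k0))) (by decide +kernel)
def c16345 : PP 9 3 T 0x12000201040000000000000200000004000000000000000000000000000000000000000000000000000000000000000000000000000010 := rS 0x1e9c4d06b317bc091aca42cd5f1b29a67564a5c668b08a2486012c95d028d3ea85610055115fefdd940fe6b4db8a496b347884da671191c4e13010962a6f351903e490ca6d8e86f6a0dea852d02e959d (k8 c16339 c16163 c5516 c16310 c683 c5519 c1896 c16227 (k8 c5672 c15218 c8100 c6205 c5334 c5517 c15726 c2114 (k8 c5565 c1139 c5559 c1893 c5564 c267 c5520 c5331 (k8 c9680 c744 c266 c5568 c2377 c5342 c5339 c8534 (k8 c12753 c5548 c10690 c5210 c5405 c2572 c9612 c5733 (k8 c1345 c1344 c4055 c5566 c5381 c5380 c9757 c32 (k8 c1057 c5561 c1898 c5558 c685 c4438 c5404 c5396 (k8 c15100 c2085 c16341 c5464 c1660 c16344 c5433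 c1619 (k8 c1507 c5214 c682 c10339 c2145 c2146 c8113 c1775 k0))))))))) (by decide +kernel)
def c16346 : PP 9 3 T 0x10000201040000000000000200000004000000000000000000000000000000000000000000000000000000000000000000000000000010 := rS 0xef9ddaad72f9d58ae168a746217038e7c128d8a6c7637218f4831d1998e00aa22bfdfbb281fcd69b71492d668f109b4ce232389c260212c54de6a43677da837aa14b40b3207c934a (k8 c16163 c5334 c5517 c15726 c5516 c16310 c683 c5519 (k8 c1896 c16227 c16339 c5672 c2114 c5565 c1139 c5559 (k8 c1893 c5564 c267 c5520 c5331 c9680 c744 c266 (k8 c5568 c2377 c5342 c5339 c8534 c12753 c5548 c10690 (k8 c5210 c5405 c2572 c9612 c5733 c1345 c9752 c4438 (k8 c5341 c5340 c5560 c5561 c5518 c5332 c8100 c16345 (k8 c5209 c5235 c5317 c5432 c5433 c5434 c5458 c5459 (k8 c5460 c681 c1894 c8110 c2145 c3072 c11141 c16045 (k1 c5668 k0))))))))) (by decide +kernel)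
def c16347 : PP 9 3 T 0x2000000000000000000000200080000000100000000000000000000000000002000011004000000000000000000000000004100400000 := rS 0xca7037fc69b0c8a497f3 (k8 c5548 c5342 c5339 c5393 c5397 c13634 c2514 c16343 (k2 c16340 c1718 k0)) (by decide +kernel)
def c16348 : PP 9 3 T 0x10000201000000000000000200000004000000000000000000000000000000000000000000000000000000000000000000000000000010 := rS 0xd76ab4d90306586362c51aa65269d0bca4ea790497f24a15a6dd671513a3cfa6f09a3502f156ec83e232491c4a3d1492c348b08a2486aa669a8426d43677da837aa14174a33808b464 (k8 c15726 c16310 c1893 c9680 c16163 c5516 c683 c5519 (k8 c1896 c16227 c16339 c5672 c744 c266 c2114 c4452 (k8 c5733 c5561 c1898 c5558 c685 c1892 c5342 c5339 (k8 c5560 c5559 c5520 c5334 c5331 c5517 c5210 c5490 (k8 c9695 c5380 c5381 c5564 c5565 c5566 c5568 c267 (k8 c1139 c2377 c8534 c12753 c4055 c16346 c5439 c5438 (k8 c5441 c5440 c12891 c1107 c1135 c261 c2373 c15161 (k8 c682 c16347 c5648 c1320 c1163 c1162 c14519 c1475 (k2 c2190 c8254 k0))))))))) (by decide +kernel)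
def c16349 : PP 9 3 T 0x52000001040000000000000200000004000000000000000000000000000000000000000000000000000000000000000000000000000010 := rS 0x2e083d81d8bde3f4a5aed5f72c48a813ea34e11548ad7e45d19a2c2289219ccae213699c05a14fa84c2750c804b26a43677da837aa14b40ba51dd9264 (k8 c15726 c5396 c2053 c16163 c5516 c16310 c683 c5519 (k8 c1896 c16227 c16339 c5672 c2114 c32 c1057 c6205 (k8 c15100 c5445 c5398 c5448 c16348 c1893 c9680 c744 (k8 c266 c9757 c9716 c5561 c1898 c5558 c685 c4438 (k8 c14849 c5241 c5548 c5589 c5590 c14934 c753 c2870 (k8 c751 c14205 c14204 c5673 c14520 c13349 c16311 c14872 (k4 c5214 c3916 c676 c891 (k2 c10339 c1108 (k1 c13641 k0))))))))) (by decide +kernel)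
def c16350 : PP 9 3 T 0x12000001040000000000000200000004000000000000000000000000000000000000000000000000000000000000000000000000000010 := rS 0xf9ca56a2759ed83e232491c4a29109b50d9df6a0dea8505d28ce022d1934219 (k8 c6205 c16348 c15726 c16310 c1893 c9680 c16163 c5516 (k8 c683 c5519 c1896 c16227 c16339 c5672 c744 c266 (k8 c5339 c5559 c5520 c5334 c5331 c5517 c16349 c5574 (k4 c5570 c5422 c14052 c8140 (k1 c15506 k0))))) (by decide +kernel)
def c16351 : PP 9 3 T 0x10000001040000000000000200000004000000000000000000000000000000000000000000000000000000000000000000000000000010 := rS 0x22fb8eff32fb89bee14e85c7e39f04a3629b338ec3e231b91c7a41258ccc6023521b3bed41bd50a5a05d28c9a1 (k8 c16348 c15726 c16163 c5516 c16310 c683 c5519 c1896 (k8 c16227 c16339 c5672 c2114 c1893 c9752 c4438 c5342 (k8 c5340 c5560 c5520 c5518 c5331 c5517 c5332 c9680 (k8 c8100 c16350 c5209 c5235 c5317 c5318 c5433 c5458 (k8 c5460 c5538 c9944 c8110 c5549 c11141 c5191 c5582 (k1 c16311 k0)))))) (by decide +kernel)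
def c16352 : PP 9 3 T 0x12000001000000000000000200000004000000000000000000000000000000000000000000000000000000000000000000000000000010 := rS 0x1834bbed76afb9028d384556bf262edc6a389498432a1788ec3e2319a2c228921804b2cd109b4cf13d09f4fe750ba74be93048093279c91a90d9df6a0dea852d02e9464 (k8 c15726 c16163 c5516 c16310 c683 c5519 c1896 c16227 (k8 c16339 c5672 c2114 c16351 c5441 c2373 c1893 c5438 (k8 c261 c5439 c1135 c1107 c5440 c5358 c5442 c16348 (k8 c13182 c9680 c744 c266 c4452 c32 c1057 c5561 (k8 c1898 c5558 c685 c4438 c5331 c5517 c5332 c9695 (k8 c5398 c5393 c5445 c14035 c15623 c15161 c13016 c682 (k8 c5241 c5548 c5590 c14934 c753 c751 c5673 c14520 (k4 c13349 c8993 c8254 c5653 (k1 c1918 k0))))))))) (by decide +kernel)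
def c16353 : PP 9 3 T 0x1000000000000000000000000080000000000000000000000000000000800000008001104000000000000000000000000000108400000 := rS 0xe2509b0c8ec3e23 (k8 c5331 c5517 c5332 c4100 c4105 c5648 c6193 c5317 k0) (by decide +kernel)
def c16354 : PP 9 3 T 0x51000111080000000000000200080004000000000000000000000000000400000000000000008000000000080000000000000000000000 := rS 0xd36bb5502a146b14e0e18ab8d6bf256ec916114490d9a6a109b4ce02321f4fe75 (k8 c5440 c5358 c5442 c15726 c1893 c9680 c744 c266 (k8 c2114 c4452 c5561 c1898 c5558 c685 c5210 c5490 (k8 c5241 c5548 c5549 c5590 c5591 c14934 c14921 c753 (k4 c2929 c752 c14520 c13349 (k2 c14519 c8254 k0))))) (by decide +kernel)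
def c16355 : PP 9 3 T 0x1000000000000000000000200080000000000002400000000000000000000000000001104000050000000004000000000000101440100 := rS 0xe0402680e3f1cca0761f118447a41 (k8 c5340 c5560 c5558 c5331 c5517 c5332 c5648 c5317 (k4 c5318 c5432 c6193 c12613 (k2 c1192 c1717 k0))) (by decide +kernel)
def c16356 : PP 9 3 T 0x10000001000000000000000200000004000000000000000000000000000000000000000000000000000000000000000000000000000010 := rS 0xd13d38501e3efb4d8ac8180d430136bb55be90f7237e7145aac44eb3db32f629949a742e753b9fcf27d0497f2513d0884d4cd36aa90d9d2ba25168342868045a7899cc81f1192416f523d284a11218a497ed (k8 c16227 c5342 c5339 c5561 c5558 c5559 c16163 c5520 (k8 c5519 c5516 c5334 c5331 c5517 c15726 c9680 c9695 (k8 c16310 c1893 c1892 c683 c1896 c685 c1898 c9757 (k8 c16339 c5672 c5733 c744 c4452 c2114 c266 c16348 (k8 c13182 c16351 c5439 c5438 c5442 c5441 c5358 c5356 (k8 c5440 c1107 c1135 c261 c2373 c16352 c16353 c16354 (k8 c5574 c5570 c5421 c5422 c8534 c8140 c2171 c8120 (k8 c1140 c2951 c14520 c13349 c3036 c16355 c437 c1163 (k8 c1162 c682 c1918 c5494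 c8136 c3608 c1717 c907 (k2 c8355 c11210 k0)))))))))) (by decide +kernel)
def c16357 : PP 9 3 T 0x1000000000002000201000000000000000200000004000000000000000000000000020010000000000000000000000000040000000000000000400012 := rS 0x10179a0a068563bfcf4b42f9ace21a7eec83ef724bd48e1121c7497ed88a762a6d599cd0313379f5128fced293ea131984f28755ed0c89122960ba13 (k8 c5564 c14849 c5644 c284 c9793 c15726 c16356 c5413 (k8 c2113 c1540 c5445 c5395 c5398 c5448 c16163 c12110 (k8 c5568 c5567 c5566 c5565 c5382 c5380 c5379 c5532 (k8 c5529 c5414 c5412 c5411 c16227 c5342 c5341 c5561 (k8 c5558 c5520 c5519 c5334 c5333 c5517 c5210 c5405 (k8 c1056 c667 c1058 c1054 c3604 c13493 c2572 c162 (k4 c847 c9293 c15233 c283 (k2 c1977 c3593 k0)))))))) (by decide +kernel)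
def c16358 : PP 9 3 T 0x1000000000002000201000000000000000200000004000000000000000000000000020010000000000000000000000000040000000000000000400010 := rS 0xb413808021f119248e251492d3b1510acc269350ca695b4 (k8 c16356 c16163 c9578 c5398 c5444 c5564 c5532 c5528 (k8 c5414 c5412 c5342 c5339 c5559 c5520 c5334 c5331 (k4 c5517 c16357 c5642 c267 (k2 c3584 c16347 k0)))) (by decide +kernel)
def c16359 : PP 9 3 T 0x45001800000000000000010000000000000000000000000000000000400015000000040020400000005015101000110054065000000000000000000000000 := rS 0xbc823fa15c702 (k4 c5694 c1780 c2629 c10493 (k2 c5733 c3599 (k1 c9113 k0))) (by decide +kernel)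
def c16360 : PP 9 3 T 0x41000000000000002000011040000000000000000000004000100000500004000000040020400000004001101010110055400000000000000000000002000 := rS 0x319c4836b403de6756abd2efd54a1cc89f5098cc2c5f0ec99bde (k8 c5214 c5495 c5210 c6325 c5451 c5445 c5395 c5398 (k8 c5448 c15726 c2113 c5489 c5405 c5404 c5406 c5490 (k8 c9680 c15107 c16359 c9303 c1977 c2146 c15233 c4738 k0))) (by decide +kernel)
def c16361 : PP 9 3 T 0x1000000000000002000011040000000000000000000004000100001500000000000000020000000404001101410110045000000000000000000040012002 := rS 0x3db1dc3e36537dfff35a1ace2fd4df8764cdef1e50e64 (k8 c15726 c2113 c1540 c5214 c5495 c5210 c6325 c5397 (k8 c5405 c667 c1058 c3604 c5548 c2572 c2514 c16360 (k4 c5464 c1718 c9140 c15912 (k1 c5669 k0)))) (by decide +kernel)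
def c16362 : PP 9 3 T 0x2000201040000000000000200000004000000000000000000000000000000000000000000000000000000040000000000000000000010 := rS 0x639780c09010042c0c4883c3e237b92416f523847db118a9b5667340c4c266f3ea251f9d62f859a994e9e5a1de94d29fbb243aaf6864 (k8 c15726 c16356 c5413 c2113 c5210 c5405 c16163 c9578 (k8 c5214 c13565 c1540 c5412 c5530 c5495 c6325 c5451 (k8 c12110 c5568 c5567 c5566 c5565 c5564 c5382 c5380 (k8 c5379 c5532 c5529 c5414 c5411 c16227 c5558 c5520 (k8 c5519 c5516 c5334 c5333 c5331 c5517 c9739 c9793 (k8 c12876 c16358 c16361 c5642 c1507 c1108 c1107 c2481 (k1 c16233 k0))))))) (by decide +kernel)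
def c16363 : PP 9 3 T 0x1000000000000000000010000000000000000000080000000000000000000000000000000000000004000000000000000020080000000000000000000000 := rS 0x41a1416f5 (k4 c5519 c5516 c683 c1896 (k1 c5733 k0)) (by decide +kernel)
def c16364 : PP 9 3 T 0x1000000000000000000011040000000000000000080004000000101000000000000000000000000400000000010010000008020004155001011100000000 := rS 0x26d40b4f03584fdf6ab4c6ac83a31596690eec8c81f119248e33 (k8 c8428 c5520 c5334 c5331 c5517 c15726 c5210 c5486 (k8 c9742 c4102 c837 c1172 c1171 c281 c1969 c1532 (k8 c5494 c15874 c3588 c5185 c3584 c2190 c5536 c1199 k0))) (by decide +kernel)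
def c16365 : PP 9 3 T 0x1000000040000000000000000000000000000000000000000000000000000000000000000000000000004000000000000000000000002 := rS 0x3097c0f28 (k4 c5209 c5432 c10372 c661 (k1 c5663 k0)) (by decide +kernel)
def c16366 : PP 9 3 T 0x1000000000000028000001000000000000000200080000000000000000000000000000000000000000000000000000000000040000100000000000040011 := rS 0x813c84e1b013c5fa1d549743e237a894864b55c5442b3 (k8 c5532 c5528 c5414 c5413 c5342 c5561 c5559 c5519 (k8 c5331 c5517 c14849 c5489 c5486 c5405 c9695 c5642 (k4 c5280 c267 c10456 c14437 (k1 c2627 k0)))) (by decide +kernel)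
def c16367 : PP 9 3 T 0x201040000000000000200000004000000000000000000000000000000000000000000000000000000000000000000000000000010 := rS 0x623f314a36225218f452418e92e2a21599f5120022960ba5bceaacc813da7b695b2 (k8 c5210 c16163 c16227 c16356 c5564 c15726 c5413 c12110 (k8 c16363 c14849 c5644 c284 c16366 c5567 c5566 c5532 (k8 c5528 c5414 c5342 c5341 c5340 c5339 c5560 c5561 (k4 c5559 c16362 c5209 c16365 (k2 c5318 c5434 (k1 c16364 k0)))))) (by decide +kernel)
def c16368 : PP 9 3 T 0x1000000000000002000010000000000000000000000004000100000100000000000000000040000005001150000001101424400000000011000008000000 := rS 0x10acd62f799e333d26d9287 (k8 c2113 c5396 c5397 c13168 c2043 c1649 c5653 c5451 (k2 c5495 c847 (k1 c8934 k0))) (by decide +kernel)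
def c16369 : PP 9 3 T 0x1000000000000020000201080000000000000200080004000000000000000000000000000000001000000000000000000000020000000000000000000002 := rS 0xe13db8e06844d3cbc2cd64b3d8bde1c8cc2e926fb47e6900e8edee377a92d66733796c8a130c9c4227fd88c46a09949d4c6796397cd61f0d675326d55a76226454a552fb2 (k8 c5210 c5404 c5488 c5489 c15726 c5411 c5412 c5413 (k8 c5529 c5530 c12110 c1056 c5517 c1058 c5439 c5357 (k8 c5441 c5355 c5440 c12891 c5438 c280 c1945 c16368 (k8 c5358 c5558 c667 c9699 c5564 c284 c16363 c5565 (k8 c5379 c5532 c5342 c5519 c5518 c5333 c5332 c5486 (k8 c13067 c5589 c9793 c2948 c16219 c55 c322 c9515 (k8 c11149 c5451 c5453 c5494 c5495 c6325 c3587 c15342 (k4 c15030 c2627 c2621 c847 (k2 c14970 c14969 k0))))))))) (by decide +kernel)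
def c16370 : PP 9 3 T 0x49000000000000000000000000000000000000100000000000000000100000000000010008000000000000000000151015000000000000 := rS 0x27fc6d61fab52acb (k8 c1753 c5488 c5490 c327 c15207 c5465 c1605 c5680 k0) (by decide +kernel)
def c16371 : PP 9 3 T 0x1000000000000000000011000000000000000000080000000000000000000000000000001010000004000000001000100020020000000104000000000000 := rS 0x3410431 (k4 c1945 c5733 c15030 c1975 k0) (by decide +kernel)
def c16372 : PP 9 3 T 0x228000000001000000000000000080000000140000000000000000005000500000000000008000040054000000000008000000000000002 := rS 0x3038592c85d4c260f975b6716e1efabdbba8d7e23 (k8 c5331 c5431 c5614 c5613 c5617 c5427 c5429 c5612 (k8 c12587 c1571 c6451 c328 c5656 c600 c3654 c2958 (k2 c3359 c1063 (k1 c3606 k0)))) (by decide +kernel)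
def c16373 : PP 9 3 T 0x201000000000000000200000004000000000000000000000000400000000000000000000000000000000000000000000000400010 := rS 0x85c3e8f0d7ce1af981bbe9457abb7d9b723e451a63e55299ce4e6fc69c6fe7f6db4db3e158b25c4a06aede3a3d8040d08cd628e46713f9bfd68fdf7f783aad46a0512433eb2d25b1188d41275319e58e5f3587c349936a7622a94aa5c320022960ba5bceaacc813da7b695b294e488211 (k8 c5558 c5340 c16367 c12891 c5210 c16163 c16227 c16356 (k8 c5564 c15726 c5413 c12110 c16363 c14849 c5644 c284 (k8 c16366 c9699 c5404 c5488 c5489 c5411 c5412 c5529 (k8 c5530 c1056 c5517 c1058 c5439 c5357 c5441 c5355 (k8 c5440 c5438 c280 c1945 c16368 c5648 c1753 c5566 (k8 c5561 c5567 c5380 c5381 c5490 c5486 c11149 c10618 (k8 c5405 c16369 c2572 c5548 c5382 c2044 c9515 c5451 (k8 c5495 c16371 c2629 c5694 c5560 c5341 c9399 c5454 (k8 c16370 c1200 c5494 c1197 c6325 c5497 c5496 c5455 (k8 c5358 c4562 c667 c5569 c5565 c5383 c5379 c5563 (k8 c5343 c9713 c9742 c5278 c3588 c16372 c14966 c5349 (k8 c5600 c5601 c9413 c669 c1062 c5667 c1366 c862 (k4 c2208 c287 c3120 c9511 (k1 c9455 k0))))))))))))))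 (by decide +kernel)
def c16374 : PP 9 3 T 0x228000000001000000000000000080000000140000000000000000005000100000000020008000000054000000000000000000000010084 := rS 0x30b8192bb754c260f975b6716e1efabdbba8d7e23 (k8 c5331 c5431 c5614 c5613 c5617 c5427 c5429 c5612 (k8 c12587 c1571 c6451 c328 c5656 c1793 c4313 c711 (k2 c3183 c1202 (k1 c3606 k0)))) (by decide +kernel)
def c16375 : PP 9 3 T 0x45000800000000101000000081000400000400000000000000100000000020000000000800000000000000000040110400000000000000000000000000000 := rS 0x2190f7c7dfe2fb75b7753a4f263ef27f3ab15b6d9 (k8 c5497 c5455 c5451 c5440 c5358 c5359 c5443 c5227 (k8 c5213 c5469 c5471 c5623 c5609 c9516 c9954 c3609 (k2 c2252 c9460 (k1 c3493 k0)))) (by decide +kernel)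
def c16376 : PP 9 3 T 0x100000201000000000000000200000004000000000000000000000000000000000000000000000000000000000000000000000000400010 := rS 0x3e90b86fc5f386be606efa5d68af565161d98d31f1d9249e3723934aa53c69defedf58b25c4a06aede3a3d45a45a0d68040d08cd628e46713f9bfd68fdf7f783aad46a0512433eb2d25b1188d41275319e58e5f3587c349936a7622a94aa5c320022960ba5bceaacc813da7b695b294e488211 (k8 c5558 c5340 c16367 c12891 c5210 c16163 c16227 c16356 (k8 c5564 c15726 c5413 c12110 c16363 c14849 c5644 c284 (k8 c16366 c9699 c5404 c5488 c5489 c5411 c5412 c5529 (k8 c5530 c1056 c5517 c1058 c5439 c5357 c5441 c5355 (k8 c5440 c5438 c280 c1945 c16368 c5648 c1753 c5566 (k8 c5561 c5567 c5380 c5381 c5490 c5486 c11149 c10618 (k8 c5405 c16369 c2572 c5548 c5382 c2044 c9515 c5451 (k8 c5495 c16371 c2629 c5694 c16373 c2145 c9793 c3068 (k8 c5560 c5341 c9399 c5454 c16370 c1200 c5494 c1197 (k8 c2515 c4562 c4442 c5569 c5563 c5343 c5521 c5520 (k8 c5518 c5335 c5334 c5332 c9713 c9742 c16375 c5348 (k8 c5350 c5600 c5601 c5602 c9413 c669 c1062 c5667 (k4 c1366 c862 c5512 c2208 (k2 c9511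 c5192 (k1 c9436 k0))))))))))))))) (by decide +kernel)
def c16377 : PP 9 3 T 0x201000000000000000200000004000000000000000000000000000000000000000000000000000000000000000000000000400010 := rS 0x1c7fb85036592db6ab2fbc9219874863d20c776e73939bcfb8d01864ae71089ff62311a8265275319e58e5fc91ac3e1a00114b05d2d84f3b4a4c9b5569d88ed3da6454a552fb2 (k8 c5210 c5404 c5488 c5489 c15726 c16227 c16356 c5411 (k8 c5412 c5413 c5529 c5530 c16163 c12110 c5564 c16363 (k8 c14849 c5644 c284 c16366 c1056 c5517 c1058 c16367 (k8 c5439 c5357 c5441 c5355 c5440 c12891 c5438 c280 (k8 c1945 c16368 c5358 c5558 c667 c9758 c9699 c28 (k8 c5569 c5566 c5565 c5383 c5379 c9399 c5341 c5340 (k8 c5560 c5561 c5486 c2044 c5648 c11149 c1753 c5454 (k8 c5455 c5494 c5497 c16370 c16376 c16372 c16374 c9764 k0)))))))) (by decide +kernel)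
def c16378 : PP 9 3 T 0x201000000000000000200000004000000000000000000000000000000000000000000000000000000000000000000000000000010 := rS 0x6f26d2616f9ad362311aca4ea633cb1c125fc91ac340022960b79d09a5d2aa9d9190ba1fa57b6229d559b533b4 (k8 c16356 c5530 c5529 c5413 c5412 c5411 c16227 c16163 (k8 c5517 c14849 c15726 c5210 c5489 c5488 c5404 c5564 (k8 c12110 c16363 c5644 c284 c16366 c1056 c1058 c16367 (k8 c5439 c5438 c5357 c5441 c5355 c5440 c12891 c280 (k8 c1945 c16368 c16369 c5548 c16377 c55 c1066 c16219 (k1 c2514 k0)))))) (by decide +kernel)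
def c16379 : PP 9 3 T 0x21000000000000000200000004000000000000000000000000000000000000000000000000000000040000000000000000000010 := rS 0x1f37fc0d608b3900034f346961e2697e87553b23217446f5128463bed55edf694ad0835068f (k8 c5526 c5525 c5522 c16378 c16163 c16356 c9399 c5413 (k8 c16227 c5341 c5558 c5559 c5519 c5331 c14849 c15726 (k8 c5210 c5489 c5486 c5405 c9742 c9695 c5644 c2169 (k8 c282 c10456 c5280 c11969 c855 c1316 c10681 c11835 (k2 c14889 c14602 k0))))) (by decide +kernel)
def c16380 : PP 9 3 T 0x21040000000000000200000004000100000000000000000000000000000000000000000000000000000000000000000000000010 := rS 0x5a89cdc714622516022d20cd6673207c464923d284a11218a4971510acf69a1 (k8 c16378 c16356 c5532 c5528 c5414 c5342 c5339 c5561 (k8 c5558 c5559 c16163 c5520 c5334 c5331 c5517 c15726 (k8 c9680 c5523 c5525 c16379 c1893 c685 c1898 c16034 (k4 c753 c2172 c268 c1148 (k1 c3584 k0))))) (by decide +kernel)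
def c16381 : PP 9 3 T 0x200000000000000000000050050000000000000000000000000040800000000100001500000000000000000 := rS 0xff7990e3a4b (k4 c5342 c5341 c5561 c2391 (k2 c2397 c3593 k0)) (by decide +kernel)
def c16382 : PP 9 3 T 0x2000001040000000000000200000004000000000000000000000000000000000000000000000000080000000000000000000000000010 := rS 0xfdae0818a040ec641914fe88459a5ee4905bd48e3d889b50e6362b4da0fdf0ec9329d2b960b6ab32174671380fcbdf0366f7b43edceca695b4 (k8 c16356 c16163 c9578 c16380 c16227 c16378 c5214 c5495 (k8 c11700 c15215 c5191 c5592 c5547 c8428 c14849 c15726 (k8 c5413 c16363 c5644 c367 c5412 c5530 c5210 c6325 (k8 c5405 c13565 c5496 c5451 c5395 c2113 c5529 c5411 (k8 c5560 c5520 c5519 c5516 c5334 c5333 c9742 c855 (k8 c1317 c806 c285 c16381 c15233 c674 c940 c1946 (k4 c5643 c1984 c276 c14554 k0))))))) (by decide +kernel)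
def c16383 : PP 9 3 T 0x2000001040000000000000200000004000000000000000000000000000000000000000000000000000000000000000000000000000010 := rS 0x41224360238004e66f132d7e5ef8196f3acdef3c55bb2321743e237b925ea471284486292092fdaab8a88567b7d0ca695b4 (k8 c16356 c16163 c9578 c16378 c9399 c5532 c5528 c5414 (k8 c5413 c16227 c5342 c5340 c5339 c5561 c5558 c5559 (k8 c5520 c5519 c5334 c5333 c5331 c5517 c14849 c15726 (k8 c5210 c5490 c9695 c5214 c5495 c16380 c16363 c11700 (k8 c15215 c5191 c5548 c12753 c2814 c16382 c11969 c5666 (k4 c5642 c5280 c2872 c14985 (k1 c16241 k0))))))) (by decide +kernel)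
def c16384 : PP 9 3 T 0x1000000000000002000010000000000000000000000004000100000100000000000000000040000005001150000001101020400000000011000040000002 := rS 0x1ac3463 (k4 c5395 c1056 c1058 c16368 k0) (by decide +kernel)
def c16385 : PP 9 3 T 0x2000001000000000000000200000004000000000000000000000000000000000000000000000000000000000000000000000000000010 := rS 0x1a27a420c8d6f20b86c0401188d4b05bce9d4f2c70497f252930a6d92630ca4de2977e8752aa9d91743e237bbd695ed88a74da9943aaf6864 (k8 c15726 c16356 c5413 c2113 c5530 c5529 c5412 c5411 (k8 c16227 c16163 c5519 c5333 c5331 c5517 c14849 c5210 (k8 c5489 c5488 c5486 c5405 c5404 c9695 c5444 c5393 (k8 c5395 c5396 c5397 c5445 c9578 c16383 c5439 c5438 (k8 c5357 c5441 c5440 c8483 c16363 c5644 c280 c1945 (k8 c16384 c5642 c5280 c1107 c10456 c16271 c3577 c283 (k2 c3598 c2129 (k1 c848 k0)))))))) (by decide +kernel)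
def c16386 : PP 9 3 T 0x21040000000000000200000004000000000000000000000000000000000000000000000000000000000000000000000000000010 := rS 0x2d44e6e38a30045a479acce5d0f88deef5128a7db1510acd0eab320cda6e01fb8c7b281d92c8e4124b7fc5a1d8edf694a (k8 c16163 c16356 c9399 c16385 c16378 c5236 c5580 c5334 (k8 c5340 c5520 c5342 c5332 c5209 c5560 c5466 c5576 (k8 c5985 c5579 c8428 c15726 c5413 c2113 c5532 c5528 (k8 c5414 c16227 c5339 c5559 c5519 c5333 c5331 c5517 (k8 c14849 c9680 c5523 c5526 c16379 c1893 c16321 c753 (k4 c2172 c268 c1148 c3584 k0)))))) (by decide +kernel)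
def c16387 : PP 9 3 T 0x1040000000000000200000004000000000000000000000000000000000000000000000000000000000000000000000000000010 := rS 0x69def7677c3f37037da63f71ca3c43b2491c863d2092fdbb7da52b43b1 (k8 c16385 c16378 c16163 c16356 c9399 c16227 c5342 c5340 (k8 c5560 c5561 c5520 c5334 c5332 c5236 c5209 c5466 (k8 c5576 c5579 c5580 c5985 c14209 c5460 c16386 c5191 (k2 c5185 c14662 (k1 c5450 k0))))) (by decide +kernel)
def c16388 : PP 9 3 T 0x21000000000000000200000004000000000000000000000000000000000000000000000000000000000000000000000000000010 := rS 0x68b359ec5640c06a184985d0a1a014a4b4f13202c6ef5a52af69b12f824ef92 (k8 c16387 c5356 c5438 c5439 c16385 c16356 c5413 c16163 (k8 c5519 c5518 c5516 c15726 c9695 c16379 c13294 c1893 (k8 c1892 c683 c1107 c261 c5648 c437 c1163 c1162 (k4 c682 c1473 c1916 c2133 (k1 c8127 k0))))) (by decide +kernel)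
def c16389 : PP 9 3 T 0x1000000000000041000111000000000000000000080004000200100000000000000000000000000000001100000010180000020000051010000100000000 := rS 0x5ab2935f26924fded76a91560a1459a55bb2320ec3e231ba346219198e47e17 (k8 c5433 c5318 c5317 c5316 c5315 c1945 c2169 c5518 (k8 c5331 c5517 c5332 c15726 c5210 c5490 c9742 c855 (k8 c4053 c1316 c285 c14520 c13349 c5506 c16370 c3588 (k4 c5191 c3578 c14519 c5548 (k1 c1326 k0))))) (by decide +kernel)
def c16390 : PP 9 3 T 0x1000000000000000200000004000200000000000000000000000000000000000000000000000000000000000000000000000010 := rS 0x67f859bdf4d345e4c84986c04013985c721978bf43aa9d90ec3e231bbd44a11218f4831d4e88533b7d0ec4fa751a960b79d55ed3db4a321741392 (k8 c16387 c5438 c14849 c15726 c16163 c16227 c16356 c5413 (k8 c16388 c16363 c5644 c280 c5440 c5442 c16385 c16378 (k8 c9399 c5530 c5528 c5412 c5341 c5340 c5560 c5561 (k8 c5558 c5559 c5519 c5518 c5331 c5517 c5332 c5210 (k8 c5489 c5486 c5405 c9695 c5315 c5317 c5433 c16389 (k8 c11969 c5642 c5280 c261 c15918 c10456 c14987 c3578 (k4 c5494 c2500 c5536 c2562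 (k1 c5688 k0)))))))) (by decide +kernel)
def c16391 : PP 9 3 T 0x1000000000000000200000004000000000000000000000000000000000000000000000000000000000000000000000000000012 := rS 0x77c66c4f0b3cf49b49b3508164198603ef6bb548ab050a2ce46b0c9a43a95d907dee497a91c4a1188a74da99dba1f625f639f4f2633bc0f428d8e8d412312c16f3aabda7b694642e9d72529 (k8 c16390 c16387 c5440 c14849 c15726 c16163 c16227 c16356 (k8 c5413 c16388 c16363 c5644 c1945 c5438 c280 c5341 (k8 c2169 c16378 c11700 c5356 c5355 c5441 c5442 c5357 (k8 c5439 c16385 c2113 c9399 c5530 c5529 c5412 c5411 (k8 c5558 c5559 c5520 c5519 c5334 c5333 c5517 c5210 (k8 c5488 c5486 c9742 c9699 c1058 c11969 c855 c4053 (k8 c1316 c285 c14520 c13349 c5506 c2143 c14575 c16381 (k8 c14581 c5672 c12000 c55 c1066 c13171 c10476 c5457 (k4 c847 c12046 c5451 c5653 k0))))))))) (by decide +kernel)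
def c16392 : PP 9 3 T 0x1000000000000000200000004000000000000000000000000000000000000000000000000000000000000000000000000000010 := rS 0x77c66c467f84f4e1f937d1ea148c4d967066a10181837bc926170d808e601948c46a582de74ea7f0497f25b1d0a1f6eb355ed3da4b14bc5fa1d54ec8c85d11bddeb4a (k8 c16163 c5519 c5333 c5331 c14849 c15726 c5210 c5489 (k8 c5486 c5405 c9695 c5339 c5342 c16227 c16356 c5413 (k8 c5532 c9399 c2113 c16378 c16385 c16387 c5439 c5438 (k8 c5358 c5440 c16388 c16363 c5644 c280 c1945 c16390 (k8 c16391 c9719 c5642 c5280 c1107 c261 c10456 c16306 (k8 c5648 c282 c283 c2501 c5666 c1320 c2598 c13428 (k8 c2929 c2874 c14125 c5675 c5591 c11724 c5457 c1649 (k4 c847 c12046 c5451 c5653 k0)))))))) (by decide +kernel)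
def c16393 : PP 9 3 T 0x10000220000000000000000000080000000000200000000000000000000000000004000000000000000020000000000000004000000002 := rS 0x166b58aedc48b0389b4340b23c45226b479ce266f (k8 c5565 c5382 c5379 c5526 c5523 c5374 c5371 c5520 (k8 c5516 c1056 c665 c668 c2161 c2162 c5421 c1294 (k2 c13705 c2760 (k1 c3604 k0)))) (by decide +kernel)
def c16394 : PP 9 3 T 0x2000000000000010000221000000000000000000000004000000000000000000000000000000000000000000000000000000020000000000000000000010 := rS 0x1000802278e10c8a1dd9190460ba55641a1355fbe02ff44a45068d42a1d1f13 (k8 c5382 c5526 c5373 c5541 c5381 c5525 c5374 c5567 (k8 c5544 c5502 c8783 c5500 c5564 c5522 c16392 c16163 (k8 c5516 c5331 c15726 c5210 c5486 c284 c1949 c5658 (k4 c351 c16393 c5642 c15987 (k1 c265 k0))))) (by decide +kernel)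
def c16395 : PP 9 3 T 0x2000000000000010000221000000000000000000000004000200000000000000000000000000000000000000000000400000000000000000000000000010 := rS 0x629d4b459ef975ee37038c7274a (k8 c16163 c13294 c5434 c5432 c5518 c5333 c14849 c10382 (k4 c16394 c5644 c1894 c681 (k1 c5668 k0))) (by decide +kernel)
def c16396 : PP 9 3 T 0x1000000000002000220000000000000000000000000000000000000000000000400000000000000001000000040000000400001400100000000014402 := rS 0x70f8d94dff99c4949106a3d3ea131984e6818984cde7d (k8 c5566 c5565 c5564 c5382 c5380 c5379 c5445 c5395 (k8 c5398 c5448 c5526 c5522 c5374 c12614 c667 c5546 (k4 c2510 c3599 c5464 c1718 (k1 c5691 k0)))) (by decide +kernel)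
def c16397 : PP 9 3 T 0x400000000042000221000000000000000000000004000200000000000000000000000000000000001000000000000000020000000020001000000012 := rS 0x1a9d2eaa4979913e4abe529fdecff016e1d7bb8b7e3db6bf38040ff0b45c3563ee8e9044cad07bdc924f7a91c9b5949a8d4a191ce4c8a1321a24522fbf86811e13a9752fb234b3ceec93233108c471b18da0ba517c2e993dc441a634d81cf313 (k8 c5382 c5524 c5432 c5397 c5395 c5522 c5371 c5372 (k8 c5447 c5433 c1054 c16163 c5516 c665 c10253 c2619 (k8 c281 c838 c839 c15726 c5396 c2053 c2561 c9742 (k8 c5210 c5404 c14849 c1527 c10637 c280 c1056 c4562 (k8 c9707 c9693 c5567 c1949 c5564 c284 c13294 c5317 (k8 c5393 c5399 c5449 c5444 c16392 c5521 c5520 c5519 (k8 c5335 c5334 c5333 c9739 c5490 c5651 c13854 c2162 (k8 c5281 c5506 c5509 c5583 c5587 c840 c16396 c2858 (k8 c5014 c15013 c1635 c602 c15016 c5617 c5429 c5612 (k8 c15011 c14686 c14877 c2866 c6804 c355 c5625 c5662 (k4 c842 c3086 c3087 c5391 (k2 c707 c5671 k0)))))))))))) (by decide +kernel)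
def c16398 : PP 9 3 T 0x400000000042000221000000000000000000000004000200000000000000000000000000000000001000000000000000020000000020000000000012 := rS 0x1bd143f7cd66cb5a9c448e36311cf691359e51e9f5098d3661da9cd0313379f4be17f09d4ba99889b4174a03834eec93225f6469 (k8 c9742 c5210 c5404 c15726 c5396 c2053 c5522 c5432 (k8 c16163 c5516 c665 c5371 c5447 c14849 c1527 c10637 (k8 c5433 c1054 c5566 c5565 c5382 c5380 c5379 c9578 (k8 c5445 c5397 c5395 c5398 c5448 c5526 c5524 c5523 (k8 c5374 c5372 c5520 c10253 c2619 c16397 c2755 c13705 (k4 c1090 c2760 c16289 c3599 (k2 c3604 c10493 (k1 c2951 k0)))))))) (by decide +kernel)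
def c16399 : PP 9 3 T 0x500000000020a000000000000000000000100000004000200000014000000000000000000400100000000000000000000000008000000408008000000 := rS 0x51f5ff191156de536d7dece2dc3af526a3528675bf3 (k8 c5546 c5437 c5393 c5399 c5449 c5444 c5617 c5429 (k8 c5612 c14686 c14877 c15014 c2866 c2215 c355 c5662 (k4 c5627 c3210 c3739 c5659 k0))) (by decide +kernel)
def c16400 : PP 9 3 T 0x140000220000000000040000100000004000000100014000000000000000000000000000000040000000020020040000000008000004402 := rS 0x21f472abe9f385be606efa5298af5766349cc8a1321a26fe1a (k8 c1056 c4562 c5567 c1949 c5564 c284 c5379 c9742 (k8 c15015 c5600 c5601 c5605 c6201 c669 c1062 c5667 (k4 c1349 c862 c1367 c356 (k2 c287 c1993 (k1 c9455 k0))))) (by decide +kernel)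
def c16401 : PP 9 3 T 0x100000000005a000220000000000000000100000004000200000000000000000000000000000000002000000000000020020041400020001000014402 := rS 0xebbce3ddba9fb3698521b3dbb73e3702fd94b438929220d47a7d4263309dd927340c4e4e6f3ee345e5f0bdfc10268e869630d859fd17ee20a4c52450990d12c4 (k8 c281 c5567 c1949 c5564 c284 c9693 c5444 c13854 (k8 c5281 c5583 c840 c5587 c5509 c5506 c1056 c2162 (k8 c5651 c280 c4562 c5433 c1054 c9707 c5569 c5566 (k8 c5565 c5383 c5382 c5380 c5379 c5396 c2053 c5445 (k8 c5395 c5398 c5448 c5526 c5522 c5374 c12614 c667 (k8 c354 c3599 c8097 c1343 c5464 c16399 c16400 c5349 (k8 c308 c601 c602 c5233 c1802 c4272 c4209 c3379 (k2 c3384 c5698 k0)))))))) (by decide +kernel)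
def c16402 : PP 9 3 T 0x50000000000000000000000000080000000000100000044004000000000000001010000000000000000000000000140000008000000000 := rS 0x40496f77a91e2a49 (k8 c5334 c3046 c5520 c5519 c5333 c354 c15060 c3593 k0) (by decide +kernel)
def c16403 : PP 9 3 T 0x202000001000000000000000100000004000200000014000000000010000800000100000000000000000000000000000000408000020000 := rS 0x76bafcad89136caaef29fdecff016e1d4ebdd924d46a50c8fd7fe3 (k8 c5464 c5014 c5318 c5393 c5399 c5449 c5444 c5210 (k8 c5617 c5428 c5429 c5612 c15011 c14686 c14877 c2866 (k8 c1836 c355 c5627 c5662 c15008 c6804 c2956 c3486 (k1 c5693 k0)))) (by decide +kernel)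
def c16404 : PP 9 3 T 0x1000000000042000221000000000000000000000004000200000000000000000000000000000000002000000000000000020000000020001000000012 := rS 0x3aef38f76ea7ecda61486cf6edcb8194b438040ff0b45c3606b17ffba3a41132b7640f2493c1647aca4ceec9dad2903273ee35e60d2284c8689148befe1a323758808 (k8 c280 c281 c4326 c15726 c1056 c4562 c9707 c9693 (k8 c5567 c1949 c5564 c284 c5522 c282 c5569 c5566 (k8 c5383 c5380 c16163 c9578 c5396 c2053 c5444 c16392 (k8 c5520 c5516 c5335 c5334 c9739 c5210 c5490 c5651 (k8 c13854 c2162 c5281 c11059 c5506 c5508 c5509 c5583 (k8 c5587 c840 c16401 c2858 c16402 c1342 c1343 c16403 (k8 c15016 c5349 c308 c601 c602 c5233 c1802 c4272 (k4 c4209 c3379 c3384 c5698 k0)))))))) (by decide +kernel)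
def c16405 : PP 9 3 T 0x400000000042000221000000000000000000000004000200000000000000000000000000000000000000000000000000020000000020000000000012 := rS 0x37a28e33f7cd66cb5a9c4489cf09d4d297d91748f1148834d68f4fa84c6614c9dd926403ed4e681899bcfa6d05d28be17 (k8 c5433 c1054 c16163 c5516 c665 c5566 c5565 c5382 (k8 c5380 c5379 c9578 c5432 c15726 c5396 c2053 c5447 (k8 c5445 c5395 c5398 c5448 c5526 c5523 c5522 c5374 (k8 c5371 c5520 c14849 c5210 c5404 c9742 c1527 c10637 (k8 c16398 c16404 c2755 c13705 c1090 c2760 c16289 c3599 (k4 c1777 c3604 c10493 c2950 k0)))))) (by decide +kernel)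
def c16406 : PP 9 3 T 0x142000220000000000000000100000004000200100000000000000000000020000010000000000000020000020040000000000008000412 := rS 0xd4e3ef381bba9efba47db670c2ab3dba3e0f51a94c6611997c2f7f86a2e17ee21a248a13 (k8 c5564 c284 c5567 c1949 c5658 c5587 c5583 c5509 (k8 c4562 c5433 c1054 c5316 c5445 c5395 c5399 c5449 (k8 c9739 c9713 c15016 c5349 c2216 c2215 c2091 c4416 (k8 c5213 c1098 c1099 c3192 c3982 c843 c1636 c5388 (k1 c3600 k0))))) (by decide +kernel)
def c16407 : PP 9 3 T 0x400000000042000221000000000000000000000004000200000000000000000000000000000000000000000000000000020000000000001000000012 := rS 0x9d10b2c97b86ec00e0cc08318fe09f0b11bebff99d7c6b46942d170d81ac7dcff8e9044c6956a5f640f1d87c464f1b91eb3113d9e526194da64eec92b8e47e070b8f76b93409f5e60d2284c8689148bc34643682e9435 (k8 c16405 c16163 c5516 c665 c15726 c1056 c9707 c9693 (k8 c5567 c1949 c5564 c284 c5522 c282 c5566 c5380 (k8 c13294 c9578 c5436 c5433 c5432 c5318 c5317 c5313 (k8 c5396 c2053 c5447 c5397 c5393 c5444 c5524 c5372 (k8 c5371 c16392 c5520 c5518 c5335 c5331 c5517 c5332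 (k8 c9739 c5210 c5404 c5490 c9742 c5651 c13854 c2162 (k8 c11059 c5658 c5506 c5508 c5509 c5583 c5587 c14662 (k8 c16402 c5579 c1969 c5548 c8097 c2514 c5668 c10637 (k8 c1627 c840 c3568 c12613 c839 c2858 c12473 c4573 (k4 c16406 c16399 c16403 c2608 (k2 c1342 c3578 k0))))))))))) (by decide +kernel)
def c16408 : PP 9 3 T 0x400000000042000221000000000000000000000004000200000000000000000000000000000004000000000000000000020000000000000000000012 := rS 0x1d58ad245fb8fd1d659c44e2456a5f65594fa84c6613bb24c9b5c9d28e681379f48a1321a24be17 (k8 c5433 c1054 c5567 c1949 c5564 c284 c5566 c5565 (k8 c5380 c5379 c16163 c13294 c9578 c15726 c5396 c2053 (k8 c5445 c5395 c5398 c5448 c16392 c5210 c5404 c5490 (k8 c16407 c60 c2755 c1090 c16393 c3599 c5658 c5583 (k4 c8156 c840 c1969 c5668 k0))))) (by decide +kernel)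
def c16409 : PP 9 3 T 0x40000000000000000000000100000004000200000000000000000000040000000000000004000000000000000000140010011008000000 := rS 0x7be3a41 (k4 c13854 c2162 c14662 c5658 k0) (by decide +kernel)
def c16410 : PP 9 3 T 0x42000221000000000000000000000004000200000000000000000000000000000004000000000000000000020000000000000000000012 := rS 0x7be3acb13891a635ef2b52fb2aca4c2fb5a51142643448a43464 (k8 c15726 c1056 c9693 c5567 c1949 c5564 c284 c16163 (k8 c9578 c5433 c5444 c16392 c5210 c5404 c5490 c16408 (k8 c5450 c5496 c16409 c60 c1090 c16393 c8156 c5658 k0))) (by decide +kernel)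
def c16411 : PP 9 3 T 0x2000221000000000000000000000004000200000000000000000000000000000004000000000000000000020000000000000000000012 := rS 0x67f859ad1efa7206d763fb9bee16af8fe71d8a1f96a2765acce3b656abd2e95d9566227b489acf28f5098d3673899bfdbb53bb24c8450990d126d05d28be17 (k8 c5433 c1054 c16163 c5516 c665 c5567 c1949 c5564 (k8 c284 c15726 c5396 c2053 c9578 c16395 c5565 c5382 (k8 c5379 c5397 c5395 c5398 c5526 c5524 c5523 c5374 (k8 c5372 c5371 c16392 c5210 c5488 c5404 c5406 c5490 (k8 c16410 c5571 c5574 c5420 c5570 c5422 c10494 c3604 (k8 c16393 c16289 c5577 c2999 c3058 c2950 c5658 c9140 (k8 c5507 c5508 c10556 c9031 c6604 c8709 c5458 c1650 (k1 c5688 k0)))))))) (by decide +kernel)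
def c16412 : PP 9 3 T 0x2000220000000000000000000000000000000000000000000000000000000000008000000000000001000400000400000002000400010 := rS 0x1c7e14e31dbee1f1c50fdf359b2d6a71889ed226b3ca3d3ea131a6cc27340c4cde7d (k8 c5566 c5565 c5382 c5380 c5379 c5445 c5397 c5395 (k8 c5398 c5448 c5526 c5524 c5523 c5374 c5372 c5371 (k8 c2755 c4007 c1090 c2760 c16289 c3599 c3604 c5577 (k4 c3058 c2950 c9140 c10556 (k2 c5458 c1777 (k1 c5691 k0)))))) (by decide +kernel)
def c16413 : PP 9 3 T 0x42000221000000000000000000000004000200000000000000000000000000000000000000000000000000020000000000000000000012 := rS 0x69b546bde20a4c53ee8e895545f3682c2e47a5068c843449142759 (k8 c16392 c5564 c284 c5567 c1949 c15726 c1056 c16163 (k8 c5520 c5433 c5516 c665 c1054 c16411 c16412 c2162 (k8 c5658 c9693 c5444 c13854 c16407 c5450 c5454 c5496 (k1 c9641 k0)))) (by decide +kernel)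
def c16414 : PP 9 3 T 0x2000221000000000000000000000004000200000000000000000000000000000000000000000000000000020000000000000000000012 := rS 0x18a75ef9f9a5b645fba3a255517cda1ad902c8f59509dd92640be4e94732284c8689 (k8 c5567 c1949 c5564 c284 c5379 c16163 c13294 c5433 (k8 c15726 c5396 c2053 c5398 c16392 c5520 c5516 c5210 (k8 c1056 c665 c1054 c16411 c16412 c2162 c5658 c5583 (k4 c16413 c11200 c10494 c5496 (k2 c1969 c840 (k1 c5668 k0)))))) (by decide +kernel)
def c16415 : PP 9 3 T 0x2000221000000000000000000000004000200000000000000000000000000000000000000000000000000040000000000000000000010 := rS 0x3359fe1622a938341086c040179961e2977e87553b22e8ec3e237b8ddea7b06a4c329b30a6466390be4fdbb5a51dd9264 (k8 c15726 c5396 c2053 c16163 c9578 c16395 c13294 c5433 (k8 c5317 c5316 c5447 c5445 c5397 c5393 c5444 c5522 (k8 c5372 c5519 c5518 c5333 c5331 c5517 c5332 c14849 (k8 c5210 c5489 c5486 c5405 c5404 c9695 c5644 c282 (k8 c16414 c5642 c5280 c265 c15810 c3578 c3581 c281 (k4 c5458 c1650 c2075 c10805 k0)))))) (by decide +kernel)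
def c16416 : PP 9 3 T 0x2000221000000000000000000000004000200000000000000000000000000000000000000000000000000000000000000000000000010 := rS 0x387c7003f35e06ff45b8c84458af85a6d514273bdb71289c42c53aa14351d01169127d3784e268d40bc4761f1182c6ef523d650e9106a0d1e930ca6d32776499072070b8c7274a (k8 c16163 c13294 c5434 c5433 c5432 c5317 c15726 c5396 (k8 c2053 c5447 c5397 c5393 c5444 c5526 c5525 c5522 (k8 c5374 c5373 c16392 c5520 c5519 c5518 c5516 c5331 (k8 c5517 c5332 c9695 c5380 c5381 c5382 c5564 c5565 (k8 c5566 c5567 c16415 c1893 c4516 c1892 c683 c1894 (k8 c681 c265 c267 c1113 c16091 c5668 c3578 c5651 (k8 c5454 c5496 c5458 c4087 c456 c1310 c1778 c686 (k8 c11059 c1935 c1933 c5278 c3613 c5287 c3058 c9158 k0)))))))) (by decide +kernel)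
def c16417 : PP 9 3 T 0x2000021000000000000000000000004000200000000000000000100000000000000000000000000000000000000040020000000000012 := rS 0x138ce66c0022803ff85887534a5cbaf77ac44f66b3ca640f93f6866064545f7d96af4ab5d5be36a9f5a5ee50edb4359d91dd926d05d28be1779960c80d (k8 c5522 c15726 c1057 c282 c5433 c1054 c16163 c5516 (k8 c665 c5396 c2053 c5210 c16392 c16416 c5212 c5398 (k8 c5219 c11200 c2828 c5585 c6616 c5490 c5507 c5488 (k8 c5406 c5420 c9031 c5583 c5582 c5508 c5393 c16056 (k8 c13294 c5432 c5447 c5524 c5523 c5372 c5371 c5519 (k8 c5333 c14849 c5404 c9742 c1527 c281 c10637 c840 (k4 c5670 c699 c8527 c2078 (k2 c10805 c16082 (k1 c1650 k0))))))))) (by decide +kernel)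
def c16418 : PP 9 3 T 0x2000101040000000000000100000004000200000000000000000000000000000000000000000080000000000000040000001000000000 := rS 0x1127408314263f8ea2da5ee64a876db2 (k8 c5210 c5212 c5398 c5396 c5219 c11200 c5583 c5504 (k4 c5318 c2917 c840 c12617 (k2 c16091 c2749 (k1 c1969 k0)))) (by decide +kernel)
def c16419 : PP 9 3 T 0x2000021000000000000000000000004000200000000000000000000000000000000000000000000000000000000040000001000000012 := rS 0x8621fc6a93319847e07c99f5a5ee50ec8eec93217c2ee1200f433b6d0d64774a (k8 c16163 c5332 c16392 c16416 c5212 c5393 c5436 c13340 (k8 c1714 c5433 c1054 c15726 c5396 c2053 c5210 c5398 (k8 c5219 c11200 c2828 c13294 c5432 c5318 c5445 c5395 (k4 c5444 c16417 c16418 c8433 (k2 c16127 c1627 k0))))) (by decide +kernel)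
def c16420 : PP 9 3 T 0x2000021000000000000000000000004000200000000000000000000000000000000000000000000000000000000000000001000000012 := rS 0xcf668d5a27462c50fd13408411042378edee377ac45226b3ca0d1e63308cc720718e4ce2b339ad5ae8b6a9f5a5ee50edb4359d91dd926d05d28be1779960c80d (k8 c5522 c15726 c1057 c282 c5433 c1054 c16163 c5516 (k8 c665 c5396 c2053 c5210 c16392 c16416 c5212 c5398 (k8 c5219 c11200 c2828 c5585 c5583 c5507 c5422 c5419 (k8 c5574 c5571 c13294 c5434 c5432 c5317 c5316 c5445 (k8 c5395 c5526 c5525 c5524 c5523 c5374 c5371 c5519 (k8 c5518 c5333 c5332 c1060 c16419 c1949 c1950 c699 (k8 c703 c9934 c3604 c840 c2922 c6604 c281 c8354 (k2 c1530 c3587 k0)))))))) (by decide +kernel)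
def c16421 : PP 9 3 T 0x2000021000000000000000000000004000200000000000000000000000000000000000000000000000000000000040020000000000012 := rS 0x1027f70310f793a522fc6d53eb4bdca1db686b3b23bb24b064 (k8 c15726 c1057 c5396 c2053 c5210 c16392 c16416 c5212 (k8 c5398 c5219 c11200 c2828 c5585 c6616 c5583 c16163 (k4 c13294 c5372 c281 c16417 (k2 c840 c1716 (k1 c5670 k0))))) (by decide +kernel)
def c16422 : PP 9 3 T 0x400000000000000101040000000000000000000000000000000000000000000000080000000000010000040080400000000000040000002000000000 := rS 0x893a0418a6f (k4 c2919 c840 c12972 c5668 (k2 c2749 c1969 k0)) (by decide +kernel)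
def c16423 : PP 9 3 T 0x2000021000000000000000000000004000200000000000000000000000000000000000000000000000000000000040000000000000012 := rS 0xcd6340012e108b11007f1a83c76f7058ddea7b3c95c7207c9d2a064545f7d96af4ab5d5be36a9f5a5ee50edb4359d91dd92f32c1901a24 (k8 c16420 c5522 c15726 c1057 c282 c5396 c2053 c5210 (k8 c16392 c16416 c5212 c5398 c5219 c11200 c2828 c5585 (k8 c6616 c5490 c5507 c5488 c5406 c5420 c9031 c5583 (k8 c5582 c5508 c16163 c13294 c5432 c5317 c5313 c5524 (k8 c5372 c5519 c5518 c5516 c5333 c5332 c9739 c16421 (k8 c16422 c5670 c8433 c699 c1716 c1627 c8527 c3568 (k2 c2078 c839 k0))))))) (by decide +kernel)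
def c16424 : PP 9 3 T 0x2000021000000000000000000000004000200000000000000000000000000000000000000000000000000000000000000000000000012 := rS 0x19ecd1ab44e8c58a1fa26813784110427997cda58018edee0b1bbd62291069acf2834798cc2331c81c2e31c9d28e2b339ad5ae8b6a9f5a5ee50edb4359d91dd9264 (k8 c15726 c5396 c2053 c5210 c16392 c16416 c5212 c5398 (k8 c5219 c11200 c2828 c5585 c5583 c5507 c5422 c5419 (k8 c5574 c5571 c16163 c13294 c5434 c5433 c5432 c5317 (k8 c5316 c5445 c5395 c5526 c5525 c5524 c5523 c5522 (k8 c5374 c5371 c5519 c5518 c5516 c5333 c5332 c28 (k8 c1057 c665 c1054 c282 c16423 c1949 c1950 c2746 (k8 c699 c703 c9934 c3604 c840 c2922 c6604 c281 (k2 c8354 c1530 (k1 c3587 k0))))))))) (by decide +kernel)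
def c16425 : PP 9 3 T 0x82000101040000000000000000000004000200000000000000000000100000000000000000040010000000020000100000000000000009 := rS 0x920020080dbc764c9 (k8 c5396 c5210 c9695 c1944 c15918 c15187 c16087 c1745 (k1 c36 k0)) (by decide +kernel)
def c16426 : PP 9 3 T 0x2000021000000000000000000000004000200000000000000000000000000000000000000000000000000000000000000000000000010 := rS 0x18a752d16404013eb49aa8b22b5fddb6d0e4c6207d91769559509dd9264 (k8 c15726 c5396 c2053 c5398 c16392 c16163 c14849 c5210 (k8 c5432 c5434 c13294 c16416 c5212 c5219 c5507 c5582 (k8 c5583 c5585 c11200 c2828 c16424 c5642 c16425 c5644 (k2 c1894 c681 (k1 c16097 k0))))) (by decide +kernel)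
def c16427 : PP 9 3 T 0x42000221040000000000000000000004000000000000000000000000000000000000000000000000000000000000000000001000000012 := rS 0x5f63a7412e11f37fe7e35a32b6b03f73fc823d134755bb22491eb3113d9acf2934f98d371314868da0ba53cc1a450990cb06444b37bd29 (k8 c16426 c5214 c5495 c5567 c15726 c1057 c1949 c5564 (k8 c284 c5522 c282 c16163 c5516 c665 c1056 c9693 (k8 c5382 c5397 c5395 c5448 c5444 c5524 c5523 c5372 (k8 c5371 c16392 c5520 c5334 c5210 c5490 c2162 c5651 (k8 c12427 c13854 c11059 c5658 c5508 c15215 c15107 c16402 (k8 c5464 c5548 c2514 c5655 c3056 c275 c1343 c9140 (k2 c1055 c13168 k0))))))) (by decide +kernel)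
def c16428 : PP 9 3 T 0x41000000000000000000000000000000000000000080000000100200000004000000000020000000000000000000000000000000000001000000000000000 := rS 0xf1905ace0810edefe1 (k8 c5459 c5333 c5332 c6335 c2202 c2201 c1714 c5465 (k1 c8051 k0)) (by decide +kernel)
def c16429 : PP 9 3 T 0x42000221040000000000000000000004000000000000000000000000000000000000000000000000000000000000000000000000000012 := rS 0x38d94d7f7475a0ff1c8f7db14f982063b559ad40e71138919acf1af795fb21d87dee377a91eb311489ad1f2939c4cde7d0195cda0ba50cc34c9798348a1321960c889 (k8 c5567 c15726 c1057 c1949 c5564 c284 c5522 c282 (k8 c5396 c1056 c2043 c16163 c5516 c665 c9758 c28 (k8 c5566 c5565 c5382 c5379 c16426 c5526 c5523 c5374 (k8 c5371 c16392 c5520 c5519 c5518 c5333 c5517 c5332 (k8 c5210 c5406 c5214 c5450 c5453 c5495 c16427 c60 (k8 c2755 c15046 c1094 c2760 c13524 c1946 c5643 c16289 (k8 c3604 c16394 c1512 c273 c3010 c3587 c16428 c5658 (k4 c5507 c15107 c1779 c1293 k0)))))))) (by decide +kernel)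
def c16430 : PP 9 3 T 0x2000220080000000000000100080004000100000000000000000000000000000000000000000000000020000000000000000010000012 := rS 0x7145070ca5981d6a711f891550113c73ded5ef0c46bb53a9fc125f078ec3e3723c44f691069ad1e7346c4cde031495cda0b1986992450990cb089 (k8 c5567 c1057 c1949 c5564 c284 c5396 c1056 c2043 (k8 c5516 c665 c9758 c9693 c28 c5565 c5382 c5381 (k8 c5379 c5526 c5523 c5522 c5374 c5372 c5371 c5520 (k8 c5518 c5517 c5332 c9739 c5439 c5438 c5358 c5440 (k8 c8483 c280 c1945 c5653 c5454 c5725 c5658 c351 (k8 c10477 c16393 c2162 c405 c668 c1345 c15046 c2760 (k4 c12830 c11223 c3604 c1293 (k1 c2618 k0)))))))) (by decide +kernel)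
def c16431 : PP 9 3 T 0x2000221000000000000000000000004000000000000000000000000000000000000000000000000000000000000000000000000000012 := rS 0x11df7ac5a7b6ef64c86452c0683bb23252ab2a164ca42689 (k8 c5567 c5564 c16426 c5396 c5398 c16392 c16163 c15726 (k8 c5210 c5486 c1056 c1057 c284 c1949 c16430 c5214 (k4 c16429 c5496 c5421 c11200 (k2 c2161 c5658 k0)))) (by decide +kernel)
def c16432 : PP 9 3 T 0xa000220000000000000000000080000000000200000040001000000000000000000000000000000000000020004000014020004000008 := rS 0x385bee36b0f060173fb1c0c974a8dc8e7b489e51e9364a06267d1f8676ab580aa83ef57e875522111bcc1af7 (k8 c5333 c5522 c282 c5331 c265 c5489 c5486 c5405 (k8 c5519 c5517 c3581 c2139 c1345 c10456 c5393 c404 (k8 c5566 c5382 c5380 c5396 c5444 c5526 c5524 c5374 (k8 c5372 c5520 c5518 c5488 c5404 c14824 c13650 c677 (k8 c15092 c3577 c2164 c2163 c1493 c2770 c1721 c3610 k0))))) (by decide +kernel)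
def c16433 : PP 9 3 T 0x42000221000000000000000000000004000000000000000000000000000000000000000000000000000000020000000000000000000010 := rS 0x78f25df1912e0235f7c7206cd556d7da430dbcd5afd0eaa7641f11bdc920b7a91e947b48b265289108348a281384eb22501004def1 (k8 c9695 c5565 c16431 c5642 c1113 c16392 c5564 c267 (k8 c5651 c456 c5522 c265 c5567 c16426 c5396 c5374 (k8 c5372 c16163 c5520 c5519 c5516 c5334 c5333 c5331 (k8 c5517 c5210 c5489 c5486 c5405 c5490 c282 c1944 (k8 c1949 c15987 c10456 c3581 c2075 c12094 c15091 c5504 (k8 c10024 c2139 c9182 c16432 c5492 c8428 c15157 c5166 k0)))))) (by decide +kernel)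
def c16434 : PP 9 3 T 0x2000000000000000000000100080000000100000000000000000040000000002000000001000080000000004000000000020100000000 := rS 0xe53a17203847be311a647e19 (k8 c5393 c404 c5447 c5331 c5577 c2765 c3058 c5655 (k4 c1308 c1343 c547 c15623 k0)) (by decide +kernel)
def c16435 : PP 9 3 T 0x40000000000000100000000000100000000000000000000000000002000000504000010000000000000004440000441001048 := rS 0x107c6e065270723d0b820ae21 (k8 c265 c9757 c5643 c1108 c1512 c273 c3578 c1342 (k4 c1343 c5464 c1714 c5655 k0)) (by decide +kernel)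
def c16436 : PP 9 3 T 0x1040000000000000000000004000100000000000000000000040000002000000504150150400000010000084000000001001018 := rS 0xd6209d40cd562f78761f118de9559 (k8 c16392 c16163 c5518 c5331 c5517 c5332 c5214 c5451 (k4 c5454 c16435 c1453 c1734 (k2 c3608 c1934 k0))) (by decide +kernel)
def c16437 : PP 9 3 T 0x42000221000000000000000000000004000000000000000000000000000000000000000000000000000000000000000000000000000010 := rS 0x6b315c6cff0a73247f36ed5beb466aabdad3802c084ff45a14351d2d1647f15228a1e297d9174460b7a91e95593da1d226b41a4c329b30a64eec9324a5028d899f51257108344e1312808026f (k8 c5565 c16431 c5642 c1113 c5564 c267 c5522 c265 (k8 c9757 c5567 c5566 c5382 c5381 c5380 c16426 c15726 (k8 c5396 c2053 c5447 c5445 c5397 c5393 c5444 c5525 (k8 c5523 c5374 c5373 c5372 c16392 c16163 c5520 c5519 (k8 c5516 c5331 c14849 c5210 c5404 c9695 c5651 c456 (k8 c1289 c404 c16433 c5644 c4516 c1892 c683 c686 (k8 c11059 c1310 c1309 c15061 c2085 c5502 c2143 c4459 (k8 c2144 c2952 c5413 c2610 c16434 c16436 c10443 c12084 (k4 c1650 c1778 c10805 c11742 (k1 c2146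 k0)))))))))) (by decide +kernel)
def c16438 : PP 9 3 T 0x4000000000018000020000000000000000100000000000100000400000051000000800100000100000004010110004020020000400054010441040011 := rS 0x37dc67f708f07f0320b1e38aa0310c364579ab5fa1d549ed227947884040d (k8 c5522 c5642 c265 c5526 c5524 c5374 c5372 c5489 (k8 c5486 c5405 c5490 c282 c284 c1944 c1949 c14824 (k8 c3581 c9423 c13650 c1734 c2199 c405 c5655 c1721 (k4 c677 c1493 c2770 c3610 k0)))) (by decide +kernel)
def c16439 : PP 9 3 T 0x4000000000000002000220000000000000000100000004000000100000000010000000840400000000000000001000000000080000500440000540000000 := rS 0x9d0b8e5c4df2040084ff45a1d2283498653699 (k8 c5447 c5397 c5393 c5444 c5525 c5374 c5373 c686 (k8 c11059 c5658 c15061 c1934 c2952 c2146 c547 c1736 (k2 c1777 c3578 k0))) (by decide +kernel)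
def c16440 : PP 9 3 T 0x2000221000000000000000000000004000000000000000000000000000000000000000000000000000000000000000000000000000010 := rS 0x451bce3f09d412e11f10602441ea163a5a2cb5bc6d366b3c6ac5ef0cfdf93f9ed56ab114b2d6671db0944e2101005127d3784e268139bc55aaf4aec8ba3b0f88dee49058ddea47a5566227b43834f28349a84329b3bb24c929 (k8 c16426 c15726 c5396 c2053 c5397 c5393 c5398 c5444 (k8 c5525 c5524 c5522 c5373 c5372 c5371 c16392 c16163 (k8 c5520 c5519 c5518 c5516 c5334 c5333 c5331 c5517 (k8 c5332 c14849 c5210 c5488 c5406 c5490 c9695 c5379 (k8 c5380 c5382 c5564 c5565 c5566 c5567 c16431 c5642 (k8 c265 c267 c1113 c16437 c5571 c5574 c5420 c5417 (k8 c5421 c5422 c8114 c8140 c12830 c15107 c8428 c5214 (k8 c5451 c5450 c5453 c5495 c5496 c6601 c9031 c16438 (k8 c5644 c4516 c683 c1492 c16439 c3066 c458 c5655 (k8 c3056 c275 c1895 c8115 c15064 c5691 c9334 c2950 k0)))))))))) (by decide +kernel)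
def c16441 : PP 9 3 T 0x400000000000000000000000000000000000000004000100000000000000000000080100000000000000000000000020000000000000000000000102 := rS 0x35188ccb01a (k4 c1056 c1057 c2043 c4381 (k2 c280 c5653 k0)) (by decide +kernel)
def c16442 : PP 9 3 T 0x1000000000000012000001000000000000000000000004000100000000000000000000000000000000000000000000100000020000000000000000401111 := rS 0x2a8641b7996de2977e87553b20f88deef5a524c4202 (k8 c5642 c265 c5444 c16163 c5519 c5333 c5331 c5517 (k8 c5210 c5489 c5486 c5405 c5404 c9695 c32 c282 (k4 c1944 c16300 c3581 c16301 k0))) (by decide +kernel)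
def c16443 : PP 9 3 T 0x1004400000000000000121080000000000000100080000000100000000040000000000000000000000000144141000000000010000101020000100400000 := rS 0x33fc29c66c0226897084080d11fbc4760b (k8 c5516 c5332 c9695 c441 c1704 c5655 c13127 c1714 (k8 c2750 c703 c14852 c2078 c15161 c5458 c1650 c5688 k0)) (by decide +kernel)
def c16444 : PP 9 3 T 0x2000021000000000000000000000004000000000000000000000000000000000000000000000000000000000000000000000000000010 := rS 0x11525895a0111f3359e41183146a3d428ccb4590b8840401da9d4fe092f9f7c7edefe49a4ff6aa2c8b036ba356ab113b2d67eedb0a743293ba65921950a7d26ad57a5d2bb2321743e232482c6ef523d2ab20d (k8 c5522 c16392 c16163 c5520 c5519 c5518 c5516 c5334 (k8 c5331 c5517 c14849 c15726 c5210 c5488 c5404 c5406 (k8 c5490 c5444 c5448 c5398 c5393 c5396 c5447 c2053 (k8 c16426 c16440 c8199 c5212 c5219 c5574 c5420 c5570 (k8 c5421 c5422 c5505 c5507 c5508 c5582 c5583 c5585 (k8 c5586 c11200 c15107 c8161 c14706 c6616 c2828 c5439 (k8 c5438 c5358 c5440 c8483 c16441 c5642 c265 c1107 (k8 c16442 c5644 c4438 c683 c2769 c16443 c682 c9931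 (k8 c1738 c1473 c1916 c8160 c15195 c8127 c2909 c12638 (k2 c6604 c3584 k0)))))))))) (by decide +kernel)
def c16445 : PP 9 3 T 0x1000000000051000220000000000000000100000000000000000000000000000000000000000000000800000000011000000000400000014040000000 := rS 0x141e28a7cd66b512445226b479ce266f (k8 c5565 c5382 c5379 c5526 c5523 c5374 c5371 c5651 (k4 c1094 c2760 c16289 c3604 (k2 c5198 c1191 (k1 c5578 k0)))) (by decide +kernel)
def c16446 : PP 9 3 T 0x221000000000000000000000004000200000000000000000000000000000000000000000000000000000000000000000000000012 := rS 0x101c11d6bc516ab159edb6a9a55784e2d013b3daad3668d5907462b2c8645799dcc46d2c06852690eec8c83b0fbdc16377a91eb31148834d67941a3f62331c8fc623dc9d28e713099bcfa89 (k8 c5567 c5566 c5565 c5564 c5382 c5379 c16163 c13294 (k8 c5436 c5434 c5318 c5317 c5316 c16444 c5526 c5525 (k8 c5524 c5523 c5522 c5374 c5371 c16392 c5520 c5519 (k8 c5518 c5516 c5333 c5517 c5332 c15726 c5210 c5486 (k8 c9742 c9693 c1056 c1057 c665 c16365 c4442 c282 (k8 c284 c1949 c4102 c837 c1172 c1171 c281 c8354 (k8 c1969 c1532 c1530 c15874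 c3587 c668 c5459 c2133 (k8 c2134 c5413 c16445 c5574 c5421 c5422 c3604 c2189 (k4 c2161 c1192 c3588 c1714 k0))))))))) (by decide +kernel)
def c16447 : PP 9 3 T 0x1000000000000011000020000000000000000000000000000000201400040000000000000000000008001040000150004004420000000420000000000000 := rS 0xdae36fb8536c76a34589df489e51ecd (k8 c2076 c5526 c5524 c5374 c5450 c281 c1704 c553 (k4 c839 c1190 c15133 c3003 (k2 c1663 c14947 (k1 c5864 k0)))) (by decide +kernel)
def c16448 : PP 9 3 T 0x1000400000000001000021040000000000000000000000000200000000000000000000000000000008000000000000500004400000000410000000004400 := rS 0x1360968b101a57 (k4 c5313 c5522 c5668 c10484 (k2 c1627 c1190 (k1 c9123 k0))) (by decide +kernel)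
def c16449 : PP 9 3 T 0x40000221000000000000000000000004000200000000000000000000000000000000000000000000000000020000000000000000000010 := rS 0x267c29b68327bc358e1fd3a752fc0cc0aadafb4861b799dd5a977e8752aa9d903c761f7b92416377a91cf7b119e4d03133ea24c62106915e31511d2942281384eb22501004de19 (k8 c5315 c5565 c16446 c5642 c1113 c16392 c5564 c267 (k8 c5651 c1195 c16163 c5331 c1289 c9695 c456 c5522 (k8 c265 c9752 c5567 c5566 c5382 c5380 c13294 c5316 (k8 c16444 c5372 c5520 c5519 c5518 c5516 c5334 c5333 (k8 c5517 c5332 c9739 c5210 c5489 c5488 c5486 c5405 (k8 c5404 c5490 c2051 c282 c1944 c1949 c15987 c10456 (k8 c3581 c15897 c12094 c62 c1575 c1696 c729 c15091 (k8 c16447 c16448 c5494 c9979 c1189 c5459 c1595 c5679 k0)))))))) (by decide +kernel)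
def c16450 : PP 9 3 T 0x1000000040000000000000000080000000200000000000000000000001000000000000000000001800460000000000000000100000008 := rS 0x2653a612f3207623 (k8 c5331 c5332 c2053 c2054 c724 c1276 c1520 c14193 k0) (by decide +kernel)
def c16451 : PP 9 3 T 0x40000221000000000000000000000004000200000000000000000000000000000000000000000000000000000000000000000000000010 := rS 0x1e067f8fbc77dab3555f36ab5e00b0213fd167562a14351d2d1648a287899cc85d05bd48f593da1d226b3ca0f6207188f7274a40a34fa89108344e1312808026f (k8 c5565 c16446 c5642 c1113 c5564 c267 c5522 c265 (k8 c5567 c5566 c5381 c5380 c16163 c13294 c5436 c5434 (k8 c5432 c16444 c5525 c5524 c5523 c5374 c5373 c5372 (k8 c16392 c5520 c5519 c5516 c14849 c15726 c9680 c9695 (k8 c5651 c456 c16449 c5644 c4516 c1892 c683 c681 (k8 c1894 c686 c11059 c1310 c1309 c15061 c1933 c2778 (k8 c5592 c2143 c4459 c5413 c16450 c5668 c5287 c5453 (k2 c5198 c8115 k0)))))))) (by decide +kernel)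
def c16452 : PP 9 3 T 0x10000001000000000000000000000004000000000000000000000000000000001500000000010000004000020000000000010000041011 := rS 0x22a4b7f407df038e2abda430d915e6f156abdfa1d54ec8c8f705bd7e6252389c42021187c934a (k8 c16163 c5334 c5517 c5331 c5642 c265 c267 c5520 (k8 c1113 c8140 c5519 c5516 c5333 c15726 c5210 c5489 (k8 c5486 c5405 c5406 c5490 c9695 c282 c284 c1944 (k8 c1949 c15987 c3581 c9423 c2199 c5504 c10477 c6335 (k2 c9182 c3010 (k1 c3584 k0)))))) (by decide +kernel)
def c16453 : PP 9 3 T 0x1000000040000000000000000080000000200000000020000000000000400000000004000000001804460000000000000014100000018 := rS 0x2038142936617876191f85c7a25 (k8 c1113 c5436 c5433 c5318 c5315 c5332 c2054 c16450 (k4 c1517 c1121 c2078 c3579 (k1 c1714 k0))) (by decide +kernel)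
def c16454 : PP 9 3 T 0x8000800000000089000200040000000000000000000000000000000000000000000000000000000000000000000000100004000000000000000000000000 := rS 0xc25f3f2811a6f38b5592d3 (k8 c5496 c5494 c5454 c5571 c5565 c5381 c11200 c5725 (k2 c1121 c728 (k1 c5663 k0))) (by decide +kernel)
def c16455 : PP 9 3 T 0x221000000000000000000000004000200000000000000000000000000000000000000000000000000000000100000000000000010 := rS 0xc25f3f281ae42f7b4d92d5ef1de00ff4599d5aaf4ba5764f523d650e91359e507b1c9a051a7d318844e0238a7d971d32214174a6281cea5a2ced622735aac452b3db005126f09834ba31 (k8 c5434 c14849 c5522 c5564 c5565 c5567 c16446 c16451 (k8 c5574 c5417 c5421 c5422 c5379 c5371 c8114 c16452 (k8 c5644 c1894 c5432 c681 c16163 c5516 c683 c15726 (k8 c4516 c5420 c5572 c5571 c5642 c267 c265 c9752 (k8 c5566 c5381 c5380 c13294 c16444 c5525 c5524 c5523 (k8 c5374 c5373 c16392 c5520 c5519 c5210 c5488 c5404 (k8 c5406 c5490 c9680 c686 c11059 c15061 c16453 c5668 (k8 c5454 c5494 c5496 c16454 c5658 c1933 c10481 c10269 (k2 c1121 c728 (k1 c5663 k0)))))))))) (by decide +kernel)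
def c16456 : PP 9 3 T 0x221000000000000000000000004000200000020000000000000000000000000010000000000000000000000000000000000000010 := rS 0x76bbf50ddbcf971ff0d2ddd47b87cbaeff87fb83c9e0b19c9f1b7d38af70b6f3236d92d9f1b595e9556820c092658647a254f85c8235ef1dda63ff7ec44e7d46a5f6467c9d298a073a968b3b5889cd6ab114acf6c893784c1a5d189100401 (k8 c16446 c5642 c16455 c5434 c14849 c5522 c5564 c5565 (k8 c5567 c16451 c5574 c5417 c5421 c5422 c5379 c5371 (k8 c8114 c16452 c5644 c1894 c5432 c681 c16163 c13294 (k8 c9680 c5210 c5404 c5381 c5566 c267 c16444 c5582 (k8 c5318 c2936 c14463 c5668 c5450 c458 c5433 c5572 (k8 c1113 c5436 c5315 c5420 c3579 c262 c261 c5490 (k8 c5488 c5406 c9031 c6601 c5497 c5494 c5455 c15726 (k8 c4559 c5423 c5575 c5571 c9704 c5569 c5383 c5316 (k8 c5516 c5335 c9739 c5640 c2208 c2207 c3360 c3492 (k8 c15069 c5614 c5613 c8937 c15067 c1581 c6451 c730 (k4 c5513 c5671 c1838 c4315 (k1 c5693 k0)))))))))))) (by decide +kernel)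
def c16457 : PP 9 3 T 0x100000004000000000080000000000000000000000000000000000000000000000000200000000000000000 := rS 0x166917c7efef (k4 c5582 c5598 c5515 c3117 (k2 c5173 c5351 k0)) (by decide +kernel)
def c16458 : PP 9 3 T 0x221000000000000000000000004000200000000000000000000000000000000010000000000000000000000000000000000000010 := rS 0x300221a920793c16190b8f44a714faf59785208d7bc77698ffdfb1139f51a024bec8cf93a53140e752d1676b1139ad5622959ed802893784c1a5d18c3c8959 (k8 c16392 c16455 c16457 c5434 c14849 c5522 c5564 c5565 (k8 c5567 c16446 c16451 c5574 c5417 c5421 c5422 c5379 (k8 c5371 c8114 c16452 c5644 c1894 c5432 c681 c16163 (k8 c13294 c9680 c5210 c5404 c5642 c5381 c5566 c267 (k8 c16444 c5582 c5318 c2936 c14463 c5668 c5450 c458 (k8 c5423 c5420 c5575 c5572 c5571 c1113 c5436 c5433 (k8 c5315 c5516 c5335 c9739 c3579 c16456 c261 c262 (k1 c15068 k0)))))))) (by decide +kernel)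
def c16459 : PP 9 3 T 0x4000800000000101000020040000000000800000000000000000000040000000000000000000000000000000000000000000001040015005000000004400 := rS 0xf2e94a635 (k4 c5450 c5605 c6201 c9321 (k1 c5237 k0)) (by decide +kernel)
def c16460 : PP 9 3 T 0x221000000000000000000000004000200040010000000000000000000000000000000000000000000000000000000000000000110 := rS 0x5d62f4967dc954464f26a451e3389c9f1b7d12af70b6f3243eb2101e9046bde3bb4fde2746a5f6467629d4b459dac44e6b5588a566890997462443f9c76c3f3ea04d8c61b82cf6790695c720f038ecc05f501bf6393a518c0401 (k8 c16446 c5642 c9752 c16163 c13294 c16444 c5565 c16458 (k8 c1121 c5663 c5332 c5432 c9739 c5317 c5313 c5522 (k8 c5524 c5372 c5516 c5518 c3568 c726 c5380 c5566 (k8 c5318 c16451 c5571 c728 c16455 c5434 c14849 c5564 (k8 c5567 c5574 c5417 c5421 c5422 c5379 c5371 c8114 (k8 c16452 c5644 c1894 c681 c9680 c5210 c5404 c5381 (k8 c267 c5582 c2936 c14463 c5668 c5450 c458 c5436 (k8 c12613 c16392 c16457 c15726 c4559 c5423 c5575 c1113 (k8 c9704 c5569 c5383 c5382 c5316 c5526 c5374 c5521 (k8 c5335 c5331 c463 c15138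 c16459 c5213 c5390 c15139 (k1 c2663 k0))))))))))) (by decide +kernel)
def c16461 : PP 9 3 T 0x400004000000000208000000000050000000000000000000000000000000000000040015000100000000420000000000000000000000000000000000000000 := rS 0x1d8a4f2bbd46bf4be0d2b91 (k8 c5491 c5488 c5407 c5404 c5431 c5614 c3111 c6451 (k2 c3619 c5693 (k1 c3484 k0))) (by decide +kernel)
def c16462 : PP 9 3 T 0x400000000000000110000020001000000000400100000004000040040400000000000000000000100000000000000000002000000010200000000400020008 := rS 0x316bad22451fef (k4 c5582 c5526 c5374 c5213 (k2 c15142 c5390 (k1 c2663 k0))) (by decide +kernel)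
def c16463 : PP 9 3 T 0x80000000000000000000000000080000000001400001000000000000000000000000100015100000000 := rS 0x22a4b0f88c9247 (k4 c5520 c5334 c5331 c5517 (k2 c2510 c2951 (k1 c3584 k0))) (by decide +kernel)
def c16464 : PP 9 3 T 0x4000000000208000000000050000000000000000000000000000020000000000005000100000000420000000000000000000000000000000000000000 := rS 0xef6e2ffeeeb (k4 c3360 c5640 c5431 c16461 (k2 c3111 c2210 k0)) (by decide +kernel)
def c16465 : PP 9 3 T 0x221000000000000000000000004000200000000000000000000000000000000000000000000000000000000000000000000000110 := rS 0x3e1467d9534bafb36e5f37fc3fde18a7360418c9a078ec9e372695c663d40c9f1abdc2b6d92d9208d61f593f9c6291b7037d3a602f98c73e171b3d0a0b89b3507013ca1cf7f31291c42230f927c7de3bb4c7fef226c44e7d468092e67c9d298a073a968b3b5889cd6ab114acc02893784c1a5d18ecb6ca0 (k8 c16458 c16451 c5210 c5434 c14849 c5522 c5564 c5565 (k8 c5567 c16446 c5574 c5417 c5421 c5422 c5379 c5371 (k8 c8114 c16452 c5644 c1894 c5432 c681 c16163 c13294 (k8 c9680 c5404 c5642 c5381 c5566 c267 c16444 c16455 (k8 c5582 c5318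 c2936 c14463 c5668 c6601 c5334 c5517 (k8 c5331 c265 c5520 c1113 c8140 c5372 c5373 c5524 (k8 c3066 c5525 c8354 c5382 c5516 c683 c5453 c15064 (k8 c8115 c5317 c9752 c1121 c5663 c1696 c16463 c5691 (k8 c5039 c10309 c5571 c728 c16392 c16457 c5450 c458 (k8 c5497 c5494 c5455 c5423 c5575 c5569 c5383 c5380 (k8 c5436 c5316 c5313 c5521 c5518 c5335 c5332 c9739 (k8 c9123 c3568 c12613 c726 c4119 c16460 c5640 c2208 (k8 c2207 c3492 c16464 c16462 c5603 c6201 c16459 c1900 (k2 c462 c5674 (k1 c5624 k0))))))))))))))) (by decide +kernel)
def c16466 : PP 9 3 T 0x221000000000000000000000004000200000000000000000000000000000000000000000000000000000000000000000000000010 := rS 0x1b97cdff0f0c4929d34088a381be9d3017d410f71f87c6d964b6d9ecdef1dda701f7910eac542dbcb459f9ed56ab114e157ab338ed84a271098c0401449f4de1393c4d1a7333a5d2bb23203cba1f119249e0b23d66227b43834f283d88cc723f038c7274a (k8 c16163 c13294 c5434 c5432 c5318 c5317 c5316 c16444 (k8 c5525 c5524 c5522 c5373 c5372 c5371 c16392 c5520 (k8 c5516 c5335 c5334 c5331 c5517 c14849 c9739 c15726 (k8 c5210 c5488 c5404 c9680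 c5379 c5381 c5382 c5383 (k8 c5564 c5565 c5566 c5567 c16446 c5642 c9752 c265 (k8 c267 c1113 c16451 c5571 c5574 c5575 c5423 c5417 (k8 c5421 c5422 c8114 c8140 c16452 c5644 c4559 c683 (k8 c681 c1894 c16455 c5582 c3066 c2936 c14463 c5668 (k8 c8354 c5453 c5455 c5494 c5497 c6601 c8115 c15064 (k8 c16457 c16458 c1121 c5663 c1696 c16463 c5691 c10309 (k8 c16465 c3061 c4119 c1573 c15068 c2208 c2207 c3492 (k2 c16464 c15069 k0)))))))))))) (by decide +kernel)
def c16467 : PP 9 3 T 0x8000000000000091000000000000000000000100000000000200000800000000000000000000000000000100000100200000020000000010000000000400 := rS 0x1a641219fc2411 (k4 c703 c12633 c15494 c1950 (k2 c298 c1970 (k1 c14662 k0))) (by decide +kernel)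
def c16468 : PP 9 3 T 0x80000020000000000000000000000000000000000400000000000000000000000000010800000000001008000000000000000000000000 := rS 0x22a6f88a44d68f38acce6b5 (k8 c5422 c5419 c5574 c5571 c5526 c5523 c5374 c5371 (k2 c1175 c1191 (k1 c3604 k0))) (by decide +kernel)
def c16469 : PP 9 3 T 0x8000000000000000000100040000000000000000000000000200002000000000000000020000000000021801000100000000020000000410000000000000 := rS 0x44847c20b4cfee06ffcc8ad5f0b8dafe3 (k8 c5578 c5507 c1779 c5459 c5585 c5582 c5590 c2951 (k8 c1192 c10493 c2136 c1714 c5670 c9641 c4792 c1950 k0)) (by decide +kernel)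
def c16470 : PP 9 3 T 0x21000000000000000000000004000200000000000000000000000000000000000000000000000000000000000000000000000012 := rS 0xdf2092cf8e137457c6a089ed5c69a55267c2d0678d59a81641d18a9d799dcc46d2c068d295d919076f7058ddea4788a441a6b3ca0d1fb1198e47e311ee4e9471599cd6bb66bfbb4359 (k8 c16392 c16466 c5219 c5507 c5212 c5422 c5419 c5574 (k8 c5571 c16163 c13294 c5436 c5434 c5318 c5317 c5316 (k8 c16444 c5526 c5525 c5524 c5523 c5522 c5374 c5371 (k8 c5520 c5519 c5518 c5516 c5333 c5332 c15726 c5210 (k8 c5488 c9742 c1056 c1057 c665 c16365 c4442 c282 (k8 c4079 c837 c1172 c1171 c937 c8354 c281 c1530 (k8 c3587 c5459 c1595 c2133 c2134 c1779 c5413 c16467 (k8 c16468 c5578 c16469 c3604 c3060 c1176 c15375 c12625 (k2 c2829 c5258 k0))))))))) (by decide +kernel)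
def c16471 : PP 9 3 T 0x4000000000080000101040000000000000000000004000000000000000000000000000020000000000000040010000000100000100000000000000041 := rS 0x20800d960fe5b (k4 c681 c840 c5644 c5280 (k2 c5670 c15187 (k1 c699 k0))) (by decide +kernel)
def c16472 : PP 9 3 T 0x8000000000000081000101040000000000000000000004000200000000000000000000000100000000010000000000000000100000000000000000000009 := rS 0xd960c25b3a314fad2f19dde2641981c8a8b6af7d5e9565b5d5bb2 (k8 c5210 c5490 c5507 c5420 c5488 c5406 c9031 c5585 (k8 c5583 c5582 c5432 c5316 c15726 c9695 c2053 c6616 (k8 c11200 c2828 c16471 c5668 c4352 c1575 c5644 c5280 (k1 c15897 k0)))) (by decide +kernel)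
def c16473 : PP 9 3 T 0x21000000000000000000000004000200000000000000000000000220000000000000000000000000000000000000000000000010 := rS 0x1c2c7f0a6e26cd6fb8d02aa086d5e69df106cb0603f9f5a25b3bbc5fa1d54ec8ba1f11bdc16f53d9e51fb103e4e949fdb11516d5f7686b26310808020d (k8 c5522 c16470 c5642 c265 c9752 c16392 c16466 c5219 (k8 c5585 c5583 c5582 c5212 c5572 c16163 c13294 c5432 (k8 c16444 c5526 c5524 c5372 c5519 c5516 c5333 c5331 (k8 c5517 c14849 c5210 c5489 c5486 c5405 c9695 c127 (k8 c681 c1706 c1633 c840 c10162 c5644 c5280 c16471 (k8 c1696 c282 c10456 c15187 c3581 c5463 c5466 c5580 (k4 c2076 c703 c1190 c13945 (k2 c839 c13096 (k1 c5910 k0))))))))) (by decide +kernel)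
def c16474 : PP 9 3 T 0x21000000000000000000000004000200000000000000000000000000000000010000000080000000000000000000000000000010 := rS 0x2031337a36068b42968b23305a24fa294f89c7a171fed538992f190f22310834d6613b314eac82e98fbeaf4ab2dafeedb686b2add919f63931dd280401 (k8 c16470 c5642 c16163 c5332 c13294 c16444 c9680 c5210 (k8 c5490 c16392 c16466 c5212 c5219 c5507 c5420 c5488 (k8 c5406 c9031 c9752 c14849 c16472 c1966 c16473 c5668 (k8 c724 c5523 c5522 c265 c5331 c5524 c15726 c2054 (k8 c1520 c14193 c5412 c5318 c5433 c5436 c5570 c5572 (k8 c8199 c8391 c2058 c5516 c5316 c2051 c10686 c683 (k4 c5583 c5508 c5505 c2919 (k2 c15494 c16453 (k1 c14852 k0))))))))) (by decide +kernel)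
def c16475 : PP 9 3 T 0x21000000000000000000000004000200000000000000000000000000000000010000000000000000000000000000000000000010 := rS 0x44821011234fc47f44a14fa936616902592f1d98a756477ccead57a5764642e82d0e91359e5068fd8864663f0b8f7274a14a7d9627db235aefff7686b26310808020d (k8 c5522 c16470 c5642 c265 c9752 c16392 c16466 c5219 (k8 c5586 c5507 c5505 c5212 c5570 c5420 c5572 c8199 (k8 c16163 c13294 c5436 c5433 c5318 c5316 c5315 c16444 (k8 c5526 c5525 c5524 c5523 c5374 c5373 c5516 c14849 (k8 c15726 c5210 c5488 c5406 c5490 c9680 c9031 c16472 (k8 c1966 c16473 c5668 c2054 c2051 c938 c10686 c16450 (k8 c1517 c8391 c683 c2058 c16474 c14232 c5579 c7824 (k4 c2077 c12632 c8783 c703 k0)))))))) (by decide +kernel)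
def c16476 : PP 9 3 T 0x4000000000081000101040000000000000000000004000200000000000000000000000000000000000000000010000000020000100000000000000009 := rS 0x7f40980201b78ec86607 (k8 c5432 c5316 c5210 c9695 c1944 c15187 c15897 c699 (k2 c10398 c5670 k0)) (by decide +kernel)
def c16477 : PP 9 3 T 0x5000000000011000121040000000000000100000000000000000000040000000000040000000000000000141080000004000000004000000000000400 := rS 0x71c0133132f04dc28930a44f3b6 (k8 c5212 c5524 c5374 c10398 c2921 c3058 c2917 c5663 (k4 c12633 c1520 c14852 c6448 (k1 c9158 k0))) (by decide +kernel)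
def c16478 : PP 9 3 T 0x8000000000000009000121040000000000000100080000000000000000000000000000000010000000020000001000500000000000004100000000000048 := rS 0xd163b7fe6254eb8422604017cffe1dab4d9fde6687c46490591cf6873ca0c52b313ad76c8d6bc0d162106f8cfa63 (k8 c9752 c2826 c5578 c5522 c265 c5583 c5508 c5507 (k8 c5505 c5212 c5422 c5570 c5574 c8199 c5525 c5524 (k8 c5373 c5372 c5520 c5516 c5334 c5331 c5517 c8354 (k8 c5668 c5453 c5496 c11257 c8115 c16477 c1122 c5670 (k8 c5663 c699 c1716 c1696 c1114 c8140 c16463 c941 (k2 c8355 c3607 k0)))))) (by decide +kernel)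
def c16479 : PP 9 3 T 0x21000000000000000000000004000200000000000000000000000000000000000000000000000000000000000000000000000010 := rS 0x10189b85c67e4da25985e3b1d50a5a2cb14fbe350084c60200a2c8b0346fbb6da1c98c40e3f1cec8ce642e82e9559069acf3b1 (k8 c16444 c5524 c5523 c5522 c16392 c16163 c5516 c14849 (k8 c15726 c9680 c5210 c5317 c5318 c5432 c5434 c13294 (k8 c16466 c5212 c5219 c5505 c5508 c5582 c5583 c16470 (k8 c5642 c9752 c265 c16475 c5578 c2826 c16471 c16476 (k8 c5644 c683 c1894 c16478 c2054 c16450 c2058 c1119 (k4 c1122 c2623 c3061 c810 (k2 c2078 c14852 k0))))))) (by decide +kernel)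
def c16480 : PP 9 3 T 0x41000220000000000000000100080004000100200000000004000000000000000000000010000000000000000000000011010019000002 := rS 0x684082e9b8a24966b567ed4e224584044e1f7b91e229135a3ce66f6bf85c07d89b8fc48163e48da0b (k8 c5516 c665 c5209 c5357 c5380 c5226 c5466 c5382 (k8 c5442 c14235 c11976 c5465 c5565 c5379 c5526 c5523 (k8 c5374 c5371 c5520 c5333 c5517 c351 c2139 c2161 (k8 c2162 c668 c13524 c1653 c1094 c2760 c12834 c3604 (k4 c16445 c55 c1295 c16239 (k1 c2201 k0)))))) (by decide +kernel)
def c16481 : PP 9 3 T 0x41000220000000000000000100080004000100000000000000000000000000000010000010000000000020000000000000000010000014 := rS 0xb5da89938c84c98526320b77dab03f73fe3a431a8c48af33696034000c8a43e0b1b91e227b069acf2092fb1cfe633ae491a1344b2d43e2 (k8 c5226 c5578 c5464 c5567 c5564 c5381 c5209 c5440 (k8 c5355 c5358 c5357 c9668 c9669 c5524 c5523 c5522 (k8 c5372 c5371 c5520 c5518 c5516 c5517 c9694 c9701 (k8 c5642 c1056 c1057 c665 c282 c284 c1945 c280 (k8 c1949 c16480 c11059 c5658 c5508 c5585 c5725 c11149 (k8 c5653 c55 c1460 c1463 c2043 c13171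 c11672 c5412 (k2 c4112 c16402 k0))))))) (by decide +kernel)
def c16482 : PP 9 3 T 0x40000221000000000000000000000004000000000000000000000000000000000000000000000000000000020000000000000000000010 := rS 0x77991b5f690c36f378bf5521f7b82deb9240c4d12011083450253789c269d0c24c121701564c8950eab7645f94ec4474a (k8 c16163 c5331 c16444 c16479 c9668 c5210 c5490 c5486 (k8 c5488 c15726 c16392 c16481 c1107 c9669 c261 c5648 (k8 c1273 c5564 c267 c5565 c1113 c5651 c5522 c265 (k8 c28 c5567 c5382 c5380 c5209 c5519 c5516 c5333 (k8 c5517 c5489 c5405 c9695 c282 c1944 c1949 c15987 (k4 c10456 c15159 c15154 c5494 k0)))))) (by decide +kernel)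
def c16483 : PP 9 3 T 0x40000221000000000000000000000004000000000000000000000000000000000000000000000000000000000000000000000000000010 := rS 0x86d445b14345a2c9146a280c095261713809a6d7f13c55a1d4aec8c85da5564ee092f9f4fe75c94a762814684cde89 (k8 c5567 c5565 c5564 c5381 c5380 c16444 c16479 c5209 (k8 c5440 c5358 c5442 c9668 c9669 c14727 c16392 c16163 (k8 c14849 c15726 c5210 c5488 c5486 c5490 c9695 c5226 (k8 c5465 c5579 c16481 c267 c1107 c261 c1113 c5648 (k8 c5651 c437 c456 c16482 c5644 c1892 c682 c686 (k2 c3608 c2779 (k1 c1310 k0))))))) (by decide +kernel)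
def c16484 : PP 9 3 T 0x1000200000000000000000100000004000100000100000000000000000400000100004001400005010420000001400040000050005402 := rS 0x357ddde1990c6a3122c7524580d024bec73e9fcc675c91cd028d8984cde89 (k8 c5567 c5565 c5564 c5382 c5381 c5380 c5379 c5209 (k8 c5440 c5355 c5358 c5442 c5357 c9668 c9669 c1056 (k8 c1057 c13091 c2161 c284 c1945 c280 c1949 c322 (k4 c5653 c5658 c5454 c5725 k0)))) (by decide +kernel)
def c16485 : PP 9 3 T 0x221000000000000000000000004000000000000000000000000000000000000000000000000000000000000000000000000000010 := rS 0x116d36a915beff8a1b53503f6b41aecd67b1590304e8d50a1af9860b4254985c4259010076ab5588a44ecb4facce3b6449bc271346a04e6f1578776464079743e232482c6ef523d2ab3113da441a6b3ca3cee092fb1cfa7f3ae4a53b1 (k8 c16444 c16479 c5209 c5440 c5358 c5442 c5357 c9668 (k8 c9669 c14727 c5526 c5524 c5523 c5522 c5374 c5372 (k8 c5371 c16392 c16163 c5520 c5519 c5518 c5516 c5334 (k8 c5331 c5517 c14849 c9739 c15726 c5210 c5486 c5406 (k8 c9695 c5379 c5380 c5381 c5382 c5564 c5565 c5567 (k8 c16483 c5571 c5574 c5572 c5420 c5570 c5417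 c5421 (k8 c5422 c8114 c16484 c5642 c16452 c265 c1107 c261 (k8 c1113 c5644 c5648 c8140 c1892 c683 c437 c1273 (k8 c1163 c1162 c682 c1473 c1916 c2189 c8127 c5501 (k8 c4551 c2134 c2492 c3604 c3010 c2951 c9612 c1711 (k2 c2136 c686 (k1 c3608 k0)))))))))))) (by decide +kernel)
def c16486 : PP 9 3 T 0x8000400000000001000120000000000000000100080004000100000000000000000000000000000000000010000000000000020000000000000019000002 := rS 0xf18fda4e08010d98114e32126320b3dc92f52fb1cc671659cf6d0322bcc1a313ae486a09 (k8 c9669 c280 c5209 c5440 c1945 c5522 c282 c5582 (k8 c5508 c5212 c5419 c5420 c5571 c5355 c5357 c9668 (k8 c5519 c5334 c5333 c11149 c5653 c55 c2043 c14904 (k8 c13233 c1276 c1950 c8527 c2078 c2077 c3056 c5579 (k1 c13127 k0))))) (by decide +kernel)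
def c16487 : PP 9 3 T 0x8000000000000001000120000000000000000000080000000100000000000000000000040400000000020004000000050000020000000000000001000002 := rS 0x200436f0447c9c7bbd4bec731c0c8af3068c4eb92 (k8 c5209 c5440 c1945 c5522 c282 c5582 c5508 c5355 (k8 c5357 c9668 c5519 c5333 c14904 c8159 c13233 c1278 (k2 c2912 c8527 (k1 c2952 k0)))) (by decide +kernel)
def c16488 : PP 9 3 T 0x8000000000000009000120000000000000000100080004000100000000000000000000000000000000000000000000000020000000000000000000000014 := rS 0x1a29b6fc53e6e1899bc80101fa742e921ea83c6d367f786a31799b4b01a000655aaf4b8752a3b05c45220d35a3c1275c91c5669f6589ce6b15aed9aed5 (k8 c5585 c5507 c5212 c5422 c5421 c5419 c5570 c5420 (k8 c5572 c5574 c5571 c5209 c5440 c9669 c5526 c5523 (k8 c5522 c5374 c5371 c5516 c5332 c5488 c5486 c5404 (k8 c5406 c5490 c9701 c5642 c1056 c1057 c665 c282 (k8 c1945 c280 c16486 c5453 c5496 c6601 c8161 c2767 (k8 c16487 c55 c1694 c326 c13127 c5655 c2746 c703 (k4 c1714 c16289 c3604 c2951 (k2 c1192 c8355 (k1 c16239 k0))))))))) (by decide +kernel)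
def c16489 : PP 9 3 T 0x21000000000000000000000004000000000000000000000000000000000000000000000000000000020000000000000000000010 := rS 0x9b36b8da281898fc64aa086d436f32dbc5fa1d5487dee0b1bbd5227947b1cfa7f319d724b34fed88a01108353a232086126090b80bdd59a5193645f94ec453a1 (k8 c16485 c8199 c16444 c16479 c9668 c5210 c15726 c16163 (k8 c16392 c5219 c16488 c1107 c9669 c261 c5648 c543 (k8 c5331 c1273 c5522 c265 c28 c5582 c5212 c5572 (k8 c5574 c5209 c5440 c5355 c5358 c5442 c5357 c5526 (k8 c5524 c5374 c5519 c5518 c5516 c5333 c5517 c5489 (k8 c5486 c5405 c9695 c32 c282 c1944 c10456 c15187 (k8 c3581 c16300 c2907 c703 c700 c2129 c15188 c13099 (k2 c1190 c15189 k0)))))))) (by decide +kernel)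
def c16490 : PP 9 3 T 0x21000000000000000000000004000000000000000000000000000000000000000000000000000000000000000000000000000010 := rS 0xffc6e05026a28d01e92c4acd67845903062a1434332d16482350c24c2e21012cfddb614e84ea7f3e97c13923bca7620d78ec8c85d1192416377a91e9559 (k8 c16392 c16163 c5520 c5519 c5518 c5516 c5334 c5331 (k8 c14849 c15726 c5210 c9695 c5522 c16444 c16479 c14727 (k8 c5209 c9669 c9668 c5442 c5358 c5440 c16485 c8199 (k8 c5212 c5219 c5574 c16488 c265 c1107 c261 c5648 (k8 c437 c543 c16489 c5644 c4438 c1892 c683 c682 (k8 c1163 c1162 c15195 c1473 c1916 c1114 c12638 c12640 (k8 c8127 c8534 c2134 c1191 c1192 c5578 c3056 c6195 k0))))))) (by decide +kernel)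
def c16491 : PP 9 3 T 0x4000000000000002000201000000000000000000000004000200000000000000000000000000000000000000000000000000000000000000000000000014 := rS 0x3d245a0c53f32ce2278e34c3bb2ac8cc723f189cd026f3ea7d4263308a4b65f0b91426432c2250a69417b59aaa880033bb50fd28c8c9 (k8 c5396 c15726 c16163 c5517 c9578 c16490 c5642 c16164 (k8 c1269 c2075 c5500 c1270 c9742 c845 c5567 c1057 (k8 c1949 c5564 c284 c5433 c1054 c1893 c9694 c5445 (k8 c5395 c5398 c5448 c5566 c5565 c5380 c5379 c5434 (k8 c5318 c5317 c5316 c16392 c5210 c5486 c15747 c5658 (k8 c351 c668 c9148 c3599 c841 c15030 c9793 c1976 (k1 c891 k0))))))) (by decide +kernel)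
def c16492 : PP 9 3 T 0x42000201040000000000000000000004000200000000000000000000000000000000000000000000000000000000000000000000000014 := rS 0x7562f7da47e659c44ed545c0daeb18efb9fef35aa090a432297e2058000a4d2ad57a5d2bb20fd673a1739a04266f3ea251e9f5098cc3b5a51dd9264 (k8 c15726 c5396 c2053 c16163 c9578 c5445 c5395 c5398 (k8 c5448 c5568 c5567 c5566 c5565 c5564 c5380 c5379 (k8 c5433 c16490 c16392 c5517 c5210 c5488 c5404 c5406 (k8 c5490 c9742 c9694 c5642 c1057 c16164 c1054 c284 (k8 c1949 c845 c1270 c1340 c283 c2396 c16491 c5504 (k8 c5506 c5507 c5508 c5583 c5585 c16402 c668 c9148 (k4 c3599 c8156 c8161 c840 (k2 c1969 c5668 k0)))))))) (by decide +kernel)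
def c16493 : PP 9 3 T 0xa000011040000000000000000080000000200000000000000000000000000000000000000000000000000020000000000000100000011 := rS 0x1e1f6a70460b0c8e42e99ef8d036f1 (k8 c9695 c1944 c14275 c5450 c5447 c5433 c5317 c5315 (k4 c5516 c5331 c15623 c15987 (k2 c5458 c5185 k0))) (by decide +kernel)
def c16494 : PP 9 3 T 0x4000000000000002000200000000000000000100000004000200000000000000000440000020000000000041000001000000000000140420000200000018 := rS 0x1c196e16a1fc811c698cc7e7340c4cde7d4fa84c6612fb1c1839 (k8 c5317 c265 c2480 c1629 c5445 c5395 c5398 c5448 (k8 c5566 c5565 c5382 c5380 c5379 c5318 c5316 c15747 (k8 c5658 c5281 c841 c553 c1714 c1660 c3599 c14940 k0))) (by decide +kernel)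
def c16495 : PP 9 3 T 0x2000201040000000000000000000004000200000000000000000000000000000000000000000000000000020000000000020000000018 := rS 0x8b3f387dcc76fb8c184a59081226c621e4d67b1a10c101b4bec8761f1bd673a191c85d03133ea251e934fb253699da806224578c54474a (k8 c16163 c5331 c1289 c9695 c456 c9729 c28 c9578 (k8 c5447 c5397 c5396 c5448 c5444 c5568 c5567 c5566 (k8 c5382 c5380 c5433 c5317 c5315 c16490 c16392 c5518 (k8 c5517 c5332 c5210 c5404 c1944 c15918 c1949 c14275 (k8 c1684 c13641 c10338 c281 c5665 c747 c16493 c541 (k8 c540 c265 c2458 c2510 c2480 c16494 c2898 c3610 (k2 c5583 c840 k0))))))) (by decide +kernel)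
def c16496 : PP 9 3 T 0x42000201040000000000000000000004000200000000000000000000000000000000000000000000000000000000000000000000000010 := rS 0x1f2482d4f49c70acc42c7351b50c7ef6b4daad7ef2c0848b629d506850d168b315228a04a2788809e2672e88dee0b1bbd6b39d0c8e40e17188f51a1337a3d33b5a51dd9264 (k8 c15726 c5396 c2053 c16163 c9578 c5447 c5568 c5565 (k8 c5564 c5381 c5436 c5434 c5433 c5432 c5317 c5315 (k8 c16490 c16392 c5519 c5518 c5516 c5333 c5331 c14849 (k8 c9680 c9695 c16492 c9729 c267 c1113 c5651 c456 (k8 c1289 c16495 c5644 c1892 c683 c1896 c1894 c681 (k8 c686 c1310 c1309 c5668 c1933 c2778 c2085 c10382 (k8 c5278 c5672 c744 c2114 c798 c266 c2377 c3059 (k4 c15623 c8792 c1343 c891 (k2 c5685 c5589 k0))))))))) (by decide +kernel)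
def c16497 : PP 9 3 T 0x2000001080000000000000000000004000200000000000000000000000000000000000000000000000000000000000000000000000012 := rS 0x68b359ef3412a90a3588160d2f71bbd73a331c8c593b5049e4ea873597c761f11d283264 (k8 c15726 c5315 c16163 c5331 c5517 c5332 c5439 c14035 (k8 c2114 c5440 c5441 c5438 c9578 c5396 c5434 c5317 (k8 c5316 c16490 c5519 c5518 c5333 c9742 c1057 c16164 (k8 c280 c845 c1269 c1270 c283 c11551 c2075 c1975 (k1 c3587 k0))))) (by decide +kernel)
def c16498 : PP 9 3 T 0x42000201000000000000000000000004000200000000000000000000000000000000000000000000000000000000000000000000000010 := rS 0xff45c0522452145450850d4744a275a9b1065a014440287359d4125fc93c55aa9d9190ba3b0f88c16f523d673a191985c266f49b276b4a (k8 c16163 c9578 c5396 c5444 c5565 c5564 c5433 c5316 (k8 c5315 c16490 c16392 c5520 c5519 c5516 c5331 c5517 (k8 c5332 c14849 c15726 c5210 c5489 c5490 c9695 c16496 (k8 c5439 c5438 c5440 c14035 c2114 c16497 c9730 c5642 (k8 c16204 c8722 c5665 c8714 c267 c1113 c4516 c1892 (k8 c683 c5651 c4087 c1310 c456 c747 c15060 c2775 (k2 c2780 c15061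 k0))))))) (by decide +kernel)
def c16499 : PP 9 3 T 0x2000201000000000000000000000004000200000000000000000000000000000000000000000000000000000000000000000000000014 := rS 0x314ebdf3f34916d72ffb800ad57a576417399f512a1319dd9264c9b2ce3b6 (k8 c16498 c5571 c5420 c12830 c15726 c5396 c2053 c5395 (k8 c5398 c5567 c5566 c5379 c5433 c5210 c5488 c5406 (k8 c5490 c5642 c16491 c1054 c5507 c5583 c11200 c8833 (k4 c9031 c1969 c840 c5668 k0)))) (by decide +kernel)
def c16500 : PP 9 3 T 0x8a000200000000000000000000000000000200000000000001000000000000000000000000000000000020020000000000000000000011 := rS 0x7f2fb4d891c1a10c364556a5c3a333984cde7d4498c52b1 (k8 c5421 c5417 c5395 c5567 c5566 c5565 c5564 c5379 (k8 c5316 c5486 c5404 c5490 c284 c1944 c1949 c14275 (k4 c9423 c281 c2081 c1629 (k2 c841 c8833 k0)))) (by decide +kernel)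
def c16501 : PP 9 3 T 0x2000201000000000000000000000004000200000000000000000000000000000000000000000000000000000000000000000000000010 := rS 0x314eb1d2d1644a010164d9671db3c764642e81c626f (k8 c5565 c5434 c5432 c14849 c15726 c5210 c9695 c16498 (k8 c5571 c5420 c12830 c16499 c28 c1113 c16500 c5644 (k4 c4516 c1894 c681 c16091 k0))) (by decide +kernel)
def c16502 : PP 9 3 T 0x11000011040000000000000000080000000200000000000000000000000000000000000000000000200100020000000000000000000002 := rS 0x797b076f77a8cc626b0f8d58a62 (k8 c16365 c837 c281 c5517 c1058 c5434 c5316 c5519 (k4 c5333 c5332 c16235 c14143 (k1 c5540 k0))) (by decide +kernel)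
def c16503 : PP 9 3 T 0x1000000000000000000000004000200000000000000000000011010000000000002000000000000020000140000000000000010 := rS 0x84f68edee377ad2ab39d198e46235 (k8 c281 c5434 c5317 c5316 c16490 c16392 c16163 c5519 (k4 c5518 c5333 c5332 c15359 (k2 c15030 c15226 k0))) (by decide +kernel)
def c16504 : PP 9 3 T 0x40000201040000000000000000000004000200000000000000000000000000000000000000000000000000000000000000000000000014 := rS 0x78dc07e6378599f3486d13e2413b45a6d51ab20e8c565988d21dd95673a331f8c47a7dd88a4d61fa511426432c000c889 (k8 c5567 c15726 c5642 c1057 c1949 c5564 c284 c16163 (k8 c5517 c1058 c9694 c16501 c5566 c5436 c5434 c5318 (k8 c5316 c16490 c16392 c5210 c5486 c9742 c16365 c4102 (k8 c837 c1172 c1171 c281 c1532 c1969 c9610 c15874 (k8 c5651 c2756 c16502 c13524 c5589 c16503 c5537 c1968 (k4 c800 c801 c5577 c9396 k0)))))) (by decide +kernel)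
def c16505 : PP 9 3 T 0x1000000000051000000000000000000000100080004000200000000010004000000080000000000000000000000000000000000140000000000000000 := rS 0x257cbdde37a91c663f (k8 c5318 c5316 c5520 c5519 c5579 c15747 c5198 c9072 (k1 c5546 k0)) (by decide +kernel)
def c16506 : PP 9 3 T 0x50000201000000000000000000000004000200000000000000000000000020000000000000000000000000000000000000000000000014 := rS 0x8a7c941e33889c48cb69a4d38c8f0b3202d167bcd04aa42c40d23b0fbdc6ef5a55673a331c8c47a73409bf62290d1840e872d9142643449e46a09c91600064 (k8 c15726 c5642 c1057 c16504 c5438 c280 c5441 c5567 (k8 c1949 c5564 c284 c1893 c11253 c5432 c661 c1056 (k8 c9694 c16501 c5565 c5380 c5379 c5436 c5434 c5317 (k8 c5316 c16490 c16392 c16163 c5519 c5518 c5333 c5517 (k8 c5332 c9742 c16164 c845 c1269 c1270 c283 c11551 (k8 c1707 c1977 c3587 c5537 c2075 c2076 c1694 c16505 (k8 c1325 c16409 c60 c2755 c12834 c11559 c5198 c1277 (k1 c5590 k0)))))))) (by decide +kernel)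
def c16507 : PP 9 3 T 0x8000000000000000000011000000000000000000000000000200100000004050000000000020000000000000015001000000020005500450000000000000 := rS 0x8266403dad167bcc66391890fbf03 (k8 c5508 c5451 c1949 c5434 c5317 c5316 c283 c11551 (k4 c1707 c8823 c3593 c3587 (k2 c8541 c1977 k0))) (by decide +kernel)
def c16508 : PP 9 3 T 0x9000000000000148000000000010000000000000080000000000040001000004000000000000500004000000000000000000000004000000008000000000 := rS 0x8b9460907f8e1a1f238cfd7ec5356abf07912493c8e4d58c361655 (k8 c356 c5587 c5509 c5506 c5521 c5520 c5335 c5334 (k8 c5491 c5407 c5406 c5490 c2866 c5687 c8101 c5641 (k8 c5594 c5598 c3625 c5512 c2153 c10670 c5782 c3394 (k1 c3596 k0)))) (by decide +kernel)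
def c16509 : PP 9 3 T 0x401004000000000141000011080000000000000100000000000200500014000000000000000000000000000000000000000000001010140440000000000000 := rS 0x1f472fc74a5361f92ccc1 (k8 c5319 c5233 c5200 c5348 c5605 c12897 c16041 c5622 (k2 c5192 c7375 k0)) (by decide +kernel)
def c16510 : PP 9 3 T 0x9004000000000169000011081010000000000100080000000200500001000004000080000800400000000800000110020001000000140000408000000000 := rS 0x299462e2b7239d4de5756a5477d76c97ed19c0c8d791b529547649278dc8e4d1ce3ef27f4eaad6f0d8592c42b4 (k8 c1326 c5528 c353 c5587 c5509 c5533 c5413 c5412 (k8 c5358 c5359 c5443 c5317 c5521 c5520 c5518 c5335 (k8 c5334 c5332 c356 c1328 c2692 c16508 c2902 c3240 (k8 c3309 c16509 c5595 c5639 c985 c1761 c5277 c9954 (k8 c5623 c5681 c1728 c1376 c4008 c2955 c2520 c2867 (k1 c3596 k0)))))) (by decide +kernel)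
def c16511 : PP 9 3 T 0x140000200080020000000000100000000000200400000000000000000000000000000000000000000000000000000000000000000000002 := rS 0x181d28aecd77befdce727 (k8 c5383 c5379 c5638 c1349 c3474 c5233 c5601 c12897 (k2 c1062 c5667 k0)) (by decide +kernel)
def c16512 : PP 9 3 T 0x60000201000000000000000000000004000200000001000004000080080800000000000001002000000000000000000000000000000014 := rS 0xb7d9c58c253795d5a9c0af1477d8dbb64a92fb26d4a55c2ee57e70080343bb28f83c76232482c6e4726e743239409f71a2f3587e945fd89840f7f0d114278fbc98d3aab4cf8e3a8b3fe49630d85fb8865800191123f1992c4c290bd6443ed (k8 c5541 c5528 c16392 c5433 c9694 c9148 c353 c5316 (k8 c5318 c5567 c15726 c5642 c1057 c1949 c15747 c5587 (k8 c5509 c5506 c16504 c5358 c2938 c2081 c5579 c5530 (k8 c5413 c5412 c5355 c5359 c5443 c5564 c284 c1056 (k8 c4562 c5432 c661 c16501 c10372 c16163 c5517 c1058 (k8 c9707 c5569 c5566 c5380 c5317 c5315 c16490 c5521 (k8 c5520 c5518 c5516 c5334 c5331 c5332 c9739 c9713 (k8 c5210 c5486 c2540 c15376 c13576 c5014 c15210 c16511 (k8 c356 c1328 c16510 c16509 c6193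 c5595 c5639 c5599 (k8 c985 c1761 c16508 c3240 c5277 c9954 c5623 c5681 (k4 c1806 c1807 c5348 c360 (k1 c15015 k0)))))))))))) (by decide +kernel)
def c16513 : PP 9 3 T 0x809001400000000108000200004010100000000000080000000000000000000000000000000000500000000000000040000001000004000000008000000002 := rS 0x1d7a9f2607e3f5c314d5aafc1e44924726a064e7dc6ac61b0b2ac95db0f (k8 c5598 c5639 c5595 c356 c5587 c5509 c5506 c5569 (k8 c5566 c5383 c5380 c5521 c5520 c5334 c5491 c5407 (k8 c5406 c5490 c2866 c3625 c8101 c5512 c3982 c5205 (k2 c5277 c5623 (k1 c5931 k0))))) (by decide +kernel)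
def c16514 : PP 9 3 T 0x9004400000000069000211080000000000000100080000000200500000000000000080000800000000000005000008000000000000140000000000000006 := rS 0x3137b8bae9c8e753795d58bd4e0578a3bec65db25fb46d4a55c2ee4e0bf5a041343b0f88c6e4d2b864723f1ea062727099f51f8d2f9840e09c7de4fe634ea65630d8589496261485c43e1 (k8 c5457 c5528 c5433 c9694 c9148 c353 c1090 c5587 (k8 c5509 c5506 c5530 c5412 c5355 c5358 c5359 c5443 (k8 c5438 c5432 c661 c10372 c5569 c5568 c5566 c5564 (k8 c5383 c5382 c5380 c5436 c5318 c5317 c5315 c5313 (k8 c5521 c5518 c5331 c5517 c5332 c3578 c12670 c1326 (k8 c4135 c2858 c15210 c16511 c356 c1328 c2692 c16509 (k8 c5595 c5639 c5641 c985 c1761 c16513 c3240 c5277 (k8 c1001 c9954 c5623 c5681 c1728 c1376 c1375 c2955 (k2 c3346 c2411 (k1 c3616 k0)))))))))) (by decide +kernel)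
def c16515 : PP 9 3 T 0x8000000000000220000201000010000000000000080004000000000000000000000000000000000000000000000000010000000000000000000000000000 := rS 0x7c74b0eb3df57bb2119ce4e6fc6ac61b0b (k8 c5587 c5509 c5506 c5569 c5565 c5383 c5379 c5331 (k8 c5210 c5617 c5427 c12587 c15065 c8937 c5515 c5220 k0)) (by decide +kernel)
def c16516 : PP 9 3 T 0x809001400000000108000211004010000000000000080000000000000000000000000000000000500000000000000040000001000004000000008000000002 := rS 0x34bf1fadf30c5356abf07912491c9ab186c2cab0f (k8 c5598 c356 c5587 c5509 c5506 c5521 c5520 c5334 (k8 c5491 c5407 c5406 c5490 c2866 c3625 c16513 c8101 (k2 c5512 c5387 (k1 c5192 k0)))) (by decide +kernel)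
def c16517 : PP 9 3 T 0x40000201000010000000000000000004000200000000000000000000080820000000000001000000010000000000000000000000000014 := rS 0x3ebf1d294ecd815e7db72a52a9371b7f0d63ef28b3fc3617e179425a092efc7d7e9a5a2ce226f899b416738aa3dbc7a66b1fda84258985217108d412872de75ea3724bdc765fd8bf4d61f319e7246103f8fe6b1f710d123f7fc746647a55648a580019027b270a776881 (k8 c5380 c16506 c5412 c1718 c5210 c5564 c15726 c5642 (k8 c1057 c284 c16392 c16163 c5520 c5316 c2081 c11059 (k8 c5318 c5567 c1949 c15747 c5506 c15208 c5579 c5432 (k8 c661 c16504 c5441 c5355 c5517 c1058 c5405 c16501 (k8 c10372 c5332 c5333 c5334 c5518 c5519 c16490 c1893 (k8 c11253 c5438 c280 c5528 c5433 c9694 c9148 c353 (k8 c16507 c5541 c5357 c2502 c15895 c15912 c5568 c5414 (k8 c5379 c5516 c665 c5382 c5565 c5411 c5532 c3604 (k8 c2514 c4135 c9713 c5451 c16514 c848 c4583 c16512 (k8 c5457 c5587 c5509 c5358 c2938 c5359 c5443 c1056 (k8 c4562 c5569 c5521 c356 c1328 c16515 c16509 c16516 (k4 c3240 c15213 c5605 c12897 (k2 c16041 c8101 (k1 c5192 k0)))))))))))))) (by decide +kernel)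
def c16518 : PP 9 3 T 0x680002000800200000000001000800000002004000100000004000000a0900000100000000000000000000000000020000010000000002 := rS 0x365b6dd52bb184eb91156ce2ddc29f0e5351fdd2f834ae44463f4fab44c17 (k8 c5433 c9148 c5490 c2882 c5318 c5331 c5491 c5488 (k8 c5407 c5404 c5638 c3476 c3222 c1352 c1351 c16511 (k8 c5612 c12587 c355 c5662 c2956 c615 c616 c1329 (k4 c2236 c4258 c3486 c3619 k0)))) (by decide +kernel)
def c16519 : PP 9 3 T 0x40000201000000000000000000000004000200000000000000000000080920000000000001000000000000000000000000000000000014 := rS 0x1f5f8e94a766c0af3edb95f840e0a52ae1480927947c9b8dbf86b1f79efa2cff0d85f8612ef6f78fe6b170a750300681e99ac7f697f62fdd91ac3e633081d084b130a42e21da3ffdc43ac8fe3a331a824f3922284d0e5b2c000c889ce91dea3724bdc774a (k8 c16163 c5332 c5333 c5334 c5518 c5519 c5520 c16490 (k8 c5567 c15726 c5642 c1057 c1893 c11253 c5564 c284 (k8 c16504 c5441 c5438 c280 c5316 c2081 c5318 c16392 (k8 c1949 c15747 c11059 c16506 c5528 c5433 c9694 c9148 (k8 c353 c16507 c5432 c661 c5355 c5517 c1058 c5210 (k8 c5405 c16501 c10372 c5541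 c5357 c2502 c15895 c848 (k8 c2135 c5380 c5412 c1718 c5506 c15208 c5579 c15912 (k8 c5024 c4583 c5457 c5587 c5509 c5358 c2938 c5451 (k8 c5359 c5443 c1056 c4562 c5569 c5521 c9713 c16512 (k8 c16514 c1753 c16518 c356 c1328 c16517 c667 c5014 (k8 c15210 c16509 c16516 c3240 c15213 c5605 c12897 c16041 (k2 c8101 c5192 k0)))))))))))) (by decide +kernel)
def c16520 : PP 9 3 T 0x40000201000000000000000000000004000200000000000000000000080920000000000000000000000000000000000000000000000014 := rS 0x487b5084b130edee491bbd73a1714a1cb6791a8272421da7b886891fbfe3a3323d2ab2452c000c813 (k8 c5564 c15726 c5642 c1057 c284 c16392 c16163 c5520 (k8 c5316 c2081 c11059 c5318 c5567 c1949 c15747 c16506 (k8 c5528 c16504 c5438 c280 c5441 c1893 c11253 c9694 (k8 c5433 c16490 c5519 c5518 c5334 c5333 c5332 c9148 (k4 c353 c16507 c5541 c16519 (k1 c15226 k0)))))) (by decide +kernel)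
def c16521 : PP 9 3 T 0x4000000000068000210000000000000000100000000000000000000044000000000000020000100020000000041001005400000004000010040000002 := rS 0x1ed3db3600df5aa40482770ab55efd54a04de6b55c5567f3 (k8 c15208 c5532 c5414 c5413 c1058 c5565 c5380 c5489 (k8 c5405 c5406 c5490 c9214 c2927 c5651 c13524 c1094 (k4 c2948 c3623 c8709 c15912 (k2 c5502 c15895 k0)))) (by decide +kernel)
def c16522 : PP 9 3 T 0x40000201000000000000000000000004000200000000000000000000080020000000000000000000000000000000000000000000000014 := rS 0xc96528606b17ffba3be356ec83e47ace74663f149b4174a2fec4c2072284c86580019112793f98f25b4 (k8 c16506 c16504 c5355 c5358 c5441 c5567 c15726 c5642 (k8 c1057 c1949 c5564 c284 c5432 c661 c16501 c10372 (k8 c16163 c5516 c665 c9694 c5318 c5316 c16490 c16392 (k8 c5520 c5517 c5210 c5490 c5579 c2081 c15747 c11059 (k4 c5506 c5508 c16521 c14519 (k2 c1324 c16520 k0)))))) (by decide +kernel)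
def c16523 : PP 9 3 T 0x40000200080000000000000100000000000200200000000000000000400000000000000000000000000000000000000000010018000002 := rS 0x28196b01385c7a73409bcc207 (k8 c5432 c661 c5565 c5380 c5379 c5436 c5433 c351 (k4 c2161 c9148 c11559 c1198 k0)) (by decide +kernel)
def c16524 : PP 9 3 T 0x40000201000010000000000000000004000200000000000000000000000020000000000000000000010000000000000000000000000014 := rS 0x3ebf1d294ecd815e7db72a52ac7c9b8dbfe3ef30d45c2d2425792fd34b480f85c71557aadaab3efab552c96f1e99ac7f6a1096260b8850e5b7a8dc92f77e9afe6e11db2942b17f91e07b4319fcf2610397cda0b1fe743f4ad8f8d3e40f7475ae810d077644509d648689698d413922c000c829 (k8 c9694 c15726 c5642 c1057 c16504 c5438 c280 c16522 (k8 c5567 c1949 c16392 c5564 c284 c5210 c5486 c1056 (k8 c5380 c1765 c16523 c5658 c14662 c1602 c5462 c16501 (k8 c16163 c5517 c16490 c5318 c5516 c665 c10372 c5432 (k8 c661 c5441 c5358 c5355 c16506 c5508 c5520 c11059 (k8 c5506 c16521 c5680 c5332 c1714 c15208 c1058 c5405 (k8 c5333 c5334 c5518 c5519 c1893 c11253 c5528 c5433 (k8 c9148 c353 c16507 c5541 c5357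 c2502 c15895 c15912 (k8 c10123 c5489 c5490 c5451 c5532 c5585 c5413 c5406 (k8 c5414 c1775 c5457 c9158 c10153 c2514 c4135 c9072 (k8 c1090 c16409 c5587 c5583 c5509 c5359 c5443 c4562 (k8 c5569 c5521 c9713 c356 c1328 c16515 c16509 c16516 (k4 c3240 c15213 c5605 c12897 (k2 c16041 c8101 (k1 c5192 k0))))))))))))))) (by decide +kernel)
def c16525 : PP 9 3 T 0x40000201000000000000000000000004000200000000000000000000000020000000000000000000010000000000000000000000000014 := rS 0x3538152bb242eb91156ce2ddc5dd4f7d29a8fef848f88ce78f133bd24250bb2942b17f91e07b4319fcf2610397cda0b1fe743f4ad8f8d3e40f7475ae810d077644509d648689698d413922c000c829 (k8 c9694 c15726 c5642 c1057 c16504 c5438 c280 c16522 (k8 c5567 c1949 c16392 c5564 c284 c5210 c5486 c1056 (k8 c5380 c1765 c16523 c5658 c14662 c1602 c5462 c16501 (k8 c16163 c5517 c16490 c5318 c5516 c665 c10372 c5432 (k8 c661 c5441 c5358 c5355 c16506 c5508 c5520 c11059 (k8 c5506 c16521 c5680 c5433 c1090 c16409 c4346 c9148 (k8 c5443 c5379 c5331 c9713 c16524 c5638 c3476 c3222 (k8 c1349 c1351 c3475 c16511 c5612 c12587 c355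 c5662 (k4 c2956 c310 c616 c1329 (k2 c1063 c1785 (k1 c5264 k0))))))))))) (by decide +kernel)
def c16526 : PP 9 3 T 0x40000201000000000000000000000004000200000000000000000000000020000000000000000000000000000000000000000000000014 := rS 0x1f5f8e94a766c0af3eca52ae177210382fd34f25a405bce3f09e99bed4212d242612b2594a170a7fc7f32042daa8b86c0d63ee7fc75a6b310c5557b46bf7d5aaf7e87553b28f8edee491bbd48e4dace747e1740e34526d059ac3f4a2fec4c2074396efe1a2284c868963e3ef2793f98c6a09c91600064 (k8 c15726 c5642 c1057 c16504 c5438 c280 c5355 c5358 (k8 c5441 c5359 c5443 c5357 c5567 c1949 c5564 c284 (k8 c1056 c4562 c1893 c11253 c5432 c661 c16501 c10372 (k8 c16163 c5517 c1058 c5516 c665 c9694 c5569 c5380 (k8 c5433 c5318 c16490 c16392 c5521 c5520 c5519 c5518 (k8 c5334 c5333 c5332 c9713 c5210 c5489 c5486 c5405 (k8 c5406 c5490 c5451 c1765 c16506 c5413 c5414 c5528 (k8 c5532 c16522 c16523 c11059 c5658 c5506 c5508 c5509 (k8 c5583 c5585 c5587 c14662 c15208 c5462 c1602 c1714 (k8 c16521 c5680 c10123 c1090 c9148 c16409 c353 c16507 (k8 c5541 c2502 c15895 c5457 c1775 c15912 c9158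 c10153 (k8 c9072 c2514 c4135 c16525 c667 c15210 c16511 c356 (k8 c1328 c16509 c16516 c3240 c15213 c5605 c12897 c16041 (k2 c8101 c5192 k0)))))))))))))) (by decide +kernel)
def c16527 : PP 9 3 T 0x50000201000000000000000000000004000200000000000000000000000000000000000000000000000000000000000000000000000014 := rS 0x477ded36bf8598d180b3de6825521620690eec8761f7b8ddeb4aace74663918a051a7dd88a50e5b3b8688a1321a24f27f3a8d413922c000c8c5 (k8 c16526 c15726 c5642 c1057 c16504 c5438 c280 c5440 (k8 c5358 c5441 c5567 c1949 c5564 c284 c1056 c4442 (k8 c1893 c11253 c9694 c16501 c5566 c5381 c5380 c5434 (k8 c5317 c5316 c16490 c16392 c16163 c5519 c5518 c5333 (k8 c5517 c5332 c5210 c5486 c9742 c16164 c845 c1269 (k8 c1270 c283 c11551 c1977 c1975 c3587 c5537 c4538 (k4 c16505 c5861 c16523 c5658 k0))))))) (by decide +kernel)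
def c16528 : PP 9 3 T 0x4000000000000060000200080000000000000100000004000200000000000050000000000000000000000000004000000000040001140010010058000002 := rS 0x3cd9edf7fb47e6d54835a02278e0c4d67f (k8 c5358 c1058 c5434 c5658 c351 c2139 c16523 c13524 (k8 c206 c5589 c9793 c3009 c2948 c8707 c555 c16068 k0)) (by decide +kernel)
def c16529 : PP 9 3 T 0x8000000000000000000011000000000000000000000000000000000000000050000000000000000000000000015000000000020005500000000000000000 := rS 0x41403daf321c7606ff (k8 c5586 c5508 c5504 c1949 c283 c8823 c3593 c5672 (k1 c1977 k0)) (by decide +kernel)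
def c16530 : PP 9 3 T 0x40000201000000000000000000000004000200000000000000000000000000000000000000000000010000000000000000008000000014 := rS 0x3ebf1d294ecd815e7db72a52ae14809208c7c9a3dc6dff1f798ec3617e34589592b179030ae391d8dc1ebf77c01a0cf7eb37dbdf6af85bc9a3da109621ce91d8e99889b4166b4e9840e5f319e594a11fb49afeeda0d412434491426872d8a6b2f524bdc3f4a0e9d51a7fc91f4ee1a2c000c8c540ec55bb2 (k8 c5210 c5490 c16501 c5380 c16526 c15726 c5642 c1057 (k8 c1056 c4442 c5566 c16504 c5358 c5381 c5440 c5486 (k8 c16163 c5517 c5333 c5334 c5519 c16392 c9694 c1893 (k8 c11253 c5564 c284 c5567 c1949 c5438 c280 c16527 (k8 c16528 c5507 c5861 c5318 c2927 c14519 c5441 c5355 (k8 c10372 c5432 c661 c5412 c1058 c5516 c665 c5411 (k8 c5530 c5357 c5520 c16490 c5528 c353 c16529 c847 (k8 c3598 c1327 c5536 c5585 c5725 c5541 c2502 c5405 (k8 c2562 c5688 c2135 c5024 c4135 c9739 c5518 c5332 (k8 c5317 c5313 c11223 c2540 c5506 c1324 c60 c5583 (k8 c8136 c5587 c5509 c5504 c5359 c5443 c4562 c5569 (k8 c5436 c5521 c9713 c2858 c12670 c12613 c16518 c356 (k8 c1328 c16515 c16509 c16516 c3240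 c15213 c5605 c12897 (k2 c16041 c8101 (k1 c5192 k0))))))))))))))) (by decide +kernel)
def c16531 : PP 9 3 T 0x40000201000000000000000000000004000200000000000000000000000000000000000000000000000000000000000000008000000014 := rS 0x627177b8bae9c8e753795d5a9c0a8efabc8cbb64bf68da94ab85dc840e0bf5a37bc29a489efda846512d42ad8f8ec6e4726e747f1393a3f1a6d059acbfb13081d8f8fbc9e4c7114e885331d58c3617e345f7daad26bfbb68350490d124509a1cb629acbd492f70fd283bb23aa34ff923e9dc3458001918a81 (k8 c5380 c16526 c15726 c5642 c1057 c1056 c4442 c5566 (k8 c16504 c5358 c5381 c5440 c5210 c5486 c16163 c5517 (k8 c5333 c5334 c5519 c16392 c9694 c1893 c11253 c5564 (k8 c284 c5567 c1949 c5438 c280 c16527 c16528 c5507 (k8 c5861 c5585 c5725 c5583 c8136 c5587 c5509 c5506 (k8 c5504 c5530 c5528 c5412 c5411 c5355 c5441 c5359 (k8 c5443 c5357 c5432 c661 c16501 c10372 c1058 c5516 (k8 c665 c5569 c5568 c5383 c5382 c5318 c16490 c5521 (k8 c5520 c5518 c5332 c9713 c5490 c2927 c353 c14519 (k8 c16529 c5541 c847 c849 c3598 c5536 c1327 c1326 (k8 c4135 c16530 c667 c15210 c16511 c356 c1328 c2692 (k8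 c16509 c5595 c5639 c5641 c16516 c985 c1761 c3240 (k8 c5277 c9954 c5623 c5681 c1728 c1376 c1375 c2955 (k4 c3347 c2522 c2411 c3616 k0)))))))))))))) (by decide +kernel)
def c16532 : PP 9 3 T 0x40000201000000000000000000000004000200000000000000000000000000000000000000000000000000000000000000000000000014 := rS 0xcc6fb45c2905032c4ff3f1bfd17036bac7ddb4628d4c67f04e48864543984d66d2c068b6001487764640fbdc920b7ad2ab39d0385c7a734084cde89 (k8 c5567 c5565 c5564 c5380 c5379 c5436 c5433 c5432 (k8 c16490 c16392 c16163 c5519 c5516 c5334 c5333 c5517 (k8 c15726 c5210 c5486 c9694 c5642 c1893 c1056 c1057 (k8 c665 c1058 c661 c11253 c284 c1949 c16504 c5438 (k8 c5358 c5355 c280 c16526 c16527 c16528 c5506 c5507 (k8 c5508 c5583 c5586 c8136 c15208 c16531 c9148 c11559 (k4 c13524 c9214 c9793 c2948 (k2 c16503 c8709 k0)))))))) (by decide +kernel)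
def c16533 : PP 9 3 T 0x2002000000000008000211000000000000000000080000000000001000000000000000200020000000000000000040000000120000000000000000000008 := rS 0x20d0aab7887c46f543bdc3601639edc2df (k8 c5538 c5460 c5457 c5535 c28 c1944 c5333 c2111 (k8 c5519 c5331 c5517 c9695 c5500 c5541 c16241 c15077 k0)) (by decide +kernel)
def c16534 : PP 9 3 T 0x4006000000000059000211000000000000000000080000000000001000000000000000000020000000010000000000000002120000000000000000000008 := rS 0x38922b53c9b0d7ed4f3503e237ac4cfa8f88a1dee1b009fda6cb56b1cf6e16ff7dae81 (k8 c5380 c1765 c5451 c5538 c5460 c5457 c5535 c5490 (k8 c1755 c14519 c729 c28 c1944 c5333 c2111 c9729 (k8 c5568 c5566 c5382 c5519 c5331 c5517 c5689 c5680 (k8 c16533 c16271 c5665 c1578 c8714 c747 c3610 c1608 k0)))) (by decide +kernel)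
def c16535 : PP 9 3 T 0x400a000000000018000211000000000000000100000000000200001000000050000000000000000000000000000000000002120000100440000440000008 := rS 0x244f26c35fb46a41198e463114386c0243449eda2cd (k8 c5537 c5459 c5457 c5567 c1949 c28 c1944 c2111 (k8 c9729 c5434 c5317 c5316 c5462 c5281 c15359 c16271 (k4 c5665 c1578 c747 c12577 k0))) (by decide +kernel)
def c16536 : PP 9 3 T 0x4000000000000050000201040000000000000000000004000200000000000000000000000000000000000000000000000000020000000000000000000010 := rS 0x719e5fc6b7933fda91ef0d58be38e174761f1bbd4723140c4cfa8f22c5446877bd28ee43449d52a7f3006c0233d93c54228129bc4e0209d6432c73db45c2cd6ff833bb1 (k8 c16501 c16490 c5235 c5538 c5537 c5460 c5459 c5457 (k8 c5535 c5315 c16392 c5564 c16532 c267 c5565 c1113 (k8 c5651 c1195 c9695 c5210 c5316 c28 c1944 c15897 (k8 c729 c5488 c1575 c5567 c1949 c2051 c16163 c5333 (k8 c2111 c5331 c1289 c456 c5568 c5566 c5382 c5380 (k8 c5434 c5317 c5519 c5518 c5517 c5332 c14849 c5658 (k8 c16535 c16534 c281 c5668 c16503 c15359 c5453 c9979 (k4 c16271 c555 c1578 c2574 (k1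 c3610 k0))))))))) (by decide +kernel)
def c16537 : PP 9 3 T 0x2000000000000008000001000000000000000000000000000000000000044000000140551400000000000000000000000000020000000000020400000411 := rS 0xb2710819f01 (k4 c5502 c5543 c15987 c3627 (k2 c541 c2459 k0)) (by decide +kernel)
def c16538 : PP 9 3 T 0x50000201040000000000000000000004000200000000000000000000000000000000000000000000000000020000000000000000000010 := rS 0xf1a7dc4915a9e4d86bf6bfdab036bfb9becd70b44f6c7f01743e0b7ae76267d47c462a2343bde947f69b2cc01b008cde281508a04a6f1380827590cec55bb2 (k8 c5210 c5490 c16501 c5315 c16392 c5564 c16532 c267 (k8 c5565 c1113 c5651 c1195 c5380 c9695 c5316 c28 (k8 c1944 c15897 c1755 c14519 c729 c16163 c5333 c2111 (k8 c5331 c1289 c9729 c5568 c5566 c5382 c16490 c5519 (k8 c5516 c5517 c14849 c5235 c5535 c5457 c5459 c5460 (k8 c5537 c5538 c16536 c5507 c5508 c5585 c5586 c16537 (k8 c16271 c5665 c1578 c8714 c747 c3610 c1608 c10517 (k1 c5680 k0)))))))) (by decide +kernel)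
def c16539 : PP 9 3 T 0x1000000000000000000201040000000000000000000000000000000000008000000040000060000000000001002041100000000000000000000000000000 := rS 0x1c27b71b45afdf40c4cfa8f (k8 c5568 c5566 c5382 c5380 c5451 c1765 c10484 c2575 (k2 c848 c3013 (k1 c3610 k0))) (by decide +kernel)
def c16540 : PP 9 3 T 0x8000011040000000000000000000000000000000000000000000000000010000004000100002000400002000000000000000000000000 := rS 0x1e13df78ea95 (k4 c5488 c1575 c5668 c847 (k2 c16230 c10425 k0)) (by decide +kernel)
def c16541 : PP 9 3 T 0x40000201040000000000000000000004000200000000000000000000000000000000000000000000000000020000000000000000000010 := rS 0x49a6dc27bf0347bec448a11bec7f6bc966993688557b4659d4be607e8752aa9d90ec460b1bbd6959d1ca07624578a8450253789c27590c9dc661b008088689 (k8 c5567 c1949 c16532 c28 c1944 c5316 c2051 c5315 (k8 c16392 c5564 c267 c5565 c1113 c5651 c1195 c9695 (k8 c456 c16501 c5380 c5317 c16490 c16163 c5519 c5518 (k8 c5516 c5331 c5332 c5210 c5489 c5488 c5486 c5405 (k8 c15897 c62 c1575 c1755 c16538 c5413 c5528 c5529 (k8 c5530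 c5532 c10456 c15987 c726 c14125 c283 c15226 (k8 c16540 c5451 c10484 c5185 c848 c5460 c5536 c15227 (k1 c9933 k0)))))))) (by decide +kernel)
def c16542 : PP 9 3 T 0x2000000000000019000001000000000000000000000000000200000000000050000000000200000000000004000000000000020000000450000400000411 := rS 0x4da67c29d10331a2ab548cc7231 (k8 c5434 c5317 c5316 c5489 c5500 c5501 c15359 c15987 (k4 c1275 c5537 c2440 c2491 (k1 c5679 k0))) (by decide +kernel)
def c16543 : PP 9 3 T 0x19000011080000000000000000000000000200000400000050000000000400000000000000400110000000020000000440020440000418 := rS 0x1bee3252c8400c3db85a2cd422453683361afda975483cba571c81e2315439dc661b00b1c6a93efb2012f1 (k8 c9695 c5438 c15918 c5494 c261 c280 c5357 c28 (k8 c1944 c5316 c2051 c2111 c1289 c9729 c5432 c5317 (k8 c5313 c14849 c9739 c5489 c5404 c16542 c16271 c5665 (k8 c8722 c2492 c747 c5672 c12000 c2134 c15133 c848 (k4 c11223 c2426 c541 c540 (k2 c2459 c2510 (k1 c5972 k0))))))) (by decide +kernel)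
def c16544 : PP 9 3 T 0x40000201000000000000000000000004000200000000000000000000000000000000000000000000000000020000000000000000000010 := rS 0xcff0b37dad14d3c842abda32da7efefa4d90350497f24430dab5fa1d54ec8761f11bdc16377ad2b3a331c8fd03133ea251fb100915e2a114094de270104eb219 (k8 c5315 c16392 c5564 c16532 c267 c5565 c1113 c5651 (k8 c1195 c9695 c456 c28 c16501 c5568 c5567 c5566 (k8 c5382 c5380 c5318 c5317 c5316 c16490 c16163 c5519 (k8 c5518 c5516 c5333 c5331 c5517 c5332 c5210 c5489 (k8 c5486 c5405 c5490 c1944 c1949 c16541 c5439 c5438 (k8 c280 c15918 c261 c5494 c14395 c15747 c1325 c16543 (k8 c5413 c5528 c10456 c9933 c2133 c15987 c2500 c5536 (k2 c2562 c5688 k0)))))))) (by decide +kernel)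
def c16545 : PP 9 3 T 0x2000000000000050000201040000000000000000000004000200000000000000000000000000000000000000000000000000000000000000000000000010 := rS 0x35178da764877e02870787dee371c85e231511a1416837a9d462c503a2dff1d2d164ba6423d288a28129bc4e0209d65e29b4ef833bb1 (k8 c16501 c16490 c5235 c5458 c8100 c9695 c16392 c5564 (k8 c16532 c267 c5565 c1113 c5651 c456 c16163 c5520 (k8 c15726 c14849 c16544 c5644 c4516 c11059 c686 c5432 (k8 c681 c5434 c1894 c5519 c1896 c5516 c683 c5331 (k8 c1289 c9729 c5433 c5317 c5518 c5333 c5517 c9739 (k8 c5499 c5502 c10382 c15061 c5668 c747 c2054 c5665 (k1 c8111 k0))))))) (by decide +kernel)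
def c16546 : PP 9 3 T 0x1000001040000000000000000000000000000000000000000000000500010000000010000150110100044400000000000000000000000 := rS 0x1f8c077 (k4 c11141 c5663 c10269 c729 k0) (by decide +kernel)
def c16547 : PP 9 3 T 0x50000201040000000000000000000004000200000000000000000000000000000000000000000000000000000000000000000000000010 := rS 0x1ad0c9df6a6fc00f0f88c6f9d1c85d0a0b41bd6945e6a8f5ae420d191164578b140e752d164ba31508a04a6f1384eb2193180b62893ea350267 (k8 c9680 c5380 c5381 c5566 c5567 c16501 c16532 c9752 (k8 c5315 c16392 c5564 c267 c5565 c1113 c5651 c1195 (k8 c5434 c14849 c16544 c5644 c1894 c5432 c681 c9695 (k8 c456 c686 c15726 c1892 c1310 c1933 c5436 c2778 (k8 c16546 c16163 c5519 c1896 c5516 c683 c5433 c5317 (k8 c16490 c5518 c5331 c5517 c9739 c5235 c8100 c16545 (k4 c5458 c5672 c8111 c2114 k0))))))) (by decide +kernel)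
def c16548 : PP 9 3 T 0x40000201040000000000000000000004000200000000000000000000000000000000000000000000000000000000000000000000000010 := rS 0xf11f9bec64826a02873da6442ab4eed13e932f19c761f118dc721740a34fa89d898d42194282d06f53ab140e8b7fc748f4a22bc560d718b54841a2d164ba6414094de270104eb23d (k8 c5436 c16392 c5564 c16532 c267 c5565 c1113 c5651 (k8 c15726 c14849 c16544 c5644 c1892 c1310 c2778 c5434 (k8 c1933 c1309 c9695 c456 c16163 c5520 c4516 c11059 (k8 c686 c5432 c681 c1894 c5519 c1896 c5516 c683 (k8 c5315 c1195 c9752 c16501 c5567 c5566 c5381 c5380 (k8 c5433 c5317 c5518 c5331 c5517 c5332 c9680 c16546 (k8 c1517 c1522 c16547 c5412 c5413 c5528 c5530 c1686 (k8 c2113 c2143 c3578 c15061 c1120 c2949 c800 c14178 (k1 c5577 k0))))))))) (by decide +kernel)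
def c16549 : PP 9 3 T 0x2004000000000051000200000000000000000000000000000000000000040000000000090050000000000000041401500000000000000000000000000000 := rS 0xf6cd6fb87e6cf80a1d0313 (k8 c5382 c5380 c5499 c5502 c5543 c12913 c3062 c14805 (k2 c12473 c15912 (k1 c3607 k0))) (by decide +kernel)
def c16550 : PP 9 3 T 0x1000000000000001000001000000000000000000000004000000000000000000000000000a00000000000004000000400001080000000000000000400018 := rS 0x9910a74d46d66a195467ce868c88505a0deb4a (k8 c16163 c5519 c1896 c5516 c683 c15726 c1892 c16490 (k8 c9680 c16363 c5672 c12000 c744 c2114 c1276 c266 (k2 c2374 c16353 k0))) (by decide +kernel)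
def c16551 : PP 9 3 T 0x40000201000000000000000000000004000200000000000000000000000000000000000000000000000000000000000000000000000010 := rS 0xde486d20287f6185a2c86527fc693691dcfe796382724d56bc0d60427fa2d8a7541a14351d2d1654245140944e0278ab764642e8ec3e0b7a91e95590c81c2e311ea051a13379f513b1 (k8 c16501 c5567 c5566 c5565 c5564 c5381 c5380 c5436 (k8 c5434 c5433 c5432 c5315 c16392 c16163 c5520 c5519 (k8 c5516 c5517 c5332 c14849 c15726 c5210 c5490 c9695 (k8 c16532 c267 c1113 c5651 c456 c1195 c16544 c5644 (k8 c4516 c1892 c683 c1896 c1894 c681 c686 c11059 (k8 c1310 c1309 c1935 c1933 c2778 c16548 c5438 c5357 (k8 c5441 c5358 c5356 c8254 c261 c5287 c2882 c14519 (k8 c2085 c4501 c1755 c16550 c5499 c5502 c16549 c15061 (k2 c14178 c2948 k0))))))))) (by decide +kernel)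
def c16552 : PP 9 3 T 0x11000001040000000000000000000004000200000000000000000000000000000000000000000000000000020000000000000000000012 := rS 0xea6234992959d (k4 c16490 c16163 c15726 c9742 (k2 c16365 c16502 (k1 c1172 k0))) (by decide +kernel)
def c16553 : PP 9 3 T 0x2002000000000008000001000000000000000000080000000200200400000000000000000000000000000000000150114000020000000000000000000011 := rS 0x1c6916a1b0f2341077d9e3b11bdc16377a8e462c74eb45c2cd6f9dc6602 (k8 c5642 c5316 c2051 c5538 c5537 c5460 c5459 c5458 (k8 c5535 c5434 c5317 c5519 c5518 c5516 c5333 c5331 (k8 c5332 c5543 c10382 c15987 c15359 c8612 c266 c553 (k2 c746 c1662 (k1 c14947 k0))))) (by decide +kernel)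
def c16554 : PP 9 3 T 0x10000201040000000000000000000004000200000000000000000000000000000000000000000000000000020000000000000000000010 := rS 0x7799cc57f3c9c484102450679361afda7f3a98238250606c05110090c8a7743bc4d2ad578752aa9d91743e237bbd6943340c4c266f3ea24e2b3138a562b5db31d3ae16ff833bb1 (k8 c16501 c16490 c5235 c5538 c5460 c5458 c5535 c16551 (k8 c5422 c5421 c5417 c5570 c5574 c5571 c5567 c5566 (k8 c5565 c5564 c5382 c5380 c5316 c16163 c5519 c5333 (k8 c5331 c5517 c14849 c5210 c5489 c5488 c5486 c5406 (k8 c5490 c9742 c9695 c2111 c2051 c284 c1949 c16552 (k8 c9730 c5642 c1944 c16452 c1113 c3582 c15897 c1575 (k8 c728 c16553 c16271 c5665 c1578 c8722 c746 c2426 (k8 c5672 c14947 c12002 c555 c16539 c2574 c5668 c5453 k0)))))))) (by decide +kernel)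
def c16555 : PP 9 3 T 0x2000000000000010000201040000000000000000000004000200000000000000000000000000000000000000000000000000000000000000000000000010 := rS 0x1224536100d6a149a2dae5e3b77dff014383c3e237b8deb2191c8fc2e3d38a7d962714ed9369d70b7fc19dd8c750a0b41bd6947518b140f1100894045a2c974c86f (k8 c5565 c15726 c14849 c16554 c5644 c1893 c1113 c1057 (k8 c9730 c5432 c681 c5434 c1894 c16163 c5519 c1896 (k8 c5516 c683 c4516 c16501 c16490 c5235 c5538 c5460 (k8 c5458 c8100 c16551 c5417 c5570 c5420 c5572 c5571 (k8 c5436 c5433 c5318 c5317 c5315 c16392 c5518 c5333 (k8 c5331 c5517 c9739 c5499 c5502 c5544 c10382 c5668 (k8 c2054 c4532 c14998 c1517 c1121 c8111 c3579 c5665 (k2 c459 c746 (k1 c15061 k0))))))))) (by decide +kernel)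
def c16556 : PP 9 3 T 0x10000201040000000000000000000004000200000000000000000000000000000000000000000000000000000000000000000000000010 := rS 0x109adef69b55167fef114c0772517e2a21351b60686557b44a63629d506858e808b4594ea6fc1b233990ba3b0f88c920b1bbd48f4aace7472070b8c51a6fd89c5662714ac56bb6 (k8 c16551 c5422 c5421 c5417 c5570 c5574 c5571 c16501 (k8 c5565 c5381 c5434 c5433 c5432 c5317 c16490 c16392 (k8 c16163 c5520 c5519 c5518 c5516 c5334 c5331 c5517 (k8 c5332 c14849 c15726 c9680 c5210 c5235 c8100 c5458 (k8 c16554 c5644 c1893 c4516 c683 c1896 c1894 c681 (k8 c9752 c1113 c16555 c16363 c5672 c2199 c744 c2114 (k8 c266 c1139 c8110 c3584 c11141 c5663 c461 c5668 (k8 c728 c686 c5454 c5496 c16454 c5278 c5658 c1933 k0)))))))) (by decide +kernel)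
def c16557 : PP 9 3 T 0x201040000000000000000000004000200000000000000000000000000000000000000000000000000020000000000000000000012 := rS 0x2030366347dcff3a315211d311ac346957bf553b23207c8f4aac9cf627159ac56bb655c57685b2284c8689 (k8 c5567 c1949 c5564 c284 c32 c16556 c5414 c5413 (k8 c16551 c5422 c5421 c5574 c5571 c16501 c5379 c16392 (k8 c16163 c5520 c5517 c15726 c5210 c5489 c5405 c5406 (k8 c9742 c1056 c1058 c16365 c2161 c13067 c837 c1172 (k4 c11059 c5658 c9793 c16503 (k2 c5508 c4398 (k1 c8604 k0))))))) (by decide +kernel)
def c16558 : PP 9 3 T 0x201040000000000000000000004000200000000000000000000000000000000000000000000000000020000000000000000000010 := rS 0x4840e03ef35bca3825f686c040121915e2ad57bf43aa9d91743e237b82deb4a3984cde8938acc4e2958ad76c2143aaf6864 (k8 c15726 c16556 c5413 c2113 c5528 c16551 c5422 c5421 (k8 c5417 c5570 c5574 c5571 c5567 c5565 c5564 c5379 (k8 c16163 c5519 c5516 c5333 c5331 c5517 c14849 c5210 (k8 c5489 c5486 c5405 c5406 c5490 c9695 c284 c1949 (k8 c16557 c5642 c1944 c15987 c1113 c3582 c10456 c16271 (k4 c5504 c2139 c2628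 c13067 (k1 c9181 k0))))))) (by decide +kernel)
def c16559 : PP 9 3 T 0x201040000000000000000000004000200000000000000000000000000000000000000000000000000000000000000000000000010 := rS 0x8a432540bdef312fb23a022d1662aabda2bd53b23217446f523d2ab39d378a563b6 (k8 c16551 c5421 c5417 c5565 c16490 c16392 c16163 c5520 (k8 c5519 c5331 c14849 c15726 c5210 c5489 c5406 c16556 (k8 c5413 c5414 c16558 c5644 c1893 c4516 c16363 c1113 (k4 c5540 c13184 c10275 c9048 (k2 c1935 c460 (k1 c5658 k0)))))) (by decide +kernel)
def c16560 : PP 9 3 T 0x10000201000000000000000000000004000200000000000000000000000000000000000000000000000000020000000000000000000012 := rS 0x37fe6cc2534606cf79b87dc8255217c6a08ec40c26d0d1a4c83b0f92416377a91eb39d198e40e3139a04de7d38a7d96b1db17cf27f319d50ef7a51142643448d41392 (k8 c16559 c5438 c280 c5567 c1949 c5564 c284 c16163 (k8 c5333 c2111 c5440 c5355 c5358 c5441 c5439 c16551 (k8 c5421 c5420 c5572 c5571 c5566 c5565 c5380 c5379 (k8 c5434 c5432 c5317 c5316 c16490 c16392 c5520 c5519 (k8 c5518 c5516 c5334 c5517 c5332 c15726 c9742 c1056 (k8 c665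 c661 c16164 c2161 c3599 c16071 c845 c1269 (k8 c1270 c5658 c9214 c283 c11551 c2199 c1975 c16529 (k4 c3587 c5546 c2510 c8709 k0)))))))) (by decide +kernel)
def c16561 : PP 9 3 T 0x10000201000000000000000000000004000200000000000000000000000000000000000000000000000000020000000000000000000010 := rS 0x11c1286c040121915e2ad57877641337a244e2958ed81392 (k8 c16559 c5438 c16551 c5421 c5417 c5570 c5567 c5565 (k8 c5564 c5210 c5486 c5406 c5490 c9695 c284 c1949 (k4 c16560 c5642 c1944 c1113 (k2 c3582 c14466 k0)))) (by decide +kernel)
def c16562 : PP 9 3 T 0xa000000000000098000010000000000000000000000000000000000500004000000000000000000000000000511400004000000000000000000000000000 := rS 0x369ad211480aad0eaf549c56303 (k8 c5508 c5421 c5571 c5489 c5406 c5499 c5500 c5502 (k4 c10275 c8783 c1139 c746 (k1 c5665 k0))) (by decide +kernel)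
def c16563 : PP 9 3 T 0x8000000000000010000201000000000000000000000004000200000000004000000000000000000000000000000000000000000000000000000000000010 := rS 0x1a29a6fa653a21351b50caaf6b49afb2338ec3e231be7432390ba051b133ea251eb3138a56bb62f9e4fe773aa1416837ad298a07888044a6f49808b4592e9901392 (k8 c16559 c5438 c15726 c14849 c16561 c5644 c1893 c261 (k8 c5565 c1113 c1057 c9730 c5432 c681 c16163 c5519 (k8 c1896 c5516 c683 c5440 c5356 c5358 c5441 c5439 (k8 c16551 c5422 c5417 c5570 c5574 c5568 c5567 c5566 (k8 c5382 c5381 c5380 c5433 c5317 c5315 c16490 c5518 (k8 c5331 c5517 c5332 c9680 c5210 c5507 c5861 c16562 (k8 c16363 c5672 c744 c2114 c266 c1135 c2373 c16463 (k2 c3578 c2136 (k1 c1190 k0))))))))) (by decide +kernel)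
def c16564 : PP 9 3 T 0x2000000000000098000010000000000000000000000000000000000500044000000000000000000000000000551400004000000000000000000000000000 := rS 0x1b4d6908a405568757aa4e2b1 (k8 c5421 c5571 c5489 c5406 c5499 c5500 c5502 c10275 (k4 c3613 c1139 c746 c5665 k0)) (by decide +kernel)
def c16565 : PP 9 3 T 0x10000201000000000000000000000004000200000000000000000000000000000000000000000000000000000000100000000000000010 := rS 0x3c09af9a653a21351b50dedefb49aad78190bdeff45ec8ce3b0f88c923723d673a3918a051b133ea251eb35a97cf27f3b9d63a8505a0deb4a6281e2201f1a4c13921f8f44a022d164ba6437a7d96171386453b6 (k8 c16551 c5417 c5315 c5570 c5433 c5420 c5572 c5565 (k8 c15726 c14849 c16561 c5644 c1893 c1113 c5436 c5318 (k8 c16559 c5438 c261 c7824 c1057 c9730 c5432 c681 (k8 c16163 c5519 c1896 c5516 c683 c4516 c5440 c5356 (k8 c5358 c5441 c5439 c5422 c5574 c5568 c5567 c5566 (k8 c5382 c5381 c5380 c5434 c5317 c16490 c16392 c5520 (k8 c5518 c5334 c5331 c5517 c5332 c9680 c5210 c686 (k8 c11059 c16563 c5658 c1935 c1933 c2778 c3608 c5496 (k8 c16564 c5672 c744 c2114 c266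 c1135 c2373 c8140 (k2 c3578 c5204 (k1 c5536 k0))))))))))) (by decide +kernel)
def c16566 : PP 9 3 T 0x40000000000000200000001001010100040000000000004000040002040500000000000000000140104000000000000054000000000200000015000000000 := rS 0x2ac370fb2 (k4 c5210 c5429 c15141 c463 (k1 c15138 k0)) (by decide +kernel)
def c16567 : PP 9 3 T 0x2000400000000110000010080000000000000000000000000200400000000051000000002000000001000000000000000000080050000440000600000008 := rS 0x1b1f16df968cdd72427e9a5d7b0eccc141c1de705 (k8 c5545 c5540 c5503 c1896 c5319 c16186 c5348 c5603 (k8 c12897 c5242 c5556 c7375 c2233 c8896 c5622 c3382 (k2 c5624 c5690 (k1 c3334 k0)))) (by decide +kernel)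
def c16568 : PP 9 3 T 0x200000001001010100040000000000004000040000050000000000000000000100100000000000000054000000000200000015000000000 := rS 0x55 (k2 c463 c15138 k0) (by decide +kernel)
def c16569 : PP 9 3 T 0x2000000000000010000201000000000000000000000004000200000000080000000000000000000000000000000000002000000000000000000200000010 := rS 0x233f55c42637177cb75b7f7865fe2ab7c3ee1760c78bf706a9c8c7c7623279373b27c6af70b6fbec3eb2ab83c17bef71bb55fecc6f247c693048f42e19698fda28505a1d9ee14db1c4a02320a496f33789d3e71409cd96c503a0cb4592ebd7e6b159eda024424d2b6592 (k8 c16559 c5210 c16163 c5334 c16565 c3066 c16551 c5574 (k8 c5421 c14538 c5519 c14849 c16561 c5644 c1896 c5432 (k8 c681 c5420 c5379 c5380 c5571 c5572 c5570 c5565 (k8 c5540 c460 c5417 c15726 c1893 c1113 c5357 c2492 (k8 c15149 c5543 c5499 c5516 c683 c5501 c5318 c2936 (k8 c5315 c5433 c5436 c5438 c261 c7824 c746 c15137 (k8 c2516 c5544 c3002 c5518 c5333 c10382 c5545 c5503 (k8 c5500 c16392 c16457 c9704 c4559 c5423 c5575 c5569 (k8 c5383 c16490 c5521 c5335 c5331 c5332 c9713 c5491 (k8 c5489 c5407 c5405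 c9695 c265 c4763 c16567 c5429 (k8 c5616 c16566 c2220 c16568 c5640 c3497 c4557 c3492 (k4 c3456 c15144 c2212 c3624 (k2 c5632 c3504 (k1 c5697 k0)))))))))))))) (by decide +kernel)
def c16570 : PP 9 3 T 0x400000000110000010081000000000000100000000000240400410580054000000802000140000000001400000002000000050200440000400020008 := rS 0xf836fcb466eb9213f4d2ebd87668db64aac1 (k8 c5319 c463 c2193 c2696 c15139 c5348 c5603 c12897 (k8 c5242 c5556 c7375 c2233 c8896 c5622 c3382 c5690 (k1 c5624 k0))) (by decide +kernel)
def c16571 : PP 9 3 T 0x2000000000000010000201000000000000000000000004000200000000080000000000000000000000000000000000002000000000000000000000000010 := rS 0x469f2dd6ddfe19b95da80211406885991f078ec3e232791c9b9d46c4e4e8fc6af70ab5b7df61f5955c1e0a9cd8b5bbef71bfbdaade48f8d26091e85c32d31fb450a0b43b3dc29b6389404641492de66f13a7ce28139b2d8a0741968b25d7afcd62b3db4048849a56cb24ff (k8 c5544 c16559 c5210 c16163 c5334 c16565 c3066 c16551 (k8 c5574 c5421 c14538 c5519 c14849 c16561 c5644 c1896 (k8 c5432 c681 c5420 c5379 c5380 c5571 c5572 c5570 (k8 c5565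 c5540 c460 c5417 c15726 c1893 c1113 c5357 (k8 c2492 c15149 c5543 c5499 c5516 c683 c5501 c5318 (k8 c2936 c5315 c5433 c5436 c5438 c261 c7824 c746 (k8 c15137 c3002 c5582 c5518 c5333 c10382 c12713 c16501 (k8 c13097 c5545 c5503 c5500 c16392 c16457 c9704 c4559 (k8 c5422 c5423 c5575 c5569 c5568 c5383 c5382 c5381 (k8 c16490 c5521 c5520 c5335 c5331 c5517 c5332 c9739 (k8 c9713 c2516 c16569 c2426 c3584 c15376 c2950 c4129 (k8 c16566 c16570 c2207 c3497 c4557 c3492 c15143 c15144 k0)))))))))))) (by decide +kernel)
def c16572 : PP 9 3 T 0x2000000000000010000201000000000000000000000004000200000000000000000000000000000000000000000000002000000000000000000000000010 := rS 0x174a0080d2288a66c0dac9c6f385229b57aa63e3b1193c8e4dace746639189cd028d89c9d128fc6ec4e2c74282d06f56281e2201f1a4c13921e894045a2c974c86f4fb2c2e270c8a7ded31fa1d56d167bffbef71bfcd62b3db404934ad912de644 (k8 c16565 c5540 c460 c5210 c16163 c5334 c3066 c16551 (k8 c5574 c5421 c14538 c5518 c5333 c10382 c5544 c5543 (k8 c5501 c5500 c5499 c5318 c2936 c5582 c5417 c5315 (k8 c5570 c5433 c5420 c5572 c5565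 c15726 c14849 c16561 (k8 c5644 c1893 c1113 c5436 c16559 c5438 c261 c7824 (k8 c1057 c9730 c5432 c681 c5519 c1896 c5516 c683 (k8 c5357 c5571 c16501 c5569 c5568 c5567 c5383 c5382 (k8 c5381 c5380 c5379 c5434 c5317 c5316 c16490 c16392 (k8 c5521 c5520 c5335 c5331 c5332 c9713 c5489 c5406 (k8 c2492 c746 c15149 c15137 c13097 c12713 c16571 c2191 (k4 c16564 c10275 c15359 c685 (k2 c2950 c15148 (k1 c4129 k0))))))))))))) (by decide +kernel)
def c16573 : PP 9 3 T 0x2000000000000010000201000000000000000000000004000200000000000000000000000000000000000000000000000000000000000000000000000010 := rS 0x450d4213692de61f119248f4aceacc4e295aeda220112808b4592e990de44 (k8 c16565 c5565 c15726 c14849 c16561 c5644 c1893 c1113 (k8 c1057 c9730 c16551 c5422 c5417 c5570 c5574 c16490 (k8 c16163 c5520 c5334 c5331 c5517 c5540 c460 c16572 (k4 c266 c5665 c3584 c1139 k0)))) (by decide +kernel)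
def c16574 : PP 9 3 T 0x10000201000000000000000000000004000200000000000000000000000000000000000000000000000000000000000000000000000010 := rS 0x22a21259a8db03432abda4412a0d0a022d164ce642e87c464905bd48f4ace9bd662714ac56bb6 (k8 c16551 c5422 c5421 c5417 c5570 c5574 c5565 c16490 (k8 c16163 c5520 c5519 c5516 c5334 c5331 c5517 c14849 (k8 c15726 c9680 c16561 c5644 c1893 c683 c1896 c1113 (k8 c16565 c16573 c16363 c5672 c2199 c744 c2114 c461 (k2 c266 c1139 (k1 c3584 k0)))))) (by decide +kernel)
def c16575 : PP 9 3 T 0x201000000000000000000000004000200000000000000000000000000000000000000000000000000000000100000000000000012 := rS 0x3150a7b66fb5170370b7fe7eef1a8120438e984d6580d3f764640fd2ab39d198e40e73409bcfa8938acd3ecb58ad76c5f3c9fcc675c92acdbb4 (k8 c16574 c5529 c5413 c16559 c5440 c5355 c5358 c5441 (k8 c5439 c16551 c5422 c5421 c5420 c5572 c5574 c5571 (k8 c5567 c5566 c5565 c5380 c5379 c5432 c5317 c5316 (k8 c16490 c16392 c16163 c5517 c15726 c5210 c5405 c1056 (k8 c1057 c1058 c661 c2161 c1949 c13067 c3599 c16071 (k8 c5658 c5589 c2948 c9214 c5508 c5583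 c13184 c8709 (k4 c15912 c849 c15895 c16371 k0))))))) (by decide +kernel)
def c16576 : PP 9 3 T 0x20000000000000000000000000080000000200000000000000000000000400001400004000000150054004400000000000014000000118 := rS 0xa071f84829af1fcdbe93128ec3e232482c6e470c8e47e171ea762a21 (k8 c5528 c5414 c5412 c5436 c5433 c5318 c5317 c5315 (k8 c5520 c5518 c5516 c5334 c5331 c5517 c5332 c1113 (k8 c261 c16463 c8140 c7824 c9933 c13247 c5536 c2621 (k2 c10308 c10309 k0)))) (by decide +kernel)
def c16577 : PP 9 3 T 0x201000000000000000000000004000200000000000000000000000000000000000000000000000000000000000000000000000010 := rS 0x442c00007b4319fc125fc92d4522765a7d6671db1f4de13409ccc94a (k8 c16163 c15726 c5379 c5380 c5564 c5565 c5566 c16551 (k8 c5571 c5574 c5572 c5420 c5570 c5417 c5422 c16559 (k8 c5439 c5438 c5358 c5355 c16574 c16576 c5642 c1057 (k2 c16575 c284 k0)))) (by decide +kernel)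
def c16578 : PP 9 3 T 0x800000000000000a000111000000000000000000080000000000000000000000000000000400000008000000001910054000420000000105000000000000 := rS 0x315a2cd3f349926356a5d17ed (k8 c5500 c5583 c5404 c5490 c5395 c5396 c8156 c13195 (k4 c2075 c4405 c840 c15030 k0)) (by decide +kernel)
def c16579 : PP 9 3 T 0x10000001000000000000000000000004000200000000000000000000000000000000000000000000000000000000000000000000000014 := rS 0x7cd23146f27198d15033c6a75319fcf209c96c5027d479bc20f389a09548543c40c25f2c16c0069d9190761f7b9246ef523d2b3a331c81c2e311e9c59673db47606457ffbb4359 (k8 c16392 c16577 c5219 c5586 c5582 c5508 c5504 c5212 (k8 c5419 c5420 c5571 c5436 c5434 c5433 c5432 c5317 (k8 c5316 c16490 c16163 c5520 c5519 c5518 c5334 c5333 (k8 c5517 c5332 c15726 c5210 c9742 c5642 c1893 c1057 (k8 c1054 c661 c16164 c11253 c845 c1269 c1270 c955 (k8 c283 c15178 c2746 c2751 c2747 c699 c16578 c16552 (k8 c5438 c5441 c5358 c5355 c5440 c280 c11551 c9934 (k8 c1975 c3587 c2076 c1278 c1277 c2948 c5590 c5675 k0)))))))) (by decide +kernel)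
def c16580 : PP 9 3 T 0x80000101000000000000000000000004000000000000000000000000000000000000000000000000000000020000100000000000010001 := rS 0x1b (k2 c1944 c15187 k0) (by decide +kernel)
def c16581 : PP 9 3 T 0x2000000000000010000001040000000000000000000004000200000000000000000000000000000000000000000000004000000000000000000000000010 := rS 0xf124d025e3b314b4593f844eb121a1b19ac735f8229b1efc05a2ab57aa764642e8edee0b1bbd6959d0c8cc723f0385c623d14a7d962758ed91b0322fbb435900c444a02 (k8 c16579 c1113 c9729 c28 c16392 c16577 c5219 c5582 (k8 c5508 c5505 c5212 c5421 c5570 c5420 c5572 c8199 (k8 c5436 c5434 c5433 c5432 c5318 c5317 c5316 c5315 (k8 c16490 c16163 c5519 c5518 c5516 c5333 c5332 c14849 (k8 c15726 c5210 c5489 c5406 c5500 c5501 c5502 c10382 (k8 c16056 c8528 c5235 c1139 c5535 c5537 c5665 c15359 (k8 c14768 c1527 c703 c809 c16580 c5644 c681 c5668 (k4 c2054 c938 c1517 c14232 (k1 c7824 k0))))))))) (by decide +kernel)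
def c16582 : PP 9 3 T 0x1000000000000010000001040000000000000000000004000200000000000000000000000000000000000000000000000000020000000000001000000010 := rS 0xe125b7dc641f0247c5b141a22267d35908201b43aa7645d1d87c46f72482c6ef523d2b3a391f8f76c4545b57dda1ac8062202 (k8 c16579 c9729 c28 c16392 c16577 c5219 c5585 c5583 (k8 c5582 c5212 c5436 c5318 c5317 c16490 c16163 c5520 (k8 c5519 c5518 c5516 c5334 c5333 c5331 c5517 c5332 (k8 c14849 c5210 c5489 c2111 c1944 c16580 c14251 c16271 (k8 c2747 c703 c1949 c8722 c16425 c16476 c3043 c5235 (k4 c5462 c5466 c5580 c13156 (k2 c5460 c3590 k0))))))) (by decide +kernel)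
def c16583 : PP 9 3 T 0x10000001040000000000000000000004000200000000000000000000000000000000000000000000004000000000000000000000000010 := rS 0x3fa04fa89301dd208f2f9293a7b8a887c113351b76286629d506852d167da9b33990ba3b0f88c920b1bbd48f4ace8e40e17188a566275aed91ad745b57dda1ac98c4a02 (k8 c16579 c1113 c9752 c16392 c16577 c5219 c5585 c5583 (k8 c5507 c5505 c5212 c5422 c5570 c5574 c8199 c5434 (k8 c5433 c5432 c5317 c16490 c16163 c5520 c5519 c5518 (k8 c5516 c5334 c5331 c5517 c5332 c14849 c15726 c9680 (k8 c8100 c16581 c16582 c5644 c683 c1896 c1894 c681 (k8 c5672 c16097 c744 c2114 c13182 c5235 c266 c1139 (k8 c5457 c5458 c3584 c8110 c12624 c13156 c11141 c5663 (k4 c2118 c9976 c907 c10398 (k1 c10269 k0))))))))) (by decide +kernel)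
def c16584 : PP 9 3 T 0x2000000000000010000001000000000000000000000004000200000000000000000000000000000000000000000000004000000000000000000000000010 := rS 0x1ed9ae162a80b4412cb7c23124da0cd86b8a7cd9e8580b45568757aa7645d05d2b3a0759ac60645f700622c73c9dcebe349827243f1e894049f6585c4fb6ac86453a1 (k8 c16577 c8199 c5315 c16392 c5212 c5570 c5433 c5420 (k8 c5572 c16579 c1113 c5436 c5318 c16583 c5438 c261 (k8 c7824 c5440 c5356 c5441 c5357 c9729 c28 c5219 (k8 c5582 c5508 c5421 c5574 c5432 c16490 c16163 c5516 (k8 c14849 c5210 c5489 c5406 c5499 c5500 c5501 c5502 (k8 c5541 c5543 c14538 c8528 c1139 c5665 c8722 c2492 (k8 c14768 c703 c2512 c16580 c12636 c5644 c3579 c681 (k4 c3061 c8709 c957 c3607 k0)))))))) (by decide +kernel)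
def c16585 : PP 9 3 T 0x10000001000000000000000000000004000200000000000000000000000000000000000000000000004000020000000000000000000010 := rS 0x37cf6e14eb47e4cd4226d2283362236313479ac84c81a840368778a5c3a9554ec8ba1f11bdc16f523d2b3a1918acf6c45f7686b201888940409639df25ed (k8 c16584 c16583 c5356 c5357 c5438 c16579 c1113 c9729 (k8 c28 c16392 c16577 c5219 c5582 c5212 c5574 c5434 (k8 c5315 c16490 c16163 c5520 c5519 c5516 c5333 c5331 (k8 c5517 c14849 c5210 c5489 c5488 c5486 c5404 c9695 (k8 c2111 c1944 c16580 c280 c15918 c14251 c16271 c2751 (k8 c703 c5974 c1949 c5665 c8722 c3043 c2492 c5672 (k8 c12000 c5675 c2134 c1276 c5591 c848 c13097 c15182 k0))))))) (by decide +kernel)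
def c16586 : PP 9 3 T 0x10000001000000000000000000000004000200000000000000000000000000000000000000000000004000000000000000000000000010 := rS 0x1a68144b40208f4d37c94994ec576221899a8da865531506852d167da933a9dcfe793e824bf921299cc85d1d87c464905bd48f4ace86472070b8a566275aed91ad7f7686b202 (k8 c16579 c16392 c16577 c5219 c5507 c5505 c5212 c5422 (k8 c5570 c5574 c8199 c5433 c5432 c5317 c5315 c16490 (k8 c16163 c5520 c5519 c5516 c5334 c5331 c5517 c5332 (k8 c14849 c15726 c9680 c1113 c16583 c5439 c5438 c5442 (k8 c5441 c5358 c5356 c5440 c261 c16584 c16585 c5644 (k8 c683 c1896 c681 c16363 c5672 c744 c2114 c13182 (k8 c266 c14035 c1139 c1135 c2373 c3584 c16463 c6193 (k4 c12624 c12663 c1190 c2118 (k2 c699 c2136 (k1 c5861 k0)))))))))) (by decide +kernel)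
def c16587 : PP 9 3 T 0x2000000000000000000101000000000000000000000004000000000000000000000000000000000000000000000000000000020000000000000000000018 := rS 0x1120806de3b205d2b3bb622fbab201 (k8 c28 c16392 c5219 c5582 c5212 c16490 c16163 c5516 (k4 c5210 c9695 c1944 c16580 (k2 c15198 c703 k0))) (by decide +kernel)
def c16588 : PP 9 3 T 0x2000000000000010000001040000000000000000000004000200000000000000000000000000000000000000000000000000000000000000000000000010 := rS 0x44cd81035891269d4097bc0764dec8c83b0f88c179d1c85d1bee00c44dddf7b8de95b10cedab27518b14b45901684ba07 (k8 c5432 c14849 c16577 c16579 c16587 c5644 c681 c5434 (k8 c1894 c16392 c5212 c5315 c16056 c16163 c5518 c5333 (k8 c10382 c16586 c9729 c28 c5219 c5505 c5433 c5317 (k8 c16490 c5516 c5331 c5517 c5332 c15726 c5210 c8100 (k8 c5668 c5235 c2054 c938 c5458 c1517 c16099 c8110 (k4 c12632 c5665 c703 c14768 k0)))))) (by decide +kernel)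
def c16589 : PP 9 3 T 0x2000000000000088000110000000000000000000000000000000000000040000000000000050000000000000000401502000000000005000000001400508 := rS 0x3db35c2a0f19044adf08c4936294fb2c4e8768a159ff358ace0293 (k8 c261 c5502 c5574 c5421 c14538 c5543 c5541 c5501 (k8 c5499 c5570 c5420 c5572 c8199 c2492 c14768 c703 (k8 c2512 c1114 c12636 c7824 c3579 c3061 c8709 c957 (k1 c3607 k0)))) (by decide +kernel)
def c16590 : PP 9 3 T 0x2000000000000010000001000000000000000000000004000200000000000000000000000000000000000000000000000000000000000000000000000010 := rS 0x69a05c0104d04d12994ea40d42136a4cee793eb1c125fc9314ea832d16629b180aacceaf7eaa7645d1d87c464905bd6959d0c8e47e070b8c47ab1db235af0345b55ffeed0d662202 (k8 c16579 c9729 c16392 c16577 c5219 c5586 c5585 c5583 (k8 c5508 c5507 c5505 c5212 c5421 c5436 c5434 c5433 (k8 c5432 c5318 c5317 c5315 c16490 c16163 c5519 c5516 (k8 c5334 c5331 c5517 c5332 c14849 c5210 c5489 c5405 (k8 c5406 c9680 c5500 c5502 c16056 c8528 c16587 c5644 (k8 c1896 c1894 c681 c16588 c5439 c5438 c5357 c5442 (k8 c5441 c5356 c261 c16589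 c266 c5665 c8602 c1135 (k8 c2373 c3042 c3036 c6193 c12617 c1192 c699 c3062 (k1 c8254 k0))))))))) (by decide +kernel)
def c16591 : PP 9 3 T 0x10000001040000000000000000000004000200000000000000000000000000000000000000000000000000020000000000000000000010 := rS 0x70b7dc64125fcbc5b148c4cfa8f358403687d91743e237b82dea47a5674723f1eed88a8b6afbb435900808dded (k8 c16590 c16586 c16579 c28 c16392 c16577 c5219 c5585 (k8 c5583 c5582 c5212 c5436 c5318 c5317 c16490 c16163 (k8 c5520 c5519 c5516 c5333 c5331 c5517 c14849 c5210 (k8 c2111 c1944 c16580 c16271 c2751 c2747 c703 c3039 (k8 c16425 c16476 c5675 c13156 c5462 c5466 c5580 c5591 (k1 c9944 k0)))))) (by decide +kernel)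
def c16592 : PP 9 3 T 0x10000001040000000000000000000004000200000000000000000000000000000000000000000000000000000000000000000000000010 := rS 0x2525c5422914078cfbde3f980ee5f4e887c113351b76286629d506852d16537b233990ba3b0f88c16377a91e959d1c81c2e3114acd3fb66bfbb435931808dded (k8 c16590 c16586 c16579 c9752 c16392 c16577 c5219 c5507 (k8 c5212 c5572 c5574 c8199 c5434 c5433 c5432 c5317 (k8 c16490 c16163 c5520 c5519 c5518 c5516 c5331 c5517 (k8 c5332 c14849 c15726 c9680 c5210 c8100 c16591 c5644 (k8 c683 c1896 c1894 c681 c5672 c16097 c744 c2114 (k8 c13182 c5235 c266 c5458 c8110 c11141 c5663 c2920 (k8 c5668 c1579 c6601 c5670 c9822 c699 c1140 c13156 (k2 c1114 c8534 k0)))))))) (by decide +kernel)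
def c16593 : PP 9 3 T 0x10000001000000000000000000000004000200000000000000000000000000000000000000000000000000020000000000000000000010 := rS 0x37cf69d70a6d9bf248a0cd9dfd8c4d1e6b640d4201b43bc52e1d4aaa7645d0f88dee0b7a91e959d0c8c567b622fbb435900c44046ef68258f92 (k8 c16592 c5357 c5438 c16590 c16586 c16579 c9729 c28 (k8 c16392 c16577 c5219 c5582 c5212 c5574 c5434 c5315 (k8 c16490 c16163 c5520 c5519 c5516 c5333 c5331 c5517 (k8 c14849 c5210 c5489 c5488 c5486 c5404 c9695 c2111 (k8 c1944 c16580 c280 c15918 c16271 c2751 c703 c5974 (k8 c5494 c5665 c8722 c3039 c5675 c8541 c2492 c5591 (k4 c1276 c743 c13097 c15182 k0))))))) (by decide +kernel)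
def c16594 : PP 9 3 T 0x110000000000000000100080000000000000400000000000000000000000000000000000000000000000000000000000100010008 := rS 0x8e48c53e612258943e232491c52b313ad76d11 (k8 c9729 c5212 c5422 c5570 c5574 c8199 c5520 c5334 (k8 c5331 c5517 c1114 c12663 c12617 c8140 c8534 c3036 (k2 c5675 c2845 k0))) (by decide +kernel)
def c16595 : PP 9 3 T 0x10000001000000000000000000000004000200000000000000000000000000000000000000000000000000000000000000000000000010 := rS 0x1f348c01bcd240a3d121068269329dd8886266a36a1954c541a14b459499d4f27d0497f25ed37008ce642e8ec3e2305bd48f4ace86472070ba35ae8b6afbb4359 (k8 c16392 c16577 c5219 c5585 c5583 c5507 c5505 c5433 (k8 c5432 c5317 c5315 c16490 c16163 c5520 c5519 c5516 (k8 c5331 c5517 c5332 c14849 c15726 c9680 c16579 c16586 (k8 c16590 c16592 c5439 c5438 c5442 c5441 c5440 c261 (k8 c16593 c5644 c683 c1896 c681 c16363 c5672 c744 (k8 c2114 c13182 c266 c14035 c1135 c2373 c6193 c1190 (k8 c16594 c2750 c2751 c699 c8254 c2136 c2135 c4900 (k2 c5592 c5675 k0)))))))) (by decide +kernel)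
def c16596 : PP 9 3 T 0x1040000000000000000000004000200000000000000000000000000000000000000000000000000000000000000000000000012 := rS 0xd32090cfe1208c49083566b458e813a317c0623482c6639189cc8ad5d8f7fe6582de77db4a2ea3e011559ac76cff57bf607eed0d6553b243aaf6864 (k8 c15726 c16595 c5413 c2113 c5210 c5489 c16392 c16577 (k8 c5219 c5508 c5405 c5406 c5586 c5212 c5421 c5574 (k8 c5414 c8604 c2849 c14849 c16163 c13184 c16490 c16363 (k8 c5644 c15208 c11257 c9578 c5585 c5582 c5419 c5434 (k8 c5317 c5316 c5516 c9742 c16365 c5185 c837 c1172 (k8 c937 c5535 c5459 c5537 c281 c15030 c13042 c703 (k4 c12633 c809 c1950 c298 (k2 c1970 c9641 k0)))))))) (by decide +kernel)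
def c16597 : PP 9 3 T 0x400000000000000a0000111000000000000000000080000000000000400040000000000000000000000000000404051000005460000000115000000000040 := rS 0xa071f8502cc6f840ded167bcd20851dbdc6ef538b2ce715 (k8 c5414 c5419 c5420 c5571 c5519 c5518 c5333 c5332 (k8 c13042 c5675 c283 c11551 c9793 c3038 c9924 c2948 (k4 c3587 c699 c5537 c2623 (k2 c9215 c10309 k0)))) (by decide +kernel)
def c16598 : PP 9 3 T 0x1000000000000000000000004000200000000000000000000000000000000000000000000000000000000000000000000000012 := rS 0x38fc24a4d030f6e1f1b499a4121a0c23121a98cfe793eb1c13923097cd60f1d87c16372b8e40e1718ad48ad588a74da99f9a3e011559ac5feaf7ec0d53b2439dcb05bcefb7dcabda6db4359a5190ba33 (k8 c5316 c14849 c15726 c16163 c16392 c16577 c5212 c16595 (k8 c5413 c5219 c13184 c16490 c16363 c5644 c2051 c2113 (k8 c5210 c5489 c5508 c5405 c5406 c5586 c5421 c5574 (k8 c5414 c8604 c2849 c15208 c5530 c5529 c5412 c5411 (k8 c5585 c5582 c5422 c5434 c5433 c5432 c5317 c5313 (k8 c5518 c5516 c5517 c5332 c9739 c1058 c1054 c661 (k8 c16596 c5438 c5357 c5442 c5441 c5358 c5355 c280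 (k8 c16597 c703 c2604 c1950 c12636 c12000 c9641 c5579 (k8 c3063 c957 c11223 c3598 c2598 c5536 c2621 c15375 k0))))))))) (by decide +kernel)
def c16599 : PP 9 3 T 0x1000000000000000000000004000200000000000000000000000000000000000000000000000000000000000000000000000010 := rS 0x1091379040360147962005b43fcfdb1555ed1fe4581ac567eedb685e2af7e87553b232174460b7ad2ab39d (k8 c16490 c16392 c16163 c5519 c5516 c5331 c14849 c15726 (k8 c5210 c5489 c5486 c5405 c5406 c9695 c16577 c5212 (k8 c5219 c5574 c5421 c5508 c5582 c5586 c16595 c5413 (k8 c5414 c13184 c15208 c2113 c16363 c8604 c5644 c2849 (k4 c16598 c5280 c16580 c10456 (k2 c703 c283 (k1 c13042 k0))))))) (by decide +kernel)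
def c16600 : PP 9 3 T 0x2000000000000010000001040000000000000000000004000000000000000000000000000000000000000000000000000000020000000010000000000010 := rS 0xf099d84a4b66c1002c47b20100622ab326743f4a (k8 c16163 c5517 c16490 c15726 c5500 c1269 c16164 c5642 (k8 c5210 c5331 c5516 c15987 c266 c32 c16599 c5209 (k2 c5447 c16197 (k1 c2428 k0)))) (by decide +kernel)
def c16601 : PP 9 3 T 0x2000000000000050000201000000000000000000000004000000000000000000000000000000000000000000000000000000020000000000000000000010 := rS 0x35fbee33d8c9c29930b24329fd824c2e750497f24358e22bdf0348aca2a28549248f5994a36268f43c050aff129bcb64521a24d8b51002c4e134186c040188aacc99d7abdc461fa517764f1 (k8 c9695 c5210 c14849 c16163 c5517 c5331 c5333 c5519 (k8 c16490 c15726 c5500 c1269 c16164 c5642 c1944 c16241 (k8 c5564 c267 c5516 c15987 c2609 c266 c5567 c1949 (k8 c284 c32 c5565 c1113 c5544 c5541 c5502 c5499 (k8 c5568 c5382 c5381 c16599 c16392 c5520 c5334 c5489 (k8 c15001 c1289 c541 c747 c2460 c8783 c3613 c5658 (k8 c10024 c16600 c5439 c5438 c5440 c1107 c261 c12131 (k8 c5448 c5393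 c5396 c5445 c5447 c2898 c16204 c742 (k4 c2458 c5492 c12549 c14766 k0))))))))) (by decide +kernel)
def c16602 : PP 9 3 T 0x2000000000000010000201000000000000000000000004000000000000000000000000000000000000000000000000000000020000000000000000000010 := rS 0xd8247df9214b2d3eb338ed9066c0d881e3b22e88dee0b7ad66528146c4cde8947a1d0aff0100622ab326743f4a (k8 c16163 c5517 c16490 c15726 c5500 c1269 c16164 c5642 (k8 c5544 c5541 c5499 c5568 c5567 c5565 c5382 c5381 (k8 c5380 c16599 c16392 c5519 c5516 c5333 c5331 c14849 (k8 c5210 c9695 c15987 c1944 c266 c16241 c16601 c5571 (k8 c5574 c5572 c5420 c5417 c16054 c16562 c746 c15165 (k1 c12830 k0)))))) (by decide +kernel)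
def c16603 : PP 9 3 T 0x2000000000000010000201040000000000000000000004000000000000000000000000000000000000000000000000000000000000000000000000000010 := rS 0x35cfe756f818d4b436acd21f371a2c7f15228a139e166b558a9964a6f6fded8065e2977eaa76423ac9de528146c4cfa8943b46028567bfc4e1312808031155e743e6f8e991065a2c975eb4a (k8 c16163 c5519 c14849 c16602 c5644 c1896 c15726 c4516 (k8 c5565 c5517 c16490 c5500 c1269 c16164 c5642 c1113 (k8 c5564 c267 c5544 c5543 c5541 c5502 c5501 c5499 (k8 c5567 c5566 c5382 c5381 c5380 c16599 c14727 c16392 (k8 c5331 c5210 c5489 c5405 c5404 c9695 c6205 c5209 (k8 c5214 c16054 c8100 c5396 c5447 c5451 c5454 c5495 (k8 c16230 c15342 c5651 c456 c1289 c404 c686 c1778 (k8 c12913 c15061 c2897 c747 c5685 c5665 c9860 c2514 (k4 c15100 c677 c10298 c10269 k0))))))))) (by decide +kernel)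
def c16604 : PP 9 3 T 0xa000000000000000000000000080000000100000000000004000000014000000004001100000000400000080000000000000100400000 := rS 0x60356677c709b648652efd4aaa446f5 (k8 c5519 c5331 c5489 c5488 c5405 c5404 c5393 c5396 (k4 c5397 c15623 c15342 c3617 (k2 c439 c9931 (k1 c1916 k0)))) (by decide +kernel)
def c16605 : PP 9 3 T 0x58000210000000000000000100080004000100100100014005000000014000000004000004005041500000480000000000005008400000 := rS 0x3558ad36b8d7c418d8a653a6a109b566904590a2a451408d028d3ea2506f5 (k8 c5519 c1896 c5567 c5566 c5381 c5380 c5331 c5651 (k8 c456 c1289 c1310 c686 c15061 c2897 c747 c541 (k8 c5665 c1135 c2373 c16604 c5648 c5226 c437 c5465 (k4 c5579 c682 c2779 c3608 k0)))) (by decide +kernel)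
def c16606 : PP 9 3 T 0x2000000000000010000201000000000000000000000004000000000000000000000000000000000000000000000000000000000000000000000000000010 := rS 0x10c8b0225454429a50a67c3e23d77d9ac5640c13a350c6c7deb114acf6c930b9d4fe7963824bf924186a3a5a2c8944e0200c45fecf42bce02d155a1de2af54ec8c85d0f88dea47a55673a77949cd1b13099bd128f (k8 c5568 c5567 c5565 c5564 c5382 c5381 c5379 c16599 (k8 c14727 c16490 c16392 c16163 c5520 c5519 c5331 c5517 (k8 c14849 c15726 c5210 c5489 c5406 c9695 c5499 c5500 (k8 c5501 c5502 c5540 c5541 c5543 c5544 c1269 c16164 (k8 c5642 c267 c1113 c16602 c5644 c4516 c1892 c1896 (k8 c16603 c5439 c5438 c5357 c5441 c5358 c5440 c1107 (k8 c261 c16605 c5574 c5417 c5421 c16562 c10494 c5648 (k8 c437 c1273 c1163 c1162 c682 c1916 c5494 c3607 (k8 c5166 c5457 c1594 c5578 c5679 c378 c1191 c8534 (k4 c10275 c460 c1935 c5658 k0)))))))))) (by decide +kernel)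
def c16607 : PP 9 3 T 0x50000210040000000000000100080000000100000000000000000000004000000010000000000000400120024000000010000000000014 := rS 0x814563a2612819fef35aa095485881acda1a000a43e49059cd1fb02284c8689 (k8 c5567 c1949 c5564 c284 c5209 c5568 c5379 c5516 (k8 c5334 c5517 c9694 c5642 c1056 c665 c1058 c16164 (k8 c845 c1269 c1270 c1340 c283 c2396 c15047 c15046 (k4 c5651 c2162 c3046 c16402 (k1 c2200 k0))))) (by decide +kernel)
def c16608 : PP 9 3 T 0x50000201040000000000000000000004000000000000000000000000000000000000000000000000000000020000000000000000000010 := rS 0x7be371781c2df489ecfe413cb1cd83f8a818d6280d8944f11013c4d2add9190ba1f118ddeb59ce9dd0313099bcfa8ff686526c930ec06acfef4a4b6877bd28ae33 (k8 c8428 c367 c16163 c5333 c2111 c32 c16599 c5214 (k8 c5453 c5450 c5209 c5445 c5396 c5444 c6205 c16606 (k8 c5568 c5566 c5565 c5564 c5382 c5380 c14727 c16490 (k8 c16392 c5519 c5518 c5331 c5517 c14849 c15726 c5210 (k8 c5490 c9742 c9695 c16607 c9729 c267 c1113 c1110 (k8 c5651 c16271 c14824 c1289 c404 c5665 c13650 c1454 (k8 c1734 c677 c742 c747 c14796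 c10249 c5669 c14941 (k2 c12577 c1493 (k1 c5655 k0))))))))) (by decide +kernel)
def c16609 : PP 9 3 T 0x10000201040000000000000000000004000000000000000000000000000000000000000000000000000000020000000000000000000010 := rS 0x1c6e16f8f1227b3f904f2c736018d602888047e1b8e7bfc6b138ed8864543bc764642e87c46f71bbd69559cea062613379f5128ff6864669350b24c3b01ab4fbd29 (k8 c16599 c5214 c5496 c5450 c5209 c5445 c5396 c5398 (k8 c5444 c8428 c6205 c16606 c5568 c5567 c5566 c5565 (k8 c5564 c5382 c5380 c16490 c16392 c16163 c5519 c5518 (k8 c5333 c5331 c5517 c14849 c15726 c5210 c9695 c2111 (k8 c284 c1949 c16608 c5571 c5421 c6601 c11200 c5658 (k8 c2161 c405 c1056 c9730 c5642 c16271 c14824 c5665 (k8 c13650 c1454 c1734 c677 c742 c746 c5655 c14796 (k2 c10249 c1493 (k1 c14941 k0))))))))) (by decide +kernel)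
def c16610 : PP 9 3 T 0x40000000000000000000000000100000000000000000000800000000000000000000100100000004000080000000000000000 := rS 0x38248030 (k4 c1933 c1934 c1508 c1734 (k1 c5643 k0)) (by decide +kernel)
def c16611 : PP 9 3 T 0x800000000010000200040000000000000000000000000100000000000001000000000000000000000000000000100800084000000400020008000010 := rS 0x7b0405c0e3d3f35d163f21115028d0cec1aad3 (k8 c5496 c5454 c5209 c6205 c5381 c5380 c456 c1310 (k8 c404 c686 c16610 c5278 c2765 c677 c1308 c5643 (k2 c1684 c13641 k0))) (by decide +kernel)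
def c16612 : PP 9 3 T 0x10000201040000000000000000000004000000000000000000000000000000000000000000000000000000000000000000000000000010 := rS 0x8a432535bdfb614ace2a75109a8db03430944e5741a14351d01004b45969b5592a14ff7b60197899d5aaf4ba5764642e8ec460b7a91e9559ce9de5281099bd1fed (k8 c16606 c5568 c5565 c5564 c5380 c16599 c14727 c16490 (k8 c16392 c16163 c5520 c5519 c5516 c5331 c5332 c14849 (k8 c15726 c5210 c5488 c5404 c5406 c5490 c9680 c9695 (k8 c6205 c5209 c5214 c5448 c5398 c5396 c5454 c5496 (k8 c16609 c5644 c1057 c1893 c4516 c1892 c683 c1896 (k8 c768 c267 c1113 c5672 c10690 c744 c2114 c266 (k8 c15100 c1139 c2377 c16611 c5651 c11200 c10481 c8534 (k2 c16610 c461 (k1 c5658 k0))))))))) (by decide +kernel)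
def c16613 : PP 9 3 T 0x52000210080000000000000100000004000100000000000054000000014000000008000000000000000000020000400440000018000002 := rS 0x1f22545480ca71acce23f1209e39ef6a8e3bccd19b251a7f2284c86891a8246275 (k8 c5440 c1945 c5438 c280 c5567 c1949 c5564 c284 (k8 c5358 c5381 c5396 c2043 c2075 c5653 c3587 c5454 (k8 c5725 c5658 c351 c2162 c405 c668 c2760 c2618 (k4 c12830 c1091 c1293 c546 (k2 c5803 c5546 k0))))) (by decide +kernel)
def c16614 : PP 9 3 T 0x50000201000000000000000000000004000000000000000000000000000000000000000000000000000000020000000000000000000014 := rS 0x1028ac744c6150b2c2de2d8b45fecf79ad5368255216201a00064d2ad0ea5764641d87c92377a91eb39d949cd1e7943bde94450990d1235048c4eb92 (k8 c16612 c5440 c1945 c5438 c280 c5567 c1949 c5564 (k8 c284 c16163 c5333 c2111 c5441 c5568 c5379 c16599 (k8 c16490 c16392 c5520 c5519 c5518 c5334 c5517 c5332 (k8 c15726 c5210 c5488 c5486 c5490 c9742 c9701 c5642 (k8 c1056 c16164 c845 c1269 c1270 c4048 c1340 c283 (k8 c11551 c2396 c1975 c16613 c5226 c16239 c5464 c5578 (k4 c1460 c11672 c351 c3046 (k2 c16402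 c2200 k0)))))))) (by decide +kernel)
def c16615 : PP 9 3 T 0x52000201000000000000000000000004000000000000000000000000000000000000000000000000000000020000000000000000000010 := rS 0xe16f929c6ce1c105e4201f8c8186164865e2970ea565281899f58e793f8d462750085cbe9304e4a02b556a1106a948c5450253789c2759361ac365b43fb5eaf71187e945dd9444059d (k8 c16490 c16614 c9729 c5210 c14849 c16163 c5517 c5331 (k8 c5333 c5519 c16606 c2111 c32 c1110 c16271 c5665 (k8 c16392 c5564 c267 c5565 c1113 c5651 c1289 c747 (k8 c5489 c8722 c5672 c5490 c8714 c15060 c16612 c5438 (k8 c261 c5439 c1107 c28 c5440 c1945 c280 c5358 (k8 c5441 c5357 c5566 c5382 c5380 c16599 c5488 c5486 (k8 c5404 c9695 c5393 c5396 c5445 c16442 c3577 c404 (k8 c2426 c2540 c3767 c387 c388 c2618 c540 c2511 (k2 c1653 c14941 k0))))))))) (by decide +kernel)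
def c16616 : PP 9 3 T 0x50000201000000000000000000000004000000000000000000000000000000000000000000000000000000020000000000000000000010 := rS 0x1c29df937dc61859f8b62918aad4d8284985cd61b1289e2202d91743e237ad673b2940c4c266f3efb4be09639e4ff922da1def4a (k8 c16163 c5333 c2111 c32 c16612 c5358 c5441 c5357 (k8 c5438 c5439 c16606 c5566 c5565 c5564 c5382 c5380 (k8 c16599 c16490 c16392 c5519 c5331 c5517 c14849 c5210 (k8 c16614 c9729 c267 c1113 c1110 c16271 c1107 c261 (k8 c5651 c5665 c8714 c1289 c747 c16615 c5226 c12131 (k4 c5648 c5466 c5580 c5685 (k2 c1273 c5591 (k1 c14947 k0)))))))) (by decide +kernel)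
def c16617 : PP 9 3 T 0x10000201000000000000000000000004000000000000000000000000000000000000000000000000000000020000000000000000000014 := rS 0x1c3347ce1f1b7d406120a4fe616ef929aad181b3de7ee4da0954858ec40da1a00064d21d4aec8c81f2482dea47ace76528d37fb4f26343bde94450990d1235048c4eacb13ac763b63997cff92 (k8 c16612 c5358 c5439 c5379 c16616 c10494 c5421 c5570 (k8 c5420 c5440 c1945 c5438 c280 c5567 c1949 c5564 (k8 c284 c16163 c5333 c2111 c5355 c5441 c16606 c5565 (k8 c5381 c16599 c16490 c16392 c5520 c5519 c5516 c5334 (k8 c5517 c15726 c5210 c5488 c5486 c9742 c9701 c5642 (k8 c1056 c665 c16164 c2161 c845 c1269 c1270 c4048 (k8 c5658 c283 c11551 c2199 c1975 c5585 c16529 c5725 (k8 c16239 c5546 c55 c9012 c1460 c11672 c2511 c16071 (k4 c9214 c8159 c8709 c407 (k1 c6897 k0)))))))))) (by decide +kernel)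
def c16618 : PP 9 3 T 0x10000201000000000000000000000004000000000000000000000000000000000000000000000000000000020000000000000000000010 := rS 0x1f3c908911020cd91c0624c2e6b0dc440202d8ad562294facce3b6219150e5b789a55a1d54ec8c85d0f88dee377ad2ab39d949cd0313099bcfa8947fb4be09639e4ff92 (k8 c16612 c5358 c5441 c5357 c5438 c5439 c16606 c5568 (k8 c5567 c5566 c5565 c5564 c5382 c5380 c5379 c16599 (k8 c16490 c16392 c16163 c5519 c5518 c5333 c5331 c5517 (k8 c14849 c15726 c5210 c5489 c5486 c5490 c9742 c9695 (k8 c32 c2111 c284 c1949 c16616 c5571 c5574 c5572 (k8 c5417 c5421 c5422 c10494 c16617 c28 c9729 c1110 (k8 c16271 c1107 c261 c16452 c9423 c5665 c8722 c2426 (k4 c746 c5672 c12002 c13099 (k1 c3722 k0))))))))) (by decide +kernel)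
def c16619 : PP 9 3 T 0x1000000000000002000200000000000000000000080000000000000000044000000000100010000200001100040040500000000000080000020100400000 := rS 0x4af910202d671b4c7e38648644681469f513ef (k8 c5506 c5567 c5566 c5381 c5380 c5331 c5393 c5396 (k8 c15623 c404 c2085 c2618 c3608 c2146 c1934 c5694 (k2 c546 c5546 k0))) (by decide +kernel)
def c16620 : PP 9 3 T 0x1000000000000040000200000000000000000100080004000100100000040001000000000000000000001100000040500000080000000010005108400000 := rS 0x6bf8b62d57fa2d6042228a08e81469f512c5 (k8 c682 c5567 c5566 c5381 c5380 c5520 c5651 c456 (k8 c1310 c1309 c686 c11059 c2779 c16619 c5226 c5465 (k1 c5287 k0))) (by decide +kernel)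
def c16621 : PP 9 3 T 0x10000201000000000000000000000004000000000000000000000000000000000000000000000000000000000000000000000000000010 := rS 0x1e01c3447cd26bf7daacf6fa2d903020914304ad8ac453b6628d53a9959c54426a36c0d9a864985c4a2741a14351d01168b2753f9e4125fc97b5e26732174460b1bbd48f4aace74ef2939a051a13379f5128f (k8 c5568 c5567 c5566 c5565 c5564 c5381 c5380 c5379 (k8 c16599 c14727 c16490 c16392 c16163 c5520 c5519 c5518 (k8 c5516 c5331 c14849 c15726 c9680 c9695 c16606 c16612 (k8 c5439 c5438 c5441 c5358 c5440 c16618 c5644 c1893 (k8 c4516 c1892 c683 c1896 c267 c1113 c1107 c261 (k8 c5672 c12000 c10690 c744 c2114 c266 c1139 c2377 (k8 c2373 c1135 c15161 c682 c16620 c5417 c5421 c10494 (k8 c8534 c5648 c461 c543 c1163 c1162 c686 c2511 (k8 c1473 c1476 c5494 c2189 c3608 c1919 c2136 c407 (k2 c5688 c5534 k0)))))))))) (by decide +kernel)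
def c16622 : PP 9 3 T 0x40000201040000000000000000000004000000000000000000000000000000000000000000000000000000020000000000000000000012 := rS 0x103f74744c91f0b41a7ded83f43bb2acca53aab8aa6567b42d9142643449ac3f4a (k8 c16163 c5517 c1058 c5567 c1949 c5564 c284 c32 (k8 c16621 c5532 c5530 c5414 c5413 c5412 c16599 c16392 (k8 c5210 c5486 c5405 c5209 c5214 c5496 c13565 c16230 (k4 c9793 c13524 c351 c5658 (k2 c5508 c14381 k0))))) (by decide +kernel)
def c16623 : PP 9 3 T 0x22000010000000000000000000000004000100000000000000000000000040000001000050000001100424400000000011000008000000 := rS 0x3db114eaacda99 (k4 c5530 c5529 c5413 c5412 (k2 c5411 c15909 (k1 c16368 k0))) (by decide +kernel)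
def c16624 : PP 9 3 T 0x2000000000000000000000000000000000000100000004000000000000000010000000000000000000000000000000000000000001540000008110000000 := rS 0xf712e3af3 (k4 c5540 c351 c353 c5658 (k1 c8823 k0)) (by decide +kernel)
def c16625 : PP 9 3 T 0x2000000000000041000210080000000000000100000004000100000100000050000000000000000000000010000000000400020001400440010111000002 := rS 0x6677872330ba48487113b448a1321a258e35048c4ebe2 (k8 c5226 c5440 c1945 c5438 c280 c5357 c5567 c1949 (k8 c5564 c284 c5501 c16624 c668 c5651 c12834 c55 (k4 c322 c9515 c11149 c15359 (k1 c5495 k0)))) (by decide +kernel)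
def c16626 : PP 9 3 T 0x201000000000000000000000004000000000000000000000000000040000000000000000041100004420000000010008001000012 := rS 0x1e9a2931905bbe846afb8971d0ebdc92f523d651b114e884da9943aac8a1321a2762313587e941ada4a73a6454a552fb2 (k8 c5210 c5404 c5488 c5489 c15726 c16490 c16599 c16621 (k8 c1056 c16163 c5517 c1058 c1945 c16623 c5567 c1949 (k8 c5564 c284 c5413 c2113 c5530 c5529 c5528 c5412 (k8 c5411 c5381 c16392 c5520 c5519 c5334 c5333 c5486 (k8 c351 c353 c5658 c5585 c16529 c5725 c11149 c5653 (k4 c55 c4494 c13171 c848 k0)))))) (by decide +kernel)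
def c16627 : PP 9 3 T 0x40000201000000000000000000000004000000000000000000000000000000000000000000000000000000020000000000000000000014 := rS 0x333bc391985d9ef349215a224481c44fedf16c462353a98cfe7963824bf9235868001914a5c3a9554ec8761f7b9246ef523d2ab39d94c44428755ed0c85b2284c8689 (k8 c5567 c1949 c5564 c284 c32 c15726 c16621 c5413 (k8 c2113 c5528 c5411 c16599 c16490 c16392 c16163 c5520 (k8 c5519 c5518 c5334 c5333 c5517 c5332 c5210 c5489 (k8 c5488 c5486 c5404 c9694 c9701 c5642 c1056 c1058 (k8 c16622 c5439 c5438 c5357 c5441 c5358 c5355 c5440 (k8 c280 c1945 c16623 c5226 c16625 c16626 c668 c13524 (k8 c5651 c9793 c15226 c12834 c283 c11551 c55 c322 (k4 c9515 c11149 c3587 c5495 k0)))))))) (by decide +kernel)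
def c16628 : PP 9 3 T 0x20000001040000000000000000000004000000000000000000000000000000000000000000000000000000020000000000000000000018 := rS 0x18c06f0b406ac564a4fbdb019865fb9d94c453a6d4ca1cc863f680416214186cb6ab7abdc461fa517764f1 (k8 c9695 c5210 c14849 c16163 c5517 c5331 c5333 c5519 (k8 c5413 c32 c1110 c16241 c5528 c5516 c28 c15987 (k8 c9752 c15726 c2113 c5530 c5529 c5412 c5411 c16599 (k8 c16490 c5405 c6205 c8428 c5209 c5214 c5444 c5396 (k4 c5451 c5450 c13565 c16230 (k2 c14824 c15233 (k1 c674 k0))))))) (by decide +kernel)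
def c16629 : PP 9 3 T 0x22000001000000000000000000000004000000000000000000000000000040000000000004002001100404440000000000000000400111 := rS 0x340647a64864baf7a54453a6d (k8 c5529 c5412 c5411 c16163 c5333 c14849 c5393 c5396 (k4 c13168 c16204 c848 c2129 k0)) (by decide +kernel)
def c16630 : PP 9 3 T 0x1001000000000041000200080000000000000100000004000100000000000008000000011000000000000001002000000000000000140000000000000000 := rS 0x19ec46afba3aff701ed028d899f5128f3ab8dbfe2 (k8 c5226 c5580 c5466 c5440 c5568 c5567 c5566 c5382 (k8 c5381 c5380 c848 c5972 c3013 c555 c5658 c5585 (k2 c5896 c1652 (k1 c10805 k0)))) (by decide +kernel)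
def c16631 : PP 9 3 T 0x40000201000000000000000000000004000000000000000000000000000000000000000000000000000000020000000000000000000010 := rS 0x7f382387bf7b558bde19b41bee3f16c7c231498d42e753f9e58e092fe4922cd421ad06f2f686cc6010110c8a5b78bf43aa9d9174761f11bdc16377ad2ab39d3bca5028d8984cfa8947a74429943aaf6864 (k8 c15726 c16621 c5413 c2113 c5530 c5528 c5412 c5568 (k8 c5567 c5566 c5564 c5382 c5381 c5380 c16599 c14727 (k8 c16490 c16392 c16163 c5519 c5518 c5516 c5333 c5331 (k8 c5517 c5332 c14849 c5210 c5489 c5486 c5405 c9695 (k8 c32 c284 c1949 c16627 c28 c9752 c1110 c15987 (k8 c10456 c16241 c16271 c283 c12000 c15226 c16628 c5439 (k8 c5438 c5357 c5441 c5358 c5440 c1107 c280 c261 (k8 c1945 c12147 c16629 c5226 c5466 c5580 c16630 c2129 (k8 c5653 c5451 c5454 c5725 c847 c5658 c5972 c555 (k1 c3012 k0)))))))))) (by decide +kernel)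
def c16632 : PP 9 3 T 0x40000201000000000000000000000004000000000000000000000000000000000000000000000000000000000000000000000000000010 := rS 0x6ab146a1845b4dae17499088a75f117c1228c96c44a27f6068045a2cbc4c85da55673b2940a34266f3ea2557b4 (k8 c16621 c5413 c5567 c5566 c5565 c5564 c5381 c5380 (k8 c16599 c16490 c16392 c16163 c14849 c15726 c9695 c16631 (k8 c5644 c1893 c1892 c16363 c267 c1113 c16221 c15876 (k8 c5651 c9669 c9668 c5226 c5440 c456 c1310 c261 (k8 c1107 c5465 c5579 c686 c5648 c437 c682 c2779 (k1 c8254 k0)))))) (by decide +kernel)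
def c16633 : PP 9 3 T 0xa0000210000000000000000100000004000000000000001000000000000000000041000000000000000020020000400000000040000002 := rS 0x20d0b00f6a2e07ee7fa423a6b0d1cd5715599c562b52284c8689 (k8 c5567 c1949 c5564 c284 c5422 c5421 c5571 c5532 (k8 c5414 c5413 c5379 c1056 c1058 c2161 c13067 c11059 (k8 c5658 c5508 c5583 c13184 c8604 c849 c1977 c5733 k0))) (by decide +kernel)
def c16634 : PP 9 3 T 0x201000000000000000000000004000000000000000000000000000000000000000000000000000000020000000000000000000010 := rS 0x1208435bcbda1b01004864578abdfa1d54ec8ba1f11bdc16f523d2ab39d3984d122159a1d57b4321c56bb6 (k8 c16632 c5422 c5571 c15726 c16621 c5413 c2113 c5532 (k8 c5528 c5567 c5564 c5379 c16490 c16392 c16163 c5520 (k8 c5519 c5516 c5333 c5331 c5517 c14849 c5210 c5489 (k8 c5486 c5405 c5406 c9695 c284 c1949 c16633 c5642 (k4 c1944 c15987 c10456 c16271 (k2 c283 c13067 (k1 c15226 k0))))))) (by decide +kernel)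
def c16635 : PP 9 3 T 0x201000000000000000000000004000000000000000000000000000000000000000000000000000000000000000000000000000010 := rS 0x114864a817bde625f6474045a2c8a76d1555ed0dfb23217446f523d2ab39d (k8 c16490 c16392 c16163 c5520 c5519 c5331 c14849 c15726 (k8 c5210 c5565 c16621 c5413 c5414 c16632 c5417 c16634 (k8 c5644 c1893 c4516 c16363 c1113 c5540 c13184 c11235 (k4 c9048 c1935 c460 c5658 k0)))) (by decide +kernel)
def c16636 : PP 9 3 T 0x8000000000000082000000000000000000000000000004000100000000000000000000000000000050000050000000000020000000000000000000000102 := rS 0x3bed264a8596d7 (k4 c5507 c5420 c5398 c5396 (k2 c8156 c9031 (k1 c16441 k0))) (by decide +kernel)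
def c16637 : PP 9 3 T 0x10000001000000000000000000000004000000000000000000000000000000000000000000000000000000020000000000000000000014 := rS 0xb6c4de1068b3de7134da090b1000064d2ad57a5c3a95d91903e497a91f3a7139c7606457f9e50ef7a50d412313ae4bdccbdb686b329 (k8 c16599 c16392 c16635 c5212 c5420 c5219 c15107 c5440 (k8 c1945 c5438 c280 c16163 c5333 c2111 c5441 c5586 (k8 c5582 c5508 c5504 c5419 c5571 c16490 c5520 c5519 (k8 c5334 c5517 c15726 c5210 c5488 c5486 c5404 c5406 (k8 c5490 c9742 c9701 c5642 c16164 c845 c1270 c4048 (k8 c955 c283 c11551 c1975 c15178 c2746 c16636 c16239 (k1 c13187 k0))))))) (by decide +kernel)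
def c16638 : PP 9 3 T 0x8900000000000008a000100080000000000000000000000000000000000000000000000001000000000000000400000002000000000000000000000000000 := rS 0xdf4eb39a27beff85a46150ab55e974ab2daeff489c5c301 (k8 c5592 c5591 c5571 c746 c5586 c5507 c5420 c5488 (k8 c5404 c5406 c5490 c5398 c5445 c8156 c7694 c9031 (k4 c742 c2135 c5688 c1650 (k2 c2564 c11941 k0)))) (by decide +kernel)
def c16639 : PP 9 3 T 0x10000001000000000000000000000004000000000000000000000000000000000000000000000000000000020000000000000000000010 := rS 0x8018406c7e4cd48a0cd9131fa3cd6104985c37ed8880404872daa7645d0f88dee0b1bbd48f4ace9dc527159a7c8a5f04b1cfa793fe4bdccbdb686b329 (k8 c16599 c16392 c16635 c5212 c5420 c5219 c15107 c5358 (k8 c5441 c5442 c5357 c5438 c5439 c5582 c5572 c5574 (k8 c5571 c8199 c14727 c16490 c16163 c5520 c5519 c5518 (k8 c5516 c5333 c5331 c5517 c14849 c5210 c5489 c32 (k8 c2111 c16637 c28 c9729 c16587 c1110 c1107 c261 (k8 c16580 c16271 c2751 c2907 c703 c5665 c8722 c746 (k4 c12000 c5675 c16638 c13099 (k2 c5648 c700 (k1 c543 k0))))))))) (by decide +kernel)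
def c16640 : PP 9 3 T 0xa000000000000008000110080000000000000100080004000100000100000001000000000000000000000000000000400000090000000004000008000008 := rS 0x822699089e99ac5181046a18d8b3da287248a76cd781b55fec73e9e4fe754282d06f50b97d2609 (k8 c5438 c261 c5439 c1107 c5519 c1896 c5516 c683 (k8 c5440 c5358 c5441 c5442 c5357 c5586 c5585 c5508 (k8 c5507 c5212 c8199 c5334 c5499 c5501 c5543 c14706 (k8 c5648 c437 c543 c1163 c682 c1916 c3607 c15195 (k4 c1594 c13167 c16594 c378 k0))))) (by decide +kernel)
def c16641 : PP 9 3 T 0x1000000000000000000000004000000000000000000000000000000000000000000000000000000010000000000000000000010 := rS 0xef2846219203147e35082753221899a8dacd437b5261788a0d0a1a19808025a7899d5aaf4aec8c85d05bd6959d3b8a5ae5f049f4f27f3ae4bdccbdb686b329 (k8 c16599 c16392 c16635 c5212 c5420 c5219 c15107 c5440 (k8 c5358 c5441 c5442 c5438 c5439 c5507 c8199 c14727 (k8 c16490 c16163 c5519 c5516 c14849 c15726 c5210 c5488 (k8 c5406 c5490 c9680 c9695 c5644 c1057 c1893 c4438 (k8 c1892 c683 c1896 c9730 c1107 c261 c16640 c5672 (k8 c12000 c744 c2114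 c13182 c266 c2373 c1135 c16594 (k8 c15161 c2907 c682 c15195 c543 c1738 c8159 c9931 (k1 c9031 k0)))))))) (by decide +kernel)
def c16642 : PP 9 3 T 0x48000000000000020000110080000000000000100080004000100000000000000000000000000000050000054400000000020000000000000000000000002 := rS 0x9189844f5b13587c9271659cf6c5f04b1cf26388a74da99 (k8 c5530 c5529 c5412 c5411 c5355 c5441 c5357 c5438 (k8 c5439 c5212 c5419 c5420 c5571 c5334 c5517 c1058 (k4 c16636 c13171 c13233 c13167 (k2 c9924 c5675 k0)))) (by decide +kernel)
def c16643 : PP 9 3 T 0x1000000000000000000000004000000000000000000000000000000000000000000000000000000000000000000000000000010 := rS 0x8489bc8201b00a4d1e32807cfbf1555ed0623543960ea09c93fc8b0358b2d67eedb686539dacbd416f711d29e2ad57a5dfa1d4aaa76464 (k8 c15726 c5210 c5489 c5488 c5486 c5405 c5404 c5406 (k8 c5490 c9695 c16163 c5331 c5333 c5516 c5519 c16392 (k8 c16490 c16599 c16635 c5212 c5219 c5574 c5420 c5421 (k8 c5508 c5582 c5586 c15107 c5438 c5440 c16641 c2111 (k8 c280 c1945 c16639 c5413 c5414 c11257 c15208 c8604 (k8 c5653 c2849 c322 c16642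 c1944 c16580 c10456 c703 (k2 c283 c13042 k0))))))) (by decide +kernel)
def c16644 : PP 9 3 T 0x52000220000000000000000200000000000200000000001000000000014000000005000050000000000000000000000000000000000420 := rS 0x710e8fde104a6536c9499f51e0f1e904ae3f03a441bf3240448f4b (k8 c12110 c5562 c5558 c15386 c5588 c5522 c5374 c5432 (k8 c5318 c5313 c5340 c5560 c9737 c5568 c5566 c5444 (k8 c5396 c5397 c5447 c311 c8772 c9764 c15271 c16323 (k1 c1773 k0)))) (by decide +kernel)
def c16645 : PP 9 3 T 0x51000220000000000000000200000000000200000000000000000000000000000000000004000000000000000000000000000000000420 := rS 0xf0f8c7409099f47bf3240448f4b (k8 c12110 c5562 c5558 c15386 c5588 c5560 c5566 c5564 (k4 c311 c15271 c12668 c5456 (k1 c5198 k0))) (by decide +kernel)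
def c16646 : PP 9 3 T 0x19000220000000000000000200000000000000000000000000000000014000000004000008000000000000204000000000000000000620 := rS 0x1f10f85a6d54cb253ea14d8d0e85e4bbf52aa9119bcfa89079dcf34b (k8 c12110 c5524 c785 c9737 c5567 c5566 c5565 c9734 (k8 c5489 c5488 c5405 c5404 c312 c421 c420 c10735 (k8 c1121 c1522 c1118 c1520 c1532 c1969 c8772 c15253 (k2 c7600 c5650 k0)))) (by decide +kernel)
def c16647 : PP 9 3 T 0x2000000000000058000220000000000000000200000000000200000000000000000000000000000000000000000000000000200000000000000000000020 := rS 0x1db1fc0e1f19f81292d8b7fe64805b3d0ad155a5dfa9554c4c267d078447a472b8fc0e3748834f34b (k8 c12110 c5524 c5522 c5374 c5435 c5432 c5318 c5313 (k8 c5562 c5560 c5558 c9737 c5566 c5564 c5382 c5489 (k8 c5488 c5405 c5404 c5500 c5501 c5541 c5543 c823 (k8 c15386 c5588 c2946 c16644 c16645 c16646 c9764 c12668 (k4 c3058 c5198 c9140 c5456 (k1 c15597 k0)))))) (by decide +kernel)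
def c16648 : PP 9 3 T 0x50000220000000000000000200000000000200000000000000000000000000000000000004000000000000000000000000000000000420 := rS 0x71f87e63a2423c1e112091d220da59f8123f2b81c7a7d (k8 c5566 c5560 c5432 c5313 c5318 c311 c9764 c12110 (k8 c5522 c5374 c5562 c5340 c5558 c9737 c5568 c15386 (k4 c15271 c5588 c5456 c1773 (k1 c16323 k0)))) (by decide +kernel)
def c16649 : PP 9 3 T 0x5a000220000000000000000200000000000200000000000040000000000000000000000000000000000000200000000000000000000020 := rS 0x35999df5840dfecf68c053ab355c556a847a078d80af1b5412994db2526ad57a5dfa9554c7626133e8447a471f81c2e311b9dcaf4b (k8 c12110 c5313 c785 c5435 c5434 c5433 c5432 c5318 (k8 c5562 c5560 c5558 c5566 c5564 c5382 c12631 c5489 (k8 c5488 c5405 c5404 c5406 c5490 c5444 c5396 c5397 (k8 c5447 c311 c15288 c12668 c16648 c717 c718 c824 (k8 c823 c2610 c15434 c1085 c2321 c1082 c15283 c1925 (k8 c2339 c2341 c2629 c3623 c15342 c3617 c15326 c2191 k0)))))) (by decide +kernel)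
def c16650 : PP 9 3 T 0x1040000000000000000000004000000000000000000000000000200000200000000000180400000000000000000000000000000 := rS 0x281ae606218cb804 (k8 c16643 c11323 c9754 c10110 c10162 c1765 c729 c1198 k0) (by decide +kernel)
def c16651 : PP 9 3 T 0x4000000000008000000000000000000000000000000000200100000000001000000100100000200000004000000000000000000010000000005000000 := rS 0x1df6b8d12e1d4a8cc2e31 (k8 c5434 c5433 c5316 c5488 c5486 c5404 c3577 c14269 (k2 c5450 c15326 k0)) (by decide +kernel)
def c16652 : PP 9 3 T 0x50000221000000000000000200000004000200000000000000000000000000000000000004000000000000000000000000000000000000 := rS 0x781365e6532561037fb3da3014ca7566ab8aad508f40f1b3c67e0527c12ad57a5dfa95548a4c6818984cfa111e91c7e070b8c46f933b95e97b17b97009b2 (k8 c5210 c16643 c11323 c10793 c16649 c12110 c5313 c785 (k8 c12891 c5435 c5434 c5433 c5432 c5318 c5562 c5560 (k8 c5558 c5566 c5564 c5382 c5380 c9754 c9692 c5489 (k8 c5488 c5405 c5404 c5406 c5490 c311 c15278 c16648 (k8 c9764 c12668 c717 c718 c824 c823 c2610 c15434 (k8 c1085 c2321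 c1082 c2317 c15283 c1925 c2339 c2341 (k8 c2629 c3623 c16650 c15290 c15279 c1326 c10734 c8772 k0))))))) (by decide +kernel)
def c16653 : PP 9 3 T 0x1000000000000059000220000000000000000000040004000200000000000000000000000400000000000000000000000000200000000000000000010220 := rS 0x3c2df0f7899ed366b55929f50a6c68742f3dcde7d44a3cee573da44f283 (k8 c5525 c5524 c5374 c5372 c5313 c785 c5568 c5567 (k8 c5566 c5565 c10793 c312 c421 c420 c10735 c1121 (k8 c1522 c1118 c1532 c1967 c1969 c1530 c5680 c15266 (k2 c5580 c10517 (k1 c7600 k0))))) (by decide +kernel)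
def c16654 : PP 9 3 T 0x1004000000000051000000000000000000000000000004000000000000000000000000000000000005000000000000000000000002000000000080000000 := rS 0x3c3f3 (k2 c5588 c10680 (k1 c5198 k0)) (by decide +kernel)
def c16655 : PP 9 3 T 0x50000221000000000000000200000004000200000000000000000000000000000000000000000000000000000000000000000000000000 := rS 0x160c881ad5086c05125ff017a26556f3598784e70501822be33f17d3e0965a4b63eda59ac1a913dab55efd54ec852637ba0626133ea3c1e111e90496471f81c6f933b95cb804 (k8 c16643 c11323 c5313 c785 c12891 c5435 c5432 c5318 (k8 c5562 c5342 c5340 c5560 c5558 c9737 c5568 c5566 (k8 c5564 c5382 c5380 c10793 c9754 c9692 c5210 c5489 (k8 c5405 c5406 c5490 c5372 c5374 c5522 c5523 c12110 (k8 c16647 c16649 c16652 c1753 c16653 c15291 c1516 c9764 (k8 c12668 c15492 c5663 c5680 c728 c2927 c15542 c2322 (k8 c2532 c1085 c2317 c5657 c15283 c2341 c16654 c12648 (k4 c717 c823 c2610 c2629 (k2 c15290 c3623 (k1 c16650 k0)))))))))) (by decide +kernel)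
def c16656 : PP 9 3 T 0x50000200000000000000000200000000000000000000000000000000000000000000000400000000000000000001000540000000000220 := rS 0x1bee1f127597b14fa85245e379f48247 (k8 c5562 c5340 c5566 c5565 c312 c311 c1121 c1522 (k4 c5444 c1753 c1694 c5680 (k2 c13096 c5580 (k1 c11685 k0)))) (by decide +kernel)
def c16657 : PP 9 3 T 0x2000000000000000000000200000000000000000400000000000000000000000000004002000080002000004001004540000000405560 := rS 0x653804ec68a1ecf2b5148644a3d20a4d4299 (k8 c5447 c5398 c5444 c5340 c5560 c5559 c9698 c9692 (k8 c2610 c2428 c3861 c747 c3568 c3046 c801 c3579 (k1 c1719 k0))) (by decide +kernel)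
def c16658 : PP 9 3 T 0x12000210000000000000000200000000000200000000000000000100000000000000000001000000000800000000000000000000000020 := rS 0x71ad5be9d101ec18198984d1e0f088f4824b2395c723f1b8ec920ba531d3793 (k8 c12891 c8100 c2482 c5211 c5516 c5334 c5332 c5435 (k8 c5318 c5317 c5313 c5562 c5342 c5340 c5560 c5558 (k8 c9737 c5568 c5564 c5382 c9698 c12647 c14795 c315 (k4 c1136 c14796 c2608 c14790 (k1 c3590 k0))))) (by decide +kernel)
def c16659 : PP 9 3 T 0x52000210000000000000000200000000000200000000000000000000000000000000000000000000000800000000000000000000000020 := rS 0x42e35a7cd20e18aacd8e8137a3c824b2b8fc0e170ff8c12491dd2937931b8e4223d099f52699 (k8 c5447 c5444 c5566 c5564 c5560 c5558 c5317 c5435 (k8 c12891 c8100 c5211 c5332 c5334 c16656 c12668 c9664 (k8 c5433 c5432 c5318 c5313 c5342 c5340 c5568 c5565 (k8 c5380 c2482 c2377 c1139 c12655 c16658 c5589 c5685 (k2 c15520 c2608 (k1 c16331 k0)))))) (by decide +kernel)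
def c16660 : PP 9 3 T 0x52000210000000000000000200000000000200000000000000000000000000000000000000000000000000000000000000000000000020 := rS 0x481b01a6b88c4c268f0791c2e0b4f844fc09248ee949bc98dc723f2b81c7a7d (k8 c5566 c5560 c5432 c5313 c5318 c5317 c5435 c12891 (k8 c8100 c5211 c5332 c5334 c16656 c9764 c5558 c15291 (k8 c5516 c5433 c5562 c9737 c5568 c5564 c5382 c9728 (k4 c16659 c316 c5665 c12876 (k1 c16657 k0))))) (by decide +kernel)
def c16661 : PP 9 3 T 0x2000000000000011000200000000000000000200080000000200000000000000000000010000000000000000000000000000000000000000000000000000 := rS 0x1ef7fb3de701 (k4 c5502 c5540 c5543 c5544 (k2 c14774 c14772 k0)) (by decide +kernel)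
def c16662 : PP 9 3 T 0x50000200000000000000000200000000000000000000000000000800000000000000004404000000000800000000000140000040400020 := rS 0xb44c455666f4790497f3 (k8 c5549 c5342 c5340 c5568 c5565 c2377 c1139 c15520 (k2 c5685 c2613 k0)) (by decide +kernel)
def c16663 : PP 9 3 T 0x6000000000051000210000000000000000200000000000000000000000000000000000000000000004000000000000400004000000040000000000160 := rS 0xcb5098628703c240d80d88c4c268f0791c764905d298e9d (k8 c5458 c5535 c5211 c5516 c5334 c5332 c5562 c9737 (k8 c5568 c5564 c5382 c9728 c316 c5665 c12876 c15597 (k4 c746 c747 c1578 c2930 (k2 c1292 c5680 k0)))) (by decide +kernel)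
def c16664 : PP 9 3 T 0x50000201000000000000000200000004000200000000000000000000000000000000000000000000000000000000000000000000000000 := rS 0x28596b449455666af9b89bee1f06c7c69f04924769b0fd2b3b931b85c0e3f1c95c0813379f51e111e9049647 (k8 c5562 c5342 c5340 c5560 c5558 c5568 c5566 c5565 (k8 c5564 c16643 c5313 c5317 c5318 c5432 c5433 c5435 (k8 c12891 c16655 c5211 c9664 c8100 c5332 c5334 c16656 (k8 c15291 c12668 c16660 c5235 c5460 c5538 c3590 c5549 (k8 c16663 c2377 c1139 c16662 c5685 c1753 c1199 c5680 k0))))) (by decide +kernel)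
def c16665 : PP 9 3 T 0x100000000000000000000000000000000000000000000000000000000000000000000000220 := rS 0x32657 (k2 c81 c5438 (k1 c10195 k0)) (by decide +kernel)
def c16666 : PP 9 3 T 0x4200080000000005a000000000000000000000200040000000100000000000000000000000000000400000000000000000000000000000400000400000000 := rS 0x7c6fe14e34556974aaa5929b4cb559ad3 (k8 c5496 c5495 c5454 c5447 c5397 c5396 c5489 c5488 (k8 c5404 c5500 c5501 c8724 c16230 c1480 c1083 c15812 k0)) (by decide +kernel)
def c16667 : PP 9 3 T 0x280000000000a000000000000000000000000000000000000002000020000000000000000000100000000000000000000000000000000000000000000 := rS 0xd765b453aad57a5d2a9f50b25aad3 (k8 c5496 c5454 c5396 c5398 c5448 c5488 c5404 c5406 (k4 c5490 c5458 c5459 c1292 (k2 c2145 c3618 k0))) (by decide +kernel)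
def c16668 : PP 9 3 T 0x100080000000001a000200000000000000000200040004000100000000000041000000000000000000000000000000000020000002000400010441000000 := rS 0x359c0cb1c7856303803ca28f55a8806ead57a5dfa955483c969f50b2536996ab4fe6df (k8 c2947 c5588 c5496 c5454 c5447 c5397 c5396 c5398 (k8 c5448 c5342 c9737 c5489 c5488 c5405 c5404 c5406 (k8 c5490 c8484 c5650 c11945 c2420 c345 c5657 c15771 (k8 c2627 c2144 c16667 c5654 c11888 c400 c3618 c1721 k0)))) (by decide +kernel)
def c16669 : PP 9 3 T 0x52000221040000000000000200000004000000000000000000000000000000000000000000000000000000000000000000000000000000 := rS 0x1a0f44eaade61ef6acfe648058ed9acf1a95bbcf17eec8c8290c88dee5c020448f29a5b253699 (k8 c5447 c5397 c5396 c12110 c16664 c5562 c5558 c16643 (k8 c11323 c10793 c9734 c9698 c9692 c15726 c5210 c5405 (k8 c9695 c5214 c10195 c5450 c5453 c5495 c10737 c15526 (k8 c15386 c5588 c2895 c16666 c16668 c2532 c1085 c1083 (k2 c5657 c15342 (k1 c1926 k0)))))) (by decide +kernel)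
def c16670 : PP 9 3 T 0x2000000000000052000220080000000000000200000000000000000000000000000000000000000000000000000000000000200000000000000000000020 := rS 0x1c3287671100dc3ff305bfd9e8580b44468d40c4c26894783c224b239ed220da5a4d3699039858e57 (k8 c5353 c5357 c5445 c713 c5447 c5397 c5444 c12110 (k8 c5522 c5374 c5372 c5562 c5342 c5558 c9737 c5568 (k8 c5567 c5564 c5382 c5380 c12629 c9734 c5501 c5502 (k8 c5541 c5543 c5544 c823 c12426 c12267 c8484 c5650 (k4 c15542 c340 c12830 c11223 (k1 c11878 k0)))))) (by decide +kernel)
def c16671 : PP 9 3 T 0x100080000000005a000220000000000000000200000004000100000000000041000000000000000000000000000000000020000000000000000040000020 := rS 0xec9020058a432230891e9693 (k8 c5444 c12110 c5562 c5558 c9734 c9698 c9692 c718 (k4 c5650 c15386 c340 c16668 k0)) (by decide +kernel)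
def c16672 : PP 9 3 T 0x52000221000000000000000200000004000000000000000000000000000000000000000000000000000000000000000000000000000000 := rS 0x74de24fca2a1eef7b7c63ef095cfec7c901cc2f1d919222237b9710313099f51e0f088f4824704ca4087b48834d74b (k8 c12110 c5523 c5522 c5374 c5372 c16643 c16664 c16665 (k8 c5562 c5340 c5560 c5558 c9737 c5568 c5566 c5564 (k8 c5382 c5380 c11323 c10793 c9734 c9728 c15726 c5210 (k8 c9695 c5445 c713 c16669 c5357 c5358 c5353 c11870 (k8 c9764 c15499 c16670 c5165 c16671 c15434 c12431 c15431 (k2 c14109 c11955 (k1 c494 k0))))))) (by decide +kernel)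
def c16673 : PP 9 3 T 0x2006000000000010000200080000000000000000000000000000000100000000000000000000000001000001104405400400000000000000000000000000 := rS 0x81a2da4d76af7d89ef7fb3d0b0144b34eae2709f5bec73fc4d028f (k8 c5568 c5380 c5382 c5358 c5535 c5538 c5566 c5460 (k8 c3610 c5440 c5537 c5567 c5502 c5541 c5543 c5544 (k8 c8783 c15064 c10651 c1662 c1765 c5689 c2938 c2087 (k1 c3613 k0)))) (by decide +kernel)
def c16674 : PP 9 3 T 0x51000220000000000000000000040000000100000000000000000000000000000000000000000000000000000004411000001040010020 := rS 0xb81940cb4fc5090b51002c52191184c1a9df9f8dc4e13d9f4f2df63f80ff9289a05228f (k8 c5568 c5374 c5380 c5382 c5209 c5358 c5225 c5535 (k8 c5538 c5524 c5566 c5372 c5460 c3610 c11976 c11668 (k8 c9066 c5522 c5564 c9734 c9698 c9692 c718 c5650 (k8 c11945 c15386 c345 c1608 c1292 c5680 c15500 c1068 (k1 c714 k0))))) (by decide +kernel)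
def c16675 : PP 9 3 T 0x50000221000000000000000200000004000000000000000000000000000000000000000000000000000000000000000000000000000000 := rS 0x1b414b424aac3dedf1fcf25e0d8d2d067935835227b54eca22872da35ee5c0244c260f128447a412591cef29 (k8 c16664 c14727 c5562 c5342 c5340 c5560 c5558 c5559 (k8 c9737 c5564 c5382 c16643 c11323 c10793 c12629 c11445 (k8 c11253 c9728 c5210 c5489 c5372 c5374 c5522 c5523 (k8 c5524 c5525 c12110 c16672 c5225 c5209 c11668 c11976 (k8 c16673 c16674 c1085 c10680 c11939 c12648 c2610 c717 k0))))) (by decide +kernel)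
def c16676 : PP 9 3 T 0x200000000000000a000210040000000000000200000000000100000100000000000000145000000000000000000004000000200001000000000000004444 := rS 0x1c4c68a240f26c06a73c2d155a5dfa9554c4c268f23b253699 (k8 c5447 c5397 c5396 c5562 c5568 c5564 c5382 c5489 (k8 c5488 c5405 c5404 c5500 c5501 c8772 c3617 c15421 (k4 c9860 c1538 c12876 c747 (k2 c5669 c15387 (k1 c2619 k0))))) (by decide +kernel)
def c16677 : PP 9 3 T 0xa000010040000000000000000000000000100000000000000000000005000000000000000004004000000200000000000000000002020 := rS 0x2a8d40388b240e61 (k8 c5445 c713 c5396 c9728 c54 c316 c15421 c1138 k0) (by decide +kernel)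
def c16678 : PP 9 3 T 0x1001800000000012000011040000000000000000000004000000000400000000000000000000000000000002000004000400000000000000000000000000 := rS 0x1c50363210f283362a765114396c0899 (k8 c5447 c16643 c11445 c11253 c9728 c5210 c5489 c5665 (k4 c8722 c2428 c5672 c5669 (k2 c2629 c15364 (k1 c2619 k0)))) (by decide +kernel)
def c16679 : PP 9 3 T 0x10040000000000000000000000000100000100001000000000015100000001000040004000000800000000000000000000000040 := rS 0x1566d (k2 c64 c1138 (k1 c9860 k0)) (by decide +kernel)
def c16680 : PP 9 3 T 0x12000211040000000000000200000004000100000000000000000000000000000000000000000000000000000000000000000000000000 := rS 0xb18040d0914f020cd86b68a401bed3db4d9ad56795bbc977eaa76403889710e5b8984d1e0f23924174a6481cc204 (k8 c16643 c5445 c713 c5396 c5211 c5516 c5334 c5562 (k8 c9737 c5568 c5564 c5382 c11445 c11253 c11323 c9728 (k8 c54 c5210 c5489 c5405 c5404 c5214 c10195 c5453 (k8 c5454 c5495 c5496 c886 c16676 c16677 c12876 c9793 (k8 c16679 c5665 c8722 c16678 c747 c5672 c2629 c850 (k2 c1295 c16667 k0)))))) (by decide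 +kernel)
def c16681 : PP 9 3 T 0x200080000000000000200080000000000000000000000000000000000000000000000000000000000000000000000000000005140 := rS 0x7b6ffcd208189a3c964705f8c261120b847c7f2b8f4fa49 (k8 c5334 c5566 c5560 c5353 c5358 c9764 c3056 c5340 (k8 c5558 c5564 c15499 c5516 c5562 c5342 c5568 c5382 (k4 c5380 c12876 c5589 c2948 (k2 c15912 c15503 k0)))) (by decide +kernel)
def c16682 : PP 9 3 T 0x12000211000000000000000200000004000100000000000000000000000000000000000000000000000000000000000000000000000000 := rS 0x6bac199df68c05fecf81ad53b1559aad048579080d40c6a8cc7de33a95cfe792fe480e9930a6d92ad57a5dfa9554970b21dd921cb613379f5128f078447a4125824094a (k8 c5211 c16643 c16665 c5342 c5340 c5560 c5558 c9737 (k8 c5568 c5567 c5566 c5565 c5564 c11445 c11253 c5210 (k8 c5486 c313 c11323 c5489 c5488 c5405 c5404 c5406 (k8 c5490 c5396 c5397 c5445 c5447 c713 c16680 c5439 (k8 c5441 c5358 c5353 c5440 c15499 c9764 c383 c2997 (k8 c16681 c316 c315 c422 c2541 c423 c1138 c2377 (k8 c1139 c1135 c2608 c2627 c11551 c2396 c1977 c1975 (k4 c15342 c3617 c3623 c2191 (k1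 c15326 k0))))))))) (by decide +kernel)
def c16683 : PP 9 3 T 0x2000000000000050000200080000000000000200080000000000000000001000000000000000000051000050000000000000200000000000000040000120 := rS 0x22ab5582713ea14ca6d96d76ab4d9ac90b181883059fcc0c9006b3de6d15586622818984d1e0f1290c7a472482c6ef5 (k8 c5519 c5518 c5516 c5334 c5562 c5560 c5561 c5559 (k8 c9737 c5568 c5564 c5382 c5380 c9728 c9698 c5500 (k8 c5501 c5540 c5543 c422 c12876 c16681 c5589 c2897 (k8 c822 c821 c713 c714 c1915 c1916 c1918 c1475 (k8 c1765 c1755 c1066 c1463 c1068 c1465 c3617 c3618 (k2 c1342 c1294 (k1 c5685 k0))))))) (by decide +kernel)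
def c16684 : PP 9 3 T 0x59000210000000000000000200000004000100000000000000000000000000000000000001004000000000200000000000000000000020 := rS 0x3be35640f9a63103b2d24174d7bfc2b0f9405ff035aa662ab355a09e420350315aaf7ea55521940c4c266f3ea251e0f088f4960905d28be793f8ccaf92 (k8 c5209 c5353 c383 c5358 c5441 c9668 c5211 c5516 (k8 c16665 c5342 c5560 c5558 c9737 c5568 c5567 c5566 (k8 c5565 c5564 c5382 c5380 c9698 c5489 c5488 c5405 (k8 c5406 c5490 c12647 c316 c315 c422 c423 c1138 (k8 c2377 c1139 c2373 c2608 c2627 c2396 c1977 c5685 (k8 c3623 c11668 c5506 c9046 c10952 c9848 c1326 c714 (k4 c1565 c2086 c9764 c15467 (k2 c442 c5494 (k1 c5653 k0))))))))) (by decide +kernel)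
def c16685 : PP 9 3 T 0x40000000000000050000000000000000000000000000000000000000000000000000000000000000400000000000000004000000004000000000000002020 := rS 0x5ac54406a (k4 c316 c315 c1139 c2608 (k1 c5685 k0)) (by decide +kernel)
def c16686 : PP 9 3 T 0x50000201000000000000000200000004000000000000000000000000000000000000000000000000000000000000000000000000000000 := rS 0x3970f8961e04fa8596d7efb55a6cd67b242c60620c00c0d6facda3f3487b4ff92d8bd46e491d87e959d04ca48e4b208f4862556abd2efd4aaa76419889710e5b02204de0f (k8 c9737 c5565 c5380 c16643 c11445 c11253 c11323 c9728 (k8 c9698 c5210 c5489 c5488 c5405 c5404 c5406 c5490 (k8 c5559 c5561 c5560 c5340 c5342 c5562 c16664 c16665 (k8 c16675 c5211 c9664 c5332 c5334 c5518 c5519 c16682 (k8 c5209 c5358 c16683 c16684 c5589 c9793 c2897 c2948 (k8 c16685 c16681 c822 c821 c713 c714 c1915 c1473 (k8 c1916 c1918 c1475 c5451 c1765 c1755 c1068 c1465 (k4 c5688 c3618 c15326 c5460 (k2 c5534 c11685 k0))))))))) (by decide +kernel)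
def c16687 : PP 9 3 T 0x52000221040000000000000000040004000200000000000000000000000000000000000000000000000000000000000000000000000800 := rS 0xc46ab33c21167b453aab10bcde81e78ab52efd4aaa76464008a63af71f81c2e311b8f4ee572e24506c94da6412930212d6ae381c07e559 (k8 c16686 c5231 c5592 c5550 c5549 c5548 c5546 c16643 (k8 c5444 c311 c5447 c5397 c5396 c5525 c5374 c11323 (k8 c5313 c785 c5436 c5435 c5434 c5433 c5432 c5318 (k8 c10793 c12631 c9692 c53 c15726 c5210 c5489 c5488 (k8 c5405 c5404 c5490 c9695 c718 c824 c15767 c2417 (k8 c1085 c1082 c1925 c2339 c15281 c8772 c3617 c15288 (k2 c8354 c15284 k0))))))) (by decide +kernel)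
def c16688 : PP 9 3 T 0x52000220000000000000000000040000000200001000051040000000000000001051000050000000000000200001400000000000000420 := rS 0x1db1c40cd0fb1154d265acdaad77fac4488a2104052230795c72070b8c46e3d3d834f29f50b241293 (k8 c5444 c311 c5396 c5398 c5448 c5524 c5522 c5372 (k8 c5436 c5435 c5434 c5433 c5432 c5317 c5313 c9737 (k8 c9734 c9692 c15386 c826 c825 c720 c1932 c2780 (k8 c1933 c2778 c2760 c1090 c3618 c3623 c2939 c1085 (k4 c2075 c5650 c839 c340 (k1 c3568 k0)))))) (by decide +kernel)
def c16689 : PP 9 3 T 0x2000000000000050000221040000000000000000040004000200000000000000000000000000000000000004000000000000000000000000000000000400 := rS 0x11f788514ff67a15e6d155aa764872da363af789a251e0f3b95cb89141824084b24c07e559 (k8 c16686 c5231 c5592 c5588 c5546 c16643 c311 c5525 (k8 c5374 c11323 c5313 c785 c9737 c5568 c5567 c5382 (k8 c10793 c12631 c12629 c11445 c11253 c5210 c5489 c5500 (k8 c5501 c5540 c5541 c5543 c5544 c12913 c15251 c8783 (k2 c15281 c15255 k0))))) (by decide +kernel)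
def c16690 : PP 9 3 T 0x100000000000000a000000000000000000000000040004000200000000000040000000104000000000000000000000000000000000800000010200000000 := rS 0x693f9e4f554a7d42c9 (k8 c5396 c5398 c5448 c5489 c2420 c5657 c2536 c15264 (k1 c2943 k0)) (by decide +kernel)
def c16691 : PP 9 3 T 0x80000000000000042000201040000000000000000000004000200000000000000000000014000000004001000000400000000000000000000000080010000 := rS 0x62333c2ad4bbf52aa9d90a5929b4cad5c70380b54ee3d8e9707e0949810ae07 (k8 c5432 c5313 c16643 c5444 c311 c5318 c11323 c12631 (k8 c5436 c785 c15288 c5592 c5550 c5549 c5548 c5447 (k8 c5397 c5396 c9692 c5210 c5489 c5488 c5405 c5404 (k4 c5490 c8772 c3617 c8354 (k1 c15284 k0))))) (by decide +kernel)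
def c16692 : PP 9 3 T 0x1000000000000052000201040000000000000000040004000200000000000000000000004000000000000000000400000000000000800000000000010000 := rS 0x2a9a2f479a743c217eec852237b85c63f2acb54ee3d8e9707e0949810ae07 (k8 c5432 c5313 c16643 c5444 c311 c5318 c11323 c12631 (k8 c5436 c785 c15288 c16686 c5231 c5434 c5433 c10793 (k8 c9734 c9692 c5210 c5405 c16690 c5650 c5855 c2532 (k4 c5657 c1925 c16691 c1085 k0)))) (by decide +kernel)
def c16693 : PP 9 3 T 0x20000000000000000000000000000000000000000040000000008000000000000000000000400000004000000140000000004540 := rS 0xc71d9ec1a79 (k4 c5524 c5522 c5372 c1647 (k2 c2561 c3568 k0)) (by decide +kernel)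
def c16694 : PP 9 3 T 0x52000221040000000000000000040004000200000000000000000000000000000000000000000000000000000000000000000000000000 := rS 0x55acc3cff10b49aab11210820cff691817018a92606b5f92b55e977ea5553b21488dee0fac8e40e371e9dcae5c418252604 (k8 c16643 c5444 c311 c5525 c11323 c5313 c785 c5436 (k8 c5435 c5432 c5317 c16686 c9737 c10793 c9734 c9692 (k8 c5210 c5489 c5488 c5405 c5404 c5406 c5490 c5231 (k8 c5548 c5550 c5588 c5590 c5592 c16687 c16688 c16689 (k8 c16693 c16692 c826 c720 c1932 c2778 c15348 c16690 (k4 c2943 c5650 c2761 c1085 (k1 c3623 k0))))))) (by decide +kernel)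
def c16695 : PP 9 3 T 0x220000000000000000000080000000200000000000000000000000000000000000000000000000000000000000000000000014100 := rS 0x1fc82dff992902133ea3c7e3d489248fe171b18760b1b81c727b2b834f313 (k8 c5382 c5524 c5522 c5313 c5372 c5317 c5432 c5435 (k8 c5516 c5332 c3568 c2619 c5535 c5520 c5334 c5374 (k8 c5436 c5318 c5568 c5566 c5564 c5380 c12614 c5546 (k4 c2510 c9151 c10493 c12613 k0)))) (by decide +kernel)
def c16696 : PP 9 3 T 0x52000221040000000000000000000004000200000000000000000000000000000000000000000000000000000000000000000000000000 := rS 0x335a3df5532d66b58ac05a4d56bbfe06b1121c11442087859fed6311dea0b0f8ee94ad57a5dfa9554ec852f7078e40e17188dc7a772b970f691069e53ea1648252604 (k8 c16643 c5444 c311 c5396 c5398 c5448 c5524 c5522 (k8 c5374 c5372 c11323 c5313 c785 c5436 c5435 c5434 (k8 c5433 c5432 c5317 c9737 c10793 c9692 c5210 c5489 (k8 c5488 c5405 c5404 c5406 c5490 c16694 c5332 c5517 (k8 c5516 c5519 c5520 c3568 c15252 c16693 c5535 c16695 (k8 c826 c825 c719 c720 c1932 c1935 c2780 c1933 (k8 c2778 c15348 c3068 c3048 c1094 c2760 c1090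 c3623 (k4 c8161 c2135 c2075 c5688 k0)))))))) (by decide +kernel)
def c16697 : PP 9 3 T 0x52000221000000000000000000000004000200000000000000000000000000000000000000000000000000000000000000000000000000 := rS 0x1fcbf92d91700831 (k8 c5434 c16643 c11323 c5210 c16696 c5439 c5358 c15622 k0) (by decide +kernel)
def c16698 : PP 9 3 T 0x59000200000000000000000100040004000200000000000001000000000000000000000001000400000020200000400000000000000820 := rS 0xf0a6cc2c965287c69f1334c122521fbceab008b3da2ff4ca7566ab10bcde81e3625dfa955480452638ebdd02133e8cc7e17188dc7a4b5ac5603f2 (k8 c5231 c5592 c5590 c5548 c5546 c5436 c5435 c5434 (k8 c5433 c5318 c5316 c5566 c5564 c5380 c10793 c12631 (k8 c9754 c9692 c53 c5489 c5488 c5405 c5404 c717 (k8 c718 c824 c15767 c2417 c1085 c2321 c1082 c2317 (k8 c2341 c1925 c2339 c15281 c14396 c15294 c5506 c1932 (k8 c1093 c421 c15747 c5651 c15291 c12668 c2927 c5680 (k4 c10123 c1755 c1326 c8772 (k1 c11103 k0)))))))) (by decide +kernel)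
def c16699 : PP 9 3 T 0x200000000000000000000000000000000000000000000000000500400000150004050000000400000200000000000000000000220 := rS 0x34d92a13a178de89 (k8 c5567 c5565 c312 c421 c1121 c1118 c1969 c3618 k0) (by decide +kernel)
def c16700 : PP 9 3 T 0x8000000000000000000000000000000000000000000000000000000500400000100004000080000404000800000000000000000000000 := rS 0x69b2542c556abd2e95 (k8 c5488 c5404 c5406 c5490 c1629 c1121 c1118 c2939 (k1 c3618 k0)) (by decide +kernel)
def c16701 : PP 9 3 T 0x50000221040000000000000000040004000200000000000000000000000000000000000000000000000000000000400000000000000000 := rS 0x3a8e8c05f04bc936f50ffb5549f65acdaad77fac4488a2104016f156abd2efd4aaa764641488cc6f73783c2e311e9dcae5c022441a83d8ad606498ac07e559 (k8 c16686 c5231 c5592 c5590 c5588 c5550 c5548 c16697 (k8 c5525 c5522 c5374 c16643 c11323 c5313 c785 c5436 (k8 c5434 c5433 c9737 c5565 c10793 c9754 c9734 c9692 (k8 c15726 c5210 c5489 c5488 c5405 c5404 c5406 c5490 (k8 c9695 c16698 c15386 c826 c825 c720 c1932 c2780 (k8 c1933 c2778 c2760 c1090 c2756 c3623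 c14538 c1085 (k8 c1924 c7393 c5657 c16699 c16700 c5663 c9123 c1575 (k1 c15892 k0)))))))) (by decide +kernel)
def c16702 : PP 9 3 T 0x11000000000000000000000000040000000000000000001040000000004100000001000550000000000000200000000001000000000820 := rS 0xd1f02ade81e (k4 c718 c824 c1085 c7600 (k2 c1925 c8772 k0)) (by decide +kernel)
def c16703 : PP 9 3 T 0x50000200000000000000000100040000000200000000000000000000000000000050000050000000000000200000800000000040000220 := rS 0x35963e2658904e201488e3a6f0b9dcae9f2f354e87d (k8 c5566 c421 c1532 c312 c1522 c5313 c785 c5433 (k8 c5565 c12631 c9734 c9692 c5650 c2865 c2423 c9148 (k4 c5813 c1093 c16699 c5465 k0))) (by decide +kernel)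
def c16704 : PP 9 3 T 0x51000200000000000000000100040000000200000000001040000000000000000051000050000001000000200000800000000000000220 := rS 0x1a3e055bcc3ccf4cb2536343a178ee57 (k8 c5313 c785 c312 c421 c420 c10735 c1118 c1520 (k4 c1530 c16703 c2532 c1085 (k2 c7600 c1705 (k1 c8772 k0)))) (by decide +kernel)
def c16705 : PP 9 3 T 0x4000000000059000000000000000000000000040000000200001000050040000000000100001000004000000000000000200000000000000000000820 := rS 0x26994977ea5552291f8c556990f33de837 (k8 c5435 c824 c2339 c718 c2317 c1085 c5434 c5318 (k8 c9692 c5489 c5488 c5405 c5404 c15290 c16702 c1326 k0)) (by decide +kernel)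
def c16706 : PP 9 3 T 0x4000000000051000001040000000000000100040004000200000000000000000000000000000000004000000100000000000000800000000000000800 := rS 0x115fc2459ac44ea065b5cc0c46426556f40f2bf642931bdc6e772b97008b581c5603f2 (k8 c5231 c5592 c5590 c5550 c5548 c16643 c11323 c5313 (k8 c785 c5435 c10793 c9754 c9692 c5210 c5406 c718 (k8 c824 c1085 c2317 c16705 c10110 c10162 c1765 c1755 (k8 c5680 c4882 c1198 c2934 c5651 c14396 c2968 c2342 k0)))) (by decide +kernel)
def c16707 : PP 9 3 T 0x4000000000051000020000000000000000100040000000200000000000000000000000000000000004000000000004000000000800000000040000520 := rS 0x3a4e97d40cb13a6c40291198c1e570b8362bf2 (k8 c5231 c5590 c5522 c5433 c5313 c9737 c9754 c9734 (k8 c9692 c5650 c7393 c2865 c9148 c5680 c1121 c1277 (k2 c9123 c341 k0))) (by decide +kernel)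
def c16708 : PP 9 3 T 0x80004000000000049000000000000000000000000040004000000000000000044000000000500000004004100000000000000000000004000010000000000 := rS 0x1ec59ac5eaa05ac0e2b01 (k8 c5592 c5590 c5550 c5548 c5680 c15290 c9422 c2934 (k2 c5657 c14538 k0)) (by decide +kernel)
def c16709 : PP 9 3 T 0x80004000000000059000000000000000000000000040004000000000000000040000000004100000000004100000000000000000000004000010080000000 := rS 0x347c09b6525d2aa95abcdfaab (k8 c1085 c5405 c2532 c5548 c5489 c5488 c5404 c16708 (k4 c1326 c7600 c5459 c8772 k0)) (by decide +kernel)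
def c16710 : PP 9 3 T 0x50000221040000000000000000040004000200000000000000000000000000000000000000000000000000000000000000000000010000 := rS 0x3809166275032cc0c836a643ccf05f8d3e293998d0213379f41e391f81c6e3d3b95cd6b5f90248db13cd65ee5c022a52afd4babd5bb2 (k8 c5210 c5490 c5406 c5404 c5405 c5488 c5489 c16643 (k8 c11323 c10793 c16686 c5524 c16697 c16701 c16704 c5231 (k8 c5548 c5523 c5313 c785 c5436 c5435 c5432 c5318 (k8 c5317 c9737 c5566 c5565 c5564 c5380 c9754 c9718 (k8 c9692 c15291 c12668 c16706 c16693 c16707 c2317 c2315 (k8 c16709 c10162 c1755 c5680 c4882 c2934 c5651 c16289 (k1 c2754 k0))))))) (by decide +kernel)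
def c16711 : PP 9 3 T 0x58000000000000000000000000040000000000000000000041000000000000000000000001000000000020200004000000000000020820 := rS 0x1562179879fa01 (k4 c53 c5405 c718 c15767 (k2 c2417 c1085 (k1 c15281 k0))) (by decide +kernel)
def c16712 : PP 9 3 T 0x11000020000000000000000000040000000200000000000000000000000000000000001000000000000000400000000000000040000520 := rS 0x1da6c40233183cae0d (k8 c5522 c5313 c9737 c9754 c9734 c5650 c7393 c341 (k1 c9123 k0)) (by decide +kernel)
def c16713 : PP 9 3 T 0x50000221040000000000000000040004000200000000000000000000000000000000000000000000000000000000000000000000000000 := rS 0x156f310878169d3017d3ecb6ab5d62244510820092312fe4f156abd2efd4aaa764641498dee6fac85c623d3b95cb8043da44f3b1 (k8 c16697 c5524 c5374 c5372 c16643 c11323 c5313 c785 (k8 c5436 c5434 c5433 c16686 c5565 c10793 c9754 c9692 (k8 c15726 c5210 c5489 c5488 c5405 c5404 c5406 c5490 (k8 c9695 c5231 c5546 c16701 c16704 c16710 c826 c825 (k8 c720 c1932 c1933 c2778 c1090 c2756 c16700 c5663 (k4 c1696 c16711 c16712 c58 (k2 c2532 c1085 (k1 c15281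 k0)))))))) (by decide +kernel)
def c16714 : PP 9 3 T 0x59000200000000000000000100080004000200000000000000000000000000000000000001000405000400200000000000000000001220 := rS 0x12bc6aa08f81a2cf66b4daa9d4ca6d929f508d0e8922f2b52efd4aaa63b13099bcfa894783cee571d9241647 (k8 c5520 c5516 c5334 c5332 c5313 c785 c9737 c5568 (k8 c5567 c5566 c5565 c5564 c5382 c12631 c5489 c5488 (k8 c5405 c5404 c5490 c312 c311 c421 c420 c1121 (k8 c1522 c1118 c1119 c1520 c1694 c1532 c1969 c1967 (k8 c1530 c1704 c5679 c15265 c3617 c12577 c12614 c15308 k0))))) (by decide +kernel)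
def c16715 : PP 9 3 T 0x50000221040000000000000000000004000200000000000000000000000000000000000000000000000000000000000000000000000000 := rS 0x1df68320ea9a302abdbf22fa7d96b35ac5602d56bbfd62243822884100491dea0b0f8ee9495d90a4c66f07d642e311e9dcae5c021ed220d359e507b1 (k8 c16697 c5525 c5524 c5523 c5522 c5374 c5372 c16643 (k8 c11323 c5313 c785 c5436 c5434 c5433 c16686 c9737 (k8 c5565 c9754 c9692 c5210 c5488 c16713 c5332 c5517 (k8 c5516 c5519 c5520 c16714 c15296 c826 c825 c719 (k8 c720 c1932 c2780 c1933 c2778 c3068 c3048 c1094 (k8 c2760 c1090 c2756 c16700 c5685 c14538 c15372 c5663 (k4 c9123 c1575 c1189 c1190 (k2 c5494 c10484 k0)))))))) (by decide +kernel)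
def c16716 : PP 9 3 T 0x51000220080000000000000100000000000200000000000000000000000000000000000000000000000000000000000000000000010020 := rS 0xe0cb59a68da9d0f27c8c738898cde6b04f8d6a494c8e817e1f952d8e171b81c1a571c9ec1e23 (k8 c9734 c9737 c5372 c5317 c5313 c5522 c5432 c5435 (k8 c5433 c5357 c13294 c5231 c11668 c10403 c11223 c1592 (k8 c5588 c5548 c9025 c5438 c5523 c5565 c9754 c9728 (k8 c9718 c15386 c15291 c16707 c1082 c2315 c7600 c2497 (k2 c1326 c16289 (k1 c6190 k0)))))) (by decide +kernel)
def c16717 : PP 9 3 T 0x50000221000000000000000000000004000200000000000000000000000000000000000000000000000000000000000000000000000000 := rS 0x1df69fbdaad7642288410f1d2cff92d8ec8b804ac85c623d (k8 c5436 c5434 c5433 c16686 c16643 c11323 c5210 c16697 (k8 c16715 c5358 c13294 c9025 c16716 c826 c825 c15377 (k4 c1933 c2778 c5583 c2938 (k2 c5494 c5689 k0)))) (by decide +kernel)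
def c16718 : PP 9 3 T 0x40000000000000052000210000000000000000000000000000000000000000000000000000000000000000001000001000000004000005140000000011060 := rS 0x1f9c7e120b18f66c35b7e284a88a062613379f51e0f1d9241647a51841293 (k8 c5444 c311 c5445 c5211 c5520 c5516 c5334 c5332 (k8 c9737 c5568 c5566 c5565 c5564 c5382 c5380 c9728 (k8 c12614 c15459 c2510 c1139 c5665 c742 c3568 c9151 (k4 c5535 c2619 c12613 c10493 k0)))) (by decide +kernel)
def c16719 : PP 9 3 T 0x40000000000000050000200000000000000000000000000000000000000000000000000000000001000000000000000000800000000000000000000000000 := rS 0x8aaccde8f (k4 c5568 c5565 c2377 c1139 (k1 c5685 k0)) (by decide +kernel)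
def c16720 : PP 9 3 T 0x40000000000000052000201040000000000000000000004000200000000000000000000000000000004000000000000000400000000000000000000010000 := rS 0x6933628d171b818be148318f27b419b01aa9d9444b713078e46e3b05d2b3a614cb54ee3d8e9707e0949810ae07 (k8 c5432 c5313 c16643 c5444 c311 c5318 c11323 c12631 (k8 c5436 c785 c15288 c5447 c5445 c16717 c5211 c5516 (k8 c5332 c5435 c5317 c9737 c5382 c11445 c9728 c5210 (k8 c5489 c316 c5665 c8722 c742 c2428 c3568 c16718 (k8 c5535 c3888 c801 c2619 c9793 c747 c8354 c15387 (k1 c3063 k0)))))) (by decide +kernel)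
def c16721 : PP 9 3 T 0x40000000000000002000000000000000000000000080000000000000000005000000000100000000005001050010084000800200000000100000401400000 := rS 0x115ee62339a30166a09e40c103253699 (k8 c5447 c5397 c5396 c15623 c2371 c422 c423 c2500 (k4 c1977 c1976 c3617 c2395 (k2 c8707 c840 (k1 c5583 k0)))) (by decide +kernel)
def c16722 : PP 9 3 T 0x40000000000000002000000000000000000000000080000000000000000005000000000100000000005000050010084000800200000000100000401400000 := rS 0x9c (k2 c16721 c1136 k0) (by decide +kernel)
def c16723 : PP 9 3 T 0x40000000000000052000201040000000000000000000004000200000000000000000000000000000004000000000000000000000000000000000000010000 := rS 0xf67e6fbfc4ab48aaccd4977ea5553b2148644613379f5128f1c85e959d4db54ee3d8e9707e0949810ae07 (k8 c5432 c5313 c16643 c5444 c311 c5318 c11323 c12631 (k8 c5436 c785 c15288 c5397 c16717 c5211 c5433 c5317 (k8 c5568 c5567 c5566 c5565 c5564 c9734 c9698 c9692 (k8 c5210 c5489 c5488 c5405 c5404 c16720 c2377 c1139 (k4 c16719 c5803 c2572 c2514 (k2 c12670 c892 (k1 c16722 k0))))))) (by decide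 +kernel)
def c16724 : PP 9 3 T 0x1001000000000012000011040000000000000000000004000000000400000000000000000000000000000002000004000400000000000000000000000000 := rS 0x1df (k2 c16678 c5185 k0) (by decide +kernel)
def c16725 : PP 9 3 T 0x40000000000000052000201040000000000000000000004000200000000000000000000000000000000000000000000000000000000000000000000010000 := rS 0x3c290631e4f66c069afdaaa88a1cb7130795c723f038dc7a3b05d2b3a614c8252604 (k8 c16643 c5444 c311 c5447 c5445 c16717 c5211 c5516 (k8 c5332 c5436 c5435 c5432 c5318 c5317 c5313 c9737 (k8 c5382 c11445 c11253 c9728 c16723 c5500 c1138 c316 (k4 c5665 c742 c2428 c3568 (k2 c16718 c5535 (k1 c16724 k0)))))) (by decide +kernel)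
def c16726 : PP 9 3 T 0x52000201040000000000000000000004000200000000000000000000000000000000000000000000000000000000000000000000010000 := rS 0x6f1ec827e12ac1feb355b1d046a064062a9181b8d6a4bf92b55efd54ec852872dc74b913099f51e0f2b8e47a3b2482c8f4ace8252604 (k8 c16643 c5444 c311 c16717 c5211 c5520 c5516 c5334 (k8 c5332 c5436 c5317 c5313 c9737 c5568 c5566 c5564 (k8 c5382 c11323 c12631 c11445 c11253 c9692 c5210 c5489 (k8 c5405 c5406 c5490 c16725 c5546 c5548 c5549 c5550 (k8 c5589 c5590 c5592 c12614 c316 c423 c2480 c1138 (k8 c2377 c2396 c3623 c1093 c12670 c13854 c891 c14209 (k1 c14796 k0))))))) (by decide +kernel)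
def c16727 : PP 9 3 T 0x40004000000000050000210000000000000000000000000000000000000000000000100000000000000000000000000020000404000000140006000000060 := rS 0x31cf66c6f8362881899bc1e3b05acc8f4a (k8 c5211 c5520 c2760 c5516 c5332 c9737 c5565 c5382 (k8 c5380 c5803 c5715 c4902 c3049 c15912 c9140 c5710 k0)) (by decide +kernel)
def c16728 : PP 9 3 T 0x52000201040000000000000000000004000200000000000000000000000000000000000000000000000000000000000000000000000000 := rS 0x31c1be0669afdaaa80c57e4792fb8589dff1acd96cf7fb49aad7589f84e2438228841056abd2e95d900452872d9bc1e390385c62371e9dcae5c1d82dea47a56753ea1648252604 (k8 c16643 c5444 c311 c5396 c5398 c5448 c16717 c5211 (k8 c5520 c5519 c5516 c5332 c11323 c5313 c785 c5436 (k8 c5435 c5434 c5433 c5432 c5317 c9737 c5565 c11445 (k8 c11253 c9692 c53 c5210 c5488 c5404 c5406 c5490 (k8 c16726 c826 c825 c719 c720 c2859 c15377 c1932 (k8 c1933 c2778 c15348 c2780 c6082 c1090 c2760 c5577 (k8 c8161 c2939 c4987 c16700 c1631 c16727 c5590 c5592 (k8 c15372 c14538 c1138 c2075 c5185 c316 c839 c15597 k0)))))))) (by decide +kernel)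
def c16729 : PP 9 3 T 0x52000201000000000000000000000004000200000000000000000000000000000000000000000000000000000000000000000000000000 := rS 0x1fcbf92d91700831 (k8 c5434 c16643 c11323 c5210 c16728 c5439 c5358 c15622 k0) (by decide +kernel)
def c16730 : PP 9 3 T 0x2000000000000018000210000000000000000000000004000000000000000000000000011100000004001400004000000000200000000000000000010220 := rS 0x984825d2aa937926946101a7cbcd53eb4ce889 (k8 c5567 c421 c1969 c5566 c1532 c312 c1522 c54 (k8 c1574 c5211 c5334 c5565 c5489 c5488 c5404 c15317 (k2 c8724 c15320 k0))) (by decide +kernel)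
def c16731 : PP 9 3 T 0x1000000000000010000211000000000000000000000004000000000000000000000000000100000000000000000000000400000000000000000000410200 := rS 0x42a0cd80d54eca22872da84de9f2f354fad33a1700889 (k8 c5567 c16643 c11323 c421 c1969 c5566 c1532 c312 (k8 c1522 c5565 c1121 c11445 c11253 c9728 c5210 c5489 (k4 c316 c5665 c8722 c15367 (k1 c5672 k0)))) (by decide +kernel)
def c16732 : PP 9 3 T 0x2000000000010000211000000000000000000000004000000000000000000000000000100000004000400000000000000000000000000000000410200 := rS 0x67a650a6af6a5dfa9554ec90e5b4eb459a61019d0b804 (k8 c16643 c11323 c421 c54 c1574 c5537 c5459 c5458 (k8 c11445 c11253 c5210 c5489 c5488 c5405 c5404 c16730 (k4 c16731 c2542 c2374 c1531 (k1 c13449 k0)))) (by decide +kernel)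
def c16733 : PP 9 3 T 0x2000000000010000211000000000000000000000004000000000000000000000000000000000000000400000000400000000000000000000000410200 := rS 0x35fb554c92f21cb604 (k8 c16643 c11445 c11253 c312 c1118 c16732 c5500 c1138 (k1 c16731 k0)) (by decide +kernel)
def c16734 : PP 9 3 T 0x4000000000051000210000000000000000100000000000000000000000000000000000040000000004000000004000400004000000140000000410160 := rS 0x1224b5909994a14c178f0b53603453118984cde8f078ec174a (k8 c5211 c5516 c5332 c9737 c5568 c5565 c5564 c5382 (k8 c9728 c9692 c316 c5665 c8714 c3568 c5710 c2428 (k4 c1121 c5680 c9148 c1760 (k2 c354 c2897 (k1 c12647 k0))))) (by decide +kernel)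
def c16735 : PP 9 3 T 0x4000000000050000201040000000000000000000004000200000000000000000000000000002004004000001000000000000000000000000000000100 := rS 0xce3a17992616526542977ea5553b231a04ee572e011369d66f833bb1 (k8 c16729 c16717 c5235 c5537 c5458 c8100 c16643 c11323 (k8 c5313 c785 c5380 c9754 c5210 c5489 c5488 c5405 (k8 c5404 c1199 c2613 c5680 c1755 c10162 c5663 c15353 (k2 c13449 c1531 k0)))) (by decide +kernel)
def c16736 : PP 9 3 T 0x50000201040000000000000000000004000200000000000000000000000000000004000000000000000000000000000000000000010000 := rS 0xcf4cb25acca699104a43f7ac1fe820610122e325c07e4b556a5d2aa914c76260f198fc76490591e949d70b35be857eec9668f8a9abc63d099f53e094d9dcb87b63f83639d1b85c0e392bd64086f (k8 c5565 c16643 c16686 c5313 c5317 c5432 c5433 c5435 (k8 c16717 c16729 c5235 c5535 c5457 c11323 c785 c8100 (k8 c16733 c15291 c5566 c5564 c5436 c12668 c16734 c1139 (k8 c5568 c2377 c5210 c5405 c2542 c5538 c5537 c5460 (k8 c5458 c5211 c5520 c5516 c5334 c5332 c5318 c5316 (k8 c9737 c5382 c12631 c9692 c5489 c5488 c5404 c5490 (k8 c16735 c16719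 c15060 c5546 c5549 c5589 c14209 c12614 (k8 c423 c2396 c14396 c5506 c1932 c1093 c5658 c15747 (k4 c15031 c459 c1325 c1760 (k2 c1770 c13449 k0)))))))))) (by decide +kernel)
def c16737 : PP 9 3 T 0x50000201040000000000000000000004000200000000000000000000000000000000000000000000000000000000000000000000010000 := rS 0xaa3578d3e093db1fc09b4396c267dac8e40e171b8f4ee572e0133bb1 (k8 c16729 c16717 c16643 c11323 c5313 c785 c5436 c5435 (k8 c5433 c5432 c5317 c16686 c5566 c5564 c11445 c11253 (k8 c8100 c5235 c5535 c5457 c16733 c15291 c12668 c16734 (k2 c16736 c1138 k0)))) (by decide +kernel)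
def c16738 : PP 9 3 T 0x50000201000000000000000000000004000200000000000000000000000000000000000000000000000000000000000000000000010000 := rS 0x1ee583499443508984ab4647cd371559aafc020351013fe3061fc125fc92b764292e21cb6044084cde7d4783eb257198e47e071e8ec920b23d2b3bb1 (k8 c16729 c16717 c5211 c5520 c5516 c5334 c5332 c5436 (k8 c5432 c5318 c5317 c5316 c5313 c16686 c9737 c5568 (k8 c5566 c5565 c5564 c5380 c16643 c11445 c11253 c11323 (k8 c9692 c5210 c5490 c16737 c5439 c5438 c5358 c15376 (k8 c12823 c15291 c12613 c316 c315 c15583 c1138 c2377 (k8 c1139 c2490 c11668 c15378 c16719 c5803 c5715 c1199 (k4 c5252 c350 c10123 c1324 (k2 c15747 c5506 k0)))))))) (by decide +kernel)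
def c16739 : PP 9 3 T 0x11000011040000000000000000000004000200000000000000000000000000000000000000000000000000400000000000000000020100 := rS 0x450daab80a090bed3ab453ac7307812aa90cc4446632c87764872dbdc1e571c81c6e3b05bd514707f908b8b3120108f4a (k8 c5211 c5520 c16643 c720 c2760 c11323 c826 c2780 (k8 c719 c825 c5519 c5516 c5332 c5435 c5432 c5317 (k8 c5313 c9737 c10793 c11445 c11253 c5210 c5486 c313 (k8 c9754 c9734 c9728 c9698 c5489 c5488 c5235 c5663 (k8 c5535 c5458 c5459 c1575 c15322 c5827 c5672 c3069 (k4 c1974 c2430 c15372 c3049 k0)))))) (by decide +kernel)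
def c16740 : PP 9 3 T 0x58000000000000000000000000000000000000000000004010000000000240000404000000000001104000204000000540000000020560 := rS 0x3d834d9f38a4050a9d689643a0f451c04e01 (k8 c53 c2859 c719 c825 c9737 c5486 c313 c2133 (k8 c1275 c5827 c3069 c15372 c5590 c3049 c5715 c743 (k1 c3568 k0))) (by decide +kernel)
def c16741 : PP 9 3 T 0x50000201000000000000000000000004000200000000000000000000000000000000000000000000000000000000000000000000000000 := rS 0x7a4e9b01acd419afdaaaefb20ea7f3cb1f245f04acd3ecb7fb55aeb1122288410d891dea0b1dd2b3a771e8dc6217038e4aead57a5d2bb214c44b8872d810de0f (k8 c9737 c5565 c16643 c11445 c11253 c11323 c9728 c9692 (k8 c5210 c5488 c5404 c5406 c5490 c5313 c5317 c5432 (k8 c5433 c5434 c5435 c5436 c785 c16717 c5211 c5332 (k8 c5516 c5519 c5520 c16729 c16738 c826 c825 c720 (k8 c1932 c1933 c2778 c2780 c1090 c2756 c2760 c16699 (k8 c16700 c16739 c5357 c5441 c5358 c5440 c15377 c5494 (k8 c16740 c5500 c1138 c1974 c8541 c316 c5665 c1276 (k2 c3568 c743 k0)))))))) (by decide +kernel)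
def c16742 : PP 9 3 T 0x100000000001a000220000000000000000100000000000100100000000040000000145000000004000000000000000000000000011500000000010420 := rS 0x81ac1aecbf10fdfff32511c934a1bfb5a0ad57a5d2b1309a3c1e9106a7d42c9 (k8 c5396 c5398 c5448 c5522 c5374 c9737 c5568 c5564 (k8 c5382 c5488 c5404 c5406 c5490 c15392 c5501 c1482 (k8 c5654 c5334 c5520 c12614 c5546 c2569 c407 c5655 (k4 c5464 c5465 c3618 c2201 (k1 c14602 k0))))) (by decide +kernel)
def c16743 : PP 9 3 T 0x1040000000000000100000004000100000000000000000000800400000004000000000000000000000009001000000000000000 := rS 0x1a29d80b88883e21f8e3a5c4dec19bde2095809ef (k8 c15107 c16643 c10195 c12628 c5214 c5495 c5209 c5397 (k8 c11323 c12631 c5465 c1934 c5655 c5658 c408 c3066 (k2 c1777 c1780 (k1 c14869 k0)))) (by decide +kernel)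
def c16744 : PP 9 3 T 0x41000000000000050000001040000000000000100000004000100000000000000000000000400000004000000000000000000000008001000000000000000 := rS 0x275a2b48145560d756abd2e95d927d429bd83559bde24d2966297fc74b804 (k8 c16643 c11323 c12631 c2569 c9692 c2455 c5231 c5334 (k8 c5214 c5495 c5454 c5209 c5397 c5398 c5448 c5210 (k8 c5488 c5404 c5406 c5490 c16743 c8161 c1294 c14602 (k4 c5685 c2201 c1342 c14869 k0)))) (by decide +kernel)
def c16745 : PP 9 3 T 0x80000000000000000000220000000000000000000000000000000000000000000000000000000000000000000000000000000000000400000000000014400 := rS 0x124971309a3d220d (k8 c5522 c5374 c5568 c5564 c5382 c5546 c5588 c12614 k0) (by decide +kernel)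
def c16746 : PP 9 3 T 0x50000221040000000000000000000004000000000000000000000000000000000004000000000000000000000000001000000000010000 := rS 0xd14ec55c4261f097c6caf6bfd664a24d2be6471c0a50e5b46c7626134783eb29106a6daad3208ec16cd7bb3c6a562e013c3de4cec253b2 (k8 c5210 c16741 c5209 c5447 c5214 c16230 c16643 c11323 (k8 c10195 c5450 c5453 c10793 c5495 c15526 c10737 c12628 (k8 c5496 c5454 c5397 c5522 c5374 c16686 c9737 c5568 (k8 c5564 c5382 c12631 c12629 c11445 c11253 c9692 c16742 (k8 c2477 c16745 c5231 c5334 c12614 c2455 c2569 c15441 (k8 c16744 c5464 c1091 c5655 c5651 c408 c3046 c1778 (k2 c15406 c14869 k0))))))) (by decide +kernel)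
def c16747 : PP 9 3 T 0x800000000040000000000000000000000000000000000000100000000000000000000000000050014050000000000000000000002000010000000000 := rS 0xb16b89196d5 (k4 c5454 c1490 c12427 c1492 (k2 c1093 c8161 k0)) (by decide +kernel)
def c16748 : PP 9 3 T 0x4000000000000040000000000000000000000100000004000000100000000000000000000000000208000000000000000000000009000000010000000000 := rS 0x16901131104a43 (k4 c1932 c1093 c5658 c5651 (k2 c3066 c354 (k1 c1345 k0))) (by decide +kernel)
def c16749 : PP 9 3 T 0x40000000000000040000001040000000000000100000004000100000000000000000000000400000008000000000000000000000009000000000000000000 := rS 0x86456b40d63ef56abd2e95d90a53ea164ec1aad3ef104aded7fc74b804 (k8 c16643 c11323 c12631 c2569 c5500 c10195 c12628 c5214 (k8 c5496 c5454 c5209 c5396 c5398 c5448 c9692 c5210 (k8 c5488 c5404 c5406 c5490 c15107 c16748 c2199 c3618 (k2 c9612 c1934 (k1 c5658 k0))))) (by decide +kernel)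
def c16750 : PP 9 3 T 0x40000000000000050000221040000000000000000000004000000000000000000000000000000000000000000000000000000000000000000000000010000 := rS 0xf7ac1682612b28944724d2a26134783eb2910690416cd7bb3c6a56550f5429fd877a531d2e0a408954babd5bb2 (k8 c5210 c5490 c5406 c5404 c5488 c16643 c9692 c11323 (k8 c12631 c16741 c5214 c5209 c5448 c5398 c16747 c16746 (k8 c10195 c5450 c5453 c10793 c5495 c15526 c12628 c5522 (k8 c5374 c16686 c9737 c5568 c5564 c5382 c5231 c5334 (k8 c5520 c12614 c16749 c1091 c5651 c354 c1344 c5506 (k1 c16748 k0)))))) (by decide +kernel)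
def c16751 : PP 9 3 T 0x50000221040000000000000000000004000000000000000000000000000000000000000000000000000000000000000000000000010000 := rS 0x1bfe2f00fc734b237c86e1f550f4163b20b359e354ca853e56ef6c15aaf4ba57642911c75ee5c0223c1f59949ed2279 (k8 c5524 c5374 c5372 c16741 c16686 c9737 c5568 c16643 (k8 c11323 c10793 c12631 c9734 c9692 c5210 c5488 c5404 (k8 c5406 c5490 c5209 c5214 c10195 c5448 c5398 c5447 (k8 c5450 c5453 c5495 c12628 c10737 c15526 c16747 c16746 (k8 c1085 c8484 c16750 c16745 c5520 c2477 c2914 c5654 (k2 c5655 c5538 (k1 c10517 k0))))))) (by decide +kernel)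
def c16752 : PP 9 3 T 0x80005000000000040000200080000000000000100040000000100100000051020000080000000001055000005000000000000000000401000010080005000 := rS 0x80251fac074ff59a3e2a49 (k8 c5588 c15434 c5568 c2321 c2341 c11955 c3623 c494 (k2 c1093 c5655 (k1 c13854 k0))) (by decide +kernel)
def c16753 : PP 9 3 T 0x80000000000a000000000000000000000000000000000000000000000040000000000000000004000000000000000000000000000080000400000000 := rS 0xd14eb253699 (k4 c5447 c5397 c5396 c1480 (k2 c1482 c15342 k0)) (by decide +kernel)
def c16754 : PP 9 3 T 0x400000000005a000220080000000000000100000004000100000000000000000000000000000004000000000000000000200000001000000000000820 := rS 0x1feb35891448401f8dc8c356f40e03155a887bdf2423d03c6ca5ab55efd5480452238ebdd03133e83d220d639ffc293 (k8 c5444 c12084 c5358 c5357 c5522 c5374 c9737 c5566 (k8 c5382 c5380 c10793 c12631 c9734 c9692 c53 c5489 (k8 c5405 c5406 c5490 c5516 c717 c718 c824 c823 (k8 c12428 c15430 c2417 c2610 c15434 c15283 c2629 c14109 (k8 c5450 c16752 c16753 c2914 c5655 c13854 c458 c1093 (k2 c2761 c2342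 (k1 c14396 k0))))))) (by decide +kernel)
def c16755 : PP 9 3 T 0x40000000000000052000220080000000000000000000000000000000000000000000000000400000400000000000000000000000000000000000000000000 := rS 0x274dab48a9c2269135a6cc299 (k8 c5447 c5445 c5397 c5523 c5374 c5382 c12830 c3048 (k4 c5685 c2610 c1342 c10443 k0)) (by decide +kernel)
def c16756 : PP 9 3 T 0x40000000000000050000000000000000000000100000000000000000000000000000000000800001000010000000000000000000008000200010000000000 := rS 0x80df124504eb3 (k4 c2455 c354 c5685 c5651 (k2 c2950 c1091 (k1 c547 k0))) (by decide +kernel)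
def c16757 : PP 9 3 T 0x52000220080000000000000100000000000000000000000000000000000000000000000000000000000000000000401000000000010520 := rS 0x718f93841368962ab4652cc9438248ec3f4af98a50313099f51e0f3da441a6b3f95d26a14da640e61 (k8 c5445 c713 c5447 c5397 c5398 c5444 c5353 c5358 (k8 c5523 c5522 c5374 c5372 c9737 c5568 c5566 c5564 (k8 c5382 c5380 c9692 c16745 c5231 c12431 c5332 c5334 (k8 c11968 c12614 c2455 c16755 c16756 c204 c13705 c2610 (k4 c13854 c10443 c12613 c1778 (k1 c408 k0)))))) (by decide +kernel)
def c16758 : PP 9 3 T 0x52000220080000000000000000000000000000000000000000000000000000000000000000000000020000000000801000000000010520 := rS 0x4e0d8da3e0f10442251488d0313099f51e0f48834d67f2ba4d369903986964b (k8 c191 c5520 c5445 c713 c5447 c5397 c5444 c5353 (k8 c5358 c5523 c5522 c5374 c9737 c5568 c5566 c5564 (k8 c5382 c5380 c9734 c9692 c2754 c12657 c13854 c5650 (k4 c12613 c2315 c2914 c10443 (k1 c1480 k0))))) (by decide +kernel)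
def c16759 : PP 9 3 T 0x12000000000000000000000000000000000000000000000000000000000040000000000000000005000400400000000080000000000420 := rS 0x36a743d111198d3699 (k8 c5447 c5397 c9754 c9734 c9728 c8484 c1480 c2315 (k1 c10556 k0)) (by decide +kernel)
def c16760 : PP 9 3 T 0x5a000220080000000000000100000004000100000000000000000000000000000004000000000000000000200000001000000000010020 := rS 0x599b4481e200847e3a1b9c7e4395ad2c8c0bf18a4e623099bcfa0f049ec1a6b3c97d8e7f2ba4c0e61 (k8 c5445 c713 c5444 c5353 c5358 c5357 c5439 c5524 (k8 c5523 c5522 c5372 c16665 c9737 c5566 c5565 c5564 (k8 c9734 c9718 c9692 c15669 c16754 c16757 c5520 c2346 (k8 c2477 c5231 c16758 c16759 c3568 c2914 c340 c5655 (k4 c5650 c13854 c2315 c2761 (k1 c16289 k0)))))) (by decide +kernel)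
def c16761 : PP 9 3 T 0x42000200080000000000000000000000000000000000000000000000000000000000000000000000000000000000002000010000010000 := rS 0x38091969f (k4 c5448 c1490 c12427 c12830 (k1 c2754 k0)) (by decide +kernel)
def c16762 : PP 9 3 T 0x5a000220080000000000000100000004000100000000000000000000000000000000000000000000000000200000000000000000010020 := rS 0x74201cd2c8c0b0faa87a9930a4c52237b824f60d (k8 c5522 c5372 c16665 c10793 c9734 c9692 c5444 c5445 (k8 c5447 c16761 c16760 c1085 c718 c16757 c5520 c2477 (k2 c5650 c11968 (k1 c340 k0)))) (by decide +kernel)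
def c16763 : PP 9 3 T 0x1001000000000000000000000000000000000000000000000000000000000010000000004000000000000000000004000000200000000000000000000080 := rS 0x3358830 (k4 c822 c821 c1916 c10805 k0) (by decide +kernel)
def c16764 : PP 9 3 T 0x50000221000000000000000000000004000000000000000000000000000000000000000000000000000000000000000000000000010000 := rS 0x380904e6d4905d34991e01fda9d7facc94cf23bd416490f8edc1f3718de95e2d8f84ae7f63e48f20d489ef64290ca1cb68d8e9710313099f51e0fac8265204 (k8 c16643 c16741 c16665 c16686 c9737 c5568 c5566 c5564 (k8 c5382 c5380 c11323 c12631 c12629 c11445 c11253 c9698 (k8 c9692 c5210 c5372 c5374 c5522 c5524 c16751 c5357 (k8 c5358 c5353 c12084 c16762 c5226 c5225 c6642 c5466 (k8 c8118 c14235 c5332 c5517 c5334 c5516 c5519 c5520 (k8 c15657 c12614 c2455 c2569 c12447 c15441 c16763 c15669 (k8 c15599 c5679 c10952 c6036 c2492 c2861 c1570 c16445 (k1 c2754 k0)))))))) (by decide +kernel)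
def c16765 : PP 9 3 T 0x40000000000000058000210040000000000000000000000000100001000000000000000005000000004000000000000000000040000000000000000011020 := rS 0x48c4626134781d93b0 (k8 c5209 c5396 c8467 c5568 c5564 c5382 c9728 c15424 (k1 c15459 k0)) (by decide +kernel)
def c16766 : PP 9 3 T 0x40000000000000000000000100000000000100002000000000000000140100000054014050000000000000000001011000010000000000 := rS 0x35bc4cb1f8916227 (k8 c3046 c1294 c5651 c2909 c1091 c5655 c3618 c5465 k0) (by decide +kernel)
def c16767 : PP 9 3 T 0x58000210040000000000000100000000000100000000000000000000145000000004000000000000000000040000001000000000011020 := rS 0x257c9231556abd2e9514c4626134783c920ba501d3ea164ec08256 (k8 c10195 c12628 c5209 c5396 c5398 c5448 c8467 c5211 (k8 c5516 c5334 c9737 c5568 c5564 c5382 c9728 c9692 (k8 c5488 c5404 c5406 c5490 c16766 c15424 c16765 c12647 (k1 c5546 k0)))) (by decide +kernel)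
def c16768 : PP 9 3 T 0x40000000000000040000001040000000000000100000004000100000000000000000000000000001008000000000000000000000009000000000000000000 := rS 0x944eca14904ac04 (k8 c16643 c10195 c12628 c9692 c16749 c354 c1091 c5651 k0) (by decide +kernel)
def c16769 : PP 9 3 T 0x1000800000000012000011040000000000000000000004000000000400000000000000000000000000000002002004000400000000000000000000000000 := rS 0xb18078229b2364440903 (k8 c2629 c16643 c9728 c5665 c5210 c747 c16724 c850 (k2 c1295 c16667 k0)) (by decide +kernel)
def c16770 : PP 9 3 T 0x50000201040000000000000000000004000000000000000000000000000000000000000000000000000000000000000000000000010000 := rS 0x7cc9491422d5066bf6aa81a3d3db4d9ad567a853e56ef6c15aaf4ba57642988a1cb71d2e01226134783eb3292482e959d (k8 c16764 c5211 c5516 c5334 c16741 c16686 c9737 c5568 (k8 c5564 c5382 c16643 c11323 c12631 c11445 c11253 c9728 (k8 c9692 c5210 c5488 c5404 c5406 c5490 c5209 c5214 (k8 c10195 c5448 c5398 c5453 c5454 c5495 c5496 c886 (k8 c16747 c16677 c16767 c5500 c1138 c1974 c8714 c5672 (k4 c16769 c12647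 c5546 c16768 k0)))))) (by decide +kernel)
def c16771 : PP 9 3 T 0x40000000000000052000210080000000000000100000000000000000000000000000000000000000000000001000000000000000000000000000000011020 := rS 0x1c8fd94243889d6b142544c268f079241637a51e4aea11e8a40e61 (k8 c5445 c713 c9692 c16761 c5398 c5353 c5441 c5211 (k8 c5518 c5516 c5334 c9737 c5568 c5564 c5382 c12647 (k8 c15459 c204 c3046 c3048 c5651 c12830 c2909 c16756 (k1 c16718 k0)))) (by decide +kernel)
def c16772 : PP 9 3 T 0x40000000000000052000210080000000000000100000000000000000000000000000000000000000000000000000004000000000000000000000000011120 := rS 0x350816826128f8824a1c445020f1d82c6f4a50f8c7a29099f40e612bb7d207f (k8 c5358 c16771 c2948 c5353 c5445 c713 c5566 c5564 (k8 c9692 c16761 c15669 c5398 c5211 c5518 c5516 c5332 (k8 c9737 c5380 c9728 c11223 c15503 c547 c12613 c2909 (k4 c5651 c354 c353 c8714 (k1 c2371 k0))))) (by decide +kernel)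
def c16773 : PP 9 3 T 0x4000000000000000000000000000000000100080000000100000000000000000200000000000000000000000000000000000000001000000000000000 := rS 0x208fc7649 (k4 c5334 c5332 c3056 c1714 (k1 c5655 k0)) (by decide +kernel)
def c16774 : PP 9 3 T 0x40000000000000052000210080000000000000100000000000000000000000000000100000000000000000000000000000000000000000000000000011120 := rS 0xdf3d24103e31e8a4fe133e81cc257 (k8 c5353 c5445 c713 c5566 c5564 c5358 c9692 c16761 (k4 c15669 c5380 c16771 c16772 (k2 c2948 c15912 k0))) (by decide +kernel)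
def c16775 : PP 9 3 T 0x52000210080000000000000100000000000000000000000000000100000000000000000000000000000000000000000000000000011120 := rS 0x9125fca26134783c174a (k8 c5211 c5516 c9737 c5568 c5564 c5382 c16774 c5546 (k2 c5589 c12647 k0)) (by decide +kernel)
def c16776 : PP 9 3 T 0x52000201000000000000000000000004000000000000000000000000000000000004000000000000000000000000000000000000010000 := rS 0x90f70d3becc4ba55526440c4d269f64a6d32b347c54de9d3517fdaf267a14b21dd921cb67980a25a28206387c67f099f40e612b8f4534ace82653592e010eb92 (k8 c16770 c5440 c16643 c11323 c16686 c16741 c16665 c16764 (k8 c5211 c9692 c16761 c5353 c5445 c713 c5566 c5564 (k8 c5358 c15669 c16773 c16775 c423 c1975 c5567 c1977 (k8 c5441 c11445 c11253 c5210 c5486 c313 c2541 c11551 (k8 c422 c5540 c5439 c316 c1135 c5565 c1139 c5568 (k8 c2377 c5447 c5397 c5396 c5448 c5444 c5382 c5380 (k8 c15726 c5489 c5488 c5404 c8934 c15342 c2501 c5166 (k2 c15457 c12474 k0)))))))) (by decide +kernel)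
def c16777 : PP 9 3 T 0x52000201000000000000000000000004000000000000000000000000000000000000000000000000000000000000000000000000010000 := rS 0x1546a06387c6071e98452872d84cfb5904ca4094ace9fcaf92 (k8 c16770 c5353 c5358 c16764 c5211 c16643 c16741 c16665 (k8 c16686 c5566 c5564 c11445 c11253 c9692 c5445 c16761 (k4 c713 c15669 c16773 c16775 (k2 c316 c16776 (k1 c1138 k0))))) (by decide +kernel)
def c16778 : PP 9 3 T 0x40000000000000050000210000000000000000000000000000000001000011000000000005100000001000550000000000002040000000000000000011020 := rS 0x2ad3ab436acda29088c4c268f (k8 c5568 c5564 c5382 c9728 c15459 c9793 c2897 c747 (k4 c5685 c1697 c1345 c3617 k0)) (by decide +kernel)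
def c16779 : PP 9 3 T 0x80000000000000000000210000000000000000000000000000000000000000000000000000000000000000000000000000000000000000000000000015420 := rS 0x9125c4c268f (k4 c5568 c5564 c5382 c5546 (k2 c5589 c12647 k0)) (by decide +kernel)
def c16780 : PP 9 3 T 0x8000000000050000210000000000000000100000004000000000000001000000000000000000051000050000040000000244000001000000000011120 := rS 0x8ac044c441290fdeb04fa6536d566b3d9216300c00c290cc74267d0f9246ef565b5d42d3f982e940f (k8 c9737 c5211 c5516 c16779 c5579 c5578 c5465 c5464 (k8 c5519 c5518 c5334 c9664 c5566 c5564 c12631 c9698 (k8 c9692 c15669 c822 c713 c714 c1915 c1473 c1916 (k8 c1475 c1066 c1463 c1465 c3618 c5506 c1932 c1093 (k4 c5658 c5651 c3066 c3046 (k1 c16778 k0)))))) (by decide +kernel)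
def c16781 : PP 9 3 T 0x40008000000000051000200080000000000000000000000000100000000000000000000000000000400000401000000002000000000000440000000001460 := rS 0x1387bf0a64320f04b1cf257 (k8 c5353 c5441 c5357 c16665 c9737 c9698 c15599 c15597 (k2 c15477 c5679 (k1 c12447 k0))) (by decide +kernel)
def c16782 : PP 9 3 T 0x51000210080000000000000100000000000100000000000000000000000000000050000051000000000000200000000000000000011020 := rS 0x279aa1618019624536091366b13ace284a14866231d8984cde8f1d9246ecb6b8fd43e2f982e940f (k8 c9737 c5211 c5516 c16779 c5226 c5578 c5576 c5465 (k8 c5464 c5518 c5334 c5332 c5568 c5565 c5564 c5382 (k8 c12631 c9728 c9698 c9692 c12647 c15459 c2455 c3046 (k8 c1139 c1191 c5651 c5665 c2968 c1093 c16781 c822 (k4 c714 c1476 c8160 c1466 k0))))) (by decide +kernel)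
def c16783 : PP 9 3 T 0x50000010000000000000000100000000000000002000000000000000000000000000000002000000004000000000000000000000010020 := rS 0x7136090d62714c44934a (k8 c5211 c5334 c9728 c9692 c3046 c1139 c5651 c5665 (k2 c2754 c746 k0)) (by decide +kernel)
def c16784 : PP 9 3 T 0x11000000000000000000000000000000000000000000000000000000000040000000001400000001000000004000000440000000001560 := rS 0x785320f (k4 c9737 c15599 c15597 c5679 k0) (by decide +kernel)
def c16785 : PP 9 3 T 0x50000201000000000000000000000004000000000000000000000000000000000000000000000000000000000000000000000000011000 := rS 0x1e167a6556854db253a6a49ad0da258aacda2901e7cd5aaf4bbf52aa9d906622872d9bc1e0905d2b3a793f8ccaf922e01196e3f16c6b329 (k8 c16741 c16686 c16777 c5226 c5466 c5464 c16643 c11323 (k8 c16770 c5353 c383 c5358 c5441 c16764 c5211 c5516 (k8 c16665 c9737 c5565 c11445 c11253 c9728 c9698 c5210 (k8 c5489 c5488 c5405 c5404 c5406 c5490 c16779 c16780 (k8 c16782 c9793 c2897 c16783 c5803 c747 c5685 c1570 (k8 c5665 c1342 c10198 c9848 c2542 c1138 c5802 c11551 (k2 c8772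 c5679 k0))))))) (by decide +kernel)
def c16786 : PP 9 3 T 0x40008000000000051000210000000000000000000000000000100001000000000000000000000000000000001000041000000404000000000000000010020 := rS 0x7bf020626133ea3c12df (k8 c5580 c16665 c5568 c5566 c5564 c5382 c5380 c15460 (k2 c5457 c10517 k0)) (by decide +kernel)
def c16787 : PP 9 3 T 0x10000000000000000000100000000000000000000000000000000000000000100000000040000000050011500050001000202000000000000000400000a0 := rS 0x136cd648586019 (k4 c9698 c822 c714 c1915 (k2 c1916 c1066 (k1 c8934 k0))) (by decide +kernel)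
def c16788 : PP 9 3 T 0x11000000000000000000000000000000000000000000001000000000014000000005000150000000000000400000000004000040802020 := rS 0x781929b (k4 c1066 c1065 c10916 c8772 k0) (by decide +kernel)
def c16789 : PP 9 3 T 0x50000201000000000000000000000004000000000000000000000000000000000000000000000000000000000000000000000000010000 := rS 0xb1f90904e171e01da3017fb3fda994ec5566ab41215e46a0678b62333a95cfe792fe49ea1fa56752efd4aaa4c8292c87764872dc74b813379f5128fac8265204 (k8 c16643 c16741 c16665 c16686 c5568 c5567 c5566 c5565 (k8 c5564 c11323 c12631 c11445 c11253 c5210 c5486 c313 (k8 c9692 c15726 c5489 c5488 c5405 c5404 c16764 c5211 (k8 c9664 c5519 c16770 c5439 c5441 c5358 c5353 c5440 (k8 c383 c16777 c5226 c16785 c316 c422 c2541 c423 (k8 c1138 c2377 c1139 c1135 c2373 c5540 c11551 c2396 (k8 c1977 c1975 c16787 c15669 c16788 c2861 c5651 c5715 (k2 c1093 c14396 k0)))))))) (by decide +kernel)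
def c16790 : PP 9 3 T 0x1040000000000000000000004000100000000000000000000000000000000000000000000000000000000000000000000020000 := rS 0x4050a7cadded86c8b804 (k8 c16643 c11323 c5210 c5209 c5214 c10195 c5448 c5398 (k2 c15417 c12628 k0)) (by decide +kernel)
def c16791 : PP 9 3 T 0x40000000000000050000000000000000000000000000000000000001000000000000000000000000000000000000000000000000000000000002000000000 := rS 0x164b5 (k2 c13705 c5685 (k1 c5926 k0)) (by decide +kernel)
def c16792 : PP 9 3 T 0x1000000000058000000000000000000000000040000000100000000000040000000000000000000000005000000000000200000000150000000020020 := rS 0x2a83cf3108e8464bf9454e024 (k8 c720 c719 c3048 c16791 c5546 c9734 c5654 c340 (k4 c448 c5650 c15281 c1085 k0)) (by decide +kernel)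
def c16793 : PP 9 3 T 0x180000000005a000000080000000000000000000000000100000000000040000000000000000000000001000004000000200000000040000000021020 := rS 0x1f1dd2872404c9853e93509fc97f28a9c04835 (k8 c5450 c720 c719 c3048 c16791 c5546 c5358 c2929 (k8 c5444 c5448 c5445 c5447 c15417 c546 c16792 c5332 (k2 c5517 c11968 k0))) (by decide +kernel)
def c16794 : PP 9 3 T 0x58000220080000000000000100000004000100000000000000000000000000000000000000000000000000200000000000000000020020 := rS 0xd88dfbcdef1fcbc31506a44f6f740c4cfbef1fa2884e3121c18e7f (k8 c5358 c5357 c719 c720 c5731 c826 c825 c4871 (k8 c5583 c5566 c5382 c5380 c10793 c5372 c5374 c5522 (k8 c3048 c12084 c16791 c8118 c14109 c5166 c2332 c16793 (k1 c5226 k0)))) (by decide +kernel)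
def c16795 : PP 9 3 T 0x40000000000000052000201000000000000000000000004000000000000000000000000000000000000000000000000000000000000000000000000001000 := rS 0x1ab5070d13da40d91435c450e5b5890852e3382d5a67f452cc8e24f0b1c123b1b95cf2073082e959dc904253592e013640f (k8 c9737 c5210 c16643 c11323 c16686 c16741 c16789 c16790 (k8 c16794 c5211 c5516 c5445 c713 c5441 c5353 c5518 (k8 c5332 c16665 c5357 c15597 c720 c5520 c2760 c825 (k8 c5358 c2938 c13705 c719 c5731 c9692 c826 c1932 (k8 c11445 c11253 c9728 c16719 c5803 c5665 c3048 c742 (k4 c9793 c3568 c15385 c15579 (k1 c2779 k0))))))) (by decide +kernel)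
def c16796 : PP 9 3 T 0x52000201000000000000000000000004000000000000000000000000000000000000000000000000000000000000000000000000001000 := rS 0xeff8cf6de361ad550170c5523f2f0c450e5b7ba06266f3e83c12b114fbd14e33831cfe573c8ec16377f9096647a56772529ac97364240801cc204 (k8 c16643 c5445 c713 c16789 c720 c5210 c11323 c16686 (k8 c16741 c16790 c16794 c5211 c5520 c2760 c826 c2780 (k8 c5518 c5516 c5332 c5441 c5353 c5358 c5357 c719 (k8 c5731 c825 c5583 c9692 c1932 c16665 c9737 c5566 (k8 c5565 c5382 c5380 c10793 c11445 c11253 c9728 c15597 (k8 c16795 c5589 c5590 c5591 c5592 c14396 c1138 c5665 (k4 c14941 c742 c5580 c16793 (k1 c5166 k0)))))))) (by decide +kernel)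
def c16797 : PP 9 3 T 0x48000000000000000000000000000000000000000000004000000000000000000500000000084000004000000000000000004000002020 := rS 0x80c5557f2429a8b21d (k8 c5486 c313 c316 c2541 c5715 c1138 c1139 c3069 (k1 c14396 k0)) (by decide +kernel)
def c16798 : PP 9 3 T 0x50000201000000000000000000000004000000000000000000000000000000000000000000000000000000000000000000000000000000 := rS 0xaa809aa2a6d4d2740e926bb2fc5b106acdfe477a8dc163ba51e73a3350b4cae7f63e496ab113890e08a210401329acab7640114866225c4396c086f (k8 c5565 c16643 c11445 c11253 c11323 c9728 c9698 c9692 (k8 c53 c5210 c5490 c16686 c16741 c16665 c16789 c826 (k8 c825 c719 c720 c2859 c1932 c13705 c16790 c5357 (k8 c5358 c5353 c2938 c2929 c383 c16794 c5441 c5211 (k8 c5332 c5516 c5518 c5519 c5520 c2780 c2760 c16797 (k8 c16796 c5226 c5464 c5465 c15478 c1564 c1694 c16784 (k4 c2492 c1191 c5665 c15060 (k2 c15372 c1138 k0)))))))) (by decide +kernel)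
def c16799 : PP 9 3 T 0x40000000000000012000221000000000000000000000004000200002000000000000000000000000000000000000000000000000000000000000000000000 := rS 0x3c2cd68b19e4d71dbd7dccfef883da0b0faa764237ba7d4393659ec1a791c8de960fac8a432d51e9dd9264039863a5c1f825261138ed80857 (k8 c5313 c16643 c16798 c5571 c719 c5444 c311 c5318 (k8 c11323 c12631 c5445 c713 c15726 c5396 c2053 c5436 (k8 c15288 c9698 c9692 c14052 c9737 c16695 c5435 c5317 (k8 c5524 c5522 c5372 c5420 c12830 c5398 c5572 c10793 (k8 c9734 c5210 c5489 c15434 c718 c15252 c5650 c15273 (k8 c16693 c5171 c2420 c340 c5507 c5657 c3568 c6604 (k2 c2500 c5535 (k1 c5688 k0)))))))) (by decide +kernel)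
def c16800 : PP 9 3 T 0x82000000000000000000000000000000000000000400001000000100100000000045000050000000000000200000000041000000400820 := rS 0x1aeff80f85990367b453a847a0793eb150b253699 (k8 c5447 c5397 c5396 c5398 c5421 c5572 c718 c824 (k8 c823 c1082 c1925 c2339 c2629 c3617 c8772 c2078 (k2 c2507 c2191 (k1 c8633 k0)))) (by decide +kernel)
def c16801 : PP 9 3 T 0x40004000000000092000220000000000000000000040000000000000000001000000100100000000045000050000000002000204000000141000000400020 := rS 0xc66f8ec94491007c16238983c4e11388252607309ec1a79 (k8 c5524 c5522 c5372 c5445 c713 c5444 c311 c5571 (k8 c719 c5570 c9737 c5382 c9734 c16800 c2315 c5650 (k4 c344 c15398 c340 c2510 (k2 c3568 c9140 k0)))) (by decide +kernel)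
def c16802 : PP 9 3 T 0x12000201000000000000000000040004000200000000000000000200000000000000000001000000000000000000000000000000000000 := rS 0x8bef2192874d320314fe5e4bec902133ea8726cbac8a432d51e9dd9264039863a5c1f825261138ed80857 (k8 c5313 c16643 c16798 c5571 c719 c5444 c311 c5318 (k8 c11323 c12631 c5445 c713 c15726 c5396 c2053 c5436 (k8 c15288 c9698 c9692 c14052 c5420 c12830 c5398 c5566 (k8 c5564 c5380 c5210 c5404 c13896 c3058 c1629 c12613 (k4 c8433 c1714 c1715 c15348 (k2 c11200 c3736 (k1 c5658 k0))))))) (by decide +kernel)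
def c16803 : PP 9 3 T 0x40000000000000012000221000000000000000000000004000200000000000000000000000000000000000000000000000000000000000000000000000000 := rS 0x319be3b25124400b0faa8d91557a5dfa9554ec8e71111bde266f47acc4eb53d834d6791c85c6237f184cfad51e9dd9264039863a5c1f95dc34b04a4c2271db0101e91 (k8 c5374 c9737 c16643 c16798 c5571 c719 c5444 c311 (k8 c16695 c16802 c5313 c5318 c11323 c12631 c5445 c713 (k8 c15726 c5396 c2053 c5436 c15288 c5566 c5564 c12668 (k8 c5435 c5434 c5433 c5317 c5524 c5523 c5522 c5372 (k8 c5422 c5570 c5574 c5568 c5565 c5382 c10793 c9734 (k8 c9728 c9718 c5210 c5489 c5488 c5405 c5404 c5406 (k8 c16799 c3604 c16801 c1085 c718 c5650 c344 c15398 (k4 c340 c2510 c3568 c9140 k0)))))))) (by decide +kernel)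
def c16804 : PP 9 3 T 0x90000220000000000000000000040000000000000000000000000000000000000000000000000000002000000004000000000400010400 := rS 0x1087e26134783d220d (k8 c5522 c5374 c9737 c5568 c5564 c5382 c2315 c12651 (k1 c5650 k0)) (by decide +kernel)
def c16805 : PP 9 3 T 0x12000221000000000000000000000004000200000000000000000000000000000000000000000000000000000000000000000000000000 := rS 0x55078146c25fc9c2d5a58f46e310b8fcaeaf4bbf52aa9d91cc471d7b972266f07acd6a1138ed812933bb24c80730811226b (k8 c5523 c5374 c16643 c5445 c713 c15726 c5396 c2053 (k8 c5444 c311 c16798 c5571 c719 c5422 c5574 c9737 (k8 c5565 c5382 c11323 c10793 c12631 c9734 c9718 c5210 (k8 c5489 c5488 c5405 c5404 c5406 c5313 c5318 c5433 (k8 c5434 c5435 c5436 c16695 c15288 c16802 c16803 c5546 (k4 c16289 c16804 c718 c16800 (k1 c1085 k0))))))) (by decide +kernel)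
def c16806 : PP 9 3 T 0x45000000000000090000220000000000000000000040004000000000100000000000000000000000000000000000000040000000000000000000400010400 := rS 0x228483691c97588984cde8f079c566275aa441a6b (k8 c5523 c5522 c5374 c5422 c5570 c5574 c5571 c9737 (k8 c5568 c5565 c5564 c5382 c5171 c5342 c5562 c16804 (k2 c12876 c3604 (k1 c13085 k0)))) (by decide +kernel)
def c16807 : PP 9 3 T 0x40000000000000010000221040000000000000000000004000100000000000000000000800000000000000000000000000000000000000000000000000400 := rS 0x101553fc884aac91c921fa51ce22238984d1e0f58844e29106fb7decbdb0f63a5c21904ac04 (k8 c16643 c10195 c12628 c1934 c11323 c12631 c1492 c16798 (k8 c5420 c15107 c16054 c5522 c5374 c5571 c719 c5421 (k8 c9737 c5568 c5564 c5382 c9734 c9728 c9718 c16806 (k8 c5517 c5334 c5520 c12110 c12645 c5658 c2569 c16743 (k2 c3066 c6368 k0))))) (by decide +kernel)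
def c16808 : PP 9 3 T 0x12000221000000000000000000000004000000000000000000000000000000000000000000000000000000000000000000000000000000 := rS 0x14a231b097f205b599acf1a95bbd2935ab55e95d91cc46f72e1bc1eb35a84408a1c9b2ce3b6 (k8 c16798 c5571 c5420 c12830 c5398 c16643 c719 c5422 (k8 c5574 c9737 c5565 c11323 c10793 c9734 c9718 c5210 (k8 c5488 c5406 c5490 c5523 c16805 c5214 c10195 c5450 (k8 c5453 c5495 c9031 c15526 c16807 c5546 c16289 c16745 (k2 c16804 c5520 k0))))) (by decide +kernel)
def c16809 : PP 9 3 T 0x40000000000000000000200000000000000000000000000000200000000000000000040000000000000000101000000002001000000000440000000015540 := rS 0x1f9c7e120b18f67940c4c267d2b8e47e3d (k8 c5436 c5318 c5317 c5313 c5566 c5564 c5382 c5380 (k8 c2428 c742 c3568 c9151 c5535 c2619 c12613 c10493 k0)) (by decide +kernel)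
def c16810 : PP 9 3 T 0x12000201000000000000000000000004000200000000000000000000000000000000000000000000000800000000000000000000001000 := rS 0x1545ef0a70421911a1cb6c94ce4d9671db0252604a56747217 (k8 c5433 c5317 c16808 c5211 c16643 c5444 c311 c16798 (k8 c5571 c5420 c12830 c5447 c5396 c11445 c11253 c9734 (k4 c9698 c2371 c15623 c5458 (k2 c1135 c15358 (k1 c1138 k0))))) (by decide +kernel)
def c16811 : PP 9 3 T 0x40000000000000012000201000000000000000000000004000200000000000000000000000000000000000000000000000000000000000000000000001000 := rS 0x4a6f244d86b88c4c268f07844e3b64c825260730810760b1bd2b3a39 (k8 c5317 c16808 c5211 c5518 c5516 c5332 c16643 c5445 (k8 c713 c5444 c311 c5447 c16798 c5571 c719 c9737 (k8 c5568 c5564 c5382 c9728 c16810 c5665 c746 c16809 (k2 c12647 c2510 k0)))) (by decide +kernel)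
def c16812 : PP 9 3 T 0x82000201000000000000000000000004000200000000000000000000000000000000000000000000000000000000000000000000002000 := rS 0xe83462901ac256991205017fb362aab413c8d4ad57a5dfa9554ec832872da04de8947acd3eb150e4d96396a8f4eec93201cc31d2e0fc1293089c40857 (k8 c5313 c16643 c5571 c719 c5444 c311 c5318 c11323 (k8 c12631 c5445 c713 c15726 c5396 c2053 c5436 c15288 (k8 c5317 c5420 c12830 c5398 c5421 c5572 c5574 c5568 (k8 c5567 c5565 c5380 c11445 c11253 c9698 c5210 c5489 (k8 c5488 c5405 c5404 c5406 c5490 c316 c422 c423 (k8 c1138 c1139 c2500 c2396 c1977 c8604 c2628 c2087 (k4 c2968 c10481 c13340 c1765 (k2 c458 c16091 (k1 c1526 k0))))))))) (by decide +kernel)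
def c16813 : PP 9 3 T 0x12000201000000000000000000000004000200000000000000000000000000000000000000000000000000000000000000000000000000 := rS 0x3e60d07844e3b60202e959d (k8 c16808 c5211 c5516 c16643 c16798 c5571 c719 c9737 (k2 c16812 c16779 (k1 c16811 k0))) (by decide +kernel)
def c16814 : PP 9 3 T 0x40000000000000080000001040000000000000100000004000100000000000000000000800000000000000000000000000000000009000000000000000000 := rS 0x154ff588f6024421904adef65c74b804 (k8 c16643 c11323 c12631 c5420 c15107 c10195 c12628 c1934 (k4 c5658 c3066 c1492 c5421 (k2 c2569 c16743 (k1 c6368 k0)))) (by decide +kernel)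
def c16815 : PP 9 3 T 0x12000201000000000000000000000004000000000000000000000000000000000000000000000000000000000000000000000000000000 := rS 0x551b5fed14812e0244f990c1a7b20b599acfacfbcadde9482c934ace81f266164a855aaf4bbf52aa9d94450e5b8e97226134783d96b1089c76c04 (k8 c16643 c16798 c5571 c719 c5421 c5420 c9737 c5568 (k8 c5564 c5382 c11323 c12631 c11445 c11253 c9728 c5210 (k8 c5489 c5488 c5405 c5404 c5406 c5490 c5398 c5396 (k8 c5445 c12830 c713 c16808 c5211 c5334 c5516 c16813 (k8 c5214 c10195 c15107 c16682 c5453 c5495 c9031 c12628 (k8 c886 c16677 c1934 c16779 c5658 c3066 c16814 c12647 (k4 c9793 c3009 c746 c9860 (k1 c6368 k0)))))))) (by decide +kernel)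
def c16816 : PP 9 3 T 0x88000000000000000000000200000000000000001000040020000000000000000004000000000000000000000000000000000000000000 := rS 0xff8091c86af7eaa566b1 (k8 c5421 c5574 c5489 c5405 c5406 c5561 c5562 c1927 (k2 c2341 c8604 k0)) (by decide +kernel)
def c16817 : PP 9 3 T 0x40000000000000099000220000000000000000000000004000200000000000000000000000000000000000000000000000000200000000000000000000820 := rS 0x7f20b8fc2486fc01ffeeac824eb03f6b3da29d4caae2a847a078d94b56abdfaa931bdd0313099f566b15a844e2914195c7e070b8c46e3d (k8 c5436 c5435 c5434 c5433 c5432 c5318 c5313 c5525 (k8 c5374 c5571 c719 c5422 c5421 c5574 c5566 c5564 (k8 c5382 c5380 c10793 c9754 c5489 c5405 c5406 c5490 (k8 c5516 c717 c718 c824 c823 c15434 c1085 c2317 (k8 c1082 c1925 c2339 c5541 c2629 c15294 c421 c16816 (k8 c5171 c5586 c3623 c2953 c1928 c10680 c6448 c512 (k2 c10493 c12613 k0))))))) (by decide +kernel)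
def c16818 : PP 9 3 T 0x90000220000000000000000200040000000000000000000000000000000000000000000000000000000000000000000000000000000420 := rS 0x115369208e4b39c444713099bd1e0f5989d6a1138a441a6b (k8 c5523 c5522 c5374 c5571 c719 c5422 c5570 c5574 (k8 c9737 c5568 c5565 c5564 c5382 c9734 c9728 c9718 (k4 c5342 c5562 c12614 c16804 (k2 c13085 c3604 k0)))) (by decide +kernel)
def c16819 : PP 9 3 T 0x40000000000000099000220000000000000000100040004000000000000000000000000000000000004000000000000000000204000000000000000000220 := rS 0x472587dfef3f0fb088d1f7b5bbecf69b5532c950a6c68742f2b55e977ea5552238984cde7d44a3c1e9f65ac4227148834f277 (k8 c785 c5524 c5522 c5374 c5571 c719 c5421 c5420 (k8 c5572 c9737 c5568 c5567 c5566 c5565 c5564 c5382 (k8 c9734 c5489 c5488 c5405 c5404 c5406 c5490 c312 (k8 c421 c420 c10735 c1121 c1118 c1520 c1532 c1969 (k8 c1530 c5450 c16699 c11200 c9339 c1764 c5171 c8772 (k4 c5540 c5544 c7600 c460 (k2 c2972 c12645 k0))))))) (by decide +kernel)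
def c16820 : PP 9 3 T 0x90000220000000000000000000040000000000000000000000000000000000000000000000000000000000000004000000000000000420 := rS 0x4503c6d109ce22238984cde8f07acd6a1138a441a6b (k8 c5523 c5522 c5374 c5571 c719 c5422 c5574 c9737 (k8 c5568 c5565 c5564 c5382 c9734 c9728 c9718 c12651 (k4 c16804 c5650 c3604 c15434 k0))) (by decide +kernel)
def c16821 : PP 9 3 T 0x40000000000000011000220000000000000000000040000000200000000000000000040000400000000004000000000010000400001000000000040000520 := rS 0xfea130b8fc29c1d1ccc681379f41e7b48834ae9b (k8 c7393 c5313 c5522 c5374 c5372 c9737 c5566 c5565 (k8 c5380 c9754 c9718 c9123 c16712 c5456 c1774 c1696 (k2 c1278 c10493 (k1 c3599 k0)))) (by decide +kernel)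
def c16822 : PP 9 3 T 0x40000000000000010000221000000000000000000040004000200000000000000000000000000000000000000000000000000000000000000000000000100 := rS 0xf734fda74498ed92a162e4cbc97549ce22237b9bd120f4fb2c22710b9dcae492387d6adf2502f625cd96d80839 (k8 c5317 c16643 c16798 c5210 c11323 c16815 c16817 c16820 (k8 c2510 c5422 c2590 c191 c192 c5313 c785 c5433 (k8 c5571 c719 c5420 c5572 c9737 c5567 c5565 c10793 (k8 c9734 c9728 c9718 c5489 c5404 c16821 c5439 c1629 (k8 c1121 c1118 c10903 c1516 c15307 c15252 c1969 c16806 (k1 c11200 k0)))))) (by decide +kernel)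
def c16823 : PP 9 3 T 0x40000000000000010000221000000000000000000040004000200000000000000000000000000000000000000000000000000000000000000000000000000 := rS 0x34daac950aa868742f020401f25564466f3ea253eb53b95c17b1db17009b2 (k8 c5210 c16643 c11323 c16798 c16815 c16817 c5313 c785 (k8 c5422 c5572 c5567 c5566 c5565 c9734 c16818 c16820 (k8 c2590 c5650 c16822 c312 c421 c420 c16819 c1121 (k4 c1118 c1532 c1969 c15261 k0)))) (by decide +kernel)
def c16824 : PP 9 3 T 0x40000000000000010000221000000000000000000000004000200000000000000000000000000000000000000000000000000000000000000000000000000 := rS 0x101557bdacd1efb3d9ad36aa75329b64a85fe343a248bc4a0411c3e3ba52b55e977ea5553b211c762613379f5128f07a7d96b1089c76c91069acf2833b95cb804 (k8 c16643 c11323 c5313 c785 c5525 c5524 c5523 c5522 (k8 c5374 c16798 c5571 c719 c5421 c5420 c5572 c9737 (k8 c5568 c5567 c5566 c5565 c5564 c5382 c12631 c9734 (k8 c5210 c5489 c5488 c5405 c5404 c5406 c5490 c16823 (k8 c5332 c5517 c5520 c16695 c12645 c312 c311 c421 (k8 c420 c2569 c1121 c1118 c1119 c1520 c1694 c1532 (k8 c1969 c1967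 c1530 c5450 c1704 c16699 c11200 c3617 (k2 c10483 c6368 k0)))))))) (by decide +kernel)
def c16825 : PP 9 3 T 0x80000000000000089000200000000000000000000000000000000000000000040000000000000000000000000000400002000204000005041000000400860 := rS 0xef0d19a406a9fc1260221d7c2fe67b453a9955bd03c638ea04267d089c4ef15f6ace02b1 (k8 c5421 c5592 c5574 c14538 c5590 c785 c5571 c719 (k8 c5566 c5564 c5380 c12631 c9754 c718 c824 c1085 (k8 c2317 c1082 c1925 c2339 c14396 c7210 c15294 c2342 (k8 c11103 c421 c728 c15288 c12613 c2507 c458 c5688 (k1 c5450 k0))))) (by decide +kernel)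
def c16826 : PP 9 3 T 0x10000221000000000000000000000004000200000000000000000000000000000000000000000000000000000000000000000000000000 := rS 0xa5118166c25fc87a371885c0e3f2bec8e6f72e1bc1eb35a844e3b6026c4d683 (k8 c5525 c5523 c16815 c16643 c16798 c5571 c719 c5422 (k8 c5574 c9737 c5565 c11323 c10793 c9718 c5210 c5313 (k8 c5318 c5432 c5433 c5434 c5435 c5436 c16824 c5546 (k4 c16289 c16825 c16745 c16820 (k1 c5520 k0))))) (by decide +kernel)
def c16827 : PP 9 3 T 0x91000200000000000000000000000004000100000000001000000000000000000041000001000004000000200000000000000000000820 := rS 0x3fe02e224b7dc303f6aae2be0423d03d4b7ba06267d47acd6392 (k8 c5209 c5421 c5574 c5568 c5566 c5382 c5380 c10793 (k8 c5516 c718 c824 c823 c5225 c15434 c1085 c5541 (k8 c2629 c5460 c5538 c10680 c5972 c1928 c4602 c8604 k0))) (by decide +kernel)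
def c16828 : PP 9 3 T 0x6000000000000000000000000000000000100000000000100000000000000000800000040000000000000000101000000004000004040000000005500 := rS 0x208f40c3b (k4 c5456 c15597 c1493 c1734 (k1 c5655 k0)) (by decide +kernel)
def c16829 : PP 9 3 T 0x40000000000000091000220000000000000000000040004000100000000000040000000000000000051000050104000400000000000000000000000000420 := rS 0x508c02c36793d440d56bc0dc43f0ffbbdbe36f8e5c24aacf80331111a06267d4783d3ecb58ad4f691069acf28304b1caf92 (k8 c5209 c5353 c5357 c16665 c5525 c5524 c5523 c5522 (k8 c5374 c5372 c5422 c5421 c5420 c5572 c9737 c5568 (k8 c5566 c5382 c5380 c9734 c9728 c9698 c5225 c16818 (k8 c16820 c5460 c5534 c5538 c11976 c16673 c5171 c2590 (k8 c407 c5972 c10772 c5507 c5585 c5650 c2594 c5657 (k4 c16828 c2419 c2535 c1069 (k1 c8160 k0))))))) (by decide +kernel)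
def c16830 : PP 9 3 T 0x91000200000000000000000000000000000100000000000000000000000000000000000000000005002000000008000440000000001460 := rS 0x508fcc29371a7070193998d026f3e83ce29f65824be7f2ba6d8f92 (k8 c5209 c5357 c2492 c5353 c5358 c9668 c16665 c5420 (k8 c5572 c5571 c9737 c5566 c5565 c5380 c9754 c9718 (k8 c9698 c5710 c16784 c15608 c325 c1696 c408 c8159 (k1 c3599 k0)))) (by decide +kernel)
def c16831 : PP 9 3 T 0x91000200000000000000000000000000000100000000001010000000000000000005000050000005002000200008000440000000001420 := rS 0x2653ad166b3d92163031060064d8658f92 (k8 c5209 c5357 c9698 c2492 c16830 c822 c821 c713 (k8 c714 c1915 c1473 c1916 c1706 c1696 c1463 c3617 k0)) (by decide +kernel)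
def c16832 : PP 9 3 T 0x11000200000000000000000000080000000000002000000000000000000440000000014000000041011000404000000000000000001560 := rS 0x13a9b301ccc681379f47637 (k8 c5518 c5332 c5566 c5565 c5380 c9754 c9718 c3599 (k2 c1191 c1697 (k1 c16784 k0))) (by decide +kernel)
def c16833 : PP 9 3 T 0x91000200000000000000000100080000000100002000000000000000000000000000000000000005001000000008000000000000001460 := rS 0x134e1490f7c6a01fb8c7019079c53ecb0497d8e7f2be487637 (k8 c5518 c5332 c5209 c5353 c5358 c5357 c9668 c16665 (k8 c5420 c5572 c5571 c9737 c9698 c3568 c15608 c408 (k4 c16832 c5578 c2767 c8159 (k2 c16773 c325 (k1 c1192 k0))))) (by decide +kernel)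
def c16834 : PP 9 3 T 0x91000200000000000000000100080000000100000000001000000000000000000005000051000005000400200000000000000000001420 := rS 0x994da75a2cd67b242c60620c00d1436864e71137acd6a3b1bbd494470983c227189a3c3e23 (k8 c9734 c5517 c5568 c5382 c5571 c719 c9737 c5564 (k8 c5520 c12645 c5519 c5518 c5332 c5422 c5574 c5565 (k8 c9728 c9718 c9698 c16831 c3604 c16833 c822 c821 (k8 c713 c714 c1915 c1473 c1916 c1706 c1697 c1066 (k2 c1463 c3617 k0))))) (by decide +kernel)
def c16835 : PP 9 3 T 0x1000000000000099000200000000000000000100000000000100000000000010000000000000000000000001000005002000200008100440000000001420 := rS 0x1f0e5c4e1f1f81be9d6ab3d9241300c00c9b0ca06266f3e83d3e09639fcaf92 (k8 c5209 c5353 c5358 c5357 c16665 c5572 c9737 c5566 (k8 c5565 c5382 c5380 c9698 c2492 c16830 c822 c713 (k8 c1734 c1915 c1473 c1476 c1696 c2511 c16763 c6616 (k4 c13096 c14947 c5534 c16828 (k1 c407 k0))))) (by decide +kernel)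
def c16836 : PP 9 3 T 0x99000220000000000000000000080004000100000000000000000000000000000000000000004000000000200000000000000000000020 := rS 0x3e1cb8bc7e04da75aacf64858c03003450da4581aabdaff255648ef51b87c76974a864e7111198d1b1d40c4c266f3ea3c1eb34fac56a1138834d6790497d8e7f2be4816913daa5faaf (k8 c5406 c5405 c5489 c5372 c5374 c16827 c5209 c5353 (k8 c5358 c5357 c9668 c16665 c5524 c5523 c5522 c5571 (k8 c719 c5422 c5421 c5572 c5574 c9737 c5568 c5566 (k8 c5565 c5564 c5382 c5380 c12631 c12629 c9754 c9734 (k8 c9728 c9718 c9698 c5488 c5404 c5332 c5517 c5518 (k8 c5519 c5520 c12110 c12645 c2569 c15441 c16834 c2199 (k8 c461 c16835 c3604 c16833 c822 c713 c714 c1915 (k8 c1473 c1476 c1697 c1066 c16763 c6616 c15189 c5534 (k2 c16828 c407 k0))))))))) (by decide +kernel)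
def c16837 : PP 9 3 T 0x10000221000000000000000000000004000000000000000000000000000000000000000000000000000000000000000000000000000000 := rS 0xf9782960bc91de52913dab55e977ea5553b24396d1af72e0136db1 (k8 c16815 c16798 c16643 c11323 c10793 c12629 c11445 c11253 (k8 c5210 c5489 c5488 c5405 c5404 c5406 c5490 c5372 (k8 c5374 c16826 c14727 c5209 c16827 c16836 c5225 c16829 (k1 c11668 k0)))) (by decide +kernel)
def c16838 : PP 9 3 T 0x10000201000000000000000000000004000200000000000000000000000000000004000001000000002000000000000000000000001000 := rS 0xcf4234fda7464a84c25e4c20cd6974aaa764294396cde894f8e4948f899ed3ad1669e18e37f184cfad504f83629bc991c163b24d281f9d0b9dc0f1d2e0fc7a1138ed80857 (k8 c5313 c16643 c16798 c5571 c719 c5436 c5318 c11323 (k8 c12631 c5432 c785 c5433 c16837 c9737 c5211 c5334 (k8 c5332 c5516 c5520 c15376 c8100 c16815 c5235 c16733 (k8 c15288 c5566 c5564 c12668 c5518 c5535 c15597 c5537 (k8 c5459 c5458 c5457 c5382 c5568 c12614 c5317 c5572 (k8 c5567 c5565 c11445 c11253 c9692 c5210 c5489 c5488 (k8 c5404 c64 c2430 c2428 c5710 c1578 c1121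 c1118 (k4 c15353 c15317 c1969 c5672 (k2 c15369 c2544 k0))))))))) (by decide +kernel)
def c16839 : PP 9 3 T 0x1000000040000000000000000000000000200000000000000000000000000000000001400000000000801000000000400000140000120 := rS 0x49a64bc191198c7217 (k8 c5433 c5317 c9754 c9734 c9698 c5663 c2374 c1516 (k1 c6193 k0)) (by decide +kernel)
def c16840 : PP 9 3 T 0x10000201000000000000000000000004000200000000000000000000000000000004000001000000000000000000000000000000001000 := rS 0x19fdf813ce0282f69d4c0218aa14d46d57bf52aa9d906622234396dee6f44acd621f7abfc948f8984d3ad13c31c6ed504f83629bc991c163b24d281f9d0b9dc0f1d2e0fc7a1138ed80857 (k8 c5313 c16643 c16798 c5571 c719 c5436 c5318 c11323 (k8 c12631 c5432 c785 c5433 c16837 c9737 c5211 c5334 (k8 c5332 c5516 c5520 c15376 c8100 c16815 c5235 c16733 (k8 c15288 c5518 c5535 c15597 c5459 c5458 c5564 c5382 (k8 c5568 c12614 c2569 c5519 c9664 c5421 c5574 c5567 (k8 c5565 c10793 c11445 c11253 c9734 c9728 c9698 c5210 (k8 c5489 c5488 c5405 c5406 c16838 c5665 c2542 c1139 (k8 c2371 c16839 c1575 c15322 c5672 c1977 c2390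 c8604 (k2 c9979 c2634 (k1 c8612 k0)))))))))) (by decide +kernel)
def c16841 : PP 9 3 T 0x10000201000000000000000000000004000200000000000000000000000000000000000001000000000000000000000000000000001000 := rS 0x349427467324bc9842184d88335fb554d5f19e0127b63f81364ac9ec8531131a1cb71d8984cde7d44a3c1e9f089c76db11d924163723d2b3a391f81c2e3d3b95cb804 (k8 c16643 c11323 c5313 c785 c5436 c5433 c5432 c5318 (k8 c5317 c16837 c5211 c5520 c5518 c5516 c5334 c5332 (k8 c16815 c16798 c5571 c719 c5572 c9737 c5568 c5567 (k8 c5566 c5565 c5564 c5382 c12631 c11445 c11253 c9754 (k8 c9728 c9692 c5210 c15376 c12614 c8100 c5235 c5535 (k8 c5457 c16733 c15597 c12668 c15288 c16840 c5500 c1138 (k8 c1974 c5665 c1578 c5672 c2428 c5710 c10162 c2544 (k4 c2545 c1121 c15369 c1969 k0)))))))) (by decide +kernel)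
def c16842 : PP 9 3 T 0x10000201000000000000000000000004000200000000000000000000000000000000000400000000000000000000000000000000000200 := rS 0xf0e4c2271db6c73a173b95cb804 (k8 c16643 c11323 c5313 c785 c5433 c16837 c16815 c16798 (k4 c5571 c719 c5438 c16733 (k1 c5235 k0))) (by decide +kernel)
def c16843 : PP 9 3 T 0x4006000000000008000000000000000000000000000000000000000000000000000000145000000104000100000000000000000000000000000000000000 := rS 0x6b323be977ea55529d (k8 c5458 c5489 c5488 c5405 c5404 c16230 c13449 c5689 (k1 c2189 k0)) (by decide +kernel)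
def c16844 : PP 9 3 T 0x201000000000000000000000000000000000000000000000000004000000000000210000000410800004000205000000000010140 := rS 0x6a40ef1fcea7830204267d (k8 c5566 c5564 c5380 c2374 c2373 c1575 c728 c8612 (k2 c12613 c5450 (k1 c458 k0))) (by decide +kernel)
def c16845 : PP 9 3 T 0x10000201000000000000000000000004000200000000000000000000000000000000000000000000000000000000000000000000002000 := rS 0xbd92f0a659ed5f1825a644f7c0a02ff66a6e2aab413c8406a57bf52aa9d921cb71d099bcfa8947acd621138edb639d1c8fc0e3d3b95cb804 (k8 c16643 c11323 c5313 c785 c5436 c5432 c5318 c5317 (k8 c16837 c16815 c16798 c5571 c719 c5421 c5574 c5568 (k8 c5567 c5566 c5565 c5564 c12631 c11445 c11253 c5210 (k8 c5489 c5488 c5405 c5406 c316 c315 c422 c423 (k8 c1138 c1139 c2490 c2500 c2396 c1977 c8604 c5508 (k8 c2628 c2087 c16842 c12668 c15288 c2634 c16844 c16843 (k2 c5235 c9046 (k1 c5439 k0)))))))) (by decide +kernel)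
def c16846 : PP 9 3 T 0x10000201000000000000000000000004000200000000000000000000000000000000000000000000000000000000000000000000000000 := rS 0x33fbf0279c0505ed3a980431555b54d4784eb1c126d7fb47c09b4864c1a771e81c7e5757bf52aa9d906622234396e3af72e1bd120f59ac42271db013621f1d92416377a91e959d (k8 c16837 c5211 c5520 c5519 c5518 c5516 c5334 c5332 (k8 c9664 c16815 c16643 c16798 c5571 c719 c5421 c5574 (k8 c9737 c5567 c5565 c11323 c10793 c12631 c11445 c11253 (k8 c9734 c9728 c9698 c5210 c5489 c5488 c5405 c5406 (k8 c5313 c5318 c5432 c5436 c785 c16845 c15376 c16841 (k8 c8100 c5235 c9793 c3009 c746 c16842 c5535 c5458 (k8 c15597 c5665 c15288 c1138 c1139 c2371 c16839 c1575 (k8 c15322 c11575 c1977 c2390 c8604 c9979 c2634 c8612 k0)))))))) (by decide +kernel)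
def c16847 : PP 9 3 T 0x91000210000000000000000000000000000100000000001000000000000000000055000051000000000400200000000000000000001020 := rS 0x1ec7934488d46bf7d9aa10b310603f0338d33e14d9e8d81988a053ecb588edeac73ce4ab2ff2523c8f130983c227105926951d (k8 c12631 c5211 c5334 c5516 c5571 c719 c9737 c5564 (k8 c5382 c5520 c5568 c12614 c2569 c12876 c5209 c5441 (k8 c5357 c5519 c5332 c5421 c5420 c5572 c5380 c9728 (k8 c9698 c5665 c16834 c2492 c5457 c1594 c1775 c15477 (k8 c408 c822 c821 c714 c1069 c1916 c5451 c1765 (k4 c8160 c1476 c1711 c460 (k2 c11160 c5540 k0))))))) (by decide +kernel)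
def c16848 : PP 9 3 T 0x91000210000000000000000000000000000100000000000000000000000000000000001000000000000000000008000000000100001060 := rS 0x1c3e31c9007a924d38fc219099f41e9f089c4760b1bd2812c73c9fcaf92 (k8 c5209 c5353 c5358 c5441 c5357 c16665 c5211 c5518 (k8 c5516 c5332 c5571 c719 c5572 c9737 c5566 c5564 (k8 c9698 c15597 c15608 c16784 c9848 c1569 c12644 c324 (k2 c15669 c1714 (k1 c15375 k0))))) (by decide +kernel)
def c16849 : PP 9 3 T 0x10000201000000000000000000000004000000000000000000000000000000000004000001000000000000000000000000000000001000 := rS 0x1ec0333d329d10a14d44a56abd2efd4aaa764642e21cb71309a3c1e1138ed8081f2482dea47a5674be793ae4a53b1 (k8 c16815 c16846 c5209 c5440 c5441 c9668 c16837 c5211 (k8 c5520 c5519 c5516 c5334 c9664 c16643 c16798 c5571 (k8 c719 c9737 c5568 c5564 c5382 c11445 c11253 c11323 (k8 c15726 c5210 c5489 c5488 c5405 c5404 c5406 c5490 (k8 c12614 c16847 c2542 c2371 c1135 c2373 c11551 c16848 (k2 c16787 c15675 k0)))))) (by decide +kernel)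
def c16850 : PP 9 3 T 0x91000210000000000000000000000000000100000000000000000000000000000000000002000000000000000000000000000000001060 := rS 0x387c67a1e8fcc0925092d34e3f0864e6634084cfa9f658ec6e09639e4aff305d28220f6f9ff2515378853a6a369c6225f (k8 c9668 c9728 c5571 c746 c5665 c1135 c2371 c5565 (k8 c1139 c5209 c5358 c2948 c9737 c719 c5211 c5516 (k8 c16779 c5353 c5441 c5357 c16665 c5518 c5332 c5420 (k8 c5572 c5566 c5564 c5380 c9754 c9718 c9698 c15597 (k8 c15608 c16784 c16848 c10309 c9848 c3599 c327 c1569 (k4 c15705 c15669 c12655 c15912 k0)))))) (by decide +kernel)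
def c16851 : PP 9 3 T 0x10000201000000000000000000000004000000000000000000000000000000000004000000000000000000000000000000000000001000 := rS 0xf60199e994ea14d46d4825dfa9554ec8c9112e21cb60438ed83ef5a5674be793ae4a53b1 (k8 c16815 c16846 c5209 c5440 c5441 c9668 c16837 c5211 (k8 c5519 c9664 c16798 c5571 c16643 c11445 c11253 c11323 (k8 c9728 c15726 c5210 c5489 c5488 c5405 c5404 c16849 (k8 c746 c5665 c2542 c1135 c2373 c11551 c16850 c16787 (k1 c15675 k0))))) (by decide +kernel)
def c16852 : PP 9 3 T 0x10000201000000000000000000000004000000000000000000000000000000000000000000000000000000000000000000000000001000 := rS 0x142d76a858603f623400ce33d115ff5925245086c81a0cd7ed552b55e974aec833114396e3a5c40c4c268f07a7d96b1089c76c041d92416377a91e959d3ce4a53b1 (k8 c16815 c16846 c5209 c5441 c16837 c5211 c5520 c5519 (k8 c5518 c5516 c5334 c5332 c16643 c16798 c5571 c719 (k8 c5421 c5420 c5572 c9737 c5568 c5564 c5382 c5380 (k8 c11323 c12631 c11445 c11253 c9728 c9698 c5210 c5488 (k8 c5404 c5406 c5490 c16851 c5500 c1138 c1974 c2199 (k8 c5665 c5672 c746 c12614 c12876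 c2569 c461 c16835 (k8 c1775 c15477 c848 c847 c408 c822 c714 c1711 (k2 c1765 c1069 (k1 c8160 k0))))))))) (by decide +kernel)
def c16853 : PP 9 3 T 0x10000201000000000000000000000004000000000000000000000000000000000000000000000000000000000000000000000000000000 := rS 0x778684025113de928101c2ed180bfd9fed4ca762aab41215e46a060ccea573f9e4bf9204ca5ea1fa567762b159ed95e977ea5552640c970b21dd921cb604379f5128f (k8 c5568 c5567 c5566 c5565 c16643 c11445 c11253 c5210 (k8 c5486 c313 c11323 c9698 c15726 c5489 c5488 c5405 (k8 c5404 c5406 c16798 c5574 c5421 c16815 c16837 c5211 (k8 c9664 c5519 c16846 c16665 c5209 c9668 c5441 c5358 (k8 c5353 c5440 c383 c16852 c316 c422 c2541 c423 (k8 c1138 c1139 c1135 c2373 c5540 c11551 c2396 c1977 (k8 c1975 c16788 c16787 c8604 c5648 c5508 c2628 c2627 (k4 c12644 c458 c15626 c5450 k0)))))))) (by decide +kernel)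
def c16854 : PP 9 3 T 0x1000000000040000200000000000000000000000000000200000000000000000000000000002000000405000005000000000004000000010000015500 := rS 0x76c771384fc416f897e7132b8e40e37f18f4267d (k8 c5566 c5564 c5436 c12668 c5435 c5432 c5317 c5313 (k8 c5382 c5548 c1095 c2514 c13854 c12670 c3058 c10493 (k2 c9140 c1773 (k1 c3568 k0)))) (by decide +kernel)
def c16855 : PP 9 3 T 0x40000000000000000000000000000000000000000000000000000000000000000400000000000000000000000000800000011000000000 := rS 0x4f59 (k2 c5562 c2864 (k1 c5651 k0)) (by decide +kernel)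
def c16856 : PP 9 3 T 0x1000000000020000220000000000000000000040000000200000000000000000000000000000000000404000000000000000004000000000000010020 := rS 0x1db1dc4df247cc8ee13f1044a705a8a6266f47acc1a21059b41e7b489acf3b7889ccae391f81c6fe31e824267d (k8 c5566 c5564 c311 c5436 c12668 c5435 c5432 c5318 (k8 c5317 c5313 c9718 c9728 c8114 c5524 c5523 c5374 (k8 c5372 c5369 c5529 c717 c5528 c315 c5532 c5568 (k8 c5565 c5382 c9692 c16854 c8385 c2754 c13854 c12670 (k8 c3058 c16855 c16745 c12648 c2946 c10493 c9140 c1773 (k1 c3568 k0)))))) (by decide +kernel)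
def c16857 : PP 9 3 T 0x2000221000000000000000000000004000200000000000000000000000000000000000000000000000000000000000000000000010000 := rS 0x1ebed68335e6c50f17968711209eb24a4bbf52aa914aac42b3489e507b7889cc634bc99853a9b4c9afc2cf04a4c72073b82cda372b83dee5c0232769b2 (k8 c5210 c16853 c5396 c16643 c11323 c10793 c5369 c5313 (k8 c5435 c5529 c717 c785 c5432 c5317 c5444 c311 (k8 c16693 c14406 c5523 c5530 c5397 c5412 c5445 c10443 (k8 c9578 c5434 c9718 c9728 c8114 c5525 c5524 c5374 (k8 c5532 c5528 c5413 c9692 c5489 c5488 c5405 c5404 (k8 c16856 c5342 c353 c5651 c2754 c13067 c15827 c1094 (k4 c1629 c2532 c8354 c3617 (k2 c5501 c1925 (k1 c5657 k0))))))))) (by decide +kernel)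
def c16858 : PP 9 3 T 0x2000221000000000000000000000004000200000000000000000000000000000000000000000000000000000000000000000000000000 := rS 0xf6b1a06ffef97d96e380fbda4d56bac448704510820cfc9824c29b64a853e9356abd2efd4aaa764298898dee6f4eaae2a995982cdbb4079ed226b3ca0c72070b8c46e3d3b95cb804 (k8 c16643 c11323 c5313 c785 c5436 c5435 c5434 c5433 (k8 c5432 c5317 c5525 c5524 c5523 c5374 c5372 c5369 (k8 c16853 c5529 c717 c5532 c5530 c5414 c5413 c5412 (k8 c5565 c10793 c9754 c9728 c9692 c5210 c5489 c5488 (k8 c5405 c5404 c5406 c5490 c5444 c5448 c5398 c5396 (k8 c5397 c5445 c311 c10443 c16693 c16857 c826 c825 (k8 c719 c720 c1932 c1933 c2778 c9281 c5583 c3068 (k8 c5731 c1090 c16700 c8161 c2943 c2088 c3598 c14045 (k1 c9179 k0))))))))) (by decide +kernel)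
def c16859 : PP 9 3 T 0x1000000000000000220000000000000000000000000000200000000041000000000020000002054001050000000000000200000000000000000011620 := rS 0x196b16b91dfff3148e4ee574f979aa7d699d113dff6bc9c634 (k8 c420 c4307 c1705 c5501 c5450 c5567 c421 c1969 (k8 c5566 c1532 c312 c1522 c5313 c785 c5317 c9692 (k4 c5548 c2572 c2346 c9339 (k2 c14602 c15635 (k1 c16699 k0))))) (by decide +kernel)
def c16860 : PP 9 3 T 0x21000220000000000000000000000000000200000000001040000000000000000051000050000000000000200000000000000000010220 := rS 0x583fdaecb247cc8e25382d6064ba5b8c74f2f6f85a1df67b35a6d54db253e343a1785313099bcfa8947a75569959834420b3683d226b3ca0f6f11398e4ee57 (k8 c5313 c785 c5317 c9718 c9728 c8114 c5525 c5524 (k8 c5523 c5374 c5369 c5529 c717 c5528 c315 c5532 (k8 c5530 c5413 c5412 c5568 c5567 c5566 c5565 c5564 (k8 c5382 c9692 c312 c421 c420 c1522 c1118 c1119 (k8 c1532 c1969 c1967 c1530 c5450 c3617 c13449 c5501 (k8 c1705 c1704 c4307 c5332 c14196 c2627 c16859 c8385 (k8 c2754 c16855 c16745 c12648 c15635 c9339 c3007 c16699 (k1 c14602 k0)))))))) (by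 decide +kernel)
def c16861 : PP 9 3 T 0x29000220000000000000000000000000000200000000000000000000004000002000000400000000400000000004000000000000010120 := rS 0xf0a4d925ec998594a131a053a6d4c9af6f1139d2c1e9ff18f4267d (k8 c5566 c5564 c5436 c12668 c15291 c5369 c16695 c9718 (k8 c9728 c8114 c5523 c5530 c5529 c5412 c5380 c9754 (k8 c1199 c5680 c1755 c10443 c5663 c10162 c1516 c14406 (k1 c16856 k0)))) (by decide +kernel)
def c16862 : PP 9 3 T 0x29000220000000000000000000000000000200000000000000000000004000002000000000000000400000000004000000000000010120 := rS 0x208eab0c77109dc2a065f8534df240948ff314c4c1a21059b4f6913cede22732b8e47e071bd2c1e9ff18f4267d (k8 c5566 c5564 c5436 c12668 c15291 c5369 c16695 c5435 (k8 c5432 c5318 c5317 c5313 c9718 c9728 c8114 c5524 (k8 c5374 c5372 c5529 c717 c5528 c315 c5382 c9692 (k8 c5548 c2346 c1095 c12648 c2946 c16861 c5536 c1327 (k8 c5680 c9396 c2927 c1200 c9140 c5651 c3568 c5340 (k1 c1773 k0)))))) (by decide +kernel)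
def c16863 : PP 9 3 T 0x40000000000000000000000000000000000000001400000000000800000000000000001500000105001400400002000800000000000020 := rS 0x2665d64c04063c444663 (k8 c9754 c9734 c9728 c2619 c1773 c3598 c5340 c1755 (k2 c10038 c350 k0)) (by decide +kernel)
def c16864 : PP 9 3 T 0x40001000000000021000220000000000000000000000000000200000000000000000000000000000000000400000000000000000006000000000000010120 := rS 0xca20a85c63a2fa48c68189a762a9906884166d3d9acf3b7889ccaf4b07a7fc63d099f5be3f (k8 c5318 c2946 c5566 c5564 c5436 c12668 c15291 c5369 (k8 c16695 c5313 c9718 c9728 c8114 c5524 c5523 c5372 (k8 c5529 c717 c5528 c315 c5530 c5414 c5412 c5382 (k8 c5380 c9754 c16856 c1516 c9123 c16863 c10309 c512 (k2 c5680 c1753 k0))))) (by decide +kernel)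
def c16865 : PP 9 3 T 0x2000000000000000020000000000000000000000000000200000000000000000000000000000000000000000000000000000000000000000000001500 := rS 0x31c760f3c95c0e37 (k8 c5435 c5432 c5313 c5524 c5369 c5456 c5535 c15597 k0) (by decide +kernel)
def c16866 : PP 9 3 T 0x29000220000000000000000000000000000200000000000000000000004000000000000000000000400000000004000000000000010120 := rS 0x28596e34d37c91f323894e0b514c4cde8f8aacd226bdbc44e63fa583d3fe31e84cfbe1059b41a21 (k8 c5528 c315 c5529 c717 c16865 c5566 c5564 c5436 (k8 c12668 c15291 c5369 c16695 c5318 c9718 c9728 c8114 (k8 c5523 c5374 c5532 c5414 c5568 c5565 c5382 c9692 (k8 c16862 c8385 c2754 c16855 c16745 c12648 c2946 c16864 (k4 c2621 c1326 c10309 c5680 k0))))) (by decide +kernel)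
def c16867 : PP 9 3 T 0x29000220000000000000000000000000000200000000000040000000000000000000000000000000000000200000000000000000010020 := rS 0x1c0cb6337c4e3bacfcc95e1f1a7d9e0956abd2efd4aaa45313099f53a0d1082cda0f3d9e76f11398e40e171b8f4ee57 (k8 c5313 c785 c5436 c5435 c5433 c5432 c5317 c9718 (k8 c9728 c8114 c5524 c5372 c5369 c5529 c717 c5528 (k8 c315 c5412 c5566 c5564 c5382 c9692 c5489 c5488 (k8 c5405 c5404 c5406 c5490 c16860 c16693 c15291 c12668 (k8 c16865 c16866 c5546 c5342 c14196 c353 c2510 c3568 (k2 c9148 c9140 (k1 c9396 k0))))))) (by decide +kernel)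
def c16868 : PP 9 3 T 0x221000000000000000000000004000200000000008000000000000000000000000000000000000000000000000800000000000000 := rS 0x192f11d7bed01a2062613ac914b6096b8c5aacb0ba7c483d588a4ee574aa5d5eadf6bca96462104363b47bec8b804 (k8 c16643 c11323 c5210 c10793 c16853 c16858 c16867 c826 (k8 c2780 c5520 c2781 c5544 c5490 c5406 c5404 c5488 (k8 c5313 c785 c9692 c1932 c5436 c720 c2756 c5433 (k8 c1090 c2778 c5434 c1933 c16699 c11445 c2967 c5558 (k8 c5564 c5382 c5380 c448 c449 c5450 c1526 c10743 (k2 c10484 c12353 k0)))))) (by decide +kernel)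
def c16869 : PP 9 3 T 0x1000020000000000000000000000000000000000000000000000000000000000000000000000000001004404000000540000000001540 := rS 0xc0c6c983cf679 (k4 c5524 c5372 c5369 c11223 (k2 c3568 c5663 (k1 c726 k0))) (by decide +kernel)
def c16870 : PP 9 3 T 0x221000000000000000000000004000200000000000000000000000000000000000000000000000000000000000000000000000000 := rS 0x5ac0dfe4b1d17c129f65c05aad7588911442086c4ee3d1b8c42e071c95d5aaf4bbf52aa9d90a4c6f72e1bd3aab8aacc1a21059b523b7da444e604 (k8 c16643 c9718 c9728 c16853 c8114 c5374 c5529 c717 (k8 c5528 c315 c5532 c5414 c5413 c5412 c5565 c11323 (k8 c10793 c9754 c9692 c5210 c5489 c5488 c5405 c5404 (k8 c5406 c5490 c5313 c5317 c5432 c5433 c5434 c5435 (k8 c5436 c785 c16858 c16867 c826 c825 c720 c1932 (k8 c1933 c2778 c3068 c1090 c2756 c16699 c16700 c16869 (k4 c14196 c16868 c1936 c1095 (k1 c3623 k0)))))))) (by decide +kernel)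
def c16871 : PP 9 3 T 0x1001800000000000000220000000000000000000040004000100000000000050000000000000000054015050000000000000000004001440000000011420 := rS 0x65b5d62e07f923e70323bc871130983d22d5 (k8 c5454 c5374 c5369 c5564 c5382 c5654 c5657 c2477 (k8 c2627 c16745 c12648 c3007 c400 c14602 c1721 c1718 (k1 c8161 k0))) (by decide +kernel)
def c16872 : PP 9 3 T 0x1001800000000000000220000000000000000000000004000100000000000050000000000000000054015050000000000000000004001440000000011420 := rS 0x23926951309a3c1e91 (k8 c5374 c5369 c5568 c5564 c5382 c16871 c5334 c5520 (k1 c12614 k0)) (by decide +kernel)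
def c16873 : PP 9 3 T 0x2000221000000000000000000000004000000000000000000000000000000000000000000000000000000000000000000000000000000 := rS 0x35d96b1f10907e2724d6494f51d9046fe11eb41a6d52b77823edc998536a14fab55e977ea57642911c75ee5c4eaae2a9959834420b369af6fb4889cc0929 (k8 c16870 c16643 c9718 c9728 c16853 c8114 c5523 c5529 (k8 c717 c5528 c315 c5532 c5530 c5414 c5413 c5412 (k8 c11323 c10793 c12631 c9734 c9692 c5210 c5488 c5405 (k8 c5404 c5406 c5490 c5448 c5398 c5397 c5445 c10443 (k8 c15876 c16790 c5214 c10195 c5454 c5496 c13565 c16747 (k8 c16230 c16753 c12628 c10737 c1926 c16872 c5342 c192 (k8 c353 c15406 c5651 c5655 c1093 c1091 c5465 c8161 k0))))))) (by decide +kernel)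
def c16874 : PP 9 3 T 0x1000000000041000220000000000000000000040000000100000000000000000000000000000000001100000000001000000004000440000000011020 := rS 0x23925be3ff105926380cc4c268f0583d2392 (k8 c5209 c5374 c5369 c717 c5568 c5564 c5382 c9698 (k8 c5654 c9007 c5648 c11775 c5576 c5580 c399 c2476 (k1 c12614 k0))) (by decide +kernel)
def c16875 : PP 9 3 T 0x20000000000000000000080000000000000400000000000000000000000000000000400000000000000004000000000000051400 := rS 0x239241e91 (k4 c5374 c5369 c5334 c5520 (k1 c12614 k0)) (by decide +kernel)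
def c16876 : PP 9 3 T 0x1000000000049000220000000000000000000000004000100000000000040000000000000000004001100000000001000000004000404000000011020 := rS 0x1edefb4536cd648d926974aaa4334b05a3c2713 (k8 c5382 c5564 c5568 c717 c16875 c9698 c5489 c5488 (k8 c5404 c9007 c16874 c10198 c2330 c2328 c1482 c15342 (k2 c8724 c5165 k0))) (by decide +kernel)
def c16877 : PP 9 3 T 0x4000000000041000220000000000000000000000000000100001000000000000000000000000400001100000000001000000000000800000400000000 := rS 0x2b192 (k2 c5209 c5226 (k1 c12336 k0)) (by decide +kernel)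
def c16878 : PP 9 3 T 0x29000220000000000000000000000004000100000000000040000000000000000000000000000000000000000004000004000000010020 := rS 0x16a71120f3c407490e846133eaac1a213da44d6093f95fc392db9cd32b336c56229d (k8 c5412 c9728 c5414 c5529 c5532 c5530 c9718 c8114 (k8 c5209 c11748 c5353 c5358 c16665 c5523 c5374 c5372 (k8 c5528 c315 c5413 c5566 c5564 c9734 c16876 c12293 (k4 c1674 c16877 c15669 c1570 (k2 c2754 c1095 (k1 c13067 k0)))))) (by decide +kernel)
def c16879 : PP 9 3 T 0x29000220000000000000000000000004000100100000000040000000000000000000000000000000000000000000000004000000010020 := rS 0x1a9ee4f90d9293a5879683b589c48ad350b5d9641127884f59252b55e974a8a43221489afc392db9cd32b336c56229d (k8 c5412 c9728 c5414 c5529 c5532 c5530 c9718 c8114 (k8 c5209 c11748 c5523 c5374 c5528 c9698 c9692 c5488 (k8 c5404 c5406 c5490 c16878 c5342 c353 c5226 c5651 (k8 c5462 c5464 c5465 c5578 c5579 c2968 c2754 c1093 (k8 c562 c13067 c1094 c5517 c9007 c10198 c15478 c2757 (k2 c5658 c3618 (k1 c5585 k0))))))) (by decide +kernel)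
def c16880 : PP 9 3 T 0x221000000000000000000000004000000000000000000000000000000000000000000000000000000000000000000000000000000 := rS 0x5ac0c963a1c85dfe927035d964171a85a70158f8848704510ab2101995cfec7c96c653b7489ec1ead57bf553b214864e7118ebdcb881899f557154cacc1a21059b76804 (k8 c16643 c16853 c5529 c717 c5528 c315 c5532 c5530 (k8 c5414 c5413 c5566 c5382 c5380 c11323 c10793 c12631 (k8 c9728 c9718 c9698 c9692 c5210 c5489 c5405 c5406 (k8 c5490 c5369 c5372 c5374 c8114 c16870 c16873 c5209 (k8 c5357 c5358 c5353 c383 c16879 c5558 c826 c825 (k8 c719 c720 c5226 c1932 c3068 c2938 c2929 c5731 (k8 c5462 c5464 c5465 c14235 c15478 c4819 c55 c324 (k4 c11799 c562 c1936 c1095 (k1 c3623 k0))))))))) (by decide +kernel)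
def c16881 : PP 9 3 T 0x2000201000000000000000000000004000200000000000000000000000000000000000000000000000000000000000000000000000000 := rS 0x16ad76f310f5933f17cea79f0b31abe3efbfd9f0168b1c23ec07026969b64a4d5aaf4bbf52aa9d947502133ea7557154cacf699d1f81c623d3b95cb804 (k8 c16643 c11323 c5313 c785 c5436 c5434 c5432 c5318 (k8 c16880 c16853 c5532 c5530 c5414 c5413 c5412 c5566 (k8 c5564 c5380 c12631 c5210 c5489 c5488 c5405 c5404 (k8 c5406 c5490 c5444 c5396 c5397 c9578 c311 c6008 (k8 c5218 c10107 c794 c5501 c5502 c5543 c5544 c10390 (k8 c12668 c15288 c3617 c8772 c2386 c1968 c10245 c15622 (k4 c5358 c5669 c5668 c892 (k2 c1765 c2514 (k1 c10153 k0))))))))) (by decide +kernel)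
def c16882 : PP 9 3 T 0x1000000000040000201040000000000000000040004000200000000014000000000010040000000000801000000000000000000000400000000010100 := rS 0xd489de2010d8befac9d4fed63d17cf3b231c7502133eed33a3f038c47a772b97009b1 (k8 c16881 c16643 c11323 c5313 c785 c5436 c5434 c5432 (k8 c5318 c16880 c16853 c5566 c5564 c5380 c12631 c9754 (k8 c5210 c2384 c10735 c5669 c15641 c891 c1688 c14795 (k8 c5507 c1765 c1933 c12613 c5668 c5658 c5450 c458 k0)))) (by decide +kernel)
def c16883 : PP 9 3 T 0x2001000000000040000201040000000000000000000004000200000000000000000000000000000000000400000000000000400000000000000000010000 := rS 0x779927562981ac95d918d029d55a67699d3b95cb804d8b4602ff (k8 c5544 c5502 c5501 c16881 c16643 c11323 c5313 c785 (k8 c16880 c16853 c5530 c5413 c5412 c5380 c9754 c5210 (k8 c5488 c15641 c5663 c1765 c1575 c10110 c5668 c15342 k0))) (by decide +kernel)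
def c16884 : PP 9 3 T 0x2001000000000040000201040000000000000000040004000200000000000000000000000040000000000001000000000000000000000400000000010100 := rS 0xcc3c324bc9b4ba5553b24eaad33b4ce9dcae5c0234602ff (k8 c5544 c5502 c5501 c16643 c11323 c5313 c785 c16880 (k8 c16853 c5530 c5413 c5412 c5210 c5489 c5488 c5404 (k4 c16882 c16883 c1118 c10245 (k2 c8724 c2386 k0)))) (by decide +kernel)
def c16885 : PP 9 3 T 0x2000000000000028000000000000000000000100040000000000100000000000000000000000001100000000000000000000000005000000000000000000 := rS 0x2340be6ad57bf552ab8aace02ff (k8 c5544 c5502 c5532 c5414 c5413 c5489 c5405 c5406 (k4 c5490 c14538 c3623 c5660 (k1 c2350 k0))) (by decide +kernel)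
def c16886 : PP 9 3 T 0x1000000000040000201000000000000000000000004000200000000000000000000000000000000000001000000000000000004000400000000010000 := rS 0x136cd81b27bea1f93586826239104a43f7ac16a4920564fe5fc933da20963fb2960e4ba5553b21498e3a5c40c4c267d47a75569959834420b36ed0099d2b8fc0e3d (k8 c5436 c5432 c5318 c5313 c16880 c16643 c16853 c5529 (k8 c717 c5528 c315 c5532 c5530 c5413 c5412 c5568 (k8 c5566 c5564 c5382 c5380 c11323 c12631 c9754 c9692 (k8 c5210 c5489 c5488 c5404 c12647 c5329 c9180 c794 (k8 c471 c5501 c5543 c16884 c5439 c5358 c12891 c12613 (k8 c511 c9106 c16885 c5506 c1932 c1093 c5658 c16855 (k8 c5651 c458 c459 c5660 c2927 c5450 c2190 c5550 (k2 c2191 c12656 (k1 c8710 k0))))))))) (by decide +kernel)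
def c16887 : PP 9 3 T 0x1000000000040000201040000000000000000000004000200000000000000000000000000000000000000000000000000000000000400000000000200 := rS 0xf652bbec9078d0bdb27bed33a772b97009b1 (k8 c16881 c16643 c11323 c5313 c785 c16880 c16853 c10793 (k8 c5210 c312 c420 c471 c1118 c5450 c6008 c5185 (k1 c15650 k0))) (by decide +kernel)
def c16888 : PP 9 3 T 0x1000000000040000201040000000000000000000004000200000000000000000000010000000000000400000000000000000000000400000040010000 := rS 0x327bded2fa4b6419118113aab10a67699d1c85f6209 (k8 c16887 c16881 c5433 c5317 c16880 c16853 c5530 c5528 (k8 c5413 c5412 c16643 c9734 c9698 c5210 c6193 c1516 (k4 c16883 c5185 c5494 c15342 k0))) (by decide +kernel)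
def c16889 : PP 9 3 T 0x1400000000040000201040000000000000000000004000200000000014000000000000000000000000000000000000000400000000000000000010000 := rS 0x314ead630257646340ed33a772b97009b1 (k8 c16881 c16643 c11323 c5313 c785 c16880 c16853 c5380 (k8 c9754 c5210 c5488 c5663 c15641 c1575 c1765 c5668 k0)) (by decide +kernel)
def c16890 : PP 9 3 T 0x2001000000000040000201040000000000000000080004000200000000004000000000000000000000000000000000000000000000000000000000010000 := rS 0x1925eefc0764f7da6746e772b97009b1 (k8 c16881 c16643 c11323 c5313 c785 c5435 c16880 c16853 (k4 c10793 c5210 c5502 c10382 (k2 c16889 c1118 (k1 c15650 k0)))) (by decide +kernel)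
def c16891 : PP 9 3 T 0x1000000000040000201040000000000000000080004000200000000004010000000010000000000000000000000000000000000000400000000010000 := rS 0x612fa10d68379317bded4d07dfbb231a1cb6f755a641a21da6746e772b97009b1 (k8 c16881 c16643 c11323 c5313 c785 c5435 c16880 c16853 (k8 c5528 c315 c5530 c5413 c10793 c11445 c11253 c9754 (k8 c5210 c5405 c5517 c16888 c16890 c5185 c5451 c9979 (k4 c2390 c11575 c5672 c1119 (k2 c16540 c5663 k0))))) (by decide +kernel)
def c16892 : PP 9 3 T 0x1000000000040000201040000000000000000000004000200000000004010000000010000000000000000000000000000000000000400000000010000 := rS 0x3a3258a5eefb3e02c779fb01d4b4bec90e5b7bed33a373b95cb804 (k8 c16643 c11323 c5313 c785 c5435 c16880 c16853 c10793 (k8 c11445 c11253 c5210 c5404 c16891 c6008 c5218 c446 (k8 c794 c5502 c5543 c9979 c16889 c1629 c1118 c5668 (k1 c15646 k0)))) (by decide +kernel)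
def c16893 : PP 9 3 T 0x1000000000040000201000000000000000000000004000200000000000000000000000000000000000000000000000000000004000400000000010000 := rS 0x14a0712481593f82724ff23b45ebf34821cb681099f41a21059b768042b8fc0e3d (k8 c5436 c5432 c5318 c5313 c16643 c16853 c5529 c717 (k8 c5528 c315 c5566 c5564 c5380 c11445 c11253 c16886 (k8 c5589 c10333 c9793 c2784 c3009 c16892 c5438 c5358 (k4 c12891 c12613 c511 c15376 (k2 c5660 c5329 k0))))) (by decide +kernel)
def c16894 : PP 9 3 T 0x6000000000040000201040000000000000000000004000200000000014000000000104200000000004000000000000000000000000000000000000000 := rS 0x102f72c56ad35032dae60622b55efd54ec8c68155c5532b3da1dcae5c026c536cd (k8 c5537 c5536 c16881 c16643 c11323 c5313 c785 c16853 (k8 c5532 c5530 c5414 c5413 c5380 c9754 c5210 c5489 (k8 c5405 c5406 c5490 c10110 c10162 c1765 c1755 c5680 (k4 c15373 c1199 c1198 c16843 (k2 c3623 c5508 k0))))) (by decide +kernel)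
def c16895 : PP 9 3 T 0x40000201000000000000000000000004000200000000000000000000000000000000000001000000000000000004000400000000010000 := rS 0x4923901c5f3ac9ff24d5f1a7d90ff67c0413eca58392e9554eca3a818984cfa8f4eaad320d1082cdbb4ce8fc0e371e9dcae5c021eda2e14db35bfe0 (k8 c16893 c5538 c5537 c5536 c5460 c5459 c5457 c16643 (k8 c11323 c5313 c785 c5436 c5435 c5432 c5318 c16880 (k8 c16853 c5529 c717 c5528 c315 c5530 c5413 c5412 (k8 c5568 c5566 c5564 c5382 c5380 c12631 c5210 c5489 (k8 c5488 c5404 c12647 c5329 c9180 c471 c5502 c5543 (k8 c5544 c8724 c15291 c12668 c15288 c16894 c5358 c12891 (k4 c11668 c5972 c12613 c2347 (k2 c511 c5660 k0)))))))) (by decide +kernel)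
def c16896 : PP 9 3 T 0x2000400000000020000001000000000000000000000004000200000000000000000000011040000000000400000004000000000000000400000000004000 := rS 0x3c824eac867a5d2aa9d918d3aab4c834420b368e40e373b95cb804 (k8 c16643 c11323 c5313 c785 c5435 c5432 c5317 c5529 (k8 c717 c5528 c315 c5530 c5413 c5412 c9754 c5210 (k8 c5489 c5488 c5404 c5543 c8724 c1966 c421 c8612 (k1 c3568 k0)))) (by decide +kernel)
def c16897 : PP 9 3 T 0x1000400000000000000200000000000000000000000000000000000000005000000000011000000055001552000000400000200000000000000000000220 := rS 0x3c7ef6522962d74240d9cd36ab253e742f1f513f3 (k8 c5589 c5567 c5566 c312 c421 c1522 c1118 c1532 (k8 c1969 c3617 c2634 c1531 c1770 c14602 c849 c16699 (k2 c5583 c5464 (k1 c5689 k0)))) (by decide +kernel)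
def c16898 : PP 9 3 T 0x400000000000000201040000000000000000000004000200000000000000000000011040000000000402000004000000000000000400000000004000 := rS 0x184be7804fb5241fa52b55e977ea5553b20c88cc69d55a641a21059b7699d1c81c2e373b95cb9b17fa1cb604 (k8 c16643 c11445 c11253 c3009 c16881 c11323 c5313 c785 (k8 c5435 c5433 c5432 c5317 c16880 c16853 c5529 c717 (k8 c5528 c315 c5530 c5413 c5412 c9754 c9734 c9698 (k8 c5210 c5489 c5488 c5405 c5404 c5406 c5490 c6008 (k8 c5517 c6193 c16896 c16897 c3568 c1516 c1577 c5663 k0))))) (by decide +kernel)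
def c16899 : PP 9 3 T 0x2000000000040000201040000000000000000000004000200000000000000000000000000000000000002000000000000000000000400000000010000 := rS 0x6af8d3ec867c0413ec0725d2aa98e84cfa9d1f81c7a772b9718e7b68a6d9bdf55a6769b27fa1cb604 (k8 c16643 c11445 c11253 c3009 c5210 c16853 c5530 c5413 (k8 c16230 c5537 c5536 c5459 c5457 c5535 c11323 c5313 (k8 c785 c5436 c5432 c5318 c5412 c5566 c5564 c12631 (k8 c5489 c5488 c5404 c16898 c9180 c471 c5502 c5543 (k4 c8724 c15291 c12668 c15288 (k1 c16894 k0)))))) (by decide +kernel)
def c16900 : PP 9 3 T 0x40000201000000000000000000000004000200000000000000000000000000000000000000000000000000000004000400000000010000 := rS 0x24d2c800eac9fc139223fcd207bf0204267d06884166dda010ae391f81c6e3d (k8 c5436 c5435 c5432 c5318 c5317 c5313 c16643 c16853 (k8 c5529 c717 c5528 c315 c5566 c5564 c5380 c16893 (k8 c5457 c16895 c5589 c2784 c16899 c5438 c5358 c12891 (k4 c11223 c12613 c5329 c511 (k1 c5660 k0))))) (by decide +kernel)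
def c16901 : PP 9 3 T 0x28000000000000000000000000000000000000000000000000000000014040000000000000000000400000200000000000000000000220 := rS 0x324e85e (k4 c312 c421 c1118 c15646 k0) (by decide +kernel)
def c16902 : PP 9 3 T 0x40000201040000000000000000000004000200000000000000000000000000000000000001000000000000000000000800000000010000 := rS 0x114815921fbc6a753fb5bbc7a46c7502133ea247e07188f763017f97cf20968fb19ef73b97365e14eed18e0ea5810af9d (k8 c16880 c5313 c16643 c5332 c6008 c794 c16853 c5412 (k8 c5456 c5210 c11323 c785 c10793 c1647 c5218 c5501 (k8 c16901 c1535 c10245 c5544 c5502 c16881 c5436 c5434 (k8 c5432 c5318 c5567 c5566 c5564 c5380 c12631 c12629 (k8 c5669 c16889 c15641 c891 c1688 c5450 c8993 c1933 (k4 c9764 c12613 c458 c5658 k0)))))) (by decide +kernel)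
def c16903 : PP 9 3 T 0x2004400000000069000000000000000000000100040004000000100000000000000000500100000000004400000000000000000004024000010400400000 := rS 0x24ad44ea0659156315 (k8 c5414 c15326 c459 c15659 c5680 c350 c1199 c10038 (k1 c16885 k0)) (by decide +kernel)
def c16904 : PP 9 3 T 0x2004400000000069000000000000000000000100040004000000100000000000000000100100000000004400000000000000000004024000010400400000 := rS 0x8ff324c09bcd66625d2aa94eaad32d1 (k8 c5501 c5530 c5413 c5412 c5489 c5488 c5404 c8724 (k4 c16903 c2192 c2191 c2946 (k2 c5550 c2350 (k1 c5660 k0)))) (by decide +kernel)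
def c16905 : PP 9 3 T 0x2004000000000069000000000000000000000100040004000000100000000000000000400000000000004400000000000000000004024000010400400000 := rS 0x24ac56a275032c8b15 (k8 c5414 c459 c15659 c5680 c350 c1199 c1198 c10038 (k1 c16885 k0)) (by decide +kernel)
def c16906 : PP 9 3 T 0x40000000000000000000000100000000000000100000000000000000800200000000000000000000000000000000004000010000000000 := rS 0x1389540b0 (k4 c2189 c2190 c1093 c2927 (k1 c5651 k0)) (by decide +kernel)
def c16907 : PP 9 3 T 0x2004000000000069000000000000000000000100040004000000100000000000000000100000000000004400000000000000000004024001010400400000 := rS 0x77d92342210fded6 (k8 c16905 c5507 c1933 c5658 c458 c16906 c5450 c16904 k0) (by decide +kernel)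
def c16908 : PP 9 3 T 0x40000201000000000000000000000004000200000000000000000000000000000000000001000000000000000004000000000000010000 := rS 0x944eb065ad4929a20564ff921488d03150b8c7629ff184cfad504b47d8c70752f3acf1d3df69b23bc74b804038fc7a57 (k8 c5313 c5436 c5318 c5432 c16643 c11323 c12631 c785 (k8 c5210 c16853 c10793 c16900 c1647 c16880 c5332 c6008 (k8 c794 c5218 c5501 c16901 c15288 c5566 c5564 c12668 (k8 c15291 c16881 c5434 c5433 c5414 c5380 c9734 c9692 (k8 c16902 c5358 c12891 c12613 c16907 c12351 c9106 c1326 (k4 c16885 c350 c1093 c5651 k0)))))) (by decide +kernel)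
def c16909 : PP 9 3 T 0x40000201040000000000000000000004000200000000000000000000000000000000000000000000000000000004000000000000010000 := rS 0x2c56b0365b3592de30778f4ad57bf5526355c5567b170a047f017fa7fc63d099f4be7904b47d8cf7b9dcb9b2f0a7768c70752c74042be77e690 (k8 c16908 c5589 c16880 c5313 c16643 c16900 c5332 c6008 (k8 c794 c16853 c5412 c5456 c5210 c11323 c785 c10793 (k8 c1647 c5218 c5501 c16901 c1535 c10245 c5566 c5564 (k8 c5436 c12668 c15291 c5544 c5502 c5318 c5380 c12679 (k8 c16881 c5532 c5414 c5413 c9754 c5489 c5405 c5406 (k8 c5490 c5669 c16889 c5663 c15912 c5494 c5495 c1755 (k4 c2516 c2515 c9422 c3623 k0))))))) (by decide +kernel)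
def c16910 : PP 9 3 T 0x40000201000000000000000000000004000200000000000000000000000000000000000000000000000000000004000000000000010000 := rS 0xcb4d099be40ac9ff242548357c69f04b458fec0733e963ad90a4471d7ba04267dda6747e070b8c47a772b97009b1 (k8 c16881 c16643 c11323 c5313 c785 c5436 c5434 c5433 (k8 c5432 c5318 c16880 c16853 c5566 c5564 c5380 c10793 (k8 c12631 c9734 c9692 c5210 c16900 c5332 c1647 c6008 (k8 c5218 c794 c5501 c16901 c15291 c12668 c15288 c16908 (k8 c10165 c16909 c5358 c12891 c12613 c2948 c5651 c16907 (k2 c1327 c350 k0)))))) (by decide +kernel)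
def c16911 : PP 9 3 T 0x40000201040000000000000000000004000200000000000000000040000400001000004000000000000000000000000400004000000200 := rS 0x1c69b70a87c5e02f010de9d8aa6567b4 (k8 c16853 c5532 c5530 c5414 c5412 c5565 c16643 c312 (k4 c16887 c5813 c1121 c5460 (k2 c5536 c5466 (k1 c3620 k0)))) (by decide +kernel)
def c16912 : PP 9 3 T 0x40000201000000000000000000000004000200000000000000000000000000000000000000000000000000000000000000000000010000 := rS 0x1e0c07b6397dc2a0f182726b54f87c762465d29be270791c9359f9928526340c4c266f3ea641a21059b76804ce95c72070b8dc7bb1 (k8 c16881 c5436 c5435 c5433 c5432 c5317 c5313 c16880 (k8 c16643 c16853 c5529 c717 c5528 c315 c5530 c5566 (k8 c5565 c5564 c5382 c5380 c9754 c9692 c16910 c5546 (k8 c5342 c192 c191 c12627 c353 c2510 c6008 c9148 (k8 c5651 c5332 c5517 c2756 c1094 c15376 c16911 c12668 (k8 c5680 c9214 c1121 c9140 c15912 c5663 c3568 c1577 k0)))))) (by decide +kernel)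
def c16913 : PP 9 3 T 0x80000210000000000000000000000000000000001000000000000000000000000450000050000000400000200004000400000100000620 := rS 0x22091ac47a53541e343a0a4467d47a7d96b1 (k8 c5421 c5420 c5572 c5568 c5566 c9734 c9692 c421 (k8 c420 c471 c1532 c6008 c5779 c16699 c8534 c1764 (k1 c2968 k0))) (by decide +kernel)
def c16914 : PP 9 3 T 0x2001000000000000000210040000000000000200000000000200000000000000000000000040000005001551000000410004000000000400000000000100 := rS 0x66b24f0613d9f8fa571f81c7ad1 (k8 c5501 c5436 c5432 c5318 c5313 c5566 c9764 c14795 (k4 c728 c5669 c10162 c2386 (k1 c8724 k0))) (by decide +kernel)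
def c16915 : PP 9 3 T 0x44005000000000000000010040000000000000100040004000000000000001000000100014000000005001550000100400004000004444404000000000000 := rS 0x64b34c2e23db7da648 (k8 c5660 c15747 c2947 c15912 c5691 c10425 c2624 c10162 (k1 c3617 k0)) (by decide +kernel)
def c16916 : PP 9 3 T 0x44005000000000000000201040000000000000000040004000200000000000000000000000000000000000400000000010000000004440400000000000100 := rS 0x3ab17be5e64bd4c2903f5612efd4aaa764637ba755699da0cc0e373b97362f34396dc2811f8f58e0e0215c267d68b3fd99d (k8 c16880 c5218 c5543 c5501 c5566 c5564 c5313 c16643 (k8 c6008 c794 c5436 c5318 c5380 c12679 c11445 c11253 (k8 c446 c16881 c11323 c785 c5435 c5432 c5316 c16853 (k8 c5530 c5413 c5412 c10793 c9754 c5210 c5489 c5488 (k8 c5405 c5404 c16915 c9764 c16914 c728 c10333 c10162 (k4 c5663 c9979 c1629 c15646 (k1 c5668 k0))))))) (by decide +kernel)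
def c16917 : PP 9 3 T 0x4000000000080000201040000000000000000040004000200000000000000000000100000000000000400000000000000000004000400000000000000 := rS 0xd366f8133b138a7d96093b95c166d10a552eaf56b3dffef55fcd67015891e3a5c0210e05ecceeca2bb4 (k8 c16853 c5414 c5210 c16880 c5218 c11235 c1936 c16643 (k8 c11323 c12631 c2350 c5421 c5502 c5532 c14538 c5413 (k8 c13184 c5544 c5543 c5490 c5406 c5404 c5488 c5528 (k8 c5529 c717 c5313 c785 c16913 c5420 c5572 c5571 (k4 c16881 c5530 c16916 c5537 (k2 c15373 c16843 k0)))))) (by decide +kernel)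
def c16918 : PP 9 3 T 0x4000000000080000201040000000000000000040004000200000000000000000000100000000000000000000000000000000004000400000000000000 := rS 0x2b2493fb78c0e32ff853447f9c0a02e163fb01c638ea04267d1f81c7bb138ac56a093b95f3a0b36acc4315da17008954babd5bb2 (k8 c5210 c5490 c5406 c5404 c5488 c16643 c11323 c16853 (k8 c5414 c5528 c5532 c5529 c717 c16880 c5313 c785 (k8 c16913 c5422 c5421 c5571 c16881 c5436 c5432 c5318 (k8 c5566 c5564 c5380 c12631 c9754 c6008 c5218 c794 (k8 c12679 c5502 c11235 c14538 c2350 c16917 c5536 c10735 (k4 c2621 c5663 c5691 c728 (k2 c2946 c9764 (k1 c5660 k0)))))))) (by decide +kernel)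
def c16919 : PP 9 3 T 0x40000000000000000000000000000000000000000000000000200000000000000000000000000000000000102000110010002000004000400000000055500 := rS 0xdf3d384fe796395c723f038dfc63d (k8 c5436 c12668 c5435 c5432 c5318 c5317 c5313 c3852 (k4 c1577 c728 c12655 c3568 (k2 c2948 c15912 k0))) (by decide +kernel)
def c16920 : PP 9 3 T 0x201040000000000000000000004000200000000000000000000000000000000000000000000000000000004000400000000010000 := rS 0xe8d2efb5dc7e14d37d267b50b14bcc930b4521f30787e94191198cb681899bd128f4ea641a390bec4e29f65ad7c6133eb5413b6ce82cdab310c5768954babd5bb23bc74b804038fc7a57 (k8 c5313 c5436 c5318 c5432 c16643 c11323 c12631 c785 (k8 c5210 c5490 c5406 c5404 c5488 c16853 c5414 c5528 (k8 c5532 c5529 c717 c16880 c16912 c16913 c15288 c5566 (k8 c5564 c12668 c5422 c5420 c5572 c5571 c16881 c5433 (k8 c5317 c315 c5530 c5412 c5568 c5567 c5565 c5382 (k8 c5380 c11445 c9754 c9734 c9698 c16918 c5517 c5329 (k8 c16779 c12647 c9793 c16919 c10162 c5663 c1629 c1121 (k8 c1686 c1516 c2949 c6193 c5536 c2621 c10298 c9031 (k2 c10481 c5668 (k1 c1969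 k0)))))))))) (by decide +kernel)
def c16921 : PP 9 3 T 0x80000201000000000000000100040004000000000000000000000000000000000000000000000000000000000005000000000000000000 := rS 0x1ecd9474b804da67562b5 (k8 c5422 c5421 c16880 c16853 c16643 c11323 c12631 c5210 (k2 c5218 c16885 k0)) (by decide +kernel)
def c16922 : PP 9 3 T 0x201000000000000000000000004000200000000000000000000000000000000000000000000000000000004000400000000010000 := rS 0x4707d289240ac9ff240956abd2e95d9204267d8aacc1a21059b7699d1f81c7a772b97009b6 (k8 c16912 c16643 c11323 c5313 c785 c5436 c5432 c5318 (k8 c16880 c16853 c5529 c717 c5528 c315 c5532 c5414 (k8 c5566 c5564 c5380 c5210 c5488 c5404 c5406 c5490 (k8 c16913 c16920 c5358 c12891 c12613 c511 c16921 c5329 (k2 c5520 c15376 k0))))) (by decide +kernel)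
def c16923 : PP 9 3 T 0x201000000000000000000000004000200000000000000000000000000000000000000000000000000000004000000000000010000 := rS 0x564927f6f180f45fc99e7c64323827e702f7c05a2e163fb01ccff0d2c74974aaa764638ebdd02133ea7557154cacf699d1f81c7a772b97009b138ac56bb6 (k8 c16912 c5422 c5421 c5571 c16881 c16643 c11323 c5313 (k8 c785 c5436 c5432 c5318 c16880 c16853 c5532 c5530 (k8 c5414 c5413 c5412 c5566 c5564 c5380 c10793 c12631 (k8 c9754 c5210 c5489 c5488 c5404 c16922 c5332 c5456 (k8 c1647 c6008 c5218 c794 c12679 c5501 c5502 c13184 (k8 c11235 c14538 c16901 c2350 c1936 c12668 c1535 c15724 (k8 c10245 c10869 c5663 c15912 c728 c2946 c9764 c16921 k0))))))) (by decide +kernel)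
def c16924 : PP 9 3 T 0x400000000000000a8000200000000000000000000000000000000000000004000000040000000000000000000000000400000200000000400000000000220 := rS 0x633859ed6f1b45aac91a1d0bcad57a5d2b133ea7d96b1 (k8 c5421 c5420 c5572 c5566 c5382 c5488 c5404 c5406 (k8 c5490 c312 c421 c420 c1118 c1532 c1704 c6616 (k4 c16699 c1770 c1720 c16901 (k1 c9140 k0)))) (by decide +kernel)
def c16925 : PP 9 3 T 0x20000000000000a8000000000000000000000000000004000000100000000010000000000000000000000000000000000000000008000000000000000000 := rS 0x2191605ef79aae2b59 (k8 c5342 c5414 c5413 c5540 c13184 c11235 c460 c1935 (k1 c5658 k0)) (by decide +kernel)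
def c16926 : PP 9 3 T 0x1000000000000000000011000000000000000000000000000000000400000000000000000000000000000000004000000000000008200000000000001000 := rS 0x42a0e04f2 (k4 c460 c461 c2390 c2629 (k1 c5672 k0)) (by decide +kernel)
def c16927 : PP 9 3 T 0x400008000000000a8000000000000000000000100000004000000100000000000000040000000000000000000000000000000000000100001000000000000 := rS 0x2135bdead57a5dfa954fb2d62b5 (k8 c5422 c5421 c5420 c5572 c5488 c5405 c5404 c5406 (k4 c5490 c11257 c8572 c5658 (k1 c1933 k0))) (by decide +kernel)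
def c16928 : PP 9 3 T 0x201000000000000000000000004000200000000000000000000000000000000000000000000000000000000000000000000010000 := rS 0x2f98524784db1fc1df22fb413937a8ee941f6fbfc1e4724d67e64a5aedb64191198d0e5b8ec4d3a9906884166dda67472070b8c46e772b97009b1 (k8 c16881 c16643 c11323 c5313 c785 c5435 c5434 c5433 (k8 c5432 c5317 c16880 c16853 c5529 c717 c5528 c315 (k8 c5530 c5412 c5382 c12631 c11445 c11253 c9754 c9734 (k8 c9698 c5210 c16912 c5422 c16923 c5546 c5342 c192 (k8 c191 c12627 c2569 c2510 c2590 c6008 c5332 c5519 (k8 c15376 c16924 c16925 c16926 c16927 c5185 c5535 c5536 (k4 c15597 c6193 c1577 c1516 (k1 c5663 k0)))))))) (by decide +kernel)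
def c16929 : PP 9 3 T 0x201000000000000000000000004000200000000000000000000000000000000000000000000000000000000000000000000000000 := rS 0x689e58e8448182019381fb7e6092fbd4769f65fbdfed56bac48f4a2489114420784362771e8dc6217038e4aead57a5d2a2931970b21dd921cb66f47aae2a9959834420b36ed0099d (k8 c16880 c16643 c16853 c5529 c717 c5528 c315 c5532 (k8 c5530 c5414 c5413 c5568 c5565 c11445 c11253 c5210 (k8 c5486 c313 c11323 c9754 c9692 c5488 c5404 c5406 (k8 c5490 c5313 c5317 c5432 c5433 c5434 c5435 c5436 (k8 c785 c16881 c16928 c10107 c826 c825 c720 c3027 (k8 c6008 c5779 c1932 c1933 c2778 c2780 c5583 c1090 (k8 c2756 c5332 c5519 c16700 c16699 c15208 c15673 c1935 (k8 c15679 c5694 c5663 c3068 c3069 c3852 c1577 c9793 (k1 c5745 k0))))))))) (by decide +kernel)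
def c16930 : PP 9 3 T 0x200000000000002a000000000000000000000000040000000100000000000000000000000000000000000000000000000000000000000504000000000000 := rS 0x6cccf0f7d36c94ba55529d55a65a2cf (k8 c5543 c5501 c5530 c5413 c5412 c5489 c5488 c5404 (k4 c5396 c5397 c10390 c14406 (k2 c8710 c5654 (k1 c2330 k0)))) (by decide +kernel)
def c16931 : PP 9 3 T 0x2001000000000001000000000000000000000000040000000100000000000000000000000000000005001150000000000000000000000504000001000000 := rS 0x1929b66a4c6cd1 (k4 c5501 c5654 c9007 c2330 (k2 c2328 c10198 (k1 c8724 k0))) (by decide +kernel)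
def c16932 : PP 9 3 T 0x9000200000000000000000200000000000000001000014000000000001000000404000408000040000000004000000020000001010140 := rS 0xd265a7fc63e208f4267d (k8 c5566 c5564 c5560 c5340 c9764 c15669 c2879 c1753 (k2 c442 c15373 k0)) (by decide +kernel)
def c16933 : PP 9 3 T 0x40000201000000000000000000040004000000000000000000000000000000000000000000000000000000000004000400000000010000 := rS 0x238f121e270d64689218b23e7df66a6cf7e0d881c72332b9fcf3927fb3e02d1f60392e9554ec8325c099f53aab8aa6567b4ce8265204 (k8 c16643 c16929 c16665 c16880 c16853 c5532 c5530 c5414 (k8 c5413 c5412 c5566 c5564 c11323 c9698 c5210 c5489 (k8 c5488 c5404 c6008 c5218 c5501 c5502 c5543 c5544 (k8 c15876 c5441 c5358 c5353 c383 c393 c15664 c16930 (k8 c16931 c5457 c5536 c5537 c16230 c11668 c14406 c1915 (k8 c10198 c5653 c16932 c5460 c5226 c12577 c15669 c2784 (k1 c10315 k0))))))) (by decide +kernel)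
def c16934 : PP 9 3 T 0x201040000000000000000000004000000000000000000000000010000000000000000000000000000000000000000000000000000 := rS 0x3bdb07eecb6929 (k4 c16929 c16853 c5210 c5405 (k2 c5209 c5214 (k1 c13565 k0))) (by decide +kernel)
def c16935 : PP 9 3 T 0x200000000000006a000200080000000000000100000004000100000000000000000000000000000000000000000000000000000000000000010000010140 := rS 0x1e21ef7fde133ea64fe57 (k8 c5353 c5358 c5530 c5566 c5564 c15871 c10390 c16761 (k2 c5166 c15669 k0)) (by decide +kernel)
def c16936 : PP 9 3 T 0x60000000000000000000000000000000000000000000015000000000000000000051000000000000000000000004080000010000000000 := rS 0x2d6062458aae2ab3 (k8 c5532 c5414 c5413 c1932 c5252 c1936 c1095 c3623 k0) (by decide +kernel)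
def c16937 : PP 9 3 T 0x1400000000001000000000000000000000000000004000100000000000010000000014000000005001150000000000000000000000014000051000000 := rS 0xcd4db246016 (k4 c11149 c5653 c1065 c1066 (k2 c1916 c8710 k0)) (by decide +kernel)
def c16938 : PP 9 3 T 0x2000000000000068000200080000000000000000080004000100000000004000000000010000000000000000000000000000200004000400000000010020 := rS 0x117ded5ef0d4863cf16c7c35903b3e02ad57a5dfa1d4aaa4521946c7502133ea253aab4c834420b368243e0f1bbd58e793f9d46657 (k8 c5353 c383 c5440 c5358 c5441 c5357 c5519 c5518 (k8 c5329 c5517 c16665 c5529 c717 c5528 c315 c5530 (k8 c5413 c5412 c5567 c5566 c5564 c5380 c12631 c12629 (k8 c9698 c9692 c5489 c5488 c5486 c5405 c5404 c5406 (k8 c5490 c5502 c5543 c15675 c16681 c15597 c16935 c5226 (k8 c15669 c16936 c1624 c16937 c5454 c8993 c2970 c5658 k0)))))) (by decide +kernel)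
def c16939 : PP 9 3 T 0x40000000000000042000200080000000000000000080000000100000000000000000040000000000000000000000000000000000004000000000000011420 := rS 0x1e9c359f181c7a6114a04267d0483cfe57 (k8 c5353 c5358 c5329 c16665 c5566 c5564 c5380 c9692 (k8 c5445 c16761 c713 c15669 c16681 c16773 c15503 c15912 k0)) (by decide +kernel)
def c16940 : PP 9 3 T 0x1001400000000061000000000000000000000000000004000100000000005010000000054000000051000050000000000000000004002004010051000000 := rS 0x10a0234662755699 (k8 c5530 c5413 c5412 c5688 c16937 c2077 c1624 c16936 k0) (by decide +kernel)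
def c16941 : PP 9 3 T 0x201000000000000000000000004000000000000000000000000018000000000000000000000000000000000000440000000004040 := rS 0x420e4b21dd921cb60b36ed33a0994b1cf2332be48b804 (k8 c16643 c11323 c16934 c5353 c383 c5441 c5357 c16929 (k8 c16665 c16880 c16853 c5529 c717 c11445 c11253 c5210 (k4 c5486 c313 c2559 c11551 (k1 c5745 k0)))) (by decide +kernel)
def c16942 : PP 9 3 T 0x40000201000000000000000000000004000000000000000000000000000000000000000000000000000000000004000400000000010040 := rS 0x10c8a8af7b558bde678f1a6d7f1786b2ad57a5dfa1d4aaa4521946c75027d448243e377ab1cf2751995fdaff4397365b16f9ff24d14804d1f132dfcc1f9da54a4166d068876804 (k8 c16643 c16853 c5528 c315 c5529 c717 c16929 c16933 (k8 c16880 c5329 c16779 c11445 c5382 c5568 c5564 c12647 (k8 c9793 c16934 c5358 c2948 c16939 c5210 c11323 c11253 (k8 c3009 c16938 c5353 c383 c5440 c5441 c5357 c5519 (k8 c5518 c5517 c16665 c5567 c5566 c5380 c12631 c12629 (k8 c9698 c9692 c5489 c5488 c5486 c5405 c5404 c5406 (k8 c5490 c16681 c15597 c5226 c5465 c5579 c15669 c16941 (k8 c16940 c5451 c5454 c8993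 c10339 c2970 c2774 c5658 k0)))))))) (by decide +kernel)
def c16943 : PP 9 3 T 0x40000201000000000000000000000004000000000000000000000000000000000000000000000000000000000004000400000000010000 := rS 0x26d9acf64858600668a41ea370787e94977ea5553b20c96cb91309a3d3aab4c834420b36ed0099d (k8 c16880 c16643 c16853 c5529 c717 c5528 c315 c5530 (k8 c5413 c5412 c5568 c5564 c5382 c11323 c11445 c9698 (k8 c5210 c5489 c5488 c5405 c5404 c16933 c5517 c5329 (k8 c5518 c5519 c12647 c9793 c16942 c822 c714 c1915 (k4 c1473 c1916 c1066 c3617 k0))))) (by decide +kernel)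
def c16944 : PP 9 3 T 0x42000201000000000000000000000004000000000000000000000000000000000000000000000000000000000000000800000000010000 := rS 0xd71a1047bdff7ec85281099f5320919bdcb807059b76804c9786523168fb2979d (k8 c16880 c5332 c5218 c5501 c1678 c16929 c5456 c5215 (k8 c16643 c16853 c5529 c717 c1675 c11323 c10793 c492 (k8 c16665 c5530 c5566 c5564 c5380 c9692 c5210 c15871 (k4 c10390 c16761 c15626 c5653 (k2 c1763 c15624 k0))))) (by decide +kernel)
def c16945 : PP 9 3 T 0x2000000000000028000000000000000000000000000000000000000000000000000080400000001000020000000000000000000000000000000000000000 := rS 0x40d62ad57bf552ab8aace02ff (k8 c5544 c5502 c5532 c5414 c5413 c5489 c5405 c5406 (k4 c5490 c1198 c2517 c3623 k0)) (by decide +kernel)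
def c16946 : PP 9 3 T 0x2000000000000069000200000000000000000000000004000100100000000000000000000000000000000008000040000000000000001800000001010140 := rS 0xb064c0fbc356b2d540de4fb2c7c41ac78d5aaf7e8752aa9099f557155995c2e9d80bfc62d1 (k8 c5501 c1678 c5544 c5502 c5412 c1676 c10737 c5532 (k8 c5414 c5413 c5566 c5564 c5489 c5488 c5486 c5405 (k8 c5406 c5490 c15669 c5226 c5340 c9764 c1753 c2879 (k8 c495 c327 c2515 c16945 c1763 c11149 c14614 c5494 (k2 c3623 c9422 k0))))) (by decide +kernel)
def c16947 : PP 9 3 T 0x40000201000000000000000000000004000000000000000000000000000000000000000000000000000000000004000000000000010000 := rS 0x162b512126b23c496c4ff92f601fc34b1b8eb64290c88e3a5c4e82cdbb4ce8265204 (k8 c16643 c16929 c16665 c16880 c16853 c5529 c717 c5412 (k8 c11323 c12631 c9734 c9698 c9692 c5210 c16943 c153 (k8 c5332 c5456 c1675 c5218 c5215 c5358 c16944 c12293 (k4 c16946 c5560 c3031 c1570 (k2 c9106 c1093 (k1 c16885 k0)))))) (by decide +kernel)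
def c16948 : PP 9 3 T 0x100000004000000100000080010000000000000000000000000000000000000000000100000000000000000 := rS 0x87ef (k2 c5508 c1935 (k1 c5658 k0)) (by decide +kernel)
def c16949 : PP 9 3 T 0x40000201000000000000000000000004000000000000000000000000000000000000000000000000000000000000000000000000010000 := rS 0x4245241086b41fb601035aac4e2457a87c494a13bfc1f59252b55efd54ec8527388a1cb71d2e012266f44a3d571510acf699d (k8 c16880 c16853 c5532 c5528 c5414 c5413 c5568 c5567 (k8 c5565 c5382 c16643 c11323 c12631 c11445 c11253 c9728 (k8 c9718 c9692 c5210 c5489 c5405 c5406 c5490 c16947 (k8 c5342 c12627 c2569 c353 c6008 c5651 c5517 c5519 (k8 c2968 c2754 c1093 c1094 c16948 c3623 c5502 c1977 (k4 c11575 c5672 c8385 c849 (k2 c15226 c2774 k0))))))) (by decide +kernel)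
def c16950 : PP 9 3 T 0x400020000000000a9000000000000000000000000040004000100000000014000000000004000000000000000000150000000004004400004000001050140 := rS 0x6a3e18b4c7ac8eff8d9a9b70aae2a9959a7d9641 (k8 c10205 c5420 c5572 c5532 c5530 c5414 c5413 c5460 (k8 c5536 c5537 c6706 c16230 c14406 c10315 c15373 c1915 (k2 c12613 c442 (k1 c5653 k0)))) (by decide +kernel)
def c16951 : PP 9 3 T 0x201000000000000000000040004000000000000000000000000000000000000000000000000000000000004000000000000010000 := rS 0x1f2487a3af081c82391991f62573ffce05927fb3e02d1f60392e9554ec832238e97102133ea7557154cacf699d04ca408716589d63b6 (k8 c16949 c5421 c5570 c5420 c5571 c16643 c16929 c16665 (k8 c16880 c16853 c5532 c5530 c5414 c5413 c5412 c5566 (k8 c5564 c5380 c11323 c12631 c9734 c9698 c5210 c5489 (k8 c5488 c5404 c6008 c5218 c5501 c5502 c5543 c5544 (k8 c15876 c11235 c14538 c5358 c5353 c12830 c2350 c383 (k8 c393 c10205 c15664 c16950 c16931 c1681 c12293 c12613 (k1 c326 k0))))))) (by decide +kernel)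
def c16952 : PP 9 3 T 0x201000000000000000000000004000000000000000000000000000000000000000000000000000000000004000000000000010000 := rS 0x848a4220e01ed81bfc8a90ac8908ef507d295efd54ec852234396e3a5c8984d128f55c55660d1082cdbb40267563b6 (k8 c16949 c5421 c16880 c16643 c16853 c5529 c717 c5528 (k8 c315 c5532 c5414 c5413 c5568 c5567 c5564 c5382 (k8 c11323 c12631 c11445 c11253 c9734 c9692 c5210 c5489 (k8 c5405 c5406 c16951 c5329 c5519 c5520 c8534 c9399 (k8 c12647 c2968 c3009 c16948 c10275 c8604 c1977 c5672 (k2 c849 c15226 (k1 c2774 k0))))))) (by decide +kernel)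
def c16953 : PP 9 3 T 0x201000000000000000000000004000000000000000000000000000000000000000000000000000000000000000000000000010000 := rS 0x848a48210d6838040c8bed7ad29fe0fac9296ab138ed95efd54ec8e7114396e3a5c899bd128f55c55660d10ed0099d (k8 c16880 c16643 c16853 c5528 c315 c5532 c5414 c5413 (k8 c5568 c5567 c5565 c5382 c11323 c12631 c11445 c11253 (k8 c9728 c9718 c5210 c5489 c5405 c5406 c16949 c5571 (k8 c5421 c5422 c16952 c5342 c12627 c2569 c6008 c5519 (k8 c16925 c16926 c16948 c8604 c1977 c11575 c5672 c8385 (k2 c849 c15226 (k1 c2774 k0))))))) (by decide +kernel)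
def c16954 : PP 9 3 T 0x201000000000000000000000004000000000000000000000000000000000000000000000000000000000000000000000000000000 := rS 0x1c85d25b1659eda26b66b5d08906fa0e0103f68cd42d3f9bd476573f9e58e5f71b3fdeff5891e959213890e08a2103eb21094e74160d59a64da218aaad3bb447a252efd4aaa764011486622632e21cb604 (k8 c16643 c11445 c11253 c11323 c9754 c9728 c9698 c9692 (k8 c53 c5210 c5489 c5488 c5405 c5404 c5567 c5568 (k8 c16853 c5412 c5413 c5414 c5528 c5529 c5530 c5532 (k8 c315 c717 c16880 c16929 c16953 c5558 c10107 c826 (k8 c825 c719 c720 c2859 c16790 c6008 c5779 c1932 (k8 c2780 c5583 c10436 c5731 c5439 c5357 c5441 c5358 (k8 c5353 c5332 c5519 c15208 c2938 c2929 c383 c15673 (k8 c1935 c5694 c1977 c4905 c3068 c3069 c2146 c2077 (k8 c11575 c9793 c848 c10216 c13168 c15478 c55 c9515 (k1 c11799 k0)))))))))) (by decide +kernel)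
def c16955 : PP 9 3 T 0x2000000000000012000001000000000000000000040004000200000000000000000000000000000000000000000000000000000000000400000000000000 := rS 0x3318a9d6308412994db2526974a88dee0d419ad53b2889ecf2ab68bcd9e390385cee57c98df380f05a14b804 (k8 c16643 c11323 c5541 c823 c9737 c5211 c5435 c6200 (k8 c5313 c785 c5433 c5432 c5317 c5543 c5540 c5501 (k8 c5500 c5524 c5372 c9728 c5210 c5489 c9672 c8722 (k8 c9673 c10793 c9734 c5488 c5404 c5444 c5396 c5397 (k8 c5447 c311 c15251 c3568 c5855 c838 c8724 c8354 k0))))) (by decide +kernel)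
def c16956 : PP 9 3 T 0x2000000000000010000000000000000000000000040000000000000000000000000000000000000001000050000000000000204000000400000000000220 := rS 0x66a753699649d1245e419ae2279ce2ada277 (k8 c785 c5501 c5500 c5211 c5524 c9728 c9672 c8722 (k8 c312 c311 c421 c1118 c1520 c10735 c1694 c1967 (k1 c8724 k0))) (by decide +kernel)
def c16957 : PP 9 3 T 0x2000000000000011000000000000000000000000040000000200000000000000000000001100000001001050000000000004000000000400000000000500 := rS 0xd81e2fa6956d1f0a658c073c95c1a7bce03c6e39 (k8 c5317 c5435 c9737 c5211 c5372 c9673 c5313 c5524 (k8 c5432 c3568 c2439 c16865 c5501 c5500 c8724 c10734 (k2 c7393 c16869 (k1 c2315 k0)))) (by decide +kernel)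
def c16958 : PP 9 3 T 0x2000000000000010000001000000000000000000040004000200000000000000000000000000000000000000000000000000000000000400000000000000 := rS 0x930fa719ac962b1813b1c9a5d2a637b83c1a8335aa765113d9e7380b428e40e373b95cb804 (k8 c16643 c11323 c5313 c785 c5435 c5432 c5317 c5541 (k8 c823 c5211 c5524 c5372 c9728 c5210 c5489 c9672 (k8 c8722 c9673 c9737 c10793 c9754 c5488 c5404 c6200 (k8 c16955 c16956 c3568 c838 c10110 c8354 c16957 c1083 (k2 c1694 c15252 k0))))) (by decide +kernel)
def c16959 : PP 9 3 T 0x40000100000000000000000000000000000000000000000000000000440500000050010050100000250000800000000000000000000000 := rS 0xd558a2d3e6e (k4 c5666 c1523 c2978 c1147 (k2 c1533 c3618 k0)) (by decide +kernel)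
def c16960 : PP 9 3 T 0x2000000000000050000001040000000000000000040004000200000000000000000000000000000000000000000000000000000000000000000000000200 := rS 0x4ce0d350f89aecd65ec536c91a1d1245e56abd2e95d900ce68d7ba441e11069e51f9c20d6342d1679dcae5c4c8e84604 (k8 c16643 c9734 c16958 c1592 c11323 c5313 c785 c5543 (k8 c5501 c16954 c5212 c5340 c5211 c5526 c5524 c9673 (k8 c15516 c9737 c13457 c10793 c12629 c9718 c54 c5210 (k8 c5488 c5404 c5406 c5490 c312 c311 c421 c420 (k8 c1118 c10735 c5444 c1753 c10872 c1763 c5236 c5578 (k4 c5579 c16959 c2869 c15543 k0)))))) (by decide +kernel)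
def c16961 : PP 9 3 T 0x2000000000000012000001040000000000000000040004000200000000000000000000000000000000000000000000000000000000000000000000000000 := rS 0x31cbec4661b53a1e10a6d92934ba54c6f7419ad53b2889ecf39c55b4416850b9dcae5c4c8e84604 (k8 c16643 c9734 c16958 c1592 c11323 c5313 c785 c5433 (k8 c5541 c823 c5501 c5500 c5211 c5524 c5372 c9728 (k8 c5210 c5489 c9672 c8722 c10793 c9754 c5488 c5404 (k8 c5444 c5396 c5397 c340 c15252 c5855 c2315 c8724 (k4 c8354 c1629 c838 c13168 k0))))) (by decide +kernel)
def c16962 : PP 9 3 T 0x2000000000000050000001040000000000000000040004000200000000000000000000000000000000000000000000000000000000000000000000000000 := rS 0x163f2599b8e2608a97f6209d91cc46634697009a1359ed1f9c8081c2e3a (k8 c16958 c5433 c5432 c5502 c5211 c5526 c5372 c9672 (k8 c16954 c16643 c11323 c12629 c9754 c9734 c9718 c5210 (k8 c16960 c16961 c10903 c15492 c5663 c10408 c5666 c8280 (k2 c15522 c1147 (k1 c14538 k0))))) (by decide +kernel)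
def c16963 : PP 9 3 T 0x50000021080000000000000000000004000200001000000000000000000000000004000000000000000000000000000000000000000000 := rS 0xf9ac4e26e4404806737ba3f627f2b9f4ea5fd097009b2 (k8 c5210 c16643 c11323 c16954 c5439 c5440 c5442 c5313 (k8 c5358 c15535 c5526 c10793 c9718 c54 c15555 c425 (k4 c318 c2869 c1982 c15595 (k1 c15522 k0)))) (by decide +kernel)
def c16964 : PP 9 3 T 0x2000000000000050000001000000000000000000040004000200000000000000000000000000000000000000000000000000000000000000000000000000 := rS 0xd445b25a6d7509b939e26fac596710ffce29b14f9d4fe7d0497f24e3f08e8aead57a5d2bb239a373891078441a41ac68556d105a14b804 (k8 c16643 c11323 c5541 c823 c5501 c5500 c16954 c5212 (k8 c5340 c9673 c15516 c9737 c13457 c5211 c12629 c9718 (k8 c5210 c5488 c5404 c5406 c5490 c5313 c16958 c5456 (k8 c1773 c16962 c5439 c5438 c5442 c5358 c5440 c11582 (k8 c15535 c16963 c5590 c15434 c3048 c1293 c1294 c14805 (k8 c5198 c16712 c5666 c1278 c10298 c5579 c1275 c2978 (k2 c3618 c14520 k0))))))) (by decide +kernel)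
def c16965 : PP 9 3 T 0x1000000000000000200000004000000000000000000000000000000000000000001401000000000000001200000000000045000 := rS 0x22d13124691c23a10597009ef (k8 c5582 c16643 c11323 c823 c16954 c15516 c13598 c12629 (k4 c12876 c2833 c858 c5673 k0)) (by decide +kernel)
def c16966 : PP 9 3 T 0x2000000000000050000001040000000000000000040004000000000000000000000000000000000000000000000000000000000000000400000000000000 := rS 0x163f2389b910122212440f58a87c709c1bf85a6cd6aa6536c9ef6c0067311a35ee9107835066b54eca224747e702358d0aada20b429700929 (k8 c16964 c16643 c11323 c5541 c823 c5501 c5500 c16954 (k8 c5212 c15516 c5211 c5526 c13598 c9728 c5210 c5489 (k8 c9672 c8722 c9673 c9737 c13457 c10793 c12629 c9734 (k8 c9718 c54 c5209 c5214 c5396 c5397 c5447 c5454 (k8 c5495 c5496 c16230 c16753 c15342 c5654 c1083 c15397 (k8 c2474 c5650 c345 c16167 c16965 c425 c318 c2869 (k2 c15522 c1982 (k1 c15595 k0)))))))) (by decide +kernel)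
def c16967 : PP 9 3 T 0x200000000000001a000000080000000000000000040004000100000000000000000000000000000000000000000000400000000000000404000000000420 := rS 0x18acd7a8c040350f8e00fe11ba64c29b64a5dfa9511a0cd6a9889ecf2ab7997d8fdfce2159ed1 (k8 c5501 c5543 c5541 c5211 c12425 c5357 c5439 c5540 (k8 c5500 c5524 c5372 c9728 c5489 c9672 c8722 c9734 (k8 c5488 c5405 c5404 c5396 c5397 c5445 c5447 c16759 (k8 c8772 c713 c5654 c2472 c439 c5650 c5653 c2420 (k2 c1916 c1469 (k1 c16200 k0)))))) (by decide +kernel)
def c16968 : PP 9 3 T 0x2000000000001000000080000000000000000000000000100000000001000000000014000000005000150000004000000000000000404000000005420 := rS 0x64058729b (k4 c5536 c5534 c11799 c8772 (k1 c1065 k0)) (by decide +kernel)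
def c16969 : PP 9 3 T 0x400000000000000000080000000000000000000004000100000000000000000000004020000000000000000004000000000000000504000000005440 := rS 0x1a8c46c57 (k4 c5353 c11223 c1469 c1621 (k1 c5653 k0)) (by decide +kernel)
def c16970 : PP 9 3 T 0x2000000000000050000001000000000000000000040004000000000000000000000000000000000000000000000000000000000000000400000000000000 := rS 0x6435d62cb45ace249f50881aad30b0c00c98620e7c1b119f7caf9257a5dfa9554864e68d2583c1a7bce10d5bb21489422011ed6342ab68b3c16852e010ef29 (k8 c16964 c14727 c16643 c11323 c5541 c823 c5543 c5501 (k8 c5500 c16954 c5212 c5560 c53 c15516 c12632 c9692 (k8 c5210 c5490 c5252 c5211 c5372 c9673 c9737 c12639 (k8 c12629 c9718 c9698 c5489 c5488 c5405 c5404 c5406 (k8 c16966 c5353 c12425 c383 c16967 c5225 c5534 c13267 (k8 c16968 c16969 c822 c714 c1918 c1475 c1464 c1068 (k8 c1465 c11977 c2457 c858 c1760 c14204 c1766 c3618 (k1 c1915 k0)))))))) (by decide +kernel)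
def c16971 : PP 9 3 T 0x2000000000000050000001000000000000000000040004000000000000000000000000000000000000000000000000000000000000000000000000000000 := rS 0x274da170f0d043df6397d3693c96c062332bf84752905b3d0ad14beca222331bdcb804359ecf39c (k8 c5211 c5524 c5372 c9672 c16643 c11323 c10793 c9754 (k8 c9734 c9728 c5210 c5404 c5501 c5541 c5543 c823 (k8 c16964 c16970 c5456 c10737 c492 c1678 c5225 c10195 (k8 c5444 c5397 c5439 c5357 c12425 c340 c5653 c5650 (k4 c1619 c2315 c1082 c10556 k0))))) (by decide +kernel)
def c16972 : PP 9 3 T 0x40000000000000052000021040000000000000000000004000200000000000000000000000000000000000000000400000000400000000000000000000800 := rS 0x1f4267f386c806737b8947e17188dcee572e24d3ea130c548e8f08e840204 (k8 c16643 c53 c16954 c15516 c5526 c13598 c8636 c5445 (k8 c5398 c5448 c5444 c11323 c5313 c785 c5435 c5434 (k8 c5433 c5318 c12632 c10793 c9718 c54 c5210 c15522 (k4 c15517 c2869 c2871 c15534 k0)))) (by decide +kernel)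
def c16973 : PP 9 3 T 0x52000001040000000000000000040004000200000000000000000000010000000000000000000000000000000000000400000000000800 := rS 0x357c6d76f40d6bf22fb8d88cc3af7fc2ff67c053ab355c5508f40f1b15aaf4bbf52a0131bdc968335aa7651123a3f381120d6342171b9dcae5c023253699 (k8 c5447 c5397 c5396 c16643 c11323 c5313 c785 c5435 (k8 c5433 c16954 c5212 c5340 c15516 c5211 c5526 c13598 (k8 c9728 c5210 c5489 c9672 c8722 c12639 c10793 c9754 (k8 c53 c5488 c5405 c5404 c5406 c5490 c717 c718 (k8 c824 c823 c8636 c1085 c2321 c1082 c15283 c2339 (k8 c2341 c8772 c15342 c15294 c8710 c5668 c4743 c1629 (k8 c16972 c5548 c5550 c14209 c2191 c5580 c3002 c10153 k0))))))) (by decide +kernel)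
def c16974 : PP 9 3 T 0x12000021040000000000000000000004000200002000040000000000000000000004000000000000000000000000010000000000000000 := rS 0xb1d93dcb82508e840204 (k8 c16643 c53 c16954 c15516 c12632 c11323 c10793 c5210 (k2 c1294 c15482 k0)) (by decide +kernel)
def c16975 : PP 9 3 T 0x52000001040000000000000000040004000200000000000000000000010000000004000000001000000000000000000400000000000000 := rS 0x13899c165f324c5606f25a8803e9c66b152efd4a80c52731192d228335aa7651123a3c2241ac6842ec94da659e777b9718c0b1c82526043c81c6e0d3de701e57 (k8 c5313 c9737 c5211 c5372 c9673 c5435 c5432 c5524 (k8 c16643 c5444 c311 c5317 c16973 c3568 c11323 c10793 (k8 c785 c16693 c5447 c5397 c5396 c5433 c16954 c5212 (k8 c5340 c15516 c5526 c13598 c9728 c5210 c5489 c9672 (k8 c8722 c13457 c12639 c9734 c9718 c9692 c54 c5488 (k8 c5405 c5404 c838 c8354 c3617 c1083 c5855 c11945 (k8 c15251 c2627 c16974 c345 c14888 c5685 c15522 c2457 (k2 c2869 c15542 k0)))))))) (by decide +kernel)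
def c16976 : PP 9 3 T 0x52000001040000000000000000040004000200000000000000000000010000000004000000000000000000000000000400000000000000 := rS 0x2713382cbe6498aad441030fbc9ea847eec806293988dee5c25a441e0d23a3f381102106b1a1f695c6e0b (k8 c16973 c5435 c5313 c16971 c16954 c5212 c5340 c16643 (k8 c15516 c5211 c5526 c13598 c9673 c9737 c13457 c12639 (k8 c11323 c10793 c9734 c9718 c9692 c54 c5210 c5405 (k8 c16975 c2335 c5657 c2532 c2627 c5650 c11945 c16974 (k4 c345 c14888 c5685 c15522 (k2 c2457 c2869 (k1 c15542 k0))))))) (by decide +kernel)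
def c16977 : PP 9 3 T 0x1a000121040000000000000000000000000200002000040040000000000000000000000000000000000000200000010000001000000020 := rS 0xb0 (k2 c15482 c1295 k0) (by decide +kernel)
def c16978 : PP 9 3 T 0x52000001040000000000000000040004000200000000000000000000010000000000000000000000000000000000000400000000000000 := rS 0x4e2670597cc931581bc840f55a87d540bd900ce62346bdcb84b12805220f0691d1f9c088108358d0fb4ae37 (k8 c5435 c5313 c16971 c16954 c5212 c5340 c16643 c15516 (k8 c5211 c5526 c13598 c9673 c9737 c13457 c53 c12632 (k8 c12639 c11323 c10793 c12629 c9734 c9718 c54 c5210 (k8 c16973 c16976 c1085 c14841 c1924 c5650 c5657 c2627 (k8 c16977 c345 c14888 c5685 c15522 c2457 c2869 c15542 k0))))) (by decide +kernel)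
def c16979 : PP 9 3 T 0x52000001040000000000000000040004000200000000000000000000000000000000000000000000000000000000000400000000000000 := rS 0x9c4ce0b2f99262ab51040c3ef205bd5a0fdd900c527311bdcb84b12805220f0691d1f9c088108358d0fb4ae37 (k8 c5435 c5313 c16971 c16954 c5212 c5340 c16643 c15516 (k8 c5211 c5526 c13598 c9673 c9737 c13457 c53 c12632 (k8 c12639 c11323 c10793 c9734 c9718 c9692 c54 c5210 (k8 c5405 c16978 c1926 c824 c5657 c2532 c2627 c5650 (k8 c11945 c16977 c345 c14888 c5685 c15522 c2457 c2869 (k1 c15542 k0)))))) (by decide +kernel)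
def c16980 : PP 9 3 T 0xa000100080000000000000000000000000200000000000000000000000000000000000000000000000000200000000000000000000020 := rS 0x753f9f4be57 (k4 c5313 c5439 c5442 c5358 (k2 c5440 c15535 k0)) (by decide +kernel)
def c16981 : PP 9 3 T 0x80000400000000002000001040000000000000000000004000000001000014000000400002000000404001000000000000000000000000000000000000000 := rS 0xcaf137da7ef6bac1c3035aecb42c9 (k8 c5396 c16954 c5210 c5548 c5550 c5591 c14396 c2191 (k4 c5506 c2085 c12713 c5186 (k2 c6118 c5464 k0))) (by decide +kernel)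
def c16982 : PP 9 3 T 0x52000001000000000000000000040004000200000000000000000000000000000000000000000000000000000000000000000000000000 := rS 0x3e9fc1670f997d88756677dfed180bd166ab8abcd3a1e10b8d9fe11d64d329b64a4d2efd4a9cc46f74883c1a8335aa765113c91d1f9c08906b1a1f68fc2e313b95cb804 (k8 c16643 c11323 c5313 c785 c5434 c5433 c5318 c16971 (k8 c16954 c5212 c5340 c15516 c5211 c5526 c13598 c5524 (k8 c9728 c5210 c5489 c9672 c8722 c9673 c9737 c13457 (k8 c10793 c9734 c9718 c5488 c5405 c5404 c5444 c5396 (k8 c5397 c5447 c16980 c16979 c5456 c1647 c1773 c340 (k8 c5650 c5855 c2532 c15434 c1085 c2321 c5657 c15283 (k8 c1925 c2341 c15342 c3617 c10872 c8354 c1629 c16981 (k4 c15522 c16972 c16323 c2871 (k1 c15535 k0))))))))) (by decide +kernel)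
def c16983 : PP 9 3 T 0x8000000000011000001040000000000000200040004000200000000000000000000000000000000000000000000020000000000000000000000000000 := rS 0x3af7d9ccd4da658a5e6484cc2970198dee9107847420d419ad53b2889e51f9c3b95cb804 (k8 c16643 c11323 c5313 c785 c5211 c5526 c5524 c9728 (k8 c5210 c5489 c9672 c8722 c9673 c16954 c15516 c9737 (k8 c13457 c10793 c9754 c54 c5404 c10408 c2869 c10162 (k8 c5663 c1629 c1520 c10735 c8354 c15543 c5453 c1530 (k1 c5668 k0))))) (by decide +kernel)
def c16984 : PP 9 3 T 0x41000001040000000000000000000004000000002000000000000000000000000000000000000004410400000000000000000000000040 := rS 0xef350eac9629793ead57a5d2bb265b5d42d3f12c4dc73d0a34b804 (k8 c16643 c11323 c12629 c16954 c9718 c5666 c1147 c5236 (k8 c5579 c5578 c5465 c5464 c5210 c5488 c5404 c5406 (k8 c5490 c15490 c15492 c1629 c1118 c16959 c3618 c5668 (k1 c5454 k0)))) (by decide +kernel)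
def c16985 : PP 9 3 T 0x50000001040000000000000000040004000200000000000000000000000000000000000000000000000000000000000000000000000000 := rS 0x3553ec96833538f24da67c2f50f8e955f280bfe2b0358ad516b3371c5bed350b8daecbf12b55e977ea54e62346bdc968335aa765113d91d1f9c08906b1a1f68e40e772b97009b1 (k8 c16982 c16643 c11323 c5313 c785 c5432 c5317 c16971 (k8 c16954 c5212 c5340 c15516 c5211 c5526 c13598 c5372 (k8 c9728 c5210 c5489 c9672 c8722 c12639 c10793 c12629 (k8 c9734 c9718 c5488 c5405 c5404 c5406 c5490 c5236 (k8 c5464 c5465 c5466 c5578 c5579 c5580 c16983 c5666 (k8 c8280 c2978 c1148 c1147 c10681 c16984 c11835 c15060 (k8 c5685 c3623 c14209 c1085 c1924 c5456 c1592 c7393 (k8 c5657 c5679 c2500 c449 c1276 c1701 c1711 c3618 k0)))))))) (by decide +kernel)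
def c16986 : PP 9 3 T 0x50000021080000000000000000000004000200000000000000000000000000000000000000000000000000000000000000000000000800 := rS 0x2ae2a1e00bdcb8474784409a1 (k8 c16954 c16643 c15516 c5526 c13598 c11323 c10793 c53 (k4 c718 c8636 c1085 c16963 k0)) (by decide +kernel)
def c16987 : PP 9 3 T 0x50000001000000000000000000040004000200002000000000000000000000000000000000000000000000000000000000000000000000 := rS 0x3219ad5792c516f569b5d426e4e083c4df659c43ff356abd2e9554ec8e62346bdcb891f6ec4be7d4f84409e104b8c740b039ef3837c90e41a5707906b1a1 (k8 c16954 c5212 c5340 c9737 c5313 c9673 c5317 c16985 (k8 c5435 c5211 c5372 c5432 c16986 c11223 c1773 c5438 (k8 c16865 c16643 c15516 c11582 c5442 c5439 c16982 c16971 (k8 c13457 c11323 c10793 c12629 c9734 c9718 c5210 c5489 (k8 c5488 c5404 c5406 c5490 c5590 c15434 c3048 c1293 (k8 c14805 c5198 c5650 c16712 c5666 c1278 c5465 c5579 (k8 c2420 c2978 c1147 c5657 c14520 c2500 c3618 c1276 k0))))))) (by decide +kernel)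
def c16988 : PP 9 3 T 0x50000001000000000000000000040004000200000000000000000000000000000000000000000000000000000000000000000000000000 := rS 0x1e2effc996a16bb5562d3f79c4dc26441102515718e8169f3a9f4bf92d88dc0e3f1c95d5aaf4ba57640339bdcb8110203c1a7bce106b1a1 (k8 c16954 c5212 c5340 c5211 c5372 c9673 c9737 c16643 (k8 c15516 c11323 c10793 c9718 c54 c5210 c5488 c5404 (k8 c5406 c5490 c5313 c5317 c5318 c5432 c5435 c16982 (k8 c16985 c5439 c5442 c5440 c11582 c16986 c11223 c1773 (k8 c16987 c15555 c424 c425 c317 c318 c2869 c5582 (k8 c2936 c1982 c2837 c1983 c2927 c1144 c15522 c8161 (k2 c5689 c8118 k0))))))) (by decide +kernel)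
def c16989 : PP 9 3 T 0x42000001040000000000000000000004000100000000000000000000000000000000000000000000010000000000000000000000000000 := rS 0x113ef6b2c516cb372b55e974aec8e68d2e2850241ac6840e6102355a7de (k8 c5214 c5496 c5454 c16643 c5445 c713 c16954 c5212 (k8 c5340 c12653 c5398 c11323 c12629 c9718 c5210 c5488 (k8 c5404 c5406 c5490 c5666 c8797 c2978 c1147 c5982 (k2 c15107 c1984 (k1 c5673 k0))))) (by decide +kernel)
def c16990 : PP 9 3 T 0x10000000000000000000000200040000000000000000000000000000000000000000000000000000020000000004400000010440050400 := rS 0x4496a91078351f9c (k8 c5211 c5526 c9673 c9737 c13457 c11945 c15528 c756 k0) (by decide +kernel)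
def c16991 : PP 9 3 T 0x52000001040000000000000000040004000000000000000000000000000000000000000000000000000000000000000000000000000000 := rS 0xdfc239558782670058ed9acf1a95bbdb2018a446f72e12c8e8fce0440958d0ca53699 (k8 c5447 c5397 c16988 c16954 c5212 c16643 c15516 c5211 (k8 c5526 c13598 c12639 c11323 c10793 c9734 c9692 c54 (k8 c5210 c5214 c10195 c5450 c5453 c5495 c10737 c15526 (k8 c16989 c2869 c16990 c1085 c2472 c16230 c16753 c5654 k0)))) (by decide +kernel)
def c16992 : PP 9 3 T 0x52000001000000000000000000040004000000002000000000000000000000000000000000000000000000000000000400000000000000 := rS 0x1aed5ef2c517e1659b86e0b3887d5aaf4ba5764013988d1a5c4883c1a7923a3f3811d0fb413294fa85320730810bec73e95ceb92 (k8 c16991 c5440 c5353 c5442 c5357 c5439 c16643 c5445 (k8 c713 c5447 c5398 c5448 c16988 c16665 c16971 c16954 (k8 c15516 c5211 c5526 c13598 c5524 c9673 c9737 c13457 (k8 c11323 c12629 c9734 c9718 c53 c5210 c5488 c5404 (k8 c5406 c5490 c15434 c3048 c8636 c8484 c5666 c8466 (k4 c15597 c2978 c1147 c5165 (k2 c14520 c13349 (k1 c8161 k0)))))))) (by decide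 +kernel)
def c16993 : PP 9 3 T 0x52000001000000000000000000040004000000000000000000000000000000000000000000000000000000000000000400000000000800 := rS 0xe0120bfcdc2346fb399ad180a7556847a078d8977ea5553b2019cd1af72e2441e11d08101a7b47e71269f50b2536614c97d8e7d3f95f2515 (k8 c16992 c16991 c5353 c5358 c5442 c5357 c5439 c5447 (k8 c5445 c5397 c5396 c5398 c5448 c5444 c5211 c5526 (k8 c5372 c9673 c16643 c16954 c15516 c9737 c13457 c11323 (k8 c10793 c12629 c9718 c54 c5210 c5489 c5488 c5405 (k8 c5404 c717 c718 c824 c823 c1085 c1083 c15283 (k8 c1926 c2502 c3617 c4601 c2340 c1653 c11941 c1619 (k2 c15536 c15522 (k1 c2869 k0)))))))) (by decide +kernel)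
def c16994 : PP 9 3 T 0x800000000042000001000000000000000000000004000000000000000000000000000000000000000000000000110000400000000000000000000000 := rS 0x1acb145b2cdcad57a5d2bb239a34b804d0a85aad3 (k8 c5496 c5454 c5398 c16954 c16643 c11323 c12629 c9718 (k8 c5210 c5488 c5404 c5406 c5490 c5666 c8466 c2978 (k2 c1147 c5982 (k1 c13349 k0)))) (by decide +kernel)
def c16995 : PP 9 3 T 0x52000001000000000000000000040004000000000000000000000000000000000000000000000000000000000000000400000000000000 := rS 0x4ce01fef0e3c2370580c52232583c1a6b3d9e48e8fce046b1a1f6826529b03984085f6395ceb92 (k8 c16991 c5440 c5353 c5357 c5439 c16643 c5445 c713 (k8 c5397 c16988 c16665 c16971 c16954 c5212 c15516 c5211 (k8 c5526 c13598 c5524 c5372 c9672 c9673 c9737 c12639 (k8 c9734 c9692 c54 c16993 c16759 c15597 c11223 c5165 (k4 c2472 c16994 c2869 c16990 k0))))) (by decide +kernel)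
def c16996 : PP 9 3 T 0x52000001000000000000000000040004000000000000000000000000000000000000000000000000000000000000000000000000000000 := rS 0x2d7e6de240f9021359c54e01eef087c23a3a95cfe7d2fe480e614da4c062323a3f38111e906b1a1f68265204 (k8 c16643 c16988 c16665 c16971 c16954 c5212 c5340 c5560 (k8 c15516 c5211 c5526 c13598 c9734 c54 c5444 c5397 (k8 c5445 c713 c16991 c5439 c5442 c5358 c5353 c5440 (k8 c16995 c5456 c340 c5165 c5650 c16994 c15434 c2321 (k8 c2869 c751 c12613 c494 c495 c5588 c2514 c5685 k0))))) (by decide +kernel)
def c16997 : PP 9 3 T 0x50000100000000000000000000040000000000000000045040000000000000001551000000000000000000200000000000000000000820 := rS 0x202ab8abd03c0123a3f3811 (k8 c15516 c5211 c5526 c13598 c53 c718 c824 c8636 (k2 c1085 c15283 (k1 c3623 k0))) (by decide +kernel)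
def c16998 : PP 9 3 T 0x51000000000000000000000000040000000100002000000000000000500400000151004050000000000000200000011080001401010440 := rS 0x1a6a11a91192167a84926200ffcc1a7bce0ccaf92 (k8 c5209 c5353 c383 c5211 c5372 c9673 c5590 c15434 (k8 c5650 c1568 c15500 c2420 c2419 c10198 c424 c1622 (k2 c1068 c2937 (k1 c3618 k0)))) (by decide +kernel)
def c16999 : PP 9 3 T 0x50000001000000000000000000040004000000000000000000000000000000000000000000000000010000000000000000000000000000 := rS 0x1324d40120ff8c92e389aaa03f28a8d816076bb5606ff4fac56a8b65accdcaf4bbf52a193988d1af72e12d220f06a0cd6a9889e48e8fce10d5bb21489422011e906b1a104810bec73e95ceb921df836329 (k8 c16988 c16996 c5225 c5456 c5209 c5440 c5353 c5442 (k8 c5357 c9668 c16643 c16665 c16954 c5212 c5340 c5560 (k8 c53 c15516 c12632 c9692 c5210 c5490 c5252 c5211 (k8 c5526 c13598 c5524 c9728 c5489 c9672 c8722 c9673 (k8 c9737 c13457 c12639 c11323 c10793 c12629 c9734 c9718 (k8 c9698 c5488 c5405 c5404 c5406 c5666 c8280 c8466 (k8 c2978 c1148 c1147 c2815 c11835 c10681 c14520 c13349 (k8 c15501 c16997 c15597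 c16998 c15522 c15060 c3623 c5547 (k8 c5549 c5588 c8118 c1085 c12614 c5680 c1568 c317 (k1 c2928 k0)))))))))) (by decide +kernel)
def c17000 : PP 9 3 T 0x1002000000000059000100000000000000000000000004000100000000000000000000000000000000000000000000020000200000400000000000000820 := rS 0x811f81d96924c12566ab7a07952017b8447a41ac024fa396f8ccae1301a84ff92 (k8 c5209 c5358 c2929 c54 c2869 c5353 c383 c5538 (k8 c5534 c5442 c16665 c5212 c5340 c5560 c15516 c10793 (k8 c53 c5489 c718 c824 c1085 c2321 c10680 c15559 (k4 c2318 c1760 c1564 c327 (k2 c752 c12613 k0))))) (by decide +kernel)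
def c17001 : PP 9 3 T 0x50000001000000000000000000040004000000000000000000000000000000000000000000000000000000000000000000000000000000 := rS 0x2246d24aac3c0b099c3c1b194fb6b0a9d900c52237b9709691078348e8fce04409a1 (k8 c16954 c16643 c15516 c5211 c5526 c13598 c9673 c9737 (k8 c13457 c12639 c11323 c10793 c9734 c9692 c54 c5210 (k8 c5489 c5212 c16971 c16988 c16996 c5225 c16999 c2869 (k4 c17000 c16990 c1085 c10680 (k2 c2315 c12614 (k1 c755 k0)))))) (by decide +kernel)
def c17002 : PP 9 3 T 0x90000001040000000000000000000004000200000000000000000000000000000000000000000400000000000000400000000000000800 := rS 0x6277901e33f9f41312451d59ed1812653aab8aa11e81e366c8c68d7b970ae3f0385c6237d88f432250880483580989f4204 (k8 c16643 c16954 c5570 c317 c12635 c5340 c53 c15516 (k8 c12632 c9698 c5560 c13340 c5435 c5434 c5433 c5432 (k8 c5318 c5313 c11323 c10793 c12629 c9754 c5210 c717 (k8 c718 c824 c823 c8636 c1085 c1082 c2317 c16816 (k8 c1925 c2339 c15294 c10681 c2629 c421 c2981 c15494 (k4 c12668 c12613 c8305 c856 (k1 c5451 k0))))))) (by decide +kernel)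
def c17003 : PP 9 3 T 0x90000120040000000000000000000000000200000800000000000000000000000000000400000000000000800005411400011001000400 := rS 0x9c4938142e33fb7d3281079e53ecb1395c723f0385c6fb1 (k8 c13340 c5435 c5433 c5432 c5318 c5317 c5313 c5570 (k8 c5420 c5572 c5524 c9737 c1746 c1520 c2513 c15494 (k4 c15481 c1122 c5985 c3579 (k2 c13096 c1694 k0)))) (by decide +kernel)
def c17004 : PP 9 3 T 0x90000120040000000000000000000000000200000800000000000000000000000000000400000000000000000001000400000000001420 := rS 0x24be293192c1e474795f623d0c894220120d602627 (k8 c5570 c317 c12635 c5340 c53 c15516 c12632 c9698 (k8 c5560 c13340 c5313 c5526 c13598 c9737 c12639 c9754 (k4 c9692 c17003 c312 c9123 k0))) (by decide +kernel)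
def c17005 : PP 9 3 T 0x10000001040000000000000000040004000200000000000000000000000000000000000000000000000000000000000000000040000000 := rS 0x3d88468a29a8d7ef8d0e8d366a8410c52f324c27f4e2659fe11d3fc93121026d5aaf4ba54466346bdc969107834f69f65ac42fb11e8644a0120d6026273b95cb80bdb11d1f9c08e85066b54eca2204 (k8 c16643 c9728 c5210 c5489 c9672 c8722 c16954 c15516 (k8 c5211 c5526 c13598 c17001 c17002 c11323 c5313 c785 (k8 c5570 c317 c12635 c5340 c53 c12632 c9698 c5560 (k8 c13340 c5433 c5421 c5420 c5572 c5372 c9673 c9737 (k8 c13457 c12639 c10793 c12629 c9754 c9734 c5488 c5404 (k8 c5406 c5490 c7393 c5650 c12645 c344 c2571 c17004 (k8 c5456 c1647 c1592 c341 c15494 c1696 c10162 c5663 (k8 c1629 c10903 c1122 c8354 c8433 c421 c420 c5450 (k4 c1763 c3618 c1533 c1711 (k2 c858 c5688 (k1 c5541 k0))))))))))) (by decide +kernel)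
def c17006 : PP 9 3 T 0x80000001000000000000000000000004000000001000000020000000000000000004000001400400001400000000000000000000000400 := rS 0x44cde8a42c095fb239c451a5c38acd6b580989f4204 (k8 c16643 c16954 c5570 c317 c12635 c5422 c5574 c5571 (k8 c11323 c12629 c9728 c9718 c5210 c5406 c16816 c2335 (k4 c10681 c2978 c858 c3604 k0))) (by decide +kernel)
def c17007 : PP 9 3 T 0x10000001040000000000000000040004000200000000000000000000000000000000000000000000000000000000000000000000000000 := rS 0x11337a2a0485f63d4daab8abcc3c0b57bf4e68d7b971220f06a0cd6a9d94448e8fce04409a138acd6bb6 (k8 c17001 c5422 c5574 c5571 c16954 c16643 c15516 c5211 (k8 c5526 c13598 c9728 c5210 c5489 c9672 c8722 c9673 (k8 c9737 c13457 c11323 c10793 c12629 c9718 c5405 c5406 (k8 c17002 c17005 c2532 c15434 c1085 c2315 c17006 c5657 (k4 c5541 c11235 c10681 c2978 (k2 c858 c3604 k0)))))) (by decide +kernel)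
def c17008 : PP 9 3 T 0x4000000000089000100000000000000000000000000000000000000000040000000100040000000000000000000000000200000400040000000400820 := rS 0x1afef69f7d90cd67c09ff014ca75569bf045508f40f1b12efd4aaa4021159a7d96b121d602627 (k8 c5570 c317 c12635 c5561 c5421 c5420 c5572 c5574 (k8 c15516 c53 c5489 c5488 c5405 c5404 c717 c718 (k8 c824 c823 c8636 c10403 c2492 c1085 c1082 c2317 (k8 c1927 c2341 c16816 c2339 c2502 c13449 c16230 c15373 (k2 c5508 c2189 (k1 c5689 k0)))))) (by decide +kernel)
def c17009 : PP 9 3 T 0x10000001000000000000000000040004000200000000000000000000000000000000000000000000000000000000000000000000000000 := rS 0x1bff32444dc7e11d02dc2d54078cfe7d6382725b11b85c0e3f2bec8328d7b9704a014883c1a7b23a3f38111e906b01313edb4204 (k8 c16643 c16954 c17001 c5570 c317 c12635 c5340 c5560 (k8 c15516 c5211 c5526 c13598 c5372 c9673 c9737 c13457 (k8 c53 c12632 c11323 c10793 c12629 c9698 c5210 c5313 (k8 c5318 c5432 c5433 c5435 c13340 c17007 c5438 c5357 (k8 c5442 c5358 c12823 c12613 c1659 c1716 c17008 c6200 (k4 c16865 c1773 c8617 c12876 (k2 c5588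 c2946 (k1 c5691 k0)))))))) (by decide +kernel)
def c17010 : PP 9 3 T 0x90000000000000000000000000040000000100000000000000000000000000000000000100000080000000000004400500000040010020 := rS 0x63782243711a441e0d47e702627 (k8 c5570 c317 c5211 c5526 c9673 c9737 c13457 c9734 (k4 c8484 c12645 c5654 c809 (k1 c5535 k0))) (by decide +kernel)
def c17011 : PP 9 3 T 0x10000001040000000000000000040004000000000000000000000000000000000000000000000000000000000000000000000000000000 := rS 0xf436aae2af30f0e4fc7d058edade366b3c6a9950a04adedef6c00ead57bf52a8d7b970969107835066b54eca224747e7022cb20d602627db6840929 (k8 c17009 c16643 c16954 c17001 c5570 c317 c12635 c5340 (k8 c5420 c15516 c5211 c5526 c13598 c9728 c5210 c5489 (k8 c9672 c8722 c9673 c9737 c13457 c12639 c11323 c10793 (k8 c12629 c5488 c5405 c5406 c5490 c8467 c5209 c5214 (k8 c16054 c10195 c12653 c5398 c5447 c5450 c5453 c5495 (k8 c6601 c9031 c10737 c15526 c1550 c5670 c15527 c17010 (k4 c2532 c15434 c1085 c2315 (k2 c5657 c17006 k0)))))))) (by decide +kernel)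
def c17012 : PP 9 3 T 0x4000000000080000001000000000000000000000004000000000000000000000000000040000000010100000454000001400000400000000000000800 := rS 0x1e067b11aa8037b4d15ef66fb604ab8aa11e81e57ec8027331a35ee5c089c563580989f4204 (k8 c16643 c16954 c5570 c317 c12635 c5421 c5571 c15516 (k8 c11323 c10793 c12629 c9754 c9718 c53 c5210 c5406 (k8 c718 c824 c823 c8636 c1085 c16816 c5541 c2502 (k8 c5508 c10681 c2087 c2978 c9934 c1659 c856 c2634 (k2 c10805 c16843 k0))))) (by decide +kernel)
def c17013 : PP 9 3 T 0x400000000009a000000080000000000000000040004000100000000000040000000000000000000000000000000400000000004400004000040010420 := rS 0x1ace081f79c6f2f08e3da3b7ac4840ad57a5552234883c1a8f6584c4e092ba4d4207308dd8e5f3c9acf79c (k8 c5211 c5372 c9672 c5524 c5439 c5357 c16759 c5445 (k8 c713 c5398 c5444 c5353 c16665 c5570 c317 c5420 (k8 c5526 c9673 c9737 c13457 c9734 c5489 c5488 c5406 (k8 c5490 c5650 c12645 c2420 c340 c16967 c11223 c15597 (k4 c5657 c2617 c5165 c2627 (k2 c8617 c9031 (k1 c1721 k0))))))) (by decide +kernel)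
def c17014 : PP 9 3 T 0x12000001000000000000000000040004000000000000000000000000000000000000000000000000000000000000000000000000000000 := rS 0x1af7fd8310b785ea9c1d1b472ab8abcc3c3705f8c0e9930a6d42977e805ee4b4883c1a8335aa765113d9e48e8fce0447b580989f6da13b826525f639f4fe332be48b804 (k8 c16643 c11323 c17011 c5353 c383 c5358 c5442 c5357 (k8 c5439 c17009 c16665 c14727 c16954 c17001 c5570 c317 (k8 c12635 c5560 c15516 c5211 c5526 c13598 c5524 c5372 (k8 c9728 c5210 c5489 c9672 c8722 c9673 c9737 c13457 (k8 c12639 c10793 c53 c5405 c5404 c5398 c5397 c5445 (k8 c5447 c713 c15669 c17012 c16759 c17013 c2532 c15434 (k8 c1085 c2472 c2315 c5837 c10443 c17006 c5456 c1082 (k4 c1679 c5657 c15004 c1619 (k1 c5653 k0))))))))) (by decide +kernel)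
def c17015 : PP 9 3 T 0x2000000000081000001000000000000000000000004000100000000000000000000000000000000000000000450000000004000400000000000000800 := rS 0x4ca4c2c8a812ac43157a0783a95d9004328d7b8447a41ac04c4fa1048ccb804 (k8 c16643 c11323 c383 c16665 c16954 c5570 c317 c12635 (k8 c5340 c5560 c15516 c10793 c12629 c9698 c53 c5210 (k8 c5488 c5486 c718 c824 c8636 c2417 c1085 c16816 (k4 c10681 c15567 c55 c1464 (k1 c15558 k0))))) (by decide +kernel)
def c17016 : PP 9 3 T 0x2000000000000000000001000000000000000000000004000000000000000010000000000000000000000001400400000000000001000000000000045400 := rS 0x888546bdcb84708d634204 (k8 c16643 c16954 c12635 c15516 c13598 c11323 c10793 c12629 (k2 c5541 c16167 (k1 c16965 k0))) (by decide +kernel)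
def c17017 : PP 9 3 T 0x10000001000000000000000000040004000000000000000000000000000000000000000000000000000000000000000000000040000000 := rS 0x1a6a1648c02c931b01daed545c0de5ed24bd6242056abd2e950c88d1af725894029107834f29f65ac487580989c12c73a8ccb83b05f8362573f9f72529db11d1f9c08e85066b54eca2204 (k8 c16643 c9728 c5210 c5489 c9672 c8722 c16954 c15516 (k8 c5211 c5526 c13598 c17001 c17009 c17011 c5442 c5358 (k8 c5353 c17014 c5225 c17015 c5456 c11323 c383 c5440 (k8 c5357 c16665 c5570 c317 c12635 c5561 c5421 c5420 (k8 c5572 c5524 c9673 c9737 c13457 c53 c12632 c12639 (k8 c10793 c12629 c9734 c9698 c5488 c5404 c5406 c5490 (k8 c5650 c12645 c2420 c344 c17016 c5657 c2627 c859 (k8 c14520 c13349 c15501 c15597 c1568 c2419 c2535 c10198 (k2 c1068 c1918 (k1 c3618 k0)))))))))) (by decide +kernel)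
def c17018 : PP 9 3 T 0x10000001000000000000000000040004000000000000000000000000000000000000000000000000000000000000000000000000000000 := rS 0x174526204cff63d4daab8abcc421e05b4477e0d88ccae7f3ee481329208f6b01313ed88e8f3da0d239c358341e977e8752aa9d94451af72e0474204 (k8 c16643 c16954 c15516 c11323 c10793 c12629 c9728 c5210 (k8 c5489 c5488 c5486 c5405 c5404 c9737 c9673 c9672 (k8 c5211 c13457 c8722 c5372 c5526 c13598 c17001 c5570 (k8 c317 c12635 c5560 c5340 c17009 c16665 c17011 c5442 (k8 c5358 c5353 c383 c17014 c5225 c5456 c5459 c17015 (k8 c17017 c58 c2532 c15434 c1085 c2315 c17006 c5657 (k4 c5543 c11235 c16968 c10681 (k2 c1464 c15567 k0)))))))) (by decide +kernel)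
def c17019 : PP 9 3 T 0x2004000000000022000001040000000000000000000004000000000000000000000000000000000000000000000000000000000000000000000000000000 := rS 0x1dff7ecb4299 (k4 c5530 c16954 c5210 c15871 (k2 c10390 c5186 k0)) (by decide +kernel)
def c17020 : PP 9 3 T 0x1000000000000000000001040000000000000000000000000000000000000008000000000000000000000000000000000000000000000800000000000100 := rS 0xe834 (k2 c448 c15892 (k1 c1526 k0)) (by decide +kernel)
def c17021 : PP 9 3 T 0x42000001040000000000000000040004000200000000000000000000000000000000000000000410000000000000000800000000040000 := rS 0x2fb1199df68bd1e7edf1a5dfa9554ec8229d55a67683dac68462772ba7d42c94d984129367bdcb804 (k8 c16643 c11323 c10793 c1647 c5444 c311 c5445 c5397 (k8 c5396 c5398 c5448 c5313 c785 c5434 c16954 c5212 (k8 c5560 c17018 c5530 c5413 c5412 c15516 c5210 c5489 (k8 c5488 c5405 c5404 c12668 c17019 c17020 c5657 c1925 (k4 c13565 c3617 c8354 c1629 (k1 c15629 k0)))))) (by decide +kernel)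
def c17022 : PP 9 3 T 0x42000100000000000000000000000000000200000000000000000000000000000000000000000020040000000000000000000000040001 := rS 0x1b84c71658f6b03f0ba4d3ea1 (k8 c5398 c5448 c5444 c5433 c5318 c5212 c5560 c1548 (k4 c2870 c12650 c5666 c2813 k0)) (by decide +kernel)
def c17023 : PP 9 3 T 0x42000001040000000000000000040004000200000000000000000000000000000000000000000000000000000000000800000000040000 := rS 0x677da82f19f4027308ed07b58d08252604 (k8 c16643 c5444 c311 c16954 c5212 c5560 c17018 c15516 (k8 c9718 c53 c17022 c12668 c17021 c17019 c5525 c5218 k0)) (by decide +kernel)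
def c17024 : PP 9 3 T 0x1040000000000000000000000000000000000020000000000000000000000000000000000000000000000200800000000000100 := rS 0x1e5ed (k2 c5502 c3067 (k1 c17020 k0)) (by decide +kernel)
def c17025 : PP 9 3 T 0x28000020000000000000000000000000000000000000010000000000000000000100000000020000008000000000000000000000000000 := rS 0xff81ad51e8335ab55efd54aae2ab3 (k8 c5532 c5414 c5413 c5489 c5405 c5406 c5490 c5523 (k4 c5525 c5526 c1148 c1985 (k2 c2839 c3623 k0))) (by decide +kernel)
def c17026 : PP 9 3 T 0x42000001040000000000000000040004000200000000000000000000000000000000000000000000000000000000000800000000000000 := rS 0x206ff89fb01d9d80ac4dc88220495aaf7eaa764732e2ae2ab3da0252604 (k8 c16643 c5444 c311 c17018 c5532 c5414 c5413 c11323 (k8 c9718 c5210 c5489 c5405 c5406 c5490 c17023 c424 (k8 c425 c318 c1982 c17024 c17025 c6008 c5218 c12622 (k2 c5544 c1986 (k1 c8676 k0))))) (by decide +kernel)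
def c17027 : PP 9 3 T 0x1000000000000000000001040000000000000000040004000200000000000004000000000100000000000400000000000000000000000400000000000100 := rS 0x18acc633450a833c9ed9ef4ce03d2efd4aaa764f74eaad320d1082cdbb41c81c62373b95cb804 (k8 c16643 c11323 c5313 c785 c5435 c5434 c5432 c5317 (k8 c17018 c5529 c717 c5528 c315 c5530 c5413 c5412 (k8 c10793 c5210 c5489 c5488 c5405 c5404 c9180 c5218 (k8 c5657 c16693 c5372 c5524 c5525 c2335 c1925 c3568 (k2 c3617 c838 (k1 c8354 k0)))))) (by decide +kernel)
def c17028 : PP 9 3 T 0x8000000000042000100000000000000000000000000000200000000000000000000000000000000000000000000040000000000000000000000050101 := rS 0x1f47a41ac15c0e7f (k8 c5577 c5432 c5313 c5212 c5340 c5560 c17022 c15499 k0) (by decide +kernel)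
def c17029 : PP 9 3 T 0x42000001040000000000000000040004000200000000000000000000000000000000000000000000000000000000000000000000000000 := rS 0x2071307675626e4404bc4ff80fb1e61e1d82536c949ab55efd54ec802193988cb811d08113aab8a88532b3da0e42e37 (k8 c5435 c5433 c5317 c17018 c5532 c5530 c5528 c5414 (k8 c5413 c5412 c16643 c16954 c15516 c11323 c9734 c9718 (k8 c9698 c53 c5210 c5489 c5405 c5406 c5490 c5444 (k8 c5396 c5397 c311 c17026 c3578 c2532 c17027 c5502 (k8 c5544 c17019 c17028 c425 c318 c1982 c17025 c6008 (k2 c12622 c1986 (k1 c8676 k0))))))) (by decide +kernel)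
def c17030 : PP 9 3 T 0x2000000000000000000000000000000000000000040000000000000000000000000000000000000005001150000000000000204000000400000000000220 := rS 0x106ccce26d920f3a178eed1 (k8 c5501 c785 c312 c421 c471 c1118 c10735 c6008 (k2 c8724 c5525 (k1 c1967 k0))) (by decide +kernel)
def c17031 : PP 9 3 T 0x2000000000000001000021040000000000000000040004000200000000000000000000000000000000000000000000000000000000000400000000000000 := rS 0x66a6d92c52f20cc60d1082cda39038dceed10495d32ab4eed0b80454a552fb2 (k8 c5210 c5404 c5488 c5489 c16643 c11323 c17018 c5412 (k8 c5413 c5530 c5313 c17030 c5501 c785 c5435 c5432 (k8 c5317 c5529 c717 c5528 c315 c9754 c5525 c16869 (k4 c1629 c1118 c10735 c8354 (k1 c8724 k0))))) (by decide +kernel)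
def c17032 : PP 9 3 T 0x60000110000000000000000000000000000000000400000000000000000000000000000000000020000002000000000000011440040000 := rS 0x495a89d226e8a8848eb3 (k8 c5532 c16855 c5528 c5414 c1580 c10423 c2813 c1149 (k2 c13198 c12753 k0)) (by decide +kernel)
def c17033 : PP 9 3 T 0x2000000000000040000001040000000000000000040004000200000000000000000000000000000000000000000000000000000000000400000040040000 := rS 0x24d365e30c4c1d9d3e0252e9554ec852191198cb82508804089d5588533b41e906b0571c81c2e373ff8b63a1 (k8 c16954 c17029 c5236 c5577 c5435 c5433 c5432 c5317 (k8 c5313 c5212 c5340 c5560 c17018 c5530 c5528 c5413 (k8 c5412 c16643 c53 c15516 c12632 c11323 c9754 c9734 (k8 c9698 c9692 c5210 c5489 c5488 c5404 c17030 c15499 (k8 c17031 c6008 c12622 c17032 c5663 c10735 c1516 c3578 k0))))) (by decide +kernel)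
def c17034 : PP 9 3 T 0x40000000000000000001000000000000000000005001150000401000000204000000400000000000220 := rS 0xd166b3d36c91a1d0bc77 (k8 c785 c312 c421 c420 c1118 c10735 c1530 c1967 (k2 c1704 c3617 k0)) (by decide +kernel)
def c17035 : PP 9 3 T 0x40000001040000000000000000040004000200000000000000000000000000000000000000000000000000000000000400000040040000 := rS 0x49a6cbc09419e739ed4bbf52aa9d906446632e275569906884166dda010ae390385c6fb1 (k8 c17029 c5435 c5433 c5432 c5317 c5313 c16643 c17018 (k8 c5529 c717 c5528 c315 c5530 c5413 c5412 c11323 (k8 c9754 c9734 c9698 c5210 c5489 c5488 c5405 c5404 (k8 c17033 c5218 c5524 c5525 c17034 c16869 c10735 c1516 (k1 c3578 k0))))) (by decide +kernel)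
def c17036 : PP 9 3 T 0x2000000000000028000000040000000000000000040000000000000000000000000000004000000000000000000000000000204000000800000000000220 := rS 0x330f29b64b18e85e4ba55529d55a64eed1 (k8 c5501 c785 c5530 c5413 c5412 c5489 c5488 c5404 (k8 c312 c421 c16901 c1118 c10735 c93 c8724 c10872 k0)) (by decide +kernel)
def c17037 : PP 9 3 T 0x60000021000000000000000000000004000000000000014000000000000000000000000000001020000002000000000000000000000000 := rS 0x110b1459b8ea95d91cd0e5b4697009a155c54dab3 (k8 c5532 c5529 c5414 c5413 c16954 c16643 c11323 c12629 (k8 c11445 c11253 c9718 c5210 c5488 c1575 c1580 c2981 (k2 c1147 c15991 (k1 c17025 k0)))) (by decide +kernel)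
def c17038 : PP 9 3 T 0x2000000000000041000021040000000000000000040004000000000000000000000000000000000000000000000020000000004000000000000000000000 := rS 0x26d9ac52f324c2834ba5553b231a755699da1dcb80468c050aff (k8 c5544 c5541 c5502 c5501 c16643 c11323 c785 c17018 (k8 c5530 c5413 c5412 c9754 c5210 c5489 c5488 c5404 (k8 c5525 c17037 c10162 c5663 c1629 c8354 c10735 c8724 k0))) (by decide +kernel)
def c17039 : PP 9 3 T 0x2000000000000040000001040000000000000000040004000200000000000000000000000000000000000000000000000000000000000000000040040000 := rS 0x3097e267a07674f27c04ec852233189422014eed07a41ac15c0e7ff16c742cf1d3dcb804 (k8 c16643 c11323 c10793 c17035 c1647 c16954 c17029 c5236 (k8 c5577 c5432 c5313 c5212 c5340 c5560 c17018 c5412 (k8 c53 c15516 c12632 c9754 c9734 c9692 c5210 c17036 (k8 c15499 c1535 c17038 c6008 c10869 c12622 c1686 c17032 (k1 c5663 k0))))) (by decide +kernel)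
def c17040 : PP 9 3 T 0x8000000000040000001000000000000000000040004000000000000000000000000004000000000000000400400000000004000000000000000044200 := rS 0x8bf7c0088f2243422689669c136c91a1d0bcad57a5dfa9554ec8e68d4eaad320b36d608e2500acc52772e32daea169a4423a1068876804 (k8 c16643 c17018 c5528 c315 c16954 c15516 c13457 c5579 (k8 c5578 c5465 c5464 c11323 c785 c9692 c5532 c53 (k8 c12632 c16855 c5212 c5529 c717 c5530 c5413 c5412 (k8 c12629 c9718 c5210 c5489 c5488 c5405 c5404 c5406 (k8 c5490 c312 c421 c420 c1118 c10735 c16959 c1967 (k8 c2872 c755 c3617 c12876 c1705 c450 c451 c5582 (k2 c3068 c5673 k0))))))) (by decide +kernel)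
def c17041 : PP 9 3 T 0x40000001040000000000000000040004000200000000000000000000000000000000000000000000000000000000000000000040040000 := rS 0x33536c52f324c2d142bfe02f4799f0128f41e701fed678e92efd4aaa4c6f74eaad320b3690d5bb223894220159ed0523d20d600e313b95cb8043ff8b63a1 (k8 c16954 c17029 c5236 c5577 c16643 c11323 c5313 c785 (k8 c5434 c5432 c5212 c5340 c5560 c9692 c17018 c5532 (k8 c53 c15516 c12632 c16855 c5210 c5490 c5252 c5529 (k8 c717 c5530 c5413 c5412 c10793 c9754 c5489 c5488 (k8 c5405 c5404 c17035 c1647 c17039 c9180 c5218 c5525 (k8 c5526 c17040 c15499 c17020 c5657 c1927 c2341 c2335 (k8 c1925 c17037 c10162 c5663 c1629 c10735 c8354 c3617 k0))))))) (by decide +kernel)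
def c17042 : PP 9 3 T 0x40000000000000000000110000000000000000000040000000000001400015000000000000000000455000000000020000002200000000000000000000000 := rS 0x4091cb558a44dc8d (k8 c12629 c1580 c10423 c1147 c1149 c5675 c3623 c10402 k0) (by decide +kernel)
def c17043 : PP 9 3 T 0x42008000000000001000001040000000000000200040004000200000000000000000000000000000000000000000000000000000000000400000000040000 := rS 0x137de3c1d7c25e649858f13071f33a097fb3e02d156abd2efd4aaa7646308e853aab8aa6567b41e9040e772b970087f (k8 c5577 c16643 c11323 c5313 c785 c5432 c5340 c5560 (k8 c17018 c5532 c5530 c5414 c5413 c5412 c16954 c15516 (k8 c9754 c5210 c5489 c5488 c5405 c5404 c5406 c5490 (k8 c5501 c5502 c5543 c5544 c17030 c17031 c15499 c6008 (k8 c12622 c794 c17042 c10162 c5663 c14406 c15646 c10245 (k2 c8612 c10735 (k1 c15342 k0))))))) (by decide +kernel)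
def c17044 : PP 9 3 T 0x40000001040000000000000000040004000200000000000000000000000000000000000000000000000000000000000400000000040000 := rS 0x136c92f0250679ce7b7e6974aaa4c64b4eaad320d1082cda471284402b3da0a483581c81c6e772b97008e36ff8b63a179879fbb2 (k8 c5210 c5405 c17041 c2532 c16954 c17029 c5236 c5580 (k8 c5466 c16643 c11323 c5313 c785 c5435 c5432 c5317 (k8 c5212 c5340 c9692 c17018 c5532 c53 c15516 c12632 (k8 c16855 c5529 c717 c5528 c315 c5530 c5413 c5412 (k8 c12639 c9754 c5489 c5488 c5404 c14209 c17043 c5218 (k4 c5524 c5525 c17034 c16869 (k2 c1118 c10735 (k1 c17027 k0)))))))) (by decide +kernel)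
def c17045 : PP 9 3 T 0x2000000000000040000001040000000000000000040004000200000000000000000000000000000000000000000000000000000000000000000000040000 := rS 0x7ccc0e02fc4cf40ece9e4f8097fc055aaf7eaa7646308a75571559ed07a41ac15c0e7ff16c742cf1d3dcb804 (k8 c16643 c11323 c10793 c17044 c1647 c16954 c17029 c5236 (k8 c5577 c5432 c5313 c5212 c5340 c5560 c17018 c5532 (k8 c5414 c5413 c5412 c15516 c9754 c5210 c5489 c5405 (k8 c5406 c5490 c5502 c5544 c17036 c15499 c1535 c17038 (k8 c6008 c10869 c12622 c1686 c1690 c5663 c5591 c17042 k0))))) (by decide +kernel)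
def c17046 : PP 9 3 T 0x40000001040000000000000000040004000200000000000000000000000000000000000000000000000000000000000000000000040000 := rS 0x66a6d8a5e64984f80968a15ff0147a0de99c07fb59e3a798792efd4aaa4c6f74eaad320b3690d5bb223894220159ed0523d20d600e313b95cb8043ff8b63a1 (k8 c16954 c17029 c5236 c5577 c16643 c11323 c5313 c785 (k8 c5434 c5432 c5212 c5340 c5560 c9692 c17018 c5532 (k8 c53 c15516 c12632 c16855 c5210 c5490 c5252 c5529 (k8 c717 c5530 c5413 c5412 c10793 c9754 c5489 c5488 (k8 c5405 c5404 c17041 c2532 c17044 c1647 c17045 c9180 (k8 c5218 c5657 c5525 c5526 c1927 c2341 c2335 c1925 (k8 c17040 c15499 c17037 c10162 c5663 c1629 c10735 c8354 (k1 c3617 k0)))))))) (by decide +kernel)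
def c17047 : PP 9 3 T 0x2000000000000040000001040000000000000000040004000200000000000000000000000000000000000000000000000000000000000400000000000000 := rS 0x2071307675ff0156abdfaa9d92ae2ab3da6c5628809170e604 (k8 c16643 c9718 c11323 c17046 c425 c1982 c17029 c17018 (k8 c5532 c5414 c5413 c5210 c5489 c5405 c5406 c5490 (k4 c5502 c5544 c17031 c6008 (k2 c12622 c1986 (k1 c8676 k0))))) (by decide +kernel)
def c17048 : PP 9 3 T 0x40000001040000000000000000040004000200000000000000000000000000000000000000000000000000000000000400000000000000 := rS 0x5f04c010679ce7b52efd4aaa764634eaad320d1082cdbb42b8e40e37d89b9628809170e604 (k8 c16643 c9718 c11323 c17046 c425 c1982 c318 c17029 (k8 c5435 c5432 c5317 c5313 c17018 c5529 c717 c5528 (k8 c315 c5530 c5413 c5412 c9754 c5210 c5489 c5488 (k8 c5405 c5404 c17047 c5218 c5524 c5525 c17025 c17034 (k2 c8456 c16869 k0))))) (by decide +kernel)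
def c17049 : PP 9 3 T 0x2000000000000068000000000000000000000000040000000000000000000000000000000000000000000000020000008000000000000000000000000020 := rS 0x40e260ecebfe02ad57bf552ab8aacd6273 (k8 c9718 c1982 c5532 c5414 c5413 c5489 c5405 c5406 (k8 c5490 c5502 c5544 c17025 c6008 c12622 c1986 c8676 k0)) (by decide +kernel)
def c17050 : PP 9 3 T 0x40000001040000000000000000040004000200000000000000000000000000000000000000000000000000000000000000000000000000 := rS 0x417e019cf68e9626e4411025b23997009b4 (k8 c17018 c16643 c11323 c9718 c5210 c17046 c424 c425 (k8 c318 c1982 c17048 c17049 c5218 c17025 c8456 c17024 (k1 c312 k0))) (by decide +kernel)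
def c17051 : PP 9 3 T 0x2004000000000060000011000000000000000000000004000200000400000000000000002100000000000000000241020000000000000400000000000000 := rS 0x1e9be90652255bb22591c4a1100acc520420d6342e1 (k8 c1717 c16954 c5212 c5340 c16643 c9692 c5532 c53 (k8 c15516 c12632 c16855 c12639 c5210 c5490 c2872 c752 (k4 c15700 c2948 c907 c10210 k0))) (by decide +kernel)
def c17052 : PP 9 3 T 0x2000000000000020000001000000000000000000000004000000000400000000000000000000000000000000000400008000000000000000000000000000 := rS 0x206b558a2d5aaf7eaa7648d2e01342ab8aace02ff (k8 c5544 c5502 c5532 c5414 c5413 c16954 c16643 c11323 (k8 c12629 c5210 c5489 c5405 c5406 c5490 c2978 c1147 (k2 c1149 c10681 (k1 c3623 k0)))) (by decide +kernel)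
def c17053 : PP 9 3 T 0x2000000000000060000001080000000000000000000004000200000400000000000000000000000000000400000000020000000000000400000000040000 := rS 0x6632542ad4ba5552734eaad32794fb473a0b368df625cd917c1a211c98fc680088107a41ac6847e7f03824ae7d (k8 c5442 c5313 c5438 c5432 c5358 c5318 c16954 c5212 (k8 c5340 c5560 c16643 c15516 c12613 c12823 c9754 c5317 (k8 c5528 c315 c5439 c5210 c11323 c16980 c5435 c5529 (k8 c717 c16869 c5501 c11582 c5441 c5530 c5413 c5412 (k8 c9718 c5489 c5488 c5404 c5490 c2929 c11623 c8724 (k1 c17051 k0)))))) (by decide +kernel)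
def c17054 : PP 9 3 T 0x2000000000000040000001000000000000000000040004000000000400000000000000000000000000000000000000008000000000000000000000000000 := rS 0x102f72d512b145ab55efd54ec91a5c02685571559ed202ff (k8 c5544 c5502 c17018 c5532 c5414 c5413 c16954 c16643 (k8 c11323 c12629 c5210 c5489 c5405 c5406 c5490 c2978 (k4 c1147 c17049 c1149 c5673 (k2 c3623 c5508 k0)))) (by decide +kernel)
def c17055 : PP 9 3 T 0x2000000000000060000001080000000000000000000004000200000400000000000000000000000000000000000000020000000000000400000000040000 := rS 0x120de64a699480f1ab4e64b2389402b3148f483581f9f4f29f08e74166d038df63a12e6c8ae092f834423931811427f (k8 c5358 c2929 c16643 c9754 c5317 c5528 c315 c5439 (k8 c5438 c5313 c5210 c11323 c16954 c16980 c5435 c5432 (k8 c5529 c717 c16869 c15516 c11582 c5441 c5442 c5318 (k8 c5212 c5340 c5560 c9692 c5532 c53 c12632 c16855 (k8 c12639 c9718 c5490 c12823 c12613 c752 c17053 c11623 (k2 c1327 c15700 (k1 c2948 k0))))))) (by decide +kernel)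
def c17056 : PP 9 3 T 0x2000000000000040000001000000000000000000040004000200000000000000000000000000000000000000000000000000000000000400000000000000 := rS 0x12381be260ece9ccc60d1082cdbb42b8e40e372f8276392d097009b2 (k8 c5210 c16643 c11323 c16954 c17050 c16980 c5438 c5439 (k8 c5435 c5432 c5317 c5313 c17018 c5529 c717 c5528 (k8 c315 c9754 c9718 c16869 c6008 c12622 c17054 c5666 (k2 c17055 c318 k0)))) (by decide +kernel)
def c17057 : PP 9 3 T 0x2000000000000040000021000000000000000000040004000200000000000000000000000000000000000000000000000000000000000000000000040000 := rS 0x6e899c5c2cb4078ce69d3683442471284402b3da0a4083d2b8fc0e5f04b1cfa7fc9785c63a20d63427b (k8 c5372 c16954 c5212 c5340 c17056 c1773 c5456 c17050 (k8 c5358 c5442 c5357 c5438 c5439 c5432 c5318 c5313 (k8 c5560 c16643 c9692 c17018 c5532 c53 c15516 c12632 (k8 c16855 c5528 c315 c5529 c5412 c9718 c12823 c12613 (k4 c15693 c1716 c752 c8617 (k2 c5666 c17054 k0)))))) (by decide +kernel)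
def c17058 : PP 9 3 T 0x2000000000000068000000000000000000000000040000000000000000000000000000000000000000000000000000000000200000000000000000080020 := rS 0xdc88 (k2 c425 c318 (k1 c17049 k0)) (by decide +kernel)
def c17059 : PP 9 3 T 0x2000000000000040000001000000000000000000040004000200000000000000000000000000000000000000000000000000000000000000000000000000 := rS 0x6b77d98d3f7a6d61035ab27e4ca509c0df1307245ab9d4078c26e31d3fda2ad4ba55527346a75566d4cacf683d20d60ae3f03824fa7f4f8476392d097009b2 (k8 c5210 c16643 c11323 c16954 c17050 c16980 c15516 c11582 (k8 c5358 c5442 c5438 c5432 c5318 c5313 c5212 c5340 (k8 c5560 c17018 c5532 c5530 c5529 c5413 c5412 c12629 (k8 c9718 c5489 c5488 c5404 c5490 c5501 c5544 c17056 (k8 c1773 c17058 c12823 c12613 c17057 c1659 c908 c6008 (k8 c12622 c17054 c5666 c2929 c752 c10427 c11623 c5548 (k8 c5550 c15208 c1326 c5506 c2085 c8724 c15342 c5689 (k1 c2191 k0)))))))) (by decide +kernel)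
def c17060 : PP 9 3 T 0x1000000000000000000080000000000000200000000000200000000000000000400000000000000000001400004000000000000400000000000055400 := rS 0x6ffcc911370a03c63d2095c7e0704b1cfa7f (k8 c5358 c5442 c5357 c5438 c5432 c5318 c5313 c5340 (k8 c5560 c12823 c12613 c1716 c8617 c12876 c5588 c2946 (k1 c5691 k0))) (by decide +kernel)
def c17061 : PP 9 3 T 0x40000001000000000000000000040004000200000000000000000000000000000000000000000000000000000000000000000000000000 := rS 0x7de500589b910440938fc23a479ed239c07fb76209c90ddfbb2399713aab8a834420b3691c4a1100acf682902106b1a1 (k8 c16954 c5212 c5340 c16643 c9692 c17018 c5532 c53 (k8 c15516 c12632 c16855 c5529 c717 c5528 c315 c5414 (k8 c5413 c5412 c11323 c9718 c5210 c5405 c5435 c17050 (k8 c5438 c16980 c17059 c9180 c5218 c13457 c5372 c5526 (k8 c6200 c16865 c1773 c17060 c424 c425 c318 c1982 (k4 c17025 c3067 c2532 c15697 k0)))))) (by decide +kernel)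
def c17062 : PP 9 3 T 0x1000000000041000020000000000000000200040000000000000000000000000000000000000000005000000000021000000000400200000000051405 := rS 0x197e3700f891f38983d228f (k8 c5526 c5374 c5369 c755 c12233 c12876 c399 c400 (k2 c5576 c1718 (k1 c9396 k0))) (by decide +kernel)
def c17063 : PP 9 3 T 0x2000000000000040000021000000000000000000040004000000000000000000000000000000000000000000000000000000000000000400000000000000 := rS 0x8945fbcdc71698c13ea11a859923849f855e977ea55526401864e68d4eaad320d1082cda435691c4a1100acc523dac685e613d90ccae5c0203cf7df42b3da3b12fe4a53b4 (k8 c17018 c17061 c15876 c5439 c8483 c5501 c5543 c5541 (k8 c12425 c5372 c5369 c16643 c11323 c5353 c383 c5210 (k8 c17058 c5540 c16954 c5212 c5560 c9692 c5532 c53 (k8 c15516 c12632 c16855 c5490 c5252 c5529 c717 c5528 (k8 c315 c5530 c5413 c5412 c12629 c9718 c9698 c54 (k8 c15726 c5489 c5488 c5405 c5404 c5406 c16968 c9007 (k8 c16931 c10198 c5648 c439 c1068 c1465 c5653 c1918 (k4 c17062 c5666 c8847 c2978 (k2 c17049 c5673 k0))))))))) (by decide +kernel)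
def c17064 : PP 9 3 T 0x2000000000000040000021000000000000000000040004000000000000000000000000000000000000000000000000000000000000000000000000000000 := rS 0x224e137280e2cbf1a7d240771f8475b1419ce2223318453b154c82cda3d20d6342090997009b22fb1cfa7f2be4a53b4 (k8 c17018 c17061 c15876 c5353 c5358 c5442 c5357 c5439 (k8 c5210 c16643 c11323 c17058 c16665 c16954 c5212 c5340 (k8 c5560 c5529 c717 c5530 c5414 c5412 c15516 c9754 (k8 c9734 c9728 c9718 c5525 c8483 c17063 c5456 c8999 (k8 c1675 c12293 c15711 c15499 c1753 c6190 c5680 c5666 (k2 c3060 c17052 (k1 c8617 k0))))))) (by decide +kernel)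
def c17065 : PP 9 3 T 0x2000000000000040000001000000000000000000040004000000000000000000000000000000000000000000000000000000000000000400000000000000 := rS 0xc9f06c55a974aaa4669ff181c72d167a65569d0c8f4ae7d0484cb9b220d6022a1381be260ece9cc09a13fe4a53b4 (k8 c17018 c17061 c15876 c5358 c16954 c16643 c9718 c17064 (k8 c6008 c12622 c17054 c5666 c2929 c15516 c5212 c5340 (k8 c5210 c11323 c17058 c16665 c5442 c5353 c5560 c9698 (k8 c5412 c5413 c5530 c5543 c5501 c393 c15664 c15499 (k8 c15711 c383 c5489 c5488 c5404 c5490 c16930 c16931 (k2 c11623 c14406 k0)))))) (by decide +kernel)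
def c17066 : PP 9 3 T 0x2000000000000062000001000000000000000000000004000100000000000000000000000000000000014000000000000000000000000001000000440000 := rS 0xd7be6149a3742992f9f4fe332be48b804 (k8 c16643 c11323 c15876 c5353 c383 c5358 c5442 c5439 (k8 c5530 c16954 c12629 c5444 c5445 c10390 c15536 c5653 k0)) (by decide +kernel)
def c17067 : PP 9 3 T 0x2000000000000040000001000000000000000000040004000000000000000000000000000000000000000000000000000000000000000000000000000000 := rS 0x4932b62310b8e943e34f9c00e6f1cc4c1d9d2b9fcfb9209b3da3b20c9cc465c08a755699da0f48358d08265204 (k8 c16643 c17061 c16665 c16954 c5212 c5340 c5560 c17018 (k8 c5530 c5413 c5412 c15516 c11323 c9734 c9718 c9698 (k8 c5210 c5501 c5543 c17058 c15876 c5442 c5358 c5353 (k8 c17064 c6008 c12622 c393 c17054 c15664 c5666 c15711 (k8 c15499 c2929 c17065 c1676 c1678 c17066 c5680 c12293 (k1 c1753 k0)))))) (by decide +kernel)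
def c17068 : PP 9 3 T 0x40000001040000000000000000040004000000000000000000000000000000000000000000000000000000000000000400000000000000 := rS 0x80bc8908a7ac4c2689681c3bdb056bf7640346bdcb80b36d608e2500acc53294883c23a106887680441a3f39ed (k8 c17067 c5218 c5526 c5525 c16643 c17018 c5528 c315 (k8 c16954 c15516 c9180 c13457 c17061 c9692 c5532 c53 (k8 c12632 c16855 c5212 c5529 c717 c11323 c10793 c12629 (k8 c54 c5210 c5405 c5490 c5209 c5214 c16989 c13565 (k8 c2872 c2869 c755 c1926 c16034 c12876 c5657 c3068 (k1 c451 k0)))))) (by decide +kernel)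
def c17069 : PP 9 3 T 0x4000000000021000120080000000000000000000000000100000000000000000040000000000000000000000000020000000000010000000000000060 := rS 0x600b26d26ca4f86622634e9b53209359f4fe57 (k8 c5353 c5358 c5442 c5523 c16665 c5530 c5529 c5412 (k8 c9754 c9728 c9698 c15711 c6190 c1753 c1327 c5648 (k2 c10443 c1459 k0))) (by decide +kernel)
def c17070 : PP 9 3 T 0x1004000000000029000120080000000000000000040004000100000000000000000040000000000000000000000000020000200002051000000000000020 := rS 0xf7111aef267783bed569b25883003065fef7 (k8 c10793 c3007 c9698 c17069 c822 c821 c1915 c1918 (k8 c1475 c5451 c5165 c14406 c1474 c1770 c450 c5689 (k1 c5582 k0))) (by decide +kernel)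
def c17071 : PP 9 3 T 0x1000000000000028000120080000000000000200040004000100000000000000000000000000000000000000000000020000200000440400000000044020 := rS 0x1b8e5c1e11fb8d03e26f922260b368f4829108a3d8e7dd8834426b (k8 c5523 c5528 c315 c13358 c5442 c5357 c5526 c15516 (k8 c13457 c5340 c5560 c5529 c717 c755 c12876 c2947 (k8 c17070 c5463 c5466 c5576 c11976 c14235 c399 c1483 (k1 c5654 k0)))) (by decide +kernel)
def c17072 : PP 9 3 T 0x40000001000000000000000000040004000000000000000000000000000000000000000000000000000000000000000400000000040000 := rS 0x12124380f85de4a07af8e00077fc0daed54fad44eb145b2cdc7157bf552193988d1af72e12d57154c82cda4356ec88e250880566291e906b1a104ca4f6834797cfa7f2b9d763920783443b4021af39ed (k8 c17067 c5218 c5523 c16643 c17018 c5528 c315 c9180 (k8 c17068 c13358 c5440 c5353 c5358 c5442 c5439 c5526 (k8 c5525 c5372 c17061 c16665 c16954 c5212 c5340 c5560 (k8 c9692 c5532 c53 c15516 c12632 c16855 c5210 c5490 (k8 c5252 c5529 c717 c5530 c5414 c5413 c12639 c11323 (k8 c10793 c12629 c9734 c9718 c9698 c5489 c5405 c5406 (k8 c17071 c5666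 c8466 c2978 c1147 c2813 c1148 c2815 (k8 c14520 c13349 c10681 c11835 c15501 c3623 c15499 c1927 (k8 c5680 c5657 c1068 c2532 c11799 c5648 c3584 c3678 k0))))))))) (by decide +kernel)
def c17073 : PP 9 3 T 0x40000001000000000000000000040004000000000000000000000000000000000000000000000000000000000000000400000000000000 := rS 0x300593639f077dbe074fad59700f9b5daab1372208812d89d4fa5fc92bd2efd4a9ccb89d55c55320d1082cdbb421ab76429128474201024a41e7b35a3f39ed (k8 c17067 c5218 c5526 c5523 c5372 c9180 c17061 c16643 (k8 c53 c16954 c15516 c12632 c9692 c5210 c5490 c5252 (k8 c17018 c5529 c717 c5528 c315 c5530 c5414 c5413 (k8 c5412 c11323 c9718 c5488 c5405 c5404 c5406 c17068 (k8 c5439 c5442 c5440 c13358 c17072 c424 c425 c318 (k8 c1982 c2837 c1983 c15595 c17025 c1144 c1148 c2815 (k8 c15501 c4904 c8572 c5165 c5534 c5536 c11799 c10443 (k1 c1459 k0)))))))) (by decide +kernel)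
def c17074 : PP 9 3 T 0x40000001000000000000000000040004000000000000000000000000000000000000000000000000000000000000000000000000000000 := rS 0x680c50a927a6c5e65f1ae4bbccf2bf84759cf6ca52bb211bdcb89d059b76804 (k8 c16643 c17018 c5529 c717 c5412 c11323 c10793 c9734 (k8 c5210 c5488 c17061 c17067 c5218 c17073 c5456 c10737 (k8 c1647 c5165 c10195 c5450 c5439 c448 c8483 c5657 (k4 c12293 c2335 c1565 c12425 (k1 c1925 k0))))) (by decide +kernel)
def c17075 : PP 9 3 T 0x2000000000000000000001040000000000000000040004000200000000000000000000000000000000000000000000000000000000000400000000000000 := rS 0x78b623d0c894220120d602627f7aafbe3768bdde6f54844c1d9d5aa14e67188abf43f359c05628f816cb6d15da234b804 (k8 c16643 c11323 c12629 c17018 c5414 c17074 c5210 c11235 (k8 c2406 c5421 c5502 c5532 c14538 c16954 c5406 c9728 (k8 c5571 c9718 c5541 c5422 c16139 c6008 c12622 c5675 (k8 c10333 c5540 c10793 c5501 c5435 c9979 c5413 c13184 (k8 c5570 c317 c12635 c5340 c53 c15516 c12632 c9698 (k4 c5560 c13340 c5186 c17043 k0)))))) (by decide +kernel)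
def c17076 : PP 9 3 T 0x8000000080000000000000000000000000200000000000000000000014400000004001102080000044000000000011000000000050100 := rS 0x37d007f3e95c7e07 (k8 c5432 c5318 c5313 c5442 c5358 c12613 c2948 c14587 k0) (by decide +kernel)
def c17077 : PP 9 3 T 0x2000000000000000000001000000000000000000040004000200000000000000000000000000000000000000000000000000000000000000000000000000 := rS 0xfbe23cf84759337a28129044b1e260ecea3fe702f7b3d0b0168abf647388a34229d55c5532b3da1c596b15a8f483580989f6da13b95cb804 (k8 c16643 c11323 c5313 c785 c16954 c17074 c5570 c317 (k8 c12635 c5340 c5560 c5422 c5421 c5420 c5571 c17018 (k8 c5532 c5530 c5414 c5413 c5412 c15516 c12629 c9728 (k8 c9718 c5210 c5406 c5501 c5502 c5541 c5543 c13184 (k8 c11235 c14538 c2406 c16139 c6008 c12622 c794 c1986 (k8 c5675 c16901 c5673 c3038 c17076 c17075 c5456 c1535 (k2 c5188 c3041 (k1 c12668 k0)))))))) (by decide +kernel)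
def c17078 : PP 9 3 T 0x1000000000000000000001000000000000000000040004000000000000000000000000000000000000000000000000000000000000000000000000000000 := rS 0x11689f7c0088480fbc9ea8f419ad239c07bf7642911a35ee5c25894220155c55660d1082cdbb45a91eb01313edb4204 (k8 c16643 c16954 c17074 c5570 c317 c12635 c5562 c5422 (k8 c17018 c5529 c717 c5528 c315 c5532 c5414 c5413 (k8 c53 c15516 c12632 c12639 c11323 c10793 c12629 c9734 (k8 c9692 c5210 c5405 c9180 c5218 c13457 c5523 c5525 (k8 c5526 c17006 c5657 c2532 c3584 c450 c451 c5582 (k2 c2833 c3068 (k1 c5673 k0))))))) (by decide +kernel)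
def c17079 : PP 9 3 T 0x1000000000000000000040004000000000000000000000000000000000000000000000000000000000000000000000000000000 := rS 0xc2810b78dbfb137a280e90448e626573f9f4be0ec90273a8f94fce05ef67a1602d1f61047b5809ad56227659c76cb34cc55569dda2bc3a95d9064e71131a34b82508e840204 (k8 c16643 c53 c16954 c15516 c12632 c11323 c12629 c9754 (k8 c9728 c9718 c9698 c5210 c5488 c5486 c5406 c17018 (k8 c5412 c5413 c5414 c5530 c5532 c17074 c5571 c5420 (k8 c5570 c5421 c5422 c317 c12635 c5560 c5340 c17078 (k8 c5501 c5502 c5541 c5543 c13184 c11235 c14538 c17077 (k8 c2406 c16139 c16665 c16054 c6008 c5439 c5442 c5358 (k8 c5353 c12622 c393 c1986 c5675 c15664 c5673 c3038 (k4 c12879 c2948 c15499 c15567 (k2 c14587 c1459 (k1 c9210 k0)))))))))) (by decide +kernel)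
def c17080 : PP 9 3 T 0x42000000000000050000001000000000000000000000004000000000000000000000000000000000000000000000000000000000000000000000000040000 := rS 0x22a0d239c47a35ee0f2482dea47a52141af32e012b1a1 (k8 c16954 c5212 c16643 c11323 c5540 c422 c5541 c17079 (k8 c5520 c5519 c5516 c5334 c5329 c10793 c12629 c5263 (k4 c5241 c5374 c5525 c16965 (k1 c16167 k0)))) (by decide +kernel)
def c17081 : PP 9 3 T 0x2000000000000000000021000000000000000200000004000000000000000000000000000000000000000000000000000000000000000000000000040000 := rS 0x8a8f41a451af7d083c920b7a91e948506bccb804 (k8 c16643 c11323 c5540 c422 c5541 c17079 c5520 c5519 (k8 c5516 c5334 c5329 c16954 c10793 c12629 c5374 c5525 (k2 c5526 c16965 (k1 c16167 k0)))) (by decide +kernel)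
def c17082 : PP 9 3 T 0x40001400000000021000011040000000000000000000004000000000000000000000000014000000000000000000040420000000000000000000000000000 := rS 0xf07563979929030ec8c604d0a74dab3 (k8 c5532 c5529 c5412 c16954 c16643 c9754 c5210 c10408 (k4 c10427 c10162 c5663 c800 (k2 c15646 c10245 (k1 c8612 k0)))) (by decide +kernel)
def c17083 : PP 9 3 T 0x2000000000000040000001040000000000000000000004000200000000000000000000000000000000000000000000000000000000000000000000040000 := rS 0x324e8c52f1858c823d9a91e455a1e5102748a2cdc71ceec566218aed15aafd90a4e62331a344a110087c1e0b7a9dcaed142b3c1af340b2cfff37192fc2e02490472471db7fc5efac687bef72e0106f4a (k8 c17079 c5518 c16643 c11323 c10793 c10382 c16954 c5212 (k8 c14774 c5186 c5580 c5332 c5520 c5317 c5340 c5334 (k8 c11685 c5460 c12639 c5466 c14209 c5577 c5464 c5463 (k8 c5540 c422 c5543 c5541 c5501 c5313 c785 c5519 (k8 c5516 c5329 c5517 c53 c15516 c12632 c12629 c9754 (k8 c9734 c9718 c9692 c5210 c5406 c5490 c17080 c5414 (k8 c5528 c5532 c9578 c17081 c17082 c5666 c2978 c3038 (k8 c2813 c5673 c1542 c3584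 c2833 c2402 c1148 c6202 (k8 c16167 c5669 c10425 c2483 c838 c2485 c10162 c8442 k0))))))))) (by decide +kernel)
def c17084 : PP 9 3 T 0x40000000000000048000120000000000000000000000000000000001000010000000000000000000000000000020000058000000000000000000000000000 := rS 0x36ab1 (k2 c1982 c17025 (k1 c15522 k0)) (by decide +kernel)
def c17085 : PP 9 3 T 0x1000000000000000010040000000000000000000000000000000000000000000000440400000150010050021005408004000000000000000000000000 := rS 0x1aa9f64b14c2c6 (k4 c5669 c10425 c838 c10162 (k2 c2816 c2838 (k1 c3618 k0))) (by decide +kernel)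
def c17086 : PP 9 3 T 0x40000000000000000000000000000000000000001400015000000000000000000555000000020000040000000000000000000000000000 := rS 0x102 (k2 c8676 c1986 k0) (by decide +kernel)
def c17087 : PP 9 3 T 0x2000000000000040000001040000000000000000000004000200000000000000000000000000000000000000000000000000000000000000000000000000 := rS 0x1133d674f2b38aac4e291370991012f0fcdc0df69a85c6d765a07c4ad57a5dfa9554ec806733192c7649238e4ee5755c050affefbdc6e0d799700841f7d63434a (k8 c17079 c16954 c5212 c14774 c5340 c16643 c11323 c5540 (k8 c422 c5518 c10793 c10382 c5544 c5541 c5502 c5500 (k8 c5313 c785 c5317 c5520 c5334 c5332 c12639 c9754 (k8 c9718 c54 c5210 c5489 c5488 c5405 c5404 c5406 (k8 c5490 c5186 c5463 c5464 c5465 c5466 c5578 c5579 (k8 c5580 c11685 c14209 c5460 c17083 c425 c317 c318 (k8 c3037 c2869 c1982 c3046 c4835 c1542 c17084 c17085 (k2 c956 c17086 k0)))))))) (by decide +kernel)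
def c17088 : PP 9 3 T 0x58000100080000000000000000080000000200000000000000000000000000000000000000000000000000200000000000000000000020 := rS 0x22bf20887f3bb1 (k4 c16980 c13294 c5517 c15516 (k2 c5241 c15511 (k1 c15586 k0))) (by decide +kernel)
def c17089 : PP 9 3 T 0x2000000000000040000001000000000000000000000004000200000000000000000000000000000000000000000000000000000000000000000000000000 := rS 0x599b443154eed133b1ce9e58e09c96cb423b0f83c920b1bd28ae0706bccb804 (k8 c16643 c11323 c5540 c422 c5432 c5313 c17079 c5518 (k8 c5516 c5334 c5329 c5517 c5332 c16954 c5210 c17087 (k8 c5438 c5357 c5441 c13294 c16980 c15599 c17088 c5412 (k4 c5414 c5528 c5529 c5532 (k1 c15709 k0))))) (by decide +kernel)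
def c17090 : PP 9 3 T 0x2000000000000000000001000000000000000000000004000200000000000000000000000000000000000000000000000000000000000000000000000000 := rS 0x1fcf27d63824bf15c9676b013d8ed44fb614864464b1284742010211e9457 (k8 c5313 c17079 c5520 c16643 c53 c16954 c15516 c12632 (k8 c12639 c9734 c9698 c9692 c17089 c5570 c9048 c16056 (k8 c317 c12635 c17081 c16211 c15511 c5439 c5438 c5357 (k4 c5442 c5441 c5358 c15609 k0)))) (by decide +kernel)
def c17091 : PP 9 3 T 0x42000120040000000000000000000000000200002000000000000000000000000000000000000000040000000001000040000000004400 := rS 0xfe273895eb091 (k4 c5374 c5212 c5313 c3048 (k2 c3046 c8379 (k1 c16313 k0))) (by decide +kernel)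
def c17092 : PP 9 3 T 0x52000120040000000000000000000000000200000000000000000000000000000000000000000000000000000001400440000040044420 := rS 0xfe81719c22ac6f0824fa994da4c027325844723f0385c7a413da441a7947fceb057 (k8 c5313 c5212 c14888 c5526 c5524 c5522 c5374 c5372 (k8 c5340 c5436 c5433 c5432 c5318 c5317 c15516 c12639 (k8 c9718 c53 c5444 c5397 c5447 c17022 c311 c16865 (k4 c3568 c17091 c15522 c15520 (k2 c3866 c16323 (k1 c12613 k0)))))) (by decide +kernel)
def c17093 : PP 9 3 T 0x41000021000000000000000000000004000200002000000000000000000000000000000000000000000000000000000000000000000000 := rS 0x1c40e772b970087b489af274a (k8 c17079 c13294 c5523 c5374 c5372 c16643 c11323 c5313 (k4 c785 c5432 c3048 c16984 k0)) (by decide +kernel)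
def c17094 : PP 9 3 T 0x50000021000000000000000000000004000200000000000000000000000000000000000000000000000000000000000000000000040000 := rS 0x6c30a7532705a457c2e071b2dbfe2d887c7241c9fcc1f581d91c6e492bace241125e84174a06a3ce604 (k8 c16643 c9718 c5526 c5522 c17079 c5516 c16954 c12639 (k8 c15516 c16875 c2457 c5313 c5334 c5518 c5520 c5332 (k8 c5212 c5329 c14888 c13294 c5340 c5317 c5517 c17092 (k8 c5236 c14805 c5464 c5466 c11685 c5460 c17093 c5685 (k4 c15522 c5802 c1342 c10408 (k2 c755 c11103 k0)))))) (by decide +kernel)
def c17095 : PP 9 3 T 0x40000021000000000000000000000004000200000000000000000000000000000000000000000000000000000000000000000000040000 := rS 0x2d44e6e389b44315da2ce24293988c962508e8402040f9241647a5034d68f (k8 c5526 c5523 c5522 c17079 c5520 c5516 c5334 c5517 (k8 c16643 c53 c16954 c15516 c12632 c12639 c9734 c9718 (k8 c9692 c16875 c2457 c17094 c5414 c5528 c5529 c755 (k4 c5666 c2813 c1148 c3584 k0)))) (by decide +kernel)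
def c17096 : PP 9 3 T 0x40000021000000000000000000000004000200000000000000000000000000000000000000000000000000000000000000000000000000 := rS 0x10280fbd1044097cd065c020ec1e49058dc8f4a2bfb6b1a1 (k8 c16954 c5212 c17090 c5313 c17079 c5520 c5518 c5516 (k8 c5334 c5329 c5332 c16643 c11323 c5525 c14888 c17095 (k4 c424 c425 c5582 c3066 (k2 c8509 c1985 k0)))) (by decide +kernel)
def c17097 : PP 9 3 T 0x50000001040000000000000000000004000200000000000000000000000000000000000000000000010000000000000000000000040000 := rS 0x3fd66ab429a8f4c744178f28058a2cfe6e57bf552872da34b8571f85e271580a7d369350984fbb0f19cd8bef1a90d5bb214894220169f7bc2de23b8fe44b020ee959df6906b1a1 (k8 c16954 c5212 c5340 c17090 c17096 c17079 c5332 c16643 (k8 c12639 c5241 c5549 c5520 c14209 c5538 c5185 c5496 (k8 c53 c15516 c12632 c9692 c5210 c5490 c5252 c5450 (k8 c14662 c5451 c9718 c5580 c5236 c17022 c5445 c5398 (k8 c5444 c8100 c2885 c5592 c5590 c5547 c5433 c5318 (k8 c5313 c11323 c12629 c11445 c11253 c5489 c5405 c5406 (k8 c5666 c8379 c2978 c1147 c5670 c2388 c15534 c5673 (k8 c940 c5669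 c6192 c847 c1138 c2378 c2840 c17086 k0)))))))) (by decide +kernel)
def c17098 : PP 9 3 T 0x10040000000000000000000000000000000400000000000080000000000000000001400004000000000004000100000000054420 := rS 0x18c0c (k2 c12647 c14796 (k1 c2480 k0)) (by decide +kernel)
def c17099 : PP 9 3 T 0x50000001040000000000000000000004000200000000000000000000000000000000000000000000000000000000000000000000040000 := rS 0x68aad3a8236a38f67e45205126f387bda6cd678d4fa9930b27bdb0f0f8dbc9171c4fe49b4bbf52aa939c451a5c258ec1e0b23d2873ed21ab7642912844020420d63439d (k8 c17096 c16954 c5212 c5340 c16643 c53 c15516 c12632 (k8 c9692 c5210 c5490 c5252 c17090 c5317 c17079 c5520 (k8 c5516 c5329 c5332 c12639 c11323 c12629 c9728 c9718 (k8 c5489 c5488 c5405 c5404 c8100 c5241 c5547 c5549 (k8 c5589 c14209 c5580 c5538 c5236 c5185 c5396 c5445 (k8 c5447 c17022 c5450 c5453 c5495 c5496 c14662 c17097 (k8 c65 c2872 c751 c5673 c5670 c891 c17098 c2433 (k4 c2983 c8792 c1974 c1976 (k1 c3617 k0))))))))) (by decide +kernel)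
def c17100 : PP 9 3 T 0x40000001040000000000000000000004000200000000000000000000000000000000000000000000000000000000000000000000040000 := rS 0x1a77bdde1f9b81bed371f8b63b4258ec923723d2873ed21ab7642912844020420d63439d (k8 c17096 c16954 c5212 c5340 c16643 c53 c15516 c12632 (k8 c9692 c5210 c5490 c5252 c17090 c5317 c17079 c5520 (k8 c5518 c5334 c5332 c12639 c17099 c9578 c5236 c5466 (k8 c5579 c5580 c11685 c14209 c5460 c5191 c5185 c14662 (k1 c5450 k0))))) (by decide +kernel)
def c17101 : PP 9 3 T 0x48000110080000000000000000080000000200000000000000000000000000000000000000000000000000200000000000000000000020 := rS 0xb34c9b443154eed3623b0f83c9237 (k8 c5518 c5334 c5329 c5517 c5332 c16980 c17088 c5412 (k4 c5414 c5528 c5529 c5530 (k2 c5532 c15709 k0))) (by decide +kernel)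
def c17102 : PP 9 3 T 0x80000000000000018000110040000000000000000000000000200001000000000000080000000000000000000424040008001000000000440000000004520 := rS 0x7a639b01a80359f555112b8e40eb139c4fc679 (k8 c2388 c5580 c5547 c9718 c1982 c5432 c5317 c5313 (k8 c9728 c15595 c2829 c1138 c5670 c316 c5665 c940 (k2 c3568 c742 k0))) (by decide +kernel)
def c17103 : PP 9 3 T 0x50000010000000000000000000000000000000001500011000000000000000000451000000824000040000000000000000000000000000 := rS 0x1feab429a8dab1 (k4 c1982 c2432 c5665 c2542 (k2 c1138 c2840 (k1 c17086 k0))) (by decide +kernel)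
def c17104 : PP 9 3 T 0x40000001000000000000000000000004000200000000000000000000000000000000000000000000000000000000000000000000000000 := rS 0x35d967c631ecd8b2470276a6149f7b60794fb57c3e36f38e27f250c556301f79fcdc26441102593ce906b0ad57a5dfa9554ec8e7114396d1a5c25e84083b07924163723d287fed (k8 c17090 c5318 c17079 c5520 c5518 c5516 c5334 c5329 (k8 c5332 c16643 c16954 c12639 c11323 c12629 c11445 c11253 (k8 c9728 c9718 c5210 c5489 c5488 c5405 c5404 c5406 (k8 c5490 c5212 c5340 c17096 c17101 c17100 c424 c425 (k8 c317 c318 c2917 c5582 c3066 c1982 c3046 c2927 (k8 c5191 c5547 c5549 c14209 c5580 c5538 c4841 c4831 (k8 c2388 c5236 c5186 c5444 c5445 c9578 c311 c17102 (k8 c17103 c2820 c742 c5669 c2487 c1548 c1550 c8161 k0)))))))) (by decide +kernel)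
def c17105 : PP 9 3 T 0x80000120000000000000000000080000000200000000000000000000000000000000000000000000000000000000000000000000000020 := rS 0x22a5f10a753512c9a3cd60d3d8ec920b1c81d67b51284402232392f63580989c5219 (k8 c9698 c9692 c5570 c317 c12635 c14052 c12639 c5520 (k8 c9734 c53 c15516 c12632 c9048 c5574 c5432 c5317 (k8 c5516 c5334 c5332 c5372 c5522 c5523 c5526 c13294 (k4 c16875 c17004 c168 c2490 (k2 c1119 c8106 (k1 c8534 k0)))))) (by decide +kernel)
def c17106 : PP 9 3 T 0x1040000000000000000000004000200002400000000000000000000000000000000000000000000000000000000000000000000 := rS 0xcf64a64bcc5309b8fc6a55a05047d482152efd4aaa764634396cee572e337c6e1248e476df1ba2fddf371277c0b34da7c83b51284402232392f63580989c5219f6e776d4ad0a3e2204 (k8 c16643 c9728 c2845 c16954 c17079 c17104 c17105 c17090 (k8 c9698 c9692 c5570 c317 c12635 c14052 c12639 c5520 (k8 c9734 c53 c15516 c12632 c9048 c5340 c5572 c8100 (k8 c5574 c5235 c5458 c15026 c5549 c5191 c5583 c5518 (k8 c5538 c5332 c5317 c5334 c5460 c11685 c5537 c11323 (k8 c5313 c785 c11445 c11253 c9754 c5210 c5489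 c5488 (k8 c5405 c5404 c13042 c5675 c1552 c5672 c9822 c1974 (k8 c8722 c5670 c1139 c10398 c840 c2920 c2374 c10162 (k2 c2395 c8351 k0))))))))) (by decide +kernel)
def c17107 : PP 9 3 T 0x1040000000000000000000004000200002000000000000000000000000000000000000000000000000000000000000000000000 := rS 0x285a6c92f1d0fe833583624ad57a5d2bb2318ec1e0b03b2d62b5639efbe458e971ab031990c7ad7f77cdc49df02cd369f20ed44a110088c8e4bd8d60262714867db9ddb52b4204 (k8 c16643 c16954 c17079 c17104 c17105 c17090 c9698 c9692 (k8 c5570 c317 c12635 c14052 c12639 c5520 c9734 c53 (k8 c15516 c12632 c9048 c5340 c5572 c8100 c5574 c5235 (k8 c5458 c15026 c5549 c5191 c5507 c5436 c5561 c5316 (k8 c11700 c1663 c11323 c12631 c5582 c16045 c5457 c5535 (k8 c5422 c5421 c5420 c5432 c5516 c5329 c5332 c9754 (k8 c5210 c5488 c5404 c5406 c5490 c17106 c2598 c2600 (k8 c2604 c809 c10480 c15492 c1966 c1970 c1122 c3618 k0)))))))) (by decide +kernel)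
def c17108 : PP 9 3 T 0x1040000000000000000000004000200000400000000000000000000000000000000000080000000000000000000000000000000 := rS 0x132ab679b5047448214bcc962a3cc2977ea5553b28898d0e5b3b95ce2d16fa2fbe458e971ab031990c7ad7f77cdc49df02cd369f20ed44a110088c8e4bd8d60262714867db9ddb52b4204 (k8 c16643 c16954 c17079 c17104 c17105 c17090 c9698 c9692 (k8 c5570 c317 c12635 c14052 c12639 c5520 c9734 c53 (k8 c15516 c12632 c9048 c5340 c5572 c8100 c5574 c5235 (k8 c5458 c15026 c5549 c5191 c5507 c5436 c5561 c5316 (k8 c11700 c1663 c11323 c12631 c5582 c16045 c5583 c5538 (k8 c5459 c5571 c5313 c785 c11445 c11253 c9754 c9728 (k8 c5210 c5489 c5488 c5405 c5404 c10398 c2923 c840 (k8 c10162 c5663 c13042 c5675 c5668 c5672 c746 c1531 (k2 c1974 c1521 (k1 c8772 k0)))))))))) (by decide +kernel)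
def c17109 : PP 9 3 T 0x1040000000000000000000004000200000400000000000000000000000000000000000000000000000000000000000000000000 := rS 0x5520a0285471d41291401fcfaaf7eaa622590eec90e5b0782cae0758c0fc6e1248e476df1bb5dffeef9b893be059a6d3e41da89422011191c97b1ac04c4e290cfb73bb6a56840915 (k8 c17107 c16643 c16954 c17079 c17104 c17105 c17090 c9698 (k8 c9692 c5570 c317 c12635 c14052 c12639 c5520 c9734 (k8 c53 c15516 c12632 c9048 c5340 c5572 c8100 c5574 (k8 c5235 c5458 c15026 c5549 c5191 c5586 c5507 c5518 (k8 c5538 c5332 c5317 c5334 c5460 c11685 c11700 c5421 (k8 c5432 c5313 c5516 c5329 c11445 c11253 c5210 c5486 (k8 c313 c9728 c5489 c5405 c5406 c1552 c17108 c5670 (k8 c9822 c1744 c1748 c5675 c15362 c2849 c5672 c8604 (k1 c1974 k0))))))))) (by decide +kernel)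
def c17110 : PP 9 3 T 0x1040000000000000000000004000200000000000000000000000000000000000000000000000000000000000000000000000000 := rS 0x142d364978e86c3fa0cd60d8977c8ad7f7357e6e24e9ed8fe04deca22638e970760f058dcae331c81c7ab34fad76a250880446472590c83b1ac04c4e290cc0f3bb6a5013dba1 (k8 c16954 c17090 c16643 c17079 c17104 c17105 c11700 c9698 (k8 c9692 c5570 c317 c12635 c14052 c5340 c5561 c12639 (k8 c5520 c9734 c53 c15516 c12632 c9048 c5422 c5572 (k8 c5574 c5436 c5432 c5317 c5316 c5313 c5518 c5516 (k8 c5329 c5332 c11323 c12631 c9754 c9728 c5210 c8100 (k8 c5235 c5535 c5457 c5458 c15026 c5549 c1663 c5191 (k8 c5507 c5582 c16045 c17109 c2598 c2600 c2604 c809 (k4 c5665 c10480 c5710 c1966 (k2 c1970 c1122 (k1 c11200 k0)))))))))) (by decide +kernel)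
def c17111 : PP 9 3 T 0x1000000000000000000000004000200000000000000000000000000000000000000000000000000000000000000000000000000 := rS 0x454fe793eb1c125fc9677635809ed44fb62b8a432232589423a1008108f4a (k8 c17079 c5520 c16643 c53 c16954 c15516 c12632 c12639 (k8 c9734 c9698 c9692 c5313 c17104 c5570 c9048 c317 (k8 c12635 c14052 c17105 c17110 c5439 c5438 c5357 c5442 (k4 c5441 c5358 c15511 c15609 k0)))) (by decide +kernel)
def c17112 : PP 9 3 T 0x40000021040000000000000000000004000000000000000000000000000000000000000000000000000000000000000000000000000000 := rS 0x409a0b04eb5d97e23faad68ff59fce25ed3ec542689385615a977ea5553b2019cd1a5c2582e949106a3d02410484742070227d929b4cec19ed566b4fbd29 (k8 c17111 c5214 c5496 c5495 c5454 c5453 c5209 c5447 (k8 c5397 c5396 c5448 c16643 c8467 c16954 c15516 c16665 (k8 c12636 c12653 c5526 c5522 c5374 c17079 c5516 c12639 (k8 c11323 c12629 c9718 c54 c5210 c5489 c5488 c5405 (k8 c5404 c5490 c5212 c16989 c2872 c2869 c3048 c2870 (k8 c17081 c16875 c5547 c2457 c2571 c756 c14841 c15529 (k8 c5670 c5464 c5465 c1342 c5991 c3617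 c14602 c2201 k0))))))) (by decide +kernel)
def c17113 : PP 9 3 T 0x21040000000000000000000004000000000000000000000000000000000000000000000000000000000000000000000000000000 := rS 0x9d68aadc4e17ffce05013f44914893e84fded6f1ac44ecbdb34d329b64a8503ded801d5aaf4aec91a5c2582e944104ca423a1022441a8f (k8 c5526 c5522 c5374 c16643 c16954 c15516 c17111 c16665 (k8 c12636 c17079 c5516 c12639 c11323 c12629 c5210 c5488 (k8 c5406 c5490 c8467 c5209 c5214 c12653 c5398 c5396 (k8 c5397 c5447 c5496 c17112 c5420 c5570 c5421 c6601 (k8 c9031 c11200 c317 c1550 c1984 c5673 c16875 c5670 (k8 c3068 c859 c5547 c2571 c3058 c810 c6368 c2202 (k2 c1777 c15342 k0))))))) (by decide +kernel)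
def c17114 : PP 9 3 T 0x40000000000000000000000080000000000000000080000000000000000000000000040000000000000000000000004000000000004001000000000051140 := rS 0x3c60f059f4fe57 (k4 c5353 c5358 c5442 c5516 (k2 c5329 c15669 (k1 c15503 k0))) (by decide +kernel)
def c17115 : PP 9 3 T 0x40000021000000000000000000000004000000000000000000000000000000000000000000000000000000000000000000000000040000 := rS 0x328e3e35a8e5c2aaf02653ea14eec59ecd64858c0300337fe712f6a5dfa9554ec83273469709625008ec920b1bbd48f4a20826527b488351e5f638f4fb9208812b1a1 (k8 c16954 c5212 c16643 c15516 c17113 c5442 c12640 c5357 (k8 c5439 c5526 c5522 c5374 c5372 c17111 c16665 c12636 (k8 c17079 c5520 c5519 c5518 c5516 c5334 c5332 c53 (k8 c12632 c12639 c11323 c12629 c9718 c9698 c5210 c5489 (k8 c5488 c5405 c5404 c17081 c16875 c5547 c2512 c17114 (k8 c822 c713 c714 c1915 c1916 c1473 c5445 c1696 (k8 c1068 c1465 c1463 c16763 c13449 c5460 c5534 c14841 (k4 c11685 c756 c5680 c8466 k0)))))))) (by decide +kernel)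
def c17116 : PP 9 3 T 0x1000000000042000001080000000000000000000004000000000000010000000000504400000108000000000000010000000000000000000000000000 := rS 0x1a0cd6977d92add917cebed (k8 c5500 c5440 c5439 c5210 c5490 c5396 c16994 c5991 (k2 c2075 c5688 (k1 c2135 k0))) (by decide +kernel)
def c17117 : PP 9 3 T 0x40000021000000000000000000000004000000000000000000000000000000000000000000000000000000000000000000000000000000 := rS 0x77c6ac866a682e9d506c59fe371a67c238f901d549f65acd6bb58ab5daaff81ac602713709910440910d5aaf7e8752aa9d900c52193989423a1008ec1e49058de9409949ec1a6b3ca0d1e5f639f4ea332be48b804 (k8 c16643 c11323 c17113 c5353 c383 c5440 c5442 c5357 (k8 c5439 c5526 c5525 c5524 c5523 c5522 c5372 c17111 (k8 c16665 c17079 c5518 c5516 c5334 c5329 c5332 c53 (k8 c16954 c15516 c12632 c9718 c9698 c9692 c54 c5210 (k8 c5489 c5488 c5486 c5405 c5406 c5490 c5252 c17115 (k8 c424 c425 c317 c318 c2869 c3066 c1982 c1985 (k8 c2839 c2837 c1983 c3046 c17025 c1148 c2819 c1144 (k8 c2815 c3623 c15501 c15522 c11223 c15597 c15599 c5549 (k8 c8118 c2559 c17116 c5680 c1277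 c1068 c5679 c2076 (k4 c1189 c440 c5494 c11149 k0)))))))))) (by decide +kernel)
def c17118 : PP 9 3 T 0x21000000000000000000000004000000000000000000000000000000000000000000000000000000000000000000000000000000 := rS 0x40555e06b7bd32a14ef7d9ecd6ab4d92163031060066fbffe643897b6b0135889d3e71db0f4fac72fe491e0d3dab55e977ea5553b2320651a5c2589423a10082c6ef5a50265204 (k8 c16643 c17111 c16665 c17079 c5519 c5518 c5516 c53 (k8 c16954 c15516 c12632 c12639 c11323 c12629 c9698 c15726 (k8 c5210 c5489 c5488 c5405 c5404 c5406 c5490 c5372 (k8 c5522 c5526 c17113 c5439 c5357 c5442 c12640 c17117 (k8 c5571 c5572 c5570 c5421 c317 c12635 c17081 c16875 (k8 c5561 c5547 c2571 c2512 c17114 c822 c821 c713 (k8 c714 c1915 c1918 c1475 c1916 c1473 c5451 c1696 (k8 c1068 c1463 c8847 c10481 c10805 c13449 c10483 c6368 k0)))))))) (by decide +kernel)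
def c17119 : PP 9 3 T 0x2000000000000040000001040000000000000000000004000000000000000000000000000000000000000000000000000000000000000000000000000000 := rS 0x1231347fcbdfb57fa34961105834f65607d299ecdef6750e5b2e563428956ec82670d84a40604 (k8 c16643 c54 c17111 c5209 c16989 c2869 c5210 c5490 (k8 c2872 c16954 c5212 c11323 c11445 c11253 c17118 c5214 (k8 c5495 c5453 c17079 c5329 c10195 c886 c16677 c5516 (k8 c15516 c12639 c12629 c5544 c15876 c14774 c17080 c8824 (k2 c5547 c5589 (k1 c12647 k0)))))) (by decide +kernel)
def c17120 : PP 9 3 T 0x40000000000000040000001040000000000000000000004000000000000000000000000000000000000000000000000000000000000000000000000000000 := rS 0x1eeda337bd2981fb73ba1 (k8 c16954 c17118 c17119 c11700 c17111 c5214 c5495 c5241 (k2 c5191 c15215 k0)) (by decide +kernel)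
def c17121 : PP 9 3 T 0x40000001040000000000000000000004000000000000000000000000000000000000000000000000000000000000000000000000000000 := rS 0x68208d4854724627f2f684d127056a5dfaa901c449611d082c0ec9069ecac0fa533d9bded84a73a872d97009b2 (k8 c5210 c16643 c11323 c11445 c11253 c17118 c17111 c5209 (k8 c5214 c5495 c5453 c17079 c5329 c10195 c886 c16677 (k8 c5396 c8467 c5516 c16954 c15516 c12639 c9728 c54 (k8 c5489 c5405 c5404 c5490 c16989 c2872 c2869 c17119 (k8 c17120 c5547 c5589 c12647 c2547 c2875 c5672 c16679 (k1 c1976 k0)))))) (by decide +kernel)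
def c17122 : PP 9 3 T 0x1040000000000000000000004000000000000000000000000000000000000000000000000000000000000000000000000000000 := rS 0x82471ad148948c4c4013f7b5be5b55a89d96b3db034f6d366b3d92a14095bbdb003ab55e9554ec8531111a1cb68d2e12c4a010f83c9247a5104132908e84099d (k8 c17118 c16643 c16954 c15516 c17111 c16665 c12636 c17079 (k8 c5520 c5334 c5329 c5517 c53 c12632 c12639 c11323 (k8 c12629 c11445 c11253 c9734 c9728 c9692 c5210 c5489 (k8 c5488 c5406 c5490 c8467 c5209 c5214 c10195 c12653 (k8 c5398 c5396 c5453 c5495 c5496 c886 c16677 c17121 (k8 c5574 c5420 c5570 c5422 c9048 c15506 c9031 c11200 (k8 c317 c8140 c5547 c5589 c1984 c5673 c2371 c12645 (k2 c2983 c8722 k0)))))))) (by decide +kernel)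
def c17123 : PP 9 3 T 0x2000000000000062000001000000000000000000000004000000000000000000000000000000000000000000000000000000000000000000000000040000 := rS 0x340b0c599df68a5d2aa9d93d695291995f245c0227556994fa85929b (k8 c5397 c5396 c5398 c5448 c5530 c5413 c5412 c16643 (k8 c11323 c17122 c5353 c383 c17111 c17079 c5519 c5210 (k8 c5489 c5488 c5404 c5501 c10390 c8724 c1916 c17066 (k2 c5653 c1619 k0)))) (by decide +kernel)
def c17124 : PP 9 3 T 0x41000000000000042000001000000000000000000000004000000000400000000000000000000000000000000400000000000000000000000000000000000 := rS 0x8838401046f68a1520ad54ec8c8734396c09924eaae2ab3da7bb439d (k8 c17118 c16954 c5191 c5241 c5532 c5414 c5413 c5412 (k8 c17122 c16643 c11445 c11253 c9718 c15726 c5210 c5489 (k8 c5490 c5675 c13042 c9793 c3038 c5672 c12474 c5666 (k2 c1977 c2872 k0)))) (by decide +kernel)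
def c17125 : PP 9 3 T 0x41000000000000000000001000000000000000000000004000000000800000000000000000100000000014000000000001000000000000000000000041040 := rS 0x381a47a669c5be8357a57646425d28ee099497d8e3d3ee48220481fbb439d (k8 c17118 c16954 c5191 c11700 c16643 c15516 c17122 c5442 (k8 c12640 c5357 c5439 c17111 c16665 c14727 c17079 c12639 (k8 c15726 c5210 c5488 c5406 c2604 c2512 c755 c12000 (k4 c17114 c8847 c957 c3063 k0)))) (by decide +kernel)
def c17126 : PP 9 3 T 0x40000000000000042000001000000000000000000000004000000000000000000000000000000000000000000000000000000000000000000000000040000 := rS 0x5ac051d137fac7dd03f681cc2c950a7d5aaf7eaa764734396d571536acc1a21da6774204 (k8 c16643 c16954 c17118 c5241 c5528 c315 c5532 c5529 (k8 c5414 c5413 c11445 c11253 c9718 c5210 c5489 c5405 (k8 c5406 c5490 c5448 c5398 c5396 c5445 c713 c17123 (k8 c11700 c5191 c5506 c5586 c17125 c17124 c2849 c2402 (k1 c3623 k0))))) (by decide +kernel)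
def c17127 : PP 9 3 T 0x42000000000000040000001000000000000000000000004000000000000000000000000000000000000000002000000000000000000000000000000040000 := rS 0xcc70b29a6a1451e8e0896f9bd2efd4aaa4e68d25c541a21d8b4602cff7d613e41f181e949d55a67699d2e6c8fe09948f4fa11d0810af92 (k8 c17122 c5353 c16643 c16954 c15516 c5442 c12640 c17111 (k8 c16665 c5358 c5210 c11323 c17118 c5241 c5530 c5413 (k8 c5412 c17079 c15675 c15669 c12636 c15711 c5212 c14774 (k8 c5543 c5502 c5501 c17126 c5528 c315 c5414 c12639 (k8 c12629 c9718 c5489 c5488 c5405 c5404 c3038 c2948 (k8 c3042 c5666 c17114 c5673 c2929 c2938 c5680 c1718 (k2 c10216 c10210 k0))))))) (by decide +kernel)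
def c17128 : PP 9 3 T 0x40000000000000000000000080000000000000000080000000000000800000000000100000000000000000000000000000000000004001000000000051140 := rS 0x1e9bec7 (k4 c5357 c2512 c17114 c957 k0) (by decide +kernel)
def c17129 : PP 9 3 T 0x42000000000000040000001000000000000000000000004000000000000000000000000000000000000000000000000000000000000000000000000040000 := rS 0x1135a3844ecb371c523e3f0a7c0fb2149cc465c25894023b0f83c920b1b91e944104ca4bec73c9fcae3d3ee48229d55c54da995983443b4cee8409b1 (k8 c17126 c16643 c16954 c17118 c5241 c5528 c315 c5532 (k8 c5530 c5529 c5414 c5413 c5412 c15516 c17122 c5442 (k8 c12640 c5353 c5358 c5441 c5357 c5439 c17111 c16665 (k8 c12636 c17079 c5520 c5518 c5516 c5334 c5329 c5517 (k8 c5332 c53 c12632 c12639 c11323 c9734 c9718 c9692 (k8 c5210 c15675 c15711 c15597 c15669 c17127 c10427 c5666 (k4 c8466 c2813 c9396 c12753 (k2 c17128 c1149 k0)))))))) (by decide +kernel)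
def c17130 : PP 9 3 T 0x41000000000000040000001000000000000000000000004000000000400000000000000000000000000000000400000000000000000000000000000000000 := rS 0x2260070799bd0490429cd0e5b25bd48f4a21ab7642912844031506887680422fbb439d (k8 c17118 c16954 c5191 c5582 c16643 c5241 c5528 c315 (k8 c5414 c53 c15516 c12632 c9692 c5210 c5490 c5252 (k8 c17079 c5520 c5519 c12639 c11445 c11253 c9718 c13042 (k8 c5675 c5672 c3038 c2390 c5666 c9072 c2872 c1977 k0)))) (by decide +kernel)
def c17131 : PP 9 3 T 0x1000045000000000000000000555000000804000040000000000000000000000000000 := rS 0x16b01 (k2 c2849 c2402 (k1 c3623 k0)) (by decide +kernel)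
def c17132 : PP 9 3 T 0x40000000000000040000001000000000000000000000004000000000000000000000000000000000000000000000000000000000000000000000000040000 := rS 0x2d44e6b3720ce31247bfd63ee81fb5666d10c5557b456abdfaa9d90a4e6234396c4a11d0804081f2491e959d (k8 c17118 c17079 c5520 c5334 c5517 c16643 c53 c16954 (k8 c15516 c12632 c11445 c11253 c9734 c9718 c9692 c5210 (k8 c5489 c5405 c5406 c5490 c5241 c5413 c5414 c5528 (k8 c5529 c5532 c17129 c11700 c5191 c5506 c5586 c17131 (k8 c17130 c755 c2604 c5666 c11575 c2813 c1148 c12753 k0))))) (by decide +kernel)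
def c17133 : PP 9 3 T 0x2000000000000040000001000000000000000000000004000000000000000000000000000000000000000000000000000000000000000000000000040000 := rS 0x44a38880df7bfde68d8e970960f05bd48f4aced6086add90a44a11d0804091381a4603f2 (k8 c17132 c5592 c5589 c5550 c5547 c16643 c53 c16954 (k8 c15516 c12632 c9692 c5210 c5490 c5252 c5212 c17118 (k8 c17079 c5520 c5519 c5516 c5329 c12639 c11323 c12631 (k8 c12629 c5540 c5544 c14774 c422 c12643 c12647 c2833 (k1 c8824 k0))))) (by decide +kernel)
def c17134 : PP 9 3 T 0x100000000000005a000010000000000000000000000000000000001400000008000000004100000404005101405050120020204000000000000000050160 := rS 0x3440b30c29b49a5d2aa9 (k8 c5489 c5488 c5404 c5444 c5397 c5445 c8934 c751 (k2 c2501 c15457 k0)) (by decide +kernel)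
def c17135 : PP 9 3 T 0x40000001000000000000000000000004000000000000000000000000000000000000000000400000000000000000000000000000040000 := rS 0x124ca0bec592a1699c3c69f451bc0eb068bfd9fb559a653aab41215e420350315aaf4bbf52aa932064e6590eec90e5b4692c3e0f05bd6944104ca73a5f3c9fcea3d3e84742332be48b80489ad606918ac07e5ed (k8 c17133 c17132 c5592 c5590 c5589 c5550 c5548 c5547 (k8 c16643 c11323 c17122 c5353 c383 c16954 c15516 c5442 (k8 c12640 c5440 c5358 c5441 c5439 c17118 c17111 c16665 (k8 c12636 c17079 c5519 c5516 c5329 c5517 c12639 c12629 (k8 c11445 c11253 c5210 c5486 c313 c9718 c9698 c15726 (k8 c5489 c5488 c5405 c5404 c5406 c5490 c12647 c316 (k8 c315 c422 c2541 c423 c1138 c1135 c2373 c2377 (k8 c5528 c11551 c2396 c1975 c3623 c16787 c1147 c14204 (k8 c15711 c15669 c5666 c2938 c2929 c10123 c17134 c16788 (k2 c9422 c5648 (k1 c1753 k0))))))))))) (by decide +kernel)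
def c17136 : PP 9 3 T 0x42000001000000000000000000000004000000000000000000000000000000000000000000000000000000000000000020000000040000 := rS 0xba5f648d2e013425f3e9fcaf9249a7d4261 (k8 c5445 c5398 c5448 c5444 c17122 c5353 c5358 c5442 (k8 c5439 c16954 c16643 c11323 c12629 c5210 c5404 c1619 (k1 c15536 k0))) (by decide +kernel)
def c17137 : PP 9 3 T 0x42000001000000000000000000000004000000000000000000000000000000000000000000000000010000000000000010000000000000 := rS 0x69b55ae3058a2fbecb372bd2e9539a36525f3e9d46657c917086add90a44a11d080408a1 (k8 c5398 c16643 c53 c16954 c15516 c12632 c9692 c5210 (k8 c5490 c5252 c11323 c17122 c5353 c383 c5440 c5442 (k8 c5439 c17111 c12629 c9718 c5488 c5404 c5406 c5666 (k8 c8466 c16994 c2978 c1147 c5653 c13349 c14520 c1918 (k1 c5982 k0))))) (by decide +kernel)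
def c17138 : PP 9 3 T 0x42000001000000000000000000000004000000000000000000000000000000000000000000000000000000000000000000000000040000 := rS 0xc7becc68b3d3a8255a14d489380d5329b64ab52efd4aaa764644396deb4a94e74be793a8ccaf922e013da8e (k8 c17135 c17133 c16643 c11323 c17122 c5353 c383 c5440 (k8 c5441 c5439 c17118 c17111 c17079 c5519 c11445 c11253 (k8 c15726 c5210 c5489 c5488 c5405 c5404 c5490 c5396 (k8 c5397 c5447 c17136 c17137 c2872 c2875 c2547 c1138 (k8 c11575 c1135 c11551 c1975 c8934 c15342 c1916 c5653 k0))))) (by decide +kernel)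
def c17139 : PP 9 3 T 0x80000000000000020000000000000000000000000000000000000000000000000000000000000000000000000000000000000000001400000015440000000 := rS 0x2cc42b5 (k4 c5548 c5528 c5532 c8140 k0) (by decide +kernel)
def c17140 : PP 9 3 T 0x40000001000000000000000000000004000000000000000000000000000000000000000000000000010000000000000000000000040000 := rS 0x1feb355a08d40cda81daad74f89d628b659b95efd549cc46872da34b81f2491e9529ce97cfa75c910d5bb21489423a1008116b038ac07e5b1 (k8 c17138 c17132 c5592 c5590 c5550 c5548 c16643 c53 (k8 c16954 c15516 c12632 c9692 c5210 c5490 c5252 c17122 (k8 c5440 c5442 c5439 c17118 c17111 c17079 c5520 c5334 (k8 c5517 c11323 c12629 c11445 c11253 c9734 c9718 c5489 (k8 c5405 c5406 c5666 c8466 c2978 c1147 c2813 c2815 (k8 c13349 c14520 c15501 c17139 c15588 c316 c423 c1138 (k2 c2378 c2397 (k1 c3623 k0)))))))) (by decide +kernel)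
def c17141 : PP 9 3 T 0x40000001000000000000000000000004000000000000000000000000000000000000000000000000000000000000000000000000040000 := rS 0x78136c9f1a7c0ed167a653a8255ed50a6a592851270d8a3bdaad4bbf52aa9d9190e65c4396c3ef5a51041329ce97cf27f2b9d47a7dc90474204 (k8 c16643 c16954 c15516 c17122 c5442 c12640 c5440 c5353 (k8 c5358 c5441 c5439 c17118 c17111 c16665 c12636 c17079 (k8 c5519 c5517 c11445 c11253 c11323 c9718 c15726 c5210 (k8 c5489 c5488 c5405 c5404 c5490 c17133 c17135 c17138 (k8 c17140 c2872 c2929 c2874 c2875 c2547 c5532 c1138 (k8 c11575 c1135 c2373 c11551 c1975 c16787 c15711 c15669 (k4 c11623 c2497 c5679 c8772 k0))))))) (by decide +kernel)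
def c17142 : PP 9 3 T 0x2000000000000042000001000000000000000000000004000000000000000000000000000000000000000000000000000000000000000000000000000000 := rS 0x10a776839f9bcd561911a1cb7a107e7724882e1ba2a2624d28c2990b8d0e212018112fb2 (k8 c5210 c5404 c16643 c54 c17141 c2869 c17137 c1619 (k8 c5447 c5445 c17079 c5334 c317 c3046 c318 c11323 (k8 c425 c17122 c17118 c5329 c16954 c11445 c11253 c9734 (k8 c9698 c5500 c5540 c15581 c439 c5241 c5412 c5528 (k1 c15623 k0))))) (by decide +kernel)
def c17143 : PP 9 3 T 0x42000001000000000000000000000004000000000000000000000000000000000000000000000000000000000000000000000000000000 := rS 0x1ec726c06b34d7b5557cbda3430b2622872d8ec1e0b1be758e573880fde448a898934a03b5486ad1489423a100ac4e6d7441d53e7d659b8245fc917009b2 (k8 c5210 c16643 c11323 c17122 c5439 c17141 c318 c1144 (k8 c5442 c2815 c5440 c425 c1983 c9718 c1982 c53 (k8 c16954 c15516 c12632 c9692 c5490 c5252 c2837 c15501 (k8 c17079 c5334 c317 c3046 c424 c5582 c54 c2869 (k8 c5353 c5357 c17118 c5518 c5516 c5329 c5332 c11445 (k8 c11253 c9728 c5396 c5445 c17137 c17142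 c5191 c15581 (k8 c5413 c1138 c2075 c316 c5665 c440 c742 c5710 k0))))))) (by decide +kernel)
def c17144 : PP 9 3 T 0x40001000000000041000000000000000000000000000000000000000800000000000000000400000000004000000008000000000000000000000000000000 := rS 0x78900e0 (k4 c957 c956 c9396 c5463 k0) (by decide +kernel)
def c17145 : PP 9 3 T 0x42000000000000040000001000000000000000000000004000000000000000000000000000000000000000000000000000000000000000000000000000000 := rS 0xc84df7926351c1ee24b310ed15e977e8752aa90ca1cb61f7ae746701223459eff4eaaf631513127c29906bcc767905b1c6e5703b5486ad1489423a100ac4e6d7441d53e7d659b8245fc917364099483e9404 (k8 c16643 c17079 c5329 c17111 c16665 c5210 c11323 c17122 (k8 c5439 c17141 c318 c1144 c5442 c2815 c5440 c425 (k8 c1983 c9718 c1982 c53 c16954 c15516 c12632 c9692 (k8 c5490 c5252 c2837 c15501 c5353 c5518 c5357 c5516 (k8 c5441 c5332 c5540 c422 c15599 c15597 c5334 c317 (k8 c3046 c17143 c5500 c15596 c5544 c5543 c5501 c424 (k8 c3066 c383 c17118 c5519 c5517 c11445 c11253 c9698 (k8 c5489 c5488 c5486 c5405 c5404 c5406 c5241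 c5528 (k8 c5532 c17086 c17144 c3568 c15579 c324 c16937 c9848 (k2 c15342 c10198 k0)))))))))) (by decide +kernel)
def c17146 : PP 9 3 T 0x2000000000000040000001000000000000000000000004000000000000000000000000000000000000000000000000000000000000000000000000000000 := rS 0x4ded565f206a75fef3558ec163704ca58e792bc0489151312694076a90d5a29128474201589cdae883aa7cfacb37048bf922e01365b1 (k8 c17143 c5210 c16643 c11323 c17122 c5439 c17141 c318 (k8 c1144 c5442 c2815 c5440 c425 c1983 c9718 c1982 (k8 c53 c16954 c15516 c12632 c9692 c5490 c5252 c2837 (k8 c15501 c17079 c5334 c317 c3046 c424 c3066 c5353 (k8 c5441 c5357 c17111 c16665 c5518 c5516 c5332 c5500 (k8 c5540 c5544 c15596 c422 c17145 c14538 c15208 c2497 (k1 c16784 k0))))))) (by decide +kernel)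
def c17147 : PP 9 3 T 0x80000000000000059000010000000000000000000000000000000001000010000000000500440000004004000024001018000004000000440000000000560 := rS 0x1a9b35ac91c9d56abdfaa988ac4e713 (k8 c5547 c9718 c1982 c9728 c5489 c5405 c5406 c5490 (k4 c15596 c15595 c17103 c2378 (k2 c2497 c316 (k1 c16784 k0)))) (by decide +kernel)
def c17148 : PP 9 3 T 0x50000001000000000000000000000004000000000000000000000000000000000000000000000000000000000000000000000000000000 := rS 0x69b2542354e0e0f69b669b01a8335aa95e974a86622872d8ec1e0b1b9dc1329639e4ae7101c062a2624d280ed521ab452250880562736ba20ea9f3eb2cdc5fc96cb63f2f6e87de4409170099d (k8 c17118 c16643 c11323 c17141 c424 c5582 c16954 c17146 (k8 c5191 c17143 c5210 c17122 c5439 c318 c1144 c5442 (k8 c2815 c5440 c425 c1983 c9718 c1982 c53 c15516 (k8 c12632 c9692 c5490 c5252 c2837 c15501 c17079 c5334 (k8 c317 c3046 c3066 c54 c2869 c5353 c5441 c5357 (k8 c17111 c16665 c14727 c5518 c5516 c5329 c5332 c11445 (k8 c11253 c9728 c9698 c5488 c5404 c5406 c17147 c1138 (k8 c1974 c316 c5665 c12000 c2492 c15477 c5710 c16784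 (k4 c15579 c1277 c1276 c2937 (k1 c3618 k0)))))))))) (by decide +kernel)
def c17149 : PP 9 3 T 0x1000010000000000000000000000000000100000000000000000000000040000000001100000005001400404000000440000100004460 := rS 0x9a4998470198898c120d (k8 c315 c16665 c9754 c9728 c9698 c3568 c15705 c9515 (k2 c3598 c9848 k0)) (by decide +kernel)
def c17150 : PP 9 3 T 0x40000001000000000000000000000004000000000000000000000000000000000000000000000000000000000000000000000000000000 := rS 0x3518f7da0c43d1ad08837f264da214eed3e5edd881d3ecb6bb5563ef459b910440910d5afd149ccb21dd921cb62508e84023b0782c6f4a94e74bec73e9e4ea332be48b804 (k8 c16643 c11323 c17122 c5353 c383 c5440 c5441 c5442 (k8 c5357 c5439 c17118 c17111 c17079 c5518 c5516 c5329 (k8 c5332 c53 c16954 c15516 c12632 c11445 c11253 c5210 (k8 c5486 c313 c9718 c9692 c5405 c5490 c5252 c17141 (k8 c424 c425 c318 c2977 c5582 c1982 c2837 c1983 (k8 c1144 c2815 c15501 c17143 c17146 c5191 c17148 c5412 (k8 c5528 c5529 c5530 c15208 c2397 c2840 c11575 c17149 (k4 c847 c848 c5451 c1469 (k2 c1704 c5653 k0))))))))) (by decide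 +kernel)
def c17151 : PP 9 3 T 0x2000000000000002000001000000000000000000000004000000002000000000000000000000000000000000000000000000000000000000000000000000 := rS 0x44a2d206e351b4f4df57c451a0994e747a7dc96d44a11008a4464725a840e61f7d2ab01313e87e6b380ac76db206bccb804 (k8 c16643 c11323 c5540 c422 c5210 c17150 c5421 c5502 (k8 c5574 c14538 c16954 c5570 c317 c12635 c17079 c14774 (k8 c5445 c713 c5398 c12639 c5520 c9734 c9692 c53 (k8 c15516 c12632 c9048 c17122 c5442 c12640 c17118 c17111 (k8 c16665 c12629 c9728 c5406 c2950 c17114 c742 c5665 (k4 c1139 c1140 c2978 c3042 (k1 c5673 k0))))))) (by decide +kernel)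
def c17152 : PP 9 3 T 0x2000000000000002000001000000000000000000000004000000000000000000000000000000000000000000000000000000000000000000000000000000 := rS 0x48a0cd88f35c08411506bcd53b288a34b80f2482deb9d38acf6a2508804522323d2897a10989f6c04 (k8 c16643 c17150 c5570 c317 c16954 c12639 c17079 c5520 (k8 c9734 c9692 c53 c15516 c12632 c9048 c5574 c5571 (k8 c17118 c5519 c5516 c5334 c5329 c11323 c12629 c9728 (k8 c5210 c5489 c5540 c422 c17151 c8534 c11235 c2371 (k4 c2406 c5665 c8722 c746 (k1 c17016 k0)))))) (by decide +kernel)
def c17153 : PP 9 3 T 0x800000000000008a000000000000000000000200000004000100000000000000000000000000000000000000000000000000000000000004011001000000 := rS 0x1f85c6831efb488ad756abd2e956590d42c9 (k8 c5396 c5398 c5561 c5420 c5488 c5404 c5406 c5490 (k8 c5507 c5582 c11200 c9031 c1918 c5653 c1619 c441 (k1 c13756 k0))) (by decide +kernel)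
def c17154 : PP 9 3 T 0x10000010000000000000000000000000000000000400000000000000000000000400000001000000000000000004000000000200055420 := rS 0x369ad1d11 (k4 c9728 c12647 c2371 c2432 (k1 c5665 k0)) (by decide +kernel)
def c17155 : PP 9 3 T 0x2000001000000000000000000000004000000000000000000000000000000000000000000000000000000000000000000000000000000 := rS 0x35d15df663f9a2cf4eaad04853503041018aa4627f2f7c0fdbe303a64c29b64abd2efd4aaa432632c87764872d87c1e4905826539d2f9e4fe751e9f46657c917166b15aed44a11008a44647a512eb01313edb4204 (k8 c16643 c16954 c17150 c5570 c317 c12635 c12639 c17079 (k8 c5520 c9734 c9692 c53 c15516 c12632 c9048 c5422 (k8 c5421 c5574 c11323 c17122 c5353 c383 c5442 c12640 (k8 c5440 c5358 c5441 c5439 c17118 c17111 c16665 c5516 (k8 c5334 c5329 c5517 c11445 c11253 c5210 c5486 c313 (k8 c9754 c9698 c5489 c5488 c5405 c5404 c5406 c5396 (k8 c5397 c5445 c5447 c713 c15669 c17152 c11700 c17153 (k8 c5191 c5547 c5589 c5590 c5592 c8140 c17154 c316 (k8 c2541 c423 c1138 c1135 c11551 c1975 c8604 c3617 (k4 c15342 c2397 c2191 c16062 k0))))))))))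 (by decide +kernel)
def c17156 : PP 9 3 T 0x40001000000000000000000000000000000000000000000000000000000000000000400000000000000000002000050000000004001011000000000050140 := rS 0x3e70205bfe3 (k4 c15669 c2948 c908 c5691 (k2 c12613 c3056 k0)) (by decide +kernel)
def c17157 : PP 9 3 T 0x2000000000000000000001000000000000000000000004000000000000000000000000000000000000000000000000000000000000000000000000000040 := rS 0x41a3cd7021045522e3f0aa6228d1d83c920b1bbd4820994e758e793f95c7a7dc96d44a11008a44647a512f421313ec7e6b380ac76db206bccb804 (k8 c16643 c11323 c5540 c422 c5210 c17150 c5421 c5502 (k8 c5574 c14538 c17155 c5570 c317 c16954 c12639 c17079 (k8 c5520 c9734 c9692 c53 c15516 c12632 c9048 c17122 (k8 c5442 c12640 c5353 c5358 c5441 c5357 c17118 c17111 (k8 c16665 c12636 c5519 c5518 c5516 c5334 c5329 c5332 (k8 c12629 c9728 c5489 c15597 c15608 c17156 c15512 c8534 (k4 c11235 c2371 c2406 c8722 (k1 c17016 k0)))))))) (by decide +kernel)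
def c17158 : PP 9 3 T 0x2000000000000000000001000000000000000000000004000000000000000000000000000000000000000000000000000000000000000000000000000000 := rS 0x44cd8e370f8538d6f1a6536cd6ab4d9216303106006f7b3da2ab4ba5553b20c9704a010f8ddeb4aceb1c7a7dc90453ecb5890eb01313edb4204 (k8 c16643 c16954 c17150 c5570 c317 c12635 c5561 c5421 (k8 c5420 c5572 c15516 c17122 c5442 c12640 c5357 c17118 (k8 c17079 c5519 c5518 c5517 c53 c12632 c11323 c9698 (k8 c5210 c5489 c5488 c5404 c5500 c5501 c5543 c14774 (k8 c17157 c822 c821 c713 c714 c1915 c1918 c1475 (k8 c1916 c1066 c1463 c6458 c15501 c8724 c16843 c4269 (k4 c4306 c1697 c8617 c14768 k0))))))) (by decide +kernel)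
def c17159 : PP 9 3 T 0x40000000000000081000110080000000000000000080000000100000000000000000000000000000000000000000000000000000000000000000000001060 := rS 0x3d1b1be6b890822a9171f8433111d83c920b1b90412c73c9fcae3d3eacf6a250880452232392c2627 (k8 c5570 c317 c12639 c5520 c9734 c9692 c53 c15516 (k8 c12632 c9048 c5574 c5442 c12640 c5353 c5358 c5441 (k8 c5357 c16665 c12636 c5518 c5516 c5334 c5329 c5332 (k8 c9728 c9698 c15597 c15608 c17156 c15512 c8534 c17154 (k4 c2371 c2512 c5665 c17114 (k1 c15477 k0)))))) (by decide +kernel)
def c17160 : PP 9 3 T 0x11000110080000000000000000000000000000002000000000000100000000000000001100000200000000000000000000000000000060 := rS 0x1e03d26d2011 (k4 c15516 c15512 c1192 c907 (k2 c5679 c5457 k0)) (by decide +kernel)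
def c17161 : PP 9 3 T 0x40000000000000000000001000000000000000000000004000000000000000000000000000000000000000000000000000000000000000000000000000000 := rS 0x1207b807822ae1400fd241768b3d329d55c4d0485350300eff6ab5fdcaf4bbf52aa90c9643bb24396c3e4104ca4be793f9d47a7d1995f245c59a7d96b1da89422011488c8f4a2590eb01313ed809b181fb73ba1 (k8 c16954 c17118 c17158 c11700 c17155 c16643 c17150 c5570 (k8 c317 c12635 c5561 c12639 c17079 c5520 c9734 c9692 (k8 c53 c15516 c12632 c9048 c5421 c5420 c5572 c5574 (k8 c11323 c17122 c5353 c383 c5442 c12640 c5440 c5358 (k8 c5441 c5439 c17111 c16665 c12636 c5517 c11445 c11253 (k8 c5210 c5486 c313 c9698 c5489 c5488 c5405 c5404 (k8 c5406 c5191 c5507 c5585 c5586 c15501 c17159 c316 (k8 c2541 c423 c2598 c1138 c1135 c2373 c11551 c1975 (k8 c16788 c5648 c326 c12613 c1717 c17160 c15611 c8604 (k2 c5457 c1978 (k1 c907 k0))))))))))) (by decide +kernel)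
def c17162 : PP 9 3 T 0x1000000000000000000000004000000000000000000000000000000000000000000000000000000000000000000000000000000 := rS 0x114177f3459e9955a090a6a06082031548c4fe5b109ed56ab113acf6c331e9d4ae7f3c9f4bf92ce90413292382c920f0fd284a1125e850e592e16c46290081152950ebf52fb2 (k8 c5210 c5404 c5405 c5486 c5488 c5489 c16643 c53 (k8 c9692 c9734 c11445 c11323 c313 c11253 c16954 c12639 (k8 c15516 c12632 c17079 c5517 c5329 c5334 c5516 c5520 (k8 c17111 c16665 c12636 c17118 c17122 c5439 c5442 c5441 (k8 c5358 c5353 c5440 c12640 c383 c17150 c5574 c5570 (k8 c5421 c5422 c9048 c317 c17155 c17161 c5547 c5589 (k8 c5590 c5592 c8140 c17154 c316 c2541 c423 c1138 (k4 c2373 c11551 c1975 c14396 (k2 c16788 c2397 (k1 c15567 k0)))))))))) (by decide +kernel)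
def c17163 : PP 9 3 T 0x4200000000000005a000221000000000000000000000000000000000000000000000000000000000000000000000000000000000000000000000000000010 := rS 0x22ab5582cc53581152c4a1f1089c0401324a5521d789146af30dbd6740d3584cdef755c05faff (k8 c5544 c5542 c5502 c5500 c5498 c5565 c5564 c5523 (k8 c5522 c17162 c5477 c5475 c5325 c5324 c5326 c9695 (k8 c5486 c5489 c14275 c13834 c1056 c5642 c267 c265 (k8 c1111 c1113 c15058 c3581 c5231 c5339 c15787 c12176 (k2 c1339 c1294 (k1 c5685 k0)))))) (by decide +kernel)
def c17164 : PP 9 3 T 0x6000000000000056000001000000000000000000000000000000002000000000000000000000000000000000000000000000000000000000000000000010 := rS 0x2310870754b4b8dc2e33ef4a0cab10fbc46af30d8c5ea19c9ce926c94abdd56d1 (k8 c5501 c5500 c5498 c5446 c5396 c5444 c17162 c13455 (k8 c6205 c5477 c5476 c5475 c5325 c5324 c9695 c15434 (k8 c1294 c9092 c14021 c14148 c5316 c5433 c5435 c5452 (k4 c10382 c9979 c3577 c340 (k2 c483 c5650 k0))))) (by decide +kernel)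
def c17165 : PP 9 3 T 0x42000000000000056000001000000000000000000040000000200000000000000000000000000000000000000000000000010000000000000001000000010 := rS 0x79c621118e9a6d500779e6f549a6deed11e906b0331f8dfc33a (k8 c17162 c6290 c5435 c5318 c5316 c5231 c5340 c5560 (k8 c5501 c5498 c5397 c5444 c5477 c5325 c14148 c14159 (k8 c5454 c5496 c9979 c9731 c340 c1773 c5650 c13686 k0))) (by decide +kernel)
def c17166 : PP 9 3 T 0x46000000000000056000201000000000000000000040000000200000000000000000000000000000000000000000000000000000000000000000000000010 := rS 0x8623512cb03b874c8071f95de2350d8c433939d3244b15088f63b58 (k8 c5231 c5341 c5560 c5558 c17164 c16791 c5396 c17162 (k8 c13455 c6205 c5476 c5475 c5324 c9695 c5313 c5318 (k8 c5432 c17165 c1954 c2053 c9092 c9240 c1334 c1127 (k2 c15288 c1627 k0)))) (by decide +kernel)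
def c17167 : PP 9 3 T 0x42000000000000052000221000000000000000000040000000000000000000000000000000000000000000000000000000000000000000000000000000010 := rS 0x1107d6802598055264948a6b0457986deb3a3584def15d9fbe031343a3d128d7fa0d2285 (k8 c5541 c5374 c5525 c5544 c5381 c5567 c5526 c5373 (k8 c5382 c5502 c8783 c17163 c17164 c5498 c5564 c5523 (k8 c17162 c5477 c5475 c5325 c5326 c5231 c5339 c17166 (k8 c13812 c1957 c1056 c15787 c5642 c5685 c1111 c6197 (k1 c1339 k0))))) (by decide +kernel)
def c17168 : PP 9 3 T 0x2000000000000000000021000000000000000000080000000200000000000000000000000000000000000000000000000000000000000000000000000000 := rS 0xec332ebccb73a079ec1a7941bdc760b (k8 c5516 c5332 c5498 c5525 c5524 c5522 c5372 c5369 (k4 c17162 c5474 c5325 c5321 (k2 c5316 c14086 (k1 c11392 k0)))) (by decide +kernel)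
def c17169 : PP 9 3 T 0x42000000000000052000221000000000000000000000000000000000000000000000000000000000000000000000000000000000000000000000000000010 := rS 0x20012a43a69324a416230fd2b66f17986deb939d03c1a837baad0afd (k8 c5542 c5541 c5500 c5498 c5525 c5522 c5369 c17162 (k8 c13455 c5477 c5475 c5325 c9695 c17163 c17167 c5517 (k8 c5331 c5516 c17168 c13812 c124 c8808 c1957 c12065 (k2 c3581 c265 k0)))) (by decide +kernel)
def c17170 : PP 9 3 T 0x200000000000001a000021000000000000000000000000000000000000000000000000000000000000000000000000000000000000000000000000000010 := rS 0x5d385fefb3588363a8ec72061152c3e21011dc0264f0ca5521d4bbc46af30d8c5ea19c9ce8f60d359e506c94da5532f755b45facf (k8 c5543 c5542 c5501 c5500 c5498 c5447 c5446 c5397 (k8 c5396 c5525 c5524 c5523 c5522 c5372 c17162 c13455 (k8 c6205 c5477 c5476 c5475 c5325 c5324 c9695 c5404 (k8 c5486 c5489 c14275 c8772 c13834 c1056 c2053 c5642 (k8 c265 c1111 c15058 c3581 c13815 c395 c1674 c1452 (k8 c5654 c13753 c2329 c5451 c1629 c8710 c1107 c1479 k0)))))) (by decide +kernel)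
def c17171 : PP 9 3 T 0x2000000000000016000001000000000000000000040000000200000000000000000000000000000000000000000000000010000000000000000000000010 := rS 0x540793a21118e801de79bd5269b4cbdd56d10b8dfc33a (k8 c17162 c6290 c5435 c5433 c5501 c5500 c5498 c5447 (k8 c5397 c5444 c5477 c5325 c14148 c14159 c9979 c9731 (k4 c340 c5855 c5650 c9090 (k1 c2319 k0)))) (by decide +kernel)
def c17172 : PP 9 3 T 0x2000000000000052000221000000000000000000040000000200000000000000000000000000000000000000000000000000000000000000000000000010 := rS 0xc469a59601d323c46a1b18867273a64fbe031343a3d128d7fa0d228571b87e5b3 (k8 c17170 c17169 c5591 c5549 c5541 c5374 c5525 c5544 (k8 c5381 c5567 c5526 c5373 c5382 c5502 c8783 c5396 (k8 c17162 c13455 c6205 c5476 c5475 c5324 c9695 c17171 (k4 c1954 c9092 c9240 c2085 (k2 c1127 c15794 k0))))) (by decide +kernel)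
def c17173 : PP 9 3 T 0x2000000000000052000221000000000000000000000000000100000000000000000000000000000000000000000000000000000000000000000000000010 := rS 0x39d12ec50fb4c04b03b8043a64788d436310ce4e747b359e526c94afbe031343a3d128d7fa0d228571b87e5b3 (k8 c17170 c17169 c5591 c5549 c5541 c5374 c5525 c5544 (k8 c5381 c5567 c5526 c5373 c5382 c5502 c8783 c5446 (k8 c5396 c5444 c5524 c5523 c5372 c17162 c13455 c6205 (k8 c5476 c5475 c5324 c9695 c13812 c8808 c1056 c2053 (k8 c9092 c5642 c2085 c1111 c15794 c1127 c13753 c1452 (k1 c8347 k0)))))) (by decide +kernel)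
def c17174 : PP 9 3 T 0x2000000000000052000221000000000000000000000000000000000000000000000000000000000000000000000000000000000000000000000000000010 := rS 0x29728 (k2 c17173 c17168 (k1 c17172 k0)) (by decide +kernel)
def c17175 : PP 9 3 T 0x41000000000000054000201000000000000000000040000000200000000000000000000000000000000000000000000000000000000000000000000000010 := rS 0x3aad3277c82296ab5d631dac7b9e2432286e741337a24663d (k8 c5436 c5316 c5567 c5565 c5564 c17162 c5475 c5326 (k8 c5478 c9695 c5201 c5231 c5504 c5506 c5507 c5585 (k4 c5339 c5340 c16045 c14089 (k2 c1959 c1954 (k1 c9423 k0))))) (by decide +kernel)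
def c17176 : PP 9 3 T 0x1000800000000012000001000000000000000000040000000200000000000000000000000000000004000000000000000000000000000000000440000000 := rS 0x68bdc76a8103f5e6f549a546fb31a86e74f1 (k8 c9695 c17162 c5475 c5324 c14275 c5435 c5446 c5444 (k8 c5477 c5325 c13351 c5650 c5682 c340 c343 c2024 (k1 c9979 k0))) (by decide +kernel)
def c17177 : PP 9 3 T 0x81000000000000012000221000000000000000000040000000200000000000000000000000000000100000000000000000010000000000000000000000010 := rS 0x6b2b0831d593f04c6d54878e26811b4daaab0077886457ac45226b47a4d2a73899bc663f1eecc6a1b9d3c56b15 (k8 c5590 c5548 c9695 c17162 c5475 c5324 c14275 c5436 (k8 c5318 c5316 c5565 c5382 c5379 c5446 c5444 c5526 (k8 c5523 c5374 c5371 c5477 c5326 c5478 c14148 c14159 (k8 c8138 c5454 c5496 c9731 c8135 c13518 c17176 c2319 (k8 c2316 c12200 c5682 c3604 c352 c349 c2557 c16045 (k1 c2032 k0)))))) (by decide +kernel)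
def c17178 : PP 9 3 T 0x52000221000000000000000000040000000200000000000000000000000000000100000000000000000000000000000000000000000010 := rS 0x1bec73fb398875efb35fe8b4b2abdc770e9a4c8310ce4d0e9141a3d928146c4cfb0380fcb66350dce9e3ed (k8 c17174 c9695 c17162 c5475 c5324 c14275 c17175 c5592 (k8 c5550 c5566 c5382 c5381 c5380 c5396 c5526 c5525 (k8 c5374 c5373 c13455 c6205 c5476 c17177 c124 c1954 (k8 c2053 c9092 c8720 c9240 c5583 c5586 c2075 c5452 (k4 c1529 c1127 c1285 c8304 (k2 c839 c2564 (k1 c14109 k0))))))) (by decide +kernel)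
def c17179 : PP 9 3 T 0x52000221000000000000000000040000000200000000000000000000000000000000000000000000000000000000000000000000000010 := rS 0x1be7f63b39889666875546469bf5526734ac206b5f96cde2350d8c433939d324e68146c4cfbed (k8 c17174 c5566 c5382 c5381 c5380 c5379 c5396 c17162 (k8 c13455 c6205 c5476 c5475 c5324 c9695 c14275 c17175 (k8 c5548 c5550 c17178 c1332 c2179 c2183 c1335 c2085 (k8 c5664 c5682 c1954 c2075 c9240 c1127 c1285 c839 (k2 c841 c2565 (k1 c14109 k0)))))) (by decide +kernel)
def c17180 : PP 9 3 T 0x40000000000a000001000000000000000200000000000100000000000000000000000000000000000000000000000000000000000000005000400000 := rS 0x35de2432286c6219c9ce9269f50b24831d (k8 c5341 c5340 c5396 c5398 c5448 c5444 c17162 c13455 (k8 c6205 c5476 c5475 c5326 c5478 c9695 c14269 c14497 k0)) (by decide +kernel)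
def c17181 : PP 9 3 T 0xa000001000000000000000200000000000100000000000000000000000000000000000000000000000000000000000000005010400000 := rS 0x1de193c46a1b18867273a49b252a97 (k8 c5404 c5446 c5396 c5444 c17162 c13455 c6205 c5476 (k4 c5475 c5324 c9695 c3577 (k2 c17180 c5492 k0))) (by decide +kernel)
def c17182 : PP 9 3 T 0x58000221000000000000000000040000000000000000000000000000000000000000000000000000400000000000000000000000800008 := rS 0x629d5a2cd42b1d9e5e030d938317ae4e747b439e506571107cd697 (k8 c5404 c5523 c1111 c6197 c9757 c5525 c5524 c5373 (k8 c5372 c17162 c13455 c5477 c5476 c1258 c1259 c1108 (k8 c1107 c1650 c2326 c13906 c2329 c1481 c1452 c1629 (k1 c3607 k0)))) (by decide +kernel)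
def c17183 : PP 9 3 T 0x5a000221000000000000000000040000000000000000000000000000000000000000000000000000000000000000000000000000000010 := rS 0x36f0b7876c72f9fc0cc41ffc9ae093af7eb2320ba5de235189ed269539a06267d0e9dd92571384c4a6f1c8883e0200992521b35867273a (k8 c17162 c13455 c6205 c5523 c5475 c17179 c13979 c1056 (k8 c5642 c1111 c6197 c395 c5565 c1113 c5564 c267 (k8 c9757 c5396 c2053 c8808 c5566 c5382 c5380 c5379 (k8 c5446 c5444 c5372 c5476 c5324 c9695 c5404 c17182 (k8 c3577 c17181 c5492 c1964 c272 c12549 c5231 c13883 (k8 c5668 c5643 c677 c1629 c13650 c1674 c14109 c13891 (k2 c5654 c2332 k0))))))) (by decide +kernel)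
def c17184 : PP 9 3 T 0x41000000000000054000201000000000000000000040000000000000000000000000000000000000000000000000000000020000000000000000010000010 := rS 0x52b18ed63dcf121914373a099bd5a89 (k8 c5567 c1959 c5565 c5564 c17162 c5475 c5326 c5478 (k4 c9695 c5201 c5231 c5504 (k2 c5506 c5339 (k1 c9423 k0)))) (by decide +kernel)
def c17185 : PP 9 3 T 0x2000001000000000000000000000000000100000000000000000000000000000000000000000000000020004000000000000000400040 := rS 0x334b8218af12e8d436310ca4d2a1dc9ce8eec9 (k8 c5396 c2053 c17162 c13455 c8808 c5446 c5444 c6205 (k8 c5476 c5475 c5324 c5321 c9695 c13953 c5643 c1127 (k2 c272 c3577 k0))) (by decide +kernel)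
def c17186 : PP 9 3 T 0x80000000000000012000221000000000000000000000000000100000000000000000000000000000000000000000000000020000000000000020800000008 := rS 0x78def19fc82c70305c7f5940c4cfa570f9ac7219c9ce9c6e1 (k8 c5591 c5549 c17162 c13455 c6205 c395 c5523 c1111 (k8 c9757 c5566 c5382 c5380 c5339 c404 c14507 c17185 (k4 c13650 c1734 c677 c14235 (k2 c14109 c5655 (k1 c2771 k0))))) (by decide +kernel)
def c17187 : PP 9 3 T 0x2000001000000000000000000000000000100000000000000000000000000000000000000000000000020000000000000000000000048 := rS 0x2e57 (k2 c9757 c1108 (k1 c17185 k0)) (by decide +kernel)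
def c17188 : PP 9 3 T 0x52000221000000000000000000040000000000000000000000000000000000000000000000000000000000000000000000000000000010 := rS 0xdfc2de3f8ed8e0623846b029f96cc72221287c4e0200874c9290d867273a3d9ad0313099bcfbed (k8 c17174 c5566 c5565 c5564 c5382 c5380 c5523 c5372 (k8 c17162 c13455 c6205 c5475 c17179 c13979 c8808 c1056 (k8 c5642 c267 c1111 c1113 c6197 c395 c17183 c17184 (k8 c17186 c5651 c5558 c5562 c17187 c13650 c1674 c676 (k4 c14109 c5538 c2331 c5654 k0))))) (by decide +kernel)
def c17189 : PP 9 3 T 0x8000800000000000000000000000000000000000080008000200000000000000000000000000000000000000000000000000000000000000000000000000 := rS 0x343c24322bcdea3b7b9246e47 (k8 c5520 c5518 c5334 c5333 c5332 c5477 c5325 c5326 (k4 c5478 c6344 c9979 c9159 k0)) (by decide +kernel)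
def c17190 : PP 9 3 T 0x1000000000000012000021000000000000000000000000000200000000000040000000000000000000000000000000000020000000000040000000000410 := rS 0x4b398896551dc3a310ce4c1ec92b8e40fb31a86e74f1 (k8 c9695 c17162 c5475 c5324 c14275 c5432 c5317 c5313 (k8 c5396 c5369 c13455 c6205 c5476 c1954 c2053 c8720 (k4 c9240 c1127 c1285 c1627 (k1 c16693 k0)))) (by decide +kernel)
def c17191 : PP 9 3 T 0x1000000000000012000021000000000000000000080000000200000000000000000000000000000000000000000000000000000000000000000000000010 := rS 0x1f82066b3d2eabef19766171c8cde2357986c62f50ce4e743b0fbdc1637 (k8 c5518 c5516 c5333 c5517 c5332 c17162 c13455 c6205 (k8 c5477 c5476 c5475 c5325 c5324 c9695 c5316 c5317 (k8 c5433 c14275 c17190 c14148 c8138 c5452 c5453 c5495 (k2 c13742 c13811 (k1 c2550 k0))))) (by decide +kernel)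
def c17192 : PP 9 3 T 0x1000400000000018000201000000000000000000000000000100000000000040000000000000000000000000000000000000000000000440000440000090 := rS 0x17988c701004c81b0ce4e7497 (k8 c5404 c17162 c13455 c6205 c5475 c14021 c1056 c5642 (k4 c13650 c13837 c13981 c1629 k0)) (by decide +kernel)
def c17193 : PP 9 3 T 0x100000000000001a000221000000000000000100000000000100000000040040000000000000000000000000000000000000000000400440020440000010 := rS 0xb525c042c8a19f792e3548a4d9295550841af378bf4d61d54a0deac73a8c4fe3f0ce4c0c020086cc93a (k8 c17162 c14021 c5475 c1056 c5642 c17187 c13455 c6205 (k8 c404 c677 c5476 c1452 c13650 c5477 c5525 c1957 (k8 c8808 c5523 c1128 c9695 c5325 c5522 c265 c3581 (k8 c5446 c5396 c5444 c5374 c5324 c5404 c17192 c5492 (k4 c13725 c3577 c3068 c12080 (k2 c1345 c15092 k0)))))) (by decide +kernel)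
def c17194 : PP 9 3 T 0x41000000000000054000000000000000000000000080008000000000000000000000000000000000018000000000000000000000000000000020000001000 := rS 0x25c056ab1f710c8af37a91e2a23 (k8 c5331 c1289 c5520 c5477 c5325 c5326 c5478 c5201 (k4 c5506 c1344 c15060 c12113 (k1 c9072 k0))) (by decide +kernel)
def c17195 : PP 9 3 T 0x52000221000000000000000000000000000000000000000000000000000000000000000000000000000000000000000000000000000010 := rS 0xf7c6de70b8fe5b33fc0c7e4163aa85006128844e0200aa5faad0e9925359238ddee230f8ee95ed78bcc36f50ce4e740d35a0d0313099bcfa89 (k8 c5567 c5566 c5565 c5564 c5382 c5380 c5525 c5523 (k8 c5522 c17162 c13455 c6205 c5477 c5475 c5325 c9695 (k8 c17174 c17188 c5332 c5517 c5331 c5333 c5518 c5520 (k8 c12110 c17191 c14021 c8808 c1959 c1128 c1957 c1056 (k8 c5642 c267 c265 c1113 c17187 c5651 c3581 c13650 (k8 c1734 c404 c12094 c677 c17193 c17194 c5549 c5591 (k4 c14109 c14235 c2770 c5655 k0))))))) (by decide +kernel)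
def c17196 : PP 9 3 T 0x2000000000000026000001000000000000000000000000000000000000000000000000000000000000000000000000000400000000000000000000000010 := rS 0x197befd7bbc67499 (k8 c5447 c17162 c9695 c5498 c5542 c10390 c12418 c14089 k0) (by decide +kernel)
def c17197 : PP 9 3 T 0x22000221000000000000000000040000000200000000000000000000000000000000000000000000000010000000000000000000000010 := rS 0xe25f3434daa00ef1acf2331f85c7bb31a86e74f1 (k8 c9695 c17162 c5475 c5324 c14275 c5436 c5433 c5318 (k8 c5316 c5524 c5523 c14148 c14159 c5454 c5496 c8135 (k2 c1054 c13518 (k1 c15827 k0)))) (by decide +kernel)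
def c17198 : PP 9 3 T 0x22000221000000000000000000040000000200000000000000000000000000000000000000000000000000000000000000000000000010 := rS 0x3ed1ef8092c010e993dbb3788d5e61b18bd433939d1ad3a21 (k8 c5528 c5412 c5523 c17162 c13455 c6205 c5477 c5476 (k8 c5475 c5325 c5324 c9695 c14275 c17196 c17197 c1954 (k4 c1056 c9240 c5642 c5452 (k2 c1708 c1111 (k1 c14065 k0))))) (by decide +kernel)
def c17199 : PP 9 3 T 0x1000000000000022000020000000000000000000000000000000000000001000000000001020000000000040000000000000000000000000000000000000 := rS 0xbc7b359e4c661 (k4 c5445 c5395 c5524 c5523 (k2 c5372 c15895 (k1 c1629 k0))) (by decide +kernel)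
def c17200 : PP 9 3 T 0x2a000021000000000000000000040000000100000000001080000000000000000000000000000000000000000000000000000000000080 := rS 0xd872d0f08cfbcc54b8c674c94da653aabf6b34767b (k8 c5372 c1674 c2072 c5498 c5413 c5412 c5447 c5397 (k8 c5396 c17162 c5476 c5404 c17199 c13837 c5492 c16230 (k4 c15342 c397 c5654 c1481 k0))) (by decide +kernel)
def c17201 : PP 9 3 T 0x2400000000000000221000000000000000200000000000000000000000080000000000140000000000000000000000020000000000000000010000090 := rS 0xd47140d607f8e8a422f1219143713099bcfaad44b5d893a40b87c67b6f9e51e91 (k8 c5374 c5526 c5524 c5538 c5372 c10517 c5460 c5380 (k8 c17162 c13837 c1765 c5567 c1959 c5566 c5565 c5564 (k8 c5382 c5475 c5326 c5478 c9695 c5558 c5339 c5341 (k4 c676 c9423 c2195 c3610 (k2 c15326 c1663 k0))))) (by decide +kernel)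
def c17202 : PP 9 3 T 0x400000000040000221000000000000000000040000000100000000000080000000000100000000000000000000000000000000000040000000800090 := rS 0x38cfe3c1f8a2b2df70f8032913ca3d03133e8744e13129bc72cd1d9ede6d1c9b1cea313b95c04013206fdb3a (k8 c17162 c5498 c5475 c13979 c1056 c5642 c9757 c2053 (k8 c5476 c1452 c13572 c13455 c10484 c5325 c5372 c1674 (k8 c2072 c6897 c5565 c1113 c5564 c267 c8808 c5566 (k8 c5382 c5380 c5526 c5524 c5374 c6205 c5654 c5460 (k8 c5538 c17201 c5651 c404 c1308 c677 c1493 c3610 k0))))) (by decide +kernel)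
def c17203 : PP 9 3 T 0x400000000000000221000000000000000200000000000000000000000080000000000140000000000000000000000020000000000080000010000090 := rS 0xf7b899cdf58384ffe123c74523d08bc486450da44f28f40c4c266f3eab512cd1d9eda3ed3a8c7273a (k8 c17162 c13455 c5476 c1452 c5498 c10484 c5372 c1674 (k8 c2072 c5567 c1959 c5566 c5565 c5564 c5382 c5380 (k8 c5526 c5524 c5374 c5475 c5326 c5478 c9695 c5558 (k8 c5560 c5339 c5341 c5562 c17201 c676 c1483 c9423 (k4 c2331 c5688 c3610 c5506 (k1 c10455 k0)))))) (by decide +kernel)
def c17204 : PP 9 3 T 0x40004400000000000000220000000000000000100040000000100000000000080000100440040000000000000000040000000000001010000000000000000 := rS 0x3dd1c6a91dc4df3da44f28f40c4cfb03 (k8 c2196 c5566 c5382 c5380 c5526 c5524 c5374 c5372 (k4 c6120 c3610 c2348 c1663 (k2 c8188 c5689 (k1 c5504 k0)))) (by decide +kernel)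
def c17205 : PP 9 3 T 0x400000000042000221000000000000000000040000000000000000000000000000000000000000000000000000000000000000000000000000000010 := rS 0x389bff2f1b4cfeca1e0fdc22824d646c166b9798ec42186522794798cc3133e88e2a1dc99dd93ed2b89c262537905027518b34760601004367b7b3f4c929da1ae74f1 (k8 c9695 c17162 c5523 c17195 c17198 c13979 c1128 c12418 (k8 c5372 c5475 c1056 c5642 c17187 c1674 c2072 c5476 (k8 c1452 c5380 c1734 c5565 c1113 c5564 c267 c9757 (k8 c5498 c5396 c2053 c13455 c8808 c5414 c5409 c5566 (k8 c5382 c5445 c5395 c5526 c5524 c5374 c6205 c5478 (k8 c13837 c13572 c15895 c1765 c1450 c17202 c17203 c10038 (k8 c5651 c1484 c404 c1308 c1307 c677 c2768 c5464 (k4 c17204 c2332 c3610 c5549 k0)))))))) (by decide +kernel)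
def c17206 : PP 9 3 T 0x42000221000000000000000000040000000000000000000000000000000000000000000000000000000000000000000000000000000010 := rS 0x6e39f0b4066cf4bf799a3b03009ec017e99252f10d8c6747b35b252a994eaad53b4 (k8 c17195 c5531 c5413 c5412 c5447 c5446 c5396 c5523 (k8 c5372 c17162 c5476 c5475 c9695 c17198 c13979 c1128 (k8 c1056 c12418 c5642 c17187 c1674 c2072 c17205 c5452 (k4 c5453 c5492 c13565 c13449 (k2 c397 c1481 (k1 c5654 k0)))))) (by decide +kernel)
def c17207 : PP 9 3 T 0x42000221000000000000000000000000000000000000000000000000000000000000000000000000000000000000000000000000000010 := rS 0x4a4cb4ada3c6746b (k8 c5523 c17162 c9695 c17195 c17206 c12375 c9578 c14021 k0) (by decide +kernel)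
def c17208 : PP 9 3 T 0x42000101000000000000000000000000000200000000000000000000000000000000000000000000000000000000000000000000000010 := rS 0xc43f259027d0e9c0c88b58abfbfe3f734b663f19bc46a1b18867273a4fa859261148963b58 (k8 c5212 c5341 c9666 c8199 c5445 c5396 c5398 c5448 (k8 c17162 c13455 c6205 c5476 c5475 c5324 c9695 c5316 (k8 c5318 c14275 c14152 c5239 c5579 c5496 c2940 c2085 (k8 c5583 c14089 c12515 c1954 c2870 c751 c9240 c5670 (k2 c1127 c840 k0))))) (by decide +kernel)
def c17209 : PP 9 3 T 0x2000000000000052000021000000000000000000040000000000000000000000000000000000000000000000000000000000000000000000000000000010 := rS 0x816fb8ce1137092165eef9ece02f721915e6f5489e51e614c905271d23874e67d1ea7c4a3b3d9fc22c7032d49758148e444210687c0401324a7421b35867273a (k8 c17162 c13455 c6205 c5523 c5475 c17207 c17208 c14021 (k8 c1056 c5642 c1111 c5522 c265 c5650 c395 c8199 (k8 c5212 c5342 c11945 c17187 c13650 c9667 c676 c5372 (k8 c1674 c9666 c5448 c12427 c1456 c9719 c8808 c5562 (k8 c5341 c5444 c13854 c5447 c5445 c5526 c5524 c5374 (k8 c5477 c5325 c5326 c5478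 c5498 c5502 c17170 c12708 (k8 c5239 c13754 c8823 c12469 c2457 c8280 c2458 c2947 (k2 c751 c3610 k0)))))))) (by decide +kernel)
def c17210 : PP 9 3 T 0x1000400000000018000001000000000000000200040000000100000000000000000000000040000000000000000000000000000000000400011800000090 := rS 0x3666784bec478bd4e6020099036390ce4e7497 (k8 c5404 c17162 c13455 c6205 c395 c5475 c14021 c1056 (k8 c5642 c9719 c5477 c9695 c13837 c1629 c13891 c13968 (k2 c5654 c2329 k0))) (by decide +kernel)
def c17211 : PP 9 3 T 0x100000000000001a000121000000000000000200040000000100000000000000000000000000000000000000000040000000000000001000001000000010 := rS 0xe27f4491884581b9a3e1709c4bc364e2002de3668cdaacf62f792eaf788d50e7941a4cc29514c743a77649f4767b3a8c58e060ce4c44210687c04013206e746b (k8 c5523 c17162 c5475 c14021 c1056 c5642 c1111 c5522 (k8 c265 c5650 c13455 c6205 c17187 c13650 c5476 c1452 (k8 c5372 c1674 c1456 c5396 c2053 c8808 c5341 c8199 (k8 c5446 c5445 c5444 c5525 c5524 c5373 c5324 c9695 (k8 c5406 c5404 c17210 c5451 c5453 c5454 c5492 c5495 (k8 c13617 c3577 c5670 c1258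 c1259 c1107 c751 c1716 (k8 c5458 c1481 c1747 c12515 c3607 c1147 c949 c950 (k2 c8617 c2574 k0)))))))) (by decide +kernel)
def c17212 : PP 9 3 T 0x52000021000000000000000000040000000000000000000000000000000000000000000000000000000000000000000000000000000010 := rS 0x70b8c6de289f85027057ac7ddb3f68e56a2230c74975810834fa3d14a7c4a3b3d9fc22c70307c0401324a7421b35867273a (k8 c17162 c13455 c6205 c5523 c5475 c17207 c17208 c14021 (k8 c1056 c5642 c1111 c17187 c13650 c9667 c676 c5372 (k8 c1674 c9666 c5448 c8199 c12427 c1456 c5522 c265 (k8 c5212 c5342 c5341 c5445 c5650 c11945 c395 c17209 (k8 c17211 c5239 c5506 c5584 c12515 c751 c13885 c756 (k4 c5670 c5654 c5466 c1483 (k1 c14235 k0))))))) (by decide +kernel)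
def c17213 : PP 9 3 T 0x52000021000000000000000000000000000000000000000000000000000000000000000000000000000000000000000000000000000010 := rS 0x38dc3e25944d0315382d55eb146fbb67ed557cdee23a531de2f37a86522614cc76b01dc9bf55283398841a1f359f47a294f894fe060100436649d4a423a1 (k8 c17207 c9667 c17208 c17162 c14021 c5475 c1056 c5642 (k8 c17187 c676 c9666 c5448 c8199 c12427 c1456 c5523 (k8 c1111 c5522 c265 c9719 c5525 c1957 c1128 c13455 (k8 c8808 c5212 c5341 c5447 c5445 c5374 c6205 c5477 (k8 c5325 c9695 c13650 c17212 c5331 c5333 c11991 c3581 (k8 c5500 c12078 c5239 c5505 c5506 c5584 c14841 c12515 (k8 c3048 c751 c756 c5685 c5670 c2898 c2458 c14235 k0))))))) (by decide +kernel)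
def c17214 : PP 9 3 T 0x42000021000000000000000000000000000000000000000000000000000000000000000000000000000000000000000000000000000010 := rS 0x19ce06231dc7dff0f8865131fa04e0d557b5d63ee66ecfdb4b7b6d0fe751d9f40c1f2b808ee0154bf43a649491c971d208f44a11ac0a742f12186c63939d1ecd68349a7d9261 (k8 c5445 c5396 c5448 c5444 c5525 c5523 c5372 c17162 (k8 c13455 c5476 c5475 c5478 c9695 c17207 c8199 c5212 (k8 c9667 c9666 c12427 c13854 c5341 c5342 c5562 c17208 (k8 c14021 c8808 c1128 c1957 c1056 c2053 c5642 c9757 (k8 c1111 c17187 c1456 c1674 c1452 c676 c17213 c12418 (k8 c12375 c14062 c17200 c2072 c5239 c5506 c5507 c5584 (k8 c5585 c12515 c751 c8336 c8340 c8423 c5670 c13945 (k4 c5492 c5466 c13623 c13837 (k2 c14235 c10805 (k1 c1652 k0)))))))))) (by decide +kernel)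
def c17215 : PP 9 3 T 0x2000400000000056000220000000000000000000040008000000000000000000000000400000000000000000000000000090000000000000000000400020 := rS 0x385c7f26fb2d66d34ec556aaef7878d8a97fa1602f72ebccb61b07a1d220d41a3d429b46c4d1259 (k8 c314 c5567 c5382 c5381 c5397 c5398 c5526 c5525 (k8 c5522 c5374 c5373 c5369 c5475 c5474 c5325 c5321 (k8 c5498 c5502 c5541 c5544 c12228 c12456 c10900 c8783 (k8 c12790 c2610 c15434 c1082 c2940 c2992 c1247 c12713 (k4 c5685 c5549 c5591 c5986 k0))))) (by decide +kernel)
def c17216 : PP 9 3 T 0x20000000000000000000000000000200000000002000000000000040000000000000000000800000000000000400000000000160 := rS 0xd8850503cf60d3c95c7237 (k8 c5435 c5317 c5313 c5524 c5522 c5372 c5369 c3568 (k2 c788 c717 (k1 c2552 k0))) (by decide +kernel)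
def c17217 : PP 9 3 T 0x50000200000000000000000200000008000200000000000000000400001000001000000000000000800000010004000400000080000000 := rS 0x1a8def92288e41088948a5d2da342689 (k8 c5567 c5564 c5381 c5474 c5321 c5326 c5559 c5558 (k4 c5340 c5562 c8187 c11939 (k2 c14209 c791 (k1 c3003 k0)))) (by decide +kernel)
def c17218 : PP 9 3 T 0x1000000000000014000020000000000000000000040008000200000000000000000000000040000004000400000000800000010000000000000000000160 := rS 0x1d335f8a90f2146af506f7da287 (k8 c5373 c2131 c5493 c5522 c5477 c5324 c788 c13322 (k4 c2319 c5682 c2504 c17216 (k1 c6899 k0))) (by decide +kernel)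
def c17219 : PP 9 3 T 0x10000021000000000000000000040000000000000000000000000000000000000004000000000000000080010000000000000040000020 := rS 0x3f508f179ce90e0d (k8 c5522 c5373 c17162 c5325 c9695 c13322 c13351 c736 k0) (by decide +kernel)
def c17220 : PP 9 3 T 0x40000200000000000000000100000008000000000000000000000000000000000000000000000000000080010000000000001000000020 := rS 0x1171d5789822452e8a5628d (k8 c5381 c2179 c9692 c5321 c5326 c720 c5651 c2986 (k2 c352 c738 (k1 c12681 k0))) (by decide +kernel)
def c17221 : PP 9 3 T 0x400000000054000200000000000000000100040008000200001000000000000400409000001000015500000000000090000000000000000100000120 := rS 0x6a78dbd1c08acd967156891c3f221914ba5b0080c267d1985c7a59 (k8 c314 c5436 c5433 c5316 c5566 c5564 c54 c53 (k8 c5474 c5321 c5326 c5478 c5231 c5591 c17220 c2758 (k8 c6082 c1090 c2761 c719 c12676 c3620 c12668 c5778 (k1 c3003 k0)))) (by decide +kernel)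
def c17222 : PP 9 3 T 0x52000221000000000000000000040000000200000000000000000000000000000000000000000000000010000000000000000000000000 := rS 0x77585a92cd8ce42335f89d8aaa4421e71f858ded6bb47be763a998b2ab2e96c62f543a7d429b30a5532033481f26090224d1b132b8cc2fb31a86e74f1 (k8 c9695 c17162 c5475 c5324 c14275 c5433 c5316 c5313 (k8 c5382 c5381 c5444 c17214 c311 c13455 c8467 c9743 (k8 c54 c5447 c5446 c5445 c5397 c5398 c5448 c5373 (k8 c5477 c5476 c5474 c5321 c8138 c314 c5664 c2005 (k8 c5729 c5493 c2131 c2187 c17215 c17218 c5535 c2619 (k8 c17219 c58 c2319 c15434 c1082 c5682 c2504 c14679 (k4 c10798 c735 c4725 c2610 (k2 c17221 c6899 (k1 c17217 k0))))))))) (by decide +kernel)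
def c17223 : PP 9 3 T 0x2000000000000042000221000000000000000000040000000200000000000000000000000000000000000000000000000020000000000000000000000000 := rS 0x214e0e99a9762b54fc116989561ef7fa1602d155bdc62f5c9a1d228f4da55322911824089346c4c267d4495c66390b8dc7bb31a86e74f154a0ceec9 (k8 c5396 c2053 c5525 c1957 c9695 c17162 c5475 c5324 (k8 c14275 c5436 c5435 c5433 c5317 c5316 c5313 c5567 (k8 c5566 c5564 c5382 c5381 c5444 c17214 c311 c9734 (k8 c9692 c5447 c5446 c5397 c5526 c5374 c5373 c13455 (k8 c5477 c5476 c5498 c5500 c5501 c5502 c5541 c5544 (k8 c8783 c9092 c1092 c2085 c720 c12670 c2999 c841 (k4 c1334 c8354 c15359 c8724 (k2 c340 c5855 k0)))))))) (by decide +kernel)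
def c17224 : PP 9 3 T 0x220000000000000000000040000000000000000000000000000000000000000000000000000000000000005000000001200000420 := rS 0x11c220f488362613 (k8 c5564 c5382 c5522 c5374 c5369 c720 c2423 c12648 k0) (by decide +kernel)
def c17225 : PP 9 3 T 0x52000221000000000000000000040000000200000000000000000000000000000000000000000000000000000000000000000000000000 := rS 0x1ee6589c48d33a77c389762b3c924b637c877591033416aaf6ab55e775499366370b8e4aef11a86c6219079ec1a7941b24022303e4e74090224cde89 (k8 c5567 c5565 c5444 c17214 c311 c17162 c13455 c8467 (k8 c9734 c53 c5396 c5525 c5524 c5522 c5372 c5369 (k8 c6205 c5476 c5475 c5324 c9695 c5313 c5317 c5433 (k8 c5435 c14275 c17222 c1957 c2053 c1130 c1959 c17223 (k8 c8720 c8316 c2075 c7110 c16648 c340 c5231 c3568 (k8 c5546 c5588 c2561 c839 c1285 c9240 c9172 c5668 (k4 c1969 c17224 c60 c1090 (k2 c5283 c8156 k0)))))))) (by decide +kernel)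
def c17226 : PP 9 3 T 0x2000000000000012000020000000000000000000040008000100000000000000000000000000000000000040000000000000010000000400000000000020 := rS 0xfa1556f72ebccb61b7aa1c1a95 (k8 c5446 c5522 c5373 c5477 c5475 c5474 c5325 c5321 (k4 c5498 c5500 c5541 c8815 (k1 c10900 k0))) (by decide +kernel)
def c17227 : PP 9 3 T 0x1000000000000050000220000000000000000000040008000000000000000000000000000040000000004000000000000000000000000200001050010420 := rS 0x2547491f31311c7a0f43a441a83478a44023 (k8 c9734 c5650 c9692 c5526 c5525 c5522 c5374 c5373 (k8 c5369 c12427 c2423 c13666 c11852 c15386 c351 c11986 (k1 c192 k0))) (by decide +kernel)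
def c17228 : PP 9 3 T 0x40000000005a000221000000000000000000040000000000000000000000000000000040000000000000000000000000010000000000000040000000 := rS 0xf1adf265ac6b2241c0459ed5698cce8cd3ba11ee377996c36317a83d0e91069e5068f4fa852a99119f512c51a81cba4156abc3bed4b8ec165694813273a (k8 c17162 c13455 c17214 c17225 c10195 c770 c10737 c5404 (k8 c17226 c5486 c5406 c5490 c12628 c5321 c8467 c5324 (k8 c13953 c5567 c5566 c9734 c5447 c5446 c5398 c5448 (k8 c5526 c5525 c5524 c5522 c5374 c5373 c5369 c5477 (k8 c5476 c5475 c5474 c5325 c8484 c8123 c3571 c788 (k8 c2502 c5668 c1963 c1969 c1532 c1530 c8803 c13955 (k8 c17227 c5559 c1092 c1091 c5231 c5982 c11852 c1491 k0))))))) (by decide +kernel)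
def c17229 : PP 9 3 T 0x40000000100000000001000000000005100000005001550000000000000000000000401000080000000 := rS 0x1e0 (k2 c13446 c13449 k0) (by decide +kernel)
def c17230 : PP 9 3 T 0x40000000005a000221000000000000000000040000000000000000000000000000000040000000000000000000000010000000000000000000000000 := rS 0xcf3a334ee8436a75561e0586c6311439acf28364a6d2a9934b146a072e8ecad29c9ce8b2044bbf4cea9 (k8 c5489 c5487 c5405 c5404 c17214 c314 c17162 c13455 (k8 c17225 c10195 c10737 c5321 c8467 c5324 c13953 c9743 (k8 c5447 c5446 c5397 c5396 c5525 c5524 c5523 c5373 (k8 c5371 c5476 c5475 c770 c17228 c1084 c1083 c2315 (k4 c3601 c788 c2502 c5668 (k2 c1530 c17229 k0)))))) (by decide +kernel)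
def c17231 : PP 9 3 T 0x1000000000000050000220000000000000000000040008000000000000000000000000000000000000000000000000000000000000000000001050010020 := rS 0x25c77e6481311c1e8748835068f1482c4023 (k8 c9734 c5650 c718 c9692 c5526 c5525 c5522 c5374 (k8 c5373 c5369 c2423 c13666 c15386 c16745 c351 c192 (k1 c11986 k0))) (by decide +kernel)
def c17232 : PP 9 3 T 0x140000000005a000221000000000000000000040000000000000000000000000000000000000000000000000000000000010000000000000040000000 := rS 0x3c6b11996b12489022d5699d0eecf420e1ee3705bccb61b18bd41e8706a0d42954c88cfa89628d40e5d20ab55e1df6a5c7656c9ca4093a (k8 c17162 c17214 c17225 c13455 c10195 c10737 c5404 c17226 (k8 c5486 c5406 c5490 c12628 c5321 c8467 c5324 c13953 (k8 c5567 c5566 c9734 c5447 c5446 c5398 c5525 c5522 (k8 c5373 c5369 c5477 c5476 c5475 c5474 c5325 c718 (k8 c8484 c8123 c5654 c3571 c2558 c789 c5668 c1969 (k8 c1532 c8803 c17231 c10629 c1092 c1091 c15386 c5982 (k2 c2477 c1491 k0))))))) (by decide +kernel)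
def c17233 : PP 9 3 T 0x2000200000000000000000200000008000000000000000000000500000000001000001040000000800000010000000080000080010000 := rS 0xca6a37d668a23914ba5b4684d1315 (k8 c15434 c5567 c5564 c5381 c5474 c5321 c5326 c5562 (k4 c8187 c2321 c2331 c791 (k2 c6118 c1660 k0))) (by decide +kernel)
def c17234 : PP 9 3 T 0x40000000004a000200000000000000000000000008000100000000000000000500400010001000001000000000800000010000010080001080000020 := rS 0x1e31f9f9a7ef454744d591e8448a5d4f8a52e1d (k8 c5486 c5404 c9692 c5448 c5321 c5326 c720 c12427 (k8 c17233 c5651 c351 c12681 c5583 c2939 c790 c14449 (k2 c5577 c5655 k0))) (by decide +kernel)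
def c17235 : PP 9 3 T 0x40000000005a000221000000000000000000040000000000000000000000000000000000000000000000000000000010000000000000000000000000 := rS 0xdf65acc7e2470c05ae765ab38d8cd050d93a3955c54421e71f858c1b18bd542c94da553313628d40e5d208ecad29c9ce8b20456a5dfaa9 (k8 c5489 c5405 c5404 c5490 c17214 c314 c17162 c13455 (k8 c17225 c10195 c10737 c12628 c5321 c8467 c5324 c13953 (k8 c5382 c5447 c5446 c5397 c5396 c5398 c5477 c5476 (k8 c5475 c17230 c5535 c2619 c17232 c58 c15434 c1084 (k8 c2472 c1083 c5654 c2325 c2329 c717 c17229 c2610 (k8 c2561 c1769 c15060 c1653 c17234 c2909 c2761 c1091 (k2 c2332 c6118 k0))))))) (by decide +kernel)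
def c17236 : PP 9 3 T 0x1000800000000050000220000000000000000000040008000100000000000000000000000000000050014150000000000000000000010400000050010020 := rS 0x78d62332d62491c091ee370586c622367b5466cd (k8 c5495 c5492 c5454 c5453 c9734 c5476 c5475 c718 (k8 c8484 c8123 c17231 c13955 c10629 c1092 c1091 c15386 (k2 c8161 c2477 (k1 c1491 k0)))) (by decide +kernel)
def c17237 : PP 9 3 T 0x5a000221000000000000000000040000000000000000000000000000000000000000000000000000000010000000000000000000000000 := rS 0x4eaac3c1169b35aacfef7b5521d7ea5d5ead0d8c53ea164a6d2a99208ecad29c9ce8b204 (k8 c17214 c314 c17162 c13455 c17225 c10195 c10737 c12628 (k8 c5447 c5446 c5397 c5396 c5398 c5448 c5476 c5475 (k8 c5490 c5406 c5404 c5405 c5486 c5489 c17226 c17235 (k8 c5453 c5454 c5495 c5496 c8803 c17236 c1084 c1083 (k1 c17229 k0))))) (by decide +kernel)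
def c17238 : PP 9 3 T 0x2000000000000052000221000000000000000000040000000000000000000000000000000000000000000000000000000010000000000000000000000000 := rS 0x65b7dc2d7f938cecb369ad58ddf571b3de0a4b3fd0b017b83d0e9106a0d1e9f50a6d328d89a258a3503974ea9554bd62a9d0f198d25955ecc765694813273a (k8 c17162 c13455 c17214 c17225 c10195 c10737 c17237 c8138 (k8 c314 c9743 c5664 c17219 c1083 c15434 c5477 c2319 (k8 c5446 c2005 c5321 c8467 c5324 c13953 c5567 c5382 (k8 c5381 c5447 c5397 c5398 c5448 c5526 c5525 c5522 (k8 c5374 c5373 c5369 c5498 c5502 c5541 c5544 c8815 (k8 c10404 c8783 c12456 c12790 c5452 c770 c2610 c2940 (k8 c2992 c5668 c2619 c5685 c2187 c5591 c12713 c1247 (k1 c3620 k0)))))))) (by decide +kernel)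
def c17239 : PP 9 3 T 0x1000000000000040000220000000000000000000000008000000000000000080000000000000000000000000000000000080010000000000001000000420 := rS 0x80fbe06484511e3b5808914ba5b07a441a8f46c4c2689 (k8 c5567 c5564 c5382 c5381 c5526 c5522 c5374 c5369 (k8 c5474 c5321 c5326 c720 c17220 c5341 c5562 c8187 (k4 c12876 c2195 c5583 c3068 (k1 c13257 k0)))) (by decide +kernel)
def c17240 : PP 9 3 T 0x1000400000000052000220000000000000000000000008000000000000000000000000011040000000000000000000800080018000000000000080000020 := rS 0x781bccf70b8ce1f265acd6a247b1b50a0b2ebccb6f507a1c1a6b419ccde4110c553a3b (k8 c10737 c1083 c15434 c58 c12628 c5565 c9718 c5525 (k8 c5523 c5522 c5373 c5369 c5477 c5474 c5325 c5321 (k8 c770 c788 c2315 c3571 c17239 c13705 c2761 c1091 (k8 c16791 c16289 c5549 c5591 c6082 c6118 c5688 c5538 k0)))) (by decide +kernel)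
def c17241 : PP 9 3 T 0x2000000000000000000000000000000000000001000000000000400000000001000001000000000000000000000010080002100000000 := rS 0x37dc2cb598fc92a1 (k8 c5398 c10629 c2909 c2761 c1091 c1484 c2332 c6118 k0) (by decide +kernel)
def c17242 : PP 9 3 T 0x400000000052000221000000000000000000040000000000000000000000000000000000000000000000000000000010000000000000000000000000 := rS 0xca5737d668a23b86b01112ad4d83667211c7e16335da2762296d0e914fa85328d8984d12c51a81cba413aa5443151ca74765694e4d9afcf6aa43c663496557b3023d6749b (k8 c5397 c17162 c5477 c17214 c17237 c8138 c314 c9743 (k8 c5664 c17219 c2319 c17238 c5682 c2504 c13455 c17225 (k8 c10195 c10737 c1083 c2472 c15434 c58 c5446 c2005 (k8 c12628 c5321 c8467 c5324 c13953 c5567 c5564 c5382 (k8 c5381 c5447 c5398 c5448 c5374 c5373 c5474 c5326 (k8 c5668 c10484 c2187 c17240 c5535 c2619 c14679 c5688 (k8 c5654 c735 c2610 c17241 c720 c17220 c11778 c5562 (k4 c8187 c2321 c2331 c738 (k2 c3620 c1247 k0))))))))) (by decide +kernel)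
def c17243 : PP 9 3 T 0x4000020000000000000000000040000000100000000000000000000005050000000000000000000500110008000000101000080000000 := rS 0xd9a1e1429b4167b439e5063b (k8 c10737 c5525 c5524 c5373 c5372 c770 c2315 c5871 (k4 c8115 c3607 c5654 c1481 k0)) (by decide +kernel)
def c17244 : PP 9 3 T 0x52000221000000000000000000040000000000000000000000000000000000000000000000000000000010000000000000000000000000 := rS 0x194ae6facd144770d607a1112ad4d80a1b38fc2c63bb3d2fde66bf3da9d1cc5552210f1d4ccabd99648a5b18bd53ea14da55322934a36261344b146a072e904765694813273a (k8 c17162 c13455 c17214 c17225 c10195 c10737 c12628 c5321 (k8 c8467 c5324 c13953 c5567 c5564 c5382 c5381 c9743 (k8 c9692 c5447 c5446 c5397 c5398 c5448 c5477 c5476 (k8 c5474 c5326 c314 c17237 c8138 c5664 c2005 c17219 (k8 c58 c2319 c15434 c2472 c1083 c17238 c5682 c2504 (k8 c17242 c5452 c5453 c5493 c17243 c5535 c2619 c5654 (k8 c2325 c717 c2610 c17241 c720 c12427 c17220 c1483 (k4 c5562 c8187 c2321 c2331 (k2 c738 c3620 (k1 c1246 k0)))))))))) (by decide +kernel)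
def c17245 : PP 9 3 T 0x40000000005a000221000000000000000000040000000000000000000000000000000000000000000000000000000000010000000000000040000000 := rS 0x3c0c6 (k2 c17228 c17232 (k1 c5535 k0)) (by decide +kernel)
def c17246 : PP 9 3 T 0x5a000221000000000000000000040000000000000000000000000000000000000000000000000000000000000000000000000040000000 := rS 0x20d36af7836314fa852a9920abcdead44fb52ec51a81cba590e9907656c9ca4093a (k8 c17162 c17214 c17225 c13455 c10195 c10737 c17244 c8808 (k8 c313 c5321 c8467 c5324 c13953 c1127 c17226 c5567 (k8 c1959 c5565 c1130 c12628 c5447 c5446 c5398 c5448 (k4 c5476 c5475 c17245 c5454 (k2 c5496 c17236 (k1 c8803 k0)))))) (by decide +kernel)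
def c17247 : PP 9 3 T 0x1000000000000000000000000000000000000000000000000008010000000000000000001400000000000000000000000000000 := rS 0x3af7f273a (k4 c17162 c13455 c5453 c1530 (k1 c5668 k0)) (by decide +kernel)
def c17248 : PP 9 3 T 0x2000000000000000000000000040008000100000000001000000000005000000001000040000000000000000000000400000080000000 := rS 0x4eaac363164a6d2a99 (k8 c5447 c5446 c5397 c5396 c5476 c5475 c1084 c1083 (k1 c17229 k0)) (by decide +kernel)
def c17249 : PP 9 3 T 0x1000000000000056000220000000000000000000040008000000000000000000000000000000000000000040000000200020008000000000000050000020 := rS 0xf732d622408b55a61b18a54fa41579bd5a89 (k8 c5567 c1959 c5565 c1130 c12628 c5566 c5446 c5476 (k8 c5475 c1969 c1532 c8803 c17231 c1092 c1091 c9092 (k1 c8156 k0))) (by decide +kernel)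
def c17250 : PP 9 3 T 0x52000221000000000000000000040000000000000000000000000000000000000000000000000000000000000000000000000000000000 := rS 0x20d36af78ebb30fb3fdacd2ca5d5aaf3baa5fa1d320ec82c52b4a4ba350d8c4d67941a7d42c94aa640e04c9ce8de89 (k8 c5567 c5565 c17162 c13455 c17214 c8467 c5447 c5446 (k8 c5396 c5398 c5448 c5525 c5524 c5523 c5476 c5475 (k8 c5324 c5321 c17225 c10195 c13953 c12628 c10737 c17244 (k8 c8808 c1128 c1957 c2053 c1130 c1959 c1127 c313 (k8 c8354 c17226 c17247 c17248 c17246 c17249 c5668 c5454 (k2 c5496 c17236 (k1 c8803 k0))))))) (by decide +kernel)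
def c17251 : PP 9 3 T 0x52000221000000000000000000000000000200000000000000000000000000000000000000000000000000000000000000000000000000 := rS 0xec7542198b265f792e03f267ac56aad8a890e010d98ccaef121914ba357996c36317a83d0e9106a0cc295019a40f939d02408937b82c8f4a (k8 c17250 c5520 c5516 c5333 c5444 c17214 c311 c17162 (k8 c13455 c8467 c9743 c54 c5446 c5445 c5525 c5522 (k8 c5374 c5373 c5369 c5477 c5476 c5475 c5474 c5325 (k8 c5324 c5321 c5326 c5478 c9695 c5313 c5316 c14275 (k8 c16695 c719 c720 c3048 c2758 c13705 c1092 c6082 (k8 c16791 c15060 c5546 c9072 c9092 c314 c5664 c3571 (k2 c2005 c5729 (k1 c789 k0)))))))) (by decide +kernel)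
def c17252 : PP 9 3 T 0x220000000000000000000080008000000000000000000000000000000000000000000000000000000010000000000000000010000 := rS 0x47516fff9929228f0991fdb03423d5ee0b2ebccb683438341f13 (k8 c5382 c5369 c5522 c5373 c5525 c5474 c5325 c5321 (k8 c5516 c5333 c5477 c3571 c2629 c5541 c5520 c5564 (k8 c5526 c5374 c16875 c16745 c2568 c12080 c6335 c12681 k0))) (by decide +kernel)
def c17253 : PP 9 3 T 0x52000221000000000000000000000000000000000000000000000000000000000000000000000000000010000000000000000000000000 := rS 0x757e19b66ad6a9dd38df6bb4dc2cb59b3d62b571c54787e121c021ed42164865d7996c36317a83d0e9106a0d429b4a9a5ee0b23d28825694813273a (k8 c17162 c13455 c17214 c17251 c10195 c12628 c17250 c5520 (k8 c5516 c5333 c9743 c5446 c5397 c5398 c5525 c5522 (k8 c5374 c5373 c5369 c5477 c5476 c5475 c5474 c5325 (k8 c5321 c5478 c314 c3571 c5541 c17252 c719 c720 (k8 c772 c773 c3048 c5731 c13705 c1092 c6082 c2760 (k8 c1091 c3058 c2768 c1491 c2770 c5255 c789 c2999 (k4 c2758 c5991 c5664 c13370 (k2 c2005 c13807 k0)))))))) (by decide +kernel)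
def c17254 : PP 9 3 T 0x52000221000000000000000000000000000000000000000000000000000000000000000000000000000000000000000000000000000000 := rS 0x6bb4daacb588f0fc24081652ead579dc3a6420b14ad29a510cba350d8c53ea164a540e04c9ce8de89 (k8 c5567 c5565 c17162 c13455 c17214 c8467 c5446 c5396 (k8 c5398 c5448 c5476 c5475 c5324 c5321 c5478 c17250 (k8 c17251 c10195 c13953 c12628 c17253 c8808 c2053 c1130 (k8 c1959 c1127 c313 c17252 c720 c772 c773 c1092 (k4 c1091 c2999 c2768 c1491 (k1 c3618 k0)))))) (by decide +kernel)
def c17255 : PP 9 3 T 0x4000021000000000000000000040000000000000000000000000000000000000000000010000000001011004000000144000000000120 := rS 0x76cd68f7dec763ab17da8533164ba357996c62f5079ed0e0d3ca0c066903e4e740b (k8 c717 c17162 c13455 c8467 c9743 c54 c5525 c5524 (k8 c5522 c5373 c5372 c5369 c5477 c5476 c5474 c5325 (k8 c5324 c5321 c314 c5664 c5871 c10404 c733 c2005 (k4 c5729 c3571 c5493 c2131 (k2 c2071 c6899 (k1 c11199 k0)))))) (by decide +kernel)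
def c17256 : PP 9 3 T 0x20000000000000000000000100000000000000000000045000000000000000001150000000000000000000000001040000000080000000 := rS 0x10055c5552b3 (k4 c5532 c5531 c5414 c5413 (k2 c3623 c6743 k0)) (by decide +kernel)
def c17257 : PP 9 3 T 0x220000020000000000000000000000000000200400000000000000000000000000000140004000000000000000000000000000001000020 := rS 0x167d2c46fa2f (k4 c9709 c9703 c5371 c14315 (k2 c14686 c6187 k0)) (by decide +kernel)
def c17258 : PP 9 3 T 0x1000000000000144000020001000000000400100000000000040440414000000000000000000000004000000152000000020020000000000000000000020 := rS 0x105fae1a2d91c1c2632fbc0e2e4bf1fb691237b47e26fe1c (k8 c313 c4563 c5527 c5526 c5375 c5374 c6187 c5233 (k8 c8894 c5391 c5390 c5607 c5609 c5641 c2679 c1132 (k4 c1961 c3616 c5684 c5635 (k2 c3394 c10670 k0)))) (by decide +kernel)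
def c17259 : PP 9 3 T 0x1000000000000020000220000000000000000000040000000200000000000004000000000020000000000404000000000000000000000400000080010060 := rS 0x104fedf45fcc94914084cfa3f1ef860684630e4ae79069ec120b3683c6f13 (k8 c5382 c5435 c5369 c5529 c717 c311 c5372 c5522 (k8 c5524 c5313 c5317 c3568 c838 c2629 c16865 c5436 (k8 c5318 c5566 c5564 c5380 c5374 c16856 c5546 c12080 (k4 c4673 c840 c9151 c12613 k0)))) (by decide +kernel)
def c17260 : PP 9 3 T 0x1000000000000042000221000000000000000100000000000200540014000000000000000000002000000000042000020020020001000000002000000000 := rS 0x4f90e2e31765f7dd7a5326eaca36fb36e4339307dec1b8949a8d4a0346c4e4e89c6aac166dda01366350dce9e323 (k8 c5010 c9695 c17162 c5475 c5324 c14275 c17214 c17254 (k8 c5529 c717 c5413 c5569 c5567 c5383 c5382 c5381 (k8 c54 c5399 c5449 c5444 c5527 c5522 c5375 c5369 (k8 c13455 c6205 c17257 c17258 c5349 c5350 c5600 c5604 (k8 c5605 c2762 c7175 c5310 c3103 c1398 c764 c3275 (k2 c3501 c3575 k0)))))) (by decide +kernel)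
def c17261 : PP 9 3 T 0x42000221000000000000000000040000000200000000000000000000000020000000000000000000000000020000000400000000000000 := rS 0xc1c3f0abdc3e457ef9291545b77d2c7a364a5a42dfe8b86c7563ee24890e1590840d08432ebcc037d8999dfa6b579bd5a89f6dfc3864d98d436f119a54c21e4ca74429b1185c32c61c95cf20d3d81f273a04a4c166dda0101e37 (k8 c5435 c5369 c17214 c17254 c5529 c717 c5444 c311 (k8 c17162 c13455 c8467 c5372 c5522 c5524 c5313 c5317 (k8 c3568 c6205 c5433 c9734 c5397 c5528 c5412 c5447 (k8 c3578 c5445 c5446 c5316 c9695 c5475 c5324 c14275 (k8 c17255 c313 c4563 c17223 c5567 c1959 c5565 c1130 (k8 c5523 c1128 c63 c5382 c9703 c53 c5325 c5321 (k8 c5478 c838 c2629 c17259 c5558 c719 c720 c3027 (k8 c9002 c1092 c5504 c5509 c5583 c5586 c5587 c17256 (k8 c1095 c4785 c17260 c5385 c9710 c9711 c12611 c978 (k8 c861 c3103 c1962 c5306 c2763 c1097 c2800 c1133 (k1 c3625 k0))))))))))) (by decide +kernel)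
def c17262 : PP 9 3 T 0x1000400000000020000220000000000000000000040008000200000000000000000000160000000000000404000000000000000000000400000080010060 := rS 0x238416bfb9c0dff9f8c94133e8f7c2e3630e4ae79069ec120b3683c6f13 (k8 c5382 c5435 c5369 c5529 c717 c311 c5372 c5522 (k8 c5524 c5313 c5317 c3568 c2619 c16865 c5436 c5566 (k8 c5564 c16856 c12668 c5546 c4673 c15375 c5204 c9339 (k2 c9151 c12479 (k1 c5504 k0))))) (by decide +kernel)
def c17263 : PP 9 3 T 0x42000221000000000000000000040000000200000000000000000000000000000000000000000000000000020000000400000000000000 := rS 0x32fdc2408355a6d03a3352ec567b183c19079ecf2834da64022303e4cfa9d558855217f082c1a673bb255a89f699366350dce9e2371c8ccae6dda025269530873be04 (k8 c17214 c9442 c313 c5445 c5446 c5444 c311 c17254 (k8 c5529 c5313 c5316 c5317 c5435 c9695 c17162 c5475 (k8 c5324 c14275 c17255 c17223 c5567 c1959 c5396 c2053 (k8 c63 c5522 c717 c16865 c5433 c5531 c5528 c5413 (k8 c5412 c5566 c13455 c8467 c9734 c53 c5447 c5397 (k8 c5525 c5524 c5372 c5369 c6205 c3578 c3568 c2561 (k8 c17261 c1127 c8354 c5668 c8710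 c1969 c1532 c17262 (k4 c720 c9002 c1090 c8156 k0)))))))) (by decide +kernel)
def c17264 : PP 9 3 T 0x62000220000000000000000000040000000200000000000000000000000000000000000000000000000000000000000800000041010020 := rS 0x38ad448e31391c924a489ad362939acfc20b36825260d (k8 c5522 c5444 c311 c5529 c717 c16865 c5532 c9718 (k8 c9692 c5397 c5523 c5374 c16856 c192 c191 c3698 (k4 c1774 c14149 c1094 c2754 (k1 c13067 k0)))) (by decide +kernel)
def c17265 : PP 9 3 T 0x1000000000000140000020000000004000000100000008000000500014020000000000002000000000000000000000020000000408000000002000000420 := rS 0x31651d241e43f1b3c249f6e87957ecbfd590c8af3a383ef60dc4c8c9abd (k8 c2762 c2597 c5010 c5527 c5522 c5375 c5369 c5327 (k8 c5325 c5326 c5478 c721 c3103 c5310 c5636 c5598 (k8 c8941 c566 c2245 c9779 c5510 c3671 c4460 c6187 (k2 c5782 c5390 (k1 c3575 k0))))) (by decide +kernel)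
def c17266 : PP 9 3 T 0x1000000000000140000220000400008000000100040008000004140014020000000000002000400000000000000000000000000408000000002000000000 := rS 0x147eb07f8d9e131627dba1f192ac97ec4322bce8e91bda3f131393e349abd (k8 c2762 c2597 c5569 c5383 c5382 c5527 c5526 c5375 (k8 c5374 c5327 c5325 c5326 c5478 c5310 c766 c5636 (k8 c5641 c5598 c8941 c566 c3616 c2245 c9779 c5510 (k4 c4460 c5635 c5782 c5661 k0)))) (by decide +kernel)
def c17267 : PP 9 3 T 0x1000000000000140100220000000000000000100040008000000540014020000000000002001000000040000000040021001004408000000002000000160 := rS 0x179b3493eebec7c87538bbb00c1723 (k8 c5010 c717 c54 c17265 c764 c760 c3275 c3276 (k4 c17266 c5596 c3102 c5233 (k2 c818 c6108 k0))) (by decide +kernel)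
def c17268 : PP 9 3 T 0x42000221000000000000000000040000000200400000000000000000002000000000000000000000000000020000000000000040000000 := rS 0x417eb868b64707197de071709fb7c7490f92d9ca5b9bda3f12a35281d1b1393e3583adf6dfe3b0d45c2cfedf48b8fc20d8db49c04af9d64920b23c016aaf37bf4d703383d41e8741c5566fff70700267569936635788dc72332b9b412934a98512a9588902019c981036abda10e743a (k8 c17263 c17162 c5478 c17254 c5413 c5475 c17214 c13455 (k8 c6205 c17264 c720 c1092 c5531 c5567 c5445 c5446 (k8 c5444 c311 c5529 c5313 c5316 c5317 c5435 c9695 (k8 c5324 c14275 c17255 c1959 c63 c53 c313 c9002 (k8 c5586 c5532 c5414 c5525 c5373 c5369 c5477 c719 (k8 c5720 c5523 c1128 c5565 c1130 c1094 c3623 c2790 (k8 c717 c3027 c5558 c5592 c5660 c563 c2077 c5040 (k8 c5522 c16865 c5731 c5374 c10489 c10493 c5587 c5583 (k8 c5509 c5504 c4563 c17223 c5437 c5319 c5569 c5383 (k8 c5382 c5381 c8467 c5399 c5449 c5527 c5526 c5375 (k8 c17257 c17267 c5605 c2795 c2800 c6187 c8894 c5233 (k8 c2245 c5390 c5607 c5609 c5641 c1132 c1961 c3616 (k4 c5684 c5635 c3394 c10670 k0))))))))))))) (by decide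 +kernel)
def c17269 : PP 9 3 T 0x500000000000000008000000800014000000000000000000000050000000000000020020000000000000002000020000 := rS 0x18387e157b915fe1df2522a8b6efa521975621b (k8 c5475 c1092 c5321 c5478 c5385 c9710 c9711 c12611 (k8 c978 c861 c5306 c3103 c1962 c2763 c1097 c2800 (k2 c1133 c3625 k0))) (by decide +kernel)
def c17270 : PP 9 3 T 0x42000221000000000000000000040000000200000000000000000000000000000000000000000000000000020000000000000040000000 := rS 0x12ed362b363ee02511fe70085bfe1acb58ad607ee24890e1590810dea19c983cf68741806faab8aaa56617f082c1a677e9ad5e6f56a27db7f0e193661b788dc72332b9b76809498112a61678e86b3a (k8 c17162 c5324 c17263 c1646 c5445 c5446 c17214 c5444 (k8 c311 c17254 c5529 c5313 c5316 c5317 c5435 c9695 (k8 c5475 c14275 c17255 c313 c4563 c17223 c5567 c1959 (k8 c5565 c1130 c5523 c1128 c63 c5522 c717 c16865 (k8 c5433 c5532 c5531 c5414 c5413 c9703 c53 c5525 (k8 c5373 c5372 c5369 c13455 c6205 c5477 c5478 c17264 (k8 c5558 c719 c720 c3027 c9002 c5720 c1094 c1092 (k8 c1090 c5509 c5586 c5587 c3623 c5592 c2790 c5660 (k4 c563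 c17269 c17268 c10805 (k2 c3063 c1127 (k1 c8156 k0))))))))))) (by decide +kernel)
def c17271 : PP 9 3 T 0x800000000000000000040200000000000000000000000008000004500004000000000000000000000000000000000000000000000400000000000000010020 := rS 0x482dc5592c9c278d (k8 c5569 c5564 c5383 c5595 c5636 c8941 c12621 c3671 k0) (by decide +kernel)
def c17272 : PP 9 3 T 0x140040220000000000000000100000008000004500004000000000000000000002000000000000000000000000411000000002000010420 := rS 0x487164f28e0631665f7dc1f7b06e2626bd (k8 c2762 c5382 c5527 c5522 c5375 c5369 c17271 c5310 (k8 c5233 c1398 c4038 c5350 c3501 c2639 c320 c3575 k0)) (by decide +kernel)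
def c17273 : PP 9 3 T 0x140000220000000000000000000000008000004500014000000000000000000002000000000000000000020000408000000002020010420 := rS 0x18716d9f54bd26ebc022f579bd5a89ac925621b (k8 c5475 c1092 c192 c5342 c5567 c1959 c5565 c1130 (k8 c9709 c53 c5479 c2597 c2762 c17272 c5600 c3266 (k2 c2223 c12591 k0))) (by decide +kernel)
def c17274 : PP 9 3 T 0x111000000000000000000220000000000000000000000000000000000040140204000000000000000000000000001000000000000008000000000000000000 := rS 0x20f09802362689 (k4 c5567 c5382 c5381 c12107 (k2 c2245 c3441 (k1 c5695 k0))) (by decide +kernel)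
def c17275 : PP 9 3 T 0x1000000000000042000221000000000000000000000000000204440000000000000000000000002000000000000000000020020008000000002000010000 := rS 0x42417eaf88b465f78bfb7c7490f92d9ca5b921bcc339348ded1f8951a951b1393a271aabd98d4373a78dfc39598ec0e1a8b85fbbc63d099f7bfe1059b768090224c1bf3 (k8 c5546 c5522 c5444 c17214 c311 c17254 c5529 c717 (k8 c16865 c9442 c5566 c5564 c5436 c12668 c5204 c5587 (k8 c5583 c5509 c5508 c5504 c5342 c313 c4563 c9695 (k8 c17162 c5475 c5324 c14275 c5413 c5569 c5567 c5383 (k8 c5382 c5381 c5399 c5449 c5527 c5526 c5375 c5374 (k8 c13455 c6205 c5325 c5478 c17257 c17273 c5605 c2795 (k8 c2800 c6187 c8894 c5233 c5390 c5609 c5641 c3616 (k4 c3615 c5635 c3394 c17274 (k1 c17258 k0))))))))) (by decide +kernel)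
def c17276 : PP 9 3 T 0x42000221000000000000000000040000000200000000000000000000000000000000000000000000000000020000000000000000010000 := rS 0x2fe1f83c2af72387dc3e9f25516ddf4b678f42e1ab1f746c49235a7cfc64a2ea6efa133e8f7c20b06abcdead44fb7bf7f0e19366350dce9e2371c8ccae6dda02526044a984741e (k8 c17270 c17263 c5445 c5446 c17214 c5444 c311 c17254 (k8 c5529 c5313 c5316 c5317 c5435 c9695 c17162 c5475 (k8 c5324 c14275 c17255 c313 c4563 c9442 c17223 c5567 (k8 c1959 c5565 c1130 c5522 c717 c16865 c5436 c5566 (k8 c5564 c9703 c5397 c5321 c16856 c12668 c5546 c2590 (k8 c3804 c2591 c4785 c5204 c1092 c5509 c5587 c17275 (k8 c5345 c5385 c9710 c9711 c12611 c861 c580 c5213 (k8 c5306 c1962 c2763 c1097 c1133 c1993 c5431 c3625 k0)))))))) (by decide +kernel)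
def c17277 : PP 9 3 T 0x1000000000000144000020001000000000000100000000000040440414020000000000000000000004000000150000000020020800040000000000000020 := rS 0x61a0bf5c8e0e2d197de071709fb7c7490f92d9d237b47e26fe1c (k8 c313 c4563 c5527 c5526 c5375 c5374 c5605 c2795 (k8 c2800 c6187 c8894 c5233 c2245 c5390 c5607 c5609 (k8 c5641 c3616 c1132 c1961 c5635 c3394 c5684 c10670 k0))) (by decide +kernel)
def c17278 : PP 9 3 T 0x42000221000000000000000000040000000200000000000000000000000000000000000000000000000000020000000000000000000000 := rS 0x4bb4d8acd29c010a7f8db8372df257ce3eb485bfd170d8eb2d630371fb8922438564201e678eafe1c21bcdea19079ed0e9141a8d4a9b00df40f9346c4e4f8d55b042fadf082c1a677e9ad5e6f56a27da64d98d4373a788dc72332b9b76809498112a61 (k8 c5445 c5446 c17214 c5444 c311 c17254 c5529 c5313 (k8 c5316 c5317 c5435 c9695 c17162 c5475 c5324 c14275 (k8 c17255 c17223 c5567 c1959 c5565 c1130 c5523 c1128 (k8 c63 c5522 c717 c16865 c5437 c5433 c5319 c5413 (k8 c5569 c5383 c5382 c5381 c13455 c8467 c9703 c53 (k8 c5397 c5399 c5449 c5525 c5374 c5373 c5372 c5369 (k8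 c6205 c5477 c5325 c5478 c313 c4563 c17263 c1646 (k8 c17270 c17276 c5558 c719 c720 c3027 c9002 c5731 (k8 c5720 c1092 c1090 c5504 c5509 c5583 c5586 c5587 (k8 c17256 c17269 c5548 c1095 c2514 c17257 c563 c4785 (k8 c10493 c17260 c12107 c17277 c17267 c10805 c3063 c1127 (k1 c8156 k0)))))))))))) (by decide +kernel)
def c17279 : PP 9 3 T 0x1000400000000020000220000000000000000000040008000200000000000000000000000000000000000404000000000000010000000000000000010020 := rS 0x22e3beef9f8c945d099f47be1059b4120d (k8 c5522 c311 c5529 c717 c16865 c5436 c5566 c5564 (k8 c5321 c16856 c12668 c5546 c5204 c5504 c5583 c12681 k0)) (by decide +kernel)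
def c17280 : PP 9 3 T 0x1000000000000140100220000000400000000100040008000000540014020000000000002001000000040000040040021001004008000000002000000160 := rS 0x20ff182fd5f1168cbef1709fb6921f25b39488691bda3f128d89c9d138d (k8 c5569 c5567 c5383 c5382 c5381 c5527 c5526 c5375 (k8 c5374 c5478 c17267 c5605 c2795 c2800 c6187 c5233 (k8 c2245 c5390 c5609 c5641 c3616 c3615 c5635 c3394 (k2 c5625 c3440 (k1 c5695 k0))))) (by decide +kernel)
def c17281 : PP 9 3 T 0x1000000000000140000220000000000000400100000008000004540004010000000000002000000000000000002000000000000400000000000000000020 := rS 0x417eb07f8c5a136e8ce2e4bf6d2246f68fc4c4e4f8d (k8 c5569 c5383 c5382 c5527 c5526 c5375 c5374 c6187 (k8 c5233 c5391 c5390 c5641 c8941 c2679 c3616 c5510 (k4 c4460 c5635 c3395 c5695 k0))) (by decide +kernel)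
def c17282 : PP 9 3 T 0x1000000000000140000220000000000000000100000008000000540014010000000000002000002000000000002000021000000401000000002000000020 := rS 0x4f90e2e31765f7df5651b7d997a4d07dec1b890182e464a (k8 c1095 c5010 c717 c54 c5527 c5522 c5375 c5369 (k8 c2597 c2762 c17281 c5349 c5350 c5600 c7175 c5310 (k4 c3103 c1398 c764 c3275 (k2 c3501 c3575 k0)))) (by decide +kernel)
def c17283 : PP 9 3 T 0x42000221000000000000000000040000000200000000000000000000000000000000000000000000000000000000000000000000000000 := rS 0x83fc60bf57c45a13197de2feda487c96ce5280ee63f7f8db1894845a1fdef0b7fa2e1b1d667b99eb1819244870ac8403cd16277d2c1d2cfb55aaf7e993c3b3d68dd82391995de2432e8d5e65b0d8c5ea19079ed0e91bd834d68347e2546a54d9852b7d03e4e740949a36272737a271a21059b76804 (k8 c17214 c17254 c5529 c717 c5528 c5569 c5567 c5565 (k8 c5383 c5382 c5381 c5444 c311 c17162 c13455 c8467 (k8 c9703 c5446 c5445 c5397 c5399 c5449 c5527 c5526 (k8 c5525 c5523 c5522 c5375 c5374 c5373 c5372 c5369 (k8 c6205 c5477 c5476 c5475 c5474 c5325 c5324 c5321 (k8 c5478 c9695 c5313 c5316 c5317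 c5319 c5435 c5437 (k8 c14275 c16865 c17255 c1128 c1130 c1959 c17223 c17278 (k8 c1953 c9240 c5452 c1127 c1709 c14065 c17279 c5558 (k8 c719 c720 c3027 c5720 c1092 c6082 c9092 c10805 (k8 c5504 c5509 c5583 c5586 c5587 c2071 c840 c17256 (k8 c3571 c1095 c2502 c4785 c3956 c17269 c17257 c17280 (k8 c17282 c5605 c2795 c2800 c6187 c5233 c5390 c5609 (k8 c5641 c2679 c3616 c3615 c5635 c3395 c5625 c3440 (k1 c5695 k0)))))))))))))) (by decide +kernel)
def c17284 : PP 9 3 T 0x2000000000000000000021000000000000000000040000000100000000000000000000000000000000000000000000001000000000000000000000000020 := rS 0xe190b0857be4e740f43835060b (k8 c717 c5525 c5522 c5373 c5369 c17162 c13455 c5498 (k4 c5541 c10404 c12456 c313 (k1 c8808 k0))) (by decide +kernel)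
def c17285 : PP 9 3 T 0x45000000000000000000020000000000000000200000008000000000400004000000000000000000000000000110000000000010000000000000000050400 := rS 0xf742c0a028a8e914baf32dbd41e8748835068f (k8 c5526 c5525 c5522 c5374 c5373 c5369 c5477 c5474 (k8 c5325 c5321 c5326 c5341 c8187 c3068 c5694 c13445 (k2 c2195 c3571 k0))) (by decide +kernel)
def c17286 : PP 9 3 T 0x5000000000000060000221000000000000000000000000000000000000000000000000000000000000000000000000000010000002000000001040010020 := rS 0x2008a81c75ec1dd919c4d592ea44466946c4c26898a967e64714acc166d07bfc8b3a (k8 c17162 c5326 c3006 c5369 c5529 c717 c5532 c9692 (k8 c16855 c16745 c314 c5414 c5567 c5564 c5382 c5381 (k8 c9743 c9734 c5374 c5321 c17285 c10038 c17220 c5664 (k4 c5486 c7262 c351 c2195 (k2 c12681 c13257 (k1 c3068 k0)))))) (by decide +kernel)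
def c17287 : PP 9 3 T 0x8000000000000000000200000000000000000000000008000000000000000000000000000000000000000000000000000000010000000000000000010000 := rS 0x22e3a5d (k4 c5321 c5504 c5583 c12681 k0) (by decide +kernel)
def c17288 : PP 9 3 T 0x1000000000000060000221000000000000000000000000000000000000000000000000000000000000000000000000000010000004000000001040010020 := rS 0x1248e0f488351e298984d660b36fbcb33a (k8 c17162 c314 c17287 c5529 c717 c5532 c5564 c5382 (k8 c9692 c5526 c5522 c5374 c5369 c16855 c17286 c12614 k0)) (by decide +kernel)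
def c17289 : PP 9 3 T 0x20000220000000000000000000000000000000000000000000000000000000000000000000000000040000000000000000002040010000 := rS 0x715aa44d6b3 (k4 c5532 c5523 c5374 c1094 (k2 c2754 c13067 k0)) (by decide +kernel)
def c17290 : PP 9 3 T 0x1000000000000060000221000000000000000000000000000000000000000000000000000000000000000000000000000010000000000000000040010020 := rS 0x27ac92892471283d220d478a4e71309885660b36fbcb33a (k8 c17162 c314 c17287 c5529 c717 c5532 c5528 c5564 (k8 c5382 c9718 c9692 c5526 c5522 c5374 c5369 c17289 (k4 c16855 c17286 c17288 c12876 (k2 c353 c5651 k0)))) (by decide +kernel)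
def c17291 : PP 9 3 T 0x1000000000000060000221000000000000000000000000000000000000000000000000000000000000000000000000000010000004000000001000010020 := rS 0x2008a81c75081d7eec8ce26acbfc91f323914ba0f88a1d220d478a4466946c4c26898aaa5660b36fbcb33a (k8 c17162 c314 c17287 c5529 c717 c5532 c5531 c5414 (k8 c5567 c5564 c5382 c5381 c9743 c9734 c9692 c5526 (k8 c5522 c5374 c5373 c5371 c5369 c5321 c5326 c16855 (k8 c16745 c12614 c3006 c17285 c10038 c17220 c5664 c5405 (k4 c5486 c14584 c351 c2629 (k2 c12681 c13257 (k1 c3068 k0))))))) (by decide +kernel)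
def c17292 : PP 9 3 T 0x1000000000000060000221000000000000000000000000000000000000000000000000000000000000000000000000000010000004000000000000010020 := rS 0x2d4e224489ace6b3 (k8 c5532 c9718 c5523 c5374 c17291 c2754 c1095 c13067 k0) (by decide +kernel)
def c17293 : PP 9 3 T 0x1000000000000060000221000000000000000000000000000000000000000000000000000000000000000000000000000010000000000000000000010020 := rS 0x6745abce2b156c00484a0f7bc861b9d03d0e9106a0ce66946c4cde898a82cda59 (k8 c314 c5529 c717 c5414 c5567 c5565 c5382 c5381 (k8 c9743 c9718 c5525 c5522 c5374 c5373 c5369 c17162 (k8 c5475 c5478 c17287 c17290 c17292 c2591 c11779 c2758 (k4 c1092 c2754 c3070 c3068 (k2 c5282 c3602 k0))))) (by decide +kernel)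
def c17294 : PP 9 3 T 0x4004000000000000000021000000000000000000000000000000000000000000000080440000000000000000001000000000010000000600000000000400 := rS 0x1de19355ec5d7996deb3a07a1c1a83 (k8 c5525 c5522 c5373 c5369 c17162 c5477 c5474 c5325 (k4 c5321 c3571 c11016 c397 (k2 c5689 c5492 k0))) (by decide +kernel)
def c17295 : PP 9 3 T 0x2000000000000000000000000000000000000000000000000000080440410000110000000002000001110000000000000000000000000 := rS 0x35764cd (k4 c2503 c5871 c3003 c5991 k0) (by decide +kernel)
def c17296 : PP 9 3 T 0x4000000000002000021000000000000000000000000000000000000000000000080000410000110000000000000001110010000002400000000000400 := rS 0x25fdcf6428e0baf32dbd7260f4383506d321b5c633a (k8 c17162 c5476 c1491 c5478 c2768 c5525 c5522 c5373 (k8 c5369 c13455 c5477 c5474 c5325 c5321 c2771 c17295 (k4 c3571 c17294 c8190 c8156 k0))) (by decide +kernel)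
def c17297 : PP 9 3 T 0x42000221000000000000000000040000000000000000000000000000000000000000000000000000000010000000000000000000000000 := rS 0x475edee42abc95b35a783e6df70f8d96b156b3e06e31e1f848700816486f32d86dea0f43a441a834fa85929b4c9a53b155982d8a3503974823b2b64e75ed949b76804 (k8 c17214 c17254 c5529 c17283 c17284 c17162 c13455 c10195 (k8 c10737 c12628 c5321 c8467 c5324 c13953 c717 c5532 (k8 c5414 c5412 c9743 c5447 c5397 c5396 c5398 c5448 (k8 c5525 c5522 c5374 c5373 c5369 c5477 c5475 c5474 (k8 c5325 c5478 c314 c17293 c719 c720 c772 c773 (k8 c5731 c5720 c6082 c2758 c1092 c1091 c5577 c3058 (k8 c17296 c5271 c10493 c3620 c14406 c1095 c1249 c5871 (k4 c5683 c3571 c5504 c564 k0)))))))) (by decide +kernel)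
def c17298 : PP 9 3 T 0x42000221000000000000000000040000000000000000000000000000000000000000000000000000000000000000000000000000000000 := rS 0x3af7c64387b0dc3ed0f0b3d9a594b9ddfa1d320ed8a5694bc4ba357986c62f5359e506c94da55322303813273a4eaad53b4 (k8 c17254 c5531 c5413 c5412 c17162 c13455 c17214 c8467 (k8 c9734 c5447 c5446 c5397 c5396 c5525 c5524 c5523 (k8 c5477 c5476 c5475 c5325 c5324 c5321 c9695 c17283 (k8 c10195 c13953 c10737 c17297 c8808 c1128 c2053 c1127 (k8 c313 c8354 c17247 c13449 c3617 c17248 c1481 c5816 (k4 c5654 c397 c5492 c1963 (k1 c5668 k0))))))) (by decide +kernel)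
def c17299 : PP 9 3 T 0x4000020000000000000000000000008000000000000000040000000000000000000000000000000001010000000000000000000000020 := rS 0x1080f438350669 (k4 c9743 c5525 c5522 c5373 (k2 c5369 c12456 (k1 c5871 k0))) (by decide +kernel)
def c17300 : PP 9 3 T 0x42000221000000000000000000000000000000000000000000000000000000000000000000000000000000000000000000000000000000 := rS 0x7e874c9b394bdc3f4a36ed1e3939d1ac4604 (k8 c17214 c9734 c5523 c17162 c13455 c9695 c17254 c5529 (k8 c17298 c5517 c5333 c9578 c7262 c17299 c8808 c1128 (k1 c12546 k0))) (by decide +kernel)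
def c17301 : PP 9 3 T 0x52000021000000000000000000040000000200000000000000000000000000000000000000000000000010000000000000000000000000 := rS 0xe171b7d6bf265a04f89d59c54e2760f22d1a75332afdcd2366cc6e171f8e46657789746a5b0d8c4f2614a80ce66903e4e740949d608e1147e84b204 (k8 c17214 c314 c17300 c5526 c15516 c13598 c5212 c5444 (k8 c311 c17162 c13455 c8467 c9743 c9718 c54 c5446 (k8 c5445 c5524 c5476 c5475 c5474 c5324 c5321 c9695 (k8 c5313 c5316 c5317 c5318 c5433 c5435 c14275 c17255 (k8 c14152 c5239 c8138 c5664 c4422 c5505 c5583 c17219 (k8 c5729 c12190 c15434 c2321 c1082 c14064 c938 c8797 (k4 c15522 c2611 c2829 c1551 (k2 c5591 c6118 k0)))))))) (by decide +kernel)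
def c17302 : PP 9 3 T 0x44000000000000052000021000000000000000000000000000000000000000000000000000000000000000000002100010010008000000000000000000000 := rS 0x7887ddf092344cff58c50dd939d0a4e60412abf65a1 (k8 c17300 c5239 c5406 c9666 c17214 c9718 c9692 c17162 (k8 c13455 c5666 c15522 c1146 c3010 c12176 c950 c2813 (k4 c15531 c371 c5186 c5576 k0))) (by decide +kernel)
def c17303 : PP 9 3 T 0x4000000000000052000021000000000000000000040000000000000000000000000000000000000000000000000000002010000000000000000040000000 := rS 0x99c109f37b82c1e8706a0c06291192c8e8f8ed60ac819490422094981c09939d07765a1 (k8 c17300 c5239 c5486 c17162 c13455 c17214 c8467 c5444 (k8 c311 c15516 c12636 c17301 c12653 c10195 c5212 c5341 (k8 c5526 c13598 c12639 c9734 c9692 c54 c5525 c5522 (k8 c5373 c5369 c718 c8123 c11958 c13213 c17302 c2869 (k1 c16990 k0))))) (by decide +kernel)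
def c17304 : PP 9 3 T 0x4000000000000052000021000000000000000000040000000000000000000000000000000000000000000000000000002010000000000000000000000000 := rS 0x37a2d687f65f89c676efb3bc2df70b459ac61b27414b355c543ca97ea5f641b18bd4d69f50b253699238451e3dac684765694813273a (k8 c17162 c13455 c17214 c17301 c10195 c10737 c17300 c5212 (k8 c5560 c5526 c15516 c13598 c5447 c5397 c5396 c5398 (k8 c5448 c5523 c5477 c5476 c5475 c5239 c5404 c5405 (k8 c5489 c17303 c15434 c1084 c2321 c2315 c1083 c771 (k8 c770 c2329 c1481 c1483 c2331 c5535 c17248 c15342 (k8 c2561 c10455 c5186 c5464 c5577 c3620 c790 c1148 (k1 c11843 k0))))))) (by decide +kernel)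
def c17305 : PP 9 3 T 0x800000000000005a000021000000000000000000040000000000000000000000000000000000000000000000000000000010000000000000000040000000 := rS 0x3c2e171b7d8cce3e45109e33b04be6f76977c4c1d56bc5e65b0dbd41e87069e506a1118948e8f8e9598a352e9d4fecb38965032920844129303e4ce66e45a340758d0ce962d76aabc1604 (k8 c17214 c718 c5584 c5585 c5507 c5506 c17162 c17300 (k8 c5212 c54 c5505 c5583 c12249 c9718 c13455 c8467 (k8 c5444 c311 c15516 c12636 c17301 c12653 c314 c12190 (k8 c8797 c8379 c8413 c5321 c5324 c13953 c10195 c5341 (k8 c5526 c13598 c9666 c9734 c5398 c5525 c5524 c5522 (k8 c5373 c5369 c5477 c5475 c5474 c5325 c9695 c5490 (k8 c5486 c14401 c15531 c5991 c8123 c11958 c2813 c5668 (k8 c5579 c3571 c15522 c372 c789 c788 c2950 c1551 (k2 c1652 c5535 (k1 c5691 k0)))))))))) (by decide +kernel)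
def c17306 : PP 9 3 T 0x8000000000000052000021000000000000000000040000000000000000000000000000000000000000000000000000000010000000000000000040000000 := rS 0x42aaf66fd05bc5e73a43834b204 (k8 c17214 c314 c5522 c5373 c17162 c5325 c9695 c718 (k4 c13351 c17305 c8138 c13370 (k1 c13322 k0))) (by decide +kernel)
def c17307 : PP 9 3 T 0x52000021000000000000000000040000000000000000000000000000000000000000000000000000002010000000000000000000000000 := rS 0x6fb85c636f927415150f2d566cb38a2d1bee4fa853699019ceb02523a3cb2812084742094981c765694813273a (k8 c17162 c13455 c17214 c17301 c10195 c10737 c8467 c5444 (k8 c311 c17300 c15516 c12636 c12653 c314 c5526 c13598 (k8 c9666 c5212 c9718 c54 c5447 c5397 c5398 c5448 (k8 c17304 c5505 c5583 c12190 c8797 c8280 c2611 c17306 (k8 c15434 c2315 c1083 c11939 c771 c5549 c5591 c2331 (k1 c3620 k0)))))) (by decide +kernel)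
def c17308 : PP 9 3 T 0x4000000000000052000021000000000000000000040000000000000000000000000000000000000000000000000000000010000000000000000040000000 := rS 0x1338213e6f707a1c1a83018a4464b23a3e3b582b2065241088252607c9ce8166d0207765a1 (k8 c17300 c5239 c5486 c17214 c17307 c717 c17162 c13455 (k8 c8467 c5444 c311 c15516 c12636 c17301 c12653 c10195 (k8 c5212 c5341 c5526 c13598 c12639 c9734 c9692 c54 (k8 c5525 c5522 c5373 c5369 c8123 c11958 c12456 c17302 (k2 c2869 c16990 k0))))) (by decide +kernel)
def c17309 : PP 9 3 T 0x4000000000000052000021000000000000000000040000000000000000000000000000000000000000000000000000000010000000000000000000000000 := rS 0x1bf858c766733508395587952677ea5f641b88a1cd67941a6cd3a1628d40e5d1d95a53939d02cda04 (k8 c17214 c17307 c717 c17162 c13455 c17301 c10195 c10737 (k8 c5321 c8467 c5324 c13953 c17300 c9743 c5397 c5525 (k8 c5524 c5523 c5373 c5371 c5475 c5239 c5404 c5405 (k8 c5487 c5489 c17308 c1084 c2472 c3601 c2503 c17248 (k4 c17247 c788 c5535 c2325 (k1 c5654 k0)))))) (by decide +kernel)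
def c17310 : PP 9 3 T 0x52000021000000000000000000040000000000000000000000000000000000000000000000000000000010000000000000000000000000 := rS 0x7c6f049c24971c4d6bf265a756715371c43c8b46fb8166d1da04ad292c83d220d3580ce607c9ce8975823a3c8211d08240893 (k8 c5444 c17214 c311 c17300 c15516 c12636 c5526 c13598 (k8 c5212 c12639 c17162 c13455 c8467 c9718 c54 c5523 (k8 c5522 c5374 c5369 c314 c17301 c10195 c12653 c10737 (k8 c17307 c717 c17309 c5505 c5583 c17306 c12190 c12249 (k8 c15434 c2321 c1083 c8797 c15522 c1148 c5547 c5549 (k4 c5588 c5591 c12614 c6118 (k2 c372 c2829 k0))))))) (by decide +kernel)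
def c17311 : PP 9 3 T 0x45000000000000052000021000000000000000000000000000000000000000000000000000000000000000000002000410000000000000000000000000000 := rS 0x6bb5510b18023606ff69a2e287f659b8e6ad57a04821104a4d9ec594ecb421b788d40e04c99767479 (k8 c5524 c17162 c5321 c13455 c17214 c8467 c5324 c9695 (k8 c5475 c17300 c5239 c14275 c13953 c17247 c5444 c311 (k8 c15516 c12636 c12653 c5406 c5490 c9718 c5666 c8797 (k8 c8379 c15522 c2978 c8433 c3010 c2630 c950 c5694 (k4 c1295 c5673 c3073 c1984 (k1 c5991 k0)))))) (by decide +kernel)
def c17312 : PP 9 3 T 0x4000000000000052000021000000000000000000040000000000000000000000000000000000000000000000000000000000000000000000000000000000 := rS 0x2670427cdee0b0ffb59ecd1db14ac59948752fb2789746af32d86dea0f43834f2031488c0f939d12c8e110223e3b58d0bf4d6a9419dcc8c9 (k8 c5396 c17310 c2053 c5525 c1957 c5523 c1128 c17300 (k8 c5212 c5341 c5526 c17214 c15516 c13598 c12639 c17162 (k8 c13455 c8467 c9734 c9692 c54 c5524 c5522 c5373 (k8 c5369 c5477 c5475 c5474 c5325 c5324 c5321 c9695 (k8 c5239 c5404 c5486 c14275 c313 c10195 c13953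 c10737 (k8 c8354 c17247 c17226 c17248 c718 c8123 c11958 c3571 (k2 c17311 c2869 (k1 c16990 k0)))))))) (by decide +kernel)
def c17313 : PP 9 3 T 0x400000000042000021000000000000000000000000000000000000004000000000580080001040000000000000010020000000004004000020000000 := rS 0x22b0155b85bccc40311667f5690f267b47a84e6410882408937e9ad52833bb27c71d1ed63433a (k8 c17162 c17300 c5212 c5560 c5341 c12314 c5396 c2053 (k8 c5525 c1957 c5523 c1128 c5444 c17214 c311 c15516 (k8 c12636 c9718 c5398 c5526 c5372 c13455 c5478 c1960 (k8 c8379 c8280 c8433 c8423 c839 c941 c1716 c4454 (k2 c2078 c2950 (k1 c10153 k0)))))) (by decide +kernel)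
def c17314 : PP 9 3 T 0x10000000000000000000000200040000000000000000000000000000000000000000000000000000020000000004400000010440010404 := rS 0x13 (k2 c2869 c16990 k0) (by decide +kernel)
def c17315 : PP 9 3 T 0x52000021000000000000000000040000000200000000000000000000000000000000000000000000000000000000000000000040000000 := rS 0x451bdf3400758ddf690fc72332b90c8a0f3d834f2835081c82091ec74ee6464b5d5ed57ffb86e995a8ec40933f9c4164747d60224b118a407a1c9ce8e604 (k8 c17214 c9718 c17162 c13455 c17300 c54 c9692 c9734 (k8 c12639 c15516 c5212 c5526 c13598 c718 c17314 c8379 (k8 c5444 c5650 c340 c11945 c5447 c8484 c17312 c5586 (k8 c5585 c5584 c5507 c5396 c17310 c2053 c5341 c5560 (k8 c311 c12636 c8467 c5398 c5525 c5524 c5522 c5372 (k8 c5369 c5326 c5478 c5313 c5316 c5317 c5318 c6923 (k8 c16045 c3568 c17313 c8423 c11958 c941 c15522 c2950 k0))))))) (by decide +kernel)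
def c17316 : PP 9 3 T 0x52000021000000000000000000040000000000000000000000000000000000000000000000000000000000000000000000000040000000 := rS 0xcb69a5d02c5949fd5a71059746a03149cc4607c9ce8975823a3c8211d082408933b99193ee (k8 c17312 c5396 c17310 c2053 c5444 c17214 c311 c17300 (k8 c15516 c12636 c5526 c13598 c5212 c12639 c17162 c13455 (k8 c8467 c9734 c9718 c9692 c54 c5324 c5321 c718 (k8 c17314 c1960 c8379 c17315 c13953 c12653 c1127 c8433 (k2 c8797 c8156 k0))))) (by decide +kernel)
def c17317 : PP 9 3 T 0x8000000000000002000001000000000000000000000000000200100000000000000000000000000001000000000000000020000004411100000000000820 := rS 0x1d3899adf70923e7e180b45efecf1b4b66371f8cde243228d5e61b18bd6740111b5e06d5 (k8 c5585 c5508 c5507 c9734 c53 c17162 c5477 c5476 (k8 c5475 c5325 c5324 c5326 c5478 c9695 c5316 c5318 (k8 c5435 c14275 c6923 c12314 c8316 c5498 c5501 c5502 (k8 c6290 c11908 c8823 c3062 c2946 c8709 c5691 c15359 (k1 c1773 k0))))) (by decide +kernel)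
def c17318 : PP 9 3 T 0x2000021000000000000000000040000000100000000000000000000000000000000000000000000000020000000000000000080000020 := rS 0x19ecd4b8ed8a562e8d4f207c9ce9fa6b54a0ceec9 (k8 c5396 c2053 c5525 c1957 c5523 c1128 c17162 c13455 (k8 c8467 c5524 c5324 c5321 c10195 c13953 c10737 c1127 (k2 c8354 c17247 (k1 c17248 k0)))) (by decide +kernel)
def c17319 : PP 9 3 T 0x52000021000000000000000000040000000000000000000000000000000000000000000000000000000000000000000000000000000000 := rS 0x38dbee11d123e7017bf87d9e305b4b663f19ca072ab0f355afee3baa5fa647890c8a357986deb3a079ec1a6b3ca0d929b2591d1e410882408931ec76b1a1 (k8 c17300 c5212 c5341 c5560 c5444 c17214 c311 c15516 (k8 c12636 c5526 c13598 c12639 c5397 c5396 c5525 c5524 (k8 c5523 c5522 c5372 c5369 c17162 c5477 c5475 c5325 (k8 c5324 c5326 c5478 c9695 c17310 c1128 c1957 c2053 (k8 c17312 c5507 c5585 c17316 c1084 c2472 c17318 c5316 (k8 c5318 c14275 c6923 c17317 c12314 c5682 c16865 c5498 (k8 c5502 c11908 c8823 c14086 c3062 c2946 c1773 c5691 k0))))))) (by decide +kernel)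
def c17320 : PP 9 3 T 0x52000021000000000000000000000000000000000000000000000000000000000000000000000000000010000000000000000000000000 := rS 0x6e59c55feaf45a35f9eed9fb508592ebccb6f507a1c1a83019a5ee0bf9d2822048ed63433a (k8 c17162 c17300 c5212 c5341 c17214 c15516 c17319 c11991 (k8 c5516 c5333 c9743 c54 c5525 c5522 c5373 c5369 (k8 c5477 c5474 c5325 c5321 c314 c3571 c5541 c12078 (k8 c5239 c13370 c5505 c5583 c5584 c5586 c1241 c2556 (k2 c12249 c8434 k0))))) (by decide +kernel)
def c17321 : PP 9 3 T 0x40000000000000008000121000000000000000000080000000000000000000000000000000000000000000000000000000000000000000000000000000020 := rS 0x214b3ec0e975e65b7ace81e8706a0dee0b (k8 c5516 c5333 c5525 c5522 c5373 c5369 c17162 c5477 (k8 c5474 c5325 c5321 c5486 c12078 c313 c5541 c3571 k0)) (by decide +kernel)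
def c17322 : PP 9 3 T 0x40000000000000052000120040000000000000000000000000200000000000000000000000000000000000000000000000000000001000440000040000420 := rS 0x718a8481e033991c228f (k8 c5526 c15516 c13598 c9718 c54 c5369 c17092 c17091 (k2 c2869 c15522 k0)) (by decide +kernel)
def c17323 : PP 9 3 T 0x50000001000000000000000000080000000000100000044000000000000000001150000000000000000000000000000000011010000000 := rS 0x99e24322bcc373a (k8 c17162 c5475 c5325 c5326 c5478 c9695 c3582 c16402 k0) (by decide +kernel)
def c17324 : PP 9 3 T 0x52000021000000000000000000000000000000000000000000000000000000000000000000000000000000000000000000000000000000 := rS 0x13899c0deb2560756aaaf6bfd5f0358a37ddb354bf4ce64f9bdc3f4a9d2441a6b418a4e64b1291c220447c76b1a1 (k8 c17300 c5212 c5341 c5526 c17214 c15516 c13598 c9666 (k8 c12639 c9718 c9692 c5525 c5523 c5522 c5374 c17162 (k8 c17319 c5517 c5333 c11991 c17320 c63 c1128 c1957 (k8 c17321 c5239 c5505 c5506 c5508 c5584 c5586 c14774 (k8 c5682 c14841 c2121 c17323 c2128 c2818 c1960 c2457 (k2 c318 c15542 k0)))))) (by decide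 +kernel)
def c17325 : PP 9 3 T 0x4000000000000042000021000000000000000000000000000000000000040000000000000000000000000000000000010010000000000000008000000000 := rS 0x1ace0f9f79c6df6af8cf83e092d562cb37114d67947a7d429b4a9ce2ab3da2b55e972b20653b21a86de24108e84129303813273a (k8 c17162 c13455 c17214 c8467 c5444 c311 c17300 c15516 (k8 c12636 c9695 c5475 c5324 c5239 c14275 c12653 c10195 (k8 c5404 c5406 c5490 c17324 c5532 c5414 c9718 c5446 (k8 c5397 c5398 c5448 c5526 c5524 c5523 c5326 c5666 (k8 c8797 c1146 c1148 c2813 c371 c372 c5576 c2996 (k4 c2829 c1551 c5186 c5271 (k2 c5920 c8161 (k1 c1721 k0)))))))) (by decide +kernel)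
def c17326 : PP 9 3 T 0x4000000000000048000120000000000000000000000008000000000000000000000000000000000000000000002000021000000000000000000000000020 := rS 0x80228271337915220d4780eb00b (k8 c717 c5212 c54 c5526 c5522 c5374 c5326 c65 (k4 c755 c2869 c11843 c13445 (k1 c3068 k0))) (by decide +kernel)
def c17327 : PP 9 3 T 0x4000000000000042000021000000000000000000000000000000000000000000000000000000000000000000000000000010000000000000000000000000 := rS 0x4d0358a2cdc714219dfbb29d4450e29399a40825d09b553b4 (k8 c17324 c5531 c5529 c17300 c9666 c17214 c9743 c9718 (k8 c9692 c5373 c5371 c17162 c5239 c5405 c5487 c14584 (k4 c17326 c5666 c2979 c1146 (k2 c2630 c12176 (k1 c17325 k0))))) (by decide +kernel)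
def c17328 : PP 9 3 T 0x4a000021000000000000000000000000000000000000000000000000000000000000000000000000000010000000000000000000000000 := rS 0x385c6df691f196cd092058a56427cc4d2933bf52ead789746a1b88a1cf28f4fa85366903e4c4a4108825271554acf68b17fad4dc8b46fb80758d0812746b (k8 c5523 c17162 c17214 c17300 c5212 c54 c17327 c5505 (k8 c5583 c12249 c1148 c5586 c5506 c17324 c5532 c5531 (k8 c5414 c5444 c311 c15516 c12636 c9666 c13455 c8467 (k8 c9743 c5397 c5398 c5448 c5526 c5524 c5373 c5371 (k8 c5475 c5324 c5321 c9695 c5490 c5404 c5405 c5487 (k8 c14275 c14401 c15208 c14584 c10195 c13953 c12653 c2813 (k8 c2503 c1145 c372 c8156 c2829 c1551 c3063 c5920 k0))))))) (by decide +kernel)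
def c17329 : PP 9 3 T 0x4000021000000000000000000040000000200000000000000000000000000000000000010000000001011000000000000000000000120 := rS 0x1b8e46657 (k4 c5313 c5316 c5317 c5435 (k1 c17255 k0)) (by decide +kernel)
def c17330 : PP 9 3 T 0x100040000000000000000000000000000000000000000000800000000000000000000000141000000000000000000000000000000 := rS 0xfbe3 (k2 c5466 c1551 (k1 c5670 k0)) (by decide +kernel)
def c17331 : PP 9 3 T 0x1000000000000000000001000000000000000000040000000100000000000080000200100010000000000000004000100000000000001400000000000000 := rS 0x3bc323b8e19e37f0e4e74cd (k8 c2072 c17162 c13455 c5460 c1483 c1652 c5654 c10798 (k2 c397 c5668 (k1 c5492 k0))) (by decide +kernel)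
def c17332 : PP 9 3 T 0x42000021000000000000000000040000000000000000000000000000000000000000000000000000000010000000000000000000000000 := rS 0x3ef8dbce171b2c76812b4a4eac57b19b66b53f9b9aa8b46fbbda5907a1c1a6b3ca3d42614a80cd207c9ce8821104a4c7b58d0a762ab3059b76804 (k8 c17214 c17324 c5529 c717 c5532 c5414 c5412 c17300 (k8 c5212 c5560 c5444 c311 c15516 c12636 c17162 c13455 (k8 c8467 c9743 c54 c5446 c5445 c5398 c5526 c5524 (k8 c5523 c5522 c5373 c5369 c314 c10404 c17327 c5505 (k8 c5583 c5585 c12249 c2919 c1148 c17328 c5664 c17299 (k8 c733 c2005 c17329 c10195 c12653 c10737 c1145 c17330 (k4 c17331 c6118 c5580 c2829 (k1 c5670 k0)))))))) (by decide +kernel)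
def c17333 : PP 9 3 T 0x2a000021000000000000000000040000000000000000000000000000000000000000000000000000000020000000000000000000000020 := rS 0x75ef8c8703768785eccf668ec3ec52b166521d4bbc4ba357986c62f53ca0d36954c88c0f939d27556a97e9aceec9 (k8 c5396 c2053 c5523 c1128 c5531 c5413 c5412 c17162 (k8 c13455 c8467 c9734 c5447 c5446 c5397 c5525 c5524 (k8 c5477 c5476 c5475 c5325 c5324 c5321 c9695 c5404 (k8 c5486 c14275 c313 c10195 c13953 c17318 c10737 c8354 (k8 c17247 c5816 c14406 c3617 c1481 c5654 c397 c5492 (k2 c1963 c5668 k0)))))) (by decide +kernel)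
def c17334 : PP 9 3 T 0x40000000000000042000021000000000000000000040000000200000000000000000400000000000000000000000000000000000000000000000000000000 := rS 0x5ac05bc6e56b45c27162200ff93079ed22613991d1eab8aaa566fd359dd92af7f8fda5df219148211f082cda0949837c6338e8f6b0d76afbb6664da013433a (k8 c17162 c17300 c17214 c17324 c17332 c17333 c5239 c5585 (k8 c5507 c5212 c5560 c5341 c5316 c12314 c5522 c5444 (k8 c311 c5529 c717 c16865 c15516 c12636 c5326 c5478 (k8 c16045 c6923 c5318 c5586 c5584 c5396 c2053 c5523 (k8 c1128 c5532 c5531 c5414 c5413 c5526 c13598 c9718 (k8 c5445 c5374 c5372 c5369 c13455 c16323 c8423 c8433 (k8 c751 c1716 c1706 c1960 c5666 c5691 c2953 c1148 (k1 c10153 k0)))))))) (by decide +kernel)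
def c17335 : PP 9 3 T 0x80000000000000000000020000000000000000000040000000000001000044000000000000000000545000000000000001020000000400000000000010005 := rS 0x1587180ad5fa6b (k4 c5523 c1128 c5548 c5592 (k2 c12233 c3623 (k1 c1960 k0))) (by decide +kernel)
def c17336 : PP 9 3 T 0x42000021000000000000000000040000000200000000000000000000000000000000000000000000000000000000000000000000000000 := rS 0x89b18e03b3f385bee2f1f846e391995c1e91069e4e607c9ce88209498f63b5805b5dabf37fabe06b1f76ccc8b3549b62aabda11d1e11d080c0204 (k8 c17214 c53 c54 c17300 c15516 c5526 c13598 c17324 (k8 c5413 c5414 c5529 c5531 c5532 c17332 c17333 c5239 (k8 c5506 c5508 c5584 c5586 c17335 c5585 c5507 c717 (k8 c5212 c5341 c5560 c5444 c311 c12636 c17162 c13455 (k8 c8467 c9718 c5524 c5522 c5374 c5369 c5313 c5316 (k8 c5317 c5435 c16865 c12314 c17334 c207 c208 c15481 (k4 c1773 c8379 c5822 c755 (k1 c9140 k0)))))))) (by decide +kernel)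
def c17337 : PP 9 3 T 0x42000021000000000000000000040000000000000000000000000000000000000000000000000000000000000000000000000000000000 := rS 0x3af7c64381bb43c2f62cb3d9a971d87c3ac52b4a4eefd323c4ba357986c62f5359e506c94da55322303813273a4eaad53b4 (k8 c17324 c5531 c5413 c5412 c17162 c13455 c17214 c8467 (k8 c9734 c5447 c5446 c5397 c5396 c5525 c5524 c5523 (k8 c5477 c5476 c5475 c5325 c5324 c5321 c9695 c17332 (k8 c1128 c2053 c17336 c10195 c13953 c8808 c17318 c10737 (k8 c1127 c8354 c17247 c313 c5816 c13449 c3617 c1481 (k4 c5654 c397 c5492 c1963 (k1 c5668 k0))))))) (by decide +kernel)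
def c17338 : PP 9 3 T 0x42000021000000000000000000000000000000000000000000000000000000000000000000000000000000000000000000000000000000 := rS 0xebf4c9b394bdc3f4a549b76823023c5e61b7ae4e746b (k8 c5523 c17162 c13455 c5477 c5475 c5325 c9695 c17214 (k8 c9734 c17324 c5529 c5531 c17337 c5517 c5333 c9578 (k4 c7262 c17299 c1128 c8808 (k1 c10456 k0)))) (by decide +kernel)
def c17339 : PP 9 3 T 0x800000000049000001000000000000000200000000000000000000000000000000000000000000000000000000000000000000000000000000000000 := rS 0x9940cb8e9044a43228c47e3d6ab4d24350d85c66c99464e74f1 (k8 c9695 c17162 c13455 c5209 c5494 c5316 c5433 c5475 (k8 c5324 c14345 c5496 c5454 c5436 c5318 c5476 c5326 (k8 c5478 c5559 c5340 c5341 c1753 c16370 c14426 c2927 k0))) (by decide +kernel)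
def c17340 : PP 9 3 T 0x11000000040000000000000000040000000000000000000000000000000000000000000000000000002000000000000800000440000800 := rS 0x318013220 (k4 c5650 c1592 c2417 c780 (k1 c16365 k0)) (by decide +kernel)
def c17341 : PP 9 3 T 0x800000000019000001000000000000000000040000000000000000000000000000000000000000000000000000000000000000000400000040000000 := rS 0x133e1683dc402379bd432370ea5524350d85c66c99464e74f1 (k8 c9695 c17162 c13455 c5209 c5494 c5316 c5433 c5475 (k8 c5324 c14345 c5488 c5486 c5435 c6205 c5477 c5325 (k4 c481 c5650 c8123 c9979 (k2 c5459 c1595 (k1 c6455 k0))))) (by decide +kernel)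
def c17342 : PP 9 3 T 0x1000000000058000021000000000000000100040000000000000400000000000000000000000000000008000110004010000000000000000040040008 := rS 0x6f9fd42284c31c4e2212981e2350d8c4327b3ca3c661771b87e49b946c7273a (k8 c17162 c13455 c17338 c5209 c7393 c5231 c5591 c5549 (k8 c5433 c5316 c5526 c5524 c5372 c6205 c5476 c5475 (k8 c5324 c9695 c14092 c1113 c6197 c267 c727 c482 (k4 c5651 c1195 c729 c2443 (k1 c5910 k0))))) (by decide +kernel)
def c17343 : PP 9 3 T 0x58000021000000000000000000040000000000000000000000000000000000000000000000000000000010000000000000000040000010 := rS 0x4e880c4230000fc23a88a062613379f740921a86c2e3364ca326f1acf7a75b1 (k8 c17338 c17162 c14148 c17339 c9695 c13455 c5209 c5494 (k8 c5316 c5433 c5475 c5324 c14345 c14183 c5566 c5565 (k8 c5564 c5382 c5380 c5371 c17341 c5456 c17342 c5642 (k4 c9731 c16365 c5650 c1274 (k1 c341 k0))))) (by decide +kernel)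
def c17344 : PP 9 3 T 0x58000021000000000000000000040000000000000000000000000000000000000000000000000000000010000000000000000000000010 := rS 0x105431d6589935e1002653aab019b43cb5f956524a94a875faf1219146a1b189ac663f0b8dc7b284bb3daac9669ccdfa0ef64f633a (k8 c17162 c17338 c13455 c14148 c14183 c5565 c5379 c5495 (k8 c5494 c5454 c5453 c5452 c5209 c5436 c5435 c5433 (k8 c5318 c5316 c5523 c5476 c5475 c5324 c5326 c5478 (k8 c9695 c5405 c5486 c5488 c5489 c14345 c17339 c5231 (k8 c5548 c17343 c2316 c1111 c1084 c1082 c2317 c5642 (k8 c13449 c5679 c12200 c1326 c351 c2927 c350 c16370 k0)))))) (by decide +kernel)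
def c17345 : PP 9 3 T 0x800000000011000001000000000000000000040000000000000000000000000000000000000004000000000000002000000000000000000440000800 := rS 0x318013220798c5ea391bca3273a (k8 c17162 c13455 c5209 c5435 c5317 c5477 c5476 c5325 (k4 c5650 c9107 c2417 c780 (k1 c16365 k0))) (by decide +kernel)
def c17346 : PP 9 3 T 0x5000000000055000000000000000000000000000008000000100400000000000000000000000004004541515400000080000000400000000000000000 := rS 0x7fa2d5eca54287db018ac0d39f2 (k8 c5198 c5679 c5550 c5590 c5592 c12708 c1277 c10719 (k4 c5680 c1246 c738 c2453 (k1 c3613 k0))) (by decide +kernel)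
def c17347 : PP 9 3 T 0x2000000000054000201000000000000000200040000000200000000000000000000000000000000000000000000000000000000000400000000000010 := rS 0x71fcbdadf9d1049647 (k8 c5562 c5342 c5340 c17162 c5538 c6290 c17175 c5549 (k1 c14209 k0)) (by decide +kernel)
def c17348 : PP 9 3 T 0x1000000000050000021000000000000000000040000000000100000000000000000000000000000004400000000000010000000400000000000000011 := rS 0xe8c72fb45306342998046978bccf687489e5068f62a5d9e7766a362689d02af67e36af78663d946c7273a (k8 c17162 c13455 c17338 c5209 c5436 c5316 c14148 c5454 (k8 c13617 c17344 c8138 c14183 c5567 c5382 c5381 c5495 (k8 c5493 c5453 c5452 c5451 c5526 c5525 c5524 c5374 (k8 c5373 c5372 c5325 c9695 c9744 c5642 c5664 c13398 (k4 c9752 c17346 c1596 c1520 (k2 c2439 c3607 (k1 c2006 k0))))))) (by decide +kernel)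
def c17349 : PP 9 3 T 0x50000021000000000000000200040000000000000000000000000000000000000000000000000000000010000000000400000040000010 := rS 0x6d11801629f5437815ed81b8fe5e1f191c971d208a42225078cc7ad5d077957b37ebcde29b946c7273a (k8 c17162 c13455 c17338 c5209 c7393 c9695 c5325 c13351 (k8 c17344 c8138 c14148 c14183 c5454 c5436 c5316 c5369 (k8 c5559 c5558 c5339 c5340 c5341 c5342 c5562 c13617 (k8 c17347 c5198 c5549 c5550 c12708 c16745 c14209 c5682 (k4 c2885 c2183 c17348 c9731 (k2 c17345 c13676 k0)))))) (by decide +kernel)
def c17350 : PP 9 3 T 0x50000021000000000000000100040000000000000000001000000000000000000000000000000000000010000000000000000800000010 := rS 0x1fe8b542bfda85330a0d22712805e2f343a45068f44e83bd93d8ce957b3259262bf2 (k8 c5231 c5590 c5588 c5546 c17344 c8138 c17162 c17338 (k8 c13455 c14148 c14183 c5567 c5526 c5525 c5374 c5373 (k8 c5325 c9695 c9731 c1262 c485 c9744 c5651 c5664 (k4 c13398 c14057 c1243 c5682 (k2 c738 c2453 (k1 c13510 k0)))))) (by decide +kernel)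
def c17351 : PP 9 3 T 0x800000000011000001000000000000000000040000000000000000000000000000000000000004000000000000002000000000000000000440000002 := rS 0xb (k2 c17345 c665 k0) (by decide +kernel)
def c17352 : PP 9 3 T 0x50000021000000000000000000040000000000000000000000000000000000000000000000000000000010000000000400000040000010 := rS 0x277c26268001ee9901880475918bd622391bf7957b37ebcde29b946c7273a (k8 c17162 c13455 c17338 c5209 c7393 c9695 c5325 c13351 (k8 c17344 c8138 c14148 c5435 c5317 c5371 c5477 c5476 (k8 c17349 c17350 c5650 c6197 c9107 c343 c5642 c9979 (k4 c16365 c5459 c1274 c5679 k0)))) (by decide +kernel)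
def c17353 : PP 9 3 T 0x50000021000000000000000200040000000000000000000000000000000000000000000000000000000010000000000000000040000010 := rS 0xf73688c009f58aa3db03f978dac478e9045225219141e331eb5741de55ecdfaf378a6e51b1c9cebc23a (k8 c17352 c5456 c17162 c13455 c17338 c5209 c7393 c9695 (k8 c5325 c13351 c17344 c8138 c14148 c14183 c5454 c5436 (k8 c5316 c5369 c5326 c5478 c5559 c5339 c5340 c5341 (k8 c5562 c16045 c13617 c5198 c5550 c12708 c5682 c2183 (k4 c1606 c17348 c9731 c17351 (k2 c2021 c13673 k0)))))) (by decide +kernel)
def c17354 : PP 9 3 T 0x50000021000000000000000000040000000000000000000000000000000000000000000000000000000010000000000000000040000010 := rS 0x18c009c0188047591d3f5e2f3c9cea23b1 (k8 c17338 c5371 c17162 c13455 c5325 c9695 c13351 c17352 (k8 c17353 c17350 c5650 c6197 c341 c5642 c1274 c16365 k0)) (by decide +kernel)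
def c17355 : PP 9 3 T 0x800000000051000000000000000000000200000008000200000500000000000000000400000100000001400000045400000000000000000080000002 := rS 0xf026be6a05a27d67e36b1c48f1d208448645198f5ab15 (k8 c15434 c5454 c5436 c5316 c5326 c5478 c5558 c5340 (k8 c5341 c5562 c667 c16045 c13617 c2321 c1606 c3604 (k4 c5680 c5548 c1199 c5198 (k1 c5536 k0)))) (by decide +kernel)
def c17356 : PP 9 3 T 0x50000021000000000000000000040000000000000000000000000000000000000000000000000000000010000000000000000000000010 := rS 0x4f35bc6418ea844df2acb2d626234000066d0f6ccdf1339e81a6d5ef10c8a3518c45226b478cc7e3d946c7273a (k8 c17162 c13455 c17338 c5209 c5436 c5318 c5316 c5526 (k8 c5523 c5374 c5371 c5476 c5324 c5326 c5478 c14148 (k8 c5454 c5496 c14183 c5379 c5382 c5565 c17344 c17354 (k8 c2316 c1111 c5642 c8135 c16365 c1332 c1322 c17355 (k8 c5231 c12200 c2927 c352 c350 c13617 c3588 c5680 (k1 c1606 k0)))))) (by decide +kernel)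
def c17357 : PP 9 3 T 0x9000201000000000000000200000000000000000000000000000000000000000000000000000000000040000000000000000000000008 := rS 0xd2457bcb2c5139d9127d3784d1af121914ba352d86c6728c9ce92e25088a4831d (k8 c5341 c5340 c5339 c5558 c5559 c5404 c17162 c13455 (k8 c5209 c5316 c5475 c5474 c5324 c5321 c5326 c5478 (k8 c9695 c5381 c5564 c5565 c5566 c5567 c15836 c267 (k4 c127 c2051 c14401 c12615 (k2 c14407 c2939 k0))))) (by decide +kernel)
def c17358 : PP 9 3 T 0x400000000009000101000000000000000000000000000000000000000000000000000000000000000000000000100020400000000000000000000010 := rS 0x310c0779464cce6301004373a (k8 c17162 c5475 c1056 c5642 c9752 c63 c13455 c5209 (k4 c11141 c5663 c5668 c14112 k0)) (by decide +kernel)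
def c17359 : PP 9 3 T 0x8400000000009000001000000000000000200000000000000000000000000000000000200000000000000000000000020000000000000000000000010 := rS 0x9a35168937964ec612f1d5e2432e96c32330b98c231dd0808021b33b2cffef6b9047f28c9b4c8b3a (k8 c17162 c5326 c5579 c13455 c5209 c5318 c5340 c5465 (k8 c5891 c5577 c5464 c63 c5475 c1056 c5642 c17357 (k8 c5341 c5558 c9752 c5433 c5316 c6205 c5474 c5321 (k8 c5478 c9695 c1966 c17358 c62 c1118 c15897 c14214 (k4 c2057 c790 c2172 c8818 (k1 c12615 k0)))))) (by decide +kernel)
def c17360 : PP 9 3 T 0x49000001000000000000000200000000000000000000000000000000000000000000000000000000000020000000000000000000000010 := rS 0x752f981247764f8b43df788d466179464cce020086e7495 (k8 c5488 c17162 c5475 c1056 c5642 c63 c13455 c5209 (k8 c5433 c5316 c5324 c9695 c17339 c17357 c5236 c17359 (k4 c2053 c14345 c15810 c1517 (k2 c1575 c17358 k0)))) (by decide +kernel)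
def c17361 : PP 9 3 T 0x400000000019000221000000000000000000040000000000000000000000000000000000000000000200000000100040000000000000000000000008 := rS 0x314c0776397c32799464e7463 (k8 c9752 c17162 c13455 c5209 c5524 c6205 c1520 c2439 (k4 c11141 c5663 c14110 c5668 k0)) (by decide +kernel)
def c17362 : PP 9 3 T 0x220000000000000000100040008000000000000000000000000084010000000000000001000000000000005000000000000000000 := rS 0xff45a1d2283 (k4 c5525 c5374 c5373 c2939 (k2 c2943 c13510 k0)) (by decide +kernel)
def c17363 : PP 9 3 T 0x40000021000000000000000100040000000000000000000000000100000200000000012040000000000004000005000000000000000000 := rS 0x7fa2dbe7ff134d0ac53b3313e6167e4e747b43a4507a0 (k8 c5212 c5525 c5374 c5373 c5372 c17162 c13455 c1650 (k8 c1696 c1700 c1276 c10162 c127 c789 c17362 c10123 (k4 c5577 c5580 c790 c2506 (k1 c13510 k0)))) (by decide +kernel)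
def c17364 : PP 9 3 T 0x400000000058000021000000000000000100040000000000000000000000000000000200000000000000000000000040000000000000000000000008 := rS 0x22d0aff6a9d9a4614f9fbc6df63f813a993a9ed0e913ca0d1e634d87cd728d8a5d03133e92dc64970fc94228129bc4e13d0067273a (k8 c17162 c13455 c6205 c5212 c5564 c267 c5565 c1113 (k8 c5651 c1195 c5231 c5591 c5588 c5549 c5546 c5566 (k8 c5382 c5380 c5404 c17338 c5209 c5523 c1111 c7393 (k8 c9752 c5526 c5525 c5524 c5374 c5373 c5372 c1966 (k8 c17361 c17363 c5679 c5535 c5538 c10517 c3610 c2881 (k8 c729 c10123 c10162 c141 c2942 c788 c791 c13510 k0)))))) (by decide +kernel)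
def c17365 : PP 9 3 T 0x400000000058000021000000000000000100040000000000000000000000000000000000000000000000000000000020000000000000000000000008 := rS 0x754c181247764bc46a1b1985e51b1c9ce8ce220f9ad2ba0 (k8 c5212 c5488 c5523 c1111 c6197 c63 c17162 c13455 (k8 c17338 c5209 c5433 c5316 c5475 c5324 c9695 c17364 (k4 c2053 c14345 c15810 c482 (k2 c1575 c17361 k0)))) (by decide +kernel)
def c17366 : PP 9 3 T 0x58000021000000000000000000040000000000000000000000000000000000000000000000000000000000000000000000000000000010 := rS 0x6f260fec7491819277ef284502513b85c67d3784e2681f9682b2f11a864f6913ca3c66171126c3e0200990366b946c7273a (k8 c17162 c13455 c17338 c5209 c5523 c5475 c17356 c1056 (k8 c5642 c1111 c7393 c6197 c5433 c5316 c5526 c5524 (k8 c5374 c5372 c6205 c5324 c9695 c17360 c5212 c5231 (k8 c5380 c5382 c5564 c5565 c5566 c5549 c5591 c267 (k8 c1113 c5651 c1195 c17365 c5493 c5494 c15810 c14345 (k4 c727 c729 c482 c3610 (k1 c2443 k0))))))) (by decide +kernel)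
def c17367 : PP 9 3 T 0x55000001000000000000000200040000000000000000000000000000000000000200000400000000000000000000000400000810000010 := rS 0x4f379c694f924fc2f11a86c62190ba5d93a02092c8fe38eb57bc331eca3273a (k8 c17162 c13455 c5209 c5436 c5316 c5234 c5454 c5341 (k8 c13617 c5562 c5342 c5340 c14183 c5494 c5452 c5433 (k8 c6205 c5476 c5475 c5324 c9695 c17347 c481 c5198 (k4 c3577 c5549 c14209 c2182 (k1 c2885 k0))))) (by decide +kernel)
def c17368 : PP 9 3 T 0x1000000000000000000000000000200000000000000000000000100000008000044000000000000000000000800000010000000 := rS 0x25132f11a86c6219c9ce86617 (k8 c5433 c5316 c17162 c13455 c6205 c5476 c5475 c5324 (k4 c9695 c1591 c3577 c2126 k0)) (by decide +kernel)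
def c17369 : PP 9 3 T 0x50000021000000000000000200040000000000000000000000000000000000000000000000000000000000000000000000000000000010 := rS 0x37cfec74c18124aaf6b87e4e3f08e943e35811e3a4114bc486453da44f28f198f43a224d87c04010d9ae50976ab250313099bcfaad44e83bdb3c9ec67464 (k8 c17356 c17162 c17338 c13455 c17366 c5234 c14183 c5567 (k8 c1959 c5566 c5565 c5564 c5382 c5380 c5494 c5454 (k8 c5452 c5209 c5523 c5475 c1056 c5642 c1111 c7393 (k8 c6197 c1954 c5436 c5316 c5526 c5524 c5374 c5372 (k8 c5326 c5478 c9695 c5339 c5340 c5341 c5562 c9423 (k8 c13617 c1197 c17367 c5456 c1773 c5198 c5591 c12708 (k8 c8720 c17368 c262 c482 c727 c729 c2443 c3610 k0))))))) (by decide +kernel)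
def c17370 : PP 9 3 T 0x41000020000000000000000000000000000000000400000000000500000000000010010420000110000020000000000000000000000000 := rS 0x279bde33fb1d96603da44f28f (k8 c5526 c5524 c5374 c5372 c1956 c1758 c727 c729 (k4 c14235 c3610 c5680 c2885 k0)) (by decide +kernel)
def c17371 : PP 9 3 T 0x50000021000000000000000000040000000000000000000000000000000000000000000000000000000000000000000000000000000010 := rS 0x1be7f63a60c0924aa85c2e3147cab2ad1289d127d3784e2681d03252fded9a6c441f010043a64788d436310c9ed226b3ca3c6617946c7273a (k8 c17162 c13455 c17338 c5209 c5433 c5316 c5526 c5524 (k8 c5523 c5374 c5372 c6205 c5476 c5475 c5324 c9695 (k8 c17356 c1954 c1056 c5642 c1111 c6197 c7393 c17366 (k8 c5234 c5452 c5494 c14183 c5380 c5382 c5564 c5565 (k8 c5566 c5567 c267 c1113 c1959 c17369 c5231 c5651 (k8 c5549 c5591 c1195 c17370 c3577 c262 c482 c727 (k2 c729 c2443 (k1 c3610 k0)))))))) (by decide +kernel)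
def c17372 : PP 9 3 T 0x800000000019000001000000000000000000080000000000000000000000000000000000000000000000000000000000000000000000000000000000 := rS 0x853a99492a52a1d7ebc46af30dbd432330bca3263b0f88deecf64b37c33a (k8 c17162 c6344 c5495 c5494 c5453 c5333 c5331 c5517 (k8 c5332 c13455 c5209 c5433 c5316 c6205 c5477 c5475 (k8 c5325 c5324 c9695 c5405 c5486 c5488 c5489 c14345 (k4 c12030 c1694 c6455 c8250 k0)))) (by decide +kernel)
def c17373 : PP 9 3 T 0x50000000000000000000000100080000000200001500000000000140000400001000000801400000045400000000000000010000000010 := rS 0x1c048b3 (k4 c2496 c15031 c3604 c2755 k0) (by decide +kernel)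
def c17374 : PP 9 3 T 0x800000000041000000000000000000000000000008000000000000002000000080000400000100010000000000000000000000005004010000000000 := rS 0x11c5635c82b24f10c8a3518b55a7e3 (k8 c5580 c5496 c5454 c5476 c5324 c5326 c5478 c5680 (k4 c14125 c1602 c1606 c2557 (k2 c3588 c2029 k0))) (by decide +kernel)
def c17375 : PP 9 3 T 0x50000021000000000000000000000000000000000000000000000000000000000000000000000000000010000000000000000000000014 := rS 0xe22750379f89a54b2d3ab136984c468000a6229135a3c663f038f43e0b23f84e71337d67409955b406ef7798edeab58ab87e5b3f6fbfbd4a946c7273a (k8 c17162 c13455 c17338 c5209 c17371 c14148 c17189 c17168 (k8 c17372 c5201 c5591 c5590 c5548 c5477 c5332 c5325 (k8 c5333 c5435 c9979 c8138 c1596 c14183 c12110 c5565 (k8 c5382 c5379 c6344 c5520 c5516 c5517 c5436 c5432 (k8 c5318 c5316 c5526 c5523 c5374 c5371 c9694 c5642 (k8 c8135 c16365 c661 c665 c1332 c1274 c1322 c2025 (k4 c5679 c5682 c17373 c17374 (k2 c2927 c2930 (k1 c16445 k0))))))))) (by decide +kernel)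
def c17376 : PP 9 3 T 0x14000021000000000000000000000000000000000400051000000000000000000020000000150000000010000000000000000000000400 := rS 0x1fe8543a45068f (k4 c5526 c5525 c5374 c5373 (k2 c13370 c2893 (k1 c3613 k0))) (by decide +kernel)
def c17377 : PP 9 3 T 0x50000021000000000000000000000000000000000000000000000000000000000000000000000000000010000000000000000000000010 := rS 0x1ae7f3ab2cc09a4ebf1588b50abd6228330944e213480a03035aa67e4abd9d65126f09c4d1ad0f7e83c2d36aa5fbcf179bd4320d358dc76237b82fdb4a946c7273a (k8 c17162 c13455 c17338 c5209 c17371 c17168 c5516 c5333 (k8 c5331 c5332 c5435 c5523 c5522 c6205 c5477 c5325 (k8 c9695 c14148 c5452 c5454 c5496 c6344 c14183 c17189 (k8 c9979 c5381 c5382 c5564 c5565 c5567 c12110 c17372 (k8 c8138 c5201 c1596 c5548 c5550 c5592 c17375 c9741 (k8 c265 c267 c1113 c5664 c5651 c2179 c1243 c1195 (k8 c738 c5683 c17376 c1239 c5679 c14193 c1326 c1576 (k2 c729 c2033 (k1 c5278 k0))))))))) (by decide +kernel)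
def c17378 : PP 9 3 T 0x9000001000000000000000000000000000000000000000040000000000000000000002000004404000000000000000400000000005408 := rS 0x843b165906149b3de25d1abccb61b7a8cc2f28c9ce8c697 (k8 c5404 c9752 c17162 c13455 c5209 c5433 c5316 c5477 (k8 c5475 c5474 c5325 c5324 c5321 c9695 c1650 c1694 (k4 c1696 c14345 c15897 c10162 (k2 c3571 c789 k0)))) (by decide +kernel)
def c17379 : PP 9 3 T 0x19000021000000000000000000080000000000000000000000000000000000000008000000000000000020000000000000000000000008 := rS 0x752f980eecd4ef7d2af11a86c1e7b439acf283198edee0bf6ca3273a3398c420d (k8 c5522 c265 c9752 c63 c17162 c13455 c5209 c17168 (k8 c5516 c5333 c5332 c5316 c5525 c5524 c5523 c5373 (k8 c5372 c5369 c5475 c5324 c9695 c5488 c17372 c17378 (k4 c2076 c16450 c15810 c62 (k2 c1575 c16448 k0))))) (by decide +kernel)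
def c17380 : PP 9 3 T 0x50000021000000000000000000000000000000000000000000000000000000000000000000000000000000000000000000000000000010 := rS 0x138924ca5542e171ab561f2449f626814dfbf41e166b259e97ef6cd542101005521d7e993daf71187c774a788d5e61b18bd4320d35a0c6617946c7273a (k8 c17162 c13455 c17338 c5209 c5433 c5316 c5525 c5523 (k8 c5522 c6205 c5477 c5476 c5475 c5325 c5324 c9695 (k8 c17371 c5332 c5517 c5331 c5333 c17168 c17377 c1128 (k8 c1954 c1957 c1056 c5642 c265 c3581 c17379 c5234 (k8 c5452 c5453 c5494 c5495 c6344 c14183 c17189 c1189 (k8 c5380 c5382 c5566 c5567 c5201 c9092 c1959 c5549 (k4 c5591 c1197 c17370 c12030 (k2 c3577 c5679 (k1 c1694 k0))))))))) (by decide +kernel)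
def c17381 : PP 9 3 T 0x49000000000000000000000000000008000000000000000000000000100400000000000008000000000000000000005004008000000000 := rS 0x8e9054243228d4621d (k8 c5486 c5476 c5324 c5326 c5478 c2927 c350 c351 (k1 c16370 k0)) (by decide +kernel)
def c17382 : PP 9 3 T 0x48000021000000000000000000000000000000000000000000000000000000000000000000000000000010000000000000000000000014 := rS 0x1144a58ad0487113b2cc40014bcd223f1eacdaa73469bd12ad57d6524350d85c66c9943c7da6b36c0d08fd43c4553b4339a627a0ef64f633a (k8 c17162 c17338 c13455 c14148 c14183 c5382 c5403 c5487 (k8 c17380 c5531 c5371 c5373 c5405 c14584 c2629 c5529 (k8 c5523 c14747 c9695 c5209 c5494 c5316 c5433 c5475 (k8 c5324 c14345 c17339 c5406 c5490 c5567 c5565 c5381 (k8 c5379 c5454 c5532 c5436 c5318 c5374 c5325 c9694 (k8 c5642 c16365 c1322 c17381 c668 c5651 c13067 c1092 (k2 c1095 c3602 (k1 c12080 k0)))))))) (by decide +kernel)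
def c17383 : PP 9 3 T 0x48000021000000000000000000000000000000000000000000000000000000000000000000000000000010000000000000000000000010 := rS 0x25229c0d73fb7c809e50b1c50cb3a9804a273180a065f427b525594a99dfa69788d5e61b18866227b43a44d6330bca0da9954acf68976ab25a68d8984cdfa0ef64f633a (k8 c17162 c17338 c13455 c14148 c14183 c5565 c5564 c5382 (k8 c5381 c5496 c5494 c5454 c5452 c17380 c5532 c5531 (k8 c5530 c5529 c5209 c5433 c5316 c5523 c5374 c5373 (k8 c5372 c5371 c6205 c5476 c5475 c5325 c5324 c9695 (k8 c5403 c5405 c5487 c5488 c17339 c14345 c14747 c14584 (k8 c1517 c2629 c17382 c9752 c267 c1113 c14092 c9271 (k8 c1754 c5651 c726 c1195 c537 c536 c14125 c729 (k4 c1605 c15227 c5278 c1715 (k1 c12080 k0))))))))) (by decide +kernel)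
def c17384 : PP 9 3 T 0x65000200000000000000000200000008000200000100000000000000145400000100000001000000000400000000000000000000000002 := rS 0x3dda23b81405c4ae502b53ed6f1fbd691d2084486451abcc62f5198e47e371ec5442b3 (k8 c5532 c5528 c5414 c5436 c5435 c5318 c5317 c5316 (k8 c5477 c5476 c5325 c5324 c5326 c5478 c5558 c5340 (k8 c5341 c15768 c6923 c13617 c3588 c1606 c2033 c5680 (k8 c5683 c1200 c3070 c1249 c1773 c1780 c2195 c3587 k0)))) (by decide +kernel)
def c17385 : PP 9 3 T 0x2000000000000000000000000000000000000000000008000200000000000000000000001000000000000000000000000000000000000400000000000000 := rS 0x68bdc6a317a8cc7237 (k8 c5435 c5317 c5316 c5477 c5476 c5324 c5498 c5501 (k1 c15359 k0)) (by decide +kernel)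
def c17386 : PP 9 3 T 0x45000000000000000000000000000008000200000000000000000000100400000150010004000000000000000000000000000000000000 := rS 0x3c69f6bc77dc43228d4663d (k8 c5436 c5316 c5324 c5326 c5478 c5683 c5504 c5507 (k2 c14394 c13617 (k1 c5680 k0))) (by decide +kernel)
def c17387 : PP 9 3 T 0x64000200000000000000000100000008000200000000000000000000040400000110000001000000000400000000000000010040000002 := rS 0x7b882af13114ce5b (k8 c5474 c663 c5326 c13524 c13523 c350 c5683 c6923 k0) (by decide +kernel)
def c17388 : PP 9 3 T 0x44000000000000000000000000000008000200000000000000000000040400000110000000000000000000000000000000008000000000 := rS 0xf71055e45 (k4 c5326 c2986 c350 c5683 (k1 c6923 k0)) (by decide +kernel)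
def c17389 : PP 9 3 T 0x800000000065000200000000000000000100040008000200000000000000000000000400000010010001000000000600000000000400010000000000 := rS 0x1a2f7814055def6b907c49f2509092275a1c5e6f51b8f4471559b4d6273 (k8 c5379 c1332 c5496 c5532 c5414 c5409 c5436 c5435 (k8 c5477 c5325 c835 c13067 c17388 c10038 c5651 c9106 (k8 c2756 c5680 c5462 c5465 c6923 c5683 c3070 c1249 (k2 c565 c2201 (k1 c9979 k0))))) (by decide +kernel)
def c17390 : PP 9 3 T 0x800000000040000001000000000000000100000000000200000000000000000000000400000020000000000000000000000000000000010000000000 := rS 0x1004cd78e89486459d0cc7ad5 (k8 c5454 c5436 c5316 c17162 c5326 c5478 c5700 c2029 (k4 c2033 c5651 c16045 c350 k0)) (by decide +kernel)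
def c17391 : PP 9 3 T 0x5800000000041000000000000000000000000000008000200001000000000000000000000002080004000000000000000000008000400000000000000 := rS 0x3dda30179bd46e97 (k8 c5452 c5435 c5477 c5325 c3070 c14191 c565 c9979 k0) (by decide +kernel)
def c17392 : PP 9 3 T 0x40000021000000000000000000040000000000000000000000000000000000000000000000000000000010000000000000000000000014 := rS 0x345eed78efb95fe170a6bc6a06f8ed3e4af989092b413878e2adacb2d6247311a0002979bd41f113da44d6371eca0469d8a9b567b467b559ad3399bf41dec9ec675b3 (k8 c17383 c17162 c17338 c13455 c14148 c14183 c5565 c5379 (k8 c5496 c5495 c5454 c5453 c17380 c5532 c5529 c5414 (k8 c5412 c5409 c5209 c5436 c5435 c5523 c5374 c5372 (k8 c5371 c5369 c5477 c5325 c9694 c5642 c8135 c16365 (k8 c12800 c1332 c1322 c17384 c17390 c835 c17387 c17388 (k8 c13067 c10038 c5651 c12200 c9106 c2756 c14196 c14968 (k8 c17389 c5578 c1199 c3060 c5536 c17391 c5683 c5504 (k4 c5507 c8188 c8355 c9979 k0)))))))) (by decide +kernel)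
def c17393 : PP 9 3 T 0x40000021000000000000000000040000000000000000000000000000000000000000000000000000000010000000000000000000000010 := rS 0x42998d202d99cf41de78c4651b1c9ce8dbb4 (k8 c17380 c5529 c17162 c13455 c17338 c5209 c5371 c9695 (k8 c14148 c14183 c5379 c17383 c17392 c9741 c5664 c5871 (k1 c14197 k0))) (by decide +kernel)
def c17394 : PP 9 3 T 0x40000021000000000000000000000000000000000000000000000000000000000000000000000000000010000000000000000000000014 := rS 0x158cb38188d0001483d220d35ca369b30f924164739d6741dec9ec6754a (k8 c17393 c17162 c17338 c13455 c14148 c14183 c12110 c5379 (k8 c5520 c5516 c5334 c5517 c17383 c17380 c5209 c5523 (k8 c5522 c5374 c5369 c9694 c5642 c8135 c16365 c13576 (k2 c1322 c835 (k1 c17390 k0))))) (by decide +kernel)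
def c17395 : PP 9 3 T 0x40000021000000000000000000000000000000000000000000000000000000000000000000000000000010000000000000000000000010 := rS 0x200fff92bcb028429984a27348040559449bc271346fb416f7f7e8295b3ef3c4baf32dbd41e8748835068f946c7273a36aa567b4 (k8 c17380 c5532 c5531 c5529 c17162 c13455 c17338 c5209 (k8 c5526 c5525 c5522 c5374 c5373 c5369 c5477 c5474 (k8 c5325 c5321 c9695 c14148 c17383 c17393 c14183 c17189 (k8 c5333 c5516 c17168 c5381 c5382 c5564 c5565 c5567 (k8 c12110 c17394 c28 c9741 c267 c1113 c5664 c5871 (k4 c5651 c3571 c1243 c12355 (k2 c13507 c12790 (k1 c5592 k0)))))))) (by decide +kernel)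
def c17396 : PP 9 3 T 0x1000400000000029000001000000000000000000000000000000000000000000000000000000000000000000000004000042000000000000000040000008 := rS 0x1240962344ea771a86651939d2744295 (k8 c5488 c5528 c5412 c17162 c13455 c5209 c6205 c5324 (k4 c724 c1575 c10484 c5668 (k2 c1627 c14107 (k1 c261 k0)))) (by decide +kernel)
def c17397 : PP 9 3 T 0x1000400000000029000001000000000000000000000000000000000000000000000000001000000000000000004004000440000000000000000000000008 := rS 0x688e8ec61788d436339464e74234e885321f (k8 c1111 c5530 c5528 c5412 c5409 c17162 c13455 c5209 (k8 c5316 c5475 c5324 c9695 c17396 c15810 c14193 c2131 (k1 c6899 k0))) (by decide +kernel)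
def c17398 : PP 9 3 T 0x48000021000000000000000000000000000000000000000000000000000000000000000000000000000000000000000000000000000010 := rS 0x12914e06bb7c809e639d5965f4918192776ab17bca1818a0922513a24fa6f09a3503a0aca546af30c9ed0e910b88e2a6d4cacccfed66bdb68fd35bc46728d8e4cc60200990373a (k8 c17162 c5475 c17395 c1056 c5642 c9752 c13455 c17338 (k8 c5209 c5316 c9695 c5523 c1128 c17380 c12418 c2071 (k8 c5498 c63 c5532 c5530 c5529 c5414 c5409 c5433 (k8 c5374 c5373 c5372 c6205 c5325 c5324 c5488 c17360 (k8 c5212 c5380 c5381 c5564 c5565 c5566 c5567 c267 (k8 c1113 c10038 c5651 c2196 c1195 c17397 c5451 c5454 (k8 c5493 c5494 c15810 c14345 c62 c1755 c1575 c726 (k8 c537 c536 c14125 c1605 c15227 c16546 c1715 c12080 k0)))))))) (by decide +kernel)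
def c17399 : PP 9 3 T 0x60000001000000000000000200000000000200000000001080000000040000000010000000000000004020000000000000000040040010 := rS 0x7f2d3e64980c0d61ef23c7482297890c8a2355c5442b30efb44e2501004373a (k8 c17162 c5475 c1056 c5642 c1113 c267 c5498 c1954 (k8 c5532 c5528 c5414 c5413 c5409 c5326 c5478 c9695 (k8 c5339 c5340 c5341 c5562 c6923 c9423 c2195 c2143 (k4 c13257 c17139 c12753 c14602 (k1 c2572 k0))))) (by decide +kernel)
def c17400 : PP 9 3 T 0x40000021000000000000000000000000000000000000000000000000000400000100000000000000000000000000000000000000000010 := rS 0xe16392cc0408ea4bdc7b36a65aaaf33a45bea1145655a896987decf17e9ae50253789c27a0ef6cc04013206c33939d2cf69b1 (k8 c17338 c17380 c5532 c17162 c13455 c6205 c5475 c17395 (k8 c1056 c5642 c17398 c5234 c14183 c5564 c267 c5565 (k8 c1113 c5209 c5523 c1128 c9695 c12418 c1111 c5496 (k8 c5567 c1959 c17399 c5651 c1195 c14125 c5374 c63 (k8 c13512 c5454 c5530 c5529 c5372 c9092 c17386 c5504 (k4 c6923 c262 c564 c726 (k2 c1715 c15227 k0))))))) (by decide +kernel)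
def c17401 : PP 9 3 T 0x1000220040000000000000100040000000000000000000000000040000000000000001100000000001000000005000400020500000008 := rS 0x11934e2f9a4cfec72f980f6913ca3c72171b98c3e6b40c4cfaa10cb847b28 (k8 c5209 c5436 c6188 c6205 c1195 c5566 c5382 c5380 (k8 c5523 c1111 c9752 c5435 c5433 c5317 c5526 c5524 (k8 c5374 c5372 c14193 c62 c726 c729 c15227 c14109 (k4 c5864 c3578 c5660 c4604 k0)))) (by decide +kernel)
def c17402 : PP 9 3 T 0x1000020000000000000000000000000000000000400000000000540000000000000010020000110001024000000000000000000000000 := rS 0xfc602f9e51e67 (k4 c63 c5526 c5524 c1519 (k2 c1956 c5864 (k1 c729 k0))) (by decide +kernel)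
def c17403 : PP 9 3 T 0x40000021000000000000000000000000000000000000000000000000000400000000000000000000000000000000000000000000000010 := rS 0xc6302492ae31d38496b06f8d5e6313da4466171ea75562136a65661da5fb4c69764a06267d819262a23508a2b2ad44b4c3ef678bf4d7b494094de2709e83bdb3d880802640d867273a (k8 c17162 c13455 c6205 c5475 c17395 c1056 c5642 c17338 (k8 c17398 c5234 c14183 c5564 c267 c5565 c1113 c5209 (k8 c17380 c5523 c1128 c9695 c12418 c1111 c5496 c5567 (k8 c1959 c17399 c5651 c1195 c5409 c5414 c10038 c2196 (k8 c5566 c5382 c5380 c5494 c5452 c9752 c5498 c12375 (k8 c1954 c5532 c5530 c5529 c5528 c5413 c5412 c5436 (k8 c5433 c5316 c5374 c5372 c5476 c5325 c5324 c14125 (k8 c17400 c12081 c6188 c17401 c1774 c17402 c3577 c262 (k2 c15227 c726 k0))))))))) (by decide +kernel)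
def c17404 : PP 9 3 T 0x40000021000000000000000000000000000000000000000000000000000000000000000000000000000000000000000000000000000010 := rS 0x25526ca5689d1213d03252fded9808021d323c46a1b188646617946c7273a (k8 c17162 c13455 c17338 c5209 c5433 c5316 c6205 c5476 (k8 c5475 c5324 c9695 c17395 c1954 c1056 c5642 c17398 (k8 c5234 c5452 c5494 c14183 c5564 c5567 c267 c1959 (k4 c17403 c1754 c1758 c3577 k0)))) (by decide +kernel)
def c17405 : PP 9 3 T 0x8000201000000000000000200000000000200000000000000000000000000000000010004000000000010000000000000000000000020 := rS 0x7e3002590f11a86f273a2b8cc7e070b8f4c67d (k8 c5566 c9754 c5436 c5433 c5432 c5318 c5316 c5313 (k8 c17162 c13455 c5475 c5324 c9695 c14345 c311 c10171 (k2 c9764 c729 k0))) (by decide +kernel)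
def c17406 : PP 9 3 T 0x51000200000000000000000000040000000000000000000000000000000400000000001009400005000000800000000000000000000020 := rS 0x6ff8bc09f4c820de7d (k8 c5566 c5565 c1516 c1520 c1522 c10734 c5711 c5538 (k1 c10517 k0)) (by decide +kernel)
def c17407 : PP 9 3 T 0x1000200000000000000000200000000000000000000000000000000200000000000000000000000000040404000005000000000000060 := rS 0x770498c231d (k4 c5341 c5558 c9754 c312 (k2 c11141 c15288 k0)) (by decide +kernel)
def c17408 : PP 9 3 T 0x400000000040000221000000000000000200000000000000000000000000000000000400000000010000000000000010000000000000000000000000 := rS 0xfde23b27c10c52f1d5a8921a8c4ae331f81c7b28379f4cfb2c9ec4828a089748a892c810871d4684cb73a (k8 c17162 c5474 c5564 c5381 c5341 c5478 c17404 c314 (k8 c5567 c5326 c5321 c5558 c12615 c5340 c17338 c13455 (k8 c5234 c5487 c5566 c5565 c5209 c5436 c5432 c5318 (k8 c5316 c5313 c5476 c5324 c17405 c16370 c1532 c17407 (k4 c1630 c1516 c1522 c5668 (k2 c5711 c790 (k1 c5577 k0))))))) (by decide +kernel)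
def c17409 : PP 9 3 T 0x9000201000000000000000200000000000000000000000000000000000000000000020000080000000004000000000000000000000000 := rS 0xee272fb548a350d8cc7f28c9ce8deaf (k8 c5406 c5565 c17162 c13455 c5209 c5318 c5316 c5475 (k4 c5324 c5326 c3000 c1121 (k2 c2927 c791 (k1 c15806 k0)))) (by decide +kernel)
def c17410 : PP 9 3 T 0x400000000040000221000000000000000200000000000000000000000000000000000000000000000000000000000010000000000000000000000000 := rS 0x1949250a2a3a410890c8a5d2dca0c659022342689d964e75b1 (k8 c17338 c17162 c13455 c5234 c5567 c5564 c5381 c17404 (k8 c314 c9754 c5209 c5474 c5321 c5326 c5478 c5558 (k4 c5340 c5341 c12615 c17409 (k2 c17405 c17408 (k1 c1753 k0))))) (by decide +kernel)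
def c17411 : PP 9 3 T 0x40000200000000000000000000000000000200000000000000000000000000000000000004000040000000000000000000018000000101 := rS 0x22252b8f4267d (k4 c5566 c5564 c5436 c5313 (k2 c60 c2859 (k1 c12670 k0))) (by decide +kernel)
def c17412 : PP 9 3 T 0x84008000000000008000220000000000000000000000000000000001000000000000000040020000100004000000000000002000000000000000000000000 := rS 0x1feb355fb5989a4231a02e181b8d03133eab55efd54b44f6df (k8 c5580 c5372 c1706 c5489 c5405 c5406 c5490 c5566 (k8 c5382 c5380 c5549 c5550 c5591 c5592 c14235 c15790 (k4 c727 c839 c5541 c1190 (k2 c2497 c2506 (k1 c9179 k0))))) (by decide +kernel)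
def c17413 : PP 9 3 T 0x58000221000000000000000000000000000000000000000000000000000400000000010004000000000010000000000000000000000000 := rS 0x7cfc49f588904ec43fc54ee602f9d413ef643c486452e8d4b61b189ecd6571981c2e3d9464e74011498cb20433b4f62ad (k8 c5490 c17338 c14519 c5487 c17404 c314 c9754 c9692 (k8 c53 c17162 c13455 c5209 c5436 c5433 c5432 c5316 (k8 c5313 c5523 c5372 c5476 c5475 c5474 c5324 c5321 (k8 c5326 c5478 c9695 c14345 c15206 c311 c1966 c1117 (k8 c10171 c11141 c15492 c729 c3567 c17411 c14108 c1092 (k4 c2756 c10123 c17412 c16791 k0)))))) (by decide +kernel)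
def c17414 : PP 9 3 T 0x400000000040000201000000000000000000000000000000000000000000000000000400000000000008080000100010800000000000000000000020 := rS 0xfde23b27c10c5c9ce8de7d (k8 c5566 c5565 c17162 c13455 c1630 c1516 c1522 c5668 (k2 c5711 c790 (k1 c5577 k0))) (by decide +kernel)
def c17415 : PP 9 3 T 0x400000000040000221000000000000000000000000000000000000000000000000000400000000000008000000000010000000000000008000000000 := rS 0x3b824be7545475a81121914ba5b2b8cc7e071eca002632c8111a133ea243a67d964e75b1 (k8 c17338 c17162 c13455 c5234 c5487 c5486 c5567 c5566 (k8 c5564 c5381 c17404 c314 c9754 c53 c5209 c5436 (k8 c5432 c5318 c5316 c5313 c5474 c5321 c5326 c5478 (k8 c2859 c17381 c351 c12615 c1532 c17414 c312 c11141 (k1 c15288 k0))))) (by decide +kernel)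
def c17416 : PP 9 3 T 0x1400000000011000001000000000000000000000000000000000000000000000000440400000000014000004411000411000000000000000000005020 := rS 0x8467bdc169c0f9d8ea994db15a85e64975e65b0dbd42f281488cc65956abd2e1d4aecb273a (k8 c17162 c13455 c5234 c5488 c5486 c5404 c5406 c5490 (k8 c314 c9754 c9734 c9692 c5209 c5433 c5477 c5475 (k8 c5474 c5325 c5321 c10171 c5663 c10482 c1630 c1119 (k8 c1520 c1532 c5668 c7579 c5679 c718 c8123 c1650 (k2 c3571 c789 k0))))) (by decide +kernel)
def c17417 : PP 9 3 T 0x400000000050000221000000000000000000000000000000000000000000000000000400000000010000000000000010000000000000000000000000 := rS 0x1f262454ea770497cc1eff0b5c83e24fac448274934cba352d86c620f3da1d220d359e506571981c7b28018a4b2043eab4cfb2c9ceb6359 (k8 c17410 c17338 c17162 c13455 c5234 c5487 c5490 c5566 (k8 c17404 c314 c9692 c54 c5209 c5436 c5432 c5316 (k8 c5313 c5525 c5524 c5523 c5522 c5374 c5373 c5372 (k8 c5369 c5476 c5475 c5474 c5324 c5321 c14519 c17413 (k8 c17415 c5651 c1092 c2756 c5680 c5462 c5465 c12577 (k8 c6923 c17416 c62 c1574 c724 c1576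 c15492 c3567 (k2 c16791 c17412 k0))))))) (by decide +kernel)
def c17418 : PP 9 3 T 0x80000400000000001000021000000000000000000000000000000000000004000000000000000000500000000000000000000400000000400000000000020 := rS 0x283eaaf683cee678a9ac0e7b3a8d4363131ca1e297d964e7501 (k8 c5592 c17162 c13455 c5234 c5404 c9695 c5209 c9754 (k8 c5476 c5475 c5324 c9271 c5372 c5432 c5523 c15492 (k8 c5487 c11141 c5369 c14538 c14396 c1084 c16448 c718 k0))) (by decide +kernel)
def c17419 : PP 9 3 T 0x11000020000000000000000000040000000200000000000000000000000000000800001000000000000000400000000000006000000120 := rS 0x587c4001 (k4 c53 c2761 c2322 c2417 (k1 c16712 k0)) (by decide +kernel)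
def c17420 : PP 9 3 T 0x80000400000000001000021000000000000000000000000000000000000004000000000010000000500001000000000000000400000000000000000000020 := rS 0x19a3a557b46bb28a9ac0f28c9ce8f701 (k8 c5592 c5372 c17162 c13455 c5209 c5432 c5523 c15492 (k4 c5234 c5324 c14538 c14396 (k2 c17418 c2076 (k1 c6899 k0)))) (by decide +kernel)
def c17421 : PP 9 3 T 0x400000000050000221000000000000000000000000000000000000000000000000000400000000000000000000000010000000000000000000000000 := rS 0x14a232c9fecf691c1a27e58fc93ac4121d4c1153b8244e5f4ff8d40f12e8d4b61b189ecd657198fc0f281498cb20437a5ccfb2c9ceb6359 (k8 c17410 c17338 c17162 c13455 c5234 c5487 c5404 c5565 (k8 c17404 c314 c9754 c9692 c5209 c5432 c5318 c5316 (k8 c5313 c5523 c5372 c5476 c5475 c5474 c5324 c5321 (k8 c9695 c17417 c5578 c100 c1121 c2927 c5711 c11141 (k8 c15492 c5663 c9271 c5651 c3567 c1277 c16791 c1092 (k8 c15665 c1706 c728 c841 c6082 c2943 c17420 c2760 (k2 c17419 c5520 k0))))))) (by decide +kernel)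
def c17422 : PP 9 3 T 0x84000000000000058000221000000000000000000040000000000000000000000000000044100000000001000000000400000800000000000001000000000 := rS 0x1e55347dbe00de4e7483d8a5dfa1d4aaa422044d9ad3279 (k8 c5524 c1520 c5523 c1119 c17404 c720 c5489 c5488 (k8 c5486 c5405 c5404 c17338 c5525 c17162 c13455 c5475 (k4 c10734 c15741 c5459 c8772 (k2 c17231 c1084 k0)))) (by decide +kernel)
def c17423 : PP 9 3 T 0x400000000050000221000000000000000000000000000000000000000000000000000000000000000000000000000010000000000000000000000000 := rS 0x14204e12496d3679dfe4c54922bdf4b2f3263a11308984ad5653c486452e8d4b61b3c8cc2f28008a4c659022051a1344a5c3bb2c9ceb6359 (k8 c17410 c17338 c17162 c13455 c5234 c5486 c5404 c5567 (k8 c5564 c5381 c5380 c17404 c314 c9754 c9692 c53 (k8 c5209 c5433 c5316 c5524 c5475 c5474 c5324 c5321 (k8 c5326 c5478 c9695 c17421 c1660 c1090 c9148 c1755 (k8 c720 c351 c10171 c5663 c17252 c17287 c12615 c14345 (k8 c1630 c5231 c791 c17247 c2939 c5546 c5588 c17422 (k2 c1695 c17224 (k1 c2417 k0)))))))) (by decide +kernel)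
def c17424 : PP 9 3 T 0x1000220000000000000000100040000000000000000000000000440000000000000000000000040001000404001011140000000000060 := rS 0x250e9c009069e51e6340c4cfa0b (k8 c717 c5566 c5382 c5380 c9754 c5526 c5524 c5522 (k4 c312 c5864 c16869 c6188 (k1 c562 k0))) (by decide +kernel)
def c17425 : PP 9 3 T 0x400000000040000221000000000000000000000000000000000000000000000000000000000000010000000000000010000000000000000000000000 := rS 0xd43a3258a5e3fb5c83e26fb4c36571c81c6e293eab55e974ad65674b0e88de24905b8d96174f8f65077679c04810f69b4d684da21dfb115499f65939d6c4d204 (k8 c17404 c9743 c17338 c17162 c13455 c5234 c5487 c5489 (k8 c5371 c5405 c5373 c17423 c14584 c5523 c5529 c14747 (k8 c17293 c720 c719 c6082 c789 c5209 c5436 c2756 (k8 c5433 c1090 c5731 c717 c3027 c9695 c9734 c5486 (k8 c12546 c5532 c17410 c5488 c5404 c5406 c5490 c5566 (k8 c9692 c5435 c5432 c5317 c5313 c5475 c14519 c14125 (k8 c5680 c5462 c5465 c5577 c17424 c1630 c1117 c5668 (k2 c10482 c1532 k0)))))))) (by decide +kernel)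
def c17426 : PP 9 3 T 0x400000000040000221000000000000000000000000000000000000000000000000000000000000000000000000000010000000000000000000000000 := rS 0x335a23a639d412602ff8d409f65890e010f682d086dda2a4cefd4bec9e2350d8c62287069acae390385c6e3d946c7273a3498c086f (k8 c5565 c17404 c9754 c9743 c17162 c13455 c17338 c5209 (k8 c5436 c5435 c5433 c5432 c5317 c5313 c5523 c5522 (k8 c5373 c5371 c5476 c5475 c5324 c9695 c5234 c5404 (k8 c5405 c5487 c5489 c17423 c5529 c14584 c717 c14747 (k8 c17293 c719 c720 c1090 c2756 c17425 c5578 c1121 (k8 c2930 c5711 c9271 c726 c16869 c10484 c2502 c6899 k0)))))) (by decide +kernel)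
def c17427 : PP 9 3 T 0x800000000041000000000000000000000000000008000200000000000000000000000400000050014010000000000000000000000000010010000000 := rS 0x35bc41b4bb5592d3 (k8 c5496 c5494 c5454 c5452 c5475 c5680 c10482 c5465 k0) (by decide +kernel)
def c17428 : PP 9 3 T 0x800000000048000021000000000000000000000000000000000000000000000000000400000000000000000000004000010000000000000000000000 := rS 0xea092ff8d409f1209d25594a8755ead789746a5b0d8c4ae331f81c2e3d946c7273a1498c08c54bb54eec9 (k8 c5494 c5493 c5454 c5452 c5451 c17404 c9754 c9692 (k8 c17162 c13455 c17338 c5209 c5436 c5433 c5432 c5318 (k8 c5316 c5313 c5476 c5475 c5474 c5324 c5321 c9695 (k8 c5490 c5406 c5486 c5488 c17339 c14345 c17381 c5651 (k4 c2756 c17427 c5578 c1121 (k2 c5711 c9271 (k1 c3567 k0))))))) (by decide +kernel)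
def c17429 : PP 9 3 T 0x800000000041000000000000000000000200000008000200000000000000000000000400000100010000000000000000000000000000000000000000 := rS 0x13fe36b4748243228cc7ad5 (k8 c5454 c5436 c5316 c5326 c5478 c5340 c5341 c16045 (k2 c13617 c1606 (k1 c5680 k0))) (by decide +kernel)
def c17430 : PP 9 3 T 0x800000000000000000000000000000000000000008000000000000000000000000000000000000000000000000000080414000000004000000000060 := rS 0x3a824ba352d8c58a77 (k8 c5493 c5451 c5476 c5474 c5324 c5321 c312 c2006 (k1 c3567 k0)) (by decide +kernel)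
def c17431 : PP 9 3 T 0x1000000000011000021000000000000000000000000000000000000000000000000000000000004000540000000000090000000000000000000000020 := rS 0x6d7ba16940b7e87d380f4383506179464e7459 (k8 c314 c17162 c13455 c5209 c5433 c5525 c5522 c5373 (k8 c5369 c5679 c7579 c1239 c718 c17219 c736 c5333 (k2 c13213 c12456 k0))) (by decide +kernel)
def c17432 : PP 9 3 T 0x40000221000000000000000000000000000000000000000000000000000400000000010000000000000010000000000000000000000000 := rS 0x3856b4b25bda02b336c553bb4577bfc2df71907c49f24ab449593da447a294bb4d56b146a6cd6992f19b666f34f78b204038ccaf28d8e4e7479 (k8 c5524 c17162 c13455 c17338 c5209 c5313 c5316 c5432 (k8 c17404 c314 c17426 c9743 c5565 c17428 c5664 c17430 (k8 c1520 c5523 c1119 c5381 c2179 c8138 c5496 c5452 (k8 c9692 c5436 c5374 c5372 c17429 c17220 c17390 c10629 (k8 c2756 c5680 c5462 c5466 c5580 c12577 c6923 c5282 (k8 c17431 c5412 c5414 c5529 c5532 c3070 c17299 c565 (k4 c5333 c1095 c6188 c3620 k0))))))) (by decide +kernel)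
def c17433 : PP 9 3 T 0x40000221000000000000000000000000000000000000000000000000000400000000000000000000000010000000000000000000000000 := rS 0x50178cdb32b8cc0f28d8e4e74692c810dfde (k8 c17426 c5565 c17404 c314 c9743 c17162 c13455 c17338 (k8 c5209 c5432 c5316 c5313 c17428 c5664 c17430 c17432 (k1 c1121 k0))) (by decide +kernel)
def c17434 : PP 9 3 T 0x4000000000000058000221000000000000000100040000000000000000000000000000044100000000000000000000400000800000000000001000000000 := rS 0x16200fa70924bf905e51b1c9ce84604 (k8 c17404 c9734 c17162 c13455 c17338 c5209 c5433 c5231 (k4 c5546 c5588 c17422 c1082 (k2 c5855 c718 (k1 c17224 k0)))) (by decide +kernel)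
def c17435 : PP 9 3 T 0x48000221000000000000000000000000000000000000000000000000000000000000000000000000000010000000000000000000000000 := rS 0x3d86dda56552677e9acd2cf3bb25a7de2f1850263a5fbc22256505e51b1c9964093a (k8 c17162 c17404 c314 c13455 c17338 c5209 c5433 c17433 (k8 c1090 c720 c17287 c17252 c9754 c5380 c1755 c5663 (k8 c17426 c5496 c5494 c5493 c5453 c9743 c5523 c5405 (k4 c5487 c5489 c17339 c17434 (k2 c5529 c17293 (k1 c14747 k0)))))) (by decide +kernel)
def c17436 : PP 9 3 T 0x40000221000000000000000000000000000000000000000000000000000000000000000000000000000010000000000000000000000000 := rS 0xac22ccdb3088955eca4bf79121346914ba5b0bca363939d1a4b204 (k8 c17404 c314 c9743 c17162 c13455 c17338 c5209 c5433 (k8 c5474 c5321 c5326 c5381 c5564 c5567 c17426 c5452 (k8 c17433 c1246 c1090 c720 c17435 c5664 c738 c17220 (k1 c8187 k0)))) (by decide +kernel)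
def c17437 : PP 9 3 T 0x40000021000000000000000000000000000000000000000000000000000000000000000000000000000010400000000000000000000000 := rS 0x746d6702f6900f9fb44c887fc0d6ab145a35a2b3373113a713a9822a7704bc46a1b189ec1a6b41a3cae39038dc02293998c082540a5ccea9d977fde4169b523b58f1684663d946c7273a (k8 c17162 c13455 c17338 c5209 c5436 c5316 c17436 c5236 (k8 c5212 c5341 c13617 c5579 c5340 c6923 c14183 c5234 (k8 c5489 c5487 c5404 c5463 c9666 c17404 c9754 c9718 (k8 c9692 c53 c5435 c5432 c5317 c5313 c5526 c5525 (k8 c5523 c5522 c5372 c5476 c5475 c5324 c9695 c312 (k8 c11141 c15492 c5663 c9271 c10408 c1696 c5668 c5666 (k8 c8280 c1706 c947 c2979 c1146 c1148 c10681 c11835 (k8 c5673 c12176 c10401 c17420 c8509 c15522 c8402 c3073 (k2 c5529 c16869 (k1 c1646 k0)))))))))) (by decide +kernel)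
def c17438 : PP 9 3 T 0x50000021000000000000000000000000000000000000000000000000000000000000000000000000400010000000000000000000000000 := rS 0x7813aab0f44d3c70099f11a8a3a3359e9106a0ce6592591c220447b2dae7f50ab55e977ea5553ef20b4da91dac7887ac54d9ad32790424992350d85c67b2efe8651b1c9ce9e25e (k8 c17437 c9695 c17162 c13455 c17338 c5209 c17436 c14183 (k8 c5234 c5316 c5433 c5475 c5324 c1117 c14345 c1516 (k8 c5524 c1520 c5523 c1119 c1630 c5436 c5236 c5212 (k8 c5341 c13617 c5579 c5340 c6923 c5489 c5488 c5405 (k8 c5404 c5406 c5490 c5578 c5577 c5465 c5464 c5526 (k8 c17404 c15516 c13598 c12639 c314 c9718 c5525 c5522 (k8 c5374 c17247 c8354 c5668 c13864 c10894 c1532 c2977 (k8 c16959 c2870 c15541 c15542 c1084 c1082 c7579 c13449 k0)))))))) (by decide +kernel)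
def c17439 : PP 9 3 T 0x8000000000011000000000000000000000200040008000200000000010000000000000000001500005500004000800000010004400000000000001020 := rS 0xab0fbfd0bf38a1218e3b70f808a391bb2dc6a16ffbc82d3 (k8 c5579 c5340 c6923 c5580 c5578 c5466 c5464 c5435 (k8 c5317 c5326 c5679 c13096 c5456 c5535 c11685 c3620 (k4 c14209 c788 c3006 c15434 (k2 c6368 c13322 k0)))) (by decide +kernel)
def c17440 : PP 9 3 T 0x8000000000011000000000000000000000200040008000200000000010000000000000000001500004540004000800000010004400000000010001020 := rS 0x3dd0a1f67a70baf32d86c2e23 (k8 c9734 c5433 c5475 c5474 c5325 c5321 c17439 c1650 (k4 c1082 c789 c8123 c10900 k0)) (by decide +kernel)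
def c17441 : PP 9 3 T 0x8000121000000000000000000080000000200100000000000000000000000000000000000000000000000000000000000000000010000 := rS 0x7cfdb3a (k4 c17162 c17168 c11991 c12078 k0) (by decide +kernel)
def c17442 : PP 9 3 T 0x50000021000000000000000000000000000000000000000000000000000000000000000000000000000010000000000000000000000000 := rS 0x1014facd6ab1461b9167643834b24b23a3cfe970efbc82d330a6cd6993ca258a5e6a788663da5c76b1b2ef84409a1946c7273a (k8 c17162 c13455 c17338 c5209 c17436 c17404 c15516 c14183 (k8 c5234 c5212 c5341 c17441 c5436 c5316 c5236 c13617 (k8 c17437 c1630 c2838 c5524 c1520 c5523 c1119 c62 (k8 c5579 c5340 c6923 c5486 c5404 c5577 c5526 c13598 (k8 c12639 c314 c5522 c5373 c17438 c790 c11843 c5673 (k4 c1146 c1148 c2819 c2816 (k2 c2141 c17440 k0))))))) (by decide +kernel)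
def c17443 : PP 9 3 T 0x40000021000000000000000000000000000000000000000000000000000000000000000000000000000010000000000000000000000000 := rS 0x33a0276463816a8b4f9b8e284599b62a9dda02124894ca6d92c52f353dea933bf5bed3509fdc6cb8e90765e2ac77f42f11a86e2287359e466171eca363939d1ccd204 (k8 c17404 c9743 c9718 c17162 c13455 c17338 c5209 c5436 (k8 c5433 c5316 c5524 c5523 c5373 c5371 c5475 c5324 (k8 c9695 c17436 c14183 c5212 c5236 c5234 c5340 c5341 (k8 c5464 c5466 c5577 c5578 c5579 c5580 c5405 c5487 (k8 c5489 c6923 c13617 c17437 c1630 c1117 c1119 c1520 (k8 c2838 c14345 c1516 c17442 c5412 c5414 c5529 c5532 (k8 c14584 c17326 c5666 c1523 c2979 c1148 c3620 c5673 (k4 c13864 c2141 c789 c1653 k0)))))))) (by decide +kernel)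
def c17444 : PP 9 3 T 0x1000200040000000000000200000000000000000000000000000000000000000000010000000000000000400000000000000000000020 := rS 0xfc600495c7e071eca0c67d (k8 c5566 c9754 c5209 c5436 c5432 c5318 c5313 c312 (k2 c5663 c9764 (k1 c729 k0))) (by decide +kernel)
def c17445 : PP 9 3 T 0x8400000000000000001000000000000000000000000000200100000000000000000000010000000000000080010000000000000000000000000000000 := rS 0x3a9dda87fc9ce8663d (k8 c5436 c5316 c17162 c13455 c5577 c13617 c790 c1532 (k1 c5668 k0)) (by decide +kernel)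
def c17446 : PP 9 3 T 0x400000000048000221000000000000000200000000000000000000000000000000000000000000000000000000000000000000000000000000000000 := rS 0x126c96534fc69f62979428a8e90422f1229746a5b0d8cc2f28d8e4e74634684cfa894b9643a04 (k8 c17404 c5486 c313 c5404 c5567 c5566 c5564 c5381 (k8 c9754 c17162 c13455 c17338 c5209 c5433 c5316 c5475 (k8 c5474 c5324 c5321 c5326 c9695 c5558 c5340 c5341 (k8 c8187 c17409 c17444 c1629 c1522 c17445 c2939 c5680 (k2 c10123 c1753 (k1 c14345 k0)))))) (by decide +kernel)
def c17447 : PP 9 3 T 0x59000220000000000000000000000008000200001000000000000000040020000000014000000000000002000000000000000000000120 := rS 0x1f258893de1020f88363d099f59681 (k8 c5380 c1755 c5566 c5564 c5436 c5475 c5680 c5462 (k4 c12668 c6923 c720 c1092 (k2 c16791 c17412 k0))) (by decide +kernel)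
def c17448 : PP 9 3 T 0x200000000000000000000000000000200000000000000000000000000000000008000000000000000000000000000000000000120 := rS 0x94203d (k4 c5436 c15291 c2756 c720 k0) (by decide +kernel)
def c17449 : PP 9 3 T 0x48000221000000000000000100000000000000000000000000000000000020000000010000000000000000400000000000000000000000 := rS 0x24d2cda106fb8c83b4f134cfef14895c72371e88dfa133eab512640ec54d6073db2cc06340a7c1204946c7273a (k8 c17162 c13455 c17338 c5209 c17404 c312 c17448 c5380 (k8 c9754 c5663 c1755 c5372 c5432 c5523 c15492 c5486 (k8 c17443 c5567 c1959 c5566 c5564 c1128 c9734 c5436 (k8 c5435 c5317 c5313 c5374 c9695 c729 c14519 c5680 (k8 c17447 c5462 c5466 c5580 c12668 c5529 c12546 c3026 (k1 c17424 k0)))))) (by decide +kernel)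
def c17450 : PP 9 3 T 0x4400000000000000200000000000000000000000008000000100000000000000000500000000000000000000000000002010000000000002000010000 := rS 0x3fb491471f790c8a5d2da342689 (k8 c5567 c5564 c5381 c5474 c5321 c5326 c5478 c17287 (k4 c2754 c12615 c5689 c728 (k1 c2938 k0))) (by decide +kernel)
def c17451 : PP 9 3 T 0x400000000050000021000000000000000000000000000000000000004000000000010000000100000000000000000000400000000000006000000000 := rS 0x14a232cbe4098a9ac0f284e98362630264e747b (k8 c5372 c17162 c13455 c17404 c9754 c17338 c5663 c1696 (k8 c5209 c5432 c5523 c15492 c312 c16791 c17420 c2760 (k2 c17419 c5520 k0))) (by decide +kernel)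
def c17452 : PP 9 3 T 0x400000000048000221000000000000000000000000000000000000000000000000000000000000000000000000000000400000000000000000000000 := rS 0x16ab355c0606e3da3fd14d23f33ce0101247562276af8d40d768b10ea608a9dde2350d8c5ea0f3da1d22331f81e51b1c9ce8526333bf4d6a941a055e6f56a24c8972c8740959 (k8 c17446 c17404 c5486 c313 c5404 c17443 c5567 c1959 (k8 c5565 c1130 c5380 c5525 c1957 c5523 c1128 c63 (k8 c9754 c9692 c17162 c13455 c17338 c5209 c5432 c5318 (k8 c5316 c5374 c5373 c5372 c5369 c5477 c5476 c5475 (k8 c5324 c9695 c11141 c15492 c5663 c9271 c5668 c1706 (k8 c1765 c17449 c5578 c3000 c2927 c1198 c5778 c5651 (k8 c17450 c719 c6082 c2929 c841 c840 c2943 c17451 (k4 c5731 c5720 c3068 c5413 (k2 c5532 c1200 (k1 c3623 k0)))))))))) (by decide +kernel)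
def c17453 : PP 9 3 T 0x400000000058000221000000000000000000000000000000000000000000000000000400000000000000000000000000000000000000000000000000 := rS 0x6a1d1927766a11ee0b6787d39e16bf89a65d7996c36f5079ed0e9106a0c2f28d8e4e742911abd5a8932254b21d0226cd6993cb152ea137a7cbc7d (k8 c5566 c17452 c1522 c5565 c1121 c5404 c1629 c5524 (k8 c1520 c5523 c1119 c17404 c5486 c313 c5488 c17443 (k8 c5567 c1959 c1130 c9734 c9692 c17162 c13455 c17338 (k8 c5209 c5433 c5525 c5522 c5374 c5373 c5372 c5369 (k8 c5477 c5475 c5474 c5325 c5321 c14519 c5680 c5465 (k8 c12577 c5679 c7579 c1650 c718 c8123 c3571 c2503 (k4 c789 c1276 c5668 c10482 (k1 c1532 k0)))))))) (by decide +kernel)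
def c17454 : PP 9 3 T 0x400000000058000221000000000000000000000000000000000000000000000000000000000000000000000000000000000000000000000000000000 := rS 0x19ec93bb4d15efa5c74222612b55944322974b6790bca363939d0a51a13449643a04acb14bc97 (k8 c5404 c17452 c1629 c17446 c17404 c5486 c313 c5567 (k8 c5564 c5381 c9692 c17162 c13455 c17338 c5209 c5433 (k8 c5524 c5474 c5321 c5326 c5478 c17453 c1660 c1090 (k8 c9148 c720 c351 c17252 c17287 c12615 c2939 c791 (k2 c1325 c17247 (k1 c17434 k0)))))) (by decide +kernel)
def c17455 : PP 9 3 T 0x400000000009000001000000000000000000000000000000000000000000000000440400000050010000000010400000800000000000010000000000 := rS 0x6a1d1921b9464e741d4ab152e9f (k8 c1522 c5404 c1629 c5488 c5486 c17162 c13455 c5209 (k4 c5475 c1118 c5668 c10482 (k1 c1532 k0))) (by decide +kernel)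
def c17456 : PP 9 3 T 0x228000020000000000000000000000008000000400000000000000000000000000000000000000000000000000000000000000000000020 := rS 0xd2d9e237d (k4 c9703 c5371 c7665 c14315 (k1 c6187 k0)) (by decide +kernel)
def c17457 : PP 9 3 T 0x1000000000140010200000100040000400100000000000000440000000000040000008080000000000001400040000000000000000000000000000020 := rS 0x3e91674b9fcb19c5c96f1f6d244e4f8d (k8 c5569 c5383 c5382 c6187 c5233 c15012 c5391 c5390 (k4 c5641 c5619 c3430 c2670 (k2 c3616 c5932 (k1 c5635 k0)))) (by decide +kernel)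
def c17458 : PP 9 3 T 0x20000000000000109000001000000000000800000000000000000000000000000000010000000000000400000000000000000000000000000400000000000 := rS 0xa4518b3cadbc3bc68e1bd786583ad9464e75830ee46de2b (k8 c5601 c5349 c5491 c5486 c5407 c17162 c13455 c5209 (k8 c5437 c5319 c6205 c5479 c5475 c5327 c9695 c5512 (k4 c5627 c6866 c3583 c6651 (k2 c5681 c3325 k0)))) (by decide +kernel)
def c17459 : PP 9 3 T 0x400000000048000221000000000000000000000000000000400000000000000000000480000000000000000000000000000000000000000000010000 := rS 0x175f45f7c57a5353fdd8766dcded1f891f8bddaeb6eea5249bf9bfd621b8d87a46f667336004a5a1c44873599244f1c2e9142643459fd1a5b8ad67de419464e2683f0a44f679689d9afe24fb4d425e56a255e6f3e8a76287f682cdb4bda08dfa6435bc674590e8101a0f (k8 c5369 c5522 c17404 c5486 c313 c17162 c9695 c5523 (k8 c17443 c1128 c9734 c17454 c12546 c5529 c717 c10404 (k8 c5373 c17338 c9692 c5566 c5565 c1130 c5567 c1959 (k8 c17452 c1121 c14519 c1522 c5680 c5465 c17455 c2131 (k8 c5524 c5372 c5374 c12577 c5525 c5382 c13455 c5209 (k8 c5462 c6923 c17446 c5414 c5474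 c5381 c5577 c790 (k8 c5478 c5564 c5326 c5321 c12615 c351 c10038 c5532 (k8 c9718 c5651 c2754 c13067 c9106 c11779 c2077 c5688 (k8 c2139 c3805 c17289 c4785 c5475 c1092 c14972 c15208 (k8 c1119 c17279 c4321 c4568 c5581 c5467 c9709 c5318 (k8 c5527 c5526 c5375 c17456 c17457 c5348 c6330 c1806 (k4 c5605 c2762 c17458 c5310 (k2 c5208 c1397 (k1 c5554 k0)))))))))))))) (by decide +kernel)
def c17460 : PP 9 3 T 0x800000000000140000000400000000010008000010000000804000000000002000000200 := rS 0x5fbbd4b8553af547b8c75e4aa2dbbe96ce9f (k8 c1522 c5345 c5385 c9710 c9711 c12611 c813 c578 (k8 c5213 c1525 c2763 c1807 c1097 c1124 c1561 c5431 (k1 c3622 k0))) (by decide +kernel)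
def c17461 : PP 9 3 T 0x1000000000140010200000100040000400100000000000000440000000000040200008000000000000001400040000000000000000000000000000020 := rS 0x7d1d31673f9632efc5c96f1f6d244e4f8d (k8 c5569 c5383 c5382 c6187 c5233 c15012 c5391 c5390 (k8 c5597 c5641 c5619 c3430 c3616 c1830 c5932 c5635 k0)) (by decide +kernel)
def c17462 : PP 9 3 T 0x400000000048000221000000000000000000000000000000000000000000000000000400000000000000000000000000000000000000000000010000 := rS 0x1f45d7c57cbd53fdca6c3b33818fb98fb3a46cd7b402364af9ad1fe710f2c49224d489d24088e10c8a5d2d86ef68347e24ae3f1e8bce68d8984eb29b8aacfda0b36d2f68237e9ade2590e8341ee376bafc2913d9e7de419464e74dd68a1d16766bb4d5a895799052043ff8b62a137a7cbc7d (k8 c5566 c17452 c1522 c5565 c1121 c17338 c5680 c5577 (k8 c17404 c9692 c17443 c1130 c5567 c1959 c14519 c5465 (k8 c17455 c790 c5373 c2131 c4568 c17162 c13455 c5209 (k8 c5462 c6923 c5524 c5372 c5374 c12577 c5581 c5467 (k8 c5466 c5369 c5522 c5486 c313 c9695 c5523 c1128 (k8 c9734 c17454 c12546 c5529 c717 c10404 c5532 c5414 (k8 c1119 c17446 c5564 c5382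 c5381 c9718 c9709 c5436 (k8 c5318 c5313 c5527 c5526 c5525 c5375 c5475 c5474 (k8 c5321 c5326 c5478 c12615 c12668 c17279 c351 c4321 (k8 c5651 c10038 c1092 c17289 c2754 c14972 c13067 c15208 (k8 c9106 c4785 c11779 c2139 c2077 c3805 c5688 c17460 (k8 c17456 c17459 c13962 c17461 c5348 c5605 c6330 c1806 (k4 c2762 c5310 c17458 c1397 (k2 c5208 c5554 k0)))))))))))))) (by decide +kernel)
def c17463 : PP 9 3 T 0x400000000048000221000000000000000000000000000000000000000000000000000400000000000000000000000000000000000000000000000000 := rS 0x1ee856633c4870081dbc2d7f134cbaf32dbd4f687489e50633946c7262957ab512a137a7cbc7df682cdb4bda08dfa6435bc674590e8101a0f (k8 c5369 c5522 c17404 c5486 c313 c17162 c9695 c5523 (k8 c17443 c1128 c9734 c17454 c12546 c5529 c717 c10404 (k8 c5566 c17452 c1522 c5565 c1121 c5567 c1959 c1130 (k8 c9692 c13455 c17338 c5209 c5316 c5525 c5524 c5374 (k8 c5373 c5372 c5477 c5474 c5325 c5321 c14519 c5680 (k8 c5465 c12577 c17455 c17462 c719 c720 c6082 c10798 (k2 c789 c2071 (k1 c3571 k0)))))))) (by decide +kernel)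
def c17464 : PP 9 3 T 0x400000000048000221000000000000000000000000000000000000000000000000000000000000000000000000000000000000000000000000000000 := rS 0x1d7808048f9a4bde4b238444c25f1b2bda0ba5accda21da26cbd597883d220d4785e51b1c9ce852237e990d713099643a04 (k8 c17404 c5486 c313 c5564 c5382 c5523 c17443 c1128 (k8 c9734 c9692 c17162 c13455 c17338 c5209 c5433 c5526 (k8 c5522 c5374 c5369 c9695 c17446 c17452 c1119 c17454 (k8 c5528 c5529 c5532 c12546 c717 c10404 c17463 c5464 (k8 c1090 c9148 c720 c16855 c353 c17287 c17279 c16745 (k4 c12614 c1753 c5204 c511 (k1 c5456 k0))))))) (by decide +kernel)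
def c17465 : PP 9 3 T 0x48000221000000000000000000000000000000000000000000000000000000000000000000000000000000000000000000000000000000 := rS 0x121c6470592da101599b442ab4ea2b68994dfbe971d2f04480263089524caacb4d927767f78b21d7890c8a5d1a96c360f48834d679478cc2f28d8e4e742931811028d8984cde89 (k8 c5567 c5565 c5564 c5382 c5381 c5380 c17404 c9754 (k8 c9692 c17162 c13455 c17338 c5209 c5433 c5316 c5526 (k8 c5524 c5523 c5522 c5374 c5369 c5475 c5474 c5324 (k8 c5321 c5326 c5478 c9695 c5486 c313 c17464 c5453 (k8 c5493 c5494 c5496 c17339 c17428 c14345 c1090 c1755 (k8 c9148 c1753 c720 c5663 c351 c17252 c17287 c1119 (k8 c1520 c17434 c12615 c5412 c5413 c5528 c5529 c5532 (k8 c3068 c15342 c353 c717 c16855 c1780 c12614 c512 k0)))))))) (by decide +kernel)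
def c17466 : PP 9 3 T 0x55000020000000000000000000040000000200001000044000000000000000001140001000150000020020400000000000006004000020 := rS 0x7c16aaf6c0566840088dfa6b54a0d5a09 (k8 c312 c1959 c5525 c1957 c5523 c1128 c9734 c53 (k8 c16325 c17419 c15060 c5541 c3623 c8316 c1084 c16712 k0)) (by decide +kernel)
def c17467 : PP 9 3 T 0x40000221000000000000000000000000000000000000000000000000000000000000000000000000000000400000000000000000000000 := rS 0x7801700599b557b45ab85c6a038093c6270852dfe8b81c7563ee4a27596744f9822a097890c8a5d1a96c36313d834ae33038f6502931bf4d6a941a051aaf37ab512c56a9dda65902077bdb3c9ceb6264 (k8 c17443 c17338 c17162 c13455 c17465 c5234 c9172 c17404 (k8 c9442 c5496 c5493 c5454 c5451 c5567 c1959 c5565 (k8 c1130 c5381 c5380 c5525 c1957 c5523 c1128 c9754 (k8 c9692 c5209 c5436 c5432 c5316 c5313 c5522 c5372 (k8 c5476 c5475 c5474 c5324 c5321 c5326 c5478 c9695 (k8 c312 c15492 c5663 c17448 c3567 c1755 c1696 c1575 (k8 c5297 c2182 c5504 c5508 c5583 c5586 c17189 c17287 (k8 c17388 c13617 c3582 c719 c5680 c5731 c3060 c1200 (k8 c17466 c5413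 c5529 c5532 c3623 c717 c9158 c16865 k0))))))))) (by decide +kernel)
def c17468 : PP 9 3 T 0x15000000000000000000000000000008000200000000000000000000000000000001000400000000000020000000000000000000000820 := rS 0x783d81e0d85c0223 (k8 c9734 c53 c5433 c5475 c718 c8316 c7579 c6290 k0) (by decide +kernel)
def c17469 : PP 9 3 T 0x50000221000000000000000000000000000000000000000000000000000000000000000000000000000000000000000000000000000000 := rS 0xabf6884164925fc81e0d11aa5069b35896b240a58444c924b8d5e21b18864661764b292a674f9f55ead44a84bc6f0e990532800967bdb3c9ec4093a (k8 c17162 c17404 c17338 c13455 c17465 c5234 c9442 c53 (k8 c5209 c9692 c17443 c9172 c5565 c17467 c1121 c5567 (k8 c1959 c1130 c5566 c1522 c63 c1519 c17427 c5494 (k8 c5433 c5316 c6205 c5476 c5475 c9695 c5324 c5452 (k8 c3577 c1754 c2859 c17252 c1753 c5340 c1090 c5523 (k8 c1119 c5525 c1957 c9734 c5522 c5369 c5231 c5546 (k4 c5588 c17468 c17224 c10404 (k2 c7110 c8720 k0)))))))) (by decide +kernel)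
def c17470 : PP 9 3 T 0x40000221000000000000000000000000000000000000000000000000000000000000000000000000000000000000000000000000000000 := rS 0x2438c8e0b25b41666d10aad3bb480a2a3a111289880ca4927d2aa14ca6cbc1d2cb3592cf4bf7b66ad57a24fa6f09c4d1af121914ba352d86c621907a441a79478cc2f28d8e4e740114810cefd35aa4c883 (k8 c5525 c17443 c1957 c5523 c1128 c63 c17404 c9692 (k8 c53 c17162 c13455 c17338 c5209 c5433 c5316 c5526 (k8 c5524 c5522 c5374 c5369 c6205 c5476 c5475 c5474 (k8 c5324 c5321 c5326 c5478 c9695 c5381 c5382 c5564 (k8 c5565 c5566 c5567 c1130 c1959 c17465 c5234 c5452 (k8 c5453 c5494 c5495 c9442 c9172 c17467 c1119 c1520 (k8 c1121 c1519 c1522 c3577 c17427 c1753 c1754 c1090 (k8 c2859 c351 c12615 c3068 c17469 c5412 c5413 c5528 (k8 c5529 c5532 c3617 c353 c717 c16855 c1780 c12614 (k1 c512 k0)))))))))) (by decide +kernel)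
def c17471 : PP 9 3 T 0x50000021000000000000000000000000000000000000000000000000000000000000000000000000000000400000000000000000000000 := rS 0x2a9fe885887a031345a37e4b337310e27530454eef11a86c627b039ccc6677e9ad52644191d1e8156abd2e1df7905a7e2a5c76b1b2ef84409a1946c7273a (k8 c17162 c13455 c17338 c5209 c17470 c17404 c15516 c14183 (k8 c5234 c5212 c5341 c17441 c5236 c5579 c5340 c6923 (k8 c5486 c5404 c5406 c5490 c5463 c5526 c13598 c5525 (k8 c17443 c1957 c5523 c1128 c63 c9754 c9718 c5432 (k8 c5372 c5476 c5475 c5324 c9695 c11141 c15492 c5663 (k8 c9271 c10408 c5668 c5666 c8280 c15522 c947 c2978 (k8 c5547 c5592 c11958 c1147 c5673 c11835 c17086 c1084 k0))))))) (by decide +kernel)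
def c17472 : PP 9 3 T 0x50000021000000000000000000000000000000000000000000000000000000000000000000000000400000000000000000000000000000 := rS 0xf0275561e89a782670469d19acf3e3248a1b488342e2939bf552644192c8e110223d96d750ab55e95f7905a69b35a64f289629792fb2efb523b58f1684663d946c7273a (k8 c17162 c13455 c17338 c5209 c5436 c5316 c17470 c5236 (k8 c5212 c5341 c13617 c14183 c5234 c5404 c17471 c1629 (k8 c2838 c5524 c1520 c5523 c1119 c5579 c5340 c6923 (k8 c5488 c5406 c5490 c5578 c5465 c5464 c5526 c17404 (k8 c15516 c13598 c12639 c5525 c17443 c1957 c1128 c9718 (k8 c9692 c5433 c5522 c5374 c5475 c5326 c1118 c17455 (k8 c17247 c8354 c5668 c10894 c16959 c8818 c2870 c15541 (k4 c15542 c1084 c1082 c7579 (k1 c13449 k0))))))))) (by decide +kernel)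
def c17473 : PP 9 3 T 0x11000100000000000000000000000000000000000000000000000440000400001400014500000000000000000000400000000000400820 := rS 0x1c09d8a8780211 (k4 c15516 c53 c718 c8636 (k2 c1082 c3620 (k1 c13096 k0))) (by decide +kernel)
def c17474 : PP 9 3 T 0x11000021000000000000000000040000000000100000000080000000200400001640004500000000000000010000000000000410000000 := rS 0x3c11581879561b0bca3273a (k8 c17162 c13455 c5209 c5433 c5475 c10820 c8123 c2195 (k2 c1294 c7579 (k1 c10677 k0))) (by decide +kernel)
def c17475 : PP 9 3 T 0x50000021000000000000000000000000000000000000000000000000000000000000000000000000000000000000000000000000000000 := rS 0x77036733508f7f682d3eb35aac0dc8b689d912c54ca6cc25e2e8d5e65b7a83d0e0d359e50617119908e8f65b8cfea16fabd2fef20b4da9e2198f6971dac04650590eecbbfa1c9ceb6204 (k8 c17404 c17338 c17162 c13455 c17470 c14183 c5234 c5486 (k8 c313 c5209 c15516 c5212 c5341 c17441 c5436 c5316 (k8 c5236 c13617 c5579 c5340 c6923 c5404 c5406 c5580 (k8 c5578 c5577 c5466 c5464 c5526 c13598 c17443 c9734 (k8 c5433 c5525 c5524 c5523 c5522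 c5373 c5369 c5477 (k8 c5474 c5325 c5324 c5321 c17471 c62 c1119 c1520 (k8 c1629 c2838 c17472 c2131 c790 c11843 c8120 c1148 (k8 c2819 c2816 c17473 c10404 c17474 c3571 c2503 c789 (k2 c2630 c6899 (k1 c14129 k0)))))))))) (by decide +kernel)
def c17476 : PP 9 3 T 0x1000400000000001000021000000000000000000000000000000000000000000000000000000000000000000000000001000400000000000000000000020 := rS 0x215eecc68b1c747530025e25d1abccb61b18bd41e8706a0cae331c81c6f2831a5cb21dd964e740b (k8 c717 c17162 c13455 c5234 c5486 c313 c5404 c9754 (k8 c5209 c5435 c5432 c5317 c5316 c5313 c5525 c5522 (k8 c5373 c5369 c5477 c5476 c5475 c5474 c5325 c5324 (k8 c5321 c9695 c312 c5663 c9271 c16869 c726 c10484 (k4 c6899 c2071 c2502 c3571 k0))))) (by decide +kernel)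
def c17477 : PP 9 3 T 0x40000021000000000000000000000000000000000000000000000000000000000000000000000000400000000000000000000000000000 := rS 0x24c4c26fe38235a07466b3d9245489e4e6fd54991064b23a3d96d750ab55e95f7905a69d55a65366b44b14bded05d2c22590e8341e6dda0112fb2efb523b58f1684663d946c7273a (k8 c17162 c13455 c17338 c5209 c5436 c5316 c17470 c5236 (k8 c5212 c5341 c13617 c14183 c5234 c5404 c17404 c17475 (k8 c5529 c5369 c5522 c5486 c313 c15516 c17441 c717 (k8 c10404 c17476 c1629 c2838 c5523 c1119 c5530 c5413 (k8 c5412 c5579 c5340 c6923 c5488 c5406 c5490 c5578 (k8 c5465 c5464 c5526 c13598 c12639 c5525 c17443 c1957 (k8 c1128 c9718 c5524 c5374 c5326 c1118 c17247 c8354 (k8 c5668 c3617 c10894 c16959 c1711 c8818 c755 c3006 (k1 c12614 k0))))))))) (by decide +kernel)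
def c17478 : PP 9 3 T 0x40000021000000000000000000000000000000000000000000000000000000000000000000000000000000000000000000000000000000 := rS 0xf742c09fecff9b82029f5aa30dc8b689d912c54d984bded05acd326d8aa776859a5b53de1d4bb7da6a13fb8d971d20ecbc558ef8474264020f46728d8a0cd60d4383cbaf32dbd7273a (k8 c17162 c13455 c5477 c5474 c5325 c5321 c5369 c5373 (k8 c5522 c5523 c5525 c17338 c5209 c5316 c5436 c17404 (k8 c17443 c17470 c15516 c14183 c5212 c5236 c5234 c5340 (k8 c5341 c5464 c5466 c5577 c5578 c5579 c5580 c5404 (k8 c5486 c6923 c13617 c17441 c313 c17475 c5412 c5414 (k8 c5529 c5530 c5532 c717 c10404 c17476 c62 c1119 (k8 c1629 c2838 c17477 c2131 c790 c11843 c5673 c1148 (k8 c2816 c4505 c3620 c5591 c1653 c3013 c5694 c789 (k2 c2195 c3571 k0))))))))) (by decide +kernel)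
def c17479 : PP 9 3 T 0x18000011000000000000000000000000000000000100000000000000000100000000000504000000000001000000000000000000400098 := rS 0x679e7d8371db1c3f4a119a552c4ef8c92e357886c6219c98752b3a (k8 c17162 c5488 c5486 c13455 c6205 c5476 c5475 c9695 (k8 c5324 c5404 c3577 c5492 c13837 c5489 c5403 c9733 (k8 c5211 c9664 c13650 c5332 c5518 c13980 c1454 c5543 (k1 c15097 k0)))) (by decide +kernel)
def c17480 : PP 9 3 T 0xa000011000000000000000000000000000000000000000000000000000000000000000000000000000000400000000000000000000010 := rS 0xf26b427b4f6c71df82966d55a7768750b818051100992529930a6d926349bc46a1b18bd7273a1183dfa1d (k8 c5486 c5405 c9739 c9733 c17162 c13455 c5477 c5476 (k8 c5475 c5324 c9695 c5444 c5395 c5396 c5397 c5445 (k8 c5447 c14275 c14021 c1056 c9730 c5642 c17187 c1107 (k8 c1452 c17479 c5412 c5413 c5529 c12546 c5215 c5456 (k4 c5535 c5457 c14729 c12530 (k2 c2542 c2545 (k1 c13168 k0))))))) (by decide +kernel)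
def c17481 : PP 9 3 T 0x18000011000000000000000000000000000000000000000000000000000000000000000000000000000000400000000000000000000010 := rS 0x1d0c6c5011dc0264ef82dee3b0fd29e2350d8c44697946c7273a (k8 c17162 c13455 c17480 c5209 c5404 c9733 c5476 c5475 (k8 c5324 c9695 c5211 c9664 c5332 c5333 c5516 c17372 (k8 c14148 c1056 c2054 c5642 c14141 c9752 c5668 c9271 k0))) (by decide +kernel)
def c17482 : PP 9 3 T 0x400000000008000011000000000000000000000000000000000000000000000000000000000000000000000000000000400000000000000000000010 := rS 0x3d7803e60f6808ee01320d4360f338ce51b1c9d2f681d11bf674f1 (k8 c9695 c17162 c5405 c9733 c5486 c17481 c12546 c13455 (k8 c17480 c5209 c5316 c5487 c9739 c5475 c5324 c14148 (k8 c1056 c2054 c5642 c14090 c15810 c11726 c5185 c17396 (k1 c5457 k0)))) (by decide +kernel)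
def c17483 : PP 9 3 T 0x800000000000000000000000000000000000000008000200000000000000000000000000000000000000004002000000000000000400000000002000 := rS 0xf768bcdea37 (k4 c5435 c5477 c5325 c1540 (k2 c292 c9979 k0)) (by decide +kernel)
def c17484 : PP 9 3 T 0x1000000000000009000011000000000000000000040000000000000000000000000000000110000004000100000000400020400000000000000000004000 := rS 0xc08431bc7273a (k4 c17162 c13455 c9695 c1171 (k2 c12530 c5663 (k1 c16540 k0))) (by decide +kernel)
def c17485 : PP 9 3 T 0x48000201000000000000000000000000000000000000000000000000000000000000000000000000000000400000000000008000000010 := rS 0xc6006500ce6131f8f5aa9264f786a1b0b8ce51b1cee4e74f1 (k8 c9695 c17162 c13455 c17478 c17480 c5209 c5316 c5433 (k8 c5475 c5324 c17482 c5494 c14345 c5454 c5436 c5318 (k4 c5564 c5379 c267 c17381 (k2 c5642 c1322 (k1 c16365 k0))))) (by decide +kernel)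
def c17486 : PP 9 3 T 0x1000000000000028000211000000000000000100000000000000000000000000000000000010000000000008000000400010000001000000004000000810 := rS 0xe2b5000a4066135a449684c99ce26ab4cace961d11bf674f1 (k8 c9695 c17162 c5405 c9733 c5486 c12546 c5532 c5530 (k8 c5413 c5382 c5379 c13455 c12749 c2588 c695 c2543 (k4 c16540 c262 c9694 c5642 (k2 c9106 c668 (k1 c13067 k0))))) (by decide +kernel)
def c17487 : PP 9 3 T 0x48000201000000000000000000000000000000000000000000000000000000000000000000000000000001400000000000000000000010 := rS 0x1c7f3f1bf920a0452193eb16f8edc271121e0f600149880673469bcfa8947ab55e6933a547b1167f8596c70602c93151399532ab493246a1b0b8cfdb593bb17bd4bda07446fd7883c7328d8e77273a (k8 c17162 c13455 c17478 c17480 c5209 c5317 c9739 c9695 (k8 c5405 c9733 c5486 c17481 c12546 c17482 c5451 c5493 (k8 c17339 c14091 c5316 c5433 c5475 c5324 c5494 c14345 (k8 c5413 c5530 c17484 c17485 c5414 c10038 c17486 c5645 (k8 c2480 c1754 c16230 c5453 c5411 c5436 c5488 c5487 (k8 c5403 c5406 c5490 c5568 c5567 c5566 c5565 c5381 (k8 c5379 c262 c5663 c9694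 c5642 c888 c10247 c5651 (k8 c668 c10249 c290 c14796 c1092 c2756 c17483 c3602 (k4 c17427 c900 c901 c5578 (k2 c5589 c2574 (k1 c5691 k0))))))))))) (by decide +kernel)
def c17488 : PP 9 3 T 0x48000201000000000000000000000000000000000000000000000000000000000000000000000000000000400000000000000000000010 := rS 0x22bc6d73f9013ca1142184af601004ea600602c922732a4bdbe1acb4d92776ab17bd4b4c8862aabda05c0e33946c5e2357996c36f50ce4e7423cea34de0f7e8752aa9 (k8 c5489 c5488 c5486 c5405 c9739 c5565 c5381 c17478 (k8 c9733 c17162 c13455 c6205 c5477 c5475 c5474 c5325 (k8 c5324 c9695 c17480 c5209 c5316 c5432 c5433 c17481 (k8 c5413 c5414 c5528 c5530 c12546 c17482 c5451 c5454 (k8 c5493 c5494 c5496 c17339 c16230 c14091 c14345 c17484 (k8 c17485 c10038 c17486 c5645 c17487 c1576 c661 c5642 (k8 c9945 c1113 c292 c5651 c1195 c537 c536 c729 (k4 c1605 c5462 c5278 c11751 k0)))))))) (by decide +kernel)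
def c17489 : PP 9 3 T 0x8000010040000000000000000040000000100000000000000000000004100000000000000000000000000000000000000000000000000 := rS 0x369e0 (k2 c5215 c5211 (k1 c14406 k0)) (by decide +kernel)
def c17490 : PP 9 3 T 0x40000000000000000000000000000000000000001000000000000000000400000400002000000000000000000001400000005540800000 := rS 0x16a29 (k2 c1307 c1342 (k1 c12753 k0)) (by decide +kernel)
def c17491 : PP 9 3 T 0x1005800000000000000200000000000000000000000008000100000000000000000000000000000000000000008000000000010000000000000000010080 := rS 0xfa3959459fc86452e96d1a13449d46233 (k8 c5492 c5476 c1452 c5567 c5564 c5381 c5474 c5321 (k8 c5326 c5478 c676 c11751 c8187 c12615 c13725 c405 k0)) (by decide +kernel)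
def c17492 : PP 9 3 T 0x4a000201000000000000000000000000000000000000000000000000000000000000000000000000000000000000000000000000000010 := rS 0x1147f1f8a2b210f1b28b31559a1bda9c35084f2c7f091c6e0b24bdc3f4a67f782c751289c0c020099252994db25e2352d86c62f50ce4e7423ce84cde8f30b14bc97 (k8 c5404 c17488 c1629 c62 c5568 c5565 c5564 c17478 (k8 c9733 c17162 c13455 c6205 c5477 c5476 c5475 c5474 (k8 c5324 c9695 c5396 c5397 c5447 c14275 c14021 c1056 (k8 c5642 c17187 c267 c1113 c1452 c1450 c13837 c5453 (k8 c17489 c5517 c5333 c5334 c5516 c5518 c5520 c6344 (k8 c674 c1454 c13817 c6192 c10245 c15097 c16233 c2377 (k8 c1139 c2111 c17490 c5464 c17491 c5558 c5651 c404 (k2 c677 c13725 (k1 c11751 k0))))))))) (by decide +kernel)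
def c17493 : PP 9 3 T 0x40000000000000000000000000000000000000000000000000000000000210000000014000080000800000000000000000000000000000 := rS 0x788fcd3 (k4 c2939 c790 c10123 c5577 k0) (by decide +kernel)
def c17494 : PP 9 3 T 0x400000000000000211000000000000000100040000000000000000000000000000000000000000000000040000800020000001000000001010004001 := rS 0x830f029fe85f621d57b478bd7273a (k8 c17162 c13455 c5477 c9695 c5211 c5413 c2113 c13987 (k4 c5541 c5544 c12505 c14062 (k2 c2309 c14174 k0))) (by decide +kernel)
def c17495 : PP 9 3 T 0x48000201000000000000000000000000000000000000000000000000000000000000000000000000000000000000000000000000000010 := rS 0x10c6bf6a77c09bda87e948b248a2b225139d8c9df013206e171c8cc0328d8a7d42c54997952670ebf52ef11abcc36f5c9ce8479d099bcfa0f (k8 c9739 c5566 c5565 c5564 c17478 c9733 c17162 c13455 (k8 c5477 c5475 c5325 c5324 c9695 c5404 c5405 c5486 (k8 c5487 c5489 c17488 c1517 c1629 c1121 c1522 c17492 (k8 c5209 c10372 c5316 c5317 c5433 c5435 c14345 c5642 (k8 c5494 c1117 c1118 c267 c1113 c17357 c5651 c509 (k8 c17493 c17494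 c5517 c10456 c8100 c5235 c5458 c6290 (k2 c8111 c13987 (k1 c2114 k0)))))))) (by decide +kernel)
def c17496 : PP 9 3 T 0x2000001000000000000000000000000000200000000000000000000000000000000000000000000000020400000000000000000000010 := rS 0x970ebc46a1b18867273a (k8 c17162 c13455 c6205 c5476 c5475 c5324 c9695 c1954 (k2 c1126 c9240 k0)) (by decide +kernel)
def c17497 : PP 9 3 T 0x800000000046000001000000000000000200000000000200000000000000000000000000000100000000000000000000000000000000010000000000 := rS 0xcb13ab95ad6f7c7482252191433939d24d3ea14a8cc7e171ea5daad3 (k8 c5496 c5454 c5452 c5436 c5433 c5318 c5316 c5446 (k8 c5398 c5448 c5444 c17162 c13455 c6205 c5326 c5478 (k8 c5559 c5340 c5341 c13701 c16045 c2032 c5683 c2986 (k2 c1246 c3579 k0)))) (by decide +kernel)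
def c17498 : PP 9 3 T 0x800000000046000000000000000000000000000008000200000000000000000000000000000100000000000000000000000000000000018000000000 := rS 0x6b2b3de418eabc4a4322a4d2a331f8f5aad3 (k8 c5496 c5454 c5436 c5318 c5316 c5446 c5444 c5326 (k8 c5478 c60 c2986 c352 c349 c13701 c5683 c16045 (k1 c2032 k0))) (by decide +kernel)
def c17499 : PP 9 3 T 0x1000000000000020000211000000000000000000000000000000000100000000000000000000000080000000000000000000000000000000000000000804 := rS 0x1ad093a39c4cde8f (k8 c5568 c5565 c5382 c5379 c17162 c12749 c2306 c12855 k0) (by decide +kernel)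
def c17500 : PP 9 3 T 0x42000201000000000000000100040000000200000000000000000000040000000100000000000080000400000000000000004000002012 := rS 0x1f24807c339307ecd269b24c576823ceb2c2ead120a4873a (k8 c17162 c5478 c9693 c5651 c2758 c5433 c9148 c17478 (k8 c9733 c5211 c5414 c10038 c5397 c5444 c17495 c9739 (k4 c13455 c6205 c2361 c17387 (k2 c15872 c5589 k0)))) (by decide +kernel)
def c17501 : PP 9 3 T 0x8000000000000000040000000005000000000000000000804000000000000000144000000002000 := rS 0x1a23b1abcc62f5 (k4 c5477 c5476 c5325 c5324 (k2 c290 c1976 (k1 c3587 k0))) (by decide +kernel)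
def c17502 : PP 9 3 T 0x42000201000000000000000000040000000200000000000000000000000000000000000000000000000000400000000000000000000010 := rS 0x409bc903d3f0d4827ba14180b80ab8fdef56b2c4827acac4e287340a407ed00457691121bcf3a73409bcfa0fd9a7d426330a6466391f85c6e3d4bb3daacd69f78cb3a (k8 c17162 c17496 c14148 c5496 c5495 c5454 c5453 c5452 (k8 c5436 c5435 c5433 c5318 c5317 c5316 c5447 c5445 (k8 c5395 c5398 c5448 c17495 c9739 c5566 c5565 c5380 (k8 c5379 c17478 c5325 c5478 c9727 c5211 c5414 c14188 (k8 c10390 c28 c9693 c8135 c897 c13518 c1332 c17497 (k8 c17498 c5651 c9148 c2758 c8156 c3599 c5683 c3070 (k8 c17499 c5645 c2540 c292 c5672 c17500 c1223 c17501 (k4 c891 c892 c9181 c4682 k0)))))))) (by decide +kernel)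
def c17503 : PP 9 3 T 0x42000201000000000000000000000000000200000000000000000000000000000000000000000000000000400000000000000000000010 := rS 0x3dbb57bd2bbc651bceb3bb3 (k8 c17495 c17478 c17162 c5435 c17496 c14148 c17502 c5333 (k2 c9578 c10382 (k1 c5238 k0))) (by decide +kernel)
def c17504 : PP 9 3 T 0x1000000000000000000201000000000000000200040000000000000000002000000040000060000000000000002000000020000000000000000000000090 := rS 0x7fac1227f8e8a422f1219143793099bc1e1d56a24f27518835e73a (k8 c17162 c5325 c2540 c5476 c1452 c2545 c5567 c1959 (k8 c1954 c9739 c5565 c5564 c13455 c5475 c5326 c5478 (k8 c9695 c5558 c5339 c5341 c676 c13457 c9423 c16539 (k1 c1336 k0)))) (by decide +kernel)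
def c17505 : PP 9 3 T 0x42000201000000000000000000040000000000000000000000000000000000000000000000000000000000400000000000000000000010 := rS 0xe33f9187e9114126b21e7e028d40d3ca13da6d8ab7d9ae168a74f6c754ed3c0f311c4cfa8f0798d369988aaf679d1384c4a6f20a04eac4ef8c82e971abc46219c987526c94a81804010d992533a (k8 c17162 c17503 c14021 c5475 c1056 c5642 c17187 c5446 (k8 c5396 c5444 c1954 c13455 c6205 c5476 c9695 c5324 (k8 c1126 c1107 c3577 c5492 c13837 c1452 c5380 c1734 (k8 c5565 c1113 c5564 c267 c17478 c17495 c8880 c1269 (k8 c5447 c5397 c5395 c9739 c5568 c5566 c5382 c9733 (k8 c5325 c5215 c5211 c9109 c5535 c5457 c5458 c5459 (k8 c5460 c5537 c5538 c5414 c5529 c8724 c12530 c2545 (k8 c2540 c13168 c5645 c2542 c2305 c17504 c10038 c5651 (k4 c13505 c404 c1312 c677 (k2 c2348 c3610 k0)))))))))) (by decide +kernel)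
def c17506 : PP 9 3 T 0x2000000000000042000201000000000000000200000000000000000000000000000000000000000000000000000000000000400000000000000000000010 := rS 0x908a9ffde1140c4cfa8f4fb5c4a6f1384d51e03d9b0d711da87cc2c7059e46e0655ecf3a994db3dfad17bd286417010052e357886c6219c9874c9299d24d9295 (k8 c5446 c5396 c5444 c17162 c17503 c14021 c1954 c13455 (k8 c6205 c5476 c5475 c9695 c5324 c1126 c1056 c5642 (k8 c1107 c3577 c17505 c5333 c2129 c5542 c5543 c5397 (k8 c5447 c17478 c17495 c8880 c17187 c5518 c1454 c5516 (k8 c674 c5445 c5517 c14062 c1269 c13009 c5665 c742 (k8 c5669 c8772 c5564 c267 c5565 c1113 c12549 c5448 (k8 c5568 c5566 c5382 c5380 c5558 c14774 c676 c17164 (k2 c12550 c747 k0)))))))) (by decide +kernel)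
def c17507 : PP 9 3 T 0x2000000000000042000201000000000000000000000000000000000000000000000000000000000000000000000000000000400000000000000000000010 := rS 0xe33fa45643f8a8a2b2204ef81bee11c9ecd86bdabf5e219c988d03133ea3cc2990ec4557b3ce89c26253785c3ef76382cf237a501804010d9927529 (k8 c17503 c17162 c14021 c5475 c1056 c5642 c17187 c17505 (k8 c5518 c1454 c5516 c674 c5333 c5517 c1107 c5565 (k8 c1113 c5564 c267 c17478 c17495 c8880 c1269 c1954 (k8 c5447 c5445 c5568 c5566 c5382 c5380 c9733 c13455 (k8 c6205 c9695 c5542 c14062 c13009 c5665 c742 c8203 (k8 c10249 c14796 c5669 c5458 c15623 c17506 c5651 c1289 (k4 c404 c541 c747 c677 (k2 c2458 c14941 k0)))))))) (by decide +kernel)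
def c17508 : PP 9 3 T 0x42000201000000000000000000000000000000000000000000000000000000000000000000000000000000400000000000000000000010 := rS 0x1c78369ed1b82c774aef8c82e024b8043a6494bc46a1b18867273a11aaf679d49b253695 (k8 c5446 c5397 c5396 c5444 c17478 c17495 c8880 c9733 (k8 c17162 c13455 c6205 c5476 c5475 c5324 c9695 c17503 (k8 c14021 c1954 c1056 c1126 c5642 c1107 c3577 c5492 (k8 c17505 c5332 c5516 c5518 c17507 c8720 c5185 c9933 (k1 c5534 k0))))) (by decide +kernel)
def c17509 : PP 9 3 T 0x6000011000000000000000000000000000000000000000000000000000000000000000000000000000010800000000000000000000010 := rS 0x3dbb57bd2802370bf7a513a (k8 c17162 c14021 c14148 c5433 c5435 c1054 c14159 c5333 (k2 c9578 c10382 (k1 c5238 k0))) (by decide +kernel)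
def c17510 : PP 9 3 T 0x2000000000000000000010000000000000000000000008000200000000000000000000000020000000001000000000000000800000000000000000000000 := rS 0x7963f859e85 (k4 c5541 c5543 c6290 c838 (k2 c1631 c10245 k0)) (by decide +kernel)
def c17511 : PP 9 3 T 0x400000000000000201000000000000000200000000000200000000000000000000400100000000000000000000000020000000000000000000000110 := rS 0x6aac3c71d14845e2432284cde7d0eab512772b808021b9d0fc0e3d (k8 c5436 c5432 c5318 c17162 c5475 c1056 c5642 c9757 (k8 c2053 c5567 c1959 c1954 c5566 c5565 c5564 c5326 (k8 c5478 c9695 c5558 c5339 c5341 c12668 c9423 c15288 (k1 c15326 k0)))) (by decide +kernel)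
def c17512 : PP 9 3 T 0x44000000000000000000000000000000000000000000000000000000000000000000000080000080400020000000000000000000000000 := rS 0x1ef58a29aac4 (k4 c1127 c2999 c840 c1334 (k2 c5583 c9092 k0)) (by decide +kernel)
def c17513 : PP 9 3 T 0x2000211000000000000000000040000000200000000000000000000000000000004000000000040000020800000000000020010004000 := rS 0x38d227923035bee163a103de0f69ec429dda3cdea81899f51e011bf7cea6968b112c310d86726359d3c49223 (k8 c9733 c509 c9695 c17162 c5324 c13455 c6205 c5475 (k8 c5476 c9240 c1127 c4253 c124 c1529 c5452 c5435 (k8 c1056 c5568 c5566 c5382 c5380 c5477 c5325 c5211 (k8 c5412 c5528 c1686 c17510 c5185 c14065 c12530 c5535 (k8 c5460 c5538 c2362 c1312 c2545 c13505 c2347 c3610 k0))))) (by decide +kernel)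
def c17514 : PP 9 3 T 0x42000201000000000000000000000000000200000000000000000000000000000000000000000000000000000000000000000000000010 := rS 0x1e4d6c7f0b3dfa85f66d5ee1fa51fc515904b5d89df4b3c46a310ce4c1eab0eabceec91384c4a0200990bdb3ce86e746f (k8 c5565 c17162 c5475 c17478 c17495 c17508 c17509 c1056 (k8 c5642 c1113 c5564 c267 c5396 c2053 c1130 c1954 (k8 c8880 c9739 c13455 c6205 c5476 c5324 c9695 c9240 (k8 c5452 c1127 c1768 c1627 c17511 c5651 c17512 c17513 (k8 c5517 c5333 c9578 c5238 c5541 c5542 c5543 c6290 (k4 c838 c13009 c1631 c6192 k0)))))) (by decide +kernel)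
def c17515 : PP 9 3 T 0x201000000000000000200040000000000000000000000000140004040000000000080000045000020000000000000000000001010 := rS 0x1a8e2582463a2908bc486450dce90313099bcfa8f078755a89 (k8 c5567 c1959 c1954 c9739 c5568 c5566 c5565 c5564 (k8 c5382 c5380 c17162 c5475 c5326 c5478 c9695 c5558 (k4 c5339 c5341 c13457 c9423 (k2 c3610 c1334 (k1 c1662 k0))))) (by decide +kernel)
def c17516 : PP 9 3 T 0x2000000000000042000201000000000000000000040000000000000000000000000000000020000000000000000000000000000000000000000000000010 := rS 0x71a447849145649679068299e2340c4cfa8f0789c2625378580c020086d8e7b70b7fc129c9cea2bb43fa58eec93217b3bb3 (k8 c17495 c17478 c17508 c17509 c5396 c2053 c1629 c17512 (k8 c5211 c5414 c17162 c13455 c17514 c5215 c5538 c5460 (k8 c5457 c5535 c5475 c1056 c5642 c17187 c1450 c5565 (k8 c1113 c5564 c267 c9739 c5568 c5566 c5382 c5380 (k8 c9733 c5543 c12505 c9803 c1631 c2588 c17515 c5651 (k4 c10038 c1308 c695 c1494 (k1 c3610 k0))))))) (by decide +kernel)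
def c17517 : PP 9 3 T 0x201000000000000000200040000000000000000040000000140400040000004000080000045000020000000000000000000001010 := rS 0x80fbdc4b048b3a3a2908bc486450dce90313099bcfa8f078755a89 (k8 c5567 c1959 c1954 c9739 c5568 c5566 c5565 c5564 (k8 c5382 c5380 c17162 c5475 c5326 c5478 c9695 c5558 (k8 c5339 c5341 c17515 c13457 c9423 c3610 c5506 c2143 (k1 c13843 k0)))) (by decide +kernel)
def c17518 : PP 9 3 T 0x42000201000000000000000000040000000000000000000000000000000020000000000000000000000000000000000000000000000010 := rS 0x71a44784914564960a81834f284f69fd2cd778bcc4681899f51e0f559dd922709894de75188580c0200993661b2f31cf6e16ff8253939d457699d (k8 c17478 c5211 c5414 c17162 c13455 c17514 c5215 c5538 (k8 c5460 c5457 c5535 c17508 c5475 c17495 c17509 c1056 (k8 c5642 c17187 c1450 c5476 c1452 c5565 c1113 c5564 (k8 c267 c5396 c2053 c8880 c9739 c5568 c5566 c5382 (k8 c5380 c9733 c5325 c9695 c1765 c1629 c17512 c17516 (k8 c12530 c2545 c2540 c2629 c5645 c2588 c17517 c5651 (k4 c10038 c1308 c695 c1494 (k1 c3610 k0)))))))) (by decide +kernel)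
def c17519 : PP 9 3 T 0x201000000000000000200040000000000000000002000000140004040000000000000000005000020000000000000000000001090 := rS 0x3f9c4b0489fe3a2908bc486450dce90313099bcfa8f078755a89 (k8 c5567 c1959 c1954 c9739 c5568 c5566 c5565 c5564 (k8 c5382 c5380 c17162 c5475 c5326 c5478 c9695 c5558 (k8 c5339 c5341 c676 c13457 c9423 c3610 c1336 c2574 k0))) (by decide +kernel)
def c17520 : PP 9 3 T 0x42000201000000000000000000040000000000000000000000000000000000000000000000000000000000000000000000000000000010 := rS 0x1c67f488f07e4914564960a069e508fc67fb7bc9762c55becd70b453a7b63aa769e078bcc339311a06267d4783d56c94da55322709894de75188580d2901004c9b3ce86e745e (k8 c17508 c17162 c5475 c17478 c17495 c17509 c1056 c5642 (k8 c17514 c17187 c1450 c5476 c1452 c5565 c1113 c5564 (k8 c267 c5447 c5446 c5397 c5396 c8880 c9739 c5568 (k8 c5566 c5382 c5380 c9733 c13455 c6205 c5325 c9695 (k8 c5215 c5211 c9109 c5535 c5457 c5458 c5459 c5460 (k8 c5537 c5538 c5414 c17518 c1127 c13837 c8724 c5453 (k8 c13565 c12530 c2545 c2540 c5645 c2588 c17519 c5651 (k4 c10038 c404 c1308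 c695 (k2 c677 c1494 (k1 c3610 k0)))))))))) (by decide +kernel)
def c17521 : PP 9 3 T 0x2000400000000042000201000000000000000200000000000000000000000000000000000000000000000000000000000000000000000000000000000010 := rS 0xe348b522ab0f1fbe3a2921914266f64ab51257208ec92476bb1102cf364476a1d1c9e46ee13eb7cf66b7ebdc3eab78a3d8e0ba501a520200990bdb30de4e759d (k8 c17478 c17162 c13455 c5475 c17495 c17508 c17509 c1056 (k8 c5642 c17514 c17187 c17520 c5516 c674 c5568 c9695 (k8 c8880 c5517 c5333 c5542 c13009 c1687 c14796 c5566 (k8 c10249 c5518 c1454 c8203 c1954 c14062 c1269 c5665 (k8 c5543 c5380 c13837 c1765 c5520 c5334 c4235 c1734 (k8 c9757 c5567 c1959 c5396 c5565 c5564 c5326 c5478 (k8 c5339 c5341 c14774 c11685 c9423 c17164 c15326 c747 (k2 c1662 c14817 k0)))))))) (by decide +kernel)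
def c17522 : PP 9 3 T 0x2000400000000042000201000000000000000000000000000000000000000000000000000000000000000000000000000000000000000000000000000010 := rS 0x71a447915145653adf70f80f66c35ed5faf1c988d03133ea3c3b115589c2625378583ef76382cf237a51fd2cc4034a404010dce8eec93217b3bb3 (k8 c17495 c17478 c17508 c17509 c5396 c2053 c17162 c5475 (k8 c1056 c5642 c17514 c17187 c13837 c1629 c17512 c17520 (k8 c5518 c1454 c5516 c674 c5333 c5517 c1450 c5565 (k8 c1113 c5564 c267 c8880 c1269 c1954 c5568 c5566 (k8 c5382 c5380 c9733 c13455 c9695 c5542 c14062 c13009 (k8 c5665 c1687 c6192 c10249 c14796 c5458 c17521 c5651 (k4 c1289 c1308 c747 c1493 (k1 c14947 k0)))))))) (by decide +kernel)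
def c17523 : PP 9 3 T 0x1000000000000000000211000000000000000200080000000000000000040000000000000000000004000000000000000020000000000000000000001010 := rS 0xff587cd211d14845e2432286e748d8984cde8f078755a89439241647 (k8 c5520 c5516 c5334 c2113 c5567 c1959 c1954 c9739 (k8 c5568 c5565 c5564 c5382 c5381 c17162 c5475 c5326 (k8 c5478 c9695 c5558 c5339 c5341 c12876 c13038 c9423 (k2 c3009 c14602 k0)))) (by decide +kernel)
def c17524 : PP 9 3 T 0x400000000042000201000000000000000000000000000000000000000000000000000000000000000000000000000000000000000000000000000010 := rS 0xf7ac514ff4838c7828ac83606846fb84f6fcf06d3da7f4b311e2f3c988d03133ea3c3aaf3bb250eab1384c4a6f0b31c16791bd280d2901004c85ed9e74373a (k8 c17162 c5475 c17478 c17495 c17508 c17509 c1056 c5642 (k8 c17514 c17187 c17520 c5518 c1454 c5516 c674 c1450 (k8 c5565 c1113 c5564 c267 c8880 c2113 c5396 c2053 (k8 c1130 c1954 c5568 c5566 c5382 c5380 c9733 c13455 (k8 c5325 c9695 c13837 c1629 c17512 c17522 c8720 c5185 (k8 c12546 c5457 c5460 c5538 c1129 c2632 c2540 c17523 (k8 c5651 c1308 c1493 c3610 c3009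 c849 c1336 c5583 (k1 c9092 k0)))))))) (by decide +kernel)
def c17525 : PP 9 3 T 0x42000201000000000000000000000000000000000000000000000000000000000000000000000000000000000000000000000000000010 := rS 0x7e9a939e1ef1e58e3705bdc3f4a034a4040132179e21b9d2af679d (k8 c17478 c17495 c8880 c17162 c5475 c9695 c17508 c17509 (k8 c1056 c5642 c17514 c17187 c17520 c5517 c5333 c5516 (k8 c5518 c674 c1454 c17524 c6344 c10245 c6192 c4024 (k1 c13009 k0)))) (by decide +kernel)
def c17526 : PP 9 3 T 0x2000000000000040000201000000000000000000040000000000000000000000000000000400000000000000000004000200000000000000010000000010 := rS 0x122b5248904e7156d64204b051ac1aff7ea1602352dbd4471337a3c1f28629dda7ded8e4e75b38aacf699d43c456273 (k8 c5379 c1332 c9727 c897 c17478 c5211 c5532 c5414 (k8 c17495 c17162 c13455 c17525 c5234 c5496 c5493 c5451 (k8 c5209 c9739 c5568 c5565 c5382 c9733 c5477 c5474 (k8 c5324 c5502 c5541 c5542 c5544 c14607 c1223 c5645 (k8 c2588 c13459 c5558 c17390 c835 c17388 c5651 c10038 (k2 c1095 c695 (k1 c8385 k0))))))) (by decide +kernel)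
def c17527 : PP 9 3 T 0x1000000000000000000011000000000000000000000000000000000000000000000000005000000000000000004004000000000000000144000000002000 := rS 0x837ba15e73a (k4 c17162 c5325 c2540 c292 (k2 c17501 c5672 k0)) (by decide +kernel)
def c17528 : PP 9 3 T 0x65000200000000000000000200040008000200000000000000000000145400000100000000000000000000000000000000000000005002 := rS 0x48046226b (k4 c1059 c9727 c5558 c17384 (k1 c13457 k0)) (by decide +kernel)
def c17529 : PP 9 3 T 0x40000201000000000000000000040000000000000000000000000000000000000000000000000000000010000000000000000000000010 := rS 0x915a924482738ab6b24b358281bed3db2d6287311a0520059c57691111e74e71337a3c1e331c8de50cf6ab35a7ded8e4e75b3 (k8 c17495 c17162 c13455 c17525 c5234 c5496 c5495 c5454 (k8 c5453 c5209 c5435 c5317 c5316 c9739 c5568 c5565 (k8 c5382 c5379 c17478 c9733 c9727 c5211 c5414 c5532 (k8 c14188 c9693 c8135 c16365 c897 c1332 c1322 c888 (k8 c17526 c17527 c5645 c1059 c2588 c17528 c17390 c835 (k4 c17388 c5651 c10038 c1095 (k2 c695 c8385 k0))))))) (by decide +kernel)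
def c17530 : PP 9 3 T 0x1000000000000000000211000000000000000200000000000200000000000040000000005000000000000000000000000000000001400400000000004400 := rS 0x439ec191d08c4c268f2ba45a0391bbcc62f51a8ccb73a (k8 c17162 c5474 c5316 c5324 c5477 c5476 c5325 c5435 (k8 c5317 c3587 c9793 c5313 c5568 c5564 c5382 c5558 (k4 c5341 c12876 c14795 c12123 (k1 c17527 k0)))) (by decide +kernel)
def c17531 : PP 9 3 T 0x40000201000000000000000000000000000000000000000000000000000000000000000000000000000018000000000000010000000010 := rS 0xb135ab4d0006599c06733bb4c3fb448b4072f318bd46a332dd67da372382c92f71dd299acfef6ce51b1c9ce81f9d (k8 c17478 c9739 c17162 c13455 c17525 c5209 c17495 c5234 (k8 c5453 c5495 c17529 c5332 c5333 c5334 c5516 c5520 (k8 c5435 c10382 c17530 c5474 c5316 c5324 c5477 c5476 (k8 c5325 c5317 c3587 c9793 c5238 c5517 c5496 c5493 (k8 c5379 c9752 c777 c1322 c5642 c5664 c17390 c1058 (k2 c1332 c17387 k0)))))) (by decide +kernel)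
def c17532 : PP 9 3 T 0x40000201000000000000000000000000000000000000000000000000000000000000000000000000000010000000000000010000000010 := rS 0x4a2701004c61337d67da372382c92f71dd299acfef6ce51b1c9ce81f9d (k8 c17478 c9739 c17162 c13455 c17525 c5209 c17495 c5234 (k8 c5453 c5495 c17529 c5332 c5333 c5334 c5516 c5520 (k8 c5435 c10382 c17530 c5565 c5564 c17531 c16365 c5642 (k2 c267 c1113 (k1 c5651 k0))))) (by decide +kernel)
def c17533 : PP 9 3 T 0x40000201000000000000000000000000000000000000000000000000000000000000000000000000000010000000000000000000000010 := rS 0xf4083a9658e8642999066901004506dda343daf70f8ee945d1abccb6317a864479d2b8cc72070b8de50c5679dd9bded8e4e75b3 (k8 c17495 c17162 c13455 c17525 c5234 c5495 c5493 c5453 (k8 c5451 c5209 c5435 c5433 c5432 c5317 c5316 c5313 (k8 c17478 c9733 c6205 c5477 c5476 c5474 c5325 c5324 (k8 c5321 c17529 c5332 c5517 c5333 c10382 c3587 c5238 (k8 c5529 c17532 c9693 c9694 c9744 c9812 c5664 c5871 (k4 c5672 c15218 c2111 c14170 (k2 c3567 c8113 (k1 c1684 k0)))))))) (by decide +kernel)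
def c17534 : PP 9 3 T 0x1000000000000000000000000000000000000000000000000000100000000000040000000000021000000000004000010400008 := rS 0x934abc46a1b18867273a (k8 c17162 c13455 c6205 c5476 c5475 c5324 c9695 c1956 (k2 c262 c3577 k0)) (by decide +kernel)
def c17535 : PP 9 3 T 0x2000800000000001000011000000000000000000000000000000000000000000000000000000000000000000000000000022000000000000000000004000 := rS 0x28f5b4a5f85ee071bca3273a (k8 c17162 c13455 c5209 c5435 c5432 c5498 c6290 c10382 (k4 c5235 c10425 c12505 c690 k0)) (by decide +kernel)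
def c17536 : PP 9 3 T 0x40000201000000000000000000040000000000000000000000000000000000000000000000000000000000000000000000010000000010 := rS 0x38c929e80f8d61ef8e90423582390c8a8d1f8f5aaad4489c262537b2d029959c0dc27d6fa3d8e6dda12c140d79c4c77e03da13da0f55bc58a6001004361d323252fded985c6728d8e77273a (k8 c17162 c13455 c17478 c17525 c5209 c5316 c5433 c17495 (k8 c5234 c5452 c5494 c17533 c1954 c5475 c1056 c5642 (k8 c17534 c5451 c9695 c8880 c9739 c17535 c12530 c847 (k8 c10425 c5456 c5382 c5325 c2540 c5645 c2588 c8720 (k8 c5529 c726 c5568 c14796 c5566 c10249 c2629 c5532 (k8 c5530 c5380 c1755 c5565 c1113 c5564 c267 c5567 (k8 c1959 c5454 c5436 c5318 c5381 c5326 c5478 c16855 (k8 c5651 c5558 c5340 c5341 c10618 c9423 c13617 c2143 (k4 c9422 c13257 c1607 c5985 k0))))))))) (by decide +kernel)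
def c17537 : PP 9 3 T 0x40000201000000000000000000040000000000000000000000000000000000000000000000000000000000000000000000000000000010 := rS 0x13ce2f19fd22a1248a1bee1f0028f60d423c5e61911c4cfa8f62b2d02c7369e533b4f683d579d30008021b0e9919297ef6cc2e33946c7273a (k8 c17162 c13455 c17525 c5209 c5316 c5433 c17495 c5234 (k8 c5452 c5494 c17533 c1954 c5475 c1056 c5642 c17534 (k8 c17478 c8880 c9739 c17535 c8720 c5530 c1577 c5529 (k8 c726 c5380 c1755 c5451 c5568 c5566 c5382 c9733 (k8 c6205 c5325 c9695 c12530 c2540 c847 c5645 c10425 (k8 c10249 c14796 c17536 c509 c1195 c695 c729 c10517 (k2 c3610 c5680 (k1 c1607 k0)))))))) (by decide +kernel)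
def c17538 : PP 9 3 T 0x40000201000000000000000000000000000000000000000000000000000000000000000000000000000000000000000000000000000010 := rS 0x843d3f3c34ada7b4c00200874c8c94bb142e33ef4a362abd983de21bc9ce8479d (k8 c17478 c9733 c17162 c13455 c5475 c9695 c9739 c17495 (k8 c8880 c17525 c5209 c5234 c5316 c5433 c5451 c5452 (k8 c5494 c17533 c1954 c1056 c5642 c17534 c17535 c8720 (k4 c17537 c6344 c12546 c10425 (k2 c1129 c847 k0))))) (by decide +kernel)
def c17539 : PP 9 3 T 0x2000000000000058000001000000000000000200000000000000000000000000000000000000000000000000000000000000000001400000010200000000 := rS 0x2d0971d12bc486457986deb3a7baae02ff (k8 c5544 c5502 c5500 c5498 c17162 c5477 c5475 c5325 (k8 c5326 c5478 c9695 c5559 c5341 c5342 c14685 c2608 k0)) (by decide +kernel)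
def c17540 : PP 9 3 T 0x200040000000004a000201000000000000000000000000000000000000000000000000000000000000000000000000000000010000000000000000000000 := rS 0x3c6e33f34d151d13047e7593b37dc2758a83166c7661a8f620da91c16490787d8be1a54a552670ea5d5ead7890c8a5d1a96c361911e74e68d099bcfa89478a622070264e74c97ba1d56d180a15facf (k8 c5543 c5542 c5541 c5502 c5501 c5500 c5499 c5498 (k8 c5396 c17162 c13455 c17538 c8467 c9728 c9692 c5568 (k8 c5567 c5566 c5565 c5564 c5381 c5379 c17478 c9733 (k8 c6205 c5475 c5474 c5324 c5321 c5326 c5478 c9695 (k8 c5490 c5406 c5404 c5486 c5487 c5489 c14275 c17489 (k8 c7058 c13953 c5517 c5329 c5334 c5516 c5520 c12546 (k8 c15058 c9301 c12152 c16679 c4657 c2377 c2371 c1139 (k8 c1968 c10249 c14796 c5668 c17539 c12026 c12157 c5715 (k4 c351 c12615 c2939 c790 (k2 c2624 c5577 (k1 c5691 k0))))))))))) (by decide +kernel)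
def c17541 : PP 9 3 T 0x2000000000000000000011000000000000000000040000000200000000000000000000000000000000000000000004000080000000000000000000000120 := rS 0x668ecf08363aa41db4c995fc33a (k8 c17162 c6290 c5313 c13455 c5211 c6008 c5531 c794 (k4 c2007 c5669 c1535 c2385 (k1 c17385 k0))) (by decide +kernel)
def c17542 : PP 9 3 T 0x2000400000000042000201000000000000000000000000000200000000000000000000000000000000000000000000000010000000000000000000000000 := rS 0x70c553ab35a9e0d46d71b2dbe244134c4fefacb3239b52382c1e3ba57842e3919975e65b7ae74de7d14c453ea14da6412937ba15feb16ba34f6763aa57273a6299b665934810c287 (k8 c5499 c5445 c17538 c9743 c314 c17540 c5664 c733 (k8 c17162 c13455 c5446 c2005 c5668 c889 c5381 c2187 (k8 c2179 c5544 c5541 c5498 c5444 c311 c5447 c5397 (k8 c5398 c5448 c9728 c9692 c5566 c5565 c17478 c5477 (k8 c5474 c5325 c5321 c5316 c5317 c5433 c6290 c17541 (k8 c5332 c5329 c5516 c5520 c9578 c12712 c17385 c16660 (k8 c5504 c352 c2081 c14036 c17220 c12713 c9148 c2624 (k8 c2431 c2008 c2056 c13705 c2760 c8792 c1139 c1541 (k1 c3620 k0)))))))))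 (by decide +kernel)
def c17543 : PP 9 3 T 0x2000000000000042000201000000000000000000040000000100000000000000000000000000000000000000000000800080010000000000000000000000 := rS 0x1c6b565b515c8a8ea0c22b38ab7d9ae14e83b69e021914ba5b7ae4e759d8984d128f1481136f743c050afd67bfdae8d (k8 c5381 c2187 c5544 c5543 c5542 c5541 c5502 c5499 (k8 c5498 c5397 c17538 c9692 c5568 c5567 c5564 c5382 (k8 c17478 c17162 c13455 c5477 c5474 c5321 c5326 c5478 (k8 c5215 c5211 c6008 c5458 c5460 c5537 c5538 c5414 (k8 c5532 c10107 c2055 c12703 c12615 c738 c791 c1247 (k2 c1248 c1662 (k1 c5986 k0))))))) (by decide +kernel)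
def c17544 : PP 9 3 T 0x1000000000052000210040000000000000000000000000000000100000000000040000440001400000000000004000000000000000000000000000000 := rS 0x1c5f28a9a8da9d709e0de7d4fa853699 (k8 c5447 c5397 c5398 c5448 c5566 c5565 c5669 c10249 (k4 c1538 c2428 c5665 c1139 (k2 c16719 c3620 (k1 c5549 k0)))) (by decide +kernel)
def c17545 : PP 9 3 T 0x2000000000000000000010000000000000000000000008000000000000000000000000000080000000000000000000100000010000000000000000004500 := rS 0x418350e85 (k4 c5541 c5499 c2481 c2485 (k1 c5777 k0)) (by decide +kernel)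
def c17546 : PP 9 3 T 0x2000400000000042000201000000000000000000000000000000000000000000000000000000000000000000000000000010000000000000000000000000 := rS 0x8306b3473e063b2d66b51237da759f7ed638470583e94412b4a4f6d73b1d58a66d9e4e759d46c44d25930a5412930221d0aff (k8 c5544 c5541 c5499 c17538 c5444 c311 c5446 c5445 (k8 c314 c9743 c9728 c5381 c17478 c17162 c13455 c17540 (k8 c5664 c733 c2005 c5668 c2187 c889 c17542 c10195 (k8 c12628 c17543 c5329 c5516 c5520 c12712 c12711 c5504 (k8 c5341 c2082 c12713 c17220 c13705 c2760 c1091 c17545 (k4 c17544 c5534 c5537 c369 (k2 c2055 c5777 k0))))))) (by decide +kernel)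
def c17547 : PP 9 3 T 0x18000011000000000000000000000000000100000000001000000000015100000000000040005000000000000000000000000000000020 := rS 0x1a952670ec440f939d03c174a (k8 c5211 c5516 c9737 c17162 c13455 c8467 c9728 c5486 (k4 c5487 c5489 c12152 c16679 k0)) (by decide +kernel)
def c17548 : PP 9 3 T 0x2000000000000042000201000000000000000000000000000000000000000000000000000000000000000000000000000010000000000000000000000000 := rS 0x166b565ab9beadf7b1e38755899b667b94f84163ba503f6acd4bf79fecf7ea15a287cea351e29889a40f939d16592954c8252604 (k8 c17538 c5444 c311 c5447 c5446 c5396 c314 c17162 (k8 c13455 c8467 c9743 c9728 c9692 c5568 c5381 c17478 (k8 c5499 c5501 c5541 c5542 c5543 c5544 c17546 c5452 (k8 c5495 c10390 c9737 c5211 c5332 c5516 c6344 c17385 (k8 c9301 c17547 c5664 c2179 c2005 c12712 c17545 c5504 (k4 c2029 c14796 c5683 c1246 (k2 c1248 c2992 (k1 c17544 k0)))))))) (by decide +kernel)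
def c17549 : PP 9 3 T 0x1002000000000000000200000000000000000200000008000200000000040000000000000000000000000000000000800000010000000000000000008000 := rS 0x1c6496a405144720914b68d09a2496852efbc223b70b7c7e3d (k8 c5436 c5318 c5538 c5460 c5456 c10107 c17287 c5321 (k8 c844 c12627 c5567 c5564 c5381 c5474 c5326 c5340 (k4 c5562 c8187 c3069 c791 (k2 c13257 c1663 (k1 c5985 k0))))) (by decide +kernel)
def c17550 : PP 9 3 T 0x400000000042000201000000000000000000040000000200000000000000000000000000000000000000000000000010000000000000000000000000 := rS 0x339a8e280c7196b538ab49224acc0dae863b20ceac53307bc7b31e8dc2e337890c6a1b0c88d1a133e804066950a6cc2954c825269d8a88552b3da12fde1107164083b708e5bfe0cee4e75ed (k8 c17548 c17162 c13455 c17478 c5185 c5538 c5534 c5460 (k8 c5456 c17538 c314 c6008 c10107 c17287 c12627 c5211 (k8 c5532 c5531 c5528 c5414 c5412 c5444 c311 c5447 (k8 c5446 c5445 c5397 c5398 c9743 c54 c53 c5566 (k8 c5564 c5381 c9733 c6205 c5475 c5324 c5478 c9695 (k8 c5316 c5433 c5435 c5436 c14275 c12668 c3578 c5664 (k8 c733 c2005 c2007 c5668 c10850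 c2187 c10690 c17549 (k8 c17220 c10629 c2758 c6185 c1095 c1090 c12674 c6743 (k4 c5255 c5778 c1662 c13843 k0))))))))) (by decide +kernel)
def c17551 : PP 9 3 T 0x4002000000000022000000000000000000000000000000000000000000001000000000408000000000000040089000800000000000000000000000000000 := rS 0x196e37f35202a18ab45bf03 (k8 c10690 c5538 c5459 c5414 c5398 c3069 c791 c901 (k2 c13843 c1660 (k1 c5273 k0))) (by decide +kernel)
def c17552 : PP 9 3 T 0x100040000000004a000201000000000000000000040000000100000000000000000000000000000000000000000000000000010000000000000000000000 := rS 0x194247189e02b58e564928b6bc0cec863aa0d9c1d7ea5c8a5b4684d122964acf680b25a17de11077833ac51a81cba412b013273a (k8 c17162 c13455 c17538 c10195 c12628 c5321 c8467 c5324 (k8 c13953 c17478 c5185 c6008 c10107 c17287 c844 c12627 (k8 c150 c5211 c5532 c5396 c9692 c5567 c5564 c5381 (k8 c5474 c5326 c5404 c5405 c5486 c17489 c2395 c1531 (k8 c10850 c5668 c10690 c2187 c17551 c12930 c8187 c12681 (k4 c9106 c2140 c351 c13843 (k2 c5651 c8677 (k1 c1091 k0)))))))) (by decide +kernel)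
def c17553 : PP 9 3 T 0x22000000000000000000000000000000000000000000040000000140400000000000000000080000800080000000000000000000000000 := rS 0x71ad596d45727d429b4ca762ab3 (k8 c5532 c5414 c5412 c5447 c5397 c5398 c5448 c738 (k4 c791 c1247 c1249 c1663 (k1 c3620 k0))) (by decide +kernel)
def c17554 : PP 9 3 T 0x400000000042000201000000000000000000040000000000000000000000000000000000000000000000000000000010000000000000000000000000 := rS 0x1ef8dc4cb1f8916b1cac92517036ba18ec833a99b66416295a52df70f808a5d1a96d1a13448a4d207c9ce8b29f50a6d2a99f6a762aa959ed016112583b3a04 (k8 c17538 c17478 c6008 c12627 c10107 c150 c5211 c5532 (k8 c5531 c5414 c5412 c17548 c5447 c5446 c5397 c5398 (k8 c5448 c314 c17162 c13455 c8467 c9743 c9692 c5567 (k8 c5564 c5381 c5474 c5324 c5321 c5326 c5185 c5460 (k8 c5538 c17550 c10195 c13953 c12628 c17552 c5664 c2005 (k8 c2007 c5668 c10850 c2187 c10690 c17553 c12930 c8187 (k8 c12681 c9106 c17220 c406 c1091 c3620 c5466 c1494 (k1 c5655 k0)))))))) (by decide +kernel)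
def c17555 : PP 9 3 T 0x800000000002000001000000000000000000000000000200000000000000000000000000000000000000000000000010000000000000000000000020 := rS 0x663a6ccaef12e8d4b61b189a40f939d1652a0949b146677 (k8 c5493 c5492 c5451 c5444 c311 c5446 c314 c17162 (k8 c13455 c8467 c9743 c5476 c5475 c5474 c5324 c5321 (k4 c9695 c5313 c14275 c3567 (k2 c5664 c2005 k0)))) (by decide +kernel)
def c17556 : PP 9 3 T 0x2000000000000000000000000000000000000001000000000000140004000000400001040088000000080000000000000000000000000 := rS 0x1c6cb5abf95c9f50a6d3303 (k8 c10690 c5447 c5397 c5398 c5448 c738 c901 c1249 (k2 c1246 c2574 (k1 c3620 k0))) (by decide +kernel)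
def c17557 : PP 9 3 T 0x42000201000000000000000000040000000000000000000000000000000000000000000000000000000010000000000000000000000000 := rS 0x7be37132c7e245ac72b24945c0d0c83333f1bee120ecfc05694b3466cf4bf78961105acd531555a741db422974b7939d6751a13448a4d2590227d42c94da5533ed (k8 c17548 c5447 c5446 c5397 c5396 c5398 c5448 c17538 (k8 c314 c9743 c9692 c5567 c5564 c5381 c17478 c17162 (k8 c13455 c5474 c5321 c5326 c5211 c6008 c5412 c5413 (k8 c5414 c5531 c5532 c150 c10107 c12627 c17554 c5452 (k8 c5453 c5492 c5495 c17555 c10195 c5215 c17489 c12628 (k8 c5460 c5538 c13449 c5664 c2393 c10850 c10690 c17556 (k8 c12930 c8187 c12681 c9106 c17220 c405 c1091 c3620 (k2 c5466 c1494 (k1 c5655 k0))))))))) (by decide +kernel)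
def c17558 : PP 9 3 T 0x1000000000000002000011000000000000000000080000000200000000000000000000000000000000000000000000000000000000000000000000000000 := rS 0x36bb3788d4373a (k4 c17162 c5475 c5324 c9695 (k2 c14275 c9578 (k1 c5238 k0))) (by decide +kernel)
def c17559 : PP 9 3 T 0x1000400000000010000011000000000000000000000000000000000100001040000000000010000000000100004000000000010000000440000000000000 := rS 0xda6b3c20d9c333a1dc6af318bd5a23966f83273a (k8 c17162 c13455 c5185 c5537 c5534 c5459 c5477 c5476 (k8 c5325 c5324 c13987 c5668 c1963 c3587 c2395 c17247 (k2 c11575 c2428 (k1 c5665 k0)))) (by decide +kernel)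
def c17560 : PP 9 3 T 0x1000400000000008000011000000000000000000000000000000000000000040000000000010000000000100000000000010000000000440000040005420 := rS 0x85566a36a150db55499c3afd78bcc36f59d08e2259 (k8 c314 c9728 c9733 c17162 c5477 c5475 c5325 c9695 (k8 c5405 c5486 c5487 c5489 c7262 c17559 c164 c744 (k4 c12152 c9859 c2371 c3581 k0))) (by decide +kernel)
def c17561 : PP 9 3 T 0x200000000000000000200000008000000000000000000000000000000000000000000040000000000010000000000000000000000 := rS 0x448a5d2da342689 (k8 c5567 c5564 c5381 c5474 c5321 c5326 c5558 c8187 k0) (by decide +kernel)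
def c17562 : PP 9 3 T 0x400000000042000201000000000000000000000000000000000000000000000000000000000000000000000000000010000000000000000000000000 := rS 0x1ef8dc4cb5a8fc495945c0d0cd73b2ce2a75da19b660d6f8e5c29df0234d2594fa8536954c8ec3e0f7b82c6ec51a81cba412b4a695edce813273a (k8 c17162 c13455 c17538 c17478 c17548 c17557 c17558 c10195 (k8 c12628 c5321 c8467 c5324 c13953 c5518 c5516 c5333 (k8 c5329 c5517 c5332 c5447 c5446 c5397 c5398 c5448 (k8 c314 c9743 c5381 c5185 c5458 c5460 c5534 c5538 (k8 c369 c17560 c5664 c5238 c2005 c5414 c5532 c5668 (k8 c2187 c13987 c10690 c17553 c17561 c17220 c2909 c1094 (k4 c1091 c3620 c5466 c1493 (k1 c5655 k0)))))))) (by decide +kernel)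
def c17563 : PP 9 3 T 0x11000000000000000000000000000000000400000040000800005000000000000000000004100000000004000444000000000000 := rS 0xd0638e46af318bd7273a (k8 c17162 c13455 c5477 c5476 c5325 c5324 c2617 c2619 (k2 c3587 c8113 k0)) (by decide +kernel)
def c17564 : PP 9 3 T 0x40000000000000050000000000000000000000200000008000000000400000000000200140000000000004000400000004000000001410004000000044420 := rS 0x120d006b59663f219146a5b188f63a4b (k8 c5342 c5341 c5560 c5476 c5474 c5324 c5326 c5478 (k4 c3056 c2898 c3588 c16685 (k2 c1720 c12876 (k1 c9793 k0)))) (by decide +kernel)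
def c17565 : PP 9 3 T 0x40005000000000000000011000000000000000000000000000000000400000040000140005000000000000000004004000000000004000444000000000000 := rS 0x34472787131c6af318bd7273a (k8 c17162 c13455 c5477 c5476 c5325 c5324 c9140 c5691 (k4 c5669 c2617 c1540 c3587 k0)) (by decide +kernel)
def c17566 : PP 9 3 T 0x1000000000050000201000000000000000200080000000000000000000000000000145000000000014000004004000000000000010004000000010100 := rS 0x18c648c55bce1f1fcc971d1ee4e759d8984cde8f020ec1ef72482c6e47 (k8 c5520 c5518 c5516 c5334 c5333 c5329 c5332 c17538 (k8 c5568 c5565 c5564 c5382 c17478 c17162 c13455 c5560 (k8 c5341 c5342 c12008 c13617 c17564 c17565 c2950 c2949 (k2 c14796 c15459 (k1 c2481 k0))))) (by decide +kernel)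
def c17567 : PP 9 3 T 0x18000011000000000000000000000000000100000000000000000000005100000000000040004002000000000000000000000000000020 := rS 0x3450afd (k4 c5405 c2544 c1540 c17547 k0) (by decide +kernel)
def c17568 : PP 9 3 T 0x4a000201000000000000000000000000000000000000000000000000000000000000000000004000000010000000000000000000000000 := rS 0x45ac4e24a8a24606843638cd7f363034f2f339a36261337a251f1134b2536490591cf60f67b37c21d33aa76a1f7b8455e9520a5daad3ef15a534af6e7409935686c633a (k8 c17162 c5476 c5475 c5490 c13455 c17538 c17478 c17548 (k8 c17557 c17558 c10195 c17562 c5496 c5454 c5452 c12628 (k8 c5446 c5406 c8803 c5333 c5517 c7262 c5489 c5487 (k8 c5486 c6344 c5495 c5453 c5329 c886 c5520 c5516 (k8 c5334 c5397 c5396 c9743 c9728 c5568 c5567 c5565 (k8 c5564 c5382 c5381 c5379 c5325 c17567 c370 c5669 (k8 c13038 c2482 c2619 c5665 c12152 c2629 c15364 c15459 (k4 c12614 c3048 c1295 c12080 (k1 c3602 k0))))))))) (by decide +kernel)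
def c17569 : PP 9 3 T 0x4a000201000000000000000000000000000000000000000000000000000000000000000000000000000010000000000000000000000000 := rS 0xd107cd224b8aacd5701351b6068342a1bde11daaa4ce1d7eabd5af121914baf32d86c62f511a36261337a251f113481cb2c94a87c1ef705904ad29a57b73a04c9ce92ecf6ab35a7de (k8 c17562 c5496 c5495 c5454 c5453 c5452 c17162 c13455 (k8 c17538 c17478 c17548 c17557 c17558 c10195 c12628 c5516 (k8 c5333 c5329 c5517 c5446 c5396 c314 c8467 c9743 (k8 c9728 c5568 c5567 c5565 c5564 c5382 c5381 c9733 (k8 c5477 c5476 c5475 c5474 c5325 c5321 c5326 c5478 (k8 c9695 c5490 c5406 c5405 c5486 c5487 c5489 c7262 (k8 c8803 c17287 c17568 c164 c163 c10690 c744 c12152 (k8 c12665 c9859 c2377 c1139 c9182 c15424 c12009 c3581 (k2 c16685 c17154 k0))))))))) (by decide +kernel)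
def c17570 : PP 9 3 T 0x42000201000000000000000000000000000000000000000000000000000000000000000000000000000010000000000000000000000000 := rS 0xe5a27863a190a0d36884ebb4336cfc2cd19b3cf7de2b4a46e0b7b83c774af6a546af318bd7273ace9a4b204 (k8 c17538 c314 c9743 c17478 c17162 c13455 c5477 c5476 (k8 c5325 c5324 c5446 c17548 c17557 c5332 c5329 c5333 (k8 c5516 c5518 c17558 c10195 c17562 c886 c5453 c5492 (k8 c5495 c6344 c17569 c5664 c5238 c2005 c5528 c5529 (k8 c315 c5871 c12711 c15218 c5669 c8113 c2381 c3587 k0))))) (by decide +kernel)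
def c17571 : PP 9 3 T 0x2000400000000048000201000000000000000200040000000000000000000000000000000000000000000000000000000010000000000000000000000000 := rS 0x659d592922f285144122974b68d09a24c659946c768116383809939d675a2cf (k8 c5543 c5501 c17478 c17162 c13455 c17538 c6008 c10146 (k8 c10107 c5211 c17570 c5209 c314 c9754 c5567 c5564 (k8 c5381 c5474 c5321 c5326 c5340 c8187 c17409 c17444 (k4 c17405 c1117 c15646 c1753 (k1 c17414 k0))))) (by decide +kernel)
def c17572 : PP 9 3 T 0x400000000000000200000000000000000000000008000000000000000000000800400000000000000000000000800000010000000804000000010000 := rS 0x22e3ad5f190c8a5d2da342689 (k8 c5567 c5564 c5381 c5474 c5321 c5326 c5478 c5466 (k4 c4226 c5778 c791 c12615 k0)) (by decide +kernel)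
def c17573 : PP 9 3 T 0x400000000040000201000000000000000000000000000000000000000000000000000000000000000048080000900010800000000000000000000000 := rS 0x329a804 (k4 c17538 c791 c17414 c1660 k0) (by decide +kernel)
def c17574 : PP 9 3 T 0x2000400000000048000201000000000000000000040000000000000000000000000000002000000000000000000004000010000000000000000000000000 := rS 0x196b513926388b718e810924fa84ec9b6bb24bc786f985e25d1a86c621937a3c52632c8cc2e9d8aa6567b40892dc2571ea04fa131fa5c3a957bf8651b1ac9d58e0e0264e759d (k8 c17478 c17162 c13455 c17538 c6008 c10146 c1968 c17571 (k8 c17570 c5209 c6290 c5498 c5488 c5486 c5404 c5318 (k8 c5564 c5566 c5380 c5436 c5313 c12679 c12627 c10107 (k8 c5211 c5532 c5530 c5414 c5412 c5433 c5316 c314 (k8 c9754 c9692 c5568 c5565 c6205 c5476 c5475 c5324 (k8 c5321 c9695 c10425 c14796 c5669 c5663 c10171 c2192 (k8 c2384 c2386 c1121 c1522 c3577 c1516 c471 c17572 (k4 c17573 c12681 c513 c351 (k2 c9106 c9148 (k1 c3620 k0)))))))))) (by decide +kernel)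
def c17575 : PP 9 3 T 0x2000400000000048000201000000000000000000040000000000000000000000000000002000000000000000000000000010000000000000000000000000 := rS 0x1acc42f9dcf47540a77681163838099d43c05ffe1946c7273a (k8 c17162 c13455 c17570 c5209 c6290 c5544 c5502 c5499 (k8 c17478 c17538 c6008 c10146 c10107 c5211 c5412 c5380 (k4 c1968 c17574 c889 c1686 (k2 c5668 c15641 (k1 c1765 k0))))) (by decide +kernel)
def c17576 : PP 9 3 T 0x1000000000008000010040000000000000000000000000000000000000000000000015040000005001100000004000014000000000000000000000000 := rS 0x26d927830a5dfa95 (k8 c5488 c5405 c5404 c10425 c5669 c10171 c2384 c3617 k0) (by decide +kernel)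
def c17577 : PP 9 3 T 0x2000400000000048000201000000000000000000040000000000000000000000000000000000000000000000000000000010000000000000000000000000 := rS 0xd6621d4be773d337c2ff67c05a2874098e51b14eaad32a9da0458e0e0264e759d (k8 c17478 c17162 c13455 c17538 c6008 c10146 c10107 c5211 (k8 c5531 c5530 c5413 c5412 c17570 c5209 c9754 c5380 (k8 c5499 c5501 c5502 c5543 c5544 c6290 c17575 c17576 (k4 c889 c1686 c1688 c5668 (k2 c15641 c1765 k0))))) (by decide +kernel)
def c17578 : PP 9 3 T 0x1000400000000001000011000000000000000000000000000000000000000000000000000000000000000100004000100014010000000000000000008000 := rS 0xf0606717deec4411dc6af318bd466391bca076d166f83273a (k8 c17162 c13455 c5185 c5537 c5459 c5456 c5209 c5435 (k8 c5317 c5316 c5477 c5476 c5325 c5324 c13987 c10850 (k4 c5668 c1971 c1630 c3587 (k2 c5663 c2394 (k1 c1577 k0))))) (by decide +kernel)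
def c17579 : PP 9 3 T 0x400000000048000201000000000000000000040000000000000000000000000000000000000000000000000000000010000000000000000000000000 := rS 0x49b24bc613b3150c75049ec77e0f6bc46a1b1886402632c8cc2f28d8e4e740e02267699d4b874ce95 (k8 c5488 c5487 c5486 c5404 c17478 c5211 c5530 c17538 (k8 c6008 c17162 c13455 c17570 c5209 c5433 c5316 c314 (k8 c9754 c53 c6205 c5476 c5475 c5324 c9695 c17577 (k8 c5185 c5456 c5457 c471 c10753 c17578 c898 c5668 (k4 c724 c11141 c10171 c1516 (k1 c3577 k0)))))) (by decide +kernel)
def c17580 : PP 9 3 T 0x2001000000000008000011000000000000000000040000000200000000000000000000005010000000000000000000000010000000000000000000000020 := rS 0x12753d0e9a25d1a96c6263039653aab4caa7680d6383b273a (k8 c17162 c13455 c6008 c10146 c151 c5211 c5531 c5530 (k8 c5413 c5412 c314 c8467 c9754 c5476 c5474 c5324 (k4 c5321 c5501 c17385 c17576 (k2 c1688 c1685 (k1 c10795 k0))))) (by decide +kernel)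
def c17581 : PP 9 3 T 0x48000201000000000000000000040000000000000000000000000000000000000000000000000004000010000000000000000000000000 := rS 0x9a38ca45a7d428648979a07830974b66f3e8a4c6590bca13aa908b1c1c04c9ce95aaf0ea559ecdacec7c3de55a67699d (k8 c17478 c5211 c5530 c5413 c17579 c16230 c17570 c17339 (k8 c5495 c5453 c5488 c5486 c5406 c5490 c17162 c13455 (k8 c17538 c6008 c10146 c10107 c5531 c5412 c5209 c5433 (k8 c314 c9754 c9692 c5566 c5565 c5474 c5321 c10425 (k8 c5669 c17576 c5663 c9793 c1540 c1121 c1522 c900 (k4 c17427 c12681 c9148 c351 k0)))))) (by decide +kernel)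
def c17582 : PP 9 3 T 0x48000201000000000000000000040000000000000000000000000000000000000000000000000000000010000000000000000000000000 := rS 0x750497cf47762f792ef12e8d4b61b1898c0e592b8ce51b1c9ce93bb40683b3a04 (k8 c17538 c17478 c6008 c151 c5211 c5412 c17162 c13455 (k8 c17570 c5209 c5316 c5313 c314 c8467 c9754 c5476 (k8 c5475 c5474 c5324 c5321 c9695 c5404 c17579 c5451 (k4 c5493 c17581 c1686 c1685 (k2 c9271 c3567 k0))))) (by decide +kernel)
def c17583 : PP 9 3 T 0x2000000000000040000201000000000000000000040000000000000000000000000000000000000000000000000000000010000000000000000000000000 := rS 0x652b7c68a8ea5010ff7ec05a2877b90c8a5b7aa36261337a251e291eaad32114297506a94bb3daac966a7cfa7b4eed1365e331a4afded981cb233946c58e0e0264e759d (k8 c17478 c17162 c13455 c17538 c6008 c10146 c17570 c5209 (k8 c5316 c314 c8467 c17582 c5234 c5313 c9743 c5664 (k8 c17430 c1120 c5211 c5412 c1686 c5566 c1522 c5495 (k8 c5494 c5454 c5453 c5452 c5531 c2007 c5321 c844 (k8 c10107 c5530 c5413 c5436 c9692 c5568 c5567 c5565 (k8 c5564 c5382 c5381 c5477 c5474 c5326 c5478 c5498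 (k8 c5499 c5501 c5502 c5542 c5544 c17541 c3617 c12703 (k4 c12615 c13617 c2889 c5711 (k1 c1758 k0))))))))) (by decide +kernel)
def c17584 : PP 9 3 T 0x800000000041000000000000000000000200000008000200000000000000000000000000000100010008000000000000000000000000000000000000 := rS 0x19441 (k2 c5340 c17429 (k1 c1753 k0)) (by decide +kernel)
def c17585 : PP 9 3 T 0x800000000041000200000000000000000000000008000200001000000000000140000000000400015500000000000080010000000000000000008220 := rS 0x71ad596491256474920b92d628d (k8 c5381 c2179 c12627 c5433 c311 c471 c17584 c17220 (k4 c10629 c1090 c1095 c1774 (k1 c3620 k0))) (by decide +kernel)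
def c17586 : PP 9 3 T 0x40000201000000000000000000040000000000000000000000000000000000000000000000000000000010000000000000000000000000 := rS 0x9358458955ecaf18260686f6b7d367b4fa852e832f778cdb370b1c220b59aa533154e83b699d40a34266f3ea251e69039640857198fc2e3d946c7273a (k8 c17162 c13455 c17570 c5209 c5436 c5433 c5318 c5316 (k8 c5313 c17538 c314 c8467 c9743 c5568 c5567 c5566 (k8 c5565 c5564 c5381 c5380 c17478 c5211 c6008 c5412 (k8 c5414 c5530 c5531 c5532 c150 c10107 c10146 c12679 (k8 c17582 c5664 c5234 c17430 c2007 c5452 c1121 c1522 (k8 c1686 c1120 c14796 c17583 c10850 c10690 c17585 c12668 (k4 c5680 c1246 c1090 c738 (k2 c17220 c12930 (k1 c12489 k0))))))))) (by decide +kernel)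
def c17587 : PP 9 3 T 0x400000000040000201000000000000000000000000000000000000000000000000000000000000000000004000100010000000000000000000000000 := rS 0x48b0087c96aff80a622ab355a08f06a42a7cc0092fb10366f44a3cd2630396408570782d5aaf7e874cea9673346e331cbcc62f51ab447677f6f836bb20fbde959d946c7273a (k8 c17162 c13455 c17570 c5209 c17478 c17586 c5333 c5517 (k8 c5234 c7262 c5235 c6290 c13987 c5332 c5459 c5324 (k8 c5477 c5476 c5325 c5317 c5316 c5435 c5537 c3587 (k8 c5489 c5487 c5486 c5405 c5406 c5490 c5516 c5329 (k8 c5313 c17538 c314 c8467 c9754 c9743 c5568 c5567 (k8 c5565 c5475 c5668 c1630 c1627 c5663 c17448 c15362 (k8 c12152 c11551 c5672 c1137 c2377 c1139 c1577 c1977 (k4 c2396 c2613 c5685 c12009 (k2 c14396 c720 (k1 c1092 k0)))))))))) (by decide +kernel)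
def c17588 : PP 9 3 T 0x400000000041000201000000000000000000000000000000000000000000000000040400000000000000000000400000800000000000000000000200 := rS 0xd6f10a408ad57ecb273a509bd3e7d (k8 c5566 c1522 c5565 c1121 c17162 c13455 c5234 c5406 (k4 c5490 c17538 c9692 c5711 (k2 c17455 c5465 k0))) (by decide +kernel)
def c17589 : PP 9 3 T 0x50000201000000000000000000080000000000001000000000000000000000000000000001000000000000000000000000000000011000 := rS 0xf9ceb3a8d8984d1e04 (k8 c17538 c5568 c5564 c5382 c5381 c17478 c17162 c13038 (k1 c15459 k0)) (by decide +kernel)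
def c17590 : PP 9 3 T 0x400000000040000201000000000000000000000000000000000000000000000000000000000000000000004000000010000000000000000000000000 := rS 0x41231512b28d80d4c210bcd304314e8777886d12018898cb2040ba5dfa674efb59ccd1b8cc7328798c5ea3568f836bb20fbdf273ad8e74774a (k8 c17586 c5332 c17478 c17570 c17162 c13455 c5333 c5517 (k8 c5234 c7262 c5235 c5459 c5324 c5477 c5476 c5325 (k8 c5209 c5317 c5316 c5435 c5537 c3587 c6290 c5458 (k8 c5487 c5405 c5404 c5433 c17538 c314 c9754 c9728 (k8 c53 c5567 c5475 c9695 c13987 c17587 c126 c10753 (k8 c1969 c9271 c1531 c17559 c2540 c1521 c17588 c1090 (k4 c1292 c747 c17589 c720 k0))))))) (by decide +kernel)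
def c17591 : PP 9 3 T 0x400000000040000201000000000000000000000000000000000000000000000000000000000000000000000000000010000000000000000000010000 := rS 0x25407e7ef21914ba5b4684cde89349655aaff6f82508381acd1e0c102acdb117986de2fd11bd4d485430133aa9da87dee0f05d28ce1dd964f633a (k8 c17162 c17570 c13455 c5234 c5486 c5487 c17586 c5516 (k8 c5329 c5333 c5517 c7262 c5489 c17478 c17538 c17590 (k8 c164 c12152 c5477 c9733 c5405 c9695 c5475 c5325 (k8 c9728 c744 c9859 c3581 c2371 c5568 c2377 c10690 (k8 c163 c5209 c5235 c6290 c5406 c5490 c314 c9743 (k8 c5567 c5565 c5564 c5381 c5474 c5321 c5326 c5478 (k4 c17287 c12009 c12665 c16685 (k1 c9182 k0)))))))) (by decide +kernel)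
def c17592 : PP 9 3 T 0x400000000040000201000000000000000000000000000000000000000000000000000000000000000000000000000010000000000000000000000000 := rS 0x4870083399ad1f06d76435798c5eb9d020cc7237946c7273a1d87def4a (k8 c17586 c5333 c5517 c5332 c17162 c13455 c17570 c5209 (k8 c5435 c5317 c5316 c17538 c17478 c5477 c5476 c5325 (k8 c5324 c5234 c7262 c5235 c5459 c5537 c3587 c17591 (k2 c719 c720 (k1 c6082 k0))))) (by decide +kernel)
def c17593 : PP 9 3 T 0x40000201000000000000000000000000000000000000000000000000000000000000000000000000000010000000000000000000000000 := rS 0xe2f126dc2df5ab2d8e7b4fa8448862f1990bb359a64db154eed2b3edf0b359fde2382c92f70787c774a1b85c6657946c4b39d379f51e6903813273a (k8 c17162 c13455 c17538 c8467 c9743 c5568 c5566 c5565 (k8 c17478 c314 c17570 c5209 c5313 c5316 c5433 c5435 (k8 c17586 c5332 c5517 c5329 c5333 c5334 c5516 c5520 (k8 c17592 c5453 c5495 c6344 c10382 c17530 c5235 c5412 (k8 c5414 c5529 c5530 c5532 c7262 c5871 c5664 c17430 (k8 c12711 c17220 c1121 c1522 c1686 c15218 c1090 c1094 (k4 c14796 c10249 c1120 c5680 (k2 c3620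 c5466 k0)))))))) (by decide +kernel)
def c17594 : PP 9 3 T 0x40000000004a000201000000000000000000000000000000000000000000000000000000000000000000000000000000000000000000000000000000 := rS 0x21f6a377bb4695e03a0efdac52b166521d7ebc4ba350d88f3b1103813273a4c9dd9264 (k8 c17593 c5396 c2053 c5447 c17162 c13455 c17538 c8467 (k8 c9728 c17478 c9733 c5475 c5324 c5321 c9695 c5405 (k8 c5486 c14275 c313 c10195 c13953 c17540 c10737 c5668 (k8 c5185 c17552 c5459 c5333 c5518 c12546 c2115 c17559 k0)))) (by decide +kernel)
def c17595 : PP 9 3 T 0x2000000000000002000011000000000000000000000000000200000000000000000000000000000000001000000000000020000000000000000000008000 := rS 0xc42f2583a597bbc46a1b18867273a (k8 c17162 c13455 c6205 c5476 c5475 c5324 c9695 c5498 (k4 c473 c1953 c9240 c1126 (k2 c1127 c17510 k0))) (by decide +kernel)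
def c17596 : PP 9 3 T 0x4400000000044000000000000000000000000000000000000000000000000000000400120000000000000000080000020000000000000000000000000 := rS 0x1ef58a29aa77 (k4 c2053 c2999 c840 c15326 (k2 c5583 c9092 k0)) (by decide +kernel)
def c17597 : PP 9 3 T 0x400000000042000201000000000000000000040000000200000000000000000000000000000000000000000000100000000000000000000020000000 := rS 0x40d6bee5892481591209cfed7620d4b6317a88d0201149a40eaf37ab4eec954c55664b42974ae3ff18f41293099f4227bf064e7501417b53bb443aaf6664076740889 (k8 c5567 c17538 c17478 c6008 c17593 c17594 c8880 c2113 (k8 c5211 c5412 c17595 c10850 c1977 c17162 c13455 c5185 (k8 c5457 c10107 c5566 c5564 c5444 c311 c5436 c12668 (k8 c5318 c5313 c5321 c844 c12627 c5532 c5414 c9109 (k8 c5396 c2053 c1959 c5565 c1130 c8467 c9743 c9692 (k8 c53 c5380 c9733 c5477 c5476 c5474 c5324 c5668 (k8 c1765 c17596 c17411 c12670 c9764 c12613 c10038 c2178 (k4 c5283 c1095 c7820 c5727 k0)))))))) (by decide +kernel)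
def c17598 : PP 9 3 T 0x2000000000000000000000000000000000000000000000000000000001000000000000100000005000510001000200100000000000000000000000000 := rS 0x33d2ed1 (k4 c5459 c1529 c1531 c8772 k0) (by decide +kernel)
def c17599 : PP 9 3 T 0x400000000042000201000000000000000000040000000200000000000000000000000000000000000000000000000000000000000000000000000000 := rS 0x16024f79fcb2d70eb10ebe0f6f8c7a570de4d02133e8a4d29b4aa6412933bb2557b354a7768117ea141d9d021767464 (k8 c17593 c17162 c5321 c17538 c17478 c6008 c844 c1129 (k8 c10107 c5211 c5412 c9109 c17594 c8880 c5396 c2053 (k8 c5444 c311 c5447 c5446 c5397 c9743 c9692 c5566 (k8 c5564 c5380 c13455 c5475 c5313 c5436 c12668 c17595 (k8 c5185 c17598 c5668 c17597 c1765 c313 c17596 c17287 (k2 c12670 c9092 (k1 c1092 k0))))))) (by decide +kernel)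
def c17600 : PP 9 3 T 0x400000000042000201000000000000000000040000000000000000000000000000000000000000000000000000000000000000000000000000000000 := rS 0x3a7818b297ea15520e2e8d4d2070264e749b4aa64eec9322af679d (k8 c17478 c17594 c8880 c17593 c5396 c2053 c5447 c5446 (k8 c5397 c17162 c13455 c17538 c8467 c9743 c5324 c5321 (k8 c6008 c9109 c844 c1129 c17599 c13953 c5215 c5668 (k1 c17598 k0)))) (by decide +kernel)
def c17601 : PP 9 3 T 0x400000000054000200000000000000000000000000000200001000015000000000000120000405000004000000000020000000000000010020010101 := rS 0x206b5f72c448273ff8c267d579bd5a892b8f5ae81 (k8 c5380 c1765 c5436 c5313 c5567 c1959 c5565 c1130 (k8 c5566 c5564 c12668 c17596 c17411 c12670 c2178 c5283 (k2 c13705 c5508 (k1 c3623 k0)))) (by decide +kernel)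
def c17602 : PP 9 3 T 0x400000000042000201000000000000000000000000000200000000000000000000000020000000000000000000000000000000000000000020000000 := rS 0x206b558fb848108aaccd4a9369e98e1bc9a3c02298899d5e6f56a24c2094981157b3dac050afd7ff84f2ccf6674774a9d1dd9264 (k8 c17593 c5396 c2053 c17162 c17600 c5332 c17478 c17558 (k8 c17385 c2386 c6290 c5544 c5542 c5541 c5502 c9578 (k8 c17594 c8880 c17538 c5444 c311 c5445 c5567 c1959 (k8 c5565 c1130 c63 c9728 c9692 c53 c5568 c13455 (k8 c5475 c838 c5669 c742 c1958 c5665 c2377 c1139 (k4 c17601 c720 c9002 c1092 (k2 c13705 c5508 (k1 c3623 k0)))))))) (by decide +kernel)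
def c17603 : PP 9 3 T 0x42000201000000000000000000080000000200000000000000000000000080000000000000000000000000000000000000000000010000 := rS 0x8aa43e68d899bc0f931b95c723f1ed64f2ccf60ee7477649901a09499b0d69b888133bb5 (k8 c9578 c17478 c17538 c9728 c5397 c2482 c5665 c5444 (k8 c311 c2481 c17593 c5396 c2053 c17162 c5332 c17558 (k8 c17385 c2386 c16660 c5436 c5318 c5317 c5313 c5518 (k8 c13455 c8467 c5565 c5382 c5381 c13038 c16718 c16783 (k1 c747 k0))))) (by decide +kernel)
def c17604 : PP 9 3 T 0x400000000042000201000000000000000000000000000200000000000000000000000000000000000000000000000000000000000000000020000000 := rS 0xcbf709020c6699d12ec5c9804086756a24eec93205d99ecce8ee953a (k8 c17162 c17600 c5332 c17478 c17558 c17385 c5433 c17593 (k8 c5396 c2053 c5567 c1959 c63 c17538 c53 c13455 (k8 c17602 c1127 c5668 c1969 c1968 c17603 c720 c9002 (k2 c1090 c8156 k0)))) (by decide +kernel)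
def c17605 : PP 9 3 T 0x400000000042000201000000000000000000000000000200000000000000000000000000000000000000000000000000000000000000000000000000 := rS 0x7cc491559aa44e6a639fcbc754b1643a79acb33c2fddafb1e2350d8c433939d23c02293499d5e6f56a241293021dd926455ecf3a3b0782c8f4a (k8 c17600 c5520 c5516 c5329 c5332 c17478 c17594 c8880 (k8 c17593 c5396 c2053 c17538 c5444 c311 c5567 c1959 (k8 c5565 c1130 c63 c9743 c9692 c53 c5568 c17162 (k8 c13455 c6205 c5476 c5475 c5324 c9695 c17558 c9578 (k8 c5542 c6290 c17385 c16660 c2386 c17604 c313 c9240 (k8 c1529 c1126 c17512 c17545 c6192 c17411 c2376 c2377 (k4 c1139 c5651 c12026 c5803 k0))))))) (by decide +kernel)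
def c17606 : PP 9 3 T 0x2000000000000000000011000000000000000000000000000100000000000040000000000100000005000040004000200040000000000000000050004420 := rS 0x198c735081e61b7a88e2207c9b450afd67ed674f1 (k8 c9695 c17162 c14062 c5543 c5542 c5541 c5501 c13455 (k8 c8467 c9728 c9733 c5477 c5475 c5325 c3581 c12152 (k2 c4657 c16679 (k1 c1968 k0)))) (by decide +kernel)
def c17607 : PP 9 3 T 0x2000000000000040000201000000000000000000080000000100001000000000000000000100000004000000000000200000000000000000000000010000 := rS 0x48834d8a8dabc73a0333a1c3e0f7b82c3a97628d40e04c99767464 (k8 c17593 c17162 c5321 c13455 c17538 c8467 c5324 c13953 (k8 c1127 c8808 c5516 c5333 c5329 c5517 c2113 c63 (k8 c54 c17478 c9695 c14062 c17606 c1958 c2427 c747 (k1 c17589 k0)))) (by decide +kernel)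
def c17608 : PP 9 3 T 0x400000000042000201000000000000000000000000000000000000000000000000000000000000000000000000000000000000000000000000000000 := rS 0x1224b81a11060d7e08769ed8ac0561ef08b55a6593a25c821d6295a524705925ee0fa521d57b33ba5592f121914ba357986c62f511e751b133ea3cd2070264e74af37ab4c889 (k8 c5567 c17593 c1959 c5565 c1130 c17162 c13455 c17538 (k8 c8467 c9743 c5568 c5566 c5382 c5381 c17478 c9733 (k8 c5477 c5476 c5475 c5325 c5324 c5321 c5326 c5478 (k8 c9695 c5396 c5446 c2053 c17594 c8880 c2113 c17600 (k8 c5329 c5333 c5334 c5516 c5520 c17605 c10195 c13953 (k8 c8808 c12628 c1127 c5668 c313 c1969 c1532 c8803 (k8 c17287 c9092 c2143 c1294 c17607 c8720 c5528 c12546 (k4 c315 c2393 c1129 c2632 (k2 c11779 c850 (k1 c12649 k0)))))))))) (by decide +kernel)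
def c17609 : PP 9 3 T 0x400000000040000201000000000000000000000000000000000000000000000000000020000000000000000000000000000000000000000000010000 := rS 0x491d5889daaa065983c69f2fb5c12354084cfa2931abcc86f198fc7b284b9643bb2d8e4e7404 (k8 c17538 c17162 c13455 c17608 c5234 c5486 c313 c5404 (k8 c5209 c5436 c5318 c5316 c5565 c17593 c1130 c9754 (k8 c9692 c5566 c5564 c5380 c5324 c1627 c1765 c1629 (k8 c17448 c12668 c5663 c1755 c5680 c3000 c2927 c1198 (k2 c5778 c12176 (k1 c17450 k0)))))) (by decide +kernel)
def c17610 : PP 9 3 T 0x400000000040000201000000000000000000040000000000000000000000000000000000000000000000000000800000000000000000000000000000 := rS 0x7178996b569926395945bddbe9b4fa87d87b2f320ba6f478a466590eec93b154cacc96e16395c7a813e84c7f28d8e4e748755ed0c8c50883b3a04 (k8 c17538 c17478 c6008 c10107 c17609 c17593 c5211 c5413 (k8 c2113 c17162 c13455 c17608 c5209 c5318 c5564 c5566 (k8 c5380 c5436 c5313 c10146 c12679 c12627 c5532 c5530 (k8 c5414 c5412 c5234 c5486 c313 c5316 c9692 c5568 (k8 c5565 c5321 c2053 c2054 c889 c13987 c1121 c1522 (k8 c10735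 c14796 c5498 c17493 c17561 c12681 c513 c2081 (k4 c9106 c1325 c10123 c3620 (k1 c5466 k0)))))))) (by decide +kernel)
def c17611 : PP 9 3 T 0x400000000040000201000000000000000000040000000000000000000000000000000000000000000000000000000000000000000000000000000000 := rS 0x681e19e5e04324e87762a1d8e8508aac1db4789746a1b18e74c604320ce5097d96c7273a (k8 c17162 c13455 c17608 c5234 c5404 c5209 c5316 c17593 (k8 c17538 c9754 c17478 c5476 c5475 c5324 c5321 c9695 (k8 c5211 c6008 c5413 c10107 c844 c10146 c2113 c17609 (k8 c17610 c5668 c1966 c9278 c9271 c1531 c472 c15646 (k1 c1540 k0))))) (by decide +kernel)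
def c17612 : PP 9 3 T 0x8000000000000000000000000000000000000000000000020020 := rS 0x4870 (k2 c719 c720 (k1 c6082 k0)) (by decide +kernel)
def c17613 : PP 9 3 T 0x400000000040000201000000000000000000000000000000000000000000000000000000000000000000000000800000000000000000000000000000 := rS 0x1a6ca8e2d62ab34cb8d1701551a8db034fa850a866b979904322974b68d099bcfa894799cc89b63a75c2dff6fbcb2836284408ce66bdc6e331cca1e6317a8d5a3e0dabf4461dd93c7273ad8e74774a (k8 c17611 c5332 c17478 c17608 c17162 c13455 c9695 c5234 (k8 c5486 c9733 c5405 c12546 c5235 c5459 c5324 c5477 (k8 c5476 c5325 c5209 c5317 c5316 c5435 c5333 c5537 (k8 c3587 c17538 c17612 c17609 c2395 c313 c17287 c6290 (k8 c5538 c5460 c5458 c5535 c8100 c17593 c63 c5568 (k8 c5567 c5566 c5565 c5564 c5381 c5474 c5321 c5326 (k8 c5478 c2053 c2054 c4532 c13987 c788 c1121 c1522 (k8 c10690 c744 c2114 c2113 c12665 c17493 c13843 c1521 (k4 c2377 c1139 c1345 c12681 (k2 c3620 c2081 (k1 c1325 k0))))))))))) (by decide +kernel)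
def c17614 : PP 9 3 T 0x400000000040000201000000000000000000000000000000000000000000000000000000000000000000000000000000000000000000000000000000 := rS 0x164908aa601aca43a10bcd304324e877628459ded66b453be0dabdc774a2c875fa971b8e467b2946c5e2357986c62f5c9ce8479d44c44c604 (k8 c17538 c9754 c9728 c5567 c17478 c9733 c17162 c13455 (k8 c5477 c5476 c5475 c5325 c5324 c9695 c17608 c5209 (k8 c5234 c5316 c5317 c5435 c5404 c5405 c5486 c313 (k8 c17611 c5332 c5333 c12546 c5235 c5458 c5459 c5537 (k8 c6290 c3587 c17612 c17609 c17613 c5668 c1966 c9278 (k8 c1969 c9271 c1531 c2115 c17588 c2540 c17559 c1292 (k2 c17589 c1760 (k1 c2897 k0)))))))) (by decide +kernel)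
def c17615 : PP 9 3 T 0x800000000000000011000000000000000000040000000000000000000000000000000000000000000000000000100020004000000000000000000020 := rS 0x1a2833c1ecbc084a98c0e6762a5d9e333bb24b2a94eaad33b406b1f26fd42838bb3a (k8 c17162 c5321 c6008 c844 c1129 c13455 c10146 c151 (k8 c5211 c5530 c5413 c5412 c9109 c9442 c5494 c5493 (k8 c5492 c5453 c5452 c5451 c63 c8467 c9754 c1955 (k4 c10693 c312 c1685 c472 (k2 c9113 c8113 (k1 c9899 k0)))))) (by decide +kernel)
def c17616 : PP 9 3 T 0x800000000028000011000000000000000000000000000200000000000000000000000040000000000000004000200004000000000000000000000000 := rS 0x340f05ef0bc46a1b18ce92ecf64a755699 (k8 c5530 c5413 c5412 c5494 c5453 c5452 c17162 c5476 (k8 c5475 c5324 c9695 c16230 c9271 c10245 c15646 c1540 k0)) (by decide +kernel)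
def c17617 : PP 9 3 T 0x2000000000000000000011000000000000000000000000000200000000001000000000005140000005001140000000200024000000000000000000000000 := rS 0x954d984f07bf0b47273a (k8 c17162 c13455 c5501 c6290 c1688 c5669 c10425 c2384 (k2 c1956 c3617 k0)) (by decide +kernel)
def c17618 : PP 9 3 T 0x40000201000000000000000000040000000200000000000000000000000000000000000000000000000000000000000000000000000000 := rS 0x4a27cc0092fa0bdab0d99d36257788d436310c98cce9767b259a1d54a7532c7c9a1d57b4f7844b3de7ea141d9d021767464 (k8 c17593 c17162 c5321 c17538 c17478 c6008 c844 c1129 (k8 c17614 c9442 c10107 c17287 c5211 c5413 c2113 c13455 (k8 c10146 c5530 c5412 c9109 c9172 c5495 c5494 c5453 (k8 c5452 c63 c9754 c6205 c5476 c5475 c5324 c9695 (k8 c5313 c9240 c17615 c17616 c9092 c17617 c10850 c9113 (k4 c312 c5663 c17448 c1575 (k1 c2182 k0))))))) (by decide +kernel)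
def c17619 : PP 9 3 T 0x40000201000000000000000000040000000000000000000000000000000000000000000000000000000000000000000000000000000000 := rS 0x3c09594bf50a9955a75520eda177273ace810c89767b259bde (k8 c17614 c5495 c5494 c5453 c5452 c17593 c17538 c17478 (k8 c17162 c13455 c5321 c5211 c6008 c9109 c5412 c5413 (k4 c5530 c844 c1129 c17618 (k2 c8650 c5215 (k1 c13449 k0))))) (by decide +kernel)
def c17620 : PP 9 3 T 0x40000201000000000000000000000000000200000000000000000000000000000000000000000000000000000000000000000000000000 := rS 0x4496255840c1bb37e0855691da343dbb1f7bc46af32d86c62f50ce4c479d8984d1e04579bd2ecd0e990761f07bdc1637f0d2a75de (k8 c17614 c17162 c17619 c6344 c5518 c5516 c5333 c5329 (k8 c5517 c5332 c17593 c9172 c5495 c5452 c5565 c1130 (k8 c17538 c5568 c5564 c5382 c17478 c9733 c13455 c6205 (k8 c5477 c5476 c5475 c5474 c5325 c5324 c9695 c17189 (k8 c9240 c17385 c9979 c5235 c9793 c5413 c5528 c12546 (k8 c7262 c315 c2632 c9092 c1092 c12081 c720 c12647 k0)))))) (by decide +kernel)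
def c17621 : PP 9 3 T 0x2000000000000018000011000000000000000000000000000100000000000000000000005100000000000040000000000000000000000000000000000020 := rS 0x42b450efd (k4 c5405 c5499 c5501 c5541 (k1 c17547 k0)) (by decide +kernel)
def c17622 : PP 9 3 T 0x48000201000000000000000000000000000000000000000000000000000000000004000000000000000000000000000000000000000000 := rS 0x58b5d97141e036b279f9a1cb6293499d9e3364b343a093df873a074fa842295d8104ad290264d2eaf37b4dabde56991121b18bf553b59d3dc3f4a (k8 c17619 c5517 c5333 c17162 c7262 c5489 c5405 c5476 (k8 c5475 c5567 c17593 c1959 c17614 c5454 c5496 c5565 (k8 c1130 c5452 c13455 c17538 c17620 c10195 c12628 c5209 (k8 c8650 c8803 c5398 c5448 c8467 c17478 c6344 c9301 (k8 c16665 c9172 c5495 c5494 c5492 c5453 c63 c9743 (k8 c9692 c5474 c2113 c12009 c17567 c17566 c370 c16767 (k4 c16765 c1490 c1491 c1294 (k1 c8161 k0)))))))) (by decide +kernel)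
def c17623 : PP 9 3 T 0x48000201000000000000000000000000000000000000000000000000000000000000000000004000000000000000000000000000000000 := rS 0x10058b2c951448b8cd90363035086bac9e4331309a3c660f2482c8e093df840e934fa87de114aec08256c9abcded36aab4c8890d8c4b3eddace9ee1fa54a59ac967a5fbd9d41aaa2204 (k8 c17538 c9728 c17622 c1974 c17478 c17614 c5452 c5453 (k8 c5494 c5495 c17620 c17619 c5517 c5333 c17162 c7262 (k8 c17621 c9442 c5476 c5475 c5567 c17593 c1959 c5454 (k8 c5496 c5565 c1130 c13455 c10195 c12628 c5209 c8650 (k8 c8803 c17287 c5398 c5448 c5444 c8467 c6344 c9301 (k8 c16665 c5520 c5516 c5334 c5329 c5492 c5568 c5564 (k8 c5382 c6205 c17567 c17566 c1138 c5672 c370 c5669 (k8 c12094 c5665 c2619 c15364 c17589 c12614 c1293 c1295 (k2 c11779 c8943 k0))))))))) (by decide +kernel)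
def c17624 : PP 9 3 T 0x48000201000000000000000000000000000000000000000000000000000000000000000000000000000000000000000000000000000000 := rS 0x1fd647be38e32be4b56fc556701639a90a8641aabdbb521914ba5b4684d1e2988b3c66c96687dee7bf0d2b3a0708a5760412b4a409934babcded36af795a644486c633a (k8 c17162 c5476 c5475 c5567 c17593 c1959 c17614 c5454 (k8 c5496 c5565 c1130 c5452 c13455 c17538 c17620 c10195 (k8 c12628 c5209 c8650 c8803 c8467 c17478 c17619 c6344 (k8 c9301 c5333 c5517 c5495 c5494 c5492 c5453 c9728 (k8 c9692 c5568 c5564 c5381 c5474 c5321 c5326 c5478 (k8 c7262 c17621 c17622 c1974 c17623 c164 c2114 c15218 (k8 c12665 c2377 c1139 c14796 c1345 c5685 c17544 c12008 (k4 c5464 c1490 c5341 c405 (k1 c5655 k0))))))))) (by decide +kernel)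
def c17625 : PP 9 3 T 0x1800000000014000011000000000000000000000000000000000100000040000000000000000000000500000004100020010000000440000000004500 := rS 0x1506d4e9e070c768fb06af318bd7273a678cd9aab (k8 c8880 c5495 c5492 c5453 c17162 c13455 c5477 c5476 (k8 c5325 c5324 c5238 c5501 c17545 c3587 c5669 c1538 (k2 c4636 c9090 (k1 c1958 k0)))) (by decide +kernel)
def c17626 : PP 9 3 T 0x800000000004000011000000000000000000080000000000000100000000000000000000000000000510000004100020010000000000000000000100 := rS 0x31cf26a427b5f8a94eed1e39311a5d9ec966874761f07bdc1637f0ce90eab (k8 c8880 c2113 c17162 c6344 c5518 c5516 c5333 c5329 (k8 c5517 c5332 c9172 c5495 c5494 c5453 c5452 c9733 (k8 c13455 c9695 c17625 c5412 c5531 c12546 c14062 c8934 (k4 c1128 c2545 c2482 c5669 k0)))) (by decide +kernel)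
def c17627 : PP 9 3 T 0x40000201000000000000000000000000000000000000000000000000000000000000000000000000000000000000000000000000000000 := rS 0x9125a11060d7e08769ed3a4560287582af67ef08905329b3da54adb004ca7c20b07d283a5969b25aa97ef2b55e64039a6220447a24de1389bc43631c9ce8479d (k8 c17478 c9733 c17162 c13455 c5476 c5475 c9695 c5382 (k8 c5564 c5565 c5567 c5568 c17538 c9728 c9743 c8467 (k8 c17593 c1130 c1959 c17614 c5452 c5454 c5494 c5496 (k8 c9442 c9172 c17619 c5329 c5516 c6344 c17620 c16665 (k8 c5209 c10195 c8650 c9301 c5397 c5447 c12628 c8803 (k8 c17287 c17624 c8880 c9092 c2113 c2143 c1294 c17626 (k8 c17607 c8720 c5528 c12546 c315 c2393 c1129 c11779 (k2 c850 c12647 k0)))))))) (by decide +kernel)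
def c17628 : PP 9 3 T 0x41000001000000000000000000000000000000000000000000000000000000000000000000000000000000000000000000000000000010 := rS 0x6c8c9dfc9ceab1a1 (k8 c17627 c5212 c17162 c13455 c14183 c14148 c5234 c17360 k0) (by decide +kernel)
def c17629 : PP 9 3 T 0xa000011000000000000000000000000000000000000000000000000000020000000000000000000000000000000000000000000000010 := rS 0xbc97 (k2 c5404 c17480 (k1 c1629 k0)) (by decide +kernel)
def c17630 : PP 9 3 T 0x40000001000000000000000000040000000000000000000000000000000000000000000000000000020000000000000000000000000010 := rS 0xf6a1417f371b2fc51340a3de20f50984fa3dac1fc0c020086cc811559b567b46ff8253b0d0e4e759d (k8 c17478 c17162 c13455 c17627 c17628 c17208 c5215 c5538 (k8 c5211 c5532 c5529 c5413 c9667 c14021 c5475 c1056 (k8 c5642 c17187 c676 c5212 c5560 c1456 c5445 c5398 (k8 c9739 c9695 c2874 c751 c755 c5670 c5464 c5466 (k4 c5271 c12878 c13042 c12505 (k1 c12530 k0)))))) (by decide +kernel)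
def c17631 : PP 9 3 T 0x8000000000000000000000000000000000000000000008000000100000000000000000000000000000000000000000010020000000000000011010000008 := rS 0x2bd6245 (k4 c5326 c5506 c5584 c8310 k0) (by decide +kernel)
def c17632 : PP 9 3 T 0x40000001000000000000000000040000000000000000000000000000000000000000000000000000000000000000000000000000000010 := rS 0xc5efecbde71f026557b4ce8a44b1dac07726060100436649d4a743b0 (k8 c17628 c17627 c17208 c17162 c14021 c5475 c1056 c5642 (k8 c17187 c13455 c8808 c5212 c5341 c9666 c8199 c17478 (k8 c5211 c5413 c5530 c5215 c17630 c17631 c5239 c16230 (k2 c17629 c13837 k0)))) (by decide +kernel)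
def c17633 : PP 9 3 T 0x44000001000000000000000000000000000000000000000000000000000000000000000000000000000000000000000000000000000010 := rS 0x89a111e8336fcce1ed806d1feabf710c8af37a88f3a2912c749647ac077266901004c929d8684373a0fbdc934a (k8 c17632 c5334 c5333 c5517 c17162 c5475 c17627 c17628 (k8 c17208 c14021 c1056 c5642 c124 c13455 c8808 c5212 (k8 c5562 c5342 c5341 c9666 c8199 c17478 c9733 c5477 (k8 c5325 c5326 c5478 c5239 c8880 c5586 c12459 c9072 (k8 c14774 c17631 c12736 c5529 c9812 c8319 c5733 c755 (k1 c13042 k0)))))) (by decide +kernel)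
def c17634 : PP 9 3 T 0x40000001000000000000000000000000000000000000000000000000000000000000000000000000000000000000000000000000000010 := rS 0x80381a843e38aad7c2336afcbbdb56297b6479638dc16f70fd28fe7d03008026494987601bc9ceb3a111ec76b1a1 (k8 c17627 c5212 c5341 c5560 c9667 c17478 c17162 c13455 (k8 c5475 c17628 c5445 c17208 c14021 c1056 c5642 c17187 (k8 c1456 c676 c17632 c5517 c5333 c5516 c5518 c674 (k8 c1454 c17633 c17480 c17629 c7262 c13837 c5241 c5454 (k8 c5492 c6344 c5548 c5590 c13617 c13817 c6192 c14934 (k2 c5670 c751 k0)))))) (by decide +kernel)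
def c17635 : PP 9 3 T 0x2000000000000048000001000000000000000000040000000200000000000000000000000020000000000000000000000010000000000000000000000000 := rS 0x1b9107c30234125f08c74c604da675027ff7b4fc5b11a86de3939d106b1a1 (k8 c17627 c5212 c5340 c17162 c13455 c9695 c5475 c5324 (k8 c14275 c5236 c5579 c6923 c5577 c5463 c17478 c5211 (k8 c17634 c9754 c5341 c9667 c1630 c1627 c947 c5663 (k4 c14111 c1634 c1580 c17049 k0)))) (by decide +kernel)
def c17636 : PP 9 3 T 0x2000400000000048000001000000000000000000040000000200000000000000000000000000000000000000000000000010000000000000000000000000 := rS 0x1c2b54fa44dc784da2cbc613b1d598c5f0b3cc6574ec5532b3da44d8e0e02674cecb719fd42dff16c46a1b78e87273a (k8 c17162 c13455 c17627 c9695 c5475 c5324 c14275 c5236 (k8 c5580 c5578 c5577 c5466 c5464 c5487 c17478 c17634 (k8 c6008 c10146 c12622 c5211 c5532 c5530 c5414 c5412 (k8 c5313 c9754 c5543 c6290 c17635 c17580 c1968 c5668 (k8 c724 c11141 c790 c10735 c10245 c11843 c3038 c2816 (k2 c1149 c1542 (k1 c3620 k0))))))) (by decide +kernel)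
def c17637 : PP 9 3 T 0x400000000048000001000000000000000000040000000200000000000000000000000000000000000000000000000010000000000000000000000000 := rS 0x3bf9783dbef6fb4dc7e2d8bc46a1bc9ceb3a412591eb1a1 (k8 c17627 c5212 c5562 c5342 c5340 c17478 c17162 c13455 (k8 c5475 c5324 c9695 c14275 c5236 c5466 c5579 c5580 (k4 c6923 c17636 c5185 c5191 (k2 c5456 c14209 k0)))) (by decide +kernel)
def c17638 : PP 9 3 T 0x400000000040000001000000000000000000040000000200000000000000000000000000000000000000000000000010000000000000000000000000 := rS 0x11ce00938dbecb3e2056a76049c4dc7530a6d429f49a2d1ad2d819bddb32e8d4b631ac0474201019ccd2072b8cc7e594ec5532b3da44d8e0e0264e759d (k8 c17478 c17162 c13455 c17634 c6008 c10146 c12622 c5211 (k8 c5532 c5530 c5414 c5412 c314 c5318 c5316 c5313 (k8 c8467 c9743 c9718 c54 c53 c17627 c9667 c5212 (k8 c5476 c5474 c5324 c5321 c17637 c5239 c5664 c5234 (k8 c14152 c5505 c5583 c5444 c5448 c5398 c5397 c5445 (k8 c4422 c12249 c12190 c311 c5729 c1149 c938 c14064 (k4 c8797 c2830 c1552 c17022 (k2 c3620 c476 (k1 c4847 k0))))))))) (by decide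 +kernel)
def c17639 : PP 9 3 T 0x800000000040000001000000000000000000000000000200000000000000000000000000000000000000000000000010000000000000000000000000 := rS 0x1b0c9ceb4204 (k4 c17634 c17627 c17162 c13455 (k2 c14183 c17555 k0)) (by decide +kernel)
def c17640 : PP 9 3 T 0x42000001000000000000000000080000000200000000000000000000000000000000000000000000000000000000000000000000000000 := rS 0x6cf6af11a86e759d1491eb1a1 (k8 c17627 c5212 c5562 c8199 c17478 c17162 c5475 c5324 (k4 c9695 c9578 c14275 c14042 k0)) (by decide +kernel)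
def c17641 : PP 9 3 T 0x40000001000000000000000000000000000200000000000000000000000000000000000000000000000010000000000000000000000000 := rS 0xf9ed5bee3d978b62f70f8ee95dfc9ceb3a412591eb1a1 (k8 c17627 c5212 c5562 c5342 c5340 c17478 c17162 c13455 (k8 c17639 c17638 c5332 c5517 c5333 c17640 c5236 c5234 (k4 c5466 c5580 c7262 c14209 (k1 c5241 k0)))) (by decide +kernel)
def c17642 : PP 9 3 T 0x400000000042000001000000000000000000040000000200000000000000000000000000000000000000000000000000000000000000000000000000 := rS 0x1686e56c04e291401fd8875f1bfdaaaf45b5d6282f040da5ee3bfb7669530a6d92f1218d437931e9063b58d09ccd2331faa53aab8aa6769137ea141d9d021767464 (k8 c17641 c17162 c5321 c17634 c17478 c6008 c844 c1129 (k8 c12622 c5211 c5530 c5414 c5413 c5412 c9109 c5318 (k8 c5316 c9743 c9718 c17627 c5212 c5341 c5340 c5560 (k8 c13455 c5475 c5324 c5478 c9695 c5396 c5397 c5445 (k8 c5446 c14275 c17595 c2053 c5239 c14152 c11700 c5185 (k8 c5733 c5506 c5507 c5583 c5584 c5585 c5586 c5579 (k8 c17598 c5668 c840 c8423 c9822 c751 c1978 c1960 (k2 c5666 c9083 (k1 c1149 k0)))))))))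 (by decide +kernel)
def c17643 : PP 9 3 T 0x2000400000000040000001000000000000000000040000000200000000000000000000000020000000000000000000000000000000000000000000000000 := rS 0x1b9107c30234be091a8463a6302277699dd9204ffef69f8b63939d106b1a1 (k8 c17627 c5212 c5340 c17162 c13455 c17642 c5236 c5579 (k8 c6923 c5577 c5463 c5234 c17478 c5211 c5412 c17634 (k8 c9754 c5341 c9667 c5324 c1627 c17510 c947 c5663 (k4 c14111 c1634 c1580 c17049 k0)))) (by decide +kernel)
def c17644 : PP 9 3 T 0x1000000000048000110000000000000000000040008000000000000000000000440000440000000010000000040800020004000000000000000000020 := rS 0x1c2b54fa44dc784da2cc25e33a762a9959ed2260e (k8 c6008 c12622 c5211 c5532 c5530 c5414 c5412 c63 (k8 c2054 c724 c790 c10735 c10245 c11843 c3038 c2816 (k2 c1149 c1542 (k1 c3620 k0)))) (by decide +kernel)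
def c17645 : PP 9 3 T 0x2000400000000040000001000000000000000000040000000200000000000000000000000000000000000000000000000000000000000000000000000000 := rS 0x19ac93a1dd8be16798caea94eaad33b463bf50a0ece810ba6465b8cfea16ff8b4297d96c7273a (k8 c17162 c13455 c17642 c5234 c5404 c17627 c5236 c5580 (k8 c5578 c5577 c5466 c5464 c17641 c5321 c17634 c17478 (k8 c6008 c844 c1129 c10146 c5211 c5530 c5413 c5412 (k8 c9109 c5313 c9754 c5543 c6290 c17643 c17644 c5668 (k2 c1966 c1968 (k1 c17617 k0)))))) (by decide +kernel)
def c17646 : PP 9 3 T 0x400000000040000001000000000000000000040000000200000000000000000000000000000000000000000000000000000000000000000000000000 := rS 0x77f2f07b7dedf69b8fc5b1c9ceb3a412591eb1a1 (k8 c17627 c5212 c5562 c5342 c5340 c17478 c17162 c13455 (k8 c17642 c5236 c5466 c5579 c5580 c6923 c17645 c5185 (k2 c5191 c5456 (k1 c14209 k0)))) (by decide +kernel)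
def c17647 : PP 9 3 T 0x800000000040000001000000000000000000000000000200000000000000000000000000000000000000000000000000000000000000000000000000 := rS 0xeec12ef11a86c6219c9ceb4264 (k8 c17641 c17627 c17162 c13455 c6205 c5476 c5475 c5324 (k4 c9695 c5452 c14183 c9172 (k1 c9240 k0))) (by decide +kernel)
def c17648 : PP 9 3 T 0x40000001000000000000000000000000000200000000000000000000000000000000000000000000000000000000000000000000000000 := rS 0xf9ed5bee3d978b62f70f8ee95dfc9ceb3a412591eb1a1 (k8 c17627 c5212 c5562 c5342 c5340 c17478 c17162 c13455 (k8 c17647 c17646 c5332 c5517 c5333 c17640 c5236 c5234 (k4 c5466 c5580 c7262 c14209 (k1 c5241 k0)))) (by decide +kernel)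
def c17649 : PP 9 3 T 0x4400000000048000001000000000000000000040000000000000000000000000000000000000000000000000000000010000000000000000000000000 := rS 0x711f196b5389b9628d45fb8220339a048358d0a8567132cab55e673b1d5fa9b64aad53b44c9a50a0e4aec3c19d62ca46a0702177273a (k8 c17162 c13455 c5321 c17634 c8467 c5324 c17648 c13953 (k8 c17478 c5215 c5209 c5446 c6008 c844 c9743 c5447 (k8 c5211 c5531 c5413 c5396 c5397 c5405 c17598 c5668 (k8 c5487 c5406 c5490 c314 c12622 c5532 c5398 c17627 (k8 c5212 c5340 c12653 c9718 c54 c9667 c5186 c8305 (k8 c5505 c5506 c11843 c12190 c1149 c1145 c14264 c8677 (k1 c1552 k0))))))) (by decide +kernel)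
def c17650 : PP 9 3 T 0x400000000048000001000000000000000000040000000000000000000000000000000000000000000000000000000010000000000000000000000000 := rS 0xf7fcda6e36bb2fc5ed4bab5e21b7a88f42a14aec07656026d1bfe094e4e759d (k8 c17478 c17162 c13455 c17648 c5215 c5538 c5211 c17634 (k8 c10195 c10737 c5209 c5446 c5398 c17627 c9733 c5477 (k8 c5475 c9695 c5490 c5404 c14729 c17649 c5464 c5465 (k4 c5466 c5579 c5271 c5892 (k1 c5191 k0))))) (by decide +kernel)
def c17651 : PP 9 3 T 0x110040000000000000000040000000100000400000000000000000000000000000000000100008000000000000000000000000000 := rS 0xfbe37132d6a7f50ec167b4 (k8 c5211 c5532 c5209 c5398 c2919 c1149 c1145 c8677 (k2 c5466 c1552 (k1 c5670 k0))) (by decide +kernel)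
def c17652 : PP 9 3 T 0x400000000040000001000000000000000000040000000000000000000000000000000000000000000000000000000010000000000000000000000000 := rS 0x1168df76cc066f898390241ac01c0929d0e77273a (k8 c17162 c13455 c17478 c17627 c17648 c17634 c8467 c5212 (k8 c5340 c12653 c6008 c12622 c17651 c54 c17650 c5239 (k2 c5505 c5583 (k1 c12249 k0)))) (by decide +kernel)
def c17653 : PP 9 3 T 0x400000000040000001000000000000000000040000000000000000000000000000000000000000000000000000000000000000000000000000000000 := rS 0x747e9dcc869628d40ec94da5533b0f04a726ab54ed10a0ece810bb3a (k8 c17162 c5321 c17634 c17478 c6008 c844 c5211 c5531 (k8 c5413 c13455 c17648 c5215 c5209 c5447 c5446 c5397 (k8 c5396 c8467 c5324 c13953 c9743 c17652 c2053 c1129 (k2 c5668 c17598 k0)))) (by decide +kernel)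
def c17654 : PP 9 3 T 0x40000001000000000000000000040000000000000000000000000000000000000000000000000000000000000000000000000000000000 := rS 0x45a37dc65d9bf3bc6f68a1626ab4ef801db42ee74068120d634207023253699d84a7273a (k8 c17162 c13455 c17648 c5209 c5447 c5397 c5396 c17634 (k8 c8467 c17627 c5212 c5340 c12653 c54 c17478 c5321 (k8 c5211 c6008 c5215 c5412 c5413 c12622 c844 c5459 (k8 c17651 c17653 c13565 c15342 c1129 c5239 c5505 c5583 (k1 c12249 k0))))) (by decide +kernel)
def c17655 : PP 9 3 T 0x400000000048000001000000000000000000000000000000000000000000000000000000000000000000000000000000000000000000000000000000 := rS 0x106d7d8f10dceb3a2923d6343290fbdc934a (k8 c17654 c5334 c5333 c5517 c17648 c17627 c5212 c5562 (k8 c8199 c17478 c17162 c5475 c9695 c14014 c7262 c15058 (k1 c17539 k0))) (by decide +kernel)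
def c17656 : PP 9 3 T 0x400000000040000001000000000000000000000000000000000000000000000000000000000000000000000000000010000000000000000000000000 := rS 0x712396b13432159691419b8cc592e96c0669409040e9f50a6d33b09483c168d45c008af57990fe6ff24bde3a9d8aacc1a21da11c960470b7fc1edf76ce9558d0e77273a (k8 c17162 c13455 c17478 c17627 c5212 c17654 c17655 c5239 (k8 c14774 c5185 c5538 c5460 c17634 c5342 c5562 c12459 (k8 c5528 c315 c5532 c5414 c5412 c5341 c5333 c5334 (k8 c5586 c12736 c5478 c5325 c5477 c5326 c9072 c5583 (k8 c5505 c5516 c5329 c17648 c5209 c5447 c5397 c5398 (k8 c5448 c8467 c5340 c12653 c9743 c54 c5474 c5321 (k8 c314 c5664 c12249 c4424 c3038 c1145 c8434 c3571 (k4 c13182 c1149 c5675 c3620 (k1 c2404 k0))))))))) (by decide +kernel)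
def c17657 : PP 9 3 T 0x400000000040000001000000000000000000000000000000000000000000000000000000000000000000000000000000000000000000000000000000 := rS 0x328fe6e891a908747e1dc3a8f3231fc0a9f9fb601b47fb555ed758fbb66f121915e61b7a88f3b1d2591d0241ac6858a3503810bac9d84a7273a0fbdc934a (k8 c17654 c5334 c5333 c5517 c17162 c13455 c17648 c5209 (k8 c5396 c5321 c17634 c8467 c5324 c13953 c17627 c5212 (k8 c5340 c12653 c5562 c5342 c5341 c17478 c9733 c5477 (k8 c5475 c5325 c5326 c5478 c9695 c17655 c5239 c5506 (k8 c5507 c5584 c5585 c5586 c12459 c9072 c14774 c12736 (k8 c5531 c5185 c5535 c17656 c8319 c8808 c2053 c5816 (k8 c5668 c1129 c1128 c13042 c2601 c809 c8413 c1145 k0))))))) (by decide +kernel)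
def c17658 : PP 9 3 T 0x40000001000000000000000000000000000000000000000000000000000000000000000000000000004000000000000000000000000000 := rS 0x11e0d3c9f90e7d451c02611399590241038113ec9d84a41e4905a5d9ecd89a476bb2f7c07e5e1f18ce3ad5ef0f7279d22bd5e6432591eb1a19d3dc3f4a (k8 c17654 c5517 c5333 c17162 c17627 c5212 c5562 c5342 (k8 c5478 c5325 c5477 c5326 c17478 c13455 c5560 c17657 (k8 c5454 c5341 c5492 c13617 c6344 c5188 c5592 c9072 (k8 c5239 c7262 c5589 c5547 c5495 c5453 c5452 c5516 (k8 c5334 c5329 c17648 c5209 c5396 c5448 c17634 c8467 (k8 c5340 c12653 c10195 c9718 c9667 c318 c5666 c11843 (k4 c2870 c900 c5670 c17567 (k2 c370 c2924 (k1 c12614 k0))))))))) (by decide +kernel)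
def c17659 : PP 9 3 T 0x2000000000000000000000000000000000000001000000000000500000400001000000000000024010800000000000000000000000000 := rS 0xde63a75669b (k4 c5397 c2378 c1136 c2482 (k2 c6118 c2830 k0)) (by decide +kernel)
def c17660 : PP 9 3 T 0x40000001000000000000000000000000000000000000000000000000000000000000000000000000000000000000000000000000000000 := rS 0x58b5d1a84359f1967f389bb6aa9338755eadd97be02e18ab8d6b13f978fc2336aa5fbc7b05bdc1e1fa5255429f4095b6129038108e4b8e9047b58d0e74864579bd7273a (k8 c17162 c13455 c5477 c5325 c5326 c5478 c17478 c17627 (k8 c5212 c5560 c5340 c5341 c5342 c5562 c17634 c8467 (k8 c17648 c5209 c10195 c12653 c5448 c5398 c5446 c17654 (k8 c5517 c5329 c5333 c5516 c886 c17657 c5452 c5454 (k8 c5492 c6344 c13617 c5188 c5547 c5548 c5549 c5590 (k8 c5591 c5592 c9072 c5239 c5490 c5406 c5486 c5487 (k8 c5489 c7262 c17658 c65 c2919 c1145 c5670 c17659 (k4 c12152 c949 c1550 c1147 (k1 c8161 k0))))))))) (by decide +kernel)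
def c17661 : PP 9 3 T 0x44000400000000111000200000000000000400000040008000000000000000000000800000000000000000000000000000000010000000000000000405020 := rS 0x2fd9e177b1fc71374fd353a4 (k8 c5213 c5388 c5232 c5555 c5382 c5466 c2619 c1840 (k4 c13917 c5204 c10403 c10404 k0)) (by decide +kernel)
def c17662 : PP 9 3 T 0x406000000000000000000020000400400000000000000000000040020041400400000000000000000000000000000000000000000000000000000000000000 := rS 0x42df10542ded0789 (k8 c5527 c5525 c5375 c5541 c5545 c5274 c3403 c14695 k0) (by decide +kernel)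
def c17663 : PP 9 3 T 0x45001400000000001000221000000000000000000000000000200000000000000000000040000000000000000000000000010000000000000000000000000 := rS 0x61509fdafe238a7d967d07a1c1a6b3ca0f6b1139ed8ae071e80c093a (k8 c17162 c14148 c54 c5436 c5432 c5313 c17660 c5419 (k8 c5371 c8114 c5525 c5524 c5523 c5522 c5373 c5369 (k8 c5566 c5420 c5572 c5571 c5204 c5465 c5577 c5578 (k2 c5279 c17416 k0)))) (by decide +kernel)
def c17664 : PP 9 3 T 0x400000000008000221000000000000000000040000000200000000000000000000000000000000000000000000000010000000000000000000000000 := rS 0xfedf70b1fc1ed71c3d1459021c562ad40a34de7d4483cf60d3c85d5e6933ec46a1b78c1f230954fbda71c148cdd3f7d4dfdf71889a451ff392e93131b59c5d7b7bc6c9f17f4b3ed62273dcada75b6 (k8 c17660 c17162 c8057 c5616 c5419 c5371 c8114 c7805 (k8 c5232 c5553 c5383 c5569 c5375 c5575 c3303 c5574 (k8 c2469 c5527 c5213 c5391 c8076 c5568 c5374 c5382 (k8 c5275 c5609 c5389 c5388 c10602 c5555 c5316 c5417 (k8 c13933 c2081 c5504 c5489 c2468 c5491 c3302 c9695 (k8 c5475 c5324 c14275 c5487 c5403 c5406 c5433 c5524 (k8 c5522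 c5372 c5369 c5567 c5566 c5565 c5381 c5380 (k8 c5573 c5421 c5571 c14148 c314 c3602 c3119 c17661 (k4 c17662 c17663 c5535 c5460 (k2 c5538 c13922 (k1 c3610 k0))))))))))) (by decide +kernel)
def c17665 : PP 9 3 T 0x400000000008000001000000000000000000000000000200000000000000000000000000000000000000000000000020000000000000000000000010 := rS 0x18a750418cee022fbc46a31c9a5d25b60b804373a (k8 c17162 c5475 c1056 c5433 c17660 c7843 c5404 c13455 (k8 c5476 c5324 c9695 c1517 c5642 c2054 c9752 c261 (k2 c9271 c1627 (k1 c5668 k0)))) (by decide +kernel)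
def c17666 : PP 9 3 T 0x402000000000000010000220000400400000000100040008000010220001400400000000000000000000000000000000000000010000000000001000000021 := rS 0x1141e24c39fe8555bde4e0f4383507ef (k8 c5504 c5525 c5522 c5373 c5369 c5383 c5498 c5500 (k4 c5541 c5544 c17662 c513 (k2 c13322 c14174 (k1 c3119 k0)))) (by decide +kernel)
def c17667 : PP 9 3 T 0x1000000000000000000221000000000000000000040000000000200000000000000000000000000000000000000000000000000000000000000050000020 := rS 0x25404173a14c4c1e8706a0f6b1139edbde59 (k8 c313 c5504 c17660 c5419 c5371 c8114 c5525 c5522 (k8 c5373 c5369 c5382 c5417 c17162 c718 c10477 c16820 (k1 c11779 k0))) (by decide +kernel)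
def c17668 : PP 9 3 T 0x400000000008000221000000000000000000040000000200000000000000000000000000000000000000000000000000000000000000000000000000 := rS 0x10b87be0a96fd5c8ca64c1612c3ded2c81002648c3ee437f8fc97ef8bf7e93e91784c1f73598e59c4ab6c8aa43af1229768e5b0debe74bd138a6272747e352389dac44e7b6 (k8 c17660 c5419 c5371 c8114 c5527 c5374 c5569 c5568 (k8 c5383 c5382 c5417 c5570 c5575 c17162 c5479 c5475 (k8 c5474 c5327 c5321 c5326 c9695 c5486 c5489 c5491 (k8 c8057 c7601 c7805 c13933 c14226 c5616 c3302 c2468 (k8 c3303 c5232 c5213 c5504 c5553 c10602 c5391 c5385 (k8 c5389 c5606 c5609 c5275 c17664 c1056 c17665 c313 (k8 c17666 c17667 c2591 c2324 c2323 c3228 c364 c3266 (k4 c360 c5662 c3573 c2247 (k2 c5064 c14695 k0))))))))) (by decide +kernel)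
def c17669 : PP 9 3 T 0x400000000004000201000000000000000000000000000200000000000000000000000000000000000000000000000010000000000000000000000000 := rS 0x413fb51a6d78e1d9167562f8ccdef04844d259021746a71db2051a133e95c663f038f526614aec3273a (k8 c17162 c13455 c5234 c5446 c5445 c5444 c5436 c5432 (k8 c5318 c5316 c5313 c5566 c5564 c5381 c5380 c17660 (k8 c5571 c5324 c5321 c14148 c314 c9743 c719 c311 (k8 c17287 c5664 c12668 c733 c2005 c737 c5668 c12681 (k4 c2187 c2081 c5689 c2998 (k2 c1656 c12613 k0)))))) (by decide +kernel)
def c17670 : PP 9 3 T 0x400000000002000001000000000000000000000000000200000000000000000000000000000000000000000000004020000000000000000000000010 := rS 0xd56bb4fdfe32025a38250e809e2451a8c4339338a7d962714ac76c331f85c7a930086e74af (k8 c1130 c17162 c5475 c1056 c5444 c5436 c5433 c5318 (k8 c5316 c17660 c5421 c5417 c5570 c5420 c5572 c5571 (k8 c13455 c6205 c5476 c5324 c5326 c9695 c5642 c1954 (k8 c1113 c8310 c9240 c13340 c7824 c5504 c2081 c1768 (k2 c1656 c5689 k0))))) (by decide +kernel)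
def c17671 : PP 9 3 T 0x2000000000000010000021000000000000000000000000000200000000000000000000000000000001000004000000400000000000000000000040000020 := rS 0x5e4e74f7 (k4 c5498 c17162 c13455 c718 (k1 c15252 k0)) (by decide +kernel)
def c17672 : PP 9 3 T 0x540000000000000000000000000000000000000100040008000000150044400000000000000000000000000000000000000000001000000000000000000000 := rS 0x430a716b310c8b47 (k8 c5327 c5326 c5478 c5174 c5697 c5605 c9779 c3456 k0) (by decide +kernel)
def c17673 : PP 9 3 T 0x40001400000000000000201000800400000000100040000000000100000400000000800002000000000050000081000000000000002000000000000000000 := rS 0x212e8f839fcaedfb156170f8cb95f3f5d2e4e75b6c6b1e271b (k8 c4790 c5382 c2619 c5569 c17660 c17162 c13455 c5390 (k8 c5553 c865 c2522 c2639 c3120 c9511 c516 c17672 (k4 c5639 c7591 c1781 c5187 (k2 c5692 c5514 (k1 c2674 k0))))) (by decide +kernel)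
def c17674 : PP 9 3 T 0x1080000000000000000000000000000000000000000000000000000000000000000000000000000000000000000000000000000 := rS 0x13b (k2 c13455 c17162 k0) (by decide +kernel)
def c17675 : PP 9 3 T 0x40000000000000000000000000000000000000000000000000000000000000000000000000000000800000000000000000000000000000000002000000000 := rS 0x1b6 (k2 c5926 c5574 k0) (by decide +kernel)
def c17676 : PP 9 3 T 0x100000000000000000000000000000000000000000000000000000002020000000000000000 := rS 0x158 (k2 c6232 c5340 k0) (by decide +kernel)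
def c17677 : PP 9 3 T 0x1000000000000000000000000000000000000000000000000000000000000000000000000000000000000000000020000000000800000 := rS 0x128 (k2 c9012 c5433 k0) (by decide +kernel)
def c17678 : PP 9 3 T 0x40000000000000000000000000000000000000008000000000000000000000800000000000000000000000000000000000000000000000 := rS 0x1f6 (k2 c8094 c5596 k0) (by decide +kernel)
def c17679 : PP 9 3 T 0x1000000000000000000000000000000000000000000000000000000000000000800200000000000000000000000000000000000000000000000000000 := rS 0x1f2 (k2 c10334 c5549 k0) (by decide +kernel)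
def c17680 : PP 9 3 T 0x2000000000000000000000000002000008000 := rS 0x14a (k2 c10165 c5329 k0) (by decide +kernel)
def c17681 : PP 9 3 T 0x40000000000000000000000000000000000000000000000000000000000000002000200000000000000000000000000000000 := rS 0x1e2 (k2 c9822 c5463 k0) (by decide +kernel)
def c17682 : PP 9 3 T 0x100000000000000000000000000000000000000000000000000000000000000000000000080000002000000000000000000000000 := rS 0x192 (k2 c10398 c5358 k0) (by decide +kernel)
def c17683 : PP 9 3 T 0x4000000000000000080000000002000000000000000000000000000000000000000000000000000 := rS 0x3b (k2 c10796 c2072 k0) (by decide +kernel)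
def c17684 : PP 9 3 T 0x10000000000000000000000000000000000000000000000000000000000000002000000000000000000000000000000000002000000000 := rS 0x1b6 (k2 c13705 c5422 k0) (by decide +kernel)
def c17685 : PP 9 3 T 0x100000000000000000000000000000000000000000000000000000000000000000002002000000000000000000000000000000000 := rS 0x198 (k2 c13428 c5365 k0) (by decide +kernel)
def c17686 : PP 9 3 T 0x20000000000000000000000000000000100000000000000000000000000000000000000000000000000000000000000000000000200 := rS 0x192 (k2 c13924 c5438 k0) (by decide +kernel)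
def c17687 : PP 9 3 T 0x100000000000000000080000000000000000000000000000000000000000000000000200000000000000000 := rS 0x13a (k2 c16457 c5326 k0) (by decide +kernel)
def c17688 : PP 9 3 T 0x400000000005000001000000000000000000000000000000000000000000000000000000000000000000000000000000000000000000000000000000 := rS 0x192 (k2 c5234 c17674 k0) (by decide +kernel)
def c17689 : PP 9 3 T 0x100000000000000000100000000000000000000000000000000000000000000000000000000000000000002000000000000040000 := rS 0x14a (k2 c12637 c5334 k0) (by decide +kernel)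
def c17690 : PP 9 3 T 0x22000020080000000000000000000000000000000000000000000000000000000000000000000000000000000000000000000000000000 := rS 0x5e (k2 c8483 c5439 k0) (by decide +kernel)
def c17691 : PP 9 3 T 0x4000001000000000000000000000000000000000000000000000000000000000008000000000000000010000000000000000000000000 := rS 0x19d (k2 c8138 c8880 k0) (by decide +kernel)
def c17692 : PP 9 3 T 0x80008000000000000000020080000000000000000000000000000000000000000000000000000000000000000000000000000000000000000000000000000 := rS 0xe2 (k2 c8118 c5549 k0) (by decide +kernel)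
def c17693 : PP 9 3 T 0x8800000000000000000000000000000000200000008000000000000000000000000000000000000000000000000000000000000000000000000000000 := rS 0xd6 (k2 c9525 c5465 k0) (by decide +kernel)
def c17694 : PP 9 3 T 0x80008000000000000000000000000200000000000000000000000000000040000 := rS 0xfe (k2 c12666 c211 k0) (by decide +kernel)
def c17695 : PP 9 3 T 0x1000000000000000000040000000000000000000000000000000000000000000800000000000000000000000008000000000000000000000000000000 := rS 0x91 (k2 c9363 c1776 k0) (by decide +kernel)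
def c17696 : PP 9 3 T 0x220000000000000000000000000000000000000000080008000000000000000000000000000000000000000000000000000000000000000000000000000000 := rS 0x108 (k2 c9523 c5556 k0) (by decide +kernel)
def c17697 : PP 9 3 T 0x800000000000000000200000000000000000000020000000040000 := rS 0xd4 (k2 c12677 c206 k0) (by decide +kernel)
def c17698 : PP 9 3 T 0x2000002000000000000000000000000000000000200000000000000020000000000000000000000000000000000000000000000000000 := rS 0x64 (k2 c9575 c5481 k0) (by decide +kernel)
def c17699 : PP 9 3 T 0x10040000000000000000000000000000000000000000000000000080000000000000000000000000000000000000000000008000 := rS 0x14a (k2 c10146 c5329 k0) (by decide +kernel)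
def c17700 : PP 9 3 T 0x2000800000000022000000000000000000000000000000000000000000000000000000000000000000000000000000000000000000000000000000000000 := rS 0x98 (k2 c10390 c5530 k0) (by decide +kernel)
def c17701 : PP 9 3 T 0x220000000000000000000800000080000000000000000000000000000000000000000000000000000000000000000000000000000000000 := rS 0x22 (k2 c12587 c5409 k0) (by decide +kernel)
def c17702 : PP 9 3 T 0x40004000000200000000008000000000000000000000000000000000000000000000000000000000000 := rS 0x158 (k2 c11196 c5341 k0) (by decide +kernel)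
def c17703 : PP 9 3 T 0x10000000000000000000000000000000000100000000000000000000000000000000000800000000000000000000000000000000800000 := rS 0x1b0 (k2 c10952 c5397 k0) (by decide +kernel)
def c17704 : PP 9 3 T 0x1000000000000000000000000000100000000000000000000000000000000000000000000000010000000000000000000000010 := rS 0x13b (k2 c14021 c17162 k0) (by decide +kernel)
def c17705 : PP 9 3 T 0x400000000000000001000000000000000000000000000000000000000000000000000000000000000000000000000010000000000000000000000010 := rS 0x13b (k2 c14148 c17162 k0) (by decide +kernel)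
def c17706 : PP 9 3 T 0x88000000000000000000000000000008000000100000000000000000000000000000000000000000000000000000000000000000000000 := rS 0x28 (k2 c13933 c5417 k0) (by decide +kernel)
def c17707 : PP 9 3 T 0x2000080000000000800000000000000200000000000000000000000000000000000000000000000000000000000000000000000000 := rS 0x11e (k2 c12897 c5345 k0) (by decide +kernel)
def c17708 : PP 9 3 T 0x280000000000000000000800200000000000000000000000000000000000000000000000000000000000000000000000000000000000000 := rS 0x24 (k2 c13448 c5559 k0) (by decide +kernel)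
def c17709 : PP 9 3 T 0x100040000000000000000000000000080000000000000000000000000000000000002000000000000000000 := rS 0x1f2 (k2 c12864 c5588 k0) (by decide +kernel)
def c17710 : PP 9 3 T 0x400000000000000001000000000000000000000000000000000000000000000000000010000000000000000000000000000000000000000000000080 := rS 0x13b (k2 c13837 c17162 k0) (by decide +kernel)
def c17711 : PP 9 3 T 0xa0000000000000a0000000000000000000000000000000000000000000000000000000000000000000000000000000000000000000000000000000000000 := rS 0xaa (k2 c13184 c5413 k0) (by decide +kernel)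
def c17712 : PP 9 3 T 0x10000010000000000000000000000000000000000100000000000000000000000000000000000000000000000000000000000000000002 := rS 0x1e (k2 c16164 c9664 k0) (by decide +kernel)
def c17713 : PP 9 3 T 0x50000000000000000000000000000000000000000000020020000000000000000000000000000000000000000000000000000000000000 := rS 0x14a (k2 c15283 c5519 k0) (by decide +kernel)
def c17714 : PP 9 3 T 0x4004400000000000000101000000000000000000000000000000000000000000000000000000000000000000000000000000000000000000000000000000 := rS 0x192 (k2 c5186 c17674 k0) (by decide +kernel)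
def c17715 : PP 9 3 T 0x10010400000000000001001000000000000000000000000000000000000000000000000000000000000000000000000000000000000000000000000000000 := rS 0x192 (k2 c5187 c17674 k0) (by decide +kernel)
def c17716 : PP 9 3 T 0x400000000000000001000000000000000000000000000000000000000000000000000010000000000000000000500000000000000000000000000000 := rS 0x192 (k2 c5668 c17674 k0) (by decide +kernel)
def c17717 : PP 9 3 T 0x10040000000000000000000000000000000100000000000000008000000000002000000000000000000000000000000000000000 := rS 0x7a (k2 c5842 c10441 k0) (by decide +kernel)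
def c17718 : PP 9 3 T 0x1001400000000000000011000000000000000000000000000000000000000000000000000000000000000000000000000000000000000000000000000000 := rS 0x192 (k2 c5185 c17674 k0) (by decide +kernel)
def c17719 : PP 9 3 T 0x2020000000000000800000000000000000000000000000000000000000000000000000000000000000000040000000000000000400 := rS 0xe (k2 c6201 c5369 k0) (by decide +kernel)
def c17720 : PP 9 3 T 0x80000000000a0000000000000000000000000000000000000000000000000000100000000000000000400000000000000000000000000000000000000 := rS 0xe2 (k2 c6661 c5466 k0) (by decide +kernel)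
def c17721 : PP 9 3 T 0x4000000000000000000000000000000000000000000008000000000000000000000000000000000040000000000000000000000000000000002002000000 := rS 0x28 (k2 c6512 c185 k0) (by decide +kernel)
def c17722 : PP 9 3 T 0x101000000000000000000000000000000000000000002000000000000008000000000040000000000000000000000000000000000000000 := rS 0x1f0 (k2 c6303 c5514 k0) (by decide +kernel)
def c17723 : PP 9 3 T 0x100000000000000000000400000040000000000000000000000000000000000000000000000000000000000000080000000100000000000 := rS 0x1f4 (k2 c7988 c5630 k0) (by decide +kernel)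
def c17724 : PP 9 3 T 0x100000000000000000000400000000000000000000000000000000000000000020000000000000000000000000000000000042000000000 := rS 0x1f4 (k2 c7196 c5632 k0) (by decide +kernel)
def c17725 : PP 9 3 T 0x1000000000011000000000000000000000000000000000000000000000000000000000000000000000400000000000000000000000000000080000000 := rS 0x14a (k2 c7600 c5517 k0) (by decide +kernel)
def c17726 : PP 9 3 T 0x88000000000000000000000000000008000200000000000000000000000000000000000004000000000000000000000000000000000000 := rS 0x16 (k2 c7843 c5433 k0) (by decide +kernel)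
def c17727 : PP 9 3 T 0x5400000000000000000000000000000000000000000000000000000000000000000220000000000000000000000000000000000000000000000000000 := rS 0x1ec (k2 c7428 c5501 k0) (by decide +kernel)
def c17728 : PP 9 3 T 0x22000000000000000000080000000000000000000004000000000000000000000000000000000000040000000000000000000000 := rS 0xf4 (k2 c8145 c5519 k0) (by decide +kernel)
def c17729 : PP 9 3 T 0x80000000000000000000000000000008000000000000000000000000000000000000000000020000000110000000000000000000000000 := rS 0x11c (k2 c8411 c12630 k0) (by decide +kernel)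
def c17730 : PP 9 3 T 0x1000000000000000000000000000000000000040000000100000000000000000000000000000000000008000000000000000000000400000000000000 := rS 0x1b0 (k2 c9007 c5444 k0) (by decide +kernel)
def c17731 : PP 9 3 T 0xa0000220000000000000000000000000000000000000000000000000000000000000000000000000040000000000000000000000000000 := rS 0x110 (k2 c8114 c5411 k0) (by decide +kernel)
def c17732 : PP 9 3 T 0x1000000000000014000000000000000000000000000000000000000000000000000000000000000004000000000000000020000000000000000000000000 := rS 0x198 (k2 c8720 c5481 k0) (by decide +kernel)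
def c17733 : PP 9 3 T 0x10000010000000000000000000000000000000000100000000000000000000002000000000000000000400000000000000000000000000 := rS 0x1b6 (k2 c8714 c5422 k0) (by decide +kernel)
def c17734 : PP 9 3 T 0x100000000000000000000000000000000000000000000000000800000000000000000000150 := rS 0x192 (k2 c8302 c5439 k0) (by decide +kernel)
def c17735 : PP 9 3 T 0x40000100000000000000000000000000000000000000000000000000000000000000000000000080050000000000000000000000000000 := rS 0x192 (k2 c8379 c5358 k0) (by decide +kernel)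
def c17736 : PP 9 3 T 0x82000000000000000000000000000200000044000000000000000000000000000 := rS 0xfe (k2 c9226 c211 k0) (by decide +kernel)
def c17737 : PP 9 3 T 0x5000000000000000000000000000000000000000000000000000000000000010000000000000000000000000000000000000000000080000000000008000 := rS 0x13a (k2 c10440 c5478 k0) (by decide +kernel)
def c17738 : PP 9 3 T 0x100000000000200000800000000000002000004000000000000000000000000000000 := rS 0xe2 (k2 c9305 c208 k0) (by decide +kernel)
def c17739 : PP 9 3 T 0x400000000000000001040000000000000000000000000000000000000000000000020000000000000000000000100000000000000000000000000000 := rS 0x1ec (k2 c10484 c5501 k0) (by decide +kernel)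
def c17740 : PP 9 3 T 0x4000000000000000000000000000000000000000000004000100200000000000000000000000000000000000000000000000000000000020000000000000 := rS 0x158 (k2 c10024 c5341 k0) (by decide +kernel)
def c17741 : PP 9 3 T 0x10040000000000000000000000000100000000000000000000000000000000000000000008000000000000000000000000000040 := rS 0x1e0 (k2 c9301 c5457 k0) (by decide +kernel)
def c17742 : PP 9 3 T 0x20000000400000000000000000000000000000000000000000000080000000000000000000000000200000000020000000 := rS 0xf0 (k2 c9324 c118 k0) (by decide +kernel)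
def c17743 : PP 9 3 T 0x2000800000000000000000000000000000000000080000000200000000000000000000000000000000000000000000000000000000000040000000000000 := rS 0xf6 (k2 c10382 c5498 k0) (by decide +kernel)
def c17744 : PP 9 3 T 0x82000200000000000000000000000000000000000000000000000000000000000000000000000040000000400000000000000000000000 := rS 0x72 (k2 c10494 c5419 k0) (by decide +kernel)
def c17745 : PP 9 3 T 0x200000200000000000000020000000000000000000400000000040000000000000000000000 := rS 0x19c (k2 c9576 c5371 k0) (by decide +kernel)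
def c17746 : PP 9 3 T 0x10040000000000000000000000000000000000002000000000000000000000000000000000800002000000000000000000000000 := rS 0xc9 (k2 c11001 c725 k0) (by decide +kernel)
def c17747 : PP 9 3 T 0x800000000000000020080000000000000000000000000000000000000000000000010000000000000000001000000000000000000000000000000000 := rS 0xce (k2 c12425 c5453 k0) (by decide +kernel)
def c17748 : PP 9 3 T 0x82000000000000000000000000000000000000000000008000000100000000000000000000000000000000000000000000000000000400000000000000000 := rS 0x4a (k2 c11908 c5546 k0) (by decide +kernel)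
def c17749 : PP 9 3 T 0x40000100000000000000000000000000000000000000000000000000000000000000000000000000040000000000000000000000010002 := rS 0x24 (k2 c11969 c9666 k0) (by decide +kernel)
def c17750 : PP 9 3 T 0x100080000000000000000000000000200000000000000000000000000000000008000000000000000000000000000000000000020 := rS 0x10 (k2 c11582 c15516 k0) (by decide +kernel)
def c17751 : PP 9 3 T 0x1000000000000000100040000000000000000000000000000000000000000000800000000000000000000000020000000000000000000000000000000 := rS 0x1e2 (k2 c11106 c5466 k0) (by decide +kernel)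
def c17752 : PP 9 3 T 0x10000010000000000000000000000000000000000000000000000000000000002000000001000000000400000000000000000000000000 := rS 0x1b6 (k2 c12173 c5422 k0) (by decide +kernel)
def c17753 : PP 9 3 T 0x41001000000000000000000000000000000000000000000000000000000008000000000002000000000000000000000000000000000000000000000000000 := rS 0x1ee (k2 c12097 c5586 k0) (by decide +kernel)
def c17754 : PP 9 3 T 0xa000000000000000200000000000000000000000000000000000000000000000000000000000000000001000001000000000000000000000000000000 := rS 0x7a (k2 c12577 c5457 k0) (by decide +kernel)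
def c17755 : PP 9 3 T 0x1000000000000000000040000000100000000000000000000000000000000000000000000000010000000000000000000000010 := rS 0x13b (k2 c13979 c17162 k0) (by decide +kernel)
def c17756 : PP 9 3 T 0xa000000000000000000000000000000000200000000000000000000000000000000000000000000000000000000000010000004000000 := rS 0xf0 (k2 c14275 c5401 k0) (by decide +kernel)
def c17757 : PP 9 3 T 0x2000000000000020000000000000000000000000000008000000000000000000000000000000000000000000000000000000000000000000000050000000 := rS 0xf0 (k2 c14062 c5323 k0) (by decide +kernel)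
def c17758 : PP 9 3 T 0x82000000000000000000000200000000000200000000000000000000000000000000000000000000000000000000000000000001000000 := rS 0x28 (k2 c14052 c5339 k0) (by decide +kernel)
def c17759 : PP 9 3 T 0x10000000000000000000000000000000000000002000000000000000000000000000000000000000000000000002000000004400000000 := rS 0x14a (k2 c13085 c5334 k0) (by decide +kernel)
def c17760 : PP 9 3 T 0x82000000000000008000000000000000000000000000000000000000000000000000000000000000500000000000000000000000000000000000000000000 := rS 0x100 (k2 c14538 c5592 k0) (by decide +kernel)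
def c17761 : PP 9 3 T 0x220002020000000100000000000000000000000000000000000000000000000000000000000000000000000000000000000000000000000 := rS 0x110 (k2 c14315 c5411 k0) (by decide +kernel)
def c17762 : PP 9 3 T 0x2000000000000000020000000000000000000000000000200000000000000000000000000000000000000000000000000000000000000000000000500 := rS 0xc (k2 c16865 c5522 k0) (by decide +kernel)
def c17763 : PP 9 3 T 0x2000000000000008000000000000000000000000080000000000000000000000000000000000000000000000000000000000000000000000000104000000 := rS 0xf0 (k2 c15058 c5401 k0) (by decide +kernel)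
def c17764 : PP 9 3 T 0x2000000000000000000000000000000000100000000000000000000000000000000000000000000000020000000000000000000000048 := rS 0x198 (k2 c17187 c5481 k0) (by decide +kernel)
def c17765 : PP 9 3 T 0x400000000000000140000000000000000000000000000000000000000000000000000000000000500000000000000000000000000000000000002000000000 := rS 0x158 (k2 c5310 c5559 k0) (by decide +kernel)
def c17766 : PP 9 3 T 0x80000000000000022000000000000000000000000000000000000000000000000000040000400000000010000000000000000000000000000000000000000 := rS 0xe2 (k2 c5271 c5549 k0) (by decide +kernel)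
def c17767 : PP 9 3 T 0x8000800000000000000200000000000000000000000000000000000000000000000000100000000000000000000040100000000000000000000000000000 := rS 0x8c (k2 c5725 c5505 k0) (by decide +kernel)
def c17768 : PP 9 3 T 0x10400000000101000000000000000000000000000000000000000000000000000008000000000000040000000000000000000000000000000000000000 := rS 0x1f0 (k2 c5272 c5627 k0) (by decide +kernel)
def c17769 : PP 9 3 T 0x40000000000000050000010000000000000000000000000000000001000000000000000000000000000000000000000000000000000000000002000000000 := rS 0xb2 (k2 c5803 c17675 k0) (by decide +kernel)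
def c17770 : PP 9 3 T 0x20080000000000000000000000000200000000000000000000000000000000000000000000000000000000000440000000000400 := rS 0xe (k2 c6200 c5369 k0) (by decide +kernel)
def c17771 : PP 9 3 T 0x80002000000000088000000000000000000000000000000000000000000000000000000000000000004000100000000000000000000000000000000000000 := rS 0x114 (k2 c7210 c5590 k0) (by decide +kernel)
def c17772 : PP 9 3 T 0x2000000000080000000000000000000000000000000000000000000000000000000000000000000010000000000000000000000800040000080000000 := rS 0x114 (k2 c6350 c15434 k0) (by decide +kernel)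
def c17773 : PP 9 3 T 0x20000000000008000000000040000000000000000000000000000000000000000004000100000000040000000000000000000000000000000000000000 := rS 0xd8 (k2 c6451 c5621 k0) (by decide +kernel)
def c17774 : PP 9 3 T 0x100000000000000110000000000000000000000000000000000000000000000000000000000000014000000000000000000000000000000000080000000000 := rS 0x166 (k2 c6873 c5601 k0) (by decide +kernel)
def c17775 : PP 9 3 T 0x100000000000000110000000000000000000000000000000000000000000000000000000000000050000000000000000000000000000000000000080000000 := rS 0x14a (k2 c6256 c5517 k0) (by decide +kernel)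
def c17776 : PP 9 3 T 0x800008000000000000000000000000000000800000000000000204000000000000000000000000000000000000000000000000000000004000000000000000 := rS 0xec (k2 c6330 c5467 k0) (by decide +kernel)
def c17777 : PP 9 3 T 0x800008000000000080000000000000000000000000000000000000000000000000000000000000000000540000000000000000000000000000000000000000 := rS 0xbe (k2 c7008 c5596 k0) (by decide +kernel)
def c17778 : PP 9 3 T 0x8000000000288000000000000000000000000000000000000000008000000400000000000000000000000000000000000000000000000000000000000 := rS 0x186 (k2 c7886 c5429 k0) (by decide +kernel)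
def c17779 : PP 9 3 T 0x200020000000000000000000080100000000000000000000000000000000000000010000000000000000000000000004000000000000000000000000000000 := rS 0x17a (k2 c8870 c5631 k0) (by decide +kernel)
def c17780 : PP 9 3 T 0x800000000000000000000000000000000040000000000008000000100004000000000000000000000000000000000000000000000400000000000000000000 := rS 0x122 (k2 c8941 c5594 k0) (by decide +kernel)
def c17781 : PP 9 3 T 0x8008000000000000000000080000000000000000000000000000000000000000000000400010000000000000010000000000000000000000000000000000 := rS 0x8a (k2 c8136 c5583 k0) (by decide +kernel)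
def c17782 : PP 9 3 T 0x100000000000000000000000000000000002000000000000000000000000000000000000000000000000000400000000000000821 := rS 0x10 (k2 c8636 c15516 k0) (by decide +kernel)
def c17783 : PP 9 3 T 0x2000000000000000200000000000000000000000000000000000000000000000000100000000000040000100000000000040000 := rS 0x88 (k2 c9657 c5484 k0) (by decide +kernel)
def c17784 : PP 9 3 T 0x4000000000000000000000000000000000000100000000000000100000000020000000000000000000000000000000000000000002100000000000000000 := rS 0x1f2 (k2 c10234 c5588 k0) (by decide +kernel)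
def c17785 : PP 9 3 T 0x8000000000000000000000000000000000000000000000200000000000000000000000000000000000000000010000000000000000000000000050100 := rS 0x3c (k2 c12668 c5436 k0) (by decide +kernel)
def c17786 : PP 9 3 T 0x2000000000000000000000000000000000000080000000000001000000000000000000204400000000000000000000000000000 := rS 0x86 (k2 c10410 c10690 k0) (by decide +kernel)
def c17787 : PP 9 3 T 0x100000000000000000000000000000000000000000000000000000000000080000000000000000000080000000000000008010001 := rS 0xf0 (k2 c10406 c117 k0) (by decide +kernel)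
def c17788 : PP 9 3 T 0x20000000000000000000000008000000000000 := rS 0xe8083059cc77f63b3 (k8 c5488 c5446 c5492 c17688 c5480 c2013 c9701 c263 (k1 c2012 k0)) (by decide +kernel)
def c17789 : PP 9 3 T 0x100000000000000000000000000000000000000020000000020000000000000000000000000 := rS 0x1247562270ee4c8aaf34ab453b67884487a10086e7599 (k8 c5481 c17162 c5475 c1056 c5567 c5478 c2749 c9695 (k8 c17660 c5417 c5573 c124 c2836 c5326 c17674 c8808 (k4 c5570 c5421 c12630 c3582 (k1 c12632 k0)))) (by decide +kernel)
def c17790 : PP 9 3 T 0x4000001000000000000000000000000000000000000000000000000000000000000000000000000000100000000000000000000000002 := rS 0x373a (k2 c17162 c5475 (k1 c12887 k0)) (by decide +kernel)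
def c17791 : PP 9 3 T 0x10000010000000000000000000000000000000000100000000000000000000000000000000000000000000000000000000000000000002 := rS 0x0 (k1 c17712 k0) (by decide +kernel)
def c17792 : PP 9 3 T 0x20000000020000000000000000000000000 := rS 0x1df0e094021b22abcd2ad14bc7635809810e2b11384487a10ce4e51b38eceb6d99 (k8 c5481 c17660 c17162 c12630 c17706 c17789 c17674 c6205 (k8 c5567 c5478 c2749 c5570 c5421 c5571 c8464 c317 (k8 c12617 c17758 c9695 c5417 c5573 c124 c2836 c5326 (k4 c5475 c1056 c12632 c3582 (k2 c9172 c17688 k0))))) (by decide +kernel)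
def c17793 : PP 9 3 T 0x80000000000000400000000002000000000010 := rS 0x185802f0 (k4 c1472 c9696 c1471 c1107 (k1 c5642 k0)) (by decide +kernel)
def c17794 : PP 9 3 T 0x4000000000000000000000000000000000000000000000000000000000000000000000000000000000000000000000000000000000000000200000a0 := rS 0x3626062e6325b3 (k4 c5486 c8467 c17674 c5364 (k2 c713 c5445 (k1 c10972 k0))) (by decide +kernel)
def c17795 : PP 9 3 T 0x400000000005000000000000000000000000000000000000000000000000000000000000000000000040000000000000800000000000000000000000 := rS 0x953ab24cb98 (k4 c17688 c5481 c1117 c5482 (k2 c1518 c5678 k0)) (by decide +kernel)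
def c17796 : PP 9 3 T 0x200000000000000000000000 := rS 0x27799 (k2 c5361 c5321 (k1 c17162 k0)) (by decide +kernel)
def c17797 : PP 9 3 T 0x2200000000000000800000000000000000000000000000000000000000000000000000000000000000001400000000000000010000 := rS 0x11e (k2 c9413 c5385 k0) (by decide +kernel)
def c17798 : PP 9 3 T 0x100000000000000002000000000000000000000000000000000000000000800000000000000000000052000 := rS 0x110 (k2 c10439 c159 k0) (by decide +kernel)
def c17799 : PP 9 3 T 0x10000000000000000000000000000000000000080000000000080040000000000000000081000000000000000000000000000000 := rS 0xd6 (k2 c10119 c205 k0) (by decide +kernel)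
def c17800 : PP 9 3 T 0x40000000000000000000000000000000000000000000000000000001000000000000000000000000400000208000000000000000000008000000000000000 := rS 0x18 (k2 c10650 c83 k0) (by decide +kernel)
def c17801 : PP 9 3 T 0x220000000000000000000000000000000000000000000008000000000000000040000000000000000000000000000000000000000050000000000000000000 := rS 0x108 (k2 c9451 c5556 k0) (by decide +kernel)
def c17802 : PP 9 3 T 0x20000000000000000000000000080008000000000000000000000000000000000000000000000000000420000000000000000000000010 := rS 0xf0 (k2 c12375 c5323 k0) (by decide +kernel)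
def c17803 : PP 9 3 T 0x8000000000000000000000000000000000000000008000000100000000000000000100000000000000000000000000000000000001004000000000000 := rS 0xd6 (k2 c12314 c5465 k0) (by decide +kernel)
def c17804 : PP 9 3 T 0x20000000000000000000000000080008000000000000001001000000000000000000000000000000000000000000000000000010000000 := rS 0x22 (k2 c12546 c5409 k0) (by decide +kernel)
def c17805 : PP 9 3 T 0x4000000000000000000000000000000000000000000000000000000000000000005000000000008800000000000000000000200000000 := rS 0x1b4 (k2 c11421 c5528 k0) (by decide +kernel)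
def c17806 : PP 9 3 T 0x1000000000000000000000000000000000000000000000000000000000001000000000000000000001000000000000000080000000000000000000002020 := rS 0x2 (k2 c10700 c54 k0) (by decide +kernel)
def c17807 : PP 9 3 T 0x8000100000000000000000200000008000000000000000000000000000000000000000000000000040000000000000000000000000002 := rS 0x24 (k2 c13898 c13900 k0) (by decide +kernel)
def c17808 : PP 9 3 T 0x80000000000000000000000000000000000000000000008000000100000004040000000000000000000000000000000000000000000400000000000000000 := rS 0x48 (k2 c12736 c5588 k0) (by decide +kernel)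
def c17809 : PP 9 3 T 0x82000000000000000000200000000000000000000000000000000000000000000000000000000000000000000041400000000000000000000000000000000 := rS 0x112 (k2 c12913 c5547 k0) (by decide +kernel)
def c17810 : PP 9 3 T 0x14000000000000000000000000000000000000000000001000000000000000000000000000002000000010000000000000000000000400 := rS 0x198 (k2 c13370 c5365 k0) (by decide +kernel)
def c17811 : PP 9 3 T 0x200000000000000000200000000000200000000000000000000000000000000000001000008000000000000000400000000000000 := rS 0x56 (k2 c14795 c5313 k0) (by decide +kernel)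
def c17812 : PP 9 3 T 0x88000000000000000000000200000000000000000000000001000000000000000000000000000000000000000000100000000004000000 := rS 0x28 (k2 c14226 c5339 k0) (by decide +kernel)
def c17813 : PP 9 3 T 0x4000000000000000100000000000000000100000000000100000000000000000000000000000000000000000000000000000000004000000000010000 := rS 0x193 (k2 c13127 c5216 k0) (by decide +kernel)
def c17814 : PP 9 3 T 0x2000000000000000000000000000000000000000000000000000000000000000000000000000020000000000000005000000000400008 := rS 0x0 (k2 c13946 c28 k0) (by decide +kernel)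
def c17815 : PP 9 3 T 0x82000000000000000000000000000000000200000000000000000000000000000000000000000000000000000000011000001000000000 := rS 0x18 (k2 c13340 c5393 k0) (by decide +kernel)
def c17816 : PP 9 3 T 0x8000000000000008000000000000000000000200000000000000000000000001000000000000000000000000000000000000000000000000004004000000 := rS 0x24 (k2 c14401 c5559 k0) (by decide +kernel)
def c17817 : PP 9 3 T 0x800000000000000208000000000000000000000000000000000000000014000000000000000000000100000000000000000000000000000000000000000000 := rS 0xbe (k2 c14877 c5431 k0) (by decide +kernel)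
def c17818 : PP 9 3 T 0x80000000000000000000220000000000000000000000000000000000000000000000000000000000000000000000000000000000000400000000000010400 := rS 0xe (k2 c16745 c5369 k0) (by decide +kernel)
def c17819 : PP 9 3 T 0x8000000000000000000000000000000000000000000008000200000000000000000000040000000000000000000000000000000000114000000000000000 := rS 0xd6 (k2 c5891 c5507 k0) (by decide +kernel)
def c17820 : PP 9 3 T 0xa000000000000000000000000000000000000000000000000000000540400000100000000000000000000000000000000000000000000 := rS 0xac (k2 c5991 c5490 k0) (by decide +kernel)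
def c17821 : PP 9 3 T 0x220000000000000008000000000000000000000000000000000000000001000000000000000000014004000000000000000000000000000000000000000000 := rS 0xa8 (k2 c5938 c5489 k0) (by decide +kernel)
def c17822 : PP 9 3 T 0x1000000000000000000000000000000000100040000000100000000000000000000000000000000000000000000000000000008000140000000000000 := rS 0x1f2 (k2 c6327 c5546 k0) (by decide +kernel)
def c17823 : PP 9 3 T 0x200002000000000000000000000000000000800000000008000000000000000040000000000000000000000000000000000000000040000040000000000000 := rS 0x1e4 (k2 c6587 c6333 k0) (by decide +kernel)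
def c17824 : PP 9 3 T 0x2000000000000000000000000000000040000000000008000000000001000000000000000000000000000000000000000000000150000000000000000000 := rS 0x106 (k2 c6276 c5503 k0) (by decide +kernel)
def c17825 : PP 9 3 T 0x2000000000008000000000000000000000000080008000000000000000000000000004000000004000000000000000000000000000000000001000000 := rS 0xf6 (k2 c7058 c5333 k0) (by decide +kernel)
def c17826 : PP 9 3 T 0x82000000000000000000000000000000000000000000000000540000000000400000400000000000000000000000000000000000000000 := rS 0xa4 (k2 c7220 c5399 k0) (by decide +kernel)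
def c17827 : PP 9 3 T 0x200000000000000000000000000000000000000000000000000200000000000000001000000005000000000000000000000000000010000400000000000000 := rS 0x36 (k2 c7375 c5435 k0) (by decide +kernel)
def c17828 : PP 9 3 T 0xa0000000000000000000000000080000000000000000000000000000000000000000000000000000000000000004000000011400000000 := rS 0x46 (k2 c9048 c5520 k0) (by decide +kernel)
def c17829 : PP 9 3 T 0x8000800000000000000000000000000000000000000000000000000000000000000000000000000000000000010150100000000000000000000000000000 := rS 0x8c (k2 c8993 c5505 k0) (by decide +kernel)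
def c17830 : PP 9 3 T 0x1000000000000004000000000000000000000000000000000000000000000000000000000200000001000008000000000000000000000080000004000000 := rS 0x18 (k2 c8495 c83 k0) (by decide +kernel)
def c17831 : PP 9 3 T 0x82000200000000000000000000000000000000000000000000000000000000000000000000000050000004400000000000000000000000 := rS 0x72 (k2 c8833 c5419 k0) (by decide +kernel)
def c17832 : PP 9 3 T 0x800000000080000000000000000000000000000000000000000000000000000000400400000040010010000000000000000000000000000000000000 := rS 0xac (k2 c9031 c5573 k0) (by decide +kernel)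
def c17833 : PP 9 3 T 0xa00000000000000000000000000000000000000000000000000000000000000000000000000000000000000000000000000000000415400000000000000000 := rS 0x54 (k2 c8101 c5636 k0) (by decide +kernel)
def c17834 : PP 9 3 T 0x20080000000000000000000000000000000000000000000000015010000000000000001000000000000000000000000000000000 := rS 0x76 (k2 c8127 c5356 k0) (by decide +kernel)
def c17835 : PP 9 3 T 0x40000000000000040000000000000000000000000000000000000000000000000000000000000001400000000000000000000000000000000008000000820 := rS 0x0 (k2 c8402 c53 k0) (by decide +kernel)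
def c17836 : PP 9 3 T 0x8000000000000000000000000000000000200000000000000000000000000000000000000000000000000000000008001000000000000000001400010 := rS 0xca (k2 c14214 c5464 k0) (by decide +kernel)
def c17837 : PP 9 3 T 0x102000000000000000000000000000000000000000000000000000000000000000000100000000000040000100000000000050000 := rS 0x88 (k2 c12660 c5484 k0) (by decide +kernel)
def c17838 : PP 9 3 T 0x20000002000000000000000000000000000000000000001000000000000000000000000000004000000440000000000000000000000001 := rS 0x82 (k2 c10430 c5483 k0) (by decide +kernel)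
def c17839 : PP 9 3 T 0x5000000000041000000000000000000000000000000000000000000000000000200000400000000004000000000000000000000000000000000000000 := rS 0x1f2 (k2 c9396 c5591 k0) (by decide +kernel)
def c17840 : PP 9 3 T 0x40000000080000000000000200000000000200000000000000000000000000000000000000000000044000000000000000000000000002 := rS 0x7e (k2 c9806 c5358 k0) (by decide +kernel)
def c17841 : PP 9 3 T 0x2000000000000080000000000000000000000000000000000000001000040000000000000000000141000000000000000000000000000000000000000000 := rS 0xaa (k2 c10275 c5500 k0) (by decide +kernel)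
def c17842 : PP 9 3 T 0x20080000000000000000000000000000000000000000000000000000000000001500000000001001000000000000000000000000 := rS 0x6a (k2 c10443 c5523 k0) (by decide +kernel)
def c17843 : PP 9 3 T 0x200000000000000000010000080500000000000000000000000000000000000000001000000000000000000000000004000000000000000000000000000000 := rS 0xe6 (k2 c9462 c5633 k0) (by decide +kernel)
def c17844 : PP 9 3 T 0x415000000000000000000000000000000000000000000000000000000050020000000000000000000000000000000000000000000000000000000000000000 := rS 0x1f2 (k2 c9460 c5592 k0) (by decide +kernel)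
def c17845 : PP 9 3 T 0x20000000000000000010000080000000000000000000000000000000000000400000005000010000000000000000000000000000000000000000000000000 := rS 0x17e (k2 c9458 c5511 k0) (by decide +kernel)
def c17846 : PP 9 3 T 0x20000000000000000000000000000008000000000000000040000000000000000000000000000800000100000000000000000040000008 := rS 0x22 (k2 c9812 c5409 k0) (by decide +kernel)
def c17847 : PP 9 3 T 0x800000000000000000000000000000000000000000000200000000000054000000010000000000000000000000000000000000000400000000000000 := rS 0x36 (k2 c9979 c5435 k0) (by decide +kernel)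
def c17848 : PP 9 3 T 0x8000000000000000000000000000000000000000008000000100000020000000000001000000000000000000000000000000000400800000000000000 := rS 0x3e (k2 c10499 c5576 k0) (by decide +kernel)
def c17849 : PP 9 3 T 0x2000000000050000020080000000000000100000000000100000000000000000000000000000000000000000000000000000000000000000000000000 := rS 0x1a1 (k2 c12084 c5212 k0) (by decide +kernel)
def c17850 : PP 9 3 T 0x20000000000000000000000000000008000000000000001040000000000000000000000000000000000420000000000000000000000010 := rS 0xf0 (k2 c12418 c5323 k0) (by decide +kernel)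
def c17851 : PP 9 3 T 0x20080000000000000000000000000000000000000000000000000000000000000500000000000400000000000080000000000002 := rS 0x92 (k2 c11854 c1567 k0) (by decide +kernel)
def c17852 : PP 9 3 T 0x2000000000000000120080000000000000000000000000000000000000000000000000000001000008000000000040000000000000000000000000000 := rS 0x1b6 (k2 c11608 c5572 k0) (by decide +kernel)
def c17853 : PP 9 3 T 0xa0000100000000000000000000080000000000000400000000000000000000000000000000000000000000000000000000000000010001 := rS 0x22 (k2 c13040 c5409 k0) (by decide +kernel)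
def c17854 : PP 9 3 T 0x8000000000000000020000000000000000000000000000000000400000000000100000040000000000000000110000000000000000000000000000000 := rS 0xe2 (k2 c14235 c5466 k0) (by decide +kernel)
def c17855 : PP 9 3 T 0x200000000000008a000000000000000000000000000000000000000000040000000000500000000000000000000000000000000000000000000000000000 := rS 0xfe (k2 c14706 c5544 k0) (by decide +kernel)
def c17856 : PP 9 3 T 0x20000200000000000000000000000000000000000000000000000000000000001400000001000000010400000000000000000000000000 := rS 0x72 (k2 c13067 c5379 k0) (by decide +kernel)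
def c17857 : PP 9 3 T 0x12000000000000000000000000000000000000000000000000000000000000000000000000000004000800000000000000000000400210 := rS 0x18 (k2 c13641 c5393 k0) (by decide +kernel)
def c17858 : PP 9 3 T 0x82000000000000000000000200000000000000000000000000000000000000000000000000000000000000000000004000010001400000 := rS 0x24 (k2 c13756 c5559 k0) (by decide +kernel)
def c17859 : PP 9 3 T 0x8000000000000000000000000000000000200000000000100000000000000000000000000000000000004000000000000000000000000004001400000 := rS 0x28 (k2 c13634 c5339 k0) (by decide +kernel)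
def c17860 : PP 9 3 T 0x8000000000000000000000000000000000000000000008000000000000000000000000040000000000000000000000000000000000015004000000000000 := rS 0x11c (k2 c13298 c5504 k0) (by decide +kernel)
def c17861 : PP 9 3 T 0x80000000000000000000020000000000000000000000000000000000000000000000040000040000000000000000150000000000000000000000000000000 := rS 0x112 (k2 c14109 c5547 k0) (by decide +kernel)
def c17862 : PP 9 3 T 0x80000000000000000000000000000000000000000000000000200000000000000000440000000000000000000000000000000000000410400000000000000 := rS 0x4a (k2 c14209 c5546 k0) (by decide +kernel)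
def c17863 : PP 9 3 T 0x80000000000000100000000000100000800000000000000000000000000000000000008000000000001000000000000010000 := rS 0x1a0 (k2 c13167 c5382 k0) (by decide +kernel)
def c17864 : PP 9 3 T 0x200000000000000000000800000000000000200000000000000000000000000000000100004000000000000000000000000400001000000 := rS 0xa2 (k2 c14686 c5614 k0) (by decide +kernel)
def c17865 : PP 9 3 T 0x100000000000000000000000000000040000000000000000002000000000000000000005200000000000200 := rS 0x128 (k2 c13552 c5317 k0) (by decide +kernel)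
def c17866 : PP 9 3 T 0x800000000000000000080000000000000000000000000000000000000000000000000000000000000010000000000151000000000000000000000000 := rS 0x96 (k2 c14615 c5452 k0) (by decide +kernel)
def c17867 : PP 9 3 T 0x220000000000010000000000000000000000000054000000000000000000000001000000000000000000000000000000000000000000000 := rS 0xbe (k2 c12774 c5431 k0) (by decide +kernel)
def c17868 : PP 9 3 T 0x80000000000000008000000000000000000000000000000000000001000004000000000000000000504000000000000000000000000000000000000000000 := rS 0x100 (k2 c14396 c5592 k0) (by decide +kernel)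
def c17869 : PP 9 3 T 0x110000000000000000100040000000000000000000000000000000000000000000000000000000000000000000000000000010401 := rS 0x1b7 (k2 c12922 c5212 k0) (by decide +kernel)
def c17870 : PP 9 3 T 0x800000000008000000000000000000000000000000000000000000000000000000010000000004001500000000000000000000000000000000000000 := rS 0xc8 (k2 c15342 c5494 k0) (by decide +kernel)
def c17871 : PP 9 3 T 0x40000000000000041000000000000000000000000000000000000000800000000000000000400000000004000000008000000000000000000000000000000 := rS 0x1e0 (k2 c17144 c5457 k0) (by decide +kernel)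
def c17872 : PP 9 3 T 0x40000000000000050000100000000000000000000000000000000001000000000000000000000000000000000000000050000000000000000000000000000 := rS 0x19d (k2 c15522 c5241 k0) (by decide +kernel)
def c17873 : PP 9 3 T 0x40000000000000000000000000000000000000000080000000100200000004000000000020000000000000000000000000000000000001000000000000000 := rS 0x1ec (k2 c16428 c5501 k0) (by decide +kernel)
def c17874 : PP 9 3 T 0x1000000040000000000000000000000000000002000000000000000000000000000000000000004000400400000000000000000000020 := rS 0x6 (k2 c15492 c8467 k0) (by decide +kernel)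
def c17875 : PP 9 3 T 0x2000800000000000000011000000000000000000000000000000000000000000000000000000000000000000000000000022000000000000000000004000 := rS 0x1b0 (k2 c17535 c5445 k0) (by decide +kernel)
def c17876 : PP 9 3 T 0x42000000000000000000000000000000000200000000000000000000000000000000000000000020040000000000000000000000040001 := rS 0x1a0 (k2 c17022 c5566 k0) (by decide +kernel)
def c17877 : PP 9 3 T 0x200080000000000000200080000000000000000000000000000000000000000000000000000000000000000000000000000005040 := rS 0x8 (k2 c16681 c5438 k0) (by decide +kernel)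
def c17878 : PP 9 3 T 0x10040000000000000000040000000100000400000000000000000000000000000000000100008000000000000000000000000000 := rS 0x1a0 (k2 c17651 c5565 k0) (by decide +kernel)
def c17879 : PP 9 3 T 0x8000000000000000200000000000000000000000000000000000000000000000000000000000000000000000000010002004000001000000000000044 := rS 0x7e (k2 c5279 c728 k0) (by decide +kernel)
def c17880 : PP 9 3 T 0x800000000000000200000000000000000000000000000000000000000000000000440000000000000000140040100000000000000000000000000000 := rS 0xd4 (k2 c5278 c5454 k0) (by decide +kernel)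
def c17881 : PP 9 3 T 0x8000000000000080040000000011000000000000000000000000000000000020500000000000000 := rS 0xd2 (k2 c5702 c2087 k0) (by decide +kernel)
def c17882 : PP 9 3 T 0x2005000000000088000000000000000000000000000000000000001000000000000100200000000000000000000000000000000000000000000000000000 := rS 0x100 (k2 c6631 c3072 k0) (by decide +kernel)
def c17883 : PP 9 3 T 0x8000000000000000000000000000008000000100000000000000000000000000100000000000000000000000000040000015000000000 := rS 0xac (k2 c6206 c5490 k0) (by decide +kernel)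
def c17884 : PP 9 3 T 0x40000000000000000000008000200100000000000000000000000000000000000020150000000000000000000000000000000 := rS 0xd6 (k2 c8328 c1984 k0) (by decide +kernel)
def c17885 : PP 9 3 T 0x80000000000000000000000000000008000000100000000000000000000000000040000000000000000000000000100000011010000000 := rS 0xb0 (k2 c8309 c5421 k0) (by decide +kernel)
def c17886 : PP 9 3 T 0x20000010040000000000000000040000000100000000000000000400000400001000000000000000000000000000000000000000000000 := rS 0xb2 (k2 c8677 c5532 k0) (by decide +kernel)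
def c17887 : PP 9 3 T 0x1000000000000004000000000000000000000000000000000000000000000000000000000000000001000000000000000020000000000000000404000820 := rS 0x0 (k2 c8316 c53 k0) (by decide +kernel)
def c17888 : PP 9 3 T 0x800000000000000000000000000000000000000000000000000000001000000000000000000005001100000800000000800000000000000000000000 := rS 0x66 (k2 c9113 c2007 k0) (by decide +kernel)
def c17889 : PP 9 3 T 0x2001800000000010000000000000000000000000000000000000000000000000000000000000000001001500000000000000000000000000000000000000 := rS 0xaa (k2 c9090 c5500 k0) (by decide +kernel)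
def c17890 : PP 9 3 T 0x200000000000000000000800000000000000000000000000000000000000000010000000000000000000000000050000000000540000000 := rS 0xba (k2 c8139 c5430 k0) (by decide +kernel)
def c17891 : PP 9 3 T 0x2000000000000002000000000000000000000000000000000100000000000010000000000000000000000050000000000000000000000400000080000000 := rS 0xaa (k2 c8815 c5500 k0) (by decide +kernel)
def c17892 : PP 9 3 T 0xa000000000000000000000000000000000000000000000000000000000000014000000000000000000000000000000000000000005440000000000000000 := rS 0x44 (k2 c8823 c5582 k0) (by decide +kernel)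
def c17893 : PP 9 3 T 0x2000000000000002000000000000000000000000000000000000000000000000000800040400000001000050000000000000000000000000000000000000 := rS 0xaa (k2 c8884 c5500 k0) (by decide +kernel)
def c17894 : PP 9 3 T 0x8000000000000000000000000000000000000000080000000000000000010014000000000000000000000000000000000000000004140000000000000000 := rS 0x46 (k2 c9072 c5520 k0) (by decide +kernel)
def c17895 : PP 9 3 T 0x8000002000000000000000000000000000000000000000000000000000000000100000000110000054000000000000000000000000000 := rS 0xac (k2 c9639 c5490 k0) (by decide +kernel)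
def c17896 : PP 9 3 T 0x200000000000000000200000000000000000000000000000000000000000000000000000050000000004000004000000000000140 := rS 0x3c (k2 c9764 c5560 k0) (by decide +kernel)
def c17897 : PP 9 3 T 0x2000000000000000000000000000200000000000000000000000000000000000000000000500000050000000010000000000100 := rS 0x56 (k2 c10209 c5313 k0) (by decide +kernel)
def c17898 : PP 9 3 T 0x8000000000000000000000000000000000000000000000200000000000000000000000000000000000000000010000000004000001000000000050100 := rS 0x7e (k2 c12669 c5577 k0) (by decide +kernel)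
def c17899 : PP 9 3 T 0x80000000000000200000000000000000000000000000000040010000000000000000110000000000000000020000000040000 := rS 0x7e (k2 c12671 c5358 k0) (by decide +kernel)
def c17900 : PP 9 3 T 0xa00000000000000000000000001100000000000000000000000000004400000000000000000000000000000001400000000000000000000000000000000000 := rS 0x126 (k2 c10602 c5637 k0) (by decide +kernel)
def c17901 : PP 9 3 T 0x8000000000000000000000000000000000000000200000000000000020000000000000000000000500014400000000000000000000000 := rS 0x66 (k2 c9572 c5487 k0) (by decide +kernel)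
def c17902 : PP 9 3 T 0x200000000000000000000000110000000004000005000000000048000 := rS 0xc6 (k2 c12679 c794 k0) (by decide +kernel)
def c17903 : PP 9 3 T 0x42000000000000000000010000000000000000000000000000000000000000000000000000000000000000000000000001010000000200000000000000802 := rS 0x84 (k2 c10377 c5541 k0) (by decide +kernel)
def c17904 : PP 9 3 T 0x2000000000000000000000000000000000200000000000001000000000000000000000040000000000000000000000011000014000000 := rS 0x18 (k2 c9240 c5393 k0) (by decide +kernel)
def c17905 : PP 9 3 T 0x51000100000000000000000000040000000100000000000000000000000000000000008004000000000000000000000000000000000000 := rS 0x193 (k2 c11814 c5209 k0) (by decide +kernel)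
def c17906 : PP 9 3 T 0x200000008000000000000000000000000000000000000000000150400000000000001000000000000008000 := rS 0x10 (k2 c12489 c5558 k0) (by decide +kernel)
def c17907 : PP 9 3 T 0x8000000000020000220080000000000000000040000000000000000000000000000000000000000000000000000000000000000000000000001000010 := rS 0x1f2 (k2 c12457 c17692 k0) (by decide +kernel)
def c17908 : PP 9 3 T 0x200000008000000000000000000000000000000000000000000140000020010010000000000000000000004 := rS 0x10 (k2 c12190 c5558 k0) (by decide +kernel)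
def c17909 : PP 9 3 T 0x200000020000401000000000000000000000000000100000000000000000000014000000000000000001000000000000000000000000000 := rS 0x17c (k2 c11785 c5427 k0) (by decide +kernel)
def c17910 : PP 9 3 T 0x8000000000000000000000000000000000200000000000000000000000100000000000004000000000000000000000014000004400000 := rS 0xf0 (k2 c14345 c5401 k0) (by decide +kernel)
def c17911 : PP 9 3 T 0x8000000000000001040000000000000000004000000000000000820000000000000000040000010 := rS 0xf0 (k2 c13009 c5323 k0) (by decide +kernel)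
def c17912 : PP 9 3 T 0x20000000000000000000000008000000000000014040000000000000000000000000020000000000000001400000000000000000 := rS 0x1a0 (k2 c14083 c5567 k0) (by decide +kernel)
def c17913 : PP 9 3 T 0x2000000000020000020080000000000000000000000000000000000000000000000000000000000000004000000000000000000000000000001400010 := rS 0x38 (k2 c14321 c5534 k0) (by decide +kernel)
def c17914 : PP 9 3 T 0x60000000000000000000000100000000000000000000000000000000000000000000000001000000000400000000000000004040000002 := rS 0x1a1 (k2 c13524 c5212 k0) (by decide +kernel)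
def c17915 : PP 9 3 T 0x800000000000000200000000000000000100000000000000000000000000000000000000000000000000040000100000000000004001000000000080 := rS 0x128 (k2 c13725 c5432 k0) (by decide +kernel)
def c17916 : PP 9 3 T 0x2000000000000000000020000000000000000000000000000000000000000000000000000000000001000000000000001550000000000000000000000000 := rS 0xfc (k2 c14747 c5542 k0) (by decide +kernel)
def c17917 : PP 9 3 T 0x2000000000000000000000000000000000200000000000000000000000000000000000000000000000800400000000400000440000010 := rS 0x18 (k2 c14035 c5393 k0) (by decide +kernel)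
def c17918 : PP 9 3 T 0x2000000000000000000000000000000000000000100000000000000000000000000000000000005001400000000000000000080000080 := rS 0x2 (k2 c13770 c1111 k0) (by decide +kernel)
def c17919 : PP 9 3 T 0x20000000000000000000080000000000000400000000000000000000000000000000400000000000000004000000000000051000 := rS 0xa (k2 c16875 c5516 k0) (by decide +kernel)
def c17920 : PP 9 3 T 0x4000000000002000000000000000000000000080000000000000000000000000500000000002000000000000000000000000000000000000100400000 := rS 0x92 (k2 c16331 c5444 k0) (by decide +kernel)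
def c17921 : PP 9 3 T 0x2000000000000000000000000000000000000001000000000000400000000001000001000000000000000000000000080002100000000 := rS 0x40 (k2 c17241 c1740 k0) (by decide +kernel)
def c17922 : PP 9 3 T 0x80000000000000000000020000000000000000000000000000000000000000000000000000000001400000000000000055000000000000000000000000000 := rS 0x6a (k2 c16289 c5523 k0) (by decide +kernel)
def c17923 : PP 9 3 T 0x2000000000000000000000000080000000000000000000000000000000000000000001100000000000000000000000100000500400000 := rS 0x18 (k2 c15623 c5393 k0) (by decide +kernel)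
def c17924 : PP 9 3 T 0x800000000000000000000000000000000000000008000000000000000000000000000000000000000000000000000080404000000004000000000060 := rS 0x58 (k2 c17430 c9442 k0) (by decide +kernel)
def c17925 : PP 9 3 T 0x11000110080000000000000000000000000200002000000000000000000000000000000000000000000000000000000000000000000020 := rS 0x10 (k2 c15511 c15516 k0) (by decide +kernel)
def c17926 : PP 9 3 T 0x20000000000000000000000000000000000800000000000000000100010000000000000000000000000000000000000000000001400140000000000000000 := rS 0x10a (k2 c16041 c5629 k0) (by decide +kernel)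
def c17927 : PP 9 3 T 0x4000000000021000000000000000000000000000000000200000000000000000000000000000000004000000000000000000008000000020040000000 := rS 0x1b6 (k2 c15922 c5417 k0) (by decide +kernel)
def c17928 : PP 9 3 T 0x100000000000040000000000021000000000004000010400008 := rS 0x198 (k2 c17534 c5481 k0) (by decide +kernel)
def c17929 : PP 9 3 T 0x9000021000000000000000000080000000000000000000000000000000000000008000000000000000020000000000000000000000008 := rS 0x1b4 (k2 c17379 c5413 k0) (by decide +kernel)
def c17930 : PP 9 3 T 0x8000000000000000000000000000000000000000000000000000000000000000000000000000000000000000010000000004000001000000000050140 := rS 0x7e (k2 c15669 c5577 k0) (by decide +kernel)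
def c17931 : PP 9 3 T 0x80000000000000020000000000000000000000000000000000000000000000000000000000000000000000000000000000000000001400000015040000000 := rS 0x22 (k2 c17139 c5409 k0) (by decide +kernel)
def c17932 : PP 9 3 T 0x80000000000000000000000000000000400000000000540000000000000000001400104000000000000000000000000000000 := rS 0x7c (k2 c5972 c5442 k0) (by decide +kernel)
def c17933 : PP 9 3 T 0x800000000000000000100000000000000000000000000000000204000000000000040000000004000000000000000000000000000400014000000000000000 := rS 0xec (k2 c5699 c5639 k0) (by decide +kernel)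
def c17934 : PP 9 3 T 0x200000000000000000540000000000000000000000000000000000005410400000000000000 := rS 0x3e (k2 c6010 c5318 k0) (by decide +kernel)
def c17935 : PP 9 3 T 0x22000000000000000000000000000000000000000000009000000440010400000000010000000000000000000000000000000000000000 := rS 0x114 (k2 c5273 c5414 k0) (by decide +kernel)
def c17936 : PP 9 3 T 0x200002000010004000000000000000000000000000000000500000000000000000000000000000000000150000000000000000000000000 := rS 0x17c (k2 c5289 c5387 k0) (by decide +kernel)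
def c17937 : PP 9 3 T 0x2000000000000100000000000000000800000000000000000000000000000014000000001000000000000000000000000000140000040000000000000 := rS 0x38 (k2 c6262 c5534 k0) (by decide +kernel)
def c17938 : PP 9 3 T 0x2020000400050000000000000000000000000000000000015000000040000000000000000000000000000000000000000000000000 := rS 0x1a8 (k2 c6902 c5388 k0) (by decide +kernel)
def c17939 : PP 9 3 T 0x80100000000000000000000000000000000000000000000000440000000000400000500000000000000000000000002000000001000000 := rS 0x128 (k2 c6976 c5436 k0) (by decide +kernel)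
def c17940 : PP 9 3 T 0x80000000000000000000020001400040000000000000000000050044000000000000000000000000000000000000000000000000000000000000000000000 := rS 0x188 (k2 c8076 c5527 k0) (by decide +kernel)
def c17941 : PP 9 3 T 0x80000000000000000000000000080000000000001000000000000000000000000400000000000000000000000004000000011500000000 := rS 0x46 (k2 c8534 c5520 k0) (by decide +kernel)
def c17942 : PP 9 3 T 0x800000000000000000040000000000000000000008000200000000000000000000000000000000000000020100000000000000104000000000000100 := rS 0x11c (k2 c9173 c12630 k0) (by decide +kernel)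
def c17943 : PP 9 3 T 0x82000000000000000000000100000000000000000000000000000000000000000000000000000050000004400000000000000000040020 := rS 0x72 (k2 c12646 c5419 k0) (by decide +kernel)
def c17944 : PP 9 3 T 0x2000000000000000020000000000000000000000000000000000000000000000000005010000000000000001400500000000000000000000000000000 := rS 0x7a (k2 c8115 c5457 k0) (by decide +kernel)
def c17945 : PP 9 3 T 0x80000000000200400000000000000000000000000000001100000000000000004000000000000011400 := rS 0xe (k2 c12652 c5329 k0) (by decide +kernel)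
def c17946 : PP 9 3 T 0xa001000000000000000020080000000000000000000000000000000000000000000400000010000000000000050000000000000000000000000000000000 := rS 0xd6 (k2 c8137 c5507 k0) (by decide +kernel)
def c17947 : PP 9 3 T 0x80000000000000000000000000000000400000000000440000000000000020001400100002000000000000000000000000000 := rS 0x7c (k2 c8249 c5442 k0) (by decide +kernel)
def c17948 : PP 9 3 T 0x200002000001010100000000000000000000040000000000000000000000000000000000000000000054000000000000000000000000000 := rS 0xbc (k2 c8937 c5617 k0) (by decide +kernel)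
def c17949 : PP 9 3 T 0x20000000000000000000000000080000000000000000001015000000000000000001000000000000000000000000000000000014000000 := rS 0x22 (k2 c10456 c5409 k0) (by decide +kernel)
def c17950 : PP 9 3 T 0x2800000000010000000080000000000000000000000000000000100000000000000000000000001000000005000000400000000000000000000000000 := rS 0x78 (k2 c10651 c5441 k0) (by decide +kernel)
def c17951 : PP 9 3 T 0x8000000000000020000000400140000000000000000000000000000000002005004000000000000 := rS 0x44 (k2 c10502 c5326 k0) (by decide +kernel)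
def c17952 : PP 9 3 T 0x2000000000000000002000000000000000000000000000000000000000000000000014000000000000000005001500000000000000000000000000000 := rS 0xc6 (k2 c10196 c5535 k0) (by decide +kernel)
def c17953 : PP 9 3 T 0x200000000000000000000000000000000000400000000014004000000000000000000000000000001040201 := rS 0x4 (k2 c13648 c311 k0) (by decide +kernel)
def c17954 : PP 9 3 T 0x80000000000000000000000000540000000000000000000000000000000000004015100000000000000 := rS 0x46 (k2 c9944 c5520 k0) (by decide +kernel)
def c17955 : PP 9 3 T 0x20000000000000000000000000000000000000000000000000000000000000004000000000054000041500000000000000000000000000000000000000 := rS 0xa4 (k2 c10607 c5620 k0) (by decide +kernel)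
def c17956 : PP 9 3 T 0x800000004000000000100054000000000000000000000000000000000000000000001000140000000000000000 := rS 0x52 (k2 c9779 c5605 k0) (by decide +kernel)
def c17957 : PP 9 3 T 0x2000000010004000000000000000000040000000000000000000000000500000000000000000054000000000000000000000000000 := rS 0x18c (k2 c9325 c5611 k0) (by decide +kernel)
def c17958 : PP 9 3 T 0x8000000000000000000000000000000000200000000000001000000000000000000000000000000200004400000000011000004000000 := rS 0x96 (k2 c9271 c5404 k0) (by decide +kernel)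
def c17959 : PP 9 3 T 0x80000000000000000000000000000000000000000000000000000000000000000000004000000000000000540000000005440 := rS 0x56 (k2 c11223 c5353 k0) (by decide +kernel)
def c17960 : PP 9 3 T 0x8000000000000000000000000000000000200000000000000000000000000000140000000000000000000000000000000000001010540000000000000 := rS 0x46 (k2 c11685 c5562 k0) (by decide +kernel)
def c17961 : PP 9 3 T 0x40000100000000000000000000000008000000000000000000000000000000000000000000140000004010000000000000000000000024 := rS 0x159 (k2 c12249 c5212 k0) (by decide +kernel)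
def c17962 : PP 9 3 T 0x8000000000000000000000000000010000000000020000000500000014000000000000000000060 := rS 0x32 (k2 c11115 c9926 k0) (by decide +kernel)
def c17963 : PP 9 3 T 0x2000000000000000000001000000000000000000000000000200000000000000000000000010000000000000000004400000040000000010000000002000 := rS 0x192 (k2 c14607 c17674 k0) (by decide +kernel)
def c17964 : PP 9 3 T 0x200000000000000000400000000000000000000000000000001400000000000000001000000000000045400 := rS 0x46 (k2 c12876 c5562 k0) (by decide +kernel)
def c17965 : PP 9 3 T 0x20000020000000000000000000000000000000000000001000000000000000000001000000005000000150000000000000000000000000 := rS 0x110 (k2 c14584 c5371 k0) (by decide +kernel)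
def c17966 : PP 9 3 T 0x1000000000000010000000000000000000000000040004000000000000001044000000000000000000000000000000000040000000000000000000000002 := rS 0xa8 (k2 c14529 c10768 k0) (by decide +kernel)
def c17967 : PP 9 3 T 0x80000000000a2000110000000000000000000000000000000000400000000000000000000000000000001000010000000000000000000000000000000 := rS 0xe2 (k2 c13154 c5466 k0) (by decide +kernel)
def c17968 : PP 9 3 T 0x400000000000000001000000000000000000000008000100000000000080000000000080000000000000000000500000004000000000000000000000 := rS 0x1ec (k2 c13572 c5498 k0) (by decide +kernel)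
def c17969 : PP 9 3 T 0x4000000000021000000000000000000000000000000000000000000000000000040000000000000004000000000000000000000000400020041000000 := rS 0x129 (k2 c14178 c9421 k0) (by decide +kernel)
def c17970 : PP 9 3 T 0x4000000000080000100000000000000000000000000000200000000000000000000000000000000000004000140000000800000000000000000000001 := rS 0x192 (k2 c14232 c5439 k0) (by decide +kernel)
def c17971 : PP 9 3 T 0x1000100000000000000000000000000000100000000000000000000000400000000000004000000050000000000000000000000020002 := rS 0x193 (k2 c13233 c5209 k0) (by decide +kernel)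
def c17972 : PP 9 3 T 0x11000000080000000000000000040000000100000000000000000000000000000000000000000000000000000000000000010040020008 := rS 0x19d (k2 c13309 c5211 k0) (by decide +kernel)
def c17973 : PP 9 3 T 0x1000100080000000000000000000000000000000000000000000000000000000000020000000000054000000000000000000000800010 := rS 0xca (k2 c13196 c200 k0) (by decide +kernel)
def c17974 : PP 9 3 T 0x10000000000000000000000000040000000000000000000000000000000000001400000000000000010400000000000000000080020010 := rS 0x72 (k2 c13353 c9715 k0) (by decide +kernel)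
def c17975 : PP 9 3 T 0x1000100080000000000000000000000000000000000000000000000000400000000000000000000014000000000000000000000820010 := rS 0x72 (k2 c13187 c9715 k0) (by decide +kernel)
def c17976 : PP 9 3 T 0x1000100080000000000000000000000000000000000000000000000000400000000000000000000014001000000000000000000820000 := rS 0x72 (k2 c12954 c9715 k0) (by decide +kernel)
def c17977 : PP 9 3 T 0x2000000000000000000000000000000000000000100000000000000000040000000001000000005001400400000000000000000000000 := rS 0x62 (k2 c13168 c5395 k0) (by decide +kernel)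
def c17978 : PP 9 3 T 0x1000110080000000000000000000000000000002000000000000000000000000000000001000000000000000000000000000000010060 := rS 0x1b4 (k2 c15512 c5414 k0) (by decide +kernel)
def c17979 : PP 9 3 T 0x800000000000000000000000000000000000000000000200100000000000000000400000000000000000000000000000000000151004000000000000 := rS 0xd4 (k2 c16045 c5454 k0) (by decide +kernel)
def c17980 : PP 9 3 T 0x8000000000000000000000000000000000000000000000000000000000000000000000000000000000000000010000000004000011000000000050140 := rS 0x7e (k2 c15499 c5577 k0) (by decide +kernel)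
def c17981 : PP 9 3 T 0x2000000000000000000000000000000000000001000000000000500000400001000000000000020010800000000000000000000000000 := rS 0x7a (k2 c17659 c1690 k0) (by decide +kernel)
def c17982 : PP 9 3 T 0x200000000000000000000000001100000000000000000000000050014400000000000000000000000000000001400000000000000000000000000000000000 := rS 0x18a (k2 c5275 c5553 k0) (by decide +kernel)
def c17983 : PP 9 3 T 0x80000000000000000000000000000000400000000000540000000000000000001400105000000000000000000000000000000 := rS 0x7c (k2 c5846 c5442 k0) (by decide +kernel)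
def c17984 : PP 9 3 T 0x20000000000000010000005000000000000000000000000050000000000000100000000000000000000000000150000000000000000000000000000000 := rS 0xea (k2 c5931 c5623 k0) (by decide +kernel)
def c17985 : PP 9 3 T 0x110000004000010000800000000000000001000000000000000000000001000000000000000000000000004000000000000000000140 := rS 0x11e (k2 c6108 c5345 k0) (by decide +kernel)
def c17986 : PP 9 3 T 0x2000000000000000000000000500440000000000000000000000000001000500000000000000000000000000001400000000000000000000000000000000 := rS 0x106 (k2 c5274 c5503 k0) (by decide +kernel)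
def c17987 : PP 9 3 T 0x8000000000000000000000000000000000000000000000000000000000000000000100010000000000000150110500000000000000000000000000000 := rS 0xd6 (k2 c5287 c5465 k0) (by decide +kernel)
def c17988 : PP 9 3 T 0x8000000000000000000000000000000000000000000000000000000000010054000000000000000000000000000000000000000005540000000000000000 := rS 0x102 (k2 c5996 c5508 k0) (by decide +kernel)
def c17989 : PP 9 3 T 0x8000000000000041000000000000000000000100000000000100000000000000000000000010000000000000010110100000000000000000000000000000 := rS 0x8c (k2 c5896 c5505 k0) (by decide +kernel)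
def c17990 : PP 9 3 T 0x8000000000000000000000000000000000000000000000000000000000000000000000040010000000000000110150500000000000000000000000000000 := rS 0xd6 (k2 c5861 c5507 k0) (by decide +kernel)
def c17991 : PP 9 3 T 0x20000000000000000000000000000000000000000000001055000000000000000001000000000000000000000000000000000054000000 := rS 0x22 (k2 c5816 c5409 k0) (by decide +kernel)
def c17992 : PP 9 3 T 0x800000000000000000010000005000010000000000000000000000000000000000140000000000000000000000000150000000000000000000000000000000 := rS 0x126 (k2 c5698 c5637 k0) (by decide +kernel)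
def c17993 : PP 9 3 T 0x4000000000000000020080000000000000000000000000000000100000000000000000400000000005100000000021000000000000000000000000000 := rS 0x62 (k2 c6190 c782 k0) (by decide +kernel)
def c17994 : PP 9 3 T 0x8000000000000000000000000000000000000000000000000000000000000000000000400000000004004000000000000000000001000015001400000 := rS 0x3e (k2 c7824 c5576 k0) (by decide +kernel)
def c17995 : PP 9 3 T 0x80000000000000000000000000000000000000000000000000004040000000000000000000000000000000000000000000000001551400000000000000000 := rS 0x116 (k2 c7308 c5593 k0) (by decide +kernel)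
def c17996 : PP 9 3 T 0x2000000000000000000000000000000000000000000000000054000000000551400000000000000000000000000000000000000000000000000000000 := rS 0xe0 (k2 c7191 c5460 k0) (by decide +kernel)
def c17997 : PP 9 3 T 0x8000000000000000100000000000000000000000000000000000000000000000000000400000000004004000000000000000000000000004001010201 := rS 0x28 (k2 c13767 c8199 k0) (by decide +kernel)
def c17998 : PP 9 3 T 0x80000000000000000000000000000000000000000000000000000000000000000000000000000001400000000000000000000000000400000015540000000 := rS 0x48 (k2 c8140 c5588 k0) (by decide +kernel)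
def c17999 : PP 9 3 T 0x80000000000000000000000000000000000000000000000540010000000000000150110000000000000000000000000000000 := rS 0x74 (k2 c8254 c5440 k0) (by decide +kernel)
def c18000 : PP 9 3 T 0x8000000000000000000000000000000000000000000000000000000400010000000000000000000000000001515400000000000000000000000000000000 := rS 0xfe (k2 c8783 c5586 k0) (by decide +kernel)
def c18001 : PP 9 3 T 0x2000000000000000000000000000000000400054000000000000000000000000001504400000000000000000000000000000000 := rS 0x8a (k2 c8308 c5366 k0) (by decide +kernel)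
def c18002 : PP 9 3 T 0x400000000000000000000000000000000100000004000100000000020000000000080000000000000000000000000000000000004604000000000000 := rS 0x1e2 (k2 c10485 c5579 k0) (by decide +kernel)
def c18003 : PP 9 3 T 0x80000000000000000000000000000000000000001000055000000000000000000445000000000000000000000000000000000000000000 := rS 0xb0 (k2 c8604 c5421 k0) (by decide +kernel)
def c18004 : PP 9 3 T 0x1400000000000800800000000140000440400010 := rS 0xe (k2 c8111 c9739 k0) (by decide +kernel)
def c18005 : PP 9 3 T 0x80000000000000000000000000000000000000000000055000000000000000000044000001000000000840000000000000000000000000 := rS 0xb0 (k2 c8602 c5421 k0) (by decide +kernel)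
def c18006 : PP 9 3 T 0x2000000000000000000000000000000000000000000000000000000000000000000000001100000005001550000000000000000000000000000000000000 := rS 0xd0 (k2 c8724 c5501 k0) (by decide +kernel)
def c18007 : PP 9 3 T 0x20000000000000000000000000000000000000000400000000000000000000001400000001400000054400000000000000000000000000 := rS 0x110 (k2 c8385 c5411 k0) (by decide +kernel)
def c18008 : PP 9 3 T 0x800000000000000000000000000000000000000000000000000000000000000000500400000150014010000000000000000000000000000000000000 := rS 0x96 (k2 c8161 c5452 k0) (by decide +kernel)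
def c18009 : PP 9 3 T 0x400000000000000000800000004000000000000001500054000000000000000000000000000000000000000040000000000000000000 := rS 0x4c (k2 c8896 c5604 k0) (by decide +kernel)
def c18010 : PP 9 3 T 0x800000000000000004000000000050000000800200004008000000000000000000000000000000100000000000000000000000000000000000004000000000 := rS 0x24 (k2 c8871 c5559 k0) (by decide +kernel)
def c18011 : PP 9 3 T 0x80000000000000000000000000000000000000000400000000000000000000000000000001400000000000000004000000000200051400 := rS 0xe (k2 c12651 c9735 k0) (by decide +kernel)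
def c18012 : PP 9 3 T 0x2000000000000000000000000000000000000000000000000000000001000000000004100000005000550000000000000000000000000000000000000 := rS 0xd0 (k2 c8772 c5459 k0) (by decide +kernel)
def c18013 : PP 9 3 T 0x2000000000000000000000000000000000000000000000000000400000400000000004000000000000000000002004040014000400000 := rS 0x24 (k2 c8148 c10629 k0) (by decide +kernel)
def c18014 : PP 9 3 T 0x20000000000000000000000000000000000000000000001000000000000000000001000000005400000550000000000000000000000000 := rS 0x110 (k2 c8112 c5411 k0) (by decide +kernel)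
def c18015 : PP 9 3 T 0x40001000000000000000000000000000000000200000000000000000000000000000540000000000000000000000000000000000001000540000000000000 := rS 0x46 (k2 c10335 c5562 k0) (by decide +kernel)
def c18016 : PP 9 3 T 0x80000000000000000000000000000000000000000000000000000000540100000040014050000000000000000000000000000000000000 := rS 0xac (k2 c10481 c5573 k0) (by decide +kernel)
def c18017 : PP 9 3 T 0x2000000000000000000000000000000000000000000000000015040000000000000005005400000000000000000000000000000 := rS 0x74 (k2 c10201 c5482 k0) (by decide +kernel)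
def c18018 : PP 9 3 T 0x20000000000000000000000000000000000000000000000000000000000000000000000404000000000000400000000540000001000408 := rS 0x22 (k2 c9933 c5409 k0) (by decide +kernel)
def c18019 : PP 9 3 T 0x2000000000000000000000000000000000000000100000000000000000040000000001000000005001404400000000000000000000000 := rS 0x9a (k2 c10556 c5397 k0) (by decide +kernel)
def c18020 : PP 9 3 T 0x2000000000000000000000000000000000000000000000000000000000010000000000050000000500150400000000000000000000000 := rS 0x62 (k2 c10013 c5395 k0) (by decide +kernel)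
def c18021 : PP 9 3 T 0x2000000000000000000100000000000000000000000000000000001000040000000000000000000001000000400000010400080000000000000000000020 := rS 0x0 (k2 c10407 c53 k0) (by decide +kernel)
def c18022 : PP 9 3 T 0x800000000002000010000000000000000000000000000000000100020000000000400400000050000000000000000400000000000000000000000000 := rS 0x96 (k2 c9303 c5452 k0) (by decide +kernel)
def c18023 : PP 9 3 T 0x2000000000000008000100000000000000000000000000000000001000040000000000000000001400000000000000050010000000000000000000000000 := rS 0xa8 (k2 c10401 c5489 k0) (by decide +kernel)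
def c18024 : PP 9 3 T 0x80000000000000002000100080000000000000000000000000000000000000000000140000000000000001000400004040000000000000000000000000000 := rS 0x90 (k2 c11937 c5589 k0) (by decide +kernel)
def c18025 : PP 9 3 T 0x80000000000000000000000000000000000000000000000000000000000000000000004000000004000000540000000005440 := rS 0xc6 (k2 c10699 c5357 k0) (by decide +kernel)
def c18026 : PP 9 3 T 0x80000000000000002000100080000000000000000000000000000000000000000000040000000000000001001400004002000000000000000000000000000 := rS 0xe0 (k2 c11941 c5591 k0) (by decide +kernel)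
def c18027 : PP 9 3 T 0x10000010000000000000000000000008000000000000000000000000000000000001000000001000000440000000000000000010000420 := rS 0xe (k2 c12152 c9737 k0) (by decide +kernel)
def c18028 : PP 9 3 T 0x200000000000000000000000000000000000000000000000000004014000000000000000000000000000000000000000000000001415400000000000000000 := rS 0x50 (k2 c11918 c5552 k0) (by decide +kernel)
def c18029 : PP 9 3 T 0x80000000000000000000000000000800000000000140000000400000000014000000000008000000000000000008000800000 := rS 0x13 (k2 c11792 c2813 k0) (by decide +kernel)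
def c18030 : PP 9 3 T 0x20000000000000000000000000000000000000000400040000000000000000000080000001400000044440000000000000000000000000 := rS 0x110 (k2 c12850 c5411 k0) (by decide +kernel)
def c18031 : PP 9 3 T 0x2000000000000000000000000000000000000000000000000000000001000000000005100000005000150000000000000000000000000000000000000 := rS 0x9c (k2 c13449 c5458 k0) (by decide +kernel)
def c18032 : PP 9 3 T 0x2000100000000000000000000000000000000000000000000000000000000000000000000000150054004400000000000000000000000 := rS 0xca (k2 c13195 c8797 k0) (by decide +kernel)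
def c18033 : PP 9 3 T 0x80000000000000000000000000000000000000000000000000110000000000050000000400151000000000000000000000000 := rS 0x62 (k2 c14285 c5355 k0) (by decide +kernel)
def c18034 : PP 9 3 T 0x1000000040000000000000000000000000000000000000000000000000000000000001100000000000401000000000400000500000008 := rS 0x129 (k2 c14193 c5209 k0) (by decide +kernel)
def c18035 : PP 9 3 T 0x2000000000000000000000000000008000100000000001000000000005000000001000040000000000000000000000400000080000000 := rS 0x14a (k2 c17248 c5517 k0) (by decide +kernel)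
def c18036 : PP 9 3 T 0x20000000000000000000000004000000000000001040000000000000000001000000004000000050000000000000000080000400 := rS 0x110 (k2 c15519 c5371 k0) (by decide +kernel)
def c18037 : PP 9 3 T 0x2000000000000000000000000000000000000000000000000000000000000010000000011000000000000000000000000000000000000555000000000000 := rS 0xf6 (k2 c15359 c5498 k0) (by decide +kernel)
def c18038 : PP 9 3 T 0x200000000000000000000054054000000000000000000000000000000000000000001500000000000000000 := rS 0x11c (k2 c16075 c5341 k0) (by decide +kernel)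
def c18039 : PP 9 3 T 0x40000000000000081000110000000000000000000080000000100000000000000000000000000000000000000000000000000000000000000000000001060 := rS 0x193 (k2 c17159 c5209 k0) (by decide +kernel)
def c18040 : PP 9 3 T 0x4006000000000008000000000000000000000000000000000000000000000000000000144000000104000100000000000000000000000000000000000000 := rS 0xcc (k2 c16843 c5537 k0) (by decide +kernel)
def c18041 : PP 9 3 T 0x11000000000000000000000000040000000200000000000000000000000000000000001000000000000000400000000000000040000520 := rS 0x19d (k2 c16712 c5211 k0) (by decide +kernel)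
def c18042 : PP 9 3 T 0x2000000000000000000000000000000000000000000000000000000000000000000000040000000000000000001000000004000000040000000005540 := rS 0x3a (k2 c15597 c5456 k0) (by decide +kernel)
def c18043 : PP 9 3 T 0x800000000040000000000000000000000000000000000000100000000000000000000000000050014010000000000000000000002000010000000000 := rS 0x96 (k2 c16747 c5452 k0) (by decide +kernel)
def c18044 : PP 9 3 T 0x100040000000000000100000000000200000000000000000000000000000000000004000100008000800000000000001000000001 := rS 0x1b7 (k2 c16099 c5212 k0) (by decide +kernel)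
def c18045 : PP 9 3 T 0x2000000000000000000000000000000000000000000000000000000001000000000000100000005000110001000200100000000000000000000000000 := rS 0x9a (k2 c17598 c5536 k0) (by decide +kernel)
def c18046 : PP 9 3 T 0x54044000000000000001810000002040000000000000000000000000010000000 := rS 0x1b4 (k2 c5276 c5532 k0) (by decide +kernel)
def c18047 : PP 9 3 T 0x10000000000280000000000000000000400000000008000100200000000000500008000000000000000000000000000000000000000000000001000000 := rS 0xbe (k2 c7889 c5431 k0) (by decide +kernel)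
def c18048 : PP 9 3 T 0x400000000014000000020000000800000005000014000400010 := rS 0x0 (k2 c8391 c1054 k0) (by decide +kernel)
def c18049 : PP 9 3 T 0x40000000000000400000000000000000000000000000000000000000000000005400000000000055420 := rS 0x90 (k2 c12648 c13505 k0) (by decide +kernel)
def c18050 : PP 9 3 T 0x20000000000000000000080000000000000000000000000000014010000000000000001001500000000000000002000000000080 := rS 0x82 (k2 c8277 c5525 k0) (by decide +kernel)
def c18051 : PP 9 3 T 0x20000000000000000000000001000400000400000000000000040000010000000000000000000000000000000150000000000020000000000000000000020 := rS 0x10a (k2 c8894 c5629 k0) (by decide +kernel)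
def c18052 : PP 9 3 T 0x8000000000000000000002000000000000000100000000000100000000000000000000000000000000000000010000000000004000015000000000000140 := rS 0xd6 (k2 c10230 c5507 k0) (by decide +kernel)
def c18053 : PP 9 3 T 0x40000000001100000001001404400000000100000000800800 := rS 0x4 (k2 c10373 c717 k0) (by decide +kernel)
def c18054 : PP 9 3 T 0x80000000000000000000020080000000000000000000000000000000000014000000000014000000000000000111100000000000000000000000000000000 := rS 0x112 (k2 c12426 c5547 k0) (by decide +kernel)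
def c18055 : PP 9 3 T 0x5000000000000000000000000000000000000000000008000000000400010000000000000000000000000000004400000000010008000000000000001400 := rS 0xe (k2 c11779 c12627 k0) (by decide +kernel)
def c18056 : PP 9 3 T 0x5000000000000000000002000000000000000000000000000000000000054000000000000000000000000001544000000000000000000000000000000000 := rS 0x82 (k2 c10829 c5483 k0) (by decide +kernel)
def c18057 : PP 9 3 T 0x1000000000000000000000000000000000100000000000000000000000000000000000100000004000000000000000500000000405420 := rS 0x193 (k2 c11799 c5209 k0) (by decide +kernel)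
def c18058 : PP 9 3 T 0x4000000000001000000080000000000000000000000000000000000000000000000500410000010000000140000020000000000000000000000000000 := rS 0x1b6 (k2 c11722 c5571 k0) (by decide +kernel)
def c18059 : PP 9 3 T 0x100000000000000000000000000000000000000000000000000000000000000008000000050040000004000000000000001050140 := rS 0x40 (k2 c10691 c12636 k0) (by decide +kernel)
def c18060 : PP 9 3 T 0x40000000000000000000000000000000000000001000000000000000000000001400000000000000000000000001000000015540000000 := rS 0x46 (k2 c12753 c16855 k0) (by decide +kernel)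
def c18061 : PP 9 3 T 0x81000000000000000000000200080000000000001000000000000500000000000000000004000000000000000000000000000201400000 := rS 0x1b4 (k2 c14954 c9399 k0) (by decide +kernel)
def c18062 : PP 9 3 T 0x80000000000000000000120000000000000000200000000000200000000000000000000000000000000000000000000000000004001400440000000000400 := rS 0xe (k2 c14888 c5369 k0) (by decide +kernel)
def c18063 : PP 9 3 T 0x4000000000005000000000000000000000000000000000000200000000000000080041500000000000010000000000000000000000080000000000000 := rS 0x1ee (k2 c12939 c5504 k0) (by decide +kernel)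
def c18064 : PP 9 3 T 0x80000000000000000000020000000000000000000000000000000000400000000000000000000000000000000000110000000000000004000000841800008 := rS 0x1b4 (k2 c14507 c5409 k0) (by decide +kernel)
def c18065 : PP 9 3 T 0x1000000000000080000000000400000000000000000000000004400000015502000000 := rS 0x3a (k2 c14342 c491 k0) (by decide +kernel)
def c18066 : PP 9 3 T 0x200000000000000001000000000000080000400000400000000000000000000000004000400004540000000 := rS 0x24 (k2 c14425 c5559 k0) (by decide +kernel)
def c18067 : PP 9 3 T 0x20000000000000000000000004000000000100001040000000000000000001000000004000000050000000000000000080000400 := rS 0x14a (k2 c15314 c5517 k0) (by decide +kernel)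
def c18068 : PP 9 3 T 0x1000000040000000000000000000000000000000000000000000000000000000000001400000000000801000000000400000140000120 := rS 0x129 (k2 c16839 c5209 k0) (by decide +kernel)
def c18069 : PP 9 3 T 0x211000400000000000000000000000000000000000000000000200000000000000001011011000000000000000000000000000000010000010000000000000 := rS 0x4e (k2 c7478 c5630 k0) (by decide +kernel)
def c18070 : PP 9 3 T 0x800000004000000000000000200000000000000000014000000000000000000000000150000000000560000000 := rS 0x2e (k2 c8900 c5347 k0) (by decide +kernel)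
def c18071 : PP 9 3 T 0x2000000000000000000000000000000000000000000000000000000140000000050000050000000000000008000000001000004020020 := rS 0x40 (k2 c8803 c12628 k0) (by decide +kernel)
def c18072 : PP 9 3 T 0x60000000000000000000000000000000000000000000055000000000000000000150000000000000000000000008000000010040000000 := rS 0xaa (k2 c8928 c5413 k0) (by decide +kernel)
def c18073 : PP 9 3 T 0x100000000001000000000000000110000000000000004020000000140000010004040010 := rS 0x1c (k2 c9423 c1954 k0) (by decide +kernel)
def c18074 : PP 9 3 T 0x504000002000000000000000540000441000201 := rS 0x4 (k2 c10338 c311 k0) (by decide +kernel)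
def c18075 : PP 9 3 T 0x4020800000000000000000000000000000800000000000000000000040000000000000000000000000000000000000000000001000015015000000000000 := rS 0x52 (k2 c9321 c5605 k0) (by decide +kernel)
def c18076 : PP 9 3 T 0x20000000000000000000000008000000000000001040000000000000000005000000001000000100000000000000000050000404 := rS 0xe (k2 c12065 c5369 k0) (by decide +kernel)
def c18077 : PP 9 3 T 0x5000000000000000000100000000000000000000000000000000000000054000000000000000000000000000554400000000000000000000000000000000 := rS 0x90 (k2 c10832 c9181 k0) (by decide +kernel)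
def c18078 : PP 9 3 T 0x1000120000000000000000000000000000000000000000000000140000000000000000000000050001004400000810000000000000000 := rS 0x78 (k2 c14362 c5524 k0) (by decide +kernel)
def c18079 : PP 9 3 T 0x80000000000000000000000000100000000000000000000000010000000000054000000000150000000000004000001000002 := rS 0x76 (k2 c14891 c5356 k0) (by decide +kernel)
def c18080 : PP 9 3 T 0x90000020040000000000000000000000000200000800000000000000000000000000000400000000000000000001000400000000001420 := rS 0x1a0 (k2 c17004 c5382 k0) (by decide +kernel)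
def c18081 : PP 9 3 T 0x10000000000000000000000000000000000400000000000000000000000400000001000000000000000004000000000200055420 := rS 0x1b4 (k2 c17154 c5528 k0) (by decide +kernel)
def c18082 : PP 9 3 T 0x1000000000000000000000000400000000000000008000000004400000015500002001 := rS 0x90 (k2 c15999 c3038 k0) (by decide +kernel)
def c18083 : PP 9 3 T 0x89000100000000000000000000000000000200000000000000000000100000000000000000100040800050000000000000000000000008 := rS 0x192 (k2 c15112 c5356 k0) (by decide +kernel)
def c18084 : PP 9 3 T 0x1000000080000000000000000000004000100000000000000000000000000000000000054000000000050000000000004000001000040 := rS 0x62 (k2 c15716 c5355 k0) (by decide +kernel)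
def c18085 : PP 9 3 T 0x1000020000000000000000000000000000000000000000000000000000000000000000000000000001004404000000540000000000540 := rS 0xc (k2 c16869 c5522 k0) (by decide +kernel)
def c18086 : PP 9 3 T 0x10000000000000000000000200000000000000000400000000000000000000000000000001400000020000000004400000000040041020 := rS 0x10 (k2 c15542 c5558 k0) (by decide +kernel)
def c18087 : PP 9 3 T 0x1000020000000000000000000000000000000000400000000000540000000000000000000400150001004400000000000000000000000 := rS 0x78 (k2 c5864 c5524 k0) (by decide +kernel)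
def c18088 : PP 9 3 T 0x1000000000000000000000000000000000000000000000000000000015000000400080000001515010000000000000000000000000000000000000000 := rS 0x102 (k2 c8157 c2088 k0) (by decide +kernel)
def c18089 : PP 9 3 T 0x100040000000000000000000008000000100000000000000000500000000000000000000140400000000000015004000000000000 := rS 0x42 (k2 c8423 c5478 k0) (by decide +kernel)
def c18090 : PP 9 3 T 0x90000000000000000000000000000000000000000400000000000000000000000000000001400000000000000004400000000040055020 := rS 0x22 (k2 c12645 c9734 k0) (by decide +kernel)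
def c18091 : PP 9 3 T 0x40000800000000020000000000000000000000000000000000000000000001000000040400400001150004010000000000000000000000000000000000000 := rS 0x96 (k2 c8572 c5452 k0) (by decide +kernel)
def c18092 : PP 9 3 T 0x1000000000000004000000000000000000000000000000000000000000055000000000000000001155000000000000000020000000000000000000000000 := rS 0x114 (k2 c9083 c9222 k0) (by decide +kernel)
def c18093 : PP 9 3 T 0x1000000000000000000000000000000000000000040004000000000000001044000000000000000000000000004400001440000000000000000080000002 := rS 0xa8 (k2 c10523 c10768 k0) (by decide +kernel)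
def c18094 : PP 9 3 T 0x100000000000020000000011000000005001514000000000000000000000010000000000004 := rS 0xce (k2 c10207 c2340 k0) (by decide +kernel)
def c18095 : PP 9 3 T 0x800000000000000000000000000000000000000000000100000000000000000000400010000000000000150110100000004000000000000000010100 := rS 0xd4 (k2 c10339 c5454 k0) (by decide +kernel)
def c18096 : PP 9 3 T 0x1010040000000000000000000040040000000000000000000000120000000000000000054000000000000000000400000820 := rS 0x1f (k2 c10575 c718 k0) (by decide +kernel)
def c18097 : PP 9 3 T 0x10080000000000000000000040040000000000000040000480110000014008000000000000800000000000000000000000 := rS 0x78 (k2 c9633 c93 k0) (by decide +kernel)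
def c18098 : PP 9 3 T 0x8000000000080000120000000000000000000040000000000000000000000000000000040000000000004000010000000000004001000000001400001 := rS 0x3e (k2 c14237 c5576 k0) (by decide +kernel)
def c18099 : PP 9 3 T 0x100000100000000000000000040000000001104000005001004400000000000000040000002 := rS 0x6a (k2 c13171 c1058 k0) (by decide +kernel)
def c18100 : PP 9 3 T 0x40001000000000000000000000000000000000000000000000000000000000000000400000000000000000002000050000000004001011000000000010140 := rS 0x12 (k2 c17156 c3036 k0) (by decide +kernel)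
def c18101 : PP 9 3 T 0x2000000000000008000000040000000000000000080000000000000000000001000000000140000000000500000001000001000000000000000004000008 := rS 0xce (k2 c15097 c5543 k0) (by decide +kernel)
def c18102 : PP 9 3 T 0x800000000004000010000000000000000000080000000000000100000000000000000000000000000510000004100020010000000000000000000100 := rS 0x198 (k2 c17626 c5481 k0) (by decide +kernel)
def c18103 : PP 9 3 T 0x40004000000000000000000000000000000000000000000000200000000000000000100000440000000005400000004020000000000000500002000000000 := rS 0xe (k2 c6025 c6185 k0) (by decide +kernel)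
def c18104 : PP 9 3 T 0x40000000000000000000000000000000000000000000000000000000400000000000040000000000000000000000005000000000000020540000000005540 := rS 0x56 (k2 c9151 c12628 k0) (by decide +kernel)
def c18105 : PP 9 3 T 0x4000000000000000000100080000000000000000000000000000000000000000000000000100000100000050050100100141000000000000000000000000 := rS 0x62 (k2 c8130 c5355 k0) (by decide +kernel)
def c18106 : PP 9 3 T 0x20000110000000000000000100040000000000000000000000000000000000001000000000400000054400000001000000000000005000 := rS 0xb2 (k2 c13392 c5532 k0) (by decide +kernel)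
def c18107 : PP 9 3 T 0x400000000000000000000000000000000000000000000000000000002004000000011000000000000504000000000000000000000440000441400000 := rS 0x1ec (k2 c13371 c5542 k0) (by decide +kernel)
def c18108 : PP 9 3 T 0x10000010000000000000000000000000000000000000000054000000014000000000000000000000401404000000000011000000000200 := rS 0x192 (k2 c13685 c5438 k0) (by decide +kernel)
def c18109 : PP 9 3 T 0x2001000000000001000000000000000000000000040000000100000000000000000000000000000005000150000000000000000000000504000001000000 := rS 0x9c (k2 c16931 c9066 k0) (by decide +kernel)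
def c18110 : PP 9 3 T 0x91000110000000000000000000000000000200001000000000000000000040000000000000000051000000400000000000000000000120 := rS 0x56 (k2 c15609 c5313 k0) (by decide +kernel)
def c18111 : PP 9 3 T 0x400000000000000000000000000000000000000000000000001000015000000080500100001455000000000000000000000000000000000000000000 := rS 0x1e2 (k2 c10153 c5580 k0) (by decide +kernel)
def c18112 : PP 9 3 T 0x1000400000000000000000000000000000000000000000000200000000000020000000011400000000014004000000000000000002001000014001000000 := rS 0x24 (k2 c10098 c10629 k0) (by decide +kernel)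
def c18113 : PP 9 3 T 0x41000100000000000000000000000000000000000400000000000500000440000000001001000051006000000000000000000000000000 := rS 0x72 (k2 c14949 c933 k0) (by decide +kernel)
def c18114 : PP 9 3 T 0x100000000000000000000000040000000000000000005000002004000000440000101005540 := rS 0x1b0 (k2 c15705 c5445 k0) (by decide +kernel)
def c18115 : PP 9 3 T 0x11000020000000000000000000000000000000000400000000000400000000000400005400000150001004400000000000000000000000 := rS 0x78 (k2 c15189 c5524 k0) (by decide +kernel)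
def c18116 : PP 9 3 T 0x80000000000000000000000000000000000000000000000000000100000054014000000000000000000000001000000000000000000540000000000054420 := rS 0x4a (k2 c12643 c5546 k0) (by decide +kernel)
def c18117 : PP 9 3 T 0x2000210040000000000000000000000000000001000000000000500000440001400001001000000010001400000000000000000000000 := rS 0x9e (k2 c15877 c5448 k0) (by decide +kernel)
def c18118 : PP 9 3 T 0x2004000000000051000200000000000000000000000000000000000000040000000000090050000000000000001401500000000000000000000000000000 := rS 0x8a (k2 c16549 c2939 k0) (by decide +kernel)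
def c18119 : PP 9 3 T 0x41000110080000000000000000000000000200001000000000000000000000000400001100000000001000000001000400000140004020 := rS 0x36 (k2 c15709 c5435 k0) (by decide +kernel)
def c18120 : PP 9 3 T 0x1000010000000000000000000000000000100000000000000000000000040000000001100000005001400004000000440000100004460 := rS 0x5e (k2 c17149 c9668 k0) (by decide +kernel)
def c18121 : PP 9 3 T 0x1000000000080000000000000000000000000000000000000000000055000000000514100000045014550000000000000000000000000000000000000 := rS 0xb0 (k2 c8633 c5421 k0) (by decide +kernel)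
def c18122 : PP 9 3 T 0x200000000000000000000000000000000100000000000000000500000000150000000140000010148000000115005000000000002 := rS 0x72 (k2 c10520 c5379 k0) (by decide +kernel)
def c18123 : PP 9 3 T 0x400000000008000201000000000000000000040000000200000000000000000000000000000000000000000000000000000000000000000000000000 := rS 0x1b45b67675b6 (k4 c17660 c17162 c17668 c8057 (k2 c5211 c5533 k0)) (by decide +kernel)
def c18124 : PP 9 3 T 0x540000000000000010000000000000000000000100040000000200000000000000000000000000050000100004000000000000000000000000400081000000 := rS 0x37166 (k2 c5174 c17775 (k1 c17864 k0)) (by decide +kernel)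
def c18125 : PP 9 3 T 0x402000000000000000000221000400400000000100040000000200000000080000000000000000010000100004000000000000000000000000000080000020 := rS 0x1197dc961fa4b3c5e13f49d0672727c68bf12f783c17de8541a1d1b0144fcd766c8a9acde7147c45231359c7c144b5aed4e7b6 (k8 c17660 c5419 c17731 c5422 c2590 c16820 c975 c5574 (k8 c5382 c5374 c9727 c5568 c5571 c5565 c5523 c15434 (k8 c3604 c2663 c5550 c5567 c5502 c5381 c5373 c5525 (k8 c5541 c18000 c5545 c5503 c5498 c5527 c9709 c5569 (k8 c5383 c17674 c6205 c17162 c18124 c5556 c5635 c6751 (k4 c6187 c2254 c5391 c5609 (k2 c17662 c17982 k0))))))) (by decide +kernel)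
def c18126 : PP 9 3 T 0x2000400000000000000221000000000000000000040000000200000000000000000000002000000000000000080000000000000000000000000000000000 := rS 0xb3e9771168cc97ed1f5dae7171b5ee164f8d51a95437d1788ef78983a17c26c38a3e22918982be6e24fb2c6f7f0e09436f11390c8ab156c7491028ac05fa6b7facd564b0f010eec954a4f6a735abd67559d805c7e19c98a76cf7579bcc9b3 (k8 c18123 c17669 c5565 c1130 c5498 c17660 c5417 c17674 (k8 c6205 c5318 c5433 c17688 c17858 c17162 c5477 c5422 (k8 c5419 c17731 c5444 c9109 c5396 c2053 c17670 c17671 (k8 c2590 c5500 c5574 c5544 c5523 c1128 c5502 c15434 (k8 c18003 c7820 c513 c5573 c5421 c5326 c5478 c5570 (k8 c9695 c5475 c10629 c3582 c4563 c5435 c5420 c5572 (k8 c18013 c5550 c16820 c5382 c5374 c9727 c5568 c5571 (k8 c3604 c6290 c5541 c5503 c5527 c5375 c9734 c9709 (k8 c9703 c5398 c5399 c5449 c5569 c5383 c5423 c5575 (k8 c4790 c17673 c18096 c2663 c975 c18125 c5595 c5641 (k4 c3616 c6204 c17948 c17864 (k1 c6187 k0)))))))))))) (by decide +kernel)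
def c18127 : PP 9 3 T 0x4004400000000000000000000000000000000000000000000000000000081000000000115500000005001510000000000000000000000000000000000000 := rS 0x35da696 (k4 c3617 c2087 c1767 c5689 k0) (by decide +kernel)
def c18128 : PP 9 3 T 0x400000000000000201000800000000000000040000000200140000480000000000000000000000000000041000000000000002000000000000000000 := rS 0x3e167f2c37ed0b2ac3df319fae968e8d89c9d138d51a86b2171f8672604d87cefe580e09436f1138a486459d2c55bb6579bcc9b3 (k8 c18123 c17669 c5565 c1130 c17660 c5573 c5421 c17162 (k8 c5326 c5478 c5417 c5570 c9695 c5475 c10629 c3582 (k8 c1953 c4563 c5550 c17688 c17670 c17674 c6205 c5318 (k8 c5433 c17858 c5398 c5449 c5569 c5567 c5383 c5382 (k8 c5381 c5327 c5390 c5553 c2639 c865 c2255 c516 (k4 c9511 c17672 c5640 c7591 (k2 c17956 c17715 (k1 c18051 k0)))))))) (by decide +kernel)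
def c18129 : PP 9 3 T 0x2000400000000000000221000000000000000000040000000200000000000000000000000000000000000000000000000000000000000000000000000000 := rS 0x2cfa5dc45a3325fb47d778b5ca2e36ccbfb5438e28e894900a36408969d8afbc3cff67a160f0168aadeef12191436f59d2cd3ebd65e144eb15aab51b1393a251f8d8895c0e371ea9536954cd642e3f0ce4c527764abd537d1788fc6094984cfa11026c0de7143a46f683c4ed4e7b67e9acc9b3 (k8 c18123 c17669 c5523 c1128 c17660 c5419 c17731 c5527 (k8 c5525 c5375 c5374 c5373 c5571 c5565 c17688 c17670 (k8 c719 c5566 c5564 c5444 c311 c17785 c9734 c9709 (k8 c9703 c9109 c1130 c5396 c2053 c5417 c17674 c6205 (k8 c5318 c5433 c17858 c5447 c5446 c5397 c5399 c5436 (k8 c5435 c5432 c5313 c9727 c5569 c5568 c5567 c5383 (k8 c5382 c5381 c5573 c5422 c5421 c5570 c5423 c5420 (k8 c5575 c5572 c5574 c17162 c5477 c5475 c5326 c5478 (k8 c9695 c5498 c5500 c5501 c5502 c5503 c5541 c5543 (k8 c5544 c17671 c18000 c15434 c1082 c2590 c18003 c3604 (k8 c16820 c7820 c10629 c513 c18013 c3582 c15288 c4563 (k8 c18127 c4790 c18126 c18096 c18128 c2663 c975 c18125 (k4 c5595 c5641 c3616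 c6204 (k2 c17948 c17864 (k1 c6187 k0))))))))))))))) (by decide +kernel)
def c18130 : PP 9 3 T 0x400000000000000221000000000000000000040000000200000000000000000000000000000000000000000000000000000000000000000000000000 := rS 0x1f9c6416337fe63bf0928400b557b5fbb53c9ac1a913d83c373a39a0626133ea3cae391f81c6e3d54825262308810c9b0d99bce3b6 (k8 c17660 c5571 c5565 c18123 c17688 c17669 c17670 c719 (k8 c9734 c5444 c311 c9109 c5436 c5435 c5432 c5318 (k8 c5317 c5313 c5568 c5566 c5564 c5382 c5380 c5419 (k8 c17162 c5475 c5369 c5372 c5374 c5522 c5523 c5524 (k8 c17731 c1128 c18129 c5682 c17887 c7110 c18011 c17762 (k8 c340 c5546 c2510 c3568 c18104 c2619 c12613 c10493 k0)))))) (by decide +kernel)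
def c18131 : PP 9 3 T 0x400000000000000201000000000000000000040000000200000000000000000000000000000000000000000000000000000000000000000000000000 := rS 0x104fe486234e0475668edffe0417b5fa874ea1496abda03b3a110481152af3b9a6b2994ab252664d86cc7a17038fcaef59d067267114ac56aaddb204266f3ea251e5d (k8 c17796 c5568 c5567 c5566 c5565 c5564 c5380 c17660 (k8 c5573 c5422 c5421 c5417 c5571 c17674 c6205 c17162 (k8 c5477 c5313 c5318 c5432 c5433 c5436 c18123 c17688 (k8 c17669 c5444 c5396 c5446 c5447 c17858 c124 c2053 (k8 c1130 c9109 c17670 c311 c719 c18130 c6008 c5211 (k8 c8880 c12627 c844 c5412 c2113 c1129 c17595 c10850 (k8 c17718 c2396 c5456 c5537 c18045 c12959 c2087 c17716 (k4 c7820 c841 c511 c12613 k0)))))))) (by decide +kernel)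
def c18132 : PP 9 3 T 0x8000221000000000000000000040000000100000000000000000000000000000000000000000000000010000000000000000000000000 := rS 0x85c3df054fbbeeff21b7eaca7238ffd34917260b3721ef6d656d1c12d9c3a97789168e5b0debd7b1393a3f1bb000fbcb21138ce876560264d2389da9cf6c5d (k8 c17796 c17660 c5419 c17731 c5527 c5374 c17674 c17755 (k8 c10195 c10737 c17162 c5571 c719 c314 c17287 c53 (k8 c5209 c5569 c5568 c5383 c5382 c5575 c5479 c5475 (k8 c5474 c5327 c5326 c9695 c5404 c5486 c7805 c7601 (k8 c17706 c8057 c17812 c17226 c17667 c5616 c2324 c2323 (k8 c3303 c5213 c5232 c9711 c3706 c3274 c3266 c360 (k8 c3232 c5389 c5609 c17900 c5662 c3573 c2247 c5064 (k1 c14695 k0)))))))) (by decide +kernel)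
def c18133 : PP 9 3 T 0x400000000000000221000000000000000000040000000000000000000000000000000000000000000000000000000010000000000000000000000000 := rS 0x3d90bec23b3fe6e06fb35c7e11b3187f010535d3a4b8a9d9a31cac878ea8b332af67b506a1deab3659cd6a8d89a542271db164d2016281cc3b01ace876560264e525d (k8 c17796 c18131 c17674 c17755 c10195 c10737 c17162 c5324 (k8 c5209 c5445 c713 c13953 c53 c9744 c314 c17660 (k8 c5571 c719 c5446 c5382 c5381 c5422 c5419 c5420 (k8 c5574 c5477 c5373 c5522 c17731 c18132 c17691 c5664 (k8 c737 c2005 c17219 c17561 c12681 c17739 c17716 c15434 (k8 c2590 c1083 c2187 c16820 c2140 c406 c770 c771 (k8 c5535 c2619 c2329 c2332 c6118 c5591 c1653 c2789 (k4 c5688 c789 c13107 c5498 k0)))))))) (by decide +kernel)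
def c18134 : PP 9 3 T 0x400000000000000201000000000000000000040000000000000000000000000000000000000000000000000000000010000000000000000000000000 := rS 0xd4698f8ed1cac9d516661eecfc6e25b92dc3b4077833a41f7b14d2562c81c2201021146b3a38b2d6bb646a6cc295d84a7265d (k8 c17796 c17674 c18131 c5209 c5446 c5445 c5397 c5381 (k8 c17660 c5422 c5420 c5571 c17162 c5324 c5326 c17755 (k8 c53 c719 c713 c314 c10195 c9744 c13953 c17287 (k8 c12628 c18133 c5215 c6008 c5211 c5460 c12627 c5533 (k8 c17886 c17720 c8057 c1494 c5664 c737 c2005 c17561 (k4 c12681 c17716 c5655 c2082 (k2 c10131 c2996 k0))))))) (by decide +kernel)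
def c18135 : PP 9 3 T 0x400000000000000221000000000000000000040000000000000000000000000000000000000000000000000000000000000000000000000000000010 := rS 0x3dbd84867b81c7e16fb3538360b0fcbcd73fb45a6c78088988752087c0d1c013c4864518bd432cb14ac55a818984cde7d47ec0021b9d074c993949ed226b3ced4e7b6 (k8 c17660 c5419 c17731 c5524 c5523 c5374 c5372 c18131 (k8 c17674 c18134 c8808 c17162 c5475 c1056 c5209 c5568 (k8 c5566 c5565 c5564 c5382 c5380 c5573 c5421 c5417 (k8 c5420 c6205 c5477 c5476 c5326 c5478 c9695 c5642 (k8 c18073 c17764 c1111 c1734 c1452 c17710 c6197 c10477 (k8 c13650 c2082 c17739 c841 c1765 c17744 c406 c1450 (k8 c1259 c1258 c2329 c2332 c5458 c1777 c3610 c1653 (k4 c1484 c5688 c513 c5498 k0)))))))) (by decide +kernel)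
def c18136 : PP 9 3 T 0x400000000000000221000000000000000000040000000000000000000000000000000000000000000000000000000000000000000000000000000000 := rS 0x35a00d36afb494744b82fdec50f9640e11026d5060d4383c6b3a38a7ce7b6899f512a130a54eec9d82bcde1d3264e525d (k8 c17796 c18131 c17674 c18134 c8808 c5565 c1130 c5209 (k8 c5396 c2053 c5446 c5445 c5398 c5567 c5566 c5382 (k8 c17660 c5419 c5572 c5571 c17162 c5324 c5369 c5373 (k8 c5522 c5525 c17731 c18135 c719 c713 c313 c17318 (k8 c13953 c17287 c718 c1127 c17716 c16820 c10404 c1532 (k4 c1969 c18055 c18016 c10483 k0)))))) (by decide +kernel)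
def c18137 : PP 9 3 T 0x400000000000000201000000000000000000040000000000000000000000000000000000000000000000000000000000000000000000000000000010 := rS 0x3da8567409a8d769b1083ef03470040f7890c8a2958ab50313099bc02640dce956e265ad7c7b44dec1c3e0cee4e53b6 (k8 c17660 c18131 c17674 c18136 c5215 c5460 c5209 c5397 (k8 c5211 c17720 c5422 c5420 c17886 c5413 c17162 c5475 (k8 c18134 c1056 c5565 c5564 c5382 c5380 c5573 c5421 (k8 c5417 c5326 c5478 c9695 c9739 c5642 c18073 c17764 (k8 c5504 c1734 c17710 c2082 c1765 c5689 c1663 c1662 (k2 c2629 c5543 (k1 c12530 k0))))))) (by decide +kernel)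
def c18138 : PP 9 3 T 0x400000000000000201000000000000000000040000000000000000000000000000000000000000000000000000000000000000000000000000000000 := rS 0xfd3a2158a0e0381157b4f0675527734991329530b276129c98d6745d (k8 c17796 c17162 c5324 c17674 c18131 c5209 c5396 c5445 (k8 c5446 c5447 c18134 c124 c2053 c9109 c18136 c5215 (k8 c5211 c5413 c18137 c713 c6008 c13953 c844 c17716 (k2 c1129 c18045 k0)))) (by decide +kernel)
def c18139 : PP 9 3 T 0x2000221000000000000000000040000000200000000000000000000000000000000000000000000000010000000000000000000000010 := rS 0x117b400abd9bc46a1b9d1c566275ac4cde8f88b3c66cdef0e46e9135ed4e7b6 (k8 c17660 c5419 c17731 c5523 c5374 c5435 c5317 c18138 (k8 c5495 c5492 c5453 c9727 c5568 c5565 c5382 c5422 (k8 c5570 c5574 c5571 c17162 c5475 c5324 c9695 c17756 (k4 c17691 c14159 c17171 c13750 (k1 c9731 k0))))) (by decide +kernel)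
def c18140 : PP 9 3 T 0x2000000000000008000221000000000000000000040000000000000000000000000000000000000000000000000000000010000000000000000000000000 := rS 0x21f18fbbeeff8b92fd3491784ee514b6b3aa4ce6957ce8e2bd58ab64e6fc6e276a73db41fdf0148a0d0e8d47a151313 (k8 c5382 c5567 c5541 c5568 c5381 c5373 c5525 c5374 (k8 c5502 c18000 c5503 c17660 c5419 c17731 c5527 c5569 (k8 c5565 c5383 c5573 c5421 c5575 c5571 c17162 c5406 (k8 c5403 c5487 c5489 c7805 c8057 c3602 c5616 c2468 (k8 c3303 c5213 c5232 c5391 c5390 c5389 c5609 c17900 (k2 c17982 c3119 (k1 c17662 k0))))))) (by decide +kernel)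
def c18141 : PP 9 3 T 0x1800000000015000001000000000000000000040000000200000400010000000800000000000004000000005405000010000000000000000000000000 := rS 0xd0013397c44744c6d9e6317ace98acf3bb347237 (k8 c5435 c5317 c5495 c5493 c5453 c5451 c17162 c5477 (k8 c5476 c5325 c17660 c6448 c15064 c9107 c1520 c2006 (k2 c9731 c5664 (k1 c9744 k0)))) (by decide +kernel)
def c18142 : PP 9 3 T 0x2000800000000000000000000000000000000200000008000200100000000000000400000000000000000000000000000000000000000000000000000000 := rS 0x4981b7be6d62392c824322bcdea33668fc7af768c05ffe1 (k8 c6290 c5544 c5502 c5501 c5498 c5436 c5318 c5495 (k8 c5492 c5477 c5325 c5326 c5478 c5340 c5342 c5562 (k4 c17979 c17748 c10298 c2516 (k2 c2946 c3593 k0)))) (by decide +kernel)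
def c18143 : PP 9 3 T 0x80000220000000000000000100040000000000000000000000000000000000000000000000001000000200000004000000000000000000 := rS 0x488a08cda0038acc4eb5899bd1f11489af6a73 (k8 c5419 c17731 c5523 c5374 c9727 c5568 c5565 c5382 (k8 c5422 c5570 c5574 c5571 c9744 c832 c9731 c3604 (k2 c6578 c17759 k0))) (by decide +kernel)
def c18144 : PP 9 3 T 0x2000000000000000000221000000000000000100040000000000100000000000000000000000000000000000000000000010000004000000000040000010 := rS 0x164221d24089160233004d33a38a1d2283da9cf6cf742bff665d (k8 c17796 c18140 c5544 c5541 c5498 c17660 c5419 c17731 (k8 c5525 c5374 c5373 c5571 c17162 c18143 c17790 c5664 (k8 c5642 c737 c6197 c13510 c483 c3026 c2003 c12681 k0))) (by decide +kernel)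
def c18145 : PP 9 3 T 0x2000000000000000000221000000000000000000040000000200100000000000000000000000000000000000000000000010000000000000000040000010 := rS 0xc6004e00dc04724fcc949bc9a7c53111d336b2e3d9f850b0155ec76a73db20cf2873dc4fbd3a (k8 c17162 c18138 c5382 c5372 c5373 c5524 c5525 c17660 (k8 c5419 c17731 c18139 c5500 c5502 c5541 c6290 c18140 (k8 c18141 c18142 c5495 c17385 c9727 c5417 c5572 c17674 (k8 c7393 c18144 c5546 c192 c191 c563 c13731 c13096 (k2 c5642 c1274 (k1 c16365 k0)))))) (by decide +kernel)
def c18146 : PP 9 3 T 0x80000220000000000000000000040000000000000000000000000000000000000000000000000000000000000000000000000080000010 := rS 0x2338acc4eb5899bd1f11489af6a73 (k8 c5419 c17731 c5523 c5374 c9727 c5568 c5565 c5382 (k4 c5422 c5570 c5574 c5571 (k2 c152 c13749 k0))) (by decide +kernel)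
def c18147 : PP 9 3 T 0x4000221000000000000000100040000000000000000004000000000000000000000000000001000000010000005000000000000000000 := rS 0x66451a67471db21d2283 (k8 c5525 c5374 c5373 c17660 c5571 c17162 c18143 c13510 (k2 c5664 c737 k0)) (by decide +kernel)
def c18148 : PP 9 3 T 0x2000000000000000000221000000000000000000040000000200000000000000000000000000000000000000000000000010000000000000000000000010 := rS 0x630027006e023fcc9449acc73663a7fa15ef3ac9a7c531166f7b629b0fed4e7b6 (k8 c17660 c5419 c17731 c18146 c7393 c18139 c18138 c5495 (k8 c9727 c5417 c5572 c17674 c17162 c5498 c5541 c5544 (k8 c17385 c18140 c18145 c5341 c513 c18147 c5546 c191 (k4 c563 c13731 c13096 c5642 (k2 c1274 c16365 k0))))) (by decide +kernel)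
def c18149 : PP 9 3 T 0x8000001000000000000000000000000000008000000000000000000000000000000000000000000000000000000000000000000000000 := rS 0xc3c2e184558c736d3a (k8 c17162 c17660 c17706 c5421 c5326 c618 c3016 c2208 (k1 c8093 k0)) (by decide +kernel)
def c18150 : PP 9 3 T 0x400000000000000100000000000000000000400100040000000004020000000000000000000000000000000000000000000000000044000000011040000000 := rS 0xb0982f15924a853 (k8 c3228 c5662 c515 c3461 c569 c7711 c5652 c3272 k0) (by decide +kernel)
def c18151 : PP 9 3 T 0x1000000000000008000221000000000000000000040000000000000000000000000000000000000000000000000000000000000000000000000040000000 := rS 0x422ac06f78102dfe472492a47f38c7df1725fa6909f1b8bee603efacada3825b3aa43a692286d66bd14ac6272747e35237bc4bf5e2f39d6d4e7b6 (k8 c17660 c5419 c17731 c17162 c5325 c9695 c13351 c5527 (k8 c5375 c5374 c5569 c5568 c5383 c5382 c5421 c5417 (k8 c5575 c5574 c5475 c5326 c5403 c5486 c5489 c7805 (k8 c7601 c17706 c8057 c17812 c5504 c10477 c5616 c3303 (k8 c2469 c7459 c5213 c5232 c5391 c5390 c17900 c17982 (k8 c17940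 c18149 c18150 c192 c191 c2568 c2588 c9182 (k4 c565 c13731 c6368 c18076 (k1 c2629 k0)))))))) (by decide +kernel)
def c18152 : PP 9 3 T 0x5000000000000014000201000000000000000200040000000000100000000000000000000000000000000000000000000010000002000000000040000000 := rS 0x5945998d21d00bdc450210914e22780aad5bb67ebc5e73a (k8 c17162 c5325 c9695 c13351 c17660 c5573 c17691 c13274 (k8 c5570 c5571 c5326 c344 c13257 c5650 c2195 c9731 (k4 c483 c9744 c5664 c737 (k2 c2003 c17561 k0)))) (by decide +kernel)
def c18153 : PP 9 3 T 0x1000001000000000000000000000000000200100100010040000000805000000002000400000004000000000005410000001000000010 := rS 0xbc923098d429c70341bff38110c8a35798c5eb3a0ce4d3ecb138a47e171ebfd67b6 (k8 c17660 c5574 c2452 c5436 c5433 c5318 c5417 c5570 (k8 c5420 c5572 c17674 c6205 c17162 c5477 c5476 c5325 (k8 c5324 c5326 c5478 c3593 c17808 c2516 c16068 c2202 (k4 c2025 c3061 c1274 c1696 (k2 c3579 c5663 (k1 c1517 k0)))))) (by decide +kernel)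
def c18154 : PP 9 3 T 0x4000221000000000000000000040000000000100000000080000000000000000002000000000000000010000000000000000000000010 := rS 0x45a14cc690088a067146c4d128f43a45070155ab5fa1f78bce75b539bfd67b6 (k8 c17660 c5574 c2452 c5419 c17731 c17162 c5325 c9695 (k8 c18146 c13351 c5573 c17691 c13274 c5525 c5374 c5373 (k8 c5568 c5567 c5382 c5381 c5571 c2195 c2021 c9731 (k4 c9744 c5664 c13398 c737 (k1 c3613 k0))))) (by decide +kernel)
def c18155 : PP 9 3 T 0x221000000000000000200040000000200100000000000000000000000000000000000000000000010000000000000000000000010 := rS 0x125adef2392c82252191622cf19b35a7de1f8f4f7b14dc055af7542adfaf179ceb6a73d9fb43fb6 (k8 c17660 c18146 c18148 c18151 c5419 c17731 c17162 c5325 (k8 c9695 c13351 c17691 c5682 c18154 c5573 c13274 c7393 (k8 c18139 c5372 c5436 c5318 c18138 c5496 c5495 c5492 (k8 c5453 c9727 c5326 c5478 c5559 c5340 c5342 c5562 (k4 c17819 c17979 c18152 c18153 k0))))) (by decide +kernel)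
def c18156 : PP 9 3 T 0x4000221000000000000000000040000000000100000000040000000000000000000000000000000000010000002000000000040000000 := rS 0x5945998d21d0088842119d1c44e91da9cf6c5d (k8 c17796 c17660 c5419 c17731 c5374 c5570 c5571 c17162 (k8 c3026 c344 c5650 c9731 c483 c9744 c5664 c737 (k2 c2003 c12681 k0))) (by decide +kernel)
def c18157 : PP 9 3 T 0x800000000015000001000000000000000000040000000000000000000000000000000000000002000000002000000010000000000000000040000000 := rS 0x4400051b0d0fd78bce74ab (k8 c17691 c17162 c5325 c9695 c13351 c2449 c2448 c17810 (k2 c9744 c17345 (k1 c9731 k0))) (by decide +kernel)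
def c18158 : PP 9 3 T 0x221000000000000000000040000000200100000000000000000000000000000000000000000000010000000000000000000000010 := rS 0x344769d3100040031191fe64a24d65ef937a8a622ff59a1550ab7ebc5e73ad9fb43fb1da9cf6dde (k8 c18138 c17660 c5419 c17731 c18139 c18146 c18148 c18151 (k8 c17162 c5325 c9695 c13351 c17691 c5682 c18157 c5574 (k8 c2452 c9727 c5417 c5477 c17674 c18154 c18155 c18156 (k8 c18147 c5546 c191 c560 c13731 c5650 c5642 c16365 (k4 c1274 c341 c2025 c17847 k0))))) (by decide +kernel)
def c18159 : PP 9 3 T 0x40001800000000011000200000000000000000000000000000000000000000000000440000000000000005400040001000080000000000000000000000000 := rS 0x3af88bee14c2051a7d44b15aa77 (k8 c5493 c5454 c5451 c5567 c5566 c5381 c5380 c5679 (k4 c13096 c1520 c5691 c2006 (k1 c17987 k0))) (by decide +kernel)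
def c18160 : PP 9 3 T 0x1000000000000000000000000000200000000000000000040000000000000002000000000000000000000010000001100000000 := rS 0x49a8433934fb2c4e29db0fc2e3d (k8 c5436 c5433 c5318 c17660 c5417 c5570 c5420 c5572 (k4 c17674 c6205 c1278 c1695 (k1 c3579 k0))) (by decide +kernel)
def c18161 : PP 9 3 T 0x1000000000000000221000000000000000000040000000200000000000000000000000000000000001000000000000010000002000000000000000010 := rS 0x38d3f133da1cf2834dc055bf36f8fd16663492eb31c42aa156fd78bce75b1da9cfbdb3f687ce3b6 (k8 c17660 c5571 c18146 c18148 c18151 c18138 c5419 c17731 (k8 c18139 c17162 c5325 c9695 c13351 c17691 c5682 c18157 (k8 c18158 c5341 c192 c18143 c5664 c737 c5318 c2946 (k8 c5588 c5573 c13274 c7393 c5525 c5524 c5373 c5372 (k4 c5382 c5572 c18141 c18159 k0))))) (by decide +kernel)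
def c18162 : PP 9 3 T 0x221000000000000000000040000000200000000000000000000000000000000000000000000000010000002010000000000000010 := rS 0x1405e499d077e04e867269f6589c526f62b3ceecd0b8f506256f8fc4421331a497598e21550ab7ebc5e73ad8ed4e7ded9fb43fb6 (k8 c17660 c18146 c18148 c18151 c18138 c5419 c17731 c18139 (k8 c17162 c5325 c9695 c13351 c17691 c5682 c18157 c18158 (k8 c5341 c192 c18143 c5664 c3693 c5650 c5318 c2946 (k8 c10629 c5525 c5436 c5433 c5495 c5493 c5453 c5451 (k8 c5565 c5417 c5570 c5420 c5572 c17674 c6205 c18160 (k4 c18161 c5456 c17944 c481 (k2 c2006 c3579 (k1 c1121 k0)))))))) (by decide +kernel)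
def c18163 : PP 9 3 T 0x221000000000000000000040000000200000000000000000000000000000000000000000000000010000002000000000000000010 := rS 0x3c03a71102267b439e5070156a1550ab7ebc5e73ad9fb43fb1da9cf6dde (k8 c18138 c17660 c5419 c17731 c18139 c18146 c18148 c18151 (k8 c17162 c5325 c9695 c13351 c17691 c5682 c18157 c5573 (k8 c13274 c5525 c5524 c5373 c5372 c5382 c18162 c512 (k2 c511 c18141 (k1 c5456 k0))))) (by decide +kernel)
def c18164 : PP 9 3 T 0x221000000000000000000040000000200000000000000000000000000000000000000000000000010000000000000000000000010 := rS 0x1a23b4e988002001bdc4647f992893598e215fea880aaf66fdf687f62f1c9bcdeb3a598a55b11ef6d4e7b6 (k8 c17660 c5419 c17731 c18138 c9727 c5573 c5417 c5574 (k8 c17162 c5477 c5325 c17674 c9695 c18139 c18146 c18148 (k8 c13351 c18151 c17691 c13274 c5682 c2452 c18157 c18158 (k8 c5341 c18163 c18147 c5546 c191 c560 c565 c13731 (k4 c5650 c5642 c16365 c1274 (k2 c341 c2025 (k1 c17847 k0))))))) (by decide +kernel)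
def c18165 : PP 9 3 T 0x8000221000000000000000000040000000200000000000000000000000000000000000000000000000010000000000000000000000000 := rS 0x1d4125ff0a7556990f7b6381d788d436319d31466772b81c2e37da9cf6c632cec409de (k8 c18138 c18164 c17555 c314 c9754 c17660 c5419 c17731 (k8 c5435 c5433 c5432 c5313 c5493 c5492 c5451 c17162 (k8 c5476 c5475 c5324 c9695 c5486 c17706 c18140 c17667 (k8 c2317 c1084 c1082 c16230 c10734 c312 c17958 c10693 k0)))) (by decide +kernel)
def c18166 : PP 9 3 T 0x221000000000000000000040000000200000000000000000000000000000000000000000000000010000000000000000000000000 := rS 0x81bffe6fc717b5c2dff0404d89b50a7496a98ac70bc1e45a64ccabd9fbcd3b12c8444601026d4d691798c5eb3a38acd3ecb39ad76d1337a3e22cf19f78ae390385c6e5d (k8 c17796 c5435 c5433 c5432 c5317 c5313 c18138 c5492 (k8 c5453 c9727 c5568 c5565 c5382 c17660 c5422 c5419 (k8 c5420 c5572 c5574 c5571 c17162 c5477 c5476 c5325 (k8 c5374 c5523 c17731 c18164 c53 c9734 c719 c314 (k8 c17555 c9744 c17287 c18165 c17691 c5664 c9107 c737 (k8 c17219 c17924 c12681 c15434 c2319 c2590 c1082 c1121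 (k8 c10735 c3604 c2140 c10734 c13097 c13096 c6290 c3620 (k4 c5682 c5549 c2574 c4749 (k1 c5694 k0))))))))) (by decide +kernel)
def c18167 : PP 9 3 T 0x82000210000000000000000000040000000200000000000000000000000000000000000000000000000000000002000000000000004002 := rS 0x631e4f6e205035be9f6589c531309c447e374e9b768634d9f8be17 (k8 c5433 c1054 c17744 c5397 c5395 c5211 c5529 c5412 (k8 c5435 c5318 c9727 c5564 c5382 c5417 c5570 c5420 (k8 c5572 c2946 c293 c10368 c18013 c892 c2307 c13431 (k1 c2619 k0)))) (by decide +kernel)
def c18168 : PP 9 3 T 0x2000211000000000000000000040000000200000000000000000000000000000000000000000000000000000000000000000040004002 := rS 0xdf3d12819f3480e8d6715a8e46e234e8853247599b62bb401c45269bac867267e2f85c93b6 (k8 c17660 c18167 c5433 c1054 c17744 c17674 c6205 c17758 (k8 c5397 c5444 c9727 c28 c5211 c5414 c5529 c5574 (k8 c15906 c5530 c5528 c5412 c9733 c5435 c5317 c5422 (k8 c5571 c1058 c3578 c17856 c5589 c13505 c5660 c290 (k2 c2510 c892 k0))))) (by decide +kernel)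
def c18169 : PP 9 3 T 0x2000211000000000000000000040000000200000000000000000000000000000000000000000000000000000000000000000000004002 := rS 0xd4c671a45c3f281c04961e24fbfdb594d90dea19c99c596735aab6266f47a5da7de1ea74be173081c8eb336c540687346cd6fb4db06e7511 (k8 c9727 c17162 c5475 c17660 c5211 c5533 c8057 c12887 (k8 c897 c28 c5414 c5529 c5574 c15906 c5432 c661 (k8 c5433 c1054 c5412 c5436 c18138 c5496 c5452 c5568 (k8 c5565 c5382 c5573 c5422 c5419 c5420 c5571 c17674 (k8 c6205 c5477 c5478 c5397 c17758 c17700 c8156 c18167 (k8 c18168 c2590 c6743 c7606 c6300 c6188 c9181 c5549 (k2 c18117 c18007 (k1 c2482 k0)))))))) (by decide +kernel)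
def c18170 : PP 9 3 T 0x2000800000000000000011000000000000000000000000000200000000000000000000000000000000000002000005000000000002000000000000000000 := rS 0x6b905c0c68ef85ef9321914663d25b44b73a (k8 c17162 c5474 c9793 c192 c5436 c5492 c5326 c5478 (k8 c17674 c5498 c6290 c513 c5669 c801 c1715 c1720 (k1 c17979 k0))) (by decide +kernel)
def c18171 : PP 9 3 T 0x211000000000000000000040000000200000000000000000000000000000000000000000000000000000002000000000000004002 := rS 0xf00e98e407135e3b00427b5a2903c9ac140d2590c8a5b9d1c566b5db44c26d519b4fbc3f1b8f7687b316c72711 (k8 c9727 c17674 c18169 c16365 c888 c5211 c5436 c5435 (k8 c5318 c18138 c5496 c5492 c5454 c5564 c5382 c17660 (k8 c5422 c5574 c5571 c17162 c5474 c5326 c5478 c192 (k8 c293 c10368 c1059 c2307 c17856 c9793 c18170 c13492 (k8 c850 c2140 c2145 c17951 c17979 c2619 c511 c5669 (k1 c5456 k0)))))) (by decide +kernel)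
def c18172 : PP 9 3 T 0x2000000000000020000201000000000000000000040000000200000000000000000000000000000000000000000004000200000001000000000000004000 := rS 0x1226b06bf46a5b9d1c566b5db314efde (k8 c18138 c5493 c5451 c17660 c5422 c5574 c5571 c17162 (k4 c5474 c5324 c5542 c17963 (k2 c1223 c13505 (k1 c17856 k0)))) (by decide +kernel)
def c18173 : PP 9 3 T 0x201000000000000000000040000000200000000000000000000000000000000000000000000000010000000000000000000000010 := rS 0x1226b06fb4927b316c50e680003f261b38acd6b11678cd9bde1c8df66b7da6776d3a (k8 c17162 c17660 c18166 c5211 c5533 c8057 c5435 c5317 (k8 c18138 c5495 c5492 c5453 c9727 c5422 c5574 c5571 (k8 c5475 c17674 c9739 c14188 c12887 c897 c18169 c16365 (k4 c888 c18171 c18172 c17527 (k2 c1059 c13505 (k1 c17856 k0)))))) (by decide +kernel)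
def c18174 : PP 9 3 T 0x201000000000000000000040000000200000000000000000000000000000000000000000000000010000000000000000000000000 := rS 0x21fdb027b1208ff37137cf69b50d64bc8345999c2c7259a4160e2c80409b35baa5326d8aa77699d9d64ce2b34fb2d6bb64084cde7d478cfbc571f81c6e3d (k8 c5436 c5435 c5432 c5318 c5313 c18138 c5492 c5568 (k8 c5566 c5565 c5564 c5380 c17660 c5422 c5420 c5572 (k8 c5574 c5571 c17674 c17162 c18166 c5211 c5412 c5414 (k8 c5529 c5530 c5531 c5533 c8057 c18173 c53 c314 (k8 c6008 c717 c9744 c12627 c794 c17902 c5664 c737 (k8 c2007 c17924 c17561 c1121 c10735 c1686 c14796 c3620 (k8 c5549 c2347 c5660 c12912 c12930 c5498 c10690 c10850 k0))))))) (by decide +kernel)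
def c18175 : PP 9 3 T 0x221000000000000000000040000000200000000000000000000000000000000000000000000000000000000000000000000000010 := rS 0xd97b5ec485591dfee2f9b85be9d3fb1c9660114053759f78083f1c21914e2b34f8a562ad40c4c266f3ea3d9e336485c6e01d8874c897ef06c6af118ce8f6913ced4e7b6 (k8 c17660 c5419 c17731 c5524 c5374 c5372 c17162 c5476 (k8 c9695 c5324 c5475 c18138 c5452 c18174 c9172 c17904 (k8 c1056 c5435 c5433 c5494 c5492 c5453 c5568 c5566 (k8 c5565 c5564 c5382 c5380 c5573 c5421 c5417 c5572 (k8 c5574 c5571 c5326 c5478 c18073 c18146 c5642 c5504 (k8 c5341 c7393 c10477 c6197 c17928 c560 c727 c728 (k8 c1696 c13097 c13096 c17861 c3610 c2574 c2347 c6368 (k4 c5660 c513 c5498 c17732 (k1 c18151 k0))))))))) (by decide +kernel)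
def c18176 : PP 9 3 T 0x8000221000000000000000000040000000000000000000000000000000000000000000000000000000020000000000000000000000020 := rS 0x85c3df054b7eaca62c2587bdb18fbbee3f25bfc87e9a4c5e06371784c1f7323acada3825b3e45e245a396f5eb35ead6272747e34021b54875237bc4ed4e77df7967bc1138eda745d (k8 c17796 c17162 c17660 c5571 c719 c18138 c9442 c17287 (k8 c9703 c5419 c17731 c5527 c5375 c5374 c9172 c9109 (k8 c5475 c1056 c5569 c5568 c5383 c5382 c5422 c5575 (k8 c5574 c5479 c5474 c5327 c5326 c9695 c5491 c7805 (k8 c7601 c17706 c8057 c17812 c18149 c5616 c3302 c2468 (k8 c3303 c2469 c3238 c2465 c5213 c5232 c320 c2221 (k8 c5391 c5385 c5609 c17900 c3616 c17666 c18151 c2590 (k8 c2324 c3228 c3266 c360 c5662 c3573 c2247 c3396 (k1 c14695 k0))))))))) (by decide +kernel)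
def c18177 : PP 9 3 T 0x221000000000000000000040000000000000000000000000000000000000000000000000000000020000002000000000000000020 := rS 0x7b7b2380a1292c8a1b9d0a55e6f54877bdb539ed847b3 (k8 c18176 c9734 c17660 c5419 c17731 c18138 c9172 c9109 (k8 c5565 c1130 c5417 c17162 c5475 c5326 c192 c10629 (k4 c16820 c17885 c17887 c513 (k1 c5498 k0)))) (by decide +kernel)
def c18178 : PP 9 3 T 0x2000000000000000000221000000000000000000040000000200000000000000000000000000000000000000000000000000000000000000000000000000 := rS 0x1583f82604602fc54d84b4d07815e142bdde65b7a9c563133e95c7e07579bd53b10ea5c3635788c6740f43834d7b539ed8b3de24810c85d (k8 c17796 c18174 c18175 c18177 c18138 c9442 c17660 c5419 (k8 c17731 c5523 c5522 c5373 c5369 c17162 c5476 c9695 (k8 c5324 c5475 c5452 c9172 c17904 c9109 c5565 c1130 (k8 c5432 c5318 c5313 c5566 c5382 c5421 c5571 c5477 (k8 c5474 c5325 c5498 c5541 c6290 c10404 c10900 c17725 (k8 c2588 c717 c15434 c1119 c2493 c17841 c312 c728 (k2 c7820 c17896 k0))))))) (by decide +kernel)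
def c18179 : PP 9 3 T 0x221000000000000000000040000000200000000000000000000000000000000000000000000000000000000000000000000000000 := rS 0x8b8e92a061f05aabdbb32c8444604daa4486457996c373a389cd63b64684d12a90e993bc5d (k8 c17796 c18138 c18174 c9172 c9109 c5567 c5564 c5381 (k8 c17660 c5421 c5419 c5571 c17162 c5475 c5474 c5325 (k8 c5326 c5478 c5374 c17731 c18175 c9734 c719 c9442 (k8 c18176 c18178 c17732 c17887 c1084 c2199 c16820 c17667 (k2 c12080 c12615 k0))))) (by decide +kernel)
def c18180 : PP 9 3 T 0x201000000000000000000040000000200000000000000000000000000000000000000000000000000000000000000000000000010 := rS 0x7ffce02e225a45bee105124f60d81a118fed3c9fcc1ef014701ef1c990c8af3388a562addb2062613379f51ec54bb3c66c90b804373a0e993bcab36a67699d (k8 c18179 c5211 c5530 c5529 c5413 c18138 c18174 c9172 (k8 c17162 c5475 c1056 c5433 c5494 c5492 c5453 c5452 (k8 c5451 c5568 c5566 c5565 c5564 c5382 c5380 c17660 (k8 c5573 c5421 c5417 c5571 c5325 c5326 c5478 c17674 (k8 c9695 c9739 c18073 c5642 c5504 c17928 c728 c1577 (k8 c17875 c726 c12530 c2629 c2540 c847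 c514 c5645 (k8 c10249 c14796 c13505 c2588 c3610 c2140 c5549 c2574 (k1 c5694 k0)))))))) (by decide +kernel)
def c18181 : PP 9 3 T 0x201000000000000000000040000000200000000000000000000000000000000000000000000000000000000000000000000000000 := rS 0x7eac18013022497dfe82f6bf50ac7259d01c59026cd0eb74caad3bb4ceec4c61d54abcc8071f95de3931a86c62f59d1c562b556ed8de7d44a3d2ecf64b37bc5d (k8 c17796 c18138 c5495 c5494 c5453 c5452 c5568 c5567 (k8 c5566 c5565 c17660 c5573 c5422 c5421 c5571 c17162 (k8 c5477 c5476 c5475 c5324 c17674 c9695 c5313 c5318 (k8 c5432 c18174 c1130 c9109 c9172 c1171 c17904 c18179 (k8 c5211 c5412 c5413 c5530 c5533 c2113 c8057 c18180 (k8 c9442 c6008 c17615 c12627 c794 c844 c1129 c17617 (k8 c10850 c2396 c17888 c12941 c12959 c312 c5663 c7820 (k2 c17896 c728 k0)))))))) (by decide +kernel)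
def c18182 : PP 9 3 T 0x201000000000000000000040000000000000000000000000000000000000000000000000000000000000000000000000000000010 := rS 0x208f7c6250b358043fac8755e018e191e243228d436319d065962958ab76c1337a5daa3364b4fbc934aec25393 (k8 c17674 c18181 c5209 c5446 c5444 c18138 c5496 c5494 (k8 c5492 c5454 c5452 c5565 c5564 c17660 c5573 c5421 (k8 c5417 c5420 c6205 c17162 c5476 c5475 c5324 c5326 (k8 c5478 c9695 c17755 c18073 c1056 c1130 c8808 c5341 (k8 c405 c5642 c9617 c3577 c1113 c5465 c1491 c1737 (k1 c5655 k0)))))) (by decide +kernel)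
def c18183 : PP 9 3 T 0x221000000000000000000040000000000000000000000000000000000000000000000000000000010000000000000000000000000 := rS 0x1c0df248d87903051b07fe363275f84b1caa62b1cac9d43c8b332ac62f559ad5028d899bcfa8947c458a9767b54667766a6d2bb3d84e822712cf78d201208ecac04c9ca5226bda9cf6c5d (k8 c17796 c17660 c5419 c17731 c5523 c5374 c18181 c17674 (k8 c18182 c10195 c10737 c12628 c53 c9744 c18138 c9442 (k8 c5571 c719 c17162 c5209 c7702 c5446 c5397 c5495 (k8 c5493 c5492 c5454 c5453 c5452 c5451 c9727 c5568 (k8 c5567 c5566 c5565 c5382 c5381 c5380 c5422 c5574 (k8 c5477 c5476 c17691 c5664 c737 c17219 c2005 c17561 (k8 c12681 c15434 c2319 c2472 c2590 c18035 c1083 c17243 (k8 c17987 c405 c3604 c16820 c4749 c5655 c771 c514 (k2 c2771 c6901 (k1 c1484 k0)))))))))) (by decide +kernel)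
def c18184 : PP 9 3 T 0x221000000000000000000040000000000000000000000000000000000000000000000000000000000000000000000000000000000 := rS 0x22895038e82d541f0eaa4c9eddaa4486457996c367358a3426894becf613a11844e3b62cf7876560264e525d (k8 c17796 c18181 c17674 c18182 c10195 c10737 c18138 c9442 (k8 c17660 c5571 c719 c9734 c17162 c5209 c7702 c5452 (k8 c5567 c5564 c5381 c5421 c5419 c5475 c5474 c5325 (k8 c5326 c5478 c5374 c17731 c17226 c18183 c9109 c8808 (k8 c17318 c17732 c17887 c17667 c2199 c16820 c12615 c12080 k0))))) (by decide +kernel)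
def c18185 : PP 9 3 T 0x201000000000000000000040000000000000000000000000000000000000000000000000000000000000000000000000000000000 := rS 0x454023b037fbf3dae2f9b450a4bda7801d9d2c84409efd84a5a6cf4bf7b26432296e747165ad55bb64684d125d (k8 c17796 c5567 c5564 c5381 c17660 c5573 c5422 c5420 (k8 c5571 c17162 c5474 c5326 c5478 c17674 c18138 c5452 (k8 c5453 c5496 c18181 c5209 c8156 c18182 c719 c9442 (k8 c18184 c6008 c5215 c5211 c12627 c844 c5459 c7694 (k8 c17886 c17700 c13565 c2574 c2631 c13569 c5694 c12615 (k1 c3069 k0)))))) (by decide +kernel)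
def c18186 : PP 9 3 T 0x1000800000000011000201000000000000000000000000000200100100000000000000000000000004000001000000000400000004000000000000000002 := rS 0x101c0d771a6600fc54a76286236e4c864538acce6b5db44cde8f05b3da7e1683cc76f57bece95e31e8cdab3a (k8 c17162 c5454 c5316 c5436 c17803 c18185 c17372 c5333 (k8 c5477 c5332 c5325 c17847 c6344 c5496 c5453 c5516 (k8 c5568 c5565 c5382 c17660 c5422 c5419 c5574 c5571 (k8 c5326 c5478 c17674 c665 c16365 c3604 c1274 c2025 (k8 c5682 c9222 c2554 c6448 c2146 c9158 c17979 c1715 k0))))) (by decide +kernel)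
def c18187 : PP 9 3 T 0x1001800000000015000001000000000000000000000000000200102000000000000000000000000005000000000000000000000004000000000000000000 := rS 0x407035dc699803f36c4322b3da7e31e8cdab3a (k8 c17162 c5454 c5316 c5436 c17803 c5496 c5453 c5326 (k8 c5478 c17660 c5682 c9222 c2554 c6448 c2146 c9158 (k2 c17979 c1715 k0))) (by decide +kernel)
def c18188 : PP 9 3 T 0x221000000000000000000000000000200100000000000000000000000000000000000000000000010000004000000000000000010 := rS 0x407037e049c80aa1fff38a0844a0200acc4e295aab4de1f1191e2291069ad9be1f7b41e63b7ace9eeabd9f7b63eda56d4e7b6 (k8 c17660 c5419 c17731 c18185 c17168 c17191 c17705 c17372 (k8 c17691 c5333 c17162 c5477 c5332 c5325 c17847 c17189 (k8 c6344 c5495 c5523 c5522 c5374 c5371 c5520 c5331 (k8 c5517 c5565 c5573 c5422 c5417 c5570 c5574 c18186 (k8 c5642 c1113 c265 c17941 c17998 c3011 c18187 c2026 (k4 c2025 c5694 c2516 c2202 (k2 c18160 c1715 k0))))))) (by decide +kernel)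
def c18189 : PP 9 3 T 0x1000000000000014000201000000000000000000000000000000000100010000000000000000000005000001000000000400000004000000000000000010 := rS 0x300890d8218abf1e73a38acc52735aeda266f4788c174a (k8 c18185 c5516 c5331 c5568 c5565 c5382 c17660 c5422 (k8 c5419 c5417 c5574 c5571 c17162 c5325 c5682 c9222 (k4 c2550 c3604 c17941 c665 (k2 c1113 c5642 k0)))) (by decide +kernel)
def c18190 : PP 9 3 T 0x221000000000000000000000000000200000000000000000000000000000000000000000000000010000004000000000000000010 := rS 0x409c28b20094cca1011a4bc0149984c6854e3fdfaa880c70339338acd3ecb138a51b1337a251e0b1f85c7b113da1d226b41b41e63b7ace9eeabd9f7b63eda56d4e7b6 (k8 c17660 c5419 c17731 c18185 c17168 c17191 c17705 c17372 (k8 c17691 c5333 c17162 c5477 c5332 c5325 c17847 c5525 (k8 c5523 c5374 c5373 c5372 c5371 c5436 c5433 c5318 (k8 c5516 c5568 c5567 c5565 c5382 c5381 c5417 c5570 (k8 c5420 c5572 c5574 c5571 c17674 c6205 c18188 c2140 (k8 c18189 c135 c2452 c2025 c17810 c1274 c1696 c1694 (k8 c16365 c5663 c9744 c5642 c1121 c5664 c1113 c3579 (k4 c737 c1715 c3613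 c2202 k0)))))))) (by decide +kernel)
def c18191 : PP 9 3 T 0x45001800000000011000001000000000000000000000000000200100000006000000000000000000000000000000000000000000000000400000000000000 := rS 0x80e06bc01c7034c90c8ab5db33da7e31e8cdab3a (k8 c17162 c5454 c5316 c5436 c17803 c5496 c5453 c17660 (k8 c5422 c5326 c5478 c2554 c2631 c6448 c5694 c2146 (k2 c9158 c17979 (k1 c1714 k0)))) (by decide +kernel)
def c18192 : PP 9 3 T 0x221000000000000000000000000000200000000001000000000000000000000000000000000000010000000000000000000000010 := rS 0x8480120a8526637027204a880867269f6589c52ad378fc2e3d88fbda0f31dbd674f755ecfbdb1f6d2b6a73db37c9439 (k8 c5317 c18190 c2510 c17660 c5419 c17731 c18185 c17168 (k8 c17191 c17705 c17372 c17691 c5333 c17162 c5477 c5332 (k8 c5325 c17847 c17189 c5371 c5436 c5433 c5318 c5565 (k8 c5573 c5417 c5570 c5420 c5572 c17674 c6205 c13274 (k8 c5682 c9182 c2025 c2202 c1274 c1694 c1278 c1714 (k4 c16365 c3579 c5642 c1113 k0)))))) (by decide +kernel)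
def c18193 : PP 9 3 T 0x221000000000000000000000000000200000000000000000000000000000000000000000000000010000000000000000000000010 := rS 0x8e40df8fff992bdfe1ef3ce74b51dbdf63eda56d4e7b6 (k8 c17660 c5419 c17731 c18185 c17168 c17191 c5333 c5332 (k8 c5422 c17162 c5325 c17705 c6344 c17189 c18190 c5546 (k4 c2568 c18192 c2631 c18191 (k1 c6335 k0)))) (by decide +kernel)
def c18194 : PP 9 3 T 0x221000000000000000000000000000200000000000000000000000000000000000000000000000000000000000000000000000010 := rS 0x12c2303550844b01f780a381d54bf40264f6ed5066b06a45e24322bcc36f59d0a4e6b156ed91b13099bd128f0f83c46f72482c8f4a (k8 c18185 c5520 c5516 c5334 c5333 c5331 c5329 c5517 (k8 c5568 c5567 c5565 c5564 c5382 c5381 c17660 c5573 (k8 c5421 c5419 c5417 c17162 c5477 c5475 c5325 c5326 (k8 c5478 c9695 c5374 c5522 c5523 c5525 c17731 c17168 (k8 c18193 c1056 c1128 c1957 c1954 c18073 c5642 c5504 (k8 c10477 c1113 c265 c3581 c2199 c13315 c9182 c12649 k0)))))) (by decide +kernel)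
def c18195 : PP 9 3 T 0x201000000000000000000000000000200000000000000000000000000000000000000000000000010000000000000000000000010 := rS 0x57876011d2cc0dfe86f99290625011a50a018a9ab6891d8b43dfedf0f79e39321915e65b0dbd674715989c527358ad55bb6899bd1e3b0f88dee491b91e959d (k8 c18194 c18185 c5520 c5518 c5334 c5333 c5331 c5517 (k8 c5332 c5568 c5565 c5382 c17660 c5573 c5422 c5421 (k8 c5419 c5417 c5570 c5574 c5571 c17162 c5477 c5475 (k8 c5474 c5325 c5326 c5478 c17674 c9695 c17705 c6344 (k8 c17743 c17189 c17847 c17558 c9793 c5235 c18007 c5414 (k8 c1058 c2543 c9744 c5642 c1113 c17846 c17828 c17931 (k8 c5672 c2568 c10690 c2111 c6335 c5694 c263 c3070 (k1 c3582 k0)))))))) (by decide +kernel)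
def c18196 : PP 9 3 T 0x2000000000000010000201000000000000000000000000000200000000000000000000000000000000000000000000000000000000000000000000000010 := rS 0x361dff0ceb266f1bd2b3a64 (k8 c18195 c18194 c18185 c5518 c5565 c17674 c17162 c6290 (k2 c17743 c5235 (k1 c17670 k0))) (by decide +kernel)
def c18197 : PP 9 3 T 0x10000201000000000000000000000000000200000000000000000000000000000000000000000000000000000000000000000000000010 := rS 0x77f65b1f6d2b3a64 (k8 c18195 c18194 c18185 c18196 c17558 c5238 c17372 c17665 k0) (by decide +kernel)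
def c18198 : PP 9 3 T 0x201000000000000000000000000000200000000000000000000000000000000000000000000000000000000000000000000000010 := rS 0x3f205edda07402647886e74b5db07c474a (k8 c18185 c5331 c5517 c17660 c5422 c17162 c5475 c9695 (k8 c18195 c1056 c1954 c18197 c17757 c13032 c17804 c2631 k0)) (by decide +kernel)
def c18199 : PP 9 3 T 0x2000000000000000000201000000000000000000000000000200000000000000000000000000000000000000000000000010000000000000000000000000 := rS 0x367df9d6d89e3726d285e04 (k8 c18198 c9709 c18185 c5521 c5518 c5335 c17660 c17162 (k2 c17743 c13831 (k1 c17669 k0))) (by decide +kernel)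
def c18200 : PP 9 3 T 0x8000001000000000000000000080000000000000000000000000000000000000000000000000000000000000000000000000000000020 := rS 0x69311b95b59e75b6 (k8 c17660 c17162 c7805 c8057 c5616 c12165 c5213 c5610 k0) (by decide +kernel)
def c18201 : PP 9 3 T 0x201000000000000000000000000000200000000000000000000000000000000000000000000000010000000000000000000000000 := rS 0xf92141a8b36884cdb4f6e77de599d236260f7b9241647089c76c6900ecc094a (k8 c18185 c18198 c18200 c53 c9744 c17660 c5571 c719 (k8 c5520 c5516 c5334 c5333 c5329 c5382 c5381 c17162 (k8 c314 c17287 c17252 c18199 c5238 c5664 c5528 c5529 (k4 c737 c315 c5871 c13001 (k1 c13038 k0))))) (by decide +kernel)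
def c18202 : PP 9 3 T 0x90000010000000000000000000000000000000000400000000000000000080000000000400400000000000000004400100000040044020 := rS 0x36240d60d089c62201 (k8 c53 c9730 c5571 c719 c2480 c2482 c18090 c5665 (k1 c746 k0)) (by decide +kernel)
def c18203 : PP 9 3 T 0x2000000000000010000201000000000000000000000000000200000000000000000000000000000000000000000000000000000004000000000000000000 := rS 0x7ca05156fb4d526a6bb8cdac43d384eac7f790c8af37aacd62b556a06268f0f83dee492395c723f038f62201579bd57017ebffbe374da84c3e304a4c267d08810e3b63c9dd93b0f0e772664660ee953a (k8 c17162 c18185 c5332 c17385 c18201 c17674 c17168 c6290 (k8 c5235 c5396 c2053 c2386 c17660 c5571 c18198 c719 (k8 c5566 c5564 c5444 c311 c17785 c5445 c5398 c8100 (k8 c5518 c17743 c5544 c5542 c5502 c5500 c5565 c1130 (k8 c53 c9730 c5436 c5432 c5318 c5317 c5313 c5520 (k8 c5334 c5333 c5329 c5517 c5568 c5382 c5380 c5573 (k8 c5422 c5421 c5574 c5477 c5325 c5326 c5478 c17988 (k8 c18202 c1968 c12655 c5669 c17716 c742 c1775 c1765 (k8 c5665 c1958 c18088 c12713 c1139 c18003 c15912 c5550 k0)))))))))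 (by decide +kernel)
def c18204 : PP 9 3 T 0x40005000000000000000210040000000000000000000000000000000000000000000140000000000000000000000001000000000000000000000000000000 := rS 0x3db1d0313 (k4 c5382 c5380 c9140 c15912 (k1 c5669 k0)) (by decide +kernel)
def c18205 : PP 9 3 T 0x200000000000000000000000008000000100000000000000000440000000000000000000000400000004000015004000000010140 := rS 0xd5219146a31 (k4 c5476 c5324 c5326 c5478 (k2 c15288 c3588 k0)) (by decide +kernel)
def c18206 : PP 9 3 T 0x2000000000000010000201000000000000000000000000000200000000000000000000000000000000000000000000000000000000000000000000000000 := rS 0xd43f47082d37035dbff3251e7c67704b2527b0efe7599e180ceb2681099f47637a515c66391f81c7a11021c76c64 (k8 c18201 c17660 c5571 c18198 c719 c5436 c5432 c5318 (k8 c5317 c5316 c5313 c18185 c5518 c5332 c5566 c5564 (k8 c5380 c17674 c17162 c5502 c6290 c17385 c17168 c17743 (k8 c5235 c5444 c5396 c311 c2053 c17785 c2386 c18203 (k8 c5546 c2510 c2192 c18204 c3062 c1714 c18205 c12613 (k2 c5778 c2999 k0)))))) (by decide +kernel)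
def c18207 : PP 9 3 T 0x10000201000000000000000000000000000200000000000000000000000000000000000000000000000000000000000000000000000000 := rS 0x3a5855673db3a7b844e3b6d98129464 (k8 c18201 c18185 c18198 c18200 c17660 c5571 c719 c5333 (k4 c17162 c18206 c5238 c17732 (k2 c17252 c2121 (k1 c313 k0)))) (by decide +kernel)
def c18208 : PP 9 3 T 0x201000000000000000000000000000200000000000000000000000000000000000000000000000000000000000000000000000000 := rS 0x23a8b7fc0c94fc489643ad0f6fcfbc0dceec443b4326cc220478bccb6f59d1c4e6b5db2362613478ec1ef7058de945d (k8 c17796 c18185 c5518 c5516 c5333 c5329 c5332 c5568 (k8 c5564 c5382 c5381 c17660 c5422 c5419 c5571 c17162 (k8 c5477 c5474 c5325 c9695 c18198 c719 c18200 c18201 (k8 c18207 c5528 c9578 c17731 c315 c17688 c13038 c17743 (k8 c17847 c9172 c9442 c9793 c17804 c12647 c2631 c2568 (k2 c12080 c6335 (k1 c12681 k0))))))) (by decide +kernel)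
def c18209 : PP 9 3 T 0x100000000000100000000000000000800000000000000000000000000000000000004014000000000000000 := rS 0x7be3 (k2 c5466 c1494 (k1 c5655 k0)) (by decide +kernel)
def c18210 : PP 9 3 T 0x92000010000000000000000000000000000000000100000000000540000000000000000000000002004000000000000000000000000000 := rS 0x35450da9d59b2d6a99 (k8 c5447 c5422 c5420 c5574 c1538 c2428 c6118 c5665 (k1 c1139 k0)) (by decide +kernel)
def c18211 : PP 9 3 T 0x2000000000000000000201000000000000000000000000000000000000000000000000000000000000000000000000800010000004000000000000000000 := rS 0x41834f2e31fb5de65b7aa34def788906b31c45ed50a87709f5bec7059d4cdb3348052bb004a3f3a59089c76d3a3d95809939483e945d (k8 c17796 c18185 c5329 c18208 c17674 c17704 c10195 c886 (k8 c17162 c17660 c5571 c719 c314 c17252 c5568 c16665 (k8 c5209 c5446 c53 c9744 c18200 c5664 c2005 c5516 (k8 c17545 c14796 c5566 c10249 c5499 c5541 c12711 c737 (k8 c12681 c17561 c12628 c9730 c5333 c5565 c5381 c5477 (k8 c5474 c5325 c2187 c406 c18209 c18210 c370 c2056 (k1 c3571 k0))))))) (by decide +kernel)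
def c18212 : PP 9 3 T 0x2000000000000000000201000000000000000000000000000000000000000000000000000000000000000000000000000010000004000000000000000000 := rS 0x7871f859a33ef1de266f1dbdc6f116281cc23567ed50a87709f5bec7059d4cdb3348052bb004a3f3a59089c76d3a3d95809939483e945d (k8 c17796 c18185 c5329 c18208 c17674 c17704 c10195 c886 (k8 c17162 c17660 c5571 c719 c314 c17252 c5568 c16665 (k8 c5209 c5446 c53 c9744 c18200 c5664 c2005 c5516 (k8 c17545 c14796 c5566 c10249 c5499 c5541 c12711 c5543 (k8 c5324 c5445 c713 c13953 c9730 c5518 c5333 c5332 (k8 c5565 c5382 c18211 c17716 c5492 c5495 c6344 c17563 (k2 c5669 c18210 k0))))))) (by decide +kernel)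
def c18213 : PP 9 3 T 0x100000000000100000000000000000800000000000000000000000000000000000000014040000000000000 := rS 0x7be3 (k2 c5466 c1493 (k1 c5655 k0)) (by decide +kernel)
def c18214 : PP 9 3 T 0x2000000000000000000201000000000000000000000000000000000000000000000000000000000000000000000000800010000000000000000000000000 := rS 0x83069e5c63f6bbccb6f5469bdee3788906b31c45ed50a87709f5bec7059d4cdb3348052bb004a3f3a59089c76d3a3d95809939483e945d (k8 c17796 c18185 c5329 c18208 c17674 c17704 c10195 c886 (k8 c17162 c17660 c5571 c719 c314 c17252 c5568 c16665 (k8 c5209 c5446 c53 c9744 c18200 c5664 c2005 c5516 (k8 c17545 c14796 c5566 c10249 c5499 c5541 c12711 c737 (k8 c12681 c17561 c12628 c9730 c5518 c5333 c5565 c5381 (k8 c5477 c5474 c5325 c2187 c406 c18213 c18210 c370 (k2 c2056 c3571 k0))))))) (by decide +kernel)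
def c18215 : PP 9 3 T 0x2000000000000000000201000000000000000000000000000000000000000000000000000000000000000000000000000010000000000000000000000000 := rS 0x1c43ff1f8466d5ef1dfe64a6fb858e81469f5128f058dc139d6281cc235209ecac0f3aa576193acc711666d9d28d2019d044e3b62c812525d (k8 c17796 c18208 c17704 c314 c17660 c5571 c719 c17162 (k8 c53 c9744 c18185 c18200 c5664 c737 c12681 c17561 (k8 c17674 c5209 c5446 c2005 c5329 c10195 c886 c12628 (k8 c5324 c5445 c713 c13953 c17252 c16665 c5518 c5516 (k8 c5568 c5567 c5566 c5381 c5380 c17545 c10249 c14796 (k8 c18212 c5546 c18214 c17716 c5454 c5492 c6344 c17987 (k2 c405 c5691 (k1 c18213 k0)))))))) (by decide +kernel)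
def c18216 : PP 9 3 T 0x201000000000000000000000000000000000000000000000000000000000000000000000000000010000000000000000000000000 := rS 0x1f342834da21da7b5166634e77dfb308804b2049d1c76c8d8983dee490591e9529 (k8 c18208 c18185 c5520 c5516 c5334 c5333 c5329 c5382 (k8 c5381 c17660 c5571 c17162 c17704 c314 c53 c719 (k8 c18200 c17287 c17252 c9744 c5664 c737 c18215 c5238 (k4 c5528 c5529 c315 c5871 (k2 c13038 c13001 k0))))) (by decide +kernel)
def c18217 : PP 9 3 T 0x2000000000000000000221000000000000000000000000000000000000000000000000000000000000000000000000000000000000000000000000000000 := rS 0x10810aab78bcc36f59d07c46f705d28d21dc9ca41afd35aa50664 (k8 c18216 c5525 c1957 c5523 c1128 c5522 c18208 c17674 (k8 c8808 c124 c18185 c5516 c5333 c5331 c5517 c17162 (k8 c5477 c5475 c5325 c9695 c5500 c5541 c3581 c18076 (k1 c265 k0)))) (by decide +kernel)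
def c18218 : PP 9 3 T 0x221000000000000000000000000000000000000000000000000000000000000000000000000000000000000000000000000000010 := rS 0x12c2303550844b01f780a38f121915e6f514ac55bb646c4c266f44a3c3e0f11bdc920b23d28021b9d077272948835fa6b54a0cc9ed (k8 c18217 c18216 c5525 c1957 c5523 c1128 c5522 c5374 (k8 c18208 c17674 c8808 c17162 c5475 c1056 c18185 c5520 (k8 c5516 c5334 c5333 c5331 c5329 c5517 c5568 c5567 (k8 c5565 c5564 c5382 c5381 c17660 c5573 c5421 c5417 (k8 c5477 c5325 c5326 c5478 c9695 c18073 c5642 c5504 (k8 c2139 c1113 c265 c3581 c2199 c13315 c9182 c12649 k0)))))) (by decide +kernel)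
def c18219 : PP 9 3 T 0x221000000000000000000000000000000000000000000000000000000000000000000000000000000000000000000000000000000 := rS 0x16422049d1c76d4a0e9932729 (k8 c18208 c17674 c18216 c8808 c18185 c17660 c5571 c17162 (k4 c18218 c719 c313 c17252 k0)) (by decide +kernel)
def c18220 : PP 9 3 T 0x2000000000000000000201000000000000000000000000000000000000000000000000000000000000000000000000000000000000000000000000000010 := rS 0x1c43f3fb5d89dff037dc2d3489ecf2c73a904d806ac9ac051c7890c8a310c9c452b156ed90313099bcfa8f7b8dcc27764ec222010de7556fdda874c9939487e953a (k8 c17162 c18185 c5517 c18208 c17674 c18216 c8808 c17757 (k8 c5542 c5500 c18219 c5475 c1056 c9730 c5209 c5396 (k8 c2053 c5445 c5518 c5333 c5568 c5566 c5565 c5564 (k8 c5382 c5380 c17660 c5573 c5421 c5417 c5571 c6205 (k8 c5476 c5326 c5478 c9695 c18073 c5642 c17911 c5341 (k8 c17764 c5665 c1734 c1452 c13650 c1454 c742 c746 (k8 c2082 c10249 c14796 c5669 c6344 c17716 c1765 c841 (k2 c406 c14941 (k1 c18213 k0))))))))) (by decide +kernel)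
def c18221 : PP 9 3 T 0x100000000000100100000000000000000800000000000000000000000000000000000014000000000000000 := rS 0x7be3 (k2 c5465 c1492 (k1 c5655 k0)) (by decide +kernel)
def c18222 : PP 9 3 T 0x201000000000000000000000000000000100000000000000000000000000000000000000000000000000000000000000000000020 := rS 0x1d1a9df6bb4c7f5945091e2432296c36cb138a562ad4684cfa8950a555e6f3bb242271db1643a412b25d8a0730ec06b3a94e4cc85d (k8 c17796 c18216 c17674 c18208 c17162 c5324 c5209 c5445 (k8 c713 c13953 c1127 c10195 c12628 c8808 c313 c17660 (k8 c5571 c719 c5396 c2053 c5565 c1130 c5446 c5398 (k8 c5567 c5566 c5564 c5381 c5573 c5421 c5417 c5570 (k8 c5420 c5475 c5474 c5326 c5478 c9695 c3582 c12615 (k8 c5559 c2909 c2939 c18221 c17832 c9617 c17716 c1532 k0)))))) (by decide +kernel)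
def c18223 : PP 9 3 T 0x201000000000000000000000000000000000000000000000000000000000000000000000000200000000000000000000000000020 := rS 0x3df18fdac336a8c53fb63ea859295579bcb21d4bb140e61d80d67464acb4e38412b64e525d (k8 c17796 c18208 c17674 c10195 c12628 c18222 c2082 c5341 (k8 c18216 c17162 c5324 c5209 c5445 c713 c13953 c1127 (k8 c8808 c313 c5565 c1130 c5446 c5396 c5398 c5566 (k8 c17660 c5572 c5476 c1532 c1963 c18016 c405 c5465 (k2 c1491 c5655 k0))))) (by decide +kernel)
def c18224 : PP 9 3 T 0x201000000000000000000000000000000000000000000000000000000000000000000000000000000000000000000000000000020 := rS 0x77cea7b629676609038d6949b30a55321d3bb276129c9c4402640dceb3a5d (k8 c17796 c18219 c17162 c5475 c18216 c1056 c9730 c17674 (k8 c18208 c5209 c5396 c2053 c8808 c5447 c5446 c5445 (k8 c5397 c18185 c5324 c713 c16665 c18200 c313 c13953 (k4 c17741 c18223 c18102 c17716 k0)))) (by decide +kernel)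
def c18225 : PP 9 3 T 0x10000201000000000000000000000000000000000000000000000000000000000000000000000000000000000000000000000000000000 := rS 0x1dfd96d8761f11bdc6f4acefb40c0202804373a326c25393 (k8 c17674 c18208 c5209 c18216 c17162 c5475 c1056 c18224 (k8 c5642 c17764 c18220 c18219 c18185 c5518 c5333 c5331 (k4 c5517 c5332 c17660 c5238 (k2 c7702 c17192 k0)))) (by decide +kernel)
def c18226 : PP 9 3 T 0x201000000000000000000000000000000000000000000000000000000000000000000000000000000000000000000000000000000 := rS 0x8441c0957b4f68080b9d009a4c8f71187e951378ed8373a (k8 c17162 c5475 c17660 c9695 c5382 c18185 c5517 c5331 (k8 c5333 c18216 c124 c1056 c18219 c18224 c5642 c18220 (k4 c18225 c5413 c13032 c17846 (k2 c5733 c2629 k0)))) (by decide +kernel)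
def c18227 : PP 9 3 T 0x6000000000000000000021000000000000000100000000000200100000000000000400800000000000000000100000000000000000000000000000010000 := rS 0x6ffcc9088238488ba17bb4602ff478ffc33a (k8 c17162 c6290 c5318 c5526 c5544 c5502 c5501 c5498 (k8 c18226 c5326 c12617 c13598 c8818 c17912 c17748 c2946 (k1 c10298 k0))) (by decide +kernel)
def c18228 : PP 9 3 T 0x2000000000000010000021000000000000000000000000000200100000000000000000000000000000000000100000000010000000010000000000000010 := rS 0x454da6811c0c3e004492421596b38c97ef219146a1b189c5662939ad55ba143aad0b11489ad068f198fc7ad5698ebbcd179bd5efb1d9eda754b (k8 c17168 c17162 c17660 c17706 c17171 c5498 c5477 c5325 (k8 c5501 c17705 c17847 c5496 c5454 c5436 c5318 c5316 (k8 c5526 c5525 c5523 c5374 c5371 c5541 c5500 c5499 (k8 c18226 c5573 c5422 c5419 c5417 c5574 c5571 c5476 (k8 c5475 c5324 c5326 c5478 c17819 c562 c1773 c3588 (k8 c18142 c18227 c3026 c2749 c13284 c17974 c7820 c9731 (k4 c12887 c17351 c6578 c13635 k0))))))) (by decide +kernel)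
def c18229 : PP 9 3 T 0x2000800000000001000021000000000000000000040000000000000000000000000000000000000000000000000000000010000000020000000000010000 := rS 0x5f31985004b0964d9673db6841b59 (k8 c5340 c5522 c18226 c17660 c5419 c5420 c17674 c12617 (k4 c12638 c298 c10400 c937 (k2 c1746 c5663 k0))) (by decide +kernel)
def c18230 : PP 9 3 T 0x2000000000000010000021000000000000000000000000000200100000000000000000000000000000000000100000000010000000000000000000000010 := rS 0x13a994d988461f002242040c990de6317a9c566295aab7428755a16229135a0d1e391bf87bdb1d9eda754b (k8 c17168 c17162 c17660 c17706 c17171 c17705 c6290 c5435 (k8 c5317 c5526 c5525 c5523 c5374 c5371 c5541 c5500 (k8 c5499 c18226 c5573 c5422 c5417 c5574 c5571 c5477 (k8 c5476 c5325 c5478 c17674 c18228 c18229 c2749 c13284 (k4 c17974 c9731 c16365 c7393 (k2 c9107 c1274 (k1 c5679 k0))))))) (by decide +kernel)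
def c18231 : PP 9 3 T 0x2000000000000010000021000000000000000000000000000200100000000000000000000000000000000000000000000010000000000000000000000010 := rS 0x2437ab2d671fcc824b2384519b1d9ed886451a96c63a106a3c663f1ef8696d5698ebbcd179bd674f7 (k8 c5498 c17162 c5477 c5325 c5501 c17705 c17847 c5496 (k8 c5454 c17168 c6290 c5436 c5318 c5316 c5526 c5522 (k8 c18226 c5476 c5474 c5324 c5326 c5478 c17660 c17706 (k8 c17171 c18230 c701 c13598 c12638 c18229 c17748 c1773 (k4 c3588 c18142 c10298 c5660 (k1 c2946 k0)))))) (by decide +kernel)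
def c18232 : PP 9 3 T 0x2000000000000000000021000000000000000000040000000000200000000000000000000000000000000000000000000010000004000800000000010010 := rS 0x220f88438250119803b38a963e4690911d18b3138a4e6b15aedb426b47d6492f7 (k8 c5498 c513 c5341 c5526 c5523 c18226 c17660 c5422 (k8 c5421 c5419 c5417 c5570 c5574 c13277 c13598 c12617 (k8 c946 c5660 c299 c5590 c17760 c17790 c5664 c5642 (k4 c12632 c2003 c3636 c1111 (k2 c3584 c483 k0))))) (by decide +kernel)
def c18233 : PP 9 3 T 0x2000000000000008000001000000000000000000040000000000200000000000000000000000000000000000000000000000000004000000000000000000 := rS 0x11412eda07597ace892f7 (k8 c5498 c513 c17162 c5477 c5341 c7820 c17660 c7601 (k2 c11235 c7822 k0)) (by decide +kernel)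
def c18234 : PP 9 3 T 0x2000000000000010000021000000000000000000040000000000200000000000000000000000000000000000000000000010000004000800000000000010 := rS 0x8e286d001a366674523421032dbd67471598a4e6b556edb428755a16229135a0d1fefaca2492f7 (k8 c5498 c513 c12630 c5341 c5504 c5526 c5525 c5523 (k8 c5374 c5371 c5541 c5500 c5499 c18226 c17660 c5573 (k8 c5422 c5419 c5417 c5574 c5571 c17162 c5477 c5474 (k8 c7820 c18232 c701 c5673 c737 c18233 c5664 c13284 (k4 c832 c13635 c9731 c6578 k0))))) (by decide +kernel)
def c18235 : PP 9 3 T 0x2000000000000010000021000000000000000000000000000200000000000000000000000000000000000000000000000010000000000000000000000010 := rS 0xf1a04fa7f20041bff32538c931cc9e85220d1c81c7be1a58ebbcd179bd674f7 (k8 c5498 c17162 c5477 c5325 c5501 c17705 c17847 c17168 (k8 c6290 c5436 c5432 c5317 c5522 c5374 c18226 c17674 (k8 c18231 c513 c1774 c18234 c5546 c2510 c12638 c562 (k4 c10493 c2747 c699 c5462 (k1 c5670 k0))))) (by decide +kernel)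
def c18236 : PP 9 3 T 0x2005000000000000000000000000000000000100040008000000100000000000000500000000000000000000000000000000000004404000000000000000 := rS 0x37891f3 (k4 c17748 c5660 c5691 c2946 k0) (by decide +kernel)
def c18237 : PP 9 3 T 0x4000000000000020000021000000000000000000000000000000000000000000000000000000000000000000000000000010000000800000000000000000 := rS 0x11689469b821132196e7471599cd6bb6d0a44d68f (k8 c5526 c5523 c5374 c18226 c17660 c5422 c5419 c5574 (k8 c5571 c17162 c5474 c5478 c12623 c13598 c18007 c701 (k2 c2749 c2979 (k1 c5673 k0)))) (by decide +kernel)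
def c18238 : PP 9 3 T 0x2000800000000000000000000000000000000000040008000200100000000000000000000000000000000000000000000000000000410000000000000000 := rS 0xe1acb59c64b219146a311ff85a63a68bcdeaf7f18cc7ad5 (k8 c5454 c5436 c5316 c17803 c5498 c5477 c5325 c5501 (k8 c17847 c5496 c6290 c5318 c5476 c5324 c5326 c5478 (k4 c562 c1773 c3588 c18142 (k2 c1720 c18236 k0)))) (by decide +kernel)
def c18239 : PP 9 3 T 0x2000800000000001000021000000000000000000000000000200100000000000000000000000000000000000000000000010000000400000000000000000 := rS 0xe03f129024908564fa40f9f8f27a1488cc0e3da5b5474d179bd674f7 (k8 c5498 c17162 c5477 c5325 c5501 c17847 c5454 c17168 (k8 c5436 c5432 c5316 c5374 c18226 c17674 c17803 c17748 (k8 c18238 c12625 c5340 c18229 c3026 c699 c5660 c5670 (k2 c563 c3058 k0)))) (by decide +kernel)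
def c18240 : PP 9 3 T 0x2000000000000000000021000000000000000000000000000200000000000000000000000000000000000000000000000010000000000000000000000010 := rS 0x96114622ccc6944c708fefd8aa4db15da0ebbcf32dbd67471599cd6bb6d0bdd0ed142bf62291069ad1f4b (k8 c17168 c5526 c5523 c5522 c5374 c5371 c5542 c5541 (k8 c5501 c5499 c5498 c18226 c17660 c5422 c5419 c5574 (k8 c5571 c17162 c5477 c5474 c5325 c17705 c17847 c18235 (k8 c5414 c5529 c5531 c17700 c17711 c18237 c18239 c12630 (k4 c13610 c17965 c737 c5673 (k2 c701 c12638 (k1 c18232 k0))))))) (by decide +kernel)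
def c18241 : PP 9 3 T 0x1400000000004000021000000000000000000040000000200000000000000000000000000000000000000001000000020000000000000000800000010 := rS 0xc66fb8e267f62205c31423124dc7d4b17ab2a1126c1e2351886726cbd09ecf28f1f85c6e3d0e808021b9d12c53b6 (k8 c17660 c5417 c560 c17162 c5475 c1056 c5642 c1954 (k8 c5436 c5435 c5433 c5318 c5526 c5524 c5372 c18226 (k8 c5420 c17674 c6205 c5476 c5324 c9695 c17688 c14066 (k8 c5398 c17758 c17496 c17904 c17814 c17670 c10629 c1263 (k8 c1262 c6188 c1746 c1127 c2919 c12623 c2347 c2950 (k2 c5910 c838 k0)))))) (by decide +kernel)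
def c18242 : PP 9 3 T 0x2000000000000000000021000000000000000000000000000200100000000000000000000000000000000000000000000000000000000000000000000010 := rS 0xe880639f4ffe33033592776aa5d8bded9e4ce29fdb6850ed142b3cf679418cc2e3df0a243a9b1107c04010dd2f6a647bbf6746b (k8 c5523 c17162 c5542 c5498 c18240 c17850 c17168 c5475 (k8 c1056 c5642 c1111 c6197 c7393 c1954 c17792 c6290 (k8 c5436 c5433 c5316 c5525 c5524 c5372 c5543 c5541 (k8 c5501 c5499 c18226 c17660 c5572 c5571 c17674 c17706 (k8 c18241 c5451 c5452 c5454 c5493 c5494 c5495 c17928 (k4 c17803 c728 c1579 c727 (k2 c5670 c3607 (k1 c1749 k0)))))))) (by decide +kernel)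
def c18243 : PP 9 3 T 0x2000000000000000000021000000000000000000000000000200000000000000000000000000000000000000000000000000000000000000000000000010 := rS 0xf131cfe6064a5fbd13409f5c3b308126b31c25889361f016d43a8d0099297e11e85c0e33c986e747114ac76da17ba15fa6b (k8 c5523 c5542 c5541 c5498 c18226 c17660 c5421 c5417 (k8 c5571 c17162 c5475 c17674 c5316 c5432 c5433 c5436 (k8 c6290 c17168 c18240 c1056 c2171 c1954 c17850 c5642 (k8 c1111 c7393 c6197 c560 c18242 c5341 c513 c13277 (k8 c18233 c6188 c2747 c699 c704 c18241 c5452 c5494 (k4 c17928 c728 c727 c5670 (k1 c17854 k0))))))) (by decide +kernel)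
def c18244 : PP 9 3 T 0x400000000000000021000000000000000000000000000000100000000000000000000040000000000004001010000020000000000000000810010010 := rS 0x1b3802c8189f8915ef570947a19c99c563a101004373aa592c53b6 (k8 c17660 c5417 c560 c5331 c17162 c5475 c1056 c5642 (k8 c18226 c5421 c5571 c17674 c6205 c12640 c12632 c12515 (k8 c17631 c1131 c17714 c858 c5463 c18098 c17854 c1259 (k1 c1483 k0)))) (by decide +kernel)
def c18245 : PP 9 3 T 0x2000000000000000000021000000000000000000000000000000100000000000000000000000000000000000000000000000000000000000000000000010 := rS 0x8ce040c0fc51324d64204322e8602857fa45263b63866964b110841af17abcd56a914edbbe7d621d40c313ca0cf7b57bbf4eec9d8077261f01004366b9d224c929 (k8 c18243 c17704 c17792 c17162 c5523 c5475 c1056 c5642 (k8 c1111 c17674 c8808 c5209 c5396 c2053 c5542 c5498 (k8 c17850 c5372 c5525 c5524 c5476 c17764 c1452 c13753 (k8 c1634 c5451 c17660 c5417 c1957 c5500 c5325 c5477 (k8 c9695 c5522 c265 c3581 c560 c5331 c6205 c13650 (k8 c1674 c5444 c5374 c5544 c5541 c5502 c18226 c5326 (k8 c5478 c18244 c5558 c3026 c704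 c5216 c7820 c5463 (k2 c17854 c3593 (k1 c2789 k0))))))))) (by decide +kernel)
def c18246 : PP 9 3 T 0x2000000000000000000021000000000000000000000000000000000000000000000000000000000000000000000000000000000000000000000000000010 := rS 0x1bf85c07f40c4fc41024fbe387def8e4974b620898e751d8843e06011dd53b50ea34028964993612978bcc36317ace8339314ac76da17baadfa7b069acf283 (k8 c5525 c5524 c5523 c5522 c5372 c5542 c5500 c5498 (k8 c18226 c17660 c5421 c5417 c17674 c6205 c17162 c5477 (k8 c5476 c5475 c5325 c9695 c18243 c5209 c17704 c5396 (k8 c17792 c1056 c2171 c8808 c17850 c1957 c2053 c5642 (k8 c17764 c1111 c265 c1674 c1452 c13650 c3581 c13753 (k8 c5331 c560 c395 c5451 c1634 c18245 c5504 c513 (k8 c13277 c17714 c704 c5463 c5577 c17854 c13945 c1484 (k1 c5654 k0)))))))) (by decide +kernel)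
def c18247 : PP 9 3 T 0x2000000000000000000021000000000000000000000000000200000000000000000000000000000000000000000000000000000000000000000000000000 := rS 0x77f634b23a3c4a11388047a418eeceb0131381342f12286e75b6 (k8 c17660 c17162 c5475 c5326 c9695 c18226 c18246 c5570 (k8 c317 c12635 c17812 c5341 c5340 c5560 c53 c5571 (k8 c719 c12632 c5526 c13598 c17168 c17815 c18238 c17688 k0))) (by decide +kernel)
def c18248 : PP 9 3 T 0x2000000000000000000021000000000000000000000000000000000000000000000000000000000000000000000000000010000000000000000000000000 := rS 0x3c4e269fbdafdf6ab7dc29d4625a2a1e1b52d17b505199126c2cbccb6f559a7d96b57ba1d56850783506233491d1e25089c4023dd9bc48a1b9d2040e41ac04c4fb6d0a4d429b4cec0765694e4c085d (k8 c17796 c18246 c17674 c18247 c10195 c10737 c5209 c5447 (k8 c5397 c5398 c5444 c18226 c17660 c5570 c317 c12635 (k8 c5340 c8467 c12653 c17162 c5475 c5326 c9695 c17812 (k8 c5560 c53 c5571 c719 c12632 c5526 c13598 c9744 (k8 c9734 c5525 c5522 c5369 c5541 c5500 c5499 c5498 (k8 c5422 c5420 c5572 c5574 c5477 c5474 c5325 c314 (k8 c12456 c17729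 c5664 c3571 c5529 c737 c5516 c771 (k8 c718 c17782 c17226 c8187 c1480 c1483 c2331 c13321 (k4 c5452 c1767 c5505 c2084 (k2 c3620 c5689 (k1 c5466 k0))))))))))) (by decide +kernel)
def c18249 : PP 9 3 T 0x2000000000000000000021000000000000000000000000000000000000000000000000000000000000000000000000000000000000000000000000000000 := rS 0x283e594b874c83b4ab14adb09481c08830683f26357996deb3a7ba1d0a5d (k8 c17796 c5541 c5499 c5498 c17162 c5477 c5474 c5325 (k8 c5324 c17674 c5369 c5522 c5525 c18246 c8467 c18247 (k8 c5209 c10195 c13953 c5446 c10737 c18248 c8808 c1127 (k4 c313 c17891 c3571 c718 k0)))) (by decide +kernel)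
def c18250 : PP 9 3 T 0x1000000000000000100000000000200100000000000000000100080000000000000100101400000000000800000000000010000 := rS 0x6b904fe7c0923a7593d08cc7e3d (k8 c5436 c5318 c5316 c18226 c17674 c17162 c13598 c12617 (k4 c2487 c2924 c298 c1550 (k1 c18089 k0))) (by decide +kernel)
def c18251 : PP 9 3 T 0x2000000000000020000001000000000000000000000000000200100000000000000000100080000000000000100101400400000000000000000000001804 := rS 0x6f47842b24648c4fe5e3c99c566735aedb439d198f7c33a (k8 c17162 c6290 c5436 c5316 c18249 c18226 c17660 c5422 (k8 c5419 c5574 c5571 c17674 c17803 c5188 c5547 c5589 (k4 c17748 c12917 c18250 c2752 (k2 c2746 c18007 k0)))) (by decide +kernel)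
def c18252 : PP 9 3 T 0x2000000000000000000001000000000000000000000000000200000000000000000000000000000000000000000000000010000000000000000000000010 := rS 0x113489bd1ff224a26b31c050358c813d9ad1a623400fdfb1001e76911d98ea96776ab17bd931abccb61b7a9c566735aedb42f768bf5ff9d1bf86740f (k8 c9739 c17162 c6290 c5435 c18249 c5544 c5542 c5501 (k8 c5498 c18226 c17660 c5422 c5419 c5574 c5571 c5477 (k8 c5475 c5474 c5325 c5324 c17674 c17705 c5451 c5454 (k8 c5493 c17743 c17847 c14091 c9727 c5211 c1536 c14188 (k8 c17700 c17711 c28 c12887 c16365 c946 c1223 c888 (k8 c937 c10247 c17963 c5645 c18251 c5341 c12630 c513 (k4 c5221 c8824 c1226 c13505 (k2 c5547 c18007 k0)))))))) (by decide +kernel)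
def c18253 : PP 9 3 T 0x2000000000000000000001000000000000000000040000000200000000000000000000000000000000000000000000000000000000000000000000000010 := rS 0x190975724d2a5e4d2460661637c8f27bac82a27b4353c46a310ce4d6bb6d0aae02857ebff3a330385c6fe10799c3a0200990373a (k8 c17162 c5475 c18252 c1056 c5642 c1954 c63 c9739 (k8 c6290 c5435 c5433 c5432 c5316 c18249 c5544 c5542 (k8 c5541 c5502 c5500 c18226 c17660 c5422 c17674 c6205 (k8 c5476 c5324 c9695 c13095 c5211 c2600 c12505 c12917 (k8 c690 c2307 c5221 c5669 c10425 c5550 c5589 c2482 (k4 c2483 c1956 c262 c18005 (k2 c1231 c3577 (k1 c4019 k0)))))))) (by decide +kernel)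
def c18254 : PP 9 3 T 0x2000000000000000000001000000000000000000000000000200000000000000000000000000000000000000000000000000000000000000000000000010 := rS 0x623192c5e3cec0d86b666d43e3ba54443a6478e4c6a1b18bdd56857ee77c33a (k8 c17162 c6290 c18249 c5542 c5541 c5500 c5498 c5476 (k8 c5475 c5324 c17674 c9695 c18252 c1954 c1269 c18253 (k8 c5332 c5517 c17804 c17385 c17911 c5665 c5235 c4637 (k4 c17496 c17904 c6192 c1127 (k1 c838 k0))))) (by decide +kernel)
def c18255 : PP 9 3 T 0x2000000000000000000001000000000000000000000000000200000000000000000000000000000000000000000000000000000000000000000000000000 := rS 0x1e2ef7cf63b323c76b01302785e2450dce8339313edb439d (k8 c18249 c18226 c17660 c5570 c17674 c6205 c17162 c5475 (k8 c5326 c9695 c6290 c18254 c317 c12635 c5341 c5562 (k4 c17812 c17758 c17748 c17688 (k2 c5188 c17693 k0)))) (by decide +kernel)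
def c18256 : PP 9 3 T 0x2000000000000000000001000000000000000000040000000000000000000000000000000000000000000000000000000000000000000000000000000010 := rS 0xac02be713da780d53a78ad76da155a173bb0c983cc929 (k8 c18255 c17704 c9739 c17674 c5209 c18249 c5541 c5500 (k8 c18226 c17660 c5422 c9695 c17162 c13095 c5215 c5211 (k4 c2600 c7694 c12505 c5221 (k1 c12917 k0)))) (by decide +kernel)
def c18257 : PP 9 3 T 0x2000000000000000000001000000000000000000000000000000000000000000000000000000000000000000000000000000000000000000000000000010 := rS 0x1ab0369b8dae7d45a0fc4c48977fe6cd70b7fc07b47a44d879639af6a370587e9406014443a8d00a24c8f10dce8e2b358edb42f755b4602857eb3dff9d30ec25393 (k8 c17674 c18255 c5209 c5445 c18249 c5544 c5543 c5542 (k8 c5541 c5502 c5501 c5500 c5498 c18226 c17660 c5421 (k8 c5574 c5571 c17162 c5475 c9695 c17704 c17792 c1056 (k8 c2171 c8808 c1269 c5642 c17764 c18256 c5517 c5516 (k8 c5518 c17804 c17911 c674 c1454 c5665 c746 c2432 (k8 c742 c5669 c14796 c5460 c5537 c7694 c6344 c5675 (k8 c17710 c13765 c2605 c858 c1634 c5465 c5466 c5579 (k2 c10681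 c14520 (k1 c3627 k0))))))))) (by decide +kernel)
def c18258 : PP 9 3 T 0x2000000000000000000001000000000000000000040000000000000000000000000000000000000000000000000000000000000000000000000000000000 := rS 0x78fbfef70ed3c1b6d0b45fb9d4dec25393 (k8 c17674 c18255 c5209 c5397 c18249 c5542 c5501 c18226 (k8 c17660 c5215 c5211 c5460 c17711 c13565 c17720 c17714 k0)) (by decide +kernel)
def c18259 : PP 9 3 T 0x2008000000000000000001000000000000000000000000000000000000000000000000000000000000000001000002000000000000000000000000000000 := rS 0x2288e4eb8626b365ad73bb094e4e2201f9c767447ac04c4fb602685c6df (k8 c5580 c5466 c18226 c18257 c17660 c5570 c317 c12635 (k8 c5562 c17162 c5341 c17748 c53 c9730 c17674 c18255 (k8 c5209 c18249 c5422 c5420 c5574 c2602 c1542 c1538 (k2 c5675 c6118 (k1 c2845 k0))))) (by decide +kernel)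
def c18260 : PP 9 3 T 0x2000400000000000000001000000000000000000000000000000000000000000000000000000000000000000000000000010000000000000000000000000 := rS 0x20c1a793b7890e85ce9598a071a83c16593aa576129c9a45188b336ceb01313bc43671f7d2886f57991497a180a276d3a34804085d (k8 c17796 c18257 c53 c9744 c17162 c17660 c17729 c5502 (k8 c18226 c12639 c5326 c5325 c5477 c5478 c18258 c17894 (k8 c5571 c5475 c9695 c5570 c317 c12635 c17812 c5664 (k8 c737 c5673 c10035 c17674 c18255 c5209 c5446 c2005 (k8 c314 c5516 c5329 c5324 c8467 c13953 c10195 c18249 (k8 c5541 c5499 c13765 c17716 c18259 c370 c2056 c5777 k0)))))) (by decide +kernel)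
def c18261 : PP 9 3 T 0x2000000000000000000001000000000000000000000000000000000000000000000000000000000000000000000000000010000000000000000000000000 := rS 0x1e3f0b3466d5ef34d188b332246a31389a402812b64e53b37886fe71d23d602627db7be94437abcc8b3a258134301 (k8 c5502 c18226 c18257 c12639 c17162 c5326 c5325 c5477 (k8 c5478 c18258 c17894 c17660 c5570 c317 c12635 c5562 (k8 c5341 c17748 c5475 c9695 c17812 c18255 c17674 c10195 (k8 c12626 c53 c9744 c5571 c5476 c5324 c17729 c5664 (k8 c737 c5673 c2084 c18260 c5454 c5492 c5495 c6344 (k2 c17693 c16172 k0)))))) (by decide +kernel)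
def c18262 : PP 9 3 T 0x2000000000000000000001000000000000000000000000000000000000000000000000000000000000000000000000000000000000000000000000000000 := rS 0x1dff09d53aa935240dd135723d14973b8751a893399205efda82c920f0fd2be6478ed618a7b1284c0e4b0880408994aa6d93b09488f3aff67bf50b0155a1deef1c990c8a357986deb3a3889c52b156edb425d (k8 c17796 c18226 c17660 c5573 c5421 c5417 c5570 c5571 (k8 c17162 c5477 c5475 c5325 c5324 c5326 c5478 c17674 (k8 c9695 c5498 c5499 c5500 c5502 c5541 c5542 c5543 (k8 c5544 c18249 c9733 c18255 c5209 c5396 c5397 c5446 (k8 c5447 c18257 c53 c719 c12639 c8467 c317 c12632 (k8 c17741 c13953 c12635 c5341 c5562 c17748 c18258 c5517 (k8 c5329 c5334 c5516 c17828 c17894 c18038 c18261 c63 (k8 c17792 c2171 c8808 c2053 c1127 c8120 c2406 c3582 (k8 c858 c1130 c5675 c3039 c2376 c1136 c17606 c18012 (k2 c17889 c17716 k0)))))))))) (by decide +kernel)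
def c18263 : PP 9 3 T 0x400000000000000001000000000000000200000000000200000000000000000000000000000000000000000000000000000000000000000000000000 := rS 0x1b1d9bc76c450dce83393 (k8 c17674 c6205 c17162 c5475 c5326 c17660 c9695 c17812 (k2 c17758 c17688 k0)) (by decide +kernel)
def c18264 : PP 9 3 T 0x400000000000000021000000000000000000040000000200000000000000000000000000000000000000000000000000000000000000000000000010 := rS 0x31c96cd112ab6be23fa0588d13e8843e6e2f32542934b00b60fd0e8076664788d5e61b18bd67419c9b2c53b6d0fb41e0d358fc2e3d (k8 c5436 c5433 c5318 c5523 c5522 c5369 c18262 c18226 (k8 c17660 c5417 c5420 c17674 c6205 c17162 c5477 c5476 (k8 c5475 c5325 c5324 c9695 c17705 c17665 c1056 c1954 (k8 c1128 c17688 c5642 c17904 c5444 c5398 c5396 c17496 (k8 c17670 c11726 c265 c17814 c1709 c1127 c1746 c2919 (k8 c5670 c14065 c17732 c5650 c2075 c560 c839 c18098 k0)))))) (by decide +kernel)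
def c18265 : PP 9 3 T 0x400000000000000021000000000000000000040000000200000000000000000000000000000000000000000000000000000000000000000000000000 := rS 0x2604ac89f6da1 (k4 c18226 c17660 c5570 c18263 (k2 c18264 c317 (k1 c12635 k0))) (by decide +kernel)
def c18266 : PP 9 3 T 0x12000021000000000000000000040000000200000000000000000000000000000004000000000000000000000000000000000000000012 := rS 0x49050313f9125108b8eb8c24476327422210f114e2b34f89c52b5d0fb6227b069acf28f1f81c2e371eb54ee634da66b219c9fbd5ad34bf799623469a366350dce8e7b6 (k8 c17660 c5419 c17162 c5475 c5324 c17756 c12887 c946 (k8 c9731 c5420 c18265 c5452 c5496 c5573 c8156 c17674 (k8 c6205 c17758 c5447 c5397 c5395 c5493 c5454 c5436 (k8 c5435 c5433 c5432 c5318 c5526 c5524 c5523 c5522 (k8 c5372 c5371 c18262 c18226 c5422 c5417 c5570 c5572 (k8 c5574 c5571 c5326 c17176 c58 c17974 c1082 c10500 (k8 c13598 c12617 c12672 c13277 c2976 c8818 c18013 c6300 (k4 c5547 c940 c298 c13802 (k1 c17942 k0))))))))) (by decide +kernel)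
def c18267 : PP 9 3 T 0x4000800000000000000021000000000000000000000000000200101400000000000000000080000000000000000000001210000000000000000000000002 := rS 0x9208491688409bb26459d1c566b5d0c45226b478fc7ad53ba34e7b6 (k8 c17660 c5419 c946 c5493 c5454 c5436 c5318 c5526 (k8 c5523 c5374 c5371 c18226 c5422 c5574 c5571 c17162 (k8 c5326 c17674 c3604 c940 c1226 c2979 c1061 c298 (k2 c13802 c17942 k0)))) (by decide +kernel)
def c18268 : PP 9 3 T 0x4004800000000000000021000000000000000000000000000000001800000000000000000000000005001510010100001200000000000000000000000000 := rS 0xe2681f9fa7d80c09159338acd6ba188a44d68f4bb3daac966a34e7b6 (k8 c17660 c5419 c946 c5495 c5494 c5454 c5453 c5452 (k8 c5526 c5523 c5374 c5371 c18226 c5422 c5574 c5571 (k8 c17674 c5673 c13635 c3068 c2980 c2631 c5670 c3617 (k2 c810 c1780 k0)))) (by decide +kernel)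
def c18269 : PP 9 3 T 0x4000800000000000000021000000000000000000000000000200101800000000000000000000000005001510000100001200000000000000000000000000 := rS 0x201f0107f45a232645d08fceed3469cf6de3198f5ab3a (k8 c17162 c5454 c5436 c5316 c17803 c17660 c5419 c946 (k8 c5496 c5493 c5318 c18226 c5326 c17674 c18268 c130 (k4 c2921 c17942 c17884 c13802 (k1 c12625 k0)))) (by decide +kernel)
def c18270 : PP 9 3 T 0x800000000022000021000000000000000000000000000200100000000000000000000000000000000000000000000010000000000000000000000002 := rS 0x3e50171c0dc27f3ea01ff12f1e4d6ba1f69ec663d6aa6d2a99f7ab5a69765aad1a68d98d4373a39ed93b1536aa7c2c62f85cf311 (k8 c5371 c5524 c5433 c1054 c15975 c5535 c5531 c5529 (k8 c5414 c5412 c17660 c5419 c17162 c5475 c5324 c17756 (k8 c12887 c946 c17691 c5420 c5452 c5496 c5573 c8156 (k8 c5447 c5446 c5397 c5454 c5436 c5316 c5372 c18262 (k8 c18226 c5422 c17674 c17803 c18267 c2571 c18269 c193 (k4 c194 c1716 c13597 c2620 (k2 c9158 c5694 (k1 c5547 k0)))))))) (by decide +kernel)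
def c18271 : PP 9 3 T 0x2000021000000000000000000040000000200000000000000000000000000000000000000000000000010000000000000000000000010 := rS 0x44bc6813e9bc20898e2a4db154eed11a682faafde00d9a652a9b1a86e747159b2ce6b556edb429135a3c0e171ea5da7de (k8 c18265 c5496 c5452 c5436 c5433 c5432 c5526 c5523 (k8 c5374 c18226 c17660 c5573 c5422 c5419 c5420 c5574 (k8 c5571 c17162 c5475 c5324 c5397 c5446 c5447 c17756 (k8 c14159 c8156 c17691 c1054 c12887 c946 c18266 c5412 (k8 c5414 c5529 c5531 c18270 c12630 c13277 c1226 c2747 (k4 c699 c13779 c18007 c18268 k0)))))) (by decide +kernel)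
def c18272 : PP 9 3 T 0x4000000000000014000021000000000000000000040000000200000400000000000000000000000004001000110000001200000000000000000400000010 := rS 0x1a23b7baa041010fc51146f79bd674715989ce6b5db687db11489ad1fde (k8 c18265 c5526 c5523 c5374 c5371 c18262 c18226 c17660 (k8 c5422 c5419 c5570 c5574 c5571 c17162 c5477 c5325 (k8 c1226 c5673 c3604 c13749 c3068 c5650 c9222 c343 (k2 c341 c2025 (k1 c17847 k0))))) (by decide +kernel)
def c18273 : PP 9 3 T 0x4000000000000010000021000000000000000000040000000200100400000000000000000000000004001000100100001200000000000000000400000010 := rS 0x807c041fd1688c9917423f1eb54eed3ef6cf6d3a (k8 c17162 c17660 c17706 c18265 c5496 c5493 c5454 c5436 (k8 c5318 c18226 c5326 c17674 c18272 c130 c2921 c17942 (k2 c17884 c13802 (k1 c12625 k0)))) (by decide +kernel)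
def c18274 : PP 9 3 T 0x11000021000000000000000000040000000200100400000000000000000000000004000000100000000000000000000000000000000012 := rS 0xd11dbddc2206f928927e0ffce2813ac9f4de4057b5fdc6d40a7532623408f26f30d8c5ea715989ce6b5d0c45226b478e46ed3d9edbc6331eb57bd3a (k8 c17162 c18265 c5454 c5436 c5316 c17803 c17660 c17706 (k8 c5496 c5435 c5317 c5526 c5523 c5374 c5371 c18226 (k8 c5422 c5419 c5570 c5574 c5571 c5477 c5476 c5475 (k8 c5325 c17674 c9731 c12887 c16365 c9107 c1274 c937 (k8 c780 c18273 c5507 c5584 c6923 c1225 c12625 c5340 (k8 c298 c3604 c17922 c13749 c5670 c17689 c6578 c2951 (k4 c5650 c3058 c564 c341 (k2 c8355 c17847 k0)))))))) (by decide +kernel)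
def c18275 : PP 9 3 T 0x10000021000000000000000000040000000200100400000000000000000000000000000000100000000010000000000000000000000010 := rS 0x203ee7ea2c3e8533224046900bc5e67156e850e9135a0d1fb155ecf6d3a (k8 c17162 c17660 c17706 c17691 c18271 c5526 c5525 c5523 (k8 c5374 c5373 c18226 c5573 c5571 c5325 c9695 c18274 (k8 c9744 c5642 c17729 c5664 c13398 c1111 c737 c13351 (k2 c5673 c13274 (k1 c18000 k0))))) (by decide +kernel)
def c18276 : PP 9 3 T 0x800000000011000001000000000000000000040000000200100800000000000000000000000004000000100000000000000000000000000000000002 := rS 0x6b904f87f40a64c423c9bcc62f539edb42391f8dcefe3198f5ab3a (k8 c17162 c5454 c5436 c5316 c17803 c5493 c5435 c5318 (k8 c5317 c18226 c17660 c5419 c5477 c5476 c5325 c17674 (k8 c9731 c16365 c9107 c937 c15494 c5670 c12625 c1550 (k1 c18089 k0)))) (by decide +kernel)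
def c18277 : PP 9 3 T 0x10000021000000000000000000040000000200100000000000000000000000000000000000100000000010000000000000000000000010 := rS 0x1d38891592035c97ee08a2d0a66449a40247f9c49e2f3388a55ba13da1d220d359e5068f1fb159e7766b4fbdb155ecf6d3a (k8 c17162 c17660 c17706 c17691 c18271 c18265 c5496 c5495 (k8 c5493 c5453 c5451 c5318 c5526 c5525 c5524 c5523 (k8 c5522 c5374 c5373 c5372 c18226 c5573 c5417 c5571 (k8 c5325 c9695 c18275 c5547 c12623 c18276 c9744 c17729 (k8 c5664 c13398 c737 c13284 c5673 c12638 c5507 c6923 (k4 c5340 c5660 c512 c511 (k1 c14201 k0))))))) (by decide +kernel)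
def c18278 : PP 9 3 T 0x1000001000000000000000000000000000200000000000000000000000000000000000000000020000004000000000000000000000010 := rS 0x2fa84c3934fb2c4e29db0fc2e3d (k8 c5436 c5433 c5318 c17660 c5417 c5570 c5420 c5572 (k4 c17674 c1579 c2826 c18048 (k1 c5663 k0))) (by decide +kernel)
def c18279 : PP 9 3 T 0x10000021000000000000000000040000000200100000000000000000000000000000000000000000000010000000000000000000000010 := rS 0x68b1dc2803a9f5bf02f9bddfea87e8743e6301214cc01239fe02692c847de8c55f8f66f1c9bccb73a599cf6da1f69ed0e6b3ca0d1e331eb159ed53bb37bdb1 (k8 c18271 c18265 c5495 c5493 c5454 c5453 c5451 c5436 (k8 c5316 c5526 c5525 c5524 c5523 c5373 c5372 c18262 (k8 c18226 c17660 c5419 c5574 c17162 c5474 c5325 c17674 (k8 c9695 c17706 c17803 c17691 c18277 c5505 c701 c2169 (k8 c946 c2141 c807 c13598 c17790 c5664 c13398 c5642 (k8 c777 c1111 c263 c13351 c5682 c2452 c2020 c17808 (k8 c5694 c2516 c18278 c2174 c5670 c1716 c941 c2202 (k1 c3607 k0)))))))) (by decide +kernel)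
def c18280 : PP 9 3 T 0x19000021000000000000000000040000000200000000000000000000000000000000000000000000000000000000000000000000020010 := rS 0x3e6216f8013a033138fc2e1308e9367e3787d02493ee4ce2b3139cd6ba188a44d6071e897c7de2fa4b6d3a (k8 c17162 c17660 c17726 c1517 c18265 c6601 c7601 c5436 (k8 c5432 c5523 c5374 c5371 c18226 c5422 c5419 c5570 (k8 c5574 c5571 c17674 c2747 c3026 c699 c17974 c2745 (k8 c5670 c7393 c17341 c728 c3058 c5456 c1774 c5663 (k4 c262 c1274 c5642 c13097 (k2 c341 c15948 (k1 c5691 k0))))))) (by decide +kernel)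
def c18281 : PP 9 3 T 0x19000021000000000000000000040000000200200000000000000000000000000000000000000000000000000000000000000000000010 := rS 0x4150b027f923e6f98cc9fec532a8491847258471afb90dff1725d246e2f0983ee646b6b3e4552459d2cd7bb6d0a1ef60d41a3f1359 (k8 c5341 c5527 c5526 c5525 c5522 c5375 c5373 c18226 (k8 c17660 c5575 c5574 c17162 c5326 c5489 c5491 c7805 (k8 c8057 c18149 c5616 c3302 c2468 c3303 c2469 c5213 (k8 c5391 c5390 c5389 c5606 c5609 c5611 c18280 c12638 (k8 c13598 c13277 c12617 c303 c2812 c5662 c5637 c5641 (k8 c951 c17940 c5660 c3006 c514 c950 c2635 c3614 k0)))))) (by decide +kernel)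
def c18282 : PP 9 3 T 0x10000021000000000000000000040000000200000000000000000000000000000000000000100000000010000000000000000000000010 := rS 0x9d899b4c4234280150687e99c3e8a083c726f39d1c566b5db687db1135f7bde8955ece39b1 (k8 c18271 c18279 c18281 c17691 c12630 c5504 c18265 c5523 (k8 c5371 c18262 c18226 c17660 c5422 c5574 c5571 c17162 (k8 c5325 c17674 c9695 c13277 c5673 c17974 c737 c13351 (k8 c5664 c5682 c9744 c18157 c9731 c16365 c17351 c858 (k2 c1274 c18272 k0))))) (by decide +kernel)
def c18283 : PP 9 3 T 0x11000021000000000000000000000000000200000400000000000000000000000000000400000150000000000000000000001000080008 := rS 0x63b84c09d4937fc4410ce4d3ecb138a76da10b8f4420d (k8 c5522 c265 c5436 c5433 c18226 c17660 c5417 c5570 (k8 c5420 c5572 c17674 c6205 c298 c5670 c5580 c17994 (k4 c18160 c262 c13096 c727 (k1 c17854 k0)))) (by decide +kernel)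
def c18284 : PP 9 3 T 0x800000000011000021000000000000000000000000000200000400000000000000000000000002000400001050100004000000000000001000080008 := rS 0x9d681818e5f4064d97b63da1cf28362b3ceecd (k8 c5495 c5493 c5453 c5451 c5525 c5524 c5373 c5372 (k8 c17660 c5420 c17674 c18283 c1746 c940 c5663 c3607 (k2 c1696 c2025 k0))) (by decide +kernel)
def c18285 : PP 9 3 T 0x800000000000000021000000000000000000000000000200000000000000000040000000000002000400001150100000000000000000001000080008 := rS 0x318c0d149277c4410ce4d3ecb138a76da13da1cf2830b8f58acf3bb34420d (k8 c5522 c265 c5495 c5493 c5453 c5451 c5436 c5433 (k8 c5525 c5524 c5373 c5372 c18226 c17660 c5417 c5570 (k8 c5420 c5572 c17674 c6205 c298 c5670 c18160 c17994 (k4 c2025 c262 c3607 c727 k0)))) (by decide +kernel)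
def c18286 : PP 9 3 T 0x10000021000000000000000000040000000200000000000000000000000000000000000000000000000010000000000000000000000010 := rS 0x68b1dc2806fc0891f3893fcea9b541f4441f0e18c04252c214cc010911c967f809a4228c55eceb3ef8e3c5e65b9d2cce7b6d0fb4f687069acf283478fd8acf3bb37bdb1 (k8 c18271 c18265 c5495 c5493 c5453 c5451 c5318 c5526 (k8 c5525 c5524 c5523 c5522 c5373 c5372 c18262 c18226 (k8 c17660 c5419 c5574 c17162 c5474 c5325 c9695 c18279 (k8 c5504 c5341 c18281 c17691 c18282 c701 c946 c2141 (k8 c807 c12638 c13598 c12617 c17790 c5664 c13398 c299 (k8 c2805 c5642 c777 c2003 c1111 c6197 c18278 c484 (k8 c7393 c2174 c2452 c18284 c5547 c5660 c5694 c2946 (k4 c18285 c1716 c941 c2202 (k1 c3607 k0))))))))) (by decide +kernel)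
def c18287 : PP 9 3 T 0x800000000000000001000000000000000000000000000200100000000000000000000000000000000000100000008218000000000000000000000000 := rS 0x3de410422d5c7c4464c8b3ad08fc7ad53ba04e7b6 (k8 c17660 c5419 c937 c5493 c5454 c5436 c5318 c18226 (k8 c17162 c5326 c17674 c1226 c1176 c1225 c2979 c17942 (k2 c12625 c5584 (k1 c13802 k0)))) (by decide +kernel)
def c18288 : PP 9 3 T 0x100000000000000000000000000000000000000000000000800000000000000000000000000000000000000000800000000040000 := rS 0x5608048 (k4 c1774 c1773 c17689 c5340 k0) (by decide +kernel)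
def c18289 : PP 9 3 T 0x800000000000000000000000000000000000000008000200100000080000000100000000000000000000000000000000000000000400000000000000 := rS 0x68bdde6f5 (k4 c5477 c5325 c2195 c2202 (k1 c17847 k0)) (by decide +kernel)
def c18290 : PP 9 3 T 0x40000800000000020000021000000000000000000000000000200100800000000000040000000000000000000000080000200000000000000000000000000 := rS 0xf624d65a2406bfba063b7104dc2891abcc62f538acce6b5db686229135a3c723f1bb3d9ad38a9b7c6331eb567447 (k8 c12623 c17162 c5454 c5436 c5316 c17803 c5529 c5414 (k8 c5496 c5495 c5453 c5435 c5318 c5317 c5526 c5523 (k8 c5374 c5371 c18226 c17660 c5422 c5419 c5574 c5571 (k8 c5477 c5476 c5325 c5324 c2921 c3058 c2917 c810 (k8 c18288 c18289 c13635 c5507 c6923 c8355 c5340 c511 (k2 c3587 c8188 k0)))))) (by decide +kernel)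
def c18291 : PP 9 3 T 0x800000000021000021000000000000000000000000000200100000000000000000000000000000000000100000000010000000000000000000000002 := rS 0x6b904f87f6ffce246f40988d1930d9c566735ae85226b478fcee6dd9adf6de3198f5ab3a (k8 c17162 c5454 c5436 c5316 c17803 c17660 c5533 c8057 (k8 c5529 c5493 c5318 c5526 c5523 c5374 c18226 c5422 (k8 c5419 c5574 c5571 c5475 c17674 c12887 c16365 c937 (k8 c18287 c18007 c17922 c2513 c18290 c5670 c12625 c1550 (k1 c18089 k0))))) (by decide +kernel)
def c18292 : PP 9 3 T 0x21000000000000000000040000000200000000000000000000000000000000000000100000000010000000000000000000000011 := rS 0x22d0a6644808d27159b2d6ba141b159ed53bb35a7ded888d3b15109b533b35bed36d3a (k8 c17162 c17660 c18286 c5533 c8057 c5530 c5529 c5528 (k8 c5414 c5412 c5409 c18271 c18265 c5496 c5495 c5493 (k8 c5454 c5453 c5451 c5525 c18226 c5422 c5420 c5574 (k8 c5571 c9744 c5642 c17729 c5664 c5871 c737 c14203 k0)))) (by decide +kernel)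
def c18293 : PP 9 3 T 0x800000000000000000000000000000000000000008000200000000080040000100000000000000000000000000000000000008000000000000000000 := rS 0xeda235798c5ea331c8dd9ecd (k8 c5495 c5453 c5435 c5317 c5316 c5477 c5476 c5325 (k4 c5324 c2202 c563 c3587 k0)) (by decide +kernel)
def c18294 : PP 9 3 T 0x21000000000000000000040000000200000000000000000000000000000000000000100000000010000000000000000000000010 := rS 0xd11db5c83e23fb81ee4a3e926041308226b3ef40c70c4680064de61b7a9c566735ae86229135a3c7bded8c54dbb35bed36d3a (k8 c17162 c17660 c18286 c5533 c8057 c5529 c5414 c18271 (k8 c18265 c5436 c5526 c5523 c5374 c5371 c18226 c5422 (k8 c5419 c5574 c5571 c5477 c5475 c5325 c17674 c18292 (k8 c12887 c16365 c18291 c937 c5504 c5341 c12630 c13277 (k8 c300 c13635 c17689 c2747 c7820 c2196 c18293 c3058 (k4 c5670 c5462 c5465 c562 (k2 c2201 c17847 k0))))))) (by decide +kernel)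
def c18295 : PP 9 3 T 0x8800000000000000021000000000000000000000000000200000000080000000000000000000000000000001000101000000000000000001000000008 := rS 0x18c6068a49ae19c9a7d962714ed8f6873ca0c2e3d62b3ceecd (k8 c5495 c5493 c5453 c5451 c5436 c5433 c5525 c5524 (k8 c5373 c5372 c17660 c5417 c5570 c5420 c5572 c17674 (k4 c6205 c5465 c17994 c2201 (k2 c262 c3607 (k1 c726 k0))))) (by decide +kernel)
def c18296 : PP 9 3 T 0x21000000000000000000040000000200000000000000000000000000000000000000000000000010000000000000000000000010 := rS 0xd163b8501e38137cea483e87cc62501214cc012591cff0134847de8cd9adcda218a88f69b1c9914b73a5989c52735aedb43ed3da1c1a6b3ca0c7ec5679dd9bde (k8 c18265 c5495 c5493 c5453 c5451 c5318 c5525 c5524 (k8 c5523 c5522 c5373 c5372 c18262 c18226 c17660 c5422 (k8 c5419 c5417 c5570 c5574 c17162 c5474 c5326 c17674 (k8 c18271 c18286 c5409 c5414 c5528 c5529 c5533 c8057 (k8 c18294 c5505 c701 c946 c2141 c807 c18237 c12638 (k8 c17790 c5664 c5871 c5642 c12632 c777 c1111 c18278 (k8 c3584 c2174 c2946 c13257 c18295 c5670 c1716 c941 (k2 c2202 c3607 k0))))))))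 (by decide +kernel)
def c18297 : PP 9 3 T 0x800000000000000001000000000000000000000000000200100000000000000000000000000000000000000010000020000000000000000010000008 := rS 0x7b84a8b08a03c79314e840e3d62b5512010dce91ab13f98066174bb24e3b6 (k8 c17660 c5571 c5494 c5452 c5433 c5316 c17928 c728 (k8 c5421 c2171 c17162 c5475 c1056 c17792 c5454 c5451 (k8 c5436 c5432 c18226 c5417 c17674 c17803 c5670 c699 (k4 c856 c12632 c5673 c17631 k0)))) (by decide +kernel)
def c18298 : PP 9 3 T 0x91000020000000000000000000040000000200000000000000000400000000000000000000000010000002000000000000000000020008 := rS 0x11363b85be4b4d889669f14a44f28f0f9acfe714e9ed0207 (k8 c5432 c699 c5372 c1696 c5571 c728 c5523 c1111 (k8 c5526 c5524 c5374 c5417 c5572 c5574 c6197 c7393 (k4 c560 c13097 c13096 c727 (k2 c704 c3610 k0)))) (by decide +kernel)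
def c18299 : PP 9 3 T 0x21000000000000000000040000000200000000000000000000000000000000000000000000000000000000000000000000000010 := rS 0x386264b63f85ec9936c55bf0124ed3c4e340a282159f7c70fe7d306c404637e8751a0144991e3931a86c633a38ac76da13da44d679478cc0e171ea5d93de (k8 c18265 c5494 c5452 c5436 c5433 c5432 c5316 c5526 (k8 c5524 c5523 c5374 c5372 c18226 c17660 c5421 c5571 (k8 c17162 c5476 c5475 c5324 c17674 c9695 c18296 c17792 (k8 c1056 c2171 c1954 c1128 c1171 c5642 c17904 c17928 (k8 c18278 c728 c18297 c5504 c5341 c13277 c8120 c699 (k8 c17330 c5670 c18298 c3026 c3068 c5580 c5414 c5529 (k8 c5530 c17850 c6706 c726 c565 c704 c6188 c5910 k0))))))) (by decide +kernel)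
def c18300 : PP 9 3 T 0x10000021000000000000000000040000000200000000000000000000000000000000000000000000000010000000000000000000000000 := rS 0x7ff04553681462643c5e45aaccc89798c5ea7159a7d96b53c95c6639038dd2e7711964d201d9bc437b10ce4fc7ef20d602627db01342451fb4fbd3a (k8 c17162 c18265 c5496 c5318 c5326 c18226 c18299 c17660 (k8 c5570 c317 c12635 c5340 c17819 c17693 c17674 c6205 (k8 c17758 c5475 c9695 c17812 c53 c9744 c9442 c9734 (k8 c5493 c5452 c5435 c5432 c5317 c5316 c5313 c5524 (k8 c5422 c5420 c5572 c5574 c5571 c5477 c5476 c5325 (k8 c17729 c5664 c17691 c737 c17924 c17219 c9107 c5673 (k4 c1746 c10735 c15434 c17431 (k2 c807 c10667 k0)))))))) (by decide +kernel)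
def c18301 : PP 9 3 T 0x10000021000000000000000000040000000200000000000000000000000000000000000000000000000000000000000000000000000000 := rS 0x1128187d548a4499163ed07a441a4b23844e28fd9bc437ef20d602627db01342451fb4fbd3a (k8 c17162 c18265 c5496 c5318 c5326 c18226 c18299 c17660 (k8 c5570 c317 c12635 c5340 c17819 c5475 c9695 c17812 (k8 c5526 c5571 c719 c13598 c12639 c5522 c5374 c5369 (k8 c18262 c5421 c18300 c17792 c8120 c17732 c1084 c2199 (k2 c18090 c859 k0))))) (by decide +kernel)
def c18302 : PP 9 3 T 0x21000000000000000000040000000200000000000000000000000000000000000000000000000010000000000000000000000000 := rS 0xde3e285c67f70a6d028c8197916f633227267159a7d96b507a3cae39038dcee6900ecde21bf1fbdac41218c46a459d0f4663f6ac76b01313edb42d3ef2762a99059b76804 (k8 c18299 c18301 c5529 c717 c5530 c5414 c5412 c18265 (k8 c5496 c18226 c17660 c5570 c317 c12635 c5341 c5454 (k8 c5318 c5316 c5436 c17162 c5326 c5324 c5476 c5478 (k8 c5340 c3588 c17819 c17693 c5475 c9695 c17812 c53 (k8 c9744 c5493 c5435 c5432 c5317 c5313 c5526 c5369 (k8 c5422 c5420 c5572 c5574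 c5571 c17674 c17729 c5664 (k8 c17299 c737 c17924 c2195 c5673 c1746 c10735 c1721 (k4 c807 c15481 c1122 c5670 (k2 c3620 c2829 k0))))))))) (by decide +kernel)
def c18303 : PP 9 3 T 0x21000000000000000000040000000200000000000000000000000000000000000000000000000000000000000000000000000000 := rS 0x24c4e06e36826d2a5e70984dc7e40c055c7d453f43a8d4499016a94c9b5569dda35bdfe38e906b0252384c961100811a6cd64b559e9762f79e393219146a1b18ce8e22714ac55bb6d0fb41e91069ad1e57198fc0e3d (k8 c5436 c5432 c5318 c5316 c5313 c5526 c5523 c5522 (k8 c5374 c5369 c18262 c18226 c17660 c5573 c5421 c5417 (k8 c5570 c5571 c17162 c5476 c5475 c5324 c5326 c5478 (k8 c17674 c9695 c18265 c5451 c5452 c5453 c5454 c5494 (k8 c5495 c5496 c18299 c53 c719 c12639 c317 c13598 (k8 c12632 c12635 c5340 c5341 c17693 c17819 c3588 c18301 (k8 c5412 c5413 c5529 c5530 c5531 c717 c18302 c17792 (k8 c2171 c9172 c1128 c8120 c1550 c3582 c3068 c856 (k8 c5670 c1130 c728 c3058 c12654 c1956 c10735 c3617 (k4 c1780 c2202 c810 c13257 (k1 c18049 k0))))))))))) (by decide +kernel)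
def c18304 : PP 9 3 T 0x10000021000000000000000000000000000200100000000000000000000000000000000000100000000010000000000000000000000002 := rS 0x45626fe7e7cd526f4e9b4c468c986ce2b339ad6229135a3c17e1f7b41eef37ace876abd9ec7dbde02d2b43b6 (k8 c17660 c18226 c18303 c17105 c17705 c18262 c17191 c17372 (k8 c17691 c5332 c17162 c5477 c5325 c5333 c17847 c17189 (k8 c6344 c5516 c5526 c5523 c5374 c5371 c5422 c5419 (k8 c5574 c5571 c5475 c17674 c12887 c16365 c665 c1274 (k8 c18287 c2025 c17922 c5682 c18191 c2571 c3011 c3604 k0))))) (by decide +kernel)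
def c18305 : PP 9 3 T 0x4000000000000004000001000000000000000000000000000000000000000000000000000000000000000000100000000110000000000000000000000000 := rS 0x228cc899d1c76da1 (k8 c18226 c17660 c5571 c17162 c17729 c5664 c5673 c737 k0) (by decide +kernel)
def c18306 : PP 9 3 T 0x10000021000000000000000000000000000200000000000000000000000000000000000000100000000010000000000000000000000000 := rS 0x8a9be26a98084d13594ec70da62001a32671599cd6b11489ad1e0bf7b41eef37ace876abd9ec7dbde02d2b43b6 (k8 c17660 c18226 c18303 c17105 c17705 c18262 c17191 c17372 (k8 c17691 c5332 c17162 c5477 c5325 c5333 c17847 c17189 (k8 c5516 c5526 c5523 c5374 c5371 c5422 c5419 c5574 (k8 c5571 c17674 c18305 c9744 c16365 c665 c18304 c1274 (k8 c5341 c12630 c300 c2139 c2025 c12633 c1226 c9222 (k1 c3604 k0)))))) (by decide +kernel)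
def c18307 : PP 9 3 T 0x10000021000000000000000000000000000200000000000000000000000000000000000000000000000010000000000000000000000000 := rS 0x80e06fa7204a87fc53e62112808024b809a4228c55ecf625b5989c52735afb50e0d0f88c8ecdf7b43bc05d0ed9eef37ace8774a (k8 c18303 c5332 c17162 c5477 c5325 c5333 c17660 c18226 (k8 c17105 c17705 c17847 c17189 c5495 c5520 c5331 c5517 (k8 c5522 c5373 c18262 c5422 c5419 c5417 c5570 c5574 (k8 c5474 c17191 c17372 c17691 c18306 c701 c946 c2141 (k8 c12638 c17790 c5642 c12632 c265 c17998 c17941 c3011 (k4 c9222 c5694 c2025 c2516 (k2 c2202 c18160 (k1 c1715 k0)))))))) (by decide +kernel)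
def c18308 : PP 9 3 T 0x21000000000000000000000000000200000000000000000000000000000000000000100000000010000000000000000000000000 := rS 0x44cde1044c70006838acce6b5489ad1e0bf7f780ba1db6c767b47b87e953a (k8 c17162 c18303 c5517 c5333 c18307 c7262 c9578 c17660 (k8 c18226 c17105 c17705 c17189 c5516 c5526 c5523 c5374 (k8 c5422 c5419 c5574 c5571 c18305 c9744 c18291 c12630 (k4 c13277 c1226 c703 c18007 k0)))) (by decide +kernel)
def c18309 : PP 9 3 T 0x21000000000000000000000000000200000000000000000000000000000000000000000000000010000000000000000000000000 := rS 0x2400848966908a336759da16e742939edb420d0f88def4a (k8 c18303 c5333 c5331 c5517 c5522 c18226 c17660 c5419 (k8 c5417 c17162 c5474 c18307 c9399 c7262 c18308 c701 (k4 c946 c12638 c12617 c17790 (k2 c17828 c2805 k0)))) (by decide +kernel)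
def c18310 : PP 9 3 T 0x21000000000000000000000000000200000000000000000000000000000000000000000000000000000000000000000000000000 := rS 0xe16fb1d3a7f0826cc11c64a5fbdb3551f44263016c552fdda8751a013201416f71187e94370b81c66f1c9bcc36f59d1c5669f58edb43ed3d834d683 (k8 c5525 c5523 c5522 c5372 c18262 c18226 c17660 c5421 (k8 c5572 c5574 c5571 c17162 c5477 c5475 c5325 c17674 (k8 c9695 c5316 c5432 c5433 c5435 c18303 c5517 c5331 (k8 c5333 c5516 c17105 c18309 c1056 c2171 c1954 c17802 (k8 c1128 c1957 c17190 c5642 c9752 c265 c18278 c3581 (k8 c17929 c17688 c5452 c5494 c18297 c17928 c1189 c13277 (k4 c728 c1696 c727 c13097 (k2 c13096 c15103 k0)))))))) (by decide +kernel)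
def c18311 : PP 9 3 T 0x4000400000000002000001000000000000000000040000000000001000010000000000001000000000001000000000100000000000000000001500000000 := rS 0x19ce0f0b7dc7e268e4d669f65ad76da1f6a853699 (k8 c5447 c5397 c5398 c18262 c18226 c17660 c5422 c5420 (k8 c5572 c5574 c17674 c17739 c17714 c5466 c5580 c7833 (k2 c3620 c5688 (k1 c1653 k0)))) (by decide +kernel)
def c18312 : PP 9 3 T 0x800000000000000001000000000000000200000000000000000000000000000000000000000000000000200100100000000000010000000000040000 := rS 0x1ae3f3e1ffc67719b572643228d4633ad08f63ad3 (k8 c2084 c5341 c5560 c18226 c17162 c5476 c5324 c5326 (k8 c5478 c17674 c5454 c5492 c5493 c17693 c807 c5670 (k2 c2823 c1549 (k1 c3588 k0)))) (by decide +kernel)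
def c18313 : PP 9 3 T 0x10000021000000000000000000040000000000000000000000000000000000000000000000000000000010000000000000000000000000 := rS 0xd9c1e14e8e62a210f2cd3ecb5aa85369911894763d55b8dbfe2ef9d52bb020a04ad93f7a311666d9bc4368934804b65922ce82271ac04c4fb6024a7425d (k8 c17796 c18226 c18310 c17704 c17660 c5570 c317 c12635 (k8 c5571 c719 c17162 c5326 c314 c5474 c53 c9744 (k8 c17729 c5475 c9695 c17812 c5664 c737 c8187 c5505 (k8 c17674 c10195 c12626 c12628 c5209 c5446 c2005 c18312 (k8 c17714 c5580 c5466 c17691 c5560 c10737 c12632 c9734 (k8 c5447 c5397 c5398 c5422 c5420 c5572 c5574 c17219 (k8 c58 c15434 c2472 c1083 c7833 c3620 c5654 c1483 k0))))))) (by decide +kernel)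
def c18314 : PP 9 3 T 0x20000000000000000000080008000000000000000000000440010000000000000000200000800000010004015000000000000000 := rS 0xe5c2ce7f21016f77996dea0f43835065d (k8 c17796 c5525 c5522 c5373 c5369 c5477 c5474 c5325 (k8 c5333 c5516 c3571 c950 c789 c3013 c2558 c17954 k0)) (by decide +kernel)
def c18315 : PP 9 3 T 0x21000000000000000000000000000000000000000000000000000000000000000000000000000010000000000000000000000000 := rS 0x7b330da218aa77694b6f8fdc7e2689dbbf01f7a30ea8b336cc7a891d905035862894d2560981c961111804b204789146a5b0dce8e227db6850e95d84a7265d (k8 c17796 c17674 c18310 c5209 c5446 c5373 c18226 c17660 (k8 c5570 c5571 c17162 c5475 c5474 c5324 c5326 c9695 (k8 c17704 c314 c53 c9734 c719 c12639 c8467 c317 (k8 c10195 c9744 c12632 c13953 c12635 c12626 c12628 c10737 (k8 c17729 c5560 c17812 c5664 c737 c2005 c8187 c5505 (k8 c2141 c18312 c17716 c17739 c17714 c5466 c5576 c5580 (k8 c18314 c18313 c5412 c5414 c5528 c5529 c18311 c17299 (k1 c2072 k0)))))))) (by decide +kernel)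
def c18316 : PP 9 3 T 0x8000021000000000000000000000000000000000000000000000000000020000000000000000000000000000000000000000000000000 := rS 0xdde20817eb31c12a5de2450dceb43b094e4d1ab1db1f51264 (k8 c18315 c17792 c1634 c17660 c5421 c2171 c17674 c18310 (k8 c5209 c18226 c17162 c5475 c5326 c9695 c5404 c7601 (k4 c17706 c17812 c1629 c13277 (k2 c5216 c13779 (k1 c2745 k0))))) (by decide +kernel)
def c18317 : PP 9 3 T 0x4000400000000000000021000000000000000000000000000000000000040000000000001060000000000000000000000000000000000000000000000000 := rS 0x1e1679fdc68189f89159358edb43ed3d9f51264 (k8 c18315 c17792 c1634 c5372 c18262 c18226 c17660 c5421 (k8 c17674 c8120 c17714 c859 c5463 c5466 c5577 c14256 (k2 c13945 c10805 k0))) (by decide +kernel)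
def c18318 : PP 9 3 T 0x400000000010000021000000000000000000000000000000000000000000000000000000000000000000000000000000000000000000000800000008 := rS 0x40b8627e223042b2248efb99b03556ccfac438ac743ed64a24021b9d074767b63818c9b094867261f3592c53b6 (k8 c17660 c5417 c560 c5523 c1111 c17674 c6205 c18310 (k8 c5209 c18315 c17764 c13650 c5372 c1674 c8808 c17162 (k8 c5475 c1056 c17792 c5396 c18262 c18226 c5421 c5571 (k8 c17710 c1634 c18316 c17732 c2199 c2075 c18317 c5504 (k8 c17631 c5559 c12632 c1263 c5216 c704 c2789 c5463 (k1 c17854 k0)))))) (by decide +kernel)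
def c18319 : PP 9 3 T 0x10000021000000000000000000040000000000000000000000000000000000000000000000000000000000000000000000000000000008 := rS 0x89fab1e370926267d80a06068a1b17955ef0b6cda6336aa5fbc226387c420622ce832cb58ab76da1f6a441a6b6498760890e9932729 (k8 c18310 c17674 c18315 c8808 c17792 c5209 c5445 c5396 (k8 c5523 c5522 c5374 c18262 c18226 c17660 c5573 c5421 (k8 c5420 c6205 c17162 c5326 c17764 c265 c1111 c13650 (k8 c5650 c18318 c5452 c5454 c5492 c5496 c7702 c17928 (k8 c8156 c17732 c1107 c1259 c8120 c2199 c1746 c3068 (k8 c2980 c859 c13257 c1484 c17854 c5216 c5670 c5558 (k1 c676 k0))))))) (by decide +kernel)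
def c18320 : PP 9 3 T 0x10000021000000000000000000040000000000000000000000000000000000000000000000000000000000000000000000000000000000 := rS 0x15501f7bff668af9d62251d239643e132584408032296ce227d0fb41e9106a0d1fb044804373a46ac76c1d3264e525d (k8 c17796 c18310 c17674 c18315 c8808 c17660 c5421 c2171 (k8 c17162 c5475 c1056 c17792 c5209 c5526 c5525 c5522 (k8 c5374 c5369 c18262 c18226 c5570 c5571 c5474 c5326 (k8 c18319 c5642 c719 c12639 c317 c17318 c313 c13598 (k8 c13277 c18090 c12617 c11958 c8187 c17706 c2571 c5583 (k2 c3068 c17732 (k1 c6368 k0))))))) (by decide +kernel)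
def c18321 : PP 9 3 T 0x4000400000000000000021000000000000000000000000000000001000000000000000011060000000000000000000000000000000000000000000000000 := rS 0x67f85c702f16db43ed4cec25393 (k8 c17674 c18310 c5209 c5447 c18262 c18226 c17660 c17714 (k4 c18317 c5466 c6706 c2633 (k1 c5688 k0))) (by decide +kernel)
def c18322 : PP 9 3 T 0x400000000000000021000000000000000000040000000000000000000000000000000000000000000000000000000000000000000000000000000010 := rS 0x8ff3acc00924b123fd5f038efb99ac768b1076750315dec027890c8a317a9c452b15aab7da7b0086c3afd35aa50677323276129c9aae2bb35bed36d3a (k8 c17162 c17660 c18320 c5533 c8057 c5414 c5413 c17674 (k8 c18310 c5209 c5396 c18315 c2053 c5525 c1957 c5523 (k8 c1128 c8808 c5475 c1056 c5372 c18262 c5573 c5422 (k8 c5421 c5417 c5571 c5477 c5476 c5326 c5478 c9695 (k8 c5642 c17850 c9757 c17764 c1452 c1674 c17710 c17739 (k8 c17968 c2072 c18321 c5504 c5508 c5584 c5586 c17631 (k4 c564 c10428 c18092 c5559 (k2 c5592 c2790 (k1 c5660 k0))))))))) (by decide +kernel)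
def c18323 : PP 9 3 T 0x21000000000000000000040000000000000000000000000000000000000000000000000000000000000000000000000000000020 := rS 0x203ef8192114f6ac4744a472c87c264b08bc48af32dbd4e2b3138a56ba1f6a451fb044804373a46ac76c1dc9ca5fa6b5499106238a887685d (k8 c17796 c18320 c5528 c5414 c5409 c5525 c18315 c1957 (k8 c5523 c1128 c18310 c17674 c8808 c17660 c5421 c2171 (k8 c17162 c5475 c1056 c17792 c5209 c5526 c5374 c18262 (k8 c18226 c5422 c5417 c5570 c5574 c5571 c5477 c5474 (k8 c5325 c5326 c9695 c719 c12639 c317 c17318 c313 (k8 c13598 c12632 c13277 c12617 c17991 c8187 c3584 c2195 (k2 c5583 c3068 (k1 c13257 k0)))))))) (by decide +kernel)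
def c18324 : PP 9 3 T 0x21000000000000000000040000000000000000000000000000000000000000000000000000000000000000000000000000000000 := rS 0x1b8e7c23b680cd9e9703779ec0202aaf68313db2536954cec253930086e74fd35aa4c883 (k8 c5525 c18315 c1957 c5523 c1128 c17162 c5475 c1056 (k8 c17674 c18310 c5209 c5447 c5446 c5397 c5396 c5372 (k8 c5476 c18320 c5413 c18323 c5642 c17850 c18322 c17764 (k8 c5452 c5453 c5492 c13565 c1674 c18012 c397 c1481 (k1 c5654 k0))))) (by decide +kernel)
def c18325 : PP 9 3 T 0x400000000000000021000000000000000000000000000000000000000000000000000000000000000000000000000000000000000000000000000008 := rS 0x67383c28189f8827593f891aa8b8efb99b033eb4554c4639d44206798c5ea19388a563b6d0fb41ac9d8224021b54a0c3e237b82f6b4a78bf4d61d3264e533a (k8 c17162 c18310 c17674 c18315 c8808 c5523 c1128 c9695 (k8 c18324 c17804 c5516 c5333 c5331 c5517 c5525 c1957 (k8 c5475 c1056 c17792 c5209 c5396 c5522 c18262 c18226 (k8 c17660 c5421 c5417 c5571 c6205 c5477 c5476 c5325 (k8 c17764 c265 c1452 c13650 c17710 c3581 c17739 c1634 (k8 c2199 c2075 c18317 c5504 c5583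 c5585 c17631 c840 (k8 c5559 c2805 c5216 c12633 c5463 c13945 c17854 c5688 (k1 c1652 k0)))))))) (by decide +kernel)
def c18326 : PP 9 3 T 0x21000000000000000000000000000000000000000000000000000000000000000000000000000000000000000000000000000020 := rS 0x204aa4556366590992c22452d9c44fa1f683d220d47a251ab1db3dc920b23ed694f17e9ac3a64c9ca6745d (k8 c17796 c17162 c18310 c17674 c18315 c8808 c5523 c1128 (k8 c9695 c18324 c17804 c5520 c5516 c5334 c5333 c17660 (k8 c5421 c2171 c17792 c5526 c5522 c5374 c5369 c18262 (k8 c18226 c5570 c5571 c5474 c5326 c719 c12639 c317 (k4 c313 c18200 c12617 c8187 (k2 c17732 c13809 (k1 c2199 k0))))))) (by decide +kernel)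
def c18327 : PP 9 3 T 0x21000000000000000000000000000000000000000000000000000000000000000000000000000000000000000000000000000000 := rS 0x7fab9c06ef1092b313081f496814517bde1681b4c66d54baa98e75ef0840c0202ed48e0b24bdc461fa52a5fa1d46805126430b27612947a0cd60d4883de2f30d8c5eb3a0ce4d96b156edb43ed (k8 c18262 c18226 c17660 c5573 c5421 c5420 c17674 c6205 (k8 c17162 c5477 c5476 c5475 c5325 c9695 c5369 c5374 (k8 c5522 c5523 c5525 c5526 c18310 c5209 c5396 c5445 (k8 c18315 c17792 c1056 c2171 c8808 c1128 c1957 c18324 (k8 c5517 c5331 c5333 c5334 c5516 c5520 c17804 c18326 (k8 c5642 c17764 c265 c18325 c1452 c13650 c3581 c5452 (k8 c5454 c5492 c5496 c2199 c17928 c8156 c1107 c8120 (k8 c1746 c12080 c2981 c13809 c859 c5558 c13315 c5216 (k4 c1113 c17854 c2978 c3012 (k1 c1287 k0)))))))))) (by decide +kernel)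
def c18328 : PP 9 3 T 0x10000001000000000000000000000000000200000000000000000000000000000000000000000000000000000000000000000000000000 := rS 0x1780bdf496c7654a9d6dbdb9d (k8 c18327 c18262 c17660 c17162 c5211 c5238 c17558 c17726 (k4 c17372 c18200 c17482 c1517 k0)) (by decide +kernel)
def c18329 : PP 9 3 T 0x400000000000000001000000000000000000000000000200000000000000000000000000000000000000000000000010000000000000000000000000 := rS 0x2404ac89f6da1 (k4 c18226 c17660 c5570 c18263 (k2 c17705 c12635 (k1 c317 k0))) (by decide +kernel)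
def c18330 : PP 9 3 T 0x800000000002000001000000000000000000040000000200000000000000000000000000000000000000010000000000000000000000000000004002 := rS 0x8f35834f67e081f50213451bc8a715afb466391bb159ed566a34e687346cd6e1b9d447dead69a5d964948f8dc3f2ac86727a1ceed137b6 (k8 c17660 c5397 c18328 c18327 c18226 c17674 c6205 c17758 (k8 c5221 c5591 c17720 c5589 c5588 c5420 c5452 c5496 (k8 c5573 c8156 c5411 c17162 c5475 c5533 c8057 c12887 (k8 c897 c5419 c946 c5495 c5454 c5453 c5451 c5435 (k8 c5317 c5316 c18262 c5422 c5571 c5326 c1226 c5673 (k8 c8818 c856 c2980 c12617 c5670 c891 c17527 c1059 (k2 c2752 c18106 k0))))))) (by decide +kernel)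
def c18331 : PP 9 3 T 0x80001000000000000000001000000000000000000000000000200000000000040000000000050000000000400000001000004000000000000000000080002 := rS 0x834291cf40bc9fb73a074e9b5325f0ba34e687346cd6fb60dcea23b4 (k8 c18328 c5411 c17162 c5475 c17660 c5533 c8057 c12887 (k8 c897 c5419 c946 c5433 c1054 c5530 c5529 c5412 (k8 c5432 c18327 c18262 c17674 c10374 c5669 c2811 c847 (k2 c12952 c5672 k0)))) (by decide +kernel)
def c18332 : PP 9 3 T 0x800000000000000001000000000000000000000000000200000000000000000000000000000000000000020100000000000000000000000000080000 := rS 0x406bceb27a1198fc7ad53bc74fed3 (k8 c5496 c2921 c12630 c5493 c5454 c5436 c5318 c5316 (k4 c18226 c17674 c17162 c1984 (k2 c18089 c298 k0))) (by decide +kernel)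
def c18333 : PP 9 3 T 0x800000000002000001000000000000000000040000000200000000000000000000000000000000000000000000000000000000000000000000004002 := rS 0xc7b02d8e80091e4227f4437bc313f956536635090c339365e873a074e9b532c56997c2e87346cd6fb60dcea23b4 (k8 c18328 c5411 c17162 c5475 c17660 c5533 c8057 c12887 (k8 c897 c5433 c1054 c5496 c5451 c5530 c5529 c5412 (k8 c5432 c18327 c18226 c5420 c17674 c6205 c5478 c5398 (k8 c5395 c5397 c17758 c5221 c5547 c7694 c17766 c18330 (k8 c2921 c2749 c2388 c12617 c18332 c940 c10374 c18331 (k2 c5645 c292 k0)))))) (by decide +kernel)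
def c18334 : PP 9 3 T 0x1000000000000000200040000000200000000000000000000040000000000000001000000000400000000000000000000000010 := rS 0xf944bde47259044a459d1c56627149cd6bb6d0fb73a3f (k8 c5318 c18327 c18262 c18226 c17660 c5422 c5419 c5417 (k8 c5570 c5574 c5571 c17162 c5326 c5559 c5340 c5342 (k4 c5562 c17819 c13132 c5191 (k1 c5547 k0)))) (by decide +kernel)
def c18335 : PP 9 3 T 0x20000001000000000000000100040000000000000000000000000000000000000000000000010000000600000000000000000000005000 := rS 0x8f379c4e6b5db213db3a24fcb439d (k8 c18327 c18226 c5221 c5588 c17162 c18262 c13492 c17660 (k4 c5422 c5419 c5571 c1226 (k2 c2547 c18106 k0))) (by decide +kernel)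
def c18336 : PP 9 3 T 0x1000000000000000000040000000200000000000000000000000000000000000000000000000010000000000000000000000010 := rS 0x9845115948a10d60d409ecc5b1439a001932186ce7a1f6e7466391bc4766b7da6da74cf66b4fbc0f (k8 c9739 c18329 c5496 c5495 c5453 c17162 c17660 c18328 (k8 c5533 c8057 c5411 c5435 c5317 c5316 c18327 c18262 (k8 c18226 c5419 c5475 c5478 c17674 c14188 c12887 c897 (k8 c18333 c16365 c888 c937 c17527 c1059 c13492 c17685 (k4 c18334 c18335 c2749 c18332 (k1 c12617 k0)))))) (by decide +kernel)
def c18337 : PP 9 3 T 0x4000000000000020000001000000000000000000000000000000000000000000000000000000000000000001012000000600000000000000000000000000 := rS 0x8f38acce6b5db40f3ba1f6c462a6d (k8 c5529 c5414 c5411 c18262 c18226 c18327 c11700 c17660 (k4 c5422 c5419 c5574 c5571 (k2 c2547 c13635 k0))) (by decide +kernel)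
def c18338 : PP 9 3 T 0x800000000000000001000000000000000000080000000200000000000000000000000000000000000000000000000000000000000000000000000002 := rS 0x4c22884220d027b43988d668c990c3673d0fb73b11d9adc3fb1acedb69ef48b41eef37a8ecb73a (k8 c17162 c5474 c5332 c5477 c5325 c5333 c17847 c9793 (k8 c17189 c18328 c17660 c9399 c9578 c5517 c5533 c8057 (k8 c5411 c18327 c18262 c18226 c5419 c5475 c5478 c17674 (k8 c12887 c1058 c16365 c897 c888 c937 c1976 c5672 (k4 c18337 c2749 c18332 c12617 k0))))) (by decide +kernel)
def c18339 : PP 9 3 T 0x1000000000000000000080000000200000000000000000000000000000000000000000000000010000000000000000000000000 := rS 0x8c081a40313f97bcb7a1f6e7766b7da6da75de (k8 c18329 c17162 c17660 c18328 c5533 c8057 c18327 c18262 (k8 c18226 c5474 c17189 c5191 c5547 c18338 c9744 c17853 (k2 c18305 c701 k0))) (by decide +kernel)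
def c18340 : PP 9 3 T 0x1000000000000000000000000000200000000000000000000000000000000000000000000000010000000000000000000000000 := rS 0xdf509f1c67f3a7c9c29b40a33ded62f22e3a41332258f5834964160e098440204a5b4cefde21914b67159a7d96275ac0f3ba1f695c663f038f53b1536a6766b7da6da745d (k8 c17796 c17162 c17660 c18328 c5533 c8057 c5530 c5529 (k8 c5414 c5412 c5436 c5432 c5318 c5316 c5313 c18262 (k8 c18226 c18327 c11700 c5422 c5570 c5420 c5572 c5574 (k8 c5571 c5474 c5326 c5478 c18329 c5493 c5496 c18339 (k8 c18336 c53 c719 c317 c6008 c717 c314 c9744 (k8 c17869 c794 c17729 c5664 c5340 c5341 c737 c17924 (k8 c17979 c17819 c8187 c1746 c10735 c1721 c5191 c18312 (k4 c807 c5549 c2174 c1122 (k2 c2830 c3620 k0))))))))) (by decide +kernel)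
def c18341 : PP 9 3 T 0x400000000000000001000000000000000000000000000200000000000000000000000000000000000000000000000000000000000000000000000000 := rS 0x14bf9ec2b3e0d0fb73bb35bed36d3a (k8 c17162 c17660 c18328 c5533 c8057 c18327 c18262 c18226 (k4 c17718 c18263 c17688 c7694 (k2 c17558 c5221 k0))) (by decide +kernel)
def c18342 : PP 9 3 T 0x1000000000000000000040000000200000000000000000000000000000000000000000000000000000000000000000000000010 := rS 0x1e340f8020c73f9ecf31c30210fa0207e4ce3a1f6e7466070baae2a6d4ced0028d58ed98acf31b27621d3225fbc1b1abc4633a (k8 c17162 c5476 c9695 c5324 c5475 c18341 c5452 c18340 (k8 c9172 c17904 c5494 c1171 c5453 c5451 c17660 c5421 (k8 c2171 c1056 c18328 c5530 c5529 c5414 c5413 c5433 (k8 c5432 c5316 c18327 c18262 c18226 c5571 c17674 c9739 (k8 c5642 c18278 c12530 c17928 c18297 c2544 c847 c728 (k4 c726 c13277 c5669 c699 (k2 c6706 c5670 k0))))))) (by decide +kernel)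
def c18343 : PP 9 3 T 0x1000000000000000000040000000200000000000000000000000000000000000000000000000000000000000000000000000000 := rS 0x371f4befd20ab9028a41216b11d129d0b20e0984408f121914b671138a55ba1f6e74ae3f038f53a9954a1d57b444804373a46ac76cd50ef78c85d (k8 c17796 c18340 c18341 c9172 c5454 c17660 c5421 c2171 (k8 c17162 c5475 c1056 c17792 c18328 c5413 c2113 c5531 (k8 c5530 c5412 c5436 c5432 c5318 c5313 c18327 c18262 (k8 c18226 c5573 c5417 c5570 c5571 c5474 c5326 c5478 (k8 c9695 c18342 c719 c317 c6008 c9442 c17615 c12632 (k8 c13277 c12635 c844 c10850 c12615 c1749 c3582 c5340 (k4 c1129 c17888 c2980 c1130 (k1 c12654 k0)))))))) (by decide +kernel)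
def c18344 : PP 9 3 T 0x1000000000000000000000000000200000000000000000000000000000000000000000000000000000000000000000000000000 := rS 0x30808f6054204df9eff0d66941d64a5d8bde468051264da05c66f1c9914373a58edb439d (k8 c18327 c18226 c17660 c5421 c17162 c5475 c5326 c17674 (k8 c9695 c5316 c5433 c18328 c18340 c17792 c1056 c2171 (k8 c18341 c5451 c5452 c5494 c9172 c18343 c9399 c6344 (k8 c17189 c17804 c8818 c1129 c12635 c847 c5642 c10425 (k1 c17928 k0))))) (by decide +kernel)
def c18345 : PP 9 3 T 0x2000000000000000001000000000000000000000000000000000000000000000000000000000000000000000000000000000000000000000000000000 := rS 0x441a4b21300810ca1c08896b1e3da6cd5e8b46c77ddf370bc486452d86e742714ac55bb6d0fb73a9bd84a7265d (k8 c17796 c17674 c18344 c5209 c5397 c18327 c18262 c18226 (k8 c17660 c5573 c5421 c5417 c5570 c17162 c5475 c5474 (k8 c5326 c5478 c9695 c5460 c7694 c5191 c5504 c5505 (k8 c5583 c5584 c17706 c5238 c17720 c5216 c5559 c5558 (k8 c3582 c8808 c17704 c53 c317 c314 c9744 c12615 (k1 c17729 k0)))))) (by decide +kernel)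
def c18346 : PP 9 3 T 0x1000000000000000000000000000000000000000000000000000000000000000000000000000000000000000000000000000000 := rS 0x3e5b4f7ecda697ef7876129cefb742ad65edb273a (k8 c17162 c17674 c17660 c5420 c5573 c18226 c18262 c18327 (k8 c18344 c5209 c18345 c17718 c5452 c5496 c7702 c8156 (k2 c5238 c5191 (k1 c13608 k0)))) (by decide +kernel)
def c18347 : PP 9 3 T 0x200000000000000000000000000 := rS 0x198 (k2 c18346 c5363 k0) (by decide +kernel)
def c18348 : PP 9 3 T 0x20000000000000000000000000000000000000000000000000 := rS 0x198 (k2 c18346 c5364 k0) (by decide +kernel)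
def c18349 : PP 9 3 T 0x2000000000000000000000000000000000 := rS 0x198 (k2 c18346 c5365 k0) (by decide +kernel)
def c18350 : PP 9 3 T 0x80000000000000000000000000000000000 := rS 0x198 (k2 c18346 c5366 k0) (by decide +kernel)
def c18351 : PP 9 3 T 0x200000000000000000000000000000000000000000000000000000000000000 := rS 0x198 (k2 c18346 c5367 k0) (by decide +kernel)
def c18352 : PP 9 3 T 0x20000000000000000000000 := rS 0x198 (k2 c18346 c5480 k0) (by decide +kernel)
def c18353 : PP 9 3 T 0x20000000000000000000000000 := rS 0x198 (k2 c18346 c5481 k0) (by decide +kernel)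
def c18354 : PP 9 3 T 0x200000000000000000000000000000 := rS 0x198 (k2 c18346 c5482 k0) (by decide +kernel)
def c18355 : PP 9 3 T 0x800000000000000000000000000000000 := rS 0x198 (k2 c18346 c5483 k0) (by decide +kernel)
def c18356 : PP 9 3 T 0x20000000000000000000000000000000000 := rS 0x198 (k2 c18346 c5484 k0) (by decide +kernel)
def c18357 : PP 9 3 T 0x800000000000000000000000000000000000000000000000000000000000000 := rS 0x198 (k2 c18346 c5485 k0) (by decide +kernel)
def c18358 : PP 9 3 T 0x2000000000000018000220000000000000000000000000000000000000000000000000000000000000000000000000010000000000000000000000000000 := rS 0x5a6dd666c8aac1526757ab6226b399bd56fdf9c09fe8d43a3e029189a0cd26542a2f3089 (k8 c18356 c18346 c18350 c18349 c18353 c18347 c18355 c5382 (k8 c5374 c5502 c5526 c5373 c5381 c5544 c18001 c17809 (k8 c5542 c5500 c5565 c5379 c5523 c5371 c5490 c5406 (k8 c5487 c5489 c17895 c15394 c3601 c2460 c5421 c5685 (k1 c2610 k0))))) (by decide +kernel)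
def c18359 : PP 9 3 T 0x44000000000000056000000000000000000000000040000000200000000080044000000014000001100000000000000000000000000510000001020000002 := rS 0x6bb2892277a8815cdf0fab628191f85c623d118a4069f508d526b3 (k8 c2461 c5444 c331 c5398 c5448 c28 c9694 c9731 (k8 c5436 c5434 c5433 c5318 c5315 c5685 c2035 c11939 (k8 c2950 c5683 c5650 c1999 c2986 c344 c3579 c16068 (k1 c1247 k0)))) (by decide +kernel)
def c18360 : PP 9 3 T 0x2000000000000052000220000000000000000200040000000200000000000000000000000000000000000000000000000000000000100000000020000002 := rS 0x1a4e36ab5d8cac4e9b55e215a198b4331f8c47b113d9acf2131197c2ef768bcdfacff9fbe04ff46a1d1f0148c4c4a432092c8fb3388453e634aac63a3549965125d45a0f3085 (k8 c18349 c18346 c18355 c18350 c17796 c18356 c18352 c5444 (k8 c331 c5341 c2177 c5446 c5395 c5448 c5558 c667 (k8 c18358 c5562 c5342 c5340 c5561 c5559 c5382 c5374 (k8 c5502 c5526 c5373 c5381 c5544 c18001 c18000 c17809 (k8 c5543 c5542 c5540 c5501 c5498 c5433 c1054 c9731 (k8 c5564 c5524 c5523 c5372 c5371 c5436 c5434 c5318 (k8 c5316 c8187 c1994 c18359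 c2608 c1248 c2610 c5855 (k4 c5282 c18019 c2032 c2890 (k2 c2619 c3588 (k1 c2088 k0)))))))))) (by decide +kernel)
def c18361 : PP 9 3 T 0x2000000000000052000220000000000000000200040000000200000000000000000000000000000000000000000000000000000000000000000020000002 := rS 0x1fd96e3f0b3076f51037c3f145a8995cd3222cc6ab1198e4623739a04de7d2f85cc20768bf7e7027fa350e8f80a4626258e91ce21149a7d426341e610a8b (k8 c18350 c18349 c18346 c18355 c5395 c5398 c5448 c5444 (k8 c5558 c667 c5562 c5341 c5559 c5382 c5374 c5502 (k8 c5526 c5373 c5381 c5544 c18001 c17809 c5542 c5501 (k8 c5432 c661 c5433 c1054 c5566 c5565 c5380 c5379 (k8 c5435 c5434 c5317 c5316 c2177 c331 c2461 c18360 (k8 c2937 c336 c335 c1248 c5685 c11939 c2950 c3047 (k8 c1999 c340 c18037 c5537 c2624 c1293 c10493 c3599 k0))))))) (by decide +kernel)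
def c18362 : PP 9 3 T 0x40000000000000050000000000000000000000200040000000200001000000000000040000000001000004104000000000000000000000000000400000000 := rS 0xe840e124b8c3eb2129049647 (k8 c5562 c5342 c5340 c5559 c5685 c11939 c2458 c2895 (k4 c2898 c5650 c17934 c340 k0)) (by decide +kernel)
def c18363 : PP 9 3 T 0x2000000000000052000220000000000000000200040004000200000000000000000000000000000000000000000000000000000000000000000000000002 := rS 0xa936ad1bed73b4552ead33abc341d4ca5592634fa4cd6737888cbe173081d57f3813fd1a8747c05231312ecce211329a50a8b3ab150798 (k8 c18346 c18355 c18348 c18354 c18350 c18349 c18347 c18353 (k8 c5558 c667 c18358 c5559 c5382 c5374 c5502 c5526 (k8 c5373 c5381 c5544 c18001 c17809 c5500 c5432 c661 (k8 c5433 c1054 c9731 c9696 c5379 c5523 c5444 c5448 (k8 c5395 c5396 c5446 c5447 c18361 c5649 c10145 c664 (k8 c4364 c1073 c15394 c3597 c2187 c14418 c18362 c2610 (k2 c2615 c17916 k0))))))) (by decide +kernel)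
def c18364 : PP 9 3 T 0x42001000000000051000000000000000000000200040000000200000000000000000000000100001400011000000000000000000000000010000420000000 := rS 0x33476987a881361f8a0cc72311bb444a47 (k8 c5562 c5559 c5501 c5435 c5434 c5317 c5316 c5685 (k8 c11939 c1191 c5650 c1999 c5679 c341 c2441 c18037 k0)) (by decide +kernel)
def c18365 : PP 9 3 T 0x46001400000000055000000000000000000000200040004000200000000080000000000000000000000001040000000000000000000000000000004000002 := rS 0xd4561155eb4598d562c90e250663f188f5e2237e90c831d6ba85a7e2 (k8 c5196 c5579 c5578 c5465 c5341 c5340 c5561 c5542 (k8 c9731 c9696 c5436 c5434 c5318 c5316 c9823 c5649 (k8 c97 c2181 c332 c2461 c18364 c1248 c336 c5683 (k2 c3588 c2891 k0)))) (by decide +kernel)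
def c18366 : PP 9 3 T 0x40000000000000050000000000000000000000200040000000200001000000000000440000000001000001000000000000000000000000000000400000000 := rS 0x7420709243eb2129049647 (k8 c5562 c5342 c5340 c5559 c5685 c11939 c2895 c2899 (k2 c5650 c17934 (k1 c341 k0))) (by decide +kernel)
def c18367 : PP 9 3 T 0x2000400000000050000220000000000000000200040004000200000000000000000000000000000000000000000000000000000000000000000000000012 := rS 0x1e36ad22a6756abc3a1af0b8d2e9df137cc5b1889acf273118a406ab7efcfdf027fa350e8f80a46262525e4f667108a0cd26542a2f3089 (k8 c18356 c18346 c18350 c18349 c18353 c18347 c18355 c5558 (k8 c667 c18358 c12891 c5342 c5559 c5382 c5374 c5502 (k8 c5526 c5373 c5381 c5544 c18001 c18000 c17809 c5542 (k8 c5500 c28 c9694 c9731 c5379 c5524 c5523 c5371 (k8 c18363 c16365 c14805 c5196 c1274 c1229 c5466 c17754 (k8 c18365 c57 c1077 c4364 c1903 c15394 c18366 c2610 (k2 c11945 c10497 k0))))))) (by decide +kernel)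
def c18368 : PP 9 3 T 0x2000400000000010000220000000000000000200040004000200000000000000000000000000000000000000000000000000000000000000000000000012 := rS 0x3898ce11db7cd89d24828c49b106c43e274facf6d932392c82110c8fc2f11488351f130988c5203 (k8 c28 c9694 c9731 c5564 c5382 c5526 c5522 c5374 (k8 c5371 c5433 c5318 c5315 c5558 c5340 c5342 c5562 (k8 c12891 c18367 c5574 c5572 c5570 c18146 c17858 c5650 (k8 c7393 c16365 c18011 c344 c1274 c2416 c13097 c341 (k4 c13096 c779 c17934 c2619 k0))))) (by decide +kernel)
def c18369 : PP 9 3 T 0x2000000000000000000220000000000000000100000004000000000000000010000000000000000000000000000000000000000000100000000000000400 := rS 0x16a380f43a441a8d7bc05ff982ea15068b (k8 c18350 c18355 c18349 c17796 c18346 c5544 c5502 c5498 (k8 c5381 c5522 c5374 c5373 c5369 c15061 c10910 c2159 k0)) (by decide +kernel)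
def c18370 : PP 9 3 T 0x2000400000000010000220000000000000000000040004000200000000000000000000000000000000000000000000000000000000000000000000000012 := rS 0x33abc34f4059149449238803eb113acce2addb567dff379c050e91479cd1b133788d1689349950a83 (k8 c18355 c18349 c18353 c18347 c18356 c18350 c9731 c5565 (k8 c5382 c5381 c5379 c5526 c5374 c5373 c5502 c5540 (k8 c17809 c18000 c18368 c5231 c9614 c5571 c5574 c5570 (k8 c5421 c18146 c5650 c2422 c344 c5660 c460 c2588 (k4 c18369 c2421 c1078 c1903 (k1 c3602 k0)))))) (by decide +kernel)
def c18371 : PP 9 3 T 0x41000000000000010000220000000000000000000040004000000000000000000000000000000001200000000000000000000000004400000001400010000 := rS 0x12416f27abdc41010f83d220d47c4c26a90eecb6e85 (k8 c18349 c5421 c5228 c5486 c10768 c5564 c5382 c5526 (k8 c5522 c5374 c5369 c11939 c2144 c5650 c8123 c2420 (k4 c5657 c2530 c451 c12614 k0))) (by decide +kernel)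
def c18372 : PP 9 3 T 0x1000000000000010000220000000000000000200040004000000000000000000000000000000001000000000000000000000000000000000000000000002 := rS 0x3d5e6f77f02a2b03f94062287489ad1f13118744a4b23ac0e21146ec8e66f42e610689 (k8 c18356 c18355 c18346 c18349 c5565 c5379 c5228 c5381 (k8 c5558 c667 c17895 c5562 c5342 c5559 c5486 c9731 (k8 c5382 c5526 c5523 c5374 c5373 c5371 c2144 c18371 (k8 c5550 c5590 c17818 c18001 c15820 c2530 c2341 c5657 k0)))) (by decide +kernel)
def c18373 : PP 9 3 T 0x1000000000000010000220000000000000000200040004000000000000000000000000000000000000000000000000000000000000000000000000000002 := rS 0x88f67996c3c6d7facfe6b4dbac0e24b08a1cd67346c4c266f1480d52ad57bf4cfb2cc20cca89 (k8 c18356 c18353 c18355 c18346 c5228 c5487 c5405 c5406 (k8 c5490 c10768 c28 c9694 c5565 c5564 c5382 c5381 (k8 c5379 c5523 c5373 c5558 c5342 c667 c17895 c5421 (k8 c18372 c5548 c203 c2572 c2610 c11945 c14620 c2532 (k2 c18093 c17783 (k1 c504 k0)))))) (by decide +kernel)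
def c18374 : PP 9 3 T 0x1000000000000050000220000000000000000000040004000000000000000000000000000000000000000000000000000000000000400000000000010002 := rS 0x79bddea0a889ac3bb25a9262afe80fc91a8747c0eb29189a150798 (k8 c18346 c18355 c18349 c5382 c5374 c18373 c10772 c5526 (k8 c5373 c5381 c5231 c5592 c18001 c5590 c5588 c5548 (k8 c5228 c5486 c5523 c5371 c15386 c2341 c15820 c2530 (k1 c5657 k0)))) (by decide +kernel)
def c18375 : PP 9 3 T 0x100000000000000a000020000000000000000000000004000200000000000080000000000000000000000000000000000000000000000000000000000002 := rS 0x3193acd108640f113da1c1a7978874c69b4c9d8be174a99d2e853ab14ca69 (k8 c18347 c18353 c18348 c18354 c18349 c5404 c5487 c5488 (k8 c5433 c1054 c18020 c5447 c5397 c5395 c5486 c9696 (k8 c5524 c5522 c5373 c5372 c5371 c5432 c5315 c342 (k4 c17683 c15772 c10500 c14679 k0)))) (by decide +kernel)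
def c18376 : PP 9 3 T 0x1000400000000012000020000000000000000000040004000200000000000000000000000000000000000000000000000000000000000000000000000002 := rS 0xcff0a718e6d6682de4f7689d873113da1cd6792f85d2efd33a576485349958a75 (k8 c18354 c18348 c18353 c18347 c18349 c5228 c5488 c5487 (k8 c5405 c5404 c5433 c1054 c5524 c5523 c5373 c5372 (k8 c5371 c5317 c18020 c2131 c18375 c17966 c2530 c2500 (k4 c665 c14679 c17977 c5458 (k2 c1650 c5688 k0))))) (by decide +kernel)
def c18377 : PP 9 3 T 0x1000000000000050000220000000000000000000040004000000000000000000000000000000000000000000000000000000000000000000000000010002 := rS 0x8e0988a217b3cc86b0231c4e66f1480dfa1d33ec893ef80fcab29147a1e268dcc2250685 (k8 c18349 c18355 c18356 c18346 c5381 c5382 c5373 c5526 (k8 c5374 c18373 c5231 c5592 c18000 c5588 c5228 c5487 (k8 c5486 c5405 c28 c9694 c5565 c5379 c667 c18374 (k8 c17895 c1932 c2537 c17966 c342 c503 c15948 c5658 (k1 c351 k0))))) (by decide +kernel)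
def c18378 : PP 9 3 T 0x81000000000000010000220000000000000000000040004000000200000000000000000000000000000000000000000000000000000000000000000000002 := rS 0x3d840f3139ccdefd0e99f644b (k8 c5546 c5228 c5487 c5486 c5405 c5565 c5379 c351 (k4 c554 c15948 c17966 c342 k0)) (by decide +kernel)
def c18379 : PP 9 3 T 0x8000200000000000000000000000000000000000000000000000000000000000000000000000000000000000000080000000000000002 := rS 0x1c5622739a34de2901ab73089 (k8 c18356 c18346 c5490 c28 c9694 c5565 c5381 c5379 (k4 c2862 c1932 c668 c17895 k0)) (by decide +kernel)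
def c18380 : PP 9 3 T 0x1000000000000050000220000000000000000000040004000000000000000000000000000000000000000000000000000000000000000000000000000002 := rS 0x3de458ec0421f243a451e8d89d6487b244a15068b (k8 c18350 c18355 c18349 c18356 c5228 c18379 c18373 c5382 (k8 c5381 c5526 c5374 c5373 c5231 c18377 c5592 c18378 (k2 c2966 c18000 (k1 c5658 k0)))) (by decide +kernel)
def c18381 : PP 9 3 T 0x400000000010000220000000000000000000040004000200000000000000000000000000000000000000000000000000000000000000000000000012 := rS 0x16271db6cbda73469bf3089 (k8 c18356 c18346 c5565 c5381 c5379 c18370 c5228 c18380 (k2 c5571 c5421 (k1 c17895 k0))) (by decide +kernel)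
def c18382 : PP 9 3 T 0x2000000000000020000220000000000000000000000000000000000000000000000000000000000000000000000000000000000000000000000000000000 := rS 0x16a71576cfde667fbf60287489ad1e8d899b552b3db9cd168544a0cca69 (k8 c18347 c18353 c18355 c18356 c18349 c18350 c5379 c17731 (k8 c5532 c5531 c5529 c5382 c5381 c5526 c5523 c5374 (k8 c5373 c5502 c5542 c5544 c17916 c18000 c5487 c12790 (k2 c2988 c1248 (k1 c17856 k0))))) (by decide +kernel)
def c18383 : PP 9 3 T 0x28000020000000000000000000000000000000000000000000000000000000000000000000000000000000000000000000000000000000 := rS 0x677ea1cd6a9419950a69 (k8 c18347 c18349 c18353 c18355 c5531 c5523 c5373 c5405 (k2 c5487 c18014 k0)) (by decide +kernel)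
def c18384 : PP 9 3 T 0x4000200000000000000000000000004000000000000000001000000000000000100000000000000010040000000040000001010000000 := rS 0x15aaf0d1cd1a6f45a24d265 (k8 c18353 c18347 c18356 c18350 c5565 c5381 c5379 c5649 (k2 c10145 c1908 (k1 c3602 k0))) (by decide +kernel)
def c18385 : PP 9 3 T 0x1000000000000004000200000000000000000200040004000000000000000011000000000000002100000000000000010040000000000000000100000000 := rS 0x111ec5b79871fe8d098948798 (k8 c18346 c5561 c5559 c5564 c5381 c2573 c18384 c333 (k4 c1994 c5657 c17783 c504 k0)) (by decide +kernel)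
def c18386 : PP 9 3 T 0x20000220000000000000000200040004000000000000000001000000000000002000000000000000010040000000000000000000000000 := rS 0x4905bc835010eac1eafc07a1d220d47c4c26ab10aa7dbb38ea14d265 (k8 c18353 c18347 c18349 c5341 c18383 c18382 c5531 c5528 (k8 c5413 c5564 c5382 c5526 c5522 c5374 c5373 c5369 (k8 c17965 c2338 c18385 c2177 c2143 c5649 c1076 c2530 (k2 c451 c17964 k0)))) (by decide +kernel)
def c18387 : PP 9 3 T 0x1000000000000000000000000000000000000000040004000000000000000000000000000000000001000000004000000080000000000000000100000002 := rS 0xf77abccb41c (k4 c664 c663 c333 c1998 (k2 c2101 c5657 k0)) (by decide +kernel)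
def c18388 : PP 9 3 T 0x20000220000000000000000200040004000000000000000000000000000000000000000000000000000000000000000000000000000002 := rS 0x1687108c45226b78c556667f6aa44287 (k8 c5373 c5528 c5531 c18382 c18387 c5532 c5414 c9696 (k4 c5523 c5374 c5371 c5558 (k2 c667 c15768 (k1 c18386 k0)))) (by decide +kernel)
def c18389 : PP 9 3 T 0x40000000000000000000000000000000000000100040000000000000000000010000000000000000020000000000000000000000000400000000108000000 := rS 0x259244c42 (k4 c1908 c1909 c3033 c353 (k1 c5660 k0)) (by decide +kernel)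
def c18390 : PP 9 3 T 0x41000000000000004000200000000000000000100040004000000100000000010000000000000000140000000000000000040000000500000000100010002 := rS 0x109ec5b7987036ac389cd1a1337bc5165944974d265 (k8 c18353 c18347 c17796 c18356 c18352 c18350 c9696 c5565 (k8 c5564 c5381 c5379 c667 c3602 c18389 c5649 c333 (k4 c1994 c5657 c12615 c2108 k0))) (by decide +kernel)
def c18391 : PP 9 3 T 0x400000000000000220000000000000000000040004000200000000000000000000000000000000000000000000000000000000000000000000000012 := rS 0x56074e2247909dee4a24843e70022ac63aaff740eb2f57e19f67ed23edd66a9368862bb407c450e9135a3ce68d899bde22901a2cb26534a250a83 (k8 c18355 c18349 c18356 c18347 c18353 c18352 c18350 c28 (k8 c9694 c9696 c5565 c5382 c5381 c5379 c5526 c5523 (k8 c5374 c5373 c5371 c5369 c18381 c5414 c5528 c5529 (k8 c5531 c5532 c17731 c12800 c18382 c18383 c18387 c17965 (k8 c2338 c18388 c10772 c5229 c18030 c5504 c5506 c5582 (k8 c18000 c5592 c18390 c3026 c5660 c8188 c353 c5657 (k4 c5651 c668 c333 c14568 (k1 c2759 k0)))))))) (by decide +kernel)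
def c18392 : PP 9 3 T 0x2000000000000010000220000000000000000000040008000000000000000000000000000000000000000000000000000000000000000000000000000002 := rS 0x218a8456a27599236c4bf9829fe0f88a1d220d35c4c475945a150659 (k8 c18352 c18355 c18349 c18350 c17561 c9731 c5382 c5523 (k8 c5522 c5374 c5373 c5371 c5369 c5544 c10404 c17809 (k8 c2588 c5231 c13510 c5574 c5570 c5422 c3026 c17759 (k2 c344 c15768 k0)))) (by decide +kernel)
def c18393 : PP 9 3 T 0x8000200000000000000000100000000000000200000000000000000000000000000000000000000010000000000000000010004000000 := rS 0x4bb713ac03a73469bf3089 (k8 c18356 c18346 c5565 c5381 c5379 c5486 c17895 c351 (k2 c5421 c1092 (k1 c5651 k0))) (by decide +kernel)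
def c18394 : PP 9 3 T 0x400000000002000200000000000000000000000000000200200000000001000000000400000000004000000000010001400000000010000014000000 := rS 0x1abe36b9f92c63508cc6273409bcfa8b (k8 c18350 c5566 c5565 c5380 c5379 c5434 c5316 c5398 (k4 c5395 c17904 c3599 c1767 (k2 c5577 c2998 (k1 c5778 k0)))) (by decide +kernel)
def c18395 : PP 9 3 T 0x5000400000000050000220000000000000000100000000000200200000000001000000000000000000000000000000010001400000000010010014000000 := rS 0xf1783629f120f52279d9b2c4e17 (k8 c5433 c351 c9148 c18393 c5524 c5374 c5436 c5651 (k4 c2756 c18394 c5195 c5196 (k1 c17754 k0))) (by decide +kernel)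
def c18396 : PP 9 3 T 0x1000000000000014000220000000000000000000040008000000200000000000000000000000000480000000000000000000000000000000000610000000 := rS 0x2a953157f12c14497bbf41e874883626f32dbd6b28b42a0cb25d (k8 c17796 c18352 c18355 c18349 c18350 c17561 c5477 c5474 (k8 c5325 c5382 c5522 c5374 c5373 c5369 c2551 c342 (k8 c3693 c3571 c2588 c13510 c6578 c2452 c5682 c1286 k0))) (by decide +kernel)
def c18397 : PP 9 3 T 0x400000000010000220000000000000000000040000000200000000000000000000000000000000000000000000000000000000000000000010010012 := rS 0x7c42ae58acf6c73469bde2232f85cc2071a99cb7edf7ab766718e564373a1480d168934994b25d (k8 c17796 c18352 c18353 c18347 c18356 c18350 c28 c9694 (k8 c18391 c5475 c17561 c12681 c667 c18393 c2029 c17287 (k8 c18392 c5474 c663 c5324 c5432 c661 c5433 c1054 (k8 c9731 c9696 c5565 c5381 c5379 c18395 c5574 c5421 (k4 c3602 c18396 c18146 c5650 k0))))) (by decide +kernel)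
def c18398 : PP 9 3 T 0x1000000000000016000200000000000000000000000008000200000000008000000000000400000004004000000000010001400000000000000200000000 := rS 0x1aacc3f0ecc6a1498cc723739a04de7d7ebcdee8b (k8 c18350 c343 c5325 c2550 c5566 c5565 c5380 c5379 (k8 c5435 c5317 c5316 c5444 c5398 c5395 c340 c3599 (k2 c13811 c2998 (k1 c2507 k0)))) (by decide +kernel)
def c18399 : PP 9 3 T 0x5000400000000055000220000000000000000000000000000000000000000000000000000000000000000000000000000000000000000000000000000000 := rS 0xf17812279 (k4 c5524 c5374 c5195 c5196 (k1 c17754 k0)) (by decide +kernel)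
def c18400 : PP 9 3 T 0x1000000000000012000200000000000000000000000008000200201000008000000000000000000100000000000000010041400000000000010200000000 := rS 0x156cb5709c2e73469bd5bb3ac86d3e8b449a4ca59 (k8 c18352 c18353 c18347 c18356 c18350 c5448 c5475 c17561 (k8 c18393 c2029 c5565 c5381 c5379 c5433 c352 c3602 (k2 c9148 c1286 (k1 c18398 k0)))) (by decide +kernel)
def c18401 : PP 9 3 T 0x81000000000000012000200000000000000000000000008000200200000008000000000000000000000000000004000010041400000000000010220000000 := rS 0x973bb3fc2cd6f2a8824754899603b7e87de6d3d9d6436c919b8e071549a54d265629d4b28b (k8 c18350 c18352 c18354 c18348 c18353 c18347 c5446 c5444 (k8 c5590 c5550 c5549 c5316 c2061 c5475 c17561 c18393 (k8 c2081 c5325 c58 c2550 c340 c18400 c2178 c2183 (k8 c2865 c349 c5682 c17862 c2075 c5538 c2565 c10798 (k2 c1285 c18020 k0))))) (by decide +kernel)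
def c18402 : PP 9 3 T 0x400000000050000220000000000000000000040008000200000000000000000000000000000000000000000000000000000000000000000020010002 := rS 0x3f552b20f2ac43b07f45492b525fca2287489ac465f0b9840e672dfb7deadd99c639590d8a4068b42a0cb25d (k8 c17796 c18352 c18355 c18349 c18350 c28 c9694 c5475 (k8 c17561 c12681 c667 c18393 c2029 c17287 c18392 c5474 (k8 c663 c5432 c661 c5433 c1054 c9731 c5523 c5374 (k8 c5373 c5371 c5231 c5546 c5548 c5588 c5590 c13510 (k8 c18399 c18401 c2122 c5650 c15768 c4597 c2557 c5682 k0))))) (by decide +kernel)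
def c18403 : PP 9 3 T 0x5000000000000000000020000000000000000000000008000000000400010000000000000000000000000000000000000000000008000000000000000000 := rS 0xb438350659 (k4 c18352 c18355 c5522 c5373 (k2 c2588 c18055 k0)) (by decide +kernel)
def c18404 : PP 9 3 T 0x400000000010000220000000000000000000040000000200000000000000000000000000000000000000000000000000000000000000000000010012 := rS 0xab54c55fc4b24c0440fd5707d62b3db07366ad38fbe3887489cd1b1337bc4462901bcc37593396fdb3a45a15068934994b25d (k8 c17796 c18352 c18353 c18347 c18356 c18355 c18349 c18350 (k8 c18391 c18392 c5474 c663 c17561 c5475 c5325 c28 (k8 c9694 c9731 c9696 c5565 c5382 c5381 c5379 c5374 (k8 c5373 c12681 c17287 c667 c2029 c18393 c18397 c18402 (k8 c5574 c5421 c18146 c3602 c13351 c5650 c3071 c3693 (k4 c18403 c13510 c6578 c2452 (k2 c1286 c5682 k0))))))) (by decide +kernel)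
def c18405 : PP 9 3 T 0x100000000000000000000000000000000000000000200000000000000000000000000000000014004000000 := rS 0x4bb7 (k2 c5421 c1092 (k1 c5651 k0)) (by decide +kernel)
def c18406 : PP 9 3 T 0x400000000050000220000000000000000000040008000200000000000000000000000000000000000000000000010000000000000000000000020002 := rS 0x157b0577bdfcad4f882031525893e43d43a3e265f3081c86672dfb492916585f66b113d64362901a34e66f45964ca6944a150798 (k8 c18346 c18355 c18349 c18356 c18347 c18353 c18352 c18350 (k8 c5565 c5379 c5381 c28 c9694 c5475 c17561 c2858 (k8 c18405 c17895 c5433 c9148 c5374 c3026 c18392 c5474 (k8 c663 c5478 c5432 c661 c1054 c5382 c5526 c5373 (k8 c5436 c5231 c5651 c5546 c5590 c5592 c15948 c2756 (k4 c2758 c13510 c18000 c14568 (k2 c18399 c1286 (k1 c18398 k0)))))))) (by decide +kernel)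
def c18407 : PP 9 3 T 0x400000000010000220000000000000000000040000000200000000000000000000000000000000000000000000010000000000000000000000000012 := rS 0x2ad53157f12e03ef7eab83ead59edb66b113a1ce68d899bde2231480de61bac99cb7ed9d124209145a150659329a73089 (k8 c18356 c18346 c18347 c18353 c18352 c18355 c18349 c18350 (k8 c5374 c18404 c3026 c18391 c18392 c5474 c663 c17561 (k8 c5475 c5325 c28 c9694 c9731 c9696 c5565 c5382 (k8 c5381 c5379 c5373 c2858 c18405 c17895 c18406 c5574 (k8 c5573 c18146 c14568 c13351 c5584 c3071 c18403 c13510 (k4 c6578 c2452 c1286 c5682 k0)))))) (by decide +kernel)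
def c18408 : PP 9 3 T 0x8000020040000000000000000040000000200000000000000000500000000000000000000000000060000000005000010001004000002 := rS 0x76cb4e9888e9bd8880723f1b8f62285 (k8 c18349 c5371 c5436 c5435 c5318 c5317 c13932 c17756 (k4 c2490 c2423 c16365 c1274 (k2 c1322 c341 (k1 c14656 k0)))) (by decide +kernel)
def c18409 : PP 9 3 T 0x85000000000000056000000000000000000000000000000000200000000008004000000000000000040000000100000000040400000010000001200000000 := rS 0x12e7769b57c6cd5837954ad1d91dfae354a4d9295349958a75 (k8 c18354 c18348 c18353 c18347 c5446 c5396 c5444 c2453 (k8 c5549 c2550 c2423 c340 c2893 c5682 c17862 c5683 (k4 c2075 c5580 c3003 c2085 (k2 c10131 c1334 (k1 c18020 k0))))) (by decide +kernel)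
def c18410 : PP 9 3 T 0x400000000010000220000000000000000000040000000200000000000000000000000000000000000000000000000000000000000000000000000012 := rS 0x25ceed066b3fc2fc63275562120a652a9b31a4f61b354fbdfd0170b8c97f2578976e7024843db113da1d220d3ca3ce68d8988cbe171480de61bace4c6a332b81c62672dce8d265629d50a8941a2cba59 (k8 c18352 c17796 c18350 c18355 c18356 c18349 c18354 c18348 (k8 c18353 c18347 c18391 c5474 c663 c5434 c5432 c5313 (k8 c5316 c5324 c10897 c17561 c5475 c5325 c28 c9694 (k8 c5433 c1054 c9731 c5382 c5381 c5379 c5526 c5524 (k8 c5522 c5374 c5373 c5372 c5371 c18392 c18404 c3026 (k8 c18407 c5571 c2755 c2988 c5231 c5546 c5549 c5591 (k8 c5592 c13510 c18000 c2453 c18408 c18399 c5444 c5395 (k8 c5397 c5446 c5447 c13854 c18409 c7110 c5855 c10500 (k8 c5682 c5535 c2560 c2504 c5688 c10798 c1708 c18020 k0))))))))) (by decide +kernel)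
def c18411 : PP 9 3 T 0x5000000000000040000000000000000000000100040000000000201000002000000000000000002000000000000000000000000004100000010400000000 := rS 0xae134089101 (k4 c2140 c9106 c13257 c10038 (k2 c2632 c2986 k0)) (by decide +kernel)
def c18412 : PP 9 3 T 0x1000000000000040000220000000000000000000040008000000001000002000000000000000000400000000000000000000000000000000000100010002 := rS 0x2bd63007f9295ab438fbe3911489ace68d899bc462901915e7593396d168934994b25d (k8 c17796 c18352 c18353 c18347 c18356 c18350 c5474 c663 (k8 c17561 c5325 c5326 c28 c9694 c9731 c5565 c5382 (k8 c5381 c5379 c5523 c5374 c5371 c12681 c17287 c667 (k8 c15768 c2029 c18411 c2568 c18403 c1336 c3070 c3602 k0)))) (by decide +kernel)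
def c18413 : PP 9 3 T 0x20000220000000000000000100040000000000000000000014000000000000000000000000000000010040040000040000010004020000 := rS 0x206ae7b2b41624589284eb407a1c1a6b46c4cdeb3db9cc929145a24d26542965065d (k8 c17796 c18355 c18352 c18349 c18353 c18347 c18356 c18350 (k8 c5374 c3026 c5379 c17731 c5532 c5565 c5382 c5381 (k8 c5523 c5522 c5373 c5369 c17856 c2858 c9106 c18405 (k4 c5651 c2588 c2758 c3571 (k2 c3602 c2196 (k1 c1249 k0)))))) (by decide +kernel)
def c18414 : PP 9 3 T 0x400000000000000220000000000000000000040000000200000000000000000000000000000000000000000000000000000000000000000000000012 := rS 0x2b7deb17f2d496af131c092107e6cfdbb759aa44315da19eb2f50d96de6439d0a40687489cd1685419a4ca59 (k8 c18352 c18353 c18347 c18355 c18349 c18350 c5379 c5374 (k8 c5373 c28 c9694 c18391 c5478 c5325 c5474 c5475 (k8 c5477 c17561 c663 c18410 c5414 c5528 c5531 c5532 (k8 c17731 c18382 c18383 c17965 c18412 c3026 c18413 c668 (k8 c2988 c353 c9106 c13510 c1335 c5586 c2892 c5683 k0))))) (by decide +kernel)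
def c18415 : PP 9 3 T 0x2000000000000002000220000000000000000200000000000200002000000000000040000000000180000000000000000000000000000000000000000008 := rS 0x669ddc4d66af8da6ca50a7d26191f85c7a7b3c89c2625378a482cff7c05228f43c4d1ac53aa150689 (k8 c18356 c18355 c18349 c18354 c18348 c5381 c5382 c5373 (k8 c5526 c5374 c5502 c18000 c5543 c5340 c5339 c5565 (k8 c1113 c5564 c267 c5524 c5372 c5436 c5433 c5318 (k8 c5315 c5444 c5448 c5398 c3579 c2940 c5464 c1661 (k4 c1247 c1293 c10131 c2192 (k1 c15064 k0)))))) (by decide +kernel)
def c18416 : PP 9 3 T 0x8000000000000000000000000000000000000000000000200000000000000000000000000000000000000000010000000800000000000015000000010 := rS 0x13e930c85c7acb (k4 c5464 c5436 c5433 c5315 (k2 c1517 c1522 (k1 c17994 k0))) (by decide +kernel)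
def c18417 : PP 9 3 T 0x2000000000000002000220000000000000000200000000000200002000000000000000000000000180000000000000000000000000000000000000000008 := rS 0x1bca1 (k2 c5398 c18415 (k1 c2950 k0)) (by decide +kernel)
def c18418 : PP 9 3 T 0x2000400000000054000220000000000000000200000000000200000000000000000000000100001100000400000000000000000000000000000000000018 := rS 0x26198c74e9dcc05ff0f8b62ae8a1ecf27d3189c2625378a726d167fcfdead59c0a028d43a3dfe9189b150a833ae61128b (k8 c18350 c18356 c18346 c18354 c18355 c18349 c18348 c5382 (k8 c5374 c5544 c5526 c5373 c5381 c5502 c18001 c2461 (k8 c2035 c18000 c17809 c5543 c5501 c12891 c5339 c5565 (k8 c1113 c5564 c267 c9752 c5566 c5524 c5372 c5685 (k8 c5683 c18417 c5196 c17754 c18416 c5663 c725 c1696 (k4 c727 c3607 c5679 c2441 k0)))))) (by decide +kernel)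
def c18419 : PP 9 3 T 0x2000000000000005000020000000000000000000000000000000000000000000000000000100000001000400000000000002000000000000000000000000 := rS 0xcd639dd2e7b439e5a2cf62a150675 (k8 c18354 c18355 c18349 c18348 c5543 c5501 c5524 c5373 (k4 c5372 c1639 c725 c727 (k2 c13053 c3607 k0))) (by decide +kernel)
def c18420 : PP 9 3 T 0x1000000040000000000000000000000000200000000000000000000000400000000004000000000004001000000010000014000000008 := rS 0xa02f24c323f0b8f4c625 (k8 c1113 c9752 c5436 c5433 c5318 c5315 c262 c5663 (k2 c3579 c1121 k0)) (by decide +kernel)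
def c18421 : PP 9 3 T 0x2000400000000014000220000000000000000200000004000200000000000000000000000000001000000400000000000000000000000000000000000018 := rS 0x98f0b318e9d3b98362cb4fed992b1780647e173da1cf26f0d89c261d1490726d167e60ea8562a0cb265 (k8 c18353 c18352 c18355 c18348 c18349 c18354 c18346 c5543 (k8 c5501 c12891 c5340 c5339 c263 c5564 c267 c1109 (k8 c5565 c5524 c5373 c5372 c5433 c5318 c5315 c5649 (k8 c1330 c1177 c18418 c5572 c5420 c17858 c18420 c725 (k4 c1696 c727 c3607 c17952 (k2 c5679 c2441 k0)))))) (by decide +kernel)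
def c18422 : PP 9 3 T 0x2000400000000010000220000000000000000200000004000200000000000000000000000000001000000400000000000000000000000000000000000018 := rS 0x36eb38a9c1526757ec95b02f9bfe02ab43a451e7346c4cca8b34e610685 (k8 c18349 c18355 c18346 c18347 c18350 c18353 c5382 c5381 (k8 c5379 c5526 c5374 c5373 c5500 c5502 c5544 c17809 (k8 c18001 c2035 c18421 c5406 c5487 c5489 c18358 c15394 (k2 c2460 c5571 (k1 c5685 k0))))) (by decide +kernel)
def c18423 : PP 9 3 T 0x1000000000000010000220000000000000000200040004000000000000000004000000000000001200000000000000000000000000000000004004000000 := rS 0xb3f99222a448196decf5dba1d228f39a3626133790e3a4754ab55e67d96610685449951669 (k8 c18347 c18350 c18353 c18356 c18349 c18355 c18346 c5228 (k8 c5487 c5406 c5490 c10768 c5562 c5341 c5561 c5565 (k8 c5564 c5382 c5381 c5379 c5526 c5374 c5373 c5421 (k8 c14493 c5657 c2101 c2195 c17783 c1295 c503 c5588 (k2 c2894 c5685 k0))))) (by decide +kernel)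
def c18424 : PP 9 3 T 0x400000000010000220000000000000000200040004000200000000000000000000000000000000000000000000000000000000000000000000000010 := rS 0xb3f9921ecf58aedc887058bcccef157ab764a9f6ad48f1d1490d0e91479cd1b130d89c262537874449b0f808026b41a151265459a73059 (k8 c18352 c18346 c18347 c18350 c18353 c18356 c18349 c18355 (k8 c5523 c18414 c5642 c1111 c7393 c6197 c263 c5565 (k8 c1113 c5564 c267 c1109 c5382 c5381 c5379 c5526 (k8 c5374 c5373 c5561 c5339 c5341 c5562 c1339 c18422 (k8 c10768 c5228 c5490 c5406 c5401 c5487 c447 c18423 (k8 c17895 c3582 c5571 c3048 c14493 c5657 c503 c5588 (k2 c2894 c5685 k0))))))) (by decide +kernel)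
def c18425 : PP 9 3 T 0x4000400000000082000000000000000000000000000000000200100000081000000000054100000005000400000000000000000002000000005000000000 := rS 0xcd4eb57c6e2202652a930c8fc2e371ea7d9629 (k8 c5417 c5420 c5572 c5436 c5435 c5433 c5318 c5315 (k8 c5444 c5446 c5447 c17815 c18013 c17994 c1657 c1777 (k2 c2624 c18127 k0))) (by decide +kernel)
def c18426 : PP 9 3 T 0x82000220000000000000000000000000000200100000010000000000044000000000000000000000000000000002000000000000000008 := rS 0x3b335abe37110126191f85c6e3d3d9e44e13129bfde9147a1e268d4fb2c52c53aa150689 (k8 c18356 c18355 c18349 c18354 c18348 c5417 c5420 c5572 (k8 c5381 c5382 c5373 c5526 c5374 c18000 c5565 c1113 (k8 c5564 c267 c5524 c5372 c5436 c5435 c5433 c5318 (k8 c5315 c5444 c17815 c18013 c17994 c1657 c2624 c15064 (k1 c10131 k0))))) (by decide +kernel)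
def c18427 : PP 9 3 T 0x11000000000000000000000000000000000200000000000000000000042500000000004400000000000000000002000000015800000000 := rS 0x50a4c829c4cb8fc2190b8f5be3f (k8 c5318 c2946 c5436 c5433 c5315 c5537 c2624 c2441 (k4 c5679 c512 c482 c1278 (k1 c3579 k0))) (by decide +kernel)
def c18428 : PP 9 3 T 0x20000000000000000000000000000000000000000000000000015100000000000400000000000002000000000000000000000000 := rS 0xc73b9ed0e7962a150675 (k8 c18354 c18355 c18349 c18348 c5524 c5373 c5372 c725 (k2 c727 c3607 k0)) (by decide +kernel)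
def c18429 : PP 9 3 T 0x2000400000000010000220000000000000000100040004000200000000000000000000000000000000000000000000000000000000000000000000000008 := rS 0xd64b100bc61c9b37624823911a71d6490de04bd98a5969f38eda05eff9bfd9f0168864663f43a451e8d8998c362709894de1d1126c3e6b42b17308344a2cb265 (k8 c18353 c18352 c18350 c18356 c18355 c18346 c18348 c18349 (k8 c5523 c1111 c7393 c6197 c263 c5565 c1113 c5564 (k8 c267 c1109 c9752 c5382 c5381 c5526 c5374 c5373 (k8 c5318 c5316 c5315 c5501 c5502 c5543 c5544 c17809 (k8 c18000 c18001 c5231 c5571 c5572 c5420 c5417 c18358 (k8 c560 c5649 c1936 c1177 c551 c15747 c5658 c2350 (k8 c13731 c18426 c18427 c17834 c18428 c5663 c18420 c17795 (k2 c459 c1767 k0)))))))) (by decide +kernel)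
def c18430 : PP 9 3 T 0x80000000000000000000220000000000000000000000000000000200000000080000000040000000000000000000000000000000000000020000000000000 := rS 0x7f6fb1da8ce409f51685 (k8 c18349 c18350 c5566 c5380 c502 c553 c2560 c2565 (k2 c2998 c17861 k0)) (by decide +kernel)
def c18431 : PP 9 3 T 0x1000000000000050000220000000000000000100040004000200000000000000000000000000000000000000000000000000000000000000000000000008 := rS 0x6f1fd3de363ac99660d8e4c6ad38e3d8865b7abfbde4550c05c2e3147c8ae19198fc0e17189ed0e913ca3ce68146c4cfa630d89c26253787537034bbcde3b21107cd66562964ea5d44a0f3085 (k8 c18349 c18346 c18355 c18356 c17796 c18354 c18352 c18348 (k8 c18353 c5523 c1111 c6197 c5228 c5401 c447 c5404 (k8 c10772 c7393 c263 c5565 c1113 c5564 c267 c1109 (k8 c9752 c5566 c5382 c5381 c5380 c5379 c5526 c5524 (k8 c5374 c5373 c5372 c5434 c5433 c5432 c5318 c5316 (k8 c5315 c5313 c5231 c5651 c5549 c5591 c5592 c1195 (k8 c456 c18000 c18001 c2342 c14422 c2781 c5657 c12659 (k8 c15747 c18430 c10897 c17904 c14092 c1755 c15809 c727 (k4 c17854 c5680 c729 c15962 (k1 c2885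 k0)))))))))) (by decide +kernel)
def c18432 : PP 9 3 T 0x400000000010000220000000000000000000040004000200000000000000000000000000000000000000000000000000000000000000000000000010 := rS 0xb138edb65edac9cd1a6f010073089 (k8 c18356 c18346 c18414 c5642 c5565 c5381 c5379 c18424 (k4 c18429 c5228 c18431 c5571 (k2 c5421 c17895 k0))) (by decide +kernel)
def c18433 : PP 9 3 T 0x8400000000005000220000000000000000200000004000200000000004000000000000000000001000100000000001000000000000000000000000018 := rS 0x68b3da89466b1cee973017cf6873ca051a7d3189c262537b25e01d0d864539362a15067545a24ca59 (k8 c18352 c18353 c18356 c18350 c18354 c18355 c18349 c18348 (k8 c12891 c5339 c5315 c1109 c263 c5649 c1177 c5565 (k8 c1113 c5564 c267 c9752 c5566 c5381 c5380 c5524 (k8 c5373 c5372 c18416 c5663 c1639 c10409 c726 c13053 (k4 c5678 c17987 c1587 c1711 (k1 c3607 k0)))))) (by decide +kernel)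
def c18434 : PP 9 3 T 0x9000000000000000000220000000000000000200040004000000000000000040000000000000000000000000000000000000000000000000000000000000 := rS 0x920b793d6004507a1d220d47a36261321a151283 (k8 c18355 c18356 c18349 c5561 c5564 c5382 c5381 c5526 (k8 c5522 c5374 c5373 c5369 c5582 c18000 c1927 c5657 (k2 c2530 c450 (k1 c17964 k0)))) (by decide +kernel)
def c18435 : PP 9 3 T 0x5000400000000062000000000000000000000000000000000200000000000000000000000000000000000000000000000000000000410000015140000000 := rS 0x247c9c7e1f18e9949b50a7d26191c8fc2e371e88d3a99 (k8 c5530 c5412 c5409 c5436 c5435 c5433 c5318 c5317 (k8 c5315 c5444 c5448 c5398 c5397 c3579 c3578 c5464 (k4 c5456 c1773 c5204 c14149 (k1 c5588 k0)))) (by decide +kernel)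
def c18436 : PP 9 3 T 0x400000000000000220000000000000000200040004000200000000000000000000000000000000000000000000000000000000000000000000000010 := rS 0x495abfbc5b1f7ac48e411489c262106894de1f35c54da9954acf6e73f6bdde1b30e86c040111ed0ca59 (k8 c18352 c18353 c18432 c5409 c18414 c5642 c1109 c263 (k8 c18383 c5649 c499 c18382 c5379 c17731 c5532 c5531 (k8 c5530 c5529 c5414 c5523 c1111 c5565 c1113 c5522 (k8 c265 c5564 c267 c5339 c5340 c5562 c1330 c18434 (k4 c18435 c5196 c18433 c2573 (k2 c3007 c18060 k0)))))) (by decide +kernel)
def c18437 : PP 9 3 T 0x41000000000000000000220000000000000000000000000000000000000000048000040501000000000000000000000000000000009000800000000000000 := rS 0x699dcfed071b819fe13da1d228d3e9d51689 (k8 c18356 c18350 c18354 c5566 c5381 c5374 c5373 c5372 (k8 c5456 c1647 c563 c1774 c449 c10493 c10798 c3063 (k1 c8163 k0))) (by decide +kernel)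
def c18438 : PP 9 3 T 0x2000000000000000000000000000000000200000000000000000000000000000000001100000000000000000000000400000540000000 := rS 0x136930c8e42e37 (k4 c5435 c5433 c5317 c5315 (k2 c5444 c5397 (k1 c3578 k0))) (by decide +kernel)
def c18439 : PP 9 3 T 0x400000000000000220000000000000000000040004000200000000000000000000000000000000000000000000000000000000000000000000000010 := rS 0x27fc6d23b9fcc1b1c98ed9a0b6fbc894f523fce00d56ba87dc2824d65eec9786cfdbb74cc553a23da064723743a451e7340a36267d0d89c262106894de1d0f808026b62a2cea8942a0cb265 (k8 c18353 c18352 c18355 c18349 c18356 c18354 c18350 c18348 (k8 c5523 c18414 c5642 c1111 c263 c5565 c1113 c5522 (k8 c265 c5564 c267 c1109 c5566 c5382 c5381 c5380 (k8 c5379 c5526 c5374 c5373 c5435 c5317 c5315 c18432 (k8 c5409 c5412 c5414 c5530 c17731 c18382 c18383 c5649 (k8 c1177 c499 c18436 c10038 c5651 c5229 c1195 c5507 (k8 c5585 c18000 c5592 c2791 c1928 c5660 c5657 c2510 (k8 c2588 c2500 c18437 c17770 c18438 c18034 c729 c10409 (k4 c17990 c17987 c2883 c17969 k0))))))))) (by decide +kernel)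
def c18440 : PP 9 3 T 0x80000000000000048000220040000000000000000000000000200000000000001000000000000000000010400000000000000000000000010000000000008 := rS 0x9ff1b798eb23fb2f62601985c627b489e51e7340c4cfa630db8dc265 (k8 c18353 c5591 c5549 c1109 c9752 c5566 c5382 c5380 (k8 c5379 c5526 c5524 c5374 c5372 c5434 c5433 c5316 (k8 c14092 c17756 c1755 c729 c15809 c727 c15962 c17854 (k2 c2885 c5680 k0)))) (by decide +kernel)
def c18441 : PP 9 3 T 0x400000000050000220000000000000000000040008000200000000000000000000000000000000000000000000000000000000000000000000000008 := rS 0xc76f9fd9cd466a5992b0d82ab66ad54fbdfded8092496af50fc8501943a451e8146c4cfa1b1384c4a6f0ed6726351995c0e5b18a6dfaf17987cd68545a25065d3a9658a65 (k8 c18353 c18348 c18352 c18354 c17796 c18355 c18356 c18350 (k8 c18349 c5523 c1111 c5325 c5323 c13351 c7393 c5434 (k8 c5474 c5432 c5313 c5316 c5324 c10897 c17561 c263 (k8 c5565 c1113 c5564 c267 c1109 c5566 c5382 c5381 (k8 c5380 c5526 c5374 c5373 c5315 c5651 c5231 c1195 (k8 c1243 c5546 c5588 c5592 c17809 c13510 c18000 c2453 (k8 c2893 c18440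 c5682 c18399 c5683 c5396 c17904 c2075 (k4 c1334 c1285 c2998 c3003 (k2 c2560 c17861 k0))))))))) (by decide +kernel)
def c18442 : PP 9 3 T 0x2000000000000000000220000000000000000000040008000000000000000000000000000000000000000000000000000000000004000000000000000000 := rS 0x11d08921fef743a46b28b2c9750a83 (k8 c18355 c18349 c17796 c18352 c18350 c17561 c5374 c5373 (k4 c5498 c5544 c13510 c3026 (k2 c513 c12681 k0))) (by decide +kernel)
def c18443 : PP 9 3 T 0x400000000082000000000000000000000000000008000200000000000000000000000000000000000000000000000000000000000000005014000000 := rS 0x1a7ef57475aed5f1a5880a1498646617188f48af11aa7d9629 (k8 c5417 c5420 c5572 c5324 c5323 c5326 c5436 c5434 (k8 c5433 c5316 c5315 c5444 c5398 c17815 c17904 c17994 (k4 c1656 c1767 c5778 c17885 (k2 c5584 c2940 (k1 c5689 k0))))) (by decide +kernel)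
def c18444 : PP 9 3 T 0x1000200040000000000000000000000000200000000000000000000000400000000004005000000010000000002000400010000000008 := rS 0x127f3010422571f81c7a81379f44e13 (k8 c5564 c267 c5566 c5565 c5380 c5436 c5432 c5318 (k4 c5313 c3026 c511 c18420 (k2 c728 c1573 (k1 c12613 k0)))) (by decide +kernel)
def c18445 : PP 9 3 T 0x400000000010000220000000000000000000040008000200000000000000000000000000000000000000000000000000000000000000000000000008 := rS 0xaf33aa952fe8a925263bf06c7dbb325ab5622965a7d6671db3f44487489cd1a1b1384c4a6f0e87cd6f179d6726351995c0e5b18a2d126932a1507982e9d4b2c5 (k8 c18348 c18352 c18354 c17796 c18346 c18355 c18349 c18353 (k8 c18347 c18356 c18350 c5434 c5474 c5432 c5313 c5316 (k8 c5324 c10897 c17561 c5325 c5323 c5523 c1111 c263 (k8 c5565 c1113 c5564 c267 c1109 c5381 c5379 c5374 (k8 c5373 c6197 c13351 c18441 c5571 c5574 c5572 c5420 (k8 c5417 c5421 c5573 c560 c17895 c18442 c18443 c5195 (k8 c5456 c481 c18444 c7822 c13510 c2452 c5682 c2123 (k2 c1286 c3602 k0)))))))) (by decide +kernel)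
def c18446 : PP 9 3 T 0x1000400000000022000000000000000000000000000000000200000000000015000000000000000000000000000000000000000000000010000154000000 := rS 0xd04b064629d (k4 c5412 c5434 c5315 c17904 (k2 c14065 c1708 k0)) (by decide +kernel)
def c18447 : PP 9 3 T 0x5000400000000001000020000000000000000000000008000200000400000000000000040000000000001104000000000000000008010000000400000008 := rS 0x20c0cd1dc0016391b83cf687359e4420dc98d466570396c627562964ba85 (k8 c18349 c17796 c18352 c18348 c18354 c5434 c5474 c5432 (k8 c5313 c5316 c5324 c10897 c5522 c265 c5524 c5523 (k8 c5373 c5372 c5369 c5435 c5317 c2588 c18403 c562 (k4 c2077 c18034 c11199 c1573 k0)))) (by decide +kernel)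
def c18448 : PP 9 3 T 0x4000400000000000000220000000000000000000040008000200000000000000000000000000000000000000000000000000000000000000000000000008 := rS 0x12cb02f2b5c2fe25a4dbed33fb8d9641f10f50e9147a06267d31a74da9959ecc931511abc51b739d644e13129bf63edda3d5e6357887cd61d10834368b42a0cca59 (k8 c18352 c18353 c18355 c18349 c18350 c1109 c5522 c265 (k8 c263 c5523 c1111 c5323 c5324 c5325 c5477 c18445 (k8 c18382 c18446 c5565 c1113 c5564 c267 c17561 c5379 (k8 c17731 c5651 c1243 c5409 c5414 c10038 c18383 c5532 (k8 c5530 c5529 c5412 c9752 c5566 c5382 c5380 c5526 (k8 c5374 c5373 c5436 c5196 c5462 c5464 c5466 c5577 (k8 c5579 c5580 c536 c18447 c13510 c6188 c2892 c18087 (k2 c5683 c17795 (k1 c1333 k0))))))))) (by decide +kernel)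
def c18449 : PP 9 3 T 0x400000000000000220000000000000000000040000000200000000000000000000000000000000000000000000000000000000000000000000000010 := rS 0x3dc164a7fc77dc49dbc5447b4acbd4b6f39d09c040107a1d220d39c4c26852ca0cba8b (k8 c18350 c17796 c18355 c18352 c18349 c5564 c5382 c5379 (k8 c5522 c5374 c5373 c5369 c18414 c5642 c267 c18439 (k8 c5325 c5474 c5477 c17561 c18445 c5409 c5414 c17731 (k8 c10038 c18448 c5504 c5586 c13510 c2588 c564 c3571 k0)))) (by decide +kernel)
def c18450 : PP 9 3 T 0x2000000000000000000220000000000000000000080004000000000000000000000000000000000000000000000000000000000000000000000000000000 := rS 0x8c77de447fbce020f43a451e8d8982deb5942a2d1283 (k8 c18355 c18356 c18350 c18349 c12110 c5519 c5516 c5382 (k8 c5381 c5526 c5374 c5373 c5369 c5502 c5540 c5544 (k4 c18369 c18000 c190 c2966 (k1 c15384 k0)))) (by decide +kernel)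
def c18451 : PP 9 3 T 0x5a000220000000000000000000080004000200000000000000000000000000000000000000000000000000000000000000018000000002 := rS 0x117de1055474b6435499c3afd4bab46311439ad1b130987fda5f0b9840e6d05a562a492c975128b429950669 (k8 c18347 c18355 c18353 c18349 c18350 c18356 c17796 c18352 (k8 c5334 c3046 c5446 c5516 c665 c5432 c661 c5433 (k8 c1054 c18450 c5517 c5564 c5382 c5381 c5523 c5373 (k8 c5371 c5434 c5490 c5404 c5405 c5486 c5487 c5489 (k8 c18379 c15018 c351 c9248 c15411 c15022 c2966 c12659 k0))))) (by decide +kernel)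
def c18452 : PP 9 3 T 0x9000000000000056000020000000000000000000000004000200001400020041000000000000000000000000000000001000400000000000008004000000 := rS 0x63a75bee1f1ad19ad259bf06aab0e10e227b359e4c69b20a4fe6a9 (k8 c2027 c5592 c5444 c349 c5397 c5395 c5524 c5523 (k8 c5372 c5371 c2863 c5649 c2121 c331 c5682 c2901 (k8 c14662 c2504 c5685 c5579 c3063 c2514 c1343 c9140 (k1 c18019 k0)))) (by decide +kernel)
def c18453 : PP 9 3 T 0x52000220000000000000000000080004000200000000000000000000000000000000000000000000000000000000000000008000000014 := rS 0x385c6df25ac9a2b5561d9549733bf434a9802c7ddb320c54723f1b8f50e9147a36263b0fbdc9247acfb452f12f85cda0005a4d3e954ca250a6932b14ea83 (k8 c18355 c18354 c18348 c18353 c18347 c18349 c18356 c5447 (k8 c5446 c5448 c5444 c5516 c5642 c665 c5433 c1054 (k8 c9696 c9694 c18450 c12110 c5520 c5334 c5333 c5517 (k8 c5332 c5382 c5381 c5526 c5374 c5373 c5436 c5435 (k8 c5318 c5317 c3046 c349 c18451 c5229 c5506 c18000 (k8 c2027 c18452 c1075 c1903 c1073 c5682 c18020 c15022 (k8 c1344 c2131 c2128 c354 c2953 c2458 c2898 c3590 k0)))))))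 (by decide +kernel)
def c18454 : PP 9 3 T 0x52000220000000000000000000080004000200000000000000000000000000000000000000000000000000000000000000000000000014 := rS 0x1c7e14e31dbf14f9b87c6b35a9f848cb3889d329b31a853f113da441a7939a06266f3e87c8f591497c2e61039b4000b (k8 c5516 c5642 c665 c5432 c661 c5433 c1054 c9694 (k8 c12110 c5520 c5517 c5566 c5565 c5382 c5380 c5379 (k8 c5524 c5522 c5374 c5372 c5371 c5448 c5398 c5395 (k8 c5397 c5447 c18453 c668 c9148 c5651 c3599 c1094 (k8 c2760 c5577 c3058 c17922 c5685 c2950 c9140 c10253 (k2 c5458 c1777 (k1 c5691 k0))))))) (by decide +kernel)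
def c18455 : PP 9 3 T 0x59000220000000000000000000080004000200000000000000000000000000000000000000000000000000000000000000018000000002 := rS 0x2296fde105547486a94a99c3afd57ab46e0f88a1cd68d8984c7647ac9b41662c98962a492c975128b32a150669 (k8 c18347 c18355 c18349 c18353 c18350 c18356 c17796 c18352 (k8 c5334 c3046 c60 c13294 c16365 c5516 c665 c12110 (k8 c5520 c5332 c5564 c5382 c5381 c5523 c5373 c5371 (k8 c5369 c5435 c5490 c5406 c5405 c5486 c5487 c5488 (k8 c5489 c18379 c351 c3601 c15411 c15022 c15023 c2966 (k1 c12659 k0)))))) (by decide +kernel)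
def c18456 : PP 9 3 T 0x400000000051000220000000000000000000080004000200000000000000000000000000000000000000000000000000000000000000018000000002 := rS 0xd0861c6986d28c97e2ad3cb454f8dbe9b70c0163e0f76cc8315508947e3143a44f28f46c4c3e49acfb5e2cb39a5cc59344a150669 (k8 c18347 c18355 c18349 c18356 c13294 c16365 c1229 c5379 (k8 c1322 c9696 c18450 c12110 c5334 c5517 c5382 c5381 (k8 c5526 c5524 c5374 c5373 c5434 c5318 c60 c2927 (k8 c3046 c350 c18455 c5229 c5195 c5506 c18000 c5460 (k8 c5536 c5538 c17754 c2027 c15031 c5680 c1344 c5682 (k8 c1180 c10429 c1075 c2883 c10191 c2863 c14662 c332 k0)))))) (by decide +kernel)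
def c18457 : PP 9 3 T 0x8000220000000000000000000080000000000002000000000000000000000000000000000000000010000000000000000002000000000 := rS 0x3ca04452dac0ceaf569cd1a6fcc194d289 (k8 c18356 c18347 c18353 c18346 c5565 c5381 c5379 c5490 (k8 c5406 c5487 c17895 c14630 c2968 c1295 c17728 c2628 k0)) (by decide +kernel)
def c18458 : PP 9 3 T 0x1000000000000014000000000000000000000000080000000200000000001000000000011000000000000040000000000000000000000000000020000000 := rS 0x672a1e635558cc72311b8edeef5 (k8 c5519 c5333 c5332 c5435 c5434 c5317 c5316 c2121 (k4 c332 c334 c5682 c3587 (k1 c2451 k0))) (by decide +kernel)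
def c18459 : PP 9 3 T 0x400000000050000220000000000000000000000004000200000000000000000000000000000000000000000000000000000000000000000000000014 := rS 0x15a670ebf59ad157ac7c1eed9c53e6b35a890e2274b98b6273469bc3e47c9d67da2936800174a45a24d265 (k8 c18353 c18347 c18356 c18350 c18449 c5516 c5642 c665 (k8 c9694 c18450 c12110 c13294 c5520 c5517 c5565 c5381 (k8 c5379 c18454 c16365 c1229 c18456 c668 c5651 c1094 (k8 c2760 c17922 c5685 c18457 c5229 c5195 c5506 c5584 (k4 c5459 c5537 c1241 c18458 (k2 c664 c2759 (k1 c3602 k0))))))) (by decide +kernel)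
def c18460 : PP 9 3 T 0x82000220000000000000000000000000000000000000000000000000000000000000000000000000001000400000000000000000000000 := rS 0x1c7e14e31dc3e36f9f8c6a13d9e4facb8a44d231135a3fe6b537acce671 (k8 c5571 c5379 c5574 c5565 c5422 c17922 c5526 c5523 (k8 c5371 c5374 c5382 c3604 c5420 c5566 c5524 c5372 (k8 c5398 c5395 c17831 c2950 c5577 c3058 c9140 c17977 (k2 c5458 c1777 (k1 c5691 k0))))) (by decide +kernel)
def c18461 : PP 9 3 T 0x200000000000000000000000004000000000000000000000000000000000110000000000000010000000000000000001010000002 := rS 0x15e6739a34def145a24d265 (k8 c18353 c18347 c18356 c18350 c9696 c5565 c5381 c5379 (k2 c664 c10145 (k1 c3602 k0))) (by decide +kernel)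
def c18462 : PP 9 3 T 0x44000000000000010000220000000000000000000080004000000002000000000000000000000000110000000000000010000000000000000000010000002 := rS 0x253f822aa80911531d7eab8346706a3e26137afb5e3b3469ccde8b449a4cb98 (k8 c18346 c18353 c18347 c18356 c18350 c5565 c5379 c5381 (k8 c17895 c9696 c18450 c5519 c5564 c5382 c5526 c5522 (k8 c664 c5649 c3602 c3994 c2161 c1906 c1078 c3071 (k4 c5682 c2966 c6368 c17919 (k1 c2569 k0))))) (by decide +kernel)
def c18463 : PP 9 3 T 0x44000000000000010000220000000000000000000080004000200002000000000000000011000001110000040000000010000000000000000004000000002 := rS 0x1038e3fc86fc22aac38f7acfb7668d399bd1398 (k8 c18346 c18356 c5565 c5379 c5381 c17895 c18450 c12110 (k8 c5333 c18462 c2121 c335 c18458 c2000 c3011 c5658 (k2 c2631 c6335 k0))) (by decide +kernel)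
def c18464 : PP 9 3 T 0x400000000010000220000000000000000000000004000200000000000000000000000000000000000000000000000000000000000000000000000014 := rS 0x3a667eabfdccd68a5fc062d8fcf671456ad56227599c76c6d2f8002f11489ad1e7346c4cde0bc9fb6948b449a4cb98 (k8 c18346 c18353 c18347 c18356 c18350 c18449 c18450 c13294 (k8 c5516 c5565 c5382 c5381 c5379 c5526 c5523 c5374 (k8 c5371 c5433 c5642 c1054 c665 c18459 c5571 c5574 (k8 c5570 c5421 c5422 c5573 c3604 c17895 c17922 c18460 (k8 c16365 c5195 c1229 c5459 c5537 c18463 c5584 c1241 (k2 c3602 c18458 (k1 c664 k0))))))) (by decide +kernel)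
def c18465 : PP 9 3 T 0x40000000005a000220000000000000000000080004000200000000000000000000000000000000000000000000000000000000000000000000000008 := rS 0x198f268b3cb6345499dfa9778ab466390b8c5ea47c9d67da1b30f8538991d88c3e2106e610a65 (k8 c18353 c18349 c18346 c5522 c265 c5517 c5331 c5332 (k8 c5447 c18438 c5458 c5445 c1109 c18450 c12110 c13294 (k8 c5520 c5519 c5434 c5433 c5317 c5316 c5490 c5401 (k8 c5404 c5405 c5487 c5489 c14092 c15062 c1650 c1704 (k2 c17728 c5688 (k1 c2500 k0)))))) (by decide +kernel)
def c18466 : PP 9 3 T 0x400000000052000220000000000000000000080004000200000000000000000000000000000000000000000000000000000000000000000000000008 := rS 0xfed33bb81bed066ad1f8cf59aa7e6ab80355aef0f76cdc7e14e265367b43a451e8d899f4761ff686c420d0ec545159129bc4e13119d5168942a0cb265 (k8 c18353 c18352 c18355 c18349 c18356 c18350 c18354 c5331 (k8 c5564 c267 c5565 c1113 c12110 c5651 c1289 c263 (k8 c5522 c265 c1109 c18450 c5517 c5332 c5566 c5382 (k8 c5381 c5526 c5374 c5373 c5372 c5397 c5447 c18438 (k8 c5458 c1778 c18465 c5229 c5649 c5507 c5585 c18000 (k8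 c1281 c5592 c2027 c2901 c1651 c5682 c5685 c2504 (k4 c1240 c2514 c1343 c10798 (k2 c2136 c10493 (k1 c8163 k0))))))))) (by decide +kernel)
def c18467 : PP 9 3 T 0x40000000000000050000220000000000000000000080004000000000000000008000000000000001010000000000000000000000000100000020000000000 := rS 0xfe8ec049687488351e8d8991eb31511c0f3083 (k8 c18355 c18346 c2628 c5331 c1289 c12110 c5520 c5382 (k8 c5381 c5526 c5522 c5374 c5373 c12113 c15060 c554 (k2 c18001 c11059 k0))) (by decide +kernel)
def c18468 : PP 9 3 T 0x4000000000000000000020000000000000000100000004000000000400001008000000000000002001000000000000000040000000100000000004000000 := rS 0x425847554ff36c450e6b419a4ca85 (k8 c18349 c18353 c18347 c18355 c5523 c5373 c5371 c2610 (k4 c2572 c3601 c555 c1344 (k2 c5658 c1931 k0))) (by decide +kernel)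
def c18469 : PP 9 3 T 0x50000220000000000000000000080004000000000000000008000000000000001010000000000000000000000000100000020000000000 := rS 0x11c25bfbe50143a451e8d8991eb31511c0f3083 (k8 c18355 c18346 c2628 c5331 c1289 c12110 c5520 c5382 (k8 c5381 c5526 c5374 c5373 c15060 c18467 c18001 c5546 (k2 c11059 c554 k0))) (by decide +kernel)
def c18470 : PP 9 3 T 0x58000220000000000000000000080004000000000000000000000000000000000000000000000000000000000000000000000000000008 := rS 0x155ee36ad1e4452daa4cefd78ab6228735a3626f52386e2a28ac894de270988d1285419a4cb98 (k8 c18346 c18353 c18347 c18355 c18349 c18356 c5331 c5564 (k8 c267 c5565 c1113 c12110 c5651 c1289 c1109 c5520 (k8 c5519 c5382 c5381 c5523 c5373 c5371 c5490 c5401 (k8 c5405 c5487 c5489 c15062 c456 c17728 c18469 c2610 (k2 c18468 c3601 (k1 c15022 k0)))))) (by decide +kernel)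
def c18471 : PP 9 3 T 0x1000000040000000000000000000000000000000000002000000000000000000000001080000000000400000000000400000500000008 := rS 0x4c9852ac5 (k4 c18348 c133 c1639 c2555 (k1 c18034 k0)) (by decide +kernel)
def c18472 : PP 9 3 T 0x400000000050000220000000000000000000080004000200000000000000000000000000000000000000000000000000000000000000000000000008 := rS 0x69278ee7f65981285f4bbf153e34eaad93006bf81e1eed9ec62aa1140650e91359e51e8146c4cfa3b11e4eb3ed3186c4e13108344a6f0ea258a7542a0cb265 (k8 c18353 c18352 c18355 c18349 c18354 c18348 c18356 c263 (k8 c5565 c1113 c5522 c265 c5564 c267 c1109 c9752 (k8 c18450 c12110 c13294 c5331 c5332 c5566 c5382 c5381 (k8 c5380 c5526 c5524 c5523 c5374 c5373 c5315 c5651 (k8 c1195 c1289 c18466 c18470 c5229 c5649 c5195 c5507 (k8 c18000 c1177 c1281 c5458 c17754 c2027 c5682 c18471 (k8 c17795 c5678 c5663 c1757 c729 c10409 c5680 c17990 (k1 c2883 k0)))))))) (by decide +kernel)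
def c18473 : PP 9 3 T 0x4000000000000014000220000000000000000000080004000000100000005000000000000000000014000000000000000000000000000000000100000000 := rS 0x45e644544041e874882deb59f6a151683 (k8 c18355 c18350 c18349 c18450 c12110 c5519 c5516 c5374 (k8 c5373 c5369 c13274 c5682 c15061 c2446 c2966 c15384 k0)) (by decide +kernel)
def c18474 : PP 9 3 T 0x4000000000000014000220000000000000000000080004000000102000000000000000000000000014000000000000000000000000000000001100000000 := rS 0x219155d007e3fc9359 (k8 c12110 c5334 c3011 c18473 c1242 c1241 c3066 c2776 (k1 c5658 k0)) (by decide +kernel)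
def c18475 : PP 9 3 T 0x4000000000000090000220000000000000000000080004000000100000000000000000000000000004000000000000000000000000000000001100000000 := rS 0x7ebfcd84a8ac45226b47c4c46b314ad55bb358a34e27337a151398 (k8 c18346 c18356 c18349 c5565 c5379 c5571 c5381 c5421 (k8 c17895 c5573 c5422 c5417 c5574 c5331 c5382 c5526 (k8 c5523 c5374 c5371 c18474 c17941 c3604 c2569 c2552 (k1 c18473 k0)))) (by decide +kernel)
def c18476 : PP 9 3 T 0x400000000010000220000000000000000000000004000200000000000000000000000000000000000000000000000000000000000000000000000010 := rS 0x36c55f90057fba3aab786cd5ab5588a56671db0744a210d80a228748834d68f39a36266f11d290a8941e60b265 (k8 c18353 c18352 c18346 c18355 c18356 c18349 c18449 c5331 (k8 c5565 c5382 c5381 c5379 c5526 c5523 c5522 c5374 (k8 c5373 c5371 c18464 c1109 c265 c1113 c263 c18472 (k8 c5571 c5574 c5417 c5421 c5422 c5573 c17895 c5649 (k8 c1281 c551 c18475 c5584 c18000 c13274 c1241 c2552 (k1 c3604 k0)))))) (by decide +kernel)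
def c18477 : PP 9 3 T 0x20000000000000000000080008000000000000000000000000000000000000000000000000000000000000000000000000000000 := rS 0x16de798 (k4 c18346 c5325 c5474 c17728 k0) (by decide +kernel)
def c18478 : PP 9 3 T 0x21000220040000000000000000000000000200000000000000000000000000000000000000000000000000000001400400000040000402 := rS 0x385967e311c01e91069af6e73 (k8 c5379 c17731 c5523 c5522 c5374 c5369 c13576 c16365 (k4 c781 c1322 c3058 c14640 k0)) (by decide +kernel)
def c18479 : PP 9 3 T 0x400000000000000220000000000000000000000000000200000000000000000000000000000000000000000000000000000000000000000000000010 := rS 0x3493c7ff1b25427765bc050600e8944e1b01005aad7f76cf63b74c8853bb49dd67264705924461f1dd28326b39a051a13379f58a893aa2cb265 (k8 c18353 c18352 c18350 c18354 c18356 c18348 c5566 c5565 (k8 c5564 c5381 c5380 c5379 c5523 c5315 c18449 c5332 (k8 c5517 c5331 c5334 c5516 c5520 c13294 c12110 c18477 (k8 c18476 c5412 c5528 c5530 c17731 c9578 c18383 c5229 (k8 c5507 c5585 c18478 c5642 c1109 c267 c1113 c263 (k8 c18034 c5651 c5649 c1755 c10409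 c1195 c1177 c17987 (k4 c729 c5680 c3608 c2883 k0))))))) (by decide +kernel)
def c18480 : PP 9 3 T 0x18000220000000000000000000040000000000002000000000000000000000000000000000000000000000000000000000000000010020 := rS 0x3cdee0b5507c1e8748834e68d11ab55e1d33a1506592e9951669 (k8 c18347 c18350 c18353 c17796 c18352 c18355 c18349 c5487 (k8 c5486 c5406 c5490 c9734 c5381 c5379 c5522 c5374 (k8 c5373 c5369 c15434 c15394 c718 c8123 c15414 c10863 k0))) (by decide +kernel)
def c18481 : PP 9 3 T 0x4000400000000000000200000000000000000200000000000200000000000000000000000000000000000000000000000000040000000000000000000100 := rS 0x353bb59aa7ef195c6607188f4fa1120b4c8813468fceac52c9751798 (k8 c18346 c18350 c17796 c18352 c18348 c18354 c5318 c5381 (k8 c5564 c17783 c2936 c5340 c5558 c5566 c5436 c5434 (k8 c5432 c5316 c5313 c17898 c17896 c2998 c5689 c10131 (k2 c1763 c3567 k0)))) (by decide +kernel)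
def c18482 : PP 9 3 T 0x4000400000000058000220000000000000000200040000000200000000000000000000000000000000000000000000000000000000000000000000000000 := rS 0x2482c401f4e32f625e490222a4b208444a173da44f28f1196cce04 (k8 c18479 c5487 c715 c9734 c5526 c5524 c5374 c5372 (k8 c5433 c5559 c5558 c5340 c5342 c18480 c18481 c311 (k8 c312 c5444 c1753 c17406 c1082 c5855 c718 c345 (k1 c17224 k0)))) (by decide +kernel)
def c18483 : PP 9 3 T 0x4000400000000048000200000000000000000100000004000200000000000000000000000000000000000004000000000000000000000000001000000020 := rS 0x1a9ddacd569f8cfc41218444c57198fc0e311ea34267d008a406ad2d99c127562964ba8b (k8 c18350 c17796 c18352 c18348 c18354 c311 c5487 c715 (k8 c5490 c54 c9694 c53 c5566 c5564 c5381 c5436 (k8 c5434 c5432 c5318 c5316 c5313 c5651 c720 c5252 (k8 c13854 c17411 c17898 c15747 c2998 c5689 c10131 c1763 (k1 c3567 k0))))) (by decide +kernel)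
def c18484 : PP 9 3 T 0x1000400000000010000020000000000000000000040000000200000000001008000000000000000000000004000000000000040000000000000400000100 := rS 0x3a103343e0b2b8cc7207188dc1e7b43834f27562964ba85 (k8 c18349 c17796 c18352 c18348 c18354 c5524 c5522 c5373 (k8 c5372 c5369 c5435 c5434 c5432 c5317 c5316 c5313 (k4 c2530 c2532 c2500 c5650 (k2 c11199 c340 k0)))) (by decide +kernel)
def c18485 : PP 9 3 T 0x400040000000005a000220000000000000000000040004000200000000000000000000000000000000000000000000000000000000000000000000000000 := rS 0x1abe33b3786ab38e34d3acd1090decf37a915962404a6536a14fa4cae19198fc0e1718bc446af7e874b667022d5c71570fb5fd0346a1d1f01f956523133ab14b25d41e610a8b (k8 c18350 c18349 c18346 c18355 c17796 c18352 c18348 c18354 (k8 c5382 c5374 c18482 c5231 c5592 c5526 c5373 c5381 (k8 c5550 c18001 c17809 c5591 c5590 c5549 c5548 c18479 (k8 c5487 c715 c5486 c5405 c5406 c9734 c5811 c5434 (k8 c5433 c5432 c5318 c5316 c5315 c5313 c5444 c5448 (k8 c5398 c5397 c5447 c311 c18483 c1090 c2968 c2342 (k8 c18484 c5657 c2781 c342 c17683 c15772 c15747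 c5658 (k4 c2761 c18430 c3620 c3567 (k2 c5580 c3003 (k1 c10131 k0)))))))))) (by decide +kernel)
def c18486 : PP 9 3 T 0x80000000000000000000220000000000000000000040000000000000000000000000000000000000000000000000000000000000000000000001200000020 := rS 0x58049649 (k4 c5588 c5546 c53 c2417 (k1 c17224 k0)) (by decide +kernel)
def c18487 : PP 9 3 T 0x80000000000000059000200000000000000000000040004000200000000000040000000040000000000010100000000000000000000000000000080010120 := rS 0x327c69f2b8fc7a133e8a406cf7a3cdfbed1ba15068b (k8 c18350 c18355 c18349 c5435 c17809 c5405 c2532 c5657 (k8 c2339 c54 c9694 c5566 c5564 c5436 c5318 c5313 (k4 c17448 c17898 c10123 c16709 k0))) (by decide +kernel)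
def c18488 : PP 9 3 T 0x4000000000000059000220000000000000000100040004000200000000000000000000000000000000000000000000000000000000000000001000000020 := rS 0x362ac10cf68bd014f30f27532217b911a71d5090c2226198fc2e311bc450e8d0988c520356bf43aa92d99c93edf9194b25d44a15068b (k8 c18350 c18355 c18349 c18356 c17796 c18352 c18353 c5231 (k8 c17809 c5588 c5487 c715 c5489 c5486 c5405 c5490 (k8 c54 c9694 c9734 c5564 c5381 c5373 c5371 c5435 (k8 c5434 c5433 c5318 c5316 c5651 c720 c5252 c2927 (k8 c351 c15747 c12659 c503 c18486 c7114 c5855 c5650 (k8 c2532 c18067 c5657 c1925 c2339 c18487 c1085 c717 (k1 c15258 k0))))))) (by decide +kernel)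
def c18489 : PP 9 3 T 0x5000400000000008000220000000000000000000040004000200000000008008000000000000000000000000000000000000000000000000002000000000 := rS 0x3b787c4d367b55ae70212c63acd1c8c47a87489e4e6814684cde7d2d99c084557b15167544e60b25d (k8 c17796 c18352 c18346 c18356 c18354 c18350 c18348 c5406 (k8 c2968 c18479 c5487 c715 c5566 c5565 c5564 c5381 (k8 c5380 c5379 c5524 c5374 c5373 c5436 c5434 c5317 (k8 c2500 c17702 c1093 c12659 c17895 c1933 c2778 c6082 (k4 c2943 c5689 c17754 c17987 (k1 c10798 k0)))))) (by decide +kernel)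
def c18490 : PP 9 3 T 0x4000000000041000000000000000000000000000000000200000000000000000000000400000000004000000000024040000000000010000000000020 := rS 0x603b28012571981c625b3ab14b25d (k8 c17796 c18352 c18348 c18354 c715 c5434 c5432 c5316 (k4 c5313 c5711 c5680 c3567 (k2 c2930 c724 k0))) (by decide +kernel)
def c18491 : PP 9 3 T 0x1000400000000041000220000000000000000000000000000200000000000000000100001000000000000000000000020040000000000010002000000000 := rS 0x1aa7768787c4cf43a44f281469bcfa044f8f5961762a2cea89 (k8 c18356 c18354 c18350 c18348 c5433 c1090 c5436 c2756 (k8 c18479 c5566 c5565 c5381 c5380 c5524 c5374 c5373 (k4 c6082 c18490 c17754 c5688 (k2 c10798 c1710 (k1 c17987 k0))))) (by decide +kernel)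
def c18492 : PP 9 3 T 0x4000000000041000000000000000000000000000004000200000000000000000000000400000200004000000000004040000000000010000000000020 := rS 0x7664024ae33038c4c65b2c9d58a5d (k8 c17796 c18348 c18354 c18352 c715 c9754 c5434 c5432 (k4 c5316 c5313 c5711 c9422 (k2 c3567 c10686 k0))) (by decide +kernel)
def c18493 : PP 9 3 T 0x4000400000000058000220000000000000000000040004000200000000000000000000000000000000000000000000000000000000000000000000000000 := rS 0x178c3e1509ffc4b0388d53a998e34d9a2121bd9e6f522b2d3e24d8bfbdb0170c0fe5592b8cc7e070b8dc7a87489e51e7340a36266f3e80c4663022b55e1d33a2d126932e610685 (k8 c18349 c18355 c18346 c18353 c18347 c18356 c18350 c5487 (k8 c5486 c5406 c5490 c18479 c9754 c9734 c54 c5566 (k8 c5565 c5382 c5381 c5380 c5379 c5526 c5524 c5374 (k8 c5373 c5436 c5435 c5433 c5432 c5318 c5316 c5313 (k8 c18482 c5231 c5550 c5591 c5592 c17809 c18001 c18485 (k8 c18488 c2756 c1090 c2968 c2342 c18489 c5657 c2781 (k8 c342 c17683 c15747 c5658 c7114 c5855 c18430 c18491 (k8 c3602 c18492 c5577 c5578 c17754 c17879 c3599 c10734 k0))))))))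 (by decide +kernel)
def c18494 : PP 9 3 T 0x400000000058000220000000000000000000040004000200000000000000000000000000000000000000000000000000000000000000000000000000 := rS 0x3e75980117dc5b33a1d228f46c4c2604cc2250a83 (k8 c18355 c18349 c18356 c18346 c18479 c5564 c5382 c5381 (k8 c5526 c5374 c5373 c5487 c715 c18493 c5582 c18000 (k2 c17783 c5592 (k1 c5231 k0)))) (by decide +kernel)
def c18495 : PP 9 3 T 0x40000000000000050000000000000000000000000000000000000000400000000000000000000000000000000000000000000000000400000001000000820 := rS 0x2d0d81e (k4 c718 c717 c11939 c2610 k0) (by decide +kernel)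
def c18496 : PP 9 3 T 0x400000000050000220000000000000000000040004000200000000000000000000000000000000000000000000000000000000000000000000000000 := rS 0x5b0f86c389b4b17bc2a1f16c5240bc991c4b58f7fcde7017bfb366570ba1d220d3ca3d1b13008110a5d2ca25068b (k8 c18350 c18355 c18356 c18352 c17796 c18349 c18479 c53 (k8 c5382 c5381 c5526 c5524 c5522 c5374 c5373 c5433 (k8 c5313 c18494 c5228 c5498 c5502 c5540 c17809 c18000 (k8 c5231 c5559 c5562 c12891 c18495 c16648 c5444 c5196 (k8 c5578 c17754 c17444 c17795 c10735 c1638 c1073 c17725 (k2 c1995 c10900 k0)))))) (by decide +kernel)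
def c18497 : PP 9 3 T 0x1000200000000000000000200000000000200000000000000000000000000000000000000000000010000400000000000000000000020 := rS 0x7e30024ae3f039f4c793 (k8 c12891 c9754 c5566 c5432 c5318 c5313 c312 c5663 (k2 c17896 c728 k0)) (by decide +kernel)
def c18498 : PP 9 3 T 0x400000000080000200000000000000000200000004000200000000000000000000000000000000000000000000000000000000000000000000000020 := rS 0x110385b0da58bdb10c8fc2e13788a40627d9ac51a71399bf3089 (k8 c18356 c18346 c5565 c5379 c5571 c5381 c5421 c17895 (k8 c5570 c54 c9694 c5811 c5564 c5433 c5318 c5315 (k8 c17858 c18497 c17795 c1073 c716 c5649 c17783 c335 k0))) (by decide +kernel)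
def c18499 : PP 9 3 T 0x4004000000000004000000000000000000000100000004000200000000000001000000000000000010000004100000000000040000020000000004000100 := rS 0x354ecd31a90c3857198fc0e313ab14b25d (k8 c17796 c18352 c18348 c18354 c5434 c5432 c5318 c5316 (k8 c5313 c5649 c10701 c331 c15747 c3567 c1656 c10131 k0)) (by decide +kernel)
def c18500 : PP 9 3 T 0x4004000000000000000000000000000000000100000004000200000000000001000000000000000110000004100000054000040000020000001000000100 := rS 0xaf3386b668b449a4cb98 (k8 c18346 c18353 c18347 c18356 c18350 c17895 c18499 c1902 (k2 c1077 c3602 k0)) (by decide +kernel)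
def c18501 : PP 9 3 T 0x40000000000000002000220000000000000000100000004000200100000014000000000000400000150000040000000000000000000120000000000000100 := rS 0x74e105b7da44a6bbd08439038c46e0f3d834f3ef812350e8f48c4daa8541a2f3089 (k8 c18356 c18346 c18350 c18355 c18349 c1657 c5382 c5374 (k8 c5526 c5373 c5381 c18001 c18000 c5524 c5522 c5372 (k8 c5369 c5435 c5434 c5432 c5317 c5658 c15061 c1933 (k4 c1936 c9617 c4674 c2588 (k2 c3062 c18104 (k1 c563 k0)))))) (by decide +kernel)
def c18502 : PP 9 3 T 0x400000000012000220000000000000000000040004000200000000000000000000000000000000000000000000000000000000000000001000000000 := rS 0x152480f12da64423abd2f1d0e868b4401f85c1e0d00bc5962756aada2f37eb3fe7ef813fd0e8f80fb366b1469ccde9189d65929bf1825267d2b844e3b60204c7a89cc20d0a8b (k8 c18350 c18349 c18355 c18346 c18356 c5436 c5564 c18479 (k8 c18496 c5571 c719 c5313 c5566 c5444 c311 c17898 (k8 c5397 c5396 c18498 c5382 c5374 c5565 c5379 c5381 (k8 c5421 c17895 c5228 c5502 c5526 c5373 c5544 c18001 (k8 c18000 c17809 c5543 c5542 c5540 c5501 c11079 c5573 (k8 c5570 c5420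 c5811 c53 c5522 c5369 c5433 c5318 (k8 c17815 c18500 c716 c1995 c2159 c1073 c1077 c2350 (k4 c18501 c2936 c460 c18090 (k2 c5660 c2320 (k1 c18425 k0)))))))))) (by decide +kernel)
def c18503 : PP 9 3 T 0x4000000000000004000000000000000000000100000004000200000000000001000000000000000010000004100110000000040000000000000004050100 := rS 0x6a9d8fcd31a904861c198fc0e31f195c7a8b3ab14b25d (k8 c17796 c18352 c18348 c18354 c18350 c5436 c5313 c17898 (k8 c5434 c5432 c5318 c5316 c5649 c10701 c18499 c331 (k4 c15747 c12613 c3567 c2998 (k1 c10131 k0)))) (by decide +kernel)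
def c18504 : PP 9 3 T 0x44000000000000000000000000000000000000100040004000200000000080005000000000000000110000004100110054000040001000000000000050100 := rS 0x4a2211d5d1d3386b668b449a4cb98 (k8 c18346 c18353 c18347 c18356 c18350 c17895 c18503 c1902 (k4 c2161 c3602 c2350 c1078 (k2 c5660 c460 k0))) (by decide +kernel)
def c18505 : PP 9 3 T 0x400000000012000220000000000000000000040004000200000000000000000000000000000000000000000000000000000000000000000000000000 := rS 0x349c6d56bb1884af1d914400b2507c8e978e868b449120252ac950a4cae390385c62371e83cf60d3ca04267d7888d3ecb5aab422f3f9fbe04ff43a3e03ecd9ac51a71399bd2313aced80889cc20d0a8b (k8 c18350 c18349 c18355 c18346 c18356 c18479 c18496 c18498 (k8 c5382 c5374 c5565 c5379 c5571 c5381 c5421 c17895 (k8 c5228 c5502 c5526 c5373 c5544 c18001 c18000 c17809 (k8 c5540 c719 c5573 c5422 c5420 c5572 c9734 c5811 (k8 c5566 c5564 c5380 c5524 c5522 c5372 c5369 c5436 (k8 c5435 c5434 c5433 c5432 c5317 c5313 c5444 c5398 (k8 c5396 c5446 c311 c18502 c10629 c18504 c716 c2159 (k8 c1073 c2350 c6300 c5660 c718 c5650 c460 c340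 (k8 c1078 c5658 c3568 c1933 c2778 c2619 c3618 c2088 k0))))))))) (by decide +kernel)
def c18506 : PP 9 3 T 0x400000000095000000000000000000000000040000000000001000000000000400000000000000001100000000004000004000800000000100000220 := rS 0x37d429b4b17924b3 (k8 c5574 c311 c312 c17795 c10735 c1121 c13097 c10706 k0) (by decide +kernel)
def c18507 : PP 9 3 T 0x40004000000000000000020000000000000000000000000000200000000080000000500014000000000000000000000400000040000100000000000000100 := rS 0x6f35fc2342b8cc0e31439e7307542b14b25d (k8 c17796 c18352 c18348 c18349 c18354 c18346 c5524 c5373 (k8 c5434 c5432 c5316 c5313 c3567 c17952 c1764 c5691 (k1 c2517 k0))) (by decide +kernel)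
def c18508 : PP 9 3 T 0x400000000010000220000000000000000000040004000200000000000000000000000000000000000000000000000000040000000000000004000000 := rS 0x30e4cec5f4978c12e370918931c4e92d33151091592430f070ae330b8dc7a0d4084cfaf13189d6aad08bdda2f367fcfdf027fa1d1f01f66cd628d389ccde9189d676c04d8a14ba5944e61068b (k8 c18350 c18355 c18346 c18356 c18352 c17796 c18349 c18505 (k8 c18479 c18496 c18498 c5382 c5374 c5565 c5379 c5571 (k8 c5381 c5421 c17895 c5228 c5502 c5526 c5373 c5544 (k8 c18001 c18000 c17809 c5543 c5540 c5501 c5498 c719 (k8 c5573 c5422 c5570 c9754 c5811 c5566 c5564 c5380 (k8 c5522 c5436 c5435 c5433 c5316 c5313 c5649 c10900 (k8 c10701 c2061 c335 c58 c15434 c2317 c2590 c1082 (k8 c5658 c513 c6300 c6188 c2347 c18506 c17898 c18503 (k4 c1516 c18507 c5356 c725 (k1 c5663 k0)))))))))) (by decide +kernel)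
def c18509 : PP 9 3 T 0x400000000010000220000000000000000000040004000200000000000000000000000000000000000000000000000000040000000000001000000000 := rS 0x15e670d1cd1a6f38ac55bb645a24d265 (k8 c18353 c18347 c18356 c18350 c18496 c5573 c5421 c5571 (k4 c5565 c5381 c5379 c18508 (k2 c1902 c1077 (k1 c3602 k0)))) (by decide +kernel)
def c18510 : PP 9 3 T 0x400000000010000220000000000000000000040004000200000000000000000000000000000000000000000000000000080000000000000000000000 := rS 0x16c71d929c4e1213488ad5201fdbfe33035c12c82fa5d2b1d0d198ae3f0385c62371e834f281099f423f3f7c09fe8747c07d9b358a34e27337a462759db0136289cc20d0a8b (k8 c18350 c18349 c18355 c18346 c18356 c18505 c18479 c18496 (k8 c18498 c5382 c5374 c5565 c5379 c5571 c5381 c5421 (k8 c17895 c5228 c5502 c5526 c5373 c5544 c18001 c18000 (k8 c17809 c719 c5566 c5564 c5380 c5524 c5522 c5436 (k8 c5435 c5434 c5433 c5432 c5318 c5313 c715 c716 (k8 c2159 c1904 c1073 c17795 c5678 c312 c2189 c2064 (k8 c17898 c2517 c728 c12613 c1657 c459 c5689 c5658 (k4 c3062 c2088 c1936 c563 (k2 c9140 c2588 (k1 c15608 k0))))))))))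 (by decide +kernel)
def c18511 : PP 9 3 T 0x400000000010000220000000000000000000040004000200000000000000000000000000000000000000000000000000000000000000000000000000 := rS 0x169d0487c8ec82f9263a974a890345bd8d6605f37fc0557ecd9ad56271db05c628748a3ce68d899bc099841a2d0a89 (k8 c18356 c18349 c18350 c18355 c18346 c18479 c5565 c5382 (k8 c5381 c5379 c5526 c5374 c5373 c5434 c5433 c18496 (k8 c5571 c5421 c5422 c17895 c5228 c11079 c5502 c5544 (k8 c17809 c18001 c18498 c18505 c18510 c18508 c18509 c1904 (k8 c1073 c2161 c10629 c17795 c5678 c2350 c6300 c312 (k2 c1275 c718 (k1 c18041 k0))))))) (by decide +kernel)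
def c18512 : PP 9 3 T 0x400000000058000220000000000000000000000004000200000000000000000000000000000000000000000000000000000000000000000000000000 := rS 0xd6673fc88ab2547486112009995e3f026d92994fa77625e490219af22daa52a670ebf52ead2b8cc7207188dc1e7b43a441a6b3ca3d1b13099bcfa011480c083b05fb6948b2ca24ba653ab150b98 (k8 c18346 c18349 c18348 c18354 c18353 c17796 c18356 c18352 (k8 c18350 c18511 c18450 c5516 c5332 c18479 c54 c9694 (k8 c53 c5566 c5565 c5564 c5382 c5381 c5526 c5524 (k8 c5523 c5522 c5374 c5373 c5372 c5369 c5435 c5434 (k8 c5432 c5317 c5316 c5313 c5490 c5404 c5405 c5486 (k8 c5487 c5488 c5489 c715 c17728 c2500 c11199 c311 (k8 c312 c5444 c1694 c1522 c1520 c1117 c1119 c5679 (k8 c17754 c5711 c5813 c1753 c2859 c2862 c351 c17919 (k4 c15411 c12615 c2569 c18012 (k2 c459 c1770 k0)))))))))) (by decide +kernel)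
def c18513 : PP 9 3 T 0x40000000000000050000000000000000000000000000000000000000000000000000000000000000000000001000000000000000000000000000000020020 := rS 0x450e024 (k4 c720 c719 c16791 c3048 k0) (by decide +kernel)
def c18514 : PP 9 3 T 0x400000000050000220000000000000000000000004000200000000000000000000000000000000000000000000000000000000000000000000000000 := rS 0x21098b7e30df812c9fd8979240808fce00458efbb661707a1d227947a362613379f40959f6d291659449750a83 (k8 c18355 c18349 c17796 c18356 c18352 c18350 c18511 c18450 (k8 c12110 c18479 c5566 c5565 c5564 c5382 c5381 c5526 (k8 c5524 c5374 c5373 c5369 c5433 c18512 c5229 c5504 (k8 c5582 c18000 c5592 c18513 c16695 c311 c312 c5444 (k8 c1522 c17795 c5195 c1073 c17754 c716 c5813 c12615 (k1 c2863 k0)))))) (by decide +kernel)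
def c18515 : PP 9 3 T 0x400000000010000220000000000000000000000004000200000000000000000000000000000000000000000000000000000000000000000000000000 := rS 0x80aa6291c79114da432d871561b4b277625e49023661156ad56227599c76ded7a82dee3ba505c1f1148834d68f39a36261337bc4088b2ca24bb98 (k8 c18346 c17796 c18356 c18352 c18350 c18479 c5811 c5565 (k8 c5564 c5382 c5381 c5379 c5526 c5523 c5522 c5374 (k8 c5371 c5369 c5433 c18511 c5332 c5333 c5516 c5519 (k8 c18450 c18514 c5571 c5574 c5570 c5421 c5422 c5573 (k8 c719 c17895 c16695 c311 c312 c5444 c1694 c17795 (k8 c1073 c1284 c1638 c716 c10701 c10929 c335 c17728 (k4 c12615 c3604 c2447 c2139 (k1 c9222 k0)))))))) (by decide +kernel)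
def c18516 : PP 9 3 T 0x22000220000000000000000200040000000200000000000000000000000000000000000000000000000000000000000000000000000020 := rS 0x2584537e104a4c166d (k8 c5529 c717 c5444 c311 c17762 c5397 c5558 c5342 (k1 c16856 k0)) (by decide +kernel)
def c18517 : PP 9 3 T 0x1000400000000000000020000000000000000000040004000200000000000000000000000000000001000004000000000000040000000000000120000500 := rS 0x1db35a2f63b3d5e6352b8cc7207188dc1e7b43834f27562964ba85 (k8 c18349 c17796 c18352 c18348 c18354 c5524 c5522 c5373 (k8 c5372 c5369 c5435 c5434 c5432 c5317 c5316 c5313 (k8 c331 c333 c1998 c3567 c5657 c2131 c17683 c6899 (k1 c11199 k0)))) (by decide +kernel)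
def c18518 : PP 9 3 T 0x400000000002000220000000000000000000040004000200000000000000000000000000000000000000000000000000040000000000000000000000 := rS 0x37c94b4248e9e4cd0f11df8f74b99c341d2b8cc72070b8c46e0f3d834d67900bc5562154fb4166d4d82526d722b57e700f756409b739ecf689147a1e268d3ab14b25d42e610689 (k8 c18356 c18355 c18346 c18349 c17796 c18352 c18348 c18354 (k8 c5381 c5382 c5373 c5526 c5374 c18515 c18383 c5379 (k8 c17731 c18479 c18516 c5229 c18000 c5592 c5585 c5582 (k8 c5507 c5444 c311 c5397 c5529 c717 c18382 c5531 (k8 c5528 c5413 c5811 c53 c5524 c5523 c5522 c5372 (k8 c5369 c5435 c5434 c5433 c5432 c5317 c5316 c5313 (k8 c18517 c5649 c1902 c1073 c2103 c17838 c2791 c1075 (k8 c2505 c1076 c11199 c450 c6300 c5660 c2514 c18437 k0)))))))) (by decide +kernel)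
def c18519 : PP 9 3 T 0x20000220000000000000000100040004000200000000000040000000000100000000014414000000010000000000000000000008000020 := rS 0x1c2c60f34876cd1232d5af213bd493e36f92822b42b8e40e371e83cf60d359e4267d008a4062159f84120b36c0fdab16babdabf34b85c8f00f76dce7b348a3d0f1346a0d0a89 (k8 c18356 c18349 c18355 c5381 c5382 c5373 c5526 c5374 (k8 c18383 c5379 c17731 c5229 c18000 c2791 c5433 c1073 (k8 c5592 c5585 c5584 c5507 c5506 c18382 c10772 c5529 (k8 c717 c311 c17762 c5532 c5528 c54 c9694 c53 (k8 c5566 c5564 c5524 c5523 c5522 c5372 c5369 c5436 (k8 c5435 c5432 c5317 c5313 c17856 c719 c16854 c2514 (k8 c17898 c192 c2594 c353 c5657 c18389 c9148 c5651 (k4 c2500 c18437 c3618 c1094 (k2 c5837 c3063 (k1 c9140 k0)))))))))) (by decide +kernel)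
def c18520 : PP 9 3 T 0x22000220000000000000000000040000000200000000000000000000000000000000000000000000000000000000000000001000000020 := rS 0x12c22261480c43b739a6fc2094982cdb59 (k8 c18516 c5529 c717 c5444 c311 c17762 c5397 c5379 (k8 c17731 c5528 c54 c9694 c5651 c720 c353 c16856 k0)) (by decide +kernel)
def c18521 : PP 9 3 T 0x400000000002000220000000000000000000040004000200000000000000000000000000000000000000000000000000000000000000000000000000 := rS 0x19ad16fbc9a44a7aab59ecb24890e0474bbdc3a1a2d7ce00d557b5d63eeacf8412954db25429f498e42e8748a3d1b1300a75569954edce7edd982cdbb4022250a83 (k8 c18355 c18349 c18356 c18479 c18515 c5529 c717 c18383 (k8 c18382 c5379 c17731 c5531 c5530 c5413 c5412 c53 (k8 c5382 c5381 c5526 c5374 c5373 c5433 c5317 c5444 (k8 c5448 c5398 c5396 c5397 c5446 c311 c17762 c18516 (k8 c5229 c5506 c5507 c5584 c5585 c18000 c5592 c18518 (k8 c716 c1995 c2101 c1073 c2791 c18519 c18520 c10629 (k8 c1090 c6082 c2759 c1928 c5660 c3618 c5657 c2510 (k2 c2136 c2500 (k1 c8710 k0))))))))) (by decide +kernel)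
def c18522 : PP 9 3 T 0x400000000000000220000000000000000200040004000200000000000000000000000000000000000000000000000000040000000000000000000000 := rS 0x3f968f638bd5e6ae0e2c52c5e4932c11e256fbc889135a3426f10208552b3db9cfdbb3da6c51798 (k8 c18346 c18350 c18521 c18515 c18383 c18382 c5379 c17731 (k8 c5532 c5531 c5528 c18479 c5811 c5564 c5381 c5523 (k8 c5374 c17783 c5582 c2887 c5196 c18481 c5464 c311 (k8 c312 c17795 c1333 c1638 c5683 c333 c1998 c2988 (k4 c5657 c17856 c504 c2573 k0))))) (by decide +kernel)
def c18523 : PP 9 3 T 0x400000000000000220000000000000000200040004000200000000000000000000000000000000000000000000000000000000000000000000000000 := rS 0x3dead57ac5ee1a33168862543a3409b739fb767b4 (k8 c18515 c18383 c18382 c5379 c17731 c18479 c5381 c5373 (k8 c5559 c5561 c18522 c715 c716 c2101 c2179 c1077 (k2 c1908 c18434 (k1 c5683 k0)))) (by decide +kernel)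
def c18524 : PP 9 3 T 0x1000400000000021000020000000000000000000040004000200000000000000000000000000000000000004000000000000040000000000000000000020 := rS 0x3a67268bec87e25cce950d07412571c81c2e311ba1cd6017898c42a9d982cdb98 (k8 c18346 c5529 c717 c18383 c5531 c5528 c9754 c5811 (k8 c53 c5523 c5373 c5435 c5434 c5433 c5432 c5317 (k8 c5313 c311 c18517 c5649 c10191 c1902 c1073 c17838 (k4 c5678 c17795 c10429 c1181 (k2 c18085 c5856 k0))))) (by decide +kernel)
def c18525 : PP 9 3 T 0x8000400000000044000020000000000000000000000000000000000400000080000000000000000000000000100110004000040000000000000004040220 := rS 0x9fc642708458ece4f8d0bd1d22b551659449750b98 (k8 c18346 c18349 c17796 c18356 c18352 c18350 c5585 c5582 (k8 c5504 c312 c10902 c1522 c502 c2560 c17612 c1652 (k4 c12615 c17854 c2863 c5813 k0))) (by decide +kernel)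
def c18526 : PP 9 3 T 0x8000000000000000000000000000000000000000000000000000000000000000000000000000000000000000100000000000040000000000001020040020 := rS 0x218463a4545965125d (k8 c17796 c18356 c18352 c18350 c5582 c5504 c720 c2001 (k1 c12615 k0)) (by decide +kernel)
def c18527 : PP 9 3 T 0x400000000000000220000000000000000000040004000200000000000000000000000000000000000000000000000000040000000000000004000000 := rS 0xee35679c16a2712784124b66bd9eaf30e15c660718a1d226b47a051b13099bcfaf11480c42a959fb4166d02477dd59db9cf67b43ab14b25d (k8 c17796 c18352 c18348 c18354 c18515 c18383 c5379 c17731 (k8 c18523 c5229 c5504 c18479 c5529 c717 c18382 c5532 (k8 c5531 c5528 c54 c9694 c5811 c5566 c5565 c5564 (k8 c5382 c5381 c5380 c5526 c5523 c5374 c5373 c5434 (k8 c5432 c5316 c5313 c5649 c333 c1998 c5657 c17683 (k8 c564 c18525 c17762 c18526 c60 c1095 c18007 c10436 (k2 c502 c10798 (k1 c3567 k0)))))))) (by decide +kernel)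
def c18528 : PP 9 3 T 0x400000000000000220000000000000000000040004000200000000000000000000000000000000000000000000000000040000000000000000000000 := rS 0x3a04b39345f643f12e674a868ae390385c6237439ac02f131ecc166dda0136398 (k8 c18346 c18521 c18479 c18515 c5529 c717 c18383 c9754 (k8 c5811 c53 c5523 c5373 c5435 c5434 c5433 c5432 (k8 c5317 c5313 c18527 c1904 c1902 c1073 c17838 c5678 (k4 c17795 c10429 c1181 c312 (k2 c18085 c5856 k0))))) (by decide +kernel)
def c18529 : PP 9 3 T 0x400000000000000220000000000000000000040004000200000000000000000000000000000000000000000000000000000000000000000000000000 := rS 0x1084af4242b5e64b4f8e812d12fb208e974abdc345af9c03dd59d895c72070b8c46e8748a3d1b13318a4069d55edce7edd982cdbb4022250a83 (k8 c18355 c18349 c18356 c18479 c18515 c5529 c717 c18383 (k8 c18382 c5379 c17731 c5413 c5412 c54 c9694 c9754 (k8 c5382 c5381 c5526 c5374 c5373 c5435 c5434 c5433 (k8 c5432 c5317 c5313 c18521 c18523 c5229 c18000 c5592 (k8 c18528 c716 c2101 c1904 c1073 c2791 c5678 c17795 (k8 c2133 c312 c18085 c17448 c14196 c449 c2068 c5660 (k4 c5657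 c10629 c1927 c5252 k0))))))) (by decide +kernel)
def c18530 : PP 9 3 T 0x1000400000000005000020000000000000000000080004000200000000000000000000000000000000000000000000000000040000000000000100000420 := rS 0x25cbc1a040759af22b8cc72070b8c46e0f3da1c1a79788eceac52c9750b98 (k8 c18346 c18349 c17796 c18352 c18348 c18354 c5332 c5811 (k8 c5524 c5522 c5373 c5372 c5369 c5435 c5434 c5433 (k8 c5432 c5317 c5316 c5313 c17728 c2500 c333 c11199 (k4 c5649 c312 c1073 c17795 k0)))) (by decide +kernel)
def c18531 : PP 9 3 T 0x400000000000000220000000000000000000000004000200000000000000000000000000000000000000000000000000000000000000000000000000 := rS 0x92fa5c345ad88ee940bd9fb4da21da15c72070b8dcc604 (k8 c18479 c9754 c5435 c5433 c5432 c5317 c5313 c18515 (k8 c5528 c5529 c18382 c18383 c717 c18529 c5332 c9578 (k4 c18530 c716 c1073 c17795 (k2 c312 c18085 k0)))) (by decide +kernel)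
def c18532 : PP 9 3 T 0x10000020000000000000000000040000000000000000000004000000000000000000000000000000000000040000000000000054000020 := rS 0x3dd0e0d11a14ba59 (k8 c18352 c17796 c18349 c9734 c5522 c5373 c8123 c10900 k0) (by decide +kernel)
def c18533 : PP 9 3 T 0x8000200000000000000000000000008000000000000000000000000008000000000000000000000000000000000000000000000000020 := rS 0x3809e38111480c37590ea2cb25d (k8 c17796 c18352 c18350 c5486 c17561 c5475 c54 c9694 (k4 c17612 c12681 c351 c18393 (k1 c10436 k0))) (by decide +kernel)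
def c18534 : PP 9 3 T 0x19000020000000000000000000040000000000000000000000000000004000000004001100000000000000000000000000000000000220 := rS 0x3c0d02f1b2226b54bf4ce8732a14d283 (k8 c18355 c18347 c18349 c18353 c5373 c5487 c5405 c5489 (k4 c5523 c5371 c3601 c312 (k2 c15258 c10734 (k1 c5459 k0)))) (by decide +kernel)
def c18535 : PP 9 3 T 0x18000220000000000000000000000008000200000000000000000000000000000000000000000000000000000000000000000000000020 := rS 0x49b24bc613b02532cf55a743db1338742e3731bcc374bc98d466570396c62653ab14b25d (k8 c17796 c18352 c18348 c18354 c18353 c5434 c5474 c5432 (k8 c5313 c5316 c5324 c10897 c18477 c5475 c5325 c9754 (k8 c5435 c5433 c5486 c5487 c17756 c18532 c1082 c1084 (k8 c18533 c2317 c18534 c10693 c724 c11141 c10171 c1516 (k1 c17910 k0))))) (by decide +kernel)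
def c18536 : PP 9 3 T 0x1000000000000014000000000000000000000000000000000000000000008000000000000000000000000000000000000000000000000000000004000820 := rS 0x1faab549b03c85 (k4 c18349 c718 c717 c4597 (k2 c1084 c2552 (k1 c5682 k0))) (by decide +kernel)
def c18537 : PP 9 3 T 0x80000400000000010000220000000000000000000000000000200000000000000000000000000000000000000000000000000000000000000000000000000 := rS 0x74cd7b02dfded80c0c72311b83cf691069e51e8d89bccb61b7ab44ec09d98106a571981e74873ab14b25d42a0f308b (k8 c18350 c18346 c18355 c18349 c17796 c18352 c18348 c18354 (k8 c5373 c18531 c5432 c5316 c5313 c5324 c18479 c18535 (k8 c10902 c10693 c2131 c5477 c5475 c5474 c5325 c5382 (k8 c5381 c5526 c5524 c5522 c5374 c5372 c5369 c5435 (k8 c5434 c5317 c5550 c5592 c17809 c18001 c18536 c3571 (k2 c2071 c11199 (k1 c6899 k0))))))) (by decide +kernel)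
def c18538 : PP 9 3 T 0x400000000010000220000000000000000000000000000200000000000000000000000000000000000000000000000000000000000000000000000000 := rS 0x413fb53c71c089c76df36b9d813b32b8cc7e071ea051a133e8106b59a5ce916592e9d58b98 (k8 c18346 c18348 c18354 c17796 c18352 c18350 c18531 c18477 (k8 c17561 c5324 c18479 c5566 c5564 c5381 c5380 c5436 (k8 c5432 c5318 c5316 c5313 c18535 c10902 c10693 c2187 (k8 c18537 c5231 c5571 c719 c12681 c17898 c5778 c2998 (k2 c1656 c12613 k0))))) (by decide +kernel)
def c18539 : PP 9 3 T 0x400000000000000220000000000000000000000000000200000000000000000000000000000000000000000000000000000000000000000000000000 := rS 0x19c3af0b34120b7b6cfda6dda16c6b3a0215c6639038c46e0f3da1c1a793ab14b25d42e60ca83 (k8 c18355 c18353 c18346 c18349 c17796 c18352 c18348 c18354 (k8 c5524 c5522 c5373 c5372 c5369 c5435 c5434 c5432 (k8 c5317 c5316 c5313 c18479 c18531 c5324 c5474 c18538 (k8 c5529 c18382 c18383 c12456 c717 c10902 c2071 c17762 (k2 c11199 c10803 (k1 c1646 k0)))))) (by decide +kernel)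
def c18540 : PP 9 3 T 0x40000000000000050000120000000000000000000000000000000000400014000000000000000001001000000100000006000000000000000000000000000 := rS 0x22ab338408e68748a3f3083 (k8 c18355 c18346 c5526 c5374 c5373 c933 c18001 c5666 (k2 c2460 c3048 (k1 c5685 k0))) (by decide +kernel)
def c18541 : PP 9 3 T 0x4200000000000001a000120000000000000000200040000000200000000000000000000000000000000000000100100000000400000000000000004000010 := rS 0x115119c9be71891bc4c7688bc52e9549a7d42c94c8976e3f0c85e02ff5a87cd8a9339ac524b349958a75 (k8 c18354 c18348 c18353 c18347 c5342 c8199 c5523 c5487 (k8 c5489 c17916 c2316 c11945 c5544 c5502 c5433 c5315 (k8 c5318 c17858 c5559 c5447 c5396 c5398 c5448 c5444 (k8 c5488 c5404 c5401 c5371 c18020 c14478 c2814 c18540 (k4 c756 c2513 c5666 c12251 (k2 c1290 c18362 k0)))))) (by decide +kernel)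
def c18542 : PP 9 3 T 0x4200040000000001a000020000000000000000200040000000200000000000000000000000000000000000000100000000000000000000000000004000210 := rS 0x224703789bc47f3e84804012f0f7269f509844bb71fb5d92310cc75261778a0483017fad43e6c5499cd629d092cd265 (k8 c18353 c18347 c5342 c18539 c8199 c5523 c5487 c5489 (k8 c17916 c2316 c11945 c5544 c5502 c5340 c1744 c5401 (k8 c5433 c5444 c5341 c5315 c5434 c5396 c14269 c5318 (k8 c17858 c5559 c5445 c5398 c5448 c5438 c5436 c18541 (k8 c1054 c5642 c14481 c17814 c2917 c5670 c18416 c17836 (k2 c268 c18540 (k1 c756 k0))))))) (by decide +kernel)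
def c18543 : PP 9 3 T 0x200040000000001a000020000000000000000200040000000200000000000000000000000000000000000000100000000000000000000000000004000210 := rS 0x20713f921d228f80bff3083 (k8 c18355 c18346 c5544 c5502 c5526 c5374 c5373 c18542 (k2 c5547 c5550 (k1 c18001 k0))) (by decide +kernel)
def c18544 : PP 9 3 T 0x42000100000000000000000000000000000200000000000000000000000000000000000000000100050000000000010000001000000010 := rS 0x9d966e0c8fc2e3d14a4d3ea1 (k8 c5398 c5448 c5444 c8199 c5436 c5433 c5318 c5315 (k4 c5666 c8797 c2814 c3579 k0)) (by decide +kernel)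
def c18545 : PP 9 3 T 0x200040000000001a000020000000000000000200040000000200000000000000000000000000000000000000000000000000000000000000000004000210 := rS 0x7c8471589000e4df38b4fde8c5a87cd8ff889accea94fa644a4bdb8fc53a16bb2462198ea4c2ef140904ca69 (k8 c18347 c18353 c5340 c1744 c5401 c5433 c5444 c5341 (k8 c5315 c5434 c5396 c14269 c18539 c8199 c5318 c17858 (k8 c5342 c5559 c5447 c5448 c5489 c5487 c5523 c5371 (k8 c5544 c17916 c2316 c11945 c18543 c5505 c2084 c753 (k8 c12713 c18544 c9719 c933 c1290 c9731 c18362 c5547 k0))))) (by decide +kernel)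
def c18546 : PP 9 3 T 0x40000000001a000020000000000000000200040004000200000000000000000000000000000000000000000000000000000000000000000004000210 := rS 0xecf666b19fcf5f0b8607f389c05644879ad7c42646c54de7f1107cfa7009008e601f6a05afb72392e3a412189432331f85c623d43a44d68f14e855aaf7899d539349a7d42c94da14cb9841a251669 (k8 c18347 c18350 c18356 c18355 c18346 c18353 c18349 c5397 (k8 c5396 c5398 c5448 c5444 c5438 c5489 c5487 c5401 (k8 c5406 c5490 c18539 c8199 c5526 c5523 c5374 c5373 (k8 c5436 c5434 c5433 c5318 c5316 c5315 c5559 c5561 (k8 c5340 c5341 c5342 c5562 c17858 c14269 c1744 c18545 (k8 c18376 c9719 c5642 c14481 c18544 c17814 c1111 c6197 (k8 c2917 c65 c3048 c753 c2868 c5670 c11945 c447 (k8 c485 c486 c15060 c756 c5588 c2460 c2898 c13945 (k4 c14493 c18001 c17854 c17753 (k2 c5657 c14218 (k1 c14679 k0))))))))))) (by decide +kernel)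
def c18547 : PP 9 3 T 0x200040000000000a000020000000000000000100040004000200000400000000000000000000000000000000100000000000000000000000001000000000 := rS 0x34c904323c749611198fc1afd54b25362755b459ff3599b8ce7356ac4e3b6d0abfdf0243a3e02917fa0f308544994d28b (k8 c18350 c18347 c18353 c18356 c18349 c18346 c18355 c5544 (k8 c5374 c5502 c5526 c5373 c18001 c18000 c5406 c18539 (k8 c5212 c5571 c5421 c5490 c5419 c5487 c3602 c5574 (k8 c17760 c5543 c5501 c5500 c5570 c5397 c5396 c5489 (k8 c5405 c5522 c5318 c5316 c2745 c12638 c13277 c13598 (k4 c1936 c5660 c15747 c18425 k0)))))) (by decide +kernel)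
def c18548 : PP 9 3 T 0x4000000000000008000100040000000000000100000000000000000000080000000000000100000000014000100001800000000000101020000000000000 := rS 0x3ef8c80436a34dc6814ba54fe6e339cd5ab138ed95ed745994d289 (k8 c18356 c18347 c18353 c18350 c1764 c5406 c5212 c5571 (k8 c5421 c5490 c5419 c5487 c3602 c2919 c5488 c5404 (k8 c938 c17330 c2088 c18016 c2778 c5281 c5462 c12625 (k1 c14264 k0)))) (by decide +kernel)
def c18549 : PP 9 3 T 0x200040000000000a000020040000000000000100040004000200000400000000000000000000000000000000100000000000000000000020000000000000 := rS 0x84d420f8802812f1dc8a24817bc2e3d43a44f28f4ba55269f64b2e02ff3f9b8ce7356ac4e3b6d0abd426932b14eb9841a250a8b (k8 c18350 c18349 c18356 c18355 c18346 c18354 c18348 c18353 (k8 c18347 c5398 c5406 c18539 c5212 c5571 c5421 c5490 (k8 c5419 c5487 c3602 c2919 c5544 c5502 c5420 c5396 (k8 c5448 c5444 c5488 c5404 c5526 c5524 c5374 c5373 (k8 c5436 c5433 c18000 c18001 c18547 c2968 c18548 c18020 (k4 c1746 c1054 c17970 c5462 (k2 c6616 c5281 (k1 c2778 k0)))))))) (by decide +kernel)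
def c18550 : PP 9 3 T 0xa000100040000000000000100000000000200000000000000000000000000000000000000100000000000000000000000001000000000 := rS 0x5f3ba00fa12f190022190b8f452974aa4d3ea16589cdc6739ab56271db2bcd265629d51689 (k8 c18356 c18350 c18354 c18348 c18353 c18347 c5406 c5212 (k8 c5571 c5421 c5490 c5419 c5487 c3602 c5570 c5420 (k8 c5398 c5448 c5444 c5488 c5404 c8199 c5436 c5433 (k8 c5315 c2745 c17815 c17994 c12617 c12625 c298 c14264 (k2 c1746 c18020 k0))))) (by decide +kernel)
def c18551 : PP 9 3 T 0x200040000000001a000020040000000000000100040004000200000000000000000000000000000000000000100000000000000000000020000040000000 := rS 0x40064a248908f12068a55aaf339c4e7f358acf6da145964ca69 (k8 c18347 c18353 c18352 c18350 c18539 c5212 c5574 c5421 (k8 c17760 c5419 c5571 c5487 c5406 c5490 c8199 c5522 (k8 c18549 c12623 c18550 c10629 c5660 c13731 c12638 c14568 k0))) (by decide +kernel)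
def c18552 : PP 9 3 T 0x200040000000001a000020040000000000000100040004000200000000000000000000000000000000000000000000000000040000000020000000000010 := rS 0x487191c96d30890fde8c0ffccd8331f85c6e0d35a3c529733a55529f59b2c4eb1db684ca69 (k8 c18347 c18353 c18539 c5212 c5421 c5570 c5420 c5574 (k8 c5448 c5489 c5488 c5487 c5404 c8199 c5526 c5523 (k8 c5522 c5435 c5433 c5318 c5316 c17916 c17760 c2316 (k8 c18551 c5505 c12616 c701 c15747 c12638 c13598 c17893 (k2 c5660 c18013 k0))))) (by decide +kernel)
def c18553 : PP 9 3 T 0x100000000000000a000120040000000000000100040004000200000000000000000000000000000000000000100000000000000000000000000800000001 := rS 0x1a9eef1785bff340b8e26e18a0408c493f890dc071bab55e67649c4e6b13e89c7e174fa4d42cbdb0f4962945a24d265 (k8 c18353 c18347 c18356 c18350 c8199 c560 c5436 c5212 (k8 c5420 c5398 c5444 c5448 c5433 c5318 c5570 c12650 (k8 c5421 c5419 c5571 c5396 c5487 c5406 c5490 c5435 (k8 c5432 c3602 c18550 c2919 c10629 c1263 c12632 c1262 (k8 c6188 c12623 c2347 c699 c5590 c2950 c13945 c5691 (k2 c5171 c6616 (k1 c5585 k0)))))))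 (by decide +kernel)
def c18554 : PP 9 3 T 0x40000000001a000020000000000000000000040004000200000000000000000000000000000000000000000000000000040000000000000004000210 := rS 0x2f9dd007ff1849a61121fbd18220f9f40401f689d97b6ac8d1429f49864663f0b8f4d7a14b99d2b93349958a75 (k8 c18354 c18348 c18353 c18347 c5438 c5488 c5487 c5404 (k8 c18539 c5523 c5436 c5433 c5318 c5316 c5315 c5444 (k8 c5448 c5398 c17756 c18546 c5212 c5420 c5570 c18552 (k8 c18376 c5642 c12650 c1111 c6197 c18553 c5505 c12616 (k8 c701 c15747 c12617 c17997 c2917 c5670 c939 c1746 (k1 c18020 k0)))))) (by decide +kernel)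
def c18555 : PP 9 3 T 0x2008000000000058000120000000000000000200040004000200000400000000000000000000000000000000100000000000000000000000000004000210 := rS 0x662618e923b980446e017cc0302398642e7b43a44f28f0e845a30167bfd36b50f9b15267358a4979842a0cd265 (k8 c18353 c18347 c18355 c18349 c18346 c5342 c8199 c5523 (k8 c5487 c5489 c17916 c2316 c11945 c7393 c5544 c5543 (k8 c5502 c5501 c5558 c5486 c5526 c5524 c5374 c5373 (k8 c5372 c5433 c5315 c933 c18001 c17749 c5550 c5642 (k8 c18540 c6197 c17836 c10409 c1573 c727 c482 c18017 (k1 c2440 k0)))))) (by decide +kernel)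
def c18556 : PP 9 3 T 0x40000000000000051000000040000000000000200040000000200000100000000000440000000001000000000000000080000000000000000000000000000 := rS 0x9c3108e2a00 (k4 c9719 c1290 c9731 c16365 (k2 c18366 c1274 k0)) (by decide +kernel)
def c18557 : PP 9 3 T 0x2000000000000059000120000000000000000200040004000200000000000000000000000000000000000000100000000000000000000000000004000210 := rS 0xcc4c31d247711180046e009cce3f38937dc7e20c85e227b439e43b9308b459e9b5a87cd8a9339ac524bcc214d265 (k8 c18353 c18347 c18349 c18346 c5342 c8199 c5523 c5487 (k8 c5489 c17916 c2316 c11945 c7393 c5543 c5501 c5558 (k8 c5438 c5486 c5524 c5373 c5372 c5371 c5433 c5315 (k8 c5236 c5466 c5580 c18555 c5547 c756 c18556 c17749 (k8 c5666 c5642 c17836 c6197 c10409 c1573 c727 c482 (k2 c18017 c2440 k0)))))) (by decide +kernel)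
def c18558 : PP 9 3 T 0x400000000008000100000000000000000200000000000200000000000000000000040400000000004004000000000000000000000000004004000209 := rS 0xd76a8d141e330864663f0b8c47a2957e4c4a1120fbde265 (k8 c18353 c5401 c17816 c5340 c5558 c5559 c5438 c5406 (k8 c8199 c5436 c5434 c5433 c5318 c5316 c5315 c1573 (k4 c17997 c3579 c14092 c3000 (k2 c1763 c5689 k0)))) (by decide +kernel)
def c18559 : PP 9 3 T 0x2000400000000019000020000000000000000200040004000200000000000000000000000000000000000000100000000000000000000000000004000210 := rS 0x66b1cee983017d24223180802d337111627313b2d3e71db26c3e6c67b447e7b439acf3a156abde26754897308545a24d265 (k8 c18353 c18347 c18356 c18350 c18349 c18346 c5559 c5489 (k8 c5487 c5401 c5406 c5490 c18539 c5524 c5523 c5373 (k8 c5372 c5318 c5501 c5543 c17916 c2316 c7393 c18557 (k8 c5571 c5572 c5420 c5570 c5419 c5421 c17812 c3602 (k8 c2936 c1060 c5642 c9752 c6197 c18558 c1517 c262 (k4 c482 c11141 c727 c2440 (k1 c18017 k0))))))) (by decide +kernel)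
def c18560 : PP 9 3 T 0x40000000000000059000020040000000000000200040000000200000000000000000440000000000000000000000000080000000000000000000004000000 := rS 0x40b4004449685 (k4 c18349 c5342 c5371 c9719 (k2 c18556 c13932 (k1 c2608 k0))) (by decide +kernel)
def c18561 : PP 9 3 T 0x41008400000000058000020000000000000000200040000000200000000000000000000000000000000000000100000050000000000000000000004000210 := rS 0x66f859ed14c0ea050179a4bde44113fc3e6013c50dc190ba1d1eaf78aa5aee30100423a145a0d1265 (k8 c18353 c18356 c18355 c18350 c18539 c5558 c17749 c5642 (k8 c5466 c5465 c5489 c5401 c5406 c5526 c5373 c5433 (k8 c5315 c5666 c17872 c2814 c17836 c15434 c3010 c6197 (k8 c14312 c17816 c1573 c447 c3067 c18077 c481 c482 (k4 c2201 c2633 c5456 c2440 (k1 c5688 k0)))))) (by decide +kernel)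
def c18562 : PP 9 3 T 0x1000400000000019000000040000000000000000000000000200000000000084000000001000000000000400000001000001000000000000000004000008 := rS 0x1e14c8e9a25e1a0cc2e3178a5cc665 (k8 c18353 c9752 c5404 c5401 c5434 c5433 c5316 c14092 (k4 c5663 c1705 c501 c1520 (k2 c5456 c11160 k0))) (by decide +kernel)
def c18563 : PP 9 3 T 0x40000400000000059000020000000000000000200040004000200000400000000000000000000000000000000100000000000000000000000000004000210 := rS 0xfac730335ecb27abcd6a9b8a9bc441f319c00401399ed0e91359e51e2956abde26754844864b23a0483ed719fdbfe2c9e850685449951669 (k8 c18347 c18350 c18353 c18356 c18349 c18355 c18539 c5438 (k8 c5236 c5580 c5577 c5466 c18559 c5340 c1744 c5562 (k8 c5342 c5561 c5558 c5489 c5487 c5401 c5406 c5490 (k8 c8199 c5526 c5524 c5523 c5374 c5373 c5372 c18560 (k8 c17749 c5642 c18561 c9752 c1111 c6197 c65 c3048 (k8 c7393 c11945 c447 c14493 c5685 c5657 c17683 c18562 (k2 c727 c1580 (k1 c15962 k0)))))))) (by decide +kernel)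
def c18564 : PP 9 3 T 0x1000000000000058000100000000000000000200040004000000000000000010000000000000000000000000100000040400040001000000000000000010 := rS 0xe01222bd84ef31107c040178844cb98 (k8 c18346 c18353 c5558 c5401 c17749 c5642 c1111 c6197 (k4 c447 c485 c5657 c503 (k2 c17783 c14312 (k1 c2868 k0)))) (by decide +kernel)
def c18565 : PP 9 3 T 0x59000120040000000000000000040000000200000000000000000000000000000000000000000000000000000000000000001004000002 := rS 0x13a20314441a85 (k4 c18349 c5522 c5371 c16365 (k2 c13932 c1274 (k1 c14138 k0))) (by decide +kernel)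
def c18566 : PP 9 3 T 0x40000400000000059000020000000000000000200040004000200000000000000000000000000000000000000100000000000000000000000000004000210 := rS 0x1c225edf11cd6a1f010044b93358a7424b (k8 c5342 c18539 c8199 c5523 c5438 c5559 c18565 c5642 (k8 c1111 c11945 c9719 c5236 c18559 c18563 c18561 c756 k0)) (by decide +kernel)
def c18567 : PP 9 3 T 0x400000000058000020000000000000000200040004000200000000000000000000000000000000000000100000000000040000000000000004000210 := rS 0xf47f404930389fc8e60143a44d68fd0e4c4a47f6ec73083 (k8 c18355 c18346 c18554 c18559 c5562 c5559 c5438 c18539 (k8 c5526 c5523 c5374 c5373 c18565 c9719 c18566 c5547 (k4 c5550 c5588 c5592 c18001 (k2 c18564 c2341 k0)))) (by decide +kernel)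
def c18568 : PP 9 3 T 0x400000000018000020000000000000000200040004000200000000000000000000000000000000000000100000000000040000000000000004000210 := rS 0x3fe0712f9f89c2cd6fb8fc27d639fe02981d180bef34da48441f01005a66ef7911627313b2d3eb338edbda3f3da44d67947e855aaf7899d5393d8895024145a24d265 (k8 c18353 c18347 c18356 c18350 c5340 c1744 c5559 c18554 (k8 c5438 c5489 c5487 c5401 c5406 c5490 c18539 c5526 (k8 c5524 c5523 c5374 c5372 c5318 c18559 c18567 c5571 (k8 c5574 c5572 c5420 c5570 c5419 c5421 c17812 c17816 (k8 c3602 c2936 c1060 c5642 c1111 c6197 c18558 c7393 (k8 c447 c1517 c262 c481 c482 c3067 c2920 c727 (k8 c1579 c5456 c1773 c2442 c2440 c1597 c5670 c17861 (k4 c3610 c7311 c2571 c5694 k0)))))))) (by decide +kernel)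
def c18569 : PP 9 3 T 0x59000120000000000000000200040004000200000000000000000000000000000000000000000000010000000000000000000004000210 := rS 0x115f9bf890f667335a2981d31d24774d98088220f9b8047300f8832173da1cd67957bc43a9554e4c4ac542a0cea65 (k8 c18353 c18354 c18355 c18349 c18348 c5559 c5438 c5489 (k8 c5488 c5486 c5401 c5406 c5524 c5523 c5373 c5372 (k8 c5433 c5315 c5236 c18565 c9719 c5642 c5666 c1111 (k8 c6197 c14312 c17836 c7393 c10409 c1573 c727 c481 (k8 c482 c1595 c2440 c3607 c1647 c503 c504 c5588 (k2 c3010 c17872 k0)))))) (by decide +kernel)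
def c18570 : PP 9 3 T 0x19000020040000000000000000040000000200000400000000000000000000000400004000000000002000000004410000004044000002 := rS 0x1c6e16f9258c9d1d880c40a11c453685 (k8 c18349 c7393 c5371 c9731 c665 c16365 c13932 c17340 (k4 c1274 c779 c344 c13097 (k2 c13096 c2619 (k1 c17934 k0)))) (by decide +kernel)
def c18571 : PP 9 3 T 0x2000400000000019000020000000000000000200040000000200000000000000000000040400000000004000000000000000000000000000004004000211 := rS 0x19ac73ba60c05f49088c6023da1cf3a168b3d361f362a4ce6bcc214d265 (k8 c18353 c18347 c18349 c18346 c5523 c5487 c5489 c17916 (k8 c2316 c7393 c5543 c5501 c18539 c5524 c5373 c5372 (k8 c5642 c9752 c6197 c18558 c1517 c262 c482 c11141 (k2 c727 c2440 (k1 c18017 k0))))) (by decide +kernel)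
def c18572 : PP 9 3 T 0x2000400000000019000020000000000000000200040000000200000000000000000000000400000400004000200000000000000000000000004004000210 := rS 0xfcd7710d1c2df24bd58c9d1dc4840620508c009b0f9b19ef368bdc723f188dc7b113599d53932591da68120a14ca69 (k8 c18347 c18353 c18349 c5340 c1744 c2084 c5562 c5342 (k8 c5438 c5489 c5487 c5523 c5371 c5436 c5435 c5434 (k8 c5318 c5317 c5498 c5501 c5540 c5543 c17916 c2316 (k8 c7393 c18571 c9731 c665 c16365 c13932 c18570 c17340 (k8 c1274 c779 c2420 c344 c2513 c13096 c14101 c3590 (k2 c1763 c2620 (k1 c808 k0))))))) (by decide +kernel)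
def c18573 : PP 9 3 T 0x4000000000000019000020040000000000000000040000000200000400010000000000000000001500004000000000050000000004410000005004000012 := rS 0xfe8a7cd546d0f9bc471143a44d68f57bf4cea9419a4ca85 (k8 c18349 c18353 c18347 c18355 c5489 c5487 c5405 c5406 (k8 c5526 c5523 c5374 c5373 c5371 c9731 c1060 c13749 (k4 c18570 c3601 c17922 c3604 (k2 c6368 c3010 k0)))) (by decide +kernel)
def c18574 : PP 9 3 T 0x400000000019000020000000000000000200040000000200000400000000000000000400001500004000200000040000000000000000004004000210 := rS 0xe16fb8fc27d639fd303a3026d24220f808027b359e51fa1c98949647f79c4cf0143b4d0241 (k8 c5340 c1744 c2084 c5373 c2141 c5487 c753 c5505 (k8 c5562 c5342 c5559 c5438 c18539 c5526 c5524 c5523 (k8 c5372 c18573 c5642 c1111 c6197 c18558 c7393 c262 (k8 c481 c482 c3853 c727 c1579 c5456 c1773 c2442 (k2 c1597 c5910 k0))))) (by decide +kernel)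
def c18575 : PP 9 3 T 0x400000000018000020000000000000000200040004000200000000000000000000000000000000000000000000000000040000000000000004000210 := rS 0x66b1cee983017d242231b3da2024dbd0021f799b204ab7bbffe712f69116ab13989d969f59ed9a70138fbd1881259046237889ed0e6b3ce85e2fd33aa7639842a0cd265 (k8 c18353 c18347 c18355 c18349 c18346 c18554 c5489 c5487 (k8 c5405 c5401 c18539 c5524 c5523 c5373 c5372 c5371 (k8 c5435 c5434 c5340 c5342 c1744 c18568 c5505 c753 (k8 c2141 c2084 c18569 c5574 c5572 c5420 c5570 c5419 (k8 c5421 c5422 c17812 c18572 c18574 c5547 c2570 c504 (k8 c6368 c5694 c3601 c2627 c2316 c17966 c5657 c7393 (k8 c5642 c1925 c2339 c9752 c6197 c18558 c1517 c262 (k4 c482 c11141 c727 c2440 (k1 c18017 k0))))))))) (by decide +kernel)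
def c18576 : PP 9 3 T 0x40000000000000008000020000000000000000100040000000000000400080000000000000000000000000000000000008000000000000000000004000002 := rS 0x12c8e49090804885 (k8 c18349 c1060 c13932 c1061 c10629 c4634 c302 c5660 k0) (by decide +kernel)
def c18577 : PP 9 3 T 0x1000100000000000000000100000000000200000000000000000000000000000000000004000000008004000000000000001000000201 := rS 0x1025e30e4d97b6 (k4 c5212 c5420 c5438 c1573 (k2 c5663 c1746 (k1 c18044 k0))) (by decide +kernel)
def c18578 : PP 9 3 T 0x9000020000000000000000000000000000000000000000000000000014000000000000408000000000000000000000000000800000018 := rS 0x19ac73ba60c05f3da1cf2675498f3085 (k8 c18349 c18346 c9752 c5489 c5487 c5524 c5373 c5372 (k4 c1517 c262 c482 c11141 (k2 c727 c2440 (k1 c18017 k0)))) (by decide +kernel)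
def c18579 : PP 9 3 T 0x2000000000000019000120000000000000000100040000000200000400000000000000000000000000000000100000000000000000000000000004000210 := rS 0x78dbfe171901aee14c9188a492f324682430a4c864b1118c0401f7c086617188dc7a87489e51e2978a5dfa95c99b8e6ad38abd56d180b3dfff358acf6c9b0f9b1526735995128541e60d28b (k8 c18350 c18347 c18346 c18355 c18349 c18356 c18353 c5523 (k8 c5487 c5489 c17916 c2316 c7393 c5212 c5574 c5421 (k8 c17760 c5544 c5543 c5502 c5501 c5500 c5406 c5571 (k8 c5490 c5419 c3602 c5438 c5488 c5405 c5404 c5401 (k8 c8199 c5526 c5524 c5374 c5373 c5436 c5435 c5434 (k8 c5433 c5316 c18001 c18000 c18576 c5642 c9752 c6197 (k8 c560 c1936 c18578 c1573 c18577 c14092 c10171 c5663 (k8 c10629 c2968 c1263 c1520 c6188 c1764 c5281 c2347 (k4 c18012 c2517 c5462 c5691 k0))))))))) (by decide +kernel)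
def c18580 : PP 9 3 T 0x40000000000000000000000000000000000000100040000000000000000000000000000000000000000000000000000008000000000400000000000001002 := rS 0x259242424 (k4 c1060 c1061 c10629 c301 (k1 c5660 k0)) (by decide +kernel)
def c18581 : PP 9 3 T 0x2000000000000019000120000000000000000100040000000200000000000000000000000000000000000000100000000000000000000000000004000210 := rS 0x4a931118c040123c49361ff99b19ed1069ad52b33719ce6ad589c76caf329a5128b (k8 c18350 c18356 c18347 c18353 c5406 c5212 c5571 c5421 (k8 c5490 c5419 c5487 c3602 c5574 c5489 c5523 c5522 (k8 c5501 c5543 c17916 c17760 c2316 c7393 c18579 c12623 (k4 c18580 c5642 c9752 c6197 (k2 c18578 c1263 (k1 c18577 k0)))))) (by decide +kernel)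
def c18582 : PP 9 3 T 0x19000120040000000000000100040000000200000400000000000000000000000000000000000000008000000000000000000004000002 := rS 0x1c6411db7dc24b23a6d029d249fc242031090be390b8f62279599cf6c85 (k8 c18349 c5212 c5419 c5574 c5524 c5371 c5436 c5433 (k8 c5317 c1054 c1060 c16365 c13932 c1061 c2920 c10629 (k8 c1274 c937 c2490 c2422 c302 c6188 c13097 c341 (k2 c298 c17330 (k1 c17934 k0))))) (by decide +kernel)
def c18583 : PP 9 3 T 0x8000000000000008000100000000000000000100000000000000000000000000000000000000000000000000000000008000040000000000001004000000 := rS 0x122104452ad57bc43a2758eda3a45 (k8 c5582 c5504 c5212 c5421 c5570 c5486 c5401 c5406 (k4 c5490 c8199 c2745 c3582 (k2 c12617 c2809 k0))) (by decide +kernel)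
def c18584 : PP 9 3 T 0x9000400000000019000020040000000000000100040000000200000400000000000000000000000000000000100000000000040000000000000004000008 := rS 0xcd309f5ece3708408c49124006e3d43a44f28f009b8ce7356ac4e3b657a6c9629d0bcc441f35bc5128541994d28b (k8 c18350 c18347 c18353 c18355 c18349 c18356 c5401 c5523 (k8 c1111 c6197 c447 c18539 c8199 c560 c7393 c5406 (k8 c5212 c5571 c5421 c5490 c5419 c5487 c3602 c18582 (k8 c5526 c5524 c5374 c5373 c5436 c5435 c18000 c18583 (k8 c10629 c1263 c12632 c6188 c2347 c2791 c2747 c18298 (k2 c2078 c18562 k0)))))) (by decide +kernel)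
def c18585 : PP 9 3 T 0x1000400000000019000020040000000000000100040004000200000400000000000000000000000000000000100000000000040000000000000004000010 := rS 0x3ddea4423c7486117f096031524fcbdef31107c040143a44d68f14bc43a273719ce6ad589c76da157c0f3083329a5128b (k8 c18350 c18356 c18347 c18353 c18355 c18346 c10772 c5406 (k8 c18539 c5212 c5571 c5421 c5490 c5419 c5487 c3602 (k8 c5570 c5486 c5401 c8199 c5526 c5523 c5374 c5373 (k8 c18582 c5642 c1111 c6197 c447 c18584 c5171 c5588 (k8 c5590 c5592 c1262 c18001 c2745 c2781 c13277 c13598 (k4 c3582 c2341 c503 c5657 k0)))))) (by decide +kernel)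
def c18586 : PP 9 3 T 0x400000000018000020000000000000000000040004000200000000000000000000000000000000000000100000000000040000000000000004000210 := rS 0xf88c042400fb88ff3897b4dc0d35ab55e67c9ec4e27358edab3a145a24d265 (k8 c18353 c18347 c18356 c18350 c18539 c18575 c5212 c5421 (k8 c5419 c5571 c18554 c5438 c5487 c5406 c5490 c5523 (k8 c5522 c3602 c18581 c18585 c5547 c12623 c5171 c18580 (k4 c18583 c5642 c1263 c1111 (k1 c6197 k0))))) (by decide +kernel)
def c18587 : PP 9 3 T 0x2000000000000019000120000000000000000100040000000200000000000000000000000000000000000000000000000000000000000000000000010210 := rS 0x812f78cc29331808440110a6c901ff99b19ed10c9accea9c9acd3ecb13ac76c4b0691d1e7f090fcca69 (k8 c18347 c18353 c5318 c12617 c2917 c5526 c13598 c5522 (k8 c12638 c5212 c5421 c5570 c5420 c5572 c5574 c5438 (k8 c5489 c5487 c5523 c5315 c5501 c5543 c17916 c17760 (k8 c2316 c5660 c7393 c344 c666 c5650 c5642 c9752 (k4 c18578 c1573 c17997 c5663 (k2 c1746 c17970 k0)))))) (by decide +kernel)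
def c18588 : PP 9 3 T 0x4000000000000019000020040000000000000000040000000200000400010000000000000000001500004000000000050000000004400000005004080012 := rS 0x2048062 (k4 c16365 c18573 c937 c298 k0) (by decide +kernel)
def c18589 : PP 9 3 T 0x400000000018000020000000000000000000040004000200000000000000000000000000000000000000000000000000040000000000000004000210 := rS 0x2adfef4798883e0200bde2a4989fca07ed129123a470912e021121fbd18b5589cc4e9f599c76d59d8a1c1a6b47e855ef17eaa72659 (k8 c18352 c5438 c5489 c5405 c5401 c5406 c18539 c5526 (k8 c5523 c5522 c5373 c18554 c18575 c5212 c5571 c5574 (k8 c5572 c5570 c5419 c5421 c5422 c18586 c5505 c12616 (k8 c701 c2141 c12638 c12617 c13598 c299 c5658 c2968 (k8 c18587 c10772 c5171 c5547 c5588 c5590 c503 c18588 (k8 c5642 c1111 c6197 c447 c5657 c2341 c1923 c18003 k0)))))) (by decide +kernel)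
def c18590 : PP 9 3 T 0x19000120040000000000000000040000000200000000000000000000000000000000000000100000000000080000040000001004010002 := rS 0xdb1c4dead5799cca69 (k8 c18347 c18353 c5487 c5406 c5490 c1060 c667 c18565 (k1 c14585 k0)) (by decide +kernel)
def c18591 : PP 9 3 T 0x400000000058000020000000000000000200040004000200000000000000000000000000000000000000100000000000000000000000000004000210 := rS 0x40ce1f256ad4524b7fbd1e6220f80802430889727a135bc7dbb17b9690e4742a0d128b (k8 c18350 c18356 c18355 c18349 c5562 c5373 c18589 c2101 (k8 c18546 c18559 c5401 c5523 c18539 c5438 c5559 c5558 (k8 c5561 c18590 c5642 c1111 c6197 c447 c5657 c2341 (k8 c5342 c8199 c11945 c5490 c18566 c18569 c5550 c16325 k0)))) (by decide +kernel)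
def c18592 : PP 9 3 T 0x400000000018000020000000000000000200040004000200000000000000000000000000000000000000100000000000000000000000000004000210 := rS 0x1a42765a7f6cc930a4d9ed17a3cd36220f98c0401f68fc623735e85e3937b9690e250890f6265 (k8 c18353 c18546 c5561 c5558 c5559 c5373 c18589 c2101 (k8 c5438 c5401 c18539 c5523 c5435 c5434 c5318 c18559 (k8 c18590 c5642 c9752 c1111 c6197 c7393 c447 c5657 (k8 c1925 c2339 c18578 c1573 c10171 c18591 c5572 c5420 (k2 c5570 c18558 (k1 c14403 k0)))))) (by decide +kernel)
def c18593 : PP 9 3 T 0x400000000018000020000000000000000200040004000200000000000000000000000000000000000000000000000000000000000000000004000210 := rS 0x224db3da2920107de801363cd57027ffce25ed5aac4e62765a7d67b669c04e3ef46207624b208c46f1135e85fa6754bdcb487419a4ca85 (k8 c18349 c18353 c18347 c18355 c5373 c18589 c2101 c5489 (k8 c5487 c5405 c18539 c5523 c5371 c5435 c5434 c5340 (k8 c5342 c18546 c1744 c18592 c5505 c753 c2141 c2084 (k8 c18569 c5574 c5572 c5420 c5570 c5419 c5421 c5422 (k8 c18572 c18574 c5547 c2570 c5694 c6368 c2627 c3601 (k8 c17966 c5657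 c2316 c5642 c18558 c1925 c2339 c7393 (k2 c6197 c18578 k0))))))) (by decide +kernel)
def c18594 : PP 9 3 T 0x40000000001a000020040000000000000100040004000200000000000000000000000000000000000000100000000000000000000000000004000002 := rS 0x1ff60806885 (k4 c18349 c17756 c13932 c18376 (k2 c58 c18551 k0)) (by decide +kernel)
def c18595 : PP 9 3 T 0x40000000001a000020000000000000000000040004000200000000000000000000000000000000000000100000000000000000000000000004000210 := rS 0x3da220f808026bd0e4eb234 (k8 c17756 c18593 c5438 c18539 c5523 c18594 c5642 c1111 (k2 c6197 c18551 (k1 c18553 k0))) (by decide +kernel)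
def c18596 : PP 9 3 T 0x40000000001a000020000000000000000100040004000200000000000000000000040000000000000000000000000000000000000000000004000002 := rS 0x3e9fc20df3792bc28171fcd9eab2491cedec1017c72171ea441a977e99d2aa938acd3ecb139cd63b6d0a84c6c94d985326932b14ea85 (k8 c18349 c18354 c18348 c18353 c18347 c5447 c5445 c5397 (k8 c5396 c5395 c5398 c18539 c5212 c5421 c5419 c5570 (k8 c5420 c5572 c5574 c5571 c5489 c5488 c5487 c5405 (k8 c5404 c5522 c5374 c5436 c5433 c5317 c1054 c13932 (k8 c18376 c18020 c2422 c344 c5500 c5543 c17760 c17893 (k8 c939 c18012 c5660 c18580 c2510 c12638 c10493 c2747 (k1 c3599 k0))))))) (by decide +kernel)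
def c18597 : PP 9 3 T 0x200000000000000a000100040000000000000100040000000200000000000000000000040000000000000000600010000000000004000020000000000000 := rS 0xf19fd02406b8408a4624b8fe6ff1f81c2e3714a5d2aa959a7d962758edbde43 (k8 c12616 c5505 c5212 c5421 c5570 c5420 c5572 c5574 (k8 c5489 c5488 c5404 c8199 c5435 c5433 c5432 c5318 (k8 c5544 c17760 c17893 c18013 c5660 c2972 c13598 c1764 (k4 c5281 c699 c808 c5462 (k1 c5670 k0))))) (by decide +kernel)
def c18598 : PP 9 3 T 0x40000000001a000020000000000000000000040004000200000000000000000000000000000000000000000000000000000000000000000004000210 := rS 0x11822fe8eaae2af4f940fdaf3258883e7d01005a70121fbd183450a4c663f0b8f4d68f14abde2fd54e4dee5a43acd3ecb13edab3a1 (k8 c18539 c18593 c5212 c5570 c5420 c5572 c5574 c5373 (k8 c18589 c2101 c5438 c5489 c5405 c5401 c5406 c8199 (k8 c5526 c5523 c5436 c5433 c5318 c5316 c5444 c5398 (k8 c17756 c18595 c5505 c12616 c2141 c15747 c18596 c5642 (k8 c12650 c1111 c6197 c560 c447 c18597 c10772 c5171 (k8 c5657 c5590 c1923 c2165 c18003 c702 c2341 c13598 k0)))))) (by decide +kernel)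
def c18599 : PP 9 3 T 0x19000120040000000000000100040000000200000000000000000000000000000000000000000000008000000000000000000004000002 := rS 0x25fcc924709448400d5989f6c85 (k8 c18349 c5212 c5570 c5574 c5522 c13932 c18582 c1061 (k4 c2422 c344 c5547 c301 (k1 c5660 k0))) (by decide +kernel)
def c18600 : PP 9 3 T 0x19000120000000000000000100040004000200000000000040000000000000000000000000100000000000000000000000000004000210 := rS 0x89bfe021022924489367b45e8f325a6c441f318080303377b4623743a44d68f14ab55ef133e4ce27358edb308345a24d265 (k8 c18353 c18347 c18356 c18350 c18355 c18346 c5212 c5421 (k8 c5419 c5571 c5438 c5487 c5401 c5406 c5490 c8199 (k8 c5526 c5523 c5374 c5373 c5435 c5434 c18581 c3602 (k8 c10772 c18599 c5642 c9752 c1111 c6197 c7393 c560 (k8 c447 c5657 c1925 c2339 c18578 c18577 c10629 c2968 (k4 c12632 c1928 c2342 c704 (k1 c18001 k0))))))) (by decide +kernel)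
def c18601 : PP 9 3 T 0x2000000000000019000120000000000000000100040000000200000000000050000000000000000000000000200000000000000000000000000000000212 := rS 0xf19fc80d7229f42634081b19ef3688c47a6b33aa7de434098b2673db22cca69 (k8 c18347 c18353 c18350 c5212 c5419 c5438 c16365 c937 (k8 c12616 c5505 c5489 c5487 c5523 c5436 c5434 c5501 (k8 c5540 c5543 c17916 c18587 c14101 c36 c2747 c2966 (k4 c17697 c5281 c808 c5462 (k1 c5670 k0))))) (by decide +kernel)
def c18602 : PP 9 3 T 0x19000120000000000000000100040004000200000000000040000000000000000000000000000000000000000000000000000004000212 := rS 0x59b1e5f2f6bd4de207e99d539338acce6b5db7bd1885 (k8 c18349 c18600 c5505 c5212 c5422 c5419 c5574 c5571 (k8 c5438 c5489 c5487 c5405 c13932 c18599 c2420 c18601 (k4 c5171 c17966 c17922 c2530 (k1 c665 k0)))) (by decide +kernel)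
def c18603 : PP 9 3 T 0x2000000000000019000120000000000000000100040000000200000000000000000000000000000000000000200000000000000000000000000004000211 := rS 0x78cfe406b978686122a0426930833da2330385c62f1c9edbde4331889361f011acca8b (k8 c18350 c18353 c5523 c5642 c1111 c7393 c6197 c9752 (k8 c12616 c5505 c5212 c5438 c5401 c5434 c5433 c5432 (k8 c5316 c5501 c5543 c18587 c18578 c36 c699 c2966 (k8 c1573 c14092 c5663 c17697 c5281 c808 c5462 c17970 k0)))) (by decide +kernel)
def c18604 : PP 9 3 T 0x400000000018000020000000000000000000040004000200000000000000000000000000000000000000000000000000000000000000000004000210 := rS 0x23045fd1d55c55e9f281fb5e6220f8080301f7a3362b3db565ee5a439ad1fa157bc5faa9 (k8 c5489 c5405 c5401 c5406 c18539 c5526 c5523 c5373 (k8 c18589 c2101 c18593 c5212 c5574 c18598 c18600 c5505 (k8 c2141 c18602 c5642 c1111 c6197 c447 c18603 c10772 (k8 c5171 c5657 c5590 c1923 c2165 c18003 c702 c2341 (k1 c13598 k0))))) (by decide +kernel)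
def c18605 : PP 9 3 T 0x40000000001a000020000000000000000200040004000200000000000000000000000000000000000000100000000000000000000000000004000012 := rS 0xf9449026c3b1cbd85f35a5cce95548476e3f0c85c53a1329a58a75 (k8 c18354 c18348 c18347 c18353 c18539 c8199 c5433 c5315 (k8 c5318 c17858 c5558 c5489 c5488 c5487 c5404 c5523 (k8 c1054 c18376 c17749 c18020 c17916 c938 c933 c18541 (k1 c5547 k0)))) (by decide +kernel)
def c18606 : PP 9 3 T 0x400040000000000a000100000000000000000200000000000200000000000000000000400000000000000000000000010000000000000000000000000011 := rS 0x34888807889483b71f8642e29398098a65 (k8 c18353 c18348 c5642 c9719 c8199 c5433 c5315 c5318 (k8 c17858 c5340 c5559 c5401 c18544 c14312 c13318 c2936 k0)) (by decide +kernel)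
def c18607 : PP 9 3 T 0x40000000000000050000120000000000000000000000000000000000000014000000000000000001001000000100000022000000000000000000000000000 := rS 0x2266f (k2 c65 c756 (k1 c18540 k0)) (by decide +kernel)
def c18608 : PP 9 3 T 0x40000000000a000100000000000000000200000000000200000000000000000000400000000000000000000000010000000000000000000000000011 := rS 0x7b888f1db8fc3217149cc0465 (k8 c18353 c5642 c9719 c8199 c5433 c5315 c5318 c17858 (k4 c5401 c14312 c18606 c5582 k0)) (by decide +kernel)
def c18609 : PP 9 3 T 0x2000000000000058000120000000000000000000000000000000000000000000000000000000001000000000100000020000000000000000000000000000 := rS 0x7ca046c7fc04d6ad33aa50a8344a2cca69 (k8 c18347 c18353 c18350 c18356 c18355 c18349 c5489 c5487 (k8 c5490 c5523 c5502 c5544 c17916 c16325 c18607 c5550 k0)) (by decide +kernel)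
def c18610 : PP 9 3 T 0x40000000001a000020000000000000000200040004000200000000000000000000000000000000000000100000000000000000000000000004000010 := rS 0x7e6ffcfc2e370b1c903a6740cb6f6f7c07daf589a062a6f383cd6a220f9f40473008f4f687489acf28f56abccea92192c8e611a6dc7e29d0b5d9293188663a410bbc50a89419951669 (k8 c18347 c18350 c18353 c18355 c18356 c18349 c5401 c5433 (k8 c5340 c5341 c5315 c5434 c5444 c5396 c14269 c18539 (k8 c8199 c5318 c17858 c17756 c5445 c5562 c5342 c5561 (k8 c5489 c5487 c5406 c5490 c5526 c5524 c5523 c5374 (k8 c5373 c5372 c5436 c18605 c9719 c5642 c17814 c1111 (k8 c6197 c11945 c447 c18608 c65 c3048 c751 c756 (k8 c14493 c18609 c15060 c18000 c5657 c2101 c2195 c502 (k8 c501 c18564 c2560 c1653 c13843 c5456 c5588 c2946 (k2 c3610 c10493 k0))))))))) (by decide +kernel)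
def c18611 : PP 9 3 T 0x40000000001a000020000000000000000200040004000200000000000000000000000000000000000000000000000000000000000000000004000010 := rS 0x69b7888e1719256515363fde6ab1dbdd6af5397b04000809c7de8c6bedd32c94fa4c32391f85c62371ec450e6b14e85e21d33aa44a11219063a4b23994d285 (k8 c18349 c18347 c18353 c5562 c5342 c5341 c5340 c5561 (k8 c5558 c5559 c5489 c5487 c5486 c5401 c18539 c8199 (k8 c5523 c5373 c5371 c5436 c5435 c5434 c5433 c5318 (k8 c5317 c5315 c5444 c5448 c5396 c5447 c17858 c14269 (k8 c18610 c5505 c753 c2141 c18608 c13932 c18376 c17749 (k8 c2420 c2608 c342 c340 c5500 c5540 c5544 c17916 (k8 c1290 c934 c345 c2458 c2898 c14685 c3590 c2936 (k1 c12713 k0)))))))) (by decide +kernel)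
def c18612 : PP 9 3 T 0x2000000000000009000020080000000000000000000000000000000000000000000000000000000000000000000000000001000000000000000000000000 := rS 0x649dd2e674a9a58a65 (k8 c18353 c18348 c18347 c5488 c5487 c5404 c5356 c14526 (k1 c18033 k0)) (by decide +kernel)
def c18613 : PP 9 3 T 0x88000000000000000000000000000000000000000000000000000000000000000000000000100000014000000000000000000000000000 := rS 0x589cf3089 (k4 c18356 c18346 c5419 c5421 (k1 c17895 k0)) (by decide +kernel)
def c18614 : PP 9 3 T 0x19000120000000000000000000040004000200000000000000000000000000000000000000100000000000000000000000001004010102 := rS 0x1d82da2f2647b4ee63c96ddee9b379c440612f95c72070b83c1a977e874ce95429a58a65 (k8 c18353 c18348 c18347 c18349 c5488 c5487 c5486 c5405 (k8 c5404 c5522 c5369 c5433 c5432 c5317 c5313 c1054 (k8 c661 c13932 c667 c1060 c2490 c342 c18613 c18565 (k8 c5355 c5356 c18612 c18033 c17966 c2134 c2530 c449 (k1 c9123 k0))))) (by decide +kernel)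
def c18615 : PP 9 3 T 0x2008000000000008000020000000000000000200000004000200002000000000000000000000000000000404000000008000000000000000014004000010 := rS 0x662618e774f18196190b8f4f6873c875522568b3f3085 (k8 c18349 c18346 c5543 c5501 c5559 c5489 c5486 c5524 (k8 c5373 c5372 c5436 c5433 c5315 c5464 c17836 c17994 (k4 c10409 c727 c3051 c18017 (k1 c2440 k0)))) (by decide +kernel)
def c18616 : PP 9 3 T 0x2000000000000059000120000000000000000200000004000200000000000000000000000000001000000404100000040000000000000000000004000018 := rS 0x78325e38a7cd626e13acce28f14b3d8a85 (k8 c18349 c18348 c5543 c8199 c5526 c18609 c8280 c268 (k8 c5666 c1147 c17760 c5685 c18615 c5236 c5198 c13267 k0)) (by decide +kernel)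
def c18617 : PP 9 3 T 0x400000000088000000000000000000000200000000000200000000000000000000000000000000000004000000000000000000000000010004000000 := rS 0x192d66ab4fdfe350111622765a7c323f0b8c47aaf78894831d (k8 c5341 c5340 c5559 c5401 c5406 c5436 c5434 c5433 (k8 c5318 c5315 c5572 c5420 c5570 c5421 c17812 c3579 (k4 c17994 c17816 c2936 c3000 (k2 c5689 c2189 (k1 c14269 k0))))) (by decide +kernel)
def c18618 : PP 9 3 T 0x1000400000000008000000000000000000000000000000000000002000010000000000000000000000008000000000000000000000000000000000000000 := rS 0x66b459fe14c3812aa9 (k8 c5489 c5488 c3050 c3051 c5460 c1653 c1595 c2440 (k1 c5688 k0)) (by decide +kernel)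
def c18619 : PP 9 3 T 0x81000000000000000000020000000000000000000040004000000000000000004000000000000000000000000100000000000000000600000000000000000 := rS 0x7abddfc4981c4d0e9147c073083 (k8 c18355 c18346 c3067 c5526 c5374 c5373 c5547 c5550 (k4 c5588 c18001 c503 c2341 (k1 c5657 k0))) (by decide +kernel)
def c18620 : PP 9 3 T 0x8000000000000000000000000000000000000000000000200000000000000000000000000000000004004000000000000000000000000015000000000 := rS 0x658642e3d (k4 c5436 c5433 c5315 c5464 (k1 c17994 k0)) (by decide +kernel)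
def c18621 : PP 9 3 T 0x1000400000000059000020000000000000000000040004000200000000000000000000000000001000000004100000050000000000400000001000000008 := rS 0x78325e367bd1ee9f7fc53e701139116637478a742af798883e6b78b150a65 (k8 c18353 c18349 c18348 c5401 c5523 c1111 c6197 c447 (k8 c5406 c18539 c8199 c5526 c5435 c8280 c14312 c268 (k8 c3067 c18619 c5685 c3010 c18618 c504 c5657 c2339 (k4 c18620 c5236 c5198 c13267 k0)))) (by decide +kernel)
def c18622 : PP 9 3 T 0x1000400000000059000020040000000000000000000000000200000000000084000440001000000800000400000040044000000000000000000004000008 := rS 0x1f58e8130788f6913ca3f4263 (k8 c9752 c18539 c5526 c5524 c5374 c5372 c5236 c18562 (k4 c5463 c727 c1580 c15962 k0)) (by decide +kernel)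
def c18623 : PP 9 3 T 0x400000000018000020000000000000000200040004000200000000000000000000000000000000000000100000000000000000000000000004000010 := rS 0x70a05a2d71a648fe1271ac9a6dff9bf891032db35ecf5f7c062715379c3dbb779ad536931107c04730095c32331f81c62373da1d226b478a742ad57bc52e67548244a11219063a4b23ec58a593a9750a8344a2cca69 (k8 c18347 c18353 c18350 c18356 c18355 c18349 c17796 c18354 (k8 c18352 c18348 c18611 c5562 c5342 c5341 c5340 c5561 (k8 c5558 c5559 c18604 c5489 c5487 c5404 c5401 c5406 (k8 c5490 c18539 c8199 c5526 c5523 c5374 c5373 c5372 (k8 c5435 c5434 c5432 c5318 c5316 c5315 c5313 c18614 (k8 c9719 c5642 c1111 c6197 c261 c7393 c11945 c447 (k8 c18617 c18616 c18621 c65 c3048 c756 c15060 c18000 (k8 c14493 c5657 c17683 c2101 c2195 c18564 c16325 c5588 (k8 c2946 c4892 c5685 c14855 c15745 c2917 c18622 c10897 (k4 c1763 c1705 c13318 c15133 (k1 c17932 k0))))))))))) (by decide +kernel)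
def c18624 : PP 9 3 T 0x2000000000000019000120000000000000000200040000000200000000000000000000000000000000000000200000000000000000000000000044000002 := rS 0xe23ffcc93e170b7daeb113a7d66c640a7469b6310edeb9305080c2231c81c6237889e44a417bb45e6cf362a4ce6b4da14d265 (k8 c18353 c18347 c18349 c7393 c5523 c5487 c5489 c17916 (k8 c5543 c5540 c5501 c5498 c5340 c5559 c5524 c5371 (k8 c5435 c5434 c5432 c5317 c9731 c661 c13932 c665 (k8 c18612 c2420 c17340 c16365 c18565 c14101 c1274 c3936 (k8 c779 c5574 c5572 c5570 c5421 c1763 c13097 c13096 (k4 c5535 c344 c17760 c808 (k2 c18015 c17330 k0))))))) (by decide +kernel)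
def c18625 : PP 9 3 T 0x2000400000000018000020000000000000000200040004000200000000000000000000000000000000000000000000000000000000000000000004000010 := rS 0x1e0c978e29f3589bb6e2749acc047300a6d6a1f3633cd68f14e855209d89c5186762a14ca69 (k8 c18347 c18353 c18349 c18348 c5487 c18623 c753 c18611 (k8 c18604 c5489 c18539 c8199 c5526 c5523 c5543 c17916 (k8 c2316 c2611 c7393 c18624 c9719 c5642 c8280 c261 (k8 c268 c18617 c5666 c1146 c17760 c5685 c18615 c5236 (k2 c5198 c13267 k0))))) (by decide +kernel)
def c18626 : PP 9 3 T 0x8000020080000000000000000000000000200000000000008000000000000000000000400000000000001000000000000000000000000 := rS 0x341903a3b95c72071b83cf60d4b99d2a0b34b14ca85 (k8 c18349 c18353 c18348 c18347 c2530 c5488 c5487 c5404 (k8 c5522 c5372 c5369 c5435 c5432 c5317 c5313 c5356 (k4 c18025 c18033 c449 c2134 k0))) (by decide +kernel)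
def c18627 : PP 9 3 T 0x1000000000000019000020000000000000000000040004000200000000000000000000000000000000000000000000000000000000000000000004000102 := rS 0x319303b4e98b266df082de4f77aa6c40612b8e40e3707c44f60d3c8755285 (k8 c18349 c5489 c5486 c5524 c5522 c5372 c5371 c5369 (k8 c5435 c5432 c5317 c5313 c661 c13932 c2490 c2420 (k8 c342 c5657 c2530 c17762 c665 c18626 c16365 c1274 (k4 c341 c5679 c3568 c2438 k0)))) (by decide +kernel)
def c18628 : PP 9 3 T 0x1008400000000059000100000000000000000200000000000200000000010000000000000000000000000404000004050000000000000000004000000010 := rS 0x99f08ebe5154ea78c0df718642e29129048e6e (k8 c5666 c5562 c5340 c5559 c8199 c5433 c5315 c5466 (k8 c5580 c17836 c18620 c1696 c18618 c17872 c17862 c5456 (k2 c1591 c5679 k0))) (by decide +kernel)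
def c18629 : PP 9 3 T 0x400000000018000020000000000000000200040004000200000000000000000000000000000000000000000000000000000000000000000004000010 := rS 0x192d66aa813ecb3e97f25e369ac4886edba6c4e930f808e601f6c04e3ef466c63a41128647e17188f4f687358a742af7899c1265 (k8 c18353 c18604 c5487 c5401 c5406 c18539 c8199 c5523 (k8 c5373 c5372 c5436 c5434 c5433 c5318 c5315 c5559 (k8 c5340 c5341 c18611 c18623 c5505 c753 c2141 c18625 (k8 c18627 c9719 c5642 c1111 c261 c268 c7393 c18617 (k8 c5666 c14312 c1146 c2936 c18628 c5236 c5439 c5442 (k4 c1144 c2815 c3579 c3000 (k2 c5689 c2189 (k1 c14269 k0)))))))) (by decide +kernel)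
def c18630 : PP 9 3 T 0x200040000000001a000020000000000000000100040004000200000000000000000000000000000000000000000000000000000000000000000004000002 := rS 0x2051d22b5daaf569080663f54edb4285 (k8 c18349 c18539 c5212 c5489 c5318 c5316 c13932 c18596 (k4 c2420 c141 c205 c2936 (k2 c2081 c17855 (k1 c16948 k0)))) (by decide +kernel)
def c18631 : PP 9 3 T 0xa000000080000000000000000000000000000000000000000000000000000000000000000000000000000000000000000000000000000 := rS 0x774b99d2ac9309a58a65 (k8 c18353 c18348 c18347 c5445 c5396 c5488 c5487 c5404 (k2 c5356 c18033 k0)) (by decide +kernel)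
def c18632 : PP 9 3 T 0x200040000000001a000020000000000000000000040004000200000000000000000000000000000000000000000000000000000000000000000004000010 := rS 0x21fbda48c25888fa020087cd8331f85c7a6b478a4cea94fb2c4fb6ace8526a11a64cca69 (k8 c18347 c18353 c18631 c17756 c5398 c5444 c18539 c18629 (k8 c5212 c5570 c5420 c5572 c5489 c5487 c8199 c5526 (k8 c5523 c5436 c5433 c5318 c5316 c17916 c2316 c18630 (k8 c5642 c12650 c6197 c560 c18551 c18597 c5505 c12616 (k1 c15747 k0))))) (by decide +kernel)
def c18633 : PP 9 3 T 0x40000000001a000020000000000000000000040004000200000000000000000000000000000000000000000000000000000000000000000004000010 := rS 0x3fa05ae1009903c6258afcbde8c1107cfa0200fb7263450a4c323f0385c7a6b148253ecb13edab3a1 (k8 c18539 c18629 c5212 c5570 c5420 c5572 c18604 c8199 (k8 c5523 c5436 c5433 c5432 c5318 c5315 c5444 c5398 (k8 c17756 c18631 c18632 c18376 c5642 c12650 c1111 c6197 (k8 c18553 c5505 c5171 c5590 c1262 c17994 c17815 c297 (k4 c12636 c17697 c699 c808 (k1 c5670 k0)))))) (by decide +kernel)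
def c18634 : PP 9 3 T 0x2000000000000019000120000000000000000100040000000200000000000000000000000000000000000000000000000000000000000000000004000002 := rS 0x78cfe403eb5c87ef22840268c40928de34311248ef5c9880c207188f41a7113bdda2f3679b1526735fcd62b3db214d265 (k8 c18353 c18347 c18349 c5212 c5574 c5421 c17760 c5523 (k8 c5487 c5489 c17916 c5543 c5540 c5501 c5498 c5570 (k8 c5571 c5522 c5436 c5434 c5432 c661 c13932 c18612 (k8 c2420 c2422 c344 c16365 c14101 c18599 c5660 c3936 (k8 c18613 c301 c12638 c460 c5505 c12616 c17697 c2747 (k4 c5281 c808 c5462 c5670 k0)))))) (by decide +kernel)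
def c18635 : PP 9 3 T 0x400000000008000100000000000000000100000000000200000000000000000000000000000000000004100000000000000000000000001004000100 := rS 0x325acd3f7b5488a021904251d08f8c323f0b8c47a2956abde21d4fb2c4eb1371c76c89 (k8 c18356 c5212 c5571 c18613 c5421 c5570 c5420 c5572 (k8 c5486 c5401 c5406 c5490 c8199 c5436 c5434 c5433 (k8 c5318 c5315 c17994 c2745 c13277 c12617 c12636 c2808 (k8 c3579 c3582 c3000 c5582 c2936 c5689 c2189 c14269 k0)))) (by decide +kernel)
def c18636 : PP 9 3 T 0x89000100040000000000000000000000000200200000000000000000000000000000000004000100000001000000000000000004000009 := rS 0x7ff1b50805e1a0cc2e317898d1665 (k8 c18353 c18350 c9752 c5401 c5434 c5433 c5316 c14092 (k4 c5663 c552 c553 c5462 (k2 c2998 c17970 k0))) (by decide +kernel)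
def c18637 : PP 9 3 T 0x2000400000000019000020000000000000000100040000000200000000000000000000000000000000000000100000000000000000000000000804000108 := rS 0x64a38618138e26813e9182024038dc7a8748a3f6d017f805264b14e873083 (k8 c18355 c18346 c18539 c8199 c560 c261 c18634 c5544 (k8 c5502 c5212 c5526 c5374 c5373 c5436 c5435 c5432 (k8 c18635 c12632 c1263 c2747 c699 c704 c2347 c18001 (k4 c18298 c2350 c18636 c18612 k0)))) (by decide +kernel)
def c18638 : PP 9 3 T 0x4000400000000008000100000000000000000100000000000200000000000000000000040000000000000004000000000000000000000000001004010100 := rS 0x192d66aa823a41090fc62af78ac7c6290b8f5969f0c89f6c59 (k8 c18352 c5212 c5570 c5315 c5572 c5420 c5436 c5433 (k8 c8199 c17994 c5421 c5401 c5406 c5434 c5318 c12617 (k4 c12636 c299 c3579 c3000 (k2 c5689 c2189 (k1 c14269 k0))))) (by decide +kernel)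
def c18639 : PP 9 3 T 0x400000000009000100040000000000000100000000000200000000000000000000040000000000000000200000000000000000000000001004000109 := rS 0x180fd1c409f421e30c81c2e3d149c53ecb13ed927ef (k8 c5505 c261 c5212 c5570 c5420 c5572 c5571 c8199 (k8 c5436 c5433 c5432 c5315 c17994 c18638 c2747 c699 (k4 c702 c5670 c18636 c728 k0))) (by decide +kernel)
def c18640 : PP 9 3 T 0x400000000019000020040000000000000100040004000200000000000000000000000000000000000000200000000000000000000000000804000109 := rS 0x6071a04fb1c230408a24038dc7aafdb68526d3218cfde3f (k8 c5318 c5505 c5316 c12616 c15747 c261 c18539 c5212 (k8 c5406 c5436 c5435 c5432 c18639 c2968 c12632 c1263 (k4 c5658 c2747 c699 c2347 (k2 c18636 c18298 k0)))) (by decide +kernel)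
def c18641 : PP 9 3 T 0x2000400000000018000020000000000000000000040004000200000000000000000000000000000000000000000000000000000000000000000004000010 := rS 0x2653be166183248c11008029b0f9b19ed13d9af426754826b3b162a14ca69 (k8 c18347 c18353 c18349 c18348 c18633 c18629 c18604 c5489 (k8 c5487 c18539 c5523 c5372 c5501 c5543 c17916 c2316 (k8 c7393 c18634 c5642 c6197 c18637 c18640 c18612 c17834 (k4 c13267 c1696 c2440 c5679 k0)))) (by decide +kernel)
def c18642 : PP 9 3 T 0x1000400000000019000020000000000000000100040000000200000000040000000000000000000000000000100000000000000000000000000004000109 := rS 0xce6f0d3245b66bd8c3007fb8e26813eb8628460812448571981c62371e9ed0e913ca3d5fb649a6c9629d0bcc441f35bc58a593a9773083 (k8 c18355 c18346 c17796 c18354 c18352 c18348 c5401 c5523 (k8 c1111 c6197 c447 c18539 c8199 c560 c7393 c261 (k8 c5212 c5406 c5526 c5524 c5374 c5373 c5372 c5436 (k8 c5435 c5434 c5432 c5316 c5313 c18635 c10629 c12632 (k8 c1263 c1262 c6188 c2747 c699 c704 c2347 c3010 (k8 c18001 c18298 c2791 c2078 c2101 c18562 c10897 c17932 (k2 c502 c2564 k0)))))))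 (by decide +kernel)
def c18643 : PP 9 3 T 0x400000000018000020000000000000000000040004000200000000000000000000000000000000000000000000000000000000000000000004000010 := rS 0xf57bc70b41012c55a7f221fbd18f3498883e0200c0fdbb1ac824663f439af42f1 (k8 c5401 c18539 c5523 c5373 c5318 c5316 c18604 c18629 (k8 c18633 c18641 c10772 c18627 c5642 c1111 c6197 c261 (k8 c447 c18642 c5505 c12616 c5171 c15747 c5590 c1262 (k4 c18638 c701 c702 c2101 (k2 c2165 c5657 k0))))) (by decide +kernel)
def c18644 : PP 9 3 T 0x40000000001a000020000000000000000200040004000200000000000000000000000000000000000000000000000000000000000000000000000002 := rS 0x1a7ef6f11076f5f9b85c70324b5c41e1892ca2a7f363fd9ef380aadee723b7b36e994db24c69f49864723f1bc44d629d0a5dfa674aaa4be170890c9647329a58a75 (k8 c18354 c18348 c18347 c18353 c5562 c5342 c5561 c5558 (k8 c5433 c1054 c5489 c5488 c5487 c5405 c5404 c18539 (k8 c8199 c5523 c5371 c5435 c5318 c5317 c5315 c5444 (k8 c5448 c5395 c5396 c5397 c5447 c17858 c18376 c18020 (k8 c17749 c5498 c5500 c5502 c5540 c5543 c5544 c17916 (k8 c806 c1290 c934 c933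 c18012 c666 c2188 c345 (k8 c2460 c2458 c2898 c5547 c2420 c340 c18038 c18015 (k2 c17892 c2936 (k1 c12713 k0))))))))) (by decide +kernel)
def c18645 : PP 9 3 T 0x2000000000000019000120000000000000000200040000000200000000000000000000000000000000000000000000000000000000000000000000000012 := rS 0x1c7f324b85be7f462c44e9f59b5fc3b61a319029d1dbd4c49b050803f933633de6d17b8e4623788834d67933aa4466103904de2538844ca69 (k8 c18347 c18353 c5558 c667 c5559 c1060 c5340 c5432 (k8 c661 c9731 c5489 c5487 c5524 c5523 c5522 c5371 (k8 c5435 c5434 c5317 c5498 c5501 c5540 c5543 c17916 (k8 c18612 c2316 c666 c665 c2493 c16365 c2420 c17340 (k8 c1274 c3936 c779 c14101 c14138 c5535 c1763 c5574 (k8 c5572 c5570 c5421 c18613 c808 c13097 c13096 c344 (k2 c17760 c17330 (k1 c18015 k0)))))))) (by decide +kernel)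
def c18646 : PP 9 3 T 0x2000000000000000000000000000000000200000000000200000000020080000000440000000000000000000000000000000000100000000000000000 := rS 0x3546ae11d8cc7e311e90c831d (k8 c5341 c5340 c5561 c5436 c5434 c5318 c5316 c5456 (k4 c5460 c501 c3072 c3588 k0)) (by decide +kernel)
def c18647 : PP 9 3 T 0x11000000000000000000000200000000000200000000001000000000440000002008000000000000000000000000000000000080000000 := rS 0x356ab4135e122c01fe331f8c47a4320c75e6f6 (k8 c1085 c2532 c5341 c5340 c5561 c5436 c5434 c5318 (k8 c5316 c2572 c1345 c504 c18646 c17725 c1190 c1711 (k2 c1705 c3588 k0))) (by decide +kernel)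
def c18648 : PP 9 3 T 0x1000000000000019000120040000000000000200040004000200000000000000000000000000000000000000100000000000000000000000000000000002 := rS 0x6a8d5a09af08e88ae1f92d5e6aa0f1b442df69b8dae9df1188663f188f62287069adfa675488c86418e91ce5b7389bc4a11419a4ca85 (k8 c18349 c18353 c18347 c18355 c5558 c5559 c1060 c667 (k8 c18613 c17749 c5562 c5341 c5340 c5561 c9731 c5489 (k8 c5487 c5405 c5523 c5522 c5373 c5371 c5436 c5434 (k8 c5318 c5316 c16365 c5236 c1274 c5465 c5466 c5579 (k8 c5580 c14138 c666 c5650 c3601 c2532 c18647 c18556 (k8 c5591 c18619 c17862 c5456 c17725 c1190 c1705 c1710 (k1 c3588 k0))))))) (by decide +kernel)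
def c18649 : PP 9 3 T 0x1000000000000018000020080000000000000000040004000200000000000000000000000000000000000000000000000000000000000000000040000002 := rS 0xf37ba6dfa1d3388cc207 (k8 c5432 c661 c9731 c5487 c5486 c5405 c7393 c8123 (k2 c18626 c17966 k0)) (by decide +kernel)
def c18650 : PP 9 3 T 0x1000000000000018000020080000000000000000040004000200000000000000000000000000000000000000000000000000000000000000000000000012 := rS 0x352db41ec9a4eaa9e66d4c878c6c72b8cc6237889ed0e6b3cbf43a672f85cc20762964ea5d419a4ca85 (k8 c18349 c18353 c18347 c18355 c17796 c18354 c18352 c18348 (k8 c5432 c661 c5433 c1054 c5487 c5486 c5405 c5524 (k8 c5523 c5373 c5372 c5371 c5435 c5434 c5316 c5313 (k8 c5357 c5355 c18649 c2317 c2316 c2532 c10497 c1082 (k4 c3598 c17966 c1190 c2101 (k2 c1705 c10897 k0)))))) (by decide +kernel)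
def c18651 : PP 9 3 T 0x59000120040000000000000200040000000200000000010000000000000000000000000000000000000000000000000000000000000002 := rS 0x3546ad04d7848a3a70927e4b57b3cd541e36b7da6e36b887c472198fc623d43834d6fd33aa446250890c831d23a74c511419a4ca85 (k8 c18349 c18353 c18347 c18355 c5371 c16365 c1274 c5562 (k8 c5341 c5340 c5561 c5558 c5559 c9731 c5489 c5487 (k8 c5405 c5523 c5522 c5373 c5436 c5434 c5318 c5316 (k8 c17749 c5236 c14138 c5465 c5466 c5579 c5580 c666 (k8 c5650 c3601 c2532 c1085 c1345 c18556 c5588 c5591 (k8 c17862 c503 c5456 c17725 c1190 c1705 c1710 c3588 k0)))))) (by decide +kernel)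
def c18652 : PP 9 3 T 0x1000000000000019000120040000000000000200040004000200000000000000000000000000000000000000000000000000000000000000000040000002 := rS 0x226137f1fbe6e28182c923b79385be207ba6cae3f1b83d220d3ca3dfa1d3388c22412591d3b11f7acd3e27409cf6d014621cc485 (k8 c18349 c16365 c5373 c18648 c2141 c18651 c5419 c937 (k8 c5570 c5572 c5574 c5505 c5371 c1274 c5562 c5342 (k8 c5340 c5558 c9731 c5487 c5486 c5405 c5526 c5524 (k8 c5522 c5374 c5369 c5435 c5318 c5313 c7393 c8123 (k8 c5650 c13097 c13096 c17966 c341 c344 c2530 c2627 (k4 c17934 c18062 c17330 c5694 (k2 c2917 c2570 (k1 c12614 k0)))))))) (by decide +kernel)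
def c18653 : PP 9 3 T 0x400000000018000020000000000000000200040004000200000000000000000000000000000000000000000000000000000000000000000000000010 := rS 0x3fbe712551b4421e5aac4e62759eda03ef4664fdbb1389bc222588a1d226b47e85fa1d11800061a42a0cd265 (k8 c18353 c18347 c18355 c18349 c18643 c1109 c5642 c9731 (k8 c5486 c5405 c18539 c5526 c5523 c5374 c5373 c5371 (k8 c5559 c5558 c1060 c667 c18644 c18645 c18650 c18648 (k8 c5505 c2141 c18651 c5574 c5570 c5419 c5421 c5422 (k8 c18652 c58 c2316 c10497 c13749 c15948 c6368 c2570 k0))))) (by decide +kernel)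
def c18654 : PP 9 3 T 0x2000000000000008000120000000000000000100040000000000100000000000000000000000000000000000000000000000000000000000000000000002 := rS 0x8230946f2491c41f336034d667549c5662758ed8ca69 (k8 c18347 c18353 c5212 c5421 c5570 c5574 c5571 c5489 (k8 c5487 c5523 c5522 c17916 c17760 c666 c2422 c344 (k4 c18580 c5660 c18613 c12638 (k1 c702 k0)))) (by decide +kernel)
def c18655 : PP 9 3 T 0x8000120000000000000000100040004000000100000000000000000000000000000000000100000000000000000000000000000000006 := rS 0x10189fbbe4432291c2424089b90e9106a3d5aaf339c4e6b1db2250a8345964ca69 (k8 c18347 c18353 c18352 c18350 c18355 c18349 c18356 c5212 (k8 c5421 c5419 c5571 c5487 c5406 c5490 c5526 c5522 (k8 c5374 c5373 c18613 c14568 c1060 c1061 c13598 c2968 (k4 c2808 c18580 c5658 c5547 (k2 c5592 c18000 k0))))) (by decide +kernel)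
def c18656 : PP 9 3 T 0x400000000018000020000000000000000000040004000200000000000000000000000000000000000000000000000000000000000000000000000010 := rS 0x166c791bdee2524913e443f7a33db1d5aac4e6b338edab2000186b42af7e99d0a65 (k8 c18353 c18349 c5487 c5405 c5406 c18539 c18643 c1109 (k8 c5642 c18653 c5212 c5571 c5574 c5419 c5421 c5422 (k8 c2161 c18654 c18655 c5505 c12616 c5171 c5658 c5588 (k4 c2968 c503 c1060 c17966 (k2 c17922 c2530 (k1 c665 k0)))))) (by decide +kernel)
def c18657 : PP 9 3 T 0x2000020000000000000000000080000000200000000001000000000000000000001000050000000000040000000000000000000000002 := rS 0x33fc29c63b34b6766498c72313d9e4be173081fdaaa3682e226b43e610a6534b14ea83 (k8 c18355 c18354 c18348 c18347 c18353 c18349 c18346 c5373 (k8 c5523 c5371 c5516 c665 c3601 c17916 c5432 c661 (k8 c5433 c1054 c5524 c5372 c5434 c5317 c5395 c5396 (k8 c18020 c15018 c2075 c14679 c18019 c5458 c1650 c11432 k0)))) (by decide +kernel)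
def c18658 : PP 9 3 T 0x41000000000000051000100040000000000000200000000000200000100001000000000000000000008000000000000000000000001000400000000000002 := rS 0x3546ad022a69fe995a2cfc3037034dc6d78ab7fc472198e47e311b8f4224320c753a62 (k8 c16365 c1274 c5341 c5340 c5561 c5558 c5436 c5435 (k8 c5434 c5318 c5317 c5316 c17749 c5236 c14805 c1290 (k8 c5465 c5466 c5579 c17960 c2200 c5460 c2899 c5685 (k8 c5802 c2572 c5679 c9612 c1190 c1704 c1711 c3588 k0)))) (by decide +kernel)
def c18659 : PP 9 3 T 0x20000000000000000000000000000000000000008000000000000000001440000000000000055000000000000000000000000000 := rS 0x44e2b11489ad1e85 (k8 c18349 c5526 c5523 c5374 c5371 c3010 c2570 c3604 k0) (by decide +kernel)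
def c18660 : PP 9 3 T 0x18000120000000000000000200080000000200000000000000000000000000000000000000000000000000000000000000000000000002 := rS 0x203ef7fa316ab139acf6db1557b4e26f36c450e6b57a5dfa674aaa7262508fccae0b1b91c923b419a4ca85 (k8 c18349 c18353 c18347 c18355 c5332 c5334 c5520 c5435 (k8 c5516 c5313 c18062 c5558 c5559 c13294 c5489 c5488 (k8 c5487 c5405 c5404 c5406 c5523 c5373 c5371 c665 (k8 c1060 c667 c17916 c3601 c18657 c18658 c5574 c5419 (k4 c5421 c5422 c18613 c18659 (k2 c5505 c2141 (k1 c6368 k0))))))) (by decide +kernel)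
def c18661 : PP 9 3 T 0x12000120000000000000000200080000000200000000000000000000000000000000000000000000040000000000000000000000000008 := rS 0x3f205c7e1f19c1387d8aedd32610c8e47e171e83d228f1488f27f32b82c6e47248ec420d (k8 c5522 c265 c5332 c5334 c5520 c5435 c5516 c5313 (k8 c18062 c13294 c5331 c8199 c5526 c5374 c5369 c5436 (k8 c5433 c5318 c5317 c5315 c5445 c5447 c17858 c17091 (k8 c17814 c17923 c17872 c16245 c5458 c1778 c751 c5670 (k1 c16323 k0))))) (by decide +kernel)
def c18662 : PP 9 3 T 0x41008400000000059000100000000000000000200000000000200000000000000000200000000000000000000000004050000000001000000000000000018 := rS 0x9d4fa6e02608a110dc190bbc54265 (k8 c18353 c5578 c5401 c5433 c5315 c5666 c14312 c17872 (k4 c17836 c3066 c1191 c18618 (k2 c1696 c13096 k0))) (by decide +kernel)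
def c18663 : PP 9 3 T 0x51000120000000000000000000000000000000000000000000000200000000000000000400000000044002000000000000000000000000 := rS 0x1307d4e9ed23e1 (k4 c5460 c5374 c5372 c1696 (k2 c1580 c5679 (k1 c15963 k0))) (by decide +kernel)
def c18664 : PP 9 3 T 0x41000400000000059000020040000000000000000000000000200000000000000000200000000000000000400100000062000000000000400000000000008 := rS 0x202b57fb3138d14c8d0bc611985c627978a5d52630db2da7e2d0f84de65 (k8 c18353 c65 c5460 c18539 c5236 c5579 c5464 c1109 (k8 c9752 c5489 c5404 c5401 c5524 c5434 c5433 c5316 (k8 c18663 c5663 c14092 c1520 c1704 c5679 c11160 c3013 (k2 c1342 c2077 (k1 c18607 k0))))) (by decide +kernel)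
def c18665 : PP 9 3 T 0x41000400000000059000020040000000000000000000000000200000000000050000200000000000000000000100000062000000004000400000440000008 := rS 0x1e6ab81405a2ff6a7bd687d3bb3d665f4d21cd68f78bf43a675498c362106b7d02d73fb4fc5a18aa45168344b14ea65 (k8 c18353 c18354 c18348 c18356 c18355 c18350 c5374 c3048 (k8 c18539 c5236 c5579 c5577 c5465 c5463 c14805 c5522 (k8 c265 c1109 c9752 c5489 c5487 c5486 c5405 c5401 (k8 c5526 c5523 c5373 c18664 c1119 c2496 c4700 c11141 (k8 c2871 c5685 c17990 c3608 c4711 c1711 c3073 c18077 (k2 c1190 c2627 (k1 c3581 k0))))))) (by decide +kernel)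
def c18666 : PP 9 3 T 0x1000400000000059000020040000000000000000000000000200001000000000000200000000000008000400000000044000000000000400000000000008 := rS 0x1a2cd1a324c2330b8c742f14b98c3665 (k8 c18353 c1109 c9752 c5404 c5401 c18539 c5434 c5433 (k4 c5316 c18663 c10171 c14092 (k2 c2075 c1704 (k1 c15133 k0)))) (by decide +kernel)
def c18667 : PP 9 3 T 0x41000400000000059000020040000000000000000000000000200000000000050000200000000000000000000100000060000000004000400000440000008 := rS 0x7fb51687d3bb41665f4d2a8db11439adfa675498dbe816b9fda7e2d09be2a9162a24ea8b419a4ca85 (k8 c18349 c18353 c18347 c18355 c18350 c18354 c18356 c18348 (k8 c5374 c3048 c65 c18539 c5236 c5579 c5577 c5465 (k8 c5463 c14805 c9752 c5489 c5487 c5405 c5523 c5373 (k8 c5371 c18665 c3601 c18666 c1119 c2496 c1190 c11141 (k4 c2871 c5685 c3608 c2572 (k1 c1711 k0)))))) (by decide +kernel)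
def c18668 : PP 9 3 T 0x41000400000000059000020040000000000000200000000000200000000000050000000000000000000000000000000040000000001000400000440000018 := rS 0x461c1c0dff10e46e7bd099c824b (k8 c5342 c5340 c5487 c18539 c5372 c5435 c5317 c5236 (k4 c14805 c17960 c18662 c18667 (k1 c753 k0))) (by decide +kernel)
def c18669 : PP 9 3 T 0x400000000018000020000000000000000200080000000200000000000000000000000000000000000000000000000000000000000000000000000010 := rS 0xab79bfe03ef8a111622759edb63ed1086c047300fcc96252b8dc1a29d0abde2fd0eaa4761f11bdc920b7a91f2665 (k8 c18353 c13294 c5520 c5519 c5516 c5334 c5333 c5331 (k8 c5517 c5332 c5489 c5486 c5405 c5401 c5406 c18539 (k8 c8199 c5522 c5435 c5313 c5559 c5342 c18062 c18660 (k8 c9719 c5642 c1109 c265 c17763 c18661 c18668 c5574 (k8 c5570 c5421 c17812 c17941 c17816 c3066 c3010 c15063 (k2 c6368 c3581 k0)))))) (by decide +kernel)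
def c18670 : PP 9 3 T 0x98000120000000000000000000080000000200000000000000000000000000000000000000100000000000000000000000000000000002 := rS 0xd01a269aed36ab8c824322c74967c501fc2424089b8663f188f41a7956abc767159a7d6203551b4166b43a762281311840fb154a54cefd4be4cbe1739a251659329a50a83 (k8 c18355 c18349 c18347 c18353 c18352 c18350 c18356 c5419 (k8 c5433 c1054 c13294 c5404 c5405 c5487 c5488 c5489 (k8 c18657 c5432 c661 c5663 c937 c5371 c1274 c5373 (k8 c5523 c5516 c665 c3601 c28 c5421 c5572 c5574 (k8 c5571 c5332 c5406 c5490 c5524 c5522 c5436 c5434 (k8 c5318 c5316 c18613 c14568 c1060 c1061 c2920 c1175 (k8 c1176 c12638 c13277 c2968 c2808 c298 c17330 c3000 (k4 c2827 c1550 c15026 c3588 (k2 c1190 c1704 k0))))))))) (by decide +kernel)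
def c18671 : PP 9 3 T 0x4000000000000000000000000000000000000100000004000000000000000000000000000000000040000000000000008000000000040000000000000002 := rS 0x11d228484859 (k4 c18352 c1060 c1061 c2968 (k2 c299 c5658 k0)) (by decide +kernel)
def c18672 : PP 9 3 T 0x18000120000000000000000100080004000200000000000000000000000000000000000000000000000000000000000000000000000002 := rS 0x3ffe66f8090fde8c551b6228735abdfa675482ce2b339ac56bb6419a4ca85 (k8 c18349 c18353 c18347 c18355 c5212 c5422 c5421 c5419 (k8 c5574 c5571 c5516 c5489 c5487 c5405 c5406 c5523 (k8 c5373 c5371 c665 c3601 c18670 c5505 c12616 c2141 (k4 c18671 c17922 c18659 c6368 k0)))) (by decide +kernel)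
def c18673 : PP 9 3 T 0x40000000000a000000000000000000000000080000000200000000000000000000000000000000000000000000000000000000000000000104000000 := rS 0x3cd56cc67f85a29c1a26592390bbc52efd0eaa4761f11bddebed (k8 c17763 c5519 c5333 c5331 c5517 c5332 c5489 c5486 (k8 c5405 c5404 c5401 c5433 c5317 c5396 c5447 c17756 (k8 c17923 c1704 c5458 c1650 c5688 c2075 c2500 c3581 k0))) (by decide +kernel)
def c18674 : PP 9 3 T 0x41000000000000000000100000000000000000100000000000000000000000009000000000000000050000000100000008000000001400000001554001000 := rS 0x223fc87038a04a3a4b088a5662758ad76c89 (k8 c18356 c5212 c5422 c5421 c5570 c5574 c8199 c2745 (k8 c12638 c13277 c12617 c3584 c2627 c2808 c3010 c3582 (k1 c9612 k0))) (by decide +kernel)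
def c18675 : PP 9 3 T 0x1000400000000019000020040000000000000000000000000200000000000000000000001000000004000400000080018000000000000400000400000008 := rS 0xf0271a29949978c217359e5e2970d8841a65 (k8 c18353 c5522 c265 c1109 c5404 c5401 c5524 c5523 (k8 c5433 c728 c2920 c262 c1520 c14987 c18034 c11160 (k1 c5458 k0))) (by decide +kernel)
def c18676 : PP 9 3 T 0x8000000000089000100000000000000000000000000000200000000000000000000100000000000000000100040000000000000000000000000020008 := rS 0x1dcce7d1ea040ec5459d51265 (k8 c18353 c18356 c18354 c18350 c18348 c5432 c699 c5436 (k4 c2747 c5487 c18083 c17987 k0)) (by decide +kernel)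
def c18677 : PP 9 3 T 0x100000004000000100000000000000000200000000000000000000000000000000000101000000000000000 := rS 0x87ef (k2 c5585 c2778 (k1 c5658 k0)) (by decide +kernel)
def c18678 : PP 9 3 T 0x1000400000000019000020040000000000000000000000000200000000000000000000001000000004000000000080018000000000000400000400000008 := rS 0x9a309b2226b54bf4ce8742994d283 (k8 c18355 c18347 c18353 c18349 c5373 c5487 c5405 c5489 (k4 c5523 c5371 c3601 c728 (k2 c18675 c2493 k0))) (by decide +kernel)
def c18679 : PP 9 3 T 0x1000000000011000020040000000000000000000000000000000400000000000440000000000000004400000150000002000000000000000000000000 := rS 0x1c2c73ca3d3a7b (k4 c5372 c1696 c5526 c5524 (k2 c727 c13096 (k1 c5910 k0))) (by decide +kernel)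
def c18680 : PP 9 3 T 0x8000000000008001100000000000000400100000000000000000000000000000000000000000000000000000000000000000000000000000000000000 := rS 0x42a1aefdc7d963b6 (k8 c5212 c5421 c5223 c5213 c5597 c5640 c17817 c17778 k0) (by decide +kernel)
def c18681 : PP 9 3 T 0x8400000000018000100000000000000400100000000000000000001000000000000000100004004000008000000002000000000000010002000000008 := rS 0x6eb67e2c2517d05cb9158b577b9c0c8717a4c199d2b917cbecd265 (k8 c18353 c18347 c18357 c18351 c5491 c5488 c5487 c5407 (k8 c18680 c5390 c5606 c5607 c17936 c2663 c269 c1115 (k8 c17724 c5652 c5686 c587 c586 c17821 c3288 c1612 (k1 c5781 k0)))) (by decide +kernel)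
def c18682 : PP 9 3 T 0x8400000000018000020000000000000000100000000000200000001000000000000000100004004000008000000008000000058000010002440020408 := rS 0xb576b9bbafa498d93c6f4bf7298af565117d987e71db684420d36444d6a97e99d0f2342994d283 (k8 c18355 c18347 c18353 c18349 c5009 c5373 c5487 c5405 (k8 c5489 c5523 c5371 c3601 c5522 c265 c18539 c5212 (k8 c5571 c5318 c18681 c5347 c5350 c5600 c5601 c5605 (k8 c17776 c17719 c2687 c705 c2753 c5677 c3096 c765 (k4 c1305 c2664 c270 c3585 k0))))) (by decide +kernel)
def c18683 : PP 9 3 T 0x41000400000000019000020040000000000000100000004000200000000000050000000000000000004000000100000000000000051400400000440000409 := rS 0x5fb48dbf2b76f3a9c7b65c8a252e2f0307dcad992d06333d329a491dc11093016c94fe1ac7087ef6f905a9e171f88ff13409f4204512335e46c2b86466390385c62371e83e227b439acf38956abde2fd0e99d2aa9c8a7efa1b10834dc71db685f6f9629d4b25d429950669 (k8 c18347 c18355 c18353 c18349 c17796 c18352 c18354 c18348 (k8 c18351 c18357 c18539 c5212 c5571 c18613 c5522 c265 (k8 c1109 c9704 c5572 c5491 c5489 c5488 c5487 c5486 (k8 c5405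 c5401 c5406 c5490 c5527 c5524 c5523 c5373 (k8 c5372 c5371 c5369 c5436 c5435 c5434 c5433 c5432 (k8 c5317 c5316 c5315 c5313 c3601 c3581 c2500 c18674 (k8 c2968 c12632 c2747 c699 c703 c18678 c5670 c17330 (k8 c13945 c18676 c5462 c5580 c5585 c2778 c18677 c5281 (k8 c555 c554 c2159 c14092 c4781 c11199 c10409 c1573 (k8 c18679 c98 c4700 c2492 c5688 c2133 c18682 c5616 (k8 c3302 c3238 c2465 c3331 c2499 c2498 c2137 c1582 (k8 c990 c731 c1612 c5622 c3383 c5237 c3609 c5389 k0)))))))))))) (by decide +kernel)
def c18684 : PP 9 3 T 0x41000000000000000000100000000000000000100000000000000000000040001000000000000000050000000100000000000000001400000000554011001 := rS 0x111fe438a094251d258a5662758ad76c89 (k8 c18356 c5212 c5422 c5421 c5570 c5574 c8199 c12638 (k8 c13277 c12617 c12632 c3584 c2808 c3010 c3582 c9612 k0)) (by decide +kernel)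
def c18685 : PP 9 3 T 0x1000400000000019000020040000000000000000000000000200000000000000000000000000000008000000000080018000000000000400000400000008 := rS 0x3c09c68b3536991a324bc611985c626b3cbc52e630d8841a65 (k8 c18353 c5522 c265 c1109 c9752 c5404 c5401 c5524 (k8 c5523 c5434 c5433 c5316 c728 c2920 c10171 c14092 (k4 c1520 c1119 c2075 c1704 (k2 c18034 c11160 (k1 c5458 k0))))) (by decide +kernel)
def c18686 : PP 9 3 T 0x800000000000800110000010000000000010000000000020000000000000000000000000000000000000000000000a000000058000000000540020008 := rS 0x16e2d5dae701775f4931b278dfdca62bd59445f661f9c76d23 (k8 c5009 c5212 c5571 c5318 c18680 c5347 c5350 c5600 (k8 c5601 c5605 c17776 c2687 c705 c2753 c5677 c3096 (k4 c765 c3097 c1305 c2664 (k2 c270 c3238 (k1 c3585 k0))))) (by decide +kernel)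
def c18687 : PP 9 3 T 0x800000000001800012000000000000000010000000000020000000000000000000000000000000000000000000000a000000058000000000440020408 := rS 0x24f1b2a8b8562d5dee6cf8dc0c8717a448a3f1229c199f22bddb0841b137cbecd265 (k8 c18353 c18347 c18357 c18351 c703 c5522 c265 c5212 (k8 c5575 c5491 c5487 c5407 c8199 c5527 c5526 c5374 (k8 c18686 c5390 c5606 c5607 c5611 c17719 c17936 c2663 (k4 c269 c1115 c5652 c569 (k2 c2688 c706 (k1 c15139 k0)))))) (by decide +kernel)
def c18688 : PP 9 3 T 0x8000000000008001100000000000000000100000000000200000000000000000000000000000008000000000000009000000058000000000540020008 := rS 0x176b716ae701775f4931b278dfdca62bd59445f661f9c76d23 (k8 c5009 c5212 c5571 c5318 c18680 c5347 c5350 c5600 (k8 c5601 c5605 c17776 c2687 c705 c2753 c5677 c3096 (k4 c765 c3097 c1305 c270 (k2 c3239 c4036 (k1 c3585 k0))))) (by decide +kernel)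
def c18689 : PP 9 3 T 0x40000400000000018000020000000000000000100080004000200000000000000000000000000000000000000100000000000000000000000000000000008 := rS 0x24eef2aa8af22e528ac5bb9b3e370321d4e3e4ba436a48104a66bc8c0fe2d8d63843f7b51d6df76907c47f22a04fa1081aa8dc57198e40e17188dc7a0f3da1cf22956abde3830e99f223b0f88dee492782dea4726e4ce29f58ed803a1f6ec4420d0dbe5f669329d58a592ea17308b (k8 c18350 c18346 c18349 c17796 c18352 c18348 c18354 c18353 (k8 c18347 c18357 c18351 c1109 c5522 c265 c18673 c17763 (k8 c18539 c18672 c5212 c5421 c5572 c5571 c13294 c5521 (k8 c5520 c5519 c5516 c5335 c5334 c5333 c5331 c5517 (k8 c5332 c5491 c5487 c5486 c5407 c5401 c5406 c5490 (k8 c8199 c5524 c5373 c5372 c5369 c5436 c5435 c5434 (k8 c5433 c5432 c5317 c5316 c5313 c18613 c18683 c2199 (k8 c18684 c2747 c699 c2966 c18685 c5670 c5462 c5467 (k8 c5580 c5581 c18676 c5585 c2778 c18677 c5281 c2159 (k8 c6335 c14092 c17728 c2506 c554 c11199 c1573 c18687 (k8 c18688 c5391 c5608 c5388 c5606 c5607 c5611 c17719 (k8 c17936 c269 c1115 c7364 c5652 c731 c587 c569 (k2 c1615 c706 (k1 c3612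 k0)))))))))))))) (by decide +kernel)
def c18690 : PP 9 3 T 0x89000100040000000000000000000000000200200000000000000000000000000000000000000100000001000000000000000000000009 := rS 0x24c3665 (k4 c18353 c1109 c262 c18636 k0) (by decide +kernel)
def c18691 : PP 9 3 T 0x8000000000008001100000000000000000100000000000204000000000000000000000000000000000000200000000000000000000000000000020200 := rS 0x1badba3b66197e926364fa9fb94f5fabb7b0ecc331fb0463ad6bbb46a41f790c8a8b (k8 c18350 c2966 c12616 c5505 c5462 c5281 c5467 c5465 (k8 c5437 c5434 c5319 c5318 c5316 c18680 c5348 c5349 (k8 c5600 c5603 c5605 c17776 c1801 c705 c2753 c5677 (k4 c1010 c1011 c2094 c3491 (k2 c3496 c2209 (k1 c3589 k0)))))) (by decide +kernel)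
def c18692 : PP 9 3 T 0x40000400000000018000020000000000000000100080000000200000000000000000000040000000004000000200000000000000000000000001000000009 := rS 0x49e3655170ac5abbdcd9f1b8190e2f49e23f982471c3ec4d021009928103d48a3c52afc1e449e0b26e4d7bb6d0fb763ef809b2226b33a1de4f57886c3e1d1083446fd7baa5f2fb349950a83 (k8 c18355 c18349 c18353 c18347 c18357 c18351 c5489 c5333 (k8 c5405 c5331 c5522 c265 c5486 c5517 c1109 c5401 (k8 c5519 c3581 c5373 c5487 c5523 c5371 c3601 c2141 (k8 c5505 c18673 c17763 c18539 c5212 c5575 c13294 c5521 (k8 c5516 c5335 c5491 c5407 c5406 c8199 c5526 c5374 (k8 c5436 c18639 c15063 c301 c12638 c1745 c12633 c2747 (k8 c702 c3803 c18690 c17682 c5670 c18691 c5390 c5606 (k8 c5607 c5611 c17719 c17936 c2663 c269 c1115 c5652 (k4 c569 c2688 c706 c15139 k0))))))))) (by decide +kernel)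
def c18693 : PP 9 3 T 0x40000400000000018000020000000000000000100080004000200000000000000000000000000000004000000000000000000000000000000000000000008 := rS 0x4af1204fb1c3f8408a6e12335e46c1c81c7b11439ad5ef17e874cea91d87c46f72782dea4dc99c76c01d0fb762210686da7ef1990d183f419a4ca85 (k8 c18349 c18353 c18347 c18355 c5318 c18689 c12616 c5316 (k8 c5505 c15747 c1109 c5522 c265 c18673 c17763 c18539 (k8 c18672 c5212 c5571 c13294 c5521 c5519 c5516 c5335 (k8 c5333 c5331 c5517 c5332 c5489 c5487 c5486 c5405 (k8 c5401 c5406 c5523 c5373 c5371 c5436 c5432 c5317 (k8 c3601 c3581 c2500 c18692 c1113 c2968 c12632 c18678 (k4 c5658 c2747 c699 c5670 (k2 c554 c18687 k0)))))))) (by decide +kernel)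
def c18694 : PP 9 3 T 0x100000000000000000000000000000000001000000000000000000000001400000000000000000000000001400000004540011001 := rS 0x949629 (k4 c8199 c12638 c12632 c3584 k0) (by decide +kernel)
def c18695 : PP 9 3 T 0x18000120000000000000000100080000000200000000008000000000000000000000000000200040004000400000000000000000020018 := rS 0x93c6caa2e158b577b9b3e370321c5e9246f225020d8251fa451e29c199f22232782c9a7159a7d7acb139cd6bb6318841b1557c4e384150f8902073e8f726f97d9a4ca85 (k8 c18349 c18353 c18347 c18357 c18351 c13294 c5436 c2747 (k8 c5432 c699 c5670 c5578 c5462 c702 c2570 c5406 (k8 c3010 c5522 c265 c9752 c5212 c5422 c5419 c5570 (k8 c5420 c5575 c5572 c5574 c5571 c5521 c5516 c5335 (k8 c5331 c5491 c5487 c5407 c8199 c5526 c5374 c5318 (k8 c1113 c18659 c10308 c17941 c2568 c3803 c18691 c5390 (k8 c5606 c5607 c5611 c17719 c17936 c2663 c269 c1115 (k4 c5652 c569 c2688 c706 (k1 c15139 k0))))))))) (by decide +kernel)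
def c18696 : PP 9 3 T 0x8000000000008001100000000000000000100000000000204000000000000000000000200000000000000200000400000000000000000000000020000 := rS 0x6eb6e8ed9865fa498d93fdca7afd5dbd8766198fd8231d6bb46a41f790c8a8b (k8 c18350 c2966 c12616 c5505 c5462 c5281 c5467 c5437 (k8 c5434 c5319 c5318 c5316 c18680 c5348 c5349 c5600 (k8 c5603 c5605 c17776 c705 c2753 c5677 c1010 c1011 (k4 c2093 c3491 c3496 c4556 (k1 c3589 k0))))) (by decide +kernel)
def c18697 : PP 9 3 T 0x40000400000000018000020000000000000000000000004000200000000000000000000000000000000000000000000000000000000000000000000000010 := rS 0x1df2729156f22e528ac5bb9b3e370321d4e3e4ba491890dcc84d3adbeedf0b8fc4773f97cc11c409f421138abf95501f7a3032071ea1cf22957e0c3a67c887c46492782c8f9359a7c4eb15aedb62210686c0401ace8694f97d9a4ca85 (k8 c18349 c18353 c18347 c18357 c18351 c18656 c18539 c18669 (k8 c18672 c5642 c1109 c5522 c265 c18673 c5212 c5422 (k8 c5421 c5570 c5572 c5574 c13294 c5520 c5516 c5335 (k8 c5334 c5331 c5517 c5491 c5487 c5486 c5407 c5406 (k8 c8199 c5524 c5373 c5436 c5432 c5315 c18689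 c5505 (k8 c2141 c18693 c6368 c3010 c2570 c18694 c2747 c699 (k8 c702 c18690 c62 c17682 c10409 c5670 c17330 c13945 (k8 c5467 c5580 c5581 c18679 c1189 c18695 c2745 c5009 (k8 c18696 c5391 c5608 c5388 c5606 c5607 c5611 c17719 (k8 c17936 c269 c1115 c7364 c5652 c731 c569 c1362 (k2 c706 c2798 (k1 c3612 k0)))))))))))) (by decide +kernel)
def c18698 : PP 9 3 T 0x20000000000000000100080004000000000400050000000000000000000000000000100000000000000004100000000000000000 := rS 0x1e65b8e3f90e914791f3083 (k8 c18355 c18346 c5520 c5526 c5374 c5373 c18001 c11059 (k2 c2159 c554 (k1 c17728 k0))) (by decide +kernel)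
def c18699 : PP 9 3 T 0x400000000018000020000000000000000000000004000200000000000000000000000000000000000000000000000000000000000000000000000010 := rS 0x40f11fcc11c46204fa450809202e18ac0dc71325fcb62210d80802b513acf6d59c991c16491187c774a5781c7a0f068a74265 (k8 c18353 c18539 c8199 c5522 c5369 c5436 c5432 c5406 (k8 c18656 c5332 c5517 c5331 c5334 c5516 c5520 c13294 (k8 c18669 c5212 c5574 c5570 c5422 c18672 c5642 c1109 (k8 c265 c18673 c18697 c5546 c5547 c5549 c5550 c5590 (k8 c5591 c5592 c17998 c18694 c2968 c2747 c699 c18698 (k4 c702 c18690 c17682 c5670 (k2 c9121 c5462 k0))))))) (by decide +kernel)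
def c18700 : PP 9 3 T 0x2000000000000004000000000000000000000200000004000000000000000001000080000000000040000080000000000000000001000000000200400000 := rS 0x111ea1c8186daef780bcdfe47 (k8 c5562 c5544 c5540 c5502 c5498 c1768 c1073 c2517 (k4 c5649 c2421 c18038 c336 k0)) (by decide +kernel)
def c18701 : PP 9 3 T 0x40000000000000016000120000000000000000200040004000200000000000000000000000000000000000000100000000000000000000000000200000012 := rS 0x81c99d92e7df1b78fe6757c549272dba652a634fa4c323f88a3c53ec08bc4465f0b87d6a4b349958a75 (k8 c18354 c18348 c18353 c18347 c5342 c2608 c58 c5433 (k8 c1054 c9731 c9696 c5558 c5228 c8199 c5526 c5371 (k8 c5318 c5315 c5444 c5448 c5395 c5446 c5447 c17858 (k8 c17749 c12405 c1290 c1245 c931 c806 c18362 c5580 (k4 c2829 c18700 c18020 c5356 (k2 c938 c5670 k0)))))) (by decide +kernel)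
def c18702 : PP 9 3 T 0x51000120040000000000000000000000000200000000000000000000000000000000000000000000000000000000000000001200000002 := rS 0x4e18a220d2f85cc207 (k8 c5432 c661 c5433 c1054 c5522 c5371 c5663 c14138 (k1 c1274 k0)) (by decide +kernel)
def c18703 : PP 9 3 T 0x40000400000000051000020000000000000000200040004000200000000000000000000000000000000000000000000000000000000000000000200000012 := rS 0x11606f50e2c436964ab2538cb71f8999e1c92c95f1524b7ce41788e8556f768c05e6cf7ffb366250890e3a477888c3eb525a158a69 (k8 c18347 c18348 c18349 c5342 c2608 c58 c9731 c9696 (k8 c5562 c5341 c5561 c5558 c5559 c18699 c5228 c5544 (k8 c5543 c5540 c5502 c5501 c5498 c11079 c18539 c5371 (k8 c5433 c17749 c14805 c12405 c1290 c1245 c5685 c18702 (k8 c10922 c17834 c5198 c4649 c5464 c18366 c1275 c1698 (k8 c5678 c1073 c1333 c5649 c2421 c2461 c336 c3593 k0)))))) (by decide +kernel)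
def c18704 : PP 9 3 T 0x42000400000000005000000000000000000000200000004000200000000000001000040100000000010000040000000000000000000000000004204000000 := rS 0x35da6451aa51ea1c198fc623d7bb45e6cf219063a49 (k8 c344 c5341 c5340 c5561 c5543 c5540 c5501 c5498 (k8 c5436 c5434 c5318 c5316 c5649 c2421 c9823 c332 (k4 c335 c2018 c16068 c3588 k0))) (by decide +kernel)
def c18705 : PP 9 3 T 0x80000000000000000000000000000000000000000000000000000000000000000000000000100000014000000000000000001008000010 := rS 0xaf339cd62ad45a24d265 (k8 c18353 c18347 c18356 c18350 c5573 c5421 c5419 c1903 (k2 c1077 c3602 k0)) (by decide +kernel)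
def c18706 : PP 9 3 T 0x42000400000000015000000000000000000000200000004000200000100000001000000000000000410004000000000000008000000000000004204000000 := rS 0xd44a37d2e9d19a6c7269 (k8 c18347 c5317 c2490 c5316 c1274 c1229 c13097 c9823 (k2 c18704 c1589 k0)) (by decide +kernel)
def c18707 : PP 9 3 T 0x40000400000000010000020000000000000000200040004000200000000000000000000000000000000000000100000000000000000000000000200000012 := rS 0x201a8a169a55c69c4cb33c7e13f9f72463817bc8ac97a8703649569cc4ecb4facf6db14d8cc7311d0bdda30179b3dffecd990e3a4b23bc4be173081ce211378958a85 (k8 c18349 c18348 c5559 c1060 c5558 c667 c5432 c661 (k8 c5433 c1054 c9696 c5562 c5342 c5341 c5561 c18699 (k8 c5228 c5544 c5543 c5540 c5502 c5501 c5498 c18539 (k8 c5371 c5317 c5316 c2490 c18701 c18703 c5574 c5572 (k8 c5420 c5570 c5419 c5573 c344 c18705 c5649 c2421 (k8 c2061 c335 c17892 c3593 c18706 c16365 c5442 c5358 (k8 c10922 c16071 c17834 c2441 c5679 c6448 c1698 c2088 (k4 c5869 c10379 c3599 c1658 k0)))))))) (by decide +kernel)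
def c18708 : PP 9 3 T 0x420000000000000120001200000000000000002000000000002000000000000000000000000000000000010001000000010000000000000000000a0000002 := rS 0x355a6ac8135dc6a822b7cfe6757f8568721ab1b6e9b31a7d2619198fc623d889ecd67914b444a11219063a472f85cca69 (k8 c18347 c18353 c5433 c1054 c5562 c5341 c5340 c5561 (k8 c5558 c5559 c5501 c8199 c5524 c5523 c5372 c5371 (k8 c5436 c5434 c5318 c5316 c5315 c5444 c5448 c5395 (k8 c5397 c17858 c17977 c331 c17749 c11939 c5535 c1245 (k8 c931 c806 c2514 c336 c17916 c2620 c10298 c2614 (k4 c2615 c2088 c2890 c3588 k0)))))) (by decide +kernel)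
def c18709 : PP 9 3 T 0x200000000000200000000000000000000440000000020000040000000000000000000100000000020000000 := rS 0x356a8cc7e311e90c831d (k8 c5341 c5340 c5561 c5436 c5434 c5318 c5316 c2891 (k2 c332 c3588 k0)) (by decide +kernel)
def c18710 : PP 9 3 T 0x1000020000000000000000000000000000000000000001000000000000000000000001180000000001001000000000000000000000002 := rS 0xc998d3669 (k4 c18347 c1231 c1229 c17842 (k1 c16365 k0)) (by decide +kernel)
def c18711 : PP 9 3 T 0x40000400000000054000020000000000000000200040004000200000000000000000000000000000000001040100000001000000000000000000080000002 := rS 0x1eff0c08eea833ad0e47968b3c4a1123a5363a11986c388735bf7d8ab88bc7307542994d283 (k8 c18355 c18347 c18353 c18349 c18354 c18346 c9696 c5371 (k8 c11079 c5228 c5542 c5523 c5373 c10497 c57 c5316 (k8 c18539 c18708 c9823 c5562 c5558 c5559 c5543 c5501 (k8 c5524 c17749 c11939 c931 c17916 c2014 c2614 c17952 (k2 c5508 c18365 k0))))) (by decide +kernel)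
def c18712 : PP 9 3 T 0x40000400000000010000020000000000000000200040004000200000000000000000000000000000000000000100000000000000000000000000000000012 := rS 0x18f268063379c7e13bb59a71222b555ab53989d3fb61aa512fb16486d661c8aa75321e36884663f188dc7b1143a44d67947e8556d17eb3fd9b3219063a477888cbe173081ce21137897307542a0cd265 (k8 c18353 c18347 c18355 c18349 c18354 c18346 c5559 c1060 (k8 c5558 c667 c5432 c661 c5433 c1054 c9731 c9696 (k8 c5562 c5341 c5340 c5561 c18699 c5228 c5543 c5542 (k8 c5501 c11079 c18539 c5526 c5524 c5523 c5374 c5373 (k8 c5371 c5436 c5435 c5434 c5318 c5316 c18707 c666 (k8 c5650 c7114 c5855 c15434 c10497 c2321 c57 c2061 (k8 c18708 c18710 c9823 c332 c18711 c5572 c5570 c5419 (k8 c5422 c5573 c1589 c335 c3604 c13297 c3588 c2187 (k8 c17952 c6448 c10298 c8980 c2513 c5357 c937 c5663 k0))))))))) (by decide +kernel)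
def c18713 : PP 9 3 T 0x400000000010000020000000000000000200040004000200000000000000000000000000000000000000100000000000000000000000000000000012 := rS 0x81c4fe48748a3e02fff66cf3083 (k8 c18355 c18346 c18699 c5228 c5544 c5502 c5526 c5374 (k4 c5373 c18712 c5547 c5550 (k1 c18001 k0))) (by decide +kernel)
def c18714 : PP 9 3 T 0x2000000000000004000000000000000000000200000004000000000000000001000000000000000840000000000000000000000001000000000204000000 := rS 0x10222ac5ea1c7bc05e6ff21c749647 (k8 c5562 c5342 c5341 c5561 c5544 c5540 c5502 c5498 (k4 c5649 c2421 c2177 c336 (k2 c3593 c2461 k0))) (by decide +kernel)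
def c18715 : PP 9 3 T 0x40000400000000056000000000000000000000200040004000200001000000001000000000000000040000000200040000000400000000000000600000010 := rS 0x358ecb033ab434976af8dbcb224ad42efff612fde934fb252a99349958a75 (k8 c18354 c18348 c18353 c18347 c5447 c5446 c5396 c5448 (k8 c5444 c5505 c5342 c5228 c5544 c5433 c2608 c345 (k8 c5685 c18362 c5580 c3002 c18700 c18714 c4363 c1903 (k4 c5683 c18020 c15326 c2188 k0)))) (by decide +kernel)
def c18716 : PP 9 3 T 0x40000400000000012000020000000000000000200040004000200000000000000000000000000000000000000000000000000000000000000000000000012 := rS 0x6ab5da6ac71a07c2df228d562c65a0713a1e36884feaf8a9cb6e9b31a7d2619198fc623d889ed0e6b3c8a742ab68bf7d9b31284486418e91de2232f85fde8c419a4ca85 (k8 c18349 c18353 c18347 c18355 c18713 c5505 c5433 c1054 (k8 c9731 c9696 c5562 c5341 c5340 c5561 c5558 c5559 (k8 c18699 c5228 c5542 c5501 c11079 c18539 c8199 c5524 (k8 c5523 c5373 c5372 c5371 c5436 c5434 c5318 c5316 (k8 c5315 c5444 c5448 c5395 c5397 c17858 c17749 c1290 (k8 c1245 c806 c18715 c666 c5650 c5855 c10497 c11939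 (k8 c17977 c2177 c331 c336 c2514 c5535 c941 c2620 (k4 c5683 c2084 c10298 c2890 (k1 c3588 k0))))))))) (by decide +kernel)
def c18717 : PP 9 3 T 0x42000400000000091000020000000000000000200000004000200000000000000000000000000000000000000200000000000000000000000000204000012 := rS 0x201a8a14aa7132d36678fc2773f9f413926498c38331fc4453a1d9b459e417897c2e61039c4226f12fbd363959a7d962739ab58a85 (k8 c18349 c18348 c5573 c5419 c5570 c5420 c5572 c5574 (k8 c5317 c2490 c5505 c5559 c1060 c5558 c667 c5432 (k8 c661 c5433 c1054 c9696 c5340 c5543 c5501 c18699 (k8 c18539 c8199 c5371 c5318 c5316 c5649 c18706 c2061 (k8 c16365 c5438 c5442 c5358 c5356 c10922 c16071 c17834 (k8 c2083 c2441 c5679 c1698 c5869 c10379 c10308 c1658 k0)))))) (by decide +kernel)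
def c18718 : PP 9 3 T 0x40000400000000010000020000000000000000200040004000200000000000000000000000000000000000000000000000000000000000000000200000012 := rS 0x31200ecd26ab8bc6df708ed3ad76425cce950d125627313a7d67b64d8e4623755b3fd9b32092c8e5f0bfbd19b1 (k8 c18716 c18713 c5505 c5433 c1054 c5562 c5342 c5340 (k8 c18699 c5228 c5543 c11079 c5435 c5434 c5317 c2490 (k8 c18703 c5574 c5572 c5570 c5419 c5421 c344 c18717 (k8 c1904 c1903 c1073 c5678 c2189 c1275 c341 c13096 (k8 c13097 c17960 c17934 c1662 c5689 c2083 c2084 c11141 (k1 c937 k0)))))) (by decide +kernel)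
def c18719 : PP 9 3 T 0x4000400000000045000100000000000000000200000000000200000000000000000000000000000000000040000000000000000000000000000020000002 := rS 0x11558d36babfc47208ac63a69 (k8 c18347 c5341 c2177 c5558 c17749 c5196 c1245 c5465 (k4 c5579 c5683 c336 c18709 k0)) (by decide +kernel)
def c18720 : PP 9 3 T 0x40000400000000010000020000000000000000200040004000200000000000000000000000000000000000000000000000000000000000000000000000012 := rS 0x18f268063379c7e1709dfc6d63fb4e24456aab56a7313a7f6c354a3243697598713a990f1b443b1198fc62371ec450e91359e51fa155b45facff66cc86418e91de2232f85cc20738844de25f7a33307542a0cd265 (k8 c18353 c18347 c18355 c18349 c18354 c18346 c18713 c5505 (k8 c5559 c1060 c5558 c667 c5432 c661 c5433 c1054 (k8 c9731 c9696 c5562 c5341 c5340 c5561 c18699 c5228 (k8 c5543 c5542 c5501 c11079 c18539 c5526 c5524 c5523 (k8 c5374 c5373 c5371 c5436 c5435 c5434 c5318 c5316 (k8 c18716 c18718 c666 c5650 c7114 c5855 c10497 c2321 (k8 c18710 c57 c2061 c9823 c332 c18719 c5572 c5570 (k8 c5419 c5422 c5573 c1589 c335 c13749 c13297 c15494 (k8 c3588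 c5465 c2188 c1720 c17952 c6448 c5691 c8617 (k4 c2513 c5357 c937 c5663 k0)))))))))) (by decide +kernel)
def c18721 : PP 9 3 T 0x80000000000000000000120000000000000000200000000000200000000000000000000000000000000000004000000001000000000000000000200000000 := rS 0x163b2b8dc8e49 (k4 c5588 c5562 c5435 c5313 (k2 c340 c2416 (k1 c18062 k0))) (by decide +kernel)
def c18722 : PP 9 3 T 0x80000000000000016000120000000000000000200040000000200000000001000000000000000000004000000200000000000000000000000000000000002 := rS 0x6bb55a6ac409146ab1630713a1e109b55e72dba553e930c8cc7e311ec44f687359e45211219063a232f85fdf13419a4ca85 (k8 c18349 c18353 c18347 c18355 c5547 c5505 c5433 c1054 (k8 c9731 c5341 c5340 c5561 c5558 c8199 c5524 c5523 (k8 c5373 c5372 c5371 c5436 c5434 c5318 c5316 c5315 (k8 c5444 c5448 c5446 c17858 c17749 c1245 c933 c18721 (k8 c5650 c5855 c10497 c17977 c2177 c331 c336 c940 (k4 c5683 c2084 c2890 c2032 (k1 c3588 k0))))))) (by decide +kernel)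
def c18723 : PP 9 3 T 0x84000400000000055000020000000000000000000000000000200000000000000000000000000000000000000000000000000000000000000001200000002 := rS 0x64bc5a1 (k4 c18539 c5196 c18702 c17692 k0) (by decide +kernel)
def c18724 : PP 9 3 T 0x2000000000000004000000000000000000000200000004000000000000040001000000000000000000000000000000000000000001000000004204000000 := rS 0x115ea1c7bc05e6ff21c749647 (k8 c5562 c5342 c5341 c5561 c5544 c5540 c5502 c5498 (k4 c5649 c2421 c335 c3593 k0)) (by decide +kernel)
def c18725 : PP 9 3 T 0x84000400000000015000020000000000000000200040004000200000000000000000000000000000000000000000000000000000000000000000200000002 := rS 0x37c769d6425d2a1a13acf6c9b1c85c63ec55894824778b8e0649 (k8 c5588 c5550 c5549 c9696 c5562 c5340 c5559 c11079 (k8 c5228 c5434 c5433 c5317 c2490 c18723 c5574 c5570 (k8 c18724 c1904 c1073 c5678 c1275 c341 c13097 c17862 k0))) (by decide +kernel)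
def c18726 : PP 9 3 T 0x400000000010000020000000000000000200040004000200000000000000000000000000000000000000000000000000000000000000000000000012 := rS 0x1b63925d661c4ea643c6d10ec56bf2f7a30de713088c0e171bc450e6bd0aadfbecd98942247419a4ca85 (k8 c18349 c18353 c18347 c18355 c5562 c5558 c5559 c18699 (k8 c5228 c5542 c11079 c18539 c5523 c5373 c5371 c5435 (k8 c5433 c5432 c9731 c661 c667 c1060 c18713 c5505 (k8 c18720 c5548 c18722 c18725 c666 c5650 c7114 c5855 (k4 c10497 c2321 c18710 c17922 (k2 c18719 c5419 k0)))))) (by decide +kernel)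
def c18727 : PP 9 3 T 0x42000000000000050000120000000000000000000000000000000001000000000000000000000001100000000100000040000000000000000000000000000 := rS 0x40e26b23821d228f80bff3083 (k8 c18355 c18346 c5544 c5502 c5526 c5374 c5373 c17872 (k4 c5685 c756 c2461 c18001 k0)) (by decide +kernel)
def c18728 : PP 9 3 T 0x42000000000000016000120000000000000000200000000000200000000000000000000000000001100000000100000040000000000000000000900000010 := rS 0x1ef57c09aecc639ddc2caf1a00bcdf13ab4e3141e9ed0e913cb4602cf12905269f50edc7e190b8a73085 (k8 c18349 c18346 c8199 c5433 c5315 c5318 c17858 c5398 (k8 c5448 c5444 c5340 c5559 c5543 c5502 c5501 c5524 (k8 c5374 c5373 c5372 c5436 c18727 c3048 c3052 c3047 (k8 c2950 c12251 c18544 c18620 c3579 c4264 c938 c941 (k4 c18017 c2192 c8709 c1247 (k2 c5508 c5683 k0)))))) (by decide +kernel)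
def c18729 : PP 9 3 T 0x42000400000000016000020000000000000000200000000000200000000000000000000000000001100000000000000040000000000000000000800000018 := rS 0xcd63b59be776af8da714401784eae569c7de8cdba853e930c8fc2e7b439e453a168b3c4a41108373085 (k8 c18349 c18346 c5522 c265 c5340 c5559 c5543 c5501 (k8 c18539 c8199 c5524 c5373 c5372 c5433 c5318 c5315 (k8 c5444 c5448 c5398 c17858 c18728 c5505 c754 c2031 (k8 c5683 c268 c12251 c18544 c17872 c2940 c18620 c4224 (k4 c939 c2950 c5689 c941 (k2 c2192 c18017 k0)))))) (by decide +kernel)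
def c18730 : PP 9 3 T 0x2000000000000011000020000000000000000000000004000000000000000000000000000100000000000400000000000002000000000000000015000000 := rS 0x99f0b30ee9d3da1cf2d167e60ea85 (k8 c18349 c18354 c18346 c5543 c5501 c5524 c5373 c5372 (k4 c1696 c10409 c18428 c17952 (k2 c2441 c5679 k0))) (by decide +kernel)
def c18731 : PP 9 3 T 0x42004000000000055000100000000000000000000000000000200000000000000000000000000000000000000000000000000000000000000000000000000 := rS 0x3c192 (k2 c5236 c5198 (k1 c10922 k0)) (by decide +kernel)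
def c18732 : PP 9 3 T 0x42000000000000055000120000000000000000200000000000200000000000000000000000000001100000000000000040001000000000000000000000010 := rS 0x46c54e06ff10642e91 (k8 c5374 c5433 c5315 c18731 c17836 c5666 c3048 c754 (k1 c18727 k0)) (by decide +kernel)
def c18733 : PP 9 3 T 0x6004400000000005000020000000000000000000000000000000000000000000000040100100000010000040000000000005000000000000000000000000 := rS 0xcc6b649a65f68b3d0ac5 (k8 c18348 c18349 c5543 c5501 c17795 c13297 c5663 c5689 (k2 c17834 c2192 k0)) (by decide +kernel)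
def c18734 : PP 9 3 T 0x6004400000000095000020000000000000000000000000000200000000000000000000000100000000021400100000000005000000000000000000000000 := rS 0xfd122f40f26cdf0265a4966fa1d228f80b3dfeb356b573083 (k8 c18355 c18346 c3001 c5573 c5574 c5544 c5543 c5502 (k8 c5526 c5374 c5373 c13097 c18733 c1234 c1641 c5679 (k4 c5537 c10922 c2087 c5663 (k2 c18001 c1122 (k1 c15494 k0))))) (by decide +kernel)
def c18735 : PP 9 3 T 0x2004400000000095000020000000000000000000000000000000000000000000000100000100000000022000100000000005000000000000000000000000 := rS 0xc997d8c7f8940da4e34aa67c28748a3da3017fb2f3083 (k8 c18355 c18346 c5420 c5544 c5502 c5501 c5526 c5374 (k8 c5373 c5458 c167 c1698 c1777 c5869 c2088 c18001 (k4 c15494 c8617 c1122 c5357 (k1 c5663 k0)))) (by decide +kernel)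
def c18736 : PP 9 3 T 0x8000400000000004000000000000000000000000000000000200000000000000000000000500000010004004000000000000000000050000015000000000 := rS 0x1283457915aaa01f8f42e19 (k8 c5315 c5433 c5436 c5318 c3579 c3001 c5582 c5584 (k2 c10044 c10048 (k1 c1583 k0))) (by decide +kernel)
def c18737 : PP 9 3 T 0x6004400000000095000020000000000000000000000000000200000000000000000000000100000000020400100000000005000000000000000000000000 := rS 0x13ae1 (k2 c3061 c18735 (k1 c18734 k0)) (by decide +kernel)
def c18738 : PP 9 3 T 0x1000000000000000000000000000000000000000000000000000000080400000000000000200000000005000000000000000000000000 := rS 0x2fe4d0076 (k4 c2083 c2084 c5356 c1746 (k1 c5663 k0)) (by decide +kernel)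
def c18739 : PP 9 3 T 0x42000400000000010000020000000000000000200000004000200000000000000000000000000001000000400000000040000000000000000000800000018 := rS 0x1bc9d4ba51a68cf7b5541e35689d969f59ed92661d88fc2e3d68894864131b2432b178077661b14e84ca59 (k8 c18352 c18353 c18539 c8199 c1109 c18699 c263 c5649 (k8 c1330 c5315 c1177 c9752 c5340 c5561 c5559 c5501 (k8 c5436 c5433 c5318 c18729 c18730 c262 c18732 c5574 (k8 c5572 c5420 c5570 c5573 c18620 c3579 c3001 c18736 (k4 c18737 c18738 c10379 c1234 (k2 c1698 c18733 (k1 c13097 k0))))))) (by decide +kernel)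
def c18740 : PP 9 3 T 0x2000000000000006000120000000000000000200000000000200000400040000000000000000000100000000000000040000000000000000004800000010 := rS 0x330eed36b31daa7f5732bc6802f6dd429f498647e171e9ecf22968b3c4a41f79c55a8c80a1d1e917fe610a83 (k8 c18355 c18349 c18346 c5544 c5374 c5526 c5373 c5502 (k8 c18001 c2031 c754 c5505 c5340 c5559 c5543 c5501 (k8 c8199 c5524 c5372 c5436 c5433 c5318 c5315 c5444 (k8 c5448 c5398 c17858 c12251 c18544 c18620 c3579 c5683 (k8 c17735 c4224 c940 c1247 c2940 c10702 c18017 c2191 k0))))) (by decide +kernel)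
def c18741 : PP 9 3 T 0x4000400000000045000100000000000000000200000000000200000000000000000000000000000000000000000000050001000000000000000000000010 := rS 0x377883217 (k4 c5433 c5315 c5196 c5666 (k1 c17836 k0)) (by decide +kernel)
def c18742 : PP 9 3 T 0x400000000010000020000000000000000200040004000200000000000000000000000000000000000000000000000000000000000000000000000010 := rS 0x1bc9d6aa5d40d3f1b2d3fb64998762b3569c7de2746454930389fc962c95aa6de0220f8743663011cc024b20894323f0b8f50e9135a3c53a180bffd9b3cc20cb265 (k8 c18353 c18352 c18355 c18346 c18699 c5228 c5544 c5502 (k8 c18539 c8199 c5526 c5523 c5374 c5373 c5436 c5433 (k8 c5318 c5315 c5559 c5340 c5342 c18726 c9719 c5642 (k8 c9752 c1109 c263 c1111 c6197 c5649 c7393 c11945 (k8 c1177 c1330 c18739 c5547 c5550 c5588 c5590 c18001 (k8 c485 c5505 c754 c2031 c8280 c18740 c18730 c262 (k8 c18741 c5572 c5420 c18620 c18738 c3579 c1234 c3001 (k2 c1277 c18733 (k1 c13097 k0))))))))) (by decide +kernel)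
def c18743 : PP 9 3 T 0x42000400000000012000020000000000000000100040004000200000000000000000000000000000000000000000000000000000000000000000060000002 := rS 0x23b026ab84fde3409f5ae106f928decc1d9248ef5100cc7207188dc7a9106b44e2b33998c465f0b9144fb6d08d5268b (k8 c18350 c5444 c331 c18539 c5212 c5570 c335 c5433 (k8 c1054 c9731 c5395 c5419 c5574 c5571 c5501 c5522 (k8 c5374 c5436 c5435 c5434 c5432 c5317 c5316 c5650 (k8 c1999 c2422 c344 c340 c18037 c18580 c5660 c2510 (k8 c12638 c2192 c2747 c699 c13779 c18032 c3058 c2998 (k2 c8709 c5778 (k1 c16948 k0))))))) (by decide +kernel)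
def c18744 : PP 9 3 T 0x40000000000000012000120000000000000000100040000000200000000000000000000000000000000000000000000000000400000000000000080000010 := rS 0x121c647630453a6d1f85c6f113d9acf28f149c5669f6589d6bb631a6cc299 (k8 c5447 c5445 c5397 c5395 c5212 c5422 c5570 c5420 (k8 c5572 c5574 c5571 c8199 c5526 c5524 c5523 c5372 (k8 c5371 c5435 c5433 c5318 c2316 c1082 c17974 c3598 (k4 c13598 c12672 c6300 c18013 k0)))) (by decide +kernel)
def c18745 : PP 9 3 T 0x40000400000000012000020000000000000000000040004000200000000000000000000000000000000000000000000000000000000000000000000000012 := rS 0x2bd1a4508474946f0d19c92470e8803e5f11bc42e0d79fb366715989ce6b156edab3a145a24d265 (k8 c18353 c18347 c18356 c18350 c18539 c18742 c5212 c5573 (k8 c5421 c5419 c5570 c5574 c5571 c18699 c5228 c5540 (k8 c5522 c5433 c9696 c9731 c1054 c18744 c5650 c18743 (k8 c2422 c344 c664 c5649 c18580 c5660 c2161 c12638 (k4 c460 c702 c1078 c3602 k0))))) (by decide +kernel)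
def c18746 : PP 9 3 T 0x4004000000000000000020000000000000000100000004000200000000010000000000114000000000000000100000000000000002020000000000000000 := rS 0x334eec769b882243198fcf687489e73085 (k8 c18349 c18346 c5524 c5374 c5373 c5372 c5318 c5316 (k8 c3032 c3026 c512 c15747 c12672 c10131 c2624 c18017 k0)) (by decide +kernel)
def c18747 : PP 9 3 T 0x2000000000000000000020000000000000000000000000000000100000000000000000000000000000000000100000000000000000800000000000000000 := rS 0x10389a1d228f80bff3083 (k8 c18355 c18346 c5544 c5502 c5526 c5374 c5373 c12623 (k2 c2350 c18001 k0)) (by decide +kernel)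
def c18748 : PP 9 3 T 0x40004000000000000000020000000000000000100000004000200000000010000000100116000000000000000100000000000000002020000000000000000 := rS 0x81fb9be3f (k4 c5318 c2946 c18746 c5508 (k1 c8709 k0)) (by decide +kernel)
def c18749 : PP 9 3 T 0x42000000000000012000120000000000000000100040004000200100000000000000000000000000000000000100000000000000000000000000000000008 := rS 0x3c4cc3bb1d00d570b882411201204a471f8f4f687489e5a30167a7c4fb64992c441f358a73085 (k8 c18349 c18346 c8199 c5523 c1111 c6197 c560 c5444 (k8 c5212 c5570 c5572 c5543 c5502 c5501 c5524 c5374 (k8 c5373 c5372 c5436 c5318 c18747 c1263 c13731 c17815 (k8 c3026 c17689 c512 c1715 c1657 c298 c12672 c938 (k2 c18017 c18748 (k1 c18620 k0)))))) (by decide +kernel)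
def c18750 : PP 9 3 T 0x40000400000000012000020000000000000000000040004000200000000000000000000000000000000000000000000000000000000000000000000000010 := rS 0x63b35be776b35490803f903c64709095a6440890fde8c8ebc03e1d0d80802331f8f4f687359e51e2968b3fd9b34f89f6d59d0a4d8a85419d4b265 (k8 c18353 c18352 c18354 c18355 c18349 c18348 c5444 c18539 (k8 c18742 c5212 c5570 c5572 c18699 c5228 c5543 c5501 (k8 c8199 c5526 c5524 c5523 c5373 c5372 c5436 c5318 (k8 c5316 c18745 c5642 c1109 c263 c1111 c5649 c551 (k8 c18749 c5505 c12616 c702 c5658 c15747 c1218 c12617 (k8 c13598 c18620 c17815 c2917 c298 c13731 c1657 c459 (k4 c10702 c2946 c2192 c941 (k1 c3607 k0)))))))) (by decide +kernel)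
def c18751 : PP 9 3 T 0x82000000000000012000120000000000000000100040004000200000000000000000000000000000000000000000000000000000000000000000020000002 := rS 0x1accc3f0ed027d10040def509c706a45198e40e311b8f5a271139cf6c9331fbc868c81c050e8f89a45fe5f0b9650798 (k8 c18346 c18355 c18352 c5433 c1054 c5544 c5374 c5547 (k8 c5526 c5373 c5502 c5550 c18001 c12616 c5505 c5395 (k8 c5444 c5212 c5419 c5570 c5571 c5501 c5436 c5435 (k8 c5434 c5432 c5317 c5316 c335 c331 c5658 c299 (k8 c2165 c1061 c12617 c15948 c2747 c699 c340 c18032 (k2 c18037 c808 (k1 c2191 k0))))))) (by decide +kernel)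
def c18752 : PP 9 3 T 0x80000400000000016000020000000000000000100040004000200000000000000000000000000000000000000000000000000000000000000000000000002 := rS 0x10a7074df6b904fe470920422768ea5c34670e97c46f10bacd3ecb58ad76da149a8536954cb8e2ae169fbc66434640e028747c4d22fff60fcd265629d50798 (k8 c18346 c18355 c18354 c18348 c18353 c18347 c5318 c5228 (k8 c5544 c5374 c5547 c5526 c5373 c5502 c5550 c18001 (k8 c12616 c5316 c5505 c15747 c5591 c5590 c5549 c5447 (k8 c5446 c5397 c5398 c5444 c18539 c5212 c5422 c5421 (k8 c5420 c5572 c5574 c5433 c9696 c9731 c1054 c18751 (k8 c664 c5649 c1073 c2161 c18020 c702 c939 c12617 (k8 c13598 c2917 c298 c2188 c12713 c17862 c3620 c340 (k1 c5855 k0)))))))) (by decide +kernel)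
def c18753 : PP 9 3 T 0x400000000012000020000000000000000000040004000200000000000000000000000000000000000000000000000000000000000000000000000010 := rS 0x31cee803fb3424d622044811d12bc0441f0e86c040121fbd191581c4fe43f1e9ed0e91359e51e2968c059efff66cf6d59d0b150a833a964cb98 (k8 c18346 c18353 c18352 c18354 c18355 c18349 c18348 c18539 (k8 c18742 c5212 c18699 c5228 c5544 c5543 c5502 c5501 (k8 c8199 c5526 c5524 c5523 c5374 c5373 c5372 c5436 (k8 c5318 c18750 c5547 c5550 c5590 c18001 c5505 c12616 (k8 c18752 c5642 c1109 c263 c1111 c6197 c5649 c1262 (k8 c551 c17815 c702 c5658 c459 c12617 c2191 c2917 (k4 c298 c2188 c940 c3607 k0))))))) (by decide +kernel)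
def c18754 : PP 9 3 T 0x80000000000000000000000000000000000000200000000000000000040000000000000000000110004001400000000020000020000000 := rS 0x1fcc6a16a258e29f659cd1669 (k8 c18347 c18350 c5419 c5420 c5572 c5571 c332 c553 (k4 c1234 c1229 c2998 c3599 k0)) (by decide +kernel)
def c18755 : PP 9 3 T 0x6000000000000011000120000000000000000100040004000200000000000000000000000000000000000000100000000000000000040000000020000012 := rS 0x662607662c98d4d80a7a8803e6f409f4b6108e34cae391f8c46e3d07834d6f7689c566b50188cbe173081d92332289f6cc52c9d4bb98 (k8 c18346 c17796 c18354 c18352 c18348 c5212 c5570 c335 (k8 c5316 c2061 c5432 c661 c5433 c1054 c9731 c28 (k8 c5422 c5574 c5571 c5501 c5498 c5523 c5522 c5369 (k8 c5436 c5435 c5434 c5318 c5317 c5313 c15747 c5658 (k8 c13277 c2159 c2747 c699 c2746 c17974 c5650 c1999 (k8 c10910 c2416 c18754 c10897 c5663 c17340 c780 c18037 (k1 c2441 k0))))))) (by decide +kernel)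
def c18756 : PP 9 3 T 0x40000000000000001000020000000000000000000000000000000000000050000000040094000000010000000000000000080000000000000000000000002 := rS 0x3266366a550ac5 (k4 c18348 c18349 c2018 c12473 (k2 c778 c17834 (k1 c16365 k0))) (by decide +kernel)
def c18757 : PP 9 3 T 0x4a000000000000011000120000000000000000100040000000200000000000000000000000000000000000000100000000000000000040000000060000002 := rS 0xcd1aa612e3b3164da66c409f414106f84c94497a88072311b8f5a2f36789d6a232f85cc207648cdaf036ac49228f43c04cc6f23c741ab138ab4e7b6579a512c5459950685 (k8 c18349 c18355 c18353 c18350 c18348 c18356 c18347 c5584 (k8 c5212 c5419 c5573 c5571 c5421 c5522 c5504 c18747 (k8 c18580 c3602 c5502 c5373 c5526 c5374 c18000 c5585 (k8 c5508 c5507 c5316 c2061 c5432 c661 c5433 c1054 (k8 c9731 c5422 c5570 c5543 c5540 c5501 c5436 c5435 (k8 c5434 c5317 c5650 c1999 c344 c17892 c301 c2510 (k8 c12638 c12633 c2747 c699 c13295 c18756 c17999 c5663 (k4 c17340 c1229 c780 c332 (k2 c2441 c18037 k0))))))))) (by decide +kernel)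
def c18758 : PP 9 3 T 0x40000000000000015000120000000000000000100040004000200000000000000000000000000000000000000100000000000000000000000000004000012 := rS 0x1e01d38880d31aa5c909d36a643c478efb82e377efb16a610390d5bb664871e233 (k8 c5316 c9696 c5649 c2061 c5212 c5573 c10701 c5432 (k8 c661 c5422 c5228 c5542 c5435 c5433 c18755 c5504 (k8 c18747 c18757 c2317 c2316 c1082 c6300 c18710 c332 (k4 c13297 c14662 c512 c511 (k2 c6448 c5456 k0))))) (by decide +kernel)
def c18759 : PP 9 3 T 0x80000000000000000000000000000000000000000100000000000040000000000000002000000150004001400000000000000000000000 := rS 0x1426338a7d9673 (k4 c5419 c5420 c5572 c5571 (k2 c1274 c1278 (k1 c3599 k0))) (by decide +kernel)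
def c18760 : PP 9 3 T 0x40000000000000015000120000000000000000100040004000200000000000000000000000000000000000000000000000000000000000000000004000012 := rS 0x267c2cc1da74fed76f9288ef51026c6a1f409f4206f2484e38d3f7a308ac90e10c66391f8c46e3d889adeed179b3fd8715989d6aaddb3c4465f0b9840e59 (k8 c18352 c5432 c661 c5433 c1054 c9731 c9696 c5212 (k8 c5573 c5422 c5570 c5574 c5571 c5228 c5543 c5540 (k8 c5501 c5498 c5523 c5371 c5436 c5435 c5434 c5318 (k8 c5317 c5316 c10701 c5649 c2061 c335 c18758 c5505 (k8 c15747 c5658 c299 c513 c1061 c12617 c2747 c699 (k8 c17974 c18754 c7393 c5650 c1999 c2422 c5660 c2510 (k8 c16068 c808 c18759 c341 c18037 c5537 c2441 c5679 k0))))))) (by decide +kernel)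
def c18761 : PP 9 3 T 0x42000000000000000000120000000000000000100040000000000000000000000000000000000000000000000100000000000000000000000000008000012 := rS 0x2044122b8de47069c4e6ad33c7563b645a24d265 (k8 c18353 c18347 c18356 c18350 c5212 c5421 c2161 c1903 (k8 c5573 c5419 c5571 c5522 c18747 c18580 c3602 c18705 (k2 c1078 c12972 (k1 c2966 k0)))) (by decide +kernel)
def c18762 : PP 9 3 T 0x40000000000000015000120000000000000000100040004000200000000000000000000000000000000000000000000000000000000000000000000000012 := rS 0x549b442482392c228c8e99c340d35a3fd82758ed8ca69 (k8 c18347 c18353 c5212 c5421 c5570 c5228 c5526 c5523 (k8 c5522 c18760 c1903 c2161 c18761 c702 c12638 c13598 (k4 c5660 c344 c666 c1907 (k1 c17916 k0)))) (by decide +kernel)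
def c18763 : PP 9 3 T 0x6000400000000015000020000000000000000100000004000200100000000000000000000100000000000404100000000005000002000000001000000000 := rS 0xd520284323f0b8f5a30167b2fc69f13ed853a1 (k8 c18539 c8199 c5212 c5570 c5572 c18620 c5420 c5543 (k8 c5502 c5501 c5436 c5433 c5318 c5315 c18737 c3579 (k2 c1657 c18746 k0))) (by decide +kernel)
def c18764 : PP 9 3 T 0x40000400000000015000020000000000000000100040004000200000000000000000000000000000000000000100000000000000000000000000000000008 := rS 0x1d99a801d389c24081b5fdc126ff8c86481291c7e7b43a44f30167a7d962756ed8c64b1147453a14998592f04d87cd61d0dfb032c541a14ca59 (k8 c18352 c18353 c18349 c18355 c18348 c5315 c5228 c1109 (k8 c263 c5523 c1111 c7393 c5649 c1177 c18730 c262 (k8 c18539 c8199 c551 c6197 c560 c9752 c5212 c5573 (k8 c5570 c5420 c5572 c5543 c5502 c5524 c5374 c5373 (k8 c5372 c5318 c18747 c1263 c13731 c10155 c18620 c2946 (k8 c17689 c18763 c5507 c5508 c18736 c1715 c512 c511 (k4 c298 c8709 c14201 c938 k0))))))) (by decide +kernel)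
def c18765 : PP 9 3 T 0x40000400000000010000020000000000000000000040004000200000000000000000000000000000000000000000000000000000000000000000000000010 := rS 0x204bd9366920ffe3238484ad30890d189330c75929b780883e1d0d98c04010c8fcd68f14b459fecd9a7d9627db56743b142b14b265 (k8 c18353 c18352 c18348 c18349 c18753 c18539 c18742 c5212 (k8 c5570 c5420 c5572 c18699 c5228 c5543 c5501 c8199 (k8 c5526 c5523 c5318 c5315 c18762 c5642 c9752 c1109 (k8 c263 c1111 c6197 c5649 c7393 c1177 c551 c18730 (k8 c262 c18764 c12616 c702 c18738 c1218 c12617 c13598 (k8 c18620 c2917 c13731 c18427 c17834 c5663 c1746 c17970 k0)))))) (by decide +kernel)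
def c18766 : PP 9 3 T 0x400000000081000000000000000000000000000000000000000100044000000000042100000000000000200110006001400000000000000000000000 := rS 0x37cfe9c6ba67c3ef (k8 c5505 c5537 c2441 c2191 c11103 c808 c12713 c18759 k0) (by decide +kernel)
def c18767 : PP 9 3 T 0x400000000010000020000000000000000000040004000200000000000000000000000000000000000000000000000000000000000000000004000012 := rS 0xeb26cd1a829027d0f9b0206f7a84e384564870c25f11bc472070b8c46e3d889adeed179b3ce2b3139cd6bb6d0ec5a7ef1990d190380a1d1f13f9245ffecd98feb285629650798 (k8 c18346 c18355 c18352 c18348 c18349 c18742 c5318 c18699 (k8 c5228 c5544 c5374 c18765 c5547 c5526 c5373 c5502 (k8 c5550 c18001 c12616 c5316 c5505 c15747 c18753 c18539 (k8 c5212 c5422 c5419 c5570 c5574 c5571 c5543 c5540 (k8 c5501 c5498 c5523 c5371 c5436 c5435 c5434 c5433 (k8 c5432 c5317 c9696 c9731 c1054 c661 c5649 c2061 (k8 c335 c5658 c299 c2165 c1061 c12617 c17922 c13749 (k8 c2747 c699 c665 c18754 c18766 c17834 c3587 c17340 k0)))))))) (by decide +kernel)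
def c18768 : PP 9 3 T 0x91000120000000000000000000000000000200001400000000000500000000000000000404000100000005000000000000001000080001 := rS 0x4eb7941922097c32171e9ed228f59b2fc69f138a4fe3f (k8 c5318 c2917 c8199 c5570 c5572 c18620 c5420 c5574 (k8 c5526 c5374 c5372 c5436 c5433 c5315 c17970 c298 (k4 c5663 c3579 c17932 c1277 (k1 c13097 k0)))) (by decide +kernel)
def c18769 : PP 9 3 T 0x4000400000000000000020000000000000000000000000000000000400040000000000054000000000000000000200000000000000000000000000000000 := rS 0x19ac76b1dcf6873ce610ac5 (k8 c18348 c18349 c18346 c5524 c5373 c5372 c939 c13318 (k2 c940 c2191 (k1 c18017 k0))) (by decide +kernel)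
def c18770 : PP 9 3 T 0x400000000010000020000000000000000000040004000200000000000000000000000000000000000000000000000000000000000000000004000010 := rS 0x49261130c7592254dbc0441f0e98c04010c9ac53b6d0ec5c71570a05a633218feb3ef464050e8f48bfe0713f933da3ecd99650798 (k8 c18346 c18355 c18352 c18699 c5228 c5501 c5543 c18765 (k8 c5547 c5550 c5544 c5374 c5526 c5373 c5502 c18001 (k8 c5505 c18742 c5318 c12616 c5316 c15747 c18769 c5591 (k8 c5590 c5549 c18753 c18539 c5212 c8199 c5523 c5315 (k8 c18767 c5642 c9752 c263 c1111 c6197 c5649 c7393 (k8 c1262 c1177 c551 c18730 c702 c262 c12617 c18768 k0)))))) (by decide +kernel)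
def c18771 : PP 9 3 T 0x400000000010000020000000000000000000040004000200000000000000000000000000000000000000000000000000000000000000000000000010 := rS 0xa93688474df2091d3ad72204400c88e80d2e674a869a643f7a3206e389fcb62b1db565ff0155fb0663f0b8c50e9135a3f43b3329a73083 (k8 c18355 c18346 c18347 c18353 c18699 c18539 c5526 c5523 (k8 c5374 c5373 c5434 c5433 c5318 c5316 c5228 c11079 (k8 c5502 c5544 c18742 c5212 c5421 c18753 c18765 c5547 (k8 c5549 c5550 c18001 c5505 c12616 c15747 c18770 c1904 (k8 c1903 c1073 c1109 c2161 c5678 c5642 c702 c5658 (k8 c2189 c1275 c13598 c459 c12713 c17862 c341 c666 (k2 c1907 c17916 k0))))))) (by decide +kernel)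
def c18772 : PP 9 3 T 0x44000100000000000000000000000004000000000000000000000000000000000000000000100000000000080000000000000004010002 := rS 0x33870e4f1 (k4 c9696 c17749 c5649 c931 (k1 c1994 k0)) (by decide +kernel)
def c18773 : PP 9 3 T 0x12000120000000000000000200080000000200000000000000000000000000000000000000000000000000000000000000000000000011 := rS 0x473 (k2 c9719 c5642 (k1 c18661 k0)) (by decide +kernel)
def c18774 : PP 9 3 T 0x2000000000000046000120000000000000000000080004000200000000000000000000000000000000000000100000000000000000000000000000010002 := rS 0x54a5c345a7e85c1e0d7b82dea95339cb305d (k8 c17796 c18346 c17749 c931 c5446 c5519 c5516 c5333 (k8 c5522 c5369 c5433 c5542 c10910 c18772 c1073 c1906 (k1 c18657 k0))) (by decide +kernel)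
def c18775 : PP 9 3 T 0x40000000000000054000120000000000000000000080004000000000000004000000000000000000000000000100000000000000004000000000004010002 := rS 0x59ad5f82079070b6f18a9ca2398 (k8 c18346 c5371 c17749 c1290 c9696 c18772 c5649 c17728 (k4 c333 c334 c2608 c2556 (k1 c5685 k0))) (by decide +kernel)
def c18776 : PP 9 3 T 0x16000120000000000000000200080004000200000000000000000000000000000000000000100000000000000000000000000000000010 := rS 0x2a5fa970d3ffdded339c801b74a8647e171487dea1125fccae0b1b91c923b (k8 c5332 c5334 c5520 c5435 c5516 c5313 c18062 c5342 (k8 c5558 c5519 c5517 c8199 c5433 c5318 c5315 c5446 (k8 c17858 c18773 c17749 c931 c18774 c5201 c5586 c18775 (k4 c1073 c1075 c1906 c18657 k0)))) (by decide +kernel)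
def c18777 : PP 9 3 T 0x2000400000000015000020000000000000000200080004000200000000000000000000000000000000000000100000000000000000000000000004000002 := rS 0x6b354ec45698d5286664ab44e9f4b8736c62788cc7e311ee4c224320c7497f32b8dc8e491de85fe5a0583dee0d7a9a4bb98 (k8 c18346 c17796 c18347 c5519 c5522 c5333 c5369 c5516 (k8 c10910 c5544 c18539 c5332 c5334 c5520 c5435 c5313 (k8 c18062 c5342 c5341 c5340 c5561 c5558 c13294 c5436 (k8 c5434 c5318 c5316 c9696 c16365 c18775 c5649 c1229 (k8 c5572 c5570 c5573 c2061 c1994 c9823 c332 c13297 (k4 c335 c777 c1589 c3588 (k1 c2187 k0))))))) (by decide +kernel)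
def c18778 : PP 9 3 T 0x42001000000000055000120040000000000000200000000000200000000000000000000000400000100000000000000040005000000000000000000000010 := rS 0x27536995a178d679 (k8 c5524 c5523 c5663 c18732 c1520 c1119 c1342 c5679 k0) (by decide +kernel)
def c18779 : PP 9 3 T 0x2000400000000050000020000000000000000200000004000200000000000000000000000000000000000000100000000000000000000000000004000010 := rS 0x351587d579c1691559a68ee9d4b97cc1e1702859681f137c727bc9907e6571b91c923b7efbce6630132432b17807403b12d02c1ef706bd695b314e858a8b3aa24bb98 (k8 c18346 c17796 c18356 c18354 c18350 c18348 c18539 c8199 (k8 c18699 c18771 c5519 c5522 c5333 c5369 c5516 c10910 (k8 c18776 c18777 c1995 c5649 c1330 c5315 c1177 c5642 (k8 c9752 c9719 c14774 c5542 c5332 c5334 c5520 c5435 (k8 c5313 c18062 c5340 c13294 c5372 c5317 c14805 c5196 (k8 c5463 c5464 c5578 c17960 c5460 c18778 c62 c1639 (k8 c1696 c10409 c18730 c2899 c1191 c5685 c17872 c1248 (k4 c2871 c5683 c17987 c2891 k0)))))))) (by decide +kernel)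
def c18780 : PP 9 3 T 0x6000400000000095000020040000000000000200000000000200000000000000000000000100000000000000100000000001000000000000000000000008 := rS 0x136a0f197926191f85c7a6b14e844a4131a7d9627 (k8 c5570 c5420 c5572 c9752 c5340 c5559 c18539 c8199 (k8 c5523 c5436 c5433 c5318 c5315 c262 c5663 c18620 (k2 c3579 c1119 (k1 c18737 k0)))) (by decide +kernel)
def c18781 : PP 9 3 T 0x2000400000000010000020000000000000000200000004000200000000000000000000000000000000000000100000000000000000000000000004000010 := rS 0xf1b5daaa0f0b8dbed34a268ee7f4ea5cc11456ad44e9f59ed992f01087404010c8e40e7b439e45223c9894824bf995c6e47248ef63b3d0b459fef2d02c1ef706bd695983aa158a5d (k8 c17796 c18348 c18349 c18354 c18346 c18771 c5519 c5522 (k8 c5333 c5369 c5516 c10910 c14774 c5543 c5501 c18539 (k8 c18699 c18776 c5332 c5334 c5520 c5435 c5313 c18062 (k8 c5342 c5340 c5559 c13294 c5331 c8199 c5524 c5373 (k8 c5372 c5432 c5317 c5315 c18777 c5642 c1995 c265 (k8 c5649 c1177 c18779 c5574 c5572 c5570 c5422 c5573 (k8 c17941 c18780 c1639 c1696 c17682 c10409 c18730 c5678 (k8 c13297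 c16463 c15481 c17952 c1191 c1589 c10298 c5578 (k1 c5689 k0))))))))) (by decide +kernel)
def c18782 : PP 9 3 T 0x2000400000000010000020000000000000000200000004000200000000000000000000000000000000000000100000000000000000000000000000000010 := rS 0x36001520333868d60b7ad28ca69 (k8 c18347 c18353 c18771 c5519 c5516 c5523 c18781 c1903 (k4 c1109 c1906 c5642 c17916 (k1 c665 k0))) (by decide +kernel)
def c18783 : PP 9 3 T 0x2000000000000000120000000000000000200080000000200000000000000000000000000000000000000000000000000000000000000000000000000 := rS 0x226133f389bee16395c723f038dc7a0f06a3c760bc9844824b (k8 c5342 c5340 c5558 c13294 c5516 c5332 c5526 c5522 (k8 c5369 c5436 c5435 c5432 c5318 c5317 c5313 c5535 (k4 c5460 c5538 c17954 c14867 (k2 c2917 c809 (k1 c17919 k0))))) (by decide +kernel)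
def c18784 : PP 9 3 T 0x400000000010000020000000000000000200000004000200000000000000000000000000000000000000100000000000000000000000000000000010 := rS 0x3dbb1d9f8695a1 (k4 c18539 c18771 c18783 c18699 (k2 c18776 c18782 (k1 c5195 k0))) (by decide +kernel)
def c18785 : PP 9 3 T 0x6004400000000044000000000000000000000200000000000000000000010050000400000000000040004010000000000000000001400000000020000000 := rS 0x1a6d56bc09584558c75e6ff (k8 c5544 c5540 c5341 c2177 c336 c5683 c18038 c2032 (k2 c2890 c2088 (k1 c5689 k0))) (by decide +kernel)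
def c18786 : PP 9 3 T 0x2000400000000012000020000000000000000200000004000200000000000000000000000000000000000000000000000000000000000000000000000010 := rS 0x2a034670eb8fc67f57c54daf1390036e9531a7cae191c8fc0e171bc4453a1d99248f9308907df014621d56fd2d02c1ef706bd69465429a4bb98 (k8 c18346 c17796 c18347 c18349 c18353 c18771 c5519 c5522 (k8 c5333 c5369 c5516 c10910 c5542 c5500 c5373 c18784 (k8 c2141 c5505 c5340 c5558 c13294 c5520 c5334 c18699 (k8 c18539 c8199 c5371 c5435 c5433 c5432 c5318 c5317 (k8 c5315 c5313 c5448 c5395 c5446 c17858 c18773 c17749 (k8 c9696 c665 c1290 c1245 c806 c16245 c15481 c18785 (k4 c664 c5649 c10258 c1906 k0))))))) (by decide +kernel)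
def c18787 : PP 9 3 T 0x2000400000000010000020000000000000000200000004000200000000000000000000000000000000000000000000000000000000000000000004000012 := rS 0xd66f915aae3698856a274facd9881db0d528664ba743862788cc723f188f62229d9e4c4a4320c77e6571b91c923bf0e87de8c68968160f7b835eb4ad89a4bb98 (k8 c18346 c17796 c18347 c18786 c18771 c5519 c5522 c5333 (k8 c5369 c5516 c10910 c5501 c18784 c5505 c18539 c18783 (k8 c5332 c5334 c5520 c5435 c5313 c18062 c5341 c5340 (k8 c5561 c5559 c13294 c18699 c8199 c5371 c5436 c5434 (k8 c5318 c5317 c5316 c9696 c16365 c5649 c1274 c1229 (k8 c1994 c9823 c332 c18719 c3935 c18037 c5574 c5572 (k8 c5570 c5422 c18717 c2084 c2624 c1589 c335 c16463 (k2 c3588 c10298 k0)))))))) (by decide +kernel)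
def c18788 : PP 9 3 T 0x2000400000000050000020000000000000000200000004000200000000000000000000000000000000000000000000000000000000000000000004000010 := rS 0x134a18a183c5f32b8dc8e491dfbf627364864e2b178074025a0583dee0d7ad2b6629d0a30bb98 (k8 c18346 c17796 c18784 c18539 c8199 c18699 c18771 c5519 (k8 c5522 c5333 c5369 c5516 c10910 c18787 c1995 c5649 (k8 c1330 c754 c5315 c1177 c9719 c18786 c5505 c5332 (k8 c5334 c5520 c5435 c5313 c18062 c5196 c18741 c17872 (k2 c5578 c18730 (k1 c1191 k0)))))) (by decide +kernel)
def c18789 : PP 9 3 T 0x4400000000005000000040000000000000000000000000200000000000000000000000500000000004000200000000001000000010000015000000008 := rS 0xd44aa81a65e498647e171efbcc675 (k8 c18354 c9752 c5505 c5436 c5433 c5318 c5315 c262 (k4 c5663 c18738 c3579 c1518 (k2 c10379 c3001 k0))) (by decide +kernel)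
def c18790 : PP 9 3 T 0x40005400000000005000020000000000000000000080000000200000000000000000000010500001410004000200000000000000000010000005000000008 := rS 0x359c6df69b54fe9d4b980ae39038dc1e7b14e841793f78841ac5 (k8 c18348 c5522 c265 c5505 c13294 c5516 c18539 c8199 (k8 c5372 c5369 c5435 c5432 c5317 c5313 c18789 c1639 (k8 c1696 c17682 c10426 c13297 c16463 c15481 c5689 c10298 k0))) (by decide +kernel)
def c18791 : PP 9 3 T 0x2000400000000010000020000000000000000200000004000200000000000000000000000000000000000000000000000000000000000000000004000010 := rS 0x9d4da49c0df50f8a28b565a7f6cb338ac59227780855a1d011cc02191ca3c53b311894824bf995c6e47248efc3a146344b40b07bdc1af5a56c4bb98 (k8 c18346 c17796 c18786 c18771 c5519 c5522 c5333 c5369 (k8 c5516 c10910 c5501 c18784 c18539 c18783 c5332 c5334 (k8 c5520 c5435 c5313 c18062 c5342 c5340 c5559 c5331 (k8 c18699 c8199 c5526 c5317 c5315 c18787 c9719 c5642 (k8 c1995 c2031 c265 c5649 c434 c1177 c1330 c754 (k8 c8280 c18788 c5572 c5420 c5422 c17941 c18790 c5578 (k4 c5580 c17960 c18620 c1191 (k2 c1695 c13096 k0))))))))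 (by decide +kernel)
def c18792 : PP 9 3 T 0x2000400000000010000020000000000000000200000004000200000000000000000000000000000000000000000000000000000000000000000000000010 := rS 0x36001520333868d60b7ad28ca69 (k8 c18347 c18353 c18771 c5519 c5516 c5523 c18791 c1903 (k4 c1109 c1906 c5642 c17916 (k1 c665 k0))) (by decide +kernel)
def c18793 : PP 9 3 T 0x400000000010000020000000000000000200000004000200000000000000000000000000000000000000000000000000000000000000000000000010 := rS 0xdb6c3dbef46787e6570c8fc2e3714e87663b2482c8f4a (k8 c18771 c5520 c5516 c5334 c5332 c18699 c18539 c8199 (k8 c5435 c5433 c5318 c5315 c5313 c18062 c18783 c18784 (k4 c5505 c18792 c5195 c5201 (k1 c17858 k0)))) (by decide +kernel)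
def c18794 : PP 9 3 T 0x2000000000000004000020000000000000000100000004000000100000000011000000000000000010000000100000000000000001400000004004000400 := rS 0x9c4895ee228708687488351f0179a250a83 (k8 c18355 c18349 c18356 c5540 c5502 c5526 c5522 c5374 (k8 c5373 c10701 c5649 c335 c5658 c17892 c18000 c301 (k1 c12633 k0))) (by decide +kernel)
def c18795 : PP 9 3 T 0x2000000000000000000120000000000000000000080000000000000000000002000000000000000000000000100000000000000000000000002000000000 := rS 0x22703081090e914782deb017f8073083 (k8 c18355 c18346 c9696 c5544 c5502 c5519 c5516 c5526 (k4 c5374 c5373 c1218 c12632 (k2 c1935 c703 (k1 c18001 k0)))) (by decide +kernel)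
def c18796 : PP 9 3 T 0x2000000000000082000120000000000000000000080000000200000000000002000000000000000000000000100000000000000000000000000000000000 := rS 0x228de25b87c640f9895c7e14e08472171e8a4761f119248eb34fb2c4eb579a4d4299 (k8 c5447 c5398 c5444 c5540 c5422 c5570 c5420 c5572 (k8 c5574 c5520 c5334 c5331 c5517 c5332 c8199 c5436 (k8 c5433 c5317 c431 c17923 c5458 c1777 c18795 c17998 (k4 c17815 c18620 c1714 c15375 (k2 c5691 c3584 (k1 c2950 k0)))))) (by decide +kernel)
def c18797 : PP 9 3 T 0x2000020000000000000000000080000000200000000001000000000000000000000000000000000000000000000000000000008000010 := rS 0x5480d2e670bbd52a65 (k8 c18353 c5446 c5519 c5433 c1903 c1073 c1109 c1906 (k2 c5642 c18657 k0)) (by decide +kernel)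
def c18798 : PP 9 3 T 0x2000000000000006000120000000000000000100080004000200000000000000000000000000000000000000100000000000000000000000000004000000 := rS 0x3c63a492389d5bb62d02c1ef706bd4bb98 (k8 c18346 c17796 c5519 c5522 c5333 c5369 c5516 c10910 (k8 c5212 c5573 c5570 c5520 c5334 c2159 c18796 c18794 k0)) (by decide +kernel)
def c18799 : PP 9 3 T 0x6000000000000006000120000000000000000100000004000200000000000010000000000000000000000000000000000000080000040400000004000402 := rS 0x6f9fbe714409f4df1371f842013664706a450e1b4bef11c81c2e311b8f6229135a3ce2b3139cd6bb668a4d4263698cc7e59 (k8 c18352 c5318 c5316 c15747 c5395 c5398 c5444 c5501 (k8 c5212 c5422 c5419 c5570 c5574 c5571 c5526 c5523 (k8 c5374 c5371 c5436 c5435 c5434 c5433 c5432 c5317 (k8 c9696 c1054 c665 c5649 c335 c331 c5658 c18037 (k8 c299 c2160 c5537 c2624 c12633 c1061 c2747 c699 (k4 c3604 c17922 c18032 c2950 (k1 c10493 k0))))))) (by decide +kernel)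
def c18800 : PP 9 3 T 0x2000000000000006000120000000000000000100080004000200000000000000000000000000000000000000000000000000000000000000000000000010 := rS 0x37dad14207cc881171f844b1d4e3c0421d0100487ef4606d32a11c85c7a291d87c464923acd96275aed9a2fd2d02c1ef706bd4bb98 (k8 c18346 c17796 c5519 c5522 c5333 c5369 c5516 c10910 (k8 c5542 c5501 c5212 c5422 c5570 c5420 c5574 c5520 (k8 c5334 c5331 c5517 c5332 c8199 c5436 c5433 c5317 (k8 c5398 c5447 c18797 c18798 c5505 c12616 c18799 c5642 (k8 c1995 c265 c5649 c17923 c551 c1218 c5458 c1777 (k8 c702 c5658 c17998 c17815 c18694 c459 c2950 c10298 k0)))))) (by decide +kernel)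
def c18801 : PP 9 3 T 0x1000000040000000000000000000000000200000000000000000000000400000000004000000020000004000000000000014000000010 := rS 0xbea1308fc2e3d (k4 c5436 c5433 c5318 c1579 (k2 c2826 c18048 (k1 c5663 k0))) (by decide +kernel)
def c18802 : PP 9 3 T 0x4000000000000000120040000000000000100000000000200000000000000000040000000000000000000000010000000000001410400000000010400 := rS 0x38100e33f84896571c8fc0e371e83cf60d (k8 c5522 c5372 c5369 c5436 c5435 c5432 c5318 c5317 (k8 c5313 c12638 c12617 c2917 c15481 c5670 c3590 c1716 k0)) (by decide +kernel)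
def c18803 : PP 9 3 T 0x2000000000000000000020000000000000000100000004000000100000000010000000000000000000000000100000000000000000000000000000020400 := rS 0x40e264543a451f017fe61068b (k8 c18350 c18355 c18346 c5544 c5502 c5526 c5374 c5373 (k4 c2966 c703 c16948 c18001 k0)) (by decide +kernel)
def c18804 : PP 9 3 T 0x4004400000000005000020040000000000000100000000000200002000000000000000050100000000000000000010000000000001410400000000010400 := rS 0x25138d56f32f6da1 (k8 c18539 c5212 c5420 c18802 c4935 c2951 c10379 c1698 k0) (by decide +kernel)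
def c18805 : PP 9 3 T 0x4000400000000015000020040000000000000100000000000200002000000000000000050100000000000000000010000000000001410400001100010400 := rS 0x27536e04928503e27195c72071b83c529f13ed8960d3f84b423f (k8 c5318 c18539 c12617 c2917 c5522 c12638 c5212 c5570 (k8 c5572 c8199 c5369 c5435 c5432 c5317 c5313 c15481 (k8 c18804 c5463 c5578 c18620 c9121 c1191 c1695 c13096 k0))) (by decide +kernel)
def c18806 : PP 9 3 T 0x2000400000000010000020000000000000000000000004000200000000000000000000000000000000000000100000000000000000000000000004000010 := rS 0x3097d368070902287d318084ac9108043af00c8a4761f11e4d669f6589d6aaddb34763b369fbc96f32491c6643090463a5a07bdc1af505d2b423faca24bb98 (k8 c18346 c17796 c18356 c18793 c5318 c18539 c18771 c5516 (k8 c5519 c5522 c5333 c5369 c10910 c2159 c18803 c12617 (k8 c2808 c5316 c5520 c5334 c5540 c12638 c17892 c15747 (k8 c18699 c18800 c5501 c5212 c5573 c5422 c5570 c5420 (k8 c5572 c5574 c13294 c5331 c5517 c5332 c8199 c5315 (k8 c18794 c118 c9696 c431 c1177 c18795 c5642 c9752 (k8 c18801 c18694 c18805 c1714 c298 c1192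 c1746 c18730 (k1 c5663 k0)))))))) (by decide +kernel)
def c18807 : PP 9 3 T 0x2000000000000000000020000000000000000000080000000000000000000000000000000000000000000000000000000000000000000000000008000010 := rS 0xd8005480cce6b05bd4ca69 (k8 c18347 c18353 c5519 c5516 c5523 c1903 c1109 c1906 (k2 c5642 c17916 (k1 c665 k0))) (by decide +kernel)
def c18808 : PP 9 3 T 0x6000000000000015000120040000000000000100000004000200000000000010000000000000000000000000000000000000080000040400000004000402 := rS 0x78cfea070451347d37c4d33e10804d991c1a91592814ba74386236bc46639188dc7b11489ad1e715989ce6b5db344b269 (k8 c18347 c18352 c5501 c5212 c5422 c5419 c5570 c5574 (k8 c5571 c5526 c5523 c5374 c5371 c5436 c5435 c5434 (k8 c5317 c5316 c9696 c665 c16365 c5649 c1274 c1229 (k8 c937 c2061 c335 c332 c5658 c18037 c299 c2160 (k8 c5537 c2441 c12633 c1061 c2747 c5679 c3604 c1192 (k4 c1191 c3058 c5578 c5670 k0)))))) (by decide +kernel)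
def c18809 : PP 9 3 T 0x2000400000000010000020000000000000000000000004000200000000000000000000000000000000000000000000000000000000000000000000000010 := rS 0xc25f4da01c2408a04822258eb24faf01098c3a0200b4c87ef4606f625a68864663f0783453b31d87c46f72482dea47c9d29669f6589d6bb6ace87305d (k8 c17796 c18346 c18539 c18793 c5212 c5422 c5570 c5420 (k8 c5572 c5574 c18771 c13294 c5520 c5519 c5516 c5334 (k8 c5333 c5331 c5517 c5332 c18699 c8199 c5522 c5369 (k8 c5318 c5316 c5315 c5501 c10910 c18800 c18807 c18806 (k8 c5505 c12616 c15747 c18808 c5642 c1995 c9752 c265 (k8 c5649 c18801 c1177 c551 c1218 c702 c12617 c18694 (k4 c18805 c1714 c298 c1192 (k2 c1746 c18730 (k1 c5663 k0))))))))) (by decide +kernel)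
def c18810 : PP 9 3 T 0x9000400000000000000000000000000000000000080000000000000000000000000080014000000000000000000000000000000004140100000000000000 := rS 0xf266405ebe1 (k4 c5538 c5519 c2953 c5688 (k2 c17894 c2500 k0)) (by decide +kernel)
def c18811 : PP 9 3 T 0x8000400000000002001100000040000000400100000000000000000000000000400000080000000000000000000000000000000000000000000000000000 := rS 0x367e2db6ee09d5e587bb722a75ffdb709f5eb2f0ab156ed946a550c355f0b (k8 c5587 c5584 c5509 c5398 c5399 c5449 c5212 c5573 (k8 c5421 c5423 c5420 c5575 c5572 c5213 c5223 c5431 (k8 c5428 c5615 c5639 c5598 c7591 c3622 c3625 c2235 (k4 c3384 c5626 c3338 c5690 k0)))) (by decide +kernel)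
def c18812 : PP 9 3 T 0x8000400000000012001020000040000000000100000000000200000000000000400000080000000000000000000000008000000055400000000200000002 := rS 0x46636558be31737cc0ddd77b9298af572328d98331147e257bb6d0a4d4a2f (k8 c9707 c5399 c5444 c18539 c5212 c5575 c5527 c5526 (k8 c5371 c5315 c18811 c5350 c5351 c5600 c5601 c5605 (k8 c17864 c2661 c669 c1062 c5667 c1299 c1370 c6204 (k4 c12612 c2857 c3264 c3596 k0)))) (by decide +kernel)
def c18813 : PP 9 3 T 0x68000000000000000000020001400400000000000000000000010040001000000000000000000000000000000100000000000000000000000000000000000 := rS 0x467eb17fbc1a4d0587a1ef78986c2df68541be5128b (k8 c18350 c18356 c18351 c18355 c18349 c18357 c5587 c5509 (k8 c5527 c5375 c5373 c5515 c5628 c3615 c3614 c5637 (k4 c3450 c5634 c3507 c5697 k0))) (by decide +kernel)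
def c18814 : PP 9 3 T 0x8000000000000004002020000000000000000000000004000010000801000000000000000000000000000000100000000000080040000000000020000400 := rS 0x1afa3e445bb8f8dbe3767c6dff17f3 (k8 c5547 c5390 c5389 c5611 c17719 c2689 c2213 c18813 (k4 c5230 c5612 c5615 c337 (k2 c2002 c5659 k0))) (by decide +kernel)
def c18815 : PP 9 3 T 0x1000400000000006000020000000000000000100080004000200100000000000000000000000000000000000100000000000000000010000000004010002 := rS 0x6cd1dbadbbf642f981bbee75e2bd5dbd8766d2bbe13006861ccd122d31812774033e4a7f6f04896570c8cc723f6081c6237d683cf60d3c8ec924f05e4d46a517bfc8e241ef8cfad2f71144e350e24c86addb685e27562964ba89 (k8 c18356 c17796 c18352 c18348 c18354 c9696 c18539 c5212 (k8 c5573 c10701 c5444 c5649 c331 c5570 c335 c5658 (k8 c14662 c2827 c5579 c5436 c17815 c5520 c11059 c9707 (k8 c5399 c5449 c13294 c5516 c5335 c5334 c5332 c5524 (k8 c5522 c5372 c5369 c5437 c5435 c5434 c5432 c5319 (k8 c5318 c5317 c5316 c5315 c5313 c12638 c12617 c18802 (k8 c2917 c5012 c2564 c5670 c938 c1744 c3568 c3567 (k8 c940 c1994 c4564 c18810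 c2135 c4583 c5024 c18814 (k8 c18811 c5348 c5349 c5600 c5601 c5603 c17864 c669 (k8 c1062 c5667 c983 c982 c3293 c4436 c3292 c2093 (k1 c3589 k0))))))))))) (by decide +kernel)
def c18816 : PP 9 3 T 0x14000020000000000000000000000000000000000000044000000000000000001454000000100000050000000000000000000000020402 := rS 0x1f9148044cdf1143a44d68f019b73083 (k8 c18355 c18346 c665 c28 c5526 c5523 c5374 c5373 (k4 c5371 c2746 c703 c18001 (k2 c3604 c13274 (k1 c1241 k0)))) (by decide +kernel)
def c18817 : PP 9 3 T 0x2000020000000000000000000000000000000000000002000000040080000000000000000000200001000400000000000000000000000 := rS 0x4eb1da3113d9acf263 (k8 c5395 c5524 c5523 c5372 c5371 c2136 c941 c1240 (k1 c18019 k0)) (by decide +kernel)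
def c18818 : PP 9 3 T 0x400000000202002000000000000000000000000000000000000000000000000000000000000000000000000000400040400000000000000000000000 := rS 0x36fcad9f8b76f182c8a9eeea352a58c6614ab271f7dd4e05f2fb349958a75 (k8 c18354 c18348 c18353 c18347 c18357 c18351 c5607 c5388 (k8 c5387 c5608 c5396 c5446 c5445 c5395 c3597 c5399 (k8 c5449 c5613 c5428 c5615 c17936 c3600 c1817 c5626 (k4 c3338 c5619 c3379 c5690 k0)))) (by decide +kernel)
def c18819 : PP 9 3 T 0x1000400000000016000020000000000000000100080004000200100000000000000000080000000000000000100000000000040000000000000004000002 := rS 0x2350ff86e6cf8dbfe2f4987f9a7200d067b78724927934da4b06bbc1096319852ac92f85cee802042440fc79494486e33ac4241157fb887037abfc8e4513aac38f17bab56a73599c76c0bd0994d28945e618a75 (k8 c18354 c18348 c18346 c18350 c18356 c18347 c18353 c18539 (k8 c5516 c5212 c5571 c5574 c5419 c5422 c5573 c5333 (k8 c9696 c5649 c2121 c5570 c335 c5520 c11059 c5519 (k8 c16948 c10701 c5658 c5584 c18816 c12617 c5421 c663 (k8 c3602 c1060 c5012 c17728 c334 c333 c4777 c18815 (k8 c298 c938 c5433 c1054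 c5396 c5446 c5445 c5395 (k8 c3597 c12636 c4344 c5522 c12638 c665 c5521 c5335 (k8 c5334 c5317 c18817 c2564 c18810 c2135 c1708 c5592 (k8 c4123 c18812 c5390 c5389 c5611 c17719 c18818 c5230 (k2 c5515 c18813 (k1 c3135 k0))))))))))) (by decide +kernel)
def c18820 : PP 9 3 T 0x4000000000002000120040000000000000000000000000000000000044000000000040440000000000000100010001000400000000000000000000000 := rS 0x38fc29c889ed0e91359e51e6341a2d0a89 (k8 c18356 c18349 c18350 c18355 c5395 c5526 c5524 c5523 (k8 c5374 c5373 c5372 c5371 c18019 c5458 c1777 c14199 k0)) (by decide +kernel)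
def c18821 : PP 9 3 T 0x400000000202001100040040000000000100000000000200000014000000000000000000000040000080000200000000000000000010400000000200 := rS 0x309b3f1d460af38ff2c3e4eedfb376cf9153afc32bdc2ac55bb649a8d4aa1 (k8 c5398 c5399 c5449 c5444 c5212 c5573 c5421 c5423 (k8 c5575 c5315 c5431 c5428 c5615 c17864 c1817 c5223 (k8 c5639 c5637 c5598 c7591 c1752 c942 c3625 c5671 (k4 c5626 c3338 c1801 c5781 k0)))) (by decide +kernel)
def c18822 : PP 9 3 T 0x400000000012001020040040000000000100000000000200000014000000000000000000000040000080000200008000000055400010000200000202 := rS 0x8cc6cab17c62e6f981bbaeca62bd5c8ca366dcc451f895eedb422f (k8 c9707 c18539 c5212 c5575 c5527 c5526 c5371 c18821 (k8 c5213 c5350 c5351 c5600 c5601 c5605 c2661 c669 (k8 c1062 c5667 c1299 c1370 c6204 c12612 c2857 c3264 (k1 c3596 k0)))) (by decide +kernel)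
def c18823 : PP 9 3 T 0x1000400000000016000020000000000000000100080004000200100000000000000000000000000000000000100000000000040000000000000004000002 := rS 0x7c637b9b3e36ff8bd261d39f368449bccf6334e4b09123f0406e4b3c8ce392493c9b9365ac4c6c930a54be17368d5270d8592c1be33e820ee802004822aff710e06f57f91c8a2755871e2f756ad4e6b338ed817a142a2d1269329d58b98 (k8 c18346 c18348 c18354 c18353 c18347 c18356 c18350 c18349 (k8 c18539 c5516 c5212 c5571 c5574 c5419 c5422 c5573 (k8 c5333 c9696 c5649 c2121 c5570 c335 c5520 c11059 (k8 c5519 c16948 c10701 c5658 c5584 c18816 c12617 c18815 (k8 c298 c938 c12636 c12625 c5462 c5522 c12638 c5587 (k8 c5509 c5444 c331 c665 c5433 c1054 c5446 c5445 (k8 c5396 c5395 c5421 c5420 c13294 c5521 c5335 c5334 (k8 c5317 c663 c17728 c3597 c3602 c333 c334 c1060 (k8 c4777 c5012 c18819 c18820 c2560 c941 c940 c18810 (k8 c5547 c1708 c4123 c18822 c5390 c5389 c5611 c17719 (k4 c18818 c2689 c18813 c5230 k0))))))))))) (by decide +kernel)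
def c18824 : PP 9 3 T 0x14000000000000000000000000000000000000100000045050000000000000000010000000000000000000000005540000000020000000 := rS 0x405e6ab (k4 c2121 c334 c13274 c3593 k0) (by decide +kernel)
def c18825 : PP 9 3 T 0x9000400000000000000000000000000000000000080000000000000000004000000080010000000000000000000000000000000004140100000000000000 := rS 0xcf (k2 c2564 c18810 k0) (by decide +kernel)
def c18826 : PP 9 3 T 0x9000400000000002000020000000000000000100080000000200000000006000000100010000000000000000000000000000000000140000000000010002 := rS 0x389bec64e8e47f113d9acf2b365ad76c5f0b9b4164bd08362aaf (k8 c5584 c1241 c5522 c18539 c12638 c5516 c665 c5433 (k8 c1054 c5212 c5422 c5420 c5574 c5524 c5523 c5372 (k8 c5371 c5318 c5317 c1240 c17977 c18825 c6118 c12672 k0))) (by decide +kernel)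
def c18827 : PP 9 3 T 0x4000000000002000120040000000000000000000000000000000000044000000040020400000000000000100210001000400000000000000000000000 := rS 0x18ed3 (k2 c2136 c941 (k1 c18820 k0)) (by decide +kernel)
def c18828 : PP 9 3 T 0x8000400000000002001100000040000000000100000000000200000000000000400000080000000000000000000000400080000000000010000000000002 := rS 0x1b3476eb6efd90be606efb9d78af576f61d983233608c75a9351a95e22f (k8 c9707 c9696 c5399 c5449 c5444 c5437 c5434 c5319 (k8 c5316 c5315 c18811 c5348 c5349 c5600 c5601 c5603 (k8 c17864 c669 c1062 c5667 c983 c982 c3293 c4436 (k2 c3292 c2093 (k1 c3589 k0))))) (by decide +kernel)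
def c18829 : PP 9 3 T 0x1000000000202010020004401100000000000000000000000000000000000010000000000000000000000000000001000400000000000000000000000 := rS 0x39fcae5fade170b753dde237b51a94c661 (k8 c5445 c5395 c5399 c5449 c5375 c5371 c5613 c5428 (k8 c5616 c17909 c3600 c5632 c3348 c5619 c3430 c5692 k0)) (by decide +kernel)
def c18830 : PP 9 3 T 0x80004000000000060000200000400000000001000000040002000000000000004000800a0000000000000000100000400080000040000010000000000402 := rS 0x46a1ff0dcd9f1b81bfea6fb8fc5c9748e9f9c2601a12f85cdbe1 (k8 c5459 c665 c5433 c1054 c18539 c2135 c4583 c5592 (k8 c6044 c18828 c5391 c5390 c5608 c5387 c5388 c5389 (k8 c5607 c5611 c17719 c18829 c5230 c5515 c18813 c3135 k0))) (by decide +kernel)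
def c18831 : PP 9 3 T 0x1000400000000016000020000000000000000100080004000200100000000000000000000000000000000000100000000000000000000000000004000002 := rS 0x3668edd6ddfb217cc0ddf5e2bd5dbd8766dce96122079496250163259a6de71f85a0fcc3998b47777a0010e13ef8c80122584616af86b5e06fff70cd8231d6834764927bd48f9338acd96735aa8d2a2f2f85cda0b21ab556f72289f6da11a871e293 (k8 c5444 c9696 c5649 c331 c18539 c5212 c5570 c335 (k8 c5333 c2121 c5573 c10701 c5516 c665 c5433 c1054 (k8 c9707 c5446 c5449 c5422 c5419 c5420 c5574 c5571 (k8 c13294 c5520 c5519 c5335 c5334 c5332 c5522 c5437 (k8 c5434 c5319 c5316 c5658 c11059 c16948 c5507 c5509 (k8 c5584 c5587 c18816 c12638 c12617 c18815 c5462 c12625 (k8 c1714 c12636 c298 c4344 c938 c18823 c1994 c4564 (k8 c18824 c18826 c5459 c1779 c18827 c18830 c8156 c18820 (k8 c9158 c940 c3969 c17894 c333 c4777 c18814 c18821 (k8 c5213 c5348 c5349 c5600 c5601 c5603 c669 c1062 (k8 c5667 c983 c982 c3293 c2038 c3292 c2093 c3589 k0))))))))))) (by decide +kernel)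
def c18832 : PP 9 3 T 0x1000400000000016000020000000000000000100080004000200000000000000000000000000000000000000100000000000000000000000000004000002 := rS 0x2a628f2899be025b08471561c88a44d68f7b9c566735aedb4203789b41798 (k8 c18346 c5516 c665 c9696 c28 c18539 c5212 c5422 (k8 c5419 c5574 c5571 c5333 c5526 c5523 c5374 c5371 (k8 c5649 c2121 c18831 c13277 c2159 c2139 c2746 c703 (k4 c17728 c3604 c2447 c9222 k0)))) (by decide +kernel)
def c18833 : PP 9 3 T 0x2000020000000000000000000080000000200000000000000000000000000000000000000000000000000000000000000000008000010 := rS 0x1fa1f (k2 c5517 c1075 (k1 c18797 k0)) (by decide +kernel)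
def c18834 : PP 9 3 T 0x1000000000082000100000000000000000000000000000200000000000000000400000000000000000000000000000000000001400400000540011001 := rS 0x385bfe3207ce28251e8a5669f13ad526a1 (k8 c5398 c5444 c5422 c5570 c5572 c5574 c8199 c5436 (k8 c12632 c18694 c17998 c17815 c18620 c2950 c1714 c5691 k0)) (by decide +kernel)
def c18835 : PP 9 3 T 0x400000000012000020000000000000000000000004000200000000000000000000000000000000000000100000000000000000000000000000000010 := rS 0x22a6f579fbdde33bb34dafcf9c0206ff6ac4c8a810833e3aab71f85e09c0e884fa02008e47e070b8f6228748834d68f14ecc761f1192416f523e4ce2b34fb2c4e735aab76d59d0fb526a14da64374a62a2cea8942e610659 (k8 c18352 c18355 c18346 c18349 c18356 c18354 c18350 c18348 (k8 c18771 c18833 c5447 c5397 c5398 c5444 c18809 c18539 (k8 c18793 c5212 c5573 c5422 c5419 c5570 c5420 c5572 (k8 c5574 c5571 c13294 c5520 c5519 c5516 c5334 c5331 (k8 c5517 c5332 c18699 c8199 c5526 c5523 c5522 c5374 (k8 c5373 c5371 c5436 c5433 c5432 c5318 c5317 c18832 (k8 c5642 c12650 c265 c263 c17923 c5649 c5458 c1777 (k8 c1281 c551 c1651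 c18834 c699 c2966 c703 c18677 (k8 c11059 c16948 c18001 c5592 c13274 c2552 c2504 c10798 (k4 c17987 c5204 c5670 c5584 (k2 c2919 c1241 (k1 c3604 k0)))))))))))) (by decide +kernel)
def c18836 : PP 9 3 T 0x1000400000000006000020000000000000000100000004000200000000000050000000000000000000000000200000000000000001000000000004000402 := rS 0x3cd9ed16fbfdade08a1fbc7f3409f4df130804e383522aac386d2fbc40e17188f6229135a3ce2b3139cd6bb6d0a4d426330fbc8659 (k8 c18352 c12616 c5505 c5445 c5395 c5398 c5444 c18539 (k8 c5212 c5422 c5419 c5570 c5574 c5571 c5526 c5523 (k8 c5374 c5371 c5436 c5434 c5433 c5432 c9696 c1054 (k8 c665 c5649 c2121 c335 c331 c5658 c299 c12617 (k8 c12633 c1061 c2747 c699 c17922 c13779 c9934 c3604 (k8 c5204 c808 c3011 c2950 c5459 c1770 c555 c16068 k0)))))) (by decide +kernel)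
def c18837 : PP 9 3 T 0x400000000012000020000000000000000000000004000200000000000000000000000000000000000000000000000000000000000000000000000010 := rS 0x108eb8fc2f04e074420200a3036991c85c1a29d98ec3e237b92416f523d2997b6ace87da59 (k8 c18352 c18809 c18539 c18793 c5212 c5420 c18771 c5520 (k8 c5519 c5516 c5334 c5333 c5331 c5517 c5332 c18699 (k8 c8199 c5522 c5433 c5317 c5447 c18833 c18835 c18836 (k8 c5642 c265 c263 c17923 c5649 c5458 c1777 c551 (k2 c18834 c702 k0))))) (by decide +kernel)
def c18838 : PP 9 3 T 0x14000120000000000000000100000004000200100000040000000000040000000004000000100100000000000000540010000000000402 := rS 0x984480af7ffb8e2b339ad55bb6 (k8 c5212 c5573 c5422 c5419 c5574 c5571 c5658 c11059 (k4 c5584 c14662 c18816 c298 (k1 c12617 k0))) (by decide +kernel)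
def c18839 : PP 9 3 T 0x1000400000000015000020000000000000000100080004000200000000000000000000000000000000000000100000000000000000000000000004000002 := rS 0x22b1337c04211c81bf06a4569aac38434a0ce229135a3dee4738acc4eb556b459be001bc4da0b4ba04c59339edb4269 (k8 c18347 c18539 c5212 c5419 c13294 c16365 c937 c1229 (k8 c5516 c665 c9696 c28 c5195 c5537 c5459 c5573 (k8 c5422 c5570 c5574 c5571 c5520 c5333 c5526 c5523 (k8 c5374 c5371 c5316 c9823 c10701 c5649 c2125 c2018 (k8 c335 c332 c18458 c2631 c18838 c13277 c2139 c2746 (k2 c703 c1242 (k1 c3604 k0))))))) (by decide +kernel)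
def c18840 : PP 9 3 T 0x11000120000000000000000100080000000200000000000000000000000000000000001400000100000000000000000000000000010000 := rS 0xe3209fc244b2b8e47e071b83c1a0bc9acd3fb6 (k8 c5212 c5572 c5574 c13294 c5516 c5522 c5369 c5435 (k8 c5432 c5318 c5317 c5313 c12638 c12617 c2917 c298 (k2 c15481 c15026 k0))) (by decide +kernel)
def c18841 : PP 9 3 T 0x400000000010000020000000000000000000000004000200000000000000000000000000000000000000100000000000000000000000000000000012 := rS 0x2b88a1033869026201e4e947139ac55bb6ace853a9bf06c767ed45964ca69 (k8 c18347 c18353 c18352 c18350 c18809 c18699 c18837 c5195 (k8 c5536 c5458 c18539 c18793 c5212 c5573 c5421 c5419 (k8 c5571 c18771 c13294 c28 c16365 c937 c18839 c1903 (k4 c18840 c2966 c14568 c1078 k0)))) (by decide +kernel)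
def c18842 : PP 9 3 T 0x1002000000000015000120000000000000000100080004000200100000000000000000000000000004000000100000000004000000000000000100010001 := rS 0x7e2bd53ee303388b032f9ddfff321a022825091ed0e0d3c8a43e232491f26b36589d6bb64eb4536cdcc1d50a89 (k8 c18356 c18349 c18354 c18346 c5537 c5536 c5459 c5458 (k8 c5212 c5422 c5570 c5420 c5574 c13294 c5520 c5334 (k8 c5331 c5517 c8199 c5524 c5522 c5373 c5372 c12617 (k8 c12632 c18694 c18840 c2808 c17998 c3011 c938 c1746 (k8 c17786 c9612 c17952 c5663 c5658 c5835 c5584 c5682 (k1 c1241 k0)))))) (by decide +kernel)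
def c18843 : PP 9 3 T 0x400000000010000020000000000000000000000004000200000000000000000000000000000000000000100000000000000000000000000000000010 := rS 0x982f184fc108eaade07d0e8843663010040e0d359e4523b1182f274a4fb2c4fb6ace858e9d70b7fc1b1d9fb4b265 (k8 c18353 c18352 c18809 c18699 c18837 c5195 c5538 c5460 (k8 c5458 c5535 c18539 c18793 c5212 c5570 c5420 c5572 (k8 c18771 c13294 c5516 c5331 c5332 c8199 c5524 c5523 (k8 c5522 c5432 c18841 c5642 c9752 c1109 c265 c263 (k8 c18801 c5649 c1281 c551 c18842 c15103 c17682 c5663 (k2 c18034 c1520 k0)))))) (by decide +kernel)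
def c18844 : PP 9 3 T 0x1000000000000015000120000000000000000100080004000200000000000000000000011000000000001400200000000000000000000000000000000002 := rS 0x1c7e86e29138e1bc20814b988daf101c45226b4782f2671599cd62b5db4050e69 (k8 c18347 c5373 c2141 c5212 c5422 c5421 c5419 c5574 (k8 c5571 c13294 c5516 c5526 c5523 c5374 c5371 c28 (k8 c9696 c665 c16365 c1229 c937 c18840 c2746 c702 (k4 c703 c3604 c2161 c1242 (k2 c5649 c18458 k0))))) (by decide +kernel)
def c18845 : PP 9 3 T 0x400000000010000020000000000000000000000004000200000000000000000000000000000000000000000000000000000000000000000000000010 := rS 0x819ddfe808a7cc881112c7556f00e884360200b4c87ef4633536d14ef8363ed5a89d67b6ac91c92230fd2b66331f9ec1a29d0e60b265 (k8 c18353 c18352 c18346 c18539 c8199 c5522 c5372 c5318 (k8 c5316 c18699 c18771 c5517 c5331 c5334 c5520 c18793 (k8 c5212 c5574 c5570 c5422 c18809 c18837 c5195 c5458 (k8 c5459 c5536 c5537 c18843 c5505 c12616 c15747 c18844 (k8 c5642 c1109 c265 c263 c5649 c1281 c551 c1218 (k8 c702 c5658 c17998 c18694 c18840 c3011 c939 c17786 (k1 c9612 k0)))))))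 (by decide +kernel)
def c18846 : PP 9 3 T 0x2000000000000022000020000000000000000200000000000200000000000000000000000000000000000000000000080000000000000000000000000002 := rS 0x4037da44881b55ae357a915588c0e199fef380bdc663f188f4d66d5490c831d2591d269f4ab182e0d3ca653607319ed3a2188abcca69 (k8 c18347 c18353 c1245 c5371 c5528 c5412 c5372 c5395 (k8 c5432 c5397 c5530 c5524 c5522 c5433 c10500 c5446 (k8 c5448 c5444 c5562 c5342 c5341 c5340 c5561 c5531 (k8 c5529 c5523 c5436 c5434 c5318 c5316 c5498 c5502 (k8 c5540 c5544 c17916 c664 c931 c932 c336 c1998 (k8 c331 c2032 c2890 c2034 c3593 c3588 c2946 c2084 (k1 c941 k0))))))) (by decide +kernel)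
def c18847 : PP 9 3 T 0x400000000022000020000000000000000200040004000200000000000000000000000000000000000000000000000000000000000000000000000002 := rS 0x96681dd9afc33fb59fe139318be07889ed0e0d3ca74429954844c69b4aedc7e190b8a7426932b14ea85 (k8 c18349 c18354 c18348 c18353 c18347 c18539 c8199 c5433 (k8 c5315 c5318 c17858 c5446 c5397 c5395 c5558 c5531 (k8 c5530 c5528 c5412 c5524 c5522 c5373 c5372 c5371 (k8 c5432 c1054 c10500 c17749 c5535 c2560 c18846 c18387 (k4 c17965 c2504 c10798 c5688 (k2 c18020 c1708 k0)))))) (by decide +kernel)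
def c18848 : PP 9 3 T 0x44000000000000000000000000000000000000000400014000000000000000000041000001504000000080000000000000000000000000 := rS 0xf720d0a89 (k4 c18356 c18349 c18355 c12790 (k1 c18000 k0)) (by decide +kernel)
def c18849 : PP 9 3 T 0x2000000000000060000020000000000000000000000000000000000000000000000000000000000000000000100000020000000000000000000000000000 := rS 0x44d5e8748a3f67017f999526d35a2cd265 (k8 c18353 c18347 c18350 c5523 c5529 c5531 c17916 c5544 (k8 c5502 c18383 c5526 c5374 c5373 c2988 c755 c18848 k0)) (by decide +kernel)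
def c18850 : PP 9 3 T 0x22000100000000000000000200000000000200000000000000000000000000000000000000000004050000000000000000000040000018 := rS 0x6ffcdc248f1a004e2523a4d3fb71f8642e29f0b8c742111a753241 (k8 c5340 c5530 c5412 c5409 c5528 c18438 c1773 c5456 (k8 c8199 c5433 c5315 c5318 c17858 c5448 c5444 c5562 (k8 c5559 c268 c18544 c18620 c14149 c1716 c5588 c2946 (k1 c5691 k0)))) (by decide +kernel)
def c18851 : PP 9 3 T 0x60000020000000000000000200000000000000000400000020000000000000000040000000100000000000000000000000000040000000 := rS 0x333fe02fd43a44d68f54ecc8647419950a69 (k8 c18347 c18349 c18353 c18355 c5562 c5561 c18383 c5531 (k8 c5526 c5523 c5374 c5373 c2337 c1927 c2341 c18014 (k1 c18848 k0))) (by decide +kernel)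
def c18852 : PP 9 3 T 0x1000000000000000120040000000000000200000000000000000400044000000400020000000000000000100110400000000000004000000000000400 := rS 0x7ef9f8e00d507a1d220d4791d8a8b3aa273083 (k8 c18355 c18346 c18356 c18354 c18350 c18348 c5562 c5526 (k8 c5522 c5374 c5373 c5369 c1711 c18001 c17987 c5592 (k2 c5670 c16323 k0))) (by decide +kernel)
def c18853 : PP 9 3 T 0x400000000002000020000000000000000200040004000200000000000000000000000000000000000000000000000000000000000000000000000010 := rS 0xadf7bf8eed081b3416f27afb6268d40abce0e367f8562f71d3c0fa1f0e86c047300edf26610c8e47e171e9ed0e6b14e84469d109b532b3d9ed0824b42a2cb265 (k8 c18353 c18352 c18350 c18349 c5342 c5340 c18845 c18383 (k8 c5532 c5530 c5529 c5528 c5412 c5409 c18539 c8199 (k8 c5523 c5373 c5372 c5436 c5433 c5318 c5317 c5315 (k8 c5445 c17690 c17858 c18847 c9719 c5642 c1109 c263 (k8 c1111 c17814 c5649 c18438 c499 c1330 c5456 c1647 (k8 c1773 c18850 c2988 c751 c754 c755 c18849 c18851 (k8 c5657 c2530 c2500 c2627 c449 c10798 c18852 c5586 (k2 c2892 c5683 k0)))))))) (by decide +kernel)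
def c18854 : PP 9 3 T 0x5000100000000000000000200000004000200000000000000000000000100000000000060100000800000080000000000000024000002 := rS 0xd322b555a274fb5f6c331f8c47a11219063a35 (k8 c332 c5341 c5340 c5561 c5558 c5436 c5434 c5318 (k8 c5316 c18772 c2187 c5572 c5570 c5573 c1589 c335 (k2 c13297 c3588 k0))) (by decide +kernel)
def c18855 : PP 9 3 T 0x2000400000000021000020000000000000000200000004000200000000000000000000000000000000000000000000000000000000000000000004000002 := rS 0x37dadf389115aab53989d3fb669fbd18813b38fc2621d64dea354a335925a0e25cde7130bc466391f81c62371ea451fa14ea6567b31284486418eb45facf332a4da6b42b14d265 (k8 c18353 c18347 c18348 c18349 c5523 c5529 c5531 c17916 (k8 c5543 c5542 c5501 c5341 c5340 c5561 c5558 c5559 (k8 c18383 c5532 c5530 c5412 c18539 c5526 c5374 c5436 (k8 c5435 c5434 c5432 c5318 c5317 c5316 c9696 c661 (k8 c667 c1060 c18710 c664 c663 c2064 c13053 c9823 (k8 c332 c1998 c17834 c18037 c16365 c5456 c1773 c777 (k8 c3935 c18854 c5505 c2084 c18719 c5572 c5570 c5419 (k8 c5422 c1589 c335 c18007 c17922 c3588 c2513 c10298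 k0)))))))) (by decide +kernel)
def c18856 : PP 9 3 T 0x21000020000000000000000000000004000000000000000000000000014000000000000000000000000002000000000000000015000000 := rS 0x66b1cee973da1cf26d54b25e1b362a150675 (k8 c18354 c18355 c18349 c18348 c18383 c5649 c1177 c5531 (k8 c5529 c5524 c5373 c5372 c1639 c10409 c726 c13053 (k1 c3607 k0))) (by decide +kernel)
def c18857 : PP 9 3 T 0x2000400000000061000020000000000000000200000000000200000000000000000000000000000100000000100000040001000000000000000000000010 := rS 0xaf81ad7dc6e389af431554acf6689 (k8 c18356 c18383 c5532 c5531 c5414 c18539 c5523 c18849 (k4 c5666 c18741 c1148 c5508 (k2 c5584 c10405 k0))) (by decide +kernel)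
def c18858 : PP 9 3 T 0x20004000000000a1000020000000000000000200000000000200000000000000000000000100000000000004000000000005000000000000000040000001 := rS 0xe3f08e936966fb5490a0f1fbd5ab513b2d3e191c8fc2e3d068a742234ec54429959ecc4a112092c8efd (k8 c5542 c5562 c5342 c5340 c5558 c5559 c18383 c5532 (k8 c5530 c5528 c5414 c5412 c5409 c18539 c8199 c5522 (k8 c5436 c5433 c5318 c5317 c5315 c5572 c5420 c5570 (k8 c5422 c5573 c17711 c18620 c3579 c18694 c3001 c2946 (k4 c18733 c1231 c6193 c5456 (k2 c1773 c15694 k0)))))) (by decide +kernel)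
def c18859 : PP 9 3 T 0x2000400000000001000020000000000000000200000004000200000000000000000000000000000000000000000000000000000000000000000000000010 := rS 0xe3ef466dd266158b25e01f0e98c04730086ccccf68864d629d09b553b3da164ca69 (k8 c18347 c18353 c18352 c18845 c18383 c5531 c5529 c18539 (k8 c8199 c5523 c5315 c5501 c5543 c17916 c1903 c18855 (k8 c9719 c5642 c9752 c263 c1111 c5649 c1177 c1330 (k4 c18856 c262 c18858 c18857 (k2 c5505 c754 (k1 c18741 k0)))))) (by decide +kernel)
def c18860 : PP 9 3 T 0x21000020000000000000000000000000000000000000000000000000001000000000000080000000000001000000000000000000000002 := rS 0x64cc69b4e9b53269 (k8 c18347 c5530 c5529 c5412 c1232 c1229 c17842 c16365 k0) (by decide +kernel)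
def c18861 : PP 9 3 T 0x1000400000000000000020000000000000000000000000000000000000000000000000015000000000000000000000400000000000000000000000000000 := rS 0x3c0873ce60ea85 (k4 c18349 c18354 c18346 c5524 (k2 c5373 c5688 (k1 c17952 k0))) (by decide +kernel)
def c18862 : PP 9 3 T 0x1000400000000061000020000000000000000200040004000200000000000000000000000000000000000000100000000000000000000000000004000002 := rS 0x789a593f70d52ecd7b3ccb61c2b8cc63a1d984486413081deafc338850ea978b14b2752e994d285 (k8 c18349 c18347 c18353 c17796 c18354 c18352 c18348 c9696 (k8 c5531 c5373 c5528 c18387 c17965 c2338 c5432 c661 (k8 c5340 c5561 c5558 c18383 c18539 c5434 c5316 c5313 (k8 c5649 c18772 c333 c5657 c17683 c18860 c332 c18719 (k4 c10897 c14662 c5236 c5579 k0))))) (by decide +kernel)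
def c18863 : PP 9 3 T 0x8000000000000000000000000000000000200000000000200000000008040000000010000000000000000000000000000000000000400000000000000 := rS 0x1c2491c8dc82df (k4 c5580 c5340 c5435 c5317 (k2 c3007 c3013 (k1 c17960 k0))) (by decide +kernel)
def c18864 : PP 9 3 T 0x1000400000000061000020000000000000000200040004000200000000000000000000000000000000000000100000000000000000000000000000000002 := rS 0xe124b548bee58bfdbfe2c98ed9cd105b21e4f756a5d2a1a579c87217188df42abd984486417e19c428754a14d265 (k8 c18353 c18347 c18349 c5531 c5373 c5528 c18387 c17965 (k8 c5340 c5561 c5558 c18383 c5413 c18539 c5435 c5434 (k8 c5433 c5317 c17749 c1245 c18862 c1904 c1073 c1908 (k8 c2103 c1076 c5678 c2530 c2133 c1181 c449 c17770 (k8 c5236 c5580 c18863 c1336 c5683 c5582 c5585 c450 (k2 c1652 c17960 k0)))))) (by decide +kernel)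
def c18865 : PP 9 3 T 0x1000400000000021000020000000000000000200040004000200000000000000000000000000000000000000100000000000000000000000000000000002 := rS 0x80fbdfeae8940d5ab5589cf6c9135a3f4315599c4226f12bf0ce2143aa51683449a4ca85 (k8 c18349 c18353 c18347 c18356 c18355 c18350 c5531 c5373 (k8 c5528 c18387 c17965 c5559 c1060 c5558 c667 c5532 (k8 c5414 c18539 c5526 c5523 c5374 c18864 c5419 c5421 (k8 c5422 c5573 c2631 c18007 c3602 c2571 c5584 c3070 (k1 c18077 k0))))) (by decide +kernel)
def c18866 : PP 9 3 T 0x4000400000000045000100000000000000000200000004000200000000002000000000000000000014000000000000000000000000000000000000000002 := rS 0xeda2f27bb2034974abf960d765abfc47219845e269 (k8 c18347 c9696 c5558 c5316 c17749 c5196 c1245 c5464 (k8 c5465 c5683 c1336 c2181 c1333 c9823 c5678 c2103 (k4 c1076 c2133 c449 c18863 k0))) (by decide +kernel)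
def c18867 : PP 9 3 T 0x1000400000000021000020000000000000000200040004000200000000000000000000000000000000000000000000000000000000000000000000000002 := rS 0x3ffe71281ad4e7b656c07de8c7e19cde7143a44d68fd0aac426d54acf662508a14d265 (k8 c18353 c18347 c18349 c5558 c5559 c18383 c5532 c5531 (k8 c5529 c5528 c5413 c18539 c5526 c5523 c5374 c5373 (k8 c667 c1060 c18387 c17965 c18865 c5505 c2141 c2030 (k8 c18866 c5419 c5422 c17736 c18007 c17922 c2570 c5694 k0)))) (by decide +kernel)
def c18868 : PP 9 3 T 0x1000400000000021000020000000000000000000040004000200000000002000000000010000000000000000000000000000000000000000000000000008 := rS 0x128ce4b983263b05bc9ea374e885321f35b2432f778077661b11a14ca59 (k8 c18352 c18353 c18349 c5409 c1109 c18383 c263 c5649 (k8 c499 c5315 c1177 c5523 c1111 c5530 c5528 c5412 (k8 c5435 c2337 c5657 c2530 c449 c17770 c18034 c18471 (k2 c18856 c5678 (k1 c1587 k0))))) (by decide +kernel)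
def c18869 : PP 9 3 T 0x400000000021000020040000000000000000000004000000000000000000000000010000000000000040000000000004000000000000000015000000 := rS 0x67981285f4cb25e1b3 (k8 c18383 c5649 c1177 c5530 c17795 c5678 c5663 c1587 (k1 c18856 k0)) (by decide +kernel)
def c18870 : PP 9 3 T 0x4000400000000040000020040000000000000200040004000200000000000000000000010000000000000000100000000000000000000000000000000010 := rS 0xf579c4d5e3a381852c19d0a74426d4c9ccc61f35bdde01dd986c0401f6ec447b445b14ca59 (k8 c18352 c18353 c18348 c18350 c18845 c5409 c18853 c18859 (k8 c18867 c5642 c1109 c18383 c263 c5649 c499 c5523 (k8 c1111 c9752 c9719 c5530 c5529 c5528 c5412 c18539 (k8 c5315 c18869 c1639 c18741 c18034 c2988 c755 c449 (k2 c18851 c5657 k0))))) (by decide +kernel)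
def c18871 : PP 9 3 T 0x1001400000000005000000000000000000000000000000000000000000000000000000010100000001000140000000000000000000000000000000000000 := rS 0x33928cd (k4 c13053 c5678 c5688 c1587 k0) (by decide +kernel)
def c18872 : PP 9 3 T 0x4000400000000040000020000000000000000200040004000200000000000000000000010000000000000000100000000000000000000000000000000010 := rS 0x26cc296f0a4c13927e85d3a6d4caa592f00eecc360200fb763b40cb14ca59 (k8 c18352 c18353 c18348 c5315 c18845 c18853 c18859 c18867 (k8 c5642 c1109 c18383 c263 c5649 c1177 c5531 c5530 (k8 c5529 c5412 c5433 c18868 c18870 c5438 c261 c17913 (k4 c18871 c1639 c1231 c17842 k0)))) (by decide +kernel)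
def c18873 : PP 9 3 T 0x4000000000000044000100000000000000000000000000000000001000000008000000000000000500000000000000050400000000000000001500000008 := rS 0x200ae242b56a6e138a43e89 (k8 c18356 c1111 c8199 c268 c5666 c1148 c2817 c18060 (k2 c5683 c451 (k1 c3070 k0))) (by decide +kernel)
def c18874 : PP 9 3 T 0x4000400000000040000020000000000000000200040004000200000000000000000000000000000000000000100000000000000000000000000000000010 := rS 0x1a8ac3eabce05f7925dea7768207c431439ad3b1510acc4a737b88d62f00eecc360200fb763b414e858a8b3aa24ca59 (k8 c18352 c18353 c18356 c18354 c18350 c18348 c18539 c8199 (k8 c18845 c18853 c18859 c18867 c5642 c1109 c18383 c263 (k8 c5649 c1330 c5409 c499 c9719 c5559 c5532 c5528 (k8 c5414 c5412 c5523 c5373 c5434 c5196 c5463 c18872 (k8 c2131 c1925 c1708 c5657 c17795 c18873 c2988 c2871 (k2 c5683 c17987 (k1 c2891 k0))))))) (by decide +kernel)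
def c18875 : PP 9 3 T 0x400000000021000020000000000000000000000004000000000000000000000000010000000000000040000000000004000000000000000015000000 := rS 0x33f249466a6552c9786cd0ac5 (k8 c18348 c18349 c18383 c5649 c1177 c5531 c5530 c13053 (k4 c5678 c18869 c1587 c17834 k0)) (by decide +kernel)
def c18876 : PP 9 3 T 0x9000400000000061000020000000000000000000040004000200000000000000000000010000000000000000000000000000000000000000001000000008 := rS 0x1e3c9a7d269b30a59fa1914e853a6d4c98daa2722bc03bb30db14ca59 (k8 c18352 c18353 c18348 c1109 c18383 c263 c5649 c5582 (k8 c433 c5585 c9752 c5530 c5529 c5412 c18539 c8199 (k8 c5315 c18868 c18875 c1639 c1231 c1638 c1643 c17842 (k2 c18620 c5236 k0)))) (by decide +kernel)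
def c18877 : PP 9 3 T 0x400000000040000020000000000000000200040004000200000000000000000000000000000000000000100000000000000000000000000000000010 := rS 0x813e9c1a67f37b7fe6b46592416942fbc9429771bd4efe16809c8ad7f70fc620f43a441a8f14e853b1510acc4a112591ce61f35b2432f778077661b01007dbb111ed112c53aa14ca59 (k8 c18352 c18353 c18349 c18354 c18348 c18356 c18845 c5409 (k8 c18853 c18859 c18867 c5642 c1109 c18383 c263 c5649 (k8 c499 c5315 c1177 c5523 c1111 c9719 c5562 c5342 (k8 c5558 c5559 c5532 c5528 c5414 c5412 c18539 c8199 (k8 c5526 c5522 c5374 c5373 c5369 c5434 c5318 c18874 (k8 c5507 c5582 c433 c18876 c5459 c2131 c1925 c1779 (k8 c1708 c15695 c5657 c17795 c5678 c2530 c450 c1757 (k8 c18694 c17931 c14125 c1148 c16323 c2136 c5666 c2871 (k2 c752 c17990 k0))))))))) (by decide +kernel)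
def c18878 : PP 9 3 T 0x400000000040000020000000000000000200040004000200000000000000000000000000000000000000000000000000000000000000000000000010 := rS 0x1a0f44bbccc071f7a30323135c5442b3129ccc6f711ac5e01dd986c0401f6ec76829d0b14ca59 (k8 c18352 c18353 c18348 c18539 c8199 c18845 c18853 c18859 (k8 c18867 c5642 c1109 c18383 c263 c5649 c1330 c5409 (k8 c499 c9752 c9719 c5559 c5532 c5528 c5414 c5523 (k8 c5434 c5315 c18877 c5505 c754 c18741 c18873 c1639 (k2 c5657 c18875 (k1 c1925 k0)))))) (by decide +kernel)
def c18879 : PP 9 3 T 0x41000400000000021000020000000000000000200040004000200000000000000000000010400000010004000000000000000000000000000004000000008 := rS 0x787c7ef1d24d36967e8e42e3d14e84469d10a644a432098c3e6b64bc03bb30d864ca59 (k8 c18352 c18353 c5315 c1109 c18383 c263 c5649 c1177 (k8 c5523 c1111 c9752 c5340 c5561 c5559 c5530 c5528 (k8 c5412 c5409 c18539 c8199 c5436 c5433 c5317 c18868 (k8 c18875 c1231 c1638 c6193 c18736 c17994 c5456 c5204 k0)))) (by decide +kernel)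
def c18880 : PP 9 3 T 0x400000000000000020000000000000000200040004000200000000000000000000000000000000000000000000000000000000000000000000000010 := rS 0x7c30205248df79fd43002238de4d569b5dea77f0b41fedff99215ab513b2d3fb67bbc03e1d0d80803edd88647e17188f50e91069ac53a111c5442b3d9ed04a112091d8a893aa2cb265 (k8 c18353 c18352 c18350 c18354 c18356 c18348 c5562 c5340 (k8 c5558 c5559 c18845 c18383 c5532 c5528 c5414 c5409 (k8 c18539 c8199 c5523 c5522 c5374 c5373 c5436 c5434 (k8 c5433 c5318 c5315 c18853 c18859 c18867 c5642 c1109 (k8 c263 c1111 c5649 c499 c18878 c5572 c5420 c5570 (k8 c5422 c5573 c18694 c17998 c2946 c3007 c18879 c5459 (k8 c2131 c1925 c9339 c2136 c1711 c5657 c1779 c450 (k8 c451 c10309 c10493 c5582 c2141 c3579 c13318 c262 (k2 c3608 c1579 k0))))))))) (by decide +kernel)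
def c18881 : PP 9 3 T 0x400000000021000020000000000000000000000004000000000000000001000000000200000000000040000000000001000000000004000040000000 := rS 0x1f81a33a550ea9d9a14d265 (k8 c18353 c18347 c18349 c18383 c5531 c5373 c97 c2064 (k2 c9823 c17965 (k1 c1075 k0))) (by decide +kernel)
def c18882 : PP 9 3 T 0x1001400000000061000020040000000000000200000004000200000000000000000000000000000000000000000000000000000000000400000040000002 := rS 0x3dc350e34128c94b988c2f11981c629954ecc864169f8b4269 (k8 c18347 c18539 c5236 c5579 c5340 c5561 c18383 c5531 (k8 c5530 c5434 c5432 c5316 c9696 c661 c16365 c1229 (k4 c18881 c5678 c18871 c10191 (k2 c1704 c18719 (k1 c14662 k0))))) (by decide +kernel)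
def c18883 : PP 9 3 T 0x400000000000000020000000000000000200000004000200000000000000000000000000000000000000000000000000000000000000000000000010 := rS 0xd524d00425cbef030074366301007dbe1dbec7260b0f8ee94570c8e40e3735e84469d109b533b3da314b265 (k8 c18353 c18352 c18348 c18845 c18383 c5530 c5529 c5528 (k8 c5412 c5409 c18539 c5523 c5435 c5432 c5317 c5315 (k8 c5313 c18880 c5332 c5517 c5516 c13294 c9578 c9399 (k8 c18783 c18859 c18882 c5642 c9752 c1109 c263 c18034 (k8 c5649 c62 c1639 c18085 c18875 c1573 c1704 c429 k0))))) (by decide +kernel)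
def c18884 : PP 9 3 T 0x4000000000000022000120000000000000000100000004000200000000000044000000014000000000000000000000000080000000000000000004000002 := rS 0xd66f9fa25f3409f4de1024a30271c1a915ea432d070bef10385c623d489ad1e6d54acf6671139cd6aaddb24cc659 (k8 c18352 c5395 c5444 c5212 c5573 c5422 c5419 c5570 (k8 c5571 c18383 c5532 c5531 c5529 c5526 c5523 c5374 (k8 c5436 c5434 c5433 c5432 c9696 c1054 c664 c663 (k8 c10701 c1998 c335 c331 c5658 c299 c2159 c513 (k8 c2160 c1061 c2747 c699 c17922 c18007 c18032 c2513 (k2 c808 c16068 k0)))))) (by decide +kernel)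
def c18885 : PP 9 3 T 0x4000400000000022000100000000000000000100000004000200100000015000000000000000000000000001000000000000000000000800000000020000 := rS 0x359a6d52178dc6452484c623d55aa566b15aab76ca14dd2fc28b (k8 c18350 c5456 c9578 c5397 c5398 c5212 c5573 c5422 (k8 c5421 c5532 c5531 c5413 c5436 c5434 c36 c3026 (k8 c2966 c18288 c14079 c5658 c18677 c18088 c5689 c1933 k0))) (by decide +kernel)
def c18886 : PP 9 3 T 0x2000400000000002000020000000000000000000000004000200000000000000000000000000000000000000000000000000000000000000000000000010 := rS 0x966b111a6e22010c902523848231d1d3c03e1d0100437ef333fd9efd79c05a2f7198fc2e371ea441a6b478a4469d8a884da9954acf67b44fb2c4eb5db567429544964ca69 (k8 c18347 c18353 c18352 c18356 c5446 c18539 c18883 c5212 (k8 c5422 c5570 c5420 c5572 c18845 c18383 c5532 c5531 (k8 c5530 c5529 c5528 c5414 c5412 c5409 c8199 c5526 (k8 c5523 c5522 c5374 c5436 c5435 c5433 c5318 c5316 (k8 c5498 c5501 c5502 c5540 c5542 c5543 c5544 c17916 (k8 c17711 c1903 c18884 c5642 c263 c1111 c5649 c18438 (k8 c551 c18885 c12617 c13598 c12632 c18694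 c2808 c17815 (k4 c18013 c15747 c5658 c459 (k2 c17893 c1767 k0))))))))) (by decide +kernel)
def c18887 : PP 9 3 T 0x1000400000000020000020000000000000000000040004000200000000000000000000000100000000000410000000000005000000000000000000000002 := rS 0x25ceed066b3fc2fc6319cbe070bc44f687069e53a2136a65527532b14d285 (k8 c18349 c18347 c18348 c18353 c18354 c5531 c5530 c5529 (k8 c5528 c5412 c5524 c5522 c5373 c5372 c5371 c5433 (k8 c5432 c1054 c18387 c10253 c17965 c5535 c2560 c2504 (k4 c5688 c10798 c1708 c3597 k0)))) (by decide +kernel)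
def c18888 : PP 9 3 T 0x800014000000000a2000120000000000000000000000000000000000000041020000400400000000000000000000000000000000000000000000000000000 := rS 0x81108cfe3723cdaa9599c4e6b5 (k8 c5422 c5419 c5571 c5532 c5531 c5529 c5526 c17922 (k4 c10866 c2341 c2342 c13598 (k1 c4914 k0))) (by decide +kernel)
def c18889 : PP 9 3 T 0x400000000002000020000000000000000000000004000200000000000000000000010000000000000000000000000000000000000000000000000010 := rS 0x4491a46f77cfc70125925e8e36bbf5e6cc1f85c6e3d43a451e294fb2c4fb6d0c0eb3e1678e83e6b10a7532f778077661b01007db4b4a98536c93188f688942a0cca59 (k8 c18352 c18353 c18355 c18349 c18356 c18845 c5409 c5395 (k8 c5396 c5397 c5445 c5446 c9578 c18886 c18887 c5642 (k8 c1109 c18383 c263 c5649 c499 c5530 c5412 c5528 (k8 c5523 c1111 c18438 c1647 c5456 c18883 c10772 c18539 (k8 c5212 c5570 c5420 c5572 c8199 c5526 c5374 c5373 (k8 c5436 c5435 c5433 c5318 c5688 c449 c2504 c2191 (k8 c2623 c5657 c18013 c2594 c1928 c14079 c18888 c5204 (k4 c5660 c5505 c18000 c12623 k0)))))))) (by decide +kernel)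
def c18890 : PP 9 3 T 0x4000400000000002000020000000000000000000000004000200000000000000000000000000000000000000000000000000000000000000000000000010 := rS 0x11c224340358fed337407e40706c54dab3389cd6b933ea8526d5f1925c634793d462f778077661b14a7c7ecb138dc2fb6d08f6b3e11d07c0401f6d2d2a614db24c66b1088d3a99da340ca59 (k8 c18352 c18353 c18889 c18845 c5530 c5412 c5409 c5528 (k8 c5523 c5395 c5396 c5397 c5445 c5446 c9578 c18886 (k8 c18887 c5642 c1111 c18438 c5456 c18883 c5436 c18539 (k8 c5212 c5433 c5435 c5570 c5420 c5318 c5572 c8199 (k8 c1109 c18383 c263 c5649 c499 c5434 c1925 c5657 (k8 c448 c4307 c18013 c14079 c17727 c5444 c5398 c12650 (k8 c17690 c5422 c5419 c5571 c5532 c5529 c5414 c5522 (k8 c5432 c5171 c5592 c17922 c2135 c2919 c5689 c5670 (k4 c1933 c699 c2537 c18694 k0))))))))) (by decide +kernel)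
def c18891 : PP 9 3 T 0x400000000002000020000000000000000000000004000200000000000000000000000000000000000000000000000000000000000000000000000010 := rS 0x129bc4712b49feaff7125c6347925dead07b8e9e01f0e86c0401f6d2d2a614db24c6391f85c6237358a4469d8a88532b3d9ed13ecb13ad55bb6ace84b265 (k8 c18353 c18352 c18539 c18883 c5212 c5573 c5422 c5570 (k8 c5420 c5572 c18845 c18383 c5532 c5530 c5528 c5414 (k8 c5412 c5409 c8199 c5523 c5435 c5434 c5433 c5318 (k8 c5317 c5395 c5396 c5397 c5445 c5446 c9578 c18886 (k8 c18887 c5642 c1109 c263 c1111 c5649 c18438 c499 (k8 c18889 c1925 c1708 c5657 c448 c4307 c18013 c18890 (k8 c5584 c5586 c8156 c1217 c2536 c2136 c3584 c2510 k0))))))) (by decide +kernel)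
def c18892 : PP 9 3 T 0x2000000000000021000120000000000000000100000004000200000000000000000000000000000000000000000000000000000000000000000004000002 := rS 0x1e2201fc95123eb8cde810804cc51cc98e88af51ab3592432d0712e61788cc7207188dc7a9147a7532b3d99c44e735aab5a2fd67999526d35fbf6c5942b14d265 (k8 c18353 c18347 c18348 c18349 c18352 c5212 c17711 c5523 (k8 c5529 c5531 c17916 c5543 c5542 c5501 c5573 c5422 (k8 c5419 c5570 c5571 c18383 c5532 c5530 c5412 c5526 (k8 c5374 c5436 c5435 c5434 c5432 c5317 c5316 c9696 (k8 c661 c18710 c664 c663 c10701 c2064 c13053 c332 (k8 c1998 c335 c18037 c17834 c5658 c16365 c299 c2160 (k8 c3935 c1061 c18288 c2747 c18007 c704 c810 c562 (k2 c5670 c5462 k0)))))))) (by decide +kernel)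
def c18893 : PP 9 3 T 0x100040000000000000100000000000200000000000000000000000000000000000004000110000000000000000000000000010001 := rS 0x1e33f89424191f85c7a294fb2c4fb6 (k8 c5212 c5570 c5420 c5572 c8199 c5436 c5433 c5318 (k4 c5315 c12617 c12632 c2917 (k2 c17994 c5670 k0))) (by decide +kernel)
def c18894 : PP 9 3 T 0x4004400000000000000120040000000000000000000000000000000000014000000400500000000000000000100110000000000000000000000000000000 := rS 0x113819f9a48748a3f3083 (k8 c18355 c18346 c5526 c5374 c5373 c5689 c5670 c2088 (k2 c810 c18001 k0)) (by decide +kernel)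
def c18895 : PP 9 3 T 0x2000400000000000000020000000000000000000000004000200000000000000000000000000000000000000000000000000000000000000000000000010 := rS 0xa5f89aae346914921308204fa5e1d64dae934dc74c2967807c3a630100437ef333fd9efd80b4432390b8f5226b1488d3a2136a6553b3da27d9627db56743b145964ca69 (k8 c18347 c18353 c18352 c18350 c18891 c18539 c18883 c5212 (k8 c5570 c5420 c5572 c18845 c18383 c5531 c5530 c5529 (k8 c5528 c5412 c5409 c8199 c5523 c5374 c5436 c5433 (k8 c5317 c5315 c5501 c5502 c5542 c5543 c5544 c17916 (k8 c17711 c1903 c18892 c5642 c9752 c263 c1111 c5649 (k8 c18875 c18856 c551 c1231 c1638 c1767 c17842 c6193 (k8 c5663 c18801 c1746 c18893 c36 c3026 c2966 c702 (k4 c18288 c18677 c18894 c5332 (k1 c14079 k0))))))))) (by decide +kernel)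
def c18896 : PP 9 3 T 0x4000400000000000000020000000000000000000040004000200000000000000000000010000000000000000000000000000000000000000000000000012 := rS 0x6f351ae3b66b21e4974a8695c4423c748612121b9c2497192fe4391f85c6237479b567b3389cd62b5db56743b17e19fda2143aa7685944994d285 (k8 c18349 c18347 c18353 c18356 c18352 c18845 c5531 c5373 (k8 c5528 c18895 c18387 c17965 c18891 c18539 c18883 c5212 (k8 c5422 c5421 c5419 c5571 c18383 c5532 c5529 c5526 (k8 c5435 c5434 c5433 c5318 c5317 c5171 c5546 c5549 (k8 c5588 c5591 c17922 c1060 c1061 c2808 c299 c2810 (k8 c5658 c18671 c2969 c1904 c1073 c1076 c5678 c2505 (k4 c449 c2189 c1183 c10448 (k1 c3003 k0)))))))) (by decide +kernel)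
def c18897 : PP 9 3 T 0x400000000000000020000000000000000000040004000200000000000000000000010000000000000000000000000000000000000000000000000012 := rS 0x80c4fe4492392c4811372bd1bee3380d0e9106a3c42a9da1c4e6b156edab3a1f6a250a8345964ca69 (k8 c18347 c18353 c18352 c18350 c18355 c18349 c18356 c18895 (k8 c18539 c18883 c5212 c5573 c5421 c5419 c5571 c18845 (k8 c5531 c5528 c5526 c5522 c5374 c5373 c28 c18387 (k8 c18896 c5505 c5584 c3602 c14568 c1060 c12638 c13598 (k4 c10629 c5660 c5547 c5592 (k1 c18000 k0)))))) (by decide +kernel)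
def c18898 : PP 9 3 T 0x400000000000000020000000000000000000040004000200000000000000000000010000000000000000000000000000000000000000000000000010 := rS 0x3fe031346914924b083d102f33e978759349a6cc31d7ba59e0fd0f87436630100606191c85d0e9135a3c52234e884da99d9ed13ecb13edab3a1d8fb7308345b14b265 (k8 c18353 c18352 c18348 c18350 c18355 c18346 c18895 c18891 (k8 c18539 c18883 c5212 c5570 c5420 c5572 c18845 c18383 (k8 c5530 c5529 c5528 c5412 c5409 c8199 c5526 c5523 (k8 c5374 c5373 c5433 c5317 c5315 c10772 c18897 c5642 (k8 c9752 c1109 c263 c1111 c18868 c5649 c18875 c499 (k8 c551 c1639 c1231 c1638 c17842 c6193 c5663 c18801 (k8 c449 c1746 c5657 c18893 c2594 c3026 c2966 c702 (k4 c704 c1928 c2342 c18001 k0)))))))) (by decide +kernel)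
def c18899 : PP 9 3 T 0x400000000000000020000000000000000000000004000200000000000000000000010000000000000000000000000000000000000000000000000012 := rS 0x3579b3c38cd4a3252e6230bc46639038c46e214caa767b4d88ec3ef77ae4e9469 (k8 c18347 c18898 c13294 c5519 c5333 c5517 c5332 c18891 (k8 c18845 c18383 c5531 c5530 c5528 c5435 c5434 c5432 (k8 c5317 c5316 c9696 c661 c16365 c1229 c18881 c5678 (k4 c13053 c10191 c1587 c333 (k2 c332 c3587 k0))))) (by decide +kernel)
def c18900 : PP 9 3 T 0x400000000000000020000000000000000000000004000200000000000000000000010000000000000000000000000000000000000000000000000010 := rS 0x9630074366301007263ba5064d6234e88533b4d8b14b265 (k8 c18353 c18352 c18348 c18891 c18845 c5530 c5528 c5412 (k8 c5409 c5523 c5315 c18898 c5332 c13294 c18899 c5642 (k4 c9752 c1109 c263 c18034 (k2 c18875 c1639 k0)))) (by decide +kernel)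
def c18901 : PP 9 3 T 0x5000000000000000000020000000000000000100040004000000000000000000000000000000001400000000000000051000000000140000000000000002 := rS 0x1337473e459 (k4 c18352 c5171 c5658 c17922 (k2 c299 c1061 k0)) (by decide +kernel)
def c18902 : PP 9 3 T 0x1000000000000001000020000000000000000100040004000200000000000014000000040000001511000000000000051000000000140010000100000002 := rS 0x13371015e8df7204c5932d99dec571981c628745a24d26562964ea5d (k8 c17796 c18354 c18352 c18348 c18353 c18347 c18356 c18350 (k8 c5373 c5434 c5432 c5316 c5313 c5657 c18387 c2101 (k8 c10897 c16365 c937 c18901 c5505 c5584 c14662 c3602 (k2 c298 c1061 k0)))) (by decide +kernel)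
def c18903 : PP 9 3 T 0x1000000000000005000020000000000000000100000004000200000000000010000000040000001511000040000000451000000000000000004104000002 := rS 0x33188b593a50d48af30e10de398 (k8 c18346 c9696 c10701 c5649 c333 c335 c332 c18902 (k4 c13294 c17728 c16365 c1994 (k1 c777 k0))) (by decide +kernel)
def c18904 : PP 9 3 T 0x1000020000000000000000000000000000200000000000002000000020000000000000000000000001006400000000400000000000400 := rS 0x24c10352b8e40e37 (k8 c5435 c5432 c5317 c5313 c1704 c18085 c429 c1573 k0) (by decide +kernel)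
def c18905 : PP 9 3 T 0x4000400000000000000000000000000000000000000000000000000000000000000000540000000000000000100050400000000000000000000000000000 := rS 0x8162a24ea8b (k4 c18350 c18354 c18356 c18348 (k2 c13318 c3608 k0)) (by decide +kernel)
def c18906 : PP 9 3 T 0x8000000000000000000000000000000000000000000000000000000100000000a000000000000001400000000000000000000000000040000014540000000 := rS 0x238949649 (k4 c5588 c5546 c1218 c2537 (k1 c3584 k0)) (by decide +kernel)
def c18907 : PP 9 3 T 0x4000400000000000000020000000000000000000040004000200000000000000000000000000000000000000000000000000000000000000000000000010 := rS 0x40f8136ba34847f377c87a298a97daa9f0f9ade4f7780740401699dd0fed56ad56273139c76da1acacd526d1086d28c955a5d3bb3d888f68f5680c51259 (k8 c18352 c18356 c5434 c18900 c1925 c18845 c5409 c18891 (k8 c18383 c5412 c1708 c5413 c2133 c5678 c1904 c5528 (k8 c5529 c5531 c5532 c18883 c18539 c5212 c5571 c5570 (k8 c5419 c5421 c5422 c5573 c18895 c5373 c2131 c13297 (k8 c18903 c5642 c263 c5649 c499 c5657 c5523 c1111 (k8 c5572 c1589 c17795 c5414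 c8199 c5436 c5171 c17922 (k8 c2920 c18906 c12616 c1933 c2808 c18905 c12617 c2747 k0))))))) (by decide +kernel)
def c18908 : PP 9 3 T 0x400000000000000020000000000000000000040004000200000000000000000000000000000000000000000000000000000000000000000000000010 := rS 0x37c4c204712925feaf22fb816f288a441a8f8a87cd6f778074040169bd4ee87f6ab56ab13989ce3b6d0d6566a936884369464aad2ed04eecf623111ed10a59 (k8 c18352 c18349 c18845 c5409 c5434 c18891 c18383 c5412 (k8 c18900 c1708 c5413 c2133 c5678 c1904 c5528 c5529 (k8 c5531 c5532 c18883 c18539 c5212 c5571 c5570 c5419 (k8 c5421 c5422 c5573 c18895 c5373 c2131 c1925 c13297 (k8 c18903 c5642 c263 c5649 c499 c5523 c1111 c5414 (k8 c5526 c5522 c5374 c5371 c5657 c2530 c18907 c5582 (k8 c5584 c5586 c450 c1217 c2536 c18694 c703 c2745 (k1 c3604 k0)))))))) (by decide +kernel)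
def c18909 : PP 9 3 T 0x400000000000000020000000000000000000000004000200000000000000000000000000000000000000000000000000000000000000000000000010 := rS 0x61c982c774a78074c6020086cbed34a25deac93bb43dbb156ad56273139c76d59d9acd526d10aad3bb418a1f4259 (k8 c18352 c18539 c5373 c5434 c18845 c5412 c5413 c5528 (k8 c5529 c5531 c5532 c18383 c18883 c5212 c5571 c5570 (k8 c5419 c5421 c5422 c5573 c18891 c18895 c18900 c2131 (k8 c2133 c1925 c1708 c5678 c13297 c17795 c1904 c18903 (k8 c5642 c9752 c263 c5649 c18908 c5332 c5516 c13294 (k2 c18904 c5663 k0)))))) (by decide +kernel)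
def c18910 : PP 9 3 T 0x2000000000000058000120000000000000000000000000000000001000000000000000000000001400000000000000040000000000000000000000000000 := rS 0xe08c81c4fe48748a3e02ff339973083 (k8 c18355 c18346 c18353 c5487 c5544 c5502 c5526 c5374 (k4 c5373 c5685 c5547 c5550 (k2 c18001 c18023 (k1 c753 k0)))) (by decide +kernel)
def c18911 : PP 9 3 T 0x2000000000000018000120000000000000000000040000000000002000000000000000000000000000000000000000000000000000000000000000000020 := rS 0xf41002c3e0f06804464708a3deea92d99f305d (k8 c17796 c18346 c5487 c715 c5489 c5498 c5526 c15516 (k8 c13598 c9734 c53 c5522 c5369 c15434 c17782 c5650 (k2 c10910 c2420 k0))) (by decide +kernel)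
def c18912 : PP 9 3 T 0x2000000000000002000100000000000000000000040000000200000000000000000000000000002001000040000000002440000000000000000000000020 := rS 0x1c4d3661f8889d409f51a1389084e06f2b8fc0e171e88c96ab4fb2536614aa64820949844b798 (k8 c18346 c715 c15516 c5444 c311 c12636 c5447 c5446 (k8 c5445 c5397 c5396 c5448 c5500 c12639 c9734 c5436 (k8 c5433 c5432 c5318 c5313 c1148 c2611 c2608 c2610 (k8 c318 c753 c2870 c751 c5855 c17837 c12613 c18006 (k2 c2936 c810 (k1 c2624 k0)))))) (by decide +kernel)
def c18913 : PP 9 3 T 0x10000100000000000000000200040000000000000000000000000000000000000800000000400000000000000000000000000000000020 := rS 0x2ce01f1480c464b398048e11 (k8 c15516 c13598 c53 c9719 c12639 c9734 c54 c8199 (k4 c2321 c8280 c718 c17314 k0)) (by decide +kernel)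
def c18914 : PP 9 3 T 0x200000000000001a000120000000000000000000040000000200000000000000000000000000000000000000000000000000000000000000000000000020 := rS 0xb43645552674b9ace6b3ac6dc8209498f44a1100a3cca69 (k8 c18347 c18353 c5526 c53 c15516 c12632 c5436 c5444 (k8 c311 c12636 c17815 c5212 c18913 c9719 c5523 c5404 (k4 c5487 c5489 c18911 c17916 (k2 c18910 c18912 k0)))) (by decide +kernel)
def c18915 : PP 9 3 T 0x2000000000000010000020000000000000000000040000000000000000000000000000000000000000000000000000000000000000000000000044000020 := rS 0x2da1c1af779a14ba59 (k8 c18352 c17796 c18349 c5540 c5498 c5522 c5373 c716 (k1 c10900 k0)) (by decide +kernel)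
def c18916 : PP 9 3 T 0x2000000000000012000120000000000000000000040000000200000000000000000000000000000000000040000000000000000000000000000200000020 := rS 0x3ef8da48165b7e29f389355ae8df72bc34b156b8cfe6e6364ce23b0587cae39038dc1e7b43a441a791480c464b3991d1f014fa8592614aa66b1b720825263d1284403b344a150665 (k8 c18353 c18355 c18349 c18356 c18914 c53 c15516 c12632 (k8 c5436 c5444 c311 c12636 c17815 c5212 c5447 c5446 (k8 c5445 c5396 c5398 c5448 c5502 c5526 c13598 c9719 (k8 c12639 c9734 c54 c8199 c5524 c5522 c5374 c5373 (k8 c5372 c5369 c5435 c5432 c5317 c5313 c58 c2417 (k8 c340 c17314 c11968 c3568 c5666 c17735 c15481 c2817 (k8 c1146 c18915 c1077 c5683 c5505 c5507 c5585 c18000 (k8 c5547 c17872 c2950 c1293 c941 c3618 c5579 c2827 (k1 c5670 k0))))))))) (by decide +kernel)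
def c18917 : PP 9 3 T 0x400000000006000100000000000000000000000004000200001000004000000500000000001400001040200000000000000000000000000004000020 := rS 0x1bcd769b2cfe76571c46ab10e16cae33038c5e29f50a6d331dac6dc8209498f44a11f7ab4e6013ab14b25d (k8 c17796 c18352 c18348 c18354 c53 c9719 c2031 c5505 (k8 c15516 c12632 c5436 c5444 c311 c12636 c17815 c5212 (k8 c5341 c5447 c5397 c5398 c5448 c5811 c5434 c5432 (k8 c5316 c5313 c716 c5649 c2177 c332 c754 c5683 (k4 c3567 c17735 c1246 c2940 (k2 c2188 c3620 (k1 c12713 k0))))))) (by decide +kernel)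
def c18918 : PP 9 3 T 0x2000400000000012000020000000000000000000040004000200000000000000000000000000001000000040000000000000000000000000000000000000 := rS 0x1f4fe8109b5da66f662c152af0d2b7de8c70c0dc713f94543c9d1095c7e070ba1d22233991d56d180b3dfec94da5532b3ac6dc8209498f44a1100a3f6604d09973083 (k8 c18355 c18346 c18353 c18539 c18909 c18914 c5526 c53 (k8 c15516 c12632 c5436 c5444 c311 c12636 c17815 c5212 (k8 c18913 c5447 c5446 c5397 c5396 c5544 c5543 c5502 (k8 c5501 c5500 c13598 c9719 c9734 c5374 c5373 c5433 (k8 c5432 c5318 c5313 c18916 c5855 c5650 c15434 c11939 (k8 c5547 c5549 c5550 c5591 c18001 c5505 c2031 c18917 (k8 c1077 c1907 c5683 c18006 c1146 c2085 c2191 c318 (k4 c18769 c808 c17876 c12613 k0)))))))) (by decide +kernel)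
def c18919 : PP 9 3 T 0x2000400000000012000020000000000000000000040004000200000000000000000000000000001000000000000000000000000000000000000000000000 := rS 0x196df6bb4cfeae38ab7de8c70c0dc713f92762a3558878385b0da58ae3f0385c628748bc4e64780bfd431d59d636e4104a4c7a25088051fb3026858a752c9773083 (k8 c18355 c18346 c17796 c18352 c18354 c18348 c18539 c18909 (k8 c18914 c5526 c53 c15516 c12632 c5436 c5444 c311 (k8 c12636 c17815 c5212 c18913 c5341 c5398 c5544 c5502 (k8 c13598 c9719 c5811 c5374 c5373 c5434 c5433 c5432 (k8 c5318 c5313 c18918 c1073 c716 c5649 c18915 c2177 (k8 c331 c15434 c1082 c11939 c5547 c5549 c5550 c5591 (k8 c18001 c5505 c2031 c754 c5683 c17735 c2940 c10802 (k2 c12713 c1247 (k1 c6118 k0))))))))) (by decide +kernel)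
def c18920 : PP 9 3 T 0x4000100000000000000000000000004000000100000000000000000000000000040000000000000020000000000000000000004040020 := rS 0x46915621c2dbc42398 (k8 c18346 c15516 c5811 c716 c5649 c2177 c336 c754 (k1 c17837 k0)) (by decide +kernel)
def c18921 : PP 9 3 T 0x42004000000000044000000000000000000000000000000000000000000000000000140000100000051001550000000000000000000000000000000000000 := rS 0x3deb18138999e155b45facf (k8 c5543 c5542 c5501 c5500 c18012 c18006 c5691 c8709 (k2 c10055 c5508 (k1 c5683 k0))) (by decide +kernel)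
def c18922 : PP 9 3 T 0x2000400000000012000020000000000000000000040004000200000000000000000000000000000000000000000000000000000000000000000000000000 := rS 0x9654ab434e13f78d027d4e84ce0df10abcdf15f9ad366571f81c2e913588c96737ea7d929b30a5532438ed636e4104a4c7a250880409a1 (k8 c18539 c18909 c53 c15516 c12632 c5436 c5444 c311 (k8 c12636 c17815 c5212 c5341 c5561 c5447 c5446 c5445 (k8 c5397 c5396 c5448 c5542 c9719 c12639 c9734 c5523 (k8 c5374 c5433 c5432 c5318 c5313 c18914 c18919 c5548 (k8 c204 c1148 c1248 c2608 c2514 c17872 c318 c5855 (k8 c2870 c751 c17898 c12613 c3058 c18920 c1908 c1907 (k2 c18921 c1073 k0))))))) (by decide +kernel)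
def c18923 : PP 9 3 T 0x2000000000000020000020000000000000000000000004000000000000000000000000000000000000000000000000000000000000000000000004000020 := rS 0xf40e16c1e0d78bdd53b3059b7305d (k8 c17796 c18346 c5529 c717 c18383 c5531 c5498 c5811 (k4 c5522 c5369 c716 c5649 (k2 c10910 c1998 k0))) (by decide +kernel)
def c18924 : PP 9 3 T 0x2000000000000044000120000000000000000000000000000000001000000000000000000000000051000000000000010080080000000000000000000020 := rS 0x1ef58c08d68f (k4 c5526 c5523 c18021 c2180 (k2 c5508 c5683 k0)) (by decide +kernel)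
def c18925 : PP 9 3 T 0x2000400000000002000020000000000000000000040004000200000000000000000000000000000000000000000000000000000000000000000000000000 := rS 0x719f960813ea3027f3381695ead4b86bc20b336cd526d8aa776843ac6dc82094ca54c2c94fa4cae3f0385c7a0f43a441a6b0191d1e250880409a155b45facf419950a69 (k8 c18347 c18349 c18353 c18355 c5543 c5542 c5501 c5500 (k8 c18539 c18909 c53 c15516 c12632 c5526 c13598 c54 (k8 c5523 c5522 c5374 c5373 c5369 c5436 c5433 c5432 (k8 c5318 c5313 c5444 c5448 c5396 c5445 c5446 c5447 (k8 c311 c12636 c17815 c5212 c5561 c18922 c5412 c5414 (k8 c5529 c5531 c18383 c18014 c717 c17762 c18923 c1073 (k8 c1908 c1077 c1902 c18924 c12233 c2869 c18849 c2870 (k4 c751 c754 c12613 c10055 (k1 c16323 k0))))))))) (by decide +kernel)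
def c18926 : PP 9 3 T 0x41000100000000000000000000000000000000000000000000000000000000000000000000000080000000000000000000000000000000 := rS 0x327e3 (k2 c5577 c5358 (k1 c5236 k0)) (by decide +kernel)
def c18927 : PP 9 3 T 0x44000000000000059000000000000000000000000000000000200001000000000000000040100000004001100000050000000000000010000000000050100 := rS 0x1e06af8d00571f81c7ac5 (k8 c18348 c5436 c5432 c5318 c5313 c12613 c17898 c1658 (k2 c5198 c11841 k0)) (by decide +kernel)
def c18928 : PP 9 3 T 0x46000000000000059000000000000000000000000040000000200001000000000000000040100000000001100000040020000000000010000000000050120 := rS 0x781365e3e15d56fd67a5d2aa9 (k8 c5489 c5488 c5404 c5543 c5542 c5500 c5313 c18927 (k4 c2871 c10735 c10734 c18012 k0)) (by decide +kernel)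
def c18929 : PP 9 3 T 0x2000000000000059000120000000000000000000040000000200000000000000000000000000000000000000000000000000000000000000000000000020 := rS 0x813eb2cbec83fb4fde4404a353a99099c0426ff9ad16641ac15c7e070b8dc7a8f1192c227300aad9f152d9b0cea9359973069 (k8 c18347 c18346 c18353 c5523 c5489 c5487 c17916 c715 (k8 c18911 c5543 c5500 c53 c9719 c15516 c12639 c9734 (k8 c5526 c5436 c5435 c5433 c5432 c5318 c5313 c5212 (k8 c5340 c18913 c18910 c5548 c1148 c2608 c2611 c318 (k8 c7114 c5855 c753 c18534 c17783 c5582 c2936 c18926 (k4 c18928 c1117 c1325 c2871 (k2 c752 c12613 k0))))))) (by decide +kernel)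
def c18930 : PP 9 3 T 0x2000400000000019000020000000000000000000040000000200000000000000000000000000000000000000000000000000000000000000000004000020 := rS 0x409f4fed7300d3c2772f8253a996987924442b8cc7e070b8c46e3d439e452f131aada2f367874b66c339ad3fef8145552af58906b01313ed823a1629d4b25dcc214d265 (k8 c18353 c18347 c18349 c18346 c17796 c18352 c18354 c18348 (k8 c18539 c15516 c18929 c5570 c317 c12617 c5340 c5421 (k8 c5406 c5489 c18911 c17841 c5508 c5572 c5523 c5487 (k8 c17916 c715 c5486 c5543 c5540 c5501 c5500 c9754 (k8 c5811 c8199 c5524 c5373 c5436 c5435 c5434 c5433 (k8 c5432 c5318 c5316 c5313 c17812 c18617 c18532 c2936 (k8 c2317 c1082 c18534 c1516 c11141 c17952 c3567 c11103 (k4 c1763 c17682 c1579 c13318 (k1 c12613 k0))))))))) (by decide +kernel)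
def c18931 : PP 9 3 T 0x2000000000000091000120000000000000000000000000000000000000000000000000000000000001000050000080002000000000000000000000000020 := rS 0xfc4fc2994db24bc61c983d220d3c98c964708a3d56fd6784c4e65 (k8 c18353 c5570 c317 c5543 c5542 c5500 c5526 c15516 (k8 c13598 c12639 c9754 c5524 c5522 c5374 c5369 c5358 (k8 c17682 c5663 c10171 c2493 c1520 c18012 c15494 c17725 (k1 c18090 k0)))) (by decide +kernel)
def c18932 : PP 9 3 T 0x2000000000000000000020000000000000000000000000000000000000000000000000000000000001000000000000000000040000000000000200000001 := rS 0x3d4160f06bdf305d (k8 c17796 c18346 c5498 c5522 c5369 c2417 c2420 c10910 k0) (by decide +kernel)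
def c18933 : PP 9 3 T 0x81000000000000000000000000000000000200000000000000000000000000000000000000000020000000000000000000000000000120 := rS 0x5f30a4943931f85c7a0131a7d9627 (k8 c5570 c5420 c5572 c9754 c53 c5436 c5433 c5318 (k4 c5442 c2826 c12650 c1579 (k2 c1516 c5663 k0))) (by decide +kernel)
def c18934 : PP 9 3 T 0x2000000000000099000020000000000000000000040000000200000000080000000000000000000000000100000040000000000000010000000000010020 := rS 0xd76f38c69e13b97dc3e3401f41257198fc0e311e9ed0e7931aada2cf6584c4ff358acd3a212d99d52010b88ceac52c9773085 (k8 c18349 c18346 c17796 c18352 c18348 c18354 c9734 c5433 (k8 c53 c5489 c5487 c715 c18932 c5855 c5574 c5421 (k8 c17760 c5570 c317 c5420 c5543 c5501 c5500 c9754 (k8 c5524 c5373 c5372 c5436 c5434 c5432 c5318 c5316 (k8 c5313 c18534 c18933 c12613 c17898 c1716 c1746 c11141 (k4 c17952 c3567 c6448 c5691 (k2 c1763 c2517 k0))))))) (by decide +kernel)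
def c18935 : PP 9 3 T 0x2000000000000019000120000000000000000000040000000200000000000000000000000000000000000000000000000000000000000000000000000020 := rS 0x98109fc835809c096227db1b0b71554a54ce97578dcd60111844ca69 (k8 c18347 c18353 c15516 c9734 c53 c5523 c5435 c5406 (k8 c5404 c5487 c5488 c5489 c18911 c715 c17916 c18929 (k8 c5570 c5421 c17841 c317 c12617 c5340 c18931 c18932 (k2 c18934 c7114 k0)))) (by decide +kernel)
def c18936 : PP 9 3 T 0x2000000000000051000120000000000000000000000004000200001000000000000000000000000401001140000000402000040000000000000000000920 := rS 0x40d63f25a9b8e2afc98758c601a784ae330385c62873cbc4e62508805a2cf44994eac52c9773085 (k8 c18349 c18346 c17796 c18352 c18348 c18354 c18353 c18356 (k8 c5543 c5501 c53 c15516 c12632 c9719 c5811 c5524 (k8 c5373 c5434 c5433 c5432 c5316 c5313 c17952 c3567 (k8 c11103 c10403 c332 c5357 c10145 c10408 c5666 c2611 (k4 c17872 c1146 c5550 c10405 k0))))) (by decide +kernel)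
def c18937 : PP 9 3 T 0x400000000005000000000000000000000000000004000000000000000001000000000000000000000040000000800004040000000004000000000000 := rS 0xd1992a5f (k4 c17795 c9916 c11141 c9823 (k1 c1902 k0)) (by decide +kernel)
def c18938 : PP 9 3 T 0x2000000000000051000120000000000000000000040004000200000000000000000000000000000001000040000000400000040000000000000000000120 := rS 0x146c8a8793a991085c6e873580446f77eaceb08f3395c0ef1329a4ea59 (k8 c18352 c18354 c18347 c18353 c5811 c5432 c5313 c10711 (k8 c5526 c5212 c18913 c5542 c5498 c9734 c53 c5523 (k8 c5373 c5435 c5433 c18932 c7114 c5855 c5650 c15434 (k2 c17916 c18036 (k1 c18936 k0))))) (by decide +kernel)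
def c18939 : PP 9 3 T 0x2000400000000050000020000000000000000000040004000200000000000000000000000000000000000040000000000000040000000000000000000000 := rS 0x13a0b6407d2aa80e8d0ee571981c62f131aac125fd9e8762043ab14b25d (k8 c17796 c18352 c18348 c18354 c18909 c18925 c18539 c18935 (k8 c17795 c312 c5500 c9754 c5811 c5434 c5432 c5316 (k8 c5313 c18937 c3567 c332 c18938 c10191 c2320 c5678 (k2 c718 c1275 (k1 c18041 k0))))) (by decide +kernel)
def c18940 : PP 9 3 T 0x2000400000000050000020000000000000000000040004000200000000000000000000000000000000000040000000000000000000000000000000000000 := rS 0x201d2a3e4df719c62be2c99d93a60642b52aaf0d198b45f189ecd6730091c228f55ecf620421906b1a1 (k8 c18539 c5212 c5340 c5561 c18909 c18925 c18935 c5500 (k8 c5526 c15516 c13598 c53 c9719 c5523 c5372 c5434 (k8 c17795 c18939 c715 c716 c17787 c1904 c1908 c5678 (k8 c2064 c1275 c2063 c5356 c5236 c17874 c10408 c5466 (k4 c5580 c17872 c18924 c17862 (k2 c1907 c341 k0)))))) (by decide +kernel)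
def c18941 : PP 9 3 T 0x2000400000000050000020000000000000000000040004000200000000000000000000000000000000000000000000000000000000000000000000000000 := rS 0x26af382d3e6e3f164c76dff02762a1e0da6d2cb38e906b017019cc8e8f1284402fdd9ec409a1 (k8 c18539 c18909 c18925 c18935 c5542 c53 c15516 c12632 (k8 c5526 c13598 c9719 c54 c5433 c5212 c5340 c5341 (k8 c18913 c18940 c1231 c1073 c18915 c15434 c1082 c17725 (k8 c13097 c5456 c10922 c5236 c5466 c17862 c11939 c17872 (k2 c1248 c2869 (k1 c18920 k0)))))) (by decide +kernel)
def c18942 : PP 9 3 T 0x2001000000000091000120000000000000000000040000000200000000000000000000400000000041000050000000000040040000000000000000000120 := rS 0x37a048063454fe0a0f1b042571f81c2e3d3580446ab80bf5feb320d602627089f4ca69 (k8 c18347 c18353 c18933 c15516 c5570 c317 c12617 c5340 (k8 c5574 c5544 c5542 c5502 c5500 c9734 c53 c5523 (k8 c5436 c5433 c5432 c5318 c5313 c18932 c17916 c5650 (k8 c2315 c18931 c15434 c10403 c12613 c18003 c941 c2517 k0)))) (by decide +kernel)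
def c18943 : PP 9 3 T 0x2000400000000010000020000000000000000000040004000200000000000000000000000000000000000040000000000000040000000000000000000000 := rS 0x587d509d642bd2ad70e8d0cfe13b95c660718a1cf2f13189402ab68b3c83580989f6c110497f67a1d8810eac52c9773085 (k8 c18349 c18346 c17796 c18352 c18348 c18354 c18909 c18925 (k8 c18539 c18935 c17795 c312 c15516 c18941 c5570 c317 (k8 c12617 c5340 c5543 c5501 c5500 c53 c12632 c9754 (k8 c5811 c5524 c5373 c5434 c5432 c5316 c5313 c18937 (k8 c17952 c10711 c3567 c332 c1763 c10191 c10145 c5678 (k4 c1275 c18942 c2320 c718 (k1 c18041 k0))))))) (by decide +kernel)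
def c18944 : PP 9 3 T 0x1000120040000000000000000000000000200000000080000000000480000000000000000000240000000000000010000000000000020 := rS 0x1e1050ed8ecc7137cae390385c6e0f (k8 c5369 c5435 c5433 c5432 c5317 c5313 c2517 c2088 (k4 c2087 c941 c1773 c14867 (k2 c5537 c10403 k0))) (by decide +kernel)
def c18945 : PP 9 3 T 0x2000400000000010000020000000000000000000040004000200000000000000000000000000000000000040000000000000000000000000000000000000 := rS 0x2c3ea881b4a2a80c99fcec9d3035d90955787434662d1f4125f2b8fc0e311e9ecd60155ecf62b120d602627db04409a1 (k8 c18539 c18909 c15516 c18941 c5570 c317 c12617 c5340 (k8 c5421 c18925 c18935 c5500 c53 c5523 c5372 c5436 (k8 c5434 c5432 c5318 c5313 c17795 c312 c18933 c18943 (k8 c715 c716 c1995 c17787 c1904 c5678 c4535 c2064 (k8 c1275 c2063 c17682 c5356 c12613 c17874 c939 c18944 (k4 c17841 c2320 c718 c18041 k0)))))) (by decide +kernel)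
def c18946 : PP 9 3 T 0x2000400000000010000020000000000000000000040004000200000000000000000000000000000000000000000000000000000000000000000000000000 := rS 0x40978fed33b78f268cf045442450f070b6d74c86d36614b04d6a2765a7d67b6d985d0e797888cc6250880409a168bf59fb1cc1d50ac5 (k8 c18348 c18349 c18354 c18346 c18925 c5543 c5542 c5501 (k8 c18539 c18909 c53 c15516 c12632 c9754 c9734 c5811 (k8 c5524 c5373 c5433 c18935 c18941 c5574 c5572 c5420 (k8 c5570 c5422 c317 c18945 c1639 c1231 c1073 c1641 (k8 c1767 c716 c5649 c18915 c335 c58 c15434 c17725 (k8 c17837 c10922 c7833 c17952 c18738 c808 c5663 c939 (k1 c10667 k0))))))) (by decide +kernel)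
def c18947 : PP 9 3 T 0x2000400000000000000020000000000000000000040004000200000000000000000000000000000000000000000000000000000000000000000000000000 := rS 0xf184cfa2740ed9a6adf7c09627171907267f1d024ec602fb20b4af4ba54161a336cd526d8aed362571c81c2e311b8f50e6b4798c4a110081342fd419950a69 (k8 c18347 c18349 c18353 c18355 c5542 c18539 c18909 c53 (k8 c15516 c12632 c9754 c5526 c5523 c5373 c5436 c5435 (k8 c5434 c5433 c5432 c5317 c5313 c18925 c18946 c5414 (k8 c5529 c5531 c18383 c18014 c18923 c717 c1904 c1073 (k8 c1077 c1902 c5678 c17795 c2064 c2063 c312 c18085 (k8 c17682 c5356 c12636 c1773 c10408 c2180 c18021 c5508 (k8 c2034 c2088 c5683 c939 c5570 c18933 c317 c17898 (k1 c5670 k0)))))))) (by decide +kernel)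
def c18948 : PP 9 3 T 0x2000400000000000000020000000000000000000000004000200000000000000000000000000000000000000000000000000000000000000000000000000 := rS 0xdaec0d8c989184267037ac15a974aecfde4357868cd582d6df260b2487c774a7985c62370783402632591c220447e84cb98 (k8 c18346 c18353 c18539 c5526 c18909 c15516 c13598 c12639 (k8 c9754 c53 c5522 c5369 c5435 c5434 c5433 c5540 (k8 c18947 c5332 c5517 c5334 c5516 c13294 c17105 c17728 (k8 c5212 c715 c716 c17787 c5561 c14774 c5487 c1904 (k8 c1073 c1908 c5683 c1146 c2180 c318 c10408 c17919 (k4 c10171 c755 c5678 c5529 (k1 c17092 k0))))))) (by decide +kernel)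
def c18949 : PP 9 3 T 0x10000120000000000000000000040000000000002000000004000000000000000001000000000000000000040000000000000010000020 := rS 0xf4103dc161f07a1c1a011191c228f42965065d (k8 c17796 c18355 c18352 c18349 c5526 c15516 c13598 c9734 (k8 c53 c5522 c5373 c5369 c15434 c17782 c8123 c5650 (k2 c3571 c2420 k0))) (by decide +kernel)
def c18950 : PP 9 3 T 0x10000020000000000000000000040000000000000000000004000000000000000001000000000000000000040000000000000050000020 := rS 0x7a081ee0b07a1c1a2342965065d (k8 c17796 c18355 c18352 c18349 c9734 c5522 c5373 c5369 (k4 c718 c8123 c5650 c3571 (k1 c2420 k0))) (by decide +kernel)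
def c18951 : PP 9 3 T 0x40000000000a000100000000000000000000000000000200000000000000000000000000000000000000000000000000400000000000000000040020 := rS 0xd3f7b5c888d6a9c0fc762b8fc2e9f509852b584b96cce7df19cf6e4104a4c7a2500847308b349958a75 (k8 c18354 c18348 c18353 c18347 c18350 c18346 c15516 c53 (k8 c12632 c5436 c5444 c311 c12636 c17815 c9719 c17028 (k8 c17876 c5487 c715 c5404 c5212 c5446 c5445 c5398 (k8 c5448 c5433 c5318 c5313 c18020 c15534 c17735 c2998 (k4 c753 c17783 c2187 c5582 (k2 c2936 c5689 k0)))))) (by decide +kernel)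
def c18952 : PP 9 3 T 0x4400000000040000100000000000000000000000000000200000000000000000000000000000000000000000080040040040000010000000000040100 := rS 0x346b1dda7ef22235aa702b8cc7e0718d60eac52c977308b (k8 c18350 c18346 c17796 c18352 c18348 c18354 c5212 c5434 (k8 c5432 c5318 c5316 c5313 c17735 c2998 c753 c17783 (k4 c5582 c2936 c10131 c5689 (k2 c3567 c1763 k0)))) (by decide +kernel)
def c18953 : PP 9 3 T 0x400000000008000000000000000000000200000000000000000000000001000000400100000000000000000200000000000000004000005004000000 := rS 0x34fdec5 (k4 c18348 c17816 c14403 c13318 k0) (by decide +kernel)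
def c18954 : PP 9 3 T 0x200000000000000000000000000000000080000000000000000000000400000040000004000000000040000 := rS 0x1151b98 (k4 c18346 c2083 c2936 c17783 k0) (by decide +kernel)
def c18955 : PP 9 3 T 0x88000000000000000000020000000000000000000000000000000000000000000000000000000000000000000000000000000000000000000000000000000 := rS 0x8d43a451f1380a250a83 (k8 c18355 c18349 c18356 c5592 c5547 c5526 c5374 c5373 (k2 c5505 c18000 k0)) (by decide +kernel)
def c18956 : PP 9 3 T 0x4004400000000000000000000000000000000200000000000200000000000000000000000000000000014044000000400000040000010000015000040100 := rS 0x35da6342b864663f0385c623d3ab14b25d (k8 c17796 c18352 c18348 c18354 c5436 c5434 c5433 c5432 (k8 c5318 c5316 c5315 c5313 c3567 c18954 c1763 c14487 k0)) (by decide +kernel)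
def c18957 : PP 9 3 T 0x81000000000000008000000000000000000000000040004000000001000000004000000000000000504000000000000000000000000400000000008000000 := rS 0x3d5eefe (k4 c17868 c2103 c2341 c5657 k0) (by decide +kernel)
def c18958 : PP 9 3 T 0x202001000000000000000000000000000000200000000000000000000008000000000001000000000000000000000000000000000000820 := rS 0xe55cb9dd38a2647aceb75da9c3237d68bc469351a953699 (k8 c5447 c5397 c5399 c5449 c5444 c9734 c9709 c5437 (k8 c5435 c5315 c5428 c5430 c5616 c17864 c6187 c976 (k4 c975 c2356 c3217 c3216 (k2 c4706 c3621 k0)))) (by decide +kernel)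
def c18959 : PP 9 3 T 0x1001400000000002001100000000000000000000000000000200000000000000400000008000000000001000000000000000000001500000000000000820 := rS 0x1e5f8babeb0d7693646c3fb59b723f60eb4965521c74a758db90412931e8942201 (k8 c53 c15516 c12632 c5436 c5444 c311 c12636 c17815 (k8 c5212 c5563 c5341 c5561 c5343 c12639 c5437 c5319 (k8 c5318 c18958 c5213 c5243 c5348 c5351 c5604 c5639 (k4 c5640 c17833 c3592 c17926 (k2 c5623 c5205 k0))))) (by decide +kernel)
def c18960 : PP 9 3 T 0x204000000000000000000020001400400000000000000000000010014441000000000000000000000000000000000000000000000000000000000000000000 := rS 0x86fc61704937de0e8748ded1f897cbed0a83 (k8 c18355 c18349 c18357 c18351 c5527 c5526 c5375 c5374 (k8 c5373 c5634 c17900 c17982 c3614 c3398 c5628 c3498 (k1 c5696 k0))) (by decide +kernel)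
def c18961 : PP 9 3 T 0x4000000000000010002020010004000000000000040000000010014401000000000000000000000000000000200000002040000000000000000080000000 := rS 0x55665c7d61ebbdce36ff8b7cbecd265 (k8 c18353 c18347 c18357 c18351 c5390 c5389 c5611 c17936 (k4 c2663 c2249 c18960 c17775 (k2 c5232 c1088 (k1 c5601 k0)))) (by decide +kernel)
def c18962 : PP 9 3 T 0x1000400000000002001100000000000000000000000000000200000000000080400000000000000000001000000000000000000001500020000000000820 := rS 0x78074ce (k4 c502 c501 c18959 c5456 k0) (by decide +kernel)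
def c18963 : PP 9 3 T 0x400000000012000020000000000000000000040004000200000000000000000000000000000000000000000000000000000000000000000000040800 := rS 0x19de16f0ec6ba53660f229d0bbbe26e38c9262ed143a324a456933612f6552c566474787834d73b7bfe47130c55e6237e875529750a7c522737179007ff196cce57039f4e7b2f6d636e4104a4c7ac91284403a1788107e65 (k8 c18353 c5318 c18909 c5811 c18539 c53 c15516 c12632 (k8 c5396 c5436 c5444 c311 c12636 c17815 c5212 c18948 (k8 c5228 c9719 c17876 c5432 c5313 c5487 c715 c17028 (k8 c18952 c12613 c18951 c1747 c2813 c8199 c5448 c5398 (k8 c5404 c10768 c5486 c5405 c9734 c18484 c18949 c5445 (k8 c751 c17872 c18955 c18956 c2188 c18953 c18950 c5526 (k8 c13598 c18913 c1146 c18957 c1085 c4578 c2075 c939 (k8 c2936 c3968 c938 c5373 c2131 c5593 c5588 c5551 (k8 c5549 c5547 c4345 c5433 c1082 c5491 c5407 c717 (k4 c18961 c18962 c6899 c17862 (k2 c5538 c5688 (k1 c18959 k0)))))))))))) (by decide +kernel)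
def c18964 : PP 9 3 T 0x400000000012000020000000000000000000040004000200000000000000000000000000000000000000000000000000000000000000000000040000 := rS 0x2c9313f91c5007ff19f4ae3f0383c1a4b3991d1e61db9047a25088062af31182526fd2d99c3bb254fb409a1 (k8 c18539 c18909 c18948 c10768 c5228 c5486 c5487 c715 (k8 c5405 c5444 c311 c9734 c18484 c18949 c53 c15516 (k8 c12632 c5436 c12636 c17815 c5445 c5526 c13598 c9719 (k8 c12639 c5522 c5369 c5432 c5318 c5313 c17876 c17028 (k8 c18952 c12613 c751 c17872 c5547 c5588 c18963 c18049 k0))))) (by decide +kernel)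
def c18965 : PP 9 3 T 0x2000100040000000000000000000000000000001000000000000500000000001400001000400140050000000000000000000000000000 := rS 0x3ef8dbccb (k4 c8797 c6118 c5580 c2829 (k1 c5670 k0)) (by decide +kernel)
def c18966 : PP 9 3 T 0x204000000000000000002020000000000000000000000000000010014401008000000000000000000000000000000000000000000000000000000000000000 := rS 0x10e8de2eff8d (k4 c5611 c5389 c5390 c5557 (k2 c18960 c3125 k0)) (by decide +kernel)
def c18967 : PP 9 3 T 0x400000000012000020000000000000000000040004000200000000000000000000000000000000000000000000400000000000000000000000000800 := rS 0x2ab32e3eabbdce2f486cc1e464a268c9262eef2f25d2a457b3d48f0967379fc8d80ab50f1348c0da48070b8d6a6e359fc7e9d0f05f26b3ac23dae34038ccae31f7fc8e21201edc823d128462af31182526fd2d99c3bb254fb4e60102685f2fb34994ba59629d50798 (k8 c18346 c18355 c18354 c18348 c18352 c17796 c18353 c18347 (k8 c18357 c18351 c18539 c18909 c53 c9719 c18948 c10768 (k8 c5228 c5486 c5487 c715 c5405 c5444 c311 c9734 (k8 c18484 c18949 c15516 c12632 c5436 c12636 c17815 c54 (k8 c18964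 c2869 c17872 c18955 c5434 c5313 c5316 c5432 (k8 c3567 c1763 c5526 c5212 c18913 c18631 c5433 c18950 (k8 c1082 c5318 c2917 c5523 c318 c1148 c5549 c5591 (k8 c18965 c13318 c5550 c5374 c5547 c5373 c5490 c15060 (k8 c2083 c18001 c2942 c2943 c4780 c13598 c2341 c5657 (k8 c2936 c5446 c5404 c18020 c4345 c5593 c5588 c5551 (k8 c317 c5013 c5491 c5407 c717 c18962 c5390 c17936 (k4 c2663 c18966 c17775 c5232 (k2 c1088 c5601 k0))))))))))))) (by decide +kernel)
def c18968 : PP 9 3 T 0x202001000000000000000000000000000000200015000000000000000000000001400000000400000000000000000000000000080080020 := rS 0xb98de149f8c93c7aceb75daf57e1917a4d4a6e (k8 c318 c5399 c5444 c9709 c5315 c5431 c5617 c5430 (k8 c5616 c17864 c6187 c12619 c584 c3760 c1151 c2857 (k2 c1089 c3626 k0))) (by decide +kernel)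
def c18969 : PP 9 3 T 0x1001400000000002001100000000000000000000000000000200015000000000400000000000001400000000400000000000000001100000000080080020 := rS 0x3cbf1757d61aed26c8d87f6b36e47ec1d692c8e5521c74a758db90412931e8942201 (k8 c53 c15516 c12632 c5436 c5444 c311 c12636 c17815 (k8 c5212 c5563 c5341 c5561 c5343 c13598 c12639 c5437 (k8 c5319 c5318 c18968 c5213 c5243 c5348 c5351 c5604 (k4 c5639 c5640 c17833 c3592 (k2 c17926 c5623 (k1 c5205 k0)))))) (by decide +kernel)
def c18970 : PP 9 3 T 0x400000000012000020000000000000000000040004000200000000000000000000000000000000000000000000400000000000000000000000000000 := rS 0x73f95cae9bc1398766faee643a9c7e90163af0c25ecde673d5fc4546b49ded71a178ae336081c63ad43a46f6474aa5f07919289a02ad89c0e32498bfbd00e171fc96a6e359c4067f090fd3a1e0bc55e6237e96cce1d54e4f65ed59d636e4104a4c7a25089cc0204d0a3df2fb349973083629d4b25d (k8 c17796 c18352 c18354 c18348 c18355 c18346 c18353 c18347 (k8 c18357 c18351 c5526 c18539 c18909 c53 c9719 c15516 (k8 c12632 c5436 c5444 c311 c12636 c17815 c5212 c18913 (k8 c18948 c5228 c18631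 c10768 c5486 c5487 c715 c5405 (k8 c9734 c18484 c18949 c5433 c18950 c1082 c5318 c18964 (k8 c2917 c54 c2869 c5523 c318 c1148 c17872 c5549 (k8 c5591 c18965 c18955 c5593 c5588 c5551 c5550 c5547 (k8 c5490 c15060 c317 c5013 c5491 c5407 c5404 c5446 (k8 c13598 c5375 c5374 c5373 c5437 c5434 c5432 c5319 (k8 c5316 c5313 c18020 c3567 c1763 c4345 c13318 c2083 (k8 c2936 c18001 c2341 c2943 c2942 c5657 c4780 c5538 (k8 c501 c18967 c18969 c5608 c5388 c5606 c17936 c18966 (k8 c5232 c5348 c17719 c17985 c1822 c3344 c5619 c3430 (k1 c5692 k0)))))))))))))) (by decide +kernel)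
def c18971 : PP 9 3 T 0x81000000000000008000020000000000000000000040004000000001000000044000000000000000500000000000000000000000000400000000000000020 := rS 0x1fcf45583d0e0d42a0cb25d (k8 c17796 c18352 c18355 c18349 c5522 c5373 c5369 c10863 (k2 c5657 c17868 (k1 c2341 k0))) (by decide +kernel)
def c18972 : PP 9 3 T 0x400000000012000020000000000000000000040004000200000000000000000080000000000000000000000000000000000000000000000000000800 := rS 0x3bf4afe84b3bc383c8c944d138c9262fef68a1d1845691d900e171ad4d67f4e8782f931fb35edf23880ce6b13704a2a1d54bccb66711bf764b3ac6dc8209498f44a01f691c228fd09b00865 (k8 c18353 c18909 c717 c18539 c5526 c15516 c13598 c18948 (k8 c53 c12632 c5436 c5444 c311 c12636 c17815 c5212 (k8 c18913 c5228 c5405 c9734 c5487 c715 c18484 c10768 (k8 c5486 c18949 c18964 c318 c1146 c9719 c54 c2869 (k8 c17872 c18971 c17683 c5318 c18631 c5433 c18950 c1082 (k8 c2917 c5523 c1148 c5549 c5591 c18965 c18970 c939 (k8 c2936 c938 c5373 c2131 c18955 c5593 c5588 c5551 (k8 c5547 c317 c5013 c5491 c5407 c5538 c5688 c4780 (k4 c2564 c18961 c5022 c18959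 k0))))))))) (by decide +kernel)
def c18973 : PP 9 3 T 0x400000000012000020000000000000000000040004000200000000000000000000000000000000000000000000000000000000000000000000000800 := rS 0x3490977868bde15532874ff6f9b0969f50a6d3383c8c944d138c9262fef46115a47640385c6b5359fd3a1e0be4c7ef6f91c40673589b825150eaa5e65b3388dfbb259d636e4104a4c7a2500fb48e1147e840865 (k8 c18353 c18909 c18539 c5526 c15516 c13598 c18948 c53 (k8 c12632 c5436 c5444 c311 c12636 c17815 c5212 c18913 (k8 c5228 c5405 c9734 c5487 c715 c18484 c10768 c5486 (k8 c18949 c18964 c318 c1146 c9719 c54 c2869 c17872 (k8 c18971 c5318 c18631 c5433 c18950 c1082 c2917 c5523 (k8 c1148 c5549 c5591 c18965 c18970 c939 c2936 c938 (k8 c18955 c5593 c5588 c5551 c5547 c317 c5013 c5491 (k8 c5407 c5447 c5397 c5398 c5448 c12639 c717 c18972 (k8 c2942 c17934 c3620 c17868 c5456 c8466 c1084 c4345 (k2 c4578 c18969 (k1 c18961 k0))))))))))) (by decide +kernel)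
def c18974 : PP 9 3 T 0x400000000012000020000000000000000000040004000200000000000000000000000000000000000000000000000000000000000000000000000000 := rS 0x73f95cae9bc1398766fac3f738d90dff538fc5e9212ef0d179543af09b416f622b49187663a03df177092632e389fc962b5929c4fe6e130493a1e8abccb793c899c3b837eec966571fb040e171beb6227b43decd6790188cc67323a3d36614cd636e4104a4c7a250880409a154fb5f2fb349950685 (k8 c18349 c18355 c18353 c18347 c18357 c18351 c18948 c10768 (k8 c18539 c18909 c53 c15516 c12632 c5436 c5444 c311 (k8 c12636 c17815 c5212 c5447 c5445 c5397 c5526 c13598 (k8 c9719 c9754 c9734 c54 c5524 c5523 c5375 c5373 (k8 c5372 c5371 c5437 c5435 c5433 c5432 c5319 c5318 (k8 c5313 c18913 c5228 c5405 c5407 c5486 c5487 c5491 (k8 c18631 c715 c18484 c18949 c18950 c1082 c18964 c317 (k8 c318 c2917 c2869 c5013 c1148 c1146 c17872 c5547 (k8 c5549 c5551 c5588 c5591 c5593 c18955 c18965 c940 (k8 c18970 c938 c939 c2936 c18971 c18973 c2315 c17762 (k8 c18062 c3601 c3598 c1084 c4345 c4578 c18969 c5390 (k8 c5608 c5388 c5389 c5606 c5611 c17936 c2249 c18960 (k8 c5232 c5348 c17719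 c17985 c1822 c3344 c5619 c3430 (k1 c5692 k0)))))))))))))) (by decide +kernel)
def c18975 : PP 9 3 T 0x1400000000002000100000000000000000000000000000200000000000000000000420000000000000000000000400000040000000000000000040020 := rS 0x8a8df7355a7e31f9ceb1b720825263d128440398 (k8 c18346 c53 c15516 c12632 c5436 c5444 c311 c12636 (k8 c17815 c5212 c9719 c5318 c17028 c18954 c17727 c5689 (k2 c5505 c5582 (k1 c17783 k0)))) (by decide +kernel)
def c18976 : PP 9 3 T 0x4000000000002001100040000000000000000000000000000020000000000000180000000014000001000000000000000000000000000000000000000 := rS 0x791cebbfba8d3699 (k8 c5447 c5397 c5449 c5641 c4685 c3506 c5190 c17955 k0) (by decide +kernel)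
def c18977 : PP 9 3 T 0x4400000000022001020000000000000000000000004000200000000000000400180000000000000000000000000000000800001100000000080080000 := rS 0x1a9bce3fcae67545a337b47e87da9d8aae566b7c9f84166d04a4cfe3f5a9b8086b (k8 c5523 c18909 c318 c1148 c5318 c2917 c5444 c311 (k8 c5529 c717 c17762 c17690 c5533 c5532 c5415 c5414 (k8 c5412 c18948 c18539 c5526 c5375 c18976 c18969 c2954 (k4 c2955 c5623 c3247 c3430 (k2 c4275 c5671 k0))))) (by decide +kernel)
def c18978 : PP 9 3 T 0x28000000000000000000020001400400000000000000000000010000001020000000000000000000000000000000000000000000000000000000000000000 := rS 0x8d43d1bf3 (k4 c18955 c5505 c5515 c18813 (k1 c3135 k0)) (by decide +kernel)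
def c18979 : PP 9 3 T 0x80004000000000220000200000000000000000000000040002000000010000000000000a1000000000000000000000000000800001000000000080080000 := rS 0xf2fd6f04eb37c7738d90dff538fc5e91dee16f403c6576081f5b7df6ecfc20b368252725131b80845 (k8 c5582 c18909 c318 c317 c5013 c5444 c311 c5529 (k8 c717 c17762 c18383 c18948 c9703 c5437 c5432 c5319 (k8 c5313 c5579 c2135 c2136 c3063 c5024 c18977 c5390 (k8 c5608 c5388 c5389 c5606 c5611 c17761 c18978 c5230 (k4 c17719 c17985 c5630 c5619 (k1 c5205 k0)))))) (by decide +kernel)
def c18980 : PP 9 3 T 0x400000000002000020000000000000000000040004000200000000000000000000000000000000000000000000000000040000000000000000000000 := rS 0x1e5fade09d66f8c6f738d90dff538fc5e9224ef6f31900e1f1b29a649f9bfdaa4546fb96325389b84c122f35ceee31a3419e3a84bc99a1e81bf1eead33a5d5e1a0e95c66396081c2e311beb41e7b43a441a6b3ca3c06f1be9cd2a43ac6dc823d1284403a154fb53aab10ecfc20b36ed01293022250a8b41994d2c53a964bb98 (k8 c18346 c17796 c18352 c18354 c18348 c18347 c18353 c18355 (k8 c18350 c18349 c18356 c18909 c5444 c311 c18974 c5529 (k8 c717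 c17762 c18383 c5528 c5413 c5412 c18948 c10768 (k8 c18539 c53 c15516 c12632 c5436 c12636 c17815 c5212 (k8 c5561 c5446 c9719 c9703 c5811 c54 c5526 c5524 (k8 c5523 c5522 c5374 c5373 c5372 c5369 c5437 c5435 (k8 c5434 c5433 c5432 c5319 c5317 c5316 c5313 c18517 (k8 c5649 c10145 c1073 c1902 c1908 c2103 c17838 c2632 (k8 c1075 c2505 c1076 c4775 c11199 c1647 c449 c448 (k8 c1773 c10798 c1763 c18020 c18975 c317 c318 c2869 (k8 c5013 c1146 c5683 c5505 c5582 c5585 c5586 c18955 (k8 c450 c18979 c9617 c5464 c1718 c8797 c14198 c5691 (k8 c4345 c940 c18977 c5390 c5608 c5388 c5389 c5606 (k8 c5611 c17761 c2689 c18813 c5230 c17719 c17985 c5630 (k2 c5619 c5205 k0))))))))))))))) (by decide +kernel)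
def c18981 : PP 9 3 T 0x5005400000000044000020000000000000000000040000000000000000000000000000000000000050000000000000001080000000400000000000010005 := rS 0x1c3e4b0 (k4 c5683 c5204 c2180 c12233 k0) (by decide +kernel)
def c18982 : PP 9 3 T 0x40000000000000022000120000000000000000000000000000200000000000000000000000000000000000000000000000000000000000000000040040020 := rS 0x2489d6ade37385005e3fb8c74571f81c2e0f3da441a6b1488c964747a7d42614cd613b1510acfc20b369f7c673db90412931e8940211 (k8 c15516 c53 c12632 c5436 c5444 c311 c12636 c17815 (k8 c9719 c17028 c17876 c5529 c717 c17762 c5532 c5528 (k8 c5414 c5412 c5212 c5447 c5445 c5398 c5448 c5526 (k8 c13598 c12639 c9734 c8199 c5523 c5522 c5374 c5372 (k8 c5369 c5433 c5432 c5318 c5313 c18438 c1773 c16323 (k8 c15534 c12613 c1716 c1747 c5691 c1148 c2813 c2946 (k1 c3584 k0))))))) (by decide +kernel)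
def c18983 : PP 9 3 T 0x9000000000000040000120000000000000000000040004000000001000000004000000000000000444000000000000041000080000000000000008000000 := rS 0x1b9687180c49e8fd489ad1ea97ba1d5a43ac23563037fa2d0a83 (k8 c18355 c18349 c18350 c5586 c5508 c5506 c5505 c5212 (k8 c5561 c1908 c5373 c2101 c10768 c5526 c5523 c5374 (k8 c1076 c5657 c16126 c1927 c755 c3623 c5666 c1148 k0))) (by decide +kernel)
def c18984 : PP 9 3 T 0x222000020000000000000000000000000000200014800000000000000000000000000000000000000008000000000000000000000000020 := rS 0x2378593c78329351a956a6b (k8 c5523 c1148 c5399 c5449 c5444 c5315 c17257 c12619 (k2 c1151 c2690 (k1 c17867 k0))) (by decide +kernel)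
def c18985 : PP 9 3 T 0x1001400000000140001100000000000000000000000000000200000010000000000000000000000000000000000000000000000005510000000000000000 := rS 0xf23abebf126c8d87f6b30ff5a5521c74a758 (k8 c5212 c5563 c5341 c5561 c5343 c5437 c5318 c5213 (k8 c5243 c5348 c5351 c5604 c17926 c17833 c17933 c5205 (k1 c5623 k0))) (by decide +kernel)
def c18986 : PP 9 3 T 0x400000000002001020000000000000000000040004000200000000000000000100000000000000000000000000000000000000000000000000040000 := rS 0x3e3f5bf45a3d67dc464322f51a953ab95bc34dcde719fce31224bc9671555914960dc995c72071b83fe7eef19cd5a43ac2bc34662d78417b336ed36e4104a4c7a25f691d1e11d080c0204 (k8 c18909 c53 c54 c18539 c15516 c5526 c13598 c18948 (k8 c12632 c5436 c5444 c311 c12636 c17815 c18974 c5529 (k8 c18383 c717 c17762 c18980 c715 c716 c17787 c5212 (k8 c5561 c1908 c9719 c17028 c18981 c18955 c5369 c5435 (k8 c5432 c5317 c5313 c17690 c5522 c12639 c5582 c5413 (k8 c5414 c5532 c18983 c450 c18049 c755 c17735 c15481 (k8 c5691 c5666 c5509 c5533 c5415 c5412 c5399 c5449 (k8 c9709 c5315 c18976 c18985 c17864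 c17257 c18984 c973 (k2 c5635 c5511 (k1 c5172 k0)))))))))) (by decide +kernel)
def c18987 : PP 9 3 T 0x400000000002000020000000000000000000040004000200000000000000000000080000000000000000000000000000000000000000000000040000 := rS 0xc8e0f5e2bb37c70fb9c6dff17a4803424acf63379c37d66c243df371e4c72373ba00fe7189125e4b38aaac8a0f25834ae3f039f51beef19cd5a43ac2bc34662d78417b336ed36e4104a4c7a25f691d1e11d080c0204 (k8 c18909 c53 c54 c18539 c15516 c5526 c13598 c18948 (k8 c12632 c5436 c5444 c311 c12636 c17815 c18974 c5529 (k8 c18383 c717 c17762 c18980 c715 c716 c17787 c5212 (k8 c5561 c1908 c9719 c17028 c18981 c5505 c17876 c5432 (k8 c5318 c5313 c5522 c12639 c5369 c5582 c5413 c5414 (k8 c5532 c18983 c450 c18049 c755 c17735 c12613 c938 (k8 c5435 c5317 c17690 c15481 c18955 c18982 c4775 c2500 (k8 c9703 c3063 c5691 c8617 c4702 c3969 c18861 c2135 (k8 c18986 c5390 c5389 c5611 c17761 c2224 c18978 c5230 (k4 c5601 c5603 c1079 c1910 (k1 c5684 k0))))))))))) (by decide +kernel)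
def c18988 : PP 9 3 T 0x400000000002000020000000000000000000040004000200000000000000000000000000000000000000000000000000000000000000000000040000 := rS 0x191c1ebc5766f8e1e37b9c6dff1725d2319c2d34038cfe718942492f20f7cdfe4581a37dde33e95c723f038dc1e7b43a441a03be92ce64747fb5571559ecf27e1059b7686657ab4345a21d636e4104a4c7a250880409a144a151683 (k8 c18355 c18350 c18349 c18356 c18539 c18909 c53 c15516 (k8 c12632 c5436 c5444 c311 c12636 c17815 c5212 c5561 (k8 c18980 c716 c1908 c17787 c715 c18974 c5529 c717 (k8 c17762 c17690 c18383 c5532 c5414 c5413 c18948 c5526 (k8 c13598 c9719 c12639 c9703 c54 c5522 c5374 c5373 (k8 c5372 c5369 c5435 c5432 c5318 c5317 c5313 c17876 (k8 c17028 c18981 c5505 c5508 c5582 c5586 c18955 c18982 (k8 c18983 c450 c4775 c18049 c755 c17735 c15481 c12613 (k8 c18987 c1716 c14198 c18986 c3969 c5390 c5389 c5611 (k8 c17761 c2689 c2224 c18813 c5230 c5601 c5603 c1079 (k2 c1910 c5684 k0))))))))))) (by decide +kernel)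
def c18989 : PP 9 3 T 0x400000000002001020000000000000000000040004000200000000000000000000080000000000000000000000000000000000000000000000000000 := rS 0x11b8be17192293c7b71190c92c8e8f51a953ab95bad4d70d24915bce166bc9671555fb4e6e33f8ff26571c81c6e0ff082cdbe3f9fb9626e096cf68af56868b443ac6dc8209498f44a11008134265 (k8 c18353 c18539 c18909 c53 c15516 c12632 c5436 c5444 (k8 c311 c12636 c17815 c5212 c5561 c18980 c716 c1908 (k8 c17787 c18974 c18383 c18988 c318 c1146 c5683 c18955 (k8 c5579 c5529 c717 c17762 c5369 c5435 c5432 c5317 (k8 c5313 c17690 c5318 c2917 c15481 c9719 c18948 c5413 (k8 c5414 c5532 c18983 c2500 c3063 c5691 c5582 c450 (k8 c5509 c5523 c1148 c5533 c5415 c5412 c5399 c5449 (k8 c5526 c13598 c12639 c5315 c18976 c18985 c17257 c12619 (k4 c583 c584 c1151 c4907 (k2 c2857 c17867 k0)))))))))) (by decide +kernel)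
def c18990 : PP 9 3 T 0x400000000002000020000000000000000000040004000200000000000000000000080000000000000000000000000000000000000000000000000000 := rS 0xc8e0f5e2bb37c70fb9c6dff17a484c01a0cf3bb7900e13ef8efbe1334944ce33f8ff26570581c6e0f46bffe6cd797b9626e096cd5a43ac2bc345a599b62aabda6dc8209498f44a11f69cc0204d08e51265 (k8 c18353 c18356 c5317 c18539 c18909 c53 c9719 c18948 (k8 c15516 c12632 c5436 c5444 c311 c12636 c17815 c18974 (k8 c5413 c5414 c5529 c5532 c18980 c716 c17787 c5212 (k8 c5561 c1908 c18383 c18988 c318 c1146 c5683 c18983 (k8 c2500 c18955 c5586 c5505 c5369 c5435 c5432 c717 (k8 c5313 c17690 c5318 c2917 c15481 c317 c5013 c715 (k8 c17762 c9703 c5579 c2827 c3063 c5670 c5691 c938 (k8 c2564 c18861 c2135 c4583 c18989 c5390 c5389 c5611 (k8 c17761 c2224 c18978 c5230 c5601 c5603 c1079 c1910 (k1 c5684 k0)))))))))) (by decide +kernel)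
def c18991 : PP 9 3 T 0x400000000002000020000000000000000000040004000200000000000000000000000000000000000000000000000000000000000000000000000000 := rS 0x191c1ebc5766f8e1e37b9c6dff17a484879f91277c05bcc640179c3e36534c92f2f9bfdaa4581b5d1bee71c9562b5389fcdc26092b52eaf0d198b5e105e4f66b336c55569dda2a4ae391f81c2e3707a1d220d3580efa7323a3fda43ac6dc8209498f44a1100813428942a2d0665 (k8 c18353 c18355 c18350 c18349 c18356 c18539 c18909 c53 (k8 c15516 c12632 c5436 c5444 c311 c12636 c17815 c5212 (k8 c5561 c18948 c5526 c13598 c9719 c9703 c54 c5523 (k8 c5522 c5374 c5373 c5369 c5435 c5433 c5432 c5318 (k8 c5317 c5313 c10768 c18974 c5412 c5413 c5414 c5529 (k8 c5532 c18383 c17690 c717 c17762 c18980 c715 c716 (k8 c17787 c1073 c1908 c18988 c317 c318 c2917 c2869 (k8 c1148 c1146 c5013 c15481 c5683 c5505 c5507 c5508 (k8 c5582 c5585 c5586 c18955 c18983 c450 c18990 c9617 (k8 c5464 c1718 c15693 c8797 c14198 c5691 c9158 c4345 (k8 c940 c3623 c1075 c4775 c18977 c5390 c5389 c5611 (k8 c17761 c2689 c2224 c18813 c5230 c5601 c5603 c1079 (k2 c1910 c5684 k0))))))))))))) (by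 decide +kernel)
def c18992 : PP 9 3 T 0x400000000002000020000000000000000000000004000200000000000000000000000000000000000000000000000000000000000000000000000000 := rS 0x7cf6b93059243e3ba55636e4104a4cae371e91d1e250880409a1 (k8 c18539 c18909 c53 c15516 c12632 c5526 c13598 c5436 (k8 c5435 c5313 c5444 c311 c12636 c17815 c5212 c18991 (k8 c5332 c5517 c5334 c5516 c13294 c9578 c18062 c17322 k0))) (by decide +kernel)
def c18993 : PP 9 3 T 0x41000100000000000000000200000000000000000000000000000000080000000000000000000000000000040000004000000000040000 := rS 0x648ede3 (k4 c5579 c18954 c5236 c5356 k0) (by decide +kernel)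
def c18994 : PP 9 3 T 0x5000000000051000120000000000000000000040000000000000000000000000000000000000000000000000000000000000000000000000000440020 := rS 0x592626c7f96481e0d2591c228f (k8 c5526 c15516 c13598 c12639 c5522 c5369 c5236 c5198 (k4 c5357 c5547 c5588 c10403 (k1 c18049 k0))) (by decide +kernel)
def c18995 : PP 9 3 T 0x1001000000000051000120040000000000000000040004000200000000000000000000000000000400000000000000000000000000000000000000000820 := rS 0x162f7f91b868713b824c0cf4ea658cf3364543c571981c2e311b80ce601238451e5b33ec8ca7562964ba85 (k8 c18349 c17796 c18352 c18348 c18354 c18353 c5228 c5487 (k8 c715 c5526 c15516 c13598 c53 c9719 c54 c5435 (k8 c5434 c5433 c5432 c5316 c5313 c718 c17782 c717 (k8 c2530 c10403 c2317 c1082 c2560 c11103 c1574 c724 (k4 c10408 c3567 c5666 c17872 (k2 c502 c1146 (k1 c18971 k0))))))) (by decide +kernel)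
def c18996 : PP 9 3 T 0x1000000000051000100000000000000000000040000000200000000000000000000000000000000000000000001000000800002400000000000040420 := rS 0xdc26388803e9c4da64ae171480c464b39806b011 (k8 c15516 c12617 c53 c9719 c12639 c9734 c54 c8199 (k8 c5433 c5313 c1520 c10735 c10734 c17725 c5855 c17314 (k2 c344 c5666 (k1 c2813 k0)))) (by decide +kernel)
def c18997 : PP 9 3 T 0x40000000000000051000120040000000000000000000000000000000000000000000000000000000000000000000000000000400000000000000000000020 := rS 0x38c54c07b3598ce601 (k8 c53 c9719 c9754 c5523 c5372 c5663 c17874 c10408 (k1 c17872 k0)) (by decide +kernel)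
def c18998 : PP 9 3 T 0x1400000000050000020000000000000000000040004000200000000000000000000000000000000000000000000000000800000000000000000040000 := rS 0x6a34162cd373fde4718927c3e494e32536992b8e41e0d3c8a40623259cc024754ab55e970ea55a65b33ec87ecb6ba841793f105d675808a3f63ed02684ca85 (k8 c18349 c18353 c18539 c18909 c18948 c18992 c5526 c15516 (k8 c12617 c18913 c5433 c18994 c12823 c18995 c5578 c5465 (k8 c5464 c5318 c5228 c5487 c715 c18993 c5488 c5486 (k8 c5404 c5406 c5490 c10768 c13598 c53 c9719 c12639 (k8 c9734 c54 c8199 c5524 c5522 c5369 c5317 c5313 (k8 c1520 c10735 c1117 c10734 c18996 c17725 c1701 c18049 (k8 c17314 c18950 c2570 c5666 c2500 c1146 c11160 c3618 (k1 c1711 k0)))))))) (by decide +kernel)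
def c18999 : PP 9 3 T 0x1400000000050000020000000000000000000040004000200000000000000000000000000000000000000000000000000000000000000000000040000 := rS 0x24c4fe45f05e4fc417078349647f6ec5675808813428f (k8 c5526 c18539 c18909 c15516 c12617 c18913 c18992 c18948 (k8 c13598 c12639 c5522 c5369 c5433 c18994 c12823 c18995 (k4 c18998 c18997 c5547 c5588 (k1 c18049 k0)))) (by decide +kernel)
def c19000 : PP 9 3 T 0x1002000000000000000020080000000000000000040004000200000000000000000000000000000000000000000000000000040000000000000000000000 := rS 0xf37bbd414346715c6607188dc768562964ea5d (k8 c17796 c18354 c18352 c18348 c18349 c5456 c5435 c5434 (k8 c5432 c5316 c5313 c13267 c10897 c17770 c2339 c501 (k2 c2530 c5657 k0))) (by decide +kernel)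
def c19001 : PP 9 3 T 0x41002000000000051000000000000000000000200040004000200000000000000000000440000000000000000000000000000000002400000001080000000 := rS 0xaa5a2a5fbb2 (k4 c5228 c5405 c10768 c11939 (k2 c10680 c18647 k0)) (by decide +kernel)
def c19002 : PP 9 3 T 0x400000000050000020000000000000000000040004000200000000000000000000000000000000000000000000000000000000000000000000040000 := rS 0x1b84c711002c3ff32438dafe2c9b7dc23bf034c723f1b8a40623259cc8e8f12807625b33ecbda41ac04409a1 (k8 c18539 c18909 c15516 c12617 c5340 c18948 c5228 c5487 (k8 c715 c18992 c53 c12632 c5526 c13598 c9719 c12639 (k8 c9734 c54 c8199 c5435 c5318 c5317 c18993 c18999 (k8 c5456 c5460 c5538 c19000 c5236 c5465 c5466 c17960 (k8 c17862 c19001 c718 c5650 c17314 c344 c5666 c2813 k0))))) (by decide +kernel)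
def c19003 : PP 9 3 T 0x5000000000091000100000000000000000000000000000200000000001000000000000000000451000000000004000040000000400000000000040820 := rS 0x55bfe070168b5e24de70b4c68803e9dc127f71e4cc09a4ea658cf3364543c57198fc0e17188dc02032d906b0114fac56a853ab14b25d (k8 c17796 c18352 c18348 c18354 c18349 c5422 c5421 c5572 (k8 c15516 c12617 c5340 c715 c54 c53 c5435 c5434 (k8 c5433 c5432 c5318 c5316 c5313 c718 c17782 c717 (k8 c2530 c10403 c2317 c1082 c17725 c11103 c5357 c6448 (k8 c17682 c1574 c724 c1579 c5670 c3567 c18954 c1716 (k8 c941 c940 c1763 c1705 c9158 c2517 c2570 c1190 (k1 c3623 k0))))))) (by decide +kernel)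
def c19004 : PP 9 3 T 0x8000000000000000000000000000000000000200000000000000000000000000000000000000000000000000000000000000040000000000000000040000 := rS 0x1151b98 (k4 c18346 c5505 c5582 c17783 k0) (by decide +kernel)
def c19005 : PP 9 3 T 0x5400000000010000020000000000000000000040004000200000000000000000000000000000000000000000000000000000000000000000000040000 := rS 0x9313f902c1e7b0692c8fb154ab55efd59a3f6defac047425b33ecbda04 (k8 c18909 c18948 c5228 c5487 c715 c18539 c15516 c12617 (k8 c19004 c19002 c5526 c18913 c5405 c5406 c5490 c10768 (k8 c18992 c13598 c12639 c5522 c5372 c5369 c19003 c5204 (k2 c5547 c5588 (k1 c18049 k0))))) (by decide +kernel)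
def c19006 : PP 9 3 T 0x8000000000000000000000000000000000000000000000200000000000000000000000000000000004000000000000002000000010000000000050004 := rS 0x7d0495c0e3d (k4 c5436 c5432 c5313 c1574 (k2 c1579 c17980 k0)) (by decide +kernel)
def c19007 : PP 9 3 T 0x1400000000010000020000000000000000000040004000200000000000000000000000000000000000000000000000000000000000000000000040000 := rS 0x1037ffce02f28933c3e9c4da65a85e6498726d350b5fc45707a441a790198c964747ec552ad57a5c3a9520a7d96b1db7beb011d096ccfb2f68110a65 (k8 c18353 c18349 c18909 c18948 c5228 c5487 c715 c18539 (k8 c15516 c12617 c19004 c19002 c5421 c5420 c5572 c5340 (k8 c5488 c5486 c5404 c5406 c5490 c10768 c18992 c5526 (k8 c13598 c12639 c9754 c54 c5524 c5522 c5374 c5369 (k8 c5313 c19005 c5465 c5578 c5579 c12823 c19006 c10171 (k8 c5663 c3618 c1520 c10735 c10734 c17725 c10444 c18090 (k4 c18950 c3073 c5547 c2570 (k2 c2627 c5694 k0)))))))) (by decide +kernel)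
def c19008 : PP 9 3 T 0x1000000000000000000100000000000000000000000000000000000000040000000000000000000000000000004000000000040002100000000000050000 := rS 0x100467beb198 (k4 c18346 c12617 c19004 c17837 (k2 c13257 c2141 k0)) (by decide +kernel)
def c19009 : PP 9 3 T 0x280001000000000000000000200000000000200000000000000005000000000000000001400000000000000800000000000000000000820 := rS 0x52ae5d3792647aceb75da9d465711a643c37 (k8 c5435 c718 c2317 c9734 c5313 c5614 c5428 c5430 (k8 c5616 c17708 c6187 c976 c813 c2356 c3216 c1124 (k1 c3621 k0))) (by decide +kernel)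
def c19010 : PP 9 3 T 0x40002000000000081001000040000000000000200000000000200000000000000400000000000000000000000000000000000800002000000000000000820 := rS 0x22d19767de37f5273ac9b2361f92cdb91fb046e3dd695482534eb9d36e5 (k8 c5539 c5536 c5461 c5458 c5563 c5340 c5343 c5437 (k8 c5436 c5435 c5319 c5318 c19009 c5213 c5237 c5348 (k8 c5351 c5604 c5623 c6333 c7334 c3127 c17933 c3592 (k2 c3500 c5697 (k1 c3454 k0))))) (by decide +kernel)
def c19011 : PP 9 3 T 0x204004400000000000002020000000000000000000000000000000000401000000005000000040000000000000000000000000000000000000000000000000 := rS 0xf8f960978fbc5e0ee943a46f68fc4e2eff8d7da1506f9 (k8 c18351 c18355 c18349 c18357 c5611 c5389 c5390 c5527 (k8 c5526 c5375 c5374 c5373 c5555 c5634 c5635 c17900 (k4 c17938 c3614 c5619 c5628 (k1 c5206 k0)))) (by decide +kernel)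
def c19012 : PP 9 3 T 0x4004400000000010002020010004000000000000040000000000000401000000005000000040000000000000000000002040000000000000000080000000 := rS 0xaaccb8faaef738b7cbecd265 (k8 c18353 c18347 c18357 c18351 c5390 c17936 c2663 c19011 (k4 c17775 c5232 c1088 c5601 k0)) (by decide +kernel)
def c19013 : PP 9 3 T 0x40002000000000081001000040000000000000200000000000200000000000000000000000000000000000000000000000000800002000000000000000820 := rS 0x791ddb94eb9d36e5 (k8 c5539 c5536 c5461 c5458 c19009 c19010 c5237 c5473 k0) (by decide +kernel)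
def c19014 : PP 9 3 T 0x40004400000000010000020000000000000000000040004000200000000000000000000000000000000000000000000000000000002000000000000040800 := rS 0x1dc125fd2c4dfc441ac2606f60d2a8ae33038c50e63d8aa7079158edbdf5808e8476c773b9727e02d99f65ed0f1b0087562964ba85 (k8 c18349 c17796 c18352 c18348 c18354 c18909 c717 c718 (k8 c18948 c5228 c5487 c715 c19007 c19000 c5539 c5461 (k8 c5535 c5456 c18539 c15516 c12617 c19004 c19002 c5421 (k8 c5491 c5407 c10768 c18992 c9754 c5373 c5434 c5432 (k8 c5316 c5313 c10680 c1084 c1085 c2199 c4578 c501 (k8 c19008 c504 c2570 c19012 c19013 c312 c11141 c3567 k0)))))) (by decide +kernel)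
def c19015 : PP 9 3 T 0x40002000000000081001000040000000000000200000000000200000000000000000800000000000000000000000000000000800000000000000000000820 := rS 0x8b465d91bfafdc9ceb77ba49b2361f92cdb91fb046e3dd695482534eb9d36e5 (k8 c5539 c5536 c5461 c5458 c5563 c5340 c5343 c5437 (k8 c5436 c5435 c5319 c5318 c19009 c5213 c5237 c5348 (k8 c5351 c5604 c5472 c5473 c5623 c6333 c17933 c7334 (k4 c2693 c3592 c3500 c5697 (k1 c3454 k0))))) (by decide +kernel)
def c19016 : PP 9 3 T 0x40004400000000010000020000000000000000000040004000200000000000000000000000000000000000000000000000000000000000000000000040a00 := rS 0x2ab32e3eabb846e717a4899f9025ed8e0f23b6f7b1dcee5c996ccfb2f69b1321e3eb8892377092dbe391e8efc04747906b011026847e797cbecd265 (k8 c18353 c18347 c18357 c18351 c5524 c5318 c18539 c18909 (k8 c15516 c12617 c5340 c5526 c13598 c19007 c5456 c5436 (k8 c5317 c5538 c12639 c5460 c5435 c19014 c3590 c1551 (k8 c718 c2317 c717 c18948 c5228 c5487 c715 c19000 (k8 c5539 c5461 c5535 c19004 c19002 c5491 c5407 c18992 (k8 c312 c1744 c5670 c15494 c19015 c5390 c17936 c19012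 (k4 c2663 c5556 c17775 c5232 (k2 c1088 c5601 k0)))))))) (by decide +kernel)
def c19017 : PP 9 3 T 0x4400000000001000100040000000000000200000000000200000000000000000000000000000000000000000000000044440000000000000000040100 := rS 0xd7698d1aa773015c663f038c483ef3ab14b25d (k8 c17796 c18352 c18348 c18354 c19004 c5340 c5434 c5432 (k8 c5318 c5316 c5313 c5663 c11141 c10426 c3567 c18954 (k2 c1763 c5689 k0))) (by decide +kernel)
def c19018 : PP 9 3 T 0x40004400000000010000020000000000000000000040004000200000000000000000000000000000000000000000000000000000000000000000000040800 := rS 0x553dd9f0851c4f738f0d1fb489340b24bc093eb8892391f8f4f2293192c8e8fd8aa52efdc1a57224165edbdf5808e8476c770b9d36df72e4fc05b33ecbda6c4c87808377cbecd265 (k8 c18353 c18347 c18357 c18351 c5435 c18909 c718 c2317 (k8 c717 c18948 c5228 c5487 c715 c19007 c19000 c5539 (k8 c5538 c5536 c5461 c5460 c5535 c5456 c18539 c15516 (k8 c12617 c19004 c19002 c5420 c5340 c5491 c5488 c5407 (k8 c5405 c5404 c10768 c18992 c5526 c13598 c12639 c9754 (k8 c8199 c5524 c5436 c5318 c5317 c19014 c3590 c1551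 (k8 c19016 c19017 c1117 c1746 c1516 c19015 c5670 c18617 (k8 c5608 c17936 c15494 c1524 c19012 c17722 c4578 c18012 (k1 c1085 k0))))))))) (by decide +kernel)
def c19019 : PP 9 3 T 0x80000000000000000000000000000000000000000000000000200000000000000000040000000000000000000000000000000000000410400000000000000 := rS 0xe3 (k2 c5549 c17862 k0) (by decide +kernel)
def c19020 : PP 9 3 T 0x280001000000000000000000200000000000000000000000000005000000000000000001400000001000000004000000000000080000220 := rS 0x172e95293f1d798f59d6ebb53a8d325e (k8 c312 c1520 c5614 c5428 c5430 c5616 c17708 c6187 (k4 c813 c578 c3759 c1124 (k2 c1559 c1089 (k1 c3621 k0)))) (by decide +kernel)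
def c19021 : PP 9 3 T 0x40002000000000081001000040000000000000200000000000200000000000000400000000000000000000000000001000000000002000000000080000220 := rS 0x45a32ecfafde364e7593646c3f259b72571fb046e3dd695482534eb9d36e5 (k8 c5539 c5536 c5461 c5458 c5563 c5340 c5343 c5437 (k8 c5436 c5435 c5319 c5318 c5313 c19020 c5213 c5237 (k8 c5348 c5351 c5604 c5623 c6333 c3127 c17933 c7334 (k4 c3592 c3500 c5697 c3454 k0)))) (by decide +kernel)
def c19022 : PP 9 3 T 0x4400000000010000020000000000000000000040004000200000000000000000000000000000000000000000000000000000002000000000000040000 := rS 0x5e3c92653eae46c3b329547f5dce3703218fe3e4ba484bbc346e551b5ed130f1f8431588a1d226b119cc03b154bf707912a94d66714fb2c4eb5db7bd8ee772e4cb667d97b524814c978100bf9b7c7641ac11c228fd0f8008797cbecd265 (k8 c18353 c18347 c18357 c18351 c5524 c18909 c19007 c18539 (k8 c5526 c15516 c13598 c12617 c5340 c5456 c5538 c19019 (k8 c19018 c17762 c312 c1520 c1744 c311 c18948 c5228 (k8 c5487 c715 c19000 c5539 c5461 c5535 c19004 c19002 (k8 c5422 c5570 c5420 c5572 c5571 c18913 c5563 c5343 (k8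 c5491 c5407 c5405 c10768 c18992 c53 c9719 c9734 (k8 c5523 c5374 c5373 c5371 c17759 c344 c10667 c5650 (k8 c15494 c18067 c2315 c10680 c3604 c1084 c5018 c4578 (k8 c19021 c5391 c5608 c5385 c5606 c5607 c5611 c17936 (k8 c19011 c1524 c1123 c5232 c5348 c5351 c5600 c1806 (k4 c12621 c5681 c811 c5619 k0))))))))))) (by decide +kernel)
def c19023 : PP 9 3 T 0x4400000000010000020000000000000000000040004000200000000000000000000000000000000000000000000000000000000000000000000040000 := rS 0x89124160f0692f6c9bc996ccfb2f6fcdbe3bf0106b047088111fa1 (k8 c18539 c5526 c18909 c15516 c13598 c12617 c5340 c19007 (k8 c5456 c5538 c19019 c18948 c5228 c5487 c715 c19000 (k8 c5536 c19002 c12639 c5522 c5369 c19018 c19022 c18049 (k1 c18080 k0)))) (by decide +kernel)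
def c19024 : PP 9 3 T 0x400000000010000020000000000000000000040004000200000000000000000000000000000000000000000000000000000000000000000000040000 := rS 0x133152f120c3e2c9b7dc23bf009d3fb620d6072373c80c466308e87625b33ecbda04 (k8 c18909 c18948 c5228 c5487 c715 c18992 c18539 c15516 (k8 c9754 c9734 c54 c5524 c5435 c5317 c12617 c5340 (k8 c19002 c5572 c5570 c19007 c5456 c5460 c5538 c19000 (k4 c19023 c19006 c17960 c5663 (k2 c17759 c1520 (k1 c6706 k0)))))) (by decide +kernel)
def c19025 : PP 9 3 T 0x4000000000001000100000000000000000000000000000200000000000000000000000000000000000000000000000000000000000000000000080020 := rS 0xcb4f97f246edba844c3f (k8 c5318 c317 c2927 c5570 c318 c5236 c5439 c17750 (k2 c1144 c5680 k0)) (by decide +kernel)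
def c19026 : PP 9 3 T 0x1001000000000051000120000000000000000000040004000200000000000000000000000000000400000000000000000000000000000000000000000820 := rS 0x6498c17 (k4 c5433 c10403 c18995 c5357 k0) (by decide +kernel)
def c19027 : PP 9 3 T 0x40001000000000011000120040000000000000000040000000000000000000000000000440400000151010050000000010000040000000000008010000020 := rS 0x8033da8f22427d38c94cc50bc79398076e65 (k8 c18353 c5570 c53 c9719 c5524 c18997 c17872 c1520 (k8 c1117 c10734 c1523 c3046 c18949 c3618 c10444 c451 (k1 c3073 k0))) (by decide +kernel)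
def c19028 : PP 9 3 T 0x1000000000011000020040000000000000000040004000200000000001000000000000000000001000000000000000040400000000000000000000420 := rS 0x33dec9a0f0d13a7730024ae33038c6227b4398cb6653ab14b25d (k8 c17796 c18352 c18348 c18354 c18353 c715 c9754 c5373 (k8 c5372 c5371 c5434 c5432 c5316 c5313 c312 c5663 (k8 c11141 c1696 c3567 c18041 c17725 c18067 c2562 c502 k0))) (by decide +kernel)
def c19029 : PP 9 3 T 0x1400000000010000020040000000000000000040004000200000000000000000000000000000000000000000000000000000000000000000000000000 := rS 0x66345e4cf6a07d3e9c64a6d325e70fc8ae393caa55aaf4bbf43a952d99f647101a847eb165b5da7e205accdc8fdb89825b1f68134265 (k8 c18353 c18539 c18909 c18948 c18992 c19024 c317 c5570 (k8 c5526 c318 c2819 c19026 c19025 c5579 c5465 c5464 (k8 c1146 c5318 c2927 c54 c2869 c5228 c5487 c715 (k8 c5488 c5486 c5405 c5404 c5406 c5490 c10768 c5524 (k8 c5317 c5313 c19027 c5591 c19028 c1520 c10735 c1117 (k8 c10734 c1523 c17725 c3618 c10444 c18950 c1710 c5688 (k1 c2500 k0))))))) (by decide +kernel)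
def c19030 : PP 9 3 T 0x1400000000010000020000000000000000000040004000200000000000000000000000000000000000000000000000000000000000000000000000000 := rS 0x181389b7907e29f30497f240b3d9cc8e2508805521d2d99f65ed3880f6ea1130fd6a6b599b91fe2096c409a1 (k8 c18539 c18909 c18992 c19024 c19025 c5526 c318 c2819 (k8 c5523 c1148 c5318 c317 c2927 c5570 c54 c2869 (k8 c18948 c5228 c5487 c715 c5486 c10768 c53 c15516 (k8 c12632 c13598 c9719 c5372 c19026 c19029 c5439 c5438 (k8 c17692 c17872 c11939 c18949 c1191 c18041 c18626 c1696 k0))))) (by decide +kernel)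
def c19031 : PP 9 3 T 0x400000000010000020000000000000000000040004000200000000000000000000000000000000000000000000000000000000000000000000000000 := rS 0x401a8f24fb26285e247cf26e11df81bed371b5d97e2ac2c543b7209c4dc260916d2a670ea5d5eadd92a4723f1b80ce60123844088fd0fb76265 (k8 c18353 c18992 c18948 c18539 c5526 c18909 c15516 c13598 (k8 c53 c9719 c54 c5435 c5318 c5317 c10768 c5228 (k8 c5490 c5406 c5404 c5486 c5487 c5488 c715 c19024 (k8 c317 c318 c2869 c3667 c5570 c2927 c1146 c5212 (k8 c19025 c5464 c5465 c5466 c5579 c5580 c19030 c5456 (k8 c5460 c19000 c17862 c17960 c18997 c17872 c1117 c1523 (k4 c18949 c3618 c451 c3072 k0))))))) (by decide +kernel)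
def c19032 : PP 9 3 T 0x400000000010000020000000000000000000000004000200000000000000000000000000000000000000000000000000000000000000000000000000 := rS 0x966a4de49c2da6d32672f6cbe7e1ac6df260b248ee9457198e40e311b83cf687069acf247088111fa1f6ec4eac52c9750b98 (k8 c18346 c18349 c17796 c18352 c18348 c18354 c18992 c18948 (k8 c18539 c5526 c18909 c15516 c13598 c5524 c5523 c5522 (k8 c5373 c5372 c5369 c5435 c5434 c5432 c5317 c5316 (k8 c5313 c19031 c5332 c5334 c5516 c13294 c17105 c5212 (k8 c18783 c18062 c5195 c18997 c5487 c1520 c1119 c715 (k4 c5679 c17728 c1694 c2500 (k2 c311 c11199 k0))))))) (by decide +kernel)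
def c19033 : PP 9 3 T 0x400000000045000000000000000000000200000004000200000000000001000000000000000110000040000000000004040000000000001000040100 := rS 0x1d570d3de772b8cc0e313ab14b25d (k8 c17796 c18352 c18348 c18354 c5434 c5432 c5316 c5313 (k4 c18937 c19004 c3567 c5683 (k2 c332 c10145 k0))) (by decide +kernel)
def c19034 : PP 9 3 T 0x400000000040000020040000000000000000040004000200000000000000000000000000000000000000000000000000400000000000000000040000 := rS 0x1a2f2647b92aaf0d198b4b1569b92e7c1d18012571c81c62371ebc4c6731284403ed55c5567b3059b7680420d63c5b1d099512c5 (k8 c18348 c18356 c18353 c18539 c18992 c5236 c5212 c5340 (k8 c18909 c19032 c5529 c717 c18383 c5532 c5414 c5413 (k8 c18948 c53 c15516 c12632 c9719 c9754 c5811 c5436 (k8 c5435 c5434 c5432 c5317 c5313 c312 c5663 c18085 (k8 c17980 c1639 c1580 c2817 c1146 c19033 c715 c716 (k4 c17787 c1904 c5683 c5678 (k2 c18983 c4497 (k1 c449 k0)))))))) (by decide +kernel)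
def c19035 : PP 9 3 T 0x1000040005000440008400000400011580000000000000000000200000000020000000 := rS 0x1c2b54fc055cad (k4 c2887 c336 c3067 c1644 (k2 c1249 c1653 (k1 c3620 k0))) (by decide +kernel)
def c19036 : PP 9 3 T 0x400000000040000020040000000000000000040004000200000000000000000000000000000000000000000000000000000000000000000000040000 := rS 0x168ae4fb855b01461159d037b0d1eaf3f7a48385b5886d2c9b2f05d0ef1089cc03ed4ec54429954acf671d719fcae41ac02cdbb4020e40e3707b2d42dff16c74398 (k8 c18346 c18539 c18992 c5236 c5580 c5578 c5464 c5369 (k8 c5435 c5432 c5317 c18909 c19032 c5529 c717 c5212 (k8 c5340 c5313 c18926 c15481 c5341 c18383 c5532 c5531 (k8 c5530 c5528 c5414 c5412 c18948 c53 c9719 c15516 (k8 c5811 c5373 c5433 c19034 c10735 c17795 c1073 c1333 (k8 c716 c5649 c18524 c19004 c333 c1998 c1637 c5657 (k8 c2195 c502 c19035 c17837 c2141 c2031 c1653 c1644 (k2 c5683 c3620 (k1 c1249 k0))))))))) (by decide +kernel)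
def c19037 : PP 9 3 T 0x400000000000000020000000000000000000000004000200000000000000000000000000000000000040000000000000040000000800000000000100 := rS 0xd0643c92a1a0ebf068673b95c660718a1cd6017898c09b155ecf69983ab14b25d (k8 c17796 c18352 c18348 c18354 c18346 c19032 c18383 c5413 (k8 c18992 c18909 c9754 c5811 c53 c5523 c5373 c5434 (k8 c5432 c5316 c5313 c18937 c10711 c3567 c17838 c332 (k4 c5649 c10191 c1076 c5678 (k2 c449 c2133 k0))))) (by decide +kernel)
def c19038 : PP 9 3 T 0x400000000040000020040000000000000000040004000200000000000000000000000000000000000000000000000000400000000000000000000000 := rS 0x68bc991ee4aabc34662d25c74600495c7207188dcc611d09cc03edd8aae2ab3d982cdbb456ac4dc1202314ca89 (k8 c18356 c18353 c18348 c18909 c19036 c318 c1146 c2817 (k8 c19032 c5529 c717 c18383 c5532 c5414 c5413 c18992 (k8 c18948 c53 c9719 c18539 c15516 c9754 c5435 c5434 (k8 c5432 c5317 c5313 c312 c5663 c18085 c1639 c19037 (k8 c715 c716 c17787 c1904 c5683 c5678 c18983 c4497 (k1 c449 k0)))))) (by decide +kernel)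
def c19039 : PP 9 3 T 0x400000000040000020040000000000000000040004000200000000000000000000000000000000000000000000000000000000000000000000000000 := rS 0x2bda845673d868f579a49fe1c2db81a21b4fa59365e5a9c4dc260937d42cb71f88ae390385c6e0f3580de3ed4ec54429954acf660b36ed0087fd8906b1a1 (k8 c18539 c5212 c5340 c18992 c18926 c18909 c19032 c5529 (k8 c717 c18383 c5532 c5531 c5530 c5528 c5414 c5412 (k8 c18948 c5811 c54 c5523 c5369 c5435 c5433 c5432 (k8 c5317 c5313 c5236 c15481 c5464 c5578 c5580 c19036 (k8 c317 c318 c2869 c1148 c19038 c10735 c17795 c1523 (k8 c1073 c1708 c3620 c716 c5649 c3013 c18524 c333 (k8 c1998 c1637 c5657 c502 c504 c1652 c2986 c10417 k0))))))) (by decide +kernel)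
def c19040 : PP 9 3 T 0x1400000000040000020000000000000000000040004000200000000000000000000000000000000000000000000000000000000000000000000000000 := rS 0x134cd30bd92cf57996c381b577bdaeb156f88dc260938c7409c9106b037079ed220d23a3c4a1100e87dbb14e88532a9d982cdbb4023151265 (k8 c18353 c18356 c18348 c18909 c19032 c5529 c717 c18383 (k8 c5531 c5530 c5528 c5412 c18992 c18948 c18539 c53 (k8 c15516 c12632 c5526 c13598 c5522 c5374 c5372 c5369 (k8 c5435 c5212 c5340 c19039 c5438 c17770 c1773 c17060 (k8 c317 c318 c19025 c2817 c1146 c5465 c17781 c5683 (k8 c1077 c2987 c716 c333 c1998 c19037 c5657 c1639 (k2 c17683 c17842 (k1 c1232 k0)))))))) (by decide +kernel)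
def c19041 : PP 9 3 T 0x400000000000000020040000000000000000000004000200000000000000000000000000000000000000000000000000440000000000000000000000 := rS 0x25c74600495c72071b98f620b36ed008c5 (k8 c18348 c18909 c19032 c5529 c717 c18992 c9754 c5435 (k8 c5432 c5317 c5313 c312 c5663 c18085 c1639 c19037 k0)) (by decide +kernel)
def c19042 : PP 9 3 T 0x400000000080000020040000000000000000040004000200000000000000000000000000000000000000000000000000040000000000000000000000 := rS 0x285c2df71b4e02ce1d231ec457abcc681c40a59365e4915d0fedd8a762a214caa567b3da27d96b520d602627088134398 (k8 c18346 c18539 c18909 c15516 c5570 c317 c12617 c5340 (k8 c5422 c5420 c5572 c19032 c18383 c5532 c5531 c5530 (k8 c5528 c5414 c5412 c18992 c18948 c5373 c5313 c18524 (k8 c19041 c10735 c17795 c1746 c1638 c1637 c333 c1998 (k8 c335 c5657 c17837 c501 c502 c2141 c2084 c1773 (k4 c2565 c1653 c1234 c3620 k0)))))) (by decide +kernel)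
def c19043 : PP 9 3 T 0x1400000000000000020040000000000000000040004000200000000000000000000000000000000000000000000000000000000000000000000000000 := rS 0x80c0da4ff7a3f5aa806633de7e33f9f4ecd16b8e8c0096417d2e9557bdc34662d15c723f0385c62371ea1c020331fb762ab8aaa567b3059b7689f58ad55a4320d602627db04409a1 (k8 c18539 c18909 c15516 c19040 c5570 c317 c12617 c5340 (k8 c5561 c5573 c5422 c5421 c5572 c19032 c5529 c717 (k8 c18383 c5532 c5531 c5414 c5413 c18992 c18948 c9754 (k8 c54 c53 c5373 c5436 c5435 c5434 c5433 c5432 (k8 c5318 c5317 c5313 c19042 c715 c716 c2101 c17787 (k8 c1904 c1073 c17795 c5678 c312 c5663 c18085 c4535 (k8 c4497 c2063 c18933 c17682 c19006 c449 c1647 c10798 (k8 c12613 c10426 c1076 c5657 c2507 c939 c18944 c1927 (k1 c3623 k0))))))))) (by decide +kernel)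
def c19044 : PP 9 3 T 0x1400000000000000020000000000000000000040004000200000000000000000000000000000000000000000000000000000000000000000000000000 := rS 0xe21d64883580989f6c37079ed220d238451fa1059b76804 (k8 c18909 c19032 c5529 c717 c18539 c5526 c15516 c13598 (k8 c5522 c5374 c5372 c5369 c5435 c19040 c5570 c317 (k4 c12617 c5340 c19043 c17770 (k2 c17060 c1773 k0)))) (by decide +kernel)
def c19045 : PP 9 3 T 0x400000000000000020000000000000000000040004000200000000000000000000000000000000000000000000000000000000000000000000000000 := rS 0x692c5adb17b26081df80ae390385c6e0f3d83763b3059b76804 (k8 c18909 c19032 c5529 c717 c18383 c18992 c5522 c5372 (k8 c5369 c5435 c5433 c5432 c5317 c5313 c19044 c5456 (k8 c17762 c18025 c312 c19039 c19042 c17795 c716 c1073 k0))) (by decide +kernel)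
def c19046 : PP 9 3 T 0x400000000000000020000000000000000000000004000200000000000000000000000000000000000000000000000000000000000000000000000000 := rS 0x92fa5c345a1dd2817b33688769b1f698c08571c81c2e37 (k8 c5435 c5433 c5432 c5317 c5313 c18909 c9754 c18948 (k8 c18992 c19032 c5528 c5529 c18383 c717 c19045 c5332 (k4 c18530 c716 c1073 c17795 (k2 c312 c18085 k0)))) (by decide +kernel)
def c19047 : PP 9 3 T 0x4000000000000044000100000000000000000000000000000000000000000000000000000000000000000000200000000000040000000000000020000010 := rS 0x56abcce72002c406118ed60d259 (k8 c18352 c18347 c5212 c5341 c9667 c263 c2177 c5642 (k4 c17749 c663 c1245 c2030 (k1 c5683 k0))) (by decide +kernel)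
def c19048 : PP 9 3 T 0x4004000000000046000100040000000000000000000000000200000000000000000000000000000000000080200100000040400000000000000000000010 := rS 0x1947c581fd5e72569c4c64114a4c4a69 (k8 c18347 c9666 c5444 c8199 c13854 c5395 c753 c2030 (k4 c18544 c1245 c806 c5683 (k2 c5670 c1333 (k1 c1547 k0)))) (by decide +kernel)
def c19049 : PP 9 3 T 0x100000000000000000000000000000000000000000000000000000000000000000080200080000000000000000000000000000000 := rS 0x35cd28b (k4 c18350 c18347 c9915 c808 k0) (by decide +kernel)
def c19050 : PP 9 3 T 0x42000000000000000000000000000000000200000000000000000000000000000000000000000020000000000000000000000000040001 := rS 0x72 (k2 c17876 c9719 k0) (by decide +kernel)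
def c19051 : PP 9 3 T 0x4004000000000046000100040000000000000000000000000200000000000000000000000000000000000080200100000000400000000000000010040010 := rS 0x9f0cc7f (k4 c19049 c19048 c5670 c664 (k1 c19050 k0)) (by decide +kernel)
def c19052 : PP 9 3 T 0x42000100000000000000000000000008000200000000000000000000000000000000000000000100000000400000000000000000040010 := rS 0x2b562266a32fc4d31e8a726332b81d269f12c752c1df7d61181122eccb61b1abc463982e9d4b2c5 (k8 c18348 c18352 c18354 c17796 c18346 c5434 c5323 c5324 (k8 c5475 c5474 c17756 c5326 c9667 c17837 c5212 c19004 (k8 c19047 c17904 c5341 c9666 c5448 c5444 c5432 c5313 (k8 c5316 c10897 c8199 c5436 c2084 c19051 c5464 c17803 (k4 c18620 c1333 c2890 c17388 k0))))) (by decide +kernel)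
def c19053 : PP 9 3 T 0x42000100000000000000000000000008000200000000000000000000000000000000000000000000000000400000000000000000040010 := rS 0x272332b15ed23b2c412d5f1a00fe960efbd18571981c62457896d43b31a86eb011208a526253ab14b398 (k8 c18346 c18352 c18348 c18354 c9666 c5444 c8199 c13854 (k8 c9667 c5212 c5475 c5324 c17756 c5398 c5474 c5323 (k8 c5326 c5434 c5432 c5316 c5313 c17837 c19004 c19047 (k8 c17904 c19049 c19052 c5463 c1658 c1744 c1334 c10693 (k4 c10702 c2940 c5683 c2030 (k2 c2031 c664 (k1 c9719 k0))))))) (by decide +kernel)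
def c19054 : PP 9 3 T 0x44000000000000000000000200000008000200000000000000000000440000000040000040000000000000000000010000000020000000 := rS 0x56fbc663f1e915631d (k8 c5341 c2177 c5326 c5436 c5318 c5316 c17860 c18709 (k1 c5683 k0)) (by decide +kernel)
def c19055 : PP 9 3 T 0x42000100000000000000000000000008000200000000000000000000000000000000000040000000000000400000000000000000000010 := rS 0xf7a31007df1b49ae765799ce40001871e3932d8ccae071898d92614aecc6a1bac044822949894fe121fa24ea65629a4b25d (k8 c17796 c18352 c18347 c18348 c18353 c18354 c18356 c5318 (k8 c19053 c2917 c9666 c5444 c8199 c13854 c9667 c5212 (k8 c5475 c5324 c17756 c5446 c5445 c5396 c5395 c5434 (k8 c5432 c5313 c5316 c5474 c10897 c5323 c17904 c263 (k8 c5642 c17749 c663 c1245 c3597 c2188 c19054 c5579 (k4 c2827 c5670 c938 c5505 (k1 c19047 k0))))))) (by decide +kernel)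
def c19056 : PP 9 3 T 0x4400000000042000100000000000000000000000008000200000000000000000000000000000000000000000100000000400000000000000000000010 := rS 0x562bd62d4f79c9aecb699c4f83dc996c6657038c53fb31a86c822949894fe121fa58d2892e9d4b2c5 (k8 c18348 c18352 c18354 c17796 c18356 c18347 c19055 c5318 (k8 c19053 c2917 c9666 c5444 c8199 c13854 c5475 c5324 (k8 c17756 c5448 c5434 c5432 c5313 c5316 c5474 c10897 (k8 c5436 c5670 c2870 c2827 c1547 c4180 c18544 c17860 (k4 c5689 c1333 c1245 c5683 (k1 c2890 k0)))))) (by decide +kernel)
def c19057 : PP 9 3 T 0x42000100000000000000000000000008000200000000000000000000000000000000000080000200000000000000000000000000000010 := rS 0x9c8ccac57877ded2461d962096a95c66072da8766350d9045293129d58a59 (k8 c18352 c18348 c18354 c9666 c5444 c8199 c13854 c5475 (k8 c5324 c17756 c5398 c5474 c5432 c5316 c5313 c1658 (k8 c1744 c1334 c10693 c938 c939 c5505 c19047 c2940 (k4 c5683 c2030 c2031 c664 (k1 c9719 k0))))) (by decide +kernel)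
def c19058 : PP 9 3 T 0x400000000042000100000000000000000000000008000200000000000000000000000000000000000000000000000000400000000000000000000010 := rS 0x56ac44cd469b2fc4814b0cc7a2949a7f66350d8963b58 (k8 c5212 c5341 c9666 c5475 c5324 c17756 c5448 c5444 (k8 c8199 c5436 c5316 c19055 c19057 c19056 c5464 c5579 (k4 c17803 c18620 c1333 c2890 (k1 c17388 k0)))) (by decide +kernel)
def c19059 : PP 9 3 T 0x100000000000000000000000000000000000000000000000000400000000000000000000080000000040000104000000000010000 := rS 0x2342798 (k4 c18346 c2917 c808 c17837 k0) (by decide +kernel)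
def c19060 : PP 9 3 T 0x400000000042000100000000000000000000000008000200000000000000000000000000000000000000000000000000000000000000000000000010 := rS 0x15ab113351a6cbf11fdaeaf382052c7d0e808e6012f474821112d607e171e8a48af1c996c6657038c5269fd98d4368b2c974eac5 (k8 c18348 c18354 c17796 c18352 c18350 c5475 c5324 c17756 (k8 c5448 c5444 c5434 c5432 c5313 c5316 c5474 c10897 (k8 c5323 c5326 c8199 c5436 c5433 c5318 c5212 c9666 (k8 c9667 c13854 c5341 c19058 c1054 c9719 c5642 c263 (k8 c17814 c17904 c19057 c18544 c2988 c1768 c19059 c5670 (k4 c5464 c5579 c17803 c18416 (k2 c1333 c2890 (k1 c17388 k0)))))))) (by decide +kernel)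
def c19061 : PP 9 3 T 0x80004000000000002000100040000000000000000040000000200001000000000000100000000001400000000400140050000000000410000000400000000 := rS 0x1d081be9c3e05d26e3 (k8 c5549 c5444 c5433 c5670 c18965 c2829 c5855 c17862 (k1 c340 k0)) (by decide +kernel)
def c19062 : PP 9 3 T 0x1000000000280001100000000000000000100000000000200005000000000400080008000040000154004000000000000000000000000400000000000 := rS 0xe7faba5d4b8f2c6ddbf6b3add4ebf0caf59785 (k8 c5423 c5420 c5575 c5315 c5431 c5428 c5616 c17864 (k8 c5223 c5639 c5599 c7591 c7323 c3622 c2676 c5632 (k2 c3436 c5932 k0))) (by decide +kernel)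
def c19063 : PP 9 3 T 0x80001000000000080001120000000000000000100000000000200001000000000400080008000040000154004000000008000000001400000000200000002 := rS 0x8d9549f8c5cdf303772993457ab91946cdb988a3c5f17 (k8 c5593 c9707 c5526 c5371 c19062 c5213 c5350 c5351 (k8 c5600 c5601 c5604 c5605 c669 c1062 c5667 c1299 (k4 c1370 c347 c12612 c2857 (k1 c17995 k0)))) (by decide +kernel)
def c19064 : PP 9 3 T 0x81001400000000090000020000000000000000100000000000210401000000000000080090000000008154004000000008000000001400000000220000802 := rS 0x9a4f5b8b77051fad9f17a477bf99d0966e868e5bd7d2e75138cc5fdebb7d964baf9 (k8 c18351 c17796 c18352 c18357 c4761 c18955 c5593 c5551 (k8 c5547 c19046 c18477 c5479 c5474 c5327 c18539 c4454 (k8 c4581 c5688 c2564 c5022 c19063 c5390 c9962 c18966 (k4 c2647 c5232 c5612 c5616 (k2 c346 c2424 (k1 c5661 k0)))))) (by decide +kernel)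
def c19065 : PP 9 3 T 0x400000000002000020000000000000000000000000000210000000000000000080080040000000001040000000008000000001000000000000010810 := rS 0xa87f2adfa1f101b00e7b8fa4d469f52a853699d9acda2763396cc6c94a9850f1511c0debed8e84bc3f2ac866964b0691d1fb6d0ed4be0001870363578ce862173cc450a5934b14ca75 (k8 c18354 c18353 c18348 c18347 c18352 c18349 c5371 c5524 (k8 c5433 c5434 c19046 c5323 c5324 c5475 c17904 c263 (k8 c5642 c1054 c15975 c18539 c19060 c5526 c13598 c5522 (k8 c12638 c18477 c5315 c17758 c5660 c7694 c12617 c299 (k8 c17748 c5477 c7820 c9731 c6578 c5373 c5445 c5446 (k8 c5396 c5395 c5474 c663 c3597 c2131 c5574 c17756 (k8 c5447 c5397 c5398 c5399 c5448 c5449 c5444 c9713 (k8 c5372 c5432 c10253 c10500 c2316 c2552 c19064 c13796 (k2 c5682 c2452 k0))))))))) (by decide +kernel)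
def c19066 : PP 9 3 T 0x400000000002000020000000000000000000000000000210000000000000000080080040000000000040000000008000000001000000000000010810 := rS 0x1feab678803e9c8fa4d469f52a8766d13b19cb66364a54c2878a88e06f5f6c7425e1f9564334b258348e8fdb6876a5f0000c381b1abc674310b9e6225934b14ca75 (k8 c18354 c18353 c18348 c18347 c18352 c5371 c5524 c5433 (k8 c5434 c19046 c5323 c5324 c5475 c17904 c263 c5642 (k8 c1054 c15975 c18539 c19060 c5526 c13598 c5522 c12638 (k8 c18477 c5315 c17758 c5660 c7694 c12617 c299 c17748 (k8 c5477 c7820 c9731 c6578 c5373 c5445 c5446 c5396 (k8 c5395 c5474 c663 c3597 c2131 c17756 c5398 c5399 (k8 c5448 c5449 c5444 c9713 c19065 c1082 c5855 c1650 (k2 c19064 c2943 (k1 c13796 k0))))))))) (by decide +kernel)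
def c19067 : PP 9 3 T 0x80000000000000002000000000000000000000000040000000200001000000000000140000400001400000000000000000000000000410000000400000000 := rS 0x429c1d05d26e3 (k4 c5549 c5444 c5433 c17862 (k2 c6118 c340 (k1 c5855 k0))) (by decide +kernel)
def c19068 : PP 9 3 T 0x4400000000002000020000000000000000000000000000200000000000000000000000000000000000040000000000000000000010000000000010010 := rS 0x668e9ec0b6f31da409407b6271570fca4a6e2489072371e83cf67979bd697931995c0e7159b2ce6b511b44ec672d98d925f0000c381b1abc462174a9850e4b0691d1e7f1fc742559db4e833a142965065d34b14ca75 (k8 c18354 c18353 c18348 c18347 c17796 c18355 c18352 c18349 (k8 c18539 c5315 c19046 c19060 c17758 c12617 c299 c5318 (k8 c2917 c5526 c13598 c5522 c12638 c5373 c5445 c5446 (k8 c5433 c5434 c5323 c5324 c5475 c17904 c263 c5642 (k8 c1054 c5396 c5395 c5474 c663 c3597 c2131 c9731 (k8 c5422 c5419 c5420 c5574 c5571 c5432 c5313 c5316 (k8 c10897 c18477 c5477 c5325 c5524 c5372 c5369 c5436 (k8 c5435 c5317 c17815 c10629 c12972 c5012 c5660 c6188 (k8 c6578 c5547 c17748 c19061 c1744 c939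 c940 c19067 (k4 c19066 c3571 c3568 c2071 (k1 c6899 k0))))))))))) (by decide +kernel)
def c19069 : PP 9 3 T 0x1005400000000002000000000000000000000000000008000000101000050000000540510400001400000040000000000000000001400004000000000000 := rS 0x66b3dec9c (k4 c6118 c11547 c1650 c2071 (k1 c5688 k0)) (by decide +kernel)
def c19070 : PP 9 3 T 0x80001400000000000000000000000000000000000000008000000100000000000000000094000000000000000000000000000000000400400000000000000 := rS 0x7bbfd99ed (k4 c17748 c5688 c2943 c2072 (k1 c17808 k0)) (by decide +kernel)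
def c19071 : PP 9 3 T 0x80001000000000080001100000000000000000100000000000200001100000000400080008000040000154004000000002000000001400000000000080002 := rS 0x11b2a93d6d275cdf303772993457ab91946cdb9598be2e20 (k8 c666 c5593 c9707 c5574 c19062 c5213 c5350 c5351 (k8 c5600 c5601 c5604 c5605 c669 c1062 c5667 c1299 (k4 c3944 c984 c347 c304 (k2 c2469 c17995 k0)))) (by decide +kernel)
def c19072 : PP 9 3 T 0x4400000000082000020000000000000000000000000000200400000000000400000000000000000000040000000000000000004420400001000080802 := rS 0x1349eb716ee0a3f5b3e2f49097f339bcbb106d4d9e1f6c5e32e389c0e2bf2248ce229135a3f43477aebe969351a7d4aa138acd96735ad6432d16b9fc7ed58eb85a525f7c0518803b19cb73a31b24be174a9850e6f7d964baf934b14ca75 (k8 c18354 c18353 c18348 c18347 c18351 c17796 c18352 c18357 (k8 c1060 c5373 c5445 c5446 c5433 c1054 c5396 c5395 (k8 c19046 c5474 c663 c3597 c298 c938 c2141 c5505 (k8 c3968 c939 c1715 c299 c1657 c5318 c2917 c2188 (k8 c2131 c5315 c17758 c5422 c5419 c5420 c5574 c5571 (k8 c5398 c5399 c5448 c5449 c5444 c18477 c5479 c5477 (k8 c5327 c18539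 c5526 c5523 c5374 c5371 c5316 c511 (k8 c5660 c7822 c7820 c5547 c5549 c5551 c5593 c17748 (k8 c7694 c17922 c18007 c666 c4761 c19069 c19070 c2564 (k8 c4780 c19071 c5390 c9962 c18966 c2647 c5232 c5612 (k4 c5616 c346 c2424 c5661 k0))))))))))) (by decide +kernel)
def c19073 : PP 9 3 T 0x20000000000000000100040000000200000000000000000000000000001400000500000200054004000004400000000100000002 := rS 0x37890c6f9a74da3f03c44f60d3c88cbe17 (k8 c5433 c1054 c9731 c5524 c5522 c5372 c5371 c5432 (k8 c5318 c666 c5855 c17922 c10253 c5660 c941 c2946 k0)) (by decide +kernel)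
def c19074 : PP 9 3 T 0x4400000000082000020000000000000000000000000000200400000000000400000000000000000000040000000000000000004420000001000080002 := rS 0x6c05fc87649101be973a4998d369938acc4e735ad643280 (k8 c298 c5315 c17758 c5422 c5419 c5570 c5574 c5571 (k8 c5447 c5397 c5395 c5444 c19046 c18477 c1060 c19073 (k4 c344 c340 c5660 c19072 (k2 c17922 c665 k0)))) (by decide +kernel)
def c19075 : PP 9 3 T 0x4400000000002000020000000000000000000000000000200000000000000000000000000000000000040000000000000000000000000000000010010 := rS 0x19c9c669b5ec0b6f31fc3ed71c4e0715f91b8922480c95a48c77a01c2086a901af1d3f8488e4b198fc1f113d834d67947bcdeb4b8facd96b5acedb421911b44ec672d98d925f0000c381b1abc674310ba54c28742965065d34b14ca75 (k8 c18354 c18353 c18348 c18347 c17796 c18355 c18352 c18349 (k8 c5373 c5445 c5446 c5433 c5434 c19046 c5323 c5324 (k8 c5475 c17904 c263 c5642 c1054 c5396 c5395 c5474 (k8 c663 c3597 c2131 c9731 c5315 c18539 c19060 c17758 (k8 c5422 c5420 c5574 c9713 c18477 c5477 c5325 c5526 (k8 c5524 c5523 c5522 c5372 c5371 c5369 c5318 c5316 (k8 c12638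 c13598 c12617 c2917 c299 c2188 c19068 c1657 (k8 c12636 c1715 c298 c4344 c938 c939 c3968 c2141 (k8 c19074 c10629 c12972 c5660 c6578 c7820 c5547 c5549 (k8 c17748 c7694 c940 c19069 c19066 c3571 c665 c2071 (k2 c17977 c5688 (k1 c1650 k0)))))))))))) (by decide +kernel)
def c19076 : PP 9 3 T 0x4400000000002000020000000000000000000000000000200000000000000000000000000000000000040000000000000000000000000000000000010 := rS 0x34fded5571f91a6f409f4203dc98ccae07509c4e6b156edb42763396cc6c92f800061c0d8d5e33a1885d2a6145a24d26562964ea5d (k8 c17796 c18354 c18352 c18348 c18353 c18347 c18356 c18350 (k8 c5445 c5446 c5433 c5434 c19046 c5323 c5324 c5475 (k8 c17904 c263 c5642 c1054 c5396 c5395 c5474 c663 (k8 c3597 c18539 c19060 c5573 c5421 c5419 c5571 c5398 (k8 c5432 c5313 c5316 c10897 c5436 c19075 c2747 c699 (k8 c2746 c701 c5670 c3602 c2998 c5584 c2940 c10131 k0)))))) (by decide +kernel)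
def c19077 : PP 9 3 T 0x400000000002000020000000000000000100000000000200000000000000000040000400001400000000000000000000000001010000000400010000 := rS 0x455c3f22392c7a0d47e86973a (k8 c19046 c18477 c18539 c5526 c5522 c5436 c12638 c13598 (k4 c5660 c6188 c6578 c19067 k0)) (by decide +kernel)
def c19078 : PP 9 3 T 0x400000000002000020000000000000000000000000000200000000000000000000000000000000000040000000000000000000000000000000000010 := rS 0x6f3e84092df71907c45f11800061c1f85c62371e8a5e2350da7d66cb13ad6b3b69d6843259 (k8 c18352 c5315 c18539 c19046 c19060 c17758 c5422 c5570 (k8 c5420 c5574 c5448 c5475 c5324 c5323 c8199 c5436 (k8 c5435 c5434 c5433 c5318 c17904 c263 c5642 c9731 (k8 c1054 c19076 c5462 c5466 c5580 c18013 c19077 c2747 (k2 c2746 c13779 k0))))) (by decide +kernel)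
def c19079 : PP 9 3 T 0x400000000090000020000000000000000100000000000210401000000000400080008000000000154004000000000000000001000000000200010802 := rS 0x2693d6e2ddc147eb67c5e91766c88d1cb7af0978627198bfbfe54b9d12c1a4747e85fd097d964baf9 (k8 c18351 c17796 c18352 c18357 c4780 c2564 c18539 c5526 (k8 c13598 c5522 c12638 c19046 c18477 c5660 c18955 c5593 (k8 c5551 c5547 c5538 c12617 c5479 c5474 c5327 c5371 (k8 c2416 c4761 c19071 c5390 c9962 c18966 c2647 c5232 (k4 c5612 c5616 c346 c2424 (k1 c5661 k0)))))) (by decide +kernel)
def c19080 : PP 9 3 T 0x2000020000000000000000000040000000200000000000000000000000040000000000000000000000000000000000000000500000002 := rS 0x13a070bc44f60d3c98d3699 (k8 c5447 c5397 c5395 c5524 c5522 c5372 c5371 c5433 (k2 c5432 c5855 (k1 c10500 k0))) (by decide +kernel)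
def c19081 : PP 9 3 T 0x400000000090000020000000000000000100000000000210401000000040000080080000000000154004000000000000000001000000000200010002 := rS 0x3b9fc0a07a1de65b7ab3877e18e849a301f952c960d23a3f433a42965065d (k8 c17796 c18355 c18352 c18349 c19046 c18539 c5526 c13598 (k8 c5522 c12638 c18477 c5660 c5592 c2135 c12617 c299 (k8 c5538 c340 c19070 c5477 c5474 c5325 c5373 c5369 (k4 c3571 c17808 c19079 c5022 k0)))) (by decide +kernel)
def c19082 : PP 9 3 T 0x400000000082000020000000000000000000000000000200400000000000000000400000000000000000000000000000000000010000000000010000 := rS 0xe02954f61d881a3b5690258e80f7fb60313f0f8cbf1570fc9bd253708c0049120e42e371e83e227b3cd2f26332b81c6a3149a8d3ea5509c566cb39ad4960d23a3cfe5b22ce87f1d0956433a162964ba75 (k8 c18354 c17796 c18352 c18348 c18539 c5315 c17758 c12617 (k8 c299 c5318 c19046 c5326 c5474 c19059 c5526 c13598 (k8 c5522 c12638 c5422 c5419 c5420 c5574 c5571 c5398 (k8 c5399 c5448 c5449 c5444 c5434 c5324 c5432 c5313 (k8 c5316 c10897 c18477 c5524 c5372 c5371 c5369 c5436 (k8 c5435 c5433 c5317 c17815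 c10629 c12632 c1263 c12972 (k8 c5012 c19077 c5660 c6188 c6578 c1054 c5580 c5538 (k8 c5547 c5592 c17748 c18955 c19061 c940 c1744 c13318 (k8 c15975 c2135 c19080 c340 c19081 c343 c3568 c342 (k1 c19064 k0)))))))))) (by decide +kernel)
def c19083 : PP 9 3 T 0x20000000000000000100040000000200000000000000000000000000001400000500000200050004000006420000000000000002 := rS 0x37887e60d (k4 c5522 c5588 c3692 c18580 (k1 c19073 k0)) (by decide +kernel)
def c19084 : PP 9 3 T 0x1000000000280001100000000000000000100000000000200005000000000400040000000040000156004000000000000000000000000400000000000 := rS 0xe772fd5d4b8f2bb7ece9b3add4ebf0caf59785 (k8 c5423 c5420 c5575 c5315 c5431 c5428 c5616 c17864 (k8 c1826 c5223 c5639 c7591 c7323 c3622 c5632 c3348 (k2 c3437 c5692 k0))) (by decide +kernel)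
def c19085 : PP 9 3 T 0x1000000000080001100000000000000000100000000000200015100000000400040000000040000156004000000002000000005400000000200080002 := rS 0x46caa4f5b49d737cc0ddca64d15eae4651b36e5662f (k8 c9707 c5574 c19084 c5213 c5350 c5351 c5600 c5601 (k8 c5604 c5605 c669 c1062 c5667 c1299 c3944 c984 (k4 c347 c304 c2469 c3596 k0))) (by decide +kernel)
def c19086 : PP 9 3 T 0x400000000082000020000000000000000000000000000200400000000000400000080000040000002000000200000000000001000000001000010002 := rS 0x2693d6e2ddc7d61e51b3e36ff8bd237e4a7605230d909378728faf51a7d4a715989ce6b15aab4ce5b8ac662fef57a8554ce1da4fc31d0934603b31a86dfa2011bcd33b563c4fe5590cd2e744b0691d1fa12fb2cf3117d964baf945a24d265 (k8 c18353 c18347 c18356 c18350 c18351 c17796 c18352 c18357 (k8 c5371 c5524 c5420 c1746 c18539 c5526 c13598 c5522 (k8 c12638 c19046 c18477 c5315 c17758 c5660 c5547 c940 (k8 c15975 c5447 c5325 c9731 c19080 c2550 c5475 c5324 (k8 c17756 c5592 c2135 c12617 c299 c7694 c5444 c340 (k8 c19070 c13265 c5398 c2940 c18955 c5593 c5551 c6578 (k8 c5474 c663 c5573 c5422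 c5421 c5419 c5570 c5574 (k8 c5571 c5399 c5448 c5449 c5479 c5327 c18443 c1060 (k8 c4581 c17922 c3602 c665 c2083 c3968 c19079 c19085 (k8 c5390 c5389 c5611 c9962 c2647 c2249 c18960 c5232 (k4 c5612 c5616 c346 c2424 (k1 c5661 k0)))))))))))) (by decide +kernel)
def c19087 : PP 9 3 T 0x1400000000090000020000000000000000100000000000210400001000000400040000000040000156004200000000000000005400000000200080802 := rS 0x2693d6e2ddc7d61e51b3e36ff8bd21b223a1a396f5f1511c4e3317f7fca973a7d964baf9 (k8 c18351 c17796 c18352 c18357 c19046 c18477 c5660 c18955 (k8 c5593 c5551 c5547 c9731 c6578 c5479 c5474 c5327 (k8 c18539 c5371 c2416 c19085 c5390 c5389 c5611 c9962 (k8 c2647 c2249 c18960 c5232 c5612 c5616 c346 c2424 (k1 c5661 k0))))) (by decide +kernel)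
def c19088 : PP 9 3 T 0x1000000000080001120000000000000000100000000000200015000000000400040000000040000156004000000008000000005400000000200000002 := rS 0x46caa4fc62e6f981bb94c9a2bd5c8ca366dcc451e2f (k8 c9707 c5526 c5371 c19084 c5213 c5350 c5351 c5600 (k8 c5601 c5604 c5605 c669 c1062 c5667 c1299 c1370 (k4 c347 c12612 c2857 c3596 k0))) (by decide +kernel)
def c19089 : PP 9 3 T 0x400000000082000020000000000000000000000000000200400000000000000040400000040000002000000000000000000000000000000000010002 := rS 0x7429f71f587d9f1b81bfea6fb8fc5e90da0b8487118f67fa1d23472debd469f52a85c31581bd5c7198bfb554ce1da4fc2d180ecc6a1b7e88046f3dab1e265f659e6226e92891a5eff978dab1d2491d1e4b06ad4e6b338a653663a5ce9de084010025590ce85f6592ebe7308b (k8 c18350 c18346 c18351 c17796 c18352 c18357 c18539 c5315 (k8 c17758 c12617 c19082 c298 c12636 c4344 c19046 c18477 (k8 c5395 c5397 c5447 c5571 c5574 c5419 c5422 c5522 (k8 c12638 c5526 c13598 c19083 c299 c1657 c5462 c5660 (k8 c18955 c5689 c19086 c5012 c12972 c5371 c5524 c5420 (k8 c1746 c5547 c940 c15975 c5325 c9731 c19080 c2550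 (k8 c5475 c5324 c17756 c5592 c2135 c7694 c5444 c340 (k8 c19070 c13265 c17748 c5593 c5551 c5549 c5477 c7820 (k8 c6578 c1715 c5398 c5399 c5448 c5449 c5479 c5474 (k8 c5327 c5374 c5373 c2942 c11547 c18056 c342 c4581 (k8 c19087 c665 c19088 c5390 c5608 c5387 c5388 c5389 (k8 c5607 c5611 c9962 c2249 c18960 c5232 c5428 c18829 (k1 c1826 k0))))))))))))) (by decide +kernel)
def c19090 : PP 9 3 T 0x400000000082000020000000000000000000000000000200400000000000000000000000000000000080000000000000000000000000000000010002 := rS 0xe853ee3eb67c0ea6fb8fc59b7480b84bf9bd2537091769c5533876fd688836ad263fbfc31780c662715f912447113cbce8e5bd7d2d26a34fa9542634da6766350dce8e2b339ad4960d23a3fc6d58ebbc105f40101ae12ac86742cb7d964baf9 (k8 c18351 c17796 c18352 c18357 c5420 c18539 c5315 c17758 (k8 c12617 c1767 c19082 c298 c1746 c12636 c4344 c299 (k8 c1657 c5462 c5526 c13598 c5522 c12638 c5422 c5419 (k8 c5574 c5571 c19046 c5475 c5324 c17756 c5447 c5397 (k8 c5395 c5398 c5399 c5448 c5449 c5444 c18477 c5479 (k8 c5474 c5327 c5325 c5524 c5371 c9731 c19083 c5660 (k8 c6578 c5547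 c5551 c5592 c5593 c7694 c18955 c940 (k8 c5689 c15975 c19080 c2135 c2550 c340 c19070 c13265 (k8 c1284 c4130 c19086 c12972 c5012 c19089 c2564 c4780 (k8 c19079 c19063 c665 c5390 c5608 c5387 c5388 c5607 (k4 c9962 c18966 c5232 c5428 (k2 c18829 c1826 k0)))))))))))) (by decide +kernel)
def c19091 : PP 9 3 T 0x400000000002000020000000000000000000000000000200000000000000000000000000000000000000000000000000000000000000000000010010 := rS 0xe89404010dc7c4fb69d6852c59 (k8 c18352 c19078 c18539 c19046 c19060 c5570 c9713 c5475 (k4 c19090 c5642 c12632 c263 (k1 c18443 k0))) (by decide +kernel)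
def c19092 : PP 9 3 T 0x400000000082000100000000000000000000000000000000000000000000000000400000000000000000000110000000040000000000000000420002 := rS 0x1aad3f79fbc6ae3799cbe035098ce27358ab4268d45964ca69 (k8 c18347 c18353 c18352 c18350 c701 c36 c5573 c5421 (k8 c5419 c5571 c5395 c5398 c28 c1054 c663 c1061 (k4 c14568 c13779 c18032 c5584 (k2 c2940 c2998 (k1 c5689 k0))))) (by decide +kernel)
def c19093 : PP 9 3 T 0x400000000022000000000000000000000000000008000200000000000000000000000000000000000000000000000000000000000000000150000000 := rS 0x3daf11abcc36f5 (k4 c5477 c5475 c5325 c5324 (k2 c5323 c17757 (k1 c18446 k0))) (by decide +kernel)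
def c19094 : PP 9 3 T 0x400000000002000020000000000000000000000000000200000000000000000000000000000000000000000000000000000000000000000000000010 := rS 0x2a99efe80b1a0713234509622daf88fe6e1207c3a21010051a81249f420d74b5644ecbdb28526190b8f50e91069ad1e29d090c36f5a5e4cb6332b81c6b3a18a1730832c974eac5 (k8 c18348 c18354 c17796 c18352 c18355 c18346 c18349 c5434 (k8 c19046 c5324 c5432 c5313 c5316 c5474 c10897 c18477 (k8 c5477 c5475 c5478 c18539 c8199 c5526 c5523 c5522 (k8 c5374 c5373 c5436 c5433 c5315 c5444 c5398 c19060 (k8 c5420 c5570 c17758 c19078 c1767 c19091 c2747 c3026 (k8 c699 c701 c19092 c5642 c265 c263 c1111 c18443 (k8 c1113 c2919 c5670 c19093 c6197 c560 c1262 c1263 (k8 c704 c7820 c18098 c2790 c18001 c2560 c3011 c1285 k0)))))))) (by decide +kernel)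
def c19095 : PP 9 3 T 0x4000000000000040000020000000000000000000000008000000000000000000000000000000000010000000000000080000000002000000000000000002 := rS 0x54bf560abd99b5fe2159a1cd6450dd2c46672dc5622af419a4ca85 (k8 c18349 c18353 c18347 c18355 c1245 c5371 c1290 c5474 (k8 c663 c9731 c18477 c5475 c5326 c5523 c5373 c2895 (k8 c345 c3006 c934 c13932 c7110 c5683 c1336 c2184 (k1 c3601 k0)))) (by decide +kernel)
def c19096 : PP 9 3 T 0x400000000041000020000000000000000000000000000200000000000000000000000000000000000000000000000000000000000000000200000002 := rS 0x6d7265b1995c0e359d0c44ba12e9d4b2c5 (k8 c18348 c18352 c18354 c17796 c18539 c9666 c5434 c19046 (k8 c5324 c5432 c5313 c5316 c5474 c10897 c5528 c18702 k0)) (by decide +kernel)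
def c19097 : PP 9 3 T 0x400000000041000020000000000000000000000000000200000000000000000000000000000000000000000000000000000000000000000000000002 := rS 0x38476ce66bf3daa968b220295582ad33b33688492ad4babcc4673908c6f11439ac374b0892c8ed771b7da91df7b4fc5932d95c0e35188f46641ac6847f3a419a4ca852e9d4b2c5 (k8 c18348 c18352 c18354 c17796 c18349 c18353 c18347 c18355 (k8 c19046 c5318 c18539 c5212 c5340 c5316 c5436 c5434 (k8 c5324 c5432 c5313 c5474 c10897 c5236 c5579 c17860 (k8 c5341 c17803 c5580 c5466 c5465 c5562 c5342 c9667 (k8 c18477 c5475 c5523 c5373 c5371 c5435 c9731 c17749 (k8 c663 c16365 c1245 c1229 c2891 c19095 c19096 c666 (k8 c13932 c7114 c7110 c5683 c2181 c2143 c5678 c2133 (k8 c2066 c17916 c3601 c2505 c1181 c6899 c1653 c17934 k0)))))))) (by decide +kernel)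
def c19098 : PP 9 3 T 0x1000400000000020000000000000000000000000000000000200100000080015000400010000000000000040000000000000000000000010000054000000 := rS 0x76cd7e33dee331c8c46ea9 (k8 c5531 c5435 c5434 c5317 c5316 c2195 c2633 c17991 (k2 c2505 c6899 (k1 c3587 k0))) (by decide +kernel)
def c19099 : PP 9 3 T 0x44000400000000040000020000000000000000000000000000200000000004000000400010000000010000040000000000000000000000000000400000008 := rS 0xaf58c0207edd9c5557b4788d5e61b7ad2e751dac684420d0e87cd659 (k8 c18352 c5523 c1111 c263 c5522 c265 c18539 c5212 (k8 c5341 c19046 c18477 c5477 c5475 c5325 c5324 c5323 (k8 c6197 c7110 c5414 c18383 c17757 c19098 c5694 c14602 (k2 c3070 c5683 k0)))) (by decide +kernel)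
def c19100 : PP 9 3 T 0x40000400000000050000020000000000000000000000000000200000000000000000000010000000000000400000000010000000000000000000000000010 := rS 0x1989864a77c2cf57183d86ed99ec8af150b523bef69f8b265b2b81c6a311e8cc8358d08fe74730100762652e9d4b2c5 (k8 c18348 c18352 c18354 c17796 c18353 c19094 c19097 c5642 (k8 c9719 c19046 c5318 c18539 c5212 c5340 c5316 c5436 (k8 c5434 c5324 c5432 c5313 c5474 c10897 c5236 c5579 (k8 c17860 c5341 c17803 c5578 c5323 c5326 c5372 c14312 (k8 c5666 c5201 c18741 c10417 c5543 c6290 c1696 c1182 (k2 c5679 c18428 (k1 c2441 k0))))))) (by decide +kernel)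
def c19101 : PP 9 3 T 0x2000000000000058000120000000000000000000000000000000000000000000000000000000001000000000000000020000000000000000000000000000 := rS 0x11867 (k2 c5487 c18609 (k1 c753 k0)) (by decide +kernel)
def c19102 : PP 9 3 T 0x51000120040000000000000000000000000000000400000000000000000000000000000400000000060004400000000000000000000000 := rS 0x3858e7d30207c46f (k8 c65 c5236 c5463 c5663 c2871 c727 c18663 c17854 k0) (by decide +kernel)
def c19103 : PP 9 3 T 0x400000000001000000040000000000000000000000000200000000000001000000000000000000000040000000000000800000000010000004000008 := rS 0x364611985c6265 (k4 c18353 c5434 c5433 c5316 (k2 c62 c17795 (k1 c14092 k0))) (by decide +kernel)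
def c19104 : PP 9 3 T 0x400000000040000020000000000000000000000000000200000000000000000000000000000000000040000000000000000002000000000000000010 := rS 0x899c16a9bda889a2fff9864524571fbda6411f9ccc6ad6a476b1e2d08f4be0200ec7265b1995c0e310d8d5e33a2e9d4b2c5 (k8 c18348 c18352 c18354 c17796 c19046 c5323 c5324 c5475 (k8 c5434 c5432 c5313 c5316 c5474 c10897 c19094 c19097 (k8 c5642 c19103 c5436 c18539 c5236 c5212 c5341 c17803 (k8 c2891 c9752 c9719 c5318 c5340 c5579 c17860 c5466 (k8 c5326 c8199 c5315 c5588 c3006 c1711 c19099 c5409 (k4 c1186 c1339 c19100 c756 (k1 c19102 k0))))))) (by decide +kernel)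
def c19105 : PP 9 3 T 0x40000100000000000000000000000000000000001000000000000000000000000400000000000000050400000001000000000500000008 := rS 0xb5139b852252591eb01f (k8 c1111 c5212 c5562 c5342 c9666 c8199 c5666 c268 (k2 c1148 c3584 k0)) (by decide +kernel)
def c19106 : PP 9 3 T 0x400000000041000020000000000000000000000000000200000000000000000000000000000000000040000000000000000001000000000400000008 := rS 0x7cdfed164255c1e15844cfaaf3831f66b336c5557b43d9e51f4b3fa05aee36ffbda6411f9cc02210687cd6ad6a476b1e2d08f4c05f0dbc7265b1995c0e359d0c4c68b2e9d4b2c5 (k8 c18348 c18352 c18354 c17796 c18350 c9752 c5434 c19046 (k8 c5324 c5432 c5313 c5316 c5474 c10897 c5323 c5475 (k8 c19103 c5663 c5436 c18539 c5236 c5212 c5341 c17803 (k8 c2891 c5523 c1111 c5522 c265 c19097 c9719 c5318 (k8 c5340 c5579 c17860 c5580 c5466 c5465 c5463 c18926 (k8 c18477 c5526 c5524 c5372 c6197 c7110 c5414 c5529 (k8 c5532 c18383 c726 c19105 c2988 c2871 c755 c5683 (k8 c13945 c5910 c2181 c5678 c2133 c3013 c17861 c19099 k0)))))))) (by decide +kernel)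
def c19107 : PP 9 3 T 0x400000000041000020000000000000000000000000000200000000000000000000000000000000000000000000010002000000000000000800000008 := rS 0x343d8cd67f85303a49020eec9571bb667b439e48af150b523b58f164cb657038d463a1198f6747300ed58e9b0cb150a833a964ca5d (k8 c17796 c18353 c18352 c18354 c18355 c18349 c18348 c5315 (k8 c1186 c727 c5409 c19097 c9719 c19046 c5436 c5316 (k8 c18539 c5434 c5324 c5432 c5313 c5474 c10897 c5236 (k8 c5212 c5341 c17803 c5578 c5323 c5326 c5524 c5373 (k8 c5372 c14312 c5666 c10417 c1182 c725 c10693 c1573 (k8 c481 c482 c5456 c1646 c2441 c5195 c3607 c5501 k0)))))) (by decide +kernel)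
def c19108 : PP 9 3 T 0x400000000040000020000000000000000000000000000200000000000000000000000000000000000040000000000000000000000000000000000010 := rS 0x448e0b54ded444493017c3229d0bc437932d8ccae071ace862733180803b12e9d4b2c5 (k8 c18348 c18352 c18354 c17796 c19094 c19097 c5642 c9752 (k8 c9719 c5434 c19046 c5324 c5432 c5313 c5316 c5474 (k8 c10897 c5475 c5323 c18539 c8199 c5315 c19103 c5663 (k8 c19104 c19106 c5409 c1186 c1339 c19107 c19102 c756 k0)))) (by decide +kernel)
def c19109 : PP 9 3 T 0x20000000000000000000000008000200000000004000000000200000000020000504100000020000000000000000000400000008 := rS 0x80c0e26cf549b4749dda06472171ba1d228f1ad2c420d0f9af3083 (k8 c18355 c18346 c5523 c1111 c5522 c265 c18477 c5324 (k8 c5526 c5374 c5373 c5435 c5433 c5317 c5315 c6197 (k8 c5855 c3578 c5529 c5531 c1646 c755 c2034 c3073 (k1 c18001 k0)))) (by decide +kernel)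
def c19110 : PP 9 3 T 0x400000000040000020000000000000000000000000000200000000000000000000000000000000000000000000000000000002000000000000000010 := rS 0xf62d76a227ffcc52456a475261d46a64f29b2f18c046b562bce06139807ded31e906b03fd9ac52ccbf16c7265b1995c0e359d0c7425d3a9658a8b (k8 c18350 c18348 c18352 c18354 c17796 c18539 c5434 c19046 (k8 c5324 c5432 c5313 c5316 c5474 c10897 c19094 c5236 (k8 c5464 c19108 c1333 c5404 c5318 c5212 c5340 c5436 (k8 c5579 c17860 c19097 c9719 c1639 c18741 c2988 c5683 (k8 c5523 c5642 c9752 c5663 c1119 c5524 c1520 c754 (k8 c263 c1638 c5341 c17803 c5326 c8199 c5588 c3006 (k4 c19109 c5409 c1339 c5201 (k1 c18732 k0)))))))) (by decide +kernel)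
def c19111 : PP 9 3 T 0x400000000040000020000000000000000000000000000200000000000000000000000000000000000000000000000000000000000000000000000010 := rS 0x2cdfdb4119244cac092bd3699469c0bcb14998766960f874c60239807ded469b2e3a41f15607e3d359e74245a5e4cb6332b81c6b3a18ec7308b62964ba75 (k8 c18354 c17796 c18352 c18348 c18350 c18346 c19094 c5434 (k8 c19046 c5324 c5432 c5313 c5316 c5474 c10897 c18477 (k8 c5326 c18539 c5524 c5523 c5436 c5318 c5212 c5236 (k8 c5340 c5341 c5464 c5579 c17803 c17860 c19097 c9719 (k8 c5642 c9752 c263 c1111 c19108 c5404 c1639 c1638 (k8 c1333 c5663 c18741 c754 c1520 c1119 c2988 c17783 (k8 c5683 c2868 c19110 c485 c6197 c19109 c5532 c2892 k0))))))) (by decide +kernel)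
def c19112 : PP 9 3 T 0x400000000091000120040000000000000000040000000000000000000010000040000000000000001100000000000000040002000000000404000010 := rS 0x1407c71f8d36e13ff822481f6eccde6233801526d01c543d11489acf28f38acd3ecb39ad44a2113994d285 (k8 c18349 c18347 c18353 c5570 c344 c10629 c5422 c5419 (k8 c5420 c5572 c5574 c5571 c5526 c5524 c5523 c5374 (k8 c5371 c5650 c17759 c1111 c2316 c2319 c5642 c663 (k8 c16365 c1060 c13932 c17916 c937 c3604 c5195 c15494 (k4 c5460 c5536 c6706 c17330 (k2 c5670 c3620 (k1 c2825 k0))))))) (by decide +kernel)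
def c19113 : PP 9 3 T 0x1000400000000080000000000000000000000000000008000200000000040000000000000000000000000020000000000000000002010000000000000000 := rS 0x6ab4c663f1ea7d5b1d7f91497f3 (k8 c5588 c192 c5326 c3006 c13569 c5573 c5572 c5436 (k4 c5318 c5316 c2018 c1589 (k1 c13568 k0))) (by decide +kernel)
def c19114 : PP 9 3 T 0x400000000020000020000000000000000000000000000200000000000000000000000000000000000040000000000000000002000000000000000012 := rS 0x2855de10ea69909571904fe128ec0d03ed7e188ce87359e453a1c996c6657038d463b139ad76df325895be3f08a45fe459d454daa9d9994d2852e9d4b2c5 (k8 c18348 c18352 c18354 c17796 c18349 c18347 c18353 c18383 (k8 c5531 c5529 c5414 c19046 c5326 c3006 c5374 c3026 (k8 c5318 c2946 c10629 c192 c5588 c19111 c5422 c5419 (k8 c19094 c5434 c5324 c5432 c5313 c5316 c5474 c10897 (k8 c18539 c8199 c5524 c5523 c5373 c663 c16365 c17965 (k8 c17916 c937 c2631 c13569 c19008 c2917 c298 c17330 (k8 c19113 c5678 c10429 c2061 c5536 c17885 c10309 c1182 k0))))))) (by decide +kernel)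
def c19115 : PP 9 3 T 0x400000000080000100000000000000000000000008000200100000000000000000100000000000000040000050000000000000010000001010000000 := rS 0x12d64034fdfe3570fc7a2922e4cb6332b81c6a31629d4b25d (k8 c17796 c18352 c18354 c18348 c5434 c5324 c5432 c5313 (k8 c5316 c5474 c10897 c5326 c8199 c5436 c5318 c17885 (k4 c13617 c5584 c2941 c5670 (k2 c5689 c1744 (k1 c10802 k0))))) (by decide +kernel)
def c19116 : PP 9 3 T 0x100000000000000000000000000000000200000000000000000000000000000000000000000000000000002000000000000000000 := rS 0x4eb259 (k4 c18352 c5341 c299 c17689 k0) (by decide +kernel)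
def c19117 : PP 9 3 T 0x400000000020000020000000000000000000000000000200000000000000000000000000000000000040000000000000000002000000000000000010 := rS 0x3f5ef0280fbd5ded0f874040154c54d62922bc5e61b7ace96bb612c774259 (k8 c18352 c18539 c19116 c10629 c19111 c5422 c19046 c5477 (k8 c5475 c5325 c5323 c5326 c8199 c5523 c5414 c5531 (k8 c19114 c5642 c263 c1111 c17757 c17885 c5584 c3070 (k4 c13257 c2195 c2631 c17991 k0)))) (by decide +kernel)
def c19118 : PP 9 3 T 0x400000000010000020000000000000000000000000000200000000000000000000000000000000000000000000000000000002000000000400000010 := rS 0x13a990b8df421b7ad2f265b1995c0e359d0c762df1f8844fb62e9d4b2c5 (k8 c18348 c18352 c18354 c17796 c19111 c5570 c344 c5318 (k8 c2946 c19094 c5434 c19046 c5324 c5432 c5313 c5316 (k8 c5474 c10897 c18477 c5477 c5475 c18539 c5435 c5433 (k2 c7114 c5855 (k1 c19112 k0))))) (by decide +kernel)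
def c19119 : PP 9 3 T 0x400000000000000020000000000000000000000000000200000000000000000000000000000000000040000000000000000002000000000000000010 := rS 0xd06b33fc6d566a50ef0164b4fdec7571803a63013f536011117f67b58ebfc4bf30c8f4f6873c8a7424578e4cb6332b81c6b3a18ec53ecb13edb30852c974eac5 (k8 c18348 c18354 c17796 c18352 c18349 c18346 c19111 c5570 (k8 c5420 c5572 c19094 c5434 c19046 c5324 c5432 c5313 (k8 c5316 c5474 c10897 c5323 c5326 c18539 c8199 c5524 (k8 c5373 c5372 c5436 c5315 c5588 c10629 c3006 c19116 (k8 c19117 c17706 c17795 c19118 c9731 c1186 c1237 c5642 (k8 c9752 c263 c5663 c17885 c727 c5584 c2941 c11003 (k8 c3071 c725 c5678 c18427 c1589 c13617 c8707 c5689 (k2 c18017 c9339 k0)))))))) (by decide +kernel)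
def c19120 : PP 9 3 T 0x4000400000000080000020000000000000000000000000000200100000004000000040100000000000000040000000000008000001000000001210000000 := rS 0x1a2d669b3fe6ae7b8c41e87068a742451abcdebe39d0cc7a4759a14b283 (k8 c18355 c18352 c18349 c5574 c2422 c5436 c5316 c19046 (k8 c13617 c5477 c5325 c5324 c5326 c18539 c8199 c5522 (k8 c5373 c5369 c5434 c342 c17885 c17808 c14132 c2941 (k2 c5689 c9339 (k1 c16068 k0))))) (by decide +kernel)
def c19121 : PP 9 3 T 0x4000400000000010000020000000000000000000000000000200100000004000000040100000000000000040000000000008000000000000001200000010 := rS 0x7b7c2cd67b58eed34a324385bd8ab493b3db78e74331e8ed3b1141b150a75 (k8 c18354 c18349 c18348 c18355 c5371 c1274 c341 c5436 (k8 c5316 c19046 c13617 c19111 c17706 c19119 c5573 c19094 (k8 c5474 c19120 c2061 c5678 c13297 c9916 c5689 c1770 (k4 c2192 c17944 c17385 c5195 k0)))) (by decide +kernel)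
def c19122 : PP 9 3 T 0x4004400000000015000000000000000000000000000000000000000000009000000040100000000500000040000000000000000000000000000000000000 := rS 0x9564b45acaaf034d53ed (k8 c5544 c2452 c2942 c5195 c5682 c5689 c5459 c2189 (k2 c2125 c5678 k0)) (by decide +kernel)
def c19123 : PP 9 3 T 0x400000000010000020000000000000000000000000000200100000004040000000100000000000000000000000000000000000000000002200000012 := rS 0xc9662bbd88df084130c6379b3e60a07a1c1ba179bd6967139ac55a0333ecc8eb3db0ed3a62c996c6657038d67431d8c46b28b2c994d28541974eac5 (k8 c18348 c18354 c17796 c18355 c18349 c18347 c18353 c18352 (k8 c18350 c5559 c5371 c19094 c5434 c19046 c5324 c5432 (k8 c5313 c5316 c5474 c10897 c16365 c1274 c341 c19111 (k8 c5574 c2422 c17706 c663 c28 c5573 c5421 c5419 (k8 c5571 c18477 c5477 c5325 c18539 c5522 c5373 c5369 (k8 c3571 c17808 c2416 c18580 c779 c780 c12972 c5535 (k4 c701 c5195 c14568 c17385 (k2 c1183 c2441 k0)))))))) (by decide +kernel)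
def c19124 : PP 9 3 T 0x400000000015000000000000000000000000000000000000000000000080000000000000000000000040000000000000000000000004000200000000 := rS 0x251a2c9f02a839ed (k8 c5498 c342 c343 c5195 c2061 c5459 c5678 c2125 k0) (by decide +kernel)
def c19125 : PP 9 3 T 0x400000000010000020000000000000000000000000000200100000000000000000100000000000000440000000000000000000000000000200000012 := rS 0x1ee8109599f37ffb3c2c636029ee3b2383d0e0d79bd767e31eb853edf4e98b265b1995c0e359d0c623b159ed90a5941974eac5 (k8 c18348 c18354 c17796 c18355 c18352 c18349 c19111 c5574 (k8 c19094 c5371 c5434 c19046 c5324 c5432 c5313 c5316 (k8 c5474 c10897 c16365 c1274 c13097 c5572 c13096 c5436 (k8 c13617 c17706 c5477 c5325 c5522 c5373 c5369 c2422 (k8 c341 c19124 c3571 c2416 c779 c5535 c5195 c5544 (k4 c17748 c17385 c19123 c8709 (k2 c19121 c5508 k0))))))) (by decide +kernel)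
def c19126 : PP 9 3 T 0x400000000010000020000000000000000000000000000200100000000000000000100000000000000440000000000000000000000000000000000012 := rS 0x679dd28fc66aa7c01e55a64da211ba1cd61b7ad2c46674e98b265b1995c0e359d0c7631141b150a7534994ba59 (k8 c18352 c17796 c18353 c18347 c18354 c18349 c18348 c18355 (k8 c5371 c19094 c5434 c19046 c5324 c5432 c5313 c5316 (k8 c5474 c10897 c16365 c1274 c663 c9731 c18477 c5477 (k8 c5475 c5523 c5373 c5435 c19125 c666 c7114 c7110 (k8 c5650 c5679 c2319 c5537 c3601 c10429 c9916 c1587 (k1 c17944 k0)))))) (by decide +kernel)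
def c19127 : PP 9 3 T 0x400000000010000020000000000000000000000000000200100000000000000000100000000000000040000000000000000000000000000000000012 := rS 0x2a7d81e36f8535b335bd697b1db1840e672dce8ca69 (k8 c18347 c18353 c19046 c5474 c663 c5432 c661 c19111 (k8 c19094 c18477 c5477 c5523 c17706 c19126 c5536 c2493 (k4 c7393 c5195 c2319 c17916 k0))) (by decide +kernel)
def c19128 : PP 9 3 T 0x400000000010000020000000000000000000000000000200000000000000000000100000000000000040000000000000000000000000000000000012 := rS 0x7b19be14c318d80a7b8ed9220576cc3e8d3784027598e03d0e0d35e85e6f5a59c5667358ad55bb60188cce9d3164cb6332b81c6b3a18ec622852ca0cba8b329a4eac5 (k8 c18348 c18354 c18347 c18353 c18350 c17796 c18355 c18352 (k8 c18349 c5371 c19094 c5434 c19046 c5324 c5432 c5313 (k8 c5316 c5474 c10897 c16365 c1274 c663 c9731 c28 (k8 c19111 c5573 c5422 c5421 c5419 c5574 c5571 c18477 (k8 c5477 c5325 c18539 c5523 c5522 c5373 c5369 c19127 (k8 c5341 c299 c12617 c1061 c701 c17974 c18613 c14568 (k8 c5650 c1183 c341 c19124 c3571 c2416 c779 c780 (k4 c5535 c2441 c5195 c17385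 k0)))))))) (by decide +kernel)
def c19129 : PP 9 3 T 0x400000000014000020000000000000000000000000000200000000000000000000000000000000000040000000000000000000000000000200000012 := rS 0x2855de246f8420cc2533da2df70bdc76474d8e46e0f43835e6f538acd62ad2480cce9d88905c67fd09e50262c996c6657038d6743139b212ad44fedb628b2c994d28541974eac5 (k8 c18348 c18354 c17796 c18355 c18349 c18347 c18353 c18352 (k8 c18350 c19094 c19111 c5572 c19128 c1589 c5678 c5419 (k8 c5434 c19046 c5324 c5432 c5313 c5316 c5474 c10897 (k8 c16365 c937 c5524 c18539 c2998 c17330 c1656 c5371 (k8 c1274 c663 c28 c19119 c5573 c5421 c5574 c5571 (k8 c5477 c5325 c5522 c5373 c5369 c5435 c5317 c2490 (k8 c2422 c341 c19124 c13096 c13097 c2134 c14132 c17934 (k8 c3587 c12638 c5537 c701 c15375 c14568 c5578 c1182 k0)))))))) (by decide +kernel)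
def c19130 : PP 9 3 T 0x400000000014000020000000000000000000000000000200000000000000000000000000000000000040000000000000000000000000000000000012 := rS 0xf026bdafc548795699368843ac8198de22873586e97b11199cb73a4ab513fb6329a50685 (k8 c18349 c18355 c18347 c18353 c19111 c5572 c19128 c1589 (k8 c19046 c5474 c663 c9731 c19094 c18477 c5475 c5523 (k8 c5373 c5371 c5435 c5316 c5678 c2061 c19129 c666 (k8 c7114 c7110 c5650 c2066 c10497 c17916 c10429 c5195 (k1 c5536 k0))))) (by decide +kernel)
def c19131 : PP 9 3 T 0x400000000010000020000000000000000000000000000200000000000000000000000000000000000040000000000000000000000000000000000012 := rS 0x44268c37c72b225d90a742430dd2f265b1995c0e359d0c76271139cd63b62c974eac5 (k8 c18348 c18354 c17796 c18352 c19111 c5421 c5419 c5570 (k8 c5571 c19094 c5434 c19046 c5324 c5432 c5313 c5316 (k8 c5474 c10897 c18477 c5475 c5478 c18539 c8199 c19130 (k8 c13900 c17807 c17883 c18599 c18613 c299 c701 c12617 k0)))) (by decide +kernel)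
def c19132 : PP 9 3 T 0x400000000010000020000000000000000000000000000200100000000000000000100000000000000040000000000000000000000000000000000010 := rS 0x1e1f6b359ff26b1ddff5969fbc80ae1291c2280f18f51e45589243a7d4fb2c4e297ebccffa16fa6c3e6ba5a74c0632f80803932d8ccae071886c6af13dec567b3db4e906c5429d4ba59 (k8 c18352 c17796 c18354 c18349 c18348 c18355 c19046 c19111 (k8 c17706 c5574 c19094 c5372 c5323 c5324 c5475 c5434 (k8 c5432 c5313 c5316 c5474 c10897 c19131 c5642 c19103 (k8 c9752 c5663 c1696 c18477 c5523 c1111 c7393 c13097 (k8 c18539 c17682 c5325 c13351 c8199 c5570 c5420 c5572 (k8 c18801 c263 c19119 c5421 c5326 c5526 c5436 c13617 (k8 c5670 c699 c13598 c12632 c17885 c19115 c5584 c2941 (k8 c5340 c19122 c10702 c5689 c13731 c1770 c2192 c17748 (k2 c17944 c5195 k0))))))))) (by decide +kernel)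
def c19133 : PP 9 3 T 0x400000000010000020000000000000000000000000000200100000000000000000000000000000000040000000000000000000000000000000000010 := rS 0x955e1164285c695f1205a9b33c916961d3ea7d9627db0a4fe603197c0401d8e4cb6332b81c621b1abc675a162974ea59 (k8 c18352 c18354 c17796 c18348 c18539 c19046 c5323 c5324 (k8 c5475 c5434 c5432 c5313 c5316 c5474 c10897 c19094 (k8 c19131 c5642 c19103 c9752 c5663 c17682 c8199 c19111 (k8 c5570 c5420 c5572 c18801 c263 c18477 c5326 c5524 (k8 c17706 c19132 c1658 c10426 c1589 c17330 c5578 c5678 (k4 c18298 c1182 c12632 c17885 k0)))))) (by decide +kernel)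
def c19134 : PP 9 3 T 0x400000000010000020000000000000000000000000000200000000000000000000000000000000000040000000000000000000000000000000000010 := rS 0x712042013acc70fe603e97cc602009e453a17886e97932d8ccae071ace863b14fb2c4fb62c974eac5 (k8 c18348 c18354 c17796 c18352 c19111 c5570 c5420 c5572 (k8 c19094 c5434 c19046 c5324 c5432 c5313 c5316 c5474 (k8 c10897 c18477 c5475 c5323 c18539 c8199 c5524 c19131 (k8 c5642 c9752 c19103 c18801 c5663 c17682 c19133 c5341 (k4 c299 c12617 c699 c18298 (k1 c17330 k0)))))) (by decide +kernel)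
def c19135 : PP 9 3 T 0x41000400000000000000020000000000000000000000000000200100000044000000040101000000010000120000100000000000000000000000000000000 := rS 0x1c07e6b9f5a040679dda63f48e87265b2b81c6a31f1ce8663d2e9d4b2c5 (k8 c18348 c18352 c18354 c17796 c5436 c5316 c19046 c13617 (k8 c5434 c5324 c5432 c5313 c5474 c10897 c18539 c5374 (k8 c5318 c2018 c9916 c1587 c13568 c18861 c12625 c9339 (k2 c5670 c8355 (k1 c3058 k0))))) (by decide +kernel)
def c19136 : PP 9 3 T 0x400000000000000020000000000000000000000000000200100000000000000000100000000000000040000000000000000000000000001000000012 := rS 0x15e1d64255befff9c48de91478a7424538acd5a99d9fb4da6b4098b26332b81c6a31d89cd9b037e19cb73a43aa768b5db214ca692e9d4b2c5 (k8 c18348 c18352 c18354 c17796 c18347 c18353 c18349 c19111 (k8 c5422 c19134 c5531 c5373 c19046 c5474 c663 c17965 (k8 c2631 c2505 c5419 c19094 c5434 c5324 c5432 c5313 (k8 c5316 c10897 c16365 c937 c5523 c5529 c17916 c18383 (k8 c5530 c5573 c5574 c5571 c5326 c18539 c8199 c5526 (k8 c5374 c1060 c18007 c17922 c2570 c2513 c19135 c5678 (k2 c2061 c1183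 (k1 c17885 k0)))))))) (by decide +kernel)
def c19137 : PP 9 3 T 0x80004400000000080000020000000000000000000000000000000000000000000000000140000000000000000000000001008000000000000000000000000 := rS 0x7c6b1bbde71599cd6a75 (k8 c18354 c5422 c5419 c5574 c5571 c18955 c17922 c5689 (k2 c1176 c1549 k0)) (by decide +kernel)
def c19138 : PP 9 3 T 0x4000000000a0000020000000000000000000000000000200100000000000000000101000000000000020000000000048000000000000000000000004 := rS 0x48801157a37ddf3f0b3ceed31f90c8a5b38ac55a99f69b5526b409cfc73a198f5165944974ca6941b150a75 (k8 c18354 c18349 c18348 c18355 c18347 c18353 c17796 c18356 (k8 c18352 c18350 c5436 c5316 c19046 c13617 c5419 c937 (k8 c5523 c5531 c5529 c17916 c5530 c5573 c5421 c5571 (k8 c5474 c5326 c5478 c5318 c2018 c9916 c1587 c17944 (k8 c19137 c5204 c5505 c5584 c14568 c17860 c12615 c298 k0))))) (by decide +kernel)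
def c19139 : PP 9 3 T 0x400000000000000020000000000000000000000000000200100000000000000000100000000000000040000000000000000000000000000000000012 := rS 0x7c9be41239f0246e25c4dc2c71db8fc2ce68a699095ac893c6391ea451f4b38acd6a4955ecc07ed369ad0262c98ccae071a8c76273db335f8672dce90ea9da214ca692e9d4b2c5 (k8 c18348 c18352 c18354 c17796 c18347 c18353 c18349 c19134 (k8 c5531 c5373 c19046 c5474 c663 c17965 c2505 c19111 (k8 c5419 c19094 c5434 c5324 c5432 c5313 c5316 c10897 (k8 c16365 c937 c5523 c5529 c17916 c28 c18383 c5413 (k8 c19119 c5422 c5574 c5571 c18477 c5526 c5374 c5436 (k8 c5317 c13617 c19136 c5559 c19138 c5678 c10429 c2133 (k8 c1181 c5536 c2621 c6899 c2560 c1652 c8617 c15375 (k8 c18007 c1061 c1176 c2810 c298 c2829 c5660 c17862 k0)))))))) (by decide +kernel)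
def c19140 : PP 9 3 T 0x5005400000000000000100040000000000000000000000000200000000000000000040000000000000000000400140000000000000010400000000000000 := rS 0x4608fc8f83d (k4 c5436 c5670 c5204 c2747 (k2 c19019 c13598 k0)) (by decide +kernel)
def c19141 : PP 9 3 T 0x400000000000000020000000000000000000000000000200100000000000000000000000000000000040000000000000000000000000000000000012 := rS 0x46040486f57a87c43bf0b443a9a6437d2a413ffbda88f14e848a714fac55aabd9fb4da6b4098b26332b81c6a31d89cf6ccd7e19cb73a43aa7688b449a4ca852e9d4b2c5 (k8 c18348 c18352 c18354 c17796 c18349 c18353 c18347 c18356 (k8 c18350 c19134 c5531 c5373 c19046 c5474 c663 c17965 (k8 c2505 c19111 c5419 c19094 c5434 c5324 c5432 c5313 (k8 c5316 c10897 c16365 c937 c5523 c5529 c17916 c18383 (k8 c5413 c5573 c5421 c5572 c5571 c5326 c18539 c8199 (k8 c5526 c19139 c5585 c2998 c1656 c1589 c3003 c5678 (k8 c10429 c2061 c2133 c5536 c6899 c19140 c5578 c1182 (k4 c1175 c17885 c12972 c3602 (k1 c701 k0))))))))) (by decide +kernel)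
def c19142 : PP 9 3 T 0x400000000000000020000000000000000000000000000200000000000000000000000000000000000040000000000000000000000000000000000012 := rS 0x803fd5df389234de1009d67df1c81fb5f86701a1d226b47e84b73a38acce6b15aab76d1536aa7688545964ca69 (k8 c18347 c18353 c18352 c18350 c18349 c19134 c5531 c5529 (k8 c5414 c19111 c5573 c5422 c5421 c5419 c5574 c5571 (k8 c19046 c5474 c18539 c5526 c5523 c5374 c5373 c28 (k8 c663 c17965 c17916 c2631 c19141 c5504 c5341 c299 (k8 c12617 c1061 c701 c18007 c17922 c14568 c2570 c5694 (k1 c3070 k0)))))) (by decide +kernel)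
def c19143 : PP 9 3 T 0x80000120000000000000000000000000000000001000000000000000000000000000000000000000000000000001000000000540010001 := rS 0x8e0d47acc4eb5 (k4 c5422 c5570 c5574 c5526 (k2 c5522 c13598 (k1 c18694 k0))) (by decide +kernel)
def c19144 : PP 9 3 T 0x400084000000000a1000000000000000000000100040000000000100000000015000400000000000000000450000000000000000001001000000054000000 := rS 0x11dec3b703f5669f65ad53b154caa542df (k8 c5580 c5578 c5531 c5530 c5414 c5412 c5422 c5420 (k8 c5572 c5574 c10429 c3620 c14079 c17991 c2789 c8188 k0)) (by decide +kernel)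
def c19145 : PP 9 3 T 0x1001400000000020000000000000000000000000000000000000000000001015000000010000000000000800000000000000000000000004000054000000 := rS 0x66b3deca9 (k4 c5531 c17991 c2562 c2071 (k1 c5688 k0)) (by decide +kernel)
def c19146 : PP 9 3 T 0x40008000000000081000000000000000000000000000000000204041000000000410000000000000000540000000000000000000008000400400000000000 := rS 0x73460a3f52a395864d27f90a7175f7dc723f608dc7bad4faf5978520bb542eb (k8 c5581 c5578 c5467 c5462 c5423 c5420 c5575 c5572 (k8 c5437 c5436 c5435 c5319 c5318 c5317 c17777 c3622 (k8 c3080 c2797 c6136 c567 c2597 c5468 c5622 c3592 (k4 c17827 c575 c5697 c3591 (k1 c3505 k0))))) (by decide +kernel)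
def c19147 : PP 9 3 T 0x45009000000000081000000000000000000000000000000000204041040020000410010008200014040440008000000000000000008000400000000000000 := rS 0x182f87de170d8bc1fe8bb73e1d7fe5526445ebdc2ac55aa1 (k8 c5578 c5573 c5421 c5423 c5575 c587 c2070 c19146 (k8 c5620 c1209 c1206 c3432 c1208 c5932 c5634 c5635 (k4 c2147 c3074 c7323 c17844 (k2 c3625 c5626 k0)))) (by decide +kernel)
def c19148 : PP 9 3 T 0x400011400000000021000120000000100000000100000008000000004000000040004200008000000000000000000000000000000018000000000040000000 := rS 0x59f4bb8f8fd1d24f11ae443b3 (k8 c18383 c5528 c5415 c5409 c567 c1831 c5932 c17801 (k4 c5197 c17761 c17890 c5223 k0)) (by decide +kernel)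
def c19149 : PP 9 3 T 0x5001000000000000000020040000000000000000000000000000000000050000000440008040000000000000000150000000000000000000000000000000 := rS 0x89b85fc7b3ca3fe685 (k8 c18349 c17861 c5526 c5524 c5372 c5694 c1653 c2570 (k1 c5910 k0)) (by decide +kernel)
def c19150 : PP 9 3 T 0x101009000000000080000020000000000000000000000008000200000000000040014000009040000000000000000000000000000040000000000000000000 := rS 0x317a4b3ee5cb79f20e46f7b (k8 c5375 c5435 c5317 c5932 c5619 c5622 c7813 c7451 (k2 c5213 c5390 (k1 c17938 k0))) (by decide +kernel)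
def c19151 : PP 9 3 T 0xa4000000000000000000000000000000000000044000002000108000018000000000000040000000000000000000000000000000000000 := rS 0xdce0f0f91f8c660d056d6156ab9 (k8 c5415 c5422 c5423 c1654 c3393 c1655 c3505 c5627 (k4 c3294 c1382 c3442 c17867 (k1 c5684 k0))) (by decide +kernel)
def c19152 : PP 9 3 T 0x10080000000000a0000020000000000000000000000008000200044041022040010000018040000000000040000000000000000008000000000000000000 := rS 0x82dffe10dfbc1d778bfa39c9e87bde2572b7d9bb7c3154cfbc823d19b4c7ecd7da1506f9 (k8 c18351 c18355 c18349 c18357 c2505 c5318 c5579 c5316 (k8 c5436 c5462 c17860 c5530 c5414 c6706 c5467 c18383 (k8 c5533 c5415 c5527 c5375 c5373 c567 c19151 c19150 (k8 c5553 c5554 c5634 c7323 c2147 c17844 c5511 c5628 (k1 c3614 k0))))) (by decide +kernel)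
def c19153 : PP 9 3 T 0x101009000000000084000020000000000000000000000008000200000001002040014010001240000000000000000000000000000000000400000000000000 := rS 0x1f0c8e0f0edadcb654b0561dbfc84e19b0463ad1ad1f5ece (k8 c1181 c5479 c5327 c5324 c5437 c5434 c5319 c5316 (k8 c19150 c5932 c523 c520 c3387 c5620 c5621 c7813 (k4 c3589 c1382 c1184 c2069 (k2 c5684 c5627 k0)))) (by decide +kernel)
def c19154 : PP 9 3 T 0x10080000000000a0000020000000000000000000000008000200000001062040400000200240000040000040000000000000000008000400000000000000 := rS 0x3070bc3e460d056d39a1abffac5a1ee95ee1562ad5cecfc3154cb4556cd8db75c0ce (k8 c1181 c3072 c4330 c5044 c2505 c5413 c2133 c5530 (k8 c5414 c6706 c18383 c5415 c5573 c5421 c5423 c5575 (k8 c1830 c3123 c19152 c5635 c3080 c3457 c19153 c1654 (k4 c3393 c1655 c3294 c1382 (k2 c3075 c3442 (k1 c3625 k0)))))) (by decide +kernel)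
def c19155 : PP 9 3 T 0x400000000000000020000000000000000000000000000200100000000000000000000000000000000040000000000000000000000000000000000010 := rS 0xbf7c21f2786fd62d2526afca78d85b9d47f7f2bb9baf72546dc0478042476a767335f89a3740c48d157b212ad4bd915e2f30dbd696abbefb43b5946b8cf2a1f0a67de411eb4c7ff36ff88fe810807cd6218a88c92c73017f666dda1f4c60200ec53f932d8ccae071ace862cb13ed853a17dbe5128b2e9d4b2c5 (k8 c18348 c18352 c18354 c17796 c18350 c18356 c18351 c18357 (k8 c18539 c8199 c19111 c5570 c5420 c5434 c19046 c5324 (k8 c5432 c5313 c5316 c5474 c10897 c5572 c19094 c19142 (k8 c5642 c9752 c18801 c19134 c5529 c18383 c17795 c5663 (k8 c726 c19119 c5409 c5414 c5528 c5523 c1111 c19143 (k8 c699 c17682 c5670 c5580 c17861 c5318 c5579 c5436 (k8 c5462 c17860 c5530 c6706 c5578 c5524 c17330 c701 (k8 c5558 c263 c17757 c9704 c5413 c18477 c5477 c5475 (k8 c5325 c5323 c5326 c5375 c17803 c1589 c5678 c11003 (k8 c2133 c17885 c19098 c1113 c19144 c19145 c2505 c1181 (k8 c4117 c6899 c4779 c19149 c4824 c3072 c5044 c5660 (k8 c8188 c4330 c19154 c5473 c5597 c1615 c1733 c3023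 (k8 c2854 c2798 c6136 c2597 c3096 c19148 c5635 c3457 (k4 c3450 c5008 c5205 c3615 (k1 c5511 k0))))))))))))))) (by decide +kernel)
def c19156 : PP 9 3 T 0x10014000000000a0000000000000000000000000000000000000000000001015000440110000000000010000000000000000000000000004000054000000 := rS 0xce7033536f659a7d96b54ec5532a9 (k8 c5531 c5530 c5414 c5412 c5422 c5420 c5572 c5574 (k4 c17991 c19145 c2071 c3620 (k2 c5688 c1652 k0))) (by decide +kernel)
def c19157 : PP 9 3 T 0x140001000000000000000000000000000000000100040000000204044000000000554540008000000000000000000000000000000040000400000000000000 := rS 0x26598a3f78c39587e41cb046fad (k8 c5437 c5435 c5319 c5317 c5932 c5468 c5622 c3630 (k4 c5641 c2638 c5174 c3591 (k1 c5604 k0))) (by decide +kernel)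
def c19158 : PP 9 3 T 0x400000000001000000000010000000000000000000000000000005022000020410040200100150010100000000000000000000000000000000000000 := rS 0x86e1e1f83c8afe33056da8fcaa7 (k8 c4117 c5472 c1613 c1671 c2585 c2643 c6136 c2070 (k4 c1185 c6775 c1382 c2148 (k1 c3625 k0))) (by decide +kernel)
def c19159 : PP 9 3 T 0x220000000000000000000020000000000000000000000000000000000001000000000000000000000000000000000000000000000000000000000000000000 := rS 0x416fe87bde2717077da1506f9 (k8 c18351 c18355 c18349 c18357 c5634 c5553 c5527 c5375 (k4 c5373 c5511 c5628 c3614 k0)) (by decide +kernel)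
def c19160 : PP 9 3 T 0x400000000000000020000000000000000000000000000200004000000000400000100000000000000040000000000000000000000000000000000010 := rS 0x596e268ac5f0e2a7c61bf7c3c1d7651fa3a5cf0b27d2d7b8558ab572b7acbb5d7f36e9995e3b66c25349523c8ded1b2540206b5f79047ad31fc7014e1673f1a287f0a6542e33cfb43af50dbcde2c83b2358e6d6ff8902100f9ac431511924fa9f6589f6c293f980c6020097f67b4d8e4cb6332b8d67431d081cba752cb15128b (k8 c18350 c18356 c18348 c18352 c18354 c17796 c5432 c18539 (k8 c5434 c19046 c5324 c5313 c5316 c5474 c10897 c19094 (k8 c19134 c18383 c17795 c19142 c5642 c9752 c5663 c17682 (k8 c8199 c19111 c5570 c5420 c5572 c18801 c19119 c5409 (k8 c5414 c5528 c5523 c1111 c19143 c699 c5670 c5580 (k8 c5529 c726 c701 c17987 c725 c5323 c5325 c5475 (k8 c5477 c263 c17757 c5524 c17330 c5578 c5530 c6706 (k8 c5373 c2131 c19156 c1181 c1652 c15103 c19155 c5318 (k8 c5579 c5436 c5462 c17860 c5422 c2631 c19149 c2140 (k8 c4784 c2139 c3805 c18078 c9916 c10429 c4779 c2505 (k8 c6899 c11003 c11141 c4570 c17861 c5581 c5467 c5558 (k8 c5533 c5415 c5573 c5421 c5423 c5575 c18477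 c567 (k8 c3074 c19151 c19158 c19157 c5552 c5554 c5634 c1381 (k8 c7323 c2147 c19159 c6245 c5696 c569 c3460 c3465 (k2 c2247 c3585 (k1 c361 k0)))))))))))))))) (by decide +kernel)
def c19161 : PP 9 3 T 0x100000000000000000000000000000000000000000000000000000000000000000000000000000000000000000200000000000000000800 := rS 0x6931567 (k4 c5350 c2647 c5213 c5390 k0) (by decide +kernel)
def c19162 : PP 9 3 T 0x141009000000000080000000000000000000000000000008000204000001000000015010008000000000000000000000000000000010400400000000000800 := rS 0x3e0dafbdbca64e28ee5b2c3f20e582311beb46b47d7bafde411e8cda63f (k8 c5318 c5579 c5316 c5436 c5462 c17860 c5581 c5479 (k8 c5327 c5324 c5437 c5435 c5434 c5319 c5317 c5932 (k8 c5468 c5621 c7813 c19161 c3591 c3413 c523 c17933 (k2 c3589 c5208 (k1 c5627 k0))))) (by decide +kernel)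
def c19163 : PP 9 3 T 0x400000000001000000000010000000000000000000000000000001022000020410040200100150010100000000000000000000000000000000000000 := rS 0x21505 (k2 c2585 c19158 (k1 c3075 k0)) (by decide +kernel)
def c19164 : PP 9 3 T 0x41009000000000080000000000000000000000000000008000204009001022000010010018000010040000040000000000000000001400400000000000800 := rS 0x18385e1f230682b69cd0f26b961abffaaf70ab156bae06b5 (k8 c5422 c2631 c5581 c5573 c5421 c5423 c5575 c5635 (k8 c3080 c3457 c3352 c3221 c3085 c19162 c1654 c3393 (k4 c1655 c3294 c1382 c3075 (k2 c3442 c3625 k0)))) (by decide +kernel)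
def c19165 : PP 9 3 T 0x400000000000000020000000000000000000000000000200000000000000000000100000000000000040000000000000000000000000000000000010 := rS 0x86fc60f0ffa36fefe57739e171774c6e46f6250288f0070c2476ce4d40d9afc57b7590664ab44ec8778bcc36f55ee1562b556ae7da1d46b8cf2ed50f8533ef208f5a63ff9b7fc47f408403e6b10c54464963980bfb336ed0fa6301007629fc996c6657038d674316589f6c29d0c718a8b3aa24ba59 (k8 c18352 c17796 c18356 c18354 c18350 c18348 c19155 c18539 (k8 c8199 c19111 c5570 c5420 c5434 c19046 c5324 c5432 (k8 c5313 c5316 c5474 c10897 c5572 c19094 c19142 c5642 (k8 c9752 c18801 c19134 c5529 c18383 c17795 c5663 c726 (k8 c19119 c5409 c5414 c5528 c5523 c1111 c19143 c699 (k8 c17682 c5670 c5580 c17861 c5318 c5579 c5436 c5462 (k8 c17860 c5530 c6706 c5578 c5467 c5524 c17330 c701 (k8 c263 c17757 c5415 c5573 c5422 c5421 c5423 c5575 (k8 c5477 c5475 c5325 c5323 c5373 c17987 c2131 c9916 (k8 c11141 c725 c4570 c11003 c19156 c2505 c2631 c10429 (k8 c1181 c6899 c4779 c1652 c19149 c18078 c15103 c2140 (k8 c2139 c3805 c4784 c19163 c19164 c3074 c19151 c19160 (k8 c5473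 c5597 c1672 c5932 c6775 c5634 c19159 c2147 (k1 c5696 k0)))))))))))))) (by decide +kernel)
def c19166 : PP 9 3 T 0x40028000000000081000000000000000000000000000000000204041000000000014000000000004000400008000000000000000048000400000100000000 := rS 0x16d9ca04d15a885fb972a95dec31cb046fad (k8 c5437 c5435 c5319 c5317 c5468 c5473 c5620 c5622 (k8 c7813 c586 c19146 c3193 c6191 c3591 c5350 c362 (k1 c5652 k0))) (by decide +kernel)
def c19167 : PP 9 3 T 0x400000000000000020000000000000000000000000000200004000001000004000000000000000000040000000000000000000000000000000000010 := rS 0x16934562fdc1521bf7f8c1d7651fa7970ab95bfcd8e6d23c8e131c8da9c10921d8dc2e191c93c943dacd2dd30b80381369d59b8cf2df5aa859ccd7b06d52f579bc7c3e2408404223249f59627149fcc0632fe87265b1995c0e3518c5533ed0ece83e02009ada2c84ab513fb6d9ec557b42c974eac5 (k8 c18348 c18354 c17796 c18352 c19134 c5413 c19094 c18383 (k8 c19111 c5572 c19165 c1589 c5678 c2133 c5523 c19142 (k8 c5642 c1111 c19046 c263 c17757 c5530 c5414 c5434 (k8 c5324 c5432 c5313 c5316 c5474 c10897 c18539 c17795 (k8 c9752 c5663 c17682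 c8199 c5570 c5420 c18801 c19119 (k8 c5409 c5528 c19143 c699 c5670 c6706 c5323 c5325 (k8 c5477 c5531 c5475 c17991 c2071 c5688 c5578 c5422 (k8 c5580 c5524 c17330 c5574 c5412 c19145 c3620 c1653 (k8 c3074 c1831 c18477 c5558 c5436 c6188 c567 c5317 (k8 c5315 c5433 c5435 c14079 c3578 c261 c4324 c5044 (k8 c19155 c4584 c3805 c2789 c5529 c726 c17861 c5533 (k8 c5415 c5423 c19166 c5932 c5552 c5554 c5634 c19159 (k8 c7323 c2147 c6245 c5197 c569 c3460 c3465 c5612 (k1 c3585 k0)))))))))))))) (by decide +kernel)
def c19168 : PP 9 3 T 0x400000000000000020000000000000000000000000000200004000001000000000000000000000000040000000000000000000000000000000000010 := rS 0x1b9c1e1f23f18cc1a0adafab9b0ab976c26391b80381369d59b8cf2df5aa859ccd7b06d52f579bc7c3e2408404223249f59627149fcc0632fe87265b1995c0e3518c5533ed0ece83e02009ada2c84aa7f6db3d8aaf68d42c974eac5 (k8 c18348 c18354 c17796 c18352 c19165 c19134 c5413 c19094 (k8 c18383 c19111 c5572 c1589 c5678 c2133 c5523 c19142 (k8 c5642 c1111 c19046 c263 c17757 c5530 c5414 c5434 (k8 c5324 c5432 c5313 c5316 c5474 c10897 c18539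 c17795 (k8 c9752 c5663 c17682 c8199 c5570 c5420 c18801 c19119 (k8 c5409 c5528 c19143 c699 c5670 c6706 c5323 c5325 (k8 c5477 c5531 c5475 c17991 c2071 c5688 c5578 c5422 (k8 c5580 c5524 c17330 c5574 c5412 c19145 c3620 c1653 (k8 c5044 c19155 c4584 c5467 c5415 c5423 c19167 c5633 (k8 c1654 c3393 c1655 c3505 c5627 c3294 c10670 c3442 (k2 c17867 c5684 k0))))))))))) (by decide +kernel)
def c19169 : PP 9 3 T 0x141009000000000081000000000000000000000000000008000204041001000000014010008000004000400008000000000000000008400400000100000000 := rS 0x3e0dafbdbca64e6cb0fc8c118eb46b47d7bafde411e8cda63f (k8 c5318 c5579 c5316 c5436 c5462 c17860 c5581 c5479 (k8 c5327 c5324 c5437 c5434 c5319 c5932 c5468 c5621 (k4 c19166 c3413 c523 c17933 (k2 c3589 c5208 (k1 c5627 k0))))) (by decide +kernel)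
def c19170 : PP 9 3 T 0x101001400000000000000000000000000000000000000000000050000050020000020210000000000000000000100010000000000000000000000000000000 := rS 0x5ff1b0bf83ba0be57dbe5128b (k8 c18350 c18356 c18351 c18357 c5472 c2585 c1830 c5205 (k4 c3075 c2854 c5511 c3615 k0)) (by decide +kernel)
def c19171 : PP 9 3 T 0x400000000000000020000000000000000000000000000200000000001000000000000000000000000040000000000000000000000000000000000010 := rS 0x61f23f1c1ee60ada51399dee987c9e1b25fac594e088dc264692801288ece1db8206cd6ea6dec660c8e42e3743a46f6f17986deb4b59ad53ab954adfda1daca35c67950f8533ef208f5a63ff9b7fc47f408403e6b10c544649639b4facb138a638af3018c0401c996c6657038d674312fe85a2c84ab513fb6d9ec557b4419950a692e9d4b2c5 (k8 c18348 c18352 c18354 c17796 c18347 c18349 c18353 c18355 (k8 c19134 c5413 c19094 c18383 c19111 c5572 c19165 c1589 (k8 c5678 c2133 c18539 c17795 c5434 c19046 c5324 c5432 (k8 c5313 c5316 c5474 c10897 c19142 c5642 c9752 c5663 (k8 c11003 c19155 c8199 c5570 c5420 c18801 c5529 c726 (k8 c19119 c5409 c5414 c5528 c5523 c1111 c19143 c699 (k8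 c17682 c5670 c5580 c17861 c5318 c5579 c5436 c5462 (k8 c17860 c5530 c6706 c5578 c5524 c17330 c701 c5558 (k8 c263 c17757 c5533 c5531 c5415 c5412 c5422 c5574 (k8 c18477 c5477 c5475 c5325 c5323 c5375 c5374 c5373 (k8 c5435 c5433 c5317 c5315 c18014 c17991 c19145 c4570 (k8 c2071 c2196 c3620 c14079 c5688 c2789 c6188 c1653 (k8 c3578 c3805 c4584 c5044 c261 c4324 c19168 c5635 (k8 c3078 c3457 c3450 c5008 c19170 c3083 c19169 c19147 (k8 c1654 c3393 c5614 c3375 c5627 c3294 c10670 c5684 k0))))))))))))))) (by decide +kernel)
def c19172 : PP 9 3 T 0x141009000000000081000020000000000000000000000008000204041001000000014010008000004000400000000000001004400008400400000100000000 := rS 0x69317672602b72e5bc827c8931c8def6c73064cb6332b81c6a312e9d4b2c5 (k8 c18348 c18352 c18354 c17796 c5434 c5324 c5432 c5313 (k8 c5316 c5474 c10897 c5663 c726 c5375 c5435 c5317 (k8 c19169 c5932 c1573 c5619 c5622 c7813 c18085 c19162 (k4 c5604 c4730 c5213 c17938 k0)))) (by decide +kernel)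
def c19173 : PP 9 3 T 0x410080000000000a1000020000000000000000000000008000200204001022000010000218000000000400040000000000004400000000400000000000000 := rS 0x1c8da619361c5486fdfe3075dfd1cf0b60ae4426d5becddbe18aa67de411e8cda63f6691e3723253d9bae0 (k8 c3072 c4330 c2139 c2140 c3805 c5044 c4824 c2505 (k8 c5318 c5579 c5316 c5436 c5462 c17860 c5530 c5414 (k8 c6706 c5467 c18383 c5533 c5529 c5528 c5415 c5319 (k8 c3074 c19151 c19172 c5554 c5634 c19159 c7323 c2147 (k4 c6245 c17844 c3465 c570 (k2 c3124 c17827 (k1 c3383 k0))))))) (by decide +kernel)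
def c19174 : PP 9 3 T 0x400000000000000020000000000000000000000000000200000000000000000000000000000000000040000000000000000000000000000000000010 := rS 0x18385e1f230682b69cd0f86affeb1674b76471b7011dec4a8042476a76726a06cd7e3455ec84ab5239f3f7f85bed350907c4e3408418e7ff6980fa1f0e98c04012fecd6e993688573155588f68491f8f4d67914e87265b1995c0e359d0c7629f5eb2f0a2758ad55bb62c974eac5 (k8 c18348 c18354 c17796 c18352 c19111 c5573 c5422 c5421 (k8 c5570 c5423 c5420 c5575 c5572 c19094 c5434 c19046 (k8 c5324 c5432 c5313 c5316 c5474 c10897 c18539 c8199 (k8 c5524 c5523 c5436 c5318 c19119 c19134 c5409 c5413 (k8 c5414 c5415 c5528 c5529 c5530 c5533 c18383 c17795 (k8 c19142 c5642 c9752 c263 c1111 c18801 c5663 c17757 (k8 c17682 c726 c19143 c699 c17330 c5670 c5462 c5578 (k8 c5579 c5580 c6706 c17860 c17861 c19155 c19165 c1589 (k8 c5678 c11003 c2133 c19171 c2505 c2631 c10429 c1181 (k8 c4117 c6899 c4779 c19149 c2140 c2139 c4824 c3072 (k8 c5044 c3805 c4330 c19163 c19173 c5635 c3080 c3457 (k8 c5008 c19172 c1654 c3393 c1655 c3294 c1382 c3075 (k2 c3442 c3625 k0)))))))))))))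 (by decide +kernel)
def c19175 : PP 9 3 T 0x2004400000000010000020000000000000000000000000000200000000010000000000000000000000000000000000000000000000000000000000000010 := rS 0x3dd1346b54fc8748a3d26d7009f53e2714e8502cb7fb8fc3b64c978c7b1c996c6657038d6743130a58f28942a0d16c52e9d4b269 (k8 c18347 c18352 c18354 c17796 c18348 c18350 c18355 c18349 (k8 c18356 c5524 c19174 c1639 c5434 c19046 c5324 c5432 (k8 c5313 c5316 c5474 c10897 c19094 c1229 c5663 c1520 (k8 c19111 c6290 c6448 c5544 c5420 c1746 c18539 c8199 (k8 c5570 c5572 c18801 c16365 c1767 c1637 c5526 c5374 (k4 c5373 c17970 c2998 c808 (k2 c15494 c18894 (k1 c18000 k0)))))))) (by decide +kernel)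
def c19176 : PP 9 3 T 0x2000400000000010000020000000000000000000000000000200000000010000000000000000000000000000000000000000000000000000000000000010 := rS 0x89a36061024d6449e27fa1d228f7aa7c4fb64992c441f01004c696c996c6657038d463b135d2e7429d0e61065d3a9658a69 (k8 c18347 c18348 c18352 c18354 c17796 c18355 c18346 c18539 (k8 c8199 c19046 c18477 c5523 c19094 c5434 c5324 c5432 (k8 c5313 c5316 c5474 c10897 c19174 c1229 c16365 c5642 (k8 c1111 c6197 c560 c1637 c19111 c5570 c5572 c5477 (k8 c5526 c5374 c5373 c5544 c19175 c18620 c5559 c10629 (k4 c12632 c7820 c701 c704 (k1 c18001 k0))))))) (by decide +kernel)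
def c19177 : PP 9 3 T 0x400000000010000020000000000000000000000000000200000000000000000000004000000000000000000000000000000000000000000000000010 := rS 0x7bb3476a8f07b602ab1c8ddeaaddb6cc3ad17e87c040131e4cb6332b81c6a31d89ade2f3a5ce92c5d3a9658a69 (k8 c18347 c18348 c18352 c18354 c17796 c19174 c19046 c18477 (k8 c5325 c5323 c5523 c19094 c5434 c5324 c5432 c5313 (k8 c5316 c5474 c10897 c1229 c16365 c5642 c1111 c13351 (k8 c1709 c263 c5404 c19111 c5573 c5477 c5435 c5317 (k8 c1285 c13274 c19176 c5195 c5682 c5456 c5537 c2020 (k1 c3587 k0)))))) (by decide +kernel)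
def c19178 : PP 9 3 T 0x400000000010000020000000000000000000000000000200000000000000000000000000000000000000000000000000000000000000000000000010 := rS 0x552759cfd78bce97b34c978c2790f80802634b64cb6332b81c6b3a18ec4d65d3a9658a69 (k8 c18347 c18348 c18352 c18354 c17796 c5523 c19094 c5434 (k8 c19046 c5324 c5432 c5313 c5316 c5474 c10897 c19174 (k8 c1229 c16365 c5642 c1111 c5524 c1639 c5663 c1520 (k8 c5404 c18477 c5325 c5323 c13351 c19177 c10444 c13265 (k1 c1284 k0))))) (by decide +kernel)
def c19179 : PP 9 3 T 0x400000000000000020000000000000000000000000000200000000000000000000000000000000000000000000000000000000000000000000000010 := rS 0x1eefd6634475ed54a7447b40f874429b4c808bc01319852db1069acf2f17986deb932d8ccae071ace8625934b14ba75 (k8 c18354 c17796 c18348 c18347 c18352 c5434 c19046 c5324 (k8 c5432 c5313 c5316 c5474 c10897 c5477 c5475 c5325 (k8 c5323 c5524 c5523 c5522 c19094 c19174 c1639 c1229 (k8 c16365 c5663 c5642 c1520 c1119 c265 c263 c1111 (k8 c19178 c5409 c5412 c5531 c17757 c18034 c1708 c6899 (k2 c2504 c2071 (k1 c17991 k0))))))) (by decide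 +kernel)
def c19180 : PP 9 3 T 0x200000008000000000000000000000000000000000100000000000000020000000000000000000000000004 := rS 0x46164ca8b (k4 c18350 c18353 c18352 c17908 (k1 c754 k0)) (by decide +kernel)
def c19181 : PP 9 3 T 0x2000000000000050000020000000000000000000000008000000100000000000000000000000001000000000000000000000000000400000001000000020 := rS 0xf9878374b (k4 c18477 c5475 c18915 c17748 (k1 c11939 k0)) (by decide +kernel)
def c19182 : PP 9 3 T 0x1000400000000010000020000000000000000000000000000200000000000000000000000000000000000004000000000000000000000000000060000000 := rS 0xed9a205502cae331c81c6237079ed0e0d3c96e973a11824087562964ba85 (k8 c18349 c17796 c18352 c18348 c18354 c19179 c311 c9734 (k8 c19046 c18477 c5474 c5524 c5522 c5373 c5372 c5369 (k8 c5435 c5434 c5432 c5317 c5316 c5313 c718 c13322 (k4 c5650 c4454 c340 c11199 k0)))) (by decide +kernel)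
def c19183 : PP 9 3 T 0x400000000012000020000000000000000000000000000200000000001000000000000000000000000040000000000000000000000000000000000000 := rS 0xa95587bdab5371c5631dac6dc82090e6cd26311e9ade2350dbd674033991d1e250880409a1 (k8 c18539 c19179 c53 c15516 c12632 c5526 c13598 c9719 (k8 c54 c19046 c5477 c5475 c5324 c5323 c5523 c5436 (k8 c5434 c5444 c17756 c17904 c311 c12636 c17815 c5212 (k8 c5341 c2177 c19180 c5666 c1148 c19181 c19182 c1084 (k2 c2319 c5682 k0))))) (by decide +kernel)
def c19184 : PP 9 3 T 0x2000400000000011000020000000000000000000000000000200000000000000000000000000000000000040000000000000000000000000000000000000 := rS 0x9f88fa2740ed9bff3812bd6ad758b20e27f331d8c05f04acd3a9963455526cd987bc20a7b8fc2e371e83c1a1ba5e4cb6332b81c6b3a1898ce60123844088fd0a258a752c9773065 (k8 c18353 c18346 c17796 c18352 c18354 c18348 c18356 c18539 (k8 c5526 c19179 c15516 c13598 c53 c9719 c9754 c5434 (k8 c19046 c5324 c5432 c5313 c5316 c5474 c10897 c18477 (k8 c5475 c5522 c5369 c5436 c5435 c5433 c5318 c5498 (k8 c10404 c6290 c18915 c18930 c17299 c12228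 c17782 c10403 (k8 c2317 c1082 c2321 c10902 c17795 c11103 c10693 c11141 (k8 c17682 c10408 c725 c2180 c10802 c2611 c11003 c10405 (k8 c5550 c2517 c18997 c941 c5570 c18933 c5670 c317 (k1 c17898 k0))))))))) (by decide +kernel)
def c19185 : PP 9 3 T 0x400000000011000020000000000000000000040000000000000000000004000000000000000000000040000000000000040000000004000044000020 := rS 0x366207b0710e0d11a14ba59 (k8 c18352 c17796 c18349 c9734 c5522 c5373 c18532 c10900 (k2 c5650 c5486 (k1 c19124 k0))) (by decide +kernel)
def c19186 : PP 9 3 T 0x1000400000000059000100000000000000000000040008000200001000000000000000000000000004000000400000000000000000000000000000000020 := rS 0x19ad11d3f9c3f2589c4dcd46face3a41f15607b932d8ccae071a8c4e60123844ca8b2e9d4b2c5 (k8 c18348 c18352 c18354 c17796 c18350 c18353 c15516 c13598 (k8 c53 c9719 c5434 c5324 c5432 c5313 c5316 c5474 (k8 c10897 c5436 c5212 c5236 c5340 c5341 c18913 c5580 (k8 c17803 c11843 c65 c1146 c17872 c5591 c17868 c19019 (k2 c1710 c2506 (k1 c6899 k0)))))) (by decide +kernel)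
def c19187 : PP 9 3 T 0x400000000010000020000000000000000000000000000200000000001000000000000000000000000040000000000000000000000000000000000000 := rS 0x4a3959db6c952ab8a87bdbb119a3f424578bccb61b7ad2e7404 (k8 c19179 c19046 c18477 c5477 c5475 c5474 c5325 c5323 (k8 c5326 c18539 c5526 c5316 c19183 c19184 c19185 c15434 (k8 c1084 c2319 c5682 c19186 c17812 c17706 c12635 c3668 k0))) (by decide +kernel)
def c19188 : PP 9 3 T 0x400000000000000020000000000000000000000000000200000000002000000000000000000000000040000000000000000000000000000000000000 := rS 0xcef08e816f604b34dbb3f695c6639038c46e0f3da1c1a791a96e74043ab14b25d429950798 (k8 c18346 c18355 c18353 c18349 c17796 c18352 c18348 c18354 (k8 c19179 c19046 c5474 c5324 c5524 c5522 c5373 c5372 (k8 c5369 c5435 c5434 c5432 c5317 c5316 c5313 c5542 (k8 c5405 c2552 c2505 c10902 c12456 c717 c11199 c17762 (k2 c10803 c1646 k0))))) (by decide +kernel)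
def c19189 : PP 9 3 T 0x400000000020000020000000000000000000000000000200000000000000000000000000000000000000000000000000000000000000000000000000 := rS 0x19c3af09d99bed0482dedb33695c6639038c46e0f3da1c1a791a96e74043ab14b25d42e60ca83 (k8 c18355 c18353 c18346 c18349 c17796 c18352 c18348 c18354 (k8 c19179 c19046 c5474 c5324 c5524 c5522 c5373 c5372 (k8 c5369 c5435 c5434 c5432 c5317 c5316 c5313 c5529 (k8 c18383 c12456 c717 c10902 c5498 c2071 c10693 c17762 (k2 c11199 c10798 (k1 c1646 k0)))))) (by decide +kernel)
def c19190 : PP 9 3 T 0x400000000000000020000000000000000000000000000200000000000000000000000000000000000040000000000000000000000000000000000000 := rS 0x1fbb5 (k2 c19189 c19188 (k1 c19187 k0)) (by decide +kernel)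
def c19191 : PP 9 3 T 0x2000400000000000000020000000000000000000000000000200000000000000000000000000000000000400000000000000000000000000000000000000 := rS 0xfe7d4084d1870f9c76b1b74fec22a1ef0828ae3f038f41e0d0dd2c067323a3c4a01da9848209d9a586b3a08813425932a2f30c5 (k8 c18348 c18346 c18350 c18353 c18352 c18539 c19179 c15516 (k8 c19046 c5324 c19190 c5404 c10902 c12636 c1639 c19189 (k8 c53 c12632 c5526 c13598 c9719 c54 c18477 c5475 (k8 c5522 c5369 c5436 c5432 c5318 c5313 c10404 c6290 (k8 c18915 c17782 c17725 c5448 c17815 c5212 c5341 c17748 (k4 c17872 c17908 c2869 c751 (k2 c2870 c19049 (k1 c12613 k0)))))))) (by decide +kernel)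
def c19192 : PP 9 3 T 0x1000000000000014000000000000000000000000000000000000000000001010000000000000000000000000000000000000000000000000000084000000 := rS 0x152ab (k2 c1084 c2319 (k1 c5682 k0)) (by decide +kernel)
def c19193 : PP 9 3 T 0x400000000000000020000000000000000000000000000200000000001000000000000000000000000000000000000000000000000000000000000000 := rS 0xe07fda9b7996c36f5a58136bb349a586b3a (k8 c19046 c5324 c19190 c1637 c5404 c19189 c19179 c18477 (k8 c5477 c5475 c5474 c5325 c1231 c19191 c19192 c18532 (k1 c19182 k0))) (by decide +kernel)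
def c19194 : PP 9 3 T 0x400000000000000020000000000000000000000000000200000000000000000000000000000000000000000000000000000000000000000000000000 := rS 0xe99a0b7b1b7dafc689d813b34b010b6359d15c6639038c46e0f3da1c1a793ab14b25d429950798 (k8 c18346 c18355 c18353 c18349 c17796 c18352 c18348 c18354 (k8 c5524 c5522 c5373 c5372 c5369 c5435 c5434 c5432 (k8 c5317 c5316 c5313 c19046 c5324 c5474 c19179 c19190 (k8 c5404 c10902 c10693 c2131 c19193 c5542 c2552 c12456 (k4 c717 c2071 c11199 c6899 k0))))) (by decide +kernel)
def c19195 : PP 9 3 T 0x80000000000a000000000000000000000000000000000200000000000000000000000000000000000000000000000000000000000000000000000010 := rS 0x2032f0682e354b9dcce95329a58a75 (k8 c18354 c18348 c18347 c18353 c5488 c5487 c5493 c5452 (k4 c5450 c5433 c17756 c18020 (k2 c1109 c1054 (k1 c5642 k0)))) (by decide +kernel)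
def c19196 : PP 9 3 T 0x2000000000000008000020000000000000000000000000000200000000000000000000000000000000000000000000002001000000000000000004000010 := rS 0x3d04000018cc6235679ddeeab79e4da2f154ec7bc85 (k8 c18349 c19194 c19195 c5489 c5401 c5501 c17747 c5540 (k8 c5500 c5498 c5493 c5453 c5450 c5434 c5316 c15810 (k4 c5642 c11603 c14101 c2420 k0))) (by decide +kernel)
def c19197 : PP 9 3 T 0x2000000000000018000020000000000000000000000000000200000000001000000000000000000000000000000000000000000000000000000000000010 := rS 0x1e8200008c061ad8985361f362a4ce31889ac6af755bce9637c9b19a27b3cb3d0e7766f78ca8334a14eac5 (k8 c18348 c18354 c18349 c18347 c18355 c18353 c19194 c5495 (k8 c5493 c5373 c5453 c5524 c5372 c5501 c3607 c17747 (k8 c5435 c17743 c5540 c5500 c5498 c5450 c5523 c5371 (k8 c5434 c5487 c5489 c3601 c2316 c7393 c727 c19195 (k4 c19196 c1109 c1260 c5642 (k2 c5650 c14101 (k1 c2420 k0))))))) (by decide +kernel)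
def c19198 : PP 9 3 T 0x2001800000000000000200000000000000000000000000000000000000000000000000000000000000000001404005000000000000000000000000000000 := rS 0x7f6bb7e04e3f9c4d1acf3bb35a6d180bfcea8bcc20d8a85 (k8 c18349 c18348 c18355 c18346 c18350 c18354 c5544 c5502 (k8 c5501 c5496 c5495 c5493 c5453 c5381 c5382 c17809 (k4 c15064 c18001 c2516 c10298 (k2 c10493 c17880 k0)))) (by decide +kernel)
def c19199 : PP 9 3 T 0x4000000000000046000000000000000000000000000000000200000000000002000000000000000010000040000000000000000000010000011000000000 := rS 0x3295c270c8fc2e3d49a7d42b1 (k8 c1330 c5398 c5448 c5444 c5436 c5433 c5318 c5315 (k4 c434 c5683 c3579 c1246 k0)) (by decide +kernel)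
def c19200 : PP 9 3 T 0x46000120000000000000000000000004000200000000014040000000000000001000000000000000000000000000000000000804000000 := rS 0x2247081a34deac781cc3a0143a451e9714897de41698d7bc43ac6610689 (k8 c18356 c18355 c18346 c5212 c5561 c19194 c5450 c5496 (k8 c5340 c14662 c9666 c8199 c5452 c5526 c5374 c5373 (k8 c9731 c483 c9719 c5649 c19199 c2817 c2031 c2035 (k2 c5666 c18001 (k1 c756 k0))))) (by decide +kernel)
def c19201 : PP 9 3 T 0x2000800000000000000000000000000000000000000000000200000000000000000000000000000000000004000000000000000000000000000204000000 := rS 0x7a8ec6639188dc6acf66bdda2f3 (k8 c5540 c5501 c5498 c5495 c5453 c5450 c5435 c5434 (k4 c5317 c5316 c340 c2421 (k1 c3587 k0))) (by decide +kernel)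
def c19202 : PP 9 3 T 0x4000000000000082000000000000000000000000000004000200100000000002000000000000000000000000000000000000000000040010000000000000 := rS 0x8044128f6b219 (k4 c5315 c17758 c5436 c1218 (k2 c5658 c17815 (k1 c458 k0))) (by decide +kernel)
def c19203 : PP 9 3 T 0x2000000000000016000020000000000000000000000004000200000000000000000000000000000000000000000000000000000000000000000044000010 := rS 0x225f281a3485ef8ed655acb786d8041d5a92c0222108646a9769bde02ffa58dc53a1f09dd9ecdef23cf291439ed2798419d50ac5 (k8 c18348 c18349 c18354 c18355 c18346 c5444 c5372 c5373 (k8 c5374 c5524 c5526 c19194 c5495 c5453 c5493 c17944 (k8 c19198 c8199 c5435 c17743 c5544 c5502 c5498 c5496 (k8 c5452 c5450 c5315 c19201 c5650 c9731 c560 c1339 (k8 c483 c5642 c19200 c5649 c5420 c5573 c17758 c551 (k4 c8156 c19202 c12616 c1936 (k2 c18749 c18001 (k1 c5547 k0)))))))) (by decide +kernel)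
def c19204 : PP 9 3 T 0x800000000002000000000000000000000000000000000000000000000000000000000000000000000000000000000000000000000000000008400010 := rS 0xbc0333a5cee95349958a75 (k8 c18354 c18348 c18353 c18347 c5446 c5493 c5452 c1903 (k4 c1109 c18020 c5642 c1054 k0)) (by decide +kernel)
def c19205 : PP 9 3 T 0x800000000040000100000000000000000000000000000200000000000000000000000000000000000010000000000080000000000000000020000002 := rS 0x1ae45562bce411ac25da669 (k8 c18347 c5496 c5452 c5212 c9667 c17749 c1245 c932 (k2 c336 c2032 (k1 c18709 k0))) (by decide +kernel)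
def c19206 : PP 9 3 T 0x2000000000000012000020000000000000000000000004000200000000001000000000000000000000000000000000000000000000000000000000000010 := rS 0x3e759db198be1c003c4061e0da543217189ac6a97a58df67a1f09dd9ecdef23cf291439ecd265629d50a83 (k8 c18355 c18349 c18354 c18348 c18353 c18347 c5372 c5373 (k8 c5374 c5524 c5526 c19194 c5495 c5453 c5493 c17944 (k8 c19198 c19197 c5435 c17743 c5452 c5450 c5523 c5434 (k8 c5433 c5315 c5446 c19204 c19203 c1111 c1215 c5642 (k4 c17904 c1054 c18020 c19205 (k2 c17758 c18751 (k1 c18744 k0))))))) (by decide +kernel)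
def c19207 : PP 9 3 T 0x2000000000000055000020000000000000000000000000000200000000000002000000000000001000000000000000000001000000000000000000000010 := rS 0x2068d89fc8e0735880602ff149bfc5936885c3358d0f84eecf66f791e7948a1cf798419d50ac5 (k8 c18348 c18349 c18354 c18355 c18346 c5372 c5373 c5374 (k8 c5524 c5526 c19194 c5495 c5453 c5493 c17944 c19198 (k8 c5212 c5315 c5433 c5501 c17747 c5236 c17836 c8199 (k8 c5544 c5502 c9696 c1330 c9719 c5666 c18732 c756 (k2 c754 c5550 (k1 c18001 k0)))))) (by decide +kernel)
def c19208 : PP 9 3 T 0x2000000000000055000020000000000000000000000004000200000000000000000000000000000000000000000000000000000000000000000044000010 := rS 0x40001180c38f1222d5ae4b8e90487e212d60663d7be4c53a1f0a3d22614dd2c6ec6689ecf2cf439dd9bde3aa0d0ac5 (k8 c18348 c18349 c18355 c18354 c19194 c5495 c5493 c5373 (k8 c5453 c5524 c5372 c5501 c3607 c5435 c17743 c7393 (k8 c727 c5374 c5526 c17944 c19198 c8199 c17747 c5498 (k8 c5436 c5316 c5212 c9666 c5236 c5561 c5340 c5341 (k8 c5342 c5465 c11945 c17979 c19207 c5649 c3635 c483 (k2 c5642 c5650 (k1 c18702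 k0))))))) (by decide +kernel)
def c19209 : PP 9 3 T 0x2000000000000000000000000000000000000000000000000000000000000000000000001000000000022001404100400000800000000000000000000000 := rS 0x8d81c4cfcde80bff3083 (k8 c18355 c18346 c5544 c5502 c1278 c1122 c2513 c2516 (k2 c807 c18001 k0)) (by decide +kernel)
def c19210 : PP 9 3 T 0x80000000000000000000000200000000000200000000000000000000000000000000010004000000000000000000000000010000000000 := rS 0x41128647e171ea7d9627 (k8 c5570 c5420 c5572 c5436 c5433 c5318 c5315 c5559 (k2 c5340 c3579 k0)) (by decide +kernel)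
def c19211 : PP 9 3 T 0x2000000000000091000020000000000000000000000000000200000000000002000000000000000000000000000000000000000000000000000040000010 := rS 0x1f28111e268d24842b2a140a71327d2f12cc6220124e3a21008d602f37fe4c53a1f0a3d22614dd2c6ec6689ecf2cf439dd9bde4fb2c4f98419d50ac5 (k8 c18348 c18349 c18354 c18355 c18346 c5570 c5420 c5572 (k8 c19194 c5495 c5493 c5373 c5453 c5524 c5372 c5501 (k8 c3607 c5435 c17743 c7393 c727 c5374 c5526 c17944 (k8 c19198 c8199 c17747 c5544 c5540 c5502 c5450 c9696 (k8 c431 c551 c429 c5642 c5650 c9752 c560 c5663 (k8 c18801 c1520 c10734 c1746 c19209 c19210 c18893 c3026 (k4 c702 c704 c18747 c18001 (k2 c5660 c5550 k0)))))))) (by decide +kernel)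
def c19212 : PP 9 3 T 0x2000000000000015000020000000000000000000000004000200000000000000000000000000000000000000000000000000000000000000000044000010 := rS 0x9c310e840007a88c061c78eda22f779d2c6f9368f78b285 (k8 c18349 c18352 c19194 c5501 c17747 c5435 c17743 c5540 (k8 c5498 c5371 c19208 c19211 c5649 c263 c483 c1999 (k4 c5642 c5650 c17847 c16365 (k2 c341 c1274 k0)))) (by decide +kernel)
def c19213 : PP 9 3 T 0x1000000000011000000040000000000000000000000000000000100001000000000001000000004000000004000400400000000000000000080000010 := rS 0x198c4a900268da03419a4ca85 (k8 c18349 c18353 c18347 c18355 c1111 c2316 c17725 c5642 (k4 c2494 c16365 c3601 c777 k0)) (by decide +kernel)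
def c19214 : PP 9 3 T 0x2000000000000051000020000000000000000000000000000200000000000000000000000000000000000000000000000000000000000000000200000002 := rS 0x4b9368e87c27767b37bc8f3ca450e7b3aa158a83 (k8 c18355 c18348 c18349 c18354 c5372 c5373 c5374 c5524 (k8 c5526 c19194 c5495 c5453 c5493 c17944 c19198 c5501 (k2 c17747 c9666 (k1 c18702 k0)))) (by decide +kernel)
def c19215 : PP 9 3 T 0x80000000000000000000000200000000000200000000000000000140000080000000000000000000400000000001400400000008000010 := rS 0x1f918e23792c82251c8fc6e3d0000ce265 (k8 c18353 c5571 c1109 c5642 c5436 c5435 c5318 c5317 (k8 c5559 c5340 c5342 c1060 c3590 c18705 c2620 c807 k0)) (by decide +kernel)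
def c19216 : PP 9 3 T 0x2000000000000010000020000000000000000000000004000200000000001000000000000000000000000000000000000000000000000000000000000010 := rS 0x1fcfbe3461020713f956492e123b7c4e9f59ed9026c4c0ed3a621000046030d26c3fb1889ad57017fd2c6f936334767a1f09dd9ecdef23cf291439ef3083329d50ac5 (k8 c18348 c18349 c18354 c18353 c18355 c18346 c5372 c5373 (k8 c5374 c5524 c5526 c19194 c5495 c5453 c5493 c17944 (k8 c19198 c19197 c5501 c3607 c17747 c5435 c17743 c5544 (k8 c5502 c5500 c5523 c5371 c19206 c19213 c7393 c19212 (k8 c1109 c1260 c5642 c5650 c16365 c1274 c341 c5679 (k8 c2438 c3936 c19214 c5574 c5572 c5570 c13097 c2422 (k8 c13096 c344 c19215 c18762 c5547 c5550 c19019 c18001 (k4 c5462 c12625 c807 c5670 k0)))))))) (by decide +kernel)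
def c19217 : PP 9 3 T 0x2000000000000012000020000000000000000000000000000200000000000011000000000000000000000000000000000000000000000000000004000000 := rS 0xa94e87846210e26536930b8c46a97f09dd9ecd7bd2fbc373aa158a83 (k8 c18355 c18348 c18349 c18354 c5435 c19194 c17743 c5498 (k8 c5495 c5453 c5493 c17944 c5452 c5450 c5434 c5433 (k8 c5444 c5397 c5447 c17904 c19201 c483 c5650 c5855 (k2 c2319 c17889 k0)))) (by decide +kernel)
def c19218 : PP 9 3 T 0x11000000040000000000000000040000000000000000000000000000000000000000000000000000000000000000000800000440000800 := rS 0xda20 (k2 c5650 c17340 (k1 c2416 k0)) (by decide +kernel)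
def c19219 : PP 9 3 T 0x2000000000000010000020000000000000000000000000000200000000001000000000000000000000000000000000000000000000000000000000000010 := rS 0x942f24cc6020e80444614d87f623a053d436f19d31b274b68aadee191985c623707c44f687069acf2354bb27c27767b37bc752cb150a83 (k8 c18355 c18349 c18348 c18352 c18354 c19194 c5495 c5453 (k8 c5493 c17944 c5494 c5452 c5450 c5524 c5523 c5522 (k8 c5373 c5372 c5371 c5369 c5435 c5434 c5433 c5316 (k8 c5315 c5498 c5500 c5501 c17743 c17747 c3607 c19216 (k8 c5323 c5475 c5477 c10404 c17385 c19217 c19213 c7393 (k8 c727 c19218 c9731 c483 c5642 c9752 c262 c5663 (k2 c3577 c1518 k0))))))) (by decide +kernel)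
def c19220 : PP 9 3 T 0x52000020000000000000000000080004000200000000000000000000000000000000000000000000000000000000000000000000000012 := rS 0x660e684bef101a5cee95d986fbc17349958a75 (k8 c18354 c18348 c18353 c18347 c5433 c19194 c19204 c19195 (k8 c5446 c5493 c5452 c28 c9696 c1054 c18454 c5649 (k2 c18020 c19205 k0))) (by decide +kernel)
def c19221 : PP 9 3 T 0x1000000000000016000020000000000000000000000004000200000000001000000000000000000000000000000000000000000000000000000004000008 := rS 0x3c950ab780744219198e42e311b8346a9767b37bc1f11bd69459 (k8 c18352 c5228 c5519 c5331 c5517 c19194 c5495 c5453 (k8 c5452 c5450 c5522 c5435 c5434 c5433 c5317 c5316 (k8 c5315 c265 c263 c5649 c1281 c5682 c13742 c2446 k0))) (by decide +kernel)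
def c19222 : PP 9 3 T 0x12000020000000000000000000000004000200000000001000000000000000000000000000000000000000000000000000000000000010 := rS 0x54340cc1c3697de2000182e94973bb37da95d986fbc17349958a75 (k8 c18354 c18348 c18353 c18347 c5433 c19194 c19204 c19195 (k8 c5446 c19219 c5495 c5493 c5452 c5228 c5516 c19221 (k8 c5642 c9696 c1054 c665 c5649 c18020 c18458 c5830 (k1 c2024 k0)))) (by decide +kernel)
def c19223 : PP 9 3 T 0x12000020000000000000000000000000000200000000001000000000000000000000000000000000000000000000000000000000000010 := rS 0x672f800061c2dbc6741b4a85c62354b9dfbc6932b14ea59 (k8 c18352 c18354 c18348 c18353 c18347 c19194 c5493 c5452 (k8 c5450 c5434 c5433 c5446 c19204 c19222 c5323 c5474 (k4 c17904 c263 c5642 c1054 (k2 c663 c18020 k0)))) (by decide +kernel)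
def c19224 : PP 9 3 T 0x10000020000000000000000000040004000200000000001000000000000000000000000000000000000000000000000000000040000012 := rS 0x318dad105a61e49d7b98b2623889ed0e79f09dd9ecdef6c43a674aecbda9b62a150675 (k8 c18354 c18355 c18349 c18348 c7393 c19219 c5228 c5488 (k8 c5487 c5486 c19223 c19194 c5495 c5453 c5493 c17944 (k8 c5524 c5373 c5372 c5371 c9731 c18650 c16365 c8123 (k8 c1274 c17966 c5679 c2530 c1595 c665 c3607 c2438 k0)))) (by decide +kernel)
def c19225 : PP 9 3 T 0x10000020000000000000000000040004000200000000001000000000000000000000000008000000000000000000000000000040000010 := rS 0x4c340440200a6d9fded8a5765ed (k8 c19219 c5228 c5488 c19223 c19194 c5453 c7393 c19224 (k4 c5642 c6197 c18578 c482 (k1 c1595 k0))) (by decide +kernel)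
def c19226 : PP 9 3 T 0x10000020000000000000000000040004000200000000001000000000000000000000000000000000000000000000000000000004000010 := rS 0x2031087925b21985cd63564f7bda85 (k8 c18349 c19219 c19194 c5494 c5450 c5523 c5433 c5316 (k4 c5228 c17910 c19225 c58 (k2 c1111 c13932 (k1 c5642 k0)))) (by decide +kernel)
def c19227 : PP 9 3 T 0x1000000000019000000000000000000000000000000000000000100001000000000005100000000001000004005401440000000000000000000000000 := rS 0xc768a6136aa54a558a85419d4d265 (k8 c18353 c18347 c18354 c18355 c18349 c18348 c5488 c5489 (k4 c3601 c1189 c5679 c1595 (k2 c2438 c3607 k0))) (by decide +kernel)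
def c19228 : PP 9 3 T 0x11000020040000000000000000080004000000000000001000000000005100000000000000000000400000000000000000000004000002 := rS 0x5b7987366674e9b4c4f1889ed0e6b3cf8417983aa158a83 (k8 c18355 c18348 c18349 c18354 c18346 c5516 c17944 c5524 (k8 c5523 c5373 c5372 c5371 c9696 c16365 c665 c1274 (k4 c777 c19227 c5649 c334 (k2 c1994 c17728 k0)))) (by decide +kernel)
def c19229 : PP 9 3 T 0x1000000000000059000020000000000000000000080004000200000000000000000000000000000000000008000000000000000000000000000000000008 := rS 0xd179c09fe447037d42d7f992e3a4121f8ab1a12b8cc72311b8f46ad5ef0edee4905bd48f93 (k8 c13294 c5520 c5519 c5516 c5334 c5333 c5332 c19194 (k8 c5454 c5450 c5436 c5435 c5434 c5317 c5316 c5313 (k8 c18470 c5212 c5236 c5561 c5340 c5341 c5342 c18062 (k8 c5465 c5578 c5580 c17960 c16370 c3012 c9612 c2627 (k2 c2201 c17847 k0))))) (by decide +kernel)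
def c19230 : PP 9 3 T 0x88000200000000000000000000000000000000000000000000000000000000000000000000000000000000000000000000000000000000 := rS 0x1bd1a71 (k4 c5571 c5381 c5565 c18613 k0) (by decide +kernel)
def c19231 : PP 9 3 T 0x1000000000000019000020000000000000000000080004000200000000000000000000000000000000000000000000000000000000000000000004000009 := rS 0x23a4312848224540103427d3ff8d622913a7ce3b60418124f157ab432330385c62354bb27bd930e9651265 (k8 c18353 c18356 c18352 c263 c13294 c19194 c5494 c5452 (k8 c5450 c5434 c5433 c5432 c5316 c5315 c5490 c5406 (k8 c5401 c17910 c14092 c9863 c19229 c5571 c5572 c5570 (k8 c5417 c5421 c6601 c728 c1579 c19230 c14367 c5670 (k4 c458 c699 c1745 c12632 (k2 c2808 c299 (k1 c3582 k0))))))) (by decide +kernel)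
def c19232 : PP 9 3 T 0x10000020000000000000000000000004000200000000001000000000000000000000000000000000000000000000000000000004000010 := rS 0x2f985289c683cd50ab786cc3a213180803937abdc463ba51ec1acf3bb259bdef6ec4ea59 (k8 c18352 c18354 c19223 c19219 c19194 c5495 c5494 c5493 (k8 c5453 c5522 c5372 c19226 c5332 c5331 c5333 c5519 (k8 c13294 c19228 c5642 c9752 c265 c263 c19231 c5649 (k8 c1281 c5682 c2446 c17847 c2025 c2024 c1696 c1518 (k1 c5663 k0))))) (by decide +kernel)
def c19233 : PP 9 3 T 0x10000020000000000000000000040004000200000000001000000000000000000000000000000000000000000000000000000000000010 := rS 0x1b03db23da1cd67964f84eecf66fb53a622f85f26610000c0e67ef2543431d8c44d2653aa158a83 (k8 c18355 c18348 c18349 c18354 c18353 c18347 c5371 c19223 (k8 c5434 c19232 c1904 c19194 c1903 c5432 c1109 c5642 (k8 c661 c17866 c5433 c1054 c5663 c1274 c19219 c5495 (k8 c5453 c5493 c17944 c5494 c5524 c5523 c5373 c5372 (k4 c5228 c19224 c19227 c2316 k0))))) (by decide +kernel)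
def c19234 : PP 9 3 T 0x10000020000000000000000000000004000200000000001000000000000000000000000000000000000000000000000000000000000010 := rS 0xc768a6136aa549b5ea0ba5274c5933097c000333a5434070b8c6227b439acf2c9f09dd9ecdef6c58a85419d4d265 (k8 c18353 c18347 c18354 c18355 c18349 c18348 c19223 c19194 (k8 c5495 c5453 c5493 c17944 c5494 c5524 c5523 c5373 (k8 c5372 c5371 c5434 c5433 c5432 c19232 c1904 c1903 (k8 c1109 c5642 c1054 c661 c17866 c5663 c1274 c19233 (k8 c5516 c5519 c665 c1906 c3601 c1189 c5679 c1595 (k2 c2438 c3607 k0)))))) (by decide +kernel)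
def c19235 : PP 9 3 T 0x19000020040000000000000000040000000200000000001014000000000000000000000000000000000040000000000000000004000002 := rS 0x34130f73608152950e8c4f687359e46ac9f09dd9ecdef274c511429d58a83 (k8 c18355 c18348 c18354 c18349 c5371 c16365 c1274 c19194 (k8 c5495 c5453 c5493 c17944 c5494 c5450 c5524 c5523 (k8 c5373 c5372 c5434 c5486 c5488 c5489 c13932 c19227 (k4 c342 c780 c14101 c1595 k0)))) (by decide +kernel)
def c19236 : PP 9 3 T 0x51000020000000000000000000000008000200000000000040000000000000000008000200000000000008000000000000010200000000 := rS 0x2795a2457fbe02e18a927e44b71b2eb31339e807b4bc98ccae071a8c528d0ef0ed3b11631b014f34396c1ef506a2cb25d41a14eac5 (k8 c18348 c18354 c18349 c18355 c17796 c18352 c18350 c5522 (k8 c5477 c5369 c5474 c5373 c5325 c3571 c2416 c779 (k8 c5371 c1274 c341 c19194 c17847 c1595 c5434 c5450 (k8 c5432 c5313 c5316 c10897 c18477 c5436 c14183 c5379 (k8 c5382 c17561 c1322 c2619 c2588 c5231 c5588 c5590 (k8 c5591 c5592 c18955 c1286 c14134 c2127 c5297 c2756 k0)))))) (by decide +kernel)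
def c19237 : PP 9 3 T 0x200000000000000000000040008000000000000000000000000000000000118000000000000050040000001000000000400000800 := rS 0x8aab8975937c4d1a8b449a4ca59 (k8 c18352 c18353 c18347 c18356 c18350 c5381 c5382 c5565 (k4 c17561 c2588 c3602 c6578 (k1 c1286 k0))) (by decide +kernel)
def c19238 : PP 9 3 T 0x80000000000000000000000200000008000200000000001000000140020000000000000000000000000000000001400400010010000000 := rS 0x802b9c44b8e9044a391f8dc7a45 (k8 c5326 c5436 c5435 c5318 c5317 c5559 c5340 c5341 (k4 c5342 c3590 c17885 c1780 (k1 c3071 k0))) (by decide +kernel)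
def c19239 : PP 9 3 T 0x100040000000000000100040000000200000000000000000040000000000118000000000100450048000005400400000400000000 := rS 0x8c3f1bcfbe3579022bf245a24d265 (k8 c18353 c18347 c18356 c18350 c5660 c6578 c19019 c1286 (k4 c5462 c12625 c1176 c5670 (k2 c3602 c807 k0))) (by decide +kernel)
def c19240 : PP 9 3 T 0x1000000000000011000020000000000000000000000008000200000000001000000000000000000000000000000000000000000000000000000010000002 := rS 0x2355f1d083ffe64aace86064970b7c8ead589cc4e9f599c76c8136029a0f707a1c1a29018ec40aa4c26c3fb33386d3a62c996c6657038d623e13bb3d9a23a5bd7bc311b8e5e68b2c994d28541974eac5 (k8 c18348 c18354 c17796 c18355 c18349 c18347 c18353 c18352 (k8 c18350 c5325 c5317 c5435 c5434 c19194 c5477 c18477 (k8 c9731 c5495 c5453 c5493 c17944 c5371 c5450 c5432 (k8 c5313 c5316 c5474 c10897 c16365 c1274 c5475 c663 (k8 c19235 c19192 c7393 c5679 c9107 c5650 c341 c28 (k8 c9694 c5522 c5373 c5369 c8123 c17847 c3571 c2416 (k8 c3936 c19236 c5571 c5574 c5572 c5570 c5419 c5421 (k8 c5573 c2422 c13097 c13096 c344 c2199 c19237 c19238 (k8 c19239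 c5546 c4708 c12638 c6335 c1287 c702 c14568 k0))))))))) (by decide +kernel)
def c19241 : PP 9 3 T 0x55000020000000000000000000000008000200000000000000000000000000000008000200000000000008000000000000010200000000 := rS 0x160ad57893df0170c5492e325fc9975939e80374bc996c6657038d7bc311da76228b2c974eac5 (k8 c18348 c18354 c17796 c18352 c18350 c5371 c1274 c341 (k8 c5434 c19194 c5450 c5432 c5313 c5316 c5474 c10897 (k8 c18477 c5475 c14183 c5379 c17561 c1322 c5231 c5546 (k8 c5549 c5588 c5590 c5591 c5592 c18955 c14134 c1286 (k2 c2127 c5683 (k1 c1092 k0)))))) (by decide +kernel)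
def c19242 : PP 9 3 T 0x200000000000000000000040008000000000000001080000000000000000118000000000000050040000001000000000400000000 := rS 0x25c5202aeac9bd1a8b449a4ca59 (k8 c18352 c18353 c18347 c18356 c18350 c5381 c5565 c17561 (k4 c3602 c3071 c1286 c565 (k1 c6578 k0))) (by decide +kernel)
def c19243 : PP 9 3 T 0x1000800000000000000000000000000000000200000008000200000000040000000140010080000000000000000000000000000001400400000000000000 := rS 0xff80b89adf3f792e3a41198e47e371eb4c8645 (k8 c5326 c5478 c5496 c5436 c5435 c5318 c5317 c5316 (k8 c5340 c5341 c5342 c17860 c19019 c17979 c3590 c2145 (k2 c4713 c5694 k0))) (by decide +kernel)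
def c19244 : PP 9 3 T 0x1000000000000000000120000000000000000000000008000200000000040000000140010000000110000200000000050008000001400400000000000002 := rS 0x8d579bc20fff992ab20a36318f687069e59e7766e4c6657038d4ce5b5508e96f5ef0c46e3979a051689349958a85419d4ba59 (k8 c18352 c17796 c18354 c18355 c18349 c18348 c18353 c18347 (k8 c18356 c18350 c937 c5325 c5317 c5435 c5434 c19194 (k8 c5477 c18477 c9731 c9107 c5474 c663 c5450 c5432 (k8 c5313 c5316 c10897 c5495 c5493 c5453 c5524 c5522 (k8 c5373 c5372 c3607 c2438 c665 c19243 c19239 c5546 (k4 c4708 c12638 c18580 c1287 (k2 c701 c3602 k0))))))) (by decide +kernel)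
def c19245 : PP 9 3 T 0x120000000000000000200000008000200000000000000000140020000000000000000000100000000000001400400000000000000 := rS 0x4d1a7e8038896411c8fc6e3d439e48b932d8ccae071af7863982e9d4b2c5 (k8 c18348 c18352 c18354 c17796 c18346 c5434 c19194 c5450 (k8 c5432 c5313 c5316 c5474 c10897 c5326 c5524 c5373 (k8 c5436 c5435 c5318 c5317 c5340 c5342 c3590 c1780 (k4 c17330 c2141 c2917 c17783 k0)))) (by decide +kernel)
def c19246 : PP 9 3 T 0x1000000000000011000020000000000000000000000008000200000000001000000000000000000000000000000000000000000000000000000000000002 := rS 0xaf469bdfe10f992ab2d0d0a0492e16f91d5ab13989d3eb338eda06f60e2a876981026c3fb34e8a4c4671180c723788837c27767b35e61b7ad2f265b1995c0e35ef0c5168934994ba752cb150a83 (k8 c18355 c18349 c18348 c18352 c18354 c17796 c18353 c18347 (k8 c18356 c18350 c5434 c19194 c5450 c5432 c5313 c5316 (k8 c5474 c10897 c18477 c5477 c5475 c5325 c5495 c5453 (k8 c5493 c17944 c5522 c5371 c5435 c5317 c28 c9731 (k8 c663 c16365 c9694 c1274 c19235 c19192 c7393 c5650 (k8 c5679 c341 c9107 c19240 c2121 c4547 c19241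 c5571 (k8 c5574 c5572 c5570 c5419 c5421 c5573 c2422 c13097 (k8 c13096 c344 c937 c19242 c19244 c19245 c19239 c5546 (k4 c12638 c2568 c18580 c701 (k2 c1287 c3602 k0)))))))))) (by decide +kernel)
def c19247 : PP 9 3 T 0x80004000000000041000020040000000000000000000000000000000000000000000000000000000000010600000110000004000000000000000000000000 := rS 0xdf3fb1d3c606597cf2e3 (k8 c5549 c5524 c1520 c1759 c5663 c5680 c727 c729 (k2 c2885 c17861 k0)) (by decide +kernel)
def c19248 : PP 9 3 T 0x1000000000000051000020000000000000000000000008000200000000001000000000000000000000000000000000000000000000000000000000000008 := rS 0x4aa4d32aa54ecdfcaf509249628f978c4a27ac9f4de1346a0740190ba1d22976a9dd92f10de4cb6332b81c6bde1898c3a224d87cd74b45a1506c53aa24b25d (k8 c17796 c18352 c18356 c18354 c18348 c18355 c18349 c18350 (k8 c18477 c5523 c1111 c7393 c6197 c263 c9752 c5434 (k8 c19194 c5450 c5432 c5313 c5316 c5474 c10897 c5475 (k8 c5323 c5494 c5493 c5454 c5452 c5374 c5373 c5433 (k8 c5315 c14183 c5380 c5381 c5564 c5565 c5566 c17561 (k8 c267 c1113 c17987 c5231 c5651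 c5546 c5588 c1195 (k8 c1243 c13510 c18440 c2453 c5682 c19247 c482 c2126 (k1 c3577 k0)))))))) (by decide +kernel)
def c19249 : PP 9 3 T 0x1000000000011000220040000000000000000000000000000000000001000000040020000000110004400000010050042000000000000000000000000 := rS 0x802b9c46f89a35027f45a24d265 (k8 c18353 c18347 c18356 c18350 c728 c5380 c5381 c5382 (k4 c5565 c18679 c3602 c1780 (k1 c3071 k0))) (by decide +kernel)
def c19250 : PP 9 3 T 0x800000000000000100040000000000000200000008000000000000000000000000000000000000000000000050000000000000000000000000000200 := rS 0x207c641 (k4 c5340 c17693 c1744 c5670 k0) (by decide +kernel)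
def c19251 : PP 9 3 T 0x80000100000000000000000000000008000000000000000000000000000000000008000000000000000000000002000000000010000000 := rS 0x15f1d7f8948a29 (k4 c5417 c5326 c10629 c3006 (k2 c19116 c1287 (k1 c17885 k0))) (by decide +kernel)
def c19252 : PP 9 3 T 0x1000000000000011000020000000000000000000000008000200000000001000000000000000000000001000000010000000000000000000000000000008 := rS 0x4755f150909422e324d674267556cd28a91d1fda0923017dbe98439e593e167b348a083be4cb6332b81c6bde189cc02630ea6ce2b34fac55a4b14ed8441f35d2cb25d3ab150a83 (k8 c18355 c18349 c18348 c18354 c17796 c18352 c18477 c5523 (k8 c1111 c6197 c19248 c5417 c560 c5573 c5421 c5572 (k8 c5574 c5571 c7393 c263 c9752 c19246 c9719 c5434 (k8 c19194 c5450 c5432 c5313 c5316 c5474 c10897 c5493 (k8 c10693 c5326 c5495 c5453 c17944 c5494 c5524 c5373 (k8 c5679 c13097 c1520 c5663 c1573 c18428 c728 c481 (k8 c2025 c1595 c5488 c5682 c2123 c19249 c19250 c19251 (k8 c1774 c18298 c12632 c12617 c7822 c1286 c299 c17885 k0)))))))) (by decide +kernel)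
def c19253 : PP 9 3 T 0x10000020000000000000000000000000000200000000001000000000000000000000000000000000000000000000000000000000000010 := rS 0x250bc9330a70fa2913b2d3fb60e884c60200e4c365b78ceb63ed2b86466070b8c4f60d1aa5d93de3a9658a5d (k8 c17796 c18348 c18352 c18354 c19194 c5494 c5452 c5450 (k8 c5522 c5372 c5434 c5433 c5432 c5316 c5315 c5313 (k8 c19219 c19223 c19234 c5323 c5474 c5475 c10897 c19246 (k8 c5642 c9752 c265 c263 c19248 c5572 c5420 c5570 (k8 c5417 c18801 c19252 c1696 c1695 c5663 c3577 c1518 k0))))) (by decide +kernel)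
def c19254 : PP 9 3 T 0x12000020000000000000000000000004000200000000000000000000000000000000000000000000000000000000000000000000000010 := rS 0x409f4fe6f08230271c21917de5ad0d655a7313b2ce266db17c001c7880c4023a506472071e834eed3f6ecd526d4ea5d32fc6798d2a1bef05cb26932b14ea85 (k8 c18349 c18354 c18348 c18353 c18347 c18352 c5433 c19194 (k8 c19204 c5446 c5395 c5453 c19253 c2554 c5452 c1239 (k8 c2552 c135 c5405 c5542 c5496 c5493 c5522 c5436 (k8 c5432 c5317 c5315 c5228 c5331 c17923 c265 c432 (k8 c2551 c5642 c1054 c19220 c18020 c5571 c5420 c5570 (k8 c5419 c5573 c17758 c18460 c663 c8156 c335 c10701 (k8 c5658 c299 c2159 c2160 c1061 c807 c2747 c699 (k1 c18032 k0)))))))) (by decide +kernel)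
def c19255 : PP 9 3 T 0x12000020000000000000000000000000000200000000000000000000000000000000000000000000000000000000000000000000000010 := rS 0x672f800061c2dbc6741b4a85c62354b9dfbc6932b14ea59 (k8 c18352 c18354 c18348 c18353 c18347 c19194 c5493 c5452 (k8 c5450 c5434 c5433 c5446 c19204 c19254 c5323 c5474 (k4 c17904 c263 c5642 c1054 (k2 c663 c18020 k0)))) (by decide +kernel)
def c19256 : PP 9 3 T 0x5000020040000000000000000080004000000000000000000000000000000000000000000000000400000000000000000000104000002 := rS 0x16de6670e189e398 (k8 c18346 c9696 c16365 c5649 c777 c333 c1994 c17728 k0) (by decide +kernel)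
def c19257 : PP 9 3 T 0x10000020000000000000000000000004000200000000000000000000000000000000000000000000000000000000000000000000000010 := rS 0x249e00830074c6020086f260b0f8ee9457038dc6bedd99b4be6b11864429ad8a653afc4bf84eecf66f7872593aa158a83 (k8 c18355 c18348 c18349 c18354 c18352 c5317 c19194 c5495 (k8 c5453 c5493 c17944 c5452 c19253 c1239 c2554 c19255 (k8 c5679 c2490 c5315 c1186 c5523 c1119 c2552 c5405 (k8 c5542 c5450 c5435 c5432 c5313 c5228 c5332 c5517 (k8 c5516 c13294 c1075 c19256 c5642 c9752 c263 c18034 (k4 c18085 c5649 c1573 c429 k0)))))) (by decide +kernel)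
def c19258 : PP 9 3 T 0x90000020000000000000000200000000000200000000000000000000000000000000000000000000000000000000000000000000000010 := rS 0x6fb87e7126b1bfc71d208947b1148a3cda234d2752e1921914e2b313b8fc27766a659e813998800030f3cde34b35e4cb73a1995c0e35ef0c763035abf0ba752cb150a83 (k8 c18355 c18349 c18348 c18352 c18354 c17796 c19253 c5422 (k8 c2631 c19255 c5434 c19194 c5450 c5432 c5313 c5316 (k8 c19257 c5474 c10897 c5523 c18477 c5323 c5325 c13351 (k8 c1111 c5642 c16365 c5419 c937 c5453 c2554 c5495 (k8 c5493 c17944 c6448 c5570 c5574 c5571 c5326 c5478 (k8 c5315 c5452 c1239 c5679 c1186 c2552 c5526 c5374 (k8 c5371 c5436 c5559 c5340 c5341 c17693 c1060 c17979 (k4 c13749 c17922 c1721 c2513 (k1 c5691 k0))))))))) (by decide +kernel)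
def c19259 : PP 9 3 T 0x90000020000000000000000000000000000200000000000000000000000000000000000000000000000000000000000000000000000010 := rS 0x1f1ade320c74fe12aca0423a15a9cd66711f8f5aa432298800030f3cdf8f1a59af265b9d0ccae071af7863b13a964bac5 (k8 c18348 c17796 c18352 c18354 c19255 c5434 c19194 c5450 (k8 c5432 c5313 c5316 c19257 c5474 c10897 c5523 c18477 (k8 c5323 c19253 c5325 c13351 c1111 c5642 c16365 c5326 (k8 c5478 c5454 c5436 c5318 c5571 c5574 c5419 c5422 (k8 c18146 c17974 c937 c19258 c12617 c2917 c299 c298 (k4 c13617 c17979 c5670 c1549 k0)))))) (by decide +kernel)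
def c19260 : PP 9 3 T 0x10000020000000000000000000000000000200000000000000000000000000000000000000000000000000000000000000000000000010 := rS 0x359591d20ac44cb5f932eb26f39e836e620000f261ea596de6f12290e74214d6c5329dd9bf0ae331c81c623d358d52ed3f09dd9ecdef22cb2c53a9750a83 (k8 c18355 c18349 c17796 c18354 c18348 c18352 c18350 c19194 (k8 c5495 c5453 c5493 c17944 c5496 c5452 c5450 c5523 (k8 c5436 c5434 c5432 c5317 c5316 c5313 c19253 c5405 (k8 c1239 c2554 c19255 c5679 c2490 c19257 c5478 c5326 (k8 c5323 c5325 c5474 c18477 c13351 c10897 c1111 c5642 (k8 c16365 c19259 c14183 c5379 c5565 c17561 c1322 c5231 (k8 c5548 c15948 c1335 c350 c352 c17388 c17979 c2033 k0))))))) (by decide +kernel)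
def c19261 : PP 9 3 T 0x2000020000000000000000000000004000200000000001000000000000000000000000000000000000000000000000000000000000010 := rS 0x79bdc74f00f87404f500b40cc31439ac6a9711a74429954fb437de0bd2f6859419950a69 (k8 c18347 c18349 c18353 c18355 c18352 c19260 c9578 c5433 (k8 c19194 c19204 c17700 c5531 c5530 c5528 c5412 c5409 (k8 c5452 c5450 c5523 c5373 c5434 c18014 c13565 c18387 (k8 c1925 c5642 c263 c1111 c17904 c18438 c499 c448 (k1 c5657 k0))))) (by decide +kernel)
def c19262 : PP 9 3 T 0x1000000000000022000000000000000000000000040004000000000000000000000000000000000000000040004000400000000000000000000000400002 := rS 0x672f8855295349958a75 (k8 c18354 c18348 c18353 c18347 c5446 c5531 c5528 c1054 (k2 c18387 c18020 k0)) (by decide +kernel)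
def c19263 : PP 9 3 T 0x2000020000000000000000000000004000200000000000000000000000000000000000000000000000000000000000000000000000010 := rS 0x3cdee3a7abc03e1d01005f831439ac6a973b88d3a214cfb437de0bd2f6859 (k8 c18352 c19260 c9578 c5433 c19194 c19204 c17700 c5530 (k8 c5528 c5412 c5409 c5493 c5452 c5450 c5523 c5373 (k8 c5434 c19261 c19262 c5642 c263 c1111 c17904 c2337 (k4 c18438 c499 c448 c5657 k0)))) (by decide +kernel)
def c19264 : PP 9 3 T 0x2000020000000000000000000000000000200000000000000000000000000000000000000000000000000000000000000000000000010 := rS 0x672f800061c2dbc6741b4a85c62354b9dfbc6932b14ea59 (k8 c18352 c18354 c18348 c18353 c18347 c19194 c5493 c5452 (k8 c5450 c5434 c5433 c5446 c19204 c19263 c5323 c5474 (k4 c17904 c263 c5642 c1054 (k2 c663 c18020 k0)))) (by decide +kernel)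
def c19265 : PP 9 3 T 0x20000000000000000000000004000200000000000000000000000000000000000000000000000080000000000000000000000012 := rS 0x1ec6852f2463439dfbc2154ed3625f0b9840e85 (k8 c18349 c5432 c661 c5433 c1054 c19264 c19260 c5531 (k8 c5528 c19194 c5493 c5373 c777 c5663 c13294 c17747 (k2 c18387 c5501 k0))) (by decide +kernel)
def c19266 : PP 9 3 T 0x40000220000000000000000000040004000200000000000000000000000000000000000000000000000000000000000000000010000012 := rS 0x7156841c249f99f88ab1f72bd9647ac9be268d3983e229147b562a2159ec45203f69b4d6f531254625f0bb252e773081e061e8e8ede41ad9bc5f86743aa76835ef22cb265349d50ac5 (k8 c18348 c18349 c18354 c18347 c18353 c18352 c18350 c19194 (k8 c5450 c19260 c5531 c5373 c19265 c17965 c9696 c18383 (k8 c5649 c1076 c448 c17702 c1075 c4746 c5432 c661 (k8 c5493 c5452 c5494 c5433 c1054 c5434 c10191 c3597 (k8 c2338 c5523 c5529 c17916 c28 c9694 c19264 c5532 (k8 c5528 c5414 c5454 c5526 c5374 c5371 c5369 c5379 (k8 c5381 c5382 c5565 c18388 c12800 c1322 c18030 c5229 (k8 c5506 c5582 c17767 c18955 c450 c3058 c18390 c18389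 (k2 c14640 c14568 k0))))))))) (by decide +kernel)
def c19267 : PP 9 3 T 0x40000020000000000000000000040004000200000000000000000000000000000000000000000000000000000000000000000010000012 := rS 0xe124bfa02b0f9fbd5adf71abc8e4121f884b58d08e46ed569aaf63ed369af2695189840f030f0ede41ad9bc5f86743aa76835ef194d285 (k8 c18349 c18347 c18353 c19194 c5450 c19260 c5531 c5373 (k8 c19265 c17965 c9696 c18383 c5649 c1076 c448 c1075 (k8 c4746 c5432 c661 c5434 c10191 c17866 c5523 c5529 (k8 c17916 c19264 c5413 c5496 c5454 c5435 c5317 c19266 (k8 c5212 c9666 c5236 c5561 c5340 c5562 c1077 c5466 (k8 c5580 c1908 c14662 c17862 c5683 c2143 c14602 c451 (k2 c3012 c17960 k0))))))) (by decide +kernel)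
def c19268 : PP 9 3 T 0x1000000000000080000020000000000000000200000000000200000000040000000000000000000000000000000000000000000000000000000008000012 := rS 0x80bffe68cf79bd5e41218950e3569f78dab3da1c4e6b5 (k8 c5422 c5419 c5571 c19260 c5532 c5529 c19194 c5496 (k8 c5450 c5373 c5559 c5561 c5340 c1077 c1060 c14662 (k4 c18705 c17922 c18659 c2141 (k1 c5694 k0)))) (by decide +kernel)
def c19269 : PP 9 3 T 0x41000000000000000000000000000000000000100040004000000000000000008000000000000000110000000000000050040000000000000000000001002 := rS 0x8e6e7fabd1bee45a24d265 (k8 c18353 c18347 c18356 c18350 c5171 c5505 c5584 c5586 (k2 c3602 c2536 (k1 c18580 k0))) (by decide +kernel)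
def c19270 : PP 9 3 T 0x20000000000000000000040004000200000000000000000000000000000000000000000000000000000000000000000010000012 := rS 0x446fb5c8e433e048ddef70925c7f2ac92d5ab5589cc4e71db0ee3b03313c83c950d0e47e311b8351e354b9dd93ded9bc4be173081df887f699d526dda1acea8932b14d285 (k8 c18349 c18347 c18348 c18353 c18356 c18354 c5523 c19260 (k8 c5529 c5531 c19265 c17916 c5373 c17965 c5432 c661 (k8 c5433 c1054 c9696 c18383 c19194 c5494 c5493 c5452 (k8 c5450 c5526 c5522 c5435 c5434 c5318 c5317 c5649 (k8 c10191 c1075 c1076 c3597 c4746 c17702 c448 c19267 (k8 c5571 c5570 c5419 c5421 c5422 c5573 c2590 c19268 (k8 c19269 c5549 c5588 c5591 c18955 c12200 c1061 c1176 (k4 c2808 c2810 c1549 c2829 (k2 c5658 c10448 k0))))))))) (by decide +kernel)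
def c19271 : PP 9 3 T 0x40000020000000000000000200040004000200000000000000000000000000000000000000000000000000000000000000000000000012 := rS 0xac22b5d5fe258fbce5a18e90486114bb4f67b4d8e4cb61c338ccae071af7862692e9d4b2c5 (k8 c18348 c18352 c18354 c17796 c18347 c5434 c19194 c5450 (k8 c5432 c5313 c5316 c19265 c19270 c1994 c10897 c19264 (k8 c19260 c18383 c5496 c5452 c5558 c5561 c5340 c5341 (k8 c18388 c17749 c14662 c2177 c5236 c1245 c5465 c336 (k2 c5683 c18709 k0))))) (by decide +kernel)
def c19272 : PP 9 3 T 0x40000000000000020000220000000000000000100040000000000000000000084000000000000000000000000000000000040040000000000008004020002 := rS 0x1c4864b48acc52037abf10ea978994d285 (k8 c18349 c18347 c18353 c9696 c5531 c5373 c17965 c2338 (k8 c28 c9694 c5532 c5374 c3699 c2863 c11694 c18413 k0)) (by decide +kernel)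
def c19273 : PP 9 3 T 0x40000020000000000000000000040004000200000000000000000000000000000000000000000000000000000000000000000000000012 := rS 0x1244e10f9abc8ab18e91fdda0ac83e22238aacf66290186cb6f67987043ed369adeafc33a1d53b478994d285 (k8 c18349 c18347 c18353 c9696 c19260 c5531 c5373 c19265 (k8 c17965 c2338 c5523 c5529 c17916 c5528 c19270 c333 (k8 c5657 c1994 c57 c28 c9694 c18383 c5532 c5414 (k8 c5409 c5371 c5369 c19271 c5212 c5229 c12800 c5504 (k8 c5506 c5582 c5584 c18955 c18390 c19272 c10038 c8188 k0))))) (by decide +kernel)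
def c19274 : PP 9 3 T 0x20000000000000000000040004000200000000000000000000000000000000000000000000000000000000000000000000000012 := rS 0x11a133f1f7c6d68e906b0434091742ad5aac4e62738ed8c5932d86c3857198fc0e311e8d52e7769f7842b3d9ec7da6d35bd5f86743aa768f1cc1d58a592e994d285 (k8 c18349 c18347 c18353 c17796 c18352 c18348 c18354 c18346 (k8 c9696 c19260 c5531 c5373 c19265 c17965 c2338 c5523 (k8 c5529 c17916 c19264 c18383 c5532 c5528 c19194 c5496 (k8 c5493 c5452 c5450 c5436 c5434 c5432 c5318 c5316 (k8 c5313 c19270 c57 c1994 c10897 c16365 c19273 c5571 (k8 c5570 c5419 c5421 c5422 c5573 c17731 c335 c937 (k8 c10701 c18903 c5340 c5341 c17979 c5465 c1549 c5670 (k2 c2917 c807 (k1 c17783 k0))))))))) (by decide +kernel)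
def c19275 : PP 9 3 T 0x20000000000000000000000004000200000000000000000000000000000000000000000000000000000000000000000000000012 := rS 0x1bc987e94fc33a1cefde10aa767b4d8a14d265 (k8 c18353 c18347 c18349 c19264 c19260 c18383 c5531 c5528 (k8 c19194 c5493 c5373 c19265 c17965 c19274 c5517 c13294 (k2 c1075 c19256 k0))) (by decide +kernel)
def c19276 : PP 9 3 T 0x2000800000000021000020000000000000000000000004000000000000000000000000000000000000000000000000000004000000000000000015000000 := rS 0x954d978c393689ad2ecf64b353aab4caa4ea85 (k8 c18349 c18354 c5531 c5530 c5413 c5412 c5495 c5494 (k8 c5453 c5452 c5523 c5501 c17747 c18856 c5663 c1119 (k2 c1518 c18006 k0))) (by decide +kernel)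
def c19277 : PP 9 3 T 0x20040000000000000000000004000200000000000008000000000000000000000000000000000000000000000000000000000010 := rS 0x340be601d82c326b1ab3fbc234e884da99d898de01dd9ed0360200a14ca59 (k8 c18352 c18353 c18349 c19275 c5642 c1109 c19260 c18383 (k8 c263 c5649 c9752 c19264 c5530 c5529 c5528 c5412 (k8 c5409 c19194 c5453 c5450 c5523 c5315 c2530 c448 (k4 c18034 c62 c18856 c18904 k0)))) (by decide +kernel)
def c19278 : PP 9 3 T 0x20040000000000000000040004000200000000001000000000000000000000000000000000000000000000000000000000000010 := rS 0x12a9b2f185a2f4798c4d69767b259a9d55a6552f7786cc47ed0e86cc60200ec769de0c9d4ca59 (k8 c18352 c18353 c18354 c5315 c19194 c19260 c19264 c19275 (k8 c5642 c9752 c1109 c263 c19276 c5409 c18383 c5649 (k8 c499 c5531 c5530 c5413 c5412 c5495 c5494 c5453 (k8 c5452 c5523 c5434 c19277 c5657 c1925 c18856 c5663 (k2 c1119 c1518 (k1 c3617 k0)))))) (by decide +kernel)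
def c19279 : PP 9 3 T 0x1000000000000000000020080000000000000000040004000200000000000040000000000000000000000000000000000000000000000000000000000000 := rS 0x760b793d5a0311b8d7bc85 (k8 c18349 c19194 c5450 c5435 c5434 c17747 c1925 c5657 (k2 c2530 c448 (k1 c17770 k0))) (by decide +kernel)
def c19280 : PP 9 3 T 0x20000000000000000000040004000200000000000000000000000000000000000000000000000000000000000000000000000010 := rS 0x1e8fc79e4c3e6b7bbc36623f687436630100763b4ef064ca59 (k8 c18352 c18353 c5315 c19194 c19260 c19264 c19275 c5642 (k8 c9752 c1109 c263 c19276 c5409 c18383 c5649 c499 (k4 c5523 c1111 c19279 c19277 (k2 c19278 c5657 (k1 c2337 k0))))) (by decide +kernel)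
def c19281 : PP 9 3 T 0x20000000000000000000000004000200000000000000000000000000000000000000000000000000000000000000000000000010 := rS 0x340be60c982c774a78074366301004326b67f78469d109b533b3da6c4b265 (k8 c18353 c18352 c19264 c19260 c18383 c5530 c5529 c5528 (k8 c5412 c5409 c19194 c5453 c5523 c5315 c19275 c5642 (k8 c9752 c1109 c263 c5649 c19280 c5332 c5516 c13294 (k4 c18034 c62 c18856 c18904 k0)))) (by decide +kernel)
def c19282 : PP 9 3 T 0x40000020000000000000000000000000000200000000000000000000000000000000000000000000000000000000000000000000000012 := rS 0x2b563ef7f2d4824b57898e04965842b273d00fc7a9169c5442b3d990de61b7ad2cc5931995c0e35ef0c7622901bf10fed3396e74a936ed0d68b42a0cb26932974eac5 (k8 c18348 c18354 c17796 c18353 c18347 c18352 c18355 c18349 (k8 c18350 c5523 c19260 c5529 c5531 c19281 c5474 c663 (k8 c17916 c5373 c17965 c28 c9694 c19264 c5434 c19194 (k8 c5450 c5432 c5313 c5316 c10897 c16365 c18477 c5477 (k8 c5475 c5325 c5478 c18383 c5532 c5528 c5414 c5496 (k8 c5374 c5436 c5318 c14183 c5379 c17561 c18412 c1322 (k8 c3026 c18413 c668 c2988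 c353 c350 c9106 c13510 (k4 c17860 c1335 c2892 c5683 k0)))))))) (by decide +kernel)
def c19283 : PP 9 3 T 0x100040000000000000000000000000000000000000000000000000000000150000000000000450048000000020000000000000000 := rS 0x1187e379f7c68145a24d265 (k8 c18353 c18347 c18356 c18350 c937 c5462 c12625 c1176 (k2 c5670 c3602 (k1 c807 k0))) (by decide +kernel)
def c19284 : PP 9 3 T 0x4000000000000020000020000000000000000000000000000000000000000000000000000000001150000000000000054040000000000000000000000000 := rS 0x100463ffe6b3f69b4d7037e21d528b449a4ca85 (k8 c18349 c18353 c18347 c18356 c18350 c5531 c5373 c17965 (k8 c2631 c5523 c5529 c17916 c5532 c17922 c18659 c3602 (k2 c5694 c2141 k0))) (by decide +kernel)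
def c19285 : PP 9 3 T 0x20000000000000000000000000000200000000000000000000000000000040000000000000000000000000000000000000000012 := rS 0x6bc74fe7c091bbde411f8f5aa776997c2e6738ac56aadd0ed10273db18b265b9d0ccae071af7863b13a964bac5 (k8 c18348 c17796 c18352 c18354 c19264 c5434 c19194 c5450 (k8 c5432 c5313 c5316 c19281 c5474 c10897 c16365 c19282 (k8 c5419 c937 c19260 c17731 c5573 c5422 c5421 c5571 (k8 c663 c5433 c1054 c5496 c5493 c5454 c5436 c5318 (k8 c19283 c17860 c19284 c1061 c1176 c2920 c299 c1549 (k1 c18089 k0)))))) (by decide +kernel)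
def c19286 : PP 9 3 T 0x5000000000000020000020000000000000000000000000000000000000050000000000000000001000000000000000054000000000000000000000000000 := rS 0x3ffe71288a44d68f8a9b56685 (k8 c18349 c5532 c5529 c5414 c5526 c5523 c5374 c5371 (k4 c3604 c17922 c2570 c5694 k0)) (by decide +kernel)
def c19287 : PP 9 3 T 0x20000000000000000000000000000200000000000000000000000000000000000000000000000000000000000000000000000012 := rS 0x1ae418e9fcf81237407deae81a0742b5399c76ded7e188ce5f1f85c7a8735b54ef1536aa769b1c996e74332b81c6bde189d4b26534a14bac5 (k8 c18348 c17796 c18349 c18347 c18353 c18352 c18354 c5434 (k8 c19194 c5450 c5432 c5313 c5316 c19281 c5474 c10897 (k8 c19264 c19260 c5531 c5529 c5414 c5493 c5454 c5523 (k8 c5373 c5436 c5433 c5318 c1054 c663 c16365 c17965 (k8 c17916 c19282 c5571 c5419 c5422 c17731 c937 c2631 (k8 c19285 c5584 c3070 c19286 c1061 c1176 c2920 c299 (k2 c298 c1549 (k1 c18089 k0)))))))) (by decide +kernel)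
def c19288 : PP 9 3 T 0x1000800000000021000200000000000000000000000000000200000000040004000000000000000000000000000000000004000008000000020040000000 := rS 0xb14f2afc68d3eb54ee813aa2d12c5 (k8 c18348 c18356 c18350 c18354 c5380 c5493 c5454 c5566 (k4 c5381 c17987 c5413 c17927 (k2 c12081 c14179 k0))) (by decide +kernel)
def c19289 : PP 9 3 T 0x40000020000000000000000000000000000200000000000000000000000000000000000000000000000000000000000000000000000010 := rS 0x8ff35a2c15bef7f12e06af14125f82513d64ce6f09e8222874888e2ab3d9ec5e2f3a5e4cb6332b81c6bde189ccc7ed0eceb681f01004d68b42a0f305932974eac5 (k8 c18348 c18354 c17796 c18353 c18352 c18346 c18355 c18349 (k8 c18350 c5523 c19287 c5642 c1111 c19260 c19281 c263 (k8 c17757 c9752 c9719 c5434 c19194 c5450 c5432 c5313 (k8 c5316 c5474 c10897 c18477 c5325 c5323 c19264 c18383 (k8 c5532 c5414 c5409 c5374 c5373 c5371 c14183 c5564 (k8 c5565 c14197 c17561 c267 c1113 c17838 c10038 c5651 (k8 c1243 c2632 c19288 c13510 c5586 c2892 c5683 c1335 (k2 c5548 c2345 (k1 c5660 k0))))))))) (by decide +kernel)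
def c19290 : PP 9 3 T 0x20000020000000000000000000000000000000000000000000000000000000001150000000000000054040000000000000000000000000 := rS 0x119ee329a5128b (k4 c18350 c18356 c18347 c18353 (k2 c19284 c3602 (k1 c5505 k0))) (by decide +kernel)
def c19291 : PP 9 3 T 0x80000000000000000000000200000008000000000000000000000000000000000040000000000000000000000000000000000010000000 := rS 0x8e8948a29 (k4 c5417 c5326 c5559 c5341 (k1 c17885 k0)) (by decide +kernel)
def c19292 : PP 9 3 T 0x800000000000000100000000000000000100000008000200000000000000000000000000000000000000000150000000000000000000000000000000 := rS 0x1109a3239e21eb54ef932d8ccae071a8c4b2c5459d5125d (k8 c17796 c18356 c18354 c18350 c18348 c18352 c5434 c5450 (k8 c5432 c5313 c5316 c5474 c10897 c5493 c5454 c5436 (k4 c5670 c17803 c17987 c299 (k2 c701 c12617 k0)))) (by decide +kernel)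
def c19293 : PP 9 3 T 0x80000100000000000000000000000008000000000000000000000000000000000040000000000200000000000000000000000010000241 := rS 0x4744a12089145259 (k8 c18352 c5417 c5326 c699 c1745 c12632 c299 c17885 k0) (by decide +kernel)
def c19294 : PP 9 3 T 0x800000000001000000040000000000000000000000000200000000000001000000000000000000000000000000000001000000000000000004000008 := rS 0x1285e498646617188d52ec931874ea59 (k8 c18352 c18354 c263 c9752 c5494 c5452 c5450 c5434 (k4 c5433 c5316 c5315 c262 (k2 c5663 c3577 (k1 c1518 k0)))) (by decide +kernel)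
def c19295 : PP 9 3 T 0x20000000000000000000000000000200000000000000000000000000000000000000000000000000000000000000000000000010 := rS 0x80fbc90ae8184501593f980fba11489d969f38edbda1f0e98c047300e4c101b2dbc48b3ad88862a23da15c6607189ecd6353bb37bd982cb14ea5d (k8 c17796 c18354 c18348 c18352 c18346 c19194 c5495 c5493 (k8 c5450 c5523 c5372 c5434 c5432 c5316 c5313 c19260 (k8 c5409 c5414 c5528 c19264 c19281 c5326 c5323 c5474 (k8 c5475 c10693 c10897 c19287 c9719 c5642 c9752 c263 (k8 c1111 c17757 c19289 c5571 c5572 c5420 c5570 c5417 (k8 c17731 c18801 c19294 c728 c19250 c19292 c699 c17786 (k4 c19293 c19143 c5584 c3070 (k1 c13257 k0)))))))) (by decide +kernel)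
def c19296 : PP 9 3 T 0x1000000000000014000000000000000000000000000004000000000000000000000000000000000004000000000000000000000000000000000008000000 := rS 0xa97ebd43f4a (k4 c5228 c5517 c5519 c1075 (k2 c1906 c5682 k0)) (by decide +kernel)
def c19297 : PP 9 3 T 0x12000020000000000000000000000004000200000000000000000000000000000000000000000000000000000000000000000010000000 := rS 0x13aa910e8697ec55ecccc5a04869329b4995c66070b8c46e7b43a44f28f1aa5fc27767b37bcf111810eac52c9750a83 (k8 c18355 c18349 c17796 c18352 c18348 c18354 c19295 c9734 (k8 c5811 c19194 c5495 c5453 c5493 c17944 c5452 c5450 (k8 c5526 c5524 c5374 c5373 c5372 c5435 c5434 c5433 (k8 c5432 c5316 c5313 c5444 c5397 c5447 c17904 c311 (k8 c3567 c715 c5487 c2123 c19296 c17743 c19198 c18916 (k2 c1907 c5855 (k1 c17889 k0))))))) (by decide +kernel)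
def c19298 : PP 9 3 T 0x5000000000051000220000000000000000000000000000000000000000000000000000000000000000000000000000000000000000000000000000220 := rS 0x470882c4c1f4fa6cbc6b009bcfbf2 (k8 c5198 c5566 c5565 c53 c5523 c312 c1119 c1522 (k4 c17725 c5813 c718 c2859 (k2 c2865 c17818 k0))) (by decide +kernel)
def c19299 : PP 9 3 T 0x51000220000000000000000000000004000200000000000000000000000000000000000000000000000000000000000000000000000000 := rS 0x55ecc34662d027c7ed3ea3502571981c627b43a44f28f1ab57c27767b37bc043ab14b25d45a250a83 (k8 c18355 c18349 c18356 c18350 c17796 c18352 c18348 c18354 (k8 c19295 c19194 c5495 c5453 c5493 c17944 c5454 c5450 (k8 c5526 c5524 c5374 c5373 c5372 c5434 c5432 c5316 (k8 c5313 c5380 c5381 c5566 c19198 c17987 c19298 c3567 (k4 c715 c716 c5487 c2123 (k1 c19296 k0)))))) (by decide +kernel)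
def c19300 : PP 9 3 T 0x51000120000000000000000000000000000200000000000000000000000000000050000000000000000000040000000000000010000000 := rS 0x6cd62a859bce963a4e07d36992f24810571981c626b3ca3fc27767b3409ef20b4c6bde21d60eac52c9750a83 (k8 c18355 c18349 c17796 c18352 c18348 c18354 c5212 c5561 (k8 c19194 c5450 c5496 c5340 c14662 c19295 c5495 c5453 (k8 c5493 c17944 c5526 c5524 c5523 c5434 c5432 c5316 (k8 c5313 c3567 c311 c312 c1520 c1119 c17725 c5679 (k8 c1694 c5332 c448 c18913 c18950 c2184 c5489 c5683 k0))))) (by decide +kernel)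
def c19301 : PP 9 3 T 0x50000020040000000000000000000004000200000000000000000000000000000040000000000000000000000000000000000010000000 := rS 0x2c3e9b2f1869670f62c157b30d198b437439afc27767b3446631480c224b23fbda63556911afe221907bc331ec76b1a1d8bc408653aa158a83 (k8 c18355 c18348 c18349 c18354 c18353 c19295 c5811 c19297 (k8 c19299 c5212 c5341 c5436 c5316 c19194 c5340 c5561 (k8 c5236 c5465 c17979 c2887 c5450 c5496 c14662 c5562 (k8 c12639 c9667 c54 c9694 c9754 c9734 c5495 c5453 (k8 c5493 c17944 c5523 c5373 c5435 c19300 c715 c716 (k8 c5487 c2123 c5683 c19296 c2180 c17743 c10400 c5663 (k4 c1119 c17725 c718 c17314 k0))))))) (by decide +kernel)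
def c19302 : PP 9 3 T 0x50000020040000000000000000000004000200000000000000000000000000000000000000000000000000000000000000000010000000 := rS 0x15c25d0ec5e204 (k4 c19295 c5811 c19297 c19299 (k2 c9666 c19301 (k1 c10145 k0))) (by decide +kernel)
def c19303 : PP 9 3 T 0x10000020000000000000000000000004000200000000000000000000000000000000000000000000000000000000000000000020000000 := rS 0x3d94b1d2703e9b4cec4bc920416c37b32b8cc0e31359e46be13bb3d9bde00810eac52c9750a83 (k8 c18355 c18349 c17796 c18352 c18348 c18354 c19295 c53 (k8 c19194 c5495 c5453 c5493 c17944 c5450 c5524 c5523 (k8 c5434 c5432 c5316 c5313 c5486 c57 c1995 c3567 (k8 c311 c312 c5444 c1520 c1119 c17725 c5679 c1694 (k2 c5332 c5228 (k1 c18915 k0)))))) (by decide +kernel)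
def c19304 : PP 9 3 T 0x20080000000000000000000004000200000000000000000000000000000000000000000000000000000000000000000000000000 := rS 0xf7f6969a14b2b8cc0e31438d7bcc52c9d4ba85 (k8 c18349 c17796 c18354 c18352 c18348 c19194 c5450 c5373 (k8 c5434 c5432 c5316 c5313 c13294 c17747 c10897 c5501 (k2 c2101 c19279 k0))) (by decide +kernel)
def c19305 : PP 9 3 T 0x800000000090000220000000000000000000000004000000000000000001000000000000000000000000000000040000000000000000000010050000 := rS 0x15c458199c94aaa506b67ed37c4d1a7b43a441a7947f84eecf669c562ad45a24d2653aa158a83 (k8 c18355 c18348 c18349 c18354 c18353 c18347 c18356 c18350 (k8 c5573 c5421 c5571 c5495 c5453 c5493 c17944 c5526 (k8 c5524 c5522 c5374 c5373 c5372 c5381 c5382 c5565 (k8 c19198 c19230 c5649 c5228 c19296 c17919 c2123 c2199 (k2 c461 c3602 (k1 c1078 k0)))))) (by decide +kernel)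
def c19306 : PP 9 3 T 0x2000800000000091000120040000000000000000040000000000000000000000000000000000000040000010000000000000000000000000000000000020 := rS 0x37fe6d6892843ee34e20536992f185a20f43a441a6b3ca5daac969f84eecf6698d3ecb0989c964747844e2653aa158a83 (k8 c18355 c18348 c18349 c18354 c18353 c5571 c719 c5526 (k8 c13598 c12639 c5570 c317 c5420 c5572 c9754 c5495 (k8 c5453 c5493 c17944 c5496 c5494 c5454 c5452 c5524 (k8 c5523 c5522 c5374 c5373 c5369 c5501 c10400 c5663 (k8 c1520 c1119 c1746 c10734 c6448 c17725 c19209 c18090 (k4 c18016 c5547 c2513 c10298 k0)))))) (by decide +kernel)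
def c19307 : PP 9 3 T 0x10000020000000000000000000000004000200000000000000000000000000000000000000000000000000000000000000000000000000 := rS 0xf30f8e9389b4ca48bc080596fc6677eaa765ed578948f4bd084c22ad13acce3b6d8a543a571981c627b359e51e35f09dd9ecdef3c4e6010264ceac52c9750a83 (k8 c18355 c18349 c17796 c18352 c18348 c18354 c19304 c19295 (k8 c53 c9719 c5811 c19194 c5495 c5453 c5493 c17944 (k8 c5450 c5526 c5524 c5523 c5372 c5434 c5432 c5316 (k8 c5313 c19303 c10191 c19297 c19302 c5571 c5574 c5570 (k8 c5573 c719 c317 c19305 c17105 c13598 c12632 c10145 (k8 c19306 c5228 c10768 c5405 c5487 c6601 c715 c19003 (k8 c3567 c19028 c311 c1520 c1119 c10734 c1694 c17725 (k2 c448 c18950 k0)))))))) (by decide +kernel)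
def c19308 : PP 9 3 T 0x42000220000000000000000000000004000200000000000000000000000000000000000000000000000000000000000000000010000000 := rS 0xad65fb849590ba5da7de026ce97b4 (k8 c19307 c9578 c18383 c19295 c19194 c5496 c5452 c5433 (k4 c18516 c18520 c5229 c1090 (k2 c2759 c8156 k0))) (by decide +kernel)
def c19309 : PP 9 3 T 0x42000020000000000000000000000004000200000000000000000000000000000000000000000000000000000000000000000010000000 := rS 0x1f502133f9c0de8c587bd5aaf2090c2225ac684cc5a049853e932b8cc7e07188f46a7769f7835b3da3c408653ab14b25d (k8 c17796 c18352 c18348 c18354 c18353 c19295 c5811 c19307 (k8 c18383 c5649 c19194 c5496 c5493 c5450 c5436 c5434 (k8 c5432 c5318 c5316 c5313 c5444 c5448 c5445 c311 (k8 c3567 c715 c19308 c5212 c9666 c9667 c5561 c5340 (k8 c10145 c1908 c14662 c5683 c5282 c1146 c2180 c807 (k4 c318 c751 c2870 c12613 k0)))))) (by decide +kernel)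
def c19310 : PP 9 3 T 0x61000220000000000000000000040000000200000000000000000000000000000000000000000000000040000000000000000008000000 := rS 0x1248e4b089004cca4fa84bc9279021f85b2b8cc0e3107a1c1a6b1a80442b3059b40913099bfc68d3eb54efde409d58a592ee61128b (k8 c18350 c18356 c18346 c17796 c18352 c18348 c18354 c5380 (k8 c19194 c5493 c5454 c5566 c5381 c17987 c5565 c5564 (k8 c5382 c19295 c5529 c717 c5532 c5528 c53 c5450 (k8 c5523 c5522 c5373 c5369 c5434 c5432 c5316 c5313 (k8 c715 c17838 c3567 c1076 c311 c312 c1121 c1522 (k8 c5680 c5813 c1753 c2859 c353 c2864 c3733 c18049 k0)))))) (by decide +kernel)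
def c19311 : PP 9 3 T 0x1000000000000040000220000000000000000200040004000000000000000040000000000000000040000000000000000080000000000000000008000000 := rS 0x56fbc868d (k4 c5381 c5561 c18434 c1908 (k1 c5282 k0)) (by decide +kernel)
def c19312 : PP 9 3 T 0x41000220000000000000000000040004000200000000000000000000000000000040000000000000000000000000000000000008000000 := rS 0x3458ee13f35fdd596ffce00ff3334d52b3d9bdd57b489fb7c2cf66a3cf291439efc68d3eb54efde40e610a7544a2d8a83 (k8 c18355 c18348 c18350 c18356 c18354 c18349 c18346 c5380 (k8 c19194 c5493 c5454 c5566 c5381 c17987 c5372 c5373 (k8 c5374 c5524 c5526 c5495 c5453 c17944 c19198 c5382 (k8 c19307 c5413 c2103 c18383 c5532 c5531 c5496 c19310 (k8 c13507 c18848 c5592 c2952 c19311 c5229 c5507 c17767 (k4 c3058 c9140 c8355 c18017 k0)))))) (by decide +kernel)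
def c19313 : PP 9 3 T 0x8000800000000000000220000000000000000000000000000000000000000000000000000000000000000000000000000000000000000000000000000000 := rS 0x1a2c76fb8601f33f35cf687489e51ecf66b4e27e3469f5aa7740e610a89419d516c5 (k8 c18348 c18350 c18354 c18355 c18356 c18349 c18346 c5380 (k8 c5493 c5454 c5566 c5381 c17987 c5382 c5496 c5495 (k8 c5453 c5526 c5524 c5374 c5373 c5372 c5507 c17767 (k4 c18955 c18000 c3058 c2952 (k2 c9140 c8355 (k1 c18017 k0)))))) (by decide +kernel)
def c19314 : PP 9 3 T 0x40000220000000000000000000000004000200000000000000000000000000000000000000000000000000000000000000000010000000 := rS 0x57d2c4b58f7f7835b3da3c409b1 (k8 c19309 c19295 c5811 c19307 c18383 c5649 c19194 c19313 (k4 c5229 c5559 c12110 c10145 (k1 c19312 k0))) (by decide +kernel)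
def c19315 : PP 9 3 T 0x40000020000000000000000000000004000200000000000000000000000000000000000000000000000000000000000000000010000000 := rS 0x345fb02f6bfde7f34d920bd13309c0270137ac3dead6babc8243f1096b1a1d883d220d35a3c6a9767b259ad3ef18ce601c9a7532a9059b52a317b86b66f1022af6865 (k8 c18353 c19307 c5413 c19295 c5811 c18383 c5649 c2103 (k8 c5434 c10191 c5529 c717 c5531 c5530 c5412 c19304 (k8 c53 c9719 c9754 c19194 c5496 c5495 c5494 c5453 (k8 c5452 c5450 c5526 c5523 c5522 c5374 c5369 c19309 (k8 c19314 c5212 c9666 c5236 c5561 c5340 c10145 c5465 (k8 c1908 c14662 c5683 c1146 c2143 c318 c5666 c10408 (k8 c755 c5663 c17964 c1119 c5588 c451 c3007 c18006 (k4 c14602 c1076 c2201 c3617 k0)))))))) (by decide +kernel)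
def c19316 : PP 9 3 T 0x2000800000000001000120040000000000000000040000000000000000000000000000000000000005001110000000000004000004000000000000000000 := rS 0x2f268c26b4bb259a65 (k8 c18353 c5495 c5494 c5452 c5523 c10400 c18006 c5663 (k1 c1119 k0)) (by decide +kernel)
def c19317 : PP 9 3 T 0x40001800000000080000000000000000000000200000000000000001400000008000000000080000040000011400000000000000000004000000000045400 := rS 0x285af006fb8c90cb (k8 c5420 c17964 c2619 c2946 c451 c2146 c10309 c17832 k0) (by decide +kernel)
def c19318 : PP 9 3 T 0x150000000000000000000020000000000000000000000004000200000040000000014800000000000000000000000000000000000000000000000010000000 := rS 0xe48cf97ed66198f7c27767b34abef20b4c6a43f6ec6b013138fc32171480e964bd0ed8e6014abc462a94caad3bb4c998c09de3aa158a83 (k8 c18355 c18348 c18349 c18354 c19194 c19295 c9754 c19304 (k8 c19307 c5412 c5413 c5530 c5531 c5434 c5811 c10191 (k8 c53 c9719 c19315 c17731 c12639 c17105 c54 c9694 (k8 c5433 c5315 c5318 c5570 c317 c12635 c17858 c19316 (k8 c5561 c5450 c5496 c5340 c14662 c5343 c5495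 c5453 (k8 c5493 c17944 c5436 c5316 c5172 c5208 c18075 c5641 (k2 c5692 c2625 k0))))))) (by decide +kernel)
def c19319 : PP 9 3 T 0x140000000000000000000020000000000000000000000004000200000040000008014800000000000000000000000000000000000100000000000010000000 := rS 0x1b9b31349f05a3fc066311e83f260b36d2cabb11f8642e2901fbc82d31af788758d0ed0e6010989f6c04 (k8 c19295 c19315 c5570 c317 c53 c9719 c19307 c17731 (k8 c12635 c5561 c19194 c5450 c5496 c5340 c14662 c54 (k8 c9694 c5433 c5315 c5318 c17858 c5343 c17105 c5529 (k8 c717 c19304 c5369 c5436 c5434 c5316 c19318 c5624 (k4 c5628 c452 c2538 c5661 (k2 c17708 c16459 k0)))))) (by decide +kernel)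
def c19320 : PP 9 3 T 0x145000000000000000000000000000000000000000000000000000000080000000000000000000000000000000000000000000000000000000000000000000 := rS 0x3e3f7 (k2 c5598 c5515 (k1 c5208 k0)) (by decide +kernel)
def c19321 : PP 9 3 T 0x140000000000000000000020000000000000000000000004000200040004020008404800000080000000000000100090000000000100000000000010000000 := rS 0x86c9f1b7f92c65db787443cefef20b4c6a43f6ec6b013138fc32171480e964bd0ed8e6014abc462a94caad3bb4c998c09de7dbe5128b (k8 c18350 c18356 c18351 c18357 c19194 c19295 c9754 c19304 (k8 c19307 c5412 c5413 c5530 c5531 c5434 c5811 c10191 (k8 c53 c9719 c19315 c17731 c12639 c17105 c54 c9694 (k8 c5433 c5315 c5318 c5570 c317 c12635 c17858 c19316 (k8 c5561 c5450 c5496 c5340 c14662 c5493 c19320 c19319 (k8 c2671 c1791 c2644 c819 c815 c3324 c812 c2148 (k1 c3615 k0))))))) (by decide +kernel)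
def c19322 : PP 9 3 T 0x40000000000000000000020000000000000000000000004000200004000002000400800000080000000000000100090000000000000200000000010000000 := rS 0x13586e5a33ae1d0dfbfc60ebbfa42ca2e760ae56ef58487876488dc01ff127906b660b36c57c27767b351e0d4883fde41698d487edd8d6026271f8642e2901d2c969518aa532ab4ee4cc7de81abc4ba1da1cc021138ed9e204429d58a83 (k8 c18355 c18348 c18354 c18349 c19295 c5811 c19315 c5571 (k8 c719 c53 c9719 c19307 c17731 c12632 c10145 c2632 (k8 c19194 c9754 c19304 c5412 c5413 c5530 c5531 c5434 (k8 c10191 c12639 c17105 c54 c9694 c5433 c5315 c5318 (k8 c5570 c317 c12635 c17858 c19316 c5561 c5450 c5496 (k8 c5340 c14662 c5369 c5374 c5522 c5526 c5495 c5453 (k8 c5493 c17944 c5414 c5529 c717 c18383 c5649 c1076 (k8 c19317 c2570 c5694 c5041 c9612 c448 c1075 c4775 (k8 c2338 c5533 c5415 c5319 c1782 c613 c3074 c19321 (k8 c5554 c5634 c19159 c7323 c2147 c17844 c2962 c3118 (k4 c2626 c466 c3365 c17827 k0))))))))))) (by decide +kernel)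
def c19323 : PP 9 3 T 0x10000040000000000000000000000051000000000000000000500150000000000000000000000202000000000090000000 := rS 0x42f0791c3c89742a (k8 c2650 c2649 c612 c1102 c3196 c1255 c3017 c3625 k0) (by decide +kernel)
def c19324 : PP 9 3 T 0x140000000000000000000020000000000000000000000004000200040040020008404800000080000000000000100090000000000100000000000010000000 := rS 0x104744299fde (k4 c19194 c5453 c19321 c19319 (k2 c3075 c2584 k0)) (by decide +kernel)
def c19325 : PP 9 3 T 0x40000000000000000000020000000000000000000000004000200000000000000000000010000000000000000100000000040000000000000000010000000 := rS 0xbf7c31b0bfbbb1cc5187c9e1b255ffd62cef711f4fca0b7b5e36488037dff126303cf691bd834f28f6df859ecd8a82cdabd65e17de416990fdbb1ac0fc32171480e964b4aaa532ab4ee4cc66e58ab56b0357894bc81041dc0e332b8c46bde84879e4fc439ac35b378910b61313844e3a1db6d0e601023edf28945a158a833ae60ba59 (k8 c18352 c17796 c18346 c18354 c18355 c18348 c18349 c18350 (k8 c18356 c18351 c18357 c19295 c53 c9719 c19307 c19315 (k8 c17731 c5571 c719 c5570 c317 c715 c17837 c5811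 (k8 c18383 c5649 c5523 c5373 c17838 c1076 c1075 c4775 (k8 c19194 c5450 c5434 c5313 c5316 c5432 c5493 c3567 (k8 c1745 c312 c12632 c10145 c2632 c5422 c5573 c5421 (k8 c19290 c9754 c19304 c5412 c5413 c5530 c5531 c10191 (k8 c12639 c17105 c54 c9694 c5433 c5315 c5318 c12635 (k8 c17858 c19316 c5561 c5496 c5340 c14662 c5423 c5420 (k8 c5575 c5529 c717 c5414 c5495 c5453 c17944 c5455 (k8 c5526 c5524 c5522 c5375 c5374 c5372 c5369 c3607 (k8 c19317 c2570 c2513 c5694 c9612 c5041 c2145 c3796 (k8 c17832 c1122 c2826 c10309 c5018 c19322 c5635 c3080 (k8 c3078 c3457 c3450 c5007 c19323 c19324 c1781 c5639 (k4 c3401 c3263 c5208 c3615 (k1 c5511 k0)))))))))))))))) (by decide +kernel)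
def c19326 : PP 9 3 T 0x40004800000000080000000000000000000000000000000000000000000000000000040420000000040000410000000000000000000000000000000000000 := rS 0x70a5daad3 (k4 c5496 c5454 c5452 c10790 (k1 c8355 k0)) (by decide +kernel)
def c19327 : PP 9 3 T 0x140004000000000000000020000000000000000000000004000200040044000008004800020000000000000000100080000000000100000000000010000000 := rS 0x92c9eff0dc6fd9db066e63fcae8439e7c27767b37bcef7dbe5128b3aa158a83 (k8 c18355 c18348 c18349 c18354 c18350 c18356 c18351 c18357 (k8 c4350 c19194 c5495 c5453 c5493 c17944 c5524 c5373 (k8 c19319 c5472 c1559 c1828 c1829 c1791 c5207 c2926 (k4 c2210 c2151 c812 c5595 (k1 c3615 k0))))) (by decide +kernel)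
def c19328 : PP 9 3 T 0x40004000000000000000020000000000000000000000004000200044040022000000800020000000000000000100080000000000100000000000010000000 := rS 0x10dfbfc60ebbfa45572b7f7905a63521fb763580989c7e190b8a4074b25e876c7300a5462a94caad3b9331f7a121e7906b67b478811cf0b (k8 c3074 c1782 c19295 c5811 c19307 c18383 c5649 c1076 (k8 c1075 c4775 c19194 c9754 c19304 c5412 c5413 c5530 (k8 c5531 c5434 c10191 c53 c9719 c19315 c17731 c12639 (k8 c17105 c54 c9694 c5433 c5315 c5318 c5570 c317 (k8 c12635 c17858 c19316 c5561 c5450 c5496 c5340 c14662 (k8 c5533 c5415 c5414 c19327 c5554 c5634 c19159 c7323 (k2 c2147 c17844 k0))))))) (by decide +kernel)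
def c19329 : PP 9 3 T 0x45000800000000000000000000000000000000000000000000200000080000010000800000000000000000000000000000000000000200400000000000000 := rS 0x4d61b97e94675b046ad3 (k8 c5496 c5450 c5319 c2962 c3118 c19320 c2626 c466 (k2 c3365 c17827 k0)) (by decide +kernel)
def c19330 : PP 9 3 T 0x40004000000000000000020000000000000000000000004000200044040002000000800020000000000000000100080000000000002000000000010000000 := rS 0x28c01e41ad9ed1e204 (k8 c19295 c5811 c19307 c18383 c5649 c1076 c451 c613 (k1 c19328 k0)) (by decide +kernel)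
def c19331 : PP 9 3 T 0x140004000000000000000020000000000000000000000004000200040040004008004800020000000000000000100080000000000100000000000010000000 := rS 0x41a14e8 (k4 c19319 c19327 c1829 c3447 k0) (by decide +kernel)
def c19332 : PP 9 3 T 0x40004000000000000000020000000000000000000000004000200000000000000000000000000000000000000100000000040000002000000000010000000 := rS 0x17ef863617f776398a32786c957ff58b43cfce23eb5a36ffb7c01be91bdb6e2af75ee1562adf7905a643f6ec6b03f0c85c5203a592d2aa94caad3b9331bd606af12a06121e1dbc9f8870d6cde29b2f020ee071995c6235ef1ac885b0989c2271d0edb687300811a0fb7ca251675cc174b2c5 (k8 c18348 c18352 c17796 c18346 c18354 c18350 c18356 c18351 (k8 c18357 c19325 c19295 c53 c9719 c19307 c19315 c17731 (k8 c5571 c719 c5570 c317 c715 c17837 c5523 c19194 (k8 c5450 c5434 c5313 c5316 c5432 c5493 c3567 c312 (k8 c1119 c5811 c18383 c5649 c5373 c17838 c1076 c448 (k8 c1075 c4775 c1745 c12632 c10145 c2632 c2338 c9754 (k8 c19304 c5412 c5413 c5530 c5531 c10191 c12639 c17105 (k8 c54 c9694 c5433 c5315 c5318 c12635 c17858 c19316 (k8 c5561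 c5496 c5340 c14662 c5573 c5421 c5423 c5575 (k8 c2103 c5414 c5455 c5375 c5374 c2946 c451 c3796 (k8 c3007 c5041 c19326 c1549 c2146 c5670 c19329 c19330 (k8 c5635 c3080 c3078 c3457 c3450 c19323 c19331 c1781 (k4 c5639 c3401 c3263 c5208 (k2 c3615 c5511 k0)))))))))))))) (by decide +kernel)
def c19333 : PP 9 3 T 0x40004000000000000000020000000000000000000000004000200000000000000000000000000000000000000100000000040000000000000000010000000 := rS 0xfe891241e9106a3c166df6ec6b03f0c85c5203a592d2a3154a65569dc998fbd037e21cd6af12bc4885b0989c2271d0edb6873008110b98 (k8 c18346 c18349 c19295 c53 c9719 c19307 c19315 c17731 (k8 c5571 c719 c5570 c317 c715 c17837 c5811 c12632 (k8 c10145 c5523 c5373 c17838 c2632 c19194 c9754 c19304 (k8 c5412 c5413 c5530 c5531 c5434 c10191 c12639 c17105 (k8 c54 c9694 c5433 c5315 c5318 c12635 c17858 c19316 (k8 c5529 c717 c5526 c5522 c5374 c5369 c19332 c17964 (k2 c9612 c2570 k0))))))) (by decide +kernel)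
def c19334 : PP 9 3 T 0x80000000000000000000120000000000000000200000000000200000000000000000000000000000000000000000000000000000000400400000000000400 := rS 0x124ae37 (k4 c5435 c5313 c5588 c18062 k0) (by decide +kernel)
def c19335 : PP 9 3 T 0x45000000000000000000020000000000000000200000000000000000000050008000000000000000000000000000000000000000000000000000000040400 := rS 0x893f8920f488351e85 (k8 c18349 c5526 c5522 c5374 c5369 c451 c5694 c17964 (k1 c2570 k0)) (by decide +kernel)
def c19336 : PP 9 3 T 0x8800000000080000000000000000000000000000000000000000000000000000000000000000040000010000000000000000000000000000000000000 := rS 0x285aecb (k4 c5420 c5465 c5578 c17832 k0) (by decide +kernel)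
def c19337 : PP 9 3 T 0x20000000000000000000000004000200000000000000000000000000000000000000000000000040000000000000000010000000 := rS 0x11900f98ede5037e21cd60b3686b664747fbc82d31a90fdbb1ac04c4e3f0c85c5203a592d529955a772663f1abc4ba1da1cc021138ed92af1020c7bd98 (k8 c18346 c19194 c5434 c19295 c5811 c10191 c19315 c5571 (k8 c719 c53 c9719 c19307 c17731 c12632 c10145 c19336 (k8 c9754 c19304 c5412 c5413 c5530 c5531 c12639 c17105 (k8 c54 c9694 c5433 c5315 c5318 c5570 c317 c12635 (k8 c17858 c19316 c5561 c5450 c5496 c5340 c14662 c5526 (k8 c13598 c18383 c5649 c5529 c717 c5523 c5373 c17838 (k4 c2632 c1076 c448 c19334 (k2 c19335 c19333 (k1 c2141 k0))))))))) (by decide +kernel)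
def c19338 : PP 9 3 T 0x20000000000000000000000004000200000000000004000000000000000000000000000000000000000000000000000010000000 := rS 0x5f30a698cd17a3f4d697679dd92cd36bdfdbb1ac04c4e3f0c85c5203a592f43b6398052a3154a65569dc998fbc5a3306b67b478810ea85 (k8 c18349 c18354 c19295 c5811 c19307 c18383 c5649 c19337 (k8 c1902 c19194 c9754 c19304 c5412 c5413 c5530 c5531 (k8 c5434 c10191 c53 c9719 c19315 c17731 c12639 c17105 (k8 c54 c9694 c5433 c5315 c5318 c5570 c317 c12635 (k8 c17858 c19316 c2103 c5529 c5495 c5494 c5493 c5453 (k8 c5452 c5523 c1076 c5657 c1925 c16025 c3617 c726 (k2 c1119 c5663 k0))))))) (by decide +kernel)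
def c19339 : PP 9 3 T 0x40000000000000000000020000000000000000000000004000200004000001000000000000000000000000000000000000000000000000000000010000000 := rS 0x21bf7f8c1d77f428b9d72b7f1bfd1a8768424fc07078e46e5787b89accb4fab562af12b7c76f58d910901f23a3c22715a88e2ab3108360103797b7623f0c85c5203a592d2af118aa532ab4ee4cc7ef20b4c6bde21d6342730084c4fb6059b76804 (k8 c19295 c19307 c5529 c717 c19315 c5570 c317 c53 (k8 c9719 c17731 c12635 c5561 c19194 c5450 c5496 c5340 (k8 c14662 c9754 c19304 c5412 c5413 c5530 c5531 c5434 (k8 c5811 c10191 c12639 c17105 c54 c9694 c5433 c5315 (k8 c5318 c17858 c19316 c19338 c2627 c19335 c5522 c5528 (k8 c5532 c5414 c9734 c5422 c5571 c719 c5526 c13598 (k8 c2532 c18694 c450 c5041 c121 c448 c2952 c12632 (k8 c10145 c5421 c5573 c5572 c5420 c18091 c2146 c19329 (k8 c5313 c5435 c5317 c5369 c5432 c14867 c4586 c2145 (k8 c5373 c2141 c178 c19336 c5533 c5415 c1782 c613 (k4 c19331 c5554 c5634 c19159 (k2 c7323 c2147 (k1 c17844 k0))))))))))))) (by decide +kernel)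
def c19340 : PP 9 3 T 0x101000000000000020000000000010000040000000000000000000000051000000000000000000500150000000000000000000000202000000000008000000 := rS 0x30f0bc1e460b22a38b55621 (k8 c5528 c5413 c362 c3738 c612 c2579 c1911 c1080 (k2 c3017 c10670 (k1 c3625 k0))) (by decide +kernel)
def c19341 : PP 9 3 T 0x40000000000000000000020000000000000000000000004000200000000001000000000000000000000000000000000000000000000000000000010000000 := rS 0xbf7c31b0bfbbb1cc5193c364abffac59031b879f889096838890d60f95c72071b83d237b06b6c471510acd3ebd65e1562b55691d1fe3578942271b799835b37a8edfe8d43b7e0103797b7623f0c85c5203a592d2af118aa532ab4ee4cc7ef208d48758d09cc021313ed8166dda011a7de7dbe5128b (k8 c18350 c18356 c18351 c18357 c19194 c5496 c19295 c19307 (k8 c5529 c717 c19315 c5570 c317 c53 c9719 c17731 (k8 c12635 c5561 c5450 c5340 c14662 c9754 c19304 c5412 (k8 c5413 c5530 c5531 c5434 c5811 c10191 c12639 c17105 (k8 c54 c9694 c5433 c5315 c5318 c17858 c19316 c19338 (k8 c2627 c19335 c2952 c5373 c2141 c178 c448 c121 (k8 c18383 c5649 c19337 c4560 c5571 c719 c12632 c10145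 (k8 c19336 c5526 c13598 c5573 c5422 c5421 c5423 c5420 (k8 c5575 c5572 c5532 c5528 c5414 c9734 c5455 c5522 (k8 c5375 c5374 c5369 c5435 c5432 c5317 c5313 c2532 (k8 c18091 c18694 c2146 c2145 c4586 c450 c14867 c19329 (k8 c5041 c194 c19339 c5635 c3080 c3078 c3457 c3450 (k8 c19340 c19331 c1781 c5639 c3401 c3263 c5208 c3615 (k1 c5511 k0)))))))))))))) (by decide +kernel)
def c19342 : PP 9 3 T 0x40000000000000000000020000000000000000000000004000200000000000000000000400000000000000000000000000000000002000000000010000000 := rS 0xbf7c31b0bfbbb1cc5193c364abffac59de6e2f18502c6879f9a2e23eb8540571c81c6e0f3da46f6796df84eecf66c557acbc2ac55be3578942271b7999ea3b46a1dbf090f3f035b38d9120103797b7623f0c85c5203a592d2af118aa532ab4ee4cc7ef20b4c6bde21d6342730084c4fb6059b768047dbe5128b62a150675 (k8 c18354 c18355 c18349 c18348 c18350 c18356 c18351 c18357 (k8 c19295 c19307 c5529 c717 c19315 c5570 c317 c53 (k8 c9719 c17731 c12635 c5561 c19194 c5450 c5496 c5340 (k8 c14662 c9754 c19304 c5412 c5413 c5530 c5531 c5434 (k8 c5811 c10191 c12639 c17105 c54 c9694 c5433 c5315 (k8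 c5318 c17858 c19316 c19338 c2627 c19335 c450 c5041 (k8 c18383 c5649 c19341 c1075 c4775 c2952 c5373 c2141 (k8 c448 c121 c19337 c4560 c5571 c719 c12632 c10145 (k8 c19336 c5573 c5421 c5423 c5420 c5575 c5414 c5495 (k8 c5453 c5493 c17944 c5455 c5524 c5375 c5374 c5372 (k8 c5369 c5435 c5432 c5317 c5313 c17832 c3060 c2826 (k8 c10309 c8355 c14867 c19329 c3607 c194 c17682 c5663 (k8 c1121 c5018 c19322 c5635 c3080 c3078 c3457 c3450 (k8 c19323 c19324 c1781 c5639 c3401 c3263 c5208 c3615 (k1 c5511 k0))))))))))))))) (by decide +kernel)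
def c19343 : PP 9 3 T 0x40000000000000000000020000000000000000000000004000200000000000000000000000000000000000000000000000000000002000000000010000000 := rS 0x2fdf0c6c2feeec731464f0d92affeb1640c3cfcd07135a36442b8e40e3707a46f6db8aaf70ab156f8d5e25089c6de667a8edfe8d8040fdbb11f8642e2901d2c969518aa532ab4ee4cc7ef20b4c6bde21d6342730084c4fb6059b50f090f3f035b3da3c408f27dbe5128b (k8 c18350 c18356 c18351 c18357 c19338 c19295 c5811 c19307 (k8 c18383 c5649 c19341 c1075 c4775 c5373 c5529 c717 (k8 c19315 c5570 c317 c53 c9719 c17731 c12635 c5561 (k8 c19194 c5450 c5496 c5340 c14662 c9754 c19304 c5412 (k8 c5413 c5530 c5531 c5434 c10191 c12639 c17105 c54 (k8 c9694 c5433 c5315 c5318 c17858 c19316 c2627 c19335 (k8 c2141 c178 c448 c121 c19337 c4560 c5571 c719 (k8 c12632 c10145 c19336 c5573 c5421 c5423 c5575 c5414 (k8 c5455 c5375 c5374 c5369 c5435 c5432 c5317 c5313 (k8 c450 c5041 c19342 c2146 c2145 c14867 c19329 c194 (k8 c19330 c5635 c3080 c3078 c3457 c3450 c19323 c19331 (k4 c1781 c5639 c3401 c3263 (k2 c5208 c3615 (k1 c5511 k0)))))))))))))) (by decide +kernel)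
def c19344 : PP 9 3 T 0x1000800000000000000000000000000040000000040004000200000001000000000000000000000000000010000000000000800200000000000090000000 := rS 0x1baa5c1e454f8751fc1742afad9c2fad4bb6d92d9 (k8 c5497 c5494 c5455 c5452 c5437 c5433 c5350 c5552 (k8 c2650 c2649 c5172 c3193 c1102 c1099 c3196 c1255 (k2 c4022 c5513 (k1 c3619 k0)))) (by decide +kernel)
def c19345 : PP 9 3 T 0x40000000000000000000020000000000000000000000004000200004000000000000000000000000000000000000000000000000000000000000010000000 := rS 0x9ac37293dd3af763afe90e85b9d83adf1abc4a1138a350e7d77b4236c68923d220d28978c27e713588a49198f63ab18040fded32181c820f1c8dc166d2b8ec6b0979079f96f3306b67edd8d6026271f8642e290192d529955a772663a5e87687300ed92af1020c7bc75 (k8 c18354 c19194 c5434 c19295 c5811 c10191 c19315 c53 (k8 c9719 c19307 c17731 c17105 c9754 c19304 c5412 c5413 (k8 c5530 c5531 c12639 c54 c9694 c5433 c5315 c5318 (k8 c5570 c317 c12635 c17858 c19316 c18383 c5649 c19337 (k8 c4560 c19341 c1075 c19338 c4775 c5450 c448 c5313 (k8 c5529 c717 c5435 c5317 c5369 c5340 c5432 c5561 (k8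 c5496 c14662 c2627 c19335 c5421 c2161 c5436 c5316 (k8 c19343 c3066 c17979 c2146 c14867 c17682 c5663 c19344 (k8 c5522 c5374 c5526 c17964 c809 c4788 c2145 c4350 (k8 c1549 c5373 c2141 c5571 c719 c12632 c10145 c19336 (k8 c5437 c5319 c1782 c3074 c19328 c19321 c2962 c2253 (k4 c4378 c5555 c5630 c2626 (k2 c1783 c2539 (k1 c3591 k0)))))))))))))) (by decide +kernel)
def c19346 : PP 9 3 T 0x40000000000000000000020000000000000000000000004000200000000000000000000000000000000000000000000000000000000000000000010000000 := rS 0x2fdf0c6c2feeec7343e4f0d92fd62c518d9798c61409f9a0e26b116244984879f88d7fc00ae331c81c6e3d07a1d237b06a3db60b36c7563ef20b4c87edd8d6026271f8642e2901d2d529955a772663f1abc4a1138a54636f3306b66f11d8d7bd037912f43b6da1cc02047dbe5128b (k8 c18350 c18356 c18351 c18357 c19295 c53 c9719 c19307 (k8 c19315 c17731 c12639 c19338 c2627 c19194 c5450 c448 (k8 c5811 c18383 c5649 c19337 c4560 c5434 c10191 c5571 (k8 c719 c12632 c10145 c19336 c9754 c19304 c5412 c5413 (k8 c5530 c5531 c17105 c54 c9694 c5433 c5315 c5318 (k8 c5570 c317 c12635 c17858 c19316 c5561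 c5496 c5340 (k8 c14662 c5421 c2161 c5529 c717 c5455 c5526 c5522 (k8 c5375 c5374 c5373 c5369 c5436 c5435 c5432 c5317 (k8 c5316 c5313 c19335 c178 c2141 c19341 c1075 c4775 (k8 c19343 c17964 c3066 c17979 c2146 c2145 c14867 c194 (k8 c17682 c809 c5663 c4788 c19344 c19345 c5635 c3078 (k8 c3457 c3450 c3085 c19331 c1781 c5639 c3401 c3263 (k2 c5208 c3615 (k1 c5511 k0)))))))))))))) (by decide +kernel)
def c19347 : PP 9 3 T 0x20000000000000000000000004000200000000000000000000000000000000000000000000000000000000000000000010000000 := rS 0xf90ede5582384c23a1139c76c8f1af78e601059b76804 (k8 c19295 c19307 c5529 c717 c53 c9719 c19194 c5450 (k8 c5526 c19315 c5571 c5570 c17731 c719 c317 c13598 (k4 c12635 c19338 c448 c19346 (k1 c19334 k0)))) (by decide +kernel)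
def c19348 : PP 9 3 T 0x800000000020000220000000000000000000000004000000000000000000000000000000000000000000000000000000000000000000000000000220 := rS 0x81586527fc7efdb9f4de8d6a9dce601d9a05245e62a2cea89 (k8 c18356 c18354 c18350 c18348 c312 c311 c4283 c18383 (k8 c53 c9719 c5493 c5454 c5381 c5565 c5566 c17731 (k4 c19313 c17987 c1522 c5711 (k2 c5229 c1753 (k1 c5340 k0))))) (by decide +kernel)
def c19349 : PP 9 3 T 0x40000020000000000000000000000004000200100000000000000000000000000000000000000000000000000000000000000000000000 := rS 0x70a7d6afe57111bed765905c6a1f11fc7a796ae4d3b154cacf62814926cbc6b2191d1e11d0820ee071995c6235ef40decf554d2cb60179887da1b0e01369982e9658a75 (k8 c18354 c18348 c18352 c17796 c18346 c19307 c19295 c19347 (k8 c57 c18923 c5528 c333 c53 c1995 c17728 c5531 (k8 c1998 c5657 c2195 c19194 c5450 c5434 c5313 c5316 (k8 c5432 c5493 c3567 c19348 c15516 c5526 c13598 c2108 (k8 c5523 c312 c1119 c311 c4283 c5444 c5532 c5530 (k8 c5414 c5412 c19304 c5454 c5524 c5436 c18926 c5236 (k8 c1122 c17330 c5462 c5464 c5465 c5580 c17979 c336 (k4 c504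 c1249 c2990 c3012 (k1 c3620 k0))))))))) (by decide +kernel)
def c19350 : PP 9 3 T 0x20000000000000000000000004000200000000000000000000000000000000000000100000000000000000000000000000000000 := rS 0x450989f6d1d08e84105b0e004ee071995c6235da77809982e9658a75 (k8 c18354 c18348 c18352 c17796 c18346 c19295 c19194 c19307 (k8 c5450 c5434 c5313 c5316 c5432 c5493 c53 c19347 (k8 c1995 c3567 c19348 c15516 c13277 c19349 c5570 c317 (k2 c335 c17837 k0)))) (by decide +kernel)
def c19351 : PP 9 3 T 0x40000000000000000000020000000000000000000000004000200000000000000000000000000000000000000000000000000000000000000000000000000 := rS 0x1208a138989dfdb681c76b00f48834166d7b3d5534b79887da1b2591d1e11d0820b61c009dc0e332b8c46bb4ef013df014621d0a5d2cb14eb98 (k8 c18346 c18354 c18348 c18352 c17796 c18349 c5373 c19350 (k8 c2141 c5505 c19295 c19194 c19307 c5450 c5434 c5313 (k8 c5316 c5432 c5493 c53 c19347 c1995 c3567 c19348 (k8 c15516 c5526 c13598 c12639 c57 c18923 c5528 c333 (k8 c17728 c5531 c1998 c5657 c5529 c717 c5522 c5374 (k8 c5369 c5171 c5341 c2195 c19349 c5694 c5570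 c2570 (k4 c317 c335 c12614 c13257 k0))))))) (by decide +kernel)
def c19352 : PP 9 3 T 0x20000000000000000000000004000200000000000000000000000000000000000000000000000000000000000000000000000000 := rS 0x1b78e898244989fc88e1125e8696087996c380b3688768571981c620f06a3c6a77ef00409983ab14b25d (k8 c17796 c18352 c18348 c18354 c18346 c19295 c53 c19194 (k8 c5493 c5450 c5526 c5522 c5369 c5434 c5432 c5316 (k8 c5313 c19307 c5528 c5529 c717 c19347 c1995 c333 (k8 c3567 c17728 c19348 c12639 c15516 c13598 c19351 c5547 (k4 c5588 c18049 c317 c3668 (k2 c5570 c19349 k0)))))) (by decide +kernel)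
def c19353 : PP 9 3 T 0x200000000000000000000000008000000000000000000000000000000000000000000000000000000000000000000008010000001 := rS 0x11d08a2cb25d (k4 c17796 c18352 c18350 c2859 (k2 c351 c12681 k0)) (by decide +kernel)
def c19354 : PP 9 3 T 0x120000000000000000000000000000200000000000000000000000000000000000000000000000000000000000000000000000000 := rS 0x7c6b1fe3a4146560262708ed87a4322e4cb63518ec524089d15c66073bf780875cc1658a5d (k8 c17796 c18348 c18352 c18346 c18354 c19295 c19194 c5493 (k8 c5432 c5316 c5313 c19352 c10693 c311 c5444 c5434 (k8 c5450 c5474 c10897 c5326 c5478 c5436 c14183 c15516 (k8 c5570 c317 c12635 c17837 c5340 c5341 c807 c17979 (k2 c19250 c1549 k0))))) (by decide +kernel)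
def c19355 : PP 9 3 T 0x5005000000000040000220000000000000000000000008000000000000000000000000000000000000000000000000000000000000000000000000000220 := rS 0x2c16afc25c70ce218a8444bb41321cd601118a40645a5ec5246faca7cfa5ecc22cb25d (k8 c17796 c18352 c18350 c18346 c312 c5566 c1522 c17561 (k8 c5565 c311 c5444 c18477 c5326 c54 c9694 c9734 (k8 c53 c5523 c5373 c5813 c19298 c60 c2859 c5414 (k8 c5528 c17220 c12681 c353 c17838 c18411 c352 c1335 k0)))) (by decide +kernel)
def c19356 : PP 9 3 T 0x20000000000000000000000000000200000000000000000000000000000000000000000000000000000000000000000000000000 := rS 0x19c92f655081fb1c0fa7023b556ac4e3b6f1fbfda7d46e81369940ec4bc920452c365b79ce8e62300813c2cd3bb559e97ef23cf26b06a450e7b2b8cc0e1742974b28b629d51283 (k8 c18355 c18356 c18354 c18348 c18350 c18352 c17796 c18349 (k8 c5433 c5432 c5316 c5313 c5372 c5373 c5374 c5522 (k8 c5523 c5524 c5526 c19194 c5452 c5453 c5454 c5493 (k8 c5495 c17944 c19295 c53 c9734 c9719 c19352 c5325 (k8 c5474 c5475 c18477 c10693 c311 c312 c5444 c4283 (k8 c1520 c1119 c19354 c5381 c5566 c19198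 c19313 c17987 (k8 c19355 c5571 c5421 c5573 c17731 c719 c10734 c17725 (k8 c12681 c1239 c5855 c13322 c10900 c3693 c2123 c19242 k0)))))))) (by decide +kernel)
def c19357 : PP 9 3 T 0x4000000000000000001000000000000000000000080000000000000000000000000000010400000 := rS 0x37b3 (k2 c5404 c1073 (k1 c5649 k0)) (by decide +kernel)
def c19358 : PP 9 3 T 0x2000000000000058000200000000000000000000000000000000000000000000000000000000001000000000000000010040000000000000000000000000 := rS 0xb38aa4160a957ab4e68d37a3d0eabf9a0d166534e611285 (k8 c18349 c18356 c18346 c18347 c18353 c18350 c18355 c17809 (k8 c5500 c5499 c5568 c5565 c5381 c5379 c5490 c5406 (k4 c5489 c17895 c14684 c1294 (k2 c2896 c5685 k0)))) (by decide +kernel)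
def c19359 : PP 9 3 T 0x2000000000000052000210000000000000000000000004000000000000001001000000010040001000000040000000010040400000000000000010000000 := rS 0x4e1e3c2a90d6ccf6cf55a1deb4a31b253699c99d92a833ab14ca69 (k8 c18347 c18353 c18348 c18354 c18355 c5446 c18020 c5356 (k8 c5447 c5397 c5396 c5395 c5211 c5519 c5499 c5500 (k8 c5543 c889 c19358 c5649 c1906 c18012 c5669 c9899 (k1 c1537 k0)))) (by decide +kernel)
def c19360 : PP 9 3 T 0x2000200000000000000000000000000000000000000000000000000200000000000000040000000010000400000000000000000000000 := rS 0x32cfe73409bcfa9f5098cc28b (k8 c18350 c5445 c5395 c5398 c5448 c5566 c5565 c5380 (k4 c5379 c2998 c1660 c3599 k0)) (by decide +kernel)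
def c19361 : PP 9 3 T 0x2000000000000000000000000080000000200000000000000000140000000001028000000000000000000000000000000000008000000 := rS 0x1c64b20ac84c3b2491d2699 (k8 c5447 c5444 c5520 c5334 c5332 c1909 c2128 c349 (k2 c354 c2458 (k1 c17934 k0))) (by decide +kernel)
def c19362 : PP 9 3 T 0x4400000000052000200000000000000000000000004000200000000000000000000000000000000000000000000000000000000000000000010010002 := rS 0x3df59570915ae16f9ed9aaa0d6cd62d5f6b5f26764bb45fab5639c4cf102fbc42e73469bcfa8fa5674c6c94aa2d126932b173075 (k8 c18354 c18346 c18348 c18353 c18347 c18356 c18350 c5446 (k8 c5396 c5395 c19356 c5211 c5568 c5566 c5565 c5381 (k8 c5379 c5433 c9696 c1054 c17791 c664 c667 c796 (k8 c1340 c1238 c17698 c19357 c18020 c5356 c2187 c19359 (k8 c19360 c15326 c17895 c5649 c19296 c2075 c11210 c14796 (k4 c10249 c19361 c18461 c3602 (k2 c5559 c5584 (k1 c5229 k0)))))))) (by decide +kernel)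
def c19363 : PP 9 3 T 0x2000200000000000000000200080000000200000100000000000000000080000000000000000004000000000000000000005000005000 := rS 0xe06524082290c8fc2e3d8984d1e4905a4d3ea1 (k8 c5398 c5448 c5444 c5516 c5334 c5568 c5564 c5382 (k8 c5436 c5433 c5318 c5315 c5339 c5340 c17964 c3579 (k2 c801 c17738 k0))) (by decide +kernel)
def c19364 : PP 9 3 T 0x2000400000000002000000040000000000000000080004000200000000000001000000000000000000000000000000000000000000000000000010000008 := rS 0x79639b01820d90e5929b30a643665 (k8 c18353 c1109 c5447 c5445 c5397 c5396 c5317 c5649 (k4 c18673 c265 c266 c2480 (k2 c2428 c18101 k0))) (by decide +kernel)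
def c19365 : PP 9 3 T 0x6004400000000044000000000000000000000200080000000000000000000004000000400800000100002000000000000000000000004000000000000000 := rS 0x1c7028a91558d257bdc92f523c05fed5 (k8 c1661 c5544 c5502 c5520 c5519 c5334 c5333 c1247 (k4 c5689 c5683 c2936 c3052 (k2 c18038 c1778 (k1 c2088 k0)))) (by decide +kernel)
def c19366 : PP 9 3 T 0x46004400000000052000000000000000000000000000004000200000000000006000000000000000000000000000000000000000000000000005000000000 := rS 0xb38aad55cde1aab5acca5890453580c8fc623d7b925ea934fa85369568b3dffb34e0847217a508f3a99 (k8 c5447 c19356 c9733 c5211 c5433 c5317 c431 c17923 (k8 c5401 c5544 c5543 c5501 c5446 c5397 c5398 c5448 (k8 c5444 c5519 c5334 c5333 c5436 c5434 c5318 c5315 (k8 c5229 c5339 c5340 c1330 c3579 c19365 c2032 c1763 (k4 c16068 c5683 c2514 c2950 (k2 c2992 c5685 k0)))))) (by decide +kernel)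
def c19367 : PP 9 3 T 0x2004400000000052000200000000000000000000000004000200000100000006000000000000000000000000000000400000000000000000005000000000 := rS 0x1fda6c7701a96915598a12159f727042390b88d028d899f51f4acea6d328780fcd12c53aa15068b (k8 c18350 c18355 c18349 c18354 c18348 c18356 c17809 c5502 (k8 c5499 c5447 c5397 c19356 c5211 c5568 c5566 c5382 (k8 c5381 c5380 c9733 c5433 c5317 c431 c17923 c19366 (k8 c14774 c18000 c5651 c2897 c1289 c5685 c17733 c1343 (k4 c2482 c3062 c3059 c17990 k0))))) (by decide +kernel)
def c19368 : PP 9 3 T 0x2004400000000052000200000000000000000000000004000200000100000004000000000000000000000000000000400000000000000000000010000008 := rS 0x64b64f1a5674362709894de65 (k8 c18353 c5565 c1113 c5564 c267 c1109 c19356 c5211 (k4 c19367 c5649 c19364 c18631 k0)) (by decide +kernel)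
def c19369 : PP 9 3 T 0x12000000000000000000000200000000000200000000000000000140000000001000001000000000000000000000000000000000000000 := rS 0x1c64b20864723f1e926959d (k8 c19356 c5211 c5334 c5436 c5318 c5317 c5315 c5340 (k2 c5342 c14790 (k1 c17954 k0))) (by decide +kernel)
def c19370 : PP 9 3 T 0x400000000052000200000000000000000000000004000200000000000005000000000000000000000000000000400000000000000000000010000018 := rS 0x40dfe9180ac89515145653adff0384f2873db1d6a6c35830bc20c9aa4ceadd925c721711a36267d47d2b3a954c86c4e13129bf3083349958a75 (k8 c18354 c18348 c18353 c18347 c18355 c18346 c5565 c1113 (k8 c5564 c267 c1109 c5447 c5446 c19356 c5211 c5568 (k8 c5566 c5382 c5381 c9733 c5433 c5317 c19357 c5649 (k8 c5490 c5487 c5489 c18631 c18673 c18020 c265 c2372 (k8 c266 c2609 c2480 c1687 c744 c2428 c10249 c5669 (k8 c14796 c5458 c19369 c5651 c1289 c540 c541 c15060 (k4 c747 c2568 c2460 c18001 k0))))))) (by decide +kernel)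
def c19371 : PP 9 3 T 0x2000200040000000000000200080000000200000100000000000000000000000000000000000000002000000000000000005100004000 := rS 0x63034f661f09e538390b88f3a99 (k8 c5447 c19356 c9733 c5433 c5317 c17923 c1538 c5458 (k4 c5445 c742 c2426 c5669 (k1 c19363 k0))) (by decide +kernel)
def c19372 : PP 9 3 T 0x4000000000052000200040000000000000200000000000200000100000000000000000000000000000000000000000000000000000000005100014000 := rS 0xe15a38c12c78aaccf46a36b2896411495c323f038f502133ea3c3e3b24a4d3ea14da707217a508f3a99 (k8 c5447 c19356 c9733 c5211 c5433 c5317 c17923 c5397 (k8 c5398 c5448 c5444 c5334 c5332 c9664 c5568 c5566 (k8 c5564 c5380 c5436 c5432 c5318 c5315 c5313 c5339 (k8 c5340 c5342 c3579 c19371 c5665 c8792 c2377 c4031 (k4 c2482 c1684 c1775 c18060 (k2 c12655 c17920 k0)))))) (by decide +kernel)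
def c19373 : PP 9 3 T 0x9000000000000014000200000000000000000000000000000000001000000000000000000000000004000000000000002000000000000000000000000000 := rS 0x401509143bf51b1347a250a83 (k8 c18355 c18349 c18356 c5568 c5382 c5381 c2552 c745 (k4 c747 c5682 c18000 c2027 k0)) (by decide +kernel)
def c19374 : PP 9 3 T 0x8000000000000000000200000000000000000000000000000000000000000000000200001040000000000000000000400000000000000000000000000000 := rS 0x3fb4d028d3ea258a75 (k8 c18354 c18348 c18356 c5566 c5381 c5380 c3063 c3059 (k1 c17990 k0)) (by decide +kernel)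
def c19375 : PP 9 3 T 0x1000000000000054000210000000000000000100000004000000000100000000000000000000000004002400000000400000000000000000005000000000 := rS 0xd33fc0523f25ab859ad07e31d527a351b62ad56b8a3dc2340a34fac5449d51683 (k8 c18355 c18350 c18354 c18356 c18348 c5566 c5381 c5380 (k8 c9733 c5229 c5651 c5507 c5585 c1289 c19373 c5665 (k8 c8792 c2375 c2482 c5682 c1240 c2504 c19374 c1343 (k4 c16719 c5589 c5592 c891 (k2 c2135 c3608 k0))))) (by decide +kernel)
def c19376 : PP 9 3 T 0x4400000000052000200000000000000000000000004000200000000000004000000000000000000000000000000400000000000000000000010010010 := rS 0x64eb09c5588766f0f68e42e2307d2b3a9b4cc444e1312808026f (k8 c5565 c19362 c5642 c1113 c5564 c267 c9730 c5447 (k8 c5397 c19356 c5211 c9739 c9733 c5433 c5317 c19368 (k8 c19370 c5401 c431 c1281 c17923 c19375 c12891 c19372 k0))) (by decide +kernel)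
def c19377 : PP 9 3 T 0x400000000052000200000000000000000000000004000200000000000005000000000000000000000000000000800000000000000000000010000008 := rS 0x40dff0143a45644a8aad4d828102a4ceadd9064468d89a3e959d49a7d42c90d89c262537e610665 (k8 c18353 c18355 c18346 c5565 c1113 c5564 c267 c1109 (k8 c5396 c5398 c5448 c5444 c19356 c5211 c5568 c5382 (k8 c5381 c9733 c5315 c5649 c5490 c5487 c5489 c18673 (k8 c14478 c266 c2609 c1289 c540 c541 c747 c744 (k4 c15060 c2568 c2460 c18001 k0))))) (by decide +kernel)
def c19378 : PP 9 3 T 0xa000000000000000000210000000000000000000000000000000001100000000000000000000000000002000000000800000000000000000000000000000 := rS 0x1b1207b80a1d1b1347a250a83 (k8 c18355 c18349 c18356 c5568 c5382 c5381 c5499 c5502 (k4 c889 c18000 c8792 c747 k0)) (by decide +kernel)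
def c19379 : PP 9 3 T 0x4400000000052000200000000000000000000000004000200000000000004000000000000000000000000000000000000000000000000000010010010 := rS 0x1f8cc549e8d46df6c5451eeaca715621d9bc326761289c0511008e42e23099bc1f4acea6d3283 (k8 c18355 c5447 c5397 c19356 c5211 c9739 c5565 c5564 (k8 c9733 c5433 c5317 c19362 c9730 c5642 c267 c1113 (k8 c19376 c5356 c19377 c5401 c431 c1281 c17923 c19372 (k8 c5229 c5651 c1289 c19378 c19373 c5665 c8792 c2375 (k2 c890 c5682 (k1 c2504 k0)))))) (by decide +kernel)
def c19380 : PP 9 3 T 0x2000000000000000000000000000004000000000000000000000000000000000000000000000000400000000000000000008010420000 := rS 0x4b99cbef1002548a6932b14ea8b (k8 c18350 c18354 c18348 c18353 c18347 c2966 c5446 c2859 (k4 c433 c1054 c664 c19357 (k1 c18020 k0))) (by decide +kernel)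
def c19381 : PP 9 3 T 0x400000000052000200000000000000000000000004000200000000000005000000000000000000000000000000400000000000000000000010000010 := rS 0x19cbe0001a5c2e95349958a75 (k8 c18354 c18348 c18353 c18347 c5446 c5433 c19357 c19370 (k4 c5642 c1054 c664 c18020 k0)) (by decide +kernel)
def c19382 : PP 9 3 T 0x4400000000052000200000000000000000000000004000200000000000004000000000000000000000000000000400000000000000000000010000010 := rS 0x1ed12a7005115588403b37809c7217119be959d4da66b210 (k8 c19379 c5558 c5447 c5397 c19356 c5211 c5565 c9733 (k8 c5433 c5317 c19380 c19381 c5401 c9696 c431 c1281 (k4 c9730 c5642 c17923 c1113 (k2 c19368 c19375 k0)))) (by decide +kernel)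
def c19383 : PP 9 3 T 0x10000200000000000000000000000004000200000000000004000000010000000000004104000000800000000000000000008010020002 := rS 0x7b557b30d219584280b79c2e35924206ff25904e11d1c8fc6e3d1dbdc92f523d2ab2456ba356b10ce9cd0a8b (k8 c18350 c18349 c5379 c19356 c17791 c1340 c5381 c2187 (k8 c2966 c5558 c5211 c5520 c5519 c5334 c5333 c5332 (k8 c5436 c5435 c5318 c5317 c351 c2858 c349 c354 (k8 c11059 c16948 c884 c885 c2458 c2898 c3590 c2953 (k8 c3593 c18046 c14418 c2863 c18379 c2127 c5499 c19296 k0))))) (by decide +kernel)
def c19384 : PP 9 3 T 0x4400000000052000200000000000000000000000004000200000000000005000000000000000000000000000000000000000000000000000010000010 := rS 0xf72bb66b16aab4e22413b44cf102f80052034b85f3a7337a4d3ec94cd6420d73b2351659329a73089 (k8 c18356 c18346 c18347 c18353 c18352 c18350 c5381 c19382 (k8 c2187 c19379 c5558 c5447 c5396 c5448 c5444 c5565 (k8 c5379 c19356 c5433 c19357 c19377 c9694 c5642 c1054 (k8 c17791 c664 c17698 c19383 c5651 c668 c2759 c19360 (k4 c15326 c17895 c14568 c5229 (k1 c5584 k0)))))) (by decide +kernel)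
def c19385 : PP 9 3 T 0x4400000000052000200000000000000000000000004000200000000000004000000000000000000000000000000000000000000000000000010000010 := rS 0x1f8cc549e8d46df6c5450254e00a23ee13aac4201d9bc0ec45ac841329b1c85c466fa5675068b (k8 c18350 c18355 c19356 c5211 c5565 c9733 c5433 c5317 (k8 c5397 c5447 c19379 c5558 c2966 c19382 c19384 c5401 (k8 c9696 c431 c1281 c433 c5229 c9730 c5642 c17923 (k8 c1113 c5651 c1289 c19378 c19373 c5665 c8792 c2375 (k2 c890 c5682 (k1 c2504 k0)))))) (by decide +kernel)
def c19386 : PP 9 3 T 0x51000200000000000000000200000000000200001000000000000000000000000000000000000000000000000000000000000000004002 := rS 0xdff97816793208ec8f4a5ac433a73 (k8 c5379 c19356 c17791 c1340 c5211 c5520 c5332 c5340 (k4 c12891 c14797 c5235 c5685 (k2 c5538 c19019 k0))) (by decide +kernel)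
def c19387 : PP 9 3 T 0x51000000040000000000000100000000000200000000000000000000000000000000000000000000040000000000000000011000000002 := rS 0xdf70b2fc062a52d6219d (k8 c19356 c17791 c1340 c5211 c16365 c5235 c1322 c5460 (k2 c5538 c15031 k0)) (by decide +kernel)
def c19388 : PP 9 3 T 0x50000000000000000000000100080004000000100000000004000000400200001000000000000000000000000000020000008000000000 := rS 0x437fc0d5a454fbd48e29 (k8 c186 c5520 c5519 c1602 c459 c2068 c16948 c11059 (k2 c2862 c16402 k0)) (by decide +kernel)
def c19389 : PP 9 3 T 0x51000200000000000000000000000004000200000000000005000000000000000000000000000000400000000000000000008010000010 := rS 0x10d5ab04fb29c2dff9b4964907fc0daa702284082d7641fc1392acad4cf10308022a038e8a44a571c8fc0e3d39a051a133e83c92f523d2b3a9518a5c2e8962a2cd265 (k8 c18353 c18347 c18350 c18348 c18356 c5433 c19357 c5434 (k8 c10191 c19356 c5211 c5520 c5519 c5334 c9739 c5566 (k8 c5564 c5381 c5380 c5379 c5436 c5432 c5318 c5317 (k8 c5313 c60 c186 c351 c267 c3046 c5642 c661 (k8 c17791 c664 c1340 c19386 c19387 c5438 c5358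 c18033 (k8 c16906 c19388 c12613 c2966 c2858 c18677 c16948 c11059 (k8 c884 c885 c17999 c5589 c2948 c4866 c14997 c199 (k4 c1324 c2068 c1932 c16402 k0)))))))) (by decide +kernel)
def c19390 : PP 9 3 T 0x4400000000051000200000000000000000200000004000200000000000005000000000000000000000000000000010000000000000000000010004002 := rS 0x19f01f7ac1aaad502a53ecd70b45fecbf9f80c4af8a64c4b4a4a8c52e175ac433a73 (k8 c5379 c19356 c17791 c1340 c5433 c19357 c5434 c10191 (k8 c5211 c5559 c12891 c19386 c10145 c16365 c5235 c5590 (k8 c4090 c3010 c5459 c5460 c5537 c3050 c5268 c5680 (k4 c3053 c3000 c18461 c5506 (k2 c2144 c8707 (k1 c14772 k0)))))) (by decide +kernel)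
def c19391 : PP 9 3 T 0x2000000000058000200000000000000000000000000000200000000000004000000000000000000020000000000010000000000000000002000000000 := rS 0x7ce2ae281b386ad68e35560af198e4623739a34de3b7bbd6959d68b373089 (k8 c18356 c18346 c5537 c5459 c19356 c5211 c5519 c5333 (k8 c5332 c5565 c5381 c5379 c5435 c5434 c5317 c5316 (k8 c5406 c17895 c3000 c1093 c1198 c553 c3587 c2634 (k4 c1769 c1295 c5549 c17769 k0)))) (by decide +kernel)
def c19392 : PP 9 3 T 0x8000000000000000000200000000000000000000000000000000000000000000000000000000000010000000000000010040000000000000000000000000 := rS 0xaf589cd1a6f45a24d265 (k8 c18353 c18347 c18356 c18350 c5565 c5381 c5379 c5506 (k2 c5584 c3602 k0)) (by decide +kernel)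
def c19393 : PP 9 3 T 0x4400000000051000200000000000000000000000004000200000000000005000000000000000000000000000000000000000000000000004010004002 := rS 0x69928e354b7e1582bf65ef502b53e2465d6452713380cae330385c623dce9cd1a6f62964ea5d329a73089 (k8 c18356 c18346 c18347 c18353 c17796 c18354 c18352 c18348 (k8 c5565 c5381 c5379 c19356 c5436 c5434 c5433 c5432 (k8 c5316 c5313 c28 c664 c668 c9694 c19390 c9148 (k8 c5651 c2756 c2759 c5680 c19392 c5196 c5406 c17895 (k4 c19391 c14630 c3000 c1093 (k2 c5235 c10897 (k1 c553 k0))))))) (by decide +kernel)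
def c19394 : PP 9 3 T 0x1004000000000051000000040000000000000000000000000200102100000001000000000000000050000000000000404040000000050000014010000008 := rS 0x1156303671e5aa8730280d89f7fb2cd6490d8958e7b4eb45c2cdf9b7fc03b23d2b3ac542a0cea65 (k8 c18353 c18354 c18355 c18349 c18348 c19356 c5211 c5520 (k8 c5332 c5235 c5538 c19019 c5537 c5460 c5459 c5458 (k8 c5457 c5535 c1113 c1109 c5334 c1139 c1292 c3010 (k8 c3050 c5665 c5680 c18420 c744 c3000 c1578 c3607 (k4 c2634 c1295 c9612 c3582 k0))))) (by decide +kernel)
def c19395 : PP 9 3 T 0x41000000000000058000200000000000000000200000000000200001100000001000800000000001000000000000000000000000000000000004004004000 := rS 0x8126fe0632a0691362ca026b0b8c6261347924174aceab553ef (k8 c17816 c5489 c5490 c19356 c5211 c5516 c5334 c5568 (k8 c5564 c5382 c5434 c5433 c16719 c15060 c5685 c5665 (k8 c2897 c2460 c2459 c17964 c5694 c1754 c2426 c14820 k0))) (by decide +kernel)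
def c19396 : PP 9 3 T 0x4000000000059000200000000000000000200000000000200000100000005000000000000000040000000000000400000000000000000004010004008 := rS 0x55884d4b48ab8be7ed6fb85a3e0c992e3a411490c723f1e88cde1f1dbddea47a567436ad7e99d5265 (k8 c18353 c5489 c5487 c5405 c5490 c1109 c19356 c5211 (k8 c5520 c5519 c5333 c5332 c9664 c5565 c9733 c5436 (k8 c5318 c5317 c5561 c5339 c5340 c5341 c5342 c12891 (k8 c5235 c5459 c5460 c5538 c16661 c19019 c17954 c19394 (k4 c19395 c17733 c2608 c1137 (k1 c3581 k0)))))) (by decide +kernel)
def c19397 : PP 9 3 T 0x2000000000000008000200000000000000000000080000000000001000000000000000000000000000000000000000000000000000000000020000000008 := rS 0x81a45646c103fe028746c4d1e1b54e610665 (k8 c18353 c18355 c18346 c5489 c1109 c5568 c5382 c5381 (k8 c5499 c5502 c5544 c17763 c266 c541 c747 c2460 (k1 c18001 k0))) (by decide +kernel)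
def c19398 : PP 9 3 T 0x200000000000000000000000000000000001000010004000000000000000001000000000000000040000000000000020200000008 := rS 0x81bfd0e9159128d88d89a3f3083 (k8 c18355 c18346 c5568 c5382 c5381 c266 c540 c541 (k4 c747 c744 c2568 c2460 (k1 c18001 k0))) (by decide +kernel)
def c19399 : PP 9 3 T 0x1000000000000050000210000000000000000100000000000000000100011005000000000000000001000000000000000040000000000000020010014008 := rS 0x12bde0d43a46066c550851b1309a3c3ef72482dea47a506e2a2344a150665 (k8 c18353 c18355 c18349 c18356 c9733 c1289 c1109 c5211 (k8 c5520 c5519 c5516 c5334 c5333 c9664 c5568 c5564 (k8 c5382 c5381 c19398 c3581 c9859 c12094 c747 c744 (k4 c2426 c18000 c12614 c9182 k0)))) (by decide +kernel)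
def c19400 : PP 9 3 T 0x50000010000000000000000000000000000000000100021005000000000000000011000000000000000000000000000000020014000000 := rS 0x551a842b45987deef5a54544665 (k8 c18353 c9733 c1289 c5211 c5519 c5333 c9664 c2900 (k4 c15060 c541 c17733 c3581 (k1 c1137 k0))) (by decide +kernel)
def c19401 : PP 9 3 T 0x4400000000050000200000000000000000000000004000200000000000005000000000000000000000000000000400000000000000000000010000010 := rS 0x470b4fe06a1d2303362a8430122c5451595499dfaad57ec84a1b01444022711a36266f4783c3ef705bd48f4aceec50a59419773065 (k8 c18353 c18346 c17796 c18355 c18352 c18349 c19385 c19356 (k8 c5211 c5520 c5519 c5516 c5333 c9664 c9739 c5568 (k8 c5565 c5382 c5381 c9733 c19389 c19393 c9730 c5642 (k8 c1109 c1113 c5649 c10145 c5490 c5405 c5487 c5489 (k8 c19396 c5651 c1289 c456 c19400 c19398 c3581 c9859 (k8 c12094 c747 c744 c2426 c18001 c3571 c11059 c2159 k0)))))) (by decide +kernel)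
def c19402 : PP 9 3 T 0x1000000000000015000000040000000000000000000000000200002100000000000000000000000044000000000000404000000000010000014000000008 := rS 0xf2cf43981506c4fbf5966b4eb45c3e0cee60ea85 (k8 c18349 c18354 c18346 c19356 c5235 c5460 c5459 c5458 (k8 c1139 c1292 c1241 c3050 c5665 c5682 c18420 c745 (k2 c5835 c1578 (k1 c17952 k0)))) (by decide +kernel)
def c19403 : PP 9 3 T 0x8004000000000055000200000000000000000200000000000200000100000004000000000100000004000000000000400000000000000000000100000018 := rS 0x1a49e3fb2cc05f509a969154eacfc09b807b72641148e42e3711a051a7d0f8edee497a91e959d819155eff3189c262537a258a75 (k8 c18354 c18348 c18356 c5565 c1113 c5564 c267 c9752 (k8 c5586 c5584 c5582 c5508 c19356 c5211 c5520 c5519 (k8 c5334 c5333 c5332 c9664 c5566 c5381 c5380 c9733 (k8 c5435 c5433 c5317 c5339 c5340 c12891 c14774 c18038 (k8 c8100 c5235 c2901 c5458 c19402 c18060 c17733 c1199 (k4 c8110 c5663 c1755 c729 (k2 c5680 c17990 (k1 c2883 k0)))))))) (by decide +kernel)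
def c19404 : PP 9 3 T 0x8004000000000041000200000000000000000000000000000000000000000000000000000100000000010000000000400002000000000000000000000000 := rS 0x1a49e3fb2d028d3ea258a75 (k8 c18354 c18348 c18356 c5566 c5381 c5380 c1755 c729 (k2 c5680 c17990 (k1 c2883 k0))) (by decide +kernel)
def c19405 : PP 9 3 T 0x8000400000000015000200040000000000000000000000000200001000000000000000000000000004000004000000000005000000000000000100000000 := rS 0x3d8ce36259305e4ef8136191c85c6e230f8ee959d (k8 c19356 c5211 c5332 c9664 c9733 c5435 c5433 c5317 (k8 c5315 c8100 c5235 c5458 c5663 c3578 c17795 c1521 (k2 c1641 c19373 (k1 c5543 k0)))) (by decide +kernel)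
def c19406 : PP 9 3 T 0x4400000000050000200000000000000000000000004000200000000000004000000000000000000000000000000400000000000000000000010000010 := rS 0x260d49b4e9b7c1ed68a592aca4fb48f2c72fe4926618aa8451591289cc6d581b5c0511f72ad922100ecde0191c85c6e2340a34266f3e87c774aceec506853ab15128b (k8 c18350 c18356 c18348 c18354 c18349 c18355 c19385 c19356 (k8 c5211 c5332 c9664 c5566 c5565 c5564 c5381 c5380 (k8 c9733 c5435 c5433 c5317 c5315 c19401 c5401 c9696 (k8 c431 c1177 c1281 c5196 c9730 c5642 c5507 c5508 (k8 c5585 c9752 c267 c1113 c19403 c5651 c1195 c1289 (k8 c19404 c262 c19405 c5439 c5357 c5441 c17999 c2883 (k8 c5680 c1757 c5678 c9368 c18118 c5195 c19373 c5458 (k4 c5536 c5665 c3578 c2373 k0)))))))) (by decide +kernel)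
def c19407 : PP 9 3 T 0x51000200040000000000000000000000000200000000000000000000000000000000000000000000000000000000000000008000000010 := rS 0xac8022a0314894e61307926959d (k8 c19356 c5211 c5334 c9739 c5564 c5379 c60 c186 (k4 c267 c3046 c5642 c19386 (k1 c19387 k0))) (by decide +kernel)
def c19408 : PP 9 3 T 0x4400000000051000200000000000000000000000004000200000000000004000000000000000000000000000000000000000000000000004010004002 := rS 0xf1 (k2 c9696 c19393 k0) (by decide +kernel)
def c19409 : PP 9 3 T 0x4400000000051000200000000000000000000000004000200000100000005000000000100000000014014000000802000000000000000005014000000 := rS 0xfe22d650f1d808a0cead6aaa764970c8cc2ef523d29ae8d66bf5231565277c193cea15068b (k8 c18350 c18355 c18349 c19356 c5356 c5235 c5458 c5680 (k8 c1292 c747 c2552 c5537 c5381 c2187 c5211 c5520 (k8 c5519 c5433 c5316 c5315 c19357 c5649 c5268 c1660 (k8 c5490 c5487 c14478 c19400 c5778 c744 c5339 c456 (k2 c15061 c11059 k0))))) (by decide +kernel)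
def c19410 : PP 9 3 T 0x4400000000050000200000000000000000000000004000200000000000004000000000000000000000000000000000000000000000000000010000010 := rS 0x1ee5588766f08a9b1946b4fa852ac92f24cc2250d98c05110089d3be04de4cedb10c8e42e37119bcfa0f0fe74ea65 (k8 c18353 c18354 c19356 c9664 c9739 c5566 c5565 c9733 (k8 c5435 c5433 c5317 c5315 c19385 c19406 c5356 c8100 (k8 c5235 c5458 c19407 c19408 c9730 c5642 c9752 c1109 (k8 c1113 c10409 c262 c5663 c10171 c1518 c1121 c1522 (k8 c18004 c5680 c5665 c1292 c19409 c5401 c431 c1281 (k2 c5196 c19405 k0)))))) (by decide +kernel)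
def c19411 : PP 9 3 T 0x400000000052000200000000000000000000000004000200000000000004000000000000000000000000000000400000000000000000000010000010 := rS 0x456003b3f7bc0ae191f81d028d099f5967f50b4fc4934fa258a75 (k8 c18354 c18348 c18356 c5448 c5444 c19410 c5579 c5578 (k8 c5577 c5464 c5566 c5564 c5381 c5380 c5432 c5318 (k8 c5315 c5313 c19381 c17990 c5401 c9696 c5229 c17896 (k1 c17953 k0)))) (by decide +kernel)
def c19412 : PP 9 3 T 0x12000200000000000000000000000004000200000000000004000000000400000000010000000040800000000000000000000010000002 := rS 0x2026689c2205f0be74e681379f5269f319853398 (k8 c18346 c5447 c5445 c5395 c5448 c5444 c5566 c5565 (k8 c5380 c5379 c19356 c5433 c1054 c17791 c3599 c17698 (k2 c668 c667 (k1 c19383 k0)))) (by decide +kernel)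
def c19413 : PP 9 3 T 0x400000000052000200000000000000000000000004000200000000000004000000000000000000000000000000000000000000000000000010000010 := rS 0xd66d5afb7dc9c8ad655621d98a1e0251380a22013b2653e931c85c461337b2cfea1f99047647a5675bfe2 (k8 c19410 c5580 c19356 c5211 c5520 c5332 c5462 c19019 (k8 c5578 c5577 c5464 c5565 c5564 c9733 c5433 c5317 (k8 c5444 c5448 c5447 c19411 c19412 c9730 c5642 c267 (k8 c1113 c19377 c18620 c5401 c431 c1281 c5339 c1289 (k4 c17923 c5229 c19378 c1342 (k2 c19373 c16719 (k1 c5665 k0))))))) (by decide +kernel)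
def c19414 : PP 9 3 T 0x8000000000011000200000000000000000200000000000200000000000000000000000000000000000000000000000000000000000000000000000000 := rS 0x78726e01c8dc7649a567482df (k8 c5580 c5462 c19356 c5211 c5334 c5332 c5435 c5317 (k4 c17960 c12891 c5460 c5235 k0)) (by decide +kernel)
def c19415 : PP 9 3 T 0x40000000000000059000200000000000000000100000000000200000000000004000400000400000010010000000000000000000000010000004000000002 := rS 0x33d9ad1810d7c05b8a4732624580a4e3103080c6639038c46e3d39a051a6f1dbddeb4aceabcce83329a73089 (k8 c18356 c18346 c18347 c18353 c18355 c5487 c5406 c19356 (k8 c5211 c5519 c5333 c5332 c5565 c5381 c5380 c5379 (k8 c5436 c5435 c5434 c5432 c5317 c5316 c28 c661 (k8 c17791 c668 c9694 c17895 c5651 c11559 c1093 c17769 (k8 c14630 c5235 c552 c1295 c17745 c5537 c2633 c3587 k0))))) (by decide +kernel)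
def c19416 : PP 9 3 T 0x1000000000000000000000000000000000000000000000000000000000000000000000000000000000000008000000000000000000000 := rS 0x32729 (k2 c5313 c5353 (k1 c5209 k0)) (by decide +kernel)
def c19417 : PP 9 3 T 0x8000000000000000000010 := rS 0x601 (k2 c9758 c9757 (k1 c5642 k0)) (by decide +kernel)
def c19418 : PP 9 3 T 0x100000000000000000000000000000000000000800000000000000000000000000000000000000000000000000000000000000000000000 := rS 0x2cfa5 (k2 c5385 c5345 (k1 c5213 k0)) (by decide +kernel)
def c19419 : PP 9 3 T 0x100000000000000000000000000000000000000000000000000000000080000000000000000000000000000 := rS 0x343b7 (k2 c5419 c5379 (k1 c5212 k0)) (by decide +kernel)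
def c19420 : PP 9 3 T 0x100000000000000000000000000000000000000000000000008000000000000000000000000 := rS 0x327b1 (k2 c5395 c5355 (k1 c5209 k0)) (by decide +kernel)
def c19421 : PP 9 3 T 0x8000000000000000000000001 := rS 0xa03 (k2 c9752 c9754 (k1 c5642 k0)) (by decide +kernel)
def c19422 : PP 9 3 T 0x200000000000000000000000000000000000000000000000000000000000000000000000000000000000080000000000 := rS 0x23fb9 (k2 c5427 c19418 (k1 c1098 k0)) (by decide +kernel)
def c19423 : PP 9 3 T 0x200000400000000000000000000000000000000000000000000000000000000000000000000000000000000000000000 := rS 0x34bb9 (k2 c5427 c5387 (k1 c5213 k0)) (by decide +kernel)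
def c19424 : PP 9 3 T 0x2000000000000000000000000000000000000000000000000000000000000000000000000000000000000800000000000 := rS 0x23fb9 (k2 c5425 c19418 (k1 c1152 k0)) (by decide +kernel)
def c19425 : PP 9 3 T 0x1000000000000000000000000000000000000000000000000000000000000000000000000000000000000000000000800000000000 := rS 0x2cfb9 (k2 c5425 c5347 (k1 c5213 k0)) (by decide +kernel)
def c19426 : PP 9 3 T 0x800000000004 := rS 0xa01 (k2 c9707 c9709 (k1 c5642 k0)) (by decide +kernel)
def c19427 : PP 9 3 T 0x2000000000000000000000000000000000000000000000000000000000004 := rS 0xa01 (k2 c9696 c5811 (k1 c5642 k0)) (by decide +kernel)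
def c19428 : PP 9 3 T 0x8000000040000000000000000000000000200000000000000000000000000000000000000000000000001000000000010000000000008 := rS 0x36330b8c5e265 (k4 c18353 c5401 c5434 c5433 (k2 c5316 c1109 (k1 c14092 k0))) (by decide +kernel)
def c19429 : PP 9 3 T 0x98000010000000000000000000000000000000000000000000000000000000000000000000000000000000000008000000000000000004 := rS 0x1231337c400005d0ac4e3f3479ceb398 (k8 c18346 c5342 c19419 c12624 c5546 c5571 c5421 c19230 (k4 c12639 c5642 c17712 c1272 (k2 c955 c10167 (k1 c5675 k0)))) (by decide +kernel)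
def c19430 : PP 9 3 T 0x50000010000000000000000000000000000000000000000000000000000000000010000000000000000000040008100000011010000000 := rS 0x1105a000211d1310ce7594684f41f345965125d (k8 c17796 c18356 c18352 c18350 c5546 c5241 c5564 c5381 (k8 c5342 c19419 c5252 c5651 c351 c12615 c2859 c354 (k2 c17712 c1340 k0))) (by decide +kernel)
def c19431 : PP 9 3 T 0x40000000000000060000010040000000000000000000000000000000000000000000440000440001000014000000010000000800000000000000000000000 := rS 0x136e18aaccf69d (k4 c5412 c1686 c5532 c5414 (k2 c10249 c1120 (k1 c5920 k0))) (by decide +kernel)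
def c19432 : PP 9 3 T 0x50000000000080000000000000004000800000040000000100000000005400 := rS 0x663cbda852ca0cbb98 (k8 c18346 c17796 c18355 c18352 c18349 c10910 c3571 c14679 (k1 c2500 k0)) (by decide +kernel)
def c19433 : PP 9 3 T 0x8000000000060000000000000000000800000000000000204400000000000000000000000000240000000100000004000040050000000002040000020 := rS 0x2ff4790c3217815f2f70bf7dc94f5e2bd5dbc7e23ceae4431c2cbe5f65d (k8 c17796 c18357 c18351 c18352 c1093 c5528 c5415 c19356 (k8 c9733 c5318 c5349 c5600 c5601 c5603 c5605 c17890 (k8 c17776 c1096 c2762 c5687 c1159 c3020 c1396 c320 (k2 c557 c2207 (k1 c3573 k0))))) (by decide +kernel)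
def c19434 : PP 9 3 T 0x8000000000068000200000000000000800000080000000200000000000000000000000000000000000000000010000000000000000000002000000220 := rS 0x90e27177bbb49122be383197b8558ad55aaf5b80cb667059b41a7300a34decb719fd420ff98edbe4720c7ca3ab1594f72b92693c421f11e77ef231fe4d3e5e45a24d265 (k8 c18353 c18347 c18356 c18350 c312 c1522 c5438 c5318 (k8 c5351 c17776 c19356 c9733 c5517 c5528 c5335 c5521 (k8 c5415 c17890 c5605 c5601 c5600 c5350 c5345 c5462 (k8 c5520 c5580 c5332 c19019 c5329 c5578 c5577 c5466 (k8 c5464 c5565 c5381 c53 c9719 c315 c5529 c717 (k8 c5487 c715 c54 c5533 c5406 c5490 c1094 c19433 (k8 c1096 c2762 c19431 c3602 c5687 c800 c3102 c3103 (k4 c919 c764 c3280 c3275 (k1 c3575 k0))))))))) (by decide +kernel)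
def c19435 : PP 9 3 T 0x8000000000068000000000000000000800100080000000200000000000000000000000000000000000000000010000000000000000000000000000220 := rS 0x63b81204b088984a7bc98e47e371ee74166d0688452038984d1fa020b8cfedf1d83c9247 (k8 c5520 c5334 c5329 c5332 c5580 c5577 c5466 c5462 (k8 c5212 c5568 c5564 c5382 c54 c9694 c5528 c315 (k8 c5529 c717 c19356 c5436 c5435 c5318 c5317 c5438 (k8 c1684 c19434 c5651 c720 c353 c12614 c3590 c800 (k1 c10249 k0))))) (by decide +kernel)
def c19436 : PP 9 3 T 0x8000000000068000000000000000000800100080000000200000000000000000000000000000000000000000010000000000000000000000000000020 := rS 0x10181bfe0f0d4846a8d7abfc87138bbb4917cbd58ad4e0242284013f7dc94f5fab91946df1f1f88f3aad57bf552ab8aae566b70196cce0b36834428d099bf401f0793c9a8b2cbe5f65d (k8 c17796 c18357 c18351 c18352 c18350 c5521 c5335 c5329 (k8 c5517 c5212 c5565 c5564 c5381 c5528 c315 c5529 (k8 c717 c5487 c715 c54 c5533 c5532 c5415 c5414 (k8 c5413 c5489 c5405 c5406 c5490 c19356 c9733 c5318 (k8 c5345 c5349 c5350 c5351 c5600 c5603 c5605 c17890 (k8 c17776 c19435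 c17785 c2966 c720 c719 c5804 c19433 (k8 c2762 c17765 c3102 c3103 c764 c3280 c3275 c762 (k8 c3575 c3573 c920 c919 c3491 c3438 c3008 c2696 (k2 c3136 c3623 k0))))))))) (by decide +kernel)
def c19437 : PP 9 3 T 0x40008000000000161000010000000000000400100000000000000000000000000000000000040001000004000000010000044000000000000000000000000 := rS 0xd53bb70bed9f8b6f27e5855e2ffa9c7c361eef92e93ec8193e3596e376a85beebef9fdaed346e818a8b3aa25f2fb (k8 c18357 c18351 c18356 c18354 c18350 c18348 c5212 c5381 (k8 c5579 c5465 c5577 c17880 c5581 c5580 c5578 c5467 (k8 c5466 c5464 c5569 c5383 c5380 c5233 c5213 c5595 (k8 c5597 c5598 c5640 c5608 c5388 c5389 c3612 c3615 (k8 c17984 c5359 c3378 c5629 c3342 c19431 c5690 c11141 (k2 c1820 c17987 k0)))))) (by decide +kernel)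
def c19438 : PP 9 3 T 0x8000000000068000000000000000000000100080000000200000000000000000000000000000000000002000010000000000000000000000000000120 := rS 0x3d9e5cf8fc52922cef8dc670a52925ecab1ed2a9d7aa35fee18e571c81c6e3dc199f22b931b2dda7f50bac1e4dd8fcc76df23906ce9f5a834420b36e7646701204027a07cbecd265 (k8 c18353 c18347 c18357 c18351 c5212 c5564 c17785 c720 (k8 c719 c5010 c19356 c5529 c717 c5528 c315 c5804 (k8 c17448 c19436 c5462 c5520 c5580 c5332 c19019 c9578 (k8 c5521 c5329 c5581 c5578 c5577 c5467 c5464 c9754 (k8 c5415 c5491 c5487 c5407 c5436 c5435 c5432 c5317 (k8 c5313 c800 c19437 c5431 c5614 c5617 c5428 c17936 (k8 c6187 c12611 c913 c977 c978 c1097 c8902 c3130 (k8 c2798 c17867 c3622 c3079 c3243 c3432 c2659 c1002 (k1 c3568 k0))))))))) (by decide +kernel)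
def c19439 : PP 9 3 T 0x228000000000000000000400100000000000000000000000000000000000000001000000001000000000000000010400000000000020020 := rS 0x46e2f19c294a48558f6970667c8c8ce0247cbecd265 (k8 c18353 c18347 c18357 c18351 c720 c719 c5010 c5491 (k8 c5487 c5407 c17936 c6187 c12611 c977 c978 c1097 (k4 c8902 c3078 c2802 c17867 k0))) (by decide +kernel)
def c19440 : PP 9 3 T 0x8000000000068000000000000000000000100080000000200000000000000000000000000000000000000000010000000000000000000000000000120 := rS 0x45fe9f1f2c2bc389bfea71f0d87c664ac6d27db72915a890209fce98d03139384d1f8d76f7cfed769a37404dd8fcc76df23907daf5059b41ef72d99c1a21b3bedf289459773075 (k8 c18354 c18346 c17796 c18350 c18356 c18351 c18357 c19436 (k8 c5528 c315 c5487 c715 c5333 c5329 c5529 c717 (k8 c5519 c10910 c5462 c5520 c5580 c5332 c19019 c9578 (k8 c5521 c5212 c5381 c5579 c5465 c5577 c17880 c5467 (k8 c5569 c5568 c5564 c5383 c5382 c5380 c9754 c19356 (k8 c17448 c17785 c720 c5804 c19438 c19439 c5233 c5213 (k8 c19437 c5595 c5641 c5598 c5640 c5608 c5388 c5389 (k8 c5610 c5535 c3615 c17984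 c5629 c5205 c5635 c17982 k0)))))))) (by decide +kernel)
def c19441 : PP 9 3 T 0x40008000000000069000200000000000000400000000000000200000000000000000000000000000000000000000010000000000050000000002040004220 := rS 0x35651bd8b1cea652a8fcbb9c4e06438fc5c9748c68fad4af9dc199f229d0082cda0d10a064f8d65b8dda7f50b7dd793d4a493e5e7cbecd265 (k8 c18353 c18347 c18357 c18351 c312 c1522 c311 c4321 (k8 c5438 c5581 c5580 c5578 c5577 c5467 c5466 c5464 (k8 c5569 c5383 c5380 c5528 c315 c5529 c717 c53 (k8 c5412 c5491 c5487 c5407 c19356 c5313 c1094 c17460 (k8 c19431 c6187 c5391 c5390 c5608 c5606 c5607 c5610 (k8 c17936 c17984 c1524 c1123 c5681 c1728 c1807 c803 (k2 c362 c3266 (k1 c3575 k0)))))))) (by decide +kernel)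
def c19442 : PP 9 3 T 0x8000000000068000000000000000000000100080000000200000000000000000000000000000000000000000010000000000000000000000000000020 := rS 0x31dc090258444c253de4c1167f9ec49a47279241e1f1d8e47e371ee74166d0688452038984d1fa020b8cfedf (k8 c5580 c5577 c5466 c5462 c5212 c5568 c5564 c5382 (k8 c54 c9694 c5528 c315 c5529 c717 c19356 c5436 (k8 c5435 c5318 c5317 c5332 c5517 c5329 c5334 c5335 (k8 c5520 c5521 c9578 c19019 c19436 c19440 c5438 c1684 (k8 c19441 c5651 c720 c353 c12647 c3590 c800 c10249 k0))))) (by decide +kernel)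
def c19443 : PP 9 3 T 0x8000000000068000000000000000000000100000000000200000000000000000000000000000000000000000010000000000000000000000000000020 := rS 0x4421bfc8f1d7b2d069ed673353e9b68b24f05e3d9847593043858e110752fbedf69a84fee36bb2c82571f8f73a977ea55529d55c5532b33196cce0b36834422901a051a13d022cb2892ea0cea65 (k8 c18353 c18354 c18355 c17796 c18356 c18352 c18350 c5212 (k8 c5564 c5381 c5380 c54 c9694 c5528 c315 c5529 (k8 c717 c5487 c715 c9754 c5532 c5530 c5414 c5413 (k8 c5412 c5489 c5488 c5405 c5404 c19356 c5436 c5318 (k8 c5313 c5462 c5464 c5465 c5466 c5577 c5578 c5579 (k8 c5580 c17880 c19442 c5645 c10107 c794 c17902 c17785 (k8 c12823 c471 c1574 c1685 c312 c472 c10171 c8113 (k8 c10735 c1522 c2385 c9899 c18006 c6899 c3620 c1647 (k4 c552 c2346 c2572 c2108 (k2 c12615 c504 k0)))))))))) (by decide +kernel)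
def c19444 : PP 9 3 T 0x4000000000068000010000000000000000000000000000000000000000000000000000040000000000000100010004000000000000000000000048220 := rS 0x1163a432035c4cca6727d43b168b24f05e491ecc23ac9ab52efd0ea55529d55a6406632d99c1a2108a2cb2892ea0cea65 (k8 c18353 c18354 c18355 c17796 c18356 c18352 c18350 c10107 (k8 c5528 c315 c5487 c715 c9754 c54 c5530 c5413 (k8 c5412 c5489 c5488 c5486 c5405 c5404 c5490 c5438 (k8 c471 c1574 c1685 c311 c312 c472 c10171 c8113 (k8 c5444 c1121 c1522 c9899 c5680 c5813 c4297 c1753 (k4 c2862 c351 c459 c12615 k0)))))) (by decide +kernel)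
def c19445 : PP 9 3 T 0x40000000000000100000000000000000000000000000000000800000000000000000100000000400000020000000000400020 := rS 0x6c124611318c5203 (k8 c54 c9694 c9754 c9148 c1755 c349 c5663 c5444 k0) (by decide +kernel)
def c19446 : PP 9 3 T 0x20000210040000000000000000000000000000000000000000000500000440001000000001000000010005400000000000000000000000 := rS 0xd82762ab3 (k4 c5532 c5414 c5412 c5663 (k1 c18117 k0)) (by decide +kernel)
def c19447 : PP 9 3 T 0x4000000000068000000040000000000000100040000000200000000000000000500000000000000004000000000000000400000020000000000000020 := rS 0x35868a0d8982761a582448a711209d96b52485d5e67319cc022901a051a6fd012d8e0ece834420b3695f3089 (k8 c18356 c18346 c5313 c5529 c717 c5528 c315 c19356 (k8 c5645 c794 c12627 c5212 c5565 c5381 c5380 c54 (k8 c9694 c53 c9719 c9754 c5487 c5406 c5433 c512 (k8 c9106 c19445 c350 c5651 c6185 c2968 c17680 c17895 (k8 c1092 c5475 c19446 c5445 c5680 c18492 c1198 c1764 k0))))) (by decide +kernel)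
def c19448 : PP 9 3 T 0x68000000040000000000000100040000000200000000000000000000000000000000000000000010000000000000000800000000000020 := rS 0x11fe64948378fc41719e80e4b08b847e811ea7cbe7904f8cde1346e83c2c707034420b3695f3a9d (k8 c5412 c19356 c5313 c5529 c717 c5528 c315 c5645 (k8 c794 c5456 c5212 c5381 c5564 c5565 c19443 c19444 (k8 c1535 c10245 c17448 c5436 c5380 c5318 c17902 c10107 (k8 c12627 c5432 c5669 c17695 c19447 c12613 c892 c891 (k4 c2946 c5589 c2784 c5660 k0))))) (by decide +kernel)
def c19449 : PP 9 3 T 0x100040000000000000000000000000000000000000000000002000000000000000005000000000000010000 := rS 0x8ff3 (k2 c5589 c2784 (k1 c5660 k0)) (by decide +kernel)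
def c19450 : PP 9 3 T 0x1000000000000000000200000000000000000100000000000200000000000000000000000000000000000000000048400000080000020000000000018100 := rS 0x4222b5bded31af79a2cd6abd10d1d468fc623d9d95c66073aa2d8a59 (k8 c18352 c18348 c18350 c18354 c5432 c5316 c5313 c10693 (k8 c5436 c5434 c5318 c5381 c2159 c872 c873 c15288 (k8 c2073 c1925 c11210 c5450 c5496 c17767 c17880 c458 (k2 c5658 c1933 k0)))) (by decide +kernel)
def c19451 : PP 9 3 T 0x80000000000000000000200080000000000000100040000000200000400000000000000000000000000000001000008000000000000020000000000018000 := rS 0x115fcd743bd198f768f7c685b67c0e02f346a3fda311b9fe76772b8cc0e0944a15068b62974b275 (k8 c18354 c18352 c17796 c18348 c18350 c18355 c18349 c18356 (k8 c5438 c5432 c5316 c5313 c5356 c10693 c5358 c5435 (k8 c5434 c17809 c5568 c5381 c445 c5592 c5550 c1648 (k8 c19450 c10897 c9522 c1705 c502 c11210 c5657 c2073 (k4 c2191 c3613 c459 c2342 k0))))) (by decide +kernel)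
def c19452 : PP 9 3 T 0x81000000000000000000000000000000000000000040004000000000000000004000000002000000000000000500004000000000000020004000000000000 := rS 0x8af47f35dee8789c0d230144a15068b (k8 c18350 c18355 c18349 c18356 c5592 c5589 c5550 c5547 (k4 c2074 c2071 c2191 c3613 (k2 c5657 c459 (k1 c2342 k0)))) (by decide +kernel)
def c19453 : PP 9 3 T 0x1001000000000000000000080000000000000000000000000200000000000000000480001000000000000000100000000000040000020000000000058000 := rS 0x10c8afe6bc759cd1ef8d1e6571981c62376aa2cb2892ea0d8a75 (k8 c18354 c18348 c18355 c17796 c18356 c18352 c18350 c3003 (k8 c5435 c5434 c5432 c5316 c5313 c445 c10897 c9522 (k8 c1705 c5688 c553 c1769 c2564 c459 c2781 c12615 k0))) (by decide +kernel)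
def c19454 : PP 9 3 T 0x80000000000000000000000080000000000000100000000000200000000000000000000000000000000000000000000000000000000000000000000018000 := rS 0x4222b5bded31af799ed17a474b4d566b78f73b20784ee7f3c82626e348b8696f340a34fa8ff6e802649020cc7e07188dc7ac72b9d516c52ca15065d (k8 c17796 c18355 c18349 c18352 c18348 c18350 c18354 c5313 (k8 c794 c5436 c5435 c5434 c5432 c5318 c5316 c9739 (k8 c5588 c475 c12635 c17809 c5568 c5566 c5381 c5380 (k8 c445 c5329 c5591 c5589 c5549 c5547 c5438 c5441 (k8 c5358 c5356 c11668 c12613 c10693 c19451 c3610 c19452 (k8 c3003 c19453 c2159 c873 c1925 c2339 c5688 c5450 (k4 c5496 c17767 c17880 c458 (k2 c5658 c1933 k0)))))))) (by decide +kernel)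
def c19455 : PP 9 3 T 0x100000004000200000000000000000000800000000000000000100000000000000000100000000000000100 := rS 0x2385a3b90c6bef2b8cc0e313ab14b25d (k8 c17796 c18352 c18348 c18354 c5434 c5432 c5316 c5313 (k4 c5507 c1764 c1933 c2187 (k2 c3567 c5658 (k1 c2159 k0)))) (by decide +kernel)
def c19456 : PP 9 3 T 0x200000000000000000000010100000000000000000002000000080000000000000000008000 := rS 0x33d2a977ebd034f34eaad32a9da18c0817188dd065d (k8 c17796 c18355 c5435 c5434 c5433 c9739 c9754 c9737 (k8 c5531 c5530 c5413 c5412 c445 c716 c873 c1076 (k4 c1073 c1904 c2339 c9899 k0))) (by decide +kernel)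
def c19457 : PP 9 3 T 0x4000200000000000020000000014100000000000000000002000000000000000000000000008000 := rS 0x2552efd0ea75569954ed1e2630205c6283 (k8 c18355 c5434 c5433 c9739 c9754 c5811 c9737 c5531 (k8 c5530 c5413 c5412 c1998 c2338 c19357 c10191 c9899 k0)) (by decide +kernel)
def c19458 : PP 9 3 T 0x4000400000000040000200000000000000000200000000000200000000000000000000000000000050000000100000000000000000000000000000000120 := rS 0xb467 (k2 c5282 c18481 (k1 c715 k0)) (by decide +kernel)
def c19459 : PP 9 3 T 0x40000000000000000000000000200000000000000000000000200000000000000000080000000040000000000000000008100 := rS 0xf75604bb7139c3408d501815aafef84452036aa7cc604098fcca8b (k8 c18350 c18353 c5318 c2917 c9739 c9754 c2881 c2998 (k8 c54 c9694 c10107 c5494 c1183 c2068 c10171 c729 (k8 c3853 c17682 c728 c2927 c5571 c2754 c5651 c19458 (k1 c19004 k0)))) (by decide +kernel)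
def c19460 : PP 9 3 T 0x400000000000000000000000000000000000000000000000000000000000000000000100000000000000000000000002080000000001000000000020 := rS 0x257661a336c52ec5 (k8 c18348 c1639 c5445 c715 c716 c5487 c1904 c5678 k0) (by decide +kernel)
def c19461 : PP 9 3 T 0x400000000000000200000000000000000200000000000200000000000000000000000100000000000000000000000002000000000000000000040120 := rS 0x7b8b631 (k4 c5434 c19460 c18481 c19004 k0) (by decide +kernel)
def c19462 : PP 9 3 T 0x200000000000000000000000000000200000000000000000000000100000000000000000080000002000000000000000000008100 := rS 0x3dead3334c6bde2090eb02557edc4e705032f62111480fc6814f98c08131fa34de8b (k8 c18350 c5565 c5381 c5318 c2917 c9739 c9754 c2881 (k8 c194 c5577 c54 c9694 c10107 c5445 c1755 c729 (k8 c728 c2927 c5571 c2988 c2754 c5651 c5561 c5340 (k4 c19461 c5450 c5496 c18490 (k2 c2931 c14662 (k1 c5282 k0)))))) (by decide +kernel)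
def c19463 : PP 9 3 T 0x4000000000000000000000000000000000000000000000000000000000000000000000000000000000000000100000000000080000440000001000008000 := rS 0x80bfe07ed57ab5fab17a2183466023cd571554acf685d (k8 c17796 c9737 c5532 c5531 c5414 c5413 c445 c9739 (k8 c715 c716 c872 c873 c2179 c1076 c1908 c1077 (k4 c5499 c10690 c2341 c1927 (k1 c9179 k0)))) (by decide +kernel)
def c19464 : PP 9 3 T 0x800000000000000000000000000000000200000000000200000000000000000000000100000000000000000080000000000000000000000000048000 := rS 0x50edd6adff9899fc480e3d837ed58ecdf8f54da5597b168b8fc33b3c179247b1d110105b46a7f267df18ff3b4b06845e6c72ba75569954ed1e2630225d9e77668948fef20b4c863532a0cea59449751798 (k8 c18346 c18350 c17796 c18356 c18352 c18354 c18355 c18353 (k8 c5450 c5561 c5496 c5340 c14662 c5562 c5559 c5495 (k8 c5493 c5453 c5452 c9739 c9754 c5811 c9737 c5531 (k8 c5530 c5413 c5412 c5313 c794 c445 c10107 c151 (k8 c5329 c19356 c5318 c5577 c95 c5358 c2881 c807 (k8 c19463 c17897 c8187 c471 c1685 c311 c312 c472 (k8 c5326 c5456 c1773 c8113 c5444 c1753 c1518 c10735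 (k8 c19457 c9899 c17576 c9422 c18006 c1076 c5657 c5649 (k8 c503 c504 c335 c5588 c2946 c2573 c5570 c2927 (k1 c19431 k0)))))))))) (by decide +kernel)
def c19465 : PP 9 3 T 0x1000000000000004000000000000000000000000000000000000100000000010000440010400000000010410000000000000000000200000000004008000 := rS 0x9fdbad5c3f35709962fe24071ed3ba5bce2ab3da3c4085d (k8 c17796 c9739 c5811 c9737 c5532 c5414 c445 c5329 (k8 c5326 c5657 c5649 c503 c504 c2177 c335 c336 (k4 c5588 c3013 c2573 c5570 (k2 c2991 c5920 k0)))) (by decide +kernel)
def c19466 : PP 9 3 T 0x800000000000000000000000000000000200000000000200000000000000000000000100000000000000000000000000000000000000000000048200 := rS 0x1f7c7a16b2308a1b7afb766fc2db7d429b4ab2da2e3f09e0bc923d8e90393198f73b4b06bcd8e574eaad32a9da3c4c6044bb3d9a4320c74fe75cc195065d (k8 c17796 c18355 c18353 c18346 c18354 c19464 c5341 c5340 (k8 c5561 c5495 c5453 c5452 c9739 c9754 c5811 c9737 (k8 c5531 c5530 c5413 c5412 c5313 c794 c445 c151 (k8 c5329 c19356 c5436 c5316 c5438 c1745 c471 c1685 (k8 c311 c312 c472 c5456 c1773 c8113 c1753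 c1518 (k8 c10735 c1122 c2388 c19456 c9899 c17576 c18006 c2338 (k8 c1076 c19465 c17783 c17979 c5381 c5465 c1549 c5670 k0))))))) (by decide +kernel)
def c19467 : PP 9 3 T 0x800000000000000000000000000000000200000000000200000000000000000000000100000000000000000000000001000000000000000000048000 := rS 0x813e9c0beb0f0c05fe7968c0fdaaf56a55faf443068cd3b2d024fe331f81c623dce81022f36395d3aab8aa6552b3da25d9e77668948fef20b4c86353ab14b25d (k8 c17796 c18352 c18348 c18354 c5450 c5561 c5496 c5340 (k8 c14662 c5562 c5559 c5495 c5493 c5453 c5452 c9737 (k8 c5532 c5531 c5530 c5414 c5413 c5412 c5313 c794 (k8 c445 c10107 c9739 c19356 c5436 c5434 c5432 c5318 (k8 c5316 c19464 c19466 c3567 c10693 c715 c716 c872 (k8 c873 c1076 c1904 c1908 c1077 c5499 c10690 c1925 (k8 c19457 c2341 c1927 c18031 c9179 c10245 c2180 c2871 (k2 c751 c12613 k0)))))))) (by decide +kernel)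
def c19468 : PP 9 3 T 0x4000000000000040000100000000000000000000000000000000000000000000000000000000000110000000000000000000080000000000000000008000 := rS 0x6cd5e1a330440204 (k8 c9739 c53 c10107 c715 c716 c17787 c5487 c5683 k0) (by decide +kernel)
def c19469 : PP 9 3 T 0x800000000000000000000000000000000200000000000200000000000000000000000100000000000000000000000001000000000000000000008000 := rS 0x26dc2e365978f6810416dbff35aa7d62ad50edd1c4837098e3a1097bc82432b8fe274b06c5567b4019cc02041a9dda7982c9d4ca89 (k8 c18356 c18353 c18354 c18352 c18346 c5496 c5493 c5450 (k8 c9739 c53 c9719 c54 c9737 c5532 c5414 c151 (k8 c5329 c12622 c5318 c5313 c5561 c5340 c14662 c19467 (k8 c5564 c2869 c317 c318 c475 c476 c5570 c2927 (k8 c2817 c1146 c2816 c1149 c5588 c2946 c19468 c17897 (k8 c1744 c1685 c312 c8797 c2404 c2847 c10735 c5920 k0)))))) (by decide +kernel)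
def c19470 : PP 9 3 T 0x4000000000000000000000000000000000000000000000200000000000000000100000000000000000000400010404000040000010010000000008000 := rS 0x169f24fa8536cb6fb8fc25e491ec7408c98cc0e31ced2c1a046395d3b154cacf69982c9d58a5d (k8 c17796 c18348 c18354 c18352 c18346 c9737 c5532 c5530 (k8 c5414 c5412 c5313 c794 c9739 c151 c5329 c19356 (k8 c5434 c5432 c5316 c10897 c17897 c471 c1685 c311 (k8 c312 c5456 c1773 c14796 c1753 c10735 c1121 c1522 (k2 c5691 c3620 (k1 c5548 k0)))))) (by decide +kernel)
def c19471 : PP 9 3 T 0x800000000000000000000000000000000000000000000200000000000000000000000100000000000000000000000001000000010000000000008000 := rS 0x3247e2f82763e13cb452afd7a06a765a038c5e6c74eaad32a9da18c6a9767b34de8f7095c7e3d09f8cfa8146e82b2010202e979d089ddaa893aa2d8a5d (k8 c17796 c18348 c18350 c18354 c18356 c5454 c5493 c10107 (k8 c19356 c5329 c150 c9739 c53 c19469 c17869 c5381 (k8 c5380 c5566 c17987 c5564 c5436 c5318 c5313 c17902 (k8 c5568 c5565 c5495 c5453 c5452 c5450 c9754 c9737 (k8 c5531 c5530 c5413 c5412 c794 c445 c5434 c5432 (k8 c19470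 c5474 c716 c873 c1076 c1904 c1925 c19457 (k4 c18031 c13565 c472 c10245 (k2 c12613 c5663 (k1 c5358 k0))))))))) (by decide +kernel)
def c19472 : PP 9 3 T 0x800000000000000000000000000000000000000000000200000000000000000000000100000000000000000000000001080000000000000000008000 := rS 0x324d72f82763e13cb452afd7a06a763179b1cae9d55a6553b431a5d9ed566b4d028d3ee82b2010202e979d08914803544b15165d (k8 c17796 c18350 c18348 c18356 c5450 c19471 c458 c10107 (k8 c19356 c5329 c150 c9739 c53 c19469 c17869 c5566 (k8 c5381 c5380 c5496 c5495 c5454 c5453 c5452 c9754 (k8 c9737 c5531 c5530 c5413 c5412 c5313 c794 c445 (k8 c5434 c5474 c716 c873 c1076 c1904 c1925 c19457 (k4 c18031 c13565 c472 c10245 (k2 c19455 c5663 (k1 c17999 k0)))))))) (by decide +kernel)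
def c19473 : PP 9 3 T 0x1004800000000000000000000000000000000100000004000000000000000000000140400400000000004400000000004000000000000000000000008200 := rS 0x1f3f7b895cb5db52d3b154cacf6895509780875 (k8 c18354 c9739 c312 c1121 c1518 c9737 c5532 c5530 (k8 c5414 c5412 c5329 c5711 c5422 c17832 c3620 c5584 (k2 c5549 c5171 k0))) (by decide +kernel)
def c19474 : PP 9 3 T 0x4000000000000000000000100000004000000000000000000000000000800000000000000100000000000040000000000000020440020 := rS 0x7b84bb7 (k4 c5420 c1090 c5229 c18526 k0) (by decide +kernel)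
def c19475 : PP 9 3 T 0x1004800000000004000000000000000000000100000004000000000000000000000140000000000000004400100000004000040000000000000004448200 := rS 0x3e4e2f7ad5adb665872969d8aa6567b478a84bc04 (k8 c9739 c312 c1121 c5811 c9737 c5532 c5530 c5414 (k8 c5412 c5329 c5649 c19474 c5711 c19473 c5422 c5507 (k2 c3620 c5171 (k1 c5549 k0)))) (by decide +kernel)
def c19476 : PP 9 3 T 0x4000000000000000210000000000000000000000008000000000000002000000140000400000000004400000000000000000000000000000000008200 := rS 0x92e281ad76c0b4ec5532b3da0e9425e021bd1683 (k8 c18355 c18350 c5565 c9739 c312 c1121 c471 c9737 (k8 c5532 c5530 c5414 c5412 c150 c5711 c5422 c2631 (k2 c3620 c12930 (k1 c1774 k0)))) (by decide +kernel)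
def c19477 : PP 9 3 T 0x800000000000000000000000000000000000000000000200000000000000000000000100000000000000000000000001000000000000000000008000 := rS 0x2c16a26dbb2a39ef9d06fdbb37e26d2adf68f84f05e3d8e811932d9153e40f1b851e7d3784d1a81d05659a776ab3d2e35198fc0e17188f4479da592c160d08bcd8e574eaae2a9954ed002631480c088b2c974ca833ae618a89 (k8 c18356 c18348 c18346 c18354 c18355 c18353 c17796 c18352 (k8 c18350 c9739 c54 c9694 c9754 c53 c9737 c5531 (k8 c5530 c5414 c5413 c5412 c5313 c794 c445 c10107 (k8 c151 c150 c12627 c5329 c19356 c9733 c5436 c5434 (k8 c5433 c5432 c5318 c5316 c5450 c5452 c5453 c5454 (k8 c5493 c5495 c19469 c17869 c5380 c5381 c5564 c5565 (k8 c5566 c5568 c17902 c17987 c19471 c1602 c458 c19472 (k8 c10897 c17897 c471 c1685 c312 c472 c5456 c8113 (k8 c14796 c1518 c10735 c9899 c17576 c18006 c1076 c19475 (k8 c17287 c12681 c19476 c5420 c9148 c18411 c352 c1335 k0)))))))))) (by decide +kernel)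
def c19478 : PP 9 3 T 0x400000000020000000000000000000000000000000000000000000000000000000011100000000000418000000000000000000000810000000000000 := rS 0x12fec4eaad32a9 (k4 c5531 c5530 c5413 c5412 (k2 c6899 c1637 (k1 c18006 k0))) (by decide +kernel)
def c19479 : PP 9 3 T 0x2004400000000000000000000000000000000100000004000200000000000000000000400400000000000000000000000000000000000000000000008200 := rS 0x86d2f791dabb6710cc6e4bda784750137fcdc23f1ea0524134f9f4bcdf47e80020405d2c23933d8373ac72ba15068b (k8 c18350 c18355 c18349 c5313 c794 c19356 c151 c1685 (k8 c5438 c10107 c5329 c150 c9739 c53 c17869 c5568 (k8 c14796 c312 c5566 c1522 c5564 c311 c4283 c5436 (k8 c5318 c17902 c17809 c5565 c5502 c471 c5456 c9737 (k8 c12627 c5435 c5316 c5691 c5711 c17679 c2347 c17711 (k2 c5689 c10155 (k1 c15747 k0))))))) (by decide +kernel)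
def c19480 : PP 9 3 T 0x2000400000000000000000000000000000000100000004000200000000000000000000400000000000000000100000000000040000000000000020008200 := rS 0x12fb969b771f89be9f70a8597f3479f4de13d00fc2e3d2582c231559805374b4097925b367a759a784caa5a27b06b1caf9df08e8c60455ed3268b41a14ea65 (k8 c18353 c18354 c18349 c18355 c18350 c5438 c9737 c5413 (k8 c9739 c9754 c471 c5456 c19356 c5313 c794 c151 (k8 c1685 c8113 c5531 c5530 c472 c2385 c5412 c5543 (k8 c17576 c311 c312 c4283 c5329 c10735 c53 c5532 (k8 c5414 c10107 c150 c12627 c5436 c5433 c5318 c17869 (k8 c5564 c5565 c5566 c5568 c17809 c19474 c1121 c17902 (k8 c1522 c14796 c19479 c5466 c17720 c5920 c5229 c1095 (k1 c18526 k0)))))))) (by decide +kernel)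
def c19481 : PP 9 3 T 0x400000000004000000000000000000000200000000000000000000005000000400400500000000000490100002000000040000004000000020048000 := rS 0x1f5c1a05a9c4dfb74fb7d42ae132b5a7ef222762a9959ed1e273008111798 (k8 c18346 c18350 c9739 c53 c9719 c5811 c9737 c5532 (k8 c5530 c5414 c5412 c17783 c19004 c2936 c2887 c335 (k8 c336 c5869 c12713 c1644 c5570 c2813 c2988 c1248 (k4 c5666 c3620 c5566 c1541 k0)))) (by decide +kernel)
def c19482 : PP 9 3 T 0x2000400000000000000000000000000000000000000000000200000000000000000000000100000000000000100000000000040000000000000000008200 := rS 0x5ab7d42e14f9b8fe913884996e320d607f138aacc06fd7fecd9fe131871e33b1a344f60d63e4f3a3a0bb5d2cab669e13a9ba595d32952f2a76892021d50665 (k8 c18353 c18355 c18354 c9739 c311 c9737 c5531 c312 (k8 c1518 c5530 c5313 c5329 c10735 c5412 c472 c2385 (k8 c5413 c18006 c4295 c5433 c471 c19356 c5438 c794 (k8 c151 c1685 c8113 c19478 c5324 c5811 c19357 c9754 (k8 c5456 c5543 c17576 c5544 c5542 c54 c5532 c5414 (k8 c12622 c5318 c19480 c5340 c1773 c1753 c19481 c2869 (k8 c3037 c2917 c318 c1523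 c1542 c1122 c2388 c1149 (k1 c3620 k0)))))))) (by decide +kernel)
def c19483 : PP 9 3 T 0x2000400000000000000000000000000000000000000000000200000000000000000000000100000000000000000000000000040000000000000000008200 := rS 0x37edce2b458b2dc71d20b7d429f70d61a6ad48e87de8c6b87366967fb3c2f13058453aab8aa6552b37898ce601f0a067634669e1374b4a979a27b06b1caf93cea48083ada194ea83 (k8 c18355 c18354 c18353 c9737 c471 c9739 c311 c19356 (k8 c5438 c5313 c794 c151 c1685 c8113 c312 c1518 (k8 c5329 c10735 c472 c2385 c19478 c5324 c4283 c5456 (k8 c53 c9719 c9754 c5811 c5532 c5531 c5530 c5414 (k8 c5413 c5412 c10107 c150 c12622 c5433 c5543 c5544 (k8 c18006 c17576 c19357 c4295 c19482 c5505 c5381 c10035 (k8 c2031 c2084 c17869 c1542 c1644 c5869 c12713 c5340 (k8 c5341 c1773 c1753 c2177 c3620 c754 c5422 c1149 (k1 c5666 k0))))))))) (by decide +kernel)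
def c19484 : PP 9 3 T 0x1400000000000000010000000000000000000000000000000000000000000000000008100000000000498200102000000000000000000000020008000 := rS 0x37edce2b458b2e3a4150b7d3ee1ac38da6ad48e87df13a582c229d8aa6567b43980409b3 (k8 c5404 c9739 c53 c9719 c9737 c5532 c5530 c5414 (k8 c5412 c10107 c150 c5329 c12622 c5505 c5381 c10035 (k8 c2031 c2084 c10455 c17869 c1542 c1644 c2565 c5869 (k8 c5340 c5341 c1753 c2177 c3620 c754 c5422 c1149 (k1 c5666 k0))))) (by decide +kernel)
def c19485 : PP 9 3 T 0x1000000000000004000000000000000000000200000000000000000000000010000400018400000000000400100000004000840000004000000004008000 := rS 0x1bcd32228426044ac773075 (k8 c18354 c18346 c5341 c1518 c9739 c318 c1121 c17783 (k2 c2936 c19465 (k1 c2565 k0))) (by decide +kernel)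
def c19486 : PP 9 3 T 0x100000000000000000000000000000000000000000080000080400000000000000000000002000000040000004000000000010000 := rS 0x114fc49 (k4 c2946 c2388 c503 c19059 k0) (by decide +kernel)
def c19487 : PP 9 3 T 0x1000000000000004000000000000000000000200000000000000000000000010000000018000000000000408100002000001840000004800000020008000 := rS 0x453f09d40df70a456a9fd09b996e320c4c229d8aa6566d70dbd957b4 (k8 c9737 c5413 c1647 c2103 c4297 c5532 c5530 c5414 (k8 c5412 c10107 c12622 c5340 c1773 c1753 c19485 c5565 (k8 c2816 c1149 c3038 c1542 c19486 c3620 c2927 c1122 (k2 c335 c19059 k0)))) (by decide +kernel)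
def c19488 : PP 9 3 T 0x100000000000000000000000000000140000400000000014400000000000000000001000800000000008000 := rS 0x71ad6964b4ec5532b3da0a40604 (k8 c9739 c54 c9694 c9737 c5532 c5530 c5414 c5412 (k4 c12627 c5329 c9106 c1774 (k1 c3620 k0))) (by decide +kernel)
def c19489 : PP 9 3 T 0x200000000000000000000000100000000000080000000000001040000000000000000008200 := rS 0x1ee12fcc90df4fb8542cb479f4de13d05651a1cd98fc2e3d0584402f140cec689ba5a54bc92026d1eacef6b34f1e11d344f60d6395f279def8dcea83 (k8 c18355 c18354 c5435 c19477 c19356 c5438 c5313 c794 (k8 c151 c1685 c8113 c471 c5456 c472 c2385 c19483 (k8 c5688 c2339 c9737 c9739 c311 c312 c1518 c5329 (k8 c10735 c19478 c5324 c4283 c5811 c53 c10107 c150 (k8 c5436 c5433 c5318 c5404 c19357 c19484 c19487 c17869 (k8 c5564 c5565 c5566 c5568 c19474 c1121 c17902 c1522 (k4 c14796 c19488 c5588 c10629 (k2 c5899 c18526 k0)))))))) (by decide +kernel)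
def c19490 : PP 9 3 T 0x8000000040000000000000100000000000200000000000000000000000000000000000000000000000000000000000800000000008000 := rS 0x36e7dd0676960bda0440204 (k8 c9739 c53 c10107 c9737 c150 c5329 c19356 c17869 (k2 c5566 c19230 (k1 c19448 k0))) (by decide +kernel)
def c19491 : PP 9 3 T 0x200000000001080000400008400000000000000000000004000800000200000000000008000 := rS 0xfa9ed02d5228ff9b85befe24405a63fcec4de69d8aa6567b44dd2cae1302285165d (k8 c17796 c18350 c1121 c9739 c318 c5313 c5329 c10735 (k8 c9737 c5532 c5530 c5414 c5412 c445 c12622 c19356 (k8 c5318 c2936 c3067 c503 c504 c2565 c1653 c5588 (k4 c2842 c3008 c2572 c5675 (k2 c3620 c5566 (k1 c1522 k0)))))) (by decide +kernel)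
def c19492 : PP 9 3 T 0x8000000000000000000000200000000000200000000001080000400008400000000000000000000004000840000000000000000008000 := rS 0x71d0edd184509845e2730081036abda19c871d45965125d (k8 c17796 c18356 c18352 c18350 c5341 c5561 c5487 c9737 (k8 c5413 c2103 c9739 c53 c9719 c5811 c10107 c318 (k4 c19491 c12615 c17812 c5381 (k2 c753 c5666 k0)))) (by decide +kernel)
def c19493 : PP 9 3 T 0x200000000000000000000000100000000000000000000000001040000000000000000008200 := rS 0x1ef69b544fe350385be915aa7f426e65b8c8225ac3f764970db5deccef6b353695d8b47c2782f248f63ac98ff3b13a583422c72ba7557154cacf68f10277d0675 (k8 c18354 c18355 c19477 c9739 c5811 c9737 c5532 c5530 (k8 c5414 c5413 c5412 c5313 c794 c10107 c151 c5329 (k8 c12622 c19356 c5318 c5438 c471 c1685 c311 c312 (k8 c472 c5456 c8113 c5444 c1518 c10735 c2385 c19483 (k8 c5688 c1647 c4297 c2103 c19489 c17795 c10429 c19490 (k8 c5559 c5340 c1773 c1753 c19492 c5565 c2816 c1149 (k8 c3038 c19486 c1542 c3620 c5578 c2927 c3001 c14403 (k2 c17816 c5689 k0)))))))) (by decide +kernel)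
def c19494 : PP 9 3 T 0x80000000000000000000000000200000000000001000000000100000000000040000000000001040000000000000000000100 := rS 0x4a074cf3b1a1dcae33038c4d2c532964ea5d (k8 c17796 c18354 c18352 c18353 c18348 c18347 c5434 c5432 (k8 c5316 c5313 c5356 c10897 c10693 c10711 c332 c18033 (k1 c10191 k0))) (by decide +kernel)
def c19495 : PP 9 3 T 0x2000100000000000000000200000000000200000000000000000000000100000000000040000008800000440000000800000000008000 := rS 0x803fd1cd2090996aad659b8e2b10e6cc36359d3f5eef5f6b310c33188f6274b79a7556a959ed1e27300f844b1d719059e934fa876e3f0c85c5203022258a5d (k8 c17796 c18348 c18356 c9739 c54 c9694 c5433 c5315 (k8 c5318 c17858 c5398 c5448 c5444 c1648 c5340 c1773 (k8 c5341 c5559 c5456 c53 c9719 c5811 c9737 c5532 (k8 c5531 c5413 c5412 c445 c5329 c12622 c5436 c5434 (k8 c5316 c889 c890 c5499 c1921 c2071 c2505 c5657 (k8 c5324 c5475 c6724 c17904 c2177 c19180 c5666 c8466 (k8 c2817 c1149 c3579 c2813 c17388 c476 c2943 c18088 (k1 c2848 k0)))))))) (by decide +kernel)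
def c19496 : PP 9 3 T 0x100000000000000000200000000000200000000000000000000000100000000000040000000000001040000000800000000008000 := rS 0x339dd2bb03d64c0ef131810bfe13c8258e57cea77686932b14ea59 (k8 c18352 c18354 c18348 c18353 c18347 c9737 c5412 c19356 (k8 c5313 c794 c19493 c1535 c5456 c10245 c9739 c9754 (k8 c5811 c5432 c19494 c10869 c5663 c5446 c19495 c10711 (k1 c18020 k0)))) (by decide +kernel)
def c19497 : PP 9 3 T 0x200000000000001000000000000000000000084000000400000040000000000000000000100 := rS 0xecec68571981c2e313ab14b25d (k8 c17796 c18352 c18348 c18354 c5434 c5433 c5432 c5316 (k4 c5313 c3567 c10693 c331 (k1 c19357 k0))) (by decide +kernel)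
def c19498 : PP 9 3 T 0x1000000000044000000000000000000000000000008000200000000001000000400004000000000014004000000008000400000010000001000008000 := rS 0x803fd1cd20909996b558ab4323f0b8f626ab54acf6829018111265 (k8 c18353 c18356 c9739 c54 c9694 c9737 c5532 c5531 (k8 c5413 c12622 c5436 c5433 c5318 c5315 c2817 c1146 (k8 c1149 c1144 c3579 c2813 c17388 c476 c2943 c18088 (k1 c2848 k0)))) (by decide +kernel)
def c19499 : PP 9 3 T 0x1000000000046000100000000000000000000000000000200000000000000000400000000000000000000000008800001440000010000001000008000 := rS 0x7d099bcfe459d3f5aef77afb598866795c663f0bd2c22f300811269f50a6d8a5d (k8 c17796 c18348 c5397 c5398 c5448 c5444 c9739 c53 (k8 c445 c10107 c5329 c5433 c5318 c5316 c5313 c1648 (k8 c889 c890 c5499 c1921 c2071 c4537 c2504 c5657 (k4 c5326 c19059 c19498 c318 (k2 c19050 c15534 k0))))) (by decide +kernel)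
def c19500 : PP 9 3 T 0x2000100000000000000000200000000000200000000000000000000000000000000000080000000000001040000000800000000008100 := rS 0xc99ecedb7498647e17788a406042ff84f2c72be753bb412b8c83b3 (k8 c5404 c5340 c1773 c5559 c9737 c5412 c19356 c5313 (k8 c794 c1535 c5456 c10245 c9739 c54 c9694 c5811 (k8 c5433 c5318 c5315 c5444 c17858 c19497 c19499 c5356 (k1 c5669 k0)))) (by decide +kernel)
def c19501 : PP 9 3 T 0x44000100000000000000000000000004000000100000000000000000000000000000000000000000004000000000000000000004000020 := rS 0x15e70099cc028b (k4 c18350 c53 c9719 c318 (k2 c5666 c2988 (k1 c18920 k0))) (by decide +kernel)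
def c19502 : PP 9 3 T 0x4000000000000000010000000000100000000000880000000000000000000000020000000008000 := rS 0x3dfdacf7e52de65d (k8 c17796 c445 c5329 c1231 c2563 c5542 c502 c5657 k0) (by decide +kernel)
def c19503 : PP 9 3 T 0x200000000000000000200000000000000000000000010000000000000000000000000008000 := rS 0x4d028f2b8fc7b13 (k8 c12622 c5436 c5318 c5313 c2846 c1717 c476 c17902 k0) (by decide +kernel)
def c19504 : PP 9 3 T 0x2000400000000001000100000000000000000200000000000200000000000010000080400000000000000000000000400000040000000000000000008000 := rS 0x1a5ef09b5493e31f92c08f32191dfe5d (k8 c17796 c5544 c5562 c5561 c445 c9739 c12627 c5318 (k4 c5580 c2946 c3002 c19025 (k2 c17892 c5689 (k1 c18954 k0)))) (by decide +kernel)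
def c19505 : PP 9 3 T 0x4000100000000000000000000000004000000100000000000000000000000002000000000000000000000000000000000000004008000 := rS 0x37ede2604 (k4 c9739 c12622 c5422 c1149 (k1 c19501 k0)) (by decide +kernel)
def c19506 : PP 9 3 T 0x1000100000000000000000200000000000200000000000000000000000000000000020080000000400000040000000000000000000020 := rS 0x9b4bc63f (k4 c5318 c5578 c1234 c19025 (k1 c18954 k0)) (by decide +kernel)
def c19507 : PP 9 3 T 0x100000000000000000200000000000200000000000000000000000100000000000000000000000001040000000800000000008000 := rS 0xce69bd827edf1b7942b570a6deacb0e35d253b4f8d0ee7dc96c437b34b0cc7e070b8c696f38aa6552b37898c09df2ff84f2096395f3a9dda475c6413ab14b25d (k8 c17796 c18352 c18348 c18354 c5340 c1773 c5341 c9737 (k8 c5412 c19356 c5313 c794 c19493 c1535 c5456 c10245 (k8 c19477 c9739 c9754 c5811 c5532 c5531 c5530 c5414 (k8 c445 c5329 c5434 c5433 c5432 c5318 c5316 c19496 (k8 c5404 c1073 c19500 c5663 c5442 c5356 c10897 c17750 (k8 c10693 c19497 c1763 c19357 c1753 c1998 c19502 c19503 (k8 c19505 c19506 c3620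 c5580 c19504 c19025 c5657 c18954 (k2 c502 c2565 k0)))))))) (by decide +kernel)
def c19508 : PP 9 3 T 0x200000000000200000000000000000000000100000000000000000000000001040000000800000000008000 := rS 0x1ee09e83be09 (k4 c19493 c19477 c19507 c5564 (k2 c18481 c19004 k0)) (by decide +kernel)
def c19509 : PP 9 3 T 0x4000200000000044000000080000000000000000081500000000000400000080000000000008000 := rS 0xf6219eef580871a217cec4de711a5aa768f102661065d (k8 c17796 c18355 c18346 c9739 c5811 c9737 c5531 c5329 (k8 c9727 c445 c12622 c19356 c5433 c9368 c19357 c2953 (k4 c1998 c2107 c18001 c5657 (k1 c5499 k0)))) (by decide +kernel)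
def c19510 : PP 9 3 T 0x8000000000000000000000000000000000000000000000000200000000000000000080000100000000000000000000000001040000000800000000008000 := rS 0x3fec0f5934ba44923f25bc4c65ff09e412c72ba77688f81bfe76422284d1ba0ac804080ba5e74231d2ea24b28b (k8 c18350 c18352 c18356 c17796 c5504 c10107 c19356 c5329 (k8 c150 c9739 c53 c19508 c17869 c5381 c5564 c5582 (k8 c12615 c17287 c5586 c5508 c5568 c9737 c5412 c5313 (k8 c794 c19493 c1535 c5456 c10245 c9754 c5811 c12627 (k8 c5318 c2946 c19449 c19509 c19494 c10869 c5663 c891 (k1 c15334 k0)))))) (by decide +kernel)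
def c19511 : PP 9 3 T 0x88000000000000000000200000000000000000000000000000000000000000000000000000000000000000000000000000000040000000000000000008000 := rS 0x1e8867bfb6029189d2de68f81bfe76422284c228d8ee61068b429751259 (k8 c18352 c18356 c17796 c18349 c18350 c18355 c18346 c5504 (k8 c5381 c10107 c5564 c5582 c12615 c17287 c5586 c5508 (k8 c5568 c445 c5329 c12622 c5589 c5592 c17809 c2107 (k2 c18001 c5657 (k1 c1921 k0))))) (by decide +kernel)
def c19512 : PP 9 3 T 0x8000000000000000000000000000000000000000000000000200000000000000000000000100000000000000000000000001040000000800000000008000 := rS 0x3d038484b38b25f36f90a76458e85d53b478f84f28df1b84264b0481d8e571e8fcfa81d0564020405d2f3a1145965125d (k8 c17796 c18356 c18352 c18350 c10107 c19356 c5329 c150 (k8 c9739 c53 c19508 c17869 c5380 c5566 c5318 c5436 (k8 c5313 c794 c5432 c19493 c12627 c5564 c12655 c17785 (k8 c5381 c1535 c5456 c5811 c9737 c5531 c5433 c5504 (k8 c5582 c17287 c12615 c19510 c19511 c18204 c5691 c19494 (k4 c1774 c19357 c3033 c1998 k0)))))) (by decide +kernel)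
def c19513 : PP 9 3 T 0x200000000000000000800000100000000000000000000000001040000000800000000008000 := rS 0x114861c8ec052d3b1a7b3244820355bff31985c62f1eff84f3e37084c960903b1cae3d1f9f503a0ac804080ba5e7423ef2cb14ea5d (k8 c17796 c18354 c18348 c18352 c19512 c10107 c19356 c5329 (k8 c150 c9739 c53 c19508 c17869 c5380 c5566 c5318 (k8 c5436 c5313 c794 c5432 c19493 c12627 c5564 c12655 (k8 c17785 c1535 c5456 c19477 c5811 c5434 c5433 c5316 (k8 c5549 c207 c17679 c1773 c1774 c18204 c5204 c10897 (k8 c11596 c19494 c5502 c553 c19357 c3032 c3684 c5658 k0)))))) (by decide +kernel)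
def c19514 : PP 9 3 T 0x80000000000000000000000000000000000000100000000000200000000000000000000000000000000000000000000000001000000000800000000008100 := rS 0x3fec0f5934898cbfe13cb1cae9dda680020405d2f3a11 (k8 c10107 c19356 c5329 c150 c9739 c53 c17869 c9737 (k8 c5412 c5313 c794 c1535 c5456 c10245 c9754 c5589 (k4 c19454 c10869 c5663 c891 (k1 c15334 k0)))) (by decide +kernel)
def c19515 : PP 9 3 T 0x200000000000000000000000100000000000000000000000001040000000800000000008000 := rS 0x6b116053b23245ff0143927d8def9b8fdee1f1a3cfa1346a074159f08fc0e3dcec4e964b058458e5700813be0944a15068b (k8 c18350 c18355 c18349 c18356 c19493 c19477 c9739 c53 (k8 c5313 c794 c10107 c150 c12627 c5329 c12622 c19356 (k8 c5436 c5432 c5318 c5456 c19508 c17869 c5380 c5381 (k8 c5564 c5566 c5568 c17785 c12655 c19512 c19513 c19514 (k8 c5691 c5204 c2946 c5499 c5502 c5544 c19449 c5660 (k4 c13510 c3613 c2972 c2517 (k1 c19455 k0))))))) (by decide +kernel)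
def c19516 : PP 9 3 T 0x2000000000000000000200000000000000000100000000000200000000000000000080000000000000000000000000000000000001800000000000008100 := rS 0x1ac45814edff0143c4d1a8f48844974b44a15068b (k8 c18350 c18355 c18349 c18356 c5329 c12627 c10107 c19449 (k8 c5568 c5381 c12622 c5499 c5502 c5544 c13510 c3613 (k2 c2972 c2517 (k1 c19455 k0)))) (by decide +kernel)
def c19517 : PP 9 3 T 0x40000000000000000000200000000000000000100000000000200000000000000000080000100000000000000000000000001040000000000000000008000 := rS 0xffb03d64d2e429dbfc8b038efbbda4648d2c96f131813be8df184cfa0908924765ff09e51ec72be753bb445965125d (k8 c17796 c18356 c18352 c18350 c9737 c5412 c19356 c5313 (k8 c794 c5568 c2387 c5538 c10245 c19515 c2947 c10107 (k8 c19493 c5566 c5564 c17785 c5381 c19477 c9739 c9754 (k8 c5811 c12627 c5329 c19449 c5660 c19516 c5204 c5504 (k8 c5508 c5582 c5586 c17287 c12615 c19509 c19494 c5669 (k2 c5663 c891 (k1 c15334 k0))))))) (by decide +kernel)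
def c19518 : PP 9 3 T 0x400000000000000200000000000000000200000000000200000000000000000000000000000000000000000000000000040000000000000000000100 := rS 0x3dc13 (k2 c5564 c18481 (k1 c19004 k0)) (by decide +kernel)
def c19519 : PP 9 3 T 0x200000000000000000000000000000200000000000000000080000100000000000000000000000001040000000000000000008000 := rS 0x7fd81eb27f24897cf249f0e76964b08b1cae9dda18c083b47d6413df (k8 c19477 c19493 c19518 c5568 c19515 c9739 c9754 c9737 (k8 c5412 c5313 c794 c10107 c12627 c5329 c19356 c5538 (k8 c2947 c2387 c10245 c19449 c19517 c19454 c5669 c5663 (k2 c891 c15334 k0)))) (by decide +kernel)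
def c19520 : PP 9 3 T 0x80000000000000000000000000000000000000100000000000200000000000000000540000000000000000000000100000001400000000400000000008000 := rS 0x472089995b00ba762ab3da18c5203022d72611 (k8 c10107 c19454 c5548 c9739 c54 c9694 c9754 c9737 (k8 c5532 c5414 c5412 c5433 c5663 c6118 c9148 c19445 (k2 c2864 c19019 k0))) (by decide +kernel)
def c19521 : PP 9 3 T 0x80000000000000000000000000000000000000000000000000200000000000000000440000000000400000004000000000000000000000400008000000000 := rS 0x8247 (k2 c2864 c349 (k1 c17862 k0)) (by decide +kernel)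
def c19522 : PP 9 3 T 0x80000000000000000000000000000000000000100000000000200000000000000000540000000000000004000000100004001000000000400000000008100 := rS 0x1949b13a85265e5a95c2f4b4ec5532b3da0a40604 (k8 c9739 c54 c9694 c9737 c5532 c5530 c5414 c5412 (k8 c5329 c5433 c5313 c5548 c19520 c1516 c1121 c19521 (k2 c10735 c3620 (k1 c9148 k0)))) (by decide +kernel)
def c19523 : PP 9 3 T 0x4000400000000000000200000000000000000100000004000200000000000000000000000800000000000004000000000000000000000000000000000020 := rS 0xd96dc4a17 (k4 c5433 c1090 c5420 c5229 (k1 c18483 k0)) (by decide +kernel)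
def c19524 : PP 9 3 T 0x4000400000000000000200000000000000000100000000000200000000000000000000000800000000000004000000000000000000000000000000008100 := rS 0x69470ed3a1981d1be320899aa7edb95c4a171480c087d1e844268b2c974eac5 (k8 c18348 c18354 c17796 c18352 c18350 c5564 c10107 c5436 (k8 c5566 c9739 c54 c9694 c5433 c1090 c5313 c5420 (k8 c12670 c2998 c9148 c349 c17785 c5381 c5432 c5316 (k4 c19523 c10693 c12681 c10131 (k1 c2082 k0))))) (by decide +kernel)
def c19525 : PP 9 3 T 0x40000400000000000000200000000000000000000000000000200000000000000000000010800000000000004000000000000040000000000000000008100 := rS 0xf4801088b1df71208e7e1289b6e070b8f73b4b258458e5759ed1e2631480c088d099f6b28345965125d (k8 c17796 c18356 c18352 c18350 c18355 c19518 c5566 c5564 (k8 c5381 c9739 c54 c9694 c9754 c5811 c9737 c5532 (k8 c5313 c794 c10107 c12627 c5329 c19356 c5436 c5433 (k8 c5432 c5420 c9148 c1090 c12670 c2864 c5660 c19524 (k4 c5504 c5582 c12615 c10155 (k2 c3033 c10144 k0)))))) (by decide +kernel)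
def c19526 : PP 9 3 T 0x40000000000000040000000000000000000000000000000000200000000000000000000010000000000000000000080000000000002480000001000008000 := rS 0x3d200071ee76964b6395de2631480c0883 (k8 c18355 c9739 c54 c9694 c9754 c5811 c5313 c794 (k8 c12627 c5329 c19356 c5436 c5432 c10155 c3033 c10144 k0)) (by decide +kernel)
def c19527 : PP 9 3 T 0x400000000040000200000000000000000100000000000200100000000000000000000000000000000004000000000000040000040000001000008000 := rS 0xd97bc893b020451a1345965125d (k8 c17796 c18356 c18352 c18350 c5564 c5381 c10107 c9739 (k4 c12681 c12615 c5582 c5229 (k1 c18483 k0))) (by decide +kernel)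
def c19528 : PP 9 3 T 0x40000400000000000000200000000000000000000000000000200000000000000000440000000000000000000000000000000840000000400000000008100 := rS 0x76698d7df1c21b54827e129208fb75a32d4293a5a762a9959ed05203469bd3e04acb4537e0f1b84264b03b1cae3d1f9f50211cc164ea8b (k8 c18350 c18354 c18352 c18346 c10107 c5380 c5566 c5318 (k8 c5436 c5313 c794 c5432 c12627 c5564 c12655 c17785 (k8 c5691 c5536 c5459 c19518 c9739 c15291 c5565 c5381 (k8 c54 c9694 c9737 c5532 c5530 c5414 c5412 c5329 (k8 c1516 c1121 c19525 c3620 c5422 c2346 c9106 c1095 (k8 c12670 c511 c2998 c19526 c19527 c5504 c3755 c2082 (k2 c17897 c10131 k0))))))) (by decide +kernel)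
def c19529 : PP 9 3 T 0x40000200000000000000000100000000000200200000000000000000000000000000000004000000000000040000000000001000008100 := rS 0xecd51a9f84c571e8a4060446f8c267d08fbda633cc164ea8b (k8 c18350 c18354 c18352 c18346 c5316 c2081 c5504 c10107 (k8 c5566 c5564 c17785 c5381 c9739 c54 c9694 c5436 (k4 c5313 c5651 c12670 c3696 (k2 c2998 c17897 (k1 c10131 k0))))) (by decide +kernel)
def c19530 : PP 9 3 T 0x210000000000000000000000000000000000000000000000540000440000000000000000004000001400000000000002000008000 := rS 0x64d6a9138c4c97b431811028f (k8 c5568 c5380 c9739 c9754 c9737 c12627 c12622 c6185 (k4 c17680 c1095 c17932 c19446 k0)) (by decide +kernel)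
def c19531 : PP 9 3 T 0x400000000000000200000000000000000000000000000200200000000000000440000400000000000004000000000001440000000000001000008100 := rS 0xc94eb63b35aed836adf7a762ab3da3c4c629018111ae10992c0ec72b8f47e7d40846b259 (k8 c18352 c19518 c10107 c5380 c5566 c5318 c5436 c5313 (k8 c794 c5432 c12627 c5564 c12655 c5381 c9739 c54 (k8 c9694 c9754 c5811 c9737 c5532 c5414 c5412 c5504 (k8 c2029 c2162 c19529 c5422 c19230 c6118 c18503 c5663 (k1 c11596 k0))))) (by decide +kernel)
def c19532 : PP 9 3 T 0x80000000000000000000000000200000000000001000000000100000000000004000000000001040000000000000000000100 := rS 0x12c77 (k2 c5356 c19494 (k1 c19497 k0)) (by decide +kernel)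
def c19533 : PP 9 3 T 0x200000000000000000000000000000200000000000000000400000100000000000004000000000001040000000000000000008000 := rS 0x844823edd687ed864e3a2565e76969d8aacf68f1318a4067b68f83c65ff9d65c2132581d8e571e8fcfa9f08810de816f8ec13df (k8 c19477 c19493 c19515 c19519 c5380 c5565 c9739 c10107 (k8 c15291 c5566 c5318 c5436 c5313 c794 c5432 c12627 (k8 c5564 c12655 c19518 c19522 c19528 c17785 c5691 c5459 (k8 c15912 c54 c9694 c9754 c5811 c9737 c5532 c5414 (k8 c5412 c5329 c19356 c19525 c19530 c19531 c19532 c5663 (k4 c15334 c6118 c5422 c2346 (k2 c9106 c19527 (k1 c19526 k0)))))))) (by decide +kernel)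
def c19534 : PP 9 3 T 0x200000000000000000000000000000200000000000000000400000100000000000000000000000001040000000000000000008000 := rS 0x9040481ff25b14917cf7f389d2cc63b37a3d3e04f1b84264b03b1cae3d1f9f50211ac827bedf (k8 c19519 c19477 c19493 c19518 c10107 c5380 c5566 c5318 (k8 c5436 c5313 c794 c5432 c12627 c5564 c12655 c17785 (k8 c9739 c15291 c5568 c5565 c19515 c9754 c5329 c12622 (k8 c19522 c15912 c19528 c19533 c5444 c5663 c5358 c17932 (k2 c12613 c19449 (k1 c512 k0)))))) (by decide +kernel)
def c19535 : PP 9 3 T 0x40000000000000000000000000000000000000000000000000000000000000008000000000005000000000000000000000100 := rS 0xbfb1 (k2 c5444 c1516 (k1 c5663 k0)) (by decide +kernel)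
def c19536 : PP 9 3 T 0x40000400000000040000200000000000000000000000000000200000000000000000000010000000000000004000080000000040000400000000000008100 := rS 0x10a3a252452eb24b (k8 c12627 c19518 c5329 c5660 c10629 c19529 c19527 c19526 k0) (by decide +kernel)
def c19537 : PP 9 3 T 0x200000000000000000000000000000200000000000000000000000100000000000000000000000001040000000000000000008000 := rS 0x17941b113ed9969368e4cfc4112920f647f9b8ab29f3e9bc26810c8fc0e171b8f73b4b258458e57318a40604ef8247675 (k8 c18354 c19515 c19493 c19477 c9739 c54 c9694 c9754 (k8 c5313 c794 c10107 c12627 c5329 c19356 c5436 c5435 (k8 c5433 c5432 c5318 c5315 c5380 c5564 c5565 c5566 (k8 c15291 c19518 c19534 c5549 c2347 c1775 c5660 c10629 (k8 c511 c12613 c5358 c8113 c19535 c19525 c19536 c5570 (k4 c17815 c3579 c5663 c1121 k0)))))) (by decide +kernel)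
def c19538 : PP 9 3 T 0x40000000000000000000110040000000000000000000000000000000400000000000000000000000000000001000080000000000000000000000000000000 := rS 0x6fa3bc1e3 (k4 c5577 c5188 c5675 c5538 (k1 c2923 k0)) (by decide +kernel)
def c19539 : PP 9 3 T 0x80000400000000081000100000000000000000000000000000200000000000000000000001100000000000044000000000000800000000000000000008000 := rS 0xd4efdbb279a7557154caa567b41480c4a438e91eb00105e7422954dd2cae0413ac4ea5d (k8 c17796 c18354 c5421 c5570 c9739 c5313 c5329 c10735 (k8 c1518 c10107 c19356 c150 c53 c17869 c5562 c5341 (k8 c5561 c12632 c54 c9694 c9737 c5532 c5531 c5530 (k8 c5414 c5413 c5412 c445 c17795 c18006 c17883 c18617 (k1 c18957 k0))))) (by decide +kernel)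
def c19540 : PP 9 3 T 0x400000000001000100040000000000000000000000000200000000000000000000000100000000000004000080000000840000010400000000008000 := rS 0x22349ae96669e3c2def9244dca065ed87f136395d3b15da0a40647ac004080ba5e742283 (k8 c18355 c10107 c19356 c5329 c150 c9739 c53 c17869 (k8 c5562 c54 c9694 c9737 c5414 c5412 c5313 c794 (k8 c12622 c5318 c18926 c5420 c19210 c1121 c3038 c19538 (k8 c19019 c5538 c10245 c2385 c19539 c1767 c1234 c19059 (k1 c2936 k0))))) (by decide +kernel)
def c19541 : PP 9 3 T 0x40000000000000040000110000000000000000000000000000000000000000000000440000400000000010401000000000000800000000000000000008000 := rS 0x70ad53e8e38c4cda238aacce601021ed3bb4 (k8 c9737 c5412 c1686 c9739 c53 c9719 c5532 c5414 (k8 c9733 c741 c12622 c10427 c5675 c1523 c2402 c2847 (k1 c5920 k0))) (by decide +kernel)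
def c19542 : PP 9 3 T 0x1000000000000000000000000000000000200000000000000000000000100000000000004000000000001040000000000000000008000 := rS 0x12ecf7ea78f1ec569f0e13b7b910266f7fa35ea90f9b7dc6cbf16dd427f689ed36952f035e6c72ba7557154caa76863398a407df1d9048f58d0804174bce847260978811066545e60ea5d (k8 c17796 c18354 c18346 c18350 c18353 c18355 c9739 c5811 (k8 c19493 c19532 c10107 c19356 c5329 c150 c53 c19537 (k8 c17869 c5562 c12636 c19515 c19477 c54 c9694 c9719 (k8 c9754 c9737 c5531 c5530 c5414 c5413 c5412 c5313 (k8 c794 c445 c151 c5663 c1518 c10735 c1686 c8113 (k8 c19540 c1122 c19210 c5236 c5464 c5466 c5580 c17862 (k8 c19541 c10333 c10035 c3008 c3038 c3037 c17837 c504 (k8 c17961 c5666 c17785 c2887 c5657 c3041 c2870 c5542 (k2 c5543 c1644 (k1 c9899 k0)))))))))) (by decide +kernel)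
def c19543 : PP 9 3 T 0x400000000002000100040000000000000000000000000200000000000000000000000000000000000002000000000000040000000000000000008100 := rS 0x673f2bd5be3f79f4e044099bd028d2b81c7a0d8aed1e27320edeb00105d2f3a111f8642e29018111798 (k8 c18346 c18350 c9739 c54 c9694 c5433 c5315 c5318 (k8 c10107 c19356 c5329 c150 c53 c17869 c17858 c12636 (k8 c9719 c5811 c9737 c5414 c151 c5436 c5432 c5313 (k8 c10035 c17681 c3038 c3037 c17837 c5666 c19050 c19004 (k4 c17028 c2887 c2988 c12613 (k2 c5282 c18952 k0)))))) (by decide +kernel)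
def c19544 : PP 9 3 T 0x2000100000000000000000000000000000000000000000000000140000000000000000000800100010000000000000000000000008000 := rS 0x1c6cb4ec5532b3da27d429b5a9cc0204 (k8 c9739 c53 c9719 c2402 c5397 c5398 c5448 c9737 (k4 c5532 c5530 c5414 c5412 (k2 c8797 c2404 (k1 c3620 k0)))) (by decide +kernel)
def c19545 : PP 9 3 T 0x2000000000000000000000000000000000000000000000200000000000000000000000100000000000414000000400000040000000400000000008100 := rS 0x3f59ef4f6bdd2f3b1a15c6607188de96f34eaad32a9da3c408cd3ab14b25d (k8 c17796 c18352 c18348 c18354 c5537 c9739 c5811 c9737 (k8 c5531 c5530 c5413 c5412 c445 c5329 c5435 c5434 (k8 c5432 c5316 c5313 c3567 c10693 c19497 c501 c18006 (k4 c5657 c2339 c2338 c18031 k0)))) (by decide +kernel)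
def c19546 : PP 9 3 T 0x40002000000000002000100000000000000000000000000000200000000000000000100000100000000000004800000010000040000000400000000008100 := rS 0x3dbef57bfd18d23b201bf1554acf68a14da5607015aac4ddb7ac02e979d088fc32171480ce60102224ca83 (k8 c18355 c18353 c18356 c9739 c53 c9719 c54 c9694 (k8 c5433 c5315 c5318 c10107 c19356 c5329 c150 c17869 (k8 c17858 c5666 c1146 c2402 c2848 c2405 c5446 c5397 (k8 c5398 c9737 c5532 c5531 c5414 c5538 c19544 c19545 (k4 c939 c938 c2942 c2940 (k2 c5505 c10405 (k1 c5694 k0))))))) (by decide +kernel)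
def c19547 : PP 9 3 T 0x40000000000000002000100040000000000000000000000000200000000000000000000000100000000000004800040010000840000000400000000008100 := rS 0x40b7fc478f0b84f79d6395d3bb4 (k8 c9737 c5412 c5313 c794 c19356 c1686 c2847 c19546 (k4 c10245 c5188 c2388 c5463 (k1 c19544 k0))) (by decide +kernel)
def c19548 : PP 9 3 T 0x200000000000000000000020040000000000000000000000000040000000400000000000100 := rS 0x6a772b8cc0e313ab14b25d (k8 c17796 c18352 c18348 c18354 c5434 c5432 c5316 c5313 (k2 c2132 c1704 (k1 c3567 k0))) (by decide +kernel)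
def c19549 : PP 9 3 T 0x2000000000000000000000000000000000200000000000001000000000000000000000004000000400000440000000000000000000100 := rS 0xce972b81d2a6932b14ea59 (k8 c18352 c18354 c18348 c18353 c18347 c5446 c5432 c5313 (k2 c19497 c10711 (k1 c18020 k0))) (by decide +kernel)
def c19550 : PP 9 3 T 0x40000000000000000000000000000000000000000000000000200100000000000000200010000000000000000800000800000040000010000000000008000 := rS 0x4efdcf77afb598867f9e866391ed2de70380a25065d (k8 c17796 c18355 c18356 c2848 c2405 c445 c5329 c5436 (k8 c5317 c5316 c2847 c3013 c889 c890 c5499 c1921 (k4 c2071 c5694 c12469 c5657 k0))) (by decide +kernel)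
def c19551 : PP 9 3 T 0x40000000000000002000100040000000000000000000000000200000000000000000000000100000000000005000000000000040000000400000000008100 := rS 0xf1203c2e13b37c90121332cbe6e471fce23d899b446b3da3c4e62520c75a2c72ba7d43b7ac004174bce8447e190b8a40604 (k8 c9739 c54 c9694 c5433 c5315 c5318 c10107 c19356 (k8 c5329 c150 c53 c17869 c17858 c5398 c5448 c5313 (k8 c794 c19548 c5341 c12636 c12632 c9719 c5811 c9737 (k8 c5532 c9733 c741 c12622 c5436 c10427 c19538 c5675 (k8 c5666 c19547 c8466 c3579 c2813 c475 c2946 c19549 (k4 c19550 c19546 c19544 c5188 (k1 c5463 k0))))))) (by decide +kernel)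
def c19552 : PP 9 3 T 0x40000100000000000000000000000000000200000000000000000080000000000000014004000040000001000000000000000000048000 := rS 0x2f1e47e17ce8113bb4f09f58e57 (k8 c5313 c794 c2830 c5538 c9737 c5412 c9739 c19356 (k4 c5433 c5318 c2388 c15534 (k1 c10245 k0))) (by decide +kernel)
def c19553 : PP 9 3 T 0x200000000000000000000000100000000000004000000000001040000000000000000008000 := rS 0x11c703d9f826de24fc923b750a7f61930c8fc2ec72bacf68f1398a407df1d9041247ac684020405d2f3a11 (k8 c10107 c19356 c5329 c150 c9739 c53 c19537 c17869 (k8 c5562 c19493 c12636 c19515 c19477 c54 c9694 c9719 (k8 c5811 c9737 c5532 c5313 c794 c5433 c5318 c5315 (k8 c19532 c19542 c5448 c5398 c17858 c19543 c19551 c5588 (k4 c19019 c475 c19552 c891 (k2 c17735 c14796 (k1 c2874 k0))))))) (by decide +kernel)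
def c19554 : PP 9 3 T 0x200000000000000000000000100000000000000000000000001040000000000000000008000 := rS 0x1a7ef4684daa90f1b89bfe1f626deab55087037b36bbde76e14b27c68773f9e4fb9265ec5251d20d63423b0495c663f0385c639d89d2c161179a762a9954acf68017898c09df3ab14b25d (k8 c17796 c18352 c18348 c18354 c19477 c9739 c9754 c5811 (k8 c53 c9737 c5532 c5531 c5530 c5414 c5412 c445 (k8 c10107 c150 c5329 c12622 c19356 c5434 c5433 c5432 (k8 c5318 c5316 c5313 c19493 c19515 c19537 c17869 c12636 (k8 c5341 c19553 c5444 c1753 c19535 c5442 c5441 c5358 (k8 c5356 c10897 c17750 c19494 c19503 c10693 c501 c1763 (k8 c5404 c1073 c1638 c19506 c19505 c1998 c19502 c5657 (k8 c10922 c19504 c3620 c5466 c13204 c17679 c19025 c10035 (k2 c19004 c18954 (k1 c18905 k0)))))))))) (by decide +kernel)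
def c19555 : PP 9 3 T 0x41000000000000000000110000000000000000000000000000000000000055000000000000000000050000001000000000000000000000000000000008000 := rS 0x5aac51d1355c5552b3da1cc0204 (k8 c9739 c53 c9719 c9737 c5532 c5531 c5414 c5413 (k4 c12622 c5675 c14602 c2402 (k1 c3623 k0))) (by decide +kernel)
def c19556 : PP 9 3 T 0x200000000000000000000000100000000000000000000000001000000000000000000008000 := rS 0x1f426e124fc9ff0156edc8e4357d63427f2f9ebc2cc04a6d429f499e760cf68a4607ed4aa5dfbb37a21834662d77c323f0b8c46f9da582c22f36395d3aab4caa768011480c085d (k8 c17796 c9739 c54 c9694 c53 c9737 c5531 c5530 (k8 c5413 c5412 c5313 c794 c445 c10107 c150 c5329 (k8 c19356 c5435 c5434 c5433 c5318 c5315 c19477 c19554 (k8 c715 c716 c872 c873 c5487 c1076 c1073 c1904 (k8 c5499 c10690 c10333 c1925 c2339 c5678 c19456 c5444 (k8 c5448 c5398 c5397 c472 c3617 c18012 c2074 c10245 (k8 c891 c15334 c17869 c17787 c5561 c5562 c17858 c1908 (k8 c1927 c2341 c19555 c5588 c5591 c475 c1690 c15534 k0)))))))) (by decide +kernel)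
def c19557 : PP 9 3 T 0x100000000000000000000000000000200000000000000000000000100000000000000000000000000080000000000000000008000 := rS 0x27fc6cbc91f426b538284dfb7f92c1ff0156fbc8e43579fc83582b8640f9da582c2315599cc03b10480ccded818d5a7de4d3350c77678dda2f455a75faf354a676897302543404189958a5d (k8 c17796 c18348 c18353 c5434 c9739 c716 c1904 c19556 (k8 c1639 c9737 c5530 c5531 c445 c1076 c5412 c5413 (k8 c873 c1925 c5435 c2339 c725 c872 c2073 c3617 (k8 c19460 c5496 c5450 c10690 c5499 c715 c54 c1574 (k8 c5445 c53 c9719 c5532 c5414 c10107 c150 c5329 (k8 c19356 c5432 c5315 c5313 c17869 c12636 c17682 c17787 (k8 c5561 c5562 c14662 c1908 c1927 c2341 c9179 c5694 (k8 c18003 c1146 c1197 c2180 c5548 c318 c1580 c10408 (k4 c1326 c12823 c18059 c5680 k0))))))))) (by decide +kernel)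
def c19558 : PP 9 3 T 0x200000000000000000000000100000000000000000000000000080000000000000000008000 := rS 0x2256480d63f9f4268d40e81a6d51af787e311e84676772b8cc0e093000c08c5449d51659 (k8 c18352 c18350 c18354 c18356 c18348 c9739 c54 c19556 (k8 c1574 c5432 c5316 c5313 c725 c10693 c10107 c5436 (k8 c5434 c5318 c19460 c5450 c5454 c5496 c19557 c5380 (k8 c5381 c5564 c5566 c19462 c3608 c12613 c17896 c19455 (k1 c458 k0))))) (by decide +kernel)
def c19559 : PP 9 3 T 0x200000000000000000000000000000200000000000000000000000100000000000000000000000000000000000000000000008000 := rS 0xe2b15078d97b74f9fcfa6f09a35021139804cead57ec92a1d78cefbe342d9dc0e332b8c41203026c52e6045a24d26562974b275 (k8 c18354 c18352 c17796 c18348 c18353 c18347 c18356 c18350 (k8 c19556 c1639 c5445 c9739 c54 c1574 c5434 c5313 (k8 c5316 c5432 c725 c19558 c3567 c5450 c10693 c5811 (k8 c332 c10191 c5678 c5406 c5490 c10711 c53 c9719 (k8 c10107 c5380 c5381 c5564 c5565 c5566 c19462 c15291 (k4 c19230 c1755 c17785 c5680 (k2 c9422 c2929 (k1 c3602 k0)))))))) (by decide +kernel)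
def c19560 : PP 9 3 T 0x5000000000000008000110000000000000000000000004000000000000010040000000000000000100000001000000000000000000000000000000008000 := rS 0x4740be6ff7a44de6ab8aaa567b456abdfa47ac004080ba5845065d (k8 c17796 c18355 c10107 c5329 c150 c9739 c53 c17869 (k8 c5562 c5405 c5406 c5490 c9737 c5532 c5531 c5414 (k8 c5413 c445 c12622 c5657 c2341 c17868 c9179 c5675 (k1 c2405 k0)))) (by decide +kernel)
def c19561 : PP 9 3 T 0x2000000000000008000110000000000000000000000000000000000000000000000000000000001100000001000000010000000000000000000000008000 := rS 0x4740be7138aacf6873008110665 (k8 c18353 c18355 c9739 c53 c9719 c9737 c5532 c5414 (k4 c12622 c17760 c18023 c5675 (k1 c2405 k0))) (by decide +kernel)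
def c19562 : PP 9 3 T 0x100000000080000000000000000150000000000000000000000001040000005010008000 := rS 0x2286d57b4788a40604 (k8 c9739 c54 c9694 c5811 c9737 c5413 c2103 c503 (k1 c3582 k0)) (by decide +kernel)
def c19563 : PP 9 3 T 0x200000000000000000000000100000000000000000000000000000000000000000000048000 := rS 0x1e9007bfb492275aac4e291371f102d3f78fc7b137997cf299da2b55fb24a875e33befec52e253f90e3b580082e979d6b90742111a16cee071995c62093000c086562974b275 (k8 c18354 c18352 c17796 c18348 c18353 c9739 c54 c19556 (k8 c1574 c5434 c5313 c5316 c5432 c725 c19558 c3567 (k8 c10107 c19559 c12636 c1763 c19356 c5329 c150 c53 (k8 c17869 c5341 c5561 c17682 c12632 c1639 c5445 c5450 (k8 c10693 c5811 c332 c10191 c5678 c5406 c5490 c9737 (k8 c5530 c1577 c62 c445 c12622 c5436 c5318 c19004 (k8 c18954 c13318 c12613 c1580 c3041 c2871 c1146 c1149 (k4 c2813 c13198 c19561 c19562 (k2 c19560 c5657 (k1 c1927 k0)))))))))) (by decide +kernel)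
def c19564 : PP 9 3 T 0x200000000000000000000000100000000000000000000000000000000000000000000008000 := rS 0x13d924d9ec74ce66bd9c2fef6c0606df5aac542e365a38906e13244e212d0bf55eadd92543ad1ef8d0b73b3b9e41297d8980ae331f81c639d89835e69d55c5532a959ed006f1023151283329d4b25d (k8 c17796 c18352 c18354 c18353 c18355 c18356 c18348 c9739 (k8 c5811 c54 c9737 c5532 c5531 c5530 c5414 c5413 (k8 c5412 c445 c151 c12622 c19356 c5434 c5432 c5318 (k8 c5316 c5313 c19556 c5445 c1639 c1574 c1577 c725 (k8 c10693 c19558 c3567 c5450 c1705 c332 c10191 c5678 (k8 c5490 c5406 c5405 c19559 c19563 c2869 c3037 c317 (k8 c318 c475 c476 c1756 c13204 c2927 c1146 c1149 (k8 c2946 c2405 c2848 c19561 c3623 c3013 c3007 c2506 (k4 c502 c501 c11210 c2563 (k2 c10869 c3620 (k1 c17750 k0))))))))))) (by decide +kernel)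
def c19565 : PP 9 3 T 0x500000400001000004400000000000000000000004000000000088000 := rS 0x1bff350edc90260245567b4 (k8 c9737 c5532 c5414 c9739 c317 c475 c5570 c2927 (k2 c5588 c2946 (k1 c5920 k0))) (by decide +kernel)
def c19566 : PP 9 3 T 0x8000100000000000000000000000000000200000000010080000000000000000100000000000000008000000000000000000000008000 := rS 0x201a6134f9f7df927f38cf2e14d9ee063a673347e3d54acde3df68aac831dac004174b08b2daead3fabdfbed38a462bb45ac4f3a342d8c676773398f62571981c125f640118a652c9d4ba89 (k8 c18356 c17796 c18354 c18352 c18353 c18348 c9739 c19564 (k8 c1117 c312 c5432 c5316 c5313 c5396 c9754 c5487 (k8 c11141 c10693 c5434 c715 c3567 c19356 c12622 c1149 (k8 c9737 c5414 c3038 c65 c19561 c5405 c5406 c2920 (k8 c2817 c2189 c1324 c10107 c5329 c150 c53 c17869 (k8 c5341 c12636 c5413 c2133 c5494 c5811 c5532 c5531 (k8 c5436 c5318 c17683 c502 c501 c2195 c11210 c5856 (k8 c1653 c1535 c1773 c3623 c10869 c5586 c5442 c17750 (k4 c19565 c18954 c12613 c13318 k0))))))))) (by decide +kernel)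
def c19567 : PP 9 3 T 0x8000100000000000000000000000000000200000000010000000000000000000100000000000000008000000000000000000000008000 := rS 0x3fe07ee7baad52b356abdfbed38a462bb45ac4f3b3b3b99cc7b12b8cc0e092fb2008652cb14ea89 (k8 c18356 c18354 c18348 c18352 c18353 c9739 c19564 c1117 (k8 c312 c5432 c5316 c5313 c5396 c9754 c5487 c11141 (k8 c10693 c19356 c12622 c1149 c9737 c5414 c3038 c65 (k8 c19561 c5405 c5406 c2817 c5532 c5531 c5413 c19566 (k4 c19560 c5508 c5586 c3623 k0))))) (by decide +kernel)
def c19568 : PP 9 3 T 0x110000000000000000000000000000000000400020000000000000000000000000001000000000000000000000000000000000000 := rS 0x23fe689 (k4 c18356 c5592 c2848 c5675 k0) (by decide +kernel)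
def c19569 : PP 9 3 T 0x40000000000000000000100000000000000000000000004000200000000000000000000000000000100000000000000008000000000000000000000008000 := rS 0x3d1fcf77efb434af79aad52b3789cf63df4aa5c3ac8198948f5800810174b089c55ab5d9c06068e48c576913cea25065d (k8 c17796 c18355 c18356 c19356 c12622 c9737 c5414 c3038 (k8 c5675 c2405 c19568 c19567 c1149 c2817 c65 c10107 (k8 c5329 c150 c9739 c53 c17869 c5562 c12632 c5316 (k8 c19564 c2061 c134 c97 c5494 c5396 c9719 c5811 (k8 c5532 c5531 c5413 c445 c10145 c9823 c10405 c1076 (k4 c2103 c19555 c5657 c2341 k0)))))) (by decide +kernel)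
def c19570 : PP 9 3 T 0x40000000000000000000100000000000000000000000000000200000000000000000000000000000100000000000000008000000000000000000000008000 := rS 0xf7eddfcaf7e98326762d8d675034715c0e3155aa56663d887466092fb22b0010202e961156ad7670148c576913ceb14b2752ea0d1265 (k8 c18353 c18356 c18355 c17796 c18354 c18352 c18348 c19356 (k8 c12622 c9737 c5414 c3038 c19568 c19567 c1149 c2817 (k8 c10107 c5329 c150 c9739 c53 c17869 c19564 c1117 (k8 c312 c5316 c2061 c5396 c9754 c5532 c5531 c5413 (k8 c5434 c5432 c5313 c5675 c2405 c19569 c5324 c5474 (k8 c10693 c10897 c5663 c17746 c11003 c3623 c19291 c5586 (k1 c5683 k0))))))) (by decide +kernel)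
def c19571 : PP 9 3 T 0x100000000000000000000000008000200000000000000000000000000000100000000000000008000000000000000000000008000 := rS 0x30e4d5c1b2d8d48a57038c5e2631480f625f0eb20662521c76b0010202e979d08ab44e1324fc98a593a9751265 (k8 c18353 c18356 c17796 c18354 c18352 c18348 c19570 c5588 (k8 c475 c2813 c2817 c10107 c19356 c5329 c150 c9739 (k8 c53 c17869 c5341 c5561 c12632 c5316 c19564 c2061 (k8 c1117 c5396 c54 c9694 c9754 c5811 c5434 c5432 (k8 c5313 c5326 c5324 c5474 c5475 c3582 c10897 c11003 (k1 c5663 k0)))))) (by decide +kernel)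
def c19572 : PP 9 3 T 0x100000000000000000000000000000200000000000000000000000000000100000000000000008000000000000000000000008000 := rS 0x7f3d1faf7f68695f3b1384c9303f96ce02915aab4e31379aae2aa959ed1e273d8f7d2a970eb20662521c748f5800810174bce845125d (k8 c17796 c18356 c10107 c19356 c5329 c150 c9739 c53 (k8 c17869 c5562 c5341 c5561 c12632 c5316 c19564 c2061 (k8 c134 c97 c5494 c5396 c9719 c5811 c9737 c5532 (k8 c5531 c5414 c5413 c445 c12622 c65 c2817 c1149 (k8 c3038 c19568 c19567 c19570 c5550 c5588 c475 c2813 (k8 c19571 c10145 c9823 c10405 c19562 c1076 c5657 c3623 (k1 c2341 k0))))))) (by decide +kernel)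
def c19573 : PP 9 3 T 0x4000000000000008040000000000000000000000000000000000000000000400000000000008000 := rS 0xf5f6d2de65d (k4 c17796 c445 c5329 c5544 (k2 c2341 c5657 k0)) (by decide +kernel)
def c19574 : PP 9 3 T 0x100000000000000000000000000000200000000000000000000000000000100000000000000020000000000000000000000008000 := rS 0x1fd027ddb95c7e071eec482092f84596c8099bc0865 (k8 c18353 c9739 c19572 c318 c19564 c1324 c10107 c1117 (k8 c312 c12636 c5396 c5436 c5432 c5318 c5313 c5571 (k4 c2871 c752 c18926 c12613 k0))) (by decide +kernel)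
def c19575 : PP 9 3 T 0x200000150000000100200054000000000000000000000000000 := rS 0xcc7745a24d265 (k4 c18353 c18347 c18356 c18350 (k2 c938 c3602 (k1 c2063 k0))) (by decide +kernel)
def c19576 : PP 9 3 T 0x100000000000000000000000004000200000000000000000000000000000100000000000200000000000000000000000000008000 := rS 0x813f5c6ff0d1e5ee4530125a50148fbd183f89bcd57154caa567b4318a407b1ef90e3a47ac02e979d65b5c262756ed8e26f39abc4a0108bc4081d640cd8a5d (k8 c17796 c18348 c5316 c19564 c2061 c9739 c5811 c10107 (k8 c53 c12632 c10145 c9719 c19572 c19574 c5666 c5573 (k8 c5570 c318 c2189 c1324 c19356 c5329 c150 c17869 (k8 c5562 c5341 c5561 c5494 c5396 c54 c9694 c9754 (k8 c9737 c5532 c5531 c5530 c5414 c5413 c445 c12622 (k8 c5318 c19575 c5505 c10035 c2142 c13318 c13198 c18738 (k8 c2936 c19562 c1577 c3582 c19573 c13204 c1076 c18003 (k1 c2088 k0)))))))) (by decide +kernel)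
def c19577 : PP 9 3 T 0x1000100000000000000000000000000000000000000000000000000000000000000000000000080000004400000000000000000000000 := rS 0xc393 (k2 c5358 c17682 (k1 c5663 k0)) (by decide +kernel)
def c19578 : PP 9 3 T 0x100000000000000000000000000000200000000000000000000000000000100000000000000000000000000000000000000008000 := rS 0x4e9aa803eed8e2133795c7e071e9cfbe970e8cc4a4104c76b00105d2f3a113f97f62c8318118a65 (k8 c18353 c18348 c9739 c9754 c19564 c5396 c1117 c19577 (k8 c10107 c19356 c5329 c150 c53 c17869 c5341 c312 (k8 c12636 c12632 c5316 c2061 c134 c5494 c9719 c5436 (k8 c5432 c5318 c5313 c19572 c318 c19574 c5666 c18933 (k4 c12613 c1658 c19576 c19115 k0))))) (by decide +kernel)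
def c19579 : PP 9 3 T 0x100000000000000000000000000000200000000000000000000000000000000000000000000000000000000000000000000008000 := rS 0x19cb4d2f1a7d427d099c0dfb7581feb0570c8fc0f9da582c22633980762092fb200865 (k8 c18353 c9739 c19564 c1117 c312 c5396 c53 c9719 (k8 c9754 c10107 c150 c5329 c19356 c5432 c5318 c5315 (k8 c5313 c17869 c19577 c19578 c5421 c1146 c5666 c318 (k8 c2871 c2929 c18059 c17785 c10123 c18993 c4467 c715 k0)))) (by decide +kernel)
def c19580 : PP 9 3 T 0x100000000000200000000000000000000000000000200000000000000000000000000000000000000008000 := rS 0x471aad65034c693b3b96cce4357edfde57198fc0e31318a407b146a7fc67d09e80125f64010227562964ba65 (k8 c18353 c17796 c18352 c18348 c18354 c10107 c9739 c19564 (k8 c1117 c312 c19579 c5564 c5566 c17785 c15291 c5381 (k8 c5396 c54 c9694 c9754 c5434 c5432 c5318 c5316 (k8 c5313 c5506 c5421 c202 c1932 c2179 c715 c11141 (k8 c10693 c3567 c15747 c10123 c1198 c3000 c16906 c553 k0))))) (by decide +kernel)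
def c19581 : PP 9 3 T 0x40000000000000000000000000000000000200000000000000000000000000000000000000000040000000000000000000000000008000 := rS 0x803d1fa5a0d19a76ff57c0fddb35a9c492a01988f3b4b25bcd571554acf68f1398045203d8f7d2a97469bfc6ad4f89d96b1ac9002257098fc7a070497d90043ea074059cc224ca5d (k8 c17796 c18353 c18356 c18346 c18352 c19579 c5380 c5566 (k8 c9739 c19564 c1117 c312 c5432 c5436 c5318 c5564 (k8 c5313 c10107 c12613 c17896 c19580 c1324 c350 c15291 (k8 c2068 c17785 c5565 c5381 c134 c97 c5494 c5396 (k8 c54 c9694 c53 c9719 c5811 c9737 c5532 c5531 (k8 c5414 c5413 c445 c12627 c5329 c19356 c9733 c5316 (k8 c5680 c10038 c2929 c9106 c17895 c5196 c5508 c5584 (k8 c5586 c17287 c19392 c9823 c1902 c1076 c873 c3623 (k1 c1928 k0))))))))) (by decide +kernel)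
def c19582 : PP 9 3 T 0x4000000000080000010040000000000000000000000000000000000001000000100010000000000000000000101000000080000120000000000008000 := rS 0x747b2437fe7007fc0d5ef44306808ab8aaa567b4 (k8 c9737 c5532 c5531 c5414 c5413 c9739 c716 c872 (k8 c873 c1078 c10690 c2342 c18003 c5592 c2953 c1928 (k2 c15912 c511 (k1 c10869 k0)))) (by decide +kernel)
def c19583 : PP 9 3 T 0x4400000000000000200000000000000000000000008000000000000000000000000400000000000000000000000000000000000020004000000010000 := rS 0x1ab1c1aa2cb25d (k4 c17796 c18352 c18350 c5324 (k2 c12681 c1656 (k1 c5778 k0))) (by decide +kernel)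
def c19584 : PP 9 3 T 0x200000000000000000000000000000000000000000040000000000000000000000000008000 := rS 0x3ce4cb4603b1995efd0d4ef6671db115aeb120564ae331f81c7b9d79a65e27300ec7be954bb4557b440a34dee1f19f426ad4fe80125f08811908b449a4ca5d (k8 c17796 c18353 c18347 c18356 c18350 c19564 c9739 c10107 (k8 c1117 c312 c19579 c15291 c2068 c5564 c5566 c17785 (k8 c19503 c5565 c5381 c5380 c9737 c5413 c2133 c134 (k8 c97 c5494 c5396 c53 c9719 c5811 c5530 c445 (k8 c19356 c5436 c5432 c5318 c5316 c5313 c17896 c12613 (k8 c19580 c2189 c459 c19581 c5571 c19230 c19583 c9823 (k8 c1076 c1078 c3602 c2063 c2064 c1902 c5356 c1577 (k1 c19582 k0)))))))) (by decide +kernel)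
def c19585 : PP 9 3 T 0x200000000000000000000000000000000000000000000000000000000000000000000008000 := rS 0x135e05a1ee029181bf562ff12edde8860d199407057968c0d5c99f95a9f46e8012d12fec5902931bc406b354c5556c77984409b42b81c7b9d41a2cca5d (k8 c17796 c18353 c18350 c18355 c19356 c5436 c5432 c5313 (k8 c9737 c9739 c10107 c445 c794 c5413 c5414 c5531 (k8 c5532 c54 c5811 c9754 c9694 c19564 c5396 c1117 (k8 c2133 c312 c19579 c5381 c15291 c2068 c19584 c5358 (k8 c2998 c5663 c19459 c1183 c728 c729 c715 c716 (k8 c872 c873 c5571 c2754 c13507 c2179 c1076 c10690 (k4 c10333 c10144 c891 c3623 (k2 c10425 c1199 (k1 c5536 k0))))))))) (by decide +kernel)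
def c19586 : PP 9 3 T 0x40000200000000000000000000000000000200000000001000000000000200000000000000000080000002080000000000010008010100 := rS 0x4c6d0f06d639efe60d6ffb5fe455492c83ee23bd4163bac10ccd4a5689dc22502280e0012b8e47e071b83d1b13f1f7d2a5f68e4f3aaf6a80cca8b (k8 c18350 c18353 c1109 c2998 c1183 c19356 c5358 c9610 (k8 c1117 c97 c5494 c5577 c5382 c5381 c19585 c5435 (k8 c5432 c5318 c5317 c5313 c661 c728 c729 c5642 (k8 c2754 c4985 c2927 c2932 c6008 c715 c5252 c5651 (k8 c5332 c5516 c5519 c5520 c5282 c5340 c5342 c1906 (k8 c5582 c5586 c14774 c18825 c17806 c19019 c892 c9140 (k4 c5710 c3568 c5830 c1577 (k1 c5530 k0)))))))) (by decide +kernel)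
def c19587 : PP 9 3 T 0x200000000000000000000000000000000000000000000000000000200000100000000000080000001000000000000000000010000 := rS 0x5627ce20033988e68d37e4d5ed545a24d265 (k8 c18353 c18347 c18356 c18350 c2998 c1183 c5358 c5565 (k8 c5381 c5379 c10171 c2064 c19421 c667 c2880 c3602 (k1 c2068 k0))) (by decide +kernel)
def c19588 : PP 9 3 T 0x40000200000000000000000000000000000200000000000000000000000200000000000000000080000002080000000000000008010100 := rS 0x14a0f011f803ce83c020714a803265 (k8 c18353 c5315 c729 c1195 c5432 c661 c19585 c19356 (k4 c1109 c19586 c5642 c1075 (k2 c6008 c5517 k0))) (by decide +kernel)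
def c19589 : PP 9 3 T 0x40000200000000000000000000000000000200000000000000000000000200000100000000000080000000080000000000000000010100 := rS 0x34889efd906eb043f1cee3a8dd8f7d2ef10e8cd5ed56b894e0290c89c7ead501812a8b (k8 c18350 c97 c19587 c729 c2932 c5318 c2927 c5315 (k8 c1195 c728 c2754 c2189 c2998 c1183 c5316 c2061 (k8 c1177 c134 c5494 c5396 c5381 c2159 c5474 c5577 (k8 c5252 c5651 c19588 c9823 c17816 c3582 c5689 c2936 k0)))) (by decide +kernel)
def c19590 : PP 9 3 T 0x200000000000000000000000000000200000000000000000000000200000100000000000080000000080000000000000000010100 := rS 0x6d8e060 (k4 c19587 c728 c19589 c5571 k0) (by decide +kernel)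
def c19591 : PP 9 3 T 0x2000000000049000200000000000000000200080000000200100100000001000100010000000050020004000080400040400000050010000014000008 := rS 0x451c5f3f6ed56adf66a6c6639188dc1e6ff1e4c5219138fc96471d92416f5 (k8 c5519 c5516 c5334 c5332 c5562 c5342 c5318 c2927 (k8 c5315 c1195 c5358 c5577 c5565 c19585 c5435 c5434 (k8 c5317 c5316 c5536 c5537 c5538 c1199 c18018 c18037 (k4 c19019 c17934 c19395 c19394 k0)))) (by decide +kernel)
def c19592 : PP 9 3 T 0x49000200000000000000000200080000000200100000000001000000010000000050000004000080000042400000050010000014000008 := rS 0x1bcb310c54f5b4f087c7623cee4d9681889ddc27013a807e4b (k8 c5342 c5318 c729 c2927 c728 c4985 c724 c3909 (k8 c5380 c1755 c5358 c19356 c9733 c5332 c5517 c19591 (k4 c5235 c10425 c5414 c5528 (k2 c5532 c892 (k1 c18066 k0))))) (by decide +kernel)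
def c19593 : PP 9 3 T 0x200001000000000000000000000000400020000000088000000000004400000001100000008 := rS 0x3c0b71f847e23cee4c5219 (k8 c5315 c1195 c5358 c19356 c9733 c5318 c5457 c17695 (k2 c3822 c15695 (k1 c1112 k0))) (by decide +kernel)
def c19594 : PP 9 3 T 0x204006400000000008000200000100000000000000000000000200000001000000000000000000014004000001000000000000000010000000000000000000 := rS 0xf2fdfe2c28bc4d1f8d (k8 c5569 c5568 c5382 c5635 c7334 c17821 c17900 c5468 (k1 c5206 k0)) (by decide +kernel)
def c19595 : PP 9 3 T 0x4006400000000008000200000000000000400000040000000200000001000000000000000000000000000001000000000040000010000000000080000808 := rS 0x59b9908af484efae245f83c8aad72b7da674a26a7cbecd265 (k8 c18353 c18347 c18357 c18351 c1111 c4756 c19356 c5211 (k8 c5533 c5415 c5413 c5491 c5407 c1360 c2313 c19594 (k4 c5661 c5222 c3407 c5606 (k2 c17936 c5652 (k1 c269 k0))))) (by decide +kernel)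
def c19596 : PP 9 3 T 0x101000000000000000000210000500040000400000040004000000044000008000000000000000000000000001000000000000000000000000000000000000 := rS 0x11882c97e1a489c9d1f8d (k8 c5569 c5568 c5383 c5382 c5222 c5172 c5391 c5628 (k2 c3616 c2576 k0)) (by decide +kernel)
def c19597 : PP 9 3 T 0x5004400000000008000200000500040000400000044000000200044000008080015000000040000000000001000005000000080000000000000000000000 := rS 0x31f79d4eabc96ed7fdfe307fa6b6268fc6ced56b95bed33b09 (k8 c4577 c19356 c5211 c5533 c5415 c5413 c5474 c5569 (k8 c5568 c5382 c5437 c19596 c5634 c17821 c17900 c2109 (k4 c5659 c5206 c2214 c5469 (k2 c5619 c3184 (k1 c3611 k0))))) (by decide +kernel)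
def c19598 : PP 9 3 T 0x5006400000000008000200000000000000400000040000000200000000008091000000000040000000000001000005000040080400400000000094000808 := rS 0x61c576fd78bf5707d2e222f478d8b5d37bc59306e0fc1e463e055bed33ae77283612fb (k8 c18357 c4577 c34 c5539 c5461 c19356 c5211 c5533 (k8 c715 c9713 c5491 c5407 c19585 c5435 c19595 c2353 (k8 c3215 c2356 c3271 c2359 c3365 c3220 c19597 c5610 (k8 c3257 c3189 c19425 c2109 c2214 c1116 c6295 c3583 k0)))) (by decide +kernel)
def c19599 : PP 9 3 T 0x40006400000000008000200000000000000000000040000000200000000000001000000000040000200000000008005000000081400400000000094010808 := rS 0xb70f47bbc171589bdfd74a4dd78af576f618becd097f3d9eb03f683fde6746e0f22abda6752285 (k8 c18349 c694 c19356 c5211 c5413 c5491 c5407 c5381 (k8 c2179 c5506 c19585 c5499 c10690 c1922 c693 c14602 (k8 c4577 c19598 c5347 c5348 c5349 c5600 c5601 c5603 (k8 c5604 c17797 c7334 c696 c2313 c5676 c2580 c3868 (k4 c506 c10670 c270 c3583 k0))))) (by decide +kernel)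
def c19600 : PP 9 3 T 0x200000000000000000000000000000200000000000000000000000200000000000000000080000002080000000000000000010100 := rS 0x7afb59cf743bcc3c0af9b35363b6ff80f67963acd326d10c57694b1a94c8e4b2a906b09321b593a2714808ee1b50004723f0385c6e2347cecbef10c87466d1c9e755ed5568963bb2f7edf63e3ef814ceb0469758a85419d51665 (k8 c18353 c18350 c18354 c18355 c18349 c18348 c17796 c5381 (k8 c19590 c2179 c715 c5494 c5577 c5396 c5421 c5506 (k8 c5196 c2159 c1093 c201 c2998 c1183 c19356 c5358 (k8 c9610 c5316 c2061 c5315 c1177 c1117 c5474 c5568 (k8 c9733 c5435 c5433 c5432 c5318 c5317 c661 c729 (k8 c19588 c724 c5642 c1195 c2927 c4081 c1198 c1931 (k8 c261 c5651 c13854 c5343 c5342 c5562 c5563 c1763 (k8 c19592 c5211 c5414 c5528 c5529 c5530 c5532 c726 (k8 c1577 c19593 c10425 c14796 c5456 c5536 c5537 c19019 (k8 c18018 c3578 c2530 c19599 c2101 c3607 c5543 c10085 (k1 c5657 k0))))))))))) (by decide +kernel)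
def c19601 : PP 9 3 T 0x210000000000000000000000000000000000000001000000000000000000201000000000000000000000000000000000000010806 := rS 0xf92d207ed598862aab7fa1b689135c46962333a34e28b419950a69 (k8 c18347 c18349 c18353 c18355 c18350 c667 c5381 c2179 (k8 c9733 c5516 c689 c2306 c694 c5211 c18014 c14972 (k8 c5413 c5414 c5528 c5532 c5499 c10690 c15768 c14602 (k1 c5548 k0)))) (by decide +kernel)
def c19602 : PP 9 3 T 0x4000400000000000000000000000000000000000040004000200000000001040000000810000000000020000400080000008000005410000001000000500 := rS 0x1689b0ff81e5edf9b35bec71dbd566218a9ec19b4888cc72311b88f3a0ff1e4c5203138fc6a83 (k8 c18355 c1763 c5318 c2927 c9752 c9694 c5358 c5577 (k8 c19585 c19356 c9733 c5435 c5434 c5317 c5316 c9727 (k8 c5211 c5645 c888 c5414 c5528 c5532 c2365 c289 (k8 c2480 c14796 c2192 c19019 c18037 c5657 c5204 c2532 (k2 c5536 c3584 (k1 c1199 k0)))))) (by decide +kernel)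
def c19603 : PP 9 3 T 0x4400000000001000200000000000000000200000004000200002000000001000000000000000200000000000000010000000000000000000010000002 := rS 0x1e502da83f6e4b (k4 c5342 c5421 c19585 c5414 (k2 c1295 c19390 (k1 c2627 k0))) (by decide +kernel)
def c19604 : PP 9 3 T 0x40002000000000040000000000000000000000000000000000000001000000000000000000000000000020000000000000000000001000000015440000000 := rS 0x41b459ad5be9b (k4 c5536 c5538 c1199 c2933 (k2 c5685 c18060 (k1 c5528 k0))) (by decide +kernel)
def c19605 : PP 9 3 T 0x200000000000000000000000000000200000000000000000000000200000000000000000080000000080000000000000000010100 := rS 0x207f3f6bfd0cabda454d61fa53dc920b2392c835813b59409f699c452cb0000cc46154bf7642533edfdeb068875e3dfd8864663fce83ce61347f8f26d59dc751a8b419950a69 (k8 c18347 c18349 c18353 c18355 c18350 c5381 c2159 c5474 (k8 c2998 c5358 c5577 c5568 c5564 c5379 c19585 c19356 (k8 c5318 c5316 c5315 c5396 c5494 c1177 c2061 c9610 (k8 c19590 c5506 c5421 c2179 c1093 c5196 c5405 c5489 (k8 c19600 c10171 c9752 c19421 c1322 c9694 c667 c2086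 (k8 c2880 c10123 c5689 c2927 c16906 c5340 c5342 c5562 (k8 c19601 c10368 c2102 c19602 c5517 c1058 c19603 c19386 (k4 c5413 c18014 c14972 c5499 (k2 c17931 c10690 (k1 c14602 k0)))))))))) (by decide +kernel)
def c19606 : PP 9 3 T 0x4000000000000000000000000000000000000000000000000000000000000000000000040000000000000000000080000000000000010020000000000000 := rS 0xd7eff8daa8b (k4 c18350 c2998 c5577 c5450 (k2 c1763 c5689 k0)) (by decide +kernel)
def c19607 : PP 9 3 T 0x200000000000002000000010000000000000400000000400000000000000000000080000000 := rS 0x66b3d8e873c9edf8f4350280e37013dc479d62a150675 (k8 c18354 c18355 c18349 c18348 c19356 c9733 c499 c19427 (k8 c5435 c5432 c1112 c1111 c1216 c1215 c690 c2307 (k4 c693 c2482 c2339 c2504 (k1 c3607 k0)))) (by decide +kernel)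
def c19608 : PP 9 3 T 0x4000000000000000000000000000000000000000000000000000000000000000000000040400000000000080000080000000000000000000000000000000 := rS 0xd7eff8daa8b (k4 c18350 c2998 c5577 c5452 (k2 c1767 c5689 k0)) (by decide +kernel)
def c19609 : PP 9 3 T 0x5000000000000000200000000000000000100080000000200000000000000000100000080000000000000000000000000000000000000000000010100 := rS 0x4b48835c6391f83e2613479241647 (k8 c5520 c5516 c5334 c5568 c5564 c5382 c19585 c5318 (k4 c5317 c12672 c2481 c801 (k2 c15375 c12614 k0))) (by decide +kernel)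
def c19610 : PP 9 3 T 0x2000000000016000000000000000000000000000000000000000100001000000000010100000004000040000001400000000000000000000000000000 := rS 0x865433d36954ce60ea85 (k8 c18349 c18354 c18346 c5447 c5446 c5397 c13265 c18012 (k2 c17952 c2023 k0)) (by decide +kernel)
def c19611 : PP 9 3 T 0x4000000000052000200000000000000000200000000000200000000000002000000000000000000000000000000000000000000000000000000010000 := rS 0x4eb7fc0793db858e6c5a8304039ce83d1e614cc44024bc9b28822709a4d429f12808de291f85c323d (k8 c5436 c5315 c5433 c5318 c5339 c5565 c19427 c1113 (k8 c5448 c5398 c5444 c5564 c267 c5340 c3579 c12891 (k8 c5342 c9696 c9730 c5447 c5445 c5568 c19585 c19356 (k8 c5317 c19372 c265 c2608 c266 c2480 c1719 c742 (k4 c2428 c5669 c14796 c5458 (k1 c19369 k0)))))) (by decide +kernel)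
def c19612 : PP 9 3 T 0x2000000000002000200000000000000000000040000000200000000000002000000000800000000001000000000000000000000440000000100010000 := rS 0x204af7fc050e916bbf1e80a069d83cd11d83d1b1347a6d3201013dc479d44a15068b (k8 c18350 c18355 c18349 c18356 c19356 c9733 c499 c19427 (k8 c9696 c5447 c5397 c5568 c5382 c5381 c19585 c5456 (k8 c5459 c18438 c19607 c2362 c1112 c1216 c1215 c2187 (k4 c13457 c693 c1927 c2341 (k2 c1247 c3613 (k1 c2632 k0)))))) (by decide +kernel)
def c19613 : PP 9 3 T 0x5000000000000000200040000000000000000000000000200000000000000000100000000000000000000000001000000000002000000000000000000 := rS 0x6ffcc7f9d (k4 c19356 c5318 c5588 c2946 (k1 c18204 k0)) (by decide +kernel)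
def c19614 : PP 9 3 T 0x1000000000062000200040000000000000000000000000200000000000000000000000000000000000000000000000000000000410000010040000008 := rS 0x24b8cf23a11e741e99f1885c29d6509c269350a7c4a6f1f85c323d (k8 c5436 c5315 c5433 c5318 c5565 c1113 c5448 c5398 (k8 c5444 c5564 c267 c3579 c5412 c1718 c5528 c18620 (k8 c5447 c19585 c19356 c9733 c18438 c1536 c1773 c19613 (k1 c14149 k0)))) (by decide +kernel)
def c19615 : PP 9 3 T 0x2000200000000000000000200000000000200000000000002000000000000000000000000000000000000000000000000000000010000 := rS 0x31cf27b350283de1a58853bb46578f6f932390452430c8fc0e171b8f73a934fa85362709894046f (k8 c5565 c19427 c1113 c5564 c267 c5397 c5398 c5448 (k8 c5444 c19356 c5436 c5435 c5433 c5432 c5318 c5315 (k8 c5561 c5339 c5340 c5562 c12891 c17858 c18620 c3579 (k8 c19611 c5412 c5528 c9578 c19612 c19614 c1112 c1111 (k4 c690 c2307 c2482 c5669 k0))))) (by decide +kernel)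
def c19616 : PP 9 3 T 0x22000200000000000000000000000000000200000000000002000000000800000000000000000000000000000000400000000000010000 := rS 0x7f699dd8e7a68031e40b7aa1bdb01f9244963a0f8e41e8146c4cfa8f4cbdc434b1405dc29d2489c041311e762ad76afbb6fb3acced8a893aa2d0a83 (k8 c18355 c18349 c18350 c18354 c18356 c18348 c5323 c19615 (k8 c5401 c5420 c5229 c5585 c5507 c5414 c19356 c9733 (k8 c5564 c19427 c267 c10038 c5412 c1718 c5433 c9148 (k8 c9578 c5528 c499 c5447 c5568 c5566 c5382 c5381 (k8 c5380 c19585 c5317 c1312 c18438 c563 c19449 c5660 (k8 c5592 c17809 c18000 c1922 c693 c5657 c5645 c449 (k4 c290 c2480 c2132 c2135 (k2 c891 c3608 k0)))))))) (by decide +kernel)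
def c19617 : PP 9 3 T 0x22000200000000000000000000000000000200000000000002000000000800000000000000000000000000000000000000000000010000 := rS 0x4302a0291237bb6e0f46c4d1fb39dbdc479daca250a83 (k8 c18355 c18349 c18356 c19615 c19356 c9733 c499 c5323 (k8 c5401 c5568 c5382 c5381 c19585 c5420 c5229 c19616 (k4 c2785 c2791 c5779 c18000 (k1 c693 k0)))) (by decide +kernel)
def c19618 : PP 9 3 T 0x1000000000022000200000000000000000000000000000200000000000002000000000000000000000000000000000000000000800000000000010000 := rS 0x31f266a38edbde873c9ec150106a440e3707a36268f4dece76f711e76b34b65a250a83 (k8 c18355 c18349 c18356 c19617 c9578 c19615 c19356 c9733 (k8 c499 c5323 c5401 c5397 c5568 c5382 c5381 c19585 (k8 c5435 c5432 c2785 c2368 c2791 c5779 c690 c2307 (k8 c693 c18000 c5229 c5571 c13386 c12830 c2482 c5669 k0)))) (by decide +kernel)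
def c19619 : PP 9 3 T 0x10000000000a2000200000000000000000000000000000200000000000000000000000400000000000000000000000000000000000000000000010800 := rS 0xc7c99a8e39d07a6e960d3d81cf237 (k8 c5435 c2307 c5432 c690 c34 c9578 c5397 c19585 (k4 c19356 c5571 c13386 c12830 (k2 c2482 c5669 k0))) (by decide +kernel)
def c19620 : PP 9 3 T 0x1000000000022000200000000000000000000000000000200000000000002000000000000000000000000000000000000000000000000000000010800 := rS 0x7ca0049f76dd0e9125a36268fd9cedee23ce89c0413acc5696cb23a250a83 (k8 c18355 c18349 c18356 c19618 c19617 c9578 c5414 c19615 (k8 c5564 c19427 c267 c19356 c9733 c499 c5323 c5401 (k8 c5568 c5382 c5381 c2588 c694 c693 c19619 c5229 (k4 c10038 c18000 c5660 c5592 k0)))) (by decide +kernel)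
def c19621 : PP 9 3 T 0x8000000000000000000200000000000000000100040004000000000000000050000000000000000000000001004008000000000001400900000000000000 := rS 0x341bef2257b7e6d2801fd028d899f51ed76a9dd8a893aa2d0a83 (k8 c18355 c18349 c18350 c18354 c18356 c18348 c889 c5585 (k8 c5507 c5568 c5566 c5382 c5381 c5380 c891 c18000 (k8 c3608 c5592 c5502 c5660 c5657 c2510 c449 c2136 k0))) (by decide +kernel)
def c19622 : PP 9 3 T 0x8001000000000000000200000000000000000100040004000000000000000050000000000040000000000000004008000000000001400900000000010000 := rS 0x3d90079b49987f7037c9490f19dd028d3eb8daed562a24ea8b (k8 c18350 c18354 c18356 c18348 c5585 c5507 c1774 c5566 (k8 c5381 c5380 c889 c17987 c19621 c19449 c2510 c15375 (k4 c892 c19374 c3608 c2500 (k2 c3062 c5657 (k1 c5502 k0))))) (by decide +kernel)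
def c19623 : PP 9 3 T 0x8001000000000000000200000000000000000100040004000000000000000050000000000040000000000000000008000000000001400900000000010000 := rS 0x1a5013ffc9224b709dd9ad0797b50cd56ba051a7d62a24ea8b (k8 c18350 c18354 c18356 c18348 c5566 c5381 c5380 c5507 (k8 c5585 c19622 c5499 c5657 c449 c2500 c2132 c19374 (k4 c563 c19449 c5660 c891 (k2 c5592 c3608 (k1 c2135 k0))))) (by decide +kernel)
def c19624 : PP 9 3 T 0x1000000000022000200000000000000000000000000000200000000000002000000000000000000000000000000000000000000000000000000010000 := rS 0xde251f96a29db7bcbec73d3d4740c0f92416471c83d33b39dbdc479d1384c4a0237d653b1510ace9683 (k8 c18355 c9578 c5532 c5528 c5414 c5412 c19615 c5565 (k8 c19427 c1113 c5564 c267 c19356 c9733 c499 c5323 (k8 c5401 c5447 c19585 c5317 c19618 c19620 c10368 c1112 (k8 c5645 c18438 c2365 c290 c2480 c1686 c19623 c5229 (k4 c5417 c5422 c17744 c3584 (k2 c892 c2510 k0)))))) (by decide +kernel)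
def c19625 : PP 9 3 T 0x22000200000000000000000000000000000200000000000002000000000000000000000000000000000000000000000000000000010000 := rS 0x149208f00f77b50e91efbf1e80a06fccec1e6fb35a23bf032e96214e8647a0f46c4d1e934fa8536999d805ee23ce89c0413aca250a83 (k8 c18355 c18349 c18356 c19615 c5564 c19427 c267 c19356 (k8 c9733 c499 c9696 c5323 c5447 c5397 c5398 c5448 (k8 c5444 c5568 c5382 c5381 c19585 c5436 c5315 c5412 (k8 c5528 c9578 c19617 c19624 c5456 c5459 c5537 c5538 (k8 c18438 c19607 c17766 c2362 c1112 c1216 c1215 c5493 (k8 c13457 c693 c5542 c5171 c18000 c2791 c1928 c1312 (k1 c18112 k0))))))) (by decide +kernel)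
def c19626 : PP 9 3 T 0x8000000000000010000200000000000000000100000000000000000000000002000000000000000000000000000000000000000000000000000600000000 := rS 0x10148ab4e3b614c510fed541b1e48d89a3f66ab1384c4a0237a250a83 (k8 c18355 c18349 c18356 c5565 c19427 c1113 c5564 c267 (k8 c1281 c5401 c5568 c5382 c5381 c431 c266 c432 (k8 c5540 c745 c19373 c1289 c5651 c5571 c5573 c746 (k2 c2026 c18000 k0)))) (by decide +kernel)
def c19627 : PP 9 3 T 0x2000000000000000000000100000000000200000000000000000000000000000000002000000000000000000001400400015140000000 := rS 0x451bc4bf9b85c6b559903c6cbdb064723f0b8f4479d49a7d43e1 (k8 c5458 c5398 c5448 c5444 c19356 c9733 c5436 c5433 (k8 c5318 c5317 c5315 c5651 c9148 c18620 c3579 c5574 (k8 c5422 c1777 c1714 c17998 c15375 c5691 c3584 c2950 k0))) (by decide +kernel)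
def c19628 : PP 9 3 T 0x40000000000000050000200000000000000000000000000000200001100000000000000000000001000000000000000000000000004000000000100010000 := rS 0x1a91362c8d60f8984d1e490591e959d (k8 c19356 c5211 c5520 c5516 c5334 c5568 c5564 c5382 (k4 c19585 c16719 c5685 c5665 (k2 c2897 c2426 (k1 c12614 k0)))) (by decide +kernel)
def c19629 : PP 9 3 T 0x88000000000000054000200000000000000000100000004000200000100000000000000000000000004002400000000000000000000000000005000010000 := rS 0x1f8d154b1cec86067b60291258e41e8d8984d1e490591e959d44a15068b (k8 c18350 c18355 c18349 c18356 c19356 c5211 c5520 c5516 (k8 c5334 c5568 c5564 c5382 c5381 c19585 c5317 c5546 (k8 c5589 c5592 c17809 c12614 c18000 c19375 c2480 c2023 (k2 c2132 c5682 (k1 c1240 k0))))) (by decide +kernel)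
def c19630 : PP 9 3 T 0x40000000000000050000200000000000000000000000000000200001100000000000000000000000000002400000000000000000004000000000100010000 := rS 0x12c73d380d46d5a15c7e071ea0626133e8ee959d (k8 c19356 c5211 c5332 c5566 c5564 c5382 c5380 c5436 (k8 c5432 c5318 c5313 c19628 c2610 c17733 c1343 c8792 (k2 c2482 c1684 (k1 c12655 k0)))) (by decide +kernel)
def c19631 : PP 9 3 T 0x8000000000000002000200000000000000000000000000000200000000000002000000000000000000000000000000000000000000000000000000010000 := rS 0x24fe41639e9c06a36ad1664af9c576e284e084ae391f81c2e3d40c4cfa9b4cece76ab11c44022709894046fac87c764923d2b6b9d (k8 c19356 c19625 c5211 c5520 c5334 c5332 c9664 c19615 (k8 c5565 c19427 c1113 c5564 c267 c9696 c9730 c9733 (k8 c1281 c5323 c5401 c5447 c5397 c5566 c5382 c5380 (k8 c5436 c5433 c5432 c5318 c5317 c5313 c19626 c17923 (k8 c19627 c5417 c1289 c19629 c19630 c2454 c5685 c2610 (k8 c17733 c1343 c8792 c2482 c1714 c3059 c1684 c12613 k0)))))) (by decide +kernel)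
def c19632 : PP 9 3 T 0x2000000000000000000000100080000000200000000000000000000000000000000000000000000000000000000000000015140000000 := rS 0x9c1c85c479d4c8ec9247 (k8 c5520 c5334 c5332 c5447 c19356 c9733 c5433 c5317 (k2 c17923 c19627 k0)) (by decide +kernel)
def c19633 : PP 9 3 T 0x2000200000000000000000000000000000200000000000002000000000000000000000000000000000000000000000000000000010000 := rS 0x1a4443b3fda2913ca1cf6cd63c059ea8363c818fd10357c71d200a5667156edbdef50fd2b6b591289d56020ecef66391f8f4479d4684cde934f9852a9942a0d1798 (k8 c18346 c18350 c18355 c18349 c5447 c5446 c5445 c5448 (k8 c5444 c5565 c5564 c5381 c19356 c9733 c5436 c5318 (k8 c5317 c5401 c5323 c118 c19427 c1281 c267 c1113 (k8 c19615 c19625 c5211 c9664 c5519 c19631 c5229 c9614 (k8 c5571 c5574 c5417 c17815 c551 c18620 c1657 c19632 (k8 c2551 c265 c431 c266 c432 c13265 c13274 c2480 (k8 c2500 c742 c745 c2428 c746 c2024 c2452 c18017 (k2 c15061 c10131 (k1 c2936 k0))))))))) (by decide +kernel)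
def c19634 : PP 9 3 T 0x86000000040000000000000000080000000200000000000001000000000000000000000000000000000000000000000000001200000008 := rS 0x68f79e67b63ce8d80c0e86c739d308edeef5139d4b265 (k8 c18353 c18352 c18354 c5570 c5519 c5333 c5332 c5445 (k8 c19356 c5317 c1109 c263 c265 c266 c5649 c2480 (k4 c742 c5325 c18443 c8113 (k1 c17847 k0)))) (by decide +kernel)
def c19635 : PP 9 3 T 0x4000000000082000200000000000000000000000008000200000000000000000000000000000000000000000000000000000000020000000000010004 := rS 0x4b1f8ce5f00014107769b57df1c2d8d4ae330385d1a9331b24c295659d4cac534965165d (k8 c17796 c18350 c18352 c18347 c18348 c18353 c18354 c5420 (k8 c5446 c5445 c5396 c5395 c5444 c5381 c5433 c5432 (k8 c5316 c5313 c5324 c5474 c12681 c17287 c1656 c2081 (k8 c10131 c10693 c311 c5642 c1054 c663 c17744 c3597 (k1 c19608 k0))))) (by decide +kernel)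
def c19636 : PP 9 3 T 0x4004000000000082000200000000000000000100000004000200000000000001000000040000000000000000000000400000040000000000001000000004 := rS 0x12c7e3397c00050405ce68d37a4cc6c930a54e2cb58ab4803d3a9958a69 (k8 c18347 c18348 c18353 c18354 c5436 c17815 c5573 c5421 (k8 c5420 c5571 c5446 c5445 c5396 c5395 c5444 c5565 (k8 c5381 c5379 c5433 c18500 c311 c5642 c1054 c663 (k2 c17744 c3597 (k1 c19608 k0))))) (by decide +kernel)
def c19637 : PP 9 3 T 0x4000000000000080000200000000000000000100000004000000100000000001000000000000000000000000000000000000000000020000001000000014 := rS 0x114861c0d8011a6f38ac55bb3 (k8 c19230 c5573 c5421 c5571 c5565 c5381 c5642 c18705 (k4 c18461 c10701 c3684 c5658 k0)) (by decide +kernel)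
def c19638 : PP 9 3 T 0x4004400000000012000200000000000000800000000000000200000000500004000000000000000000000000000000000000001404000000400000010000 := rS 0xf8f968df772427e9b9d2ebd861960a4d4a3b7b9249ef523936959d (k8 c19356 c5211 c5521 c5520 c5519 c5335 c5334 c5333 (k8 c5332 c5399 c5444 c5319 c5315 c5348 c5603 c17797 (k8 c17864 c5242 c5556 c17827 c17833 c18009 c5622 c5624 (k1 c5206 k0)))) (by decide +kernel)
def c19639 : PP 9 3 T 0x80000200000000000000400000008004000000000000000000000000000000000000000000000000000000000000000000000000000020 := rS 0x1a4dc47fe273939bf1a71c2ecefa5d (k8 c17796 c9703 c19230 c5423 c5571 c5569 c5565 c5383 (k4 c5379 c5624 c464 c5230 (k2 c6187 c17948 k0))) (by decide +kernel)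
def c19640 : PP 9 3 T 0x2000000000000080002200000000000000000000000000000000000001000000000000000000000000000000000000000800001400000000000200010020 := rS 0x123d58b3eb7a5bae77389c0c86ff1f929ce4e1337e34e38513806fb8b7ca15f683 (k8 c18355 c18357 c18349 c18351 c4760 c9703 c53 c5570 (k8 c5423 c5571 c5569 c5565 c5564 c5383 c5379 c5391 (k8 c5385 c5389 c5606 c5607 c5610 c17948 c1141 c2379 (k4 c17986 c5631 c7166 c3266 (k2 c364 c12621 k0))))) (by decide +kernel)
def c19641 : PP 9 3 T 0x2000000000000080000200000000000000400000000000000000000001080000000080000000000000000000000000000800001400000000000200014020 := rS 0x1178cae56ebb5fe20a17bdc47b4b1bc6acd7b855ac54de0c (k8 c2371 c5565 c1139 c5422 c5423 c5575 c5574 c5569 (k8 c2695 c19640 c6187 c5213 c913 c581 c582 c5431 (k4 c5430 c5616 c1142 c4684 (k2 c3258 c3626 k0)))) (by decide +kernel)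
def c19642 : PP 9 3 T 0x6004400000000092000200000000000040000000000004000200000000080000000080000000000000000000000000000800001404000000400200010020 := rS 0xd7fc61147b383deb4acec1de705 (k8 c5545 c5540 c5503 c19356 c5211 c5519 c19585 c19638 (k4 c19639 c19641 c5514 c1942 (k1 c5659 k0))) (by decide +kernel)
def c19643 : PP 9 3 T 0x82000200000000000000000000000004000200000000000001000000000000000040000000000000000000002000200000400000000020 := rS 0x1b8b3647e387c1d1a181949a9563b3 (k8 c19230 c5421 c5399 c5444 c5315 c463 c462 c3495 (k4 c2208 c5624 c3292 c19639 (k2 c5684 c17864 k0))) (by decide +kernel)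
def c19644 : PP 9 3 T 0x82100000000000000000000000000000000000000000000000000000900000000000000000000000000000000800240020001000000000 := rS 0x6cfc5bbe56dc2a8eed5fa8d43df (k8 c5450 c5398 c5449 c2796 c3223 c3366 c2974 c1771 (k4 c6396 c1814 c5629 c3343 (k1 c5690 k0))) (by decide +kernel)
def c19645 : PP 9 3 T 0x6004400000000092000200000000000040000000000004000200000000001000000100040040000041000040000080000000000400200000400200010020 := rS 0x1acdb023d455bc4bf0b8fe6ff67bcd568f50b2536954cacf267165c44030124d2b3a5578a2d0685 (k8 c18349 c18355 c18350 c19633 c19643 c19356 c5211 c5334 (k8 c3066 c53 c9730 c5420 c5571 c12830 c5574 c5447 (k8 c5446 c5397 c5396 c5398 c5568 c5500 c5540 c5543 (k8 c5544 c17809 c17893 c18012 c460 c5691 c2950 c14796 (k4 c18003 c3861 c19642 c5665 k0))))) (by decide +kernel)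
def c19646 : PP 9 3 T 0x4000000000000000200000000000000000100080000000200000000000000000100000080000000000000000000000000000000000000000000010100 := rS 0x1e1 (k2 c5535 c19609 k0) (by decide +kernel)
def c19647 : PP 9 3 T 0x1000000000000012000000000000000000000000000000000200000000001000000000000040000001000000000000000080000000000000000000000020 := rS 0x793d9b01a571c81c6e0f30a64760ba56741293 (k8 c5444 c311 c19356 c5211 c5516 c5332 c5447 c5445 (k8 c19585 c5435 c5432 c5317 c5313 c17806 c5830 c742 (k2 c2428 c3568 k0))) (by decide +kernel)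
def c19648 : PP 9 3 T 0x6004000000000092000200000000000040000100000000000200000000001000000000140000000041000040000000000000000000000000001200010020 := rS 0x35408f2912f12cfe532af7e02342210dac31d6a36268f4fa84c24958ab45f3b01e4ce3b378b1c129343bcdfede71b2dc2401e8ee959df9f8556c94cb3d2a9bcc20d0a8b (k8 c18350 c18349 c18355 c18346 c5397 c5446 c5543 c5447 (k8 c5396 c5500 c18012 c17809 c19356 c5211 c5332 c5436 (k8 c17815 c1714 c5420 c17893 c5691 c5544 c5540 c5499 (k8 c5444 c311 c19646 c19633 c19230 c5571 c12830 c19634 (k8 c19635 c19426 c5573 c5421 c5334 c5445 c5398 c5448 (k8 c5568 c5382 c5381 c5437 c5434 c3618 c1933 c19455 (k8 c458 c3066 c5450 c19643 c19644 c19645 c460 c15334 (k4 c2948 c2388 c18001 c6192 (k1 c19642 k0))))))))) (by decide +kernel)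
def c19649 : PP 9 3 T 0x4004000000000092000200000000000000000100000000000200000000000000000000040000000000000000000000400000000000000000001200010000 := rS 0x6a7b18eaf54bf52f6f04868cc048e9682e8d4987deae11dcec079338b2f674acebc4803d (k8 c5436 c17815 c19633 c19356 c5211 c19230 c5420 c5571 (k8 c12830 c19634 c19635 c5332 c1714 c5519 c9664 c5444 (k8 c5381 c5433 c19636 c2159 c19637 c715 c716 c311 (k8 c4560 c1073 c1075 c1906 c1077 c19646 c19647 c19648 (k1 c1657 k0))))) (by decide +kernel)
def c19650 : PP 9 3 T 0x4004000000000092000200000000000000000100000000000200000000000000000000080000000000000000000000000000000000000000001200010000 := rS 0x1e167c05a2abf631d52fd4b824341d333fe0604212bc8b1d6bb54663f0b9cd1a6f49a7d42c94da5532f523ac55ae11dcec079338b2f674acebc4803d45a24d265 (k8 c18353 c18347 c18356 c18350 c5436 c17815 c19633 c19356 (k8 c5211 c19230 c5420 c5571 c12830 c19634 c19635 c5332 (k8 c1714 c5573 c5421 c5520 c5519 c5447 c5446 c5397 (k8 c5396 c5398 c5448 c5444 c5565 c5381 c5379 c5433 (k8 c5318 c5316 c141 c205 c2081 c2936 c2940 c15747 (k8 c19637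 c16948 c11059 c3602 c2001 c10701 c311 c19357 (k8 c2551 c1906 c19646 c19647 c5500 c5501 c5502 c5543 (k2 c18012 c18121 k0)))))))) (by decide +kernel)
def c19651 : PP 9 3 T 0x4000000000000000000000000000004000000000000000001000000200000000000000004000000000000000000020000001000000000 := rS 0xe86c691c (k4 c1657 c1656 c2162 c331 (k1 c5649 k0)) (by decide +kernel)
def c19652 : PP 9 3 T 0x4000000000000082000200000000000000000000080000000200000000000000000000040000000000000000000000400000000000020000001000010000 := rS 0x836a1f138a7c759 (k8 c5340 c5462 c5417 c5570 c5517 c9578 c19632 c19649 k0) (by decide +kernel)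
def c19653 : PP 9 3 T 0x4000000000000082000200000000000000000000000004000200000000000000000000040000000000000000000000000000000000020000001000010000 := rS 0x8e168061c0d8169677469bce3e3ace741ed578ecd2659 (k8 c18352 c5444 c19230 c19633 c19651 c19585 c19356 c5340 (k8 c5462 c5571 c5565 c5381 c10131 c19652 c6008 c18705 (k4 c5649 c263 c19636 c19637 (k1 c2159 k0)))) (by decide +kernel)
def c19654 : PP 9 3 T 0x4000000000000082000200000000000000000000000004000200000000000000000000000000000000000000000000000000000000020000001000010000 := rS 0x41b50fd28081a21349e28d379c44e2956ecfc7591f8cf3a0f (k8 c19585 c19356 c5316 c188 c5340 c5462 c19230 c5573 (k8 c5417 c5570 c5571 c5565 c5381 c19633 c19653 c15747 (k4 c10701 c18705 c6008 c5517 (k2 c9578 c19632 (k1 c19650 k0))))) (by decide +kernel)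
def c19655 : PP 9 3 T 0x1000000000000010000000000000000000000000000000000200000000001000000000000040000001000000000004000080404000000000000000000060 := rS 0x6c068e46e3b05d2b3a0f (k8 c19585 c19356 c6008 c5516 c5332 c5435 c5317 c17806 (k2 c5830 c5710 k0)) (by decide +kernel)
def c19656 : PP 9 3 T 0x80000200000000000000000000000000000000000000000000000000000000000000014000000040000005400000000000000000000000 := rS 0x1967139a04de7d (k4 c5566 c5565 c5380 c5379 (k2 c5571 c5420 (k1 c3599 k0))) (by decide +kernel)
def c19657 : PP 9 3 T 0x4000200080000000000000100000004000000000000000000000000000000000010010880000000000000400000000000000000000000 := rS 0x48c05bce16534bddb740a36267d47984c69f3fec53a87661dd128541b14ea69 (k8 c18347 c18354 c18348 c18355 c18349 c18356 c5356 c1232 (k8 c2073 c168 c5397 c5358 c1644 c1229 c1639 c5568 (k8 c5566 c5382 c5381 c5380 c19656 c5229 c17990 c14519 (k4 c1718 c1327 c2078 c2948 (k1 c18000 k0))))) (by decide +kernel)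
def c19658 : PP 9 3 T 0x5000000000000000000000000000000000000000000000000000000000054000000000000000000000000000504000000000000000000000000000000000 := rS 0x2411798 (k4 c18346 c18350 c18056 c9181 k0) (by decide +kernel)
def c19659 : PP 9 3 T 0x4000200080000000000000100000004000000000000000000000000000000000010000880000000000000400000000000000000000000 := rS 0x407df037fab96ad55021fdb15663f11a8fefb252a77 (k8 c5356 c133 c134 c5452 c5568 c5381 c1231 c1232 (k8 c4064 c5542 c2073 c19657 c3001 c4065 c10048 c2507 (k4 c2631 c5584 c3070 c19658 k0))) (by decide +kernel)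
def c19660 : PP 9 3 T 0x4000000000000004000200080000000000000100000004000000000000000000000000000000000010000080000000000000400000000000000000000000 := rS 0xde024210fc67280db495de3506d8dfdf64a54c2634f9fcd2c5 (k8 c18348 c18347 c5358 c1644 c1229 c1639 c133 c134 (k8 c5452 c5565 c5229 c19656 c16071 c10048 c5869 c3991 (k8 c5166 c5316 c5318 c15747 c2776 c10701 c1113 c19427 k0))) (by decide +kernel)
def c19661 : PP 9 3 T 0x10000000000000000000000000000000000200000100000000000000000000000000001404000001001000000000000000000140000000 := rS 0x1323b3552832390b8dc479d (k8 c19356 c9733 c5435 c5433 c5317 c5315 c5211 c5665 (k2 c5332 c2373 (k1 c3578 k0))) (by decide +kernel)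
def c19662 : PP 9 3 T 0x20000000000000000000000000000000000200000100000000000000000040000000001484000001000000400000000000000040000100 := rS 0x6b3d8281b4b1d264da213098c32390385c6e0f11e74d2c5 (k8 c18348 c18347 c19356 c9733 c19585 c5435 c5433 c5432 (k8 c5317 c5315 c1229 c1639 c5528 c5529 c5530 c3578 (k4 c5332 c289 c5645 c690 (k2 c2305 c3598 k0)))) (by decide +kernel)
def c19663 : PP 9 3 T 0x8004000000000044000200000000000000000100000004000200001000000002000000000040000000001480000001000000400000000000000040000100 := rS 0x1b3da21796d7be050eaac479d49a562201 (k8 c9696 c9730 c133 c430 c19356 c9733 c1281 c118 (k8 c5811 c5452 c19662 c19410 c19626 c5540 c19661 c19373 k0)) (by decide +kernel)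
def c19664 : PP 9 3 T 0x4000200080000000000000100000004000200000000000002000000000000000010000080000000000000400000000000000000000000 := rS 0xf63cb6a9c0fc55a228888944eab008740bdf04b1cf29bf1b49027d469df6ea157fb8fe9f31984479d629a4ea89 (k8 c18356 c18354 c18347 c18348 c19356 c9733 c1639 c1229 (k8 c1644 c5358 c19660 c5584 c1233 c19656 c5356 c5381 (k8 c5566 c5380 c17990 c5579 c19659 c5441 c5357 c5438 (k8 c5452 c5811 c118 c9696 c1281 c434 c1217 c9730 (k8 c5651 c9368 c1289 c19607 c19663 c5412 c19410 c19375 (k1 c5540 k0)))))) (by decide +kernel)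
def c19665 : PP 9 3 T 0x80000000000000000000000000200000000000001000000000000000000002080000000000000000000000000000020000000 := rS 0x335e6d1433f620003333c6a5a55a4dee3b7ad283fb5649841277198e42e311be74d2c5 (k8 c18348 c18347 c19356 c5435 c5434 c5433 c5317 c5316 (k8 c5356 c5438 c1639 c134 c5412 c1082 c5211 c1999 (k8 c5332 c5333 c1694 c2121 c19532 c331 c1651 c1994 (k8 c1995 c17712 c1238 c882 c1709 c334 c2073 c3587 k0)))) (by decide +kernel)
def c19666 : PP 9 3 T 0x50000200080000000000000100080000000000100200044000000000000000000010010000000000000001000000141000000020400000 := rS 0x32c4ef35abf40073409bc5269 (k8 c18347 c538 c5565 c5380 c5379 c9730 c1238 c1340 (k4 c334 c16402 c9148 c11559 k0)) (by decide +kernel)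
def c19667 : PP 9 3 T 0x4000000000044000200000000000000000100000004000200000000000001000000000000000000014080000000400000000000000000000000000101 := rS 0x6c596920216d1a13018702e59 (k8 c18352 c5433 c19357 c263 c5564 c5381 c1995 c5642 (k4 c19497 c19474 c5444 c5680 k0)) (by decide +kernel)
def c19668 : PP 9 3 T 0x50000210080000000000000100000000000000100000044000000000000000000010010000000000000001000000141000000020400002 := rS 0x2214a (k2 c5211 c17712 (k1 c19666 k0)) (by decide +kernel)
def c19669 : PP 9 3 T 0x8004400000000060000000000000000000000000080000000200000000000014000000010040000000015400000001000005400001440000000000000002 := rS 0x337db0025b3fc2263d385946b496c5ee1f1dc7606457f86472171b88f3b11109b532c5 (k8 c18348 c5530 c5529 c5528 c5411 c19356 c9733 c5435 (k8 c5433 c5317 c5315 c5586 c5582 c5508 c5504 c5332 (k8 c5517 c5333 c9578 c3578 c1058 c5680 c4266 c3598 (k8 c1754 c5457 c1648 c353 c3593 c17892 c2078 c5688 k0)))) (by decide +kernel)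
def c19670 : PP 9 3 T 0x4000200080000000000000100000004000200000000000000000000000000000010000080000000000000400000000000000000000000 := rS 0xcb1392bd8f70652c92477a82de6b354a64da218ac47680068a7452030e10de21b07e747a17039cc266fef8258e794dc7606457ff8da4813ea34efb750abfdc7f4f98cc259629a4ea89 (k8 c18356 c18354 c18347 c18348 c18352 c1639 c1229 c1644 (k8 c5358 c19660 c5584 c1233 c19656 c5356 c5381 c5566 (k8 c5380 c17990 c5579 c5586 c5582 c5508 c5504 c19659 (k8 c5441 c5357 c5438 c5452 c5565 c5564 c5379 c5432 (k8 c5433 c5436 c19356 c19585 c1073 c19664 c10701 c19357 (k8 c263 c538 c19665 c1708 c19667 c19668 c5411 c5414 (k8 c5528 c5529 c5530 c5531 c5532 c333 c10374 c1998 (k8 c15906 c10368 c19669 c5645 c291 c5657 c17892 c353 (k2 c9148 c11559 k0))))))))) (by decide +kernel)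
def c19671 : PP 9 3 T 0x8000400000000000000200080000000000000000000004000100000000000000000000000000000010000004000000000000000000000001000020000000 := rS 0x40825b190d486138eb5c8be3691fd027d469dd8a8b2ca24ba75 (k8 c18354 c17796 c18356 c18352 c18350 c18348 c5356 c5381 (k8 c5566 c5380 c5358 c17990 c5579 c5582 c5507 c5504 (k8 c5564 c2000 c331 c5653 c9931 c544 c12615 c13377 k0))) (by decide +kernel)
def c19672 : PP 9 3 T 0x20000000000000000000000100080004000100000000044000000100090040000150000584000001000000404000004400002009004100 := rS 0x10186a3db3473ed802d5fa370587fbe61318cd92071a08e229d55c54426d54acd8a69 (k8 c18347 c18348 c5532 c5531 c5529 c5528 c5414 c5413 (k8 c5412 c5411 c5409 c1074 c1617 c134 c2043 c1229 (k8 c1639 c5452 c5517 c5516 c5518 c1075 c1094 c3623 (k8 c5502 c18002 c2078 c11210 c3598 c3568 c9932 c315 k0)))) (by decide +kernel)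
def c19673 : PP 9 3 T 0x400000000000000200080000000000000100000004000100000000000000000000000000000150000004000000000000000000000000002008000010 := rS 0x338000665 (k4 c18353 c1109 c5642 c1903 (k1 c15121 k0)) (by decide +kernel)
def c19674 : PP 9 3 T 0x8000000000000004000210000000000000000100040004000000000000000000000000000000000010000000000000000000000001000000012008000020 := rS 0x7a96a00667ead4e2f325acd53155583b68b181abdfe5d (k8 c17796 c5586 c5584 c5508 c5506 c5211 c6008 c11079 (k8 c5414 c5531 c5532 c12627 c445 c6185 c9106 c1076 (k4 c19392 c3623 c1902 c1928 (k1 c873 k0)))) (by decide +kernel)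
def c19675 : PP 9 3 T 0x50000210000000000000000000000000000000001000045000000000000040001551000080000000000080404000020440002000004460 := rS 0x7b068e4d8cef692d55f280c4402c532a2d0685 (k8 c18349 c18355 c18350 c18353 c18348 c53 c9730 c15060 (k8 c17769 c3623 c5546 c17809 c1285 c9859 c546 c17806 (k2 c1648 c5710 k0))) (by decide +kernel)
def c19676 : PP 9 3 T 0x4000000000040000200000000000000000000000000000000002000000000000100000000000400010000000001000000000000020440004000004560 := rS 0x1c9ec1adff9a06266f (k8 c5565 c5382 c5380 c5590 c2950 c5715 c15912 c547 (k1 c18104 k0)) (by decide +kernel)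
def c19677 : PP 9 3 T 0x4000210080000000000000100000004000000000000000001000000000000000010000080000000000000400000000000000000000000 := rS 0x19c705519e031559aa76ab57e91dea370583c3e3ba51ccdec73ca6e06fff1b491a770ca644e490209052b168b84803f2295c0e3d1a069aa090b0746293d82076ea1579fd3e63309f653eeefa2d126932b14eb98 (k8 c18346 c18354 c18348 c18353 c18347 c18356 c18350 c5452 (k8 c19660 c19670 c5566 c1639 c1229 c1644 c5358 c5584 (k8 c1233 c19656 c5380 c17989 c5444 c1472 c19671 c19357 (k8 c5438 c5585 c5649 c1074 c1623 c1617 c5353 c5582 (k8 c441 c18052 c4262 c4252 c5506 c4096 c13854 c19673 (k8 c17676 c349 c5447 c5393 c5356 c5381 c17990 c5579 (k8 c5586 c5508 c19659 c5441 c5357 c5565 c5379 c19674 (k8 c5332 c5517 c5329 c5516 c5518 c5519 c5520 c1075 (k8 c1094 c19672 c1906 c2760 c19676 c15060 c19675 c3623 (k2 c3602 c1285 (k1 c6082 k0))))))))))) (by decide +kernel)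
def c19678 : PP 9 3 T 0x4000200080000000000000100000004000000000000000001000000000000000010000080000000000000400000000000000000000000 := rS 0x11a941105fcf6a91ce4440204121007a3f038d0521a0e8c7be09639e4aeb122b5527b094a076ea157fb8fe9f31984fa89cc314d275 (k8 c18354 c18347 c18348 c18346 c18356 c5566 c1639 c1229 (k8 c1644 c5358 c19660 c5584 c1233 c19656 c5380 c19670 (k8 c17989 c5444 c5585 c5582 c5506 c5353 c5441 c5357 (k8 c5438 c5452 c1472 c19671 c5649 c4096 c1074 c1617 (k8 c441 c1623 c18052 c13854 c19673 c53 c9730 c19677 (k8 c5374 c15975 c18955 c12428 c18513 c5231 c16757 c5520 k0)))))) (by decide +kernel)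
def c19679 : PP 9 3 T 0x8000400000000042000220000000000000000100000004000100000100000000000000080040000000000000000001000000404000004004000000004140 := rS 0xe06e0b1dd2a01f3da83522873da36268f81bff3083 (k8 c18355 c18346 c5586 c5508 c5568 c5382 c5381 c5372 (k8 c5373 c5374 c5522 c15975 c18955 c18001 c5231 c5332 (k4 c5516 c5518 c3568 c18002 k0))) (by decide +kernel)
def c19680 : PP 9 3 T 0x50000210000000000000000100080004000100000100020000000000080000000004000480000000400000000000000004005100400000 := rS 0x4e8e7da991f8a033b0efecc463b (k8 c5332 c9733 c5404 c5452 c5224 c5393 c5651 c404 (k4 c5447 c5502 c18002 c19375 (k1 c17923 k0))) (by decide +kernel)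
def c19681 : PP 9 3 T 0x56000210000000000000000100080004000000000100000000000000000000000004000400008000400000000000000020005100400000 := rS 0x729d66fb53223 (k4 c9733 c5447 c5499 c2073 (k2 c19375 c440 (k1 c17923 k0))) (by decide +kernel)
def c19682 : PP 9 3 T 0x8000000000000050000210000000000000000100080004000100000000000002000000000000000000000480000040400000000000000020004000400000 := rS 0xf7f34e0e4dadf4821e022189a3e06ff4cc4402401faae2a23140955ee1f18f46619d877f66d2409f51b98419d58a89 (k8 c18356 c18348 c18354 c18355 c18346 c5381 c5566 c5380 (k8 c17990 c5404 c5452 c5224 c5393 c385 c2769 c5579 (k8 c16773 c5584 c1217 c5651 c9733 c1289 c1281 c404 (k8 c5655 c9696 c9730 c5447 c5586 c5508 c5568 c5382 (k8 c19626 c19680 c19681 c18001 c2948 c747 c547 c17923 (k2 c5589 c15912 (k1 c8792 k0))))))) (by decide +kernel)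
def c19683 : PP 9 3 T 0x200080000000000000100080004000000000000000000000000000000000010000080000000000000400000000000000000000000 := rS 0x1fab580b31bc3859aa76837058ed929b6bb55fe934a85c0440f18f5571511e740e34188fc6619888041e0569204fa8d3b95cf2c7048a04aaff76df6129ef9fc4ef0d99d58a89 (k8 c18356 c18348 c18354 c5404 c19678 c434 c5358 c5452 (k8 c19670 c5224 c17744 c19660 c5584 c1217 c5651 c5438 (k8 c5357 c5441 c5353 c5356 c5381 c5566 c5380 c17990 (k8 c5811 c9739 c9696 c9730 c5393 c385 c404 c17793 (k8 c5653 c1617 c19679 c9733 c1289 c1281 c2769 c5579 (k8 c5655 c19427 c1107 c133 c430 c5586 c5585 c5507 (k8 c19659 c134 c5332 c5516 c5518 c19682 c5531 c5532 (k4 c18018 c547 c440 c18002 (k2 c2514 c2504 (k1 c18111 k0)))))))))) (by decide +kernel)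
def c19684 : PP 9 3 T 0x400000000000000000000000000000000000040004000100000000000000000000000000000000000000000000000000000000000220000000000000 := rS 0x7b1e5e1 (k4 c5534 c439 c5165 c5540 k0) (by decide +kernel)
def c19685 : PP 9 3 T 0x2004000000000000000200000000000000000100040000000100000000000000000000010000000000000000000001400000000000000000000000000000 := rS 0x1e1f9b3d0f983aa151683 (k8 c18355 c18350 c18349 c18354 c18346 c5499 c5543 c17809 (k2 c17952 c5168 k0)) (by decide +kernel)
def c19686 : PP 9 3 T 0x20000000000000000000000000000000000000000000000000000000000000000000000406000000000000400001000520000001000008 := rS 0xdc16f5 (k4 c10333 c695 c1622 c18018 k0) (by decide +kernel)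
def c19687 : PP 9 3 T 0x20000000000000000000000000000000000000000000000040000000000000000000000404008000000000400000000520000001004008 := rS 0xdc16f5 (k4 c1922 c693 c1622 c18018 k0) (by decide +kernel)
def c19688 : PP 9 3 T 0x200080000000000000100000004000000000000000000000000000000000010000080000000000000400000000000000000000000 := rS 0x1b87deb0043a4477e0f68e4429dda52deed111e749207200d07a3f198a02f111883f6e990cf8c4a27498080205d83fd5f03693c253ee4d9dcae7f3cb1c128146c4cfa8fefecd2b9841b151275 (k8 c18354 c18356 c18348 c18355 c18346 c133 c5404 c5452 (k8 c5568 c5566 c5382 c5381 c5380 c5438 c5357 c5441 (k8 c5358 c5353 c5356 c19659 c19660 c19670 c19678 c17990 (k8 c5508 c5584 c5586 c5224 c5811 c9696 c19427 c430 (k8 c434 c1217 c5579 c5393 c5447 c17744 c9739 c17793 (k8 c9730 c1107 c5651 c385 c404 c2769 c5653 c5655 (k8 c1617 c17676 c19679 c9733 c9368 c499 c19683 c5211 (k8 c5412 c5528 c19684 c19685 c5165 c5456 c19686 c19687 (k4 c18001 c1928 c1216 c1622 (k1 c3578 k0)))))))))) (by decide +kernel)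
def c19689 : PP 9 3 T 0x40000000000000000000000000000000000000100040000000100000000000000000000000000000000000004000000000000000000405000005081400000 := rS 0xf1904524b (k4 c2591 c1312 c10205 c10342 (k1 c5655 k0)) (by decide +kernel)
def c19690 : PP 9 3 T 0x2000000000000000010000000000000000100040000000100000000020040000000000000000000000504000000000000000000005000005001400000 := rS 0xa091e2259046c1f23fcc769d1c88c43b4 (k8 c5211 c5528 c9733 c5534 c5458 c5456 c5592 c2791 (k8 c19689 c3578 c1741 c2593 c5655 c5660 c10342 c509 k0)) (by decide +kernel)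
def c19691 : PP 9 3 T 0x4002000000000000000000000000000000000100000004000100001000000000000000000000000000000180000000000000000000000000000000000000 := rS 0xf16dbbfb3 (k4 c5404 c5452 c5229 c5166 (k1 c6706 k0)) (by decide +kernel)
def c19692 : PP 9 3 T 0x2000000000000000210000000000000000100040004000100000000000000000000000000000010000080004000000000400000000020000000000000 := rS 0x370fbd521011289c04f00b8fc7a087b8740e5746c4c266f3ea3c32934d8ed3a3911887dd15da26761933098d128541b14ba69 (k8 c18347 c17796 c18348 c18355 c18349 c18356 c1229 c1639 (k8 c19688 c5663 c5447 c5211 c5414 c19691 c5528 c9733 (k8 c5534 c5458 c5456 c5397 c5444 c6205 c5568 c5566 (k8 c5565 c5564 c5382 c5381 c435 c1617 c331 c501 (k8 c5643 c1512 c275 c1506 c19357 c19427 c434 c1113 (k4 c19690 c18000 c10333 c1216 (k2 c1622 c3578 k0))))))) (by decide +kernel)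
def c19693 : PP 9 3 T 0x80000000000000400000000002000000000000 := rS 0x8f0 (k2 c1472 c17793 (k1 c5811 k0)) (by decide +kernel)
def c19694 : PP 9 3 T 0x2000000000000000200000000000000000100000004000100000000000002000000000000000010000082004000000000400000000000000000000000 := rS 0xf1fbc53b510126942359e75269b4cec0c2631385e220112808de3d0401c68330cf7c625702e4cfa3b4e8e58a69 (k8 c18347 c18348 c5534 c5458 c5456 c5566 c19688 c5811 (k8 c19417 c19693 c5452 c6205 c385 c5653 c1617 c5643 (k8 c1512 c5565 c19427 c1113 c9696 c9730 c1214 c434 (k8 c1229 c1639 c5663 c5447 c5397 c5444 c5374 c2897 (k8 c9733 c19692 c5334 c17923 c19686 c541 c19626 c10342 (k1 c5166 k0)))))) (by decide +kernel)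
def c19695 : PP 9 3 T 0x4000400000000004000000000000000000000100000004000100000000000000000000000000000000014004000000000000000000005000005001400000 := rS 0x14b2c83b6 (k4 c5229 c15626 c5420 c5417 (k1 c3579 k0)) (by decide +kernel)
def c19696 : PP 9 3 T 0x2000000000000000200000000000000000100000004000100000000010002000000000000000010000080004000000000400000000000000000000000 := rS 0x48a36268ff70fc263d0401c68332b814fa25011bc2e3113a8527b03098c33934fecfbe8942a0cd2c5 (k8 c18348 c18347 c18355 c18349 c18356 c5452 c5404 c1644 (k8 c19688 c6205 c1229 c1639 c5663 c5444 c5398 c434 (k8 c19693 c1214 c5565 c19427 c1113 c5566 c5811 c19417 (k8 c385 c5653 c1617 c5643 c1512 c5564 c275 c19695 (k4 c5568 c5382 c5381 c19694 (k1 c18000 k0)))))) (by decide +kernel)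
def c19697 : PP 9 3 T 0x2000000000000000200000000000000000100000004000100000000010002000000000000000010000080000000000000400000000000000000000000 := rS 0x6ada9b73a8655bdc729d3d8ed269bd8184c6020b83e22010401c68330cf7c625702e4d8a69 (k8 c18347 c18348 c19688 c5811 c19417 c19693 c5452 c6205 (k8 c385 c5653 c1617 c5643 c9696 c9730 c9739 c1214 (k8 c19427 c1229 c1639 c5663 c5397 c5444 c5456 c5457 (k8 c5458 c5534 c501 c1284 c19696 c5373 c745 c19687 (k2 c5665 c17857 k0))))) (by decide +kernel)
def c19698 : PP 9 3 T 0x1000000000000000000040000000000000000000000000100000000000002000000000000000000000080008000000000400000000020000000000000 := rS 0x1c9e076c71b87cf74a6888deb9d0ca4d3699d8184c60f8880410072b8158a69 (k8 c18347 c18348 c5811 c19417 c1617 c5643 c9696 c9730 (k8 c9739 c1229 c1639 c5663 c5447 c5397 c5444 c6205 (k8 c5373 c1922 c9733 c9368 c5215 c17741 c1216 c1622 (k4 c799 c5332 c5669 c274 (k1 c18074 k0))))) (by decide +kernel)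
def c19699 : PP 9 3 T 0x200000000000000000100000004000100000000010002000000000000000010000080000000000000400000000000000000000000 := rS 0xf1b80fcc63c8e5be3b1b87cf74a11bd73a9043f851b1347a6d3201f70fc263d0401c68332b814fa25011bc2e3113a8527b03098c33934fecfbe8942a0cd2c5 (k8 c18348 c18347 c18355 c18349 c18356 c5452 c5404 c1644 (k8 c19688 c6205 c1229 c1639 c5663 c5444 c5398 c434 (k8 c19693 c1214 c5565 c19427 c1113 c5566 c5811 c19417 (k8 c385 c5653 c1617 c5643 c1512 c5564 c275 c19695 (k8 c9696 c5447 c5397 c5568 c5382 c5381 c19697 c19698 (k8 c18000 c5374 c10333 c9733 c5215 c17741 c1216 c1622 (k8 c5332 c2949 c17865 c18074 c5669 c800 c801 c5577 (k1 c16773 k0)))))))) (by decide +kernel)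
def c19700 : PP 9 3 T 0x6000000000000000000000000080000000000000000020000000000010000000014000000000000000000400000000100000101400008 := rS 0x1f89cdaa4d36991d88c1637 (k8 c5518 c5516 c5331 c5332 c5447 c5397 c5444 c18018 (k2 c17923 c13274 (k1 c1240 k0))) (by decide +kernel)
def c19701 : PP 9 3 T 0x2000000000000000000000100080004000100000000020002000000000000000010000080000000000000400000004000000001000000 := rS 0x69b3070ab6888c77b30105c6833ef8c442a9 (k8 c2026 c432 c19693 c5452 c385 c5653 c1214 c19427 (k8 c5404 c5332 c5331 c1704 c1281 c19700 c440 c18002 (k1 c2077 k0))) (by decide +kernel)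
def c19702 : PP 9 3 T 0x22000020000000000000000000000000000000000100000000000000000040000000000000000000000000400000000000000000000000 := rS 0x79 (k2 c5524 c15975 k0) (by decide +kernel)
def c19703 : PP 9 3 T 0x200000000000000000100000004000100000000000002000000000000000010000080000000000000400000000000000000000000 := rS 0x43e75eec71d88fc1b41cd2fdb001f8200e348895c1e33010040a13efecc621949a6f61933098d8a69 (k8 c18347 c18348 c1229 c1639 c19688 c5663 c5397 c5444 (k8 c6205 c19693 c5404 c5452 c5564 c5811 c9696 c19427 (k8 c385 c9739 c19417 c9730 c5653 c1617 c5643 c275 (k8 c19699 c5502 c19701 c19684 c5228 c5165 c5409 c5456 (k4 c5535 c499 c19702 c19687 (k1 c19692 k0)))))) (by decide +kernel)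
def c19704 : PP 9 3 T 0x40000000000000000000004000100000000000001000000000000000000000080000000000000400000000020000000000000 := rS 0xb0203a072ba4f606131b14ba69 (k8 c18347 c17796 c18348 c1229 c1639 c5663 c5444 c435 (k4 c1617 c331 c5643 c19357 (k1 c1506 k0))) (by decide +kernel)
def c19705 : PP 9 3 T 0x2000000000022000200000000000000000100040004000100000100000000000000000000000000000080000000000000440000040000000000000020 := rS 0x448b1d077bb3b154684d32c745965125d (k8 c17796 c18356 c18352 c18350 c5535 c5447 c5564 c5381 (k8 c5414 c19702 c19691 c6008 c5504 c5582 c10107 c12615 k0)) (by decide +kernel)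
def c19706 : PP 9 3 T 0x2000000000002000200000000000000000100040004000100000100000014000000000000000000000080000000000000440000040000000000001420 := rS 0x1ec87f603f6bb342965065d (k8 c17796 c18355 c18352 c18349 c5404 c19705 c9737 c5228 (k2 c8435 c3571 (k1 c5498 k0))) (by decide +kernel)
def c19707 : PP 9 3 T 0x2000000000010000210000000000000000100000004000100000100000000000000000000000000014580000000001000040000010040000020000020 := rS 0x712d47ecb127ba2ab335234266f47a75c2df (k8 c5538 c5460 c5458 c5568 c5565 c5564 c5381 c5665 (k8 c2377 c1139 c19691 c18526 c1091 c2909 c17684 c3620 (k1 c18213 k0))) (by decide +kernel)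
def c19708 : PP 9 3 T 0x2000000000000000200040000000000000100000004000100000000000000000000000000000000004080000000000000400000040008000020000040 := rS 0x3896a3f65893dcb38aed0db9d1bbdc1e1fa54441a0b02004825b2b23426a14da676061318258ee16faad3af566bcc73982e964d2c5 (k8 c18348 c18347 c18352 c17796 c18346 c5534 c387 c5537 (k8 c2045 c5458 c1284 c5538 c5460 c5535 c271 c1229 (k8 c1639 c5663 c5447 c5397 c5398 c5564 c5381 c5643 (k8 c2042 c12628 c9758 c19417 c770 c369 c9730 c19706 (k8 c5517 c5329 c5333 c5518 c17728 c10929 c19707 c5414 (k8 c5532 c19691 c18526 c1091 c2909 c1094 c3620 c18213 k0)))))) (by decide +kernel)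
def c19709 : PP 9 3 T 0x2000200000000000000000100000000000000000000000000000000000000001000000000000000000000400008000100011000000080 := rS 0xdb1fc4e3f (k4 c407 c354 c677 c5651 (k1 c17744 k0)) (by decide +kernel)
def c19710 : PP 9 3 T 0x8000000000000000000000000000000000000000080000000000000000010014000000000000000000000000000000000000000004040000000000000000 := rS 0x45 (k2 c5582 c17894 k0) (by decide +kernel)
def c19711 : PP 9 3 T 0x4000400000000004000200000000000000000100000004000100000000000000000000000000000000014000000000000005400000000000000000000000 := rS 0x1fbc5b6 (k4 c5229 c5166 c19656 c5577 k0) (by decide +kernel)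
def c19712 : PP 9 3 T 0x2000200000000000000000100080000000000100000044010000000000040000010001080000004000000400000140100000020000080 := rS 0x4a5abf76b103c9b4d6471b82c92f70f9cf6663148940005ef80cd259 (k8 c18352 c18347 c263 c5452 c17794 c5642 c13678 c539 (k8 c1229 c5404 c5379 c5517 c5333 c5334 c5516 c5518 (k8 c5520 c1058 c665 c1454 c18019 c5411 c1238 c1340 (k2 c18824 c19709 k0)))) (by decide +kernel)
def c19713 : PP 9 3 T 0x2000200000000000000000100040004000000100000044014000000000000000150000000000000000000400008100100011000000082 := rS 0x3699d7ec076e6bf61b5681f7b82e2711 (k8 c9727 c5382 c2588 c564 c2591 c19709 c665 c5657 (k4 c1058 c5422 c5502 c5542 (k2 c18369 c5665 (k1 c18072 k0)))) (by decide +kernel)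
def c19714 : PP 9 3 T 0x2000200000000000000000100040000000000000000000000000000000040002000001080000004000000400004000000010000000082 := rS 0xf26b06920db1309984c69b4cc44d2c5 (k8 c18348 c18347 c9727 c5447 c5397 c1229 c1639 c5564 (k4 c5382 c2610 c9106 c293 (k2 c1059 c1455 (k1 c3598 k0)))) (by decide +kernel)
def c19715 : PP 9 3 T 0x8000000000000000000200000000000000000000040004000000000000000014000000000000000000000000000002000000000004040000000000004180 := rS 0x3da497b91c160cce84d1e59 (k8 c18352 c5568 c5564 c5524 c1455 c2308 c5779 c291 (k2 c293 c17892 (k1 c5657 k0))) (by decide +kernel)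
def c19716 : PP 9 3 T 0x2000200000000000000000100000000000100100100044014000000000040001000001000000005001004400004140000000000004006 := rS 0x200f72491c180bce878d41347a4d3259 (k8 c18352 c5447 c5444 c5568 c5564 c18019 c18099 c5523 (k4 c2306 c1059 c5779 c10368 (k2 c291 c3593 (k1 c6743 k0)))) (by decide +kernel)
def c19717 : PP 9 3 T 0x2000000000000000200000000000000000100000004000100000000000000000000000000000010000080000000000000400000000000000000000000 := rS 0x2029143bf76a6c3cad49711a58004a0f02819e6f555b34729d3db1d1b134782464312180c521c0d8d5e31d58c0c8aaf7ffb943b0c9a7cc661d9f7d128541b14d259 (k8 c18352 c18347 c18348 c18355 c18349 c18356 c5452 c5404 (k8 c1639 c1229 c1644 c19688 c5663 c5398 c19711 c5586 (k8 c5584 c5582 c5508 c5506 c5504 c19703 c19704 c1074 (k8 c5649 c539 c263 c10701 c19693 c5653 c271 c5568 (k8 c5382 c5381 c5535 c5457 c5458 c5534 c5537 c1284 (k8 c2045 c387 c19708 c17794 c870 c13678 c5642 c19712 (k8 c9727 c19713 c19714 c19715 c19716 c5529 c2552 c3811 (k2 c3812 c13274 (k1 c18000 k0))))))))) (by decide +kernel)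
def c19718 : PP 9 3 T 0x8001400000000000000200040000000000000000040004000100000000000000000000000000000000000000000000000000000000000000000000000000 := rS 0x2460287ce7b11b1347a250a83 (k8 c18355 c18349 c18356 c5568 c5382 c5381 c5165 c5215 (k4 c5499 c5502 c5374 c18000 k0)) (by decide +kernel)
def c19719 : PP 9 3 T 0x1400000000002000210040000000000000100000000000100000000000000000000100000000000004000004000000000400008010040010020000480 := rS 0x1ef8f6e3f3b9fdc67a3c8958e0540a34fadf62a2cea89 (k8 c18356 c18354 c18350 c18348 c2511 c5566 c5381 c5380 (k8 c17794 c674 c13678 c1454 c5669 c17695 c892 c889 (k4 c408 c17744 c17987 c12427 (k1 c5655 k0)))) (by decide +kernel)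
def c19720 : PP 9 3 T 0x8001400000000002000210040000000000000100000000000100000000000050000000000000000000004000004000000000400008040048010060004400 := rS 0x6edde6e35ab2ce0cf138fc481002004b65603b7d668d099bd429b4c8248ad520c750a59419751689 (k8 c18356 c18350 c17796 c18355 c18352 c18349 c5504 c544 (k8 c5585 c5582 c271 c5447 c5397 c5398 c5565 c5564 (k8 c5381 c2455 c2511 c19719 c5643 c2042 c9758 c19417 (k8 c12615 c18526 c2908 c2859 c17612 c719 c1091 c1094 (k4 c18213 c388 c5571 c12714 (k1 c3571 k0)))))) (by decide +kernel)
def c19721 : PP 9 3 T 0x8001000000000000000200040000000000000100080000000100000000010000000000000000000010000080004000000000400000040008000020000000 := rS 0xdb9e16bb571c5567116fb84f6c7100e1f8ce7912fe79d48236266f47f7d3fb03098c52af7f87c1ef7058ddea6962a151283 (k8 c18355 c18356 c18349 c18348 c18347 c5519 c5518 c5516 (k8 c5333 c5329 c5517 c5586 c5584 c539 c1229 c1639 (k8 c5663 c1644 c5452 c5568 c5565 c5382 c5381 c18000 (k8 c5374 c5589 c19720 c19710 c388 c334 c387 c333 (k8 c2560 c1648 c1653 c2564 c1238 c2557 c1241 c2617 (k4 c5528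 c2608 c5669 c18210 (k1 c5685 k0))))))) (by decide +kernel)
def c19722 : PP 9 3 T 0x8000000000000002000210000000000000000000080000000000000000010000000000000000000010000000000000000000000004040008000020000000 := rS 0x10b62500b296bb571c5567114eb7dc2201c3f19cf24684c06af7f9063af555bdcd259 (k8 c18352 c18347 c5333 c2121 c5519 c5504 c544 c5586 (k8 c5584 c263 c5564 c5381 c19710 c388 c334 c387 (k8 c333 c1653 c2564 c1651 c1238 c2557 c1241 c2617 (k8 c5528 c2608 c6118 c17712 c1091 c1995 c5642 c18526 k0)))) (by decide +kernel)
def c19723 : PP 9 3 T 0x210000000000000000000000000000000100000000008000000000000000000000000000000000000000000140008000020000000 := rS 0x100216c03b588881f8ce4684c068b2ca24ba69 (k8 c18347 c17796 c18356 c18352 c18350 c263 c5564 c5381 (k8 c388 c334 c333 c1238 c5528 c17712 c1995 c5642 (k2 c12615 c17612 k0))) (by decide +kernel)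
def c19724 : PP 9 3 T 0x200040000000000000100080000000100100000044000000000008000000010000080008000000000400000140008000020000000 := rS 0x40085b2b01c729d3da3427b03098c12f555b1da2f779e751659449758a69 (k8 c18347 c18348 c17796 c18356 c18352 c18350 c5373 c19723 (k8 c5333 c2129 c799 c2121 c5519 c271 c1229 c1639 (k8 c5663 c5564 c5381 c1648 c1651 c2558 c19712 c5643 (k4 c2042 c19417 c12615 c17612 k0)))) (by decide +kernel)
def c19725 : PP 9 3 T 0x8001000000000000000200040000000000000100080000000100000000010000000000000000000010000080000000000000400000040008000020000000 := rS 0x168a8da898cdb72d0940a7f0315cf4767eb319ef36f928dbedcea1937b03098c52b1819155eff20c743e0f55bdcd2c5 (k8 c18348 c18347 c5333 c2121 c5329 c5517 c5504 c544 (k8 c5586 c5584 c5582 c5508 c5506 c539 c1229 c1639 (k8 c5663 c5397 c19721 c5373 c5499 c745 c19722 c2511 (k8 c19723 c19724 c12046 c2504 c2073 c2074 c886 c17741 (k8 c892 c10195 c13678 c672 c17744 c1994 c5651 c18072 (k2 c5830 c16402 (k1 c2614 k0))))))) (by decide +kernel)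
def c19726 : PP 9 3 T 0x100080000000100000000020000000000002000000000000000000000000000000000040000000000000000 := rS 0x1ef8da4e0 (k4 c2078 c2077 c5579 c2768 (k1 c16773 k0)) (by decide +kernel)
def c19727 : PP 9 3 T 0x200000000000000000000000000000000100000000000000000000000000000000000000000000000000000148008000000000040 := rS 0x896d1a1345965125d (k8 c17796 c18356 c18352 c18350 c5564 c5381 c2042 c2908 (k1 c12615 k0)) (by decide +kernel)
def c19728 : PP 9 3 T 0x1000000000000000000040000000000000000000000000100000000000000000000000040000000001080000004000000400000000040000060000480 := rS 0x881b738003c817be934cec0c26301964d2c5 (k8 c18348 c18347 c18352 c263 c1229 c1639 c5663 c5447 (k8 c5444 c5452 c17794 c1454 c5642 c5669 c665 c18099 (k1 c5371 k0))) (by decide +kernel)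
def c19729 : PP 9 3 T 0x200000000000000000100000004000100000000000000000000000000000010000080000000000000400000000000000000000000 := rS 0x8010b65603a758ece3db37db0068aac6e0b7b87e95e122c77dc1c2182436321abc51a13efecd3e3150ec3266131a2cb2892ea158a69 (k8 c18347 c18348 c18349 c17796 c18356 c18352 c18350 c1229 (k8 c1639 c19688 c5663 c5398 c19693 c1644 c5404 c5452 (k8 c5564 c5381 c19703 c19704 c5653 c1074 c271 c10701 (k8 c5649 c19711 c5504 c5582 c19717 c19718 c5517 c5333 (k8 c5516 c5518 c2121 c2129 c19725 c5502 c19726 c11210 (k8 c5688 c2560 c1651 c19728 c5643 c2042 c19417 c12615 (k1 c17612 k0))))))) (by decide +kernel)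
def c19730 : PP 9 3 T 0x14000210000000000000000000000000000000100000000000000000008000000004000100000000000000000000140000000020000000 := rS 0x20042d80622fc4684c068b2ca24ba69 (k8 c18347 c17796 c18356 c18352 c18350 c263 c5564 c5381 (k4 c13265 c1238 c17712 c1995 (k2 c5642 c12615 (k1 c17612 k0)))) (by decide +kernel)
def c19731 : PP 9 3 T 0x6000200000000000000000100080004000000100000000000000140000040000000005000000004000000404000140140000024404060 := rS 0x36c501ae3db9c166b51384196242da34266f50a6d323b0f82c8fee45965125d (k8 c17796 c18356 c18352 c18350 c5658 c5520 c5516 c5517 (k8 c5332 c5447 c5397 c5398 c5565 c5564 c5381 c716 (k8 c18526 c19474 c12615 c60 c1094 c2760 c719 c5571 (k4 c5731 c12714 c6118 c5710 (k1 c3049 k0))))) (by decide +kernel)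
def c19732 : PP 9 3 T 0x16000210040000000000000100080004000000100000000000000000010040000000005000000004000000404000140145000024404040 := rS 0x3cf8598f37ec4000056fb84fa8f018d5263b7ab3d56f74ca0cd259 (k8 c18352 c18347 c18355 c5447 c5333 c2121 c19730 c5519 (k8 c5332 c5444 c331 c263 c5568 c5566 c10249 c14796 (k8 c19731 c5642 c17712 c1238 c334 c3587 c5537 c2385 (k1 c5669 k0)))) (by decide +kernel)
def c19733 : PP 9 3 T 0x10000010000000000000000000000000000000000000000050000000000080000000000400000000000004000000000100000020004400 := rS 0x5b36004d60d88aaf305d (k8 c17796 c18346 c2121 c796 c2480 c2482 c17712 c5665 (k2 c1995 c10929 k0)) (by decide +kernel)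
def c19734 : PP 9 3 T 0x16000210040000000000000100080004000000100000000000000000010040000000004000000004000000404000140145000024404040 := rS 0x1e7c29c (k4 c19732 c5458 c1537 c5669 k0) (by decide +kernel)
def c19735 : PP 9 3 T 0x16000210040000000000000100080004000000100000000000000000000040000000004000000004000000404000140145000024404040 := rS 0x1a275 (k2 c18354 c8113 (k1 c19734 k0)) (by decide +kernel)
def c19736 : PP 9 3 T 0x200000000000000000100080004000000100200000000000000000000000010000080000000000000400000140000000020000000 := rS 0xcb3f9c44edf599296afd39a04de7d508a493037f91cf4c77a82dee9bda86c1f9d1b85c0e391995e51b03098f26314feccd2c5 (k8 c18348 c18347 c5404 c1644 c19693 c19688 c1229 c1639 (k8 c5663 c19729 c5313 c5316 c5317 c5432 c5433 c5435 (k8 c19356 c19585 c1073 c9578 c5397 c5333 c5516 c5519 (k8 c19733 c19735 c5520 c11059 c16948 c5334 c539 c5398 (k8 c5566 c5565 c5380 c5379 c1238 c1340 c18824 c2455 (k4 c2510 c354 c885 c892 (k2 c9148 c3599 k0))))))) (by decide +kernel)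
def c19737 : PP 9 3 T 0x200000000000000000100080004000000100000000000000000000000000010000080000000000000400000140000000020000000 := rS 0x13a213b2a4b66a00c44126d3c9eb669f1895c66071b86c2e35498ec3eab63ed5ea0b7b83f3a399426f61933098ceac52c9750669 (k8 c18347 c18355 c17796 c18352 c18348 c18354 c1229 c1639 (k8 c19688 c5663 c5397 c19729 c5317 c19356 c19585 c5333 (k8 c5516 c5519 c9578 c19733 c2121 c5517 c5332 c5444 (k8 c331 c5433 c1073 c5435 c5432 c5316 c5313 c19693 (k8 c1644 c5404 c19735 c161 c742 c1684 c19736 c17712 (k4 c5665 c1995 c2375 c3567 (k2 c17805 c1135 (k1 c19661 k0)))))))) (by decide +kernel)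
def c19738 : PP 9 3 T 0x200000000000000000100000004000000200000000000000000000000000000014080000000000000400000000004000000000000 := rS 0xfccbdb34fdfb33098cd2c5 (k8 c18348 c18347 c1229 c1639 c5404 c5504 c2081 c5229 (k2 c5420 c19656 (k1 c19608 k0))) (by decide +kernel)
def c19739 : PP 9 3 T 0x6000000000000000000000100000004000200000000000000000000000000000000000000000000000000000000200000000024000000 := rS 0x1b612907de3d (k4 c5436 c5582 c3684 c2969 (k2 c5229 c17815 k0)) (by decide +kernel)
def c19740 : PP 9 3 T 0x8000000000000000000210000000000000000100040004000000000000000014000000010040000000014000000000000005400000440155010000404402 := rS 0xed9ae1f19f9967113b7c95f3f63dc184939a04266f3ec0c43b445a0d0a59 (k8 c18352 c18349 c18355 c18350 c5211 c5528 c5508 c5566 (k8 c5565 c5564 c5380 c5379 c10368 c5645 c291 c5657 (k8 c17809 c17892 c2510 c353 c668 c9148 c3599 c5577 (k4 c3059 c8709 c563 c18037 k0)))) (by decide +kernel)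
def c19741 : PP 9 3 T 0x8000000000000000000210000000000000000100040004000000000000000014000000010040000000014500000000000005400000440155010000404042 := rS 0x7905274dbb4 (k4 c5211 c5529 c5412 c19740 (k2 c2307 c10374 k0)) (by decide +kernel)
def c19742 : PP 9 3 T 0xa000000000000000000200000000000000000000000000000200000000000014000000000080000000000000004000000000000004440010000000000000 := rS 0xd270105204880a351ee389a250a83 (k8 c18355 c18349 c18356 c5382 c2619 c5568 c5381 c5502 (k4 c17892 c18000 c512 c801 (k2 c14662 c3062 k0))) (by decide +kernel)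
def c19743 : PP 9 3 T 0x200000000000000000100000004000000000000000000000000000000000010000080000000000000400000040000000020000000 := rS 0x663dbda4b0521c1acff0b188ef57980166a9368862ad102ed223eea59146a2901c4fbfb318a4d36991c81c6f9d0786c2f1d19ca143b0c9984c69f42964d2c5 (k8 c18348 c18347 c18352 c18349 c1644 c1229 c1639 c19688 (k8 c5663 c5398 c19729 c5316 c19738 c5433 c1073 c19585 (k8 c19356 c5435 c5432 c5317 c5447 c5397 c5444 c19693 (k8 c5404 c5452 c5382 c263 c539 c331 c19739 c19737 (k8 c5658 c9727 c5211 c6008 c9368 c5414 c5528 c5529 (k8 c5531 c5532 c5642 c333 c1998 c15906 c19741 c5535 (k8 c2560 c2480 c799 c5645 c2588 c19742 c5657 c5688 (k1 c17683 k0)))))))) (by decide +kernel)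
def c19744 : PP 9 3 T 0xa000000000000000000200000000000000000100040000000200000000000000000000000000000100000000004000000000000000000000004000001000 := rS 0x9290dbc051b134783c470357c5553b4cea250a83 (k8 c18355 c18349 c18356 c19356 c5211 c5531 c5414 c5584 (k8 c5508 c9733 c19585 c5568 c5382 c5381 c5502 c17841 (k2 c18000 c10038 (k1 c13505 k0)))) (by decide +kernel)
def c19745 : PP 9 3 T 0x8000000000000000000200000000000000000100040004000200000000000040000000010080000100000000000000000000000000040000004000000000 := rS 0x10148bd3daf30521c1a8d89a3c739d07a250a83 (k8 c18355 c18349 c18356 c19585 c19356 c5317 c5568 c5382 (k8 c5381 c2480 c799 c5645 c2530 c19744 c5657 c10333 (k2 c1927 c18000 k0))) (by decide +kernel)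
def c19746 : PP 9 3 T 0x8000000000000000000200000000000000000000000000000000000000000020000000000000000000000000000000000000000000040000000000004000 := rS 0x10143a451b1347a250a83 (k8 c18355 c18349 c18356 c5568 c5382 c5381 c10333 c1922 (k2 c1927 c18000 k0)) (by decide +kernel)
def c19747 : PP 9 3 T 0x8000000000000002000200040000000000000100040004000200000000000040000000110000000114000000000000000000000000040000004040000000 := rS 0x699fdc0dff1929687723925fb014382dc7ec3d3ccf3e11d31d66a910c553bb440a34267d47a6d32390388f3b0357bfdea0f44b14ea8b (k8 c18350 c18354 c18348 c18356 c19585 c19746 c5586 c5584 (k8 c5508 c19356 c9733 c5432 c5317 c5447 c5397 c5568 (k8 c5566 c5564 c5381 c5380 c5211 c5412 c5414 c5528 (k8 c5531 c5532 c19745 c18438 c5456 c1536 c449 c5669 (k8 c5657 c17695 c690 c5499 c5502 c5542 c10368 c5779 (k8 c889 c3623 c17892 c17987 c2514 c15375 c892 c3062 (k1 c17990 k0))))))) (by decide +kernel)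
def c19748 : PP 9 3 T 0x200000000000000000100000004000000000000000000000000000000000010000080000000000000400000040000000000000000 := rS 0x484550f01141b0426bda8ee941f7afb9aab16891622257baac2027010040af00ea36268fd9864723d0786c2e23cec74672850ec3266131a7d128541a2cd2c5 (k8 c18348 c18347 c18350 c18355 c18349 c18356 c1644 c1229 (k8 c1639 c19688 c5663 c5398 c19729 c5316 c19738 c19356 (k8 c9733 c5433 c1073 c19585 c5436 c5317 c6205 c5404 (k8 c5568 c5382 c5381 c19743 c5649 c5811 c9696 c19427 (k8 c434 c19633 c1281 c499 c1218 c9730 c2966 c9368 (k8 c1331 c18677 c5658 c19746 c1216 c19747 c5332 c9578 (k8 c17917 c19626 c5665 c19632 c19700 c745 c1289 c18000 (k1 c747 k0)))))))) (by decide +kernel)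
def c19749 : PP 9 3 T 0x8000000000000002000200000000000000000100080000000200000000000002000000000000000000000002000000000000400000000000004040000000 := rS 0x450506c109af6a3b11e740b1100894046f (k8 c5565 c19427 c1113 c9696 c9730 c5811 c19356 c9733 (k8 c5332 c9578 c17917 c19626 c5665 c19632 c747 c1289 k0)) (by decide +kernel)
def c19750 : PP 9 3 T 0x8000000000000002000200000000000000000100000000000200000000010002000000000000000000000000004000000000400001000000004041000000 := rS 0x699fceee06f9e8744a066d2960b23fcd208146c4cfa8f49a6c7237ce83c0489629d50a83 (k8 c18355 c18349 c18354 c18348 c18356 c19427 c19585 c19356 (k8 c5435 c5317 c5397 c5444 c5568 c5566 c5382 c5381 (k8 c5380 c18000 c5589 c2785 c695 c19749 c5211 c13505 (k8 c5660 c18018 c290 c2510 c563 c889 c892 c3062 (k1 c17990 k0))))) (by decide +kernel)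
def c19751 : PP 9 3 T 0x6000000000000000000000000000004000000000000020012000000010000000010000000000000000000400000000140000401400000 := rS 0x769d7952c42a9f6a4d3699012adee1f (k8 c1216 c499 c1281 c19427 c5447 c5397 c5444 c5502 (k4 c2026 c432 c19700 c5657 (k2 c5855 c449 (k1 c3578 k0)))) (by decide +kernel)
def c19752 : PP 9 3 T 0x1000000000000000000010000000000000000000040004000000000000000050000000010000000000000404000000000000400000000140000001000408 := rS 0xe9e5b4 (k4 c5211 c5657 c18018 c449 k0) (by decide +kernel)
def c19753 : PP 9 3 T 0x8000000000000006000200000000000000000100000004000200000000000012000000010000000010000000000000000000400000080000004001000000 := rS 0x35ed4774a059b7da86809243e934d8e42e370280956f711e762201 (k8 c9696 c9730 c19356 c9733 c499 c1281 c19427 c5811 (k8 c5435 c5433 c5317 c5397 c5444 c1216 c3033 c19751 (k8 c19750 c5499 c745 c693 c19752 c5332 c9578 c17917 (k1 c5665 k0)))) (by decide +kernel)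
def c19754 : PP 9 3 T 0x8000000000000006000200000000000000000100000004000200000000000002000000010000000010000000000000000000400000080000004001000000 := rS 0x10024a1d22f446c4d1e0f082250a83 (k8 c18355 c18349 c18356 c19633 c19585 c5568 c5382 c5381 (k4 c19753 c10333 c1922 c3026 (k2 c18000 c1928 k0))) (by decide +kernel)
def c19755 : PP 9 3 T 0x4000000000000000000210000000000000000100000000000000100000000020000000080000001400000400000080010000000000100040000000004000 := rS 0x811e58f01051ab68497fa1c1a91a5a36268f44a15068b (k8 c18350 c18355 c18349 c18356 c5568 c5382 c5381 c5519 (k8 c10333 c2365 c1922 c2342 c17784 c5211 c17856 c5645 (k4 c1928 c2482 c2307 c3613 (k1 c17799 k0)))) (by decide +kernel)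
def c19756 : PP 9 3 T 0x10000000000000000100000004000000100000008000000000000000000000000000400000000000000000080000000000004000 := rS 0xb233c88a85 (k4 c18349 c123 c2781 c11059 (k2 c2530 c5779 k0)) (by decide +kernel)
def c19757 : PP 9 3 T 0x4000000000000002000200000000000000000100000000000200000000054002000100000000000000000000004000000000400001080000014041000000 := rS 0xe895b4a58841647f9bcd21ec46c4d1e934d8e46f9d07894046f45a0d0a89 (k8 c18356 c18349 c18355 c18350 c5565 c19427 c1113 c19585 (k8 c19356 c5435 c5317 c5397 c5444 c5568 c5382 c5381 (k8 c19658 c3613 c5540 c17809 c2785 c695 c431 c19632 (k4 c5211 c10155 c18018 c563 k0)))) (by decide +kernel)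
def c19758 : PP 9 3 T 0x200000000000000000100000004000000000000000000000000000000000010000080000000000000400000000000000000000000 := rS 0x4710fc8166df6a19fee180926061f7ab48fcb514b2d6671db7bda22588bdd560200bc04e4521474461b07e746e171c8ce509b50ec0339337a3f666131a7cd2c5 (k8 c18348 c18347 c1644 c1229 c1639 c5404 c5568 c5565 (k8 c19688 c6205 c5663 c5398 c5397 c19729 c5316 c5317 (k8 c5433 c5435 c19356 c19585 c1073 c9733 c19738 c19748 (k8 c123 c2863 c10701 c9696 c19427 c1281 c499 c9730 (k8 c1113 c9368 c19754 c5229 c5571 c5574 c5420 c5417 (k8 c5422 c19656 c19608 c19755 c1216 c16948 c3033 c19751 (k8 c3062 c19756 c19757 c5499 c745 c693 c5694 c266 (k2 c5779 c17998 k0)))))))) (by decide +kernel)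
def c19759 : PP 9 3 T 0x1000000000000000000010040000000000000000000000000000000000000004000000019000000000000084000000000000400000000540000001400408 := rS 0x13aaa7ec476a1f00f7f66234daa533b03098cd2c5 (k8 c18348 c18347 c1229 c1639 c5663 c5447 c2450 c5397 (k8 c9733 c5404 c5452 c28 c1112 c18018 c9730 c18107 (k2 c5682 c17717 (k1 c1284 k0)))) (by decide +kernel)
def c19760 : PP 9 3 T 0x8000000000000000000200000000000000000000000000000000000000000000000000000000000010000000000000000000040000000000004000000002 := rS 0xce71 (k2 c668 c663 (k1 c19392 k0)) (by decide +kernel)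
def c19761 : PP 9 3 T 0x41000000000000002000000000000000000000000000000000200000000010000000000000000000001000080000000000000000000000000000000020020 := rS 0x4536eabda9c048cfa56cf3a0f (k8 c19585 c19356 c5404 c6008 c17612 c720 c719 c9578 (k4 c1285 c5571 c17769 c9222 k0)) (by decide +kernel)
def c19762 : PP 9 3 T 0x400000000002000000000000000000000000000008000200000000000000000000010000000005000000008000000000000000000000000000000008 := rS 0x4ed29f9b5109b5e2357986dea390b88f3a99f6bdc1e1d0f82cb659 (k8 c18352 c5474 c692 c1112 c263 c19585 c9904 c5499 (k8 c5447 c19356 c9733 c5433 c5317 c5477 c5475 c5325 (k8 c5324 c5323 c745 c266 c18446 c3581 c5211 c1240 (k1 c17923 k0)))) (by decide +kernel)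
def c19763 : PP 9 3 T 0x40000000000000000000000000000000000000000000008000200000000010000000000010000000000000080008000000000400000000000000000020001 := rS 0x3b66b39540202aa623df64bcc32f1498e42e37ceec32657198d40e313098fdaf70782cb65934b14ba75 (k8 c18354 c17796 c18348 c18347 c18352 c5474 c692 c19585 (k8 c9904 c5499 c1229 c1639 c19693 c5432 c5324 c5316 (k8 c5313 c10897 c5663 c19356 c5435 c5433 c5317 c1637 (k8 c5323 c1227 c5325 c134 c5452 c9730 c2023 c19761 (k4 c5642 c19762 c1285 c2075 (k2 c1647 c19759 k0)))))) (by decide +kernel)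
def c19764 : PP 9 3 T 0x8000000000000000000210000000000000000000000000000000000000000000000000000000000010000000000000000000040008000000000000000002 := rS 0x35ed622b35a080e0291319c0605 (k8 c53 c28 c663 c19760 c9694 c19392 c353 c354 (k4 c2455 c885 c5528 c2372 (k1 c17733 k0))) (by decide +kernel)
def c19765 : PP 9 3 T 0x200000000000000000000000008000200100000014000000000000000000010000080008000000000400000000000000000000000 := rS 0xd088807dc4af990c8af37afb5ee498191c165b07e751e102e9651683 (k8 c18355 c18350 c18352 c17796 c12681 c5568 c19356 c19585 (k8 c5474 c692 c5779 c10690 c12930 c9904 c5499 c5477 (k8 c5325 c5326 c5478 c17808 c3593 c5694 c19764 c9730 (k2 c19763 c9368 k0)))) (by decide +kernel)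
def c19766 : PP 9 3 T 0x1000000000000002000000000000000000000000000000000200000000000054000000010000000001000080000000000000000000000011000000020020 := rS 0x1f8cc55ed476cfa56cc66391be741e9b (k8 c5397 c19585 c19356 c5435 c5317 c5316 c5404 c6008 (k4 c17612 c5332 c9578 c1285 (k2 c3587 c5682 (k1 c2504 k0)))) (by decide +kernel)
def c19767 : PP 9 3 T 0x8000200000000000000000000000000000000000080008000000000400000000000000000020001 := rS 0xed9ace550080aa968c47bec979bd432f1498e42e37ceec32657198d40e313098fdaf70782cb65934b14ba75 (k8 c18354 c17796 c18348 c18347 c18352 c5474 c692 c19585 (k8 c9904 c5499 c1229 c1639 c19693 c5432 c5324 c5316 (k8 c5313 c10897 c5663 c19356 c5435 c5433 c5317 c1637 (k8 c5323 c1227 c5477 c5325 c134 c5452 c9730 c9368 (k8 c2023 c19766 c5642 c19762 c1285 c2075 c1647 c19759 k0))))) (by decide +kernel)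
def c19768 : PP 9 3 T 0x80000000000000022000000040000000000000100000000000200000000000040000000008040000000000004400000000000000000000000010000000000 := rS 0x9d94df1d9ec2f9d50acdc6c5 (k8 c18348 c5549 c5532 c5398 c19356 c5433 c1648 c1647 (k4 c14796 c17766 c19521 c9148 k0)) (by decide +kernel)
def c19769 : PP 9 3 T 0x200000000000000000100000000000000000000000000000000000000000000014000000040000005400000000000004000400002 := rS 0x659c4e681379f45203 (k8 c28 c9694 c5566 c5565 c5380 c5379 c668 c9148 (k1 c3599 k0)) (by decide +kernel)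
def c19770 : PP 9 3 T 0x15015400000000020000200000000000000000000000000000000014000000000000000000000401000000001000000000800000405400000000000004000 := rS 0x59c984f8de17e9f6 (k8 c5206 c5205 c5638 c5599 c5630 c17833 c7440 c12783 k0) (by decide +kernel)
def c19771 : PP 9 3 T 0x20000000000040100200000000000000400100040000000000000000000000000000000001014000141504000040000000000000000000400081400000 := rS 0x9e4dfa8a9cc5116aef70c3d4a9ef2eb (k8 c5623 c5619 c5470 c5469 c5468 c15012 c5430 c5612 (k4 c2649 c17955 c3580 c5633 (k2 c3217 c3407 (k1 c5661 k0)))) (by decide +kernel)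
def c19772 : PP 9 3 T 0x14005000000000060000200000000000000000100040008000200000000000000000000000000401000140581008040000000000404010000400080000000 := rS 0xfbee6476675b0fc9dfd9865e2931a8fd8217d6fb53ab95bc662ff224c0c8e8f35030165b07e75068b (k8 c18350 c18355 c19356 c19585 c5474 c692 c5645 c2361 (k8 c5568 c5779 c10690 c12930 c5660 c5593 c5551 c5533 (k8 c5415 c5412 c5499 c5437 c5433 c5319 c5318 c5324 (k8 c1637 c5323 c1227 c5404 c5452 c19770 c5468 c5623 (k4 c19771 c5351 c17864 c17933 (k1 c5202 k0)))))) (by decide +kernel)
def c19773 : PP 9 3 T 0x20000000000000400000000000000040000000004000000200000000000000000014000000000000000000000000000000000000000011000000000000 := rS 0xd9618cd83ad (k4 c5437 c5319 c5316 c5468 (k2 c5621 c3589 k0)) (by decide +kernel)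
def c19774 : PP 9 3 T 0x4001000000000060000200000000000040000100040008000200100000000000000090210000401000140581008000000000000404000401400000000000 := rS 0x16726fd60e5127c69c8eef2bb7eeeb82b6e130bf83ce8ef5d7bdc8e0b2d83d1e1e1c8dc2e23ce865e221498d53a7f20f8d1659 (k8 c18352 c18350 c5580 c1657 c2998 c5412 c5324 c1637 (k8 c5528 c5323 c1227 c19356 c9733 c5433 c5435 c5317 (k8 c3578 c5568 c19585 c5474 c692 c5779 c9904 c5479 (k8 c5477 c5327 c5325 c19772 c5629 c5514 c5627 c5628 (k8 c3004 c17780 c1664 c19773 c5693 c3116 c3115 c3345 (k4 c2520 c3351 c5557 c2359 (k2 c18009 c5661 k0))))))) (by decide +kernel)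
def c19775 : PP 9 3 T 0x20000000001000000000000000000000000000014000000000000000000000001200000000000000000040000800400000008014000002 := rS 0x5fb4991c3ddf03b9c1df4542d5e46f0b67178a406257cbecd265 (k8 c18353 c18347 c18357 c18351 c60 c28 c9694 c9707 (k8 c5605 c3222 c2802 c2866 c3274 c2867 c19423 c1337 (k8 c17867 c3240 c670 c6295 c3196 c5213 c3603 c5389 k0))) (by decide +kernel)
def c19776 : PP 9 3 T 0x200000000000000000100000000000200100100008000000000000000000010000080008000000000400000000400000000000000 := rS 0x5bbe0530eac17eaf136dfc6413fb79bad4f0b303d8dd9a7c8af30dbd432f11c85c6e2351a95429b4cfbd222f33a7442b58cc5d9ff2a5926064b2382d8ed1da674520300041ee0fd8184c7932b8cc0e5b18a4c6b3a47a2cba752cb14d283 (k8 c18355 c18347 c18348 c18352 c18354 c17796 c18350 c5568 (k8 c19758 c5324 c1637 c19693 c5474 c5432 c5316 c5313 (k8 c10897 c1229 c1639 c5663 c19585 c9904 c12681 c19767 (k8 c28 c9694 c19356 c17712 c9368 c799 c692 c5779 (k8 c2569 c10690 c12930 c9578 c5660 c19768 c5593 c5551 (k8 c9106 c5528 c5412 c663 c9707 c3008 c5586 c5447 (k8 c5397 c5398 c5399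 c5449 c9733 c5435 c5433 c5317 (k8 c5323 c1227 c5477 c5475 c5325 c5326 c1644 c5404 (k8 c5569 c3578 c3587 c5537 c2507 c4572 c2506 c2998 (k8 c1657 c5580 c17744 c19769 c2986 c5014 c5683 c2177 (k4 c19775 c19772 c19774 c5510 k0))))))))))) (by decide +kernel)
def c19777 : PP 9 3 T 0x200000000000000000100000000000200100100008000000000000000000010000080008000000000400000000000000000000000 := rS 0x19183aef08e477795dbf775c15b78384e1edf0bf814c3cca0eac17eaf136dfc6413fb79bad47e9e999e11d45e32b5067ca96b75caada3b4c6f7f669f22bc5e7470dbd75e1751a95429b4cec32657198d40e313098fdaf724c0c8e0fcea3fde91258bcda0b1480d526700040b73a32974b28b419a58a75 (k8 c18354 c18348 c18347 c18355 c18350 c18352 c17796 c18353 (k8 c19758 c5474 c12681 c19767 c663 c2022 c28 c9694 (k8 c692 c665 c9707 c2569 c3008 c5586 c5568 c19356 (k8 c19585 c5779 c10690 c12930 c9904 c5499 c1229 c1639 (k8 c19693 c5432 c5324 c5316 c5313 c10897 c5663 c5447 (k8 c5397 c5398 c5399 c5449 c5433 c5479 c5477 c5475 (k8 c5327 c5325 c5323 c5326 c1644 c5404 c5452 c5569 (k8 c17712 c9368 c9859 c5415 c5533 c9578 c5660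 c5645 (k8 c9106 c5551 c5593 c19776 c5456 c6899 c290 c2504 (k8 c2507 c4572 c2506 c891 c1657 c5580 c17744 c19769 (k8 c2986 c5014 c5683 c2177 c1333 c17991 c19775 c19772 (k8 c5629 c5510 c5512 c5514 c5626 c5627 c5628 c3004 (k8 c17780 c1664 c19773 c5693 c3116 c1837 c2524 c3351 (k2 c3477 c3624 k0)))))))))))))) (by decide +kernel)
def c19778 : PP 9 3 T 0x200000000000000000100000000000200100000010000000000000000000010000080008000000000400000000000000000000000 := rS 0x79f09ed38ce5531dfbb5882a4ce007f0436663cee4cae331a81cb73a18fb58a6945964ba75 (k8 c18354 c17796 c18352 c18350 c18347 c18348 c5499 c19693 (k8 c19758 c5474 c5432 c5324 c5316 c5313 c10897 c19356 (k8 c1229 c5404 c12681 c19765 c19767 c663 c2022 c19777 (k8 c5411 c1238 c796 c5682 c1285 c1284 c1648 c5458 (k2 c1537 c5669 k0))))) (by decide +kernel)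
def c19779 : PP 9 3 T 0x1000000000000010000010040000000000000000000000000000000000000000000000000000000001000080000000000000400000000000000000000002 := rS 0x79f09ed38ce5531dfb10d998d8a69 (k8 c18347 c18348 c1229 c5404 c17712 c1238 c796 c5682 (k4 c1285 c1284 c1648 c5458 (k2 c1537 c5669 k0))) (by decide +kernel)
def c19780 : PP 9 3 T 0x14000000000000000000000064000000000000000000000000000001101000140100002000015015000000000000000000000000000000000000000000 := rS 0x1cf067764577f7 (k4 c5638 c1353 c3477 c5693 (k2 c3624 c1732 (k1 c2080 k0))) (by decide +kernel)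
def c19781 : PP 9 3 T 0x20000000000000000400200000040000040000000004000000200000040001000000110202800015015000000000000000000000000000011000000000000 := rS 0x21b25fb3bf0be576bae0adbc1c26ff0b46c9f1be37dbe5128b (k8 c18350 c18356 c18351 c18357 c5464 c5569 c5383 c5381 (k8 c5629 c5511 c5514 c5626 c5627 c5628 c3004 c1664 (k4 c19773 c19780 c1837 c5693 (k2 c5595 c5640 (k1 c3615 k0))))) (by decide +kernel)
def c19782 : PP 9 3 T 0x15015400000000020000200000010000000000000000000000000014000000000000000000000001000000001000000000000000001400000000000000000 := rS 0x696cfb9c413e37f4fb44d1f8d (k8 c5569 c5568 c5382 c5206 c5205 c5599 c5630 c17900 (k4 c17867 c7440 c5610 c5213 k0)) (by decide +kernel)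
def c19783 : PP 9 3 T 0x14005000000000060000200000010000000000100000008000204014000000000000000000000001000100081008000000000000400000000408000000000 := rS 0x59b71f775b0fc855efecc32f11feb7da498191c165b07e751e41498d5068b (k8 c18350 c18355 c5324 c1637 c349 c5568 c19356 c19585 (k8 c5474 c692 c5779 c10690 c12930 c5499 c5437 c5318 (k8 c5323 c1227 c5404 c5452 c356 c19782 c5468 c5623 (k4 c17933 c5202 c5662 c17864 k0)))) (by decide +kernel)
def c19784 : PP 9 3 T 0x14005000000000060000200000000000000000100000008000204014000000000000000000000001000100081008000000000000400000000408000000000 := rS 0x156ce2ddc7df09b30cbc52635 (k8 c5324 c1637 c5323 c1227 c5404 c19783 c5638 c5202 (k4 c5612 c17864 c355 c5662 k0)) (by decide +kernel)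
def c19785 : PP 9 3 T 0x1000000000020000200000000000040000100000000000200214000000000000100002000001011000081008000000000400000000000418000000000 := rS 0x1d779d4ee7c91bc2d9ca5f1c3c8fbf47d7a97da498191c160fcea3fdeab5caddfa9b6eedcfe7ad864cae331a81cb73a18984c6d487873c6ca581a58a5d3a965068b (k8 c18350 c18355 c18352 c18354 c17796 c18348 c18347 c352 (k8 c1333 c5464 c351 c4588 c1334 c1229 c1639 c19693 (k8 c19758 c5474 c5432 c5324 c5316 c5313 c10897 c5663 (k8 c2074 c891 c17744 c4572 c5397 c2504 c5533 c5415 (k8 c5413 c5504 c5568 c19356 c19585 c692 c5779 c10690 (k8 c12930 c5499 c5399 c5479 c5327 c5452 c617 c2222 (k8 c19781 c19784 c5605 c3222 c2802 c19782 c17867 c5469 (k2 c5619 c5623 (k1 c15012 k0))))))))) (by decide +kernel)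
def c19786 : PP 9 3 T 0x100000000000000000000010000000000080000000040000000000000000500000000000000000000000000000008000000000000000000000000000000000 := rS 0x2ff08d27b6cff1 (k4 c5510 c5349 c5499 c5222 (k2 c5695 c5389 (k1 c2239 k0))) (by decide +kernel)
def c19787 : PP 9 3 T 0x5000000000020000210000010000080000000040000000000000400400000000000214000001000000000008000000000000001400000000000000000 := rS 0x18992e93731bfa415cbe4b3fc632918bfcbbfeff6c9d1f8d (k8 c5569 c5568 c5383 c5499 c5585 c5454 c5204 c5593 (k8 c5589 c5551 c5510 c5349 c19782 c5622 c7552 c19786 (k4 c5557 c17867 c5213 c5391 (k2 c5610 c17982 k0)))) (by decide +kernel)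
def c19788 : PP 9 3 T 0x5000000000020000000040000000080000100040000000200000400401000000000214000001010000000008010000000000001000000000000000400 := rS 0x1b1d9a6b04e784fd20b8751b9771e4c8aefefb7c211d1fa0ce83d3aab5ca6552b7b3fc7dfdf3fa058a8b (k8 c18350 c18348 c1658 c2998 c5454 c5585 c5510 c5349 (k8 c5533 c5531 c5530 c5415 c5413 c5412 c19585 c19356 (k8 c5670 c5568 c5779 c19787 c5423 c5638 c1353 c3477 (k8 c5206 c5233 c5622 c5614 c5429 c7552 c19786 c5556 (k4 c5633 c3624 c17955 c5407 (k2 c5397 c5196 k0)))))) (by decide +kernel)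
def c19789 : PP 9 3 T 0x1000000000020000000000000000080000100040000000200000000001000000000202000001010000000008000000000000004000010000000000000 := rS 0xe80591b16fb2fc47d70925e245c9c4e740b2f98d8f073b405e67a7b9e59ed1198f73bed81bd41f114eaae2a2154acfded340b8d06c5 (k8 c18348 c18355 c17679 c1658 c141 c5585 c5532 c5531 (k8 c5528 c5414 c5413 c5412 c5411 c19585 c1922 c10690 (k8 c5499 c19356 c5436 c5316 c173 c139 c2385 c2071 (k8 c2074 c2501 c2077 c2073 c4460 c799 c10247 c10245 (k8 c693 c5657 c956 c5356 c5326 c5323 c13257 c6188 (k8 c1690 c19788 c5464 c5580 c6118 c9903 c16365 c2061 (k1 c9945 k0))))))) (by decide +kernel)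
def c19790 : PP 9 3 T 0x1000010000000000000000000040000000000000000000014000000002000000000000000008000000004400000000004000000004000 := rS 0x3afd00b20c1115588553b4c982cec7a78ce9efed (k8 c5499 c2071 c5657 c5323 c2074 c2073 c3821 c5356 (k8 c5211 c5531 c5528 c5413 c9727 c5663 c9903 c16365 (k2 c17746 c2061 (k1 c9945 k0)))) (by decide +kernel)
def c19791 : PP 9 3 T 0x1000000000000000010000000000080000000040000000000000000000000000000214000001000000000008000000000000000000000000000000000 := rS 0xdbe86b0297eab4069b4fec06a4b9d015e6f70785c7e3919ca033932f98cec7966407bfef88a7556a9da7b606f563a2cb283 (k8 c18355 c18352 c18350 c799 c4561 c10690 c5499 c5211 (k8 c5531 c5413 c5412 c9727 c5585 c5454 c3073 c5688 (k8 c2385 c2073 c10247 c10245 c5356 c6205 c5215 c5316 (k8 c5317 c5318 c5433 c19585 c2071 c2500 c6008 c5657 (k8 c9182 c5324 c19790 c5448 c5397 c19762 c2890 c2504 (k4 c9694 c19789 c17561 c17858 (k1 c19060 k0))))))) (by decide +kernel)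
def c19792 : PP 9 3 T 0x400000000002000000000000000000000200000008000200000000000000000000000000000000000000000000000000000000000000010000000010 := rS 0x6df42191f85d1659 (k8 c18352 c18350 c5433 c5318 c5315 c17561 c17858 c19060 k0) (by decide +kernel)
def c19793 : PP 9 3 T 0x2000110040000000000000100040000000000000000040000000000402000000000000000000008000000000000000000000000000000 := rS 0x100d43e9fdfde370a476df254ed3c3df71bf536c5 (k8 c18348 c5397 c2504 c2623 c5495 c5537 c5211 c5531 (k8 c5221 c5212 c5589 c5591 c17720 c10866 c891 c1690 (k2 c2507 c5670 (k1 c1658 k0)))) (by decide +kernel)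
def c19794 : PP 9 3 T 0x400000000082000200000000000000000000000000000000000000000000000000400000000000000000000000040044400000000000000000000000 := rS 0xd36af8d5def3f2b5627150a34de7d45a24d265 (k8 c18353 c18347 c18356 c18350 c5566 c5565 c5381 c5398 (k8 c5571 c5421 c5573 c17831 c19392 c3602 c5577 c2998 (k2 c2940 c5689 k0))) (by decide +kernel)
def c19795 : PP 9 3 T 0x1005400000000040000200000000000000000100040008000000000000004040000000500100000000000000000000000000000001400004010100000002 := rS 0x1ee5689fe6248eac4865b (k8 c5474 c5478 c15326 c5778 c13542 c17808 c60 c2758 (k2 c5204 c19760 k0)) (by decide +kernel)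
def c19796 : PP 9 3 T 0x62000200000000000000000100040000000200000000000000000000102000000000000000008000000000000001400000000000000002 := rS 0x7ce38df65f89fe21818f7c2d750b24520354aada33a7b8cde639f6bd41fdf (k8 c5495 c19585 c1922 c5499 c5317 c2500 c5316 c2071 (k8 c5657 c173 c5413 c5531 c19762 c9694 c5396 c5398 (k8 c4537 c5537 c5436 c10690 c5528 c2507 c19795 c5464 (k4 c5580 c17803 c17766 c6335 k0)))) (by decide +kernel)
def c19797 : PP 9 3 T 0x8000000000020000000000000000000000000000000000000000000000000000500000000001000014400000000000000000000000000000000000000 := rS 0x1becb4ec5532b3 (k4 c5532 c5530 c5414 c5412 (k2 c5464 c5580 (k1 c3620 k0))) (by decide +kernel)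
def c19798 : PP 9 3 T 0x15005400000000040400210000010000040400100044000000200014000000000000010000000001200000041000040000040000001400010000000000000 := rS 0x1f5d2c6b23b86d3aef3a9f260f68317cbecd265 (k8 c18353 c18347 c18357 c18351 c5434 c5211 c1337 c19782 (k8 c5469 c5619 c5623 c19773 c15012 c3294 c17867 c17936 (k2 c5557 c5222 k0))) (by decide +kernel)
def c19799 : PP 9 3 T 0x40000000000020000000400100000000000004000000000000000000000000000000000000000000000000000000000000018000000000 := rS 0x2d2a6e0a7f7 (k4 c5638 c3222 c5233 c5662 (k2 c5612 c355 k0)) (by decide +kernel)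
def c19800 : PP 9 3 T 0x220000000000044000000000000000000000000000001501000000000000000000000000000000000000000000000000000000000000000 := rS 0x322bb55ae552b7 (k4 c5533 c5531 c5415 c5413 (k2 c5430 c5615 (k1 c3624 k0))) (by decide +kernel)
def c19801 : PP 9 3 T 0x5005400000000040400210000040000040400100044000000204014040401000000010000000001200000040000040000040000001400010018000000000 := rS 0x10d92fdb49b982c26ff0bf860f0bb446c9f1a917dbe5128b (k8 c18350 c18356 c18351 c18357 c10074 c5569 c5383 c5381 (k8 c5211 c19799 c1337 c19798 c5629 c5511 c5514 c5628 (k4 c19800 c5213 c5233 c5391 (k2 c5640 c3615 k0)))) (by decide +kernel)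
def c19802 : PP 9 3 T 0x80000000000000000400000000000000000800000004000000204400100000000000000000000000400100004000000060000040001400000408000002002 := rS 0x11b27955797bc2df30377dce94a64d15eaca2197d964baf9 (k8 c18351 c17796 c18352 c18357 c5315 c5350 c5600 c5601 (k8 c5604 c5605 c9962 c17864 c669 c1062 c5667 c1349 (k4 c914 c986 c356 c296 (k2 c2906 c17995 k0)))) (by decide +kernel)
def c19803 : PP 9 3 T 0x81000000000000040400210000000000040000100044000000200000000000001000510202540001200114404000008800001040001400010410004000002 := rS 0x125bcbbdd7a976e3f48e6bfb6f13f58359e47878e0721e976f1c22a995986466318f817becf4aaa7160c0581c1efd339cd0327379f71bef131fc2e5f4e98cf311f0c662fe3da3ed068b (k8 c18350 c18355 c18357 c5211 c19797 c5593 c5551 c5537 (k8 c9727 c2385 c10247 c5412 c10245 c5433 c2998 c19769 (k8 c5585 c5569 c5566 c5565 c5383 c5380 c19419 c663 (k8 c2504 c19585 c5432 c690 c5645 c3963 c5531 c2016 (k8 c139 c5495 c6008 c9713 c5434 c5316 c5315 c5532 (k8 c5530 c5414 c3599 c3620 c1333 c5030 c3577 c2177 (k8 c2222 c617 c19802 c19801 c5634 c3257 c3445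 c2152 (k8 c2080 c5222 c1693 c1664 c988 c3436 c1732 c3431 (k2 c5391 c3612 k0))))))))) (by decide +kernel)
def c19804 : PP 9 3 T 0x10000000000000000000040000000200000000000000000000002000000000000000008000000000000000000000000000000000 := rS 0x8e25995178cdbd61f25ab8522af258995b013ffbda9b723927407333d64002f1480f66614db2542a54fa4f5e1b2dd1c6af122ec275930597cc6c779bddaedd3b1e9c67967b47bfe188a75571536aa567b4f6c0c66390385c7a057a83d1683 (k8 c18355 c18350 c19585 c1922 c6008 c5436 c5433 c5432 (k8 c5317 c5316 c10690 c5499 c5211 c5532 c5531 c5529 (k8 c5414 c5413 c5412 c9727 c5537 c5495 c173 c139 (k8 c2385 c2623 c2074 c2073 c4572 c4537 c2071 c2500 (k8 c799 c10247 c10245 c690 c5356 c5657 c19790 c5326 (k8 c5323 c5324 c5327 c5474 c5475 c5479 c5444 c5448 (k8 c5399 c5398 c5396 c5397 c5445 c17756 c19762 c9694 (k8 c19426 c5642 c19792 c663 c19419 c19793 c12930 c15906 (k8 c19794 c19796 c5585 c2998 c3073 c2890 c19769 c9182 (k8 c2986 c10074 c6188 c9106 c5660 c5683 c19791 c5551 (k4 c5593 c19803 c1660 c19778 (k1 c19785 k0)))))))))))) (by decide +kernel)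
def c19805 : PP 9 3 T 0x1400000000022000000000000000000000100040008000200000000000000000000001000000200000000008000000000400001400000010000000000 := rS 0x25ceed067b1fe40c7be4c965b798d53aabf6c0cae331c81c620f4998d92614aa3cce8dd06dcea65629a4b25d (k8 c17796 c18352 c18347 c18348 c18353 c18354 c5421 c5212 (k8 c5381 c2179 c5568 c5446 c5445 c5396 c5395 c5444 (k8 c19585 c5434 c5432 c5317 c5316 c5313 c10690 c5499 (k8 c5413 c5412 c5324 c5325 c5474 c12081 c10897 c9904 (k8 c8435 c5660 c2480 c19768 c5688 c2132 c1708 c3597 k0))))) (by decide +kernel)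
def c19806 : PP 9 3 T 0x1000400000000022000000000000000000000100040004000000000000000000000000001000001200000000000000000000400000000000000000000000 := rS 0x32dbed4f1b5dc2e33b7c92e9d8aa6567ef56a7d426364a6cc29533a3741b73a9958a69 (k8 c18347 c18348 c18353 c18354 c5421 c5212 c5381 c2179 (k8 c5446 c5445 c5397 c5396 c5395 c5398 c5448 c201 (k8 c5506 c5532 c5530 c5414 c5412 c19758 c5171 c3597 (k8 c5549 c5591 c2187 c19797 c15326 c3003 c1660 c3620 k0)))) (by decide +kernel)
def c19807 : PP 9 3 T 0x400000000022000000000000000000000100040000000200000000000000000000001000001200000000008000000000400001000000010000000000 := rS 0x1a23b67f818ff223831ef932596de6359d2afdb032b8cc7207188ddea0f49a3f41b72cb14ea5d (k8 c17796 c18354 c18348 c18352 c5421 c5212 c5568 c5444 (k8 c19585 c1922 c5435 c5434 c5432 c5317 c5316 c5313 (k8 c10690 c5499 c5413 c19806 c5324 c5325 c5474 c12081 (k8 c10897 c9904 c8435 c2367 c5660 c2480 c19805 c19768 (k2 c5456 c5459 (k1 c3587 k0)))))) (by decide +kernel)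
def c19808 : PP 9 3 T 0x22000000000000000000000100040000000200000000000000000000001000001200000000008000000000400001000000010000000000 := rS 0x1dd2fde31b24c29533a3741b73a9958a69 (k8 c18347 c18348 c18353 c18354 c5421 c5212 c5381 c2179 (k8 c5446 c5445 c5396 c5395 c19807 c5452 c5493 c3597 k0)) (by decide +kernel)
def c19809 : PP 9 3 T 0x100000000000000000000000000000000000000000200000000000000000000000000000000010000000008 := rS 0x4e1b09e836e65 (k4 c18353 c5421 c5212 c5564 (k2 c1109 c267 (k1 c18405 k0))) (by decide +kernel)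
def c19810 : PP 9 3 T 0x22000000000000000000000100040000000200000000000000000000001000000200000000008000000000400001000000010000000000 := rS 0x1e53a257cd69ed81fbe02ab (k8 c5413 c2143 c5506 c10690 c5499 c19808 c5548 c9106 (k2 c5171 c9182 (k1 c5325 k0))) (by decide +kernel)
def c19811 : PP 9 3 T 0x4000000000000000000000000000000000000100040000000000000000010000000000000000000000000000008000000000000002000000000000000000 := rS 0x13a227cfdb03 (k4 c10690 c5499 c5588 c13257 (k2 c5171 c5326 k0)) (by decide +kernel)
def c19812 : PP 9 3 T 0x22000000000000000000000100040000000200000000000000000000001000000200000000008000000000000000000000010000000010 := rS 0x178061724c0557ef (k8 c5506 c5413 c2143 c19811 c5433 c19809 c19810 c5642 (k1 c1054 k0)) (by decide +kernel)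
def c19813 : PP 9 3 T 0x22000000000000000000000000000008000200000000000000000000000000000000000000008000000000000000000000000010000008 := rS 0x347be961abc53aab548c43665 (k8 c18353 c1109 c5434 c5531 c5413 c5412 c5323 c5324 (k4 c17904 c5452 c1708 c19762 k0)) (by decide +kernel)
def c19814 : PP 9 3 T 0x540000000000a000010000000000000000100000000000200000000000000000000000000000200001000008001000000800000100000000000000008 := rS 0xc768b5080d71a64fdec93090c3665 (k8 c18353 c1109 c1931 c5445 c5396 c5506 c5439 c19428 (k4 c1764 c5281 c15326 c4255 (k2 c799 c10245 k0))) (by decide +kernel)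
def c19815 : PP 9 3 T 0x2000010000000000000000100040000000200000000000000000000000000000200000000008000000000000000000000000000000000 := rS 0x5f3cf847445f187fbef170b8d6bb2f94ec3a021408d3a214ced3da0507b37dfb756a7d429b (k8 c5397 c5398 c5448 c201 c5421 c5506 c19804 c19585 (k8 c6008 c5499 c5211 c5530 c5528 c5412 c9733 c19812 (k8 c9694 c539 c19813 c5171 c5229 c5548 c5549 c5591 (k8 c5401 c19195 c1311 c19797 c456 c18438 c5456 c1536 (k2 c19814 c19806 k0))))) (by decide +kernel)
def c19816 : PP 9 3 T 0x1000000000000000010040000000000000000040000000000000000000000000000000000000000000000008004000000000000000820000000004000 := rS 0x3d99e0a63034f285 (k8 c18349 c1536 c290 c5669 c5645 c2560 c693 c502 k0) (by decide +kernel)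
def c19817 : PP 9 3 T 0x20000000000000000000000000000000000000000000000000000000000000000000000404008000000000400000000520000001004008 := rS 0xf6 (k2 c19687 c501 k0) (by decide +kernel)
def c19818 : PP 9 3 T 0x2000010040000000000000000040000000200000000000000000000000000000000000040008000000040400000000020000000000008 := rS 0x784747b3b6d0323907b35266364a6cc2953a9958a69 (k8 c18347 c18348 c18353 c18354 c5446 c5445 c5397 c5396 (k8 c5395 c5444 c19804 c19585 c5317 c5315 c5211 c3597 (k4 c890 c19817 c5456 c19816 k0))) (by decide +kernel)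
def c19819 : PP 9 3 T 0x10040000000000000000040000000000000000000000000000000000000000000000008004000000000000000820000000004000 := rS 0x1e1 (k2 c5456 c19816 k0) (by decide +kernel)
def c19820 : PP 9 3 T 0x2000010000000000000000000040000000200000000000001000000000000000000000000008000000000000000000000000010000008 := rS 0x29ee1e1d9ecbc34c999d2fb29d86c469d10a6768191c85c6e0f49a6cc265 (k8 c18353 c5445 c5397 c5444 c19585 c5435 c5433 c5317 (k8 c5315 c5211 c5530 c5528 c5412 c9733 c1109 c19813 (k8 c5649 c19357 c5487 c18631 c19428 c19818 c1686 c19819 (k4 c3578 c501 c1112 c693 k0)))) (by decide +kernel)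
def c19821 : PP 9 3 T 0x100000000000000a000000000000000000000200040000000200000000000010000000000000000004000000000000000000000000000400000080000010 := rS 0x1a86ded3b79f7dfa29 (k8 c5339 c5405 c19195 c2532 c19792 c5657 c2103 c501 (k1 c17756 k0)) (by decide +kernel)
def c19822 : PP 9 3 T 0x2000010000000000000000000040004000200000000000000000000000000000200000000008000000000000000000400000000000000 := rS 0x3408c47b59c4dff9b8522d15a3f98e497e031027bc9bc816767ba5c343f1eb362701319852ad36490496472f99c0003788a43b1dd987936991c8dc2e230c885269dac3d40a0ff6aaf688b3a9958a69 (k8 c18347 c18348 c18353 c18354 c18350 c5211 c5413 c5499 (k8 c19585 c6008 c1922 c19815 c5412 c5444 c5528 c5315 (k8 c9733 c5433 c5435 c5317 c5530 c5397 c3578 c19821 (k8 c5341 c2177 c5339 c1330 c19820 c5642 c664 c1054 (k8 c5562 c5342 c5340 c5396 c2085 c5446 c5445 c5395 (k8 c2143 c959 c19804 c5436 c5318 c5649 c19357 c2103 (k8 c3597 c693 c5657 c5356 c890 c939 c5645 c2532 (k8 c451 c2480 c1336 c1335 c8113 c3008 c3013 c5548 (k4 c2514 c3590 c2575 c2404 (k2 c2187 c5675 (k1 c5381 k0)))))))))))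 (by decide +kernel)
def c19823 : PP 9 3 T 0x2000000000000000000000200000008000200000000000001000000000000000000000000000000000000000000000000000010000010 := rS 0x6a97ef06c6229 (k4 c5339 c5434 c5475 c19792 (k2 c5452 c5324 (k1 c17904 k0))) (by decide +kernel)
def c19824 : PP 9 3 T 0x2000010000000000000000000040000000200000000000000000000000000000200000000008000000000000000000000000000000000 := rS 0x3dde61a1a9ef26761d25e76672f800061d78c7453584a985926349aaf69ed0c8cc2e3102bd41ecd3a9958a69 (k8 c18347 c18348 c18353 c18354 c19804 c19585 c1922 c6008 (k8 c5434 c5433 c5316 c5315 c5499 c5211 c5413 c5444 (k8 c5395 c5396 c5445 c5446 c19815 c5339 c5341 c1330 (k8 c2177 c19820 c5642 c1054 c664 c19823 c19357 c19822 (k8 c3597 c5356 c890 c19819 c3577 c448 c2103 c5657 k0))))) (by decide +kernel)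
def c19825 : PP 9 3 T 0x10000000000000000000040004000200000000000000000000000000000000000000008000000000000000000800000008000000 := rS 0x633bb258ed00617cc2f205800cef74aa5c071155ed3da390385c62057af84f20f3a9958a69 (k8 c18347 c18348 c18353 c18354 c19585 c1536 c5456 c1922 (k8 c6008 c5434 c5433 c5432 c5317 c5499 c5211 c5413 (k8 c9727 c1109 c1073 c1904 c2103 c1903 c5642 c693 (k8 c5657 c661 c1054 c5645 c449 c2480 c2133 c2132 (k2 c10247 c3597 k0))))) (by decide +kernel)
def c19826 : PP 9 3 T 0x1000000000000000002204000000008000000000000000000000000000000000 := rS 0x7ffcfdb03 (k4 c10690 c5499 c5548 c2572 (k1 c14602 k0)) (by decide +kernel)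
def c19827 : PP 9 3 T 0x10000000000000000000000000000000001000000000000000020000001600000000000050401040000001400020011140000208 := rS 0x70b53e48d48e84e01213205ae4b20d6046d362a24ea8b (k8 c18350 c18354 c18356 c18348 c4501 c9733 c19809 c5340 (k8 c5342 c1763 c1744 c3584 c267 c268 c5564 c3036 (k4 c753 c10427 c3608 c5591 (k1 c1710 k0)))) (by decide +kernel)
def c19828 : PP 9 3 T 0x4000000000000000000000000000000000000000000004000000100000000000000000000000000000000008000000000000000000040000020000000000 := rS 0x8b59 (k2 c5339 c3734 (k1 c5658 k0)) (by decide +kernel)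
def c19829 : PP 9 3 T 0x10000000000000000000040004000200000000000040000000000000000200000000008000000000000000000800000000000000 := rS 0x2d4cefdd93c45292011fcfa6050e4cc6772fb2410c70f9243a3423c75a00c7902e229d8a884dab3f68e5ebef37c0557b4d8f84f20f1290c3665 (k8 c18353 c19825 c1931 c1092 c19585 c1536 c5456 c19824 (k8 c5211 c5413 c2143 c1146 c5506 c1922 c5317 c5499 (k8 c5532 c5529 c5528 c5414 c5412 c9727 c693 c5657 (k8 c5645 c449 c3772 c2537 c448 c3683 c451 c2533 (k8 c2480 c289 c2133 c10245 c2132 c10247 c5438 c1197 (k8 c5663 c1580 c729 c1574 c1573 c19828 c1330 c5649 (k4 c5405 c5487 c19826 c19827 k0))))))) (by decide +kernel)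
def c19830 : PP 9 3 T 0x8000000000000000000000000000000000200000000000004000000020000000004000004000000000000000000000000000004000000 := rS 0x1ab246617 (k4 c5433 c5316 c2133 c1705 (k1 c17910 k0)) (by decide +kernel)
def c19831 : PP 9 3 T 0x1000000000000000000000000000000000000000000004000000000000000001000000011000000000000040000000000000000000000815000011000148 := rS 0x7799065 (k4 c18353 c9863 c6899 c5494 k0) (by decide +kernel)
def c19832 : PP 9 3 T 0x41000000000000000000000000000000000000000400000000000500000040000400010001400155000002000000000000000000000000 := rS 0x196de (k2 c3610 c1755 (k1 c14125 k0)) (by decide +kernel)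
def c19833 : PP 9 3 T 0x100000000000000000000010010004000000400000040000000000000000000000000000000000000000000000000000000040000110000000000000000008 := rS 0x2cdcc849da47cbecd265 (k8 c18353 c18347 c18357 c18351 c5222 c5661 c5606 c17936 (k2 c17723 c269 k0)) (by decide +kernel)
def c19834 : PP 9 3 T 0x400110090004000000000000044000000200104000800000000000000000000200100000000000000040001100140000400000000008 := rS 0xfb43373a5b342e1e4dfa8676f0155ed12609 (k8 c5438 c261 c5211 c5413 c2143 c5421 c5315 c5634 (k8 c3219 c2157 c3446 c19833 c17707 c17864 c17956 c5243 (k1 c5640 k0))) (by decide +kernel)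
def c19835 : PP 9 3 T 0x10080400000000800000000000000200014000000000000000000000000000000000000000000000001405400000000000000800 := rS 0x7d7137bd29375723 (k8 c5351 c5600 c5604 c17707 c696 c2313 c18028 c5676 k0) (by decide +kernel)
def c19836 : PP 9 3 T 0x8400010080000000040000000044004000200014001400000000000000000000000000000008000000000001505400000400000000808 := rS 0x4c5d7d60b87f859f16ab5caa56fb47ee0ccf91 (k8 c5491 c5487 c5407 c5405 c5211 c5533 c5531 c5415 (k8 c5413 c1004 c19835 c5659 c5512 c5628 c17821 c3624 (k2 c19833 c2355 k0))) (by decide +kernel)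
def c19837 : PP 9 3 T 0x8400110080000000040000000044004000200114001000000000000080000000200010000008000000000001505540000400000000808 := rS 0x3b619665242e1e4dfac1a02abda60ccf91 (k8 c5491 c5487 c5407 c5211 c5413 c2143 c19836 c5634 (k8 c3219 c2157 c3446 c19834 c19833 c17956 c3485 c2090 k0)) (by decide +kernel)
def c19838 : PP 9 3 T 0x10000000000000000000000000000000000000000000000000000000200000000100000020000000000100000818000080000 := rS 0x10d85c3e4f7fc6c957922c2e9303217dbe5128b (k8 c18350 c18356 c18351 c18357 c9706 c19424 c19425 c1348 (k8 c592 c593 c3095 c2877 c5389 c758 c2251 c3016 (k2 c3307 c3615 k0))) (by decide +kernel)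
def c19839 : PP 9 3 T 0x900010004000010000000000000000000000400000000080000000008040000000000000000005000000000000000040000000004800 := rS 0x6a349f572b9dd37bc5e260d0526485e6fb (k8 c18357 c156 c3231 c2110 c3212 c2109 c2314 c2353 (k8 c3215 c2356 c3217 c2566 c5634 c5676 c3611 c5388 k0)) (by decide +kernel)
def c19840 : PP 9 3 T 0x400110080000000040000000044004000200114000000000000000088000000200000000008000000000001401400800000000000008 := rS 0x791b1f56dba753f027e92ce2e5cadc864b80aaf6851848281bb20e9681ef11186d42d771f87de457b315f659 (k8 c18352 c18357 c18348 c19829 c503 c5506 c5456 c10455 (k8 c1769 c1198 c19825 c9733 c499 c19585 c9904 c4525 (k8 c5649 c291 c5645 c2237 c610 c5211 c5413 c2143 (k8 c565 c1931 c5533 c5415 c19837 c5347 c19425 c519 (k8 c5659 c5388 c1823 c5627 c17821 c17845 c6650 c5621 k0))))) (by decide +kernel)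
def c19841 : PP 9 3 T 0x400000000000000010000000000040000000040004000200000000000000000000008000000200000000008000000002000000000800010000000000 := rS 0x59b17f58248c9b46692008b1724c67e49147e84a71d089548f5859bd76f13d88949651c199f23b20e969e2230d9f4de02009fdc30155a85aee3f7ebef38fc97858e6dda1ec0e0a06bd8f31f0283f5a3742b14b265 (k8 c18353 c18352 c18348 c18349 c5435 c5437 c19585 c6008 (k8 c9713 c1536 c19829 c291 c5645 c5432 c690 c5211 (k8 c5529 c726 c5456 c10425 c5443 c5359 c19839 c5506 (k8 c10455 c1769 c1198 c5413 c2143 c1653 c5358 c661 (k8 c5642 c1146 c1580 c19825 c9733 c499 c9904 c4525 (k8 c5649 c5491 c5487 c5407 c610 c565 c1092 c19824 (k8 c959 c5421 c1922 c5532 c19809 c16855 c5343 c5558 (k8 c5341 c5563 c12891 c2311 c13457 c12878 c5551 c5588 (k8 c5593 c503 c19832 c13318 c19840 c3365 c469 c506 (k4 c18028 c2580 c19833 c19835 k0)))))))))) (by decide +kernel)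
def c19842 : PP 9 3 T 0x10000000000040000000040004000200000000000000000000000000000200000040008000000002000000000800000000000000 := rS 0xdf48a3d024524e82b22871b859ddf1a345267f0480b24c73e804dbed0c8cc620566fbcdf1380aaf69e13cbccf60a0681f641d2d03de2f61186cb265 (k8 c18353 c18352 c19825 c9733 c19829 c499 c19585 c9904 (k8 c4525 c5649 c5432 c291 c5645 c690 c156 c1536 (k8 c5456 c5211 c5413 c2143 c959 c1146 c5506 c19804 (k8 c6008 c5434 c5316 c5315 c5499 c5529 c661 c1580 (k8 c726 c10425 c5642 c5438 c5358 c261 c19830 c19831 (k8 c5450 c502 c1653 c10455 c19841 c5339 c8199 c509 (k4 c456 c5380 c5568 c13505 (k2 c5851 c3610 k0)))))))) (by decide +kernel)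
def c19843 : PP 9 3 T 0x10080000000040000000040004000200000000000000000000000000000200000040008000000000000000000800000000000000 := rS 0x59b17f58248c9b4669115bd1724c6503f2382451fa129c74225523d60521e011ccd5af71b8536ce68b23be77319fcfb79c7b1cbf114e9b532b3f68df5af58f8159befdb9be27e13c8949701289ec140d03a54638333e456afdd9074b40f78bd8461b55ed0c28534b14ca59 (k8 c18352 c18353 c18348 c18347 c18349 c19842 c5211 c5413 (k8 c19825 c9733 c19829 c499 c19585 c9904 c4525 c5649 (k8 c5405 c19826 c5491 c5487 c5407 c5434 c10191 c5432 (k8 c291 c5645 c690 c610 c2143 c565 c1092 c1536 (k8 c5456 c959 c1146 c5421 c5506 c19804 c6008 c9713 (k8 c1922 c5437 c5435 c5499 c5532 c5530 c5529 c5412 (k8 c9727 c5439 c5357 c5443 c5359 c5442 c5358 c5355 (k8 c5356 c17866 c18033 c2133 c5688 c5856 c1653 c10455 (k8 c19839 c3598 c1318 c2306 c2305 c1311 c19809 c16855 (k8 c5343 c5558 c5341 c5563 c12891 c2311 c13457 c5666 (k8 c12878 c751 c5551 c5588 c5593 c3610 c503 c2565 (k8 c19840 c3365 c469 c506 c18028 c2580 c19833 c19835 k0)))))))))))) (by decide +kernel)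
def c19844 : PP 9 3 T 0x1000010000000000000000000040004000200000400000080000000020000001200000000000000000400000001000010010014000002 := rS 0x707c9a9a18e904235848916231510acc66311eedc860a0683d25b27888de6a164aaf6859 (k8 c18352 c5211 c5413 c2133 c1197 c156 c9733 c499 (k8 c5649 c19830 c19585 c291 c5645 c1931 c5421 c5436 (k8 c5434 c5316 c5532 c5528 c5414 c9727 c503 c13505 (k8 c15040 c5558 c5340 c5341 c15768 c16370 c12878 c1710 (k1 c5591 k0))))) (by decide +kernel)
def c19845 : PP 9 3 T 0x10000000000040000000040004000200000000000000000000000000000200000040008000000000000000000800000000000000 := rS 0x474158227cc906b000a5a003630d7266154fb60605f7c4e03b1f09e4f60a0681d6afdd9074b40f78bd8461b55ed11659 (k8 c18352 c18350 c5211 c5413 c19825 c9733 c19829 c499 (k8 c19585 c9904 c4525 c5649 c5405 c19826 c5432 c291 (k8 c5645 c690 c1536 c5456 c19824 c2143 c959 c5506 (k8 c6008 c10690 c5499 c5531 c19842 c19843 c19819 c5669 (k8 c19428 c799 c9694 c5642 c2306 c19844 c5588 c13257 (k4 c19811 c12878 c2966 c19601 k0)))))) (by decide +kernel)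
def c19846 : PP 9 3 T 0x10000000000040000000040004000200000000000000000000000000000200000000008000000000000000000800000000000000 := rS 0x960e969e2f61185c1e59 (k8 c18352 c19585 c5433 c9733 c19829 c499 c9904 c4525 (k2 c19845 c19357 k0)) (by decide +kernel)
def c19847 : PP 9 3 T 0x10000000000040000000040000000200000000000000000000000000000200000000008000000000000000000800000000000000 := rS 0xd05611e47f9a4568fe7e0743e7301004c0632f8218e0c7be4c96490d96de635789167479f0c453aa9f6c0cae331c81c62f507fbe270155ed3628b2cb14ea5d (k8 c17796 c18354 c18348 c18352 c18350 c19824 c5211 c5413 (k8 c2143 c959 c5506 c19585 c1922 c5434 c5432 c5317 (k8 c5316 c5313 c10690 c5499 c5531 c5412 c9727 c5456 (k8 c1536 c19846 c5326 c5323 c5324 c5325 c5474 c5475 (k8 c13257 c12081 c10897 c9904 c8435 c2480 c289 c10245 (k8 c10247 c5663 c16365 c1574 c9719 c2362 c263 c17991 (k8 c1336 c1335 c3008 c5548 c2345 c2402 c5660 c5675 (k1 c17561 k0)))))))) (by decide +kernel)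
def c19848 : PP 9 3 T 0x1000000000000000000010000000000000000000040008000000000400000050000000000000000200000000000000000000000005000000000010004408 := rS 0xd05611e47f9a4568fe7e1cc3e015588553b478bcd1659 (k8 c18352 c18350 c5325 c5323 c5211 c5531 c5528 c5413 (k8 c28 c1112 c9719 c9945 c1336 c1335 c3008 c5548 (k4 c2345 c2402 c5660 c5675 (k1 c17561 k0)))) (by decide +kernel)
def c19849 : PP 9 3 T 0x40000210000000000000000000040008000200000000000000000000000040000000000000000000000008000005000400011000000000 := rS 0x40137c9becbaca3ce7932d8cc6a072b8c48eb3da1ee228b2c974eac5 (k8 c18348 c18354 c17796 c18352 c18350 c9727 c888 c5211 (k8 c5532 c16855 c5434 c5313 c5432 c5324 c5316 c5474 (k8 c10897 c5379 c5568 c17561 c1322 c14796 c5660 c5651 (k2 c19019 c350 k0)))) (by decide +kernel)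
def c19850 : PP 9 3 T 0x41000010000000000000000000040008000200000000050050000000000040000000000000000000000000000005000400001000000004 := rS 0x7f78ab1a1689ecc447000a622b3da0141e4579e4cb6331a81cae313a974b2c5 (k8 c18348 c18352 c17796 c18354 c5434 c5313 c5432 c5324 (k8 c5316 c5474 c10897 c5325 c5326 c19585 c6008 c5211 (k8 c5532 c9727 c9694 c5642 c16855 c16365 c888 c8113 (k4 c19849 c5212 c5236 c18038 (k1 c18863 k0))))) (by decide +kernel)
def c19851 : PP 9 3 T 0x10000000000000000000040008000200000000000040000000000000000200000000008000000000000000000400000000000000 := rS 0xe8084a4b2486de645f6c0debefdbc4e02abda6c58e0c0583c7259 (k8 c18352 c5317 c19585 c693 c5645 c2480 c19824 c5211 (k8 c5413 c2143 c959 c5421 c5506 c1922 c10690 c5499 (k8 c5326 c5325 c5475 c13257 c12081 c1092 c19850 c263 (k1 c19848 k0)))) (by decide +kernel)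
def c19852 : PP 9 3 T 0x21000010000000000000000000000004000200100000000000000000000040000200000000008000000000000001500400000010000408 := rS 0x934d97cf2caf0b7be47f48e856a7009285fa2620ecab0f111a755715109b567ed81864723f1bfbf6e250f90c3665 (k8 c18353 c1109 c1931 c1112 c1093 c5421 c5506 c5435 (k8 c5318 c5317 c5315 c10690 c5499 c5532 c5529 c5528 (k8 c5414 c5413 c5412 c9733 c1331 c5658 c5649 c5340 (k8 c14437 c5405 c2927 c267 c268 c19826 c5564 c3036 (k8 c2917 c10427 c19019 c5538 c14125 c2388 c10245 c1326 (k2 c1753 c18018 k0)))))) (by decide +kernel)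
def c19853 : PP 9 3 T 0x110000000000000000000040000000200000000000040000000000000000200000000008000000000000000000400000000000008 := rS 0x9364b55949ff1b7be491090996afdd928482f1381feb02911c54dab30cb376e6f1287ce60108b4c7e4b2211c861b24c05561d10c75e5ed7aced8e0c078e417b1da40cca8b (k8 c18350 c18353 c10690 c5211 c19824 c693 c5317 c19585 (k8 c5645 c2480 c19851 c1922 c5499 c5657 c17702 c5528 (k8 c333 c5413 c2143 c451 c1109 c1931 c2537 c19852 (k8 c461 c5318 c2936 c2966 c28 c9719 c1112 c1093 (k8 c1146 c5421 c19804 c5315 c5532 c5529 c5414 c9733 (k8 c8199 c17869 c18926 c5666 c1330 c5340 c2929 c5649 (k8 c5405 c19826 c3584 c267 c3036 c10427 c19019 c5580 (k4 c2884 c14125 c3003 c10123 (k2 c1753 c16651 k0))))))))) (by decide +kernel)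
def c19854 : PP 9 3 T 0x4000000001000000000000000000000000604000000008000000000000001000000015554000000 := rS 0xfcd92d1e3b7 (k4 c5421 c1330 c18060 c5649 (k2 c19826 c5405 k0)) (by decide +kernel)
def c19855 : PP 9 3 T 0x10000000000000000000040000000200000000000040000000000000000200000000008000000000000000000400000000000008 := rS 0xd93c2b2281384f40442390c3e1b11c5567efdbec58e0c058e43a2124c0557b412c75e5ed7a83e7665 (k8 c18353 c19851 c19585 c1922 c5499 c5657 c17702 c1093 (k8 c5211 c5413 c2143 c451 c5528 c333 c5317 c693 (k8 c5645 c2480 c19824 c5421 c5506 c5532 c5414 c9733 (k8 c1109 c1112 c1931 c2537 c19852 c19853 c5564 c267 (k4 c19854 c5339 c456 c5229 (k1 c5401 k0)))))) (by decide +kernel)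
def c19856 : PP 9 3 T 0x20000000000000000000000100040004000000000000000000000000000000001200000000000000000400000001000000018014000002 := rS 0x452244d04462a2159edc868b (k8 c18350 c1932 c5421 c5532 c5528 c5414 c9727 c5212 (k4 c15040 c10074 c2966 c15768 k0)) (by decide +kernel)
def c19857 : PP 9 3 T 0x20000200000000000000000000000000000000000100001000000000000000000200000000008000000400000000000000000000010002 := rS 0x3e6ff4845442b3f6c0fdf015aaace28b (k8 c18350 c667 c5413 c19826 c2143 c5506 c10690 c5499 (k4 c5532 c5528 c5414 c15768 (k2 c14972 c5589 (k1 c5694 k0)))) (by decide +kernel)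
def c19858 : PP 9 3 T 0x1000000000000000000000000000000000200000000000000000000000800001000001100000000000000000000010400000540000000 := rS 0x934d8647217 (k4 c5433 c5317 c5315 c1326 (k2 c1753 c6193 k0)) (by decide +kernel)
def c19859 : PP 9 3 T 0x1000100000000000000000200000000000200000100000000000440000000000000000001800000000000000005400400000000002002 := rS 0x326633e1e9c041 (k4 c5340 c17934 c14556 c2846 (k2 c888 c5442 (k1 c16365 k0))) (by decide +kernel)
def c19860 : PP 9 3 T 0x10000000000000000000040000000200000000000040000000000000000200000000008000000000000000000400000004000000 := rS 0xe3477cdbe8165a44e5a120846b0b525a85fa2635ec83f1111a762a991fc4f620c05874424980aade247148963af2f6bd676b3da6dcc200018141e07 (k8 c5432 c19585 c6008 c19855 c5642 c661 c5421 c5211 (k8 c5532 c19851 c1922 c5499 c5657 c17702 c1093 c9694 (k8 c16855 c19427 c5413 c2143 c451 c5528 c333 c693 (k8 c5645 c19824 c959 c5318 c5530 c5414 c5412 c9733 (k8 c9727 c2533 c5649 c1058 c19854 c5405 c2927 c353 (k8 c19826 c19856 c5558 c5340 c19857 c17749 c9824 c19858 (k4 c14518 c14125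 c19019 c5675 (k2 c2404 c19859 k0)))))))) (by decide +kernel)
def c19861 : PP 9 3 T 0x21000010000000000000000200000000000200000100000008000000000000001200000000008000000000000000000400011000002002 := rS 0x71a3923f33937d02a1d0b2c4c6b0fbf4469d8a885323f8992602ab23acf6e6103844824b (k8 c5342 c5340 c5558 c5432 c661 c5421 c5532 c16855 (k8 c5413 c2143 c451 c959 c5318 c5530 c5528 c5414 (k8 c5412 c9733 c1335 c2532 c1058 c3584 c19858 c19857 (k8 c2927 c14518 c14125 c17749 c19019 c9824 c5675 c2404 (k1 c19859 k0))))) (by decide +kernel)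
def c19862 : PP 9 3 T 0x4400000000000004100011000000000000000020000000400020000050000a000000040000000000014000000000000000000000001400400000000002002 := rS 0x7133d1dde25ecd228b (k8 c18350 c3008 c5405 c5342 c18866 c5675 c5453 c19859 (k1 c2574 k0)) (by decide +kernel)
def c19863 : PP 9 3 T 0x4400000000000004100001000000000000000020000000400020000050000a000000040000000000014010000000000000800000001400400000000002002 := rS 0xe24d384c47bc99f7403f1b8f58e392092d228b (k8 c18350 c3008 c5342 c5340 c5317 c2480 c5436 c5435 (k8 c5318 c19862 c5566 c12891 c17811 c16365 c10249 c1173 (k2 c3590 c2622 k0))) (by decide +kernel)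
def c19864 : PP 9 3 T 0x21000010000000000000000200000004000200000100000008000000000000000200000010008000000000000000000400011008002002 := rS 0x64cc7de3cf87c6de3507943b37f3f3e6b4f6c0fdead89b1c724980aac8eb3db9840e670e884ca69 (k8 c18347 c18353 c5528 c333 c664 c5432 c661 c5421 (k8 c5532 c16855 c5413 c2143 c451 c5317 c2480 c959 (k8 c201 c5506 c10690 c5499 c19861 c5548 c19826 c14602 (k8 c5405 c4054 c1075 c2361 c19863 c5580 c5538 c4617 (k4 c5196 c10247 c17866 c16365 k0))))) (by decide +kernel)
def c19865 : PP 9 3 T 0x10000000000000000000040000000200000000000040000000000000000200000000008000000000000000000400000000000000 := rS 0x7cd4117ead52244136cbe5a0ac8692a43003c45203129243b1d794ec180b88c5442b3f68c40af507fbf6f0155ed3628b (k8 c18350 c19824 c5211 c5413 c2143 c5421 c5506 c19585 (k8 c1922 c6008 c5434 c5499 c5532 c5528 c5414 c9727 (k8 c693 c5645 c19851 c5657 c17702 c333 c451 c1093 (k8 c19855 c9694 c19427 c5642 c1932 c10191 c19860 c19864 (k8 c5212 c5171 c5229 c5651 c5658 c10074 c5548 c5405 (k4 c2966 c15768 c2532 c1058 k0)))))) (by decide +kernel)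
def c19866 : PP 9 3 T 0x4000000000000040000000000000000000000100040000000000000000010080000000000000000000000000008000000000080000000000000000000000 := rS 0x4748a8d24e80873b (k8 c5474 c2107 c5212 c19811 c5381 c503 c2159 c5658 k0) (by decide +kernel)
def c19867 : PP 9 3 T 0x210000000000000000000000000000000000000001000000000000000000201000000000000000000000000000000000000010802 := rS 0x3 (k2 c28 c19601 k0) (by decide +kernel)
def c19868 : PP 9 3 T 0x210000000000000000000040000000200000000000000000000000000000200000000008000000000000000100400000000000000 := rS 0x7cfc7df6ff818e1e3009c0401c984e2a2136a6552b3f6c0c0a3521894f6073c8ddfbb29dbc4461b0e9548253488451e47ac16a02abda6dfde0a06bd81e59 (k8 c18352 c19585 c19865 c291 c5645 c5506 c5421 c5211 (k8 c5413 c2143 c9904 c19866 c5562 c2311 c5558 c13457 (k8 c5563 c5340 c5343 c4525 c2103 c9733 c499 c5474 (k8 c5649 c5405 c5435 c2307 c5432 c690 c1092 c2107 (k8 c501 c6008 c10690 c5499 c5532 c5531 c5530 c5529 (k8 c5528 c5414 c5564 c12891 c19867 c5642 c267 c19428 (k8 c14437 c726 c10425 c14796 c16230 c17754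 c19019 c19599 k0))))))) (by decide +kernel)
def c19869 : PP 9 3 T 0x80000000000000000000000000000000000000000000000000000000000000400000004000800000000000440800480000800 := rS 0xe574b9ef7a9c5e25744c27e9303213cb1f1f79 (k8 c5359 c5443 c5357 c2307 c9706 c19424 c19425 c519 (k8 c1360 c1359 c2314 c2658 c5388 c697 c3218 c2356 (k2 c2524 c3611 k0))) (by decide +kernel)
def c19870 : PP 9 3 T 0x10000000000040000000040000000200000000000000000000000000000200000000008000000000000001000000000000000001 := rS 0x166c5fd6092326d185e6ad787936ce65349a3df50b20e00239a744299f686466390beb5eb1f02b34de352192ca3093d81cf237c199f22b57eeca76f11186c3a558e94cff198bf853eb363e3ef392f1b7be513050348e41ac1681f0155ed3dfb1d0915ec3bdba14ca59 (k8 c18352 c18353 c18349 c5421 c19847 c19865 c503 c19868 (k8 c19824 c5506 c5211 c5413 c2143 c19585 c9904 c19866 (k8 c5340 c5562 c291 c5645 c959 c12878 c19019 c5580 (k8 c5236 c5359 c5443 c5357 c5532 c2884 c5538 c5593 (k8 c5551 c18926 c5563 c5341 c5343 c4525 c2103 c9733 (k8 c499 c5474 c5649 c5405 c19826 c5491 c5487 c5407 (k8 c5435 c2307 c5432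 c690 c2237 c610 c565 c2107 (k8 c501 c1146 c19804 c6008 c9713 c1922 c5437 c5433 (k8 c5317 c5316 c5315 c5499 c5530 c5528 c5412 c9719 (k8 c5642 c5666 c14367 c2929 c5494 c2133 c10123 c14125 (k8 c5688 c1326 c19858 c19839 c11576 c19869 c19837 c3365 (k4 c469 c506 c18028 c2580 (k2 c19833 c19835 k0))))))))))))) (by decide +kernel)
def c19871 : PP 9 3 T 0x10000000000040000000040000000200000000000000000000000000000200000000008000000000000001000000000000000000 := rS 0x19fdf689acc200c9787c6def96848bed0c8e42e3702b3627b11a9ec140d03a5462675abf7653b7888c361d149048f582d03dec3b80aaf69b7f7994d259 (k8 c18352 c18347 c18353 c5506 c5421 c5211 c5413 c2143 (k8 c19847 c19865 c19585 c9904 c19866 c5562 c5340 c5339 (k8 c4525 c2103 c9733 c499 c5474 c5649 c5405 c19826 (k8 c5487 c5434 c10191 c5432 c291 c5645 c690 c501 (k8 c19824 c959 c19804 c6008 c5435 c5433 c5317 c5315 (k8 c5499 c503 c19868 c12878 c19019 c5580 c5538 c5236 (k4 c19870 c661 c1059 c19844 (k2 c17866 c11576 (k1 c5688 k0))))))))) (by decide +kernel)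
def c19872 : PP 9 3 T 0x10001000000000000000008000000240014440000090001000000000000000000001400000000000000000000400000000000800 := rS 0x249a48de2feb89bdb0e084dd5b050af9 (k8 c18351 c18349 c5319 c3364 c3365 c506 c3750 c696 (k4 c2313 c17827 c2580 c2587 (k2 c5676 c3616 (k1 c5391 k0)))) (by decide +kernel)
def c19873 : PP 9 3 T 0x4002000000000008000210040000000000000000040000000200014001000000000000000040000000000001000000000000001512010000000000010a08 := rS 0xc7f96f2eac57daf71bd4e97572361d9beb895cadc7fadc199f23f3c6f7d32abda78cf237 (k8 c5435 c2307 c17754 c5211 c5413 c5530 c16230 c5569 (k8 c5588 c5491 c5487 c5407 c5437 c5318 c5533 c5415 (k8 c2313 c19594 c19833 c5348 c5351 c5600 c17797 c1801 (k8 c3127 c696 c5697 c5676 c17933 c816 c5623 c3246 (k1 c5671 k0))))) (by decide +kernel)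
def c19874 : PP 9 3 T 0x20400000010004000040000000004004000000000001001000000000000000040000000000000000000000000020000000000000000000 := rS 0x105c3fc20eab5caa56f67 (k8 c5604 c5533 c5531 c5415 c5413 c3219 c5659 c5512 (k2 c5628 c3624 k0)) (by decide +kernel)
def c19875 : PP 9 3 T 0x5000000000000008000210040000000040000000040000000200014400008090000000000000000000000000000000000000081402410400000040010008 := rS 0x35d20c42ee36e9bde2ece4ca3c7c0a5184cedfb83c8a3e4f8d87b1cdae772f7d57e3489e410924df80c0353d8281a0f03a6472370b88c32214eed1f659 (k8 c18352 c18357 c5211 c5412 c5528 c5315 c9733 c5433 (k8 c5435 c5317 c5530 c5432 c19585 c291 c5645 c690 (k8 c501 c19428 c10425 c5536 c3578 c261 c2307 c13457 (k8 c17754 c5413 c16230 c5539 c5461 c5529 c726 c5031 (k8 c5569 c5383 c2311 c5491 c5407 c5405 c5474 c2237 (k8 c610 c6008 c9713 c19872 c19873 c5604 c2353 c3215 (k4 c2356 c2359 c2354 c19597 (k2 c2314 c19874 (k1 c3231 k0))))))))) (by decide +kernel)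
def c19876 : PP 9 3 T 0x400000000000000000000000000040000000000000000200020000058080001000800200000000000000000000000000001000000010000000000000 := rS 0xc3f8b775edba3b66090c83c2c9eeb19b0463ad (k8 c5437 c5434 c5319 c5316 c3362 c3500 c3404 c3508 (k8 c2577 c2576 c2194 c505 c1772 c2109 c4556 c5628 (k2 c5781 c3589 k0))) (by decide +kernel)
def c19877 : PP 9 3 T 0x10000000000040000000040000000200000000000000000000004000000200000000008000000000000000000000000000000000 := rS 0x30db2dda3ebdb7668541a0a4d76fd62d196b354fce3640cd8231d6bd4a38333e44828f69b7c7efef6c0d02d1709f5ca1fefa64a6472ab1cdbe3f018004017eaa40a35d94ede2230d877267b03a4423a0f9922b1b7f7c4e02abda1e4140d1b969ec3b07a2cb275 (k8 c18354 c18352 c18350 c19585 c19847 c19865 c9904 c5435 (k8 c291 c5645 c2307 c5211 c5413 c2143 c959 c5506 (k8 c5421 c19866 c19871 c5588 c12878 c5558 c13457 c5432 (k8 c690 c12891 c4525 c2103 c9733 c499 c5474 c5649 (k8 c501 c6008 c5531 c5405 c19867 c5642 c19428 c10425 (k8 c17754 c5529 c726 c5343 c5562 c5563 c5530 c16230 (k8 c19599 c5539 c5566 c10249 c8113 c5380 c10690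 c5499 (k8 c14602 c5318 c2946 c2942 c2311 c5340 c5491 c5487 (k8 c5407 c610 c1922 c5437 c5434 c5319 c5316 c14406 (k8 c2574 c3610 c2998 c5689 c19876 c19875 c5635 c3455 (k8 c3220 c3395 c3015 c3014 c19833 c1771 c2110 c506 (k4 c2155 c3343 c5348 c3589 k0)))))))))))) (by decide +kernel)
def c19878 : PP 9 3 T 0x1000000000000001000210050004000040000000040000000200008000018080004000008000000000000000000000000040001400000010000010010008 := rS 0xdc0b3cba5158bdb7876ed1f5f66834149bf51886d57b47888ca309 (k8 c2237 c610 c9733 c499 c5211 c5413 c2103 c5434 (k8 c5635 c3220 c3395 c3015 c19833 c2110 c506 c1819 (k8 c10670 c3444 c5347 c5601 c17797 c19773 c3583 c5237 (k1 c5612 k0)))) (by decide +kernel)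
def c19879 : PP 9 3 T 0x10000000000040000000040000000200000000000000000000000000000200000000008000000000000000000000000000000000 := rS 0x59fe3afa3ba6090727c622ece0ff8fbee7f031cc00200e4dfda0f99212253239042255ac644cf837eec8f27b0ecec14512d0d5e21b06bd8762336a6553ed81b040e37d6815ea0ff7ede270155ed36259 (k8 c18352 c19824 c5211 c5413 c2143 c959 c5421 c5506 (k8 c19585 c1922 c6008 c5437 c5435 c5432 c5319 c10690 (k8 c5499 c5531 c5530 c5529 c9733 c19847 c19865 c291 (k8 c2103 c499 c501 c9904 c610 c5645 c5474 c4525 (k8 c690 c2307 c5649 c5405 c5407 c5487 c5491 c19866 (k8 c5343 c5558 c5340 c5562 c5563 c13457 c19871 c5588 (k8 c12878 c14602 c12891 c19867 c5642 c19428 c726 c10425 (k8 c5461 c16230 c17754 c19599 c19877 c19878 c19875 c3500 (k8 c3508 c2576 c4717 c505 c2109 c5628 c17937 c5659 k0))))))))) (by decide +kernel)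
def c19880 : PP 9 3 T 0x210000000000080000000040000000000000000000080000000000000000200000000008000000000000000000000000000004000 := rS 0x8543e31f7c3c95222f8bc6c237bd2e2c5bf4c4d62137ed541e1a1d9d828b41b06fb607efdbc4e02abda59fe32193a3f1a59 (k8 c18352 c5569 c5568 c5383 c307 c5510 c5349 c5211 (k8 c5413 c2143 c959 c5421 c5506 c10690 c5499 c291 (k8 c2103 c9904 c5645 c5474 c4525 c4554 c4514 c2214 (k8 c2213 c4577 c19866 c2314 c5172 c360 c1004 c5389 (k8 c918 c5558 c5557 c5635 c19425 c13457 c711 c6295 (k4 c17900 c3616 c2250 c5696 (k1 c3404 k0))))))) (by decide +kernel)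
def c19881 : PP 9 3 T 0x210000000000000000000040000000200000000000000000000000000000200000000008000000000000000000000000000000000 := rS 0x3a023018cbf93258218f3a67bccf3e124830740b7b84e229df6c0c72f507c4e02abda6c6dc59 (k8 c18352 c19879 c19824 c5211 c5413 c2143 c959 c19585 (k8 c1922 c5317 c10690 c5499 c5412 c9727 c5564 c19880 (k8 c693 c19865 c5645 c10368 c5456 c1536 c3795 c1647 (k8 c19829 c2480 c289 c12081 c11562 c10245 c10247 c5663 (k2 c1574 c263 (k1 c19848 k0)))))) (by decide +kernel)
def c19882 : PP 9 3 T 0x10000000000000000000040000000200000000000040000000000000000200000000008000000000000000000000000000000000 := rS 0xcc0493197c8b930431e74cf3cf84183a05c453bed818e5ea0ff7c4e02abda6c4961d8ed6343b7 (k8 c5421 c19881 c5212 c5341 c2177 c5342 c19824 c5211 (k8 c5413 c2143 c959 c5506 c19585 c1922 c5317 c10690 (k8 c5499 c5412 c9727 c693 c19865 c5645 c5456 c1536 (k8 c1647 c19829 c2480 c289 c11562 c5326 c10245 c10247 (k4 c13257 c5663 c19848 c1574 k0))))) (by decide +kernel)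
def c19883 : PP 9 3 T 0x10000000000000000000040000000200000000000000000000000000000200000000008000000000000000000000000000000000 := rS 0x187870be4d178ce964b8dfa23fe589bf6aa769105168360d7b0b43a538e91c2225ac0a74321f8d9edd1380edd56b3da7b41e59 (k8 c18352 c19585 c5499 c5211 c5532 c5413 c5421 c2143 (k8 c959 c19879 c5349 c5510 c307 c19881 c8199 c5212 (k8 c9666 c9667 c16855 c5341 c5563 c2177 c360 c19882 (k8 c291 c2103 c9904 c5645 c13457 c5474 c2214 c2213 (k8 c2314 c12878 c2311 c5172 c3190 c711 c5389 c6815 (k4 c5593 c17982 c19425 c967 (k2 c6295 c2250 k0))))))) (by decide +kernel)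
def c19884 : PP 9 3 T 0x28080110000500840000000200000000000010044400000000000000000000000100000001000000000000000000000000000000000800 := rS 0x10f933fb1a8ff914c8f19 (k8 c6815 c5562 c5563 c12878 c2311 c3190 c15208 c3616 (k2 c3125 c967 k0)) (by decide +kernel)
def c19885 : PP 9 3 T 0x100000000000000a8000000000000000000000000000000000000044010050000000000000000040000000000000000000000000000000000000000000000 := rS 0xfe55c5572a959add5efd (k8 c5405 c5406 c5533 c5532 c5531 c5415 c5414 c5413 (k2 c18003 c7319 k0)) (by decide +kernel)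
def c19886 : PP 9 3 T 0x8000110000000000080000000040000000200000400010080000000000000000000000000008000000000000000000000000000000000 := rS 0x24a9108d636f178daeef78bc4fd2fdaa83c3643f1b3ed3db03588281b3b849681e59 (k8 c18352 c19585 c9904 c4577 c5474 c291 c5645 c19883 (k8 c10690 c5499 c5211 c5349 c5510 c307 c4554 c4514 (k8 c2214 c2213 c5172 c2314 c1004 c918 c5554 c5557 (k4 c5635 c19885 c5212 c9667 (k2 c13457 c711 (k1 c19884 k0)))))) (by decide +kernel)
def c19887 : PP 9 3 T 0x200000000000000028000000000000000040000000000004000000014001000080000000000000000000000000000000000000001405400000000000000000 := rS 0x48c9b66d7d1fe30727aed56b95bbf70791 (k8 c5491 c5407 c5405 c5533 c5415 c5413 c5554 c5630 (k8 c5634 c17821 c505 c2109 c5659 c19874 c5351 c18028 k0)) (by decide +kernel)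
def c19888 : PP 9 3 T 0x190000000000000140000110050005500000000000040000000204180000208001000000000004400000000000008000000040001400550000000010000000 := rS 0x787ca3a7777dbeed6bf8b620200dd85b8775e121cbdfbacf69ed198fd823dd68141eb17cbecd265 (k8 c18353 c18347 c18357 c18351 c19883 c19585 c6008 c5437 (k8 c5436 c5319 c5318 c5316 c5499 c5211 c5532 c5599 (k8 c2906 c2587 c5687 c4913 c1352 c3472 c3603 c670 (k8 c5642 c19820 c5236 c5465 c5467 c5580 c17979 c3592 (k4 c19019 c5473 c5456 c5205 k0))))) (by decide +kernel)
def c19889 : PP 9 3 T 0x190000000000000040000110000000000000000000040000000200104400400080000000000000400000000001008000000000001400450000000010000000 := rS 0x85fde4d0f8dee71b81bfdf64b0dc9e92098b8492f0667c8a3e324524fbdfcb1d93c4461b55ed18723bdeaf124db37b6765a050341ef97d9a4ca59 (k8 c18352 c18353 c18347 c18357 c18351 c19585 c291 c5645 (k8 c9904 c5474 c5499 c5172 c5604 c2313 c5600 c696 (k8 c5351 c5348 c5211 c5413 c2103 c9733 c499 c5649 (k8 c19883 c15208 c5586 c5588 c503 c5551 c2311 c5491 (k8 c5487 c5407 c2588 c4577 c1004 c5695 c5676 c19835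 (k8 c3498 c5391 c5387 c5389 c5607 c5611 c17936 c19888 (k4 c3125 c3616 c5637 c3398 (k1 c5696 k0)))))))) (by decide +kernel)
def c19890 : PP 9 3 T 0x10000000000000000000110000000000000000200040000000200004400010080000000000000000000000000008000000000000000000000000010000000 := rS 0x5efdf0bb9860b2170fc3d1e0cbfd78ae462fb37b5e783c89052211db8988a298e8955a4358abfea498cfc8a6472adbf64f11186d564b05036133b2d03f6859 (k8 c18352 c5211 c19585 c9904 c5474 c4577 c291 c5645 (k8 c2588 c5413 c2103 c9733 c499 c5649 c19886 c5343 (k8 c5562 c5563 c12878 c5551 c5588 c19887 c5406 c19883 (k8 c2107 c5490 c5559 c5341 c8199 c503 c3582 c17812 (k8 c5558 c13457 c5340 c5491 c5407 c156 c5499 c5172 (k8 c5347 c5351 c5601 c5603 c3100 c19889 c3439 c2153 (k8 c2157 c3446 c3583 c17956 c5612 c3472 c5640 c3308 (k1 c5687 k0)))))))) (by decide +kernel)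
def c19891 : PP 9 3 T 0x20000000000000040000000010004000040800000000000000000100000000001000000000000000100000000000000000000001400140000008014000000 := rS 0x185dcaf7eebf164335e2b918bf0f47 (k8 c5624 c5512 c5347 c5351 c5601 c5603 c17926 c3583 (k4 c3100 c5640 c3308 c5612 (k2 c3472 c5687 k0))) (by decide +kernel)
def c19892 : PP 9 3 T 0x140000000000000000040400000004000000004100044000000000000000000000100000000000000000000001400140000048004000000 := rS 0x5efde1985d78b17e2f (k8 c592 c3100 c5652 c3270 c3472 c3595 c5640 c3308 (k1 c5687 k0)) (by decide +kernel)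
def c19893 : PP 9 3 T 0x110000000000000000200040000000200004400010080000000000000000000000000008000000000000000000000000010000000 := rS 0x126c49cd78011746c5a4cbd93e442bbb6e71b8192e92fb67c5d1f0f7f87c2fe1f5136dc8a498ca3d23f22991e3a112a8956e0558c24960a06ab55f8333e44862928dbf64f11186d57b49d9681ef97d9a4ca59 (k8 c18352 c18353 c18347 c18357 c18351 c19585 c9904 c5474 (k8 c5211 c5413 c2103 c9733 c499 c5649 c19886 c610 (k8 c8199 c2107 c5491 c5487 c5407 c5406 c5490 c291 (k8 c5645 c2588 c4577 c19883 c6008 c5533 c5559 c5343 (k8 c5558 c5341 c5562 c5563 c12878 c13457 c2311 c5551 (k8 c5588 c503 c17812 c3582 c19887 c19890 c5629 c5515 (k8 c5511 c5512 c5624 c1003 c19891 c19423 c5222 c5391 (k8 c5607 c5611 c17936 c3603 c3192 c19892 c524 c697 (k8 c5661 c3271 c2359 c6191 c670 c593 c9719 c5610 (k2 c3616 c3305 k0)))))))))) (by decide +kernel)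
def c19894 : PP 9 3 T 0x20000000000000000000000000000000000000000400000000000000000000001000000001400000050000000000000000000000020804 := rS 0x1bcd6b3 (k4 c5532 c2306 c2746 c18007 k0) (by decide +kernel)
def c19895 : PP 9 3 T 0x1000000000089000110040000000000000000000000000200200000000000000000000000000000000000000104000000000000000000000000000008 := rS 0xc201 (k2 c28 c10425 (k1 c18690 k0)) (by decide +kernel)
def c19896 : PP 9 3 T 0x110000000000000000100040000000200000400010080000000000000000000000000008000000000000000000000000010000000 := rS 0xc8ef0d5a2cf6aa4dbc09c96c4048147840271c69917dee148925c7e17f2d4e3f2db1ce2a9954acfdb030c8cc7e3166bccf6073c8281a374b85d5efdd93c4461b55ed2765a0790cca59 (k8 c18352 c18353 c2107 c19585 c9904 c5474 c5211 c5413 (k8 c2103 c9733 c499 c5649 c5405 c5406 c5433 c19357 (k8 c5435 c291 c5645 c2307 c5432 c690 c156 c19804 (k8 c5434 c5318 c5316 c5315 c10690 c5499 c5532 c5531 (k8 c5530 c5414 c19419 c5212 c5221 c5571 c5422 c18003 (k8 c17771 c5549 c5588 c5589 c5591 c5586 c503 c15747 (k8 c5658 c299 c2160 c2312 c699 c19894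 c19820 c19895 (k8 c5438 c17983 c261 c3003 c2565 c19830 c553 c5688 (k2 c9863 c5494 k0))))))))) (by decide +kernel)
def c19897 : PP 9 3 T 0x110000000000000000000040000000200000400010080000000000000000000000000008000000000000000000000000010000000 := rS 0x45be558050341e59 (k8 c18352 c19585 c291 c5645 c19896 c12878 c19893 c5593 k0) (by decide +kernel)
def c19898 : PP 9 3 T 0x80000000000000060000000000000000000000000040000000000100000010081000000000000000100000000008000020000080000000000001010040010 := rS 0x2130045211ac7bc8afe24ab55fb20daae7643 (k8 c2107 c5474 c5413 c2103 c5649 c5406 c5490 c5588 (k8 c15208 c503 c5586 c19866 c5558 c5339 c667 c3582 (k2 c5642 c267 k0))) (by decide +kernel)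
def c19899 : PP 9 3 T 0x4002000000000028000200000000000000000000000000000000000400008000000140044040000100000001000005000000000000000000000000000000 := rS 0xfee36a2ad32813ea3fc68b (k8 c18350 c17754 c5568 c5566 c5380 c5530 c5413 c18040 (k2 c2574 c2998 (k1 c3610 k0))) (by decide +kernel)
def c19900 : PP 9 3 T 0x41000000000000000000000000000000000000000400040000000100200040000440000001400115000002000000000000000000000000 := rS 0x50b8cfe8b (k4 c18350 c2998 c1663 c3000 (k1 c19832 k0)) (by decide +kernel)
def c19901 : PP 9 3 T 0x4000000000000008000210040000000000800000040000000200004401000000000000000040000000000001000000000000001502010000000000010a08 := rS 0x31518c4defeba526ead87e03c8dcf607 (k8 c5432 c690 c5435 c2307 c5669 c5348 c5600 c5604 (k4 c17797 c7334 c696 c2313 (k2 c19873 c5676 (k1 c2639 k0)))) (by decide +kernel)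
def c19902 : PP 9 3 T 0x400000000008001010000000000000400000040000000000000001000000005000008000000000400400000000000000000000000000000000000000 := rS 0x6db67caa4823770ea3f8c1dd2bbdc7d13aab5ca6552b7da3f70791 (k8 c5491 c5407 c5405 c5211 c5533 c5531 c5530 c5415 (k8 c5413 c5412 c5222 c5213 c5554 c5555 c5634 c17821 (k8 c5614 c5429 c1818 c3624 c3621 c17955 c3340 c3380 (k1 c5690 k0)))) (by decide +kernel)
def c19903 : PP 9 3 T 0x5000000000000000000210040000000000000000040000000200004400008090000000008040000000020000000000020000081502410000000010010200 := rS 0x2f7ef858c294576f5fee7037f92e903f675bc270667c8eddce9b72f7d33e348a9cc0351df80f2373d8281a07010040a0fd93c4461b55ed276f97d9a4ca59 (k8 c18352 c18353 c18347 c18357 c18351 c5474 c5211 c5413 (k8 c2103 c9733 c499 c5649 c19585 c6008 c667 c5642 (k8 c5432 c291 c5645 c690 c5435 c2307 c5669 c5456 (k8 c501 c19428 c4324 c13457 c17754 c5530 c16230 c5539 (k8 c5536 c5461 c19230 c5491 c5487 c5407 c4577 c5533 (k8 c19901 c19598 c19902 c5391 c5389 c5607 c17936 c3102 (k8 c2213 c1115 c7364 c19875 c1201 c5641 c3309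 c5687 k0))))))) (by decide +kernel)
def c19904 : PP 9 3 T 0x10000000000000000200040000000200000400010080000000000000000000000000008000000000000000000000000010000000 := rS 0x5ba4716500213ec96b3559ccb300d7c7df738efc0e163b7cee512434dfc44f789f620200a4726532390452112ac5532a959fb60619198fdea7b039e4140d1ba5c2e9518bf7079121a04267d47edc4aaf338155b1d381bd1a73d02c764f11186d57b49d9681e652ca273069 (k8 c18347 c18346 c18356 c18352 c18353 c19585 c9904 c5474 (k8 c5211 c5413 c2103 c9733 c499 c5649 c19883 c19897 (k8 c5379 c5381 c5565 c17895 c2159 c5490 c6008 c5487 (k8 c5406 c14996 c19230 c5568 c5566 c5564 c5380 c2107 (k8 c5491 c5407 c5405 c5434 c10191 c5433 c19357 c5435 (k8 c291 c5645 c2307 c5432 c690 c1922 c5318 c5316 (k8 c5315 c10690 c5499 c5532 c5531 c5530 c5414 c5343 (k8 c5558 c5339 c5340 c5562 c5563 c12891 c13457 c667 (k8 c5642 c19820 c267 c17816 c3582 c9179 c2936 c503 (k8 c3799 c14407 c2946 c798 c10249 c5669 c5456 c5461 (k8 c16230 c17754 c501 c19428 c1755 c19899 c19900 c5689 (k8 c2189 c1605 c9863 c5680 c19903 c3077 c19878 c603 k0)))))))))))) (by decide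 +kernel)
def c19905 : PP 9 3 T 0x41000000000000000000000000000000000000000400000000000500000040000400010001400115000002000000000000000000000000 := rS 0x7e (k2 c19832 c729 k0) (by decide +kernel)
def c19906 : PP 9 3 T 0x4000000000061000200000000000000000000000000000000000000000000000100000040000000010001000005000002000000000000000000000000 := rS 0xe24f26567133ea3d9681 (k8 c5380 c1755 c5568 c5566 c5382 c5532 c5530 c5680 (k2 c19905 c1607 k0)) (by decide +kernel)
def c19907 : PP 9 3 T 0x8000210000000000000000000040000000200000000000081000000000000000000000000000000000000000000100000010010010008 := rS 0x219605a46abc364356c76b0251384f6e59449751665 (k8 c18353 c18350 c17796 c18356 c18352 c19230 c5564 c267 (k8 c1114 c5651 c5341 c5490 c5252 c1109 c5406 c5381 (k4 c8187 c3582 c2101 c19883 k0))) (by decide +kernel)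
def c19908 : PP 9 3 T 0x8000210000000000000000000040000000200008000018080004000008000000000020000000000000000000100200010000010010008 := rS 0x16e91e0ccf91d8954a793ac0a432251384f6fed (k8 c5543 c19230 c5564 c267 c1114 c5315 c1195 c5651 (k8 c12891 c5563 c5343 c5398 c5491 c5487 c5407 c3077 (k2 c19878 c603 k0))) (by decide +kernel)
def c19909 : PP 9 3 T 0x4000000000000008000210000000000000000000040000000200000000000000000000000000000200020000000000000000000002000000000010010008 := rS 0xbc29456e9bdee71381d4e3f164cd259e2e082dc2488f67f40debed0f145c435671a94ed643c046f137ee0f22016aabcee5f3398caa539db1cda7b6f8ffe68148835e60a07b45ce9b66b97bfe03c98082cbd89bd3fe370c572758148644a2709edd32abda3e5f66932b150a833ae60b28b (k8 c18350 c18352 c18346 c18354 c18355 c18349 c18348 c18353 (k8 c18347 c18357 c18351 c5211 c5413 c5530 c19230 c5564 (k8 c267 c1114 c5315 c1195 c5651 c12891 c5414 c3060 (k8 c5578 c100 c5565 c5398 c200 c5340 c18420 c1577 (k8 c19613 c16230 c5539 c5537 c5536 c5461 c5459 c19585 (k8 c10368 c2530 c293 c13457 c5380 c5588 c5318 c2946 (k8 c15912 c5529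 c726 c17561 c5563 c5343 c9752 c5487 (k8 c1121 c11141 c5406 c3000 c28 c5491 c5407 c5405 (k8 c5382 c5435 c2143 c19883 c1198 c4120 c17838 c3607 (k8 c1763 c1769 c4756 c2305 c5543 c2339 c2634 c1770 (k8 c5657 c13257 c4783 c2101 c18481 c19908 c19901 c19902 (k8 c19595 c5390 c5608 c5388 c5607 c5610 c17936 c3215 (k4 c2356 c1115 c7364 c3611 (k1 c731 k0)))))))))))))) (by decide +kernel)
def c19910 : PP 9 3 T 0x8000210000000000000000000040000000200000000000001000000000000000000020000000000000000000002000000000010010008 := rS 0x17974ded4a2b266e71381d4e3f161ed21aace878b9454f097b021fcf5f6b25c4ce6b0d602d33f110e0b1efb9536e779a44f7e005035bff355aa566331f81c6237079cd028d89a5dfb8333e4403e36aabdc31521ab4ab1d29cefde1b639b4f26020b2f626fc9d604a2709edc52194fa6768f97d9a4cb9844a14b28b (k8 c18350 c18352 c18349 c18356 c18346 c18353 c18347 c18357 (k8 c18351 c5211 c5530 c100 c5315 c1195 c19230 c5564 (k8 c267 c1114 c5651 c12891 c5565 c5398 c200 c5340 (k8 c18420 c1577 c5529 c726 c1109 c17816 c17561 c5563 (k8 c5341 c5343 c5490 c5252 c5414 c3060 c5406 c3000 (k8 c5578 c28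 c5491 c5487 c5407 c5405 c5404 c5382 (k8 c5381 c5380 c5379 c19585 c5435 c5434 c5432 c5318 (k8 c5316 c5532 c5531 c5413 c5588 c2946 c293 c10368 (k8 c19613 c15912 c13457 c2530 c5461 c5536 c5539 c16230 (k8 c19909 c17895 c3582 c2929 c2936 c3067 c19606 c5689 (k8 c18040 c1769 c2189 c5543 c2339 c10438 c9863 c5657 (k8 c4783 c4324 c3799 c19908 c19904 c19901 c17838 c19902 (k8 c2305 c5390 c5608 c5388 c5607 c5610 c17936 c19595 (k4 c1115 c7364 c3215 c2356 (k2 c731 c3611 k0))))))))))))))) (by decide +kernel)
def c19911 : PP 9 3 T 0x8000210000000000000000000040000000200000000000000000000000000000100020000000000000000000001000000001010000008 := rS 0x79079ebedf9b3877e06f9edeed33f110e02355c5442991f8dce68d47bf7c6d55790d5a4759c74973bf7bc436c73010597b137e4eb02709edc52194f9b7699844994b28b (k8 c18350 c18352 c18353 c18356 c18346 c5211 c5529 c100 (k8 c5315 c1195 c19230 c5564 c267 c5651 c12891 c5565 (k8 c5398 c200 c5340 c18420 c726 c1109 c5401 c17816 (k8 c17561 c5342 c5341 c5532 c16855 c5490 c5252 c5406 (k8 c3000 c5578 c5405 c5568 c5381 c5379 c5435 c5318 (k8 c5530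 c5528 c5414 c5413 c9733 c17895 c3582 c2929 (k8 c2936 c503 c19593 c14796 c10425 c5456 c18040 c19019 (k4 c5543 c2339 c19604 c5657 (k1 c2532 k0))))))))) (by decide +kernel)
def c19912 : PP 9 3 T 0x40000010040000000000000000040004000200000000001040000000010000000000020000404004400002000001000000005000000000 := rS 0x1e41e7afb7e6ce1df81be238a8dc8eb320d605219639b4f299da660ea85 (k8 c18349 c18354 c18346 c5211 c5530 c1577 c5529 c726 (k8 c5315 c1195 c5651 c5340 c5532 c16855 c5435 c5414 (k8 c9733 c14796 c10425 c5456 c17952 c19019 c5543 c2339 (k2 c19604 c5657 (k1 c2532 k0))))) (by decide +kernel)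
def c19913 : PP 9 3 T 0x40000000000000000000000000200001000000000000000000000000400020000000008000000000004400000001500000008 := rS 0xf02dc7e11f81c5219 (k8 c5315 c1195 c5432 c5318 c5457 c17695 c690 c15695 (k1 c1112 k0)) (by decide +kernel)
def c19914 : PP 9 3 T 0x8000210000000000000000000040000000200000000000000000000000000000000020000000000000000000000000000000010010008 := rS 0x223d8f6d16421d6060c9cec9641ac11cee491497f62cb4f88d571510acf681937a3de2fd33edcc6251384d1659 (k8 c18352 c18350 c5564 c267 c1114 c9752 c19230 c5487 (k8 c5405 c5401 c5568 c5565 c5315 c5211 c5532 c5528 (k8 c5414 c5413 c9733 c100 c200 c5398 c1121 c1195 (k8 c19910 c11141 c16855 c5651 c5340 c5342 c17561 c12891 (k8 c18420 c19911 c19883 c1197 c2133 c19913 c19912 c19907 (k1 c503 k0)))))) (by decide +kernel)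
def c19915 : PP 9 3 T 0x60000200000000000000000000000000000000000000040000000100000000000040010001000005000042000000000000000000000000 := rS 0xf13558e77d89b5668146c4cfa8f62a2cea89 (k8 c18356 c18354 c18350 c18348 c5568 c5566 c5382 c5381 (k8 c5380 c5532 c5529 c5445 c724 c726 c19900 c19906 (k1 c17987 k0))) (by decide +kernel)
def c19916 : PP 9 3 T 0x10040000000000000000000000000000000000000080000000000000000000000000000005000000000000000020000000000000 := rS 0xc7f0b387485 (k4 c18349 c501 c502 c5456 (k2 c2560 c5669 k0)) (by decide +kernel)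
def c19917 : PP 9 3 T 0x200000000000001000000001180000000000000000000000801000000000010000004000800 := rS 0x3be954bec7665e4d00b2675 (k8 c18354 c5357 c2306 c2482 c2483 c19428 c5397 c1232 (k2 c1518 c19294 (k1 c5678 k0))) (by decide +kernel)
def c19918 : PP 9 3 T 0x200000000000001000000001080000000000000000000000801000000000010000004000800 := rS 0x320bc65 (k4 c18353 c2483 c19917 c1117 k0) (by decide +kernel)
def c19919 : PP 9 3 T 0x4000200000000000001000000000000000000000000000000000000800000000010000004000010 := rS 0x3802d980526c91985cb265 (k8 c18353 c18352 c5433 c5316 c1117 c1517 c1054 c17910 (k2 c5642 c5649 (k1 c263 k0))) (by decide +kernel)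
def c19920 : PP 9 3 T 0x40000000000000000000004000200000000000001000000000000000000000000000000000001000000000010000004000008 := rS 0x6cc3a59 (k4 c18352 c263 c19428 c5649 k0) (by decide +kernel)
def c19921 : PP 9 3 T 0x8000210000000000000000000000000000000000000000000000000000000000000000000000000000000000000000000000000010806 := rS 0x2c1fa73469bd53b4a59c73089 (k8 c18356 c18346 c667 c5516 c5211 c5531 c5565 c5381 (k4 c5379 c5405 c17895 c19601 k0)) (by decide +kernel)
def c19922 : PP 9 3 T 0x200100000004000000040420000000000000000000000000000000000150010000000000000 := rS 0x1aad3198fc623d (k4 c5436 c5434 c5318 c5316 (k2 c2136 c1711 (k1 c3588 k0))) (by decide +kernel)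
def c19923 : PP 9 3 T 0x2400000000041000200000000000000000000000000000200000000000000000000000400002000000001000001000000000000050010000020000000 := rS 0xd3f727943e34decd9233 (k8 c5316 c2061 c5486 c5536 c17754 c1199 c5680 c5196 (k2 c2883 c14662 k0)) (by decide +kernel)
def c19924 : PP 9 3 T 0x41000200040000000000000200000000000200000000001000000040000000002001000101000005000008000000040010000020010000 := rS 0x80a1fd8c6f0b45afdf3b198b51d20a36261347e7766c919a5d96737f9155e59449751669 (k8 c18347 c18350 c17796 c18356 c18352 c1248 c336 c2572 (k8 c5379 c1322 c1229 c5316 c2061 c5486 c19356 c5568 (k8 c5564 c5382 c5381 c5340 c5341 c8187 c1994 c777 (k8 c5493 c2187 c19922 c19923 c5669 c18871 c799 c5502 (k1 c18848 k0))))) (by decide +kernel)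
def c19925 : PP 9 3 T 0x41001400000000001000200000000000000000100040000000200000000000000000040000000000001000140000000000000000002050010000020010000 := rS 0x13a8efbe06d36bb4366c919a2cb25d (k8 c17796 c18352 c18350 c5316 c2061 c5486 c18871 c9339 (k4 c2136 c2201 c14662 c514 (k2 c5171 c12681 k0))) (by decide +kernel)
def c19926 : PP 9 3 T 0x400000000000000200000000000000000100000000000200000000000000000000000000002000000000000000000408000000000010001020010800 := rS 0x2b8cdef7fbf60287f631bc28d89a3f67f323a65e6f554e4f62973db7c8641659e46e482589b6e2901887699d889cd234b07835068544994d259 (k8 c18352 c18347 c18353 c18356 c18349 c18355 c34 c19585 (k8 c5516 c13457 c5379 c1340 c19356 c17733 c5528 c263 (k8 c9694 c5422 c5651 c353 c9106 c5435 c2307 c1322 (k8 c350 c2001 c2515 c888 c1229 c5395 c5355 c5531 (k8 c1998 c333 c5530 c2346 c5548 c5486 c5568 c5382 (k8 c5381 c19923 c5669 c19925 c5499 c5502 c5542 c5544 (k4 c19742 c18014 c12826 c1248 k0))))))) (by decide +kernel)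
def c19927 : PP 9 3 T 0x4000000000000040000000000000000000000100040000000000201000002000000000000000002000000000000000000000000004100000010400000000 := rS 0x1ec (k2 c18411 c5542 k0) (by decide +kernel)
def c19928 : PP 9 3 T 0x200000000000000000100000000000200000000000000000000000000002000000000000000000408000000000010001020010800 := rS 0x7e4708a879d16fde67699dfbc23d9c55524325887699d889044db71480d9673a5a0cca8534a2cb25d (k8 c17796 c18352 c18350 c18347 c18349 c18353 c18355 c5516 (k8 c5379 c1322 c263 c9694 c5422 c5651 c350 c1340 (k8 c19356 c17733 c5528 c353 c2001 c5531 c204 c5486 (k8 c9733 c19926 c5493 c5496 c777 c14662 c1994 c5229 (k4 c692 c5326 c12681 c18014 (k1 c19927 k0)))))) (by decide +kernel)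
def c19929 : PP 9 3 T 0x200000000000000000100000000000200000000000000000000000000002000000000000000000408000000000010001020000800 := rS 0x103f6bf10e678096cef3af7b4dc6d5f1a78fcaf381142048a5a347e3dd9b2466995490c9621da6762241136dc5203659cd0665429a51659 (k8 c18352 c18350 c18347 c18349 c18353 c18355 c5379 c1322 (k8 c263 c9694 c5422 c5651 c350 c1340 c19356 c17733 (k8 c5528 c353 c2001 c5531 c5530 c5316 c2061 c5486 (k8 c5436 c5318 c5381 c5516 c9106 c19928 c2966 c2858 (k8 c4923 c781 c782 c5577 c2998 c1607 c2883 c14662 (k8 c5229 c10131 c5474 c17951 c777 c692 c18014 c5542 (k2 c2632 c13257 k0))))))) (by decide +kernel)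
def c19930 : PP 9 3 T 0x45000000000000020000210040000000000000000080000000200000000040000000000000400000000000000000000020008000000150000000000000000 := rS 0x11cef3ffc6d7f09f9c0c61dbdc9247198f76200 (k8 c19421 c9578 c5436 c5316 c5520 c5334 c5333 c5332 (k8 c15205 c14640 c781 c5535 c1721 c5577 c4943 c5204 (k2 c17979 c6335 k0))) (by decide +kernel)
def c19931 : PP 9 3 T 0x44000000000000020000200000000000000000000080008000200000100002000000000000100000000000000000000040008000004000000008000000400 := rS 0x257bece68b1c18917f470227120b35967b4ba36263b7b8ddebedd9aa5324379e7606af228e76393038cc6a5b2b8c4ea8b2c974d2c5 (k8 c18348 c18347 c17796 c18352 c18350 c18354 c5476 c5313 (k8 c5474 c5324 c5316 c5432 c10897 c9578 c5317 c5326 (k8 c2986 c2632 c18477 c5325 c5478 c5530 c135 c5405 (k8 c5542 c5519 c5518 c5333 c5332 c5382 c5381 c1229 (k8 c888 c1322 c13053 c350 c19930 c2858 c12681 c6335 (k8 c3008 c17945 c2480 c8113 c3587 c17847 c1587 c5678 k0)))))) (by decide +kernel)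
def c19932 : PP 9 3 T 0x44000000000000020000200000000000000000000080008000200000100002000000000000000000000000000000000040000000004000000008000000402 := rS 0x463a710e90590cb3164f62071995fda431a96c639d81abc8a8b2c9758a75 (k8 c18354 c18348 c17796 c18352 c18350 c5326 c2986 c2632 (k8 c18477 c5476 c5474 c5324 c5478 c5542 c5313 c5316 (k8 c5432 c9578 c10897 c16365 c1322 c19931 c350 c2061 (k4 c19930 c351 c2858 c12681 k0)))) (by decide +kernel)
def c19933 : PP 9 3 T 0x40000000000000022000200080000000000000000000000000000000100000000000040000000000000000000000000011404000000000000000000000000 := rS 0xe13d78d94796397d029d4ca7d3661 (k8 c5445 c5397 c5448 c5530 c5412 c5380 c5439 c5357 (k4 c5441 c12830 c12178 c3598 (k2 c1718 c15912 k0))) (by decide +kernel)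
def c19934 : PP 9 3 T 0x2000200000000000000000000000000000000200000000000000000000000000040000000000000000040000000008000000000000002 := rS 0x4b9dcbed604a342695349958a75 (k8 c18354 c18348 c18353 c18347 c5446 c5564 c5381 c275 (k4 c406 c1055 c2187 c1768 (k1 c18020 k0))) (by decide +kernel)
def c19935 : PP 9 3 T 0x10040000000000000000000000000000000000000000000440000040000000000000000014000000000005414440000000000200 := rS 0xe5c23d (k4 c1512 c10249 c274 c3590 k0) (by decide +kernel)
def c19936 : PP 9 3 T 0x2200000000000000400000000000000100000000000000100000000004000000000000000040000000000000000000000000000200 := rS 0x3075be590e3e4a81939f71ba9 (k8 c17686 c5569 c5566 c5383 c5380 c5391 c5608 c5606 (k4 c17984 c1514 c277 c5656 k0)) (by decide +kernel)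
def c19937 : PP 9 3 T 0x2000200040000000000400000000000000100000000000000104000000004014000001000000040000000000000000000000000000200 := rS 0x2eb71e4d2a8d3699 (k8 c5447 c5397 c5449 c19936 c5217 c5213 c17955 c5430 k0) (by decide +kernel)
def c19938 : PP 9 3 T 0x2000000000000000800000000008000000400000000000000000000000000000000000000000000000000000000000000000000000 := rS 0x16e8faf7d964baf9 (k8 c18351 c17796 c18352 c18357 c5603 c5327 c5474 c9962 k0) (by decide +kernel)
def c19939 : PP 9 3 T 0x20000000000000000000000000000000000000000000000000000000000080000000000000000000000000000000000220000040800002 := rS 0x7e99d0e1a0eb44d6a9419950a69 (k8 c18347 c18349 c18353 c18355 c5531 c1058 c4252 c3682 (k4 c1620 c799 c664 c1075 (k1 c18014 k0))) (by decide +kernel)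
def c19940 : PP 9 3 T 0x8000000000020000000000000000000800000080008000000000000000000000000000004000000000000000010040000800000000000008000000002 := rS 0x77955838ec2de6f9a5c0ddf7253d68af57238f905da3f7598c7a08 (k8 c1055 c1512 c89 c5581 c5576 c5467 c5462 c9712 (k8 c5351 c5600 c5601 c5602 c5605 c17701 c669 c1062 (k8 c19938 c5667 c814 c1349 c1365 c278 c356 c1561 (k1 c3592 k0)))) (by decide +kernel)
def c19941 : PP 9 3 T 0x8000000000000000200000000000000000000000000000000000000000000000000000000000000000000000000040000800100000200008000000002 := rS 0xbd5e713f5f239b4b6761e2cfaedd8274f74af0e4d72b79d0d7686b8898cda0b0380f3a0c6307d37290b77dae8d699fc6631041d4b28b (k8 c18350 c18352 c18354 c1055 c1508 c271 c5577 c5579 (k8 c5381 c5465 c17880 c1054 c5433 c3972 c2472 c274 (k8 c273 c5522 c28 c1451 c2471 c665 c89 c796 (k8 c1058 c5665 c19939 c5653 c5533 c5415 c5439 c5534 (k8 c5215 c4242 c8792 c10372 c5467 c5566 c2655 c597 (k8 c19940 c19936 c19937 c5217 c5633 c3256 c5619 c5676 (k1 c802 k0))))))) (by decide +kernel)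
def c19942 : PP 9 3 T 0x100008000000000040001000040100000000400100000000000100000000000000000000000080400000144000000000000000000000000000018000002000 := rS 0x2438a915ef08bdbcbbd4fb8f204f40cb76a85d79d (k8 c5522 c5581 c5578 c5467 c5464 c5212 c5564 c5217 (k8 c5213 c5470 c5473 c5619 c5617 c3622 c802 c19799 (k2 c5676 c310 (k1 c2656 k0)))) (by decide +kernel)
def c19943 : PP 9 3 T 0x8000000000040000000000000000000000100000000000000000000000000000000000000000000000000000000000000800000000200000000000002 := rS 0x5ddedc8e76160717a4bbafefa2dc4fd6ce50132dc42b9da4473a6d35b19220c0587c76738f8a5da3f3fb7cc7930380d3ea54dca47a7dd028c1016 (k8 c1054 c1055 c4165 c5212 c5566 c1512 c5433 c3972 (k8 c3974 c1522 c28 c1451 c5439 c89 c5580 c5577 (k8 c5576 c5467 c9694 c9712 c19419 c154 c2472 c2471 (k8 c273 c17865 c274 c1058 c665 c5522 c796 c5665 (k8 c5415 c5528 c5533 c17914 c19941 c5350 c5552 c2409 (k8 c362 c19423 c3101 c670 c19942 c5390 c5607 c19936 (k4 c1724 c598 c803 c2524 (k1 c3605 k0)))))))) (by decide +kernel)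
def c19944 : PP 9 3 T 0x8000000000060002010000000000000400100000000000000000000000000000000000000000000000000000000000000800000000000000040000002 := rS 0x9c4a4a248dd68e1059358f7a5dddc542d27b9d8589c0e2c264171bb47e7fc9a4d3f291e9f4f6081cae442b7f9b2dbfb0508ed3a16239ad6629019b623a0078162b7d (k8 c19423 c5414 c53 c9739 c5212 c5411 c5529 c28 (k8 c9694 c5532 c1058 c12800 c1054 c5412 c1676 c5578 (k8 c10372 c5580 c5464 c17766 c5533 c5528 c5415 c19943 (k8 c1055 c4242 c5566 c1512 c5433 c1522 c1517 c5439 (k8 c5577 c5576 c5467 c5466 c5462 c5564 c5390 c5607 (k8 c5610 c19936 c1724 c520 c358 c1795 c670 c1103 (k8 c3605 c803 c3215 c697 c10249 c19431 c1798 c10368 (k4 c3590 c1094 c353 c5651 k0)))))))) (by decide +kernel)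
def c19945 : PP 9 3 T 0x8000000000060000010000000000000400100000000000000000000000000000000000000000000000000000000000000800000000000000040000002 := rS 0x1c2b58d45fef19fae11ccbb5eafddea761ee3c9a571bb4feebc9a7cfba052a6e52a3040593b155cacd6ff365b7f60a1 (k8 c5578 c10372 c5580 c5464 c17766 c5533 c5532 c5415 (k8 c5414 c5412 c1054 c1055 c4165 c5433 c3972 c3974 (k8 c5212 c5566 c1522 c5439 c5581 c5577 c5467 c5466 (k8 c19944 c5217 c5213 c5468 c5470 c5473 c5431 c5617 (k8 c5430 c19937 c3622 c5633 c3505 c5638 c3452 c5697 (k2 c2691 c3133 (k1 c5920 k0))))))) (by decide +kernel)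
def c19946 : PP 9 3 T 0x20001000000001004000800000000000000100000000000000008000000000000000000000000000000000800000000500000000000200 := rS 0x6e6fb4a1ba9fc29d (k8 c5412 c5461 c1728 c4168 c5654 c1364 c17701 c5667 k0) (by decide +kernel)
def c19947 : PP 9 3 T 0x8000000000060000010000000000000000100000000000000000000000000000000000000000000000000000000000000800000000000004040000002 := rS 0x16ac7122405203719ff269f3ee83e6cb6fec1426b (k8 c1058 c5578 c10372 c5580 c5464 c17766 c5212 c5566 (k8 c1522 c5439 c5577 c5466 c28 c9694 c17914 c5651 (k2 c800 c1094 (k1 c19431 k0)))) (by decide +kernel)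
def c19948 : PP 9 3 T 0x8000000000060001210000000000000800000000000000000000000000000000000000000001000000000000000000000800004000100000040000002 := rS 0x2ac662ebc925f0e1b90593c929106c6e94c67038cff934f9f537f365b7f60a1239ad6629019b6220f02c54a3232694dcf8115ddf563b4eca42c08 (k8 c1055 c1054 c5433 c5412 c1676 c5600 c669 c5601 (k8 c1062 c19946 c5605 c5604 c5351 c5350 c5414 c53 (k8 c9739 c5411 c5529 c28 c9694 c5532 c1058 c12800 (k8 c5578 c10372 c5580 c5464 c17766 c3972 c5566 c1522 (k8 c5439 c5577 c5466 c5920 c19431 c17886 c3134 c2480 (k8 c800 c5334 c5335 c5516 c17701 c13576 c5667 c985 (k4 c986 c3078 c3310 c3304 (k1 c3596 k0)))))))) (by decide +kernel)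
def c19949 : PP 9 3 T 0x8000000000060001200000000000000800000000000000100000000000000004000000080000000000000000000000000000004001500000040000002 := rS 0x464ab175e492377c38383720b2792694911b837c25720b8c7e7f6fadc8e6b598a4066d8883c0b1528c8c9a53bbeaf022b (k8 c5601 c1062 c5600 c669 c5605 c5604 c5351 c5350 (k8 c5414 c53 c9739 c5411 c5529 c28 c9694 c5532 (k8 c1058 c12800 c5533 c5580 c5577 c5576 c5466 c5462 (k8 c9758 c5535 c2480 c2326 c800 c5654 c5334 c5335 (k8 c5516 c17701 c17954 c13576 c5667 c3134 c985 c986 (k4 c3078 c3304 c3309 c3596 k0)))))) (by decide +kernel)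
def c19950 : PP 9 3 T 0x8000000000000000000000000200000800000000000000000000000000000000000000000000000000000000010000000801000000000000000000200 := rS 0x1dec1c75e482ed1fbacc63d61c8f5a53 (k8 c5605 c5602 c5351 c5348 c1512 c89 c5581 c5576 (k4 c5467 c5462 c814 c1365 (k2 c278 c1561 (k1 c3592 k0)))) (by decide +kernel)
def c19951 : PP 9 3 T 0x8000000000020001000000101044000800000000000000000000000000000000000000000000000000000000012000400805000000000000000000200 := rS 0x60bbf1d8a5dee2fa41768fdd63d88ae4dab761c8f5a53 (k8 c5605 c5602 c5351 c5348 c5533 c5529 c5415 c5411 (k8 c1512 c5581 c5576 c5467 c5462 c19950 c5667 c5430 (k4 c3605 c2659 c1561 c3242 (k1 c3592 k0)))) (by decide +kernel)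
def c19952 : PP 9 3 T 0x1000000001004000000000000000000000000000000000000000000000000000000000000000040000002000000000008000000000 := rS 0xdcdf45984 (k4 c356 c355 c1349 c5612 (k1 c5667 k0)) (by decide +kernel)
def c19953 : PP 9 3 T 0x8000000000060001010000000000000000100000000000000000000000000000000000000000000000000000000000000800000000000000040000002 := rS 0xbce3f15e5742ed4fb83cdf4ab89bdb9415e02452dc2c75a39ce6132b83c0a2901905c63f6fe4d4a9b1e9f741a994a8cf6084cec073115c9b56e3b4e858d64dbbeaf022bb312c4c21 (k8 c5528 c19947 c353 c19945 c5601 c1062 c5600 c669 (k8 c5604 c1058 c1054 c5412 c1676 c5533 c5529 c5415 (k8 c5411 c19943 c10372 c5447 c1055 c4242 c4165 c5433 (k8 c17686 c5212 c5566 c1512 c3972 c3974 c5439 c5580 (k8 c5576 c5466 c5462 c28 c9694 c53 c9739 c9758 (k8 c5564 c19419 c19946 c19948 c19949 c10249 c17954 c9106 (k8 c5215 c10368 c5539 c696 c2313 c19952 c19950 c19951 (k8 c5667 c5428 c5430 c3621 c17955 c3605 c1559 c816 (k1 c5671 k0))))))))) (by decide +kernel)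
def c19954 : PP 9 3 T 0x8000000000060000010000000000000000100000000000000000000000000000000000000000000000000000000000000800000000000000040000002 := rS 0x491bb1c16f5433f4ce1a7b875a2349de909626b304cfb1f20b8c7edfefb5d1ad33fe4d2729198c4f60855885523b4e8588e6b598a4066d88e801e058aa0cd265429d4b28b (k8 c18350 c18352 c18354 c18349 c18353 c18347 c18355 c5414 (k8 c53 c9739 c5212 c5411 c5529 c28 c9694 c5532 (k8 c1058 c12800 c1054 c5412 c1676 c5531 c5528 c5413 (k8 c1055 c4242 c1508 c271 c5433 c1517 c5439 c5577 (k8 c5579 c5381 c5465 c17880 c5580 c5576 c5466 c5462 (k8 c9712 c5566 c5564 c19945 c19947 c353 c19953 c19938 (k8 c5653 c4252 c331 c501 c1620 c664 c1075 c3601 (k4 c1922 c693 c799 c1622 (k2 c10368 c19935 k0))))))))) (by decide +kernel)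
def c19955 : PP 9 3 T 0x8000000000060000000000000000000000100000000000000000000000000000000000000000000000000000000000000800000000000000040000002 := rS 0xcc67c00ecd5f7382774a258dfc226f6eccf29143e70d68146c4d1e41718fcfed36fca47a083ee8072211da742c8942a0d8a75 (k8 c18354 c18348 c18355 c18349 c18356 c1054 c5412 c1676 (k8 c5528 c19943 c5212 c5566 c1055 c1512 c5433 c5580 (k8 c5579 c5577 c5576 c5466 c5462 c5568 c5382 c5381 (k8 c5380 c1058 c19954 c5373 c5374 c5524 c18383 c18382 (k8 c17914 c17754 c1510 c353 c5654 c18477 c17954 c5229 (k4 c5585 c17990 c18000 c1652 (k2 c10798 c2077 k0))))))) (by decide +kernel)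
def c19956 : PP 9 3 T 0x8000000000000000220000000000000000000040000000100000000000000000000000000000000000000000000000000000000000500000000000200 := rS 0x1bf84f291 (k4 c5374 c5524 c17754 c1510 (k1 c5654 k0)) (by decide +kernel)
def c19957 : PP 9 3 T 0x20000000000000000000000000000000000000000000000000000000000000000000000000000000000400800000000020000000000802 := rS 0xfd4399c34f70ea4c0aa91da742cf3419950a69 (k8 c18347 c18349 c18353 c18355 c2530 c1054 c5412 c1676 (k8 c5531 c53 c1517 c331 c501 c1620 c664 c693 (k2 c1076 c18014 k0))) (by decide +kernel)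
def c19958 : PP 9 3 T 0x8000000000060000000000000000000000100000000000000000000000000000000000000000000000002000000000400800000000040000000000002 := rS 0xd48047606fc4399fde5bf6ce86aaf228989610051201a23078145203208ffbed746b4cfe33188f4fb1554fcdbfb050ad1c6cb68b859be0ce8ed3a3904682961e9485b26f57fa0cca8534a2cea59 (k8 c18352 c18354 c18350 c18347 c18349 c18353 c18355 c3008 (k8 c10333 c5439 c1054 c5433 c19955 c5517 c5212 c1055 (k8 c19943 c5412 c1676 c19956 c5215 c5537 c5460 c5459 (k8 c5464 c5466 c17886 c5578 c10372 c5580 c17766 c5531 (k8 c5414 c5566 c1512 c1508 c271 c5577 c5579 c5381 (k8 c5465 c17880 c5576 c5462 c28 c9694 c53 c9739 (k8 c9731 c2361 c13505 c5645 c13457 c192 c10038 c2966 (k8 c4923 c19957 c5653 c18037 c5474 c17860 c663 c8435 (k4 c18014 c2632 c19927 c5694 (k2 c13568 c3072 k0)))))))))) (by decide +kernel)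
def c19959 : PP 9 3 T 0x200000000000000000100040008000100000000000040000400001000002000000000000000000000000000000544006000000002 := rS 0x2ba06b133ab59c1b2d90ce68d378a4067145a24d265 (k8 c18353 c18347 c18356 c18350 c668 c28 c9694 c5565 (k8 c5381 c19419 c5478 c5474 c5475 c13955 c2758 c663 (k4 c18405 c2633 c3602 c1249 k0))) (by decide +kernel)
def c19960 : PP 9 3 T 0x8000000000060000000000000000000000100000000000000000000000000000000000000000000000002000000000000800000000040000000000002 := rS 0x2bd5a67588683a961a4ece22413929ee490602cd473099bfbed746b4cfe93198c7e6dfd82848f155980cdb110781568e365b37c19d1da747208d052c3d290b64d168934994b275 (k8 c18354 c18352 c18353 c18347 c18356 c18350 c5439 c1054 (k8 c5433 c19955 c5517 c5212 c1055 c19943 c5412 c1676 (k8 c19956 c5215 c5537 c5464 c5466 c17886 c53 c9739 (k8 c5411 c5529 c28 c5532 c5414 c15906 c5578 c10372 (k8 c5580 c17766 c1508 c271 c1517 c5577 c5579 c5381 (k8 c5465 c17880 c5565 c5564 c19419 c19958 c2306 c1059 (k8 c10368 c291 c5660 c10074 c2591 c668 c19959 c5653 (k8 c1619 c331 c1620 c4005 c664 c2759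 c3996 c3602 k0)))))))) (by decide +kernel)
def c19961 : PP 9 3 T 0x8000000000060000000000000000000000100000000000000000000000000000000000000000000000000000000000000800000000040000000000002 := rS 0xaf5699d621a0ea58693b388904ef725030920b3c244e61337f7dae8d699fd263318887e6dfd82848f155980cdb110781568e365b37c19d1da747208d052c3d290b64d168934994b275 (k8 c18354 c18352 c18353 c18347 c18356 c18350 c5439 c1054 (k8 c5433 c19955 c5517 c5212 c1055 c19943 c5412 c1676 (k8 c19956 c5215 c5537 c5464 c5466 c17886 c53 c9739 (k8 c5411 c5529 c28 c5532 c5414 c15906 c5578 c10372 (k8 c5580 c17766 c5528 c1508 c271 c1517 c5577 c5579 (k8 c5381 c5465 c17880 c5565 c5564 c19419 c19960 c17754 (k8 c2307 c10368 c5645 c5660 c291 c353 c2591 c668 (k8 c19959 c5653 c1619 c331 c1620 c4005 c664 c2759 (k2 c3996 c3602 k0))))))))) (by decide +kernel)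
def c19962 : PP 9 3 T 0x8000000000060000000000000000000000100000000000000000000000000000000000000000000000000000000000000800000000000000000000002 := rS 0xd48047607ed7e21cceff57fbcb645134e890251a9ac1a4b050d9c2b4f011f3b4b0f0efe6b3549b62a9d8888c1e051490596e31fa85bfdf6ba35a67fc981c07b09485866311e820fba01ca0cca85349d4b28b (k8 c18350 c18352 c18354 c18347 c18349 c18353 c18355 c19943 (k8 c5212 c5566 c1055 c1512 c1508 c271 c1054 c5433 (k8 c10372 c28 c1451 c5439 c5577 c5579 c5381 c5465 (k8 c17880 c5580 c5578 c5576 c5466 c5464 c5462 c9694 (k8 c53 c9739 c9731 c5411 c5412 c5414 c5529 c5531 (k8 c5532 c17766 c1676 c19955 c5517 c19956 c15906 c5215 (k8 c17886 c5460 c19961 c1511 c2593 c2364 c2306 c19957 (k8 c1095 c5660 c5653 c5651 c5326 c5474 c17860 c2986 (k8 c3006 c663 c8435 c18014 c5542 c2632 c19927 c5694 (k2 c13568 c3072 k0)))))))))) (by decide +kernel)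
def c19963 : PP 9 3 T 0x40008000000000050000000000000000000000100000008000000000000000010000000011000000000000000000000010000000000001545014000000000 := rS 0x6c963edf786c6a73469bf40411fb4f3089 (k8 c18356 c18346 c5579 c5576 c5462 c5212 c5565 c5381 (k8 c19419 c5324 c5475 c17860 c18037 c18405 c5201 c17895 k0)) (by decide +kernel)
def c19964 : PP 9 3 T 0x8000000000040000010000000000000000100000000000000000000000000000000000000000000000000000000000000800000000000000000000002 := rS 0x7b95a67d98752c349d9c44ff312129c2cd23bd46e491db44f0b5a5440e62901905c63f6ff7dae8d699fd2605d84a42c33188f4107dd00e76a83cc1d4b28b (k8 c18350 c18352 c18354 c18346 c18355 c19962 c19943 c5212 (k8 c5566 c1055 c1512 c1508 c271 c1054 c5433 c10372 (k8 c53 c1517 c5577 c5579 c5381 c5465 c17880 c5580 (k8 c5576 c5466 c5462 c28 c9694 c19419 c17712 c5211 (k8 c1340 c1268 c17698 c5332 c5334 c5518 c5519 c5520 (k8 c2385 c1541 c3590 c15050 c5546 c354 c2755 c19963 (k8 c5653 c1619 c331 c5404 c664 c2759 c5229 c19392 k0))))))) (by decide +kernel)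
def c19965 : PP 9 3 T 0x8000000000050000020000000000000000100080000000000000000000000000000000000000000000000000000000000000000000005000000800000 := rS 0xe163b559dee556cc34961a7b67681899f7bed746e81a67f94a151675 (k8 c18354 c18350 c18349 c5433 c5577 c5579 c5212 c5381 (k8 c5465 c17880 c5566 c5382 c5380 c18477 c18450 c5653 (k8 c1619 c1620 c5404 c19296 c5229 c1285 c5585 c2560 (k2 c1652 c17854 k0)))) (by decide +kernel)
def c19966 : PP 9 3 T 0x8000000000040000000000000000000000100000000000000000000000000000000000000000000000000000000000000800000000000000000000002 := rS 0x6a9dda0cd7f33d8ded80b86063af952fc27948a1f39b51c8c467290405903133ea3dbfdf6ba3740d33fb15167544a150659 (k8 c18352 c18355 c18349 c18356 c18354 c18350 c18348 c5577 (k8 c5579 c5212 c5381 c5465 c17880 c5580 c5568 c5566 (k8 c5382 c5380 c1054 c1055 c5433 c271 c1508 c19943 (k8 c19962 c19964 c5373 c5374 c5524 c17754 c19965 c5231 (k8 c19956 c5550 c5591 c5592 c17809 c17861 c4213 c3613 (k4 c2506 c5688 c14679 c1710 (k1 c17987 k0))))))) (by decide +kernel)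
def c19967 : PP 9 3 T 0x8000000000050000000000000000000000100000000000000000000000000000000000000000000000000000000000000000000000800000000000000 := rS 0x1aa77683359efe637b602e181a450ff2ce206267d47b7fbed746e81a67fa5f858a8b3aa250a83 (k8 c18355 c18349 c18356 c18354 c18350 c18348 c5456 c5332 (k8 c5577 c5579 c5212 c5381 c5465 c17880 c5580 c5568 (k8 c5566 c5382 c5380 c5211 c5231 c5373 c5374 c5550 (k8 c5591 c5592 c17809 c17861 c3613 c2560 c2506 c5688 (k2 c14679 c1710 (k1 c17987 k0)))))) (by decide +kernel)
def c19968 : PP 9 3 T 0x8000000000020000220000000000000000100040000000000000000000000000000000000000000000000000001000000400004000000000000000002 := rS 0x3e670d864e526b48814320365a85beb3 (k8 c5532 c5580 c5578 c5464 c28 c9701 c53 c5374 (k4 c5523 c19356 c17907 c5209 (k2 c15827 c17766 (k1 c11694 k0)))) (by decide +kernel)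
def c19969 : PP 9 3 T 0x40008000000000040000000000000000000000100000000000100000000000000000000000000000000000001000000000000000000000800000000000002 := rS 0xfd33a1e385b22c059f3a6a7bf6392409f4462965f7dae8d699ffc2ab54ad0e26b06ecc220a2411e2ab3019b62213ceed096413c83c0b4b2fe81066932a1516592ea258a75 (k8 c18354 c18348 c18356 c17796 c18352 c18350 c18349 c18353 (k8 c18347 c18355 c5212 c19966 c5332 c53 c9739 c1536 (k8 c5462 c562 c19967 c19968 c5564 c9727 c5529 c28 (k8 c5532 c5414 c15906 c5660 c10368 c3026 c19921 c293 (k8 c1059 c11694 c17856 c5531 c5413 c5456 c5577 c5579 (k8 c5381 c5465 c17880 c5464 c9694 c9731 c5566 c5380 (k8 c5215 c12830 c17781 c17999 c5224 c5899 c3073 c5326 (k4 c5474 c12681 c19811 c663 (k2 c19927 c3601 k0))))))))) (by decide +kernel)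
def c19970 : PP 9 3 T 0x200000000000000000100000008000200000000000000000000000000002000000000000000000408000000000000009000010800 := rS 0x3b1c1aa2cb25d (k4 c17796 c18352 c18350 c5324 (k2 c12681 c19929 (k1 c351 k0))) (by decide +kernel)
def c19971 : PP 9 3 T 0x8000000000005000200000000000000000000000004000000000000000000000000000000000100000040000000010000000000000001001010000002 := rS 0x321589578f7dae8d699fd1675 (k8 c18354 c18350 c5577 c5579 c5381 c5465 c17880 c9696 (k4 c10191 c18461 c5678 c2067 k0)) (by decide +kernel)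
def c19972 : PP 9 3 T 0x40008000000000040000000000000000000000100000000000000000000000000000000000000000000000001000000000000000000000800000000000002 := rS 0x681c58fba7697316c4f7931881e51b35a044e22505098466b069208f9d3c97e2ab3019b7691107816964b2084f4069 (k8 c18347 c5212 c5564 c5462 c562 c5332 c53 c9739 (k8 c9727 c19967 c5529 c28 c5532 c5414 c19966 c1536 (k8 c19968 c15906 c5660 c293 c1059 c9731 c10038 c10368 (k8 c10629 c11694 c3026 c17856 c19921 c19969 c5432 c5434 (k8 c12823 c690 c13493 c16365 c1229 c19970 c5229 c5506 (k2 c19971 c19929 (k1 c332 k0))))))) (by decide +kernel)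
def c19973 : PP 9 3 T 0x40009000000000000000010000000000000000100040000000200000000000000000000000040000000000000000001000000004002140000000000000800 := rS 0x7b7b2393bf79dc13923d81c66d73ab14b289 (k8 c18356 c18352 c18348 c18354 c5465 c5316 c5432 c690 (k8 c5669 c5438 c5356 c17781 c10693 c5658 c5171 c513 (k1 c5498 k0))) (by decide +kernel)
def c19974 : PP 9 3 T 0x40008000000000040000000000000000000000100000000000000000000000000000000000000000000000000000000000000000000000800000000000002 := rS 0x81fb5f8674396e023567b53de77c94a55e45218c420c77aa40d626050349081099f4ae23efb5d1ad33ff8556a923e7496413c97f41155980cdbb488d2c1e05419a4ca8544b151675 (k8 c18354 c18350 c18348 c18356 c18349 c18353 c18347 c18355 (k8 c53 c9739 c5332 c9727 c19967 c5529 c28 c5532 (k8 c5414 c5212 c19966 c1536 c5462 c562 c19968 c15906 (k8 c5531 c5413 c5456 c5577 c5579 c5381 c5465 c17880 (k8 c9731 c9758 c5566 c5564 c5380 c5660 c293 c10368 (k8 c10038 c1059 c19972 c10333 c800 c694 c1679 c3033 (k8 c2966 c4923 c19973 c5215 c5356 c17781 c17999 c5899 (k8 c5281 c3073 c9931 c19811 c663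 c3601 c5542 c2632 (k1 c13257 k0))))))))) (by decide +kernel)
def c19975 : PP 9 3 T 0x1008000000000001000210000000000000000000000000000100000000050000000100000000000000000001000000000000000000000800000000004000 := rS 0x3f9988768834b67a6a026759240c4cfa8f71b7fbed746b4cff4bf09e7308362a251675 (k8 c18354 c18350 c18356 c18348 c18355 c18346 c1536 c5456 (k8 c5332 c5577 c5579 c5381 c5465 c17880 c5580 c5466 (k8 c5568 c5566 c5382 c5380 c5215 c5165 c9669 c17999 (k8 c17983 c5474 c289 c1710 c8435 c11210 c18001 c2506 k0)))) (by decide +kernel)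
def c19976 : PP 9 3 T 0x8000000000000000210080000000000000000000000000000000000000000000100000000000000000001000000000000000000000800000000004040 := rS 0x2c1a7a04a06268f71b7e9679 (k8 c1536 c5332 c5580 c5466 c5568 c5382 c5380 c5438 (k4 c17983 c289 c690 c5645 k0)) (by decide +kernel)
def c19977 : PP 9 3 T 0x8000000000040000000000000000000000100000000000000000000000000000000000000000000000000000000000000000000000800000000000002 := rS 0x359c4c59303ca363ed80b8523035afcb3ab3da12cf34bd003c0a41659fd42df2fa2d0685 (k8 c18349 c18355 c18350 c19966 c5580 c5578 c5577 c5464 (k8 c5462 c53 c9739 c5212 c5332 c1536 c562 c19967 (k8 c5532 c19968 c19974 c5548 c5550 c5589 c5591 c5592 (k8 c17809 c17766 c19975 c5432 c19976 c16365 c781 c1174 (k1 c17856 k0))))) (by decide +kernel)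
def c19978 : PP 9 3 T 0x80000000000000000000210000000000000000000000000000200000000000000000440000000000000000000000000000000000000014400000000000002 := rS 0x2ccda6bda4441b4b230f4728f078145203259262ae1 (k8 c5591 c5590 c5588 c5546 c28 c9694 c53 c9739 (k8 c5568 c5317 c5436 c17934 c17954 c2367 c9727 c5211 (k4 c1059 c5529 c5532 c12800 k0))) (by decide +kernel)
def c19979 : PP 9 3 T 0x80008000000000000000200080000000000000000000000000000000000000000000000000000000000000000000000000000000000000000000000000000 := rS 0x3fd0ecc689e9a8773ca06267d47b8dbfdf6ba35a67f81a45c301f6e6106c544a2d0a75 (k8 c18354 c18349 c18350 c18356 c18348 c18355 c18346 c17809 (k8 c5592 c5591 c5589 c5550 c5577 c5579 c5381 c5465 (k8 c17880 c5580 c5466 c5568 c5566 c5382 c5380 c5441 (k8 c5356 c17999 c17983 c1710 c11210 c2073 c2506 c18001 k0)))) (by decide +kernel)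
def c19980 : PP 9 3 T 0x80008000000000000000210000000000000000000000000000000000000000000000000000000000000000000000000040000400000000400000000000002 := rS 0x881c36a614fec3266394a45026f3e90596e31f9fd42df (k8 c5580 c5578 c5577 c5576 c5466 c5464 c5462 c5566 (k8 c5565 c5380 c5589 c19978 c19420 c19979 c16365 c5448 (k4 c5445 c17766 c3599 c17712 (k1 c884 k0)))) (by decide +kernel)
def c19981 : PP 9 3 T 0x2000200000000000000000000000000000000000000000000000000000400000000010000000040050004400000000000000000000000 := rS 0x614fa04de7d (k4 c5566 c5565 c5380 c5448 (k2 c5445 c3599 k0)) (by decide +kernel)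
def c19982 : PP 9 3 T 0x41009000000000051000200000000000000000000000000000000000000000000000000010000000000000200000008000000000000000000000000000000 := rS 0x2a599b2efb5d1ad33fb14ea8b (k8 c18350 c18354 c18348 c5577 c5579 c5381 c5465 c17880 (k4 c12392 c11210 c5489 c2440 k0)) (by decide +kernel)
def c19983 : PP 9 3 T 0x40008000000000050000000000000000000000100080000000100000200000000000000000000000000004001000000000000000000000000000000000002 := rS 0x190aed9aafd91433890b6d1708e4623d1aa60f49d490192ead30254de29018fdbfdf36a6d6a776a35cfad340a37c279c96c4e2632fa84fecb39e80ca8b34b151275 (k8 c18354 c18356 c18348 c18347 c18350 c18353 c5212 c19419 (k8 c5464 c5577 c5578 c19966 c19420 c884 c19981 c5209 (k8 c5441 c17754 c5381 c5380 c5579 c5566 c5465 c17999 (k8 c5356 c1340 c1187 c160 c17880 c5580 c5576 c28 (k8 c9694 c5565 c1589 c3599 c2890 c1639 c661 c662 (k8 c1697 c880 c881 c1617 c1569 c1565 c325 c13096 (k8 c1595 c9931 c14997 c663 c16791 c19982 c5500 c19358 (k2 c15394 c5678 (k1 c1182 k0))))))))) (by decide +kernel)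
def c19984 : PP 9 3 T 0x40000000000000050000000000000000000000000000000000000001000000000000440000000001000001008000000000000000001414540010000000000 := rS 0x4b708f56425 (k4 c16791 c5685 c1570 c2899 (k2 c2455 c3590 k0)) (by decide +kernel)
def c19985 : PP 9 3 T 0x2000000000000000000200000000000000000000080000000000002000000000000000000000000010018201000000040040000000000511000000000000 := rS 0xcd19b2528ae68aad1a377a9951669 (k8 c18347 c18350 c18353 c5519 c5518 c5381 c5500 c5501 (k4 c15394 c2991 c1182 c17788 (k2 c2441 c18037 k0))) (by decide +kernel)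
def c19986 : PP 9 3 T 0x41009000000000051000200000000000000000000000000000000002000000000000000000000001000008000000000050000000000000000000000000000 := rS 0x100586c8dfdf6ba35a67fcc224ea8b (k8 c18350 c18354 c18356 c18346 c5577 c5579 c5381 c5465 (k4 c17880 c5565 c12392 c17895 (k2 c18618 c2144 k0))) (by decide +kernel)
def c19987 : PP 9 3 T 0x6000000000000050000000000000000000000100080000000000002000000000000000000000001010018001000000010040000000000501000000000000 := rS 0x27434d99cf4098 (k4 c3051 c5212 c19419 c19358 (k2 c19985 c5229 (k1 c5324 k0))) (by decide +kernel)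
def c19988 : PP 9 3 T 0x44009000000000051000000000000000000000100080000000000002200000000000000200000000000008001000000000000000000000400010000000000 := rS 0x3321fd831490e448ad4c09f40a124ad4e671 (k8 c884 c19419 c1340 c5334 c5578 c5212 c3046 c3051 (k8 c4976 c5651 c6054 c2757 c4187 c19986 c5499 c19987 (k1 c882 k0))) (by decide +kernel)
def c19989 : PP 9 3 T 0x46000400000000051000000000000000000000100000000000000001200010000000440400000000000008401000000000000000001414440010000000000 := rS 0x70924e871911c4aa5e74b056ece04677faad0e8d89a3f40b25a9cc2226129c516592ea250a83 (k8 c18355 c18349 c18356 c17796 c18352 c18350 c884 c16791 (k8 c5651 c2858 c19419 c1340 c5685 c5212 c5568 c5382 (k8 c5381 c5499 c5500 c5544 c882 c3613 c19358 c2035 (k8 c2461 c5229 c1644 c2181 c12681 c5678 c351 c1275 (k2 c2062 c19984 (k1 c325 k0)))))) (by decide +kernel)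
def c19990 : PP 9 3 T 0x1000400000000010000200080000000000000100000004000100001000000000000000011000000050000441000000010040000000000000000000000000 := rS 0x1e8cac5 (k4 c18348 c18353 c15156 c11210 k0) (by decide +kernel)
def c19991 : PP 9 3 T 0x40008000000000050000000000000000000000100080000000100000200000000000000000000000000000001000000000000000000000000000000000002 := rS 0xcd7f4ee071d68aa4ce1d4babd5bb2f68460226590962a9ef0b50ee79f7e4b6271409f4520320b2dc63f50b7fbed746e81a67f2f8ec923723a6cc6b539a2cb25d329d512c5 (k8 c18348 c18356 c18354 c18353 c17796 c18352 c18350 c19419 (k8 c1340 c19420 c1187 c5520 c5518 c5334 c19977 c19966 (k8 c5577 c5579 c5212 c5381 c5465 c17880 c5580 c5578 (k8 c5576 c5466 c5464 c5462 c28 c9694 c5566 c5380 (k8 c884 c19981 c5209 c17989 c5441 c5356 c17999 c17754 (k8 c19983 c19988 c16791 c5685 c5651 c4867 c2858 c19989 (k8 c12392 c5490 c5406 c5404 c5486 c5487 c5489 c17901 (k4 c351 c2460 c12681 c5694 (k2 c2506 c19990 k0))))))))) (by decide +kernel)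
def c19992 : PP 9 3 T 0x45000000000000050000000000000000000000000000000000000000000014000000000000000000800000000000000000000000000000000000000000000 := rS 0x2a605b2 (k4 c5201 c5694 c5489 c2460 k0) (by decide +kernel)
def c19993 : PP 9 3 T 0x41000000000000050000000000000000000000100080000000100001000004000000000040400001010000000000000000000400000000000010000000000 := rS 0x969dec1e5ee21c05027dd03d44a4b591d512c5 (k8 c18348 c18356 c18354 c5685 c2455 c16791 c5519 c5212 (k8 c5566 c5380 c15060 c5252 c19992 c19710 c17989 c5325 (k2 c8156 c19729 k0))) (by decide +kernel)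
def c19994 : PP 9 3 T 0x1008000000000050000010000000000000000100000000000100001000000000000000000000000000000000000000000000000000000000000000000002 := rS 0x10de701190d598063d1e413e11c3847a9fd864cedee81c7766ac40a34fa5720b2daee31f9fda6df7b9246ef523b1cc6ff1292c52032284164b54844295f31d97f4073629d5128b (k8 c18350 c18356 c18354 c18348 c19419 c5212 c19966 c19977 (k8 c19980 c5211 c17712 c19991 c1340 c5685 c12151 c2966 (k8 c28 c9694 c2455 c16791 c3008 c19420 c796 c5520 (k8 c5519 c5518 c5334 c5333 c5580 c5579 c5577 c5576 (k8 c5466 c5465 c5464 c5462 c9758 c5566 c5381 c5380 (k8 c19993 c5490 c2029 c2035 c5201 c17990 c17781 c17989 (k8 c5448 c12427 c2898 c3590 c5534 c17865 c2382 c5669 (k8 c5643 c890 c1617 c673 c2077 c2501 c2047 c3593 k0)))))))) (by decide +kernel)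
def c19995 : PP 9 3 T 0x8000000000000000210000000000000000000000000000100000000000000000000000040000000000000004000000000004005480440008000000000 := rS 0x481cf676c9b546681469f482d7718fda6df62a2cea89 (k8 c18356 c18354 c18350 c18348 c5580 c5579 c5576 c5466 (k8 c5465 c5462 c5566 c5381 c5380 c2047 c4852 c17999 (k4 c17987 c889 c673 c19935 (k1 c5643 k0)))) (by decide +kernel)
def c19996 : PP 9 3 T 0x4008000000000050000010040000000000000000000000000000000000000000000000000000000840000000104110000004400000000400001000000002 := rS 0xb1d9ab52cd43b9e8f3e11c3847a954fec0ae4165b8c7edf248dc8f4a6392c520333c40d265629d51689 (k8 c18356 c18350 c18354 c18348 c18353 c18347 c17712 c882 (k8 c28 c9694 c2455 c796 c5211 c5520 c5518 c5334 (k8 c5580 c5576 c5466 c5464 c5462 c9758 c16365 c5448 (k8 c5446 c12427 c2898 c3590 c5534 c2382 c5669 c889 (k4 c17987 c18020 c2890 c5404 (k2 c1333 c5683 k0)))))) (by decide +kernel)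
def c19997 : PP 9 3 T 0x4000000000000042000000080000000000000000000000000000000000000000000000000400000050000000000000000040000000000000000000000000 := rS 0x16096d9a54c2c93b9a58a65 (k8 c18353 c18348 c18347 c5356 c5396 c5445 c5446 c18631 (k2 c18033 c5683 (k1 c1333 k0))) (by decide +kernel)
def c19998 : PP 9 3 T 0x44000400000000055000000000000000000000100000000000100001000000000000440400400001054000400000000000000000001414440000000000004 := rS 0x1c2493a176406d2a979d2c05219 (k8 c9701 c9694 c5683 c5229 c1333 c2181 c5475 c5678 (k4 c1064 c1275 c5648 c19984 (k1 c325 k0))) (by decide +kernel)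
def c19999 : PP 9 3 T 0x44000400000000050000000080000000000000100000000000100001000010044000440400400001014000402000000000040000001414440000000000004 := rS 0x1025487765b17fabd648b (k8 c18350 c5685 c4926 c3008 c19997 c19998 c5486 c5489 (k2 c18046 c2460 k0)) (by decide +kernel)
def c20000 : PP 9 3 T 0x8000000000050000010000000000000000100000000000100001000000000000000000000000000000000000000000000000000000000000000000002 := rS 0x2071d5664bde4333bce02ab43fb08aaf0812c4cb212a04fa571480c82cb718fdbfdf6ba35a67f7b9246ef523a6d6ac731bfd2110a57cc765fd01cd1675 (k8 c18354 c18350 c19419 c5212 c19966 c19977 c19980 c5211 (k8 c17712 c19991 c3008 c19420 c796 c1340 c1187 c5520 (k8 c5519 c5518 c5334 c5333 c5577 c5579 c5381 c5465 (k8 c17880 c5580 c5576 c5466 c5464 c5462 c28 c9694 (k8 c9758 c5566 c5380 c16791 c5685 c5651 c2455 c12151 (k8 c4926 c2966 c19994 c5499 c5500 c5502 c5540 c882 (k4 c19995 c17892 c19996 c19999 (k2 c2029 c2035 (k1 c3593 k0))))))))) (by decide +kernel)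
def c20001 : PP 9 3 T 0x6000000000000051000000000000000000000100000000000000002200000050000000010000000010010408000001400000000000000441000000000000 := rS 0xcc6acd64ce930aed9f85626767bcd5687469bf40b5399c4da9d1ca2d126932e60ea85 (k8 c18349 c18354 c18346 c18353 c18347 c18356 c18350 c325 (k8 c1694 c160 c3049 c19419 c1340 c5212 c5565 c5381 (k8 c5499 c5500 c5540 c5543 c882 c1294 c17952 c19358 (k8 c3602 c5679 c5229 c1182 c2441 c5324 c323 c3587 k0)))) (by decide +kernel)
def c20002 : PP 9 3 T 0x8000000000050000010000000000000000100000000000100000000000000000000000000000000000000000000000000000000000000000000000002 := rS 0x4e86a1a1991486b00eabf65ed18ab5a2926a1dcf3efc96c4487113c51fe904d9b5ea3724bde214a409bcfa290190596a1efb5d1ad33ffcc765fd01ccc79844b151675 (k8 c18354 c18350 c18348 c18356 c18346 c19420 c19419 c5212 (k8 c19966 c19977 c19980 c5577 c5579 c5381 c5465 c17880 (k8 c5578 c5464 c5462 c28 c9694 c5566 c5565 c5380 (k8 c5211 c17712 c5333 c5334 c5518 c5519 c160 c1187 (k8 c19991 c3008 c20000 c3046 c3049 c5651 c19981 c5209 (k8 c17989 c5441 c5356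 c17999 c12834 c1711 c4976 c4187 (k8 c20001 c5201 c5406 c5486 c17895 c18379 c2968 c322 (k4 c18405 c5281 c5653 c5475 k0)))))))) (by decide +kernel)
def c20003 : PP 9 3 T 0x8000000000040000000080000000000000100000000000100000000000000000000000000000050000000000000000000000000000000002000000002 := rS 0xd676430d0cc62b00e9152471139ccde051480c83df3fb50fad34099fded746e811689349958a75 (k8 c18354 c18348 c18353 c18347 c18356 c18350 c5212 c5381 (k8 c5465 c17781 c5282 c5380 c5579 c5566 c17999 c5577 (k8 c17880 c5462 c28 c9694 c53 c5565 c19419 c60 (k8 c2755 c12834 c2968 c5283 c3602 c4187 c322 c18405 (k4 c1932 c5475 c5281 c5653 k0))))) (by decide +kernel)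
def c20004 : PP 9 3 T 0x45000000000000060000000000000000000000100000004000000000000001000000000000000000200000000000000000040000000040000008000000002 := rS 0x4088868e9ac3a1fd952b4111559b5528b419a4ca85 (k8 c18349 c18353 c18347 c18355 c18350 c5531 c5529 c5413 (k8 c5411 c5212 c5171 c5229 c5517 c5486 c1058 c351 (k4 c3601 c5658 c19857 c2966 k0))) (by decide +kernel)
def c20005 : PP 9 3 T 0x44000000000000000000000000000000000000100040000000000000100011000000000000000000005000000000000001040000004400000000000040002 := rS 0x35a1c1a48419a4ca85 (k8 c18349 c18353 c18347 c18355 c5660 c293 c19811 c1059 (k1 c3601 k0)) (by decide +kernel)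
def c20006 : PP 9 3 T 0x41008000000000061000000080000000000000100000000000000000000000000000000000000000200000400000000000040000000440000008000000002 := rS 0x7b488c9a2fe6433607b343071ee1fa516e74fd4aa5e021378b2fbe8dd034cff11559b55277f7b5c962162a2d066534a151275 (k8 c18354 c18356 c18349 c18347 c18353 c18355 c18350 c18348 (k8 c5528 c353 c5465 c17781 c5356 c5531 c5529 c5413 (k8 c5411 c5577 c5579 c5212 c5381 c17880 c5464 c9696 (k8 c5564 c2143 c1333 c2181 c10429 c20004 c5474 c20005 (k8 c5517 c5333 c17804 c9248 c7262 c10690 c2073 c5678 (k4 c5694 c4496 c2061 c3008 (k2 c11210 c15157 k0))))))) (by decide +kernel)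
def c20007 : PP 9 3 T 0x40008000000000060000000080000000000000100000000000100000000000000000000000000000150000000000000000000000000400040000000000002 := rS 0x1e0700e60048a5ce88a1d7e84364708e9cc266f788fc7711559b552d43eb4d0267f7b5d1ba02192c4c251480c428b449a4cac5 (k8 c18348 c18353 c18347 c18356 c18350 c5528 c28 c9694 (k8 c20003 c5651 c353 c5252 c5212 c5381 c5465 c17781 (k8 c5282 c5380 c5579 c5566 c17999 c5531 c5529 c5413 (k8 c5411 c19977 c5576 c9696 c5565 c5564 c19419 c352 (k8 c3602 c5683 c667 c5405 c5486 c2966 c5658 c17804 (k4 c5660 c20005 c399 c3072 (k2 c5654 c5460 k0))))))) (by decide +kernel)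
def c20008 : PP 9 3 T 0x40001000000000000000000000000000000000100040000000100000000000000000000000000000000000000000000000000000004404440000000000000 := rS 0x7048 (k2 c5660 c5654 (k1 c399 k0)) (by decide +kernel)
def c20009 : PP 9 3 T 0x41000400000000021000000000000000000000000000008000000000000000040000200000000000200000050000000000000000000000000000040000002 := rS 0x43bf604ff68b23665b88aacdaa941994d285 (k8 c18349 c18347 c18353 c18355 c5531 c5529 c5413 c5411 (k8 c5474 c7262 c5678 c2133 c3013 c14602 c1336 c10690 (k1 c9248 k0))) (by decide +kernel)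
def c20010 : PP 9 3 T 0x41008000000000060000000080000000000000100000000000100000000000000000000000000000050000000000000000000000000400040000000000002 := rS 0x1f9b29db80723d493dc3f4af0a692a975806482e31fb7fbed33f8ef626746e83ded76590c9626128a4062162a251675 (k8 c18354 c18350 c18356 c18348 c5528 c28 c9694 c20003 (k8 c5651 c353 c5252 c5464 c5465 c17781 c5212 c5381 (k8 c5282 c19997 c19977 c5577 c5579 c17880 c5580 c5576 (k8 c5466 c5462 c9701 c20007 c1333 c2181 c20006 c5536 (k8 c20008 c5517 c5333 c6036 c1570 c324 c17954 c20009 (k2 c5229 c20004 (k1 c5405 k0))))))) (by decide +kernel)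
def c20011 : PP 9 3 T 0x1008000000000040000010080000000000000100000000000100000000000000000000000000000050000000000000000000000000000000000000000002 := rS 0x1606a4e9636d899d1a1965fcc765f3998d3a9923acf4115019b623b4078158e79f7b5d8a89 (k8 c18356 c18348 c5465 c17781 c5441 c5357 c53 c9739 (k8 c20002 c5411 c5529 c28 c5414 c5212 c5532 c15906 (k8 c5530 c5412 c19420 c19419 c19966 c19977 c19980 c5464 (k8 c9701 c5381 c5282 c19997 c20010 c5518 c1567 c2363 (k2 c5648 c14582 k0))))) (by decide +kernel)
def c20012 : PP 9 3 T 0x40000000000000000000000000000000000000100040008000100000000010000000000005000000000000000000000000000000001400544000000000000 := rS 0x1ec4a (k2 c5660 c13955 (k1 c565 k0)) (by decide +kernel)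
def c20013 : PP 9 3 T 0x40008000000000060000000080000000000000100000000000100000000000010000000000000000080000000000000000000000000400000000000000002 := rS 0xd0481adee1fa533d9a944b8cc7237491244867138c4b6f31a917633a80b24e3b33988c520365a87be8dd034cfe5f1d98e2a214caa7ded745b151275 (k8 c18354 c18356 c18348 c18350 c5465 c17781 c5531 c5530 (k8 c5528 c5414 c19420 c19977 c19966 c5577 c5579 c5212 (k8 c5381 c17880 c5578 c5464 c28 c9694 c9731 c19419 (k8 c5406 c2988 c1182 c3070 c5229 c19981 c5326 c5324 (k8 c5325 c5474 c5476 c2986 c663 c5651 c10038 c12834 (k8 c1567 c324 c323 c1637 c5678 c13053 c1587 c20012 (k4 c5517 c5333 c1058 c13523 (k2 c3587 c9793 k0)))))))) (by decide +kernel)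
def c20014 : PP 9 3 T 0x1008000000000040000010080000000000000100000000000100000000000010000000000000000000000000000000000000000000000000000000000002 := rS 0x934b059a936393db38970049985e6351340d2d3a7fb244aac57b53de7963a051a133e88c52196bb4fe63b2f9ccc69d10a65524759e822a0336c47680f02b15128b (k8 c18350 c18356 c18348 c53 c9739 c20002 c5411 c5529 (k8 c28 c5414 c5212 c5532 c15906 c5531 c5530 c5528 (k8 c5412 c19420 c19419 c19966 c19977 c19980 c5579 c5465 (k8 c9701 c9694 c9731 c5566 c5564 c5381 c5380 c5357 (k8 c5441 c17781 c17999 c20013 c20011 c4803 c2067 c2892 (k8 c9614 c2891 c2034 c5651 c5324 c5325 c1639 c1637 (k8 c5694 c353 c3073 c1648 c2558 c2563 c3598 c2306 (k2 c9932 c10368 (k1 c5660 k0))))))))) (by decide +kernel)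
def c20015 : PP 9 3 T 0x1008000000000040000010000000000000000100040000000100000000000010000000000000000000000000000000000000000000000000000000000002 := rS 0x6a4023b037e21ccfef2dce86a31198d8107835bfc140d709ed8e485a780262320b8c7fdf6ba35a7f31da7556a923ace2a6d8883d5e3d1281452034f914204b131c361933197d427f65e80e621da20cd265429d4b28b (k8 c18350 c18352 c18354 c18349 c18353 c18347 c18355 c20002 (k8 c5528 c19419 c5212 c5464 c5577 c5578 c19966 c19420 (k8 c20014 c16365 c19981 c668 c353 c667 c2966 c5448 (k8 c28 c9694 c53 c2755 c12427 c2988 c9739 c5411 (k8 c5529 c5414 c5532 c15906 c5531 c5413 c5412 c19977 (k8 c19980 c5579 c5381 c5465 c17880 c5576 c5466 c5462 (k8 c9731 c5564 c5215 c17886 c5660 c5535 c5457 c5460 (k8 c293 c10368 c3006 c1059 c18019 c2308 c2307 c271 (k8 c1508 c1622 c5653 c5474 c13701 c663 c8435 c3601 (k4 c2632 c19927 c5694 c13568 (k1 c3072 k0))))))))))) (by decide +kernel)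
def c20016 : PP 9 3 T 0x41000400000000000000000000000000000000000080000000100200100004000000000000180000201000144000004001040400000001000000000000002 := rS 0x21dfad13187cf3e1419950a69 (k8 c18347 c18349 c18353 c18355 c5535 c93 c5517 c19420 (k4 c17873 c1336 c799 c13988 k0)) (by decide +kernel)
def c20017 : PP 9 3 T 0x20000010000000000000800000080008000000000001000010000000000000000000000000000000000000000000000000000020002002 := rS 0xbde26f981bbe2e0df582e97722bd59463e2388ae442b70fbdc9e4d79d1f5efb (k8 c18357 c5479 c5327 c5325 c5521 c5335 c5333 c5517 (k8 c5533 c5528 c5415 c5411 c9731 c9712 c5350 c5600 (k8 c5601 c17701 c19938 c18070 c6751 c18009 c2655 c669 (k4 c1062 c5667 c3257 c914 (k1 c5676 k0))))) (by decide +kernel)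
def c20018 : PP 9 3 T 0x8000000000042001000040000000000400100000000000100000000000000000000000080414000001000000000000000000000000000018000002200 := rS 0xfae25cce561f9340ed3fa8d3ea5 (k8 c5399 c5448 c5449 c5577 c5467 c5212 c5217 c5468 (k4 c5622 c19937 c2488 c5633 (k1 c19942 k0))) (by decide +kernel)
def c20019 : PP 9 3 T 0x5008000000000040000010000000000000000100000008000100000000000010000000100000000000000000000000000000000000000000000000000002 := rS 0x233178ddeca0e473b0b138b92e92cf0968335fc97062c122380e4718c1719820f6073b44e4e7d47e34ae2320b8dda3f6fbafbed746b4fe63b4eae532a95b91d671536c441e93648f44a051480d3e455f8409626386c326632fa84fecbd01cc43b4248de94431abcc62672d9651675 (k8 c18354 c18350 c18352 c5474 c663 c5476 c5325 c5324 (k8 c5478 c20015 c5518 c5334 c20002 c5528 c19419 c5212 (k8 c5464 c5577 c5578 c19966 c19420 c20014 c16365 c19981 (k8 c668 c353 c667 c5014 c2966 c5448 c28 c9694 (k8 c53 c2755 c12427 c5396 c5444 c9739 c5411 c5529 (k8 c5414 c5532 c15906 c5533 c5531 c5530 c5415 c5412 (k8 c19977 c19980 c5579 c5381 c5465 c17880 c5581 c5580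 (k8 c5576 c5467 c5466 c5462 c9731 c9758 c5569 c5568 (k8 c5566 c5383 c5382 c18905 c672 c17741 c5643 c271 (k8 c1506 c19935 c3588 c13849 c17923 c800 c352 c273 (k8 c1333 c20016 c2506 c6897 c4582 c20017 c20018 c5391 (k8 c5390 c5610 c19936 c1724 c598 c597 c803 c2528 (k2 c3352 c2637 (k1 c3616 k0)))))))))))))) (by decide +kernel)
def c20020 : PP 9 3 T 0x5008000000000040000010000000000000000100000008000100000000000010000000000000000000000000000000000000000000000000000000000002 := rS 0x23317bdc6ca0e473b0b138b92e92cf09703419afe8e031221c1c3182e33041ec0e764bac15ad433ecc621b2dbcc6b13939f51f8d2bbc4461920b8dda3f6fbafbed746b4fe63b4eae532a95b91d671536c441e9364a555e3d1281452034fafc204b131c361933197d427f65e80e621da07dee491bd28b26932b14ea8b (k8 c18350 c18354 c18348 c18353 c18347 c18352 c20015 c5518 (k8 c5334 c5333 c5517 c20002 c5528 c19419 c5212 c5464 (k8 c5577 c5578 c19966 c19420 c20014 c16365 c19981 c668 (k8 c353 c667 c5014 c5448 c28 c9694 c53 c2755 (k8 c12427 c2988 c5446 c5396 c5444 c9739 c5411 c5529 (k8 c5414 c5532 c15906 c5533 c5531 c5530 c5415 c5412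 (k8 c19977 c19980 c5579 c5381 c5465 c17880 c5581 c5580 (k8 c5576 c5467 c5466 c5462 c9701 c9731 c9696 c9758 (k8 c5569 c5568 c5566 c5383 c5382 c5324 c5325 c5474 (k8 c5475 c5476 c7262 c663 c20019 c2890 c5683 c1333 (k8 c18020 c672 c17741 c5643 c271 c1506 c19935 c17923 (k8 c3577 c800 c273 c2177 c20016 c2506 c6897 c1710 (k8 c4582 c20017 c20018 c5391 c5390 c5610 c19936 c1724 (k4 c598 c597 c3134 c803 (k2 c3352 c2637 (k1 c3616 k0)))))))))))))))) (by decide +kernel)
def c20021 : PP 9 3 T 0x5008000000000040000010000000000000000100000000000100000000000010000000000000000000000000000000000000000000000000000000000002 := rS 0x8e07487b256cec5203128144c45081c361933197d427f65e80e68b (k8 c18350 c19419 c5212 c5464 c5577 c5578 c19966 c19420 (k8 c20014 c16365 c19981 c667 c2966 c668 c53 c2755 (k8 c28 c9694 c20020 c9614 c5229 c5252 c5486 c5658 (k1 c351 k0)))) (by decide +kernel)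
def c20022 : PP 9 3 T 0x400000000004000010040000000000000000000004000100000100000000000440000000000005000000000010801000000005414440000050000002 := rS 0x18cd1041ed0c3403bf4661a33bc593b0319ac6257419a4ca85 (k8 c18349 c18353 c18347 c18355 c9758 c1913 c1058 c19420 (k8 c16365 c5396 c9696 c664 c5649 c2043 c1075 c673 (k4 c5653 c3601 c17741 c5643 (k2 c1704 c19935 (k1 c799 k0))))) (by decide +kernel)
def c20023 : PP 9 3 T 0x41000400000000004000010040000000000000000080004000100000100044000000440040000000005000000000010801000000000415400008100000002 := rS 0x1c0c71c818f6d104b3465001abcc361c49ec0c64b0fbdc920b1b8c4ae59 (k8 c18352 c9758 c1913 c5518 c5516 c5334 c5333 c5517 (k8 c353 c19420 c16365 c5444 c20022 c57 c333 c331 (k8 c9331 c5653 c2077 c271 c2129 c890 c5643 c6897 (k2 c674 c3590 (k1 c10249 k0))))) (by decide +kernel)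
def c20024 : PP 9 3 T 0x1008000000000040000010000000000000000100000000000100000000000010000000000000000000000000000000000000000000000000000000000002 := rS 0x12071916e75b33b3fdab0358fba943d13094e09fd864d027d2b8a482cb718fd42dfefb5d1ad33ffcc765f3998d56215491d67a08a80cdb11da03c0a5944b14ea8b (k8 c18350 c18354 c18348 c18356 c18352 c53 c9739 c20002 (k8 c5411 c5529 c28 c5414 c5212 c5532 c15906 c5531 (k8 c5528 c5413 c19420 c19419 c19966 c19977 c19980 c5577 (k8 c5579 c5381 c5465 c17880 c5580 c5578 c5576 c5466 (k8 c5464 c5462 c9694 c9758 c5566 c5380 c20014 c16365 (k8 c5448 c19981 c2755 c668 c12427 c20015 c20021 c5506 (k8 c5508 c5585 c5586 c17990 c17820 c20023 c5474 c13701 (k2 c672 c271 (k1 c5643 k0))))))))) (by decide +kernel)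
def c20025 : PP 9 3 T 0x1008000000000040000010000000000000000100000000000100000000000000000000000000000000000000000000000000000000000000000000000002 := rS 0x6735bf50e0d9dd2de8f10781622ab109b553b4419a4ca85 (k8 c18349 c18353 c18347 c18355 c20002 c5531 c5529 c5528 (k8 c5413 c5411 c53 c9739 c9696 c20024 c5519 c5477 (k4 c2365 c1922 c2338 c1059 (k2 c18387 c3601 k0)))) (by decide +kernel)
def c20026 : PP 9 3 T 0x100001020000000000000000005000000004000001000000000000000000000000002 := rS 0x339ac3a0d419a4ca85 (k8 c18349 c18353 c18347 c18355 c2365 c1998 c1059 c664 (k1 c3601 k0)) (by decide +kernel)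
def c20027 : PP 9 3 T 0x8000000000040000010000000000000000100000000000100000000000000000000000000000000000000000000000800000000000000000000000002 := rS 0x158d4c96c4e2af122d0954b2487816814684cfacb6b9fd42d3f98ecbe733191d67a08a80cdb11da03c0afdf62258a8b (k8 c18350 c18348 c18356 c20025 c5542 c53 c9739 c20002 (k8 c5411 c5529 c28 c5414 c5212 c5532 c15906 c19420 (k8 c19419 c19966 c19977 c19980 c5579 c5578 c5577 c5465 (k8 c5464 c5566 c5564 c5381 c5380 c2306 c1058 c10368 (k8 c5517 c5660 c6300 c2591 c1248 c2755 c19981 c5209 (k2 c17999 c20003 (k1 c4803 k0))))))) (by decide +kernel)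
def c20028 : PP 9 3 T 0x8000000000040000010000000000000000100000000000100000000000000000000000000000000000000000000000000000000000000000000000002 := rS 0x661e1c2c73da4326766ac0fddb09d96b666635bfd9efd80b450fec549b5569d88ed0c681899f51ee36ff7dae8dd034cfe5f41a250ac53a9a4ca8b (k8 c18350 c18353 c18347 c18354 c18348 c18349 c18356 c18355 (k8 c19966 c5577 c5579 c5212 c5381 c5465 c17880 c5580 (k8 c5466 c5568 c5566 c5382 c5380 c19420 c20002 c5411 (k8 c5412 c5413 c5529 c5531 c20025 c5499 c5501 c5502 (k8 c5542 c5543 c5544 c20027 c3601 c5487 c663 c5474 (k8 c5224 c5229 c5508 c5585 c17990 c17781 c18000 c889 (k4 c800 c10249 c18019 c3627 (k1 c2385 k0)))))))) (by decide +kernel)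
def c20029 : PP 9 3 T 0x8000000000000002000200000000000000000100000000000200000000000000000000040000000000010000000040000000400000010000000024000002 := rS 0x42130d4c69f4985cc207 (k8 c5432 c661 c5433 c5444 c5448 c5395 c331 c19769 (k2 c14662 c2863 k0)) (by decide +kernel)
def c20030 : PP 9 3 T 0x200000000000014000000005000000000000000004000800000080000000410000000000000 := rS 0x1eed1198e46237 (k4 c5435 c5434 c5317 c5316 (k2 c2131 c2101 (k1 c3587 k0))) (by decide +kernel)
def c20031 : PP 9 3 T 0x8000000000040000010000000000000000100000000000000000100000000000000000000000000000000000000000080000000000000000000000002 := rS 0x244d6c60fb4294f713fb4847b4333c6acd4a25cc5b1c99dbdcf37aced921c2d06f6681469f482d73fa85a65f1d8cc72311b9840f2810a65524759e822a0336ed01e053a9a512c5 (k8 c18348 c18356 c18347 c18354 c53 c9739 c17712 c5529 (k8 c28 c5414 c5212 c5532 c15906 c5531 c5530 c5528 (k8 c20028 c5432 c661 c5435 c5434 c5317 c5316 c19977 (k8 c19966 c5579 c5578 c5577 c5465 c5462 c5566 c5381 (k8 c5380 c5487 c1903 c663 c664 c2064 c5474 c1998 (k8 c333 c5229 c17990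 c17781 c20029 c16365 c1229 c778 (k8 c13053 c332 c1587 c20030 c888 c14662 c5499 c2863 (k8 c2108 c5657 c3587 c5517 c8113 c1058 c800 c17914 k0)))))))) (by decide +kernel)
def c20032 : PP 9 3 T 0x8000000000000001000200000000000000000000000000000200000000000000000000440000000000000000000040040040400000014000000000000002 := rS 0x32766ac38a5d2a623b3555e4558c75026f3ef7d1a33188f73089459a58a75 (k8 c18354 c18348 c18347 c18350 c18356 c18346 c5436 c5434 (k8 c5316 c5381 c17880 c5566 c5565 c5380 c5504 c5506 (k8 c5582 c5584 c5585 c17990 c11141 c2014 c1229 c781 (k4 c18122 c17895 c2067 c5678 k0)))) (by decide +kernel)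
def c20033 : PP 9 3 T 0x4008000000000044000000000000000000000100000000000000000000000000000000000200000000000000000000010000000000000004010000000000 := rS 0x4742226580755aafd0285a61b9d22cb25d (k8 c17796 c18352 c18350 c5229 c5475 c5579 c5578 c5212 (k8 c1182 c2067 c2061 c5683 c18405 c2858 c351 c12681 k0)) (by decide +kernel)
def c20034 : PP 9 3 T 0x4008000000000045000000000000000000000100000000000200000000000000000000000000000000000000000000000000000000000000000000000002 := rS 0x944e9e56b5162774a324e2973164cb6359d204fa571480d97df6ba3740d33f8cc0e311eb151675449a4b25d (k8 c17796 c18352 c18347 c18356 c18354 c18350 c18348 c5436 (k8 c5434 c5432 c5316 c5577 c5579 c5212 c5381 c5465 (k8 c17880 c5464 c28 c9694 c9758 c5566 c5380 c5229 (k8 c5324 c5474 c10897 c16365 c1229 c781 c20033 c5678 (k8 c9916 c2181 c17987 c2891 c1589 c17388 c2756 c5651 k0))))) (by decide +kernel)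
def c20035 : PP 9 3 T 0x44000000000000020000000000000000000000100000008000000000100001000000000000000000200000000000000000040000000400000000010040002 := rS 0x2509a961b788a4062136aa602ab (k8 c5413 c2143 c5531 c5529 c5528 c28 c9694 c9696 (k4 c5475 c17804 c18405 c20005 (k1 c353 k0))) (by decide +kernel)
def c20036 : PP 9 3 T 0x44000000000000060000000000000000000000100000004000000000100001000000000000000000200000000000000000040000000440000008000000002 := rS 0x6a0fa1e95ec2584f402136aa602ab419a4ca85 (k8 c18349 c18353 c18347 c18355 c5413 c2143 c5531 c5529 (k8 c5528 c5212 c5564 c353 c20004 c20005 c5499 c5517 (k2 c3601 c1058 k0))) (by decide +kernel)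
def c20037 : PP 9 3 T 0x44000000000000020000200000000000000000000000000000000000100011000000000000000000000000000000000010000040000000000000040000002 := rS 0x103f6bfd0c6b559b5528b41994d285 (k8 c18349 c18347 c18353 c18355 c18350 c5531 c5529 c5413 (k4 c1058 c9248 c14972 c5499 (k2 c10690 c5694 k0))) (by decide +kernel)
def c20038 : PP 9 3 T 0x8000000000041000010000000000000000100000000000000000100000000000000000000000000000000000000000008000000000000000000000002 := rS 0xf0cc689abd887a5879ea358e16c8a2413cee02b038a34266f14fcc76331c8c46eab5491d6715019b7680f02ab55efd0e90f65ef3397da67f1fb5c827394681066932a173089 (k8 c18356 c18346 c18349 c18353 c18347 c18355 c5212 c20028 (k8 c19419 c5462 c5465 c5576 c5577 c5579 c19966 c20031 (k8 c20032 c20034 c18379 c5486 c5405 c5406 c5490 c53 (k8 c9739 c17712 c5529 c28 c5414 c5532 c15906 c5531 (k8 c5413 c5435 c5434 c5317 c5316 c19977 c19980 c9694 (k8 c5565 c5564 c5381 c781 c17895 c2143 c20035 c20036 (k8 c5651 c2968 c14996 c1093 c5281 c2166 c20037 c5517 (k4 c19883 c5171 c3601 c5501 (k2 c18037 c1174 (k1 c2385 k0))))))))))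 (by decide +kernel)
def c20039 : PP 9 3 T 0x8000000000041000010000000000000000100000000000000000100000000000000000000000000000000000000000000000000000000000000000002 := rS 0x238459d899a810049df24630eecbde7340a34266f3ee80ae290190596d71f9fd42d32f8cc7a6103ca0ce8b3ab14b289 (k8 c18356 c18352 c18348 c18354 c18350 c20031 c20028 c5432 (k8 c661 c5436 c5316 c19966 c5579 c5578 c5577 c5576 (k8 c5465 c5464 c5462 c28 c9694 c9758 c5212 c5566 (k8 c5565 c5564 c5381 c5380 c19419 c20032 c20034 c5486 (k8 c20038 c16365 c11141 c5438 c12823 c17999 c11559 c10693 (k2 c2966 c18677 (k1 c351 k0))))))) (by decide +kernel)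
def c20040 : PP 9 3 T 0x8000000000040000010000000000000000100000000000000000100000000000000000000000000000000000000000000000000000000000000000002 := rS 0xf00a63921204b131c2969b31a7f604759a64da218aa7768130183c0acb3fa87e63b2fe80e6171b9840f28 (k8 c20028 c5432 c661 c5435 c5433 c19419 c5212 c19966 (k8 c19977 c19980 c5578 c5577 c5464 c53 c9739 c28 (k8 c5564 c17712 c5412 c5414 c5528 c5529 c5530 c5532 (k8 c15906 c20039 c5448 c5395 c5397 c9578 c19981 c19769 (k4 c353 c11694 c5660 c800 (k2 c10368 c10374 (k1 c2307 k0))))))) (by decide +kernel)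
def c20041 : PP 9 3 T 0x8000000000042000010000000000000000100000000000000000000000000000000000000000000000000000000000000000000000000000000000002 := rS 0xe112ac8e0634fe800a2901b2cfea16f97e51b5a52d62073 (k8 c19419 c20040 c1340 c9727 c5411 c20028 c19966 c5580 (k8 c5578 c5577 c5464 c28 c9694 c53 c5212 c5448 (k4 c5395 c19981 c885 c2755 (k2 c2898 c15031 k0)))) (by decide +kernel)
def c20042 : PP 9 3 T 0x8000000000040000010080000000000000100000000000000000000000000000000000000000000000000000000000000000000000000000000000002 := rS 0xec7364459d899a9ef081dc127340a34266f3ee80ae2901b2daea1698cc7a6103ca3628b3ab14b289 (k8 c18356 c18352 c18348 c18354 c18350 c20041 c20028 c5432 (k8 c661 c5436 c5316 c5579 c5578 c5465 c5464 c28 (k8 c9694 c9758 c5212 c5566 c5565 c5564 c5381 c5380 (k8 c19419 c5438 c5356 c12823 c17781 c17999 c11559 c10693 (k4 c2966 c20034 c18677 c5486 (k1 c351 k0)))))) (by decide +kernel)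
def c20043 : PP 9 3 T 0x4008000000000040000010000000000000000100000000000000000000000000000000000000000000000000000000000000000000000000000000000002 := rS 0x10322ac1e4af56ec91a6f20b2dc6a18a09276cd38988fff32f9cc4e05d03d694371db47c193d88f473b5880c467281480f3089 (k8 c18356 c18346 c28 c9694 c20028 c5316 c5434 c20040 (k8 c5411 c5317 c5436 c20041 c20042 c5235 c5459 c19977 (k8 c5435 c9727 c5519 c5212 c53 c19407 c19419 c19966 (k8 c19980 c5577 c16365 c781 c5537 c19963 c19387 c16791 (k8 c5578 c5466 c5464 c5462 c5565 c5381 c20034 c9614 (k4 c5406 c19415 c17895 c2968 (k2 c2628 c1295 k0))))))) (by decide +kernel)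
def c20044 : PP 9 3 T 0x8000000000040000010000000000000000100000000000000000000000000000000000000000000000000000000000000000000000000000000000002 := rS 0x3d81c436ccccb1f7335a2714bf80c593d8bf6946ddac425073469bf40416b8fcfed32fe611269 (k8 c18347 c18356 c18346 c19966 c5579 c5577 c5576 c5465 (k8 c5462 c5212 c5565 c5381 c19419 c20028 c20040 c5411 (k8 c160 c9727 c1238 c20041 c20042 c16365 c5235 c1229 (k8 c781 c5459 c5537 c20043 c5506 c20032 c17895 c882 (k2 c9843 c18458 (k1 c5499 k0)))))) (by decide +kernel)
def c20045 : PP 9 3 T 0x8000000000040000000080000000000000100040000000000000000000000000000000000000000000000000000000000000000000000000000000002 := rS 0x6d00a1901e73e7a0 (k8 c5212 c19979 c20044 c28 c9701 c53 c5231 c17907 k0) (by decide +kernel)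
def c20046 : PP 9 3 T 0x8000000000041000000000000000000000100000000000000000000000000000000000000000000000000000000000000000000000000000000000002 := rS 0x81123a26550976a435499c3afd57ab7646d9d82e95efc9204fa2901f7dae8dd034cff11439ae539c459950669429d512c5 (k8 c18348 c18356 c18354 c18349 c18347 c18355 c18353 c18350 (k8 c20044 c19356 c5523 c5373 c5371 c5577 c5579 c5212 (k8 c5381 c5465 c17880 c28 c9694 c5566 c5380 c5209 (k8 c17989 c20045 c5516 c18477 c665 c5224 c9614 c5406 (k8 c5405 c5486 c5487 c5489 c18379 c18383 c20003 c3601 (k4 c5651 c351 c5658 c15411 (k1 c2966 k0))))))) (by decide +kernel)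
def c20047 : PP 9 3 T 0x8000000000052000200080000000000000000000000000000000100000000000000000000000000000001000004000400000000000000000000000000 := rS 0x3e68f (k2 c5568 c19979 (k1 c12438 k0)) (by decide +kernel)
def c20048 : PP 9 3 T 0x4000000000000040000000000000000000000100000004000000000000000000000000000000000000000000000000020000000000000000000000000002 := rS 0x11d2187765a013114208b (k8 c18350 c667 c2966 c668 c5212 c5229 c5486 c18379 (k2 c351 c5658 k0)) (by decide +kernel)
def c20049 : PP 9 3 T 0x8000000000040000000000000000000000100080000000000000000000000000000000000000000000000000000000000000000000000000000000002 := rS 0x70b1d9ccd68c00ecd5f77b67681899f51fdf6ba35a687f09e52270d818e539c2fa84fecbd01cd0a8941b14ea8b (k8 c18350 c18354 c18348 c18355 c18356 c18349 c19419 c5212 (k8 c5464 c5577 c5578 c19966 c20044 c19356 c19420 c20046 (k8 c19981 c5374 c5524 c17754 c5373 c5579 c5381 c5465 (k8 c17880 c5568 c5566 c5382 c5380 c18477 c18450 c20048 (k8 c5585 c17990 c18000 c2131 c2077 c5688 c14679 c1652 (k1 c17854 k0)))))) (by decide +kernel)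
def c20050 : PP 9 3 T 0x8000000000052000020000000000000000100040000000000000000000000000000000000000000000000000000000000400000000000000000000000 := rS 0x1aa77683359efe637b6030370fc903133ea3dbfdf6ba35a67f43f84f291d0315167544a173083 (k8 c18355 c18346 c18349 c18356 c18354 c18350 c18348 c5212 (k8 c5374 c5524 c17754 c5373 c5577 c5579 c5381 c5465 (k8 c17880 c5580 c5568 c5566 c5382 c5380 c5231 c13896 (k8 c5550 c5592 c17809 c17861 c18001 c2560 c2506 c5688 (k2 c14679 c1710 (k1 c17987 k0)))))) (by decide +kernel)
def c20051 : PP 9 3 T 0x8000000000040000000000000000000000100000000000000000000000000000000000000000000000000000000000000000000000000000000000002 := rS 0x4a10ed29626386c0c7293ce70bea13fb2ce7a0 (k8 c5212 c19419 c5464 c5577 c5578 c19966 c20044 c5524 (k8 c19356 c19420 c20046 c19981 c668 c20049 c20050 c5528 (k2 c19968 c353 k0))) (by decide +kernel)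
def c20052 : PP 9 3 T 0x40000000000000000000000100000000000100000000000000000000000000000000000000000040020000000000000000000000000002 := rS 0x1f8f4821012814520349a7f61e3 (k8 c20051 c5226 c5448 c5444 c28 c9694 c53 c2755 (k4 c667 c13854 c12427 c2907 (k1 c5655 k0))) (by decide +kernel)
def c20053 : PP 9 3 T 0x20000000000000000000000008000000000000000050000000000000000000000000000000000000000000000000000000004400 := rS 0x2dbcd0e0d42965065d (k8 c17796 c18355 c18352 c18349 c5522 c5373 c5325 c5474 (k1 c3571 k0)) (by decide +kernel)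
def c20054 : PP 9 3 T 0x41004400000000000000220000000000000000100040000000000000000004000000000108100000005000510000000010000000001400045000100800402 := rS 0x34ac1a19fdd3b7bc75aef5078150f29 (k8 c19356 c5373 c53 c9739 c2339 c1770 c5778 c8188 (k4 c20053 c5724 c18387 c5653 (k2 c19392 c1620 (k1 c18389 k0)))) (by decide +kernel)
def c20055 : PP 9 3 T 0x41004400000000000000220000000000000000100040000000000000000004000000000100100000005000510000000010000000009400545000100800002 := rS 0xd2b1ea3433c0fdd3b7bc75ae7667a350ecdf04a4171341b150a75 (k8 c18354 c18349 c18348 c18355 c5382 c2588 c19356 c5168 (k8 c5537 c5373 c5381 c20054 c17944 c2187 c5778 c8188 (k8 c13955 c5724 c10772 c18387 c5653 c2594 c19392 c1620 (k1 c18389 k0)))) (by decide +kernel)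
def c20056 : PP 9 3 T 0x60000020000000000000000100040000000000000000000000000000000000000000000000000000010000000000000000000000000002 := rS 0xeecfef3fc3cd5251244ecd207806e391f8f462331dfcc10165a1788fed59aa4da218aaad3a738984cde7d47e801e051480e2291069acf29364a6d2a99d84a7c68362a14ea59 (k8 c18352 c18354 c18349 c18348 c18355 c20051 c19356 c5226 (k8 c5447 c5446 c5397 c5396 c5444 c5524 c5523 c5522 (k8 c5374 c5371 c28 c9694 c53 c9739 c5212 c5568 (k8 c5566 c5565 c5564 c5382 c19419 c5412 c5413 c5414 (k8 c5528 c5529 c5531 c5532 c18382 c12800 c15827 c3604 (k8 c1054 c1055 c5548 c1676 c271 c1508 c1512 c275 (k8 c273 c1510 c5168 c5655 c5537 c349 c17676 c10205 (k4 c4222 c17914 c4709 c20055 (k2 c5453 c5493 (k1 c17944 k0)))))))))) (by decide +kernel)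
def c20057 : PP 9 3 T 0x80004000000000010000220000000000000000100040000000000000000000000000000004000000000000004000000000000800000000040000000000002 := rS 0x3c23b3bb3440d513900723f1e8202c73099bcfa0d94fbda6fe80c0d0e9147a36268362a14eb98 (k8 c18346 c18354 c18349 c18348 c18355 c5382 c5381 c5568 (k8 c5374 c5373 c5550 c5592 c18001 c2943 c18955 c19356 (k8 c5522 c5566 c5565 c5564 c19419 c1054 c1055 c1512 (k8 c275 c273 c5655 c349 c4222 c15948 c2507 c10131 (k2 c340 c17944 (k1 c5654 k0)))))) (by decide +kernel)
def c20058 : PP 9 3 T 0x100000008000100000000000000000000040800000000000004000100000000400000020000000000000002 := rS 0x4e4c2c331381cae29018d4b63162964ea5d (k8 c17796 c18354 c18352 c18348 c5476 c5474 c5324 c28 (k8 c9694 c9758 c1734 c349 c545 c9148 c10897 c1506 (k1 c5643 k0))) (by decide +kernel)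
def c20059 : PP 9 3 T 0x40000000000000000000000100000008000100000000000000000000040000000000000000000040000000400000000000000000000002 := rS 0x15f1c130444a3e208f5947340e80520331a4d43b0f19c48a672da2cb25d (k8 c17796 c18352 c18350 c5474 c663 c5326 c20052 c20051 (k8 c5226 c5398 c5444 c19420 c28 c9694 c5212 c5380 (k8 c19419 c19981 c1490 c20058 c5655 c1091 c2907 c5651 (k2 c12681 c2986 (k1 c19934 k0))))) (by decide +kernel)
def c20060 : PP 9 3 T 0x40000020000000000000000100040000000000000000000000000000004000000000000000000040000000000000000000000000000002 := rS 0xd8105e699e527b0f1bfa030343a451e8d89cebdbf2d06d4e32942a0d1798 (k8 c18346 c18350 c18355 c18349 c19356 c20052 c20056 c5212 (k8 c5231 c17809 c18380 c5382 c5381 c5568 c5374 c5373 (k8 c5550 c5592 c18001 c20051 c5226 c5444 c5524 c2943 (k4 c20059 c1055 c20057 c1510 k0)))) (by decide +kernel)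
def c20061 : PP 9 3 T 0x40000020000000000000000100040000000000000000000000000000000000000000000000000040000000000000000000000000000002 := rS 0x704e4c3c36f0b78723b63b39e6359d7b7e5b538a04fba00280cae23889ecd6794da676129f1a151683 (k8 c18355 c18350 c18349 c20051 c19356 c5226 c5447 c5397 (k8 c5524 c5523 c5372 c5371 c9731 c9758 c28 c53 (k8 c5212 c5566 c5380 c20052 c20056 c5231 c17809 c18380 (k8 c5324 c5325 c20060 c2560 c1646 c2558 c17861 c5538 (k4 c5654 c8484 c17851 c1510 (k2 c13795 c5643 k0)))))) (by decide +kernel)
def c20062 : PP 9 3 T 0x4004000000000002000000000000000000000100040000000100000100008000000400108000000000000000000005000400000000000000000000000002 := rS 0x5f36824429d1b784723b6f3cc6ad29d35d8fdf1198d3285 (k8 c18349 c5447 c19420 c9731 c5453 c2560 c1769 c5166 (k8 c5689 c5324 c5325 c2942 c1646 c2558 c5538 c5654 (k4 c1480 c2418 c1510 c666 (k2 c1055 c18019 k0)))) (by decide +kernel)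
def c20063 : PP 9 3 T 0x2000000000000000000000000000000000000000100000000000000000000000000000000000005000404000000000080000000000002 := rS 0x5f3682442c74e95c4699 (k8 c5447 c9731 c9758 c1480 c2326 c2418 c1510 c666 (k2 c1055 c18019 k0)) (by decide +kernel)
def c20064 : PP 9 3 T 0x4000000000000040000000000000000000000100000000000100000000000000000000040000000000000000000080000000000000000000000000000102 := rS 0x35fbe963396e7470579144c1012818be052b8a40695d864ceed546e83c66932b14ea8b (k8 c18350 c18354 c18348 c18353 c18347 c20051 c5212 c5381 (k8 c2998 c10131 c5358 c5226 c5446 c28 c9694 c9758 (k8 c53 c1055 c5643 c13678 c676 c5651 c2966 c2986 (k8 c2858 c20048 c5474 c663 c18020 c5452 c1768 c5689 k0)))) (by decide +kernel)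
def c20065 : PP 9 3 T 0x80000000000000040000020000000000000000100040000000000000000000000000000000000000000000000000000000000000000000000000000000002 := rS 0x5987b68711089c74401c8fc11e13bb4d9ecd7f7be030371ad4e68d8984cde8fd021d220d498df61e331ca4f26b3dc45aa3d3f15d06c5429d7308b (k8 c18350 c18346 c18354 c18349 c18348 c18355 c9758 c20061 (k8 c2765 c2998 c5371 c5372 c5523 c5524 c19356 c19420 (k8 c20051 c5226 c20063 c5444 c5522 c5374 c5373 c5212 (k8 c5568 c5565 c5564 c5382 c5381 c19419 c5548 c5549 (k8 c5550 c5592 c18955 c18001 c2507 c20062 c2943 c10131 (k8 c17944 c20064 c275 c273 c5655 c5654 c349 c340 (k4 c668 c15948 c17914 c2322 (k1 c18007 k0)))))))) (by decide +kernel)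
def c20066 : PP 9 3 T 0x40000020000000000000000100040000000000000000000000000000000000000000000000000000000000000000000000000000000002 := rS 0x25098e0b310ed3e691 (k8 c5374 c20065 c5231 c5528 c5532 c20056 c668 c11694 (k1 c353 k0)) (by decide +kernel)
def c20067 : PP 9 3 T 0x40000000000000040000020000000000000000100000000000000000000000000000000000000000000000000000000020000000000000000000000000002 := rS 0x97339ddfad059379c6b5f0ed538c72f818123e802a5fee11e907dc7e084544a8d8984d1e051480e227b43a44d67931a4d3e95d84a7c7ed9de80da0ba51a4cac53aa250a83 (k8 c18355 c18349 c18356 c18354 c18348 c18353 c18347 c20066 (k8 c5516 c665 c5212 c18477 c18450 c20051 c19356 c5226 (k8 c5446 c5448 c5444 c19420 c5524 c5523 c5374 c5373 (k8 c5372 c5371 c28 c9694 c53 c5568 c5564 c5382 (k8 c5381 c2755 c3048 c667 c20052 c20048 c13854 c12427 (k8 c3058 c5586 c12252 c18000 c5655 c275 c2908 c1055 (k8 c674 c18019 c15975 c5458 c1343 c1778 c5691 c5685 (k4 c2953 c2556 c2132 c5830 (k2 c1709 c18020 k0))))))))) (by decide +kernel)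
def c20068 : PP 9 3 T 0x40000020000000000000000100080000000000000000000000000000000000000800000000000000010000000000000000010000000000 := rS 0x4c101292e261347e801a47 (k8 c5520 c5522 c5212 c5568 c5564 c5382 c2455 c2760 (k2 c17919 c5651 (k1 c2858 k0))) (by decide +kernel)
def c20069 : PP 9 3 T 0x40000000000000040000020000000000000000100000000000000000000000000000000000000000000000000000000000000000000000000001000000002 := rS 0xc74eb7cbeb404b862a3e1e89882738984cde8fd0444f691359e5269f4dec253e3249b416b338d285203 (k8 c28 c9694 c20066 c20067 c20068 c5516 c665 c5334 (k8 c20051 c19356 c5226 c5397 c5448 c5444 c5524 c5523 (k8 c5374 c5372 c5371 c5212 c5568 c5565 c5564 c5382 (k8 c19419 c13854 c5651 c12427 c5655 c3046 c16773 c275 (k4 c3604 c1055 c2514 c1343 (k2 c9140 c17977 k0)))))) (by decide +kernel)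
def c20070 : PP 9 3 T 0x2000200080000000000000000000000000000000000000000000040000000000000000000000004010000000000000440002000001402 := rS 0x200e194570781c0a03 (k8 c28 c53 c15046 c9739 c9758 c12830 c18025 c1091 (k1 c547 k0)) (by decide +kernel)
def c20071 : PP 9 3 T 0x40000000000000040000020000000000000000100000000000000000000000000000000000000000000000000000000000000000000000000000000000002 := rS 0x5699c3a34188cc1193effbb66df03c5049b538e80065707815220d49a846fb0f198e5279359ee223b0f92416479dd28ea59 (k8 c18352 c18354 c20066 c18477 c5520 c5516 c5334 c5517 (k8 c5332 c5371 c5372 c5523 c5524 c19356 c19420 c20051 (k8 c5226 c20063 c5398 c5444 c5522 c5374 c53 c9739 (k8 c9758 c28 c5212 c20067 c13576 c20069 c16791 c15046 (k8 c2950 c18457 c5229 c19313 c20070 c5643 c271 c1508 (k4 c5653 c331 c664 c2759 (k1 c19392 k0))))))) (by decide +kernel)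
def c20072 : PP 9 3 T 0x40000020000000000000000100000000000000000000000000000000000000000000000000000000000000000000000000000000000002 := rS 0x881080c0c97f29d91c174a46c4f408b (k8 c18350 c5212 c5382 c5381 c20066 c5516 c5520 c18477 (k4 c20071 c5546 c5550 c5592 (k2 c17818 c18698 (k1 c2966 k0)))) (by decide +kernel)
def c20073 : PP 9 3 T 0x4000000000000040000000000000000000000100080004000100000000000000000000010000000000000000000000000000000004100105000000000002 := rS 0x1e51c66b3c6a43ef6cb41e31dbdc6ef5 (k8 c5519 c5518 c5333 c5332 c20051 c5212 c5229 c5166 (k4 c18379 c5450 c5453 c5495 (k2 c5658 c3587 (k1 c554 k0)))) (by decide +kernel)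
def c20074 : PP 9 3 T 0x80000800000000000000000000000000000000000000000000000000000004000000040511000000000000000000000000000000000000000000000000000 := rS 0x1a6cf71c0dc301 (k4 c5592 c5591 c5550 c5549 (k2 c5453 c5496 (k1 c3627 k0))) (by decide +kernel)
def c20075 : PP 9 3 T 0x80000000000000040000000000000000000000100080004000100000000000000000000010040000000000000000000010000000000100000002000000202 := rS 0x15a670e8d3becd433fdaad7f737c727b188cf268d89a3f419d25a46023b49ec3c68942a0cea59 (k8 c18352 c18354 c18355 c18349 c18356 c20051 c5226 c5444 (k8 c5332 c5592 c5589 c5546 c20072 c5212 c5568 c5382 (k8 c5381 c5438 c271 c1508 c1684 c274 c14796 c20073 (k8 c5507 c5585 c5586 c18000 c2074 c20074 c5653 c331 (k2 c664 c2759 (k1 c19392 k0)))))) (by decide +kernel)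
def c20076 : PP 9 3 T 0x80000000000000040000000000000000000000100080004000100000000000000000000000000000000000000000000010000000000100000004000000002 := rS 0x6f9ed9ccdefa19fed5f71002db365784ee7f3ce48be0903b44c2a14fb1f606340a36268f0295fc6e370c07dba0120a40710da9ad221fceb14ea8942a0f308b (k8 c18350 c18346 c18355 c18349 c18356 c18354 c18348 c20072 (k8 c5517 c5589 c1058 c17914 c17712 c28 c9694 c5651 (k8 c5212 c17809 c5592 c5591 c5549 c20051 c9758 c53 (k8 c5568 c5382 c5381 c5380 c19420 c5226 c796 c5448 (k8 c5398 c5445 c17698 c15046 c20075 c1055 c5643 c5441 (k8 c5358 c5356 c11668 c12830 c18631 c19769 c1091 c5229 (k8 c4222 c5586 c18000 c17767 c2073 c5688 c11210 c2564 (k1 c17983 k0)))))))) (by decide +kernel)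
def c20077 : PP 9 3 T 0x80000000000000002000210000000000000000100000000000000000200000000000000000000000400004000000000010001000000000000004000400002 := rS 0xf3e13da718e7ec998d42b571a462ae12fb2c5203 (k8 c28 c9694 c9148 c1054 c5591 c5590 c5589 c5549 (k8 c5548 c5398 c5395 c12830 c19769 c796 c18117 c891 (k2 c5458 c1537 (k1 c5669 k0)))) (by decide +kernel)
def c20078 : PP 9 3 T 0x9000000000000010000200000000000000000000080000000200000000001000000000011000000000000040000000050000000000000000002000000002 := rS 0xad3387766b1469bf3089 (k8 c18356 c18346 c5565 c5381 c5506 c17895 c18458 c664 (k2 c2759 c19392 k0)) (by decide +kernel)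
def c20079 : PP 9 3 T 0x80000000000000051000000000000000000000100080004000200000000000000000000000000000000020000000004010000000000100000002000000002 := rS 0x8e3c887b2f7b352ed1f018b26df4d9cd03134792dc69170fb740b323bf58e9d8ac433a693aa15068b (k8 c18350 c18355 c18349 c18354 c18347 c20072 c17712 c5590 (k8 c1277 c797 c1238 c5520 c2760 c5212 c17809 c5591 (k8 c5589 c5549 c5546 c5568 c5382 c5380 c19419 c1188 (k8 c13097 c17932 c16365 c5235 c8113 c1229 c5537 c20078 (k4 c5229 c18379 c19391 c5658 (k1 c554 k0)))))) (by decide +kernel)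
def c20080 : PP 9 3 T 0x80000000000000040000000000000000000000100080004000000000000000000000000000000000000000000000000010000000000000000000000020002 := rS 0x634d64933e13d27541b14fb2cc23d0b81e511059ed44827d00a407e3cea462a473587c8a8b (k8 c18350 c2966 c5517 c1058 c5520 c5590 c5589 c20072 (k8 c20051 c28 c9694 c5212 c2858 c5651 c17914 c2760 (k8 c17712 c20076 c5432 c5433 c5436 c661 c9148 c2756 (k8 c20077 c5680 c1277 c20079 c5457 c1593 c5235 c5679 (k2 c5355 c1187 k0))))) (by decide +kernel)
def c20081 : PP 9 3 T 0x88000000000000040000000000000000000000100080000000000000000000000000000000000000000000000000008020000000000000000000000000002 := rS 0x1a2cd691df25b1efca0fec7409f493ed1d91f6911ceb5daa8646a3d2313d04058a89459d50685 (k8 c18349 c18355 c18354 c18350 c18356 c18348 c5592 c5212 (k8 c5382 c5589 c5568 c5381 c18000 c5585 c5507 c20072 (k8 c884 c17712 c5520 c5332 c17809 c5588 c5566 c5380 (k8 c162 c891 c20052 c17767 c9578 c15205 c5356 c17999 (k2 c2073 c2135 (k1 c11210 k0)))))) (by decide +kernel)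
def c20082 : PP 9 3 T 0x88000000000000000000200080000000000000000000000000000000000000000000000000000000000000000000004000000000000000000000000000000 := rS 0xd167f7da4def09fcf2813eb8dc3ed6bb55fecd432351e9189c04ea8962a2d0685 (k8 c18349 c18355 c18350 c18348 c18356 c18354 c5592 c5382 (k8 c5589 c5568 c5381 c18000 c2074 c5586 c5585 c5507 (k8 c17809 c5591 c5549 c5566 c5380 c5441 c5358 c11668 (k4 c17983 c17999 c17767 c2564 (k2 c2135 c5688 k0))))) (by decide +kernel)
def c20083 : PP 9 3 T 0x20000210040000000000000000080000000200000000000000000000000040000000000000000000020000000001000000000000000002 := rS 0x6c47647 (k4 c5520 c5332 c9578 c15205 k0) (by decide +kernel)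
def c20084 : PP 9 3 T 0x40000000040000000000000100080000000000000100000000000000000040000000000000000004020000000001000000000000020002 := rS 0x3c97c0c091f1047a933f6c0c72909e80ae2901f8c6e6b0f9b4162502a77699d (k8 c20072 c17712 c5412 c53 c2755 c5516 c665 c5517 (k8 c1058 c5518 c20051 c28 c9694 c9758 c5212 c5564 (k8 c20083 c19420 c5226 c20052 c5444 c2765 c13854 c5655 (k4 c275 c2908 c1055 c1454 (k1 c18019 k0))))) (by decide +kernel)
def c20085 : PP 9 3 T 0x80000000000000040000000000000000000000100080004000000000000000000000000000000000000000000000000000000000000000000000000020002 := rS 0x6598b632818f7c6a333b3419fe16364d9a7b436d3dd11381cd1b134795f3a4948b8603edd00edee4742a25068b (k8 c18350 c18355 c18356 c18349 c5520 c5333 c5332 c5212 (k8 c17809 c5592 c5591 c5589 c5588 c20072 c9758 c5568 (k8 c5382 c5381 c19419 c20080 c884 c20048 c17712 c18000 (k8 c20081 c2074 c20082 c20084 c5535 c2560 c799 c798 (k8 c12046 c1704 c5493 c1913 c5653 c9578 c16365 c1322 (k1 c14640 k0)))))) (by decide +kernel)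
def c20086 : PP 9 3 T 0x10040000000000000000080004000000000000000000000000020000000000000000008004000000004000000000000000002000 := rS 0x4a463df1c1d866c61a8edee75 (k8 c18354 c5333 c5332 c1704 c8113 c2129 c798 c2480 (k4 c5493 c1913 c5317 c5653 k0)) (by decide +kernel)
def c20087 : PP 9 3 T 0x80000000000000000000200000000000000000000000000000000000000000000000040000040000000000000000004000000000000000040000000010080 := rS 0x7f3ca06267d47b8d22e1 (k8 c5591 c5589 c5549 c5568 c5566 c5382 c5380 c1454 (k2 c676 c3610 k0)) (by decide +kernel)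
def c20088 : PP 9 3 T 0x80000000000000040000000040000000000000100080004000100000000000000000000000000000000000000000000000000000000100000000000000042 := rS 0x411f8f44a930409b60133ee80ae2901f8ce211 (k8 c20085 c667 c20051 c28 c9694 c9758 c5212 c5566 (k8 c5564 c5226 c20076 c5643 c5444 c60 c1512 c275 (k2 c13854 c5655 k0))) (by decide +kernel)
def c20089 : PP 9 3 T 0x80000000000000042000000000000000000000100080000000200000000000000000000000000000000000000000000010001000000020000000000000002 := rS 0xb38809c49b549e833a470ba7c5203 (k8 c28 c9694 c1602 c5433 c5520 c20072 c5212 c5444 (k4 c9578 c13854 c349 c17712 (k2 c2760 c20077 k0))) (by decide +kernel)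
def c20090 : PP 9 3 T 0x88000000000000040000000040000000000000100080004000000000000000000000000000000000000000000000004000000000000000000000000000002 := rS 0xda89140276598b629f204a0c2076fb1da286229cd1a571480fc79d71b86023b1b9ac3e7106045220b078151e478992427a025a250a83 (k8 c18355 c18349 c18356 c5546 c5212 c5564 c5588 c5382 (k8 c5520 c5568 c53 c9739 c5516 c5589 c20085 c12614 (k8 c667 c5517 c1058 c5518 c5332 c5592 c5591 c5549 (k8 c20072 c20051 c28 c9694 c9758 c5381 c19419 c5582 (k8 c18000 c20086 c799 c14796 c20087 c661 c20088 c17934 (k8 c1602 c20089 c16365 c1322 c350 c5680 c5651 c17914 (k1 c20079 k0))))))) (by decide +kernel)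
def c20091 : PP 9 3 T 0x80000000000000040000000040000000000000100080004000200000000000000000000000000000000000000000004000000000000000000000000000002 := rS 0x8bb5122804ecb316c53e406f9858e071c9cc5203f1e75c6e11d9ac3e7106045220b078151e478992427a025abf65ef (k8 c20090 c5229 c5406 c5546 c5212 c5564 c5588 c5382 (k8 c5520 c5568 c53 c9739 c5516 c5589 c20085 c12614 (k8 c667 c5517 c1058 c5332 c5591 c5549 c20072 c20051 (k8 c28 c9694 c19419 c5317 c5432 c2480 c661 c14796 (k8 c17934 c1602 c20089 c16365 c1322 c350 c5680 c5651 (k2 c17914 c2968 (k1 c20079 k0))))))) (by decide +kernel)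
def c20092 : PP 9 3 T 0x80000000000000040000000040000000000000100080004000000000000000000000000000000000000000000000004000000000000000000000000000002 := rS 0x7e411e82088073bb546bded84a43a97d97bc27a00195fc798 (k8 c18346 c20051 c9758 c28 c5212 c5564 c20090 c5229 (k8 c5404 c5486 c20091 c5226 c5166 c5450 c5454 c5493 (k4 c8216 c20088 c5643 c2970 (k2 c458 c275 (k1 c5655 k0))))) (by decide +kernel)
def c20093 : PP 9 3 T 0x80000000000000040000000000000000000000100080004000000000000000000000000000000000000000000000004000000000000000000000000000002 := rS 0x8824da89d40cb4fb2080616981c7e33946c4869533a5d5fb21efbdbc77319fcf2092fe490313099f51fa02b8a407e371a45c2473587ce2113a9958a69 (k8 c18347 c18348 c18353 c18354 c20085 c667 c5517 c1058 (k8 c5520 c5591 c5589 c5549 c20051 c28 c9694 c9758 (k8 c5212 c5568 c5566 c5564 c5382 c5380 c20092 c5439 (k8 c5438 c5441 c5358 c5355 c5356 c17983 c20082 c2770 (k8 c5229 c5406 c5404 c5487 c5488 c18379 c18631 c5226 (k8 c5316 c5318 c5432 c15747 c661 c12613 c3597 c1602 (k4 c1325 c10123 c350 c14968 (k2 c5651 c20079 (k1 c2968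 k0))))))))) (by decide +kernel)
def c20094 : PP 9 3 T 0x40000000080000000000000100000004000000000000000000000000000000000000000000000000000001400000224001000000000002 := rS 0x1929533a5dac1d56c7740f11480cc6773a9958a69 (k8 c18347 c18348 c18353 c18354 c5356 c5355 c28 c9694 (k8 c9696 c5212 c190 c2887 c3684 c459 c19758 c664 (k2 c10191 c16906 (k1 c3597 k0)))) (by decide +kernel)
def c20095 : PP 9 3 T 0x40000000000000000000000100000004000000000000000000000000400200000000004000000000010040000000004004000000000002 := rS 0x142d35810f65ef569cd1a6fd078f3089 (k8 c18356 c18346 c20051 c5212 c5565 c5381 c19419 c2068 (k4 c19392 c5229 c18379 c17895 (k2 c15747 c1198 (k1 c10123 k0)))) (by decide +kernel)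
def c20096 : PP 9 3 T 0x40000000080000000000000100000004000200000000000000000000400000000000004040000000010040000000000000000000000102 := rS 0x385a4a325e277198fc6261039a58a65 (k8 c18353 c18348 c18347 c5432 c661 c5434 c5318 c5316 (k4 c5356 c9696 c20095 c18033 (k2 c19494 c10191 (k1 c1994 k0)))) (by decide +kernel)
def c20097 : PP 9 3 T 0x88000000000000000000200000000000000000000000000000000000000000000000000000000000000000000000008400000000000000000000000000000 := rS 0xd166b4bbe866aa051b133ea3e03ed3fa458a893aa15068b (k8 c18350 c18355 c18349 c18354 c18356 c18348 c5589 c891 (k8 c17809 c5592 c5568 c5566 c5382 c5381 c5380 c5585 (k4 c18000 c17767 c17990 c2073 (k2 c2135 c11210 k0)))) (by decide +kernel)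
def c20098 : PP 9 3 T 0x40000000080000000000000100000004000200000000000000000000000000000000000040000040000040400000000000000000010102 := rS 0x1ae454f900c23d1881c7e814684cfba02b8a40671 (k8 c667 c28 c9694 c9758 c5212 c5566 c5564 c5381 (k8 c5380 c5318 c5432 c5434 c5436 c661 c12613 c1602 (k2 c20094 c19455 (k1 c20096 k0)))) (by decide +kernel)
def c20099 : PP 9 3 T 0x80000000000000040000000080000000000000100000004000000000000000000000000000000000000000000000008000000400000000000000000010102 := rS 0x6c652674becbde77d078cfe91 (k8 c5589 c891 c20051 c5212 c5356 c20097 c5229 c5404 (k4 c5487 c20098 c18631 c5226 k0)) (by decide +kernel)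
def c20100 : PP 9 3 T 0x4004000000000040000000000000000000000100000004000100000000000000000000000000000000000050000000000040400000000000000000000000 := rS 0x1dbbdb0349958a75 (k8 c18354 c18348 c18353 c18347 c5226 c5166 c18020 c5493 k0) (by decide +kernel)
def c20101 : PP 9 3 T 0x1000010040000000000000000000000000000000000000000000000000000000000000000000008000000000000000000000000000002 := rS 0x886d0c5e1 (k4 c5457 c16365 c5235 c888 (k1 c5411 k0)) (by decide +kernel)
def c20102 : PP 9 3 T 0x80000000000000040000000000000000000000100080004000200000000000000000000000000000000000000000000000000000000000000000000000002 := rS 0x41038fd02133e95cc23d651fd226350ec326091de74be7a3587ce211d01cc5203 (k8 c28 c9694 c19419 c5212 c20085 c667 c5517 c1058 (k8 c20093 c1687 c20072 c5332 c1684 c20099 c20101 c5398 (k8 c5395 c5589 c891 c19981 c1490 c5445 c9758 c5566 (k4 c5564 c5380 c5318 c5432 (k2 c20089 c12613 k0))))) (by decide +kernel)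
def c20103 : PP 9 3 T 0x4000000000048000000000000000000000100000004000100000000000000000000000000000000000010000000010000400000000000000000000000 := rS 0x1ef33a5d5ba0 (k4 c5212 c5490 c5404 c5487 (k2 c19392 c20100 k0)) (by decide +kernel)
def c20104 : PP 9 3 T 0x80000000000000040000000000000000000000100080004000000000000000000000000000000000000000000000000000000000000000000000000000002 := rS 0xf2218c86276f76cc7c41034a47aca4a98d43b0c9824fe5f679e8e21139a0740571480fc79d25a46023b7a9ac3ec5 (k8 c18348 c5517 c1058 c5519 c5332 c5592 c5589 c5546 (k8 c20072 c20051 c28 c9694 c9758 c5212 c5380 c19419 (k8 c20085 c667 c20093 c1648 c1687 c891 c1684 c20099 (k8 c20101 c5398 c5395 c5446 c19981 c1490 c20102 c17741 (k8 c1734 c5655 c20103 c5229 c20097 c1913 c673 c2912 (k2 c19710 c388 k0)))))) (by decide +kernel)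
def c20105 : PP 9 3 T 0x4000000000000046000000000000000000000000000000000000000000000000000000080000000010000000000000000000000000000000000000000000 := rS 0x57ac542c9 (k4 c5396 c5398 c2085 c2940 (k1 c5683 k0)) (by decide +kernel)
def c20106 : PP 9 3 T 0x4000000000000040000000000000000000000100000008000100000000000000000000040000000000000000000000000000400000000000000000000002 := rS 0xca202587e77040f5aa7e40a3427a02b99cb6934aec3c66932b14ea8b (k8 c18350 c18354 c18348 c18353 c18347 c20051 c5226 c5446 (k8 c5444 c5474 c663 c9758 c5212 c5564 c5381 c5380 (k8 c20059 c2998 c2765 c20064 c10131 c275 c18020 c5655 (k2 c19608 c20058 k0)))) (by decide +kernel)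
def c20107 : PP 9 3 T 0x80000000000000040000000000000000000000100080000000100000000000000000000000000000000000000000000010000000000000000000000010002 := rS 0x6b3395cd13bed562c7653544e241c9007e3d3d8202d932f34f66ad064711b13099f51fa0078145203ceb8c92917b91cd61f3682c6a1b18fbde6439d12deb0131a4f61e33aa2cb25d (k8 c17796 c18352 c18350 c18354 c20051 c5226 c5444 c19420 (k8 c5592 c5519 c5546 c20104 c5478 c5325 c19710 c5476 (k8 c5475 c5324 c5516 c665 c5517 c1058 c5520 c5333 (k8 c5589 c5588 c5549 c20072 c28 c9694 c53 c9739 (k8 c5212 c5568 c5566 c5564 c5382 c5381 c12681 c12614 (k8 c2029 c18393 c20105 c20106 c5439 c1054 c1055 c1687 (k8 c1512 c275 c5655 c546 c1737 c349 c1656 c1736 (k8 c2480 c1092 c17914 c10131 c8113 c5683 c18108 c1247 (k1 c1769 k0))))))))) (by decide +kernel)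

end Pool.Agent.H551.GP.E93
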