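import Pool.Agent.H551.GP.E93x4

/-! Certificate data. -/

set_option linter.all false
set_option maxRecDepth 100000

namespace Pool.Agent.H551.GP.E93

def c20108 : PP 9 3 T 0x80000000000000040000000000000000000000100080000000100000000000000000000000000000000000000000000010000000000000000000000000002 := rS 0x7fa1d50ab7eabb671056acd63b51209c207346c4cde8f1480f3b0348c5603edd011cd61f2186cce5b9d661066945a24ca85 (k8 c18349 c18353 c18356 c18350 c18347 c18355 c18346 c20104 (k8 c5474 c663 c5475 c5478 c5517 c1058 c5520 c5212 (k8 c17809 c5592 c5590 c5589 c5550 c20072 c28 c9694 (k8 c5568 c5565 c5382 c5381 c19419 c20107 c2858 c5651 (k8 c17914 c18405 c2760 c2758 c17712 c17895 c3602 c1238 (k4 c1286 c5682 c2022 c2452 (k1 c18001 k0))))))) (by decide +kernel)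
def c20109 : PP 9 3 T 0x80000000000000040000000000000000000000100080000000100000000000000000000000000000000000000000000000000000000000000000000000002 := rS 0xcc61f1ef263d209f82111129c13e93d80145203f1925220b (k8 c5516 c5589 c5588 c20051 c28 c9694 c53 c5226 (k8 c5444 c5448 c20108 c2755 c884 c667 c20052 c13854 (k4 c12427 c5358 c891 c5655 (k2 c20084 c2908 (k1 c674 k0))))) (by decide +kernel)
def c20110 : PP 9 3 T 0x80000000000000000000010040000000000000000080000000200000000000000000000000000000000000000000000060000000000000000000000000002 := rS 0x19662d8ed2224948b847647 (k8 c5520 c5332 c5591 c5589 c5588 c884 c17712 c9578 (k2 c16365 c1322 (k1 c14640 k0))) (by decide +kernel)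
def c20111 : PP 9 3 T 0x80000000000000000000210000000000000000000000000000000000100000000000000000000000000000000000000051400000000000000000000000002 := rS 0x596d2266f47ad52315 (k8 c5590 c5589 c5548 c5568 c5565 c5382 c17712 c3604 (k1 c5532 k0)) (by decide +kernel)
def c20112 : PP 9 3 T 0x80000000000000040000000000000000000000100080000000000000000000000000000000000000000000000000000000000000000000000001000000002 := rS 0x2ad521c584736611d8098520381fb5ee1bdabf62071c98ccb6071a95c633a941b4166b0fe77407345964ba693ab150a83 (k8 c18355 c18349 c18348 c18354 c18347 c17796 c18352 c18350 (k8 c19419 c5212 c20072 c5517 c1058 c5516 c665 c20109 (k8 c20104 c5476 c9758 c5324 c5432 c5474 c5316 c10897 (k8 c20110 c20111 c1238 c5411 c5475 c5333 c17809 c5550 (k8 c28 c9694 c5651 c19387 c2858 c17756 c12681 c352 (k4 c351 c2183 c2121 c5682 k0)))))) (by decide +kernel)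
def c20113 : PP 9 3 T 0x80000000000000040000000000000000000000100080000000000000000000000000000000000000000000000000000000000000000000000000000000002 := rS 0x367b158a7d662712346207130e4c7a17038ce51ef1886cb6f31a90e746d3591dea3705bdc3e3b39a34dfa02bf8f3a4b80e61128362964ea5d (k8 c17796 c18354 c18352 c18348 c18355 c18356 c18346 c5592 (k8 c5546 c20072 c20051 c9758 c5212 c5565 c5381 c19419 (k8 c5332 c5517 c5333 c5516 c5518 c5519 c5520 c1058 (k8 c665 c20104 c5478 c5324 c5325 c5474 c5475 c5476 (k8 c19710 c20109 c5316 c5432 c5433 c5436 c10897 c661 (k8 c20110 c20111 c17745 c20112 c60 c2760 c2756 c1092 (k2 c20077 c17895 (k1 c12726 k0)))))))) (by decide +kernel)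
def c20114 : PP 9 3 T 0x1004000000000045000000000000000000000100040000000000000000010004000000010000000000000000000000000000000005500440000000002000 := rS 0x7b8873a7bbd50659 (k8 c18352 c18355 c2365 c291 c5657 c5478 c12726 c17988 k0) (by decide +kernel)
def c20115 : PP 9 3 T 0x80000000000000045000000000000000000000100000000000000000000000000000000010000000000000000000000010000000000100440004000000002 := rS 0x15a67f706a76f2f192c9301f691d67150183c0a0c0f1aa226dda52f3ba039a15068b (k8 c18350 c18355 c18349 c19419 c5212 c20072 c20113 c5211 (k8 c5529 c9727 c20111 c1058 c1059 c53 c9739 c28 (k8 c5590 c5532 c15906 c17809 c5592 c5588 c5546 c20051 (k4 c20114 c5325 c2533 c5229 (k2 c1903 c1909 (k1 c19392 k0)))))) (by decide +kernel)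
def c20116 : PP 9 3 T 0x80000000000000041000000000000000000000100000000000200000000000000000000011000000000000800000000010000000000020410004000000002 := rS 0x33de6fdd91146639188dc3cf77a830d51136ed2979dd01cd0659 (k8 c18352 c18355 c19419 c5212 c20072 c20113 c5211 c5529 (k8 c9727 c20111 c1059 c2365 c291 c1058 c5435 c5434 (k8 c5317 c5316 c458 c20115 c5405 c2532 c2562 c3587 k0))) (by decide +kernel)
def c20117 : PP 9 3 T 0x80000000000000041000000040000000000000100000000000200000000000000000000000000000000000000000000010000000000000000000000000002 := rS 0x1aec833b383b3bef8d04e9f207859ad16f8ed347865a5cf662478a496e324b87da4759c54060f028cc7e0c639aa226dda52f3ba03997c2e833a9a50a8b (k8 c18350 c18349 c18347 c18354 c18355 c5433 c1054 c19419 (k8 c5212 c20072 c20113 c5211 c5529 c9727 c20111 c2483 (k8 c1059 c5318 c5316 c53 c9739 c28 c5590 c5532 (k8 c15906 c17809 c5591 c5588 c5549 c5546 c9694 c5568 (k8 c16365 c20101 c1229 c1322 c1174 c1173 c290 c14796 (k8 c8113 c2385 c5536 c17934 c1602 c350 c20116 c5450 (k4 c5324 c332 c5688 c664 (k2 c2563 c1769 (k1 c20095 k0)))))))))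 (by decide +kernel)
def c20118 : PP 9 3 T 0x81000000000000000000010040000000000000000040000000200000000000000000000000100000000000014400000000804000000000020008000000002 := rS 0x1be3b3db44eccd4b99de41d9dbc5c6b3da1840ec72f85c3cf77a830ea65629a50659 (k8 c18352 c18355 c18347 c18348 c18353 c18354 c1059 c2365 (k8 c291 c1058 c5433 c1054 c2483 c5432 c661 c5211 (k8 c5532 c5549 c9696 c5324 c331 c5657 c664 c19357 (k4 c4663 c3597 c2132 c890 (k2 c449 c14796 (k1 c19521 k0)))))) (by decide +kernel)
def c20119 : PP 9 3 T 0x80000000000000040000210040000000000000000000000000200000000000000000000000040000400000004000000000000004000000400019000010000 := rS 0x127f3d378267d47b8d223d (k8 c5436 c5589 c5549 c5568 c5566 c5564 c19521 c14796 (k2 c891 c1684 (k1 c12670 k0))) (by decide +kernel)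
def c20120 : PP 9 3 T 0x80011000000000042002000000000000000400100000000000000000040000000000000000000000000000000000000400040400000000000000000000000 := rS 0x85c37e1f6faee7137f92a36272747e3632918bfb741df4b255f6f944a2ceac5329a50a83 (k8 c18355 c18349 c18347 c18353 c18348 c18354 c18350 c18356 (k8 c18351 c18357 c5446 c18020 c5452 c5212 c17809 c5593 (k8 c5589 c5551 c5569 c5568 c5383 c5382 c5381 c5391 (k8 c5389 c5610 c18818 c17982 c5233 c5205 c5640 c5629 (k1 c3615 k0))))) (by decide +kernel)
def c20121 : PP 9 3 T 0x80001000000000042000000000000000000400100000000000200000040000000010000000800400000000000000040400040000000000000000080000002 := rS 0x3afeee4c23bdcf1b5da9d7bf4dc697cba01786407e35ac662b174eae532b35bed2979d60eb4be1749a8d4a9b (k8 c5397 c5399 c5449 c5444 c5433 c1054 c5437 c5319 (k8 c20072 c20113 c5211 c5533 c5532 c5530 c5415 c5412 (k8 c5593 c5590 c5551 c5548 c20051 c28 c9701 c9707 (k8 c5212 c19771 c20120 c5213 c5222 c5617 c5428 c5430 (k8 c5557 c5633 c1836 c3626 c3621 c5638 c3358 c5741 k0))))) (by decide +kernel)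
def c20122 : PP 9 3 T 0x80000000000000040000000040000000000000100000000000200000000000000000000000000000000000000000000010000000000000000000000000002 := rS 0x75fdbc9f1c3ee4a723b7b0ecccc6eb457ed4efa58ef0f7ea1c38b05699f67ef8e6bcb7479d3a4fef3041ebc23a1a9042225133299e956498d4a93d823cae2f14867c64b5ab8e324948b862fed4eaad72a95b91d67150183c0a3f18eb4c2076397c2e1e7bbd4186a889b7694bcee80e66932b14ea59459750685 (k8 c18349 c18355 c17796 c18350 c18352 c18354 c18348 c18353 (k8 c18347 c19419 c5212 c20072 c20113 c5211 c5529 c9727 (k8 c20111 c1059 c2365 c291 c1058 c5433 c1054 c2483 (k8 c5432 c661 c5437 c5434 c5318 c53 c9739 c28 (k8 c5590 c5532 c15906 c5533 c5531 c5415 c5413 c5412 (k8 c17809 c5593 c5591 c5589 c5588 c5551 c5549 c5548 (k8 c5546 c20051 c9701 c9694 c9707 c9758 c5568 c20117 (k8 c5444 c5399 c5395 c5396 c5446 c19768 c18117 c9148 (k8 c1090 c2858 c349 c20118 c20119 c5456 c290 c289 (k8 c448 c891 c4337 c5657 c5327 c5474 c5479 c12681 (k8 c17287 c6724 c663 c2029 c352 c351 c19824 c1335 (k8 c4588 c889 c18020 c5452 c1334 c4136 c9368 c4333 (k8 c5688 c20121 c5348 c5349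 c5351 c5605 c17864 c2222 (k4 c19781 c19770 c5202 c5623 (k1 c17933 k0))))))))))))))) (by decide +kernel)
def c20123 : PP 9 3 T 0x80000000000000040000000000000000000000100000000000200000000000000000000000000000000000000000000010000000000000000000000000002 := rS 0x1ebddb37e3ca767704e49eaf70f030d4732bfb7411136ed2979d1981ceac52ca0d0a8b (k8 c18350 c18349 c18355 c18352 c18348 c18354 c5432 c5316 (k8 c20072 c20113 c5211 c5529 c9727 c5212 c17809 c9758 (k8 c19419 c20111 c1059 c1058 c291 c2365 c20122 c5438 (k8 c5356 c10693 c5657 c2532 c5405 c5229 c20082 c20097 k0)))) (by decide +kernel)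
def c20124 : PP 9 3 T 0x80000000000000040000000080000000000000100000000000200000000000000000000000000000000000000000000000000000000000000000000000002 := rS 0x7af74ecee09d015c6607381d58a59 (k8 c18352 c18348 c18354 c20123 c5432 c5316 c9758 c5212 (k4 c5438 c5356 c10693 c20048 (k2 c20082 c20097 k0))) (by decide +kernel)
def c20125 : PP 9 3 T 0x80000000000000040000000000000000000000100000000000200000000000000000000000000000000000000000008400000000000000000000000000002 := rS 0x123b3329610f6f2b43cd47f3f50ecc68f7d2ce9d999c11af0d96e8ef31acebde732b8be3e2325927daab5491d67a08a80cdbb4888cc7a5f0babd7e26087859e7f48b24c67030a4d4a9b4aec326f77a8301607ce83c0b4b32965066942a2ceac5 (k8 c18348 c18354 c18350 c18349 c18347 c18355 c18352 c18353 (k8 c20113 c53 c9739 c20072 c5432 c690 c5645 c2365 (k8 c291 c20124 c20101 c5446 c5397 c5399 c5444 c661 (k8 c20123 c3912 c10171 c5589 c891 c1648 c5457 c667 (k8 c668 c5014 c2988 c5433 c1054 c5436 c5316 c9727 (k8 c5211 c5529 c28 c5590 c5212 c5532 c15906 c5531 (k8 c5413 c17809 c5588 c5546 c9731 c9712 c9707 c9758 (k8 c19419 c20097 c20048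 c5324 c5325 c5327 c5474 c5475 (k8 c5479 c10693 c663 c17910 c4337 c3597 c5452 c9368 (k8 c5688 c2073 c2504 c13508 c2507 c9250 c2892 c2506 (k4 c5030 c5683 c1333 c20121 (k2 c5351 c19802 k0)))))))))))) (by decide +kernel)
def c20126 : PP 9 3 T 0x80000000000000040000000000000000000000100000000000200000000000000000000000000000000000000000008000000000000000000000000000002 := rS 0x86661db3b4b (k4 c20113 c20072 c20125 c890 (k2 c889 c19804 k0)) (by decide +kernel)
def c20127 : PP 9 3 T 0x80000000000000040000010040000000000000000040008000200000000000000000000000000000000000000408004000000000000000000009000004004 := rS 0x125b06f8ed8ef70616c96e38192602b3da0e5ea59 (k8 c18352 c1922 c5317 c5211 c5532 c5592 c5588 c5550 (k8 c5549 c5546 c5474 c8435 c9904 c2480 c290 c14796 (k2 c19850 c19521 (k1 c5444 k0)))) (by decide +kernel)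
def c20128 : PP 9 3 T 0x80000000000000020000210040000000000000000000000000200000000000000000000000000000000000000000004020000000000400000000000002002 := rS 0x24b60df1db1d1ee324acc7226 (k8 c668 c5317 c5532 c5588 c5549 c5568 c2480 c290 (k4 c14796 c15205 c19521 c5444 k0)) (by decide +kernel)
def c20129 : PP 9 3 T 0x8000000000000042000000000000000000000000000000000200000100010000000000000000000000001000008005001400400000040010011000000000 := rS 0x1a4d020b18c693 (k4 c5444 c5395 c18019 c13854 (k2 c799 c14662 (k1 c2135 k0))) (by decide +kernel)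
def c20130 : PP 9 3 T 0x80000000000000040000000000000000000000100000000000200000000000000000000000000000000000000008000000000000000000000000000000002 := rS 0x699053ccb316c5921c218d5ec5af74ee3ab13984d1ef114c053a332f85c4a26359e4140d3de4ce04759c54066d88ed3419d078169637 (k8 c5435 c20113 c53 c9739 c20072 c5212 c5211 c9727 (k8 c5529 c28 c5590 c5532 c15906 c20123 c20124 c20126 (k8 c20128 c5645 c2307 c1059 c668 c2755 c5433 c1054 (k8 c5316 c5412 c5592 c9694 c9696 c5568 c5564 c19419 (k8 c19883 c352 c20127 c20048 c8435 c693 c19916 c2108 (k8 c19898 c2061 c20129 c16365 c1322 c782 c350 c2883 (k1 c14662 k0))))))) (by decide +kernel)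
def c20131 : PP 9 3 T 0x80000000000000040000000000000000000000100000000000200000000000000000000000000000000000000000000000000000000000000000000000002 := rS 0xb1d9bf0cead7f7bd0e6b069ef26af38236268f5ac0d23015491d67a08a80cdbb4cec46960f02a0cca8534e61128b (k8 c18350 c18356 c18346 c18347 c18349 c18353 c18355 c53 (k8 c9739 c20113 c9727 c20072 c5211 c5529 c28 c5590 (k8 c5212 c5532 c15906 c5531 c5592 c5589 c5550 c5548 (k8 c5568 c5382 c5381 c20123 c2988 c20124 c20126 c20128 (k8 c1059 c20130 c18000 c18001 c2892 c13507 c18014 c5405 (k2 c1335 c5683 k0)))))) (by decide +kernel)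
def c20132 : PP 9 3 T 0x100000000000000000040000000001500000004001005400000000000000000001082 := rS 0xf26b (k2 c1059 c1455 (k1 c3598 k0)) (by decide +kernel)
def c20133 : PP 9 3 T 0x84000000000000040000000000000000000000100000000000000000000000040000000000000000000000000000000020000000000000000000000000002 := rS 0x475fef321b4a744b81926024759c54db110782427a06fbd46a3e208f44a0514a7c8a1001aad369d4aaa5a299da337c1933f52f3a93d84a7c68b (k8 c18350 c20051 c20131 c5226 c5444 c20072 c20113 c20052 (k8 c5358 c5215 c5537 c5211 c5530 c5459 c5531 c5446 (k8 c5412 c5397 c5413 c28 c667 c2966 c5448 c9694 (k8 c53 c2755 c12427 c13854 c5655 c441 c18094 c5538 (k8 c5212 c5564 c275 c9739 c9727 c5529 c5590 c5532 (k8 c15906 c5592 c5588 c5550 c5546 c20048 c20064 c5478 (k4 c5325 c2942 c2082 c3593 k0))))))) (by decide +kernel)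
def c20134 : PP 9 3 T 0x2000000000000000000000000000000000000000000000000000000000000000000000000000000000000000000000002000010000082 := rS 0xee970195de398 (k4 c18346 c9696 c9758 c28 (k2 c1472 c1913 (k1 c8216 k0))) (by decide +kernel)
def c20135 : PP 9 3 T 0x80000000000000040000000000000000000000100000000000000000000000000000000000000000000000000000004020000000000000000000000000002 := rS 0x310e8cde53befbfdaf1df73dc18f52fb7d9a3968b1c6a0604f807cd5c9914823d3f0404a1314fb53aab10a65524759e822a0336ed33b11a583c0a6349a7d36614aec253e32ca2d0a83 (k8 c18355 c18349 c18350 c18352 c20051 c20131 c5226 c5446 (k8 c5445 c5397 c5448 c5444 c19420 c53 c9739 c20113 (k8 c9727 c20072 c5211 c5529 c28 c5590 c5212 c5532 (k8 c15906 c5531 c5530 c5528 c5413 c5412 c17809 c9694 (k8 c5564 c2755 c667 c20052 c12427 c13854 c2966 c5358 (k8 c2998 c5655 c5215 c275 c2908 c441 c5535 c5459 (k8 c5534 c5537 c5538 c1055 c18094 c20132 c291 c20133 (k8 c5504 c5507 c5586 c20074 c17808 c5657 c387 c333 (k2 c20134 c5653 k0))))))))) (by decide +kernel)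
def c20136 : PP 9 3 T 0x80000000000000040000000000000000000000100000000000000000000000008000000000000000000000000000004000000000000000000000000000002 := rS 0x1860091f1047a4212b295993f76ccce1a7e07676132b8a406b57188527b094f8c3c6a38c44dbb4a5e774073 (k8 c19419 c5212 c20072 c20113 c5211 c5529 c9727 c20135 (k8 c20111 c1058 c20051 c20131 c5226 c5444 c5528 c5549 (k8 c5548 c28 c9694 c9758 c5564 c5325 c333 c2532 (k8 c2533 c664 c5405 c5229 c20082 c19392 c17886 c2759 (k8 c1908 c1490 c13854 c5655 c275 c2912 c5643 c20134 k0))))) (by decide +kernel)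
def c20137 : PP 9 3 T 0x4000000000000040000000000000000000000100000008000100000000000000000000000000000000000000000000010000000000000000000000000082 := rS 0x118e899a4411297d03a0028a407b0f1a2cb25d (k8 c17796 c18352 c18350 c20051 c5226 c28 c9694 c53 (k8 c5212 c5380 c1451 c13678 c1734 c20106 c5651 c2082 (k2 c2858 c12681 k0))) (by decide +kernel)
def c20138 : PP 9 3 T 0x80000000000000040000000000000000000000100000000000000000000000000000000000000000000000000000004000000000000000000000000000002 := rS 0x2b562af6a891afdf203387e331e82195936fb37c0370399fde5b1a914873a798e476f57b878186a389cd1a133795c524b5ab8c92e180fb53a4759e822a0336ed33b11a583c0a9364a6f6129f1a2d1269329650685 (k8 c18349 c18355 c18352 c18353 c18347 c18356 c18350 c20051 (k8 c20131 c5226 c5397 c5396 c5444 c53 c9739 c20113 (k8 c9727 c20072 c5211 c5529 c28 c5590 c5212 c5532 (k8 c15906 c5412 c17809 c5592 c5591 c5588 c5549 c5548 (k8 c5546 c9694 c9758 c5565 c5564 c5381 c19419 c20135 (k8 c20111 c1059 c1058 c291 c2365 c290 c2472 c20136 (k8 c5657 c5478 c5326 c5324 c5474 c17988 c663 c20137 (k8 c2364 c5654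 c5537 c5538 c11668 c6118 c5643 c1490 (k8 c271 c275 c13955 c5655 c5453 c1769 c13854 c1656 (k4 c1247 c15326 c2758 c3602 k0)))))))))) (by decide +kernel)
def c20139 : PP 9 3 T 0x80000000000000040000000000000000000000100000000000000000000000000000000000000000000000000000000000000000000000000000000000002 := rS 0x723b0f030d40938e48fe37f09e937b0949b76911a5a44e7a007817c79d (k8 c20072 c20051 c53 c9739 c5212 c19419 c5589 c20113 (k8 c9727 c5211 c5529 c20131 c5226 c5397 c20138 c5457 (k8 c1478 c891 c5215 c20052 c5438 c20111 c1059 c1058 (k2 c289 c2472 (k1 c5654 k0))))) (by decide +kernel)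
def c20140 : PP 9 3 T 0x210000000000000000000000000000000001100000000000000000000001000000001000000051400000000000000000000000002 := rS 0xb2da44cde8f (k4 c5568 c5565 c5382 c17712 (k2 c3604 c5532 k0)) (by decide +kernel)
def c20141 : PP 9 3 T 0x4000000000000044000000000000000000000100000000000100000000000000000000000000000000000000000000000000400000010000000000010002 := rS 0x471a53ad022cb25d (k8 c17796 c18352 c18350 c5212 c5229 c20106 c12681 c2082 k0) (by decide +kernel)
def c20142 : PP 9 3 T 0x40000000080000000000000100000000000100000000000000000000000000000000000000000008010000000000000000000000000002 := rS 0x337dbdf43357dc112089a022568ed620915ab79c3151eecd94773f9cd1b13478a4079d49a6d9ee340e80da61d81ac3e5f048ee95e1f1fccea8942a0f30c5 (k8 c18348 c18346 c18355 c18349 c18356 c18354 c20139 c20051 (k8 c5457 c5168 c5332 c1684 c1055 c5517 c1058 c5226 (k8 c5445 c742 c5212 c5380 c1775 c1648 c5397 c5444 (k8 c20072 c28 c9694 c5568 c5382 c5381 c19419 c5358 (k8 c5356 c12830 c18631 c1490 c1293 c16773 c15912 c2514 (k8 c2948 c20140 c5411 c17698 c16791 c2953 c5651 c13854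 (k8 c2858 c20141 c5585 c18000 c17767 c5499 c2073 c5688 k0))))))) (by decide +kernel)
def c20143 : PP 9 3 T 0x8001000000000000000200000000000000000000080000000000000000010000000000014000000000000001000040000000000004008010000000000000 := rS 0x43798c599edefa19aa4546c4d1ef53aa250a83 (k8 c18355 c18349 c18356 c18354 c5519 c5568 c5382 c5381 (k8 c5582 c5585 c18000 c17767 c5499 c5688 c1916 c2501 (k2 c2912 c17894 k0))) (by decide +kernel)
def c20144 : PP 9 3 T 0x40000000000000000000000100000000000100000000000000000000000000000000000000000008010000000000000000000000000002 := rS 0x1b29dfbe02d1882456ade3f92dc2118a8f87a26208946a06c997cd6092487c774a36b8d9fe139a0740051480f3bf34fa6cc295d878f30c5 (k8 c18348 c18346 c20051 c5226 c5446 c5445 c5397 c5448 (k8 c20139 c20072 c28 c9694 c53 c5212 c5380 c19419 (k8 c5457 c1648 c1775 c742 c5168 c5332 c5517 c5334 (k8 c1684 c1058 c1055 c20142 c17741 c1617 c13678 c1734 (k8 c5651 c12427 c5655 c3046 c2858 c16773 c408 c676 (k8 c15912 c2514 c2948 c20140 c17698 c2953 c20143 c20137 (k2 c20141 c20103 k0))))))) (by decide +kernel)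
def c20145 : PP 9 3 T 0x4000000000000040000000080000000000000100000000000100000000000000000000000000000000000000000000000000000000010000000000010002 := rS 0xd997f61e3 (k4 c20051 c5226 c5439 c18631 (k1 c20141 k0)) (by decide +kernel)
def c20146 : PP 9 3 T 0x4000000000000000200000000000000000100000000000100000000000000000000000000000000000000000000000000000000010000000000000200 := rS 0x1f8f4267d (k4 c5566 c5564 c1512 c275 (k1 c5655 k0)) (by decide +kernel)
def c20147 : PP 9 3 T 0x4000000000000040000000000000000000000100000000000100000000000000000000000000000000000000000000010000000000010000000000010002 := rS 0x4ef6406c995d2bb02f827c7a0 (k8 c5212 c20051 c20146 c1055 c5226 c5446 c9758 c20145 (k4 c5643 c20141 c20137 c20103 k0)) (by decide +kernel)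
def c20148 : PP 9 3 T 0x4000000000000040000000000000000000000100000000000100000000000000000000000000000000000000000000010000000000010000000000000002 := rS 0x324cb038904e1004e800a571480f61e3 (k8 c20051 c5226 c28 c9694 c9758 c53 c5212 c20146 (k4 c20147 c2858 c5651 c15046 (k2 c1091 c5643 (k1 c12830 k0)))) (by decide +kernel)
def c20149 : PP 9 3 T 0x4000000000000040000000080000000000000100000000000100000000000000000000000000000000000000000000000000000000000000002000000002 := rS 0xad6910e75b33f97f61e3 (k8 c20051 c5226 c5439 c5358 c18631 c5229 c5478 c20059 (k2 c2758 c20105 k0)) (by decide +kernel)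
def c20150 : PP 9 3 T 0x4000000000000044000000000000000000000100000000000100000000000000000000000000000000000000000000000000400000000000002000000002 := rS 0x15ad221ceb61e3 (k4 c20051 c5226 c5229 c5478 (k2 c20106 c2758 (k1 c20105 k0))) (by decide +kernel)
def c20151 : PP 9 3 T 0x4000000000000040000000000000000000000100000000000100000000000000000000000000000000000000000000010000400000000000000000000002 := rS 0xed3a33a5d5eadd91cd1a6fd018d92614a8f448290189c8093d878d126945994eac5 (k8 c18348 c18354 c18353 c18350 c18347 c18356 c20051 c5226 (k8 c5444 c20148 c349 c28 c9694 c13854 c187 c5446 (k8 c5445 c5396 c19420 c5212 c5565 c5381 c19419 c20150 (k4 c5490 c5406 c5404 c5487 (k2 c20103 c3597 (k1 c14003 k0)))))) (by decide +kernel)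
def c20152 : PP 9 3 T 0x40000000000000042000010000000000000000000000000000000000200000050000000004000000200000000000000401404000000100010002000000200 := rS 0x813ca28d1da8c73075 (k8 c18354 c18346 c1508 c5411 c17698 c16791 c18108 c1295 (k1 c2628 k0)) (by decide +kernel)
def c20153 : PP 9 3 T 0x4000000000000048000000000000000000000100000000000100000000000000000000000000000000000000000000010000000000000000000000000002 := rS 0x6d2226d35bd416f70fd299fde3bc0676d38e0686a452dac0cefd4babd5a73469bc0b9df998d92270464c482901a4f61e32b81d03a06a858bc40329a73089 (k8 c18356 c18346 c18347 c18353 c20148 c20151 c1054 c4222 (k8 c5212 c5380 c1734 c9758 c20051 c5226 c5444 c28 (k8 c9694 c13854 c20149 c5643 c349 c5396 c19420 c20139 (k8 c20072 c53 c5565 c5381 c19419 c5490 c5406 c5404 (k8 c5405 c5487 c17895 c14996 c2968 c1619 c18405 c1093 (k8 c2085 c5475 c4504 c10131 c5166 c5453 c17489 c5517 (k8 c5333 c5516 c5519 c1058 c665 c20152 c17712 c20037 k0))))))) (by decide +kernel)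
def c20154 : PP 9 3 T 0x4000000000000040000000000000000000000100000000000000000100010000000000000000000080000000000000010000040000100000002040000002 := rS 0x40fdaff7e2416a6bd00a407f333ed33a8b (k8 c18350 c20072 c17712 c663 c20139 c28 c9694 c5212 (k8 c1058 c1094 c13523 c20037 c3008 c5542 c2631 c5694 k0)) (by decide +kernel)
def c20155 : PP 9 3 T 0x4000000000000040000000000000000000000100000000000100000100000000000000000000000000000000000000010000000000000000000000000002 := rS 0x339eeff6f929694b0f0dc8e3b36c553bb4078173a49598cc11932b81d02d522c05a3df4b3595c672d9cd621b13a34dfa05690e75b3120a40693d878d94162f103e66534a251659 (k8 c18352 c18350 c18356 c18347 c18353 c20139 c20148 c20151 (k8 c1054 c1736 c20051 c5226 c5444 c28 c9694 c13854 (k8 c20153 c5229 c5478 c2758 c5212 c5565 c5381 c349 (k8 c5475 c18405 c19419 c5474 c663 c3602 c1247 c1246 (k8 c5452 c9339 c10483 c5326 c4222 c5380 c1734 c9758 (k8 c20149 c5643 c271 c17675 c17676 c20072 c53 c9739 (k8 c17712 c5412 c5414 c5529 c1676 c15906 c1741 c20154 (k8 c5517 c6300 c10205 c6120 c2573 c565 c12847 c8707 k0))))))))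 (by decide +kernel)
def c20156 : PP 9 3 T 0x4000000000000040000000000000000000000100000000000100000000000000000000000000000000000000000000010000000000000000000000000002 := rS 0x673f695b588347beab4b358eeae69ac4cead0d96de63521ceb66ca6a858bd9313890807340a34dfa01480f3bf349a6761e334a2d1265 (k8 c18353 c18356 c18350 c18347 c20051 c5226 c5447 c5444 (k8 c20139 c20072 c28 c9694 c5212 c5565 c5381 c5380 (k8 c19419 c20148 c13854 c349 c20149 c20151 c1054 c4222 (k8 c1736 c20153 c5229 c5478 c5324 c5325 c5474 c5475 (k8 c2758 c663 c18405 c20105 c3602 c10131 c1247 c1246 (k8 c4086 c5452 c9339 c20155 c5411 c9727 c1238 c15002 (k1 c13265 k0))))))) (by decide +kernel)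
def c20157 : PP 9 3 T 0x8000000000000000000200000000000000000000000008000000000000000000000000000000000000000000000000000000000000000000002000000002 := rS 0x5696c8627 (k4 c60 c5478 c5474 c2758 (k1 c19760 k0)) (by decide +kernel)
def c20158 : PP 9 3 T 0x48004000000000000000000000000000000000000000000000000000000000054000040014000000000000000000000000000000000020451000000000000 := rS 0x19a39708ce3b03 (k4 c5508 c5504 c544 c1714 (k2 c547 c8709 (k1 c3587 k0))) (by decide +kernel)
def c20159 : PP 9 3 T 0x4000000000002000200000000000000000100000000000100000000000000000000000000000000000000000000010000004000010000002000000040 := rS 0x6499609 (k4 c20146 c1091 c5643 c12830 k0) (by decide +kernel)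
def c20160 : PP 9 3 T 0x8000000000000000000200000000000000000000000000000000002200000000000000000000000001000000000000010000000000000000000000000000 := rS 0x15a67 (k2 c883 c3053 (k1 c19392 k0)) (by decide +kernel)
def c20161 : PP 9 3 T 0x48004000000000046000200000000000000000000000004000000000200000001000000000000000000000000000000010000000000020000002000000000 := rS 0xcf1a87036f35437dea377b8ee28d1a56d526a14c8c5af98 (k8 c18346 c5507 c1738 c5447 c5398 c5444 c5411 c9727 (k8 c17698 c16791 c5332 c5333 c5518 c5519 c2950 c20160 (k4 c2447 c1906 c5649 c331 (k2 c2450 c20158 k0)))) (by decide +kernel)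
def c20162 : PP 9 3 T 0x40000000000000000000000100000000000100000000000004000000014000000000000000000000010000000000000010002000000002 := rS 0x9035b783e3ba53d7dacdef24d36954c9ec4e3318b5d3aab548ddee4736c57699d59c4480070195e77b358a34e66fd878de3a0078163bee24fcd1398 (k8 c18346 c18356 c20139 c10629 c20156 c5504 c53 c9739 (k8 c5212 c9696 c20051 c5226 c5565 c19419 c5381 c5506 (k8 c17895 c20157 c9758 c28 c15046 c20159 c20161 c17675 (k8 c20072 c17712 c5414 c5529 c15906 c8188 c1741 c5531 (k8 c5413 c5412 c5507 c1738 c544 c60 c20144 c5447 (k8 c5446 c5397 c5444 c5653 c5495 c17700 c18094 c5657 (k4 c5332 c5517 c20158 c1058 (k2 c17914 c2949 k0)))))))) (by decide +kernel)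
def c20163 : PP 9 3 T 0x8000000000000000000200000000000000000000000000000000000000000000000000000000000000000000000000010000000000000000002010000002 := rS 0x15a67 (k2 c664 c2759 (k1 c19392 k0)) (by decide +kernel)
def c20164 : PP 9 3 T 0x60000000000000000000000100000000000000000000000000000100000080000000000400000000000000000000000000004040000002 := rS 0x1226b (k2 c2482 c801 (k1 c17914 k0)) (by decide +kernel)
def c20165 : PP 9 3 T 0x40000000000000000000000100000000000100000000000004000000000000000000000000000000010000000000000000002000000002 := rS 0x1a2c77087e949b3d89c7af7239b62ab307925eaa9f6ed223b3589ccdff378e7726d33eb55028d67f786a1c49cec671d189000e0501ec3c657d035fdc7545b151398 (k8 c18346 c18356 c18348 c18350 c18354 c20156 c5507 c5212 (k8 c9758 c20051 c5226 c28 c53 c15046 c20159 c1738 (k8 c5504 c544 c20157 c5444 c20163 c331 c5653 c5453 (k8 c5381 c5380 c5585 c5566 c5496 c17999 c20072 c9696 (k8 c20139 c5565 c19419 c5506 c17895 c20161 c17712 c17700 (k8 c5531 c1998 c10629 c9739 c17675 c5414 c5529 c15906 (k8 c8188 c187 c60 c20144 c5397 c5657 c5517 c16773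 (k2 c20164 c8113 (k1 c20162 k0))))))))) (by decide +kernel)
def c20166 : PP 9 3 T 0x40000000000000000000000100000000000100000000000000000000000000000000000000000000010000000000000000002000000002 := rS 0xf20e0876911204ec0e050195de39df9ec3c7b358fb91a7337e811398 (k8 c18346 c18356 c5212 c5565 c19419 c5381 c20156 c5506 (k8 c17895 c20051 c5226 c20139 c20072 c9696 c9758 c28 (k8 c53 c15046 c20157 c20159 c20161 c17712 c5528 c20163 (k2 c20165 c333 k0)))) (by decide +kernel)
def c20167 : PP 9 3 T 0x6000200000000000000000000000004000000000000000000000000000000000100000000000000010000400000008010001010000002 := rS 0x761825c841a3395de295349958a75 (k8 c18354 c18348 c18353 c18347 c5446 c9696 c9758 c664 (k4 c5649 c18384 c1074 c2912 (k2 c18020 c1913 k0))) (by decide +kernel)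
def c20168 : PP 9 3 T 0x22000000000000000000000000080000000000000000000000000000000000000000000000000004000004400000000000000000000082 := rS 0x79639ac6e0b0fc453a6d (k8 c5529 c5412 c5411 c5517 c5516 c5518 c1058 c674 (k2 c1454 c18019 k0)) (by decide +kernel)
def c20169 : PP 9 3 T 0x40004000000000022000210000000000000000100000000000100000000000000000000000800000000000000000004000000400000000000008000000082 := rS 0x358e486fd2dc24725accda218aa7623130980c1e0531a6cc299 (k8 c5447 c5445 c5397 c19420 c53 c9739 c28 c5564 (k8 c5382 c5411 c5412 c5414 c5528 c5529 c5532 c353 (k8 c15906 c1718 c20168 c6120 c5660 c9140 c293 c20132 k0))) (by decide +kernel)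
def c20170 : PP 9 3 T 0x40000000000000000000000100000000000100000000000000000000000000000000000000000000010000000000000000000000000002 := rS 0x4049715542d49310a53cdebb5651fccc062d0c886310e0d7be5f9d8f81211208f44c25d9915aeb18efb8f67340a34266f3ee80ae0f028a4079df998d269f509852bb0f1a2cb2892eb14eb98 (k8 c18346 c18354 c18348 c17796 c18356 c18352 c18350 c20051 (k8 c5226 c5446 c5445 c5398 c5448 c5444 c19420 c20139 (k8 c20072 c28 c9694 c53 c9739 c9758 c5212 c5566 (k8 c5565 c5564 c5381 c5380 c19419 c20144 c20156 c5504 (k8 c5506 c5507 c5582 c17895 c20166 c5651 c12427 c13854 (k8 c2858 c20146 c5655 c12681 c1055 c18095 c441 c20167 (k8 c1996 c2001 c5653 c12615 c19727 c1994 c676 c3599 (k8 c20169 c19746 c19723 c5211 c17712 c5334 c1340 c883 (k4 c3046 c354 c2027 c19710 k0))))))))) (by decide +kernel)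
def c20171 : PP 9 3 T 0x4000000000052000010040000000000000000000000000000101000004000000000100000001800000000000000000000400000140108008000000082 := rS 0x2d4e8ec1d33a5d54a9f6ece00ac81ac5e6d70df7de2c94ac41ee497a91e944b349958a75 (k8 c18354 c18348 c18353 c18347 c354 c5211 c5520 c5519 (k8 c5334 c5333 c17712 c5446 c5396 c9696 c5492 c2043 (k8 c2185 c387 c15326 c2461 c16402 c3593 c5490 c5502 (k8 c2027 c2901 c19779 c883 c2121 c18020 c5649 c672 (k1 c5474 k0))))) (by decide +kernel)
def c20172 : PP 9 3 T 0x10000010040000000000000000000008000000000000000004000000011100000000000110000000400005400000000114000000000002 := rS 0x54a599ded338c4b63b7b8ddeb4a3a9958a69 (k8 c18347 c18348 c18353 c18354 c5211 c5519 c5518 c5333 (k8 c5332 c5474 c5476 c663 c18037 c3587 c3597 c2450 (k1 c19779 k0))) (by decide +kernel)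
def c20173 : PP 9 3 T 0x50000000000000000000000100000000000100100000000004000000000000000000000000000004000000000000040000000000000002 := rS 0x3a1bd9aa9590081fba76f1649852a991a8f87a9f7bbd5a24b66f818e633b8cc72791bd29fe90592d620732fb562a450809b3a06c99f8ae0920894e0051480d27b0f1e811798 (k8 c18346 c18350 c5212 c20051 c5226 c5444 c28 c9694 (k8 c53 c20170 c2755 c13854 c20146 c9758 c20052 c5358 (k8 c5643 c20072 c668 c667 c2966 c4972 c2998 c1055 (k8 c19419 c17712 c1340 c885 c884 c3008 c5211 c5518 (k8 c1454 c8203 c20171 c673 c19420 c796 c5669 c5537 (k8 c354 c17698 c5519 c5333 c5448 c12427 c5655 c441 (k8 c5447 c5446 c5445 c5396 c9696 c20172 c20048 c16948 (k4 c19710 c16402 c2901 c5490 (k2 c1908 c2121 (k1 c5649 k0)))))))))) (by decide +kernel)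
def c20174 : PP 9 3 T 0x50000000000000000000000100000000000100100000000000000000000000000000000000000004000000000000040000000000000002 := rS 0x4b87553ed791dc6639789162a1013354befd5a9cd64791bd280d933f15c124112814520349ec3c7a07fa42219d386611669 (k8 c18347 c18350 c18346 c20170 c20072 c17712 c884 c3008 (k8 c5212 c20051 c5226 c5444 c28 c9694 c53 c2755 (k8 c13854 c20146 c9758 c20052 c5358 c5643 c5211 c5518 (k8 c1454 c885 c19419 c1340 c1238 c1055 c2998 c668 (k8 c667 c4972 c2966 c9696 c8203 c20171 c673 c20173 (k4 c5540 c2447 c334 c19779 (k1 c8216 k0))))))) (by decide +kernel)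
def c20175 : PP 9 3 T 0x12000010040000000000000000000000000000000000000008000000000000000000000000000000400000400000000000000000000082 := rS 0x12e1d54fb406f17ec433069 (k8 c18347 c18346 c17712 c1238 c9696 c28 c5540 c2447 (k2 c334 c19779 (k1 c8216 k0))) (by decide +kernel)
def c20176 : PP 9 3 T 0x50000000000000000000000100000000000100100000000004000000000000000000000000000000000000000000040000000000000002 := rS 0x34a05ef22840124112814520349e81ee497a91e944b5a9cc4cff4838d649980b78f47e38346219dd878f308b (k8 c18350 c18346 c20051 c5226 c20072 c17712 c17698 c20170 (k8 c20052 c20174 c892 c2953 c5447 c885 c2458 c884 (k8 c3008 c668 c19419 c1340 c354 c5211 c5520 c5519 (k8 c5334 c5333 c5212 c5444 c28 c9694 c53 c2755 (k8 c13854 c20146 c667 c2966 c17894 c3593 c20064 c2088 k0))))) (by decide +kernel)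
def c20177 : PP 9 3 T 0x50000000000000000000000100000000000100100000000000000000000000000000000000000000000000000000040000000000000002 := rS 0x3b335e47ace81b267e2b97c13a01a8f882931e8940a2901a7f61e322840e08b (k8 c18350 c20170 c667 c2966 c20051 c5226 c5448 c28 (k8 c9694 c53 c2755 c12427 c5444 c13854 c5655 c441 (k8 c5212 c20146 c1055 c9758 c20052 c5358 c5643 c20072 (k4 c20174 c20176 c2501 c20175 (k1 c890 k0))))) (by decide +kernel)
def c20178 : PP 9 3 T 0x60000000000000000000000100000000000100000000000008000000000000000000000000000000000000000000000000000000000002 := rS 0x3bc96199dd9e7a18d298e1d66924173bf981b267e2b8246a3e20a4c7a2514a7f61e32292c424736e822a10131c33a0359c441e05cc3150a8b (k8 c18350 c18349 c18348 c18346 c53 c9739 c5411 c5532 (k8 c28 c20072 c20170 c668 c667 c4972 c5212 c5529 (k8 c15906 c5528 c353 c2966 c20051 c5226 c5448 c9694 (k8 c2755 c12427 c5444 c13854 c5655 c441 c20146 c9758 (k8 c20052 c5358 c5643 c20139 c5325 c2530 c450 c2501 (k8 c333 c674 c5660 c20134 c20084 c1648 c890 c388 (k2 c8216 c5653 (k1 c5452 k0)))))))) (by decide +kernel)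
def c20179 : PP 9 3 T 0x5000000000000000000000000000000000000000000000100000000020000000580000000000000000002000000400000000000040010000000000000 := rS 0x31ef969a4d0 (k4 c2953 c9158 c9793 c5496 (k2 c1918 c9931 k0)) (by decide +kernel)
def c20180 : PP 9 3 T 0x40000000000000000000000100000000000100100000000000000000000000000000000000000008400000000000040000000000000002 := rS 0xd2817be02f724bfdeb4a6f02d20e3f0a0427f33f025c2351f105263d128a53fb0f19149621239b7411508098e19d01ace220f02bcf688b (k8 c18350 c20177 c20178 c53 c9739 c5411 c5532 c28 (k8 c20072 c20170 c668 c667 c4972 c5212 c5529 c15906 (k8 c5528 c353 c2966 c20051 c5226 c5448 c9694 c2755 (k8 c12427 c5444 c13854 c5655 c441 c4977 c20146 c20052 (k8 c20139 c5564 c5380 c5457 c1775 c891 c3822 c892 (k8 c5168 c10333 c3008 c10368 c5333 c20179 c17894 c3593 (k2 c20064 c2088 k0))))))) (by decide +kernel)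
def c20181 : PP 9 3 T 0x40004000000000022000200000000000000000100000000000100000000000000000100000000000000000000000004000000400004400000000000000082 := rS 0x1ac72437e97130998d36614cc453a6d (k8 c5529 c5412 c5411 c5447 c5445 c5397 c19420 c5564 (k4 c5382 c20168 c6120 c5660 (k2 c9140 c293 (k1 c20132 k0)))) (by decide +kernel)
def c20182 : PP 9 3 T 0x40000000000000000000000100000000000100100000000000000000000000000000000000000000000000000000040000000000000002 := rS 0x10181bdd98d724bfdeb4a3b3781690f09e9e64725accda2188ed11a1307e77e6458a8980d933f15cbe09d03847c41498f44a051480d3fb0f1840e08b (k8 c18350 c20170 c667 c20051 c5226 c5448 c28 c9694 (k8 c53 c2755 c12427 c5444 c13854 c5655 c4977 c5212 (k8 c20146 c1055 c9758 c20052 c5358 c5643 c668 c4972 (k8 c2966 c20139 c20072 c9739 c5564 c5381 c20177 c5411 (k8 c5528 c5529 c5532 c353 c15906 c20178 c20181 c5457 (k8 c891 c3822 c892 c20180 c5168 c10333 c3008 c10368 (k4 c2187 c890 c5333 c2517 (k2 c19726 c3593 k0)))))))) (by decide +kernel)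
def c20183 : PP 9 3 T 0x2000000000000000000000000000000000000000000000000000000000000000000000000000000000000000000088000001000000082 := rS 0x601d (k2 c2001 c2912 (k1 c20134 k0)) (by decide +kernel)
def c20184 : PP 9 3 T 0x40000000000000000000000100000000000100000000000000000000000000000000000000000000000000000000000000000000000002 := rS 0x1a7ef8e10c0c3e04e4c823d3f094e09f49ec340052b8a407e3 (k8 c20051 c28 c9694 c9758 c53 c5212 c5226 c5444 (k8 c5448 c20170 c2755 c20052 c12427 c13854 c5358 c20146 (k4 c5655 c5643 c20183 c20182 (k2 c5504 c2082 (k1 c20064 k0))))) (by decide +kernel)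
def c20185 : PP 9 3 T 0x44004000000000000000000000000000000000000000000000000000000000000000000000000000000000000000008800000000000000000000000000000 := rS 0xf621bc3df (k4 c5493 c5457 c889 c5204 (k1 c5499 k0)) (by decide +kernel)
def c20186 : PP 9 3 T 0x40005000000000002000210040000000000000000000000000000200000010000000000200000000200000000000000820000000000000000000000000002 := rS 0xda2a4d71159b19c0df7fbf50ee3f61f4ce5b4fa6fbed7469efde8332a14d28b (k8 c18350 c18347 c18349 c18353 c18355 c5504 c20185 c5381 (k8 c2187 c5493 c5397 c5448 c2159 c663 c5566 c5204 (k8 c17679 c5499 c5542 c5544 c14418 c5691 c10249 c2898 (k4 c3879 c2482 c2184 c17712 (k1 c18014 k0))))) (by decide +kernel)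
def c20187 : PP 9 3 T 0x42000000000000000000000100000000000000200000000000000000000000000000000000000000000000000000000000000000000102 := rS 0x409f8902591d0f4b59aa4da2155c4769ed66f827515386ce0210578716025131fda876c984cfa577883c0a2901f8f3bf31e9840e5f0bfbc8ad319ca0ce5b46e81269f5098d928b (k8 c18350 c5396 c5395 c5398 c5448 c5444 c5212 c5381 (k8 c2159 c663 c20184 c5316 c2081 c190 c5504 c5433 (k8 c1054 c5432 c661 c5436 c20139 c20072 c20051 c28 (k8 c9694 c53 c9739 c9696 c9758 c5566 c5564 c19532 (k8 c19549 c10131 c2998 c19769 c60 c352 c351 c2986 (k8 c12670 c4506 c5486 c2858 c4972 c5229 c20186 c5537 (k8 c6290 c5201 c5411 c5413 c5528 c5529 c5531 c5532 (k8 c9578 c19812 c15906 c353 c11694 c20005 c9181 c2632 k0)))))))) (by decide +kernel)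
def c20188 : PP 9 3 T 0x62000000000000000000000100000000000000200000000000000000000000000000000000000000000000000000000000008000000002 := rS 0x168fc2591e96b3549b4431555c442623078145203cefce51ef2299cb68dd0405601c (k8 c351 c352 c4506 c5212 c5381 c2159 c663 c190 (k8 c5504 c20184 c20139 c20072 c28 c9694 c53 c9739 (k8 c9731 c5564 c5411 c5413 c5414 c5528 c5529 c5531 (k4 c5532 c9578 c15906 c353 (k2 c20005 c1335 (k1 c19927 k0)))))) (by decide +kernel)
def c20189 : PP 9 3 T 0x42000000000000000000000100000000000000200000000000000000000000000000000000000000800000000000000000000000000002 := rS 0x199e14382dee3bf652b6b3ad9bd438b079898fe7b6a03c0be3cefcc72610397c2fef2da3740d319ca13ea131e4c10852ca0cba8b (k8 c18350 c17796 c18355 c18352 c18349 c20187 c5438 c5395 (k8 c5398 c5448 c20184 c5316 c2081 c5212 c5381 c2159 (k8 c5504 c5433 c1054 c5432 c661 c5317 c20139 c20072 (k8 c20051 c53 c9739 c10131 c20185 c2998 c19769 c3697 (k8 c352 c351 c4527 c5486 c5229 c20188 c5211 c5201 (k4 c5332 c5333 c5516 c5499 (k2 c6290 c17385 (k1 c14036 k0)))))))) (by decide +kernel)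
def c20190 : PP 9 3 T 0x1000000000010000010000000000000000000000008000000000000000040000000010100000000000110004000400005440000000104000000000202 := rS 0x1ec163b665281e05c98d5e6f542965065d (k8 c17796 c18355 c18352 c18349 c5477 c5325 c5324 c5438 (k8 c53 c9739 c5211 c20172 c5332 c5516 c1684 c14036 k0)) (by decide +kernel)
def c20191 : PP 9 3 T 0x4000000000000000000200000000000000000100000000000000000000000000000000040000000000014080000000000005000000000000004000400002 := rS 0x7e658a4065f (k4 c1054 c28 c9694 c9148 (k2 c19769 c19608 k0)) (by decide +kernel)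
def c20192 : PP 9 3 T 0x42000000000000000000000100000000000000200000000000000000000000000000000000000000000000000000000000000000000002 := rS 0xf0a1deed1f652994d4daac04d3ad9a58ee084ca55926350a7f3bf31c9840e5f0bfbd5a2901b4c67283396d1ba03a9958a69 (k8 c18347 c18348 c18353 c18354 c5212 c5381 c2159 c663 (k8 c20184 c5316 c2081 c28 c9694 c2029 c5504 c5433 (k8 c1054 c5432 c661 c5317 c20139 c20072 c5448 c5398 (k8 c5395 c5396 c5446 c5447 c20187 c20189 c3597 c5404 (k8 c19758 c20191 c352 c20188 c1334 c1333 c5211 c5201 (k4 c4256 c5333 c5499 c6290 (k1 c20190 k0))))))) (by decide +kernel)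
def c20193 : PP 9 3 T 0x40000000000000000000000100000000000000200000000000000000000000000000000000000000000004000000000000000000000002 := rS 0x27d2e716b9027634049df24571981c625f0bca3de45568a406672da3741b13ab14b25d (k8 c17796 c18352 c18348 c18354 c20192 c5212 c5381 c2159 (k8 c663 c28 c9694 c2029 c190 c5504 c20184 c5433 (k8 c1054 c5434 c5432 c5316 c9758 c16365 c11141 c5438 (k8 c10897 c10693 c552 c1764 c20048 c19758 c1602 c20096 k0)))) (by decide +kernel)
def c20194 : PP 9 3 T 0x2000000000058000200000000000000000000000000000200002000000000000000000000000000020000000000050000000000100000002000000000 := rS 0x409e4b0469bf3089 (k8 c18356 c18346 c5565 c5381 c17895 c19391 c1295 c2628 k0) (by decide +kernel)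
def c20195 : PP 9 3 T 0x50000000000000000000000100000000000000200000000000000000000000000000000000000000000000000000000000000000000002 := rS 0x13ad9a82289f38891a2f71df82214a028a407e3cefcc6e3d947bc8a5b46e83639365988e683 (k8 c18355 c19419 c20193 c1322 c5355 c20192 c5212 c5381 (k8 c2159 c190 c5504 c20184 c5436 c5435 c20139 c20072 (k8 c20051 c28 c9694 c53 c5211 c17712 c5198 c5332 (k8 c5333 c17745 c19387 c2755 c2756 c16791 c5680 c20194 (k2 c5229 c12726 k0))))) (by decide +kernel)
def c20196 : PP 9 3 T 0x40000000000000000000000100000008000000200000000000000000000000000000004000000000000000000000000000000000000002 := rS 0x1ef02252d2961e80abbbcb1d986cdff3f79155a672da348f11d0675666d07814e2e1120a4064913a8363e365988e63f9408e2bb445a24d265 (k8 c18353 c18347 c18356 c18350 c20195 c5414 c9731 c20184 (k8 c5318 c19419 c20193 c1322 c20051 c20192 c5680 c2927 (k8 c10038 c28 c9694 c5651 c3060 c782 c53 c9739 (k8 c5529 c5532 c20072 c5212 c5411 c15906 c5381 c2159 (k8 c663 c2029 c190 c5504 c20139 c5565 c5475 c18393 (k8 c18405 c5196 c3602 c3070 c20154 c5517 c6300 c5660 (k2 c1249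 c565 (k1 c18293 k0)))))))) (by decide +kernel)
def c20197 : PP 9 3 T 0x40000000000000000000000100000000000000200000000000000000000000000000004000000000000000000000000000000000000002 := rS 0x7b6961e1ac05aab07eabf653b24b844ea0389bc47e3f98fc6328f790c8a5b46ec5966239a75564788e822b9d01accdbb4078173089 (k8 c18356 c18346 c53 c9739 c20195 c5529 c5532 c28 (k8 c20072 c5414 c5212 c5411 c15906 c5413 c5412 c19419 (k8 c20193 c1322 c20192 c5381 c2159 c190 c189 c5504 (k8 c20184 c5434 c5318 c20139 c20051 c9731 c5565 c782 (k8 c5680 c2927 c3060 c10038 c20196 c5229 c5406 c5405 (k8 c17895 c3000 c2143 c553 c20037 c5517 c15907 c5171 k0)))))) (by decide +kernel)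
def c20198 : PP 9 3 T 0x40000000000000000000000000000000000000100040000000000200100010000000000000000000045000000000000001040000004400000000000040002 := rS 0x813f091ef (k4 c5504 c5660 c20005 c514 (k1 c2632 k0)) (by decide +kernel)
def c20199 : PP 9 3 T 0x40000000000000000000000100000000000000200000000000000000000000000000000000000000000000000000000000000000000002 := rS 0x489c1a0fd05bdc3e3ba54eb670125abc38b01309482df71a788eb354a64da218aaae23b4316c4ce5b22fbce68d09e801e051480fc79df98dc7b28 (k8 c20184 c5436 c5435 c20139 c20072 c20051 c28 c9694 (k8 c53 c9739 c5212 c5564 c5381 c19419 c5504 c190 (k8 c2159 c663 c20192 c20193 c20195 c5411 c5413 c5414 (k8 c5528 c5529 c5530 c5531 c5532 c15906 c20197 c1607 (k8 c2884 c1602 c2756 c5651 c352 c351 c2986 c353 (k8 c4506 c5486 c5229 c20198 c5332 c5517 c5333 c5516 (k4 c19932 c12726 c20037 c9793 (k1 c14126 k0)))))))) (by decide +kernel)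
def c20200 : PP 9 3 T 0x4000000000000040000000000000000000000100080000000000000100000000000000000000000200000000000000000000000000100000000000000002 := rS 0x12df8269d0744a4339e81e22901fce511d05887699d (k8 c20072 c17712 c5528 c5516 c20199 c20184 c20139 c28 (k8 c9694 c9696 c5212 c19419 c1932 c1093 c2177 c5658 (k4 c5651 c17804 c353 c19932 k0))) (by decide +kernel)
def c20201 : PP 9 3 T 0x4000000000000040000000000000000000000100080000000000000100002000000000000000000000000000000000000000000000000000008000000002 := rS 0x4ef6673d07ce500b25887699d (k8 c20072 c17712 c5528 c353 c5516 c20184 c20139 c5212 (k4 c19419 c5405 c19932 c5229 k0)) (by decide +kernel)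
def c20202 : PP 9 3 T 0x4000000000000040000000000000000000000100000004000000000000000000000000000000000100000000000000000000000000000000000000000002 := rS 0xd91c4e68d37e833089 (k8 c18356 c18346 c5212 c5565 c5381 c19419 c20048 c5229 (k1 c17895 k0)) (by decide +kernel)
def c20203 : PP 9 3 T 0x4000000000000040000000040000000000000100080000000000000100000000000000000000000000000000000000400000040000000000008000020002 := rS 0x318e0867e87c92ab3682d527bd8ed2519d41994d285 (k8 c18349 c18347 c18353 c18355 c20072 c20184 c17712 c9578 (k8 c20101 c5531 c5516 c665 c9859 c5334 c5517 c20201 (k4 c9248 c2858 c20084 c798 k0))) (by decide +kernel)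
def c20204 : PP 9 3 T 0x4000000000000040000000000000000000000100080000000000000100000000000000000000000000000000000000000000040000100000000000000002 := rS 0x13a44eed0ef64f66101ace963b1da680afe3ce8cc0e311bca23a3b7b9ac3ec52c9d4ba8b (k8 c18350 c17796 c18354 c18352 c18348 c5517 c1058 c5333 (k8 c5332 c20199 c20184 c5435 c5434 c5432 c5316 c20072 (k8 c20051 c9758 c5212 c17712 c9578 c20200 c20202 c5324 (k8 c12681 c7262 c10897 c5196 c12726 c5493 c9793 c20203 (k1 c17914 k0))))) (by decide +kernel)
def c20205 : PP 9 3 T 0x4000000000000040000000000000000000000100080008000000000200000000000000000000000800000000000000000000040000000000001000000002 := rS 0x12773d21dbdec71b8483b34ca7d2690d81c326100d8d4e7a02bbc7e6331c8fc0e311e97c2f288e8ef6a26258a406c52c9d4ba8b (k8 c18350 c17796 c18354 c18352 c18348 c28 c9694 c2455 (k8 c5651 c5411 c5332 c20199 c20184 c5433 c1054 c5436 (k8 c5434 c5432 c5318 c5317 c5316 c20139 c9696 c9758 (k8 c5212 c19419 c5324 c5475 c12681 c10897 c2858 c19387 (k8 c884 c5444 c5448 c5447 c17756 c13854 c2898 c2458 (k4 c5201 c17954 c5499 c2949 (k2 c889 c1684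 (k1 c19549 k0)))))))) (by decide +kernel)
def c20206 : PP 9 3 T 0x4000000000000040000000000000000000000100000004000000000000000000000000000000000000000000000000000000000000100000000000000002 := rS 0x216cb411d (k4 c20199 c5212 c5229 c5658 (k1 c18379 k0)) (by decide +kernel)
def c20207 : PP 9 3 T 0x4000000000000040000000000000000000000100080000000000001000000000000000000000000000000000000000000000040000100000000000000002 := rS 0x590956bb5881cfe73a (k8 c20206 c20139 c19419 c20204 c5411 c1340 c16791 c5685 (k1 c20205 k0)) (by decide +kernel)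
def c20208 : PP 9 3 T 0x45004000000000046000000000000000000000000000008000200000100000000000000000000000100001000000005001400400000000000018000000000 := rS 0x787bec6 (k4 c17977 c17498 c5535 c5204 k0) (by decide +kernel)
def c20209 : PP 9 3 T 0x4000000000000040000000000000000000000100040000000000000000000000000000000000000000000000000000000000040000500000008000000002 := rS 0x10197de316c5af0058c0f67ed7e1e4f68735b45fe0a06a40907025abce613078145203f1fcc6e3d2f85c8610d0474cf931ace862332b81e51114e884daa959ed33a8332a14d25d3a9658a8b (k8 c18350 c18348 c18352 c18354 c17796 c18347 c18349 c18353 (k8 c18355 c20072 c5211 c5532 c5531 c5529 c5528 c5412 (k8 c9727 c20184 c5432 c9758 c5316 c5434 c20206 c5324 (k8 c10897 c663 c20199 c5212 c12681 c5478 c5433 c1054 (k8 c5436 c5435 c20139 c20051 c28 c9694 c53 c9739 (k8 c5564 c19419 c2986 c353 c2858 c5660 c11694 c293 (k8 c10368 c3006 c9793 c1059 c8435 c690 c2307 c18014 (k8 c5542 c5405 c2632 c1336 c9181 c2145 c20208 c16365 (k4 c5196 c1322 c17979 c350 k0))))))))) (by decide +kernel)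
def c20210 : PP 9 3 T 0x4004000000000045000010040000000000000000000008000200000000000040000000000040000000005000000000000000000008000000000000000002 := rS 0x34477de3dbcdea75 (k8 c18354 c5477 c5325 c20101 c5196 c14196 c8113 c17847 k0) (by decide +kernel)
def c20211 : PP 9 3 T 0x4000000000000040000000000000000000000100000000000000001000000000000000000000000000000000000000000000040000100000000000000002 := rS 0x766aa5da67e4a98d43b063830164a7bab53fb35892596243889c8eb336a776911a5e4cce7346c4cdfa02b88c1e051480fc79df98cc72311e9840e5f0bca23a431a86e746932b14ea8bcc224b25d (k8 c17796 c18352 c18356 c18346 c18350 c18354 c18348 c18353 (k8 c18347 c20206 c5475 c5324 c5478 c20199 c20184 c5433 (k8 c1054 c5432 c661 c5436 c5434 c5317 c5316 c20139 (k8 c20072 c20051 c28 c9694 c53 c9739 c9731 c9758 (k8 c5212 c5565 c5382 c5381 c19419 c663 c10897 c20207 (k8 c9727 c5211 c5412 c5529 c5532 c15906 c20209 c668 (k8 c5651 c9148 c10038 c18405 c17895 c2756 c2758 c8188 (k8 c5660 c2588 c5645 c2480 c20210 c5398 c5395 c5446 (k4 c19981 c20105 c20191 c2998 (k2 c18020 c10131 k0)))))))))) (by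 decide +kernel)
def c20212 : PP 9 3 T 0x4000000000000040000000000000000000000100000000000000000000000000000000000000000000000000000000000000000000100000000000000002 := rS 0xf6df667850e7e31a87d9b0d9b4416f71dac59671885284eb3dac53265b083d436f31ace8e68d37e80ae0f028a407e3cefcc6639038c46e5f0bca23a852ca0cbb9844b14ea8b (k8 c18350 c18354 c18348 c18356 c18346 c17796 c18355 c18352 (k8 c18349 c20199 c20184 c5433 c1054 c5435 c5434 c5432 (k8 c5317 c5316 c20139 c20072 c20051 c28 c9694 c53 (k8 c9739 c9758 c5212 c5565 c5381 c19419 c20206 c5324 (k8 c5325 c5475 c5477 c12681 c5474 c10897 c20211 c5414 (k8 c171 c4972 c5211 c17712 c885 c9148 c18405 c5332 (k8 c5333 c5516 c17745 c17895 c12726 c5201 c5398 c5395 (k4 c19981 c5499 c6290 c17385 (k2 c2950 c892 (k1 c14036 k0)))))))))) (by decide +kernel)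
def c20213 : PP 9 3 T 0x400000000005a000200000000000000000000000004000200000000000000000000000000000000000000000000000000000000000000000000010002 := rS 0x7780a1d (k4 c5486 c53 c19362 c19195 k0) (by decide +kernel)
def c20214 : PP 9 3 T 0x4000000000000040000000080000000000000100000000000000000000000000000000000000000000000000000000000000000000000000000000000002 := rS 0x1fc12114b97c2f2856bc74067d94ec888b (k8 c18350 c20212 c5326 c5229 c5487 c5212 c9696 c2887 (k8 c20184 c5433 c1054 c19758 c2966 c5438 c5358 c20098 k0)) (by decide +kernel)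
def c20215 : PP 9 3 T 0x4000000000000050000000000000000000000100000000000000000000000000000000000000000000000000000000000000000000000000000000000002 := rS 0xd89cf402901f8e5011d9095613b22477268b (k8 c18350 c20214 c20199 c20212 c5326 c20202 c1093 c5229 (k8 c2966 c20184 c20051 c28 c9694 c5212 c19419 c20213 (k1 c19387 k0))) (by decide +kernel)
def c20216 : PP 9 3 T 0x4000000000000040000000000000000000000100000000000000000000000000000000000000000000000000000000000000000000000000000000000002 := rS 0x88ed04c471299dfa0b586c8233b219111fa0078145203cefce3a8b (k8 c18350 c20199 c20139 c20072 c28 c9694 c53 c9739 (k8 c5212 c5568 c20212 c123 c5326 c2966 c5229 c20202 (k8 c19921 c5405 c5487 c1093 c5779 c5651 c20215 c5411 (k1 c20036 k0)))) (by decide +kernel)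
def c20217 : PP 9 3 T 0x4000200000000000000000000000004000000100000000001000000000000000100000000000000010040000000140000001000010000 := rS 0xe1691a1345965125d (k8 c17796 c18356 c18352 c18350 c5564 c5381 c12615 c18384 (k1 c1994 k0)) (by decide +kernel)
def c20218 : PP 9 3 T 0x20000000000000000000000000000000000000000000000020000000000000000000000000000000000000000000000000000000000002 := rS 0xfd43bc41e0588aacdaa9 (k8 c5531 c5529 c5413 c5411 c53 c9739 c9696 c1922 (k2 c2338 c20026 k0)) (by decide +kernel)
def c20219 : PP 9 3 T 0x64000000000000000000000000040004000000000400004000000000000000000040000001504000000080000000000000000000000002 := rS 0xf640042a9 (k4 c5531 c5528 c18848 c18387 (k1 c5502 k0)) (by decide +kernel)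
def c20220 : PP 9 3 T 0x60000000080000000000000100000000000000000000000000000000000000000000000001000000000000000002000000000000000002 := rS 0x1366363a04463f1e97c2f114ec54da99069ec0e790503c0a13d06746f28 (k8 c20184 c5435 c20072 c5212 c5564 c53 c9739 c10368 (k8 c2307 c5432 c690 c293 c5530 c5529 c5414 c5412 (k8 c5411 c5433 c1054 c5436 c5318 c9731 c5380 c5357 (k2 c5355 c12351 (k1 c10253 k0))))) (by decide +kernel)
def c20221 : PP 9 3 T 0x60000000000000000000000100040004000000000000000000000000000000000000000000000000000000000000000000001000010002 := rS 0xd4c5937b21838b4d8998f27b489ac860a06922261347bc7e6071b97c2f288e9155eff239b62b9d59c441e057aecce28d399bf40b1f712c4c29018851398 (k8 c18346 c18356 c5528 c28 c9694 c5651 c353 c20216 (k8 c5506 c5212 c5565 c19419 c5381 c667 c17895 c20218 (k8 c53 c9739 c5411 c5532 c20072 c5414 c5529 c15906 (k8 c5586 c5584 c5582 c20199 c20184 c5433 c1054 c5435 (k8 c5432 c20139 c9696 c5568 c5564 c5382 c5660 c293 (k8 c10368 c3033 c1059 c13457 c690 c2307 c20217 c13493 (k8 c3604 c664 c20219 c693 c20220 c16365 c19916 c19929 k0)))))))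 (by decide +kernel)
def c20222 : PP 9 3 T 0x4000000000061000210040000000000000000080000000000000000000000000000000000000000000000000000050000000000005100008000000002 := rS 0xd48b19c07f71a7882df659ecc47d4c91cdb1501ace220f02a8496212482cd61f (k8 c5517 c1058 c5516 c5334 c5528 c353 c2927 c53 (k8 c9739 c5411 c5532 c28 c5414 c5529 c15906 c5530 (k8 c5566 c16365 c20101 c1322 c14962 c350 c5680 c1607 (k4 c2880 c17954 c10249 c800 (k2 c2480 c13576 k0))))) (by decide +kernel)
def c20223 : PP 9 3 T 0x60000000000000000000000100000004000000000000000000000000000000000000000000000000000000000000000000001000010002 := rS 0x332009a7990da21c4b3252aca4f903be927098cfe796382725b124d2896a113204267d2b8a7c6391f8f4c2072f85e50d76aa74424736c573a0359c441e057aecce28d399bf40b1f71d51398 (k8 c18346 c18356 c18354 c20216 c5506 c5212 c5565 c19419 (k8 c5381 c667 c17895 c20218 c53 c9739 c5411 c5532 (k8 c28 c20072 c5414 c5529 c15906 c5528 c5412 c5585 (k8 c5507 c20184 c5433 c1054 c5432 c661 c5436 c5318 (k8 c5317 c20051 c9694 c9758 c5566 c5564 c5380 c5651 (k8 c2927 c353 c20221 c5334 c9578 c20222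 c5438 c5357 (k8 c5441 c5358 c5355 c12655 c12670 c17767 c12613 c1602 (k8 c350 c1757 c1324 c5678 c1638 c4254 c2001 c333 (k4 c19669 c19710 c1232 c2078 k0))))))))) (by decide +kernel)
def c20224 : PP 9 3 T 0x60000000000000000000000100080000000000000000000044000000085000000000000000000040000000000000000010004000000002 := rS 0x48378d6d00f8ec6639188de50f5 (k8 c20218 c20184 c5435 c5434 c5317 c5316 c5332 c5517 (k4 c3587 c1058 c2136 c17914 (k1 c2948 k0))) (by decide +kernel)
def c20225 : PP 9 3 T 0x60000000080000000000000100000004000000000000000000000000000000000000000000000000000000000000000000000000010002 := rS 0x688efd84aa5b3c6acd4a25fbed2506c4fe813e8a472311b9840ed757b553a9954bd7668d399bd62274f8f596177b9263a4736c573a0359c441e05f9b2467287987049ee38e80427544b151798 (k8 c18346 c18350 c18348 c18356 c18354 c5528 c5212 c667 (k8 c20216 c20223 c20163 c333 c20184 c5316 c2061 c20139 (k8 c53 c9739 c5411 c5532 c28 c20072 c5414 c5529 (k8 c15906 c20199 c10629 c8188 c5433 c1090 c5436 c2756 (k8 c60 c5506 c5565 c19419 c5381 c17895 c20218 c5531 (k8 c5530 c5412 c5585 c5584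 c5507 c5432 c661 c5435 (k8 c5434 c5317 c9694 c5566 c5380 c5358 c12830 c11559 (k8 c17999 c17767 c1233 c10048 c13053 c332 c1587 c20224 (k4 c5660 c5657 c14196 c5501 (k1 c18037 k0)))))))))) (by decide +kernel)
def c20226 : PP 9 3 T 0x40004000000000041000000000000000000000000000000000000001000040054000000014400000040005000000000000000000008000145000020000000 := rS 0xd59a97708ed40df (k8 c2510 c5680 c14196 c3060 c1233 c8709 c332 c3587 k0) (by decide +kernel)
def c20227 : PP 9 3 T 0x60000000000000000000000100040004000000000000000000000000000000000000000000000000000000000000000000000000010002 := rS 0x33476e11a9f8c6a149ec18e0c67b450edff6128e7e3198e462372fac606af4ebd44e9f1eb2c2f287b9263a4736c573a0359c441e05f9bcc3824f71c74021 (k8 c5528 c5212 c667 c20216 c20223 c20163 c333 c20139 (k8 c53 c9739 c5411 c5532 c28 c20072 c5414 c5529 (k8 c15906 c20199 c10629 c8188 c20184 c5433 c1090 c5436 (k8 c2756 c60 c20218 c5412 c5584 c5508 c5506 c1054 (k8 c5435 c5434 c5317 c5316 c20051 c19419 c5660 c5657 (k8 c2510 c5499 c5501 c5543 c19744 c2480 c20226 c5444 (k8 c5398 c5395 c19981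 c331 c3059 c563 c8709 c18037 k0))))))) (by decide +kernel)
def c20228 : PP 9 3 T 0x60000000000000000000000100000004000000000000000000000000000000000000000000000000000000000000000000000000010002 := rS 0x4af7d9cd11ab35be9770989406bd887c774ac9bcd92f7658713e49126cce273469bfc7f3198e42e311b8f6511d58b5e06aff7085324736e822b9d01ace220f02bd73089 (k8 c18356 c18346 c20218 c53 c9739 c5411 c5532 c28 (k8 c20072 c5414 c5212 c5529 c15906 c5530 c5528 c20216 (k8 c5584 c5508 c5507 c5506 c20199 c20184 c5436 c5435 (k8 c5434 c5433 c5317 c5316 c20139 c20051 c5565 c5381 (k8 c19419 c667 c17895 c20223 c10629 c2756 c20163 c1090 (k8 c8188 c2061 c333 c20225 c20227 c5332 c5517 c9578 (k8 c1058 c5680 c16365 c3060 c1233 c14962 c8709 c332 (k4 c8355 c3587 c17847 c1587 (k1 c10048 k0))))))))) (by decide +kernel)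
def c20229 : PP 9 3 T 0x400000000001000000000000000000000000000004000000000000000051000000011000000000001100000000000000000000000555000561400000 := rS 0x924b26d2aced986d92f3 (k8 c333 c2061 c57 c5486 c3587 c1587 c2563 c9823 (k2 c6193 c1637 k0)) (by decide +kernel)
def c20230 : PP 9 3 T 0x8004000000000060000000000000000000000000080004000200000000000040000000011000000000000000000000000000000001400000000020000002 := rS 0x84263cb1d95924da853e634925869df7888c3203198e462373081cbe1757b553a997a8ec3fb10dbcc4269 (k8 c18347 c5528 c333 c57 c9578 c5517 c5332 c20218 (k8 c5530 c5412 c5585 c5584 c5433 c1054 c5432 c661 (k8 c5435 c5434 c5317 c5316 c28 c9701 c9731 c9696 (k8 c17847 c20229 c332 c331 c1229 c1643 c1233 c1232 (k4 c16365 c5680 c5357 c5441 (k2 c1754 c19669 (k1 c2863 k0))))))) (by decide +kernel)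
def c20231 : PP 9 3 T 0x8000000000000000000000000000000000000000000000000200000000000000000000000000000000008000000000000000000000000010010020000000 := rS 0x109a625208f59233 (k8 c5316 c2061 c5436 c1602 c2756 c2883 c14662 c2001 k0) (by decide +kernel)
def c20232 : PP 9 3 T 0x60000000000000000000000100080000000000000000000000000000020400000000004000000000000000000000000000000000000002 := rS 0xfd924818ce2276f281c3a0f1fcc7e6103b5fddb1941ac3fe1 (k8 c5459 c5517 c1058 c20184 c9578 c20216 c5507 c5432 (k8 c661 c5318 c20139 c20051 c5212 c17839 c5680 c8355 (k4 c2927 c2930 c14962 c17914 (k2 c16365 c2948 (k1 c5358 k0))))) (by decide +kernel)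
def c20233 : PP 9 3 T 0x60000000000000000000000100080004000000000000000000000000020000000000000000000000000000000000000000000020000002 := rS 0xd2ef6492a636527d2e3539a051a7dd03c45203ce8ccbe176bb57dd111dec651b30da258a8b (k8 c18350 c18348 c18356 c57 c5486 c20184 c9578 c5332 (k8 c5411 c20216 c5585 c5507 c5433 c1054 c5316 c20072 (k8 c28 c9694 c9696 c5212 c5566 c5381 c5380 c19419 (k8 c1704 c9368 c20231 c20232 c1322 c1757 c16365 c9823 (k2 c17999 c5496 k0))))) (by decide +kernel)
def c20234 : PP 9 3 T 0x60000000000000000000000100080004000000000000000000000000000000000000000000000000000000000001000000000020000002 := rS 0x404864b70899949f50a592accefb45e6c90decc53e31985e064557b55ffee4e88552f57bc748e6dd04573a0359c441e05f98ef6328 (k8 c20184 c9578 c5332 c20139 c53 c9739 c5411 c5532 (k8 c28 c20072 c5414 c5212 c5529 c15906 c20199 c8188 (k8 c20218 c5531 c5528 c5412 c20216 c5586 c5585 c5584 (k8 c5582 c5508 c5433 c5316 c20051 c9694 c5486 c57 (k8 c2061 c333 c20233 c17847 c20230 c2016 c13053 c10048 (k8 c1643 c5680 c9148 c1718 c353 c2863 c2078 c3593 k0)))))) (by decide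 +kernel)
def c20235 : PP 9 3 T 0x1000000000000000000000000000000000000000000000000000000000800000100000050000000040041400000000000000000000000 := rS 0x1dd92633a9958a69 (k8 c18347 c18348 c18353 c18354 c1322 c1324 c11141 c3597 k0) (by decide +kernel)
def c20236 : PP 9 3 T 0x1000000000000000000000000000000000000000000000000000000000100000000000050000000000045400000000000000000000000 := rS 0x773a9958a69 (k4 c18347 c18348 c18353 c18354 (k2 c11141 c3597 k0)) (by decide +kernel)
def c20237 : PP 9 3 T 0x4000000000000002001000000000000000000000000000000000000000000000000000050000000 := rS 0x37b3 (k2 c5405 c1075 (k1 c5649 k0)) (by decide +kernel)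
def c20238 : PP 9 3 T 0x4000000000060000210000000000000000000080000000200000000000000000000500440000000000000008000020000000001000000000000000002 := rS 0x3859ae3691ddbe9e2092f24a1132051a7d1c8fc7a610388532b3d8a258a8b (k8 c18350 c18348 c18356 c9578 c5532 c5530 c5528 c5432 (k8 c661 c5436 c5318 c5317 c5566 c5381 c5380 c668 (k8 c2930 c20083 c353 c350 c5680 c14125 c5356 c17999 (k4 c1607 c2073 c3063 c17954 k0)))) (by decide +kernel)
def c20239 : PP 9 3 T 0x40000000000000000000000100000000000000000000000000000000000000000000000000000000010000000000000000000010020002 := rS 0x4a27d00a407ee (k4 c20216 c28 c9694 c5212 (k2 c2858 c20163 (k1 c5651 k0))) (by decide +kernel)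
def c20240 : PP 9 3 T 0x60000000000000000000000100080004000000000000000000000000000000000000000000000000000000000001000000000000000002 := rS 0xd910bbec91ab4cecd0c9b7c82c650898e0867eb2d2e9533874d7b10f8ece7a078f8f3a313081cbe17942c5aed5f72a56610419950a69 (k8 c18347 c18349 c18353 c18355 c20228 c5532 c5531 c20216 (k8 c5585 c5507 c5506 c20184 c5433 c1054 c5432 c661 (k8 c5434 c20072 c20051 c9696 c5212 c19419 c5332 c5517 (k8 c9578 c1058 c20234 c664 c10191 c19357 c20235 c20237 (k8 c18014 c20239 c668 c2930 c20238 c350 c14125 c5357 (k8 c799 c798 c2136 c1704 c9610 c5493 c14662 c5678 (k1 c18379 k0))))))) (by decide +kernel)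
def c20241 : PP 9 3 T 0x60000000000000000000000100000004000000000000000000000000000000000000000000000000000000000001000000000000000002 := rS 0x19a3b709ec6a7e31a8527b067b47d8f34f8718ecb121c418276f82c954b7b9ce2629f1fcc6639188dc7a5f0bca23b0357fb93a21239b74115ce80d671107815ea10 (k8 c20228 c20218 c53 c9739 c5411 c5532 c28 c20072 (k8 c5414 c5212 c5529 c15906 c5528 c5412 c20216 c5584 (k8 c5508 c20199 c20184 c5433 c1054 c5436 c5435 c5434 (k8 c5317 c5316 c20139 c20051 c9694 c5382 c19419 c8188 (k8 c20240 c5660 c2588 c2510 c353 c5645 c668 c5651 (k8 c9148 c2480 c20239 c2756 c333 c5657 c5501 c5543 (k8 c20226 c5444 c5398 c5395 c19981 c331 c892 c3059 (k2 c290 c8709 (k1 c18037 k0))))))))) (by decide +kernel)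
def c20242 : PP 9 3 T 0x8000000000000000000000000000000000000000000000000200000000000000000000000000000000008000000000000000000000000000010020000000 := rS 0xd12ed5 (k4 c5585 c1643 c20231 c332 k0) (by decide +kernel)
def c20243 : PP 9 3 T 0x20000000000000000000000000040004000000000000000054000000000000000000000000000000000440000000000000000000000800 := rS 0x7e7b10ea9419950a69 (k8 c18347 c18349 c18353 c18355 c5531 c693 c5657 c18014 (k1 c5542 k0)) (by decide +kernel)
def c20244 : PP 9 3 T 0x8004000000000061000010000000000000000000040004000200100000000004000000000400000000010000100000044400000000050000000000000802 := rS 0x1ab4f26add906dec670ea79e229018cc7e311eb5c8aaf6aaadea7b039e46ec545a24ca69 (k8 c18347 c18353 c18356 c18350 c18348 c5435 c2307 c5432 (k8 c690 c20218 c5413 c5585 c5584 c5582 c5507 c5436 (k8 c5434 c5318 c5316 c28 c9694 c9696 c5680 c20242 (k8 c664 c20243 c2103 c5649 c5490 c14390 c14519 c19916 (k1 c3588 k0))))) (by decide +kernel)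
def c20245 : PP 9 3 T 0x22000010000000000000000000040004000200000000000004000000000000000000000000000000000400000000000000000010000802 := rS 0x1a86dec9733bc462ab7ae4d8c5f0b9ec0e9d3c8de226d (k8 c5529 c5411 c5435 c2307 c5412 c5432 c690 c5433 (k8 c1054 c17977 c5357 c20218 c5413 c5434 c9696 c664 (k4 c19357 c20243 c2103 c19916 (k1 c17904 k0)))) (by decide +kernel)
def c20246 : PP 9 3 T 0x48004000000000060000010000000000000000000040004000200100400000004000040000400000000000000100000044400000000040000008000000802 := rS 0xf6bde00cc690d438e06324f60412f85e229d36bd4f6073c8dd423f (k8 c5318 c2927 c5435 c2307 c5432 c690 c20218 c5529 (k8 c5412 c5411 c5433 c1054 c350 c20244 c5444 c17977 (k8 c9140 c20245 c331 c14662 c3063 c3062 c17683 c5502 (k1 c5657 k0)))) (by decide +kernel)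
def c20247 : PP 9 3 T 0x60000000000000000000000100000004000000000000000000000000000000000000000000000000000000000000000000000000000002 := rS 0xc74db84c6ca3c9ade643130281adfa5921ea9936c553a7346c4c266fd008c1e05f1e77e63f038dcbe17944748bee (k8 c20216 c5582 c20199 c20184 c5433 c1054 c5435 c5432 (k8 c5318 c20139 c20072 c20051 c53 c9739 c9731 c5212 (k8 c5565 c5564 c5382 c5381 c19419 c5412 c5414 c5529 (k8 c5530 c20218 c20241 c5334 c2946 c293 c10368 c10038 (k8 c3033 c450 c1059 c2307 c20246 c1322 c1718 c1327 (k2 c9140 c10374 k0)))))) (by decide +kernel)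
def c20248 : PP 9 3 T 0x50000000000000000000000000080004000000100000044005000000000000001800000000000000000000000000140000008000000000 := rS 0x7437b3552b200f724bd48e4b (k8 c354 c5520 c5519 c5334 c5333 c3593 c16402 c2901 (k4 c5490 c1908 c2121 c5649 k0)) (by decide +kernel)
def c20249 : PP 9 3 T 0x40000000000000000000000100000004000000000000000004000000000800000000000000000000000000000000000000000000000002 := rS 0x76ef19d2e1d0d109651512899929531e800af11480fc7f31e9840e5f0bca23ab16bc0c8afff712694b5886d73a733a9958a69 (k8 c18347 c18348 c18353 c18354 c19419 c20072 c20247 c17712 (k8 c1340 c5211 c5334 c20216 c5586 c5582 c5508 c5507 (k8 c5506 c20199 c20184 c5433 c1054 c5432 c661 c5436 (k8 c20139 c20051 c28 c9694 c9696 c53 c5212 c1322 (k8 c1757 c1324 c9148 c1090 c3046 c5685 c20248 c2863 (k4 c2001 c10141 c1903 c19410 (k2 c3597 c5493 k0))))))) (by decide +kernel)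
def c20250 : PP 9 3 T 0x4000000000050000200000000000000000000000004000200000000000005000000000000000000000000000000000000000000080000008000000010 := rS 0x6c4efde0e8684a17 (k8 c5433 c60 c2863 c2001 c19410 c5493 c19204 c19389 k0) (by decide +kernel)
def c20251 : PP 9 3 T 0x49004000000000051000200000000000000000000080000000200000000001000000000000400000000000000000000050000000000000000002000000002 := rS 0x4bb35a2a0f02bd3e3d (k8 c5436 c2756 c5584 c5198 c5680 c5459 c5537 c1233 (k1 c20078 k0)) (by decide +kernel)
def c20252 : PP 9 3 T 0x40000000000000000000000100000004000000000000000004000000000000000000000000000000000000000000080000000000000002 := rS 0xcc709ed9ec71ae4cfcd14c98d4293d87b5bf00562ae281c121c44fb3399f74005788a407e3f98cc72311b97c2f28f70edeef5a53f621b5ceb2f3069 (k8 c18347 c18346 c20249 c20072 c20247 c17712 c1238 c5211 (k8 c5519 c5333 c5332 c20216 c20184 c5433 c1054 c5435 (k8 c5434 c5317 c5316 c20139 c20051 c28 c9694 c9696 (k8 c53 c5212 c5566 c19419 c18379 c20250 c668 c5651 (k8 c20163 c16791 c2121 c2000 c3052 c4903 c5502 c20251 (k8 c5444 c5398 c5395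 c5447 c17698 c19981 c12830 c331 (k4 c796 c13265 c892 c10249 (k2 c3587 c2078 k0)))))))) (by decide +kernel)
def c20253 : PP 9 3 T 0x40000000000000000000000100000004000000000000000004000000000000000000000000000000000000000000000000002000000002 := rS 0x3de4cfc6350ec3dadf63a1894660decd5a1c4f9c4e68d37e80ae0f02f8fe6331c81c62371e97c2f288eac606457ffb9ee497a91e94fd886d73acb21e611269 (k8 c18347 c18356 c18346 c20252 c20249 c20072 c20247 c17712 (k8 c1238 c5211 c5520 c5519 c5334 c5333 c20216 c5586 (k8 c5582 c5508 c5506 c20199 c20184 c5433 c1054 c5436 (k8 c5435 c5434 c5432 c5317 c5316 c20139 c20051 c53 (k8 c9739 c9758 c5212 c5565 c5381 c19419 c2755 c2756 (k8 c20163 c2758 c17895 c57 c19392 c18824 c882 c3878 (k8 c2510 c5499 c20251 c5398 c5395 c19981 c12830 c892 (k1 c19735 k0)))))))) (by decide +kernel)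
def c20254 : PP 9 3 T 0x40000000000000000000000100000004000000000000000004000000000000000000000000000000000000000000000000000000000002 := rS 0xb38a8984a43788a407f38ec0c8afff712694b5886d73a73 (k8 c19419 c20072 c20247 c17712 c1340 c5211 c5334 c20216 (k8 c5586 c5582 c5508 c20199 c20139 c28 c9694 c9696 (k4 c20252 c20253 c5651 c3046 (k2 c20248 c5685 k0)))) (by decide +kernel)
def c20255 : PP 9 3 T 0x41000000000000000000000100000004000000000000000000000000000000000000000000000000000000000000000000001000000002 := rS 0x1c2cb6ff805203f1fcc723f1e9840e5f58fba94b53999d529518a5c3af27ec436b9d0bca1e269 (k8 c18347 c9696 c20184 c5433 c20072 c20247 c17712 c1238 (k8 c20254 c334 c19357 c5434 c10191 c2447 c883 c19419 (k8 c1340 c5211 c20216 c5506 c1054 c5432 c661 c5436 (k8 c5318 c5317 c20139 c20051 c28 c9694 c5198 c14805 (k2 c20235 c5460 (k1 c14997 k0)))))) (by decide +kernel)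
def c20256 : PP 9 3 T 0x40000000000000000000000100000004000000000000000000000000000000000000000000000000000000000000000000001000000002 := rS 0xde3de4dc6c770904ec9931a7d27b05912e2a2647e805203f98fc7a5f24d296a73668e4cea94a8c52e1d793f621b5ce85e50f1349958a75 (k8 c18354 c18348 c18353 c18347 c9696 c20184 c5433 c20072 (k8 c20247 c17712 c1238 c20254 c334 c19357 c5434 c10191 (k8 c2447 c883 c5317 c2500 c19419 c1340 c5211 c5334 (k8 c1054 c5436 c5318 c20139 c28 c9694 c5212 c5568 (k8 c5651 c3046 c354 c5685 c20255 c5444 c5448 c5395 (k8 c5447 c18020 c13854 c2898 c796 c2458 c5356 c890 (k2 c17954 c14796 k0))))))) (by decide +kernel)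
def c20257 : PP 9 3 T 0x40000000000000000000000100000004000000000000000000000000000000000000000000000000000000000000000000000000000002 := rS 0x388903af27ec436ba002e77dc69 (k8 c18347 c20216 c20072 c53 c5212 c20247 c17712 c1238 (k4 c20254 c334 c20256 c2755 (k1 c20163 k0))) (by decide +kernel)
def c20258 : PP 9 3 T 0x50000000000000000000000100000000000000000000000000000000000000000000000000000000000000000000000000000000000002 := rS 0x1bfed71b84824b4ca7d26b268ad7be4724ec2214a39e74723f1e915fe4379bd7265b188d4665703ca0e026128a406109d683dc832c974eac5 (k8 c18348 c18354 c17796 c18352 c18355 c20216 c5212 c20257 (k8 c17287 c28 c9694 c20157 c5651 c2858 c20184 c5432 (k8 c9758 c5316 c5324 c5434 c5474 c10897 c5477 c5325 (k8 c5478 c5586 c5582 c5436 c5318 c5317 c20072 c19419 (k8 c5211 c17712 c19387 c5334 c5520 c17189 c1340 c17745 (k8 c885 c5444 c5448 c5447 c354 c13854 c2898 c2458 (k2 c17892 c18825 (k1 c17954 k0)))))))) (by decide +kernel)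
def c20259 : PP 9 3 T 0x60000210000000000000000000080008000200100000004000000000400000000000000000000000060000000000100000008000000002 := rS 0x341be414332c1a62636c41649078147243c996c62351995c0ea11facd0a5941974eac5 (k8 c18348 c18354 c17796 c18355 c18352 c18349 c5532 c5318 (k8 c2927 c5432 c9758 c5316 c5324 c5434 c5474 c10897 (k8 c5478 c5317 c53 c9739 c5334 c5516 c9578 c20083 (k8 c16365 c2480 c1322 c5777 c350 c14125 c799 c19922 k0)))) (by decide +kernel)
def c20260 : PP 9 3 T 0x48004000000000000000210040000000000000000000008000200000000002000000040000000000000000000000001040008000000000000008000000000 := rS 0x4d78190e1691059a9e65a5c7e4538040d259 (k8 c18352 c18347 c17287 c2858 c5582 c5318 c1229 c1322 (k8 c782 c2505 c350 c17819 c3063 c2883 c18204 c1180 (k1 c5536 k0))) (by decide +kernel)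
def c20261 : PP 9 3 T 0x40000000000000000000000100000000000000000000000000000000000000000000000000000000000000000000000000000000000002 := rS 0xe166b19a49bd818df8793da1cd60a06b7d2048a591c96b3549b4429d88ed0e1151364cce250816c6b3a7f915afee8e97c6e310b81c7e33947cf3be31483cae03029cc27a0419950a6962964ea5d (k8 c17796 c18354 c18352 c18348 c18347 c18349 c18353 c18355 (k8 c5212 c5564 c19419 c53 c28 c9758 c9739 c9694 (k8 c20051 c20072 c20139 c20184 c5316 c5318 c5432 c5433 (k8 c5434 c5435 c1054 c20199 c20216 c5507 c5582 c5586 (k8 c20257 c5324 c5474 c17287 c20157 c663 c10897 c5651 (k8 c4972 c2858 c20258 c5411 c5412 c5528 c5529 c5531 (k8 c5532 c353 c15906 c20259 c5660 c11694 c2946 c293 (k8 c10368 c1059 c8435 c690 c2307 c18014 c20260 c16365 (k4 c5397 c13701 c18019 c2504 (k2 c3063 c801 k0)))))))))) (by decide +kernel)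
def c20262 : PP 9 3 T 0x8000000000000062000000000000000000000100000008000200000000000000000000000000000000000000000000000000000000000000001000000000 := rS 0x1df0fa5a9621788d436317f83c92238a874502708680031d41a2d0a59 (k8 c18352 c18349 c18350 c18355 c5504 c20261 c5212 c17287 (k8 c2859 c5651 c538 c5414 c5409 c10038 c10107 c5586 (k8 c5476 c5475 c5324 c5323 c5528 c9578 c17904 c14174 (k2 c5452 c19093 k0)))) (by decide +kernel)
def c20263 : PP 9 3 T 0x200000000000000000100040008000000000000004000000000000000000000000000004000000000000001000000000000000800 := rS 0x1224b89a2d0a83 (k4 c18355 c18349 c18350 c5382 (k2 c2588 c695 (k1 c13510 k0))) (by decide +kernel)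
def c20264 : PP 9 3 T 0x8000000000000000000200000000000000000100000008000100000000000000000000000000000000000000000000000000000000004000000000000080 := rS 0x1ef8da4773f905028d3e90cb6d562a2cea89 (k8 c18356 c18354 c18350 c18348 c5585 c5474 c5478 c5566 (k8 c5381 c5380 c1734 c677 c672 c17990 c17987 c2768 (k1 c5655 k0))) (by decide +kernel)
def c20265 : PP 9 3 T 0x8000000000000062000010040000000000000100000008000000000000000000000040000000000000000000000000000000000000000000001000000000 := rS 0x438283fe0a58e481e31e8cc107d4e885325b8eb55fe0f2488e2a570b81e523f0c8a04e0202843400141a2d0a59 (k8 c18352 c18349 c18350 c18355 c20261 c5212 c17287 c720 (k8 c5642 c2859 c5651 c5393 c404 c20262 c20264 c1108 (k8 c19417 c5414 c5409 c10038 c10107 c5586 c5585 c5504 (k8 c5474 c5530 c5528 c5412 c5566 c5643 c271 c1512 (k8 c17803 c5655 c547 c17923 c5215 c14174 c13533 c692 (k1 c20263 k0)))))) (by decide +kernel)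
def c20266 : PP 9 3 T 0x8000000000000000000000080000000000000000000008000100000000000000000000000000000000000000100000000000004000000000000000020040 := rS 0x6440f190c6a5b18c75aec52c9d4ba89 (k8 c18356 c17796 c18354 c18352 c18348 c5507 c5504 c5476 (k4 c5474 c5324 c5478 c17781 (k2 c13377 c10897 (k1 c544 k0)))) (by decide +kernel)
def c20267 : PP 9 3 T 0x8000000000000062000010000000000000000100000008000000000000000000000000000000000000000000000000000000000000000000001000000000 := rS 0x199ed7e347be1fa52599eb5f08cdbc08c985c0f291fa5536c90ca4d1a9d788d436317f95c04050e8a04e10d00063a59 (k8 c18352 c5504 c20261 c5212 c17287 c2859 c5651 c538 (k8 c720 c5642 c19417 c5586 c5476 c5475 c5324 c5323 (k8 c5412 c5381 c5444 c5393 c5396 c5397 c5446 c404 (k8 c20262 c20264 c1108 c20266 c5643 c20265 c271 c5538 (k8 c2514 c2564 c3577 c5215 c1311 c5452 c1708 c17804 (k2 c17757 c5688 (k1 c2504 k0))))))) (by decide +kernel)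
def c20268 : PP 9 3 T 0x8000000000000061000010040000000000000000000008000000000400000000000080000000000000000000500100000004000000000004020001400000 := rS 0x1228780b18f6d12f25992614aa4d949f3cf853ab3788d4363158b5c3b1d50a250a83 (k8 c18355 c18349 c18356 c1195 c5504 c538 c5507 c5506 (k8 c5476 c5475 c5324 c5323 c5532 c5412 c5538 c2387 (k8 c2884 c14125 c537 c1757 c1755 c1324 c3577 c5663 (k4 c1708 c1686 c10245 c2953 (k2 c799 c2949 (k1 c18000 k0)))))) (by decide +kernel)
def c20269 : PP 9 3 T 0x400000000020000000000000000000000100000008000000100000020000000100010000000000000404000000000000000001000040020001400000 := rS 0x1fa3b0fbdd9a47f6fcc46995490de2357986dea1d (k8 c538 c5477 c5475 c5325 c5324 c5323 c5478 c5531 (k8 c5530 c5409 c5592 c5502 c2790 c2078 c8188 c1312 (k2 c6899 c18107 (k1 c17991 k0)))) (by decide +kernel)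
def c20270 : PP 9 3 T 0x8000000000000021000000000000000000000100000008000200000000010000000000000000000000004002000000020000000001000000021000004008 := rS 0x96f70f91fe64322bcdebe31eb563a33 (k8 c5316 c5504 c5585 c5436 c17803 c5477 c5325 c5326 (k4 c5478 c5589 c2785 c10367 (k2 c8188 c17927 (k1 c17988 k0)))) (by decide +kernel)
def c20271 : PP 9 3 T 0x8000000000000061000000000000000000000100000008000000000000000000000040000000000000000080000000020000000000000000001000000000 := rS 0x761f6682fda8648c05c29b3db28bcd149a7cc3df46c4d1e634ec0dfe0f2488e2a020e85c6ea10c8a04e01c98c46a5b2b8142007f18f5ab1d19ca1027dd066106c5449d4b25d (k8 c17796 c18352 c18354 c18356 c18348 c18355 c18346 c5212 (k8 c5566 c5380 c17989 c5316 c5504 c5585 c5436 c17803 (k8 c5432 c17287 c720 c19417 c5474 c5324 c5476 c10897 (k8 c20261 c2859 c5651 c5315 c1195 c5435 c5433 c538 (k8 c5642 c5414 c5409 c10038 c10107 c5586 c5508 c5412 (k8 c19421 c5568 c5382 c5381 c5452 c1639 c1643 c1638 (k8 c1708 c5663 c5680 c1686 c1327 c1718 c20269 c20270 (k4 c18001 c5499 c692 c2074 (k2 c1112 c6899 (k1 c17969 k0))))))))))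 (by decide +kernel)
def c20272 : PP 9 3 T 0x1001400000000025000010040000000000000000000000000000000000000000000000011000000000000040000000000004000000000000000000000000 := rS 0x180f6c84caa4cac5 (k8 c18348 c18353 c5531 c5530 c18871 c11210 c10171 c10425 k0) (by decide +kernel)
def c20273 : PP 9 3 T 0x8000800000000041000200040000000000000000000008000200000000000000000000000000000000010000000000000000000000000000000000000008 := rS 0xc0c93bbc437e31eb563a33 (k8 c5316 c5504 c5585 c5436 c17803 c5475 c5323 c5493 (k2 c5494 c19294 (k1 c19404 k0))) (by decide +kernel)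
def c20274 : PP 9 3 T 0x20000000000000000000000000000008000000000000000000000000002000000000000040000000000000000000000004000050000000 := rS 0x3f5eea978bcc36f5 (k8 c5477 c5475 c5325 c5323 c5531 c2071 c2505 c17991 k0) (by decide +kernel)
def c20275 : PP 9 3 T 0x9000400000000020000200000000000000000000000008000000000000000000000040000000000000000040000048000000000000000004000010000048 := rS 0x699dda0cd0f82d028d3ea258a75 (k8 c18354 c18348 c18356 c5566 c5381 c5380 c690 c1112 (k4 c20274 c11210 c890 c2136 (k1 c17990 k0))) (by decide +kernel)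
def c20276 : PP 9 3 T 0x8000000000000060000010000000000000000100000008000000000000000000000000000000000000000000000004020000000000000000001000000000 := rS 0x957e339ee1f23fcd20cd4d8eda2e1f02a5e6f50792447150e8e46fe31eb563ac7369e4c05fefa8404976f85c322813a3e268d0dbc4c601c98cc62352d95c0a1003ca362813ee81327562a24b25d (k8 c17796 c18352 c18356 c18348 c18354 c5530 c5212 c5566 (k8 c5380 c20267 c17989 c5432 c17287 c720 c19417 c5474 (k8 c5324 c5476 c5316 c10897 c20261 c19421 c5323 c5475 (k8 c5381 c5382 c5568 c2859 c5651 c5315 c5433 c20268 (k8 c20271 c5642 c1195 c20273 c19103 c5663 c1577 c5529 (k8 c726 c5504 c5585 c5436 c17803 c5435 c5317 c538 (k8 c5414 c5409 c10038 c10107 c5477 c5325 c5531 c10425 (k8 c10249 c8113 c5456 c5536 c5537 c19906 c5589 c2785 (k4 c10367 c8188 c3587 c17991 (k2 c1587 c10429 k0)))))))))) (by decide +kernel)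
def c20277 : PP 9 3 T 0x8000000000000060000010000000000000000100000008000000000000000000000000000000000000000000000000020000000000000000001000000000 := rS 0xffb0167a3f980be977886c3b1d6f85cc68f89a37bf93198c46a5b2b81d42191409e50813eec4040508007405962a24ea5d (k8 c17796 c18354 c18356 c18348 c18352 c5212 c20261 c17287 (k8 c720 c5642 c20267 c5566 c5380 c17989 c2859 c5651 (k8 c5315 c1195 c5432 c19417 c5474 c5324 c5476 c5316 (k8 c10897 c20273 c5381 c5382 c5568 c19421 c5433 c20268 (k8 c5504 c538 c5475 c5323 c20271 c19103 c5663 c729 (k4 c20276 c690 c20275 c1112 (k1 c17757 k0))))))) (by decide +kernel)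
def c20278 : PP 9 3 T 0xa000000000000060000000000000000000000100000008000000000000000000000000000000000000000000000000000000000000000000001000000000 := rS 0xa5879faf17f83c92238a874502708680031d41a2d0a59 (k8 c18352 c18349 c18350 c18355 c5504 c20261 c5212 c17287 (k8 c2859 c5651 c538 c5414 c5409 c10038 c10107 c5586 (k4 c5323 c5542 c17757 c17804 (k1 c14174 k0)))) (by decide +kernel)
def c20279 : PP 9 3 T 0x40000000000000000000000100000008000000000000004000000000000000000000000000000000000000000001000000001080004000 := rS 0x297a000a0d1685 (k4 c18349 c18350 c18355 c20261 (k2 c5212 c5517 (k1 c14174 k0))) (by decide +kernel)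
def c20280 : PP 9 3 T 0x200000000000000000100040008000000100000004080000000000000000000000000000000000000000001000000000000004000 := rS 0x914392c1a5b45a150659 (k8 c18352 c18355 c18349 c18350 c5474 c291 c564 c9904 (k2 c13505 c13510 k0)) (by decide +kernel)
def c20281 : PP 9 3 T 0x9000000000000061000010040000000000000100040008000000000000000000000000000000000000000001004000010000000000000000020040000008 := rS 0x384f27b301fd2ee32fb1d3c0c2502d32b37f83c92270808e2a1d1c81fc63d6ac75be171998c028f89a37bea10cca1027dd0214b28345b151275 (k8 c18354 c18356 c18348 c18350 c18355 c18352 c18349 c5212 (k8 c5566 c5380 c17989 c5315 c1195 c20273 c5381 c5382 (k8 c5568 c20261 c19421 c5316 c5433 c20268 c5504 c5585 (k8 c5436 c17803 c5432 c5317 c538 c5414 c5409 c17287 (k8 c2859 c10038 c10107 c5586 c5532 c5530 c20263 c13510 (k8 c5777 c17927 c2480 c1522 c1607 c1643 c2880 c5663 (k4 c20275 c1577 c10249 c19905 k0))))))) (by decide +kernel)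
def c20282 : PP 9 3 T 0x9000000000000061000010040000000000000100040008000000000000000000000000000000000000000001000000010000000000000000020040000008 := rS 0xe13c9ecc07f4bb8cbe9e257cd8e470602d0c995996c3a3903f8c7ad56f85c666347c4d1bdf5086650813ebdc92270088e2a0f083fe3ba02cb151275 (k8 c18354 c18356 c18348 c18352 c5212 c5504 c5586 c17287 (k8 c10107 c5414 c5409 c20261 c2859 c10038 c20280 c5566 (k8 c5380 c17989 c5315 c1195 c20273 c5381 c5382 c5568 (k8 c19421 c5316 c5433 c20268 c5585 c5436 c17803 c5432 (k8 c5317 c538 c5474 c5532 c5530 c20281 c692 c8435 (k8 c5779 c2480 c17808 c5660 c17927 c1522 c1607 c1643 (k4 c2880 c5663 c20275 c1577 (k2 c10249 c19905 k0)))))))) (by decide +kernel)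
def c20283 : PP 9 3 T 0x9000000000000061000010040000000000000100040008000000000000000000000000000000000000000000000000010000000000000000020040000008 := rS 0x136c8f01dd9a604b97d3c4a6891fe6907e3dcc6a978bccb61b7abfc1e491384002238a877c63d6ac7467df5086650813eecd1a7337e816289cc314ea59 (k8 c18352 c18354 c18348 c18346 c18356 c5506 c5212 c5565 (k8 c19419 c5381 c17895 c5566 c5380 c17989 c5315 c1195 (k8 c20273 c5316 c5504 c5585 c5436 c17803 c538 c5414 (k8 c5409 c20261 c17287 c2859 c10038 c10107 c5586 c5477 (k8 c5475 c5474 c5325 c5323 c5531 c19421 c20280 c17991 (k8 c20282 c5589 c2785 c9793 c5660 c17927 c1522 c1643 (k4 c5663 c20274 c17746 c20272 (k2 c19404 c5536 (k1 c1180 k0))))))))) (by decide +kernel)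
def c20284 : PP 9 3 T 0x8000000000000060000010000000000000000100000008000000000000000000000000000000000000000000000000000000000000000000001000000000 := rS 0x26d91e03b9ecc07f4b97d3cfc1dd283fed38f7dbfe3c9a847a17038cc3328d88740457248a00a2707841fed58ea051b133ea3f40630088e2af11a96c62c52c9d4ba89 (k8 c18356 c17796 c18354 c18352 c18348 c5476 c5474 c5324 (k8 c5323 c5414 c5409 c20261 c19421 c5212 c5568 c5566 (k8 c5382 c5381 c5380 c5504 c5585 c5586 c17287 c10107 (k8 c2859 c720 c5651 c10038 c19417 c5642 c538 c20267 (k8 c17989 c5315 c5316 c5432 c5433 c5436 c1195 c10897 (k8 c17803 c20268 c20273 c20277 c20278 c20279 c20283 c5332 (k8 c17804 c17969 c1522 c1643 c2880 c5663 c20275 c17746 (k4 c10425 c19404 c5536 c1180 k0)))))))) (by decide +kernel)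
def c20285 : PP 9 3 T 0x4000400000000061000000000000000000000000080008000000000000020000000000000000000020000000100110000004000000000000020040000000 := rS 0x9a1ca58d45e94254c3933b3559ac90ba4da67f65907c4234e88532f17996c7637d9bdc0a026ba258a8b (k8 c18350 c18348 c18356 c10483 c9694 c54 c5333 c7262 (k8 c5518 c5332 c5474 c5325 c5323 c5530 c5528 c5412 (k8 c5409 c5196 c5462 c5464 c5577 c5579 c536 c1307 (k8 c2067 c2077 c12738 c18905 c17999 c725 c9916 c5209 (k4 c5663 c18034 c5678 c5317 (k2 c18004 c1232 k0)))))) (by decide +kernel)
def c20286 : PP 9 3 T 0x4000400000000000000200000000000000000000000008000000000000000000000000500000000000000000000000000000000000000000020000800000 := rS 0x1dda67f030f11a7d2196cae02 (k8 c9694 c9757 c5474 c5478 c5566 c5381 c1308 c1108 (k4 c2765 c2768 c672 c18905 k0)) (by decide +kernel)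
def c20287 : PP 9 3 T 0x4000400000000060000200000000000000000000080008000000000000020000000000000000000020000000000000000004000000000000020040000000 := rS 0x25fc2d01c05d9ad54aa6c329f49ec1ae81469f4469d10a65e63b7b8dfdafc0e809e259 (k8 c18352 c5323 c9694 c263 c17804 c17757 c5518 c5333 (k8 c5332 c5325 c5530 c5528 c5412 c5409 c5566 c5381 (k8 c5380 c10483 c20285 c5444 c5448 c5393 c5397 c5446 (k8 c2890 c2504 c20286 c17923 c18107 c5534 c1708 c12148 k0)))) (by decide +kernel)
def c20288 : PP 9 3 T 0x4000000000020000000000000000000000000000008000000000000000000000040000100000000004040000000000000000000000404020041400000 := rS 0x129b0788d436310e8092659 (k8 c18352 c537 c9694 c263 c5476 c5475 c5324 c5323 (k2 c17969 c3577 (k1 c5446 k0))) (by decide +kernel)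
def c20289 : PP 9 3 T 0x4000000000040000000000000000000000100000000000000000000000000000000000000000000000000000000000000000000000000000002000000 := rS 0x36329 (k2 c5315 c5393 (k1 c5226 k0)) (by decide +kernel)
def c20290 : PP 9 3 T 0x4000000000000060000000000000000000000100080008000000000000004000000000000000000000000000000000000000000000000000020040000000 := rS 0xe161f865bfe34fb4d927719b552fde807ce3aac58c0df9ed0eabc0481469f7406300bc4623b23ecdee8b3ab151259 (k8 c18352 c18356 c18348 c18354 c18350 c5333 c7262 c5520 (k8 c5332 c5476 c5323 c20261 c19421 c5212 c5566 c5381 (k8 c5380 c9694 c1243 c263 c17757 c17804 c2632 c1336 (k8 c5683 c2028 c17808 c5694 c20287 c5452 c5454 c5492 (k8 c5493 c5494 c5496 c14179 c17987 c2952 c20289 c404 (k2 c20288 c17915 (k1 c1108 k0))))))) (by decide +kernel)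
def c20291 : PP 9 3 T 0x60000010000000000000000100080008000000000000004000000000000000000000000000000000000000000000000000001040004000 := rS 0x205ed437cc1b018e010961101898520b7b84f4001109b4b6f5f7e60ba8532a0d1659 (k8 c18352 c18350 c18355 c18353 c18349 c17796 c18346 c20284 (k8 c5477 c5474 c5529 c5528 c20261 c5212 c5564 c5333 (k8 c5516 c20290 c5651 c267 c2859 c353 c5642 c12681 (k4 c2140 c315 c16779 c12456 (k2 c10910 c5694 (k1 c10690 k0)))))) (by decide +kernel)
def c20292 : PP 9 3 T 0x20000010000000000000000000040008000000000000080000000000000000000040000000000000000000000001000000000040004000 := rS 0x3f5ee8711aacdaa97996dea652ca0cd285 (k8 c18349 c18347 c18355 c18352 c18353 c5477 c5474 c5325 (k8 c5531 c5529 c5413 c5409 c10690 c2196 c2632 c9250 k0)) (by decide +kernel)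
def c20293 : PP 9 3 T 0x4000000000000060000010000000000000000000040008000000000400014000000000000000000040000000500000000000000001000000000040004008 := rS 0xac8e2c48fb305bdd0c4bf93ccb6f5f68760659 (k8 c18352 c20292 c263 c17757 c5477 c5474 c5325 c5694 (k8 c9182 c19658 c9904 c692 c7262 c5779 c19848 c17808 (k2 c5683 c2028 k0))) (by decide +kernel)
def c20294 : PP 9 3 T 0x4000000000000000000200000000000000000100000008000000100000000000000000100000000000000000000000000000004000000000020000800008 := rS 0xef9ddaed33f8fc0c3c0ca34fa432d8c51675 (k8 c18354 c18350 c5476 c5474 c5478 c5566 c5381 c82 (k8 c1308 c1108 c404 c2765 c2768 c1492 c672 c17915 (k1 c18905 k0))) (by decide +kernel)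
def c20295 : PP 9 3 T 0x5004400000000064000010000000000000000100040000000000000000020040000000100000000000000000000000000000000000040400005041400000 := rS 0xf6529b49f81a5b06b88d3a214cfcc7e28 (k8 c5651 c404 c5592 c5530 c5528 c5412 c5409 c10483 (k8 c5196 c5689 c5204 c5444 c5397 c18438 c2768 c19690 k0)) (by decide +kernel)
def c20296 : PP 9 3 T 0x1004000000000060000010000000000000000100040008000000000000020040000000100000000000000000000000000000000000000400005041400000 := rS 0x1be9f69b246697ef680c60121fbc50b155eccea8b (k8 c18350 c18354 c7262 c5413 c2143 c5651 c20284 c5478 (k8 c20261 c19421 c5212 c20295 c5452 c5492 c5494 c5496 (k2 c14179 c2952 (k1 c20288 k0)))) (by decide +kernel)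
def c20297 : PP 9 3 T 0x40000000000000000000000000000000000000000000000000000000000000000000000000000004000000008000000000040 := rS 0x265259 (k4 c18352 c5316 c271 c5643 k0) (by decide +kernel)
def c20298 : PP 9 3 T 0x1000000000000060000010000000000000000100040008000000000000064040000000100000000000000000000000000000004000000400005041400000 := rS 0x13291e0cc0fdfc99d9a67f6b907c43f40a34fba02d8a3e71d3aa2d12c5 (k8 c18348 c18356 c18350 c18354 c2139 c5592 c5651 c5474 (k8 c5212 c5566 c5381 c5380 c404 c20296 c5462 c5465 (k8 c5577 c5579 c17987 c17999 c17880 c672 c20297 c13568 (k2 c5436 c1512 (k1 c5643 k0))))) (by decide +kernel)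
def c20299 : PP 9 3 T 0x40000000000000000000000100000000000000000000000000000000100000000000000000000000000000000000000000000002000000 := rS 0x1dfc59240a34fba062a2cea89 (k8 c18356 c18354 c18350 c18348 c5212 c5566 c5381 c5380 (k4 c6205 c20289 c5356 c17987 k0)) (by decide +kernel)
def c20300 : PP 9 3 T 0x60000010000000000000000100040008000000000000064040000000100000000000000000000000000000004000000400001040000008 := rS 0x642feff6874502709e823a59 (k8 c18352 c2139 c5212 c5564 c267 c5651 c263 c17757 (k4 c20284 c20294 c20299 c20298 k0)) (by decide +kernel)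
def c20301 : PP 9 3 T 0x60000010000000000000000100040008000000000000064040000000000000000000000000000000000000004001000400001040000008 := rS 0xdd36190ba4d9ad1702593c4169f7da8234cbf1ea1d79aa4371d566cfdeb155abc502709e81e259 (k8 c18352 c5323 c5212 c5564 c267 c5651 c1243 c5413 (k8 c2143 c20284 c7262 c5683 c2139 c5475 c5531 c5325 (k8 c263 c5477 c17991 c5530 c5409 c20300 c5454 c141 (k8 c1657 c2890 c2891 c3072 c1711 c2077 c536 c1466 (k4 c1227 c1232 c1484 c18107 k0))))) (by decide +kernel)
def c20302 : PP 9 3 T 0x60000010000000000000000100000008000000000000004000000000000000000000000000000000000000000001000000001040004000 := rS 0xd2ef1dcfed5f1b5d8e7a70101c7e11c8e9ee0c059288ff38040d5e28f689c3a022b816968146c4c267d47e800243788d7dec5449d51659 (k8 c18352 c18350 c18354 c18356 c18348 c20284 c5324 c5323 (k8 c5478 c20261 c5212 c5568 c5566 c5564 c5382 c5381 (k8 c5380 c20291 c6008 c19417 c5642 c263 c267 c17757 (k8 c5651 c1243 c20292 c20293 c5592 c2790 c5660 c2588 (k8 c5645 c291 c20301 c154 c5456 c1774 c562 c563 (k8 c290 c2480 c2146 c5462 c1656 c3059 c20185 c5204 (k2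 c3608 c5496 k0))))))) (by decide +kernel)
def c20303 : PP 9 3 T 0x800000000000000210000000000000000100080008000000000000008000000000100000002000000000000000000000004000004000000100000008 := rS 0xc07b946c41017f1e4dc607f09dc66cf40a34faf11a96c3631708eceac52ca2d125d (k8 c17796 c18356 c18350 c18352 c18348 c18354 c5332 c3012 (k8 c5476 c5475 c5474 c5324 c5323 c5566 c5381 c5380 (k8 c5453 c5492 c5493 c6344 c17915 c2574 c10897 c17987 (k4 c1108 c10693 c17920 c9669 (k2 c1684 c19294 (k1 c10425 k0)))))) (by decide +kernel)
def c20304 : PP 9 3 T 0x5004400000000044000000000000000000000000080000000000000000000000000100100000002200000000000000000000000004000001020101000000 := rS 0x1e3582cc94dec3c1f3 (k8 c5548 c5204 c5196 c5536 c5396 c16343 c15326 c1308 (k1 c1491 k0)) (by decide +kernel)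
def c20305 : PP 9 3 T 0x4000000000000060000010000000000000000100000008000000000000008040000000100000000000000000000000000000004001000000020040000000 := rS 0x3c038d82542f2949b7dc6d765907c5df1b8ee9447f9ad12efc580fc3aaf01680469d10a6552f10d8c5ebed25bcd5ab370b3433b3 (k8 c7262 c20299 c2507 c3012 c5532 c2892 c5325 c2568 (k8 c5544 c5477 c5476 c5475 c5323 c5531 c5530 c5528 (k8 c5412 c5409 c5212 c9694 c1243 c539 c404 c5683 (k8 c17991 c1334 c1335 c5548 c2345 c5660 c5332 c5518 (k8 c20303 c20304 c5462 c5464 c5465 c5466 c5580 c536 (k4 c17934 c1307 c2181 c5648 (k2 c17923 c12148 (k1 c5534 k0)))))))) (by decide +kernel)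
def c20306 : PP 9 3 T 0x20000010000000000000000000000000000000000400000000000000000000000000000001400000000000000004000000008000044001 := rS 0x3416040880c426d (k8 c5529 c5528 c267 c2859 c5642 c717 c315 c12647 k0) (by decide +kernel)
def c20307 : PP 9 3 T 0x4000000000000060000010000000000000000100000000000000000000000080000000000000000050000000000000000040040005000000000040004000 := rS 0x47f9ad161b37e1ac148706d2d528332a14d259 (k8 c18352 c18347 c18349 c18353 c18355 c5531 c5333 c291 (k8 c9904 c5645 c2305 c18014 c5405 c5683 c1335 c5548 (k2 c2345 c5660 k0))) (by decide +kernel)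
def c20308 : PP 9 3 T 0x400000000020000000000000000000000000000008000000000000008040000200001000000000000014000000000000000000000440020040000000 := rS 0x360174bb2596d0f088d3aab10a65e3ed0eab567b3 (k8 c7262 c5532 c2892 c539 c5544 c5323 c5530 c5528 (k8 c5413 c5412 c5409 c5460 c3013 c1718 c2133 c1708 (k2 c1307 c5678 (k1 c12148 k0)))) (by decide +kernel)
def c20309 : PP 9 3 T 0x60000010000000000000000100000008000000000000000000000000000000000000000000000000000000000001000000001040004000 := rS 0xf2c703027263c3d8e652d1708dc163b6fd299a47f9a4d2ab4719047e7f6bf7d60d4d9bf0aef7338755e021409d5a4b48c0fdafe40a3626133ea3f400154acc8af11abccb61b7afbd8a8b (k8 c18350 c18348 c20284 c5477 c5475 c5474 c5325 c5324 (k8 c5323 c5326 c5532 c5531 c20261 c5212 c5568 c5566 (k8 c5564 c5382 c5381 c5380 c20302 c5544 c211 c3008 (k8 c2568 c2892 c20306 c5651 c9694 c1243 c539 c13507 (k8 c20307 c9757 c17991 c7262 c20305 c5683 c5454 c206 (k8 c2998 c2996 c1656 c1663 c1335 c2181 c536 c5548 (k8 c2345 c4669 c5660 c3003 c5332 c5516 c5518 c20308 (k8 c1710 c17934 c6897 c11210 c17954 c17932 c1512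 c5643 (k2 c674 c1454 (k1 c3610 k0)))))))))) (by decide +kernel)
def c20310 : PP 9 3 T 0x100000000000000000000000000000000000800000000000000000000000000000000014000000000008000 := rS 0x7be3948a40604 (k4 c9739 c54 c9694 c19585 (k2 c5464 c1490 (k1 c5655 k0))) (by decide +kernel)
def c20311 : PP 9 3 T 0x84000000000000064000010000000000000000100000008000000000000000000000000200000001040000000000000000040000000000000000000008000 := rS 0x363e3c932c823fef9146b4b94ab63811d00a4060471974b28b (k8 c18350 c18352 c17796 c5549 c9739 c54 c9694 c5212 (k8 c10107 c12681 c2029 c19585 c5329 c5324 c5326 c5454 (k4 c2996 c1656 c20310 c17886 (k2 c19979 c19997 (k1 c5196 k0))))) (by decide +kernel)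
def c20312 : PP 9 3 T 0x80000000000000040000000080000000000000100000008000100000000000000000000000000000000000040000000000040000000000000000000000020 := rS 0x95d801fc6772b97f406932b14ea59 (k8 c18352 c18354 c18348 c18353 c18347 c5212 c5439 c5353 (k4 c5356 c19979 c6060 c5226 (k2 c17962 c18020 k0))) (by decide +kernel)
def c20313 : PP 9 3 T 0x60000010000000000000000100000008000000000000000000000000000000000000000000000000000000000001000000001040000000 := rS 0x3359ed6eff8d2adf68b2b61e0c9a5daae37eb4f67f2580715eb523898531c3380e52110212e960ed00053aab4caa56645f7a2cb25d (k8 c17796 c18352 c18350 c20284 c5326 c5532 c5531 c5530 (k8 c5413 c5412 c20261 c5212 c20309 c5329 c12627 c9739 (k8 c10107 c19585 c54 c17220 c12681 c9694 c5651 c16855 (k8 c9106 c2986 c19353 c352 c5660 c5486 c4466 c1335 (k8 c5549 c20311 c1334 c20312 c5215 c5209 c17886 c5459 (k8 c5538 c5446 c5464 c13565 c5689 c1769 c5537 c10216 k0)))))) (by decide +kernel)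
def c20314 : PP 9 3 T 0x20000010040000000000000000040000000000000100001000000000004000000000000040000000000000000000000000000000000020 := rS 0x3259ad1d87800eab36aa6520e (k8 c6008 c19585 c5531 c5529 c5413 c8467 c5215 c5209 (k4 c5459 c5537 c5396 c9860 k0)) (by decide +kernel)
def c20315 : PP 9 3 T 0x60000010000000000000000100000008000000000000000000000000100000000000000000000000000000000002000000000000000000 := rS 0x4a7800ecd64f8dac772be492ecf40a34fb1155a6553f36f8716129070100613a5bf55e4569c09ed1c08898471500e818a593aa2d125d (k8 c17796 c18356 c18350 c18354 c18352 c18348 c5212 c20261 (k8 c5414 c5409 c10038 c2859 c12681 c513 c514 c4469 (k8 c5326 c2986 c2632 c5334 c5564 c267 c5642 c6008 (k8 c19585 c352 c19353 c17709 c5588 c5531 c5530 c5413 (k8 c9730 c5566 c5381 c5380 c2634 c1334 c20314 c5353 (k8 c5356 c17999 c17987 c4534 c2192 c6060 c5168 c18031 (k1 c17962 k0))))))) (by decide +kernel)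
def c20316 : PP 9 3 T 0x60000010000000000000000100000008000000000000000000000000000000000000000000000000000000000002000000001000000000 := rS 0x24879b12be499e9771b2d2a07688fcfed7efb5082097eca561025699c1d1cd9810221c5780dfe261492e9681099f741110088d3aab8aa655245f7a2cb25d (k8 c17796 c18352 c18350 c20284 c5326 c5531 c5530 c5414 (k8 c5413 c5412 c5409 c20261 c9730 c5212 c5566 c5564 (k8 c5380 c5334 c192 c509 c10038 c3006 c267 c2986 (k8 c19353 c2859 c5642 c5486 c12681 c6008 c17220 c2029 (k8 c514 c352 c19585 c2632 c16665 c17676 c20315 c5454 (k8 c206 c2998 c2996 c1711 c17794 c2181 c20310 c18209 (k8 c1333 c2633 c20314 c5353 c19997 c12613 c13110 c1570 k0))))))) (by decide +kernel)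
def c20317 : PP 9 3 T 0x60000010000000000000000100000008000000000000000000000000200000000000000000000000000000000000000000001000000020 := rS 0x1b3f90715eb52389852670700f400159917df4b258789259 (k8 c18352 c20316 c20313 c2591 c5517 c20284 c5326 c5532 (k8 c20261 c5212 c54 c6008 c17220 c9694 c5651 c16855 (k4 c9106 c2986 c19353 c5660 (k2 c5486 c20311 k0)))) (by decide +kernel)
def c20318 : PP 9 3 T 0x21000200080000000000000000000000000100000000000000000440000000000000000004000000000000000001000100000080400800 := rS 0x1ec6c3b0c08d3b4b (k8 c5517 c5412 c5409 c5648 c12293 c1165 c10458 c11714 k0) (by decide +kernel)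
def c20319 : PP 9 3 T 0x4000000000000060000000080000000000000100000000000100000000000000000440000000000050000000000000000040000001014000000080000808 := rS 0xf7c6cad824c2e092fe80726a (k8 c1111 c4652 c5212 c5439 c5438 c1107 c261 c20318 (k4 c19997 c5464 c1489 c5655 k0)) (by decide +kernel)
def c20320 : PP 9 3 T 0x44000000000000060000010000000000000000100000008000100000000000000000400000000000250000015000040000040000001014000000080000808 := rS 0xcb4b7882e33041e192e13db1f61e00ce4dbe81899f51fa000bc46a1b18d2c3a59 (k8 c18352 c263 c5517 c5476 c5475 c5324 c5323 c20261 (k8 c5212 c5568 c5566 c5382 c5380 c6120 c20319 c6205 (k8 c5215 c5209 c5535 c5457 c5460 c5396 c3610 c2308 (k4 c271 c1507 c20146 c3577 (k2 c5464 c1333 k0))))) (by decide +kernel)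
def c20321 : PP 9 3 T 0x60000010000000000000000100000008000000000000000000000000200000000000000000000000000000000000000000001000000000 := rS 0x63185c2793d8f46e076fca1269566ac3e6675a2855e28569a84efe05244040f02b8c823f3fb5d028d8984cfa8fd02cc8af11a86fde0d00c0c974b0f125ea8b (k8 c18350 c5477 c20316 c20313 c5517 c2591 c7820 c20261 (k8 c2362 c20284 c5475 c5324 c5323 c5326 c5532 c5212 (k8 c5568 c5566 c5564 c5382 c5381 c5380 c206 c2998 (k8 c2996 c1656 c1663 c20317 c9739 c5642 c13505 c5645 (k8 c20279 c267 c1111 c2892 c5651 c1243 c4052 c1311 (k8 c13507 c5548 c2573 c4669 c2181 c536 c20320 c3003 (k8 c5432 c5435 c5436 c690 c2307 c6188 c19915 c3610 (k1 c19918 k0)))))))) (by decide +kernel)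
def c20322 : PP 9 3 T 0x60000200000000000000000000000008000200000000040000000100000000000040010041000000000044000000000000000000000808 := rS 0x5eef984f3933dec46e0719bc46a5b0d8c4ae1d62964ea5d (k8 c17796 c18354 c18352 c18348 c263 c9757 c5476 c5475 (k8 c5474 c5324 c5323 c5316 c5432 c5435 c17904 c690 (k4 c10897 c2307 c19915 c19294 (k2 c5663 c19103 k0)))) (by decide +kernel)
def c20323 : PP 9 3 T 0x10000000000000000000040008000100000400000000000540000000000000000045400115000005004000000000020011000000 := rS 0x330b81c7a7e4ab1d93b0f064de2350d8c47e65 (k8 c18353 c404 c5476 c5475 c5324 c5323 c17932 c5215 (k8 c5209 c10171 c5535 c5446 c3610 c2765 c677 c1308 (k2 c20297 c3577 k0))) (by decide +kernel)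
def c20324 : PP 9 3 T 0x4000000000000060000010000000000000000100040008000100000000040000000140140000000200010001000005000040000004800000020000000008 := rS 0x1930481d92953b8d8809ff1b89266140a36267d47e80c6014c95c3aaf788fc329734b14ca59 (k8 c18352 c18353 c18348 c18347 c1334 c20299 c404 c5323 (k8 c1243 c263 c9757 c5530 c20261 c19421 c5212 c5568 (k8 c5566 c5382 c5381 c5380 c19915 c262 c20323 c5466 (k8 c1607 c18209 c2347 c10131 c2182 c10123 c1734 c1510 (k2 c18033 c5643 k0))))) (by decide +kernel)
def c20325 : PP 9 3 T 0x8000100000000000000000000000000000000000140000002000000000000000000000001000809 := rS 0x950b8cd26c9d8020c39331bc46a1b18874b265 (k8 c18353 c18352 c263 c5476 c5475 c5324 c5323 c19421 (k8 c5441 c1577 c2308 c5209 c10171 c262 c271 c1507 (k2 c5446 c3577 k0))) (by decide +kernel)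
def c20326 : PP 9 3 T 0x60000010000000000000000100000008000000000000000000000000000000000000000000000000000000000000000000001000000008 := rS 0x3c4773d1e5a6df94a5d61f333b848cb450abdfc911403c142702a051a133ee80c6014cacde3ef8192e961e24bd432d562a2cea89 (k8 c18356 c18354 c18350 c18348 c20321 c20299 c5477 c20316 (k8 c20313 c5517 c2591 c7820 c20284 c5323 c5532 c5530 (k8 c20261 c19421 c5212 c5566 c5564 c5381 c5380 c54 (k8 c267 c1112 c9739 c5651 c695 c20279 c1243 c4052 (k8 c1311 c1312 c3012 c13507 c5548 c2573 c1334 c20322 (k4 c6120 c2942 c20325 c20324 (k2 c3821 c15912 (k1 c17987 k0)))))))) (by decide +kernel)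
def c20327 : PP 9 3 T 0x60000010000000000000000100000008000000000000000000000000000000000000000000000000000000000000000000001000000000 := rS 0x6bf7c7c4167328ad934bbf5a6b071c7253f20e19c220e5a91c4c041480daa4ba587893efd044402b322a2cb25d (k8 c17796 c18352 c18350 c5326 c5532 c20261 c9730 c5212 (k8 c20284 c20316 c20313 c5517 c2591 c20321 c20326 c9694 (k8 c5642 c5651 c16855 c9106 c6008 c720 c17220 c19353 (k8 c5660 c19585 c12681 c5549 c352 c4466 c1335 c1334 (k8 c20312 c10195 c17886 c20314 c12628 c20310 c5453 c1769 (k1 c14449 k0)))))) (by decide +kernel)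
def c20328 : PP 9 3 T 0x60000000000000000000000100000008000000000000000000000000000000000000000000000000000000000000000000001000000004 := rS 0x1027e470904b5799c220b2389808298984f4001109b5664507836979ccc22cb25d (k8 c17796 c18352 c18350 c18346 c20327 c18477 c5522 c5369 (k8 c5326 c5532 c5529 c5528 c20261 c5212 c5564 c5382 (k8 c9694 c5642 c5651 c16855 c717 c720 c17220 c2986 (k4 c353 c18049 c12681 c10683 (k2 c514 c2632 k0))))) (by decide +kernel)
def c20329 : PP 9 3 T 0x44000000000000000000000100040008000000000000002000000000000000000440000001004000000000000005400000000000000000 := rS 0x160b556fbfe4fed022d0a83 (k8 c18355 c18349 c18350 c5212 c13510 c5660 c5586 c2892 (k2 c5548 c5683 (k1 c1335 k0))) (by decide +kernel)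
def c20330 : PP 9 3 T 0x1000000000000044000020000000000000000000000008000000000400040000000000000000000044000000000000000000000008000000000010000000 := rS 0xadf7c71ecb105bcdea0f (k8 c5369 c5477 c5325 c2588 c12081 c20053 c564 c5504 (k2 c2028 c5683 k0)) (by decide +kernel)
def c20331 : PP 9 3 T 0x60000000000000000000000100000008000000000000002000000000000000000000000000000000000000000000000000001000000000 := rS 0x160b556fbc8cfe25c0e26ab59a1d23b3f6d2c3a1f35e7092238aabc50270104f40f145a150659 (k8 c18352 c18355 c18349 c18350 c5323 c5212 c5564 c20328 (k8 c267 c5651 c1243 c5414 c5409 c10038 c20327 c5523 (k8 c1111 c263 c18477 c18382 c18383 c5374 c5373 c5532 (k8 c5413 c5382 c2632 c20330 c13510 c20329 c5586 c2892 (k2 c2345 c5683 (k1 c1335 k0)))))) (by decide +kernel)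
def c20332 : PP 9 3 T 0x60000000000000000000000100000008000000000000000000000000000000000000000000000000000000000000000000001000000000 := rS 0x12dff03333d9faaf248a03e270e80a97edd99ad2287ce2362613d008d571554acde2f30dbd51685419a4ca59 (k8 c18352 c18353 c18347 c18355 c18349 c18350 c5477 c5475 (k8 c5325 c5323 c5532 c5531 c5414 c5413 c5409 c5212 (k8 c5564 c5382 c5381 c20327 c5373 c5374 c5523 c18383 (k8 c18382 c18477 c20328 c263 c267 c1111 c5651 c10038 (k8 c1243 c20331 c17991 c17965 c2196 c13507 c20330 c13510 k0))))) (by decide +kernel)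
def c20333 : PP 9 3 T 0x20000010040000000000000100040000000000000000000000000000000400001000000000000000000000000004004000000000000020 := rS 0x417115a520e (k4 c6008 c19585 c10195 c17886 (k2 c12628 c18209 k0)) (by decide +kernel)
def c20334 : PP 9 3 T 0x60000010000000000000000100040000000000000000000000000000100400001000000000000000010000000004004000000000000020 := rS 0x3c7b13be49028d3ee82520e62a2cea89 (k8 c18356 c18354 c18350 c18348 c6008 c19585 c5212 c5566 (k4 c5381 c5380 c20333 c5356 (k2 c12830 c17987 (k1 c5226 k0)))) (by decide +kernel)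
def c20335 : PP 9 3 T 0x40000000000000000000000100000000000100000000000000000000000000000000000000000000000000000000008000002000000000 := rS 0x6c141e3 (k4 c5576 c2909 c5226 c5398 k0) (by decide +kernel)
def c20336 : PP 9 3 T 0x40000000000000000000000100000000000000000000000000000000000800000080000000000000000000040000004011000000008020 := rS 0x1922b8cc0e406b78c132962964ea5d (k8 c17796 c18354 c18352 c18348 c19585 c16665 c5464 c1247 (k4 c20310 c6060 c2186 c12628 (k2 c5643 c10897 k0))) (by decide +kernel)
def c20337 : PP 9 3 T 0x60000000000000000000000100040008000000000000000000000000000000000080000000000000000000000004000000000000000000 := rS 0x12ec94a9814207f177f62772bb5324cb1fca41d9d352442271d99ce268f598d4b63124810066fd00056a2462964ea8b (k8 c18350 c18354 c18352 c18348 c20332 c1095 c20261 c5212 (k8 c5565 c1113 c5642 c10629 c5476 c5474 c5324 c5532 (k8 c5568 c5382 c19419 c5406 c2988 c719 c19449 c18007 (k8 c5523 c6008 c19585 c20335 c20336 c20333 c20334 c5353 (k8 c5356 c12830 c5454 c5226 c10972 c5578 c12727 c17962 (k2 c1182 c1639 (k1 c5678 k0))))))) (by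 decide +kernel)
def c20338 : PP 9 3 T 0x8000000000000000000200000000000000000100040008000000000000000000000000000000000000000000000000000000000001000000000000000420 := rS 0x7be701e107fc75ea59 (k8 c18352 c5477 c5504 c5586 c17287 c10107 c6008 c20280 (k1 c20053 k0)) (by decide +kernel)
def c20339 : PP 9 3 T 0x4000000000000060000000000000000000000000040000000000000000000000000000000000000150000000100000044000000000000000002000000020 := rS 0x7bf4e1b233834439845a24d265 (k8 c18353 c18347 c18356 c18350 c18346 c5528 c315 c5282 (k4 c5683 c3602 c5405 c6185 (k1 c10683 k0))) (by decide +kernel)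
def c20340 : PP 9 3 T 0x60000000000000000000000100040008000000000000000000000000000000000000000000000000000000000000000000000000000000 := rS 0x877b83c9501577bce68d8a96c92b10dab4860b368340803121bf400110a14ca83 (k8 c18355 c18353 c18349 c5528 c20261 c5212 c5565 c20332 (k8 c1113 c5642 c315 c5529 c717 c5478 c2758 c5475 (k8 c1092 c10629 c5474 c5414 c5381 c19419 c20338 c20339 (k4 c3070 c20337 c12627 c565 (k2 c8435 c12456 k0))))) (by decide +kernel)
def c20341 : PP 9 3 T 0x1000000000000004000210000000000000000000080000000000001000040004000000000000000080000000000000000000040000140000002000001401 := rS 0x3f921f325c70230138fbd1b1356810066f07a2cca5d (k8 c17796 c18353 c18350 c5329 c5565 c1113 c5642 c2758 (k8 c5382 c5381 c5584 c2988 c3070 c719 c12676 c9182 (k4 c16779 c17945 c13569 c3008 k0))) (by decide +kernel)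
def c20342 : PP 9 3 T 0x8000000000000040000000080000000000000100000008000000000000000040000000000000000000000000008000000000000000000000000000000020 := rS 0x34a7c65746b5d9e10d02258a59 (k8 c18352 c18348 c18356 c5212 c17287 c17612 c5507 c5381 (k4 c5353 c17781 c11562 c20266 (k1 c6060 k0))) (by decide +kernel)
def c20343 : PP 9 3 T 0x60000000000000000000000100000008000100000000000000000040000440000000000000000000000000000000000000000000000000 := rS 0x701ef60813ea7566b5719c02007c9fb95f03f6bd73a0b2dbcc8b155886d5a43d987d0c0d1083cdaf7a5010062437e80027544b150665429773059 (k8 c18352 c18346 c17796 c18349 c18353 c18355 c18348 c18356 (k8 c18354 c20261 c5212 c5565 c20332 c1113 c5642 c20340 (k8 c5333 c5529 c5329 c5528 c315 c12456 c5517 c7262 (k8 c5478 c2758 c5475 c1092 c5414 c5326 c5325 c5474 (k8 c717 c18477 c5477 c10910 c10690 c20341 c5683 c20342 (k8 c8467 c17287 c719 c5731 c1094 c5532 c5412 c5566 (k4 c5380 c17989 c17741 c6118 (k1 c10249 k0)))))))) (by decide +kernel)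
def c20344 : PP 9 3 T 0x48000000000000000000000000000000000000000000000000000000000000054000040014800000000000000000000000000000000000451002000000000 := rS 0x81e3 (k2 c5464 c1091 (k1 c20158 k0)) (by decide +kernel)
def c20345 : PP 9 3 T 0x60000000000000000000000100000008000000000000020000000000010000000000000000000000000000000000000000000000000000 := rS 0x1409ff0f8d99b11e8e4672865b1dbe35188ec6ed5f9c75fe4767b8ce010f72be0686f6bd41f9d06884166d2dbcc8b155886d5a43d9bdc3f4a0200cdfa000890b25dcc20cca85 (k8 c18349 c18353 c18355 c18346 c17796 c18352 c20332 c20261 (k8 c5212 c5565 c1113 c5642 c20340 c5517 c5333 c7262 (k8 c5478 c2758 c5475 c1092 c5414 c5326 c5325 c5474 (k8 c5529 c717 c5528 c315 c18477 c5329 c5477 c10910 (k8 c12456 c10690 c20341 c5683 c17287 c719 c5731 c17612 (k8 c5520 c5586 c5504 c17808 c5585 c5518 c5332 c5476 (k8 c5324 c2953 c799 c20344 c20343 c5316 c5317 c5436 (k4 c9578 c3587 c17803 c5537 (k2 c2756 c5680 (k1 c10309 k0)))))))))) (by decide +kernel)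
def c20346 : PP 9 3 T 0x48000000000000004000200000000000000000000000000000000000000000000000440020500000010000040000000000000040000000000000000000000 := rS 0x257bfb13b1fda681469f5abe1489d512c5 (k8 c18348 c18356 c18354 c9793 c5459 c5585 c5566 c5381 (k8 c5380 c2136 c10493 c17990 c8156 c17767 c9916 c5678 k0)) (by decide +kernel)
def c20347 : PP 9 3 T 0x24000000040000000000000000000000000000000000020000000080000100000010000040000000000000000000400400000040020020 := rS 0x128d815da43d11a744299 (k8 c5530 c5528 c5412 c5409 c2770 c2952 c773 c13297 (k2 c10195 c18438 k0)) (by decide +kernel)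
def c20348 : PP 9 3 T 0x60000000000000000000000100000008000000000000020000000000000000000000000000000000000000000000000000000000000000 := rS 0x387c6ca6fa5d92d04eaac76d7f9c75fe47719c02193f72be07ed7ae74165b799162ab10dab487b30fa181a21079b5ef4a0200c486fd00050665429773059 (k8 c18352 c18346 c17796 c18349 c18353 c18355 c20261 c5212 (k8 c5565 c20332 c1113 c5642 c20340 c5333 c5529 c5329 (k8 c5528 c315 c12456 c5517 c7262 c5478 c2758 c5475 (k8 c1092 c5414 c5326 c5325 c5474 c717 c18477 c5477 (k8 c10910 c10690 c20341 c5683 c20342 c17287 c719 c5731 (k8 c5520 c5586 c5504 c17808 c5507 c5332 c5413 c5412 (k8 c20345 c2133 c1708 c20347 c20346 c5464 c1718 c8355 k0))))))) (by decide +kernel)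
def c20349 : PP 9 3 T 0x40000000000000100000000000000000000000000000000000800000000000000000000000000000000000000014000020020 := rS 0x9495c2c3d (k4 c1490 c9148 c773 c5433 (k1 c10195 k0)) (by decide +kernel)
def c20350 : PP 9 3 T 0x60000000000000000000000100000008000100000000000000000000000000000000000000000000000000000000000000000000000000 := rS 0x682598cd36f8f08256d8204fa9d254048e4965e4c21ee57c0d0ded7a83f3a0d1082cda5b799162ab10dab487b37b87e9404019bf40011489c487544b14b25dcc20cca85 (k8 c18349 c18353 c18355 c18346 c17796 c18352 c18348 c18356 (k8 c18354 c20332 c60 c185 c20261 c5212 c5565 c1113 (k8 c5642 c20340 c5517 c5333 c7262 c5478 c2758 c5475 (k8 c1092 c5414 c5326 c5325 c5474 c5529 c717 c5528 (k8 c315 c18477 c5329 c5477 c10910 c12456 c10690 c20341 (k8 c5683 c17287 c20342 c20349 c10629 c5520 c20348 c17988 (k8 c5412 c5566 c5380 c17989 c10195 c12628 c773 c2511 (k4 c2768 c20343 c8156 c799 (k1 c1708 k0))))))))) (by decide +kernel)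
def c20351 : PP 9 3 T 0x60000000000000000000000100000008000000000000000000000000000000000000000000000000000000000000000000000000000000 := rS 0x943b28013e34ff7f623d19ca196c97e40726cf083fdab1df72be07ed436cd6b9d7b83c3f4a0682c08ad5880c5227123d4365b798d48a4337e8002ab8a884daa959e60b2752ea14ca83 (k8 c18355 c18353 c18349 c17796 c18354 c18352 c18346 c5532 (k8 c5531 c5529 c5528 c5414 c5413 c20261 c5212 c5565 (k8 c5478 c5326 c5324 c5325 c5474 c5475 c5477 c20332 (k8 c60 c185 c1113 c1092 c2758 c5642 c717 c315 (k8 c20340 c5517 c5329 c5333 c18477 c1094 c7262 c12456 (k8 c10910 c10690 c20341 c5683 c5504 c5585 c5586 c17287 (k8 c17612 c20342 c20348 c3623 c1181 c20349 c20350 c5316 (k8 c5436 c9578 c17189 c2756 c17803 c10902 c5680 c17897 (k2 c10048 c9916 k0))))))))) (by decide +kernel)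
def c20352 : PP 9 3 T 0x8004000000000061000000000000000000000000000000000000000000000050000400004400000000004000000000000000000008000145000020000000 := rS 0x781a0a04ec5606af79887e6df (k8 c2510 c5546 c5528 c333 c5584 c5508 c5414 c5412 (k4 c5680 c20226 c10309 c5459 k0)) (by decide +kernel)
def c20353 : PP 9 3 T 0x8000000000000060000000040000000000000100000000000200000000010000000000000400000000000000008000000000000000040000000000020020 := rS 0x18e5e68a5869df3b34d4241f137fe64a7996c381bd9bf1028d3e98c02ab8aaa5673b8eac5af0322abdaaff789259ee3383d5ee4747e816a0d1082cda1f1b8cc7231d8d2b3a0f4f8f55a2462a2cea89 (k8 c18356 c18354 c18350 c18348 c720 c2758 c5436 c2756 (k8 c10107 c5373 c6008 c9578 c5434 c5317 c5316 c5518 (k8 c5517 c5529 c717 c5528 c315 c5804 c5212 c5568 (k8 c5779 c5780 c1922 c719 c5731 c17612 c3027 c5811 (k8 c5586 c5585 c5584 c5582 c5508 c5507 c5506 c5504 (k8 c20351 c5532 c5531 c5414 c5413 c20261 c19421 c5566 (k8 c5381 c5380 c3623 c5405 c1075 c20237 c716 c333 (k8 c17988 c5546 c2510 c20352 c5462 c5578 c5579 c17987 (k4 c17979 c14662 c18937 c1705 (k2 c19758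 c799 (k1 c19431 k0))))))))))) (by decide +kernel)
def c20354 : PP 9 3 T 0x4000000000061000000000000000000000000080000000000000000020000000400000400000000004000000000024000004000000101004000004060 := rS 0x5a64f7da0d24837bc279639f8c0e15002557154c82cda0d108ec6ff3 (k8 c5592 c5518 c5332 c5528 c315 c5529 c717 c5530 (k8 c5414 c5413 c5813 c5680 c3060 c2930 c2929 c726 (k8 c1577 c18042 c5691 c5822 c9158 c2953 c5496 c2133 (k2 c9793 c19460 k0)))) (by decide +kernel)
def c20355 : PP 9 3 T 0x8000000000000060000000040000000000000100000000000200000000000000000000000400000000000000008000000000000000040000000000020020 := rS 0x4db87c0c7689ec68cdef9d9a6a120f8a0081469bcfba08eb5c8ad50389c02cf719c3dab506884166d1d95c663918ec6959d07a7c7a2462a2cea89 (k8 c18356 c18354 c18350 c18348 c720 c5436 c2756 c10107 (k8 c5373 c6008 c9578 c5434 c5317 c5316 c5313 c5332 (k8 c5529 c717 c5528 c315 c5804 c5499 c719 c5731 (k8 c17612 c20261 c2859 c8467 c5585 c5582 c5507 c5504 (k8 c5212 c5566 c5565 c5381 c5380 c20353 c20354 c5462 (k8 c5578 c5579 c17987 c17979 c2077 c14662 c890 c1704 (k4 c799 c5688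 c10249 c5536 (k1 c19797 k0)))))))) (by decide +kernel)
def c20356 : PP 9 3 T 0x8400000000020000000040000000000000000000000000000000000000000000400015000001000004000008014000000000000000000000000000000 := rS 0x26dc3e063e77daa1 (k8 c5578 c5499 c5373 c799 c5688 c10249 c5536 c19797 k0) (by decide +kernel)
def c20357 : PP 9 3 T 0x8000000000000060000000040000000000000100000000000200000000020000000000000400000000000000008000000000000000000000000000020020 := rS 0xbe614bf85a07b66f7cedb3699ffc481469bcfba031a75aa07138059ee3382d41a21059b4ae3918ec6959d07a7c7a243ab151689 (k8 c18356 c18350 c18348 c18354 c720 c5436 c2756 c10107 (k8 c5373 c6008 c9578 c5434 c5317 c5313 c5529 c717 (k8 c5528 c315 c5804 c719 c5731 c17612 c20261 c2859 (k8 c8467 c5585 c5412 c19421 c5212 c5566 c5565 c5381 (k8 c5380 c20354 c5577 c5579 c19443 c17987 c17767 c2077 (k4 c890 c20356 c5459 c1708 (k2 c10425 c17795 (k1 c5663 k0)))))))) (by decide +kernel)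
def c20358 : PP 9 3 T 0x400000000025000000040000000000000000000000000000000000000000000000020000000000000000000000800004000000000000000000000000 := rS 0xbe614bb253aab (k4 c5413 c5412 c2133 c1708 (k2 c725 c17795 (k1 c5663 k0))) (by decide +kernel)
def c20359 : PP 9 3 T 0x8008000000000061000000040000000000000100000000000200000000010000000400000400001000004000008000000000000000400400000000000020 := rS 0x56321fa602fb1da3f3ef9db66df69a84fe4140a34fba031805571554acd630357b55ff9d3ab151689 (k8 c18356 c18350 c18348 c18354 c5373 c5586 c5585 c5584 (k8 c5508 c5506 c5532 c5531 c5414 c5413 c20261 c19421 (k8 c5212 c5566 c5381 c5380 c5462 c5577 c5578 c5579 (k8 c5580 c19443 c17987 c17767 c19019 c20358 c799 c19431 (k4 c5663 c17746 c725 c3623 (k1 c2067 k0)))))) (by decide +kernel)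
def c20360 : PP 9 3 T 0x9001400000000025000010040000000000000000000000000000000000010000000000010000001000004040000000000004000000000000000000000000 := rS 0xad7eb2198ab8aa6552b358c0d5eff (k8 c5586 c5584 c5508 c5506 c5532 c5531 c5530 c5414 (k4 c5413 c20272 c18871 c2505 (k2 c2068 c3623 k0))) (by decide +kernel)
def c20361 : PP 9 3 T 0x9001000000000065000010040000000000000000000004000200000000010050000000010000001000024000000000000004000004080400000040000020 := rS 0x1f81d56bc9a7de10aa5fef11480d2eaf (k8 c5584 c1233 c54 c9694 c5811 c5586 c5531 c5528 (k4 c20360 c5496 c17847 c2931 (k2 c333 c16936 (k1 c20237 k0)))) (by decide +kernel)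
def c20362 : PP 9 3 T 0x8000000000000060000000040000000000000100000000000200000000000000000000000400000000000000008000000000000000000000000000020020 := rS 0x1f81a56969a6d025ecfc27963981c2a004f8e02424fec47a392ba04de638aa65533b6babdfe290181c4e01719c3daf57b91d1fa05a8901a21059b4761f1bd2b3a0f (k8 c10107 c5373 c6008 c5518 c5517 c5332 c5529 c717 (k8 c5528 c315 c720 c5804 c5212 c5568 c5779 c5780 (k8 c1922 c5499 c719 c5731 c20261 c2859 c8467 c54 (k8 c9694 c5586 c5584 c5507 c20351 c5531 c5530 c5414 (k8 c19421 c5565 c5380 c5313 c5317 c5436 c9578 c2756 (k8 c20355 c20357 c20359 c5813 c5680 c3060 c2930 c726 (k8 c1577 c18042 c15639 c15375 c20361 c2135 c19548 c2931 (k2 c716 c16936 (k1 c1075 k0))))))))) (by decide +kernel)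
def c20363 : PP 9 3 T 0x8000000000000060000000040000000000000100000000000000000000000000000000000400000000000000008000000000000000000000000000020020 := rS 0xac0d25cb476680cda6c6f0b81becd1e1f86a7b2b6c252b523bdfdb9d409f51fa04ec55673b58b5d5ed5059b41a210383c4e0167b8ce0242e9d512c5 (k8 c18348 c18356 c18354 c17796 c720 c719 c5731 c17612 (k8 c20261 c2859 c10107 c8467 c5528 c315 c5529 c717 (k8 c5585 c5584 c5507 c5506 c20351 c5532 c5414 c5412 (k8 c5212 c5568 c5566 c5380 c5373 c5499 c5780 c5779 (k8 c5804 c20362 c17989 c10195 c17741 c435 c772 c773 (k8 c2074 c2770 c6118 c5460 c3059 c3063 c12046 c799 (k4 c798 c9300 c1708 c716 (k2 c9617 c1909 k0)))))))) (by decide +kernel)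
def c20364 : PP 9 3 T 0x8000000000000000000200000000000000000100000004000000000000000000000000020000000000000000004000000000008000000000000000020000 := rS 0x1bff370c0122f52d8f0fc3b8eb5c8afff19dd027d6aa350a8345a24eac5 (k8 c18348 c18354 c18356 c18350 c18355 c18349 c5381 c5585 (k8 c5566 c5380 c2131 c17987 c5586 c5582 c5507 c5504 (k8 c10737 c772 c773 c768 c1926 c9793 c15061 c3058 (k2 c5592 c4815 (k1 c8355 k0))))) (by decide +kernel)
def c20365 : PP 9 3 T 0x8000000000000060000000040000000000000100000000000000000000000000000000020400000000000000000000000000000000000000000000020020 := rS 0x7e0695a5a698d413015007c76b54fec6959d1e8c42e399415fc67740a34de7dd008d3aab8aa6552b39dac606af6abfc166d068840e0f13805c6701221f30593ab151689 (k8 c18356 c18350 c18348 c18354 c18352 c18346 c20363 c720 (k8 c719 c5731 c20261 c2859 c10107 c8467 c5528 c315 (k8 c5529 c717 c5586 c5585 c5584 c5508 c5506 c20351 (k8 c5532 c5531 c5530 c5414 c5413 c5412 c5409 c5212 (k8 c5566 c5565 c5381 c5380 c2131 c17987 c20364 c10195 (k8 c5317 c5433 c5434 c5436 c19356 c6008 c17923 c2756 (k8 c5804 c5332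 c5517 c5680 c20354 c5813 c1704 c2135 (k4 c17897 c2931 c716 c3623 (k1 c1075 k0))))))))) (by decide +kernel)
def c20366 : PP 9 3 T 0x61000010040000000000000000000000000000000000020000000400104400001000004000104110024000004000000101004000004020 := rS 0x136e1f031cf6cd3b34d43e2f681e948562a2cea89 (k8 c18356 c18354 c18350 c18348 c18349 c6008 c8467 c5502 (k8 c20354 c5578 c5579 c17987 c2077 c889 c14679 c10798 (k2 c10249 c5536 (k1 c19797 k0)))) (by decide +kernel)
def c20367 : PP 9 3 T 0x8000000000061000010040000000000000000000000000000000000000000000040000400000000004002000014000004004000000140000000020020 := rS 0x7830024bec7509fd3207719c16a2406884166d1dd281ff3 (k8 c5589 c10107 c6008 c5332 c5529 c717 c5528 c315 (k8 c720 c5804 c719 c5731 c8467 c5530 c5577 c5578 (k4 c800 c19431 c312 c5663 (k2 c3568 c1577 k0)))) (by decide +kernel)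
def c20368 : PP 9 3 T 0x8000000000000060000200040000000000000000000000000200000000000000000000000400000000000000004000800004000000000000004000020020 := rS 0x3cb1fc06070a8013e36f9ee2a996bbfc0e37f9a4203b1a52d41a21059b53e3dce8c4725771890e0cf07b54fa6f40a351f1342a2d0689 (k8 c18356 c18355 c18350 c18349 c5382 c5568 c5381 c5380 (k8 c5565 c5566 c5585 c10107 c17612 c719 c720 c5731 (k8 c5313 c5317 c5434 c19356 c5436 c2756 c5529 c717 (k8 c5528 c315 c5804 c6008 c9578 c20366 c18000 c5589 (k8 c5435 c8467 c5586 c5507 c5530 c5414 c889 c14418 (k8 c20367 c5813 c5680 c3060 c2930 c10309 c9140 c1577 (k1 c18042 k0))))))) (by decide +kernel)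
def c20369 : PP 9 3 T 0x8001000000000025000000040000000000000000000004000200000000012051000000010000001000004040000000000004000000000400000040000000 := rS 0x1e7de0e7b4439d (k4 c19356 c5528 c5542 c20237 (k2 c20360 c333 (k1 c17847 k0))) (by decide +kernel)
def c20370 : PP 9 3 T 0x8000000000000060000200040000000000000000000004000200000000000000000000010400000000000000004000000004000000000000004000020020 := rS 0x3346af36487158fdd9f84f2973038541e33bc0762f50f8ed6af7a527f3a3d1b8c472332ba051a6f3eaae2a9954acd62d781abdaaff7882cda0d1083d9ee338093307542b151689 (k8 c18356 c18350 c18348 c18349 c18354 c18346 c720 c719 (k8 c5731 c17612 c10107 c5528 c315 c5529 c717 c5811 (k8 c5586 c5585 c5584 c5508 c5507 c5506 c5532 c5531 (k8 c5530 c5414 c5413 c5566 c5565 c5381 c5380 c5313 (k8 c5316 c5317 c5434 c5435 c5436 c19356 c2756 c6008 (k8 c5780 c5804 c5332 c5517 c5519 c9578 c20366 c20368 (k8 c17987 c5680 c3060 c2930 c1233 c1577 c17952 c15639 (k8 c20369 c3623 c2759 c2068 c333 c332 c13053 c3587 k0)))))))) (by decide +kernel)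
def c20371 : PP 9 3 T 0x8000000000000022000000000000000000000000000004000000000400010000000000000400000000000000504080000000040000002000000000020021 := rS 0x333f435b335875a6c6793803eb57bb7e94f5cea413b154cacd62d76abc41a2107924166d719c0489f50a6f30852ca0cba89 (k8 c18356 c17796 c18355 c18352 c18349 c18346 c5397 c5398 (k8 c5448 c720 c719 c5731 c5529 c717 c3027 c10107 (k8 c5528 c315 c5811 c5585 c5507 c5506 c5532 c5530 (k8 c5414 c5412 c18000 c5374 c10333 c13505 c4813 c5780 (k8 c5804 c5517 c3620 c3571 c3059 c3062 c333 c2482 (k4 c17820 c5649 c20237 c17838 (k1 c1902 k0))))))) (by decide +kernel)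
def c20372 : PP 9 3 T 0x1000000000000022000010000000000000000000000004000000000000000010000040010400000000000000004000000000040000000010000000020020 := rS 0xef3f7c2cd0eb81e41f5abde949d8aacde20b36834420f67b8ce02442965065d (k8 c17796 c18355 c18352 c18349 c720 c719 c5731 c17612 (k8 c10107 c5528 c315 c5529 c717 c5811 c5532 c5414 (k8 c5412 c6008 c5780 c5804 c5517 c3571 c6118 c333 (k4 c2501 c5460 c20237 c5688 (k1 c13565 k0))))) (by decide +kernel)
def c20373 : PP 9 3 T 0x8000000000000022000000000000000000000000000004000000000400000000000000010400000000000000504000400000008000000000000000020021 := rS 0xf01e5239c6fbd7dbf38016c920b36b3dc670120d4fc3ccc1d50a5d (k8 c17796 c18349 c18354 c18346 c773 c772 c435 c720 (k8 c719 c5731 c17612 c5529 c717 c3027 c768 c20371 (k8 c5592 c5502 c1928 c4815 c20372 c5374 c5524 c10493 (k1 c17952 k0)))) (by decide +kernel)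
def c20374 : PP 9 3 T 0x400000000000000000000000000000000100000004000100100000020000000000504400002140014010000000000000000001004010012101000000 := rS 0x12e3056868661d7952dee1e23fcfdaf5 (k8 c1928 c5502 c5592 c2346 c1094 c8188 c5517 c5657 (k4 c333 c388 c2533 c2759 (k2 c5653 c1074 (k1 c8160 k0)))) (by decide +kernel)
def c20375 : PP 9 3 T 0x22000000000000000000000100000004000100100000020000000000510400000140000000004000800000008000004000000001020020 := rS 0x2d0c73acc48785c0b56fbd7da9d8a885662901924166d67b8ce0244fa852a353f0f3be5d (k8 c17796 c5493 c773 c772 c435 c5446 c5398 c5448 (k8 c720 c719 c5731 c17612 c5529 c717 c3027 c54 (k8 c9694 c5532 c5528 c5414 c5412 c5502 c1928 c4815 (k8 c20374 c6118 c5460 c3058 c10798 c5374 c1916 c20372 (k1 c769 k0))))) (by decide +kernel)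
def c20376 : PP 9 3 T 0x8000000000000060000000040000000000000100000000000000000000000000000000000400000000000000000000000000000000000000000000020020 := rS 0x15a304b868b5013b0f0fc9550a7cadb094b450e3f13a051b133ea3f406300cee3ab16babc32d5039d512c5 (k8 c18348 c18356 c18354 c8467 c5585 c20299 c5584 c5507 (k8 c5506 c5504 c20351 c20261 c19421 c5212 c5568 c5566 (k8 c5382 c5381 c5380 c2859 c2908 c20363 c20365 c20370 (k8 c17989 c10195 c5448 c5398 c5446 c772 c773 c20373 (k4 c20375 c20371 c716 c8194 (k2 c769 c1909 (k1 c8160 k0))))))) (by decide +kernel)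
def c20377 : PP 9 3 T 0x62000000040000000000000100000000000100000000000000000040000400000000000002000004000000000000010000002000011000 := rS 0x7be33f319c0e35a8dc3f4a078fcfba04ec55679d (k8 c5374 c5532 c5414 c5412 c5212 c5566 c20335 c17680 (k8 c13457 c5517 c5518 c1094 c18213 c6118 c10249 c800 (k2 c5577 c2764 (k1 c5655 k0)))) (by decide +kernel)
def c20378 : PP 9 3 T 0x10040000000000000000000000000000000000000000000000000040000000000000000004000000000000000200000000001000 := rS 0xf3e1 (k2 c5534 c2381 (k1 c5669 k0)) (by decide +kernel)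
def c20379 : PP 9 3 T 0x8000000000000000000200000000000000000000040000000000000000010000000000000000000000000000004000000000000004000000000000010020 := rS 0x1681c4309c748b9df991d208d47c4d1659449750685 (k8 c18349 c18355 c17796 c18356 c18352 c18350 c5382 c5568 (k8 c5381 c18000 c2784 c5589 c5374 c5582 c5504 c5564 (k4 c10155 c6008 c12615 c872 k0))) (by decide +kernel)
def c20380 : PP 9 3 T 0x20000010040000000000000000000000000100000000000000000000011100000000000000000000000000080000000040000041000021 := rS 0x67bf460970d444c6ab36aa40e56 (k8 c10195 c8467 c5531 c5529 c5413 c19421 c9730 c716 (k4 c8194 c769 c1075 c1473 (k1 c9860 k0))) (by decide +kernel)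
def c20381 : PP 9 3 T 0x1000000000000046000000000000000000000100040004000100001000000010000100000000000400001000000000800000040000010010000000000020 := rS 0x1c6cb5a8fc96247b071e61b193c5928d09e823bee1cb7fc1df (k8 c5493 c5165 c5538 c5534 c5229 c5504 c5212 c5564 (k8 c5381 c5396 c5811 c9300 c2043 c387 c5649 c5657 (k4 c18526 c564 c20335 c1095 (k2 c1091 c18209 (k1 c6118 k0))))) (by decide +kernel)
def c20382 : PP 9 3 T 0x62000020000000000000000100040000000000000000000000000100000000000000000000004000800000008000000000000000000020 := rS 0xca120fc4e4a569248ef27b8c12e1a2d3d59a39807cdaaaf22ac7c1ee05fb7673b59aa4da218aaad3a6314864069147ca5269f50a6d2a99208d627df6ba3740d144a15065d (k8 c17796 c18355 c18349 c18356 c2131 c5212 c5381 c2187 (k8 c5493 c5382 c435 c12628 c5447 c5446 c5397 c5398 (k8 c5448 c5444 c19356 c5526 c5374 c54 c9701 c9694 (k8 c9754 c5412 c5413 c5414 c5528 c5529 c5531 c5532 (k8 c20351 c18383 c18382 c717 c5229 c5165 c5506 c5582 (k8 c5584 c5585 c18955 c18000 c5534 c5537 c18094 c20381 (k8 c716 c8194 c769 c2102 c5657 c2791 c450 c18389 (k4 c5660 c353 c407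 c5651 (k2 c8160 c1091 k0))))))))) (by decide +kernel)
def c20383 : PP 9 3 T 0x1000000000000010000000000000000000000000040000000000000000000000000000000000000000000000000000000000080000000000000000000020 := rS 0x6c8cd3b (k4 c5474 c715 c5228 c5487 k0) (by decide +kernel)
def c20384 : PP 9 3 T 0x5000400000000000000220000000000000000100040004000000000000000000000000000000000000000000000000000000000000000000000000000000 := rS 0x1e2f0244f329 (k4 c19356 c5524 c5374 c5165 (k2 c5166 c17754 k0)) (by decide +kernel)
def c20385 : PP 9 3 T 0x80002400000000000000220000000000000000000000000000000000000008000000000400000000000000000000100000000000000000000000000000000 := rS 0x355a67ef1b7d8e913c9f7de8b (k8 c18350 c18955 c5566 c5524 c5374 c5535 c5538 c17754 (k4 c17861 c2942 c2998 c5689 k0)) (by decide +kernel)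
def c20386 : PP 9 3 T 0x5005000000000000000200000000000000000000000008000000000000008000000000110000000000000000000000800000000000010000000000000020 := rS 0x231d673499a8defa2cb25d (k8 c17796 c18352 c18350 c5493 c5381 c2507 c10131 c5688 (k2 c2082 c17612 (k1 c12681 k0))) (by decide +kernel)
def c20387 : PP 9 3 T 0x4000000000042000020000000000000000100040000000000000000000000000100000000000000000000004000800000008000000000000000000020 := rS 0x6facd3acd0f3d9560b576cce2b113891971c1e0455a3f3fb50e6011480c1e0d94a7c823b37b456ae38a91436f59d7bfdbe17f406069147c4fe5b56ba37bfa0409650b9844a2cba83 (k8 c18355 c17796 c18350 c18356 c18346 c18349 c18352 c12626 (k8 c5212 c5493 c5381 c2187 c20382 c5231 c5382 c5526 (k8 c5374 c5550 c5592 c3613 c20385 c17809 c18955 c20384 (k8 c5477 c5475 c5326 c5590 c5549 c5548 c2131 c5565 (k8 c10737 c12628 c5448 c19356 c5522 c5369 c54 c9694 (k8 c53 c9719 c20386 c2998 c2996 c2890 c772 c5655 (k8 c12681 c1490 c12427 c2860 c1092 c2754 c17895 c5683 (k8 c18536 c1286 c20053 c13322 c7800 c1083 c2322 c3003 (k1 c6118 k0))))))))) (by decide +kernel)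
def c20388 : PP 9 3 T 0x42000020000000000000000100040000000000000000000000000100000000000000000000004000800000008000000000000000000020 := rS 0xcd6337fc4fef6c0607f2daa451e8146c4cfba042a25068b (k8 c18350 c18355 c18356 c18349 c5212 c5566 c5382 c5381 (k8 c12626 c5526 c5374 c20382 c5231 c5550 c5592 c17809 (k4 c3613 c20387 c5580 c17854 (k2 c2506 c14679 k0)))) (by decide +kernel)
def c20389 : PP 9 3 T 0x40000020000000000000000100040000000000000000080000000000000000000000000000000000000000000000000000000000000000 := rS 0x1ed9ded3e7a0 (k4 c5212 c5550 c5231 c20351 (k2 c18382 c10772 k0)) (by decide +kernel)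
def c20390 : PP 9 3 T 0x1000400000000000000000000000000000000000040004000100000400000010000140500040000000000001500155400000000000090110000000055400 := rS 0x62331fbc894f723b89a44962a24ea8b (k8 c18350 c18354 c18356 c18348 c3033 c3608 c3610 c2348 (k4 c2108 c12614 c5657 c407 (k2 c387 c1919 (k1 c5653 k0)))) (by decide +kernel)
def c20391 : PP 9 3 T 0x40000020000000000000000100040000000000000000020000000100000100000000000514000100400000040000010010000000000020 := rS 0x4b238f87a7e2490822f5ef915af1d670e5a3ee05f818f3b549b5569df1b7f68cd6afb7e603079ed220d3ca3e528d8984cfba045965125d41b150a75 (k8 c18354 c18349 c18348 c18355 c17796 c18356 c18352 c18350 (k8 c5212 c5566 c5564 c5382 c5381 c19356 c5526 c5524 (k8 c5522 c5374 c5372 c5369 c54 c5592 c5502 c3072 (k8 c2078 c5231 c6120 c17987 c5412 c5413 c5529 c5531 (k8 c20351 c9140 c5168 c717 c5724 c5459 c5534 c17944 (k8 c5504 c5507 c5582 c19313 c18094 c17612 c12615 c3033 (k4 c20390 c2764 c5655 c4873 (k2 c407 c12614 k0)))))))) (by decide +kernel)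
def c20392 : PP 9 3 T 0x4000000000000060000020000000000000000100000000000000000000000000000000000000000000000000000000000000000000000000000000000000 := rS 0x3673b (k2 c20351 c18383 (k1 c5229 k0)) (by decide +kernel)
def c20393 : PP 9 3 T 0x80004000000000000000220000000000000000100000000000000000000000000000040000000000000000000000000000000008000001000000000000400 := rS 0x461f0465241 (k4 c12628 c19356 c773 c5655 (k2 c17818 c2913 k0)) (by decide +kernel)
def c20394 : PP 9 3 T 0x800000000052000020000000000000000000040004000000001000000000000540000000001051000000000000000000040000002400000010000020 := rS 0x59a743cf38e09d962901a7d4295 (k8 c5446 c5398 c5448 c54 c9694 c1490 c2860 c18043 (k4 c17702 c18950 c1083 c2322 (k1 c6118 k0))) (by decide +kernel)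
def c20395 : PP 9 3 T 0x4800000000052000020000000000000000100040004000000000000008000000140000000000010000000000000000000048000000000000000000020 := rS 0x111e6478e8287c3d94904768dd02d5c715f92a55e1dd97b46685 (k8 c18349 c5492 c5544 c5228 c5486 c5406 c10768 c5231 (k8 c5590 c5549 c5548 c5212 c5381 c10737 c12628 c19356 (k8 c20394 c5655 c20393 c405 c2913 c2530 c11059 c18619 k0))) (by decide +kernel)
def c20396 : PP 9 3 T 0x400580000000004a000020000000000000000100040004000000100000000000000000000000000000000000000000000000000000010400000000000020 := rS 0x6e3955bdc3c441090c4a3e1e88c520394a7d429b4ae8093f2daab55ed3 (k8 c5496 c5406 c9614 c20392 c5231 c5588 c5212 c5446 (k8 c5397 c5398 c5448 c19356 c54 c9694 c9734 c18043 (k8 c5655 c2909 c2911 c18486 c5658 c5650 c503 c1085 (k2 c2472 c16753 (k1 c5654 k0))))) (by decide +kernel)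
def c20397 : PP 9 3 T 0x4000000000000042000020000000000000000100040004000000000000008000000100000000000000000000000000400000008000000000000000000020 := rS 0xe4781e1fbce38def1f859a336ab3c3aadef6c953294da04823b469f7405bf6ed58a8b3aa250685 (k8 c18349 c18355 c18356 c18354 c18350 c18348 c20392 c5544 (k8 c768 c5212 c5566 c5381 c10737 c12628 c12626 c5397 (k8 c19356 c10768 c5228 c20384 c9614 c5486 c5453 c5454 (k8 c5492 c5495 c17944 c17987 c20395 c20396 c17702 c405 (k4 c18950 c5655 c2472 c2771 k0))))) (by decide +kernel)
def c20398 : PP 9 3 T 0x4800000000040000000000000000000000100000000000100200000000000000000000000000000014010000000000000000000010001000004000020 := rS 0x388415c7e58b5c48cb1e0fd5a2901a3740d519b4d1675 (k8 c18354 c18350 c5496 c5492 c5454 c5212 c5381 c54 (k8 c9694 c2029 c405 c5655 c1490 c12427 c1491 c1092 (k4 c17880 c18008 c2764 c2988 (k1 c719 k0)))) (by decide +kernel)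
def c20399 : PP 9 3 T 0x4800000000040000000000000000000000100000008000100000000008000000000000000000000014010000000000000008000000000000000000020 := rS 0x57ab47870120423a2901907401b18a2cb25d (k8 c17796 c18352 c18350 c5476 c5475 c5212 c12628 c54 (k8 c9694 c20398 c12681 c720 c719 c773 c4804 c2988 (k1 c18043 k0))) (by decide +kernel)
def c20400 : PP 9 3 T 0x4000000000000000000200040000000000000100000008000100100000008000000000000000000000000000000000000000000000000000000000000020 := rS 0x1aa976babda6ad589f9963f3833c482708004520303a7d42c94aec082560da2cb25d (k8 c17796 c18352 c18350 c5475 c10195 c12628 c5209 c5446 (k8 c5396 c5398 c5448 c8467 c54 c9694 c53 c12681 (k8 c2859 c720 c17612 c719 c2908 c20349 c772 c18405 (k4 c4804 c2943 c2988 c18221 (k2 c19608 c2998 (k1 c3618 k0)))))) (by decide +kernel)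
def c20401 : PP 9 3 T 0x4004000000000042000020000000000000000100040000000000000000000004000100000000000051000000000000000000040000010400002000000020 := rS 0xde1cacd3a1e1e075963f13ca536b571c57e5b5 (k8 c20392 c5231 c5590 c5549 c5548 c5397 c19356 c60 (k8 c20335 c1091 c5283 c5655 c18950 c1083 c2322 c2472 (k2 c6118 c2771 k0))) (by decide +kernel)
def c20402 : PP 9 3 T 0x1000000000000050000020000000000000000100040008000000200000000000000000000000000000000000000000000000000000000000001000000020 := rS 0x7eecc3cb00e0844c01118a407a05afc836f5 (k8 c5477 c5475 c5231 c5548 c5212 c54 c9694 c9734 (k8 c53 c5651 c18486 c19353 c352 c5650 c5486 c1335 (k1 c19192 k0))) (by decide +kernel)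
def c20403 : PP 9 3 T 0x4004000000000052000000000000000000000100040008000100000000008000000100040000000010000000004000400000008000000000002000005020 := rS 0x59a75be1e1caac16aed99c422d13fb51ae3cef9cc029f50a54768d37e80b7ed5ab8e2bf2798c5ea271fb2c82b10d9650a832ee61128b (k8 c18350 c18356 c18346 c17796 c18355 c18349 c18352 c5475 (k8 c1092 c12628 c1091 c20335 c60 c5477 c5476 c5325 (k8 c5231 c5590 c5549 c5548 c5544 c768 c5212 c5565 (k8 c5381 c10737 c5446 c5398 c5448 c53 c9719 c20399 (k8 c5655 c1491 c5689 c2998 c1710 c772 c2754 c17895 (k8 c5683 c18536 c1286 c11029 c13322 c2771 c1083 c2322 (k1 c6118 k0))))))) (by decide +kernel)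
def c20404 : PP 9 3 T 0x40000020040000000000000100040000000000000000000000000100000000000000000000004000000000000000000000000000000020 := rS 0x3459ecdefb518cdf3fb5fc42469ab6393adafb5fdef80c0cb6773ec4d1ba01480c1e9106a3d26c94da5533b0409046a5694a14ea8b62a25065d (k8 c17796 c18355 c18356 c18348 c18350 c18354 c18349 c19356 (k8 c10195 c435 c12628 c12626 c5209 c5447 c5446 c5397 (k8 c5396 c5444 c5526 c5522 c5374 c5369 c54 c9694 (k8 c5212 c5381 c5382 c5566 c20388 c768 c20389 c20391 (k8 c18000 c3613 c5544 c20392 c20397 c20400 c2029 c2082 (k8 c20402 c20403 c5465 c5577 c5580 c17854 c17987 c17880 (k4 c2506 c2560 c1710 c18861 k0))))))) (by decide +kernel)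
def c20405 : PP 9 3 T 0x8000000000002000100000000000000000200000000000000000400000000000100000000000000000001400000000000008001000000000000005020 := rS 0xb34ead62a1e3602826df1fb8d96011d8449647 (k8 c5562 c5342 c5558 c10737 c53 c5464 c5466 c5576 (k8 c5580 c371 c12614 c717 c718 c17782 c2610 c1083 (k2 c2321 c6118 k0))) (by decide +kernel)
def c20406 : PP 9 3 T 0x4000000000002000100040000000000000000000000000000001000000000000100000000001400001000400141040000000000000000000000000000 := rS 0x3838cf89f (k4 c5448 c5670 c17330 c18965 (k1 c2870 k0)) (by decide +kernel)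
def c20407 : PP 9 3 T 0x200000008000000000000000000000000000000000000000000000080400000000000000000000000000100 := rS 0x234261121c748a5b45965125d (k8 c17796 c18356 c18352 c18350 c5474 c5326 c5341 c5561 (k4 c5558 c2918 c807 c12615 k0)) (by decide +kernel)
def c20408 : PP 9 3 T 0x4000000000000040000020040000000000000000040008000000001000008000000100000000000010000000004040000000000000000000000000000020 := rS 0x57ecd541c0fed5383b7996dc67954acd62b5371c4f881f19248a5647835220f4fec253a1ac1cc03132ca151665 (k8 c18353 c18350 c18349 c18352 c2570 c53 c9719 c20404 (k8 c17561 c19356 c5209 c5448 c5369 c5374 c5522 c5526 (k8 c10195 c5326 c3006 c20405 c12626 c5670 c2870 c5666 (k8 c1149 c1146 c8280 c2452 c5524 c17330 c5474 c5325 (k8 c10737 c18965 c5412 c1083 c18950 c13322 c5486 c1286 (k1 c5683 k0)))))) (by decide +kernel)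
def c20409 : PP 9 3 T 0x4000000000000040000020040000000000000000040008000000000000008000000100000000000010000000004040000000000000000000000000000020 := rS 0x909c171424c4c020f488351e112591c8ba1ac214b28b (k8 c18350 c18352 c18349 c20404 c17561 c5326 c5562 c5342 (k8 c5558 c5526 c5522 c5374 c5369 c53 c2570 c3006 (k4 c20408 c17782 c4940 c12614 (k1 c317 k0)))) (by decide +kernel)
def c20410 : PP 9 3 T 0x4000000000000040000020000000000000000000040008000000102000000000000000000000000000000000000000000000000000400000001000000020 := rS 0x3641cf6ad43fb5f9bccb61b (k8 c5475 c5474 c5325 c5590 c5414 c15434 c204 c19181 (k2 c18532 c5201 (k1 c5486 k0))) (by decide +kernel)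
def c20411 : PP 9 3 T 0x4000000000000050000020000000000000000000040008000000101000000000000000000000000010000000004000000000000000000000000040000020 := rS 0x2bd63b3550701af32d86cb285 (k8 c18349 c18352 c5475 c5474 c5325 c5522 c18532 c13322 (k4 c5486 c2177 c1286 c5683 k0)) (by decide +kernel)
def c20412 : PP 9 3 T 0x22000100040000000000000000000000000000001000000000000100000000001000000000400141040000000000000000000000000000 := rS 0x78d669d4fa8536e3 (k8 c17330 c5397 c5398 c5448 c5412 c5532 c19797 c20406 k0) (by decide +kernel)
def c20413 : PP 9 3 T 0x4000000000000040000020040000000000000000040008000000000000000000000100000000001010000000004040000000000000000000000000000020 := rS 0xf1a7493130f7c967b5398041e91069e51fb0408ecad29d0c548f1d12d60b28b (k8 c18350 c18352 c20404 c5559 c5341 c5562 c20410 c17561 (k8 c19356 c10195 c10737 c12626 c5209 c5526 c5524 c5522 (k8 c5374 c5369 c53 c9719 c20412 c18913 c5685 c20411 (k4 c5547 c5588 c1083 c20405 (k1 c20406 k0))))) (by decide +kernel)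
def c20414 : PP 9 3 T 0x45000000000000044000020000000000000000000000008000000100000014000000000000000000000000000004000000000000000000000000000000020 := rS 0xf736c0b680f06a14ca83 (k8 c18355 c18353 c18349 c5522 c5369 c5201 c5694 c5529 (k2 c2195 c12456 k0)) (by decide +kernel)
def c20415 : PP 9 3 T 0x4000000000000040000020040000000000000000040008000000000000000000000100000000000010000000004040000000000000000000000000000020 := rS 0x7f69ec4bb2fc41d3eac20270466ccdff35a3fc0673009ad3e95d8204765694c75eba1ac164ca8b (k8 c18350 c18353 c18352 c20404 c17561 c5477 c5341 c19356 (k8 c10195 c10737 c12626 c5209 c5446 c5448 c5523 c53 (k8 c9719 c54 c20409 c20413 c5548 c1148 c11843 c17961 (k8 c5666 c2141 c19180 c2870 c2177 c5670 c5464 c1333 (k4 c20414 c17226 c17891 c17757 k0))))) (by decide +kernel)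
def c20416 : PP 9 3 T 0x8000000000000040000020040000000000000000040008000000000000000000000100000000000010000000004000000000000000000000000000000020 := rS 0x1561fdaa7629e04b37da7e371b2d6ab33e0f8fe6ef98491a03069acf28f04a7d429bd8204ad292de86b05942a24ca8b (k8 c18350 c18353 c18356 c18349 c18352 c20404 c17561 c5474 (k8 c19356 c10195 c12626 c5209 c5397 c5398 c5448 c16665 (k8 c5526 c5524 c5523 c5522 c54 c5505 c19004 c18955 (k8 c17961 c2918 c371 c372 c2819 c1148 c1145 c17330 (k8 c5576 c2827 c2829 c8156 c5691 c5920 c5458 c5414 (k2 c15434 c1284 (k1 c13322 k0))))))) (by decide +kernel)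
def c20417 : PP 9 3 T 0x4000000000000050000020040000000000000200000008000000000000000000000000000000001010000000000000000000000000000000000000000020 := rS 0xfc586cce06f509fb600339806521b7a8790fed70fc967a147c548f1d12d2d1659 (k8 c18352 c18350 c18477 c5559 c5341 c5562 c20410 c5526 (k8 c17561 c18913 c5685 c5591 c19181 c5373 c20411 c5477 (k8 c5475 c19356 c53 c9719 c54 c5209 c20415 c5398 (k4 c2919 c17735 c11843 c19180 (k2 c19192 c1335 k0))))) (by decide +kernel)
def c20418 : PP 9 3 T 0x1000000000000012000020080000000000000000000008000000000000000000000000000000000000000000000000000000000000000000000080000020 := rS 0x9c689b464fc038e7669930a6cc711009ecd67904ca46a5b0d8c5ea5f6395cee853ab14b25d (k8 c17796 c18352 c18348 c18354 c18349 c5356 c5353 c5357 (k8 c5439 c5477 c5476 c5475 c5474 c5324 c19356 c16665 (k8 c5524 c5523 c5372 c53 c9730 c9754 c5397 c5445 (k8 c5447 c18631 c2472 c713 c19192 c3567 c2552 c2130 (k2 c3598 c1240 k0))))) (by decide +kernel)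
def c20419 : PP 9 3 T 0x4000000000000050000020000000000000000200000008000000000000000000000000000000001010000000000000000000000000000000000000000020 := rS 0x583fcdcfd57b4b64d74077d9cdf66f8363e33be49c30371c4e03edf9444027b489ae52b3d0a3d52f55587a2a4712c7696870d99516c542a0cea59 (k8 c18352 c18354 c18355 c18349 c18348 c18350 c18353 c5475 (k8 c5373 c18477 c5341 c5559 c5562 c20410 c20411 c1084 (k8 c5477 c2319 c5526 c17561 c18913 c19356 c5523 c5374 (k8 c5372 c53 c9730 c5685 c19181 c15060 c5547 c5549 (k8 c5550 c5591 c20417 c5356 c17692 c20418 c5225 c5537 (k8 c5538 c17944 c17950 c17932 c1769 c5196 c13318 c5406 (k4 c5405 c11843 c2942 c3623 (k1 c1146 k0)))))))) (by decide +kernel)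
def c20420 : PP 9 3 T 0x6000000000000004000020080000000000000200000008000000000000000000000000040000000001000000000000000080000000000000000000040020 := rS 0x362c94d980eec7088f4831d363dc1a0f43a0cca85 (k8 c18349 c18353 c18355 c5373 c5369 c5522 c5498 c12456 (k8 c5341 c5340 c5560 c5558 c5357 c5356 c13319 c2492 (k2 c2063 c5445 (k1 c18419 k0)))) (by decide +kernel)
def c20421 : PP 9 3 T 0x4000000000000050000020000000000000000200000008000000000000000000000000000000000010000000000000000000000000000000000000000020 := rS 0x7f70a586c3b2b6c3260a69fb0ccb0466cc267037fcd68a90f00ce60107a1c1a6b948f5eba18a91e3a25a5964ca8b (k8 c18350 c18353 c18352 c18477 c5559 c5341 c5562 c20410 (k8 c17561 c5477 c5560 c19356 c5523 c5522 c5373 c5369 (k8 c53 c9719 c54 c20411 c2319 c20419 c5548 c1148 (k8 c17872 c318 c11843 c17961 c19180 c753 c5201 c4467 (k8 c10404 c20420 c5209 c10195 c10737 c771 c17226 c1483 (k2 c19049 c20415 k0)))))) (by decide +kernel)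
def c20422 : PP 9 3 T 0x40000100000000000000000000000008000000000000000000000000000000000020000000000000000000000000000000000000000020 := rS 0x469bc0673009951689 (k8 c18356 c18350 c18353 c53 c9719 c54 c2817 c2031 (k1 c17961 k0)) (by decide +kernel)
def c20423 : PP 9 3 T 0x40000020000000000000000200000008000000000000000000000000000000000000000000000000005000000000000000000000000020 := rS 0x226493804ce60148a3c22452de87da0ba5c0dec0d07a1e3a8332a14b28b (k8 c18350 c18352 c18349 c18353 c18355 c5341 c5373 c5369 (k8 c5522 c12456 c2195 c18477 c717 c10404 c17561 c5474 (k8 c5326 c5558 c5526 c5374 c53 c9719 c318 c5666 (k2 c19008 c755 (k1 c17964 k0))))) (by decide +kernel)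
def c20424 : PP 9 3 T 0x4000000000000040000020000000000000000200000008000000000000000000000000000000000000000000000000000000000000000000000000000020 := rS 0x3ffe7122484e0227572c4dd03f6bd817b336ed22a0f43a441a8f12c748e45a5ab7428532965068b (k8 c18350 c18355 c18352 c18353 c18349 c17561 c20422 c18477 (k8 c5326 c5562 c5341 c5559 c5526 c5522 c5374 c5373 (k8 c5369 c20410 c20421 c5529 c18383 c717 c12456 c10404 (k8 c2195 c20423 c1146 c5683 c2986 c3070 c317 c13257 (k4 c17964 c5547 c2570 c5694 k0))))) (by decide +kernel)
def c20425 : PP 9 3 T 0x8000000000000060000020080000000000000000000000000000000800000000000000000000000000000000000000008000000000000000009000000020 := rS 0x391d85d243e5027dbecbf1ec4fac72f83cf60d94b5c16b347ad4d7f310a6512c5 (k8 c18348 c18356 c5530 c5528 c18955 c5523 c1148 c5526 (k8 c2819 c17835 c5507 c19356 c5522 c5372 c5369 c5439 (k8 c5357 c5442 c17690 c17781 c1144 c2512 c2815 c5680 (k4 c2927 c2928 c1068 c495 (k2 c324 c18057 k0))))) (by decide +kernel)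
def c20426 : PP 9 3 T 0x8000000000000040000020040000000000000000000008000000000000000000000000000000000010000000000000008000000000010000000000080020 := rS 0x96698e1967c1f3810256d801d0f29a5bd8162659a3d6a6bf9bd41e89 (k8 c18356 c5369 c5477 c18955 c5523 c1148 c5526 c2819 (k8 c317 c17835 c20053 c18477 c19356 c5373 c8467 c5209 (k8 c10195 c12653 c20416 c371 c372 c1145 c3057 c2827 (k2 c8156 c8190 k0)))) (by decide +kernel)
def c20427 : PP 9 3 T 0x8000000000000060000020080000000000000000000008000000000000000000000000000000000000000000000000008000000000000000009000000020 := rS 0xc874cd1c81c6ee1492820113d8a644201079ed0e910682652352d8c51a0b59a3d6a6bf995cefe36bb2cbe9f3e9d58a592ea250a83 (k8 c18355 c18349 c18356 c17796 c18352 c18348 c18354 c5442 (k8 c2815 c5439 c1144 c5507 c17781 c5356 c5353 c18955 (k8 c5523 c1148 c5526 c2819 c17835 c5505 c5476 c5474 (k8 c5324 c19356 c16665 c5522 c5374 c5373 c5372 c5369 (k8 c53 c5528 c5530 c17690 c20425 c18000 c5680 c2928 (k8 c4984 c1567 c1564 c324 c2078 c17959 c3567 c493 k0)))))) (by decide +kernel)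
def c20428 : PP 9 3 T 0x40004000000000055000020080000000000000000000000000000000000000000000000000400000001004000000000000000000002000000008040000420 := rS 0x3703a4bbea0f0444028735ca58a85 (k8 c18349 c18348 c19356 c5523 c5373 c53 c9730 c5198 (k4 c5680 c17950 c2928 c10972 (k2 c1568 c15437 k0))) (by decide +kernel)
def c20429 : PP 9 3 T 0x40000020000000000000000200000008000000000000000000000000000000000000000000000000000000000000000000000000000020 := rS 0x19c381da59329530a4f6067d9aa838202407e29b54fb2fc6773e97f24a97b02d6ab3131bbe6126ba37dcad0188c1e7b43834d68f129048ef32dbd7434b349958a752ca15128b (k8 c18350 c18356 c18349 c18352 c18354 c18348 c18353 c18347 (k8 c18477 c17561 c5477 c5474 c5325 c5562 c5340 c5559 (k8 c5526 c5523 c5522 c5373 c5372 c5369 c9734 c54 (k8 c20422 c20424 c5505 c5507 c19004 c18955 c17961 c317 (k8 c2819 c1148 c17835 c20053 c2021 c20426 c5439 c5442 (k8 c5356 c17781 c1144 c2815 c20427 c5685 c11939 c3046 (k8 c3047 c18949 c13322 c5486 c2123 c20428 c5444 c5445 (k4 c5446 c5447 c18020 c340 (k2 c11968 c1285 (k1 c2558 k0)))))))))) (by decide +kernel)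
def c20430 : PP 9 3 T 0x2000000080000000000000200000008000000000000000000000000000400000000000000000000000000000000000000000000040120 := rS 0x7e816bf7d2c6703a54c2c9318f483ef2f9f4fe57699dd18118e914b64362994d2752ea24b28b (k8 c18350 c18352 c18356 c17796 c18354 c18347 c18353 c18348 (k8 c5561 c5474 c5326 c5341 c5558 c12615 c5356 c2083 (k8 c5353 c5358 c5442 c5439 c19004 c5340 c5560 c9754 (k8 c5396 c5445 c5446 c713 c13319 c3597 c17866 c1767 (k2 c13318 c14449 (k1 c12613 k0)))))) (by decide +kernel)
def c20431 : PP 9 3 T 0x400000000005000000000000000000000200000000000000000000000000000000000000000000000000000050400000044000100011000000040120 := rS 0xfd02d71901c7a41f7b4d18118e90d8a752c975128b (k8 c18350 c18356 c17796 c18352 c18354 c18348 c5561 c5341 (k8 c5558 c12615 c2083 c19004 c5340 c5560 c10972 c3567 (k4 c2185 c13318 c14449 c12613 k0))) (by decide +kernel)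
def c20432 : PP 9 3 T 0x20080000000000000200000008000000000000000000000000000000000000000000000000000000000000000000000000000020 := rS 0x28da3bda01bc2cd19b3fbdb13b95cfe7d079ec1a09948d5e65b18bd696cbd9bc48a1b0989f6c8562964ba75 (k8 c18354 c17796 c18352 c18348 c18349 c20429 c5570 c317 (k8 c5475 c5326 c5811 c17812 c5420 c18477 c5477 c5476 (k8 c5474 c5325 c5324 c19356 c16665 c5522 c5372 c5369 (k8 c5442 c5358 c5353 c5356 c20430 c20431 c5453 c5492 (k8 c5495 c13267 c10897 c5225 c1674 c5529 c11041 c717 k0))))) (by decide +kernel)
def c20433 : PP 9 3 T 0x10000000000000000000000000000000000000000000000000000440000400001400014500000000000000000000001080000400000000 := rS 0x8a079c29d (k4 c1480 c1483 c8484 c3620 (k1 c15434 k0)) (by decide +kernel)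
def c20434 : PP 9 3 T 0x20000000000000000200000008000000000000000000000000000000000000000000000000000000000000000000000000040400 := rS 0x7ffce244981bdbda0f488351ef5d0d2fdf01460463a452d90d0e852c975128b (k8 c18350 c18356 c17796 c18352 c18349 c5373 c5561 c5474 (k8 c5326 c5341 c5558 c12615 c2141 c19004 c18477 c17561 (k8 c5477 c5526 c5522 c5374 c5369 c10404 c20053 c2195 (k4 c19008 c17964 c5547 c2570 (k1 c5694 k0))))) (by decide +kernel)
def c20435 : PP 9 3 T 0x20000000000000000200000008000000000000000000000000000000000000000000000000000000000000000000000000000020 := rS 0x7e4b389becd67aa5fbb51b3183c6c050ed329b5095b61934604d6a2765a7d67b6d0bd4b64511ca422431ec748e8545965125d (k8 c17796 c18356 c18352 c18350 c18349 c5562 c5341 c5560 (k8 c5561 c5558 c19356 c9734 c5326 c5474 c5477 c17561 (k8 c20429 c5574 c5572 c5420 c5570 c5422 c317 c12615 (k8 c20432 c5209 c10195 c5398 c5397 c5447 c10737 c20434 (k8 c717 c718 c770 c771 c5529 c2552 c2319 c2560 (k4 c2329 c2331 c20433 c18035 (k2 c2620 c19049 k0))))))) (by decide +kernel)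
def c20436 : PP 9 3 T 0x4000100100000000000000000000000000000000000200080000000040000000010000000000000 := rS 0xc9ac76 (k4 c807 c808 c9300 c2185 k0) (by decide +kernel)
def c20437 : PP 9 3 T 0x100000000000000000000000000000000001000000000000500000000000400001000400040052000008000000000000000000000 := rS 0x5aa0727b0 (k4 c19416 c5353 c12626 c2611 (k1 c18965 k0)) (by decide +kernel)
def c20438 : PP 9 3 T 0x4000000100000000001000000000000000000000000200000020000040000000000000000000000 := rS 0x1c0deccccb0 (k4 c754 c753 c5487 c1902 (k2 c5649 c2177 k0)) (by decide +kernel)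
def c20439 : PP 9 3 T 0x2000000000000000000000000000000000000000000000000000440000400000400000400000000012000000000001080000400000000 := rS 0xb5daa7d4299 (k4 c5447 c5398 c5448 c5529 (k2 c2611 c20433 k0)) (by decide +kernel)
def c20440 : PP 9 3 T 0x2000000000000000000000000000000000000000000000000000440000400001400000400000000000000000000001080000400000000 := rS 0x6d2289d70a7d4299 (k8 c5447 c5398 c5448 c1483 c1480 c3620 c20433 c5414 k0) (by decide +kernel)
def c20441 : PP 9 3 T 0x120000000000000000200000000000000000000000000000000000000000000000000000000000000048000100080000000040020 := rS 0xdfb75a32d6671719fd18f1119cc026b3ca3e52111ec76769b0c80dbe4740e4f60352ca24ba8b (k8 c18350 c17796 c18356 c18352 c435 c19416 c5353 c12626 (k8 c5562 c2331 c54 c9701 c2328 c20435 c5341 c5560 (k8 c5558 c19356 c5526 c5524 c5523 c53 c9719 c9734 (k8 c5811 c8187 c20436 c17330 c20438 c8280 c8797 c20440 (k2 c5422 c1148 (k1 c5666 k0)))))) (by decide +kernel)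
def c20442 : PP 9 3 T 0x120000000000000000200000000000000000000000000000000000000000000000000000000000000008000100080000000040020 := rS 0x196b16b9c5fff38933a0649059b5e4c7da3d7dad169b35aaab54ab55e767b8c0cc970d168e60107a1d220d47ca422439dd2c729d11a6c320340a4c6ac93098f269f50a544299d8214ca5d (k8 c17796 c18353 c18349 c19416 c5447 c2418 c5446 c5398 (k8 c5448 c5353 c9754 c9759 c10171 c435 c9756 c12626 (k8 c54 c9701 c2328 c9734 c1480 c85 c5518 c20435 (k8 c5561 c5558 c19356 c5526 c5522 c5374 c5373 c5369 (k8 c53 c9719 c20441 c716 c8194 c715 c769 c2101 (k8 c768 c17787 c1908 c1907 c2123 c1476 c1917 c1918 (k8 c1482 c18006 c18094 c20383 c14679 c5657 c5529 c770 (k8 c450 c2628 c2534 c17964 c5547 c2570 c755 c1770 (k2 c14602 c8797 (k1 c3618 k0)))))))))) (by decide +kernel)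
def c20443 : PP 9 3 T 0x120000000000000000200000000000000000000000000000000000000000000000000000000010000088000000080000000040020 := rS 0x40816f246407e7e063bd5adb6f6f7da2cd6aac557b354abcecf7181992e1a43ca4223d9dd2c729d11a6c320349b24c263c9a7d429510a6761ef56bc5a6441ab2ce60140a14ba65 (k8 c18353 c17796 c18349 c12626 c53 c9719 c8797 c435 (k8 c20442 c2937 c5811 c2887 c5582 c19416 c5447 c2418 (k8 c5446 c5398 c5448 c5353 c9754 c9759 c10171 c9756 (k8 c54 c9701 c2328 c9734 c1480 c85 c5518 c20435 (k8 c5560 c5558 c19356 c5373 c716 c8194 c715 c769 (k8 c2101 c768 c17787 c1907 c5487 c2123 c2180 c1475 (k8 c1917 c1482 c5493 c18006 c5683 c3618 c18094 c14679 (k8 c5165 c7694 c4509 c2187 c5657 c770 c19335 c17694 k0)))))))) (by decide +kernel)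
def c20444 : PP 9 3 T 0x150010000000080450040000000000000000000000000 := rS 0x11a6f45a24d265 (k4 c18353 c18347 c18356 c18350 (k2 c2919 c807 (k1 c3602 k0))) (by decide +kernel)
def c20445 : PP 9 3 T 0x100000000000000000000000000000000000000000000000000000000002000000000000000050400000000000000000000000000 := rS 0xdfb7 (k2 c5422 c1148 (k1 c5666 k0)) (by decide +kernel)
def c20446 : PP 9 3 T 0x4000000000000000000000000000000000150010000100080410000040000000000000010000020 := rS 0x660d6cde273009bf3089 (k8 c18356 c18346 c2919 c53 c9719 c5811 c17895 c5649 (k2 c20444 c1902 k0)) (by decide +kernel)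
def c20447 : PP 9 3 T 0x120000000000000000200000000000000000000000000000000000000000000000000000000010000008000000080000000040020 := rS 0x2c15e1d139df6c8d6a9fbc6e25a96d96b3119cc026b3ca3e52251ec76769b0c80dbe4740e4d43b0f7ab5e2d3220d5165d (k8 c17796 c18350 c435 c20442 c2937 c5811 c2887 c5582 (k8 c19416 c5398 c5353 c12626 c5562 c2331 c54 c9701 (k8 c2328 c20435 c5341 c5560 c5559 c19356 c5526 c5524 (k8 c5523 c53 c9719 c9734 c8280 c8797 c20443 c20445 (k8 c20440 c5466 c17330 c2998 c20436 c17735 c10131 c5570 (k4 c335 c10145 c20446 c5421 k0)))))) (by decide +kernel)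
def c20448 : PP 9 3 T 0x40000000000000000000020000000000000000000040000000000000000000000000000000000001600000000000000020040000000000000000000000020 := rS 0x7eed01e0ddbc552398 (k8 c18346 c5374 c3048 c5571 c5522 c5369 c5685 c1335 (k1 c10683 k0)) (by decide +kernel)
def c20449 : PP 9 3 T 0x45000000000000060000120000000000000000200040000000000000000000000000000000000000240000000000000004040000000000000000000040020 := rS 0x1e5030d02e02fcd99b5560f06c767798 (k8 c18346 c20435 c5341 c5522 c5369 c5413 c5529 c18383 (k4 c10683 c2143 c717 c19501 (k2 c2632 c1076 (k1 c19335 k0)))) (by decide +kernel)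
def c20450 : PP 9 3 T 0x1000000000000000000120000000000000000200000000000000000000000000000800000000000200000000000000000040008000000080000000040020 := rS 0x34556f47bbcdfefdd907b6a0f43836533b4e88d361901a4d2bef37edd5ecd699106aa95a2cd33b0f99c2968541964ba8b (k8 c18350 c17796 c18352 c18355 c18349 c5518 c20447 c5549 (k8 c19416 c5447 c2458 c20448 c2184 c435 c20442 c2937 (k8 c2624 c2988 c5571 c65 c5582 c5446 c9756 c54 (k8 c9701 c2328 c9734 c1480 c20435 c19356 c5522 c5373 (k8 c5369 c20449 c8484 c5228 c5405 c2572 c2532 c504 (k4 c5657 c10863 c1482 c18094 k0)))))) (by decide +kernel)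
def c20451 : PP 9 3 T 0x120000000000000000200000000000000000000000000000800000000000200000000000000000040008000000080000000040020 := rS 0x2afd89754ced3a234d86406c93098d2ab34cec19ad3220d4fc79c9a04ba65 (k8 c18353 c17796 c12626 c5353 c5524 c17330 c435 c20442 (k8 c2937 c2624 c19416 c5447 c2458 c5446 c9754 c9759 (k8 c10171 c54 c9701 c2328 c9734 c1480 c20435 c2184 (k4 c10125 c20450 c5500 c18006 k0)))) (by decide +kernel)
def c20452 : PP 9 3 T 0x42000020000000000000000000000000000000001000000000000800140100000150000400000000000000000000200080000400000000 := rS 0x68b3fbfe17bc0556ff79ad03db554bf52fb24ea57dfe3f9acd32cd (k8 c2624 c5447 c2458 c5549 c5466 c5582 c5446 c1480 (k8 c5683 c5404 c5405 c5489 c18383 c8484 c5685 c2532 (k8 c2573 c1344 c3067 c504 c11841 c16753 c8707 c1780 (k1 c8710 k0)))) (by decide +kernel)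
def c20453 : PP 9 3 T 0x120000000000000000200000000000000000000000000000800000000000000000000000000000000008000000080000000040020 := rS 0x1027902deac77bb44eded0d40518abd99992ea958354fccd59fcfc6873cca63a4b9dd2d3a234d86406e11eb7c8e8149b24c263c9a5533b0f7ab5e2d3220d4dfb757c54e09142a2cba65 (k8 c18353 c17796 c18350 c18349 c5374 c20447 c3048 c2988 (k8 c5571 c65 c435 c20442 c2937 c5811 c2887 c5582 (k8 c19416 c5447 c5446 c5353 c9754 c9759 c10171 c9756 (k8 c12626 c5562 c2331 c5560 c1483 c54 c9701 c2328 (k8 c9734 c1480 c5518 c20435 c5342 c5341 c19356 c5524 (k8 c5373 c5466 c5549 c2458 c2624 c17330 c2998 c20452 (k8 c2184 c10125 c20451 c5487 c2123 c2179 c4507 c19501 (k8 c18921 c807 c1780 c2103 c14679 c18094 c770 c5657 (k2 c19335 c2627 k0))))))))) (by decide +kernel)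
def c20454 : PP 9 3 T 0x120000000000000000200000000000000000000000000000000000000000200000000000000000080008000000080000000040020 := rS 0x40be6f2059b5eac7da347dacd3b3dd5297199683501462af660178a1e52118e92c8f3ba5a74469b0c80d263564984c7934a88533b0f7910dfb738214ca5d (k8 c17796 c18353 c18349 c20447 c5571 c65 c20442 c5582 (k8 c19416 c5447 c2418 c5446 c5353 c9754 c9759 c10171 (k8 c435 c9756 c54 c9701 c2328 c9734 c1480 c5518 (k8 c20435 c5562 c5342 c5341 c5558 c19356 c5373 c5811 (k8 c53 c5487 c2123 c2179 c4507 c19501 c20438 c2043 (k8 c1074 c1907 c2103 c768 c2330 c18006 c1482 c20383 (k8 c14679 c18094 c5529 c770 c5657 c12233 c19335 c2627 k0))))))) (by decide +kernel)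
def c20455 : PP 9 3 T 0x41000000000000000000120000000000000000200000000000000000000000000000000001000000205000000000000000000008000000080000000040020 := rS 0x68bd1eef37fbf569b20f2cf6a8f94cee969d11a6c3203498d52a99d87bc886fdbabe2a704899d165d (k8 c17796 c18350 c20454 c5374 c20447 c3048 c2988 c5571 (k8 c65 c20442 c5582 c19416 c5447 c5446 c435 c9756 (k8 c54 c9701 c2328 c9734 c1480 c5518 c20435 c19356 (k8 c5526 c20449 c18913 c8484 c5228 c5685 c5405 c2572 (k4 c2532 c504 c5657 c1482 (k1 c18094 k0)))))) (by decide +kernel)
def c20456 : PP 9 3 T 0x120000000000000000200000000000000000000000000000000001000000205000040000000000000008000000080000000040020 := rS 0x29e44989fcbda0f488351e479dd2d3a234d86406c93098f26954cec0888d339c10a65 (k8 c18353 c18349 c20447 c20454 c753 c20442 c19416 c5447 (k8 c5446 c5353 c9754 c9759 c10171 c54 c9701 c2328 (k8 c9734 c1480 c5518 c20435 c5562 c5526 c5522 c5374 (k8 c5369 c18006 c20455 c5547 c5588 c18619 c17964 c2530 k0)))) (by decide +kernel)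
def c20457 : PP 9 3 T 0x100000000000000000000000000000000000000000000000000000000000000000000000000020000008000200008000000000000 := rS 0xfe3e6a207268b (k4 c18350 c5353 c12626 c390 (k2 c389 c2998 (k1 c8336 k0))) (by decide +kernel)
def c20458 : PP 9 3 T 0x40000120000000000000000200000000000000001000000000000000000000000008000100100000000000000000200080000000000020 := rS 0x16901f9bcc3cb37efb76a234791e774b (k8 c5518 c20435 c5562 c5526 c9734 c5413 c5500 c170 (k4 c18913 c8484 c2532 c18619 (k2 c3067 c5685 (k1 c1345 k0)))) (by decide +kernel)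
def c20459 : PP 9 3 T 0x100000000000000000200040000000000000000000000000000000000000202000000400000000000000000000000000000000020 := rS 0x165b5 (k2 c5531 c2184 (k1 c18913 k0)) (by decide +kernel)
def c20460 : PP 9 3 T 0x4000100000000000001000000000000000000000080000000000000000000000014000000000000 := rS 0x63df (k2 c5452 c1472 (k1 c5653 k0)) (by decide +kernel)
def c20461 : PP 9 3 T 0x120000000000000000200000000000000000000000000000000000000000200000000000000000000008000000080000000040020 := rS 0xaa46aa4ce8fa5a6761b78aa459a97199c088359dca5e25d (k8 c17796 c5811 c19356 c20435 c435 c20442 c20447 c20457 (k8 c20460 c2330 c5374 c3048 c5571 c19416 c5447 c5518 (k4 c5526 c20454 c20459 c753 (k2 c20456 c20458 k0)))) (by decide +kernel)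
def c20462 : PP 9 3 T 0x120000000000000000200000000000000000000000000000000000000000000000000000000000000008000000080000000040020 := rS 0x1abe2ef787e6c679828ee1e367b4b7b554bf55667d92356297668cdc67d8aabf6e7056fbc88f1888050e9135ca6774b4e88d361901b847adf23a046ac93098f269f4aa6760c5459d51283349950a5d (k8 c17796 c18349 c18353 c18347 c18355 c18356 c18354 c18350 (k8 c18348 c19416 c5447 c5446 c5448 c5353 c9754 c9759 (k8 c10171 c435 c12626 c5562 c2331 c5560 c1483 c54 (k8 c9701 c2328 c9734 c1480 c5518 c20435 c19356 c5523 (k8 c5374 c5373 c53 c9730 c5811 c20442 c5582 c2887 (k8 c20447 c5571 c2988 c3048 c2870 c20453 c20457 c2330 (k8 c20460 c20461 c754 c5683 c5282 c20458 c5405 c5489 (k8 c18383 c715 c18006 c3601 c8484 c9300 c2315 c4688 (k4 c770 c18619 c5535 c5165 (k2 c5691 c5454 (k1 c17987 k0))))))))))) (by decide +kernel)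
def c20463 : PP 9 3 T 0x120000000000000000200000000000000000000000000000000000000000000000000000000000000008000000080000000000020 := rS 0x3c5155aacc7c7f131c424214cec32681019cc026b3ca3c13294e88dc23d (k8 c5560 c1483 c9734 c1480 c19356 c16665 c5526 c5524 (k8 c5523 c53 c9719 c54 c12626 c5353 c19416 c5447 (k8 c2418 c20462 c2869 c317 c2918 c371 c8280 c20445 (k2 c3047 c20406 (k1 c5576 k0))))) (by decide +kernel)
def c20464 : PP 9 3 T 0x20080000000000000000000000000000000000000000000140000400001400005500000000000000000000000080008000000000 := rS 0x369b0f9f8dc5155088527b7 (k8 c5570 c1567 c2418 c2928 c3047 c3620 c5466 c5549 (k2 c5680 c5685 (k1 c17690 k0))) (by decide +kernel)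
def c20465 : PP 9 3 T 0x400000000050000120000000000000000000000000000000001000000000000040008040000010000000000050450000000000000000000000000000 := rS 0x3fd1ad26ba03df0371c4e03f243a451eb535e6106c5 (k8 c18348 c18355 c18346 c5523 c20445 c5526 c5374 c5373 (k8 c17872 c15060 c5547 c5549 c5550 c18955 c17861 c1769 (k4 c13318 c2083 c2942 c18001 k0))) (by decide +kernel)
def c20466 : PP 9 3 T 0x120000000000000000200000000000000000000000000000000000000000000000000000000000000000000000080000000080020 := rS 0x69b5592a11840066166ba4de420243fc3f144a8752eaf5496f65edefb399ad1f06c76a984fac55bb765ad5666e131c4e60135a3c873ba5a74469b0c80dc23d6f91ceec72f9f4ff922bca50a83629d4ca89 (k8 c18356 c18353 c18354 c18348 c18355 c18349 c19356 c20463 (k8 c10195 c5358 c5442 c5439 c2326 c5912 c5562 c2331 (k8 c5560 c1483 c54 c9701 c2328 c9734 c1480 c5518 (k8 c20435 c5561 c5526 c5523 c53 c9719 c2869 c317 (k8 c318 c8280 c20445 c8466 c5570 c2817 c1146 c2815 (k8 c20464 c5530 c5447 c5225 c5459 c5537 c17944 c17747 (k8 c5543 c5224 c20383 c10768 c5406 c5404 c5486 c5488 (k8 c20465 c15434 c4940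 c3046 c3047 c18949 c1568 c1770 (k8 c2419 c3711 c451 c2535 c2928 c1065 c3072 c1918 (k1 c3618 k0)))))))))) (by decide +kernel)
def c20467 : PP 9 3 T 0x10000120000000000000000200000000000000002000000000000000008400000050004050000000000000000000000080000010000020 := rS 0xa169b5592b10b0c067036b881e4ff0f88c4a431e92c725b54fb6774b (k8 c5518 c20435 c5543 c10768 c20383 c85 c5342 c5560 (k8 c5561 c5559 c9734 c15434 c3010 c18949 c5650 c1770 (k8 c2627 c387 c2535 c2419 c1295 c1065 c1475 c1918 (k2 c1068 c3618 k0)))) (by decide +kernel)
def c20468 : PP 9 3 T 0x1000000000000000000020080000000000000200000000000000001000004000000000440440000100004200000000000000000000000080000000040020 := rS 0x1f3548a3081925e4200fa8526161afcd02230c80c4a3d25b7c8e7d3faa55aaf4b8752bb2efb47c129d8cefde5bdad2d8a85 (k8 c18349 c18348 c5518 c5530 c20383 c19004 c20435 c5447 (k8 c19356 c5225 c5459 c17747 c5224 c5488 c5486 c5404 (k8 c5406 c5490 c10768 c5358 c5442 c5562 c2331 c5342 (k8 c5560 c5559 c54 c9701 c9734 c13318 c17861 c17899 (k8 c11149 c55 c1068 c2318 c5650 c18950 c345 c2627 (k4 c2535 c9612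 c1475 c8160 (k1 c14449 k0))))))) (by decide +kernel)
def c20469 : PP 9 3 T 0x20080000000000000200000000000000001000004000000000000440000100004200000000400000000000000080000000040020 := rS 0x401e644818c51ad26ba1d1e1121c77de5bf6b399be0d8ca76b4b45965125d3aa158a83 (k8 c18355 c18348 c18349 c18354 c17796 c18356 c18352 c18350 (k8 c5518 c5530 c19356 c5447 c5225 c5537 c17944 c5543 (k8 c20383 c19004 c5341 c5561 c5558 c5526 c5373 c1770 (k8 c20468 c2083 c1918 c2087 c12615 c2535 c19658 c3067 k0)))) (by decide +kernel)
def c20470 : PP 9 3 T 0x120000000000000000200000000000000000000000000000000000000000000000200000000010000000000000080000000000020 := rS 0x2c921a879eb137f2c76d154a8752eaf56ecbbece4fb35a3e0d8ed4320307a441a8f0892e774b6f91ceec73e9fc26b535b2ce6012fe48af2942a0d8a75 (k8 c18354 c18348 c18355 c18349 c19356 c20463 c10195 c5439 (k8 c53 c9719 c8466 c5523 c20445 c20466 c5358 c5442 (k8 c2326 c5912 c5562 c2331 c5518 c20435 c5342 c5558 (k8 c5526 c5522 c5374 c5369 c54 c9701 c5530 c5447 (k8 c5225 c5459 c5537 c17852 c17944 c17747 c5224 c5490 (k8 c5406 c5404 c5486 c5488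 c20467 c20465 c5421 c20469 (k4 c2570 c2341 c18090 c1622 (k2 c2318 c11149 (k1 c55 k0))))))))) (by decide +kernel)
def c20471 : PP 9 3 T 0x2000000000010000120000000000000000200000000000000001000000000000000000000000000000000000000010000000000000080000000000020 := rS 0x2008c81915fef66bbd5c4321aa84621679ec5fa97f7ec8b7edefb393ecd68a1c4a118ecee969d4d86406e11eb7c8e7709acd1eb535b2ce6012fe48af294987846992ca24ba8b42a0d8a75 (k8 c18354 c18348 c18355 c18349 c18350 c17796 c18356 c18352 (k8 c20470 c9734 c8484 c1567 c19356 c20463 c10195 c5439 (k8 c53 c9719 c8466 c5523 c20445 c5526 c8280 c20466 (k8 c5912 c5562 c2331 c5560 c1483 c54 c9701 c2328 (k8 c1480 c5518 c20435 c5341 c5558 c5559 c5373 c5459 (k8 c5537 c17852 c17944 c17747 c5543 c20383 c5228 c19004 (k8 c5404 c5405 c18631 c2532 c5648 c1474 c1068 c1619 (k8 c5653 c3620 c2340 c2185 c5657 c2575 c504 c2195 (k2 c8187 c13843 (k1 c2141 k0)))))))))) (by decide +kernel)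
def c20472 : PP 9 3 T 0x10000120000000000000000200000000000000001000000000000000000000000000000000000000010000000000000080000000000020 := rS 0x46914b6d2193319ed16afb156e2d9a853fb0f08784a119dd2d3a234d86406e11eb7c8e7709acd1eb535b2ce6012fe48af2949a64b2892ea2d0ac5 (k8 c18348 c18349 c18350 c17796 c18356 c18352 c20470 c1567 (k8 c19356 c20463 c10195 c5439 c53 c9719 c8466 c5523 (k8 c20445 c5526 c8280 c20466 c5912 c5562 c2331 c5560 (k8 c1483 c54 c9701 c2328 c9734 c1480 c5518 c20435 (k8 c5558 c5559 c8484 c20471 c5225 c5448 c5398 c18631 (k8 c20440 c11079 c5228 c13321 c5501 c5543 c17834 c2330 (k4 c2624 c2041 c390 c2083 (k1 c8187 k0)))))))) (by decide +kernel)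
def c20473 : PP 9 3 T 0x120000000000000000200000000000000001000000000000000000000000000000000000000010000000000000080000000000020 := rS 0x2d9151af6803cdc4d067a7d43de0b02f63b336ed10e250890e3b3b4e88d361901b847adf2384d668f5a9ad96730097f245794a4d328b2ca24ba85 (k8 c18349 c17796 c18356 c18352 c18350 c20470 c1567 c19356 (k8 c20463 c10195 c5439 c53 c9719 c8466 c5523 c20445 (k8 c5526 c8280 c20466 c5562 c2331 c5560 c1483 c54 (k8 c9701 c2328 c9734 c1480 c20435 c5341 c5561 c5558 (k8 c5559 c5373 c20472 c5529 c18383 c17690 c717 c5648 (k8 c5224 c1068 c1465 c5453 c17747 c3620 c2534 c1780 (k4 c1482 c2141 c3067 c2102 (k1 c12615 k0)))))))) (by decide +kernel)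
def c20474 : PP 9 3 T 0x120000000000000000200000000000000000000000000000000000000000000000000000000010000000000000080000000000020 := rS 0x1fdac513223 (k4 c9734 c20470 c20473 c5414 (k2 c15434 c8484 k0)) (by decide +kernel)
def c20475 : PP 9 3 T 0x80000000000000010000120000000000000000200000000000000000000000000000000000000000000000004000000000000000000000080000080000020 := rS 0x45468c8b7df1a8c59ccd68981aaf30b781006cd8bc4e6010c80cf68f0890e3b3ba5a7446e11eb7c8e77639f4ff922bca4267045965125d42a0d8a75 (k8 c18354 c18348 c18355 c18349 c17796 c18356 c18352 c18350 (k8 c20474 c20466 c19356 c20463 c10195 c5358 c5442 c2326 (k8 c5912 c5562 c2331 c5560 c1483 c9734 c1480 c5518 (k8 c20435 c5341 c5561 c5558 c5526 c5372 c54 c9701 (k8 c53 c9719 c5811 c18024 c12233 c17861 c6642 c5648 (k8 c4688 c1658 c751 c5459 c5537 c17944 c1474 c4202 (k4 c17747 c9931 c5653 c20438 (k2 c390 c12615 k0)))))))) (by decide +kernel)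
def c20476 : PP 9 3 T 0x10000000080000000000000000040004000100100000000000000000008000002000000004000000020000000000040000000080050020 := rS 0xf41abdc2cff7991362fd4ba37645bf6bc4320345965125d (k8 c17796 c18356 c18352 c18350 c54 c9701 c5811 c5543 (k8 c20383 c5228 c20438 c5404 c5405 c18631 c12615 c2532 (k4 c2572 c5648 c504 c1619 (k2 c5657 c2340 k0)))) (by decide +kernel)
def c20477 : PP 9 3 T 0x10000120000000000000000200000000000000000000000000000000000000000000000100000000000000000000000080000000000020 := rS 0x2a55a97f186bd807d9a54c2c9d80d7c2cf5a7cc3cb34782422438ecee969d11a6c3203708f5be473ee48af29099bf6eaf8a9c1229310b150a8b (k8 c18350 c18349 c18348 c2418 c1567 c5374 c20474 c3048 (k8 c2988 c5571 c65 c20466 c19356 c20463 c10195 c5442 (k8 c5562 c2331 c5560 c1483 c54 c9701 c2328 c9734 (k8 c1480 c5518 c20435 c5341 c5561 c5558 c16665 c5526 (k8 c18913 c8484 c20475 c5685 c20476 c13267 c1621 c5225 (k8 c5396 c5445 c5446 c18631 c713 c5228 c19501 c17930 (k4 c1074 c1908 c1907 c18921 k0))))))) (by decide +kernel)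
def c20478 : PP 9 3 T 0x20000120000000000000000200000000000000000000000000000000000000000000000000000000000000000000000080000000000020 := rS 0x683dfbc1ad8ecd571d9de48af2937edce085 (k8 c18349 c20474 c5571 c65 c19356 c20463 c10195 c20435 (k8 c5341 c5413 c18383 c17690 c19501 c5224 c2103 c17747 (k1 c1482 k0))) (by decide +kernel)
def c20479 : PP 9 3 T 0x120000000000000000200000000000000000000000000000000000000000000000000000000000000000000000080000000000020 := rS 0x1d3c92f1879c4b4f9a0597b14c2cf6aa18aedce07f3eb1f24576fd2c022901a451e09949049647 (k8 c5562 c5342 c5340 c19356 c16665 c5526 c5374 c54 (k8 c9694 c53 c5518 c2331 c20463 c10195 c2326 c5442 (k8 c5358 c20474 c5571 c3048 c2929 c20478 c18913 c20477 (k8 c5447 c1760 c752 c17861 c5685 c5802 c11945 c5466 (k4 c2318 c5680 c1564 c15711 k0))))) (by decide +kernel)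
def c20480 : PP 9 3 T 0x20000000000000000000000000000000000000000000000000000000000000000200000000000000000000000040000000000020 := rS 0x52fc23a6381c17922b85c3e9b4eec76a0f069e41329 (k8 c19356 c16665 c5524 c5522 c5369 c5530 c5447 c167 (k8 c98 c2317 c1463 c19416 c5209 c718 c714 c5357 (k4 c16784 c18042 c5332 c5225 k0))) (by decide +kernel)
def c20481 : PP 9 3 T 0x11000020080000000000000000040004000000000000000000000000000000000000000000000000000000000000000040000040000020 := rS 0xf21916c3a3518aa7dbdf033399a3968f801e0d3c82652996395cee0b62a150675 (k8 c18354 c18355 c18349 c18348 c718 c5356 c5353 c5357 (k8 c20480 c19356 c16665 c5524 c5522 c5369 c5225 c5459 (k8 c5534 c5537 c17944 c18042 c17747 c5543 c2450 c1473 (k4 c1617 c17794 c20383 c5653 (k2 c18950 c387 k0))))) (by decide +kernel)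
def c20482 : PP 9 3 T 0x110000200800000000000000000000040000000000000000000000000000000000000000000000000000000000000000400000400000a0 := rS 0x790c8b631efb399a3968f813a9b3024c6a010c80cf7294c9de959842a0d8a75 (k8 c18354 c18348 c18355 c18349 c18346 c20481 c5356 c20480 (k8 c19356 c5372 c54 c9701 c53 c1617 c1564 c713 (k8 c6036 c1696 c5679 c5459 c5534 c5537 c17944 c17747 (k4 c1473 c9931 c5653 c17728 (k1 c387 k0))))) (by decide +kernel)
def c20483 : PP 9 3 T 0x1001400000000011000000000000000000000000000000000000000000001000000000018000000000000140000000000000000000000000000000000000 := rS 0x136cd (k2 c139 c2562 (k1 c11160 k0)) (by decide +kernel)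
def c20484 : PP 9 3 T 0x1000000000011000020080000000000000000080004000000000000000000000000010000000000000100000000000000000000000200000000000460 := rS 0xdaab4d27524336633fdaf22daa52a677ea5f65df88804320307a1c1a6b94b1cee3b7bbd5066932a17305d (k8 c17796 c18346 c18349 c18353 c18347 c18355 c5519 c5333 (k8 c5332 c5356 c5357 c19356 c5523 c5522 c5373 c5369 (k8 c54 c9701 c53 c9730 c17747 c5224 c5404 c5405 (k8 c5487 c5488 c5489 c715 c17728 c10910 c20483 c18861 (k4 c388 c18084 c1694 c325 (k2 c2076 c2492 (k1 c3601 k0))))))) (by decide +kernel)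
def c20485 : PP 9 3 T 0x400000000001000000080000000000000000000004000100000000000000000000000000000000000040000000000000000000000014000001000040 := rS 0x12695338c36465 (k4 c18353 c5224 c5653 c5487 (k2 c5488 c1565 (k1 c18084 k0))) (by decide +kernel)
def c20486 : PP 9 3 T 0x9000000080000000000000000000004000100000000000000000000000000000000000000000000000000000000000014000000000060 := rS 0xc1245b4a99c32032ba5de2c52c9d4ba65 (k8 c18353 c17796 c18354 c18352 c18348 c5811 c20460 c5353 (k8 c54 c9701 c5487 c5488 c715 c18084 c10897 c1565 k0)) (by decide +kernel)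
def c20487 : PP 9 3 T 0x1000000000000014000000080000000000000000000004000000000000000000000000000100000000000008000000000000000000000214000000000060 := rS 0x625b0daad345762964ea5d (k8 c17796 c18354 c18352 c18348 c5353 c325 c1189 c19296 (k2 c716 c1566 (k1 c10897 k0))) (by decide +kernel)
def c20488 : PP 9 3 T 0x1000000000000014000000000000000000000000000004000000000000000000000000000000000000000000004000000000080000000000000000000020 := rS 0x2a8cc1a (k4 c716 c715 c19296 c2123 k0) (by decide +kernel)
def c20489 : PP 9 3 T 0x11000020080000000000000000000004000000000000000000000000000000000000000000000000000000000000000040000040000020 := rS 0x12a67552a5e45b4e185361649ecd93de4b8d467ed680e3c2077b8ee940b78864060f3da1c1a7904ca532c72b994d398 (k8 c18346 c18347 c18353 c5353 c5357 c20480 c19356 c16665 (k8 c5524 c5522 c5373 c5372 c5369 c54 c9701 c5811 (k8 c718 c20481 c5332 c5333 c20482 c18042 c18025 c20484 (k8 c5501 c2129 c1704 c20460 c20485 c5494 c20486 c20487 (k8 c5648 c6036 c1459 c5679 c20488 c17728 c2447 c10719 (k2 c2123 c2126 (k1 c17866 k0))))))) (by decide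 +kernel)
def c20490 : PP 9 3 T 0x2000000000080000000000000000000000200000000000000001000040000000000008000000440015100004000000000040000000008000000000020 := rS 0x80233de457104daab513b2c22e14db7daf1d2ca24ba8b (k8 c18350 c17796 c18356 c18352 c5341 c2185 c5538 c5536 (k8 c5460 c5558 c5420 c5570 c5422 c10677 c317 c3620 (k4 c390 c19004 c8187 c13843 (k1 c2141 k0)))) (by decide +kernel)
def c20491 : PP 9 3 T 0x11000120080000000000000200000000000000000000000000000000000000000000000000000000000000000000000000000000000020 := rS 0x3e4445aa342670dba7d42930b0c86b037b3cc3afd57ab4b7b218a55ebedefb39becd688ed3be059c56961e789cc021901a1e52250890c7b1d23ced3237639f4fe7745965125d42a0d8a75 (k8 c18354 c18348 c18355 c18349 c17796 c18356 c18352 c18350 (k8 c5356 c5358 c5442 c5357 c20479 c20480 c20435 c5562 (k8 c5341 c5560 c5561 c5558 c5559 c19356 c5373 c54 (k8 c9701 c53 c9719 c5811 c20489 c5517 c15434 c2321 (k8 c5225 c9066 c5456 c5459 c5537 c5538 c17944 c17747 (k8 c5543 c2339 c1587 c1473 c5224 c20383 c5490 c5406 (k8 c5405 c5486 c2532 c5657 c2195 c501 c5653 c11149 (k8 c322 c1068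 c1465 c20490 c20465 c2869 c20438 c20476 (k2 c12615 c11939 (k1 c18619 k0)))))))))) (by decide +kernel)
def c20492 : PP 9 3 T 0x4000400000000046000000000000000000000200000000000000000000000000000000000000000050000000000050000000004000000020000000000120 := rS 0x26811f9bda6b0088f40e616b9058a65 (k8 c18353 c18348 c5340 c1763 c5445 c713 c5560 c5558 (k4 c5683 c20105 c1146 c442 (k2 c13318 c318 (k1 c12613 k0)))) (by decide +kernel)
def c20493 : PP 9 3 T 0x12000020080000000000000200000000000000000000000000000000000000000000000000000000000000000000000040000080000020 := rS 0x4034c26b55889f6cad0d2a55ed70e8d3de33718c474ccf0f7dfecf7ec05a2f7f62ac72b3a5bc413291290c82479d9f4fe5749a8537b362a251685 (k8 c18349 c18350 c18356 c18348 c18631 c5397 c5398 c5444 (k8 c5353 c5358 c5442 c20435 c5562 c5340 c5561 c5559 (k8 c19356 c16665 c5811 c5517 c2321 c2472 c11079 c5228 (k8 c5498 c5501 c5502 c5542 c5543 c5544 c17747 c13267 (k8 c17834 c5654 c1917 c1773 c492 c17946 c5653 c331 (k8 c1763 c10145 c2320 c5649 c1908 c20492 c5570 c5421 (k4 c5422 c317 c18088 c17899 (k1 c13318 k0)))))))) (by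 decide +kernel)
def c20494 : PP 9 3 T 0x90000020080000000000000200000000000000000000000000000000000000000000000004000000000000000000000040000040000060 := rS 0x811fb81c638248ec414b6ffce25e30989c467b48a3c223d2591cfbe105834ae099483d8e79 (k8 c5524 c5357 c5369 c19356 c16665 c5353 c5522 c718 (k8 c18042 c5442 c5562 c5342 c5560 c5558 c5526 c5374 (k8 c5372 c9734 c5570 c317 c17930 c18090 c5547 c2512 (k8 c15503 c5650 c340 c344 c5654 c2617 c5691 c3056 (k2 c1716 c12655 k0))))) (by decide +kernel)
def c20495 : PP 9 3 T 0x10000120080000000000000200040000000000000000000000000400000000000000000000000000000000000000000000000000000020 := rS 0x2bd62adf7868ddec3888ce6011480c4a112591e77b3f082c1a5704ca41ec73cedc3e0730a4f603732a258a8b (k8 c18350 c18348 c18356 c18353 c20479 c20491 c5444 c5445 (k8 c713 c20493 c20494 c5524 c5357 c5369 c19356 c16665 (k8 c5353 c5522 c718 c18042 c18631 c20435 c5562 c5342 (k8 c5558 c5559 c54 c9694 c53 c9719 c9734 c17314 (k8 c5228 c5666 c18915 c17946 c2817 c1146 c1077 c5683 k0))))) (by decide +kernel)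
def c20496 : PP 9 3 T 0x20080000000000000200080000000000000000000000000000000000000000000000000000000000000000000000000000040540 := rS 0x1bff38903cf60d4792d8fe31e95c227d (k8 c5442 c5558 c5353 c5560 c17930 c5357 c5342 c5526 (k4 c5522 c5372 c5369 c17919 (k2 c5547 c2512 (k1 c15503 k0)))) (by decide +kernel)
def c20497 : PP 9 3 T 0x10000120080000000000000200040000000000000000000000000000000000000000000000000000000000000000000000000000000020 := rS 0x391db88402325a4fc20b0f8340e61d80dcae099483d8e79 (k8 c5524 c5357 c5369 c19356 c16665 c5353 c20479 c20491 (k8 c5445 c713 c5522 c20493 c718 c18042 c5444 c5342 (k4 c9734 c5650 c20495 c340 (k2 c2617 c5654 k0)))) (by decide +kernel)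
def c20498 : PP 9 3 T 0x10000120080000000000000200000000000000000000000000000000000000000000000000000000000000000000000000000000000020 := rS 0x19e3266a73daf23696c6a31558715deff92c55b155aaccdc26388e024f524bdc774adbf84161f03ecd2a614da4f60576380de2730083cf60d359e51e099489676991bb14b2752ee60ca89 (k8 c18356 c18353 c18346 c17796 c18354 c18352 c18348 c20479 (k8 c20480 c20435 c5559 c19356 c16665 c5526 c5524 c5523 (k8 c5522 c5372 c5369 c53 c9719 c5811 c54 c5357 (k8 c5353 c20491 c5444 c5397 c5445 c5446 c18631 c713 (k8 c20493 c718 c18042 c20494 c20497 c5332 c5333 c5334 (k8 c5519 c20496 c18025 c2869 c317 c318 c8280 c20445 (k8 c3046 c2817 c1146 c5685 c18955 c5683 c10145 c1286 (k8 c1996 c3682 c1995 c10929 c17728 c10910 c17842 c2501 (k2 c10897 c1651 (k1 c12046 k0)))))))))) (by decide +kernel)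
def c20499 : PP 9 3 T 0x4000000000000044000020000000000000000200080000000000001000000000000000000000000110002000000000000000000000000010000000000420 := rS 0x97548cfdaf26796d561c57005e20f06ca44b3b7bbd7305d (k8 c17796 c18346 c5519 c5333 c20435 c5559 c19356 c5522 (k8 c5369 c5811 c53 c5683 c10145 c1286 c1995 c1651 (k4 c17728 c10910 c388 c2447 (k2 c20460 c10719 k0)))) (by decide +kernel)
def c20500 : PP 9 3 T 0x10000120000000000000000200080000000000000000000000000000000000000000000000000000000000000000000000000000080020 := rS 0x3c8645b67b50ce97d97bd39f26bb4dc2e358ab62bb765ad5667c1f1fcdc263880ce601359e51e09d82040e411a82cad93948dc93983aa24ca5d (k8 c17796 c18353 c18356 c18354 c18346 c5334 c20479 c19356 (k8 c20498 c10195 c771 c435 c5340 c8467 c12653 c5209 (k8 c16665 c5526 c5524 c5523 c53 c9719 c54 c2869 (k8 c317 c318 c2918 c371 c372 c8280 c20445 c8797 (k8 c5570 c3046 c2817 c1146 c17330 c3056 c2827 c1549 (k8 c5685 c18965 c18955 c20499 c5404 c5487 c17820 c1650 (k4 c715 c2997 c17728 c388 k0))))))) (by decide +kernel)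
def c20501 : PP 9 3 T 0x20000000000000000200080000000000000000000000000000000000000000000000000000000000040000000000000000040400 := rS 0x8d22c0207eff6bc81e877b925ebf37fc481a114792cb2892ea2f3085 (k8 c18349 c18346 c18350 c17796 c18356 c18352 c5342 c5526 (k8 c5558 c5522 c17919 c2570 c5547 c5519 c5334 c5333 (k8 c5373 c5369 c17728 c10910 c19004 c2627 c19335 c9612 (k2 c2141 c8187 k0)))) (by decide +kernel)
def c20502 : PP 9 3 T 0x4000000000000050000100040000000000000000000000000000000800000000000000000000000454006000000100000080000000000000000000000000 := rS 0x78cfeca3eb8d68708aac3e7b3 (k8 c5487 c5547 c5683 c1294 c2180 c5685 c1778 c2870 (k4 c1342 c810 c5464 c5670 k0)) (by decide +kernel)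
def c20503 : PP 9 3 T 0x10000120000000000000000200080000000000000000000000000000000000000000000000000000000000000000000000000040000020 := rS 0x38996d6db7bfc29cf6345a6cf66b5557b354bf55aaf3b0c0cc970d169beb3f9c4826f5319cc021901a1c1a8f12844863d25a65020720a7d42c94da57600b2b64e5237 (k8 c20479 c19356 c20498 c10195 c771 c5209 c5446 c5397 (k8 c5396 c5398 c5448 c5340 c8467 c12653 c20480 c5342 (k8 c5560 c5561 c5558 c5559 c5526 c5522 c5373 c54 (k8 c9701 c53 c9719 c9754 c5519 c20500 c17919 c5547 (k8 c2457 c2513 c20501 c716 c8194 c715 c769 c768 (k8 c1077 c1908 c1075 c1906 c5487 c2123 c1475 c1916 (k8 c1473 c1918 c2131 c5682 c18006 c18031 c14774 c20502 (k4 c18016 c5420 c10298 c17893 k0)))))))) (by decide +kernel)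
def c20504 : PP 9 3 T 0x4000000000000010000020000000000000000200040000000000000000000000000000000100000000014110000000000000088000000000000040000420 := rS 0xe4267e13b5b6cd36aac766ad579d860664b868c61907a441a8f94894863d1d9c48e23258a40611 (k8 c5558 c54 c9694 c5342 c9734 c5562 c17314 c10737 (k8 c5560 c5561 c5559 c19356 c5526 c5522 c5374 c5369 (k8 c9701 c9754 c716 c8194 c715 c769 c768 c1077 (k8 c1908 c5487 c2180 c1475 c1918 c5683 c18016 c5570 (k4 c2188 c317 c15527 c17010 k0))))) (by decide +kernel)
def c20505 : PP 9 3 T 0x10000020000000000000000000040004000000000000000000000000000000000000000000000000000080040000000000000040000020 := rS 0x7b037b3 (k4 c5487 c1902 c5228 c18915 k0) (by decide +kernel)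
def c20506 : PP 9 3 T 0x44000000000000014000120000000000000000200000000000000000000000000000000000000000000000000000000000000000000000000000040040020 := rS 0x69b55ae306fb8c71123ff876c77588cd5aaf4baa1e81a7eb45efec55c441e91069e44a431e8ec6ab34788196712388c962901844e6014081c82672d82d2ac950a7f6056c9ca53237a5cef305d (k8 c17796 c18346 c20435 c20503 c20479 c20480 c19356 c20498 (k8 c10195 c5209 c5448 c5398 c5396 c5446 c771 c20504 (k8 c20505 c5340 c8467 c12653 c53 c9719 c5558 c54 (k8 c9694 c5342 c9734 c5562 c17314 c8797 c5650 c5526 (k8 c18913 c435 c10737 c5560 c5561 c5559 c5524 c5522 (k8 c5374 c5369 c9730 c11079 c5228 c343 c5501 c5542 (k8 c18915 c10910 c18932 c1074 c1077 c1908 c2043 c2184 (k8 c9300 c5683 c19610 c20444 c18090 c5654 c17330 c2513 (k4 c2475 c10298 c1475 c1918 (k1 c3618 k0)))))))))) (by decide +kernel)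
def c20507 : PP 9 3 T 0x44000000000000010000120000000000000000200000000000000000000000000000000000000000000000000000000000000000000000000000040040020 := rS 0x8a89c906e222c51aff8040de5ed548755eadd91cc028721c756a712392c52030888046672d82d2ac950a7f6056c9ca53237a5ced168934994b25d (k8 c17796 c18352 c18353 c18347 c18356 c18350 c20435 c20503 (k8 c20479 c20480 c19356 c20498 c10195 c5209 c5448 c5398 (k8 c5396 c5446 c771 c20504 c20505 c9734 c5650 c5558 (k8 c54 c9694 c5342 c5562 c17314 c11945 c5341 c5561 (k8 c5373 c53 c9719 c20506 c5490 c5406 c5486 c5489 (k8 c18932 c18950 c2627 c19335 c178 c2141 c2144 c12615 (k4 c3602 c9612 c2813 c17759 (k1 c345 k0)))))))) (by decide +kernel)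
def c20508 : PP 9 3 T 0x1a000020000000000000000000040000000000000000000000000000440400000100000000000000000000040002008000000040000020 := rS 0x3279351521d (k4 c5486 c5489 c17820 c18950 (k2 c2997 c3711 k0)) (by decide +kernel)
def c20509 : PP 9 3 T 0x44000000000000010000120000000000000000200000000000000000000000000000000000000000000000000000000000000000000000000000040000020 := rS 0x695decd992228d769ac55bb73e0f8dc260916c4b3b4ca7d42c94aec19671a591c460b2b0dc962901844e6014081f2729209d51265 (k8 c18353 c18356 c18354 c5340 c19356 c20498 c8467 c12653 (k8 c53 c9719 c5558 c54 c9694 c5342 c20479 c10195 (k8 c771 c9734 c5562 c20503 c17314 c8797 c5209 c5446 (k8 c5396 c5398 c5448 c20480 c20435 c5559 c20504 c20507 (k8 c317 c318 c371 c372 c5570 c2817 c1146 c2827 (k8 c1549 c17872 c3046 c20508 c5228 c5683 c18915 c1077 k0)))))) (by decide +kernel)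
def c20510 : PP 9 3 T 0x8000000000000012000020000000000000000000040004000000000000000000000000000400000000000000000000000000008000000000000040080020 := rS 0x7b037b34b34d5a7c370d562d757b55125d (k8 c17796 c18356 c5585 c5584 c5507 c5506 c435 c318 (k8 c372 c2817 c2827 c9617 c17820 c1074 c5228 c18915 k0)) (by decide +kernel)
def c20511 : PP 9 3 T 0x8000000000000012000020000000000000000200040000000000000000000000000000000400000000000000000000000000008000000000000040000020 := rS 0x692b460970d16826630c80c873b (k8 c20435 c5561 c54 c9701 c9754 c20510 c19004 c716 (k4 c8194 c769 c1908 c8156 (k1 c1918 k0))) (by decide +kernel)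
def c20512 : PP 9 3 T 0x2000000000000000000000000000000000000000000000000000000440400000110000000000000000000000000008010001008000000 := rS 0xd419abd2ec9 (k4 c5396 c1074 c1077 c2043 (k2 c9617 c2997 k0)) (by decide +kernel)
def c20513 : PP 9 3 T 0x10000120000000000000000200000000000000000000000000000000000000000000000000000000000000000000000000000040000020 := rS 0x6a77b65ed0df85aed34e2c55a7c1f1fcdc1270c5492e389fcbdecb38ad5674b119cc02290183c1a8f04894224b23cef6081039046a0b2b64e52373aa24ca5d (k8 c17796 c18353 c18356 c18354 c20479 c19356 c20498 c10195 (k8 c771 c435 c5340 c8467 c12653 c5209 c20435 c5562 (k8 c5342 c5558 c5559 c16665 c5526 c5522 c5369 c54 (k8 c9694 c53 c9719 c9734 c20503 c18913 c11945 c17314 (k8 c8797 c20511 c20509 c5547 c5549 c5588 c5590 c5591 (k8 c18049 c318 c2918 c371 c372 c2817 c1146 c18965 (k8 c2827 c1549 c5458 c20512 c18915 c5228 c5165 c17820 (k1 c5454 k0)))))))) (by decide +kernel)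
def c20514 : PP 9 3 T 0x120040000000000000000000000000000001000000000000100000000000400001000000100000000000000000000000000080020 := rS 0xe35a9fce20339804d679478276129 (k8 c19356 c5209 c16665 c5526 c5524 c5523 c53 c9719 (k4 c54 c2869 c2918 c20445 (k2 c17330 c18965 k0))) (by decide +kernel)
def c20515 : PP 9 3 T 0x120040000000000000000000000000000001000000000000140000040000400001000000100011000000000000000000000000001 := rS 0x44cde7e7132d6a7388a44d67947a876129 (k8 c19356 c5209 c5398 c5526 c5524 c5523 c5374 c9730 (k8 c9719 c20445 c8797 c6118 c17330 c2919 c809 c3604 k0)) (by decide +kernel)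
def c20516 : PP 9 3 T 0x40006000000000010000100000000000000000200040004000000001000000000000000140100000000001100000000020000000000000000000104040020 := rS 0x1efd92acb6238eedd5e8b (k8 c18350 c2988 c5571 c5341 c9734 c716 c7110 c18920 (k2 c19004 c11841 k0)) (by decide +kernel)
def c20517 : PP 9 3 T 0x200000000000000000000000000000000080000000000000000000100000000008000000000000000040000 := rS 0x16d1a451884486352ca24ba8b (k8 c18350 c17796 c18356 c18352 c435 c5561 c5558 c1918 (k4 c2937 c2084 c769 c8187 k0)) (by decide +kernel)
def c20518 : PP 9 3 T 0x4000100000000000000000000008000000000000000000000000000000000000054000000000000 := rS 0x63df (k2 c5453 c1473 (k1 c5653 k0)) (by decide +kernel)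
def c20519 : PP 9 3 T 0x10000120000000000000000200000000000000000000000000000000000000000000000000000000000000000000000000000000000020 := rS 0x55fb0cc5a3b33d52334b869a6d53f78fe7133e9c026df66b858fe036a7472b38ad2c421e058d476954db253e812b6c00f930080d0f29089048f3b4c8dd06c5429d5165d (k8 c17796 c18350 c18354 c18349 c18348 c18355 c20479 c20480 (k8 c20435 c5562 c5340 c5558 c19356 c5373 c54 c53 (k8 c20498 c8467 c5209 c10195 c12653 c5448 c5396 c5397 (k8 c5446 c10737 c435 c771 c20513 c58 c5517 c15434 (k8 c2321 c2472 c1083 c2315 c5654 c5535 c5460 c5537 (k8 c5538 c20514 c20515 c2870 c755 c12233 c17854 c13945 (k8 c2998 c20517 c20516 c1074 c2043 c1907 c20518 c17944 (k4 c9300 c715 c20383 c2123 (k1 c18006 k0))))))))) (by decide +kernel)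
def c20520 : PP 9 3 T 0x2000000000000000120000000000000000200000000000000000000000000000000000000000000000000000000000000008000000000000000000020 := rS 0xf7ac488fc7fbc99fed7b8cd5a972452c34f589abf6e6f4ab24e0131aec0c293c9a0402033183d220d47ca422438e92c8f3b4c8dd3aab8aaa567b3059b768c768b8536cd6fa2cca5d (k8 c17796 c18353 c18350 c5538 c5537 c5536 c5460 c5459 (k8 c5535 c20519 c5529 c717 c18383 c5532 c5531 c5414 (k8 c5413 c5412 c20479 c20480 c20435 c5562 c5342 c5341 (k8 c5561 c5558 c19356 c5526 c5522 c5374 c5369 c9754 (k8 c54 c53 c12626 c5353 c9756 c9759 c19416 c435 (k8 c20514 c20515 c10171 c5446 c65 c5571 c2988 c755 (k8 c18094 c19501 c17919 c12614 c1074 c1908 c2043 c2103 (k8 c18006 c20518 c5657 c3007 c18031 c450 c1336 c5582 (k1 c5683 k0))))))))) (by decide +kernel)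
def c20521 : PP 9 3 T 0x2000000000000000120000000000000000200000000000000000000000000000000000000000000000000000000000000000000000000000000000020 := rS 0x77f6206c915da2c707834f209948df660b36ed18a85 (k8 c18349 c18348 c20519 c5529 c717 c18383 c20479 c19356 (k8 c16665 c5524 c5522 c5369 c5535 c5459 c20520 c10195 (k4 c18042 c17690 c17747 c10972 k0))) (by decide +kernel)
def c20522 : PP 9 3 T 0x1000000000000000020000000000000000200000000000000000400000000000100000000000000000000000000000000000000000440000000040400 := rS 0xe0914b07a441a8f948449647 (k8 c5562 c5342 c5558 c19356 c5526 c5522 c5374 c5369 (k4 c17919 c12614 c5654 c400 k0)) (by decide +kernel)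
def c20523 : PP 9 3 T 0x5001000000000024000000000000000000000200000000000100000800040000000000140500000050014050000000000000000000000440000000000000 := rS 0x1cd2dc5b66b40162fff992d5685 (k8 c18349 c5413 c5342 c5547 c2570 c14602 c5694 c3618 (k4 c5683 c2146 c9399 c2617 (k1 c5654 k0))) (by decide +kernel)
def c20524 : PP 9 3 T 0x1200800000000000002000000000000000000000000000001000000000000000000000001000000000000000000000000080000a0 := rS 0x136d825e389c0c6e0b36f858e976ab25a7ed680ecf6a14f8587a95498055e255690d9660f79f4ffded8ca767b49da24ea85 (k8 c18349 c18354 c18356 c20435 c20519 c18383 c19356 c17690 (k8 c5224 c5358 c5442 c17829 c713 c1755 c5561 c1908 (k8 c5559 c1077 c53 c1564 c1905 c5560 c714 c1465 (k8 c1068 c5372 c1674 c17747 c5501 c5496 c5494 c5454 (k8 c5452 c5357 c20521 c5529 c717 c20479 c2202 c20523 (k4 c17854 c20522 c5680 c317 (k1 c5570 k0))))))) (by decide +kernel)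
def c20525 : PP 9 3 T 0x4000000000000004000000000000000000000000000000000000000000000000000000000000000050000000000000000000000000000000000000080020 := rS 0xb1db9b84c65 (k4 c18353 c317 c318 c5570 (k2 c1146 c5683 k0)) (by decide +kernel)
def c20526 : PP 9 3 T 0x1001000000000001000020000000000000000000000004000000000400000050000200140500000040014050000000000000000004400440000000050400 := rS 0x36cd7f1c0c7cf21c122960f488351f29 (k8 c19356 c5526 c5522 c5374 c5369 c17919 c12614 c5654 (k4 c5657 c399 c2627 c5576 (k2 c1721 c5680 (k1 c18016 k0)))) (by decide +kernel)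
def c20527 : PP 9 3 T 0x1200800000000000002000000000000000000000000000000000000000000000000000001000000000000000000000000080000a0 := rS 0xdb52bc6f36b40a2413707bd96112591c6e0b36f84fa7f4bb5592d3f6981429f0b0f5ea3b3db43bdb194ece7695498055e255690deeabda1d51285 (k8 c18349 c18356 c18354 c20519 c5413 c2103 c5561 c1908 (k8 c5559 c1077 c53 c1564 c1905 c20435 c18383 c19356 (k8 c17690 c5224 c17747 c5372 c1674 c1926 c5560 c714 (k8 c1465 c1068 c713 c5501 c5496 c5494 c5454 c5452 (k8 c5358 c5442 c20521 c5529 c717 c20479 c5562 c5342 (k8 c5558 c1755 c17829 c20524 c20525 c20526 c20523 c2201 (k4 c2627 c5465 c5657 c5680 (k1 c9399 k0)))))))) (by decide +kernel)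
def c20528 : PP 9 3 T 0x5000000000024000000000000000000000200000000000100000800040000000100160140000050014050000000000002000000000440000000000000 := rS 0xf7b2dacdf38fccdbed (k8 c5501 c5529 c5547 c755 c2512 c8355 c1756 c5507 (k1 c20523 k0)) (by decide +kernel)
def c20529 : PP 9 3 T 0x1200000000000000002000000000000000000000000000000000000000000000000000000000000000040000000000000080000a0 := rS 0x36ecb131c4251381b87c68056abd2a03218dc166df09dd8e976ab259ad36877b63b3da4ef252949804c03b3da844a9f0b0f73085 (k8 c18349 c18346 c5560 c714 c1465 c5559 c1068 c5372 (k8 c1674 c713 c53 c1564 c19356 c10195 c20435 c20519 (k8 c18383 c17690 c5224 c17747 c5496 c5495 c5494 c5454 (k8 c5452 c5357 c5912 c20521 c5529 c717 c20479 c5561 (k8 c54 c1905 c1077 c1908 c20527 c5463 c1716 c17786 (k4 c20528 c20522 c2869 c317 (k2 c1756 c5570 (k1 c5680 k0)))))))) (by decide +kernel)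
def c20530 : PP 9 3 T 0x1200000000000000002000000000000000000000000000000000000000000000000000000000000000040000000000000000000a0 := rS 0x60f679870b61b7a8ede20f3da1c1a371082cda77678cd9ad0ef6c767b49de4a528562964ba83 (k8 c18355 c17796 c18352 c18348 c18349 c19356 c10195 c20435 (k8 c20519 c18383 c17690 c5224 c17747 c5495 c5492 c5453 (k8 c5912 c5529 c717 c5528 c20479 c5522 c5373 c5372 (k8 c5369 c5811 c1674 c1926 c20529 c716 c5649 c333 (k2 c3571 c11041 (k1 c2106 k0)))))) (by decide +kernel)
def c20531 : PP 9 3 T 0x4000020000000000000000000000004000000000000000000000000020000000000000000000000000000004000000054000104000460 := rS 0x1eef37a8c0385b7883d0e0dc94a50a59419758a75 (k8 c18354 c18348 c17796 c18355 c18352 c18349 c19356 c10195 (k8 c5522 c5373 c5369 c5811 c716 c5649 c10897 c4420 (k2 c333 c2106 (k1 c3571 k0)))) (by decide +kernel)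
def c20532 : PP 9 3 T 0x20000000000000000000080000000000000000000000000000000000000000001000000000001000004000000040000100000060 := rS 0x26926611c07c7663888043203079ec1a6b3c825320b2fb1f2529 (k8 c19356 c10195 c5357 c5439 c717 c20480 c16665 c5524 (k8 c5523 c5522 c5372 c5369 c54 c9701 c53 c9730 (k8 c9754 c5332 c5517 c18025 c18114 c324 c3598 c6036 k0))) (by decide +kernel)
def c20533 : PP 9 3 T 0x20000020080000000000000000000000000000000000010000000000000000000050000000000000000000000000000000001000080020 := rS 0x8d89edfdc6e1321d228fd9a250a83 (k8 c18355 c18349 c18356 c18383 c5526 c5374 c5373 c317 (k4 c318 c20525 c5570 c20425 (k2 c5505 c18000 k0))) (by decide +kernel)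
def c20534 : PP 9 3 T 0x120000000000000000200000000000000000000000004000000000000000000000000000000000000004000000000000000000020 := rS 0x7ce040c096a71f184d629465a48723a808c1fef47e88ce711009ecd6111e91d331554acceecdf6a7cfa7f049055e255690dee1a680cc6bded8e4a520bd9ced574b039b4429dda0df3085 (k8 c18349 c18346 c20479 c20519 c5412 c5528 c5529 c20530 (k8 c20532 c5413 c20435 c18383 c717 c19356 c10195 c17690 (k8 c5224 c5450 c5492 c17747 c20531 c2103 c5561 c1908 (k8 c5559 c1077 c5340 c16665 c5358 c5442 c15711 c5501 (k8 c5495 c5912 c5532 c5531 c5414 c20480 c5562 c5560 (k8 c5558 c5523 c5372 c53 c9730 c9719 c9734 c1076 (k8 c5657 c2341 c1925 c1927 c1926 c2474 c12293 c1753 (k8 c1565 c2182 c20533 c17930 c17993 c20445 c3623 c17786 (k2 c2202 c12613 (k1 c3057 k0)))))))))) (by decide +kernel)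
def c20535 : PP 9 3 T 0x120000000000000000200000000000000000000000000000000000000000000000000000000000000004001000000000000040020 := rS 0xf902e08911fc2c7a58853ae31c0ede435ef6c7673b3d82cdbb4078dc1a4bf181c123d089f72529 (k8 c19356 c10195 c5442 c5558 c5560 c16665 c20530 c17930 (k8 c5342 c5522 c20479 c5369 c20519 c5529 c717 c5372 (k8 c20435 c18383 c17690 c5224 c5450 c20534 c448 c18025 (k8 c2617 c5412 c5528 c20532 c5357 c20521 c5562 c18049 (k4 c8617 c1716 c12655 c3056 k0))))) (by decide +kernel)
def c20536 : PP 9 3 T 0x1000000000000000000000000000000000000000000000000000000000040040000000140100000054014850000000000000000002000600000000000000 := rS 0x35d96b1703fdbff3 (k8 c5588 c2947 c3007 c400 c14602 c1327 c1721 c3618 k0) (by decide +kernel)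
def c20537 : PP 9 3 T 0x120000000000000000200000000000000000000000000000000000000000000000000000000000000004000000000000000000020 := rS 0xf1b5f6ecbf7098e21224a852a164d24cc238818ede54b7bab55e1a4f81fdad069b2466d54b8d7bdb13f9f58e5fc918ce71100864060f3d834d67904ca44a432092e76991ba755621d982cdbb4f0a258a85 (k8 c18349 c18348 c18356 c20521 c20519 c5529 c717 c18383 (k8 c5528 c5413 c5412 c20479 c20480 c20435 c5342 c5340 (k8 c5561 c5559 c19356 c16665 c5524 c5523 c5522 c5372 (k8 c5369 c54 c9701 c53 c9730 c9719 c9754 c10195 (k8 c5439 c5357 c5442 c5358 c17690 c5224 c5450 c5452 (k8 c5454 c5492 c5494 c5496 c17747 c5501 c20530 c15711 (k8 c20531 c1077 c1908 c2103 c20532 c20534 c448 c2627 (k8 c18025 c18114 c17730 c3598 c5648 c1905 c1068 c20536 (k8 c20535 c2869 c317 c20525 c8466 c5570 c5507 c17781 (k1 c5680 k0)))))))))) (by decide +kernel)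
def c20538 : PP 9 3 T 0x120000000000000000200000000000000000000000000000000000000000000000000000000000000000000000000000000080020 := rS 0xf619bcdebde0e7b6961b240e1aed358ab596e03e0f8dc7101bc4e60194896769d8a88552b3d9ed3c281c9ec06a563aa24ca5d (k8 c17796 c18353 c18356 c18354 c20537 c435 c19416 c5353 (k8 c12626 c20521 c20519 c18383 c5532 c5531 c5528 c5414 (k8 c5412 c20435 c5559 c19356 c53 c9719 c5811 c54 (k8 c2869 c318 c371 c372 c20514 c8797 c2817 c1146 (k8 c2827 c1549 c3057 c3056 c20512 c5334 c18923 c5649 (k4 c5165 c1998 c333 c5492 (k2 c5657 c397 k0))))))) (by decide +kernel)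
def c20539 : PP 9 3 T 0x1000000000000000000000000000000000000000000000100000000000000000000000000000000000000000000000000000002004440000000000000 := rS 0x734b (k2 c5334 c399 (k1 c5654 k0)) (by decide +kernel)
def c20540 : PP 9 3 T 0x20000100000000000000000200080000000000000000000000000000000000001000000000000000010000000001000000000000040020 := rS 0x6e136dc3e2339804520312c5442b3 (k8 c5532 c5528 c5414 c5559 c54 c9694 c53 c9719 (k4 c9734 c5517 c9399 c18060 (k2 c5666 c2813 k0))) (by decide +kernel)
def c20541 : PP 9 3 T 0x120000000000000000200000000000000000000000000000000000000000000000000000020000000000000000000000000000020 := rS 0x1b84db70f8e296495a8fce22339804520335ca44a111bc5442b3da784769f4dec0ac13 (k8 c20538 c20537 c19416 c5397 c5448 c10737 c20521 c20519 (k8 c5532 c5528 c5414 c20479 c5558 c5559 c19356 c5523 (k8 c54 c9694 c53 c9719 c9734 c2870 c2823 c20445 (k8 c20539 c20540 c5654 c2472 c19143 c18060 c5666 c2813 k0)))) (by decide +kernel)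
def c20542 : PP 9 3 T 0x120000000000000000200000000000000000000000000000000000000000000000000000000000000000001000000000000000020 := rS 0x1b84db70f8e296b538c484673008a4060f48834d68f9489422378a885660b36ed3c23b4dec0ac13 (k8 c20538 c20537 c19416 c5397 c10737 c20521 c20519 c5529 (k8 c717 c5532 c5528 c5414 c20479 c5558 c5559 c19356 (k8 c5526 c5523 c5522 c5374 c5369 c54 c9694 c53 (k8 c9719 c9734 c17964 c755 c20445 c20540 c5654 c2472 (k4 c19143 c18060 c5666 c2813 k0))))) (by decide +kernel)
def c20543 : PP 9 3 T 0x120000000000000000200000000000000000000000000000000000000000000000000000000000000000000000000000000000020 := rS 0x7ff18e07d4b241f4263bc9a04ade1059b7683707a441a8f948449647 (k8 c5562 c5342 c5558 c19356 c5526 c5522 c5374 c5369 (k8 c20479 c20519 c5529 c717 c20521 c20537 c12626 c5353 (k8 c10737 c20538 c20541 c20542 c5334 c20539 c5654 c5576 (k2 c15527 c5670 k0)))) (by decide +kernel)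
def c20544 : PP 9 3 T 0x1000000000000000000200000000000000000000040004000100000000000000000400000000000000000000000040000000000002000200000000000000 := rS 0xf280bd5eed669b3467de46f84ea8b (k8 c18350 c18354 c5534 c5381 c5165 c5492 c5495 c5496 (k4 c17880 c397 c2474 c2146 (k2 c5657 c451 k0))) (by decide +kernel)
def c20545 : PP 9 3 T 0x20000000000000000200000000000000000000000000000000000000000000000000000000000000000002000200000000000020 := rS 0xd96c0e1f1918536c96a6c1a7ef6bf7f6af380b45efecf19fdbee01f38fc23b3da1d220d3ca3e521125cee97a0f9a14ba59 (k8 c18352 c17796 c18349 c5588 c20543 c12110 c20435 c5342 (k8 c5558 c19356 c5526 c5524 c5522 c5374 c5373 c5372 (k8 c154 c5534 c2617 c399 c400 c2947 c10493 c5576 (k8 c20544 c5498 c5501 c5502 c5540 c18382 c19198 c10298 (k8 c20379 c3062 c5225 c5689 c5396 c5397 c5445 c2997 (k4 c2472 c713 c2042 c2043 (k1 c10900 k0))))))) (by decide +kernel)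
def c20546 : PP 9 3 T 0x40001000000000000000000000000000000000000040000000100100000000040000040004000000000000000100000000000000000041108000000050040 := rS 0x1e371b847cd41b110765b45965125d (k8 c17796 c18356 c18352 c18350 c2042 c492 c12615 c5654 (k4 c390 c389 c1483 c1662 (k2 c5576 c5691 k0))) (by decide +kernel)
def c20547 : PP 9 3 T 0x400000000010000000000000000000000000000004000100000000001000000000014100000004000510000000000000000000000084000000000020 := rS 0x3aa81825d9a350f275e223 (k8 c9734 c5811 c1480 c8484 c1621 c2330 c20460 c5653 (k2 c3617 c1996 (k1 c2320 k0))) (by decide +kernel)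
def c20548 : PP 9 3 T 0x2001000000000010000020000000000000000200000000000000000000000040000040000000000004000000000000000000000002000000000000000020 := rS 0x1932b8e86e330890c7b1d9da3427f31cb2536954c81cc3b0a5ca5a2fd67f7f4091479e50e7b (k8 c5372 c5373 c5524 c5526 c5374 c20543 c19198 c5543 (k8 c5542 c5501 c19356 c12110 c5225 c5445 c713 c5447 (k8 c5446 c5397 c5396 c20545 c5588 c5564 c5381 c20435 (k8 c5341 c5560 c5561 c5558 c20546 c20547 c5654 c10737 (k2 c11859 c10195 k0))))) (by decide +kernel)
def c20549 : PP 9 3 T 0x2001000000000010000020000000000000000200000000000000000000000040000000000000000004000000000000000000000002000000000000000020 := rS 0xd31a0c4663a1f38dbd02efc05a27b43a44f28f94ced1b13d03ff3083 (k8 c18355 c18346 c3007 c20543 c5382 c5381 c20435 c19356 (k8 c5526 c5524 c5374 c5373 c5372 c5501 c5502 c19198 (k8 c18001 c20548 c207 c2946 c2947 c492 c1678 c5653 (k2 c2088 c442 k0)))) (by decide +kernel)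
def c20550 : PP 9 3 T 0x1000000000010000020000000000000000200000000000000000000000044000000000000000000000000000000000000000002000000000000000020 := rS 0x141edb99c3afd7a6c9525bf6aae220107a1c1a2523cee274bd07ccca6942a0cb25d (k8 c17796 c18352 c18355 c18349 c18347 c18353 c5588 c20543 (k8 c12110 c5382 c20435 c5562 c5559 c5522 c5373 c5369 (k8 c53 c9730 c10863 c20549 c20383 c10768 c5228 c5657 (k4 c5405 c5486 c5487 c19230 (k2 c18950 c15293 (k1 c18495 k0)))))) (by decide +kernel)
def c20551 : PP 9 3 T 0x10000020000000000000000200000000000000000000000080000000000000000000000000000000000000000002000000000000000020 := rS 0xb47f4576efd226c8b7ed43844871d9da34274bd07cd662345965125d (k8 c17796 c18356 c18352 c18350 c9734 c2895 c5588 c20543 (k8 c12110 c5564 c5381 c20435 c5341 c5561 c5558 c5373 (k8 c5498 c2101 c5228 c12615 c5405 c19230 c18480 c504 (k2 c5685 c2572 k0)))) (by decide +kernel)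
def c20552 : PP 9 3 T 0x1000000000010000020000000000000000200000000000000000000000000000000000000000000000000000000000000000002000000000000000020 := rS 0x1f5a455fbb7d902fdaf27b8a4061125cee97a0f9acc4685 (k8 c18349 c9734 c2895 c5588 c20543 c12110 c20435 c5342 (k8 c5558 c54 c9694 c20551 c20550 c5540 c2530 c5228 (k4 c16818 c5405 c18480 c5685 (k2 c2532 c11945 k0)))) (by decide +kernel)
def c20553 : PP 9 3 T 0x1000000000000000000000000000000000000040000000100000000000008000000004000000000000000000000000000000000000110000000000000 := rS 0x6e3b (k2 c448 c2534 (k1 c5654 k0)) (by decide +kernel)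
def c20554 : PP 9 3 T 0x60000220000000000000000200000004000000000000000045000000000000000000000000000000000000000000000000000000000000 := rS 0x695e660ebf5e88712d2d53b3f6a14d265 (k8 c18353 c18347 c18349 c18382 c18383 c5531 c12110 c5559 (k8 c5373 c5657 c2338 c1998 c17965 c10145 c5649 c19311 k0)) (by decide +kernel)
def c20555 : PP 9 3 T 0x1000000000000000020000000000000000200000000000000000000000000000000000000000000000000000000000000000002000000000000000020 := rS 0x715aab962fe0e110365b7b3cd9e35ef7b767b755ed1e27300a1d226b94844871d9da34274bd02cc463945965125d (k8 c17796 c18356 c18352 c18350 c20545 c9734 c2895 c20543 (k8 c12110 c5564 c5381 c20435 c5341 c5561 c5558 c19356 (k8 c5523 c5374 c5373 c53 c9719 c5811 c20552 c5413 (k8 c17731 c18383 c18382 c5165 c5450 c5453 c20553 c20554 (k8 c2101 c2103 c12615 c5649 c504 c2177 c336 c2573 (k2 c2988 c17856 k0)))))) (by decide +kernel)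
def c20556 : PP 9 3 T 0x2000000000000000220000000000000000000000000000000000000000000000000204000000000000000000000000000000000000000000000000000 := rS 0xe33f9ed227947a06267d63b85be8b (k8 c18350 c5538 c5460 c5535 c5566 c5382 c5380 c5526 (k4 c5524 c5374 c5372 c2998 (k2 c1662 c3610 k0))) (by decide +kernel)
def c20557 : PP 9 3 T 0x8000000000000000000020000000000000000200000000000000000000000004000000000000000000000000000000000000000000000000000000000020 := rS 0x1eded2d3d6000f43844864b9d84e97a0 (k8 c20543 c12110 c5564 c20435 c5342 c5561 c5558 c5373 (k4 c5369 c20379 c19746 c19004 (k2 c5502 c5657 (k1 c2101 k0)))) (by decide +kernel)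
def c20558 : PP 9 3 T 0x4006000000000000000020000000000000000000000004000000100000000004000000140000000000000000100000000000000000000010000000000000 := rS 0x326b0c7bece3ba1cf32968e60ea85 (k8 c18349 c18354 c18346 c5459 c19356 c5524 c5373 c10131 (k4 c17952 c5453 c1474 c5689 (k2 c5653 c2185 k0))) (by decide +kernel)
def c20559 : PP 9 3 T 0x4002000000000000000220000000000000000000040004000000100000000004000000200000000000000000000000000000000000000010000000000000 := rS 0x7bbd7db027133a027f6b9ed227947a06267d63b85be8b (k8 c18350 c5538 c5460 c5535 c5566 c5382 c5380 c5526 (k8 c5524 c5374 c5372 c206 c2998 c3072 c20556 c3610 (k4 c13843 c5543 c2340 c2195 (k1 c5657 k0)))) (by decide +kernel)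
def c20560 : PP 9 3 T 0x2000000000000000020000000000000000200000000000000000000000004000000000000000000000000000000000000000000000010000000000020 := rS 0xee5a2b91463df69356521121c7676814684e97e348e80f3ef2ca24ba8b (k8 c18350 c17796 c18356 c18352 c20557 c5524 c20543 c5374 (k8 c17754 c12110 c5564 c5381 c5380 c20435 c5341 c5561 (k8 c5558 c19356 c20559 c20558 c5496 c1918 c2937 c20517 (k2 c8187 c5912 (k1 c9931 k0))))) (by decide +kernel)
def c20561 : PP 9 3 T 0x20000000000000000200000000000000000000000004000000000000000000000000000000000000000002000000000000000020 := rS 0x100223547cd2671fdff927b81cae34f782652111e90502133ee83e63bf03150a5d (k8 c17796 c18349 c18348 c20555 c5456 c5588 c20543 c5566 (k8 c5564 c5380 c5340 c5560 c5558 c19356 c16665 c20557 (k8 c20560 c435 c1617 c501 c10195 c3007 c5358 c13267 (k4 c17899 c12613 c141 c441 (k2 c8707 c3067 k0))))) (by decide +kernel)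
def c20562 : PP 9 3 T 0x2000000000000000000000000000000000200000000000000000000000008000000080000000000000000000101000000000000200000000000045100 := rS 0xe372b8d062436382d8a85 (k8 c18349 c18348 c2530 c5535 c5561 c1918 c2937 c20517 (k2 c2535 c1617 (k1 c18042 k0))) (by decide +kernel)
def c20563 : PP 9 3 T 0x20000000000000000200000000000000000000000000000000000000000000000000000000000000000002000000000000000020 := rS 0x67778eed36ab5fde44803dfdaf2f1b85a3e007a1d220d3c826533b40a34274bd0660ea85 (k8 c18349 c18354 c18346 c20543 c12110 c5564 c5381 c5380 (k8 c20435 c19356 c16665 c5524 c5522 c5374 c5373 c5369 (k8 c20555 c5459 c5460 c17754 c20561 c5540 c156 c451 (k8 c450 c18434 c2145 c3072 c20562 c10131 c5689 c17952 (k1 c5453 k0))))) (by decide +kernel)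
def c20564 : PP 9 3 T 0x200000000000100000000000000000000040000000000000000000110000000000000000020000000040020 := rS 0xc995d8a5d (k4 c17796 c18348 c435 c17899 (k1 c10195 k0)) (by decide +kernel)
def c20565 : PP 9 3 T 0x2000020080000000000000200000000000000000000000000000000000000000000000000000000000000000000000000000000000020 := rS 0xf937f6e363fb1cbe631291d027d0f6d4d80a2483e268f4883427a0 (k8 c20543 c5564 c5522 c5374 c5526 c5382 c5369 c20563 (k8 c17964 c717 c5529 c718 c5566 c5380 c5562 c5559 (k8 c9754 c5439 c5357 c5358 c20493 c17831 c2331 c18495 (k1 c17861 k0)))) (by decide +kernel)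
def c20566 : PP 9 3 T 0x80000000000000000000220000000000000000200000004000000000000000004000000000000000000000000000000000000000000000000000000000000 := rS 0x2d917da87488448e8d09d2cb2892ea2d0685 (k8 c18349 c18355 c18350 c17796 c18356 c18352 c12110 c5564 (k8 c5381 c5562 c5558 c5374 c5373 c17809 c18619 c14422 (k1 c8187 k0))) (by decide +kernel)
def c20567 : PP 9 3 T 0x2000020000000000000000200000000000000000000000000000000000000000000000000000000000000000000000000000000000020 := rS 0x6fb8c6cc62b64d3623948f5661e38b2f6df379cec8e25da9b0144907a3d220d09c4f4085 (k8 c18349 c20543 c5382 c5564 c5522 c5374 c5526 c5369 (k8 c20563 c17964 c717 c5529 c5559 c5562 c20435 c2530 (k8 c20566 c18495 c5420 c5571 c718 c2321 c5560 c19356 (k8 c9734 c5397 c20565 c10195 c770 c771 c2619 c2331 (k1 c20439 k0))))) (by decide +kernel)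
def c20568 : PP 9 3 T 0x20000000000000000200000000000000000000000000000000000000000000000000000000000000000000000000000000000020 := rS 0x78325b167fb367b6f9ed4d8f305126961389e8276471283d220d47ca58a85 (k8 c18349 c18348 c19356 c5526 c5522 c5374 c5369 c5559 (k8 c5562 c20435 c20543 c5382 c5564 c12110 c20563 c17964 (k8 c2530 c717 c5529 c20566 c18495 c19230 c5228 c5543 (k4 c20567 c5209 c5225 c13267 k0)))) (by decide +kernel)
def c20569 : PP 9 3 T 0x2000000000000000020000000000000000000000000000000000000000000000000000000000000000000000000000000000000000000000000000820 := rS 0x36aa9d6cf401354847da27676db24fdda95c426ca58044729acb1d8a85 (k8 c18349 c18348 c5535 c20568 c19356 c9734 c53 c5516 (k8 c717 c2417 c770 c5529 c2552 c10195 c17849 c13267 (k8 c5570 c5543 c17612 c6005 c317 c12617 c19230 c5228 (k2 c5682 c5475 (k1 c7110 k0))))) (by decide +kernel)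
def c20570 : PP 9 3 T 0x2000000000010000020080000000000000000040000000000000000000000000000000000000000000000000000000000000000000000000000000020 := rS 0x69b5c82f68e0c9ea3f239267407256cfe7e3d8c4f401313ed8c60f3da441a7904ca6b23b63b84720b2f9f4fe573bf7da3ed08b3916592e9d58a85 (k8 c18349 c18348 c18354 c17796 c18352 c18350 c13267 c17612 (k8 c5543 c5459 c17747 c5356 c5353 c5358 c5442 c5439 (k8 c20569 c5534 c5460 c5535 c5456 c20568 c19356 c16665 (k8 c5524 c5522 c5374 c5372 c5369 c9754 c17849 c5570 (k8 c317 c12635 c12633 c17943 c17754 c11668 c19230 c16820 (k8 c10972 c5228 c192 c191 c407 c4729 c10693 c12681 (k4 c20053 c13117 c2186 c2082 (k1 c17204 k0)))))))) (by decide +kernel)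
def c20571 : PP 9 3 T 0x2000000000000000020080000000000000000040000000000000000000000000000000000000000000000000000000000000000000000000000000020 := rS 0x3858c1b1d9a64dbb4ef97cc7110083cf60d359e6523b63a75a2394d82d8a85 (k8 c18349 c18348 c20569 c5536 c5534 c5459 c5458 c5535 (k8 c5456 c19356 c5524 c5523 c5522 c5372 c5369 c53 (k8 c9730 c9754 c5439 c17747 c20570 c5529 c5530 c18383 (k4 c15975 c3598 c18057 c10972 (k1 c1459 k0))))) (by decide +kernel)
def c20572 : PP 9 3 T 0x2000000000000000020000000000000000000040000000000000000000000000000000000000000000000000000000000000000000000000000000020 := rS 0x38cfe371e07c7e4adaf8cfb13d004c22b5139c482814ced8adb0c988ce6013da1d227947ca6b2c7708e5be0b (k8 c20569 c5538 c5534 c5460 c5535 c20568 c19356 c5526 (k8 c5524 c5374 c5373 c5372 c53 c9719 c9734 c20571 (k8 c5209 c10195 c20404 c5447 c12626 c12628 c5571 c5570 (k8 c5422 c719 c317 c12635 c12633 c5566 c17754 c17731 (k8 c16820 c407 c2590 c5655 c8484 c2764 c1493 c3610 k0))))) (by decide +kernel)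
def c20573 : PP 9 3 T 0x4000000000000000020000000000000000100080000000000000400000000000140000040000000000000000010000000008000000100000000050000 := rS 0xfee31e0fc947b48834f28f948dd0241 (k8 c12628 c12626 c5518 c19356 c5526 c5524 c5522 c5374 (k4 c5372 c17919 c407 c5655 (k2 c18213 c2764 (k1 c3610 k0)))) (by decide +kernel)
def c20574 : PP 9 3 T 0x2000000000010000020040000000000000000000000000000000000000000000000000000000000000000000000000000000000000000000000020020 := rS 0xe38aacd6acb380904e011480d23594eb8536df23a646f4a4fa876129 (k8 c19356 c5209 c5398 c5448 c20572 c5518 c20480 c5520 (k8 c5538 c5536 c5460 c5458 c20568 c5374 c54 c9694 (k8 c53 c2859 c720 c719 c20349 c17684 c2760 c3048 (k2 c5731 c3620 k0)))) (by decide +kernel)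
def c20575 : PP 9 3 T 0x2000000000000000020000000000000000000000000000000000000000000000000000000000000000000000000000000008000000000000000050020 := rS 0x1e33ec4f40913cd658ee11cb7c174a (k8 c20572 c20569 c5538 c5534 c5460 c5535 c20568 c5524 (k4 c5374 c12635 c12633 c5566 (k2 c17754 c20573 k0))) (by decide +kernel)
def c20576 : PP 9 3 T 0x100000000000000000000000000000000000000000000000000000000000000000000000000000000080020 := rS 0x6d84da1 (k4 c5564 c317 c5212 c5570 k0) (by decide +kernel)
def c20577 : PP 9 3 T 0x2000000000000000020000000000000000000000000000000000000000000000000000000000000000000000000000000008000000000000000000020 := rS 0xf9b8e2bb759ad768cb380904ea14f8436193008a4069109d65c29b6f87c8f4a (k8 c20572 c5520 c5517 c5538 c5536 c5460 c20568 c20576 (k8 c5374 c54 c9694 c53 c5353 c19416 c20575 c5448 (k8 c5398 c2859 c720 c719 c20349 c20574 c1094 c2760 (k4 c5571 c3048 c5731 c17766 (k1 c5920 k0))))) (by decide +kernel)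
def c20578 : PP 9 3 T 0x2000000000000000020000000000000000000000000000000000000000000000000000000000000000000000000000000000000000000000000000020 := rS 0xd9ec76ddf3f97c0d922bf8c6f4a05b458e6307a441a7904ca4fba009d658a85 (k8 c18349 c18348 c20568 c20576 c12635 c5566 c19356 c16665 (k8 c5524 c5522 c5374 c5369 c9754 c5535 c5459 c20569 (k8 c20572 c5518 c17754 c20577 c10195 c18042 c5439 c5358 (k4 c17747 c6060 c17943 c19230 (k1 c10972 k0))))) (by decide +kernel)
def c20579 : PP 9 3 T 0x80000020080000000000000000000000000000000000000000000000000000000000000000000000000000000000000000000000000020 := rS 0x13b0f8de95b1da98ce601949f74013acf84be7f (k8 c5358 c5439 c20578 c20568 c20576 c12635 c5566 c19356 (k8 c53 c9719 c9754 c17731 c17943 c5225 c6642 c5517 (k2 c18477 c20489 k0))) (by decide +kernel)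
def c20580 : PP 9 3 T 0x1000020080000000000000000000000000000000000000000000000000000000000000000000000000000000000000000000000000020 := rS 0x2761f1bd2b6be2f7ca5027dd004eb3e1db9d512c5 (k8 c18348 c18356 c18354 c20579 c20578 c20568 c20576 c12635 (k8 c5566 c5380 c19356 c17989 c5226 c20392 c9025 c6642 (k2 c5517 c18477 (k1 c20489 k0)))) (by decide +kernel)
def c20581 : PP 9 3 T 0x20080000000000000000080000000000000000000000000000000000000000000000000000000000000000000000000000000020 := rS 0xf423f3f74ec8e0b1480d220994e802759dbed767b0 (k8 c20580 c18631 c17690 c20579 c20568 c20576 c12635 c19356 (k8 c16665 c5374 c54 c9694 c5516 c5520 c18477 c5229 (k4 c18955 c18513 c16761 c16757 k0))) (by decide +kernel)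
def c20582 : PP 9 3 T 0x20000000000000000000000000000000000000000000000000000000000000000000000000000000004000000000000000000020 := rS 0x80241c0ed5aaf66aa440370e3d816325507c36f32dce9fdeff6c062a4925c0dc3f2a581fc7b3daa64c3b0dbb1cbe77c908e2201079ed0e91069acf28f04ca51be189e80275942974b27562a25068b (k8 c18350 c18355 c18356 c18348 c18354 c18352 c17796 c18349 (k8 c20568 c20576 c12635 c5382 c20578 c5381 c19356 c16665 (k8 c5526 c5524 c5523 c5522 c5374 c5373 c5372 c5369 (k8 c53 c9730 c9734 c10195 c5912 c5439 c5357 c20579 (k8 c20580 c5445 c5447 c17690 c18631 c20047 c713 c20581 (k8 c5168 c13896 c20389 c5546 c5588 c5590 c5592 c17809 (k8 c18955 c3613 c5228 c20383 c5325 c5475 c20418 c13322 (k8 c10693 c18536 c10900 c18532 c8484 c5650 c169 c4454 (k4 c1286 c2127 c493 c8331 (k2 c17224 c20401 (k1 c3768 k0))))))))))) (by decide +kernel)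
def c20583 : PP 9 3 T 0x40000020000000000000000000040000000000000000000000000000000000000000000000000000000000000000000000000000000020 := rS 0x77bdd3bf6ed3e6e043ca74013acf872656 (k8 c20582 c5353 c20578 c20568 c20576 c12635 c19356 c5373 (k8 c20404 c5591 c5231 c18382 c20351 c20392 c5165 c19313 k0)) (by decide +kernel)
def c20584 : PP 9 3 T 0x60000020000000000000000000000000000000000000000000000000000000000000000000000000000000000000000000000000010020 := rS 0x138949473008a4060d47c4f4013ac87e9421 (k8 c5528 c20583 c5517 c20568 c20576 c12635 c5382 c5526 (k8 c5522 c54 c9694 c53 c9719 c17919 c17289 c353 (k1 c5651 k0))) (by decide +kernel)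
def c20585 : PP 9 3 T 0x60000020000000000000000000000000000000000000000000000000000000000000000000000000000000000000000000000000000020 := rS 0x19627087b8022901d672656 (k8 c20582 c5353 c20568 c54 c9694 c53 c20392 c20584 (k2 c2859 c20349 (k1 c20376 k0))) (by decide +kernel)
def c20586 : PP 9 3 T 0x40000020000000000000000000000000000000000000000000000000000000000000000000000000000000000000000000000000020020 := rS 0x406064bf9115228d89e8027599dd2b6a8b (k8 c18350 c20585 c20583 c18477 c20568 c20576 c12635 c5382 (k8 c5381 c5374 c2966 c18513 c5546 c5550 c5592 c18698 k0)) (by decide +kernel)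
def c20587 : PP 9 3 T 0x40000000000000058000000000000000000000000000000000000000000008000000000000000000400000000000000000000000000000000000000000000 := rS 0x5ac555efd (k4 c5405 c5406 c3010 c2572 (k1 c5685 k0)) (by decide +kernel)
def c20588 : PP 9 3 T 0x4000000000000040000020000000000000000000000000000000000000000000000000000000000000000000000000000000000000000000000000000020 := rS 0x5a1b22aab8ebfde45b5499dfaaf56ec8e71100a1d226b46cef6bf30591d664a08d281b13d023c27591480d066932a151798 (k8 c18346 c18350 c18349 c18353 c18347 c18355 c54 c9694 (k8 c20568 c20576 c5526 c12635 c5382 c5522 c20583 c20586 (k8 c17919 c2455 c5520 c5516 c17818 c20585 c18477 c5381 (k8 c5523 c5374 c5373 c53 c9730 c9719 c5229 c9614 (k8 c5406 c5405 c5487 c5489 c715 c17728 c20587 c555 (k4 c15411 c15394 c3601 c5685 (k1 c2610 k0))))))) (by decide +kernel)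
def c20589 : PP 9 3 T 0x48000020000000000000000000000000000000000000000000000000000000000000000000000000000000000000000000000000000020 := rS 0x1686c382ad52677eab4e711008a4068735a34df13d004eb20b9dd2b6a118eac606fff72150689459a4cb98 (k8 c18346 c18353 c18347 c18350 c18356 c18355 c18349 c20588 (k8 c5586 c5508 c5506 c5504 c20586 c20585 c20583 c18477 (k8 c5516 c20568 c20576 c12635 c5382 c5565 c5381 c5523 (k8 c5373 c54 c9694 c53 c9730 c9719 c5490 c5405 (k4 c5487 c5489 c15411 c17895 (k2 c3601 c16325 (k1 c2610 k0))))))) (by decide +kernel)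
def c20590 : PP 9 3 T 0x1000000000000054000000000000000000000100000004000000000000000000000000000000002100000000000000000000000000080000010000000000 := rS 0xd8995625 (k4 c17684 c1344 c5651 c19296 (k1 c2863 k0)) (by decide +kernel)
def c20591 : PP 9 3 T 0x40000020000000000000000000000000000000000000000000000000000000000000000000000000000000000000000000000000000020 := rS 0x55199faad38c516aa9213c8b7b357915631df72cfe64a08ed7db3b2382e94f11480d0e9106a3d1b13d004eb28b2ca24bb98 (k8 c18346 c17796 c18356 c18352 c18350 c20568 c20576 c12635 (k8 c5382 c5381 c5526 c5522 c5374 c5373 c54 c9694 (k8 c5811 c20583 c5516 c5520 c18477 c18450 c20585 c20586 (k8 c17919 c17818 c2455 c20588 c5504 c5506 c5582 c5584 (k8 c20589 c20488 c17728 c12615 c2447 c20590 c5685 c3048 (k4 c3053 c1241 c19392 c5682 (k1 c2123 k0))))))) (by decide +kernel)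
def c20592 : PP 9 3 T 0x20000000000000000000080004000000000000000000000000000000000008000000000000000000000000000000000000000020 := rS 0x3445570760667789cc0287469bd62add9bdc941138ed81b13d023c275945a24d265 (k8 c18353 c18347 c18356 c18350 c20568 c20576 c5526 c12635 (k8 c5382 c5522 c20591 c5571 c719 c17919 c5333 c19230 (k8 c5573 c5421 c5565 c5381 c5373 c53 c9719 c5811 (k4 c2123 c2199 c2121 c3602 (k2 c461 c5649 (k1 c1078 k0)))))) (by decide +kernel)
def c20593 : PP 9 3 T 0x20000000000000000000080004000000000000000000000000000000000000000000000000000000000000000000000000000020 := rS 0x1008e4508a6d0e10df81b55aa5e45b257b5eef188a1d220d35a3d1a6f89acd6aadd9ed74013ac9cc021138ed91659449750b98 (k8 c18346 c18349 c17796 c18356 c18352 c18350 c20591 c5571 (k8 c719 c53 c9719 c20568 c20576 c12635 c17731 c19230 (k8 c5573 c5422 c5574 c5382 c5565 c5381 c5526 c5523 (k8 c5522 c5374 c5373 c9730 c5811 c5333 c18450 c17919 (k8 c20488 c17728 c2447 c20592 c19296 c5682 c10701 c5649 (k4 c2552 c3685 c3604 c12615 (k2 c9222 c2139 k0))))))) (by decide +kernel)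
def c20594 : PP 9 3 T 0x20000000000000000000000004000000000000000000000000000000000000000000000000000000000008100000000000000020 := rS 0x1aaaf4b8c084380d3d06e1f0586407131d8d53ea14aec0accb58ad55ad7718ffc5f3f66cf6bb6398074013a5ca6b3e142a0d165d (k8 c17796 c18350 c18355 c18349 c20578 c20568 c19356 c20593 (k8 c20576 c12635 c53 c9719 c20591 c17731 c19230 c5228 (k8 c17809 c5168 c5576 c5466 c5465 c5573 c5422 c5421 (k8 c5420 c20582 c19416 c5446 c5398 c5448 c435 c10737 (k8 c5382 c54 c9701 c2588 c2590 c2592 c18369 c18915 (k4 c5654 c2595 c2475 c1074 (k2 c1078 c2779 (k1 c8160 k0)))))))) (by decide +kernel)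
def c20595 : PP 9 3 T 0x20000000000000000000000004000000000000000000000000000000000000000000000000000000000000100000000000000020 := rS 0x380929d8ac706c1e21828963bd815966cb5abdfdf027fa36268747a4602df71f8be7ecd9ed76c7300e80274b94d67c28541a2f3089 (k8 c18356 c18346 c18350 c18355 c18349 c20578 c20568 c19356 (k8 c20593 c20576 c12635 c53 c9719 c20591 c17731 c19230 (k8 c5228 c17809 c5168 c5466 c6120 c5502 c5374 c5526 (k8 c5373 c5382 c5381 c5544 c18001 c18000 c5498 c5422 (k8 c5420 c5574 c20582 c19416 c10737 c20594 c16820 c1936 (k8 c718 c771 c5658 c15434 c1083 c513 c6118 c1484 k0)))))) (by decide +kernel)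
def c20596 : PP 9 3 T 0x20000000000000000000000004000000000000000000000000000000000000000000000000000000000000000000000000000020 := rS 0x6c4b1991c883ff177fe6ff67bf5e6d155fb2967b43a44f28f94f8476c93098f269b4aa676056d9ed76da009d64e60145a0d0a65 (k8 c18353 c18349 c18355 c18350 c53 c9719 c20568 c20576 (k8 c12635 c20591 c17731 c19230 c20582 c19416 c5447 c5446 (k8 c5397 c5353 c9754 c9759 c10171 c10737 c20578 c19356 (k8 c5526 c5524 c5374 c5373 c5372 c20593 c5228 c11079 (k8 c5501 c5540 c5542 c5543 c5544 c17809 c19198 c5168 (k4 c5576 c20595 c2972 c389 (k2 c460 c20008 (k1 c20547 k0)))))))) (by decide +kernel)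
def c20597 : PP 9 3 T 0x20000000000000000000000000000000000000000000000000000000000000000000000000000000000004000000000000000020 := rS 0x1fa1e367b415b3daedb4013ac9cc021b7ad2e7485 (k8 c18349 c20596 c18477 c5477 c5475 c53 c9719 c20568 (k8 c20576 c12635 c20591 c17731 c19230 c16820 c18442 c717 (k2 c718 c2552 (k1 c19192 k0)))) (by decide +kernel)
def c20598 : PP 9 3 T 0x20000000000000000000000000000000000000000000000000000000000000000000000000000000000000000000000000000020 := rS 0x667eaa9ec1f23927e64a8e52de73a08ed55ab5589c76da009d641a877888ce6012ca15165d (k8 c17796 c18350 c18349 c18352 c53 c9719 c9734 c5811 (k8 c5373 c5522 c20568 c20576 c12635 c20591 c5571 c5421 (k8 c5422 c5573 c17731 c719 c20596 c5325 c18477 c12681 (k8 c20597 c5546 c192 c191 c2590 c13107 c13322 c13351 (k2 c19242 c2123 k0))))) (by decide +kernel)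
def c20599 : PP 9 3 T 0x4000000000000080000000000000000000000100040000000100201000085080000000000000000005001100000000000080000000111540000000000000 := rS 0x19ec94af7daad6190fbc69b68f819acb (k8 c5420 c2072 c5654 c5459 c5536 c6706 c5655 c405 (k4 c406 c2996 c5492 c17788 (k2 c4535 c1770 (k1 c18127 k0)))) (by decide +kernel)
def c20600 : PP 9 3 T 0x44000000000000080000000000000000000000100040000000000201000081000000000000000000005001100000010000080000002110040000000048100 := rS 0x788afe11d0f40e1194bd9fe39 (k8 c3718 c3006 c513 c19585 c10107 c871 c3031 c20599 (k4 c5456 c10737 c5168 c17930 k0)) (by decide +kernel)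
def c20601 : PP 9 3 T 0x40001000000000080000210000000000000000100040000000100000000000000000000040000000000000000000000000080000000000000000000000000 := rS 0x4aa5fbec96a181afb13b9ffc59240a34de7d38a7d97b3629d51689 (k8 c18356 c18350 c18354 c18348 c19230 c5420 c5572 c5571 (k8 c5566 c5565 c5381 c5380 c5215 c5168 c5358 c5356 (k8 c12830 c5465 c16071 c17987 c2063 c17880 c1639 c1589 (k1 c5678 k0)))) (by decide +kernel)
def c20602 : PP 9 3 T 0x40000000000000000000200000000000000000000040008000000000000001000000000000000000000000000000000000080000000400000000000000020 := rS 0x19ec94af7daad6190f87be370f819ad14d8d8320318bd53aab8aa655209099f7decbdb6d1a64194c70230205bfc91592583b3a452ca2d065d (k8 c17796 c18355 c18350 c18352 c5326 c20598 c6008 c12627 (k8 c17561 c5660 c3006 c150 c12930 c10107 c12681 c19585 (k8 c10205 c2082 c5211 c20351 c5420 c17287 c5566 c5564 (k8 c16665 c5531 c5530 c5414 c5413 c5412 c5477 c5476 (k8 c54 c9701 c20600 c2328 c1481 c2329 c20601 c5460 (k8 c6706 c10315 c5655 c405 c406 c2996 c5492 c17788 (k2 c4535 c1770 (k1 c18127 k0)))))))) (by decide +kernel)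
def c20603 : PP 9 3 T 0x44002000000000080000000000000000000000100040000000100201000081000000000000000000005001100000000000000000004500000000000000000 := rS 0x33d9295efb55ac321f0f7c6cd4db85a2cb58905fe48 (k8 c5660 c3006 c10205 c5421 c5420 c5459 c5460 c5536 (k8 c5537 c6706 c10315 c5655 c405 c406 c2996 c5492 (k4 c17788 c2189 c1770 c18127 k0))) (by decide +kernel)
def c20604 : PP 9 3 T 0x40000000000000000000200000000000000000000040008000000000000001000000000000000000000000000000000000000000000400000000000000020 := rS 0x4aa5d93df6a18142d7d89dcffe2c97855c678134c9041398048a9d55c5532a92582e5281469bcfbef56c70220e1480ce29f65ac767b6aced33ac53aa2d126932a0cb25d (k8 c17796 c18352 c18355 c18353 c18347 c18356 c18350 c18354 (k8 c18348 c20598 c5211 c17561 c20351 c19230 c5421 c5420 (k8 c5572 c5571 c54 c9694 c6008 c10107 c12681 c2029 (k8 c17287 c5566 c5565 c5381 c5380 c19585 c150 c12627 (k8 c5531 c5530 c5414 c5413 c5412 c5326 c53 c9719 (k8 c10205 c5660 c2082 c12930 c20602 c3602 c20603 c5215 (k8 c5168 c5358 c5356 c12830 c5465 c5578 c16071 c17987 (k4 c17880 c1182 c1639 c1589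 (k1 c5678 k0))))))))) (by decide +kernel)
def c20605 : PP 9 3 T 0x40001000000000020000000000000000000000100040000000100000000000000000100000000001000004000000000000000000000000500000001000000 := rS 0x9a50b8c6de2 (k4 c5168 c5654 c5466 c5578 (k2 c19797 c2328 k0)) (by decide +kernel)
def c20606 : PP 9 3 T 0x40000000000000000000200000000000000000000040008000000000000001000000000000000000000000000004000000000000000000000000000000020 := rS 0x1aee203b39a27bf038476772b9fcf2c766e49fc391fc0d22492337c32031a96c62f58982c1329409f51fef80c70224b0727d96b5db567699d629d4b25dcc2151683 (k8 c18355 c18350 c18349 c18346 c17796 c18352 c18354 c18348 (k8 c20598 c5211 c17561 c20351 c5422 c5420 c5572 c6008 (k8 c12627 c10107 c12681 c2140 c17287 c5568 c5566 c5380 (k8 c19585 c16665 c150 c12622 c5477 c5476 c5474 c5324 (k8 c54 c9701 c6120 c20604 c157 c2784 c2349 c2913 (k8 c2476 c13510 c20333 c2506 c5357 c5441 c5358 c5353 (k8 c5356 c12686 c2789 c20605 c5457 c5459 c17952 c870 (k2 c3610 c10802 (k1 c13843 k0))))))))) (by decide +kernel)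
def c20607 : PP 9 3 T 0x80000000000000000000200000000000000000000040008000000000000000000000000001000000000000000000000000000000000800000000000000020 := rS 0x1403f6fb252ad30b10536931b0ec32030d8c53b154cacc171c08a7f66e1f0ec4e3e31c95f24e365ad76d59da4a41d9d62965165d (k8 c17796 c18350 c18352 c18348 c20598 c6008 c19585 c5211 (k8 c17561 c20351 c5422 c5420 c5549 c17886 c5353 c393 (k8 c19979 c5571 c12830 c11668 c5591 c19230 c5572 c10107 (k8 c12681 c150 c5532 c5530 c5414 c5412 c5476 c5475 (k8 c54 c9701 c12686 c5654 c17730 c2328 c1740 c13010 (k4 c2082 c1461 c1064 c18063 (k2 c2913 c3620 (k1 c8159 k0)))))))) (by decide +kernel)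
def c20608 : PP 9 3 T 0x80000000000000000000200000000000000000000040008000000000000008000000000000000000000000000000000000000000000800000000000000020 := rS 0x1047a3f03b51bc37efb306af50882502133eeccffb1388e4af9271b2d6bb6aced2520eceb14b28b (k8 c18350 c18352 c18348 c20598 c6008 c19585 c5211 c17561 (k8 c20351 c5422 c5420 c5549 c17886 c5353 c393 c5571 (k8 c12830 c5358 c19230 c5566 c5564 c5380 c16665 c10107 (k8 c5477 c5324 c20607 c5495 c2329 c2506 c2507 c10972 (k4 c2914 c2771 c1656 c12613 k0))))) (by decide +kernel)
def c20609 : PP 9 3 T 0x5000000000000000000000000000000000000200000048000000000002000000000000000000150000000004000400010000000048020 := rS 0x208f47e076a379afdf0882652c5 (k8 c18348 c19585 c16665 c10107 c5495 c2191 c2506 c2507 (k4 c10972 c406 c2770 c1656 (k1 c12613 k0))) (by decide +kernel)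
def c20610 : PP 9 3 T 0x200000000000000000000040008000000000000001000000000000000000000000000004000000000000000000000000000000020 := rS 0x9767b252aa03d34c2cd16f90536931b0ed9a471cec7c2573fbfb24e148c0dc7f20c80c6a1b18a7557154caa5671305ca5028d099f51f018e044960e38a7d96b5d9edab3b4ceb14b28942a0d165d (k8 c17796 c18350 c18355 c18349 c18356 c18352 c18348 c20598 (k8 c5211 c17561 c20351 c19230 c5422 c5420 c5572 c5571 (k8 c6008 c12627 c10107 c12681 c2140 c5568 c5566 c5564 (k8 c5381 c5380 c19585 c150 c12622 c5532 c5531 c5530 (k8 c5414 c5413 c5412 c5476 c5475 c5324 c54 c9701 (k8 c20606 c5549 c5550 c5589 c5591 c17886 c3613 c5358 (k8 c5353 c11668 c12830 c393 c20608 c20609 c12686 c5654 (k8 c17730 c2328 c1741 c2331 c1481 c13010 c2082 c17932 (k4 c3620 c1461 c1064 c1648 (k2 c1234 c3617 k0)))))))))) (by decide +kernel)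
def c20611 : PP 9 3 T 0x80000000000000000000200000000000000000000040008000000000000001000000000000000000000000000000000000000000000000000000000000020 := rS 0x12ecf64a55407a69859a2df20a6d2636238ed9a39d8f84ee57c9385c6190186c629d55c5532a959c4c172940a3ce29f65ad767b6da2449286f7c06384b0883b3b5962965165d (k8 c17796 c18350 c18352 c18348 c17561 c20598 c6008 c10107 (k8 c12627 c12681 c2140 c17287 c20610 c19811 c19449 c5211 (k8 c20351 c19230 c5422 c5420 c5572 c5571 c5568 c5380 (k8 c19585 c150 c12622 c5532 c5531 c5530 c5414 c5413 (k8 c5412 c5476 c5475 c54 c9701 c5549 c5591 c17886 (k8 c5353 c5356 c11668 c12830 c393 c2073 c12686 c20607 (k8 c5654 c17730 c2328 c1741 c2331 c1481 c13010 c2082 (k4 c17932 c3620 c1461 c1064 (k2 c1648 c1234 (k1 c3617 k0)))))))))) (by decide +kernel)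
def c20612 : PP 9 3 T 0x200000000000000000000040008000000000000001000000000000000000000000000000000000000000000000000000000000020 := rS 0x339aee2039efc0e11d95cfe7963e48723f66bf88cdff9a449303f6a1832031a96c63130582652813ea3fdf018e044960e4fb2d6bb6aced33ac53a964ba8b (k8 c18350 c17796 c18352 c18354 c18348 c20598 c5211 c17561 (k8 c20351 c5422 c5420 c5572 c6008 c12627 c10107 c12681 (k8 c2140 c17287 c5568 c5566 c5380 c19585 c16665 c150 (k8 c12622 c5476 c5474 c5324 c54 c9701 c20610 c5499 (k8 c10690 c19811 c19449 c20611 c6120 c20604 c5694 c2506 (k8 c2913 c2476 c20333 c5357 c5441 c5358 c5353 c12686 (k8 c2789 c20605 c5457 c870 c3610 c10802 c2574 c13843 k0))))))) (by decide +kernel)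
def c20613 : PP 9 3 T 0x40000000000000000000200000000000000000000040008000000000000000000000000000000000000000000000000000000000000000000000000000020 := rS 0x339aee2039efc0e11d95cfe7963e48723f66919fcdf0c80c6a5b18c4c160994a04fa8f4fb2d224981ad76db4f7fb5f9018e114961107676b2c53a964ba8b (k8 c18350 c17796 c18352 c18354 c18348 c17561 c20598 c6008 (k8 c10107 c12627 c5326 c12681 c2140 c20612 c5542 c17287 (k8 c5211 c20351 c5422 c2631 c13257 c19449 c5420 c5572 (k8 c5568 c5566 c5380 c19585 c16665 c150 c12622 c5476 (k8 c5474 c5324 c54 c9701 c6120 c5694 c5660 c2506 (k8 c2913 c2476 c20333 c5357 c5441 c5358 c5353 c12686 (k8 c2789 c20605 c5457 c870 c3610 c10802 c2574 c13843 k0))))))) (by decide +kernel)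
def c20614 : PP 9 3 T 0x200000000000000000000040008000000000000000000000000000000000000000000000000000000000000800000000000000020 := rS 0x21dfecc4892607eff6bf2031c2292c2277c938fe4cb5aedab3b49483b3a8b42a0cb25d (k8 c17796 c18352 c18355 c18349 c18350 c20598 c6008 c19585 (k8 c5211 c17561 c20351 c5422 c5420 c20613 c5549 c17886 (k8 c5356 c10107 c12627 c5326 c12681 c2140 c20612 c5542 (k8 c17287 c2631 c13257 c19449 c20607 c20608 c2073 c13510 k0)))) (by decide +kernel)
def c20615 : PP 9 3 T 0x5000000000000000000000000000000000000200000040000000000002000000000000001500150400000004000400010000000048020 := rS 0xff43c4e024b44a15068b (k8 c18350 c18355 c18349 c18356 c12627 c2140 c12622 c2073 (k2 c20609 c3613 k0)) (by decide +kernel)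
def c20616 : PP 9 3 T 0x200000000000000000000040008000000000000000000000000000000000000000000000000000000000000000000000000000020 := rS 0x65de1f255a6c950059be414da4c6c3b6691c73b1f09dcae7fc9385c7f24892607ed7e6cd6acb4f9c603b68e7beb28f3e84d1a810c80c8a3518a762a9959ed0960b08ca41d9d62965165d (k8 c17796 c18350 c18352 c18348 c20598 c6008 c19585 c10107 (k8 c150 c12627 c5211 c5532 c5530 c5414 c5412 c5476 (k8 c5324 c5326 c54 c9701 c5380 c5381 c5564 c5566 (k8 c5568 c17561 c17287 c12681 c20351 c2140 c5571 c5572 (k8 c5420 c5422 c19230 c20612 c5542 c2631 c13257 c19449 (k8 c20613 c5549 c5591 c17886 c5358 c5353 c5356 c11668 (k8 c12830 c393 c20614 c20615 c12686 c5654 c17730 c2328 (k8 c1741 c2331 c13010 c3620 c1180 c2082 c1461 c8159 (k2 c5869 c405 (k1 c5492 k0)))))))))) (by decide +kernel)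
def c20617 : PP 9 3 T 0x80000000000000004000000000000000000000000040008000000000000000000000400000400000000000000000000400000004000000400000000040020 := rS 0x2853e166fa6c0c3664a5fbc19019146a5b18a762a9959ed04a3d239fcfab570ec6b1a10882c039204ca41d9d62964ba83 (k8 c18355 c17796 c18352 c18348 c20598 c6008 c19585 c16665 (k8 c10195 c53 c150 c10107 c20616 c17869 c20430 c5591 (k8 c5548 c8164 c20407 c5562 c5560 c12632 c5211 c5532 (k8 c5530 c5414 c5412 c5476 c5474 c5324 c5326 c54 (k8 c9701 c20431 c5452 c5494 c9522 c12687 c2328 c2331 (k4 c714 c1465 c1068 c3620 k0)))))) (by decide +kernel)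
def c20618 : PP 9 3 T 0x8000000000000000000000000040008000000000000000000000000000000000000000000000000000000000001000000000000000020 := rS 0x27589b8e3b7339cc5203218963a13465634211058041d9d32a2d0689 (k8 c18356 c18355 c18350 c18353 c20598 c6008 c53 c150 (k8 c10107 c20616 c17869 c17906 c475 c5341 c12632 c5478 (k8 c54 c9694 c9719 c5487 c17706 c753 c5666 c1146 (k2 c2813 c17883 k0)))) (by decide +kernel)
def c20619 : PP 9 3 T 0x40008000000000000000000000000000400000000000001000000400000004001000400000000000020 := rS 0x1ebc0df03387c63619a3bbdf3d89146a5b1891f667fac04416013e82426e33ce4a53a18983b3a7562964ba83 (k8 c18355 c17796 c18352 c18348 c18354 c20598 c6008 c12622 (k8 c20616 c19585 c10195 c5441 c13204 c475 c16665 c8164 (k8 c53 c150 c10107 c17869 c20407 c20618 c5562 c5476 (k8 c5474 c5324 c5326 c20430 c20617 c20431 c5675 c5492 (k8 c9522 c17693 c2846 c10693 c2331 c5691 c870 c5457 k0))))) (by decide +kernel)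
def c20620 : PP 9 3 T 0x40008000000000000000000000000001000000000000001000000400000004001000000000000000020 := rS 0xd16fb3c6dde0325f62fd302d52a66f92c15e7064edd3eca1d97cfb927886406451a8c53aab36a6552b3da1047b1d23fbc265b569cf667f04ca5a68cac684220b0083b3a5962a2d0689 (k8 c18356 c18355 c18350 c18348 c18352 c20598 c6008 c53 (k8 c150 c10107 c20616 c17869 c17906 c2083 c19585 c16665 (k8 c20407 c20618 c9719 c2031 c5474 c475 c19004 c5562 (k8 c5341 c5560 c12636 c5211 c5532 c5531 c5530 c5529 (k8 c5413 c5412 c5476 c5324 c5326 c54 c9701 c5811 (k8 c10195 c8164 c5439 c12686 c20619 c199 c5420 c1325 (k8 c8466 c2988 c19180 c10427 c753 c5297 c5548 c13319 (k8 c1335 c5445 c1639 c12694 c20431 c871 c5453 c2331 (k2 c1481 c10216 k0))))))))) (by decide +kernel)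
def c20621 : PP 9 3 T 0x100040000000000000000000000000000000000000000000000000800000000000000000140040000000000000000000000000000 := rS 0xfbe3 (k2 c5464 c1548 (k1 c5670 k0)) (by decide +kernel)
def c20622 : PP 9 3 T 0x40008000000000000000000000000001000000000000001000000400000000001000000000000000020 := rS 0x1c51df365b7dc2a1f06c326812b1fce66d59ed2260994d63421105838039d (k8 c20598 c53 c6008 c150 c10107 c20616 c17869 c19585 (k8 c16665 c12622 c5211 c5532 c5529 c9719 c20407 c20620 (k8 c12626 c5353 c19416 c5215 c5398 c5460 c5538 c20621 (k4 c17766 c5675 c10427 c19544 k0)))) (by decide +kernel)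
def c20623 : PP 9 3 T 0x40000000000000002000110000000000000000000000000000000000000000000000140000000000400000001000100001000000000000000000000008000 := rS 0x1c51d13 (k4 c12622 c5675 c10427 c19544 k0) (by decide +kernel)
def c20624 : PP 9 3 T 0x40008000000000000000000000000001000000000000001000000000000000001000000000000000020 := rS 0x67bf52ed6581f8e0cadbb8d6bf26fb85426f40f836007c99d9180339c44b66d59ed2264104ca6b1a10882c1c01cea25068b (k8 c18350 c18355 c18356 c20598 c53 c6008 c150 c10107 (k8 c20616 c17869 c19585 c16665 c12636 c12622 c5211 c5532 (k8 c5529 c5474 c9730 c9719 c54 c17906 c20622 c5356 (k8 c672 c5209 c5215 c12653 c17878 c5398 c5460 c5538 (k8 c20623 c5548 c5549 c13608 c17766 c5666 c20621 c19180 (k4 c808 c19049 c1335 c1769 (k1 c20314 k0))))))) (by decide +kernel)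
def c20625 : PP 9 3 T 0x100000000000000000000000800000000000000000000008000000000010000000000000004 := rS 0x3e4d005e (k4 c1144 c1145 c5439 c1451 (k1 c12653 k0)) (by decide +kernel)
def c20626 : PP 9 3 T 0x40000000000000000040000000000000000000000000000000000000000000000000000008000000000010000000000000020 := rS 0x1020789ca41d9d (k4 c20598 c6008 c19585 c12622 (k2 c8467 c12653 (k1 c17878 k0))) (by decide +kernel)
def c20627 : PP 9 3 T 0x40008000000000000000000000000001000000000000001000000000000000000000000000000000020 := rS 0x66c903a4936175078362df71a7dc3e31d95cf27dc932dafee7e7b562ad57edd6b031c9b84c71473fc25f3244040673228d4b6314ec54daa959ed2260b208265225d08441d9d00b14b2752ea24ca83 (k8 c18355 c18353 c18356 c17796 c18354 c18352 c18348 c53 (k8 c20598 c6008 c10107 c20616 c12632 c19585 c16665 c12636 (k8 c150 c12622 c5211 c5532 c5531 c5529 c5414 c5412 (k8 c5476 c5474 c5324 c5326 c9719 c54 c19568 c20624 (k8 c5588 c13198 c3006 c5675 c10427 c317 c318 c3714 (k8 c2405 c2402 c5570 c2986 c2817 c1146 c10405 c19555 (k8 c5694 c5507 c20625 c20626 c5442 c5441 c5353 c12686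 (k8 c17781 c2846 c2815 c13204 c2947 c6118 c5691 c5680 (k4 c12518 c5536 c2928 c714 (k2 c1180 c323 (k1 c10897 k0))))))))))) (by decide +kernel)
def c20628 : PP 9 3 T 0x100000000000000000000000008000000000000000000000000000000000000000002000000000000000000000000000000011000 := rS 0x1346914b798 (k4 c18346 c5474 c5326 c10035 (k2 c3037 c17837 k0)) (by decide +kernel)
def c20629 : PP 9 3 T 0x400000000000000110000000000000000200000008000000000400000000000000400000000000000001000050400000004000000800000000050140 := rS 0x3f40b4c93ef4610c8a5b208f63ac545965125d (k8 c17796 c18356 c18352 c18350 c18348 c5341 c5560 c12636 (k8 c5474 c5326 c5478 c12615 c19004 c13198 c2083 c13318 (k2 c494 c12613 k0))) (by decide +kernel)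
def c20630 : PP 9 3 T 0x40008000000000000000000000000000000000000000000000000000000000000000000000000000020 := rS 0x124964d3f1feb156abd1c483709825037b0e9ae871c8c8ee573f9f40f921bf7fc2cc48c76b1a104ca4220d05c4d66a98aaac1db4398043203ce9146a5b18bd4ca8962964ea5d (k8 c17796 c18354 c18352 c18348 c18356 c18353 c5477 c5476 (k8 c5474 c5324 c5326 c20598 c54 c9701 c53 c9719 (k8 c5211 c6008 c5413 c5414 c5531 c5532 c12622 c150 (k8 c151 c10107 c19585 c16665 c20616 c17869 c5341 c20628 (k8 c20627 c5537 c5495 c2329 c5215 c871 c5442 c5358 (k8 c5353 c5356 c10897 c393 c2073 c2185 c5654 c492 (k8 c2195 c20629 c317 c318 c475 c476 c2986 c2817 (k4 c1146 c3006 c17131 c2504 (k2 c2505 c9848 (k1 c1637 k0)))))))))) (by decide +kernel)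
def c20631 : PP 9 3 T 0x80000000000000000000008000000000000000000000000000100000000000008000000000000000000000000000000000001 := rS 0x66071a96c625762964ea5d (k8 c17796 c18354 c18352 c18348 c5353 c5476 c5474 c5324 (k2 c1564 c323 (k1 c10897 k0))) (by decide +kernel)
def c20632 : PP 9 3 T 0x100080000000000000000000008000000000000000000000000000000000000000000000000000000000000000000000000082020 := rS 0x6fa85369364a653f294eb2f62772b9e4fa092f9cc02191a96c36318aaccd47101ad5c6e1f96d441b70eecbdf0189a44939d21d2896f37aab4dcaf131158a752c9773089 (k8 c18356 c18346 c17796 c18352 c18354 c18348 c5326 c317 (k8 c2986 c318 c2817 c5477 c5325 c12639 c20630 c5478 (k8 c20598 c5334 c3036 c2598 c19568 c17894 c20525 c5486 (k8 c5570 c315 c5528 c5241 c5591 c5549 c1149 c54 (k8 c2869 c316 c2378 c3046 c5476 c5475 c5474 c5324 (k8 c9701 c53 c9719 c5439 c5438 c5442 c5441 c5353 (k8 c5356 c18631 c8466 c1135 c17897 c2815 c2373 c10663 (k4 c20631 c9848 c2928 c13097 (k1 c3620 k0))))))))) (by decide +kernel)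
def c20633 : PP 9 3 T 0x80000000000000018000010040000000000000000000000000200000000000000000000000000000000000000000000000000000000410410000004000000 := rS 0x78762de (k4 c19019 c17756 c5538 c5235 k0) (by decide +kernel)
def c20634 : PP 9 3 T 0x100000000000000000000000008000000000000000000000000000000000000000000000000000000000000000000000000082020 := rS 0x3e95b60cb94e4dc2e3d97cbdfb55ac0441133567486357986dea3b2392ce203489076eaf22c544c49a52b4dc89 (k8 c18356 c318 c2817 c20630 c5334 c317 c3046 c5326 (k8 c2986 c5570 c3667 c3036 c54 c2869 c12639 c5520 (k8 c5332 c5477 c5475 c5325 c5324 c5478 c20598 c316 (k8 c2598 c315 c19568 c1149 c5528 c17894 c5241 c20525 (k8 c5549 c5591 c20632 c20633 c20625 c5209 c10195 c17981 (k1 c372 k0)))))) (by decide +kernel)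
def c20635 : PP 9 3 T 0x8000000000000000000110000000000000000000080000000000000000000014000000000000000000000001008000000000000004140000000000000000 := rS 0x44e008d (k4 c5505 c17894 c958 c19568 k0) (by decide +kernel)
def c20636 : PP 9 3 T 0x100000000000000000000000008000000000000000000000000000000000000000000000000000000000000000000000000080020 := rS 0x42ab351b76a670ebf765ef54a181aad579b84c917888e2201ce90c8af32d86dea1f07bdc920ba512cca852ca0cba89 (k8 c18356 c17796 c18355 c18352 c18349 c18353 c12639 c20630 (k8 c5516 c5334 c5333 c5329 c5517 c5477 c5475 c5474 (k8 c5325 c5326 c5478 c20598 c53 c9730 c9734 c5811 (k8 c3036 c317 c318 c2986 c2817 c20634 c3571 c2023 (k8 c20635 c20525 c5405 c5486 c5487 c7262 c744 c5665 (k2 c9859 c2371 (k1 c3581 k0))))))) (by decide +kernel)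
def c20637 : PP 9 3 T 0x8000000000000000000000000000008000000000000000000000000000000000000000000000000000000000000000000000000001020 := rS 0x21559a8dbb533875faf111e74361f54a18b60f79bddea0ba544402652ea0cb285 (k8 c18349 c18352 c18355 c17796 c18353 c53 c9730 c20630 (k8 c5516 c5477 c5333 c5325 c5329 c5474 c3571 c2023 (k8 c5517 c5475 c20598 c9734 c5811 c5405 c5486 c5487 (k4 c7262 c744 c5665 c9859 (k2 c2371 c3581 k0))))) (by decide +kernel)
def c20638 : PP 9 3 T 0x10000100000000000000000000000008000000000000000000000000000000000000000000000000000800000000000000000100001020 := rS 0x2bd62265afcb6eb37e45556231480f3a1f2491c9625f7d6122ad4604c8a1139fb552862d83de6f77a82e951100eccca5d419650b98 (k8 c18346 c18349 c18352 c18355 c17796 c18353 c20637 c53 (k8 c9730 c20630 c5516 c5477 c5333 c5325 c5329 c5474 (k8 c3571 c2023 c10910 c9719 c15516 c5326 c20636 c17837 (k8 c2031 c10035 c12635 c19004 c12632 c12639 c5520 c5334 (k8 c5517 c20598 c54 c9694 c9734 c1137 c1140 c5682 (k8 c2557 c17941 c5241 c5548 c3584 c1335 c2986 c5683 k0)))))) (by decide +kernel)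
def c20639 : PP 9 3 T 0x10000100000000000000000000000008000000000000000000000000000000000040000000000000002000000000000000000000001020 := rS 0x23e267037fc961b7ce87c8e4bf7d6122ad4604c8a113980766660eaa90c5b07bcdea0b7bd28ca5d419650b98 (k8 c18346 c18349 c18352 c18355 c17796 c18353 c20630 c5333 (k8 c5516 c5477 c5325 c5329 c5474 c3571 c745 c2121 (k8 c744 c20637 c53 c9719 c15516 c5326 c20636 c17837 (k8 c2031 c10035 c12635 c19004 c12639 c5520 c5517 c20598 (k8 c19291 c5683 c5241 c1146 c2180 c5547 c2433 c18086 k0))))) (by decide +kernel)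
def c20640 : PP 9 3 T 0x10000100000000000000000000000008000000000000000000000000000000000000000000000000000400000000000000000000001020 := rS 0x11347fce0314572a8d91100e75228c0991422862d83de6f77a82e94852ea0cb398 (k8 c18346 c18352 c18355 c17796 c18349 c20630 c5516 c5477 (k8 c5333 c5325 c5329 c5474 c3571 c15516 c5326 c20636 (k8 c17837 c10035 c20598 c53 c9730 c5665 c745 c20639 (k4 c1286 c9308 c5590 c2845 (k2 c959 c5675 k0))))) (by decide +kernel)
def c20641 : PP 9 3 T 0x10000100000000000000000000000008000000000000000000000000000000000000000000000000000000000000000000000000001020 := rS 0x426a (k2 c20640 c2371 (k1 c20638 k0)) (by decide +kernel)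
def c20642 : PP 9 3 T 0x20000100000000000000000000080000000000000000040000000000000000000080000000000000000000000000000000000000040020 := rS 0xb538926b08b (k4 c18350 c12635 c5334 c2988 (k2 c1249 c20540 k0)) (by decide +kernel)
def c20643 : PP 9 3 T 0x100000000000000000000000008000000000000000000000000000000000000000000000000000000000000000000000000001020 := rS 0x4491e70809bd60afdbacd57b4d9c0d0c231480f3af37a83dee0ba512c4befac2455a8c09914225b39804ca852ca0cbb98 (k8 c18346 c17796 c18355 c18352 c18349 c18353 c53 c9719 (k8 c5474 c15516 c5326 c20636 c17837 c2031 c10035 c12635 (k8 c19004 c12632 c12639 c20630 c5516 c5333 c5329 c5477 (k8 c5325 c20598 c54 c9694 c9734 c3571 c10690 c20637 (k8 c20641 c5413 c5532 c17828 c20642 c5683 c1146 c2143 (k4 c5666 c2874 c12647 c959 k0)))))) (by decide +kernel)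
def c20644 : PP 9 3 T 0x8000100000000000000000000000008000000000000000000000000000000000000000000000000000000000000000000000000000020 := rS 0x9d626edb8a4064312844031dac04cca8b (k8 c18350 c18353 c20636 c12635 c5341 c53 c15516 c12632 (k8 c5478 c54 c9694 c17706 c11843 c1146 c2813 c17883 k0)) (by decide +kernel)
def c20645 : PP 9 3 T 0x100000000000000000000000008000000000000000000000000000000000000000000000000000000000000000000000000000020 := rS 0x8e817cdffecd9bf76aab54c04406a89831231d465602611ce915e65b7abdc9247a520ccb98 (k8 c18346 c18353 c18355 c20630 c5520 c5334 c5333 c5477 (k8 c5474 c5325 c5326 c20598 c15516 c20636 c12635 c17837 (k8 c5341 c10035 c20643 c2599 c316 c315 c19568 c2375 (k8 c1137 c5528 c2550 c20644 c5682 c5544 c17748 c18038 (k2 c5675 c2405 k0))))) (by decide +kernel)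
def c20646 : PP 9 3 T 0x40000000000000000000000000000000000000000000000000000000000000000000000000000000400000000000000004000000000000000000000022020 := rS 0xdb1c04e01 (k4 c53 c2859 c719 c5715 (k1 c5571 k0)) (by decide +kernel)
def c20647 : PP 9 3 T 0x90000000000000000000000000000008000000000000000000000040000000000000000000000000000000008000004000000000002020 := rS 0xe1719e3604194c44039d1bd28de7dace80b28b (k8 c18350 c18352 c20645 c17561 c5566 c5565 c20630 c5518 (k8 c20598 c53 c9730 c5313 c12628 c19416 c370 c18213 (k2 c1541 c18210 k0))) (by decide +kernel)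
def c20648 : PP 9 3 T 0x2000000000000000000000040000000000000000000008000000000000000000000000000000000000000000000000000000004000000000000000000120 := rS 0x3d7859876f18e6519d1abcc76133ea1fde11599a91e0c2dbd5ee0b07d2be66fd0214b2832ee60ea8b (k8 c18350 c18354 c18346 c17796 c18355 c18352 c18349 c20645 (k8 c5565 c17809 c20630 c5329 c5516 c5333 c5477 c5474 (k8 c10910 c5568 c316 c2377 c20646 c17287 c5499 c5566 (k8 c5564 c5332 c5325 c5324 c20598 c10195 c5317 c17785 (k4 c17897 c17385 c6290 c14036 (k1 c20185 k0)))))) (by decide +kernel)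
def c20649 : PP 9 3 T 0x2000000000000004000000040000000000000000000008000000000000000000000000000000000000000000000000000000004000000000000000000020 := rS 0x77c11281a8de9598 (k8 c18346 c20630 c5518 c5324 c10195 c20648 c17743 c10902 k0) (by decide +kernel)
def c20650 : PP 9 3 T 0x2000000000000094000000000000000000000000000008000000000000080000000000000000000000000000000000000000004000000000000000000020 := rS 0x80321e8fc0e9269a69c7e14cec4ee7f3c824bf92008d46281099f50ed1678823811599a91e0c2dbd5ee0b07d2be66fd01c53ecb62964ea5dcc2151683 (k8 c18355 c18350 c18349 c18346 c17796 c18354 c18352 c18348 (k8 c5420 c5572 c5571 c20645 c5565 c17809 c20630 c5329 (k8 c5516 c5333 c5477 c5474 c10910 c5568 c316 c2377 (k8 c20646 c12681 c315 c5543 c5501 c5499 c5566 c5564 (k8 c5380 c5476 c5324 c53 c20649 c5439 c5438 c5441 (k8 c5358 c5356 c12830 c2373 c17952 c6448 c10916 c2088 (k4 c2491 c1564 c3679 c1569 (k2 c10897 c12613 (k1 c545 k0))))))))) (by decide +kernel)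
def c20651 : PP 9 3 T 0x90000000000000000000000000000008000000200000001000000000014000000005000000000000000000008000000000000000002020 := rS 0x6b8f92cdf4ea652ac93c6c0c39331c44028fd032d0665 (k8 c18353 c18355 c5420 c20645 c5568 c53 c9730 c9754 (k8 c5353 c9759 c19416 c370 c10171 c5446 c5447 c1538 (k4 c2387 c9899 c20647 c1767 (k1 c406 k0)))) (by decide +kernel)
def c20652 : PP 9 3 T 0x94000000000000000000000000000008000000000000001000000000000000000005000000000000000000000000000000000000000020 := rS 0x1929250a69c6dff0a6520aed89dcfe792fc0f245758b2ce20146c4d0ed180b3dfe208ac7022b33523c185b7abdc160fa57cfd86fd0660ea8541974b28b (k8 c18350 c18352 c17796 c18355 c18349 c18354 c18346 c20645 (k8 c5565 c5682 c17809 c20630 c5329 c5516 c5333 c5477 (k8 c5474 c10910 c5568 c316 c2377 c20646 c12681 c1139 (k8 c315 c5544 c5543 c5502 c5501 c5499 c5382 c5381 (k8 c53 c5571 c5420 c5421 c20651 c20649 c20650 c5439 (k8 c5441 c5358 c5356 c12830 c17841 c18001 c2373 c17952 (k4 c2948 c6448 c10916 c10309 (k2 c2491 c1182 (k1 c20631 k0))))))))) (by decide +kernel)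
def c20653 : PP 9 3 T 0x40001000000000055000000000000000000000000000008000100000000000000000000010000000000000000000040000000404000000000000000002120 := rS 0x1e81d24e320a4135e200e7476f7248de94818984cfb59107bc22b3478962a6a37e80b28b (k8 c18350 c18352 c20645 c5565 c316 c1139 c16791 c5568 (k8 c2377 c20646 c17287 c315 c17561 c5566 c5564 c5382 (k8 c5380 c20630 c5518 c5334 c5333 c5332 c20598 c53 (k8 c12726 c10916 c15460 c5462 c5466 c2491 c1564 c1570 (k1 c18100 k0))))) (by decide +kernel)
def c20654 : PP 9 3 T 0x2000000000000054000000000000000000000000000008000000000000000000000000000000000040000000000000000000004000000000000000000020 := rS 0xd71f2580e411ea54c2c949ec253e13b9fcf2092fe4852031aa04267d43b459f1c08acd1e6712fce2a6a0616deaf70583e946face80d2c532e60b27542a2cba83 (k8 c18355 c17796 c18350 c18349 c18354 c18352 c18346 c18353 (k8 c18348 c18347 c20645 c17561 c5565 c20630 c5329 c5516 (k8 c5333 c5477 c5474 c10910 c316 c1139 c17809 c16791 (k8 c17220 c5568 c2377 c20646 c12681 c5543 c5501 c5499 (k8 c5566 c5564 c5380 c5324 c54 c9694 c20649 c5439 (k8 c5438 c5441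 c5358 c5356 c17952 c17897 c20653 c5444 (k8 c5396 c5445 c5446 c16761 c13854 c713 c18033 c12613 (k2 c1768 c406 k0)))))))) (by decide +kernel)
def c20655 : PP 9 3 T 0x14000000000000000000000000000008000000000000001000000000000000000005000000000000000000000000000000000000000020 := rS 0xffc6d4650f52c9d4ca553ec93c6c1264194959601c578984a4a5a6dd5b1c08ace2a6a067cd9ed1f618e22011480f3a452dbd41ef705d28de8face81068b2c9773085 (k8 c18349 c18346 c17796 c18352 c18350 c18355 c20645 c17561 (k8 c5568 c5565 c20630 c5516 c5333 c5329 c5477 c5474 (k8 c5326 c20598 c54 c9694 c53 c9730 c9754 c5682 (k8 c5501 c5543 c17809 c10910 c316 c1139 c2377 c20646 (k8 c12681 c2029 c20652 c5685 c16685 c16791 c5715 c1248 (k8 c19430 c352 c20654 c5313 c12628 c9756 c19416 c370 (k8 c2062 c5448 c5446 c5447 c1538 c9899 c2860 c1333 (k4 c1334 c5464 c2996 c5655 k0)))))))) (by decide +kernel)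
def c20656 : PP 9 3 T 0x8000000000000000000000000000000000002000000000000000000000000000000000000000020 := rS 0x6a1cd71100e741e0ba5214b283 (k8 c18355 c18352 c18349 c20630 c5516 c5329 c20598 c53 (k4 c9730 c2375 c2023 c316 (k1 c5777 k0))) (by decide +kernel)
def c20657 : PP 9 3 T 0x41000000000000054000000000000000000000000000008000000001000000000000000000000000000000000000000000000000000000000000000000020 := rS 0x1012fbb4059 (k4 c18352 c20645 c5201 c16791 (k2 c17287 c720 k0)) (by decide +kernel)
def c20658 : PP 9 3 T 0x10000000000000000000000000000008000000000000000000000400000000001000000000000000001000008000000000000000020020 := rS 0x329bee163a75367bd864c520307d28fb598a9bd666acec451fa013804b28b (k8 c18350 c18352 c53 c2859 c20645 c5568 c9730 c20598 (k8 c5665 c2377 c5565 c1139 c17561 c5566 c20630 c5329 (k8 c54 c9694 c5353 c19416 c886 c8100 c8792 c2482 (k4 c10249 c14796 c6118 c20349 k0)))) (by decide +kernel)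
def c20659 : PP 9 3 T 0x54000000000000000000000000000008000000000000002000000000000000000000000000000000000000000000000000000000000020 := rS 0x57ab449ef5884202b525fc88645f6c54d46dcec44026fd040d0c0d1096c1ef37bbd4174a2ea0cb285 (k8 c18349 c18352 c18355 c17796 c20630 c5516 c5477 c5333 (k8 c5325 c5329 c5474 c2550 c315 c3571 c10690 c20645 (k8 c5565 c53 c9730 c20598 c2552 c5665 c1139 c5542 (k8 c5326 c5478 c20657 c5546 c5548 c5592 c16779 c1335 (k4 c17894 c720 c2758 c20341 (k1 c5683 k0)))))) (by decide +kernel)
def c20660 : PP 9 3 T 0x14000000000000000000000000000008000000000000000000000000000000000004000000000000000000000000000000000000000020 := rS 0x9125bfa03f38e7bc2271db40d0c0d10fb5f99d7996dea0f7b82e948d89e81528b2c9750a83 (k8 c18355 c18349 c17796 c18352 c18350 c20656 c20645 c5382 (k8 c5381 c20630 c5516 c5333 c5329 c5477 c5474 c5325 (k8 c20598 c20655 c5542 c2550 c315 c3571 c10690 c20659 (k8 c5571 c719 c17287 c12681 c16779 c2139 c6335 c9182 (k2 c3008 c17945 k0))))) (by decide +kernel)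
def c20661 : PP 9 3 T 0xa000000000000000000000000000008000000000000000000000000000000000000000000000000000000004000000000000000000020 := rS 0x94e4c6a1b (k4 c5475 c5324 c18631 c17756 (k1 c10195 k0)) (by decide +kernel)
def c20662 : PP 9 3 T 0x10000000000000000000000000000008000000000000000000000000000000000004000000000000000000000000000000000000000020 := rS 0x4a0ee09c96c4ae10719c3e51558ad4486df09a84027066dd9e670ebf52fb27888ce60114864079d1abccb61b7a87dee0ba5234df59d02a730593aa250a8b (k8 c18350 c18349 c18356 c18354 c18352 c18346 c20656 c20645 (k8 c17561 c5565 c5381 c20630 c5516 c5333 c5517 c5477 (k8 c5475 c5474 c5325 c5324 c20598 c54 c9701 c9694 (k8 c53 c9719 c9734 c5811 c20660 c5404 c5405 c5486 (k8 c5487 c18533 c19230 c20637 c19353 c3581 c18027 c17825 (k8 c2427 c5651 c2609 c18405 c1139 c17769 c17895 c5549 (k8 c2754 c20658 c20661 c5235 c5438 c5356 c20312 c17897 k0))))))) (by decide +kernel)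
def c20663 : PP 9 3 T 0x40000000000000000000008000000000000000000000000015000000000000000000000000000004000000000000000000020 := rS 0x1c8ce5035798c5ea3b7b8de9407 (k8 c8467 c20630 c5518 c5333 c5332 c5477 c5476 c5325 (k4 c5324 c10195 c20297 c5317 (k1 c3587 k0))) (by decide +kernel)
def c20664 : PP 9 3 T 0x10000000000000000000000000000008000000000000000000000000000000000000000000000000000000000000000000000000020020 := rS 0x34879b02b255a290f9e4dab1d7ffb95fb74bab5667067890865b0d8c48f59431b2220107ecc1ab146e819a6635875eea905d2b3aaa45a14ca59 (k8 c18352 c18353 c18349 c18350 c20662 c20598 c20630 c5516 (k8 c20656 c5333 c2121 c1137 c18027 c4455 c20645 c5381 (k8 c2179 c316 c20637 c5329 c53 c9730 c9859 c13213 (k8 c17561 c5520 c5476 c5475 c5474 c5478 c720 c17612 (k8 c719 c2760 c2758 c1285 c5571 c2988 c5683 c13507 (k8 c5504 c5585 c20342 c17808 c18513 c9793 c2125 c20663 (k4 c19416 c773 c18071 c2768 k0))))))) (by decide +kernel)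
def c20665 : PP 9 3 T 0x10000000000000000000000000000008000000000000000000000000000000000000000000000000000000000000000000000000000020 := rS 0x1224b7f407e71cf7846066606874d7ed55675e60f7b82e948d89e81528b2c9750a65 (k8 c18353 c18349 c17796 c18352 c18350 c20656 c20645 c5382 (k8 c5381 c20630 c5516 c5333 c5329 c5325 c20598 c20662 (k8 c5500 c1137 c2121 c316 c18027 c4548 c20664 c17287 (k4 c12681 c16779 c2139 c6335 (k2 c9182 c3008 (k1 c17945 k0)))))) (by decide +kernel)
def c20666 : PP 9 3 T 0x8000000000000000000000000000000000000000000000000000000000000000000000000000020 := rS 0x1224b7f407e71cf7c0c2286f69c41bb610ed2b31346e8016f707d29ea5b79e7516592ea150798 (k8 c18346 c18355 c18349 c17796 c18352 c18350 c20598 c5325 (k8 c5474 c5477 c20630 c5329 c5333 c5516 c20645 c5381 (k8 c5382 c17561 c20665 c5528 c20351 c315 c5571 c10910 (k8 c3571 c719 c10690 c17287 c12681 c16779 c2139 c6335 (k2 c9182 c3008 (k1 c17945 k0)))))) (by decide +kernel)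
def c20667 : PP 9 3 T 0x80000200000000000000000000000000000000200000000000000000000000000000000000000000000000000000000000000010000020 := rS 0x1bd9ac5e33b (k4 c20666 c5811 c5421 c19230 (k2 c2161 c5649 k0)) (by decide +kernel)
def c20668 : PP 9 3 T 0x20000000000000000000000100000000000000000000008000000000000000000000000000000000000800008008004040002040004020 := rS 0x31da0a14db8dbecb3dec12641c9ca43203cebf43af210cede275 (k8 c18354 c5811 c20666 c5528 c2568 c333 c20237 c20598 (k8 c54 c9701 c5313 c5353 c12628 c9756 c19416 c886 (k8 c1091 c2511 c18213 c6036 c8159 c17935 c2482 c8113 k0))) (by decide +kernel)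
def c20669 : PP 9 3 T 0x68000000000000000000000100080000000200000000000000000000000000000200000000100010004000000000100000004000000020 := rS 0xd7500253ecbd8f8c7a179d8905203 (k8 c54 c9694 c5651 c20666 c5433 c5436 c19443 c9578 (k4 c1090 c2756 c5813 c5680 (k2 c19455 c1198 k0))) (by decide +kernel)
def c20670 : PP 9 3 T 0x44000000000000020000000000000000000000000000000000000200000008040000000000000000000000001100000000000000000000000000000010020 := rS 0x1e9a232ef8c5afe23f97c6b929495da66a580692a71d90936eb57e8fc3acd13bc894370787e95ed789ce22011480e771559834424580c4c260b36d64de7d47e818a7545e611259 (k8 c18352 c18356 c18346 c18350 c18354 c18348 c13277 c5568 (k8 c5566 c5565 c5341 c5529 c717 c299 c12633 c2139 (k8 c190 c5528 c315 c5532 c5414 c20666 c54 c9694 (k8 c53 c9730 c9719 c5811 c5544 c5171 c5517 c5329 (k8 c5518 c17945 c2568 c353 c4667 c333 c3722 c20237 (k8 c2572 c20667 c5651 c5229 c2754 c5488 c18393 c17895 (k8 c3604 c4464 c20668 c20669 c10195 c17740 c5439 c5358 (k8 c20103 c5465 c2163 c17880 c5653 c4494 c15157 c11210 k0)))))))) (by decide +kernel)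
def c20671 : PP 9 3 T 0x40000000000000000000000000000000000000000080000000000200000004040000000000000000000000000000000000000040000000000000000001400 := rS 0x4090ded7a83de6852ca0cbb98 (k8 c18346 c17796 c18355 c18352 c18349 c555 c5329 c5519 (k4 c10910 c3571 c6335 c10690 k0)) (by decide +kernel)
def c20672 : PP 9 3 T 0x44000000000000060000000000000000000000000040000000000200000000060000000000000000000000000100000000000000000000000000000010020 := rS 0xe14f8ec6c161977c62d7f0f8b62773f9e4bf925ab4c34711209d2a1d7ea5f6511008a43203d021da2cff60d676392312c92df9483b3b593aa2f3085 (k8 c18349 c18346 c18350 c18354 c5341 c20598 c6008 c19585 (k8 c6120 c513 c12627 c5660 c2476 c20666 c17740 c5171 (k8 c5543 c5501 c5499 c13277 c54 c9701 c9694 c53 (k8 c9730 c5229 c5404 c5405 c5486 c5488 c351 c5651 (k8 c2754 c18393 c4464 c1095 c20314 c5439 c5441 c5358 (k8 c5356 c18631 c20103 c17952 c5465 c2163 c17880 c5653 (k4 c11149 c2046 c492 c1466 (k2 c1484 c20605 k0)))))))) (by decide +kernel)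
def c20673 : PP 9 3 T 0x44000000000000020000000000000000000000000000000000000200000000040000000000000000000000001100000000000000000000000000000010020 := rS 0x776cf4811190e4bf603a96ff47c4c9301d016c2759ceced520d1082cda8942a0d1659 (k8 c18352 c18350 c18355 c18349 c18356 c5529 c717 c5528 (k8 c315 c5531 c20666 c20598 c5341 c299 c2159 c13277 (k8 c2139 c513 c12633 c5568 c20670 c20671 c6008 c5171 (k8 c12627 c5499 c5660 c3613 c2349 c20672 c1998 c20667 k0)))) (by decide +kernel)
def c20674 : PP 9 3 T 0x40000000000000000000000000000000000000000040000000000000000000000000000000000000000000000000000000000000004400000002000000000 := rS 0x9359 (k2 c5559 c10629 (k1 c5660 k0)) (by decide +kernel)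
def c20675 : PP 9 3 T 0x4000000000000004000200000000000000000100000000000000000000000000000000000000000000000000000000010000040000040000001010000020 := rS 0xceb10d6d9e33b (k4 c20666 c5811 c5229 c5649 (k2 c5421 c1902 (k1 c18384 k0))) (by decide +kernel)
def c20676 : PP 9 3 T 0x6000000000000020000200000000000000000100040000000000100000000020000000000000000000000000104000010000000000640000001000010020 := rS 0x1c7a3a19b507e39f0f8b62772b9e4bf92dba552fb28880432039daad320b36826525b07675027d7ebc43aa968b3d8a8b3aa273085 (k8 c18349 c18346 c18356 c18354 c18350 c18348 c5543 c5501 (k8 c5531 c1998 c5811 c2338 c5566 c5380 c20598 c6008 (k8 c872 c19585 c16665 c5529 c717 c5530 c5413 c20666 (k8 c54 c9701 c53 c9730 c20675 c5404 c5488 c19230 (k8 c20314 c5439 c5441 c5353 c5356 c18631 c20103 c17952 (k8 c393 c5576 c17987 c389 c18109 c1681 c1675 c15288 k0)))))) (by decide +kernel)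
def c20677 : PP 9 3 T 0x44000000000000020000200000000000000000100040000000000100000000020000000000000000010000000104000000000000000640000000000010020 := rS 0x38f474336a0fc73e1f16c4ee573c97f24954b99f65b73833da3ec88804320355a64166d04ca5027d7eabc4a4b076743aa978ced8a8b3aa273085 (k8 c18349 c18346 c18356 c18354 c18350 c18348 c20666 c5811 (k8 c5531 c1998 c20598 c6008 c12627 c20674 c10145 c2338 (k8 c5566 c5380 c19585 c16665 c5529 c717 c5530 c5413 (k8 c54 c9701 c53 c9730 c5171 c5501 c5543 c20676 (k8 c5571 c5229 c5282 c5404 c5488 c20314 c5439 c5441 (k8 c5353 c5356 c18631 c20100 c17952 c393 c5576 c17987 (k4 c389 c18109 c1681 c1675 (k1 c15288 k0)))))))) (by decide +kernel)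
def c20678 : PP 9 3 T 0x2009000000000009000000000000000000000000040000000100000000000000000000000000000005000100000010000000004000201100000001050500 := rS 0x7633030fd2e95 (k4 c5488 c5404 c5576 c17930 (k2 c389 c1675 (k1 c18109 k0))) (by decide +kernel)
def c20679 : PP 9 3 T 0x2005000000000068000200080000000000000200040000000000000000000000000000000000000000010000000000000040000000000004000000000020 := rS 0xfc0e9e1d18c320355a65520b3682652813ea5d2a7fd88e4ae0eceb14ca69 (k8 c18347 c18353 c18348 c20598 c6008 c5353 c393 c18631 (k8 c5358 c5488 c5404 c5566 c5380 c19585 c16665 c5529 (k8 c717 c5531 c5530 c5413 c54 c9701 c9754 c18109 (k4 c15667 c1675 c2879 c17896 k0)))) (by decide +kernel)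
def c20680 : PP 9 3 T 0x42000000000000028000200000000000000000200040000000000100000080020000000000000000000000000000000020040000000200000000000010020 := rS 0x38dc2df6a0d86a311978c72a1f0ec4ee573f9e724cf68c44021901ced56995482cda0994a1c268f07674fafd788f76e97cc1d50a83 (k8 c18355 c18349 c18354 c18346 c5404 c5571 c5560 c5811 (k8 c2338 c5566 c20598 c6008 c2405 c476 c10690 c19585 (k8 c16665 c5529 c717 c5531 c5530 c5413 c20666 c54 (k8 c9701 c53 c9730 c5501 c5543 c20314 c5441 c5358 (k8 c5353 c5356 c18631 c17952 c2929 c393 c20678 c20679 (k8 c84 c120 c2046 c390 c14614 c1483 c17679 c5691 k0)))))) (by decide +kernel)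
def c20681 : PP 9 3 T 0x1000000000000000000000000000000000000000040004000100000000000020000000000000000000000000000000000000000000000008000000000000 := rS 0x78199df (k4 c5492 c2045 c5165 c5537 k0) (by decide +kernel)
def c20682 : PP 9 3 T 0x200080000000000000200000000000000000000000000000000000000000000008000000000000000000000000000000000000120 := rS 0x60b8fc32033e8f4fe57 (k8 c5353 c5358 c5560 c5566 c54 c9701 c2879 c1465 (k2 c17896 c714 k0)) (by decide +kernel)
def c20683 : PP 9 3 T 0x1000000000000008000200080000000000000200040000000000000000000000000000000000000000000001100000020040000000000004000000000020 := rS 0x77fc2d36bf893ea1d89fcf2630c80e76099483b3a81dba5d2a7545b14ca69 (k8 c18347 c18353 c18348 c18350 c18354 c5488 c5404 c5571 (k8 c5380 c20598 c6008 c19585 c16665 c20666 c54 c9701 (k8 c9754 c5441 c5358 c18631 c2929 c20682 c15667 c5465 (k4 c5579 c17754 c17880 c5165 k0)))) (by decide +kernel)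
def c20684 : PP 9 3 T 0x40000000000000028000000000000000000000200040000000000100000080020000000000000000000000001100000020040000000000000000000010020 := rS 0xce03e4c67ed4bc44033b04ca741132216d0e432584d1e0ecebf5e25d41a24b28b (k8 c18350 c18352 c18356 c18355 c17796 c5811 c2338 c20598 (k8 c6008 c2405 c476 c12627 c1936 c10690 c872 c12615 (k8 c12622 c5675 c19585 c16665 c20666 c53 c9730 c5404 (k4 c20680 c20681 c20683 c8467 (k2 c20314 c10085 k0))))) (by decide +kernel)
def c20685 : PP 9 3 T 0x20000000040000000000000000040000000000000000000020000000000000000000000000000000000000000000000000000000000020 := rS 0x12a3549b3536d1d815bc0034eaad32a99483b3a5d (k8 c17796 c20598 c6008 c19585 c5531 c5530 c5413 c5412 (k8 c54 c5215 c10195 c5209 c5459 c5536 c5537 c9756 (k2 c435 c5446 (k1 c18094 k0)))) (by decide +kernel)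
def c20686 : PP 9 3 T 0x4000000000000046000000000000000000000200000000000100000000000000000000000000000010000010000110400040400000000000000008040020 := rS 0xd52cd3349958a75 (k8 c18354 c18348 c18353 c18347 c20105 c18020 c20564 c1074 k0) (by decide +kernel)
def c20687 : PP 9 3 T 0x44000000000000020000000000000000000000000040000000000100000080020000000000000000000000001100000020000000000000000000000010020 := rS 0x67e36aa5fbdb14aa85601ad999f6e630c80d027d578943af19d97cfe774fe4ab0442d84c864b23ab55287d023e26099483b3ac5329a5167544a0cba59 (k8 c18352 c17796 c18355 c18356 c18354 c18350 c18347 c18353 (k8 c18348 c20598 c6008 c19585 c16665 c12622 c2405 c5675 (k8 c10690 c5531 c2034 c2350 c12627 c1936 c476 c872 (k8 c12615 c20677 c20685 c20682 c5356 c5358 c5439 c20666 (k8 c5811 c1998 c20674 c10145 c5566 c5380 c54 c9701 (k8 c9754 c5571 c5282 c20684 c5649 c5683 c2929 c2182 (k4 c20686 c5224 c5452 c5454 (k2 c17987 c5492 (k1 c15667 k0))))))))) (by decide +kernel)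
def c20688 : PP 9 3 T 0x800000000001000200080000000000000000000000000100000000000000000000000000000200004050100000000040000000000000000000000020 := rS 0x143e3648cdaa630c80d027d3bedd8a6534a2cea89 (k8 c18356 c18354 c18350 c18347 c18353 c18348 c5421 c5356 (k8 c5566 c5380 c54 c9701 c9754 c5454 c5492 c5494 (k2 c17987 c1197 (k1 c15667 k0)))) (by decide +kernel)
def c20689 : PP 9 3 T 0x400000000061000200000000000000000000040000000000100000014060000000000000000000004050000000000040000000000004000000010020 := rS 0xcd68f85929b678d9263503004c61901a7557154caa56657c96ca520ececed8a65 (k8 c18353 c18348 c20666 c20598 c6008 c19585 c5224 c20685 (k8 c5353 c5532 c5531 c5530 c5414 c5413 c5412 c54 (k8 c9701 c9754 c53 c15671 c1617 c1564 c871 c2340 (k4 c9848 c10198 c15558 c1482 (k2 c2330 c8710 k0))))) (by decide +kernel)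
def c20690 : PP 9 3 T 0x40000000000000000000000000000000000000000000000000100100000080020000000000000000000000000000001400000004000201008000000000420 := rS 0x3c6e370f859edf1f3506cd11a8c73b3b43e60ea85 (k8 c18349 c18354 c18346 c10690 c20666 c20598 c84 c120 (k8 c9505 c2046 c390 c389 c14614 c2340 c17952 c1483 (k2 c17679 c5576 (k1 c5691 k0)))) (by decide +kernel)
def c20691 : PP 9 3 T 0x21000200000000000000000000040000000000100000014060000000000000000200004050100000000040000000000004000000010020 := rS 0x3bf290767725b7 (k4 c5421 c20685 c20598 c6008 (k2 c19585 c20688 (k1 c20689 k0))) (by decide +kernel)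
def c20692 : PP 9 3 T 0x1000000000000000000000000000004000100000000000000000000000000000000000080000000000000000000000000000000000000 := rS 0x367df (k2 c5452 c5404 (k1 c5224 k0)) (by decide +kernel)
def c20693 : PP 9 3 T 0x21000200000000000000000000040000000000100000014060000000000000000050004010100000010040000000000004000000010020 := rS 0xb039804de979483b3b3b45a24d265 (k8 c18353 c18347 c18356 c18350 c20666 c20598 c6008 c19585 (k4 c20692 c5565 c53 c9719 (k2 c3602 c20691 k0))) (by decide +kernel)
def c20694 : PP 9 3 T 0x80040000000000000010000020 := rS 0xdecde33b (k4 c20666 c5811 c5487 c1902 (k1 c5649 k0)) (by decide +kernel)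
def c20695 : PP 9 3 T 0x44000000000000020000000000000000000000000040000000000000000084060000000000000000000000001100000000000000000000000000000010020 := rS 0x37b3d82576eb0338cce29f3b95cf25fc90f6b0af0ebc4e6019d82cda0994c055aa92216d0e4309a04de7dd023e262523c74960ecea2d126932a0cba59 (k8 c18352 c17796 c18355 c18353 c18347 c18356 c18350 c20598 (k8 c6008 c12627 c20673 c2350 c20674 c12622 c2405 c5675 (k8 c5566 c5565 c5380 c476 c1936 c10690 c872 c12615 (k8 c5531 c2034 c212 c19585 c16665 c5529 c717 c20666 (k8 c53 c9719 c5811 c1998 c10145 c20677 c5560 c20685 (k8 c5439 c5441 c5353 c5356 c20682 c20687 c20690 c20694 (k4 c3602 c5421 c2182 c20693 (k2 c18631 c20686 (k1 c5649 k0))))))))) (by decide +kernel)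
def c20696 : PP 9 3 T 0xa000010000000000000000000040000000100000000000000000000004000000000000000000000000000000000000000000000000000 := rS 0x326c9 (k2 c5396 c18631 (k1 c17489 k0)) (by decide +kernel)
def c20697 : PP 9 3 T 0x2000000000000020000000040000000000000000040000000000000000000000000000000000000000000000000000000000000000000004000000000020 := rS 0x354b159e31100cee520ecebf59e5d (k8 c17796 c5543 c5542 c20598 c6008 c19585 c20666 c53 (k4 c9730 c5811 c10195 c20314 (k2 c435 c20460 k0))) (by decide +kernel)
def c20698 : PP 9 3 T 0x6000000000000022000200000000000000000000040000000000000000000000000000000000000010000000000000000040000000000004000000000020 := rS 0x34c683edba5ab0772b9fcbf927898e76093ea7d4295ef81cc3b367ca41d9d349958a75 (k8 c18354 c18348 c18353 c18347 c20598 c6008 c19585 c5543 (k8 c20696 c5445 c713 c17700 c5446 c5398 c5448 c5566 (k8 c16665 c20666 c9754 c5811 c20697 c5439 c5358 c5353 (k8 c5356 c19711 c18020 c17831 c17896 c20460 c20105 c442 k0)))) (by decide +kernel)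
def c20699 : PP 9 3 T 0x22000200000000000000000000040000000000100000001000000000004000000000000000000000000000000000200008000000000020 := rS 0x324cb5a9c55c1c7186daed478ced93b39483b3a8b (k8 c18350 c20598 c6008 c19585 c20696 c5396 c20666 c5811 (k8 c390 c2185 c2043 c1662 c5649 c336 c2988 c1248 (k2 c1247 c17886 (k1 c12830 k0)))) (by decide +kernel)
def c20700 : PP 9 3 T 0x6000000000000022000200000000000000000000040000000000100000000000000000000000000010000000000000000000040000200000000000000020 := rS 0x3518870366619ecfbe9549bc6772907675facf (k8 c5543 c5542 c20598 c6008 c19585 c20666 c5811 c5444 (k8 c5446 c17700 c20696 c20699 c20698 c1902 c20694 c9332 (k2 c331 c5653 k0))) (by decide +kernel)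
def c20701 : PP 9 3 T 0x42000000000000001000200000000000000000000000004000100000000080000000000000000000001000001100000400080000000000000000000000000 := rS 0xe26f9e9accd69f7993b347ab502973ff850e79c933da27545a173083 (k8 c18355 c18346 c18349 c18350 c18354 c5501 c5543 c5209 (k8 c5441 c10690 c17952 c5358 c20692 c5380 c2034 c2405 (k8 c5487 c2063 c5224 c13297 c13053 c17880 c19198 c2516 (k2 c10298 c1775 k0)))) (by decide +kernel)
def c20702 : PP 9 3 T 0x42001800000000000000200000000000000000000000000000000000000080000000000000000000000000001100041000000000000000000000000000000 := rS 0xe26f9e9acd366a1d1e81689d51683 (k8 c18355 c18350 c18354 c5501 c5380 c2405 c10690 c5495 (k4 c5496 c17880 c19198 c2516 (k2 c10298 c1775 k0))) (by decide +kernel)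
def c20703 : PP 9 3 T 0x2000000000000029000200000000000000000000000000000100100000000000000000000000000000000000000000000000000000400800000000010020 := rS 0x124071e88c32039da74166d049ff25b7 (k8 c19230 c5209 c5358 c16665 c5529 c717 c5412 c20666 (k4 c54 c9701 c9734 c1681 (k2 c1675 c12293 (k1 c16946 k0)))) (by decide +kernel)
def c20704 : PP 9 3 T 0x44000000000000020000000000000000000000000040000000000000000084040000000000000000000000001100000000000000000000000000000010020 := rS 0x4ff8d96a11f350643bdba555fb2eff84fe793b8e52f922bec59ed1f63d489a00996c864756a3d0e1901ced569954c76264b79ca41d9dcc1d50a8b2ca24ba83 (k8 c18355 c17796 c18356 c18352 c18350 c18349 c18354 c18346 (k8 c20598 c6008 c19585 c445 c12627 c12622 c20673 c5531 (k8 c5530 c5413 c20666 c54 c9701 c10690 c2405 c2034 (k8 c2350 c1936 c872 c476 c5675 c12615 c20695 c5657 (k8 c5501 c5543 c20700 c19416 c5209 c20692 c393 c5912 (k8 c5441 c5358 c17952 c20702 c5224 c5406 c5488 c19230 (k8 c20703 c18109 c390 c389 c3000 c1660 c5576 c2879 (k1 c5680 k0)))))))) (by decide +kernel)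
def c20705 : PP 9 3 T 0x10000000000000000000000000000000000000000000000000011040000000000000000000000000040000000810000000000500 := rS 0x62072c9d4bac5 (k4 c18348 c17796 c18354 c18352 (k2 c1675 c1678 (k1 c10795 k0))) (by decide +kernel)
def c20706 : PP 9 3 T 0x25000000000000000000000000040000000000000000000000000000014000000000000001804000000000000000401000001000000020 := rS 0x9e0b24c76e370f859a35659e4fa771cb1fbc5fc915c32039da75320b36c4c13292d83b3ba15a9cc027159e60ea85 (k8 c18349 c18354 c18346 c5532 c2874 c53 c9719 c2402 (k8 c5568 c20598 c6008 c872 c19585 c16665 c12622 c5529 (k8 c717 c5530 c5412 c20666 c54 c9701 c19416 c5209 (k8 c9668 c5224 c794 c393 c5912 c5442 c5441 c8466 (k8 c5450 c5495 c17952 c2846 c13204 c20705 c17730 c5648 (k2 c12933 c1465 k0)))))) (by decide +kernel)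
def c20707 : PP 9 3 T 0x2001000000000022000000000000000000000000040000000000000000044040000000000000000000000001800000000000000000410000001000000020 := rS 0x57ac43ad71a0c4663a1bb55bde31cb8dc2cb2b9e4fa5fc93c6769d8aaa6272907675a3a15a9cc027159a4d3ea164a6fbe89 (k8 c18356 c17700 c5397 c5396 c5398 c5448 c5444 c5532 (k8 c2874 c53 c9719 c2402 c5568 c5501 c20598 c6008 (k8 c19585 c12622 c5531 c5414 c5412 c20666 c5811 c5215 (k8 c5439 c5442 c5441 c5353 c8466 c2846 c13204 c393 (k8 c19797 c6118 c3002 c2331 c5654 c492 c1678 c5653 (k4 c1763 c331 c15326 c10145 (k1 c10405 k0))))))) (by decide +kernel)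
def c20708 : PP 9 3 T 0x42000000000000020000000000000000000000000040000000000000000044040000000000000000000000001100000000000000000000000000000010020 := rS 0xf277c9201bee1f001cc3b01eecc824712d60e2b5d0a399f0168a1ce6018aacc166d89826520ecee60ea8532a25068b (k8 c18350 c18355 c18356 c18353 c18349 c18354 c18346 c20598 (k8 c6008 c19585 c16665 c12622 c5529 c717 c5532 c5414 (k8 c53 c9719 c5499 c5501 c5502 c5543 c3613 c5568 (k8 c2402 c2874 c17869 c12632 c10418 c12636 c18023 c5560 (k8 c20706 c5445 c713 c20707 c5460 c5538 c19544 c12653 (k2 c938 c5441 (k1 c17952 k0))))))) (by decide +kernel)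
def c20709 : PP 9 3 T 0x44000000000000020000000000000000000000000040000000000000000004040000000000000000000000001100000000000000000000000000000010020 := rS 0x10de900ac7b6073b7983b3a5d (k8 c17796 c20598 c6008 c445 c20666 c20704 c20708 c5171 (k4 c5694 c5657 c5561 c1927 k0)) (by decide +kernel)
def c20710 : PP 9 3 T 0x44000000000000020000000000000000000000000040000000000000000000040000000000000000000000001100000000000000000000000000000010020 := rS 0x5608ded7f03b3b3b (k8 c20666 c20598 c6008 c20709 c5544 c19573 c5171 c5562 k0) (by decide +kernel)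
def c20711 : PP 9 3 T 0x20000200000000000000000000000000000000000400000000000000000000000000000001000000000000000004000000000000014020 := rS 0x23c279d06884166d (k8 c5529 c717 c5528 c315 c20598 c5564 c5568 c12647 k0) (by decide +kernel)
def c20712 : PP 9 3 T 0x40002000000000040000100000000000000000000080000000100001000000000000000000000000400014400800000050000000000010000000000001440 := rS 0x65b8d03936f8e5c27b1d83c6eb5 (k8 c2402 c5518 c5329 c5332 c5457 c5460 c5534 c5538 (k4 c17959 c12653 c2404 c8797 (k1 c5920 k0))) (by decide +kernel)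
def c20713 : PP 9 3 T 0x40001000000000000000100040000000000000000000000000100000000000000000000000000000000000000000000000000000000000000000000080020 := rS 0x1f788ad9d (k4 c20598 c10195 c5188 c371 (k1 c5576 k0)) (by decide +kernel)
def c20714 : PP 9 3 T 0x45000000000000022000100000000000000000200080000000100000000008000000000000000000000000001000000000000000000000000008000000020 := rS 0x6a312d8cdaa1c223795ce370eccae793ee499be103a54c29b50a7d26f19dc541a2105ab44a125aa3a2649659b8e2b3ce9b4e601db90406c52c9d4ba85 (k8 c18349 c17796 c18354 c18352 c18348 c54 c5340 c9399 (k8 c53 c9719 c5529 c20598 c5532 c10427 c5666 c20625 (k8 c5334 c2570 c5675 c2402 c20540 c5559 c2892 c717 (k8 c5528 c315 c5414 c20666 c5811 c5444 c5448 c5398 (k8 c5397 c5445 c5446 c713 c20712 c17753 c20713 c5442 (k8 c5441 c5353 c18631 c2846 c13204 c20525 c5920 c2986 (k4 c10145 c3003 c390 c1995 (k2 c1996 c331 (k1 c10897 k0))))))))) (by decide +kernel)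
def c20715 : PP 9 3 T 0x40001000000000021000000000000000000000200080000000100000000000000000500000400001000014000000000000000000000000000000000000020 := rS 0x248709a6f864079d8a885663b248df6e57 (k8 c19416 c9399 c5518 c5334 c5332 c5532 c5528 c5414 (k8 c20598 c54 c9701 c14125 c5920 c18015 c9848 c324 k0)) (by decide +kernel)
def c20716 : PP 9 3 T 0x4000000000000001000000000000000000000000000000000100000000000000000000000000000010000000000000000000000000000014001000480060 := rS 0x625b0e2bb660178cecaf9262964ea5d (k8 c17796 c18354 c18352 c18348 c5209 c19416 c20666 c5811 (k4 c53 c20486 c20525 c10145 (k2 c1995 c1997 (k1 c10897 k0)))) (by decide +kernel)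
def c20717 : PP 9 3 T 0x45001000000000021000000000000000000000200080000000100000000000000000500000400001010004000000000000000000000000000008000080020 := rS 0xc331af782e92f1a800225 (k8 c5559 c53 c20715 c5578 c2928 c1068 c5204 c5450 (k2 c5492 c20716 (k1 c1564 k0))) (by decide +kernel)
def c20718 : PP 9 3 T 0x45000000000000020000100000000000000000200080000000100000000008000000000000000000000000001000000000000000000000000008000000020 := rS 0x161c9efc0e34fb84f27dc96c596038aa641a21058ec1ead1290424b54744c926e38acf3a6d398076e85 (k8 c18349 c9399 c53 c9719 c5529 c20598 c5532 c10427 (k8 c5666 c5334 c2570 c5675 c2402 c20540 c5340 c5559 (k8 c2892 c5329 c5332 c717 c5528 c315 c5530 c5414 (k8 c54 c20625 c20714 c5209 c5442 c5441 c2846 c2815 (k4 c13204 c20717 c5457 c5534 (k2 c18057 c12518 k0)))))) (by decide +kernel)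
def c20719 : PP 9 3 T 0x45000000000000020000100000000000000000200080000000000000000008040000000000000000000000001000000000000000004000000008000000020 := rS 0x5a3077c125f6a0d4f477649e7c2c770341bee3c9f8b62319404b6e4131a762a9906884761f079248e71599b56a8e89e74e601cc164ea85 (k8 c18349 c18354 c18352 c18346 c53 c9719 c20598 c2570 (k8 c5675 c2402 c5529 c5532 c10427 c5520 c5334 c5329 (k8 c5517 c5332 c5528 c315 c5530 c5414 c5412 c9754 (k8 c5340 c9399 c20540 c20718 c5434 c9578 c19025 c18119 (k8 c5466 c5580 c18863 c17934 c2486 c5459 c1539 c9610 (k8 c2132 c8113 c1704 c3012 c10245 c1685 c5454 c5663 (k2 c17897 c19460 k0))))))) (by decide +kernel)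
def c20720 : PP 9 3 T 0x45000000000000020000100000000000000000000080000000000000000008040000000000000000000000001000000000000000004000000008000000020 := rS 0x2759 (k2 c20719 c20576 (k1 c12635 k0)) (by decide +kernel)
def c20721 : PP 9 3 T 0x45000000000000000000000000000000000000000000000000000000000004000000000000000000000000000800000000000000000000000000000000000 := rS 0x80c0d1283 (k4 c18355 c18356 c2405 c2848 (k1 c5694 k0)) (by decide +kernel)
def c20722 : PP 9 3 T 0x80000000000000000000040000000000000000000000000004000000000000000000000000120001401 := rS 0x7996c1ef542965065d (k8 c17796 c18355 c18352 c18349 c5519 c5329 c1995 c333 (k1 c3571 k0)) (by decide +kernel)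
def c20723 : PP 9 3 T 0x400000000140000100000000000000800000004000000000500040000000140010000004000000000000000000000000040000104000000000000000 := rS 0x6cb6fcbf1853021aeffb694aa431e904a758b7c8f5baf7d964baf9 (k8 c18351 c17796 c18352 c18357 c5603 c5602 c5351 c5349 (k8 c5212 c5563 c5340 c5560 c5561 c5343 c9962 c5243 (k8 c5597 c5640 c3592 c3595 c17926 c5618 c3376 c3342 (k1 c5690 k0)))) (by decide +kernel)
def c20724 : PP 9 3 T 0x400000000101000000000000000000000000008000000000000000000000000000000000000000040000000000000000000000000008000000000000 := rS 0x79180da (k4 c392 c391 c17768 c5618 k0) (by decide +kernel)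
def c20725 : PP 9 3 T 0x400000000061000100000000000000800000080000000000500000000000140010000004000000000000000000000000040000104008000000800000 := rS 0xfb43b4b4751ee75fad7d964baf9 (k8 c18351 c17796 c18352 c18357 c5602 c5603 c17701 c1467 (k4 c20724 c9962 c20723 c5243 (k1 c5598 k0))) (by decide +kernel)
def c20726 : PP 9 3 T 0x45000400000000061000100010004000000000000080000000100100000000008140010008000000000010000000144008040000000104200008000000020 := rS 0x3e0dafab65d3e4fbee71b89bfea749678fb0c2c3249864425b65906b0033be3ef3924f9f4af3b04bedf2c53a9a4ca89 (k8 c18356 c18353 c18347 c18354 c18348 c18351 c18357 c16665 (k8 c20666 c19416 c8192 c2815 c5209 c5359 c5443 c5912 (k8 c54 c5212 c5340 c20625 c715 c5528 c9701 c324 (k8 c2559 c5648 c3792 c18029 c20725 c6187 c5388 c5389 (k8 c5610 c5611 c17936 c17992 c5227 c5472 c5621 c17779 (k2 c3609 c5208 (k1 c5627 k0))))))) (by decide +kernel)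
def c20727 : PP 9 3 T 0x8000000000000000000000000000000000000000000000000000000000000000000100000000000000000100010400000000000000000000000000000 := rS 0x8162a2cea89 (k4 c18356 c18354 c18350 c18348 (k2 c5463 c17987 k0)) (by decide +kernel)
def c20728 : PP 9 3 T 0x4000000000000040000000000000000000000100000000000000100000000000000000000000000000000000100000004000000000000000004000010020 := rS 0x38ac4ceaf126c8e6011480d5b3b45a24d265 (k8 c18353 c18347 c18356 c18350 c20666 c9614 c54 c9694 (k8 c53 c9719 c5229 c5651 c5406 c5487 c1093 c2754 (k1 c3602 k0))) (by decide +kernel)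
def c20729 : PP 9 3 T 0xa2000200000000000000000100000000000100000000000000000040000000000000000000000040000800000000000040002000000020 := rS 0x38882e12b1ed8e3fc997936a131e753b154cacc267d38a7d96b5 (k8 c5422 c5420 c5572 c5571 c5566 c5564 c5532 c5530 (k8 c5414 c5412 c20598 c9754 c5398 c5397 c17943 c12830 (k8 c2909 c2482 c1686 c10195 c10249 c12628 c3620 c18213 k0))) (by decide +kernel)
def c20730 : PP 9 3 T 0x400000000000000a0000200000000000000000100080000000100100000010000000040000000000000000000104040000800000008200000002000000020 := rS 0xf6e2708fbc63d20b599ad5678d4f277ef648afb19d8dd03133eecda6c53aa15068b (k8 c18350 c18355 c18349 c18354 c18348 c4887 c19230 c5566 (k8 c5382 c5380 c5518 c20666 c20729 c19416 c5209 c5224 (k8 c5912 c5441 c5450 c5453 c5454 c5495 c17880 c458 (k4 c2970 c20727 c18221 c16773 (k2 c408 c15912 (k1 c15064 k0)))))) (by decide +kernel)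
def c20731 : PP 9 3 T 0x25000000000000000000000000000000000000000000001000000000011000000000000450000000000000800000000000000000000000 := rS 0x67779929d55a655265 (k8 c18353 c5531 c5530 c5413 c5412 c1117 c17795 c3617 (k1 c5453 k0)) (by decide +kernel)
def c20732 : PP 9 3 T 0x80000200000008000000000000000000000000000000000000000000000000000000000000000000000000000000000000000008000020 := rS 0xb30aa8d3b (k4 c20666 c1080 c1079 c19639 (k1 c5601 k0)) (by decide +kernel)
def c20733 : PP 9 3 T 0x20000040000000000000000000000000000000000000000000000000000000000000000000800000000000000000108004020 := rS 0xc46935651b3e2e431f166bb03b90093c164da56741afb (k8 c18357 c315 c20598 c6008 c5521 c5516 c5335 c53 (k8 c5615 c3237 c1910 c1911 c19418 c320 c2658 c5603 (k4 c362 c3266 c6187 c3575 (k1 c5610 k0)))) (by decide +kernel)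
def c20734 : PP 9 3 T 0x800000000000040000000400000000010008000010000000800000010000002000000200 := rS 0x3b18457 (k4 c81 c577 c17460 c1783 k0) (by decide +kernel)
def c20735 : PP 9 3 T 0x2000000100040000800000000000000000400000000000000000000000000000000000000000000000000050000000000000005400 := rS 0x90e2ca3ab (k4 c5600 c5350 c5390 c5606 (k1 c3575 k0)) (by decide +kernel)
def c20736 : PP 9 3 T 0x445020000000000000400000000000000040000000000000000200000000000000000004000005000000000000000000000000000010000411000000000000 := rS 0x1f1fad19cadd (k4 c5471 c5622 c19773 c17827 (k2 c5624 c5208 k0)) (by decide +kernel)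
def c20737 : PP 9 3 T 0x80000200040000000000000000000000000000000000000000000080000000000000000000000004000000000000000100000000004020 := rS 0x24496113884c4f134782e959d (k8 c20598 c6008 c5516 c5568 c5382 c5570 c317 c5571 (k4 c719 c2510 c2949 c17098 k0)) (by decide +kernel)
def c20738 : PP 9 3 T 0x8000000000200 := rS 0x59 (k2 c18352 c271 k0) (by decide +kernel)
def c20739 : PP 9 3 T 0x8080000000000000000000000000000000000000000000000000 := rS 0x85 (k2 c18349 c2560 k0) (by decide +kernel)
def c20740 : PP 9 3 T 0x80000000000000000000000008000000000000000000000000000000000000000000000000000000000000000000000000000000000 := rS 0xf9 (k2 c18351 c3364 k0) (by decide +kernel)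
def c20741 : PP 9 3 T 0x8008000000000000000000000000000000000000000000000000000000000000000000000000000000000000000000000 := rS 0xf9 (k2 c18351 c3374 k0) (by decide +kernel)
def c20742 : PP 9 3 T 0x80000000000000000000000000000200000000000000000000000000000000000000000000000000000000000000000 := rS 0xf9 (k2 c18351 c3388 k0) (by decide +kernel)
def c20743 : PP 9 3 T 0x2000000000000000000000000500440000000000000000000000000001000000000000000000000000000000000000000000000000000000000000000000 := rS 0x41bed0af9 (k4 c18351 c18349 c18357 c18355 (k1 c17986 k0)) (by decide +kernel)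
def c20744 : PP 9 3 T 0x10000004000410000000000000000000000000000000000000015000000000000000000000000400000000000000000000000000000 := rS 0x3ab15f2fb (k4 c18357 c18351 c18348 c18354 (k1 c3609 k0)) (by decide +kernel)
def c20745 : PP 9 3 T 0x800000000000000000000000000000000002000000000000000000000000000000000000000000000000000000000000000000000000 := rS 0xfb (k2 c18357 c3231 k0) (by decide +kernel)
def c20746 : PP 9 3 T 0x200000000000000000000000000000000800000000000000000000000000000000000000000000000000000000000000000 := rS 0xfb (k2 c18357 c3257 k0) (by decide +kernel)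
def c20747 : PP 9 3 T 0x200000000000020000 := rS 0x8b (k2 c18350 c2966 k0) (by decide +kernel)
def c20748 : PP 9 3 T 0x80000000000000020000000000000000000000000000 := rS 0x8b (k2 c18350 c2988 k0) (by decide +kernel)
def c20749 : PP 9 3 T 0x200000000000000000000080000000000000000000000000000000 := rS 0x8b (k2 c18350 c2998 k0) (by decide +kernel)
def c20750 : PP 9 3 T 0x8000000000000000000000000002000000000000000000000000000000000000 := rS 0x8b (k2 c18350 c3008 k0) (by decide +kernel)
def c20751 : PP 9 3 T 0x540000000000000000100150400000000000000000000000000000 := rS 0x459d512c5 (k4 c18348 c18356 c18354 c18350 (k1 c3608 k0)) (by decide +kernel)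
def c20752 : PP 9 3 T 0x20000008000000000000000000000000000000000000000000000000000000000000000000 := rS 0x8b (k2 c18350 c3018 k0) (by decide +kernel)
def c20753 : PP 9 3 T 0x1000400000000000000000000050000054000000000000000000000000000000100000000000000000000000000000000000 := rS 0x45a25f2fb (k4 c18357 c18351 c18356 c18350 (k1 c3615 k0)) (by decide +kernel)
def c20754 : PP 9 3 T 0x800000000000000200000000000000000000000000000000000000000000000000440000000000000000100040000000000000000000000000000000 := rS 0x11675 (k2 c18354 c18350 (k1 c17880 k0)) (by decide +kernel)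
def c20755 : PP 9 3 T 0x8000000000000000000000000000000000000000000000000000000000000000000100000000000000000100110400000000000000000000000000000 := rS 0x449d516c5 (k4 c18348 c18350 c18354 c18356 (k1 c17987 k0)) (by decide +kernel)
def c20756 : PP 9 3 T 0x2000000000000000000000000000000080000000000000000000000000000000000000000000000000000000000000000000 := rS 0x89 (k2 c18356 c2856 k0) (by decide +kernel)
def c20757 : PP 9 3 T 0x80000000000000000000020000000000000000000000000000000 := rS 0x89 (k2 c18356 c2827 k0) (by decide +kernel)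
def c20758 : PP 9 3 T 0x20000000000000008000000000000000000000000000 := rS 0x89 (k2 c18356 c2817 k0) (by decide +kernel)
def c20759 : PP 9 3 T 0x8000800000000000000200000000000000000000000000000000000000000000000000100000000000000000000040000000000000000000000000000000 := rS 0x75 (k2 c18354 c17767 k0) (by decide +kernel)
def c20760 : PP 9 3 T 0x8000000000000041000000000000000000000100000000000100000000000000000000000000000000000000000110000000000000000000000000000000 := rS 0x3151275 (k4 c18354 c18356 c18348 c17989 k0) (by decide +kernel)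
def c20761 : PP 9 3 T 0x8000000000000000000000000000000000000000000000000000000000000000000000040000000000000000100150400000000000000000000000000000 := rS 0x1d58a89 (k4 c18356 c18348 c18354 c17990 k0) (by decide +kernel)
def c20762 : PP 9 3 T 0x400054000000000000000000000000001504000000000000000000000000000000000 := rS 0x45a0d0a89 (k4 c18356 c18349 c18355 c18350 (k1 c3613 k0)) (by decide +kernel)
def c20763 : PP 9 3 T 0x8000000000000000000000000000000000000000000020000000000000000000000000000000000000000000000000000000 := rS 0x75 (k2 c18354 c1558 k0) (by decide +kernel)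
def c20764 : PP 9 3 T 0x2000000000200 := rS 0x75 (k2 c18354 c1508 k0) (by decide +kernel)
def c20765 : PP 9 3 T 0x20000000000000800000000000000000000000 := rS 0x75 (k2 c18354 c1518 k0) (by decide +kernel)
def c20766 : PP 9 3 T 0x200000000000000000000200000000000000000000000000000000 := rS 0xc5 (k2 c18348 c1658 k0) (by decide +kernel)
def c20767 : PP 9 3 T 0x8000000000000000000008000000000000000000000000000000 := rS 0xc5 (k2 c18348 c1648 k0) (by decide +kernel)
def c20768 : PP 9 3 T 0x80000000000002000000000000000000000000 := rS 0xc5 (k2 c18348 c1639 k0) (by decide +kernel)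
def c20769 : PP 9 3 T 0x20000000000000000000000000000000000000000000000000008000000000000000000000000000000000000000000000000000000 := rS 0xc5 (k2 c18348 c1668 k0) (by decide +kernel)
def c20770 : PP 9 3 T 0x15040000000000000004005400000000000000000000000000000 := rS 0x3aa0d0ac5 (k4 c18348 c18349 c18355 c18354 (k1 c3607 k0)) (by decide +kernel)
def c20771 : PP 9 3 T 0x500440000000000000000000000000001500000000000000000000000000000004000000000000000000000000000000000 := rS 0x7ca0d0afb (k4 c18357 c18349 c18355 c18351 (k1 c3614 k0)) (by decide +kernel)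
def c20772 : PP 9 3 T 0x8000000000000000000000000000000000000000000000000000000008000 := rS 0x5d (k2 c17796 c445 k0) (by decide +kernel)
def c20773 : PP 9 3 T 0x8000000020000000000000 := rS 0x5d (k2 c17796 c435 k0) (by decide +kernel)
def c20774 : PP 9 3 T 0x54000000000000000000000000004000000000040000000000000000005400 := rS 0x2ea0cb285 (k4 c18349 c18352 c18355 c17796 (k1 c3571 k0)) (by decide +kernel)
def c20775 : PP 9 3 T 0x400081044000000015000000000144 := rS 0xba75 (k2 c18354 c17796 (k1 c5729 k0)) (by decide +kernel)
def c20776 : PP 9 3 T 0x440000000000400040000000004000000001400000000000000000000000000000000000000000000000040000000000000000000000 := rS 0x2ebedf259 (k4 c18352 c18351 c18357 c17796 (k1 c3573 k0)) (by decide +kernel)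
def c20777 : PP 9 3 T 0x8000000000800000000000000000000000000000000000000000000000000000000000000000000000 := rS 0x5d (k2 c17796 c464 k0) (by decide +kernel)
def c20778 : PP 9 3 T 0x400000044000000015000000000140 := rS 0x2e9658a75 (k4 c18354 c18348 c18352 c17796 (k1 c3567 k0)) (by decide +kernel)
def c20779 : PP 9 3 T 0x100000000000000000000000000000000000100000000000040000140000000000050000 := rS 0x2ea24b28b (k4 c18350 c18352 c18356 c17796 (k1 c12615 k0)) (by decide +kernel)
def c20780 : PP 9 3 T 0x80000000000000000002000000000000000000000000000000000000000000000000000000000000000000000000 := rS 0x59 (k2 c18352 c307 k0) (by decide +kernel)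
def c20781 : PP 9 3 T 0x8000000000000000000000000000000000000000000000000000000000800 := rS 0x85 (k2 c18349 c2530 k0) (by decide +kernel)
def c20782 : PP 9 3 T 0x2000000000000000000000000000000000002000000000000000000000000000 := rS 0x85 (k2 c18349 c2552 k0) (by decide +kernel)
def c20783 : PP 9 3 T 0x10000000000000000000000008000000000000000000000000000000000000000000004000000000000000000000000000005400 := rS 0x20cb285 (k4 c18349 c18352 c18355 c5777 k0) (by decide +kernel)
def c20784 : PP 9 3 T 0x800000000000000000000000000000000200000000000000000000000000000000000000000000000000000000000000000 := rS 0x85 (k2 c18349 c2580 k0) (by decide +kernel)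
def c20785 : PP 9 3 T 0x2000000000000000000002000000000000000000000000000000 := rS 0x83 (k2 c18355 c2385 k0) (by decide +kernel)
def c20786 : PP 9 3 T 0x200000000000000000000000000000002000000000000000000000000000000000000000000000000000000000000000000 := rS 0x83 (k2 c18355 c2414 k0) (by decide +kernel)
def c20787 : PP 9 3 T 0x80000000000080000 := rS 0x89 (k2 c18356 c2808 k0) (by decide +kernel)
def c20788 : PP 9 3 T 0x100001000000000000000000005000000004000001440000000000000000000000000 := rS 0x42994d283 (k4 c18355 c18347 c18353 c18349 (k1 c3601 k0)) (by decide +kernel)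
def c20789 : PP 9 3 T 0x200002000010004000000000000000000000000000000000000000000000000000000000000000000000040000000000000000000000000 := rS 0x329a5f6f9 (k4 c18351 c18357 c18347 c18353 (k1 c17936 k0)) (by decide +kernel)
def c20790 : PP 9 3 T 0x10045504000000000000000000000000000000000000000000000000000000000000000000040000000000000000000000000 := rS 0x329a5f6f9 (k4 c18351 c18357 c18347 c18353 (k1 c3603 k0)) (by decide +kernel)
def c20791 : PP 9 3 T 0x100000000000050000000400045400000000000000000000000 := rS 0x34b14ca75 (k4 c18354 c18353 c18348 c18347 (k1 c3597 k0)) (by decide +kernel)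
def c20792 : PP 9 3 T 0x200000000000000008000000000000000000000000000 := rS 0x65 (k2 c18353 c1146 k0) (by decide +kernel)
def c20793 : PP 9 3 T 0x150000000100000054040000000000000000000000000 := rS 0x329a5128b (k4 c18350 c18356 c18347 c18353 (k1 c3602 k0)) (by decide +kernel)
def c20794 : PP 9 3 T 0x8000008 := rS 0x65 (k2 c18353 c1109 k0) (by decide +kernel)
def c20795 : PP 9 3 T 0x200000000000000000000000000800000000000000000000000 := rS 0x65 (k2 c18353 c1117 k0) (by decide +kernel)
def c20796 : PP 9 3 T 0x82000000000000000000000000000000000000000000000000000000000000000000000000000000000000000000000000 := rS 0x65 (k2 c18353 c1155 k0) (by decide +kernel)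
def c20797 : PP 9 3 T 0x8200000000000000000000000000000000000000000000000000000000000000000000000000000000000000000000000 := rS 0x69 (k2 c18347 c1253 k0) (by decide +kernel)
def c20798 : PP 9 3 T 0x800008000000000000000000000000000000000000000000000000000000000000000 := rS 0x85 (k2 c18349 c2570 k0) (by decide +kernel)
def c20799 : PP 9 3 T 0x80000000000000000000000000000800000000000000000000000000000000000 := rS 0x83 (k2 c18355 c2405 k0) (by decide +kernel)
def c20800 : PP 9 3 T 0x20000000000000000000000000000800000000000000000000000000000000000 := rS 0x89 (k2 c18356 c2848 k0) (by decide +kernel)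
def c20801 : PP 9 3 T 0x80000008000000000000000000000000000000000000000000000000000000000000000000 := rS 0xf9 (k2 c18351 c3398 k0) (by decide +kernel)
def c20802 : PP 9 3 T 0x800000000000000000000020000000000000000000000000000000 := rS 0x75 (k2 c18354 c1549 k0) (by decide +kernel)
def c20803 : PP 9 3 T 0x20000000000000000000002000000000000000000000000000000 := rS 0x75 (k2 c18354 c1539 k0) (by decide +kernel)
def c20804 : PP 9 3 T 0x2000000000000000800000000000000000000000000 := rS 0x83 (k2 c18355 c2375 k0) (by decide +kernel)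
def c20805 : PP 9 3 T 0x8000000000000000800000000000000000000000000 := rS 0x65 (k2 c18353 c1137 k0) (by decide +kernel)
def c20806 : PP 9 3 T 0x20000000000080 := rS 0xc5 (k2 c18348 c1617 k0) (by decide +kernel)
def c20807 : PP 9 3 T 0x80000000000008000000000000000000000000 := rS 0x69 (k2 c18347 c1229 k0) (by decide +kernel)
def c20808 : PP 9 3 T 0x200002000000000000000000000000000000000000000000000000000000000000000 := rS 0x69 (k2 c18347 c1238 k0) (by decide +kernel)
def c20809 : PP 9 3 T 0x80000000000000000000000000000000000000000000000000000000002000 := rS 0x59 (k2 c18352 c291 k0) (by decide +kernel)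
def c20810 : PP 9 3 T 0x20000000000000000000000000000000000000000000000000000000002000 := rS 0x83 (k2 c18355 c2365 k0) (by decide +kernel)
def c20811 : PP 9 3 T 0x20000008 := rS 0x59 (k2 c18352 c263 k0) (by decide +kernel)
def c20812 : PP 9 3 T 0x80000000000000080000000000000000000000000000 := rS 0x69 (k2 c18347 c1245 k0) (by decide +kernel)
def c20813 : PP 9 3 T 0x200000000000000000000000000000000000000000000000000000000000000000080000 := rS 0x59 (k2 c18352 c299 k0) (by decide +kernel)
def c20814 : PP 9 3 T 0x20000000000000000000080000000000000000000004000000000000000000000000000000000000040000000000000000000000 := rS 0x198 (k2 c18346 c17728 k0) (by decide +kernel)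
def c20815 : PP 9 3 T 0x10040000000000000000000000000000000000000000000000020040000000000000000004000000000000000000000000000000 := rS 0x75 (k2 c18354 c8113 k0) (by decide +kernel)
def c20816 : PP 9 3 T 0x80000000000000000000000000000000000000000000000540000000000000000100110000000000000000000000000000000 := rS 0x22d8a89 (k4 c18356 c18348 c18350 c17999 k0) (by decide +kernel)
def c20817 : PP 9 3 T 0x200560000000000000000100054400000000000000000000000000000 := rS 0x2251675 (k4 c18354 c18350 c18356 c8163 k0) (by decide +kernel)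
def c20818 : PP 9 3 T 0x8000000000000000000000000000000000000000000000000000000400010000000000000000000000000001504000000000000000000000000000000000 := rS 0x20d0a89 (k4 c18356 c18349 c18355 c18000 k0) (by decide +kernel)
def c20819 : PP 9 3 T 0x400054000000000000000000000000001504000000000000000000000000000000000 := rS 0x10798 (k2 c18346 c18355 (k1 c18001 k0)) (by decide +kernel)
def c20820 : PP 9 3 T 0x200000000000000000000000000000000000000000000000000100000000000040000100000000000050000 := rS 0x459751259 (k4 c18352 c18356 c17796 c18350 (k1 c8187 k0)) (by decide +kernel)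
def c20821 : PP 9 3 T 0x8000800000000000000000000000000000000000000000000000000000000000000000000000000000000000000150000000000000000000000000000000 := rS 0x11275 (k2 c18354 c18356 (k1 c17829 k0)) (by decide +kernel)
def c20822 : PP 9 3 T 0x2000000000000000000000000000000000000000000000000000000000000000000000040000000400000000000000000000010000084 := rS 0x198 (k2 c18346 c8216 k0) (by decide +kernel)
def c20823 : PP 9 3 T 0x2000000000000000020000000000000000000000000000000000000000000000000005000000000000000000000400000000000000000000000000000 := rS 0x3aa158a83 (k4 c18355 c18348 c18349 c18354 (k1 c17944 k0)) (by decide +kernel)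
def c20824 : PP 9 3 T 0x100040000000000000000000000000000000000000000000000500000000100000000000010420001000000000000000000000080 := rS 0x44a2ceac5 (k4 c18348 c18354 c18350 c18356 (k1 c8284 k0)) (by decide +kernel)
def c20825 : PP 9 3 T 0x4000000000000000000100080000000000000000000000000000000000000000000000000100000100000050000100000041000000000000000000000000 := rS 0x34a2cea89 (k4 c18356 c18354 c18350 c18347 (k1 c18105 k0)) (by decide +kernel)
def c20826 : PP 9 3 T 0x20080000000000000000000000000000000000000000000000015000000000000000000000000000000000000000000000000000 := rS 0x18a85 (k2 c18349 c18348 (k1 c17834 k0)) (by decide +kernel)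
def c20827 : PP 9 3 T 0x4000000000000000000000000000000000000000000004000100100000000000000000000000000000000000000020000000004000100000000000000100 := rS 0x89 (k2 c18356 c8192 k0) (by decide +kernel)
def c20828 : PP 9 3 T 0xa001000000000000000020080000000000000000000000000000000000000000000400000000000000000000000000000000000000000000000000000000 := rS 0x22d8a89 (k4 c18356 c18348 c18350 c17946 k0) (by decide +kernel)
def c20829 : PP 9 3 T 0x8008000000000000000000080000000000000000000000000000000000000000000000400000000000000000000000000000000000000000000000000000 := rS 0x18a89 (k2 c18356 c18348 (k1 c17781 k0)) (by decide +kernel)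
def c20830 : PP 9 3 T 0x20000000000000000000080000000000000000000000000000014000000000000000000001400000000000000002000000000080 := rS 0x214eac5 (k4 c18348 c18354 c18349 c18050 k0) (by decide +kernel)
def c20831 : PP 9 3 T 0x20000000000000000000000000000000000000000000001000000000000000000001000000004000000440000000000000000000000000 := rS 0x34a14ca83 (k4 c18355 c18353 c18349 c18347 (k1 c18014 k0)) (by decide +kernel)
def c20832 : PP 9 3 T 0x10000000000000000000040008000000000000001054000000000000000005000000004000001000040000000000000440004000 := rS 0x8534a0cb265 (k4 c18353 c18352 c18355 c18347 (k2 c18349 c9250 k0)) (by decide +kernel)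
def c20833 : PP 9 3 T 0x4000000000000000000000000000000000000000000004000000100000000000000000000000000000000000100000000000040000140000000000040000 := rS 0x224ba59 (k4 c18352 c17796 c18356 c12659 k0) (by decide +kernel)
def c20834 : PP 9 3 T 0x100000000000000000000000000000000000000000000000000000000000000000000100000000000040000100000000000050000 := rS 0x198 (k2 c18346 c17837 k0) (by decide +kernel)
def c20835 : PP 9 3 T 0x2000000000000000000000000000000000000000000000000000400040000000000000000000000000001400001000000004000200008000000040000 := rS 0x18a8b (k2 c18350 c18348 (k1 c10675 k0)) (by decide +kernel)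
def c20836 : PP 9 3 T 0x20000000000000000000000000000000000000000000001000000000000000000000000000004000000440000000000000000000000001 := rS 0x198 (k2 c18346 c17838 k0) (by decide +kernel)
def c20837 : PP 9 3 T 0x200000000000000000000000000000000000000000000000000100000000000040000100000000000040000 := rS 0x198 (k2 c18346 c17783 k0) (by decide +kernel)
def c20838 : PP 9 3 T 0x2000000000000000000000000000000000000000040008000000000000000000000000000000000000000000000000000000000000000000000000005400 := rS 0x59 (k2 c18352 c10404 k0) (by decide +kernel)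
def c20839 : PP 9 3 T 0x10000000000000000000000000000000000100020000000000000000000080000000000000000400000000000000000000000000 := rS 0x85 (k2 c18349 c9308 k0) (by decide +kernel)
def c20840 : PP 9 3 T 0x80000000000000000000000000008000000000040000000000000000004000 := rS 0x59 (k2 c18352 c9904 k0) (by decide +kernel)
def c20841 : PP 9 3 T 0x8000000000000000000000000000000000000000000000000000000000000000100000002000000014000000000000000000000000000 := rS 0x198 (k2 c18346 c10167 k0) (by decide +kernel)
def c20842 : PP 9 3 T 0x2000400000000001000000040000000000000000000000000000000000000011000000000000000005000000000000400000000000000000000500000451 := rS 0x75 (k2 c18354 c10422 k0) (by decide +kernel)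
def c20843 : PP 9 3 T 0x8000000000000000000000000000000000000000000000000000000000000000100000000100000054000000000000000000000000000 := rS 0x11398 (k2 c18346 c18356 (k1 c17895 k0)) (by decide +kernel)
def c20844 : PP 9 3 T 0x2800000000010000000080000000000000000000000000000000100000000000000000000000001000000004000000400000000000000000000000000 := rS 0x85 (k2 c18349 c17950 k0) (by decide +kernel)
def c20845 : PP 9 3 T 0x40000000000000000000000000000000000000000000000000200000000000000000000000005000000000000000000000000 := rS 0x65 (k2 c18353 c10171 k0) (by decide +kernel)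
def c20846 : PP 9 3 T 0x2000000000000000000100000000000000000000000000000000001000040000000000000000001541000000000000050000000000000000000000000000 := rS 0x89 (k2 c18356 c10405 k0) (by decide +kernel)
def c20847 : PP 9 3 T 0x40000000000000000000000000000000000000020000000008000000000000000000000000000000000000000000000000140 := rS 0x5d (k2 c17796 c10085 k0) (by decide +kernel)
def c20848 : PP 9 3 T 0x8000000000000000000000000000000000000100000000000100000000000000000000000000000000000000000000000000004000015000000000000140 := rS 0x33089 (k2 c18356 c18346 (k1 c18052 k0)) (by decide +kernel)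
def c20849 : PP 9 3 T 0x4000000000000000001000000000100000000000040000000000000000000000015000011000148 := rS 0x65 (k2 c18353 c9863 k0) (by decide +kernel)
def c20850 : PP 9 3 T 0x200000000000000000000000000000000000000000000400000040000000010000000000100 := rS 0x1d4b398 (k4 c18346 c18352 c18354 c17897 k0) (by decide +kernel)
def c20851 : PP 9 3 T 0x80000000000000200000000000000000000000000000000040000000000000000000110000000000000000020000000040000 := rS 0xc5 (k2 c18348 c17899 k0) (by decide +kernel)
def c20852 : PP 9 3 T 0x1000000000000000000000000000000000000000040004000000000000001044000000000000000000000000004000001440000000000000000080000002 := rS 0x83 (k2 c18355 c18093 k0) (by decide +kernel)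
def c20853 : PP 9 3 T 0x15040000000000000004005400000000000000000000000000000 := rS 0x10b98 (k2 c18346 c18349 (k1 c18017 k0)) (by decide +kernel)
def c20854 : PP 9 3 T 0x2000000000000000000000000000000000000000000000000000000000000000000014000000000000000004001400000000000000000000000000000 := rS 0x214eb98 (k4 c18346 c18354 c18349 c17952 k0) (by decide +kernel)
def c20855 : PP 9 3 T 0x80000000000001000000000000000000204400000000000000000000000000000 := rS 0x198 (k2 c18346 c17786 k0) (by decide +kernel)
def c20856 : PP 9 3 T 0x1055000000000000000005000000000000001000080000000000000440000011 := rS 0x65 (k2 c18353 c9986 k0) (by decide +kernel)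
def c20857 : PP 9 3 T 0x2000000000000000000000000000000000000000000000000000000000000000000000050000000400040400000000000000000000000 := rS 0x3ab14ca69 (k4 c18347 c18353 c18348 c18354 (k1 c18020 k0)) (by decide +kernel)
def c20858 : PP 9 3 T 0x402000000000000000800000004000000000400000000000000000000000000000000000000000000000040000000000000000000000 := rS 0x7c974b2fb (k4 c18357 c18352 c17796 c18351 (k1 c9962 k0)) (by decide +kernel)
def c20859 : PP 9 3 T 0x800000000000000000000000000000000000000000000100000000000000000000400000000000000000100110000000004000000000000000010100 := rS 0x44a2ceac5 (k4 c18348 c18354 c18350 c18356 (k1 c18095 k0)) (by decide +kernel)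
def c20860 : PP 9 3 T 0x20000000000000000010000080000000000000000000000000000000000000000000005000000000000000000000000000000000000000000000000000000 := rS 0x1f6c5 (k2 c18348 c18357 (k1 c17845 k0)) (by decide +kernel)
def c20861 : PP 9 3 T 0x10000000000000000000000000000000000100000000000000000000000008000000000000001000000000000000000000000000 := rS 0x65 (k2 c18353 c9859 k0) (by decide +kernel)
def c20862 : PP 9 3 T 0x100001000000000000000000005000000004000001000040000000000000040000002 := rS 0x429a4ca83 (k4 c18355 c18353 c18347 c18349 (k1 c9248 k0)) (by decide +kernel)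
def c20863 : PP 9 3 T 0x2000000000000000000000000000000000000000200000000000000020000000000000040000000000000000000000000000000000000 := rS 0x3a9a4cac5 (k4 c18348 c18353 c18347 c18354 (k1 c9365 k0)) (by decide +kernel)
def c20864 : PP 9 3 T 0x2000000000000000000000000000000000000000200000000000000020000000000000000000000000000000000000000000000000000 := rS 0x198 (k2 c18346 c17698 k0) (by decide +kernel)
def c20865 : PP 9 3 T 0x8000000000000000000000000000000000000000200000000000000020000000000000000000000400004400000000000000000000000 := rS 0xea65 (k2 c18353 c18354 (k1 c17901 k0)) (by decide +kernel)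
def c20866 : PP 9 3 T 0x100001000000000000000000004000000004000001400000000000000000090000002 := rS 0x42994d283 (k4 c18355 c18347 c18353 c18349 (k1 c10497 k0)) (by decide +kernel)
def c20867 : PP 9 3 T 0x800000000000000000080000000000000000000000000000000000000000000000000000000000000000000000000000040000000041000000008000 := rS 0x1065d (k2 c17796 c18355 (k1 c9522 k0)) (by decide +kernel)
def c20868 : PP 9 3 T 0x42000000000000000000010000000000000000000000000000000000000000000000000000000000000000000000000001000000000200000000000000802 := rS 0x65 (k2 c18353 c17903 k0) (by decide +kernel)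
def c20869 : PP 9 3 T 0x10000000000000000000000000000000000100000000000000020000000000000080000004000000000000000000000000000000 := rS 0x85 (k2 c18349 c9609 k0) (by decide +kernel)
def c20870 : PP 9 3 T 0x1000000000014100000005001150000002000004000000000000000000000000 := rS 0x83 (k2 c18355 c9899 k0) (by decide +kernel)
def c20871 : PP 9 3 T 0x100000000000000000000000000000000000000000000000000800000000000000080000080000000000000000000000000000000 := rS 0x11669 (k2 c18347 c18350 (k1 c9915 k0)) (by decide +kernel)
def c20872 : PP 9 3 T 0x20080000000000000000000000000100000000000014000000005000000000000000000000400000040000000405000000005400 := rS 0x2e9658a85 (k4 c18349 c18348 c18352 c17796 (k1 c11041 k0)) (by decide +kernel)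
def c20873 : PP 9 3 T 0x1000400000000000000000000000000000000000000000000100000000000000000000001000000000000000000004400000000000000800000000000100 := rS 0xea59 (k2 c18352 c18354 (k1 c10739 k0)) (by decide +kernel)
def c20874 : PP 9 3 T 0x2000000000000000000000000000000000000000000000000000000000000050000000000000000000000000000000000000040000000000000000005400 := rS 0xbb98 (k2 c18346 c17796 (k1 c10910 k0)) (by decide +kernel)
def c20875 : PP 9 3 T 0x41001000000000055000200000000000000000000000000000000000000000000000000000000000000000000000040000000000000000000000000000000 := rS 0x75 (k2 c18354 c12392 k0) (by decide +kernel)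
def c20876 : PP 9 3 T 0x80000000000000000000020080000000000000000000000000000000000014000000000014000000000000000100100000000000000000000000000000000 := rS 0x10a89 (k2 c18356 c18349 (k1 c18054 k0)) (by decide +kernel)
def c20877 : PP 9 3 T 0x200000008000000000000000000000000000000000000000000100000020000000000000000000000000004 := rS 0x22cca59 (k4 c18352 c18353 c18350 c17908 k0) (by decide +kernel)
def c20878 : PP 9 3 T 0x200000000000000000000000008000000100000000000000000000000000000000000000000000000000000000000000000010000 := rS 0x174b28b (k4 c18350 c18352 c17796 c12681 k0) (by decide +kernel)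
def c20879 : PP 9 3 T 0x400000000000000000000000000000000000000000000000000000000014000000010000000000000000000000400000040000000200000000005400 := rS 0x2ea0cb285 (k4 c18349 c18352 c18355 c17796 (k1 c11029 k0)) (by decide +kernel)
def c20880 : PP 9 3 T 0x80000000000000000000000000000000000000000000000000000000000000000000000000000044000000015000000000040 := rS 0x2e9d4b2c5 (k4 c18348 c18352 c18354 c17796 (k1 c10897 k0)) (by decide +kernel)
def c20881 : PP 9 3 T 0x8000000000000000000000000000000000000000000000000400000004000000004000000000140 := rS 0x1658a75 (k4 c18354 c18348 c18352 c10693 k0) (by decide +kernel)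
def c20882 : PP 9 3 T 0x800000000000000020080000000000000000000000000000000000000000000000010000000000000000000000000000000000000000000000000000 := rS 0x85 (k2 c18349 c17747 k0) (by decide +kernel)
def c20883 : PP 9 3 T 0x5000000000000000000100000000000000000000000000000000000000054000000000000000000000000000504000000000000000000000000000000000 := rS 0x225068b (k4 c18350 c18355 c18356 c18077 k0) (by decide +kernel)
def c20884 : PP 9 3 T 0x1000400000000000000000000000000000000000000000000000000000000000000000001000000000000000004005000000044000000545000000005540 := rS 0x852e9658a75 (k4 c18354 c18348 c18352 c17796 (k2 c18349 c11199 k0)) (by decide +kernel)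
def c20885 : PP 9 3 T 0x10000000000000000000000000000000000000000000000000001040000000000000000000000000040000000811000000000140 := rS 0x62974ea59 (k4 c18352 c18354 c17796 c18348 (k1 c10795 k0)) (by decide +kernel)
def c20886 : PP 9 3 T 0x800000000000000000000040000000044000004011000000000140 := rS 0x2e964eac5 (k4 c18348 c18354 c18352 c17796 (k1 c10802 k0)) (by decide +kernel)
def c20887 : PP 9 3 T 0x200000000000001000000000000000000000040000000400080044000000000000000000140 := rS 0xea59 (k2 c18352 c18354 (k1 c10711 k0)) (by decide +kernel)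
def c20888 : PP 9 3 T 0x4000000000000000000000000000200000000000000000000800044040000000000000000000000 := rS 0x59 (k2 c18352 c10686 k0) (by decide +kernel)
def c20889 : PP 9 3 T 0x4000000000001000000080000000000000000000000000000000000000000000000500400000010000000100000020000000000000000000000000000 := rS 0x18a8b (k2 c18350 c18348 (k1 c18058 k0)) (by decide +kernel)
def c20890 : PP 9 3 T 0x8000000000000000000020000000000000000000000000000000000400000000000000000000000002000000000000020000000000000000000000000000 := rS 0x10a65 (k2 c18353 c18349 (k1 c12252 k0)) (by decide +kernel)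
def c20891 : PP 9 3 T 0x400000000004000000000000000000000000000000000000000000000000000000000000000000000000000000000000000000000010000000000220 := rS 0x198 (k2 c18346 c10902 k0) (by decide +kernel)
def c20892 : PP 9 3 T 0x200080000000000000000000000000000000000020000000000444000000000000001000000000000000000000000000000000000 := rS 0xc5 (k2 c18348 c11742 k0) (by decide +kernel)
def c20893 : PP 9 3 T 0x1000400000000000000000000000000000000000000000000000000000000000000000011000000000000000000008000000000000000000000000000000 := rS 0xc5 (k2 c18348 c11210 k0) (by decide +kernel)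
def c20894 : PP 9 3 T 0x50000000000000000004000000000000002000040000000000000020005400 := rS 0xbb98 (k2 c18346 c17796 (k1 c10929 k0)) (by decide +kernel)
def c20895 : PP 9 3 T 0x8000000040000000000000000000000000000000000000001000000000000000000000000000000000001000000000015000004400008 := rS 0x65 (k2 c18353 c14092 k0) (by decide +kernel)
def c20896 : PP 9 3 T 0x4000000000008000100000000000000000000000004000200000000000001000000000100000000004000000000000000000000010014000000000008 := rS 0x65 (k2 c18353 c14367 k0) (by decide +kernel)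
def c20897 : PP 9 3 T 0x200000000000000000100040008000000000000004000000000000000000000000001004000000000000005000000000000000000 := rS 0x20d0a8b (k4 c18350 c18349 c18355 c13510 k0) (by decide +kernel)
def c20898 : PP 9 3 T 0x5000000000000000000000000000000000000000000000000000000044000000500040040000000000001504000000000000000000000000000000000 := rS 0x41a2d0a89 (k4 c18356 c18349 c18350 c18355 (k1 c14198 k0)) (by decide +kernel)
def c20899 : PP 9 3 T 0x200000000000000000100040008000000000000004000000000000000000000000000000000000000000001000000001080004001 := rS 0x2151683 (k4 c18355 c18350 c18349 c14174 k0) (by decide +kernel)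
def c20900 : PP 9 3 T 0x20000020000000000000000000000000000000000000001000000000000000000001000000004000000040000000000000000000000000 := rS 0x194d285 (k4 c18349 c18347 c18353 c17965 k0) (by decide +kernel)
def c20901 : PP 9 3 T 0x4000000000000044000010000000000000000000000000000000000500014000000000000000000040000001504000000480000000000000000000000000 := rS 0x2250a83 (k4 c18355 c18349 c18356 c12826 k0) (by decide +kernel)
def c20902 : PP 9 3 T 0x210000000000000000000000008000000000000040000000000000000000000000000000000000000000002000000000000000400 := rS 0x1068b (k2 c18350 c18355 (k1 c12930 k0)) (by decide +kernel)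
def c20903 : PP 9 3 T 0x82000000000000000000200000000000000000000000000000000000000000000000000000000000000000000000000000000000000000000000000000000 := rS 0x215068b (k4 c18350 c18355 c18349 c17809 k0) (by decide +kernel)
def c20904 : PP 9 3 T 0x1001400000000000000000000000000000000000000000000100000100001000000000010100000001000144004005001044400000000000000040000002 := rS 0x34a14ca83 (k4 c18355 c18353 c18349 c18347 (k1 c13988 k0)) (by decide +kernel)
def c20905 : PP 9 3 T 0x8000020000000000000000000040000000000000000000000000000000000000000000000000000000000000000000000000104000002 := rS 0x85 (k2 c18349 c13932 k0) (by decide +kernel)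
def c20906 : PP 9 3 T 0x1000000000000000010040000000000000000000000000000000000000054000000002000000000000000004004000000040000000100000000004400 := rS 0x2ea0cb285 (k4 c18349 c18352 c18355 c17796 (k1 c14036 k0)) (by decide +kernel)
def c20907 : PP 9 3 T 0x2000000000000000020080000000000000000000000000000000000000000000000004000000000000000000000000000000000000000000000000000 := rS 0x10ac5 (k2 c18348 c18349 (k1 c13267 k0)) (by decide +kernel)
def c20908 : PP 9 3 T 0x200000000000000000000000000000000000000014000000080400000000000000000004000800000000000000000000000000000 := rS 0x11685 (k2 c18349 c18350 (k1 c14418 k0)) (by decide +kernel)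
def c20909 : PP 9 3 T 0x4000400000000000000000000000000000000000000000000000000000000000000000440000000000000000000200000000000000000000000000000000 := rS 0xc5 (k2 c18348 c13318 k0) (by decide +kernel)
def c20910 : PP 9 3 T 0x8000000000000041000000080000000000000000000000000000000000000000000000400400000050000000100000044040000000000000000000000000 := rS 0x6932a2516c5 (k4 c18348 c18350 c18356 c18353 (k2 c18347 c14390 k0)) (by decide +kernel)
def c20911 : PP 9 3 T 0x5000000000000000100040000000000000000000000000000000000044000000400040040000000000001504014000000000000000000000000000000 := rS 0x44a151683 (k4 c18355 c18350 c18349 c18356 (k1 c14199 k0)) (by decide +kernel)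
def c20912 : PP 9 3 T 0x48000100000000000000000000000000000000000000000001000000000000000000000000000000050000000000100000000000000008 := rS 0x65 (k2 c18353 c14312 k0) (by decide +kernel)
def c20913 : PP 9 3 T 0x80000000000000000000000000000000000000000000000000100000000000050000000400041000000000000000000000000 := rS 0x1958a69 (k4 c18347 c18348 c18353 c18033 k0) (by decide +kernel)
def c20914 : PP 9 3 T 0x800000000000000200000000000000000100000000000000000000000000000000000000000000000000000000000000000000004001000000000080 := rS 0xea8b (k2 c18350 c18354 (k1 c17915 k0)) (by decide +kernel)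
def c20915 : PP 9 3 T 0x2000000000000000000020000000000000000000000000000000000000000000000000000000000001000000000000001440000000000000000000000000 := rS 0xd265 (k2 c18353 c18347 (k1 c17916 k0)) (by decide +kernel)
def c20916 : PP 9 3 T 0x80000000000000000000000000100000000000000000000000000000000000054000000000040000000000004000001000002 := rS 0x1a4cac5 (k4 c18348 c18353 c18347 c18079 k0) (by decide +kernel)
def c20917 : PP 9 3 T 0x10080000000000000000000008000000000000000000000000001000000000000000000000000000000000000800000000000400 := rS 0xb2c5 (k2 c18348 c18352 (k1 c12686 k0)) (by decide +kernel)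
def c20918 : PP 9 3 T 0x8004000000000000000000080000000000000000000000000100000000000000000000400000000000000000100000000000000000050000000000020000 := rS 0xc5 (k2 c18348 c13377 k0) (by decide +kernel)
def c20919 : PP 9 3 T 0x4000000000000000100040000000000000000000000000000000000000000000000000000000150010000100010850040000000000000000000000000 := rS 0x1a4ca8b (k4 c18350 c18353 c18347 c14264 k0) (by decide +kernel)
def c20920 : PP 9 3 T 0x800000000000000000080000000000000000000000000000000000000000000000000000000000000010000000000041000000000000000000000000 := rS 0xd265 (k2 c18353 c18347 (k1 c17866 k0)) (by decide +kernel)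
def c20921 : PP 9 3 T 0x1000000000000000000000000000000000000000000000000000000000000000000000001080000000000000004000800000000000000000000000000000 := rS 0x85 (k2 c18349 c14679 k0) (by decide +kernel)
def c20922 : PP 9 3 T 0x150000000100000050040000000000000000000020004 := rS 0x34994b28b (k4 c18350 c18352 c18353 c18347 (k1 c14568 k0)) (by decide +kernel)
def c20923 : PP 9 3 T 0x81000400000000019000220080000000000000000000000000000000000000000000000011000000000000000000000000000000000000000000000000000 := rS 0x65 (k2 c18353 c14651 k0) (by decide +kernel)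
def c20924 : PP 9 3 T 0x800000000000000200000000000000000000000000000000000000000000000000000000000100008000000000000004000000000000000000000000 := rS 0x11675 (k2 c18354 c18350 (k1 c14179 k0)) (by decide +kernel)
def c20925 : PP 9 3 T 0x41000000000000000000200000000000000000000000000000000000000050020000000000000000000000001004000000000000000400000000000000000 := rS 0xba83 (k2 c18355 c17796 (k1 c15775 k0)) (by decide +kernel)
def c20926 : PP 9 3 T 0x400044020000000000000000000000001504000000000080000040000000000000000 := rS 0x20d0a8b (k4 c18350 c18349 c18355 c16126 k0) (by decide +kernel)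
def c20927 : PP 9 3 T 0x8000000000000000000200000000000000000000000008000000000000000000000000000000000000000000000000000000000000000000000000010000 := rS 0x59 (k2 c18352 c17287 k0) (by decide +kernel)
def c20928 : PP 9 3 T 0x2000000000000040000210000000000000000000000000000000100000040000000000000000000010000000000000000000000005900000000000004000 := rS 0x1a51659 (k4 c18352 c18350 c18347 c15923 k0) (by decide +kernel)
def c20929 : PP 9 3 T 0x40004000000000000000200080000000000000000000000000000000000000000000140054400000000000001004000002000000000000000000000000000 := rS 0x20d8a85 (k4 c18349 c18348 c18355 c15137 k0) (by decide +kernel)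
def c20930 : PP 9 3 T 0x8000000000000050000020000000000000000000000000000000001400000000000000000000000018000000100000000000000000000000000000000000 := rS 0x10a89 (k2 c18356 c18349 (k1 c15022 k0)) (by decide +kernel)
def c20931 : PP 9 3 T 0x50000020000000000000000000000000000000000000044000000000000000001010000000100000020000000000000000000000000000 := rS 0x45a250685 (k4 c18349 c18355 c18356 c18350 (k1 c16325 k0)) (by decide +kernel)
def c20932 : PP 9 3 T 0x4000000000041000000080000000000000000000000000100000000000000000000000000000000014050000100000044000000000004000001000000 := rS 0x1a4cac5 (k4 c18348 c18353 c18347 c15667 k0) (by decide +kernel)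
def c20933 : PP 9 3 T 0x1000000080000000000000000000000000100000000000000000000000000000000000054000000000044000000000004000001000040 := rS 0x314ca69 (k4 c18347 c18353 c18348 c15668 k0) (by decide +kernel)
def c20934 : PP 9 3 T 0x40000000000000000000000000100000000000000000000800000000000000000000100000000004000080000000000000000 := rS 0x75 (k2 c18354 c16610 k0) (by decide +kernel)
def c20935 : PP 9 3 T 0x200000000000000000100000004000000100000014010000000000000000000000001004000000000000000100000000000000000 := rS 0x22d0685 (k4 c18349 c18355 c18350 c15061 k0) (by decide +kernel)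
def c20936 : PP 9 3 T 0x20000200000000000000000000000000000000000000009000000000000000000000000000000000010400000000000000000000000000 := rS 0x8b (k2 c18350 c14972 k0) (by decide +kernel)
def c20937 : PP 9 3 T 0x200000000000000000000000000000000002000000000000000000000000054000001100000040040000000000000000000000000 := rS 0x1a51665 (k4 c18353 c18350 c18347 c15394 k0) (by decide +kernel)
def c20938 : PP 9 3 T 0x1000000080000000000000000000004000100000000000000000000000000000000000054000000000040000000000004000001000040 := rS 0x65 (k2 c18353 c18084 k0) (by decide +kernel)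
def c20939 : PP 9 3 T 0x200080000000000000000000000000000000000000000000140054000000000001001004000002000000000000000000000000000 := rS 0x21506c5 (k4 c18348 c18355 c18349 c15136 k0) (by decide +kernel)
def c20940 : PP 9 3 T 0x8000000000000000000000000000000000000000000004000100000000000000000000000000000000000000000050400000000000010014000000020000 := rS 0x1d58a59 (k4 c18352 c18348 c18354 c15195 k0) (by decide +kernel)
def c20941 : PP 9 3 T 0x400010000000800005000000000000000004005400000000000000000000000000000 := rS 0x41a14eac5 (k4 c18348 c18354 c18349 c18355 (k1 c15064 k0)) (by decide +kernel)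
def c20942 : PP 9 3 T 0x1000000000000028000000000000000000000000080004000200000000000001000000001000000000000000000000000000400000000000000000000108 := rS 0x65 (k2 c18353 c14988 k0) (by decide +kernel)
def c20943 : PP 9 3 T 0x4400000000009000200000000000000000000000004000100000000000000000000000000000000020000000040000000000000010000000001400000 := rS 0x65 (k2 c18353 c15670 k0) (by decide +kernel)
def c20944 : PP 9 3 T 0x49000000000000000000000100000000000000000000000001000000000000000000000008100110400002080000000000005001000000 := rS 0x224eac5 (k4 c18348 c18354 c18356 c15230 k0) (by decide +kernel)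
def c20945 : PP 9 3 T 0x200000000000000000000000000000000000000000000000000000000000050000000000000000040080000000000002000000010 := rS 0xd265 (k2 c18353 c18347 (k1 c14996 k0)) (by decide +kernel)
def c20946 : PP 9 3 T 0x200000000000000000200000008000000000000000000000000000000000000000000000000000000000000000000000000000000 := rS 0xb28b (k2 c18350 c18352 (k1 c17561 k0)) (by decide +kernel)
def c20947 : PP 9 3 T 0x1000000000008000010040000000000000000000000000000000000000000000000015040000005001100000004000004000000000000000000000000 := rS 0x65 (k2 c18353 c17576 k0) (by decide +kernel)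
def c20948 : PP 9 3 T 0x10000000000000010200044000000000800000000000000054400000000000000000000001000000000000000000000000001000000000000000010000 := rS 0x5e241a529eac278d (k8 c5569 c5564 c5600 c5605 c17797 c12621 c5671 c3319 k0) (by decide +kernel)
def c20949 : PP 9 3 T 0x80000200000000000000000000000000000000000000000000080000000000000000000000000000000000000000000000000000000220 := rS 0xd594c58a652ee70321d259c23855e9c6fa7300e4f63e52ab06463f93a064ba94904cdf1f51e3f1a5e (k8 c312 c5569 c3246 c1524 c578 c5565 c5564 c311 (k8 c4321 c2959 c4283 c3357 c3657 c2956 c3658 c3354 (k8 c5623 c5444 c5438 c53 c9719 c9703 c5571 c5575 (k8 c5423 c719 c20948 c6187 c5606 c5607 c17948 c1123 (k4 c5681 c1807 c3273 c3266 (k1 c12621 k0)))))) (by decide +kernel)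
def c20950 : PP 9 3 T 0x10000000000000080000000000000000000000000000000000000000000000000000000000000000140000000000000000000000000000000000000220 := rS 0x53ee455760b8076292 (k8 c311 c5444 c53 c1507 c721 c722 c5613 c1099 (k1 c5681 k0)) (by decide +kernel)
def c20951 : PP 9 3 T 0x200000000000000000000000000000000000000000000080000000000000000000000000000000000000000000000000000000220 := rS 0x29f722d5e14b56a590e174959b390022256509b6ea38fe3d3f8d3e9bc26011480f27b1f1f94aac1918fe4e8192ea5245e (k8 c312 c311 c4321 c2959 c4283 c3357 c3657 c2956 (k8 c3658 c3354 c5623 c5581 c5444 c5438 c54 c9694 (k8 c53 c5564 c5565 c5566 c5569 c1522 c3246 c578 (k8 c1524 c20949 c5813 c5711 c60 c2859 c1753 c20948 (k8 c5340 c6187 c19799 c5606 c1328 c20950 c12621 c2866 (k4 c3274 c5617 c1807 c5681 k0)))))) (by decide +kernel)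
def c20952 : PP 9 3 T 0x10000000000000010000044000000000000000000000000002000000000000000000000001000000000000000000000000000000000000000000000000 := rS 0x2f3a5 (k2 c5606 c3319 (k1 c5671 k0)) (by decide +kernel)
def c20953 : PP 9 3 T 0x80000000000000000000000000000000000000000000000080000000000000000000000000000000000000000000000000000000220 := rS 0xa4bb18407e551af76da1c9ec525e3 (k8 c5581 c311 c5444 c5438 c20951 c5236 c5575 c3291 (k4 c5623 c54 c1574 c721 (k2 c20950 c3328 k0))) (by decide +kernel)
def c20954 : PP 9 3 T 0x50000001000000000000000000000000044000000000000080000000001000000000000000000000000000400000000000000050200 := rS 0x4863f8fc9f94ab25 (k8 c2959 c3354 c5623 c5438 c3246 c578 c20952 c12621 k0) (by decide +kernel)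
def c20955 : PP 9 3 T 0x80000000000000000000000000000000000000000000000000000000220 := rS 0x2e5d299c462cda90899f94b8ebcc7aceb75da9f71a5c66ad1ff372b9d8ee26fa8ca641f026d7a9f599c6b1b5db04c4a1125e864b2791f97c6238880452032be4d823fd8ea5025e23a74774a07ca33a92 (k8 c311 c20598 c16665 c19585 c6008 c5332 c1694 c5520 (k8 c312 c4283 c4321 c5444 c3657 c3658 c5438 c81 (k8 c54 c9694 c53 c9730 c9734 c5581 c5623 c2956 (k8 c3357 c2959 c20951 c12639 c15516 c12632 c19025 c5236 (k8 c17828 c12635 c5571 c5574 c5572 c5575 c8100 c5235 (k8 c5340 c5563 c3291 c13097 c15026 c5535 c5461 c5539 (k8 c19019 c2404 c20953 c20954 c5611 c5237 c5428 c5430 (k8 c5616 c17708 c6187 c813 c578 c1124 c3247 c809 (k8 c5675 c746 c1005 c3045 c1521 c1560 c3254 c3621 k0))))))))) (by decide +kernel)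
def c20956 : PP 9 3 T 0x2010000000000000000000000000800000000000040000000400400000000008000000000000800000000000000000000000 := rS 0x4f1c57aa353ee2ee2d76a05dfa952de5427f (k8 c2925 c1122 c3323 c1124 c4321 c2855 c4283 c3263 (k8 c9711 c9710 c19418 c1807 c1525 c5617 c2876 c3622 (k1 c1523 k0))) (by decide +kernel)
def c20957 : PP 9 3 T 0x2000000000000000000000000000000000000000000000000000000000000000000000000000000000000000000000000220 := rS 0x1f7c64029b0e47668fb2cfebf77e15dba5d0956fa7300e4d823f1eeb651a94097924eb (k8 c20955 c311 c312 c4283 c4321 c16665 c5437 c5436 (k8 c3657 c3658 c5438 c53 c9719 c9703 c12612 c5569 (k8 c5611 c3263 c3261 c2855 c2853 c2925 c20621 c20956 (k8 c6187 c2851 c5348 c5605 c3592 c5462 c12625 c5670 k0)))) (by decide +kernel)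
def c20958 : PP 9 3 T 0x4000000000000000100000000000000000000000000000044400000000000500000000000000000000000000040000000000400000000000000000220 := rS 0xa4c0eab492151f96cec22ac9483583e04c5f93608fc7bad946c5025e493af1a11 (k8 c15516 c20957 c20955 c311 c312 c4283 c5444 c16665 (k8 c5437 c5436 c3657 c3658 c5438 c9709 c19025 c5670 (k8 c12635 c12625 c3098 c5343 c3592 c5348 c5468 c1609 (k4 c3670 c6187 c12621 c5607 (k2 c20950 c1123 k0))))) (by decide +kernel)
def c20959 : PP 9 3 T 0x100000010000000000000000000000044400000000000500000000000400000000000000040000000000400000000000000000220 := rS 0x280b2f6a65ec493e6e489c425ab52e27038b92e9242a3f2d9d8455ac0376e21da23fc2e0f9b7dc641f10bc462901b047e391b8f75bb13d8ec924f0591c9b4a07ca33aebc692c4a1165a05259339805425e (k8 c312 c1122 c53 c9719 c5438 c311 c4283 c20621 (k8 c15516 c12632 c12639 c20957 c20955 c20598 c16665 c19585 (k8 c6008 c5521 c5520 c5516 c5335 c5334 c5332 c4243 (k8 c5444 c5437 c5436 c5435 c3656 c3657 c3658 c54 (k8 c9694 c9734 c9709 c20958 c5462 c5466 c5580 c17862 (k8 c3590 c5460 c2847 c5235 c5528 c17828 c315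 c5212 (k8 c5343 c3592 c5348 c5468 c1609 c3670 c6187 c5391 (k8 c5390 c5607 c5610 c1123 c20950 c12621 c2869 c3036 (k8 c318 c1523 c5675 c2821 c3622 c960 c1807 c3575 (k1 c362 k0)))))))))) (by decide +kernel)
def c20960 : PP 9 3 T 0x100000010000000000000000000000008400000000000500000000000400000000000000040000000000000000000000000000220 := rS 0x73b95367863a40dab94cba567b45dc55c1f36fee0e0e33e6dd3cb752a8f1381c7a9f482d5e907ef67178fc72371e9ec92474e8ee940f94675d64b65a05259339805425e (k8 c312 c1122 c53 c9719 c5438 c311 c4283 c20621 (k8 c12639 c20955 c20598 c16665 c19585 c6008 c5332 c1694 (k8 c5520 c5334 c4243 c5436 c5435 c3656 c3657 c9709 (k8 c5351 c5594 c616 c2902 c365 c6187 c1807 c5608 (k8 c5607 c5610 c1524 c1123 c12165 c3622 c5572 c1522 (k8 c4174 c1523 c5687 c4858 c17862 c3590 c4974 c5430 (k8 c5241 c2899 c1830 c5802 c5415 c5529 c10427 c800 (k4 c3041 c1120 c8099 c1543 (k1 c3621 k0))))))))) (by decide +kernel)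
def c20961 : PP 9 3 T 0x100001000000000000000000000000000000000000000000000000000000000000000000000000000000800000000000000000020 := rS 0x2759 (k2 c5563 c2812 (k1 c12635 k0)) (by decide +kernel)
def c20962 : PP 9 3 T 0x100000000000000000000000000000044400000000000500000000000000000000000000040000000000000000000000000000220 := rS 0x1855f9b84c12d5a970325d248547e5b3b08ab58dbed3c2e06fb8c83e21788c5203c9b047e392f0dc7badd8a48764923d281f28cebac962508804a78d (k8 c20957 c20961 c53 c15516 c12632 c12639 c20955 c20598 (k8 c16665 c19585 c6008 c5520 c5334 c5332 c311 c5444 (k8 c5437 c5436 c5435 c312 c3656 c3657 c3658 c5438 (k8 c54 c9694 c9734 c9709 c20958 c5462 c5466 c5580 (k8 c3590 c5460 c5235 c17828 c5212 c5343 c3592 c5348 (k8 c5468 c1609 c3670 c6187 c5391 c5607 c1123 c20950 (k4 c12621 c317 c318 c3100 (k2 c1151 c20959 k0)))))))) (by decide +kernel)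
def c20963 : PP 9 3 T 0x100000000000000000000000000000048400000000000000000000000800000000000000040000000000000010000000000000220 := rS 0x28dec420d896d11e91f9b8dc06e6ff8ab115db89859ab159c567b9178e46fb13d8ec924f0591c9a2508b2d0292c99cc02a12f4864b8b5be274967a503e519d (k8 c20598 c16665 c19585 c6008 c5351 c6187 c5610 c12165 (k8 c5390 c5391 c3673 c312 c1122 c53 c9719 c5438 (k8 c311 c4283 c20621 c15516 c12632 c5521 c5520 c5516 (k8 c5335 c5334 c5332 c4243 c5444 c5435 c3656 c9709 (k8 c5431 c3106 c3102 c1105 c722 c5652 c364 c5570 (k8 c3046 c5212 c5236 c14125 c5666 c17960 c5466 c19019 (k8 c3038 c2847 c5241 c5675 c14556 c5528 c960 c362 (k1 c3575 k0)))))))) (by decide +kernel)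
def c20964 : PP 9 3 T 0x100000000000000000000000000000040400000000000500000000000000000000000000040000000000000000000000000000220 := rS 0x1cee53c26d8e905da64dab974c6d67e1da383e6df719c3c4a737edf08bf5ba954789c0e3f4841b3c887e391b8f7627b2491d3a3ba503e519d25b2d025e4964ce601 (k8 c53 c9719 c5438 c311 c312 c4283 c20621 c12639 (k8 c20598 c16665 c19585 c6008 c5332 c1694 c5520 c5334 (k8 c4243 c5444 c5436 c5435 c3656 c3657 c20962 c5351 (k8 c616 c6187 c5608 c5607 c5610 c1524 c1123 c12165 (k8 c20963 c20960 c5423 c1150 c1350 c5236 c5666 c5466 (k8 c5580 c17862 c3590 c5241 c5460 c2899 c3133 c1830 (k8 c5415 c5529 c5530 c1354 c10427 c800 c1120 c5669 (k2 c8099 c1543 (k1 c3621 k0))))))))) (by decide +kernel)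
def c20965 : PP 9 3 T 0x10040100000000000000000000000010000000000000810000000000054000541102000044000000800000000000000000000000 := rS 0xe772a6e36c7 (k4 c800 c3129 c1120 c8099 (k2 c1733 c3621 k0)) (by decide +kernel)
def c20966 : PP 9 3 T 0x40000100000500000000000000000000000051404000000000800000000000000000540000000040000000000000010000000000000220 := rS 0xe5fa941cf7b8db1a24794883532215cba51fe1da383e6df71f8b263f1c8dc7a7b2f1249e0b239353a3b25ade940f9467756bbdc7976292 (k8 c311 c5444 c5473 c5681 c5430 c20950 c20598 c16665 (k8 c19585 c6008 c12165 c12639 c5332 c1694 c5521 c5520 (k8 c5516 c5335 c5334 c312 c4243 c5436 c5435 c3656 (k8 c3657 c5438 c5236 c5466 c5580 c17862 c3590 c5241 (k8 c5460 c2847 c1831 c5415 c5528 c5530 c315 c20965 (k8 c1542 c5675 c5669 c2690 c960 c1733 c3575 c5552 (k2 c2520 c8109 k0))))))) (by decide +kernel)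
def c20967 : PP 9 3 T 0x100000000000000000000000000000048400000000000100000000000000000000000000040000000000000000000000000000220 := rS 0x6448a37b3e463c6e26fb86b09b09ed44e9f59edb56a752a8c5b89c0e3f17255fe9242418bd9c462901e4c7237d8a04bc492782c9a9d1dd281f28cea48962508807caee (k8 c20964 c5473 c53 c15516 c12632 c12639 c311 c20598 (k8 c16665 c19585 c6008 c5332 c1694 c5521 c5516 c5335 (k8 c5334 c312 c4283 c5444 c5435 c3656 c5438 c54 (k8 c9694 c9734 c5351 c3076 c616 c3673 c6187 c20963 (k8 c5391 c5390 c5608 c5607 c5610 c365 c1524 c1123 (k8 c1807 c20950 c20966 c5574 c5572 c5570 c17828 c317 (k8 c8100 c12635 c13096 c13097 c15026 c17960 c1841 c5670 (k4 c3502 c2637 c1552 c3575 (k1 c2598 k0))))))))) (by decide +kernel)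
def c20968 : PP 9 3 T 0x40100001000000000000000000000000055400000000000000000000000000000000000000000000000000000000000000000040020 := rS 0x2a5602253 (k4 c20961 c15516 c12635 c12621 (k1 c5343 k0)) (by decide +kernel)
def c20969 : PP 9 3 T 0x2000000000000000100000000000000000000000000000000000000000000000000000000000000000000000000000000000000000000000000080220 := rS 0x78ab0411c8df62921d926940f94675c2df (k8 c5538 c5460 c20598 c16665 c19585 c6008 c5334 c5332 (k8 c311 c5444 c5435 c3656 c3667 c20576 c19025 c17960 k0)) (by decide +kernel)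
def c20970 : PP 9 3 T 0x2000000000000000100000000000000000000000000000040400000000000100000000000000000000000000040000000000000000000000000000220 := rS 0xa5d528f032192e3d3fa43e38bc6412ad6026df70e4c7e391b8f5025e490ec9247a503e519d25844a78df2fdddd23 (k8 c20967 c20964 c5597 c5473 c20957 c20961 c15516 c12639 (k8 c20598 c16665 c19585 c6008 c5520 c5334 c5332 c311 (k8 c312 c4283 c5436 c5435 c3656 c3657 c5438 c5460 (k8 c5538 c20969 c12635 c5343 c5340 c17960 c3590 c5670 (k8 c5190 c4174 c4185 c3099 c5606 c5607 c1615 c12621 (k2 c1123 c20950 k0)))))) (by decide +kernel)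
def c20971 : PP 9 3 T 0x100000000000000000000000000000050400000000000100000000000000000000000000040000000000000000000000000000220 := rS 0x22ea774ee18cbdc2afcf26e1324425ab52e27038b90a8f498f609ef538df2fdddd23707888239ac1246edf59a876fb4f08a406250888c97b165a04bc92c99cc023ba503e519d (k8 c20598 c16665 c19585 c6008 c5332 c53 c9719 c5438 (k8 c311 c312 c4283 c20621 c5444 c12639 c9734 c15516 (k8 c12632 c54 c9694 c20970 c5235 c17828 c1122 c5532 (k8 c14125 c5435 c5334 c5212 c3656 c5340 c5236 c17960 (k8 c20967 c20964 c5597 c5473 c20957 c4321 c4243 c3658 (k8 c1562 c5677 c1524 c20952 c5390 c5607 c5610 c1123 (k8 c20950 c20968 c3036 c317 c318 c1542 c3100 c1151 (k4 c2821 c5669 c5687 c2670 (k2 c5428 c3083 (k1 c20966 k0)))))))))) (by decide +kernel)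
def c20972 : PP 9 3 T 0x100000000000000000000000000000040400000000000100000000000000000000000000040000000000000000000000000000220 := rS 0x6e2cda5926df69e1fbbb8462901e4f6292a503e519d258942201 (k8 c53 c15516 c12632 c12639 c20598 c16665 c19585 c6008 (k8 c311 c5444 c5438 c54 c9694 c9734 c20964 c5597 (k8 c20970 c5235 c17828 c20971 c5391 c6187 c5243 c17701 k0))) (by decide +kernel)
def c20973 : PP 9 3 T 0x100000000000000000000000000000040400000000000000000000000000000000000000040000000000000000000000000000220 := rS 0x1f7c6ecc9a04bc92 (k8 c311 c312 c4283 c5438 c20972 c5467 c1554 c5670 k0) (by decide +kernel)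
def c20974 : PP 9 3 T 0x40000000000000000000100000010000000000000000000000000000000000000205000000400001000000502000000000800000000010000000000000220 := rS 0x5d461d2b75ca8e3789c0e3e4ba4fac5d86a752fdd825e26a74774a07ca33a92 (k8 c311 c20598 c16665 c19585 c6008 c5332 c1694 c5521 (k8 c312 c3658 c5639 c3484 c1786 c1783 c3454 c17827 (k8 c5194 c5391 c5608 c5607 c5610 c3129 c1524 c1141 (k4 c12165 c1791 c5697 c3621 (k1 c2641 k0))))) (by decide +kernel)
def c20975 : PP 9 3 T 0x440004000000000000000000000000000000000000000000000200040000000000545000000001015000041500000000000000001411014400000000000000 := rS 0x1178cfd644ba61f907bad (k8 c5437 c5436 c5693 c5468 c17955 c3592 c17827 c2641 (k2 c3076 c5697 k0)) (by decide +kernel)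
def c20976 : PP 9 3 T 0x2100000000000000000000000000000050400000000000000000000000000000000000000000000000000000000000000000000220 := rS 0x1e5d530a47f65bae54aa3c4e06438f60eb4924d7594f1be32ac6dda99351b4e3114844d8e8f4097be6df23b95cfe05ae1596e24de4c8358098ff6a2901894220111acf6db14f98d3a3ba503e519d4912dde7e (k8 c20973 c3109 c12639 c311 c20598 c16665 c19585 c6008 (k8 c5332 c1694 c9754 c2881 c5444 c18926 c5574 c9734 (k8 c53 c15516 c12632 c54 c9694 c17828 c3657 c2917 (k8 c12635 c5340 c5438 c8100 c15026 c5420 c5423 c5422 (k8 c5235 c5461 c5539 c5520 c13097 c19019 c312 c4283 (k8 c2404 c5535 c809 c5675 c9730 c5571 c746 c5665 (k8 c1521 c20974 c2694 c5343 c5577 c20957 c20961 c20955 (k8 c5521 c5334 c5437 c3658 c5608 c5606 c5607 c5610 (k8 c1524 c1123 c1141 c12165 c20975 c5594 c17933 c20968 (k2 c5468 c20950 k0)))))))))) (by decide +kernel)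
def c20977 : PP 9 3 T 0x100000000000000000000000000000050400000000000000000000000000000000000000000000000000000000000000000000220 := rS 0x30a4766fb6975b287594f1a41ac04cfc3f (k8 c3657 c20973 c2917 c12635 c5340 c20957 c20961 c20955 (k8 c16665 c5437 c20976 c5677 c6187 c5594 c17933 c5348 k0)) (by decide +kernel)
def c20978 : PP 9 3 T 0x100000000000000000000000000000040400000000000000000000000000000000000000000000000000000000000000000000220 := rS 0xf259befa5927836bb6f19f84a1125804462901e4f6292a503e519d (k8 c20598 c16665 c19585 c6008 c311 c5444 c5438 c54 (k8 c9694 c9734 c53 c12639 c15516 c12632 c20973 c5577 (k8 c18926 c17828 c5235 c20977 c5391 c5595 c6187 c5190 (k1 c7668 k0)))) (by decide +kernel)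
def c20979 : PP 9 3 T 0x100005000000000180000200000000000000000000000000000020000000000000408000000000000000500000000000000000000000000000000000000220 := rS 0xe08c9e714ecbdaff00a3f9ddc22dfc2b2ce23905d281f2875c4d426f4f9f74abdbee24f65e5c83443b4c9e776292 (k8 c311 c5444 c20598 c5438 c5235 c5528 c315 c5415 (k8 c312 c4243 c3256 c9703 c2903 c5391 c5566 c1522 (k8 c5565 c1121 c5382 c20955 c16665 c19585 c6008 c5516 (k8 c3656 c5571 c5420 c5423 c20737 c719 c765 c16779 (k8 c1525 c5667 c1159 c3416 c3622 c5676 c1544 c2639 (k2 c18204 c1723 k0)))))) (by decide +kernel)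
def c20980 : PP 9 3 T 0x24000000000000000200000000000000800000000000000020000000000000000000000000000000000000000000000000000100000000000000000220 := rS 0x1c6df8ba43e784258457ee11332b6e0ddc88573b4fab9bc2e552bbdd201c9b047237d6ec4f64f059353a3ba503e519d89a84de9f3e97beebdbea9d8692 (k8 c311 c5348 c1806 c9703 c2903 c5595 c312 c5566 (k8 c1522 c5565 c1121 c5382 c20598 c16665 c19585 c6008 (k8 c5332 c1694 c5521 c5516 c5335 c4243 c5444 c5437 (k8 c5435 c3656 c3658 c5438 c53 c5472 c5473 c5620 (k8 c5622 c6333 c3591 c17827 c5235 c5415 c5528 c17701 (k8 c315 c20979 c5680 c5813 c1718 c1393 c2859 c353 (k4 c5687 c16779 c20711 c3452 (k2 c2949 c1782 (k1 c5691 k0))))))))) (by decide +kernel)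
def c20981 : PP 9 3 T 0x14000000000040000200000000000000000000000000000020000000000000024000000000000000000000000000000000000000000000000000000220 := rS 0x6a44978abdc6b1cecbc95422ef1332803a92482c8f4a07ca33aeb8984d1ea137a7cfa5efbc845bb8c9e976292 (k8 c311 c5444 c5391 c5438 c5237 c5612 c319 c5595 (k8 c312 c5566 c1522 c5565 c1121 c5568 c5564 c5382 (k8 c20955 c20598 c16665 c19585 c6008 c5520 c5516 c5334 (k8 c4321 c53 c5680 c5813 c4346 c2859 c355 c819 (k8 c5693 c5671 c1791 c3418 c1560 c2688 c3130 c2656 (k1 c12614 k0)))))) (by decide +kernel)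
def c20982 : PP 9 3 T 0x14000000000010000200000000000000000000000000000020000000000000420000000000000000000000000000000000000100000000000000000220 := rS 0x1a9125e2af71ac73b2f3a92f07c8f4a07ca1d71309a3fef2116ee34a1138ed9cfe0c9e776292 (k8 c311 c5444 c20598 c5438 c5235 c5461 c20981 c5571 (k8 c719 c5391 c5237 c5612 c319 c5595 c5568 c5564 (k8 c5382 c20955 c16665 c19585 c6008 c5520 c5517 c312 (k8 c4321 c819 c5693 c5671 c1791 c3418 c1560 c2687 (k2 c3130 c2656 (k1 c18090 k0)))))) (by decide +kernel)
def c20983 : PP 9 3 T 0x4000000000000000200000000000000800000000000000060000000000000000000000000000000000000000000000000000100000000000000000220 := rS 0x455c6998d464db7ac5de31eee5ab2d67b6c4fd5d0df73b1dc3e04ded6eebfdc79726c11beb763a9279353a3ba503e519d49284de9f3e97b4ac3 (k8 c5348 c5391 c312 c5566 c1522 c5565 c1121 c311 (k8 c20598 c16665 c19585 c6008 c5332 c1694 c5521 c5335 (k8 c4321 c5444 c5437 c5435 c3658 c5438 c20980 c5237 (k8 c5431 c5613 c17701 c8100 c5235 c13096 c5535 c5461 (k8 c5538 c17937 c7334 c2413 c20981 c5574 c5420 c5422 (k8 c20982 c1561 c5671 c816 c5676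 c748 c3502 c920 (k4 c1521 c1841 c3131 c3620 k0))))))) (by decide +kernel)
def c20984 : PP 9 3 T 0x18000000000001011200040000010000800000080000000200000000000000040000000001100000514000000000000000000400004000010000000000 := rS 0x4c25db952b38477ed45aa35fe3b703dd69f587231590596ed (k8 c5467 c5464 c5462 c5601 c5351 c5348 c5566 c5437 (k8 c5436 c5237 c5671 c5431 c5614 c5612 c17701 c1561 (k4 c3622 c19414 c3592 c5423 (k2 c1096 c5651 (k1 c355 k0))))) (by decide +kernel)
def c20985 : PP 9 3 T 0x60400000000000000000000000000000000000000000000000000000000000000000000220 := rS 0x25b8635198bfd5cc5472bbdd3e452de7e6df3fbb5c641f129e46c328d9b56535efdf4b7d1480f26c11f8e46e3dd6ec752921d9249e4726d281f28cebad426f4f9f7405e (k8 c312 c20978 c5566 c1522 c5565 c1121 c20955 c20598 (k8 c16665 c19585 c6008 c5521 c5520 c5335 c5334 c5332 (k8 c311 c4321 c5444 c5437 c5436 c5435 c3656 c3657 (k8 c3658 c5438 c54 c9694 c9703 c5391 c5595 c2903 (k8 c2795 c3849 c6187 c5907 c5348 c5351 c1806 c20983 (k8 c5462 c5466 c5467 c5577 c5580 c19019 c818 c1124 (k8 c20984 c5472 c5473 c5622 c3592 c3591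 c17827 c3448 (k4 c3505 c5697 c3133 c2687 (k1 c3590 k0))))))))) (by decide +kernel)
def c20986 : PP 9 3 T 0x28000000000000000000000000000000800000000000000200000000000000040000000001000000000000000000000000000051404500000000000000 := rS 0x25b8635198bfd5cc5472bbdd2371eeb5865129b8ddbf791fcc82df (k8 c5580 c5462 c19019 c5351 c17776 c5467 c5466 c5605 (k8 c5350 c5348 c5437 c5436 c5435 c5472 c5473 c5622 (k8 c3592 c3591 c17827 c3448 c3505 c5697 c3133 c2687 (k1 c3590 k0)))) (by decide +kernel)
def c20987 : PP 9 3 T 0x8000000000001001010040000000000800000080000000200000000000000040000000001000000005000000000000000000000004100000000000000 := rS 0x155df168d929d0e770f8137b5dc797e7f76fbb5c6411b8f75a3b2493c8e4d619464653 (k8 c5605 c5351 c5350 c5348 c5521 c5520 c5335 c5334 (k8 c5332 c5437 c5436 c5435 c5462 c5466 c5467 c5580 (k8 c17776 c19019 c20986 c5237 c17701 c8100 c5235 c13096 (k8 c5461 c17937 c3590 c2687 c6198 c3082 c3448 c3592 k0)))) (by decide +kernel)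
def c20988 : PP 9 3 T 0x800000000000000200001000000000000000000000000000000040400000000000000000000000000000000000000000000000000000000000000000000220 := rS 0xcb380904f59f9840811b2a8045203d69ec924f239371a1392b0ca323d594fc6eb1c8fd832116b85369d1da7cfba02f31fc1b5a503e5166c9e776292 (k8 c311 c5444 c20598 c5438 c6187 c16665 c19585 c6008 (k8 c17701 c5235 c5535 c312 c20978 c5566 c1522 c5332 (k8 c1694 c8100 c13096 c5612 c319 c3658 c3657 c3656 (k8 c20955 c20987 c5605 c5600 c5351 c5350 c5348 c20985 (k8 c5564 c20957 c5521 c5520 c5335 c5334 c4243 c5437 (k8 c54 c9694 c53 c5636 c5599 c17933 c12621 c17995 (k4 c5340 c2859 c720 c719 (k2 c20349 c18103 k0)))))))) (by decide +kernel)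
def c20989 : PP 9 3 T 0x10000000000000001000000000000000000000000000000040400000000000200000000000000000000000000000000000000000000000000000000220 := rS 0x70121b0206b06e2be64b48c571ce28d5e62201d4978920b23c4c268fd04957ebb908b5d1ad1bb049e5173f836bb8a503e5193ceec52566 (k8 c6187 c311 c5444 c20598 c5438 c16665 c19585 c6008 (k8 c5237 c17701 c5235 c5461 c5350 c5335 c3658 c5435 (k8 c5437 c17937 c5612 c319 c5430 c5431 c20985 c20978 (k8 c5568 c5564 c5382 c5520 c5516 c5334 c312 c4321 (k8 c53 c9730 c3482 c1791 c1790 c5671 c3131 c3129 (k8 c2687 c5549 c1560 c2656 c2657 c12614 c5665 c720 (k2 c719 c5887 k0))))))) (by decide +kernel)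
def c20990 : PP 9 3 T 0x10000000000000001000000000000000000000000000000040400000000000000000000000000000000000000000000000000000000000000000000220 := rS 0x4cc55c66d35466f580c5ad70ab338de36d8f65bb9dbf7c4fd5d0df73b1dc3e04ded57b775fee2fa73008df5ba9279371aa137c94a2a761f8ecc9f3ee80bceb4e8ee940fd8a48723f60ca3279d (k8 c20598 c5438 c16665 c3658 c3657 c3656 c311 c5444 (k8 c19585 c6008 c5332 c1694 c20955 c312 c20978 c5566 (k8 c1522 c6187 c20987 c5348 c1806 c5350 c20985 c5565 (k8 c1121 c20957 c5521 c5335 c4321 c5437 c5435 c53 (k8 c9719 c9703 c5237 c5431 c5613 c5617 c17701 c8100 (k8 c5235 c13096 c5535 c5461 c5538 c17937 c7334 c2413 (k8 c20988 c20989 c5693 c1836 c1561 c5711 c5671 c5571 (k8 c5574 c5423 c5422 c816 c3606 c5676 c5079 c3417 (k4 c748 c1841 c1139 c1521 (k1 c3620 k0)))))))))) (by decide +kernel)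
def c20991 : PP 9 3 T 0x25000000000100001200000800000000000000000000000010000000000000100400000000000000000000000000000000000000000000000000010220 := rS 0x65eddc0bf256014691bbdf4729d1dd281f2889a84de9f3e978dbb4c9e776292 (k8 c311 c5444 c20598 c5438 c5235 c5529 c312 c5566 (k8 c1522 c5565 c1121 c5382 c16665 c19585 c6008 c5332 (k8 c1694 c3656 c9703 c764 c1005 c1525 c5667 c20711 (k4 c1159 c15375 c6396 c1718 (k1 c17839 k0))))) (by decide +kernel)
def c20992 : PP 9 3 T 0x100025000000000100001200000100000000000000000000000010000000000000100400000000000000000000000000000000000000000000000000010220 := rS 0x1bee163deb17f33d978174a07ca0fa8fbc83443b4c9e776292 (k8 c311 c5444 c20598 c5438 c5235 c5528 c315 c5619 (k8 c5568 c5566 c16665 c19585 c6008 c5516 c312 c4243 (k4 c16779 c20991 c5676 c802 (k2 c10249 c14796 (k1 c5691 k0))))) (by decide +kernel)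
def c20993 : PP 9 3 T 0x4000000000000000200000000000000000000000000000000000000000000000000000000000000000000000000000000000000000000000000020220 := rS 0xdb1c04e0137a7cfa5e (k8 c312 c5566 c1522 c5565 c53 c2859 c719 c5813 (k1 c5571 k0)) (by decide +kernel)
def c20994 : PP 9 3 T 0x100025000000000100001200000000000000000000000000000010000000000000108000000000000000000000000000000000000000000000000000000220 := rS 0x1c7893da48bc11 (k4 c20993 c312 c311 c4243 (k2 c3256 c1781 (k1 c20992 k0))) (by decide +kernel)
def c20995 : PP 9 3 T 0x5000000000040000200000000000000000000000000000000000000000000000400000000000000000000000000000000000000000000000000000220 := rS 0x4837896e113328f69d1dc4d426f4f9f4bdf30882e940d10ed327b1496741f28 (k8 c16665 c19585 c20598 c311 c5444 c5438 c5235 c5528 (k8 c315 c6008 c5516 c20993 c16779 c312 c5566 c1522 (k8 c5565 c1121 c5382 c5332 c1694 c4243 c5680 c5813 (k4 c1718 c353 c5691 c20711 (k1 c2949 k0))))) (by decide +kernel)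
def c20996 : PP 9 3 T 0x100005000000000000001200000100000000000000000000000040000000000000600400000000000000000000000000000000000000000000000000000220 := rS 0x18bbdb1a311b7037f0acb5eed8727b89a84de9f3e97973f30882e940d10ed327b1496741f28 (k8 c16665 c19585 c20598 c311 c5444 c5438 c5235 c5528 (k8 c315 c6008 c5516 c20993 c16779 c5415 c312 c5566 (k8 c1522 c5565 c1121 c5382 c4243 c3656 c20995 c5575 (k8 c5420 c5423 c20737 c5691 c3133 c1723 c10249 c18097 (k2 c2639 c5676 k0))))) (by decide +kernel)
def c20997 : PP 9 3 T 0x1000000000000000000000000000000040400000000000000000000000000000000000000000000000000000000000000000000220 := rS 0x905e8aa788b385bee2767cc220ddc88713b4fab9bc2e577ba7c9e329eae465161d9b26c11f8e46fadd89ec9e0b26a74774a07ca33a9275e34269f3ee80bd25 (k8 c20985 c312 c20978 c5566 c1522 c5564 c20957 c20955 (k8 c311 c20598 c16665 c19585 c6008 c5332 c1694 c5521 (k8 c5516 c5335 c4243 c5444 c5437 c5435 c3656 c3657 (k8 c3658 c5438 c6187 c5348 c5350 c5351 c5600 c5605 (k8 c20987 c20990 c5472 c5473 c5622 c6333 c3591 c17827 (k8 c5235 c3256 c5528 c17701 c315 c20993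 c16779 c20994 (k8 c20996 c207 c208 c1782 c18204 c3448 c1544 c12621 (k1 c3415 k0)))))))) (by decide +kernel)
def c20998 : PP 9 3 T 0x20000000000000100000000000000000000000000000000000000000000000005000000001014000041500000000000000000050000540400140000000 := rS 0x16d9c57b9282e9d2c3 (k8 c5468 c5472 c17955 c3591 c5430 c1103 c5350 c362 (k1 c5652 k0)) (by decide +kernel)
def c20999 : PP 9 3 T 0x1000000000000000000000000000000000000000000000040400000000000000800000000000000800000000000000000000000000000000000000220 := rS 0x6dc4ebc2948cabf6fade8a22b1605c020bc684d3e7d92e2e421106eafcae73c7cdbee1f1a6442b9da64f62e575a6d426fd02df129d491349e1f1dd281f9dd68de5039608bd478f52e07485e (k8 c312 c20997 c5607 c1123 c5608 c1524 c9709 c3658 (k8 c3656 c16665 c5435 c5437 c20598 c19585 c6008 c5332 (k8 c5517 c5335 c5521 c311 c1694 c5610 c12165 c20978 (k8 c5565 c1121 c2622 c20955 c2626 c5444 c5438 c5235 (k8 c5415 c5528 c5530 c5466 c208 c207 c5549 c18204 (k8 c1543 c20998 c20950 c315 c20993 c5606 c5390 c20985 (k8 c5566 c1522 c5564 c20957 c5516 c53 c1507 c1807 (k8 c1099 c362 c3575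 c5631 c6648 c5636 c5594 c12621 (k4 c3273 c2867 c5575 c5813 k0))))))))) (by decide +kernel)
def c21000 : PP 9 3 T 0x1000000000000000000000000000000000000000000000040400000000000000800000000000000000000000000000000000000000000000000000220 := rS 0x4eca2948f0aed77957edf5742ed7abfdc29f57e573a6442b93c6d05f93608e46fadd887c9e4d4e8ed258d09a7cfb2590a8f1ea5c0adf13a4a503e519df9b7dc29b509bcbce575847c7a0 (k8 c20978 c5466 c20993 c20955 c2626 c312 c5565 c1121 (k8 c2622 c208 c207 c5549 c20598 c16665 c19585 c6008 (k8 c20997 c5610 c12165 c5607 c1123 c5608 c1524 c5606 (k8 c20985 c5566 c1522 c5564 c20957 c311 c5332 c1694 (k8 c5521 c5335 c5517 c5444 c5437 c5435 c3656 c3658 (k8 c5438 c9709 c5235 c18204 c5415 c5528 c5530 c1543 (k8 c20998 c20950 c20999 c5681 c6136 c5617 c5430 c3621 (k8 c5555 c6648 c5636 c5597 c5639 c5638 c5594 c12621 (k2 c3622 c2866 (k1 c1754 k0)))))))))) (by decide +kernel)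
def c21001 : PP 9 3 T 0x200100000000000000000000000000000000000000000000000040000000000000000154008000000000000000800001000010000000000 := rS 0x6509ddaefc2afd7aa7 (k8 c5428 c5617 c5431 c3222 c2798 c3223 c2866 c3622 (k1 c1754 k0)) (by decide +kernel)
def c21002 : PP 9 3 T 0x280002000001000000000000000000000000040000000000000000000000000000000000000000000004000000000000000000000000020 := rS 0x18538df4e601 (k4 c53 c9719 c9703 c5571 (k2 c5423 c17948 k0)) (by decide +kernel)
def c21003 : PP 9 3 T 0x140000000000000000000000000000000000000000000000000008041000000000005000000000044000541500000000000000000001020000000000000000 := rS 0x1711874bb22ff7 (k4 c5594 c3076 c616 c1791 (k2 c5697 c3621 (k1 c3504 k0))) (by decide +kernel)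
def c21004 : PP 9 3 T 0x40000000000000000000000000000000000000000000000000018000100000000005000000800044000541402000000000000000001020000000000000000 := rS 0x5cba7e8998dace2aec (k8 c616 c1292 c2897 c3129 c1760 c21003 c1791 c5632 (k1 c3621 k0)) (by decide +kernel)
def c21005 : PP 9 3 T 0x200000000000000200040000000000000000000000000000000040400000000000000800000000000000000000000000000000000000000000000000000220 := rS 0x1b5598309718bd9449e0b26c4d1f8b8ba464455130b4261129eb47a2901c8480cadbe37c7b14f9f576a773f81caeb4da84dfa0f9adf12a5c0a8f1fa42f4953a3b49126940f946762201 (k8 c53 c9730 c20598 c16665 c19585 c6008 c5334 c311 (k8 c5332 c1694 c20985 c312 c20997 c5608 c1524 c5607 (k8 c1123 c5610 c12165 c5549 c20978 c5565 c1121 c2622 (k8 c20955 c2626 c21000 c5461 c5428 c5430 c5566 c1522 (k8 c5444 c5466 c20957 c21002 c5680 c1753 c5606 c54 (k8 c9694 c5436 c5437 c21001 c20993 c5564 c5612 c5813 (k8 c355 c12621 c21004 c3076 c5390 c5568 c5382 c5521 (k8 c5516 c5335 c5552 c5631 c17982 c619 c3575 c2462 (k2 c20711 c16685 k0))))))))) (by decide +kernel)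
def c21006 : PP 9 3 T 0x140000000000000040000200000000000000000000000000000008000000000000005000000800044400540401000000000000001000000000000000010220 := rS 0x6d0971a4c92626408aa74774a07ca33a92 (k8 c311 c20598 c16665 c19585 c6008 c5332 c1694 c1292 (k8 c1753 c5382 c5334 c1760 c21003 c2688 c5267 c20711 k0)) (by decide +kernel)
def c21007 : PP 9 3 T 0x200040000000000000000000000000000000040400000000000000800000000000000000000000000000000000000000000000000000220 := rS 0x30d7b5597d523222ac548026656dca62d5da9e22011480c7badd89253a3b49636261347a7cfb2590a8f1ea5c0adf13a4a503e519df9a6d426f2f395d611f1e81cfe0 (k8 c21000 c5461 c20978 c5466 c20993 c20955 c2626 c312 (k8 c5565 c1121 c2622 c5549 c20598 c16665 c19585 c6008 (k8 c20997 c5610 c12165 c5607 c1123 c5608 c1524 c5606 (k8 c20985 c5566 c1522 c5568 c5564 c5382 c20957 c311 (k8 c5332 c1694 c5334 c5444 c5437 c5436 c54 c9694 (k8 c53 c9730 c5428 c5430 c5612 c21001 c21002 c5680 (k8 c5813 c1753 c1292 c355 c12621 c21004 c21005 c21006 (k4 c5532 c2377 c15459 c316 k0)))))))) (by decide +kernel)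
def c21008 : PP 9 3 T 0x14000000000101000000000000000000000000000000000008000000000000000000000000000000000000000000000000000000000000200000000000 := rS 0x6d84df7 (k4 c5594 c364 c5200 c5570 k0) (by decide +kernel)
def c21009 : PP 9 3 T 0x10000000000080000000000000000000000000000000000040400000000000000800000000000000000000000000000000000000000000000000000220 := rS 0x420cda5ed77f58c3a1dc512a14d6abd2782c9b8d09c9717215be2423a05ca74774a07ca33ac28dbb6462c536e756a3c7a9703a42f78f6292 (k8 c311 c5444 c5466 c312 c20997 c5607 c1123 c5608 (k8 c1524 c20950 c21007 c5681 c1807 c21008 c4316 c2694 (k8 c1806 c20598 c16665 c19585 c6008 c5332 c1694 c1300 (k8 c20978 c20993 c5610 c12165 c5606 c5390 c20985 c5564 (k8 c20957 c5521 c5516 c5335 c5575 c5422 c3273 c12621 (k8 c575 c571 c1840 c1841 c5555 c2641 c3502 c5686 (k2 c3575 c5528 (k1 c315 k0)))))))) (by decide +kernel)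
def c21010 : PP 9 3 T 0x10000000000000000000000000000000000000000000000040400000000000000800000000000000000000000000000000000000000000000000000220 := rS 0x14caa26fb6de462b1629b73ab0b8076292c684cde9f3ec9642a3c7a9703a42f047c7a0 (k8 c20978 c5466 c20993 c312 c20997 c5607 c1123 c5608 (k8 c1524 c5606 c20985 c5566 c1522 c5565 c5564 c20957 (k8 c311 c5444 c53 c1507 c20950 c21007 c5681 c1807 (k8 c1099 c21008 c21009 c5200 c5813 c5636 c2867 c12621 k0)))) (by decide +kernel)
def c21011 : PP 9 3 T 0x100000000000000000000000000000000000040400000000000000800000000000000000000000000000000000800000000000000000220 := rS 0xd7efb68eed3f7c2a1b0f6afd84c7edbbb57f5917eb75281493af1a8d509bd3e7dd0496fea3c7e90bde36ede5b367f213e940fce8de51e0 (k8 c21000 c16665 c5435 c20598 c19585 c6008 c5335 c21010 (k8 c6333 c5621 c5619 c5471 c5466 c312 c20997 c5608 (k8 c1524 c5389 c20985 c20978 c5566 c1522 c5565 c1121 (k8 c5381 c20957 c20955 c311 c4283 c4321 c5437 c9709 (k8 c5563 c2797 c3223 c6396 c17984 c5813 c5233 c20749 (k8 c4855 c5640 c20753 c5587 c2944 c10131 c20744 c5455 (k2 c1771 c5689 k0)))))))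 (by decide +kernel)
def c21012 : PP 9 3 T 0x140000000000000000000000000000000000044400000000000000800000000000000000000000000000000000000000000000000000220 := rS 0x23a452d876ddb221ebfe3ef855661b0f207d84cca9dec5248d509bd3e7d2f5fecf47c2dd97ebd156a8278d08f8f41252a940764d1cb075ae7f030dcaeb27d281f9d1bca236e9f24874853 (k8 c21011 c20997 c5606 c21010 c5472 c2693 c16665 c5435 (k8 c20598 c19585 c6008 c5335 c20955 c2626 c5468 c21000 (k8 c5461 c5437 c3658 c3656 c5521 c5332 c3591 c575 (k8 c20985 c20978 c5466 c20993 c20957 c5564 c12621 c722 (k8 c3199 c1106 c721 c3474 c20740 c6333 c5389 c312 (k8 c5566 c1522 c5565 c1121 c5381 c311 c5444 c20666 (k8 c5680 c5813 c5687 c1753 c5598 c5640 c5340 c20753 (k8 c5587 c5629 c3213 c2782 c5229 c5659 c5486 c2213 (k2 c603 c351 (k1 c20833 k0)))))))))) (by decide +kernel)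
def c21013 : PP 9 3 T 0x100000000000000000000000000000000000044400000000000000800000000000000000000000000000000000000000000000000000220 := rS 0x116767df6cbf156aa338d09a84df2590a8f1fa42f7cc23e3d07d4aa501d93472c1d6b9fc0c372bac9f4a07e746f288dba7c853 (k8 c21011 c21010 c5472 c2693 c16665 c5435 c20598 c19585 (k8 c6008 c5335 c20955 c2626 c5468 c21000 c5461 c5437 (k8 c3658 c3656 c5521 c5332 c3591 c575 c17827 c20978 (k8 c5466 c20993 c5549 c312 c20997 c5608 c1524 c5606 (k8 c20985 c5565 c1121 c5564 c20957 c2638 c12621 c722 (k4 c1106 c21012 c7591 c6396 (k2 c5697 c3454 k0))))))) (by decide +kernel)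
def c21014 : PP 9 3 T 0x100000000000000000000000000000000000040400000000000000800000000000000000000000000000000000000000000000000000220 := rS 0xda26176b9152d70a2ddb129971820c5fef22179253a924f9f5478f5be2749e3f9a6d426fd017acff58d941d23b268e583ad73f8187e472bac9f4a07e746f28 (k8 c16665 c5435 c20598 c19585 c6008 c5335 c20955 c2626 (k8 c21010 c5468 c21000 c5461 c5437 c3658 c3656 c5521 (k8 c5332 c5472 c3591 c2693 c17827 c6333 c312 c20978 (k8 c5565 c1121 c2622 c5549 c5466 c20997 c5610 c12165 (k8 c5608 c1524 c5566 c1522 c311 c1694 c5334 c9709 (k8 c21013 c5594 c3076 c615 c5697 c1753 c2637 c5711 (k8 c3707 c5423 c5422 c5652 c3503 c2641 c17955 c17774 (k1 c5530 k0)))))))) (by decide +kernel)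
def c21015 : PP 9 3 T 0x40400000000000000800000000000000000000000000000000000000000000000000000220 := rS 0x6aaefb8 (k4 c21014 c5613 c21007 c721 k0) (by decide +kernel)
def c21016 : PP 9 3 T 0x20000000000040000000000000000000000000000000000048400000000000000000000000000000000000000000000000000000000000000000000220 := rS 0xfeedf132c82c3d4a05258d37a7cfba02f4971fa4 (k8 c20997 c5608 c20985 c312 c20978 c5566 c1522 c5565 (k8 c20957 c311 c4283 c4321 c5468 c615 c1753 c5711 (k2 c5467 c5577 (k1 c17984 k0)))) (by decide +kernel)
def c21017 : PP 9 3 T 0x140010000000000040000000000000000000000000000000000000020000000000014400000000044000541000000000000000000201000100011000000000 := rS 0x172998a8993759f0129cab3 (k8 c2462 c2520 c2637 c5692 c5342 c5536 c5651 c3046 (k2 c5802 c3504 (k1 c3621 k0))) (by decide +kernel)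
def c21018 : PP 9 3 T 0x100008000000000200000000000000000000000000000000000048440000000000000000000004000000000000000000000000000000000000000000000220 := rS 0x63031c851bdb9e30e91480f26c11c8df5a7b2782c9a9d4962e42a3c7a97025e5be254ebbd5ddfef17248957fe5dbe90dfa0c6bb7e6df7191c774a07e748328 (k8 c16665 c5462 c20598 c19585 c6008 c5332 c5520 c21015 (k8 c5580 c17862 c5467 c20957 c20978 c5565 c20997 c21002 (k8 c21016 c5431 c3088 c5334 c3076 c5594 c5613 c721 (k8 c5430 c5428 c5610 c12165 c312 c5607 c1123 c5608 (k8 c1524 c5606 c5390 c311 c1694 c5521 c5516 c5335 (k8 c4243 c5437 c5435 c3656 c3658 c5438 c54 c9694 (k8 c6198 c5697 c3505 c3502 c21017 c3591 c3575 c8099 (k1 c2480 k0)))))))) (by decide +kernel)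
def c21019 : PP 9 3 T 0x8000000000040000200000000000000000000000000000018080000000000000400000000440000000000000000000000000000000000000000000220 := rS 0x1b525ad523151480c7e391b9253a928995423f36f91c774a07e748328 (k8 c16665 c5462 c20598 c19585 c6008 c5332 c5520 c5580 (k8 c17862 c3086 c216 c5382 c311 c1694 c5334 c5435 (k8 c3656 c3657 c54 c9694 c3131 c3129 c2691 c2688 (k2 c20711 c19984 k0)))) (by decide +kernel)
def c21020 : PP 9 3 T 0x8000000000200000000000000000000000000000000000048400000000000000000000004000000000000000000000000000000000000000000000220 := rS 0x31818e4bd947e993608e4f6922f0ec9e0b26d281f28cee2e4389d5dde37b7d21bf1abb5fb8e4ba0 (k8 c20978 c20985 c21015 c5431 c5430 c20957 c5565 c20997 (k8 c21002 c21019 c5613 c721 c5610 c5606 c5390 c20598 (k8 c16665 c19585 c6008 c5521 c5516 c5335 c5332 c312 (k8 c311 c4243 c3656 c3658 c5438 c21018 c5552 c5631 (k4 c17827 c3575 c8099 c2480 k0))))) (by decide +kernel)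
def c21021 : PP 9 3 T 0x200008000000000000040010000500000000000000000000000009400000000000000400000000000000000000000014000000000051404540000000004600 := rS 0x63030977b28e4c82df (k8 c5580 c5462 c5438 c5552 c5631 c619 c3575 c19935 (k1 c2480 k0)) (by decide +kernel)
def c21022 : PP 9 3 T 0x8000000000200000000000000000000000000000000000048400000000000000000000000000000000000000000000000000000000000000000000220 := rS 0x318184b28dee31f573b09d31bf9b7c822901e4c7e391b9ec9e0b239353a3b491f64b8b90a8f1ea5c09796f8971a9d77abbbfde2e49a503e519d12affcbb7d21bf418d (k8 c20957 c20978 c5565 c20997 c21002 c21016 c5431 c3088 (k8 c20598 c16665 c19585 c6008 c5334 c3076 c5594 c5613 (k8 c721 c5430 c5428 c21015 c5610 c12165 c312 c5607 (k8 c1123 c5608 c1524 c5606 c5390 c20985 c5566 c311 (k8 c5332 c1694 c5521 c5520 c5516 c5335 c4243 c5435 (k8 c3656 c3657 c5438 c54 c9694 c5462 c5580 c17862 (k8 c21019 c6198 c21020 c1724 c21021 c5697 c3502 c21017 (k4 c619 c3575 c19935 c2480 k0)))))))) (by decide +kernel)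
def c21023 : PP 9 3 T 0x200000000000000000000000000000000000048400000000000000000000000000000000000000000000000000000000000000000000220 := rS 0x240d80d259ae33b55c3a5d8e54db9d33152078195e308c4403b12482c8e9d1da4a261347a853e7d92a8f1ea5c09796f89a503e519d71a9d77b7d21bf418d (k8 c20957 c20978 c5565 c20997 c21002 c5430 c5428 c21015 (k8 c20598 c16665 c19585 c6008 c5610 c12165 c312 c5607 (k8 c1123 c5608 c1524 c20985 c5566 c1522 c1121 c5568 (k8 c5564 c5382 c311 c5332 c1694 c5520 c5516 c5334 (k8 c5444 c53 c9730 c3086 c21022 c5680 c20995 c1753 (k8 c1292 c1759 c5461 c5536 c5539 c616 c1790 c3621 (k8 c5415 c3504 c1141 c620 c316 c5665 c12614 c747 k0))))))) (by decide +kernel)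
def c21024 : PP 9 3 T 0x4000000000200000000000000000000000000000000000040400000000000000000000000000000000000000000000000000000000000000000000220 := rS 0x1504c1109c96422d29a9702a3c7a7cfaa12f3af5a3d942485203dbe90dfa0c6eaeef23 (k8 c21023 c5613 c721 c20957 c20978 c5565 c20997 c21002 (k8 c54 c9694 c311 c16665 c5436 c5437 c20955 c312 (k8 c1121 c5566 c1522 c5608 c1524 c5607 c1123 c21001 (k8 c5612 c5606 c20985 c5564 c20993 c5813 c12621 c355 k0)))) (by decide +kernel)
def c21025 : PP 9 3 T 0x8000000000000000010000000000000000000000000000000000400000000000400000000000000000000400014000000000005404440000000055600 := rS 0x120c6c9904fedf (k4 c5580 c5577 c5462 c5438 (k2 c19935 c12614 (k1 c800 k0))) (by decide +kernel)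
def c21026 : PP 9 3 T 0x40000000000000040000200000000000000000000000000000000000000000000000440000400001000000002000040010000000000000000000000000220 := rS 0x6ada9b58f1100e7726a137a7cfa5e (k8 c312 c5566 c1522 c5565 c1121 c5438 c20598 c53 (k4 c9730 c800 c746 c19431 (k2 c5665 c16719 k0))) (by decide +kernel)
def c21027 : PP 9 3 T 0x40000000000000040100010044100000000000000000000000000000400000000000440000445001400010001400154000000802050000540000000000000 := rS 0x145d2e78d9e36ae570a7fef17 (k8 c3448 c5636 c1522 c10249 c8099 c19431 c3610 c5267 (k4 c1543 c6198 c575 c3591 k0)) (by decide +kernel)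
def c21028 : PP 9 3 T 0x200000000000000000000000000000000000040400000000000000000000000000000000000000000000000000000000000000000010220 := rS 0x870e3452c34d988769e163246ce2ac20356a71598904ec3ac952fa7300e4d82391bec4f6810fbdc9e0b26c4c268f92c87122d29a9702a3c7a7cfaa12f3af5a3d490a407b7d21bf1babbbc8d97df6ba3740d33ffcdbee3238ee940fce907c528 (k8 c16665 c21024 c5462 c20598 c19585 c6008 c5332 c5520 (k8 c21015 c5580 c17862 c5577 c5579 c20978 c5381 c5465 (k8 c20754 c5464 c21023 c5613 c721 c20957 c5565 c20997 (k8 c21002 c54 c9694 c311 c5436 c5437 c20955 c312 (k8 c1121 c5566 c1522 c5608 c1524 c5607 c1123 c21001 (k8 c5612 c5610 c5606 c20985 c5568 c5564 c5382 c5521 (k8 c5516 c5335 c5333 c5517 c4283 c4243 c5444 c5435 (k8 c3656 c3658 c5438 c53 c9719 c9703 c12621 c5343 (k8 c570 c355 c5651 c2760 c2754 c1094 c5715 c17948 (k8 c1096 c5601 c21026 c21027 c5535 c5235 c5528 c19441 (k4 c20891 c17795 c1704 c1638 (k2 c799 c20722 k0)))))))))))) (by decide +kernel)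
def c21029 : PP 9 3 T 0x40008000000000260000200000000000000000000000000000000000000000000000000000000000000000000000000000000000000000000000000020220 := rS 0x3dfb3b3cef27b14907c9e4da503e519d3eb2eb224 (k8 c720 c5558 c5464 c5566 c20598 c16665 c19585 c6008 (k8 c5521 c5335 c5517 c311 c5444 c5438 c20666 c17701 (k2 c19441 c20376 (k1 c5229 k0)))) (by decide +kernel)
def c21030 : PP 9 3 T 0x200000000000000000000000000000000000040400000000000000000000000000000000000000000000000000000000000000000000220 := rS 0x1ddf6c2954a167bd9b23714da83566701256421f36fbb59641f148f57b729a9d7b775f8a406921eeb4764f0591c9b4a07ca33aebc6a84de9f3ee831721c4a8f1ea5c0e90bce3 (k8 c21015 c312 c20997 c5607 c1123 c5608 c1524 c5610 (k8 c5606 c5390 c20978 c5566 c1522 c5565 c1121 c20957 (k8 c20955 c20598 c16665 c19585 c6008 c5521 c5520 c5516 (k8 c5335 c5332 c5437 c5436 c311 c54 c9694 c5431 (k8 c5613 c5617 c5428 c21001 c21002 c721 c21023 c21024 (k8 c5462 c5464 c5467 c5580 c17862 c21028 c5558 c720 (k8 c719 c2760 c20646 c21029 c16791 c5267 c3049 c748 (k4 c20735 c3575 c575 c1097 (k2 c5662 c3622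 (k1 c5597 k0)))))))))) (by decide +kernel)
def c21031 : PP 9 3 T 0x800018400000000000000000001000400000000000000000000050000000000000040004000000000000000000100010000000000000000000000000000000 := rS 0x776ab71b3f1854361eef (k8 c5597 c5598 c5640 c20753 c5629 c3342 c5690 c1820 (k2 c2230 c20727 k0)) (by decide +kernel)
def c21032 : PP 9 3 T 0x8000000000000000010000000000000000200000000000000000400000000000400000000000000000000400014000000000001404540000000044600 := rS 0x318c4b08e4c82df (k8 c5580 c5462 c5438 c5558 c5342 c19935 c21025 c2480 k0) (by decide +kernel)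
def c21033 : PP 9 3 T 0x8000000000000000000000000000000000000000000000040400000000000000000000000000000000000000000000000000000000000000000000220 := rS 0x246530889d7a71db567ee55b38b184a6d5b6fcbdf699fddad7208fc7237d89ef5281490ec920b23d281f28cebaf1a8d8984cfa8fd0496ff2151e3d4b81d2179c7b9 (k8 c21030 c21015 c312 c20997 c5607 c1123 c5608 c1524 (k8 c5606 c5389 c20985 c20978 c5568 c5566 c5564 c5382 (k8 c5381 c20957 c20955 c20598 c16665 c19585 c6008 c5520 (k8 c5516 c5334 c5332 c311 c4283 c4321 c4243 c5444 (k8 c5435 c3656 c3657 c5462 c5465 c5467 c5577 c5579 (k8 c20754 c17984 c17768 c20950 c5681 c1806 c1807 c5348 (k8 c570 c21031 c21032 c5233 c5571 c5575 c5570 c719 (k2 c3273 c364 (k1 c12621 k0))))))))) (by decide +kernel)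
def c21034 : PP 9 3 T 0x400014000000000100000000000000000000400100000000000000000000000000140000000000000000140008000000000000000000011000000000000000 := rS 0x91954a62c613b94db1 (k8 c5444 c5681 c5693 c1806 c1807 c2798 c570 c21008 (k1 c5662 k0)) (by decide +kernel)
def c21035 : PP 9 3 T 0x4000000000100010000005000400000400100000000000050000020000000140014000000000000140008100110000000000000011000000000000000 := rS 0xd53b1f9b379f234fdff7 (k8 c5640 c5509 c2090 c21034 c5619 c5621 c17984 c20744 (k2 c20749 c10131 k0)) (by decide +kernel)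
def c21036 : PP 9 3 T 0x4000000000101010000004000400000000000000000000040000020000000200014000400000000140000100000000000000000000000000000000000 := rS 0x699d9b3e46ade54fef (k8 c5509 c1786 c3482 c1664 c5681 c5621 c20744 c2089 (k1 c10131 k0)) (by decide +kernel)
def c21037 : PP 9 3 T 0x4024000000000000010000005000400000000000000000000050000000000000100014040000000000000000100110000000000000000000000000000000 := rS 0xd53b1f9b379 (k4 c5619 c5621 c17984 c20744 (k2 c20749 c10131 k0)) (by decide +kernel)
def c21038 : PP 9 3 T 0x80000000000000000000400100000000000040400000000000000000000000000000000000000000000000000000000000000000000220 := rS 0x1af2dc71a9df22b5ca87f29b09dca6d5f9480d376fdfdf0c6db76df0f85fc28f3b1eca363a940a49d78d469f64b7f90a8f1ea5c0e90bdb9f1b2f67a0 (k8 c20978 c19230 c5420 c21033 c21030 c312 c20997 c5607 (k8 c1123 c5608 c1524 c5606 c5389 c20985 c5566 c5381 (k8 c20957 c20955 c311 c4283 c4321 c5444 c16665 c5436 (k8 c20666 c19639 c5230 c5629 c5515 c5510 c5513 c5627 (k8 c20753 c5509 c5640 c21036 c2090 c21035 c21037 c20950 (k8 c5681 c5693 c1806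 c2798 c3109 c1833 c1838 c3737 (k4 c20754 c5689 c18677 c2159 (k2 c2168 c20776 k0)))))))) (by decide +kernel)
def c21039 : PP 9 3 T 0x100002000000000000000800000000000000000400000000000000000000000000000000000000000000000000000000000000000000220 := rS 0x17b06b184279da39bc2e5bcba7c8a728b0f26c11c8df5bb13da48764f05936940f9467712a3c7a97025e (k8 c312 c5607 c1123 c5608 c1524 c5610 c20598 c16665 (k8 c19585 c6008 c5521 c5516 c5335 c5332 c311 c4243 (k8 c5444 c5437 c5435 c3656 c3658 c5438 c5348 c5350 (k8 c1806 c5681 c5472 c5619 c5622 c6333 c3591 c5235 (k4 c1543 c5528 c5669 c315 (k2 c802 c20735 k0)))))) (by decide +kernel)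
def c21040 : PP 9 3 T 0x80000000000000000000000000000000000040400000000000000000000000000000000000000000000000000000000000000000000220 := rS 0x26b6a4b20d616793d8a74774a07ca33a924f9f7405e71d9f73a4 (k8 c20997 c21030 c21039 c21015 c312 c20978 c5566 c1522 (k8 c311 c20598 c16665 c19585 c6008 c5332 c1694 c5444 (k8 c5438 c5574 c21038 c5340 c5342 c9399 c15026 c8100 k0))) (by decide +kernel)
def c21041 : PP 9 3 T 0x40400000000000000000000000000000000000000000000000000000000000000000000220 := rS 0x4b48836066c35aa99ed622475521d7ea5f644369fbe150d87fdab2df66b453315207804ccadbd9c23e3dcb8effa492a7d428f3e9bc271346e8222019dec52a5e2482c8e9d1dd281f28cea49d78d (k8 c20957 c20955 c311 c20598 c16665 c19585 c6008 c5332 (k8 c1694 c5520 c5516 c5334 c312 c20765 c5444 c20666 (k8 c53 c9730 c20978 c5381 c5382 c5564 c5565 c5566 (k8 c5568 c1121 c1522 c20985 c20997 c5389 c21015 c21030 (k8 c21033 c20993 c21039 c21040 c5680 c5813 c20995 c1753 (k8 c1292 c1759 c5459 c5537 c5538 c5340 c5233 c5598 (k8 c5640 c20753 c5587 c2944 c4853 c5229 c5404 c5405 (k8 c5486 c5489 c351 c5658 c459 c1769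 c10216 c20805 (k4 c20861 c2200 c316 c747 (k2 c461 c12614 k0)))))))))) (by decide +kernel)
def c21042 : PP 9 3 T 0x100000000000010800000000000001440000800000000000400000000000000000004020000000000001220 := rS 0x1888b7d5d2ed8cfdb1723888049a9db39574aa716aed6ee7613bf1ce11dfce369024a3c8f1305d2b3a1129a7cfbb851ddd4b792ba84dfa009e34bcebd68f5242901dec1f28 (k8 c16665 c19585 c913 c54 c9694 c311 c5436 c5437 (k8 c20955 c312 c20957 c584 c12635 c5565 c1121 c81 (k8 c813 c1124 c9710 c1525 c19418 c5566 c1522 c21001 (k8 c978 c20598 c6008 c5516 c12633 c5520 c5568 c5334 (k8 c12614 c3130 c16779 c5332 c1714 c578 c1561 c577 (k8 c1724 c5616 c5430 c9711 c1807 c5385 c12611 c5345 (k8 c1694 c5521 c53 c9730 c21004 c1005 c5662 c8902 (k4 c1784 c1560 c17833 c3630 (k2 c5676 c3258 k0))))))))) (by decide +kernel)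
def c21043 : PP 9 3 T 0x40000000000000000000000100000000000000800000000000000400000000000000000000000000000000000004020000000000001220 := rS 0x1f45c489d3f79246d21f32491ece55bda9c5abb5bf95cec28982d1e1129ee1477752de4aeebd68f452038aa74774a07ca33a9965284dfb14927cfa5e4db7dcbe0f1e80278d (k8 c20957 c584 c12635 c5462 c20995 c5539 c5538 c5536 (k8 c312 c5566 c1522 c311 c5444 c5565 c1121 c5680 (k8 c1759 c20598 c16665 c19585 c6008 c5332 c1694 c1292 (k8 c54 c9694 c5436 c5437 c20955 c81 c813 c1124 (k8 c9710 c1525 c19418 c21001 c978 c5568 c5516 c12633 (k8 c577 c1724 c5468 c5616 c5430 c9711 c1807 c913 (k8 c12611 c5345 c5520 c5334 c16779 c12614 c3130 c21042 (k4 c5595 c20981 c5662 c3621 (k2 c21003 c5632 k0))))))))) (by decide +kernel)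
def c21044 : PP 9 3 T 0x8000040000000000000000000001000000000000005000000000044000541500000000000000000000000000000000002020 := rS 0x74ae7166a (k4 c316 c2656 c1142 c1560 (k1 c3621 k0)) (by decide +kernel)
def c21045 : PP 9 3 T 0x40000000000000000000000100000000000000800000000000000400000000000000000000000000000000000000020000000000000220 := rS 0xd7b55a080940d72a6d33e0888053b21bde394e2d51ddd76b7dc296f25773b08774a07ca33aca50ec52426f1a7cfa5e37e80278d (k8 c20957 c584 c12635 c5565 c312 c5566 c1522 c5462 (k8 c5813 c311 c5444 c1121 c5680 c20598 c16665 c19585 (k8 c6008 c5332 c577 c1724 c81 c813 c1124 c19418 (k8 c5616 c5430 c9710 c1525 c9711 c1807 c578 c913 (k8 c215 c1694 c53 c9730 c20995 c1759 c5536 c5539 (k4 c21044 c21043 c353 c354 (k2 c5528 c2371 (k1 c17733 k0)))))))) (by decide +kernel)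
def c21046 : PP 9 3 T 0x8000040000000000000000000001000000000000005000000800044000541400000000000000000008000000008000000020 := rS 0x69ab6a995a0816711008a4079d (k8 c20598 c54 c9694 c53 c9730 c2455 c353 c354 (k4 c1760 c5528 c17733 c21044 (k1 c2371 k0))) (by decide +kernel)
def c21047 : PP 9 3 T 0x8000040000000000000000000000000000000000005000000000044000541500000000000800000000000000000000000000 := rS 0x3a5738b (k4 c2657 c1142 c1560 c3621 k0) (by decide +kernel)
def c21048 : PP 9 3 T 0x4000000000040000200000000000000000000000000000000800000000000001000000000000000000402000000000000000000000000000000000220 := rS 0x18a92ba173b435a64dab388806f78e538b547775dadf70a5bc95fcae76145594a137ec53e7d2f274774a07ca33a92 (k8 c311 c20598 c16665 c19585 c6008 c5332 c1694 c312 (k8 c5566 c1522 c5444 c5565 c1121 c5680 c1292 c577 (k8 c1724 c5468 c81 c813 c1124 c19418 c5616 c5430 (k8 c9710 c1525 c9711 c1807 c578 c913 c53 c9730 (k8 c2897 c747 c1760 c21047 c5665 c5415 c3621 c20981 (k2 c1560 c1005 k0)))))) (by decide +kernel)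
def c21049 : PP 9 3 T 0x40000000000000000000000100000000000000800000000000000000000000000000000000000000000000000000020000000000000220 := rS 0x591ab6a0c4892dca9bf9b884ccaf1ec492474ec86f78e538b576b773b08771305d281f9d47844a69f3eee1477752de4aea137e80278d2f3af5a3d942485203 (k8 c54 c9694 c311 c16665 c5436 c5437 c20955 c312 (k8 c20957 c584 c12635 c5565 c1121 c81 c813 c1124 (k8 c9710 c1525 c19418 c5566 c1522 c21001 c978 c5568 (k8 c20598 c19585 c6008 c5516 c12633 c5332 c577 c1724 (k8 c5616 c5430 c9711 c1807 c578 c913 c215 c1694 (k8 c5520 c5334 c5444 c5462 c5680 c5813 c21045 c5549 (k8 c2622 c2626 c21046 c21048 c12614 c20711 c316 c16685 (k1 c2377 k0)))))))) (by decide +kernel)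
def c21050 : PP 9 3 T 0x8000040000000000000000000000000000000000005000000000044000541400000000000800800000000000000000000000 := rS 0x1306d (k2 c64 c21047 (k1 c1521 k0)) (by decide +kernel)
def c21051 : PP 9 3 T 0x8000000000000000000000000000000000000000000000000000400000000000000000000000000000000400010000400000000000000008000050220 := rS 0x1b55a080940d888047e373da48bc3b2482c8f4a07ca33ae3 (k8 c5466 c20598 c16665 c19585 c6008 c5520 c5516 c5334 (k8 c5332 c312 c311 c4243 c5435 c3657 c53 c9730 (k4 c316 c21025 c353 c354 (k2 c5528 c17733 k0)))) (by decide +kernel)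
def c21052 : PP 9 3 T 0x8000040000000000000000000000000000000000004000000000044000541400000000000800800000000000000000000000 := rS 0x1c8c7 (k2 c2482 c21050 (k1 c3245 k0)) (by decide +kernel)
def c21053 : PP 9 3 T 0x40000000000000000000000100000000000000800000000000000000000000000000000000000000000000000000000000000000000220 := rS 0x25834429a3538c4de212b2c823f1c8dcf64923a76f78e538b576b773b08771305d281f9d47844a69f3eee1477752de4aea137e80278d2f3af5a3d942485203 (k8 c54 c9694 c311 c16665 c5436 c5437 c20955 c312 (k8 c20957 c584 c12635 c5565 c1121 c81 c813 c1124 (k8 c9710 c1525 c19418 c5566 c1522 c21001 c978 c5568 (k8 c20598 c19585 c6008 c5516 c12633 c5332 c577 c1724 (k8 c5616 c5430 c9711 c1807 c578 c913 c1694 c5520 (k8 c5334 c4243 c5435 c3656 c3657 c21049 c1753 c20734 (k8 c5711 c5651 c5466 c21051 c21052 c2490 c315 c353 (k1 c21025 k0)))))))) (by decide +kernel)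
def c21054 : PP 9 3 T 0x4000000000000000200000000000000000000000000000000000000000000000140000000000000000800000000000000000000000000005000000220 := rS 0x7cb6879f098c5203c987c9247a503e519d (k8 c20598 c16665 c19585 c6008 c5520 c5334 c5517 c5438 (k8 c54 c9694 c9754 c5536 c2384 c8100 c18204 c17931 k0)) (by decide +kernel)
def c21055 : PP 9 3 T 0x20000000000000000000000100000000000000800000000000000000000000000000000000000000000000000000000000000000000220 := rS 0x461d04a4cae4462901a7576b7738ee959d72a6c4b2270b0bc6ecc2a96f2575fbad96efc727cfaa3bba84dea716af770df07ca073933da48bc27db680278d (k8 c20957 c584 c12635 c21053 c5570 c312 c311 c4243 (k8 c5438 c3656 c16665 c19585 c20737 c19418 c5617 c9711 (k8 c1807 c5565 c1121 c9710 c1525 c5566 c1522 c578 (k8 c1561 c5420 c20955 c5431 c81 c813 c1124 c5423 (k8 c3622 c5467 c577 c4272 c1784 c3088 c21054 c3489 (k8 c20598 c6008 c5332 c1724 c5616 c5430 c1694 c54 (k8 c9694 c9734 c5415 c5530 c17828 c3621 c620 c2644 k0))))))) (by decide +kernel)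
def c21056 : PP 9 3 T 0x100000000000000800000000000000000000000000000000000000000000000000000000000000000000220 := rS 0x1f5c5942304a48e24d9b5069ad362570c8bc6ec6f89f0acb38ed8225377a7d428f3e9be27a0888045203c98e47bad3d92416474ebaf4b7b09e371ca716a4947775faf576b7dc296f2572f39d843ba503e519d (k8 c20598 c16665 c19585 c6008 c5332 c577 c1724 c312 (k8 c81 c813 c1124 c19418 c5616 c5430 c5617 c5431 (k8 c9710 c1525 c311 c9711 c1807 c578 c20957 c584 (k8 c913 c5385 c20955 c1694 c5520 c5516 c5334 c4243 (k8 c5437 c5436 c3656 c5438 c54 c9694 c53 c9730 (k8 c12635 c12633 c5565 c5566 c5568 c1121 c1522 c1561 (k8 c21001 c978 c21053 c5571 c5420 c5423 c5570 c20737 (k8 c3622 c5467 c1784 c4272 c3088 c21054 c21052 c316 (k8 c21055 c5665 c2434 c746 c12614 c620 c619 c2639 (k2 c5552 c5676 k0)))))))))) (by decide +kernel)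
def c21057 : PP 9 3 T 0x80000000000000000000000000000000000000800000000000000000000000000000000400000000000000000000000000000000000220 := rS 0xfd1250245de8f639b1c5e0dae153eb338c440393d8a04920b23bac278d5faf4224b65bb48358069adcec252de4aeb75dee14777538b71d7b4e8ee940f94675245e (k8 c312 c311 c20598 c16665 c19585 c6008 c5332 c1694 (k8 c913 c578 c9711 c1807 c9710 c1525 c19418 c5430 (k8 c5616 c81 c813 c1124 c577 c1724 c21052 c316 (k8 c21056 c5340 c1783 c1753 c5342 c5558 c5617 c5431 (k8 c20957 c584 c20955 c5520 c5516 c5334 c4283 c5444 (k8 c5438 c53 c9730 c5571 c5574 c5572 c5423 c9399 (k8 c5235 c15026 c5665 c5535 c2404 c4185 c746 c3622 (k2 c12614 c1122 (k1 c809 k0))))))))) (by decide +kernel)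
def c21058 : PP 9 3 T 0x50000000000000000000000200000000000000000000000000000000000000000000000400000000000000000000000000000000000220 := rS 0x1e26fb8743e0c98e46fb1490ec934a07ca33a41 (k8 c5340 c20598 c16665 c19585 c6008 c5334 c5332 c311 (k8 c5444 c5435 c3656 c5438 c5235 c16656 c5460 c5538 (k2 c5236 c17960 k0))) (by decide +kernel)
def c21059 : PP 9 3 T 0x2000000000040000000000000000000000200000000000000001000000000000000000000000000000100000000000000000000000000000000000220 := rS 0x9fe6a0f1b7dc2231480c7e391b8f7623b0f9248f4a07ca33a2525b2c8292 (k8 c311 c5340 c1753 c5342 c5559 c20598 c16665 c19585 (k8 c6008 c5520 c5334 c5517 c5332 c5444 c5436 c5435 (k8 c3656 c3657 c54 c9694 c9734 c5460 c5538 c17960 (k4 c11678 c19019 c2927 c19604 k0)))) (by decide +kernel)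
def c21060 : PP 9 3 T 0x800000000000000000000000000000000400000000000000000000000000000000000220 := rS 0x4ff8cde7e4823dbea189b8f10c6723a7e9e159a6442b98aed36e0d3588cc62901e4c7fb10f92416474ebaf4b7b09e371ca716a8eeebb5bee14b792b97bcae7610ee940f946744a4b65906b092 (k8 c311 c21056 c5340 c1753 c5342 c5559 c20598 c16665 (k8 c19585 c6008 c5332 c577 c1724 c5468 c312 c81 (k8 c813 c1124 c19418 c5616 c5430 c9710 c1525 c9711 (k8 c1807 c578 c20957 c584 c913 c5385 c20955 c1694 (k8 c5520 c5516 c5334 c5517 c5444 c3657 c5438 c54 (k8 c9694 c9754 c9734 c21052 c316 c21057 c21058 c5414 (k8 c5415 c5528 c5530 c5532 c21059 c5189 c5555 c3621 (k8 c3245 c3244 c2626 c2607 c15695 c14125 c2486 c17964 (k4 c800 c3039 c5577 c2881 (k1 c5711 k0)))))))))) (by decide +kernel)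
def c21061 : PP 9 3 T 0x4000000000000000000000000000000000000000000000000800000000000000000000000000000000000000000000000000000000000000000000220 := rS 0x1a0d8a4bc3b7da64e940f94676b0e3631a9345e (k8 c312 c21060 c1119 c1120 c4739 c21056 c20598 c16665 (k8 c19585 c6008 c5438 c8100 c9399 c5536 c311 c5444 (k2 c5236 c20995 k0))) (by decide +kernel)
def c21062 : PP 9 3 T 0x40000000000000000000000000000000000000000000000000000000000000000000000220 := rS 0x92e8624913ff891edf50fddc78b06edd67f4631a84315da78534cb2992c821112d63cabb6104f71a58f08c5203c98fc725ed8a483e490591c9b4a07ca33b8d (k8 c20957 c20598 c16665 c19585 c6008 c5521 c5520 c5516 (k8 c5334 c5517 c311 c5444 c312 c3656 c3657 c5438 (k8 c54 c9694 c9734 c21041 c5385 c19418 c584 c577 (k8 c5430 c5468 c21056 c5559 c5558 c5340 c5342 c5563 (k8 c1753 c21060 c5536 c8100 c4020 c2490 c1119 c1120 (k8 c5189 c5532 c9399 c315 c2657 c4739 c17833 c15695 (k8 c14125 c2486 c21061 c5577 c800 c12614 c5382 c1012 (k1 c5677 k0)))))))) (by decide +kernel)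
def c21063 : PP 9 3 T 0x400000000000000040000000000000008000000000000000000000000000000000000000000000500000000000000000010000000000000000000000000000 := rS 0x30bb9 (k2 c5613 c3475 (k1 c5687 k0)) (by decide +kernel)
def c21064 : PP 9 3 T 0x400000000000000140000100000000000000000000000000000000000000000000000000000000500000000000000000008000000000000000000000000000 := rS 0x60709a4 (k4 c5243 c5687 c5607 c1150 k0) (by decide +kernel)
def c21065 : PP 9 3 T 0x40000000000000000000000000000000000000000000000000000000000000040000000800000000000000000000000000000000000220 := rS 0xe5fa942f6e7f2bbb0aa5c0e92cfb8d5ddd7ea72782c9aeb8ffdd7acb409cc02a13fc84abe151e3ddb8906885d2b43727ce2b34e9b7698b8dc4922c6f991d1ee0208e6b0491bb7fc593d8e84774a07ca0f692ce9a8bd26 (k8 c21062 c312 c1119 c20598 c311 c4243 c16665 c19585 (k8 c6008 c5332 c5383 c5444 c5438 c5236 c5580 c5435 (k8 c5334 c5212 c3656 c5340 c17960 c2847 c5520 c19019 (k8 c1120 c3882 c5675 c4786 c969 c5241 c5529 c1694 (k8 c2899 c10427 c1523 c2601 c2600 c4767 c5528 c315 (k8 c3471 c5467 c3469 c1524 c5460 c5343 c3466 c18926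 (k8 c1122 c53 c9719 c4283 c20621 c3305 c5637 c12619 (k8 c20955 c5521 c5516 c5335 c1375 c1397 c21063 c721 (k8 c21064 c17701 c6187 c5607 c1123 c1150 c3622 c5473 (k4 c1733 c803 c3575 c5552 (k2 c2520 c5692 k0))))))))))) (by decide +kernel)
def c21066 : PP 9 3 T 0x40000000000000000000000000000000000000000000000000000000000000000000000800000000000000000000000000000000000220 := rS 0x17b28c5c59ab5f59f482bdcaeb171b3744922c6350bc3e4f059363ff75e9cc03212ae251ee01c9246e7b2f03443b4f9b7fc593d8a487641ac11e940f946774326 (k8 c21062 c5383 c20598 c16665 c19585 c6008 c5520 c5212 (k8 c5340 c5332 c311 c5444 c5438 c5236 c5580 c19019 (k8 c5241 c5528 c315 c312 c4243 c5435 c5334 c3656 (k8 c17960 c2847 c3471 c5343 c3466 c53 c9719 c3305 (k8 c5637 c12619 c5521 c5516 c5335 c5517 c9709 c1119 (k8 c1120 c3882 c5675 c2601 c4786 c969 c21065 c5430 (k8 c1103 c5243 c21039 c21064 c722 c5652 c17678 c362 (k2 c961 c3575 k0)))))))) (by decide +kernel)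
def c21067 : PP 9 3 T 0x40000000000000000000000000000000000000000000000000000000000000080000000000000000000000000000000000000000000220 := rS 0x89a462e6ebd2f8e251c2e2c59abb3e9057b91787c9e0b26c7feebd398064255c4a3dc039248dcf65e8a83443b4f9b7fc593d8a487641ac11e940f946774326 (k8 c21062 c5383 c20598 c16665 c19585 c6008 c5520 c5212 (k8 c5340 c5332 c311 c5444 c5438 c5236 c5580 c19019 (k8 c5241 c5528 c315 c5414 c312 c4243 c5435 c5334 (k8 c3656 c17960 c2847 c3471 c5343 c3466 c53 c9719 (k8 c3305 c5637 c12619 c5521 c5516 c5335 c5517 c9709 (k8 c5430 c1103 c5243 c21039 c722 c5652 c5390 c3472 (k8 c362 c758 c5687 c3575 c5666 c17678 c3038 c961 (k1 c5675 k0)))))))) (by decide +kernel)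
def c21068 : PP 9 3 T 0x140000000000000000000000000000000000000000000000000000000000000800000000000000000000000000000000000000000000220 := rS 0x2f51228a4459ab370ace317179cc9e0b26c944a1100c84ab8947b8072491b9ecbd150688769f36ff8b27b1490ec835823d281f28ced9e3f8bd2687ef26 (k8 c21062 c5637 c5383 c5243 c5390 c12619 c21039 c20598 (k8 c16665 c19585 c6008 c5520 c5212 c5340 c5332 c311 (k8 c5444 c5438 c5236 c5580 c19019 c5241 c5528 c315 (k8 c5414 c312 c4243 c5435 c5334 c3656 c17960 c2847 (k8 c3471 c5343 c3466 c53 c3846 c12632 c217 c5521 (k8 c5516 c5335 c9719 c9709 c17678 c3102 c1105 c5666 (k4 c722 c5652 c3038 c362 (k2 c5675 c3575 (k1 c961 k0))))))))) (by decide +kernel)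
def c21069 : PP 9 3 T 0x140000000000000000000000000000000000000000000000000000000000000000000000000000000000000000000000000000000000220 := rS 0x399cb18f22414e70c21bd7ea5c0e905ec1d687c9e4dfbaf5967f409cc02b3700e492374ea8f1eed2f2e4426d4cadf69f36ff8b27b1490ec835823d281f28cee864c9b (k8 c21066 c21062 c5383 c20598 c16665 c19585 c6008 c5520 (k8 c5212 c5340 c5332 c311 c5444 c5438 c5236 c5580 (k8 c19019 c5241 c5533 c5530 c5529 c5528 c5415 c312 (k8 c5467 c3469 c1524 c1694 c5435 c5334 c3656 c17960 (k8 c2899 c53 c9719 c4283 c18926 c20621 c3305 c5637 (k8 c5521 c5335 c5517 c5437 c3658 c9709 c5243 c5607 (k8 c1123 c21068 c21064 c5687 c5666 c1350 c10427 c5681 (k4 c912 c5622 c20998 c3505 k0)))))))) (by decide +kernel)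
def c21070 : PP 9 3 T 0x40000000000000000000000000000000000000000000000000000000000000000000000000000000000000000000000000000000000220 := rS 0xbd9adcec68dbb8f31252e152381c59b93fa438d9d4f775fee1769b5b9b57315c4ed1468ff0fcf1ee06fbb542cb20f88ff58bec4726391bec4f6812f248764923d281f28cebaf431f5ec98e601 (k8 c53 c9719 c21062 c3305 c12619 c5383 c20955 c20598 (k8 c16665 c19585 c6008 c5520 c5334 c5332 c311 c312 (k8 c4283 c4243 c5444 c5435 c3656 c5438 c9730 c9703 (k8 c5212 c18926 c5236 c5340 c20621 c1122 c5467 c5580 (k8 c17960 c3469 c19019 c5460 c2847 c1524 c5241 c3471 (k8 c5414 c5415 c5529 c5533 c21066 c21067 c21069 c5431 (k8 c5613 c5428 c17701 c757 c6187 c1523 c5666 c5390 (k8 c5607 c3038 c1150 c1123 c5675 c1542 c3622 c2689 (k4 c5669 c1733 c2482 c803 (k1 c3605 k0)))))))))) (by decide +kernel)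
def c21071 : PP 9 3 T 0x200000000000000000000000000000000000000000800000000000000000000000000000000000000000000000000000000000000000220 := rS 0x118283baf6ed361f1426b3f836224f05935d6bd39b2d6b2152e070ac7f078f128f7137d66411c9246ee14ded4520312844022325e4f629d1da7c8f4a07e747b281fa04bc925fa8d4fabbbe2f1fa4b3d602627d0eda3f26 (k8 c21062 c12619 c21070 c5383 c5570 c317 c12635 c17708 (k8 c6187 c5608 c5390 c5613 c721 c5428 c5614 c5431 (k8 c311 c312 c4283 c3657 c16665 c5436 c20598 c19585 (k8 c6008 c5520 c5572 c5332 c1694 c5444 c5438 c12639 (k8 c9734 c53 c3846 c12632 c54 c9694 c17828 c8100 (k8 c13096 c5435 c5334 c3656 c5340 c5574 c13097 c3590 (k8 c2404 c3471 c17960 c5235 c5535 c5423 c3468 c1123 (k8 c320 c5422 c5420 c9719 c3305 c20955 c5521 c5516 (k8 c5335 c9730 c2598 c809 c2600 c1122 c5670 c5665 (k4 c1553 c748 c3622 c3575 (k2 c1841 c2637 k0))))))))))) (by decide +kernel)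
def c21072 : PP 9 3 T 0x400000000000000000000000000000000000000000000000000000000000000000220 := rS 0x1ad32ec369f9207d88b2f0ab573b97c1f3f1a3dc4df59906b013138e4923770a6f6a290189422011192f4326c9ec53a3b4fed88f4a07e747b281fa04bc92 (k8 c311 c312 c4283 c3657 c16665 c5436 c20598 c19585 (k8 c6008 c5520 c21070 c5572 c5332 c1694 c5444 c5438 (k8 c21062 c5383 c12639 c9734 c53 c3846 c12632 c54 (k8 c9694 c17828 c8100 c13096 c5435 c5334 c3656 c5570 (k8 c317 c12635 c5340 c5574 c13097 c3590 c2404 c17960 (k8 c19019 c5235 c5539 c5461 c5422 c5423 c5420 c9730 (k8 c1552 c5675 c5670 c3865 c812 c1521 c20974 c5665 k0))))))) (by decide +kernel)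
def c21073 : PP 9 3 T 0x440002000000000000000110000000000000000000000000000200000000000000200000000000000000000000000020000000000010000000000000000000 := rS 0xfae95878e (k4 c1553 c4184 c5608 c7334 (k1 c5194 k0)) (by decide +kernel)
def c21074 : PP 9 3 T 0x22000000000190000000000000000000000000000000000200040000000000100000000000044000050000000000000000000010000000000000000000 := rS 0x5cfd57cc3 (k4 c5468 c6396 c7334 c1305 (k1 c5686 k0)) (by decide +kernel)
def c21075 : PP 9 3 T 0x220 := rS 0x7d1d0b953795478f76aed311b361e0f8a1dc9acff125be251fe3717cc82c76fd614ae1f026c2781daad44f854facf6c2525847efa1932749a47248ee9481d883c7a372f248723f9464c4711008a4079d (k8 c20598 c54 c9694 c53 c9730 c9734 c5438 c16665 (k8 c3657 c3656 c311 c312 c5435 c5436 c19585 c5444 (k8 c4283 c6008 c5332 c5334 c5520 c5521 c1694 c21062 (k8 c5383 c5637 c3846 c12639 c12632 c21070 c5574 c5572 (k8 c5423 c5570 c5422 c17828 c3468 c317 c8100 c5235 (k8 c13096 c1123 c12635 c13097 c5535 c5340 c19019 c3590 (k8 c17960 c2404 c3471 c12165 c21072 c809 c2600 c21071 (k8 c1122 c5670 c17330 c5665 c4787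 c2428 c4764 c21073 (k8 c3469 c1524 c21074 c5681 c1300 c1810 c5686 c5555 k0))))))))) (by decide +kernel)
def c21076 : PP 9 3 T 0x2000000000010000100040000000000000000080000000000000000000000000000000400001000004000000060000000000000000000004000000020 := rS 0x1b1326b0b448f093711847ea14098e22290c80f3a4b12804820908b8472df1b8f6b013 (k8 c317 c12635 c5560 c5518 c5538 c5534 c5460 c15516 (k8 c21075 c12636 c53 c12632 c12639 c20598 c54 c9701 (k8 c9694 c9730 c9754 c193 c2826 c2823 c1579 c17954 (k8 c19535 c17330 c1552 c3579 c2600 c1463 c5665 c2428 k0)))) (by decide +kernel)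
def c21077 : PP 9 3 T 0x2000000000000000000000000000000000000080000000000000000000000000000000000000000000000000000002000404000000000000000000060 := rS 0xd018ed8e7b1c83c1637 (k8 c5518 c5516 c5329 c5534 c5457 c5535 c5456 c54 (k2 c2427 c5710 k0)) (by decide +kernel)
def c21078 : PP 9 3 T 0x440012000000000010000100040000000000000000080000000000000000000000100000000000000000000000000040000000000000000000000000000020 := rS 0x2ee2e98471e227155c9a8dabf53a8e331b303a9c5b17797d23282ba00fa638892c4a0103b1dca4759a7d7acbc2ad47ba9c0e356f89d278eb01313edb3a410484472e1248ddbe3b (k8 c5456 c5538 c5518 c5334 c5460 c5534 c15516 c21075 (k8 c12636 c20598 c5241 c5570 c317 c12635 c17960 c5190 (k8 c5610 c12165 c5611 c5607 c5388 c5560 c5422 c5423 (k8 c5420 c5575 c5572 c5574 c5520 c5539 c5535 c8467 (k8 c53 c12632 c12639 c9730 c9754 c21076 c5670 c12626 (k8 c12653 c17681 c1746 c1834 c17815 c17934 c5693 c5663 (k8 c2694 c3362 c3291 c1808 c2961 c21077 c5665 c1141 (k8 c1140 c2600 c18110 c5675 c1577 c2850 c2666 c3626 k0)))))))) (by decide +kernel)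
def c21079 : PP 9 3 T 0x80000100040000000000000000080000000000000000000000000000000000000000000000000080000800400000000100000000000020 := rS 0x6880ad15949bf6023318a4320325894220159d602627 (k8 c5570 c317 c12635 c5574 c53 c15516 c12632 c12639 (k8 c54 c9701 c9694 c9754 c9734 c19577 c2920 c17758 (k4 c1139 c10195 c17941 c369 (k1 c2371 k0)))) (by decide +kernel)
def c21080 : PP 9 3 T 0x1000000000000000000000000051400000000000080000000000000000000000000000000000009400000000000000050000 := rS 0x91ead87ad (k4 c3207 c594 c775 c2957 (k1 c12621 k0)) (by decide +kernel)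
def c21081 : PP 9 3 T 0x440012000000000010000100040000000000000000080000000000000000000000100000000000000000000000000000000000000000000000000000000020 := rS 0xa7dc8aaedaa91ec42e3f9415d4a5e351b546907549e268f779fb1b8190c7e4ba4f194c7a55ac04c4ebd38eda239d128048209088ed8ee11cb7c9237 (k8 c5518 c5334 c5538 c5534 c5460 c5535 c5456 c15516 (k8 c21075 c12636 c53 c12632 c20598 c9730 c5241 c5571 (k8 c5575 c5570 c317 c12635 c5343 c5560 c5563 c17960 (k8 c5190 c5391 c5385 c5606 c5607 c5611 c21078 c3109 (k8 c2923 c809 c812 c5693 c5675 c3291 c746 c5665 (k8 c21079 c1123 c21080 c10195 c5318 c5433 c17815 c2956 (k4 c20968 c721 c722 c5613 (k2 c1099 c5681 k0)))))))) (by decide +kernel)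
def c21082 : PP 9 3 T 0x400014000000000000000000001000000000000000000000000011400000000000100000000000000000000000000080000000009400000000000000010100 := rS 0x7549dde13 (k4 c2918 c3109 c812 c5693 (k1 c21080 k0)) (by decide +kernel)
def c21083 : PP 9 3 T 0x440012000000000000000100040000000000000000080000000000000000000000100000000000000000000000000000000000000000000000000000000020 := rS 0x306ce50bdeae2fad893b91e91759c4f87f61a04ad8dc4c863f8b92ca5429fd26c3c6531e956b00ddbacc4315da08ce62901e749625009041211038edc2394db7c1e492782c6e4d (k8 c5521 c5518 c5516 c5335 c5334 c5329 c5538 c5536 (k8 c5534 c5460 c5456 c8467 c15516 c21075 c12636 c53 (k8 c12632 c12639 c20598 c54 c9694 c9719 c9734 c21081 (k8 c5414 c5528 c5532 c17828 c315 c5212 c5343 c5560 (k8 c5563 c17960 c5236 c5190 c5448 c5398 c9578 c5391 (k8 c5390 c5385 c5606 c5610 c5611 c10195 c12653 c594 (k8 c21082 c5670 c2870 c2831 c3040 c20712 c5693 c5675 (k8 c1504 c3082 c775 c961 c3575 c20735 c415 c5656 k0)))))))) (by decide +kernel)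
def c21084 : PP 9 3 T 0x40002000000000020000100040000000000000200080000000100000000000000000000000100000000000000000080000000000000000010000000040020 := rS 0x12efd678cc3b0157913de702dedd526d55bc44673888a432039d92c4a110081da2cd0f9246ed546bfd211363a3dbf9d (k8 c20598 c5538 c2923 c5535 c809 c5675 c20750 c10035 (k8 c20749 c5518 c5334 c5517 c5537 c5459 c8467 c53 (k8 c15516 c12632 c12639 c20666 c54 c9701 c9694 c9730 (k8 c9719 c9734 c5811 c5413 c5529 c5531 c17828 c20380 (k8 c17735 c19004 c20834 c20748 c3066 c336 c390 c8707 (k2 c20237 c20460 (k1 c9860 k0))))))) (by decide +kernel)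
def c21085 : PP 9 3 T 0x40006000000000000000100040000000000000000080000000000000000000000000000000000000000000000000010000000008000000000000000000020 := rS 0x8a884d46d38edb6ab3481be268f50b24fd58098346bb030a06522331c445203ce92c4a1100b1c72df (k8 c5538 c5534 c5535 c53 c15516 c12632 c12639 c20598 (k8 c54 c9694 c9730 c9754 c9734 c5313 c12626 c9759 (k8 c19416 c20773 c369 c372 c5216 c5670 c20845 c5398 (k8 c2923 c809 c2919 c5675 c2897 c21084 c5241 c5571 (k4 c746 c5665 c2371 c1139 (k1 c17941 k0)))))) (by decide +kernel)
def c21086 : PP 9 3 T 0x540002000000000000100000000000000000000000080000000000040000000000200000000005000000000000000000000000000004000000000000000000 := rS 0x14230e91d8e5ca4f1b9362ee7 (k8 c5461 c3454 c5521 c5518 c5335 c5539 c5534 c5456 (k4 c1791 c5697 c3591 c2637 k0)) (by decide +kernel)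
def c21087 : PP 9 3 T 0x440012000000000000000100040000000000000000080000000000000000000000000000000000000000000000000000000000000000000000000000000020 := rS 0x1b0da28d4ea55cee45576d51b6f28e3fa46271afab882ec1d6ca0aeb73ee2643a98fe3f1725d230fc6ecce92c82090881c76e16f9248e4d (k8 c5521 c5520 c5334 c5538 c5460 c5456 c8467 c15516 (k8 c21075 c12636 c12639 c20598 c21083 c5467 c1783 c5190 (k8 c5391 c5390 c5608 c5385 c5388 c5606 c5610 c1553 (k8 c12165 c21085 c10195 c5911 c5319 c5433 c17934 c7334 (k8 c21086 c2689 c3129 c19538 c5675 c3483 c4641 c3570 (k8 c721 c722 c5613 c3425 c5074 c1099 c3193 c17774 (k2 c5681 c9578 k0))))))) (by decide +kernel)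
def c21088 : PP 9 3 T 0x4000000000000000100040000000000000000080000000000000400000000000040000000000000000001000110000000008004000000000000011000 := rS 0x238fc13079241647 (k8 c5520 c5516 c5334 c5329 c372 c5670 c12614 c2923 k0) (by decide +kernel)
def c21089 : PP 9 3 T 0x400012000000000000000100040000000000000000080000000000000000000000000000000000000000000000000000000000000000000000000000000020 := rS 0x2f651d5ddd81ad5e9b17eee376d5646b76bace2cb3e2df1b8990c7f1f8bd20fbc63ddba853e0dac207605694c5522e35ac4fe473888073a4b2082422071da75c2396f83c924f058dc8e4d (k8 c5521 c5520 c5518 c5516 c5335 c5334 c5329 c5538 (k8 c5534 c5460 c5458 c5456 c8467 c15516 c21075 c12636 (k8 c12639 c20598 c53 c9730 c9719 c21087 c5547 c5548 (k8 c5549 c5589 c5590 c19019 c10195 c5209 c12653 c9176 (k8 c369 c5448 c5398 c7694 c5560 c17960 c17954 c5190 (k8 c5390 c5608 c5385 c5606 c5610 c5611 c12165 c21088 (k8 c1548 c2870 c2831 c1553 c17981 c6118 c17766 c5666 (k8 c5693 c3106 c5665 c2821 c1504 c3108 c21063 c775 (k2 c415 c748 (k1 c3575 k0)))))))))) (by decide +kernel)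
def c21090 : PP 9 3 T 0x40000200000000004201000000000001000000000008000000000001400000000055040000040000080050000080000001a000000000000000000000000020 := rS 0x18fc5dee4d8dbbe117eb75ee26347300b1cf6e173b7dcaa34fa84f299 (k8 c5447 c2428 c5398 c5448 c5449 c5539 c5538 c5461 (k8 c5460 c5457 c5535 c53 c9719 c3630 c4643 c4837 (k8 c12165 c3106 c3622 c21063 c3261 c1151 c748 c2660 (k2 c3469 c3611 k0)))) (by decide +kernel)
def c21091 : PP 9 3 T 0x480002000000000000000100040000000000000000080000000000000000000000000000000000000000000000000000000000008000000000000000000020 := rS 0x1a58fe3b1aec36238ddb559048d671659f07de31ed636f178aa4632e35ac4ce7111480f3a4b128048209088ed3ae16f92752a774bbef2a575d9fc84f1bca5020d1ca7d43b0 (k8 c19416 c5398 c5448 c5534 c369 c12626 c5313 c5518 (k8 c5335 c21089 c6333 c5623 c5620 c5619 c5473 c5472 (k8 c5470 c5469 c5334 c5538 c5460 c5458 c5456 c15516 (k8 c21075 c12636 c53 c12632 c12639 c20598 c54 c9694 (k8 c9730 c9719 c5547 c5548 c5549 c5551 c5589 c5590 (k8 c5593 c7694 c9176 c12427 c17960 c17954 c21088 c1548 (k8 c2870 c17981 c2823 c6118 c17766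 c5666 c8280 c5665 (k4 c21090 c3263 c1553 c584 (k2 c5608 c6187 k0))))))))) (by decide +kernel)
def c21092 : PP 9 3 T 0x40002000000000000000100040000000000400000080000000000000000000000200000000000000000000000000000000000008000000000000000000020 := rS 0x23fa593638f9e3 (k4 c5467 c21085 c1553 c1554 (k2 c5608 c12619 (k1 c6187 k0))) (by decide +kernel)
def c21093 : PP 9 3 T 0x440022000000000000001110000000000000400000000000000000000000000000000000000000000000040100000000000000000000000000000000000000 := rS 0x5bae577b8fa275ce9b (k8 c5536 c5461 c5458 c5194 c5213 c5554 c5632 c5616 (k1 c17955 k0)) (by decide +kernel)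
def c21094 : PP 9 3 T 0x40022000000000200000110000000000000000000000000000000000000000000100000000000004000050100000000000000000000000000000000000000 := rS 0xda2e36ebb5fa75ce9b (k8 c5536 c5461 c5458 c5431 c5430 c6396 c17955 c5241 (k1 c5415 k0)) (by decide +kernel)
def c21095 : PP 9 3 T 0x1000000000000000000000000000000000000000000000000020000000000000000001000000000000000000000000020 := rS 0x6bdac44039d (k4 c20598 c53 c9730 c5415 (k2 c1141 c5665 k0)) (by decide +kernel)
def c21096 : PP 9 3 T 0x22000000000100040000004501040000000000080000000001400000000000000000000000000000040100000000000000000000000000000000001020 := rS 0x1af6a20160ad74b9369e0a02f888073ac73da75ce9b7287c1e0b26ea5d379b393c6eb7 (k8 c12165 c5518 c5335 c6333 c5619 c5472 c5469 c5521 (k8 c5516 c5329 c5517 c5539 c5536 c5461 c5458 c5457 (k8 c5535 c20598 c53 c9730 c9709 c3575 c3611 c2428 (k8 c21095 c17955 c1103 c5652 c362 c5528 c2371 c5665 k0)))) (by decide +kernel)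
def c21097 : PP 9 3 T 0x22000000000100000000000000080000000000080000000000000000000000000000000000014000040100000000000000000000000000000000001020 := rS 0x35ed441ad160ad746d17c44039d1da75ce394db943e4d60d9c9e37 (k8 c5518 c5335 c6333 c5618 c5521 c5517 c5539 c5536 (k8 c5534 c5461 c5458 c5456 c20598 c53 c9730 c9709 (k8 c749 c17955 c1103 c5652 c3267 c20998 c5528 c2371 (k1 c5665 k0)))) (by decide +kernel)
def c21098 : PP 9 3 T 0x400002000000000000000100040000000000000000080000000000000000000000000000000000000000000000000000000000008000000000000000000020 := rS 0xbb0a8d82d5c5eb72b7c4e063f8fc5e91dbf34ca8547ab90837602fce8e58379b3f909e37 (k8 c5518 c5335 c21089 c6333 c5619 c5618 c5534 c20598 (k8 c9709 c19416 c369 c373 c774 c5449 c5398 c5447 (k8 c21091 c21092 c21093 c5390 c5608 c5385 c5607 c5610 (k8 c12165 c21094 c21096 c21097 c3422 c21095 c5652 c748 (k1 c3191 k0))))) (by decide +kernel)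
def c21099 : PP 9 3 T 0x400002000000000000000100040000000000000000080000000000000000000000000000000000000000000000000000000000000000000000000000000020 := rS 0x29c8f1aed8b464aba48d943eae2f9eb47a3f9415dd6c177ba587e4ce92c8209088edc2e71cb7dca49278dc8e4d (k8 c5521 c5520 c5518 c5335 c5334 c5539 c5538 c5534 (k8 c5461 c5460 c5456 c15516 c21075 c12636 c12639 c20598 (k8 c21089 c5468 c5472 c5473 c5618 c5623 c21098 c10195 (k8 c5318 c5436 c5437 c19019 c17934 c7334 c3591 c2693 (k8 c5194 c574 c2637 c5697 c21086 c5611 c3076 c20961 (k1 c3592 k0)))))) (by decide +kernel)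
def c21100 : PP 9 3 T 0x100000000000000000100000000000000000000000000000000000000000000000000000000000000000000000000000000000020 := rS 0x13 (k2 c20576 c12635 k0) (by decide +kernel)
def c21101 : PP 9 3 T 0x800020000000000000000000000000000000000000000000000200000000000000000000000000000000000000000000000000000400010000000000000000 := rS 0x1d6c32abbddb231fb047bad (k8 c5437 c5436 c5319 c5318 c5594 c5639 c5597 c5636 (k2 c5468 c5623 (k1 c3592 k0))) (by decide +kernel)
def c21102 : PP 9 3 T 0x12000000000100000000000011000000000200000000000200000000000000000800000000020000440000000000000000004001000040000000004460 := rS 0x290bc0dd8ad4d86bda864063b639ed3a39 (k8 c5534 c5458 c5457 c5535 c5456 c54 c9701 c5415 (k8 c1141 c21095 c1346 c14790 c316 c5710 c5681 c1123 k0)) (by decide +kernel)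
def c21103 : PP 9 3 T 0x4000000000020000100040000000000000000080000000200000000000000000000000000000000000000000000000000000000000000000000000020 := rS 0x1b1db88c5203258942201 (k8 c53 c15516 c12632 c12639 c54 c9694 c9734 c17828 (k2 c9578 c5236 k0)) (by decide +kernel)
def c21104 : PP 9 3 T 0x100010000000000111000100040000000000000000080000000055000000000000000000000000010000000000000000000000001000000000000000040020 := rS 0x57aa5be3713a48f844a758 (k8 c21100 c5563 c15516 c19418 c5237 c5610 c5611 c12165 (k2 c12621 c17774 (k1 c722 k0))) (by decide +kernel)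
def c21105 : PP 9 3 T 0x800000000000000000042000000000000000000000000000000001000000000000000000000000000000000000000000000000000400000000000000050000 := rS 0x31b1f929564f23 (k4 c5594 c5637 c5636 c5595 (k2 c5385 c5611 (k1 c12621 k0))) (by decide +kernel)
def c21106 : PP 9 3 T 0x2000000000000000100040000000000000000080000000000000000000000000000000008010000000000000000000000004000000000000000040020 := rS 0x1888b62e2a6a489b5005f3fea2f37b8f69756b75da9eefb88881c1f255f9570b278cc6e47f526f97ec53ac2cd7ab53eec44a011eedb6be3713849649f98ec82116f91f3b28b3c871e09 (k8 c21075 c1555 c3670 c5348 c10195 c20598 c5520 c5538 (k8 c15516 c12636 c5456 c19019 c5334 c12639 c5460 c17934 (k8 c5466 c21103 c5241 c5436 c53 c12632 c17815 c18933 (k8 c5422 c5575 c5574 c21100 c5563 c21099 c21101 c5521 (k8 c17833 c5594 c5599 c5641 c5637 c5638 c5636 c5596 (k8 c5595 c5329 c8467 c9730 c21104 c5613 c5428 c5430 (k8 c5616 c721 c21105 c6187 c913 c813 c5671 c992 (k8 c1803 c5670 c21077 c17681 c5665 c1140 c2657 c3626 (k2 c5676 c3259 k0))))))))) (by decide +kernel)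
def c21107 : PP 9 3 T 0x100002000000000091001000004100000000400000000000000000000000000000000800000000000000000000000000000000004000000040000000004460 := rS 0x78c5036f71ece82476c7 (k8 c5535 c5456 c21075 c20598 c6187 c913 c582 c5676 (k2 c15608 c2659 k0)) (by decide +kernel)
def c21108 : PP 9 3 T 0x2000000000000000100040000000000000000080000000000000000000000000000000008000000000000000000000000004000000000000000040020 := rS 0x2edb8d560748a7c4ae31f2151d9c5f1103a741e0b1be17ea4df2fd8a758d8edb6be3713849649f98edbe47ce8940241048447b28 (k8 c10195 c5436 c15516 c21075 c12636 c53 c12632 c20598 (k8 c5520 c5538 c5456 c19019 c5334 c12639 c5460 c17934 (k8 c5466 c21103 c5241 c17815 c21100 c5563 c21099 c21101 (k8 c5521 c17833 c5638 c5518 c5516 c5329 c5458 c8467 (k8 c9730 c9709 c5348 c1609 c3670 c1555 c21106 c3254 (k4 c1300 c21107 c5607 c21105 (k2 c21102 c721 (k1 c5613 k0)))))))) (by decide +kernel)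
def c21109 : PP 9 3 T 0x2000000000000002100040000000000000000080000000000000000000000000000000000000000000000000000000000004000000000000000040020 := rS 0xb853ee45576d560642070782c6f25c2c9fea4d0bf97622500a8dd4c360eb4a75876c8caaeffb0fc7abddb6d7c6e27092c93f3940ec820908b7c8f9d (k8 c20598 c5520 c5538 c15516 c21075 c12636 c5456 c10195 (k8 c19019 c5334 c12639 c5460 c17934 c5466 c21103 c5241 (k8 c5575 c5436 c5318 c21099 c5597 c5636 c5594 c5639 (k8 c21100 c5563 c5437 c5319 c21108 c3592 c3291 c53 (k8 c12632 c17815 c21101 c5433 c5521 c17833 c5637 c5638 (k8 c5595 c5518 c5516 c5329 c8467 c5606 c5607 c21105 (k4 c721 c722 c5613 c1099 (k2 c21104 c21102 k0)))))))) (by decide +kernel)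
def c21110 : PP 9 3 T 0x2000000000000000100040100000000000000080000000000000000000000000000000000000000000000000000000000004000000000000000040020 := rS 0x44d227ec56380ec7058de4bf526ba986c1d6bb64655778fef71eb3ee3cbf629ec44a011ed636db5f1b89c24b24fce503b2082422df23e774a0f (k8 c5329 c21109 c20598 c5520 c5538 c15516 c21075 c12636 (k8 c5456 c10195 c19019 c5334 c12639 c5460 c17934 c5466 (k8 c21103 c5241 c21100 c5436 c53 c12632 c17815 c5563 (k8 c21099 c21101 c5237 c17708 c6187 c913 c5318 c5597 (k8 c5636 c5594 c5639 c5437 c5319 c21108 c3592 c5521 (k8 c17833 c5595 c5518 c5516 c5535 c8467 c21107 c5676 (k4 c3247 c1005 c809 c19538 k0))))))) (by decide +kernel)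
def c21111 : PP 9 3 T 0x2000000000001000000048000040000000000000000000000000000000000000000000000044000440000000000000804000000000000000000000000 := rS 0xbea530a75ce9b (k4 c5536 c5461 c5458 c1581 (k2 c3243 c21052 (k1 c5663 k0))) (by decide +kernel)
def c21112 : PP 9 3 T 0x2000000000000000100040000000000000000080000000000000000000000000000000000000000000000000000000000004000000000000000040020 := rS 0x8ac5d22803fea31e6a36ae71179bdc7aceb75da9f71a551ba986638883e4a5577bb6463f60eb7cbf629d617a7dd8894023ddb6d7c6e27092c93f31d90412116f91f3b28 (k8 c10195 c20598 c5520 c5538 c15516 c21075 c12636 c5456 (k8 c19019 c5334 c12639 c5460 c17934 c5466 c21103 c5241 (k8 c5436 c53 c12632 c17815 c18933 c5575 c21100 c5563 (k8 c21099 c21101 c5437 c5319 c5318 c5594 c5639 c5597 (k8 c5636 c5595 c5329 c9730 c9754 c21108 c3592 c3291 (k8 c21109 c5237 c5428 c5430 c5616 c17708 c6187 c913 (k8 c813 c21110 c3254 c2434 c5665 c21111 c5671 c992 (k4 c5670 c17681 c3259 c1140 (k1 c7323 k0))))))))) (by decide +kernel)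
def c21113 : PP 9 3 T 0x2000000000000000100040000000000000000080000000000000000000000000000000000000000000000000000000000004000000000000000000020 := rS 0x2427db6d7c6e2f9ca33a4b20824223b70b7c9247 (k8 c5520 c5334 c5538 c5460 c5456 c15516 c21075 c12636 (k8 c12639 c20598 c10195 c19019 c17934 c5466 c21103 c5241 (k2 c5570 c21112 (k1 c317 k0)))) (by decide +kernel)
def c21114 : PP 9 3 T 0x2000000000090000100040000000000000000080000000000000000000000000000000000000000000000000000000000000000000000000000000020 := rS 0x3f9f3e6b513b2fc758208242239709246edf1da7f6056 (k8 c21113 c19416 c5448 c5456 c5538 c5518 c5334 c5460 (k8 c5534 c15516 c21075 c12636 c21100 c17960 c5420 c5570 (k4 c5422 c7694 c21085 c95 (k1 c21076 k0)))) (by decide +kernel)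
def c21115 : PP 9 3 T 0x80002000000000000000100040000000000000000080000000000000000000000000000000000000000000000000000000000000000000000000000000020 := rS 0x6b7cae875e37491f6184983673e0f8a11748b8e264b298f5ca4f23934aaef76c663723fb78eb04104845c2491bb7c772940834ac39 (k8 c5534 c21113 c369 c12626 c5313 c5456 c5538 c5518 (k8 c5334 c5460 c15516 c21075 c12636 c21100 c17960 c21099 (k8 c5594 c5599 c5641 c5639 c5597 c5636 c5521 c5520 (k8 c5335 c5539 c5560 c5563 c12639 c5547 c5549 c5589 (k8 c5593 c17995 c17954 c21088 c5350 c415 c2823 c599 (k8 c583 c6187 c5611 c2831 c17996 c5472 c1502 c5656 k0)))))) (by decide +kernel)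
def c21116 : PP 9 3 T 0x2000000000010000100040000000000000000080000000000000000000000000000000000000000000000000000000000000000000000000000000020 := rS 0x6df3bf3 (k4 c21115 c20598 c21114 c5241 k0) (by decide +kernel)
def c21117 : PP 9 3 T 0x2000000110040000000000000000000000400000000000540000000404400000000000000000008000008050000100400000004400 := rS 0xa0c0d5eb7caa65ed9f1b21c5ca41aa34fa9543b0 (k8 c19416 c5398 c5399 c5448 c5449 c369 c5313 c5390 (k8 c5606 c5611 c20735 c2821 c3622 c5470 c1500 c775 (k2 c5656 c3575 (k1 c415 k0)))) (by decide +kernel)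
def c21118 : PP 9 3 T 0x100000000000000000010000000110040000000000000000000000400000000000540000000404400000000000000000009800008050000100000000004420 := rS 0xa75ee02ef8ad28bf3aa34fa9543b0 (k8 c19416 c5398 c5399 c5448 c5449 c20598 c9709 c21117 (k4 c5676 c764 c2658 c2822 (k2 c1154 c3622 k0))) (by decide +kernel)
def c21119 : PP 9 3 T 0x100000000000000000000010000100040000000000000000000000000000000000080000000040000000000000000020000000000000000000000000000000 := rS 0xc5e96f18c (k4 c2831 c2832 c5611 c816 (k1 c5676 k0)) (by decide +kernel)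
def c21120 : PP 9 3 T 0x100002000000000000010000040110040000000000080000000004000000000000540000000400400000000000000000009000008000000000000000080020 := rS 0xa75ee3aef79f2e2acda58fb0efa2fceb1c720f2782c9aa34fa9543b0 (k8 c19416 c5398 c5399 c5448 c5449 c5521 c5516 c5335 (k8 c5329 c5534 c5535 c20598 c9709 c9703 c3790 c583 (k8 c21117 c6187 c5676 c7668 c816 c764 c5671 c2822 (k2 c1557 c3622 k0)))) (by decide +kernel)
def c21121 : PP 9 3 T 0x100000000000000000010000000110040000000000000000000000400000000000540000000400400000000000000000009800008050000100000000004420 := rS 0xc3 (k2 c594 c21118 k0) (by decide +kernel)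
def c21122 : PP 9 3 T 0x2000000000000000100040000000000000000080000000000000000000000000000000000000000000000000000000000000000000000000000000020 := rS 0x79371a5b3c78d4b409baf137b891b91fb75baccdb15da6a52271659f3e69950a7d460dd84a7c656fac8e3327c2bb5debffb1348e370593c920f119cc5203ce92c4a01208242253ac01c76c7708e536df (k8 c5538 c5536 c5534 c5460 c5535 c5456 c8467 c21100 (k8 c5563 c15516 c21075 c12636 c53 c12632 c12639 c20598 (k8 c54 c9694 c9719 c9734 c5329 c5334 c5335 c5516 (k8 c5518 c5520 c5521 c21099 c5596 c5597 c5639 c5638 (k8 c5637 c5641 c5594 c17833 c21113 c17960 c5313 c19416 (k8 c369 c5449 c5448 c5398 c5447 c21115 c21085 c1548 (k8 c2870 c3040 c1805 c21116 c5414 c5529 c5532 c5533 (k8 c17828 c20712 c5666 c5675 c960 c2606 c21119 c21120 (k8 c20540 c1148 c21121 c5345 c5385 c19418 c5217 c21094 k0))))))))) (by decide +kernel)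
def c21123 : PP 9 3 T 0x22000100000000000000000000000000000000000000000000000140000000000000000000000120000000000000000000000000008020 := rS 0x23fe69138b2ce601cec4d3ea1 (k8 c5398 c5448 c12622 c20598 c53 c9719 c1548 c2870 (k4 c3040 c17766 c19544 c5675 k0)) (by decide +kernel)
def c21124 : PP 9 3 T 0x2000000000000000100040000000000000000000000000000000000000000000000000400000000000000000000000000000000000000000000000020 := rS 0x78cfe3e4b0cbd8f7223fd1a90f9ced3a9b66aacda9954acde6d32b7bc266fac16deaa164a54fa81039041211d84a41db4a5e75bee1 (k8 c5460 c5538 c20598 c21122 c5211 c6008 c19585 c5209 (k8 c15516 c21075 c12636 c8467 c12653 c21123 c5446 c5396 (k8 c5398 c20685 c873 c21100 c20626 c318 c19004 c10195 (k8 c20517 c20772 c5532 c5531 c5530 c5529 c5413 c5537 (k8 c5536 c5458 c20666 c17766 c20623 c10035 c20750 c20834 (k8 c504 c5657 c20697 c18006 c389 c19608 c5576 c5670 k0)))))) (by decide +kernel)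
def c21125 : PP 9 3 T 0x2000000000000000100040000000000000000000000000000000000000000000000000000000000000000000000000000000000000000000000000020 := rS 0x120fe243dbda33223551a7e3832902132dca5e71337bd41db4a5bc4e601cecec820908c76b007 (k8 c8467 c21100 c5341 c15516 c21075 c12636 c20666 c20598 (k8 c53 c9719 c5811 c21122 c5211 c6008 c20685 c20626 (k8 c12622 c20772 c19585 c873 c318 c12653 c21124 c8797 (k8 c20621 c20438 c20749 c20834 c390 c20697 c5657 c503 (k2 c504 c13198 (k1 c20750 k0)))))) (by decide +kernel)
def c21126 : PP 9 3 T 0x1000000000000000000040000000000000000040000000000000000000000000000000000000000000000000000000000000000000000000000000020 := rS 0x4a01d9d (k4 c20598 c6008 c5215 c19585 k0) (by decide +kernel)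
def c21127 : PP 9 3 T 0x200000000000000000080011100000845001510000000000000000000200000000000000020 := rS 0x12ecf7e875a6ad78cec7e17 (k8 c5433 c5318 c20666 c5811 c2887 c2936 c336 c2557 (k2 c2565 c19357 (k1 c3617 k0))) (by decide +kernel)
def c21128 : PP 9 3 T 0x12000000000000000000000000000000000200000000000000000000001040000005001400000000000000080000000000000040000020 := rS 0x1ec7ea5ccc1a0bb252a99 (k8 c5447 c5446 c5396 c5433 c716 c715 c1073 c1075 (k2 c19647 c18006 k0)) (by decide +kernel)
def c21129 : PP 9 3 T 0x100040000000000000000000000000200000000000000000000000800000000000000000100000000000000000000000000000020 := rS 0x4696c8aab54a75a2cd591a98e78471ed5e133f1c0def188cec971d0f83c16393e9cc031348b7be43b208242247ac26f6b4af0e7592954cec36fe3 (k8 c5464 c5420 c5236 c5447 c5446 c5396 c20598 c21125 (k8 c21126 c21103 c8100 c21100 c5562 c15516 c21075 c12636 (k8 c5332 c5188 c19019 c5589 c5547 c53 c9719 c1548 (k8 c5317 c5516 c5329 c5517 c5341 c12639 c20666 c9730 (k8 c5811 c1145 c8797 c20621 c318 c20748 c891 c17098 (k8 c2924 c2487 c2875 c2874 c20785 c20803 c1538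 c20804 (k4 c20805 c21127 c21128 c20438 (k1 c20834 k0)))))))) (by decide +kernel)
def c21130 : PP 9 3 T 0x12000100000000000000000000000000000200001000040000000000000040001501000000000000010000080000100000000040000020 := rS 0x7b1faaf33068e601 (k8 c53 c9719 c716 c715 c1078 c1075 c19647 c20846 k0) (by decide +kernel)
def c21131 : PP 9 3 T 0x100040000000000000000000000000200000000000000000000001800000000000000000000000000040000000000000000000020 := rS 0x1edefabc68973bbc40e57198c5264108ad6071567ac5666e36aa4d47a3cb8cbc7130ec36e7300b44123ba531d0113f978fc39d (k8 c20598 c21125 c5464 c5188 c5547 c21129 c940 c21126 (k8 c5332 c21075 c19548 c53 c9719 c5420 c5236 c5445 (k8 c751 c8466 c5549 c1750 c5669 c1687 c20804 c742 (k8 c5666 c2820 c20792 c20767 c5590 c5550 c5548 c15516 (k8 c12636 c1753 c5434 c5316 c5313 c8467 c5811 c890 (k4 c19497 c20778 c1246 c5450 (k2 c20846 c5688 k0))))))) (by decide +kernel)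
def c21132 : PP 9 3 T 0x100040000000000000000000000000200000000000000000000000800000000000000000000000000000000100000000000000020 := rS 0xff79b30b647ac07dee497a8e76b4a5ac0e2b016aac5666e36aa4d47a3cb8d8f13f9677c25e38a00c3b0dbf8ce601 (k8 c53 c9719 c5464 c5420 c5236 c5445 c21129 c751 (k8 c8466 c21125 c20598 c5188 c5547 c940 c5549 c1750 (k8 c5669 c1687 c20804 c742 c5666 c2820 c20792 c20766 (k8 c5592 c5590 c5550 c5548 c21126 c21103 c5317 c5519 (k8 c5334 c5333 c5517 c21100 c5562 c21130 c21131 c2500 (k2 c2507 c18038 k0)))))) (by decide +kernel)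
def c21133 : PP 9 3 T 0x100040000000000000000000000000200000000000000000000000800000000000000000000000000040000000000000000000020 := rS 0x2bdfefd4bb31a2f11da4c820908c0e2b014e2b562b3371b552ab351e8f2e363c4cbc7130ec36e7300fb6b14af97873a77f7b55a6441ff8cfe80 (k8 c21129 c194 c5464 c5318 c21132 c2936 c20766 c5582 (k8 c10702 c20598 c21125 c5188 c21126 c21100 c14787 c53 (k8 c9719 c5420 c5236 c5445 c751 c8466 c5547 c940 (k8 c5549 c1750 c5669 c1687 c20805 c20804 c742 c5666 (k8 c2820 c20792 c20758 c1686 c5592 c5590 c5550 c15516 (k8 c21075 c12636 c1753 c5332 c5811 c19548 c21131 c19497 (k4 c1240 c2507 c1246 c9179 k0))))))) (by decide +kernel)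
def c21134 : PP 9 3 T 0x100040000000000000000000000000200000000000000000000000800000000000000000000000000000000000000000000000020 := rS 0x1b233068b5ed222acd45e3d1c4f2c740185c713d86d7e5b7f19cc039d9dd6295e1 (k8 c21125 c21126 c21100 c20666 c20598 c53 c9719 c5464 (k8 c5420 c5188 c21103 c5236 c5547 c5549 c5445 c21129 (k8 c940 c1750 c751 c5669 c8466 c1687 c20805 c21132 (k4 c14787 c21133 c716 c715 (k2 c19296 c5487 k0))))) (by decide +kernel)
def c21135 : PP 9 3 T 0x44000000000000040000110000000000000000000000000000000000000000000000000000000000450000000000000001080000000000000000000000000 := rS 0x913823161b3 (k4 c5487 c5683 c5282 c2180 (k2 c10035 c10427 k0)) (by decide +kernel)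
def c21136 : PP 9 3 T 0x1000000000000020000100040000000000000000000000000200000000000000000000000000000000000000000000000000080000000000000000000020 := rS 0x10179b31a2cfef8d1fed522c0fddf37037da6e36bf8b6eb33688c5203ce92c4a4104c747a471dbdc92f5a57846639332b48758578680211 (k8 c15516 c53 c716 c17787 c21100 c5561 c1908 c715 (k8 c5317 c5316 c21125 c21126 c5519 c5334 c5333 c5332 (k8 c5562 c5560 c5341 c21075 c12636 c12632 c12639 c20598 (k8 c54 c9694 c9734 c5529 c5532 c17828 c21103 c5465 (k8 c5466 c5579 c5580 c17934 c17862 c21135 c5508 c5582 (k8 c5585 c5586 c14662 c17979 c1652 c1704 c5688 c2500 (k2 c2077 c18038 k0))))))) (by decide +kernel)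
def c21137 : PP 9 3 T 0x1000000000000000000100040000000000000000000000000200000000000000000000000040000000000000000000000000080000000000000000000020 := rS 0x6c36b9d333f43ea90d3d695e1 (k8 c21125 c21126 c5519 c716 c1906 c5517 c1075 c715 (k4 c20598 c21136 c5235 c19647 k0)) (by decide +kernel)
def c21138 : PP 9 3 T 0x82000000000000000000100000000000000000000080000000200000000000000000000000000000000000000000000000000000000000000000000040020 := rS 0x8a9181844871d23d601e0b7ac05e6ff (k8 c5544 c5540 c5502 c5519 c5516 c5329 c21100 c5562 (k4 c5341 c5561 c15516 c5550 (k2 c5589 c14787 (k1 c18116 k0)))) (by decide +kernel)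
def c21139 : PP 9 3 T 0x40000000000000010000100040000000000000000000000000200000000000000000000000000000000000000000000000000000000000000000000000020 := rS 0x6db601901e76b1e1 (k8 c21125 c21100 c20598 c54 c9701 c5235 c5241 c17758 k0) (by decide +kernel)
def c21140 : PP 9 3 T 0x2000000000000000000100040000000000000000000000000200000000000000000000000000000000000000000000000000080000000000000000000020 := rS 0xdbaccdbb4f984fde231480f3a4b12d2bc2ad21d615e1a008476666 (k8 c715 c5487 c15516 c53 c716 c17787 c21100 c5561 (k8 c1908 c21125 c21126 c12632 c12639 c20598 c54 c9694 (k8 c9734 c14774 c20525 c21138 c21139 c5529 c5532 c17828 (k1 c21135 k0)))) (by decide +kernel)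
def c21141 : PP 9 3 T 0x100040000000000000000000000000200000000000000000000000000000000000000000000000000080000000000000000000020 := rS 0x471f827eff1b4c6ad56f4062a9189b40eccd649e7e486556c18db506fb766a97eabd5a660d0043203cecec82090890c8f581d87c1e4905bd695e1 (k8 c21125 c21126 c5519 c5516 c5334 c5329 c5517 c5332 (k8 c21100 c5562 c5561 c15516 c21075 c12636 c20666 c20598 (k8 c54 c9701 c53 c716 c715 c1908 c17787 c1075 (k8 c1906 c5487 c21140 c17806 c21136 c21137 c5235 c5682 (k8 c20488 c21139 c93 c5396 c2075 c798 c799 c5547 (k8 c5589 c5590 c5592 c19019 c3003 c1704 c2135 c16245 (k4 c14662 c20525 c10702 c17964 (k1 c2924 k0)))))))) (by decide +kernel)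
def c21142 : PP 9 3 T 0x4000000000002000100000000000000000000000000000200000000000000000000000000000000000000000000000000040000000000008000040060 := rS 0x3b8d5a6d5221f91a81381bcfbef789cc033b20824231d1e95c7e61dbd603203 (k8 c54 c9701 c21100 c17758 c5445 c5318 c5313 c5560 (k8 c5341 c15516 c21075 c12636 c20666 c53 c9719 c5811 (k8 c19004 c19050 c2813 c5666 c751 c20438 c12613 c20834 (k4 c20749 c2936 c19606 c10131 (k1 c20850 k0))))) (by decide +kernel)
def c21143 : PP 9 3 T 0x84004000000000042000100040000000000000000000000000000000000000000000000080000000000000000000041008000000000000000000000000020 := rS 0x2cd56ff36b3cf4c7406c8fb1100e77c26189c555ab1 (k8 c20792 c20758 c5590 c5547 c5445 c21125 c20598 c53 (k8 c9730 c20757 c20105 c5670 c940 c5669 c20767 c742 (k4 c2943 c20861 c2820 c17868 k0))) (by decide +kernel)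
def c21144 : PP 9 3 T 0x4004000000000000000000000000000000000000000000000000000000000000000000140000000000000000000040000000044000010005000000000140 := rS 0x6bf7c6877 (k4 c10702 c20778 c5450 c1763 (k1 c5689 k0)) (by decide +kernel)
def c21145 : PP 9 3 T 0x1000000000000000010040000000000000000000000000000000000000054000000002000000000000000000004000000040000000100000000004400 := rS 0x86 (k2 c20906 c2074 k0) (by decide +kernel)
def c21146 : PP 9 3 T 0x5000000000000000110040000000000000000000000000000000000000050000180200000000000000000000040000000040000000100000000004400 := rS 0x7b799f19881 (k4 c20766 c3003 c5670 c2500 (k2 c1690 c21145 k0)) (by decide +kernel)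
def c21147 : PP 9 3 T 0x10000100040000000000000000000000000200000000000000000000000080000000000000000000000000000000000000000000000020 := rS 0x3ded33e25d021d7898e7657198c53713569b9aa7f09099263d1485c4a014fa85963f03f8e2bb00c80dbc3b208242247ac387e45b1cbd416f707d2bc39d (k8 c20598 c21125 c21126 c5329 c5333 c5516 c5519 c5317 (k8 c21141 c21139 c5591 c21100 c5562 c15516 c21075 c12636 (k8 c5332 c19019 c54 c9701 c5235 c5590 c16245 c8467 (k8 c5318 c21134 c5398 c5448 c53 c12632 c5433 c9694 (k8 c5560 c5444 c3579 c21142 c2918 c21146 c318 c20758 (k8 c5547 c8100 c5434 c5316 c5313 c20666 c9754 c5811 (k4 c19733 c940 c19357 c5670 (k2 c20757 c8156 (k1 c21144 k0))))))))) (by decide +kernel)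
def c21148 : PP 9 3 T 0x10000100040000000000000000000000000200000000000000000000000000000000000000000000000000000000000000000000000020 := rS 0x7b918d23b17d007d639e4fe6e0978c4cde8aedd429f49fcb60f114864079d128048209088f48f58038ee95e11f85d965b (k8 c21141 c21134 c5433 c5318 c21125 c21126 c5332 c8467 (k8 c21100 c5562 c5560 c15516 c21075 c12636 c53 c12632 (k8 c20598 c54 c9701 c9694 c5811 c5235 c21139 c5444 (k8 c5448 c5398 c17758 c5590 c19019 c3579 c16245 c21142 (k8 c318 c2918 c2388 c21147 c2830 c5670 c1746 c19549 (k4 c939 c938 c21143 c5505 k0)))))) (by decide +kernel)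
def c21149 : PP 9 3 T 0x9001000000000000000000000000000000000000080000000200100000000000000200440000000000000000000000000000000004051000000000000000 := rS 0x10179b31a2cfef8d1aa451dbd46639 (k8 c5317 c5316 c5519 c5332 c5582 c5585 c14662 c17979 (k4 c1652 c1704 c5688 c2500 (k2 c2077 c17894 k0))) (by decide +kernel)
def c21150 : PP 9 3 T 0x44000000000000000000000000000000000000000080000000000000000004000000000042000000000000000000000000000040000000100000000001000 := rS 0x10243405e7ed07bd5ee0b (k8 c5516 c5333 c5519 c5329 c20874 c2500 c2077 c20774 (k2 c5694 c10690 k0)) (by decide +kernel)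
def c21151 : PP 9 3 T 0x1001000000000000000000000000000000000000000000000200100000000000000000545000000000000000000000000000000000151400000000000000 := rS 0x1a3df1a0cc7e31 (k4 c5434 c5318 c5316 c3588 (k2 c17979 c1704 (k1 c5688 k0))) (by decide +kernel)
def c21152 : PP 9 3 T 0x80000000000000000080000000000000000000000000000000000000000040004000000000000001000 := rS 0x1e68707bdc16f5 (k4 c5519 c5516 c5333 c5329 (k2 c10690 c2627 (k1 c20774 k0))) (by decide +kernel)
def c21153 : PP 9 3 T 0x1001000000000000000000000000000000000000000000000200100000000000000200541000000000000000000000000000000000151400000000000000 := rS 0xcf (k2 c1652 c21151 k0) (by decide +kernel)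
def c21154 : PP 9 3 T 0x1000000000001000000040000000000000000000000000000000000000000000000008000000000001100000000000000000000000100000100400020 := rS 0x26d2678309ed8e2331864079d048ec3f4a (k8 c21126 c5517 c5332 c21075 c20598 c54 c9701 c9754 (k8 c9734 c20739 c20767 c10425 c5669 c19535 c2384 c6193 k0)) (by decide +kernel)
def c21155 : PP 9 3 T 0x45000000000000020000100000000000000000000080000000000000000008000000000000000000000000000000000000000000000000000000000000020 := rS 0x1688e13c4d2223398a4079d25894220123d603ef724c5442b3 (k8 c5532 c5528 c5414 c5334 c5333 c5517 c21100 c5562 (k8 c53 c15516 c12632 c12639 c20598 c54 c9694 c9719 (k4 c9734 c20750 c20798 c20720 (k2 c5675 c3584 (k1 c2402 k0))))) (by decide +kernel)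
def c21156 : PP 9 3 T 0x100040000000000000000000000000200000000000000000000000000000000000000000000000000000000000000000000000020 := rS 0x1aa4580335fecf81fbfe6e0f6b7da6e36b837c5b14c8853bb42d85c724b2082422438e8f48f581d83dee4905bd695e1 (k8 c21125 c21126 c5519 c5516 c5334 c5333 c5329 c5332 (k8 c21100 c5562 c5560 c5341 c5561 c15516 c21075 c12636 (k8 c12639 c5317 c5433 c21141 c21148 c5412 c5528 c5530 (k8 c9578 c21103 c315 c5465 c5466 c5579 c5580 c20874 (k8 c17934 c17862 c21149 c21152 c21154 c21155 c21150 c5694 (k2 c9612 c3073 (k1 c21153 k0))))))) (by decide +kernel)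
def c21157 : PP 9 3 T 0x20000100040000000000000000000000000000000000020000000000000000000000000000000000000000040000000000000000000020 := rS 0x1b13874646ed91d8e2ad467bde2739d90e3b583d81c6a5664ec08a4971f8b3bb71480c4a110088c96af09fce5303a578562ab (k8 c5413 c2143 c21125 c21126 c212 c21156 c5592 c20713 (k8 c20642 c12639 c9734 c53 c15516 c12632 c54 c9694 (k8 c17828 c20598 c5188 c5466 c5334 c3066 c5209 c5396 (k8 c10195 c20773 c8467 c17741 c21100 c5341 c5561 c20666 (k8 c9719 c5811 c19004 c20834 c2031 c20438 c8168 c5683 (k4 c5666 c9300 c5486 c2813 (k2 c2043 c3582 k0))))))) (by decide +kernel)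
def c21158 : PP 9 3 T 0x20000100040000000000000000000000000000000000020000000000000000000000000000000000000000000000000000000000000020 := rS 0x6a2b460970d16962af5598c3203218f6b14a2b6c2061394b2daed3f17cfc39d (k8 c20598 c21125 c5592 c5188 c5579 c5465 c5464 c21156 (k8 c20713 c212 c5209 c10195 c21126 c21100 c5560 c5561 (k8 c54 c9701 c9754 c5413 c20642 c2143 c21157 c716 (k4 c8194 c769 c1908 c9617 (k1 c1475 k0))))) (by decide +kernel)
def c21159 : PP 9 3 T 0x100040000000000000000000000000000000000020000000000000000000000000000000000000000080000000000000000000020 := rS 0x1a8af1825c34013186406111ed60adb094b2daed3f178562addb6d7e79d (k8 c20598 c5592 c21158 c5241 c5573 c5421 c21125 c5188 (k8 c5579 c5465 c5464 c21156 c5209 c10195 c21100 c5560 (k8 c15516 c54 c9701 c9754 c53 c716 c8194 c769 (k2 c17787 c9617 (k1 c1475 k0))))) (by decide +kernel)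
def c21160 : PP 9 3 T 0x100040000000000000000000000000000000000020000000000000000000000000000000000000000000000000000000000000020 := rS 0x6731864793b449185b66b4dc613f1117dbf39d845ee49a5784f607ce8d4ad29 (k8 c21156 c10195 c20773 c20598 c8467 c17741 c21125 c21126 (k8 c5334 c5333 c15516 c20666 c5592 c5502 c3066 c5188 (k8 c20713 c5466 c5579 c2077 c21159 c20834 c2142 c8168 (k4 c2602 c9300 c5669 c12046 (k1 c20739 k0))))) (by decide +kernel)
def c21161 : PP 9 3 T 0x45001000000000000000110040000000000000200000000000000000000050000000400010000000000000001000004000000000001000440000000001000 := rS 0x638e11ce189b7dfde2 (k8 c5188 c5694 c5580 c20798 c3013 c5675 c18015 c2486 (k1 c20378 k0)) (by decide +kernel)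
def c21162 : PP 9 3 T 0x10040000000000000000080000000000000000000000000540000000000000000000800004000000000004015000000000001000 := rS 0x18e38 (k2 c17954 c2486 (k1 c20378 k0)) (by decide +kernel)
def c21163 : PP 9 3 T 0x1000000000000000110040000000000000200080000000000000000010000000400040000000000000001000004000000040004110008000000041000 := rS 0x86663cd9ede4738627f21fb5da3df8e8f476491bfb41ef57b82e07ef (k8 c19004 c21152 c5516 c5333 c5519 c5329 c20874 c5518 (k8 c5334 c5332 c5560 c5341 c5492 c2129 c2185 c14449 (k8 c21161 c5547 c5591 c17964 c21162 c2565 c388 c12046 (k2 c20774 c2074 k0)))) (by decide +kernel)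
def c21164 : PP 9 3 T 0x10000100040000000000000000000000000000001000000000000580040000001010000040800040410000040000000000000100000020 := rS 0x6a2c59aaf373c83a6c439adaec63e1e7c6f188cec4a0f7b82deb4af09ef3bb01a9581acb398050329039041211 (k8 c15516 c21075 c12636 c8467 c21156 c12653 c53 c9719 (k8 c8797 c315 c10195 c20773 c5209 c20598 c17741 c21125 (k8 c21126 c5519 c5516 c5333 c5329 c12632 c20666 c9730 (k8 c5811 c5580 c2388 c5670 c5669 c20802 c17981 c798 (k8 c5665 c20722 c20774 c2433 c10145 c2501 c20792 c9617 (k1 c3003 k0)))))) (by decide +kernel)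
def c21165 : PP 9 3 T 0x100040000000000000000000000000000000000000000000000000000000000000000000140000000000000008000000000040000 := rS 0xfbe3 (k2 c5576 c2823 (k1 c5670 k0)) (by decide +kernel)
def c21166 : PP 9 3 T 0x5000000000000000000000000000000000000000000000000000000800050000000000000000000000000000000000000000000000000000000000000000 := rS 0x1fff3 (k2 c5547 c20798 (k1 c5694 k0)) (by decide +kernel)
def c21167 : PP 9 3 T 0x10000100040000000000000000000000000000000000000000000500040000000010000040800040410000040000004000000100000020 := rS 0x3789641048447b58a5784f72903e741ab539c562201 (k8 c53 c9730 c2845 c9719 c2402 c315 c20598 c8467 (k8 c21156 c17741 c21125 c21126 c21100 c5560 c15516 c21075 (k4 c12636 c12639 c21162 c21164 k0))) (by decide +kernel)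
def c21168 : PP 9 3 T 0x100040000000000000000000000000000000000000000000400040000000000000000000000000000040000100000000100040020 := rS 0x3836ab5470fcee97199fce2ad48a31e27300cee3a493de7502072082422352b4a627efac40c97ed07bd5ee0ba57841b01 (k8 c21160 c315 c21125 c21126 c5516 c5333 c5519 c5329 (k8 c20874 c12639 c21152 c21100 c19004 c21166 c21156 c10195 (k8 c20773 c15516 c21075 c12636 c8467 c12653 c20598 c17741 (k8 c5334 c5341 c20666 c53 c9719 c5811 c20834 c10035 (k8 c2031 c20438 c20436 c21163 c20460 c9300 c21165 c17964 (k4 c2402 c20540 c21167 c2847 k0)))))) (by decide +kernel)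
def c21169 : PP 9 3 T 0x100040000000000000000000000000000000000000000000400040000000000000000800040000000040000000000000100040020 := rS 0x36a713e78cee976f0cc7f3b258f6b049a57850241048446a5606ab488f15a9cc02e13dca40f9d (k8 c20598 c8467 c21156 c17741 c2847 c53 c9719 c2402 (k8 c5811 c21168 c2887 c315 c10195 c20773 c15516 c21075 (k8 c12636 c12653 c21125 c21126 c5334 c21100 c5560 c12639 (k8 c20666 c21165 c389 c21162 c20460 c9300 c5580 c5670 (k2 c4858 c20540 (k1 c21167 k0)))))) (by decide +kernel)
def c21170 : PP 9 3 T 0x4000000000000000000000000000000000000000000000050000000015000000000000010000000000000000000000554000104000020 := rS 0xf318871e33b (k4 c20666 c5811 c5649 c9332 (k2 c333 c3587 k0)) (by decide +kernel)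
def c21171 : PP 9 3 T 0x100040000000000000000000000000000000000000000000400040000000000000000800000000000040000000000000100040020 := rS 0x152fd0d6cfbcab4b8e53ad1669b59e333c1bdbcd53f3c62201cecec0e3b0f8dc6a5650b2536954cec253ed07bd5ee0ba57841a44 (k8 c21168 c315 c21125 c21126 c5516 c5333 c5519 c5329 (k8 c20874 c21156 c5209 c5447 c5446 c5397 c5396 c5398 (k8 c10195 c20773 c5518 c5517 c5332 c8467 c20666 c20598 (k8 c53 c9730 c5811 c21169 c20749 c2923 c2919 c2924 (k8 c390 c2565 c2433 c20785 c20803 c1538 c2381 c20460 (k4 c20861 c5688 c17870 c21170 (k2 c1075 c1906 (k1 c9860 k0)))))))) (by decide +kernel)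
def c21172 : PP 9 3 T 0x5000000000000000000000000000000000000000000000000000000000050000000000000000000000000002000000000000000000000000000000000000 := rS 0x1fff3 (k2 c5589 c20750 (k1 c5694 k0)) (by decide +kernel)
def c21173 : PP 9 3 T 0x100040000000000000000000000000000000000000000000000040000000000000000000000000000040000000000000100040020 := rS 0x71a392313f7d6092819481c820908c07da0f7abdc170306d2bc24b (k8 c12639 c21125 c21126 c315 c21152 c5516 c5333 c5519 (k8 c5329 c20874 c21160 c15516 c21075 c12636 c8467 c21156 (k8 c12653 c5334 c21100 c19004 c21166 c21172 c17964 c2404 (k1 c21171 k0)))) (by decide +kernel)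
def c21174 : PP 9 3 T 0x80001000000000002000000040000000000000000000000000000000000000000000040000400000000000000800004000400000000000000000000000020 := rS 0x6c3c6d58f1100e754299 (k8 c5447 c5398 c20598 c53 c9730 c2486 c17766 c5669 (k2 c5665 c2428 k0)) (by decide +kernel)
def c21175 : PP 9 3 T 0x800000000000000000000000000000000000080000000000000000000000000000400480000110014010000000000000000000000000008100001001 := rS 0x710eae3bb55ee0b (k8 c5516 c5333 c5454 c5493 c18008 c798 c2987 c20722 k0) (by decide +kernel)
def c21176 : PP 9 3 T 0x50000000002000000000000000000004000000040000000010000000005400 := rS 0x10ef3 (k2 c2501 c2074 (k1 c20774 k0)) (by decide +kernel)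
def c21177 : PP 9 3 T 0x1001000000000002000000000000000000000000080000000100000000000000000080041400000110000000000020000000000000000010008104000020 := rS 0x186cc66d5efb199e0178cedee9f50a541ad7 (k8 c20802 c315 c5446 c5398 c5448 c5333 c20666 c5811 (k8 c53 c2565 c2830 c21175 c3003 c12046 c17820 c5653 (k1 c9332 k0))) (by decide +kernel)
def c21178 : PP 9 3 T 0x100040000000000000000000000000000000000000000000000040000000000000000000000000000040000000000000100000020 := rS 0x1ef6aa5c67df67b193879599b11fb56f86cd6d7f1b85c6b558ab62acb3e0fbe47f37098e21201bc4e7119d89402494090412114fa852a99d87b59a0d1a958f72903e75ea0b7b83e95e1 (k8 c21125 c21126 c5329 c5333 c5516 c5519 c20598 c8467 (k8 c21156 c17741 c10195 c20773 c315 c21176 c20874 c5209 (k8 c5447 c5446 c5398 c5448 c15516 c21075 c12636 c12653 (k8 c5334 c53 c12632 c20666 c9730 c9719 c5811 c54 (k8 c21173 c2869 c317 c318 c2918 c20713 c371 c372 (k8 c8797 c3046 c20758 c20792 c5548 c5549 c5591 c5576 (k8 c20802 c17981 c20512 c21177 c17766 c21174 c5665 c8280 (k8 c2428 c20437 c5669 c17717 c21175 c12046 c20460 c2997 (k2 c8156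 c5689 k0))))))))) (by decide +kernel)
def c21179 : PP 9 3 T 0x200000000000000000000000000000000080000000000000000000100000000008000000000000000000000 := rS 0x247d (k2 c20757 c20517 (k1 c372 k0)) (by decide +kernel)
def c21180 : PP 9 3 T 0x100040000000000000000000000000000000000000000000000000000000000000000000000000000080000000000000000080020 := rS 0x1aeb1658f8fe71019cc4a01d80d5a681039041211331d8ad29568688758 (k8 c21100 c5561 c716 c1908 c21156 c10195 c768 c715 (k8 c15516 c21075 c12636 c8467 c12653 c21179 c20773 c5209 (k8 c53 c12632 c9719 c54 c2869 c2918 c371 c8797 (k2 c2180 c2188 (k1 c20512 k0))))) (by decide +kernel)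
def c21181 : PP 9 3 T 0x100040000000000000000000000000000000000000000000000000000000000000000000000010000000000000000000100000020 := rS 0xf92d44eb3f1ed9adef58b2c467314e744a470fd2bc29f50b252bb04b86406635690d5e1a00eccccd518169a6810390412112b4a47b58 (k8 c21100 c5560 c21156 c10195 c15516 c21075 c12636 c8467 (k8 c12653 c21179 c21178 c769 c1475 c715 c5487 c53 (k8 c716 c17787 c5561 c1908 c9754 c54 c9701 c8194 (k8 c5209 c5446 c5396 c5398 c5448 c21125 c21126 c5517 (k8 c5562 c12632 c20598 c9694 c9719 c9734 c8797 c2180 (k8 c8156 c3618 c5683 c5465 c5574 c5570 c5422 c5188 (k1 c17998 k0))))))) (by decide +kernel)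
def c21182 : PP 9 3 T 0x40000000000000000000000000100000000001000000000005000000001000040800000020000000000000000000000000020 := rS 0x2ada26d3531e22013d81f3ac9379f53fb0 (k8 c5209 c5448 c2870 c65 c5396 c20598 c8467 c17741 (k8 c53 c9730 c2487 c2875 c2433 c20815 c20805 c9860 k0)) (by decide +kernel)
def c21183 : PP 9 3 T 0x1400000000000000000040000000000000000000000000000000000000000000000005140000001000550000004000000000000000000000000000020 := rS 0x55a77d87868c44039d (k8 c20598 c53 c9730 c20815 c5669 c5688 c1538 c5500 (k1 c18006 k0)) (by decide +kernel)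
def c21184 : PP 9 3 T 0x80000000000000000000000000000000000000200080000000000000000000000000000000000000000000000400000000000000000000000000000041000 := rS 0x918983c920b (k4 c5516 c5334 c5329 c5547 (k2 c5589 c17964 k0)) (by decide +kernel)
def c21185 : PP 9 3 T 0x100040000000000000000000000000000000000000000000000000000000000000000000000000000000000000000000100000020 := rS 0xf7accdacbda78be68fdb9c026cd67aa5faaf568c0cc970d1681a0131864079d2187c6ef5a578760d34081c82090895a5358 (k8 c21100 c21156 c10195 c15516 c21075 c12636 c8467 c12653 (k8 c21179 c5209 c21125 c21126 c5519 c5518 c5517 c5561 (k8 c20598 c54 c9701 c9754 c53 c315 c21178 c716 (k8 c8194 c715 c769 c1908 c17787 c1075 c1906 c1473 (k8 c1916 c21180 c21181 c5571 c21182 c21184 c5188 c5241 (k4 c5464 c5529 c5532 c8156 (k1 c21135 k0))))))) (by decide +kernel)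
def c21186 : PP 9 3 T 0x100040000000000000000000000000000000000000000000000000000000000000040000000020000080000000000000000000020 := rS 0x1f247edeb1b51004dfa1f06b1bbe7666b3c60561baa434f5a52652a9b64ec0f72903e77c209 (k8 c21075 c21125 c20598 c8467 c21156 c17741 c5209 c5396 (k8 c5397 c5446 c5447 c21126 c5519 c716 c1906 c5518 (k8 c10195 c769 c1473 c1916 c768 c5493 c21183 c2481 (k8 c5517 c1075 c21180 c21185 c5528 c21100 c5571 c21182 (k2 c5241 c21184 k0))))) (by decide +kernel)
def c21187 : PP 9 3 T 0x100040000000000000000000000000000000000000000000000000000000000000040000000000000080000000000000000000020 := rS 0x225f259f8f6cd6f7a4562cb389b0d60d6377d9acf6aecd52af5684cec3033068e7110092c863d0782c6ef5a5784f79d64a6d2a99d834d020720824225694d636a20 (k8 c21185 c5528 c21100 c21156 c10195 c15516 c21075 c12636 (k8 c8467 c12653 c21179 c5209 c5447 c5446 c5397 c5396 (k8 c20598 c17741 c21125 c21126 c5519 c5518 c5516 c5329 (k8 c5560 c5561 c12639 c53 c9730 c9719 c716 c715 (k8 c769 c768 c21180 c1908 c17787 c1906 c5487 c1475 (k8 c1473 c1916 c5493 c21183 c2481 c2482 c5665 c21186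 (k8 c8797 c2180 c746 c8156 c9617 c5683 c5465 c5574 (k2 c5188 c18081 (k1 c5547 k0))))))))) (by decide +kernel)
def c21188 : PP 9 3 T 0x100040000000000000000000000000000000000000000000000001400000001000000000000000000040000000000000000041020 := rS 0x3beb156b5dabe3579b8f8de632c91c7948c4cd903f69ae22012583dee4905bd695e13de753ea14aa67610169a040e4104844ad29da883df58 (k8 c21100 c19004 c21185 c5528 c21156 c10195 c15516 c21075 (k8 c12636 c8467 c12653 c21179 c21160 c5209 c5447 c5446 (k8 c5398 c5448 c20598 c17741 c21125 c21126 c5519 c5516 (k8 c5334 c5333 c5329 c12639 c53 c9730 c2371 c20874 (k8 c21152 c5665 c21166 c21172 c2428 c17964 c18081 c5669 (k8 c2486 c2487 c2433 c2993 c5580 c3003 c20802 c20758 (k2 c20792 c18008 (k1 c5689 k0)))))))) (by decide +kernel)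
def c21189 : PP 9 3 T 0x100040000000000000000000000000000000000000000000000005000000001000040000000010000000000000000000000040020 := rS 0x27226d91a7e6f38523150e40fdafc71b45669d559e070c735033def131cee3b580fd2bc27bce8d4ac9f50b2536954cec202b51012cb6cb398050329039041211 (k8 c15516 c21075 c12636 c8467 c21156 c12653 c53 c9719 (k8 c8797 c21187 c12639 c21185 c2608 c21160 c5209 c5447 (k8 c5446 c5397 c5396 c5398 c5448 c10195 c20773 c20598 (k8 c17741 c21125 c21126 c5517 c21100 c5341 c20666 c9754 (k8 c5811 c19004 c21188 c316 c2481 c369 c370 c20805 (k8 c1136 c2378 c20815 c2617 c20870 c18006 c4748 c20237 (k8 c1242 c21172 c1542 c3620 c2388 c20436 c17735 c20834 (k2 c5570 c335 k0)))))))) (by decide +kernel)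
def c21190 : PP 9 3 T 0x100040000000000000000000000000000000000000000000000005000000001000040000000010000000000000000000000000020 := rS 0xaa576cdaa337efb4d80d35b5dc2e358ab62a7c1f7c8dc260932ce71100e741ef72482deb4af0ec1a6810390412112b4a6b1b55a880965b (k8 c21187 c12639 c21185 c2608 c5528 c21100 c21156 c10195 (k8 c15516 c21075 c12636 c8467 c12653 c21179 c5209 c21125 (k8 c21126 c5519 c5516 c5334 c5333 c5329 c20598 c53 (k8 c9730 c9719 c8797 c21189 c317 c318 c20713 c371 (k8 c372 c3046 c20758 c20792 c5549 c5591 c20802 c17981 (k8 c316 c5665 c20874 c20782 c12046 c2997 c17820 c9617 (k2 c5682 c1286 k0))))))) (by decide +kernel)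
def c21191 : PP 9 3 T 0x100040000000000000000000000000000000000000000000000005000000001000040000000000000000000000000000000000020 := rS 0x1a29d55b1cd40c47bf43a44f923426afdb9c006f19d824231dac07e95e13d81f3ac94da5533b094ed4405b (k8 c21187 c21185 c5528 c21156 c5209 c5447 c5446 c5397 (k8 c5396 c20598 c8467 c17741 c21125 c21126 c5517 c21100 (k8 c5341 c15516 c21075 c20666 c5811 c54 c21190 c5571 (k8 c20748 c2869 c20438 c5241 c20834 c336 c20237 c21182 (k4 c21184 c316 c2481 c20805 (k2 c1136 c20815 (k1 c3617 k0))))))) (by decide +kernel)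
def c21192 : PP 9 3 T 0x80000000000000000000000000000000000000002000000000000000000040000000000000000000020 := rS 0x35e68735bc6220107bdc16f5 (k8 c5519 c5516 c5333 c5329 c53 c9730 c5811 c20804 (k4 c2023 c2447 c316 c20774 k0)) (by decide +kernel)
def c21193 : PP 9 3 T 0x100000000000000000000000000000000000000000000000000000000000000000000000000020000048000000008000000000020 := rS 0x454684c06f19d8463b58 (k8 c21100 c5341 c15516 c20666 c5811 c54 c2869 c20438 (k2 c20457 c20834 k0)) (by decide +kernel)
def c21194 : PP 9 3 T 0x100040000000000000000000000000000000000000000000000008000000000000000000000000000040000000000000000000020 := rS 0x45db6c9fff38a2cd967171c0c700c352acda1b3c0c9c2df4eb1fdaf139c44033b248dcf79d1aa7d42c94da67610169a040e4104844ad29ac6d56a2025aa695e1 (k8 c21125 c21126 c21192 c12639 c21185 c2608 c5528 c21100 (k8 c21156 c10195 c15516 c21075 c12636 c8467 c12653 c21179 (k8 c21160 c5209 c5447 c5397 c5396 c5398 c5448 c20773 (k8 c20598 c17741 c5518 c5334 c20666 c53 c9730 c9719 (k8 c5811 c5543 c20739 c17717 c2565 c1653 c20518 c5669 (k8 c2043 c2428 c20861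 c5665 c2371 c369 c4750 c2617 (k8 c21193 c8797 c2378 c3620 c5590 c3011 c9222 c5241 (k2 c9612 c17812 k0)))))))) (by decide +kernel)
def c21195 : PP 9 3 T 0x100040000000000000000000000000000000000000000000000000000000000000040000000000000000000000000000000000020 := rS 0x18796633d525b07bdc16f5a5784f607ce8d4ad29 (k8 c21156 c10195 c20773 c20598 c8467 c17741 c21125 c21126 (k8 c5519 c5516 c5333 c5329 c21187 c21192 c21194 c21191 (k2 c20785 c21176 (k1 c370 k0)))) (by decide +kernel)
def c21196 : PP 9 3 T 0x4000400000000000000110000000000000000200000000000000000400014054000000440000000000000000000000000000048001100000000000010000 := rS 0x482311ff309c087e47 (k8 c5562 c14449 c18038 c371 c5550 c20799 c20834 c5675 (k1 c10035 k0)) (by decide +kernel)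
def c21197 : PP 9 3 T 0x100040000000000000000000000000000000000000000000000000000000000000000000000000000000000000000000000000020 := rS 0xe18a8f84c4471acd3a38899a9be0c7ffb197ef7eaace2f36bb3d521c1906cb7b3efa596bb51034e02994da853e3540ec0f65694bd416497b83e95e103bc4c67300864079d9d92c82090890e3b58 (k8 c21100 c5341 c5561 c15516 c21075 c12636 c12639 c20666 (k8 c20598 c54 c9701 c53 c9719 c9754 c5811 c8467 (k8 c21125 c21126 c5329 c5333 c5334 c5516 c5519 c21156 (k8 c10195 c17741 c5209 c12653 c20773 c5448 c5398 c5397 (k8 c5447 c21160 c21179 c21185 c5528 c2608 c21195 c5452 (k8 c5404 c8194 c1074 c20460 c5649 c21192 c21194 c2185 (k8 c388 c21193 c2121 c2550 c19710 c8797 c5682 c5544 (k8 c20874 c12713 c316 c2598 c369 c1136 c2378 c2617 (k4 c21196 c335 c389 c3046 (k2 c3056 c3620 k0)))))))))) (by decide +kernel)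
def c21198 : PP 9 3 T 0x400000000006000000000000000000000000000000000000100000000000000000004100001005005100000000000000000001200008000200000020 := rS 0x1bcff8aacd97ec132b962e370bf438d36a0f9e61b6b8d5e33bdaa8537ef (k8 c5582 c5397 c5398 c5528 c20666 c5811 c120 c2185 (k8 c2043 c388 c389 c390 c2937 c5649 c2550 c3056 (k8 c1662 c2177 c336 c335 c5682 c1661 c2993 c3046 (k2 c5544 c3620 (k1 c12713 k0))))) (by decide +kernel)
def c21199 : PP 9 3 T 0x4000400000000000000000080000000000000200000000000000000000000000000000440000000000000000000000000000000000000020000000040000 := rS 0x1007d (k2 c5442 c20851 (k1 c20909 k0)) (by decide +kernel)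
def c21200 : PP 9 3 T 0x2000000004000000000000000000000000000800000000000001000000000000000001100000008000800000000000000000200002000 := rS 0x39d72e953add7788bdee2ee2d07a8d4a9b (k8 c5397 c5399 c5449 c151 c9711 c9710 c19418 c913 (k8 c582 c2662 c2380 c5428 c1825 c1142 c3255 c3621 k0)) (by decide +kernel)
def c21201 : PP 9 3 T 0x4000000000090000100000200000000000000000000000000400000000000451000000004000000000000000000000000000051000540000000000020 := rS 0x7dddbe5fa30373adb3145cfa5ce92ca65523d631f92 (k8 c21197 c5443 c21100 c5562 c5343 c5563 c12639 c20598 (k8 c5610 c3255 c2409 c6187 c5602 c17708 c3591 c5242 (k4 c5618 c3480 c17833 c5693 k0))) (by decide +kernel)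
def c21202 : PP 9 3 T 0x400004000000000002000100001000000000000000000000000050000014080000544000000000015000001100100000000000000000000000000000000000 := rS 0x87466febad2791469b (k8 c5397 c5449 c5693 c5677 c17955 c5389 c2641 c20753 (k1 c2255 k0)) (by decide +kernel)
def c21203 : PP 9 3 T 0x800001000000000082000000000000000000000000000000000000000000000000015000000000000000000000000000000000000415400000000000000000 := rS 0xf2fd546a1 (k4 c5398 c5449 c17833 c7591 (k1 c5692 k0)) (by decide +kernel)
def c21204 : PP 9 3 T 0x400004000000000002000100001000000000000000000000000040000000080000544000080000015000001100100200000000000000000000000000000000 := rS 0x4364b0b (k4 c2944 c1009 c2090 c21202 k0) (by decide +kernel)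
def c21205 : PP 9 3 T 0x5000000000082000100001000000000000000000000000040002000080000455000080000015000001100100200000000000415400000000000000000 := rS 0xbb53c5dd9f751a9536cb (k8 c5420 c5397 c5399 c5449 c21203 c21204 c3454 c1786 (k2 c1392 c3621 k0)) (by decide +kernel)
def c21206 : PP 9 3 T 0x1000400000000000000000000010000404400000008800080000000000000000100000000000000000200000000000000000 := rS 0x10f93c362cd9 (k4 c3434 c1782 c2089 c3451 (k2 c5007 c20753 k0)) (by decide +kernel)
def c21207 : PP 9 3 T 0x40000000000000000000000001000480000000000000000000040040004480000000000000000000000000000100000000000000000000000000000000000 := rS 0x45fef0c87c67eb25 (k8 c920 c5631 c3502 c2255 c20753 c5640 c3456 c5697 k0) (by decide +kernel)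
def c21208 : PP 9 3 T 0x40011000000000000000000000000090000000000000000000040040000480000004000102000000000000000504000000000000000000000000000000000 := rS 0x36214e8bfb971bf5 (k8 c5631 c3421 c3346 c917 c5692 c21207 c2675 c3343 k0) (by decide +kernel)
def c21209 : PP 9 3 T 0x4015400000000082000000000000000000000000000000000000000008100000014800000000000000000000000000000000000415400000000000000000 := rS 0x72fda33f1 (k4 c5629 c3403 c5206 c2625 (k1 c21203 k0)) (by decide +kernel)
def c21210 : PP 9 3 T 0x10400000000000000000000000800000000000000000000000000000000000000014000000000000000000000000400000000000000000000000000000 := rS 0x1b3f1 (k2 c5511 c2093 (k1 c5690 k0)) (by decide +kernel)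
def c21211 : PP 9 3 T 0x1000000000000000000002000000000000000000000000000000400000000080800000000000000000002000001000000000000000000000000000000 := rS 0x1f572ba62d19c4795cedf (k8 c207 c3437 c5623 c3045 c3265 c3044 c2412 c2625 (k2 c5635 c5692 k0)) (by decide +kernel)
def c21212 : PP 9 3 T 0x400000000000000000001000000000000000000000000050000054000000080010000000000000000000100000400000000000000000000000000000 := rS 0x5f9b7e5 (k4 c5623 c3384 c20753 c21210 k0) (by decide +kernel)
def c21213 : PP 9 3 T 0x5400000000082000000000000010000000000000000000000000400100000080810484000000000000002000041400000000415600000000000000000 := rS 0xe86d42b1b2773c3e1b25f2fbd1adf (k8 c207 c2083 c5582 c5623 c2958 c3361 c4912 c3437 (k4 c3356 c21211 c21212 c2945 (k2 c21209 c1670 k0))) (by decide +kernel)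
def c21214 : PP 9 3 T 0x1000000000082000100001000800000000000000000000050000000000000001800000000000000000000004008000000000415400000000000000000 := rS 0x1cced74fdaf7a5 (k4 c5389 c917 c5677 c1825 (k2 c5639 c21203 (k1 c1781 k0))) (by decide +kernel)
def c21215 : PP 9 3 T 0x4014400000000000000000000000000000000000000000000000000080000000000000000000000000000000000000000000000000000000000000000000 := rS 0x3e3f7 (k2 c5598 c5515 (k1 c5206 k0)) (by decide +kernel)
def c21216 : PP 9 3 T 0x15000000000082000100001000000000000000000000000050000444400000001800080004000000000000104008000000001455600560000000000000 := rS 0xa2e960eb7e8eca3b6fef0c73dfdabf3 (k8 c5549 c141 c21214 c21206 c20753 c5640 c3497 c3490 (k4 c2090 c5207 c1625 c443 (k2 c4317 c5552 (k1 c3591 k0)))) (by decide +kernel)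
def c21217 : PP 9 3 T 0x2000000000400000000000000000000000020002000000000001000000400000000001100000208000800000000000000000000000000 := rS 0x176a75bb9d72e98bbb2efa8bda8d4a9b (k8 c5397 c5399 c5449 c3932 c1008 c3870 c1009 c3079 (k4 c1825 c1142 c1727 c2380 (k2 c1786 c1392 (k1 c3621 k0)))) (by decide +kernel)
def c21218 : PP 9 3 T 0x4000000000090000100000200000000000000000000000000400000000000441000000004000000000000000000000000000051000540000000000020 := rS 0x3a4f392 (k4 c21197 c5441 c2412 c21201 k0) (by decide +kernel)
def c21219 : PP 9 3 T 0x15400000000082000100001000000000000000000000000010000404400000001800080004000000000002104008000000001455600560000000000000 := rS 0x7d2f5f79343fdff3 (k8 c5549 c5582 c21215 c21216 c5637 c911 c5207 c5631 k0) (by decide +kernel)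
def c21220 : PP 9 3 T 0x20000000000002000000000010000000000000000000000080002400000000000800000000004000001102000000000000000000000000000000000000 := rS 0x2e576e78c45d469b (k8 c5397 c5449 c3451 c912 c1782 c1392 c3503 c17955 k0) (by decide +kernel)
def c21221 : PP 9 3 T 0x1000000000002000100000000000000000000000000000000000000400000040800000004000000000180004200000040000000200120000000002020 := rS 0x166917c7730ed25fe4f0dfbb67c98d5be264b1f3d14caa47c7924764f1bd281e4d4e97f166ada88146a165e17c63d03985df14481e6264bce9b91a77399c563b63e95cff0b6904d5e1d49894033bd9ab5e2d72082423efefe4ab0e5 (k8 c2626 c21100 c21197 c5452 c5582 c15516 c21075 c12636 (k8 c1763 c5811 c2887 c5404 c20666 c53 c12632 c5444 (k8 c331 c10145 c20525 c21199 c2944 c5358 c5353 c5442 (k8 c20492 c5421 c5571 c9719 c5356 c2083 c20793 c20598 (k8 c12639 c2598 c5441 c13204 c3038 c5020 c20768 c713 (k8 c5560 c17930 c5423 c5420 c5398 c5449 c315 c5528 (k8 c316 c4760 c5439 c1135 c4613 c151 c6008 c2364 (k8 c3666 c3663 c3665 c5443 c5562 c5343 c5563 c907 (k8 c21200 c21217 c21218 c12165 c3045 c21219 c5621 c7591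 (k8 c2089 c21220 c21214 c5677 c20753 c18818 c5515 c3117 (k2 c5230 c5351 k0))))))))))) (by decide +kernel)
def c21222 : PP 9 3 T 0x20000000000082000110081500000000000000000000000050040404480000001800080000000000000000000004000000000000200000000000000000 := rS 0x17b73dff49f7faba752c7c7de4f2a350a34eff3 (k8 c5549 c5356 c2083 c5398 c5449 c5441 c5359 c5443 (k8 c5357 c5469 c5472 c17779 c7591 c5194 c5389 c21206 (k2 c21207 c3611 k0))) (by decide +kernel)
def c21223 : PP 9 3 T 0x440015000000000000000000080100000000000000000000000000000000000000440040000000000000000000000104000000000000000000000000000000 := rS 0x1d9f4 (k2 c5207 c5693 (k1 c9777 k0)) (by decide +kernel)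
def c21224 : PP 9 3 T 0x5400000000082000110081500000000000000000000000050040400480000040810080000000000000000000100000000000000200000000000000000 := rS 0x6ddfb510dfb43fcb8fbc9f4ffef469dddff36fc2dca7b (k8 c1775 c2626 c2944 c207 c5549 c5020 c5356 c2083 (k8 c5582 c5358 c5442 c5359 c5443 c21222 c21215 c21223 (k4 c5640 c9954 c20753 c20769 (k1 c21210 k0)))) (by decide +kernel)
def c21225 : PP 9 3 T 0x40005000000000000000110080100000000000000000000000020000000000000440040000000000000000000000104000000000000000000000000000000 := rS 0xe9f27d3efa5 (k4 c5391 c5595 c5194 c21223 (k2 c5555 c17779 k0)) (by decide +kernel)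
def c21226 : PP 9 3 T 0x5400000000082000100001100000000000000000000000000042000480000040810080000000000000100000100000000000000200000000000002020 := rS 0x797ef2692ade940f4e97f166a10615dff36fa40f3928992f3a7b (k8 c1775 c20598 c12639 c2598 c21197 c5441 c13204 c207 (k8 c5549 c5020 c5423 c315 c316 c4760 c5439 c1135 (k8 c151 c6008 c12165 c21225 c21224 c5637 c21220 c21223 k0))) (by decide +kernel)
def c21227 : PP 9 3 T 0x40005000000000082000100000200000000000000000000000000000000000000441000002004000000000000000004000000000000000140000000002020 := rS 0x7d0a1f78f3a5cfa5ce92ca647ac124764f269ab6a20 (k8 c315 c5528 c316 c4613 c3666 c3663 c3665 c21100 (k8 c5562 c5563 c12639 c20598 c5610 c3256 c4625 c21218 (k4 c21203 c581 c5194 c5552 k0))) (by decide +kernel)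
def c21228 : PP 9 3 T 0x100000000000000000000000000000100000000000000000000004000000000000080000000000000040000200000000000002020 := rS 0x18dc4c09987b40b9586eb8a46d20dff99b9c4ef468f9a439f0c15fef383a1fc6b1599c7d813db375fa67578583ad71a0ce02adf7bc4e6258e94c7a47ac5e4f277efecd92d1cec453e573f9f4820908a6556498987c023703985524d4e9a8bf92daad4404b49a87613b (k8 c20666 c20692 c5398 c5444 c12639 c315 c2608 c5528 (k8 c21197 c5439 c316 c1135 c4613 c20804 c20768 c713 (k8 c2364 c53 c2362 c2598 c3665 c1285 c1641 c15516 (k8 c21075 c12636 c5442 c5358 c5353 c15711 c9730 c20598 (k8 c9368 c134 c5404 c5452 c5356 c5441 c5359 c21100 (k8 c5562 c5560 c5563 c5341 c12632 c9719 c5811 c5582 (k8 c2887 c3066 c21198 c20460 c1763 c331 c19357 c10145 (k8 c20694 c20237 c4325 c20492 c20525 c5682 c5571 c5574 (k8 c5421 c17930 c5499 c5503 c5540 c5544 c5545 c20854 (k8 c439 c21199 c18954 c2083 c5020 c18088 c20793 c5549 (k8 c207 c13204 c5037 c3038 c21213 c600 c2626 c21221 (k4 c1775 c20941 c12473 c21227 (k2 c3045 c21226 k0))))))))))))) (by decide +kernel)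
def c21229 : PP 9 3 T 0x1400000000000000000000000000000000000000000000000000000002000000000014000000000000000000000000000000000000000000200000000 := rS 0x19bed (k2 c5542 c4665 (k1 c5688 k0)) (by decide +kernel)
def c21230 : PP 9 3 T 0x100000000000000000000000000000000000000000000000000000000000000000002000000000000040001100000000000010000 := rS 0x268d (k2 c10035 c3036 (k1 c20834 k0)) (by decide +kernel)
def c21231 : PP 9 3 T 0x100000000000000000000000000000000000000000000000000000000000000000080000000000000040000100000000000040020 := rS 0x2047ed765b4ce28cf7bc4e6019d90412118e8f6b05f3e9fcae77c977c0e61 (k8 c20768 c713 c5452 c21197 c5356 c5353 c5358 c5442 (k8 c5439 c21100 c5560 c5341 c15516 c21075 c12636 c20666 (k8 c53 c9719 c5811 c19004 c20834 c20438 c2083 c8466 (k4 c1767 c14449 c20909 c12613 k0)))) (by decide +kernel)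
def c21232 : PP 9 3 T 0x100000000000000000000000000000100000000000000000000004000000000000080000000000000040000000000000000002020 := rS 0x3c0de7e3fdc303f77c962ad57edd66cb37098e2128ab8e029122a6d43b0019ce7679efecda39d888053e073095cfe7d2082422995592626a94e9a8bf92daad4404b (k8 c12639 c315 c2608 c5528 c21197 c5439 c316 c1135 (k8 c20804 c2598 c3665 c1285 c1641 c15516 c21075 c12636 (k8 c5442 c5358 c5353 c20768 c713 c15711 c53 c9730 (k8 c20598 c9368 c5404 c5452 c5441 c20666 c9719 c54 (k8 c20692 c5398 c5397 c21228 c21230 c19568 c13204 c1140 (k8 c21231 c2869 c317 c318 c8466 c2378 c5570 c2986 (k8 c20758 c20792 c5241 c5683 c5550 c5591 c5586 c3623 (k2 c3620 c21229 (k1 c5538 k0))))))))) (by decide +kernel)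
def c21233 : PP 9 3 T 0x100000000000000000000000000000000000000000000000000004000000000000080000000000000040000000000000000002020 := rS 0x1e3dbb7e2aa1f038597b14da487328daa746e201d924d4f1ce92c7a47ac17d8e793ba7c0e612b9fcfb92208242299 (k8 c1641 c15516 c21075 c12636 c21197 c5442 c5358 c5353 (k8 c20768 c713 c15711 c5356 c5441 c5357 c5439 c21100 (k8 c5562 c5560 c12639 c20598 c5811 c316 c3665 c3663 (k8 c315 c2364 c1135 c5528 c21232 c5317 c19497 c2490 (k8 c5444 c1753 c13096 c10916 c19506 c17925 c5538 c18110 (k2 c17960 c11678 k0)))))) (by decide +kernel)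
def c21234 : PP 9 3 T 0x80000000000000000000000000200000000000000000000004000000000000080000000000000040000000000000000001020 := rS 0x10a1f68ccf6f84f4f5058edefb1a50706892078dc2e3978cec12c73c95cefdfd9b44bf9d888040e61 (k8 c20768 c713 c53 c9730 c20598 c5439 c9368 c5404 (k8 c5452 c5356 c5353 c5441 c5357 c21075 c20666 c5811 (k8 c5317 c5433 c5435 c19585 c19497 c20850 c19357 c6008 (k8 c5444 c502 c5332 c5516 c5519 c17959 c18042 c20874 (k4 c20893 c5195 c2073 c5528 (k1 c20722 k0)))))) (by decide +kernel)
def c21235 : PP 9 3 T 0x1400000000000000000080000000000000000000000000100000000000000000000010000000000000000000000000000040000000540000000001440 := rS 0x3cd0eccf69e9eaf707d28ae77 (k8 c5356 c5353 c5654 c5329 c5333 c5519 c18025 c20874 (k4 c20893 c2073 c2500 c20774 k0)) (by decide +kernel)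
def c21236 : PP 9 3 T 0x1000000000000000000080000000000000000000000000100000000000000000000000000000000001080000000000000040000000800000000000020 := rS 0x198d5ee1cf605e9657ef8c5e20730a4f613b (k8 c20666 c20692 c5444 c20768 c713 c5811 c1472 c5452 (k8 c5353 c5332 c1676 c5165 c19357 c5498 c331 c492 (k1 c20880 k0))) (by decide +kernel)
def c21237 : PP 9 3 T 0x1000000000000000000080000000000000000000000000100000000000000000000004000000001000080000000000000000000000080000000000020 := rS 0x1eacc0e21c37ec3d8d696f19db1cf277efeccc2d12fe762201 (k8 c53 c9730 c20598 c5439 c9368 c20768 c5404 c5452 (k8 c5356 c5441 c5357 c20666 c5811 c5518 c1621 c10461 (k4 c5165 c1074 c5499 c5649 (k2 c20770 c1998 (k1 c2329 k0))))) (by decide +kernel)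
def c21238 : PP 9 3 T 0x440005000000000002000100000100000000000000000000000000000000000000450050000000000000000080000104000040000000000000000000000020 := rS 0xc1e47e3766d6e7037fd261fead953ea7c97d31e74bf8fbc9df25dfd998546a5 (k8 c5399 c5449 c20768 c5404 c5452 c21197 c5356 c5359 (k8 c5443 c5439 c20598 c9754 c9703 c21223 c5469 c5470 (k8 c5621 c17779 c1379 c5194 c5389 c5607 c18818 c20744 (k4 c3600 c5627 c3293 c20741 (k1 c5684 k0))))) (by decide +kernel)
def c21239 : PP 9 3 T 0x801000000000000000000000001000000000000000000000000010000014520000000000000000000000000000100000000000000415400000000000000000 := rS 0x3e17e84fd61f27 (k4 c5637 c5598 c17833 c2245 (k2 c20753 c5695 (k1 c5511 k0))) (by decide +kernel)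
def c21240 : PP 9 3 T 0x41005000000000002000100001100000000000000000000000010000014521000050050080000014015000080100104000040000011000000000000000020 := rS 0xbb84e0f0f91fa3621de5777dc965323d6192a5 (k8 c5399 c134 c21100 c5562 c5563 c12639 c21239 c21238 (k8 c5473 c3113 c3114 c5207 c2040 c2095 c3338 c2098 (k2 c5554 c3624 k0))) (by decide +kernel)
def c21241 : PP 9 3 T 0x41005000000000002000100001100000000000000000000000010000014421000050050182000014015000080100104000040000011000000000000000020 := rS 0x3eeefd4b6a098fbc9f4ff92 (k8 c21197 c5358 c5442 c5359 c5443 c21240 c2509 c20769 (k2 c1672 c9954 (k1 c21238 k0))) (by decide +kernel)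
def c21242 : PP 9 3 T 0x400000000000000000001000000000000000000000000010000014000000080010000000000000000000100100400000000000000000000000000000 := rS 0x21f27 (k2 c3357 c2963 (k1 c21212 k0)) (by decide +kernel)
def c21243 : PP 9 3 T 0x41005000000000002000100001000000000000000000000000010000814021000010050182000014015000080100104000040000011000000000000000020 := rS 0x1f6d4bb7cae66c7d60cebc4e3ef27d3f9df25df (k8 c5452 c21197 c5356 c5358 c5442 c5359 c5443 c2607 (k8 c21242 c21241 c5634 c2079 c2080 c5621 c3486 c1726 (k2 c5207 c17992 k0))) (by decide +kernel)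
def c21244 : PP 9 3 T 0x41005000000000002000100002100000000000000000000000000000010000000450050000400000000000080000104008040000011104000008000800020 := rS 0xf2303e3ad61fd6cd23fb47c96438e94c7a5523d63be9f03984ae7f3ee48820908a874aed (k8 c3263 c5611 c5398 c15516 c21075 c12636 c21197 c5442 (k8 c5358 c5353 c20768 c713 c15711 c5452 c21100 c5562 (k8 c5343 c5560 c5563 c5341 c5561 c12639 c18029 c21238 (k8 c2851 c6187 c17833 c5348 c5602 c17926 c3592 c5205 (k1 c5618 k0))))) (by decide +kernel)
def c21245 : PP 9 3 T 0x41005000000000002000100002100040000000000000000000000000015000000410250002400000000000080000004008040000011104000008000800020 := rS 0x62eff0583b91b6e7f2ba98fdf439df2481 (k8 c1716 c21197 c5356 c2073 c5452 c5357 c21244 c5623 (k8 c3437 c3384 c3065 c2080 c2509 c21210 c2522 c20771 k0)) (by decide +kernel)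
def c21246 : PP 9 3 T 0x9005000000000022000100000000000000000000000000000000000000001000010450002400000014000181400004008040000011004000008000800020 := rS 0x1d7f7f2c6176e7c4426f6ef76c3f190069205c112f9df73a7d3f9df24a350a6d3ab954add1b0d22b561725 (k8 c5013 c5587 c5585 c5582 c5509 c5505 c5533 c5531 (k8 c5415 c5412 c5397 c5398 c5449 c21197 c5356 c5358 (k8 c5442 c20598 c9703 c17766 c5675 c5691 c1716 c20761 (k8 c3062 c21243 c20756 c3263 c4850 c3421 c2245 c21245 (k4 c3256 c2411 c2606 c17955 (k2 c5641 c3363 (k1 c5693 k0))))))) (by decide +kernel)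
def c21247 : PP 9 3 T 0x400000000000000000000000000000000000000000000000001000005000000080510500000455000000000000000000000000000000000000000000 := rS 0x202b5 (k2 c2515 c2953 (k1 c18111 k0)) (by decide +kernel)
def c21248 : PP 9 3 T 0x4000000000000000000004200100000000000000000000000000800000000500400000000014000041500000000000000000000000000000000000000 := rS 0x3caebfbb9e30bb (k4 c2411 c2606 c3255 c5641 (k2 c3363 c17955 (k1 c5693 k0))) (by decide +kernel)
def c21249 : PP 9 3 T 0x20000100012000000000000000080000000000000010000000040000000400000000010080000000008000000000104004008008800020 := rS 0xdbc360d81f1dceb456c3b348e3e438e94c7a55ac6cd3e073095cfe41048474aedc7bbcfb92 (k8 c21197 c5442 c2854 c5443 c3262 c5611 c15516 c21075 (k8 c12636 c5358 c5353 c20768 c713 c15711 c5404 c21100 (k8 c5343 c5560 c5563 c5341 c5561 c18029 c2851 c6187 (k8 c5348 c5601 c5602 c17701 c17926 c3592 c1079 c5684 (k2 c3377 c1380 k0))))) (by decide +kernel)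
def c21250 : PP 9 3 T 0x4000000000020000100002000000000000000000000000000000810000000000650042400000000050580400008008800000000104004008108804020 := rS 0x4260f8bbfc15c8e76df95d589c8bbef6edbee3cfbdf4eae56f4acea1cef92 (k8 c21197 c5356 c2073 c20598 c6008 c5533 c5415 c5412 (k8 c5452 c5442 c5443 c9703 c3262 c3421 c2854 c20733 (k8 c21248 c21249 c5623 c3385 c3437 c3065 c2509 c21210 (k4 c1002 c2080 c2527 c20771 k0)))) (by decide +kernel)
def c21251 : PP 9 3 T 0x400000000000000000081000000000000000000000000010000014000000080010040000000000000000100000000000000000000000000000000000 := rS 0x93c3ef277 (k4 c5356 c5359 c2962 c3356 (k1 c21212 k0)) (by decide +kernel)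
def c21252 : PP 9 3 T 0x100001000000000000000000000000050400054000000040000000000000000000000100200000000040000004020000000000020 := rS 0xed91b0d83adfb599b3afd2df9de4104844a63d2ad60ef92 (k8 c21197 c5356 c21100 c5343 c5560 c5563 c15516 c21075 (k8 c12636 c1835 c20753 c5389 c1938 c2093 c6187 c5677 (k4 c1626 c444 c5348 c5351 (k2 c5639 c3592 k0)))) (by decide +kernel)
def c21253 : PP 9 3 T 0x400000000000000020001100000000000000000000080000000000400000000000000000000000000000000000000000000000000000000000000000000020 := rS 0x37166db8a4062508804464b (k8 c12639 c9734 c53 c15516 c12632 c54 c9694 c17828 (k2 c6187 c5243 (k1 c17701 k0))) (by decide +kernel)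
def c21254 : PP 9 3 T 0x20000000000102010000080001400000000000000000000000000000000000000010000000000000000080000000000000000000000000000000000020 := rS 0x30576c8fc5b5876ca9efa632fe3ef277d998546a5 (k8 c5399 c5449 c20768 c5404 c5356 c5359 c5443 c5439 (k8 c9754 c9703 c5470 c5621 c1379 c20744 c5627 c3293 (k2 c3600 c5684 (k1 c20741 k0)))) (by decide +kernel)
def c21255 : PP 9 3 T 0x400000000022000100000100000000000000080000000080400800051000000000000000100000000000104008008040000000000000000000000020 := rS 0x10983c16f7185d45d7d85dce07497fc5fdcbe77c96dc520312844022325ad0d4a9 (k8 c5531 c20831 c2600 c12639 c9734 c53 c15516 c12632 (k8 c54 c9694 c17828 c21197 c5356 c5439 c5637 c3945 (k8 c966 c21253 c5607 c18818 c1150 c5687 c17678 c1397 (k4 c1398 c961 c2582 c3508 (k2 c2645 c20771 k0))))) (by decide +kernel)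
def c21256 : PP 9 3 T 0x4000000000020000100000000000000000000000000000000000014051000000640006000000000000080500008000040040000100004000108884020 := rS 0x2cfb9d27c7ef0ebdc9dd6bd8fe271ad3efecd32a34d93c166d269a90e7754b747e3478c94dc2689203e6a1d84a41b3b659c406730097f249124d2b3a11 (k8 c15516 c20598 c6008 c5334 c21230 c21197 c5439 c53 (k8 c9719 c54 c2869 c8466 c20666 c21233 c21234 c20692 (k8 c5398 c17766 c6202 c5675 c317 c318 c5013 c5811 (k8 c20460 c441 c4325 c5531 c5356 c2073 c20831 c5521 (k8 c5529 c717 c5768 c5397 c5449 c1641 c5404 c5452 (k8 c12473 c21250 c2607 c584 c2821 c21251 c21255 c960 (k4 c21252 c5598 c5515 c5677 (k2 c18818 c20735 (k1 c5230 k0))))))))) (by decide +kernel)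
def c21257 : PP 9 3 T 0x2002000080000040000000000000004000050000014000000000000000000000000000080100000000040000050000000000000005400 := rS 0xf843acfb9c6e26ff1f2f9dfbfb3 (k8 c5404 c5452 c5356 c5439 c5385 c5389 c5610 c5611 (k4 c18818 c20735 c20753 c5230 (k1 c5515 k0))) (by decide +kernel)
def c21258 : PP 9 3 T 0x1000000000000140001100000000000000000000000000000000140014020000000000000000000000000000000000000000001455540000000000000000 := rS 0x10483c5a1346f8947eb0f91c66cdf6 (k8 c5243 c5213 c5641 c5594 c5598 c17833 c5350 c17926 (k4 c17956 c2245 c3596 c3438 (k2 c5695 c3394 k0))) (by decide +kernel)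
def c21259 : PP 9 3 T 0x1000000000000022000100000000000000000000000000000040000814020000000200000000000000000080100000000840000000104004000108885020 := rS 0xebc648a3d67dc697237b9d90e3a532a91eb0a12782cda4926ede959d14894222325b2ce20339804bf92929b84d1b (k8 c4786 c317 c318 c5013 c21197 c5439 c53 c9719 (k8 c54 c2869 c8466 c12639 c9734 c15516 c12632 c9694 (k8 c20598 c6008 c17828 c5521 c5334 c5529 c717 c5768 (k8 c5398 c21100 c5562 c5343 c5563 c5341 c5561 c20666 (k8 c960 c20733 c21257 c21258 c17701 c6187 c583 c584 (k2 c4989 c21249 k0)))))) (by decide +kernel)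
def c21260 : PP 9 3 T 0x1000000000020000100000000000000000000000000000000000000000000000000004000000000000080000000000000040000000000000100000020 := rS 0x1cdf476795dfb9c0ea7497f75fde3f2680201c1123d7cdbecb37098e28f1fa47c61285bfdaa4586ac51bee6eab4d4d774a1c681a7e99d5e16666dc9a491987607eda53c9eae37b87c1e381b8ec16b3549b62a9d119cc52030492c4a1121d62f27d3f95cefdfd9b2462f16897f3b110081cc29955a8537b094837253b (k8 c20666 c21197 c21233 c21234 c20692 c5397 c5398 c1285 (k8 c1641 c20768 c713 c53 c9730 c20598 c5439 c9368 (k8 c5811 c1472 c134 c5404 c5452 c5356 c5353 c5358 (k8 c5442 c5359 c21100 c5561 c15516 c12632 c12639 c21075 (k8 c54 c9694 c9719 c9734 c5412 c5414 c5529 c5531 (k8 c5532 c717 c21236 c21237 c21235 c393 c2472 c398 (k8 c2617 c2475 c20879 c6008 c20874 c2627 c333 c388 (k8 c5334 c5521 c17828 c5688 c19357 c10145 c20694 c20237 (k8 c5649 c20460 c2073 c4770 c2191 c20831 c1908 c4325 (k8 c20492 c5505 c5506 c5509 c5582 c5585 c5586 c5587 (k8 c19004 c20829 c21230 c441 c17131 c2869 c317 c318 (k8 c8466 c21247 c17766 c21246 c5675 c5691 c6202 c21256 (k8 c21259 c12619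 c5637 c3356 c966 c21253 c5388 c5607 (k4 c18818 c1834 c21254 c5693 (k2 c5207 c1722 (k1 c5633 k0)))))))))))))))) (by decide +kernel)
def c21261 : PP 9 3 T 0x1000000000000000100000000000000000000000000000000000000000000000000004000000000000080000000000000040000000000000100000020 := rS 0x1d0dbcbda387a8dc16f71dd281fb578cecefdfd9b44bf9d888040e6155ca41b92 (k8 c21197 c21233 c21234 c1285 c20768 c713 c53 c9730 (k8 c20598 c5439 c9368 c5404 c5452 c5356 c20666 c5811 (k8 c21260 c9737 c5211 c5332 c5333 c5516 c5518 c5519 (k4 c21235 c20874 c20879 c19296 (k2 c333 c5649 k0))))) (by decide +kernel)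
def c21262 : PP 9 3 T 0x1000000000000000100000000000000000000000000000000000000000000000000004000000000000080000000000000040000000000000000000020 := rS 0xf6aa5eb4a7ebdc160fda883bfb36897f259d88805560d (k8 c21233 c1285 c53 c9730 c20598 c21197 c5439 c9368 (k8 c5404 c5452 c21261 c5528 c9735 c2417 c343 c21229 (k4 c5211 c5519 c21192 c20874 (k1 c5682 k0)))) (by decide +kernel)
def c21263 : PP 9 3 T 0x80000000000000000000000000000000000000000000000000000000000000000000004000000000000000500000000005460 := rS 0xda959d04b1cf257 (k8 c5353 c5441 c5357 c21075 c20598 c6008 c3568 c5518 k0) (by decide +kernel)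
def c21264 : PP 9 3 T 0x5000000000000000000110000000000000000000000000000000000400040084000000000000000000000000000000000000000000200000000000040000 := rS 0x2449101 (k4 c3067 c503 c21172 c13198 k0) (by decide +kernel)
def c21265 : PP 9 3 T 0x100000000000000000000000000000000000000000000000000004000000000000080000000000000040000000000000000040020 := rS 0x1ef2256207137b3cfdb3b7ad2c1c0b43344bf9d88804f2771c9ec77e00681cc392 (k8 c21197 c20768 c713 c21233 c21262 c5456 c5457 c5534 (k8 c5356 c5441 c53 c9730 c20598 c5439 c9368 c20854 (k8 c3841 c21263 c5329 c1921 c20666 c5499 c20772 c5657 (k4 c12622 c10690 c21100 c21231 (k2 c19004 c21264 k0))))) (by decide +kernel)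
def c21266 : PP 9 3 T 0x100000000000000000000000000000000000000000000000000004000000000000080000000000000040000000000000000000020 := rS 0x38d968e388496a1b7b2ce2af3da52c1cf505fb50cdf1cb853a7b1df8136a1d84a41aab4c80ce73b8ed60f277d9b44bf9d888053e073095cfe7dc91041211 (k8 c15516 c21075 c12636 c21197 c5442 c5358 c5353 c20768 (k8 c713 c15711 c53 c9730 c20598 c5439 c9368 c5404 (k8 c5356 c5441 c21100 c5341 c20666 c9719 c54 c1641 (k8 c1285 c21233 c21234 c20692 c5398 c5397 c21262 c5456 (k8 c5457 c5458 c5460 c5534 c5538 c20854 c5499 c3841 (k8 c1921 c21263 c5329 c9737 c20772 c5414 c5532 c5657 (k8 c2103 c19505 c21265 c2869 c476 c8466 c2403 c3620 k0))))))) (by decide +kernel)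
def c21267 : PP 9 3 T 0x100000000000000000000000000000000000000000000000140000000000000014400000000000000000000000000000000088020 := rS 0x1c6b565a38dc71019cc025f3ce4a269d8aa6567b4 (k8 c9737 c5532 c5530 c5414 c5412 c12622 c21197 c5441 (k8 c5439 c53 c9719 c54 c2869 c318 c476 c8466 (k2 c1149 c2403 (k1 c3620 k0)))) (by decide +kernel)
def c21268 : PP 9 3 T 0x2000100000000000000000000000000000000001000000000000140000000001400001000800001040000400000000000000000000000 := rS 0x328e2e3 (k4 c2403 c2874 c6118 c8466 k0) (by decide +kernel)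
def c21269 : PP 9 3 T 0x1000000000000000000000000000000000000000040004000000000000000004000000000000000000000002000000000000000000200000000000000000 := rS 0x3d9fef5 (k4 c10333 c20750 c5657 c504 k0) (by decide +kernel)
def c21270 : PP 9 3 T 0x100000000000000000000000000000000000000000000000000000000000000000080000000000000040000000000000000008020 := rS 0xafdb8d03bf27a3fe06f77192522ad227bc26a149b7dc3b04ca7552abf04a5e7b4a5c4c06f19d8948f583cf7f66956897f3b1100a7c0e612b9fcfb922082423ed66a6d9cc9 (k8 c134 c21266 c2563 c139 c5543 c15516 c21075 c12636 (k8 c21197 c5442 c5358 c5353 c20768 c713 c15711 c53 (k8 c9730 c20598 c5439 c9368 c133 c5404 c5452 c5441 (k8 c21100 c5562 c12632 c20666 c5811 c54 c12622 c5329 (k8 c9737 c20772 c19585 c5165 c11079 c10768 c5412 c5530 (k8 c20692 c5460 c5538 c5444 c5398 c21267 c19004 c21231 (k8 c2887 c21269 c13198 c13204 c503 c2633 c19573 c5657 (k4 c9612 c1998 c18094 c7694 (k2 c10145 c20492 k0))))))))) (by decide +kernel)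
def c21271 : PP 9 3 T 0x80000000000000000000000000000000000000004000000008000000000000080000000000000000000000000000000004020 := rS 0xfddaa655620350307279d981cc27b1d82e959d (k8 c20598 c6008 c5516 c5332 c20767 c20768 c713 c5404 (k8 c5441 c2558 c21263 c316 c315 c20805 c2373 c5528 (k2 c2550 c13265 k0))) (by decide +kernel)
def c21272 : PP 9 3 T 0x100000000000000000000000000000000000000000000000000000000000000000000000000040000000000200000000020040000 := rS 0x6fdb9c44cae (k4 c336 c335 c20748 c5570 (k2 c2813 c5666 k0)) (by decide +kernel)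
def c21273 : PP 9 3 T 0x80000000000000000000000000000000000000000000000000000000008000000000004000000000000000100000000004060 := rS 0xd361ae22012fb1cae3b058de959d (k8 c20598 c6008 c5518 c5516 c5332 c5353 c5357 c5439 (k4 c53 c9730 c20805 c20861 (k2 c316 c5710 k0))) (by decide +kernel)
def c21274 : PP 9 3 T 0x100000000000000000000000000000000000000000000000000000000000000000080000000000000040000000000000000040020 := rS 0x3689955ed873b01a0ce521a7eabc2c930eab489ef7888ce62901cec124b1284403583e9fcaf92efecd9207309ed9c1f1bd281f9d (k8 c20598 c21270 c6008 c5518 c5517 c21266 c20767 c20768 (k8 c713 c134 c5404 c5452 c21197 c5353 c5358 c5442 (k8 c21100 c53 c15516 c12632 c12639 c21075 c20666 c54 (k8 c9694 c9719 c9734 c5811 c19004 c21231 c2887 c21272 (k8 c1638 c19357 c10145 c20237 c5649 c19532 c2043 c1074 (k4 c20692 c2559 c20492 c21273 (k2 c1463 c13265 (k1 c17828 k0)))))))) (by decide +kernel)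
def c21275 : PP 9 3 T 0x100000000000000000000000000000000000000000000000000000000000000000080000000000000040000000000000010000020 := rS 0x44dc40c6fb847e397fb548a3419fb834af78cec96250090412111ed60f392d9b240e613db38760b48926940fceab4dc12 (k8 c21274 c318 c20758 c20598 c21270 c6008 c5334 c3036 (k8 c5516 c5332 c21266 c20767 c20768 c713 c134 c5404 (k8 c21197 c5441 c21100 c5560 c15516 c21075 c12636 c53 (k8 c12632 c12639 c20666 c5811 c10145 c5649 c20525 c2043 (k8 c1074 c5582 c5585 c5586 c2559 c441 c1652 c2564 (k4 c21263 c17954 c2598 c13204 k0)))))) (by decide +kernel)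
def c21276 : PP 9 3 T 0x11000000000000000000000000080004000000000000000000000400000000000400005480000000000000000004010000000000000000 := rS 0x128 (k2 c20692 c15026 k0) (by decide +kernel)
def c21277 : PP 9 3 T 0x100000000000000000000000000000000000000000000000000000000000000000080000000000000040000000000000000000020 := rS 0x7b9fcd26f6c1c6e1f940566b5daa75f820558715b15dbb2cdc2638849e4497bd281e9b6700ce601cecec965fd9b253e073095cfe7dc91041211 (k8 c15516 c21075 c12636 c21197 c5442 c5358 c5353 c20768 (k8 c713 c15711 c134 c5404 c5439 c12639 c20666 c20598 (k8 c53 c9719 c54 c21266 c2563 c21270 c6008 c5333 (k8 c5334 c21271 c21274 c2869 c317 c318 c8466 c5570 (k8 c3046 c20758 c21275 c2121 c333 c334 c1651 c5528 (k8 c2608 c2557 c15060 c5241 c1653 c5549 c21276 c6118 (k4 c2565 c2564 c20105 c5586 k0))))))) (by decide +kernel)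
def c21278 : PP 9 3 T 0x2000000000000000000000000000000000000000080000000000000000000020 := rS 0x52c1e1e7abc73a1a (k8 c716 c20598 c5811 c2338 c1075 c873 c5517 c6008 k0) (by decide +kernel)
def c21279 : PP 9 3 T 0x80000000000000000000000000000000000001000000000008000000001000000000000000080000000000004000000004060 := rS 0x68e4f7ed1d82e959d (k8 c20598 c6008 c5516 c5332 c5543 c20767 c2559 c17806 (k1 c21263 k0)) (by decide +kernel)
def c21280 : PP 9 3 T 0x100000000000000000000000000000000000000000000000000000000000000000080000004000000000000000100000000004020 := rS 0xc6e2586e575bbe2844370f9031b81243e6e26978d62cb599c427b666787df057fc1e02875afb041130618ce64b298f48ec7bc9e4efdfd9b44bf114f95cfe7d208255a43ac285aeaf00845ba344cec252169d8ec920b1b93556cf54bd6959d0d3f466662d01cc392 (k8 c21197 c20768 c713 c21277 c715 c2042 c21278 c716 (k8 c20598 c6008 c5519 c1906 c21279 c1285 c5521 c5518 (k8 c5516 c5334 c5332 c20666 c1073 c5433 c20692 c5447 (k8 c1074 c4325 c15516 c53 c17787 c1768 c3991 c21100 (k8 c5561 c1908 c21075 c12636 c5442 c5358 c5353 c15711 (k8 c9730 c5439 c9368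 c5404 c5452 c5356 c5441 c5359 (k8 c5357 c5562 c5560 c5563 c12639 c9719 c9754 c21263 (k8 c2598 c315 c17806 c2608 c5499 c5502 c5503 c5544 (k8 c5545 c14774 c20854 c20770 c20492 c20525 c5571 c5574 (k8 c5420 c5421 c17930 c21199 c18088 c5549 c13204 c2623 (k8 c4790 c907 c12613 c3599 c441 c3038 c5020 c21213 (k4 c2626 c600 c21227 c3045 (k1 c21226 k0))))))))))))) (by decide +kernel)
def c21281 : PP 9 3 T 0x100000000000000000000000000000000002000000000000000000000000000000080000000000000000000200100000000006020 := rS 0x37381bfe924ff7d4f931ab7c4c963ec372c2dd63e299548f8fbcb7546991d9249e3726a74bf8b356d50f0782b2f0be31ea34ee903cc4d00ef7134826d759ad4404b7fac76def57804227dd9ab48657efec252169d8d0ff5804f854301f62ad9ea97ad2b3a1a7e8cccc5a03987247a (k8 c21280 c21197 c20768 c713 c21277 c715 c2042 c21278 (k8 c716 c20598 c6008 c5519 c1906 c21279 c1285 c17806 (k8 c5502 c3991 c5457 c21075 c21100 c5358 c1074 c20666 (k8 c1073 c5433 c20692 c5452 c5353 c5561 c1908 c5404 (k8 c5442 c15516 c53 c17787 c14774 c20492 c5421 c5544 (k8 c12639 c315 c2608 c5574 c1768 c20525 c21199 c18088 (k8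 c4349 c1775 c2598 c5441 c13204 c5356 c2083 c5560 (k8 c17930 c5423 c5420 c5545 c5503 c5499 c5528 c316 (k8 c4760 c5439 c1135 c5521 c5518 c5335 c5334 c5332 (k8 c5447 c4204 c4325 c5359 c5443 c5562 c5343 c5563 (k8 c2936 c21213 c2944 c2626 c600 c21200 c21217 c21218 (k8 c12165 c3045 c21219 c5469 c7591 c21220 c5677 c21214 (k2 c5607 c8905 (k1 c21254 k0)))))))))))))) (by decide +kernel)
def c21282 : PP 9 3 T 0x2004000000000082000100001500000000000000080000000040042000080000040800080000005000001000100008000800000404400000000000000000 := rS 0x43a2d0d7342172e9bddfc924df0a1e0307f9bbe172572a019699 (k8 c5447 c5420 c1775 c2626 c21217 c2944 c4349 c5549 (k8 c5503 c5502 c5499 c5457 c5521 c5334 c21214 c21207 (k8 c1825 c1142 c20743 c21205 c4473 c1782 c20753 c3084 k0))) (by decide +kernel)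
def c21283 : PP 9 3 T 0x2004000000000082000100001500000000000000080000000000042400080000040800080000001000000000000008000800000000000000000000000020 := rS 0x3e97af2fde4cb72594c8f584cf853a5fc2a34eff3481e7259d (k8 c20598 c21197 c5441 c13204 c5549 c5356 c2083 c5423 (k8 c5439 c1135 c5457 c5447 c21100 c5562 c5563 c12639 (k4 c12165 c21282 c5637 c21220 (k2 c911 c5207 (k1 c5631 k0))))) (by decide +kernel)
def c21284 : PP 9 3 T 0x2004000000000082000100001400000000000000080000000000042400080000040800080000001000000000000008000800000000000000000000000020 := rS 0x1f673ba64fa5c412ca647ac63c924df0a3cf2cc92b9500cb4e97f2499 (k8 c5447 c21197 c5439 c1135 c5420 c1775 c2626 c21217 (k8 c2087 c5441 c2403 c5457 c5521 c5334 c5443 c21100 (k8 c5562 c5563 c12639 c21283 c5610 c3471 c4625 c3255 (k2 c5677 c21203 k0)))) (by decide +kernel)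
def c21285 : PP 9 3 T 0x2004000000000082000100000000000000000000080000000000042000080000040800080000000000000000000008000000000000000100000000002020 := rS 0x6159b11a5c647dcb8f4c8ec924f1b9353a5fc59ab6ab510240f3928992f3aef (k8 c4349 c20598 c12639 c2598 c21197 c5441 c13204 c315 (k8 c2608 c5528 c316 c4760 c5439 c1135 c5521 c5518 (k8 c5335 c5334 c5332 c5447 c5443 c2626 c21200 c21284 (k4 c5611 c3045 c6187 c21218 (k1 c5348 k0))))) (by decide +kernel)
def c21286 : PP 9 3 T 0x100000000000000000000000000000000000000000000000000000000000000000080000000008000000000000100000000006020 := rS 0x1d30abde364ee787c364be57533204458a46ca647bcbddba4926a1e0ef382f8c7ad5469dfe6df4844d1ee26904daeb35a88096ff58edbdeaf00844fbb35690cafdfd84a42d3b1a1feb009f09e94301f62ad9ea97ad2b3a1a7e8cccc5a03984f392 (k8 c21197 c5441 c20768 c713 c21277 c715 c2042 c21278 (k8 c716 c20598 c6008 c5519 c1906 c21279 c1285 c17806 (k8 c5502 c3991 c21280 c5457 c21075 c21100 c5358 c1074 (k8 c20666 c1073 c5433 c20692 c5452 c5353 c5561 c1908 (k8 c5404 c5442 c15516 c53 c17787 c14774 c20492 c5421 (k8 c5544 c12639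 c315 c2608 c5574 c1768 c20525 c21199 (k8 c18088 c2403 c2598 c13204 c207 c5549 c5356 c2083 (k8 c141 c5560 c17930 c5545 c5540 c5503 c5499 c5521 (k8 c5334 c4325 c4481 c5359 c5562 c5563 c5037 c3038 (k8 c21281 c18038 c2087 c21285 c5623 c2958 c3361 c2963 (k4 c3437 c3356 c21211 c21208 (k2 c21212 c1825 (k1 c21209 k0))))))))))))) (by decide +kernel)
def c21287 : PP 9 3 T 0x4004400000000082000000000000010000000000080000000000000400580000080810502000000000000002104049400000000404400000000000000000 := rS 0xe9855ef1b2773c3e1b25f29249be1f9b7d1f1b (k8 c4790 c2403 c207 c5549 c5457 c5521 c5334 c5623 (k8 c2958 c3361 c2963 c3437 c3356 c21211 c21208 c21212 (k2 c1825 c21209 k0))) (by decide +kernel)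
def c21288 : PP 9 3 T 0x1000000000080000100001400440000000000080000000050000000500000015000000000000000000080004000000000000000000000000000000020 := rS 0xfaf9611b9c4e0753a4fb92ca647ac649ba34d84a42c1a2d4ec924d (k8 c5521 c5334 c20666 c21277 c716 c1073 c5433 c20692 (k8 c1074 c4325 c21197 c21100 c5562 c5563 c12639 c21203 (k8 c5677 c5388 c5607 c5610 c8905 c20771 c21254 c5556 (k1 c5692 k0)))) (by decide +kernel)
def c21289 : PP 9 3 T 0x80000100001400000000000000080000000050000004590000001800080000000000000080004008000000000000000000000000000020 := rS 0x43e1b166cb99d37bbf92ca647ac6c252160d16a764926f851a77c97ce36cc (k8 c2087 c4790 c5549 c21197 c5356 c2083 c5457 c5521 (k8 c5334 c20666 c21277 c716 c1073 c5433 c20692 c21100 (k8 c5562 c5563 c12639 c21214 c21207 c1825 c21288 c3434 (k4 c1782 c2089 c3084 c20753 k0)))) (by decide +kernel)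
def c21290 : PP 9 3 T 0x100000000000000000000080000000020400000000000001800000000000000000000000008000000000000000100000000000020 := rS 0x5160b0dcfad74eadd9a8bde94820908956b03b278dc9a80 (k8 c1775 c5521 c5518 c5335 c5332 c21100 c5343 c15516 (k8 c21075 c12636 c5391 c3932 c1008 c1009 c3833 c1825 (k4 c1498 c4311 c1783 c3480 (k2 c5907 c3591 k0)))) (by decide +kernel)
def c21291 : PP 9 3 T 0x80000000080001400000000001800000000001000041502400008000000000000000000000000000020 := rS 0x1e45caefeae95bb9e317ad4e262fe1 (k8 c5457 c3451 c3471 c3927 c911 c912 c1782 c12165 (k4 c1824 c5631 c2641 c3504 (k2 c5692 c17955 k0))) (by decide +kernel)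
def c21292 : PP 9 3 T 0x100000000000000000000000000000000000000000000000000000000000000000080000000000000000000000100000000006020 := rS 0x18566c4697192792c7dcb0b75b32051537bbd1e9071235aad2f1ac56613db7be0aff83c050eb5dae2d3bec1044cd4092594c7a472fe3ef27d3c9fcae77efecd5a43ac26d42d75780422dd518d133b09485a763b2493c6e4d55b3d52f5a567434fd19998b40730e4bc27a (k8 c21280 c5457 c21197 c20768 c713 c21277 c715 c2042 (k8 c21278 c716 c20598 c6008 c5519 c1906 c21279 c1285 (k8 c5521 c5518 c5335 c5334 c5332 c20666 c1073 c5433 (k8 c20692 c5447 c1074 c4204 c4325 c15516 c53 c17787 (k8 c1768 c3991 c3990 c21100 c5561 c1908 c5404 c5452 (k8 c5356 c5353 c5358 c5441 c5442 c5359 c5443 c5439 (k8 c5562 c5560 c5563 c12639 c21075 c316 c2598 c315 (k8 c17806 c1135 c4760 c5528 c2608 c5499 c5502 c5503 (k8 c5544 c5545 c14774 c20492 c20525 c5574 c5421 c17930 (k8 c21199 c141 c2083 c18088 c13204 c2403 c4349 c21286 (k8 c1139 c17841 c2087 c21287 c2944 c2626 c21200 c21290 (k4 c21291 c21289 c5611 c3045 (k2 c6187 c21218 (k1 c5348 k0)))))))))))))) (by decide +kernel)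
def c21293 : PP 9 3 T 0x1000000000082000000006000100000000000080000000000000000000000440800000000000000050002000001000000000404400000000000000000 := rS 0x7ddd3e573e21dabf24937c6e5 (k8 c2626 c5466 c5521 c5334 c2853 c3262 c3045 c1781 (k4 c6396 c2412 c21203 c5693 k0)) (by decide +kernel)
def c21294 : PP 9 3 T 0x400000000000000000000100001200000000000000000000000010000000000000000000000000000000000000400000000000000000000000000000000000 := rS 0x24fa5 (k2 c5610 c3471 (k1 c5677 k0)) (by decide +kernel)
def c21295 : PP 9 3 T 0x2000000000000080000100000000000000000000080000000000002000010000040800000000000000000080000008000000000000000100000000000020 := rS 0x1b9c0e92ff275be27efa9f230c7c4481e364ae585df4a65523e3d42f76ea8c6899d84a42d3b1d9249e377a937c2ff479e5df1370e2d1a9d659c500732fe4b0ab543bf4cc1d83bcda5efac78fbed757868b4d58d9b8d5b51480c4a111192f3b11009b4c290 (k8 c1776 c20768 c742 c53 c9730 c20598 c12639 c9734 (k8 c15516 c12632 c54 c9694 c17828 c5665 c1139 c5037 (k8 c4227 c21277 c716 c17787 c1768 c5452 c5466 c21100 (k8 c14774 c5689 c5540 c5503 c1995 c715 c21278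 c9843 (k8 c5422 c5423 c21197 c5439 c9719 c1775 c751 c8466 (k8 c1777 c10035 c3966 c208 c957 c4349 c5441 c2403 (k8 c2575 c5457 c5521 c5519 c5518 c5335 c5334 c5332 (k8 c20666 c1073 c5433 c20692 c5447 c1074 c4204 c4325 (k8 c4481 c3991 c5443 c5562 c5343 c5563 c9703 c2944 (k8 c2626 c21217 c21293 c21284 c18038 c2936 c600 c21219 (k8 c5469 c7591 c21294 c12165 c21220 c21214 c5677 c5607 (k2 c8905 c21254 k0)))))))))))) (by decide +kernel)
def c21296 : PP 9 3 T 0x80000100000000000000000000000000000000000000000000000800000000000000000080000000000000000000000100000000004020 := rS 0x1990222baa28d210fbe0af3839abd88780ed447111480c96252991ef2793f9dfbfb30eab487587bb74684926aad9ea97ad2b3afd199980f92f09b4c20df1b556699d84a42d3b7fb5d5e1a2d004231370a35207a (k8 c21280 c1776 c10035 c208 c957 c15516 c53 c21277 (k8 c716 c17787 c1768 c2575 c20666 c1073 c5433 c20692 (k8 c5447 c2458 c4227 c5466 c21292 c20768 c742 c5457 (k8 c21197 c713 c715 c2042 c21278 c20598 c6008 c5519 (k8 c1906 c21279 c1285 c5521 c5334 c1074 c4325 c4481 (k8 c21100 c5561 c1908 c1995 c5404 c5452 c5356 c5358 (k8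 c5441 c5359 c5562 c5563 c12632 c12639 c54 c9694 (k8 c9730 c9734 c17828 c13274 c9843 c5682 c5665 c5503 (k8 c5540 c5545 c14774 c2371 c5689 c17941 c21295 c21213 (k2 c18038 c2087 (k1 c21287 k0))))))))))) (by decide +kernel)
def c21297 : PP 9 3 T 0x100000000000000000000000000000000000000000000000800000000000000000080000000000000000000000100000000004020 := rS 0x115376d36e7148203e67300e74c27a (k8 c21280 c20768 c20598 c53 c9719 c5549 c1775 c1776 (k4 c751 c21296 c5241 c5666 (k2 c5414 c3038 k0))) (by decide +kernel)
def c21298 : PP 9 3 T 0x4400000000000000000080000100000000000000000000000000804020000080650002000014000041500000008000000000000000000000000000000 := rS 0x5fe0b7b83e2e13896dc5a4ee787bbddbe5c7de50e77 (k8 c5356 c2073 c5359 c5443 c5623 c209 c218 c2963 (k8 c3437 c3356 c3064 c3384 c21248 c2245 c1002 c2080 (k4 c960 c3394 c21210 c20771 k0))) (by decide +kernel)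
def c21299 : PP 9 3 T 0x1011400000000000000000000000000000000000000000000000000002000000000000000000000000000000000000000000000000000000000000000000 := rS 0x3e3f5 (k2 c5556 c5514 (k1 c5205 k0)) (by decide +kernel)
def c21300 : PP 9 3 T 0x1010400000000060000100000000800000000000080004000100140014020000000000000000000000000000000000000000001404540000000000000000 := rS 0x59b71f1d29249e4d (k8 c5521 c5335 c5334 c5389 c5511 c21258 c5167 c17701 k0) (by decide +kernel)
def c21301 : PP 9 3 T 0x1000000000000060001100000000000000000000080000000000440014020000000000000000000000000000000000000000000000100000000000000020 := rS 0xb36e096438e94caa47ac1249e4d (k8 c5521 c5335 c5334 c21100 c5562 c5343 c5563 c5341 (k4 c5561 c12639 c21258 c6187 (k1 c17701 k0))) (by decide +kernel)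
def c21302 : PP 9 3 T 0x40011000000000060000100000100000000000000080000000010040000520000000000000000000000000080004000000000000000000000000000000020 := rS 0xfafdef58dc5e923f7f8492e3a532a91c924d46c348b0bf6f8fdc7dd9ab48657efec252169d8d0ff5804e49aeaf0d1680211 (k8 c15516 c53 c21277 c716 c17787 c1768 c21197 c21075 (k8 c21100 c5358 c1074 c20666 c1073 c5433 c20692 c5452 (k8 c5353 c5561 c1908 c5404 c5442 c20492 c20829 c14774 (k8 c5587 c5582 c5509 c5505 c5521 c5334 c5562 c5343 (k8 c5563 c5341 c12639 c21299 c21300 c973 c21301 c5390 (k4 c5611 c20771 c21239 c5631 (k1 c5207 k0))))))) (by decide +kernel)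
def c21303 : PP 9 3 T 0x20000000000060000100000000400000000000080000000000040000020000000000000000000000000080000000000000000000000000000000000020 := rS 0x6e703a48fb761a4585fb7dcaf00844fbb35690cafdfd84a42d3b1a068b47fc9026b1a9 (k8 c5469 c21100 c21075 c21197 c5358 c21277 c716 c1074 (k8 c20666 c1073 c5433 c20692 c5452 c5353 c5561 c1908 (k8 c5404 c5442 c15516 c53 c17787 c20492 c14774 c5587 (k8 c5582 c5509 c4325 c973 c21301 c5607 c8905 c21254 k0)))) (by decide +kernel)
def c21304 : PP 9 3 T 0x40000000000000060000100000100000000000000080000000010040000520000000000000000000000000080000008000000000000000000000000000020 := rS 0xe75dfd3717bd2dfb17a9f212e3a532a91d36a34c9249e4df0c348b0b4eae56e87667b7dcaf089f766ad2195f61290b4ec681a2d1fc1358efb44bf9d88804ef92 (k8 c21197 c5356 c53 c9730 c20598 c5439 c9368 c5452 (k8 c21100 c21075 c5358 c21277 c716 c1074 c20666 c1073 (k8 c5433 c20692 c5353 c5561 c1908 c5404 c5442 c15516 (k8 c17787 c20492 c14774 c20893 c2073 c5533 c5415 c5412 (k8 c5587 c5582 c5509 c5457 c5521 c5335 c5334 c5447 (k8 c4204 c3990 c5562 c5343 c5563 c5341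 c12639 c21302 (k8 c5469 c1001 c21303 c5389 c917 c21258 c5676 c5430 (k2 c5633 c17955 k0)))))))) (by decide +kernel)
def c21305 : PP 9 3 T 0x4000000000000000000004200100000000000000000000000000800000000000600000000014000041500400200000000000000000000000000000000 := rS 0x76bbdcf27 (k4 c3471 c3255 c1835 c1722 (k1 c21248 k0)) (by decide +kernel)
def c21306 : PP 9 3 T 0x40000000000000000100000000200004040040102000000000000000000000000000001400015024000000000000 := rS 0x48accedf2bbd82c3d6b91b5af (k8 c3212 c2509 c2508 c1626 c1667 c3377 c1672 c5622 (k4 c3489 c5656 c3592 c5351 k0)) (by decide +kernel)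
def c21307 : PP 9 3 T 0x40000100000000000000000000000000000000000000000000000000000000000000000080000000000000000000000100000000004020 := rS 0x187adf2d9d82e687b628f0682e25d7258dc49a48048c011ff379add729d70333683f6ff8fdb0b7fb548b0df75f4964104c74a63d2a91f1e7d3f95fbfb36897e22ad21d61376f6babc02116ea8c6899d84a42d3b1d9246eab67aa5eb4ace869fa33331680e61c9784f4e3 (k8 c21297 c21280 c5457 c21197 c20768 c713 c21277 c715 (k8 c2042 c21278 c716 c20598 c6008 c5519 c1906 c21279 (k8 c1285 c5518 c5334 c5332 c20666 c1073 c5433 c20692 (k8 c5447 c1074 c4204 c4325 c15516 c53 c17787 c1768 (k8 c4560 c3990 c21100 c5561 c1908 c9730 c5439 c9368 (k8 c5404 c5452 c5353 c5358 c5442 c5443 c5562 c5343 (k8 c5560 c5563 c5341 c21075 c12636 c12639 c9703 c20492 (k8 c5509 c5582 c5585 c5586 c5587 c14774 c20829 c18825 (k8 c441 c19296 c20893 c12667 c5412 c5415 c5533 c2500 (k8 c5591 c2846 c19710 c18100 c6202 c2077 c19568 c5040 (k8 c3970 c21298 c21305 c21306 c21304 c3439 c2079 c4463 (k4 c2080 c443 c17956 c5621 (k2 c3204 c4273 (k1 c5656 k0)))))))))))))) (by decide +kernel)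
def c21308 : PP 9 3 T 0x100000000000000000000000000000000000000000000000000000000000000000080000000000000000000000100000000004020 := rS 0xd3f7bffd90109ed56ab113acf6ce3f09e846290192c4bdfd9ab48758508d1aeaf0084556cf54bd6959d0d3f466662d01cc392 (k8 c21197 c20768 c713 c21277 c715 c2042 c21278 c716 (k8 c20598 c6008 c5519 c1906 c21279 c1285 c15516 c53 (k8 c17787 c1768 c1074 c3991 c21100 c5561 c1908 c5404 (k8 c5452 c12632 c12639 c54 c9694 c9734 c21280 c5457 (k8 c21297 c21307 c5574 c5570 c5421 c5422 c17828 c317 (k4 c13274 c5682 c5544 c14774 (k2 c18088 c21199 k0))))))) (by decide +kernel)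
def c21309 : PP 9 3 T 0x10400000000000000000000100010000400000000000000100000000500000000000000000000000000000004000000000080000000220000000000020 := rS 0x17a7262d85a4d6b063edba3dffe13b84fb5e5e1 (k8 c5534 c439 c5540 c21299 c20666 c5167 c5511 c5624 (k8 c5627 c973 c443 c1625 c6187 c5656 c5390 c598 (k2 c20771 c3346 k0))) (by decide +kernel)
def c21310 : PP 9 3 T 0x10000000000000000100000100000000000000000000000000000000500000000000000000000000000080000000000000000000000000000000004020 := rS 0x1a5fbdefe9f18fd9a131d299548f792493c164df0834ccfd54bd61a45f76df6887661dfdaf21c0a406251192e959d57804227dd9ab48657efec252169d8d0345a3fe4ab009 (k8 c21075 c21100 c21197 c5358 c21277 c716 c1074 c20666 (k8 c1073 c5433 c20692 c5452 c5353 c5561 c1908 c5404 (k8 c5442 c15516 c53 c17787 c20598 c6008 c12639 c9734 (k8 c12632 c54 c9694 c21308 c439 c5540 c5356 c440 (k8 c2073 c20488 c17828 c20492 c5582 c5509 c5519 c1906 (k8 c21278 c715 c17806 c5534 c5521 c5516 c5335 c5334 (k8 c5359 c5562 c5343 c5563 c5341 c21299 c21309 c5345 (k4 c17926 c5695 c5631 c17833 (k2 c20735 c21253 k0)))))))))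 (by decide +kernel)
def c21311 : PP 9 3 T 0x24000000000040000000800200080000000000000010000000000000000000000000000000000000000000000000100000000008000000 := rS 0x32383f8ee75e2b21c74a655 (k8 c5343 c5563 c5341 c5561 c5601 c5603 c17701 c17926 (k2 c1079 c1910 (k1 c5684 k0))) (by decide +kernel)
def c21312 : PP 9 3 T 0x20000000000222000000080500000000000000000000000000000000000000000000000000000000140400000000000001000000000000000000000020 := rS 0x7d6f6e6c06957777be98f3a5fc7de5329d5cadf52a7 (k8 c5470 c5469 c5533 c5415 c5412 c5447 c5359 c5443 (k8 c5439 c20598 c9754 c9703 c5613 c5430 c8905 c3600 (k4 c17955 c3416 c5633 c5676 k0))) (by decide +kernel)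
def c21313 : PP 9 3 T 0x20000000000000000100000000000000000000000000000000000000010000000000000000000000000080000000000000000000000000000000004020 := rS 0x1b7f0dcd9f0f8b6ca9f52a5869171312489247a41479cd6eb94ea65478fbe9e900d346b83e7e36bb7d690359c5562ab678cccc0730bffddb7da21d9877f6bc852031288d5e01089f76657efec252169d8d0ff9204bf552f5a56755a43ac26c345af0b8c704b (k8 c12639 c21308 c2617 c5534 c21277 c716 c3990 c21100 (k8 c5561 c1908 c20598 c6008 c5519 c1906 c21278 c21075 (k8 c21197 c5358 c1074 c20666 c1073 c5433 c20692 c5452 (k8 c5353 c5404 c5442 c15516 c53 c17787 c9734 c12632 (k8 c54 c9694 c439 c5540 c5356 c440 c2073 c20488 (k8 c17828 c20492 c5586 c20768 c713 c715 c2042 c21279 (k8 c1285 c5506 c5414 c5532 c2627 c3623 c2514 c1768 (k8 c20829 c5548 c5691 c5505 c12473 c20761 c1716 c9703 (k8 c5443 c4204 c5447 c5412 c5415 c5533 c9719 c17131 (k8 c12636 c5560 c5334 c18100 c20762 c21305 c5582 c5509 (k8 c3992 c5469 c5470 c5621 c1001 c1379 c21311 c21312 (k2 c5230 c5627 (k1 c20860 k0))))))))))))) (by decide +kernel)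
def c21314 : PP 9 3 T 0x1015400000000000000000000000000000000000000000000000000000210000000240102000000000000000000000000000000415400000000000000000 := rS 0x1f776bbdd7f47236a2ff1 (k8 c5628 c3395 c2509 c2508 c5205 c3064 c1672 c3489 (k2 c17833 c5693 k0)) (by decide +kernel)
def c21315 : PP 9 3 T 0x100000000000000000000000000000000000000010000000000000000000000000080000000000000000000000000000000004020 := rS 0x182c3b3eb5cd876c41a0be5c4a0224d348b81bff35a5f482531e91f1e9b51a64924f26f85c69d5cadd1b0d22b57c6d747bfd66738aac7ddb7da21d9877f68a40625119f76657efec252169d9fc1303790e0684b5690eb0af0084556cf54bd6959d0d3f466662d01cc392 (k8 c21197 c20768 c713 c21277 c715 c2042 c21278 c716 (k8 c20598 c6008 c5519 c1906 c21279 c1285 c15516 c53 (k8 c17787 c21100 c5561 c1908 c12639 c1074 c21308 c439 (k8 c2627 c21075 c5358 c20666 c1073 c5433 c20692 c5452 (k8 c5353 c5404 c5442 c9734 c12632 c54 c9694 c5540 (k8 c5356 c440 c2073 c20488 c17828 c20492 c5506 c5414 (k8 c9719 c5532 c5586 c17131 c1768 c20829 c5585 c5582 (k8 c5509 c5505 c5533 c5415 c5412 c2617 c5534 c5521 (k8 c5335 c5334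 c5447 c4204 c3990 c5443 c5562 c5560 (k8 c5563 c12636 c9703 c3623 c5548 c2514 c5691 c18100 (k8 c12473 c20762 c20761 c21305 c21313 c21314 c21310 c2079 (k4 c4462 c2080 c3204 c21311 (k2 c4273 c3428 (k1 c5656 k0)))))))))))))) (by decide +kernel)
def c21316 : PP 9 3 T 0x24000000000000000000000200080000000000000010800000000000002000000000000000000000000000000000100004000008800000 := rS 0x182c3b3eb7cae6c3b62524f (k8 c5335 c5433 c2079 c4462 c2080 c5621 c3204 c21311 (k2 c4273 c3428 (k1 c5656 k0))) (by decide +kernel)
def c21317 : PP 9 3 T 0x10000000000000000100000000000000000000000000000000000000000000000000000000000000000080000000000000000000000000000000004020 := rS 0x104f8626cfa4c3c7eff1d299548f793342e36d2704020e4586fbb6e2901894464b57804227d5690cafdfd84a4fe09da21cef92f6bca76cc1c0d2959d0b0cc0e610d16b6758 (k8 c21100 c5404 c21277 c716 c20768 c713 c2042 c1073 (k8 c20598 c6008 c1074 c21308 c440 c20666 c439 c5540 (k8 c21197 c5356 c2073 c20488 c21075 c5358 c5433 c20692 (k8 c5452 c5353 c5561 c1908 c5442 c15516 c53 c17787 (k8 c12639 c9734 c12632 c54 c9694 c17828 c20492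 c5509 (k8 c5582 c21316 c21315 c2078 c2077 c5040 c5587 c715 (k8 c5359 c5562 c5343 c5563 c5341 c21300 c973 c2224 (k4 c21301 c21311 c5610 c5167 (k2 c21309 c5628 k0))))))))) (by decide +kernel)
def c21318 : PP 9 3 T 0x100000000000000000000000000000000000000000000000000000000000000000080000000000000000000000000000000004020 := rS 0x42707478f6e34b05c3df9caa7f241e36d270402164586fbb6fb4f6a1de4cc1c1349e49a508c5203ce82496258e94caa473e9fcae77c977f6633039855a43ac2bc02111a6c252160d4edfa5a (k8 c21277 c21278 c20666 c716 c1073 c5433 c20692 c1074 (k8 c15516 c53 c17787 c21100 c5561 c1908 c20768 c713 (k8 c2042 c5404 c5452 c21197 c5356 c5353 c5358 c5442 (k8 c5562 c5343 c5563 c5341 c12632 c12639 c21075 c20598 (k8 c54 c9694 c9734 c6008 c5334 c5335 c5521 c21308 (k8 c440 c439 c2073 c5540 c20488 c17828 c20492 c5509 (k8 c5582 c5587 c21315 c2078 c2077 c5040 c21316 c21317 (k8 c5470 c5622 c21303 c1379 c2508 c5389 c21258 c21301 (k4 c20777 c1080 c2678 c19800 k0))))))))) (by decide +kernel)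
def c21319 : PP 9 3 T 0x100000000000000000000000000000000000000000000000000000000000000000080000000000000000000000000000000000020 := rS 0x587b96bb7f94052303f6acd531555bfde886da52c1cfdd84a5ee340b2bd5a660d16b67df00e7676090890c8f583e9fcaf92 (k8 c21197 c5353 c5358 c5442 c21100 c5562 c5561 c15516 (k8 c21075 c20666 c20598 c53 c5452 c5404 c21277 c716 (k8 c715 c1908 c17787 c1073 c1074 c4481 c5433 c20692 (k8 c21278 c21318 c5329 c9737 c872 c873 c19573 c11079 (k8 c5414 c5531 c5532 c5499 c10690 c10333 c1927 c19555 (k4 c18003 c5548 c20492 c3623 (k1 c5506 k0))))))) (by decide +kernel)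
def c21320 : PP 9 3 T 0x4000000000000000000000080000000000000200000000000000000000000000000000040000000000000000000000000000000000010020000000040000 := rS 0x1afdf (k2 c5450 c1763 (k1 c21199 k0)) (by decide +kernel)
def c21321 : PP 9 3 T 0x1000400000000004000000000000000000000000000004000000000000001000000000004100000000000040000000000000000000000000000000008000 := rS 0x12a9bf06c2972955a6553b4 (k8 c9737 c5531 c5530 c5413 c19585 c5329 c5224 c5165 (k2 c5397 c5446 (k1 c18012 k0))) (by decide +kernel)
def c21322 : PP 9 3 T 0x800000000022000100000000000000000000000000000000000000001020000000000000000000000000000000020000000001000000000010040020 := rS 0x7c3a40b400e610190412111ed60fa7f2b9df2497 (k8 c21319 c21197 c5356 c5353 c5358 c5442 c21100 c5560 (k8 c15516 c21075 c12636 c54 c5445 c20822 c13565 c751 (k2 c1926 c12613 (k1 c494 k0)))) (by decide +kernel)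
def c21323 : PP 9 3 T 0x41000100000000000000000000000000000000000000000020000000001100001250000000000000000000000000000000000000048060 := rS 0x1db41369365257c69f0188c7a7d3f95e529d55a6553b41ab4fdf92ac1041211 (k8 c15516 c21075 c12636 c21100 c21197 c5506 c2085 c21320 (k8 c9737 c5531 c5530 c5413 c5412 c19585 c5353 c5358 (k8 c5442 c5560 c9734 c54 c15711 c17930 c5297 c9422 (k4 c1753 c1326 c18094 c12293 (k1 c1926 k0))))) (by decide +kernel)
def c21324 : PP 9 3 T 0x1000000000000004000100000000000000000000000000000000000000000000000000000000000000000000008000000000000000000000000008008020 := rS 0x3412a9b1b24c0db1ef33c6ad3387bc26b0649256a66f96dd9a5a81864079d20824ae77c925e529d8aa6552b30eab55e2508805faff23a4602f47baaf694b9dbcc8758 (k8 c21100 c5561 c20772 c20666 c5329 c9737 c5413 c2103 (k8 c5657 c1927 c10333 c5562 c19573 c1076 c53 c15516 (k8 c12632 c1077 c1908 c57 c5532 c5531 c5530 c5414 (k8 c5412 c19585 c21319 c21197 c5356 c5353 c21075 c12636 (k8 c20598 c54 c9701 c10690 c1921 c2073 c18003 c19555 (k8 c715 c5548 c5588 c2063 c3623 c475 c5506 c2180 (k8 c2085 c21320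 c2340 c21321 c21322 c21323 c1564 c871 (k4 c9848 c1905 c18094 c1482 k0)))))))) (by decide +kernel)
def c21325 : PP 9 3 T 0x1000000000000000000100000000000000000000000000000000000000000040000000000000000200000000004000000000000000000000000000008020 := rS 0x81a3fe48d381bf6fef789cc039d8e9b446b3da3fc8e9180bd2973b7990eb05b (k8 c872 c21100 c5561 c20772 c20666 c5329 c5657 c1927 (k8 c10333 c5562 c19573 c9737 c5532 c9734 c741 c5341 (k8 c20598 c53 c9719 c5811 c5506 c5421 c20792 c5666 (k4 c20438 c10427 c2874 c5550 (k1 c19658 k0))))) (by decide +kernel)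
def c21326 : PP 9 3 T 0x80000000000000020000000000000000000000000000000000000000000015000000000000000000150000000000000000000000000000000000000000000 := rS 0x206b555c5552b3 (k4 c5532 c5531 c5414 c5413 (k2 c5548 c5550 (k1 c3623 k0))) (by decide +kernel)
def c21327 : PP 9 3 T 0x41000000000000000000110000000000000000000000000000000000000015000000000000000000050000001000000000000000000000000000000008000 := rS 0x23a0513 (k4 c12622 c19555 c5675 c20799 k0) (by decide +kernel)
def c21328 : PP 9 3 T 0x1000000000000000000100000000000000000000000000000000000000000000000000000000000000000000000000000000000000000000000008008020 := rS 0xcdb22d21961f280a45e8ff7bbf55eadcecec4a110090c8f58a5bcd57b4 (k8 c9737 c5413 c20772 c5329 c21100 c5562 c5561 c53 (k8 c15516 c12632 c20666 c20598 c1908 c1077 c1076 c2103 (k8 c19573 c5657 c10333 c1927 c21327 c21326 c21325 c1921 (k2 c21324 c715 (k1 c5487 k0))))) (by decide +kernel)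
def c21329 : PP 9 3 T 0x1000000000000000000100000000000000000000000000000000000000000000000000000000000200000000000000000000000000000000000000008020 := rS 0x433d1ee49489111a70099bf6ef1398073b3b08c76b113a5bccb61b (k8 c21328 c716 c20772 c5329 c12622 c21100 c5341 c15516 (k8 c20666 c20598 c53 c9719 c5811 c5421 c20792 c318 (k8 c5666 c20438 c20834 c21269 c13198 c503 c5657 c21325 (k1 c1921 k0)))) (by decide +kernel)
def c21330 : PP 9 3 T 0x1000000000000000000100000000000000000000000000000000000000000040000000000000000000000000000000000000000000000000000000008020 := rS 0x1f356ec95e1d80bf522f47fbc73b3b12844024323d6296f354ed036b1 (k8 c21329 c21328 c9737 c5531 c20772 c5329 c21100 c5562 (k8 c5561 c53 c15516 c12632 c20666 c20598 c5811 c19573 (k8 c5657 c10333 c2338 c1927 c1998 c10145 c5649 c5490 (k2 c15208 c21327 k0)))) (by decide +kernel)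
def c21331 : PP 9 3 T 0x1000000000000001000100000000000000000000000000000000000000000000000500000400001000004000000000000000000000000002000000008020 := rS 0x3c29368064079d128440247ac52e52392be493a9959ed036f6 (k8 c21330 c21328 c9737 c5532 c5530 c5412 c21197 c5353 (k8 c393 c19585 c5329 c21100 c5562 c53 c15516 c12632 (k4 c20598 c54 c9701 c2105 (k2 c1566 c5459 (k1 c12933 k0))))) (by decide +kernel)
def c21332 : PP 9 3 T 0x1000800000000001000100000000000000000000000000000000000000000000000500000400001000004000000000000000000000000010000000008020 := rS 0x50059be9b030d8621901894220123d60af924ec5532b3da16c3633 (k8 c5492 c21328 c716 c9737 c5532 c5530 c5414 c5412 (k8 c21197 c5353 c21100 c5562 c53 c15516 c12632 c54 (k8 c9701 c21331 c20867 c20880 c2328 c2331 c714 c3620 (k1 c1068 k0)))) (by decide +kernel)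
def c21333 : PP 9 3 T 0x4000000000000004000000000000000000000000000000000000000000000000000000100000000110008000000000000000000000000000000000000000 := rS 0x15fb7 (k2 c5572 c2990 (k1 c5683 k0)) (by decide +kernel)
def c21334 : PP 9 3 T 0x1000000000000001000100000000000000000000000000000000000000000000000500000400001000004010000000000000000000000010000010008020 := rS 0x285be9b0b783be1901cec4a1100d2e529d8aa6567b4 (k8 c9737 c5532 c5530 c5414 c5412 c19585 c5329 c53 (k8 c15516 c12632 c20666 c54 c9701 c21332 c5165 c11149 (k4 c5536 c5538 c1068 c3620 k0))) (by decide +kernel)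
def c21335 : PP 9 3 T 0x100000000000000000000000000000000000000000000000000000000000000008000000010050000000000000000000000000000 := rS 0xdfb7 (k2 c5572 c2815 (k1 c5666 k0)) (by decide +kernel)
def c21336 : PP 9 3 T 0x1000000000000000000000000000000000000000000004000000000000000080000000000000000000000000000000000000000000000020000000008000 := rS 0x1e01d77e9729 (k4 c19585 c5329 c5450 c501 (k2 c5165 c5456 k0)) (by decide +kernel)
def c21337 : PP 9 3 T 0x1000000000000001000100000000000000000000000000000000000000000000000500000400001000004000000000000000000000000000000000008020 := rS 0x4a87765df948d5ed3b (k8 c20666 c21330 c21336 c19585 c21332 c5224 c5486 c5488 (k1 c21334 k0)) (by decide +kernel)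
def c21338 : PP 9 3 T 0x100000000000000000000000000000000000000000000000000000000000000008000000000000000000000000000000000000020 := rS 0x5c0c41048447b583e9fcaf92 (k8 c21197 c5353 c5358 c5442 c21100 c5560 c15516 c21075 (k4 c12636 c15711 c1465 c714 k0)) (by decide +kernel)
def c21339 : PP 9 3 T 0x1000000000000000000100000000000000000000000000000000000000000000000800000000000000000000000000000000000000000000000000008020 := rS 0x1151a134823f3b3b089e72513a5bccb61b (k8 c21328 c716 c20772 c5329 c12622 c21197 c5441 c15516 (k8 c20666 c20598 c2403 c13204 c476 c10035 c21269 c20834 k0)) (by decide +kernel)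
def c21340 : PP 9 3 T 0x1000000000000000000100000000000000000000000000000000000000000000000000000800000000000000000000000000000000000000000000008020 := rS 0x8bef4684ce06f01bc4e601cecec82090897f251379ca4b61b81bda3b58 (k8 c21100 c5341 c21330 c2195 c21328 c716 c19585 c20772 (k8 c12622 c21197 c5439 c15516 c21075 c12636 c20666 c20598 (k8 c53 c9719 c5811 c54 c20625 c8466 c318 c20438 (k2 c19004 c21264 (k1 c20834 k0))))) (by decide +kernel)
def c21341 : PP 9 3 T 0x200000000000000000000000010000000004000001000000000008000 := rS 0x2481478fe2639 (k4 c393 c12622 c3057 c2846 (k2 c1717 c17902 (k1 c476 k0))) (by decide +kernel)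
def c21342 : PP 9 3 T 0x1000000000000000000100000000000000000000000000000000000000000000000000000000001000000000000000000000000000000000000000008020 := rS 0xef8dfc2316f6cd2bb078cec8e9fa5ca53b1559ed1c2573ee487b582d86dc6cb (k8 c21340 c21339 c21328 c716 c21100 c5560 c21197 c5442 (k8 c5353 c21341 c9737 c5532 c5414 c5412 c19585 c5329 (k8 c21338 c5562 c20666 c5811 c21337 c5446 c18631 c6118 (k4 c9332 c5538 c2331 c20867 (k1 c5165 k0))))) (by decide +kernel)
def c21343 : PP 9 3 T 0x1000000000000000000100000000000000000000000000000000000000000000000000000000000000000000000000000000000000000000000000008020 := rS 0x8c22a4026ff47fcd685b7b2c4367300e742313 (k8 c12622 c15516 c20598 c53 c9719 c21328 c21329 c21330 (k8 c716 c21342 c5548 c2402 c2573 c476 c5675 c504 (k2 c20834 c10035 k0))) (by decide +kernel)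
def c21344 : PP 9 3 T 0x42005000000000041000000000000000000000000040000000100000000000000000140000000000005014150000000000000000000200100000001000000 := rS 0x331db55c4ca (k4 c5680 c5691 c1660 c8999 (k2 c390 c18109 k0)) (by decide +kernel)
def c21345 : PP 9 3 T 0x100000000000000000000000000000000000000000000000000000000002000000000000000000000000000000000000000008020 := rS 0x3bfb36ba07c5b133a555a4450b7d1bef3824026af37a3f6ff3789cc021901e7676090897cfe974fc4e960b949b4463955a6552b3da384ae7d1ed61fa5bf0b3d0e7968fb0ef92 (k8 c21197 c5356 c21343 c5501 c5441 c5499 c5543 c20854 (k8 c872 c5542 c21100 c5560 c5442 c5353 c21341 c9737 (k8 c5532 c5531 c5530 c5413 c393 c9734 c741 c19585 (k8 c150 c5329 c12622 c21338 c21319 c5358 c5439 c15516 (k8 c21075 c20666 c20598 c54 c9701 c53 c9719 c5811 (k8 c5548 c5422 c2402 c1149 c1248 c476 c5675 c5666 (k8 c19004 c10035 c2948 c2929 c20834 c2887 c5297 c21135 (k4 c20857 c21344 c5463 c5465 (k2 c20678 c20859 (k1 c5224 k0)))))))))) (by decide +kernel)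
def c21346 : PP 9 3 T 0x800000000001000100000000000000000000000000000000000000000000000000000000000000000010000000000000000000000000000000008020 := rS 0x1db3466350c80f3a0963a5e960b948e4aeab4caa7685bf0b3d0e7968fb0ef92 (k8 c21197 c5356 c21343 c5501 c5441 c5499 c5543 c20854 (k8 c872 c9737 c5531 c5530 c5413 c5353 c393 c19585 (k8 c150 c5329 c21319 c5357 c21075 c20598 c54 c9701 (k4 c5450 c5492 c5495 c20705 (k1 c18109 k0))))) (by decide +kernel)
def c21347 : PP 9 3 T 0x1000100000000000000000000000000000000000000000000000000000000000000000012000000000000000000200000000000048020 := rS 0x326a8edc5e3d977c32039d8242297a582e523955a6553b47095cfa3dac7859e873cb47d877f9b7cff92 (k8 c21197 c5358 c2948 c5589 c5356 c21343 c5501 c5441 (k8 c5499 c5543 c20854 c21100 c5560 c5442 c5353 c21341 (k8 c9737 c5531 c5530 c5413 c393 c19585 c150 c5329 (k8 c21319 c15516 c21075 c20666 c54 c9701 c21346 c5224 (k4 c20678 c5691 c8999 c1662 (k2 c18109 c390 k0)))))) (by decide +kernel)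
def c21348 : PP 9 3 T 0x4000000000000000000000000000000000000000000000000000000000000000000000000000000050004020100000044040000000000000000000000000 := rS 0x1c563b6 (k4 c5297 c2182 c5571 c20793 k0) (by decide +kernel)
def c21349 : PP 9 3 T 0x100000000000000000000000000000000000000000000000000000000000000000002100000000000000000000000000000048020 := rS 0x362953797cef924ba7e2bb4f7d615aaf12bc676670e91022730096d0fec (k8 c21343 c5499 c872 c53 c9719 c15516 c20834 c21272 (k8 c20694 c20666 c5811 c12632 c10145 c2887 c21100 c19004 (k8 c9737 c5414 c21338 c21319 c21197 c5356 c5439 c3038 (k2 c21348 c20857 (k1 c21347 k0))))) (by decide +kernel)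
def c21350 : PP 9 3 T 0x100000000000000000000000000000000000000000000000000000000000000000000100000000000000000000000000000048020 := rS 0xe06f476dd6103f92455e1d56911e2739d894220189d2d571554acf68f780bf5ffefac16d0fec (k8 c21343 c5499 c872 c21100 c19004 c5544 c5542 c5502 (k8 c5498 c9737 c5532 c5531 c5414 c5413 c5329 c12622 (k8 c53 c15516 c12632 c20666 c9719 c5811 c20834 c2887 (k8 c21272 c10145 c21349 c20710 c5550 c21326 c18003 c20762 (k2 c20792 c5666 (k1 c2874 k0)))))) (by decide +kernel)
def c21351 : PP 9 3 T 0xa0000110000000000000000000000000000000000400015000000000000000000050000001000000000000000000000000000000000000 := rS 0x47fce04b155c5552b3 (k8 c5532 c5531 c5414 c5413 c5421 c18003 c21326 c20799 (k1 c5675 k0)) (by decide +kernel)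
def c21352 : PP 9 3 T 0x100000000000000000000000000000000000000000000000000000000000000000000000000000000000000000000000010048020 := rS 0x1b258f7f626e4aedcceafce894229f89ed253017ebfd6bef48ab5967146476b13b2da1fd8f139804bf92 (k8 c21197 c5439 c53 c9719 c5811 c21343 c5499 c872 (k8 c20666 c21100 c5341 c21350 c20438 c8466 c2031 c10035 (k8 c19004 c21345 c5544 c5542 c5502 c19585 c9737 c12622 (k8 c21338 c15516 c12632 c20598 c10145 c20694 c21351 c5297 (k4 c5666 c19997 c21346 c20792 (k2 c5224 c19561 k0)))))) (by decide +kernel)
def c21353 : PP 9 3 T 0x100000000000000000000000000000000000000000000000000000000000000000000000000000000000000000000000000048020 := rS 0x11ff381115ea1c24a45187300e748f5889bcd53b47bc05ffec (k8 c21343 c5544 c5502 c5498 c9737 c5531 c20772 c12622 (k8 c21100 c5562 c20598 c53 c9719 c21350 c10035 c13198 (k4 c21352 c1998 c21272 c18038 (k2 c5550 c20799 (k1 c5675 k0))))) (by decide +kernel)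
def c21354 : PP 9 3 T 0x100000000000000000000000000000000000000000000000000000000000000000000000000000000000000000000000000008020 := rS 0x1b3d8c0d6291471b8e2125af85fecf68a1defecda0369603ce8940241048447a47ac1e4ef92 (k8 c21197 c5356 c5441 c21100 c5562 c5560 c15516 c21075 (k8 c12636 c53 c12632 c20598 c54 c5329 c151 c9737 (k8 c21343 c5498 c5499 c5501 c5543 c5544 c20854 c21345 (k8 c21353 c2869 c318 c476 c3037 c20792 c20799 c20707 (k2 c19561 c20706 k0))))) (by decide +kernel)
def c21355 : PP 9 3 T 0x20000100000000000000000000000000000000000000004000000000000000000000000000800000000000000000000000000010080020 := rS 0x7eabde33b128443f1513126940fceab5626e81c056a7300aad52b3 (k8 c5532 c5531 c5413 c53 c9719 c2402 c20800 c20799 (k8 c318 c20792 c20758 c20598 c21354 c6008 c5334 c317 (k8 c3046 c5517 c15516 c12632 c20666 c5811 c10145 c20237 (k1 c3623 k0)))) (by decide +kernel)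
def c21356 : PP 9 3 T 0x21000100000000000000000000000000000100000000000000000000000000000000000004800000000000000000000000000000080020 := rS 0x1e350a6c339d2ba7d96710197f6e265a9cc02e13eb8cf392 (k8 c21197 c5441 c2403 c5442 c2846 c53 c9719 c2402 (k8 c317 c5570 c5439 c54 c2869 c8466 c21338 c5353 (k4 c20598 c9701 c9848 c2928 (k2 c19797 c5680 k0)))) (by decide +kernel)
def c21357 : PP 9 3 T 0x4000000000000025000100000000000000000000000000000100000000000000000000000000000000000000800000000000000000000010000000080020 := rS 0x1c2e9219f7a7625088055a6e (k8 c318 c20758 c53 c15516 c12632 c20666 c5224 c5492 (k4 c21356 c55 c1564 c20716 k0)) (by decide +kernel)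
def c21358 : PP 9 3 T 0x20000100000000000000000000000000000000000000004000000000000000000000000000800000000000000000000000000000080020 := rS 0xc9aa313301dbc9530b2760cdf79125286798d4b7b30e03566214e824964323d60ae774bbdc16f5659c4065f8a898934a07e7607015a9cc02e13eb8cf392 (k8 c21197 c5441 c2403 c5442 c2846 c53 c9719 c2402 (k8 c20800 c20799 c20598 c21354 c6008 c5334 c317 c3046 (k8 c5439 c54 c2869 c8466 c5519 c5516 c5333 c21319 (k8 c5356 c5353 c21100 c5562 c5561 c12639 c21075 c5412 (k8 c5528 c5532 c315 c21355 c5486 c1995 c332 c333 (k8 c20722 c20850 c18038 c19710 c2073 c21357 c5396 c5445 (k8 c5446 c6118 c713 c20913 c1996 c3003 c20775 c390 k0))))))) (by decide +kernel)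
def c21359 : PP 9 3 T 0x400000000002000100000000000000000000000000000000000000004004000000400000000001000000800000000000000000000000000020080020 := rS 0x6b36a7166df69abbde448892c871dac3d596710197f6f1513126940fceab4dd0380ad4e601709f5c679c96d46a97 (k8 c21319 c332 c21358 c21197 c5441 c2403 c5442 c2846 (k8 c53 c9719 c2402 c20800 c20799 c318 c20758 c20598 (k8 c21354 c6008 c5334 c317 c3046 c5570 c5439 c54 (k8 c2869 c8466 c5519 c21100 c5341 c5561 c12639 c9730 (k8 c16402 c19710 c336 c2937 c12713 c2993 c6118 c2432 (k2 c1135 c5665 k0)))))) (by decide +kernel)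
def c21360 : PP 9 3 T 0x2000100000000000000000000000000000000000000004000000000000000000000000000800000000000040000000000000000080020 := rS 0xb36fa75f8cef6bc9afdf190d556310e06ccc07d9a54c2c978c76b0573ba5deecb3880cbf15131255a6e5a9cc02e13eb8cf39254d281f9d (k8 c20598 c21354 c6008 c21192 c21197 c5441 c2403 c5442 (k8 c2846 c53 c9719 c2402 c318 c20758 c5334 c317 (k8 c3046 c5439 c54 c2869 c8466 c5333 c21319 c5356 (k8 c5353 c21100 c5341 c5811 c5396 c5445 c5446 c18631 (k8 c713 c20913 c1902 c20694 c9332 c2121 c332 c20880 (k8 c5492 c2185 c21359 c5540 c388 c334 c10719 c2564 (k2 c2557 c6118 k0))))))) (by decide +kernel)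
def c21361 : PP 9 3 T 0x1001000000000015000000080000000000000000000000000000000000000000000000000100000000000100000000000000000000000014000200002020 := rS 0x1d249a1c006765f (k8 c5439 c20666 c53 c15583 c9046 c2491 c1564 c20487 k0) (by decide +kernel)
def c21362 : PP 9 3 T 0x800000000001000100000000000000000000000000000100000000004000000040010000000400001500800000000000000000000010000000080020 := rS 0x385d25ef503584a114fb2ce2032fc544c49a503f3aad3740e02b539805c27d719e724cf6a8cd9ad3 (k8 c5496 c5495 c5492 c5454 c5453 c21197 c5441 c2403 (k8 c5442 c2846 c53 c9719 c2402 c20800 c20799 c318 (k8 c20758 c20598 c21354 c6008 c5334 c317 c3046 c5439 (k8 c54 c2869 c8466 c21338 c15516 c12632 c3627 c3620 (k4 c5507 c2928 c1068 c1564 (k1 c20716 k0)))))) (by decide +kernel)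
def c21363 : PP 9 3 T 0x100000000000000000000000000000000000000004008000000000000000000000000800000000000040000000010000020080020 := rS 0x6f26da3e0061a932b336a75f820f6c440297569bb6aa955bde940fceb3c66c9ef6cf633b94824ef92 (k8 c21197 c5356 c21075 c20850 c20666 c21360 c5486 c5224 (k8 c5494 c5492 c5453 c20598 c21354 c6008 c5333 c2121 (k8 c21192 c21358 c318 c20758 c21319 c53 c9730 c5540 (k8 c333 c334 c10719 c20782 c2557 c2554 c5665 c2371 (k4 c21361 c5459 c5536 c21362 (k1 c5538 k0)))))) (by decide +kernel)
def c21364 : PP 9 3 T 0x800000000001000100000000000000000000000000000100000000004000000000000000000400000400800000000000000000000010000000080020 := rS 0x1a2dff0274be99351b73b1100ed4f392 (k8 c21197 c5441 c21358 c53 c9730 c20598 c2432 c5665 (k4 c2373 c5439 c1135 c5679 (k2 c13097 c5459 (k1 c21362 k0)))) (by decide +kernel)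
def c21365 : PP 9 3 T 0x100000000000000000000000000000000000000004000000000000000000000000000800000000000040000000010000020080020 := rS 0xe174d2cd5def223cc67ded9cec96250890e3b587aedc4cad3740e02b5398076aa9a503f3bb194824ef92 (k8 c21197 c5356 c21075 c20850 c21360 c20598 c21354 c6008 (k8 c21192 c21358 c53 c9719 c2402 c20800 c20799 c318 (k8 c20758 c317 c5570 c5519 c21100 c5341 c5561 c15516 (k8 c12632 c12639 c20666 c5486 c5224 c5492 c21363 c16402 (k4 c19710 c336 c2993 c21364 (k2 c17703 c714 (k1 c20716 k0))))))) (by decide +kernel)
def c21366 : PP 9 3 T 0x15000100000000000000000000000000000000000000000000000000000100000000000000000000000000000000000000000010080020 := rS 0x30353a924d9ad40aaf1fb5afee0d026b0c73c95d3e3b058dd9671019ccbf92dbc544c49a503f3aad589b95e2508805e33b (k8 c20666 c5811 c53 c15516 c12632 c10145 c318 c20792 (k8 c20758 c20598 c21354 c6008 c5334 c317 c3046 c5570 (k8 c21197 c5439 c9719 c54 c2869 c8466 c5518 c5516 (k8 c5332 c21338 c5353 c5441 c5357 c21100 c21075 c5649 (k8 c5683 c5507 c14774 c20829 c19296 c5680 c20805 c1189 (k4 c2928 c1277 c316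 c16784 (k1 c1564 k0))))))) (by decide +kernel)
def c21367 : PP 9 3 T 0x800000000011000100000000000000000000000000000100000000000000000000000000000000000000000000000000000000000010000010080020 := rS 0x6b78942930325764c919b553ecb3880ce65fc96dc4cad589b95e2508805e33b (k8 c20666 c5811 c53 c15516 c12632 c10145 c318 c20792 (k8 c20758 c317 c5570 c21197 c5439 c9719 c54 c2869 (k8 c8466 c21338 c5454 c5492 c5494 c21366 c5488 c20486 (k4 c1564 c2928 c5680 c18008 (k1 c5465 k0))))) (by decide +kernel)
def c21368 : PP 9 3 T 0x100000000000000000000000000000000000000004000000000000000000000000000800000000000040000000010000000080020 := rS 0xd5180cde4873633cd69c06f8470df1fb5fc49950a6c2c95d977cceaf0eca5e3110ccec4a41048447b583ba5d3e3b7b92416377ad281f9d659c406730097f6e2656ac4dce13ee4b6bb1 (k8 c21360 c21358 c21197 c5442 c2846 c318 c20792 c20758 (k8 c317 c5570 c5439 c53 c9719 c54 c2869 c8466 (k8 c20598 c21354 c6008 c5519 c5518 c5516 c5334 c5333 (k8 c5332 c21338 c21319 c5356 c21100 c5560 c15516 c21075 (k8 c12636 c12632 c20666 c9701 c9730 c5811 c20850 c21365 (k8 c10145 c20694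 c21367 c5224 c5488 c11149 c17703 c1068 (k8 c1463 c5680 c5465 c5576 c5580 c17960 c5534 c9046 (k8 c5679 c1135 c10444 c5665 c744 c20774 c388 c5653 (k2 c1475 c8160 k0))))))))) (by decide +kernel)
def c21369 : PP 9 3 T 0x8000000000008000100000000000000000000000000000000000000004000000000000000000000000000800000000000040000000000000000080020 := rS 0x2cd569a494a470df318640641048448f581bc5492b137384fb92f96d76e26d88cc0ed11dd281f9d4a8c5e33b338746897 (k8 c21319 c21368 c332 c20694 c20666 c5811 c119 c10191 (k8 c20598 c21354 c6008 c5332 c1704 c20806 c120 c21360 (k8 c317 c5570 c21358 c5241 c21197 c5442 c2846 c318 (k8 c20792 c5334 c3046 c5518 c21100 c5562 c15516 c21075 (k8 c12636 c54 c9701 c9754 c5580 c17960 c19019 c20933 (k4 c325 c1190 c2496 c17868 k0)))))) (by decide +kernel)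
def c21370 : PP 9 3 T 0x80000000000000008000000000000000000000000000000000000001000004000000000010000000100004800000000000000000000000000000000000000 := rS 0x166ab (k2 c1190 c2497 (k1 c17868 k0)) (by decide +kernel)
def c21371 : PP 9 3 T 0x8000100000000000000000000000000000000000000004000000000000000000000000000800000000000040000000000000000080020 := rS 0x166ab35031369d5078c12c73c95d3e0b1bb2ce20339804bf928a925626ef96d76e26d881da2341dd281f9d (k8 c20598 c21354 c6008 c5332 c21368 c1704 c20806 c21360 (k8 c317 c5570 c21358 c5241 c318 c20792 c5334 c3046 (k8 c21197 c5439 c53 c9719 c54 c2869 c8466 c5518 (k8 c5516 c21338 c5353 c5441 c5357 c21075 c21369 c5680 (k4 c1277 c21370 c16784 c316 (k2 c20805 c2378 (k1 c17868 k0))))))) (by decide +kernel)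
def c21372 : PP 9 3 T 0x100000000000000000000000000000000000000004000000000000000000000000000800000000000040000000000000000080020 := rS 0xf17ba51b357875afdf1a6c5e33b12804820908e492fb7132b5626e (k8 c318 c20792 c20758 c317 c5570 c21319 c21197 c15516 (k8 c21075 c12636 c53 c12632 c20666 c5811 c21360 c21368 (k8 c5450 c1763 c332 c10145 c21371 c5224 c5683 c19025 (k1 c20829 k0)))) (by decide +kernel)
def c21373 : PP 9 3 T 0x100000000000000000000000000000000000000004000000000000000000000000000800000000000000000000000000000080020 := rS 0x19be167b47beaa0681da5edd87b993b354abdfa330e998345adac041211ac31cf2573ba5c16377ad281f9d659c406730097f25b7132b5626e (k8 c318 c20792 c20758 c317 c5570 c21197 c5439 c53 (k8 c9719 c54 c2869 c8466 c20598 c21354 c6008 c5519 (k8 c5518 c5516 c21319 c5356 c5353 c5441 c5357 c21100 (k8 c15516 c21075 c20800 c21358 c21372 c716 c715 c1995 (k8 c2041 c21278 c17787 c1906 c5487 c2063 c5683 c21366 (k8 c14774 c8156 c20822 c17806 c5682 c5496 c2135 c21279 (k2 c18042 c2075 (k1 c5688 k0)))))))) (by decide +kernel)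
def c21374 : PP 9 3 T 0x1001400000000040000000000000000000000000000000000000001000000000000000084100000008000000000000008000000000000000000000000000 := rS 0x1a1015ab376aad (k4 c20758 c5413 c2075 c4035 (k2 c15060 c5688 (k1 c2135 k0))) (by decide +kernel)
def c21375 : PP 9 3 T 0x1020000000000066000100000100000000000000000000000000040014020000000010000000000000000000000008000080000000100000000008000020 := rS 0xf8d9db587bfe93738b6cea6764b21c74a65523d631f793be48924f26d281f9d51a953661 (k8 c5445 c5397 c5399 c5449 c20598 c21354 c6008 c5521 (k8 c5335 c5334 c21197 c5356 c5359 c5443 c21100 c5562 (k8 c5343 c5563 c5341 c5561 c12639 c20666 c5469 c5621 (k8 c1001 c21312 c21258 c5389 c2224 c20744 c21311 c5627 (k1 c5230 k0))))) (by decide +kernel)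
def c21376 : PP 9 3 T 0x41004400000000066000100000000000000000000000000000010040014020000000440002000000000001001500008000000080000100000000000000020 := rS 0xedfbb624cdb87bbfe18dd4d9f49878fdffcb8975a02fb3b2590e3a532a91eb18f51a6d32b95bca624e0f081d2e033b874025705b1c6e0d333f5521a7ad2b3a0f049e724dd (k8 c4573 c21197 c5441 c21075 c21354 c20598 c6008 c5519 (k8 c716 c1906 c21278 c715 c17806 c5518 c5357 c5516 (k8 c5353 c53 c1995 c5356 c54 c21319 c20822 c18042 (k8 c5691 c5675 c9578 c5533 c5415 c5447 c5397 c5449 (k8 c5443 c21100 c5562 c5343 c5563 c5341 c5561 c12639 (k8 c20666 c9703 c6202 c21298 c21305 c21375 c21300 c973 (k8 c2224 c21301 c21311 c5388 c5611 c5167 c1834 c5515 (k4 c5627 c20753 c20860 c5637 (k2 c3486 c5693 k0))))))))) (by decide +kernel)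
def c21377 : PP 9 3 T 0x40011400000000024000100000000000000000000000000000100040000020000000050080000000000000000000104000000080000000000000000080020 := rS 0xeffbc3dd7f0c6e275367d261e3f7f9d92c871d299548f8fbc9f4fe77929991b0d22c2fdb58a503f3be3c935fdcaf0d00422addb899626e (k8 c318 c20792 c317 c5570 c20758 c15516 c53 c716 (k8 c17787 c5683 c5507 c21197 c20829 c20598 c21354 c6008 (k8 c21100 c14774 c5587 c5582 c5509 c5505 c715 c5013 (k8 c5356 c5358 c5442 c5359 c5443 c5562 c5343 c5563 (k8 c5341 c5561 c12639 c20666 c21300 c973 c2224 c21301 (k8 c21311 c5388 c5610 c5611 c5167 c21242 c5515 c9954 (k2 c3113 c21223 k0))))))) (by decide +kernel)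
def c21378 : PP 9 3 T 0x6012000080000000000400000000004000000000000000000000011000000000000000000000000000000000000000000000000000000 := rS 0x7c1b5b9bfe3ef277 (k8 c5356 c5359 c5443 c5389 c8905 c20744 c5230 c5627 k0) (by decide +kernel)
def c21379 : PP 9 3 T 0x20000000000222000000080000000000000000000000000000000000000000010000000000000000001000000000000800000000000000000000000020 := rS 0x310e6c5aef1ea352a6cc2995cadd4ee5 (k8 c5622 c5470 c5533 c5415 c5447 c5445 c5397 c5399 (k4 c5449 c5443 c5430 c2657 (k2 c3621 c21312 (k1 c3255 k0)))) (by decide +kernel)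
def c21380 : PP 9 3 T 0x6000100000000000000000000000000000000000000004000000000000000000000000001000000000000080000000000000000080020 := rS 0xd6d9a43a4dcb6583a9f2204d47b8db75c100f9ba5e4e36fb30703f6885c6929368853bb4558c7c2cfefb480e994a98536a149bc4466388cec124b21c74a65523b1f1f793c95d2e9f1d93c163726b2cbf1524c95668f399c4061d19b24ee8d81c348ad585f8f24d706fb7dcaf008455bb7132c4dd58333f5521a7ad281f9d (k8 c20598 c21354 c6008 c5519 c716 c1906 c21278 c715 (k8 c21100 c318 c20792 c317 c5570 c20758 c15516 c53 (k8 c17787 c5683 c14774 c17806 c5507 c21197 c20829 c5587 (k8 c5585 c5582 c5509 c5508 c5505 c5356 c2063 c2041 (k8 c1995 c54 c2869 c9719 c21373 c8280 c5013 c5334 (k8 c3046 c5439 c8466 c5521 c5518 c5516 c5335 c5332 (k8 c21338 c21319 c5353 c5441 c5359 c5443 c5357 c5562 (k8 c5343 c5563 c5341 c5561 c12639 c21075 c20666 c9730 (k8 c9754 c9734 c5811 c5444 c5398 c5397 c5445 c5446 (k8 c5447 c20822 c9617 c18008 c21279 c18042 c1918 c21374 (k8 c19296 c10719 c5528 c5529 c9578 c9931 c1619 c1704 (k8 c441 c17923 c15161 c21247 c2618 c439 c4770 c17766 (k8 c12473 c5691 c4573 c5040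 c21376 c3598 c1716 c21377 (k8 c5469 c5618 c5621 c21379 c21258 c5606 c21378 c5602 (k1 c17985 k0))))))))))))))) (by decide +kernel)
def c21381 : PP 9 3 T 0x4000100000000000000000000000000000000000000004000000000000000000000000001000000000000080000000000000000080020 := rS 0x5ac05c7e13d01c721770a49322155a8252d3da6c41be3f6c0dafee64aa55efd0e998340912846b0c73c95cee974f8ec16377ab2cbf92dbc544c49a503f3aad589b9668f39804e203 (k8 c54 c2869 c53 c9719 c21373 c8280 c318 c20792 (k8 c20758 c20598 c21354 c6008 c5334 c317 c3046 c5570 (k8 c21197 c5439 c8466 c5519 c5518 c5516 c5332 c21338 (k8 c21319 c5356 c5353 c5441 c5357 c21100 c15516 c12632 (k8 c21075 c716 c715 c1995 c21278 c17787 c1906 c2063 (k8 c5683 c5507 c5508 c14774 c20829 c17806 c21380 c21366 (k8 c13297 c19025 c5680 c5413 c5528 c5530 c2928 c4984 (k8 c1068 c324 c1564 c18057 c18042 c1776 c9158 c1200 (k1 c3623 k0))))))))) (by decide +kernel)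
def c21382 : PP 9 3 T 0x25000000080000000000000000000000000000001000054000000000005400000401004000000000008000000000000000009048000000 := rS 0xd070a1cf6a06fc4bc6d7f9ad3dcfd57b1cf277dbab562ab (k8 c5413 c20792 c20758 c5570 c5356 c5441 c5357 c1077 (k8 c1075 c5683 c3623 c21326 c5507 c20829 c1149 c2515 (k4 c5680 c17871 c959 c4984 (k2 c20853 c8355 k0)))) (by decide +kernel)
def c21383 : PP 9 3 T 0x4000000000000001000000000000000000000000000000000100000000000000000000000000000000020000000000000000000000000014001000080020 := rS 0x1c2e92008995a6e (k8 c318 c20758 c317 c53 c2928 c1068 c1564 c20716 k0) (by decide +kernel)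
def c21384 : PP 9 3 T 0x1000000000000025000100000000000000000000000000000000000000054000000000000000000001000000000000000000000000000000000000080020 := rS 0x921c269bfe250fbdc2e35abcfe41c0dbc4324b12904121121d60ae9f1bbd4dccb2f8d59e3366f7a52210fede2a2624a653ab3479cc027101e48da3ba503f3b3b (k8 c20666 c20598 c21354 c6008 c5332 c5529 c21197 c54 (k8 c2869 c53 c9719 c21373 c8280 c5412 c5530 c5334 (k8 c317 c3046 c5570 c5517 c5528 c18119 c5224 c5495 (k8 c5492 c5453 c5450 c5439 c8466 c318 c5519 c5518 (k8 c21338 c5353 c21100 c5561 c15516 c21075 c12636 c12632 (k8 c12639 c9701 c5811 c21382 c5649 c9331 c333 c5548 (k8 c5549 c5591 c19710 c21383 c5680 c14125 c3620 c17960 (k2 c9848 c324 k0)))))))) (by decide +kernel)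
def c21385 : PP 9 3 T 0x25000100000000000000000000000000000000000000004000000000000000000000000001000000000000000000000000000000080020 := rS 0x68a1dc280f1b5d1a7bf7449beaff9c01a6cd67f7a07ed94835326d10a76764b639f4f27f3ba7c761f7b82deacb2fe4b6f15131255ab1372cd1e73009c406a92dd281f9d (k8 c20598 c21354 c6008 c21381 c21192 c54 c2869 c53 (k8 c9719 c21373 c8280 c318 c20792 c20758 c5334 c317 (k8 c3046 c5570 c21197 c5439 c8466 c5519 c5516 c5333 (k8 c5517 c5332 c21338 c5356 c5358 c5441 c5442 c5357 (k8 c12639 c20666 c5412 c5528 c5529 c5530 c315 c18119 (k8 c20874 c21152 c5224 c5453 c5495 c5496 c21384 c5592 (k8 c3070 c2952 c19568 c5683 c17871 c5505 c5507 c20829 (k4 c20821 c1716 c958 c8355 (k1 c20770 k0))))))))) (by decide +kernel)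
def c21386 : PP 9 3 T 0x4000000000015000100000000000000000000000000000000000000000000000000000000000000000000000000000000040000000000000000080020 := rS 0x180700e331a85d25de504a676250895d3ecb3880ce6012fe4b6e26 (k8 c317 c5570 c21197 c5439 c53 c9719 c54 c2869 (k8 c8466 c21338 c5353 c15516 c12632 c20666 c19025 c5680 (k8 c5224 c2928 c1068 c5450 c5492 c1564 c21367 c20880 (k1 c1997 k0)))) (by decide +kernel)
def c21387 : PP 9 3 T 0x5000100000000000000000000000000000000000000004000000000000000000000000001000000000000000000000000000000080020 := rS 0x1c2e9a4ca75f9ed6833466d51aaafbccff0aba527a1c7bdbed36ba07c50170c0dc713f96d6762500904121123d60f3924b8ec6fb78a89892ad589b91ea92dd281f9d (k8 c20598 c21354 c6008 c21381 c21192 c21373 c318 c20792 (k8 c20758 c5334 c317 c3046 c5570 c5518 c5332 c21319 (k8 c21197 c5441 c21100 c5562 c15516 c21075 c12636 c53 (k8 c12632 c20666 c21385 c5241 c5547 c5549 c5550 c5591 (k8 c5592 c21386 c5463 c5465 c5579 c5580 c20829 c17960 (k8 c17983 c19019 c5683 c5534 c20767 c5224 c1286 c5450 (k8 c5454 c5492 c5495 c3627 c5501 c5682 c10719 c2554 (k4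 c5679 c17703 c714 c20716 k0)))))))) (by decide +kernel)
def c21388 : PP 9 3 T 0x400000000000000100000000000000000000000000000100000000000000000000010000000000000000000000000000040000000000000120000060 := rS 0x38f0bcc1a09639e4ae77c90ec16377ad281f9d (k8 c20598 c21354 c6008 c5519 c5518 c5516 c5332 c21197 (k8 c5356 c5353 c5441 c5357 c21075 c315 c333 c18042 (k2 c21235 c20879 k0))) (by decide +kernel)
def c21389 : PP 9 3 T 0x40000000000000220005020 := rS 0x1acdb110082deaab7bd2b3bb5 (k8 c5528 c20598 c6008 c5333 c2121 c5519 c5516 c53 (k4 c9730 c20894 c2371 c5665 k0)) (by decide +kernel)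
def c21390 : PP 9 3 T 0x4000100000000000000000000000000000000000000004000000000000000000000000001000000000000000000000000000000080020 := rS 0x799159ed56f274d40c70c0dc701f92d76a2068f7c643518870366603ca52a6149ec0b6f10492c8f582b9dd2ef705bd5965fc96de2a2624d281f9d569b9668f39804e203 (k8 c54 c2869 c53 c9719 c21373 c8280 c318 c20758 (k8 c20598 c21354 c6008 c5334 c317 c3046 c5570 c21197 (k8 c5439 c8466 c5519 c5516 c5333 c21319 c5356 c5353 (k8 c21100 c5562 c12639 c21075 c5811 c21381 c21387 c5444 (k8 c5445 c5446 c19549 c713 c20857 c1902 c20694 c9332 (k8 c332 c20775 c5492 c9505 c21388 c5528 c2608 c5241 (k8 c15060 c5549 c5550 c5591 c21389 c316 c1135 c6118 (k4 c3002 c2564 c390 c388 (k1 c18038 k0))))))))) (by decide +kernel)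
def c21391 : PP 9 3 T 0x51000100000000000000000000000000000000001000000008000000000400000400000410000000000040000000000000000000001060 := rS 0x4a466df67a4d429c318640641048448f58639e4af924b8ec1637a503fe59d (k8 c20598 c5241 c21354 c6008 c5518 c5516 c5332 c21319 (k8 c21197 c5353 c5441 c5357 c21100 c5562 c15516 c21075 (k8 c12636 c54 c9701 c9754 c16784 c1277 c1694 c10444 (k4 c14125 c388 c19019 c20933 k0)))) (by decide +kernel)
def c21392 : PP 9 3 T 0x10000100000000000000000000000000000000000000004000000000000000000000000001000000000000000000000000000000080020 := rS 0xc3bed419b259e9c3d35d02dff126542cd0b24c6b290334d18f243a6c1a6c35aaa02e181b8d6b13f9446763dac31cf2774ba7dee0b1bbd5965fdbc544c49a503f3aad589b9668f39804e203578752bb1c916ccfb2 (k8 c21390 c5487 c715 c21197 c18631 c5488 c5486 c5406 (k8 c54 c2869 c53 c9719 c21373 c8280 c318 c20792 (k8 c20758 c20598 c21354 c6008 c5334 c317 c3046 c5570 (k8 c5439 c8466 c5519 c5518 c5516 c5333 c21338 c21319 (k8 c5356 c5441 c5357 c21100 c5560 c20666 c9730 c5241 (k8 c5547 c5548 c5549 c5550 c5591 c5592 c17868 c20805 (k8 c20861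 c316 c2492 c744 c20774 c20819 c2083 c21391 (k8 c5432 c20806 c1564 c714 c2501 c2928 c1463 c5680 (k8 c14125 c5463 c5465 c17983 c3620 c20767 c1276 c388 (k4 c3618 c21367 c5653 c1475 k0)))))))))) (by decide +kernel)
def c21393 : PP 9 3 T 0x100000000000000000000000000000100000000020000000000440400000150010014000000000000000000000014000000000020 := rS 0x6ab259e1901ced2e9f1bd281f9d (k8 c20598 c21354 c6008 c5518 c21338 c21319 c20666 c54 (k4 c9701 c20518 c10198 c3073 (k1 c3618 k0))) (by decide +kernel)
def c21394 : PP 9 3 T 0x1000100010004000000400000000000000100400000000000140000000000000000000000000100008040000000000008008010000020 := rS 0xb7eaf5f47160adb2c15f7917bf7dce36437fd4e904a1100e3ef27d3fe4b6e5b (k8 c715 c5570 c21197 c5358 c5442 c5359 c5443 c53 (k8 c15516 c12632 c6187 c5388 c5389 c5606 c5611 c20789 (k8 c17992 c2821 c5227 c21064 c5618 c5621 c1105 c3101 (k4 c391 c2049 c722 c360 (k1 c20776 k0))))) (by decide +kernel)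
def c21395 : PP 9 3 T 0x210001000100040000000000000000000000000000000050000000000004000004410000100000000080400000001000000080100000a0 := rS 0x1b96fefd9865008ffbdd63f76b5d02d3f130d42600b24c6a018ed613ead58aae521fdbc5492994ee48da3bf6bdc16f581834425ba503f3a4b (k8 c12639 c20598 c21354 c6008 c715 c5528 c315 c21152 (k8 c5519 c5516 c5333 c20874 c5332 c5529 c21197 c5412 (k8 c5530 c5334 c3046 c5570 c5517 c18119 c5413 c20792 (k8 c20758 c21338 c21100 c5341 c53 c20806 c1564 c714 (k8 c713 c2928 c4319 c5680 c14519 c5463 c5465 c5467 (k8 c5576 c5581 c20829 c18029 c9179 c21393 c21394 c5492 (k2 c5349 c20725 (k1 c2228 k0)))))))) (by decide +kernel)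
def c21396 : PP 9 3 T 0x100000000000000000000000000000000000000004000000000000000000000000001000000000000000000000000000000080020 := rS 0x7bdd63f76b39ba81f13c834d16b8c82ca1efb2126e35a184706a03914f703f6c4a520df9a64da2155a77685bd8e4552953387706fd57ec9668f58c576ecb37098e2633980432039d824971dac17d8e793f95cef924ba7c761f7b92416377ad281f9d (k8 c20598 c21354 c6008 c5519 c5518 c5516 c5334 c5333 (k8 c5517 c5332 c21338 c21319 c21197 c5356 c5353 c5358 (k8 c5441 c5357 c5439 c21100 c5341 c12639 c21075 c20666 (k8 c54 c9701 c53 c9719 c9754 c2869 c317 c318 (k8 c8466 c5570 c3046 c20792 c21373 c8280 c21390 c5406 (k8 c5405 c5407 c5486 c5487 c5488 c5489 c5491 c18631 (k8 c715 c21392 c5412 c5413 c5528 c5529 c5530 c15208 (k8 c315 c18119 c5675 c20874 c21152 c17871 c9612 c21395 (k8 c18120 c21263 c18114 c2600 c2617 c324 c20236 c20920 (k8 c1200 c5648 c20938 c2190 c2133 c1064 c20879 c5680 (k8 c14518 c4567 c388 c5467 c5576 c5581 c20829 c20726 k0))))))))))) (by decide +kernel)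
def c21397 : PP 9 3 T 0x61000100000000000000800000080000000000100000000000140010000004000000000000000000000000040000004008000000800000 := rS 0x47fbe45 (k4 c389 c5492 c5345 c20725 k0) (by decide +kernel)
def c21398 : PP 9 3 T 0x48000100000000000000400000000000000100400000000000140000000000000000000000000100008000000000000008000008000020 := rS 0x2dfabd7d1c56d960afbc8bdfbee71b21bfea74825088071f793e9ff0791d8e48b667 (k8 c5487 c715 c21197 c18631 c5491 c5407 c5358 c5442 (k8 c5359 c5443 c53 c15516 c12632 c6187 c5388 c5389 (k8 c5606 c5611 c20789 c17992 c2821 c5227 c21064 c5618 (k4 c5621 c1105 c391 c2049 (k2 c722 c2216 (k1 c20776 k0)))))) (by decide +kernel)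
def c21399 : PP 9 3 T 0x480001000000000000004000000000000001000000000000000000000004000000000000000000000080000000000000080000080000a0 := rS 0x3bd4abf53af54785d6307717716c9e3c2f298f6b05740bb5d7e2508583a19018942201d8e493e60 (k8 c713 c21338 c21197 c18631 c53 c15516 c12632 c54 (k8 c9701 c5486 c5284 c1068 c5680 c5581 c5467 c5463 (k8 c5353 c21100 c5560 c5563 c9709 c21398 c12619 c9711 (k8 c9710 c19418 c411 c972 c1151 c1468 c9409 c1809 (k4 c5431 c1071 c1504 c3622 k0))))) (by decide +kernel)
def c21400 : PP 9 3 T 0x48000100000000000000000000000000000100000000004000000000000400000000000001000000000000000000000008000000000020 := rS 0x787dacd1c3ca02e181fcb6b666e8684eb1371c5868c301140ceb6f8fddbe2789cc533b20824871d1e91eb07d4ba7c76497a84d5aaf2d99fbe356882d36932ba844a1100a642c1dd8e4832031bd281f9d (k8 c20598 c21354 c6008 c5518 c54 c9701 c21197 c18631 (k8 c5486 c5284 c1463 c53 c15516 c12632 c1068 c5353 (k8 c322 c9848 c5516 c9505 c120 c5492 c5487 c715 (k8 c5406 c5490 c21396 c5519 c5334 c5332 c21338 c21319 (k8 c5442 c21100 c5562 c5560 c5341 c5561 c21075 c12636 (k8 c20666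 c9694 c9719 c5811 c5680 c5467 c5576 c5580 (k8 c5581 c17930 c389 c713 c20834 c4319 c20438 c5666 (k8 c20792 c2813 c3582 c4567 c21399 c21397 c5241 c5550 (k8 c5591 c5592 c18116 c17960 c2501 c5540 c5534 c11160 k0))))))))) (by decide +kernel)
def c21401 : PP 9 3 T 0x100000000000000000000000000000000000000000000000000000800000000000000000000000000040000000008000000040020 := rS 0x11a4538355e27300cec231dac17f2497 (k8 c21319 c21197 c5439 c21100 c5341 c15516 c20666 c53 (k4 c9719 c5811 c1660 c8466 (k2 c390 c20438 (k1 c20834 k0)))) (by decide +kernel)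
def c21402 : PP 9 3 T 0x40000000000000000000110000000000000000000080000000000000000080000000000000000000000000001000000000000040004000000000000000000 := rS 0x448188f (k4 c20799 c21152 c5675 c2598 k0) (by decide +kernel)
def c21403 : PP 9 3 T 0x8000000000011000000000000000000000200000000000000000000000000000040000000000000005500000000000000000001010440000000000000 := rS 0xe3c0e1 (k4 c13096 c5679 c17960 c5534 k0) (by decide +kernel)
def c21404 : PP 9 3 T 0x11000100000000000000000000000000000000000000000000000000000000000400002401000100000002000000000000000000040020 := rS 0x11f13069b0f5e1ac17f244905d281f9d (k8 c20598 c21354 c6008 c5516 c5334 c21197 c5439 c21100 (k4 c5458 c1696 c1697 c10916 (k2 c956 c2432 (k1 c17964 k0)))) (by decide +kernel)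
def c21405 : PP 9 3 T 0x400000000018000100000000000000000000000000000000000000004000000000400000000400000501000000000000000000100000000000000020 := rS 0x817cdc4d41cf8fc0e14e9800cdf408fda68c2590412111e91cfa7f2b9dd3e3b248de940fceec725ef2d99eb013 (k8 c21396 c21100 c5487 c715 c19004 c21197 c18631 c20598 (k8 c21354 c6008 c5518 c5334 c5332 c21338 c5356 c5353 (k8 c5358 c5442 c5562 c5560 c15516 c21075 c12636 c12639 (k8 c20834 c2083 c14449 c20909 c12713 c12613 c713 c21404 (k8 c13096 c5679 c21403 c5534 c5689 c3590 c5549 c1663 (k1 c21402 k0)))))) (by decide +kernel)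
def c21406 : PP 9 3 T 0x110000000000000000000080000000000000000080000000000000000000000000001000000000000040004000000000000000000 := rS 0x1f3 (k2 c5550 c21402 k0) (by decide +kernel)
def c21407 : PP 9 3 T 0x2000044000000000000000000000000001000000000000040000200000000000004020 := rS 0x1bec35fcdee4905bd6959d (k8 c20598 c6008 c5519 c5516 c5334 c5333 c5590 c1140 (k2 c9612 c316 (k1 c20874 k0))) (by decide +kernel)
def c21408 : PP 9 3 T 0x8000100000000000000000000000000000100000000004000000000000000000000000001000000000000000000000008000000000020 := rS 0x1b13f0fb441156a40489b55aac567b665a6536166ba4fbe23148640625088063a5f2ba7c920b1babc3aa9d8e4bdf5809c0cb667a503c979d (k8 c20598 c12639 c21354 c6008 c5487 c715 c21406 c21396 (k8 c21100 c19004 c21197 c18631 c5489 c5486 c5406 c5518 (k8 c5516 c5334 c21338 c5353 c5439 c5341 c53 c15516 (k8 c12632 c54 c9701 c9694 c9734 c5492 c322 c2185 (k8 c5284 c9848 c1463 c21401 c21400 c5574 c5421 c5422 (k8 c17828 c21405 c3066 c390 c21407 c17941 c17841 c10677 (k2 c21166 c10916 (k1 c18081 k0)))))))) (by decide +kernel)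
def c21409 : PP 9 3 T 0x4000400000000000000100000000000000000000000000000000000000000000000000540100000050010010000000000000040000000000000000000020 := rS 0x1b9607165a33c5b7789cc033b8ed60fa7f3be492e9f (k8 c21338 c21319 c21197 c5356 c5358 c5442 c21100 c5341 (k8 c20666 c53 c9719 c5811 c18016 c5689 c18905 c5464 (k4 c20438 c3618 c5666 c20792 k0))) (by decide +kernel)
def c21410 : PP 9 3 T 0x1400000000018000100000000000000000000000000000100000000000000000000000000000000000500000000000000000000000004000000040020 := rS 0x1b765ac8e28ef978dacd069b559a7a183c8c03550a1d92060b1b1266bf6a701a7388864073b1284402431e97d2e9f1dbdc16f5a503f3aad57a576392f796ccf58 (k8 c21100 c5487 c715 c19004 c21197 c18631 c5488 c5406 (k8 c5490 c20598 c21354 c6008 c5519 c5516 c5333 c5332 (k8 c21338 c21319 c5439 c5560 c5561 c53 c15516 c12632 (k8 c20666 c54 c9701 c9730 c9719 c10916 c5679 c20874 (k8 c1135 c1694 c5665 c5648 c20938 c10198 c744 c1068 (k8 c1619 c713 c20774 c5653 c1696 c2501 c1475 c1918 (k8 c20893 c21409 c5465 c9339 c21184 c2875 c2432 c8466 (k2 c5574 c5680 k0)))))))) (by decide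 +kernel)
def c21411 : PP 9 3 T 0x2400000000008000100000000000000000000000000000100000000004000000000800000000000000500000000000000000000000004000000000020 := rS 0xaa36b250c30678d622010c80f3b3b2082422793be492efd33a5552d1 (k8 c5459 c5489 c5488 c5487 c5405 c21319 c21197 c5356 (k8 c5441 c15516 c21075 c12636 c20666 c20598 c54 c9701 (k8 c53 c9730 c1763 c1770 c5653 c20854 c1915 c744 (k2 c18012 c20861 k0)))) (by decide +kernel)
def c21412 : PP 9 3 T 0x4004400000000000000000000000000000000200000000000000000000000000000000400000000000000000000000000000000000000002000000000000 := rS 0x69b54863d (k4 c5560 c5561 c1475 c1918 (k1 c5689 k0)) (by decide +kernel)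
def c21413 : PP 9 3 T 0x400000000018000100000000000000000000000000000100000000004000000000000000000000000501000000000000000000000000000000000020 := rS 0x200b338b2e266a46b5524ab8a831a4071a0c5afe36fb34729d3df80c61901cec9641048458e792b9dd2e9f1d9241637a503f3aad57bf52aa9d8e4bde5b33d602633 (k8 c21408 c21396 c21100 c5487 c715 c19004 c21197 c18631 (k8 c5489 c5488 c5405 c5406 c5490 c20598 c21354 c6008 (k8 c5518 c5516 c5334 c5332 c21338 c21319 c5356 c5353 (k8 c5441 c5357 c15516 c21075 c12636 c12639 c20666 c54 (k8 c9701 c9754 c21410 c5457 c5458 c5534 c5537 c5538 (k8 c21403 c21411 c21412 c5653 c20806 c21199 c16784 c17978 (k8 c21273 c20933 c141 c2083 c316 c2598 c1753 c20889 (k2 c2378 c15371 (k1 c19568 k0))))))))) (by decide +kernel)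
def c21414 : PP 9 3 T 0x400000000018000100000000000000000000000000000100000000000000000000000000000000000800000000000000000000000000000000040020 := rS 0x4c6e388f91ab16ab49afe3658d00e920b9cc021901e767641048447a7d2b9dd5aaf0ea576392f796ccf58 (k8 c21100 c5487 c715 c19004 c21197 c18631 c5488 c5486 (k8 c5406 c5490 c5356 c5353 c5442 c5560 c15516 c21075 (k8 c12636 c20666 c20598 c54 c9701 c53 c9719 c17703 (k8 c9848 c714 c11149 c1753 c17930 c1763 c21199 c141 (k4 c2086 c2083 c18954 c20889 (k2 c20793 c326 (k1 c2813 k0))))))) (by decide +kernel)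
def c21415 : PP 9 3 T 0x400000000018000100000000000000000000000000000100000000004000000000000000000000000001000000000000000000000000000000000020 := rS 0x681cd6174ea613609639e4ae3b058de940fce84f6392 (k8 c21197 c18631 c21396 c20598 c21354 c6008 c5518 c5516 (k8 c5332 c5353 c5441 c5357 c21075 c21414 c21413 c167 (k4 c1463 c2373 c714 c316 (k1 c16784 k0)))) (by decide +kernel)
def c21416 : PP 9 3 T 0x2800000000008000000080000000000000000000000000000000000000000000000000000000000000100000000000000000000000000000000000020 := rS 0x1b10caa68c44039d3c9dccecf (k8 c5453 c5487 c5356 c5441 c20598 c53 c9730 c5459 (k4 c16230 c20854 c20861 c744 k0)) (by decide +kernel)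
def c21417 : PP 9 3 T 0x1000000000001000100000000000000000200000000000000000000040000000400800040000000014001000000042400400001000000000000045400 := rS 0xdbb2d64714744dc3e3 (k8 c5465 c1721 c8617 c17964 c2875 c2432 c8466 c5574 (k1 c5680 k0)) (by decide +kernel)
def c21418 : PP 9 3 T 0x18000100000000000000000000000000000100000000004000000000000000000000000001000000000000000000000000000000000020 := rS 0x58b2cdc71477cb6ed73638cd69c06f8532a14d85926063034d92d51af78e61901cec4a1100d60bec72ba5d3e49058dc26ad57a5763928196ccf4a0792f3a33 (k8 c21408 c20598 c12639 c21354 c6008 c5487 c715 c21406 (k8 c21197 c18631 c5488 c5406 c5490 c21396 c5518 c5516 (k8 c5334 c21338 c21319 c5353 c5357 c5439 c21100 c53 (k8 c15516 c12632 c20666 c54 c9701 c9719 c21415 c5450 (k8 c5454 c5494 c5496 c20920 c20486 c1564 c714 c9848 (k8 c1068 c1463 c21416 c10916 c5679 c1135 c4306 c1697 (k8 c21417 c18016 c5241 c21184 c2875 c2433 c8466 c20792 (k1 c3618 k0)))))))) (by decide +kernel)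
def c21419 : PP 9 3 T 0x1000000000000041000000000000000000000000000000000000001000045000000400540500000454015550008000000000000000000000000000000000 := rS 0xe05afc9beb0 (k4 c3618 c14125 c14602 c19826 (k2 c3620 c5591 k0)) (by decide +kernel)
def c21420 : PP 9 3 T 0x1001000000000041000100000000000000000200000000000000001000045000000000560140000454015551008000040402400001000000000000045400 := rS 0x23e26e13878d94e3 (k8 c1779 c21419 c5464 c8466 c4267 c8617 c2875 c17964 k0) (by decide +kernel)
def c21421 : PP 9 3 T 0x1000000000028000100000000000000000000000000000000000000004000000000160100000000010401000000000402000000000000000000000020 := rS 0xf923ce0caf1b590c73ac17d8e974f92426ad57bf52aa9d8e4a069d55c54da9959edc520312844022325fb41a212d99dee0b7ad281f9d (k8 c20598 c21354 c6008 c5519 c5516 c5333 c5487 c715 (k8 c5528 c315 c20874 c12639 c9734 c53 c15516 c12632 (k8 c54 c9694 c17828 c5532 c5530 c5529 c5414 c5413 (k8 c5412 c21406 c21197 c18631 c5489 c5488 c5405 c5406 (k8 c5490 c21396 c5334 c21338 c21319 c5357 c5439 c21100 (k8 c9719 c20831 c21420 c5465 c5680 c8466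 c2875 c10427 (k1 c21184 k0))))))) (by decide +kernel)
def c21422 : PP 9 3 T 0x100000000000000000000000000000100000000000000000000000800000400000001000000000800000000000000000000041020 := rS 0x11f13381bc0673009041211ac17f244905d281f9d (k8 c20598 c21354 c6008 c5516 c5334 c21197 c5439 c21100 (k8 c15516 c21075 c12636 c53 c9719 c54 c20625 c8466 (k2 c2601 c2874 (k1 c17964 k0)))) (by decide +kernel)
def c21423 : PP 9 3 T 0x800000000008000100000000000000000000000000000100000000004000000000000000000000000001000000000000000000000000000000000020 := rS 0xde7158231afe2659a9a0a14d8592606f0981a6cd64b559e35789cc333b8ed60fa573ba5d3e1356abdfa9554ec7245b338cd3aab4cacf6e290189422011192e940fce83443b4 (k8 c21418 c5528 c315 c20598 c21354 c6008 c12639 c9734 (k8 c53 c15516 c12632 c54 c9694 c17828 c5532 c5530 (k8 c5413 c5412 c21408 c5487 c715 c21197 c18631 c5489 (k8 c5488 c5405 c5406 c5490 c21396 c21338 c21319 c5356 (k8 c5353 c5442 c21100 c5341 c20666 c9701 c9719 c5811 (k8 c5450 c5453 c5454 c5494 c5495 c5496 c20920 c16230 (k8 c20486 c1564 c714 c9848 c1068 c3617 c21421 c21422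 (k4 c5680 c5465 c20727 c3618 (k2 c20438 c20792 (k1 c5666 k0)))))))))) (by decide +kernel)
def c21424 : PP 9 3 T 0x400000000048000100000000000000000000000000000100000000000000000000000400000000010000000000000000000000000004000000040020 := rS 0x64b5460d71af89a61901cec8209088f53ead57a576392f796ccf58 (k8 c21100 c5487 c715 c19004 c21197 c18631 c5488 c5406 (k8 c5490 c21338 c5560 c15516 c21075 c12636 c20666 c54 (k8 c9701 c14519 c5680 c21320 c5465 c5653 c1475 c1915 (k1 c21409 k0)))) (by decide +kernel)
def c21425 : PP 9 3 T 0x20000100000000000000000000000000000000000000000000000000000000000000020400000000000000000000000000000000040020 := rS 0xb538d60ff9224d281f9d (k8 c20598 c21354 c6008 c5334 c21197 c5358 c21100 c2929 (k2 c1199 c20540 k0)) (by decide +kernel)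
def c21426 : PP 9 3 T 0x100000000000000000000000000000100000000000000000000000800000400000001000000001000000000000000000000041020 := rS 0xf923cd67039806b05fc95281f9d (k8 c20598 c21354 c6008 c21197 c5439 c21100 c53 c9719 (k4 c8466 c21422 c2875 c10427 (k1 c21184 k0))) (by decide +kernel)
def c21427 : PP 9 3 T 0x8000100000000000000000000000000000100000000004000000000000000000000000001000000000000000000000000000000000020 := rS 0x3e7e15a268e3e35032fbfed06edd666d10ed066231480c962508804ff927b92416f5a503f3bef2d99eb013 (k8 c21396 c21100 c5487 c715 c19004 c20598 c21354 c6008 (k8 c5519 c5516 c5334 c5333 c21197 c5358 c53 c15516 (k8 c12632 c12639 c54 c9694 c9734 c21408 c21418 c5528 (k8 c5529 c5532 c17828 c315 c20874 c21423 c21426 c21424 (k4 c5578 c2929 c21425 c20540 (k2 c5536 c5548 (k1 c5204 k0))))))) (by decide +kernel)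
def c21428 : PP 9 3 T 0x8000100000000000000000000000000000000000000004000000000000000000000000001000000000000000000000000000000000020 := rS 0x6bf7da6341fca3de5b339041211ac1df2413 (k8 c21396 c21197 c5356 c21100 c15516 c21075 c12636 c5487 (k8 c715 c19004 c21427 c5318 c20850 c18954 c5450 c1763 (k1 c21199 k0))) (by decide +kernel)
def c21429 : PP 9 3 T 0x4000000000000000000000000000000000200000000000000000000000000000000100000000000000000000040400000044000014005000000040140 := rS 0x1a7ef (k2 c19004 c18954 (k1 c21144 k0)) (by decide +kernel)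
def c21430 : PP 9 3 T 0x400000000004000100000000000000000000000000000200000000000000000000000000000000000000000000000000000000000000000000040020 := rS 0x6dd266150ec032032fa5d3e17578052a1a64998b4d5400f7c67d1881c7e332b9feb04108824ef92 (k8 c21197 c5356 c21075 c15516 c12636 c21100 c5358 c5353 (k8 c5316 c5318 c5432 c5434 c5442 c17785 c5560 c12613 (k8 c20766 c21429 c715 c2063 c716 c1904 c53 c17787 (k8 c5433 c21338 c21319 c5439 c54 c9701 c5678 c10048 (k4 c19460 c5444 c17758 c15534 k0))))) (by decide +kernel)
def c21431 : PP 9 3 T 0x40000100000000000000000000000000000200000000004000000000000000000000000001000000000000000000000000000000000020 := rS 0x1b4592d5bc8e70ec533133032a2a70581cc96472fa7c3e49578055bef1ab4c86e33d037dbded98dcccfd54868b4d5400f7c67d188fc66133b95cff582084412f51d8e4174a07e740f92 (k8 c21197 c5432 c20598 c21354 c6008 c5516 c5317 c5332 (k8 c5519 c21075 c15516 c12636 c21100 c5358 c5353 c5356 (k8 c21396 c5316 c5318 c5434 c5442 c17785 c5560 c12613 (k8 c20766 c21429 c716 c1906 c21278 c715 c5518 c21428 (k8 c21430 c17743 c17806 c21263 c1776 c5561 c5496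 c5450 (k8 c14662 c1908 c53 c17787 c5334 c5517 c21338 c5439 (k8 c5562 c12639 c9719 c5683 c2180 c3048 c752 c751 (k8 c3867 c1759 c5445 c4267 c17964 c3590 c2402 c2874 (k2 c15585 c5532 k0))))))))) (by decide +kernel)
def c21432 : PP 9 3 T 0x100000000000000000000000000000200000000004000000000000000000000000001000000000000000000000000000000000020 := rS 0x8aec76bb6118a4064b128048209088f6b05f639f4f27fc95281f9d (k8 c20598 c21354 c6008 c21197 c5358 c5441 c5442 c5357 (k8 c5439 c21100 c5560 c15516 c21075 c12636 c53 c12632 (k8 c12639 c54 c9694 c9734 c21431 c17828 c17815 c17925 (k1 c18110 k0)))) (by decide +kernel)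
def c21433 : PP 9 3 T 0x800000000084000100000000000000000000000000000000000000000000000200000000000040010004000000000000080000000000000000000020 := rS 0xf6a1da1026b254353b4ba7f6a290189422011192e940fceb5592d3 (k8 c5496 c5494 c5454 c20598 c21354 c6008 c12639 c9734 (k8 c53 c15516 c12632 c54 c9694 c17828 c21338 c21319 (k8 c20666 c716 c1905 c18016 c1721 c1720 c10690 c5501 (k1 c20488 k0)))) (by decide +kernel)
def c21434 : PP 9 3 T 0x80040000000000000200005020 := rS 0x1c (k2 c20694 c21389 k0) (by decide +kernel)
def c21435 : PP 9 3 T 0x4000000000081000100000000000000000000000000000000000000004000000000000000000040000001000000000080000000004000000200001020 := rS 0x10143347c0d671255c21a2d265421649819bff389066b0c73c9df24974f82c6e1359ed4520312844022325d281f9d67b5592d3ef4a677b3 (k8 c21428 c20666 c21432 c5224 c5496 c5494 c5454 c5453 (k8 c20598 c21354 c6008 c12639 c9734 c53 c15516 c12632 (k8 c54 c9694 c17828 c5574 c21396 c5518 c5516 c21338 (k8 c21319 c21197 c5356 c5441 c5357 c21100 c9701 c18081 (k8 c5547 c2512 c18039 c1564 c714 c8159 c1463 c21434 (k8 c716 c21433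 c1905 c16294 c18016 c6448 c5459 c20854 (k2 c2145 c959 k0))))))) (by decide +kernel)
def c21436 : PP 9 3 T 0x4800000000094000000080000000000000000000000000000001000014000000500000000000045000000000000001080080000000000000000000020 := rS 0xdff9f85a30243fb1fa1d0d00676793bacd9ecd (k8 c5495 c5453 c5574 c5356 c5441 c20666 c53 c716 (k8 c1995 c21278 c19296 c9843 c18003 c5501 c20854 c5550 (k2 c2516 c5691 k0))) (by decide +kernel)
def c21437 : PP 9 3 T 0x81000100000000000000000000000000000000001000004000000000000000000040000001000200000080000000004000000000000020 := rS 0x6f8e7c1ed8196dc30171a6556a936c4cd40c208247a47ac1e7243b248dd63b51a8cd93de94cef66201480c4a110088c974a07e7567e3 (k8 c5463 c5574 c20598 c21354 c6008 c12639 c9734 c53 (k8 c15516 c12632 c54 c9694 c17941 c21428 c20666 c21432 (k8 c5224 c5494 c5492 c5450 c17828 c5421 c5518 c5334 (k8 c5332 c21197 c5441 c21100 c5562 c5560 c21075 c12636 (k8 c21435 c316 c2598 c2427 c20804 c20805 c2373 c13204 (k8 c19568 c1717 c21436 c21406 c17841 c21361 c5534 c5538 (k1 c3590 k0))))))) (by decide +kernel)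
def c21438 : PP 9 3 T 0x1000000000000015000100000000000000000000000000000000000000000000000100000100000000000001000000000000000000004014000200002020 := rS 0x1be39f038d33133512c8209088f48f583ce4876491bd281f9d (k8 c20598 c21354 c6008 c5518 c5334 c5332 c21197 c5441 (k8 c21100 c5562 c5560 c15516 c21075 c12636 c12639 c316 (k4 c2598 c2373 c13204 c21361 (k2 c5534 c5538 (k1 c3590 k0))))) (by decide +kernel)
def c21439 : PP 9 3 T 0x5000000000000080000100000000000000000000000000000000000000004000000000000000000000000001000000000040000000000000000200001020 := rS 0x11a4543c03e66c891ae22490584d67b51480c4a110088e065ba503c979d (k8 c20598 c12639 c21354 c6008 c715 c21406 c9734 c53 (k8 c15516 c12632 c54 c9694 c17828 c5574 c21396 c5516 (k8 c5334 c9730 c2371 c18081 c5665 c5547 c21166 c744 (k2 c9612 c2141 (k1 c20834 k0))))) (by decide +kernel)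
def c21440 : PP 9 3 T 0x4000000000000081000100000000000000000000000000000000001000004000000000000000000040000001000200000000000000004000000000000020 := rS 0xe089833db035496cceb1da8d466c9ef4a677b3100a4062508804464ba503f3ab3 (k8 c5574 c20598 c21354 c6008 c12639 c9734 c53 c15516 (k8 c12632 c54 c9694 c17941 c21428 c20666 c21432 c5224 (k8 c5494 c5492 c5450 c17828 c5421 c21437 c715 c21192 (k4 c21406 c17841 c21439 c2598 (k2 c21438 c1717 k0))))) (by decide +kernel)
def c21441 : PP 9 3 T 0x4000000000000081000100000000000000000000000000000000001000004000000000000000000040000001000000000002000000004000000000000020 := rS 0xce0df6f8d0cd170f813a994d85926064086482091ed60fa793f95cef924f8dc27b51ab3c66c9ef4a677b3100a4062508804464ba503f3ab3 (k8 c5574 c20598 c21354 c6008 c12639 c9734 c53 c15516 (k8 c12632 c54 c9694 c17941 c21428 c20666 c21432 c5224 (k8 c5494 c5492 c5453 c5450 c17828 c21396 c5518 c21338 (k8 c21197 c5356 c5353 c5358 c5441 c5442 c21100 c5560 (k8 c21075 c12636 c9701 c21440 c12613 c1564 c714 c9848 (k8 c1463 c21404 c5679 c13096 c5459 c20854 c6706 c5499 (k2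 c21438 c21435 (k1 c21439 k0)))))))) (by decide +kernel)
def c21442 : PP 9 3 T 0x8000000000000081000100000000000000000000000000000000001000004000000000000000000040000001000000000000000000004000000000000020 := rS 0x33200b5583e9ff2413ef4a677b3 (k8 c21428 c20666 c21432 c5224 c21396 c21197 c5358 c5442 (k4 c21100 c19004 c20821 c715 (k1 c21437 k0))) (by decide +kernel)
def c21443 : PP 9 3 T 0x81000100000000000000000000000000000000001000004000000000000000000040000001000000000000000000004000000000000020 := rS 0xc6140fbc8209088f6b07d3f95f2413 (k8 c21396 c21197 c5353 c5358 c5442 c21100 c5560 c15516 (k4 c21075 c12636 c21442 c21440 (k2 c21441 c12613 (k1 c713 k0)))) (by decide +kernel)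
def c21444 : PP 9 3 T 0x81000100000000000000000000000000000000001000004000000000000000000000000001000000000000000000004000000000000020 := rS 0x7c9c1ed0640cb61b0e407deae78d609227da8d466c9ef4a677b3100a4062508804464ba503f3ab3 (k8 c5574 c20598 c21354 c6008 c12639 c9734 c53 c15516 (k8 c12632 c54 c9694 c17941 c21428 c20666 c21432 c5224 (k8 c5494 c5492 c5450 c17828 c5570 c5334 c21100 c5811 (k8 c21443 c5584 c3070 c10145 c1077 c1995 c21406 c21389 (k4 c18724 c21438 c5694 c5591 k0))))) (by decide +kernel)
def c21445 : PP 9 3 T 0x81000100000000000000000000000000000000001000004000000000000000000000000001000000000000000000000000000020000020 := rS 0xdf71a77c1137e03206452d9cc871d23d60be794ba7deef509ecd96b556ed440291192d66e124a6caf925089422014c859263e13ca432031bd281f9d (k8 c20598 c21354 c6008 c5518 c54 c9701 c21432 c5570 (k8 c21444 c326 c5648 c1463 c53 c15516 c12632 c1068 (k8 c21197 c5353 c9848 c5334 c3056 c5574 c12639 c9734 (k8 c9694 c17941 c17828 c5573 c5422 c5420 c21428 c21396 (k8 c5519 c5333 c21338 c21319 c5441 c5439 c21100 c5562 (k8 c5341 c5561 c9719 c1995 c21272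 c21406 c21389 c18824 (k4 c2598 c10916 c1239 c13204 (k2 c5538 c3620 k0)))))))) (by decide +kernel)
def c21446 : PP 9 3 T 0x4000000000000080000100000000000000000000000000000000001000005000000000000000000040000001000000000000040000000000000008000020 := rS 0x1a9540cf699e07b358ed440290189422011192d66a97ad281f9d (k8 c20598 c21354 c6008 c5519 c1906 c5574 c12639 c9734 (k8 c53 c15516 c12632 c54 c9694 c17941 c17828 c5421 (k8 c21428 c21406 c1902 c17841 c21439 c5682 c316 c20805 k0))) (by decide +kernel)
def c21447 : PP 9 3 T 0x800000000000000100000000000000000000000000000000000000001000000000000000000001000510000000000080000000000000000000002020 := rS 0x9d55fb0d45fc925d92cd (k8 c5495 c5494 c21319 c21197 c5439 c316 c17806 c20805 (k2 c1135 c18006 k0)) (by decide +kernel)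
def c21448 : PP 9 3 T 0x81000100000000000000000000000000000000001000004000000000000000000000000001000000000000000000000000000000000020 := rS 0x80a19a3e04e9800c7bf9c481a662d7bdac9554869faaf0ea6542164db85263e103c432792b9df24974f87c920b1bbd426b313ed4520312844022325d281f9d67b5592d3ef4a677b3 (k8 c21428 c20666 c21432 c5224 c5496 c5494 c5454 c5453 (k8 c20598 c21354 c6008 c12639 c9734 c53 c15516 c12632 (k8 c54 c9694 c17828 c5570 c5574 c21396 c5519 c5518 (k8 c5516 c5334 c5517 c21338 c21319 c21197 c5356 c5353 (k8 c5441 c9701 c5811 c17941 c21444 c326 c3056 c9848 (k8 c5648 c1068 c1463 c21445 c10145 c20237 c5649 c1906 (k8 c1905 c18016 c5507 c21446 c715 c21447 c18081 c5547 (k8 c957 c18039 c713 c1696 c5679 c5459 c20854 c2145 (k1 c959 k0))))))))) (by decide +kernel)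
def c21449 : PP 9 3 T 0x800000000085000100000000000000000000000000000000000800000000000000000000000000010504000000000002080000000000000000000020 := rS 0x4050cd1f0275ac7b4ab855e1a3c9df24974fed4520312844022325d281f9d67b5592d3 (k8 c5496 c5494 c5454 c5453 c20598 c21354 c6008 c12639 (k8 c9734 c53 c15516 c12632 c54 c9694 c17828 c21338 (k8 c21319 c21197 c5356 c5441 c716 c17787 c21433 c1905 (k8 c957 c18016 c1696 c5679 c5459 c20854 c2145 c959 k0)))) (by decide +kernel)
def c21450 : PP 9 3 T 0x81000100000000000000000000000000000000000000004000000000000000000000000001000000000000000000000000000000000020 := rS 0x236004543fb607ef2da65429b30059266c06c480c6b47fce29de78c46775863e49ee0b1bbd427b394ed4520312844022325d281f9d (k8 c20598 c21354 c6008 c12639 c9734 c53 c15516 c12632 (k8 c54 c9694 c17828 c21432 c21428 c21396 c5519 c5518 (k8 c5516 c5333 c21197 c5357 c21100 c20666 c9730 c5811 (k8 c5224 c21448 c5590 c2845 c1140 c17978 c5675 c316 (k8 c5665 c1564 c714 c713 c2492 c1068 c1463 c21449 (k8 c19004 c21406 c20874 c11044 c21407 c21166 c2141 c20834 k0)))))) (by decide +kernel)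
def c21451 : PP 9 3 T 0x2000100000000000000000000000000000000000000000000000000000000000000000000000000000000040000000000000000040020 := rS 0xfd02d7efb4c648c189146a1cf79cc0241048463a3dac1f4fe5703998c277c925d9295 (k8 c5446 c5396 c21319 c21197 c5356 c5445 c20913 c713 (k8 c5353 c5358 c5442 c21100 c5560 c5341 c15516 c21075 (k8 c12636 c53 c9719 c19004 c20694 c332 c21272 c1996 (k8 c20834 c20880 c2083 c5492 c2185 c20909 c14449 c12613 k0)))) (by decide +kernel)
def c21452 : PP 9 3 T 0x44000000000000080000100000000000000000000000000000000000400014000000000000000000000000001000000000000000000000000000000000020 := rS 0x4345607ec472ace7119decd66b156ed452031288c96fd5780422a90d16b60137ad281f9d (k8 c20598 c21354 c6008 c5519 c21396 c21450 c21451 c716 (k8 c1906 c15516 c53 c17787 c21278 c12639 c9734 c12632 (k8 c54 c9694 c17828 c5573 c5421 c5574 c21428 c20666 (k8 c9730 c9719 c6368 c5675 c19296 c20799 c2845 c17131 (k1 c5499 k0))))) (by decide +kernel)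
def c21453 : PP 9 3 T 0x4000000000000080000100000000000000000000000000000000000400014000000000000000000000000001000000000000000000000000000000000020 := rS 0x33da208ac0fe4231480c962523d603e0b5989d62b533184ef924bb252afd5780422a90d16b60137ad281f9d (k8 c20598 c21354 c6008 c5519 c21396 c21450 c21451 c716 (k8 c1906 c15516 c53 c17787 c21278 c5446 c5396 c21319 (k8 c21197 c5356 c5445 c20913 c5422 c5421 c5570 c5574 (k8 c5516 c5517 c21100 c5562 c12632 c12639 c54 c9694 (k8 c9734 c21452 c5550 c5590 c17998 c17841 c18081 c17806 k0))))) (by decide +kernel)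
def c21454 : PP 9 3 T 0x4000400000000080000100000000000000000000000000000000000000004000000000800000000000000001000000000000000000000000000000000020 := rS 0x381a20df9c4a0209258447b58c95281f9d0981cc3b0 (k8 c21450 c5445 c713 c21396 c20598 c21354 c6008 c21197 (k8 c21100 c5560 c15516 c12639 c21075 c10483 c21453 c5547 (k4 c2598 c9339 c17128 c1720 k0))) (by decide +kernel)
def c21455 : PP 9 3 T 0x4000400000000080000100000000000000000000000000000000000000004000000000000000000000000001000000000000000000000000000000000020 := rS 0x37e71280911c23e0b8d062d714864064b3ba5c934a07e7653e303984ae093ee487b580896b6013 (k8 c21396 c21450 c21451 c15516 c21100 c5560 c21197 c5442 (k8 c21075 c5353 c5445 c713 c17930 c21432 c20598 c21354 (k8 c6008 c5334 c21319 c5356 c12639 c54 c9701 c9694 (k8 c21454 c21412 c9931 c1619 c17858 c3056 c441 c3066 (k4 c21453 c5547 c2598 c17128 k0))))) (by decide +kernel)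
def c21456 : PP 9 3 T 0x8000000000000080000100000000000000000000000000000000000000004000000000000000000000000001000000000000000000000000000000000020 := rS 0x11d13360350ded46ceeb04905ecd67b51480c4a110088c9666309df249764a55faa90d16b60137ad281f9d (k8 c20598 c21354 c6008 c5519 c21396 c21450 c21451 c716 (k8 c1906 c21278 c5446 c5396 c21319 c21197 c5356 c5445 (k8 c20913 c12639 c9734 c53 c15516 c12632 c54 c9694 (k8 c17828 c5574 c21428 c5516 c5334 c21100 c20666 c5505 (k4 c14774 c20488 c17806 c5830 (k2 c958 c17964 (k1 c2432 k0))))))) (by decide +kernel)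
def c21457 : PP 9 3 T 0x80000100000000000000000000000000000000000400004000000000000000000000000001000000000000000000000000000000000020 := rS 0x4073bef (k4 c21456 c20598 c19568 c21453 k0) (by decide +kernel)
def c21458 : PP 9 3 T 0x80000100000000000000000000000000000000000000004000000000000000000000000001000000000000000000000000000000000020 := rS 0xf9c481ae1ef7bd52af7e868b46603a652a614db254293d8004124b088f6b077c925deb4a07e7427b3 (k8 c21428 c21396 c20598 c21354 c6008 c5519 c21319 c21197 (k8 c5356 c21100 c5560 c15516 c12639 c21075 c53 c21450 (k8 c5444 c5398 c5396 c5397 c5445 c5446 c5447 c713 (k8 c20913 c21451 c716 c21278 c17787 c1906 c21456 c21455 (k4 c21433 c21447 c21457 c5547 (k1 c17128 k0)))))) (by decide +kernel)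
def c21459 : PP 9 3 T 0x4000000000000000000100000000000000000000000000000000000800004000000000000000000000000001000000000000000000000000000000000020 := rS 0x5b8106d5cb156ad0dc7136ed01ab3f99cc024bac126940fce84f67b7 (k8 c21458 c21428 c21396 c20598 c21354 c6008 c5334 c21100 (k8 c12639 c53 c9719 c5547 c2457 c2598 c5241 c5529 (k8 c10427 c5666 c20540 c20758 c20792 c5683 c3996 c20642 (k2 c716 c21152 k0)))) (by decide +kernel)
def c21460 : PP 9 3 T 0x100000000000000000000000000000000000000054000000000000000000000000000000000000000040000000000000020041020 := rS 0xf310914e60123d61ee497ad281f9d (k8 c20598 c21354 c6008 c5519 c5334 c5333 c21100 c5562 (k4 c53 c9719 c21272 c21389 (k2 c333 c18038 k0))) (by decide +kernel)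
def c21461 : PP 9 3 T 0x4000000000000044000100000000000000000000000000000000000000014000000000000000000000000000800000000000040000000000000000041020 := rS 0x6d556b2369c0deb056869faaf0efb552f139c4676250880487580fbdc16f5a503f3b03 (k8 c20799 c20598 c21354 c6008 c5519 c5516 c5333 c5517 (k8 c21100 c5561 c53 c15516 c12632 c20666 c9730 c9719 (k8 c5811 c21192 c20874 c21460 c10145 c20237 c5649 c1908 (k8 c5683 c20792 c5666 c2433 c2874 c20861 c5532 c5682 k0)))) (by decide +kernel)
def c21462 : PP 9 3 T 0x4000000000000000000100000000000000000000000000000000000000004000000000000000000000000001000000000000000000000000000000001020 := rS 0x60cceffb3c29bdaa653aab67ac8d46d1a9c0ded35825518c954ab55efd19998345a47444033b208242243ac17cf277c925d3e49058ddeb4a0784f6729dbc06279d (k8 c20598 c21459 c19568 c21458 c21432 c21428 c21396 c21354 (k8 c6008 c5519 c5518 c5516 c5334 c21338 c21319 c21197 (k8 c5356 c5441 c5439 c21100 c5561 c15516 c21075 c12636 (k8 c20666 c53 c9730 c17964 c21461 c716 c715 c2041 (k8 c21278 c17787 c1908 c1906 c2063 c5282 c5297 c5683 (k8 c2083 c20792 c2180 c21320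 c2433 c2875 c2874 c20518 (k8 c20861 c1135 c2373 c5532 c2497 c18012 c5682 c17889 (k2 c18006 c5653 (k1 c1916 k0))))))))) (by decide +kernel)
def c21463 : PP 9 3 T 0x2000000000000000000100000000000000000000000000000100000000001000000000000000000000000410000000000080000000000014000000002020 := rS 0xc7becc9da5deb4a07e7552ab4e97d326a3cb24ef92 (k8 c21197 c5356 c2063 c5441 c316 c2373 c5439 c1135 (k8 c20805 c20804 c20598 c21354 c6008 c5519 c21319 c20666 (k4 c18006 c21447 c1916 c5653 k0))) (by decide +kernel)
def c21464 : PP 9 3 T 0x4000000000000044000100000000000000000000000000000100000000000000000000000000000000000000000000000000080000000000000000042020 := rS 0x3c4076585f629a1ab4d609546327d8ad57bf466660d006764104844863dac1f4ae77c927d566adaad4404b (k8 c12639 c315 c2608 c5528 c316 c20805 c21338 c21197 (k8 c5356 c5353 c5442 c21100 c5560 c5561 c15516 c21075 (k8 c12636 c20666 c53 c716 c715 c2041 c21278 c17787 (k8 c1908 c19296 c2063 c5282 c5297 c5683 c2083 c21320 (k4 c21463 c5397 c17703 c1326 (k2 c714 c9422 (k1 c17930 k0))))))) (by decide +kernel)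
def c21465 : PP 9 3 T 0x4000000000000045000100000000000000000000000000000000000000000000000000005100000040000000000000000000000000000004000008042020 := rS 0x1e203b2c2e9a68ac12bec7eab676090890c7b583e95d2e9f0fd281f9d54aad3a5f4c9a8f392daad4404b (k8 c12639 c315 c2608 c5528 c21197 c5441 c316 c2373 (k8 c5439 c1135 c20805 c20804 c20598 c21354 c6008 c5517 (k8 c21338 c21319 c5353 c5442 c21100 c5560 c5561 c15516 (k8 c21075 c20666 c1908 c1075 c19296 c5297 c5683 c5501 (k4 c18006 c16788 c1326 c714 (k2 c9422 c17930 k0)))))) (by decide +kernel)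
def c21466 : PP 9 3 T 0x4000000000000045000100000000000000000000000000000000000000000000000000005100000040000000000000000000000000000004000000042020 := rS 0xad589b8381b78cee3b58 (k8 c21100 c5341 c20666 c5811 c21465 c5649 c19501 c2177 (k2 c20758 c5683 k0)) (by decide +kernel)
def c21467 : PP 9 3 T 0x4000000000000000000100000000000000000000000000000000000000004000000000000000000000000001000000000000000000000000000000000020 := rS 0x165024fc63ef689cdccb0d9c55ccd648cd9e35ef6c4b6e181fcb6a20063c4e61901cec4a1100d612e9f24d281f9d09ece53b7 (k8 c21458 c21432 c21428 c21396 c20598 c21354 c6008 c5334 (k8 c21338 c21319 c21100 c53 c15516 c12632 c20666 c54 (k8 c9701 c9719 c5811 c21462 c315 c5528 c5241 c5550 (k8 c5591 c21464 c21451 c5224 c5450 c5453 c5492 c5494 (k8 c5495 c21466 c20748 c1077 c1246 c5666 c2813 c18724 (k4 c21438 c5576 c326 c5680 (k2 c5648 c1068 k0))))))) (by decide +kernel)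
def c21468 : PP 9 3 T 0x1000000000000015000100000000000000000000000000000000000000001000000000000100000001001000000000000000000000000000000000001060 := rS 0x9a550258e792be48760b1bd281f9d (k8 c20598 c21354 c6008 c5518 c5516 c5332 c21197 c5353 (k4 c5441 c5357 c21075 c5682 (k2 c16784 c1189 k0))) (by decide +kernel)
def c21469 : PP 9 3 T 0x1000100000000000000000000000000000000000000004000000000000000000000000001000000008000000000000000000000000020 := rS 0x3dc49bff35a2cc43b44ec5524070ba804ecb3888c52190192c4a0120824223d23a7c761f2482f6729dbf8daec93be481afdf6999521a2d7bab0137ad281f9d (k8 c20598 c21354 c6008 c5519 c21396 c21100 c21467 c19004 (k8 c716 c1906 c715 c14774 c21278 c17806 c21197 c5356 (k8 c2063 c5507 c20829 c21458 c21432 c21428 c5516 c5334 (k8 c5517 c5332 c21338 c5562 c5560 c15516 c21075 c12636 (k8 c53 c12632 c12639 c54 c9701 c9694 c9734 c65 (k8 c20625 c2813 c5680 c1068 c714 c5648 c17978 c1694 (k8 c21468 c5528 c5532 c20540 c17931 c18066 c1149 c17871 (k1 c15503 k0)))))))) (by decide +kernel)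
def c21470 : PP 9 3 T 0x20000100000000000000000000000000000000000000004000000000000800000000000001000000000000000000000000000000000020 := rS 0xb336ca41afdf6999521a2d7bab0137ad281f9d (k8 c20598 c21354 c6008 c5519 c21396 c21100 c21467 c19004 (k8 c716 c1906 c715 c14774 c21278 c17806 c21432 c5529 (k2 c5532 c21426 k0))) (by decide +kernel)
def c21471 : PP 9 3 T 0x1000100000000000000000000000000000000000000004000000000000000000000000001000000000000000000000000000000000020 := rS 0x238d9f2dab28e06f398076e8d6af8f24d75690c1afdf6999521a2d7bab0137ad281f9d (k8 c20598 c21354 c6008 c5519 c21396 c21100 c21467 c19004 (k8 c716 c1906 c715 c14774 c21278 c17806 c5561 c1908 (k8 c5507 c21197 c20829 c5585 c5505 c21458 c53 c9719 (k8 c21469 c5666 c20889 c21470 c5241 c5830 c21184 c2433 k0)))) (by decide +kernel)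
def c21472 : PP 9 3 T 0x8000000000000056000100000000000000000000000000000100000000000000000000000000000000000000000000000000000000000000000000040020 := rS 0x1df6932cdc8e8a9b155f2208453eb16babdaaad21b254295f095c16c71b837da093cb3c0e970187402a90d3d6940fce8cceefd3316ab192 (k8 c21197 c21100 c19004 c715 c21278 c5356 c2041 c20598 (k8 c21354 c6008 c5519 c716 c1906 c53 c1995 c54 (k8 c21319 c20822 c21279 c5441 c21075 c14774 c17806 c5518 (k8 c5357 c5516 c5353 c18042 c5446 c5398 c2063 c5561 (k8 c1908 c5585 c5584 c5507 c5506 c21338 c15516 c12636 (k8 c5241 c5682 c5830 c5590 c21184 c2433 c20625 c8156 (k2 c18008 c21374 k0))))))) (by decide +kernel)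
def c21473 : PP 9 3 T 0x100000000000000000000000000000000000000004000000000000000000000000001000000000000000000000000000000000020 := rS 0x1f85c6831efb4997b44a9854293d82b4345a6aabc8ad758fbb6f29d984c87582f9f4fe573be492e9f (k8 c21338 c21319 c21197 c5356 c5353 c5358 c5442 c5439 (k8 c21100 c5561 c21396 c21428 c21432 c21458 c21467 c5506 (k8 c5507 c5582 c5584 c5585 c19004 c716 c1908 c21471 (k8 c5444 c5398 c5445 c5446 c21472 c21470 c8156 c18008 (k4 c1918 c9931 c1619 c441 (k1 c15534 k0)))))) (by decide +kernel)
def c21474 : PP 9 3 T 0x80000000000000020000100000000000000000000000000000000000000000000000000000000000000000000000000000000000000000000000000040020 := rS 0x1c11d5824d281f9d5983442b5 (k8 c5548 c5528 c315 c5532 c20598 c21354 c6008 c5334 (k4 c21100 c21184 c20540 c2874 k0)) (by decide +kernel)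
def c21475 : PP 9 3 T 0x22000100000000000000000000000000000000000000000000000000000000000000000001000000000000000000000000000000000020 := rS 0x64cd678c50c352db7838cb571c424d3f0b856aad06fcb6eb310c553af1119cc52039d824962508804bec72b9dd2ef7058de940ff7fb5c7137f1e73a95d9e480e61 (k8 c5445 c713 c21197 c18631 c5446 c20598 c5441 c21473 (k8 c20798 c13204 c5544 c5586 c21354 c6008 c5518 c5516 (k8 c5333 c21319 c5356 c5353 c5357 c5439 c53 c15516 (k8 c12632 c12639 c21075 c20666 c54 c9694 c9719 c9734 (k8 c5811 c5412 c5414 c5528 c5532 c17828 c21155 c315 (k8 c2892 c5548 c5591 c18042 c20105 c21474 c2869 c20525 (k8 c8466 c10145 c6118 c1995 c332 c20722 c1996 c2565 (k2 c2073 c20880 (k1 c12046 k0))))))))) (by decide +kernel)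
def c21476 : PP 9 3 T 0x2000100000000000000000000000000000000000000000000000000000000000000000001000000000000000000000000000000080020 := rS 0x19ade6a3f13ab3192a462352db8488ab0e7c95cb556c576eb1659b84c7101bc4e73b1284402574f926940ff7fb5c7137f1e73aa14da676607309992a5f4b9df25b5 (k8 c21475 c21197 c5356 c21319 c5439 c5446 c20857 c5445 (k8 c713 c18631 c5447 c5397 c5398 c20598 c5441 c21473 (k8 c20798 c13204 c5544 c5586 c21354 c6008 c5334 c21338 (k8 c5353 c53 c15516 c12632 c20666 c9719 c5811 c54 (k8 c2869 c317 c318 c8466 c2180 c5570 c3046 c20758 (k8 c1149 c5683 c5241 c10145 c1286 c2986 c5591 c1995 (k8 c332 c1996 c21192 c20880 c2993 c10719 c5682 c390 (k2 c3620 c2504 (k1 c3003 k0))))))))) (by decide +kernel)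
def c21477 : PP 9 3 T 0x2000100000000000000000000000000000000000000000000000000000000000000000001000000000000000000000000000000000020 := rS 0x6dd62b238a38d66c06aa952ad57bf4345a09ed4cdb34a806761121d60be77c925c920b7ad281f9df7fb626fe (k8 c21473 c20798 c5544 c5586 c20598 c21354 c6008 c5519 (k8 c5516 c5334 c21319 c21197 c5356 c5439 c21100 c5561 (k8 c15516 c20666 c53 c5446 c18631 c20857 c21475 c21476 (k8 c21451 c716 c21278 c17787 c1908 c1906 c19296 c17806 (k8 c5830 c20805 c17964 c2875 c2432 c2180 c5574 c5683 k0))))) (by decide +kernel)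
def c21478 : PP 9 3 T 0x100000000000000000000000000000000001000000000000000000000000080000000000000002000000000000000000000001020 := rS 0xb6ab0e3c6762508805ee0b7ad281f9d (k8 c20598 c21354 c6008 c5519 c5516 c5333 c53 c15516 (k4 c12632 c20666 c5811 c10145 (k2 c1286 c1995 (k1 c20894 k0)))) (by decide +kernel)
def c21479 : PP 9 3 T 0x10000100000000000000000000000000000000000000000000000000000000000000000401000000000000000000000020000000041020 := rS 0x33938d26b81fbe4104846b0c73c95f243b058de940fcefbdfdb1 (k8 c21477 c21473 c5586 c20598 c21354 c6008 c5518 c5516 (k8 c5332 c21197 c5353 c5441 c5357 c21100 c15516 c21075 (k8 c12636 c5450 c20806 c1763 c21199 c16784 c2943 c10444 k0))) (by decide +kernel)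
def c21480 : PP 9 3 T 0x18000100000000000000000000000000000000000000000000000000001000000000000401000000000000000000000010000000001060 := rS 0x130d1efa73c2329db1cf2574b8ec1637a503f3bed7f6c652093be48b667 (k8 c5487 c715 c21197 c5356 c21075 c20850 c21477 c21473 (k8 c5544 c20598 c21354 c6008 c5518 c5516 c5332 c21319 (k8 c5353 c5441 c5357 c20666 c20486 c18042 c16784 c5492 (k2 c9505 c11160 (k1 c167 k0))))) (by decide +kernel)
def c21481 : PP 9 3 T 0x4000100000000000000000000200000000000000000000000000000000000001014000000000000 := rS 0x63df (k2 c5454 c1475 (k1 c5653 k0)) (by decide +kernel)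
def c21482 : PP 9 3 T 0x10000100000000000000000000000000000000000000000000000000000000000800000001000000010000000000000000000000040020 := rS 0x64b5466cf4e37dafe269a6542160333652357921cb6674aec95eb1569b01a6e4d9af6f1588cec4a41048447b583ba5d3e3b7b92416377ad281f9df7bfb62cb39804bf92 (k8 c21197 c5439 c53 c9719 c8466 c21477 c21473 c5586 (k8 c20598 c21354 c6008 c5519 c5518 c5516 c5334 c5333 (k8 c5332 c21338 c21319 c5356 c21100 c5560 c15516 c21075 (k8 c12636 c12632 c20666 c9730 c171 c5574 c2378 c2497 (k8 c5666 c316 c5665 c20758 c20792 c21478 c5683 c5297 (k8 c5487 c715 c744 c20774 c21479 c20850 c2501 c21480 (k8 c714 c1068 c1463 c14519 c5680 c5465 c5580 c21403 (k4 c10444 c388 c21481 c1276 (k1 c3618 k0))))))))) (by decide +kernel)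
def c21483 : PP 9 3 T 0x18000100000000000000000000000000000000001000000000000100000400001400000401000000000000000000000010000000002020 := rS 0x5fbea0f037c32039d89422014fb8e26feceec5569d2fa64d4790ea5652093be48b667 (k8 c5487 c715 c21197 c5356 c21075 c20850 c5488 c5486 (k8 c5441 c316 c2373 c5439 c1135 c20805 c21477 c20598 (k8 c21473 c20798 c13204 c21338 c53 c15516 c12632 c20666 (k8 c54 c9701 c13097 c10916 c3620 c16230 c1068 c11149 k0)))) (by decide +kernel)
def c21484 : PP 9 3 T 0x18000100000000000000000000000000000000001000000000000100000400001400000001000000000000000000000010000000002020 := rS 0xcc0e174d4a432039d824ef92d8874b667 (k8 c5487 c715 c5486 c21477 c21197 c5356 c21075 c20666 (k8 c54 c9701 c20850 c21483 c17703 c714 c5284 c20486 k0)) (by decide +kernel)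
def c21485 : PP 9 3 T 0x58000100000000000000000000000000000000000000000000000000000000000000000001000000010000000000000000000000040020 := rS 0xf03799cd16935fbe347e90413584b8efdfedd8b2cbee14c9a81820139b8e715128056bf22488c3e2901ace26fe25844174a07e74f392 (k8 c21197 c5441 c20598 c21354 c6008 c5516 c15516 c12639 (k8 c21473 c20798 c21482 c54 c9694 c5517 c9734 c5334 (k8 c5241 c5548 c53 c12632 c5590 c9719 c5666 c2813 (k8 c18060 c18081 c316 c2373 c5591 c5439 c8466 c21477 (k8 c5544 c5586 c5332 c21319 c21100 c21075 c12636 c5405 (k8 c21484 c5450 c1763 c21199 c1704 c2943 c2942 c20483 (k1 c5538 k0))))))) (by decide +kernel)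
def c21486 : PP 9 3 T 0x50000100000000000000000000000000000000000000000000000000000000000000000001000000010000000000000000000000040020 := rS 0x2ca049f8c7cc919f7a52352d871f8aed9aacd40c1009d62e18aad4ddf27888c521901cec124b12844ee974f87c920ba503f3beff6c4f62cb39804bf9254ab566fe (k8 c21473 c21482 c2892 c2452 c21197 c5439 c53 c9719 (k8 c8466 c21477 c20798 c5544 c5586 c20598 c21354 c6008 (k8 c5516 c5334 c5517 c21338 c21319 c5356 c15516 c12632 (k8 c12639 c21075 c20666 c54 c9701 c9694 c9734 c5811 (k8 c5241 c5666 c5548 c5590 c5591 c20792 c2813 c18060 (k8 c18081 c316 c20805 c21485 c5683 c5682 c10145 c21278 (k8 c332 c20850 c5224 c5492 c5494 c21438 c5576 c326 (k2 c5680 c5648 (k1 c1068 k0))))))))) (by decide +kernel)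
def c21487 : PP 9 3 T 0x94000100000000000000000000000000000000000000000000000000000400000400000001000000000000000000000010000000002020 := rS 0x50059be9b49f807ce1648cdabde94c55329d101a832039d8244a110097d8e7d3fa7fdae389bf8f392ceec44eb5 (k8 c5422 c5570 c21477 c20598 c21197 c5441 c21473 c20798 (k8 c13204 c5544 c21338 c5358 c5442 c5357 c5439 c53 (k8 c15516 c12632 c21075 c20666 c54 c9701 c316 c315 (k8 c1135 c2373 c1140 c18110 c5224 c5454 c5492 c5494 (k8 c3012 c21438 c21361 c326 c5536 c5538 c5648 c3620 (k1 c1068 k0)))))) (by decide +kernel)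
def c21488 : PP 9 3 T 0x80000100000000000000000000000000000000000000000000000000000000000400000001000000000000000000000000000000041020 := rS 0x454428e11c445203258942201ac124174a07e7626fe (k8 c21473 c20798 c20598 c21354 c6008 c5516 c5334 c21100 (k8 c53 c15516 c12632 c12639 c54 c9694 c9730 c9734 (k4 c17964 c18081 c2845 c17941 k0))) (by decide +kernel)
def c21489 : PP 9 3 T 0x94000100000000000000000000000000000000000000000000000000000400000400000001000000000000000000000000000000002020 := rS 0x77c693b94c54d47d049fcbec73ce4b639d (k8 c20598 c21477 c21197 c5441 c5357 c5439 c5358 c21075 (k8 c5442 c316 c1140 c18110 c20666 c21487 c5450 c5224 k0)) (by decide +kernel)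
def c21490 : PP 9 3 T 0x10000100000000000000000000000000000000000000000000000000000000000000000001000000010000000000000020000000040020 := rS 0x1bc9b6935fbe4108d63defe4eca62a6a3e824fec73cec73bb2066d966cb39804bf92 (k8 c21197 c5439 c53 c9719 c8466 c21482 c21486 c21488 (k8 c21489 c20598 c21477 c5441 c5357 c5358 c21075 c5442 (k8 c316 c1140 c18110 c1135 c21473 c5586 c21100 c15516 (k4 c12636 c5450 c1763 c21199 (k2 c21414 c2942 (k1 c13097 k0)))))) (by decide +kernel)
def c21491 : PP 9 3 T 0x110000000000000000000000000000000000400000000000200000000000000000001000010000000000000000000000000000000 := rS 0x11ff3 (k2 c5591 c2846 (k1 c5675 k0)) (by decide +kernel)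
def c21492 : PP 9 3 T 0x18000100000000000000000000000000000000000000000000000000000000000400000001000000000000000000000010000000042020 := rS 0x7819ec94d8cd269955b28d41901cec82112f9e52e37a503f62e1899f73a9554c555eb57ebfa52093be48b667 (k8 c5487 c715 c21197 c5356 c21075 c20850 c21473 c5405 (k8 c2572 c5406 c3010 c5489 c5488 c20598 c5442 c20798 (k8 c21491 c21477 c21354 c6008 c5518 c21319 c5441 c5439 (k8 c15516 c12636 c20666 c54 c9701 c316 c21484 c20805 (k8 c2373 c1753 c21401 c1326 c10198 c20518 c10916 c18012 k0))))) (by decide +kernel)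
def c21493 : PP 9 3 T 0x18000100000000000000000000000000000000000000000000000000000000000400000001000000000000000000000010000000040020 := rS 0x38edd1c0dac124174a07e7626fe (k8 c21473 c20798 c20598 c21354 c6008 c5516 c5334 c21100 (k4 c21492 c17964 c21488 c2874 (k1 c21486 k0))) (by decide +kernel)
def c21494 : PP 9 3 T 0x18000100000000000000000000000000000000000000000000000000000000000000000001000000000800000000000010000000040020 := rS 0x33866caf1b7d9a3968f81329d55904be794b8ec9237a503f62e189bf8fb9d7ea555329049df6e9b4fa84ff92699111a7059476b13b7896cce11 (k8 c15516 c5487 c715 c5811 c20666 c21100 c5341 c21493 (k8 c21482 c20438 c20834 c2937 c21197 c5358 c2929 c21338 (k8 c2497 c5574 c5356 c21075 c20850 c5489 c5488 c5405 (k8 c20598 c5442 c21473 c20798 c21491 c21477 c21354 c6008 (k8 c5518 c5334 c5332 c21319 c5441 c5439 c12636 c20805 (k8 c1135 c2373 c5679 c5459 c5534 c5537 c5538 c17960 (k4 c5680 c21401 c10216 c20518 k0))))))) (by decide +kernel)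
def c21495 : PP 9 3 T 0x18000100000000000000000000000000000000000000000000000000000000000000000001000000000000000000000010000000040020 := rS 0x8f069ace0b2ac124174a07e7626fe (k8 c21473 c20798 c20598 c21354 c6008 c5516 c5334 c21100 (k4 c21493 c21482 c21494 c316 (k2 c2875 c17964 k0))) (by decide +kernel)
def c21496 : PP 9 3 T 0x18000100000000000000000000000000000000000000000000000000000000000000000001000000000000000000000000000000040020 := rS 0x99f0a6d9aca50eddbcce6af8ce0d16935c0fdf1a3f48209088f6b07d3f95d2e9f1dd281feff6b8e26fe3ce4b3bb1 (k8 c21477 c20598 c21197 c5441 c21473 c20798 c13204 c5544 (k8 c5586 c21354 c6008 c5332 c21338 c21319 c5353 c5358 (k8 c5442 c21100 c5560 c15516 c21075 c12636 c5405 c21495 (k8 c5450 c20806 c1763 c21199 c1704 c21490 c17930 c141 (k8 c2943 c2942 c5571 c2929 c5680 c2507 c2562 c5538 (k2 c1759 c11160 k0)))))) (by decide +kernel)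
def c21497 : PP 9 3 T 0x400000000005000100000000000000000000000000000000000000000000000000000000000000000000000000000000000000000000000000040020 := rS 0x2513b (k2 c20666 c5224 (k1 c21430 k0)) (by decide +kernel)
def c21498 : PP 9 3 T 0x10000100000000000000000000000000000000000000000000000000000000000000000001000000020000000000000000000000040020 := rS 0xd68e5503434afdbcee3b582482e940fcefbfdb137f33c66c966f7b67b1 (k8 c21477 c21496 c21497 c5495 c5494 c5492 c5453 c21473 (k8 c20798 c5544 c5586 c20598 c21354 c6008 c5516 c5334 (k8 c21100 c5341 c20666 c5571 c20748 c18920 c21466 c19296 (k2 c17964 c20805 (k1 c2875 k0))))) (by decide +kernel)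
def c21499 : PP 9 3 T 0x10000100000000000000000000000000000000000000000000000000000000000000000001000000000000000000000000000000040020 := rS 0x19b659b2ce3b339804bf92 (k8 c21197 c5439 c53 c9719 c21496 c21498 c8466 c21482 (k2 c21486 c21488 (k1 c21489 k0))) (by decide +kernel)
def c21500 : PP 9 3 T 0x14000100000000000000000000000000000000000000000000000000000000000000000001000000000000000000000000000000000020 := rS 0x70ba6933e119b3c70dfef3f13be294aa46a5b558715cf19d894024104846b0774b8ec6feff6ec5c3137f1f7251513126940fceab4dc12 (k8 c21499 c318 c20758 c20598 c21354 c6008 c5334 c317 (k8 c3046 c21197 c5442 c21473 c20798 c21491 c21477 c5544 (k8 c5586 c5518 c5332 c21319 c5356 c21100 c15516 c21075 (k8 c12636 c53 c12632 c20666 c5811 c20525 c10145 c1286 (k8 c1995 c332 c21192 c20850 c21386 c10719 c5682 c5224 (k8 c5580 c17960 c5453 c5492 c5534 c2554 c5679 c17703 (k2 c714 c20716 k0))))))) (by decide +kernel)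
def c21501 : PP 9 3 T 0x80000000000000000000000000540041000000000000000000000000000000004011020000000000000 := rS 0x723f (k2 c442 c440 (k1 c17954 k0)) (by decide +kernel)
def c21502 : PP 9 3 T 0x10000100000000000000000000000000000100000000000000000000040000000000000001000000000000000000000014000000000020 := rS 0x35d93e20b285abdf0ccec4a111ed613fef7f6c59671019cc025fc96dc4cad370495e1d4a96ccfb2 (k8 c21500 c5487 c715 c5488 c5486 c5406 c21499 c318 (k8 c20758 c317 c5570 c21197 c5439 c53 c9719 c54 (k8 c2869 c8466 c21477 c21473 c5586 c21338 c21100 c5560 (k8 c15516 c12632 c20666 c9701 c21367 c21481 c21383 c11149 (k4 c5680 c1065 c5465 c21409 k0))))) (by decide +kernel)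
def c21503 : PP 9 3 T 0x10000100000000000000000000000000000100000000000000000000040000000000000001000000000000000000000004000000000020 := rS 0x19adff1285023f6bf7c68630c80c9641048447b584ba7e940ff7b8cf3b170c4dfc7dc96776e260919d2bb2 (k8 c21500 c5488 c5487 c21499 c317 c5570 c20598 c21197 (k8 c5442 c21473 c20798 c21491 c21477 c5441 c13204 c5586 (k8 c21354 c6008 c21338 c21319 c21100 c5560 c15516 c21075 (k8 c12636 c12639 c54 c9701 c9754 c21502 c5450 c1763 (k4 c442 c20909 c2927 c20932 (k2 c5580 c2506 (k1 c21501 k0))))))) (by decide +kernel)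
def c21504 : PP 9 3 T 0x100000000000000000000000000000200000000000000000000000000000000000001000000000000000000000000000000080020 := rS 0xdef112c82090891eb03b24d281ee33cec5c3137f1f7259d (k8 c20598 c21197 c5442 c21473 c20798 c21491 c21477 c5441 (k8 c13204 c21354 c6008 c5334 c5332 c21100 c5562 c15516 (k4 c21075 c12636 c12639 c19025 (k2 c17934 c5580 k0)))) (by decide +kernel)
def c21505 : PP 9 3 T 0x10000100000000000000000000000000000000000000000000000000004000000000000001000000000000000000000000000000000020 := rS 0x33470dff1285e69368f7c64d32082423582ba7c7649058de940ff6ec5c3137f1f73acb3880ce6012fe4b6e260eeca5212 (k8 c21499 c21504 c21500 c5486 c317 c5570 c21197 c5439 (k8 c53 c9719 c54 c2869 c8466 c20598 c5442 c21473 (k8 c20798 c21491 c21477 c5544 c21354 c6008 c5518 c5516 (k8 c5334 c5332 c21338 c5353 c21100 c15516 c21075 c12636 (k8 c2943 c21503 c5492 c9505 c322 c388 c2928 c5680 (k4 c5580 c17960 c2506 c6897 k0)))))) (by decide +kernel)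
def c21506 : PP 9 3 T 0x11000000000000000000000200000000000000000000000000000000008400000010005400000000000000000001010448008011000000 := rS 0x6ff89a6995085927b7 (k8 c5570 c322 c5284 c2928 c1463 c14519 c5680 c2565 (k1 c21403 k0)) (by decide +kernel)
def c21507 : PP 9 3 T 0x10000100000000000000000000000000000000000000000000000000000000000000000001000000000000000000000000000000000020 := rS 0xf0831bc071cb4868334da74f6ce94875fbb256b2cdc2638848e6010c80e764104846b05fc925d3e3b2482c6f4a07e75fdb1 (k8 c21477 c21473 c20598 c21354 c6008 c5518 c5516 c5334 (k8 c5332 c21338 c21319 c21197 c5439 c21100 c15516 c21075 (k8 c12636 c20666 c54 c9701 c53 c9719 c21499 c2869 (k8 c317 c318 c8466 c20758 c21500 c5405 c5486 c21504 (k8 c21505 c20767 c1650 c2562 c21506 c20518 c21503 c2559 (k4 c20806 c2942 c21263 c5538 (k1 c10916 k0))))))) (by decide +kernel)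
def c21508 : PP 9 3 T 0x100000000000000000000000000000000000000000000000000000000000000020001000000000000000000000004000000000020 := rS 0x3d33472d1ef81daa921a05c160d948876e2325ec62a9d4cacf246d1d898922508804520323d603e12f97b7defea503f3bb4 (k8 c21507 c20598 c21354 c6008 c21473 c5586 c5544 c21155 (k8 c21474 c5517 c21100 c5562 c54 c9694 c53 c15516 (k8 c12632 c5334 c17931 c5332 c5529 c21197 c5532 c5530 (k8 c5412 c5414 c21477 c12639 c9734 c17828 c5528 c18119 (k8 c315 c5516 c1068 c21383 c2928 c4932 c714 c5450 (k4 c1704 c324 c2507 c21263 (k1 c20893 k0))))))) (by decide +kernel)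
def c21509 : PP 9 3 T 0x100000000000000000000000000000000000000000000000000000000000000010001000000000000000000000000000000000020 := rS 0x248709a6ff88324104d60ae9f1bb8cf2e1899f652212487f6e2912844464bd8c553a99599b476b5659c425f2f6fbdfd4a07e77680339804bf92 (k8 c21197 c5439 c53 c9719 c54 c21507 c20598 c21354 (k8 c6008 c21473 c5586 c5544 c21155 c21474 c2869 c8466 (k8 c5548 c5332 c5529 c5532 c5530 c5412 c5414 c21477 (k8 c12639 c9734 c15516 c12632 c9694 c17828 c5517 c5334 (k8 c5528 c18119 c5442 c20798 c21491 c5441 c13204 c5518 (k8 c21338 c5353 c21100 c21075 c12636 c9701 c5680 c14125 (k4 c19797 c17960 c9848 c324 k0))))))) (by decide +kernel)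
def c21510 : PP 9 3 T 0x100000000000000000000000000000000000000000000000000000000000000000001000000000000000000000000000000000020 := rS 0x1e9a3df668e40e326aa482ea013037e421da7b7defe1480c4a110091eb057c90ec3e4905d281f9d (k8 c20598 c21354 c6008 c5516 c5334 c5517 c5332 c21197 (k8 c5353 c21100 c5562 c53 c15516 c12632 c54 c9694 (k8 c21473 c5586 c5544 c21507 c5528 c21155 c315 c17931 (k8 c21509 c1068 c2928 c4932 c21508 c714 c324 c2507 (k4 c5492 c9505 c21263 c20893 k0))))) (by decide +kernel)
def c21511 : PP 9 3 T 0x4000000000000000000000000000000000000000080000000000000000010000000000000000000000000002000000000000040004000000000000005000 := rS 0x1ed81bdc16f5 (k4 c5519 c5516 c5333 c21152 (k2 c20874 c21172 k0)) (by decide +kernel)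
def c21512 : PP 9 3 T 0x6000000000091000010000000000000800200080000000000400000000000540000000000000000000000000000000000040004000008000000800000 := rS 0x3eba5fb51d47e5dcebf5a53239249bdf (k8 c5492 c5521 c5334 c5562 c5563 c5602 c5603 c17708 (k4 c7668 c1467 c20724 c5693 (k2 c20858 c17833 (k1 c5242 k0)))) (by decide +kernel)
def c21513 : PP 9 3 T 0x10002000090504000000000000000000000000000000000000001000000000044000000000000004000840000000000000000000000000 := rS 0xb9faee703a9 (k4 c5388 c5607 c20789 c17843 (k2 c1141 c5686 k0)) (by decide +kernel)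
def c21514 : PP 9 3 T 0x100000000000000000000000000000000000000000000440000000000000000000000000000000000000100000008000000000020 := rS 0x29946a57679773ad15d9b4ab7c48ec9e4d61e0ccf911cb97c09d369ed02d31ab5e3ae16f9ffe711da8a44a234c8583a73008dd36932b864078b351b8e3b650abda8cbf18f93fb2d8f7e772946c7d7620064048811f7d6026492d9df2490a56741e4b (k8 c12639 c21354 c20598 c6008 c21510 c21197 c5356 c2041 (k8 c5334 c3036 c21100 c19004 c15516 c21230 c3066 c21511 (k8 c315 c2661 c581 c10035 c5316 c20666 c5492 c21451 (k8 c5224 c21338 c389 c5576 c21401 c390 c5406 c3000 (k8 c5680 c5571 c18613 c3039 c4760 c54 c9701 c5353 (k8 c3676 c9848 c5518 c53 c9719 c21272 c5284 c1463 (k8 c9734 c12632 c9694 c17828 c9730 c5589 c5358 c2948 (k8 c3056 c5341 c2185 c120 c2937 c20909 c15912 c746 (k8 c8792 c5679 c5539 c5534 c5491 c5487 c5407 c3793 (k8 c5521 c5335 c5332 c21218 c12165 c21513 c6187 c5601 (k8 c5602 c17708 c7668 c21512 c1070 c1467 c5681 c1786 k0))))))))))) (by decide +kernel)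
def c21515 : PP 9 3 T 0x100000000000000000000000000000004000000080000000000000000000000000000000000000000000100000008000000000020 := rS 0x20b0784d1f5ed886b6f5aea29bdc9ef526b95e6396721fc09d369c4f681698d5af1df7d61c2df3ffce23b5db2855fb2efceda8cbf1a7c52251192d32160e9cc0237d884d36939486406796882caeef1f5bc885b3be48934a07e752011 (k8 c15516 c21510 c20598 c21354 c6008 c5334 c21197 c5356 (k8 c2041 c21230 c603 c389 c3107 c5353 c5516 c9505 (k8 c5441 c54 c9701 c5316 c3676 c9848 c3036 c21451 (k8 c5518 c53 c9719 c21272 c5284 c1463 c12639 c9734 (k8 c12632 c9694 c21338 c5576 c21401 c390 c20666 c5492 (k8 c5224 c5406 c3000 c5680 c17828 c9730 c5589 c5358 (k8 c2948 c3056 c21100 c19004 c5341 c2185 c120 c2937 (k8 c20909 c15912 c5571 c746 c8792 c5679 c10690 c20854 (k8 c5534 c387 c5539 c5521 c5519 c5335 c5333 c5563 (k8 c21514 c3207 c3385 c3361 c3005 c2050 c392 c2684 (k2 c2203 c3340 (k1 c3594 k0)))))))))))) (by decide +kernel)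
def c21516 : PP 9 3 T 0x400000000000000100000000000000080000000005000000000000000000000000000400000000000000000000 := rS 0x35be5 (k2 c5623 c3207 (k1 c5656 k0)) (by decide +kernel)
def c21517 : PP 9 3 T 0x100000080000000040400000004004000000000000000000000000000005000000000000000000000000000000000008000000000000 := rS 0x36db3a9f87935f29 (k8 c5316 c2050 c5656 c5659 c5469 c5621 c5627 c20860 k0) (by decide +kernel)
def c21518 : PP 9 3 T 0x20000000000000000000080000000040400000004004000000000000000000000000000000000000000000000000000000000000000008000000000000 := rS 0xdbf86bdb3a9 (k4 c5469 c5621 c2049 c5659 (k2 c5627 c20860 k0)) (by decide +kernel)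
def c21519 : PP 9 3 T 0x100000000000000000000000000000004000000080000000000000000000000000000000000000000000000000008000000000020 := rS 0xed51afdb7b8f87954fac75a968ec1b3942deef1794d86bdc2bcc73e04e9b4e27b40b4c6ad78efbeb0e16f9ffe711daed942afd977e76d465f8c7c9f14894464b4c8583a73008df62134da4c885b3b926940f480465257c96743203 (k8 c54 c9701 c20598 c21197 c5353 c5316 c15516 c21510 (k8 c21354 c6008 c5334 c5356 c2041 c21230 c3676 c9848 (k8 c3036 c21451 c5518 c53 c9719 c21272 c5284 c1463 (k8 c12639 c9734 c12632 c9694 c21338 c389 c5576 c21401 (k8 c390 c20666 c5492 c5224 c5406 c3000 c5680 c17828 (k8 c9730 c5589 c5358 c2948 c3056 c21100 c19004 c5341 (k8 c2185 c120 c2937 c20909 c15912 c5571 c746 c8792 (k8 c5679 c5534 c387 c5423 c5575 c3793 c5563 c9709 (k8 c3107 c603 c21515 c5350 c415 c468 c1071 c21516 (k8 c21517 c1500 c21518 c5167 c5227 c5627 c5431 c5614 (k2 c1664 c3622 k0))))))))))) (by decide +kernel)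
def c21520 : PP 9 3 T 0x440000000000000000000000000000000000000000000000000000044000000000000000000000000000000000000000000000000204000000000000000000 := rS 0x233f5 (k2 c5552 c2637 (k1 c5697 k0)) (by decide +kernel)
def c21521 : PP 9 3 T 0x100000000000000000000000000000008000000000000000000000000000000000000000000000000000000000008000000000020 := rS 0xdcf9748ee8f945d717fbd9fe6c3c199f231b371c76ca157b5197e31f27f65b1efcee528d064048811f7d6026492d9df2490a56741e4b (k8 c12639 c21354 c20598 c6008 c21510 c21197 c5356 c2041 (k8 c5334 c3036 c21100 c19004 c15516 c21230 c3066 c21511 (k8 c10035 c5316 c20666 c5492 c21451 c5224 c21338 c389 (k8 c5576 c21401 c390 c5406 c3000 c5680 c5571 c18613 (k8 c5037 c5491 c5487 c5407 c3793 c5589 c5351 c5594 (k8 c3076 c2957 c21520 c581 c21514 c6187 c5473 c20789 (k1 c5227 k0))))))) (by decide +kernel)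
def c21522 : PP 9 3 T 0x100000000000000000000000000000000000000000000000000000000000000000000000000000000000000000008000000000020 := rS 0x19e87f640e47e04e9b76a71db1ed32a14db87c6810b2bd26d41f34c3b01d911363ef65b5cb6d11af7e522339c44521901cec9625088063b583c95cee9f058dfe61324d281f9d6fa40ff92 (k8 c21197 c5358 c21510 c2948 c20598 c21354 c6008 c5334 (k8 c3036 c5589 c5518 c5516 c21338 c5356 c5353 c5441 (k8 c21100 c5341 c53 c15516 c12632 c12639 c20666 c54 (k8 c9701 c9694 c9730 c9719 c9734 c5316 c5492 c120 (k8 c9505 c2041 c2185 c21401 c19004 c21451 c21230 c5224 (k8 c3066 c21272 c2937 c389 c390 c3676 c5406 c5284 (k8 c20909 c5576 c3056 c9848 c3000 c1463 c15912 c5680 (k8 c5571 c17828 c746 c8792 c5679 c21521 c21519 c21172 (k2 c5499 c5543 (k1 c20854 k0)))))))))) (by decide +kernel)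
def c21523 : PP 9 3 T 0x4000000000000000000000080000000000000200000004000100000000000000000000200000000000000000000000000000000000010004000000040000 := rS 0xd1a63d (k4 c5560 c141 c21481 c21320 k0) (by decide +kernel)
def c21524 : PP 9 3 T 0x6000000000000001000100000000000000000000000000000000000000000000000000140000000050000000000000000000000000000000000000800020 := rS 0xe36b6d76c9533068b40d64a6536a14988c52032589422012fa5d3e1f7b82c6ef5a503f3bf346b7d207f19f859e873cb44ef92 (k8 c21197 c5356 c5501 c5441 c5499 c5543 c20854 c21522 (k8 c5358 c21510 c2948 c10035 c5589 c20598 c21354 c6008 (k8 c5519 c5518 c5516 c5333 c5517 c21338 c21319 c5439 (k8 c53 c15516 c12632 c12639 c54 c9694 c9734 c55 (k8 c1068 c1066 c1463 c1065 c9046 c20874 c716 c715 (k4 c1905 c5282 c17828 c18016 (k2 c6448 c10298 k0))))))) (by decide +kernel)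
def c21525 : PP 9 3 T 0x6000000000000001000100000000000000000000000000000100000000000000000000040000000050000000000000000000000000000000000000000020 := rS 0x336bb658b2472cbef6cdc4920385c6a2314864064b128047a5f3f95d2e9ff9f859e873cb47c6d51984c934a07e76b04104846768d481dcfb92 (k8 c21197 c5442 c5356 c21510 c10035 c20666 c15516 c21075 (k8 c12636 c21100 c20598 c21354 c6008 c5334 c3036 c21522 (k8 c21523 c20727 c5501 c5441 c5499 c5543 c20854 c5589 (k8 c21338 c21319 c5353 c5358 c5439 c5560 c53 c12632 (k8 c12639 c54 c9701 c9694 c9734 c21320 c21524 c714 (k8 c5648 c18100 c20486 c20485 c1753 c2617 c5494 c9422 (k4 c5683 c17828 c18039 c15583 k0))))))) (by decide +kernel)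
def c21526 : PP 9 3 T 0x1000100000000000000000000000000000100000000040000000000000000000000000000000000000000000000200000000000000020 := rS 0x37edce22665a01247a7105c7ccd708d1a5e36af859ed143abfd81d80ab7def139864073b12804820908d618e7d3c9dd2ff346bfc2649a503f3adf481ff2433 (k8 c21522 c21197 c5358 c21510 c2948 c20598 c21354 c6008 (k8 c5334 c3036 c20750 c10035 c5589 c21319 c5356 c5441 (k8 c5442 c5357 c21100 c15516 c21075 c12636 c53 c12632 (k8 c20666 c54 c9701 c9719 c5811 c5582 c2887 c3066 (k8 c21272 c9612 c10145 c5499 c5501 c5543 c20854 c21523 (k8 c20727 c21525 c2937 c3062 c12473 c2936 c1619 c5691 (k8 c20770 c5648 c1775 c1753 c326 c752 c5570 c4965 (k1 c5666 k0)))))))) (by decide +kernel)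
def c21527 : PP 9 3 T 0x4000000000000001000100000000000000000000000000000100000000001000000000000000000051000000000000000080000000000000000000000020 := rS 0x1b76a71f6ed846290192c4a1100d281f9d46a41a6c93be492fb3 (k8 c5487 c21319 c21197 c5356 c2063 c13297 c21510 c10035 (k8 c20598 c21354 c6008 c53 c15516 c12632 c12639 c54 (k8 c9694 c9734 c5282 c21525 c5571 c17828 c746 c5830 k0))) (by decide +kernel)
def c21528 : PP 9 3 T 0x1000100000000000000000000000000000100000000040000000000000000000000000000000000000000000000000000000000000020 := rS 0x12aca381bf6e998aa75a3b455b88da80f6b5fdde36ab3da7de66b2766a956abdfa660d1688a2339c44520325894220121d60fa774bbd51a1324d281f9d6fa40ff92 (k8 c21197 c5358 c21510 c2948 c20598 c21354 c6008 c5334 (k8 c3036 c10035 c5519 c21319 c5356 c5442 c21100 c5561 (k8 c53 c15516 c12632 c12639 c54 c9694 c9730 c9719 (k8 c9734 c21526 c21230 c716 c715 c21278 c17787 c1908 (k8 c1906 c5487 c2063 c13053 c21497 c13297 c5453 c5454 (k8 c20727 c21527 c5507 c14774 c20821 c3863 c908 c20861 (k8 c5830 c1779 c10719 c5414 c5530 c17828 c3038 c5666 (k2 c20889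 c1757 (k1 c10216 k0))))))))) (by decide +kernel)
def c21529 : PP 9 3 T 0x8000000000000004000100000000000000000000000000000000000000041000000000000100000001000510000000000081000000000000000000000020 := rS 0x4eb459aab711b7c27a06fb5af110092c82c73ca5c1637f9b7cffe32b824fa3dac044269024d2b3acf0781c6792 (k8 c21197 c21522 c713 c21354 c21279 c20598 c6008 c5334 (k8 c21510 c3036 c15516 c21100 c5560 c5442 c21075 c5353 (k8 c17930 c5358 c2948 c5589 c5518 c5516 c21319 c5441 (k8 c5357 c12636 c12639 c53 c9730 c5507 c14774 c17806 (k8 c15503 c18042 c742 c18100 c20861 c2623 c1779 c10719 (k1 c3617 k0)))))) (by decide +kernel)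
def c21530 : PP 9 3 T 0x100000000000000000000000000000100000000040000000000000000000000000000000000000000000000000000000000000020 := rS 0x6b331a3e180a77d8ab351b76a71db357decf54ab55efd0d01ccc5ad9a652a614db2543b011c4452039d92c4a01208242243ac17cef924ba7dea8d7f84d2049a503f3a33 (k8 c21522 c20598 c21354 c6008 c5334 c21510 c3036 c20750 (k8 c10035 c5519 c21338 c21319 c21197 c5356 c5439 c21100 (k8 c5561 c15516 c21075 c12636 c53 c12632 c12639 c20666 (k8 c54 c9694 c9730 c9734 c21528 c5398 c5396 c5397 (k8 c5445 c5446 c5447 c18631 c21451 c20857 c713 c716 (k8 c21278 c17787 c1908 c1906 c21279 c21529 c21523 c5282 (k8 c5571 c17828 c746 c5665 c20861 c5830 c1135 c13274 (k4 c18012 c5501 c18006 c18121 (k1 c2191 k0))))))))) (by decide +kernel)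
def c21531 : PP 9 3 T 0x2000100001000000000000000000000000100000040000000000000000004000000000000000008000000000000000000000000000020 := rS 0xd986792ff2593c7e2a55c78ec9e3747a8d6b078db3018201c9aa226d38c2dcaeb220f82e191a0c60be36bb75a44d89f7fd8874eb2f6bb658a355a4357ecc5203128044679bc91ca64b7178556662f9dd32a90d3d5fa5a4aa6d9ed5f78cc273b8125d920730fccae3dac1fc934a07e75207dc91042209 (k8 c21075 c15516 c12636 c21197 c5442 c21510 c20598 c21354 (k8 c6008 c5334 c5358 c21100 c5560 c5353 c5589 c5445 (k8 c713 c5396 c21319 c21530 c20666 c3036 c21522 c5508 (k8 c21523 c2634 c5397 c5446 c21451 c21278 c5519 c716 (k8 c1906 c5447 c5356 c5439 c20857 c4548 c18012 c18100 (k8 c12639 c5563 c5562 c5359 c5441 c9734 c53 c12632 (k8 c54 c9694 c18631 c17787 c5561 c1908 c10035 c2179 (k8 c5683 c17828 c5420 c1777 c10690 c20488 c17889 c198 (k8 c5521 c17893 c4576 c205 c20727 c5545 c4369 c9931 (k8 c9701 c1619 c17858 c441 c21213 c2626 c2944 c5571 (k8 c746 c9730 c5665 c2617 c17923 c2371 c18006 c4790 (k8 c5503 c5422 c5449 c165 c5518 c5335 c5332 c5443 (k8 c5343 c21285 c21200 c21291 c21290 c21214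 c21216 c20753 (k2 c5621 c2089 k0)))))))))))))) (by decide +kernel)
def c21532 : PP 9 3 T 0x2000100000000000000000000000000000104000000000000000000000000000000000000000000000000000000000000000000000020 := rS 0x8a9bb12813de35caeb8783088c3778807c171a46dba316bf7d990583a75a439f61a8dae2dab2ce3e1db2a55aab58abdfa1a03998b5b34ca54c29b64a85477d1198ce71114864064b1280486531e91cbf8fbc9e4fe574b8ddea4df9c4d0ecff1b57df021984c934a07e76b04104846768d481dcfb92 (k8 c21197 c5442 c5356 c21510 c10035 c20666 c15516 c21075 (k8 c12636 c21100 c20598 c21354 c6008 c5334 c3036 c21522 (k8 c21530 c5508 c21523 c20727 c2634 c10690 c198 c5589 (k8 c5521 c5519 c5518 c21319 c5353 c5358 c5441 c5359 (k8 c5443 c5439 c5562 c5560 c5563 c5561 c53 c12632 (k8 c12639 c54 c9701 c9694 c9730 c9719 c9754 c9734 (k8 c9703 c5449 c5398 c5396 c5397 c5445 c5446 c5447 (k8 c18631 c21451 c20857 c713 c716 c21278 c17787 c2179 (k8 c4548 c1908 c1906 c5683 c18012 c5571 c5420 c17828 (k8 c18100 c746 c5665 c20488 c2617 c17893 c1777 c5503 (k8 c5545 c18006 c17889 c205 c4369 c4576 c4790 c9931 (k8 c1619 c17858 c17923 c3107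 c599 c441 c2371 c3117 (k8 c21213 c2626 c21293 c21531 c907 c21227 c18032 c21226 (k1 c3038 k0)))))))))))))) (by decide +kernel)
def c21533 : PP 9 3 T 0x1000000000000000100000000000000000000000000000000000000000000000000000000000000000800000000000000000000000000000000000020 := rS 0x1c4dfb7502d1c4070b9cc0241048447b583e9fcaf920f926940fcefce2690 (k8 c21510 c198 c5589 c20598 c21354 c6008 c5334 c5517 (k8 c21197 c5353 c5358 c5442 c21100 c5560 c15516 c21075 (k8 c12636 c53 c9719 c1066 c714 c18100 c2621 c2622 (k4 c5422 c1149 c2929 c5666 k0)))) (by decide +kernel)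
def c21534 : PP 9 3 T 0x1000100000000000000000000000000000100000000001000000000000000000000000000000000000000080000000000000000000020 := rS 0x2a55aaf33068021121d61eb4a07e77df02 (k8 c21530 c5508 c20598 c21354 c6008 c5519 c21100 c5561 (k8 c15516 c53 c716 c715 c17787 c1908 c1906 c21527 k0)) (by decide +kernel)
def c21535 : PP 9 3 T 0x1000100000000000000000000000000000100000000000000000000000000000000000000000000000000000000000000000000002020 := rS 0x137e16896dfbb51017cf27743bcc96cf6afbc661348126940fcee4ab041048467702 (k8 c21530 c20666 c15516 c21075 c12636 c21100 c21197 c20598 (k8 c21354 c6008 c5334 c21510 c3036 c21522 c5508 c21523 (k8 c2634 c12639 c2627 c10690 c5356 c5441 c5439 c315 (k4 c5528 c2550 c21534 c9793 (k2 c20854 c21533 (k1 c10916 k0)))))) (by decide +kernel)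
def c21536 : PP 9 3 T 0x100000000000000000000000000000104000000000000000000000000000000000000000000000000000000000000000000000020 := rS 0xfd2d037630225d281f9d (k8 c20598 c21354 c6008 c12639 c21530 c21532 c21535 c21152 (k2 c21278 c21534 k0)) (by decide +kernel)
def c21537 : PP 9 3 T 0x100000000000000000000000000000200000000000000000000000000000000000000000000000000000000000000000000000020 := rS 0x1b6da7bfdad31af7b66a956abdfa660d168dad54078c62071f88c520325894024104844863dac1f4fe573be486ef54684d2049a503f3a33 (k8 c21522 c20598 c21354 c6008 c5334 c21510 c3036 c10035 (k8 c5519 c5518 c21197 c5356 c5353 c5358 c5442 c21100 (k8 c5560 c5561 c15516 c21075 c12636 c53 c12632 c12639 (k8 c54 c9694 c9734 c5318 c5432 c5434 c17785 c12613 (k8 c20766 c3863 c21429 c716 c715 c21278 c17787 c1908 (k8 c1906 c5487 c21430 c5450 c5496 c17743 c14662 c5830 (k2 c5282 c17828 k0))))))) (by decide +kernel)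
def c21538 : PP 9 3 T 0x100000000000000000000000000000000000000000000000000000000000000000000000000000000080000000000000000000020 := rS 0x42307f05ce1db1b9c0dff52b7d262586e58fbad760c223bc403e6085ca2346ec6dae31690e599df71275a391f09abd82d36c140e994aa6d43b513b2ce30bd86d9576f64ecd52ad57bf43a660d08e22290c80c96250090ca63d2397ef2792ba5c764f1bbd49b136f9fecff767c07e6ff83c5e45e36afbe05291984c934a07e76b04104846768d481dcfb92 (k8 c21197 c5442 c5356 c21510 c10035 c20666 c15516 c21075 (k8 c12636 c21100 c20598 c21354 c6008 c5334 c3036 c21522 (k8 c21537 c21530 c5508 c21523 c20727 c21536 c3076 c2204 (k8 c20750 c5589 c212 c8707 c5594 c5351 c5358 c2948 (k8 c198 c5521 c5519 c5518 c5335 c5332 c21319 c5353 (k8 c5441 c5359 c5439 c5562 c5560 c5563 c5561 c53 (k8 c12632 c12639 c54 c9701 c9694 c9730 c9734 c716 (k8 c715 c1995 c21278 c17787 c1908 c1906 c5487 c2063 (k8 c4560 c4548 c5282 c21534 c3017 c5571 c5420 c5570 (k8 c17828 c5398 c5397 c5446 c5447 c20822 c2636 c746 (k8 c364 c5682 c5665 c18012 c1911 c5501 c1135 c18100 (k8 c17889 c3617 c2617 c17893 c1916 c2192 c4790 c4576 (k8 c9931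 c21520 c1619 c3732 c17858 c16340 c3108 c441 (k8 c2371 c2662 c21213 c581 c2626 c600 c21218 c6187 (k8 c12165 c5388 c5389 c5607 c8905 c21378 c2224 c1141 (k4 c5230 c3339 c3624 c5514 k0)))))))))))))))) (by decide +kernel)
def c21539 : PP 9 3 T 0x100000000000000000000000000000000000000000000000000000000000000000000000000000000000000000000000000000020 := rS 0x19b12dc07df029484d2049a503c979d (k8 c20598 c12639 c21354 c6008 c5334 c21510 c3036 c21537 (k4 c21530 c5508 c212 c21538 (k2 c21451 c21511 (k1 c21535 k0)))) (by decide +kernel)
def c21540 : PP 9 3 T 0x4000800000000000000200000000000000000000000000000000000000000000000000010040000000000002000041400000000000000000000000000000 := rS 0x103f6a18f70170f8dacd366b559e81469f7e6df (k8 c2948 c5589 c5566 c5381 c5380 c5453 c5454 c5495 (k8 c5496 c20754 c20727 c1720 c2145 c15912 c20853 c5499 (k2 c10690 c21172 k0))) (by decide +kernel)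
def c21541 : PP 9 3 T 0x40000000000000000000000000000000000000000000000000000000000000000000000002000000000000000004000000000000002020 := rS 0xda080dfa0f9ace2201 (k8 c53 c9730 c2897 c5589 c21539 c5565 c315 c16685 (k1 c5528 k0)) (by decide +kernel)
def c21542 : PP 9 3 T 0x4000000000000001000000000000000000000000000000000100100000020000000000000000000000000002000000000000040000100000000000000020 := rS 0x338e0d4122c7c442ac8a4068d099bcfaaddbecbbe7f3cb1f24772bb4677a0 (k8 c21539 c20666 c9793 c19416 c5912 c5209 c5357 c5441 (k8 c5358 c21540 c5224 c19230 c5490 c5566 c5565 c5564 (k8 c5381 c54 c9694 c20837 c20833 c5226 c1932 c5252 (k4 c20727 c20841 c3073 c6082 k0)))) (by decide +kernel)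
def c21543 : PP 9 3 T 0x4000000000000001000000000000000000000000080000000100000000000000000000000000000000000002000000000000040004000000000000000020 := rS 0x1032247601ed06edf65df3f9e58e77c915e77a007bdc920b7afcdfed1 (k8 c9793 c20750 c5589 c5519 c5516 c5334 c5333 c5329 (k8 c21539 c20666 c19416 c5209 c5912 c5357 c5441 c5358 (k8 c21540 c5224 c19230 c21541 c20874 c21511 c20671 c21542 (k2 c21152 c9612 k0)))) (by decide +kernel)
def c21544 : PP 9 3 T 0x4000000000000002000000000000000000000000000000000100000000020000000000010000000000000000000000000000040005000000000000000020 := rS 0x78fbed265e4daa10d933f6e703389c3ab157ab485596bc748af13980452039da34266fd027d4295 (k8 c5446 c5398 c5448 c21539 c5565 c5564 c5381 c20666 (k8 c54 c9694 c53 c9719 c5811 c3066 c2140 c2145 (k8 c20837 c20833 c9614 c2777 c1932 c2000 c2862 c20694 (k8 c20793 c5571 c10436 c5683 c20728 c3073 c18631 c20349 (k4 c17820 c18008 c5579 c5166 k0))))) (by decide +kernel)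
def c21545 : PP 9 3 T 0x4000000000000000000000000000000000000000080000000100000000000000000000000000000000000002000000000000040004000000000000000020 := rS 0x1c6e16f9e0707b2b64d9671daed98e20064040e61d8444039d049bcfa8fd003c92d1 (k8 c9793 c5334 c5329 c21539 c5568 c5566 c5565 c21075 (k8 c20598 c53 c9730 c21543 c5445 c713 c21544 c21511 (k8 c315 c2481 c21541 c5528 c5571 c5420 c12830 c10195 (k4 c17741 c369 c370 c14796 (k2 c10249 c2617 (k1 c18210 k0)))))) (by decide +kernel)
def c21546 : PP 9 3 T 0x8000000000000080000000000000000000000000000000000000000000000000000000000000000000000000000000000000040000000000000000000020 := rS 0x70846608ab4e28d09e823a45 (k8 c5582 c5504 c21539 c5564 c5381 c5571 c5573 c719 (k4 c19392 c20779 c20694 c2000 k0)) (by decide +kernel)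
def c21547 : PP 9 3 T 0x8000000000000000000000000000000000000000000000000000000000000000000000000000000010000000000000010000040000000000000000000020 := rS 0x68ccf1d99cc02b13790822458e84d1ba0 (k8 c21539 c5381 c5564 c5504 c5582 c719 c20779 c5565 (k8 c5506 c53 c9719 c20843 c5811 c19392 c10701 c1902 k0)) (by decide +kernel)
def c21548 : PP 9 3 T 0x62000000040000000000000100000000000100000000000000000000000040000000000002000000000000000000000000002000011020 := rS 0x196df209ecad9d47e800e61 (k8 c5445 c713 c21539 c5568 c20598 c10195 c17741 c12628 (k2 c14796 c1091 (k1 c20377 k0))) (by decide +kernel)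
def c21549 : PP 9 3 T 0x42000000080000000000000000080000000100000000000000000000000000000000000002000000000000000004000000000000010020 := rS 0x1bc7fd002fe60d (k4 c21541 c5589 c5516 c21539 (k2 c5358 c16939 (k1 c2948 k0))) (by decide +kernel)
def c21550 : PP 9 3 T 0x8000000000000024000000040000000000000000080000000100000000010000000000000040000004001002000000000000040000000000000000011020 := rS 0xcf4bbf4661a0e8f44c2510bc452039d87c6ea9f9bfda303f6a7d929b4aa6484458ea359a7b0398761b73ea06b213d0675ea352b02dee0f (k8 c5329 c5333 c5516 c10195 c20773 c5519 c20598 c21539 (k8 c5564 c19004 c5380 c5566 c21546 c20760 c5445 c713 (k8 c17741 c21176 c5381 c5504 c5582 c20779 c5447 c5446 (k8 c5397 c5396 c5448 c20874 c5508 c9793 c20750 c5589 (k8 c21192 c5518 c5517 c20666 c54 c9694 c5811 c5528 (k8 c21548 c5651 c12427 c18526 c9331 c2048 c20237 c1074 (k2 c20518 c3617 k0))))))) (by decide +kernel)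
def c21551 : PP 9 3 T 0x41000000000000054000000000000000000000100000000000000001000000000000000000000000500000000000000000000000000080000000000000020 := rS 0x5a0a4073b (k4 c20666 c54 c9694 c5685 (k1 c20590 k0)) (by decide +kernel)
def c21552 : PP 9 3 T 0x80000000100000000010000000000000000000000000002000000010000040004000000000000000020 := rS 0xf7c6e03f31b689d3de4e2aab216ccda1139e751a6f54fcd671100c756245f68341ef705bd40e61d86dcfa81acfb827a0 (k8 c21539 c5564 c21545 c19004 c5380 c5566 c21546 c20760 (k8 c5445 c713 c5519 c5516 c5333 c5329 c21541 c20874 (k8 c5582 c5506 c5504 c53 c9730 c2897 c5589 c21192 (k8 c5565 c5381 c20598 c9719 c719 c746 c20843 c20779 (k8 c20861 c9222 c21549 c17741 c8792 c21551 c21550 c800 (k4 c801 c5577 c2764 c16773 k0)))))) (by decide +kernel)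
def c21553 : PP 9 3 T 0x80000000100000000010000000000000000000000000002000000000000040004000000000000010020 := rS 0x67a5cdafd198695715668d43a3d132b0f65612e4c84f11480f3b3b4687c1ef7058ddeaa959c4402d18e9141a9f6481cc3b0db9f50359f704f4070 (k8 c21552 c21539 c5564 c21545 c19004 c5380 c5566 c21546 (k8 c20760 c5445 c713 c5396 c5448 c21541 c5582 c5504 (k8 c9793 c53 c9730 c2897 c21192 c5519 c5518 c5516 (k8 c5333 c5329 c5517 c5381 c20666 c20598 c54 c9694 (k8 c5811 c20779 c21549 c2754 c10195 c17741 c5252 c5651 (k8 c12427 c18526 c20773 c21176 c3052 c2128 c2863 c2048 (k4 c20237 c747 c1074 c20518 (k1 c9860 k0)))))))) (by decide +kernel)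
def c21554 : PP 9 3 T 0x8000000000000000000000040000000000000000080000000100000000010000000000000000000000000002000000020000040000000000000000021020 := rS 0x8633bcc3a3221349c3e0efab4d914dab35be3c1ab2cf6561480fe6ff59c45a2b16bc0d5ed5f683deef54fa852a0730ec36e7d40d6427a0138059eb505e75c624 (k8 c720 c5731 c20598 c5516 c5804 c17612 c53 c2859 (k8 c21539 c5564 c19004 c5380 c5566 c21546 c20760 c5445 (k8 c713 c5446 c5398 c5448 c5519 c5333 c5329 c20874 (k8 c5585 c5584 c5508 c5507 c5506 c9793 c9730 c2897 (k8 c20750 c5589 c54 c9694 c10195 c17741 c20349 c20773 (k8 c773 c2949 c21176 c20376 c5685 c3049 c3052 c18008 (k8 c5688 c5460 c3627 c2768 c2769 c2000 c388 c20694 (k2 c20774 c744 k0)))))))) (by decide +kernel)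
def c21555 : PP 9 3 T 0x80000000100000000010000000000000000000000000002000000000000040004000000000000000020 := rS 0xe16ff85a5e32b9fcf2c7c938c4810380251a0f058dfe6d76a8340e61d86dcfa81acfb827a0 (k8 c21539 c5564 c21545 c19004 c5380 c5566 c21546 c20760 (k8 c5445 c713 c21541 c5585 c5507 c5589 c5518 c5516 (k8 c5329 c5381 c21075 c21552 c21553 c720 c5731 c21554 (k8 c5357 c5441 c5358 c5353 c20829 c20816 c18042 c2948 (k2 c3062 c5691 k0))))) (by decide +kernel)
def c21556 : PP 9 3 T 0x48000000000000000000000080000000000000000080000000100000000000000000440014000000000000000000000000000040000000000000000001020 := rS 0x35790f198387077fc3e33b95cfe796382476376bb57da0f7b82dea0730ec36e7d40d6427a0 (k8 c21539 c5564 c19004 c5380 c5566 c21546 c20760 c5445 (k8 c713 c5519 c5516 c5333 c5329 c20874 c5585 c5507 (k8 c5518 c5332 c21075 c5357 c5441 c5358 c5353 c5356 (k8 c20829 c18042 c20759 c5691 c21235 c5688 c16773 c20879 (k2 c1623 c2501 k0))))) (by decide +kernel)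
def c21557 : PP 9 3 T 0x2000000000000000000000000000000000000000000000100000000001008000000014000000000000000000001002000040000000010000000000020 := rS 0x21cee67198767639 (k8 c5534 c20666 c334 c387 c20694 c9300 c744 c20854 k0) (by decide +kernel)
def c21558 : PP 9 3 T 0x4000000000000000041000000000000000000000000008000002000040000000000000000000000 := rS 0xcdb2 (k2 c11044 c744 (k1 c5487 k0)) (by decide +kernel)
def c21559 : PP 9 3 T 0x48000000000000000000000000000000000000000080000000100000000020000000000010000000400000000000000020000040000000000000000021020 := rS 0x433cfc079efbf55a6c35c519bb51ab2cf656c9b8d6acf1209de311008a4079d9daa5aeaff683dee0b7aa640e61d86dcfa81ac84f40df (k8 c2953 c21539 c5564 c19004 c5380 c5566 c21546 c20760 (k8 c5445 c713 c5447 c5519 c5516 c5333 c5329 c20874 (k8 c5584 c5507 c21192 c20666 c20598 c54 c9694 c53 (k8 c9730 c5811 c2859 c720 c17612 c5804 c5731 c21556 (k8 c10195 c17741 c20349 c20773 c20376 c21176 c5685 c16719 (k8 c3049 c3053 c1241 c18022 c2428 c5688 c21557 c20774 (k1 c21558 k0))))))) (by decide +kernel)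
def c21560 : PP 9 3 T 0x80000000100000000000000000000000000000000000002000000020000040004000000000000000020 := rS 0x19e9736b35fa330d2ae2a350e8f44cac3d9584b9321045e22901e76768d0f83dee0b1bbd553f359c4402d18e9141a9f6481cc3b0db9f50359f704f4100 (k8 c21555 c21539 c5564 c21545 c19004 c5380 c5566 c21546 (k8 c20760 c5445 c713 c5396 c5448 c21541 c5582 c5504 (k8 c9793 c53 c9730 c2897 c5589 c21192 c5519 c5518 (k8 c5516 c5333 c5329 c5517 c5381 c20666 c20598 c54 (k8 c9694 c5811 c21559 c20779 c21549 c2754 c10195 c17741 (k8 c5252 c5651 c12427 c18526 c20773 c3053 c2128 c2863 (k4 c2048 c20237 c21176 c747 (k2 c1074 c20518 (k1 c9860 k0))))))))) (by decide +kernel)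
def c21561 : PP 9 3 T 0x62000000040000000000000100000000000100000000000000000040000000000000000002000004000000000000010000002000011000 := rS 0xca (k2 c20377 c1091 k0) (by decide +kernel)
def c21562 : PP 9 3 T 0x80000000100000000000000000000000000000000000002000000000000040004000000000000000020 := rS 0x33d2efd198683a3d130959a3520ed0f6568aaaf2642566ccda1138b7e000730b253fedd80376f5922ac63bee68acfe6f139c44022901e7676814684cde7dd007c1ef7058ddeaa9 (k8 c21192 c5519 c5518 c5516 c5333 c5329 c5517 c21539 (k8 c5566 c5565 c5564 c5381 c5380 c20666 c20598 c54 (k8 c9694 c53 c9730 c9719 c5811 c5589 c2897 c9793 (k8 c21545 c5504 c5506 c5582 c19004 c21546 c21541 c20760 (k8 c20874 c5448 c5396 c5445 c713 c21555 c2953 c21560 (k8 c719 c746 c20843 c21547 c20779 c21549 c20861 c3053 (k8 c10195 c17741 c21551 c12628 c20773 c21176 c21561 c5651 (k8 c12427 c18526 c2863 c2048 c20237 c1074 c20518 c9860 k0)))))))) (by decide +kernel)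
def c21563 : PP 9 3 T 0x2000000040000000000000000000000000100001000000000000500000040001400001000000000000000000000000000002000000020 := rS 0x196df209ecad9d47e800e61 (k8 c5445 c713 c21539 c5568 c20598 c10195 c17741 c12628 (k2 c14796 c1091 (k1 c6118 k0))) (by decide +kernel)
def c21564 : PP 9 3 T 0x8000000000000010000000000000000000000000000000000100001000000000000000010000000001000000000000010000040004000000000000002020 := rS 0x1e8ef92122744efc0dfb5c2e3d87c885b3dbd648ab18e9cc022901ced028d099bcfba008b1c12ab599a96a20 (k8 c315 c2608 c316 c2378 c20805 c21075 c2481 c719 (k8 c21539 c5566 c5565 c5564 c5381 c5380 c20666 c54 (k8 c9694 c53 c9719 c5504 c5506 c5582 c19004 c21546 (k8 c20843 c20779 c16685 c20760 c5549 c5591 c20903 c19296 (k8 c5682 c2863 c1240 c5651 c21563 c5356 c20082 c20097 k0))))) (by decide +kernel)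
def c21565 : PP 9 3 T 0x4004000000000040000000080000000000000100000004000100000000000000000000000000000000000000000000000000000000000000000000000000 := rS 0x361b2 (k2 c5229 c5226 (k1 c18631 k0)) (by decide +kernel)
def c21566 : PP 9 3 T 0x84000000000000010000000080000000000000100000000000100000000000000000000000000000000000000000000010000000000000000000000002020 := rS 0x363b3db3246635ef18e768d379f4405f3fa64f26af6f87c7a0 (k8 c21539 c19979 c11668 c20903 c316 c5441 c2373 c5358 (k8 c5439 c315 c5566 c5565 c5381 c20666 c9754 c5166 (k4 c5450 c5492 c5494 c21565 (k2 c18613 c17831 (k1 c21361 k0))))) (by decide +kernel)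
def c21567 : PP 9 3 T 0x1000000000000090000000000000000000000000000000000000000000000000000000000000000005000000000000010000000000200000000040000020 := rS 0xfc0eecc4ef19da34dfa0 (k8 c21539 c5565 c5381 c20666 c5811 c5570 c18613 c335 (k2 c5682 c20237 k0)) (by decide +kernel)
def c21568 : PP 9 3 T 0x80000000000000015000000080000000000000000000000000100000000000000000000000000000000000000000000000000000000000010000000002020 := rS 0x32467de9d8813279357b7c3a0 (k8 c21539 c11668 c20903 c316 c5441 c2373 c315 c20666 (k4 c5224 c5492 c5494 c21361 k0)) (by decide +kernel)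
def c21569 : PP 9 3 T 0x84000000000000014000000080000000000000000000000000100000000000000000000000000000000000000000000010000040000000000000000002020 := rS 0xc9ac3103b292a61d80d5a6ae1307036f19daacd457f69063a44ac04d1ba0 (k8 c21539 c5381 c5564 c21566 c20837 c5341 c5340 c20903 (k8 c5353 c316 c20805 c20666 c5811 c19296 c5649 c335 (k8 c336 c4890 c21320 c21568 c5445 c5446 c12830 c713 (k4 c9332 c1247 c20880 c2185 k0)))) (by decide +kernel)
def c21570 : PP 9 3 T 0x84000000000000010000000080000000000000000080000000100000000000000000000000000001000000000000000010000040000000000000000002020 := rS 0x142cb0bf7d34b0d8a54ce97d96dd3e4420d63c7e1f69cc021901cec128d099bf401f54aacfe9d2fa64f26a (k8 c316 c5441 c2373 c5439 c1135 c5358 c20805 c21192 (k8 c5517 c21539 c5565 c5564 c5381 c21075 c20666 c54 (k8 c9701 c53 c9719 c20903 c11668 c19979 c21566 c5340 (k8 c20837 c20682 c21567 c21569 c5404 c5487 c5488 c18631 (k4 c20843 c5679 c20688 c1066 (k2 c1326 c20943 (k1 c5680 k0))))))) (by decide +kernel)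
def c21571 : PP 9 3 T 0x80000000000000000000000200000000000000000000000000000000000000000000000000000000010000040000000000000000000020 := rS 0xce1d2210c4af19d84c4eb1d99bd1ba0 (k8 c21539 c5381 c5565 c18613 c5421 c5570 c5564 c20666 (k4 c5811 c5559 c5561 c20837 (k2 c335 c20694 (k1 c18384 k0)))) (by decide +kernel)
def c21572 : PP 9 3 T 0x4000000000000091000000000000000000000000080000000100000000000000000000810000000000000100000000010000440000200000000000002020 := rS 0x9449858481a7e8f83bec20c7486f10faa5566a13a5c6acf19f7b666f46e827759 (k8 c21571 c20666 c21539 c5381 c5565 c18613 c5224 c5492 (k8 c5453 c5450 c20692 c5570 c316 c20805 c21192 c5517 (k8 c5811 c123 c190 c458 c21567 c335 c18221 c5542 (k4 c5649 c20675 c2910 c326 (k2 c16788 c1905 k0))))) (by decide +kernel)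
def c21573 : PP 9 3 T 0x84000000000000000000000100000000000000000000010010000000000000000000000001000000000800040000500000000050000020 := rS 0x2ba06ff0d19dfb1d78cef40ab (k8 c20805 c21539 c20666 c5811 c20667 c20237 c20694 c5649 (k4 c11059 c16948 c18005 c1078 k0)) (by decide +kernel)
def c21574 : PP 9 3 T 0x80000000000000000080000000100000000000000000000010000000000000000000000010000040004000000000000000020 := rS 0x81785fe87f63f5e71c218708b5980b599fded8ecd5bb6f9a64ee573f9e4be639d825028d379f43ef555acd6a20f7c54d40c2482c264747ed4229107c4f40a9 (k8 c21192 c21539 c5382 c5329 c21562 c719 c20711 c5568 (k8 c5520 c5564 c5516 c5334 c12614 c316 c1140 c21564 (k8 c315 c2608 c2378 c20805 c5519 c5517 c5566 c5565 (k8 c5381 c5380 c21075 c20666 c9754 c5439 c5441 c5358 (k8 c5353 c5356 c2373 c21570 c5685 c5573 c18613 c17831 (k8 c5224 c5453 c20859 c2145 c21571 c21572 c21573 c2000 (k8 c20779 c554 c2550 c5682 c5499 c5544 c20854 c20819 (k1 c20702 k0)))))))) (by decide +kernel)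
def c21575 : PP 9 3 T 0x4004000000000040000000000000000000000100000004000100000000000000000000010000000004001500000000000000000000000000000000000000 := rS 0x365de (k2 c5166 c5229 (k1 c17870 k0)) (by decide +kernel)
def c21576 : PP 9 3 T 0x4001000000000008000000040000000000000000000000000000000000000000000400051800000001000500000004000000000000000000000000002020 := rS 0xd76af7d9c9731b1c12ab35274da03888073be3 (k8 c5464 c20598 c53 c9730 c54 c2427 c8792 c316 (k8 c20805 c21075 c2481 c9754 c5404 c20947 c17870 c1660 (k2 c1769 c5689 k0))) (by decide +kernel)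
def c21577 : PP 9 3 T 0x80000000100000000000000000000010000000000000000000000010000040004000000000000000020 := rS 0x66966aab9621c7e06f66d322563dbf2f1edd94cd71f8532e14eb7cf0381aa6f607b2b01f27ef78c44039d9da051a6f3eaa76a6d01b1c12ab8aaccd4b510030220f2482c264789a3f4091 (k8 c21562 c21539 c5568 c5382 c5520 c5564 c5516 c5334 (k8 c5329 c719 c12614 c315 c2608 c316 c2378 c1140 (k8 c20805 c21075 c2481 c54 c2427 c20711 c21192 c5566 (k8 c5565 c5381 c5380 c20666 c20598 c53 c9730 c5811 (k8 c21564 c21574 c8467 c10195 c17741 c5209 c8100 c20773 (k8 c369 c370 c14796 c8792 c10249 c5447 c5534 c2617 (k8 c20785 c6118 c18210 c5464 c16685 c20903 c21575 c20837 (k8 c21179 c21576 c19296 c5682 c5649 c1335 c336 c1661 (k2 c1246 c390 (k1 c20460 k0)))))))))) (by decide +kernel)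
def c21578 : PP 9 3 T 0x200080000000100000000000000000000000000000000000000000000010000040004000000000000000020 := rS 0xf9edfde6fdaaccd4b510648ae7968030220f2482c264789a3f4091 (k8 c21562 c21539 c5568 c5382 c5520 c5564 c5516 c5334 (k8 c5329 c719 c12614 c21577 c20803 c370 c10195 c315 (k8 c2608 c316 c2378 c20711 c5565 c19004 c21571 c21570 (k1 c16685 k0)))) (by decide +kernel)
def c21579 : PP 9 3 T 0x1001000000000090000000080000000000000000000000000000000000000000000000000100000000000100000000010000000000000014000000002020 := rS 0x363b331a34de7dd0080be7f (k8 c5358 c5439 c315 c21539 c5566 c5565 c5381 c9754 (k2 c18613 c17831 (k1 c21361 k0))) (by decide +kernel)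
def c21580 : PP 9 3 T 0x80000000100000000000000000000000000000000000000000000010000040004000000000000000020 := rS 0xd3f7407e5b7ac9ff24992b9dd9235199e7c3ed682cd56c7350336a1104a051b13099bcfa8fd00ec1ef72482c8e91 (k8 c21562 c5520 c5516 c5334 c5333 c5329 c5332 c21539 (k8 c5568 c5566 c5565 c5564 c5382 c5381 c5380 c21075 (k8 c719 c20711 c12614 c316 c2481 c20805 c2378 c21577 (k8 c5501 c5459 c20803 c2129 c1704 c2133 c2132 c370 (k8 c2373 c10195 c5358 c21578 c21579 c16685 c5592 c21566 (k2 c2135 c20761 k0)))))) (by decide +kernel)
def c21581 : PP 9 3 T 0x1004000000000050000000080000000000000200000000000100000000000000000000000000000045010000000000000000040000000004000040000020 := rS 0x1b14bec9fa674a8755a9f227bde2630c80e760940a3427a0 (k8 c21539 c5564 c5381 c5380 c21075 c20666 c54 c9701 (k8 c9754 c5811 c19004 c20837 c20682 c2887 c336 c5297 (k4 c5282 c20237 c5682 c5404 (k2 c18631 c20932 k0)))) (by decide +kernel)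
def c21582 : PP 9 3 T 0x88000000000000000000200080000000000000000000000000000000000000000000000000000000000000000000000000000000000000000000000000000 := rS 0xf477 (k2 c5356 c20082 (k1 c20097 k0)) (by decide +kernel)
def c21583 : PP 9 3 T 0x80000000000000010000000080000000000000000000000000100000000000000000000000000000001000000000000020000040000000000000040002020 := rS 0x1b0d926dfa930e8c88958f7a87c7e12b9fcbef10c80f3b3b4684f6eaf559abdba0 (k8 c21539 c20903 c316 c20805 c20748 c5571 c5564 c5381 (k8 c20666 c20598 c54 c9701 c5811 c5439 c5358 c5353 (k8 c11668 c19979 c2929 c21582 c21565 c20837 c21581 c336 (k4 c322 c20237 c9848 c5682 (k2 c10916 c18631 k0))))) (by decide +kernel)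
def c21584 : PP 9 3 T 0x1000000000000010000000040000000000000200000000000000000000000000000400000800000041000100000004000000048000000000000040002020 := rS 0x3f7661d69913def19da051a13d02acd49b68b1c139df08e19a78 (k8 c370 c20785 c369 c5534 c20598 c21075 c2481 c20815 (k8 c8100 c316 c20805 c21539 c5564 c5381 c5380 c20666 (k8 c5811 c19004 c20837 c21179 c336 c21576 c20237 c5682 k0))) (by decide +kernel)
def c21585 : PP 9 3 T 0x10000000000000000000000000080000000100000000000000000000000000000000000000000000000000040004000000000000002020 := rS 0x35b3213fc8ab18e89bdd5908f8c4aca4ca75bed14dec0f65603e4fdae171fc96ab355b1c406d35444022901e7676094684cde8fd007d53b757c54e091 (k8 c21562 c21580 c3048 c20748 c5571 c21192 c5517 c21539 (k8 c5568 c5565 c5564 c5381 c21075 c20666 c20598 c54 (k8 c9694 c53 c9730 c316 c2427 c315 c2481 c20805 (k8 c2377 c2608 c16685 c5549 c5591 c20903 c21583 c8467 (k8 c10195 c17741 c5209 c8100 c20815 c14796 c8792 c5447 (k8 c6118 c21563 c5464 c720 c21584 c21575 c5651 c5504 (k4 c5506 c5582 c5586 c20779 (k2 c17868 c2863 (k1 c19296 k0))))))))) (by decide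 +kernel)
def c21586 : PP 9 3 T 0x100000000000000000000050050000000000000000000000001004000000000040004400000000000005420 := rS 0x238f27f7be768df6914201389e751fa0 (k8 c21539 c5568 c20598 c5382 c5564 c12647 c20747 c20874 (k4 c5381 c20666 c20818 c19658 (k2 c20774 c11059 (k1 c554 k0)))) (by decide +kernel)
def c21587 : PP 9 3 T 0x10000000040000000000000000000000000100001000000000000500000000001400000000000000001000000000000000002000000020 := rS 0x18e9d4dec0f607356762201 (k8 c53 c9730 c20598 c5665 c8467 c17741 c5209 c8100 (k2 c8792 c2482 (k1 c21563 k0))) (by decide +kernel)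
def c21588 : PP 9 3 T 0x10000000000000000000000000080000000100000000000000000000000000000000000000000000000000040004000000000000000020 := rS 0x1eef1e48da8680b85c6b3f92d44903085641af1cecee261347e801ef72482dea47dbc54e091 (k8 c21562 c21580 c3048 c5571 c5520 c5519 c5516 c5334 (k8 c5333 c5329 c21539 c5568 c5564 c5382 c20666 c20598 (k8 c5811 c21585 c17964 c12647 c21152 c720 c5804 c18513 (k8 c2760 c5731 c5591 c5592 c21586 c21558 c21587 c19979 (k2 c21565 c21582 k0))))) (by decide +kernel)
def c21589 : PP 9 3 T 0x80000000000000040000000080000000000000100000000000100000000000000000000000000000000000000000000000000000000000000000000000020 := rS 0xf7f8e77a0 (k4 c21539 c20666 c19979 c21582 (k1 c21565 k0)) (by decide +kernel)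
def c21590 : PP 9 3 T 0x80000000000000060000000000000000000000000000000000100000000000000000000000000000000000000000000000000000000400000004000020020 := rS 0x1bca11e32f6056c98a40759 (k8 c5558 c54 c9694 c21589 c10195 c5209 c20349 c773 (k2 c5398 c17766 (k1 c2770 k0))) (by decide +kernel)
def c21591 : PP 9 3 T 0x40000000000000040000000040000000000000000000000000100001000000000000400000000001400000001000000000000000000400000004000020020 := rS 0xdf70a6d429f1e1f997b02b0a40759 (k8 c5558 c54 c9694 c10195 c5209 c20349 c772 c773 (k4 c5448 c5398 c5397 c3058 (k2 c2770 c5920 k0))) (by decide +kernel)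
def c21592 : PP 9 3 T 0x48000000000000000000000080000000000000000080000000100000000000000000440004000000000000000000000000000040000000000000000001020 := rS 0x683491a813f9f74077 (k8 c5356 c21539 c5566 c5358 c5380 c5381 c20761 c21556 (k1 c2136 k0)) (by decide +kernel)
def c21593 : PP 9 3 T 0x2000000000000000000000000080000000100000000000000000000000000000000000000000000000000040004000000000000000020 := rS 0x68d0198e4803d6f0c5a5dff1b55af1df0fb80fb330cec1281469f47637acb3c7ec73c9fcae77c97cdc6b512034420b1384f3a01478401f13d02cf6915db9c12247 (k8 c5520 c21562 c21580 c5571 c3048 c21588 c5532 c21539 (k8 c5382 c5329 c20711 c5568 c53 c20598 c5564 c20306 (k8 c5516 c5528 c315 c720 c5804 c5731 c21590 c21591 (k8 c5356 c5353 c5358 c5441 c5357 c4870 c17612 c5558 (k8 c5518 c5332 c5566 c5381 c5380 c21075 c20666 c5445 (k8 c18631 c713 c5229 c18042 c5504 c5507 c5585 c20829 (k8 c20759 c20761 c1919 c21592 c2770 c5655 c546 c544 (k2 c21235 c20778 (k1 c1704 k0))))))))) (by decide +kernel)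
def c21594 : PP 9 3 T 0x80000000100000000000000000000000000000000000000000000000000040004000000000000000020 := rS 0xd4664366bf90c31efc07c2d469b5c83e2f7ec4ee7f3ce4be6e3f6c0d6acf12116b20d138416621da4576e704891dea0b7b83c039d9da051b13099f51fa0 (k8 c21539 c5568 c5566 c5564 c5382 c5381 c5380 c20666 (k8 c20598 c53 c5329 c5333 c5516 c5519 c5520 c21562 (k8 c21580 c5571 c3048 c21588 c5528 c5532 c20711 c20306 (k8 c315 c5558 c20747 c720 c17612 c5804 c21152 c20874 (k8 c5731 c21590 c21591 c5441 c5358 c5356 c21593 c20760 (k8 c5226 c5462 c5465 c5579 c20727 c17754 c20892 c20754 (k8 c1476 c21586 c5694 c2073 c2780 c12046 c5281 c5653 k0))))))) (by decide +kernel)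
def c21595 : PP 9 3 T 0x44000000000000040000000080000000000000100040000000100000000000000000000000000000000000000000000000000040000400000009000000020 := rS 0x19113c23b8eb3da2871f90f62950ea5fd9e256ec8521901ced1a13d02ad32a9da044f2771c95c1d9d (k8 c20598 c6008 c5353 c393 c5356 c5441 c10107 c5211 (k8 c5531 c5530 c5413 c21539 c5564 c5381 c20666 c54 (k8 c9701 c9694 c5229 c9614 c21565 c5171 c5404 c5486 (k8 c5488 c18631 c5252 c5576 c5499 c5501 c5543 c351 (k4 c20703 c20854 c20833 c18109 (k1 c389 k0)))))) (by decide +kernel)
def c21596 : PP 9 3 T 0x40000000000000040000000080000000000000100000000000100000000000000000000000000000000000000000000000000040004400000000000000020 := rS 0x25cce3d4a98592420eec3c6456bc77dc2612921e223318a406814684cfba08aed0220ea5e74be77 (k8 c5356 c5439 c20598 c21594 c6008 c10107 c5211 c5414 (k8 c21539 c5566 c5564 c5381 c5380 c54 c9694 c9754 (k8 c9734 c5811 c5660 c20674 c10038 c21595 c5504 c5507 (k8 c5582 c20829 c20760 c18526 c20779 c5396 c5445 c5446 (k4 c16761 c20694 c10141 c20791 k0))))) (by decide +kernel)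
def c21597 : PP 9 3 T 0x8000000000000040000000080000000000000100000000000100000000000000000000000000000000000000000000010000040000004000002000010020 := rS 0x68330e0c47a930390958d2d878c8ad78e8a4060940a34267dd01fcae77 (k8 c5356 c5353 c5358 c21539 c5566 c5564 c5381 c5380 (k8 c21075 c54 c9694 c5504 c5507 c5582 c20829 c20760 (k8 c20761 c21547 c20779 c6060 c5444 c16761 c1919 c2759 (k2 c2048 c20778 (k1 c331 k0))))) (by decide +kernel)
def c21598 : PP 9 3 T 0x40000000000000040000000080000000000000100000000000100000000000000000000000000000000000000000000000000040004000000000000000020 := rS 0x7b7b3de711f89122461480e768dd02cf681107675bf4b (k8 c21594 c6120 c20598 c6008 c10107 c5211 c5532 c21539 (k8 c5381 c20666 c54 c9694 c21596 c2784 c16855 c2913 (k4 c6185 c21597 c5171 c20710 (k1 c5498 k0)))) (by decide +kernel)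
def c21599 : PP 9 3 T 0x40000000000000000000000080000000000000100000000000100000000000000000000000000000000000000000000000000040004000000000000000020 := rS 0x1e368b57d9ded8fbf6671db18e768d379f7414b2f9e4fe77 (k8 c5356 c5358 c5441 c5439 c21594 c21539 c5566 c5565 (k8 c5381 c20666 c9754 c21598 c5571 c18613 c21546 c17831 (k4 c5224 c5171 c5454 c5501 (k2 c20727 c19685 k0)))) (by decide +kernel)
def c21600 : PP 9 3 T 0x46000000000000000000000000000000000000000040000000100100000000000000000000040000000000000000041400000044000601000000000000020 := rS 0xd4710cbc63b4aecbbedf4bf8521b167b450ef70c80e76094684d569954ed016111cb841d9d3ee815af1 (k8 c5811 c2887 c21539 c5566 c20598 c6008 c21341 c393 (k8 c10107 c150 c5211 c5531 c5530 c5413 c5564 c5381 (k8 c21075 c20666 c54 c9701 c5498 c5499 c5501 c5543 (k8 c20700 c20710 c20854 c20692 c2948 c21540 c5224 c5488 (k4 c20703 c20678 c18109 c5691 (k2 c390 c1662 k0)))))) (by decide +kernel)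
def c21601 : PP 9 3 T 0x1000400000000000000000000000000000000000040000000100000000040080000000000000000000000000000001000000004000200000000000000020 := rS 0x623368f82261347e8122f31a83b3b3b (k8 c20666 c20598 c6008 c21336 c20772 c21269 c21539 c5568 (k4 c5564 c5382 c5165 c5459 (k2 c20835 c2105 (k1 c5653 k0)))) (by decide +kernel)
def c21602 : PP 9 3 T 0x44004000000000000000000000000000000000000000000000000000000000080000100150040000000000000000040000000044002010014000000008020 := rS 0x3d37c0c3b18e741281d002d9b3b (k8 c20666 c17683 c150 c21539 c5380 c21075 c20598 c2105 (k4 c20705 c21144 c2947 c870 (k1 c15912 k0))) (by decide +kernel)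
def c21603 : PP 9 3 T 0x40000000000000000000000080000000000000000000000000100000000000000000000000000000000000000000000000000040004000000000000000020 := rS 0xc46edef0b43c6e319b559fde69bf8903581bd923ed70913de478e9047b583b95cfe7963ced1a133ee8368117983a979d (k8 c20598 c21594 c6008 c20772 c10107 c5211 c21539 c5566 (k8 c5564 c5381 c20666 c5357 c5441 c5358 c5353 c5356 (k8 c21599 c5560 c5340 c5341 c5562 c19004 c20837 c21341 (k8 c21600 c21269 c20710 c2195 c21336 c503 c504 c2937 (k8 c21601 c5453 c5454 c5492 c2574 c20727 c21602 c5459 (k4 c5691 c2331 c2106 c20867 k0)))))) (by decide +kernel)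
def c21604 : PP 9 3 T 0x1002800000000000000000000000000000000000040000000000100000000010000040010000000000010410000000000000000000200000000000000020 := rS 0x15e1c6538f66cf4bbc5321b55ed1fcf69dbcc1d9d (k8 c20598 c6008 c20772 c20666 c5657 c504 c5211 c5413 (k8 c2103 c5530 c5811 c5452 c5453 c16230 c2574 c19465 (k2 c5649 c1246 (k1 c336 k0)))) (by decide +kernel)
def c21605 : PP 9 3 T 0x1000000000000004000000000000000000000000000000000000100000000010000440210000000000010410000000000000000000200000000004008020 := rS 0xb00e329e33b (k4 c20666 c5811 c19465 c5649 (k2 c1661 c2177 k0)) (by decide +kernel)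
def c21606 : PP 9 3 T 0x40000000000000200040000000100000000000000000000000000000000000000000000000000040000000000000000000020 := rS 0x196fd4bec9c6d46b8cbbe317f06deded56913df1d78ced1a1355bcfc0f5da0d4acd16f9ec0e8fd031c1d9d50a6d2bb0 (k8 c5209 c5446 c5397 c5398 c20598 c6008 c17699 c21539 (k8 c5568 c8467 c17741 c14796 c20815 c10195 c20773 c5211 (k8 c20685 c5215 c20772 c5413 c5564 c5381 c20666 c5811 (k8 c5341 c19004 c20837 c2887 c20700 c5657 c2103 c504 (k8 c2105 c21604 c5653 c2185 c390 c2575 c21605 c5404 (k2 c5405 c1660 (k1 c17935 k0))))))) (by decide +kernel)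
def c21607 : PP 9 3 T 0x44002000000000000000000000000000000000100040004000100001000000000000000000100000005001510000000000000000000000000000000000000 := rS 0x25fd8cd (k4 c5537 c5171 c19691 c18006 k0) (by decide +kernel)
def c21608 : PP 9 3 T 0x40000000000000000000000000000000000000000000000000100000000000000000000000000000000000000000000000000040004000000000000000020 := rS 0x1c624232d49242db9163beeaca5536c9709058ef5f06c0f65603e4c52039da34267dd027557154caa567b40883a979d (k8 c20598 c21594 c6008 c10107 c5211 c5532 c5531 c5530 (k8 c5414 c5413 c5412 c21539 c5566 c5564 c5381 c20666 (k8 c54 c9694 c21603 c8467 c10195 c17741 c5209 c5215 (k8 c20685 c17699 c12628 c10249 c5396 c5397 c5446 c21606 (k8 c21607 c5504 c5582 c21546 c20779 c3033 c9106 c5660 (k2 c16855 c2348 (k1 c21563 k0))))))) (by decide +kernel)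
def c21609 : PP 9 3 T 0x40000000000000000000000000100000000000000000000000000000000000000000000000000040004000000000000000020 := rS 0xf16dd36d1655658fe0d81ec0f3b4eaad33b45ab8fdff2d003a979d (k8 c20598 c21594 c6008 c21539 c21608 c19511 c5549 c5548 (k8 c5211 c5530 c5413 c5412 c20666 c8467 c17741 c5209 (k8 c5215 c17699 c21606 c17886 c20815 c5397 c7694 c21575 (k1 c5464 k0)))) (by decide +kernel)
def c21610 : PP 9 3 T 0x5000000000000000000000000000000000000000040000000000100000000010000000000000000000000000000000000000040001000000000000000020 := rS 0x111ec439da3427a008bcc1d9d (k8 c20598 c6008 c20772 c10107 c21539 c5564 c5381 c20666 (k4 c17737 c5657 c20779 c503 k0)) (by decide +kernel)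
def c21611 : PP 9 3 T 0x100000000000100000000000020000000000000000000000400000000000000040004000000000000000020 := rS 0x255a2931b0f88244233f8343d438763af701bc51e9d55a6553b481c07dfe31ab35addef0cefda570883a979d40824fa27d99c76df2c91bd1ba0 (k8 c21539 c5381 c5565 c21609 c21608 c21589 c5571 c18613 (k8 c5570 c5566 c21075 c5380 c20598 c21594 c6008 c10107 (k8 c5353 c20903 c20666 c11668 c5165 c20859 c5495 c5450 (k8 c19979 c19511 c5592 c5550 c5211 c5531 c5530 c5413 (k8 c5412 c5568 c5811 c54 c155 c2165 c1998 c1921 (k8 c1492 c5649 c19658 c19573 c2342 c458 c5655 c2914 (k4 c326 c1482 c1905 c18094 k0))))))) (by decide +kernel)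
def c21612 : PP 9 3 T 0x800000000000000000000000000000000100000000000000000000000000000000000000000000000000000000400000044000004001000000000020 := rS 0x704e806a33 (k4 c5492 c5450 c21539 c21075 (k2 c20914 c20778 k0)) (by decide +kernel)
def c21613 : PP 9 3 T 0x100000000000100000000000000000000000000000000000400000000000000040004000000000000000020 := rS 0x142df1e0d8603f8e3d9ea1901a762a9959ed1e6b571925c3ef07674ae7719f7bc34b9dfb7409f65edbe592 (k8 c21609 c21608 c21589 c5420 c5572 c21539 c20903 c20666 (k8 c21594 c11668 c5165 c5492 c5356 c5353 c20598 c6008 (k8 c19511 c5591 c5588 c5549 c5548 c20772 c5211 c5532 (k8 c5530 c5414 c5412 c54 c9701 c21611 c5657 c21610 (k4 c405 c21612 c2106 c2164 (k2 c2332 c2767 (k1 c3620 k0))))))) (by decide +kernel)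
def c21614 : PP 9 3 T 0x100000000000100000000000000000000000000000000000000000000000000040004000000000000000020 := rS 0x1fe87213d0803f1e8c07407490dd34274fed8320304a051a133ea3c22f381c07de7f1c95c1d9def787254b9dfb7e5a0 (k8 c21539 c21608 c20903 c20666 c21594 c21609 c11668 c5165 (k8 c20598 c6008 c5353 c393 c5358 c19511 c5592 c5550 (k8 c20772 c10107 c5568 c5566 c5564 c5381 c5380 c21075 (k8 c54 c9701 c21589 c5572 c5570 c21613 c2328 c9848 (k8 c871 c5654 c20867 c1569 c326 c12613 c1679 c1739 (k2 c1921 c2781 (k1 c19658 k0))))))) (by decide +kernel)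
def c21615 : PP 9 3 T 0x100000000000000000000000000000000000000000000000000040004000000000000000020 := rS 0x43bfde8478ed63dfed80a449303f903a979d46c4d1fa0 (k8 c21539 c5568 c5382 c5381 c20598 c21594 c6008 c21608 (k8 c5550 c5588 c5589 c5592 c20903 c19511 c21614 c5341 (k4 c5562 c21610 c2341 c1921 (k1 c20819 k0)))) (by decide +kernel)
def c21616 : PP 9 3 T 0x4000000000000040000000080000000000000100000000000100000000000000000000100000000000000000000000000000000000000000000000000020 := rS 0x3c4779da34fba0 (k4 c21539 c5566 c5381 c20666 (k2 c5356 c21565 (k1 c20727 k0))) (by decide +kernel)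
def c21617 : PP 9 3 T 0x5000000000000000000000000000000000000000000000000100000000044000000000000000000000000000004000000000040000000000000000000020 := rS 0x34878cbd815b26336bbc9c6976a83449b20833f6e703389c3ab15790a3b0022bc4e6014684cde8ff9acc52037b82e27a07ad281f9d56ceeb24a (k8 c21615 c5342 c20666 c9614 c20598 c12627 c6008 c5519 (k8 c21539 c5382 c2588 c5780 c54 c9694 c2455 c5546 (k8 c5568 c5565 c5564 c5381 c53 c9719 c5811 c461 (k8 c19658 c6335 c20833 c2777 c1932 c2000 c2862 c20694 (k8 c20793 c5571 c10436 c20728 c5229 c5252 c5715 c3073 (k8 c5404 c5731 c20774 c2146 c388 c21616 c10195 c5209 (k4 c20349 c773 c9617 c2769 k0))))))) (by decide +kernel)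
def c21618 : PP 9 3 T 0x40000000000000000000000000000000000000000000000000000000000080000000000000000000400000000004000000000040000000000000000024420 := rS 0xf306914dfa07bbd6959d (k8 c20598 c6008 c5519 c5780 c21539 c5565 c20747 c20646 (k2 c2628 c20774 k0)) (by decide +kernel)
def c21619 : PP 9 3 T 0x1000000000000000000000000000000000000000000000000000000000080000000000000000000001000000000000000000000008000000004000002020 := rS 0x366fddaaaf6c2035674dfa0f9acc5203 (k8 c54 c9694 c2455 c5546 c21539 c5565 c20598 c316 (k4 c315 c5715 c20805 c5528 (k2 c4748 c19429 (k1 c5682 k0)))) (by decide +kernel)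
def c21620 : PP 9 3 T 0x5000000000000000000000040000000000000000000000000100000000004000000000000000000000000000004000000000040000000000004000000020 := rS 0x35da09d1faad9e97123f766b1388cc3bb6223363af206bc6768d37d65ee1f1baa486f5a504604b31480c1713d003fe64a3d81f3a411a95942c94da5533b0 (k8 c5209 c5447 c5446 c5397 c5396 c5398 c10195 c20773 (k8 c12628 c20598 c8467 c17741 c21615 c5546 c12627 c21539 (k8 c5382 c2588 c54 c9694 c2455 c21617 c21618 c6008 (k8 c5519 c1935 c21192 c5518 c5517 c5780 c5342 c5565 (k8 c5381 c20666 c5811 c21619 c20774 c20671 c21176 c2628 (k8 c20728 c3685 c3712 c5571 c5421 c18613 c20237 c20675 (k8 c20460 c20518 c2199 c2909 c10719 c3617 c18221 c2201 k0))))))) (by decide +kernel)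
def c21621 : PP 9 3 T 0x5000000000000000000000040000000000000000000000000100000000004000000000000000000000000000004000000000040000000000000000000020 := rS 0xcf689e070c7062752e6a36bf76aabd92d04115db89932954db27607b2b01cc71100cee27a0ac925534a0792b3b02 (k8 c21617 c20598 c21615 c12627 c6008 c21192 c192 c5342 (k8 c21539 c5382 c20666 c53 c9730 c9754 c8467 c10195 (k8 c17741 c5209 c5396 c5397 c5446 c5447 c21620 c5570 (k8 c3046 c353 c354 c5229 c2200 c5528 c4748 c2610 (k8 c17733 c5404 c8792 c2371 c2482 c369 c370 c20815 (k2 c4750 c20870 k0)))))) (by decide +kernel)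
def c21622 : PP 9 3 T 0x5000000000000000000000000000000000000000000000000100000000004000000000000000000000000000004000000000040000000000000000002020 := rS 0x3d03f842e3367a4088d11fb8c83b14a875a9e2d96dc4afddaa6556268a880d409099f4921f54d2b3a11812cc520305c4c1ff33c9fcae774b97f24ad9dd6495a0 (k8 c21539 c21615 c5342 c20666 c9614 c21621 c5439 c19758 (k8 c5356 c5353 c5358 c5441 c5546 c12627 c5382 c2588 (k8 c54 c9694 c2455 c21617 c21618 c20598 c6008 c21192 (k8 c5517 c192 c5566 c5564 c21075 c316 c315 c17798 (k8 c21619 c20805 c2373 c5528 c4748 c60 c5570 c5201 (k8 c21565 c21616 c5486 c5488 c18631 c5462 c5466 c5576 (k8 c1711 c19430 c16786 c2633 c389 c16788 c20854 c714 (k2 c2861 c18100 k0)))))))) (by decide +kernel)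
def c21623 : PP 9 3 T 0x8000000008000001020 := rS 0x1af6ab410444039d (k8 c20598 c53 c9730 c353 c354 c5528 c2371 c17733 k0) (by decide +kernel)
def c21624 : PP 9 3 T 0x5000000000000000000000000000000000000000000000000100000000004000000000000000000000000000004000000000040000000000000000000020 := rS 0x1ab682455ecd6271db09dfa670eb7c891d79034ff920890e030278ced1a6ff9d65662901bdc1713d007deaa9a503c959d (k8 c20598 c21615 c12627 c6008 c21192 c5519 c5517 c21539 (k8 c5382 c2588 c5780 c54 c9694 c2455 c5342 c5546 (k8 c5565 c5381 c20666 c5811 c21617 c212 c1935 c21618 (k8 c21621 c5358 c21622 c20774 c20671 c2628 c4680 c3685 (k8 c20694 c20237 c21623 c20728 c5571 c5421 c18613 c2199 (k4 c18384 c5682 c20831 c20730 k0)))))) (by decide +kernel)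
def c21625 : PP 9 3 T 0x4000000000000020000000000000000000000000000000000100200000000008000000000000000000000001004000000000000008100000000000001020 := rS 0x31efb53243371edd6a70678903a1010c54028df9d648eb31480e94f705c4f400fce8d67627 (k8 c3697 c20666 c17740 c20598 c12627 c21539 c5382 c2588 (k8 c5780 c6008 c54 c9694 c2455 c191 c5342 c5546 (k8 c5381 c53 c5414 c5528 c20673 c20722 c720 c17612 (k8 c719 c5804 c20667 c5731 c388 c21591 c21616 c5454 (k2 c1476 c5653 k0))))) (by decide +kernel)
def c21626 : PP 9 3 T 0x44000000000000050000000000000000000000100000004000000000000008000000000000000000400000000000000000000000000000000000000000000 := rS 0x1b2 (k2 c5229 c20587 k0) (by decide +kernel)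
def c21627 : PP 9 3 T 0x4000000000000000000000000000000000000000000000000100000000008000000000000000000000000000004000000000040000000000000000001020 := rS 0x401cdb6d677a0f9d641eb31480d231c79116064a (k8 c21615 c211 c461 c2568 c2569 c20750 c54 c9694 (k8 c2455 c12627 c5342 c5546 c21539 c20666 c21625 c21626 (k2 c20667 c333 (k1 c21389 k0)))) (by decide +kernel)
def c21628 : PP 9 3 T 0x1000000000000080000000080000000000000000000000000100000000000000000000000000000000000000004000000000000000000010000000002020 := rS 0x68f81923367f7933b13b9e6766ada88197b3389bd1ba0 (k8 c21539 c5381 c5565 c5571 c18613 c5420 c315 c5528 (k8 c316 c20666 c5441 c5356 c12830 c2373 c5224 c5453 (k4 c5492 c5494 c21579 c5459 (k1 c20854 k0)))) (by decide +kernel)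
def c21629 : PP 9 3 T 0x5000000000000000000000000000000000000000000000000100000000000000000000000000000000000000004000000000040000000000000000000020 := rS 0x38dbee13c107607b2b01f27b5db31c400c138fc6af28e3fa22019d824de7d47e83e759598a40637a503c959d (k8 c20598 c21615 c12627 c6008 c5518 c54 c9694 c2455 (k8 c5342 c5546 c21539 c5568 c5566 c5565 c21075 c20666 (k8 c53 c9730 c21624 c2569 c2568 c17740 c3722 c3697 (k8 c21627 c315 c2481 c5715 c5528 c21628 c8467 c10195 (k8 c17741 c5209 c12628 c370 c10249 c14796 c18213 c18210 k0))))) (by decide +kernel)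
def c21630 : PP 9 3 T 0x80000000040000000000000000000000000100000000000000000000000000000000000000000000000000000008004000000000002020 := rS 0x71b7dc27820ec0f65603c44026f3ea3f41591bd281f9d638276a20 (k8 c315 c5528 c21075 c2481 c20598 c12627 c6008 c5518 (k8 c5342 c21539 c5568 c5566 c5565 c53 c9730 c8467 (k8 c10195 c17741 c5209 c12628 c370 c10249 c14796 c18213 (k1 c18210 k0)))) (by decide +kernel)
def c21631 : PP 9 3 T 0x1000000000000000000000000000000000000000000000000100000000008000000000000000000000000000000000000000000008000010000000002020 := rS 0xdf3df81c2e3648cdaacfef2676279c96cd9671daed8406a9da051b1337a3f41f3598a406911f89de51c (k8 c2569 c2568 c3697 c3722 c20750 c54 c9694 c2455 (k8 c5546 c21539 c5568 c5565 c5382 c5381 c5380 c20666 (k8 c316 c315 c5715 c5528 c5571 c5420 c18613 c21630 (k8 c5441 c12830 c2373 c5224 c5453 c5454 c5492 c5494 (k4 c2574 c3012 c21579 c5457 (k2 c5538 c17932 k0)))))) (by decide +kernel)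
def c21632 : PP 9 3 T 0x4000000000000010000000000000000000000000000000000000000000008000000000000000000000000000000000001000000008000000000000001020 := rS 0x10870d5b6888073b3bd07ceb2b31480e38f2 (k8 c2568 c2569 c54 c9694 c2455 c5342 c5546 c21539 (k8 c20666 c20598 c53 c9730 c21626 c5665 c20667 c2371 (k1 c333 k0))) (by decide +kernel)
def c21633 : PP 9 3 T 0x5000000000000000000000000000000000000000000000000100000000008000000000000000000000000000000000001000000008100000000000000020 := rS 0xc7bed4c90cdc7b75a9c19e240e84043b40689c6b1579471233b46fceb247598a406f705c4f400f55c44039d (k8 c20598 c53 c9730 c20861 c12627 c21539 c5382 c2588 (k8 c5780 c54 c9694 c2455 c191 c5342 c5546 c5381 (k8 c20666 c20750 c2569 c2568 c3011 c17740 c3697 c21631 (k8 c21632 c5528 c20673 c333 c720 c17612 c719 c5804 (k8 c20667 c5731 c388 c21591 c21616 c5454 c1476 c5653 k0))))) (by decide +kernel)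
def c21634 : PP 9 3 T 0x5000000000000000000000000000000000000000000000000100000000000000000000000000000000000000000000000000040000000000000000000020 := rS 0xc9668d521b03d9580f9371ad5aa0d126c8211567edce067138755e4258c023aff55914db03432b5e27388806768d37fceb247598a406f705c4f40f5a503c959d (k8 c20598 c21615 c12627 c6008 c5519 c21539 c5382 c2588 (k8 c5780 c54 c9694 c2455 c191 c5342 c5546 c5565 (k8 c5381 c20666 c53 c9730 c9719 c5811 c9614 c21629 (k8 c10690 c21558 c461 c20861 c21633 c6335 c5694 c14602 (k8 c5658 c2777 c2000 c2862 c20694 c20793 c5571 c10436 (k8 c3049 c20728 c5229 c5252 c5715 c3073 c5804 c5731 (k8 c21616 c8467 c10195 c17741 c5209 c21591 c20773 c21176 (k2 c5396 c15424 k0)))))))) (by decide +kernel)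
def c21635 : PP 9 3 T 0x8000000000000000000000000000000000000000000000000100000000000000000000000000000000000000000000001000040000000010000010001020 := rS 0x648ee97488cd3ad0da40020e38a9c1fa6756bc677f323acdee0b89aa5630357bfd92614aec0fa81d02d44827acedc52030fd281e4a55c44039d (k8 c20598 c53 c9730 c20861 c21615 c12627 c6008 c5517 (k8 c54 c9694 c21546 c5342 c21623 c5651 c1094 c21539 (k8 c5380 c5566 c20760 c5446 c5445 c5396 c5586 c5584 (k8 c5508 c5506 c21192 c5382 c2588 c5780 c2455 c191 (k8 c5546 c20666 c5811 c2759 c20694 c20237 c21547 c3049 (k8 c5731 c2754 c3623 c16791 c21559 c5412 c2129 c9793 (k4 c1708 c9300 c21591 c20913 k0))))))) (by decide +kernel)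
def c21636 : PP 9 3 T 0x1000000000000000000000080000000000000000000000000100000000000000000000000000000000000000008000000000040000000010000000001020 := rS 0xe5a2cd19787be772b9fcf2c7048ec6f4a6a81cc2314aec0fbb740d65e6210e1b676f17b82e27a00792b3bee (k8 c21634 c20598 c21615 c12627 c21539 c5382 c2588 c5780 (k8 c5811 c20666 c21558 c21635 c21389 c333 c5342 c5380 (k8 c21546 c5566 c20760 c5446 c1996 c5445 c713 c5585 (k8 c6008 c5518 c5332 c21075 c5357 c5441 c5358 c5353 (k8 c5356 c20759 c18042 c20880 c2073 c9505 c6897 c21235 k0))))) (by decide +kernel)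
def c21637 : PP 9 3 T 0x1000000000000004000000000000000000000000000000000000002000000000000000000000000045000000000000000000000000000000000000000000 := rS 0x803f55bb5 (k4 c5414 c3053 c1241 c9222 (k1 c13274 k0)) (by decide +kernel)
def c21638 : PP 9 3 T 0x1000000000000000000000000000000000000000000000000100000000000000000000000000000000000000008000000000040000000010000000001020 := rS 0xd69138b1822e0da45596e36f904f656c9ecc38ab36bc622019dfcd66f705c4c6ea957a7d429b03987607d40e816a1fa503f3a3f1209c5203ac92b6fee (k8 c21634 c21546 c21615 c5342 c54 c9694 c21623 c5651 (k8 c20335 c20598 c12627 c6008 c5517 c1094 c21539 c5380 (k8 c5566 c20760 c5445 c713 c5397 c5398 c5448 c5584 (k8 c21192 c5518 c5382 c2588 c5780 c2455 c5546 c20666 (k8 c53 c9730 c5811 c21558 c20861 c21635 c5486 c21636 (k8 c10195 c17741 c12628 c2511 c18213 c1091 c21637 c16791 (k4 c5920 c20376 c10249 c2754 (k2 c21561 c2482 (k1 c17856 k0))))))))) (by decide +kernel)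
def c21639 : PP 9 3 T 0x1000000000000000000000040000000000000000000000000100000000000000000000001080000000000000004000000000040000000010002000000020 := rS 0x1b58a841587e698f1c097f18cceecff0bc6768df9bdc171354d281f9d58b5d5ed5d81f76fee40e82b2df2532c8256 (k8 c10195 c12628 c1091 c21615 c2511 c5342 c21539 c5380 (k8 c21634 c21546 c5566 c20760 c5585 c5584 c5507 c5506 (k8 c20598 c12627 c6008 c21192 c5382 c2588 c5780 c5546 (k8 c5381 c20666 c5811 c5535 c20739 c20921 c12046 c20727 (k8 c20460 c9140 c16773 c3063 c20761 c9617 c2764 c3053 (k2 c20376 c16791 k0)))))) (by decide +kernel)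
def c21640 : PP 9 3 T 0x1000000000000000000000040000000000000000000000000100000000000000000000000000000000000000000000000000040000000010000000001020 := rS 0x3c1b19e7735ed467141cb85a2c765b8dbe413d95a22019d9bfe6b31ba7d429b4c81cc3b03ea056a1f1f8904e2901d676fee66bc90ef77ad281f9d0592a27a0 (k8 c21539 c5382 c21615 c2588 c20598 c12627 c6008 c5519 (k8 c5780 c21638 c20774 c2501 c21634 c21546 c5342 c54 (k8 c9694 c21623 c5651 c20335 c5517 c1094 c5380 c5566 (k8 c20760 c5445 c713 c5447 c5397 c5398 c5448 c5518 (k8 c2455 c5546 c5565 c20666 c53 c9730 c10195 c17741 (k8 c12628 c2511 c18213 c1091 c21639 c20815 c10249 c20378 (k8 c5920 c387 c5414 c1139 c9300 c20518 c5665 c20770 (k1 c2428 k0)))))))) (by decide +kernel)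
def c21641 : PP 9 3 T 0x1000000000000000000000000000000000000000000000000100000000000000000000000000000000000000000000000000040000000010000000001020 := rS 0x1c19c41190c7bed2f195cff927921e768d7b82e26f5a503f3ad76a81cc3b03ea07403f1209c5203ac92b6fee (k8 c21634 c21546 c21615 c5342 c54 c9694 c21623 c5651 (k8 c20335 c21539 c5380 c5566 c20760 c5445 c713 c5585 (k8 c5507 c20598 c12627 c6008 c5519 c5382 c2588 c5780 (k8 c5381 c20666 c21638 c20774 c21640 c5358 c5353 c20829 (k8 c20816 c20759 c1919 c5653 c3767 c388 c20159 c6082 k0))))) (by decide +kernel)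
def c21642 : PP 9 3 T 0x1000000000000000000000000000000000000000000000000100000000000000000000000000000000000000000000000000040000000000000000001020 := rS 0x12e5f33ab4ef920e95c6824138a4073b49b24c295d81f76fee40e82b24a (k8 c21615 c5342 c21539 c5380 c21634 c21546 c5566 c20760 (k8 c5446 c5445 c5396 c5444 c20666 c54 c9694 c21623 (k8 c5651 c21641 c20773 c331 c10195 c5912 c2759 c20694 (k2 c5439 c19758 (k1 c20913 k0))))) (by decide +kernel)
def c21643 : PP 9 3 T 0x1000000000000000000000000000000000000000000000000100000000000000000000000000000000000000000000000000040000000000000000000020 := rS 0x1b25610b6a268a844406a066dc8ab18efb91a1337e83e759599285203 (k8 c54 c9694 c21615 c2455 c5342 c5546 c21539 c5565 (k8 c5564 c5381 c21634 c5504 c5506 c5582 c21546 c21642 (k8 c316 c315 c20646 c17798 c5715 c5528 c20779 c2862 (k2 c21551 c5490 k0)))) (by decide +kernel)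
def c21644 : PP 9 3 T 0x8000000000000000000000080000000000000000000000000000000000000001000000000100000000000010000000000041000000081000008010000000 := rS 0x4b78ceed7 (k4 c5507 c5356 c20829 c20913 (k1 c10141 k0)) (by decide +kernel)
def c21645 : PP 9 3 T 0x40000000000000000000000000000000000100000000000000000000000000000020000000000000000000040000000000000000000020 := rS 0x25d3a781a9ecad93038f4ce994a985929f0d0776042f7475e2639da051a7d54aada2fd67915e62612c54275908acc5203379ab6a20067b1ee0b89e81eb4a07e77e64a (k8 c21615 c5546 c20598 c12627 c6008 c5519 c21539 c5382 (k8 c2588 c5780 c21643 c20874 c315 c5528 c316 c5565 (k8 c54 c9694 c2455 c20646 c5342 c5564 c17798 c16791 (k8 c5715 c5540 c460 c5543 c5542 c5501 c5500 c21192 (k8 c5566 c5381 c5380 c20666 c9754 c5811 c2029 c9614 (k8 c20779 c20760 c18526 c2863 c5448 c5396 c5445 c5446 (k8 c5447 c20694 c2860 c713 c21644 c10195 c17741 c20773 (k4 c370 c1136 c1074 c20870 k0)))))))) (by decide +kernel)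
def c21646 : PP 9 3 T 0x40000000000000000000000000000000000100000000000000000000000000000000000000000000000000040000000000000000000020 := rS 0xf7ecc38ad12ced1a4579c54275908fcd6629019bcd5b510033d8f705c4f40f5a503c959d (k8 c20598 c21615 c12627 c6008 c5519 c21539 c5382 c2588 (k8 c5780 c21643 c20874 c315 c5528 c316 c5565 c54 (k8 c9694 c2455 c5546 c20646 c5342 c5564 c17798 c5540 (k8 c460 c5381 c20666 c16791 c21645 c19430 c5486 c18526 (k1 c5229 k0))))) (by decide +kernel)
def c21647 : PP 9 3 T 0x4000000000000000000000000000000000000100000004000100200000000000000000000000000000000000000000000000000000008000000000000000 := rS 0x77865e3 (k4 c5576 c405 c5166 c5492 k0) (by decide +kernel)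
def c21648 : PP 9 3 T 0x80000000000000000000000000100000000000000000000000000000000000000000000000000040000000000000000000020 := rS 0x81a47bde1d89dcfe799da3fe68768c059eff63833d8f705c4deb4a0792b3a0965ecce26f46e83dfb6 (k8 c21646 c21546 c21539 c5381 c5565 c5571 c18613 c5420 (k8 c21075 c20598 c21615 c12627 c6008 c5519 c5382 c2588 (k8 c5780 c21643 c20874 c2481 c5544 c5543 c5502 c5501 (k8 c5499 c5546 c5568 c20666 c5441 c5358 c5356 c12830 (k4 c20854 c5224 c21540 c20702 (k1 c20819 k0)))))) (by decide +kernel)
def c21649 : PP 9 3 T 0x100000000000000000000000000000000000000000000000000040000000000000000000020 := rS 0xef787c6994e8e07c9bd81ecac07c9fbf6db5101a819ec54bd5ef4a0583eb24acecee27a0 (k8 c21539 c5382 c20666 c20598 c21615 c5342 c12627 c2588 (k8 c6008 c5780 c5519 c21192 c21643 c20874 c316 c315 (k8 c5528 c21646 c21546 c21648 c8467 c10195 c17741 c5209 (k8 c8100 c21630 c369 c1136 c5447 c5576 c5534 c5166 (k1 c17889 k0))))) (by decide +kernel)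
def c21650 : PP 9 3 T 0x80000000000000000000000000000000000000000000000000000000000000000000000000000000000000080008000000000000002020 := rS 0x81abc8af3f6454d53b09c75fab133237401138d6552f5a503f3a1a (k8 c716 c20598 c12627 c6008 c5519 c1906 c5342 c5571 (k8 c719 c21539 c5381 c715 c2179 c21278 c2159 c5564 (k8 c20666 c316 c17798 c17806 c5540 c460 c1078 c16948 (k1 c17841 k0)))) (by decide +kernel)
def c21651 : PP 9 3 T 0x2000000000000080000000000000000000000000000000000000000000000000000000000000000000000000000000000000080008000000000000000020 := rS 0xd7b536c51210357915e70155a1e22019d9bdfa7159d65ff1d46e8152f5a503f3a1a (k8 c716 c20598 c12627 c6008 c5519 c1906 c21539 c5381 (k8 c2159 c2569 c5342 c5574 c5571 c21278 c5565 c20666 (k8 c53 c9730 c5499 c5500 c5502 c5540 c460 c1078 (k4 c16948 c20935 c18003 c746 (k2 c5414 c1139 (k1 c5665 k0)))))) (by decide +kernel)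
def c21652 : PP 9 3 T 0x4000000000000080000000040000000000000100000000000100000000000000000000000000000000000000000000000000000000100000000000000020 := rS 0x3c43eefb55ae95509d860971a90760563186406b13327d96ad57868853b8e9691ba0 (k8 c21539 c5381 c21649 c2159 c20666 c5658 c716 c1078 (k8 c5573 c5420 c5572 c715 c2179 c54 c9701 c9754 (k8 c10195 c5209 c12628 c20773 c8194 c769 c768 c5398 (k4 c5446 c1934 c2779 c5493 (k2 c8160 c5166 (k1 c5576 k0)))))) (by decide +kernel)
def c21653 : PP 9 3 T 0x4000000000000080000000000000000000000000000000000100000000040000000000000000000000000000000000000000000008000000000000000020 := rS 0xe393d901c4e1f18fdbed66ab4fbcc9d8a5cee573c97f2442801167609409f7666665ab42271f9d6417137fc751ba01d8de940fce837da5a (k8 c21649 c21651 c21650 c20598 c12627 c6008 c5518 c5332 (k8 c21539 c5381 c2159 c2569 c5382 c2588 c5342 c5546 (k8 c5571 c719 c5573 c5420 c715 c5487 c5566 c5380 (k8 c21075 c20666 c461 c5694 c5658 c21652 c5439 c5441 (k8 c5353 c5356 c19660 c12830 c2063 c5224 c13297 c5454 (k8 c20859 c2952 c2911 c20727 c1721 c2146 c1934 c15912 (k2 c2618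 c1734 (k1 c18104 k0)))))))) (by decide +kernel)
def c21654 : PP 9 3 T 0x20000000040000000000000000000000000100000000080008000000000000000000000000000000000000000000000040000040000020 := rS 0x68b3592761aec0ac010c80f3a5a (k8 c21649 c20598 c54 c9701 c53 c10195 c5209 c20773 (k4 c768 c5396 c2501 c4550 (k1 c20380 k0))) (by decide +kernel)
def c21655 : PP 9 3 T 0x4000000000000080000000000000000000000000000000000100000000000000000000000000000000000000000000000000000008000000000000000020 := rS 0x344f6e1f18f5aacf66f7993b14b9dcf2c72fe49bef2da1110f02f6aa5ea37a507c1f59f9e7676813e86a3a8dd06cccc5a38b2d6aad (k8 c5573 c5422 c5420 c5571 c21649 c715 c5487 c21539 (k8 c5381 c2159 c716 c5566 c5380 c20666 c20598 c5546 (k8 c5342 c12627 c2590 c6008 c5518 c5519 c1906 c21651 (k8 c21653 c10690 c16948 c20488 c460 c4680 c21654 c5439 (k8 c5357 c5441 c5356 c19660 c12830 c2063 c5224 c13053 (k8 c5453 c5454 c2970 c20727 c16773 c15912 c2202 c20770 k0)))))) (by decide +kernel)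
def c21656 : PP 9 3 T 0x40008000000000a0000000000000000000000000000000000100000000080000000000000040000000000000000041400000000000001000000000000020 := rS 0x1c2d0aca4226113892e940f4396b3be36aa34fba0 (k8 c21539 c5566 c5381 c5454 c20727 c20598 c21649 c10690 (k8 c872 c6008 c21655 c5571 c719 c5382 c20711 c9399 (k2 c21540 c16773 (k1 c2202 k0)))) (by decide +kernel)
def c21657 : PP 9 3 T 0x4000000000000080000000080000000000000000000000000100000000080000000000000000000000000000000000000000000000200000000000000020 := rS 0x120d1f66d47ad5ef6c4ee7f3cb1e768dd03f7667165fcd566654bd6940f43e74345a (k8 c21649 c716 c20598 c10690 c872 c6008 c5519 c1906 (k8 c715 c4548 c5550 c5420 c5571 c5487 c21278 c21539 (k8 c5381 c20666 c5357 c5441 c5358 c5356 c12830 c5224 (k4 c5454 c2970 c21656 c5682 (k2 c5501 c20701 (k1 c21540 k0)))))) (by decide +kernel)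
def c21658 : PP 9 3 T 0x12000000004000000000000004020 := rS 0x2441a038984d1fa00882e959d (k8 c20598 c6008 c5516 c719 c21539 c5568 c5564 c5382 (k4 c54 c2427 c746 c12647 k0)) (by decide +kernel)
def c21659 : PP 9 3 T 0x40000000000000000000000000100000000080000000000000000000000000000000000001000000000000000000000000020 := rS 0x3459acf4ca5536c94e9d860971aec0f6560398e22010c80e76fd19aaccc3754bd6940f43e74345a (k8 c21649 c716 c20598 c10690 c872 c6008 c5519 c1906 (k8 c5518 c715 c4548 c4439 c21278 c20666 c54 c9701 (k8 c53 c9730 c9754 c8467 c10195 c17741 c5209 c20773 (k8 c8194 c769 c768 c8792 c5396 c5397 c5446 c5447 (k4 c20518 c1916 c4550 c3617 k0))))) (by decide +kernel)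
def c21660 : PP 9 3 T 0x4000000000000080000000000000000000000000000000000100000000080000000000000000000000000000000000000000000000000000000000000020 := rS 0x120d1f66d6b1de22ec4ee7f3cb1f246d54bd6940f55a1fe79d9d86a3a8dd03f766662d1c5964b (k8 c21655 c5420 c5571 c21649 c715 c5487 c21278 c21539 (k8 c5381 c2159 c716 c20666 c20598 c5550 c10690 c4548 (k8 c872 c6008 c5519 c1906 c21658 c21659 c5357 c5441 (k8 c5358 c5356 c12830 c21657 c5224 c16948 c9399 c5682 (k2 c5501 c20701 (k1 c21540 k0)))))) (by decide +kernel)
def c21661 : PP 9 3 T 0x50000000000000000000005000001000000010000080004000000000000004020 := rS 0x3fbd887da9b51b1347e803a017eecccc11 (k8 c719 c715 c5487 c21278 c53 c1995 c21539 c5568 (k8 c5382 c5381 c21658 c20711 c9843 c5682 c20819 c5544 k0)) (by decide +kernel)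
def c21662 : PP 9 3 T 0x100000000008000000000811000000005001000000000000000000000000010004000008020 := rS 0x12a9b498d87c41ac9108c1901cee3a8dd03dccc1a7a16933b4 (k8 c9737 c5530 c21649 c873 c716 c715 c4481 c21539 (k8 c5381 c2159 c20666 c54 c9701 c19573 c2342 c5562 (k4 c458 c18221 c2914 c326 (k2 c2328 c1905 (k1 c18094 k0))))) (by decide +kernel)
def c21663 : PP 9 3 T 0x4000000000000080000000080000000000000000000000000100000000000000000000010000000005000000000000000000000000000000000000000020 := rS 0x4aa6d263e20d648824573ffe4994ebd3694b073c43203cec743a017ebdc34b113ab497031ab3602d62b84502093ea352279639dfbdb1659c766662d4ecffa0 (k8 c21539 c5358 c20666 c21649 c715 c5487 c5571 c5420 (k8 c12830 c5224 c5356 c5357 c5441 c21540 c5381 c5566 (k8 c21075 c5380 c719 c5353 c20859 c2145 c5495 c5450 (k8 c21660 c21655 c5573 c5570 c2179 c716 c4481 c21278 (k8 c53 c1995 c2159 c20598 c54 c9701 c5811 c21661 (k8 c5329 c9737 c873 c9066 c5530 c20710 c21662 c21326 (k8 c10145 c1078 c5559 c458 c18221 c326 c9848 c1905 (k1 c18094 k0)))))))) (by decide +kernel)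
def c21664 : PP 9 3 T 0x8000000000000010000000004000000000000000020 := rS 0x1e6cdac44039d (k4 c20598 c53 c9730 c5413 (k2 c20861 c9737 (k1 c21658 k0))) (by decide +kernel)
def c21665 : PP 9 3 T 0x4000000000000080000000080000000000000000000000000100000000000000000000010000000000000000000000000000000000000000000000000020 := rS 0xff43aa1230188806268f59c0d564b639e4fe776b77b62cbd9998b53b2b844e281049f51ba0 (k8 c21539 c5381 c5566 c21075 c5380 c5571 c719 c5353 (k8 c20666 c21649 c715 c5487 c5420 c12830 c5224 c20859 (k8 c5356 c5358 c5441 c5357 c21655 c21664 c21660 c5574 (k8 c5568 c5382 c53 c9730 c2145 c21540 c21663 c2023 (k2 c2452 c20819 k0))))) (by decide +kernel)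
def c21666 : PP 9 3 T 0x4000000000000080000000080000000000000000000000000100000000000000000000000000000000000000000000000000000000000000000000008020 := rS 0x3fd5e42200fd2430808e80e397a3ce96f11184dfab15989d5b033f8f5adde2b84502093ec751be11bbdd3a97d8b2f40a98aed3dad00d4ef66662d2ac9671 (k8 c5571 c21655 c21664 c21649 c715 c5487 c20666 c716 (k8 c21665 c5501 c19296 c5414 c4361 c21539 c5420 c12830 (k8 c20692 c10719 c4481 c1482 c5459 c5381 c2159 c5566 (k8 c21075 c5380 c719 c5353 c5224 c20859 c1492 c5358 (k8 c21660 c5573 c5570 c5574 c2179 c21278 c5564 c9734 (k8 c5811 c5329 c20772 c873 c393 c871 c5654 c4373 (k8 c1925 c12293 c326 c12613 c1739 c2777 c2781 c9179 k0))))))) (by decide +kernel)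
def c21667 : PP 9 3 T 0x4000000000000080000000080000000000000000000000000100000000000000000000000000000000000000000000000000000000000000000000000020 := rS 0x1048406229edbeffac8ec93f3485281e0b36ed01aa9f6b407ae1f1b59abded89dcaf9d9d8250313099f4351d46e81fbb333169961181aac9671 (k8 c5571 c21655 c21664 c21660 c719 c5420 c21649 c715 (k8 c5487 c21278 c21539 c5381 c2159 c716 c5566 c5564 (k8 c5382 c5380 c21075 c20666 c20598 c5353 c5356 c12830 (k8 c5224 c5454 c20859 c20727 c1721 c1492 c21665 c5501 (k8 c4361 c17806 c19296 c5529 c717 c21666 c6008 c20711 (k8 c16779 c10368 c5332 c9399 c20750 c10336 c15912 c9612 (k4 c15503 c5658 c1734 c1934 k0))))))) (by decide +kernel)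
def c21668 : PP 9 3 T 0x4000000000000080000000000000000000000000000000000100000000000000000000020000000000000000000000000000000000000000000000000020 := rS 0x111fff3ac924d60b07d2b680d6321952cff0fb677a00d3f7666608c0d564b389ec0f9d4b864066364a6f61df3b15b265a (k8 c21649 c21667 c10195 c768 c5493 c5209 c5397 c5396 (k8 c9754 c54 c9701 c8194 c20598 c8467 c17741 c5571 (k8 c21655 c21664 c21660 c719 c715 c5487 c21278 c716 (k8 c21539 c20666 c5501 c5459 c174 c4431 c2131 c20815 (k8 c17806 c19296 c21126 c21321 c3872 c2482 c5334 c9399 (k4 c16779 c20936 c21652 c9612 k0)))))) (by decide +kernel)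
def c21669 : PP 9 3 T 0x100000000000000000000010100000001000550000004010000000004000012000000004020 := rS 0xcd67a75ea3736d2a2201cecedfa3333068b4ab (k8 c21664 c21649 c716 c715 c4439 c21278 c20666 c20598 (k8 c53 c9730 c6008 c21658 c5518 c5519 c8792 c20518 (k2 c1916 c3617 k0))) (by decide +kernel)
def c21670 : PP 9 3 T 0x40000000000000000000000000000000000000000000000000000000000000000000000000000080000000000000000008020 := rS 0x3d3694b (k4 c5329 c9737 c873 c20685 k0) (by decide +kernel)
def c21671 : PP 9 3 T 0x4000000000000080000000000000000000000000000000000100000000000000000000000000000000000000000000000000000000000000000000000020 := rS 0xf5545281ed14ca5536c91825c6bb03d9580f932598c3203ce868b471 (k8 c5571 c21649 c716 c20598 c54 c9701 c9754 c21655 (k8 c21667 c8467 c10195 c17741 c5209 c20773 c8194 c769 (k8 c5396 c5397 c5446 c5447 c21668 c21670 c6008 c21669 (k2 c5519 c1906 k0)))) (by decide +kernel)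
def c21672 : PP 9 3 T 0x8000000000000000000000000000000000000000000000000000000000000000000000000000000002000000000000000000000000000000000008000020 := rS 0x483d20287888051b1347e8206ff (k8 c5586 c5508 c21539 c5568 c5382 c5381 c53 c9730 (k4 c2023 c4362 c1906 c20819 (k1 c10333 k0))) (by decide +kernel)
def c21673 : PP 9 3 T 0x80000000080000000000000000000000000100000000000000000000000000000000000000000000000000000000000000000000000020 := rS 0xefec4ff3bd06cccc5a38b2dabee (k8 c21671 c5585 c5420 c5571 c21649 c715 c5487 c21539 (k4 c20666 c5358 c12830 c20759 (k1 c5224 k0))) (by decide +kernel)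
def c21674 : PP 9 3 T 0x80000000040000000000000000000000000000000000000000000000000000000000000000000004000000080008008000000000000020 := rS 0x3181ae21c67627a0 (k8 c21539 c5382 c20598 c407 c408 c21650 c20378 c2619 k0) (by decide +kernel)
def c21675 : PP 9 3 T 0x80000000000000000000000000000000000100000000000000000000000000000000000000000000000000000000000000000000000020 := rS 0x1ec682af6a4b128fa94994aa6d92a11825c6a0fd81ecac07c9aa5aaaf6bfb95acb4f9c4466314864079d0d3f766b1331691ba0 (k8 c21539 c5381 c21649 c715 c2179 c5487 c21278 c716 (k8 c20598 c54 c9701 c9694 c9754 c9734 c5571 c5572 (k8 c5420 c5573 c21671 c5507 c5584 c5585 c21672 c21673 (k8 c8467 c10195 c17741 c5209 c21670 c20773 c8194 c769 (k8 c5398 c5396 c5397 c5446 c5447 c6008 c8160 c2909 (k4 c21674 c17828 c21664 c21669 (k2 c5682 c5501 k0))))))) (by decide +kernel)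
def c21676 : PP 9 3 T 0x40000000000000002000000000000000000000000080000000100000000040000000000520480000100000042000000000000080000000400000008010000 := rS 0x86ac57d607be369915c07e6fbfc93ed (k8 c5501 c5334 c20750 c10336 c800 c801 c9612 c2136 (k4 c5577 c2764 c16773 c1078 (k2 c9617 c5561 (k1 c1908 k0)))) (by decide +kernel)
def c21677 : PP 9 3 T 0x40000000000000000000000000100000000000000000000120400000000000000000000000000000000000000000000010020 := rS 0xad69fb84edfac92923f306b1a07ed9dc4c268f7eecd6266db9ec0fb0208ed2e190198dae762b237404905aa5eb4a07e74345a (k8 c21649 c716 c20598 c21670 c6008 c5519 c1906 c5516 (k8 c5334 c21539 c5381 c10195 c768 c2187 c9754 c54 (k8 c9701 c8194 c10737 c12628 c5209 c8467 c17741 c21675 (k8 c715 c2179 c5487 c21278 c5568 c5564 c5382 c20666 (k8 c5501 c4550 c20815 c17806 c16779 c21676 c12647 c17964 (k4 c2511 c21623 c5229 c2136 (k2 c1909 c8156 k0))))))) (by decide +kernel)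
def c21678 : PP 9 3 T 0x40000000000000000000000100000000000100000000000000000000500500000150014050000000000000000000000002000000000004 := rS 0x4a421f3485219 (k4 c9701 c9694 c3618 c8160 (k2 c1918 c20335 (k1 c5252 k0))) (by decide +kernel)
def c21679 : PP 9 3 T 0x40000000000000000000000000100000000000000000000100400000000000000000000010000000000000000000000000020 := rS 0x362d15715562bfdcb3acfcf6a4a68c44022989bf766b1db9ec0e970c80cc69f50b2536954cec1ae7646e803ecf1b8d67633332a434cd7ad281f9d18158b411 (k8 c719 c21649 c10195 c769 c20598 c21670 c6008 c5519 (k8 c1916 c716 c1906 c715 c4439 c20666 c20773 c5518 (k8 c20518 c5517 c21539 c5381 c768 c2187 c5209 c5447 (k8 c5446 c5397 c5396 c5398 c5448 c9754 c54 c9701 (k8 c8194 c8467 c17741 c21675 c2179 c5487 c21278 c5382 (k8 c9694 c53 c9730 c21677 c21669 c20380 c5546 c5342 (k8 c2455 c5229 c5584 c21678 c3053 c2128 c5685 c9860 (k1 c2610 k0)))))))) (by decide +kernel)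
def c21680 : PP 9 3 T 0x44000000000000000000000000000004000100000000000000000000200000000000000000000000000000000000000014000000000000 := rS 0x56079ef (k4 c5585 c21481 c5229 c5560 k0) (by decide +kernel)
def c21681 : PP 9 3 T 0x40000000000000200000000000100000000000000000000000000000000000000000000010000000000000000000000000020 := rS 0x120e106b193bed682afdc4b8984d1efd3d81d2e190198c60c94da5533b0efb5cec8dd012416a97ad281f9df1b29aa352b6dc661ad9998b53b (k8 c20666 c21649 c715 c5487 c716 c4439 c21675 c10195 (k8 c20773 c21680 c21679 c5464 c20598 c21670 c6008 c5519 (k8 c1906 c5516 c5334 c21539 c5381 c768 c2187 c5493 (k8 c5209 c5447 c5446 c5397 c5396 c769 c9754 c54 (k8 c9701 c8194 c8467 c17741 c21278 c5568 c5564 c5382 (k8 c5342 c21412 c21664 c21669 c14774 c10719 c20815 c17806 (k2 c1718 c17964 (k1 c801 k0)))))))) (by decide +kernel)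
def c21682 : PP 9 3 T 0x40000000000000000000000000100000000000000000000000000000000000000000000010000000004000000000000000020 := rS 0x2441ac6f6b42261347e81fa7b03a5c32631832536954cec0920b23aa5ea1170d66940fce8f45203f1b29aa352b6dc661ad9998b53b (k8 c20666 c21649 c715 c5487 c716 c4439 c21675 c10195 (k8 c20773 c21680 c21679 c5464 c54 c9694 c1490 c20598 (k8 c21670 c6008 c21681 c16773 c719 c5519 c1906 c5520 (k8 c5516 c5334 c5209 c5447 c5446 c5397 c5396 c769 (k8 c9754 c9701 c8194 c8467 c17741 c21278 c21539 c5568 (k8 c5564 c5382 c21669 c5501 c20815 c17806 c801 c12614 k0)))))) (by decide +kernel)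
def c21683 : PP 9 3 T 0x40000000000000000000000000100000000000000000000000000000000000000000000010000000000000000000000000020 := rS 0xf0b1c70dff99287ce1ac8f7c6ca14c4f407b039052e190198d929b4aa6761df3b33c6ea966bd6940fce8c1aa352b6dc661ad9998b53b (k8 c20666 c21649 c715 c5487 c716 c4439 c21675 c10195 (k8 c20773 c21680 c769 c20598 c21670 c6008 c5519 c1916 (k8 c1906 c5518 c20518 c768 c5493 c5209 c5447 c5446 (k8 c5397 c5396 c9754 c54 c9701 c8194 c12628 c8467 (k8 c17741 c21539 c5382 c9694 c21679 c5464 c1490 c21681 (k8 c16773 c5655 c21682 c5546 c2511 c407 c9140 c5534 (k1 c21183 k0))))))) (by decide +kernel)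
def c21684 : PP 9 3 T 0x40000000000000000000000000100000000000000000000000040000000000000000000000000000008000000000000000020 := rS 0x45194e35aab47eaa1ced7c0d100bf5627b039052e1931a7d42c94da5533b0efb5cec8dd007d9e3754b35eb4a07e7460d51a95b6e330d6cccc5a9dabce1f3acacc5203 (k8 c54 c9694 c2455 c5342 c5546 c21683 c20748 c20666 (k8 c21649 c715 c5487 c716 c4439 c21675 c10195 c20773 (k8 c21680 c769 c20598 c21670 c6008 c5519 c1916 c1906 (k8 c5518 c20518 c5517 c21539 c5381 c768 c2187 c5493 (k8 c5209 c5447 c5446 c5397 c5396 c5398 c5448 c9754 (k8 c9701 c8194 c12628 c8467 c17741 c2179 c21278 c53 (k8 c2132 c21183 c20380 c5534 c18012 c407 c2128 c1344 (k4 c18213 c8160 c5685 c1293 k0)))))))) (by decide +kernel)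
def c21685 : PP 9 3 T 0x40000000000000000000000000100000000000000000000000000000000000000000000000000000008000000000000000020 := rS 0x32d5a241f89dc60d63564520989ac482970c80cc6304fa852bb06b9d91ba06a8d4adb71986b66662d4ed5e70 (k8 c21683 c20748 c20666 c21649 c715 c5487 c716 c4439 (k8 c21675 c10195 c20773 c21680 c21539 c5381 c768 c2187 (k8 c5209 c5446 c5398 c5448 c769 c9754 c54 c9701 (k8 c8194 c12628 c2179 c5382 c21075 c9694 c5342 c21684 (k8 c2481 c2619 c21623 c408 c5651 c1909 c1091 c8160 k0))))) (by decide +kernel)
def c21686 : PP 9 3 T 0x40000000000000000000000000100000000000000000000000400000020000000000000000000000000000000000000001020 := rS 0x1566d59b45201112c56231309a3f401d00bf40e970c80cc6c9d81241647678dd52cd7ad281f9d183546a56db8cc35b33316a764b (k8 c21685 c20666 c21649 c715 c5487 c716 c4439 c21675 (k8 c10195 c20773 c21680 c769 c20598 c21670 c6008 c5519 (k8 c1916 c1906 c5518 c20518 c5520 c5516 c5334 c5209 (k8 c5396 c9754 c54 c9701 c8194 c8467 c21278 c53 (k8 c1995 c21539 c5568 c5564 c5382 c9730 c3053 c2759 (k4 c720 c12614 c21677 c2897 (k2 c747 c2128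 (k1 c9860 k0)))))))) (by decide +kernel)
def c21687 : PP 9 3 T 0x40000000000000000000000000100000000000000000000000400000000000000000000000000000000000000000000001020 := rS 0x34ab0ad40ac52e190198c609f50b252bb06b9d91ba06a8d4adb71986b66662d4ed5e70 (k8 c21683 c20748 c20666 c21649 c715 c5487 c716 c4439 (k8 c21675 c10195 c20773 c21680 c21539 c5381 c768 c2187 (k8 c5209 c5446 c5396 c5398 c5448 c769 c9754 c54 (k8 c9701 c8194 c2179 c5380 c21686 c21678 c3618 c21179 k0)))) (by decide +kernel)
def c21688 : PP 9 3 T 0x40000000000000000000000000100000000000000000000000080000000000000000000000000000000000000000000000020 := rS 0x1c090088f5940d88804520304c4c268fd0158f6072482c8f4a0796b3a4b (k8 c21685 c20598 c21649 c21670 c6008 c5520 c5516 c5334 (k8 c8467 c17741 c10195 c21539 c5568 c5564 c5382 c21075 (k8 c54 c9694 c53 c9730 c2481 c21687 c1490 c773 (k2 c12614 c801 (k1 c17738 k0))))) (by decide +kernel)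
def c21689 : PP 9 3 T 0x40000000000000000000000000100000000000000000000000000000000000000000000000000000000000000000000000020 := rS 0x9108c547aca3603554394ef818e4b66aa59e477a8dc1649efd2932954db24ec304b8d41fb03d9580e6388804521901e76771309a3f40fd19998345a (k8 c21649 c716 c715 c4439 c21278 c21539 c5568 c5564 (k8 c5382 c20666 c20598 c54 c9701 c9694 c53 c9730 (k8 c9754 c8467 c10195 c17741 c5209 c21670 c20773 c8194 (k8 c769 c768 c5396 c5397 c5446 c5447 c6008 c5493 (k8 c5334 c5516 c5518 c5519 c5520 c20518 c1906 c1916 (k8 c21685 c21688 c21183 c5458 c5534 c18012 c369 c20861 (k4 c21687 c1490 c1292 c773 (k2 c747 c12614 k0)))))))) (by decide +kernel)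
def c21690 : PP 9 3 T 0x100000000000100000000000000000000000800000000000000000000000000000000000000000000020020 := rS 0xd52e310b2b47e27008a4061a2f81cc3df6aac5a5ee9decccc5adba35027f3ee80ef92 (k8 c21689 c5356 c21539 c5566 c5358 c5380 c5381 c21675 (k8 c21649 c715 c5487 c20666 c5229 c20761 c2179 c1661 (k8 c20759 c1755 c713 c5439 c716 c54 c9694 c53 (k8 c2859 c2908 c1909 c9148 c1919 c19758 c1619 c9931 k0)))) (by decide +kernel)
def c21691 : PP 9 3 T 0x100000000000000000000000800000000000000000000000000000004000000000000005020 := rS 0x24023b0ac91c1649a5676261347edf25e30398503a0 (k8 c21539 c5380 c1755 c713 c5464 c21689 c21675 c5568 (k8 c5564 c5382 c20598 c6008 c5334 c5516 c5520 c17877 (k4 c5226 c21690 c12614 c21549 k0))) (by decide +kernel)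
def c21692 : PP 9 3 T 0x4000000000000000000000000000000000100040000000100000000000020000100001000000001001100000000000000000004000000000000000020 := rS 0xad1209c92401fb88687b68a5536936ff81a445d87cfdc2901e75028d899f51fa00d6dcf27f3be49573bd9998b491 (k8 c10333 c21649 c715 c5487 c20666 c11079 c21689 c5356 (k8 c5358 c5441 c21675 c716 c21539 c5568 c5566 c5382 (k8 c5381 c5380 c20598 c54 c9694 c5229 c21589 c5226 (k8 c5582 c20761 c5168 c6120 c5444 c5397 c5446 c4371 (k8 c5457 c18094 c17983 c441 c18209 c17676 c349 c13854 (k2 c1909 c19674 k0)))))) (by decide +kernel)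
def c21693 : PP 9 3 T 0x100000000000000000000000800000000000000000000000000000004000000000000001020 := rS 0x1aa5536d1691152701f70f88e4121896b0cd54a653aab70bd10db4a5838339d9d8251a7d0d6cccc5a3f95cef92f18f452030398503a0 (k8 c21539 c5380 c1755 c713 c54 c9694 c1490 c5464 (k8 c21689 c5356 c5353 c5358 c21649 c715 c5487 c716 (k8 c5566 c5381 c21075 c20666 c20598 c9701 c21691 c5329 (k8 c9737 c872 c873 c21341 c11079 c5412 c5530 c5531 (k8 c2073 c21692 c5559 c5561 c5340 c5562 c17896 c19463 (k8 c1927 c1753 c5582 c20761 c2135 c9848 c1905 c441 (k1 c18094 k0))))))) (by decide +kernel)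
def c21694 : PP 9 3 T 0x100000000000000000000000800000000000000000000000000000000000000000000001020 := rS 0xd462971fb4bbe1656893dc27ac92852039da04fa1ad9edcbe7f3be49aab1331691ba0 (k8 c21539 c5381 c21649 c715 c2179 c1661 c21689 c5356 (k8 c5358 c5439 c21675 c5487 c716 c5566 c5380 c20666 (k8 c54 c9694 c21693 c5342 c21623 c5229 c5651 c1909 (k8 c9148 c20759 c20761 c20335 c19758 c1919 c1619 c9931 k0)))) (by decide +kernel)
def c21695 : PP 9 3 T 0x100000000000000000000000800000000000000000000000000000000000000000000000020 := rS 0x19903711ec8b596f8449490f0fcde70168a1dc2fff633f6a9d59aa4406d1d9a9ea0f0601d5e61f180e7681899bd1f1d46e803a017eecc66660d16b6e5f639e4ef92 (k8 c21689 c5356 c5441 c5357 c5439 c21675 c21649 c716 (k8 c715 c4439 c5487 c21278 c53 c1995 c21539 c5381 (k8 c2159 c5568 c5565 c5382 c5380 c20666 c54 c5464 (k8 c1755 c3995 c713 c21694 c151 c20810 c316 c3663 (k8 c2427 c315 c1906 c2377 c1135 c5528 c21279 c17806 (k8 c13507 c1718 c9843 c5501 c5502 c5540 c20903 c20854 (k8 c18848 c16685 c20646 c10336 c5342 c460 c15912 c5691 (k2 c16948 c20853 (k1 c2623 k0)))))))))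 (by decide +kernel)
def c21696 : PP 9 3 T 0x100000000000000000000000000000000000000000000000000000008000000000000002020 := rS 0xf6cd6fc05a2875a7b04c2037b1cf3f3598a407036781d52fd708f5a48d409fcfba03b8cc354a07e77c7926bfbab33bd9998b5b7 (k8 c21675 c21649 c715 c5487 c20666 c5342 c5229 c5507 (k8 c21689 c20829 c20598 c12627 c6008 c716 c4439 c5356 (k8 c21539 c5566 c5358 c5380 c5381 c20761 c2769 c16773 (k8 c21278 c21672 c6060 c21279 c5508 c54 c9694 c2455 (k8 c5546 c5441 c5357 c5565 c315 c5715 c17806 c354 (k4 c5499 c5501 c5502 c4678 (k2 c12473 c15912 (k1 c20770 k0)))))))) (by decide +kernel)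
def c21697 : PP 9 3 T 0x100000000000000000000000000000000000000000000000000000008000000000000000020 := rS 0x369018a8e080e31fab449e113835c23d039c142370f8eda5dff1ec1aaaf81b5e95ee7facc160facfcc5203cecec1281899f63afdd98cc34b1331691ba0dbb1cf27f2b9df24cb (k8 c21695 c21689 c5356 c5353 c5358 c5441 c5357 c21675 (k8 c21539 c5381 c21649 c715 c2179 c716 c4439 c5487 (k8 c21278 c2159 c5566 c5382 c5380 c21075 c20666 c20598 (k8 c54 c9694 c5546 c5342 c12627 c2588 c2455 c2569 (k8 c5229 c6008 c5507 c5508 c5584 c5585 c20760 c20829 (k8 c20759 c20761 c5332 c5517 c5518 c5398 c12830 c6060 (k8 c2769 c16773 c21696 c21623 c18042 c5651 c1909 c20335 (k4 c5731 c20848 c15375 c19676 (k2 c18002 c16791 (k1 c18072 k0)))))))))) (by decide +kernel)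
def c21698 : PP 9 3 T 0x40004000000000000000000000000000000000100000000000100000000050000000100080000000400000000000000000000000000000000004000000020 := rS 0x2ab69151c8dc163b205287eb507924482901e7412fd5897cf257258f46670c932c0e617faa7dcad46e836eaf50ec3bfb3334ec345a (k8 c21649 c716 c20666 c715 c5487 c5496 c5224 c5398 (k8 c2940 c21675 c21539 c5381 c1909 c5282 c21672 c13507 (k8 c5445 c713 c21695 c21689 c12830 c4439 c2769 c21697 (k8 c5353 c5441 c5439 c2179 c21278 c21075 c20598 c54 (k8 c9694 c5651 c10629 c6185 c1095 c20335 c19674 c20848 (k8 c5332 c5516 c5518 c546 c19676 c16727 c3623 c5413 k0)))))) (by decide +kernel)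
def c21699 : PP 9 3 T 0x40004000000000000000000000000000000000000000000000100000000050000000100080000000400000000000000000000000000000000004000000020 := rS 0x1a8c47c43ac117dcad04a34fba00d6dcfe573be495ea10398761dfd9998b53b (k8 c20666 c21649 c715 c5487 c5496 c5224 c5445 c713 (k8 c5398 c2940 c21689 c5356 c5353 c5358 c21675 c716 (k8 c21539 c5566 c5381 c21075 c1909 c5282 c5582 c21698 (k4 c5561 c17896 c1918 c441 (k1 c9931 k0))))) (by decide +kernel)
def c21700 : PP 9 3 T 0x40000000000000000000000000000000000100000000000000000000080000000040000000100000400080080000048000000008000000 := rS 0x8a34f70c55bdf (k4 c5496 c1908 c1918 c5282 (k2 c9931 c5582 (k1 c441 k0))) (by decide +kernel)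
def c21701 : PP 9 3 T 0x40004000000000000000000000000000000000000000000000100000000050000000100080000000400000000000000000000000000000000000000001020 := rS 0x4883f694aac9087c41238444c075798543b01ef7c039d9d825028d8984cfba0d98cccc1a2d6dcfe573be49964b (k8 c21697 c21695 c21689 c5356 c5353 c5358 c21675 c21649 (k8 c716 c715 c4439 c5487 c21539 c5566 c5564 c5382 (k8 c5381 c5380 c21075 c20666 c20598 c53 c5496 c2769 (k8 c5224 c5398 c5445 c2940 c713 c21699 c2859 c2864 (k8 c350 c12613 c21700 c5561 c10155 c16775 c5329 c21549 (k1 c20711 k0)))))) (by decide +kernel)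
def c21702 : PP 9 3 T 0x4000000000000044000000000000000000000000000004000000000000000000000000000000000100000000000000000000000000000000000008000000 := rS 0xad5790c4b58 (k4 c5229 c5559 c5561 c1077 (k2 c1908 c5683 k0)) (by decide +kernel)
def c21703 : PP 9 3 T 0x40000000000000050000010000000000000000000000000000000001400000000000000000000000000000001400000000000000000000000000000041020 := rS 0x10 (k2 c15459 c18513 k0) (by decide +kernel)
def c21704 : PP 9 3 T 0x40004000000000000000000000000000000000000000000000100000000010000000100000000000000000000000000000000000000000000000000001020 := rS 0x2462bb559444039d8984d1f03697bb6eb1d9998345a9da35027f3ee80ef92 (k8 c21689 c5356 c21539 c5566 c5358 c5380 c5381 c20666 (k8 c21649 c716 c715 c5487 c2179 c21675 c21702 c20761 (k8 c5508 c5568 c5564 c5382 c20598 c53 c9730 c21701 (k4 c5532 c171 c2897 c21703 k0)))) (by decide +kernel)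
def c21705 : PP 9 3 T 0x10000000000000000000000000000000000100000000020000000100000000000000000000000000000000000000000000000000001020 := rS 0x3f1c040f7591d9b1554a07e7412fd19aa5a4813e9dc0e61d877cff926afbb6eb14686b41b33316a77ed (k8 c5502 c20666 c21649 c715 c5487 c21539 c716 c5381 (k8 c2179 c21675 c21702 c5585 c21689 c5358 c20759 c5224 (k8 c5445 c713 c5356 c5566 c5380 c20761 c21672 c4439 (k8 c21278 c21075 c20598 c9737 c5211 c5682 c5830 c5332 (k4 c17877 c742 c16775 c21273 (k2 c2908 c18002 k0)))))) (by decide +kernel)
def c21706 : PP 9 3 T 0x100000000000000000000000000000000001000000000000000000000400000000100021420 := rS 0xb8e46e3b2007e943f5a924480fac88c3203ce824aecb258f5a4813e9dc66934cfcd360730ec3be7fc9357ddb758a3435a0d9998b53b (k8 c20666 c21649 c715 c5487 c21539 c716 c5381 c2179 (k8 c21675 c21702 c5585 c21689 c5358 c20759 c5224 c5445 (k8 c713 c5397 c21582 c5447 c5444 c4439 c5356 c5566 (k8 c5380 c20761 c2769 c21697 c21695 c5353 c21075 c20598 (k8 c54 c9701 c9734 c5558 c10107 c720 c3027 c5804 (k8 c2908 c6008 c6300 c20848 c5332 c5518 c546 c1736 (k1 c3578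 k0))))))) (by decide +kernel)
def c21707 : PP 9 3 T 0x20000000000000000000000000000000000100000000000000000000000000000000000000000000000000000000000000000000014020 := rS 0x4852b3b1325ec3be7fc9357ddb758a3435a0d9998b53b (k8 c20666 c21649 c715 c5487 c21539 c716 c5381 c2179 (k8 c21675 c21702 c5585 c21689 c5358 c20759 c5224 c21697 (k4 c5382 c20598 c6008 c20711 (k1 c21549 k0)))) (by decide +kernel)
def c21708 : PP 9 3 T 0x4000000000000000000000000000000000000000000000100000000000000000100000000000000000000000000000000000000000000000000001020 := rS 0x1e94b07564843e20894220b368853bb46691e00290182426f72b92d5ea91eb49027d3b8cd26993832fe60730ec3be7fc9357ddb758a3435a0d9998b53b (k8 c20666 c21649 c715 c5487 c21539 c716 c5381 c2179 (k8 c21675 c21702 c5585 c21689 c5358 c20759 c5224 c5445 (k8 c713 c21582 c21695 c12830 c5447 c5444 c4439 c5356 (k8 c5566 c5380 c20761 c2769 c21672 c5584 c21697 c5353 (k8 c4481 c5564 c21075 c54 c9694 c21704 c2791 c2078 (k8 c21705 c5412 c5528 c5529 c717 c21706 c2754 c13854 (k4 c12613 c21700 c5561 c21707 (k2 c5329 c873 (k1 c21692 k0)))))))))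 (by decide +kernel)
def c21709 : PP 9 3 T 0x4000000000000000000000000000000000000000000000100000000000000000000000000000000000000000000000000000000000000000000001020 := rS 0x159a503dc19d2b8f5a4813e9dc660730ec3be7fc9357ddb758a3435a0d9998b53b (k8 c20666 c21649 c715 c5487 c21539 c716 c5381 c2179 (k8 c21675 c21702 c5585 c21689 c5358 c20759 c5224 c5445 (k8 c713 c4439 c5356 c5566 c5380 c20761 c2769 c5353 (k4 c20598 c21708 c21341 c6008 (k2 c17877 c16773 k0))))) (by decide +kernel)
def c21710 : PP 9 3 T 0x100000000000000000000000000000000000000000000000000000000000000000000000020 := rS 0x10143a47d80cf1aa5feaf6bfb89792dbac766fd33068b53b46c4d1fa0 (k8 c21539 c5568 c5382 c5381 c20666 c21649 c716 c715 (k8 c21278 c5487 c2179 c21675 c21689 c21697 c21702 c5507 (k8 c5584 c5586 c21672 c20829 c21709 c17806 c21541 c5499 (k2 c5502 c18848 k0)))) (by decide +kernel)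
def c21711 : PP 9 3 T 0x40000000080000000000000000000000000000000000000000000000000000000000000000000000000000000004000000000000002020 := rS 0x1b2d87bfc3f29d9bc72b33523f6a202fd674128 (k8 c21710 c21539 c12891 c5439 c315 c5528 c5568 c316 (k8 c2377 c5317 c5565 c20666 c16685 c11668 c21582 c15583 (k2 c5229 c18631 k0))) (by decide +kernel)
def c21712 : PP 9 3 T 0x80000000080000000000000000000000000000000000000000000000000000000000000000000000000000000000000000000000002020 := rS 0x681c2d86fdbe04bec766ad38bc4c73b04a34de7d559ab6a9b100e4be7f3bd674128 (k8 c21710 c21539 c12891 c5356 c5358 c5439 c5317 c315 (k8 c2490 c5528 c316 c20805 c5566 c5565 c5381 c21075 (k8 c20666 c9754 c5811 c5571 c5573 c18613 c17831 c19758 (k4 c10916 c10922 c19296 c716 (k2 c5649 c20850 (k1 c332 k0)))))) (by decide +kernel)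
def c21713 : PP 9 3 T 0x4000000000004000000080000000000000000000000000000000000000000000000000000000000000000000000000000000000000000000000002020 := rS 0x255f9df6bfb52fee78ced3ea9559deb2a15a455aaca20044263f3ea04ae3d03f836292137cc94b33523cde7fdb80740091480f6a5f4d8807328 (k8 c21710 c5317 c315 c2490 c5439 c5528 c54 c9694 (k8 c21075 c21539 c53 c21712 c5358 c5565 c5568 c316 (k8 c2377 c21711 c5546 c5715 c17411 c5444 c10916 c5432 (k8 c5436 c5313 c5380 c5566 c5318 c5564 c20646 c12613 (k8 c350 c4225 c1139 c5685 c1199 c12891 c5356 c20805 (k8 c20804 c17448 c20666 c5811 c5229 c19667 c10922 c5507 (k4 c20759 c5682 c1757 c10429 k0))))))) (by decide +kernel)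
def c21714 : PP 9 3 T 0x4000000000000000000080000000000000000000000000000000000000000000000000000000000000000000000000000000000000000000000002020 := rS 0xd222320b695338752eadd918762ca491004a2608fcc95b73f97c02631480f3a094084cfa571f81c7b2859a3e2a6a37e836a20 (k8 c315 c5528 c21539 c5565 c316 c1139 c5568 c2377 (k8 c21710 c5436 c5432 c5318 c5313 c5566 c5564 c5380 (k8 c21075 c20598 c54 c9694 c9754 c53 c5439 c5358 (k8 c21712 c21711 c5546 c20646 c5715 c16791 c12613 c17411 (k8 c350 c5444 c1755 c21713 c5490 c5404 c5486 c5487 (k4 c5488 c715 c20236 c19430 (k2 c1325 c2936 k0))))))) (by decide +kernel)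
def c21715 : PP 9 3 T 0x40000000040000000000000000000000000000000000000000000000000800000000000000000040000000000000000000000000000020 := rS 0x931318402631480d0217ac95c7e0903ca0fba0 (k8 c21539 c5566 c21710 c5432 c21075 c5318 c5313 c17896 (k8 c5433 c5380 c54 c9694 c9754 c53 c1755 c9148 (k2 c19535 c17411 k0))) (by decide +kernel)
def c21716 : PP 9 3 T 0x4000000000049000000040000000000000000000000000000000000000000000000000000000000000000000040000000000000000000000000000020 := rS 0x47069ef089dc4ed53897d40cbac98d1a6f3e95c7e074fca3400956abcb667 (k8 c5487 c715 c5406 c5490 c21075 c21539 c21710 c17448 (k8 c5432 c5318 c5313 c5566 c5565 c5381 c9754 c17896 (k8 c21715 c5680 c1121 c2929 c3000 c2927 c11141 c719 (k4 c21547 c20850 c20728 c553 k0)))) (by decide +kernel)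
def c21717 : PP 9 3 T 0x4000000000049000000000000000000000000000000000000000000000000000000000400000000000000000000000000000000000000000000002020 := rS 0x1feb122892b31d200d0e1f23b9816a5f5018c52039da7c123b23d281eab59a3e2a6a37e8136399416ccee16ff833bb510354fd93 (k8 c21714 c21716 c20749 c315 c5528 c20598 c5235 c5538 (k8 c5460 c5487 c715 c21710 c5317 c2490 c21539 c5565 (k8 c316 c1139 c5568 c2377 c20805 c19585 c6008 c5520 (k8 c5332 c21075 c17448 c20666 c54 c9694 c9754 c5680 (k8 c1121 c1199 c5663 c11141 c16719 c728 c20850 c19019 (k4 c553 c5340 c15031 c4915 (k2 c1093 c11059 (k1 c17868 k0)))))))) (by decide +kernel)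
def c21718 : PP 9 3 T 0x4000000000049000000000000000000000000000000000000000000000000000000000000000000000000000000000000000000000000000000002020 := rS 0x45257bbe75920f7d26991298594df4ef80c62901ced026f0b91d56b33523f41b54d880739356875a25b338ee940fceca18e09 (k8 c21075 c2481 c21710 c20598 c19585 c6008 c5332 c5487 (k8 c715 c19548 c5486 c5490 c21714 c5317 c315 c2490 (k8 c5528 c21539 c5568 c316 c2377 c20805 c5520 c5433 (k8 c5565 c5380 c20666 c54 c9694 c9754 c5235 c5458 (k8 c5538 c21717 c1755 c1090 c1760 c19535 c17870 c13854 (k4 c19518 c19019 c19523 c16685 (k2 c5582 c19430 k0))))))) (by decide +kernel)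
def c21719 : PP 9 3 T 0x48000000040000000000000100000000000000000000000000000000000800000000000104000000000000000000000000000000002020 := rS 0x77fde9d222d23bf37090c22263f09452039da3426570baad668f8a9a8dfa0daa6c403956875a25b338ee940fceca18e09 (k8 c21075 c2481 c21710 c20598 c19585 c6008 c5332 c5487 (k8 c715 c19548 c5486 c5490 c5317 c315 c2490 c5528 (k8 c21539 c5565 c316 c1139 c5568 c2377 c20805 c5433 (k8 c5313 c5564 c5381 c20666 c54 c9694 c1090 c21715 (k8 c9148 c720 c5252 c3059 c20119 c351 c5685 c20779 (k4 c1343 c5582 c17870 c18483 k0)))))) (by decide +kernel)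
def c21720 : PP 9 3 T 0x40000000000000048000000000000000000000100000000000000000000000000000000000400000000000104000000000000000000000000000000002020 := rS 0x1efef9113a25252d052039daad668f8a9a8dfa0daa6c403956875a25b338ee940fceca18e09 (k8 c21075 c2481 c21710 c20598 c19585 c6008 c5332 c5487 (k8 c715 c19548 c5486 c5490 c5317 c315 c2490 c5528 (k8 c21539 c5565 c316 c1139 c5568 c2377 c20805 c20666 (k8 c54 c9694 c5685 c16685 c16791 c1342 c19430 c17870 (k2 c5582 c18483 k0))))) (by decide +kernel)
def c21721 : PP 9 3 T 0x80000000000000040000000040000000000000100000000000000000000000000000000000000000000000004000000000000000000000000001000002020 := rS 0x1304452032b8ee940f946758e09599a91fa0 (k8 c21539 c5568 c316 c2377 c21075 c2481 c20598 c21710 (k8 c19585 c6008 c5332 c5313 c54 c9694 c720 c5651 (k1 c20119 k0))) (by decide +kernel)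
def c21722 : PP 9 3 T 0x1000000000000000000000000000000000000000000000000000000000000000500000400001000011100000000000000800000000000000000002020 := rS 0x3c37b3a9f63825668f8a9a8dfa04d8807328 (k8 c21710 c5317 c315 c2490 c21539 c5565 c316 c1139 (k8 c5568 c2377 c21075 c2481 c17448 c20598 c3620 c10245 (k1 c2387 k0))) (by decide +kernel)
def c21723 : PP 9 3 T 0x101000000000000000400000000000000040000100004000000004000045500004000000000000000000000000000000000000000404000000000000000020 := rS 0x21b25fb5fca1f046c9f1ba07b93dea4da503e519d (k8 c20598 c21710 c19585 c6008 c5521 c5519 c5335 c5333 (k8 c21539 c5569 c5383 c5381 c5695 c3594 c5511 c5767 (k2 c5595 c5640 (k1 c20753 k0)))) (by decide +kernel)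
def c21724 : PP 9 3 T 0x1004000000000000000000000000000040000100000000000004204041000000441000042004000000000000000048000000800404000000000000000020 := rS 0x7db52edf2e3dccd8c4c1a8f0bfac16f2813ee3740c11d936940f94675e7af (k8 c2168 c554 c20598 c21710 c19585 c6008 c5521 c5332 (k8 c5319 c21539 c5569 c5566 c5380 c894 c2508 c17827 (k8 c5736 c557 c21723 c20746 c2079 c2080 c1693 c5621 (k4 c3487 c4275 c5693 c9954 k0)))) (by decide +kernel)
def c21725 : PP 9 3 T 0x1004000000000000000000000000000040000100000000000004254041000000440000042004000000000000000048000000800404000000000000000020 := rS 0x54fb145c8392493c8e4da503e519d (k8 c20598 c21710 c19585 c6008 c5521 c5520 c5335 c5334 (k4 c5317 c21724 c2520 c5741 (k2 c3596 c5636 k0))) (by decide +kernel)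
def c21726 : PP 9 3 T 0x10004000000400000000000000010014000000000002000000000000000100001000000000040000000000000000000002020 := rS 0x1f55bee713a48f94576b989c9d1f8dd00e6940f946776a20 (k8 c315 c5528 c20598 c21710 c19585 c6008 c5317 c21539 (k8 c5569 c5568 c5383 c5382 c3348 c4686 c2520 c581 (k4 c6187 c5610 c20789 c12165 (k2 c17982 c5686 k0)))) (by decide +kernel)
def c21727 : PP 9 3 T 0x40000000010004010000400100000000000000000000000000051000000004000000000000000040000040800100000000000000002020 := rS 0x1b9d4e91cd1fd00e58237d68ec9e4da503e519d (k8 c20598 c21710 c19585 c6008 c5521 c5335 c5332 c5437 (k8 c5435 c5319 c5317 c21539 c581 c3591 c6187 c4275 (k2 c20789 c15012 k0))) (by decide +kernel)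
def c21728 : PP 9 3 T 0x10000400000000000000010400000000000540000000000000000000000000048000000000200000000000000000020 := rS 0x1a9c7e931281939f71ba0 (k8 c21539 c5569 c5566 c5383 c5380 c2409 c6187 c1693 (k2 c5388 c3612 k0)) (by decide +kernel)
def c21729 : PP 9 3 T 0x4000000000048000000000000000000000000000000000000040001000000440000000004000000000000000000000000000000000000000000012020 := rS 0x172bd5ddec5b1e5b942f2e592bb57f85b39485e2901eb7079152c65231769c3c3523667b5d27a4e7853f0359a3e2ae171ad5426a2f25ede34201fc263f3ea04ae3d03b53bef38e12deed12d99c76c77ad281ed722abe7609581c449f265a66b328ceed44093c9a34e60137e8193b0 (k8 c21718 c5396 c21539 c5565 c53 c9719 c5381 c21714 (k8 c5444 c315 c5528 c20598 c21710 c16660 c5447 c21719 (k8 c21720 c21721 c2754 c20843 c21075 c20666 c5406 c2968 (k8 c19455 c19585 c6008 c5519 c2481 c5332 c5487 c715 (k8 c19548 c5333 c5546 c1093 c554 c17847 c15326 c5432 (k8 c5436 c5313 c5380 c5566 c5318 c5564 c20749 c12613 (k8 c1656 c601 c5404 c19360 c316 c5398 c5548 c5549 (k8 c5591 c1139 c5568 c2377 c5550 c17448 c10677 c21722 (k8 c1136 c4338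 c20903 c20893 c3802 c1092 c4587 c2085 (k8 c5593 c5589 c5551 c5399 c5491 c5407 c5437 c54 (k8 c9694 c9709 c21725 c5605 c3222 c2797 c3223 c2794 (k8 c21726 c894 c21727 c2464 c21728 c9711 c913 c2662 (k2 c2763 c1142 (k1 c3626 k0)))))))))))))) (by decide +kernel)
def c21730 : PP 9 3 T 0x4000000000048000000000000000000000000000000000000040001000000400000000004000000000000000000000000000000000000000000012020 := rS 0xb3fc75f4785434aaeab7b04924f23c0e2e34201fc263f3ea04ae3d03b53bef38e12deed12d99c76c77ad281ed722abe7609581c449f265a66b328ceed44093c9a34e60137e8193b0 (k8 c21718 c5396 c21539 c5565 c53 c9719 c5381 c21714 (k8 c5444 c315 c5528 c20598 c21710 c16660 c5447 c21719 (k8 c21720 c21721 c2754 c20843 c21075 c20666 c5406 c2968 (k8 c19455 c19585 c6008 c5519 c2481 c5332 c5487 c715 (k8 c19548 c5333 c5546 c1093 c554 c17847 c15326 c5432 (k8 c5436 c5313 c5380 c5566 c5318 c5564 c20749 c12613 (k8 c1656 c5593 c5550 c5520 c5335 c5334 c5319 c601 (k8 c21729 c3354 c3361 c3004 c556 c2167 c5629 c7737 (k1 c5659 k0))))))))) (by decide +kernel)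
def c21731 : PP 9 3 T 0x400000004004000000200000000000080000640000000000000000000000000000000000000020000000000000 := rS 0x3e3afb7c2a1adb (k4 c3385 c3361 c3004 c602 (k2 c2167 c5629 (k1 c5659 k0))) (by decide +kernel)
def c21732 : PP 9 3 T 0x4000000000048000000000000000000000000000000000000040000000000000080000000000000000000000000000000000000000000000000012020 := rS 0xaf72a65ffd9d6bdc2bb68e2d2af96cec277c245e174fa8d4aa1698d1ba403f84c7e7d4095c7a077f353bef38e12deed12d99c76c77ad281ed722abe7609581c449f265a66b328ceed44093c9a34e60137e8193b0 (k8 c21718 c5396 c21539 c5565 c53 c9719 c5381 c21714 (k8 c5444 c315 c5528 c20598 c21710 c16660 c5447 c21719 (k8 c21720 c21721 c2754 c20843 c21075 c20666 c5406 c2968 (k8 c19455 c19585 c6008 c5519 c2481 c5332 c5487 c715 (k8 c19548 c5333 c5546 c1093 c554 c17847 c15326 c3002 (k8 c5432 c5436 c5313 c5380 c5566 c5318 c5564 c20749 (k8 c12613 c4331 c1656 c2085 c5398 c5399 c5449 c17448 (k8 c5433 c9709 c2685 c3115 c21730 c5348 c5468 c571 (k8 c358 c467 c4229 c1097 c2763 c21731 c5693 c5596 (k4 c3622 c5428 c1099 c5652 k0)))))))))) (by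 decide +kernel)
def c21733 : PP 9 3 T 0x40000000010004000000000100000000000004080000000000000000000000000200100004000000000040000004000000002000002020 := rS 0x1a5b3ee17f875dc7ca3895b94d7bf7fa8bc320323d281f28ceaad666a47e836a20 (k8 c315 c5528 c21539 c5568 c316 c2377 c20805 c20598 (k8 c21710 c19585 c6008 c5520 c54 c9701 c9709 c5557 (k8 c5599 c4808 c2802 c2469 c2415 c5767 c582 c2661 (k4 c5253 c1395 c17765 c17864 (k2 c20789 c6187 k0))))) (by decide +kernel)
def c21734 : PP 9 3 T 0x200000000010004000000400000000000000000054000000000000000000000501000000000000000000840000000000000002000000020 := rS 0x2e70b7b2ac7b4ab75d83e50b347c54dfa0 (k8 c21539 c5565 c1139 c5568 c2377 c21710 c19585 c5430 (k8 c5616 c20789 c6187 c12611 c913 c1097 c1142 c3626 k0)) (by decide +kernel)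
def c21735 : PP 9 3 T 0x1000000000000140000000010004000000400100000000000000014040000000000000002000000000100001008000000040000000000000000000002020 := rS 0x105fac2a12e586e26ff25fb6911b1393a3f1ba0 (k8 c21539 c5569 c5568 c5383 c5382 c5381 c5213 c5233 (k8 c5391 c5389 c5610 c5640 c21726 c2239 c20753 c17982 (k2 c2508 c5736 k0))) (by decide +kernel)
def c21736 : PP 9 3 T 0x200000000010004000000400000000000000000054000000000000000000000101000000000000000000840000000000000002000000020 := rS 0xbe (k2 c21734 c5431 k0) (by decide +kernel)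
def c21737 : PP 9 3 T 0x1000000000000040000000010004000000400100000000000000054040000000000000002000001000100001008000000040000000000000002000002020 := rS 0x2f7706a (k4 c316 c21735 c5617 c21736 k0) (by decide +kernel)
def c21738 : PP 9 3 T 0x4000000000048000000000000000000000000000000000000000000000000000000000000000000000000000000000000000000000000000000012020 := rS 0x5f437ef082a2f5dfb9299458766433fdbf1b661e939231a103c25e3fb53bef387c7034b0388bce6010c80d0313099f4ae3f038f53ef72493dea4726acd1f15351bd2f83c8b44b6671dd281ec752a85924b5ab8e071948b860317f6b5c8a24f932d3293c9abe7759d86776a2004a374128 (k8 c21710 c21539 c5381 c21075 c315 c5528 c20598 c21718 (k8 c16660 c20666 c5406 c21714 c5444 c5447 c21719 c21720 (k8 c21721 c2968 c19455 c20903 c5593 c5592 c5591 c5589 (k8 c5551 c5550 c5549 c5548 c5546 c5396 c5398 c5399 (k8 c2481 c19585 c6008 c5332 c5487 c715 c19548 c5491 (k8 c5407 c5404 c5565 c316 c1139 c5568 c2377 c5521 (k8 c5520 c5519 c5335 c5334 c5333 c17448 c5436 c5432 (k8 c5318 c5313 c5566 c5564 c5382 c5380 c54 c9701 (k8 c53 c9719 c9709 c2754 c20843 c1092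 c1093 c4587 (k8 c554 c17847 c15326 c20749 c19360 c10677 c12613 c1656 (k8 c3802 c21722 c1136 c20893 c21733 c21732 c2506 c20762 (k8 c21737 c5348 c5350 c5605 c17864 c1832 c2762 c17995 (k4 c21730 c5636 c2211 c17765 (k1 c1396 k0)))))))))))))) (by decide +kernel)
def c21739 : PP 9 3 T 0x80001000000000042000000040000000000800000000000000000040000000000000000000400000000000000000000020000000000000000000000002020 := rS 0xdf3dbbaf18fd4c86ed245f7dca9110095d8207d69249e4726d281ec704accd48f519856b2328ee45ea50c80d7a531256651a0ceed44093 (k8 c5444 c315 c5528 c20598 c21539 c21710 c16660 c21721 (k8 c5605 c2762 c54 c9701 c5399 c9709 c17864 c5350 (k8 c5010 c5548 c5445 c5449 c5568 c316 c2377 c21075 (k8 c2481 c19585 c6008 c5521 c5520 c5335 c5334 c5437 (k8 c5432 c5319 c5313 c53 c9730 c17995 c5636 c17765 (k8 c3102 c3103 c3275 c760 c3276 c17985 c819 c3914 (k2 c3115 c17544 k0))))))) (by decide +kernel)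
def c21740 : PP 9 3 T 0x80001000000000042000000040000000000800000000000000000000000000000000000000400000000000000000000020000000000000000000000002020 := rS 0x1255f693eff58d2f772531786406a51256651a0ceed44093 (k8 c5444 c315 c5528 c20598 c21539 c21710 c16660 c21721 (k8 c5399 c54 c9701 c9709 c5605 c17864 c2762 c21739 (k4 c5557 c5599 c5242 c17765 (k2 c5391 c3102 k0)))) (by decide +kernel)
def c21741 : PP 9 3 T 0x40000000010004000000400100000000000000080000000000000000000000000000000000000000000040000000000000000000020020 := rS 0x34b1fdc14fee47a503e519d (k8 c20598 c21710 c19585 c6008 c5520 c5599 c2802 c5233 (k2 c978 c20789 (k1 c6187 k0))) (by decide +kernel)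
def c21742 : PP 9 3 T 0x200000000010004000000400000000000000000054000000000000000000000001000000000000000000840000000000000002000000020 := rS 0xbd (k2 c5617 c21736 k0) (by decide +kernel)
def c21743 : PP 9 3 T 0x4000000000048000000000000000000000000000000000000000000000000000000000000000000000000000000000000000000000000000000002020 := rS 0x21dff0882c2beb7a86c3f137f92fdb49b98dd9fc2706784049ed8bc05231981ad7e4cbaca659293d86452a67c1bf52f9d46c4e4e8fc6e8152abc59ab6a9b100e65193 (k8 c21714 c21710 c5317 c315 c2490 c5528 c316 c4760 (k8 c20805 c20804 c21539 c5569 c5568 c5383 c5382 c5381 (k8 c20598 c5404 c5405 c5407 c5487 c5488 c5491 c21718 (k8 c5444 c5396 c5447 c16660 c21719 c21720 c5548 c5550 (k8 c5551 c5589 c5592 c5593 c20903 c21721 c21738 c17612 (k8 c719 c18012 c21740 c21741 c21742 c5213 c5233 c5391 (k8 c5389 c5610 c5598 c5640 c3616 c17982 c20753 c20742 (k4 c5736 c2685 c2239 c20762 k0)))))))) (by decide +kernel)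
def c21744 : PP 9 3 T 0x40000000040000000000000200000000000000000000000000000000000000000000000000000000000000000000000000000000002020 := rS 0x37bc1f2d892c826f1d91e940f94675666a47e836a20 (k8 c315 c5528 c21539 c5568 c316 c2377 c20598 c21710 (k8 c19585 c6008 c5520 c5332 c5565 c5340 c5342 c16660 (k4 c16685 c5235 c19019 c5538 k0))) (by decide +kernel)
def c21745 : PP 9 3 T 0x80004000000000041000000000000000000000000000000000000000000000000000000000000000000000000000000000000000000000000000000002020 := rS 0x3b8d7be976fa80c6334facd1e9b1cb5d5ed57ffb99acb0e3c4268d0bd67269d6896c373b1dd281f9d9431c12fcf6e8366ab549ab6a20 (k8 c315 c5528 c316 c20804 c20805 c21743 c21539 c20903 (k8 c5682 c21075 c2481 c21710 c20598 c19585 c6008 c5332 (k8 c20666 c19296 c716 c19548 c1240 c21714 c21744 c5433 (k8 c5381 c5564 c5811 c5649 c19474 c4665 c5229 c5586 (k8 c5585 c5584 c5507 c5317 c2490 c5568 c2377 c17448 (k8 c5316 c9754 c5680 c13097 c1233 c20074 c332 c18937 (k1 c20850 k0))))))) (by decide +kernel)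
def c21746 : PP 9 3 T 0x80004000000000040000000000000000000000000000000000000000000000000000000000000000000000000000000000000000000000000000000002020 := rS 0xec7a1ab7927b04eb2da21c2dbf037ed70b8d6af19da3426171dd281f28ceb1c12a955acd1f15351bf41b5106ceb393 (k8 c21714 c21744 c21743 c315 c5528 c21539 c5565 c316 (k8 c1139 c5568 c2377 c20805 c20804 c21075 c2481 c20598 (k8 c21710 c19585 c6008 c5332 c5433 c5564 c5381 c20666 (k8 c5811 c5548 c5549 c5591 c20903 c19296 c5682 c716 (k8 c5649 c19548 c19474 c1240 c21745 c5444 c6118 c331 (k2 c14796 c20850 (k1 c17805 k0))))))) (by decide +kernel)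
def c21747 : PP 9 3 T 0x4000000000042000000000000000000000000000000000000000000000000000000000000000000000000000000000000000000000000000000002020 := rS 0x12fec0e908b6cd4eb84fc994ab252601788a4068d098f43f4a07e758e0954aad363994475630322fbab3939decc222612b7d69f359a3e2a6a37e836a20 (k8 c315 c5528 c21539 c5565 c316 c1139 c5568 c2377 (k8 c21746 c5685 c4678 c16791 c5715 c20646 c21743 c20666 (k8 c21714 c21744 c5229 c5582 c5508 c5506 c5504 c21710 (k8 c5317 c2490 c20805 c20804 c21075 c2481 c20598 c19585 (k8 c6008 c5517 c5436 c5564 c5381 c54 c9694 c5811 (k8 c53 c5444 c5396 c5446 c5447 c17411 c3059 c1343 (k4 c8709 c21128 c20779 c18526 (k2 c21551 c10141 (k1 c18006 k0))))))))) (by decide +kernel)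
def c21748 : PP 9 3 T 0x4000000000040000000000000000000000000000000000000000000000000000000000000000000000000000000000000040000000000000000002020 := rS 0x25fd81d213c51a131eaa5571d228444c254eb37c19d4cb256295656c542b4f9acd1f15351bf6a9b100e53f28d0025afeeace4e77b3 (k8 c21743 c20666 c21714 c21744 c5229 c5507 c21075 c21539 (k8 c21710 c17448 c5317 c315 c2490 c5528 c5565 c316 (k8 c1139 c5568 c2377 c21746 c5685 c1199 c21747 c5680 (k8 c1757 c5506 c1324 c1760 c20598 c5235 c5537 c5458 (k8 c16791 c5715 c20646 c5582 c5504 c20805 c20804 c5436 (k8 c5564 c5381 c5811 c20779 c18526 c21551 c10141 c18006 k0)))))) (by decide +kernel)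
def c21749 : PP 9 3 T 0x4000000000040000000000000000000000000000000000000000000000000000000000000000000000000000000000000000000000000000000002020 := rS 0xcf4bbf4345a4ab2532cd68a7595e0d8a8569f36bac7dd59d9e7676174f82552ab59a3e2a6a37e836a9b100e65193 (k8 c21714 c21710 c5317 c315 c2490 c5528 c21539 c5565 (k8 c316 c1139 c5568 c2377 c20805 c20804 c21075 c17448 (k8 c5433 c20666 c20598 c21743 c21744 c5229 c5506 c5507 (k8 c21746 c5685 c1199 c21747 c5235 c5680 c5458 c5459 (k8 c5537 c1760 c1324 c1757 c21748 c716 c21278 c1073 (k2 c13265 c3617 k0)))))) (by decide +kernel)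
def c21750 : PP 9 3 T 0x2000000000000080000000000000000000000000000000000000000000000000000000000200000000000000000000000800080000000000000000000020 := rS 0x10357915aa403fb5c1281099f4ae3f038f5eaa98a9bd621138c751b59efd281f9d1bcee51a0 (k8 c21539 c21710 c20666 c5435 c20598 c19585 c6008 c17743 (k8 c18498 c5381 c2159 c5571 c719 c5421 c5565 c1139 (k8 c20804 c5519 c5436 c5432 c5318 c5313 c5566 c5564 (k8 c5380 c21075 c2189 c19605 c12613 c1657 c459 c1183 (k2 c16948 c17841 k0))))) (by decide +kernel)
def c21751 : PP 9 3 T 0x6004000000000002000000000000000040000000004000000000100000080000000080800000000000000000000000000000000004000020000000002020 := rS 0x1f16cf95b70a86bb57e522ab745fad356d4401138a8d4244acf7e940fce8de77b604a374128 (k8 c21710 c21539 c5381 c21075 c21749 c20666 c5435 c20598 (k8 c19585 c6008 c17743 c18498 c19455 c5398 c5449 c5571 (k8 c719 c315 c5528 c316 c5437 c9709 c1814 c462 (k8 c19642 c2797 c3223 c3226 c2974 c1771 c6396 c2193 (k2 c5629 c5690 k0))))) (by decide +kernel)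
def c21752 : PP 9 3 T 0x4004400000000092000000000004000000000000008000000000100000500004000000000000000080000000000000000000000004040000000000000020 := rS 0x217862a6e4a766c8fc5e22f0c80e7728d99bd1ba0089c526a5 (k8 c5399 c5444 c5571 c719 c21539 c5381 c5565 c18613 (k8 c21710 c20666 c54 c9701 c9709 c5811 c5624 c3292 (k4 c19639 c3366 c17864 c19638 (k2 c5684 c3397 (k1 c1384 k0))))) (by decide +kernel)
def c21753 : PP 9 3 T 0x40004000000000000000000000000000000000000000000000000000000000000000000000000000000001000000000000000080000000000000000002020 := rS 0x377e2d9f2b6f5d0a86bb57e522ad1d5c448110c48d6f7b4ceee33d37bc2796626542a3d8326b3df82bfd9ef383b45c301b7e0fd8954b92dfb1d330685e639da04267d2b8fc0e17188dc7bad0fd281f9d6382552ab599a91fb54d8807328c9b2d62b556eccde8dd0044e3b6 (k8 c21749 c5571 c719 c21539 c5381 c5565 c18613 c5573 (k8 c5422 c5421 c5420 c21714 c21710 c5317 c315 c2490 (k8 c5528 c5568 c316 c2377 c20805 c20804 c21075 c2481 (k8 c20598 c19585 c6008 c5517 c5437 c5436 c5435 c5434 (k8 c5433 c5432 c5318 c5313 c5566 c5564 c5380 c20666 (k8 c9754 c9709 c716 c715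 c2159 c21278 c21650 c1073 (k8 c1904 c19296 c20732 c4560 c13274 c12655 c5501 c5503 (k8 c5540 c5543 c5544 c5545 c17743 c18498 c21750 c5678 (k8 c5449 c5398 c5447 c21128 c20870 c18012 c18204 c5669 (k8 c207 c17805 c18088 c8156 c12713 c19649 c4375 c2191 (k8 c19455 c2968 c21752 c462 c19642 c2797 c3223 c3226 (k8 c2974 c2975 c1771 c6396 c2193 c5629 c1941 c5690 k0)))))))))))) (by decide +kernel)
def c21754 : PP 9 3 T 0x4000000000002000000000000000000000000000000000000000000000000000000000100000000001050000000000000040000000000000000002020 := rS 0xee5f3d1e5e7e16633fd8677e86932937898e7681099f43ef705bd552ab356d536201ce4d5bb337a374011688ee940fceca18e09f7d64e3b6 (k8 c21749 c5571 c21571 c21546 c21075 c2481 c21710 c20598 (k8 c19585 c6008 c5332 c19548 c719 c21539 c5381 c5565 (k8 c18613 c5573 c21714 c5317 c315 c2490 c5528 c316 (k8 c20805 c20804 c5519 c5516 c5333 c5517 c5566 c5564 (k8 c5380 c20666 c9754 c5811 c5444 c5447 c18503 c1075 (k8 c1902 c19296 c13265 c3617 c18012 c5540 c20870 c21145 (k2 c10245 c17805 (k1 c20857 k0)))))))) (by decide +kernel)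
def c21755 : PP 9 3 T 0x800000000000000000000000000000000100000000000000000000000000000000000000000000000000000000000000040000000000000000000020 := rS 0x772b8fc6328 (k4 c21710 c5434 c5318 c5313 (k2 c5493 c21612 k0)) (by decide +kernel)
def c21756 : PP 9 3 T 0x4000000000000000000000000000000000000000000000000000000000000000000000100000000001050000000000000040000000000000000002020 := rS 0x1b1d99bd1ba0efd64e3b6 (k8 c21749 c5571 c21571 c21755 c21539 c5381 c5565 c18613 (k2 c21754 c5678 k0)) (by decide +kernel)
def c21757 : PP 9 3 T 0x60000000000000040000000000000000000020 := rS 0x1a070eef19d8246328 (k8 c21710 c5434 c21075 c20666 c5811 c9916 c10191 c20850 (k1 c332 k0)) (by decide +kernel)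
def c21758 : PP 9 3 T 0x4000000000000000000000000000000000000000000000000000000000000000000000000000000001040000000000000040000000000000000002020 := rS 0x57354cf1d3b87762c84abc4c67300cec1257198fc0e3d942c55bb337a374011efd64e3b6 (k8 c21749 c5571 c21571 c21755 c719 c21539 c5381 c5565 (k8 c18613 c5573 c5421 c21710 c5436 c5432 c5318 c5316 (k8 c5313 c21075 c20666 c53 c9719 c9754 c5811 c21757 (k8 c21756 c5396 c2061 c18937 c20667 c20694 c15288 c20793 (k1 c1183 k0))))) (by decide +kernel)
def c21759 : PP 9 3 T 0x40004000000000000000000000000000000000000000000000000000000000000000000000000000000001000000000000000000000000000000000002020 := rS 0x930d9852d59f796de2639d82502133e85e519356eccde8dd0044e3b6 (k8 c21749 c5571 c719 c21539 c5381 c5565 c18613 c5573 (k8 c21714 c21710 c5433 c5566 c5564 c5380 c21075 c20666 (k8 c9754 c5811 c21753 c21546 c21571 c21758 c20768 c1073 (k2 c19535 c18503 k0)))) (by decide +kernel)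
def c21760 : PP 9 3 T 0x10000000000000004000000010004000000000000000000000000000000000000000011800100000080140050000000000000000800000000000000000020 := rS 0x29db787dc3b57f6717cef5b28 (k8 c21710 c5437 c20666 c9709 c5605 c2797 c3223 c5230 (k4 c1383 c1771 c5428 c3619 k0)) (by decide +kernel)
def c21761 : PP 9 3 T 0x4004400000000016000000000004000040000000004000000000000008500004000010900100100080140050000000000000001004000000000000010020 := rS 0x2cfaf29b6723f117cef4128 (k8 c21710 c21539 c20666 c9709 c5629 c3297 c3343 c21760 (k2 c3213 c19638 (k1 c5659 k0))) (by decide +kernel)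
def c21762 : PP 9 3 T 0x14000000000000000000000000000000040400100004000000000000044000000000000000000000000000000000000000000040000000000000000000020 := rS 0x2ff0d92ebbed3b46c9f1ba0 (k8 c21539 c5569 c5383 c5381 c20666 c5173 c5659 c5595 (k2 c5640 c1938 (k1 c20753 k0))) (by decide +kernel)
def c21763 : PP 9 3 T 0x40004000000000000000000000000000000000000000000000000000000000000000000000000000000000000000000000000040000000000000000002020 := rS 0x45e32b98dadd76bfc4142f7b88f69613f0b394e16906ec0cab6fa3901bc4b6b43c88436ab4d5d838ec15fef383a1e02670d7b1fa97ef8d3ded1788bce6019da0626133ee34ae3f038c47ac704acd1f155ee1562b5568454ac971b2f61e1c9ed4efb3389bd1ba055aa440a33d56543b6498ee940fce8a407284a979386a (k8 c316 c21759 c1135 c20765 c21710 c54 c9694 c20598 (k8 c19585 c6008 c5332 c1694 c21749 c4029 c19210 c1136 (k8 c4244 c315 c20804 c20805 c21539 c5381 c5565 c5571 (k8 c18613 c17805 c5528 c21714 c5458 c5235 c5420 c1777 (k8 c4028 c4030 c719 c5573 c5422 c5421 c5423 c5575 (k8 c1139 c5568 c2377 c21075 c2481 c5436 c5434 c5432 (k8 c5318 c5313 c5569 c5566 c5564 c5382 c5380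 c20666 (k8 c53 c9719 c9709 c5811 c19548 c21546 c20850 c21612 (k8 c19497 c1240 c5204 c18503 c20887 c13274 c5499 c5503 (k8 c5540 c5544 c5545 c2161 c20732 c20793 c18088 c15288 (k8 c2777 c1078 c3122 c5689 c460 c10298 c1763 c21752 (k8 c3797 c462 c21751 c1814 c20819 c21761 c2974 c19638 (k8 c21762 c5514 c19640 c6187 c5213 c913 c581 c582 (k8 c5431 c5430 c5616 c3130 c1142 c4684 c3258 c3626 k0)))))))))))))) (by decide +kernel)
def c21764 : PP 9 3 T 0x20000000000000080000000000000000000400000000000000000000000000000000000000000000000000000000000000000081400000000000000002020 := rS 0x1a58fc26fe11f606b6a209decce26f46e81566a (k8 c316 c20805 c21539 c5381 c5565 c5571 c18613 c20666 (k8 c315 c5528 c716 c19296 c719 c5511 c5514 c973 (k2 c19640 c6187 k0))) (by decide +kernel)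
def c21765 : PP 9 3 T 0x40004000000000000000000000000000000000000000000000000000004000000000000000000000000000000000000000000000000000000000000002020 := rS 0x1d6a786bb57f25dc7dbe2dd1a3bd9a90b3c0ca62fc68cc72f5b7999a2de7084d02c73e9e622012ad1d5c24218c60af383e0c96446b3563a072b8f47e773d047ded37faa5c6b558acd1f017eab761e1c9a5c2ecbeffb0345ada883667137aac6f3baca84d5b649a70774a07e74520304a374128 (k8 c21710 c21539 c5381 c21075 c54 c9694 c20598 c19585 (k8 c6008 c5332 c21759 c1694 c21749 c316 c4029 c19210 (k8 c20666 c5435 c20805 c5565 c5571 c18613 c315 c5528 (k8 c21763 c716 c19296 c17743 c5420 c5433 c1073 c21714 (k8 c5458 c5235 c5573 c21278 c13274 c5568 c2377 c5421 (k8 c5422 c1777 c20804 c5544 c18088 c8156 c719 c1136 (k8 c17805 c5318 c5436 c5313 c5432 c2159 c15288 c5689 (k8 c19455 c21650 c20732 c5503 c5540 c5545 c5434 c1933 (k8 c19649 c2968 c21752 c462 c53 c9730 c1538 c5566 (k8 c2481 c5380 c5564 c12655 c18204 c5501 c715 c4560 (k8 c5519 c5317 c5316 c5569 c9709 c2974 c19642 c19638 (k8 c21661 c2191 c5023 c18037 c1814 c21764 c5173 c5230 (k4 c5595 c5596 c5639 c5640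 (k2 c5428 c21242 (k1 c17826 k0))))))))))))))) (by decide +kernel)
def c21766 : PP 9 3 T 0x40004000000000000000000000000000000000000000000000000000000000000000000000000000000000000000000000000000000000000000000002020 := rS 0x598a7af6e7c61455a3ab886446b093ded3efc15fef383c05ab6fc1fb12e4b7ec74cc1a2d256b2a33bec0bce350b254a933d785382f1480e76092b8fc0e17188dc7a3ba503e519d54aad666a47ed441935eb2d62b556eccde8dd0044e3b6 (k8 c21749 c5571 c719 c21539 c5381 c5565 c18613 c5573 (k8 c5422 c5421 c5420 c5575 c21714 c315 c5528 c5568 (k8 c316 c2377 c20805 c20804 c20598 c21710 c19585 c6008 (k8 c5332 c5436 c5435 c5434 c5433 c5432 c5318 c5313 (k8 c21075 c20666 c54 c9694 c9709 c21759 c5458 c1136 (k8 c1694 c4030 c4028 c4029 c1777 c1135 c5235 c17805 (k8 c4244 c19210 c20765 c21763 c716 c715 c2159 c21278 (k8 c21650 c1073 c19296 c20732 c4560 c15288 c13274 c5503 (k8 c5540 c5544 c5545 c17743 c18088 c8156 c19649 c5689 (k8 c19455 c1933 c2968 c21752 c462 c21765 c5629 c21761 (k4 c1941 c2975 c5659 c19638 k0))))))))))) (by decide +kernel)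
def c21767 : PP 9 3 T 0x4000000000000000000000000000000000000000000000000000000000000000000000000000000000000000000000000000000000000000000002020 := rS 0x238f221d67defc0d914b7ed80a46064bf96cd5a71db3c6768d37e803f4a07ca33aa9559ab6a20 (k8 c315 c5528 c316 c20805 c20804 c20598 c21710 c19585 (k8 c6008 c5517 c21539 c5565 c5381 c20666 c5811 c21749 (k8 c5571 c5573 c18613 c21766 c5546 c5550 c5589 c5592 (k8 c20903 c21661 c21567 c19296 c5682 c21546 c21571 c10701 (k2 c2550 c5658 (k1 c554 k0)))))) (by decide +kernel)
def c21768 : PP 9 3 T 0x2020 := rS 0x1f30837c83e2599a81213379f51fa02b8f47647a503e519d (k8 c20598 c21710 c19585 c6008 c5520 c5332 c5436 c5313 (k8 c21539 c5568 c5566 c5565 c5564 c21075 c316 c2377 (k4 c21767 c5462 c5580 c17898 (k2 c19019 c20646 k0)))) (by decide +kernel)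
def c21769 : PP 9 3 T 0x8000000000020000000000000000000000000000000000000000000000000000000000000000000000000000000000000000000000000000000000020 := rS 0xc9fbb673b65b5eb27f1f81f6e700815cfa3d9404f4009 (k8 c21075 c21539 c5564 c21710 c5436 c5566 c5313 c17898 (k8 c719 c5571 c5432 c5318 c5577 c17896 c5465 c5464 (k4 c20666 c19443 c5229 c20829 (k1 c20376 k0)))) (by decide +kernel)
def c21770 : PP 9 3 T 0x8008000000000000000000000000000000000000000000000000000000000000000000000000000000000000000000000000000000000000000000000020 := rS 0x1b25625f62c94aa60bc783d9d9aab1408e40e374f82c1acb50f7d1ad36bb3d5e6c8a0918e90daedce0102b9f47a13d0027e6df1d9048f4a07ca33a7f (k8 c5577 c20598 c21710 c19585 c6008 c5520 c5462 c5332 (k8 c5580 c19019 c21075 c21539 c5564 c5436 c5566 c5313 (k8 c17898 c719 c5571 c21769 c18513 c800 c720 c16791 (k8 c3049 c20748 c17612 c5465 c5579 c5381 c20754 c5578 (k8 c5464 c21768 c5516 c17448 c5435 c5432 c5317 c5380 (k8 c5506 c5585 c20761 c3860 c3568 c5710 c2428 c20765 (k4 c20795 c5447 c1641 c3618 (k2 c5678 c5490 k0)))))))) (by decide +kernel)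
def c21771 : PP 9 3 T 0x8000000000000000000000000000000000000000000000000000000000000000000000000000000000000000000000000000000000000000000000020 := rS 0xc82f35563e08eb37dad12d99d2e9556ecbdec7363fd2114daabf6e70678908bf3efd6420df69a84fed765906768d099f4ae391f81c7a9fd002476f705bd48f4a07ca33a0d (k8 c21768 c20598 c21710 c19585 c6008 c5520 c5519 c5516 (k8 c5333 c5332 c21075 c21539 c17448 c5436 c5432 c5318 (k8 c5317 c5313 c5566 c5564 c5381 c20666 c5462 c5464 (k8 c5465 c5577 c5578 c5579 c5580 c17898 c17896 c20754 (k8 c19019 c20747 c720 c17612 c719 c5571 c20748 c21769 (k8 c16791 c18513 c4941 c3049 c800 c21770 c5229 c9614 (k8 c5297 c5404 c5487 c715 c19548 c20874 c21150 c20671 (k4 c5688 c1093 c18677 c21077 (k2 c3618 c20795 k0))))))))) (by decide +kernel)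
def c21772 : PP 9 3 T 0x40000000000000000080002000400000000000000000000020 := rS 0x3d15c72071b8ec174a07ca33a0d (k8 c21768 c20598 c21710 c19585 c6008 c5516 c5332 c5435 (k4 c5432 c5317 c5313 c5710 (k1 c3861 k0))) (by decide +kernel)
def c21773 : PP 9 3 T 0x4000000000000009000000000000000000000000000000000000000000044000000400000400001500000000000000001000000000000000000000000020 := rS 0x201b4f9c5557112b8e40e3156abdfaa9f696cce0d7b82deb4a07e744ea0f1edd3e091fca0e08d39804dfa0 (k8 c21539 c5565 c53 c9719 c5381 c20843 c21710 c5318 (k8 c21075 c17448 c19230 c21771 c5680 c2927 c20598 c19585 (k8 c6008 c5519 c5516 c5333 c21768 c5487 c715 c20874 (k8 c5489 c5405 c5406 c5490 c5434 c5432 c5317 c5313 (k4 c9730 c20861 c3049 c17868 (k2 c5685 c9179 (k1 c20354 k0))))))) (by decide +kernel)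
def c21774 : PP 9 3 T 0x4000400000000008000000000000000000000000000000000000000000000000000000400600000000000000000000000000000000000000000000000020 := rS 0xf0ed4d9037fe4d6ae359914e0246947562276aa80bfb13980452039da34de57198fc0e9f0fbd48f4a07e77c6ad57edeb32804e80b667 (k8 c5487 c715 c21539 c21075 c21710 c19518 c19230 c5406 (k8 c5490 c21771 c20598 c19585 c6008 c5520 c5519 c5517 (k8 c17448 c5432 c5318 c5316 c5313 c5565 c5381 c20666 (k8 c54 c9694 c53 c9719 c5396 c20795 c5680 c3000 (k8 c2927 c1198 c5778 c5689 c5651 c20843 c2936 c2760 (k8 c5731 c1094 c20889 c11059 c16948 c21773 c5529 c21077 (k1 c5235 k0))))))) (by decide +kernel)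
def c21775 : PP 9 3 T 0x4000400000000008000000000000000000000000000000000000000000000000000000400400000000020000000000000000000000000000000000000020 := rS 0x3c3b53640dff935ab8d664538091a51d5889daa5fd89cc022901ced1a6f2b8cc7e070fbd48f4a07e77c6ad57edeb32804e80b667 (k8 c5487 c715 c21539 c21075 c21710 c19518 c19230 c5406 (k8 c5490 c21771 c20598 c19585 c6008 c5520 c5519 c5517 (k8 c5432 c5318 c5316 c5313 c5565 c5381 c20666 c54 (k8 c9694 c53 c9719 c5398 c1121 c3000 c2927 c1198 (k8 c5778 c5689 c5651 c20843 c2936 c2760 c5731 c1094 (k4 c20889 c11059 c16948 c21773 (k2 c5529 c21077 (k1 c5235 k0)))))))) (by decide +kernel)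
def c21776 : PP 9 3 T 0x802041400000000000000000000020 := rS 0x31cf67943824ae39038dc76f705bd6940f946741a5b (k8 c715 c21768 c20598 c21710 c19585 c6008 c5519 c5516 (k8 c5333 c5332 c5435 c5432 c5317 c5313 c21075 c744 (k4 c2429 c742 c19432 c3568 k0))) (by decide +kernel)
def c21777 : PP 9 3 T 0x2000000000000000000000000000000000000000000000000000000000000000000000000000000000040400000000000000000000020 := rS 0x4e884d46d3b3c447110086406091c85c6e3b0f834b6934d98533b5a503e519d (k8 c20598 c21710 c19585 c6008 c9578 c5447 c5445 c5397 (k8 c5444 c715 c21768 c5517 c5332 c5435 c5433 c5317 (k8 c21075 c54 c9701 c53 c9730 c9734 c5811 c19549 (k4 c21776 c5665 c2371 c1135 (k1 c3578 k0))))) (by decide +kernel)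
def c21778 : PP 9 3 T 0x8000000000000000000000100000000000000001000050000000000000000001504000000000000000000000000100000000008000020 := rS 0x8ebfa7647a503e519d56abdfaa9 (k8 c5489 c5405 c5406 c5490 c20598 c21710 c19585 c6008 (k4 c5520 c20666 c3623 c2161 (k1 c11059 k0))) (by decide +kernel)
def c21779 : PP 9 3 T 0x14000400000000010400000000000000000800000004000000004400000000000040000000000000000100004000000000000040400010000000000000020 := rS 0x72793e9f7d2ee5862f0c80c7ec1d68ec9b4a07ca33be3 (k8 c21771 c20598 c21710 c19585 c6008 c5521 c5332 c5437 (k8 c5319 c5318 c54 c9701 c9709 c5348 c17864 c20858 (k4 c17933 c5242 c5206 c17827 (k1 c5622 k0)))) (by decide +kernel)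
def c21780 : PP 9 3 T 0x14000400000000010400000000000000000000000004000000004400044000000040010000000000000100004000000000000040400010010000000000020 := rS 0xc26cfdadd679d8cc7fadacca013a0 (k8 c21539 c21075 c21710 c19518 c5437 c5318 c5316 c20666 (k4 c21779 c21762 c5173 c2091 (k2 c17933 c5781 k0))) (by decide +kernel)
def c21781 : PP 9 3 T 0x10000000000008000000000000400000400100000000000000400044000000140080000000000000000000000000000000000000000000000000020020 := rS 0x433ed2577e92368d93e37c78333e476fa0 (k8 c21539 c19230 c5491 c5487 c5407 c21771 c5569 c5383 (k8 c5381 c21741 c6187 c3115 c5391 c5693 c20753 c5640 k0)) (by decide +kernel)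
def c21782 : PP 9 3 T 0x4000400000000018000000000000000000000000000000000000000044000000000090200100000200140004000000000000000400010000000000020020 := rS 0x3efb961d99dbe55fb6f0f7ff86bd7b1f178647fad919c06a431480c8aafa3c7049b7acca013a02d99e76eb (k8 c3004 c20666 c5487 c715 c21539 c21075 c21710 c19518 (k8 c19230 c18483 c1093 c557 c5406 c2968 c54 c9694 (k8 c1932 c5281 c719 c5010 c5437 c5318 c9701 c9709 (k8 c978 c2762 c2168 c21780 c5511 c5512 c5627 c1395 (k4 c17773 c1664 c21781 c5348 (k2 c17864 c17933 (k1 c17765 k0))))))) (by decide +kernel)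
def c21783 : PP 9 3 T 0x4000400000000018000000000000000000000000000000000000000044000000000090200100000200140004000000000800000000010000000000000020 := rS 0x436ff25fb6923fb98dd9ca48d93e348f83c8c662e10f92d449590496ccf3bdb82e940dd06741f28 (k8 c21710 c19585 c20598 c21539 c21768 c6008 c5516 c19230 (k8 c20666 c5487 c715 c21075 c19518 c18483 c17684 c16719 (k8 c16779 c5593 c5551 c5491 c5407 c5520 c5569 c5383 (k8 c5381 c21782 c5605 c2802 c21742 c19418 c5213 c5233 (k4 c2795 c5389 c5640 c20753 k0))))) (by decide +kernel)
def c21784 : PP 9 3 T 0x10000000000000010400000000000000000000000000000000010414000000000000000000000000004002001000000000000000800040000000008000020 := rS 0x1f45dadf138615692dd47b3cee272747e37404da503e519d (k8 c20598 c21710 c19585 c6008 c5521 c21539 c5569 c5568 (k8 c5383 c5382 c20666 c5605 c3366 c5659 c6187 c2216 (k4 c2215 c5610 c3197 c4011 (k2 c5253 c17982 k0)))) (by decide +kernel)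
def c21785 : PP 9 3 T 0x94000000000000008000000000000000000400100000000000004000000408004000000000000000000000000000000000000000400000000000000000020 := rS 0xa25584fda373b2493c8e4dc1e476fed2d99deef50802e940dd06741f28 (k8 c21710 c19585 c20598 c21539 c21768 c6008 c5516 c16779 (k8 c5519 c5333 c5487 c715 c20874 c19230 c5491 c5407 (k8 c5521 c5520 c5335 c5334 c20666 c21741 c5173 c2685 (k2 c5636 c5782 (k1 c17995 k0))))) (by decide +kernel)
def c21786 : PP 9 3 T 0x84000000000000018000000000000000000000100000000000000000008008004000000000000000004102004000000000000000000040000002008000020 := rS 0x11b2afdb7251b32f4a71fd7c1d7f25f88bc32032493c8e4ddb9155f1948c5e46700802e940dd06741f28 (k8 c21710 c19585 c20598 c21539 c21768 c6008 c5516 c16779 (k8 c719 c5010 c5593 c5589 c5551 c5406 c2968 c19230 (k8 c5521 c5520 c5335 c5334 c54 c9701 c9709 c5629 (k8 c20752 c3020 c3446 c3214 c977 c21784 c2762 c21785 (k4 c5350 c17864 c17765 c5636 (k2 c5599 c17995 k0)))))) (by decide +kernel)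
def c21787 : PP 9 3 T 0x1000000000000000000000000000000000800100000000000004214041000000040000042000000000000000000048000000800404020000000000000020 := rS 0x234e477dbd87e3 (k4 c21771 c5348 c5349 c1832 (k2 c21724 c21725 (k1 c2529 k0))) (by decide +kernel)
def c21788 : PP 9 3 T 0x8000000000000000000000100000000000000214045000000040000042000001000000000000048000800800404020000002000020020 := rS 0x10cfb5fe4bb9d246ecf1f46c9f1b83c8edf41ed2d99c1af705bd6940f946764670 (k8 c719 c5010 c20598 c21710 c19585 c6008 c5519 c5516 (k8 c5333 c21768 c5487 c715 c20874 c21539 c19230 c5491 (k8 c5407 c5569 c5383 c5381 c978 c21787 c21741 c6187 (k4 c21742 c5391 c5389 c5233 (k2 c20753 c5640 k0))))) (by decide +kernel)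
def c21789 : PP 9 3 T 0x4000400000000018000000000000000000000000000000000000000000008000000000202100000004142004000040000800800000000000000008000020 := rS 0x86dfe4bf6d247f731bb3948810975c2dbc8d93e3707918cc5c207a6ea19220d05bdc96f5798e4862901b4e1f1c5840fe50156c54de4557acc8f4a07e756a24dbd665009d016ccf3b (k8 c20666 c5487 c715 c21539 c21075 c21710 c19518 c19230 (k8 c18483 c17684 c20598 c19585 c6008 c5520 c2760 c5406 (k8 c2968 c5565 c1139 c5490 c15060 c16719 c5550 c21778 (k8 c1093 c4587 c2085 c54 c9694 c1932 c5317 c2500 (k8 c5519 c5546 c5333 c5516 c21768 c5589 c21586 c4572 (k8 c1136 c16779 c5593 c5551 c5491 c5407 c5569 c5383 (k8 c5381 c2506 c21786 c3004 c2686 c21783 c21788 c5605 (k8 c2802 c21742 c19418 c5213 c5233 c2795 c5389 c5640 (k1 c20753 k0))))))))) (by decide +kernel)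
def c21790 : PP 9 3 T 0x8000000000000000000000100000000000000014044000000000000000000001000000000000000000800000800000000002000000020 := rS 0x21b7f92fdb491fdcc6ece8d93e348f4a07ca33b8333e476fa0 (k8 c21539 c19230 c5491 c5487 c5407 c20598 c21710 c19585 (k8 c6008 c5520 c5569 c5383 c5381 c5605 c2802 c21742 (k4 c19418 c5213 c5233 c2795 (k2 c5389 c5640 (k1 c20753 k0))))) (by decide +kernel)
def c21791 : PP 9 3 T 0x1001400000000000000200000000000000000000000000000000000002040000000000200000000000000001008048800000000000000000000000000000 := rS 0x76ea64b8ff2436f58940c9cfb8d (k8 c5569 c5566 c5383 c5380 c20786 c2240 c2211 c21299 (k4 c1693 c919 c3930 c1665 (k1 c17984 k0))) (by decide +kernel)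
def c21792 : PP 9 3 T 0x8000000000000000000000100000000000000214045000000000000242000001000000000000048000800800004020000002000020020 := rS 0xa6eb (k2 c3004 c21790 (k1 c21788 k0)) (by decide +kernel)
def c21793 : PP 9 3 T 0x400040000000000a000000000000000000000000000000000000000000000000000000400100000000000000000000001000000000000000000000000020 := rS 0xb33afee54299463faf83c6e4bf18542480df7fc3da91c6990d607679c8d987f38218f2cf3d785a2108ba46330325869390163fc84315352ac4711008a432033795c72c10385c6e3b0f9249e4df1ab7da0d7b82deaa352a6d33935aed56647a503f3a451224f6f5994027405b9dabcbc67 (k8 c5487 c21777 c5406 c20666 c715 c21539 c21075 c21710 (k8 c19518 c19230 c5444 c18483 c2968 c20598 c19585 c6008 (k8 c5520 c2760 c9578 c17684 c18631 c5447 c5397 c5399 (k8 c5449 c5519 c5516 c5333 c21768 c20874 c5490 c21771 (k8 c5521 c5335 c5334 c5517 c5332 c5435 c5433 c5432 (k8 c5319 c5317 c5313 c5565 c54 c9701 c9694 c53 (k8 c9730 c9734 c20861 c5665 c1139 c2371 c16719 c2482 (k8 c15060 c3578 c18673 c5546 c5550 c5551 c5589 c5593 (k8 c16779 c19548 c5458 c1136 c17717 c1538 c21586 c719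 (k8 c5822 c5688 c5010 c2500 c2073 c21778 c1932 c2085 (k8 c1093 c15326 c4587 c21789 c12713 c19019 c21791 c21792 (k8 c5629 c20752 c3024 c3446 c3214 c977 c5782 c21784 (k4 c3596 c5636 c3354 c5173 (k1 c21787 k0)))))))))))))) (by decide +kernel)
def c21794 : PP 9 3 T 0x4000400000000008000000000000000000000000000000000000000000000000000000400400000000000000000000000000000000000000000000000020 := rS 0x198f23c9ed0e6c4c98760a16495c6639038c46e9f048efc7b7d07b4b66706bdc16f5a503e519d (k8 c20598 c21710 c19585 c6008 c5519 c5516 c5333 c21768 (k8 c5487 c715 c20874 c21539 c19230 c21771 c5332 c21075 (k8 c17448 c5435 c5434 c5432 c5317 c5316 c5313 c21774 (k8 c21775 c5680 c5445 c5447 c21793 c744 c742 c2428 (k2 c20774 c20884 (k1 c2500 k0)))))) (by decide +kernel)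
def c21795 : PP 9 3 T 0x800000000000000000000000000000000000000000000000000000000000000000000000000000000000000000000000040000000000000000000020 := rS 0x3b8d41328 (k4 c21710 c21075 c5450 c5493 (k1 c20850 k0)) (by decide +kernel)
def c21796 : PP 9 3 T 0x4000000000000000000000000000000000000000000000000000000000000000000000000800000000000000000000000000040000000000000000000020 := rS 0x3241149094c2639da042e3b2482c8f4a07e741b59efca013a0 (k8 c21539 c21075 c21710 c21795 c19518 c21768 c20598 c19585 (k8 c6008 c5520 c5516 c5334 c5332 c5433 c5380 c20666 (k4 c9754 c1755 c1090 c19523 (k2 c720 c19535 (k1 c15376 k0))))) (by decide +kernel)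
def c21797 : PP 9 3 T 0x4000000000000008000000000000000000000000000000000000000000000000000000000000000000000000000000000000000000000000000000000020 := rS 0x13100231d1a110eed665d67be5bdb99e7609469bf4128 (k8 c21710 c21539 c5565 c5381 c21075 c20666 c5487 c19230 (k8 c715 c21795 c19518 c21796 c21794 c2187 c19455 c20850 (k4 c190 c20747 c1763 c20728 (k1 c350 k0)))) (by decide +kernel)
def c21798 : PP 9 3 T 0x400000000004000000000000000000000000000000000000000000000000000000800400000100000000000002000000040000000000004000000020 := rS 0xdaaadaa65fbb00ea5592444bbc622019da343ea9f6835ee0b7ad281f9dacca013a0 (k8 c21539 c21075 c21710 c19518 c20598 c19585 c6008 c5519 (k8 c5516 c5333 c21768 c20874 c21192 c5517 c5381 c20666 (k8 c53 c9730 c5811 c1767 c19455 c2189 c21757 c335 (k4 c5678 c20237 c5447 c9578 (k2 c5682 c2428 (k1 c20861 k0)))))) (by decide +kernel)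
def c21799 : PP 9 3 T 0x4000400000000000000000000000000000000000000000000000000000000000000000000000000000000000000000000000040000200000000000000020 := rS 0xfcd420b4d02133e8fc7ad73c01c6ec7f07cc2271f6835ee0b7ad2b3be30795d6227db5665009d04ed97b3 (k8 c21797 c21796 c20666 c21539 c21075 c21710 c19518 c5229 (k8 c5570 c5421 c5313 c19585 c21771 c20598 c6008 c5519 (k8 c5516 c5333 c21768 c20874 c5571 c719 c16779 c5204 (k8 c5535 c5435 c5432 c18042 c21798 c5436 c5318 c5566 (k4 c5564 c5380 c2936 c459 (k2 c5689 c12613 (k1 c20749 k0))))))) (by decide +kernel)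
def c21800 : PP 9 3 T 0x4000000000000000000000000000000000000000000000000000000000000000110000000000000010000040000080000000000000020 := rS 0x660d2bde27300a34dfa0 (k8 c21539 c5565 c5381 c53 c9719 c5811 c2777 c10701 (k2 c20793 c1902 k0)) (by decide +kernel)
def c21801 : PP 9 3 T 0x4000400000000000000000000000000000000000000000000000000000000000000000000000000000000000000000000000040000000000000000000020 := rS 0x4a79885221c7f4708645f98456271db2b6b33b04a3627a07b82e940f946741bb3 (k8 c21797 c21768 c20598 c21710 c19585 c6008 c5516 c5333 (k8 c21539 c5382 c5381 c21075 c20666 c19518 c9614 c5229 (k8 c5571 c5421 c719 c16779 c21799 c21800 c5658 c20671 (k4 c20667 c20750 c21389 c333 (k2 c17945 c2568 k0))))) (by decide +kernel)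
def c21802 : PP 9 3 T 0x2400000000004000000040000000000000000000000000000000000000000000000000000000000000050000000000081000000000000000100000020 := rS 0x4c6c126c91198c3203048e42e371d87e940f946753a9b (k8 c5536 c5458 c20598 c21710 c19585 c6008 c5517 c5332 (k8 c5435 c5433 c5317 c21075 c54 c9701 c9754 c9734 (k4 c2064 c19535 c5678 c3578 (k1 c5447 k0)))) (by decide +kernel)
def c21803 : PP 9 3 T 0x1000000000000000000000000000000000000000000000000000000000000000000000000040000000000000000006000002080000000000000000000020 := rS 0x368982f95c0e667eaa434f5a503e519d (k8 c20598 c21710 c19585 c6008 c5519 c716 c1906 c21278 (k4 c715 c5432 c5313 c62 (k2 c1577 c19655 (k1 c5530 k0)))) (by decide +kernel)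
def c21804 : PP 9 3 T 0x5000400000000000000000000000000000000000000000000000000000000000000000000000000000000000000000000000000000000000000000000020 := rS 0x6d7602064984f07b63f801257038dfc6fd4b85d2a3154bd7e793089c76cb133234345ad9cec7649d002c1a47a503e519d (k8 c20598 c21710 c19585 c6008 c5520 c21768 c5516 c21539 (k8 c5334 c5332 c20666 c21797 c21801 c716 c5381 c715 (k8 c2179 c21702 c5571 c719 c15376 c16779 c5519 c1906 (k8 c5434 c1904 c5433 c1073 c21278 c21771 c5435 c5432 (k8 c5313 c21075 c5204 c5535 c5457 c18042 c21803 c2064 (k4 c21802 c5678 c5528 c19647 k0)))))) (by decide +kernel)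
def c21805 : PP 9 3 T 0x2000000000000000000000000000000000000000001000000000000000000000000020 := rS 0x1af6b1100e74dfa0 (k8 c21539 c5565 c20598 c53 c9730 c5414 c1139 c5665 k0) (by decide +kernel)
def c21806 : PP 9 3 T 0x40004000000000000000000000000000000000000000000000000054045554000450015015000000000000000000000000000000000000000000000000000 := rS 0xe772fd3ef0c (k4 c3631 c5640 c5697 c5741 (k2 c5633 c3628 k0)) (by decide +kernel)
def c21807 : PP 9 3 T 0x40000000000000000000000000000000000400100000000000000080000000000000080000000000000000000000000000000001400020000000000000000 := rS 0x61c8bc9f7 (k4 c5599 c5269 c5662 c5468 (k1 c615 k0)) (by decide +kernel)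
def c21808 : PP 9 3 T 0x40004000000000000000000000000000000400100000000000000054045554000410010814000000000000000000000000000001400000000002000000000 := rS 0x365d722fbc319adb (k8 c1772 c2191 c3631 c5640 c5662 c4910 c2194 c21806 k0) (by decide +kernel)
def c21809 : PP 9 3 T 0x40400000004000000000000002000000000000000000000000000000000000000000000000000000000000000020 := rS 0xd7fc676f5a503e519d (k8 c20598 c21710 c19585 c6008 c5519 c20666 c5514 c1942 (k1 c5659 k0)) (by decide +kernel)
def c21810 : PP 9 3 T 0x4000000000000000000000000000000000400100000000000000020000000000000494800040000000000000000080400000000000000000000000000020 := rS 0x17fbce3f52d9f83b1c8ebfbcee4fa0 (k8 c21539 c5383 c20666 c5641 c3363 c2518 c2519 c5173 (k4 c2194 c993 c3245 c3482 (k2 c5511 c20744 k0))) (by decide +kernel)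
def c21811 : PP 9 3 T 0x4000400000000010000000000000000000000000000000000000000000040000000000000000000000000000000000000000000000000000000000000020 := rS 0x10d92baa2d1984c6ece536dc2dba401a3345f8d198dedebd68b3d46a574979aa77439f9de90879568eae12454520321c15e707c1c7488d669b8d970154bd55be130ad556b37ea85fede3d2713223d83252a314b85c426a88804dae163a6f263b2491d1e1f1cc4c7e3d2b84c0e4bf61f503e3f9844e20ba50373a0faced962660d16b673b04a374128 (k8 c21710 c21539 c5381 c21075 c20666 c21797 c21801 c716 (k8 c715 c2179 c21702 c18498 c19585 c20598 c21768 c6008 (k8 c5516 c5571 c719 c16779 c21771 c5380 c5566 c21804 (k8 c21651 c5432 c5564 c5313 c5436 c5318 c5382 c5317 (k8 c5517 c5568 c5520 c5334 c5332 c15376 c8100 c18202 (k8 c12655 c21658 c53 c9730 c5665 c2371 c5433 c1073 (k8 c5434 c1904 c21750 c5678 c9734 c5447 c17923 c1136 (k8 c15912 c5544 c5398 c21278 c5574 c5500 c5422 c19460 (k8 c21802 c5573 c5519 c1906 c5502 c5420 c1777 c18088 (k8 c12713 c19455 c2159 c20732 c5503 c5540 c5545 c1933 (k8 c54 c9694 c21805 c17941 c2968 c21752 c462 c17687 (k8 c12647 c5023 c2948 c5499 c889 c15288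 c1135 c4338 (k8 c5399 c5449 c5543 c5501 c5575 c4560 c5435 c5316 (k8 c5569 c9709 c2191 c18037 c1763 c1814 c21761 c1772 (k8 c2974 c19638 c21807 c21809 c21810 c21808 c2954 c4908 (k2 c3456 c21242 k0)))))))))))))))) (by decide +kernel)
def c21812 : PP 9 3 T 0x400000000000000200000000000000000000000000000000008004400000000090000000000000000000000000400000000000000000000000000000 := rS 0x21b25752051b8d (k4 c5569 c5381 c5380 c2954 (k2 c4908 c3456 (k1 c21242 k0))) (by decide +kernel)
def c21813 : PP 9 3 T 0x800000400000000080000200000000000000000000000000000000000044000000000014000000000000050000000000400000000000000000000000000000 := rS 0x5fbcb0d92a364f8d (k8 c5569 c5383 c5381 c5595 c5640 c7591 c20753 c21210 k0) (by decide +kernel)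
def c21814 : PP 9 3 T 0x4000400000000010000000000000000000000000000000000000000004000000000000000000000000000000000000000000000000000000000000000020 := rS 0x5b64454b9bdaee45f4fbc5e32dd8dc26ce536de1c5e4db7a8cee873f2421e55a3ab849151480c870579c1f071d22359a6e365c0552f556f84c2b555acdfaa17fd6599026f1e9389911ec1929518a5c2e2135444026d70b1d37931d9248e8f0f8e626091f8f4ae130392fd87d40f8fe61138ed9626646868b5b39d82e940dd06741f28 (k8 c21710 c19585 c20598 c21539 c21768 c6008 c5516 c20666 (k8 c21797 c21801 c716 c5381 c715 c2179 c21702 c5571 (k8 c719 c16779 c21771 c5380 c5566 c21804 c21651 c5432 (k8 c5564 c5313 c5436 c5318 c21075 c5382 c5317 c5517 (k8 c5568 c5520 c5334 c5332 c15376 c8100 c18202 c12655 (k8 c21658 c53 c9730 c5665 c2371 c5433 c1073 c5434 (k8 c1904 c21750 c5678 c9734 c5447 c17923 c1136 c15912 (k8 c21811 c2516 c18498 c5544 c5398 c21278 c5574 c5500 (k8 c5422 c19460 c21802 c5573 c5519 c1906 c5502 c5420 (k8 c1777 c18088 c12713 c19455 c2159 c20732 c5503 c5540 (k8 c5545 c1933 c54 c9694 c21805 c17941 c2968 c21752 (k8 c462 c17687 c12647 c2948 c5499 c889 c5449 c4560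 (k8 c5521 c9709 c1384 c1772 c2974 c19638 c21809 c2695 (k8 c2233 c21810 c21812 c21813 c5697 c5662 c5554 c5631 (k4 c5632 c3089 c20733 c3624 (k1 c3197 k0)))))))))))))))) (by decide +kernel)
def c21815 : PP 9 3 T 0x4000400000000010000000000000000000000000000000000000000000000000000000000000000000000000000000000000000000000000000000000020 := rS 0x16629ebdb9f1851568eae21911acd569b78eee33d27132a152a8fc3b0308919221709a98e9b1788e22011480c12818984cfa8f2b8e47e071e87fc71d7ea5c2e9518aa5eb6f59af596b556d6707f3c98447649058348f4acea1d570183c162a6d2583e5071db2c4cc8dd0068b5b39dbcdffec (k8 c21804 c5544 c5540 c20666 c21797 c21801 c716 c21539 (k8 c5381 c715 c2179 c21702 c5571 c21710 c19585 c21651 (k8 c21658 c21805 c5545 c5503 c5502 c5500 c5499 c20598 (k8 c6008 c5520 c21768 c5516 c5334 c5332 c719 c15376 (k8 c16779 c20732 c18498 c5573 c5422 c5420 c5575 c5574 (k8 c4560 c5519 c1906 c5434 c1904 c5433 c1073 c21278 (k8 c2159 c21771 c5517 c5436 c5432 c5318 c5317 c5313 (k8 c5568 c5566 c5564 c5382 c5380 c21075 c54 c9694 (k8 c53 c9730 c9734 c9709 c8100 c18202 c5665 c12655 (k8 c2371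 c21750 c17941 c19460 c5678 c21802 c5449 c5399 (k8 c5398 c5447 c17923 c1136 c1777 c889 c15912 c18088 (k8 c15288 c12713 c19455 c1933 c2968 c21752 c462 c21814 (k4 c5629 c21761 c1941 c2975 (k2 c5659 c19638 k0)))))))))))))) (by decide +kernel)
def c21816 : PP 9 3 T 0x4000400000000000000000000000000000000000000000000000000000000000000000000000000000000000000000000000000000000000000000000020 := rS 0x17cc3b14ced1204bf664fe61138ed9629733068b4639d825028d8984cfa8fd005c76490591e940f946741bb3 (k8 c21797 c21768 c20598 c21710 c19585 c6008 c5520 c5516 (k8 c5334 c5332 c5433 c21539 c5568 c5566 c5564 c5382 (k8 c5381 c5380 c21075 c20666 c9754 c21801 c716 c715 (k8 c1073 c2179 c21702 c5571 c719 c16779 c15376 c21804 (k8 c21651 c12647 c21815 c5530 c9578 c16919 c17795 c5663 k0))))) (by decide +kernel)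
def c21817 : PP 9 3 T 0x4000000000000000010000000000000000000000000000000000000008000000000020000000000000000000000000000000000000000000000000000020 := rS 0x147b3c7f5f8ff2c9d8231c9844e3b658ece763b2482c1a47a503e519df8c96476f33068ab1d2d7791ba0 (k8 c21539 c5381 c21816 c21795 c2159 c3397 c716 c715 (k8 c4560 c3017 c20752 c5629 c20598 c21710 c19585 c6008 (k8 c5520 c21768 c5516 c5334 c5332 c20666 c21797 c2179 (k8 c21702 c5571 c719 c15376 c5434 c5319 c5383 c5471 (k4 c20763 c1941 c974 c20948 (k2 c19639 c5659 k0)))))) (by decide +kernel)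
def c21818 : PP 9 3 T 0x14000000000000020000000000000000000400000004000000000000001400000000000000000000000000000000000000000000000000000000000000020 := rS 0x61e0bb8d70bc9b4a07ca33afdb7e0f6cb133237673bd0068b5de (k8 c21816 c21795 c716 c21539 c20666 c21797 c5381 c715 (k8 c2179 c21702 c20732 c4560 c21278 c20598 c21710 c19585 (k8 c6008 c5521 c9709 c5659 c5230 c3211 c1940 c19800 k0))) (by decide +kernel)
def c21819 : PP 9 3 T 0x4000000000000000000000000000000000000000004000000000000008000000000010000000000000000000000000000000000004000000000000000020 := rS 0x6bd876684b41e7022210c66c118eb476f7248d5b6d98edbfe759da1b552f57efb46ff183bfd201389844e3b6589991a1a2d77b673b05d281f2806e751fa0 (k8 c21539 c5568 c20598 c21768 c21710 c19585 c6008 c5516 (k8 c20666 c21797 c21816 c21795 c716 c5381 c715 c2179 (k8 c21702 c5571 c719 c5382 c5564 c12647 c20750 c3447 (k8 c5629 c5435 c17743 c21278 c5519 c1906 c21658 c5830 (k8 c9399 c16779 c4560 c2159 c5497 c5455 c5450 c5334 (k8 c5333 c5332 c5437 c5434 c5319 c5316 c2783 c5658 (k8 c9612 c2627 c17847 c2243 c21818 c5348 c5603 c3589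 k0))))))) (by decide +kernel)
def c21820 : PP 9 3 T 0x4000000000000001000000000000000000000000000000000000000008000000000000000000000000000000000000000000000004000000000000000020 := rS 0x697cbb929d9a8cdd2ac3c663f188f46b1d209e40edf3dea58c9a49864069d55a5c2e230f8e4425e30a67686d54bd5fbed1b82503f33e98f263b2491d201389844e3b6589991a1a2d77b673b05d281f2806e751fa0 (k8 c21539 c5568 c20598 c21768 c21710 c19585 c6008 c5516 (k8 c20666 c21797 c21816 c21795 c716 c5381 c715 c2179 (k8 c21702 c5571 c719 c5382 c5564 c12647 c5520 c5334 (k8 c5332 c15376 c9754 c5566 c16779 c5380 c21075 c5435 (k8 c17743 c21278 c5519 c1906 c21658 c5830 c5530 c16919 (k8 c5663 c5528 c5317 c5517 c9734 c5433 c5452 c21664 (k8 c10719 c54 c9701 c19535 c3578 c1120 c3955 c1686 (k8 c20737 c5432 c2384 c18104 c2159 c5450 c5436 c5434 (k8 c5318 c5316 c219 c3397 c21817 c21819 c19639 c5605 (k4 c17701 c18075 c17797 c5237 k0)))))))))) (by decide +kernel)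
def c21821 : PP 9 3 T 0x4000000000000020000000000000000000000000008000000000000000000000000000000000000000000000004000000800000000000000000000000020 := rS 0xc4def1721bb5fb0386dc946cd918feafe2f12782c9b4a07ca33a0dc1ed9626646ece77a00d16bbcb7 (k8 c5533 c21816 c21795 c716 c21539 c20666 c21797 c5381 (k8 c715 c2179 c21702 c20732 c21768 c20598 c21710 c19585 (k8 c6008 c5521 c5516 c5335 c5811 c5624 c20740 c20777 (k8 c3292 c19639 c5350 c17701 c5684 c20796 c2224 c2225 (k4 c320 c2658 c917 c3280 (k1 c3575 k0)))))) (by decide +kernel)
def c21822 : PP 9 3 T 0x40800000004000000200000000000000000015000000000000000000000000000000000000000010000000000000 := rS 0x35ec319b0463ad (k4 c5437 c5434 c5319 c5316 (k2 c5348 c5603 (k1 c3589 k0))) (by decide +kernel)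
def c21823 : PP 9 3 T 0x4000000000000001400000000000000000000000000000000000000000000000000010000000000000000000000000000000000004000000000000000020 := rS 0x14ca5156e7022d51e93cac28fdf45e7300c9cdf8d19b0463adc2d9e8e87631dcd49a49864069d55a5c2e230f8e4425e30a641281f99f5201389a3cc793088ec920b0691f686d38ed9628dd06ce76a97abf7db4a07e746f6f33068b4d96d8d7bd28 (k8 c21710 c21816 c5450 c5455 c5497 c21795 c716 c715 (k8 c4560 c5435 c20598 c19585 c6008 c17743 c21278 c5519 (k8 c1906 c20666 c21797 c21539 c5381 c2179 c21702 c5571 (k8 c21658 c5830 c5520 c21768 c5516 c5334 c5332 c719 (k8 c15376 c9754 c5568 c5382 c5564 c12647 c5566 c16779 (k8 c5380 c21075 c5530 c16919 c5663 c5528 c5317 c5517 (k8 c9734 c5433 c5452 c21664 c10719 c54 c9701 c19535 (k8 c3578 c1119 c5493 c1120 c798 c21821 c21822 c5423 (k8 c5437 c5434 c5319 c5316 c5569 c5565 c5383 c53 (k8 c9719 c9709 c9703 c974 c3589 c19773 c6187 c1609 (k4 c358 c5607 c17948 c5652 (k2 c1123 c5681 (k1 c1099 k0))))))))))))) (by decide +kernel)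
def c21824 : PP 9 3 T 0x4000000000000200000000000040000000400000000000000000000000000000000010000000000000000000000000000000800000000000000000000020 := rS 0x1788f2934b9153a8e4e6fc695d2edb64b652a319460f6cb133237673bd0068b5de (k8 c21816 c21795 c716 c21539 c20666 c21797 c5381 c715 (k8 c2179 c21702 c20732 c21710 c5434 c1904 c5497 c5494 (k8 c5455 c5452 c5313 c5569 c5565 c5383 c5614 c5428 (k4 c5615 c21002 c3619 c6187 (k2 c1124 c813 k0))))) (by decide +kernel)
def c21825 : PP 9 3 T 0x4000000000000001000000000000000000000000000000000000000000000000000010000000000000000000000000000000000004000000000000000020 := rS 0x3b7caebfbbbef10c87e3e4b7ff86923fb9c3ebace2f93e37c6356db66dfa93f42e8e87631dcd49a49864069d55a5c2e230f8e4425e30a641281f99f5201389a3cc793088ec920b0691f686d38ed9628dd06ce76a90d3d4ccfd2d7b7bd4a07e746f28 (k8 c21710 c5435 c20598 c19585 c6008 c21816 c17743 c21795 (k8 c21278 c715 c5519 c716 c1906 c20666 c21797 c21539 (k8 c5381 c2179 c21702 c5571 c21658 c5830 c5520 c21768 (k8 c5516 c5334 c5332 c719 c15376 c9754 c5568 c5382 (k8 c5564 c12647 c5566 c16779 c5380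 c21075 c5530 c16919 (k8 c5663 c5528 c5317 c5517 c9734 c5433 c5452 c21664 (k8 c10719 c54 c9701 c19535 c3578 c1119 c5493 c1120 (k8 c798 c21821 c21820 c800 c3955 c4560 c5497 c5455 (k8 c5450 c21771 c5569 c5383 c9709 c21822 c21823 c1940 (k8 c21824 c19418 c5213 c5230 c1939 c5391 c5608 c5515 (k8 c20753 c20744 c3109 c5640 c3360 c5619 c3482 c5693 k0))))))))))) (by decide +kernel)
def c21826 : PP 9 3 T 0x4000000000000001000000000000000000000000000000000000000000000000000000000000000000000000000000000000000004000000000000000020 := rS 0x5ff0d78dcd9a43afc8e3fe3e56e51f5287631a9345e4998532214eed156903688cc619018250313099f51e571cb040e17d687d2e77f68ddfa9518aa5eb6fc1fcf261138ed9626646868b5ded9cec7649d002c1a47a503e519d (k8 c20598 c21710 c19585 c6008 c5520 c21768 c5516 c21539 (k8 c5334 c5332 c20666 c21797 c21816 c21795 c716 c5381 (k8 c715 c2179 c21702 c5571 c719 c15376 c16779 c20732 (k8 c4560 c5519 c1906 c5434 c1904 c21278 c5435 c17743 (k8 c5493 c5452 c5517 c5437 c5433 c5432 c5319 c5317 (k8 c5313 c5568 c5566 c5564 c5382 c5380 c21075 c54 (k8 c9701 c9754 c9734 c21658 c12647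 c21664 c5830 c10719 (k8 c5528 c5530 c16919 c19535 c5663 c3578 c1119 c1120 (k8 c798 c3955 c21821 c21825 c5471 c5513 c20763 c2038 (k8 c1941 c20952 c5659 c17701 c17985 c5684 c815 c2224 k0)))))))))) (by decide +kernel)
def c21827 : PP 9 3 T 0x105000000050004000000000000000000000000000000000000000020000000000000000000000000000080000000000000000000000000 := rS 0x17ed261bcbf1 (k4 c5513 c5471 c5684 c5237 (k2 c2224 c5389 k0)) (by decide +kernel)
def c21828 : PP 9 3 T 0x4000000000000001000000000000000000800000000000000000000000000000000020000000000000000000000000000000000000000000000000000020 := rS 0x31478c4ded8fe03621a43b55b8b6efb8c7824ae0727934efed1bbf552f5c1e4c2271db2c4cc8dd9cec7649d002c1a47a503e519d8f9475791d7868b5de (k8 c21816 c21795 c716 c5603 c1910 c5600 c5350 c5345 (k8 c20598 c21710 c19585 c6008 c5520 c21768 c5516 c21539 (k8 c5334 c5332 c20666 c21797 c5381 c715 c2179 c21702 (k8 c5571 c719 c15376 c20732 c5519 c1906 c21278 c5435 (k8 c17743 c5493 c5521 c5335 c5432 c5313 c21075 c20763 (k8 c21827 c5613 c5612 c5616 c17701 c319 c20488 c5830 (k4 c5235 c798 c748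 c2434 (k2 c18042 c3575 (k1 c2659 k0))))))))) (by decide +kernel)
def c21829 : PP 9 3 T 0x4000000000000200000000000000000000800000000000000000000000400000000000000000000000000000000000000000000000000000000000000020 := rS 0xc4def166c434876ab716dde764f059341bb3f68dcccfd54868b5de7ad281f28cec7ca3ab (k8 c5600 c5350 c5345 c20598 c21710 c19585 c6008 c5519 (k8 c21816 c21795 c716 c1906 c21278 c715 c5435 c17743 (k8 c21797 c21768 c5521 c5516 c5335 c20666 c5613 c5612 (k8 c5616 c17701 c319 c20488 c5830 c1004 c748 c2434 (k1 c3575 k0))))) (by decide +kernel)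
def c21830 : PP 9 3 T 0x4000000000000001000000000000000000800000000000000000000000000000000000000000000000000000000000000000000000000000000000000020 := rS 0x7d8a9e492e964376bf6070db983fc68cddc894f5fab91b0e3f2709e358231279346adb6cfb46f6fc1fcf261138ed9626646868b5ded9cec7649d002c1a47a503e519d (k8 c20598 c21710 c19585 c6008 c5520 c21768 c5516 c21539 (k8 c5334 c5332 c20666 c21797 c21816 c21795 c716 c5381 (k8 c715 c2179 c21702 c5571 c719 c15376 c16779 c20732 (k8 c4560 c5435 c17743 c5497 c5455 c5450 c5521 c5335 (k8 c5434 c5319 c5569 c5564 c5383 c5345 c5348 c5351 (k8 c5600 c5603 c5605 c1910 c21828 c21822 c5624 c3438 (k8 c21829 c5684 c20796 c2224 c2225 c320 c5389 c765 (k4 c5237 c12621 c20736 c5636 k0)))))))) (by decide +kernel)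
def c21831 : PP 9 3 T 0x4000000000000100000000000000000000400000000000000000000000000000000000000000000000000000000000000000000000000000000000000020 := rS 0x1ae7f773b7caebfbde218dd87c2effa9c7c97e1a49da364f8dd078f66db3bb4db3de (k8 c21816 c5497 c5496 c5493 c5455 c21797 c21771 c21539 (k8 c5569 c5383 c5381 c20666 c5213 c5230 c5391 c5608 (k8 c5388 c5389 c5629 c5515 c5513 c20753 c20744 c5640 (k4 c3360 c5619 c3482 c5693 (k2 c3109 c1838 (k1 c20754 k0)))))) (by decide +kernel)
def c21832 : PP 9 3 T 0x4000000000000001000000000000000000000000000000000000000000000000000000000000000000000000000000000000000000000000000000000020 := rS 0x22b58807f3017dbbae8f6970fb8b3d64946304a064e13379f71a571f81c623d1ab4f261138ed9626646868b5ded9cec7649d002c1a47a503e519d (k8 c20598 c21710 c19585 c6008 c5520 c21768 c5516 c21539 (k8 c5334 c5332 c20666 c21797 c21816 c21795 c716 c5381 (k8 c715 c2179 c21702 c5571 c719 c15376 c5496 c5450 (k8 c5436 c5434 c5432 c5318 c5313 c5569 c5566 c5565 (k8 c5564 c5383 c5380 c21075 c9754 c21826 c5342 c21830 (k8 c21831 c5429 c21002 c6187 c974 c1941 c21824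 c5663 (k4 c728 c12613 c20754 c458 (k1 c19455 k0)))))))) (by decide +kernel)
def c21833 : PP 9 3 T 0x4000000000000000000000000000000000000000000000000000000000000000000000000000000000000000000000000000000000000000000000000020 := rS 0x6321b6bb054bf4cc1a2d7b4efded9cec6ef5a503e519d (k8 c20598 c21710 c19585 c6008 c5519 c5435 c20666 c21797 (k8 c21816 c5493 c17743 c21795 c716 c715 c21278 c1906 (k4 c21832 c9578 c20488 c19647 (k1 c798 k0)))) (by decide +kernel)
def c21834 : PP 9 3 T 0x800000000002000000000000000000000000000000000000000000000000000000000000000000000000000000000000000000000000000000000020 := rS 0x10cc6d9aa5fa660d16bda779d8ddebb5a503e519d (k8 c20598 c21710 c19585 c6008 c9578 c5519 c5435 c20666 (k8 c5493 c17743 c21795 c716 c715 c21278 c1906 c5487 (k2 c19647 c20488 (k1 c798 k0)))) (by decide +kernel)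
def c21835 : PP 9 3 T 0x1000000000000002000000000000000000000000000000000000000000000000000000000000000000000000000000400000080000000000000000000020 := rS 0x10cc69ded5faa90d3d6940f946776666 (k8 c715 c5487 c20598 c21710 c19585 c6008 c5519 c716 (k4 c1906 c21278 c9578 c20666 (k2 c19647 c20488 (k1 c798 k0)))) (by decide +kernel)
def c21836 : PP 9 3 T 0x40000000000000042000000000000000000000000000000000000000000010000000000000080000000000002000000000000000000000000000008000020 := rS 0x1591469b2d6ae0359ed62d757b57dc9bdaa5c2ea97ad281f28ceace2201 (k8 c53 c9730 c2897 c20598 c21710 c19585 c6008 c5519 (k8 c1906 c5433 c1073 c9578 c5397 c21833 c5585 c5584 (k8 c5507 c5506 c162 c2482 c801 c17733 c17738 c3062 (k2 c5685 c9617 (k1 c3053 k0))))) (by decide +kernel)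
def c21837 : PP 9 3 T 0x1000000000002000000000000000000000000000000000000000000000000000000000040000000000000000080000400000000000000000000000020 := rS 0x1e4bc6c8880533b5a503e519d (k8 c20598 c21710 c19585 c6008 c9578 c5447 c53 c9730 (k4 c5665 c21772 c2428 c6192 k0)) (by decide +kernel)
def c21838 : PP 9 3 T 0x40001000000000042000000000000000000000000000000000000000000000000000000000040000000000000000080000000000000000000000000000020 := rS 0x271682135384461901e8072171b8ec3e0d49a6d33b5a503e519d (k8 c20598 c21710 c19585 c6008 c9578 c5447 c5397 c5444 (k8 c21768 c5517 c5332 c5435 c5433 c5317 c21539 c54 (k8 c9701 c9734 c3059 c21837 c2371 c16719 c3578 c1343 k0))) (by decide +kernel)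
def c21839 : PP 9 3 T 0x2000000000000000000000000000000000000000000000000000000000000000000000000000000400000080000000000000000000020 := rS 0x712d538ad1232d9ad213b7cfec759edfc290acfcd9f0168aad0fec88804520340a36267d47a7f40090fac5af0357b55ffee49a85929b4aa65fa970baa434f5a503e519d (k8 c20598 c21710 c19585 c6008 c5519 c716 c1906 c5433 (k8 c1073 c21278 c5447 c5446 c5397 c5396 c5398 c5444 (k8 c21833 c5586 c5585 c5584 c5508 c5507 c5506 c5517 (k8 c21075 c21539 c17448 c5568 c5566 c5382 c5381 c5380 (k8 c54 c9694 c53 c9730 c21835 c5499 c5500 c5501 (k8 c5502 c5543 c20903 c14774 c20818 c18012 c18121 c2897 (k8 c21836 c21838 c2948 c17411 c20751 c12473 c9148 c5651 (k4 c1909 c18006 c1094 c18088 (k1 c1777 k0))))))))) (by decide +kernel)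
def c21840 : PP 9 3 T 0x2000000000000000000000000000000000000000000000000000000000040000000000000000000000000080000000000000000000020 := rS 0xcc70f84f6dff9b3e02ab43fb0fba0f1b5e06fff732536954ced7be667ea5c2ea90d3d6940f946772676 (k8 c21839 c5356 c20598 c21710 c19585 c6008 c5519 c716 (k8 c1906 c5433 c1073 c21278 c715 c21834 c9578 c5447 (k8 c5446 c5397 c5396 c21833 c5586 c5508 c5507 c21771 (k8 c21539 c5566 c19647 c5499 c5500 c5502 c5543 c20903 (k4 c20908 c889 c18012 c10249 (k2 c21183 c8709 k0)))))) (by decide +kernel)
def c21841 : PP 9 3 T 0x40000000000000002000000000000000000000000000000000000000000000000000000000000000004000000000000000000080000000000000000000020 := rS 0xdba4202d143fb2768d89a3d3fa004b5e06af6abffdca164a5532fd4b85d521a7aecccde1679b0d6c64dc4403b5a503e519d (k8 c20598 c21710 c19585 c6008 c9578 c53 c9730 c5397 (k8 c21840 c2482 c5665 c20739 c5535 c715 c5487 c5519 (k8 c716 c1906 c5433 c1073 c21278 c5447 c5446 c5396 (k8 c5398 c21833 c5586 c5585 c5584 c5508 c5507 c21075 (k8 c21539 c17448 c5568 c5382 c5381 c20666 c19296 c745 (k4 c5501 c5502 c20818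 c18121 (k1 c21836 k0))))))) (by decide +kernel)
def c21842 : PP 9 3 T 0x40000000000000042000000000000000000000000000000000000000000000000000000000000000000000001000001000000000000000000000000000020 := rS 0x23a02b8e47e071b8f41bb5a503e519d (k8 c20598 c21710 c19585 c6008 c9578 c21768 c5436 c5435 (k4 c5432 c5318 c5317 c5313 (k2 c21539 c18513 (k1 c16718 k0)))) (by decide +kernel)
def c21843 : PP 9 3 T 0x2000000000000000000000000000000000000000000000000000000000000000008000002000000000000080000000000000000000020 := rS 0x69b2d5ae059c4403ee4b8682f283db199a66 (k8 c715 c4455 c21840 c162 c21710 c5433 c716 c1073 (k8 c21833 c53 c9730 c2897 c801 c2128 c17738 c3063 (k1 c8156 k0))) (by decide +kernel)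
def c21844 : PP 9 3 T 0x40000000000000002000000000000000000000000000000000000000000000000000000000000000000000000000000000000080000000000000000000020 := rS 0xdf696d922d066fb5543907a7f40096babdabee50b252bdf3325c34179464cec793df859ec6 (k8 c21840 c20739 c5535 c162 c93 c21839 c5356 c21710 (k8 c5433 c716 c1073 c715 c21834 c5446 c5396 c5398 (k8 c21833 c5585 c5584 c5507 c21075 c21539 c17448 c19585 (k8 c5317 c21841 c5500 c4455 c5688 c21843 c21842 c18016 (k2 c20737 c2136 k0))))) (by decide +kernel)
def c21845 : PP 9 3 T 0x2000000000000000000000000000000000000000000000000000000000000000000000000000000000000080000000000000000000020 := rS 0x1a4d06589d5aaa436deb210f6c062a9125fc8d86b6364cedb354a5ccc1a88804520346c4c268fd00e42e1f05bd48e0d58b5d5ed57ffb937b5a503e519d (k8 c20598 c21710 c19585 c6008 c9578 c5397 c21833 c5586 (k8 c5585 c5584 c5507 c5506 c21768 c5520 c5519 c5516 (k8 c5517 c5433 c5317 c21539 c5568 c5564 c5382 c5381 (k8 c54 c9694 c53 c9730 c716 c715 c1073 c1906 (k8 c5487 c21839 c5356 c21840 c2482 c5665 c21844 c5546 (k8 c5589 c5590 c5592 c20903 c16779 c21184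 c18202 c18848 (k4 c19373 c2127 c2859 c20349 (k2 c799 c9617 (k1 c2135 k0))))))))) (by decide +kernel)
def c21846 : PP 9 3 T 0x80000000000000002000000000000000000000000000000000000000000000000000000000000000000000000000000000000000000000000000000000020 := rS 0x68d10e33436c710bf3666a55accdacf1221821018aa45e31100cec66391b8ec3e478eac48afff724d3695daaa7da0d7b82deb4a07e76b25b9402741df (k8 c21834 c21539 c21075 c21710 c21845 c19518 c20598 c19585 (k8 c6008 c5519 c5516 c5333 c21768 c20874 c21192 c9578 (k8 c5446 c5397 c5444 c21833 c5586 c5582 c5506 c5504 (k8 c5520 c5517 c5332 c5435 c5317 c5316 c20666 c53 (k8 c9730 c5811 c5589 c5590 c5592 c16779 c20935 c720 (k8 c17612 c21558 c2760 c20861 c5665 c17868 c5682 c2371 (k4 c2482 c19296 c2504 c20237 (k2 c19548 c21170 (k1 c331 k0))))))))) (by decide +kernel)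
def c21847 : PP 9 3 T 0x2000000000000000000000000000000000000000000000000000000000000000000000000000000002000000000000000000000000020 := rS 0x663c8f27b43bc676092b8cc7207188dc76614cf7fda5b06bdc16f5a503e519d (k8 c20598 c21710 c19585 c6008 c5519 c5516 c5333 c21768 (k8 c21845 c20874 c21834 c5447 c5445 c5332 c5435 c5434 (k8 c5432 c5317 c5316 c5313 c21075 c20666 c5811 c21558 (k4 c742 c2428 c20774 c20884 (k1 c2500 k0))))) (by decide +kernel)
def c21848 : PP 9 3 T 0x2000000000000000000000000000000000000000000000000000000000000000000000000000000000000000000000000000000000020 := rS 0x4b4e0982221129aa2a6df9d676e5befed5329b4988e2201148640609d00e42e371d87e940f946741bee (k8 c21833 c21768 c20598 c21710 c19585 c6008 c5517 c5332 (k8 c5435 c5433 c5317 c21539 c21075 c54 c9701 c9694 (k8 c53 c9730 c9734 c5444 c5397 c5447 c9578 c21834 (k8 c21845 c21546 c19518 c21846 c21847 c21805 c5665 c16791 (k4 c2371 c720 c5651 c3578 (k2 c21623 c19630 k0)))))) (by decide +kernel)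
def c21849 : PP 9 3 T 0x40000000000000050000000000000000000000000000000000000001000000000000000000000000000000100000000001000000000000000000000000020 := rS 0xc3933c26d3ac708887c025354440209d015c0e371d87c920b23d281f28ce837c7b1 (k8 c21848 c21771 c21768 c20598 c21710 c19585 c6008 c5520 (k8 c5516 c5334 c5517 c5332 c5435 c5432 c5313 c21539 (k8 c21075 c53 c9730 c5665 c16791 c5198 c2371 c720 (k4 c5535 c5458 c5536 c18042 (k2 c15376 c1577 (k1 c18068 k0)))))) (by decide +kernel)
def c21850 : PP 9 3 T 0x20000000040000000000000000000000000000001000000000000000000000000000000500000000001000040000000000000000000020 := rS 0x100662d5c2ad7e9e9a2a04a9e58ecb4b98124233186406813795c72070b8dd3fa0048ec3fe358c0d5effd8aae220154edfdded06bdc16f5a503e519defa7442b3 (k8 c5532 c5528 c5412 c21795 c20598 c21710 c19585 c6008 (k8 c5519 c5516 c5333 c21768 c20874 c21833 c21546 c21192 (k8 c53 c9730 c20861 c21848 c5586 c5584 c5508 c5506 (k8 c21771 c5517 c5332 c21075 c21539 c17448 c5435 c5433 (k8 c5432 c5317 c5313 c5565 c5380 c54 c9701 c9754 (k8 c9734 c6193 c19535 c20768 c1755 c726 c1577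 c21757 (k8 c5680 c19548 c3568 c10429 c2932 c9214 c1199 c20893 (k2 c3623 c2078 k0)))))))) (by decide +kernel)
def c21851 : PP 9 3 T 0x1000000000000000000040000000000000000000000000000001000000000000000000000000400000000000000001002040000000000000000000020 := rS 0xfd80ad55acc71b45c2a04a9e98ecb4ba053fa0048efc6b181abdffb155c4402a9dbfbbda0d7b82deb4a07ca33bdf (k8 c21795 c20598 c21710 c19585 c6008 c5519 c5516 c5333 (k8 c21768 c20874 c21833 c21546 c21192 c53 c9730 c20861 (k8 c21848 c5586 c5584 c5508 c5506 c21771 c5332 c21075 (k8 c21539 c17448 c5380 c20768 c1755 c726 c10425 c21757 (k8 c5680 c17839 c19548 c17695 c20893 c2932 c1200 c2078 (k2 c2505 c3623 k0)))))) (by decide +kernel)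
def c21852 : PP 9 3 T 0x20000000000000000000000000000000000000001000000000000000000000000000000100000000001000040000000000000000010020 := rS 0x703298ca12f184f3e14d64cc66f4f8ec920b23d281f9d06f8f63b7f75665009d077d3ab3 (k8 c5532 c5412 c21795 c21539 c21075 c21710 c19518 c21833 (k8 c21546 c21848 c21771 c21768 c20598 c19585 c6008 c5520 (k8 c5516 c5334 c5332 c17448 c5565 c9754 c15376 c21850 (k8 c5536 c2384 c21851 c5663 c1121 c10245 c5680 c19646 (k1 c1718 k0))))) (by decide +kernel)
def c21853 : PP 9 3 T 0x20000000000000000000000000000000000000001000000000000000000000000000000100000000001000040000000000000000000020 := rS 0x7ec928196701384002290185d3fe3d8edfdd599402741df (k8 c21795 c21539 c21075 c21710 c19518 c21833 c21546 c21848 (k8 c21771 c17448 c5433 c54 c9694 c53 c21852 c2859 (k4 c719 c9148 c5680 c20376 (k2 c2929 c5358 k0)))) (by decide +kernel)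
def c21854 : PP 9 3 T 0x1000000000000000000000000000000100000000001000040000000000000000000020 := rS 0x603c2758fe04de4c43f2356d76f11008274057038dc761f05d281f28ce837ddb1 (k8 c21848 c21833 c21768 c20598 c21710 c19585 c6008 c5516 (k8 c5517 c5332 c5435 c5432 c5313 c21539 c21075 c53 (k8 c9730 c21546 c21853 c5665 c21849 c2371 c21582 c8100 (k4 c5235 c2482 c5458 c18042 (k2 c18068 c1577 k0))))) (by decide +kernel)
def c21855 : PP 9 3 T 0x10000000000000000000000000000000000000001000000000000000000000000000000100000000001000000000000000000000000020 := rS 0x36ff3f64ef40b181abfdcab88805521a7ad281f28ceecccc5a (k8 c21854 c715 c5487 c20598 c21710 c19585 c6008 c5519 (k8 c716 c1906 c53 c9730 c20861 c21833 c5584 c5508 (k4 c5506 c21539 c20666 c19296 (k2 c20903 c17841 (k1 c21849 k0))))) (by decide +kernel)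
def c21856 : PP 9 3 T 0x2000000000000064000000000000000000000000000000000000000000001000000000000000000001000050000000000000000000000000000000000020 := rS 0x10896ad6477de7011480c6e9fd00243e497a91e940f94675630357bffddb1 (k8 c21848 c21833 c5586 c5584 c5508 c5506 c20598 c21710 (k8 c19585 c6008 c5520 c5519 c5334 c5517 c21075 c21539 (k8 c17448 c5435 c54 c9694 c5502 c5540 c17743 c5678 (k4 c2068 c18072 c17892 c16936 k0)))) (by decide +kernel)
def c21857 : PP 9 3 T 0x41000400000000060000000000000000000000000000000000000000000000000000000000000000000000150000000001080000000000000000000000020 := rS 0x10a02b525b7998e370f84f593501e58e7665981a2c831ced026f2b8e40e374fe80123b0fbdc16f5a503e519d06f8d62457ffbb63b3 (k8 c5487 c21848 c21833 c5586 c5582 c5506 c21771 c21768 (k8 c20598 c21710 c19585 c6008 c5519 c5516 c5333 c5517 (k8 c5332 c21075 c21539 c17448 c5435 c5432 c5317 c5313 (k8 c5565 c5380 c20666 c9754 c5678 c4497 c2064 c1324 (k8 c2063 c726 c1577 c5680 c5356 c3568 c18042 c9214 (k8 c17695 c20893 c15912 c15375 c1200 c2078 c18825 c20361 k0)))))) (by decide +kernel)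
def c21858 : PP 9 3 T 0x800000000060000000000000000000000000000000000000000000011000000000000000000001000100000000000000000004080000000010000020 := rS 0x9a6397926e130b2822a112ab2b223318a432031c85c6e9f048ec3f4a07ca33be357bff629d109dd939369a05aa8d6bfb8fba0 (k8 c21539 c5566 c21833 c5507 c5381 c5585 c5380 c5496 (k8 c20816 c5494 c5493 c5528 c5412 c21848 c5586 c5584 (k8 c21771 c20598 c21710 c19585 c6008 c5517 c5332 c21075 (k8 c17448 c5435 c5433 c5317 c54 c9701 c9694 c9754 (k8 c9734 c5561 c16936 c2759 c2931 c720 c5680 c19404 (k4 c1718 c19535 c5663 c19646 (k2 c3578 c1120 k0))))))) (by decide +kernel)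
def c21859 : PP 9 3 T 0x800000000040000000000000000000000000000000000000001000011000000000000000000404000000000000000000000000040000000008000020 := rS 0x30285242612ad2b2ad2018c52039d824663f1e87fc71d58c0c8aaf7fec552f5a503e519d1a9dd939369a05aa8d6bfb8fba0 (k8 c21539 c5566 c21833 c5507 c5381 c5585 c5380 c5496 (k8 c20816 c5494 c5493 c5450 c20598 c21710 c19585 c6008 (k8 c5519 c1906 c21848 c5586 c5584 c5582 c5508 c5506 (k8 c5504 c21771 c5517 c5436 c5318 c5316 c21075 c20666 (k8 c54 c9694 c9754 c17979 c1908 c5340 c3623 c1094 (k4 c5651 c16409 c2927 c19535 (k1 c19404 k0))))))) (by decide +kernel)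
def c21860 : PP 9 3 T 0x800000000060000000000000000000000000000000000000001000011000000000000000000004000100000000000000000000000000000018000020 := rS 0x5609c94421480c3e0d58c0d5efff72a5eb4a07ca33ab3 (k8 c5532 c20598 c21710 c19585 c6008 c5519 c1906 c21833 (k8 c5586 c5584 c5508 c5506 c21768 c5517 c54 c9694 (k4 c21859 c21858 c21623 c18072 (k1 c1909 k0)))) (by decide +kernel)
def c21861 : PP 9 3 T 0x800000000060000000000000000000000000000000000000001000001000000000000000000004000100000000000000000000000000000018000020 := rS 0x65a85345e49984f6df8064fc27e69b3592cf1198c320340a34de7d1c8dd3fa0048ec3fe36bb57ddb14b85d2a3154bd6940f946753a21 (k8 c5528 c5412 c20598 c21710 c19585 c6008 c5519 c1906 (k8 c5434 c1904 c5433 c1073 c21848 c21833 c5585 c5507 (k8 c21771 c5517 c5332 c21075 c21539 c17448 c5435 c5317 (k8 c5566 c5565 c5381 c5380 c54 c9701 c9754 c9734 (k8 c5453 c5494 c5495 c5496 c20759 c18031 c20816 c21860 (k8 c2952 c892 c10425 c19535 c5663 c3578 c1121 c1327 (k1 c5680 k0))))))) (by decide +kernel)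
def c21862 : PP 9 3 T 0x40000000000000000000000000000000000000001000000000000000000000000000000100000000001000000000000000000000000020 := rS 0x202adf9323bfed4fe8012b157bffddb155c443a017ea5c2e9518aa434f5a503e519dd9998b5b4 (k8 c21855 c21854 c715 c5487 c20598 c21710 c19585 c6008 (k8 c5519 c716 c1906 c5434 c1904 c5433 c1073 c21278 (k8 c53 c1995 c9730 c20861 c21848 c21833 c5586 c5584 (k8 c5506 c21075 c21539 c17448 c21856 c21861 c5678 c21857 (k2 c2068 c5592 (k1 c21326 k0)))))) (by decide +kernel)
def c21863 : PP 9 3 T 0x400000000000000000000000000000000000000000000000000000020000000000000000000000000100000000001000080000000000000000010020 := rS 0x1c1e12037cf2c73fb44c0c82f98c1281099f4ae3f038dc7be3d8a5c2e950d0c76666f9e4c7649d002c1a47a503e519d (k8 c20598 c21710 c19585 c6008 c5520 c21768 c5516 c21539 (k8 c5334 c5332 c15376 c5592 c715 c5487 c5434 c716 (k8 c1904 c5433 c1073 c21848 c21771 c5436 c5435 c5432 (k8 c5318 c5313 c5566 c5564 c5380 c21075 c9754 c17795 (k8 c5678 c5663 c4497 c19605 c726 c1577 c2953 c12613 (k2 c18042 c18204 (k1 c1714 k0))))))) (by decide +kernel)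
def c21864 : PP 9 3 T 0x1000000000000000000000000000000100000000001000000000000000000000000020 := rS 0x6f34fbdf308c015ab5659c76cb3da2a52afd0d168629fd0025eb4a07ca162d781abdffee55c44039d (k8 c20598 c53 c9730 c20861 c21833 c5586 c5584 c5508 (k8 c5507 c5506 c21710 c19585 c6008 c5519 c21075 c21539 (k8 c17448 c5434 c21854 c716 c21278 c1904 c1906 c21855 (k8 c5532 c21862 c5571 c5420 c5422 c5573 c18003 c719 (k4 c5592 c21863 c5496 c18091 (k1 c2952 k0)))))) (by decide +kernel)
def c21865 : PP 9 3 T 0x80000000000000000000000000000000000000001000000000000000000000000000000000000000001000000000000000000000000020 := rS 0x1ed2d2c606aff72a4d511009ecc1933c31c0e092b8dc77b505d281f28cea6d3a0d31ec4be98 (k8 c21864 c1521 c21848 c9754 c21768 c167 c98 c20598 (k8 c21710 c19585 c6008 c5516 c5530 c5332 c5435 c5313 (k8 c21075 c5432 c2438 c16784 c5441 c5663 c161 c53 (k8 c9730 c5665 c20804 c21833 c5584 c5508 c5506 c21546 (k2 c17841 c21803 k0))))) (by decide +kernel)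
def c21866 : PP 9 3 T 0x1000000000000000000000000000000000000000001000000000000000000000000020 := rS 0x19efcd9843dbf25aa836ecb59aa4d49bdaa61571100a3d3fa00482e940f946741be358bffddb1 (k8 c21848 c21833 c5586 c5506 c21771 c21768 c20598 c21710 (k8 c19585 c6008 c5516 c21075 c21539 c17448 c5568 c53 (k8 c9730 c20861 c21864 c5530 c98 c5665 c20804 c2377 (k8 c1760 c21865 c5680 c1199 c5685 c20903 c16779 c17868 (k2 c5682 c17612 (k1 c2554 k0)))))) (by decide +kernel)
def c21867 : PP 9 3 T 0x40000000000000000000000000000000000000001000000000000000000000000000000000000000000000000000000000000000000020 := rS 0xbca0f032c4f93087c80229019bcae074f827c7eed8ed6b29136034168f09c4f4049a503e519d (k8 c20598 c21710 c19585 c6008 c5334 c21539 c5382 c5564 (k8 c5568 c5516 c21768 c21866 c747 c17964 c5529 c21848 (k8 c21833 c21771 c21075 c17448 c5432 c5313 c5565 c54 (k8 c9694 c53 c21703 c16779 c21582 c2859 c20349 c5235 (k2 c5680 c21077 (k1 c1121 k0)))))) (by decide +kernel)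
def c21868 : PP 9 3 T 0x1000000000000000000000000000000000000000000000000000000000000000000020 := rS 0x1a6a16497bc0954be4c34112d6cd5acb38edb6a6c469bcae070b8c53fa0048ec920b23d281f28ce83562d757b57ddb1 (k8 c21848 c21833 c5585 c5584 c5507 c5506 c21768 c20598 (k8 c21710 c19585 c6008 c5520 c5516 c5334 c5332 c21075 (k8 c21539 c17448 c5434 c5433 c5432 c5313 c5565 c5381 (k8 c21866 c5529 c21867 c5571 c5420 c5573 c18613 c21546 (k8 c719 c716 c15376 c1073 c1904 c5235 c21077 c20795 (k2 c1121 c13297 (k1 c3618 k0))))))) (by decide +kernel)
def c21869 : PP 9 3 T 0x80000000000000000000000000000000000000000000000000000000000000000000000000000000000000000000000000000000000020 := rS 0x1a6a16497bc0954be4c34112d6cd5acb38a34de570385c629fd002476490591e940f946741ab16babdabeed8ed4d914 (k8 c21868 c21805 c5414 c21848 c21833 c5585 c5584 c5507 (k8 c5506 c21768 c20598 c21710 c19585 c6008 c5520 c5516 (k8 c5334 c5332 c21075 c21539 c17448 c5434 c5433 c5432 (k8 c5313 c5565 c5381 c5571 c5420 c5573 c18613 c21546 (k8 c719 c716 c15376 c1073 c1904 c5235 c21077 c20795 (k2 c1121 c13297 (k1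 c3618 k0))))))) (by decide +kernel)
def c21870 : PP 9 3 T 0x20 := rS 0x142cb2f277c1b7366d7e714d8f8e949f0781caf2837e80139d (k8 c20598 c21075 c21539 c5565 c21710 c5313 c5432 c19585 (k8 c17448 c6008 c21771 c21848 c21868 c5590 c5414 c21805 (k4 c21869 c5198 c5458 c21077 (k2 c1292 c1121 (k1 c5680 k0))))) (by decide +kernel)
def c21871 : PP 9 3 T 0x8000 := rS 0x5 (k2 c21870 c9739 k0) (by decide +kernel)
def c21872 : PP 9 3 T 0x8000000000000000000000 := rS 0x5 (k2 c21870 c19417 k0) (by decide +kernel)
def c21873 : PP 9 3 T 0x8008000000000041000210000000000000000000000000000000000000000000000000000400000000004000000000002000000000000000000000011000 := rS 0x12851f3041ecc3280c9db273b11ad4d63b2482c6e47a506c3a8146c4cde7d4789c260200c476a416bb8c7e7f69b7c1e05 (k8 c21870 c21871 c5580 c5579 c5577 c5576 c5466 c5465 (k8 c5462 c5529 c160 c17712 c5642 c5564 c267 c5568 (k8 c5566 c5565 c5382 c5381 c5380 c20811 c20794 c5211 (k8 c5520 c5518 c5516 c5334 c5332 c64 c17733 c9733 (k8 c20927 c20829 c20761 c6205 c5209 c10409 c3860 c17785 (k4 c19019 c18420 c21025 c12113 k0)))))) (by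 decide +kernel)
def c21874 : PP 9 3 T 0x8000000000051000210040000000000000000000000000000000000000000000000000000001000000000000000000000000000000000005000011000 := rS 0x14128f7f3ac823c128118ec920b1b91e9513099f51e41718fdbe0f (k8 c21871 c5580 c5576 c5466 c5462 c5568 c5566 c5564 (k8 c5382 c5211 c5520 c5518 c5516 c5334 c5332 c9733 (k8 c5209 c5235 c17785 c19414 c19019 c5457 c21025 c5651 (k1 c12113 k0)))) (by decide +kernel)
def c21875 : PP 9 3 T 0x8000000000041000210000000000000000000000000000000000000000000000000000400000000004000000000002000000000000000000000011000 := rS 0x5a194ec975814c520290709ed3a184da4c2ed4949dcf2c70497f25ef6fb4cfee36b90446b5358ec920b23d284a8146c4cfa8f1384c040188ed41e05 (k8 c21870 c21871 c5529 c160 c17712 c5642 c5564 c267 (k8 c5568 c5566 c5382 c5381 c5380 c1114 c5211 c5520 (k8 c5516 c5334 c5332 c64 c17733 c9733 c5462 c5465 (k8 c5466 c5577 c5579 c5580 c21873 c21874 c5439 c5438 (k8 c5357 c5441 c5356 c15376 c20816 c1107 c261 c2492 (k8 c5648 c1273 c743 c13096 c3610 c3072 c747 c1289 (k4 c5651 c5342 c20946 c21523 (k2 c21511 c2041 k0))))))))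 (by decide +kernel)
def c21876 : PP 9 3 T 0x4000000000041000200080000000000000000080000000000000000000000000000000000000000020000000000002000000000000000000000011000 := rS 0x91ac1c6527f1d92416478984d1e0f (k8 c21871 c5568 c5564 c5382 c5520 c5516 c5334 c5332 (k4 c5358 c15376 c2929 c5226 (k2 c746 c17964 k0))) (by decide +kernel)
def c21877 : PP 9 3 T 0x1004000000000049000200040000000000000000000000000000102000000000000000000000000040000000000000402000000000050000010000000008 := rS 0xcef156ed6221d3789c2728 (k8 c5209 c5564 c267 c5565 c20811 c160 c5529 c5490 (k2 c5401 c5487 (k1 c19394 k0))) (by decide +kernel)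
def c21878 : PP 9 3 T 0x41000210000000000000000000000000000000000000000000000000000400000000004000000000002000000000000000000000011000 := rS 0x553c366af381de29ed487ce771d2090d67586fb445260f04a033932fa83c6235a9acc64905d28361d12c4cde8f1384c040188ed41e05 (k8 c21870 c21871 c5529 c160 c17712 c5642 c5564 c267 (k8 c5568 c5565 c5382 c1114 c20811 c20794 c5211 c5516 (k8 c5334 c19421 c64 c17733 c9733 c21875 c5680 c1121 (k8 c21876 c6205 c5209 c5235 c5663 c1195 c5459 c5538 (k8 c5651 c2933 c5561 c5340 c5341 c20946 c21184 c17964 (k8 c16661 c5685 c10409 c746 c20748 c21877 c5649 c19402 (k1 c1281 k0))))))) (by decide +kernel)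
def c21879 : PP 9 3 T 0x1004000000000041000210040000000000000000000004000000102000000000000000000000000040000000000000402000000000050000010000000000 := rS 0x2a9e1b31186c3a6f1384c040188ed65005 (k8 c21870 c5209 c5529 c160 c17712 c5642 c5564 c267 (k8 c5565 c20811 c20794 c9733 c21877 c5649 c19402 c1281 k0)) (by decide +kernel)
def c21880 : PP 9 3 T 0x41000210040000000000000000000000000000000000000000000000000000000000020000000000002000000000000000001000000000 := rS 0x367ef57450eff3f6cee3a4121d61bed114983c1280c87c46631d9248f4a0d8744e130100623b5f197cde05 (k8 c21870 c5565 c1121 c5578 c5529 c160 c17712 c5642 (k8 c5564 c267 c20811 c20794 c5211 c5520 c5334 c5332 (k8 c19421 c9733 c2316 c6205 c5209 c5235 c5663 c1195 (k8 c5459 c5538 c5651 c5561 c5340 c5341 c20946 c16661 (k4 c19019 c10409 c19604 c21879 (k2 c5584 c5406 (k1 c5201 k0))))))) (by decide +kernel)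
def c21881 : PP 9 3 T 0x40000200000000000000000000000000000200000000000000000000000000000000020004000040000000000000000000001000010100 := rS 0x5019099f47a57 (k4 c21872 c2766 c5566 c5564 (k2 c5315 c12670 (k1 c1195 k0))) (by decide +kernel)
def c21882 : PP 9 3 T 0x5000010000000000000000000000004000100000000000000000000000040000000001000000001402000000000000000000200000000 := rS 0xd143b359ea855f79e0230d874040188ed4f605 (k8 c21870 c743 c5529 c160 c17712 c5642 c20811 c20794 (k8 c9733 c5649 c5224 c1281 c432 c5453 c5495 c745 (k2 c2025 c20770 k0))) (by decide +kernel)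
def c21883 : PP 9 3 T 0x41000210000000000000000000000000000000000000000000000000000400000000020400000000002000000000000000000200010000 := rS 0x339a6cd68a1d60a94a99f64de719ed30384ecec9618ac4a52271499dcfec704e48f2e10b97fc62339894040188ed5028d899bd1e05 (k8 c21870 c5568 c5565 c5382 c5381 c5380 c5529 c160 (k8 c17712 c5642 c1114 c9719 c9733 c5578 c1121 c1068 (k8 c3061 c2429 c21880 c5438 c5357 c5358 c5356 c261 (k8 c2929 c746 c21881 c5226 c5648 c5342 c20946 c1273 (k8 c377 c378 c743 c2617 c17932 c21882 c5487 c5488 (k8 c5489 c20843 c744 c1595 c2440 c2086 c20853 c2565 k0)))))) (by decide +kernel)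
def c21884 : PP 9 3 T 0x8000000000041000210080000000000000000000000000000000000000000000000000000000000004400000000002000000000000000000200010000 := rS 0x8a5b194ec63581e8a56690708d53a184985da9ef949dcf2c70497c462540c4cde7d1384c040188ed482e31fb7fbed746b4cfe05 (k8 c21870 c5577 c5579 c5381 c5465 c20754 c5580 c5576 (k8 c5466 c5462 c5529 c160 c17712 c5642 c5564 c267 (k8 c5566 c5565 c5382 c5380 c1114 c9733 c5439 c5438 (k8 c5357 c5441 c5356 c12823 c20829 c20816 c1107 c261 (k8 c5648 c1273 c3729 c13096 c14947 c2897 c541 c12427 (k4 c5651 c1475 c20946 c21523 (k2 c9931 c389 (k1 c20837 k0)))))))) (by decide +kernel)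
def c21885 : PP 9 3 T 0x44000000000000050000000040000000000000000000000000200000000000010000000011000000000000000000000000001000000000450000000000008 := rS 0x1edd98cc7231 (k4 c5434 c5317 c5316 c19428 (k2 c18037 c5201 k0)) (by decide +kernel)
def c21886 : PP 9 3 T 0x44000000000000050000210040000000000000100000000000200000000000000000000011000001800000000000000000001000000110000020000000008 := rS 0x1ed80bff64ad8e90a76341d8ddeb4a47c54460f (k8 c21871 c9733 c1289 c5568 c5211 c5519 c5518 c5332 (k8 c21885 c5324 c5281 c552 c9614 c5229 c19756 c15060 (k2 c19397 c19992 k0))) (by decide +kernel)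
def c21887 : PP 9 3 T 0x41000210000000000000000000000000000000000000000000000000000400000000004000000000002000000000000000000000010000 := rS 0x15a97d93c676d557ac7dc952f324c2935911450cd68fceb2080bf8251936fb4dc6d720f89429b100304e7d0988d6a6b318ec8f4a0d8744a0200c476a05 (k8 c21870 c5529 c160 c17712 c5642 c1114 c20811 c20794 (k8 c5211 c5520 c5332 c19421 c64 c17733 c9733 c5564 (k8 c5566 c267 c21878 c2426 c4660 c21883 c5680 c5462 (k8 c5465 c5466 c5579 c5580 c21884 c5209 c5235 c5433 (k8 c17785 c19414 c17862 c5459 c5537 c5651 c3735 c541 (k8 c537 c1573 c20845 c5663 c20765 c21886 c5506 c5584 (k4 c5585 c20927 c19626 c5649 (k2 c19357 c5490 (k1 c3618 k0))))))))) (by decide +kernel)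
def c21888 : PP 9 3 T 0x80000000000000011000010040000000000000000000000000000000000000000000000000000000000000000000000000000000000010000000000000000 := rS 0x37bc1281d91e94e3 (k8 c5549 c5211 c5520 c5332 c5209 c5235 c17862 c5538 k0) (by decide +kernel)
def c21889 : PP 9 3 T 0x8001000000000011000000000000000000000200080000000200000000000000000000000000000110000000000000000000000000001000015014000000 := rS 0x6cbbef0f6abc8ad7219063a33 (k8 c5316 c5341 c5340 c5561 c5507 c5582 c5584 c14774 (k4 c3582 c17979 c5195 c5401 k0)) (by decide +kernel)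
def c21890 : PP 9 3 T 0x48000100000000000000000000000000000000000000000000000000000000000000000000000000050000000000100000000000000008 := rS 0xf1 (k2 c5401 c20912 k0) (by decide +kernel)
def c21891 : PP 9 3 T 0x4004000000000045000000000000000000000000000004000000000000000000000000000040000000001000000001402000000000000000000614000000 := rS 0xd143b359ea855f79e07b (k8 c743 c5649 c5196 c1281 c432 c5453 c5495 c745 (k2 c2025 c20770 k0)) (by decide +kernel)
def c21892 : PP 9 3 T 0x80000000000000041000100080000000000000000080000000200000000000000000000000400000000004000000000042000000000000000001400000008 := rS 0x339a6cd68a1c88a94a99f65ef1003162ad4c1ecdc9d3889d41e1f1cedbc071f8e467b51d82c6e470d874fe3d14b8e2a41ac024f2774db1cae0f (k8 c21871 c21872 c5357 c2492 c5356 c5441 c5438 c5212 (k8 c5340 c5590 c5549 c8199 c12427 c18926 c20811 c20794 (k8 c5520 c5518 c5516 c5332 c5529 c5316 c5317 c5318 (k8 c5432 c17862 c20881 c5580 c5538 c5680 c2927 c2929 (k8 c1277 c5666 c743 c5679 c20758 c20792 c18025 c2426 (k8 c21889 c21891 c5487 c5488 c5489 c21890 c744 c1595 (k4 c2440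 c2936 c20853 c2565 k0))))))) (by decide +kernel)
def c21893 : PP 9 3 T 0x4040000001000210004005400000000000000000000000000000 := rS 0x19ad1 (k2 c1595 c2440 (k1 c20770 k0)) (by decide +kernel)
def c21894 : PP 9 3 T 0x11000000000000000000000000000000000000000000000000000000004040000001001410004005400000000000000000000000000000 := rS 0x347c099 (k4 c21893 c5679 c5459 c20854 k0) (by decide +kernel)
def c21895 : PP 9 3 T 0x49000000000000000000000000000000000100000000000000000000000440000000005000000001402000000000200040000002000000 := rS 0xa1f1b507c326721c6aa94a99de2afdaa6cf73b (k8 c5326 c743 c2492 c5529 c5406 c5401 c5487 c5488 (k8 c5489 c437 c744 c21894 c20518 c389 c390 c5576 (k2 c3000 c5680 k0))) (by decide +kernel)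
def c21896 : PP 9 3 T 0x41000110000000000000000000000000000100000000000000000000000400000000004000000000002000000000200000000000000000 := rS 0x6821d50b266b3d56ae10f79e1b39dfbcd673248de941b0ec54ee7b38ab5626e4e8602e5f4982404018888dc67d89a44f2e13fb1f2441ac7cb6a05 (k8 c21870 c5529 c5241 c5212 c5340 c21888 c5357 c18926 (k8 c5591 c5441 c5589 c5547 c5442 c5549 c9733 c160 (k8 c17712 c5642 c5438 c261 c5439 c1107 c5648 c1273 (k8 c18113 c20792 c20758 c65 c743 c5356 c5590 c20811 (k8 c20794 c5211 c5518 c5334 c9719 c64 c5582 c5326 (k8 c21895 c5649 c5224 c21882 c5683 c1281 c5453 c5495 (k4 c19105 c2993 c745 c20853 (k1 c2025 k0)))))))) (by decide +kernel)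
def c21897 : PP 9 3 T 0x5000000000000000000000000000004000100000000000000000000000040000000001000000001402000000000000000000414000000 := rS 0x54fb5a08766b3d57de786d5fa7b (k8 c743 c20782 c5529 c5649 c5224 c1281 c5453 c5495 (k4 c745 c20853 c5501 c2025 (k1 c5682 k0))) (by decide +kernel)
def c21898 : PP 9 3 T 0x41000010000000000000000000000000000000000000000000000000000400000000004000000000002000000000000000000000010000 := rS 0x77999e167b45508755ab92fed78ceb664558ab4e26e3d89d3a1894a4c2e773c9f58e092fe4a3a4121b862a9171c4cff58f90a742250e86c8e0239d280223dac45fa05 (k8 c21870 c20782 c160 c5529 c9733 c17712 c5211 c9719 (k8 c5642 c5520 c20794 c20811 c1114 c21887 c8199 c5241 (k8 c5212 c18926 c5547 c5549 c5589 c5590 c5591 c5561 (k8 c5340 c5341 c21888 c5439 c5438 c5357 c5442 c5441 (k8 c5356 c1107 c261 c21892 c5648 c1273 c380 c743 (k8 c18113 c65 c20758 c20792 c21896 c21890 c21897 c5323 (k8 c17748 c1227 c3582 c1286 c745 c5682 c2025 c2451 (k4 c20854 c20770 c5195 c5495 k0)))))))) (by decide +kernel)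
def c21899 : PP 9 3 T 0x55000020000000000000000000000008000000000000000000000000000400000000004080000000000000000000000000000000000000 := rS 0x3dff3f12842c936b865e235f6b384b58f052f2529 (k8 c19356 c5209 c18477 c5225 c17849 c5559 c20907 c5543 (k8 c5324 c5323 c1227 c1767 c1637 c5648 c1068 c5680 (k2 c17692 c20829 (k1 c5201 k0)))) (by decide +kernel)
def c21900 : PP 9 3 T 0x41000000000000000000000000000008000000000000000000000000000400000000004008000000002000000000000000000000010000 := rS 0x24f8a2aa1390004003118de221f3182476e11cb7c83a1ac78297b5c94a73805 (k8 c21870 c21898 c19356 c5209 c5529 c18477 c5225 c17849 (k8 c20946 c5340 c5538 c5534 c5460 c5456 c9669 c19420 (k8 c2316 c160 c1568 c481 c261 c5650 c5642 c17749 (k4 c1196 c1290 c5680 c345 (k1 c17960 k0))))) (by decide +kernel)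
def c21901 : PP 9 3 T 0x1000000000000055000020000000000000000000000000000000000000000000000000000600000000014000000000000000000000000000000000000000 := rS 0x3dff36bf8b2529 (k4 c19356 c5209 c5680 c2190 (k2 c17692 c20829 (k1 c5201 k0))) (by decide +kernel)
def c21902 : PP 9 3 T 0x45000000000000000000000000000008000000000000000000000000000400000000004000000000002000000000000000000000010000 := rS 0x2bd63eef1a804e180ea4c2ead6425554a94bc745225f6f7eb0ce68f82961b7891487b57ee4a539c (k8 c21898 c19356 c5209 c20782 c5529 c5478 c5326 c5323 (k8 c5475 c18477 c5225 c5459 c20907 c17849 c20882 c5543 (k8 c5559 c5339 c5341 c21899 c2451 c5682 c2125 c5678 (k8 c2068 c1064 c21900 c2062 c5648 c380 c21901 c5578 (k4 c5196 c5506 c5584 c3582 k0))))) (by decide +kernel)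
def c21903 : PP 9 3 T 0x45000000000000000000000000000000000000000000000000000000000400000000004000000000002000000000000000000000010000 := rS 0x184e05d261d0d808020b11d2bc2cfef4ef6a790497d8e77c94a73805 (k8 c21870 c21898 c19356 c5209 c5356 c5357 c9668 c9669 (k8 c5524 c5529 c21902 c5224 c5453 c20907 c5225 c5331 (k8 c5516 c665 c5642 c20794 c20811 c261 c1107 c21897 (k2 c5648 c1273 k0)))) (by decide +kernel)
def c21904 : PP 9 3 T 0x1000020000000000000000000000000000000000000000000000000004000000001000010000000002000000000000000000000000000 := rS 0x41600865260b118ee949cf0ed4f6873c97cee9b63e4a5205 (k8 c21870 c19356 c5209 c5357 c2492 c5356 c9668 c5524 (k8 c5373 c5372 c5529 c20907 c21894 c5225 c5332 c5331 (k4 c5516 c1694 c1273 c665 (k2 c5648 c5642 (k1 c1107 k0))))) (by decide +kernel)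
def c21905 : PP 9 3 T 0x1000020000000000000000000000000000000000000000000000000008000000000000054000000002040000000000000000011000000 := rS 0x13a7986a960a7ab21ee001a98446030b6d43e632fb1cef9294fb53a05 (k8 c21870 c10444 c5543 c19356 c5209 c5356 c5357 c9668 (k8 c19420 c2316 c5529 c5648 c1107 c1258 c1460 c1619 (k8 c5642 c8123 c20791 c2340 c665 c14904 c1064 c20781 (k2 c5657 c5475 k0)))) (by decide +kernel)
def c21906 : PP 9 3 T 0x41000000000000000000000000000000000000000000000000000000000400000000004008000000002000000000000000000000010000 := rS 0x79d2c14007bbd67603118df6a1f0e8efbe7b04b34ef9294fb59ca94aecb3805 (k8 c21870 c21898 c21903 c5488 c5489 c21904 c5543 c19356 (k8 c5209 c5356 c139 c9669 c5372 c5453 c20873 c5486 (k8 c2316 c5529 c1568 c481 c261 c21900 c2339 c8123 (k4 c5642 c665 c5516 c20781 (k1 c5657 k0))))) (by decide +kernel)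
def c21907 : PP 9 3 T 0x5002000000000041000020000000000000000000000000000000000000040000000000400400001200004000000000000000000000000000000000000000 := rS 0x3c51350c072529 (k4 c19356 c5209 c2144 c1198 (k2 c21166 c5680 (k1 c11976 k0))) (by decide +kernel)
def c21908 : PP 9 3 T 0x1000400000000059000020000000000000000000040004000000000000000014000000000400001000004000000000000000000000000011005004000000 := rS 0x167f37f12088b16bc0c64f656abc3a4314c77df58f064a52f1 (k8 c5401 c19356 c5209 c5225 c17849 c17816 c5341 c5339 (k8 c5561 c5486 c5406 c5490 c5657 c5653 c2195 c2185 (k4 c21907 c3582 c503 c504 (k2 c5588 c2894 (k1 c20587 k0))))) (by decide +kernel)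
def c21909 : PP 9 3 T 0x49000020000000000000000000040000000000000000000000000000000400000000004000000000002000000000000010005000000008 := rS 0x78d4313409c342459d2d4624b14bceb022f007cfa7f78fb7bee14eed536c7c94a4362106bd59ca94a9cc0205 (k8 c21870 c28 c9719 c5488 c5489 c21904 c2340 c5522 (k8 c265 c20794 c19356 c5209 c5357 c2492 c5529 c10444 (k8 c13096 c5453 c5543 c5401 c5358 c5442 c2316 c5225 (k8 c5650 c17849 c447 c5339 c5342 c1474 c11945 c21908 (k8 c5326 c20946 c21890 c752 c756 c2929 c17854 c5680 k0))))) (by decide +kernel)
def c21910 : PP 9 3 T 0x41000000000000000000000000000000000000000000000000000000000400000000004000000000002000000000000000000000010000 := rS 0x48b670ac11465a19d8dc174a3989402351380830934eb395295338752ef1d91dd8f92949e739b5 (k8 c5529 c21898 c5524 c19356 c5209 c5357 c5356 c21903 (k8 c5401 c5404 c5486 c5487 c5488 c5489 c21904 c10444 (k8 c21906 c21905 c9701 c380 c437 c28 c1114 c9719 (k8 c21909 c5516 c5518 c18477 c18470 c20518 c21895 c5212 (k4 c21890 c2041 c20501 c2868 k0))))) (by decide +kernel)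
def c21911 : PP 9 3 T 0xa000000000000000000000000000000000200080000000000000000000000000040000000000000000000000000000000000000010000000000000000 := rS 0x39708ec9237 (k4 c5518 c5334 c5332 c5460 (k2 c5534 c17960 k0)) (by decide +kernel)
def c21912 : PP 9 3 T 0x1000000000140000120000000000000800000080000000000000000000000140000008004000000000000000000000000000004155000000000000000 := rS 0x1e5f8b03eb0d77fdb4bad91fb7be492782c8e4d2ac74a758 (k8 c5212 c5563 c5341 c5343 c5521 c5520 c5516 c5335 (k8 c5334 c5453 c5543 c5351 c5602 c17719 c5243 c5597 (k4 c5640 c17833 c3592 c17926 (k2 c5618 c5205 k0)))) (by decide +kernel)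
def c21913 : PP 9 3 T 0x1000000000140000120000000000000000000080000000000000000000000140000008000000000000000000150020000000004155000000001800088 := rS 0x77de64fac60e145c2b16e370321d4e3e4ba4b38a5865e (k8 c1107 c4318 c8199 c21912 c5213 c5391 c5608 c5388 (k8 c5606 c5607 c5611 c269 c1115 c5652 c1348 c412 (k4 c1357 c758 c679 c1504 (k1 c3612 k0)))) (by decide +kernel)
def c21914 : PP 9 3 T 0x502000000000000a000000000040000000000000000000000000000040020000140000000400500000404000000000000000000000000000000000000000 := rS 0x1f786fc708da77a8d4aa1 (k8 c5398 c5399 c5449 c5473 c6804 c3622 c5627 c3496 (k2 c5638 c17844 k0)) (by decide +kernel)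
def c21915 : PP 9 3 T 0x5a000020000000000000000000080000000000000000000000000000008400000000004000000001000000000004100000005000000001 := rS 0x63ef3add5d9bcb0fd4e970ea75eee3c30081baddabf718ffc45e032d0fe166f82625f36984d61ef5086537ed63a451f292482c361d108355ef1c199f23934ea5c82931e90c52ad8ed60fa813868676023995c1e05 (k8 c21870 c21871 c21872 c9719 c5642 c18477 c18470 c21890 (k8 c752 c2870 c5212 c5341 c5490 c8199 c5252 c12427 (k8 c5444 c13854 c5404 c1650 c18631 c5491 c5487 c5407 (k8 c5401 c5406 c5522 c265 c20811 c20794 c5516 c5334 (k8 c19356 c5526 c5374 c20739 c5543 c5397 c5393 c5398 (k8 c17816 c3582 c2868 c2086 c21184 c17964 c17953 c2565 (k8 c16340 c809 c756 c5643 c1107 c5670 c8336 c17330 (k8 c8097 c5467 c5581 c2633 c21166 c21911 c21913 c5617 (k8 c5428 c5429 c20789 c1803 c2250 c21914 c5217 c5600 (k4 c5602 c678 c1458 c5671 k0)))))))))) (by decide +kernel)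
def c21916 : PP 9 3 T 0x400100000000020a000000000000000000000000000000000100000000020000140000008400400200004000000000000000000050000000400554000000 := rS 0x3e3f5a32e35e2bb7d9bcb0fd28b70ea75efb7bef1c199f2393 (k8 c18631 c5491 c5487 c5407 c5401 c5453 c5543 c5617 (k8 c5428 c5429 c5612 c20789 c2250 c21914 c5217 c5349 (k4 c5601 c5603 c17890 c3583 (k2 c5632 c5624 (k1 c5205 k0))))) (by decide +kernel)
def c21917 : PP 9 3 T 0x8000000000140000120000000000000800000080000000000000000000000000000008000000000000000000000000000000004151000000000000000 := rS 0x30dda3f75f85bf58 (k8 c5212 c5580 c21911 c5581 c5576 c5467 c5348 c21912 k0) (by decide +kernel)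
def c21918 : PP 9 3 T 0x800000000004a000120000000000000000000080000000000000000000000000000008400000200004000000000020000000004151000008040000008 := rS 0x158b70321d259f722f9488c9e4d0d874420dc88a51a675f849daeb80786b10371e4d02df639fcfbedf7b4d2ead (k8 c5490 c5404 c5579 c8156 c5543 c2870 c5577 c20739 (k8 c5580 c752 c18631 c5466 c2633 c5212 c21911 c19149 (k8 c5581 c5467 c267 c5015 c5487 c753 c8199 c5491 (k8 c5522 c265 c20811 c20794 c5521 c5335 c5331 c19356 (k8 c19838 c21916 c21917 c5213 c5606 c5607 c269 c1115 (k1 c5652 k0)))))) (by decide +kernel)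
def c21919 : PP 9 3 T 0x8000000000140000120000000000000000000080000000000000000020000000000008000000110000000100000020000000004151000008000000008 := rS 0x21f0d85c9d7922c28b8562dc6e06437f92e92ce29 (k8 c8199 c21917 c5213 c5391 c5389 c5606 c5607 c5611 (k8 c269 c1115 c5652 c1348 c592 c593 c758 c5003 (k2 c3308 c2905 (k1 c20753 k0)))) (by decide +kernel)
def c21920 : PP 9 3 T 0x502000000000000a000000000040000000000000000000000000000000020000140000200400500000404000000000000000000000000000000000000000 := rS 0x21cef (k2 c5473 c21914 (k1 c3123 k0)) (by decide +kernel)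
def c21921 : PP 9 3 T 0x800000000004a000120000000000000000000080000000000000000000000000000008400000000004000000000020000000004151000008040000008 := rS 0x7d171f1b7d9bcba5c3a9d7bb86a2c601ef81f85d6df699fddae36bfb7bec79488c9e4d0d874420d56bc52f83c8e4cab1d29d60fa814699d7e12 (k8 c267 c5015 c5487 c753 c752 c2870 c5212 c5563 (k8 c5341 c5343 c18631 c5491 c5407 c5404 c5401 c5490 (k8 c5522 c265 c20811 c20794 c5521 c5335 c5331 c19356 (k8 c20739 c5453 c5543 c5465 c5466 c5467 c5577 c5579 (k8 c5580 c5581 c21911 c2633 c8156 c19149 c21918 c17820 (k8 c21919 c5617 c5428 c5429 c20789 c21920 c5217 c5349 (k4 c19891 c17890 c5205 c5632 k0))))))) (by decide +kernel)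
def c21922 : PP 9 3 T 0x4a000020000000000000000000080000000000000000000000000000008400000000004000000000002000000004100000001000000000 := rS 0xd4663e041fbc61213204fa700f9e533291b9cf2641498f48629d0cef6a020082d5a05 (k8 c21870 c5490 c5516 c665 c5642 c5529 c18477 c18470 (k8 c8199 c5252 c12427 c5444 c13854 c18631 c9719 c5518 (k8 c19356 c5447 c2428 c2316 c21890 c2870 c752 c21915 (k8 c267 c21921 c5670 c2918 c2917 c20738 c441 c20518 k0)))) (by decide +kernel)
def c21923 : PP 9 3 T 0x2000000000000000000000000080004000100000000000001000000008000000000001000000080000000000000200000000100010008 := rS 0x340b8cc0ed549a659a37 (k8 c5518 c139 c5447 c5444 c20749 c676 c390 c1108 (k2 c20518 c15161 k0)) (by decide +kernel)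
def c21924 : PP 9 3 T 0x2000000000000000000000000000000000000000000000000000000000000000000000000000020000000000000001000000000000008 := rS 0xb8fc0e57 (k4 c21872 c1456 c2824 c1108 (k1 c17814 k0)) (by decide +kernel)
def c21925 : PP 9 3 T 0x2000000040000000000000000000000000100000000000000000000000400000000000040000200000040000000210000000000000000 := rS 0xec332f819aa95 (k4 c5446 c20766 c12653 c1746 (k2 c390 c20857 (k1 c673 k0))) (by decide +kernel)
def c21926 : PP 9 3 T 0x48000020000000000000000000080000000000000000000000000000008400000000004000000000002000000000000000000000010000 := rS 0x40fc2df71f89027d3fc07de441e904975814a77439333a5de3b5499e533b0f6b1e52499d89442020082c1a05 (k8 c21870 c5522 c5516 c665 c5642 c265 c1114 c18477 (k8 c5334 c19356 c20739 c5543 c21910 c5447 c2428 c5444 (k8 c5529 c5401 c5404 c5487 c18631 c18470 c1650 c8199 (k8 c5212 c12638 c13854 c12427 c21922 c5582 c3066 c21923 (k8 c21924 c21925 c5670 c17330 c5580 c21911 c2633 c19149 k0))))) (by decide +kernel)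
def c21927 : PP 9 3 T 0x40000020000000000000000000080000000000000000000000000000008400000000004000000000002000000000000000000000010000 := rS 0x3c155b30e86c04019d82c47b57ea676005 (k8 c21870 c21910 c5447 c20782 c5529 c5331 c5516 c18477 (k8 c665 c5642 c20794 c20811 c21926 c13265 c5649 c1281 k0)) (by decide +kernel)
def c21928 : PP 9 3 T 0x8000000000054000020040000000000000000040000000000000000000000000000008000000000000000000010000000000000000000000000000000 := rS 0x18ec32468f7dd58f9b1cb73af6905023f3fb4dbe57 (k8 c21872 c5580 c5579 c5577 c5576 c5463 c5462 c5543 (k8 c5228 c5474 c20739 c17861 c5231 c5201 c5560 c5505 (k4 c17860 c20761 c20297 c672 k0))) (by decide +kernel)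
def c21929 : PP 9 3 T 0x42000000000000000000000000000000000000000000000000000000000000000000000000000020000000000000000000000000000008 := rS 0x56079a1 (k4 c5566 c21924 c5212 c5560 k0) (by decide +kernel)
def c21930 : PP 9 3 T 0x8000000000054000020000000000000000000040000000000000000000000000000008000000000000000000010000000000000000000000000000000 := rS 0x1eec97cdbe7f6ba07dac7 (k8 c20739 c5543 c5463 c5465 c5577 c5580 c17861 c21928 (k2 c5201 c20829 k0)) (by decide +kernel)
def c21931 : PP 9 3 T 0x2000000080000000000000000040000000100000000000000000000000000000008000000000000000040000000000500000000000008 := rS 0x4ea582e772fb24c295 (k8 c5446 c5445 c5396 c5439 c5356 c1107 c20913 c13264 (k1 c1284 k0)) (by decide +kernel)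
def c21932 : PP 9 3 T 0x4000000000040000000040000000000000000040008000100000000000000000000000400000008004080000010000000000000000500000000010008 := rS 0xfeb31cd01fc7a81030a4825e0b271ae25 (k8 c1114 c1767 c1284 c13264 c1107 c1736 c1307 c1108 (k8 c1746 c12427 c676 c5670 c20878 c20946 c406 c5655 k0)) (by decide +kernel)
def c21933 : PP 9 3 T 0x44000020000000000000000000000000000000000000000000000000008400000000004000000000002000000000000000000000010008 := rS 0x1dcbe061905d3a97c9f8cfa220e87d261931b24c2959499d54fd4cec10ef12d86c623b1a8e5e73aa5ed7dbdf68b34ae05 (k8 c21870 c21872 c139 c174 c5453 c5543 c5529 c21927 (k8 c5228 c5325 c6897 c5324 c1646 c5476 c5475 c5474 (k8 c5323 c5373 c21910 c5447 c20782 c13265 c2123 c19356 (k8 c5446 c5445 c5396 c5395 c5393 c5444 c2316 c20811 (k8 c6197 c21929 c21930 c21931 c21932 c1650 c1258 c3577 (k4 c20297 c1450 c672 c20791 k0)))))) (by decide +kernel)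
def c21934 : PP 9 3 T 0x44000020000000000000000000000000000000000000000000000000008400000000004000000000002000000000000000000000010000 := rS 0x481f263e3b38c92972faca2a7f6fb853a72f06848e4b208f46e20ac00006391d96de63533ce955b535c45fa6364a54f6613ca6761edefb459a8794d2cae05 (k8 c21870 c21872 c21927 c19356 c5373 c139 c174 c5453 (k8 c5543 c21910 c5447 c2428 c5445 c742 c5446 c5396 (k8 c5395 c20782 c160 c64 c5529 c13265 c5228 c2123 (k8 c5324 c5325 c5474 c1646 c6897 c21933 c5642 c20072 (k8 c666 c20063 c5560 c5340 c5342 c5562 c20946 c5654 (k8 c17749 c5458 c5460 c5538 c806 c1290 c934 c1314 (k8 c1284 c345 c2459 c20791 c3590 c5356 c672 c276 (k1 c5643 k0)))))))) (by decide +kernel)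
def c21935 : PP 9 3 T 0x40000020000000000000000000040000000000000000000000000000008000000011000000000000002040000000000000000010010002 := rS 0x2070124bfd6515891cb42459d3cdeab523bdc1420ac08f6b117e87fda05 (k8 c21870 c5543 c2316 c20782 c160 c5529 c9731 c20072 (k8 c666 c665 c8123 c5562 c4733 c2420 c20781 c17966 (k8 c5326 c20946 c17749 c933 c1290 c934 c20798 c345 (k2 c15060 c4650 (k1 c18038 k0))))) (by decide +kernel)
def c21936 : PP 9 3 T 0x2000000040000000000000000000008000000000000000001000000000000000000000040000000000040000000000001000014400000 := rS 0x772f818645b1aa4c3263649852a57 (k8 c21872 c5446 c5445 c5396 c5395 c5393 c5444 c5324 (k4 c5474 c3577 c20297 c1450 (k2 c672 c20791 k0))) (by decide +kernel)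
def c21937 : PP 9 3 T 0x40000000000000000040004000100000000000004000000008000000000000000004000800000000000000010000000000000 := rS 0x5b033d864f5f6f7c6257 (k8 c21872 c1474 c5453 c5543 c2340 c5653 c5657 c20297 (k2 c2101 c672 k0)) (by decide +kernel)
def c21938 : PP 9 3 T 0x40000000000000000040004000100000000000004000000008000000000000000000001000000000000000020000000000000 := rS 0x6ef4043dc0e3bf077fda57 (k8 c21872 c5543 c5453 c5165 c5456 c20806 c501 c5643 (k2 c5657 c1510 (k1 c2339 k0))) (by decide +kernel)
def c21939 : PP 9 3 T 0x40000020000000000000000000000000000000000000000000000000008400000000004000000000002000000000000000000000010000 := rS 0xbc063b8c86b3b1885de6220d808029dc999c3a9778ab7654b94a1f6a1f4a9e7bea94cec0ae05 (k8 c21870 c21872 c21910 c5447 c2450 c5453 c2428 c5446 (k8 c2316 c5529 c5373 c19356 c21927 c21934 c5490 c5401 (k8 c5404 c5486 c5487 c18631 c1650 c21935 c5642 c20794 (k8 c6197 c447 c1258 c1474 c21936 c21938 c5653 c21937 (k2 c20297 c20857 (k1 c1450 k0)))))) (by decide +kernel)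
def c21940 : PP 9 3 T 0x400000000000140000440000800001000000151006000000000000000000000000000 := rS 0x38d2311 (k4 c160 c2897 c2459 c14947 k0) (by decide +kernel)
def c21941 : PP 9 3 T 0x2000000000000011000040000000000800000080000000000000000000000000000000000000000000000000000000000000000000000000000000080 := rS 0x18fbcf975bab (k4 c5600 c5602 c7668 c678 (k2 c1458 c5671 k0)) (by decide +kernel)
def c21942 : PP 9 3 T 0x100200000000020a000000000000000000000000080000000100000000000000000000000000040008001000000000000000800000000000000000000080 := rS 0x20bf583fc570daf259e13a9d2adf0ea751a6d338333e4726e7 (k8 c5461 c18631 c5491 c5487 c5407 c5447 c5397 c5449 (k8 c5428 c5429 c5616 c20789 c1803 c2241 c21941 c5217 (k4 c6804 c17955 c5627 c3444 (k2 c5632 c3390 (k1 c5695 k0))))) (by decide +kernel)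
def c21943 : PP 9 3 T 0x2000000000102000000000000000000400000000000000000000000000000000000000040000000000000000000002000000000000000000600000088 := rS 0x3a6f37b5b305722e158b7138190ea71f8bd2064f6613ca65cee5 (k8 c5539 c5461 c5447 c2428 c5445 c742 c5393 c5213 (k8 c5390 c5608 c5388 c5606 c5607 c5610 c269 c1115 (k8 c5652 c1298 c412 c591 c749 c679 c2466 c3611 k0))) (by decide +kernel)
def c21944 : PP 9 3 T 0x142000010040000000000000200000000000000000000000000000000000440000000000000000000002000800000000000000200010080 := rS 0xbd5fe17ef80537d351a5b308c924726954965337e3741e36ff80f6613ca64834a409f4040188ed4fe05 (k8 c21870 c676 c5529 c160 c17712 c5642 c21929 c1746 (k8 c5211 c1735 c5447 c2428 c5445 c742 c5669 c5538 (k8 c21911 c5670 c5569 c5565 c5563 c5342 c5343 c5521 (k8 c5520 c5334 c9733 c21943 c17797 c21941 c5242 c1803 (k4 c1804 c17833 c1350 c1159 (k2 c3240 c5687 k0)))))) (by decide +kernel)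
def c21945 : PP 9 3 T 0x200000000020a000000000000000000000000080000000100000000000000000000008000040000000000000000000000800000000000000000000080 := rS 0x417eb07f8c2570da74f92cfa955e956f8753a8d3699f6e0ccf91c9a752ee7 (k8 c5461 c5404 c1650 c18631 c5491 c5487 c5407 c5543 (k8 c5447 c5397 c5449 c5428 c5429 c5616 c20789 c21942 (k8 c1803 c21941 c5217 c5472 c6804 c17955 c2683 c5627 (k4 c3444 c5632 c3391 c5695 k0)))) (by decide +kernel)
def c21946 : PP 9 3 T 0x4a000010000000000000000000000000000100000000000004000000008400000000000000000000402000000000000008000000010000 := rS 0x989b4159dc8a576200b030bc5b4abdc16f5a5094040188ed52e8733f80f6613ca658e06c983cae05 (k8 c21870 c21872 c21871 c18631 c20297 c20739 c5447 c2428 (k8 c5445 c742 c5669 c5487 c744 c5404 c5529 c160 (k8 c17712 c5642 c1114 c5211 c5519 c5516 c5333 c5446 (k8 c2041 c20857 c20774 c1450 c2426 c4763 c1307 c21945 (k4 c21944 c5212 c5651 c5564 (k1 c267 k0)))))) (by decide +kernel)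
def c21947 : PP 9 3 T 0x40000000000000000000000100000000000000000000000000000000000000000000000000000000000000000000000000011000000008 := rS 0x4c4da0 (k4 c5212 c5651 c5564 c267 k0) (by decide +kernel)
def c21948 : PP 9 3 T 0x4006400000000110000210040000000000800000000000000000000000000000000000000000000000000000000000800000001404000000000000010080 := rS 0x7c2fdf7d47d34be52491c9b4a (k8 c5211 c5521 c5520 c5334 c7668 c17797 c5242 c21941 (k4 c17833 c988 c5206 c5511 k0)) (by decide +kernel)
def c21949 : PP 9 3 T 0x4004400000000102000210040000000000000000000000000000000000000000000000000040000000000000000000802000001404000000000000810080 := rS 0xe9bcdef58c15c8b8562dc4e0643a9c7e2f49670c8dc461f0100623b573b97c07b309e53205 (k8 c21870 c5447 c2428 c5445 c742 c5669 c5539 c5461 (k8 c5529 c160 c17712 c5642 c2316 c9733 c8484 c5393 (k8 c21948 c5213 c5390 c5608 c5388 c5606 c5607 c5610 (k8 c269 c1115 c5652 c1298 c412 c1357 c749 c679 (k2 c1502 c3611 k0))))) (by decide +kernel)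
def c21950 : PP 9 3 T 0x4a000010000000000000000000000000000100000000000000000000008400000000000000000000802000800000000000000000010080 := rS 0x2ef71ef1384f41e32992cab5814a042ddfa506c4a7d0100623b578b7fc1933d984f29963904fe05 (k8 c21870 c676 c1735 c20739 c5447 c2428 c5445 c742 (k8 c18631 c5669 c5538 c5401 c5529 c160 c17712 c5642 (k8 c21929 c1114 c20794 c5211 c5453 c1450 c1746 c1307 (k8 c21947 c5343 c5342 c5563 c21911 c5670 c5564 c267 (k4 c17816 c21949 c5430 c21945 k0))))) (by decide +kernel)
def c21951 : PP 9 3 T 0x2000000000020a000000000000000000000000000000000000000000000000004000008000040000000000000000000000000000000000000000000000 := rS 0x105fac1fe3095c369d2a34da67db834ea5f0eb7 (k8 c5616 c5429 c5404 c1650 c5407 c5543 c5447 c5397 (k8 c5449 c5472 c6804 c17955 c2683 c5627 c3444 c5632 (k2 c3390 c5695 k0))) (by decide +kernel)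
def c21952 : PP 9 3 T 0x200000000020a000000000000000000000000080000000100000000000000000000008000040000000000000000800000000000000010000014000080 := rS 0x1b146d46bc576fb37974a2dc38bde38333e4726e7 (k8 c5461 c18631 c5491 c5487 c5407 c5401 c5425 c5429 (k8 c5612 c20789 c21951 c5217 c5349 c5601 c5603 c21941 (k2 c3583 c989 (k1 c3335 k0)))) (by decide +kernel)
def c21953 : PP 9 3 T 0x1040000000000a500000000000000040000000004000000000000000000000000010000004000000000000000000000000000000000000540014400000 := rS 0x29d82da6cfc70c9351a9432c978a5f0791 (k8 c5491 c5407 c5404 c5401 c5396 c5393 c5399 c5449 (k8 c5444 c3583 c5512 c2095 c5690 c3376 c1669 c3580 k0)) (by decide +kernel)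
def c21954 : PP 9 3 T 0x200002000000000000010000004500010000000000000000000000000000000000000000000040000000000000000005000000000000000000000000000000 := rS 0xbdba5cee5 (k4 c5539 c5461 c5555 c5631 (k1 c3611 k0)) (by decide +kernel)
def c21955 : PP 9 3 T 0x200000000004a002000000000000000800200080000000100000000000000000000000400000000000000000040040000000000010000000000010008 := rS 0x229c501a1f1954fa9733e4dbe53 (k8 c5605 c5538 c18631 c5487 c5404 c21929 c5343 c21911 (k4 c17797 c5670 c752 c21925 (k1 c21890 k0))) (by decide +kernel)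
def c21956 : PP 9 3 T 0x1000000000000048000010000000000000000100000000000000000000000004000000000000000001000000000000002000000000000000000000010000 := rS 0x808a340fd0d8744a0200c476aad7899c1e05 (k8 c21870 c21871 c5487 c5401 c5490 c5529 c160 c17712 (k8 c5642 c1114 c20811 c20794 c20782 c5212 c21947 c19400 (k1 c19399 k0))) (by decide +kernel)
def c21957 : PP 9 3 T 0x200000000005a002010000000000000800200000000000100000000000000000000008400000000000000004001040000000000000001000000010008 := rS 0x34962fe6bc05228d0bc0fe48f899c00ed5d09f9261964f7d8e1b56abde297339563a53f1b7c834a (k8 c5211 c5340 c5538 c21911 c5563 c5341 c5343 c5487 (k8 c5404 c5401 c5406 c5490 c20794 c20739 c5453 c5396 (k8 c5393 c5444 c21955 c17797 c20749 c676 c17735 c809 (k8 c2924 c5241 c2634 c1108 c753 c5589 c5592 c14269 (k4 c20819 c15326 c9617 c2942 k0))))) (by decide +kernel)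
def c21958 : PP 9 3 T 0x4400000000002000000000000000000000000000000000000000400050000000040400400000050000041004081000000000000000000000000000000 := rS 0x3f9a4b146a3daac9 (k8 c5396 c20749 c2924 c808 c15326 c9617 c20762 c2942 k0) (by decide +kernel)
def c21959 : PP 9 3 T 0x400000000005a000110000000000000000000000000000100000000000000000040008400000000000000004001040000000000010000000000000008 := rS 0x8a71401fdaf0148c0dc713f977cfaad57a5ccf93 (k8 c18631 c5487 c5404 c5406 c5490 c21929 c5453 c5241 (k8 c5547 c5549 c5550 c5589 c5592 c1769 c21958 c5670 (k2 c752 c21925 (k1 c21890 k0)))) (by decide +kernel)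
def c21960 : PP 9 3 T 0x4000000000000005a002010000000000000000200000000000100000000000000000000008400000000000000004005040000000000000001000000010088 := rS 0x3edf575de586c11759c562ddce37138190ea71f8b0c9f70667c894d03a0f1d2882dff064d8e7f (k8 c676 c20739 c18631 c5669 c5538 c5340 c5211 c21911 (k8 c21959 c5380 c5563 c5491 c5487 c5407 c21929 c5393 (k8 c5390 c5608 c5388 c5606 c5607 c5610 c5611 c20789 (k8 c269 c1115 c21957 c5652 c412 c1792 c679 c21516 (k2 c21954 c5203 (k1 c9954 k0)))))) (by decide +kernel)
def c21961 : PP 9 3 T 0x48000000000000000000000000000004000000000000000004000000008400000000004000000000002000000000000000000000010000 := rS 0x167dcaec18200b97f4a76197cc6a06f78244e13d04a7c65325904ab5849a8433edefaa694b5359cc62371187c361d78a752e8733b84fa0200c476a396ff83267b30e74f299d831cae05 (k8 c21870 c21872 c20739 c21910 c5447 c2428 c21939 c5445 (k8 c742 c18631 c5669 c5538 c5534 c5529 c160 c17712 (k8 c5642 c21929 c10249 c5487 c744 c5404 c1650 c5401 (k8 c20811 c20794 c2316 c9733 c8484 c1473 c9719 c64 (k8 c17733 c5211 c2450 c5453 c5543 c5393 c5398 c5444 (k8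 c21956 c5343 c5340 c5342 c5563 c21911 c19369 c21959 (k8 c5564 c267 c17953 c17816 c5643 c20806 c20087 c5653 (k8 c21946 c21960 c21950 c1107 c17923 c265 c4763 c21952 (k2 c21948 c5213 k0))))))))) (by decide +kernel)
def c21962 : PP 9 3 T 0x200000000005a000010000000000000000200000004000000000000000000000100008400001000004000004001000000000000000044000000000001 := rS 0x481c2634d04a7c64149a84334a3980b269d4bb7cae05 (k8 c21870 c21872 c5538 c5404 c1650 c18631 c5642 c9719 (k8 c5211 c5393 c5398 c5444 c5340 c21911 c19369 c21959 (k4 c20518 c5564 c20806 c17953 (k1 c5643 k0)))) (by decide +kernel)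
def c21963 : PP 9 3 T 0x48000000000000000000000000000004000000000000000000000000008400000000004000000000002000000000000000000000010000 := rS 0x3f35d65e31a08207014885c8b1537c4d0228d056466f2498659295efd296a6b188dc461f0d8744aad57bc53a974399dc27d0100623b51cb7fc1933d9873a794cec18e05 (k8 c21870 c20739 c21910 c5447 c2428 c21939 c5445 c742 (k8 c18631 c5669 c5538 c5534 c5529 c160 c17712 c5642 (k8 c21929 c10249 c5487 c744 c5404 c1650 c5401 c5406 (k8 c5490 c1114 c20811 c20794 c2316 c9733 c8484 c1473 (k8 c64 c17733 c5211 c5453 c5446 c5396 c5393 c5444 (k8 c21961 c387 c21962 c5212 c21947 c5380 c5382 c5565 (k8 c1289 c456 c1307 c747 c15060 c2628 c17923 c3577 (k4 c17754 c541 c1764 c21940 (k1 c21958 k0))))))))) (by decide +kernel)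
def c21964 : PP 9 3 T 0x48000000000000000000000000000000000000000000000000000000008400000000004000000000002000000000000000000000010000 := rS 0x1b9031797620ac4a42c0c798d675e043e4cce97789ecc279f6b1d520ba50c46e234cec03e1b0e808039d88ed41e05 (k8 c21870 c21871 c5529 c160 c21939 c17712 c5642 c20811 (k8 c20794 c2316 c21910 c5447 c9733 c8484 c1473 c5211 (k8 c5516 c2450 c20739 c5543 c2428 c5445 c742 c5401 (k8 c5404 c5487 c18631 c744 c5669 c21963 c5324 c5325 (k8 c20783 c21936 c17904 c21956 c2426 c4763 c1107 c1108 (k2 c21945 c21944 k0)))))) (by decide +kernel)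
def c21965 : PP 9 3 T 0x2000000000050000010000000000000000200000008000000000000000000000000008000000000000000000000000000000000000000000000000000 := rS 0x34fde3e6bbfa02e3f9684971d208f5eef523d2886451cbcfdbdf68b35c2df (k8 c5538 c5460 c139 c174 c5453 c5543 c5325 c6897 (k8 c5326 c5478 c5211 c5520 c5519 c5333 c5560 c5340 (k8 c5341 c5342 c20946 c5241 c5549 c5592 c17808 c1769 (k4 c17954 c19710 c2942 c14449 k0)))) (by decide +kernel)
def c21966 : PP 9 3 T 0x1000000000000040000010000000000000000100000008000000000000000001000000000000000001000000000000002000000000000000000000010000 := rS 0x6780ab55f1cf7a3451a07ebde941d128080311dabcc1e05 (k8 c21870 c21871 c5325 c5529 c160 c17712 c5642 c1114 (k8 c20811 c5211 c5333 c20782 c5212 c21947 c5381 c20927 (k4 c20878 c1243 c2028 c2139 (k2 c5282 c19399 k0)))) (by decide +kernel)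
def c21967 : PP 9 3 T 0x40000000000000000000000000000000000000000000000000000000008400000000004000000000002000000000000000000000010000 := rS 0xfdbed3f7ab5af0170b8f25f2f0e8497581cbcc8a439d3c555b30e86c8ef5248ec0437a5004479d54b1d9ad1effb76b117e87cf6613ca676005 (k8 c21870 c21910 c5447 c2428 c5445 c742 c2316 c20782 (k8 c160 c5529 c5543 c5453 c174 c139 c20739 c2450 (k8 c21939 c9733 c17712 c5211 c8484 c5642 c5332 c5334 (k8 c5519 c5520 c20794 c20811 c21964 c13265 c1281 c5649 (k8 c5478 c5326 c5325 c6897 c21966 c5342 c20946 c21965 (k8 c5241 c5669 c5549 c5591 c5592 c1769 c2127 c19710 (k4 c20105 c2565 c14449 c12667 k0))))))) (by decide +kernel)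
def c21968 : PP 9 3 T 0x1000000000002000010000000000000000000000000000000000000000000000000000000000000000000000000002000000000000000000000800000 := rS 0xc603178d61f0c9e5320200c476a05 (k8 c21870 c5529 c160 c17712 c5642 c5447 c2428 c5393 (k4 c2316 c64 c1107 c1108 (k2 c6192 c13650 k0))) (by decide +kernel)
def c21969 : PP 9 3 T 0x4000000000000044000000000000000000000200000000000000000000000000000000040400000010014084000000000000000000100000000001400000 := rS 0x4cae1fac5afdf128f45241 (k8 c5340 c5339 c5560 c5559 c5452 c1767 c1333 c14449 (k2 c5683 c3579 (k1 c2986 k0))) (by decide +kernel)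
def c21970 : PP 9 3 T 0x1000000000044000010000000000000000200000008000000000000000004000000004500000000014014000000002000000000000000000001400000 := rS 0xaf54099563f6bb33be324bb4d5bef7f7b603f2d08c46af122bf44a431e8a4831d2591deef5a506c3a0200c476a05 (k8 c21870 c5529 c160 c17712 c5642 c20811 c20794 c5211 (k8 c5519 c5333 c5562 c5342 c5341 c5340 c5339 c5560 (k8 c5561 c5559 c20782 c5326 c5323 c5324 c5476 c20946 (k8 c5241 c5592 c17748 c17808 c19710 c2893 c2943 c21969 (k8 c3577 c5492 c12046 c2185 c14449 c2075 c3579 c5682 (k2 c2987 c2453 k0)))))) (by decide +kernel)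
def c21971 : PP 9 3 T 0x1000000000000006000000000000000000000000080000000100000000000004000000005000000004000040000000402000000000000055000100400008 := rS 0x7c9b1812d11c2a36afd0f8652a7b309e532f543834ae05 (k8 c21870 c21872 c2426 c745 c5519 c5447 c2428 c5445 (k8 c742 c5446 c5393 c2316 c20782 c5529 c5682 c13742 (k4 c2024 c273 c20853 c5357 (k2 c13650 c5643 k0)))) (by decide +kernel)
def c21972 : PP 9 3 T 0x2005000000000000000000000000000000000200080000000000000000010004000000141000000000000000000000000000000000100015000000000000 := rS 0x205f221c7496477b925eaff (k8 c5544 c5519 c5334 c5333 c5562 c5342 c5341 c5561 (k2 c16172 c3593 (k1 c5550 k0))) (by decide +kernel)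
def c21973 : PP 9 3 T 0x6000000000000000000000000080004000100000000000004000000004000000004000040000000002000000000000051000000400008 := rS 0x7c98258c3868fb19a77ef6d43e7b309e5323b7bbd466194383442f00e86cae05 (k8 c21870 c21872 c20794 c20811 c5649 c431 c2426 c745 (k8 c5393 c385 c5519 c5333 c5332 c5447 c2428 c5445 (k8 c742 c2316 c5529 c5653 c5493 c5495 c21971 c5501 (k4 c3587 c20853 c273 c5357 (k2 c13650 c5643 k0))))) (by decide +kernel)
def c21974 : PP 9 3 T 0x46000010000000000000000200000000000200000400010006000000000000000000000041000000002000000000000000000000000000 := rS 0x47c0dfe8d37ab3defd1290c524125ad4d67300c45eb4adaa1d5623 (k8 c9733 c1281 c745 c5529 c5211 c5519 c160 c17712 (k8 c9719 c64 c17733 c5342 c5340 c5339 c5561 c5559 (k8 c20782 c19710 c19199 c20758 c2031 c2893 c2035 c2433 (k1 c20762 k0)))) (by decide +kernel)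
def c21975 : PP 9 3 T 0x46000010000000000000000200000004000000000000000004000000004000000000000040000000002000000000000011000000410000 := rS 0x8024627f2d0ca294374c87d56f00e86c040188ed44605 (k8 c21870 c9733 c5529 c160 c17712 c5642 c20794 c20811 (k8 c5649 c1281 c2316 c5447 c8484 c5211 c21973 c19633 (k4 c5241 c5547 c5589 c21974 (k1 c5592 k0)))) (by decide +kernel)
def c21976 : PP 9 3 T 0x40000010000000000000000200000000000200000000000002000000000400000000004000000000002000000000000000000000410000 := rS 0x11eff46c052303899bd59f2136847efd49a8433b0128f452413980623b543aac4605 (k8 c21870 c9733 c1281 c745 c5529 c160 c17712 c9719 (k8 c5340 c5339 c5560 c5559 c21910 c5393 c5398 c5444 (k8 c20782 c5318 c19633 c3579 c5241 c434 c2814 c5547 (k4 c5550 c5589 c5592 c2031 (k2 c2893 c2433 (k1 c20819 k0)))))) (by decide +kernel)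
def c21977 : PP 9 3 T 0x46000010000000000000000200000004000100000000000004000000004000000000000000000000002000000000000011000000410000 := rS 0xef25866f00e86c040188ed43205 (k8 c21870 c5393 c5529 c160 c17712 c5642 c20794 c20811 (k4 c5649 c385 c21975 c5653 (k1 c5452 k0))) (by decide +kernel)
def c21978 : PP 9 3 T 0x80000000000000000000000000000000000000000000000000000000000010000000000000000000020000000004000042000000000000000000000000000 := rS 0x47bfd1a6f7ec4e0691 (k8 c5589 c5550 c5547 c20782 c20758 c2031 c2893 c2433 (k1 c20762 k0)) (by decide +kernel)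
def c21979 : PP 9 3 T 0x100000000000000000000000080000000000000000000002000000000000000000001000108 := rS 0xf93da87cae05 (k4 c21870 c21872 c2316 c5529 (k2 c5357 c13650 (k1 c5643 k0))) (by decide +kernel)
def c21980 : PP 9 3 T 0x4000000000000000000000000000000000000000000000000000000020000000004000010000000002000000000000000000000000000 := rS 0x54fb76afd (k4 c20782 c5529 c5501 c2024 (k1 c5682 k0)) (by decide +kernel)
def c21981 : PP 9 3 T 0x1000000000044000010000000000000000200000000000000000000000004000000001400000000004000000000002000000000000000000000010200 := rS 0x6fb4fdeff56c05c3ec71fc9afdf4e6846839090c5363d2092c6e990f9cc774a43834432968aade13b0bb3d921950a4c3a1b0100623b511a576005 (k8 c21870 c21910 c5446 c9733 c5529 c160 c17712 c5642 (k8 c20794 c20811 c5444 c5398 c5393 c5396 c21967 c21968 (k8 c21970 c5649 c1281 c21980 c21976 c431 c2426 c745 (k8 c5211 c5332 c9719 c2316 c5447 c8484 c5342 c5340 (k8 c5560 c5397 c20764 c17953 c273 c21977 c5564 c3578 (k8 c5450 c1763 c5241 c1777 c5688 c5591 c5592 c21978 (k4 c5544 c14774 c20105 c12713 (k1 c21501 k0))))))))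 (by decide +kernel)
def c21982 : PP 9 3 T 0x1000000000044000010000000000000000200000000000000000000000004000000001400000000004000000000002000000000000000000000010000 := rS 0xed9263824f6613ca650f2968aade13b0bb3d921950a4c3a1b0100623b511a576005 (k8 c21870 c21910 c5446 c9733 c5529 c160 c17712 c5642 (k8 c20794 c20811 c5444 c5398 c5393 c5396 c21967 c21968 (k8 c21970 c5649 c1281 c21980 c21976 c745 c5447 c2428 (k4 c5445 c742 c21981 c21979 (k2 c5669 c20770 (k1 c5356 k0)))))) (by decide +kernel)
def c21983 : PP 9 3 T 0x1000000000044000010000000000000000200000000000000000000000004000000000400000000004000000000002000000000000000000000010000 := rS 0xfc4ed3f7ab603f2d084811931c81c6831efb32520d438855633784ed26a10cb252a7b30b3c4a431e8a4824b1b88d321f398ec16f5a506c3a0200c476a17d815c1e05 (k8 c21870 c21871 c21872 c21910 c21968 c5529 c160 c17712 (k8 c5642 c20811 c20794 c5211 c5519 c5516 c5332 c9719 (k8 c2316 c5447 c9733 c8484 c5342 c5340 c5339 c5560 (k8 c5561 c5559 c21967 c5445 c742 c5446 c5396 c5393 (k8 c5398 c5444 c21970 c5649 c385 c1281 c431 c745 (k8 c2426 c21976 c21982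 c5495 c1916 c5653 c20806 c439 (k8 c17959 c5643 c17953 c5564 c5241 c5592 c21978 c19710 (k4 c20105 c434 c442 c3579 k0)))))))) (by decide +kernel)
def c21984 : PP 9 3 T 0x40000010000000000000000200000000000000000400000002000000000400000000014004000010002000000000000000000001400200 := rS 0x7e38f8c4ead80fc923a14084b26251e8a4827300c44934adaa1d5623 (k8 c9733 c1281 c745 c5529 c5211 c5334 c160 c17712 (k8 c9719 c5340 c5339 c5560 c5559 c5438 c17953 c1744 (k8 c5564 c3036 c5241 c19568 c21978 c434 c17994 c2868 (k2 c5670 c17735 k0)))) (by decide +kernel)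
def c21985 : PP 9 3 T 0x46000000000000000000000200000000000000000000000002000000000400000010004000000000000000000000000020000000400000 := rS 0xf7b48883e13a4d4219128f45241 (k8 c5340 c5339 c5560 c5559 c5393 c5398 c5444 c434 (k4 c3579 c441 c442 c5582 (k1 c20105 k0))) (by decide +kernel)
def c21986 : PP 9 3 T 0x400050000000000000000000020000000104000002000000000000000000000000000 := rS 0x121157fbf51e6f (k4 c20758 c2433 c20782 c2893 (k2 c3052 c20819 (k1 c747 k0))) (by decide +kernel)
def c21987 : PP 9 3 T 0x1000000000044000010000000000000000200000000000000000000000000000000002400000000004000000000002000000000000000000000010000 := rS 0x38a474114f9c011aac3fe480e34718f4827324d2a072943826260c102a156237efb496f09dbc83a1b0b9f4040188ed432a149ec0ae05 (k8 c21870 c21872 c21910 c5444 c5398 c5393 c5529 c160 (k8 c17712 c5642 c21929 c21968 c20794 c20811 c21983 c5325 (k8 c5649 c5342 c5540 c20782 c9733 c1281 c5682 c2446 (k8 c265 c2598 c21984 c745 c21976 c2627 c5211 c5334 (k8 c9719 c5340 c5560 c4742 c2501 c20806 c5643 c5358 (k8 c21985 c2031 c21986 c5592 c2027 c5241 c18100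 c3048 (k1 c12830 k0))))))) (by decide +kernel)
def c21988 : PP 9 3 T 0x1000000000044000010000000000000000200000000000000000000000000000000000400000000004000000000002000000000000000000000010000 := rS 0xeccd63826260c102a1a28794aade13bf6bc82e7d0e86c040111ed622fd49a8432953d984f299d833c9605 (k8 c21870 c5342 c21967 c21910 c5447 c2428 c5445 c742 (k8 c5446 c5393 c5398 c5444 c20782 c160 c5529 c9733 (k8 c17712 c5642 c20794 c20811 c21929 c21968 c21983 c5540 (k8 c5325 c5649 c1281 c21976 c745 c21980 c5682 c2446 (k4 c265 c2598 c21984 c21979 (k2 c21987 c20770 (k1 c10798 k0))))))) (by decide +kernel)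
def c21989 : PP 9 3 T 0x400000000000000000000000000000000000000000000000a000000000000000000000000000000002000000000000000000100000000 := rS 0x11aaa94a9f6ed5fb3b (k8 c5323 c20782 c5529 c5540 c2446 c5228 c5682 c5331 (k1 c1281 k0)) (by decide +kernel)
def c21990 : PP 9 3 T 0x20000000000000000000000000000000000000000000000000015000000000000000000005002000000000000004000001000108 := rS 0x1d80cc743ca72657 (k8 c21872 c20826 c19356 c5373 c21979 c5643 c20770 c673 k0) (by decide +kernel)
def c21991 : PP 9 3 T 0x400010000000000000000000020000000004000042000000000000000000000000000 := rS 0x40d1ab5 (k4 c2610 c2031 c2035 c21986 k0) (by decide +kernel)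
def c21992 : PP 9 3 T 0x42000020000000000000000000000000000000000800000006000000014400000020000000000010002000000004000000010000410000 := rS 0xc7becc1a82470f511a7694b4409c1ae8d37ed43f3b398052a330c9ecc2794cca4420d01684ae05 (k8 c21870 c21872 c5382 c19427 c5522 c265 c19356 c5447 (k8 c2428 c5445 c742 c5393 c385 c5446 c9696 c9719 (k8 c5323 c2316 c5529 c20758 c2031 c2032 c5666 c752 (k8 c756 c11945 c1342 c1339 c5519 c17923 c273 c439 (k4 c21990 c20859 c1916 c5653 k0))))) (by decide +kernel)
def c21993 : PP 9 3 T 0x100000000000002000000002000000000000000000000002000000000000010000001000000 := rS 0x11d2c70f41877f6a1f9d8086605 (k8 c21870 c385 c19427 c5323 c2316 c5529 c5495 c5653 (k4 c1916 c1917 c5519 c395 (k1 c6197 k0))) (by decide +kernel)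
def c21994 : PP 9 3 T 0x44000020000000000000000200000000000000000800000002000000000400000000004000000000002000000000000000000000400000 := rS 0x713f04810cd1f0d44eadd09cc02251490496cf3e8f526a119864f6613ca6652d155bcc420d012576011 (k8 c5558 c21910 c5446 c19427 c5522 c265 c21989 c1282 (k8 c21980 c19356 c5447 c2428 c5445 c742 c5393 c385 (k8 c5398 c5444 c5560 c21924 c21967 c5342 c5340 c5339 (k8 c5559 c9696 c9719 c5382 c21992 c434 c21985 c3579 (k4 c21993 c21990 c17953 c276 (k2 c2868 c17735 k0)))))) (by decide +kernel)
def c21995 : PP 9 3 T 0x44000020000000000000000200000000000000000000000002000000000400000010004000000000002000000000000000000000400000 := rS 0xe3a13f04810cd1f0d44e73008947a2920b3d26a119864f6613ca6652d155bcc420d012576011 (k8 c5558 c21910 c5446 c19427 c5522 c265 c21989 c1282 (k8 c21980 c19356 c5447 c2428 c5445 c742 c5393 c385 (k8 c5398 c5444 c21967 c5340 c5339 c5560 c5559 c9696 (k8 c9719 c434 c21985 c3579 c21993 c21990 c17953 c276 (k2 c5564 c2868 (k1 c17735 k0)))))) (by decide +kernel)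
def c21996 : PP 9 3 T 0x44000020000000000000000200000000000000000000000002000000000400000000004000000000002000000000000000000000400000 := rS 0x684e34a8a2cfdbf3801bd58b589ed6767300a1d22ab798841a02 (k8 c19427 c5522 c265 c21989 c1282 c5374 c5373 c9696 (k8 c9719 c5323 c5529 c21994 c2610 c21995 c20758 c21991 (k8 c5592 c5502 c2901 c5685 c5228 c3048 c12110 c5666 k0))) (by decide +kernel)
def c21997 : PP 9 3 T 0x44000020000000000000000200000000000000000000000002000000000400000000004000000000002000000000000000000000000000 := rS 0xe19896180242cd155bcc420d008099e9519864f6613ca676011 (k8 c5558 c21910 c5447 c2428 c5445 c742 c5393 c385 (k8 c5446 c21967 c19427 c9696 c5522 c265 c21989 c1282 (k8 c21980 c21996 c1507 c1214 c1213 c21990 c1917 c8295 k0))) (by decide +kernel)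
def c21998 : PP 9 3 T 0x44000000000000000000000200000000000000000000000002000000000400000000004000000000002000000000000000000000000000 := rS 0x3224200405c0e31c9ca4ec876fb3472e168a758eabf02d69423ce9e4f6334c98432a1499f59fb0258f423b535c440457 (k8 c21872 c19427 c160 c64 c5529 c5558 c5560 c5342 (k8 c21910 c21967 c21924 c5444 c5398 c5393 c5445 c5447 (k8 c385 c742 c2428 c21997 c9733 c5211 c17733 c21988 (k8 c1281 c5535 c5458 c5459 c5460 c5534 c5537 c5538 (k8 c745 c20770 c19369 c5356 c1913 c673 c1214 c5643 (k4 c17923 c21984 c265 c2598 k0)))))) (by decide +kernel)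
def c21999 : PP 9 3 T 0x8000000000000004000210000000000000000100000000000000000000000002000000000000000000000000000000002000000000000000020000000000 := rS 0x201ec48a1deb1555d2847b59dc748aff (k8 c5586 c5582 c5504 c5323 c5529 c9733 c5211 c1281 (k4 c1289 c5519 c745 c747 (k2 c19373 c20935 (k1 c5502 k0)))) (by decide +kernel)
def c22000 : PP 9 3 T 0x44000000000000000000000100000000000000000000000002000000000000000000000000000000002000000000000000000000000000 := rS 0x8aaac46f3f6d284300f98352287ce0a04a277fc0d1e6f09c4d1beed06d67602 (k8 c19427 c5323 c5529 c5212 c5229 c5381 c5382 c5564 (k8 c5565 c5568 c5508 c5586 c267 c1113 c5651 c21999 (k8 c5373 c5374 c5522 c18955 c20819 c265 c5231 c5502 (k4 c21989 c5331 c1282 c1289 (k1 c19373 k0))))) (by decide +kernel)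
def c22001 : PP 9 3 T 0x4000000000000000000000000000004000100000000000000000000000000000100008000000000040004000000000000000000000000 := rS 0x1c1187dd0b4dab92ef6c502d7 (k8 c1606 c1604 c5448 c5224 c5209 c5454 c5496 c20924 (k4 c5442 c20816 c21335 c754 k0)) (by decide +kernel)
def c22002 : PP 9 3 T 0x80000000000000000000000000000000000000200000000000200000000000000000000000000000000008000000000002000000000000000000000000000 := rS 0x2698edec91048fb11dd2b3bb5 (k8 c5529 c19356 c5211 c5332 c5448 c5562 c5340 c21888 (k4 c19019 c5357 c2885 c2492 k0)) (by decide +kernel)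
def c22003 : PP 9 3 T 0x44000000000000000000000000000000000000000000000002000000000000000000008000000000002000000000000000000000000000 := rS 0x781c1e36fe83e6e3248ed6b4aceca363b535c46767331804824b23ac45358 (k8 c22000 c5339 c1330 c5562 c5342 c5340 c9696 c19421 (k8 c9719 c5323 c160 c64 c5529 c5448 c22001 c19356 (k8 c5211 c17733 c5332 c5334 c1608 c22002 c5241 c14805 (k4 c19414 c17934 c5198 c5460 k0)))) (by decide +kernel)
def c22004 : PP 9 3 T 0x45000210000000000000000000000000000200000000000002000000000000000000000000000000002000000000000000000000000000 := rS 0xf7fb62ad14efcfc19320b293f58a56d55623 (k8 c9733 c1281 c5529 c5211 c22000 c22003 c21998 c5340 (k8 c12891 c5235 c21888 c5458 c5459 c1292 c16661 c19373 (k1 c5201 k0))) (by decide +kernel)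
def c22005 : PP 9 3 T 0x45000210000000000000000000000000000000000000000002000000000000000000000000000000002000000000000000000000000000 := rS 0x592f299d86452936527c8358 (k8 c22000 c5340 c22003 c21998 c1753 c5339 c1320 c5323 (k4 c22004 c20692 c5648 c1213 k0)) (by decide +kernel)
def c22006 : PP 9 3 T 0x2000010000000000000000000000000000000000000000002000000014000000000000000000000002000000000000000000000800000 := rS 0x77f00c10eab119e53257 (k8 c21872 c5447 c2428 c9733 c1281 c745 c1214 c21968 (k2 c1913 c20854 k0)) (by decide +kernel)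
def c22007 : PP 9 3 T 0x2000000000000000210000000000000000200000000000100000000000002000000014800000000000100000000002000000000000000000000400000 := rS 0x1ff0380b89e4a848e4c41153b37c729d6387c961914a4c823b1bd2936e15a9ae23b543aac468d89a3cf661409e4ae05 (k8 c21870 c21872 c2428 c5380 c1755 c742 c5568 c5382 (k8 c5381 c9733 c1281 c745 c5529 c160 c64 c17733 (k8 c1719 c1326 c5211 c5518 c5332 c5340 c1753 c5339 (k8 c1320 c5342 c2316 c5535 c5458 c5534 c5538 c20854 (k8 c1292 c3578 c5356 c747 c432 c431 c14817 c2027 (k2 c2627 c4648 (k1 c20819 k0))))))) (by decide +kernel)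
def c22008 : PP 9 3 T 0x1000000000000000010000000000000000200000000000000000400000002000000000800000000000000500005802000000000000000000000040000 := rS 0x40dff01792a0400c8aa45c6af6335f264b2482e94e15a9ae23b543aac460f (k8 c21871 c9733 c1281 c745 c5529 c160 c64 c17733 (k8 c1719 c5211 c5516 c5334 c5342 c5356 c2187 c5669 (k8 c1247 c2619 c801 c1293 c17964 c2426 c432 c431 (k4 c2027 c2453 c2627 c20819 k0)))) (by decide +kernel)
def c22009 : PP 9 3 T 0x10000000000000000200000000000000000400000002000000004880000000000000500000002000000000000000000000040000 := rS 0x97573fa0701792a070200645522e325b5562292482e94e15a9ae23b543aac460f (k8 c21871 c9733 c1281 c745 c5529 c160 c64 c17733 (k8 c1719 c5211 c5516 c5334 c5339 c1330 c1661 c5342 (k8 c2619 c801 c1293 c17964 c2426 c2480 c432 c431 (k4 c2027 c2627 c20819 c2453 (k2 c8303 c1246 k0))))) (by decide +kernel)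
def c22010 : PP 9 3 T 0x44000210000000000000000000000000000000000000000002000000000000000000000000000000002000000000000000000000000000 := rS 0x44f70f95ad203c04687f04b3324c73bf842ecf3cb4652994aec0f6614784e268d40bf42219149f4e60170ad4d711dab293f5843aac4657 (k8 c21872 c9733 c1281 c745 c22000 c22003 c21998 c5529 (k8 c160 c64 c17733 c1719 c9696 c9719 c1548 c5339 (k8 c1320 c5558 c20782 c5380 c5381 c5382 c5564 c5568 (k8 c1755 c742 c22005 c5446 c5447 c19633 c21980 c2428 (k8 c13265 c22006 c22007 c22008 c22009 c5669 c20770 c5438 (k8 c5358 c21993 c2078 c20806 c20851 c21991 c17896 c20105 (k2 c441 c5582 k0))))))) (by decide +kernel)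
def c22011 : PP 9 3 T 0x44000000000000000000000000000000000000000400010000000000000000000110000001004000020400000000000000000000000000 := rS 0xf72351eaf (k4 c20748 c2875 c754 c5683 (k1 c20818 k0)) (by decide +kernel)
def c22012 : PP 9 3 T 0x44000010000000000000000000000000000000000000000002000000000000000000000000000000002000000000000000000000000000 := rS 0x4a42edfd8347c1933db1cbc6e30a00e2cf3cab5330148b8e27f2d0a1dc2491daad6b4a11ed4d7117e9cc02412591d6229f1b293f58 (k8 c22000 c22003 c21998 c5464 c5339 c1330 c5562 c5342 (k8 c5340 c9696 c9719 c20782 c160 c64 c5529 c9733 (k8 c5211 c17733 c1281 c5332 c5334 c1719 c745 c22010 (k8 c5241 c5547 c5549 c5589 c5592 c1759 c21991 c2428 (k8 c13265 c22011 c8797 c1756 c5666 c8466 c940 c742 (k8 c5439 c6192 c20815 c5236 c5538 c22006 c17934 c16315 k0)))))) (by decide +kernel)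
def c22013 : PP 9 3 T 0x4000120000000000000000000000000000000000000000002000000000800000000000000000000012000000000010000000001000000 := rS 0xcc1ab3da2064ca5726092f2036afd39804667b3cca556f3108340457 (k8 c21872 c19427 c5522 c265 c21989 c1282 c19356 c5524 (k8 c5372 c385 c9696 c9719 c20782 c5529 c8797 c8466 (k8 c1744 c5439 c20765 c1520 c5643 c21980 c13265 c20806 (k2 c21990 c21993 k0)))) (by decide +kernel)
def c22014 : PP 9 3 T 0x44000000000000000000000000000000000000000400010002000000000000000000000000000000022000000000000000000000000000 := rS 0x15a6b398056229ac21d239c (k8 c22012 c5374 c5373 c22000 c5339 c1330 c9696 c9719 (k2 c64 c21991 (k1 c22011 k0))) (by decide +kernel)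
def c22015 : PP 9 3 T 0x100000000000000000000080000000100000000000000000000000800002000000401000000044000800004000000000101010008 := rS 0xbb840e7ed820727e3 (k8 c5464 c5439 c1747 c9668 c20621 c676 c3058 c1108 (k1 c16343 k0)) (by decide +kernel)
def c22016 : PP 9 3 T 0x44000100000000000000000000000000000000000000010002000000000000000000000000000000002000000000000000000000000000 := rS 0xc935cfed340b8360172fb47d9ef7ad2969f3896d4224325f8cfa7300b54f6914dca5261f798841a0237a34e19c0cb293e41588a6b005 (k8 c21870 c22000 c5339 c1330 c5340 c22003 c21998 c1320 (k8 c22012 c22013 c754 c65 c19427 c5522 c265 c21989 (k8 c2316 c1753 c19356 c6036 c5374 c5372 c1661 c9696 (k8 c9719 c1548 c5464 c5342 c5561 c5558 c5529 c22014 (k8 c5547 c756 c11945 c5519 c19710 c5201 c5501 c22015 (k8 c1107 c5648 c16343 c1716 c3062 c3058 c1720 c5670 (k1 c20816 k0))))))) (by decide +kernel)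
def c22017 : PP 9 3 T 0x44000100000000000000000000000000000000000000000002000000000000000000000000000000002000000000000000000000000000 := rS 0x54fb60115386d5fa410cb293e29ac24556f3108373802 (k8 c19427 c22012 c5522 c265 c21989 c1282 c5374 c22000 (k8 c5339 c22003 c21998 c1320 c5340 c20782 c5529 c22013 (k4 c3048 c22016 c5502 c2027 (k1 c5682 k0)))) (by decide +kernel)
def c22018 : PP 9 3 T 0x44000000000000000000000000000000000000000000000002000000000000000000000000000000002000000000000000000000000000 := rS 0x335c4353bc51acd359aba05ef56bfd9f01f62d7e74b89a3740f310ca51e7906a450e7bce35432a1f1b293eb1208a6b0730100677b5 (k8 c5529 c5323 c9696 c19427 c9719 c22000 c5339 c5340 (k8 c1330 c22003 c21998 c5464 c200 c1320 c1661 c22012 (k8 c5372 c5373 c5374 c5522 c5524 c5526 c19356 c265 (k8 c21989 c22017 c5381 c5382 c12110 c20566 c2610 c5228 (k8 c5502 c5543 c5544 c21991 c20818 c20762 c5683 c2461 (k8 c2940 c1247 c5685 c10131 c1763 c1293 c21993 c20941 k0)))))) (by decide +kernel)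
def c22019 : PP 9 3 T 0x4000000000000044000200000000000000000000000000000000002000010000000000004800000014000000004005000000000000000000000000000000 := rS 0x669dda6ae6aac538e246c4fc6a1 (k8 c200 c5464 c5382 c5381 c1293 c1292 c1294 c4228 (k4 c5683 c2940 c10131 c2624 (k1 c20941 k0))) (by decide +kernel)
def c22020 : PP 9 3 T 0x44000200000000000000000000000000000000000000000001000000000000000000000000000000000000000000000000011000000008 := rS 0x9d5603a1b (k4 c20794 c20811 c21947 c5649 (k1 c20946 k0)) (by decide +kernel)
def c22021 : PP 9 3 T 0x400000000040000220040000000000000000000000000000000000000000000000000000000000000000000000000000800000000010000000000004 := rS 0x633b19822b007004a4ae05 (k8 c21870 c21872 c19356 c5642 c1451 c20072 c1055 c20297 (k2 c20946 c20764 (k1 c5653 k0))) (by decide +kernel)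
def c22022 : PP 9 3 T 0x6004000000000044000220000000000000000000000000000000000000000001000100140100000a00000011000004000005000000010000001000000000 := rS 0x52eb33a140743602258d5bcd671f7d33e12f64cee9747a1da2cf7ffccf2490999d1a05 (k8 c21870 c5381 c2179 c5564 c15745 c5524 c20903 c5544 (k8 c5543 c5501 c5499 c5568 c1334 c10131 c20913 c20791 (k8 c20854 c1520 c19198 c2458 c5689 c5691 c1763 c2511 (k8 c22021 c20794 c20811 c22020 c5649 c5339 c18477 c20897 k0)))) (by decide +kernel)
def c22023 : PP 9 3 T 0x2004000000000000000220000000000000000000000000000000000000000000000100200000000000000000000000000000000000000000000000000000 := rS 0x1bee3f0b3dfff3 (k4 c20903 c5544 c5543 c20556 (k2 c1662 c3002 (k1 c5691 k0))) (by decide +kernel)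
def c22024 : PP 9 3 T 0x2000000000000054000220000000000000000000000000000000000000010001000000000800001010000001000004000000000000000000000000000000 := rS 0x2953aac900ee256ab252ad3542c16515949e7c69f319ccc28170aada2cff9fbe04ff43c4d1e8d (k8 c5381 c5568 c5382 c5499 c5544 c20762 c20818 c20903 (k8 c5543 c5501 c5500 c1719 c5380 c1755 c5379 c1322 (k8 c199 c5464 c5524 c19356 c22019 c5685 c2461 c2460 (k8 c4468 c2182 c1325 c22023 c16791 c10131 c22022 c5340 (k2 c5229 c19685 (k1 c18477 k0)))))) (by decide +kernel)
def c22025 : PP 9 3 T 0x1000000040100000200000014000000000000000000020011001015000000 := rS 0x4b3542e33 (k4 c545 c1737 c1656 c3577 (k1 c1334 k0)) (by decide +kernel)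
def c22026 : PP 9 3 T 0x2000000000000044000200000000000000000000000000000000000000010000000000000800000000000001000000002000000000000000000001000000 := rS 0x1007949fbc0c7c9b7c82e33c929a699648816495586c018311ac555e3facce85093128743637058ec054a0088f3bef56fcda2877bed622f139a34de7d47f8d3ee15ac4cf6614095c1e05 (k8 c21870 c21871 c21872 c5380 c1755 c742 c5382 c2610 (k8 c1719 c199 c5464 c5568 c5566 c5565 c5381 c5379 (k8 c22018 c160 c5529 c5498 c5499 c5501 c20903 c21991 (k8 c20818 c22024 c9733 c17712 c5211 c5642 c5332 c5516 (k8 c5518 c20794 c20811 c1113 c262 c22020 c5649 c5339 (k8 c404 c1243 c1289 c5324 c5476 c20783 c12726 c5683 (k8 c5297 c5685 c2426 c5396 c5447 c20105 c540 c2428 (k8 c2458 c22025 c2511 c17932 c9140 c5691 c3610 c6290 (k2 c677 c5643 (k1 c20146 k0)))))))))) (by decide +kernel)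
def c22027 : PP 9 3 T 0x10000010000000000000000000000008000000000000000000000000000000000000000000004000000000000000000000000000001000 := rS 0x2a940f (k4 c21871 c5211 c20783 c5516 k0) (by decide +kernel)
def c22028 : PP 9 3 T 0x80000000000000044000200000000000000000000000008000000000000010000000000000800000009000000000000002040000000010000000001000000 := rS 0x2c221e52e539c068fc422801006b21b79ed43ef140c4cfbe312c550e05 (k8 c21870 c744 c5590 c1091 c5464 c5566 c5382 c5380 (k8 c22018 c2316 c5529 c5325 c5475 c20946 c20261 c5642 (k8 c22020 c19398 c404 c2426 c22027 c19356 c18477 c5655 (k2 c7110 c1489 (k1 c18064 k0))))) (by decide +kernel)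
def c22029 : PP 9 3 T 0x5000000000000044000200000000000000000000000004000000000000000000000000000000000000000000000000002000000000000000001000000000 := rS 0x60c14d2ab0f109a3fe5b5 (k8 c5529 c5201 c5568 c5564 c22018 c5229 c5228 c5339 (k2 c21184 c22020 (k1 c2427 k0))) (by decide +kernel)
def c22030 : PP 9 3 T 0x4000000000000040000000000000000000000000000000000000000000010000000000000000000040000000108000002000000000000000000000000000 := rS 0x2b15466 (k4 c744 c745 c5282 c2127 k0) (by decide +kernel)
def c22031 : PP 9 3 T 0x5000000000000044000200000000000000000000000000000000000000010000000000000800000000000000000000002000000000010000000001000000 := rS 0x2ad52677f2b50eaf1400803599d40fe5b57ebc4e68d89a3c4a05 (k8 c21870 c1091 c5568 c5382 c5381 c5379 c22018 c20782 (k8 c5529 c5201 c5550 c22029 c20946 c20261 c5642 c22020 (k8 c1243 c22030 c21991 c19658 c5282 c2453 c22028 c5682 k0))) (by decide +kernel)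
def c22032 : PP 9 3 T 0x8000000000000000000200000000000000000100000008000100000000000000000000000800000000000000000000000000000000014000000000000008 := rS 0xb01c79e3 (k4 c5464 c5655 c20264 c1489 (k1 c1108 k0)) (by decide +kernel)
def c22033 : PP 9 3 T 0x4000010000000000000000000000000000000000100000051000000011100000008000014000000000000000000000544000015400040 := rS 0x12e9d6764c62357996e7457 (k8 c21872 c5649 c5474 c5325 c5324 c9332 c20880 c3587 (k2 c17717 c1284 (k1 c3577 k0))) (by decide +kernel)
def c22034 : PP 9 3 T 0x44000200000000000000000000000000000000000000010000000000000800000000000001000000002000000000010000000001000000 := rS 0x946485c0e3919ca1a2df257cde63facce886280e91c6e497b8ed5a1b015299aaa333d4039d433fc8ad758c77dc9312ed622f146a3fc6e15ac4cf66140fb40a0f (k8 c21871 c21870 c22026 c5380 c1755 c742 c5382 c2610 (k8 c1719 c5464 c5568 c5381 c22018 c160 c5529 c1091 (k8 c1753 c22031 c5504 c5506 c5507 c5582 c5586 c20818 (k8 c5373 c3811 c1922 c744 c745 c2074 c5211 c5642 (k8 c1903 c2127 c5332 c5333 c5334 c5518 c5520 c20811 (k8 c22020 c10701 c5649 c5339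 c404 c5325 c17808 c17988 (k8 c2511 c8355 c22032 c5316 c5317 c5432 c5433 c1324 (k2 c22033 c1757 k0)))))))) (by decide +kernel)
def c22035 : PP 9 3 T 0x44000010000000000000000000080000000000000100010041000100000900000148000004000000000000000000100144000015400040 := rS 0x1a0df4afcc94ff6bc77dcad66f8c86f37ace87647 (k8 c5520 c5332 c5649 c5477 c5325 c5478 c5464 c2075 (k8 c2127 c5683 c5504 c5507 c5586 c17894 c17808 c1757 (k2 c2510 c22033 (k1 c8355 k0)))) (by decide +kernel)
def c22036 : PP 9 3 T 0x44000200000000000000000000000000000200000000010000000000000800000000000001000000002080000000000000000001000000 := rS 0x7f7bd508755ac4d7117ea351ee15ac4fda930b9155e391bd299393198c4b6071ace836633998502f70fed43b1511e74502501006b24037bc40a57 (k8 c21872 c21870 c22018 c5565 c22034 c5340 c20261 c5642 (k8 c1113 c22020 c19356 c9733 c1289 c20811 c5529 c2316 (k8 c8123 c5380 c1755 c5379 c1322 c20794 c5649 c5324 (k8 c1734 c5474 c5476 c5316 c20880 c20845 c5211 c5435 (k8 c5317 c1243 c456 c1108 c262 c22026 c5382 c2610 (k8 c1719 c5568 c5381 c20782 c160 c64 c2179 c22035 (k4 c745 c5682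 c19373 c20901 (k1 c2453 k0)))))))) (by decide +kernel)
def c22037 : PP 9 3 T 0x1000000000100000200000014000000000000000000020011001015000000 := rS 0xd2 (k2 c22025 c2085 k0) (by decide +kernel)
def c22038 : PP 9 3 T 0x44000200000000000000000000000000000200000000010000000000000800000000000001000000002000000000000000000001000000 := rS 0x58257dead4399d939319a36268f4f98ce6074998502af14094de352d8c6741d7886c0401ac900ae05 (k8 c21870 c21872 c22034 c5340 c20261 c5642 c20794 c22018 (k8 c20811 c5649 c5476 c5474 c5324 c5565 c1113 c22020 (k8 c1243 c5380 c1755 c262 c1734 c5379 c1322 c199 (k8 c5568 c5382 c5381 c5316 c20880 c20845 c22036 c744 (k4 c21991 c20818 c21348 c5683 (k1 c22037 k0)))))) (by decide +kernel)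
def c22039 : PP 9 3 T 0x44000200000000000000000000000000000000000000010000000000000000000140000001004000002000000000000000000000000000 := rS 0x3dead39a36268f (k4 c5568 c5382 c5381 c5379 (k2 c21991 c20818 (k1 c5683 k0))) (by decide +kernel)
def c22040 : PP 9 3 T 0x44000200000000000000000000000000000000000000010000000000000800000000000001000000002000000000000000000001000000 := rS 0x19e961c0cc6f1da508defee556750cb14ca5593b0948c4b6355791674171424c4a1d0d8080207ac9036b110fbc51a6ff198502e15ac4c1e05 (k8 c21870 c21871 c5382 c2610 c1719 c5380 c1755 c5464 (k8 c5565 c5381 c22018 c2316 c160 c5529 c22034 c5340 (k8 c1734 c20261 c5642 c20794 c20811 c1113 c262 c22020 (k8 c1108 c5649 c456 c1243 c5324 c5474 c5476 c22038 (k8 c9421 c5396 c5446 c5447 c22037 c22039 c5373 c745 (k8 c22030 c20840 c9733 c5211 c5504 c8484 c544 c22035 (k2 c3577 c5819 (k1 c1285 k0)))))))) (by decide +kernel)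
def c22041 : PP 9 3 T 0x10000000000000000000000000000000100100000001000000000100000008000014000100000000040000020011001015000000 := rS 0x4e3392d930b8cc0e57 (k8 c21872 c1734 c544 c1737 c20880 c3577 c1285 c1284 (k1 c17717 k0)) (by decide +kernel)
def c22042 : PP 9 3 T 0x41000000000000044000200000000000000000000000000000000000000000010000000001900000000000000000000002000000000000000000015000000 := rS 0x682582e071c8ce5041550fe2a2812a4f3a377b88c760213d280210ac96c6b3a88bf5026f8e8c52ad7f76d5e205 (k8 c21870 c22018 c5529 c5201 c5507 c1757 c9332 c5504 (k8 c5565 c5380 c20782 c160 c5649 c5324 c5474 c20946 (k8 c20927 c20261 c5231 c2859 c5642 c5332 c5331 c5333 (k8 c5518 c18477 c1754 c1113 c22020 c1289 c404 c19373 (k8 c22041 c22032 c5316 c5317 c5432 c5433 c3577 c22033 (k1 c1709 k0)))))) (by decide +kernel)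
def c22043 : PP 9 3 T 0x1000000000000040000200000000000000000000000000000000000000000000000000000000000000000000000000002000000000000000000000000002 := rS 0x52e779c055636b11 (k8 c160 c5529 c20261 c665 c17712 c20946 c5516 c18380 k0) (by decide +kernel)
def c22044 : PP 9 3 T 0x44000200000000000000000000000000000000000000000000000000000800000000000001000000002000000000000000000001000000 := rS 0xe86c040164b3562f5f6fce01b570ad62605 (k8 c21870 c5382 c2610 c1719 c5529 c22040 c5592 c5502 (k8 c17713 c2144 c2078 c1324 c22043 c5642 c20794 c20811 (k1 c22042 k0))) (by decide +kernel)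
def c22045 : PP 9 3 T 0x800000000000000000000000000000000000000000002000000 := rS 0x146c653e3 (k4 c5464 c5315 c5393 c1320 (k1 c9421 k0)) (by decide +kernel)
def c22046 : PP 9 3 T 0x44000200000000000000000000000000000000000000000000000000000000000000000002000000002000000000000000000000000000 := rS 0x52250108ce11400e75e205 (k8 c21870 c22018 c5374 c3812 c747 c746 c9733 c5642 (k2 c2755 c1289 (k1 c22020 k0))) (by decide +kernel)
def c22047 : PP 9 3 T 0x44000200000000000000000000000000000000000000000001000000000000000000000000000000000000000000000000010000000008 := rS 0x4a6f (k2 c5565 c1113 (k1 c22020 k0)) (by decide +kernel)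
def c22048 : PP 9 3 T 0x6004000000000000000220000000000000000000000004000000100000000000000140040000000000000000000000000000000000000450000000000800 := rS 0x73e163b551b13a5bce53f3 (k8 c20903 c19356 c20781 c5516 c5382 c5381 c22023 c9140 (k2 c20558 c2470 (k1 c5654 k0))) (by decide +kernel)
def c22049 : PP 9 3 T 0x2000000000000042000220000000000000000000000000000000000000000000000200000400000000000001004005000000000000000010000000000004 := rS 0x17bbe7ff09cd1e6394a87267108d600005 (k8 c21870 c5642 c20261 c5558 c667 c12830 c5398 c19356 (k8 c19420 c5568 c5379 c5460 c3058 c19198 c19981 c22021 k0)) (by decide +kernel)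
def c22050 : PP 9 3 T 0x44000200000000000000000000000000000000002000000000000000000400000000000000000000002000000000000000000000000004 := rS 0x17bbe7f6bf89c2df1d8d5a7931ba8527b00e27d626b3d8963b3b3c88014ab38846b06394e7223b5569cfdf01f621c008f89a352205 (k8 c21870 c22046 c5381 c5382 c5568 c5642 c3811 c22043 (k8 c5502 c20818 c5379 c21991 c5529 c160 c17712 c19356 (k8 c19420 c20261 c5558 c667 c5500 c665 c666 c4627 (k8 c20946 c5341 c5559 c3810 c64 c1294 c22001 c18461 (k8 c21910 c5444 c5398 c20063 c12830 c20105 c331 c340 (k8 c2950 c22049 c22048 c5465 c5577 c20754 c19981 c22021 k0)))))) (by decide +kernel)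
def c22051 : PP 9 3 T 0x8000000000000000200000000000000000000000000000000000000000000000000000400000800000001000000012000000005411000000000000004 := rS 0x3803b84765e1ba7d27b0f0b7d427f1f9ace67b3c882960a31ca7380088ed5c605 (k8 c21870 c2459 c5529 c160 c5642 c17712 c19356 c19420 (k8 c665 c5516 c666 c4627 c3810 c5379 c64 c5576 (k8 c5577 c5578 c5580 c17754 c5225 c5444 c5448 c20063 (k4 c19981 c340 c2898 c1451 (k2 c3590 c2471 k0))))) (by decide +kernel)
def c22052 : PP 9 3 T 0x6004000000000044000220000000000000000000000000000000000000000001000100040100000a00000011000004000005000000010000001000000000 := rS 0xd4 (k2 c22022 c22023 k0) (by decide +kernel)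
def c22053 : PP 9 3 T 0x6004000000000046000220000000000000000000000000000000000000000001000000040000000a00000001000004000000000000010000001000000000 := rS 0x3852a6164a7cc729 (k8 c19356 c19420 c5448 c5396 c5445 c5446 c2898 c22052 k0) (by decide +kernel)
def c22054 : PP 9 3 T 0x44000200000000000000000000000000000000000000000000000000000400000000000000000000002000000000000000000000000004 := rS 0xf064b63e369ac1c6495945605ef38fcdfecf80ca48e4b208f42225f6670f6871056001b588bc51a8f5ac4d2205 (k8 c21870 c22046 c5382 c2610 c5568 c5381 c22018 c160 (k8 c5529 c5642 c20261 c666 c3811 c3810 c17712 c22043 (k8 c5559 c5558 c5560 c5340 c5342 c5562 c19356 c5502 (k8 c5543 c5544 c20903 c667 c20818 c20762 c22050 c5685 (k8 c345 c2459 c2461 c2088 c22051 c22053 c5209 c5198 (k1 c20907 k0)))))) (by decide +kernel)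
def c22055 : PP 9 3 T 0x48004000000000050000000000000000000000100000008000000000000000001000400001000000008000000000000000000000004115000000014000000 := rS 0x4b33f60de70b4873281a8c694ff (k8 c5586 c5231 c5476 c5324 c5655 c5317 c17819 c3063 (k4 c17954 c14805 c2564 c17904 (k1 c1285 k0))) (by decide +kernel)
def c22056 : PP 9 3 T 0x40004000000000044000200000000000000000000000000000000000000000000000400000000000000000000000004002000000004010000000001000000 := rS 0x3e4c13291e35fdcaaf6b350c10068851a133ea3c92b5899147e431a96deaf70591f3b4aac8a36b3a0ebc4360265a44ae0f (k8 c21871 c21872 c22046 c22044 c22054 c20794 c22018 c20811 (k8 c5649 c5529 c22047 c5339 c5231 c18477 c5520 c5516 (k8 c5333 c5477 c5474 c5324 c5478 c404 c456 c5382 (k8 c2610 c510 c5568 c5566 c5564 c5381 c540 c2426 (k8 c12614 c22027 c21176 c20874 c745 c5201 c5507 c22055 (k4 c5436 c1512 c20918 c20264 (k1 c5643 k0))))))) (by decide +kernel)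
def c22057 : PP 9 3 T 0x4000000000000000200000000000000000000000000000000000000000000000000000400000000010000000000010004000000002000020000000000 := rS 0x1cbdb0049fe52733e85c0a57 (k8 c21872 c21870 c1307 c5566 c5379 c5436 c2765 c1512 (k4 c9421 c19981 c1450 c17734 k0)) (by decide +kernel)
def c22058 : PP 9 3 T 0x40004000000000044000200000000000000000000000000000000001000000000000000000000000000000000000004002000000000011000000001000000 := rS 0x7f3c980bec84aaabdded66a77c0d170b1f26071c8ce50df061292711409bcfa63508fc2e352d8c5ea3b11bdc6f9da5564513a0ebc4360271ac96b13dab2d2257 (k8 c21872 c22046 c22044 c5529 c5382 c2610 c5685 c2459 (k8 c22054 c20794 c22018 c20811 c5649 c22047 c5339 c5231 (k8 c18477 c5518 c5333 c5331 c5332 c5477 c5476 c5474 (k8 c5324 c1307 c404 c1195 c9752 c5566 c5565 c5380 (k8 c160 c536 c22056 c12113 c2511 c5655 c5316 c5317 (k8 c5432 c20880 c2480 c10249 c20815 c15375 c5458 c5537 (k8 c6290 c5201 c19373 c2125 c22033 c20795 c20845 c2429 (k2 c729 c21940 k0)))))))) (by decide +kernel)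
def c22059 : PP 9 3 T 0x40004000000000040000200000000000000000000000000000000000000000000000500000400000000010001000044012004400000000000000000000000 := rS 0x18edfd89e76a7340c4cfa8f (k8 c5568 c5566 c5382 c5380 c5379 c5529 c2429 c19981 (k2 c14805 c9140 (k1 c3610 k0))) (by decide +kernel)
def c22060 : PP 9 3 T 0x4000000000044000210000000000000000000000000000000000000000000000000000000000800000000000000002000800000020004000001000000 := rS 0x2028755c75afdf58a5926c94ac4502253785d5e282d8c5aa359d075e21b0132d2205 (k8 c21870 c22046 c22044 c22054 c20794 c22018 c20811 c5649 (k8 c5324 c1656 c5476 c5474 c22047 c1243 c1307 c5565 (k8 c1113 c5380 c160 c20765 c20795 c1517 c3577 c22037 (k4 c5452 c1767 c5778 c22041 (k2 c745 c2901 (k1 c22039 k0)))))) (by decide +kernel)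
def c22061 : PP 9 3 T 0x40004000000000044000200000000000000000000000000000200000000000000000000000000000800000000000004012000000000020000000001000000 := rS 0x40156878e841afdf58a592ac9d824cc29f3f17f263388804c62537a855e352d8c73b3a0e86dc60740b84774aac8a004cb48bc76a57 (k8 c21872 c5529 c22018 c22046 c22044 c22054 c22047 c5339 (k8 c5231 c5332 c1714 c5380 c1734 c2459 c20794 c20811 (k8 c5649 c18477 c5476 c5474 c5324 c1243 c1195 c5565 (k8 c1113 c9752 c28 c160 c5316 c20880 c22060 c22059 (k8 c2881 c728 c537 c5680 c20845 c5446 c17904 c22037 (k8 c5452 c1767 c19583 c18394 c19767 c22041 c22039 c2901 k0)))))) (by decide +kernel)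
def c22062 : PP 9 3 T 0x40004000000000044000200000000000000000000000000000000001000000000000000000000000000000000000004012000000000000000000001000000 := rS 0x2028755c75afdf4b0cd63934ab2527b094b540e40ceaca95b588a056b13129beb217578d4b6319d074363d508a1e2630132d2257 (k8 c21872 c22046 c22044 c22054 c9752 c22018 c22047 c1195 (k8 c22057 c20794 c20811 c5649 c5476 c5474 c5324 c1243 (k8 c1307 c5339 c5565 c1113 c5382 c2610 c5380 c160 (k8 c5529 c5231 c5685 c18477 c22058 c1734 c1656 c22061 (k8 c9421 c5444 c5396 c5446 c12830 c22037 c20297 c3577 (k4 c5452 c1767 c5778 c22041 (k2 c745 c2901 (k1 c22039 k0)))))))) (by decide +kernel)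
def c22063 : PP 9 3 T 0x80000000000000040000200000000000000000000000000000000000000000014000000000000000040000000008000002000040001140000000000000000 := rS 0x8fee7b82f3a8d4792e020f (k8 c21871 c5592 c5546 c5568 c5381 c5373 c692 c20840 (k2 c22030 c5779 (k1 c17988 k0))) (by decide +kernel)
def c22064 : PP 9 3 T 0x80004000000000044000200000000000000000000000000000000000000000000000000000400000000000000000000012000000000000000000000000000 := rS 0xc96c0ce9794ac3388706886024bdaa3522495ac4c8a17578a086f32d8c5eb3a0ebc43602 (k8 c22054 c20794 c22018 c20811 c5649 c5477 c5476 c5474 (k8 c5325 c5478 c22047 c1243 c1307 c456 c5382 c2610 (k8 c510 c22046 c5381 c5529 c5546 c5592 c540 c2426 (k8 c22063 c22027 c22039 c19356 c1333 c2179 c9421 c21936 (k1 c12830 k0))))) (by decide +kernel)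
def c22065 : PP 9 3 T 0x4000000000044000200000000000000000000000000000000000000000000000000000000000000000000000004012000000000000000000001000000 := rS 0x8e294af9ed6b2280132d22f1 (k8 c22018 c22046 c22044 c22054 c22047 c5339 c5529 c22064 (k4 c5231 c22062 c5331 c1289 k0)) (by decide +kernel)
def c22066 : PP 9 3 T 0x40004000000000054000000000000000000000100000000000000000000000001000000000400000240000000100000000000000000000000000014400000 := rS 0x327b068fb0ce9756fbc633a1dbdc6f4a (k8 c5231 c5518 c5333 c5332 c5649 c5476 c5506 c201 (k4 c1333 c2179 c5201 c5501 (k2 c12726 c19997 (k1 c21936 k0)))) (by decide +kernel)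
def c22067 : PP 9 3 T 0x8000000000000002000200000000000000000100000008000000000000000001000000000000000000000040000000000040000000004000000014420000 := rS 0x1f2529468d46257 (k8 c21872 c5476 c5324 c5381 c17904 c21936 c20264 c20266 k0) (by decide +kernel)
def c22068 : PP 9 3 T 0x40004000000000041000000000000000000000000000000000000000400000000000400000400000000010001400114002004000000000000000000000000 := rS 0x7970b1cbe7ff037d3db5 (k8 c5529 c5680 c14805 c5198 c2881 c1522 c5535 c5460 (k2 c2429 c3610 k0)) (by decide +kernel)
def c22069 : PP 9 3 T 0x40004000000000046000200000000000000000000000000000000001000000000000000000000000000000000004000002000000000000000000001000000 := rS 0x3c2df4e1052c67087ba3aaa54fb6004a100322281129bc7e352d8c5ef9da54e9c6b15785eb2280e86c04cb48a35e29364a55c29f592d627b5 (k8 c5529 c5382 c2610 c5685 c5448 c2898 c5446 c5396 (k8 c5444 c22018 c5381 c22046 c22044 c22054 c20794 c20811 (k8 c22047 c5339 c1307 c1243 c22066 c2459 c5649 c5231 (k8 c18477 c5333 c5476 c5474 c5324 c404 c5565 c1113 (k8 c5380 c160 c22027 c2426 c540 c22039 c5502 c2027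 (k8 c2901 c2139 c5201 c21966 c2123 c22067 c22041 c1284 (k2 c2511 c5458 (k1 c5691 k0)))))))) (by decide +kernel)
def c22070 : PP 9 3 T 0x40004000000000044000200000000000000000000000000000000000000000000000000000000000000000000000004002000000000000000000001000000 := rS 0x639fc40df1e128831df72abda863cb85329530b253e93d838f3ab2a56d622813ea3d6b1331894df59508a06a5b18ce83af10d8099715382440a57 (k8 c21872 c21870 c22046 c22065 c3048 c22044 c22054 c20794 (k8 c22018 c20811 c5649 c5476 c5474 c5324 c22047 c1195 (k8 c5339 c5565 c1113 c9752 c5382 c2610 c5568 c5566 (k8 c5380 c160 c5529 c5231 c5685 c18477 c2459 c22068 (k8 c5444 c5448 c5396 c5445 c5446 c5447 c2898 c2428 (k8 c22069 c5499 c745 c5201 c5504 c22041 c22056 c22058 (k4 c2511 c2454 c2765 c9140 (k1 c14940 k0)))))))) (by decide +kernel)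
def c22071 : PP 9 3 T 0x80004000000000044000200000000000000000000000000000000000000000000000000000400000000000000000000002000000000000000000000000000 := rS 0xc9ec2539c33a5c1bef56ac042878092f6a7346a3d22495ac4c8a17578a086f32d8c5eb3a0ebc43602 (k8 c22054 c20794 c22018 c20811 c5649 c5477 c5476 c5474 (k8 c5325 c5478 c22047 c1243 c1307 c456 c5382 c2610 (k8 c510 c22046 c5568 c5381 c5379 c5529 c5546 c5592 (k8 c22063 c540 c22039 c21991 c20818 c2426 c1333 c2179 (k4 c22027 c19356 c9421 c19997 (k1 c21936 k0)))))) (by decide +kernel)
def c22072 : PP 9 3 T 0x4000000000044000200000000000000000000000000000000000000000000000000000000000000000000000000002000000000000000000001000000 := rS 0xd8183c27af9ed59691 (k8 c22046 c22044 c5529 c22071 c22070 c5457 c742 c5198 (k1 c5445 k0)) (by decide +kernel)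
def c22073 : PP 9 3 T 0x46000200000000000000000000000000000000000000000000000000000000000800000000000000002000000000000000000001000000 := rS 0x2028755ac5a2961981d9ec6c99e4f6e14ca54c2c94fed5fa1f40c4cfa8f0babc6a319d07436e33fb7d2641f10a004cb48bc4ae05 (k8 c21870 c21872 c22018 c22046 c22044 c22054 c22047 c22072 (k8 c5462 c536 c5580 c5577 c5466 c20794 c20811 c5649 (k8 c5476 c5324 c1243 c1307 c5568 c5566 c5382 c5380 (k8 c2316 c20782 c5529 c5448 c5396 c5445 c5446 c5447 (k8 c2898 c742 c2428 c17932 c3610 c20739 c13650 c20297 (k4 c3577 c1709 c1333 c1285 (k2 c799 c2901 (k1 c22039 k0)))))))) (by decide +kernel)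
def c22074 : PP 9 3 T 0x40000000000000044000200000000000000000000000000000000000000000000000000000000000000000000000000002000000000000000000001000000 := rS 0xf07b327ef03ca067b1594573a23a56d56b13ac9147e171a96c633a0e86da69320f88500265a45e257 (k8 c21872 c22018 c22046 c22044 c22054 c22047 c22072 c5462 (k8 c536 c5579 c20794 c20811 c5649 c5476 c5474 c5324 (k8 c1307 c404 c456 c5339 c5382 c2610 c5529 c5231 (k8 c5331 c18477 c1289 c5685 c22073 c5284 c5648 c5432 (k4 c17819 c20880 c5201 c5235 (k1 c6290 k0)))))) (by decide +kernel)
def c22075 : PP 9 3 T 0x44000200000000000000000000000000000000000000000000000000000000000000000000000000002000000000000000000001000000 := rS 0x6c738973383561ef568872687f6c0497f2efb4cfed7f13d4625b7990d5e172292674280e86c04cbdabc4e68d47ad62691 (k8 c22046 c5382 c2610 c5568 c5381 c5379 c22018 c5529 (k8 c22044 c22054 c20794 c20811 c22047 c5649 c510 c456 (k8 c1307 c1243 c5478 c5325 c5474 c5476 c5477 c22072 (k8 c5465 c5577 c5579 c20754 c22074 c5546 c5592 c20903 (k8 c22063 c19979 c540 c21991 c20818 c22039 c2426 c5282 (k4 c1333 c22027 c21936 c18399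 k0)))))) (by decide +kernel)
def c22076 : PP 9 3 T 0x44000200000000000000000000000000000000000000000000000000000000000000000000000000002000000000000000000000000000 := rS 0x59c5447f3a578ab228016482fb194a4c30915ac4f6af1 (k8 c22018 c5529 c5382 c2610 c22046 c22075 c83 c5315 (k8 c5393 c82 c6205 c9701 c22047 c5339 c9421 c9025 (k4 c19979 c5331 c1289 c12131 (k1 c5685 k0)))) (by decide +kernel)
def c22077 : PP 9 3 T 0x44000000000000000000000000000000000000000000000000000000000000000000000000000000002000000000000000000002000000 := rS 0xe171c4d23f25aa74b6453867492239d1ccdf4a0e86c02793eb1d3c7f6580b25b194a4f6a6b88bc423a1 (k8 c22076 c9667 c22018 c160 c64 c5529 c83 c5315 (k8 c5393 c6205 c9701 c22045 c18926 c21910 c5357 c5442 (k8 c5441 c28 c20794 c20811 c17905 c2815 c9719 c5649 (k8 c5331 c5334 c18477 c5666 c5326 c5474 c1273 c17733 (k4 c5241 c21230 c756 c1608 (k2 c5591 c18113 k0)))))) (by decide +kernel)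
def c22078 : PP 9 3 T 0x1000000080000000000000000000000000000000000000000000000000000000000000000000000000000040000000010000001000008 := rS 0x252930b9dc125f (k4 c5439 c5438 c5356 c1107 (k2 c261 c20850 (k1 c5648 k0))) (by decide +kernel)
def c22079 : PP 9 3 T 0x80000000000000011000000040000000000000000000000000000000000000000000000000000000000000000000000000000000000010000000000000000 := rS 0x2519c (k2 c21888 c5209 (k1 c19356 k0)) (by decide +kernel)
def c22080 : PP 9 3 T 0x80000000000000011000000000000000000000000000000000000000000000000000000000000000000000000000000000000040000010010000001000008 := rS 0x193 (k2 c22078 c22079 k0) (by decide +kernel)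
def c22081 : PP 9 3 T 0x4000000000002000100040000000000000000040000000100001000000000000500000000001000000000400014040000400000400100000000410080 := rS 0xdfc2de59b2ce29d400ecfe61 (k8 c5445 c676 c1674 c5670 c13264 c751 c8466 c8280 (k4 c6118 c5538 c2331 c5654 k0)) (by decide +kernel)
def c22082 : PP 9 3 T 0x4000000000044000100040000000000000000000000000100000400010001000000000100000010000015004010040400000000000000000001400040 := rS 0x2c4e0d54b1f8668120d606a319d074360200844ae05 (k8 c21870 c21872 c9667 c17749 c5642 c20794 c20811 c5649 (k8 c5476 c5324 c5212 c5340 c12653 c20297 c5670 c3577 (k4 c20749 c17735 c1334 c22011 k0))) (by decide +kernel)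
def c22083 : PP 9 3 T 0x46000100040000000000000000040000000000001400010001000500000000001010000001404004040400000000000100004001400000 := rS 0x5f0378c8e9364a54fb299d06eb01d010042205 (k8 c21870 c9667 c17749 c5642 c20811 c5212 c20794 c5649 (k8 c19823 c21929 c5446 c5396 c5444 c5562 c17859 c22082 (k2 c1450 c22081 k0))) (by decide +kernel)
def c22084 : PP 9 3 T 0x80000000000000044000020040000000000000000000000000000000000000000000000000000000000000000000000002000000000000000000000000000 := rS 0x71efa019cdf66b44ee7f638d80c090b09c722256d2d1e873587c8eb571925231570c0462f53eca4f6613ca67605b1ace83af10d8080273898443241ac6876a05 (k8 c21870 c5529 c22076 c5212 c5340 c22077 c9667 c5547 (k8 c933 c17749 c5642 c20794 c22018 c20811 c5649 c5324 (k8 c5474 c22080 c5447 c2428 c5445 c742 c19823 c21929 (k8 c5477 c5476 c5592 c5591 c5590 c5589 c5588 c5549 (k8 c5548 c5562 c2316 c64 c5373 c5526 c18477 c21978 (k8 c6197 c395 c485 c22083 c1507 c1108 c1259 c21979 (k8 c676 c672 c1481 c2329 c2331 c20853 c17861 c5453 (k2 c751 c20465 k0)))))))) (by decide +kernel)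
def c22085 : PP 9 3 T 0x4000000000000042000010040000000000000200000008000000000000000000000500040000000000000000000000002000000000000000000000800008 := rS 0x326b0f99fdf6fb35a239f00187a418e92c8a35798c5ea7b309e5ee1d1b88d321f1dd2b6a05 (k8 c21870 c5529 c5211 c5332 c2316 c5447 c9733 c8484 (k8 c20811 c8123 c2428 c5445 c742 c5477 c5476 c5325 (k8 c5324 c5326 c5342 c5341 c5340 c5560 c1108 c21968 (k8 c8203 c5459 c5537 c5538 c6344 c21965 c17954 c14449 (k2 c3587 c2185 k0))))) (by decide +kernel)
def c22086 : PP 9 3 T 0x80000000000000044000000040000000000000000000000000000000000000000000000000000000000000000000000002000000000000000000000000080 := rS 0x64d61f33fbedf66f81a239638f5c64970914627b309e46e991db4d5afe7b88c3e478ebf7df4acebd5e6438092f605b1ace83af10d8080273898443241ac6876a05 (k8 c21870 c5529 c22076 c5212 c5340 c22077 c9667 c5547 (k8 c933 c17749 c5642 c20794 c22018 c20811 c5649 c5324 (k8 c5474 c22080 c5342 c5592 c5561 c5325 c5477 c22084 (k8 c5211 c19710 c20782 c5341 c5562 c2316 c9733 c8123 (k8 c17808 c2893 c20105 c5332 c5447 c8484 c2428 c5445 (k8 c742 c5476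 c5326 c5591 c5588 c5549 c5560 c13650 (k8 c8203 c20815 c5669 c5537 c5538 c6344 c21965 c3590 (k2 c14449 c3587 (k1 c2185 k0))))))))) (by decide +kernel)
def c22087 : PP 9 3 T 0x80000000000000044000000040000000000000000000000000000000000000000000000000000000000000000000000002000000000000000000000000000 := rS 0xd76a9fbc6caefa5866810385da6ad7f7bdef4a11e75fa1f21c74964771b860245798c5ea934fa85929594ec0b6350c9076b3a7886eb01d01004e71308e84ae05 (k8 c21870 c21872 c22076 c9667 c5547 c933 c17749 c5642 (k8 c20811 c5212 c20794 c22018 c5649 c5529 c5340 c22077 (k8 c5324 c5474 c22080 c19823 c5446 c5396 c5398 c5448 (k8 c5444 c5477 c5476 c5325 c5326 c5592 c5591 c5549 (k8 c5562 c5342 c5341 c5561 c2316 c20782 c22084 c9733 (k8 c5211 c8123 c19710 c17808 c2893 c20105 c22085 c22086 (k8 c12653 c20297 c3577 c5452 c21969 c5464 c20621 c20749 (k2 c20871 c5689 k0)))))))) (by decide +kernel)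
def c22088 : PP 9 3 T 0x80000000000000044000010000000000000000000000000000000000000000000000000000000000000000080000000002000000000000008000000000000 := rS 0xaa67aa5bcaf37b29c69170917da934fa84c27d3ca658e7f0b97f24816bf7da6ad7f3dc461f23c75fbb02d8d43241f7d2b6af579ce83af10d808027389844870125d634205 (k8 c21870 c22076 c5212 c5342 c5592 c5561 c9667 c5547 (k8 c933 c17749 c5642 c20794 c22018 c20811 c5649 c5325 (k8 c5477 c5529 c5211 c19710 c5340 c22077 c5324 c5474 (k8 c22080 c20782 c5341 c5562 c2316 c9733 c8123 c17808 (k8 c2893 c20105 c5492 c2185 c20909 c22087 c5439 c1107 (k8 c5358 c5357 c5447 c2428 c21929 c5445 c5398 c5448 (k8 c5444 c17748 c5326 c5591 c5589 c5549 c21969 c1145 (k4 c1247 c14941 c2453 c2565 (k2 c5682 c1285 k0))))))))) (by decide +kernel)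
def c22089 : PP 9 3 T 0x80000000000000044000010000000000000000000000000000000000000000000000000000400000000000000000000002000000000000008000000000000 := rS 0xdf37f804c29128f5c69170a4d3ea1309f4f299639fc2e5fc92047ed722b4d5afe7b88c3e478ebf7df4a7abcc870125ec0b6359d075e21b01004e713088648358d0ed7be05 (k8 c21870 c5492 c5529 c22076 c5212 c5340 c22077 c9667 (k8 c5547 c933 c17749 c5642 c20794 c22018 c20811 c5649 (k8 c5324 c5474 c22080 c5342 c5592 c5561 c5325 c5477 (k8 c5211 c19710 c20782 c5341 c5562 c2316 c9733 c8123 (k8 c17808 c2893 c20105 c5326 c2185 c14449 c20909 c22087 (k8 c5439 c1107 c5358 c5357 c5447 c2428 c21929 c5445 (k8 c5398 c5448 c5444 c5591 c5589 c5549 c5560 c9666 (k4 c8199 c3579 c21988 c2814 (k2 c5538 c14941 k0))))))))) (by decide +kernel)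
def c22090 : PP 9 3 T 0x80000000000000044000010000000000000000000000000000000000000000000000000000000000000000000000000002000000000000008000000000000 := rS 0x6af8d94976bf7da6ad7f3dc461f23c75fbefa53d5e6438092f605b1ace83af10d8080273898443241ac6876a05 (k8 c21870 c5529 c22076 c5212 c5340 c22077 c9667 c5547 (k8 c933 c17749 c5642 c20794 c22018 c20811 c5649 c5324 (k8 c5474 c22080 c5342 c5592 c5561 c5325 c5477 c5211 (k8 c19710 c20782 c5341 c5562 c2316 c9733 c8123 c17808 (k8 c2893 c20105 c5492 c2185 c22088 c22089 c5464 c1660 (k1 c5689 k0)))))) (by decide +kernel)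
def c22091 : PP 9 3 T 0x80000000000000044000010000000000000000000000000000000000000000000000000000000000000000000000000002000000000000000000000000000 := rS 0xaa67aa5bc81579bce0ca4b0cda6ad7f7bdef4a11bf43e4325b8d22e180915e6317afb48f1d49a7d42c930a54fa794cec0b6359d075e21b0c906b1b5639fc2e5fc90080273898474205 (k8 c21870 c22076 c9667 c5547 c933 c17749 c5642 c22087 (k8 c5439 c1107 c5358 c5357 c5529 c5212 c5340 c22077 (k8 c20794 c22018 c20811 c5649 c5324 c5474 c22080 c5447 (k8 c2428 c21929 c5446 c5445 c5396 c5398 c5448 c5444 (k8 c5341 c5562 c17748 c5477 c5476 c5325 c5326 c5592 (k8 c5591 c5589 c5549 c5342 c5561 c2316 c20782 c9733 (k8 c5211 c8123 c19710 c17808 c2893 c20105 c22090 c3577 (k8 c21969 c8466 c1144 c20748 c751 c14941 c2453 c2565 (k2 c5682 c1285 k0))))))))) (by decide +kernel)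
def c22092 : PP 9 3 T 0x80000000000000044000000000000000000000000000000000000000000000000000000000000000000000000000000002000000000000004000000000000 := rS 0x152ab58274e03b650192c6b7ec0d224518fb48f1d49a7d42c94aca4f6610b97f24d356a1e03efd816c6a41ac0e4454bce4e83af10d80802738984743b50f864ae05 (k8 c21870 c21872 c22077 c2316 c5529 c22076 c9667 c5547 (k8 c933 c17749 c5642 c20794 c22018 c20811 c5649 c22091 (k8 c18477 c6197 c395 c5212 c5340 c5324 c5474 c22080 (k8 c18955 c5592 c5373 c21978 c20105 c22087 c5439 c1107 (k8 c5445 c742 c19823 c5446 c5396 c5398 c5448 c5444 (k8 c5341 c5562 c17748 c5476 c5326 c5589 c5550 c20782 (k8 c64 c3577 c20880 c21969 c1674 c8466 c13264 c22011 (k2 c1284 c2183 (k1 c5682 k0))))))))) (by decide +kernel)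
def c22093 : PP 9 3 T 0x80000000000000044000000000000000000000000000000000000000000000000000000000000000000000000000000002000000000000000000000000000 := rS 0x55aa55ecc7f1c1bcd41fa05afdf1934c44adf1fbe9687ce1fd8e5fc91f593b0f696c6a459d0743602009ce0313dabf43ef1089063a47ac6843205 (k8 c21870 c22077 c22076 c5212 c5562 c5341 c5340 c9667 (k8 c22018 c2316 c20782 c5529 c5547 c5592 c933 c17749 (k8 c5642 c20794 c20811 c5649 c5326 c5324 c5474 c17748 (k8 c22080 c5396 c21929 c22087 c5439 c5357 c5358 c22091 (k8 c5373 c18477 c18955 c17692 c21978 c6197 c20105 c22092 (k8 c5492 c2185 c20909 c14449 c5689 c17861 c12251 c3002 (k4 c3003 c20748 c2453 c2075 (k1 c5682 k0)))))))) (by decide +kernel)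
def c22094 : PP 9 3 T 0x400000000000040000040000800004101400155000000000000000000000000000000 := rS 0x1c6e1 (k2 c2898 c2458 (k1 c3610 k0)) (by decide +kernel)
def c22095 : PP 9 3 T 0x40000000000000052000100000000000000000000000000000000000400000000000040000040001000000004000140040000000000004000000801000000 := rS 0x385c7e11b64c2c5e659c44f14599f5329f148947a41ac23cf6913c808021150ca73805 (k8 c21870 c5241 c19356 c8159 c9667 c17749 c5642 c5524 (k8 c5374 c5372 c5263 c5212 c5340 c5560 c9666 c8199 (k8 c5448 c5447 c21929 c22094 c5685 c486 c3048 c8797 (k8 c12251 c3579 c5439 c1259 c13945 c17330 c1483 c5910 k0)))) (by decide +kernel)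
def c22096 : PP 9 3 T 0x4000000000000044000000000000000000000000000000000000000400000000000000040000000000000000000000002000000000000018000000000000 := rS 0xc9ec4fe221fd2cb6459d31d261d0d80802b53987de2110cca7380940b7fbed78ed6342fff67cf6a05 (k8 c21870 c5529 c22093 c5201 c5544 c22076 c5212 c5341 (k8 c2185 c5492 c12713 c20909 c20738 c5241 c19356 c22077 (k8 c9667 c22018 c2316 c933 c2610 c17749 c5642 c20794 (k8 c20811 c3632 c21979 c5649 c5326 c5474 c18477 c14449 (k4 c6197 c19059 c22095 c22078 (k1 c5209 k0)))))) (by decide +kernel)
def c22097 : PP 9 3 T 0x11000020000000000000000000040000000000000000000000000000004000000000000000000000000000000000000000000000000000 := rS 0x7832529 (k4 c19356 c5209 c5225 c20907 k0) (by decide +kernel)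
def c22098 : PP 9 3 T 0x120080000000000000200040000000000000000000000000000004040000000000000000000012000000000004400000000000000 := rS 0x1438000dc0623f097c3f294cec36a05 (k8 c21870 c5529 c22097 c5447 c19356 c2316 c5439 c20907 (k4 c12251 c6197 c8484 c5642 (k2 c5654 c665 (k1 c2470 k0)))) (by decide +kernel)
def c22099 : PP 9 3 T 0x1000000000002000020000000000000000000040000000000000000000000000000000040000000000000000000002000000000000400000000000002 := rS 0x391b828d7113d9e4c729 (k8 c19356 c19420 c5524 c5372 c160 c64 c665 c20063 (k2 c2470 c5654 k0)) (by decide +kernel)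
def c22100 : PP 9 3 T 0x2000000000000044000000000000000000000000000000000000000000000000000000000040000000000000000140012000040000004008000000000000 := rS 0xf51b4e82c220e9b8047300b33c3e23b9f40d930fbc47b580c9ed0e79688edee610db27614b79b3f39f3d0ed40a57 (k8 c21872 c21870 c5529 c22076 c22093 c5241 c5543 c5540 (k8 c20814 c22097 c5396 c2043 c5445 c5498 c492 c5501 (k8 c5524 c5373 c5372 c22077 c5212 c5560 c22018 c2316 (k8 c22098 c20297 c1456 c672 c5670 c20854 c20853 c22099 (k8 c9719 c5642 c5666 c20811 c6197 c17836 c5649 c1259 (k2 c5477 c2329 k0)))))) (by decide +kernel)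
def c22101 : PP 9 3 T 0x4000000000000044000000000000000000000000000000000000000800000000000000000000000000000000000100002000040000104008000000000000 := rS 0x5832d2caf56f88ce72811dcfa5f00125ea06018dfc3936318593b038ad4ff4b0f8a422431e92c8e1931ca7389504b5e3b58d0c05e6cf7f8edefecf9ed40a57 (k8 c21872 c21870 c5529 c22093 c5201 c5498 c492 c5544 (k8 c5543 c5540 c5502 c22076 c5212 c5341 c2185 c20738 (k8 c17788 c5241 c19356 c19420 c22077 c5562 c5342 c5560 (k8 c5561 c9667 c8199 c2316 c20814 c19059 c11945 c756 (k8 c22097 c5396 c5445 c22100 c5357 c5535 c2326 c21979 (k8 c20297 c2046 c20539 c5642 c1451 c1456 c672 c3593 (k8 c17749 c663 c5670 c2035 c20812 c20791 c5464 c5683 (k1 c1333 k0)))))))) (by decide +kernel)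
def c22102 : PP 9 3 T 0x2000000000000044000000000000000000000000000000000000000000000000000000000000000000000000000000002000080000000008000000000000 := rS 0x24ac95f4b5a9c8142011800381b64ec277110fbc4235894e73e7a1daf7dee05 (k8 c21870 c5498 c5492 c5529 c22076 c22093 c5241 c19356 (k8 c5212 c9667 c22018 c2316 c160 c5474 c5224 c5396 (k8 c2043 c5649 c1995 c483 c666 c665 c17749 c4733 (k4 c5516 c20812 c934 c12405 (k1 c18714 k0))))) (by decide +kernel)
def c22103 : PP 9 3 T 0x4000000000000044000000000000000000000000000000000000000800000000000000040000000000000000000000002000000000100008000000000000 := rS 0xfcb7ecf9ed503df6bc76b1a1 (k8 c22076 c5212 c5341 c2185 c5492 c20909 c5529 c22093 (k4 c5201 c22102 c14449 c22101 k0)) (by decide +kernel)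
def c22104 : PP 9 3 T 0x4000000000000044000000000000000000000000000000000000000000000000000000000000000000000000000000002000040000200000000004000000 := rS 0x12628731308d1aae58872771178c75eeb5a5e71e7ecf992eb01f14e876a05 (k8 c21870 c5529 c22076 c8199 c2316 c5212 c5342 c22093 (k8 c5201 c5540 c5241 c20814 c11945 c5498 c5341 c22018 (k8 c160 c5326 c5649 c2177 c336 c19047 c483 c335 (k4 c20812 c18727 c12405 c3046 k0)))) (by decide +kernel)
def c22105 : PP 9 3 T 0x4000000000000044000000000000000000000000000000000000000800000000000000000000000000000000000000002000000000000008000000000000 := rS 0xf52488046003940cdeac38b4a22438e91def017fad497580f8a48a1b64ec296f367e73425bf67cf6a05 (k8 c21870 c5529 c22093 c5201 c22102 c22076 c5241 c5543 (k8 c5540 c20814 c22097 c5396 c2043 c22104 c8199 c2316 (k8 c5212 c5342 c11945 c5544 c5502 c5498 c5562 c5341 (k8 c5561 c160 c22103 c756 c20105 c20758 c2035 c5666 (k4 c9719 c9731 c666 c12405 (k2 c2421 c3593 k0)))))) (by decide +kernel)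
def c22106 : PP 9 3 T 0x4000000000000044000000000000000000000000000000000000000000000000000000000000000000000000000000002000000000000018000000000000 := rS 0x692b4e713d852cb6cf79c07d887ce7cf43b5 (k8 c5529 c22076 c22093 c5241 c5373 c5201 c5502 c5540 (k8 c5543 c22102 c20814 c22097 c22105 c933 c21991 c22096 (k1 c20105 k0))) (by decide +kernel)
def c22107 : PP 9 3 T 0x8000000000000050000020000000000000000000000000000000100000000001000000000000001010000000000000000000000000040000011000000008 := rS 0x4c7146ac6064557bfc361d (k8 c20811 c20794 c5586 c5584 c5582 c5508 c5506 c5505 (k2 c20931 c3582 (k1 c268 k0))) (by decide +kernel)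
def c22108 : PP 9 3 T 0x1000000000000000000000000000000000100000000000000000000000000000000000000000000000000040000000010000001000008 := rS 0x192 (k2 c5209 c22078 k0) (by decide +kernel)
def c22109 : PP 9 3 T 0x44000000000000000000000000000000000000000400000000000000000000000000000000000000002000000000000018000000000000 := rS 0x71205c27d4c9853fb059454e06f5637da2393f888254b2dce98e1d0d80803005a9cc3ef1148444a438ed60328f43a44f329ce7cf43b504a37dc05 (k8 c21870 c22106 c5505 c20738 c5529 c22076 c22093 c5241 (k8 c19356 c5524 c5374 c5373 c5263 c22077 c5212 c5341 (k8 c5561 c9666 c9667 c8199 c22018 c2316 c933 c2610 (k8 c20818 c17749 c5642 c20794 c20811 c21979 c5649 c5474 (k8 c18477 c19004 c6197 c2918 c395 c2130 c2953 c22107 (k8 c20758 c5666 c3048 c5685 c22108 c5448 c5445 c5447 (k4 c21929 c2898 c751 c14941 (k1 c2458 k0)))))))) (by decide +kernel)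
def c22110 : PP 9 3 T 0x8000000000000004000000000000000000000200000000000000000000000000000000000000002000000000000000002000000000000000010000000000 := rS 0x7b552aba56d5fa1f25ac60605 (k8 c21870 c5508 c5506 c5342 c2316 c20782 c5529 c11945 (k4 c1344 c2614 c14774 c5682 k0)) (by decide +kernel)
def c22111 : PP 9 3 T 0x8000000000000050000120000000000000000000000000000000000000000001000000000000001000000000000000010000000000000000000000000001 := rS 0x1586e011cc522521c76b005 (k8 c21870 c5212 c5341 c5561 c9666 c8199 c9719 c5642 (k2 c5666 c22107 (k1 c20758 k0))) (by decide +kernel)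
def c22112 : PP 9 3 T 0x800000040000000008000000000000 := rS 0x1f2657 (k4 c21872 c5356 c672 c20297 k0) (by decide +kernel)
def c22113 : PP 9 3 T 0x41000400000000002000000000000000000000200000000000000000000020000000000001000000808000010000005402044400001000400000000000002 := rS 0x3c2396fa71a29671b846e9930b253e6b88bf5e60a (k8 c665 c20781 c20782 c160 c64 c5448 c5396 c5445 (k8 c5447 c20063 c2898 c2458 c20791 c1709 c1284 c2953 (k2 c6897 c5458 (k1 c18015 k0)))) (by decide +kernel)
def c22114 : PP 9 3 T 0x8000000000000044000000000000000000000000000000000000000000000000000000000000000020000000000000002000000000000008000000000002 := rS 0xfc6ee34f05d96c84b8e5c29d6737f627766c0152aa2dcebdaf50dbc4863d20c7496470c9ecf26394e73be9558c0daaff2f824762079c556467390451a49a582b6a235ad6053f30fc474205 (k8 c21870 c22076 c160 c2316 c22093 c8199 c5212 c22110 (k8 c9731 c5529 c665 c5516 c12405 c5505 c9667 c17749 (k8 c931 c934 c1290 c20781 c666 c3688 c20738 c1055 (k8 c5586 c5585 c5508 c5506 c17788 c5492 c5241 c19356 (k8 c19420 c5524 c5372 c22077 c5562 c5342 c5341 c5340 (k8 c5560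 c5561 c22018 c1908 c2421 c17892 c5228 c5474 (k8 c13796 c169 c2127 c4456 c22112 c22113 c14805 c21904 (k8 c9066 c1652 c2558 c1284 c5678 c1324 c1064 c2068 (k4 c2459 c2419 c2879 c3590 k0))))))))) (by decide +kernel)
def c22115 : PP 9 3 T 0x8000400000000045000000000000000000000000040000000000001000010004000000000000000800010010000000002000000000000400000600000000 := rS 0x7e3771a482ecb6425c38aa7b7b472f50db393be09d37de24320c74964794e71630322bfc93b55ad6053f30fc474205 (k8 c21870 c22076 c160 c2316 c22093 c8199 c5212 c22110 (k8 c5529 c12405 c5586 c5582 c5508 c5506 c5241 c19356 (k8 c5562 c5342 c5341 c5340 c5561 c22018 c14805 c5224 (k8 c5225 c9066 c22097 c5475 c5477 c5534 c5543 c17988 (k8 c13796 c8123 c1284 c5678 c1324 c1064 c2062 c2459 (k2 c2419 c327 (k1 c19984 k0))))))) (by decide +kernel)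
def c22116 : PP 9 3 T 0x44000000000000000000000000000000000000000000000000000000000000000000000000000000002000000000000018000000000000 := rS 0xf08e538d14b1dd9a5b554e9eded7a8df610156924ceb28aa85e74b1d97ce40a1008c00715ac49fe4581a37dc094af7cd7117e87de2290890e3a4b23d60f6873c98e539cf9e876a05 (k8 c21870 c5529 c22076 c22093 c5241 c19356 c19420 c5524 (k8 c5373 c5372 c5212 c5562 c5342 c5341 c5561 c9667 (k8 c8199 c22018 c2316 c20782 c160 c64 c5492 c17788 (k8 c20738 c22106 c5505 c5508 c5582 c5586 c22109 c22110 (k8 c756 c22111 c9731 c666 c665 c17749 c1055 c3688 (k8 c5516 c20781 c1196 c1290 c934 c931 c12405 c22114 (k8 c15060 c22115 c20063 c2046 c17892 c17988 c5228 c13796 (k8 c2101 c2072 c22112 c20857 c1709 c1284 c6897 c5458 (k1 c5654 k0))))))))) (by decide +kernel)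
def c22117 : PP 9 3 T 0x8000000000000046000000000000000000000000000008000000000000000000000000000000000000000080000000002000000000000000000000000002 := rS 0xf08e538cd557b62a3b248dce420119ae22f10890e3a473d9e4c72949b25e6f55ad2f39f325d603e29d0ed7bed17ec0dfe05 (k8 c21870 c5586 c5508 c20782 c1709 c5452 c5529 c22076 (k8 c8199 c2316 c5212 c5342 c22093 c5241 c18477 c11945 (k8 c5477 c5325 c5396 c5444 c19356 c19420 c5524 c5372 (k8 c5562 c5341 c5561 c9667 c22018 c160 c64 c9731 (k8 c666 c17749 c20063 c12405 c340 c1290 c17892 c13796 (k4 c2075 c1284 c6897 c5458 (k1 c5654 k0))))))) (by decide +kernel)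
def c22118 : PP 9 3 T 0x8000000000000046000000000000000000000000000008000000000000000000000000000000000000000080000000002000000000000004000000000000 := rS 0x78138e370b7d55ed5940153138aab0e00239807c6d558a35e225218f63a8748a7d32b5a5e73e64bac07c53a1dab45fa05 (k8 c21870 c20782 c1709 c5529 c22076 c8199 c2316 c5212 (k8 c5342 c22093 c5241 c18477 c11945 c5447 c5448 c5374 (k8 c5373 c5341 c5560 c5561 c9666 c22018 c5505 c5506 (k8 c5585 c17803 c22117 c9719 c5642 c22111 c22107 c3048 (k8 c756 c20890 c21991 c5685 c18727 c5682 c2953 c2898 (k4 c2458 c1284 c5691 c5458 k0)))))) (by decide +kernel)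
def c22119 : PP 9 3 T 0x4000000000000046000000000000000000000000000008000000001000000000000000000000000000000080000000042000000000000000000000000000 := rS 0x7fc9b287edf5834d5ad771b85031357ac8e011479ed0e914f98532452dad6979c25d603e29d0f7e02fff67cf6a05 (k8 c21870 c5529 c22093 c5201 c5544 c5502 c5452 c22076 (k8 c8199 c2316 c5212 c5342 c5241 c18477 c11945 c5474 (k8 c5326 c5447 c5445 c5448 c5374 c5373 c5372 c5263 (k8 c9667 c17872 c5685 c20748 c756 c751 c2898 c2458 (k8 c1768 c21991 c20105 c5683 c12713 c14449 c1333 c11946 (k2 c19059 c20621 k0)))))) (by decide +kernel)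
def c22120 : PP 9 3 T 0x4000000000000000000020000000000000000000000000000000000000000000000040054800000180000000000040008000000000000000000000000000 := rS 0x18ecd3bb5500d6f19ed0e79 (k8 c5524 c5373 c5372 c5464 c1247 c1145 c1661 c10702 (k2 c2192 c941 (k1 c20770 k0))) (by decide +kernel)
def c22121 : PP 9 3 T 0x46000000000000000000000000000008000000000000000000000000000000000000000080000000002000000000000004000000000001 := rS 0xcc1b0242ccb5734cfe6e56ac5be718a08804730fd60327b489e5269f50915eb4bce685a2fd55c059fecf7fcf6a05 (k8 c21870 c5529 c22093 c22118 c5201 c5543 c5502 c5500 (k8 c20782 c1709 c22076 c5241 c18477 c5477 c5326 c5398 (k8 c5448 c5444 c5524 c5374 c5372 c22077 c5212 c2316 (k8 c9719 c5642 c6197 c22119 c3048 c2950 c1294 c3052 (k8 c5666 c17735 c20105 c5683 c22120 c21969 c1507 c1259 (k2 c21990 c2329 k0)))))) (by decide +kernel)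
def c22122 : PP 9 3 T 0x46000000000000000000000000000008000000000000000000000000000000000000000080000000002000000000000004000000000000 := rS 0x3c3e31c3287eb06fb4dc6e16bc0964af1d9246e721008c00ff80bdfd9efef9ae22111e9048e7b3c98e52934fa648af37aad6979cf992eb01f14e876a05 (k8 c21870 c5529 c22076 c8199 c2316 c5212 c5342 c22093 (k8 c5241 c18477 c11945 c5477 c5325 c5326 c5447 c5448 (k8 c5444 c19356 c19420 c5524 c5372 c5562 c5340 c5560 (k8 c9667 c160 c64 c5452 c22118 c5201 c5498 c5502 (k8 c5544 c22121 c9731 c666 c17749 c20063 c12405 c340 (k8 c20812 c934 c18038 c1768 c2898 c2458 c2088 c2517 (k4 c2461 c14449 c1333 c3590 (k2 c5464 c5534 (k1 c5691 k0))))))))) (by decide +kernel)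
def c22123 : PP 9 3 T 0x2000000000000046000000000000000000000000000008000000000000000000000040000800000200000000000000002000000000000010000000000000 := rS 0xd846cd1ca77c03b71859641d8abc63a1949b252a990d8c5ea9719aada3e370ad6979cf992eb01f14e876a05 (k8 c21870 c5529 c22076 c8199 c2316 c5212 c5342 c22093 (k8 c5241 c18477 c11945 c1719 c5464 c5501 c5500 c22116 (k8 c22122 c5477 c5476 c5475 c5447 c5446 c5396 c5444 (k8 c22077 c5341 c22018 c1294 c2177 c5685 c3577 c2458 (k8 c1677 c5691 c5458 c5534 c5537 c1258 c18037 c8484 k0))))) (by decide +kernel)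
def c22124 : PP 9 3 T 0x2000000000000044000000000000000000000000000008000000000000000000000000000000000020000000000000002000000000000000000000000000 := rS 0x1133980444b22445606438e91d0e4579bd56b4bce7cc97580f8a743b57bc05fe05 (k8 c21870 c5544 c5502 c5498 c5529 c22076 c8199 c2316 (k8 c5212 c5342 c22093 c5241 c18477 c11945 c5477 c5325 (k8 c5326 c5373 c5562 c5341 c5561 c2035 c3052 c3593 (k4 c5685 c2895 c9731 c9719 (k2 c2457 c21991 k0))))) (by decide +kernel)
def c22125 : PP 9 3 T 0x2000000000000002000020000000000000000000040000000000000000000011000000000000000000000040000000002000000000000015000005000001 := rS 0xcd048d82c220e80b6a1f3d9e526c94ab459e05 (k8 c21870 c5543 c5501 c5446 c5396 c5444 c5524 c5372 (k8 c2316 c5529 c5642 c20811 c6197 c3577 c1259 c1507 (k2 c2329 c21990 k0))) (by decide +kernel)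
def c22126 : PP 9 3 T 0x2000000040000000000000000000000000100000000000000000000000000000000000040000000000040400000000004000000800000 := rS 0x3824ec63649852a57 (k8 c21872 c5446 c5445 c5396 c19420 c20791 c1506 c673 (k1 c5643 k0)) (by decide +kernel)
def c22127 : PP 9 3 T 0x4000000000000046000000000000000000000000000008000000000000000000000000000000000000000000000000002000000000000010000000000000 := rS 0x378f8ca2f0583ab0c9abcce72002b7d8f108c76b01947ca526c94a96c36317ad2f39f3d0ed52e33 (k8 c22116 c22122 c5529 c22076 c22093 c5241 c18477 c5477 (k8 c5476 c5475 c5474 c5446 c5396 c5444 c19356 c5263 (k8 c22077 c5212 c5341 c9667 c22018 c5201 c22124 c22125 (k8 c17749 c663 c20812 c20916 c5683 c2177 c3577 c22126 (k4 c1314 c1315 c22123 c2829 k0))))) (by decide +kernel)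
def c22128 : PP 9 3 T 0x8000000000000000000000000000000000000200000008000000000000000000000000000000000000000000000020000000000000000004000000000000 := rS 0x3f698f48257 (k4 c21872 c5340 c5560 c20757 (k2 c2824 c17860 k0)) (by decide +kernel)
def c22129 : PP 9 3 T 0x4000000000002000100000000000000000000000000000100000000000000000000000000000000000040100010080000000000000004000001000000 := rS 0x3b200bf93339fc006349b24c295 (k8 c5446 c5445 c5396 c5444 c19420 c9719 c806 c931 (k4 c20916 c1315 c5670 c20791 (k1 c938 k0))) (by decide +kernel)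
def c22130 : PP 9 3 T 0x46000000000000000000000000000008000000000000000000000000000000000000000000000000002000000000000010000000000000 := rS 0xd167b35c2091b27200b20b44e2a220e9c00401399f7c6d546fb92eb5a58c4361f788a4223d8e92eb019479ed0e913cca739f3d0ed466934fb252a05 (k8 c21870 c5446 c5396 c5448 c5444 c22116 c5529 c22076 (k8 c22093 c5241 c19356 c5524 c5374 c5373 c5372 c5263 (k8 c22077 c5212 c5342 c5341 c5560 c9667 c8199 c22018 (k8 c2316 c5475 c5476 c18477 c11945 c22122 c22127 c5505 (k8 c5585 c17803 c22128 c22129 c17749 c5642 c22111 c20811 (k8 c6197 c3048 c756 c3577 c5685 c20818 c1258 c1259 (k4 c1507 c2898 c2078 c1650 (k2 c1481 c21990 k0)))))))) (by decide +kernel)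
def c22131 : PP 9 3 T 0x4000000000000000000000000000004000000000000000001000000000000000000000000000000000000000000000000000000000008 := rS 0x3a1b (k2 c20794 c20811 (k1 c5649 k0)) (by decide +kernel)
def c22132 : PP 9 3 T 0x8008000000000002000000000000000000000000000000000000000000000000000000000000000010000040000000000000000000000000000000000000 := rS 0x1a6cb (k2 c5464 c5579 (k1 c8156 k0)) (by decide +kernel)
def c22133 : PP 9 3 T 0x500000000000000000000400020000000000005411440000000000800 := rS 0x3803b7c7e57 (k4 c21872 c2824 c2829 c1456 (k2 c3590 c2471 k0)) (by decide +kernel)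
def c22134 : PP 9 3 T 0x46000000000000000000000000000000000000000000000000000000000000000000000000000000002000000000000010000000000000 := rS 0x31ef9d8be7d33869c6e124fb164afa58ed6a373902840230000d2f3b4ca54c2c94fa4cd7110fbc4223d2092c8f58479ecf26394e73e7a1da8ccae05 (k8 c21870 c21872 c22116 c5529 c22076 c22093 c5241 c19356 (k8 c19420 c5524 c5372 c5263 c5212 c5562 c5342 c5340 (k8 c5560 c9667 c22018 c2316 c160 c64 c5444 c5448 (k8 c5396 c5445 c5446 c5447 c22130 c20460 c22131 c5642 (k8 c9731 c666 c665 c17749 c20063 c4733 c340 c5516 (k8 c20812 c934 c5228 c12405 c2898 c2458 c18714 c1903 (k4 c22133 c1315 c20791 c5493 (k2 c1913 c5653 k0)))))))) (by decide +kernel)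
def c22135 : PP 9 3 T 0x44000000000000000000000000000000000000000000000000000000000000000000000000000000002000000000000010000000000002 := rS 0x38c7e3765a4990954b99d62aa9d7ba07dff6b85a23b7fb393be024aca2b12508e696b53902840238887de2111e9063a4b23d603287318cdbec7c96c6539cf9e876a05 (k8 c21870 c5529 c22076 c22093 c5241 c19356 c22134 c5209 (k8 c5357 c14805 c22116 c19420 c5373 c22077 c5212 c5562 (k8 c5342 c5341 c5340 c5560 c9667 c22018 c2316 c160 (k8 c9731 c666 c665 c17749 c4733 c5516 c2470 c1196 (k8 c933 c1290 c934 c12405 c5225 c9066 c22097 c20798 (k8 c5456 c5459 c5460 c5543 c5453 c4650 c5201 c5228 (k8 c13796 c5506 c2123 c1284 c2125 c5678 c20916 c1324 (k4 c1568 c327 c2459 c3590 k0)))))))) (by decide +kernel)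
def c22136 : PP 9 3 T 0x44000000000000000000000000000000000000000000000000000000000000000000000000000000002000000000000010000000000000 := rS 0x2e9301004125fd8866539cf9e876a05 (k8 c21870 c5529 c22076 c22093 c5241 c19356 c22077 c22134 (k4 c9668 c9669 c22135 c5642 (k2 c261 c1107 (k1 c5648 k0)))) (by decide +kernel)
def c22137 : PP 9 3 T 0x44000000000000000000000000000000000000000000000000000000000000000000000000000000002000000000000000000000000000 := rS 0x80c99f7c6df67b8dc3e024fb1647f1cbce963b5a99dee373902840230e801329f4980f60079df7c6863949e4f68fce7cc8e4b208f6b011d0bc76a6b88bf43e05 (k8 c21870 c2316 c20782 c160 c64 c5529 c22018 c22076 (k8 c9667 c5212 c5560 c5340 c5342 c5562 c22093 c5241 (k8 c5263 c5372 c5524 c19356 c19420 c22136 c5450 c5324 (k8 c20806 c5224 c22131 c5444 c5448 c5447 c5642 c331 (k8 c9731 c666 c665 c17749 c20063 c342 c664 c4733 (k8 c340 c5516 c20781 c2471 c806 c934 c17966 c12405 (k8 c5654 c2898 c2458 c5543 c5538 c17960 c22133 c20907 (k2 c5670 c12653 k0)))))))) (by decide +kernel)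
def c22138 : PP 9 3 T 0xa000000000000000000000000000000000000000000000000000000004000000000000000000000002000000000000020000000000002 := rS 0x2afc1ec1ccefbefd4b99d2aa964a6c6e633ca64f66135bdc461f0e8ec4093a5bcc1529ce4476a05 (k8 c21870 c5529 c160 c17712 c19356 c665 c20781 c5516 (k8 c5444 c666 c340 c5486 c2316 c9731 c8123 c64 (k8 c5445 c742 c5447 c2428 c5395 c20063 c5397 c5396 (k8 c5489 c5488 c5487 c5404 c20782 c5450 c5324 c19684 (k4 c17966 c5654 c5500 c18012 k0))))) (by decide +kernel)
def c22139 : PP 9 3 T 0x2000000000000042000000000000000000000000000000000000000000000000000000000000000000000000000000002000000000000000000000000002 := rS 0x81f1b507c32221d8fb03709240ce359454fe38631cbc3a17fc0556fd4ba553ec94de4c0637319e5327b309adee230f8f4824b23a3d6a3b49bd440f3949c59f4b052b4cea9ce4476a1dd9046b005 (k8 c21870 c20261 c5558 c22137 c5486 c5529 c160 c17712 (k8 c5489 c5487 c5490 c665 c5516 c21935 c667 c19356 (k8 c20781 c666 c2420 c5444 c340 c4733 c4628 c5562 (k8 c5342 c5340 c5560 c2316 c9731 c8123 c64 c5445 (k8 c742 c5447 c2428 c5395 c20063 c28 c18631 c5397 (k8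 c5396 c5448 c5488 c5404 c20782 c5500 c5502 c5544 (k8 c19358 c18012 c17749 c22099 c5654 c806 c1290 c934 (k8 c2620 c2471 c345 c2898 c2460 c22133 c20822 c18038 (k4 c673 c389 c390 c5576 (k2 c20766 c5670 k0)))))))))) (by decide +kernel)
def c22140 : PP 9 3 T 0x42000000000000000000000000000000000000000000000000000000000000000000000000000000002000000000000000000000000002 := rS 0x40e02497faca2b12229ca75a1f6bce96f55a91c22f705082b023dac443ead0eaa76405 (k8 c21870 c22137 c5489 c5486 c5490 c2316 c160 c5529 (k8 c9731 c20261 c666 c665 c8123 c5558 c5562 c4733 (k8 c2420 c5516 c20781 c22139 c22043 c5657 c17749 c5326 (k8 c933 c1290 c934 c20798 c345 c15060 c2460 c18038 k0)))) (by decide +kernel)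
def c22141 : PP 9 3 T 0x2000000040000000000000000000008000000000000000001000000000000000000000040004005000040000000000000000810000008 := rS 0xeecd68b1d9e061b2702cf51896c3657 (k8 c21872 c20794 c5474 c5476 c5477 c21936 c1258 c1259 (k4 c1108 c1650 c2326 c1481 (k2 c2329 c672 (k1 c20853 k0)))) (by decide +kernel)
def c22142 : PP 9 3 T 0x20000000000000000000000000000000000000000000000140000040000800000100000055040000800000000000000000000000 := rS 0x102e3899bd228f (k4 c5526 c5374 c2819 c2457 (k2 c2458 c1747 (k1 c3610 k0))) (by decide +kernel)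
def c22143 : PP 9 3 T 0x1000000000048000100040000000000000000000000000000000400000080000540000040000000000000400055040001000000000000000000000008 := rS 0x9244f91c7c680 (k4 c5910 c5463 c751 c5691 (k2 c21890 c5588 (k1 c503 k0))) (by decide +kernel)
def c22144 : PP 9 3 T 0x48000100040000000000000000000000000000000000000004000800020000000000000000000041040001000000000000000000000008 := rS 0x229c60080 (k4 c17330 c1780 c751 c3067 (k1 c21890 k0)) (by decide +kernel)
def c22145 : PP 9 3 T 0x1000000000048000100040000000000000000000000000000000000000004000000020000001000000000400055040001000000000080000000010008 := rS 0x229c5ff1271b7dc2471eb1dec57 (k8 c21872 c1482 c2326 c12640 c13598 c1483 c2331 c22144 (k4 c22143 c20798 c756 c504 (k1 c21890 k0))) (by decide +kernel)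
def c22146 : PP 9 3 T 0x4000000000000000000000000000000000000000000004000000000000000080000080000000000000000000100000000000040000040502000000040000 := rS 0x8e9147a49 (k4 c2947 c2771 c503 c2164 (k1 c20833 k0)) (by decide +kernel)
def c22147 : PP 9 3 T 0x1000000000058000000040000000000000000040004000000000000000004000000020000001000000100000015040001840000000180000000010008 := rS 0x447fd63e6b36fb8486d6f784d1a81d01fd1e3b6381813def6ca738d3818c1ec57 (k8 c21872 c1482 c1481 c4542 c4482 c5211 c19356 c5501 (k8 c5165 c1510 c5643 c2326 c153 c5526 c676 c22145 (k8 c5380 c5381 c5564 c19313 c20754 c20934 c1721 c22146 (k4 c22142 c17861 c5231 c20587 (k2 c20837 c504 k0))))) (by decide +kernel)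
def c22148 : PP 9 3 T 0x42000000000000000000000000040000000000000000000000000000005000000000000000000000402000000000000080000000000000 := rS 0x148947c6f89fc903a0ac840b6b57b05883e1681792a733e8e432f39d8883e02009ecc287338752ef16381812794cca739b5c9ec8ae05 (k8 c21870 c21872 c22137 c18631 c5529 c5211 c19356 c5447 (k8 c2428 c1510 c5643 c2326 c5401 c5404 c5486 c5487 (k8 c744 c5445 c742 c22140 c5642 c2316 c6197 c22141 (k8 c447 c5393 c395 c21929 c9719 c5488 c20857 c20770 (k8 c20823 c4278 c1450 c1482 c4109 c2101 c22147 c5558 (k8 c9667 c700 c5231 c5382 c5565 c18064 c1113 c404 (k1 c21947 k0))))))) (by decide +kernel)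
def c22149 : PP 9 3 T 0x2000000000000050000220000000000000000000000000000000000000000000000000000000001051000000004000040040000000000000000000000000 := rS 0x2ca0515f9c4d1a9147aae02ff (k8 c5544 c5502 c5500 c5526 c5374 c5381 c5382 c20903 (k4 c20937 c20762 c5685 c2460 k0)) (by decide +kernel)
def c22150 : PP 9 3 T 0x58000000040000000000000000040004000000000000000010000000001100000000000500004010840000000000000500000800000088 := rS 0x207c6d41f110fe7108e856a164e2afd8f72d0c95aaf4b99d2aa994e71e6f1 (k8 c5401 c447 c5211 c19356 c5489 c5488 c5487 c5404 (k8 c5406 c5490 c673 c672 c2101 c5657 c5500 c18006 (k8 c13264 c4109 c22149 c9667 c19101 c676 c21890 c389 (k4 c390 c5576 c20766 c5670 k0)))) (by decide +kernel)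
def c22151 : PP 9 3 T 0x42000000000000000000000000040000000000000000000010000000000000000000000000000000002000000000000080000000000000 := rS 0x9d0b338bc7703334123b4ab2536733eca738390ccec45b50f80802794c9ecc3934399c3a9778ec8ae05 (k8 c21870 c21872 c22137 c5401 c5404 c5486 c5487 c744 (k8 c18631 c5445 c742 c5447 c2428 c22140 c5642 c2316 (k8 c5529 c6197 c22141 c5393 c395 c5211 c19356 c21929 (k8 c9719 c5397 c5396 c5488 c153 c1510 c2329 c5643 (k4 c22150 c20857 c22148 c1450 (k2 c1650 c1258 k0)))))) (by decide +kernel)
def c22152 : PP 9 3 T 0x5a000000000000000000000000040004000000000000000010000000000000000000000000004004040000000000000040000800000088 := rS 0x19a76f017c769733a55929b4ce4cfb29ce0e43217 (k8 c1259 c5393 c395 c5211 c19356 c21929 c18631 c5447 (k8 c5397 c5396 c5488 c5487 c5404 c1674 c1450 c5654 (k2 c20857 c5537 (k1 c22150 k0)))) (by decide +kernel)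
def c22153 : PP 9 3 T 0x2000000000000040000220000000000000000000000000000000000000000000000000000000000000000000000000042000000000000000000000000000 := rS 0xb489ed55aaf54a1ccfb2 (k8 c22137 c5487 c744 c5489 c5406 c5490 c5529 c5382 (k2 c22149 c2610 k0)) (by decide +kernel)
def c22154 : PP 9 3 T 0x42000000000000000000000000040000000000000000000010000000000000000000000000000000002000000000000000000000000000 := rS 0xf8fe27659c502b52089453a1f63dd9e341e8c410330385c6e934fa8432730d9f6539c79cec45b50f80802794c9ecc3934399c3a9778ec8ae05 (k8 c21870 c21872 c22137 c5401 c5404 c5486 c5487 c744 (k8 c18631 c5445 c742 c5447 c2428 c22140 c5642 c2316 (k8 c5529 c6197 c22141 c447 c5211 c19356 c21929 c20794 (k8 c9719 c5393 c5398 c5448 c5444 c22151 c1259 c22152 (k8 c20297 c5643 c20764 c1512 c20895 c21938 c502 c5657 (k8 c22153 c8199 c9666 c13854 c1339 c12653 c19101 c8797 (k4 c268 c17735 c3579 c276 k0))))))) (by decide +kernel)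
def c22155 : PP 9 3 T 0x42000000000000000000000000040000000000000000000000000000000000000000000000000000002000000000000000000000000200 := rS 0x1f1fc4ecb38a056a41128a743ecf0f7d9e341b8f42e311981dfa9554a4d3ea10cb2536733eca7393b116d43e794c9ecc3934399c3a9778ec956f40d8080205 (k8 c21870 c22140 c5642 c20794 c22154 c1923 c22137 c5401 (k8 c5404 c5486 c5487 c744 c18631 c5445 c742 c5447 (k8 c2428 c2316 c5529 c6197 c22141 c5211 c19356 c21929 (k8 c9719 c5397 c5396 c5393 c5398 c5448 c5444 c5489 (k8 c5488 c20782 c30 c20738 c20764 c1507 c1512 c1510 (k8 c20895 c2339 c5450 c18012 c5165 c22153 c8199 c9666 (k8 c13854 c1339 c12653 c19101 c8797 c268 c17735 c3579 (k1 c276 k0)))))))) (by decide +kernel)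
def c22156 : PP 9 3 T 0x2004000000000042000100000000000000000000040000000000000000000000000000000000000000000000000000002000000000000000000000000000 := rS 0x19a7771200fee11e9f5be47088dbc2cf55bd036c94aa652efd54a6c767b308e432d3220d40c0994e4fe6b1372cce2b514888041f398051f9cdaec80a57 (k8 c21872 c21870 c22137 c5529 c5211 c5526 c22140 c9719 (k8 c2316 c5642 c6197 c8199 c1339 c19101 c8280 c5666 (k8 c20792 c17760 c18631 c19356 c22155 c5643 c20806 c21890 (k8 c2937 c5393 c395 c5445 c742 c1674 c5397 c5489 (k8 c20782 c5404 c5447 c5488 c5396 c20794 c22154 c1923 (k8 c2340 c18012 c5654 c9667 c13598 c2331 c21929 c12640 (k4 c1483 c676 c5670 c5691 (k2 c939 c2624 (k1 c22148 k0))))))))) (by decide +kernel)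
def c22157 : PP 9 3 T 0x2000000000000042000100000000000000000000040000000000000000000000000000000000000000000000000000002000000000000000000000000000 := rS 0x336a0fdaecbf134d6244371c4e73b3ca64f6614399c3a97788d40c0994e7327b21e844fab5148880401da87c0a57 (k8 c21872 c21870 c2316 c5529 c22140 c5642 c6197 c8199 (k8 c1339 c21929 c9667 c12640 c22137 c18631 c5211 c19356 (k8 c22155 c5643 c20806 c5401 c5404 c5486 c5487 c744 (k8 c5445 c742 c5447 c2428 c22141 c9719 c19101 c5666 (k8 c21890 c20792 c2937 c22156 c5464 c5465 c5576 c17820 (k2 c389 c21481 k0)))))) (by decide +kernel)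
def c22158 : PP 9 3 T 0x20000000000000000000000000000000000000000000000000014000000000000000000005002000000000000084000001000108 := rS 0xcc (k2 c21990 c2330 k0) (by decide +kernel)
def c22159 : PP 9 3 T 0x42000000000000000000000000040000000000000000000000000000000000000000000000000000002000000000000000000000000000 := rS 0x687d8321b785a2cf1d8d40c0955bd276399488b39b57e87de2970ea55528733865929bc9ec8f6613ca64e61b01004ae05 (k8 c21870 c21872 c22140 c5642 c20794 c9719 c5447 c2428 (k8 c5445 c742 c22137 c18631 c5397 c5396 c5393 c5487 (k8 c744 c5489 c5488 c5486 c5404 c5401 c2316 c20782 (k8 c5529 c5211 c6197 c19356 c395 c22141 c22154 c1923 (k8 c22155 c5643 c20806 c1674 c2340 c1926 c18012 c5654 (k4 c22158 c20681 c22153 c22157 k0)))))) (by decide +kernel)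
def c22160 : PP 9 3 T 0x2000000000000008000000040000000000000000080000000000000000000000000000000100000000000500000000002001000000000000000001000008 := rS 0x6235040e066170601c40c679ed43ef13c86cae05 (k8 c21870 c21872 c20794 c2428 c5401 c2316 c5529 c5540 (k8 c18101 c17763 c13650 c265 c1108 c20297 c2480 c2481 (k2 c439 c20764 (k1 c20895 k0)))) (by decide +kernel)
def c22161 : PP 9 3 T 0x8000000040000000000000000000000000000000000000000000000000000000000000000000000000001000000000014000000000201 := rS 0x2e317886c0405 (k4 c21870 c5642 c20794 c5401 (k2 c20764 c1507 (k1 c20895 k0))) (by decide +kernel)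
def c22162 : PP 9 3 T 0x800000000005a000120000000000000000000000000000000000000000000000000160040000000000000000050440000000000000000000000000000 := rS 0x450e303587cd18df6bb2d0267 (k8 c5487 c5463 c5464 c5465 c5580 c20755 c17861 c17820 (k4 c2201 c753 c17872 c1295 k0)) (by decide +kernel)
def c22163 : PP 9 3 T 0x42000000000000000000000000000004000000000000000000000000000000000000000000000000002000000000000015000000000000 := rS 0xfff991166b513c0ce26e4078cfe25088a7428f10e73c2d069b35abde67ed4d61f439ecf2733e88c923723fb694994db258e192f1dc0c0930ca4360200e4cce974aec80a57 (k8 c21872 c21870 c22137 c5488 c5404 c5487 c18631 c22140 (k8 c5642 c20794 c17756 c5445 c22161 c5643 c673 c20857 (k8 c5393 c21979 c5396 c5397 c5447 c22159 c22160 c5520 (k8 c5518 c5334 c5331 c21929 c9719 c2428 c742 c744 (k8 c2316 c64 c5529 c20518 c5653 c5454 c5495 c5496 (k8 c20853 c5459 c20815 c8261 c5526 c18470 c8199 c9667 (k8 c9666 c676 c22162 c5670 c1747 c751 c20855 c2814 (k4 c1148 c2819 c21890 c17998 (k2 c20587 c9612 k0))))))))) (by decide +kernel)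
def c22164 : PP 9 3 T 0xa000000000000000000000000080008000100000000000000000000000040000000000000000000402000000000000000000000000088 := rS 0xfae96cdb98fb397620f0344199d2dbcf6a87c99ecc2794c88dee4f058ddea5e33a5d2a0f (k8 c21871 c5488 c5404 c5487 c20857 c5519 c5518 c5516 (k8 c5335 c5333 c5331 c5447 c2428 c5445 c742 c18631 (k8 c744 c5529 c5325 c5474 c18477 c20774 c20815 c5669 (k8 c2426 c4763 c20854 c3781 c21945 c21943 c19938 c17823 (k1 c5242 k0))))) (by decide +kernel)
def c22165 : PP 9 3 T 0x42000000000000000000000000000000000000000000000000000000000000000000000000000000002000000000000014000000000000 := rS 0xfef9c5088b35a89e067137203c6d36a9fc863d1284453a147834439cf0b419a3067cecbc770331c1329da9ac3ead57a5d2a87339ecf2730d9f446491bbd48feda500803934c98536c90cec80a57 (k8 c21872 c21870 c22137 c5393 c5396 c5397 c5445 c5447 (k8 c18631 c22140 c5642 c22159 c22160 c5520 c5519 c5518 (k8 c5334 c5331 c21929 c20794 c9719 c2428 c742 c5487 (k8 c744 c5488 c5404 c5406 c5490 c2316 c64 c5529 (k8 c17756 c22161 c21979 c5643 c673 c20857 c22164 c20518 (k8 c22163 c1916 c20853 c5459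 c20815 c8261 c5522 c5526 (k8 c18470 c8199 c9667 c9666 c12640 c5252 c676 c21481 (k8 c1918 c22162 c5670 c1747 c751 c20855 c2814 c1148 (k4 c2819 c21890 c18694 c17998 (k2 c9612 c3010 k0)))))))))) (by decide +kernel)
def c22166 : PP 9 3 T 0xa000020000000000000000000080000000000000000000000000000000040000000000000000000002000000000000020000000000008 := rS 0x3cd56cc67f85383904086520d7e87de21d5486c46f77afb7269930a6d9219ef81c2e97688ecae05 (k8 c21870 c21872 c5332 c1704 c5404 c1619 c20806 c5450 (k8 c5393 c5396 c5397 c5445 c5447 c18631 c22160 c5519 (k8 c5333 c5331 c20794 c5489 c5486 c5401 c2316 c20782 (k8 c5522 c19356 c265 c5643 c274 c17923 c5458 c1650 (k4 c5688 c2075 c2500 c3581 k0))))) (by decide +kernel)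
def c22167 : PP 9 3 T 0x2000000000050000110040000000000000000080000000100000000000000000100004000000000000004004011000000000000000020000000000000 := rS 0x47a35fe7e69206029181b8e27e325907e425ac0a59adf1e8200e57 (k8 c21872 c20806 c5643 c1512 c5538 c5537 c8199 c5212 (k8 c9666 c5241 c13854 c5342 c21911 c5547 c5549 c5550 (k8 c5589 c5592 c12653 c21501 c5670 c2943 c2084 c2924 (k1 c20762 k0)))) (by decide +kernel)
def c22168 : PP 9 3 T 0x40000210000000000000000000000000000000001000000004000000000000000000000000000000002000000000000000020200000008 := rS 0x4076b117eab5e21d33aa7641b (k8 c20794 c22137 c5489 c5487 c5486 c5401 c5490 c20782 (k4 c160 c5529 c19400 c19398 k0)) (by decide +kernel)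
def c22169 : PP 9 3 T 0x42000000000000000000000000000000000100000000000000000000004040000000000000000000002000000000000020000000000000 := rS 0x3dfe380a462a28ac8947ed7479bc271346e80ecad78a1cce934fa8432c90d88fbf3b688ed6a6b88ed5c27d66f833b4a01004f6613ca641007c9ec80a57 (k8 c21872 c21870 c22137 c18631 c20806 c5643 c5447 c2428 (k8 c5445 c742 c22140 c5642 c22159 c22166 c5669 c5537 (k8 c21929 c10249 c5529 c160 c64 c17733 c5332 c1704 (k8 c5324 c5450 c5331 c20794 c5396 c5393 c5398 c5448 (k8 c5444 c5487 c744 c5401 c5490 c20770 c22167 c5381 (k8 c5382 c5564 c5565 c5568 c2187 c275 c1113 c14481 (k4 c21947 c1289 c747 c15060 (k2 c17754 c20818 (k1 c5166 k0))))))))) (by decide +kernel)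
def c22170 : PP 9 3 T 0x42000200000000000000000000000000000100000000000000000000000040000000000000000000002000000000000020020000000000 := rS 0x7bfc70148c56b2ad4399c47df9dad4d711daf833b4a01004f6613ca6727b246c4d1e05 (k8 c21870 c5568 c5382 c5381 c22137 c18631 c5447 c2428 (k8 c5445 c742 c22140 c5642 c22159 c22166 c5669 c5529 (k8 c160 c64 c17733 c5324 c5450 c5331 c5487 c744 (k8 c5490 c5339 c1289 c747 c15060 c17754 c20818 c5166 k0)))) (by decide +kernel)
def c22171 : PP 9 3 T 0x42000200000000000000000000000000000100000000000000000000000040000000000000000000002000000000000020000000000000 := rS 0x6b106b029128fcde1378a4d3ea10cb24360200f7c1007c9ec80a57 (k8 c21872 c21870 c22137 c18631 c20806 c5643 c5450 c22140 (k8 c5642 c20794 c5396 c5393 c5398 c5448 c5444 c5401 (k8 c5564 c5565 c275 c1113 c22170 c21947 c13854 c14481 (k1 c1763 k0)))) (by decide +kernel)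
def c22172 : PP 9 3 T 0x42000000000000000000000000000000000100000000000000000000000040000000000000000000002000000000000020000000000000 := rS 0x3fd1a8f58b48e0d56ba06029181b8e27e325b2883f212d602229d0b387a08da9ad2e8733a4d3ec939f7c0ee13eb35bfe0ced2804013d984f299c9ec8ae05 (k8 c21870 c21872 c22137 c18631 c5447 c2428 c5445 c742 (k8 c22140 c5642 c22159 c22166 c5669 c5538 c5537 c21929 (k8 c10249 c20806 c5450 c9719 c5396 c5448 c5444 c5487 (k8 c744 c5404 c64 c5529 c5643 c1512 c22169 c22171 (k8 c8199 c9667 c5212 c9666 c5241 c13854 c21967 c5342 (k8 c21911 c5547 c5549 c5550 c5589 c5592 c12653 c1763 (k8 c1660 c8797 c21501 c15326 c2875 c754 c2942 c20819 k0))))))) (by decide +kernel)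
def c22173 : PP 9 3 T 0x42000000000000000000000000000000000000000000000000000000000040000000000000000000002000000000000004000000000000 := rS 0x23ad57f78cfd0148c0daeb2254548a2812bc91e6f89a3503a0acca040df1ca75c3e05ae776a6b88ab5e21d4399d3f933d984f2993e8080223a577e76171a25f6405 (k8 c21870 c22137 c5404 c22165 c1619 c5324 c5450 c22159 (k8 c5331 c22140 c5642 c21929 c5447 c2428 c5445 c742 (k8 c18631 c5448 c5487 c744 c5486 c5401 c5490 c160 (k8 c64 c5529 c22166 c17733 c5669 c10249 c5458 c5534 (k8 c5538 c17923 c22172 c19369 c5212 c5380 c5381 c5382 (k8 c5565 c5568 c19413 c1113 c21947 c456 c1289 c540 (k8 c541 c1764 c2628 c747 c15060 c22094 c17754 c20762 (k2 c20749 c5778 (k1 c2569 k0))))))))) (by decide +kernel)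
def c22174 : PP 9 3 T 0x40000000000a000000000000000000000000080000000200000000000000000000000080000000000000000000000000000000000000000000000008 := rS 0x6880721b (k4 c20794 c5317 c18673 c2480 (k1 c265 k0)) (by decide +kernel)
def c22175 : PP 9 3 T 0x40000200000000000000000000080004000000100000000000000000000000001000000000400000002000000000000000020000000000 := rS 0x2029181bfe2a45aced55af14399f64237a91d1b13 (k8 c5382 c5381 c5520 c5519 c5331 c22137 c5487 c744 (k8 c5401 c5490 c5529 c5339 c456 c1289 c11059 c16948 (k2 c747 c15060 (k1 c20762 k0)))) (by decide +kernel)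
def c22176 : PP 9 3 T 0x42000200000000000000000000000000000000000000000000000000000000000000000000000000002000000000000004000000002000 := rS 0x1ac41ac0a44a3f3784de2934fa8432c90dced1e7d044a7bf4a010040f93d92d63a38630d00a57 (k8 c21872 c21870 c22165 c22173 c2480 c3771 c4734 c22137 (k8 c18631 c20806 c22140 c5642 c22159 c5450 c22174 c5643 (k8 c21929 c2487 c5324 c20794 c5396 c5393 c5398 c5448 (k8 c5444 c5401 c5564 c5565 c275 c1113 c22175 c21947 (k2 c13854 c14481 (k1 c1763 k0)))))) (by decide +kernel)
def c22177 : PP 9 3 T 0x100040000000000000000000000000000000000008000000000002000000000000000000110000000000000000000000000000000 := rS 0xf19fdbcd4 (k4 c2507 c2506 c20749 c5580 (k1 c5670 k0)) (by decide +kernel)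
def c22178 : PP 9 3 T 0x42000000000000000000000000000000000000000000000000000000000000000000000000000000002000000000000004000000002000 := rS 0x9d963f389fd18ff6ba06029181c4c83f2128a7439ddaa1cce934fa84e6174ba3d98cff6a64c29b64867c2d11d8f411296377e94071a64f647d010040a57 (k8 c21872 c21870 c22140 c5642 c21929 c22137 c18631 c22165 (k8 c20806 c22159 c5450 c22173 c22174 c5643 c1512 c5332 (k8 c1704 c5535 c5393 c5396 c5397 c5445 c5447 c22160 (k8 c20739 c5688 c2487 c5404 c1619 c9719 c5398 c5448 (k8 c5444 c5487 c744 c5529 c5522 c22176 c8199 c9666 (k8 c5241 c13854 c5547 c5550 c5589 c5592 c12653 c1763 (k8 c22177 c20762 c808 c753 c276 c20621 c268 c3579 k0))))))) (by decide +kernel)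
def c22179 : PP 9 3 T 0x42000000000000000000000000000000000000000000000000000000000000000000000000000000002000000000000004000000000000 := rS 0x1e43910834112955b319fe1633440fdf1a3f43ef10eaa4363b11bddebeda500803934c98536c90cec8ae05 (k8 c21870 c21872 c22137 c5393 c5396 c5397 c5445 c5447 (k8 c18631 c22140 c5642 c22159 c22160 c5519 c5333 c5331 (k8 c5332 c20794 c5489 c5486 c5401 c2316 c20782 c22165 (k8 c5450 c20806 c1704 c22173 c5535 c20739 c5688 c2075 (k4 c22174 c5643 c22178 c265 (k2 c273 c3581 (k1 c2500 k0))))))) (by decide +kernel)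
def c22180 : PP 9 3 T 0x8000000000000000000000000000000000000000000000050000000002100000000000000000000002000000000000010000504000000 := rS 0x79aadfa1f788755205 (k8 c21870 c5489 c5486 c5401 c2316 c20782 c2075 c2501 (k1 c3581 k0)) (by decide +kernel)
def c22181 : PP 9 3 T 0x1000000000042000000000000000000000000000004000000000000000000000000001000000000000000000000002000000000000000000000000000 := rS 0x1c48a806ab28fe11d0b3b39b54ba7cf67939bdfdb4a4c98536c90364f64c704ca46402008640a57 (k8 c21872 c21870 c5393 c22140 c5642 c22179 c5316 c20738 (k8 c21979 c22137 c18631 c20297 c5396 c5397 c5445 c5447 (k8 c22159 c22160 c5333 c9719 c2428 c742 c5448 c5404 (k8 c5529 c5669 c12046 c18470 c9667 c676 c21939 c1660 (k4 c20621 c390 c751 c21890 k0))))) (by decide +kernel)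
def c22182 : PP 9 3 T 0x100200000000020a000000000000000000000000080000000100000000000000000000000000000008000000000000000000800000000000000000000080 := rS 0x1769d (k2 c5458 c5430 (k1 c21942 k0)) (by decide +kernel)
def c22183 : PP 9 3 T 0x2000000000142000200000000000000000000000000000000000000000000000000000000000000000000000000002000080000000000000000800000 := rS 0x3dfe32992c2255ac0a44eb58e8973a8f09c4d1bb556abde2670dd2bbec704ca4333b3b37c825e010040c32c9ec80a57 (k8 c21872 c21870 c22137 c18631 c22179 c20297 c22140 c5642 (k8 c1107 c4278 c5538 c2041 c5474 c5393 c5316 c20738 (k8 c21979 c5492 c22159 c20794 c5487 c5401 c5406 c5490 (k8 c5529 c5381 c5382 c5564 c5568 c18470 c20945 c2159 (k8 c2610 c267 c22175 c21947 c5343 c5558 c5342 c5563 (k2 c21911 c17816 (k1 c21949 k0))))))) (by decide +kernel)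
def c22184 : PP 9 3 T 0x42000000000000000000000000000000000000000000000004000000000000000000000000000000002000000000000000000000001000 := rS 0x229c5aa80f19feb011d0ee4825e0b37d3be09d8e4b4aa7e87de21d54a1cce733e82fda9930a6c3329ef81b26d1668846a327abdc474a0d80802c9d903c0a57 (k8 c21872 c21870 c21871 c22137 c5396 c22140 c5642 c20794 (k8 c22159 c5331 c5333 c5519 c22179 c120 c265 c22180 (k8 c2129 c18631 c20297 c5492 c5316 c5393 c5397 c5445 (k8 c5447 c22160 c5516 c21929 c9719 c5487 c744 c5489 (k8 c5486 c5401 c2316 c20782 c3581 c20774 c6897 c5474 (k8 c22181 c5458 c5538 c17923 c1107 c4278 c22182 c22183 (k8 c9667 c5212 c676 c21911 c5670 c20766 c751 c390 (k1 c21890 k0)))))))) (by decide +kernel)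
def c22185 : PP 9 3 T 0x42000000000000000000000000000000000000000000000000000000000000000000000000000000002000000000000000000000001000 := rS 0x3c0389dbc99a21d932436020088deef5a50d46405 (k8 c21870 c22179 c120 c22159 c5519 c5333 c5331 c22140 (k8 c5642 c20794 c5396 c22137 c265 c22180 c22184 c5325 (k2 c387 c22181 (k1 c5534 k0)))) (by decide +kernel)
def c22186 : PP 9 3 T 0x42000200000000000000000000000000000000000000000000000000000000000008000000000000002000000000000000000000810000 := rS 0x111aa5b656e4bc97107818e0994a3426438ed61e639031e4f63254fb6940200e4d32614db2433b2ce8300a57 (k8 c21872 c21870 c22185 c5522 c22137 c5393 c5396 c5397 (k8 c5445 c5447 c18631 c22140 c5642 c22159 c22160 c5489 (k8 c22179 c742 c2428 c20297 c8203 c387 c21956 c5341 (k8 c5561 c5564 c5381 c5316 c20738 c21979 c5669 c2426 (k8 c5404 c1107 c22182 c21944 c22183 c1660 c20779 c390 k0))))) (by decide +kernel)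
def c22187 : PP 9 3 T 0x4004400000000102000210040000000000000000000000000000000000000000000000000040000000000000000000802000001404000000000600010088 := rS 0x59b6be03d984f299 (k8 c5447 c2428 c5445 c742 c5669 c5529 c21943 c21948 k0) (by decide +kernel)
def c22188 : PP 9 3 T 0x240000000000a001000000000000000800000080000000000000000000000000010000004000000000000000000000000000000000010500004400080 := rS 0x3628da8f2ebf5a2bb787726762f99d2e95 (k8 c5488 c5404 c5487 c1450 c20857 c18631 c5486 c5349 (k8 c5601 c5602 c5603 c7668 c21941 c21953 c989 c3335 k0)) (by decide +kernel)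
def c22189 : PP 9 3 T 0x42000200000000000000000000000000000000000000000000000000000000000008000000000000002000000000000000000000010000 := rS 0x82fd60ff15c36bc96784e956e2dc38bf70cf6eb2cb4c36a1d8885f0ba5f06674ae4526a34fa8447df1a881769d73b5c4a6f2a90c9653f190502dff031c1329f7d61e639031e4f63254fb695934c98536c90ce7418f1d909c261b010040a57 (k8 c21872 c21870 c22140 c5642 c20794 c5564 c267 c22137 (k8 c5401 c22185 c5522 c5393 c5396 c5397 c5445 c5447 (k8 c18631 c22159 c22160 c5489 c22179 c742 c2428 c20297 (k8 c8203 c387 c21956 c17816 c5316 c20738 c21979 c5669 (k8 c5538 c5380 c1734 c21911 c5563 c5342 c5561 c5343 (k8 c5565 c1113 c12549 c5461 c5458 c4763 c2426 c120 (k8 c5492 c5331 c5398 c5448 c5449 c5444 c5491 c5488 (k8 c5487 c5407 c5404 c22186 c1450 c14497 c20857 c390 (k8 c3793 c672 c1660 c4566 c21967 c22187 c5425 c5429 (k8 c5612 c5616 c20789 c2241 c22188 c5217 c6804 c17955 (k4 c5627 c3445 c5632 c3390 (k1 c5695 k0)))))))))))) (by decide +kernel)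
def c22190 : PP 9 3 T 0x42000200000000000000000000000000000000000000000000000000000000000000000000000000002000000000000000000000010000 := rS 0x2c48ad56533957e38e8a487587eab55ef14b8752aa94f86fda9b64f7da2f7a52759adff031c1329798e73a0c3ca64f66120a040d93d935c4e130c894de02008c80a57 (k8 c21872 c21870 c22179 c22140 c5642 c5565 c1113 c5393 (k8 c5564 c267 c12549 c22137 c18631 c20297 c5380 c1734 (k8 c5445 c742 c5447 c2428 c22185 c5522 c8203 c387 (k8 c5316 c20738 c21979 c5669 c5538 c5537 c5458 c22159 (k8 c5333 c2129 c5492 c5396 c5397 c22160 c20794 c5448 (k8 c5489 c5488 c5486 c5404 c5401 c5406 c5490 c20782 (k8 c21956 c5561 c5339 c5341 c21911 c22189 c3617 c21967 (k4 c1660 c390 c15326 c3582 k0)))))))) (by decide +kernel)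
def c22191 : PP 9 3 T 0x42000200000000000000000000000000000000000000000000000000000000000000000000000000002000000000000000000000000000 := rS 0x115145642025378080223a5081e639ce8300d93d91e5327b308c8ae05 (k8 c21870 c21872 c22179 c5445 c742 c5447 c2428 c22137 (k8 c18631 c20297 c22185 c5522 c8203 c387 c2426 c22159 (k8 c5331 c22140 c5642 c5565 c1113 c22190 c5558 c21947 (k2 c1289 c22168 k0)))) (by decide +kernel)
def c22192 : PP 9 3 T 0x42000000000000000000000000000000000000000000000000000000000000000000000000000000002000000000000000000000000000 := rS 0x4538b5501e33f906b011d0b7fc19d0631c0c09948ca947d011cc02793de4d32610cec8ae05 (k8 c21870 c21872 c22137 c5393 c5445 c5447 c18631 c742 (k8 c2428 c22140 c9719 c5642 c21929 c22159 c22179 c5316 (k8 c20738 c20297 c21979 c22185 c5522 c5669 c5538 c22191 (k8 c9667 c5212 c12636 c676 c21911 c5670 c20766 c751 (k2 c390 c21890 k0))))) (by decide +kernel)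
def c22193 : PP 9 3 T 0x80002000000000040000010000000000000000200000000000000000000000000000000000000000000000000000000002000000000000000000000000000 := rS 0x1e60d2d8c842350c0c677296777dbe39689ade2a94399c8ef71187c3bb21d82c6ef5a51e4ee172fa4c1392d8904040188ed41e05 (k8 c21870 c21871 c5529 c160 c17712 c5642 c5340 c22192 (k8 c22079 c5438 c261 c5439 c1107 c5356 c5441 c5211 (k8 c5519 c5518 c5516 c5332 c22137 c5486 c2316 c9733 (k8 c8123 c5562 c5487 c744 c5489 c5401 c64 c5459 (k8 c5534 c5538 c20844 c20854 c19019 c21965 c1473 c5648 (k4 c437 c377 c20518 c9931 (k2 c2426 c387 (k1 c20774 k0)))))))) (by decide +kernel)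
def c22194 : PP 9 3 T 0x40000110000000000000000000000000000000000000000000000000000000000000000000000000002000000000000000000002000000 := rS 0x372793acb089fc471371a45c2c73e9e725f2d8ed48358 (k8 c5212 c5340 c5529 c22192 c5241 c22079 c5441 c5442 (k8 c5357 c5591 c5589 c5549 c5547 c9733 c18926 c9667 (k4 c22045 c1273 c21910 c18113 (k1 c2815 k0)))) (by decide +kernel)
def c22195 : PP 9 3 T 0x40000110000000000000000000000000000000000000000000000000000000000000000000000000002000000000000000000000000000 := rS 0xef0d1aec969b37defe67a351e9c381bdaa99f1b2a76de4f8c40f2819867c29b4985ceec70497c379280a4606e3898ec0473f95280223dac45e2970ea1ccfb2d8894831d23d60ae05 (k8 c21870 c21872 c5212 c5562 c5341 c5340 c9666 c22192 (k8 c22137 c5487 c744 c5486 c5404 c5401 c160 c5529 (k8 c9733 c17712 c5211 c5241 c9719 c5642 c5332 c5547 (k8 c5549 c5550 c5589 c5592 c22079 c20794 c5439 c5438 (k8 c5357 c5356 c1107 c261 c2492 c22193 c22194 c5284 (k8 c5648 c5432 c5434 c22002 c17862 c20881 c21892 c5580 (k8 c1759 c1660 c1144 c8466 c5679 c2433 c753 c10444 (k8 c20762 c20818 c2507 c2943 c1276 c14269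 c20849 c5689 (k1 c5450 k0))))))))) (by decide +kernel)
def c22196 : PP 9 3 T 0x40000100000000000000000000000000000000000000000000000000000000000000000000000000002000000000000000000000000002 := rS 0xa50295a1d338459d9cd8a5553b2 (k8 c22137 c5489 c5488 c22192 c22195 c21904 c9667 c5487 (k4 c5486 c5490 c665 c21935 (k1 c5516 k0))) (by decide +kernel)
def c22197 : PP 9 3 T 0x40000100000000000000000000000000000000000000000000000000000000000000000000000000002000000000000000000000000000 := rS 0x226e38196e02e118b53df15468ddaed36f9bce081a527996350c24c2e0239804fa774ea6d8ecd68f7fda09c917cc6ce949e41a91ce12cff5808ed5faad78a5cce9554ecb6205 (k8 c21870 c22192 c22137 c5489 c5488 c5487 c5404 c5401 (k8 c5490 c20782 c5529 c9667 c5212 c18926 c5342 c22195 (k8 c5374 c5522 c5524 c19356 c21904 c19420 c9668 c5209 (k8 c9669 c5543 c5453 c174 c139 c20739 c2562 c10444 (k8 c11141 c5442 c22196 c9719 c5642 c1107 c261 c5648 (k8 c437 c22045 c21910 c17905 c1604 c21335 c2815 c2885 (k8 c2882 c1605 c5518 c753 c3048 c20761 c18905 c1473 (k4 c15133 c3072 c9931 c21152 (k2 c13843 c21166 (k1 c14947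 k0)))))))))) (by decide +kernel)
def c22198 : PP 9 3 T 0x58000220000000000000000000080000000000000000000000000000000000000000000000000000000000000000000000000000000008 := rS 0x13b (k2 c18477 c18470 k0) (by decide +kernel)
def c22199 : PP 9 3 T 0x40000020000000000000000000000000000000000000000000000000000000000000000000000000002000000000000000000000000000 := rS 0x6a34fdf3b8ef8de69eac780454b658d4302513a4c2e1bf98099ad1ef80413922fb3bdb293ca476a1f56bc52aa9d96c4e68d099bf4005 (k8 c21870 c22197 c5565 c5564 c5381 c5379 c22192 c22137 (k8 c5489 c5488 c5401 c5490 c2316 c5529 c5374 c5524 (k8 c19356 c22153 c21904 c9668 c5209 c9669 c22043 c5453 (k8 c174 c139 c5642 c20923 c20794 c1107 c261 c267 (k8 c1113 c5648 c437 c22045 c22198 c6197 c5225 c5231 (k8 c21909 c447 c17754 c5341 c20946 c17816 c2882 c20558 (k1 c20559 k0))))))) (by decide +kernel)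
def c22200 : PP 9 3 T 0x40000200000000000000000000000004000000000000000040000000008000001010008000000000000000040000000008004002000000 := rS 0x12101f1472b24581fbc863f71b4d028d099f7dacd3d9fcef92 (k8 c6205 c5356 c5358 c20767 c139 c5543 c5566 c5564 (k8 c5381 c5380 c2882 c1608 c2878 c2047 c20761 c2633 (k4 c389 c20837 c20833 c20289 (k2 c2139 c15157 (k1 c21172 k0))))) (by decide +kernel)
def c22201 : PP 9 3 T 0x40000000000000000000000000000004000000000000000000000000008000000000000000000000002000000000000000000002000000 := rS 0x1210380b7dc7ef6a7887f59708413e5b3b9fcf232658d7252956bc5027d47ad626f71187c3bb213808031109e83dbdf639ed36fd4eec46237a56776a05 (k8 c21870 c5529 c22199 c5211 c5518 c1473 c22192 c10444 (k8 c20782 c2562 c20767 c20739 c5453 c5543 c22197 c5564 (k8 c160 c17712 c5642 c267 c22137 c5486 c2316 c9733 (k8 c8123 c5382 c2610 c5568 c5566 c5380 c5401 c5490 (k8 c5315 c6205 c437 c22045 c5653 c5441 c5358 c5356 (k8 c9931 c22200 c21910 c13096 c5558 c2907 c20289 c20299 (k4 c20760 c15188 c5580 c3072 (k2 c2633 c3610 (k1 c21172 k0))))))))) (by decide +kernel)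
def c22202 : PP 9 3 T 0x40000000000000000000000000000000000000002000000000000000000000000000005000000000002000000000000000000000000000 := rS 0x42b0cb14ec44625010073b11da9bf4005 (k8 c21870 c22197 c5565 c5529 c160 c22199 c17712 c5642 (k8 c1113 c9733 c22192 c1289 c1292 c21947 c21910 c5558 k0)) (by decide +kernel)
def c22203 : PP 9 3 T 0x1000200080000000000000200000000000000000000000000000000000000000000000004000000000000000000000000000001000008 := rS 0x5e525f (k4 c5439 c12891 c1107 c5648 k0) (by decide +kernel)
def c22204 : PP 9 3 T 0x1000000000000040000000000000000000000200000000000000001000000000000100000040000000004000000004002000000000000000000001000000 := rS 0x389bf28f9e4d26ca2590422f1d96c51eb5898ec9247a506c4e0200e7623b509e801e05 (k8 c21870 c21871 c22197 c5564 c5529 c160 c22199 c17712 (k8 c5642 c267 c20794 c5211 c5520 c5334 c5332 c5382 (k8 c2610 c5568 c22192 c22137 c5401 c5558 c5340 c5342 (k8 c21910 c1753 c22203 c22079 c5209 c14796 c17934 c19395 k0)))) (by decide +kernel)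
def c22205 : PP 9 3 T 0x9000000000000000000000000000000000000200000000000000000000800000000000000000100000000040000000000020001000008 := rS 0x6486b2830b57c697 (k8 c5404 c5464 c1660 c1755 c9421 c553 c19428 c22078 k0) (by decide +kernel)
def c22206 : PP 9 3 T 0x40000000000000000000000000000004000000000000000000000000008000000000004000000000002000000000000000000000000000 := rS 0x5f3c0d4fee320b7e51e26985d965b49c714228aca462ae156bc76481469f51eb589d283625010073b11da9bf41ed639ed36fd4eec43205 (k8 c21870 c22201 c22192 c10444 c20782 c2562 c20767 c20739 (k8 c5543 c22197 c5565 c5529 c160 c22199 c17712 c5642 (k8 c1113 c20794 c5211 c5382 c2610 c5568 c5566 c5381 (k8 c5380 c22137 c5401 c5490 c13096 c22202 c747 c22204 (k8 c21947 c1195 c22175 c537 c2159 c22205 c1307 c14519 (k8 c5680 c5648 c2565 c5462 c5466 c5577 c552 c3610 (k2 c19919 c2429 k0))))))) (by decide +kernel)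
def c22207 : PP 9 3 T 0x1000400000000040000000000000000000000000000000000000001000000000000440011040000000000400000045002000000000000000000000000000 := rS 0x38523b54becb6281899f51fa0 (k8 c22197 c5568 c5566 c5382 c5380 c22192 c22137 c5404 (k4 c5529 c747 c15133 c3610 k0)) (by decide +kernel)
def c22208 : PP 9 3 T 0x40000000000000000000000000000004000000000000000000000000008000000000000000000000002000000000000000000000000000 := rS 0x10c8b1d588a60114819e5c6df2f9fd3c9b3db1d9ad1effb5fa1f56abde21dd91f56b131198c934a0d89c2625010073b11da9bf4005 (k8 c21870 c22197 c5565 c5529 c160 c22199 c17712 c5642 (k8 c1113 c5564 c267 c20794 c5211 c5334 c19421 c9733 (k8 c5382 c2610 c5566 c22137 c5486 c5401 c5406 c5490 (k8 c2316 c20782 c5543 c5453 c174 c139 c20739 c20767 (k8 c2562 c22206 c2881 c1522 c2885 c1608 c2429 c2633 (k8 c22207 c18618 c1289 c1295 c10477 c3066 c5252 c3582 k0)))))) (by decide +kernel)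
def c22209 : PP 9 3 T 0x40000000000000000000000000000000000000002000010000000000004000000000008000000000002000000000000000000000000000 := rS 0x18c903db35a2ab4ea63d8b357aa50e73ef9fda6ad6ba551a793b97cfba0318073b11da99f65b1 (k8 c22192 c22137 c5487 c5529 c160 c22199 c17712 c19421 (k8 c22197 c5566 c1522 c11141 c2429 c5381 c5488 c1605 (k8 c5490 c2882 c2881 c20754 c5379 c744 c5489 c5406 (k8 c171 c18618 c3051 c1701 c5500 c5501 c2440 c743 (k2 c20937 c20770 (k1 c800 k0)))))) (by decide +kernel)
def c22210 : PP 9 3 T 0x2000000000000050000200000000000000000000000000000000001000010000000000000000001001000001004000000000000000000000000000000000 := rS 0x2ca05f37fa36268f (k8 c5568 c5382 c5381 c5544 c20903 c20762 c5685 c2460 k0) (by decide +kernel)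
def c22211 : PP 9 3 T 0x5008000000000011000210000000000000000200000004000000000000000040000040205000000000000000000000000000000000000000000000000000 := rS 0xcf2529f084e9441 (k8 c5340 c5211 c5564 c21911 c19414 c5235 c12046 c21523 k0) (by decide +kernel)
def c22212 : PP 9 3 T 0x40004000000000040000000000000000000000000000000000000000000000000000400000400000000010001000000002000000000000000000000000000 := rS 0x1e03d6c503133ea3f406300e7623b5 (k8 c5529 c160 c22199 c17712 c19421 c22197 c5568 c5566 (k4 c5382 c5380 c22192 c22068 (k2 c5198 c5457 k0))) (by decide +kernel)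
def c22213 : PP 9 3 T 0x80000000000000040000000000000000000000000000000000000000000000000000040204000000000008000000000002000000000010000000000000000 := rS 0x3453b9270ed50e67d8e81a6add92462b01 (k8 c3073 c22209 c747 c22137 c5490 c2882 c22197 c22192 (k8 c5487 c744 c5529 c5591 c22079 c1700 c1710 c20939 k0)) (by decide +kernel)
def c22214 : PP 9 3 T 0x40000000000000000000000200000004000000000000000000000000000000000000008000000000002000000000000000000000000000 := rS 0xcdf13f965f3f6b7d360c48c5602d43bf7dc6d76997cfecb50ab52aa94399f628d3ea3d6b137b88c3e1d31924174a67907def1d909c27a00d808039d88ed41e05 (k8 c21870 c21871 c5529 c160 c22199 c17712 c5642 c20794 (k8 c22197 c5564 c267 c22137 c5401 c17816 c5340 c22208 (k8 c5211 c5516 c5334 c19421 c5486 c2316 c9733 c8123 (k8 c5382 c2610 c5568 c5566 c5381 c22192 c5487 c744 (k8 c5489 c5488 c5490 c100 c199 c2881 c1522 c2882 (k8 c1605 c1608 c20754 c11141 c18905 c3073 c22209 c747 (k8 c17964 c4660 c2885 c22210 c22213 c5685 c19992 c22212 (k2 c2506 c22211 k0)))))))) (by decide +kernel)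
def c22215 : PP 9 3 T 0x40000000000000000000000000000004000000000000000000000000000000000000000000000000002000000000000000010000000000 := rS 0xd36bf7c62171f8d19328c9985261950f8d949ff7c74823d08d61e297d96c502630d89c2625010073b11da9bf4005 (k8 c21870 c22197 c5565 c5529 c160 c22199 c17712 c5642 (k8 c1113 c5564 c267 c20794 c19421 c5380 c22192 c22137 (k8 c5404 c5401 c21947 c5558 c5560 c5340 c5341 c17816 (k8 c22214 c21910 c5464 c200 c22045 c1753 c1755 c22203 (k8 c5209 c20845 c19920 c5318 c5433 c5434 c19294 c14269 (k2 c14403 c14487 k0)))))) (by decide +kernel)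
def c22216 : PP 9 3 T 0x9000000000000000000000000000000000000200000000000000000000800000000000000000100000000040000000000020000000008 := rS 0x19 (k2 c22045 c22205 k0) (by decide +kernel)
def c22217 : PP 9 3 T 0x40000000000000000000000000000004000000000000000000000000000000000000004000000000002000000000000000000001000000 := rS 0x79f01dda25fc9b206a41f14a066a1788750e673186d9e176596d1b1c5ac4d1f4a010073b11daa0741b1d924c5005 (k8 c21870 c22215 c537 c22137 c22192 c22197 c5380 c5529 (k8 c160 c22199 c17712 c5642 c5211 c5568 c5382 c2610 (k8 c22175 c5381 c2159 c22216 c1307 c22208 c20794 c19421 (k8 c5487 c744 c5486 c5401 c1195 c5284 c5648 c5680 (k8 c5462 c552 c17910 c22078 c19919 c9610 c20888 c5235 (k2 c2429 c20854 k0)))))) (by decide +kernel)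
def c22218 : PP 9 3 T 0x40000000000000000000000000000000000000000000000000000000004000000000000000000000002000000000000000000002000000 := rS 0x4d9ecee7963a7725b54aaa50e67d96c4479d (k8 c22199 c9733 c22192 c22137 c5487 c744 c5489 c5488 (k8 c5529 c6205 c1273 c5357 c5441 c5356 c743 c2492 (k1 c21894 k0))) (by decide +kernel)
def c22219 : PP 9 3 T 0x4000000000000001000000080000000000000100000000000000000000000000000000000000000000008000000000000000040000140000000001000008 := rS 0x2024c6809 (k4 c5438 c22078 c261 c5281 (k1 c1601 k0)) (by decide +kernel)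
def c22220 : PP 9 3 T 0x40000000000000000000000000000004000000000000000000000000000000000000000000000000002000000000000000000000000000 := rS 0x347c1933b9e4be9e0c96c87ef8e116b22867bc50e67d96c51a7d47ad627a0a518c0401cec476a05 (k8 c21870 c5529 c160 c22199 c17712 c5642 c19421 c5211 (k8 c22197 c5382 c2610 c5568 c5566 c5381 c22192 c22137 (k8 c5487 c744 c5401 c22208 c22215 c5339 c456 c22175 (k8 c5504 c189 c2159 c22218 c22217 c1522 c2429 c11141 (k4 c22219 c5235 c5459 c20854 k0))))) (by decide +kernel)
def c22221 : PP 9 3 T 0x40000000000000000000000000000000000000000000000000000000000000000000000000000000002000000000000000000000000000 := rS 0x8a8a04159063ce742501004479d37e810e67d96d62205 (k8 c21870 c160 c5529 c22137 c5487 c744 c22197 c5565 (k8 c22199 c9733 c17712 c5642 c1113 c22220 c5325 c22027 (k4 c20946 c2426 c21947 c1289 (k1 c22168 k0)))) (by decide +kernel)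
def c22222 : PP 9 3 T 0x4000000000000005000010000000000000000000000008000000000000010000000000000000000004000000104000006000000000000000000001000008 := rS 0x20408c2ff5433bdacd688e467e09464dfa9f6589c528f59ed86af32d8c5eaf71187c3a3b1bd2b6a05 (k8 c21870 c5529 c5211 c5518 c5332 c20811 c2316 c9733 (k8 c8123 c5477 c5476 c5474 c5325 c5324 c22221 c5574 (k8 c2432 c5417 c5570 c5420 c5572 c20782 c22078 c22108 (k8 c5235 c5316 c5317 c5459 c5537 c6290 c3587 c5682 (k4 c2452 c5835 c19658 c18420 (k1 c17881 k0)))))) (by decide +kernel)
def c22223 : PP 9 3 T 0x4000000000000001000210000000000000000000000008000000000000000000000000000000000084000000004000002000000000000000000000000008 := rS 0x683899edf709eda67f3cb1c709d4be48309f489c51eb378bcc46204d8336a8146c4cde7dd9eda02fd (k8 c20782 c3071 c22221 c19230 c5566 c5565 c5382 c5381 (k8 c5380 c5529 c22027 c4660 c2426 c9733 c5325 c5323 (k8 c5574 c2432 c5571 c746 c5572 c22222 c6205 c1227 (k8 c1273 c377 c5357 c5441 c5358 c2941 c743 c13096 (k4 c13097 c2558 c3610 c20939 (k1 c1780 k0)))))) (by decide +kernel)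
def c22224 : PP 9 3 T 0x4000000000000002000010040000000000000000000008000100000000000000000000040000000000000000000010002040000000000200001010040000 := rS 0xd42078dafdf1f8f52c080b81fc29f6589c53b6788d4363149a84327b309e53257 (k8 c21872 c5447 c2428 c5445 c742 c5393 c5398 c5444 (k8 c5476 c5475 c5324 c5323 c22221 c5417 c5570 c5420 (k8 c5572 c5534 c8203 c21968 c5643 c21936 c1512 c275 (k4 c5452 c1767 c17994 c3579 (k2 c5689 c1656 k0))))) (by decide +kernel)
def c22225 : PP 9 3 T 0x210000000000000000000000008000000000000000000000000000000000004000000004000002040000000000000000000000008 := rS 0x647666f818e39679e5a27b69ca726994a98543b07eb2de2357996c62f57b88c3e1d1d8de9420066d4267dd9fbd5c8d38ac55a73db094de05 (k8 c21870 c5565 c1113 c22221 c5419 c5573 c5421 c5571 (k8 c5381 c20793 c19392 c19230 c5566 c5564 c5529 c22027 (k8 c2426 c5211 c5518 c5332 c20811 c2316 c9733 c8123 (k8 c5477 c5476 c5474 c5325 c5324 c5323 c5420 c20782 (k8 c22223 c5398 c5445 c5446 c5447 c12830 c19634 c2940 (k8 c742 c21980 c2428 c13265 c22224 c2480 c5669 c5537 (k2 c20854 c3587 (k1 c22112 k0))))))))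 (by decide +kernel)
def c22226 : PP 9 3 T 0x2000000000280000000041000100000000000080000000140002000000000000000000000040000050500000000004000800000000000000000000080 := rS 0x8cfd62eb8fbbb3c967d4c6f4ab753afce38539fcd3ae7 (k8 c5461 c5458 c5590 c5419 c5423 c5571 c5431 c5428 (k8 c5616 c17948 c3131 c1803 c21941 c5217 c6396 c7591 (k4 c17955 c3454 c5632 c3503 (k1 c5697 k0)))) (by decide +kernel)
def c22227 : PP 9 3 T 0x2000210000000000000000000000008000000000000000000000000000000000008000000000000002040000000000000000000002008 := rS 0xfae96cdb9031782c974ef818e393c9ee53934c98542a365bc43631bebdc461f0e93c6f4adaa6d771f1049c267dc6ecfde2569bfa28ae469c5626f569cf6c05 (k8 c21870 c22221 c5419 c5573 c5565 c5421 c5571 c5381 (k8 c20793 c1286 c1287 c4894 c1113 c19392 c19230 c5569 (k8 c5566 c5564 c5383 c2426 c3781 c4763 c4660 c5529 (k8 c5211 c5518 c5335 c20811 c2316 c9733 c8123 c9704 (k8 c5476 c5475 c5323 c5420 c5449 c5398 c5445 c5447 (k8 c12830 c19634 c742 c2428 c22224 c2480 c5669 c5458 (k8 c1284 c21936 c1107 c1108 c22226 c21943 c19938 c17823 (k1 c5242 k0)))))))) (by decide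 +kernel)
def c22228 : PP 9 3 T 0x4000000000000005000010040000000000000000000008000000000000000040000000000000000088000000000010002044000000000000000000000000 := rS 0x4171821a8d73bb20be954bb3bbedf66b453a7b638fc7233f04a06a5b18bd476491b91e95b580bf606b1db12dfcf3 (k8 c5325 c1287 c2568 c22221 c5421 c2199 c20782 c3071 (k8 c5529 c5211 c5520 c5518 c5334 c5332 c5477 c5476 (k8 c5474 c5324 c5209 c5235 c5316 c5317 c5318 c5535 (k8 c5457 c5458 c5459 c5537 c5538 c6344 c3587 c1284 (k8 c2125 c17795 c5678 c11141 c2189 c1183 c20850 c13843 (k2 c1656 c19935 k0)))))) (by decide +kernel)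
def c22229 : PP 9 3 T 0x210000000000000000000000008000000000000000000000000000000000000000000004000002040000000000000000000000008 := rS 0xe26fb84709d0c1fcf2c7c96c5fcaa577bf667d37c4d1a8159a7ce6b156a44e3b61a96cc6f71187c3a204d8336a05 (k8 c21870 c5529 c22027 c4660 c2426 c20811 c2316 c9733 (k8 c8123 c9752 c5474 c5324 c22221 c5571 c746 c5573 (k8 c5421 c5419 c5572 c5574 c5380 c5381 c5382 c5565 (k8 c5566 c19230 c19392 c20793 c22225 c1287 c22227 c22228 (k8 c5357 c5441 c5358 c22078 c1273 c377 c13096 c13097 (k2 c14947 c4712 k0)))))) (by decide +kernel)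
def c22230 : PP 9 3 T 0x4000000000000000000110000000000000000000000000000000000000000000000000000000000088000000000000002000000000000000000000000000 := rS 0x1f389c5202fd489c51eb3f6c0d63b6 (k8 c22221 c5421 c2199 c5500 c5574 c2432 c5571 c746 (k4 c20782 c3071 c1286 c21166 (k2 c5590 c5675 k0))) (by decide +kernel)
def c22231 : PP 9 3 T 0x80000100000000000000000100000008000000000000000000000000000000000040000000000000004040000000000000001010000000 := rS 0x44268c8e1c4527358ab48a5b (k8 c5474 c5326 c5573 c5421 c5419 c5417 c5571 c17885 (k4 c20793 c20813 c701 c12617 k0)) (by decide +kernel)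
def c22232 : PP 9 3 T 0x110000000000000000000000000000000000000000000000000000000000088000000000000002000000000000000000000000000 := rS 0x1ef (k2 c5584 c22230 k0) (by decide +kernel)
def c22233 : PP 9 3 T 0x80000100000000000000000100000008000000000000000000000000000000000040000000000000000040000000000000001010000000 := rS 0x26118e1b85245 (k4 c5326 c5417 c22231 c17885 (k2 c2745 c20813 (k1 c12617 k0))) (by decide +kernel)
def c22234 : PP 9 3 T 0x5005400000000110000010000000000000800000000008000000404000000040000000001000000000000000000000000000000000000100000000000000 := rS 0x797e2e78dfd34a49278dc8f4a (k8 c5211 c5520 c5518 c5335 c5334 c19938 c5242 c5557 (k4 c5633 c17696 c7451 c7440 k0)) (by decide +kernel)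
def c22235 : PP 9 3 T 0x5005400000000100000010000000000000000100000008000000404400000000000000001000040000000000000000002000000000000100002000000008 := rS 0x11b93948aa2e158b71b8190e92cebd14a44e28f59ed9ee230f8748e4da56d42005 (k8 c21870 c1114 c5529 c5211 c5521 c5520 c20811 c2316 (k8 c9733 c8123 c22221 c5574 c2432 c5571 c746 c5417 (k8 c5575 c22234 c5213 c5606 c5607 c5611 c269 c1115 (k4 c5652 c569 c1362 c706 (k2 c2802 c15139 k0))))) (by decide +kernel)
def c22236 : PP 9 3 T 0x80001000000000280001100000000000000400100000008000100200000000000410000008000040000050000000000000000000000000000000001000000 := rS 0x1f46dae3caedfb4562eb7 (k8 c5616 c5593 c5590 c5223 c5639 c7591 c7323 c18047 (k2 c6650 c5632 k0)) (by decide +kernel)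
def c22237 : PP 9 3 T 0x5000400000000002000110080000000000000100000008000000000000008000000000009000000000002000000100002000000000000100002000002008 := rS 0x3edf4c6c9f1653d5946cd8974dee4ba55ba9eeebfdc470640777901a43df1b786247a56d5771f104a4ee352d824dc101f85cbee33cb84fb1751a8433e1f944c260147acd2271db1ecc257 (k8 c21872 c5445 c742 c22221 c5571 c746 c5574 c2432 (k8 c28 c2805 c2599 c5675 c7694 c5393 c5398 c5449 (k8 c5593 c5442 c21491 c5441 c13204 c5439 c1107 c2910 (k8 c1114 c1113 c5438 c5474 c5324 c5356 c20850 c2426 (k8 c3781 c4763 c5529 c5211 c5520 c5476 c17983 c5580 (k8 c2770 c2565 c5655 c5022 c1734 c20880 c544 c22235 (k8 c5431 c5613 c5428 c5616 c8905 c3096 c748 c1826 (k8 c2434 c22236 c5350 c5600 c5605 c2655 c705 c2753 (k2 c5676 c5677 (k1 c17900 k0)))))))))) (by decide +kernel)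
def c22238 : PP 9 3 T 0x1110000100040000800000000000000010000400000000000000000000000000000000000000002000000000000000000000022000 := rS 0x7dbe98d93e2ca7ab28c5fe48f59a44e3b6 (k8 c22221 c5571 c746 c5574 c2432 c5675 c5593 c5350 (k8 c5600 c5605 c2655 c705 c2753 c5676 c5677 c17900 k0)) (by decide +kernel)
def c22239 : PP 9 3 T 0x4000000000000002000110080000000000000100000008000000000000008000000000000000000008000000000000002040000000000000000000002008 := rS 0x1f46deb571e576fdacf8974dee4ba55ba9eeebfdc103c6801cb3938d14b77d9be14a98592a151bf5e6bb8f88252771a96c13ed370422b17f944c262457874028f59a44e3b6 (k8 c22221 c5571 c746 c5574 c2432 c28 c20811 c22232 (k8 c22233 c2805 c2599 c5675 c5593 c5590 c1114 c1113 (k8 c5500 c5438 c5474 c5324 c5356 c20850 c2426 c3781 (k8 c4763 c5325 c20782 c5449 c5398 c5396 c5445 c5446 (k8 c7694 c2075 c20920 c20913 c1709 c1284 c1285 c6897 (k8 c22237 c5463 c700 c22235 c5431 c5613 c5428 c5616 (k8 c8905 c3096 c748 c1826 c2434 c22238 c5223 c5639 (k4 c7591 c7323 c1742 c6463 (k2 c6650 c5632 k0))))))))) (by decide +kernel)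
def c22240 : PP 9 3 T 0x10080000000000000100000008000000000000000000000000000000000008000000004000002040000000000000000000000008 := rS 0x19d8fbdfd0146c4c2013122be06b1489c51eb3db0d4b6010e8336ba1 (k8 c22229 c5529 c22027 c20811 c28 c5474 c5324 c22221 (k8 c5574 c2432 c5571 c746 c5421 c2199 c22232 c22233 (k8 c2805 c1114 c2599 c701 c19568 c20819 c20818 c22239 (k2 c17721 c22078 k0)))) (by decide +kernel)
def c22241 : PP 9 3 T 0x110000000000000000100000008000000000400000000000140000040000004000000000051002040000000000000000012000000 := rS 0x153ed7f6ce3aae09094223d407c9c6fd489c51eb37b87c8f4ada90453b63da744605 (k8 c21870 c9733 c1273 c743 c22221 c5417 c543 c5529 (k8 c5211 c5520 c2316 c8123 c5574 c2432 c5571 c746 (k8 c20782 c13204 c5675 c3610 c12620 c700 c1167 c12617 (k4 c22233 c20813 c5406 c17808 (k2 c17748 c2452 (k1 c5682 k0)))))) (by decide +kernel)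
def c22242 : PP 9 3 T 0x1001000000000005000000000000000000000000000000000000000000000000000000004040000004001000004001402000000000000000000000000000 := rS 0x335a3de546d5fa7b (k8 c743 c20782 c5529 c5682 c5195 c2025 c5495 c20853 k0) (by decide +kernel)
def c22243 : PP 9 3 T 0x1000010080000000000000100000008000000000000000000000000000000000000000000004000002040000000000000000000000008 := rS 0x78940e364331a3ec69ecd5d1d12848231267f85bee13da60709d4b861669f138a563b621bc46af32d874460ba5081360cdae858e7d3c9fceeab (k8 c22240 c5356 c5358 c5441 c5442 c5357 c22229 c5529 (k8 c22027 c4660 c2426 c5211 c5516 c9733 c20811 c5474 (k8 c5325 c5324 c5323 c5478 c22221 c5421 c5417 c5570 (k8 c5572 c5574 c22078 c1227 c1273 c377 c378 c743 (k8 c13096 c13097 c5534 c2558 c22241 c703 c12633 c1114 (k8 c20813 c22233 c17883 c2941 c22242 c5501 c20853 c2441 (k4 c2624 c1182 c8617 c5578 k0))))))) (by decide +kernel)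
def c22244 : PP 9 3 T 0x400000000082000100000000000000000100000008000000000000000000000000400000000000000000000050000040400000000000001000000108 := rS 0x7a41089b9023f69fbd5c714fb2c4e2939914c61d0ba4d4219 (k8 c5393 c5398 c261 c1107 c20811 c9752 c5326 c5419 (k8 c5417 c5570 c5420 c5572 c5571 c22233 c5584 c2940 (k4 c14449 c20909 c18032 c2745 (k2 c12636 c12640 (k1 c3579 k0))))) (by decide +kernel)
def c22245 : PP 9 3 T 0x10080000000000000100000008000000000000000000000000000000000000000000004000002040000000000000000000000008 := rS 0x54fb5fd0325a36261009891af01efa5b669530b2760ab3b9fcfa092fbf596ad489c51eb3db16c0263a50336ba1 (k8 c22229 c5529 c22027 c5211 c9752 c28 c5474 c22221 (k8 c5574 c2432 c5571 c746 c5573 c5420 c20782 c5439 (k8 c5438 c5442 c5358 c5356 c22240 c22243 c5396 c5445 (k8 c5446 c18631 c20791 c20920 c13274 c1767 c22244 c2805 (k8 c1114 c2599 c701 c13156 c21406 c20819 c5544 c2452 (k1 c5682 k0)))))) (by decide +kernel)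
def c22246 : PP 9 3 T 0x2000010040000000000000000000008000000000000000000000000000000000000000000004000002040000000000000002000000008 := rS 0x154cf4b2a7dac60bbfbc303f9404968d8984027b37ea44e28f59ed9e25b0d8c4021da508019b5d0984f299 (k8 c5447 c2428 c5445 c22229 c5529 c22027 c2426 c5211 (k8 c20811 c28 c5476 c5475 c5474 c5323 c22221 c5574 (k8 c2432 c5571 c746 c20782 c13900 c2805 c1114 c2599 (k8 c701 c13156 c19568 c5675 c21406 c7694 c20819 c21968 (k4 c13817 c5544 c2452 c21936 (k2 c20739 c5682 (k1 c1285 k0))))))) (by decide +kernel)
def c22247 : PP 9 3 T 0x4000000000000000000000000000000000000000000008000000000000000000004000000000000002000000000000000000000000000 := rS 0x153eddabf567b6 (k4 c22221 c5574 c20782 c5529 (k2 c5544 c2452 (k1 c5682 k0))) (by decide +kernel)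
def c22248 : PP 9 3 T 0x110000000000000000100000008000000000400000040000000000000000080000000004000002000000000000000000000000000 := rS 0x1109a323903f912d227147acf6c5b23d2b6b017ebfd57b3 (k8 c5406 c22232 c22247 c20782 c3071 c5529 c5211 c5520 (k8 c5474 c22221 c5574 c2432 c5571 c746 c13156 c5675 (k4 c21406 c17808 c20819 c20813 (k2 c701 c12617 k0)))) (by decide +kernel)
def c22249 : PP 9 3 T 0x2000010000000000000000100000008000000000000000000000000000000000000000000004000002040000000000000000000000008 := rS 0x1dfc006638242312f133da32955ecd5c253c9ed329530a4dfa9f6589f6cf12d805ee230f874174a100336ba10ce4cae05 (k8 c21870 c21872 c22245 c6205 c22229 c5529 c22027 c2426 (k8 c5211 c5516 c20811 c2316 c9733 c8123 c28 c5474 (k8 c5323 c22221 c5570 c5420 c5572 c20782 c5444 c5445 (k8 c5446 c5447 c742 c2428 c22246 c22233 c5406 c22232 (k8 c19634 c21980 c13265 c5216 c22248 c703 c17997 c21979 (k4 c5643 c5669 c672 c20854 k0)))))) (by decide +kernel)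
def c22250 : PP 9 3 T 0x1000000000000000000100040000000000000100000008000000000800000000000000008040000000000000000010002040000000000000000000000408 := rS 0x40b89a90280fbd5c253f9e422fff9bf76c1d (k8 c20811 c22221 c20782 c5547 c20798 c703 c2603 c809 (k8 c1114 c22233 c5584 c3071 c21166 c8707 c2633 c20766 (k1 c17330 k0))) (by decide +kernel)
def c22251 : PP 9 3 T 0x10000000000000000100000008000000000000000000000000000000000000000000004000002040000000000000000000000008 := rS 0x1fcd28eb57c6d72038fdff28092e26ceeffb5becd68b1cfa3919f8251b10ce4f429f6589c529138a3d67b6219146af32d8c5ea637b88c3e1d1d924163723d2b6a05 (k8 c21870 c5529 c5211 c5520 c5518 c5516 c5334 c5332 (k8 c20811 c2316 c9733 c8123 c9752 c5477 c5476 c5474 (k8 c5325 c5324 c5326 c5478 c22221 c5574 c2432 c5571 (k8 c746 c5417 c5570 c5420 c5572 c22229 c22245 c6205 (k8 c22249 c22108 c5235 c5316 c5317 c18801 c5535 c5459 (k8 c5537 c5538 c6290 c6344 c3587 c22250 c13156 c19568 (k8 c5675 c17988 c5549 c22079 c1769 c5462 c1656 c5778 (k2 c5689 c17808 (k1 c2942 k0))))))))) (by decide +kernel)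
def c22252 : PP 9 3 T 0x110000000000000000100000008000000000400014040000000000000000000000000004000002000000000000000000000000000 := rS 0x884d191c81fc8969138a3d67b62d91e95b5 (k8 c5529 c5211 c5520 c5474 c22221 c5574 c2432 c5571 (k8 c746 c13156 c5675 c21406 c17808 c20819 c20813 c701 (k1 c12617 k0))) (by decide +kernel)
def c22253 : PP 9 3 T 0x2000000000000011000010040000000000000000000008000000000000000000000000000000000000000000000000000000000000000000000000000008 := rS 0x1e0940d4b619 (k4 c6205 c5474 c5324 c22108 (k2 c5235 c6290 k0)) (by decide +kernel)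
def c22254 : PP 9 3 T 0x2000000000000000000110040000000000000100000008000000000000000000000000000000000000000000004000002000000000000000000000000008 := rS 0x3bf800cc704f88f27b94a64c293d80653ecb13bc4b601100304a11893fe02abd9999faaddb3dc461f0e82e95b568b3cae05 (k8 c21870 c21872 c5543 c5501 c5529 c5211 c5516 c20811 (k8 c2316 c9733 c8123 c22221 c5573 c20782 c22251 c5487 (k8 c2123 c13274 c22247 c22252 c703 c1114 c22027 c2426 (k8 c28 c5474 c5323 c5570 c5420 c5572 c6205 c22253 (k8 c5444 c5445 c5447 c19634 c742 c2428 c5216 c17997 (k4 c21979 c5643 c5669 c672 (k1 c20854 k0))))))) (by decide +kernel)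
def c22255 : PP 9 3 T 0x80000000000000000000000000000000000100000000000000000000000000000000000004000000000000000000015000001001400000 := rS 0xa04fb2c4e29 (k4 c5417 c5570 c5420 c5572 (k2 c3579 c8159 k0)) (by decide +kernel)
def c22256 : PP 9 3 T 0x110000000000000000100000008000000000000040000000000000000000000000000004000002000000000000000000000000008 := rS 0xd31f065ae99efb30f6c9948f482930b9dcf27d63824bf9267b47d8352d92441f36f833deae8e849e21b1284624ff80aaf66667ebdc461f0e82e95b5218a44eb122ab76c05 (k8 c21870 c22221 c5573 c5326 c5421 c5570 c5417 c5478 (k8 c5529 c5211 c5516 c20811 c2316 c9733 c8123 c20782 (k8 c22251 c5487 c2123 c13274 c22247 c22252 c703 c1114 (k8 c5475 c5323 c12633 c20813 c3582 c5584 c22027 c4675 (k8 c5547 c2426 c5334 c5474 c5324 c21166 c5501 c5543 (k8 c22254 c5439 c5438 c5357 c5442 c5441 c5356 c1107 (k8 c261 c12636 c12640 c20850 c2063 c17863 c20853 c5495 (k4 c2441 c2192 c378 c22255 (k2 c12473 c14449 k0))))))))) (by decide +kernel)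
def c22257 : PP 9 3 T 0x4000000000000002000110000000000000000000000000000100000000000000000040054000000000000000004000402000000000100000000201010108 := rS 0x7a3f3eb5fbf920bb33c3b612a4cf6613ca658e41 (k8 c12636 c21979 c5447 c2428 c5445 c742 c5444 c1114 (k8 c22221 c20854 c20853 c21968 c13817 c5495 c2192 c5442 (k2 c14449 c12640 (k1 c22255 k0)))) (by decide +kernel)
def c22258 : PP 9 3 T 0x4000000000000000000110000000000000000000000008000100000000000000000040054000000000000000004000002000000000000000000001010108 := rS 0x1f26762288019b5d816c6a57 (k8 c21872 c5324 c5474 c22108 c5529 c22027 c2426 c5326 (k4 c22257 c5356 c672 c5643 k0)) (by decide +kernel)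
def c22259 : PP 9 3 T 0x110000000000000000100000008000100000000000000000000000000000000000000004000002000000000000000000001000008 := rS 0xf1e4c10cf68b4d329550a4f609f658d4b6016f833deae8e849e21b1284624ff80aaf66667ebdc461f0e82e95b5218a44eb122ab76c05 (k8 c21870 c22221 c5573 c5326 c5421 c5570 c5417 c5478 (k8 c5529 c5211 c5516 c20811 c2316 c9733 c8123 c20782 (k8 c22251 c5487 c2123 c13274 c22247 c22252 c703 c1114 (k8 c5475 c5323 c12633 c20813 c3582 c5584 c22027 c4675 (k8 c28 c5474 c5324 c5420 c5572 c22108 c5444 c5398 (k8 c5446 c5447 c2940 c21980 c13265 c22258 c5438 c17997 (k1 c5216 k0))))))) (by decide +kernel)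
def c22260 : PP 9 3 T 0x110000000000000000100000008000100000000000000000000000000000000000000004000002000000000000000000000000008 := rS 0x66b4592cf709ecee7963a60709dc96c4309f79924409b0604624ff80aaf66667eab76cf71187c3a0ba56d60405 (k8 c21870 c22256 c5529 c5211 c5516 c20811 c2316 c9733 (k8 c8123 c22221 c5573 c20782 c22251 c5487 c2123 c13274 (k8 c22247 c22252 c703 c22027 c4660 c2426 c5334 c5325 (k8 c5572 c22259 c5393 c6205 c1273 c377 c378 c5357 (k8 c5441 c5356 c17863 c13096 c2558 c2063 c2202 c2441 (k1 c20853 k0)))))) (by decide +kernel)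
def c22261 : PP 9 3 T 0x110000000000000000100000008000000000000000000000000000000000000000000004000002000000000000000000000000008 := rS 0x24cbe964c338f2cd689f7c0a8d8fb72617038e466199409423124fb2c4e29788d5e65b18bd4c6f71187c3a3b058de942006405fbb556ed9feabd99980a57 (k8 c21872 c21870 c22251 c5487 c2123 c22247 c22221 c5573 (k8 c5529 c20782 c13274 c22027 c2426 c5211 c5518 c5516 (k8 c5332 c20811 c2316 c9733 c8123 c9752 c5477 c5476 (k8 c5474 c5325 c5324 c5323 c5417 c5570 c5420 c5572 (k8 c22252 c703 c1114 c22260 c5315 c5316 c5317 c5432 (k8 c5433 c20880 c22254 c19634 c5682 c5235 c18801 c5459 (k8 c5537 c2603 c3587 c13265 c2451 c1520 c1637 c19759 k0))))))) (by decide +kernel)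
def c22262 : PP 9 3 T 0x4000000000000004000010000000000000000000000008000200000000000000000000000000000004000000104000006000000000000000000000000008 := rS 0x64f600719865e2352d8c6942006405fbb556ed84a57 (k8 c21872 c1113 c22221 c5573 c5529 c20782 c13274 c22027 (k8 c2426 c5211 c5476 c5474 c5324 c5323 c5315 c5316 (k4 c5432 c22222 c20880 c19634 k0))) (by decide +kernel)
def c22263 : PP 9 3 T 0x80000210000000000000000000000008000100000000080040000000014000000000000000000001000000000000000440000001000048 := rS 0x199e01cb85bfe32035c7a3f4b02066174f89c52f17986c62f50e84cfa2537fcd26c94ae4f605b1ab2ce257 (k8 c21872 c5571 c5420 c5324 c5474 c22108 c12830 c5446 (k8 c5396 c5444 c5550 c5565 c1113 c5566 c5564 c20811 (k8 c5477 c5476 c5475 c5325 c5323 c5417 c5570 c5572 (k8 c1108 c20297 c5643 c3577 c275 c1512 c1767 c22255 (k4 c17994 c2517 c1714 c547 (k2 c18204 c3587 (k1 c5537 k0))))))) (by decide +kernel)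
def c22264 : PP 9 3 T 0x4000210000000000000000000000008000000000000000000000000000000000004000000004000002000000000000000000001000008 := rS 0xf01dd8e06679e5a27bc9a652a61d832c6a5b7b88c3e1d1d8de95027fca7de8f59c4e02fddaab52271db1bd1a05 (k8 c21870 c5381 c5565 c22221 c5571 c746 c5573 c5529 (k8 c20782 c13274 c5382 c5574 c2432 c20818 c22262 c22247 (k8 c20819 c5211 c5518 c5332 c20811 c2316 c9733 c8123 (k8 c5474 c5324 c5420 c22108 c5445 c5446 c5447 c12830 (k8 c742 c21980 c2428 c13265 c22263 c13650 c672 c5669 (k1 c20854 k0)))))) (by decide +kernel)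
def c22265 : PP 9 3 T 0x10000000000000000100000008000000000000000000000000000000000000000000004000002000000000000000000000000008 := rS 0x1a4d18e33dbee1578e0829dc96c43025817bcdf1346e81ff0155ecccc9b1003047b57ea7c52ad489c51eb3db115e61d (k8 c20811 c5325 c5326 c22221 c5574 c2432 c5571 c746 (k8 c5573 c5417 c5572 c20782 c5529 c9733 c22027 c2426 (k8 c4660 c22251 c5487 c2123 c13274 c22247 c22261 c5381 (k8 c5382 c5565 c20818 c20819 c1113 c22264 c5393 c6205 (k8 c1273 c543 c377 c22223 c13096 c13097 c2558 c17885 (k2 c2202 c20939 (k1 c2082 k0))))))) (by decide +kernel)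
def c22266 : PP 9 3 T 0x220000000000000000100000008000000000000000000000000000000000000000000000000002000000000000000000002000008 := rS 0x122064780aa9c5ef8e7cf666f89a05fab1489c48a1d3c9053ac73e9fc239214ed83ee16ff8253ed54b3b634bdaa5de205 (k8 c21870 c5323 c1227 c5529 c18477 c5393 c22097 c2451 (k8 c5543 c19356 c5225 c5538 c5460 c2316 c22221 c5417 (k8 c6205 c17972 c5358 c5442 c5357 c9066 c543 c5524 (k8 c20811 c5326 c5571 c746 c5421 c20782 c5380 c5382 (k8 c5565 c19230 c11668 c20878 c20927 c14947 c5682 c10477 (k4 c2348 c2199 c13731 c13257 k0)))))) (by decide +kernel)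
def c22267 : PP 9 3 T 0x20000000000000000100000008000000000000000000000000000000000000000000000000002000000000000000000002000008 := rS 0x9314552bb671d096844aa9f68459c97c96c5fa2758ab486457886c3b292588a97b50f8a76c05 (k8 c21870 c22221 c5417 c2316 c5529 c18477 c6197 c560 (k8 c19356 c20811 c5475 c5323 c5326 c5478 c5573 c5421 (k8 c5570 c20782 c5393 c6205 c1227 c22097 c17972 c5543 (k8 c2451 c1114 c22266 c12617 c20813 c17883 c3582 c5682 (k2 c1286 c19251 (k1 c7822 k0)))))) (by decide +kernel)
def c22268 : PP 9 3 T 0x2000000080000000000000000040000000100000000000000000000000000000008000000004004000000000000000100000000000008 := rS 0x3be3a6699fdac930a541277 (k8 c5356 c5438 c5446 c5445 c5396 c5500 c2123 c2075 (k2 c21931 c20920 (k1 c20873 k0))) (by decide +kernel)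
def c22269 : PP 9 3 T 0x2000020080000000000000000000008000000000000000000000000000000000000000000004000002000000000000100000000000008 := rS 0xa9f6bd864071d0dd99e168b3d57b33bb1f6afd1a96c62f50e9ecf329a5a553257 (k8 c21872 c5447 c5446 c18477 c19356 c5524 c5372 c20811 (k8 c5477 c5476 c5474 c5324 c20782 c5529 c5357 c5356 (k8 c18631 c22268 c13265 c21980 c20907 c20853 c2329 c5654 (k4 c1674 c20880 c492 c5498 (k2 c2020 c5682 k0))))) (by decide +kernel)
def c22270 : PP 9 3 T 0x100000000000000000100000008000000000000000000000000000000000004000000004000002000000000000800000000000008 := rS 0x2268d7fc042103d982066490b81c6efd4fb2c4ead489c51eb37886c62f5009ec9629db24cc2e31ff8b26391152f6a1fd8064b63594e70ae05 (k8 c21870 c21872 c22265 c19356 c5324 c5474 c22267 c22108 (k8 c2316 c5529 c18477 c6197 c395 c22269 c5216 c5576 (k8 c5466 c5445 c5444 c22221 c5417 c560 c5372 c28 (k8 c5477 c5476 c5475 c5323 c5574 c2432 c5571 c746 (k8 c5573 c5570 c5420 c5572 c20782 c153 c1674 c1677 (k8 c18013 c20297 c5643 c20895 c7820 c17997 c13274 c22247 (k2 c701 c704 (k1 c20819 k0)))))))) (by decide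 +kernel)
def c22271 : PP 9 3 T 0x40000000000000000040008000100000000000040000000004000000000000000000001000000000000000500000000000040 := rS 0x199e01b8206657 (k4 c21872 c20297 c5643 c1510 (k2 c5654 c13955 (k1 c5537 k0))) (by decide +kernel)
def c22272 : PP 9 3 T 0x1000000000000004000000040000000000000000040008000100000000000000000000000000000004000000004005002000000000000400000001000008 := rS 0xdfc2cc3bb1c0cf7543459efd7a8747222da87d2a99d816c6a05 (k8 c21870 c5324 c5474 c22108 c5447 c5446 c2316 c5529 (k8 c6197 c395 c20811 c5477 c20782 c13265 c21980 c5682 (k8 c2020 c22271 c13650 c672 c20853 c20854 c2329 c5654 k0))) (by decide +kernel)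
def c22273 : PP 9 3 T 0x88000100000000000000000100000008000000000000000000000000000000000000000000000000000000000000000000000010000000 := rS 0x94ceaf (k4 c5406 c5487 c7601 c22233 k0) (by decide +kernel)
def c22274 : PP 9 3 T 0x100000000000000000100000008000000000000000000000000000000000004000000004000002000000000000000000000000008 := rS 0x37f0b30eec7033dfd8d1678edfaf53d9e52a99c98e4454bda87f60199496c6b9cd98776c05 (k8 c21870 c22221 c20811 c22273 c22265 c5324 c5474 c19356 (k8 c22267 c22108 c2316 c5529 c18477 c6197 c395 c22269 (k8 c5447 c5446 c5524 c5372 c5477 c20782 c22270 c13265 (k8 c21980 c22272 c5498 c22271 c13650 c672 c20853 c20854 (k2 c2329 c5654 k0))))) (by decide +kernel)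
def c22275 : PP 9 3 T 0x80000100000000000000000100040008000000000000000000000000000000000008000000000000000040000004000000001010000000 := rS 0x4555c49 (k4 c19251 c22233 c7822 c1286 k0) (by decide +kernel)
def c22276 : PP 9 3 T 0x100000000000000000100000008000000000000000000000000000000000000000000004000002000000000000000000000000008 := rS 0x2267d0804c48e1030d98e16f08ed9c9c68f7d2c496699fdaaa6f9fdc681f13f5227147acde2010e9ecf24b14ed993931c88a97b50fec033292d8d73805 (k8 c21870 c22265 c5324 c5474 c19356 c22267 c22108 c2316 (k8 c5529 c18477 c6197 c395 c22269 c5396 c22221 c5417 (k8 c560 c5524 c5372 c20811 c28 c5323 c5574 c2432 (k8 c5571 c746 c20782 c5216 c5463 c5466 c5577 c5580 (k8 c22274 c5500 c2123 c2075 c19251 c22141 c5452 c1709 (k8 c1284 c1285 c6899 c5458 c13264 c20739 c5654 c1108 (k4 c1484 c22275 c2805 c1114 (k2 c1457 c704 (k1 c3610 k0))))))))) (by decide +kernel)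
def c22277 : PP 9 3 T 0x1000000000000000000200000000000000000100040000000000000000000000000000000000000008000000004000002000000004100000001000000000 := rS 0x1262901577be06677e9c4e6b156ed91a6f (k8 c5565 c5381 c22221 c5573 c5421 c5419 c5571 c20782 (k8 c2123 c2199 c19392 c20793 c3071 c1286 c13257 c7822 k0)) (by decide +kernel)
def c22278 : PP 9 3 T 0x100000008000000000000000000000000000000000000000000004000002000000000000000000000000008 := rS 0x7cdf0bb8c6e481d3fd5625f6eccdfa0c98e760192588a97293c9ef39b50fa7d962714a44e3b6228d4b605 (k8 c21870 c5474 c5324 c5326 c22221 c5571 c746 c5417 (k8 c5570 c5420 c5572 c2316 c5529 c22265 c5372 c5524 (k8 c19356 c18477 c6197 c560 c22267 c22108 c395 c22269 (k8 c22276 c5565 c19230 c18442 c1113 c22277 c22247 c22272 (k4 c20897 c153 c8999 c1677 (k2 c17709 c18013 (k1 c495 k0))))))) (by decide +kernel)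
def c22279 : PP 9 3 T 0x80000000000000002000000040000000000000000000000000000000000000000000000000000000000000000000000002000000000400100001400000008 := rS 0x18c0cf08803eb3138a56bb6309e53205 (k8 c21870 c5447 c2428 c5445 c22221 c5422 c5417 c5570 (k4 c5574 c2316 c17998 c7694 (k2 c265 c13817 (k1 c2480 k0)))) (by decide +kernel)
def c22280 : PP 9 3 T 0x41000000000000080000000000000000000000000000008000000000000044000000000000000000008000000000000000000000004000000001010000000 := rS 0x8eabc5245 (k4 c5326 c5417 c1287 c13569 (k1 c17885 k0)) (by decide +kernel)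
def c22281 : PP 9 3 T 0x40001000000000000000210040000000000000000000000000100000000000000000440000000000000000000000000002000000000010000000000400008 := rS 0xf47e083fb193ecb138a52271db1f44a6f0ca4d427b309e533b0 (k8 c5209 c5447 c2428 c5445 c742 c5398 c5444 c6205 (k8 c5565 c1113 c5566 c22221 c5571 c746 c5417 c5570 (k8 c5420 c5572 c5669 c10493 c21979 c276 c1512 c3579 k0))) (by decide +kernel)
def c22282 : PP 9 3 T 0x40020000000000082001010000100040000000000000000000000040000000000004400000000444000001400000000000000000004000000000000002000 := rS 0x317f528c5d71f77628d4299 (k8 c5447 c5398 c5449 c6396 c7591 c17955 c3455 c21520 (k2 c5632 c2655 (k1 c5676 k0))) (by decide +kernel)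
def c22283 : PP 9 3 T 0x40002000000000200000200040000100000000000000008000100002000000000000400000000000000000000008000002000000004000000000000002000 := rS 0xc5fd4a366f2e26f71bd2adeeebf38e14e7b67b96c9e37a549cdf8d4ded73bb04eb9d760f (k8 c21871 c4763 c5461 c5458 c5209 c5373 c5529 c8100 (k8 c5569 c5565 c5383 c5211 c5518 c5335 c5474 c20840 (k8 c22221 c5419 c5423 c5571 c5431 c5613 c5616 c17948 (k8 c3131 c748 c2434 c22282 c5217 c5350 c17823 c2655 (k1 c5676 k0))))) (by decide +kernel)
def c22284 : PP 9 3 T 0x2000000000000000200040000000000000000000008000100000000000000000440000000000000000000008000002000000004000100000000400008 := rS 0x7d74b66dc818651f064512e2070a758ecb5abc46a1b18df43aaa7b93c6f4ada86526c94aa67e7b0129bc8e0b2da3d67b611e74ae0f (k8 c21871 c21872 c5373 c9733 c22221 c5574 c2432 c5474 (k8 c692 c5779 c5565 c1113 c5209 c22279 c5447 c5446 (k8 c5396 c5444 c6205 c5529 c5211 c5518 c5335 c20840 (k8 c745 c20811 c9704 c5476 c5475 c5324 c5323 c5422 (k8 c5420 c5535 c5458 c5460 c17923 c1284 c6118 c265 (k8 c3781 c3577 c20297 c22283 c21943 c19938 c17823 c5242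 k0)))))) (by decide +kernel)
def c22285 : PP 9 3 T 0x200040000000000000000000008000100000000000000000440000000000000000000008000002000000004000100000000400008 := rS 0x6af8cec4063785a635469ecc2794cfbdfdf3d811c165b47acc479d129bd5503f68776c0f (k8 c21871 c22221 c20811 c5499 c10690 c745 c5565 c1113 (k8 c5373 c9733 c5574 c2432 c5474 c692 c5779 c5209 (k8 c22279 c22280 c5586 c5447 c2428 c5445 c742 c5381 (k8 c5324 c2942 c22284 c5669 c22281 c798 c5462 c1656 (k1 c10131 k0))))) (by decide +kernel)
def c22286 : PP 9 3 T 0x44000000000000000000000040000000000000000000000000000000000000000000080000000000000000000408004000000000000000000000000000000 := rS 0x1dbbcc6f0f8f3bed (k8 c5499 c5373 c5580 c5538 c14796 c5204 c798 c5493 k0) (by decide +kernel)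
def c22287 : PP 9 3 T 0x2000000000110000000000000000000800000000008000000400000000000000000000000000000000000008000000000000000000000000000000000 := rS 0x1f5d2bdcb64f1bd2b3a0f (k8 c21871 c5373 c5211 c5518 c5335 c5474 c20840 c19938 (k2 c17823 c5242 k0)) (by decide +kernel)
def c22288 : PP 9 3 T 0x200040000000000000100000008000100000000000000000400000000000000000000000000002000000004000100000000000008 := rS 0x234b92a8b8562dc0c874967dcaed5c108fc50fce14eb1fc0062f0242cbd658a56a9138806fa4da520627273ee34329bdaa8d42794cb7fdefe5540fda1df9894de470596c479d3d987608647acf6c0f (k8 c21871 c22221 c5574 c2432 c22278 c5209 c5445 c742 (k8 c5373 c9733 c5474 c692 c5779 c5565 c1113 c22279 (k8 c20811 c5499 c10690 c745 c22280 c5586 c22286 c5447 (k8 c2428 c5398 c5449 c5529 c8100 c6205 c5569 c5566 (k8 c5383 c5382 c5380 c5211 c5521 c9704 c28 c5571 (k8 c746 c5422 c5417 c5420 c5575 c22285 c1507 c1107 (k8 c1108 c21968 c21979 c5458 c5460 c3610 c6118 c3948 (k8 c676 c3010 c4131 c22226 c22287 c5213 c5606 c5607 (k4 c269 c1115 c5652 c569 (k2 c1298 c15139 (k1 c3132 k0))))))))))) (by decide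 +kernel)
def c22289 : PP 9 3 T 0x200040000000000000100000008000100002000000000000000000000000000000000000000002000000004000100000000800008 := rS 0x11a5c9545c10158b41b819088749678fee576ae5e8a52271be9249b4a9384f1a9bdaa8d42c789f81c2794cf8dc4dff7bf95503f6877e6253791c165b11e74f661d82191eb3db1780c0f (k8 c21871 c1108 c1107 c22221 c5574 c2432 c22278 c5209 (k8 c5445 c742 c5373 c9733 c5474 c692 c5779 c5565 (k8 c1113 c22279 c20811 c5499 c10690 c745 c22280 c5586 (k8 c22286 c22288 c5466 c5447 c2428 c208 c18204 c5382 (k8 c2619 c5398 c5449 c5529 c8100 c5569 c5564 c5383 (k8 c5211 c5521 c5334 c9704 c5571 c746 c5417 c5575 (k8 c3010 c4131 c22226 c19418 c22287 c5213 c21943 c5606 (k8 c5607 c2426 c269 c1115 c12614 c5652 c569 c1298 (k2 c15139 c3132 k0))))))))) (by decide +kernel)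
def c22290 : PP 9 3 T 0x2000000000102000000000000000000000000000008000000000000000000000000000040000000000000008000002000000000000000000200000088 := rS 0x167da88f3b1f (k4 c3781 c5373 c9733 c5529 (k2 c22287 c21943 k0)) (by decide +kernel)
def c22291 : PP 9 3 T 0x200040000000000000100000008000100000000000000000000000000000000000000000000002000000004000100000000800008 := rS 0x62fea518bc6d71f7763a7c967c4ea6f7a55ba9eeebfdc2ec18208a818bc1f38e144e2939ad6fa49a549f1a9bdaa8d42c789a7597e0709e533e36ffbcf66173b599ce27f7cf60470596d1eb311e744a6f5540fda860eed81e05 (k8 c21870 c21871 c22221 c20811 c22278 c5499 c10690 c745 (k8 c5565 c1113 c5373 c9733 c5574 c2432 c5474 c692 (k8 c5779 c5209 c22279 c22280 c22288 c2574 c2575 c4299 (k8 c5445 c742 c5586 c22286 c5466 c5447 c2428 c208 (k8 c18204 c5420 c1777 c5382 c2619 c5398 c5449 c5529 (k8 c8100 c5569 c5383 c5211 c5334 c9704 c5422 c5419 (k8 c5417 c5570 c5423 c5571 c2316 c1107 c1108 c22289 (k8 c3584 c265 c4763 c22290 c5431 c5613 c5428 c5616 (k8 c17948 c748 c1803 c2434 c21941 c5217 c5472 c6396 (k8 c7591 c17955 c2693 c3454 c21520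 c5632 c2655 c5676 k0)))))))))) (by decide +kernel)
def c22292 : PP 9 3 T 0x40020000000000082001010000100040000000000000000000000000000000000004800000000444000000400000000000000000004000000000000002000 := rS 0x317f528c5e36b8fbbb1d2a350a653acb (k8 c5420 c1777 c5447 c5398 c5449 c5472 c6396 c7591 (k4 c17955 c2693 c3454 c21520 (k2 c5632 c2655 (k1 c5676 k0)))) (by decide +kernel)
def c22293 : PP 9 3 T 0x200040000000000000100000008000100000000000000000000000000000000000000000000002000000004000100000000000008 := rS 0xc5fd4a366f2e26f7a55bddd7fb85d81818321005dce97f03599c9d63b87c6e26ffbdfdf338b2f0a73788d43631be877db03553dc46470596d1eb3db13c6f4a89c9f1a253786537b5cea1926c94a9ecc2794cec0ae0f (k8 c21871 c21872 c5209 c5447 c2428 c5445 c742 c5446 (k8 c5396 c5444 c22278 c5373 c5529 c8100 c6205 c5565 (k8 c1113 c5569 c5383 c5382 c5211 c5518 c5335 c22221 (k8 c5574 c2432 c5474 c692 c5779 c9733 c20840 c745 (k8 c10690 c5499 c20811 c9704 c5476 c5475 c5324 c5323 (k8 c5419 c5423 c5420 c5571 c22279 c22280 c5586 c22286 (k8 c22288 c5466 c208 c2619 c1777 c2574 c2575 c18204 (k8 c1284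 c4299 c22291 c17923 c3577 c265 c20297 c4763 (k8 c22290 c5431 c5613 c5616 c17948 c748 c2434 c22292 (k4 c5217 c5350 c17823 c2655 (k1 c5676 k0))))))))))) (by decide +kernel)
def c22294 : PP 9 3 T 0x200040000000000000100000008000100000000000000000000000000000000000000000000002000000004000000000000000008 := rS 0x66970bb3fc2384ab2527b0788d5e61b188773bed7b96d9a6655218320f (k8 c21871 c6205 c22278 c745 c744 c4455 c5474 c20840 (k8 c5499 c5373 c20811 c5476 c5475 c5325 c5324 c5323 (k8 c5209 c5444 c5396 c5446 c22293 c5534 c2558 c21968 (k2 c1285 c12046 (k1 c3577 k0))))) (by decide +kernel)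
def c22295 : PP 9 3 T 0x6000000040000000000000100080000000200000000000001000000000000000000000000000000002000000000000000001000000008 := rS 0x421f138a76c05 (k4 c21870 c22221 c5417 c5570 (k2 c2316 c19634 (k1 c19632 k0))) (by decide +kernel)
def c22296 : PP 9 3 T 0x200040000000000000100000008000000000000000000000000000000000000000000000000002000000004000000000000000008 := rS 0x3ffe6e23fb5cc0796417d2a97efb7dc2d14e9ed8fe0d8ca1227147acf6cf131877db035552b3bb5d99990c81899f44a6f (k8 c5565 c1113 c5566 c5382 c5380 c22278 c744 c5487 (k8 c5529 c5373 c5211 c745 c10690 c5499 c20811 c9752 (k8 c5323 c22221 c5574 c2432 c5571 c746 c22294 c22295 (k8 c5235 c5535 c5457 c5458 c5459 c5460 c5538 c6344 (k8 c1284 c2125 c17795 c5678 c2429 c5663 c4535 c728 (k4 c3610 c5549 c2575 c22280 k0)))))) (by decide +kernel)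
def c22297 : PP 9 3 T 0x200000000000000000100000008000000000000000000000000000000000000000000000000002000000004000000000000000008 := rS 0x33bbcfe6afcfc6e2f7b7dc27b69a752e1864a6f62773fb1f25b57ea7d96b156a44e28f59ed9e2352d877db035508f3bb333219028d899f44a6f (k8 c5565 c1113 c5566 c5382 c5381 c5380 c22278 c744 (k8 c5487 c5373 c9733 c745 c10690 c5499 c20811 c5474 (k8 c5324 c5323 c22221 c5574 c2432 c5571 c746 c5573 (k8 c5421 c5420 c5572 c20782 c5529 c22296 c5357 c5358 (k8 c5356 c12830 c2492 c2063 c22078 c1227 c1273 c13297 (k8 c743 c13096 c13097 c20761 c17932 c5466 c5549 c1663 (k4 c22280 c19122 c2574 c5453 k0))))))) (by decide +kernel)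
def c22298 : PP 9 3 T 0x200000000000000000100000008000000000000000000000000000000000000000000000000002000000000000000000000000008 := rS 0x4755efff99284a6f14ed88af30efb606aa7ba18b60f (k8 c21871 c5474 c22278 c20840 c745 c10690 c5499 c20811 (k8 c5325 c5326 c22221 c5417 c5565 c1113 c22297 c5546 (k4 c2568 c1287 c6335 c17885 k0))) (by decide +kernel)
def c22299 : PP 9 3 T 0x100000008000000000000000000000000000000000000000000000000002000000008000000000000000008 := rS 0x4b1d08bfe25f3138a562ad489c76c4322bc5e61b0efb6060b7b96d5fa1556750c0f (k8 c21871 c22278 c5373 c745 c22298 c22232 c5474 c20840 (k8 c692 c10690 c5499 c20811 c5475 c5325 c5323 c5326 (k8 c5478 c22221 c5571 c746 c5573 c5421 c5417 c5570 (k4 c5546 c13156 c2568 c703 (k2 c6335 c1114 (k1 c3582 k0)))))) (by decide +kernel)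
def c22300 : PP 9 3 T 0x1000000080000000000000000000008000000000400000000000500000000000000000400000000002000000000000000000400020008 := rS 0x40b7cf6414e8636a29489c51eb3db0d4b679 (k8 c5441 c5474 c5324 c22221 c5574 c2432 c5571 c746 (k8 c5417 c5529 c22078 c1273 c543 c743 c13097 c700 (k1 c17983 k0))) (by decide +kernel)
def c22301 : PP 9 3 T 0x81000000000000002000100080000000000000000000008000000000000004040000000001100000008001004000000002000000000000000000010400000 := rS 0x64cf4bb79227147acde2350d8c43295f0ed8f661 (k8 c5445 c742 c22221 c7694 c5446 c5393 c5476 c5475 (k8 c5324 c5323 c5574 c2432 c5571 c746 c18026 c1284 (k2 c2564 c3577 (k1 c12046 k0)))) (by decide +kernel)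
def c22302 : PP 9 3 T 0x1001000000000000000000000000000000000000000008000000000000000040000000005100000008000014000000000000000000000000000011400000 := rS 0x6697788d43631 (k4 c5476 c5475 c5324 c5323 (k2 c1285 c12046 (k1 c3577 k0))) (by decide +kernel)
def c22303 : PP 9 3 T 0x202000110080000000000000100000008000000200400000000400000008000000000002004000000002000000000020000000000402000 := rS 0x75b0249ad15b0ecd8974def4ab7168bd4f770804d767f949dc6a5b04a8d4aa10cf87e48f59a44e3b6 (k8 c22221 c5571 c746 c5574 c2432 c5675 c7694 c5393 (k8 c5398 c5399 c5449 c5438 c5474 c5324 c5356 c20850 (k8 c5358 c4763 c20813 c12617 c5613 c5428 c5425 c5612 (k8 c5616 c8905 c748 c1826 c2434 c22236 c5348 c5601 (k4 c5602 c22238 c3580 c2958 (k1 c549 k0)))))) (by decide +kernel)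
def c22304 : PP 9 3 T 0x80000000000000100000008000000000000004000000000000000000000000000000000002000000000000000001000000008 := rS 0x11a93ad8aa2e158b71b8190e92cfb9efb3938397781881e3f0a012a19d832526173b9fcfa092faf4e663f6bdd9a6626fbc96f3a56d5ea4337841c6e18bc7d36bb06083e51309c715eaa2287742913891c165b4788f3a860f89d66b514ed80a0f (k8 c21871 c21870 c22221 c5417 c5422 c5574 c5570 c2316 (k8 c22278 c5373 c9733 c2432 c5474 c692 c5779 c5571 (k8 c746 c22298 c20811 c5326 c745 c22232 c17885 c20813 (k8 c12633 c5675 c17998 c265 c4763 c4660 c3781 c5593 (k8 c5591 c5549 c12617 c2745 c5478 c5477 c5529 c5211 (k8 c5325 c22299 c20635 c5521 c744 c4455 c20840 c5499 (k8 c9752 c5419 c5575 c5439 c5438 c5442 c5358 c5356 (k8 c1107 c261 c2063 c22300 c5393 c5446 c18032 c7694 (k8 c13779 c700 c699 c4343 c546 c22301 c22302 c5453 (k8 c22303 c22234 c5213 c5606 c5607 c5611 c269 c1115 (k4 c5652 c569 c591 c706 (k2 c15139 c2469 k0)))))))))))) (by decide +kernel)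
def c22305 : PP 9 3 T 0x80000000000000002000000040000000000000000000008000000000000000000000000000000000000000000008000002000000000000000001000000008 := rS 0xbb3fc2384ab2526f30efb5ee236699954470596f3a8f59ed8320f (k8 c21871 c6205 c22221 c5574 c2432 c5373 c5474 c692 (k8 c5779 c745 c744 c4455 c9733 c20840 c5499 c20811 (k8 c5325 c5444 c5396 c5446 c22279 c7694 c2558 c21968 (k1 c22302 k0)))) (by decide +kernel)
def c22306 : PP 9 3 T 0x40000000000000100000008000000000000000000000000000000000000000000000000002000000000000000001000000008 := rS 0xc84ab59a6d5f1f7da2332078251b10cb2d6235d999bde4b79d2b6af521fca26138e2bd542922874165bd0a3d669138edb3a86 (k8 c22278 c5373 c22221 c5571 c746 c5574 c2432 c22298 (k8 c5474 c692 c20811 c5326 c5417 c745 c22232 c17885 (k8 c20813 c12633 c5675 c5478 c5477 c5529 c5211 c5325 (k8 c22299 c20635 c744 c5487 c5324 c5421 c5420 c6205 (k8 c22305 c22108 c5235 c22079 c5316 c5459 c6344 c5462 (k4 c1656 c2081 c5778 c2125 (k2 c10379 c2189 k0))))))) (by decide +kernel)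
def c22307 : PP 9 3 T 0x100000000000000000000000100000008000000000000000000000000000000000000000000000000002000000000000000001000000008 := rS 0x235275b1545c2b16e370321d259d7a4df7bce95b57a90e2f1f5df8c7240401fcde73319f497df677852a19d826c18202387c4eb570b8fe48f59a44e31305840271c578a76c45d088f3ac93ba4c12172fe499a667b96d55ed430741e05 (k8 c21870 c21871 c20811 c22278 c5499 c745 c5474 c20840 (k8 c744 c4455 c22306 c5439 c1107 c5438 c261 c5356 (k8 c2063 c5373 c9733 c22298 c5326 c22221 c5417 c22232 (k8 c17885 c20813 c12617 c692 c12633 c5571 c746 c5574 (k8 c2432 c5675 c5549 c5591 c5422 c5570 c2316 c5779 (k8 c17998 c265 c4660 c22300 c5393 c5446 c7694 c22302 (k8 c5453 c22299 c5442 c9752 c5419 c2745 c5358 c18032 (k8 c700 c546 c13779 c4763 c3781 c5593 c5478 c5477 (k8 c5529 c5211 c5325 c20635 c5521 c5575 c22234 c5213 (k8 c5606 c5607 c5611 c269 c1115 c5652 c569 c591 (k2 c706 c15139 (k1 c2469 k0)))))))))))) (by decide +kernel)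
def c22308 : PP 9 3 T 0x80001000000000280001100000000000000400100000008000100200000000000400080008000040000050000000000000000000000000000000001000000 := rS 0x46dd1f6 (k4 c5223 c22236 c5599 c2676 k0) (by decide +kernel)
def c22309 : PP 9 3 T 0x100000008000000000000000000000000000000000000000000000000002000000000000000001000000008 := rS 0x3ad8124d68ad8766c4def4ab7168bd4f77dc379a4d7efbbd9c06207852a1950a9546c994a0126177f6c0ee7f3e824bf925da6c182070b8fe46f89840271c0f89c52735a8d4c61df6bdc46cd3311c165b47acd5eaaf792c8af3a56d742f5489c76c43cea181e05 (k8 c21870 c21871 c22278 c5373 c5478 c22221 c5571 c746 (k8 c5477 c22298 c5529 c5211 c5325 c5326 c22299 c20635 (k8 c745 c22232 c5574 c2432 c5474 c692 c5779 c744 (k8 c4455 c9733 c20840 c5499 c20811 c9752 c5324 c5422 (k8 c5419 c5417 c5570 c2316 c17885 c20813 c12617 c12633 (k8 c2745 c5675 c5549 c5591 c17998 c265 c4660 c4763 (k8 c22306 c5439 c5438 c5442 c5358 c5356 c22300 c22304 (k8 c1107 c261 c18032 c20850 c2063 c5449 c5399 c5398 (k8 c5393 c5446 c7694 c700 c699 c22302 c4343 c5453 (k8 c1769 c20909 c2942 c22307 c5613 c5428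 c5425 c5612 (k8 c5616 c8905 c748 c2434 c22308 c5348 c5601 c5602 (k4 c22238 c3580 c2958 c549 k0)))))))))))) (by decide +kernel)
def c22310 : PP 9 3 T 0x200000000000800000000000000000008000000000000000000000000000000000008000000008000000000000000000000000000000008 := rS 0x2de2bc1c1b570578d1c37af0ebdcb62fc38b7220f (k8 c21871 c5615 c5612 c5429 c5425 c5474 c20840 c20811 (k8 c5479 c5475 c5327 c5323 c20784 c3831 c1004 c1288 (k2 c1116 c2149 (k1 c3583 k0)))) (by decide +kernel)
def c22311 : PP 9 3 T 0x280000000000000280000000000000000000000000000000000000000000000000000000000000000000000000000000000000000000000000000000000000 := rS 0x5cc6d66bdc2ad633158bafd76b7 (k8 c5616 c5430 c5431 c5593 c5590 c5551 c5422 c5423 (k4 c5575 c5574 c5557 c5632 (k1 c3626 k0))) (by decide +kernel)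
def c22312 : PP 9 3 T 0x1001000000000202002010000000000000000000000008000000000000000040000000001000000008000000000000002000000000000000000011000000 := rS 0x318f2ce3de4c2e994a9859293 (k8 c5444 c5396 c5445 c5446 c5447 c21968 c8905 c742 (k4 c22302 c2428 c5669 c20739 k0)) (by decide +kernel)
def c22313 : PP 9 3 T 0x1000000000011000010000000000000000000000008000000000000000000000000000000000000000000000000000000000000000000000001000008 := rS 0x64c6a5b (k4 c5474 c5324 c22078 c5235 k0) (by decide +kernel)
def c22314 : PP 9 3 T 0x1000000000200000000000000000000000100000008000000000000000000000000000000000000000000000000002000000000000000000000000008 := rS 0xc4def4bf5c5adeee1df6bdd9a66f944c26010596d1eb3d806448af557bc964579d2b42f5489c76c43cea1b6a0f (k8 c21871 c5529 c22278 c5373 c5478 c22221 c5571 c746 (k8 c5477 c22298 c5211 c5325 c5326 c22299 c20635 c745 (k8 c22232 c22309 c17721 c22313 c5574 c2432 c5474 c692 (k8 c28 c2805 c12633 c5675 c744 c4455 c20840 c5499 (k8 c20811 c5613 c5616 c22310 c22311 c22312 c748 c2434 (k1 c5676 k0)))))) (by decide +kernel)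
def c22315 : PP 9 3 T 0x8000000000000000000080000000000000000000000000000000400000000000500000000000000000000000004002000000000000000000000000000 := rS 0x37d029138a3d67b6 (k8 c22221 c5574 c2432 c5571 c746 c5463 c5580 c17932 k0) (by decide +kernel)
def c22316 : PP 9 3 T 0x1000000000000000000000000000000000100000008000000000000000000000000000000000000000000000000002000000000000000000000000008 := rS 0xd262acebaf1c7f73921cb1fbe79671ec2e994a9859293d8077daf76699832af557bc964579d2b6af521b8dc317f944c26240082cb7a147acd2271db6750c0f (k8 c21871 c22278 c5373 c22221 c5571 c746 c5574 c2432 (k8 c22298 c5474 c692 c28 c22309 c2805 c12633 c5675 (k8 c5593 c5591 c5549 c5478 c5477 c5529 c5211 c5325 (k8 c5326 c22299 c20635 c745 c22232 c17721 c744 c4455 (k8 c20840 c5499 c20811 c22313 c5444 c5396 c5445 c5446 (k8 c5447 c21968 c742 c22302 c2428 c5453 c20739 c2558 (k8 c5669 c22314 c19418 c22315 c22235 c22234 c2663 c5213 (k1 c5390 k0)))))))) (by decide +kernel)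
def c22317 : PP 9 3 T 0x100000008000000000000000000000000000000000000000000000000002000000000000000000000000008 := rS 0x1027ff181cbe403eca32697d8f7d3be0f944c321009893de4b57e87674a05aa8cd9d436d53ecb138a5227147acf6c43228d5e65b7a804c605 (k8 c21870 c9752 c28 c5477 c5474 c5325 c5324 c5326 (k8 c5478 c22221 c5574 c2432 c5571 c746 c5417 c5570 (k8 c5420 c5572 c5529 c22278 c5373 c744 c745 c692 (k8 c5211 c5487 c22298 c22232 c22299 c20635 c22309 c2805 (k8 c1114 c17721 c12633 c5675 c22316 c5458 c6344 c7694 (k8 c1284 c22078 c22108 c18801 c22079 c17795 c5432 c5462 (k2 c19577 c699 (k1 c5670 k0)))))))) (by decide +kernel)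
def c22318 : PP 9 3 T 0x10000000000000000000000008000000000000000000000000000000000000000000000000002000000000000000000000000008 := rS 0x7f125eeab81d2847b50fa44e2f32dbd49647d0ecde2450dc055d580eed9fa05 (k8 c21870 c20782 c22221 c20811 c22317 c19291 c3071 c5475 (k8 c5326 c5323 c17812 c20946 c5562 c5342 c5477 c5474 (k8 c5325 c5571 c746 c2316 c5529 c9733 c5211 c21406 (k4 c22232 c8123 c5334 c18038 (k1 c22247 k0))))) (by decide +kernel)
def c22319 : PP 9 3 T 0x2000000000000000020040000000000000000000008000000000000000040000000004000000000000000000000000000000000000100000000000000 := rS 0x31d99a3b2d9e6534b (k8 c18477 c19356 c5524 c5474 c5456 c5537 c20823 c22271 (k1 c672 k0)) (by decide +kernel)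
def c22320 : PP 9 3 T 0x1000000000000000000000000000000000000000008000000000000000000000000014000000000000000000000002000000000000000000000000088 := rS 0x660d8eec71d96dea7b439e652390cec0454bce6d43e05 (k8 c21870 c2316 c5529 c22318 c18477 c6197 c22097 c5393 (k8 c395 c19356 c5524 c5373 c5372 c5477 c5474 c1674 (k4 c13650 c672 c5654 c20853 (k1 c2329 k0)))) (by decide +kernel)
def c22321 : PP 9 3 T 0x2000000000000000000000000000000000000000000008000000000000000040000000000000000000000000000000002000000000000000000000000008 := rS 0x1f92de3408cc2e07f0e4c72d33e8654293d833da2cb13bc46a1b18bd4023d20e87deaeac0776c879488a979cda87cae05 (k8 c21870 c21872 c2316 c5529 c22318 c18477 c6197 c19356 (k8 c5373 c22221 c20811 c22317 c19291 c5584 c20946 c5340 (k8 c5560 c28 c5477 c5476 c5475 c5324 c5323 c5570 (k8 c5420 c5501 c5543 c22097 c5444 c5398 c5393 c21924 (k8 c2940 c395 c22269 c22319 c22320 c1108 c20297 c12653 (k4 c17859 c22125 c5670 c19608 k0)))))) (by decide +kernel)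
def c22322 : PP 9 3 T 0x1000000000000000000000000000000000000000008000000000000000040000000000000000004000000000000002000000000000000000000000008 := rS 0x7792de31985c0f9367b4472994ab243293d83f44e3518fbd5c1d43ca4454bce6d43ff37fecde2450ded88f1dac7b4ae05 (k8 c21870 c21872 c22321 c22317 c5341 c5562 c22221 c5475 (k8 c5326 c5323 c17812 c22247 c17808 c2316 c5529 c22318 (k8 c18477 c6197 c19356 c5373 c20811 c19291 c5584 c5476 (k8 c5324 c5570 c20782 c5225 c5444 c5393 c5396 c5446 (k8 c5447 c395 c21980 c13265 c22269 c22320 c1108 c20297 (k4 c17859 c3577 c5204 c5452 k0)))))) (by decide +kernel)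
def c22323 : PP 9 3 T 0x40000000000000000000008000000000000000040000000000000000004000000000000002000000000000000000000000008 := rS 0xceceb0f12286f6c7b439e6534bce7b477e0 (k8 c22322 c5456 c22321 c22318 c18477 c19356 c5524 c5373 (k8 c5372 c22221 c5475 c5326 c5323 c22317 c17812 c6205 (k1 c22272 k0))) (by decide +kernel)
def c22324 : PP 9 3 T 0x8000000000000000040000000000000000004000000000000002000000000000000000000000008 := rS 0x612db1676499a3968f8151eddabf46a5bd9d61e2450ded90f9c (k8 c22318 c5373 c22221 c5475 c5326 c5323 c22317 c17812 (k8 c5474 c5324 c20782 c5529 c22321 c5682 c22322 c5459 (k8 c5534 c5537 c22323 c20826 c22269 c2451 c22078 c1227 k0))) (by decide +kernel)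
def c22325 : PP 9 3 T 0x8000000000000000000000000000000000004000000000000002000000000000000000000000008 := rS 0x54fb5edb57e87767587891437b6 (k8 c22221 c5475 c5326 c5323 c22317 c17812 c20811 c20782 (k4 c5529 c22324 c5498 c2020 (k1 c5682 k0))) (by decide +kernel)
def c22326 : PP 9 3 T 0x4000020080000000000000000040000000000000000000001000000000000000088000000000000002000000000000000000002000000 := rS 0x71a0540d464257c7df6fb47c097d8ed4d711489c51eb343ca552fe89c0d63b680bf7dbef (k8 c5584 c5500 c20782 c3071 c22221 c5421 c2199 c21166 (k8 c1287 c169 c19356 c5373 c5574 c2432 c5571 c746 (k8 c160 c64 c5529 c5393 c1227 c5225 c5459 c5538 (k8 c20844 c11976 c2125 c5678 c19122 c1182 c20766 c1663 (k1 c17947 k0))))) (by decide +kernel)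
def c22327 : PP 9 3 T 0x80000000000000000000008000000000000000000000000000000000000000000000000002000000000000000000000000008 := rS 0x6c072191a96d5c1dd9d61e2450ded8f6879488a979cda87d5405 (k8 c21870 c22325 c2316 c5529 c22318 c18477 c6197 c19356 (k8 c5373 c5372 c22221 c5475 c5326 c5323 c22317 c17812 (k8 c20811 c19291 c5474 c5324 c22326 c395 c22108 c22268 k0))) (by decide +kernel)
def c22328 : PP 9 3 T 0x8000000000000000000000000000000000000000000000000002000000000000000000000000008 := rS 0x31d02e3f0b7cfece6ba73be7d50a5b619369c51fd0333fb55422a5ca4f2873de7203ef570f6b01ddabf43ecb58ed9e205 (k8 c21870 c5323 c22221 c5421 c5420 c2316 c20782 c5529 (k8 c20811 c22317 c5560 c19291 c5584 c3071 c22318 c5372 (k8 c5373 c5524 c19356 c18477 c6197 c22325 c5500 c2123 (k8 c2199 c1287 c1286 c4894 c22327 c5209 c22141 c5398 (k8 c21924 c5452 c1284 c1767 c1285 c19608 c2950 c5458 (k4 c1777 c20909 c20739 c19149 k0)))))) (by decide +kernel)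
def c22329 : PP 9 3 T 0x1000000000002000000000000000000000000000000000000000000000000000000000000000008000000000000002000000000000000000010000004 := rS 0x12e063bb3c70c643d2fda3731ca739b53c828f711358ed2620003359205 (k8 c21870 c5396 c2075 c5642 c666 c5444 c340 c64 (k8 c160 c3810 c665 c4627 c5529 c17712 c19356 c19420 (k8 c20063 c5500 c5516 c3811 c22099 c5654 c20739 c20921 (k2 c2471 c1285 (k1 c20822 k0))))) (by decide +kernel)
def c22330 : PP 9 3 T 0x2000000000000000000000000000000000000000000000000000000000000000000000040000000000000040000000000000010000084 := rS 0x76 (k2 c20822 c672 k0) (by decide +kernel)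
def c22331 : PP 9 3 T 0x4000000000000000000000000000000000000000000000000000000000000000000540048000000000000000000000000000000005511540000000000000 := rS 0xf9afdf (k4 c5453 c1769 c3590 c14449 k0) (by decide +kernel)
def c22332 : PP 9 3 T 0x4004400000000110000020000000000000400000040000000000000401000000005000000040000000000000000000000000000000000000000000000000 := rS 0x349f4 (k2 c5232 c5213 (k1 c19011 k0)) (by decide +kernel)
def c22333 : PP 9 3 T 0x4004400000000102000000000000000000000000000008000000000401000000005000000040000000000000000000002000800000000100000000000200 := rS 0x3a49ec1c72e6f37cc0ddf4a4dd68af56c3b31463f4b1b98e539cda9e4147b889ac7693100000605 (k8 c21870 c22328 c5642 c666 c5444 c340 c64 c160 (k8 c3810 c665 c4627 c5529 c17712 c19356 c19420 c20063 (k8 c5516 c9712 c19161 c22332 c5348 c5600 c5601 c5602 (k8 c5604 c19938 c669 c1062 c5667 c814 c1299 c1365 (k4 c278 c347 c1559 c3591 k0))))) (by decide +kernel)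
def c22334 : PP 9 3 T 0x40020000000000082000000000000000000400000040000000000040000000000004000000000444000001400000000000000000054000000000000000000 := rS 0x1f528c5d71f77628d4299 (k8 c5447 c5398 c5449 c6396 c7591 c17955 c3454 c21520 (k2 c5632 c5661 k0)) (by decide +kernel)
def c22335 : PP 9 3 T 0x40000000000000000000008000000000000000000000000000000000088000000000000002000000000000000000010000000 := rS 0x28fd717a4f29349f1bb3adc5abfdc425c45e040cc0e16eff8d2ece728e5cee14eb1fc0f70f915e21b1899cb69b5d8dcf27b358ed26fe69c4dbea1d818c83f323ace539c88ed47b588a08c922013d2c14000192e02fd81ac76cf3f7fb4ae05 (k8 c21870 c21872 c5500 c5584 c5325 c22221 c5421 c2199 (k8 c20782 c3071 c9182 c22328 c5642 c665 c5516 c5570 (k8 c666 c344 c9731 c1286 c6578 c5560 c5529 c160 (k8 c17712 c19356 c5574 c2422 c5590 c10205 c19420 c16365 (k8 c5398 c2950 c21166 c2940 c1287 c5444 c340 c64 (k8 c3810 c4627 c20063 c4761 c4659 c5474 c663 c5476 (k8 c5475 c5323 c5326 c2316 c8123 c22329 c5535 c5458 (k8 c5460 c5461 c5534 c5539 c22319 c1284 c17960 c5453 (k8 c21936 c22330 c20297 c5643 c22126 c22331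 c4783 c22333 (k8 c5431 c5612 c5616 c17708 c3131 c346 c2424 c22334 (k4 c5217 c5390 c19011 c2647 (k1 c5661 k0)))))))))))) (by decide +kernel)
def c22336 : PP 9 3 T 0x4002000000000282000000040000000000000200040000000100002040000000000000000000040000000400000000004040000004000000000200000000 := rS 0x85fde1bf19360b1ba4f29349f1bb3adf222dbeafce38539fcd3ae7 (k8 c5461 c5458 c5590 c5419 c5423 c5571 c5431 c5427 (k8 c5612 c5615 c5616 c17708 c3131 c346 c2424 c22334 (k8 c5217 c5611 c20789 c17948 c5626 c3494 c5637 c20801 (k1 c5696 k0)))) (by decide +kernel)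
def c22337 : PP 9 3 T 0x2800000000000000020000000000000000000000000000000000000000000000000001000000000000000000000000000000000000000000000000000 := rS 0xeecf (k2 c5453 c5493 (k1 c20823 k0)) (by decide +kernel)
def c22338 : PP 9 3 T 0x4002000000000004000100040000000000000000000008000000002441000000000000001000000000000000000000002000000004000000000020000000 := rS 0x272e7c97cfbe06ef87d28af576fb377f73e3728e5cee163af70b478f99cb69b5d8dcf27b358ed2758119244edf50ec0c64194e7223b537897e647102cf6d4b050000605 (k8 c21870 c22328 c5642 c665 c5516 c22221 c5574 c666 (k8 c2422 c5590 c20674 c1060 c5529 c160 c17712 c19356 (k8 c10205 c19420 c16365 c5398 c2950 c5570 c344 c9731 (k8 c6578 c5444 c340 c64 c3810 c4627 c20063 c4761 (k8 c4659 c5474 c663 c9712 c5327 c5423 c5575 c5535 (k8 c5460 c5461 c5534 c5539 c17960 c22336 c22337 c22332 (k8 c5349 c5600 c5601 c19938 c2222 c669 c1062 c18010 (k4 c5667 c5190 c1299 c6333 (k1 c347 k0))))))))) (by decide +kernel)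
def c22339 : PP 9 3 T 0x40000000000000000000008000000000000000000000000000000000088000000000000002000000000000000000000000000 := rS 0x1792e093b8e18de184bd8390f25c4e28fe80ecfdefd79a1fdb03d099cb673569c4922711d2d63b64a8dcf20a3d9ac76931033593b031ca7380001c476a05 (k8 c21870 c5529 c160 c22328 c5642 c17712 c19356 c19420 (k8 c16365 c5396 c2075 c666 c5444 c340 c64 c3810 (k8 c665 c4627 c20063 c5446 c22221 c5421 c5516 c9731 (k8 c5570 c344 c5571 c5573 c5419 c5474 c663 c19237 (k8 c2199 c5500 c3811 c5325 c20782 c5584 c5406 c3071 (k8 c1287 c1286 c21166 c9182 c5033 c22335 c2121 c4581 (k8 c22338 c22099 c5654 c20921 c3642 c8190 c20857 c1055 k0))))))) (by decide +kernel)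
def c22340 : PP 9 3 T 0x1000000000002000000000000000000000000000008000000000000000000000000000000000008000000000000002000000000000000000000000000 := rS 0x1792e063bb3c70c64399cb74bf6a546e6394e736a79051ee226b1da4c400001b359205 (k8 c21870 c5396 c2075 c22328 c5642 c666 c5444 c340 (k8 c64 c160 c3810 c665 c4627 c5529 c17712 c19356 (k8 c19420 c20063 c5446 c5500 c5516 c5474 c663 c3811 (k8 c22099 c5654 c20739 c20921 c2471 c1285 c20857 c1451 k0)))) (by decide +kernel)
def c22341 : PP 9 3 T 0x80000100040000000000000000000008000000000000020000000100400000000040000000004140400000000000010004000000000204 := rS 0x7b1d08b551a7139ac55a670016c7e05 (k8 c21870 c276 c5474 c5642 c663 c5573 c5421 c5419 (k4 c5571 c2141 c3072 c20922 (k2 c13277 c1513 (k1 c18089 k0)))) (by decide +kernel)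
def c22342 : PP 9 3 T 0x40000000000000082000100040000000000000000000008000000000000000000000140010040000048001000004005400000000000000000000000000004 := rS 0x1f1a5e3f7405ff146bb8c8233408202c072f338fe7159b2ce6b15aab4ce002da852acd64a5cae05 (k8 c21870 c21872 c1284 c5396 c2075 c5446 c5398 c5474 (k8 c5642 c663 c5573 c5422 c5421 c5419 c5420 c5574 (k8 c5571 c20444 c20853 c20857 c1451 c1054 c1055 c1746 (k8 c20297 c1736 c17330 c1769 c6118 c3010 c22341 c6368 (k4 c22132 c8156 c5670 c20757 k0))))) (by decide +kernel)
def c22343 : PP 9 3 T 0x8000000000000082000100040000000000000000000000000000000000000000000000000000000040000040000000800040000000000000000000000000 := rS 0xf8d2f1a34e2cb39ac55aa1 (k8 c5398 c5573 c5421 c5419 c5420 c5571 c5505 c22132 (k2 c8156 c20919 (k1 c20757 k0))) (by decide +kernel)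
def c22344 : PP 9 3 T 0x40020000000000082000000000000000000400000040000000000000000000000004800000000444000001400000000000000000054000000000000000000 := rS 0x234e9 (k2 c5472 c22334 (k1 c2693 k0)) (by decide +kernel)
def c22345 : PP 9 3 T 0x400a000000000082000000000000000000000000000000000000000000000000000000000000000048000000000000000000000000000000000000000000 := rS 0x80bfda91469b5d96adf6c0d629970fcd2e9d (k8 c5458 c1284 c7694 c5460 c5447 c5421 c2199 c5500 (k8 c5573 c5420 c5465 c5579 c6706 c9617 c3010 c3072 (k1 c5694 k0))) (by decide +kernel)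
def c22346 : PP 9 3 T 0x44004400000000282000020040000000000000200000000000000000401000000005800000040000000001000000000000000000000000000000200000800 := rS 0x28fd717a4f29349f675b8b57e9b5dd2e524b (k8 c5342 c19356 c5516 c4761 c4659 c5431 c5612 c5616 (k8 c17708 c346 c2424 c22344 c5217 c5390 c19011 c2647 (k1 c5661 k0))) (by decide +kernel)
def c22347 : PP 9 3 T 0x40000000000000000000008000000000000000000000000000000000008000000000000002000000000000000000000000000 := rS 0x13973e4be7df0377c3e9457abb7d9b72e28ac4dfd0146424dfb30e096b1e3f79d92fdff9b95bee770b453ac7f02bd9a3764ec0d6b35eb2f0ab522bc68e1b8fa1cf67931ca73911dafb607a13396ce6ad38924402711d2c140001ac76c05 (k8 c21870 c22221 c5421 c22328 c5642 c665 c5516 c9731 (k8 c5570 c666 c344 c5571 c5573 c5419 c5474 c663 (k8 c19237 c2199 c5500 c5529 c160 c17712 c19356 c19420 (k8 c4627 c3810 c3811 c9712 c5475 c5327 c5323 c5326 (k8 c5422 c5423 c5420 c5575 c5574 c64 c16365 c5396 (k8 c20063 c2075 c22339 c22340 c5535 c5458 c5459 c5460 (k8 c5461 c5538 c5539 c7694 c22337 c1284 c22342 c22343 (k8 c22345 c5216 c5559 c19291 c17812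 c1060 c4581 c20793 (k8 c2141 c6368 c21166 c3010 c6118 c22346 c22332 c5349 (k8 c5600 c5601 c19938 c2222 c669 c1062 c18010 c5667 (k4 c5190 c1299 c6333 c347 k0))))))))))) (by decide +kernel)
def c22348 : PP 9 3 T 0x2000000000000000000000000000008000000000000000000000000000000000008000000000000002000000000000000000000000000 := rS 0x4ea5bc09533800065b2f9df2405 (k8 c21870 c22347 c5356 c5439 c5474 c22328 c5642 c663 (k4 c5446 c22340 c20857 c5458 (k1 c1284 k0))) (by decide +kernel)
def c22349 : PP 9 3 T 0x44004000000000000000000000000000000000000000008000000000000010000000100000000000008000000000000002000000000000000000000000000 := rS 0xe340b50dfb312d6097137f3f5227122bc5e61b3c91d66491009fdb0358ed98e7d3fb7fbfe0c921d526b4ba77634b054a7380001c476a05 (k8 c21870 c5529 c160 c22328 c5642 c17712 c19356 c665 (k8 c5516 c22348 c9066 c1284 c64 c169 c3811 c22347 (k8 c5225 c20844 c5538 c5358 c5442 c5357 c22221 c5421 (k8 c2199 c5500 c5570 c666 c344 c5574 c2422 c4627 (k8 c5475 c5325 c5323 c5326 c5571 c746 c20782 c6368 (k8 c21166 c9182 c5660 c20674 c17812 c1060 c19122 c20766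 (k2 c1663 c14947 k0))))))) (by decide +kernel)
def c22350 : PP 9 3 T 0x40000000000000080000100000000000000000000040000000000000000000000000000000000000040000000100000000040000000400000000000001004 := rS 0x484b37044e27358ab40005 (k8 c21870 c5642 c5573 c5421 c5419 c5571 c20922 c20793 (k2 c12638 c1060 (k1 c20674 k0))) (by decide +kernel)
def c22351 : PP 9 3 T 0x44000000000000000000000000000000000000000000008000000000000010000000100000000000008000000000000002000000000000000000000000000 := rS 0x3c513f6c0d63b6c9783634b054a7380001c476a05 (k8 c21870 c5529 c160 c22328 c5642 c17712 c19356 c665 (k8 c5516 c22348 c5225 c22347 c22221 c5421 c2199 c5500 (k2 c21166 c22349 (k1 c11976 k0)))) (by decide +kernel)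
def c22352 : PP 9 3 T 0x44000000000000000000000000000000000000000000008000000000000000000000100000000000008000000000000002000000000000000000000000000 := rS 0xaf46c01fa0d4391d67a13396ce6ad38924402711d2c140001ac76c05 (k8 c21870 c22221 c5421 c22328 c5642 c665 c5516 c9731 (k8 c5570 c666 c344 c5571 c5573 c5419 c5474 c663 (k8 c19237 c5574 c2422 c3811 c2427 c20782 c22351 c2141 (k2 c3071 c22350 k0)))) (by decide +kernel)
def c22353 : PP 9 3 T 0x84000400000000000000000000000000000000000000000000000000000040000000040008040000000000000000050402000000000000000000000000002 := rS 0x8d7fb49ae8080b8e269138a3d67b643e7223b5 (k8 c5529 c160 c17712 c3811 c22221 c5574 c2432 c5571 (k8 c746 c5547 c5549 c5592 c17861 c1769 c20909 c2942 (k2 c2083 c20819 k0))) (by decide +kernel)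
def c22354 : PP 9 3 T 0x4000000000000000000000000000000000000000000008000000000000000000000000000000000008000000000000002000000000000000000000000000 := rS 0x7ce06b1db31cfa7f3bb39bfdfc921d526b70f83634b054a7380001c476a05 (k8 c21870 c5529 c160 c22328 c5642 c17712 c19356 c665 (k8 c5516 c22348 c5225 c5460 c64 c169 c3811 c22347 (k8 c20844 c5538 c22097 c5356 c5358 c5442 c5357 c22221 (k4 c5421 c2199 c22353 c22352 k0)))) (by decide +kernel)
def c22355 : PP 9 3 T 0x8000000000000000000000000000000000008000000000000002000000000000000000000000000 := rS 0x7cd5e8df7684e27358ab41a23ce4476a672d91d66491009f6d4b050000605 (k8 c21870 c22328 c5642 c665 c5516 c22221 c5570 c666 (k8 c344 c5574 c2422 c5474 c663 c5529 c160 c17712 (k8 c9731 c2427 c5573 c5421 c5419 c5571 c19237 c22354 (k4 c5505 c5584 c18955 c22350 k0)))) (by decide +kernel)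
def c22356 : PP 9 3 T 0x48000000000000080000000000000000000000000040000000000000000000000000000000000000000000000000000000040000000400000000000001004 := rS 0x1a157a34e2ad (k4 c5573 c5571 c5505 c5584 (k2 c19392 c22350 k0)) (by decide +kernel)
def c22357 : PP 9 3 T 0x40000000000000080000000000000000000000000040000000000000000000000000000000000000040000000100000000040000000400000000000001004 := rS 0xdda0389cd62ad (k4 c5573 c5421 c5419 c5571 (k2 c22350 c20793 (k1 c5565 k0))) (by decide +kernel)
def c22358 : PP 9 3 T 0x200000000000000000000000008000000000000004000000000000000000000000000004000000000000001000000000000000800 := rS 0x2b34b (k2 c5516 c20946 (k1 c20263 k0)) (by decide +kernel)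
def c22359 : PP 9 3 T 0x8000000000000000000000000004040000000000000000000002000000000000400000000000000 := rS 0x64fc0397baac41b0a582b380001c476a05 (k8 c21870 c5529 c160 c22328 c5642 c17712 c665 c5516 (k8 c22097 c666 c22355 c343 c2470 c22099 c20907 c22319 k0)) (by decide +kernel)
def c22360 : PP 9 3 T 0x100000000000000000100000008000000000000000000000040004000000000000000000000006000000000000400000000040000 := rS 0x7d2f818fe38f1207c393630df606b389cf6c7b3c882960a31ca7380001c476a05 (k8 c21870 c5529 c160 c22328 c5642 c17712 c19356 c19420 (k8 c665 c5516 c666 c4627 c3810 c22221 c5419 c5571 (k8 c64 c22097 c20063 c22359 c5357 c5535 c941 c5216 (k4 c5654 c5577 c2471 c1451 (k2 c1457 c18032 k0))))) (by decide +kernel)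
def c22361 : PP 9 3 T 0x4000000000000000000000000000008000000000000000000000000008000000000000000000000002000000000000000000000020000 := rS 0x2492db154263dafd38b2ce63594e7223b5d0bfd56491009f6c0a438000605 (k8 c21870 c22328 c5642 c3811 c665 c22221 c5570 c666 (k8 c344 c22355 c22247 c22358 c5529 c160 c17712 c19356 (k8 c5324 c5419 c5420 c5571 c20782 c5543 c13265 c5682 (k4 c5447 c2451 c17971 c1637 k0)))) (by decide +kernel)
def c22362 : PP 9 3 T 0x40000000000000004000000000000000000000100000008000000000000000000000000000000000000000000000000002000000000000000000000000000 := rS 0x931d6c19e130837cde4a0691d674b94e7223b5d0bfd56491009f6c0a438000605 (k8 c21870 c22328 c5642 c3811 c665 c22221 c5570 c666 (k8 c344 c22355 c22247 c22358 c5529 c160 c17712 c19356 (k8 c5516 c5574 c2422 c2427 c5660 c18580 c6120 c2589 (k4 c301 c22361 c22097 c22360 (k2 c5444 c340 k0))))) (by decide +kernel)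
def c22363 : PP 9 3 T 0x4000000000000000000000000000000000000000000008000000000000000000000000004000000080000000000000006000000000001000000000010000 := rS 0x6bf7d00963e9fcee5f030e3c2c6698ec6e9530b254293d81ace2cb399ecce5b3cd2cc729ce4476ba17fecd56491009f6c0a438000605 (k8 c21870 c22328 c5642 c3811 c665 c22221 c5570 c666 (k8 c344 c22355 c5406 c22247 c22358 c5529 c160 c17712 (k8 c19356 c19420 c5516 c4627 c5474 c663 c3810 c5419 (k8 c5420 c5571 c64 c22097 c5444 c5398 c5396 c5445 (k8 c5446 c20063 c340 c2940 c22359 c5535 c5654 c2471 (k8 c1451 c672 c676 c1456 c20791 c18032 c5452 c1767 (k1 c20909 k0))))))) (by decide +kernel)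
def c22364 : PP 9 3 T 0x40000000000000000000000000000000000000000000008000000000000000000000000000000000080000000000000002000000000000000000000000000 := rS 0xc0963ea84fe812fb4d92a871351ae9866f7fdace37c087a1112d6342ff80ecdfa7139915e6f5439e4922731ca73911dabdd57efa58288e205999c005b0680f6c05 (k8 c21870 c22221 c22328 c2427 c5474 c5642 c663 c5574 (k8 c666 c2422 c665 c5516 c22356 c22355 c343 c5529 (k8 c160 c17712 c19356 c19420 c5570 c344 c4627 c3811 (k8 c5477 c5325 c5326 c5419 c5571 c20782 c5406 c3071 (k8 c22247 c22358 c22362 c5559 c5558 c5560 c18038 c1060 (k8 c22363 c5543 c5453 c139 c13265 c1770 c8707 c2633 (k8 c5682 c2065 c2087 c1520 c20909 c20749 c3001 c1551 (k2 c2451 c9934 (k1 c20768 k0))))))))) (by decide +kernel)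
def c22365 : PP 9 3 T 0x40000000000000000000000000000000000000000000008000000000000000000000000008000000000000000000000002000000000000000000000000000 := rS 0x30258faa1409fcbed354389a8d74c337bfed7e9c4e67931ca73911dafbcde25813ff66f10dbdd570143d609611d0a315e672d836960a2489c8e200000d67b679bd48a05 (k8 c21870 c5326 c5477 c5325 c22221 c5574 c22328 c5642 (k8 c666 c2422 c5570 c344 c665 c5516 c2427 c5474 (k8 c663 c22364 c22357 c5381 c701 c12638 c5660 c3811 (k8 c2141 c22355 c343 c5475 c5323 c17812 c22247 c18038 (k8 c20674 c1060 c22356 c5529 c160 c17712 c19356 c19420 (k8 c4627 c5419 c5571 c20782 c5543 c5453 c139 c13265 (k8 c1770 c8707 c2633 c5682 c2087 c1520 c808 c20909 (k4 c3000 c1551 c2451 c9934 (k1 c20768 k0))))))))) (by decide +kernel)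
def c22366 : PP 9 3 T 0x40000000000000000000000000000000000000000000008000000000000000000000000000000000000000000000000002000000000000000000000000000 := rS 0xd7efa012c7d3f9dcbed30338c71e1630ec6e9530b2527b067c09fe6fd98f44b5825c0423a1462bfde6b38b2ce64578bcc36f506a1cf6672d9e48eb32489f6d4b0518e539c88ed5eeab100000605 (k8 c21870 c22328 c5642 c666 c22355 c343 c5529 c160 (k8 c17712 c19356 c19420 c665 c5516 c22221 c5570 c344 (k8 c5574 c2422 c4627 c5474 c663 c3810 c3811 c2427 (k8 c5477 c5475 c5325 c5323 c5326 c5419 c5420 c5571 (k8 c64 c22356 c22364 c22357 c5381 c701 c2141 c12638 (k8 c5660 c20674 c5560 c17812 c1060 c22247 c18038 c22365 (k8 c22097 c5444 c5396 c5445 c5446 c20063 c340 c22359 (k8 c5535 c5654 c4735 c2471 c2088 c1451 c672 c676 (k4 c1456 c20791 c18032 c5452 (k2 c1767 c20909 k0)))))))))) (by decide +kernel)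
def c22367 : PP 9 3 T 0x2000000000000000000000000000008000000000000000000000000000000000000000000000000002000000000000000000000000000 := rS 0x884d191cace85fed7d9f7d2c772f818703bf08dd2a6164a4cd6cb39a44e28f21915e6f5439ecce5b3c91d664913eda960a31ca73911dabdd56200000c971381c07e405 (k8 c21870 c22366 c5592 c5550 c5547 c5546 c22328 c5642 (k8 c666 c22355 c343 c5529 c160 c17712 c19356 c19420 (k8 c665 c5516 c22221 c5570 c344 c5574 c2422 c4627 (k8 c5474 c663 c3810 c3811 c5477 c5325 c5326 c5478 (k8 c2432 c5571 c746 c5419 c5420 c64 c5444 c5396 (k8 c5445 c5446 c20063 c7694 c340 c5654 c2471 c1451 (k8 c672 c20791 c5452 c5404 c1767 c22247 c19794 c18038 (k4 c3593 c20819 c20813 c701 (k1 c12617 k0))))))))) (by decide +kernel)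
def c22368 : PP 9 3 T 0x8000000000000000000000000000000000000000000000000002000000000000000000000000000 := rS 0x77dbecd3b9fcfac76778325b1f7c0fe529a5e70140001ed62205 (k8 c21870 c160 c5529 c22328 c5642 c665 c17712 c5516 (k8 c19356 c22366 c5550 c18955 c22367 c5209 c5225 c22097 (k8 c5357 c5442 c5358 c5356 c5537 c5538 c22337 c22353 k0))) (by decide +kernel)
def c22369 : PP 9 3 T 0x80000000000000000000000000000000000000000000000000000000000000000000000008000000000000000000000002000000000000000000000000800 := rS 0x110368d23c7486250134ab0014078cee7f3ee4b62dff0075e2aff7ca4f3b2ce3ce97b5138a562ad489c51eb3db4efdbdf639ee270370b5dc605 (k8 c21870 c5549 c1769 c5591 c5550 c5547 c20767 c20739 (k8 c5453 c5543 c22368 c22221 c5574 c2432 c5571 c746 (k8 c5573 c5421 c5417 c5570 c5529 c5516 c20781 c5211 (k8 c5228 c5524 c19356 c18955 c5406 c5401 c5486 c5165 (k8 c5538 c7694 c5209 c5442 c5358 c5356 c17692 c17983 (k8 c22353 c5166 c20909 c5642 c5559 c5561 c5341 c5562 (k4 c2083 c20794 c3582 c18619 k0))))))) (by decide +kernel)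
def c22370 : PP 9 3 T 0x80000000000000000000000000000000000000000040000000000000000000000000000008000000000000000000000002000000000000000000000000000 := rS 0x115a5581aa03c618c924c2fb16f8ed3be04bbc7df293c88b659cda87d227147acf6d3bf6f7cf71370b5dc61b010041605 (k8 c21870 c22369 c665 c5642 c20794 c5549 c1769 c5591 (k8 c5547 c20767 c5453 c5543 c22368 c22221 c5574 c2432 (k8 c5571 c746 c2316 c5529 c5211 c5228 c6197 c5524 (k8 c19356 c18955 c5401 c5404 c5165 c1650 c5456 c5538 (k8 c7694 c1258 c481 c5209 c5648 c17692 c17983 c437 (k4 c5166 c20909 c2937 c17812 k0)))))) (by decide +kernel)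
def c22371 : PP 9 3 T 0x80000000000000001000000000000000000000000000000000100000000000000000000008000000000000000000000002000000000000000000000000000 := rS 0x11c7978486451c0c8403512861aa3d78abd26174078cf3b20497f241f138a562b556a44e28f9df7cf71371b84361d010041623238c46f4a6fa776a9b7eacf6c05 (k8 c21870 c22221 c5574 c20782 c2562 c5529 c10444 c13097 (k8 c22370 c5518 c1473 c5520 c5331 c22369 c665 c5642 (k8 c20811 c20794 c5591 c5549 c5547 c20767 c5453 c22368 (k8 c2432 c5571 c746 c5573 c5422 c5421 c5417 c5570 (k8 c2316 c5209 c9668 c9669 c5224 c5441 c22315 c17983 (k8 c1107 c261 c5406 c5401 c12620 c20766 c5648 c1167 (k8 c437 c17998 c5653 c377 c390 c2048 c5534 c2558 (k2 c3582 c8251 k0)))))))) (by decide +kernel)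
def c22372 : PP 9 3 T 0x80001000000000001000000000000000000000000000000000000000000000000000000008000000000000000000000002000000000000000000000000000 := rS 0x1a0d9649227147fb7be7b89b8694df4eed536fd59edb3b28 (k8 c22371 c19356 c22221 c5574 c20782 c2562 c5529 c10444 (k8 c13097 c22370 c5591 c5547 c20767 c5453 c5543 c2432 (k4 c5571 c746 c5235 c5195 (k2 c15182 c19230 k0)))) (by decide +kernel)
def c22373 : PP 9 3 T 0x80002000000000000000000080000000000000000080000000200000000000000000040000000000000000000000004002000000000000000000000000000 := rS 0xd0244e28f59eda26e1 (k8 c5591 c5547 c22221 c5574 c2432 c5571 c746 c15182 (k1 c11668 k0)) (by decide +kernel)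
def c22374 : PP 9 3 T 0x81000000000000000000200000000000000000100000000000000000000000000000000000000000000000000000000002000000000500000000400000008 := rS 0x21dffef55c7440f012eccde8dda87c4e295aa3d67b69dc0e0205 (k8 c21870 c5592 c5550 c22368 c22221 c5574 c2432 c5422 (k8 c5417 c5570 c2316 c5529 c5381 c5565 c19230 c1113 (k8 c22131 c17998 c551 c1281 c19626 c11059 c745 c19658 k0))) (by decide +kernel)
def c22375 : PP 9 3 T 0x80000000000000005000000000000000000000000000000000000000000000000000000008000000000000000000000002000000000000000000000000000 := rS 0xd3f798518a843b55feab8ebc19629489c51f3bf6f7cc6c789c0e02020082c463d228fdc24b1cb5dc649188dfc759200ec8f93f04a1be9ddaa6dfab3db528f605 (k8 c21870 c20767 c22370 c22221 c5574 c20782 c2562 c5529 (k8 c10444 c13097 c22371 c22372 c22373 c5520 c5332 c19019 (k8 c5340 c5462 c5518 c1473 c5588 c5549 c1769 c5317 (k8 c5546 c5591 c5318 c10448 c5436 c5331 c22369 c665 (k8 c5642 c5592 c5550 c5547 c20739 c779 c5453 c5543 (k8 c22368 c2432 c5571 c746 c5417 c5420 c22131 c551 (k8 c1281 c11059 c18677 c745 c5682 c20819 c5835 c5505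 (k2 c18738 c5689 k0)))))))) (by decide +kernel)
def c22376 : PP 9 3 T 0x100000000000000100400050000000000000000000000000000004000002000000000500000000000000000 := rS 0x87ef463fd227147acf6d3b (k8 c22368 c22221 c5574 c2432 c5571 c746 c11059 c20819 (k2 c5505 c12616 (k1 c5658 k0))) (by decide +kernel)
def c22377 : PP 9 3 T 0x80000000000000001000000000000000000000000000000000000000000000000000000008000000000000000000000002000000000000000000000000000 := rS 0x204fed48e21ccfb2d0e4fc1593ef8c8a401f8e467286fa776ab3db7b7be7b4dbf4971381925c3016bb8c0401058ec4647188de9405 (k8 c21870 c22370 c5518 c1473 c5520 c5331 c5332 c22369 (k8 c665 c5642 c5549 c1769 c5592 c5591 c5588 c5550 (k8 c5547 c5546 c20782 c2562 c20767 c5453 c5543 c22221 (k8 c5574 c5529 c10444 c13097 c22371 c5316 c5317 c5318 (k8 c19019 c10448 c5462 c12625 c5340 c22372 c22373 c22374 (k8 c22375 c5487 c744 c22376 c5778 c20749 c20766 c5670 k0)))))) (by decide +kernel)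
def c22378 : PP 9 3 T 0x80000000000000000000000000000000000000000000000000000200000000000000000008000000000000000000000002000000000100000000000000000 := rS 0x19c942772697d9685e35914cefdac73db8e2ae101004162323d2bc3b63ca676005 (k8 c21870 c22377 c5447 c2428 c22221 c7694 c22370 c5520 (k8 c5331 c22369 c665 c5642 c5591 c5590 c5549 c20767 (k8 c20739 c5543 c22368 c5417 c5341 c551 c22374 c22131 (k4 c5404 c18631 c1650 c9176 (k2 c5669 c19356 k0))))) (by decide +kernel)
def c22379 : PP 9 3 T 0x80000000000000000000000000000000000000100000000000000000000000000000000008000000000000000000000002000000000100000000000000000 := rS 0x259e2174e2ab3adf433fd66cb5acee26e381c55c3010e808020b1191e95e1d86da3a05 (k8 c21870 c22378 c22221 c22377 c7694 c22370 c5520 c5331 (k8 c22369 c665 c5642 c20811 c5592 c5591 c5590 c5550 (k8 c5549 c5547 c22368 c5422 c5420 c5574 c11059 c22376 (k8 c2564 c5373 c745 c6118 c21968 c1281 c1650 c19357 k0)))) (by decide +kernel)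
def c22380 : PP 9 3 T 0x80000000000000000000000000000000000000000000000000000000000000000000000008000000000000000000000002000000000100000000000000000 := rS 0x6c9e22012d603eb3138a56bb69d86c04010588c8f4a54a676005 (k8 c21870 c22377 c5447 c2450 c22370 c5520 c5331 c22369 (k8 c665 c5642 c20794 c22368 c22221 c5422 c5417 c5570 (k8 c5574 c2316 c22379 c5559 c17998 c432 c22131 c17812 k0))) (by decide +kernel)
def c22381 : PP 9 3 T 0x80000000000000000000000000000000000000000000000000000000000000000000000008000000000000000000000002000000000000000000000000000 := rS 0xd9649e220129115279f0a64c3b02388e941b01004161f5989c52b5db4ed8e05 (k8 c21870 c20739 c22368 c22221 c5422 c5417 c5570 c5574 (k8 c2316 c22369 c665 c5642 c20794 c22370 c5331 c5520 (k8 c22377 c5445 c5447 c7694 c2428 c2450 c22380 c2969 (k4 c17998 c432 c13817 c22131 (k1 c18631 k0))))) (by decide +kernel)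
def c22382 : PP 9 3 T 0x8000000000000000000000000000000000000000000010000000000008000000000000000000000002000000000200040000200000008 := rS 0xc998010920bca3c6191fa8482e21c8ceb2d46bc0894ff89674189f6589c529138a3d67edf9fbf43b612abc7a31 (k8 c1473 c2971 c5406 c2968 c22221 c19230 c5582 c22381 (k8 c5543 c5574 c2432 c5571 c746 c5417 c5570 c5420 (k8 c5572 c265 c5522 c5675 c20798 c2598 c21166 c1770 (k8 c8707 c5342 c3712 c4750 c2633 c459 c3000 c2997 (k8 c377 c5466 c18213 c5433 c3579 c261 c262 c5438 (k1 c10426 k0)))))) (by decide +kernel)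
def c22383 : PP 9 3 T 0x8000000000000000000000000000000000000000000000001000000008000000000000000000000002000000000600000000400000008 := rS 0xab79bfc97140688602f51b926941b00bf566b15afb7e7ef08bdc3fb50e89d53a1db0955e05 (k8 c21870 c5406 c2968 c22221 c19230 c5489 c5570 c335 (k8 c5529 c2316 c8123 c20747 c5582 c22381 c5543 c5422 (k8 c5421 c5574 c20782 c28 c20794 c6197 c5334 c5518 (k8 c5519 c3066 c22382 c2426 c18694 c12638 c3010 c15063 (k2 c6368 c3581 k0))))) (by decide +kernel)
def c22384 : PP 9 3 T 0x8000000000000000000000000000000000000000000000001000000008000000000000000000000002000000000600000000400000000 := rS 0xf3a5bd414200000d533bf6bdc3fb50e89f6c05 (k8 c21870 c22221 c5570 c335 c5529 c2316 c8123 c5543 (k8 c22368 c5489 c22383 c5642 c666 c665 c2420 c5516 (k2 c20781 c5657 k0))) (by decide +kernel)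
def c22385 : PP 9 3 T 0x1000000008000000000000000000000002000000000600000000400000000 := rS 0xb0052807b3dacefda05 (k8 c21870 c5543 c22368 c5529 c22384 c22131 c5228 c5642 (k2 c5516 c665 k0)) (by decide +kernel)
def c22386 : PP 9 3 T 0x8000000000000000000000002000000000600000000400000000 := rS 0xfc323d5090650931885f62d46bb252c3780a61fea8a509557b3786d5fa9f658a55b3bf6b37e7ef218744fb6 (k8 c22221 c5570 c335 c123 c5582 c22381 c139 c5543 (k8 c22368 c5573 c5417 c5420 c5572 c20782 c5529 c22385 (k8 c5401 c1281 c1218 c5228 c5682 c22247 c13265 c13274 (k8 c5518 c2451 c2065 c1770 c8707 c5447 c1463 c1473 (k8 c1638 c20692 c459 c3001 c2971 c5315 c5318 c3579 k0))))) (by decide +kernel)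
def c22387 : PP 9 3 T 0x4000000000008000000000000000000000002000000000600000000000000000 := rS 0x19f18d142d3713d1a8d7813dd3e2714ed99a25578f48358f9fbe02f37885d3a97d96d5263bf04a7394b9dfb7be22 (k8 c22386 c5453 c5543 c22368 c5331 c9733 c19356 c5165 (k8 c5456 c481 c5529 c5228 c5404 c1650 c1258 c5401 (k8 c447 c3067 c5582 c22381 c5171 c5340 c5560 c5406 (k8 c1263 c139 c22221 c5417 c5570 c5572 c504 c5694 (k8 c1770 c8707 c5657 c2633 c2087 c3000 c2340 c5466 (k2 c437 c14487 k0)))))) (by decide +kernel)
def c22388 : PP 9 3 T 0x8000000000000000000000002000000000600000000000000000 := rS 0x3247d71a04fe3e6a0c86af67ac4e06fe18b7dc23b79f8342f194ecb394b116d5227147acf6d3bf6f7cf657 (k8 c21872 c20767 c5453 c5543 c22368 c22221 c5574 c2432 (k8 c5571 c746 c5529 c22386 c5331 c9733 c5228 c19356 (k8 c5401 c19230 c5165 c447 c5456 c5460 c5538 c1474 (k8 c22387 c211 c20798 c2341 c5657 c501 c5653 c390 (k4 c389 c20749 c20766 c1663 (k2 c2824 c13945 (k1 c17932 k0))))))) (by decide +kernel)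
def c22389 : PP 9 3 T 0x8000000000000000000000002000000000200000000000000000 := rS 0x52eb246f7cefdbf3 (k8 c22381 c5543 c22368 c5582 c22388 c5562 c5520 c5171 k0) (by decide +kernel)
def c22390 : PP 9 3 T 0x40000000000000000000000000000008000000000000000000000002000000000800000000000000000 := rS 0x325e33fb8d027d690f08209190d5ec4218c01e68d8e88bdc2109842b3130fa44e28f599efe68778e8765b61db85bfe094e736b3bf6f7cae05 (k8 c21870 c21872 c5453 c5543 c22368 c5529 c5211 c19356 (k8 c5165 c5538 c5460 c5456 c22221 c5228 c19230 c5401 (k8 c5373 c22381 c20767 c5574 c2432 c5571 c746 c2316 (k8 c12623 c5562 c13598 c2810 c2422 c5171 c5650 c5504 (k8 c5505 c447 c20818 c1474 c2790 c2791 c501 c5653 (k8 c20738 c544 c2048 c2047 c8164 c700 c2348 c2765 (k2 c5579 c5670 (k1 c17932 k0)))))))) (by decide +kernel)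
def c22391 : PP 9 3 T 0x8000000000000000000000000000000000000000040000000000000000000000000000008000000000000000000000002000000000000000000000000000 := rS 0x244224096b2220d80a3a1f138a562adf99141b9c57bc43a67d0eca77eddaed88e05 (k8 c21870 c22390 c22221 c5529 c5543 c22368 c5228 c19230 (k8 c5487 c5486 c5401 c5406 c5211 c5522 c22389 c22381 (k8 c5573 c5421 c5417 c5570 c2316 c5504 c22356 c20794 (k4 c6197 c17812 c1263 c13731 (k2 c3582 c17689 (k1 c20787 k0)))))) (by decide +kernel)
def c22392 : PP 9 3 T 0x40000000000000000000000000000008000000000000000000000002000000000000000000000000000 := rS 0x7902800f70186ab1ef33bc765b57e87f6d3bf6fcc8a05 (k8 c21870 c22389 c22381 c5543 c22368 c22221 c2316 c20782 (k8 c5529 c5228 c5401 c5487 c22391 c5171 c17812 c20794 (k4 c2104 c5642 c665 c17966 (k1 c20781 k0)))) (by decide +kernel)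
def c22393 : PP 9 3 T 0x200000000000000000000000001000000008000000000000000000000002000000000000000000000000000 := rS 0x365b69d91436020082e9405 (k8 c21870 c22392 c5516 c665 c5642 c20794 c22389 c22368 (k2 c22221 c22131 (k1 c17812 k0))) (by decide +kernel)
def c22394 : PP 9 3 T 0x4000000000000000000000000000000000000200000000000000000000000000000000008000000000000000000000002000000000000000000000000000 := rS 0x1432849b5362c94b40530ff542af66f0dabf452addb4efdacdf988c3a020082e9405 (k8 c21870 c22392 c5516 c665 c5642 c20811 c5331 c22381 (k8 c139 c5543 c22368 c22221 c5573 c5417 c20782 c5529 (k8 c22393 c5401 c1281 c5682 c22247 c13265 c13274 c2451 (k4 c2065 c5447 c8707 c1638 (k2 c20692 c3001 (k1 c19210 k0)))))) (by decide +kernel)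
def c22395 : PP 9 3 T 0x4000000000000000000000000000000000000000000000000000000000000002000000008000000000000000000000002000000000000000000000000000 := rS 0x80c0dfeab8eecf6afd14ab76d3bf6fcc8a237a91e9559 (k8 c22394 c22392 c5520 c5519 c5331 c22389 c22381 c5543 (k8 c22368 c22221 c5573 c5417 c20782 c5529 c5401 c551 (k4 c1281 c11059 c16948 c13274 (k1 c5694 k0)))) (by decide +kernel)
def c22396 : PP 9 3 T 0x4000000000000000000000000000000000000000000000000000000000014000000000008000000000000000000000002000000000000000000000000000 := rS 0xcec4c181310471e70255bf43eb1489c51eb3f6fcc8a237bbd4361dacaa743b278808020ba54ef6c05 (k8 c21870 c22221 c22368 c22392 c5516 c665 c5642 c22395 (k8 c22131 c19230 c5489 c22394 c20811 c20794 c5519 c5333 (k8 c5331 c22389 c22381 c5543 c5574 c2432 c5571 c746 (k8 c5421 c2316 c20782 c6368 c5694 c2628 c16948 c3581 (k4 c20813 c265 c12633 c5522 (k1 c5675 k0)))))) (by decide +kernel)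
def c22397 : PP 9 3 T 0x4000000000000000000000000000000000000000000000000000000000010000000000008000000000000000000000002000000000000000000000000000 := rS 0x326e3f14a7391589bf9c29138a3d67df3dfceb2afd0ed93a97d93c4040105d2a7605 (k8 c21870 c22368 c22392 c5516 c665 c5642 c22395 c22131 (k8 c5404 c1650 c22221 c19230 c5406 c22394 c22381 c20767 (k8 c5453 c5574 c2432 c5571 c746 c1653 c22396 c20798 (k4 c3010 c5675 c19356 c5166 (k2 c5466 c22315 (k1 c9176 k0)))))) (by decide +kernel)
def c22398 : PP 9 3 T 0x4000000000000000000000000000000000000000000000000000000000000000000000008000000000000000000000002000000000000000000000000000 := rS 0x327b1038d0723369f8a520dce44c26428ec0343b278d652271db4efbec73d91476f71b808020ba515c1e05 (k8 c21870 c21871 c21872 c22392 c5516 c665 c5642 c5518 (k8 c5333 c5332 c22389 c20767 c20739 c5453 c22368 c22221 (k8 c5571 c746 c22394 c22395 c22131 c19230 c22397 c2139 (k8 c5658 c20787 c12633 c19568 c5522 c19356 c5166 c5579 (k4 c2047 c2559 c20518 c20806 (k2 c22166 c18025 (k1 c5209 k0))))))) (by decide +kernel)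
def c22399 : PP 9 3 T 0x100040000000000000100000000000100000000000000000000008000000000000000000000002000000000000000000000000000 := rS 0x3c155b34cb27c5b0dabf76d3b11808020ba5357dc05 (k8 c21870 c22398 c5585 c22392 c5516 c665 c5642 c5331 (k8 c22368 c22221 c20782 c5529 c5209 c5216 c5396 c5447 (k4 c6616 c13265 c22131 c1281 k0))) (by decide +kernel)
def c22400 : PP 9 3 T 0x20002000000000000000000000000000000002000000000000000000400000000 := rS 0x157b3dabf55bb6 (k4 c22221 c5573 c20782 c5529 (k2 c5401 c1281 (k1 c13274 k0))) (by decide +kernel)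
def c22401 : PP 9 3 T 0x100000000000000000100000000000000000400020000000000008000000000000000000000002000000000000000000000000000 := rS 0x8171904303fd884126173f9f4125fc9086527906e703e2956a44e28f59edbdac73dfcc92372386c3a8d81abdc2d56fbffddb27888c040105d2a7605 (k8 c21870 c22368 c22392 c5516 c665 c5642 c5331 c22400 (k8 c22131 c22398 c5586 c2564 c5585 c1652 c5584 c5508 (k8 c5505 c20811 c20794 c5520 c5518 c5334 c22381 c20767 (k8 c20739 c5543 c22221 c5574 c2432 c5571 c746 c5573 (k8 c5417 c2316 c19568 c5522 c5524 c19356 c265 c22399 (k8 c5439 c5438 c5442 c5358 c1107 c261 c18684 c18631 (k4 c2907 c5648 c543 c15188 (k2 c700 c3610 k0)))))))) (by decide +kernel)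
def c22402 : PP 9 3 T 0x80000000000000000000000100000000000000100800000001000000000000000040000000000000000000000000100000000000000408 := rS 0x8625090444e2958ab4361d (k8 c20811 c20794 c5573 c5421 c5417 c5570 c703 c12633 (k2 c1114 c20787 (k1 c3582 k0))) (by decide +kernel)
def c22403 : PP 9 3 T 0x100000000000000000000020000000000008000000000000000000000002000000000000000000000000000 := rS 0xd0c4f64f1db4ec8a2301004174a8eabfdc05 (k8 c21870 c22398 c5584 c5504 c22392 c5516 c665 c5642 (k8 c5331 c22389 c22368 c22221 c22400 c22131 c22402 c19230 (k1 c22401 k0))) (by decide +kernel)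
def c22404 : PP 9 3 T 0x100000000000000000000000001000000008000000000000000000000002000000000000000000000000000 := rS 0x218cf13d9244e28f59eda764501004174a8ea3606af7ffba0205 (k8 c21870 c22403 c22398 c5586 c5584 c5508 c5505 c5504 (k8 c22392 c5516 c665 c5642 c22389 c22368 c22221 c5574 (k8 c2432 c5571 c746 c22131 c22402 c5487 c20819 c744 k0))) (by decide +kernel)
def c22405 : PP 9 3 T 0x100000000000000000000000000000000008000000000000000000000002000000000000000000000000000 := rS 0x2fe4d00082010e50933084823b164a5a25a14c2a10e2555ecde101dabf53ecb138a55a9138a3d67b69dfb7becd31b1c8a237a874040105d2a3a8d57bffdc05 (k8 c21870 c22398 c5586 c5584 c5505 c5504 c22392 c5516 (k8 c665 c5642 c20811 c5519 c5331 c22389 c20739 c779 (k8 c139 c5453 c5543 c22368 c22221 c5574 c2432 c5571 (k8 c746 c5573 c5417 c5570 c5420 c5572 c20782 c5529 (k8 c22403 c22404 c5401 c1281 c1217 c745 c5682 c13265 (k8 c20935 c20818 c2451 c2065 c5447 c703 c12633 c20768 (k8 c1638 c5224 c20787 c18736 c12636 c298 c5438 c1746 (k1 c5663 k0)))))))) (by decide +kernel)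
def c22406 : PP 9 3 T 0x8000000000000000000000002000000000000000000000000000 := rS 0x25293d8b252c98542af66f02090c4b58f707404010588e94cdeffb76afd4fb2c4e2956eda7605 (k8 c21870 c22368 c22221 c5573 c5417 c5570 c5420 c5572 (k8 c20782 c5529 c5543 c5453 c139 c22392 c5331 c5516 (k8 c665 c5642 c20811 c22398 c22405 c5559 c5561 c5340 (k8 c22393 c5401 c1281 c5682 c13265 c2451 c2065 c5447 (k2 c1638 c18736 (k1 c5224 k0)))))) (by decide +kernel)
def c22407 : PP 9 3 T 0x8000000000000000000000000000000000000200000000000000000000000002000000000000000000000000000000002000000000000000000400000000 := rS 0xd102a224f2f69151a9138a3d67b6d9bddfa432591e02497ad2805b50fa1d5605 (k8 c21870 c1281 c745 c2316 c5529 c19427 c6197 c5519 (k8 c5334 c22400 c5562 c5342 c5561 c20782 c500 c5401 (k8 c22221 c5574 c2432 c5571 c746 c5505 c5582 c14774 (k4 c17988 c20818 c5682 c2446 (k2 c2598 c265 k0))))) (by decide +kernel)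
def c22408 : PP 9 3 T 0x1000000000000000000000000000000000100000000000002000000000000000000000000000000002000000000000000000400000000 := rS 0xc27126173cb1cee092fe4bbd3bd986c3a02 (k8 c19427 c118 c117 c5401 c22368 c5224 c5209 c9668 (k8 c9669 c5493 c5357 c5441 c1107 c261 c21897 c5648 (k1 c1273 k0))) (by decide +kernel)
def c22409 : PP 9 3 T 0x800000000000000000000000000000000000000000000100000000000006000000000000000000000000000000002000000000000000000400000000 := rS 0x258c300bb34ee971aced9e37a500b6a1f43864f66168a5766ab3ca676005 (k8 c21870 c22408 c5447 c2428 c1281 c5401 c5446 c21980 (k8 c5445 c742 c5393 c745 c2316 c5529 c19427 c6197 (k8 c5518 c22406 c22368 c5450 c5452 c5493 c5495 c1213 (k4 c21973 c20853 c20764 c21979 k0)))) (by decide +kernel)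
def c22410 : PP 9 3 T 0x45000400000000082000000000000000000000200080000000100000000000000000040000000000000000000000000000000000000000000000100400000 := rS 0x1e1f1a71962749a84329b (k8 c5397 c5393 c5398 c5444 c5570 c5420 c16340 c17859 (k2 c5458 c5204 k0)) (by decide +kernel)
def c22411 : PP 9 3 T 0x1000000000000000000000000000000000000200000000000100000800000002000000000000000000000000000000002000000000000000000400000000 := rS 0x433738300b77cf2d13d8cdbe994a98432a1d833f66ab7afcde70280fbe282159834964724d2805b51384742010fad76c05 (k8 c21870 c22221 c5422 c2316 c9696 c5382 c5558 c5570 (k8 c5529 c19427 c6197 c5334 c5562 c5342 c2598 c5574 (k8 c265 c18694 c22407 c22400 c21166 c2627 c5547 c5519 (k8 c1281 c5401 c22406 c22408 c5398 c5393 c5445 c5446 (k8 c5447 c2950 c385 c742 c21980 c2428 c22409 c22410 (k4 c1214 c22006 c1916 c21990 (k1 c1507 k0))))))) (by decide +kernel)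
def c22412 : PP 9 3 T 0x1001000000000000000000000000000000000200000000000200000800000002000000000000000004000000000000002000000000000000000000000000 := rS 0xa04e37d26773cb1c1392da8a59fb30121f3bb1db094823d (k8 c5560 c5340 c5559 c22221 c17815 c19356 c745 c19427 (k8 c5401 c22406 c5417 c5529 c5235 c5438 c5357 c5441 (k4 c5356 c261 c2512 c22242 (k2 c19210 c1278 k0)))) (by decide +kernel)
def c22413 : PP 9 3 T 0x1000000000000000000000000000000000000200000000000000000800000002000000000000000000000000000000002000000000000000000400000400 := rS 0x3bb55007d69b8b267ff1b7d9ae13db1fc1b1038e6500d816853ecb138a76ccf318044a3d2092c8eab808ec9237a500b6a1ff7814ae0f (k8 c21871 c21872 c21870 c22407 c2316 c5529 c19427 c6197 (k8 c5518 c5334 c5332 c22400 c1281 c5562 c5342 c5340 (k8 c5560 c5559 c9696 c19421 c22406 c22221 c5417 c5570 (k8 c5420 c5572 c5382 c21166 c2598 c22411 c5317 c5432 (k8 c17815 c22412 c5535 c5457 c5460 c5537 c5538 c21911 (k8 c809 c18025 c17934 c2087 c18801 c5670 c1662 c10702 (k1 c20855 k0))))))) (by decide +kernel)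
def c22414 : PP 9 3 T 0x45000000000000000000000000000000000000200080000000200000400014000000000000000000000000000000000002000000000000000000000000000 := rS 0x781a19379e8205b5489c51eb36792f3bb1db094823d (k8 c5560 c5340 c5559 c22221 c17815 c19356 c5342 c22406 (k8 c5574 c2432 c5571 c746 c5529 c5694 c5675 c2627 (k4 c12891 c14772 c5235 c5459 k0))) (by decide +kernel)
def c22415 : PP 9 3 T 0x5000000000000000000000000000000000000200000000000200000400014000000000000000000000000000000000002000000000000000000400000008 := rS 0x4a4b242070c55c7f2d885c32b3138a56bb6128f48247a56d43e05 (k8 c21870 c2316 c5529 c6197 c5562 c5340 c5560 c5559 (k8 c22221 c5422 c5417 c5570 c5574 c5315 c5433 c17815 (k8 c22414 c5549 c5590 c5591 c17998 c22079 c18061 c5438 (k1 c261 k0)))) (by decide +kernel)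
def c22416 : PP 9 3 T 0x1000000000000000000000080000000000000200000000000100000000000002000000000000000000000000000000002000000000000000000400000000 := rS 0x11b03697c869dff18f999e10b9dd8e5f138a51eb3db33c04251ec050efff7a4c327b30b452bb3559e533b0 (k8 c22408 c5447 c2428 c1281 c5401 c5446 c21980 c5445 (k8 c742 c5393 c5444 c22407 c22247 c745 c22400 c5560 (k8 c5559 c19427 c22406 c22221 c5574 c2432 c5417 c5570 (k8 c5439 c5357 c5356 c1107 c20854 c20770 c17858 c10342 (k4 c5495 c21993 c5204 c442 (k2 c5550 c2083 (k1 c19658 k0))))))) (by decide +kernel)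
def c22417 : PP 9 3 T 0x81000000000000000000000000000000000000200000000000000000400000002000000000000000000000000000000002000000000000000000400000000 := rS 0x778ec353f0f9a7e31885d0208cee858c0c4678441030fa7d962714ad51eb3db4ed9e01128448e8749984fa3d19865a2953ca67619394fbdfeabd9c040405 (k8 c21870 c19427 c22400 c5401 c1281 c22247 c22407 c22415 (k8 c22416 c22408 c5447 c2428 c5446 c21980 c5393 c385 (k8 c5560 c21924 c5445 c5444 c745 c5562 c5558 c5559 (k8 c9696 c22406 c22368 c22221 c5574 c2432 c5422 c5417 (k8 c5570 c5420 c5572 c2316 c5550 c17998 c7694 c19658 (k8 c265 c13817 c5381 c5522 c2481 c940 c22006 c20764 (k8 c17997 c2084 c17858 c5670 c442 c807 c5653 c5493 k0))))))) (by decide +kernel)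
def c22418 : PP 9 3 T 0x1000000000000000000000000000000000000200000000000000000000000002000000000000000000000000000000002000000000000000000400000400 := rS 0xcc048c33816d0b7c251406f7c42f3817ccf2d13d8cd32953086543b094c4c4e295aa44e28f59ed99e011292c8f0124bd69402da87dfeabd9fbc1e05 (k8 c21870 c21871 c22407 c5401 c1281 c22247 c2316 c5529 (k8 c19427 c6197 c5519 c5334 c22400 c5562 c5342 c5559 (k8 c9696 c22406 c22221 c5574 c2432 c5571 c746 c5422 (k8 c5417 c5570 c22413 c22415 c22408 c5398 c5393 c5445 (k8 c5446 c5447 c385 c742 c21980 c2428 c22417 c5694 (k8 c2627 c431 c22409 c2426 c3584 c17964 c2950 c5564 (k4 c22410 c5675 c1214 c1507 (k2 c21990 c1916 k0)))))))) (by decide +kernel)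
def c22419 : PP 9 3 T 0x2000020000000000000000000000000000000000000000012000000010000000000000000000000002000000000000000000000800000 := rS 0x6682460cf0080866193d984f299 (k8 c5447 c2428 c5445 c742 c5393 c385 c19427 c9696 (k4 c22406 c1214 c1507 c1916 (k1 c21990 k0))) (by decide +kernel)
def c22420 : PP 9 3 T 0x40000000000000082000000000000000000000200080000000100000000000000000040000000000000000000000000000000000000000000000100400000 := rS 0x71f85c29cf18f99627148947a4949a84329b (k8 c5397 c5393 c5398 c5444 c5334 c5560 c5559 c5417 (k8 c5570 c5420 c17858 c10342 c16340 c3056 c5458 c1777 (k1 c5691 k0))) (by decide +kernel)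
def c22421 : PP 9 3 T 0x200000000000100000000000002000000010000000000000000000000002000000000000000000500000000 := rS 0x6702cdf50ec19ef5f9c5166b524d2805b52587c8e251489f6c05 (k8 c21870 c22221 c5570 c5417 c5559 c5562 c2316 c5342 (k8 c5529 c19427 c6197 c5334 c5422 c5574 c3584 c17998 (k8 c5519 c22406 c22408 c5398 c2950 c22420 c22006 c22419 k0))) (by decide +kernel)
def c22422 : PP 9 3 T 0x100000000000000000200080000000200002000000002000000000000000000010000000000002000000000000000000000000000 := rS 0xe240e4cfe794e820be9b496d5669f14808c601258ef63b6129047a05 (k8 c21870 c5560 c5340 c5559 c22221 c17815 c5332 c5342 (k8 c9696 c19421 c19427 c5417 c5572 c5574 c5529 c19210 (k8 c1191 c1517 c261 c1694 c2429 c19577 c5438 c1744 (k2 c15026 c17330 k0)))) (by decide +kernel)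
def c22423 : PP 9 3 T 0x100000000000000000200080000000200000800000000000000000000000000001000000001002000000000000000000000001400 := rS 0x813f8218ee2f026f267bdaacd3e4b1d8dc7207ceec76c25208f41e57 (k8 c21872 c21871 c5560 c5340 c5559 c22221 c17815 c19356 (k8 c5432 c5317 c5518 c5332 c5342 c5572 c5574 c5529 (k8 c743 c17959 c8100 c5235 c15026 c5535 c18042 c809 (k2 c1744 c17330 k0)))) (by decide +kernel)
def c22424 : PP 9 3 T 0x200000000000000000000000002000000000000000000000000000000002000000000000000000400000400 := rS 0xc6c937bc29c3c9f54112d0ec73b288a7cc1a2179b47d849a56d43e2714ad5227147acf6c02318044a3d2092c8e05 (k8 c21870 c5562 c5342 c5340 c5560 c5559 c9696 c19421 (k8 c19427 c22221 c5574 c2432 c5571 c746 c5422 c5417 (k8 c5570 c2316 c5529 c6197 c5334 c22418 c5501 c5540 (k8 c431 c2426 c17998 c3584 c22421 c19356 c17815 c16661 (k8 c5675 c22422 c2826 c2603 c22423 c5458 c1278 c5235 (k2 c2512 c5357 k0)))))) (by decide +kernel)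
def c22425 : PP 9 3 T 0x400014000000080400000000000000000004080002000000000000000000000000000 := rS 0x236069138a3d67b6 (k8 c22221 c5574 c2432 c5571 c746 c2517 c808 c20819 k0) (by decide +kernel)
def c22426 : PP 9 3 T 0x1000000000000000100040000000000000200040000000100100000014000000080010000000000000000004014002000000000000104000000000000 := rS 0x1187781f786ad63f44d0231038e86fe3489c51eb3db4ec8247 (k8 c5562 c5340 c22368 c22221 c5574 c2432 c5571 c746 (k8 c5580 c2331 c5654 c1674 c1678 c12653 c2513 c5670 (k4 c22425 c1763 c5653 c14614 (k2 c5493 c20819 (k1 c807 k0))))) (by decide +kernel)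
def c22427 : PP 9 3 T 0x82000000000000000000000200040000000100000000000000000040000000000000002000000000000000000000000100000000400000 := rS 0x1d0f85219 (k4 c5393 c5417 c17858 c13264 (k1 c495 k0)) (by decide +kernel)
def c22428 : PP 9 3 T 0x2000000000000000000000000000000002000000000000000000800800000 := rS 0x91b004047b3cb47d93bd98cc33b0a5b3f39b5 (k8 c5529 c9733 c22406 c5331 c22097 c5393 c385 c5401 (k8 c22368 c5228 c5501 c5524 c5372 c19427 c9696 c1259 (k2 c1507 c22158 k0))) (by decide +kernel)
def c22429 : PP 9 3 T 0x100040000000000000200040000000100100000014000000080010000000000000000004014002000000000000104000000000000 := rS 0x1e1 (k2 c5538 c22426 k0) (by decide +kernel)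
def c22430 : PP 9 3 T 0x200000000000000000000000002000000000000000000000000000000002000000000000000000800000200 := rS 0x2068d6935c6913efb358fe01db7f427e090dc63934fb2d227147acc031d209ed0e7994b4602fff64ef6693509f4043d1c8cc7c170cec296cfce6d453b6 (k8 c22221 c5417 c5529 c9733 c22406 c5331 c22097 c5393 (k8 c22428 c17858 c385 c395 c5560 c19427 c21924 c5398 (k8 c5444 c5401 c22368 c5228 c5544 c5502 c5501 c19356 (k8 c5524 c5373 c5372 c5340 c551 c9696 c5574 c2432 (k8 c5571 c746 c5420 c5572 c5438 c20764 c1510 c17953 (k8 c276 c5564 c22429 c495 c5654 c5535 c5537 c22337 (k4 c809 c5653 c1763 c442 (k2 c808 c2087 (k1 c20819 k0))))))))) (by decide +kernel)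
def c22431 : PP 9 3 T 0x200000000000000000000000002000000000000000000000000000000002000000000000000000800000000 := rS 0x461de2703c9379c6d26b81c7434f08dd98c704b87c63e0b8cc721949bfe02d1949e50e7bd87b3394bda89c529138a3d67b69db3f6602128f48257 (k8 c21872 c5340 c5560 c5559 c19427 c5401 c22406 c22368 (k8 c22221 c5574 c2432 c5571 c746 c5417 c5570 c5529 (k8 c5331 c9733 c5228 c22097 c5372 c5373 c5524 c19356 (k8 c5501 c5502 c5544 c5444 c5393 c395 c385 c22428 (k8 c17858 c10342 c3057 c22430 c21979 c21990 c22158 c5537 (k8 c21993 c5654 c20806 c1763 c442 c8999 c495 c5643 (k4 c2517 c8617 c5356 c20819 (k1 c2083 k0)))))))) (by decide +kernel)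
def c22432 : PP 9 3 T 0x200000000000000000000000002000000000000000000000000000000002000000000000000000000000000 := rS 0x2a9423da87c0405 (k8 c21870 c19427 c2316 c5529 c22431 c6197 c22424 c5516 k0) (by decide +kernel)
def c22433 : PP 9 3 T 0x400000000000000000000000000000000100000000000100000000010000000080000040000000000000004000002000000000000000000000000000 := rS 0x11bee89f8d227147acf6d3b (k8 c22368 c22221 c5574 c2432 c5571 c746 c5580 c2512 (k2 c5166 c5505 (k1 c20818 k0))) (by decide +kernel)
def c22434 : PP 9 3 T 0x400000000000000000000000000000000000000000000100000400000002000000000000000000000000100000002000000000000020000400400000 := rS 0xf44a3f21f8a05ef4f89d227147acf6d3bacc05eb4a016d43e877faaf6693508676005 (k8 c21870 c22408 c5393 c5398 c5444 c5401 c1281 c22247 (k8 c745 c2316 c5529 c19427 c6197 c5519 c22400 c22432 (k8 c22368 c22221 c5574 c2432 c5571 c746 c5570 c5572 (k8 c20818 c20819 c5166 c1935 c5576 c1218 c1624 c19695 k0)))) (by decide +kernel)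
def c22435 : PP 9 3 T 0x400000000000000000000000000000000000000000000100000000000002000000000000000000000004200000002000000000000020000001400000 := rS 0x7a25f110fde2714eda7759 (k8 c22432 c22368 c22221 c5417 c5570 c5505 c12616 c5166 (k2 c1218 c1624 (k1 c10342 k0))) (by decide +kernel)
def c22436 : PP 9 3 T 0x80000000000000000000000000100000000000002000000000000000000000000000000002000000000000000000400000100 := rS 0x7940bdce125f8c7c431e8942411f9c491adf038d3becc0be84ee7f3e97ce29f6589c53b69db3cc601acc04920b7ad2b6a1f43a4d427b30b452bb3559e532c7010676005 (k8 c21870 c22408 c5393 c19427 c21979 c5447 c2428 c1281 (k8 c5401 c5446 c21980 c5445 c742 c5398 c5444 c745 (k8 c2316 c5529 c6197 c5519 c5516 c5334 c22400 c22432 (k8 c9696 c19421 c22406 c22368 c22221 c5417 c5570 c5420 (k8 c5572 c5571 c5439 c5442 c5358 c5356 c12830 c1107 (k8 c20770 c5495 c21993 c20806 c22433 c22435 c22434 c5547 (k8 c703 c12633 c1114 c12640 c20787 c16127 c17994 c3731 (k4 c3056 c5166 c8709 c19710 (k1 c2627 k0))))))))) (by decide +kernel)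
def c22437 : PP 9 3 T 0x100000000000002000000000000000000000000000000002000000000000000000400000100 := rS 0xcd3b8d40d9363b3c048719864f66168a5766ab3ca676057 (k8 c21872 c22408 c5447 c2428 c1281 c5401 c5446 c21980 (k8 c5445 c742 c5393 c385 c745 c19427 c22406 c21979 (k4 c22436 c5643 c20806 c673 (k2 c21993 c20770 k0)))) (by decide +kernel)
def c22438 : PP 9 3 T 0x80000000000000000000000100000000000100000800000000000000000000000000000004000000000000000000000000000001000601 := rS 0x78823a14fb2c4f93 (k8 c5438 c5570 c5420 c5572 c5382 c703 c5216 c17997 k0) (by decide +kernel)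
def c22439 : PP 9 3 T 0x9800000000000000010040000000000000000000000000100000400004000000400011000000000000000000000002000000000000000000000400008 := rS 0x687e6df6b905227147acf6cd5 (k8 c5454 c22221 c5574 c2432 c5571 c746 c5462 c5465 (k4 c5580 c20074 c22281 c5675 k0)) (by decide +kernel)
def c22440 : PP 9 3 T 0x100000000000002000000001000000000000000000000002000000000000010000400000000 := rS 0x4420683c6e3ce83040c6f0bc8efde489c676cf8e8a602f543bfc667b30b452bb3559e533931885e26080ca4f600ba500b6a1fac8076c05 (k8 c21870 c22221 c9696 c22432 c2316 c5529 c19427 c6197 (k8 c5516 c22408 c5444 c5393 c22437 c22438 c1507 c20764 (k8 c5438 c5447 c2428 c1281 c5401 c5446 c21980 c5445 (k8 c742 c385 c22247 c745 c5519 c22400 c5417 c551 (k8 c22406 c22368 c5571 c746 c5653 c5493 c22409 c20854 (k8 c20770 c21989 c265 c5522 c4738 c22439 c5216 c20146 (k2 c20935 c458 k0))))))) (by decide +kernel)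
def c22441 : PP 9 3 T 0x100000000000002000000000000000000000000000000002000000000000020000400000000 := rS 0x8def85e26080ca4f600ba500b6a1fac8076c05 (k8 c21870 c22221 c9696 c22432 c2316 c5529 c19427 c6197 (k8 c5516 c22408 c5444 c5393 c22437 c22438 c1507 c5450 (k2 c22435 c22434 k0))) (by decide +kernel)
def c22442 : PP 9 3 T 0x100000000000002000000000000000000000000000000002000000000000000000400000000 := rS 0x668d433b0 (k4 c22408 c5393 c22441 c21993 (k1 c22440 k0)) (by decide +kernel)
def c22443 : PP 9 3 T 0x2000200000000000000000000000000000000000000000002000000000000000000000000000000002000000000000000000400000000 := rS 0x1022244e33b8e8a76d5980bd69402da87d0eff55ece5005 (k8 c21870 c22442 c5401 c1281 c22247 c745 c2316 c5529 (k8 c19427 c6197 c5519 c22400 c22432 c22221 c5417 c551 (k4 c22368 c5571 c746 c20935 (k2 c19633 c20747 k0)))) (by decide +kernel)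
def c22444 : PP 9 3 T 0x2000000000000000000000000000000000000000000000002000000001000000000000000000000002000000000000010000400000000 := rS 0xf723086800904625a1f9f8326766383040f2f69e5a27b3ea652a61489c51eb39db3f66017bbf63a29db564760b1bbd69402da87d0eab198e4623dceca12605 (k8 c21870 c429 c22442 c19356 c5436 c5434 c5317 c5316 (k8 c1281 c745 c2316 c5529 c19427 c6197 c5519 c5518 (k8 c5516 c5332 c22432 c22221 c5417 c551 c20782 c500 (k8 c9696 c5401 c22406 c22368 c5574 c2432 c5571 c746 (k8 c5445 c5446 c5447 c21924 c742 c21980 c2428 c18037 (k8 c3587 c21989 c265 c2480 c20853 c5356 c10798 c7694 (k8 c22443 c5675 c703 c12633 c18893 c20787 c938 c19202 (k1 c5505 k0)))))))) (by decide +kernel)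
def c22445 : PP 9 3 T 0x2000000000000000000000000000000000000000000000000000000000000000000004000000000000000004001400000000000000000000000000000 := rS 0xd1 (k2 c5459 c20854 k0) (by decide +kernel)
def c22446 : PP 9 3 T 0x4000000000000000000000000000000000000000000000000000000800000002000000001000000000000000000000002000000000000010000400000000 := rS 0x1a27b71385be9b63e4bc2773cb54faa020911a73b67c74c60180a1d5633ceb2763f3219fc25591ff8c4a1105d2b6a1f0105c7acb4986650274f8a76c05 (k8 c21870 c22221 c5417 c5572 c5570 c22442 c5315 c429 (k8 c5420 c5436 c5433 c19427 c2316 c5529 c6197 c5516 (k8 c703 c1114 c17994 c5318 c22432 c12633 c2917 c20787 (k8 c5547 c22444 c1177 c19356 c5316 c1281 c745 c22400 (k8 c9696 c19421 c551 c22406 c22368 c15747 c5658 c458 (k8 c3579 c2826 c3001 c2603 c10702 c22445 c5235 c5357 (k4 c2492 c2512 c3061 c5691 (k2 c957 c1780 (k1 c20770 k0))))))))) (by decide +kernel)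
def c22447 : PP 9 3 T 0x800000002000000001000000000000000000000002000000000000010000400000000 := rS 0x2f987268004101aa45f710c4a1208e853ecb138a55bb6d998c035905d2805b50f8f592199424f6205 (k8 c21870 c22444 c429 c22442 c5315 c1177 c5436 c2316 (k8 c5529 c19427 c6197 c5516 c22432 c9696 c19421 c5401 (k8 c22221 c5573 c5417 c5570 c5420 c5572 c5382 c703 (k8 c12633 c1114 c20787 c22446 c5582 c5585 c10044 c12636 (k4 c298 c5438 c1573 c1746 (k1 c5663 k0)))))) (by decide +kernel)
def c22448 : PP 9 3 T 0x8000000000000000000000000000000000000000000000000000000400010000000000000000000000000000004000002000000000000000000000000000 := rS 0x11a9138a3d67b6 (k4 c22221 c5574 c2432 c5571 (k2 c746 c5505 (k1 c20818 k0))) (by decide +kernel)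
def c22449 : PP 9 3 T 0x2000000000000000000000000000000000000000000000000000000000002000000000000000000000000000000002002000000000000000400000000 := rS 0x1dcf26b9db3c361d43aac3328 (k8 c22442 c5315 c1281 c745 c118 c117 c22406 c22368 (k4 c64 c1578 c10409 c22445 k0)) (by decide +kernel)
def c22450 : PP 9 3 T 0x1000000040000000000000000000000000200000400000000000000000000000000000000000000002001000000010000000000000008 := rS 0x3406ef9ed53ecb138a5227147acf6d9d (k8 c19356 c22221 c5574 c2432 c5571 c746 c5417 c5570 (k4 c5420 c5572 c5529 c22079 (k2 c18420 c5675 (k1 c5565 k0)))) (by decide +kernel)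
def c22451 : PP 9 3 T 0x40000000000000000000000000000000000000002000000001000000000000000000000002000000000000010000400000000 := rS 0x10322900c2f268f819ef77ec7453b6acc0476377a91e9402da87d0eab198e4639d946c62605 (k8 c21870 c22447 c22444 c22442 c19356 c5434 c5317 c5316 (k8 c1281 c745 c2316 c5529 c19427 c6197 c5520 c5519 (k8 c5518 c5332 c22400 c22432 c22221 c5417 c551 c20782 (k8 c500 c22406 c5235 c5459 c3587 c22449 c22450 c458 (k2 c2628 c22376 k0))))) (by decide +kernel)
def c22452 : PP 9 3 T 0x400000002000000000000000000000000000000002000000000100000000400000000 := rS 0x81cee3a29db56602f523d2805b50fa1d5605 (k8 c21870 c1281 c745 c2316 c5529 c19427 c6197 c5520 (k8 c5519 c22400 c22432 c22221 c5417 c551 c22368 c16948 (k1 c22376 k0))) (by decide +kernel)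
def c22453 : PP 9 3 T 0x1000000000000000000000000080000000200000400054000000000000000000000020400004001002000000000210000000000000000 := rS 0x2722ae3f9685184bdaa7d227147acf6d9d (k8 c19356 c22221 c5574 c2432 c5571 c746 c5572 c5529 (k8 c461 c20819 c5381 c5675 c13204 c5590 c15026 c1277 k0)) (by decide +kernel)
def c22454 : PP 9 3 T 0x2000000001000000000000000000000002000000000000010000400000000 := rS 0x340d16ffce04e15078c82d312911367963e4a27b149a7d962714a44e28f59ed99e1ba500b6a1f80a1dfeabd98647e171ee765005 (k8 c21870 c22442 c19356 c5436 c5433 c5318 c5315 c5401 (k8 c1281 c22247 c745 c22400 c2316 c5529 c19427 c6197 (k8 c117 c22406 c22221 c5574 c2432 c5571 c746 c5417 (k8 c5570 c5420 c5572 c429 c22444 c22447 c22451 c5357 (k8 c5441 c2492 c22452 c2969 c2936 c458 c17994 c3579 (k4 c3061 c22453 c5550 c2516 (k2 c2202 c5675 (k1 c20929 k0)))))))) (by decide +kernel)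
def c22455 : PP 9 3 T 0x400000002000000000000000000000000000000002000000000010020000400000000 := rS 0x183c193041f427a0f99fdbe81d8b4c4a11227bd227147acf6c1b808ec8f4a016d43e877faaf663f038f73b28efb5cae05 (k8 c21870 c21872 c1763 c5450 c22442 c19356 c5436 c5432 (k8 c5318 c5401 c1281 c22247 c745 c2316 c5529 c19427 (k8 c6197 c5520 c5332 c22400 c117 c22221 c5574 c2432 (k8 c5571 c746 c22448 c22452 c20747 c2969 c2936 c17815 (k8 c20909 c12713 c19606 c19019 c5675 c5564 c5566 c12613 (k4 c5438 c5235 c22450 c22449 k0)))))) (by decide +kernel)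
def c22456 : PP 9 3 T 0x1000100040000000000000000000000000000000000000002000000000000000000000000000100002000000000000000000400010000 := rS 0x92309f7c1b54fb2c4e29db008c601ace765005 (k8 c21870 c22442 c19356 c22432 c9696 c19421 c19427 c22221 (k8 c5417 c5570 c5420 c5572 c5529 c5235 c18801 c22449 (k2 c18893 c262 k0))) (by decide +kernel)
def c22457 : PP 9 3 T 0x2000000001000000000000000000100002000000000010000000400000000 := rS 0x773cb1f247b67a1d56d11de87622508c48680ba56d43e02db0f65005 (k8 c21870 c22442 c5436 c22221 c19427 c2316 c5529 c6197 (k8 c5516 c22454 c22455 c703 c1114 c17815 c5382 c5332 (k8 c1704 c1281 c745 c22406 c956 c22456 c5357 c5441 (k2 c5356 c20853 k0)))) (by decide +kernel)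
def c22458 : PP 9 3 T 0x2000000001000000000000000000000002000000000010000000400000000 := rS 0xd2f7a5526096af8d01b12189424118927d962714ab76d3bd9d64174a016d43e331f8f592199477c6805 (k8 c21870 c22454 c5450 c22442 c5315 c1177 c5436 c5318 (k8 c5316 c2316 c5529 c19427 c6197 c5516 c22432 c5401 (k8 c22368 c22221 c5573 c5417 c5570 c5420 c5572 c22455 (k8 c703 c12633 c1114 c20787 c17815 c22457 c5463 c20766 (k4 c1744 c261 c1583 c18736 (k2 c10379 c15747 k0)))))) (by decide +kernel)
def c22459 : PP 9 3 T 0x10000000000000000100000000000000000800000000000000010000000000000000004000002000000000024004000000000400 := rS 0x3dc8c691dbc1934010c10790904743f39db3fc67d (k8 c12625 c5462 c22406 c22368 c5547 c5382 c703 c12633 (k8 c2603 c12636 c20787 c298 c5438 c5188 c20854 c939 (k2 c938 c15747 (k1 c5505 k0)))) (by decide +kernel)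
def c22460 : PP 9 3 T 0x400000000000000051000000000000000004200002000000000020400000000010000 := rS 0xf4083b9e58fa147acf6ccf (k8 c22406 c22221 c5574 c2432 c5380 c940 c1751 c939 (k2 c12636 c20770 (k1 c1684 k0))) (by decide +kernel)
def c22461 : PP 9 3 T 0x2000000001000000000000000000000002000000000000000000400000000 := rS 0xc73d9e5bff32f9de05b146e8026814bb59a611227be26d570f8c80d1ef8d1969138a3d66cf8e8a76d59808ec174a016d43e877faaf66331fe765005 (k8 c21870 c22442 c19356 c5318 c5316 c5401 c1281 c22247 (k8 c745 c2316 c5529 c19427 c6197 c5516 c5332 c22400 (k8 c22432 c22221 c5417 c551 c22406 c5574 c2432 c5571 (k8 c746 c5420 c22454 c5450 c1704 c22458 c5462 c1714 (k8 c1657 c22459 c22448 c22452 c20747 c2936 c459 c1767 (k8 c22460 c298 c12617 c17697 c19633 c20819 c10131 c17795 (k4 c5550 c2516 c2429 c15912 (k2 c9140 c20853 k0)))))))) (by decide +kernel)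
def c22462 : PP 9 3 T 0x400000002000000000000000000000000000000002000000000000000000400000000 := rS 0x4b404b08911227147acf6d592482c8f4a016d43f9d06885e6cc1cca01e05 (k8 c21870 c21871 c22442 c5317 c22461 c2500 c431 c2426 (k8 c19356 c2316 c5529 c19427 c6197 c5520 c5516 c5334 (k8 c22432 c22221 c5574 c2432 c5571 c746 c22452 c20747 (k4 c460 c16594 c12614 c5564 k0)))) (by decide +kernel)
def c22463 : PP 9 3 T 0x2000000000000000000000000000000002000000000000000000400000000 := rS 0x201ae7a63b8f24d3f7ec4864b129042411d0c481a2179a65a3dff0b31939d1e81c7e391986650877a8dc163b80aae95b50feda7602ac95c1e05 (k8 c21870 c21871 c21872 c22432 c19427 c22368 c22221 c2316 (k8 c5529 c6197 c1281 c22400 c5332 c5516 c5518 c5519 (k8 c745 c22442 c5315 c5316 c5317 c5318 c5432 c5436 (k8 c19356 c1177 c22461 c5537 c5495 c173 c2441 c2500 (k8 c431 c2426 c22462 c5382 c703 c12633 c22459 c1114 (k8 c12638 c20787 c17815 c19710 c15747 c5235 c6448 c5357 (k4 c18025 c8980 c956 c20909 k0))))))) (by decide +kernel)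
def c22464 : PP 9 3 T 0x800000002000000000000000000000000000000002000000000000000000000000100 := rS 0x1e3f08f598371385cf67994b47d93bd9a4c6619d833f38252411c53b6acd2c45b5f98083e05 (k8 c21870 c2316 c19427 c5547 c5529 c22463 c5331 c22432 (k8 c22221 c5417 c12623 c13731 c1263 c9733 c22406 c22097 (k8 c5393 c385 c5444 c5401 c22368 c5228 c5501 c19356 (k8 c5524 c5372 c22428 c5570 c22158 c21990 c3031 c5537 (k2 c10342 c5168 k0))))) (by decide +kernel)
def c22465 : PP 9 3 T 0x800000002000000000000000000000000000000002000000000000000000000000000 := rS 0x3c79304047429f6589c0359258a76d2949867614b67e7045b5 (k8 c5529 c22463 c9733 c22406 c5331 c22097 c5393 c5444 (k8 c19356 c22221 c5417 c560 c22432 c9696 c5570 c5420 (k4 c5572 c5382 c704 c22464 (k2 c5438 c17997 (k1 c5216 k0))))) (by decide +kernel)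
def c22466 : PP 9 3 T 0x4000000000000000000000000000000000000000000000000000000000002000000000000000000000000000000002000000000000000000000000000 := rS 0x343e1c9b37bc9138a3d67b6ac9ecf32968fbe2687ce407d94b114ef67b5 (k8 c5529 c5401 c22368 c22463 c5331 c5228 c5502 c9733 (k8 c5373 c22465 c22448 c5501 c19356 c5524 c5372 c22432 (k8 c22221 c5574 c2432 c5571 c746 c5166 c5495 c20882 (k2 c22337 c19198 (k1 c5216 k0))))) (by decide +kernel)
def c22467 : PP 9 3 T 0x2000000000000000000000000000000002000000000000000000000020000 := rS 0x102212348a9138a3d671dac92c53b67ffbe2687ce407d94b114ef67b5 (k8 c5529 c5401 c22368 c22463 c5331 c5228 c5502 c9733 (k8 c5373 c22465 c22448 c5544 c22221 c5417 c560 c22432 (k8 c551 c5574 c2432 c5571 c746 c20747 c702 c5658 (k2 c20819 c1936 k0)))) (by decide +kernel)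
def c22468 : PP 9 3 T 0x2000000000000000000000000000000002000000000000000000000000000 := rS 0x8c8d1d0d3bfe1660dc123c12847c4331c86526d1949e4f7b0f605f394b1147405b3daa7d962714eda76cf (k8 c22406 c22368 c22221 c5417 c5570 c5420 c5572 c5529 (k8 c5401 c19427 c551 c22463 c5331 c9733 c22428 c5228 (k8 c22097 c5372 c5524 c19356 c5501 c5444 c5393 c395 (k8 c385 c22466 c22467 c1114 c17994 c1513 c22158 c21990 (k4 c5537 c5495 c21993 c5654 (k2 c22435 c1681 (k1 c18747 k0))))))) (by decide +kernel)
def c22469 : PP 9 3 T 0x1000000000002000000000000000000000000040000000100000000000000000000000000000000000000000004002000000000000040000001000108 := rS 0x1d0187393116cb6a1f9dbc4ae05 (k8 c21870 c21872 c22468 c22368 c2316 c5529 c22131 c6197 (k4 c18631 c395 c5643 c5654 (k1 c1674 k0))) (by decide +kernel)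
def c22470 : PP 9 3 T 0x20000000000000000000040000000100000000000000000000002000000000000004000000002000000000000004000001000100 := rS 0x7460061a8e0760a1000007b0daced9e7bf0f7c6e05 (k8 c21870 c2330 c5495 c5537 c5372 c22406 c22368 c5529 (k8 c22097 c22469 c5642 c666 c665 c340 c5654 c19684 (k4 c2471 c5653 c4418 c20134 k0))) (by decide +kernel)
def c22471 : PP 9 3 T 0x2000000000000000000020000000000000000000080000000000000000000000000000000000000000000000000000002000000000000000000000000000 := rS 0x20016c83a010d968173b78835e605 (k8 c21870 c5540 c5522 c22468 c22368 c5516 c20814 c18807 (k4 c665 c1995 c5649 c5642 (k2 c17763 c265 k0))) (by decide +kernel)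
def c22472 : PP 9 3 T 0x100000000000000000000000000000000000000000002000000000140000000004010008 := rS 0x2bc4bb20e89c52b156eda76f1 (k8 c22468 c22368 c22221 c5573 c5421 c5417 c5570 c20811 (k4 c22131 c1114 c5406 c3582 k0)) (by decide +kernel)
def c22473 : PP 9 3 T 0x2008000000000000000020000000000000000000000000000100100000000000000000002000000000000004100000002000000000000000000001010100 := rS 0x37094fb58f792dea492f82840000186c864530b2465b0a591de7b538a7d962739eda76cf408fcfea16998cae05 (k8 c21870 c21872 c19420 c5579 c5578 c5577 c5576 c5463 (k8 c22406 c22368 c22221 c5419 c5570 c5420 c5572 c5571 (k8 c5529 c5540 c18747 c22471 c22097 c22470 c5396 c5445 (k8 c389 c2047 c2043 c22472 c5642 c666 c665 c1055 (k8 c344 c2421 c2589 c17892 c5658 c20827 c5559 c3599 (k1 c1060 k0)))))) (by decide +kernel)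
def c22474 : PP 9 3 T 0x8000000000000000020000000000000000000000000000100100000000000000000002000000000000004100000002000000000000000000001010100 := rS 0x6ac9d82a52a2163ec83a1b010c402f50588e95ed7bf7fc33b67bc41a05 (k8 c21870 c5522 c22468 c22406 c22368 c5537 c5495 c17683 (k8 c22473 c5165 c5331 c5516 c5519 c665 c1916 c5642 (k8 c20794 c20811 c22131 c21979 c265 c10191 c5489 c21904 (k2 c5396 c22166 (k1 c22180 k0))))) (by decide +kernel)
def c22475 : PP 9 3 T 0x8000000000000000020000000000000000000000000000000100000000000000000011000000000000000000000002000000000000000000001010108 := rS 0x43228c836cf1fb4cf679 (k8 c5524 c5372 c5579 c5576 c22406 c20794 c21990 c389 (k2 c2047 c22472 k0)) (by decide +kernel)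
def c22476 : PP 9 3 T 0x1000400000000000000020000000000000000000040000000000000000000014000000011000000000000000000000002000000000000000000000000080 := rS 0xb4f63b4ed9e87 (k4 c5373 c22406 c22368 c18861 (k2 c5657 c672 (k1 c2101 k0))) (by decide +kernel)
def c22477 : PP 9 3 T 0x8000000000000000020000000000000000000000000000100100000000010000000011000000000000000000000002000400004000008000000000102 := rS 0x1b84a7dac7bfd84322f7ce29f659ce76811f9fd42d331818c3b0c9b3c8eb3248804fb6a5bcc1457 (k8 c21872 c665 c20781 c5516 c22221 c5570 c666 c344 (k8 c5574 c2422 c22406 c20826 c5209 c5445 c5643 c19420 (k8 c5579 c5578 c5577 c5576 c5463 c22368 c5419 c5420 (k8 c5572 c5571 c5492 c389 c2047 c22476 c17892 c5658 (k4 c20827 c5559 c3599 c1060 k0))))) (by decide +kernel)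
def c22478 : PP 9 3 T 0x8000000000002000000000000000000000000000000000100100000000000000000000000000000000000100000002000000000000004000000010184 := rS 0xef1f46245f78712e776589d5bb69dbc502d769a546a57 (k8 c21872 c20806 c5446 c5579 c5465 c5463 c22468 c22368 (k8 c22221 c5573 c5570 c5420 c673 c20460 c20822 c8156 (k4 c335 c1996 c20827 c5653 (k1 c20859 k0)))) (by decide +kernel)
def c22479 : PP 9 3 T 0x8000000000000000020000000000000000000000000000100100000000000000000010000000000000004100000002000000000000000000001010100 := rS 0x1ea3225828be000181b619366b3c0a57 (k8 c21872 c21870 c22406 c22474 c20826 c5209 c5643 c22475 (k4 c5642 c1451 c665 c2589 (k2 c22478 c2045 (k1 c22477 k0)))) (by decide +kernel)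
def c22480 : PP 9 3 T 0x8000000000000000000000000000000000000000000000000100000000000000000000000000000000000000000002000000000000008000000010008 := rS 0x43228fda61b (k4 c20794 c5579 c5576 c389 (k2 c2047 c22472 k0)) (by decide +kernel)
def c22481 : PP 9 3 T 0x100000000000000000000000000000000000000000002000000000100000000000010008 := rS 0x13ac90837a1d93c677b6 (k8 c22221 c22368 c22468 c22131 c19230 c20794 c22472 c17812 (k2 c20787 c12617 k0)) (by decide +kernel)
def c22482 : PP 9 3 T 0x100000000000000000000000000000100000000000000000000211040000000000000004000002000000000000044000000010080 := rS 0x1f0f43c3b9e46a8f59eda76cf (k8 c22406 c22368 c22221 c5574 c2432 c20806 c1454 c673 (k4 c21481 c20853 c12640 c1691 k0)) (by decide +kernel)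
def c22483 : PP 9 3 T 0x8000000000000000000000000000000000100000000000000000000000000000000000004000000000000000000000000000001000148 := rS 0xd86482e57 (k4 c21872 c1108 c5643 c5648 (k1 c18631 k0)) (by decide +kernel)
def c22484 : PP 9 3 T 0x8000000000000000000000000000000000000000000000100100000000000000000010000000000000004100000002000000000000000000001010100 := rS 0x30660d40cd4648cd0fdfd099d8fb27a8dc054a00e776b11db4ede205 (k8 c21870 c22468 c22368 c22221 c160 c5529 c22479 c17712 (k8 c5211 c5642 c5518 c5519 c22131 c21979 c5487 c19230 (k8 c6601 c744 c22480 c10198 c6616 c22483 c20806 c22482 (k2 c5653 c1916 k0)))) (by decide +kernel)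
def c22485 : PP 9 3 T 0x8000000000000000000000000000000000000000000000100000000000000000000020100000000000000000000002000000000000000000000010008 := rS 0xd106722bf38992446fe7040695ef6a77f42af12ec83a010fa44e28f59eda76cf78a85a7edf0c0dae05 (k8 c21870 c5465 c2201 c5459 c5501 c5579 c5578 c22468 (k8 c22406 c22368 c22221 c5574 c2432 c5571 c746 c2316 (k8 c28 c20811 c22131 c1114 c10145 c19230 c6601 c6616 (k8 c11200 c5165 c3073 c1710 c1711 c5331 c5334 c21166 (k4 c5591 c3010 c5675 c19143 (k2 c5522 c265 k0)))))) (by decide +kernel)
def c22486 : PP 9 3 T 0x8000000000000000000000000000000000000000000000100100000000000000000000000000000000004100000002000000000000000000001010100 := rS 0xe6c9ecf579d2c760a1008c000364fb5a09bda87e7605 (k8 c21870 c22368 c2316 c5529 c6036 c22484 c5501 c2134 (k8 c22485 c5642 c9731 c666 c665 c340 c5516 c20781 (k4 c1926 c5657 c5228 c8123 (k1 c5486 k0)))) (by decide +kernel)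
def c22487 : PP 9 3 T 0x8000000000000000000000000000000000000000000000200000000000000000000000000000000000004000000002000000000000000000000010000 := rS 0xc0224ceed6229f138a76c05 (k8 c21870 c22221 c5417 c5570 c5572 c160 c5529 c19356 (k4 c18620 c17712 c1114 c5642 k0)) (by decide +kernel)
def c22488 : PP 9 3 T 0x8000000000000000000000000000000000000000000000000000000000000000000000000000000000004100000002000000000000000000001010100 := rS 0x2f0036003efecf411cdb4ede2d73fb4e5205 (k8 c21870 c22487 c5579 c5577 c5465 c22468 c22368 c22221 (k8 c22486 c13277 c19230 c20754 c22131 c5224 c5642 c17744 (k1 c1055 k0))) (by decide +kernel)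
def c22489 : PP 9 3 T 0x100000000000000000000000000000000200000000000000000000000000000000000000000000000000000000000000000010000 := rS 0x2759 (k2 c5341 c20813 (k1 c12617 k0)) (by decide +kernel)
def c22490 : PP 9 3 T 0x4008000000000000000000000000000000000100000000000100100000000000000000000000000000000000000000002000000004440400000000000102 := rS 0x12e771a99c0c381987727e1227ca2b3b788fc465f2489f6cf34aa646fb0a5b3f39b5319e4400a3dc44d657 (k8 c21872 c64 c160 c3810 c665 c666 c4627 c19420 (k8 c5529 c17712 c22406 c5516 c22097 c20063 c5447 c5446 (k8 c20781 c22221 c5570 c344 c1055 c9731 c5576 c22468 (k8 c22368 c6578 c5660 c5658 c6706 c17692 c335 c389 (k4 c5654 c5643 c664 c439 (k2 c673 c20460 (k1 c20857 k0))))))) (by decide +kernel)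
def c22491 : PP 9 3 T 0x4008000000000000000100000000000000000000000000000000000000000000000000000000000000000004000000002000000000040000000000010104 := rS 0x3e4cf86f1e896b03b25984be2006800e273409fd42639491d1eb3db474ae05 (k8 c21870 c21872 c22489 c22221 c5574 c2432 c13598 c22487 (k8 c19420 c5578 c5577 c5463 c5419 c5571 c5642 c2427 (k8 c666 c1055 c662 c12638 c340 c22490 c5559 c5560 (k4 c1060 c9934 c16071 c1456 (k1 c5643 k0))))) (by decide +kernel)
def c22492 : PP 9 3 T 0x8000000000000000000000000000000000000000000000000000000000000000000000000000000000004000000002000000000000000000001010100 := rS 0x14ace333c2794cec0f7933e0f060d13b8d50ed46481bbe9533a5d5e3363897641d014774243f7a32529f65ac55a8f59eda76cf78b5d42d3 (k8 c5579 c5578 c5465 c22468 c22406 c22368 c22221 c5574 (k8 c2432 c5573 c5421 c5420 c5572 c22487 c22488 c5505 (k8 c12616 c5381 c22489 c22491 c20811 c22131 c1114 c21979 (k8 c22480 c10145 c5404 c5487 c5488 c6601 c22483 c10198 (k8 c3618 c744 c20806 c673 c22485 c5653 c21481 c12640 (k8 c5442 c1691 c5209 c5447 c2428 c22445 c20853 c5669 (k2 c22470 c20830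 k0))))))) (by decide +kernel)
def c22493 : PP 9 3 T 0x4008400000000000000000000000000000000100000004000000100000000000000000000000000000000000100010000000000000100000000000000080 := rS 0x3bb5466426b9fda635 (k8 c20806 c5579 c5577 c5465 c5658 c2047 c2779 c673 (k1 c18905 k0)) (by decide +kernel)
def c22494 : PP 9 3 T 0x8000000000000000000000000000000000000000000000100100000000000000000000000000000000004000000002000000000000000000001000108 := rS 0x1b1c9fb80cad6bd648a7d468412fdfd93c677b6 (k8 c22221 c22368 c22468 c22131 c6601 c5404 c22492 c702 (k8 c2748 c20747 c5558 c5465 c5573 c22483 c22493 c20829 (k2 c22132 c5209 k0))) (by decide +kernel)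
def c22495 : PP 9 3 T 0x8000000000000000100000000000000000000000000000000100000000000000000000000000000000004000000002000000000000000000001000108 := rS 0x1b06a8f651b265ac76d3b78b5cfed3ac9151a10 (k8 c22492 c702 c20747 c5558 c5579 c5577 c5465 c22468 (k8 c22368 c22221 c5421 c5420 c22131 c22494 c5436 c18677 (k2 c18676 c17820 k0))) (by decide +kernel)
def c22496 : PP 9 3 T 0x8000000000000000100000000000000000000000000000000100000000000000000000000000000000004000000002000000000000000000001000100 := rS 0x52f625fce028de0001ed623b6679f42005 (k8 c21870 c22492 c2748 c22406 c22221 c160 c5529 c22495 (k8 c5642 c2746 c665 c17712 c1055 c13779 c5516 c22097 k0)) (by decide +kernel)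
def c22497 : PP 9 3 T 0x200000000000000000000000000000000000000000000000000000000000000000000000040002000000000000000000000000100 := rS 0x6c6965fce0280003d9ed623b69db3de205 (k8 c21870 c22468 c22406 c22368 c22221 c160 c5529 c19230 (k8 c22131 c5642 c665 c17712 c1055 c5516 c17744 c22097 k0)) (by decide +kernel)
def c22498 : PP 9 3 T 0x8000000000000000000000000000000000000000000000000000000000000000000000000000000000000000000002000000000000000000000020104 := rS 0x6c6965fce028de00dac476ccfd09fcfa05 (k8 c21870 c2748 c5577 c22497 c22406 c22221 c160 c5529 (k8 c5642 c2746 c665 c17712 c1055 c5516 c13779 c22097 k0)) (by decide +kernel)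
def c22499 : PP 9 3 T 0x8000000000001000100000000000000000000000000000000000000000000000000000000000000000000000010002000000000000011000001020008 := rS 0x3b8c8b59294fc9c24b8991c163ba56776a8f59b3c82e36f92522714a87553dfd93c677b6 (k8 c22221 c22368 c22468 c22131 c6601 c5489 c20811 c10191 (k8 c5571 c746 c3026 c5580 c5466 c5462 c22406 c5574 (k8 c2432 c5529 c21904 c5211 c5332 c5516 c5520 c703 (k8 c13156 c21491 c5675 c17934 c22079 c22080 c5653 c5356 (k1 c2041 k0))))) (by decide +kernel)
def c22500 : PP 9 3 T 0x400a000000000002000000000000000000000000000000000000000000000000000000000000000041000050000000002000000000000000000000000000 := rS 0x2a99afddb33d9299 (k8 c5447 c5396 c22406 c22221 c20782 c5537 c18031 c22345 k0) (by decide +kernel)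
def c22501 : PP 9 3 T 0x8000000000000000000000000000000000000040000000000000000000000000000000000000000000004000000002000000000000000000001000100 := rS 0x44dc2461b6d43e29ac9252271f9e73c2a94babd2a1df7e4cf2993d9858f29d80c5ae1b58edb64f19d8d639a13f90404df409f42005 (k8 c21870 c22492 c2748 c5463 c5580 c22498 c5462 c5577 (k8 c22497 c22496 c552 c22368 c22468 c22131 c22221 c5421 (k8 c2161 c5465 c2163 c22499 c17756 c21979 c5445 c742 (k8 c5447 c2428 c18631 c5504 c20811 c10191 c5406 c5404 (k8 c5489 c22500 c5669 c17861 c5571 c746 c3026 c5558 (k8 c5417 c2316 c5529 c22469 c13731 c1484 c12623 c17854 k0)))))) (by decide +kernel)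
def c22502 : PP 9 3 T 0x8000000000000000000000000000000000000000000000000000000000000000000000000000000000004000000002000000000000000000001000100 := rS 0x66b47daf57b88e9421ce78464c73c9ee53934c98593b0efaa52eaf4aec83a021a8c437ef8e1f420b1db4ed9ef120b5f427f (k8 c5577 c22497 c5465 c5462 c22468 c22406 c22368 c22221 (k8 c5421 c22492 c2748 c22496 c5504 c2161 c2163 c552 (k8 c22498 c20811 c22131 c10191 c5406 c5404 c5489 c6601 (k8 c22499 c5396 c5445 c5447 c18631 c17756 c742 c2428 (k8 c21979 c5653 c22500 c5669 c13817 c22501 c5331 c5333 (k4 c5519 c22471 c2129 c22180 (k1 c5688 k0))))))) (by decide +kernel)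
def c22503 : PP 9 3 T 0x8000000000000000000000000000000000000000000000000000000000000000000000000000000000000000000002000000000000000000001000100 := rS 0x52f380a0000f6292dac459e05 (k8 c21870 c22406 c160 c5529 c22502 c5444 c261 c5642 (k4 c665 c17712 c5516 c22097 k0)) (by decide +kernel)
def c22504 : PP 9 3 T 0x8000000000001000000000000000000000000000000000000000000000000000000000000000000000000000000002000000000000000000000000200 := rS 0x1784a76091e50f12d0aa4ce95256c83a7daca74f6c72382c923b0118fc09ba50073a37946d6229f6589c529138eda76cf78905c63f6fe4c6205 (k8 c21870 c20764 c5438 c5580 c5576 c5466 c5462 c22468 (k8 c22406 c22368 c22221 c5571 c746 c5417 c5570 c5420 (k8 c5572 c160 c5529 c9669 c5435 c19356 c17712 c5211 (k8 c8100 c5235 c19421 c5642 c5332 c5334 c5516 c5520 (k8 c5535 c5457 c5458 c21911 c18801 c20811 c22131 c19935 (k8 c10191 c5487 c5489 c19230 c13156 c744 c2603 c12633 (k4 c21894 c2805 c11141 c18416 k0))))))) (by decide +kernel)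
def c22505 : PP 9 3 T 0x8000000000000000000000000000000000000080000000000000000000000000000000000000000000000000000002000000000000000000001000000 := rS 0x813fc8a8d6640421e143c75a3edf7b53bfa15499d5e971a567641d0d85c04017a82c769f6589c52b147acf6d3b67bc482d71fa85a6dfc98cc629364a6cc2954cec01005 (k8 c21870 c22503 c22504 c5447 c5446 c5445 c5397 c5396 (k8 c5444 c20764 c20738 c5438 c5580 c5579 c5578 c5576 (k8 c5465 c5462 c22468 c22406 c22368 c22221 c5574 c2432 (k8 c5421 c5417 c5570 c5420 c5572 c5332 c5516 c5519 (k8 c665 c5642 c1507 c20794 c20811 c22131 c17858 c20895 (k8 c19357 c5406 c5487 c5489 c19230 c6601 c17820 c11200 (k8 c22160 c1704 c552 c744 c22500 c17997 c3073 c5688 (k4 c702 c20747 c2506 c19658 (k1 c16948 k0))))))))) (by decide +kernel)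
def c22506 : PP 9 3 T 0x8000000000000000000000000000000000000000000000000000000000000000000000000000000000000000000002000000000000000000001000008 := rS 0xf48e45f60e91a10f0c76b3ef6a77f42a957a5c6817d907436014fb2c4e2958eda76f120b5c7ea16981f263318a4d92614a8dcf299d84a4720dce52f6a08 (k8 c22503 c5529 c22505 c5211 c5522 c273 c19356 c22504 (k8 c5447 c2428 c1510 c5446 c5445 c5396 c5444 c20764 (k8 c20738 c5438 c30 c5579 c5578 c5576 c5465 c5462 (k8 c22468 c22368 c22221 c5421 c5417 c5570 c5420 c5572 (k8 c28 c20794 c20811 c22131 c1108 c20895 c19357 c5406 (k8 c5489 c19230 c6601 c17820 c11200 c17858 c552 c22500 (k8 c17997 c702 c5654 c5165 c20747 c18747 c1681 c18677 k0))))))) (by decide +kernel)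
def c22507 : PP 9 3 T 0x8000000000000000000000000000000000000000000000000000000000000000000000000000000000000000000002000000000000000000001000000 := rS 0x348df60763bb3080d09559effcd9ae1f06847649238284000018e6520dce52c6e794ca4f6031198236ab313eda76cf78905be05 (k8 c21870 c5580 c5462 c22468 c22406 c22368 c22221 c5570 (k8 c5574 c5529 c22503 c20738 c20764 c22504 c5444 c5447 (k8 c2428 c1510 c22505 c5211 c5522 c19356 c273 c22506 (k8 c5642 c666 c665 c2422 c344 c340 c19956 c5654 (k8 c5460 c5537 c7694 c22337 c17960 c5660 c5653 c2589 (k4 c22138 c552 c331 c5228 (k2 c702 c5649 (k1 c18761 k0)))))))) (by decide +kernel)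
def c22508 : PP 9 3 T 0x2000000000000000000002000000 := rS 0x3da74479d43aa52a674dec8ee796380b25b1daced9ef1 (k8 c22468 c22406 c22368 c5529 c5393 c6205 c9701 c5357 (k8 c5441 c5356 c22131 c2492 c5487 c5488 c5489 c744 (k4 c21904 c9733 c1273 c743 (k1 c21894 k0)))) (by decide +kernel)
def c22509 : PP 9 3 T 0x100000010080000000000800000000000000204014000000000000080000000000000000000000000002000000004000000000000000000 := rS 0xeb76f95dff72a39237f4d294d87e30c8ec924726d2b6ac1 (k8 c5319 c5529 c5211 c5521 c5520 c5334 c5332 c22508 (k8 c22507 c5348 c5605 c17707 c5242 c5557 c17827 c18028 (k4 c17833 c3115 c5622 c3488 (k2 c3354 c5693 k0)))) (by decide +kernel)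
def c22510 : PP 9 3 T 0x100000010080000000000000100000000000204000000000000000080000000040000000000000000002000000000000000002000020008 := rS 0x23527291545c2b16e370321d259d7a291191c9a4b8cc5fe51305d2b6ba1d93c6768f59a44e3b6 (k8 c22221 c5571 c746 c5574 c2432 c22368 c22468 c22131 (k8 c19230 c5529 c5211 c5516 c703 c5675 c5593 c5551 (k8 c13156 c5521 c5520 c9733 c5417 c5575 c22509 c5213 (k8 c5606 c5607 c5611 c269 c1115 c5652 c569 c1362 (k2 c706 c15139 (k1 c2802 k0)))))) (by decide +kernel)
def c22511 : PP 9 3 T 0x10080000000000000000000000000200000000000000000400000000000000002000000000002001000000010000000000022008 := rS 0x1862b52c83578ac4def4bf55b8b45ea7bba8f71233709143156f7c9c24b89a04e69138a3d661931e0f23a11d9241647a56d4fa7f0b97c7ec1038f75abbacf7d2a67d93c6761b4982453b6 (k8 c22221 c5417 c5438 c261 c20794 c22368 c22468 c22131 (k8 c5487 c5488 c20920 c18617 c4763 c5437 c5436 c5432 (k8 c5319 c5318 c5439 c1107 c5358 c5442 c5529 c5211 (k8 c5520 c5516 c5334 c5332 c19230 c5491 c5407 c9752 (k8 c22508 c5574 c2432 c5571 c746 c5419 c699 c703 (k8 c13156 c21491 c5675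 c17934 c5590 c1277 c16127 c9934 (k8 c5009 c22510 c5614 c5613 c5428 c5425 c5612 c5616 (k8 c22311 c20789 c748 c2434 c5676 c710 c2656 c8119 (k2 c1116 c306 (k1 c3580 k0)))))))))) (by decide +kernel)
def c22512 : PP 9 3 T 0x10080000000000000000000000000200000000000000000400000000000000002000000000002001000000010000000000002008 := rS 0x355a7ef501104b1d08a7d962714f8c320157e842e5f498247e3defb5d90954b9dccfb278ced63b6 (k8 c22221 c5421 c22368 c22468 c22131 c5487 c5356 c5404 (k8 c5488 c20913 c2189 c20920 c5436 c5318 c5438 c261 (k8 c5439 c1107 c19230 c5406 c28 c22508 c22507 c5417 (k8 c5570 c5420 c5572 c22511 c22489 c12632 c22481 c3579 (k4 c5582 c2936 c3000 c5689 k0))))) (by decide +kernel)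
def c22513 : PP 9 3 T 0x1000000080000000000000000000000000000000000000000000000000000000000000000000005002000000000000000000000000008 := rS 0x618ad4b20d5e2b137bd2fd56e2d17a9eeea3dc48c483450b522b1cf9405bc450844dc24081d6598aa6bb47bec830b8d769c4c83052b1489c51eb3f198c3697c1e4743b61d82c6e47a56755295da9f4fe9b63f84ee8733ec9e33b678cc3a391fb040e3dd6ca02e5f0ca4c120f (k8 c21871 c5438 c261 c22508 c5439 c1107 c5648 c5437 (k8 c5436 c5432 c5319 c5318 c5317 c20811 c5284 c22406 (k8 c22368 c22468 c22131 c5487 c744 c5356 c22445 c5357 (k8 c2492 c5358 c5442 c5529 c5488 c5489 c21904 c5211 (k8 c5520 c5518 c5516 c5332 c22221 c19230 c5491 c5407 (k8 c5404 c20794 c9752 c22507 c5574 c2432 c5571 c746 (k8 c5421 c5417 c17959 c21893 c21894 c4763 c6448 c1696 (k8 c20913 c20920 c2134 c2189 c1275 c1276 c18617 c2199 (k8 c22512 c1714 c22459 c12636 c459 c15182 c2078 c5675 (k8 c22376 c5590 c5778 c1277 c1656 c16127 c3802 c22510 (k8 c5614 c5613 c5428 c5425 c5612 c5616 c22311 c20789 (k8 c748 c2434 c5676 c710 c2656 c8119 c1116 c306 (k1 c3580 k0))))))))))))) (by decide +kernel)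
def c22514 : PP 9 3 T 0x80000000000000200100010000000000000000000000000000000000000000000000000000041000000002000000000002000000000000000000000402108 := rS 0xc3528ae40e5d5e2b137bd2fd56e2d17a9eeea3db0670667c8ec9e33b05d2b6a93 (k8 c261 c5529 c5211 c5516 c22368 c22468 c22131 c5491 (k8 c5487 c5407 c22508 c22221 c5614 c5613 c5428 c5425 (k8 c5612 c5616 c22311 c20789 c748 c2434 c5676 c710 (k4 c2522 c2656 c1116 c1280 (k2 c306 c3580 k0))))) (by decide +kernel)
def c22515 : PP 9 3 T 0x100001010000000000000000000000000000204014000000000000040000000000000000000000000002000000004020000000000000000 := rS 0x75bb7caeffb951c85361fd2cde30c8ec924726d2b6ac1 (k8 c5319 c5529 c5211 c5521 c5520 c5334 c5332 c22508 (k8 c22507 c5213 c5242 c5348 c5605 c17827 c18028 c17833 (k4 c1832 c5622 c3489 c3354 (k1 c5693 k0)))) (by decide +kernel)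
def c22516 : PP 9 3 T 0x100000010080000000000000000000000000200000400000000000000000000040000000000000000002000000004020000002000000008 := rS 0x11a93948aa2e158b6cf8dc0c8748df919b97a291191c9b4adad6420098cc5fe5a1d93c6768f59a44e3b6 (k8 c22221 c5571 c746 c5574 c2432 c22368 c22468 c22131 (k8 c19230 c5675 c5593 c5551 c5438 c12636 c5340 c5529 (k8 c5211 c5521 c5520 c9733 c5417 c5575 c1113 c5009 (k8 c22510 c22515 c5606 c5607 c5611 c17707 c269 c1115 (k4 c5652 c569 c1362 c706 (k2 c15139 c2802 k0)))))) (by decide +kernel)
def c22517 : PP 9 3 T 0x100002000080000000000000100000000000200000400000000000000000000040000000000000000002000000010000000000600020008 := rS 0x46a4eb62a8b8562db3e370321daaf4529138a3d67b6 (k8 c22221 c5574 c2432 c5571 c746 c5417 c5575 c5529 (k8 c5606 c5607 c5611 c17707 c269 c1115 c5652 c569 (k4 c591 c706 c15139 c2469 k0))) (by decide +kernel)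
def c22518 : PP 9 3 T 0x10080000000000000000000000000200000400000000000000000000000000002000000000002000000004020000000000002008 := rS 0x37e4766d2ee576201193695b56385cbec1d6d6420098cc5fe5a1d93c6768f59a44e3b6 (k8 c22221 c5571 c746 c5574 c2432 c22368 c22468 c22131 (k8 c19230 c5675 c5593 c5551 c5438 c12636 c5340 c5437 (k8 c5319 c5439 c1107 c5357 c5529 c5211 c5521 c9733 (k8 c2426 c4763 c22514 c22517 c5213 c5351 c22509 c22515 k0)))) (by decide +kernel)
def c22519 : PP 9 3 T 0x100000010080000000000000000000000000200000400000000000000000000000000000000000000002000000004020000002000000008 := rS 0x1a4c57d575b5 (k4 c5529 c22516 c5554 c2663 (k2 c5242 c5390 k0)) (by decide +kernel)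
def c22520 : PP 9 3 T 0x1000000000000000010080000000000000000000000000200000000000000000000000000000000000000000008002000000000020000000000000008 := rS 0x61a9456e672eaf1589bde97eab7168bd4f7751ee0482106fc897137087c4e295aa3d67e30ce0ccf91d0ec9e33b118ec1647a56d58e172fa4c123960eb5c69138ed93805 (k8 c21870 c743 c22221 c5571 c746 c1776 c5437 c5319 (k8 c5317 c5438 c261 c5439 c1107 c5357 c5529 c5211 (k8 c5520 c5516 c5332 c9733 c22368 c22468 c22131 c19230 (k8 c5491 c5487 c5407 c22508 c22507 c5574 c2432 c5422 (k8 c5417 c5570 c2316 c1714 c957 c15375 c5675 c22518 (k8 c265 c17998 c22519 c5614 c5613 c5428 c5425 c5612 (k8 c5616 c22311 c20789 c748 c2434 c5676 c710 c2522 (k4 c1002 c1116 c1280 c1724 (k1 c3580 k0))))))))) (by decide +kernel)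
def c22521 : PP 9 3 T 0x200100000000800000000000000000000000000000000000000000000000041000000002004000008000000000000000400000001400408 := rS 0x186a515b99cbab51a9c5e2d (k8 c5612 c5425 c5428 c5614 c710 c2522 c1002 c1116 (k2 c1280 c1724 (k1 c3580 k0))) (by decide +kernel)
def c22522 : PP 9 3 T 0x800000000000000000040000000000004000008002000000000015000000000400008 := rS 0x50895be114fb2c4e290c80743b278cef6c9c (k8 c743 c22221 c22368 c22468 c22131 c19230 c28 c22508 (k8 c5417 c5570 c5420 c5572 c3828 c2512 c12632 c1278 (k1 c3579 k0))) (by decide +kernel)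
def c22523 : PP 9 3 T 0x1000000080000000000000000000000000000000000000000000000000000000000000000000001002000000000000000000000000008 := rS 0xc4defeb8bd2adeefb85db206b1c91914dc1012565431581b7a03f27092e26414e38cf5ad1eb047e339478526173b9f58e092fa7d962714a44e28f59f8c321b0ee0f23a1db21cce3b2482c8f4aceaa59e95d93c677b5 (k8 c5529 c22368 c22468 c22131 c5488 c22406 c5489 c21904 (k8 c5211 c5520 c5516 c5334 c5332 c5487 c744 c22221 (k8 c19230 c5491 c5407 c20811 c20794 c22508 c22507 c5574 (k8 c2432 c5571 c746 c5417 c5570 c5420 c5572 c5439 (k8 c5438 c5357 c5442 c5356 c1107 c261 c22445 c5648 (k8 c5284 c5318 c5319 c5436 c5437 c22513 c1776 c743 (k8 c22520 c22522 c13156 c21491 c5675 c19568 c17934 c5550 (k8 c5590 c1277 c19210 c3579 c1114 c1113 c2969 c5009 (k8 c22376 c552 c20896 c4128 c22510 c5613 c5616 c20789 (k4 c22521 c22311 c748 c2434 (k1 c5676 k0))))))))))) (by decide +kernel)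
def c22524 : PP 9 3 T 0x1000000000000000000000000000000000000000000000000000000000000000000000000000001002000000000000000000000000008 := rS 0x8091607130847555593f26502c949978c3df3b781367d9464dfa9f6589c52b1489c7c6190098c361d4be876c873391e959d54b3d2bb278cef6a05 (k8 c21870 c5529 c22368 c22468 c22131 c5488 c22406 c5489 (k8 c21904 c5211 c5520 c5487 c744 c22221 c19230 c5404 (k8 c20811 c20794 c9752 c28 c22508 c22507 c5571 c746 (k8 c5421 c5417 c5570 c5420 c5572 c20782 c22523 c5209 (k8 c18801 c8100 c5235 c22445 c5493 c10409 c11141 c262 (k8 c20845 c1746 c1520 c17970 c18617 c18012 c18690 c18893 (k4 c15494 c2199 c20747 c19568 (k1 c22376 k0)))))))) (by decide +kernel)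
def c22525 : PP 9 3 T 0x1000000000000000000000000000000000000000000000000000000000000000000000000000000002000000000000000000000000008 := rS 0x2240c2101f956427131ff7d267e8e9f6506140e4cf047a56750fa154a54cfb20d98c03b535a7d962714a44e28f59eda76cf78f8c3205 (k8 c21870 c22508 c22507 c22468 c22406 c22368 c22221 c5574 (k8 c2432 c5571 c746 c5417 c5570 c5420 c5572 c64 (k8 c5529 c28 c9752 c20794 c22131 c5487 c5488 c5489 (k8 c19230 c744 c21904 c5211 c5520 c22524 c5441 c1751 (k8 c1578 c5209 c18801 c18690 c5670 c262 c19294 c5318 (k8 c2603 c2917 c18617 c5675 c19568 c12617 c5550 c22376 (k1 c20747 k0))))))) (by decide +kernel)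
def c22526 : PP 9 3 T 0x1000000000000000000000000000000000000000000000000000000000000000000000000000000002000000000000000000000000000 := rS 0x14bce0280003dac459e05 (k8 c21870 c22406 c160 c5529 c22525 c5642 c665 c17712 (k2 c5516 c22097 k0)) (by decide +kernel)
def c22527 : PP 9 3 T 0x8000100040000000000000000000000000100000000000000000000000000000000000000000010002040000000200000000000000002 := rS 0x71c1fbc28154a5d96cf64a6d2a37319e5327b30c44d63b49ec0828c578744ef138ac4de25ac78c32ad39ed957ec7b882973bdabcc14fd (k8 c20782 c665 c20781 c5529 c22368 c5516 c666 c3691 (k8 c17966 c5500 c22221 c5419 c5573 c22508 c22507 c5216 (k8 c5559 c1060 c5421 c5571 c22468 c5570 c335 c10145 (k8 c20793 c5340 c22526 c5444 c340 c64 c160 c5445 (k8 c742 c5447 c2428 c5395 c20063 c5446 c5397 c5396 (k8 c22406 c5420 c5404 c5489 c21925 c18012 c5670 c5654 (k2 c3816 c2471 k0))))))) (by decide +kernel)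
def c22528 : PP 9 3 T 0x40000000000000000000000000100000000000000000000000000000000000000000200002040000000210000000008000000 := rS 0x6a960332f6db0 (k4 c22526 c22221 c5420 c12653 (k2 c21925 c20806 (k1 c1074 k0))) (by decide +kernel)
def c22529 : PP 9 3 T 0x100040000000000000000000000000100000000000000000000000000000000000000000010002040000000200000000000000002 := rS 0x18f7c6a76699f902330d6cd42c9d8107de8c578744f3b789c5626f12d63c619569cf6c57 (k8 c21872 c22221 c5419 c5573 c22508 c22507 c5216 c5559 (k8 c1060 c5421 c5571 c22468 c22368 c5570 c335 c10145 (k8 c20793 c5582 c5340 c22526 c5396 c5398 c22527 c5649 (k8 c2043 c22528 c5670 c2084 c20444 c19606 c5493 c1913 (k1 c5653 k0))))) (by decide +kernel)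
def c22530 : PP 9 3 T 0x200000000000100000400000000000000000000000000000000400020000000000001400440000000000800 := rS 0x1e11cb800ee3a592c7a41 (k8 c5340 c5560 c2588 c5516 c1552 c1456 c22133 c2471 (k2 c5460 c5654 k0)) (by decide +kernel)
def c22531 : PP 9 3 T 0x120040000000000000000000000000000000000000000000000000000000000000000000010002000000000000000000000000042 := rS 0x23434d70eecc69df669f863e040820723338eda76cf788dcc6794c9ecc311358ec4093d852c144137896b1e30cca40a57 (k8 c21872 c21870 c19356 c22508 c22507 c5216 c5559 c1060 (k8 c5340 c665 c5516 c22526 c5444 c666 c340 c64 (k8 c160 c5445 c742 c5447 c2428 c5395 c20063 c22468 (k8 c22406 c22368 c22221 c5571 c20297 c2471 c5643 c12653 (k8 c5654 c20764 c5670 c5537 c22337 c5653 c22138 c331 (k4 c1763 c5649 c808 c18705 k0)))))) (by decide +kernel)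
def c22532 : PP 9 3 T 0x40000000000000000000120040000000000000000000000000000000000000000000000000000000000000000000010802040000000000000000000000004 := rS 0xaf0eb4bde45138a562ad78a841a47102cf6d4b05094871d6aa00fe11ac4a7c6192d06c6406003276005 (k8 c21870 c22526 c5396 c5642 c22531 c673 c2043 c672 (k8 c22508 c22507 c19356 c5216 c5558 c676 c5670 c20766 (k8 c5341 c5561 c5559 c665 c5516 c22221 c5574 c666 (k8 c2422 c5522 c5398 c22468 c5573 c5421 c5417 c5570 (k4 c22529 c22356 c10702 c1994 (k2 c2940 c3582 k0)))))) (by decide +kernel)
def c22533 : PP 9 3 T 0x120040000000000000000000000000000000400000000000000000000000000000000000000002000000000000000000000000002 := rS 0x207ecd9915a4f50dbdc645a3b337c0c76aa00fe063e846b08f9db3de3e30cb250f291b98cf2993d986226b23acc9227db0ec4093d852de60a (k8 c665 c20781 c5516 c22526 c5444 c666 c340 c22221 (k8 c5570 c344 c5574 c2422 c64 c160 c5445 c742 (k8 c5447 c2428 c5395 c20063 c19356 c5373 c5396 c22508 (k8 c22507 c22468 c22406 c22368 c2432 c5216 c5558 c22530 (k8 c22531 c676 c5670 c20766 c940 c22099 c5537 c20823 (k8 c672 c673 c2101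 c2043 c2046 c939 c390 c17812 (k2 c5657 c2087 (k1 c18724 k0)))))))) (by decide +kernel)
def c22534 : PP 9 3 T 0x4002000000000000000220000000000000000000000000000000100000080000000040000000000000000000000000002000000000000010000000000002 := rS 0x69335c3e30c8dcc6794c9ecc311358ec4093d87b367b69dd2c15b5 (k8 c5529 c665 c5516 c22368 c22221 c19230 c5228 c22526 (k8 c5444 c666 c340 c64 c160 c5445 c742 c5447 (k8 c2428 c5395 c20063 c22508 c22507 c5460 c5537 c22048 (k1 c2087 k0)))) (by decide +kernel)
def c22535 : PP 9 3 T 0x20040000000000000000000000000000000400000000000000000000000000000000000000002000000000000000000000000002 := rS 0x3f825c638f0b7c6a310e4744b58817bfe6ff80fb3668dd012f6ab156a44e28f9da550e0d948dcc6794c9ecc3113591d664913ed8762049ec2960a (k8 c665 c5516 c22526 c5444 c666 c340 c22221 c5570 (k8 c344 c5574 c2422 c64 c160 c5445 c742 c5447 (k8 c2428 c5395 c20063 c19356 c5522 c5373 c5446 c22368 (k8 c2432 c5571 c746 c5573 c5421 c5529 c2588 c22533 (k8 c5381 c19230 c5228 c5502 c5544 c20903 c22448 c20819 (k8 c5660 c20674 c5341 c18461 c1996 c331 c14614 c22534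 (k4 c5654 c4735 c273 c10493 (k1 c22497 k0)))))))) (by decide +kernel)
def c22536 : PP 9 3 T 0x100100000080000000080000000000000000000000000002000000000000010000000000082 := rS 0x1d660c277b0 (k4 c22526 c22368 c14614 c2516 (k2 c4418 c20134 k0)) (by decide +kernel)
def c22537 : PP 9 3 T 0x20040000000000000000000000000000000000000000000000000000000000000000000000002000000000000200000008000004 := rS 0x3ba5cce1dd87cc6af33e818143dac6862400f18665205 (k8 c21870 c19356 c22508 c22507 c5642 c22535 c5382 c5216 (k8 c5560 c665 c2471 c1456 c20781 c439 c5547 c22526 (k4 c57 c1903 c1074 c22532 (k1 c20822 k0)))) (by decide +kernel)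
def c22538 : PP 9 3 T 0x100040000000000000000000000000100000000000000000000000000000000000000000010002000000000000000000014000002 := rS 0x22abcce2714ac55bb69dbc44a438ed63c619 (k8 c22508 c22507 c5216 c5341 c5561 c5559 c22468 c22368 (k8 c22221 c5573 c5421 c5417 c5570 c664 c10145 c22529 (k1 c3582 k0))) (by decide +kernel)
def c22539 : PP 9 3 T 0x1000000000000000020040000000000000000000000000000000000000000000000000000000000000000000000002000000000000000000000000004 := rS 0x1ecd987037036f200fa7f030d5c6c61c6d676f11b98cf2993d986226b2489f6c3b1024f614b798287b1dac6862400f18665205 (k8 c21870 c19356 c22508 c22507 c5642 c22535 c5382 c5216 (k8 c5341 c5560 c665 c20781 c5516 c22526 c5444 c666 (k8 c340 c22221 c5570 c344 c64 c160 c5445 c742 (k8 c5447 c2428 c5395 c20063 c22468 c22368 c5529 c5654 (k8 c22099 c4735 c439 c2471 c810 c1456 c5670 c941 (k4 c22536 c22537 c22538 c5486 (k2 c5228 c18724 k0))))))) (by decide +kernel)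
def c22540 : PP 9 3 T 0x400000000000000100000000000000000200000000000100000000000000000000411000000000000000000040002000000000000101000020000002 := rS 0x204fa5f69827df02197b06a457a86f67b50f9c4e73b788dcc6794c9ecc3113591d664913ed8762049ec296f30510e3a4b37894ae05 (k8 c21870 c21872 c5559 c1060 c5342 c5341 c5561 c665 (k8 c20781 c5516 c22526 c5444 c666 c340 c22221 c5570 (k8 c344 c5574 c2422 c64 c160 c5445 c742 c5447 (k8 c2428 c5395 c20063 c22468 c22368 c5419 c5571 c2316 (k8 c5529 c5486 c57 c1999 c335 c331 c5228 c18037 (k8 c18724 c17892 c20738 c2087 c1055 c20827 c20909 c18032 k0)))))) (by decide +kernel)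
def c22541 : PP 9 3 T 0x20040000000000000000000000000000000000000000000000000000000000000000000000002000000000000000000000000004 := rS 0x719f0ce1d6b8c4fe76efb3472e168b1fc04b208f6b1a1f9c491ecff1866520a1b98cf2993d986226b23acc9227db0ec400049ec0ae05 (k8 c21870 c21872 c22526 c5444 c5642 c666 c340 c22221 (k8 c5570 c344 c5574 c2422 c64 c160 c5445 c742 (k8 c5447 c2428 c5395 c20063 c665 c19356 c22508 c22507 (k8 c22406 c2432 c22535 c5547 c5382 c5216 c5560 c5340 (k8 c5342 c22539 c5535 c5459 c5460 c5534 c5537 c22337 (k8 c20823 c809 c1913 c2188 c22540 c664 c22532 c1551 (k1 c22133 k0))))))) (by decide +kernel)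
def c22542 : PP 9 3 T 0x20000000000000000000000000000000000000000000000000000000000000000000000000002000000000000000000000000004 := rS 0xf0b1f254b1d828400067a4f6005 (k8 c21870 c22526 c5444 c22406 c5642 c666 c665 c340 (k4 c5516 c22541 c5357 c20907 (k1 c22099 k0))) (by decide +kernel)
def c22543 : PP 9 3 T 0x20000000000000000000000000000000000000000000000000000000000000000000000000002000000000000000000000000000 := rS 0x6b8c518173b1bc0e7e409f4891d208f42358c9e84ce9757ec83602949c5967358ab76d3b78f8c329350b276057 (k8 c21872 c22526 c5396 c5398 c5444 c22508 c22507 c22468 (k8 c22368 c22221 c5573 c5421 c5419 c5420 c5571 c19356 (k8 c22542 c20794 c22131 c5406 c5404 c5487 c19230 c18631 (k8 c5216 c5558 c5560 c5340 c5341 c17812 c21924 c21925 (k8 c5670 c676 c2919 c20444 c1108 c20843 c1913 c14269 (k1 c808 k0)))))) (by decide +kernel)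
def c22544 : PP 9 3 T 0x100000000000000000000000000000000000000000000002000000000000000000000000000 := rS 0x6b8c518173b1bc0e7e409f4891d208f4235838b2ce6b156f8c329350b2436af4b99f43b6c9ec80401cec476af19dec0ae05 (k8 c21870 c21872 c22526 c22368 c22468 c5529 c160 c22543 (k8 c17712 c5642 c22131 c18631 c22221 c19230 c5487 c5404 (k8 c5406 c20794 c5396 c5398 c5444 c22508 c22507 c5573 (k8 c5421 c5419 c5420 c5571 c5216 c5558 c5560 c5340 (k8 c5341 c17812 c21924 c21925 c5670 c676 c2919 c20444 (k4 c1108 c20843 c1913 c14269 (k1 c808 k0))))))) (by decide +kernel)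
def c22545 : PP 9 3 T 0x2000000000000000000000000000 := rS 0x884320bfe07ef464495476f9f818ed13ef7eb2341e85c7e339421fdb93d0aa4ce9757ec8360b248ec054a00e74f27b4ca54c29b64a8527b0f1865e2cf9da3d22ad589cc4ecb4facce3b67ec476a05 (k8 c21870 c5529 c160 c20782 c22221 c5571 c5574 c5572 (k8 c5420 c5570 c5419 c5421 c5573 c746 c2432 c22368 (k8 c22406 c22468 c22508 c22507 c22526 c5444 c5398 c5396 (k8 c5397 c5445 c5446 c5447 c742 c2428 c22543 c17712 (k8 c5211 c5642 c5332 c5334 c5516 c20794 c22131 c5406 (k8 c5404 c5487 c5489 c19230 c18631 c22160 c744 c22544 (k8 c5316 c5318 c5433 c5436 c17756 c17758 c19195 c12650 (k8 c1704 c22174 c5669 c7694 c22445 c18012 c5675 c20919 (k4 c22343 c2199 c20798 c22459 (k2 c12616 c5281 (k1 c9612 k0))))))))))) (by decide +kernel)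
def c22546 : PP 9 3 T 0x2000000000002000000000000000000000000000000000200000000000002000000000000000000000000000000400000000000000000000100000000 := rS 0xf3453a3b4da64479d (k8 c19356 c9733 c5447 c5397 c5456 c5458 c5459 c18438 (k1 c19607 k0)) (by decide +kernel)
def c22547 : PP 9 3 T 0x5000000000000000100040000000000000100000000000200000000000000000000000000000000000000000200000000000000000000000000000008 := rS 0xf40a3cb1e96e389fc80221ce8440e6d (k8 c22545 c5432 c699 c19356 c266 c28 c5188 c5547 (k4 c5549 c16594 c940 c1750 (k2 c17869 c5669 (k1 c690 k0)))) (by decide +kernel)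
def c22548 : PP 9 3 T 0x2000000000002000100000000000000000100000000000200000000000000000000000000000000000000000000000000000000000000000100000000 := rS 0x14bf9a7532390b88f3bb6 (k8 c5212 c19356 c9733 c5433 c5317 c5447 c5458 c7694 (k2 c17923 c5221 k0)) (by decide +kernel)
def c22549 : PP 9 3 T 0x1000000000000000100040000000000000100000000000200000000000000000000000000000000000000000200000000000000000000000000000008 := rS 0x1e3 (k2 c5463 c22547 k0) (by decide +kernel)
def c22550 : PP 9 3 T 0x2000110000000000000000100040000000000000000000000000040000000000000000000000000000000000000000000000000000000 := rS 0x1f2da28597b6 (k4 c5212 c5420 c5398 c5211 (k2 c5221 c17766 k0)) (by decide +kernel)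
def c22551 : PP 9 3 T 0x40000000000000100000000000200000000000000000000440000000000000000100150400001000000110000002000000108 := rS 0x10c69ef9db51e21b1981c7a57 (k8 c21872 c5436 c5432 c5316 c20794 c10414 c20751 c20881 (k4 c20761 c19920 c2778 c5281 k0)) (by decide +kernel)
def c22552 : PP 9 3 T 0x2000100040000000000000100000000000200000000000000000000000000000000000000000040000000000000000000000000000008 := rS 0x1ed80ecd0cccef9da288d04aa5207a357cd1f134e6d48e0b1dd28dc246fb4dae41f106d3e614c8e42e2355e76222913ed88a1040f84427d1e805266d (k8 c22545 c5444 c28 c5436 c21924 c266 c22548 c22549 (k8 c18893 c20747 c5212 c5570 c8199 c9730 c19356 c20861 (k8 c9733 c5433 c5317 c5447 c5445 c5448 c20794 c5670 (k8 c5462 c5465 c5579 c5580 c18620 c1113 c22550 c5332 (k8 c5516 c5520 c9578 c17923 c703 c2751 c19019 c5665 (k8 c8792 c5675 c20804 c1684 c10035 c3038 c22551 c5493 (k4 c890 c889 c18673 c2077 (k2 c5499 c9222 k0)))))))) (by decide +kernel)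
def c22553 : PP 9 3 T 0x10040000000000000000000000000000000000000000000080000000000000000400000004000000000000000000000080020008 := rS 0xc7479a81a01 (k4 c28 c2362 c1111 c2752 (k2 c2482 c14796 k0)) (by decide +kernel)
def c22554 : PP 9 3 T 0x2000100040000000000000100000000000200000000000000000000000000000000000000000000000000000000000000000000000008 := rS 0x35a3d8c0d3c8e83ededa276967b8aa449625f91bfc6493f04c2081f0ad56671db084e7110086526a14da6472171b9f47a23ce8a41e6d (k8 c22545 c21871 c8199 c19356 c9733 c5436 c21924 c5435 (k8 c5433 c5317 c5447 c5397 c5398 c5444 c6205 c28 (k8 c9730 c9719 c266 c5212 c5571 c5574 c5422 c22548 (k8 c22549 c18893 c36 c22552 c17689 c5577 c2919 c5188 (k8 c1113 c5546 c5589 c5590 c891 c17941 c8792 c5211 (k8 c22550 c22553 c3578 c1536 c290 c5669 c2924 c2482 (k1 c18106 k0))))))) (by decide +kernel)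
def c22555 : PP 9 3 T 0x4000000000000000110040000000000000000000000000000000000000000000000000000000400000400000004000000000000400800005000000008 := rS 0x358796ac6f91e7c221118a41e6d (k8 c22545 c21871 c8199 c9733 c266 c5456 c1536 c5188 (k4 c5669 c5548 c17998 c2482 (k1 c1111 k0))) (by decide +kernel)
def c22556 : PP 9 3 T 0x2000100040000000000000000000000000200000000000000000000000000000000000000000084020000000000000000000000000008 := rS 0x37fe4c7051a83c3b47acf694b4e88622014da64721711e744a4123d6227e31384c7e6d (k8 c22545 c5318 c2917 c267 c5577 c755 c22554 c5562 (k8 c5340 c5559 c19356 c9733 c5433 c5317 c5447 c5397 (k8 c28 c9730 c266 c8792 c17923 c5211 c5532 c2874 (k8 c22555 c18438 c1111 c1112 c2482 c12878 c14796 c19019 k0)))) (by decide +kernel)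
def c22557 : PP 9 3 T 0x2000100040000000000000000000000000200000000000000000000000000000000000000000080020000000000000000000000000008 := rS 0x487c8f5e3 (k4 c5577 c22556 c8438 c891 (k1 c5589 k0)) (by decide +kernel)
def c22558 : PP 9 3 T 0x80000000000000002000000000000000000000200000000000200000000000000000440000400000000000000000000000000000000000000000000000000 := rS 0x297b570a84723f1ee74824b (k8 c5342 c5340 c19356 c5436 c5318 c5317 c5398 c5591 (k2 c17766 c17954 (k1 c5211 k0))) (by decide +kernel)
def c22559 : PP 9 3 T 0x40000000200000000000000000000000000000000000000000008800000000000000000000000000000 := rS 0x219999d (k4 c19356 c890 c889 c19804 k0) (by decide +kernel)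
def c22560 : PP 9 3 T 0x42000100000000000000000000040000000200000000000000000000440000000040001000100158000000000000000000008010000000 := rS 0x12cf19d99d5bdff7b50ee5f4fa542e05 (k8 c21870 c5433 c5446 c5448 c1686 c22559 c20751 c20761 (k4 c5454 c2890 c5282 c19060 (k2 c434 c20857 (k1 c19357 k0)))) (by decide +kernel)
def c22561 : PP 9 3 T 0x2000100040000000000000000000000000200000000000000000000000000000000000000000100000000000000000000000000000008 := rS 0x761f0602cf68d4852d669dda7cc24df69b8dae26f132cff13579c03a2139804329f4da64723f0b8dcfa3d11e744a41dbd6052a14983cda05 (k8 c21870 c22545 c21871 c5444 c5398 c8199 c22554 c19210 (k8 c5340 c5559 c19356 c9733 c5436 c21924 c5435 c5433 (k8 c5318 c5317 c5447 c5397 c5448 c6205 c28 c9719 (k8 c266 c20811 c18544 c20748 c755 c22557 c20621 c5670 (k8 c3579 c5465 c5466 c5579 c5580 c267 c22558 c5241 (k8 c5412 c5532 c9578 c10427 c10035 c22560 c12878 c5645 (k2 c9243 c290 (k1 c3578 k0)))))))) (by decide +kernel)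
def c22562 : PP 9 3 T 0x2000000000002000100000000000000000200000000000200000800000000000000000000000000000000100201000000000000000000000001000008 := rS 0x1df6bec99cf19da1cee010d88526c91981c2e318e9c4c20920814ae6d (k8 c22545 c21872 c21870 c5340 c1744 c5445 c751 c5341 (k8 c5434 c5433 c5432 c5316 c5396 c5444 c266 c20794 (k8 c28 c938 c958 c20881 c22546 c22445 c22131 c14269 (k2 c5453 c18608 k0)))) (by decide +kernel)
def c22563 : PP 9 3 T 0x4000000000000002000100000000000000000200000000000200000000000000000000400800000000000000000000010000000000000000000000000001 := rS 0xefec95ead589bb6e2950a4ce605 (k8 c21870 c9719 c5444 c5398 c8199 c19210 c5666 c20792 (k4 c20758 c1247 c5683 c19195 (k1 c18608 k0))) (by decide +kernel)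
def c22564 : PP 9 3 T 0x22000100040000000000000000000000000200000000000000000000000000000000000000000000000000000000000000000000000008 := rS 0x21d9e7780b5bde8c7fc4be6d1f037d8e79479a8143b0f034f74b8aa74429b1b88f3a4b23f8cfeb32f3284e192085c7e3d12a7cdc71401876f5814a8526730083c0a6d (k8 c22545 c21870 c21871 c28 c9719 c5444 c5398 c8199 (k8 c22554 c19210 c5445 c22561 c751 c5666 c5448 c5559 (k8 c5436 c5318 c5433 c5340 c6205 c268 c3579 c1144 (k8 c2820 c194 c5463 c5562 c5342 c19356 c9733 c5435 (k8 c5397 c266 c5412 c5414 c9578 c1686 c18082 c18850 (k8 c22555 c5645 c1111 c2311 c2307 c2482 c14796 c5669 (k8 c20815 c19019 c12878 c20798 c22562 c5505 c22563 c2145 (k4 c2188 c1770 c959 c22445 k0)))))))) (by decide +kernel)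
def c22565 : PP 9 3 T 0x2000100040000000000000000000000000200000000000000000000000000000000000000000000000000000000000000000000000008 := rS 0x5afca941fdab84bcb3651b84e71f1a036e47259044b5814884e6010ca4d3ea14d9847e171e88f3a6d (k8 c22545 c19356 c9733 c5436 c5433 c5318 c5445 c5397 (k8 c5398 c5448 c5444 c6205 c28 c9719 c266 c8199 (k8 c22554 c5559 c5340 c5342 c5562 c19210 c22561 c5463 (k8 c751 c268 c5666 c3579 c2820 c1144 c4264 c22564 (k4 c9664 c5211 c5241 c16343 (k1 c17998 k0)))))) (by decide +kernel)
def c22566 : PP 9 3 T 0x2000000040000000000000200000000000200000000000000000000000000000000000000000000000000000000010000000000000008 := rS 0x35fdfdf69a5c69b2f1bc6771d14844361d0ca4d3ea1649847e17188f44e13129bf4005 (k8 c21870 c22565 c5565 c1113 c5564 c267 c5436 c5434 (k8 c5433 c5318 c5445 c5396 c5398 c5448 c5444 c6205 (k8 c20811 c20794 c5558 c5339 c5341 c20946 c19633 c18620 (k8 c22131 c19920 c19357 c14403 c19195 c17816 c14269 c14487 k0)))) (by decide +kernel)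
def c22567 : PP 9 3 T 0x400440000000000a000000040000000000000000000000000200000000000000000000400000000000000000000000000000000000010000000000000008 := rS 0x16adef09e5c2cf80b47d9f3693fd66b16a9093bb48ecec8b4b1a2a4cefd4bbc55ead3186c3a210ca4d929b4aa642e3155c44028f8a8a2b3b71e894dfa011e741e6d (k8 c22545 c21871 c19356 c9733 c22565 c5565 c1113 c5436 (k8 c17815 c22566 c21947 c1289 c5568 c28 c9730 c20861 (k8 c5434 c5433 c5447 c5446 c5397 c5396 c5444 c6205 (k8 c266 c20811 c20794 c9752 c5490 c5406 c5401 c5404 (k8 c5405 c5487 c5489 c17756 c18673 c456 c21936 c552 (k8 c5211 c5855 c5281 c18677 c16651 c5532 c19756 c5689 (k8 c17868 c5171 c5501 c5502 c5543 c3062 c20870 c14406 (k2 c18204 c2514 (k1 c18111 k0))))))))) (by decide +kernel)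
def c22568 : PP 9 3 T 0x42000000000000000000000100000008000200000000000000000000000000000000000000000000000000000000000000000000000008 := rS 0x12d03d3f1383b63aa5ef4a3507f6af52dbcde21b0e88536991c85c46abcec44026d (k8 c22545 c28 c9730 c19356 c20861 c9733 c5433 c5317 (k8 c5447 c5397 c266 c20811 c20794 c5323 c5325 c5474 (k8 c5477 c20351 c9664 c5665 c5211 c8123 c20804 c2482 (k4 c5332 c17923 c3581 c8792 (k2 c1240 c1684 (k1 c19548 k0)))))) (by decide +kernel)
def c22569 : PP 9 3 T 0x4004000000000002000000040000000000000000000000000200000000000000000000400000000000000000000000000000000000010000000000000008 := rS 0x3bfb29dd676e2537e807a05 (k8 c21870 c5436 c22565 c5565 c1113 c17815 c22566 c22568 (k2 c5229 c19195 (k1 c22567 k0))) (by decide +kernel)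
def c22570 : PP 9 3 T 0x1000000000002000000040000000000000000040000000200000000000000000000000040000000001040000001000040000000000000000000000000 := rS 0x772f9e92b9d (k4 c19356 c5446 c5669 c10245 (k2 c22559 c20857 k0)) (by decide +kernel)
def c22571 : PP 9 3 T 0x2000000000000000000000000000000000200000000000000000000000000000000001000000002000000000000000000000000000008 := rS 0x3c0b1d885323711e741e6d (k8 c22545 c21871 c19356 c9733 c5435 c5447 c266 c1536 (k2 c2307 c18438 (k1 c1112 k0))) (by decide +kernel)
def c22572 : PP 9 3 T 0x800000000000000a000000040000000000000000000004000200000000000000000000000000000000000000000000000000000000000000000000000008 := rS 0x1e6f57b8799c3bf01e58fed3521d3bb4a5f7c68677ea5de2010d87442c94da642e3711e740a6d (k8 c22545 c21870 c19356 c9733 c5435 c5433 c5447 c5397 (k8 c5396 c266 c20811 c20794 c28 c5401 c5404 c5405 (k8 c5487 c17756 c19195 c18673 c5211 c5855 c19820 c20836 (k8 c15871 c2482 c22571 c22570 c5456 c14406 c18438 c501 (k2 c2339 c2533 (k1 c5657 k0)))))) (by decide +kernel)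
def c22573 : PP 9 3 T 0x200000000000000000000040000000000000000044040000000000000000000000000000000000000000001000000020080000008 := rS 0x4050e91230281a0146c4d1e0f (k8 c21871 c5568 c5382 c5381 c28 c2362 c1112 c1312 (k4 c13505 c693 c2791 c20762 k0)) (by decide +kernel)
def c22574 : PP 9 3 T 0x8000000000000000000200000000000000000100040000000200000000000000000000000000000000000000000008000000000005000000000000000000 := rS 0xf991cee0b03e751e0f (k8 c21871 c5568 c19356 c5432 c690 c22559 c5779 c20097 (k1 c5660 k0)) (by decide +kernel)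
def c22575 : PP 9 3 T 0x8000000000000002000000040000000000000000040000000200000000000000000000000000000000000000000000000000000000010000000000000008 := rS 0xf4807b50ef3052441ac63db8497e11d07cf29d10865269b4c8e42e3746c4d1e270992450b181bfdeef0d9ceeb3b7129bf403d11e741e6d (k8 c22545 c21871 c19356 c9733 c5436 c22565 c5565 c1113 (k8 c17815 c22566 c22568 c22572 c22131 c499 c5586 c5508 (k8 c5506 c21947 c509 c5564 c267 c5568 c5382 c5381 (k8 c5435 c5433 c5317 c5447 c5397 c5444 c6205 c266 (k8 c5855 c22571 c22573 c3578 c5456 c562 c6188 c22574 (k8 c5669 c290 c801 c5645 c20781 c693 c19744 c20762 (k2 c5657 c1928 k0))))))) (by decide +kernel)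
def c22576 : PP 9 3 T 0x4000000000046000200000000000000000100080004000200000100000002000000000000000000002000000000400000000000000000005000000000 := rS 0x1df79fb1363755e776a6d (k8 c22545 c9578 c19356 c20861 c5435 c5397 c19375 c5540 (k2 c17743 c19367 k0)) (by decide +kernel)
def c22577 : PP 9 3 T 0x8004000000000002000000040000000000000000000000000200000000000000000000000000000000000000000000000000000000010000000000000008 := rS 0x1f8ccf69d9527a352736b4a786cc429b4c8e42eab888044e138a8a0479d9dd676e2537e807a6d (k8 c22545 c5436 c22565 c5565 c1113 c17815 c22566 c22568 (k8 c19356 c9733 c21947 c1289 c5564 c267 c28 c9730 (k8 c20861 c5433 c5317 c5447 c5397 c266 c22572 c22131 (k8 c22575 c9578 c17923 c5665 c8792 c20804 c22576 c19378 (k2 c890 c5682 (k1 c2504 k0)))))) (by decide +kernel)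
def c22578 : PP 9 3 T 0x4000000000002000000040000000000000000000000000200000000000000000000000000000000000000000000000000000000010000000000000008 := rS 0x1a35b65ef0dceeb3b7129bf403d (k8 c5436 c22565 c5565 c1113 c17815 c22566 c22568 c20794 (k4 c22577 c5229 c22569 c17756 (k1 c1763 k0))) (by decide +kernel)
def c22579 : PP 9 3 T 0x4000000000000042000000000000000000000100000004000200000000000000000000440400000000000000000000000000000000010000020004000000 := rS 0xb16a90a3a451a3c7643d (k8 c5436 c5229 c5401 c17756 c456 c552 c5281 c18677 (k2 c1931 c17820 k0)) (by decide +kernel)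
def c22580 : PP 9 3 T 0x2000000040000000000000000000000000200000000000000000000000000000000000000000000000000000000010000000000000008 := rS 0xb5357cd39b5238ee95ee6fb4dc6d765f8a7628acedc36218880532390b8f4479d129bf406d (k8 c22545 c22565 c5565 c1113 c19356 c9733 c5436 c5433 (k8 c5317 c5447 c28 c9730 c266 c20794 c17815 c22566 (k8 c21947 c22568 c22578 c5464 c5465 c5466 c5579 c5580 (k8 c22579 c22575 c5332 c5520 c9578 c17923 c17862 c5665 (k2 c1342 c16719 k0))))) (by decide +kernel)
def c22581 : PP 9 3 T 0x8004000000000046000200000000000000000100080004000200001000000000000000000000000000000000000000000000000000000000000000000008 := rS 0xfcf6b3152763d1a939b510a6d32390b88d579d888044e13129bde06d (k8 c22545 c22131 c5565 c1113 c5564 c267 c28 c9730 (k8 c19356 c20861 c9733 c5433 c5317 c5447 c5397 c266 (k8 c9578 c17923 c5665 c8792 c22576 c20804 c890 c19378 (k2 c5682 c2504 k0)))) (by decide +kernel)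
def c22582 : PP 9 3 T 0x8005000000000000000200040000000000000100040000000200000000000000000400040040000000000000000011000000000001000000000000000000 := rS 0xe03f128ee7a1ce75028d (k8 c5381 c5380 c19356 c5317 c5669 c22559 c22574 c20761 (k2 c15375 c3059 k0)) (by decide +kernel)
def c22583 : PP 9 3 T 0x8001000000000000000200040000000000000000040000000200000000000040000400040000000000000000000011000000000001020000000000000000 := rS 0x1c3004392d220a06b18739d46c4d1fe3acc0dfe0f (k8 c21871 c5586 c5508 c5340 c5462 c5568 c5382 c5381 (k8 c19356 c5317 c22582 c2480 c5645 c13505 c2588 c693 (k2 c20762 c1715 (k1 c9158 k0)))) (by decide +kernel)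
def c22584 : PP 9 3 T 0x8000000000000000000200000000000000000100040004000200000000000040000000000000000000000000000000000000000001000000004000001000 := rS 0x3d7db0043bcd220acea36268f58c0dfe0f (k8 c21871 c5586 c5508 c5506 c5568 c5382 c5381 c19356 (k8 c5645 c13505 c20781 c693 c20762 c19744 c1928 c5657 k0)) (by decide +kernel)
def c22585 : PP 9 3 T 0x8000000000000042000000040000000000000000000004000200000000000000000000000000000000000000000000000000000000000000000000000008 := rS 0xf6401a2e06f928be7a7a82c18d271f8474790fa769715248a0421949a6d32390b8dcfa3d1384c4a6fd078eb24081bfdeef0d988f3a6d (k8 c22545 c19356 c9733 c22572 c22131 c499 c5586 c5508 (k8 c22580 c5340 c5462 c22565 c5565 c1113 c5564 c267 (k8 c5436 c21924 c5435 c5433 c5317 c5447 c5397 c5444 (k8 c6205 c266 c13854 c509 c1289 c22581 c5855 c22573 (k8 c22571 c3578 c5456 c1774 c22583 c22584 c34 c20810 (k8 c290 c1686 c22574 c2510 c15375 c2136 c3062 c19752 (k1 c5502 k0))))))) (by decide +kernel)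
def c22586 : PP 9 3 T 0x9004000000000002000200000000000000000100040004000200000000000040000000000000001400000000000000000000000001000000010001000008 := rS 0x777038fc2cd6812874f26387c8ef506005269b4c8e46e8f1384c4a6f4e88c42178aed33a6d (k8 c22545 c19356 c5211 c5414 c5433 c266 c9733 c5855 (k8 c5565 c1113 c5564 c267 c5568 c5435 c5317 c5447 (k8 c5397 c5444 c28 c22584 c20810 c2367 c2362 c2480 (k8 c5657 c3578 c3584 c449 c2500 c5456 c1774 c15375 (k2 c2132 c19374 k0))))) (by decide +kernel)
def c22587 : PP 9 3 T 0x8000000000000082000200000000000000000000040004000200000000000040000000000000000000000000000000000000000000020000000001020008 := rS 0x7abcd2048f6ed33be3acacc52b5 (k8 c5422 c5417 c5574 c5340 c5462 c19356 c5211 c17711 (k4 c22586 c3026 c3733 c10333 (k1 c5657 k0))) (by decide +kernel)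
def c22588 : PP 9 3 T 0x8000000000000002000000040000000000000000000004000200000000000000000000000000000000000000000000000000000000000000000000000008 := rS 0xfd2853b6083dde1b310864479d1384c4a6fd0564806d (k8 c22545 c22580 c5340 c22565 c5565 c1113 c5564 c267 (k8 c19356 c9733 c6205 c266 c22572 c22131 c499 c19633 (k4 c22585 c5417 c22587 c5517 (k1 c19632 k0)))) (by decide +kernel)
def c22589 : PP 9 3 T 0x8000000000000002000000040000000000000000000000000200000000000000000000000000000000000000000000000000000000000000000000000008 := rS 0x14eda74af22c743a2537e82b240 (k8 c22580 c5340 c22565 c5565 c1113 c20811 c5504 c5582 (k4 c5584 c22588 c22568 c5417 (k1 c17885 k0))) (by decide +kernel)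
def c22590 : PP 9 3 T 0x2000000000000000000000100000008000200000000000000000000000000000000000000000000000000000000000000005000000008 := rS 0xef25b6c357886c3a31 (k8 c5434 c20811 c20794 c5323 c5324 c22568 c17904 c18443 (k1 c5452 k0)) (by decide +kernel)
def c22591 : PP 9 3 T 0x2000000000000000000000100080000000200000000000000000000000000000000000000000000000000000000000000015100000000 := rS 0x1f (k2 c5517 c19632 k0) (by decide +kernel)
def c22592 : PP 9 3 T 0x2000210000000000000000000040000000000000000000000000000000400001400000000000001010000800000004140014141400000 := rS 0x121c69063037c26b1d24d3e9b4cc4f687b4e88c1e05 (k8 c21870 c21871 c9733 c5855 c1686 c5211 c5382 c5447 (k8 c5397 c5448 c5444 c3578 c18004 c5456 c290 c6192 (k4 c17856 c2619 c13505 c18013 k0))) (by decide +kernel)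
def c22593 : PP 9 3 T 0x82000000040000000000000000000000000200000000000000000000000000000000000000000000000000800000000000000000000008 := rS 0x3dbf37e37c3c7b0ca8536391f8dce2b365ad421ef786ce77b43ca769629ac9004a6f1384f4023ce8842e6d (k8 c22545 c5433 c266 c19356 c9733 c22565 c5564 c267 (k8 c5565 c1113 c22580 c5340 c5417 c22591 c5855 c22571 (k8 c5211 c22590 c19230 c22131 c22589 c19654 c5422 c5420 (k8 c5574 c5571 c5435 c5318 c5317 c5397 c5398 c6205 (k4 c1686 c22592 c22553 c1215 (k2 c17766 c5542 (k1 c5171 k0))))))) (by decide +kernel)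
def c22594 : PP 9 3 T 0x82000000040000000000000000000000000200000000000000000000000000000000000000000000000000000000000000000000000008 := rS 0x8cf2f97b6061f7a9f8bea98aed296d2efbfd5ed76a909ef1d22bc021b35aac452cb599c442a14da5462371e88f3a8ff1fbe775920094de2709e801e6d (k8 c22545 c21871 c22565 c5564 c267 c5565 c1113 c22580 (k8 c5340 c22590 c22589 c5462 c5568 c19356 c9733 c5436 (k8 c5435 c5434 c5446 c5397 c5398 c266 c5571 c5574 (k8 c5420 c5417 c5421 c5422 c19230 c19654 c22131 c20747 (k8 c551 c499 c5658 c18677 c1933 c2776 c19756 c17832 (k8 c5689 c22591 c5211 c5414 c5531 c22593 c17744 c19755 (k4 c1216 c16948 c17841 c5171 (k2 c5657 c17998 (k1 c2536 k0))))))))) (by decide +kernel)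
def c22595 : PP 9 3 T 0x2000000040000000000000000000000000200000000000000000000000000000000000000000000000000000000000000000000000008 := rS 0x1e6f5f6bdc3cce668efc0c7351e50e9dda52fbe345499dfa9778ecb6f3bf7d648025139bc27a05588f3a370b86c3a2188805929b4aa64da05 (k8 c21870 c22545 c5447 c5446 c5397 c5396 c28 c9730 (k8 c266 c20811 c20794 c5433 c5435 c19356 c9733 c20861 (k8 c22565 c5564 c5565 c267 c1113 c22580 c5340 c22589 (k8 c22590 c22594 c5229 c5401 c5404 c5405 c5487 c5489 (k8 c17756 c19195 c18673 c5211 c5855 c19820 c22571 c20788 (k8 c2482 c22570 c5456 c5537 c14406 c18438 c501 c18006 (k2 c2339 c2533 (k1 c5657 k0)))))))) (by decide +kernel)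
def c22596 : PP 9 3 T 0x42000000040000000000000100040000000000000000000000000000000000000000000000000000000000000000000000000080000008 := rS 0x1fdc679031041232efec86a3178bd9ff038efb9c2d13d8ee77e0da37fe6c7cea4492b454828d44b4eaac1b15118043ac94da5533293ea06268f1f8a04a6fd0064ae0f (k8 c21871 c21872 c6205 c5212 c5565 c1113 c21947 c404 (k8 c5568 c5382 c5380 c21929 c22595 c5447 c5446 c5397 (k8 c5396 c20811 c28 c152 c15434 c2362 c4014 c4013 (k8 c2591 c1111 c1112 c2320 c1311 c509 c13505 c5523 (k8 c2482 c5548 c2514 c5211 c5215 c20351 c5456 c5457 (k8 c5459 c5460 c21607 c5504 c5508 c5586 c22573 c499 (k8 c2105 c501 c22131 c16230 c5653 c20738 c544 c20297 (k4 c2308 c18209 c677 c3610 k0)))))))) (by decide +kernel)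
def c22597 : PP 9 3 T 0x2000000000000000000000000000000000100040000000100100400000080000000000000000000000000400150000000000001014000000000000080 := rS 0x1c6794892c1ac73db85be0f (k8 c21871 c5538 c5460 c5457 c5535 c20809 c564 c13505 (k2 c1455 c18209 (k1 c3610 k0))) (by decide +kernel)
def c22598 : PP 9 3 T 0x9006000000000000000200040000000000000100040004000100000000000000000000008000000000000000000010000000000001014000000000000000 := rS 0x34cee33793ddea061a9fc123c40a36268f1cc75aa57 (k8 c21872 c5585 c5504 c5534 c5568 c5382 c5381 c5380 (k8 c5655 c20146 c2765 c1623 c5643 c2340 c22597 c5657 (k4 c387 c673 c2769 c20761 k0))) (by decide +kernel)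
def c22599 : PP 9 3 T 0x8002000000000062000000040000000000000100040004000000000000000001000000008000000000000000000000000000000000000000000000000008 := rS 0x8735bdc1434040cc2e3103903c6d78e8043693949f5023f0c9244628129bf403b7e8743ead33fb52fb24db25329554aad3acd (k8 c5537 c5412 c5413 c5531 c5446 c5447 c5396 c5397 (k8 c22131 c5404 c18006 c5487 c5490 c22596 c20811 c20237 (k8 c5456 c5212 c5565 c1113 c21947 c5409 c509 c6205 (k8 c404 c5380 c21929 c22595 c5444 c20794 c28 c5504 (k8 c5507 c22132 c22598 c1734 c1738 c1737 c544 c22483 (k4 c3577 c13533 c501 c2305 (k2 c693 c20831 k0))))))) (by decide +kernel)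
def c22600 : PP 9 3 T 0x62000010040000000000000100040004000000000000000001000000000000000000000000000000000000000000000000000000000008 := rS 0x2d1c7f2f17bfdbdf6725f649f50b2536954ca7556a970b37c129 (k8 c22595 c5215 c5537 c5460 c5531 c5413 c5412 c5447 (k8 c5446 c5397 c5396 c5398 c5448 c22131 c5404 c20696 (k8 c16230 c18006 c22599 c5166 c5171 c5466 c19797 c5548 k0))) (by decide +kernel)
def c22601 : PP 9 3 T 0xa000000000022000000000000000000000100040000000000000000000000000000000000000000000000000000000000000001000080000040000000 := rS 0x11c97f35a38d969f50a6dc2df (k8 c5538 c5460 c5397 c5398 c5448 c5464 c5466 c19797 (k4 c17766 c2592 c2345 c5660 k0)) (by decide +kernel)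
def c22602 : PP 9 3 T 0x8002000000000000000010000000000000000100040000000100000400000040000000000000000000000504500000000000000000024080005001400000 := rS 0x2181491809187a0f (k8 c21871 c187 c1741 c19690 c2785 c5779 c20818 c693 k0) (by decide +kernel)
def c22603 : PP 9 3 T 0x8000000000000022000210040000000000000100040000000100000000000040000000000000000000000000000010000000000001004004005140400000 := rS 0x1d80cd33f8247841f18d832934da65028d89a3c469d1d8e7c057 (k8 c21872 c5215 c5534 c5456 c5412 c5409 c5568 c5382 (k8 c5381 c5380 c5447 c5397 c5444 c6205 c3578 c22601 (k8 c22602 c5655 c20146 c2765 c2769 c5643 c20761 c673 k0))) (by decide +kernel)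
def c22604 : PP 9 3 T 0x62000010040000000000000100040004000000000000000000000000000000000000000000000000000000000000000000000000000008 := rS 0x7f699dc0c300b7b866f7d9bc043293ea051a27098fc321f2488c502537e80ae6d (k8 c22545 c21872 c5212 c5565 c1113 c21947 c5409 c509 (k8 c22596 c6205 c404 c5564 c267 c5381 c5380 c21929 (k8 c22595 c266 c22600 c5401 c499 c385 c5229 c22603 (k4 c1214 c1108 c1913 c1919 (k2 c677 c20761 k0))))) (by decide +kernel)
def c22605 : PP 9 3 T 0x62000000040000000000000100040004000000000000000000000000000000000000000000000000000000000000000000000000000008 := rS 0x679dc82060482fc6cd7978066f77af7de100f6fbb667948a1f384911806527d40a36268f1f8a04a6fd00643e57 (k8 c21872 c22596 c6205 c5212 c5565 c1113 c21947 c404 (k8 c5568 c5382 c5381 c5380 c21929 c22595 c28 c5409 (k8 c509 c22604 c5373 c5374 c5524 c18383 c20392 c18382 (k8 c20818 c22131 c19313 c1928 c499 c385 c19718 c5657 (k8 c5537 c17754 c20781 c13533 c5643 c1734 c673 c22598 (k1 c20823 k0)))))) (by decide +kernel)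
def c22606 : PP 9 3 T 0x42000000040000000000000100040004000000000000000000000000000000000000000000000000000000000000000000000000000008 := rS 0x31781277198d4ce97ef6c82fedf7fc8459cda804c295949f503131f8a04a6fd00643e57 (k8 c21872 c22596 c6205 c5212 c5565 c1113 c21947 c404 (k8 c5382 c5380 c21929 c22595 c5446 c5445 c28 c22605 (k8 c5211 c6197 c5231 c18955 c20903 c18064 c5229 c20384 (k8 c5404 c5487 c5450 c5492 c5493 c22161 c20857 c5643 (k1 c1450 k0))))) (by decide +kernel)
def c22607 : PP 9 3 T 0x42000000040000000000000100040000000000000000000000000000000000000000000000000000000000000000000000000000000008 := rS 0x3b66a71a3df55258cea956bf82fedf7924963935a450ff211671faafda8c5e63578ce83e1b0ec4402c9949f5028d898fc502537e80326d (k8 c22545 c6205 c5212 c5565 c1113 c21947 c404 c5382 (k8 c5381 c5380 c21929 c22595 c5396 c28 c9730 c20811 (k8 c20794 c22596 c22606 c5323 c5324 c5325 c5476 c20351 (k8 c1243 c13351 c5211 c6197 c5231 c5373 c5374 c5523 (k8 c395 c5546 c5588 c18955 c20903 c18064 c20897 c2893 (k8 c2453 c5282 c21936 c20788 c5452 c1709 c1284 c2075 (k2 c6899 c13264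 k0))))))) (by decide +kernel)
def c22608 : PP 9 3 T 0x4000000000000040000020000000000000000100080000000000000000000000000000000000000000000000000000000000000000000000000000000008 := rS 0xd96d7413b (k4 c18477 c5212 c20392 c5229 (k1 c22198 k0)) (by decide +kernel)
def c22609 : PP 9 3 T 0x52000020040000000000000100000000000000000000000000000000000000000000000000000000000000000000000000000000000008 := rS 0x34860771a818fedf5a2cd5633786cc42934da66527d408fc323b0f8de2a2314094de0d9db5dabdff9c03dd4a89a3d228dd021cae6d (k8 c22545 c21872 c5373 c5212 c5381 c5374 c5568 c5382 (k8 c22607 c22608 c20818 c18955 c19313 c5585 c5507 c18477 (k8 c5522 c5565 c1113 c21947 c5331 c1289 c5518 c5517 (k8 c5332 c6205 c404 c5380 c21929 c22595 c5447 c5397 (k8 c5444 c266 c22198 c22131 c385 c1281 c2901 c5685 (k8 c2514 c16434 c16435 c20806 c673 c5653 c20751 c1919 k0)))))) (by decide +kernel)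
def c22610 : PP 9 3 T 0x42000020040000000000000100000000000000000000000000000000000000000000000000000000000000000000000000000000000008 := rS 0x348607719bc0fe35d981b69df6ab5fdd3b06ca4fa81468fc502537e80334a (k8 c22607 c6205 c5212 c5565 c1113 c21947 c404 c5381 (k8 c5380 c21929 c22595 c5522 c18477 c22608 c5507 c5585 (k8 c19313 c22609 c13501 c18383 c20806 c677 c22131 c385 (k4 c673 c5653 c20751 c1919 k0)))) (by decide +kernel)
def c22611 : PP 9 3 T 0x8000000000000000000000040000000000000000000000000100000000000000000000000000000000000000100110000000000000004002000000000000 := rS 0xfc06699dc1257 (k4 c21872 c20764 c1913 c1919 (k2 c5643 c20761 (k1 c677 k0))) (by decide +kernel)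
def c22612 : PP 9 3 T 0x8000000000000000000200000000000000000100000004000000000000000010000100002080000000000000004000000000000000000000000000000000 := rS 0x10148c748aff (k4 c5586 c5582 c5504 c801 (k2 c2078 c20935 k0)) (by decide +kernel)
def c22613 : PP 9 3 T 0x8000000000000000000210040000000000000100080004000100000000000000000000000000000000000000000000000000000000004220000000000000 := rS 0x10069a47c4df7021d8c7b043307a077ac748ad57ff84f257 (k8 c21872 c2382 c5534 c5586 c5585 c5582 c5504 c5519 (k8 c20806 c1623 c440 c5643 c17741 c5669 c2074 c22612 (k4 c175 c16773 c17865 c5579 (k2 c20935 c2077 k0)))) (by decide +kernel)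
def c22614 : PP 9 3 T 0x46000000040000000000000100000004000000000000000000000000000000000000001000000000000000000000000000000000000008 := rS 0x8780a458ce1040f7c6073f34cefde1ab8fc2380b8c466ff6a9163af0f7085269b4cca4fa81468fc502537e80323b0f88c6ef5a5674ae6d (k8 c22545 c21872 c22610 c22607 c5519 c5518 c5331 c5517 (k8 c5332 c6205 c5212 c5565 c1113 c21947 c404 c5381 (k8 c5380 c21929 c22595 c5447 c5397 c5444 c266 c5229 (k8 c22131 c5504 c5582 c5585 c5586 c385 c22611 c1214 (k8 c3578 c5534 c2618 c22613 c5653 c5493 c5496 c20821 (k8 c20914 c20727 c2765 c5643 c16773 c274 c801 c9158 (k2 c798 c20935 k0))))))) (by decide +kernel)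
def c22615 : PP 9 3 T 0x10040000000000000000000000000000000000000008000000000000000000000000000000000000000000000008000000000000 := rS 0xf27b030e19c57 (k4 c21872 c388 c387 c20297 (k2 c20767 c2382 (k1 c8203 k0))) (by decide +kernel)
def c22616 : PP 9 3 T 0x2a000010040000000000000000000004000100000000000000000000000000000000000000000000000000000000000054000000000401 := rS 0x17cee7963f840ccf04b24c2954ea5cce57 (k8 c21872 c5487 c5404 c5412 c5446 c5445 c5396 c22161 (k8 c20518 c5643 c14406 c674 c1454 c673 c10245 c20857 k0)) (by decide +kernel)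
def c22617 : PP 9 3 T 0x62000000040000000000000100000004000000000000000000000000000000000000000000000000000000000000000000000000000008 := rS 0x1ad0ec6660e0f6080b81c68337919dfaf1d92a53a1b0e88432934da66523b0f88dee0b1bbd694abcec44026d (k8 c22545 c28 c9730 c22610 c20861 c22607 c5519 c5518 (k8 c5516 c5333 c5331 c5517 c5332 c22595 c5447 c5397 (k8 c5444 c6205 c266 c20811 c20794 c5412 c5531 c22614 (k8 c5401 c5405 c5487 c3581 c22615 c22616 c20806 c1620 (k8 c22483 c17741 c3578 c15161 c274 c2074 c2482 c20788 k0))))) (by decide +kernel)
def c22618 : PP 9 3 T 0x12000010040000000000000000000000000100000000000000000000000000000000000000000000000800000000000020000004000000 := rS 0xf6080b81c0a57 (k4 c21872 c21870 c20806 c1620 (k2 c5643 c17741 (k1 c17857 k0))) (by decide +kernel)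
def c22619 : PP 9 3 T 0x12000010040000000000000000000000000000000000000000000000000000000000000000000000000000000000000000000000000048 := rS 0xf6080bca4d51100814ae6d (k8 c22545 c21872 c21870 c28 c9730 c5665 c22595 c1108 (k2 c5643 c17741 (k1 c17857 k0))) (by decide +kernel)
def c22620 : PP 9 3 T 0x42000000040000000000000100000004000000000000000000000000000000000000000000000004000000000000000000000000000008 := rS 0xcd9cf27ea5de3b2f02743a2164a55321f11bddeaab54b1d36353544403290d9e40db5ce8de946d (k8 c22545 c22607 c5518 c22610 c22617 c22619 c1454 c20794 (k8 c22595 c28 c9730 c5665 c22618 c5397 c2482 c20804 (k8 c20861 c5519 c5333 c5331 c5517 c5447 c5446 c5396 (k8 c266 c20811 c8792 c5669 c22614 c5401 c5404 c5405 (k4 c3581 c18012 c22615 c20518 k0))))) (by decide +kernel)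
def c22621 : PP 9 3 T 0x100000000000a000000000000000000000100000000000100000000000008000400000000000000000000100110000000000000404004020000000080 := rS 0x6b475a6df6af8c78ca0b178ce974a904fe77 (k8 c673 c677 c1734 c5446 c5404 c5487 c20857 c1450 (k8 c1307 c1308 c5464 c1660 c2770 c2769 c8251 c20751 (k1 c18221 k0))) (by decide +kernel)
def c22622 : PP 9 3 T 0x42000000040000000000000100000004000000000000000008000000000000000000000000000000000000000000000004000000000008 := rS 0x27367ed4d9f51a270991d571100b8c8281948de943f14094dfa00cf84f477036d73a6d (k8 c22545 c22610 c22617 c22619 c673 c22620 c5457 c6205 (k8 c5212 c5565 c1113 c21947 c404 c22607 c5518 c22595 (k8 c5380 c1734 c18213 c28 c9730 c20861 c5520 c5564 (k8 c267 c5381 c21929 c5397 c5540 c22621 c22614 c19375 k0)))) (by decide +kernel)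
def c22623 : PP 9 3 T 0x44000000040000000000000100000004000100000000000000000000000000000000000000000050000000000000004014000000000000 := rS 0x77c62d5f72051ba0 (k8 c5212 c5381 c5380 c5229 c21680 c22611 c20759 c5653 k0) (by decide +kernel)
def c22624 : PP 9 3 T 0x42000000040000000000000100000004000000000000000000000000000000000000000000000000000000000000000004000000000008 := rS 0x3f5e3b279874427d0f88deef5a52ad52353544403290d9fc0db5ce8fc502537e80326d (k8 c22545 c6205 c5212 c5565 c1113 c21947 c404 c22610 (k8 c22617 c22619 c677 c20794 c22595 c28 c9730 c5665 (k8 c22618 c20804 c20861 c22607 c5519 c5333 c5331 c5517 (k8 c21929 c266 c20811 c22622 c22623 c5401 c5405 c3581 k0)))) (by decide +kernel)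
def c22625 : PP 9 3 T 0x42000000040000000000000100000004000000000000000000000000000000000000000000000000000000000000000000000000000008 := rS 0x3f5e6f11933cf4a9356d4361d108643e237bbd694abcec44026d (k8 c22545 c28 c9730 c22610 c20861 c22607 c5519 c5333 (k8 c5331 c5517 c6205 c266 c20811 c20794 c22617 c5665 (k8 c20804 c22620 c20767 c22624 c385 c388 c20237 c3581 k0))) (by decide +kernel)
def c22626 : PP 9 3 T 0x42000000040000000000000100000000000000000000000000000000000000000000000000000000000000000000000000000000000008 := rS 0xff8eab162b5f96cfdafcf7acd5206352bf6af378ce9579d23bd5ee230fd287e2812a3cdfa00d874431100866526d (k8 c22545 c22595 c6205 c28 c9730 c266 c20811 c20794 (k8 c5212 c5565 c5568 c1113 c21947 c404 c22607 c5517 (k8 c5331 c5333 c5519 c5520 c22610 c20861 c22625 c5323 (k8 c5325 c20351 c1243 c5665 c22619 c20804 c2377 c20264 (k8 c3581 c5542 c5405 c5201 c5548 c1335 c5683 c2028 (k2 c2892 c17808 k0)))))) (by decide +kernel)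
def c22627 : PP 9 3 T 0x80000200000000000000000100080008000100000000002040000000000000000000000000000000000800000000004000000440000088 := rS 0x2be3b007f92be71512fbcde1b0e885662714ac55a4322bc5e7ed81ad48e6d (k8 c22545 c5520 c5422 c2631 c5542 c5325 c5323 c5326 (k8 c5478 c5573 c5421 c5417 c5570 c5574 c266 c20811 (k8 c20794 c5565 c20264 c1113 c1139 c17998 c17941 c2568 (k4 c9182 c6335 c3070 c3582 k0)))) (by decide +kernel)
def c22628 : PP 9 3 T 0x5000000000000000000010040000000000000000000000000000000000040000000000201040000000000002000010000000040000000000000000000000 := rS 0xe03dc01a3df (k4 c5454 c9793 c21172 c20893 (k2 c3072 c10249 k0)) (by decide +kernel)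
def c22629 : PP 9 3 T 0x80000010040000000000000100080008000100000000002040000000001040000000000000000000000800000000004000000440000088 := rS 0x1a29c8ab8522d4f7a34fad371b5d0210f1684fe21f6c0e26b5049dcb66d (k8 c22545 c5474 c672 c30 c5422 c2600 c2631 c5542 (k8 c266 c677 c22627 c5216 c16594 c5463 c5465 c5466 (k8 c5579 c2748 c701 c20761 c20751 c22628 c21491 c1140 (k2 c9176 c1710 (k1 c1240 k0))))) (by decide +kernel)
def c22630 : PP 9 3 T 0x12000010040000000000000100000008000000000000002040000000000000000000000000000000000000000000000000000440000008 := rS 0x785be3825454dff3d03844a41f18f8f2c7239240c6a1bd28431100a8533295989c52b5db335366d (k8 c22545 c5397 c2504 c22626 c5422 c5417 c5570 c5574 (k8 c22595 c5447 c5398 c28 c9730 c266 c5211 c8484 (k8 c5665 c22619 c5334 c5520 c2482 c1454 c22629 c5576 (k8 c188 c2909 c3056 c5216 c17998 c5565 c1139 c17941 (k4 c407 c2511 c5534 c18204 k0))))) (by decide +kernel)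
def c22631 : PP 9 3 T 0x80000210000000000000000000000008000000001000002040000000000000000000000000000000000000000000000000000440000408 := rS 0x101f7aba3aff257cc8e2524a3cde1b0e885662714ac55a4322bc5e7ed81ad41e6d (k8 c22545 c21871 c5422 c2631 c5542 c5325 c5323 c5326 (k8 c5478 c5573 c5421 c5417 c5570 c5574 c266 c20811 (k8 c20794 c5565 c5568 c20902 c1113 c5779 c17998 c3584 (k4 c2568 c6335 c3582 c5584 (k2 c3070 c9182 k0))))) (by decide +kernel)
def c22632 : PP 9 3 T 0x2000010040000000000000100000008000000000000002040000000000000000000000000000000000800000000000000000440000008 := rS 0x70080b8dc7607a50ffe7e2d082d8e210ca4d3329db335369d8aed0ae6d (k8 c22545 c21872 c22630 c5414 c5412 c5397 c2504 c22626 (k8 c22595 c5447 c5444 c6205 c266 c2482 c2305 c22631 (k8 c5216 c13608 c5576 c5221 c22629 c5332 c5518 c1108 (k2 c5643 c3578 (k1 c274 k0))))) (by decide +kernel)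
def c22633 : PP 9 3 T 0x2000000040000000000000000080000000000000000000000000000000040000000001000000000000000000000000000000440000048 := rS 0x380405c421949a6d33291d8dcae6d (k8 c22545 c21872 c5518 c5332 c22595 c5447 c5397 c5444 (k4 c6205 c266 c1108 c5643 (k2 c3578 c274 k0))) (by decide +kernel)
def c22634 : PP 9 3 T 0x1000000000022000010040000000000000000080008000000000000002040000000000040000000000000000000000000000000000000000440000008 := rS 0x68f7d2c331c05d9e5f3d1e40c1b0e86526c94abc46af318fb59a9b4e8ec1637 (k8 c5518 c5516 c5332 c5412 c5397 c2504 c5542 c5476 (k8 c5325 c5324 c5323 c5446 c5396 c5444 c6205 c20811 (k8 c20794 c22633 c1454 c5669 c10245 c20767 c1107 c18018 (k4 c12046 c3577 c5452 c1708 (k1 c6897 k0))))) (by decide +kernel)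
def c22635 : PP 9 3 T 0x2000110040000000000000100000008000000000000002040000000000000000000000000000000000000000000000000000440000008 := rS 0x224084881d1ec605d2bc2df3ffcfc4010ca4d3329db4576857 (k8 c21872 c22630 c5414 c22626 c22595 c5447 c5444 c6205 (k8 c28 c5216 c13608 c5577 c5580 c6706 c5221 c5516 (k4 c22634 c2486 c674 c800 (k2 c5643 c5675 (k1 c22438 k0))))) (by decide +kernel)
def c22636 : PP 9 3 T 0x2000010040000000000000100000008000000000000002040000000000000000000000000000000000000000000000000000440000008 := rS 0x407deae8e921fff305243406b8aed03b11009c5662958915e2f5f6c0d6bb6 (k8 c22626 c5422 c2631 c5542 c5477 c5323 c5326 c5421 (k8 c5417 c5574 c5571 c28 c9730 c20811 c22630 c5414 (k8 c22632 c22635 c17856 c22631 c5589 c20750 c695 c6335 (k4 c10428 c5584 c20839 c5694 k0)))) (by decide +kernel)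
def c22637 : PP 9 3 T 0x400000000000000a0000100000000000000000000000008000000000000002040000000000000000000000000000000000000000002000000000010000000 := rS 0x203ef7faba3a2958915e2f5f6c0d6b15 (k8 c5414 c5422 c2631 c5542 c5477 c5323 c5326 c5421 (k4 c5417 c19116 c10428 c3007 (k2 c5584 c3070 (k1 c5694 k0)))) (by decide +kernel)
def c22638 : PP 9 3 T 0x45001000000000002000020000000000000000100000008000000000000050040000200001000000000001000000000000000000001000000000041000008 := rS 0x58749719919a0cf25c4dfc1b0ea4d9295788d4634b (k8 c18477 c5476 c5324 c5323 c5446 c5396 c5444 c20811 (k8 c20794 c5694 c21166 c18403 c1653 c3013 c5660 c12046 (k4 c1708 c2789 c3577 c1677 k0))) (by decide +kernel)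
def c22639 : PP 9 3 T 0x9000000000080000000000000000000000000040008000100001000022040000200000000000000001410000000000000000000000040000000000800 := rS 0x4bb55a0cf1c77c76478eabc86f3f6b35aed3 (k8 c5579 c5465 c2504 c5542 c5325 c5478 c3070 c2139 (k8 c2790 c17848 c19336 c5654 c4694 c6897 c3073 c1708 (k1 c10790 k0))) (by decide +kernel)
def c22640 : PP 9 3 T 0x2000000040000000000000100000008000000000000002040000000000000000000000000000000000000000000000000000440000008 := rS 0xd1efa595fee67c046e49f9f85c0dff16862a9dda02a979c0e9cc021950a55332965ab5e2f37afb59a9b81ad76c0f (k8 c21871 c22626 c5422 c2631 c5397 c2504 c5542 c5477 (k8 c5325 c5323 c5573 c5420 c22595 c5447 c5446 c5398 (k8 c6205 c28 c9719 c20811 c22636 c18477 c20053 c13351 (k8 c5412 c5414 c17731 c5216 c5580 c17720 c6706 c17766 (k8 c22637 c1484 c22639 c1653 c22638 c5584 c22132 c19336 (k2 c1708 c5688 k0)))))) (by decide +kernel)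
def c22641 : PP 9 3 T 0x90080000000000a2000000000000000000000100000000000000000000000080000000001000000000000000000000000000000001000010000000000000 := rS 0x1d347be464b2be3a9556a75c09bf9b7d96a1 (k8 c5398 c5464 c5580 c17766 c5397 c17720 c5412 c5573 (k8 c5446 c5504 c5584 c22132 c8188 c19336 c1708 c2789 (k1 c6899 k0))) (by decide +kernel)
def c22642 : PP 9 3 T 0x45001000000000000000120000000000000000100040000000000000000040080000200010000000000000000100000000000000001040000000000000000 := rS 0x468012dfe3943a3e5237 (k8 c1484 c19356 c5526 c5373 c398 c3013 c17822 c20883 (k2 c5660 c2790 k0)) (by decide +kernel)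
def c22643 : PP 9 3 T 0x2000100040000000000000000000008000000000000000000000200020000000000000040000000000000000000800000000054000000 := rS 0x5c663a1c86526c94abc46a31 (k8 c5476 c5324 c5323 c5446 c5396 c5444 c6205 c8287 (k4 c2789 c2130 c1677 c3577 k0)) (by decide +kernel)
def c22644 : PP 9 3 T 0x20000120040000000000000100000008000000000000002000000000000000000000000000000000000000000001000000000000000008 := rS 0x15ed5803fc94474bb43de8d0827d92956bb4d62ad0086c429d707cdbecb50f862be24c90c6af32dd2fda1d66a6e06b5db3d8461f35ec2526d (k8 c22545 c19356 c5209 c5523 c1111 c5409 c22640 c5212 (k8 c5422 c2631 c5397 c2504 c20811 c17757 c18477 c5474 (k8 c5325 c5324 c5478 c5447 c5216 c5414 c6706 c5398 (k8 c5464 c5580 c17766 c17720 c5412 c266 c20794 c28 (k8 c5573 c5421 c5579 c5465 c5446 c5396 c5448 c19143 (k8 c701 c22641 c22642 c1708 c22643 c5660 c2568 c565 (k2 c1711 c3070 (k1 c3618 k0)))))))) (by decide +kernel)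
def c22645 : PP 9 3 T 0x20000120040000000000000100000008000000000000002000000000000000000000000000000000000000000000000000000000000008 := rS 0x203ef7faba3a48818a562b5db457e6df65f8943b094915e2f5f687cd61d (k8 c20811 c5523 c1111 c17757 c5477 c5323 c5326 c19356 (k8 c5209 c5398 c5216 c5464 c5580 c17766 c5414 c5212 (k8 c5422 c5421 c8199 c2631 c22644 c19116 c10428 c3006 (k2 c5584 c3070 (k1 c5694 k0))))) (by decide +kernel)
def c22646 : PP 9 3 T 0x41000000000000020000100040000000000000100000008000000000000000000000000000000000000000000000000000000000002000000000000000008 := rS 0x1ec1f813f4d701f7e715d1da58a563b60d8762aa922bc5e6f5 (k8 c5477 c5325 c5323 c5326 c5531 c5414 c20811 c20794 (k8 c5212 c5421 c8199 c5334 c19116 c10428 c5221 c5584 (k4 c3070 c5523 c22645 c13257 (k2 c1111 c17991 (k1 c2195 k0))))) (by decide +kernel)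
def c22647 : PP 9 3 T 0x45000000000000020000120040000000000000100000008000000000000000000000000000000000000000000000000000000000000000000000000000008 := rS 0x57b5600ff2511d2ed046c0fc2e069b5d2a9b64a8420f6f16c03efda5ca4d69f65ac55bb60086c3a2111a762a995490de2f32dbd4926d (k8 c22545 c22646 c5477 c5474 c5325 c5323 c5478 c5531 (k8 c5530 c5414 c5412 c5409 c266 c20811 c20794 c28 (k8 c5212 c5573 c5421 c5420 c5572 c5523 c19356 c18477 (k8 c22645 c1111 c5209 c5216 c17991 c19143 c5398 c5396 (k8 c5397 c5446 c5465 c5579 c17720 c6706 c2196 c701 (k8 c22642 c1708 c22643 c5660 c2568 c565 c1711 c3071 (k1 c3618 k0))))))) (by decide +kernel)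
def c22648 : PP 9 3 T 0x40000000000000000000110000000000000000100000008000000001000020000000000000000000000000000000000000000000000000000000000000008 := rS 0x481ba26248eabd1e2913ac55bb60d874864578bdc174a (k8 c5221 c5516 c5333 c5323 c5326 c5478 c20811 c20794 (k8 c5212 c5573 c5421 c5570 c8199 c20800 c3070 c2139 (k4 c3582 c22402 c1113 c5675 (k1 c3038 k0)))) (by decide +kernel)
def c22649 : PP 9 3 T 0x45000000000000020000100040000000000000100000008000000000000000000000000000000000000000000000000000000000000000000000000000008 := rS 0x823a269180c0df847a56756bb6008762af1 (k8 c5323 c5414 c20811 c28 c5212 c5422 c22647 c5221 (k8 c10418 c17804 c2631 c22648 c21172 c21166 c5675 c17853 (k1 c2751 k0))) (by decide +kernel)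
def c22650 : PP 9 3 T 0x48000000000000000000110000000000000000100000008000000001000000000000000000000000000000000000000000000000000000000000000000008 := rS 0x2264a05c0694f37aa44dc2457c74521d2186d622722bc55bb6 (k8 c5212 c5573 c5323 c5326 c5570 c5421 c20794 c5478 (k8 c20811 c8199 c5504 c5584 c3582 c1113 c3038 c5477 (k4 c5325 c5221 c22648 c5516 (k2 c17894 c22402 (k1 c13156 k0))))) (by decide +kernel)
def c22651 : PP 9 3 T 0x41000000000000020000100040000000000000100000008000000000000000000000000000000000000000000000000000000000000000000000000000008 := rS 0x23401ec1f7e9af38ff57c0e3bee24acf6c1b0eaae2aa921bc5e6f5 (k8 c5477 c5325 c5323 c5478 c5531 c5414 c5413 c20811 (k8 c20794 c5212 c5574 c22646 c22649 c5504 c5508 c5584 (k8 c5586 c22650 c5523 c22645 c1111 c17991 c18003 c8188 (k1 c2790 k0)))) (by decide +kernel)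
def c22652 : PP 9 3 T 0x40000000000000020000100040000000000000100000008000000000000000000000000000000000000000000000000000000000000000000000000000008 := rS 0xce1aa961e7efb1e21d (k8 c20811 c5323 c22651 c5542 c17757 c17804 c1111 c5221 (k1 c5523 k0)) (by decide +kernel)
def c22653 : PP 9 3 T 0x20080000000000a0000120040000000000000000000004000000000000000000000000000000000000000000000000000000000000000000000000010008 := rS 0x198303bb1c6a061c824909f6589c022111c550ed1679ecf21f35a4fbfb0948fc66f0d9864ae6d (k8 c22545 c21872 c6205 c18383 c22131 c385 c5576 c19356 (k8 c5209 c17700 c5444 c5523 c1111 c5524 c5372 c5543 (k8 c5501 c5499 c5414 c5409 c266 c28 c5570 c5420 (k8 c5572 c19143 c17997 c399 c5643 c20806 c675 c673 (k2 c5653 c20770 (k1 c1917 k0)))))) (by decide +kernel)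
def c22654 : PP 9 3 T 0x4008400000000000000000000000000000000000000004000100100000000004000000000000000000000000100000000000000000180204000000001000 := rS 0x1dcfad5180246a57 (k8 c21872 c439 c273 c5653 c2779 c20827 c1913 c20727 k0) (by decide +kernel)
def c22655 : PP 9 3 T 0x4008400000000000000000040000000000000100000004000100100000000000000000000000000000000000100000000000000000100000000000000100 := rS 0x1f40c57 (k4 c21872 c5643 c20827 c22493 k0) (by decide +kernel)
def c22656 : PP 9 3 T 0x42000000000000020000120040000000000000100000000000000000000000000000000000000000000000000000000000000000000000000000000000008 := rS 0x954b0382072471b9091a4922840671df0b83be9b7878b61b394835221914c55333b80bcfdfb6 (k8 c5212 c17711 c5540 c5502 c22652 c5530 c5414 c8199 (k8 c6205 c5374 c5522 c19356 c18383 c5209 c5216 c22131 (k8 c5397 c17700 c17720 c6706 c551 c385 c22653 c20747 (k8 c3026 c702 c5658 c1484 c18747 c22654 c22655 c30 (k2 c13501 c10155 (k1 c17822 k0)))))) (by decide +kernel)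
def c22657 : PP 9 3 T 0x2000000000000020000100000000000000000100000004000000100000000010000000000000000000000000000000000000000000500000000000000408 := rS 0x1b9208f1244c20ae09a36064258c55528780bffdfb6 (k8 c5212 c17711 c5544 c5502 c5499 c5531 c5414 c5421 (k8 c5658 c16948 c12616 c20787 c17841 c12617 c12633 c2776 (k4 c2751 c20819 c1113 c3038 k0))) (by decide +kernel)
def c22658 : PP 9 3 T 0x42000000000000020000100040000000000000100000000000000000000000000000000000000000000000000000000000000000000000000000000000008 := rS 0x12c4a448ebc1ea0b23d2b3afd798a76c1b0e88d533b (k8 c22652 c5531 c5409 c20811 c20794 c5212 c8199 c5540 (k8 c5542 c22656 c5221 c10418 c5516 c5519 c17949 c551 (k4 c22657 c2969 c460 c17828 k0))) (by decide +kernel)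
def c22659 : PP 9 3 T 0x80000000000a0000110040000000000000000000000000000000800000000000000000000000000000000000000000000000000000000000000012008 := rS 0x424d8c613c9efc2e3408653ecb138062a99 (k8 c5530 c5414 c28 c5570 c5420 c5572 c6205 c5463 (k8 c5466 c6706 c956 c2602 c10425 c5669 c262 c2481 (k1 c17997 k0))) (by decide +kernel)
def c22660 : PP 9 3 T 0x40000000000000020000110040000000000000100000000000000000000000000000000000000000000000000000000000000000000200000000000000008 := rS 0x679dcf2943024937b10b8e7c128f1bc366667ea1e046b0644a0211f786566275aed8021b0e884469d8aa65533bf691c761f248de946d (k8 c22545 c5221 c5518 c5334 c5517 c5332 c10418 c22658 (k8 c22652 c5531 c5530 c5414 c5412 c5409 c266 c20811 (k8 c20794 c28 c5212 c5422 c5570 c5574 c6205 c5582 (k8 c20747 c3066 c16594 c18694 c2600 c21166 c959 c2631 (k8 c20831 c5487 c22131 c22659 c5216 c5188 c5317 c5433 (k8 c22565 c5536 c3578 c18034 c430 c1578 c10409 c1587 (k1 c22445 k0))))))) (by decide +kernel)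
def c22661 : PP 9 3 T 0x40000000000000020000110040000000000000100000000000000000000000000000000000000000000000000000000000000000000000000000000010008 := rS 0x33cee794a18124f043a6f62171cabd1be0947bbc66b2183224128e86566275aed8021b0e884469d8aa6676471d87c920b1bd288a6d (k8 c22545 c22660 c5221 c5518 c5516 c5334 c5517 c5332 (k8 c10418 c22652 c5530 c5414 c5412 c5409 c266 c20811 (k8 c20794 c28 c5212 c5422 c5570 c5574 c6205 c22489 (k8 c12617 c16594 c18694 c20787 c2600 c22659 c5658 c5216 (k8 c5188 c5505 c5584 c5317 c5433 c22565 c5536 c958 (k8 c22402 c3578 c18034 c430 c1578 c10409 c1587 c22445 k0)))))) (by decide +kernel)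
def c22662 : PP 9 3 T 0x4000000000000000000000000000000000100000004000000000400050002000000100080000000000001000000000000000000500000012000020000 := rS 0x1a6766821bde8d7faba3a8f (k8 c2751 c551 c1217 c11059 c702 c5584 c20819 c799 (k2 c798 c2135 (k1 c10131 k0))) (by decide +kernel)
def c22663 : PP 9 3 T 0x4000000000020000110040000000000000100080004000000000000000000000000000000000000000000000000000000000000100000000000020008 := rS 0x19ad1f6f7de4fdd93c4361d55aa5eb1305b559ec96317b626381a460224f97853493309f8fa3d4081c6e9d1c85e503b4c8656ab31088c4fb62387c526d (k8 c22545 c8199 c5517 c5520 c5212 c5570 c5409 c266 (k8 c5574 c5422 c6205 c5530 c5332 c5216 c5433 c5317 (k8 c5412 c5518 c5432 c699 c5436 c2747 c5670 c17682 (k8 c262 c3578 c5536 c5188 c17998 c5592 c5589 c5550 (k8 c9752 c22565 c19577 c1120 c20845 c2563 c20749 c5516 (k8 c703 c5519 c5531 c5413 c20811 c20794 c22662 c22131 (k4 c20237 c17949 c19294 c15198 (k2 c14987 c2500 (k1 c5688 k0))))))))) (by decide +kernel)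
def c22664 : PP 9 3 T 0x4000000000020000110040000000000000100080000000000000000000000000000000000000000000000000000000000000000100000000000020008 := rS 0x766877d0db378ce81ac64d24cbc613f1f503b11e85c0e39940676c630d87442234ea64761f058dc1e6d (k8 c22545 c21871 c5518 c5516 c5517 c5332 c5530 c5412 (k8 c5409 c266 c20811 c20794 c9752 c5212 c6205 c5216 (k8 c5317 c5432 c5433 c5436 c22565 c699 c2747 c5670 (k8 c17682 c19577 c262 c3578 c1120 c2480 c22663 c5323 (k4 c22273 c20783 c19294 c799 (k2 c798 c20358 k0)))))) (by decide +kernel)
def c22665 : PP 9 3 T 0x8000000000000000110000000000000000100080000000000000000000000000000000080000000000000000000000000000000000000000000020000 := rS 0x88a70c72970c57e491c99ec768f23c4c1641719fdbe6d (k8 c22545 c5580 c5577 c5466 c5462 c5516 c703 c5520 (k8 c2751 c5332 c162 c5357 c800 c5675 c5590 c5591 (k4 c17862 c19420 c9176 c796 (k1 c8792 k0)))) (by decide +kernel)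
def c22666 : PP 9 3 T 0x2000000040000000000000000080008000000001000000000000000000040000110002000000004050000000000000000000000020000 := rS 0x2abdaae19eccce03038e59a6f003f4f110688edee377aa3c8e3518e751a5bdaf84ae6d (k8 c22545 c21872 c5458 c5412 c5474 c701 c18477 c5476 (k8 c5324 c5520 c2751 c5519 c5518 c5333 c5332 c20815 (k8 c8792 c5669 c1240 c9730 c1272 c20785 c2382 c4138 (k8 c28 c663 c20843 c20297 c20922 c18037 c13811 c1286 k0)))) (by decide +kernel)
def c22667 : PP 9 3 T 0x8000000000000000000000000000000000000000000000000000200000000000000000400000000004000400011050005000000000000000000000000 := rS 0x5f37a04fea1 (k4 c5578 c5577 c5463 c1272 (k2 c1268 c3599 k0)) (by decide +kernel)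
def c22668 : PP 9 3 T 0x80008000000000000000000040000000000000000080008000100000000000000000000000440000110006000000000050000000000000000000000020000 := rS 0xe00842a9009a957117eb45a8773e818f27a70c543e237bbd51e4778bcc379d4696cc661d86d40a6d (k8 c22545 c21870 c5412 c5209 c5445 c19420 c5474 c701 (k8 c18477 c5475 c5325 c5323 c5520 c2751 c5519 c5333 (k8 c5331 c5517 c5590 c5591 c22666 c161 c17741 c1690 (k8 c672 c20727 c1710 c1240 c22667 c20861 c5665 c17712 (k4 c20804 c2372 c5642 c3581 (k1 c20811 k0)))))) (by decide +kernel)
def c22669 : PP 9 3 T 0x8000000000002000000000000000000000100000008000000000000000050000100000000000005000000000010000000000000000440000540020008 := rS 0xd1ef85da85f66e491afc2dbcde2816bb4d26194da64361d (k8 c20811 c20794 c5447 c5397 c5393 c5444 c5579 c5465 (k8 c5463 c5323 c5325 c5474 c3581 c701 c22640 c2504 (k4 c5439 c20816 c1107 c5454 (k2 c1710 c18107 k0)))) (by decide +kernel)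
def c22670 : PP 9 3 T 0x8000000000082000000080000000000000000080004000000000000000000000100004000000004000000000010000800000000000000000400020008 := rS 0x7b1e5011a3511a428ec507024782742e6ed997d02cb6bb8da6df598a56a614caa44205 (k8 c21870 c2372 c20804 c5447 c5445 c5422 c5417 c5574 (k8 c5580 c5579 c5466 c5465 c5464 c5463 c5439 c18631 (k8 c16071 c1107 c1135 c22131 c2745 c17923 c6118 c551 (k8 c1218 c702 c20816 c2779 c3073 c439 c9222 c5540 k0)))) (by decide +kernel)
def c22671 : PP 9 3 T 0x8000000000000000000000000000000000100000004000000000000000002000000000000000000000000100010000000000000100000010001000080 := rS 0x3bcd4f79dc671d40b5cfed3 (k8 c5579 c5577 c5465 c5463 c551 c385 c673 c20761 (k2 c20751 c22493 (k1 c5454 k0))) (by decide +kernel)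
def c22672 : PP 9 3 T 0x8000000000080000010040000000000000000000004000100000000000051000000000100000005000000000000000000000000100010000140000008 := rS 0x66317977da8fdd908c361d (k8 c20811 c20794 c9733 c22131 c20237 c6616 c6601 c3581 (k2 c1476 c22615 (k1 c5653 k0))) (by decide +kernel)
def c22673 : PP 9 3 T 0x8000000000082000000000000000000000100000000000100000100000000000100000000000000000000000018000000000000000000000000020000 := rS 0x46475e0350364e761b0108552f57b8ec026aa507f6a45678dc46abce8a432c94d814da0f (k8 c21871 c22545 c21870 c5397 c5396 c5393 c5417 c5372 (k8 c20861 c9733 c1478 c20767 c20747 c17720 c9664 c5211 (k8 c5665 c17712 c5332 c5333 c5519 c20804 c2372 c5642 (k8 c20794 c22669 c22670 c17741 c22618 c22672 c551 c22671 (k1 c702 k0))))) (by decide +kernel)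
def c22674 : PP 9 3 T 0x10000000000000000000000000000000000400000000000200000000000000000000200010000000000000000000000000000000 := rS 0x123a1 (k2 c5381 c10035 (k1 c21491 k0)) (by decide +kernel)
def c22675 : PP 9 3 T 0x8000000000002000000040000000000000100000004000000000000000000000000000000000000000000100018000000000000100000000000000008 := rS 0xa8d93c5eaf70f8d5574a030a62329db084039df0865926d (k8 c22545 c5396 c5393 c5457 c5372 c28 c266 c22626 (k8 c22595 c9730 c5417 c17741 c5215 c20861 c20806 c5517 (k4 c5333 c5519 c22671 c22131 (k2 c22672 c5489 k0)))) (by decide +kernel)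
def c22676 : PP 9 3 T 0x8000000000002000000000000000000000100000000000000000000000000000000000000000000000000400008000000000000000000000000020004 := rS 0x4e6d0bd1138ed8de0039a05967f50e74f29f31984fa05 (k8 c21870 c1691 c5445 c5395 c5448 c161 c5372 c5578 (k8 c5577 c5464 c5463 c19419 c5642 c2746 c20261 c5571 (k4 c22667 c3599 c17712 c1686 (k1 c5412 k0)))) (by decide +kernel)
def c22677 : PP 9 3 T 0x8000000000002000000000000000000000100000004000000000000000000000200000000000000000000000018000000000000100000000000000008 := rS 0xf31c7b13a34819a9ea1f1d909214a8ee84dc2980ed9e0176a7bf665fc935cfed36fb3c6e234986536614ca362681ce884da0f (k8 c21871 c22545 c266 c5372 c5463 c956 c22674 c5447 (k8 c5445 c5397 c5393 c5444 c9733 c1478 c20767 c5580 (k8 c5579 c5577 c5465 c22675 c5439 c18631 c20829 c20816 (k8 c1107 c22131 c5229 c3073 c5417 c16071 c17744 c551 (k8 c22550 c21491 c5658 c5332 c5517 c5519 c3039 c1935 (k4 c2779 c1135 c21172 c3578 (k2 c5540 c439 k0))))))) (by decide +kernel)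
def c22678 : PP 9 3 T 0x8000000000082000000080000000000000100000000000000000000000015000200000000000004000000000018000000000000000000000114000000 := rS 0x54bf4d5147b87d214ad09b8fedf11984bf016a236279d6ba05a6cf (k8 c20767 c5579 c5463 c5465 c5372 c956 c22674 c20816 (k8 c3073 c5439 c5445 c9733 c5580 c5577 c16071 c17744 (k8 c22550 c21491 c5517 c5333 c3038 c3039 c1242 c20804 (k1 c3581 k0)))) (by decide +kernel)
def c22679 : PP 9 3 T 0x8000000000002000000080000000000000100000000000000000000000015000200000000000004000000000018000000000000000000000114000000 := rS 0x66579c341b756b53decb6bb4d3e6146c4d039d (k8 c5372 c5463 c956 c22674 c5445 c5448 c5579 c5465 (k8 c5464 c20829 c20816 c2890 c22678 c5212 c12178 c20748 (k2 c19997 c5282 k0))) (by decide +kernel)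
def c22680 : PP 9 3 T 0x8000000000002000000000000000000000100000000000000000000000000000200000000000000000000000008000000000000000000000000020000 := rS 0x1a951b57ebdc3f4a94e4deaf378ce95711108743601011f51e45f088f3a6d (k8 c22545 c5372 c9733 c5457 c20747 c4795 c1691 c22676 (k8 c28 c20794 c20811 c266 c9730 c20861 c22677 c5323 (k8 c5325 c5477 c22679 c22595 c5215 c5517 c5333 c22640 (k4 c17804 c3581 c5665 c20804 k0)))) (by decide +kernel)
def c22681 : PP 9 3 T 0x8000000000002000010040000000000000100000008000000000000000000000100000000000000000000000000000000000000000000000000000008 := rS 0x2a5faf73507d57b588ed8421d0088d36f17986dea6d (k8 c22545 c5477 c5475 c5325 c5323 c5397 c9733 c28 (k8 c20811 c266 c22626 c9730 c17720 c20861 c9664 c5665 (k4 c8123 c22640 c20804 c3581 k0))) (by decide +kernel)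
def c22682 : PP 9 3 T 0x8000000000002000000000000000000000100000000000000000000000000000100000000000000000000400008000000000000000000000000000004 := rS 0x88ed4e3b6088033a793e9cd969f31a6cc205 (k8 c21870 c5445 c5397 c5395 c5448 c5464 c19419 c1690 (k8 c161 c5372 c5642 c22676 c20261 c667 c17720 c22667 (k1 c17712 k0))) (by decide +kernel)
def c22683 : PP 9 3 T 0x8000000000012000000000000000000000100000008000000000000000000000100000000000000000000000008000000000000000000000000000008 := rS 0x36ff3f6e81f811548edee6aa507c6e23899f4fe1d10aae220178bcc36f52fecfdf92ceb5cda0f (k8 c21871 c22545 c5465 c5372 c22681 c20829 c18631 c5439 (k8 c5477 c5475 c5325 c5323 c28 c9730 c20861 c266 (k8 c20811 c5577 c1690 c957 c9733 c1478 c9664 c5211 (k8 c5665 c8123 c5332 c20804 c22669 c3581 c16594 c5542 (k2 c19979 c17744 (k1 c5201 k0)))))) (by decide +kernel)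
def c22684 : PP 9 3 T 0x8000000000002000000000000000000000100000008000000000000000000000100000000000000000000000008000000000000000000000000000008 := rS 0x6db689b (k4 c5397 c22683 c20351 c17720 k0) (by decide +kernel)
def c22685 : PP 9 3 T 0x8000000000042000000000000000000000100000004000000000000000000000000000000000000000000000000000000000000000000000000000008 := rS 0xf7ecf24d7 (k4 c5465 c22626 c18631 c20829 (k1 c5229 k0)) (by decide +kernel)
def c22686 : PP 9 3 T 0x8000000000002000000080000000000000100000000000000000000000000000100000000000000000000000008000000000000000000000000000008 := rS 0x8e859e23899f59621559c6946adaeda769bcec44026d (k8 c22545 c28 c9730 c5372 c5397 c22684 c22685 c17720 (k8 c5665 c5211 c5571 c20861 c266 c5464 c1690 c957 (k4 c9733 c20767 c12830 c22670 (k1 c16594 k0)))) (by decide +kernel)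
def c22687 : PP 9 3 T 0x8000000000002000000000000000000000100000000000000000000000000000100000000000000000000400008000000000000000000000000000000 := rS 0xd1f6b3604f2181282cf08a910bddfd99bd1ba0128440d29c9bd4d54ada8a567b69dc4442010126fc2cf11e76267d6b9fda66d (k8 c22545 c5579 c5577 c5465 c1690 c957 c5372 c9733 (k8 c20767 c5457 c5397 c22682 c28 c266 c9730 c22684 (k8 c22685 c5574 c5417 c17720 c5211 c5665 c5519 c22686 (k8 c22595 c22619 c22673 c1114 c16594 c5381 c5565 c19230 (k8 c20754 c17744 c22675 c1139 c22131 c1450 c17941 c1214 (k4 c460 c461 c1916 c5540 (k2 c2201 c5688 k0))))))) (by decide +kernel)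
def c22688 : PP 9 3 T 0x80000000000a0000000040000000000000100000000000200000000000000000000000000000000000000000008000000000000400000000000010008 := rS 0x2592474130468125f31288f3a4110acd3e2714ad62a1f0581c1e6d (k8 c22545 c21871 c5432 c690 c1112 c5414 c5422 c5417 (k8 c5570 c5572 c5574 c266 c5462 c5372 c9733 c1114 (k8 c17998 c18620 c22661 c261 c5564 c1684 c10368 c562 (k1 c3584 k0)))) (by decide +kernel)
def c22689 : PP 9 3 T 0x8000000000080000200000000000000000100000004000000000000000000000000000000000000000000000010400000000000101000000000000008 := rS 0x238f06a6cd1a816b9fda629 (k8 c5417 c5579 c5577 c5465 c5463 c5381 c19230 c20751 (k2 c22131 c18677 (k1 c551 k0))) (by decide +kernel)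
def c22690 : PP 9 3 T 0x8000000000000000000000000000000000100000004000000100000000000000000000000000000000000000010400000000000001000000000020000 := rS 0x3551a816b9fda645 (k8 c20747 c5579 c5577 c5465 c5463 c702 c18677 c20751 k0) (by decide +kernel)
def c22691 : PP 9 3 T 0x10080000000000a8000100040000000000000000000000000000000000001000000100000000000000000000100008400000000000000000000000000000 := rS 0x7f33122d1809b9a99d67c4cfa816b9fda67156c555fdf (k8 c6601 c5406 c5414 c5573 c5571 c5579 c5577 c5465 (k8 c5463 c1690 c957 c20767 c5372 c20751 c18613 c3073 (k4 c1710 c3038 c20893 c21351 (k1 c22177 k0)))) (by decide +kernel)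
def c22692 : PP 9 3 T 0x8000000000080000000040000000000000100000004000000000000000000000100000000000000000000400008000000000000000000000000000008 := rS 0x1e4f725969228cf6f7dfbb27abc639a122840ee602387cbe0b54a747a07da4a033e111c4cfbb13186c3a2155c44039d14814da0f (k8 c21871 c22545 c21870 c5417 c5372 c28 c9730 c20861 (k8 c266 c20811 c20794 c9752 c22687 c1690 c957 c9733 (k8 c5457 c6205 c5209 c5235 c5432 c5436 c5412 c5531 (k8 c690 c1686 c1112 c5779 c5663 c10409 c22688 c20747 (k8 c22689 c22690 c551 c2166 c22131 c20237 c6601 c20842 (k4 c22691 c10035 c701 c13156 (k2 c2102 c20856 (k1 c554 k0)))))))) (by decide +kernel)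
def c22693 : PP 9 3 T 0x4008400000000008000100000000000000000100000004000000000400000000000000000000000500000004600008400000000000100000000000000008 := rS 0x34250cd2d3cdfded8a840624bf94706a9121f859e416bb7c36ab888073a6d (k8 c22545 c5372 c28 c9730 c20861 c20794 c5580 c5465 (k8 c5462 c20767 c5457 c12616 c10035 c5281 c5658 c5675 (k8 c13156 c2163 c22489 c5590 c17760 c17868 c554 c701 (k4 c2506 c9931 c5688 c19830 k0)))) (by decide +kernel)
def c22694 : PP 9 3 T 0x5000400000000000000000000000000000000100000004000000000000010001000040010000000000000000500008400000000000100000000000000008 := rS 0xf50fbce95027fa1deecc1186c3a2155c44039d7eaa7646d (k8 c22545 c22131 c5489 c5405 c5372 c28 c9730 c20861 (k8 c266 c20811 c20794 c9733 c20893 c17683 c2073 c2506 (k4 c19658 c10772 c2628 c5517 (k2 c5519 c3581 k0)))) (by decide +kernel)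
def c22695 : PP 9 3 T 0x2000000000000088000010000000000000000100000000000000000000000000000000000000000000000000000000000000000000000000000000000008 := rS 0xa5fcc362159ac7426d (k8 c22545 c19230 c5421 c5574 c266 c20794 c17760 c17763 (k1 c5221 k0)) (by decide +kernel)
def c22696 : PP 9 3 T 0x8000000000080000000000000000000000100000004000000000000000001000100000000000000000000400008000000000000100000000000000008 := rS 0x34602d446b3e267d40b4dbeb3589dfded74982725a1effb7659d (k8 c5372 c22131 c22695 c6601 c19230 c22692 c5438 c261 (k8 c5465 c20829 c5356 c5421 c5574 c5580 c5579 c5463 (k8 c1690 c957 c20767 c22693 c20816 c3073 c1710 c22694 k0))) (by decide +kernel)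
def c22697 : PP 9 3 T 0x8000000000080000000000000000000000100000004000000000000000001000100000000000000000000400008000000000000000000000000000008 := rS 0x129a58942244f6f7f43b2cef86261b10a7c4e2949827246d (k8 c22545 c22692 c5438 c261 c5417 c5570 c5572 c266 (k8 c20794 c957 c5457 c5372 c22131 c19230 c6601 c22695 (k4 c22696 c20747 c2969 c16594 (k2 c18620 c5165 k0)))) (by decide +kernel)
def c22698 : PP 9 3 T 0x8000000000005000000000000000000000100000004000000000000000000000100000000000000004000000008000000000000200000014000400108 := rS 0x2960bd08ed1818ef4a44a1111e76267d40b5c021b10a4cae6d (k8 c22545 c21872 c261 c266 c20794 c28 c5465 c5463 (k8 c1690 c957 c5372 c9733 c20747 c2969 c18620 c5224 (k4 c5648 c20859 c491 c5381 (k2 c691 c16594 (k1 c17869 k0))))) (by decide +kernel)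
def c22699 : PP 9 3 T 0x8000000000080000000000000000000000100000004000000000000000000000100000000000000000000400008000000000000000000000000000008 := rS 0x4a079df6a23484458eecde017f7824bf921489d3e7d40b5da7b1 (k8 c22687 c5579 c5465 c5463 c1690 c5572 c5570 c5417 (k8 c22692 c5439 c5438 c20829 c1107 c22697 c5401 c551 (k8 c22698 c5658 c12616 c20816 c5454 c18677 c5224 c5436 k0))) (by decide +kernel)
def c22700 : PP 9 3 T 0x8008000000000040000000000000000000000100000004000000000000000000000000000000000000000000000008000000000000000000000000000008 := rS 0xbc9d30ed0ed93d8e77c2630d8751a7dd035c32d5 (k8 c5585 c20299 c5507 c5212 c5566 c5381 c20811 c20794 (k8 c9752 c5457 c5372 c22685 c20829 c20727 c5235 c10409 (k2 c5412 c5663 (k1 c1686 k0)))) (by decide +kernel)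
def c22701 : PP 9 3 T 0x40000000040000000000000100000004000000000000000002000000000000000000000000000008000000000000000000000000000008 := rS 0xec602fa7769b1cef84c61b0eb2542196a8a04a6fd078fddb3 (k8 c5401 c5229 c22700 c5212 c5565 c1113 c21947 c5585 (k8 c20299 c1195 c1177 c20811 c20794 c9752 c5457 c5372 (k4 c22626 c5235 c5412 c1686 (k2 c5663 c19404 (k1 c10409 k0))))) (by decide +kernel)
def c22702 : PP 9 3 T 0x40004400000000045000000000000000000000100000000000000000000044000000000400100000000014000000048400000400000000000000000000108 := rS 0x6621a029a48b443ede4b02dc29503a759528da31fc27988805028d89a3f4093 (k8 c261 c5212 c5568 c5382 c5381 c5380 c28 c9730 (k8 c161 c5457 c162 c5198 c5226 c5680 c5412 c5432 (k8 c1757 c1718 c690 c5678 c15912 c1112 c1708 c2948 (k4 c19662 c2953 c20819 c1232 (k1 c2073 k0))))) (by decide +kernel)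
def c22703 : PP 9 3 T 0x8004000000000022000200000000000000000100000000000200000000000000000100000000000000000000000008000000000001000000000000000000 := rS 0x974b1cf85c681 (k4 c5380 c1775 c5457 c5317 (k2 c9578 c15375 (k1 c22574 k0))) (by decide +kernel)
def c22704 : PP 9 3 T 0x48004400000000022000200000000000000000100000004000000000000000000000100080000000000000000000048400000000001004004000100400000 := rS 0x10f01660e0774a1a4a522def088f3a8146c4d1f037f8c5329d (k8 c5412 c5447 c1919 c5586 c5508 c5568 c5382 c5381 (k8 c5380 c5372 c9733 c5457 c15912 c2948 c22703 c5653 (k4 c5168 c5332 c17923 c440 (k2 c18002 c2073 (k1 c20819 k0))))) (by decide +kernel)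
def c22705 : PP 9 3 T 0x40005000000000000000000000000000000000100000000000100000000000000000200000000000000000000000000000000000000001000000000000000 := rS 0x14a (k2 c5168 c16773 k0) (by decide +kernel)
def c22706 : PP 9 3 T 0x4000000000062000000000000000000000100000004000000000000000000000000000000000000000000000008000000000000000000000000000008 := rS 0xba581c73287afb5a3006fb83c237109247e28129bd269b0b97dee23cefcfbed51eb4bdc8d409dcfe7dd00cde1b3c9064da0f (k8 c21871 c22545 c20289 c22626 c18631 c22131 c385 c5212 (k8 c5566 c5358 c5356 c5380 c5381 c5229 c20761 c2769 (k8 c5585 c20759 c21582 c5372 c9733 c499 c5439 c1107 (k8 c5397 c5444 c5565 c1113 c21947 c404 c509 c266 (k8 c1478 c5457 c22704 c175 c3062 c2136 c5502 c1928 (k4 c22705 c5317 c5432 c9578 (k2 c690 c19752 k0))))))) (by decide +kernel)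
def c22707 : PP 9 3 T 0x4000000000042000000000000000000000100000004000000000000000000000000000000000000000000000008000000000000000000000000000008 := rS 0x1c2b4949aa95b51eb4be633f73c02fb33b9fcbf9210c44028d3eb8d031514094dfa011e74326d (k8 c22545 c20289 c5372 c9733 c5212 c5565 c1113 c21947 (k8 c1289 c5380 c1775 c5566 c5381 c28 c9730 c266 (k8 c22626 c5439 c5358 c5356 c18631 c1107 c22131 c5229 (k8 c385 c21582 c20761 c2769 c22706 c5211 c5665 c22581 (k2 c16719 c16773 (k1 c17920 k0)))))) (by decide +kernel)
def c22708 : PP 9 3 T 0x8004000000000041000000000000000000000100000000000000000000000000000100000000000000000000000008400000000000000000000000000008 := rS 0xce97d977cfe09c90ed92614ad29949f25b78c6e34092446a10c8a04a6f1c91c1607946751eb16bc0daaff5997d3bb4f9e83c20f (k8 c21871 c5457 c5212 c20097 c5198 c5412 c1686 c5532 (k8 c5586 c5585 c5508 c5507 c5506 c5568 c5372 c5226 (k8 c5432 c690 c5779 c5317 c5565 c1113 c21947 c20289 (k8 c1195 c9733 c509 c5380 c1775 c9752 c15912 c15375 (k8 c2884 c14125 c5660 c1757 c1755 c1324 c5332 c5663 (k4 c1684 c5358 c20759 c22702 (k2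 c5404 c5487 (k1 c20913 k0)))))))) (by decide +kernel)
def c22709 : PP 9 3 T 0x8004000000000040000000000000000000000100000004000000000000000000000000000000000000000000000008400000000000000000000000000008 := rS 0x78bf694f5f6b212ef3803493ccc3fb2dbee054a75efb4f9b1fc21b0ea051a7d2488d421914094de392382c0f28d8e751fa08ec0daa0f (k8 c21871 c5585 c5508 c5504 c5212 c5568 c5372 c22707 (k8 c5226 c5432 c690 c5779 c5317 c5565 c1113 c21947 (k8 c20289 c1195 c9733 c509 c5566 c5381 c5380 c20811 (k8 c20794 c5457 c162 c20097 c5198 c8188 c5412 c5531 (k8 c22708 c175 c1718 c3059 c19374 c5680 c20761 c12473 (k8 c2500 c1643 c2883 c5502 c1928 c5657 c2505 c1177 (k1 c17949 k0))))))) (by decide +kernel)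
def c22710 : PP 9 3 T 0x4000000000040000000000000000000000100000004000000000000000000000000000000000000000000000008800000000000000000000000000008 := rS 0x1faf354bd5e3b46621a9593cef84361d88804721f0581e51b1 (k8 c22707 c5226 c5432 c690 c1112 c5317 c28 c9730 (k8 c20811 c20794 c5457 c5372 c5356 c22559 c889 c890 (k4 c5235 c22701 c5519 c2023 (k2 c2500 c20237 (k1 c17949 k0))))) (by decide +kernel)
def c22711 : PP 9 3 T 0x8000200000000000000000000080004000200000000000000000000000000000000000000000008000000000000000000020001000008 := rS 0x3246bde68b3526f204fb5eaf71df859e1b0e885571100c54479d198e42e310f82c0ef14bbf5526d (k8 c22545 c5489 c5405 c5404 c5401 c5432 c690 c1112 (k8 c5434 c5433 c5317 c5316 c5372 c9733 c1289 c28 (k8 c9730 c20861 c266 c20811 c20794 c20767 c5457 c5332 (k8 c5333 c5519 c19397 c1684 c3581 c261 c2500 c14987 (k4 c5688 c5450 c5494 c20849 k0))))) (by decide +kernel)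
def c22712 : PP 9 3 T 0x4000000000040000000000000000000000100000004000000000000000000000000000000000000000000000008000000000000000000000000000008 := rS 0xb07f90be51df6bc9eaf7066d2964554bf5e3b2f79dc8e1f0581e51b10c88c361d10aae2201cea3c502537e801e6d (k8 c22545 c21871 c5212 c5565 c1113 c21947 c5568 c5372 (k8 c28 c9730 c20861 c266 c20811 c20794 c9733 c20289 (k8 c22707 c5226 c5432 c690 c1112 c5779 c22710 c22709 (k8 c5229 c5401 c5405 c5489 c456 c22711 c5211 c5645 (k8 c20809 c20810 c3581 c5540 c17702 c5171 c5658 c11059 (k2 c15208 c1931 k0)))))) (by decide +kernel)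
def c22713 : PP 9 3 T 0x1400000000000000000000000000000000100040004000000000000000008000000200000000000000000000000000000000000100000000000000000 := rS 0x1e4a23bed (k4 c5540 c17702 c5165 c18677 (k1 c5436 k0)) (by decide +kernel)
def c22714 : PP 9 3 T 0x40000000000000000000000100040004000200000000000000000000000000000000000000000008000000000000000000000000000008 := rS 0x1ec47f647016d11e81c36ab888051edf49907690167bcda8772fa74479d1085d9663d899cfa4578ecbde28129bfbed33fa3740d7f17841e6d (k8 c22545 c21871 c5457 c22712 c5465 c5212 c5381 c5577 (k8 c5579 c20754 c5565 c1113 c21947 c22700 c5229 c5401 (k8 c456 c5566 c5487 c22685 c9752 c5464 c1307 c266 (k8 c5372 c9733 c5855 c1686 c11141 c20727 c22713 c20767 (k8 c3073 c5211 c5462 c536 c5580 c5568 c28 c9730 (k8 c20861 c20794 c5432 c5436 c19830 c690 c18677 c22694 (k2 c5779 c14397 (k1 c5498 k0)))))))) (by decide +kernel)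
def c22715 : PP 9 3 T 0x40000000000000000000000100040004000000000000000000000000000000000000000000000008000000000000000000000000000008 := rS 0x1e8f71c07fd83b0c4a5e6316a1dcbe9df08dc46630d87442ab888073a7dd8a4c821765f7da67f46b5dfa6754915e3b2f7f88502537e80da0f (k8 c21871 c22545 c5212 c5565 c1113 c21947 c22712 c22700 (k8 c5229 c5401 c456 c5489 c5487 c5405 c5465 c5381 (k8 c5577 c5579 c20754 c5464 c1307 c5462 c536 c22685 (k8 c5566 c5372 c28 c9730 c20861 c266 c20811 c20794 (k8 c9752 c9733 c1478 c5457 c5855 c1686 c11141 c20727 (k8 c1476 c22713 c22714 c5648 c12293 c5165 c1165 c10458 (k2 c5498 c3581 (k1 c2475 k0)))))))) (by decide +kernel)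
def c22716 : PP 9 3 T 0x400000000001000200000000000000000000000004000100000000000001000000440000000000000004000000000000000000100004000000400000 := rS 0x188d5a818c92051a7d (k8 c5566 c5381 c5380 c5209 c5648 c20816 c437 c1476 (k1 c5653 k0)) (by decide +kernel)
def c22717 : PP 9 3 T 0x40000000000000000000000100000004000000000000000000000000000000000000000000000008000000000000000000000000000008 := rS 0x665033793d5ee1fa511552fd78ecbbe1749fbf62d33fb5d9641f133c461b0e885571100e751a28129bf406d (k8 c22545 c5212 c5565 c1113 c21947 c5381 c5372 c28 (k8 c9730 c20861 c266 c20811 c20794 c9733 c20767 c22712 (k8 c5462 c5464 c5465 c5577 c5579 c22685 c22700 c536 (k8 c1307 c20754 c5229 c5401 c5405 c5489 c456 c22715 (k8 c5517 c5333 c5519 c3581 c388 c22716 c5315 c22711 k0))))) (by decide +kernel)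
def c22718 : PP 9 3 T 0x40000000000000000000000100000000000200000000000000000000000000000000000000000008000000000000000000000000000008 := rS 0x6c4339df089c262537e836b3a (k8 c22717 c20351 c5212 c5565 c1113 c5564 c267 c5457 (k4 c5372 c5315 c22590 c22313 k0)) (by decide +kernel)
def c22719 : PP 9 3 T 0x1000000000000055000000000000000000000100000000000100000000000000000000000000000000000000000008000000000000000000000000000000 := rS 0x1f2c97bfc59df0a04fba0 (k8 c5212 c5566 c5380 c5457 c5372 c5226 c20760 c5235 (k2 c5201 c19979 k0)) (by decide +kernel)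
def c22720 : PP 9 3 T 0x40000000000000000000000100000000000000000000000000000000000000000000000000000008000000000000000000000000000008 := rS 0x347be384b0193a17199dcbecd1fe492a9b0cec252c9d9fb526fc04a65523b7b9aa941fdabd462f31abc67428129bf41e13cb3c461b0e885571100e74ae6d (k8 c22545 c21872 c5372 c28 c9730 c20861 c266 c20811 (k8 c20794 c9733 c20767 c161 c5457 c5212 c5565 c1113 (k8 c21947 c22717 c5323 c5324 c5325 c5476 c5477 c20351 (k8 c9664 c5211 c5665 c8123 c5332 c20804 c2373 c1684 (k8 c3581 c261 c5542 c5405 c1181 c22718 c22719 c5393 (k8 c5397 c5446 c22626 c404 c2504 c5439 c5356 c12046 (k8 c1107 c1135 c20881 c3577 c17923 c20914 c1708 c6897 k0))))))) (by decide +kernel)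
def c22721 : PP 9 3 T 0x12000000000000000000000100000008000000000000000000000000000000000000000000000008000000000000000000000000000008 := rS 0x347be384b2742e332fb3725ed7e2a5ee6aa507fc2cf1186c3a2155c44039d788d5e6317aa4c32c94da55326d (k8 c22545 c5447 c5446 c5397 c5396 c5393 c5444 c5477 (k8 c5476 c5325 c5324 c5323 c5372 c28 c9730 c20861 (k8 c266 c20811 c20794 c9733 c20767 c5457 c9664 c5211 (k8 c5665 c8123 c20804 c3581 c5542 c22640 c2504 c5439 (k8 c12046 c1107 c1135 c3577 c17923 c5452 c1708 c6897 k0))))) (by decide +kernel)
def c22722 : PP 9 3 T 0x8000000000000000000000000020100000000001014000008000000000000000000000001000008 := rS 0xb06d2c70f61925d8f9d0d875e2351885cbe0f (k8 c21871 c1686 c1107 c5476 c5324 c5323 c20811 c20794 (k8 c5372 c162 c1708 c3577 c2129 c2130 c5333 c20809 (k2 c2470 c5645 k0))) (by decide +kernel)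
def c22723 : PP 9 3 T 0x800000000000000000000000000000000000000008000000000000000000000000000100000000000014000000000000000000000000000001400008 := rS 0xcd2e1b0ebc46a31 (k8 c5476 c5324 c5323 c20811 c20794 c5452 c5492 c3577 k0) (by decide +kernel)
def c22724 : PP 9 3 T 0x2000000000000000000000100000008000100000000000000000000002000000000000000000008000000000000000000000000000008 := rS 0x3dc3e381e1047ed469fbdfcd7f1c0dc6def9687254b7ef859e230d87442ab888073a7165ed88af11abcdea9b54b47be172fa77689564865266d (k8 c22545 c5444 c5393 c5396 c5446 c22721 c5412 c1686 (k8 c1107 c22723 c22722 c5531 c5397 c5477 c5325 c5324 (k8 c5323 c5326 c22720 c5420 c5571 c5372 c28 c9730 (k8 c20861 c266 c20811 c20794 c9733 c20767 c5457 c2504 (k8 c17804 c5215 c12830 c5221 c22550 c5549 c5550 c5580 (k8 c2191 c10866 c5586 c2943 c2507 c14449 c1656 c5655 (k4 c2771 c2472 c398 c3581 k0))))))) (by decide +kernel)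
def c22725 : PP 9 3 T 0x2000000000000000000000100000008000100000000000000000000000000000000000000000008000000000000000000000000000008 := rS 0x81fc9c7a11d648154b6b879fefd4b7b19bdf6885cbea94eed132954db243293f0b3c3aab888073a7165ed9e26d (k8 c22545 c5323 c22720 c5420 c5571 c5372 c28 c9730 (k8 c20861 c20811 c20767 c5457 c5444 c5393 c5396 c5397 (k8 c5446 c5447 c22721 c5412 c5531 c1686 c1107 c22722 (k8 c22723 c22724 c5688 c8710 c5542 c5544 c17757 c1767 (k8 c17804 c1112 c5215 c691 c12830 c8999 c5221 c5550 (k1 c10866 k0)))))) (by decide +kernel)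
def c22726 : PP 9 3 T 0x2000000000000000000010000000000000000000000008000000000000000000000000000000000000000000000000000000000000000000000040000008 := rS 0x352a36afd7b88c361d10aae220178bcdea6d (k8 c22545 c5477 c5325 c5323 c28 c9730 c20861 c266 (k8 c20811 c20794 c9733 c5498 c5542 c17757 c3581 c5665 (k1 c20804 k0))) (by decide +kernel)
def c22727 : PP 9 3 T 0x80000000000000100000008000100000000000000000000140000000000000000000000000000000000010000000000020000 := rS 0xf3c6d6408fd1a5b189f4fe77 (k8 c5356 c5358 c5442 c5476 c5474 c701 c2907 c700 (k4 c20816 c20727 c5655 c1491 k0)) (by decide +kernel)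
def c22728 : PP 9 3 T 0x10000000000000000000000100000008000100000000000000000000000000000000000000000008000000000000000000000000000008 := rS 0x2286fd0045aad3ef32766fc89aa5ee6aa57859e1b0e885571100ad55af37ae492ef1208a76c0b1d88fda1f0c6c46a5b1be74da0f (k8 c21871 c22545 c5372 c1478 c5474 c5324 c22725 c22108 (k8 c1165 c22726 c9733 c491 c691 c22720 c5417 c543 (k8 c5323 c1227 c5209 c5477 c5325 c5573 c5422 c28 (k8 c9730 c20861 c266 c20811 c20794 c20767 c5457 c5211 (k8 c5665 c8123 c20804 c2600 c3581 c5405 c1181 c5195 (k4 c13297 c5454 c22727 c16594 (k2 c5565 c22631 (k1 c1139 k0)))))))) (by decide +kernel)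
def c22729 : PP 9 3 T 0x100080008000100000000000000000000000000000000000000000008000000000000000000000000010008 := rS 0x1a189929f8497b87453b678e483e37058ec31b11a96c479d8aed04a0f (k8 c21871 c1114 c22728 c5414 c5372 c9733 c5474 c5324 (k8 c22725 c22108 c491 c691 c1478 c1165 c5209 c5323 (k8 c22720 c5417 c20811 c5333 c5334 c17804 c17828 c17863 (k2 c22631 c12663 k0)))) (by decide +kernel)
def c22730 : PP 9 3 T 0x800000000000000000000000000000000100000008000100000000000000000000000000000000000000000008000000000000000000000000000008 := rS 0xfd7be80714b08b4c66d50086c3af179bd7241f1b90453b6058ec31b11a96c479d8aaa7680f (k8 c21871 c22728 c5531 c5414 c5372 c9733 c5474 c5324 (k8 c22725 c22108 c491 c691 c22720 c5417 c543 c1478 (k8 c1165 c5209 c5477 c5325 c5323 c20811 c20794 c28 (k8 c5454 c5492 c5496 c22727 c22729 c10458 c17869 c397 (k2 c22631 c17991 k0))))) (by decide +kernel)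
def c22731 : PP 9 3 T 0x100040008000100000000000000000000000000000000000000000008000000000000000000000000000008 := rS 0x6a84128d3d0b25f8f70633c021b0ea7d5af37ae483e374bbc48229058ec31b11a96c479d8aaa766b7da6dbbe0f (k8 c21871 c22730 c22720 c22728 c5533 c8057 c5531 c5414 (k8 c5372 c9733 c5474 c5324 c22725 c22108 c491 c691 (k8 c5417 c543 c5323 c1227 c1478 c1165 c5209 c5477 (k8 c5325 c5573 c5572 c20811 c20794 c28 c20767 c5645 (k8 c20809 c17991 c1181 c22631 c13297 c5678 c17869 c1589 (k1 c22727 k0)))))) (by decide +kernel)
def c22732 : PP 9 3 T 0x100000008000100000000000000000000000000000000000000000008000000000000000000000000000008 := rS 0xd44a34d92107e52bbfb35bed08297c906362cf0ea7c52addb3c46a5b (k8 c5474 c5324 c5323 c22720 c5573 c5417 c5572 c20811 (k8 c20767 c22725 c22108 c5209 c1227 c543 c22728 c5533 (k8 c8057 c22730 c22731 c17804 c22729 c1181 c13297 c5678 (k2 c22727 c1589 k0)))) (by decide +kernel)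
def c22733 : PP 9 3 T 0x100000008000000000000000000000000000000000000000000000008000000000000000000000000000008 := rS 0xd568237c4e1ef84103f2d0bf1ef4b060e81077669fd2e602faa62a9d3efb769b10fe4c160719ca1ea312dbcc6af1f0b3c479d0098c361d38a7d962714ed80a57 (k8 c21872 c21870 c22720 c5417 c5570 c5420 c5572 c5571 (k8 c20811 c20794 c9752 c28 c5372 c9733 c20767 c5457 (k8 c5323 c5324 c5325 c5474 c5476 c5477 c22732 c5316 (k8 c5432 c690 c20880 c1112 c22595 c5235 c22726 c18801 (k8 c5412 c5414 c5531 c1686 c5663 c20768 c728 c20274 (k8 c890 c20850 c1684 c1685 c5332 c20809 c17991 c22631 (k8 c22652 c22549 c17869 c19292 c5591 c5670 c701 c5688 (k2 c1710 c20727 k0)))))))) (by decide +kernel)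
def c22734 : PP 9 3 T 0x80000000040000000000000100040004000000000000000051000000000000000005000000000150400000000000001000000440020008 := rS 0x23be279685fbb20d874426d (k8 c22545 c266 c20811 c20794 c22131 c20237 c19230 c3581 (k2 c5670 c17702 (k1 c22690 k0))) (by decide +kernel)
def c22735 : PP 9 3 T 0x81000000040000000000000100040004000000000000000050000000100000000005000040000050400000000000001001000440020048 := rS 0x84d6f7b4d1ac98eecde081228a55a19 (k8 c6205 c5573 c5417 c20747 c699 c22734 c5401 c551 (k4 c1177 c702 c13297 c20761 (k2 c20751 c5658 (k1 c1933 k0)))) (by decide +kernel)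
def c22736 : PP 9 3 T 0x40000000000000100040000000000000000000000000000100000000000000000000008000000000000000000000000000008 := rS 0x1a1ec6b7bd9ad37037d924a78127c7f3d984d1a8123e804a116388c42ab8880566b556ced5219718e4623d3b9f5969f138a43e973f98362632fa776871db3ddea0c0581e51e1ce83c0a6d (k8 c22545 c21870 c21871 c5372 c5457 c5215 c5432 c690 (k8 c5645 c20810 c20809 c22720 c5571 c5211 c5412 c1686 (k8 c9752 c22595 c5663 c728 c20768 c1112 c5417 c5570 (k8 c5572 c5420 c18801 c22559 c5436 c5434 c5317 c17695 (k8 c6205 c5531 c22733 c5573 c5422 c5574 c28 c9730 (k8 c20861 c266 c9733 c162 c22735 c1114 c17869 c2368 (k8 c5380 c5381 c5564 c19230 c17998 c22688 c10368 c22131 (k8 c5660 c1177 c2510 c15375 c13297 c13053 c19374 c20751 (k2 c5171 c10298 (k1 c5501 k0)))))))))) (by decide +kernel)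
def c22737 : PP 9 3 T 0x400000000005000000000000000000000000000004000000000000000000000000000000000000000050000000000000000000000000000001000008 := rS 0x190f0 (k2 c22131 c5678 (k1 c1177 k0)) (by decide +kernel)
def c22738 : PP 9 3 T 0x40000000000000100040000000000000000000000000000000000000000000000000008000000000000000000000000000008 := rS 0x8e85e3b24aa07bed47abdcfe970607cc07d05ec4ee3d03ca033e11198d5711009c53ecb138a76d3b5497d3bb4ce83c0a6d (k8 c22545 c21870 c21871 c5372 c5211 c5412 c1686 c5531 (k8 c22733 c22720 c5417 c5570 c5420 c5572 c5571 c28 (k8 c9730 c20861 c9752 c9733 c5457 c6205 c5215 c5432 (k8 c5436 c22559 c22595 c690 c18801 c5663 c1112 c5645 (k8 c20768 c728 c20809 c20810 c22736 c5454 c20766 c1589 (k4 c22737 c5401 c19230 c22734 (k1 c17869 k0))))))) (by decide +kernel)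
def c22739 : PP 9 3 T 0x100040000000200000000000001000000000000000000000000000008000000000000000000000000000008 := rS 0x6ab5da68d40915fd1d087c9e5a17eec99e230d87442ab8880563b69daa768093ee487a1f7bbd4180b03e741e6d (k8 c22545 c21871 c5372 c5432 c690 c5645 c20810 c20809 (k8 c1112 c5436 c22738 c5442 c5438 c5211 c5531 c22733 (k8 c22720 c5421 c28 c9730 c20861 c266 c20811 c20794 (k8 c9733 c20767 c22131 c20237 c19230 c3581 c5221 c17869 (k8 c17702 c15208 c20747 c699 c702 c2943 c19455 c18677 (k1 c20816 k0)))))) (by decide +kernel)
def c22740 : PP 9 3 T 0x40004000000000000000050000000000000000000000880000000000000000000000100000000000000 := rS 0xf6bcdf8cc (k4 c1232 c1231 c2500 c5542 (k1 c5657 k0)) (by decide +kernel)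
def c22741 : PP 9 3 T 0x11008000000000000010004000000000000000000000a000000140000001400000000000000000000000000000001014140000441 := rS 0x35d1a8121043e4238aed0fb1d (k8 c551 c5442 c5211 c5414 c9733 c5221 c17869 c18906 (k4 c699 c702 c1933 c20816 k0)) (by decide +kernel)
def c22742 : PP 9 3 T 0x1000000000000000000010080000000000000100040004000000000000000002000000140000001400000000000000000000000000000001014000000448 := rS 0x3e44712fbd1e6f46a0740f211804427d3f9dc3ef77a8301e6d (k8 c22545 c21871 c5645 c20810 c20809 c1112 c5356 c5358 (k8 c5442 c266 c28 c9733 c5657 c22741 c5380 c5381 (k4 c5565 c5568 c20761 c1113 (k2 c2367 c5171 (k1 c17998 k0))))) (by decide +kernel)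
def c22743 : PP 9 3 T 0x2000000000000005000000000000000000000000000004000200000000000050000000001000000000000044000000000000000000000440000000000008 := rS 0x941a77de6d10c8cc7231 (k8 c5434 c5317 c5316 c5315 c5501 c5540 c17847 c18037 (k2 c22737 c1583 k0)) (by decide +kernel)
def c22744 : PP 9 3 T 0x100040000000200000000000000000000000000000000000000000008000000000000000000000000000008 := rS 0x4af7da9ed66b4d2ec9d9bc3629a1dbd5ee0c0f82c62071c865669f138a56aaddb4ed32231b885525f4eed33a9304e481e6d (k8 c22545 c21871 c22738 c5438 c261 c5372 c5211 c5412 (k8 c1686 c5531 c266 c1478 c9733 c7114 c22733 c22720 (k8 c5573 c5422 c5417 c5570 c5572 c5574 c5315 c5317 (k8 c5432 c5434 c690 c1112 c5645 c20809 c20810 c289 (k8 c18018 c18438 c22739 c5401 c1177 c22740 c13297 c13053 (k4 c22743 c22742 c5454 c1589 (k1 c22737 k0))))))) (by decide +kernel)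
def c22745 : PP 9 3 T 0x1000800000000000000200000000000000000100040004000000000000000000000000000000001400000000000040000000000000000000014440002008 := rS 0x1f223897de8f37885aa6d (k8 c22545 c5454 c266 c5565 c5568 c20759 c1113 c2367 (k2 c5171 c17998 k0)) (by decide +kernel)
def c22746 : PP 9 3 T 0x1000800000000000000010080000000000000100040004000000000000000002000000040000001400000000000000000000000000010000014000000408 := rS 0x201ae8d21043e5a1790044315da1f4fef711c743ef5063541e6d (k8 c22545 c21871 c5454 c5645 c20810 c1112 c551 c9733 (k8 c499 c5358 c5442 c5211 c5414 c266 c28 c5657 (k8 c22745 c5221 c17869 c18906 c702 c1934 c20816 c700 k0))) (by decide +kernel)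
def c22747 : PP 9 3 T 0x80000000000000100000000000100100000000000000000140000000000000000000000000000000000010000000000020000 := rS 0x1ae81468fcfa7f (k4 c5358 c5442 c2907 c702 (k2 c700 c18221 (k1 c20816 k0))) (by decide +kernel)
def c22748 : PP 9 3 T 0x5000000000000000000000100040000000000000000000000000000040000000000000000000008000000000000000000000000000408 := rS 0x7891ba008b47d8416a863bc7900acc4eb50b97d3bb4ce9f4ee9304e4a531d784ec53b6 (k8 c22720 c5417 c22733 c22131 c551 c22744 c22738 c5438 (k8 c261 c5356 c5442 c5372 c5211 c5412 c1686 c1107 (k8 c5422 c5570 c5574 c28 c161 c5224 c5648 c5454 (k8 c543 c22746 c5501 c22747 c17869 c5381 c19685 c20727 k0)))) (by decide +kernel)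
def c22749 : PP 9 3 T 0x4000000000000000000000100040000000000000000000000000000040000000000000000000008000000000000000000000000000408 := rS 0x1dff7b5083e325841bdf2d0ec0027165c75e13b14ed8703b066741392f0ca46e0f (k8 c21871 c1478 c22744 c5457 c22738 c5438 c5372 c5645 (k8 c289 c5654 c22720 c5417 c22733 c22131 c551 c5420 (k8 c5571 c28 c22748 c12830 c5221 c22550 c17869 c5546 (k4 c5580 c546 c22747 c5585 (k2 c5454 c5166 k0))))) (by decide +kernel)
def c22750 : PP 9 3 T 0x10000000000a0000000000000000000000100040004000100000000000000000000080000000000000000000000000000000000000000000000000000 := rS 0xf77b3bfe3 (k4 c5579 c5496 c5165 c5166 (k1 c17711 k0)) (by decide +kernel)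
def c22751 : PP 9 3 T 0x4000000000000000000000100040000000000000000000000000000000000000000000000000008000000000000000000000000000008 := rS 0x43f7bf91e8d228407fe380a44930389b7be5a1d80e90ef30682a3af77808ce2cb14a752609c934e53b4cecef6de1 (k8 c5457 c22720 c22733 c5372 c5211 c22744 c22750 c22738 (k8 c5438 c261 c5412 c5417 c5420 c5571 c9733 c22131 (k8 c499 c551 c22749 c34 c20781 c693 c691 c12293 (k8 c12830 c5221 c22550 c5547 c5550 c5588 c5589 c5592 (k8 c5580 c494 c17813 c20747 c702 c2752 c20762 c20818 (k2 c2781 c5658 k0)))))) (by decide +kernel)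
def c22752 : PP 9 3 T 0x100040000000000000000000000000000000000000000000000000008000000000000000000000000000008 := rS 0x8e3c9ee107a8cdaa0b1c105fdde1d863e5edd8e8764d394a4c13920b97d3bb4f088f3a0114ac76d3b (k8 c22733 c22720 c5421 c5417 c28 c5372 c9733 c5457 (k8 c5211 c5412 c1686 c1107 c22738 c5438 c261 c22744 (k8 c22750 c22751 c19230 c18631 c22695 c5221 c5648 c12293 (k8 c5165 c15208 c543 c10458 c691 c5454 c5492 c4655 (k4 c17869 c397 c5657 c22747 (k1 c17702 k0)))))) (by decide +kernel)
def c22753 : PP 9 3 T 0x110000000000000000000000000000000200400000008000000000000000000000000000000000000000000000000000000000000 := rS 0x24494fe (k4 c555 c554 c20750 c13156 k0) (by decide +kernel)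
def c22754 : PP 9 3 T 0x100080000000000000100000004000100000000000008000000040000000000000000000008000000000000010010000000020000 := rS 0x213523bef899173a33679f4fe77 (k8 c5356 c5358 c5442 c20767 c388 c5372 c20747 c3828 (k4 c20940 c22753 c22747 c5658 (k1 c2779 k0))) (by decide +kernel)
def c22755 : PP 9 3 T 0x8000000080000000000000100000000000100000000000000000000040000000000000000000008000000000000000000000000000008 := rS 0x112089046a180bec4be299d92526091de876cf27ebdd57110086c479d0ebd43f4a78aa4426d (k8 c22545 c266 c5489 c5401 c22752 c5517 c5519 c20811 (k8 c5372 c9733 c20794 c28 c9730 c20861 c5333 c5405 (k8 c3581 c22720 c19230 c5332 c1684 c261 c5334 c22733 (k8 c5417 c5439 c18631 c1107 c5648 c437 c543 c22754 (k2 c16594 c17863 k0))))) (by decide +kernel)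
def c22756 : PP 9 3 T 0x8000000000000000000000100000000000100000000000000000000040000000000000000000008000000000000000000000000000008 := rS 0x462644408d593e20306726337968552fd78b3c461b0e885571100e776d3b0fbddea93048ee946d (k8 c22545 c22752 c5332 c1684 c261 c5519 c5333 c5517 (k8 c22733 c22720 c5372 c28 c9730 c20861 c266 c20811 (k8 c20794 c9733 c20767 c5401 c5405 c5489 c19230 c3581 (k8 c388 c22755 c6205 c17741 c5216 c10198 c20806 c5463 (k4 c22672 c956 c20747 c16594 k0))))) (by decide +kernel)
def c22757 : PP 9 3 T 0x100000000000000000100000000000100000000000000000000000000000000000000000008000000000000000000000000010008 := rS 0x1b535e4fe7121288f3a2188805662714ad76c1f2491e946d (k8 c22545 c22752 c5520 c5334 c5517 c22720 c5422 c5417 (k8 c5570 c5574 c28 c9730 c266 c5372 c9733 c1114 (k4 c16594 c17998 c17863 c2600 (k2 c22661 c5665 k0)))) (by decide +kernel)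
def c22758 : PP 9 3 T 0x100040000000000000100000000000100000000000000000000000000000000000000100008000000000000000000000000000008 := rS 0x1e2d84ec8a7d08024774a (k8 c22752 c5332 c1684 c22757 c2748 c20747 c22733 c5209 (k2 c5216 c22675 k0)) (by decide +kernel)
def c22759 : PP 9 3 T 0x8000000000004000100000000000000000100000000000100000000000000000000000000000000000000000008000000000000000000000000000008 := rS 0x77f62d4701f4123b4791e9477c9234211d784ec53b6 (k8 c22720 c5417 c22733 c22131 c551 c22757 c702 c22758 (k8 c5356 c22752 c5520 c2751 c5332 c1684 c2748 c22699 (k4 c20727 c22680 c5454 c5224 k0))) (by decide +kernel)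
def c22760 : PP 9 3 T 0x5000000080000000000000100000004000100100000000000000000040000000000000004000000000000000000000000010000420000 := rS 0x20b5431de (k4 c5224 c5648 c5454 c543 (k1 c22747 k0)) (by decide +kernel)
def c22761 : PP 9 3 T 0x40004000000000000000100000000000000000000000000000000000400000000000000000400000000000504400048000000000000020400000141400000 := rS 0x271c4396fa43c23711e75c20f (k8 c21871 c1714 c5372 c9733 c1478 c5457 c5675 c2948 (k4 c547 c5691 c3578 c1777 k0)) (by decide +kernel)
def c22762 : PP 9 3 T 0x500000008000000400000000500000041000408 := rS 0xd49cda8dc479d10c4402930485cda0f (k8 c21871 c22545 c1107 c1684 c261 c28 c9730 c266 (k4 c5372 c9733 c1478 c18018 (k2 c3578 c5665 (k1 c1135 k0)))) (by decide +kernel)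
def c22763 : PP 9 3 T 0x4000000000000000100000000000000000000000000000000000400000000000000000400000000000504400048000000000000020600000141400000 := rS 0x95f2 (k2 c22761 c546 (k1 c5546 k0)) (by decide +kernel)
def c22764 : PP 9 3 T 0x100000000000000000100000000000100000000000000000000040000000000000000000008000000000000000000000000000008 := rS 0x1dff7b5102411c2653619d878c2e773f97f248d479f6261010b2c3e0b23a4c123ba5475e1b39d8a76c6d (k8 c22545 c22720 c5417 c22733 c22756 c22131 c551 c22752 (k8 c5332 c1684 c261 c5520 c5516 c5517 c5420 c266 (k8 c22757 c3828 c2748 c2751 c702 c22758 c5439 c5358 (k8 c5356 c1107 c22759 c22760 c5393 c5397 c5447 c22762 (k4 c22763 c700 c22747 c20761 (k2 c5454 c5166 k0)))))) (by decide +kernel)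
def c22765 : PP 9 3 T 0x40000000000000000000000000000000000000000000000000000000000000000000400000000000400010400000088000000000001400000005141000080 := rS 0x228de1f784479d (k4 c5372 c9733 c5457 c677 (k2 c892 c9334 (k1 c2950 k0))) (by decide +kernel)
def c22766 : PP 9 3 T 0x2000000000000000000000100000000000100000000000000000000040000000000000000000008000000000000000000000000000008 := rS 0x7b1e4d122353c4ff6bf7d9a4a4b0c22a16357bcbc7f3b81867934d86542c7f09e4e66338b2c92f58ebc3673b469f5c681f9894dfa05aacc4223ce89c8e1fa50a76c6d (k8 c22545 c22720 c5417 c22752 c5517 c5520 c5570 c5372 (k8 c9733 c266 c5574 c5422 c22764 c5565 c1113 c17998 (k8 c5380 c1775 c5566 c5381 c22733 c22756 c22131 c551 (k8 c5519 c5334 c5420 c5571 c9752 c19419 c161 c5457 (k8 c162 c5398 c5393 c5397 c12830 c385 c17741 c673 (k8 c22765 c19981 c20761 c6192 c1450 c1139 c1214 c1213 (k8 c17941 c1916 c5452 c1767 c2569 c5166 c20751 c22675 (k4 c1711 c460 c20893 c5540 k0)))))))) (by decide +kernel)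
def c22767 : PP 9 3 T 0x100000000000100000000000000000000040000000000000000000008000000000000000000000000000008 := rS 0x1146f12dc23e4e8f430d6f185ceed52fe4bbdb1f9895c67d37a3503a08ebc367e111e7442b3138a56bb69d87c8e93048ee946d (k8 c22545 c22752 c5332 c1684 c261 c5520 c5517 c22733 (k8 c22720 c5422 c5417 c5570 c5574 c266 c5372 c9733 (k8 c5457 c22756 c22131 c551 c22764 c5380 c5381 c5565 (k8 c5566 c1775 c1113 c17998 c22766 c5224 c5209 c9668 (k8 c5454 c5493 c1107 c20727 c20816 c5648 c1492 c1273 (k4 c6195 c22705 c408 c5691 (k2 c17941 c2951 k0))))))) (by decide +kernel)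
def c22768 : PP 9 3 T 0x1000000000000000000000100000000000100000000000000000000000000000000000000000008000000000000000000000000000008 := rS 0xf066181f841e4173768552fd7897f64cf1186c3a2155c44039d38ed83ef77aa4c123ba5237dddff1b4a766d (k8 c22545 c22733 c22767 c5579 c5496 c5166 c5505 c22752 (k8 c5332 c1684 c261 c5519 c5333 c5517 c22720 c5571 (k8 c5372 c28 c9730 c20861 c266 c20811 c20794 c9733 (k8 c20767 c5224 c9668 c5401 c5405 c5489 c19230 c18613 (k8 c1107 c3581 c22757 c4868 c5648 c388 c6195 c2769 k0))))) (by decide +kernel)
def c22769 : PP 9 3 T 0x100000000000000000100000000000100000000000000000000000000000000000000000008000000400000000000000000000008 := rS 0xcc78f01f907667f47c4f241010b2f6d3b23a4c13e36905c709b0ca67600b0f8ee946d (k8 c22545 c22752 c5332 c5517 c5516 c22768 c5447 c5393 (k8 c5397 c22762 c1107 c22767 c5579 c1684 c261 c5520 (k8 c22733 c22720 c5420 c266 c22757 c5216 c3828 c2751 (k8 c5358 c18631 c22763 c2907 c22131 c5655 c385 c2769 k0)))) (by decide +kernel)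
def c22770 : PP 9 3 T 0x100000000000100000000000000000000000000000000000000000008000000400000000000000000000008 := rS 0xf98184ae33f64cde81d008f3a2138acd962714ad76c1f2491e94a10ca6f606d (k8 c22545 c22768 c5397 c5393 c5398 c22752 c5520 c5334 (k8 c5517 c22720 c5422 c5417 c5570 c5420 c5574 c5571 (k8 c266 c5372 c9733 c22769 c5380 c5565 c12830 c17744 (k4 c1775 c1113 c17741 c17998 (k1 c22765 k0))))) (by decide +kernel)
def c22771 : PP 9 3 T 0x100000000000100000000000000000000000000000000000000000008000000000000000000000000000008 := rS 0x180ffe6f08a897666f0b6800ce33564cbc9b0cec3c6d263f84f223ce885662714ad76d3b0f9248e091dd280a6d (k8 c22545 c21870 c22752 c5332 c1684 c5520 c5334 c5517 (k8 c22733 c22720 c5422 c5417 c5570 c5574 c266 c5372 (k8 c9733 c161 c5457 c162 c22767 c5579 c22768 c5393 (k8 c5397 c22770 c5439 c6192 c4304 c17734 c5216 c1450 (k8 c5565 c19230 c1113 c1139 c22131 c17998 c9334 c1214 (k1 c1919 k0)))))) (by decide +kernel)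
def c22772 : PP 9 3 T 0x2000000000000000000000000000000000200000000000000000000000000000000000000000008000000000000000400000040000408 := rS 0xbd924ca6c3239 (k4 c5317 c5315 c5397 c5447 (k2 c22595 c22762 (k1 c5439 k0))) (by decide +kernel)
def c22773 : PP 9 3 T 0x1000000000000000000000000000000000000000000000000000000000000000000000000000008000000800000000000000000000000 := rS 0x1b44e64f3be1 (k4 c5457 c5372 c5439 c1686 (k2 c5235 c5412 k0)) (by decide +kernel)
def c22774 : PP 9 3 T 0x80000200040000000000000000080000000200000000000000000000000000000000000000000008040000000000000000000000000008 := rS 0x4150b81be4af9f8c4a6f4088c42b35a91d26091c8fdc67d65a7c4e294e9fcc0632f9c62bb4ceec4161f1df840a6d (k8 c22545 c21870 c5457 c5332 c5517 c5516 c22772 c5372 (k8 c5235 c5414 c5571 c22773 c9752 c5663 c728 c1697 (k8 c5417 c5570 c5572 c5420 c18801 c17695 c5318 c5317 (k8 c1684 c261 c5520 c5422 c5574 c266 c9733 c5380 (k8 c5565 c1113 c18620 c17998 c17828 c16463 c15375 c10309 (k2 c1714 c10308 k0)))))) (by decide +kernel)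
def c22775 : PP 9 3 T 0x40000000000000100000000000000000000000000000000000000000000000000000008000000000000000000000000000008 := rS 0x481bbe68f1237c8210f144d03a18a9ff68603eb8f3be139804c6714fb2c4e29db11d26092fec6500b0f8ee9405 (k8 c21870 c22752 c5332 c5517 c5516 c22771 c22772 c22773 (k8 c1684 c261 c5520 c22720 c5417 c5570 c5420 c5572 (k8 c5571 c9752 c28 c19419 c5457 c5372 c17695 c18801 (k8 c5663 c5235 c728 c5414 c22774 c22549 c956 c5670 (k8 c18893 c5462 c5580 c18620 c2751 c17862 c1113 c5675 (k1 c3038 k0)))))) (by decide +kernel)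
def c22776 : PP 9 3 T 0x40000000000000000000110000000000000000100000000000000000000000000000000000000000000000001000000000000000000400000002000000408 := rS 0x8f898402601 (k4 c28 c2805 c1114 c12633 (k2 c2751 c5675 k0)) (by decide +kernel)
def c22777 : PP 9 3 T 0x40000000000000020000100000000000000000100000000000000000000000000000000000000000000000000000008008000000000000000000000000008 := rS 0x142416f8444b9df0885669f6589c52471f85c7a9d71a6926091b8e4bfb10f8ec174a0cca16bb648c541e6d (k8 c22545 c21871 c5414 c3038 c22720 c5422 c22771 c5315 (k8 c22752 c5516 c5332 c5517 c22772 c22773 c5317 c1478 (k8 c1684 c261 c18018 c2621 c5412 c5436 c5433 c5318 (k8 c5520 c5417 c5570 c5420 c5572 c5574 c266 c5457 (k4 c5372 c22776 c2745 c16463 (k2 c12636 c10309 (k1 c3579 k0))))))) (by decide +kernel)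
def c22778 : PP 9 3 T 0xa0000010000000000000000100080004000200000000000001000000000000000000000000000000000000400000000000000000000108 := rS 0x667b5e4fdd906c3a1f7bbd472a9 (k8 c5531 c5317 c5519 c5333 c5517 c20811 c20794 c22131 (k4 c20237 c17991 c22695 c20942 (k1 c2500 k0))) (by decide +kernel)
def c22779 : PP 9 3 T 0x20000100000000000000000100000000000000000000000000000000000000000000000000000008008000000000000000000000000008 := rS 0x66a590cd26bb55fe8d40a3c8a10124060713f9244461b10acc4eb55691c0e3d3e9fcef928aa6926371cece3a2964bc0bfb10587c123ba54ef6d9d0cca01e6d (k8 c22545 c21871 c22771 c5315 c5372 c22720 c22733 c22752 (k8 c5332 c1684 c5517 c5516 c22772 c22773 c22778 c1177 (k8 c5417 c551 c5401 c5317 c1478 c261 c18018 c5414 (k8 c22775 c5356 c5358 c5442 c5436 c5432 c5520 c5573 (k8 c5422 c5570 c5574 c266 c20794 c9733 c3038 c22777 (k8 c5547 c5550 c5592 c17998 c16594 c2969 c2751 c699 (k8 c702 c11059 c18677 c19455 c20751 c20762 c13297 c2073 (k1 c1232 k0)))))))) (by decide +kernel)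
def c22780 : PP 9 3 T 0xa0000000000000000000000000080000000200000000000000000400000000000000000004000008000000000000000000001100000000 := rS 0x82a17037c95f3f1f84479d59a7d962714ad4761f23864723f0b8f53b15 (k8 c5414 c5412 c5436 c5433 c5318 c5317 c5315 c5520 (k8 c5517 c5332 c5422 c5417 c5570 c5420 c5572 c5574 (k8 c5372 c9733 c5457 c18620 c17998 c17828 c16463 c15375 (k2 c10309 c1714 (k1 c3579 k0))))) (by decide +kernel)
def c22781 : PP 9 3 T 0x20000000000000000000000100000000000000000000000000000000000000000000000000000008000000000000000000000000000008 := rS 0x3426e1238d343710ad76c9304864725fd8ca0161f1dd28da0f (k8 c21871 c22545 c22752 c5332 c5517 c5516 c22771 c22772 (k8 c22773 c5317 c5315 c1684 c261 c22720 c5422 c266 (k4 c1478 c18018 c2621 c22780 (k2 c1113 c5565 (k1 c22779 k0))))) (by decide +kernel)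
def c22782 : PP 9 3 T 0x5000000000000000000000000000004000000000000000000000000400000000010000040000140400000000000001000002001000008 := rS 0x34992f0 (k4 c22131 c1177 c10414 c13297 k0) (by decide +kernel)
def c22783 : PP 9 3 T 0x1000000000000000000000100000004000200000000000050000000000000000015000802000150408000000000100000002440000108 := rS 0xcd693c9aafd78abf649770281af144686c3a210c8e47a6d (k8 c22545 c5436 c5317 c5315 c266 c20811 c20794 c10035 (k8 c3038 c19455 c1191 c1192 c4064 c22782 c5406 c5401 (k4 c5405 c3000 c3581 c20751 (k2 c2500 c3063 k0)))) (by decide +kernel)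
def c22784 : PP 9 3 T 0x80000000000000008000110000000000000000100000004000000001400000050000000000000000505000000000000000000000000500000000154000000 := rS 0x238f27f3f5e223 (k4 c9733 c5401 c5405 c17868 (k2 c3581 c11059 (k1 c22753 k0))) (by decide +kernel)
def c22785 : PP 9 3 T 0x1000010000000000000000100080004000200000400000000000000000000000510000800000050408800000000000000010000000108 := rS 0x19a964335dfe8d21475e1b381c07e51548891028f2284342230d87442ab888043ef77a91c3207188f5526d (k8 c22545 c20804 c5436 c5434 c5432 c5315 c5520 c5519 (k8 c5333 c5517 c28 c9730 c20861 c266 c20811 c20794 (k8 c9733 c5565 c16594 c20747 c2751 c699 c2745 c22783 (k8 c1140 c5675 c19568 c5550 c22784 c22131 c551 c1218 (k4 c702 c11059 c1933 c20762 (k2 c22782 c2073 (k1 c1232 k0))))))) (by decide +kernel)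
def c22786 : PP 9 3 T 0x100000000000000000000000000000000000000000000000000000008000000000000000000000000000008 := rS 0x4070285bff3f1c544a6f71a693b134c9ab6a773f9f7245fd88f42e3f1c86650930491c161f1dd2a76ad5aac4522765a7d67b68888403e13c88f3a6d (k8 c22545 c5372 c9733 c161 c5457 c28 c266 c9730 (k8 c22720 c5574 c5572 c5420 c5570 c5417 c5421 c5422 (k8 c5573 c22733 c22752 c5332 c5517 c5516 c5520 c1684 (k8 c261 c22771 c5315 c5317 c5318 c5433 c5436 c22772 (k8 c22773 c22775 c5442 c5358 c5356 c22781 c5665 c2373 (k8 c2600 c1135 c22762 c6448 c22785 c1113 c1139 c18620 (k4 c17998 c16463 c10309 c5691 (k2 c3579 c1714 k0)))))))) (by decide +kernel)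
def c22787 : PP 9 3 T 0x40005000000000000000000000000000000000000000000000200001000000000000440000400000000004002000050054004400008000400015000000100 := rS 0x10502a1700e47e05 (k8 c21870 c5318 c5317 c15375 c10309 c908 c1714 c10308 k0) (by decide +kernel)
def c22788 : PP 9 3 T 0x40000000000000000000000000000000000000100080000000200001500000000000000000000000000000000000008004400000000000000001100000000 := rS 0x11d0a01c49047b7c95e1119cc527159a7d96275a97c123b31a7473e33081f6c7d3fe4b63b4ce8000605 (k8 c21870 c22786 c5642 c5372 c17712 c9578 c20101 c5358 (k8 c5442 c20261 c5432 c661 c16071 c5317 c5412 c888 (k8 c5332 c1684 c1687 c5422 c5570 c5420 c5572 c5574 (k8 c5571 c9694 c19419 c9733 c5457 c17828 c16463 c12624 (k4 c18007 c22787 c1775 c5380 (k2 c699 c12663 k0)))))) (by decide +kernel)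
def c22789 : PP 9 3 T 0x100000000000000000000000000000000000000000000000000000200000000000000000000000000040040 := rS 0x23a1 (k2 c5380 c699 (k1 c12617 k0)) (by decide +kernel)
def c22790 : PP 9 3 T 0x40000000000000000000000000000000000000100080000000200001500000000000000000000000000000000000008004400000000000000000100000000 := rS 0x104768522de5038d0213121fcfb9230ec40fe1399c5669f65ad76c5f2398f680001e74da05 (k8 c21870 c22545 c5372 c22786 c5642 c17712 c888 c5520 (k8 c1687 c20261 c5422 c5420 c5572 c5574 c5571 c19419 (k8 c5457 c5432 c9578 c661 c20101 c5442 c5358 c22788 (k8 c2804 c22789 c1775 c3599 c10309 c2948 c17856 c3604 (k2 c12617 c2751 k0))))) (by decide +kernel)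
def c22791 : PP 9 3 T 0x40000000000000000000000000000000000000100000000000100001000000000000400000000000000000002000118004004400000000000000000000040 := rS 0x281be7fc91873be1399c53ecbdb0000605 (k8 c21870 c22786 c5642 c20261 c5420 c5572 c5571 c19419 (k8 c5457 c5372 c661 c17741 c5358 c2948 c3599 c10309 k0)) (by decide +kernel)
def c22792 : PP 9 3 T 0x4000100000000000000000100000004000100000000000000000000000000000000000000100150004004400000010000000000020002 := rS 0x3c4d51e9dfbc92c96c47e7338a7d97b6 (k8 c20261 c5420 c5572 c5571 c19419 c2907 c18032 c5209 (k4 c17971 c5224 c5356 c1569 (k2 c5454 c5655 (k1 c20727 k0)))) (by decide +kernel)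
def c22793 : PP 9 3 T 0x4000100000000000000000100000004000100000000000000000000000000000000000000100110004004400000010000000000020002 := rS 0x64fc67e (k4 c22792 c5577 c5358 c5216 k0) (by decide +kernel)
def c22794 : PP 9 3 T 0x40000000000000000000000000000000000000100000004000100001500000000000400000000000000000000000118004400000000400000002000020000 := rS 0x5a8e343ded36a9dcffdec96c74041036cd1a9047b1cf27338acd62b5db17cc7b40000f3a05 (k8 c21870 c5372 c22786 c5642 c17712 c888 c1687 c20261 (k8 c5422 c5421 c5574 c5571 c19419 c161 c162 c2751 (k8 c18007 c10035 c20841 c22791 c1734 c22793 c13678 c5209 (k8 c5224 c5358 c5356 c5454 c5496 c20821 c21540 c22747 (k2 c9793 c2159 k0))))) (by decide +kernel)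
def c22795 : PP 9 3 T 0x40000000000000000000000000000000000000100080004000100001500000000000400000000000000000000000108004400000000000000002000000000 := rS 0x8e8fcb4a16835bde776ff7b247fd89040c90d9a37401163f84f27159ad76c5f2398f680001e74fa13048ecae05 (k8 c21870 c21872 c5332 c1684 c2804 c8164 c5372 c22786 (k8 c5642 c17712 c888 c5520 c1687 c20261 c5422 c5574 (k8 c5571 c161 c5457 c162 c22794 c12617 c5381 c19230 (k8 c17856 c22791 c1734 c13678 c676 c5209 c5224 c2948 (k8 c5356 c20821 c20859 c21540 c10309 c9793 c2909 c2159 (k1 c18221 k0)))))) (by decide +kernel)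
def c22796 : PP 9 3 T 0x40000000000000000000000000000000000000100080004000100001500000000000400000000000000000000000008004400000000000000002000000000 := rS 0x4704123a1401cce2b35aed800032384cda05 (k8 c21870 c22545 c2804 c5520 c22786 c5642 c20261 c5422 (k8 c5574 c5571 c19419 c22795 c5380 c908 c12617 c3604 (k1 c2751 k0))) (by decide +kernel)
def c22797 : PP 9 3 T 0x4000000000000000000000000000000000000000000000000000000000000000110000000100000050000000000080000000000020004 := rS 0x6757869e205 (k4 c21870 c19427 c10701 c2777 (k2 c1903 c20922 k0)) (by decide +kernel)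
def c22798 : PP 9 3 T 0x8000000000000000000000000000000000000100080000000000000000000000000800001000000000000000000008000000000000000015000100020000 := rS 0x38f2333455ed7678dce67158ab76c00018edeef546a4072404037c0a0f (k8 c21871 c21870 c207 c1775 c700 c547 c1776 c10035 (k8 c5519 c5333 c5332 c22786 c5642 c20261 c5573 c5421 (k8 c5571 c19419 c1478 c20767 c5507 c5584 c1779 c20922 (k2 c3587 c664 (k1 c333 k0))))) (by decide +kernel)
def c22799 : PP 9 3 T 0x40000000000000000000000000000000000000100080004000000001500000000000000000000000000000000000008004000000000000000002140000000 := rS 0x345e71cf78c486cd19f7b62394905c80451a8400da1d9a34fe3d7fa6d009047b7fc6e2099e59e3739864e2cb58ad55bb61dbddea99da676526b0000c0a0f (k8 c21871 c21870 c22786 c5642 c1058 c22790 c5372 c17712 (k8 c5530 c5519 c5333 c5332 c20261 c5573 c5422 c5421 (k8 c5420 c5571 c9701 c19419 c1478 c20767 c161 c2804 (k8 c22796 c5466 c207 c2403 c1776 c1775 c2621 c2574 (k8 c1493 c892 c10035 c20841 c5380 c22789 c12617 c20806 (k8 c20747 c700 c1736 c22761 c547 c5444 c5224 c5492 (k8 c5495 c22797 c1739 c22798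 c5658 c22753 c17873 c3587 k0))))))) (by decide +kernel)
def c22800 : PP 9 3 T 0x100080004000100200000000004000800010000000000000000000008000000000000000000000000000000 := rS 0x668cc63de1c8f7c6cf1b8edeef51a8ffde0f (k8 c21871 c5504 c21647 c17740 c5519 c5333 c5332 c1478 (k8 c20767 c5466 c1493 c2618 c5166 c2164 c5492 c5495 (k1 c3587 k0))) (by decide +kernel)
def c22801 : PP 9 3 T 0x40000000000000000000100000000000000000100000004000100001000000000000400000000000000000002000018004004400000000000000000020000 := rS 0x1000c8146ecce2b1db0000605 (k8 c21870 c22786 c5642 c20261 c5421 c5571 c20841 c10035 (k4 c908 c22791 c22793 c1734 k0)) (by decide +kernel)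
def c22802 : PP 9 3 T 0x40000000000000024000000000000000000000100080004000100000000004004000800000000000000000000000008000000000000140000001100060000 := rS 0x23bef6833467ded88c472171a9000c3d4037d9e3711e7476f77aa75320f (k8 c21871 c5530 c5412 c5519 c5333 c5332 c5372 c9733 (k8 c1478 c20767 c207 c1775 c1493 c22789 c700 c20806 (k8 c1737 c547 c1739 c17923 c5224 c5492 c5495 c3587 (k2 c22798 c17873 (k1 c5658 k0))))) (by decide +kernel)
def c22803 : PP 9 3 T 0x40000000000000000000000000000000000000100080004000100001100000000000000000000000000000002000008004000400000000000001100060000 := rS 0x124303077943b16f9fc8206d02047ee3f09cd3ecb319f51eff21ab48a4a14ed0479d79870368dd99c563b6003c40605 (k8 c21870 c22786 c19427 c5642 c20261 c5421 c5571 c20841 (k8 c10035 c18705 c5649 c333 c5372 c9733 c17712 c9694 (k8 c17828 c3685 c5573 c10701 c20750 c12624 c1691 c888 (k8 c5420 c5572 c19419 c5457 c22802 c408 c908 c22801 (k8 c22791 c1734 c677 c2511 c17744 c10309 c5224 c3599 (k2 c20914 c662 (k1 c1566 k0))))))) (by decide +kernel)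
def c22804 : PP 9 3 T 0x40000000000000000000000000000000000000100080004000000001500000000000000000000000000000000000008004000000000000000000140000000 := rS 0x490c0c1de50ec5be7f208fc0ce340e80221bd9a35207d09a3c942594f844673149c5669f65ac56bb62f9acc7b40000f3a05 (k8 c21870 c5372 c22786 c5642 c17712 c888 c1058 c1687 (k8 c20261 c5422 c5421 c5420 c5572 c5574 c5571 c9694 (k8 c19419 c9733 c5457 c22790 c22799 c17828 c12624 c302 (k8 c1691 c18007 c10035 c20841 c18705 c22803 c12617 c5380 (k8 c1775 c22791 c408 c1734 c676 c2511 c17744 c10309 (k4 c5224 c3599 c20914 c662 (k1 c1566 k0))))))) (by decide +kernel)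
def c22805 : PP 9 3 T 0x800000000000000000080000000000000100000004000200100000000001000000000000000000000000000000000000000000050000000000000002 := rS 0x4a99c3a44f7b4c6a27db0c4c207 (k8 c5432 c661 c5434 c20261 c5570 c5450 c5496 c14662 (k4 c5658 c335 c664 c10191 (k1 c20920 k0))) (by decide +kernel)
def c22806 : PP 9 3 T 0x40005400000000000000000000000000000000000000000000000000000000000000000000000000000000000000000000000000008200000000000000000 := rS 0x7b1e5ef (k4 c5582 c460 c5204 c5540 k0) (by decide +kernel)
def c22807 : PP 9 3 T 0x1001400000000005000000000000000000000000000000000200100000004000000040400100000001000108000000000000000000150010000000000000 := rS 0x1a297 (k2 c1637 c19922 (k1 c18871 k0)) (by decide +kernel)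
def c22808 : PP 9 3 T 0x801001400000000280000000000040000000000000000000000000001014000000000000000000014040010000000000000000000000000000000000000000 := rS 0x3e1f5c17962d0f5ee1562ad5fa8d7791 (k8 c5615 c5430 c5614 c5431 c5573 c5421 c5423 c5575 (k4 c5598 c7323 c7591 c3625 (k2 c5635 c5205 (k1 c5626 k0)))) (by decide +kernel)
def c22809 : PP 9 3 T 0x10014000000002a1000100004000000000000100080004000000001014000000000000000000000040010080000000000005480000000000000020000000 := rS 0x182f8292df81bfea749f7d7d1ecf9116df54f7751ae56f87 (k8 c4564 c5533 c5415 c5614 c5613 c5428 c5427 c5612 (k8 c5615 c17701 c337 c2002 c22808 c5223 c5388 c5389 (k4 c5607 c2213 c5264 c5659 (k2 c1235 c5626 k0)))) (by decide +kernel)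
def c22810 : PP 9 3 T 0x4000000000104002000084000010000000100000004000210000014000000000000000000000000000088100000400000000000011000000000000000 := rS 0xedf2bafeed851a964cdbc1c3fe167c6dff52dd (k8 c4327 c5388 c5389 c5611 c17707 c5230 c5515 c5626 (k8 c5627 c20753 c1235 c1645 c20744 c5637 c3356 c5621 (k2 c3486 c21034 k0))) (by decide +kernel)
def c22811 : PP 9 3 T 0x5400000000024000100084000010000000100080004000210101000004000000040400100000000010008000000400084400000111000000020080002 := rS 0x43cab47c849f077cc0ddc57abb369772961a2b532a9d89840e8d86abe17edf710f6c5a (k8 c663 c20261 c20787 c5658 c17711 c5587 c5584 c5509 (k8 c5505 c5432 c661 c9578 c5531 c5530 c5573 c22807 (k8 c332 c22809 c22810 c5213 c5600 c5601 c669 c1062 (k8 c5667 c20797 c3943 c983 c338 c304 c2040 c17956 k0)))) (by decide +kernel)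
def c22812 : PP 9 3 T 0x40000000000000000000000000000000000000100080004000000001100000000000000000000000000000000000008004000000000000000000140000000 := rS 0x364c90e19836af46b5fdd0322f7d2528c912b1ea1f190c4a3d8e904fae36fde64ae03ba0024117fa3d23a1896d0c6c7f088f3a7314bc4e22758ab76c5f35800060b7a8247605 (k8 c21870 c5332 c1684 c5519 c5516 c22786 c5642 c1058 (k8 c1687 c20261 c5573 c5421 c5570 c5571 c19427 c9694 (k8 c19419 c5372 c9733 c5457 c162 c888 c17712 c22804 (k8 c5382 c198 c197 c20798 c3828 c12633 c956 c3940 (k8 c957 c3970 c3941 c2512 c1776 c1691 c12636 c22489 (k8 c12640 c12972 c20787 c5463 c3060 c4265 c17828 c5188 (k8 c22705 c22780 c22805 c22806 c16948 c5658 c1721 c5505 (k4 c5584 c18705 c20793 c3582 (k2 c19575 c22811 (k1 c18613 k0)))))))))) (by decide +kernel)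
def c22813 : PP 9 3 T 0x100080000000000000000000000000000001400000000000200000000000000000000000000054001400000000000000000000000 := rS 0x81509f4fe63 (k4 c5355 c5358 c5442 c3060 (k2 c1717 c9934 k0)) (by decide +kernel)
def c22814 : PP 9 3 T 0x80000000000000000000000000080000000000001400000000000000000000000000000000000000004000000000000000010500080000 := rS 0x9496b3 (k4 c5574 c302 c2804 c17941 k0) (by decide +kernel)
def c22815 : PP 9 3 T 0x1000000000000000000080000000000000000000000000000001200000000000000000400000000004100000100054001400000000000000000000000 := rS 0xd8275409b319fcfbb5 (k8 c5411 c5442 c5358 c5355 c1187 c3599 c1277 c5679 (k1 c5398 k0)) (by decide +kernel)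
def c22816 : PP 9 3 T 0x4000000000000000000000000080000000000000200004001000000000000000150000000100000054000000004000000002000000002 := rS 0x81c7486860e1683645333dc92f523ed5fa05 (k8 c21870 c20808 c5411 c5520 c5519 c5334 c5333 c20793 (k8 c2968 c1903 c663 c664 c882 c10701 c2159 c10690 (k1 c18824 k0))) (by decide +kernel)
def c22817 : PP 9 3 T 0x40000400000000000000000040000000000000100080004000000000200000000000000000000000000000000000088004001400000000100002000000000 := rS 0x10e66f61dfdeae4bbfc97b3d0241bc8df1f84e6f138ac55bb631b252bb0ce8000605 (k8 c21870 c22786 c5642 c5372 c20101 c5446 c5396 c5395 (k8 c20261 c5573 c5421 c5571 c19427 c19419 c5457 c5577 (k8 c3913 c892 c891 c5188 c18613 c2510 c20750 c19758 (k4 c22816 c5584 c20185 c5204 (k2 c20791 c5499 (k1 c882 k0)))))) (by decide +kernel)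
def c22818 : PP 9 3 T 0x82000000000000000000000100000000000000000000000000000000000000000000000000000140004001400000000000000000040100 := rS 0x103e684e6714fb2d4263 (k8 c5395 c5398 c5420 c5572 c5571 c19419 c17744 c3599 (k2 c12617 c2748 k0)) (by decide +kernel)
def c22819 : PP 9 3 T 0x40000000000000000000000000000000000000100080004000200001000000000000000000000000000000000000008004000000000000000000140000000 := rS 0x7be07ed69b352f01ef241bc7e68893619340a64c2071cf846e714fb2c4ead2f9ac123b09c4e2073db000520311e740a0f (k8 c21871 c21870 c5372 c9733 c22786 c9694 c5642 c20261 (k8 c19419 c22812 c955 c22814 c5332 c1684 c1058 c1687 (k8 c5573 c5570 c5420 c5572 c5571 c1478 c5457 c5317 (k8 c5432 c661 c1593 c22789 c22815 c20101 c19632 c20864 (k8 c22818 c892 c891 c22817 c2953 c5452 c5495 c5496 (k4 c17743 c2516 c8156 c21172 k0)))))) (by decide +kernel)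
def c22820 : PP 9 3 T 0x40000000000000000000000000000000000000100080000000100000000000000000000000000000000000400000088000000000000000000000140000000 := rS 0x4aa1036c1c7a0c9a07c79df08656627db17cd600019248e05 (k8 c21870 c5520 c5334 c22786 c5642 c1058 c1687 c20261 (k8 c5570 c5574 c9701 c5457 c5372 c5577 c194 c5358 (k4 c5188 c1775 c20101 c17741 (k2 c5398 c13678 (k1 c22765 k0))))) (by decide +kernel)
def c22821 : PP 9 3 T 0x40000000000000002000000000000000000000100080000000000000400000000000000000000000000000400000048004000000000000000000140040000 := rS 0x172023c21e3d0a0132614986597b62f9ac0003238247605 (k8 c21870 c5332 c1684 c5520 c22786 c5642 c1058 c1687 (k8 c20261 c5420 c9701 c5444 c5445 c5447 c22818 c17744 (k4 c5463 c12617 c2751 c700 (k2 c1736 c22761 k0)))) (by decide +kernel)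
def c22822 : PP 9 3 T 0x40000000000000011000000000000000000000100080004000100000400000000000000000000000000000400000208004000000000000000000100040000 := rS 0x683ce39ef18b346643ef6cdfe8d71241be40479153a35490400ce11ee87c79df09cce2b365ac55bb60000c8e05 (k8 c21870 c5520 c22786 c5642 c20261 c5573 c5421 c5420 (k8 c5574 c5571 c19419 c5457 c5372 c5463 c5380 c12620 (k8 c1717 c22789 c12617 c17971 c20806 c4249 c20747 c2751 (k8 c700 c13097 c5675 c5691 c10035 c20750 c20841 c5224 (k8 c22797 c5492 c5495 c1739 c22798 c5658 c22753 c22800 (k1 c17873 k0)))))) (by decide +kernel)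
def c22823 : PP 9 3 T 0x40000000000000000000100000000000000000100000004000100001400000000000400000000000000000000000018004000400000400000000000040000 := rS 0x91478433a63 (k4 c19420 c5372 c12617 c2751 (k2 c22801 c5675 k0)) (by decide +kernel)
def c22824 : PP 9 3 T 0x800000000000000000000140000000040000064010000000000100 := rS 0xc40e57 (k4 c21872 c1734 c1739 c20886 k0) (by decide +kernel)
def c22825 : PP 9 3 T 0x800400000000004000000150054004400000002000000001000002 := rS 0x1854293 (k4 c4188 c2767 c662 c3599 k0) (by decide +kernel)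
def c22826 : PP 9 3 T 0x40000000000000000000000000000000000000100080004000000001000000000000000000000000000000000000008004000000000000000000140000000 := rS 0x614ca71bce11eb5bc6d36af7b668dd038d0277c96c4fe9b319f6521389ed621e111e74e6290c9c5669f65ed8be6b0000c8e091d9b4ae05 (k8 c21870 c21872 c22545 c5332 c1684 c5520 c22786 c5642 (k8 c1058 c1687 c20261 c5420 c5572 c5574 c5571 c9701 (k8 c9694 c19419 c5372 c9733 c5457 c22812 c5411 c955 (k8 c22814 c22819 c8164 c19420 c1187 c22820 c22821 c5209 (k8 c5356 c22822 c1775 c22823 c5381 c19230 c5224 c5454 (k8 c5496 c20727 c20751 c22825 c22705 c15912 c13097 c2442 (k2 c1697 c22815 k0))))))) (by decide +kernel)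
def c22827 : PP 9 3 T 0x80000000000000100000000000000001200000000000000000000000000000000000108004001400000000000000000000000 := rS 0x133e1399c53ecbdb0000605 (k8 c21870 c22786 c5642 c20261 c5420 c5572 c5571 c19419 (k2 c5457 c1593 (k1 c22815 k0))) (by decide +kernel)
def c22828 : PP 9 3 T 0x4000000000000000000000000000000000100000000000100000000000000000000000000000000000000000100000002000000001000002000000002 := rS 0x3f2085c0c05 (k4 c21870 c661 c1460 c1734 (k2 c2910 c5655 k0)) (by decide +kernel)
def c22829 : PP 9 3 T 0x80000000000000000000010000000000000000100000000000000001100000000000000000000000000000000000000004400000000400000000000040002 := rS 0x411da1399c566b5db44d226d (k8 c22545 c5589 c5547 c20261 c5422 c5574 c5571 c19419 (k4 c20111 c3604 c12617 c2751 k0)) (by decide +kernel)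
def c22830 : PP 9 3 T 0x100000000000000001200000000000000000000000000000000000148004001400000000000000000040100 := rS 0x64f639ddb0000605 (k8 c21870 c22786 c5642 c20261 c5372 c22818 c22827 c20101 k0) (by decide +kernel)
def c22831 : PP 9 3 T 0x100080000000000001200000000000500000000000000000000000148004000400004000000002100040000 := rS 0x1be391e8fc82984905c0c6059a7f6c00018247605 (k8 c21870 c5332 c1684 c22786 c5642 c20261 c5572 c5574 (k8 c22830 c661 c1460 c662 c881 c1734 c2910 c1569 (k2 c324 c2442 (k1 c17954 k0)))) (by decide +kernel)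
def c22832 : PP 9 3 T 0x14000100000000000000000100080004000000200400001000000000001000000000001000000008000000000000000115000000000000 := rS 0x54fb556d00e3cc379d678dde2b1db000063b7bbd40a0f (k8 c21871 c21870 c5519 c5333 c5332 c22786 c5642 c20261 (k8 c5421 c19427 c1478 c20767 c5372 c2161 c22753 c5649 (k4 c3587 c2121 c5501 c2025 (k1 c5682 k0)))) (by decide +kernel)
def c22833 : PP 9 3 T 0x100000000000000000100080004000100000600000000000000000000000000000000100008004002000004020010002000020000 := rS 0x2bdffee8e8c59a3321f7b6673789c562addb0000647dabf48a39d8a74da05 (k8 c21870 c22545 c1697 c5445 c546 c20747 c20808 c5411 (k8 c5520 c22786 c5642 c20261 c5573 c5421 c5571 c19427 (k8 c19419 c18613 c5224 c22797 c5492 c5495 c1739 c22832 (k4 c5658 c11059 c5584 c22816 k0)))) (by decide +kernel)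
def c22834 : PP 9 3 T 0x4000000000000000100000000000000000100080004000100000600000000000000000000000000000000000008404006400004020010002000020000 := rS 0xd93419af3198c7bd1c6990fde8c4ee759e371dbddebb57e8e4da0f (k8 c21871 c22545 c546 c20808 c5411 c5519 c5333 c5332 (k8 c1478 c20767 c5372 c1697 c22833 c5505 c12616 c2083 (k8 c702 c5166 c1739 c545 c22753 c5495 c3587 c22832 (k1 c20865 k0)))) (by decide +kernel)
def c22835 : PP 9 3 T 0x4000000000000000100000000000000000100080004000100000400000000000000010000000000000000200008400000000000020110000000020000 := rS 0x66bcc6631ef471a643f7e759e371dbddea0f (k8 c21871 c5519 c5333 c5332 c1478 c20767 c5372 c5505 (k8 c12616 c2083 c702 c5166 c1739 c545 c22753 c5495 (k1 c3587 k0))) (by decide +kernel)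
def c22836 : PP 9 3 T 0x800000000002000000000000000000000000080000000000000000000000000000010000000000000000000008400000000000000101000100000084 := rS 0x790719a334bb3c6e3b7bbd46a0f (k8 c21871 c20806 c5519 c5333 c5332 c1478 c20767 c5452 (k4 c5492 c5495 c20822 c3587 (k1 c333 k0))) (by decide +kernel)
def c22837 : PP 9 3 T 0x100080004000000001000000000000000000000000000000000000008004000000000000000000140000000 := rS 0x790cbdddf1890d1bb368ec126611ce48ee40228d652100318f43e340440fe1312405c29171c4c97f26788f3a73149c566cb13ac56aaddb17cd60001bd48e05 (k8 c21870 c5520 c5519 c22786 c5642 c1058 c1687 c20261 (k8 c5573 c5422 c5421 c5570 c5420 c5574 c5571 c9694 (k8 c19419 c5372 c9733 c20767 c22826 c5546 c5547 c5549 (k8 c5589 c5591 c5592 c17998 c22814 c891 c22829 c22831 (k8 c5463 c5380 c937 c22789 c12617 c5432 c20806 c20747 (k8 c700 c3827 c5216 c546 c22834 c1563 c17971 c20864 (k8 c18631 c22835 c22797 c1739 c22836 c5166 c5653 c17894 (k1 c388 k0)))))))) (by decide +kernel)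
def c22838 : PP 9 3 T 0x4400000000000000000000000000000000100000004000100000000000000000000000000000000000000000000000000000000020010000000000000 := rS 0x3119b5e3bee (k4 c5166 c5504 c5507 c544 (k2 c1738 c5653 k0)) (by decide +kernel)
def c22839 : PP 9 3 T 0x8000000000000090000000000000000000000000000000000000000000001050000000000000000000000000000000044000000005400000000000020004 := rS 0x74cc43d9bfd5f0346c74007158ab48a05 (k8 c21870 c20747 c5573 c5421 c5571 c5642 c5504 c5505 (k8 c5508 c5584 c5586 c18613 c22797 c20793 c18824 c664 k0)) (by decide +kernel)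
def c22840 : PP 9 3 T 0x4000000000000000000000000000000000000100000004000000100000000000000000000000000000000000000000004000000000000000000000020004 := rS 0x6cc848d399c562addb0008a05 (k8 c21870 c20747 c5642 c20261 c5573 c5421 c5571 c19419 (k4 c702 c5658 c18613 c22797 k0)) (by decide +kernel)
def c22841 : PP 9 3 T 0x10000000000000000000000100080004000000200200000000000000000000000000000000000208000000400000020101000000000000 := rS 0x4e24b67b16833c6e7165ed800037bbd5fa633b8412e3366f786b290304c123bf1bce2673d0e740a0f (k8 c21871 c21870 c5372 c5380 c19419 c955 c22753 c5463 (k8 c5332 c1684 c297 c22789 c5432 c20806 c22838 c5495 (k8 c5492 c5452 c12636 c3827 c937 c20808 c5519 c5333 (k8 c22786 c5642 c20261 c5420 c5571 c1478 c20767 c3587 (k4 c20863 c20865 c17971 c22832 (k1 c1694 k0)))))) (by decide +kernel)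
def c22842 : PP 9 3 T 0x10000000000000000000000100080004000000200200000000000000000000000000000000000208000000400000020100000000000000 := rS 0x603d (k2 c12620 c22841 (k1 c2164 k0)) (by decide +kernel)
def c22843 : PP 9 3 T 0x10000000000000000000000100080004000000000200000000000000000000000000000000000208004000400000020100000000000000 := rS 0xf368871bff3330c494af6b90f67ee46c759e3738ac55bb60000dee497a91dfbe370c4ce610d08d40c13048ec0a0f (k8 c21871 c21870 c5332 c1684 c297 c22789 c20806 c5380 (k8 c12636 c19419 c955 c1717 c5463 c20808 c5520 c5519 (k8 c5334 c5333 c22786 c5642 c20261 c5573 c5421 c5571 (k8 c1478 c20767 c22842 c702 c22840 c18613 c22797 c5507 (k8 c5584 c22839 c1739 c20793 c5546 c2510 c664 c8355 (k2 c334 c20158 k0)))))) (by decide +kernel)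
def c22844 : PP 9 3 T 0x10000000000000000000000100080004000000001200000000000000000000000000000000000208004000400000020000000000000000 := rS 0x7c894e31c4a40c131f91c123b899cf427d (k8 c193 c5380 c19419 c955 c5332 c1684 c5520 c188 (k8 c297 c22789 c5432 c22843 c2618 c546 c22823 c5546 k0)) (by decide +kernel)
def c22845 : PP 9 3 T 0x8000000000000090000000000000000000000000000004000000100000041051000000000000000000000000000000004000000005440000001000000000 := rS 0x1d0decdfe45469c55a05 (k8 c21870 c5573 c5571 c5505 c5582 c5586 c18613 c18705 (k2 c18824 c5649 k0)) (by decide +kernel)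
def c22846 : PP 9 3 T 0x4004000000000000000000080000000000000100000004000100100000000001000000000000000000000004000000000000000000040000000000000002 := rS 0x1bd9a50ce1d64a5c89de13ed8c277 (k8 c5356 c662 c20261 c5570 c5166 c5658 c5452 c5494 (k4 c335 c664 c20913 c5488 (k2 c1905 c5649 k0))) (by decide +kernel)
def c22847 : PP 9 3 T 0x8000000000000090000000000000000000000000000004000000100000001051000000000000000000000000000000004000000005440000001000000000 := rS 0x103 (k2 c5508 c22845 k0) (by decide +kernel)
def c22848 : PP 9 3 T 0x4004000000000000000100000000000000000100000004000100100000000001000000000000000000000000000000000000000000051000000000000002 := rS 0x921f6484fb6 (k4 c20261 c5570 c5216 c5655 (k2 c22846 c326 k0)) (by decide +kernel)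
def c22849 : PP 9 3 T 0x10000000000000000000000100080004000000001200000000000000000000000000000000000208004000400000000000000000000000 := rS 0x6bf7d91924aa5cc2d3d88c42e071fca0ce1d227bc862525c7424112098c7ba1f1e75e22758ed800037b925ea477ec4ce605 (k8 c21870 c19419 c955 c20808 c5520 c5519 c5334 c5333 (k8 c22786 c5642 c20261 c5421 c5570 c19427 c5372 c5463 (k8 c5380 c12620 c937 c22844 c700 c12617 c22489 c12663 (k8 c12972 c20787 c22847 c5658 c335 c664 c22848 c5318 (k8 c5432 c5433 c5434 c17815 c2936 c661 c19357 c10191 (k4 c20101 c20236 c20920 c2189 (k1 c20909 k0))))))) (by decide +kernel)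
def c22850 : PP 9 3 T 0x100000000000200001200000000000000000000000000000000000108004000400000010000001000000000 := rS 0x32461d88f40f9ddb0000605 (k8 c21870 c22786 c5642 c20261 c5372 c5432 c5436 c17815 (k2 c661 c20101 (k1 c22827 k0))) (by decide +kernel)
def c22851 : PP 9 3 T 0x100080000000000000100000000000000001200000000000000000000000000000000000108004000400005400400000000080000 := rS 0x6f8e47e9849384c07dce8dd6627db000071339b8c22914d98e5225208240a0f (k8 c21871 c21870 c1684 c297 c2804 c22850 c19420 c1187 (k8 c3036 c36 c1775 c19419 c955 c22786 c5642 c20261 (k8 c5570 c5574 c1478 c5372 c5442 c22827 c21491 c662 (k4 c881 c326 c325 c2442 (k1 c12667 k0))))) (by decide +kernel)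
def c22852 : PP 9 3 T 0x10000100000000000000000100000004000000001200000050000000000000000000000000000108004000400005400400000000080000 := rS 0xf0627c036c326639487489ef129fc831d21e74e6f13889f6c0001825fa05 (k8 c21870 c20808 c1684 c22786 c5642 c20261 c5570 c5571 (k8 c19427 c19419 c5372 c20787 c20813 c297 c2918 c2804 (k8 c22847 c5658 c335 c22850 c19420 c22851 c20101 c17741 (k4 c18032 c20134 c1456 c2971 k0)))) (by decide +kernel)
def c22853 : PP 9 3 T 0x100040000000000000100000000000000000000000000000000000000000000000000000118004000400000000000000000000000 := rS 0x1f24878cfc63d8674e671db0000605 (k8 c21870 c22786 c5642 c20261 c5571 c19419 c5372 c20101 (k4 c5395 c18032 c13779 c891 (k2 c8438 c5589 k0))) (by decide +kernel)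
def c22854 : PP 9 3 T 0x10000100000000000000000100080004000000001200000000000000000000000000000000000008004000400004000000000000000000 := rS 0x37dc2391e90530920326c7e60319ff247d0804d669fdb00006f724bd48e091db8d0205 (k8 c21870 c22849 c1775 c5332 c1684 c5520 c5519 c5334 (k8 c5333 c22786 c5642 c20261 c5572 c5574 c22852 c12617 (k8 c2748 c22853 c5358 c5355 c22827 c2907 c1187 c661 (k8 c662 c881 c1734 c1569 c325 c1597 c2442 c17954 k0)))) (by decide +kernel)
def c22855 : PP 9 3 T 0x80000000000000100080000000000001200000000000000000000000000000000000108004000400004000000000000000000 := rS 0x6fb84723f1e90530920326cc06359a7c4fb60000dc605 (k8 c21870 c1775 c22786 c5642 c20261 c5570 c5572 c5574 (k8 c5355 c22827 c1187 c661 c662 c881 c1734 c1569 (k4 c326 c325 c1597 c2442 (k1 c17954 k0)))) (by decide +kernel)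
def c22856 : PP 9 3 T 0x10000000000000000000000100000004000000000000001050000000000000000000000000000080004000000005400000000000000084 := rS 0x11df78f8212939ed80005 (k8 c21870 c5642 c20261 c19419 c5432 c676 c677 c22839 (k2 c21647 c22840 k0)) (by decide +kernel)
def c22857 : PP 9 3 T 0x4000000040000000000000100080004000200000200000000000000000000000000000000100088004000400004000000002000000000 := rS 0x40fdfed66abbbc3739bc4e2b156ed8c3016f347619d0000fe6ff480e40a0f (k8 c21871 c21870 c5317 c891 c20750 c5589 c22786 c5642 (k8 c5372 c20101 c20864 c892 c2953 c5445 c20261 c5573 (k8 c5421 c5571 c19427 c19419 c1478 c22817 c22816 c5495 (k4 c17743 c5584 c2516 c21172 k0)))) (by decide +kernel)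
def c22858 : PP 9 3 T 0x10000000000000000000000100080004000000001200000000000000000000000000000000000008004000400004000000000000000000 := rS 0x1a5dff7b5de6432290038251f8ce50077fc0520de3f3476193d9a37419d38ac55bb60000dee497a91c123b7ea04ae05 (k8 c21870 c21872 c22849 c20808 c5332 c1684 c5520 c5519 (k8 c5334 c5333 c22786 c5642 c20261 c5573 c5421 c5571 (k8 c5372 c22854 c5381 c19230 c22855 c20101 c20864 c17744 (k8 c892 c891 c2953 c20750 c22856 c17741 c20297 c5318 (k8 c22857 c18461 c22850 c3684 c2000 c334 c19455 c17894 (k2 c17847 c12713 (k1 c15747 k0))))))) (by decide +kernel)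
def c22859 : PP 9 3 T 0x100000000000000001200000000000000000000000000000000000108004000400008000000000000000140 := rS 0x3970f8e507ec99858f9df080006e309c4ce605 (k8 c21870 c19419 c955 c302 c1775 c22786 c5642 c5457 (k8 c5372 c162 c661 c22827 c22830 c17741 c5577 c3059 (k2 c5317 c15375 k0))) (by decide +kernel)
def c22860 : PP 9 3 T 0x100080004000000001000000000000000000000000000000000000008004000000000000000000040000000 := rS 0xf13547bde3ba491bb130680fe4194818fa3f09ecd1ff32538d0313886d44009238ef3a734fed8be6b0000cda05 (k8 c21870 c22545 c22786 c5642 c1058 c1687 c20261 c5572 (k8 c19419 c5372 c5332 c5520 c1684 c22837 c5528 c5665 (k8 c955 c22849 c1775 c22858 c5546 c12624 c19429 c302 (k8 c408 c1691 c22859 c5432 c1734 c677 c22823 c22830 (k8 c17744 c5381 c662 c3806 c5224 c1569 c5454 c5655 (k1 c20727 k0)))))) (by decide +kernel)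
def c22861 : PP 9 3 T 0x400000000004000000110054005400000004000000001000080 := rS 0x5024cff29 (k4 c5432 c677 c1563 c3599 (k1 c8159 k0)) (by decide +kernel)
def c22862 : PP 9 3 T 0x100040000000000001000000000000000000000000000000000000008004400000008000000000000000000 := rS 0x284fedf1cca00e611f831c690409f7404947fcfc2730c9c5669f65ad76c000197f699d31c441e05 (k8 c21870 c21871 c9727 c888 c5372 c5211 c1687 c22786 (k8 c5642 c20261 c5422 c5420 c5572 c5574 c5571 c9701 (k8 c19419 c5457 c5546 c12624 c192 c5221 c1691 c5380 (k8 c17856 c1775 c13505 c408 c9230 c22861 c22791 c5317 (k4 c2510 c892 c10309 c3599 k0))))) (by decide +kernel)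
def c22863 : PP 9 3 T 0x210000000000000000100040000000000001000000000000000000000000000000000000000000400000004000000000000000404 := rS 0x4923fcc267338acf6c008883cda05 (k8 c21870 c22545 c21871 c9727 c5642 c20261 c5574 c5571 (k4 c19419 c5564 c20111 c15906 (k2 c10368 c5660 k0))) (by decide +kernel)
def c22864 : PP 9 3 T 0x800000000000000000000000000000000100040004000200000000000050000000000000000000000000000150004000000000000400000000020004 := rS 0xd0f63ce39ef (k4 c20821 c22840 c17702 c5657 (k2 c17847 c5501 k0)) (by decide +kernel)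
def c22865 : PP 9 3 T 0x20000000000000000000000100040004000000100000000040000000000000000000000000000000004000000000800000000000020004 := rS 0x1e7ed21ecfdc8d399c562addb3d40005 (k8 c21870 c5642 c20218 c20261 c5573 c5421 c5571 c19419 (k4 c702 c22840 c18613 c22797 (k2 c17711 c2537 (k1 c5657 k0)))) (by decide +kernel)
def c22866 : PP 9 3 T 0x100000004000200001000000000000000000000000000000000000148004000000000000000000040040040 := rS 0xcc1aa5d921c336cdfad143fb1a6f30dc73be10230dc461978ac5569d10a6552f5da3de06331c85c62a065a7cc3b1399c76c63888ec13923eb87e5a12597cd60001830174bce9b41e05 (k8 c21870 c21871 c22545 c5372 c22860 c690 c5645 c22786 (k8 c5642 c1058 c1687 c22862 c22863 c5221 c5591 c1690 (k8 c22853 c5438 c289 c9727 c888 c20261 c5571 c19419 (k8 c18032 c661 c5572 c5420 c3599 c5434 c5433 c5317 (k8 c5316 c5550 c20809 c5211 c20218 c5531 c5530 c5528 (k8 c5412 c20861 c5421 c19427 c9701 c9733 c1478 c22829 (k8 c12617 c22864 c22865 c2161 c17702 c2081 c5657 c5499 (k8 c5501 c5542 c11235 c20788 c17991 c2064 c1234 c332 (k2 c20229 c13053 k0))))))))) (by decide +kernel)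
def c22867 : PP 9 3 T 0x1000000000000000000000001400000000000000004000000005000000014540080400 := rS 0x4a47 (k2 c2811 c2804 (k1 c3584 k0)) (by decide +kernel)
def c22868 : PP 9 3 T 0x100000004000000001000000000000000000000000000000000000048004000000000000000000040000040 := rS 0xe81292d8e4a53e1399c5965f31c44187d70a04201324fc843b45a89d67b61488f420b25d2cd60001e740a0f (k8 c21871 c21870 c5372 c22786 c5642 c1058 c22860 c22862 (k8 c690 c22863 c9733 c9694 c20261 c5574 c5570 c5422 (k8 c5211 c5528 c5221 c5588 c22867 c12617 c22789 c5591 (k8 c1690 c5645 c9727 c888 c1687 c5420 c5571 c19419 (k8 c5457 c22866 c13608 c18032 c17971 c5438 c17730 c289 k0))))) (by decide +kernel)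
def c22869 : PP 9 3 T 0x100000004000000001000000000000000000000000000000000000008004000000000000000000040000040 := rS 0x3f247e5a105e74974b358000605 (k8 c21870 c22786 c5642 c1058 c22860 c22862 c5372 c690 (k4 c22863 c5221 c5589 c22868 (k1 c891 k0))) (by decide +kernel)
def c22870 : PP 9 3 T 0x80000000000000000000000000000000000000100000004000000001000000000000000000000000000000000000008004000000000000000000040000400 := rS 0x2047e41081187061098ec1837118a432b34fb2c4eb52f98c43b4259f725290378493a135c46979d38ed800033983c0a6d (k8 c22545 c21870 c21871 c19419 c22786 c5642 c20261 c5571 (k8 c5372 c22860 c9727 c1058 c20111 c5588 c5457 c22869 (k8 c5432 c5215 c5442 c22862 c5211 c5528 c888 c1687 (k8 c5422 c5570 c5420 c5572 c5574 c9701 c9694 c9733 (k8 c1478 c5645 c1675 c22867 c9230 c5654 c22829 c12617 (k4 c546 c2914 c700 c22861 k0)))))) (by decide +kernel)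
def c22871 : PP 9 3 T 0x80000000000000000000000000000000000000100000004000000001000000000000000000000000000000000000008004000000000000000000040000000 := rS 0x7b9afe2229063a431f8448c121d034148ed0a449313399c566b5db1ae22f5da0000609c94a40d4bf0e74da05 (k8 c21870 c22545 c5372 c5457 c22860 c22869 c5432 c5215 (k8 c30 c22786 c5642 c5211 c20218 c9727 c1058 c20261 (k8 c5422 c5574 c5571 c19419 c5547 c5588 c5589 c20111 (k8 c3604 c22870 c34 c691 c2312 c2311 c2752 c494 (k8 c20787 c20813 c297 c2973 c17813 c18221 c5658 c20829 k0))))) (by decide +kernel)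
def c22872 : PP 9 3 T 0x100000004000000001000000000000000000000000000000000000008004000000000000000000040000000 := rS 0x779afb1d9a37c5a0f99fda7929481b694bcef876c5f358000605 (k8 c21870 c22786 c5642 c1058 c1687 c20261 c5457 c5372 (k8 c22860 c5211 c22869 c5432 c5215 c22750 c5358 c22871 (k8 c5221 c5168 c5381 c19230 c17744 c5465 c5224 c20754 k0))) (by decide +kernel)
def c22873 : PP 9 3 T 0x8000000000080000200080000000000000000000000000000000000000000000000000000000080000000000000000000000000000000000000000000 := rS 0x12a9764f7da86069a85ae9f469f7667f3bec4e2cb (k8 c5420 c5571 c12830 c5356 c5358 c19230 c5566 c5381 (k8 c5572 c5465 c5578 c5579 c12178 c20727 c20754 c1182 (k2 c20768 c1589 (k1 c5678 k0)))) (by decide +kernel)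
def c22874 : PP 9 3 T 0x44000000000000000000100040000000000000100000008000000000000010000000000000000000000000000000080000000000000000000000000000000 := rS 0x3fd9c9089b35a28f05bdc77e023d29aa331c8c46f9d0804c7f28f18d5e6f5 (k8 c5477 c5325 c5324 c5577 c5216 c5318 c2917 c12617 (k8 c19356 c5435 c5434 c5317 c5316 c20749 c5221 c10418 (k8 c5188 c5332 c5333 c5516 c2751 c5459 c5537 c12633 (k4 c5675 c3587 c20750 c8707 k0)))) (by decide +kernel)
def c22875 : PP 9 3 T 0x80002000000000080000000040000000000000000000008000200001000000000000000000000000080000000100080044000000000000000000000000002 := rS 0x432a1ffdf7ed2b6b1035a5cc48ff6ec5be9b38acd62b5f1b57dfb33396d570189c0d226d (k8 c22545 c5589 c5550 c5547 c3070 c1286 c5474 c663 (k8 c5406 c5584 c20749 c5577 c5422 c5421 c5574 c5571 (k8 c5536 c5538 c7694 c6290 c2923 c16365 c20807 c1173 (k8 c3604 c18007 c9727 c20808 c6344 c19122 c5682 c20762 (k1 c2022 k0))))) (by decide +kernel)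
def c22876 : PP 9 3 T 0x1000000000081000000040000000000000000000008000200000400000000000000001100000000000001400004044000000000000000000000000002 := rS 0xcf688edee9a3c030d5b4311c566b5198e46237ce8d5e6f5 (k8 c5477 c5325 c5324 c19356 c5435 c5434 c5317 c5316 (k8 c5422 c5574 c5571 c16365 c5235 c18007 c1059 c1174 (k4 c1173 c20809 c290 c20803 (k2 c2563 c3587 k0)))) (by decide +kernel)
def c22877 : PP 9 3 T 0x2000000000000000000000000000000000000000000000000000000000400000080000000100080000041400000000000000000000000 := rS 0xee9769a54c6a1f1fbd92d5 (k8 c20749 c1183 c5584 c5577 c5398 c5395 c5446 c2940 (k2 c19608 c10131 (k1 c20791 k0))) (by decide +kernel)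
def c22878 : PP 9 3 T 0x100040000000000000100000008000000001000000000000000000000000080000000000080004000000000000000000000000002 := rS 0x7b8ed9ed1061e1bcc74733553b4f0a4627f2809cc6639188df3a7b3ea07dfb364b546af37ab4d2e62d8a3420131f99cb65f0bca3c66138b2f6c0f (k8 c21871 c5212 c5420 c5571 c728 c5577 c5216 c5433 (k8 c1054 c5474 c663 c5318 c2917 c12617 c701 c22877 (k8 c16365 c20807 c2941 c5477 c5325 c5324 c20749 c1183 (k8 c5406 c5584 c194 c95 c22853 c19356 c5435 c5434 (k8 c5317 c5316 c19419 c3070 c22874 c5547 c5589 c22875 (k8 c5235 c5531 c13053 c22876 c2487 c2923 c2924 c2752 (k4 c20815 c2565 c1536 c20809 (k1 c3587 k0)))))))) (by decide +kernel)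
def c22879 : PP 9 3 T 0x100040000000000000100000008000000000000000000000000000000000080000000000080004000000000000000000000000002 := rS 0x7e442006bdafce299d9478fde6d (k8 c22545 c5584 c5577 c5216 c19356 c22878 c5590 c5414 (k4 c3980 c22874 c5665 c3071 (k1 c20808 k0))) (by decide +kernel)
def c22880 : PP 9 3 T 0x44000000000000000000100040000000000000100000000000000200000010000000000000000000000000000000080000000000000000000000000000000 := rS 0xce813cd21ed89b35a2f505bdc77e0a50cc72311be74263f9478c6ad5 (k8 c20749 c553 c5577 c5216 c5318 c2917 c19356 c5435 (k8 c5434 c5317 c5316 c5221 c5188 c5332 c5333 c5516 (k8 c5519 c5459 c5537 c12633 c18037 c19538 c22753 c21172 (k2 c3587 c2634 k0)))) (by decide +kernel)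
def c22881 : PP 9 3 T 0x80002000000000084000000040000000000000000000000000200001000000010000000000000000000000040000080044000000000000010000020000002 := rS 0x7ed2b6b10359891fedd8b7d9a9b688ece2b35a8cc72311bc4d226d (k8 c22545 c5589 c5547 c5435 c5434 c5317 c5316 c5422 (k8 c5574 c5571 c5456 c5459 c5536 c5537 c5538 c7694 (k8 c18037 c2923 c16365 c1173 c3604 c18007 c9727 c20808 (k1 c18458 k0)))) (by decide +kernel)
def c22882 : PP 9 3 T 0x4000000000000000000000000000000000000000000000000200000000000054000400051000000000000000000080000000000000000410000000000000 := rS 0xd7efb3bc6d5198e46237 (k8 c5435 c5434 c5317 c5316 c20749 c5577 c3587 c17847 (k2 c1769 c5689 k0)) (by decide +kernel)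
def c22883 : PP 9 3 T 0x80000000000000000000100000000000000000100000004000200200000000010000000011000000080000000000080000000000000000410000000000000 := rS 0x8f35ed01b4b7b1bc000379b4de273388a56bb6f7ecc679d24840263f25b8c1e05 (k8 c21870 c21871 c5549 c5546 c5318 c2917 c12617 c17689 (k8 c19356 c5316 c5406 c5584 c5229 c5422 c5417 c20748 (k8 c19419 c551 c2081 c554 c22131 c5642 c2746 c22882 (k4 c5333 c20809 c5211 c1059 (k2 c2752 c18106 k0))))) (by decide +kernel)
def c22884 : PP 9 3 T 0x1000000000000000100040000000000000100000004000000100000000010000000000000000080000000000084000000000000000410000000000000 := rS 0x1aa96994eed0bd11d89b8421f498040424781091a730cfbd5ab1d9984e2390b88f3a1b22840263f9478c1e6d (k8 c22545 c21871 c5577 c5216 c5318 c2917 c12617 c20747 (k8 c1078 c19356 c9733 c5433 c5317 c20748 c728 c5406 (k8 c202 c137 c5584 c6205 c19419 c702 c5658 c10701 (k8 c2776 c22797 c9696 c429 c1216 c266 c1113 c22565 (k8 c9730 c2920 c5235 c8792 c1521 c22664 c18034 c15887 k0))))) (by decide +kernel)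
def c22885 : PP 9 3 T 0x80001000000000000000100040000000000000100000004000000001000000010000000001000000080000000000080000000000000000410000000000000 := rS 0x363b5881ad1e6f631e4be03683c6387338acc52b5db7bf679d0d91420131fca3c7133da44da05 (k8 c21870 c22545 c5589 c891 c5547 c5577 c5216 c5318 (k8 c2917 c12617 c20747 c1078 c19356 c5406 c5584 c5229 (k8 c5422 c5417 c5574 c20748 c19419 c22884 c551 c22883 (k8 c22131 c19919 c20803 c20815 c2746 c2924 c2483 c3604 (k2 c18007 c20864 (k1 c5235 k0)))))) (by decide +kernel)
def c22886 : PP 9 3 T 0x80000000000000000000000000000000000000000000000000000000000010020000000000000000000000000000000000000000000000000000000020000 := rS 0x2351eff8ea1c1a4589c0d220f (k8 c21871 c5589 c5550 c5547 c20747 c20810 c1922 c2165 (k4 c2342 c2752 c702 c20762 k0)) (by decide +kernel)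
def c22887 : PP 9 3 T 0x80000000000000000000100040000000000000100000004000000100000000000000000001000000080000000000080000000000000000410000000000000 := rS 0xbc981098c3e93013c3629b4e90bc0730cfbd5ab1d9984e3b61c85c479d0d9162af580a3420131fca3c66d (k8 c22545 c5577 c5216 c5318 c2917 c12617 c702 c5592 (k8 c22886 c5590 c20747 c1078 c19356 c9733 c5433 c5317 (k8 c5212 c20748 c728 c5406 c202 c137 c5584 c6205 (k8 c19419 c22885 c5658 c5458 c5536 c7694 c10701 c22797 (k4 c429 c1216 c9752 c266 (k2 c6193 c5663 (k1 c1521 k0))))))) (by decide +kernel)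
def c22888 : PP 9 3 T 0x80000000000000001000000040000000000000000000000000200000000000001000040000400000080001400100080000000040000000410000004000008 := rS 0x8606d2dfe1e692652c5eefa4c426300867de61388e42e23cec4e069180a3c1e6d (k8 c22545 c21871 c2923 c5592 c5589 c5550 c5547 c19356 (k8 c9733 c5433 c5317 c20748 c728 c5584 c6205 c28 (k8 c9752 c266 c262 c19294 c5663 c19103 c1521 c19608 (k4 c6193 c2942 c5517 c2362 (k2 c20762 c8435 k0))))) (by decide +kernel)
def c22889 : PP 9 3 T 0x100040000000000000100000008000000000000000000000000000000000080000000000080000000000000000000000000000004 := rS 0x3780020131fca3c605 (k8 c21870 c5577 c5216 c5318 c2917 c12617 c5642 c2746 (k1 c22879 k0)) (by decide +kernel)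
def c22890 : PP 9 3 T 0x80000000000000000000100040000000000000100000000000000100000000000000000001000000080000000000080000000000000000410000000000000 := rS 0x3783c9b4ca752c5e88f7d27b11098c02022dbc6748d0c9859681389cc721711e7436450804c7f28f19ed226d (k8 c22545 c5589 c891 c5577 c5216 c5318 c2917 c12617 (k8 c20747 c1078 c19356 c9733 c5433 c5317 c19419 c20748 (k8 c194 c8797 c728 c6205 c702 c22887 c5323 c5474 (k8 c22889 c28 c9752 c266 c22565 c262 c19294 c9730 (k8 c5663 c19103 c8792 c1521 c1232 c6193 c22888 c22553 k0))))) (by decide +kernel)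
def c22891 : PP 9 3 T 0x100040000000000000000000000000200000000000001000000000000000000000040000000000001000000000010000004000008 := rS 0x2f77f6263 (k4 c9752 c22565 c19294 c5663 (k1 c19103 k0)) (by decide +kernel)
def c22892 : PP 9 3 T 0x80000000000000000000100040000000000000100000000000000200000000000000000000000000080000000000080000000000000000410000000000000 := rS 0x35fbeccf0872766f0000d2ed378b57dfb3308a76ccb409c4e6330d91607157ac0420131fca3c605 (k8 c21870 c5577 c5216 c5318 c2917 c12617 c5592 c22886 (k8 c5590 c5550 c20747 c1078 c5316 c19419 c20748 c194 (k8 c8797 c5212 c8199 c728 c5406 c5584 c20749 c551 (k8 c2081 c19608 c22891 c5642 c2746 c22889 c5649 c22881 (k4 c22885 c5495 c2191 c5778 k0))))) (by decide +kernel)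
def c22893 : PP 9 3 T 0x80000000000000000000100040000000000000100000000000000000000000000000000000000000080000000000080000000000000000410000000000000 := rS 0x23dfe873cb311b1d3ea0420131fca3c71381c04f691 (k8 c5589 c891 c5592 c5550 c5547 c5577 c5216 c5318 (k8 c2917 c12617 c194 c95 c22892 c702 c22890 c20785 (k4 c2074 c22177 c2924 c20762 k0))) (by decide +kernel)
def c22894 : PP 9 3 T 0x100040000000000000000000000000000000400050000000000002000000000000001500080000000000000000000000000000000 := rS 0xff439f5027b (k4 c891 c194 c95 c2074 (k2 c22177 c20762 k0)) (by decide +kernel)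
def c22895 : PP 9 3 T 0x100000000000000000000040000000200000400010000000000000000000000000000008000000000000000000000000010000800 := rS 0x1ef9d (k2 c19356 c19897 (k1 c693 k0)) (by decide +kernel)
def c22896 : PP 9 3 T 0x80000000000000000000100040000000000000100000000000000100000000000000000000000000080000000000080000000000000000010000000000000 := rS 0x1de9d34c86fe43a54bc93d8874c6024782b680d79b3cf34b3d8ea029181c4c33efd9b25aa6165a04e2735aed82f9d22a3420131fca3c60f (k8 c21871 c5577 c5216 c5318 c2917 c12617 c702 c20747 (k8 c19356 c5433 c5212 c5422 c19419 c20748 c194 c8797 (k8 c728 c20749 c1183 c5406 c5584 c6205 c5547 c5550 (k8 c5589 c5592 c22893 c891 c5332 c1536 c1646 c448 (k8 c290 c5211 c5645 c2924 c19894 c9752 c20811 c22565 (k8 c262 c19577 c20765 c22895 c20762 c2781 c2943 c5658 (k2 c10379 c22723 k0))))))) (by decide +kernel)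
def c22897 : PP 9 3 T 0x40004000000000000000100040000000000000100000000000200000000000000000000000000000000000002000000000000000000000000000000000008 := rS 0x6a4d97b6be03f204463b0f8dc8a634ec44027b1c85f627d1e8402649a56740a6d (k8 c22545 c21870 c5374 c5221 c5334 c3036 c12617 c5436 (k8 c2747 c22565 c5433 c5317 c22786 c28 c9730 c8792 (k8 c9752 c20747 c5518 c5517 c5332 c9733 c17681 c5670 (k4 c5188 c22664 c19577 c5536 (k2 c5665 c8110 k0))))) (by decide +kernel)
def c22898 : PP 9 3 T 0x1000000000000000000000000080000000000000000000000000000000040000000001000000000000000800000000100000501400000 := rS 0x26d32931d87cda05 (k8 c21870 c22545 c5517 c5332 c1517 c1521 c1120 c6193 k0) (by decide +kernel)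
def c22899 : PP 9 3 T 0x8000000000000000110000000000000000100000004000000000400001050000000000000000001000000000100000002000000001000002041020008 := rS 0x79471e2771186c3a2155c44027d6b9fda66d (k8 c22545 c5579 c5577 c5465 c2747 c28 c9730 c20861 (k8 c266 c20811 c20794 c9733 c10409 c10414 c22690 c3581 (k1 c22753 k0))) (by decide +kernel)
def c22900 : PP 9 3 T 0x8000000000000000100000000000000000100000000000000000000010040000000000000000001000002000100000002000000001000002041020008 := rS 0xf378ce9fb143744dea230d87442ab888073a6d (k8 c22545 c5374 c28 c9730 c20861 c266 c20811 c20794 (k8 c9733 c10333 c198 c1113 c3038 c1242 c22899 c5323 (k2 c5325 c3581 k0))) (by decide +kernel)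
def c22901 : PP 9 3 T 0x8000000000000000000000000000000000000080008000200000000010000000000011000000001000202000000000000000000100000000011000000 := rS 0x102677bfda3f1d905c6d3 (k8 c5579 c5466 c5462 c5332 c5318 c17385 c17819 c12125 (k2 c21172 c2633 k0)) (by decide +kernel)
def c22902 : PP 9 3 T 0xa000000000000000100000000000000000100080000000200000000010000000000010000000000000002000010000802000000000000000001020008 := rS 0x238f03bced3115d99bc4a2938ed8361d1e87dee8122a359aa9 (k8 c20804 c5537 c10035 c20747 c5463 c5333 c5517 c5436 (k8 c20811 c20794 c5212 c5571 c8199 c22900 c2745 c18613 (k4 c1139 c6706 c22901 c10409 (k2 c22131 c22690 (k1 c551 k0))))) (by decide +kernel)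
def c22903 : PP 9 3 T 0x40008000000000000000100040000000000000100000000000200000000000000000000000000000000000000000000000000000000000000000000020008 := rS 0x276766ac76006adaa6fc0604697dc2d14831e268f0c86c3a21198e42e3d1191d3a7b88804fbb165a7c4fb61498dee0ba5674da05 (k8 c21870 c22545 c19356 c5221 c5516 c5333 c9752 c8199 (k8 c5212 c5570 c5572 c5420 c22565 c18801 c28 c9730 (k8 c22786 c8792 c10418 c9733 c5436 c5433 c5317 c5316 (k8 c266 c20811 c20794 c6205 c2751 c703 c22665 c5675 (k8 c20815 c10249 c22898 c10035 c5663 c10425 c5536 c17720 (k4 c5665 c22902 c2139 c3072 (k2 c20727 c17803 (k1 c10409 k0)))))))) (by decide +kernel)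
def c22904 : PP 9 3 T 0x40000000000000000000110040000000000000100000000000000000000000000000000000000000000000000000000000000000000000000000000010008 := rS 0xd7b5892d76c2188806946d (k8 c22545 c5221 c28 c9730 c266 c5212 c5422 c16594 (k2 c22661 c2600 (k1 c5665 k0))) (by decide +kernel)
def c22905 : PP 9 3 T 0x40000000000000000000100040000000000000100000000000200000000000000000000000000000000000000000000000000000000000000000000000008 := rS 0x90f1c4d1e1005d288f9d (k8 c19356 c10418 c5221 c5516 c22904 c2751 c703 c22903 (k2 c5675 c22897 k0)) (by decide +kernel)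
def c22906 : PP 9 3 T 0x40000000000000000000110040000000000000100000000000000000000000000000000000000000000000000000000000000000000000000000000000008 := rS 0x2a0d4f1dacedc27d1aa340c9063c4d1e4509bd416f70f8413aaba511c461914ed8427b88807c4c94dec2526d (k8 c22545 c22905 c5209 c5397 c5396 c5216 c28 c9730 (k8 c22786 c266 c5212 c8199 c6205 c9733 c10418 c5221 (k8 c20861 c8792 c22904 c5517 c5333 c5516 c5519 c36 (k8 c20747 c2751 c703 c22665 c5675 c22633 c10035 c20806 (k8 c1457 c10249 c22681 c17720 c22671 c5665 c22672 c20804 k0))))) (by decide +kernel)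
def c22907 : PP 9 3 T 0x9000000000080000020040000000000000100080000000100000000000000000000000040000000001000100010000000000000100000010000000008 := rS 0x33e023266c0e3831557bfbed4f6aa4cefdd93c46a060cb2d621b0e886220150b2760816bb8cfed36fa1c3e6b11bde766d (k8 c22545 c18477 c5333 c5331 c5523 c1111 c5373 c5580 (k8 c5579 c5577 c5466 c5465 c5463 c5209 c5396 c5398 (k8 c28 c9730 c266 c20811 c20794 c5421 c5420 c6205 (k8 c22633 c20806 c22671 c22131 c20237 c5487 c5489 c17763 (k8 c17820 c6601 c11200 c20788 c1476 c22493 c2199 c2076 (k4 c5653 c2139 c19149 c12046 k0)))))) (by decide +kernel)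
def c22908 : PP 9 3 T 0x9000000000082000000000000000000000000080004000100000000000001000000000000000001002000004000000400000000100000000000000008 := rS 0x1a8cda0cd18aa99fdf6a7b4ce977eec996b10d874431100b25aed30f8edee6d (k8 c22545 c5333 c5332 c1111 c5579 c5465 c5396 c28 (k8 c9730 c266 c20811 c20794 c5421 c5420 c22131 c20237 (k8 c5404 c5487 c17763 c17820 c6601 c1650 c20788 c1476 (k4 c2075 c5688 c12046 c1704 (k1 c5653 k0))))) (by decide +kernel)
def c22909 : PP 9 3 T 0x9000000000000000020040000000000000100080000000100000000000002000000000000000000002000100010000000000000000000010000020000 := rS 0x76668f60008f6bfe06cf03c75561969a1d228f11bd48f3b22c4c1657 (k8 c21872 c5516 c703 c20747 c18477 c5520 c5519 c5331 (k8 c5526 c5374 c5373 c5579 c6205 c1281 c551 c22671 (k8 c1651 c16948 c11059 c18803 c5643 c20762 c1512 c2077 (k2 c22690 c10798 k0)))) (by decide +kernel)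
def c22910 : PP 9 3 T 0x9000000000080000020040000000000000100080000000100000000000000000000000040000000000000100010000000000000000000010000020008 := rS 0xa8d93c539b0439ae7645 (k8 c20747 c18477 c5523 c5373 c5209 c22907 c22909 c22131 (k2 c22908 c5489 k0)) (by decide +kernel)
def c22911 : PP 9 3 T 0x120040000000000000100080000000100000000000000000000000040000000000000000010000000000000000000000000020008 := rS 0x334ec9d5577fdaa933bf7643178b3c6a5a8e40487ef46785c029db06c3a2188807604140b5cffe24387cd73b22c4c166d (k8 c22545 c5516 c703 c20747 c18477 c5523 c1111 c5373 (k8 c5216 c5577 c5465 c5463 c5462 c5209 c28 c9730 (k8 c266 c20811 c20794 c5212 c8199 c17854 c13945 c22910 (k8 c5505 c12616 c2142 c702 c701 c5281 c1653 c551 (k8 c2163 c22131 c20237 c5487 c5489 c17763 c6601 c20788 (k4 c22908 c9931 c2076 c10798 k0)))))) (by decide +kernel)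
def c22912 : PP 9 3 T 0x40000000000000100000004000000000000000000000000000000000000000000200000000001000000010000010000020208 := rS 0x1b3788d63843f78048a33 (k8 c20738 c20747 c28 c5505 c12616 c702 c5281 c551 (k2 c22161 c22131 k0)) (by decide +kernel)
def c22913 : PP 9 3 T 0x8000000000082000000000000000000000000080004000100000000000001000000000000000000002000004000000400000000100000000000000008 := rS 0x2a365e1 (k4 c5458 c22131 c22908 c5489 k0) (by decide +kernel)
def c22914 : PP 9 3 T 0x120040000000000000100080000000100000000000000000000000040000000000000000000000000000000000000000000020008 := rS 0x3be354b3555300f6bfe06cf8eaaf66f046a706233038f0107c14ab76c61d8107c48748a3c3e6b11bd48f3b09916260b (k8 c5516 c703 c20747 c36 c18477 c5520 c5519 c5331 (k8 c5523 c1111 c5526 c5374 c5373 c5216 c5462 c5209 (k8 c5445 c5212 c5573 c8199 c22911 c2748 c2747 c1457 (k8 c20738 c20764 c22633 c22912 c22913 c5401 c1281 c551 (k8 c1651 c16948 c11059 c18803 c20762 c2026 c3073 c10719 (k2 c1623 c5452 (k1 c5653 k0))))))) (by decide +kernel)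
def c22915 : PP 9 3 T 0x120040000000000000100080000000100000000000000000000000000000000000000000000000000000000000000000000020008 := rS 0x1df1aa59aaa9800f3daff819f23aabd9bc1388d1c8c466080b81d9fe16344c8a2956ed842614cec083e243a441a6b4788c16f523cecae6d (k8 c22545 c21872 c18477 c5520 c5519 c5516 c5331 c5526 (k8 c5523 c5522 c5374 c5373 c5216 c5462 c5209 c5447 (k8 c5445 c266 c5212 c5573 c8199 c20747 c703 c22914 (k8 c5535 c20739 c674 c1108 c5643 c20297 c20764 c273 (k8 c22912 c17923 c22913 c5401 c1281 c551 c22909 c16948 (k8 c11059 c18803 c2747 c20762 c2026 c3073 c10719 c1623 (k2 c5452 c5653 k0))))))) (by decide +kernel)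
def c22916 : PP 9 3 T 0x8000000000092000020000000000000000100080000000000102000000000000000000000000000000000000000000000000000140000011001000088 := rS 0x181dd9e3355b45e1df7eecd2cd557fb93ecb13ac55a1b0eb5d42d33cca592954c88e7635 (k8 c20806 c18477 c5331 c5447 c5446 c5396 c19356 c5524 (k8 c5579 c5578 c5465 c20811 c20794 c5573 c5421 c5570 (k8 c5420 c5572 c5658 c5584 c5585 c22132 c11200 c1241 (k8 c18008 c3582 c1709 c1281 c385 c13265 c673 c5653 (k1 c20830 k0))))) (by decide +kernel)
def c22917 : PP 9 3 T 0x40000000000000000000000000000000000000000000000000000000000004000000000420000000000000000000000000000000001200000000000000000 := rS 0x207ed (k2 c5501 c2201 (k1 c9612 k0)) (by decide +kernel)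
def c22918 : PP 9 3 T 0x20000000000000000000080000000000000000000000000000010040000000000000000004000000000000000004000000000080 := rS 0x77c62cc439e4eecf948d67637 (k8 c5518 c18477 c20806 c19356 c20518 c673 c5524 c5373 (k4 c20770 c20830 c5495 c5653 k0)) (by decide +kernel)
def c22919 : PP 9 3 T 0x8000000000000000120040000000000000100080000000000000000000000000000000000000000000000000000000000000000000000000000000008 := rS 0xf0552b9fcd0199118e0621ed7e64b04c7425141284676472488c322959a7d96275aed8021d109edae3f0687cd693d84a4ae6d (k8 c22545 c21872 c19356 c5209 c5444 c5523 c1111 c5522 (k8 c5576 c5465 c22786 c266 c20811 c28 c5212 c5422 (k8 c5570 c5420 c5572 c5574 c8199 c6205 c5331 c5334 (k8 c5520 c18477 c22915 c1114 c19143 c12617 c22489 c17997 (k8 c12638 c17998 c17828 c20787 c5643 c13650 c22916 c389 (k4 c22918 c22917 c3010 c3011 (k2 c10145 c1281 k0))))))) (by decide +kernel)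
def c22920 : PP 9 3 T 0x8000000000082000000000000000000000100040000000100000000000000000000020000000000000000000000000000000000200000000000000000 := rS 0x6d767f2ef787dacb50b7fdf3b (k8 c5326 c5582 c5580 c5578 c5420 c5501 c5459 c5165 (k4 c5171 c6601 c17766 c5228 k0)) (by decide +kernel)
def c22921 : PP 9 3 T 0x80008000000000090000120040000000000000000040000000000000000000000000000010000000000000000000004000000000000200000000000000008 := rS 0x33860cd1e0d9387cf0b862a7159a04fedf439e47677198fd8e060484527b000b2c4e9f948e4441f35864da57 (k8 c21872 c22545 c6205 c5523 c1111 c6197 c395 c19356 (k8 c5572 c5570 c5420 c28 c5209 c5444 c20747 c17997 (k8 c5643 c13650 c5576 c389 c673 c1674 c5524 c5373 (k8 c5580 c5577 c5463 c5574 c5571 c5590 c5591 c7694 (k8 c17861 c20515 c5654 c21924 c2330 c2971 c20853 c4152 k0))))) (by decide +kernel)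
def c22922 : PP 9 3 T 0x8000000000010000120040000000000000100000000000000000000000000000000000000000000000000000000000000000000200000000000000008 := rS 0x36667859fecf9b1d0e790f9afdf3b23a3c960d1d9ecee060484526010cb2c4e9f198fda34bd84a76c57 (k8 c21872 c5212 c19356 c5209 c22919 c22920 c5576 c389 (k8 c5572 c5570 c5420 c6205 c28 c5444 c20747 c17997 (k8 c5643 c673 c22786 c1674 c5522 c12638 c5526 c13598 (k8 c5326 c5582 c5523 c1111 c5524 c5373 c13650 c22921 (k4 c5171 c5543 c22445 c20770 (k2 c20008 c2330 k0)))))) (by decide +kernel)
def c22923 : PP 9 3 T 0x8000000000000000120040000000000000100000000000000000000000000000000000000000000000000000000000000000000200000000000000008 := rS 0xf6fcf693bf7b2f6ca16fec2534b (k8 c22919 c19356 c5209 c5580 c5578 c5212 c5420 c5582 (k4 c5326 c22922 c17766 c22658 (k1 c5171 k0))) (by decide +kernel)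
def c22924 : PP 9 3 T 0x8000000000020000120040000000000000100000000000000000000000000000000000000000000000000000000000000000000000000000000000008 := rS 0xaef777a77e1f6fce2acbdb285be954cec2534b (k8 c22919 c19356 c5209 c5447 c5446 c5580 c5578 c5212 (k8 c5420 c5414 c17766 c22658 c6706 c22652 c5165 c5171 (k2 c19336 c5584 k0))) (by decide +kernel)
def c22925 : PP 9 3 T 0x41008000000000090000000000000000000000100040004000000000000000000000000000100000000000000000000000000000000000000000000000000 := rS 0xd97b942d3 (k4 c5579 c5578 c5171 c5228 (k1 c11200 k0)) (by decide +kernel)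
def c22926 : PP 9 3 T 0x8008000000000090000100040000000000000000000004000100000000010000000000014000000000000001404005000000000004000100000040000008 := rS 0x33060c73b8d40c0919845e1df896cdaaaf468653ecb13ac55a016ba85a69364a576057 (k8 c21872 c5209 c5446 c5396 c5444 c5579 c5578 c5465 (k8 c28 c5573 c5421 c5570 c5420 c5572 c6205 c5505 (k8 c5584 c5585 c11200 c20818 c18008 c22131 c704 c385 (k8 c17997 c5643 c20806 c673 c13650 c5653 c20770 c1917 k0)))) (by decide +kernel)
def c22927 : PP 9 3 T 0x46000000000000000000020000000000000000100040004000000100000000000000000000000000000000000000000000000000004100000000000000000 := rS 0x232348501 (k4 c5502 c5658 c12616 c10155 (k1 c18747 k0)) (by decide +kernel)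
def c22928 : PP 9 3 T 0x40008000000000000000120040000000000000100000004000000000000000000000000000000000000000000000000000000000000000000000000000008 := rS 0x15267d93c639ef67c05a3ecdb1ed0e913ca3d93b09491496291c88b6b4b0f9ac326d (k8 c22545 c6205 c5523 c1111 c22919 c22924 c6197 c395 (k8 c8199 c560 c22923 c19356 c5209 c5396 c5526 c5524 (k8 c5374 c5373 c22786 c5212 c22925 c5501 c5502 c5543 (k4 c22926 c22927 c551 c22131 (k2 c5487 c5489 (k1 c20915 k0)))))) (by decide +kernel)
def c22929 : PP 9 3 T 0x2000000000000000000100000000000000000100040008000000200000000000000000000000000000000001404000000000000004000000000000000000 := rS 0x8d89c0c20492dbd602ff (k8 c5544 c5502 c5477 c5474 c19116 c22489 c7820 c704 (k2 c701 c20819 k0)) (by decide +kernel)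
def c22930 : PP 9 3 T 0x1000000000010000000000000000000000000040008000100000000000000000000014000000000000000004005000000000000000000000041000088 := rS 0xcc1b1dd8e3b1c888b6f5 (k8 c5477 c5474 c6197 c395 c1674 c13650 c672 c5654 (k2 c20770 c2329 k0)) (by decide +kernel)
def c22931 : PP 9 3 T 0x2008000000000000000120040000000000000100000008000000000000000000000000000000000000000000000000000000000000000000000000000008 := rS 0x2068d8992420370405c0f1df0bfd9f0168bdd3ecb13ed8027b718fd0e913ca3d27b09492c5239116d6961f35865ea57 (k8 c21872 c5477 c6205 c5523 c1111 c22919 c22924 c6197 (k8 c395 c8199 c560 c19356 c5209 c5444 c5526 c5524 (k8 c5374 c5373 c5576 c5466 c22786 c28 c5212 c5570 (k8 c5420 c5572 c5498 c5501 c5502 c5543 c5544 c22319 (k8 c22929 c22930 c1108 c5643 c1510 c17997 c18013 c704 (k2 c702 c7820 (k1 c20762 k0))))))) (by decide +kernel)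
def c22932 : PP 9 3 T 0x8000000000000000120040000000000000100000008000000000000000000000000004000000000000000000000000000000000000000000000000048 := rS 0x3fa02a881aad1b1324a582037198202e1959a7d96275680436e31fa1d227947a4d9295d84a496291a96c62f5d9ed83afd7888b6b4b0f9afda57 (k8 c21872 c22931 c5523 c1111 c22919 c22924 c6197 c5323 (k8 c1237 c20811 c5212 c22273 c5477 c5476 c5474 c5324 (k8 c8199 c560 c19356 c5209 c5446 c5396 c5444 c5526 (k8 c5524 c5374 c5373 c5576 c5466 c20794 c28 c5573 (k8 c5570 c5420 c5572 c5574 c6205 c1108 c5643 c20297 (k8 c1510 c17997 c3577 c18013 c704 c701 c1285 c7820 (k4 c5682 c13274 c20762 c2452 k0))))))) (by decide +kernel)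
def c22933 : PP 9 3 T 0x8000000000000000120040000000000000100000008000000000000000000000000014000000000000000000000000000000000000000000000000008 := rS 0x1e03b818327b439e6521f35d2f6a5b (k8 c5474 c22924 c22919 c5523 c1111 c19356 c5524 c5373 (k4 c22786 c6205 c22932 c672 (k2 c22930 c22445 k0))) (by decide +kernel)
def c22934 : PP 9 3 T 0x40008000000000000000120040000000000000100000000000000000000000000000000008000000000000000000000000000000000000000000000000008 := rS 0x49f02ce1898413846122589267550ed8e013da050e794cec2524b148e43235d9ed83afd78ce845b5a587cd66d (k8 c22545 c5523 c1111 c22919 c22924 c6197 c22928 c5323 (k8 c1237 c20811 c5212 c22273 c5324 c6205 c395 c8199 (k8 c560 c19356 c5209 c5447 c5524 c5373 c5463 c22786 (k8 c28 c20739 c1646 c13265 c2124 c19251 c22141 c22275 (k8 c5660 c1284 c1114 c12623 c2789 c13264 c17854 c1507 (k1 c2748 k0)))))) (by decide +kernel)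
def c22935 : PP 9 3 T 0x40008000000000000000120040000000000000100000000000000000000000000000000000000000000000000000000000000000000000000000000000008 := rS 0x37f08eda006678c6747b948e445b5a587cd619 (k8 c6205 c5523 c1111 c22919 c22924 c6197 c395 c19356 (k8 c22786 c22928 c5476 c22934 c22932 c22933 c1674 c5459 (k2 c1481 c5654 k0))) (by decide +kernel)
def c22936 : PP 9 3 T 0x8000000000000000120040000000000000100000000000000000000000000000000000000000000000000000000000000000000000000000000000008 := rS 0x3459ea87eaafdbb378aba74438e848229c129bbdee18afc845b522d2d2bb00fca4d629399c566b5db075c66d (k8 c22545 c5466 c20811 c5212 c5422 c5574 c5571 c19419 (k8 c8199 c5523 c19356 c1111 c5209 c5446 c22919 c22923 (k8 c22924 c6197 c22935 c5590 c5591 c18955 c17922 c1262 (k8 c9176 c2745 c12617 c22489 c20787 c5658 c17885 c5323 (k8 c22273 c22931 c1286 c1237 c5682 c1651 c2024 c22933 k0))))) (by decide +kernel)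
def c22937 : PP 9 3 T 0x100040000000000000000000008000200000400050001000000000080000000000001404110000801000000000000000004020800 := rS 0xff46b30b635 (k4 c5324 c5474 c19918 c701 (k2 c22177 c20762 k0)) (by decide +kernel)
def c22938 : PP 9 3 T 0x8000000000000000100040000000000000100000000000000000000000000000000000000000000000000000000000000000000000000000000000008 := rS 0x3daf7d90d276f143bcc3cf5051a8200d4797926c6309e7c29a4cd2f687d1e8e7632880b862a9181c4c97f24ee75bea11fb8d024114acd3ecb13ad76c630d874f7110083c0a6d (k8 c22545 c21870 c21871 c28 c9730 c22786 c20811 c20794 (k8 c9752 c5212 c5422 c5570 c5420 c5572 c5574 c8199 (k8 c5462 c5463 c5466 c5576 c5578 c5580 c22936 c8792 (k8 c22906 c5546 c5547 c5550 c5589 c5590 c5591 c5592 (k8 c9176 c6118 c5317 c5436 c18801 c22079 c17954 c5530 (k8 c19797 c6706 c2384 c10425 c5669 c262 c5663 c2486 (k8 c2480 c18893 c1119 c5645 c22886 c2305 c20781 c22895 (k4 c1216 c22937 c19920 c22131 (k2 c19916 c22695 (k1 c5657 k0)))))))))) (by decide +kernel)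
def c22939 : PP 9 3 T 0x80004000000000001000000040000000000000100000004000200000000000001000000100000000500000100000000000001000000000000000000020008 := rS 0x7d363b793799cd12134bdefe8eb5f6434ef86436211c85c46ab4ee74f71100c56024549b24c66d (k8 c22545 c9752 c20845 c262 c20747 c5592 c5590 c28 (k8 c9730 c22786 c19356 c8792 c20861 c9733 c5433 c5317 (k8 c266 c20794 c6205 c19294 c19920 c22131 c1764 c553 (k8 c17868 c5586 c5689 c5658 c2135 c2943 c2942 c2781 (k4 c449 c2563 c22553 c6193 k0))))) (by decide +kernel)
def c22940 : PP 9 3 T 0x5000010040000000000000000040004000000000500050050000000000000000000000005100084000000800000000160000140400000 := rS 0xfef623d0ef33c8e936d14b77c329d4c88c1e6d (k8 c22545 c21871 c9733 c7114 c8792 c6205 c5450 c17795 (k8 c20869 c22740 c3578 c1536 c449 c19819 c2924 c5657 (k2 c20762 c5544 k0))) (by decide +kernel)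
def c22941 : PP 9 3 T 0x100040000000000000100040004000000000000000000000000000000000000000000000000000000000000000000000000020008 := rS 0xd43b797b55e354687e3af7d9bc1265e30b54fcf540864e67159ac56a390385d3a7b88804fbb165a7c4fb61498e270348c5603f24c88c6e2154ed33b28f183cda05 (k8 c21870 c22545 c21871 c22938 c5216 c19356 c5211 c5531 (k8 c266 c5435 c9733 c7114 c22905 c5592 c5590 c5589 (k8 c5550 c5547 c9752 c8199 c5212 c5570 c5572 c5420 (k8 c22565 c18801 c28 c9730 c22786 c8792 c5433 c5432 (k8 c5317 c5422 c5421 c5574 c5571 c19419 c6205 c699 (k8 c22886 c5670 c20749 c17682 c19577 c262 c22939 c5401 (k8 c499 c551 c1216 c702 c22940 c22896 c20846 c5657 (k2 c448 c18034 (k1 c15887 k0))))))))) (by decide +kernel)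
def c22942 : PP 9 3 T 0x100040000000000000100040004000000000000000000000000000000000000000000000000000000000000000000000000000008 := rS 0xf77afb5e0ce3becd9ad1307818e5f401fd0e797984814114c864361d109ec7e3711aaf3b11009f762cb4f89f6c2931c4e03f29478c0a6d (k8 c22545 c21870 c22938 c5216 c22905 c5592 c5547 c9752 (k8 c8199 c5212 c5570 c5572 c5420 c22565 c18801 c28 (k8 c9730 c19356 c20861 c9733 c5435 c5318 c22786 c266 (k8 c20811 c20794 c6205 c7114 c22941 c17869 c12617 c20781 (k8 c2307 c22895 c2917 c5670 c1746 c940 c22549 c5663 (k8 c20815 c5537 c17771 c10409 c20770 c22131 c5543 c2339 (k2 c499 c5657 k0))))))) (by decide +kernel)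
def c22943 : PP 9 3 T 0x100040000000000000100080000000000000000000000000000000000000000000000000000000000000000000000000000000008 := rS 0x2f26cd47edaa048a101207c76b30d88472070b8dc469dce9ee22013eec5969f13ed8526325c4e2bf29478c0a6d (k8 c22545 c21870 c22938 c5216 c22905 c5590 c5547 c5546 (k8 c9752 c8199 c5212 c5570 c5572 c5420 c22565 c18801 (k8 c28 c9730 c22786 c19356 c8792 c9733 c5435 c5433 (k8 c5432 c5317 c266 c20794 c5574 c5332 c5517 c17941 (k8 c16594 c2969 c699 c22664 c5670 c5665 c8100 c19577 (k1 c8110 k0)))))) (by decide +kernel)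
def c22944 : PP 9 3 T 0x100040000000000000100000000000000000000000000000000000000000000000000000080000000000000000000000000000008 := rS 0xdca1122be3ad74aa5bbec92f185aa296598c3633d8fca51e322bc46bb39d52f6c1d (k8 c20811 c5212 c22943 c22942 c22273 c5324 c5323 c5326 (k8 c22938 c5216 c22905 c22565 c5316 c20794 c9752 c5420 (k8 c8199 c20749 c17682 c19577 c20845 c19294 c22891 c20765 (k4 c1767 c5778 c22896 c17885 (k2 c10048 c1113 (k1 c2919 k0)))))) (by decide +kernel)
def c22945 : PP 9 3 T 0x100040000000000000100000000000000000000000000000000000000000000000000000000000000000000000000000000000008 := rS 0x4af7d9c7764a1d5c97050963a603c84425e02fb55007fd99167499a5c05c7133e88fe5b1ce8dc0f28f18843a63008a53ecb13ed80a6d (k8 c22545 c21870 c5212 c5570 c5420 c5572 c8199 c28 (k8 c9752 c20811 c266 c22938 c5216 c5432 c5435 c19356 (k8 c22565 c22905 c9733 c18801 c5547 c5549 c5592 c22943 (k8 c7114 c22942 c5326 c22273 c22944 c5670 c20766 c1746 (k8 c22549 c22789 c699 c1750 c5663 c20813 c2805 c17869 (k8 c20768 c17885 c22895 c1183 c725 c22445 c5453 c1587 (k1 c5678 k0))))))) (by decide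 +kernel)
def c22946 : PP 9 3 T 0x80000000000000000000000000000008000000100000000000000000000200000000000000000020000000000000000000011010000002 := rS 0x50ab8de45 (k4 c5326 c1060 c17885 c2825 (k1 c1182 k0)) (by decide +kernel)
def c22947 : PP 9 3 T 0x400000000001000010040000000000000000000000000000000100000000000000000200000005000010004005000048000000000000000000000000 := rS 0xf0b1d34ce7e1ad2e6d (k8 c22545 c20807 c1174 c20788 c1181 c10429 c20739 c5536 (k1 c5669 k0)) (by decide +kernel)
def c22948 : PP 9 3 T 0x80000000000000000000000000000000000000000000000000200000000000000000000000000000000000000000042000000000001010000000000080000 := rS 0x476f82c763725b8dc20f (k8 c21871 c5591 c5549 c5546 c5435 c1536 c2307 c2388 (k2 c2811 c17934 k0)) (by decide +kernel)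
def c22949 : PP 9 3 T 0x80000400000000001000000040000000000000000000000000200000000000000000000200200000000000010000044008048040001010010000000080000 := rS 0x76df23b3417ed431e552ab88ed22ae368e755ca0 (k8 c1175 c3000 c19356 c9610 c5549 c5590 c22079 c1271 (k8 c1286 c5531 c22948 c22947 c5499 c692 c2074 c2811 (k2 c3003 c6899 (k1 c17862 k0)))) (by decide +kernel)
def c22950 : PP 9 3 T 0x4000000000001000100040000000000000100000008000000000000000000000000000000000000000000000040000000000000000000000000000000 := rS 0xe325a3a21b57e9adbe9b7087fc14a23fccdc491207590956a77f671d09045aed3209f0529f5aed9e2331c8fc623d219146a672d9ef3b284ba04c400019ccda05 (k8 c21870 c22545 c19419 c22945 c5642 c16365 c937 c20807 (k8 c5216 c19356 c20101 c5474 c663 c5324 c5326 c5478 (k8 c5436 c5434 c5318 c5317 c5316 c19427 c5212 c5422 (k8 c5572 c8199 c5670 c12625 c20757 c20802 c2747 c12617 (k8 c22489 c17706 c17979 c3588 c1589 c5678 c2061 c22946 (k8 c10629 c2804 c22949 c10418 c5221 c5188 c6300 c5460 (k8 c5536 c5538 c1058 c10429 c17804 c5665 c1272 c12624 (k2 c2404 c17954 k0)))))))) (by decide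 +kernel)
def c22951 : PP 9 3 T 0x100040000000000000100000008000200000000000000000000000000000000000000000080000000000000000000000000000000 := rS 0x11810579bc267338ac55bb61f97c2e672d8000605 (k8 c21870 c22945 c5642 c5474 c663 c5433 c1054 c5318 (k8 c5212 c5573 c5421 c5571 c19419 c2917 c2920 c22889 (k2 c12617 c20793 (k1 c701 k0)))) (by decide +kernel)
def c22952 : PP 9 3 T 0x4000000000000000100040000000000000000000000000000000000000000000000000000000000000000000040000000000000001000000000020040 := rS 0xfa81 (k2 c699 c2747 (k1 c5670 k0)) (by decide +kernel)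
def c22953 : PP 9 3 T 0x4000000000000000000000000000000000000000000000000000000000000000000100500000080010010000040000045400000000000000000000000 := rS 0x1afdf4b1dda7ef (k4 c5584 c2940 c10702 c20791 (k2 c5452 c1767 (k1 c5689 k0))) (by decide +kernel)
def c22954 : PP 9 3 T 0x4000110000000000000000000000000000000000200000014000000080000000000000101000000040000040000140000000020010000 := rS 0x19efe81aac970123925ef137ed2b6b1d (k8 c22489 c5411 c9727 c20808 c955 c5333 c5334 c5520 (k4 c19568 c12663 c2121 c21406 (k2 c3593 c13265 (k1 c2943 k0)))) (by decide +kernel)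
def c22955 : PP 9 3 T 0x6000100040000000000000100000000000200000000000014000000080000000000000000200240000000040000140000000020010000 := rS 0x31cf3136f1efe5e1a588769113b1cc0003cea652205 (k8 c21870 c17681 c5447 c19356 c22945 c5642 c19419 c2083 (k8 c22954 c17712 c5528 c9578 c22548 c5221 c22559 c22550 (k4 c5547 c2388 c940 c5669 k0))) (by decide +kernel)
def c22956 : PP 9 3 T 0x6000100040000000000000100000000000200000000000014000000000000000040000000000240004000040000140000000004010000 := rS 0x3bed74b1dda7ef460704a29399c5962758ab76cf13081cbe1733800066364a563a05 (k8 c21870 c22489 c5446 c5396 c5395 c22945 c5642 c663 (k8 c5433 c1054 c5432 c661 c19427 c5212 c5573 c5421 (k8 c5570 c5420 c5571 c19419 c8199 c12972 c3582 c20793 (k4 c5505 c22955 c939 c20791 (k2 c1767 c5452 (k1 c20909 k0)))))) (by decide +kernel)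
def c22957 : PP 9 3 T 0x8000400000000002000100000000000000000100000000000200000100000000000000540000000040000000000000000000000000000000000000000002 := rS 0xcc7e33e02def9787db4b548862ad155ed166b5ce97c2ec94da595acb58ed9fe6d (k8 c22545 c5586 c5212 c5421 c5420 c5573 c9617 c5397 (k8 c5396 c5433 c1054 c19356 c5422 c5574 c17712 c20861 (k8 c9368 c5414 c5528 c5531 c9578 c17711 c22548 c5221 (k4 c22550 c5592 c2565 c18111 (k2 c5688 c2504 k0))))) (by decide +kernel)
def c22958 : PP 9 3 T 0x4400000000000000100040000000000000100000008000000000000000000000000440000000000000000000200000000000000000000000000000000 := rS 0x37fe6cc68c536b1070c0c11ee3b8cc739d4c9b95ed54ab24c6a13397c2e610000d97b6088f40fb31aec0fef50d96de64521ca0ae05 (k8 c21870 c21872 c5216 c5478 c5326 c5325 c5474 c5475 (k8 c5477 c22951 c22950 c5324 c17756 c5432 c5436 c22952 (k8 c5212 c5420 c22945 c5642 c661 c5433 c1054 c663 (k8 c5398 c5395 c5396 c5446 c20766 c22953 c22956 c5447 (k8 c19356 c5317 c5316 c939 c5689 c20881 c5508 c4263 (k8 c22957 c5411 c1271 c20864 c20172 c5590 c2950 c8709 k0)))))) (by decide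 +kernel)
def c22959 : PP 9 3 T 0x400000000022000100040000000000000100000000000200000000000000000000480000000040000000000240000000000000000000000000000000 := rS 0x334f4d1f6b1cf30181c4dbdf2f0d2d52218a9cce2b358ad76d9d (k8 c19356 c5212 c5422 c5421 c5574 c5571 c19419 c5414 (k8 c5528 c5531 c9578 c22548 c5221 c22550 c5547 c5550 (k8 c5592 c2388 c940 c20846 c2135 c5669 c19793 c20893 k0))) (by decide +kernel)
def c22960 : PP 9 3 T 0x4400000000000000100040000000000000100000008000000000000000000000000400000000000000000000200000000000000000000000000000000 := rS 0x1ff018192e288e23bde214adab4b3b1d24890dcaf6aa5592635099cbe1730b2f6c111e81f6635d81fdea1b2dbcc8a43940000605 (k8 c21870 c22945 c5642 c5216 c5478 c5326 c5325 c5474 (k8 c5475 c5477 c22951 c22950 c5324 c17756 c5432 c5436 (k8 c22952 c5212 c5420 c661 c5433 c1054 c663 c5398 (k8 c5395 c5396 c5446 c20766 c22953 c22956 c1060 c10629 (k8 c22489 c19356 c22958 c22959 c5211 c17712 c5333 c5520 (k4 c1272 c1271 c12624 c20799 (k2 c20800 c4894 (k1 c3593 k0)))))))) (by decide +kernel)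
def c22961 : PP 9 3 T 0x2000000000000000000000000000000000000000000000000000000800400000000000000000040000040400000000000000000000000 := rS 0x1dd2e95 (k4 c5446 c1767 c2188 c20857 k0) (by decide +kernel)
def c22962 : PP 9 3 T 0x4000000000000000100040000000000000100000008000000000000000000000000000000000000000000000200000000000000000000000000000000 := rS 0x1df57b553eb1569840ea131b252ad7d81fcce5b2f85e500001b2f6c05 (k8 c21870 c5212 c5420 c22945 c5642 c5216 c5433 c1054 (k8 c5474 c663 c22951 c22950 c22961 c5446 c5396 c5395 (k8 c5398 c5432 c661 c5573 c5421 c5572 c20766 c22953 (k2 c18008 c22960 k0)))) (by decide +kernel)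
def c22963 : PP 9 3 T 0x2000000040000000000000000000008000200000200000000000000000000000000000000000000400000000000000000000000000002 := rS 0xcf7bb31a34a35ed47231ce984be171abcdea6364a553208038ccda57 (k8 c21872 c22545 c5316 c5432 c20881 c5447 c5446 c5396 (k8 c5395 c5477 c5325 c5324 c5433 c1054 c661 c19356 (k8 c5434 c5317 c5411 c159 c9727 c20864 c20172 c5333 (k2 c139 c18108 k0)))) (by decide +kernel)
def c22964 : PP 9 3 T 0x2000100040000000000000100000008000200000000000000000000200000000000000000000020400000000000000000000000000000 := rS 0x1fa8735b318ce171b7be5e1a5aa4431568aaf69114b1c596b5db674c2072f85cce5b0000cc6c94da54da05 (k8 c21870 c22545 c5446 c5397 c5396 c5395 c22945 c5642 (k8 c5474 c663 c5433 c1054 c5432 c661 c19356 c5212 (k8 c5422 c5420 c5571 c20791 c22963 c17712 c20861 c9368 (k8 c5414 c5528 c5531 c9578 c22548 c5221 c22550 c17751 (k4 c5591 c2830 c3003 c17981 (k2 c799 c2504 (k1 c20788 k0))))))) (by decide +kernel)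
def c22965 : PP 9 3 T 0x2000100040000000000000100000000000200000100000000000000200000000000000000000020800040000000000000000000000000 := rS 0x1fa6b43b31c2e33db7be5e1a5aa4431555ed0e2cb5aed80003cea6cda05 (k8 c21870 c22545 c5397 c19356 c22945 c5642 c5212 c5422 (k8 c5420 c5571 c17712 c20861 c5414 c5528 c5531 c9578 (k8 c22548 c5221 c22550 c22559 c17751 c5591 c3003 c2074 (k2 c17981 c2504 (k1 c20788 k0))))) (by decide +kernel)
def c22966 : PP 9 3 T 0x4000000000000000100040000000000000100000008000000000000000000000000000000000000000000000000000000000000000000000000000000 := rS 0x1c0fe6fb8e03032591deed18a23a95103b1b892d41234c827c40b5e3a1208ec0fe677a96de6352290d97b6198e47e07188f4be17940000605 (k8 c21870 c22945 c5642 c5216 c5433 c1054 c5436 c5434 (k8 c5432 c5318 c5317 c5316 c5212 c5420 c5478 c5326 (k8 c5324 c5325 c5474 c5477 c663 c22951 c22950 c22952 (k8 c12617 c22489 c22961 c22962 c5670 c298 c20757 c17815 (k8 c3588 c10629 c2804 c22964 c22965 c9727 c1272 c1271 (k8 c20864 c5333 c5520 c12624 c20799 c20800 c2404 c4935 (k2 c3593 c17954 (k1 c3013 k0)))))))) (by decide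 +kernel)
def c22967 : PP 9 3 T 0x4000000000000000100040000000000000000080000000200000400000000000000000040000000000000000140000000000000000000000000080000 := rS 0xf0383e6df71904f8391fe747647258447a07 (k8 c5432 c5436 c22952 c12663 c5520 c5332 c19356 c5318 (k8 c5317 c5670 c298 c1552 c2830 c19019 c17954 c5188 (k1 c5460 k0))) (by decide +kernel)
def c22968 : PP 9 3 T 0x100000004000000000000000000000000000000000000000000000200800000000000044004000000000000 := rS 0x7b918d2 (k4 c939 c938 c15747 c5505 k0) (by decide +kernel)
def c22969 : PP 9 3 T 0x4000000000002000100040000000000000100080000000000000000000000000000000000000000000000000140000000000000000000000000000000 := rS 0x31e2710da9cc0003ce848223d03ca0c605 (k8 c21870 c5395 c5216 c5432 c5436 c22952 c12617 c19356 (k8 c22945 c5642 c19419 c9578 c17712 c955 c796 c22967 k0)) (by decide +kernel)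
def c22970 : PP 9 3 T 0x4000000000002000100040000000000000100000000000000000000000000000000000000000000000000000040800000000000000000000000000000 := rS 0x1aa35228708cf305034d6c647385c6f58ab7be5b4a5b4c827c40b5ce2cb5aed80003198e47e31cecee3a43090447a079424c1e05 (k8 c21870 c21871 c5444 c5216 c5432 c5436 c22952 c12617 (k8 c20787 c22489 c22966 c19356 c5434 c5318 c5317 c5316 (k8 c22945 c5642 c5212 c5422 c5420 c5571 c2188 c22968 (k8 c5670 c298 c20757 c22969 c5211 c5221 c22550 c5414 (k8 c20218 c5549 c5591 c2829 c2830 c17981 c2480 c5645 (k4 c20781 c2311 c20245 c2973 (k2 c331 c18677 (k1 c3588 k0)))))))) (by decide +kernel)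
def c22971 : PP 9 3 T 0x4000000000002000100040000000000000100040000000000000000000000000000000000000000000000000140000000000000000000000000000000 := rS 0x3546a450e119e60a069ad8cd769a38827c399c566cb5aed866391f8c6771d21848223d03a4dbc9d8abd7680001b8dc3f2ceca01e05 (k8 c21870 c21871 c5216 c19356 c5221 c5591 c5549 c22945 (k8 c5642 c5211 c20218 c5414 c5412 c22550 c5444 c5432 (k8 c5436 c22952 c12617 c20787 c22489 c22966 c5434 c5318 (k8 c5317 c5316 c5212 c5422 c5420 c5574 c5571 c19419 (k8 c5670 c298 c18965 c20757 c20802 c2830 c17981 c2480 (k8 c5645 c20781 c2311 c20245 c2973 c331 c18677 c3588 k0)))))) (by decide +kernel)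
def c22972 : PP 9 3 T 0x4004000000000002000000000000000000000100000004000000100000000000000000100400000000000000000040008001400000040000004000000002 := rS 0x330755c445098d9295 (k8 c5446 c5396 c5395 c5398 c5658 c18671 c335 c22953 (k1 c664 k0)) (by decide +kernel)
def c22973 : PP 9 3 T 0x4000000000002000100040000000000000100040000000000000000000000000000040000000000000000000040000000000000010000000000000000 := rS 0x337da456bfb8dc3b12025962730cee3a43090447b036a830165f0ba6d32634eed0000303b3cf4c74044fc3f2db1e5bd9d9403c0a6d (k8 c22545 c21870 c21871 c5216 c19356 c22550 c2388 c5212 (k8 c5221 c7694 c5547 c22971 c940 c5669 c20767 c5432 (k8 c22945 c5642 c5211 c5412 c5395 c5447 c5397 c5433 (k8 c1054 c10374 c5645 c20766 c5550 c5436 c22952 c12617 (k8 c20787 c22489 c22966 c661 c5570 c5420 c1744 c17815 (k8 c289 c2804 c22972 c5507 c5582 c17711 c19793 c21151 k0)))))) (by decide +kernel)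
def c22974 : PP 9 3 T 0x8000000000000002000100000000000000000100000000000200000100000000000000140000000000000000000000000000000000000000000000000002 := rS 0x3beaf6ba7d96b156ed94295 (k8 c5446 c5398 c5212 c5573 c5421 c5420 c5572 c5507 (k2 c5584 c18008 (k1 c22957 k0))) (by decide +kernel)
def c22975 : PP 9 3 T 0x4000000000002000100040000000000000100040000000000000000000000000000040000000000000000000040000000000000000000000000000000 := rS 0x676b07489ef2032c4fb62f85c00039dc748612088f40f2888b550005 (k8 c21870 c22971 c20766 c9727 c5216 c5432 c5436 c22952 (k8 c12617 c20787 c22489 c22966 c22945 c5642 c5433 c1054 (k8 c5212 c5570 c5420 c22973 c22974 c5658 c335 c459 (k2 c664 c22961 k0)))) (by decide +kernel)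
def c22976 : PP 9 3 T 0x4000000000002000100040000000000000100040000000000000000000000000000000000000000000000000040000000000000000000000000000000 := rS 0xaf6bf7da480da67650a1 (k8 c5398 c5216 c19356 c5211 c22971 c22975 c5496 c205 (k2 c2940 c22959 k0)) (by decide +kernel)
def c22977 : PP 9 3 T 0x4000000000000000000000000000100000000000010000000400005000000000000000010400004 := rS 0x12e677897c0005 (k4 c21870 c5642 c1054 c19427 (k2 c664 c19357 (k1 c20791 k0))) (by decide +kernel)
def c22978 : PP 9 3 T 0x4000000000002000100040000000000000100000000000000000000000000000000000000000000000000000040000000000000000000000000000000 := rS 0x1ee79914390125c4dfb1048ed48ef524bde94774ab24c67313ed82f9d30800073b8e90c24111e81e5005 (k8 c21870 c5216 c5432 c5436 c22952 c12617 c20787 c22489 (k8 c22966 c22945 c5642 c661 c19356 c5433 c5212 c5570 (k8 c19419 c5395 c5396 c5446 c22970 c22976 c5333 c5334 (k8 c5519 c5520 c9578 c3036 c17712 c20808 c955 c12663 (k4 c19568 c22977 c335 c334 (k2 c5658 c17988 k0)))))) (by decide +kernel)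
def c22979 : PP 9 3 T 0x100000004000200100000000000000000040000000000000040000000000000000000050000004020000000 := rS 0x7b86a45 (k4 c335 c332 c5658 c14662 k0) (by decide +kernel)
def c22980 : PP 9 3 T 0x99000000040000000000000000080000000200000000000000000000000000000000001000000020040000000000010000000000000004 := rS 0x389c31325b7d371059a7c00391f8f73a05 (k8 c21870 c19356 c5436 c5318 c5317 c5642 c5572 c5574 (k8 c17712 c8100 c13097 c19429 c955 c13096 c17954 c1552 k0)) (by decide +kernel)
def c22981 : PP 9 3 T 0x9000100040000000000000100080000000200000000044000000000000000000040000001100020000040000000010000000000000000 := rS 0x44e00868aaaf686b0facf3a9d371c55ab1db1ccc40001bf55205 (k8 c21870 c5489 c5405 c22945 c5642 c16365 c19419 c5212 (k8 c5421 c5573 c5571 c20793 c4080 c19356 c5574 c5517 (k8 c1058 c22980 c5413 c5414 c20831 c18003 c958 c19568 k0))) (by decide +kernel)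
def c22982 : PP 9 3 T 0x9000100040000000000000100000000000200000000044000000000000000000040000001100020000040000000010000000000000000 := rS 0x3e5b4a5ac76d9d (k4 c19356 c5212 c5421 c22981 (k2 c5211 c5221 (k1 c15208 k0))) (by decide +kernel)
def c22983 : PP 9 3 T 0x4000000000000000100040000000000000100040000000000000000000000000000000000000000000000000040000000000000100000000000000000 := rS 0x1a0b0f218d6fc7b9e6031354aafe5b4889ef3a490d3236691121b8e2ad58bfd5f0346fb8ce950eb4d2e27db4ec62f1efb5cf83320a04c5b10000ce71d21848223d03ca01e05 (k8 c21870 c21871 c5216 c5432 c5436 c22952 c12617 c20787 (k8 c22489 c19419 c22945 c5642 c22978 c16365 c937 c298 (k8 c5316 c5670 c20802 c17979 c19427 c5434 c22966 c5212 (k8 c5570 c20807 c20757 c22979 c10191 c664 c5658 c5505 (k8 c5508 c5584 c5586 c5421 c5573 c5571 c20793 c1060 (k8 c4963 c22982 c5678 c5649 c10629 c19356 c20101 c9727 (k8 c5211 c5221 c11079 c5531 c5547 c5592 c22948 c2103 (k4 c21351 c1174 c22947 c1075 (k2 c693 c2361 (k1 c5645 k0)))))))))) (by decide +kernel)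
def c22984 : PP 9 3 T 0xa0000110000000000000000000000000000000000000045000000000000000000041000001100000000440000000000000000000000000 := rS 0x227004345556b3 (k4 c5574 c5413 c5414 c20831 (k2 c18003 c958 (k1 c19568 k0))) (by decide +kernel)
def c22985 : PP 9 3 T 0x4000000000000000100040000000000000100000000000000000000000000000000000000000000000000000040000000000000100000000000000000 := rS 0xc789c436aa97e9adea1fa506b66914e890dcff57c0d1bee38ac55af1ce99c3ad33e10502734b98b624309474223d03cee5027db0000605 (k8 c21870 c22945 c5642 c5212 c5570 c5216 c22966 c5432 (k8 c5436 c22952 c22489 c12617 c20787 c22978 c16365 c20807 (k8 c19419 c937 c298 c5670 c20757 c22979 c664 c19356 (k8 c19427 c5573 c5421 c5571 c5658 c5505 c5508 c5584 (k8 c5586 c20793 c1060 c4080 c4963 c22982 c5649 c22983 (k8 c5517 c5519 c1058 c20237 c1906 c22984 c17712 c955 (k2 c797 c22967 k0))))))) (by decide +kernel)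
def c22986 : PP 9 3 T 0x4000000000010000100040000000000000100000000000000000000000000000000000000000000000000000040000000000000000000000000000000 := rS 0x18f13f0442959d090447a0794204c5b10000ce605 (k8 c21870 c19419 c22945 c5642 c22978 c16365 c937 c5216 (k8 c5432 c5436 c22952 c12617 c19356 c5211 c17712 c5235 (k2 c955 c5535 (k1 c22967 k0)))) (by decide +kernel)
def c22987 : PP 9 3 T 0x4000000000000000100040000000000000100080000000000000400000000000000000000000000000000000040000000000000000000000000000000 := rS 0xd56f1d99ae143281fa6b631b8921f1d8a5e2231c8fc62373de75ae670eb4c82972184a3b3b13edbdf1510aa48ef5da11096111e81e50e33e204c5b10000ce605 (k8 c21870 c19419 c22945 c5642 c22978 c16365 c937 c5670 (k8 c1552 c5216 c5432 c5436 c22952 c12663 c22985 c22986 (k8 c20218 c2973 c5531 c5528 c5414 c5582 c5212 c5570 (k8 c22966 c22489 c12617 c20787 c20807 c298 c20757 c22979 (k8 c664 c20802 c19356 c20101 c5435 c5434 c5318 c5317 (k8 c9731 c19427 c8199 c5332 c5517 c5334 c22814 c22967 (k8 c1058 c20237 c1175 c20831 c3060 c2074 c798 c10448 (k2 c3003 c10702 k0)))))))) (by decide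 +kernel)
def c22988 : PP 9 3 T 0x20000000000000000000000000040004000000000000000050000000000000000000000000000000000440000000000000000000000800 := rS 0xf3 (k2 c20781 c20243 k0) (by decide +kernel)
def c22989 : PP 9 3 T 0x20000100000000000000000100040004000200000000000010000000000000000000000000000064000048000000200000000000080000 := rS 0xde638ec180b35bdcf249f90e73a41409cc8e0f (k8 c21871 c2973 c19419 c937 c298 c19356 c5317 c5221 (k8 c5588 c22948 c503 c1174 c22988 c5645 c290 c2480 (k2 c19019 c2830 k0))) (by decide +kernel)
def c22990 : PP 9 3 T 0x4000000000000000100040000000000000100000000000000000000000000000000000000000000000000000040000000000000000000000000000000 := rS 0x8780bf4d7122487e94f554aae23b42219c3ad3209f10297311ef62438e848227313ed9e2000181c7b9d944ecda05 (k8 c21870 c22545 c22966 c5216 c19356 c5436 c5432 c22945 (k8 c5642 c19427 c5212 c5570 c19419 c22952 c12617 c22489 (k8 c20787 c22978 c20101 c16365 c20807 c937 c5670 c298 (k8 c20757 c22979 c664 c22985 c22986 c5411 c5413 c5531 (k8 c20218 c22989 c5517 c5334 c22987 c1058 c20237 c3066 (k2 c959 c20788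 k0)))))) (by decide +kernel)
def c22991 : PP 9 3 T 0x4000000000000000110040000000000000000000000000000000800000000000000000000000000000000000080000000000000000000000000000000 := rS 0x7818df3 (k4 c5547 c809 c5188 c5535 k0) (by decide +kernel)
def c22992 : PP 9 3 T 0x4000000000020000100040000000000000100000000000000000000000000000000000080000000000000000000000000000000000000000000000000 := rS 0x487c8d68ff09cce2b35aed8fa6f2f85c0003899fb3b2888c54da05 (k8 c21870 c22545 c5414 c5411 c5216 c19356 c22990 c22991 (k8 c22945 c5642 c5433 c1054 c2920 c95 c5212 c5422 (k8 c5574 c5571 c19419 c5535 c2487 c2483 c5188 c3604 (k1 c5589 k0)))) (by decide +kernel)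
def c22993 : PP 9 3 T 0x80000000000000020000100000000000000000100000004000200000400000000000000010000000000000000000082000400000000000000000000000004 := rS 0xd5e6d3f7c71ee0ca5a388c7338acd6bb619e75aa6f2f85c20131fc462af50038d22cd1d9b41e05 (k8 c21870 c21871 c22545 c1536 c20785 c5589 c5549 c5642 (k8 c20218 c5414 c5411 c5318 c2917 c12617 c5433 c1054 (k8 c2920 c20749 c19356 c5316 c5212 c5422 c5574 c5571 (k8 c19419 c22829 c3604 c5520 c2752 c20809 c22865 c5504 (k4 c2081 c22753 c553 c22882 k0))))) (by decide +kernel)
def c22994 : PP 9 3 T 0x100000000000000000000000000000200200400000050000400011000000000000000000080000000000000000400000000000000 := rS 0xd5e6d3f78cf3ad5 (k8 c20749 c19356 c5316 c5504 c2081 c22753 c553 c22882 k0) (by decide +kernel)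
def c22995 : PP 9 3 T 0x80000000000000020000100000000000000000100000004000200000400000000000000010000000000000000000082000000000000000000000000000004 := rS 0xe3c8cded57a37dd1da5bdc3c0c350ed9a7338ac55bb63797c2e10098fc42f50038c1e05 (k8 c21870 c21871 c5549 c5642 c20218 c5528 c5318 c2917 (k8 c12617 c5433 c1054 c2920 c5212 c5573 c5421 c5571 (k8 c19419 c20785 c1536 c22993 c1059 c1058 c20809 c5517 (k8 c22994 c22840 c702 c5584 c17711 c20922 c5657 c664 (k1 c333 k0))))) (by decide +kernel)
def c22996 : PP 9 3 T 0x80004000000000020000100040000000000000100000000000000000000000000000000000000000000000000000000000000000000000000000000000000 := rS 0x18f626af023cf291399c566b5db4ee27118ab458f9d3d9f5026f3f17c2f280000cda05 (k8 c21870 c22545 c22945 c5642 c5216 c5433 c1054 c22990 (k8 c2920 c194 c95 c22853 c19356 c22992 c20815 c5414 (k8 c5411 c22991 c22966 c5212 c5422 c5574 c5571 c19419 (k8 c5589 c22995 c2924 c5669 c3604 c7694 c1174 c16365 k0)))) (by decide +kernel)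
def c22997 : PP 9 3 T 0x1000000000000000000000000000004000000000000000050000000011000000000001100000000000088000000000545000141400004 := rS 0x1df1a9d838f1118012e05 (k8 c21870 c20807 c5642 c9731 c19427 c664 c777 c332 (k2 c5493 c20229 k0)) (by decide +kernel)
def c22998 : PP 9 3 T 0x4000000000020000100040000000000000100000000000000000000000000000000000000000000000000000000000000000000000000000000000000 := rS 0x11d80fbd5c6721988d7b346b3762f71d87d21e0a511fe6d163bd532214ec44327338ac56aaddb0cc72311bcecf67d409bcbe170000c92450804c7f133f6765005 (k8 c21870 c5216 c19356 c22990 c22991 c5318 c2917 c12617 (k8 c20747 c17689 c22945 c5642 c5433 c1054 c2920 c194 (k8 c95 c22853 c22966 c5435 c5434 c5317 c5316 c5212 (k8 c5573 c5422 c5421 c5571 c19419 c6205 c5411 c5412 (k8 c5528 c5530 c20218 c22992 c20815 c22996 c10418 c5221 (k8 c5188 c19538 c6300 c5332 c5333 c9578 c5537 c10035 (k8 c20841 c1058 c16365 c22797 c22997 c20793 c5584 c20839 (k2 c22880 c5658 k0)))))))) (by decide +kernel)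
def c22999 : PP 9 3 T 0x40004000000000000000100040000000000000100000000000000000000000000000000000000000080000000000000000000000000000000000000000000 := rS 0x23b01f7cec8afd886d487b33797c2e000804c7e8d4844cfd9d942b56271db00ce605 (k8 c21870 c19419 c22945 c5212 c5571 c5421 c5573 c5216 (k8 c19356 c22990 c22991 c19538 c10035 c5318 c2917 c12617 (k8 c5642 c5433 c1054 c2920 c20841 c22797 c22998 c17712 (k4 c20808 c20747 c22966 c5584 (k2 c3071 c22880 (k1 c5658 k0)))))) (by decide +kernel)
def c23000 : PP 9 3 T 0x40004000000000000000100040000000000000100000000000000000000000000000000010000000000000000000000000000000000000000000000000000 := rS 0x678d53293d818d2ded79aa10c1c332bf668d66a43c07338ac55bb6198e462373797c2e10098fe267e1dbddeb4a7ec436a0001e765005 (k8 c21870 c5216 c19356 c22945 c5642 c22998 c17712 c20808 (k8 c5211 c5519 c5333 c5332 c22990 c22991 c5318 c2917 (k8 c12617 c5433 c1054 c2920 c5435 c5434 c5317 c5316 (k8 c5212 c5573 c5421 c5571 c19419 c5188 c19538 c5537 (k8 c10035 c20841 c22999 c20922 c664 c882 c883 c334 (k8 c5499 c18458 c20807 c16365 c5444 c5447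 c331 c2450 (k1 c3587 k0))))))) (by decide +kernel)
def c23001 : PP 9 3 T 0x4000000000000000100040000000000000100000000000000000000000000000000010000000000000000000000000000000000000000000000000000 := rS 0xd7efb31e71cf7c0dc64bf91cf6c339db54de5f0b92420131fc4cfc3b7bbd48f4a7ec436a0001e765005 (k8 c21870 c5216 c19356 c22945 c5642 c22998 c17712 c20808 (k8 c5211 c5520 c5519 c5333 c5332 c22990 c22991 c5318 (k8 c2917 c12617 c17689 c5433 c1054 c2920 c20749 c22966 (k8 c5316 c5212 c19419 c23000 c5546 c5549 c5550 c22839 (k4 c22840 c22753 c22994 c17847 (k2 c2191 c5778 k0)))))) (by decide +kernel)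
def c23002 : PP 9 3 T 0x4000000000000000100040000000000000100000000000000000000000000000000000000000000000000000000000000000000000000000000000000 := rS 0xd8a5fc2d07ec436b9d940000605 (k8 c21870 c22945 c5642 c5216 c19356 c22998 c17712 c20808 (k4 c23001 c5459 c1709 c20863 (k1 c5235 k0))) (by decide +kernel)
def c23003 : PP 9 3 T 0x10000010040000000000000000000000000000000200001000000000020000000000000000000000000000000000000000000000000000 := rS 0x6c52fe1 (k4 c5459 c1709 c20863 c5235 k0) (by decide +kernel)
def c23004 : PP 9 3 T 0x8000000000082000100000000000000000000000000000000000000000000000000000000000000000000000000004000400000001000002000000000 := rS 0x207c (k2 c13779 c12972 (k1 c2747 k0)) (by decide +kernel)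
def c23005 : PP 9 3 T 0x40008000000000002000000000000000000000000000000000000000200004000000000000000000010000040800008000001400000000000000000000000 := rS 0x339dd0fecf798d9295 (k8 c5446 c5396 c5395 c22132 c20721 c5499 c889 c882 (k1 c20791 k0)) (by decide +kernel)
def c23006 : PP 9 3 T 0x8000000000092000100000000000000000000080000000200000600001001000000010000000000000000000000000000000000000000000000000002 := rS 0x9d875e4450decd2cff3d382030325c74868e091b848ad1fbdc92f51c8f7e63b23b7c82e33081cbe17 (k8 c5433 c1054 c5432 c661 c5466 c5462 c5580 c5520 (k8 c5332 c17862 c5436 c5317 c5519 c5334 c5333 c5576 (k8 c5573 c17815 c23004 c1061 c1272 c20787 c20813 c302 (k8 c20799 c20800 c17954 c2847 c3013 c23005 c5404 c1073 (k4 c2969 c3593 c18824 c5325 (k1 c19357 k0)))))) (by decide +kernel)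
def c23007 : PP 9 3 T 0x100000000000000000000005008000000000000000110000000100000014000000000140000000000000002 := rS 0x2bccfee8e8767673 (k8 c19419 c5325 c334 c555 c5658 c664 c5584 c20793 k0) (by decide +kernel)
def c23008 : PP 9 3 T 0x100000004000200100000000000000000040000000110000040100000014000000000050000004000020004 := rS 0x19d5e1df71cc0005 (k8 c21870 c5642 c19419 c22840 c22979 c5584 c664 c20922 k0) (by decide +kernel)
def c23009 : PP 9 3 T 0x14000000000000000000000100080004000200000000001000000000051000000110000040100000014000000000010000004000020004 := rS 0x3da1c1a86e38f11d8ddea331c8c48673 (k8 c19419 c22797 c5434 c5317 c5316 c5519 c5518 c5332 (k4 c19427 c23008 c2161 c552 (k2 c5649 c18037 (k1 c18458 k0)))) (by decide +kernel)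
def c23010 : PP 9 3 T 0x10000110040000000000000100000000000200000000001000000000000000000000000000000000000000000000000000000000000000 := rS 0x4015d0333b3bdbef2d8d674f321bfd1a45d9a40204a66a74de97f018b62311c8cce2b34f89d62addb3c482e350b4fc49b1dbdc6ef5a544ce6d1880000605 (k8 c21870 c22945 c5642 c17712 c23003 c19419 c955 c5211 (k8 c5519 c5518 c5333 c5332 c8100 c23002 c5579 c5578 (k8 c5466 c5462 c19427 c5212 c5573 c5421 c5570 c5572 (k8 c5574 c5571 c5316 c5317 c5434 c23006 c16365 c5235 (k8 c20807 c1175 c5458 c5537 c15026 c12663 c13156 c19429 (k8 c20747 c10035 c20750 c22797 c23007 c23009 c5324 c5474 (k8 c6923 c17385 c3587 c663 c2633 c20793 c9182 c3071 k0))))))) (by decide +kernel)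
def c23011 : PP 9 3 T 0xa000000000082000100000000000000000000000000000000000200000000000000000000000000000002000000004000000000000000000000000000 := rS 0x3e97dc29d (k4 c5458 c5460 c1267 c3040 (k1 c13779 k0)) (by decide +kernel)
def c23012 : PP 9 3 T 0x14000110040000000000000100000008000000000000001000000000000000000000000002000000004000000000000000000000020000 := rS 0x32038e59a78f0b3d56ff1dbdc6ef568b1cc7104c8d5e6313da3c8f4ad84a7c4ae469c55ab1db19cb600019ccae05 (k8 c21870 c21872 c19419 c22945 c5642 c5474 c663 c5212 (k8 c5421 c5573 c5571 c701 c20793 c23002 c23010 c5209 (k8 c5211 c5520 c2751 c22676 c5476 c5325 c5324 c5447 (k8 c17712 c19420 c796 c23003 c5519 c5518 c5333 c5332 (k8 c20750 c1287 c13265 c23011 c5669 c20785 c2382 c1454 (k2 c3587 c20297 k0)))))) (by decide +kernel)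
def c23013 : PP 9 3 T 0x14000110040000000000000100000008000000000000001000000000000000000000000000000000004000000000000000000000020000 := rS 0x4eb862bf248a3ce2b34fb2d62b556ed9c6a16ff893647a544ce6c731c4000034cec25205 (k8 c21870 c23010 c5209 c5447 c22945 c5642 c17712 c19420 (k8 c796 c19419 c955 c5211 c5520 c8100 c23002 c5580 (k8 c5578 c5466 c5212 c5573 c5422 c5421 c5420 c5572 (k8 c5574 c5571 c2751 c23012 c5675 c5590 c5591 c22668 (k1 c3620 k0))))) (by decide +kernel)
def c23014 : PP 9 3 T 0x14000110040000000000000100000008000000000000001000000000000000000000000000000000004000000000000000000000000000 := rS 0x11ff38a2b83aaa54fb5fd0181a444a4b8e84452b3db3dc92f523d2a27100000ce64322bccb605 (k8 c21870 c5474 c5325 c5326 c5478 c19419 c22945 c5642 (k8 c17712 c955 c5211 c5520 c5519 c5334 c5333 c5212 (k8 c5574 c8199 c23013 c22489 c12663 c12972 c21230 c21406 (k8 c19568 c3593 c5544 c2452 c5682 c2121 c17885 c1286 (k2 c5590 c2844 (k1 c5675 k0)))))) (by decide +kernel)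
def c23015 : PP 9 3 T 0x10000110040000000000000100000008000000000000001000000000000000000000000000000000004000000000000000000000000000 := rS 0x7765b6 (k4 c5212 c23014 c5486 c22273 k0) (by decide +kernel)
def c23016 : PP 9 3 T 0x800000000008a000010040000000000000100000004000000000000010000000000010040000000000000800000004000000000000000000040000000 := rS 0x330f1edf09ed9f1581a652fdf (k8 c6601 c5404 c5447 c20799 c2844 c7080 c22872 c6706 (k4 c11235 c5669 c5688 c20785 k0)) (by decide +kernel)
def c23017 : PP 9 3 T 0xa000110040000000000000100000004000000000400000000000000010040000000000000000000004000000000000000000040000000 := rS 0x198783db3fdbe18afc91f0148f7d2e7159ac76de2 (k8 c23002 c5212 c5421 c5574 c5571 c5404 c6601 c20841 (k8 c19568 c23016 c5675 c5590 c7694 c17760 c7080 c22872 (k2 c5669 c5688 (k1 c20785 k0)))) (by decide +kernel)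
def c23018 : PP 9 3 T 0x80000000000000010000110040000000000000100000000000000000000001000000000000000000000000000000000004000000004000000000000000000 := rS 0x19e3579c73de10188f066081cb340e5e3c270f7e170c55669f65ad76c41718fd42dff107d363b7b9246ef523d2a267368b1cc7100000d33b094cecae05 (k8 c21870 c21872 c23015 c23010 c5209 c5447 c22945 c5642 (k8 c17712 c19420 c796 c23003 c19419 c955 c5211 c5520 (k8 c5519 c5518 c5334 c5333 c5332 c8100 c9664 c23002 (k8 c5580 c5578 c5576 c5466 c5462 c5212 c5422 c5420 (k8 c5572 c5574 c5590 c5591 c7694 c22872 c3620 c5669 (k8 c1537 c4138 c20785 c2382 c1055 c20297 c17954 c20764 (k4 c1513 c22839 c22840 c22753 (k2 c17740 c20518 (k1 c3587 k0))))))))) (by decide +kernel)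
def c23019 : PP 9 3 T 0x10000110040000000000000100000000000000000000001000000000000000000000000001000000004000000000000000000000000000 := rS 0x1e01c72787084bc27b08c551df325ed882e31fb7fc41f1b91e951339b1cc7100000d33b094cecae05 (k8 c21870 c21872 c23015 c23010 c5209 c5447 c22945 c5642 (k8 c17712 c19420 c796 c19419 c955 c5211 c5520 c5518 (k8 c9664 c23002 c5580 c5576 c5466 c5462 c5212 c13156 (k8 c23018 c5675 c2844 c2751 c22872 c6706 c12617 c2847 (k4 c5669 c2382 c1454 c17954 (k1 c2807 k0)))))) (by decide +kernel)
def c23020 : PP 9 3 T 0x4000100000000000054000000011000000000000000000000000000000000000555000000000000 := rS 0xcf (k2 c20518 c3587 k0) (by decide +kernel)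
def c23021 : PP 9 3 T 0x10000110040000000000000100000000000000000000001000000000000000000000000000000000004000000000000000000000000000 := rS 0x2bccfee0e8d062330401c72cd799e0867b22843c2137fa351e90d9cece2b156ed883e20f8edee491bbd6951339b458e63880000693d84a4ae05 (k8 c21870 c21872 c23010 c5209 c5444 c22945 c5642 c17712 (k8 c19420 c796 c23003 c19419 c955 c5211 c5519 c5518 (k8 c5334 c5333 c5332 c9664 c23002 c5462 c5212 c5573 (k8 c5421 c5571 c23015 c23017 c23019 c165 c10035 c20750 (k8 c3036 c23011 c12617 c20747 c22676 c22797 c5669 c23007 (k8 c20785 c2382 c1454 c5643 c20297 c20764 c23020 c331 (k4 c5281 c664 c5584 c20793 k0))))))) (by decide +kernel)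
def c23022 : PP 9 3 T 0x8000000000000000000000000000000000000080000000000000000000000000000000000000000000001000002000000000004000000000000080000 := rS 0x7ae1038e482e31fb7c6e57 (k8 c21872 c5518 c5580 c5576 c5466 c5462 c2382 c1454 (k2 c1542 c2807 (k1 c17954 k0))) (by decide +kernel)
def c23023 : PP 9 3 T 0x8000000000000000010040000000000000000000000000100000000000000000000000000000000000000800000000000000005400540000000080040 := rS 0x3847a7b20b8c7edf (k8 c5580 c5576 c5466 c5462 c17741 c2807 c2847 c3590 k0) (by decide +kernel)
def c23024 : PP 9 3 T 0x8000000000000000010040000000000000100000004000100100000050051000000000000000010000000000000000000000005540010000000000000 := rS 0x6696797b9ffb0 (k4 c5209 c11059 c5658 c3593 (k2 c22132 c22615 (k1 c20460 k0))) (by decide +kernel)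
def c23025 : PP 9 3 T 0x8000000000000000010040000000000000100000004000100100000050051000000000000000010000000000000000000400005440000004000000082 := rS 0x12e77338cc3a441a8fd2bb0 (k8 c5209 c5446 c5576 c20806 c23024 c335 c389 c664 (k2 c673 c20460 (k1 c20857 k0))) (by decide +kernel)
def c23026 : PP 9 3 T 0x8000000000000000010040000000000000000000000000100000000000000000000000040000000000000800000000000000005400440000000080040 := rS 0xe01057 (k4 c21872 c5643 c23023 c274 k0) (by decide +kernel)
def c23027 : PP 9 3 T 0x10000110040000000000000100000000000000000000001000000000000000000000000000000000000000000000000000000000000000 := rS 0x12ca9f69dccefe2dbcc8b3a0317cf3018192e3a4348a38246e4a98592c7d818e531323bd46e497b8ecd710a507ce6b313ab76cf10000fc405 (k8 c21870 c23002 c22945 c5642 c19427 c5212 c5573 c5570 (k8 c5574 c19419 c9664 c5211 c17712 c1058 c5332 c5333 (k8 c5334 c5518 c5519 c5520 c955 c23010 c19420 c5209 (k8 c796 c5396 c5445 c5446 c23021 c1061 c1272 c3039 (k8 c20787 c20813 c302 c20799 c20800 c23022 c1268 c23026 (k8 c23025 c5326 c5325 c5474 c3593 c663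 c672 c5544 (k2 c2452 c20791 (k1 c19779 k0)))))))) (by decide +kernel)
def c23028 : PP 9 3 T 0x110040000000000000100000000000000000000001000000000000000000000000000000000000000000000000000000000000080 := rS 0x96681dccefe2dbcc8b3a81a3a024325a463a1208c4c92f7239e92a6164b8295f3d817cc7296589d6aaddb3c502e3f12762af5da0000605 (k8 c21870 c22945 c5642 c23027 c20218 c5414 c5412 c23002 (k8 c5466 c5463 c19427 c5212 c5573 c5422 c5570 c5420 (k8 c5432 c9751 c1451 c5209 c13608 c17886 c9176 c5396 (k8 c5445 c5446 c20168 c10418 c5333 c5334 c956 c22680 (k8 c12617 c22489 c9924 c12663 c20787 c19568 c5675 c20799 (k8 c23025 c5326 c5325 c5474 c3593 c663 c672 c3013 (k2 c20791 c1709 k0))))))) (by decide +kernel)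
def c23029 : PP 9 3 T 0x20000110040000000000000100080000000000000400000000000000000000000000000000000000000000000000000000000000080040 := rS 0x11c7b707ce53b031a44dc2959b2d6bb61180006e350b7fc49d8a8842205 (k8 c21870 c36 c5528 c5414 c5412 c23002 c5580 c5578 (k8 c5466 c22945 c5642 c9731 c5212 c5422 c5420 c5574 (k8 c8199 c22814 c9924 c1175 c16365 c9578 c17766 c6118 (k2 c17741 c5675 (k1 c2847 k0))))) (by decide +kernel)
def c23030 : PP 9 3 T 0x20000110040000000000000100000000000000000400000000000000000000000000000000000000000000000000000000000000080040 := rS 0x23cde6b63188f679489276328f952ce67159ad40003209fd42df88f862be2db264da05 (k8 c21870 c22545 c5530 c5212 c23002 c5414 c6706 c5411 (k8 c5580 c5578 c5577 c5462 c22945 c5642 c5422 c5574 (k8 c5571 c19419 c23029 c5221 c5215 c22550 c5588 c5589 (k8 c22948 c20101 c16365 c5669 c1174 c1175 c2486 c3604 k0)))) (by decide +kernel)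
def c23031 : PP 9 3 T 0x80000000000000020000010000000000000000000000000000200000400000000000440000000001400000000400004054000000000010000000000020004 := rS 0x3a0611c166a002441e05 (k8 c21870 c21871 c5589 c5642 c18007 c19894 c5779 c1059 (k2 c17862 c290 k0)) (by decide +kernel)
def c23032 : PP 9 3 T 0x110040000000000000100040000000000000400001000000000000000000000000000000000000000000000000040000000000000 := rS 0x11d9d8d1e61e3533476f73c344184663a399e7d4d1ec7a311cb876328f91cce2b34fb2d6a4171a85be9d7af862be2db26466103784c0fb40000c0a57 (k8 c21872 c21870 c22945 c5642 c23027 c23028 c23030 c1061 (k8 c12617 c20297 c5530 c5212 c23002 c5414 c6706 c20218 (k8 c5412 c5580 c5578 c5466 c5462 c5422 c5420 c5572 (k8 c5574 c5571 c19419 c5221 c5215 c22550 c5591 c5317 (k8 c5434 c5436 c20101 c3620 c2747 c2562 c23031 c2487 (k8 c2751 c2752 c20815 c5669 c20809 c290 c20785 c2383 (k4 c1058 c2532 c3587 c5324 (k2 c552 c22865 k0)))))))) (by decide +kernel)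
def c23033 : PP 9 3 T 0x40001000000000000000010040000000000000100080000000200001500000000000440000440001400015100000000004400000000000000000100020000 := rS 0x136e13c1f4f63d (k4 c5436 c22790 c2747 c5669 (k2 c10249 c2383 (k1 c3620 k0))) (by decide +kernel)
def c23034 : PP 9 3 T 0x110040000000000000100000000000000000400001000000000000000000000000000000000000000000000000040000000000000 := rS 0x15e678016d9d3a1ab37be3c3c34472313e1ec10e0d84a5e643d9bfd1a90f9a3cd6c723bdc3e3ba5114de10099cce2b34fb2d62b556b8d42df88a7442f50000fc315f16d933b41981cae05 (k8 c21870 c21872 c23028 c20297 c23027 c5530 c5212 c23002 (k8 c5414 c6706 c22945 c5642 c20218 c5528 c5412 c5411 (k8 c5580 c5578 c5466 c5573 c5422 c5421 c5420 c5572 (k8 c5574 c5571 c19419 c23030 c12617 c1061 c20747 c23032 (k8 c5332 c5517 c5333 c5520 c22665 c1058 c2751 c22829 (k8 c18007 c10035 c20750 c20841 c22797 c23007 c23033 c5209 (k8 c9176 c5643 c17741 c10249 c20764 c274 c20815 c5669 (k8 c2747 c13565 c20785 c1624 c5653 c3587 c5474 c1653 (k2 c663 c20839 (k1 c20793 k0)))))))))) (by decide +kernel)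
def c23035 : PP 9 3 T 0x8000000000000000000000000000000000000000008000000100900001000000000004000000005000000000000000000000000001004000040000002 := rS 0x10143350b66d (k4 c22545 c5474 c13617 c20862 (k2 c3073 c959 k0)) (by decide +kernel)
def c23036 : PP 9 3 T 0x40008000000000022000000000000000000000000000004000100100000005000000000000000000000000000000000000000000001041015000000000000 := rS 0x22341abde20b5c7ed3 (k8 c5579 c5576 c5465 c5462 c5653 c21481 c13565 c3588 (k1 c22917 k0)) (by decide +kernel)
def c23037 : PP 9 3 T 0x40008000000000020000000040000000000000000000004000100100000005000000000000080000000000000000000000400000001041400000000000042 := rS 0x19d0e1d688d06293046c222ab548ccda57 (k8 c21872 c22545 c20297 c5531 c5413 c5411 c5209 c5643 (k8 c5444 c20764 c23036 c1704 c331 c799 c664 c20788 k0)) (by decide +kernel)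
def c23038 : PP 9 3 T 0x110040000000000000100000000000000000800001000000000000000000000000000000000000000000000000000000000000000 := rS 0xde4b310376239944ec7a438e84822cf059243e3b63528f27b35bffe6295989d6a230000d02e350c453aab10aa7c315f16d933b41981cae05 (k8 c21870 c21872 c23028 c20297 c23027 c5530 c5212 c23002 (k8 c5414 c6706 c5531 c5528 c5413 c5412 c5411 c5578 (k8 c5466 c5463 c22945 c5642 c9731 c5422 c5570 c5574 (k8 c8199 c5547 c20798 c2600 c956 c2602 c5221 c5669 (k8 c5332 c5517 c5334 c5516 c20739 c22665 c12633 c22489 (k8 c20787 c2807 c23035 c23037 c5317 c18438 c2480 c16365 (k2 c12638 c1175 (k1 c22867 k0)))))))) (by decide +kernel)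
def c23039 : PP 9 3 T 0x110040000000000000100000000000000000000001000000000000000000000000000000000000000000000000000000000000000 := rS 0x297291b44f68cb5aed9c7e2 (k8 c23002 c5466 c5212 c5422 c5420 c23027 c23038 c23034 (k2 c5435 c5518 (k1 c17886 k0))) (by decide +kernel)
def c23040 : PP 9 3 T 0x22000100000000000000000100040000000000000400000000000040000000000000010001400000000400000000000000000000001004 := rS 0x23847e66e399c566cb5aed80005 (k8 c21870 c5642 c5212 c5422 c5420 c5574 c5571 c19419 (k4 c18007 c17766 c2746 c12661 (k1 c18580 k0))) (by decide +kernel)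
def c23041 : PP 9 3 T 0x40000000000000010000020000000000000000100040000000000000400000000000000000000001400000000000000010000000004400000004000000002 := rS 0x450906f3988e2291069ad1e6d (k8 c22545 c5526 c5523 c5522 c5374 c5371 c9731 c19419 (k4 c18580 c5660 c3604 c17759 k0)) (by decide +kernel)
def c23042 : PP 9 3 T 0x2000000000000000000000000000000000000000000000000000000000000000000000000000000000000000000202000004000000082 := rS 0x601d (k2 c335 c2971 (k1 c20134 k0)) (by decide +kernel)
def c23043 : PP 9 3 T 0x4001000000000000000020040000000000000100040000000000100000000000000000000000000000000000000020000000000000040000004200000002 := rS 0x25cee677b3d4b73a228f00c5f048e0760b06a4d92614a8df6063949e4f7113583cae6d (k8 c22545 c21872 c21871 c5523 c5371 c5372 c5524 c19356 (k8 c19420 c5209 c20063 c5446 c5445 c5396 c5444 c5522 (k8 c2416 c340 c5654 c273 c1055 c5643 c1456 c23042 (k8 c5658 c5474 c5477 c20053 c663 c672 c8190 c20791 k0)))) (by decide +kernel)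
def c23044 : PP 9 3 T 0x80000000000000010000100000000000000000000000008000000100000001000000000000000000000000000000000000000000000400000002080000000 := rS 0xf6ecdea1b (k4 c5475 c5477 c13900 c17748 (k1 c19192 k0)) (by decide +kernel)
def c23045 : PP 9 3 T 0x84000000000000010000100000000000000000100000000000000100100001000000000000000000000000000004000008400000000440000000080000002 := rS 0x1561d571127627db454486d (k8 c22545 c1060 c5590 c5212 c5570 c23044 c5658 c18671 (k2 c335 c1286 (k1 c20866 k0))) (by decide +kernel)
def c23046 : PP 9 3 T 0x100040000000000000100040000000000000400001000000000000000000000000000000000000000000000000000000000010000 := rS 0xe09630e0fa3b058803fe1377bdc3f22191c971d091cce2b313ad76c2340a1d263731800f27b88ed76129479ac1a91ce37d43e20195cda05 (k8 c21870 c22545 c21872 c22945 c23002 c5578 c5580 c23039 (k8 c5374 c5522 c5523 c5526 c19356 c5209 c23040 c5371 (k8 c5372 c5524 c5642 c19420 c20063 c5444 c5373 c5463 (k8 c9731 c5212 c5422 c5570 c5574 c5571 c19419 c12617 (k8 c22489 c12663 c13598 c20787 c23041 c5591 c18955 c17922 (k8 c7694 c23045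 c5650 c2416 c340 c23043 c5654 c17854 (k2 c273 c674 (k1 c5643 k0)))))))) (by decide +kernel)
def c23047 : PP 9 3 T 0x8000000000090000020000000000000000100040000000000100000000000000000000100000000000000000000000000000008000000000000020004 := rS 0xf64edea43d9bdd1ab156fccde73058803e6b59ad4e2230003cda05 (k8 c21870 c22545 c21871 c5642 c9731 c5571 c5422 c5574 (k8 c5523 c17974 c5650 c2416 c19419 c2746 c17922 c5573 (k8 c5421 c702 c564 c18613 c22797 c2595 c20053 c22925 (k1 c18803 k0)))) (by decide +kernel)
def c23048 : PP 9 3 T 0x20040000000000000000040004000000000000000000000000000000000000000000000000000000000000000451000000000040 := rS 0x1e1668e7bc08198365257 (k8 c21872 c19356 c5522 c20297 c5643 c5653 c273 c5495 (k2 c22337 c5654 k0)) (by decide +kernel)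
def c23049 : PP 9 3 T 0x400000000004000000100050005000000004000000001020084 := rS 0x3e17c266f (k4 c2746 c36 c1451 c22861 (k1 c1457 k0)) (by decide +kernel)
def c23050 : PP 9 3 T 0x100040000000000000100040000000000000400001000000000000000000000000000000000000000000000000000000000000000 := rS 0x574011a67f696e74071a8c7df1c1d82c94208a07c926f086d4327338acd3ecb58ad55bb61190502d71fa85bfe2488351e93649846fb031ca400033c9ee226bce03cda05 (k8 c21870 c22545 c21871 c23039 c5523 c5371 c5372 c5524 (k8 c22945 c5642 c19356 c19420 c5209 c20063 c5445 c5396 (k8 c5444 c5526 c5522 c5374 c23002 c5580 c5578 c5576 (k8 c5465 c5463 c5462 c9731 c5212 c5573 c5422 c5421 (k8 c5420 c5572 c5574 c5571 c19419 c6205 c23040 c23046 (k8 c2746 c3026 c17974 c3604 c5650 c6578 c2416 c340 (k8 c23047 c5504 c2163 c552 c23049 c23048 c5474 c20838 (k4 c663 c701 c18403 c20922 (k1 c3071 k0))))))))) (by decide +kernel)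
def c23051 : PP 9 3 T 0x4000020000000000000000000080000000000000400001000000000000000001480000010000000050000000000000155000000020004 := rS 0x54fb4ccd02d3cc39b50d9bc8af1489ad1e3b7bbd59ecdef4ee526d (k8 c22545 c19356 c18477 c5653 c5495 c20518 c5519 c5333 (k8 c5332 c5526 c5523 c5374 c19427 c20747 c2746 c1078 (k8 c18007 c5649 c334 c20814 c3587 c1994 c5501 c2024 (k1 c5830 k0)))) (by decide +kernel)
def c23052 : PP 9 3 T 0x8000000000002000120000000000000000100080000000000000400001000000000000000000000000000000000000000000000000014000000000204 := rS 0x2a1561a33bffe61d701107a4b8e8460243576cdabefef25ce6715989d62b556ed9e241718fdbe874a8dcc729001e4f71135bd676311c834da05 (k8 c21870 c22545 c5522 c273 c20764 c18477 c5519 c5523 (k8 c5371 c5372 c5524 c5642 c19356 c19420 c20063 c5446 (k8 c5373 c5580 c5576 c5466 c5462 c19427 c5212 c5573 (k8 c5422 c5421 c5570 c5574 c5571 c19419 c20460 c5653 (k8 c22132 c5454 c6601 c19336 c2777 c3071 c23051 c22489 (k8 c12663 c1513 c5658 c17954 c335 c5591 c3012 c664 (k4 c5649 c6368 c20788 c1906 k0))))))) (by decide +kernel)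
def c23053 : PP 9 3 T 0x4000000000100005011000000000000000080000000004000000440000000000000000010000000 := rS 0xa80d2af666d (k4 c22545 c5406 c1287 c5649 (k2 c20788 c1906 k0)) (by decide +kernel)
def c23054 : PP 9 3 T 0x400000000000000020000000000000000100080000000000100000001000000200010100000100000000000000000040000000001000000008000000 := rS 0x3559c4566c0d54a9f6c450e6b24bd677f3f0bfcda05 (k8 c21870 c22545 c3013 c5460 c5591 c18477 c5519 c5334 (k8 c5523 c5373 c5371 c18807 c1906 c20788 c2199 c2075 (k4 c9612 c5688 c18677 c1652 k0))) (by decide +kernel)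
def c23055 : PP 9 3 T 0x2000120000000000000000100080000000000000400001001000440000000000000000000000000000040000000014020000001010200 := rS 0x22a5c48170db80863d2584962addb4a5933b1c837bed11dc743a93 (k8 c5444 c331 c552 c5332 c1704 c5450 c5522 c273 (k8 c18477 c5396 c19356 c5212 c5573 c5421 c12617 c12663 (k8 c1513 c20787 c17954 c23054 c1620 c22255 c19357 c2969 (k1 c15123 k0)))) (by decide +kernel)
def c23056 : PP 9 3 T 0x100040000000000000100000000000000000400001000000000000000000000000000000000000000000000000000000000000040 := rS 0xae46fb8de10338763a34040cc327338ac55bb6788000641718fdbfe249ec2533ba5670ae05 (k8 c21870 c21872 c23039 c23050 c18477 c19356 c5209 c5444 (k8 c23002 c5580 c5576 c5466 c5462 c22945 c5642 c19427 (k8 c5212 c5573 c5421 c5571 c19419 c6205 c20297 c5643 (k8 c23052 c552 c331 c664 c23055 c2746 c22840 c702 (k2 c20922 c5584 k0))))) (by decide +kernel)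
def c23057 : PP 9 3 T 0x4000100000000000001000000000100000000000010000000000041400000000004000000000080 := rS 0x4b9dcc635 (k4 c20806 c19420 c673 c20460 (k1 c20791 k0)) (by decide +kernel)
def c23058 : PP 9 3 T 0x90000000000000000000000100000004000000100000001051000000040100000000010000000000000000000005444008000000000000 := rS 0xeecdff03f711436ad (k8 c5573 c2043 c389 c5658 c16948 c11059 c11200 c18824 (k1 c5649 k0)) (by decide +kernel)
def c23059 : PP 9 3 T 0x100040000000000000100000000000000000400001000000000000000000000000000000000000000000000000000000000000000 := rS 0xa9f6999a0332192e3a1208b1f6a5f034ec8ef505925ef4a0c9cce29f65ed9e20001a047ea169f88f663649852bb094e70da05 (k8 c21870 c22545 c23039 c19356 c5209 c5446 c5445 c5396 (k8 c19420 c5372 c23002 c5579 c5578 c5576 c5463 c22945 (k8 c5642 c19427 c5212 c5420 c5572 c5571 c19419 c6205 (k8 c23050 c5333 c5334 c5516 c5519 c5520 c18477 c23056 (k8 c1451 c20168 c674 c23049 c12617 c22489 c12663 c20787 (k4 c23058 c22918 c23057 c5501 (k2 c2024 c5830 k0))))))) (by decide +kernel)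
def c23060 : PP 9 3 T 0x100040000000000000100080000000000000000001000000000000000000000000000000000000080000000000000000000000000 := rS 0x67785c0328ab3553b44b3555fed8040fdc3579915561cd99cc4eb556ed9e20001a04fed3f121cf28f49a67612923bfdee497acee3a4b0883738430902e2405 (k8 c21870 c23059 c5516 c12633 c20787 c23039 c5522 c703 (k8 c12638 c22489 c18477 c5519 c5334 c5333 c20798 c12623 (k8 c19356 c5209 c5447 c5444 c5526 c5524 c5373 c23002 (k8 c5579 c5577 c5463 c22945 c5642 c19427 c5212 c5573 (k8 c5422 c5570 c19419 c5487 c664 c2123 c335 c334 (k8 c331 c5658 c16948 c17988 c17892 c5584 c5585 c22132 (k8 c18824 c2026 c2077 c21637 c20460 c20412 c6706 c12046 (k1 c1652 k0)))))))) (by decide +kernel)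
def c23061 : PP 9 3 T 0x82000000040000000000000100080004000000100000001001000000040000000000010000000004000004000004444008000000000002 := rS 0x5fda01812c97b925ea57 (k8 c21872 c5519 c5334 c5333 c5396 c20738 c20297 c23058 (k2 c1055 c20168 k0)) (by decide +kernel)
def c23062 : PP 9 3 T 0x20000020000000000000000000000000000000000000001000000000000000000000000000000000000040000000000000000000000000 := rS 0x15287 (k2 c5373 c5531 (k1 c20900 k0)) (by decide +kernel)
def c23063 : PP 9 3 T 0x40008000000000002000020000000000000000100080000000000100000005001000000000000000111000000000000000040000004040004000000000000 := rS 0x700f59c344b357dc4566c0d55ed20b8da6df88a1cd72964926766d (k8 c22545 c18477 c5334 c5396 c19356 c5523 c5373 c5371 (k8 c5580 c5579 c5466 c5462 c20915 c20788 c2199 c2075 (k8 c9612 c5658 c5585 c22132 c20460 c1285 c1624 c21501 (k1 c1652 k0)))) (by decide +kernel)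
def c23064 : PP 9 3 T 0x100040000000000000100080000000000000000001000000000000000000000000000000000000000000000000000000000000000 := rS 0x1c2d06de7b3540ccce4325c7424119dbd416b156ed9e200018fd42d3f11ec1a63d84a739f323bfe2405 (k8 c21870 c23059 c20798 c12623 c5547 c23039 c19356 c5209 (k8 c19420 c5522 c5372 c23002 c5579 c5578 c5576 c22945 (k8 c5642 c19427 c5212 c5573 c5421 c5516 c5519 c18477 (k8 c703 c12633 c22489 c12638 c20787 c23060 c23061 c23063 (k4 c5489 c2447 c1906 c20814 (k2 c5649 c1994 k0)))))) (by decide +kernel)
def c23065 : PP 9 3 T 0x42000000000000000000120000000000000000100040004000000100000001000000000000000000004000000000000000040000000400000000000000004 := rS 0xf07442442412c222711c450e6b378036bef06ed8da05 (k8 c21870 c22545 c5212 c5522 c22356 c23062 c5642 c18580 (k8 c5523 c5373 c5371 c9731 c5570 c22840 c12638 c5660 (k4 c22927 c344 c335 c5650 (k1 c20866 k0)))) (by decide +kernel)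
def c23066 : PP 9 3 T 0x10000100000000000000000000040000000000200800000000000000000000001000000000000000000000000000000000000400000000 := rS 0x40926d (k4 c22545 c19116 c22489 c13295 k0) (by decide +kernel)
def c23067 : PP 9 3 T 0x40008000000000000000120000000000000000100040004000000100000001000000000000100000004000000000000000040000000400000000000000004 := rS 0x7b36db5 (k4 c23062 c5212 c22925 c23065 k0) (by decide +kernel)
def c23068 : PP 9 3 T 0x40008000000000000000120000000000000000100040000000000100000001000000000000100000002000000000000000040000000400000000000000004 := rS 0x400a0fbd4b73a7bbcd56f1118010e0dda9b41e05 (k8 c21870 c21871 c22545 c23062 c5522 c5373 c5642 c9731 (k8 c19427 c169 c2447 c2021 c23067 c5474 c5477 c2319 (k2 c20774 c5650 (k1 c2416 k0)))) (by decide +kernel)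
def c23069 : PP 9 3 T 0x8000000000000000120000000000000000100040000000000000800001000000000000100000000000000000000000040000000000000000000000004 := rS 0x1190057aa9531df7ed562b5db08c011143834d7f323bfcda05 (k8 c21870 c22545 c20798 c12623 c5547 c5523 c5522 c5373 (k8 c5371 c5642 c9731 c5212 c5422 c5421 c23062 c22356 (k4 c23066 c23068 c20788 c1287 (k2 c6368 c22357 (k1 c2141 k0))))) (by decide +kernel)
def c23070 : PP 9 3 T 0x8000000000000000000100040000000000000100000000000000000000001000000000000000000000000000000000000000000000000000000000000000 := rS 0x924b106d4221ff6019ea324b064e6714fb2c4eaddb3c446811f834c237319e4f71135fcc8f3b7b9690ef31a870cd4b89327c40001a4f6129ce1b4ae05 (k8 c21870 c21872 c22545 c23039 c19356 c5209 c5444 c22945 (k8 c5642 c23002 c5396 c23059 c23064 c23069 c664 c331 (k8 c334 c5373 c663 c2101 c5474 c12623 c5547 c5523 (k8 c5371 c5372 c5524 c19420 c20063 c5445 c5522 c5576 (k8 c5463 c9731 c19427 c5212 c5573 c5570 c5420 c5572 (k8 c5571 c19419 c6205 c22132 c20460 c2046 c20297 c5657 (k4 c17918 c23049 c17711 c5650 (k2 c12638 c344 (k1 c5660 k0)))))))))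 (by decide +kernel)
def c23071 : PP 9 3 T 0x100040000000000000100000000000000000000001000000000000000000000000000000000000000000000000000000000000000 := rS 0x760725040931cf78d48b3b1890c385a0decccd4b23fce24374a9859293d818e5279359ee239c0c9cce29f6589d5bb6788000641408ffc405 (k8 c21870 c23002 c5576 c5463 c5462 c22945 c5642 c19427 (k8 c5212 c5573 c5570 c5420 c5572 c5571 c19419 c6205 (k8 c23039 c5371 c5372 c5523 c5524 c19356 c19420 c5209 (k8 c5444 c5396 c5445 c5446 c20063 c23059 c5547 c12623 (k8 c23064 c23069 c5487 c1903 c663 c664 c10701 c9332 (k8 c5474 c335 c331 c23070 c5658 c19116 c22489 c5660 (k2 c23049 c562 (k1 c23048 k0)))))))) (by decide +kernel)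
def c23072 : PP 9 3 T 0x40000000000000000000100000000000000000100040000000000200000002001000000000000000000000000000000000000000000400000000000000002 := rS 0x2be2a67806d0b6f32507e759c399c562adf6c0d6bb6f7924de13 (k8 c20813 c1061 c19116 c5504 c5212 c5422 c2631 c5542 (k8 c5573 c5421 c5571 c19419 c5221 c5171 c6300 c5660 (k8 c5325 c5474 c13351 c9182 c663 c5414 c3070 c19290 k0))) (by decide +kernel)
def c23073 : PP 9 3 T 0x100040000000000000100040000000000200000000000000000000000000000000000000000000000000000400000000000000000 := rS 0xecf728066c7686acec552313f923ce67159ad76cf120b7fc5117e040de130000cda05 (k8 c21870 c22545 c22945 c5642 c20813 c1061 c22489 c23071 (k8 c20808 c23002 c5580 c5462 c19427 c5212 c5422 c5574 (k8 c5571 c19419 c2751 c23072 c5547 c5589 c5590 c17922 (k8 c3604 c17712 c22550 c1059 c13608 c20101 c290 c19019 k0)))) (by decide +kernel)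
def c23074 : PP 9 3 T 0x80000000000000000000100040000000000000100040000000000200000000000000000000000000000000000000000000000000000000000000000000000 := rS 0x8c2dabccf3a6477c76f7688318e7d4b9851c3df0988f7284cec7699d399c566b15aab76c4171a85bfe2f6ecd53117abf1e2103784e27151180006f32310cda05 (k8 c21870 c22545 c189 c23073 c2537 c22945 c5642 c9731 (k8 c2787 c12623 c20813 c1061 c22489 c19427 c23071 c2338 (k8 c20808 c135 c5405 c5542 c23002 c5580 c5578 c5466 (k8 c5462 c5212 c5573 c5422 c5421 c5574 c5571 c19419 (k8 c17922 c17712 c22550 c5530 c13608 c20101 c16365 c6706 (k8 c5436 c23031 c90 c20807 c2747 c2487 c2752 c20815 (k8 c20809 c290 c17847 c18871 c5657 c2064 c1182 c5474 (k2 c20922 c701 k0)))))))) (by decide +kernel)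
def c23075 : PP 9 3 T 0x100040000000000000100040000000000200000000000000000000000000000000000000000000000000000000000000000000000 := rS 0x339f38a92e264637924262939acf6c230000cda05 (k8 c21870 c22545 c22945 c5642 c9731 c5212 c5574 c19419 (k8 c8199 c20813 c19116 c1061 c23073 c12623 c191 c2787 (k2 c23074 c10418 (k1 c12357 k0)))) (by decide +kernel)
def c23076 : PP 9 3 T 0x1000000000000000100000000000000000100040000000100000800000000000000000000000000000000000100000001000008004040000001001004 := rS 0x14071c040e6714fb2f6c63 (k8 c19420 c5212 c5420 c5572 c5571 c19419 c12638 c17822 (k2 c23049 c703 (k1 c2471 k0))) (by decide +kernel)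
def c23077 : PP 9 3 T 0x40008000000000002000100000000000000000100040000000000101000002000000000000000000000000000000000004000000000000000000001000004 := rS 0x35674d0daa70663d0b0e8904b7f91fc312149cce2b34fb2c4eb5db205c63ff6a441a8f64985323731ca400793dc44d79c66a6cda05 (k8 c21870 c22545 c5397 c2504 c5221 c5523 c20808 c5372 (k8 c5524 c5642 c19356 c19420 c20063 c5447 c5445 c5396 (k8 c5526 c5522 c5374 c5542 c5576 c5466 c5463 c5212 (k8 c5422 c5570 c5420 c5572 c5574 c5571 c19419 c8199 (k8 c3604 c6706 c12623 c20798 c23076 c5660 c20008 c18013 (k8 c3031 c493 c1676 c5412 c1240 c22925 c1711 c13617 k0)))))) (by decide +kernel)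
def c23078 : PP 9 3 T 0x8000000000000000120000000000000000100040000000000102000000000000000000100000000000000000000000000000000000000000000000004 := rS 0x204a24ed44fb6118001a05 (k8 c21870 c5522 c5642 c9731 c5212 c5570 c5414 c17759 (k2 c6578 c12638 (k1 c23047 k0))) (by decide +kernel)
def c23079 : PP 9 3 T 0x40000000000000000000100040000000000000100040000000000000000000000000000000000000000000000000000000000000000000000000000000000 := rS 0x46091ba2ac9d84a51e0dce0640003f13f23a05 (k8 c21870 c23075 c23071 c23002 c22945 c5642 c6205 c5221 (k8 c5522 c5526 c19356 c5209 c5396 c23078 c23077 c1061 (k2 c18580 c2810 k0))) (by decide +kernel)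
def c23080 : PP 9 3 T 0x80000000000000000000000040000000000000000040000000000100000002001000440440400001400010000000000008000000000014000000000000002 := rS 0xcc7a3a0f35462f31a915a13a66a736a9bd810cc612f6ece2ae1 (k8 c5591 c5590 c5405 c5542 c1061 c1175 c20787 c16365 (k8 c5397 c17766 c6118 c2504 c5228 c1240 c5326 c5324 (k8 c5325 c5476 c1710 c13351 c1083 c1680 c493 c3588 k0))) (by decide +kernel)
def c23081 : PP 9 3 T 0x100040000000000000100040000000000000000000000000000000000000000000000000000000000000000000000000000000000 := rS 0x2b990676896fbec79d10cfa8e4684026971e81fc2623dca133b1da674df1589fca3a7338acd962758ad55bb678800064140b5dc63f3fa85a6dff17b766a988bf0da05 (k8 c21870 c22545 c23071 c20808 c135 c5405 c5542 c23002 (k8 c5580 c5579 c5578 c5577 c5576 c5466 c5465 c5463 (k8 c5462 c22945 c5642 c19427 c5212 c5573 c5422 c5421 (k8 c5570 c5420 c5574 c5571 c19419 c23075 c23079 c5547 (k8 c5590 c23080 c17922 c17712 c22550 c5530 c13608 c20101 (k8 c16365 c6706 c5432 c5436 c20807 c23030 c12617 c702 (k8 c23031 c2747 c22797 c23008 c2487 c19292 c5474 c20815 (k4 c663 c18871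 c20922 c1182 k0)))))))) (by decide +kernel)
def c23082 : PP 9 3 T 0x80000000000000000000100040000000000000100000000000000000000000000000000000000000000000000000000000000000000000000000000000000 := rS 0x4ec6635efe7062d04b6d52a9cd84a5c31565ed9e20001905c6a16ff8b67111dbdc8e1b0fd29f805 (k8 c21870 c23071 c23081 c5517 c1075 c5520 c5333 c5332 (k8 c20808 c5405 c23002 c5580 c5578 c5466 c5462 c22945 (k8 c5642 c19427 c5212 c5420 c5590 c5591 c19019 c5209 (k8 c9176 c5446 c17766 c1239 c1240 c9332 c17712 c5452 (k4 c1704 c2129 c18477 c5653 k0))))) (by decide +kernel)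
def c23083 : PP 9 3 T 0x2000120040000000000000100000000000000001000000000000000000000000000000000000000000000000000000004000000000000 := rS 0xfe704053bef573552fde56b8fc5ed54aae06b5db7cc6295948d4393bd986c3f4a7e3c40693 (k8 c5444 c22945 c19427 c23071 c23081 c5517 c1075 c5405 (k8 c18477 c5649 c331 c19356 c5446 c9332 c23082 c5212 (k8 c5422 c2631 c170 c135 c5542 c23002 c5466 c5573 (k8 c5653 c20460 c5454 c19336 c22132 c10719 c3070 c9176 (k2 c5694 c3012 k0))))) (by decide +kernel)
def c23084 : PP 9 3 T 0x2000120040000000000000100000000000000001000000000000000000000000000000000000000000000000000000000000000000000 := rS 0x31d3a5f033441232069ec000388bf1ee0ba518d36614c9b4ae05 (k8 c21870 c21872 c22545 c5447 c5445 c5397 c5395 c23081 (k8 c5516 c5333 c23071 c20808 c22945 c5642 c5372 c5522 (k8 c23083 c20738 c2129 c20297 c1055 c1240 c674 c20132 k0))) (by decide +kernel)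
def c23085 : PP 9 3 T 0x1000000000000022000000040000000000000000080000000000000000000000000000011000000000000000000000000000000000000008000000000002 := rS 0x17cf60604f7cc657 (k8 c21872 c5395 c5492 c20738 c20297 c20893 c1055 c20168 k0) (by decide +kernel)
def c23086 : PP 9 3 T 0x22000000000000000000000000080000000000000000000000000000000000000000000000000004000000000000000000000000000084 := rS 0x2f800c605 (k4 c21870 c5395 c5642 c1451 (k1 c20168 k0)) (by decide +kernel)
def c23087 : PP 9 3 T 0x1009000000000002000110000000000000000100080000000100100000000001000000011000000000001000000000000000000000140005000500400200 := rS 0x1aa3def0459ec61a8e082d71fb4d2699 (k8 c5447 c5444 c5579 c5576 c5465 c5462 c17923 c15161 (k4 c274 c2559 c22665 c5688 (k2 c1513 c5454 (k1 c3588 k0)))) (by decide +kernel)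
def c23088 : PP 9 3 T 0x41008800000000082000010000000000000000000000000000000000100044000000000000000000000000000000000000400000000000000000000000000 := rS 0x203ef5725d5a95 (k4 c5446 c5573 c5452 c19336 (k2 c22132 c20839 (k1 c5694 k0))) (by decide +kernel)
def c23089 : PP 9 3 T 0x1000000000002000110040000000000000100000000000000000000000000000000010000000000000000000004000000000000000000000000000000 := rS 0x1046a4226783396e74350b0200e7338ac446e321ab4629578ecc369d10ca63af72292466c757c019ddf7ffce06b566fb5c1b4db78937117e1ac3f4a0000cae05 (k8 c21870 c21872 c22945 c5642 c23081 c5517 c1058 c23071 (k8 c20808 c5397 c23002 c5212 c17712 c17720 c5542 c2504 (k8 c5422 c2631 c23082 c3013 c23088 c5688 c1653 c20839 (k8 c20739 c23085 c5334 c9612 c5333 c6335 c9578 c5528 (k8 c5412 c1075 c5405 c19427 c5446 c9332 c5573 c10701 (k8 c5466 c9731 c5421 c5571 c19419 c23086 c5643 c23087 (k8 c1620 c5653 c5474 c663 c5669 c2602 c1542 c2142 (k2 c9924 c20922 k0)))))))) (by decide +kernel)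
def c23090 : PP 9 3 T 0x1000000000002000110040000000000000100000000000000000000000000000000010000000000000000000000000000000000000000000000000000 := rS 0x7aefbffdb035a9ac3f4af9b35c1b40000e22fcdb7893605 (k8 c21870 c5397 c23002 c5212 c23071 c20808 c22945 c5642 (k8 c17712 c17720 c2504 c23082 c23081 c5517 c1058 c5422 (k4 c2631 c5542 c3013 c23088 (k2 c23089 c20893 k0)))) (by decide +kernel)
def c23091 : PP 9 3 T 0x1100000000000050000008000445000000000000000000000000 := rS 0xee5f (k2 c1687 c890 (k1 c20791 k0)) (by decide +kernel)
def c23092 : PP 9 3 T 0x2000110040000000000000100000008000000000000000000000000020000000000000000000000000000000000000000000000000000 := rS 0x6a8f63aff0882224c603a3cf6913396c8a416b8fda66b21ab7e663649859a314abc7661b0fb836de24dca46a3b19bde94974eed0000388bf0ae05 (k8 c21870 c21872 c23071 c20808 c22945 c5642 c17712 c5412 (k8 c1708 c23081 c5333 c2129 c5332 c1704 c9578 c5397 (k8 c23002 c5212 c17720 c5517 c1075 c5405 c19427 c5446 (k8 c9332 c2504 c5445 c5396 c5395 c23082 c5573 c10701 (k8 c1058 c5579 c5576 c5465 c5462 c5326 c5474 c663 (k8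 c9793 c23091 c2847 c23086 c20815 c5675 c5643 c22665 (k4 c20798 c22489 c1513 c1711 (k1 c3588 k0)))))))) (by decide +kernel)
def c23093 : PP 9 3 T 0x2000100040000000000000100000000000000001000000000000000000000000000000000000000000000000000000000000000000000 := rS 0x3f9abde9d8cc6ad094b83699df08c532954dbc7c5edd9c4606b5db0edee6b0000c361fa53f3e605 (k8 c21870 c23082 c23071 c23081 c5517 c1075 c22945 c5642 (k8 c1058 c5333 c5332 c5212 c5422 c2631 c20808 c5405 (k8 c5542 c23002 c19427 c5397 c5446 c5447 c9332 c6706 (k8 c23084 c17712 c17720 c9578 c23090 c1704 c2129 c23092 (k4 c5653 c5454 c23088 c3012 k0))))) (by decide +kernel)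
def c23094 : PP 9 3 T 0x8000000000000000110000000000000000100080000000000001000000000000000000080000000000000000000004000000000000100000500000000 := rS 0x258481a1114acc4eb5db07c920b (k8 c5516 c5334 c5517 c5212 c5422 c5570 c5574 c8199 (k4 c22665 c2480 c12617 c12638 (k1 c22867 k0))) (by decide +kernel)
def c23095 : PP 9 3 T 0x100040000000000000100000000000000001000000000000000000000000000000000000000000000000000000000000000000000 := rS 0x1109c4cf0c7f0a6443b44e9bcf79d038e4c528d8acd3ecb5aed846e350b7fc5117e1ac3f4a0000fe605 (k8 c21870 c23082 c22945 c5642 c23081 c5517 c1058 c23071 (k8 c20808 c23002 c5580 c5578 c5466 c9731 c5212 c5422 (k8 c5420 c5572 c5574 c23093 c5209 c16365 c5317 c5432 (k8 c19356 c888 c1175 c1274 c17712 c5528 c5530 c6706 (k4 c23094 c5669 c2602 c23030 (k2 c23033 c12617 k0)))))) (by decide +kernel)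
def c23096 : PP 9 3 T 0x100040000000000000100000000000000000000000000000000000000000000000000000000000000000000000000000000000000 := rS 0x9dfbe3a45ce2ba01b58a10c36497b87e9511d9bf000f101ab76c05 (k8 c21870 c5212 c5573 c22945 c19427 c5642 c23071 c5405 (k8 c20808 c23081 c5517 c5333 c5334 c1075 c10701 c23095 (k8 c5414 c1242 c1241 c17712 c3066 c2139 c5584 c18477 (k1 c5658 k0)))) (by decide +kernel)
def c23097 : PP 9 3 T 0x8000000000000000000000000000000000200000004000100000000000000000000040000000000000000000000000000000000100015000000000000 := rS 0x354863d20c75ae3f (k8 c5576 c5465 c5341 c5340 c5560 c5561 c21481 c3588 k0) (by decide +kernel)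
def c23098 : PP 9 3 T 0x20040000000000000000080000000000000000002000000000000000000000000000000000000000000000000008000000000002 := rS 0x3193a5f0334413113d834c69b30a6761297b82cda57 (k8 c21872 c22545 c5516 c5333 c19356 c5209 c5447 c5445 (k8 c5397 c19420 c5522 c5372 c5371 c20738 c2129 c20297 (k4 c1055 c1240 c20132 c674 k0))) (by decide +kernel)
def c23099 : PP 9 3 T 0x100000000000000000000000000001500000004000005000000000000000000001482 := rS 0x6397c066d (k4 c22545 c28 c1451 c674 (k1 c20132 k0)) (by decide +kernel)
def c23100 : PP 9 3 T 0x120040000000000000000080000000000000000000000000000040040000000000000000100000000000000104015000000000000 := rS 0x226133f1f5ac11219063a4b06a3daa3df1cee5358 (k8 c23096 c19356 c18477 c23097 c5560 c21481 c5526 c5522 (k8 c5342 c5341 c5340 c5561 c5558 c3588 c20802 c5670 (k2 c2917 c809 (k1 c17919 k0)))) (by decide +kernel)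
def c23101 : PP 9 3 T 0x82011100045000010000000000000000000050000000000000000000000000000000000000000000000000000000000000000000000000 := rS 0xf27d946a1 (k4 c5398 c5449 c5677 c5671 (k1 c7591 k0)) (by decide +kernel)
def c23102 : PP 9 3 T 0x4012020005010110000000000080000000040000000000000000005000000000000000000000000454000000000000000000000000000 := rS 0xdcfc5b967bf93c173b (k8 c18477 c5516 c5335 c5389 c17719 c20744 c5513 c17948 (k1 c5230 k0)) (by decide +kernel)
def c23103 : PP 9 3 T 0x4000120044000110000000000080000000000042000000000000805000000000000000000000080400000000000000000000000080202 := rS 0x739462ff772ba58724f26958327259bc4a7151a846fb0319e4f66bf9e176c7388846b03b2793753291c8371bad (k8 c1514 c2926 c5522 c273 c19356 c17686 c5521 c5335 (k8 c5332 c23096 c5558 c5371 c1290 c17749 c5423 c5590 (k8 c5523 c5372 c5524 c19420 c5209 c20063 c5398 c5449 (k8 c667 c5559 c1060 c5342 c811 c278 c23102 c5671 (k8 c23101 c5468 c5472 c5622 c7591 c5005 c21520 c1782 (k1 c3591 k0)))))) (by decide +kernel)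
def c23104 : PP 9 3 T 0x10000000000080001000040001100000000200000000000100000000000000000000000000000000000000000000000000000000000000000000000002 := rS 0xbbee75766 (k4 c5217 c5600 c17708 c669 (k1 c5667 k0)) (by decide +kernel)
def c23105 : PP 9 3 T 0x4000120044000000000000000080000000000042000020000000805800000000000000000000000400000800000008000000000000202 := rS 0x85c361f27913a9dac260d9e43a492e06ffe5bc6b71b7d52ec253b639c4423582782d1a870b3bc247e (k8 c276 c275 c5017 c1054 c5373 c2141 c5516 c5335 (k8 c23096 c5558 c5371 c1290 c17749 c19356 c5209 c5399 (k8 c1365 c2926 c1514 c23103 c5619 c815 c3321 c819 (k8 c23104 c5606 c17719 c277 c5656 c4314 c600 c599 (k4 c812 c2253 c3360 c5003 (k1 c20753 k0)))))) (by decide +kernel)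
def c23106 : PP 9 3 T 0x10000000000080001000040000100000000200000000000100000000000000000000000000000000000000000000000000000000000000000000000002 := rS 0xaf0166 (k4 c5217 c23104 c5601 c1062 k0) (by decide +kernel)
def c23107 : PP 9 3 T 0x800001000000000082000000000000000000000200000000000000000000000000011800000000000000000000000000000000000011000000000000000000 := rS 0xe67692c8e53 (k4 c5563 c5562 c5342 c5639 (k2 c21203 c1781 k0)) (by decide +kernel)
def c23108 : PP 9 3 T 0x4000120040000000000000000080000000000042000064000000000041040000000001000000000000000000000100015000000000002 := rS 0x5bf5fada3c83572292635d7e4fbb964ee960b0dbba5c7359c47e09384fa3e2f3423e9147a4fe61f6fa849227db1cc2223da9351a87678dcf26bf1b6ceed9f0f7a768120d60100705a64c29bd818c1a7b88ca4ae6d (k8 c22545 c21872 c19356 c5371 c5372 c5522 c19420 c5209 (k8 c5397 c5445 c5447 c5516 c23099 c5643 c23096 c5340 (k8 c12653 c18477 c5653 c22337 c5497 c5493 c5455 c23097 (k8 c5523 c5524 c20063 c20518 c5373 c2141 c5521 c5414 (k8 c9731 c5558 c1290 c17749 c5570 c17759 c5398 c2950 (k8 c15434 c5590 c5444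 c5526 c5374 c9712 c20853 c18099 (k8 c23100 c2824 c3056 c275 c276 c20911 c8355 c23105 (k8 c5608 c20763 c1556 c3242 c1559 c3470 c3245 c23107 (k8 c5190 c5623 c2925 c5677 c3094 c711 c3095 c469 (k4 c1515 c20745 c20780 c3589 k0)))))))))) (by decide +kernel)
def c23109 : PP 9 3 T 0x40005000000000000001100040000000000000000080000000020040000000000011040000005000000000001000100000000000000000140000000000200 := rS 0x7e719f5ccefd6947c9ab8bfdc224bac0ec9e4d (k8 c5521 c5335 c5332 c23096 c5342 c5558 c5595 c3078 (k8 c711 c5190 c21520 c1515 c5473 c3591 c3098 c1782 (k2 c5670 c10493 k0))) (by decide +kernel)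
def c23110 : PP 9 3 T 0x400004000000000000000100048000000000000000000000000010000000000000000000000000000000000000000110000000000000000000000000000000 := rS 0x31b273f3afc9a5 (k4 c5608 c5190 c5623 c5670 (k2 c3470 c2925 (k1 c5677 k0))) (by decide +kernel)
def c23111 : PP 9 3 T 0x200000000000000000000000000000000140000000000000000000020000000000000100015000000000000 := rS 0xfdae431e9063a57 (k8 c21872 c5341 c5340 c5560 c5561 c20802 c2824 c3588 k0) (by decide +kernel)
def c23112 : PP 9 3 T 0x40005000000000082000100048100000000000000080000000000440000000000000040000000000000000001000111000000000001000140000000000200 := rS 0xfb495cae960b0f4b5826b88fc57 (k8 c21872 c5670 c10493 c5521 c23096 c5608 c1556 c3242 (k4 c1559 c3244 c23109 c23110 (k1 c23107 k0))) (by decide +kernel)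
def c23113 : PP 9 3 T 0x800001000000000080000000040000000000000200000000000100000000000000000800000080000000000000000000000000000011000000000000000002 := rS 0x2f978d2ba314e573f97eb197692c8e5331a8d43b0 (k8 c5209 c5398 c5449 c19420 c5563 c5562 c5342 c5639 (k8 c5641 c17833 c7591 c1781 c2625 c8109 c5692 c5390 (k2 c2671 c23106 (k1 c814 k0)))) (by decide +kernel)
def c23114 : PP 9 3 T 0x400004000000000000001100041000000000000000000000000010000000000000000000000000000000000000000080000000000000000000000000000000 := rS 0x5e64de4 (k4 c5190 c5677 c5619 c811 k0) (by decide +kernel)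
def c23115 : PP 9 3 T 0x20000000000000010000004000400000000000000000000000000000000000000005000000000000000000000000400000000000000000000000000000 := rS 0x2f2dd (k2 c5471 c5619 (k1 c20744 k0)) (by decide +kernel)
def c23116 : PP 9 3 T 0x440005000000000004012020004000000000000000080000000000000000000000000005000000000000000000000000400000000000000000000000000000 := rS 0x5bee3e2b984fd3cb67c0dff17112782e766d (k8 c22545 c18477 c5516 c5335 c5371 c5390 c5389 c5607 (k8 c17719 c23115 c5207 c5556 c5632 c19159 c5230 c5616 (k1 c17909 k0))) (by decide +kernel)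
def c23117 : PP 9 3 T 0x4000120040000000000000000080000000000002000002000000000000000000004000000000000000000000000100011000000000002 := rS 0x72b05d2c3927934bf7c6e3dc47e3eb1873a9042040e9df0b64eedbf1a5dabde19b4e36ae8033606a9f68f482f18fa441b894d9853237319e4f66bf9ad5bea1d84a49227db1ce2211ac08f6a0b26cedfe57 (k8 c21872 c3011 c18477 c5521 c5516 c5414 c9731 c23096 (k8 c5558 c5371 c1290 c17749 c5570 c17759 c19356 c5209 (k8 c5398 c2950 c204 c5590 c5523 c5372 c5524 c19420 (k8 c20063 c5447 c5445 c5397 c5527 c5522 c5374 c9712 (k8 c9696 c5340 c5560 c5542 c135 c2631 c2504 c1242 (k8 c1241 c5043 c2940 c23098 c5653 c21481 c20460 c23097 (k8 c5455 c5493 c5497 c22337 c10719 c23099 c12653 c5643 (k8 c17686 c273 c23108 c23111 c5670 c10493 c23112 c2926 (k8 c23113 c23116 c5190 c23114 c5468 c5472 c5618 c5622 (k1 c23109 k0)))))))))) (by decide +kernel)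
def c23118 : PP 9 3 T 0x40005000000000000000020040000000000000000000000000000000000000000000040000400000000000000000200000000000000010000000000000402 := rS 0xe24e3840d113d834c69b30a676129 (k8 c19356 c5209 c5447 c5445 c5397 c19420 c5522 c5372 (k4 c5371 c12653 c1716 c23099 (k2 c5691 c1777 k0))) (by decide +kernel)
def c23119 : PP 9 3 T 0x4000000000000000000000000000000000000200000004000100000000000000000000000000000000000000000020000000000000100011000000000000 := rS 0x3546608698f63a57 (k8 c21872 c5341 c5560 c20757 c20827 c20738 c21481 c23111 k0) (by decide +kernel)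
def c23120 : PP 9 3 T 0x1000000000000000000040000000000000200000004000100002000080054000000004000000000000001000080000000000000000451000000000000 := rS 0x333bc39688cdc4e10384497f36fa876057 (k8 c21872 c5209 c5398 c2950 c5590 c5342 c5558 c676 (k8 c3058 c10493 c20297 c2202 c2617 c5653 c3587 c5495 k0)) (by decide +kernel)
def c23121 : PP 9 3 T 0x5000000000000000120040000000000000000000000000000002000000000000000000000000000000000000050000000000000000000000000000402 := rS 0x8120fcdbea1d84a597b639c442358 (k8 c23096 c5558 c5371 c1290 c17749 c5420 c19356 c5209 (k4 c5398 c2950 c5590 c5340 (k2 c23118 c5670 k0))) (by decide +kernel)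
def c23122 : PP 9 3 T 0x8000000000080000100040000000000000000000004000100000000000000000000000000000000000000000010000000000000100011000000000002 := rS 0xc5e1934c066f12d636057 (k8 c21872 c5209 c23096 c5559 c1060 c28 c5579 c23097 (k2 c13779 c20297 (k1 c1451 k0))) (by decide +kernel)
def c23123 : PP 9 3 T 0x5000000000000000120040000000000000000080000000000002000080004000000004000000000000000000010000000000000000011000000000002 := rS 0x3fd612237d818e52793dc44d63b7b82deb3b (k8 c18477 c5519 c5516 c5333 c5332 c5523 c5371 c5372 (k8 c5524 c19356 c19420 c5209 c20063 c5374 c23096 c23120 (k1 c23121 k0))) (by decide +kernel)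
def c23124 : PP 9 3 T 0x4000120040000000000000000080000000000002000000000000000000000000000000000000000000000000000000000000004000002 := rS 0x1901d9a3968a77c1e33ebcfdf0267bf5fe3555914383121c749647789bc4a0d49a6cc2954c8df6063949e4f66b569244fb639c44235811ed476f705bd67657 (k8 c21872 c18477 c5519 c5516 c5333 c5332 c5414 c9731 (k8 c23096 c5558 c5371 c1290 c17749 c5570 c17759 c5573 (k8 c5523 c5372 c5524 c19356 c19420 c5209 c20063 c5447 (k8 c5446 c5445 c5397 c5444 c5522 c5559 c1060 c9696 (k8 c5562 c5342 c5341 c5561 c9332 c5649 c335 c2121 (k8 c331 c3011 c23117 c13265 c18824 c22847 c334 c23119 (k8 c23122 c23123 c5458 c5459 c5534 c5537 c23099 c3587 (k1 c20297 k0)))))))) (by decide +kernel)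
def c23125 : PP 9 3 T 0x120040000000000000000080000000000002000000000000000000000000000000000000000000000000000000000000004000002 := rS 0x102557b5fe445499dfaafd93c50e6bf9ac49227db1ce2211ac08f6a6d (k8 c22545 c5414 c9731 c23096 c5558 c5371 c1290 c17749 (k8 c5570 c17759 c5421 c5590 c5523 c5373 c9696 c23124 (k8 c5406 c5405 c5487 c5489 c17812 c3010 c20915 c20788 (k2 c9612 c2199 k0)))) (by decide +kernel)
def c23126 : PP 9 3 T 0x120040000000000000000080000000000002000000000000000000000000000000000000000000000000000000000000000000002 := rS 0x101f7aa9fe8c7eaa55e670d4edeaf721c749647789bc4a71439afe61f589244fb639c44235811ed4da05 (k8 c21870 c22545 c5414 c9731 c23096 c5558 c5371 c1290 (k8 c17749 c5570 c17759 c5421 c15434 c5590 c5523 c5373 (k8 c667 c5559 c1060 c9696 c5562 c5342 c5341 c5561 (k8 c5333 c5519 c18477 c23125 c1903 c1077 c1906 c1075 (k4 c18705 c3010 c20788 c22847 (k2 c2141 c6368 k0)))))) (by decide +kernel)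
def c23127 : PP 9 3 T 0x2000000000000000120040000000000000000000000000000002000000000000000000000000000000000000000000000000000000000000008000002 := rS 0x1c47f1fb4c68811881cbc76668e5c29d638f4824b4d9846e633c9edbea1659244e0b1d88047b549ced9ea855c05187137fbc0647a5835feaf12fcd63b639846b0fd0f99e228735a6761290795cda05 (k8 c21870 c22545 c21872 c21871 c19356 c5209 c5447 c5523 (k8 c5373 c5371 c1903 c15434 c1075 c23096 c5558 c1290 (k8 c17749 c5421 c5590 c5559 c1077 c3010 c5522 c23126 (k8 c5562 c28 c22356 c1060 c667 c18705 c2141 c6368 (k8 c20788 c2450 c5475 c5444 c5414 c9731 c5650 c340 (k8 c2416 c5570 c17759 c5420 c5398 c2950 c5372 c5524 (k8 c19420 c20063 c5445 c5397 c5342 c5340 c5560 c5535 (k8 c5458 c5460 c5534 c5537 c20823 c18099 c23099 c1913 (k4 c1746 c23048 c2084 c442 (k2 c19606 c3590 (k1 c14867 k0))))))))))) (by decide +kernel)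
def c23128 : PP 9 3 T 0x120040000000000000000000000000000002000000000000000000000000000000000000000000000000000000000000008000002 := rS 0x1860091c785e8a855c05ffef463f55e670e91c066f129c50e0d1b98cf27b35fcd63b639c4423581d882961f11ed527b09495cda05 (k8 c21870 c22545 c21872 c19356 c5209 c5444 c5414 c9731 (k8 c15434 c23126 c5650 c340 c23096 c5558 c5371 c1290 (k8 c17749 c5421 c5590 c5523 c5372 c5524 c19420 c20063 (k8 c5522 c5373 c667 c5559 c1060 c28 c5562 c57 (k8 c1903 c1077 c1075 c18705 c22356 c3010 c2141 c6368 (k8 c20788 c1906 c23127 c5654 c273 c2475 c5643 c20134 k0)))))) (by decide +kernel)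
def c23129 : PP 9 3 T 0x1000000000000000120040000000000000000000000000000002000000000000000000000000000000000000000000000000000000000000000000002 := rS 0x788fa7f0317dc6091c0f4966f12a441a37319e4f66bf9b7d43b639c442358058ec414b0f88f6a93d84a4ae6d (k8 c22545 c21872 c19356 c5209 c5444 c5414 c9731 c15434 (k8 c23126 c5650 c340 c2416 c23096 c5558 c5371 c1290 (k8 c17749 c5398 c2950 c5590 c5523 c5372 c5524 c19420 (k8 c20063 c5522 c5374 c5559 c1060 c5342 c5560 c5654 (k8 c273 c2617 c1055 c5643 c10493 c1456 c23121 c13779 k0))))) (by decide +kernel)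
def c23130 : PP 9 3 T 0x4000000000000000000120040000000000000000000000000000002000010000000000000000000000000000000000000000000000000000000000000002 := rS 0x53792f9f7c0ddf0fa515eaedf66dcaee1eae89bf8971f37894e3f359ad57b8558b9dcbdff1905c2df50fb4723368b368fb33396e064913ed8e611ac42438aa7b4e86a162f31c620803a77c09930a6c1a3b498df6063949e4f7113582dea1b1052c3e23da9b41e57 (k8 c21872 c21871 c22545 c5414 c9731 c15434 c23126 c5650 (k8 c23128 c2421 c2416 c5523 c5371 c5372 c5524 c19356 (k8 c19420 c5209 c20063 c5444 c340 c5522 c5397 c5445 (k8 c5447 c23129 c5458 c23099 c5643 c20764 c5535 c18019 (k8 c1054 c1620 c23048 c20053 c343 c8123 c4581 c23096 (k8 c5558 c1290 c17749 c5570 c17759 c2196 c5474 c663 (k8 c17807 c5327 c5537 c5459 c20297 c5534 c18037 c5398 (k8 c2950 c5460 c5340 c17960 c22337 c5539 c5461 c5421 (k8 c5423 c5575 c204 c171 c5590 c667 c5559 c1060 (k8 c9712 c5342 c6368 c21166 c18659 c5033 c4131 c22336 (k8 c22332 c5349 c5600 c5601 c19938 c2222 c669 c1062 (k4 c18010 c5667 c5190 c1364 (k1 c5470 k0))))))))))))) (by decide +kernel)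
def c23131 : PP 9 3 T 0x40000000000000080000020000000000000000000040000000000000000021000000000000000000000000000000000000040000000400000000000000004 := rS 0x46abd0e0d (k4 c5522 c5373 c3071 c2141 (k1 c22357 k0)) (by decide +kernel)
def c23132 : PP 9 3 T 0x120040000000000000000000000000000002000000000000000000000000000000000000000000000000000000000000000000002 := rS 0x3df017e99cb6f39d0d46216041780e9d63f80363b0588297b63987f6bf30891eb00311835269b30a646fb031ca4f27b889acae6d (k8 c22545 c21872 c5523 c5371 c5372 c5524 c19356 c19420 (k8 c5209 c20063 c5447 c5445 c5397 c5444 c5522 c9731 (k8 c28 c23096 c5562 c5558 c5590 c5414 c15434 c1290 (k8 c17749 c23126 c5650 c2416 c340 c23128 c23129 c5535 (k8 c5458 c23099 c18019 c5643 c1054 c20764 c1620 c23048 (k4 c5325 c5474 c663 c2550 (k2 c23131 c22356 (k1 c23130 k0)))))))) (by decide +kernel)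
def c23133 : PP 9 3 T 0x80000120040000000000000000040000000000000000000000000000000000000000000000000000000000000000000100000200000002 := rS 0x7101cfedf70a758fe02083536614c8dcc6793db2e247337895231138846b0b5599ae2a8f058ed27b09483cae6d (k8 c22545 c21872 c21871 c19356 c5209 c5444 c340 c2416 (k8 c5526 c23132 c5523 c5574 c5422 c23096 c5558 c667 (k8 c5371 c5374 c5559 c1060 c5419 c3604 c5420 c5372 (k8 c5524 c19420 c20063 c5447 c5445 c5397 c5522 c5340 (k8 c5654 c5535 c5458 c5460 c5538 c809 c23099 c6118 (k1 c14867 k0)))))) (by decide +kernel)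
def c23134 : PP 9 3 T 0x80000120040000000000000000040000000000000000000000000000000000000000000000000000000000000000000000000200000002 := rS 0x3c6df401f58e7f0317dc609f08e0163d2092c1a63d84a5971248c44d71547fcd6ab3399c4226f12d60ae6d (k8 c22545 c21872 c23096 c5559 c1060 c5558 c667 c5419 (k8 c5574 c5422 c17922 c5526 c23132 c5523 c5371 c5374 (k8 c3604 c5420 c19356 c5209 c19420 c5522 c5342 c5340 (k8 c5560 c2416 c23133 c5534 c273 c2617 c1055 c5643 (k4 c810 c674 c1456 c18032 (k2 c2512 c13779 (k1 c23118 k0))))))) (by decide +kernel)
def c23135 : PP 9 3 T 0x2000120000000000000000200040000000000001000000000000000000400000400000000000000040000000000000000004100000082 := rS 0x63ed1be803e87c767f2f8f49603119bc4a7108c44f66b3c98e526d (k8 c22545 c19356 c19420 c5524 c5523 c5372 c5371 c5558 (k8 c667 c5559 c1060 c9731 c28 c5342 c5560 c1451 (k8 c676 c1674 c17918 c1456 c18032 c18066 c5650 c941 (k1 c19702 k0)))) (by decide +kernel)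
def c23136 : PP 9 3 T 0x4000000000000000000000000000000000000000000000000000000800012000000000000000001000000000000000000000000000000000000000000000 := rS 0x207ed (k2 c5542 c2631 (k1 c21166 k0)) (by decide +kernel)
def c23137 : PP 9 3 T 0x4000000000000080000120040000000000000000000000000000000000001000000000000000000006000000000100000000000000000801000000000002 := rS 0x78cfb3b1a915e81c0f058fe3f71864528749ec252276fc48e66f12a46227108d616ab335c551e6d (k8 c22545 c5526 c23132 c5523 c5574 c5422 c23096 c5558 (k8 c667 c5371 c5374 c5559 c1060 c5419 c3604 c2513 (k8 c5570 c19356 c5209 c5444 c5373 c8199 c6205 c8999 (k8 c495 c810 c17858 c1677 c20866 c2319 c335 c331 (k4 c5477 c23119 c23122 c5670 k0))))) (by decide +kernel)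
def c23138 : PP 9 3 T 0x4000000000000080000120040000000000000000040000000000000000010000000000000000000000000000000000000040000000000000000000000002 := rS 0x70693b678ec36f7d9aa1faab7888d0e934c8dcc6793dac7e6ff891bc4a91889c422b535a3d0241188e41007109cc4ecb59c57615894834da57 (k8 c21872 c22545 c5522 c19356 c23096 c5209 c23132 c5574 (k8 c5420 c5570 c5419 c23134 c23135 c5643 c273 c20764 (k8 c5340 c12653 c5526 c5523 c5422 c5558 c667 c5371 (k8 c5374 c5559 c1060 c3604 c20798 c17922 c5421 c5372 (k8 c5524 c19420 c20063 c5447 c5444 c5373 c9731 c9696 (k8 c6368 c23136 c20788 c5489 c2021 c1907 c23137 c2450 (k4 c22271 c23048 c5649 c331 k0))))))) (by decide +kernel)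
def c23139 : PP 9 3 T 0x4000000000000080000120040000000000000000040000000000000000000000000000000000000000000000000000000040000000000000000000000002 := rS 0x11aaf8011c068706c57e6b5599cce21137896b06d (k8 c22545 c23096 c5559 c1060 c5558 c667 c5419 c5574 (k8 c5422 c17922 c23132 c5522 c5373 c28 c5562 c23138 (k2 c3070 c2141 (k1 c22357 k0)))) (by decide +kernel)
def c23140 : PP 9 3 T 0x4000000000000080000120040000000000000000040000000000000000000000000000000000000000000000000000000000000000000000000000000002 := rS 0xe3f09f875e33e8d48b3b0e168cc931b98cf27bf9b7d0241891bc4a91889c422b535a3c620803884e62765ace2bb0ac4a4ae6d (k8 c22545 c21872 c19356 c23096 c5209 c23132 c5574 c5420 (k8 c5570 c5419 c23134 c23135 c5643 c20764 c5526 c5523 (k8 c5422 c5558 c667 c5371 c5374 c5559 c1060 c3604 (k8 c5340 c12653 c2513 c17922 c5372 c5524 c19420 c20063 (k8 c5444 c23139 c663 c664 c5474 c335 c331 c23119 (k4 c23122 c23048 c5670 c5456 (k2 c8999 c10493 k0))))))) (by decide +kernel)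
def c23141 : PP 9 3 T 0x80000120040000000000000000040000000000000000000000000000000000000000000000000000000000000000000000000000000002 := rS 0x9d8d4b5df0e06cccd557915ae8df70c4103303887e6ad5aac4e62765acc52438e91c06f137894e211ac035269f50a5761298a814ae6d (k8 c22545 c21872 c21870 c23132 c19356 c5209 c5446 c5398 (k8 c5448 c5444 c5522 c23096 c5558 c667 c5559 c1060 (k8 c9696 c28 c5562 c5341 c5561 c8199 c5574 c5420 (k8 c5570 c5419 c5421 c5422 c5573 c17922 c23134 c23135 (k8 c20297 c5643 c20764 c23140 c5505 c5507 c5582 c5584 (k8 c5585 c22356 c18705 c3582 c18008 c663 c331 c5474 (k1 c5653 k0))))))) (by decide +kernel)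
def c23142 : PP 9 3 T 0x8000000000000000000100040000000000000000000000000100000000000000000000000000000000000000000040000000000000000000000020000040 := rS 0x7df1b487e0819a04863d20c76b0d722b5462951aa4f6057 (k8 c21872 c5209 c5444 c331 c5446 c1996 c5585 c5582 (k8 c5507 c23096 c5341 c5340 c5560 c5561 c12653 c20297 (k4 c5643 c276 c3588 c5579 (k2 c20757 c5670 k0)))) (by decide +kernel)
def c23143 : PP 9 3 T 0x22000020000000000000000000000000000000000000000004000000000000000000000080000000000040400000000000000000000080 := rS 0x70cdf6b458cfc54a76228735a6fbe6d (k8 c22545 c5452 c5397 c5523 c5373 c5371 c5412 c5531 (k4 c20900 c19702 c1708 c20915 (k2 c2504 c675 (k1 c6897 k0)))) (by decide +kernel)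
def c23144 : PP 9 3 T 0x2000020000000000000000000040000000000000000000014000000000000000000000000000000000040040000000000000000000082 := rS 0xf08e538d105bf441b57888c1a9b4c8dc761f889acf27befa58ee956498e52612f80c1e6d (k8 c22545 c21871 c28 c1451 c5445 c19356 c19420 c5396 (k8 c5446 c672 c20791 c5452 c5372 c5524 c5523 c5371 (k8 c17918 c1674 c20063 c5447 c5397 c5522 c9731 c9696 (k8 c23143 c5650 c13351 c2416 c1709 c23099 c20879 c5458 (k1 c5654 k0))))) (by decide +kernel)
def c23145 : PP 9 3 T 0x8000000000000000000120040000000000000000040000000000000000000000000000000000000000000000000000000000000000000000000020000002 := rS 0x1b4104efdaf27a87c0c5bd9c44f66b3cec0fe639499d1a72db846b06d (k8 c22545 c23096 c5558 c23141 c17749 c5505 c931 c19356 (k8 c19420 c806 c5209 c5524 c5523 c5372 c5371 c5486 (k8 c1994 c23142 c17918 c1999 c23144 c5540 c5325 c333 (k2 c5228 c5528 k0)))) (by decide +kernel)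
def c23146 : PP 9 3 T 0x8000000000000040000020000000000000000000040004000000001000000001000000000100000000000010000000000041400004000000010050000080 := rS 0x1571354ab564b5d96d436fd194450e6b94a37e66d (k8 c22545 c18955 c5505 c19356 c5523 c5373 c5371 c23057 (k8 c20237 c2043 c23062 c5649 c11945 c5685 c5490 c5489 (k2 c2456 c20930 (k1 c20788 k0)))) (by decide +kernel)
def c23147 : PP 9 3 T 0x8000000000000042000020000000000000000000040000000000001000000000000000000000000000000000000000000040000004000000010010000082 := rS 0x7a96de73a0f97c06f1889ecd679649852a6d (k8 c22545 c5446 c5445 c5396 c5524 c5523 c5372 c5371 (k8 c9696 c28 c1451 c17918 c23146 c5325 c5474 c5477 (k1 c23144 k0))) (by decide +kernel)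
def c23148 : PP 9 3 T 0x8000000000000000000100040000000000000000000008000000000000000000000000000000000000000000000140000000000000000004000000000000 := rS 0x3c67d1ec76b0d5 (k4 c5585 c23096 c5341 c5560 (k2 c22128 c13617 (k1 c5670 k0))) (by decide +kernel)
def c23149 : PP 9 3 T 0x8000000000000002000100040000000000000000000004000000000000000001000000000000000000000000000150080000000000000000000010000200 := rS 0x37b35625da6cb0bf88be43ac2c5aed5 (k8 c5585 c5507 c5506 c23096 c5561 c1315 c5670 c1506 (k4 c5464 c5579 c19357 c8156 (k2 c17820 c1908 (k1 c5649 k0)))) (by decide +kernel)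
def c23150 : PP 9 3 T 0x8008000000000000000000040000000000000000000004000100000000000001000000040000000000000000000000080000000000040020000010000000 := rS 0x1581a4beccbecbd82c5aed5 (k8 c5585 c5507 c5506 c5209 c5464 c1314 c17820 c19704 (k2 c5649 c22132 (k1 c1908 k0))) (by decide +kernel)
def c23151 : PP 9 3 T 0x8000000000000000000000040000000000000000000004000100000000000001000000000000000000000000000020000000400000040020000010000000 := rS 0x34acd9a5d97b058b5daad3 (k8 c20757 c5585 c5507 c5506 c5209 c1547 c19704 c17820 (k2 c8156 c5649 (k1 c1908 k0))) (by decide +kernel)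
def c23152 : PP 9 3 T 0x44000020000000000000000000040004000000001000044001000440550000000010000100000000000040000004000140010050800000 := rS 0x4056acd70b3f6be07e8ee52ab (k8 c11079 c19356 c1677 c20237 c5654 c23062 c13265 c5460 (k4 c5537 c11945 c15060 c3627 k0)) (by decide +kernel)
def c23153 : PP 9 3 T 0x8000000000000000000120040000000000000000040000000000000000000000000000000000000000000000000000000000000000000000000000000002 := rS 0x24b8476f24ebf03cabd9ab52cd10d059945e1a37da67c9d8fc723171820668103874ceff6a91606d7468a4863d2092c8ef1438351e991bec0f27b889ae2a7f396dc235831ca4da57 (k8 c21872 c22545 c19356 c19420 c23096 c5558 c23141 c17749 (k8 c806 c23132 c5523 c5371 c5372 c5524 c5209 c20063 (k8 c5447 c5526 c5522 c5373 c9696 c5562 c5342 c5340 (k8 c5560 c5561 c8199 c5505 c5507 c5508 c5582 c5585 (k8 c5586 c931 c23145 c23147 c12653 c20297 c5643 c17330 (k8 c20764 c273 c276 c23148 c23149 c20757 c2829 c23111 (k8 c23151 c1314 c1054 c1620 c4252 c1619 c1908 c5404 (k8 c11079 c23152 c20866 c3993 c1076 c1676 c1718 c450 (k1 c3590 k0))))))))) (by decide +kernel)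
def c23154 : PP 9 3 T 0x4000000000000040000020040000000000000200040004000000000000000000000000100000000000000000000020080000800000000004000010000002 := rS 0x3e4485abd955ed7eed553014e079e63a227859acf4b8d7bde30b3284a4320c748e871bec0c6793dc44d6d36b8fc62390401c7b290699cda57 (k8 c21872 c22545 c664 c5522 c19356 c5560 c1456 c5643 (k8 c273 c20764 c2824 c20802 c20757 c5523 c5371 c5372 (k8 c5524 c19420 c5209 c20063 c5373 c5562 c5341 c5340 (k8 c5561 c5559 c1314 c1054 c5464 c5689 c5450 c5452 (k8 c5453 c5495 c22337 c3588 c23048 c20553 c1677 c1676 (k8 c3067 c2320 c5412 c1239 c20915 c20866 c20852 c1345 (k2 c503 c11939 (k1 c5588 k0)))))))) (by decide +kernel)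
def c23155 : PP 9 3 T 0x400000000000000020000000000000000000040004000000000000000000000000000000000000000500000000000000000000000000000090400042 := rS 0x787dac654a7443113d834d67931ca4ce6d (k8 c22545 c664 c19356 c19420 c5524 c5523 c5522 c5372 (k8 c5371 c58 c1082 c2320 c10500 c20915 c5535 c5165 k0)) (by decide +kernel)
def c23156 : PP 9 3 T 0x4000000000000040000020040000000000000200040004000000001000000000000000100000000000000000000020080000000000000004000010000002 := rS 0x1c1e0248ec41b57e87fc5df3b05cbe672080de22349b2536614aa646fb03c9ee226b3f98da6df478e410071eca41a57 (k8 c21872 c5522 c19356 c5560 c1456 c5643 c273 c5526 (k8 c2829 c20757 c19420 c806 c5523 c5371 c5372 c5524 (k8 c5209 c20063 c5447 c5446 c5445 c5397 c5396 c5444 (k8 c9731 c9696 c28 c5340 c664 c23154 c1506 c22977 (k8 c5493 c10702 c23155 c20237 c23062 c5650 c340 c345 (k2 c5654 c17960 (k1 c5460 k0))))))) (by decide +kernel)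
def c23157 : PP 9 3 T 0x4000000000000040000020040000000000000200040004000000001000000000000000100000000000000000000020080000000000000004000000000002 := rS 0x3522870620803b4c7a93d84a55e57 (k8 c21872 c20812 c19356 c5209 c5444 c5560 c20757 c1456 (k4 c5643 c20764 c23156 c336 (k2 c331 c23111 k0))) (by decide +kernel)
def c23158 : PP 9 3 T 0x8000000000002000000000000000000000200000000000000000000000000000000100000000040000000000000000000000000000004000020000000 := rS 0x1a8c48a431e9063a934ab5c7ed3 (k8 c5579 c5576 c5465 c5446 c5444 c5341 c5340 c5560 (k4 c5561 c336 c1996 c331 (k1 c3588 k0))) (by decide +kernel)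
def c23159 : PP 9 3 T 0x8000000000000000020040000000000000200040004000000001000000000000000100000000040000000000000000000400000000004000000000002 := rS 0xe0f01247620dabf43fdf3b05c72080399c3adf2080de22306a4d929b30a553237d818e52793dc44d657 (k8 c21872 c5523 c5371 c5372 c5524 c19356 c19420 c5209 (k8 c20063 c5447 c5446 c5445 c5397 c5396 c5444 c5522 (k8 c9731 c9696 c28 c5340 c5580 c23158 c664 c23057 (k8 c5643 c273 c1506 c22977 c5493 c23155 c20237 c23062 (k4 c5650 c340 c345 c5654 (k2 c17960 c5460 k0)))))) (by decide +kernel)
def c23160 : PP 9 3 T 0x4000020000000000000000000040004000000000000000000000000005000000000000000000000400000000000000000000200000080 := rS 0xd163fb017b53da1cf26d (k8 c22545 c5524 c5373 c5372 c5528 c2416 c5228 c674 (k2 c5501 c20770 k0)) (by decide +kernel)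
def c23161 : PP 9 3 T 0x120040000000000000000040004000000000000000000000000100000000000000000000000000000000000000004000000000002 := rS 0xf66d1e62166bd7bcf718870b41bd9b3cee660f8d40c80f197cfa417888d0ec930a546fb03c9ee226b8aabcfe72db846b06394fbc0a6d (k8 c22545 c21870 c23153 c19356 c19420 c23096 c5558 c23141 (k8 c17749 c806 c20812 c23132 c5523 c5371 c5372 c5524 (k8 c5209 c20063 c5446 c5445 c5396 c5373 c9731 c9696 (k8 c5340 c23157 c1315 c23159 c5670 c12653 c20806 c17918 (k8 c23057 c673 c20518 c5487 c1903 c663 c664 c9332 (k8 c2101 c9931 c1999 c5495 c23160 c333 c5650 c5657 (k1 c17700 k0))))))) (by decide +kernel)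
def c23162 : PP 9 3 T 0x20000000000000000200040004000000000000000000000400200000000000000000000000080040000000004060000100800202 := rS 0x90f27ab8476f7da78202abf6b7d61b3549f194960d1787a412591cd68f1cca7be6d (k8 c22545 c5454 c19356 c19684 c5526 c5523 c5562 c5342 (k8 c5340 c5560 c1506 c1620 c1619 c1314 c1315 c1907 (k8 c5404 c1661 c2829 c20915 c11079 c2143 c5165 c5228 (k4 c2103 c5456 c5460 c20218 (k2 c5657 c3590 (k1 c451 k0)))))) (by decide +kernel)
def c23163 : PP 9 3 T 0x20000000000000000200040004000000000000000000000400200000000000000500000000080040000000004060000110000202 := rS 0xda3f43e177888fbe07 (k8 c20806 c5454 c9731 c9696 c23162 c23155 c20237 c5650 (k1 c23062 k0)) (by decide +kernel)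
def c23164 : PP 9 3 T 0x120040000000000000000040004000000000000000000000000000000000000000000000000000000000000000004000000000002 := rS 0xdf70f80923b100203a390399dc6341fab503df6a0f4824b23a4d3e9b4c8df60793dc44d7153f9cb6e11ac18e5257 (k8 c21872 c19356 c19420 c23096 c5558 c23141 c17749 c806 (k8 c23132 c5523 c5371 c5372 c5524 c5209 c20063 c5447 (k8 c5397 c5448 c5444 c5562 c5342 c5340 c5560 c23161 (k8 c5454 c20766 c2890 c2997 c21481 c17330 c932 c20806 (k8 c19684 c331 c5643 c23163 c340 c345 c5654 c5460 (k2 c5538 c3590 k0)))))) (by decide +kernel)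
def c23165 : PP 9 3 T 0x40000020000000000000000000000000000000001000000000000040000000000000004100000150000000000004000000000200000080 := rS 0x89acbe6c75a82f6a7b489e51e6d (k8 c22545 c5526 c5524 c5374 c5372 c5528 c2416 c2608 (k4 c674 c17861 c5685 c2456 (k1 c22094 k0))) (by decide +kernel)
def c23166 : PP 9 3 T 0x2000020000000000000000000040000000000000000000014000000000000000000000000000000000040000000000000000020000082 := rS 0x5b (k2 c1994 c23144 k0) (by decide +kernel)
def c23167 : PP 9 3 T 0x120040000000000000000040004000000000000000000000000000000000000000000000100000000000000000000000000000002 := rS 0x405eeff81927d86656785e6b1632cd521cda6cc42456f8ffc51d2591de22343a7d3315579fce5b708fbc36c97a8dcc65f048ec3f1135ec252793d9f40c321ed60ae6d (k8 c22545 c21872 c23096 c5560 c23164 c20297 c1456 c5372 (k8 c5524 c19356 c5209 c5523 c5371 c17918 c1674 c20738 (k8 c1055 c19420 c20063 c2046 c5396 c2043 c23153 c5558 (k8 c23141 c17749 c806 c20812 c23132 c5447 c5448 c5373 (k8 c9731 c9696 c5562 c5342 c5341 c5670 c5576 c5580 (k8 c389 c23165 c20905 c5650 c5649 c5531 c5532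 c19702 (k8 c2177 c333 c5535 c5683 c23166 c18387 c20539 c2034 (k4 c2892 c5498 c5502 c18038 k0)))))))) (by decide +kernel)
def c23168 : PP 9 3 T 0x4004400000000042000020000000000000000200040004000000000000000010000100000000000040000000000040000000400000000000000104000082 := rS 0x405ee49f638c71e16307369b323bc447294fa543f11359e4f66d (k8 c22545 c5372 c5524 c5523 c5371 c17918 c5446 c5448 (k8 c19356 c9731 c9696 c5562 c20905 c5650 c5649 c19702 (k8 c5535 c675 c2620 c5165 c400 c5498 c5502 c18785 k0))) (by decide +kernel)
def c23169 : PP 9 3 T 0x120040000000000000000040004000000000000000000000000000000000000000000000000000000000000000000000000000002 := rS 0x3fde7017bc0fd8e3f0a70920b10115a4e16af8d005f6b819ea1b04f7c651d23835929b30a646fb03c9ee226b8aabcfe72db846b06394fbcda57 (k8 c21872 c22545 c23153 c19356 c19420 c23096 c5558 c23141 (k8 c17749 c806 c20812 c23132 c5523 c5371 c5372 c5524 (k8 c5209 c20063 c5447 c5445 c5397 c5396 c5522 c5562 (k8 c5341 c23164 c5492 c20738 c2043 c2046 c20297 c2185 (k8 c1055 c23167 c5463 c20766 c1716 c20909 c390 c23168 (k8 c2416 c345 c23099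 c5458 c1778 c5165 c2088 c5498 (k4 c5502 c5540 c5544 c18038 k0))))))) (by decide +kernel)
def c23170 : PP 9 3 T 0x200040000000100001000000000000400000000000000000004000000000000000000004140000200000000 := rS 0xdf70f80923b1e9049647 (k8 c5562 c5342 c5340 c5560 c340 c345 c5654 c5460 (k2 c5538 c3590 k0)) (by decide +kernel)
def c23171 : PP 9 3 T 0x4002000000000042000020000000000000000200000008000000000000000000000400000000000000000000000000080000000000004100000000000002 := rS 0xd56bb4fc6ac3e328905eefb7d9ae14eb1c763d2092c8e9f1b98e52793dc44d66d (k8 c22545 c5523 c5371 c5372 c5524 c19356 c19420 c20063 (k8 c5448 c5562 c5342 c5340 c5560 c5456 c5535 c5458 (k8 c5460 c5537 c5538 c22337 c18019 c3590 c1314 c1315 (k4 c19095 c5464 c20757 c20802 (k2 c2890 c5689 k0))))) (by decide +kernel)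
def c23172 : PP 9 3 T 0x2000100040000000000000000000008000000000000000000000000000000000020000000000140000000000000004004000000000000 := rS 0x1f7c6d26bb54863d20c76b09f4a9146a31 (k8 c5476 c5324 c5326 c5446 c5448 c23096 c5341 c5340 (k8 c5560 c5561 c2890 c2032 c3588 c13617 c20757 c5670 k0)) (by decide +kernel)
def c23173 : PP 9 3 T 0x80000000000000000000020000000000000000000000000000000000000000000000000000000000204000000000000000040000000000000000000000000 := rS 0x54bf606b588a1cd66d (k8 c22545 c5523 c5373 c5371 c5548 c5550 c1335 c2183 (k1 c20788 k0)) (by decide +kernel)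
def c23174 : PP 9 3 T 0x44005000000000000000120040000000000000000000000000000000000000000000000040000000200000000000140000040000000100015000000000000 := rS 0xb354383d9df6a37cf95835a3d3fb094b8cf26d (k8 c22545 c5524 c17330 c19356 c5209 c5448 c5526 c5523 (k8 c23096 c5670 c2829 c23111 c5454 c5204 c5691 c20915 (k2 c2898 c2184 k0))) (by decide +kernel)
def c23175 : PP 9 3 T 0x120040000000000000000040000000000000000000000000000000000000000000000000000000000000000000000000000000002 := rS 0x174b97d97e2f9875a6b056f8766ab108fc72e3040cd020733bd4621b2dbcc6a459d7bcfeaf396dc22418ed61e22306a4c6fb031ca4f27b889ae2a57 (k8 c21872 c23132 c5523 c5371 c5372 c5524 c19356 c19420 (k8 c5209 c20063 c5444 c5522 c9731 c9696 c23096 c5341 (k8 c5340 c5558 c23141 c17749 c20812 c806 c23153 c23169 (k8 c5326 c5324 c5325 c5474 c5475 c5476 c5477 c663 (k8 c23144 c12653 c20297 c5643 c17330 c273 c276 c23170 (k8 c7110 c20905 c23171 c23172 c5683 c20105 c2177 c23173 (k4 c23174 c5464 c1314 c1333 (k2 c1506 c21936 k0)))))))) (by decide +kernel)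
def c23176 : PP 9 3 T 0x4001000000000046000020000000000000000000080000000000100000000000000000000400000050000000000000000040400000000000000000000002 := rS 0x1a3df54fb4ecfd0d25c3ab078c44f6873c98e529364a55321f7acecda05 (k8 c21870 c22545 c18477 c5519 c5517 c5447 c5446 c5396 (k8 c5444 c19356 c19420 c5524 c5373 c5372 c5371 c9696 (k8 c5683 c2177 c1333 c5649 c20237 c20857 c18807 c1906 (k2 c5493 c2131 (k1 c20904 k0))))) (by decide +kernel)
def c23177 : PP 9 3 T 0x4001000000000042000020000000000000000000080000000000100000000000000000000400000010000000000000080000000000000000000000000002 := rS 0x68f7fda7654bf52fb233c44f687359e4c72949b252a990fabcbe6d (k8 c22545 c1314 c20812 c5517 c5447 c5446 c5396 c5444 (k8 c19356 c19420 c5524 c5523 c5373 c5372 c5371 c932 (k8 c23176 c5404 c5405 c5489 c20857 c20915 c5493 c2131 (k1 c20904 k0)))) (by decide +kernel)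
def c23178 : PP 9 3 T 0x4008000000000040000020040000000000000200080000000000001000000000000000000000000000000000000000080000000000000000000000000002 := rS 0x89ac96bf34e31f6a063e8c86a1c18b543645d9ab0871d01bc6227b48834f28f49a7d36614aa67600b9dabcfe6394a0597e120b7cda57 (k8 c21872 c22545 c5580 c5340 c21911 c5464 c5463 c19356 (k8 c19420 c806 c20812 c18477 c5516 c5209 c5447 c5446 (k8 c5445 c5397 c5448 c5444 c5526 c5524 c5522 c5374 (k8 c5372 c5371 c9696 c28 c5341 c5561 c23177 c5490 (k8 c2887 c1908 c2890 c9332 c5649 c331 c23158 c23119 (k8 c20297 c23086 c674 c23099 c17861 c1342 c5685 c2456 (k1 c22094 k0))))))) (by decide +kernel)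
def c23179 : PP 9 3 T 0x8000000000040000120040000000000000000000000000000000000000000000000000000000000000000000000000000000000000000000004000002 := rS 0x1b681c2580de27b9d9fcc68d7ffcf66d569b2f612958fb8e411a5456b0d7 (k8 c5465 c23096 c23132 c23175 c5558 c17749 c23178 c5506 (k8 c19356 c5209 c5464 c5579 c5585 c17820 c18955 c5586 (k8 c5505 c19420 c806 c18477 c5372 c9696 c28 c5342 (k4 c5649 c18775 c23142 c23086 k0)))) (by decide +kernel)
def c23180 : PP 9 3 T 0x8000000000040000120040000000000000000000000000000000000000000000000000000000000000000000000000000000000000000000000000002 := rS 0x2586a335687435ee6990de2c9d84a62b3ba51c82358 (k8 c23096 c5558 c17749 c23175 c18477 c23132 c19356 c5209 (k8 c5396 c9696 c5561 c5579 c23178 c23179 c57 c1908 (k4 c2043 c23150 c22132 c20460 k0))) (by decide +kernel)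
def c23181 : PP 9 3 T 0x8000000000000040000020000000000000000000000000000000001000000010000000000000000010000000000000000040000000000000000048000000 := rS 0x165125aaab6aa97ec450e6b46ac7e66d (k8 c22545 c18955 c5506 c5505 c5523 c5373 c5371 c1075 (k4 c1906 c23062 c20788 c1344 (k2 c20930 c5685 (k1 c2456 k0)))) (by decide +kernel)
def c23182 : PP 9 3 T 0x8000000000000050000120000000000000000000080000000000001000000000000000000000000010000000000000000000000004000000000000010002 := rS 0xb2892d554a97eeca228735ced62fff986cce8d393d43e6d (k8 c22545 c5517 c5519 c17749 c5505 c931 c23181 c18955 (k8 c5586 c5506 c18477 c5523 c5373 c5371 c18775 c5405 (k4 c5489 c20788 c1344 c20930 (k2 c5685 c2456 k0)))) (by decide +kernel)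
def c23183 : PP 9 3 T 0x8000000000000040000120040000000000000000000000000000000000000000000000000000000010000000000000000000000000000000000000000002 := rS 0x700fb3da06c9603789ef61150fbd6774a3f98e5267469c82358 (k8 c23096 c5558 c17749 c5505 c931 c19356 c19420 c806 (k8 c23175 c18477 c5519 c5517 c23132 c5209 c5372 c9696 (k8 c28 c5342 c23181 c23182 c18383 c23086 c5649 c23142 k0))) (by decide +kernel)
def c23184 : PP 9 3 T 0x8000000000000040000120040000000000000000000000000000000000000000000000000000000000000000000000000000000000000000000000000002 := rS 0x1b681c0decd59f37fa34864b01bc4f7b09dd28fe7208d60c729 (k8 c19356 c19420 c23096 c5558 c17749 c806 c23175 c18477 (k8 c5209 c5372 c9696 c28 c5342 c5561 c5505 c5586 (k8 c18955 c23183 c5490 c1908 c5649 c18775 c23142 c23086 k0))) (by decide +kernel)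
def c23185 : PP 9 3 T 0x2000000000000000000000000000000000000200080000000000000000040000000000000000000000000000000000000000000000100000000000000000 := rS 0x3fde70123bdc92f5 (k8 c5519 c5334 c5333 c5562 c5502 c5540 c5544 c18038 k0) (by decide +kernel)
def c23186 : PP 9 3 T 0x4000100000000000009000000004000000000002000000000000000000000000010000020000000 := rS 0x25866fc (k4 c334 c388 c1239 c20460 k0) (by decide +kernel)
def c23187 : PP 9 3 T 0x40000120040000000000000000000000000000000000000000000000000000000020000000000000000000000000000000000000000002 := rS 0x4b0cdf8fe79c07e5ed81b3d6a9cdab840c803eaac6a1c1886c8bb3219048e0378c44f60d49a6cc2954cec1ee4905bd6774a3f9c8235831ca7c7ef (k8 c23184 c23180 c19356 c19420 c23096 c5558 c17749 c806 (k8 c23175 c18477 c5519 c5516 c5334 c5333 c5209 c5447 (k8 c5446 c5445 c5397 c5444 c5522 c5372 c5371 c9696 (k8 c28 c5562 c5340 c5561 c5490 c2887 c1908 c9332 (k8 c5649 c331 c2121 c23119 c5670 c12653 c1716 c23086 (k8 c23099 c1343 c1651 c2035 c23185 c5201 c5592 c23186 (k4 c18038 c2893 c23098 c1239 (k1 c20460 k0)))))))) (by decide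 +kernel)
def c23188 : PP 9 3 T 0x4000100000000000000000000000100000000000010000000000041000000000004000000000082 := rS 0x17c06f1 (k4 c9696 c28 c1451 c23057 k0) (by decide +kernel)
def c23189 : PP 9 3 T 0x44000120040000000000000000000000000000000000000000000000000000000000000000000000000000000000000000000000000002 := rS 0x6f8fc727c042040ee171fcb6a33f6bf4341d580f4831d25bc41a8f649852bb00fcee94af3f98e53e3f799d5a7208d60ae05 (k8 c21870 c21872 c23096 c5558 c17749 c23187 c932 c23184 (k8 c23180 c19356 c19420 c806 c20812 c23175 c18477 c5517 (k8 c5209 c5446 c5445 c5396 c5526 c5522 c9696 c5342 (k8 c5341 c5340 c5560 c5683 c2177 c5649 c20237 c18807 (k8 c2043 c23062 c5201 c5549 c5591 c23188 c12653 c5643 (k4 c5670 c273 c276 c2829 (k1 c17954 k0))))))) (by decide +kernel)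
def c23190 : PP 9 3 T 0x5004000000000058000100040000000000000000080004000100000000040000000000000000000000000000400041000000000000000000000000001040 := rS 0x1a917bcff59f87e6e06f8fc72313e38c10811e90497584fec09257 (k8 c21872 c5334 c5209 c5448 c23096 c5342 c5340 c5560 (k8 c12653 c5643 c17330 c5670 c20764 c273 c276 c2829 (k8 c17954 c5591 c5460 c2898 c20587 c5204 c9612 c5450 (k1 c23119 k0)))) (by decide +kernel)
def c23191 : PP 9 3 T 0x40000120040000000000000000000000000000000000000000000000000000000000000000000000000000000000000000000000000002 := rS 0x33fc2324e0199b03557b76aa97ea5f646756fbfc67f39046b1113da1c1a6b3ca3cc6c94d9852a99d84a62af705cee946d (k8 c22545 c23175 c18477 c5516 c5333 c23132 c19356 c5209 (k8 c5447 c5446 c5445 c5397 c5396 c19420 c5526 c5524 (k8 c5523 c5522 c5373 c5372 c5371 c23096 c5558 c17749 (k8 c806 c23180 c23184 c23187 c932 c23189 c5404 c5405 (k8 c5489 c18383 c20915 c20788 c2200 c2075 c23190 c23099 (k4 c23188 c5458 c1650 c12046 k0)))))) (by decide +kernel)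
def c23192 : PP 9 3 T 0x120040000000000000000000000000000000000000000000000000000000000000000000000000000000000000000000000000082 := rS 0xf0b7d01e34e31cfa7f2f8f482033d834c69b30a67612905d29971248c44d71547fcd6ab339ed8e21137896b06d (k8 c22545 c23096 c5559 c1060 c5558 c667 c23191 c5419 (k8 c5574 c5422 c17922 c5526 c23132 c5523 c5371 c5374 (k8 c3604 c5420 c23175 c5516 c19356 c5209 c5447 c5445 (k8 c5397 c19420 c5522 c5372 c28 c5340 c5560 c1451 (k8 c676 c1456 c674 c23099 c13779 c18032 c2512 c5458 (k1 c23118 k0)))))) (by decide +kernel)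
def c23193 : PP 9 3 T 0x40000000000000088000000000000000000000000000000000000000100004000000000040100000000010000004000014440000000000000000000000000 := rS 0x802a919ef54bf5626d (k8 c22545 c5421 c5405 c5489 c11200 c18613 c20788 c6368 (k1 c2141 k0)) (by decide +kernel)
def c23194 : PP 9 3 T 0x44005000000000080000000000000000000000000000000000000001000000000000000400000000008010010000000000000000000000000000000000000 := rS 0xef2bfdacb (k4 c5420 c5500 c1286 c5204 (k1 c17832 k0)) (by decide +kernel)
def c23195 : PP 9 3 T 0x45005000000000014000000000000000000000200000004000100000000000001000000000000000004000000000020000000000000000001004000000000 := rS 0x440e0d437de (k4 c5204 c19296 c5450 c5649 (k2 c23119 c335 k0)) (by decide +kernel)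
def c23196 : PP 9 3 T 0x2000000000000004000020000000000000000000080000000000000000000001000000000000000000000000000000000040000000000000000000000000 := rS 0x385a0d835ee0b7acec1e05 (k8 c21870 c21871 c18477 c5519 c5516 c5333 c5522 c18807 (k2 c20874 c5649 (k1 c1994 k0))) (by decide +kernel)
def c23197 : PP 9 3 T 0x45005000000000094000000000000000000000200000004000100001000000001000000000000000000010010000020000000000000000001000000000000 := rS 0x2ac4ed7 (k4 c20802 c5570 c23194 c23195 k0) (by decide +kernel)
def c23198 : PP 9 3 T 0x5000000000080000020000000000000000200080000000000001000000000000000000100000000010010000020000040000000000001000000000002 := rS 0x57a37ddedd9bc50f299dac55bb5f9bfe2473378952311388456ab335a3da66d (k8 c22545 c20757 c5526 c5523 c5574 c5422 c5558 c667 (k8 c5371 c5374 c5559 c1060 c5419 c3604 c20798 c17922 (k8 c9399 c5573 c5421 c18477 c19356 c5373 c9696 c23193 (k4 c23196 c23197 c5505 c5584 (k1 c20793 k0))))) (by decide +kernel)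
def c23199 : PP 9 3 T 0x4000000000000000120040000000000000000000000000000000000000000000000000000000000000000000040000000000000000000000000000002 := rS 0x117de350e06ccc7c50b252b3b138c42c1914ec3c2e01fb8cf23904036943d25b7d020794906247337895231138846b0b559ed8d71547814da57 (k8 c21872 c22545 c21870 c5526 c23132 c5523 c23191 c5574 (k8 c5422 c23096 c5558 c667 c5371 c5374 c5559 c1060 (k8 c5419 c3604 c5340 c19356 c23192 c12653 c2513 c5342 (k8 c5560 c23175 c5522 c5643 c273 c5524 c17330 c276 (k8 c17954 c5460 c5209 c8199 c6205 c17858 c20764 c5570 (k8 c18477 c5446 c5396 c5398 c5670 c23198 c1903 c664 (k4 c1620 c23142 c335 c23119 k0))))))) (by decide +kernel)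
def c23200 : PP 9 3 T 0x4000000000000000000000000000000000000200000004000100000000000000000000000000000000000000000020000080000000000001004000800002 := rS 0x451a8703605 (k4 c21870 c1903 c664 c1620 (k2 c335 c23119 k0)) (by decide +kernel)
def c23201 : PP 9 3 T 0x8000000000000000000120040000000000000000000000000000000000000000000000000000000000000000000040000000000000000000000000000002 := rS 0x1b0eabc8a8d1490e3af137894e211ac4a44eb156ed80e05 (k8 c21870 c23192 c23191 c5573 c5421 c5570 c19356 c23096 (k8 c5558 c667 c5559 c1060 c9696 c5341 c5561 c8199 (k4 c5505 c5582 c5584 c23142 (k2 c18705 c3582 k0)))) (by decide +kernel)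
def c23202 : PP 9 3 T 0x8000000000002000000000000000000000200000004000100000000000001000000000400000100000000000000000000000000000005004004800000 := rS 0xd9875aa441a8f5aed3 (k8 c5579 c5465 c5560 c1620 c23097 c21481 c335 c17820 (k1 c5649 k0)) (by decide +kernel)
def c23203 : PP 9 3 T 0x120040000000000000000000000000000000000000000000000000000000000000000000040000000000000000000000000000002 := rS 0x5540552fd4619c35eff10587e1914bc50fb00fbd6774a6589d63f37fc48e66f12a46227108d616ab3db1ae2a8f198c41007949b40a57 (k8 c21872 c21870 c22545 c19356 c23192 c5643 c20764 c20297 (k8 c5526 c23132 c5523 c23191 c5574 c5422 c23096 c5558 (k8 c667 c5371 c5374 c5559 c1060 c5419 c3604 c20798 (k8 c17922 c5421 c5570 c5420 c23175 c18477 c5519 c5517 (k8 c5209 c5373 c9696 c8199 c6205 c276 c17858 c23199 (k8 c23201 c23202 c1903 c18705 c1075 c1906 c2141 c20788 (k1 c6368 k0))))))) (by decide +kernel)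
def c23204 : PP 9 3 T 0x1000000000080000020000000000000000000080000000000000000000000000000000000000000010000000080014000000000000000001008000000 := rS 0xeffbcec8c57fb4ceb156fcd6ab339f8c0a6d (k8 c22545 c21870 c5577 c5419 c5574 c5422 c17922 c5573 (k8 c5421 c1903 c18807 c1077 c18705 c20444 c5505 c5493 (k1 c5204 k0))) (by decide +kernel)
def c23205 : PP 9 3 T 0x4000000000000000000000000000000000000000000004000100000000000000000000000000000000000000200180000000000000010005000000000000 := rS 0xef8d4ecd3 (k4 c2084 c807 c19606 c5493 (k1 c5653 k0)) (by decide +kernel)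
def c23206 : PP 9 3 T 0x440001000000000000001100041000000000000000080000000000040000000000000040000000000000000001000180000000000000000140000000000200 := rS 0x39582e961c93c9e3 (k8 c5577 c5190 c23114 c5468 c5472 c5618 c5622 c23109 k0) (by decide +kernel)
def c23207 : PP 9 3 T 0x400001000000000080012020004000000000000000080000000000000000000001000000000000000000000004000080414000000000000005000004000000 := rS 0x365b7de1a873668d94cefe6b5599cfc66d (k8 c22545 c5577 c5419 c5574 c5422 c17922 c18477 c19356 (k8 c807 c18613 c5649 c331 c5653 c5455 c5497 c23116 k0)) (by decide +kernel)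
def c23208 : PP 9 3 T 0x120040000000000000000000000000000000000000000000000000000000000000000000000000000000000000000000000000002 := rS 0x3648d0eb5c69df3b690378dc7fde37e171318fbe33f0e752316f820668103fce24b539acf6d3b2692695151ba8527b031ca7128f3c9ac1a913dc4482f18f9bc4a7108d60ae6d (k8 c22545 c21872 c23096 c5558 c667 c5559 c1060 c9712 (k8 c9696 c5340 c5371 c5372 c5374 c5522 c5523 c5524 (k8 c5526 c5527 c19356 c19420 c5209 c5444 c5398 c20063 (k8 c23132 c23175 c5334 c5521 c18477 c23191 c5574 c5419 (k8 c5422 c3604 c17922 c23192 c12653 c20297 c5643 c2513 (k8 c20764 c17686 c273 c23203 c5577 c95 c809 c810 (k8 c5535 c4788 c23113 c23112 c2926 c23204 c23206 c23207 (k4 c5493 c5653 c1763 c331 (k2 c808 c5649 (k1 c18613 k0)))))))))) (by decide +kernel)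
def c23209 : PP 9 3 T 0x40000000000000082000110040000000000000000000000000000000200000000000000000000000000000000000080000000000001000000000000000200 := rS 0xb8fcbe134ea43c01914d6227e3 (k8 c5577 c22991 c23096 c8199 c6205 c5188 c19538 c5458 (k4 c3036 c1267 c275 c1506 (k1 c17858 k0))) (by decide +kernel)
def c23210 : PP 9 3 T 0x4000000000000000000000000000004000100000000000001000000000000000000000004000000800000000000000004000004000000 := rS 0x1c1a77c6257 (k4 c21872 c1913 c5493 c5653 (k2 c5649 c331 k0)) (by decide +kernel)
def c23211 : PP 9 3 T 0x80000000000000086000000000000000000000200080000000100000000001000000000001000000000000000100000840000000000000104000000000002 := rS 0x2b95467f696e741b8e91de26f129c4223b7b8dd26b156ed62a05 (k8 c21870 c5590 c9399 c5573 c5421 c5444 c5518 c5333 (k8 c5332 c5558 c667 c5559 c1060 c9696 c5562 c5341 (k8 c18705 c23210 c5474 c17748 c663 c13811 c20793 c1286 k0))) (by decide +kernel)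
def c23212 : PP 9 3 T 0x80001000000000000000000000000000000000200000000000100000000000000000000011000000000000000200080800000000000000004000000000000 := rS 0x1ed67ce9adef20c748e81ef8c5c657 (k8 c21872 c5549 c1913 c5493 c194 c5562 c5341 c5340 (k4 c5505 c808 c23205 c1769 (k2 c17748 c5688 k0))) (by decide +kernel)
def c23213 : PP 9 3 T 0x100040000000000000000080000000100000000000000000000000000000000000000000080800000000000000000000000000002 := rS 0xd9a359a78f0fc872c768bf621b5db1ccf608d818cde2538e74660708d609257 (k8 c21872 c5334 c23096 c5558 c676 c20297 c23208 c667 (k8 c5559 c1060 c19420 c5209 c5643 c17741 c806 c17749 (k8 c9399 c17712 c20808 c23003 c796 c274 c23209 c7694 (k4 c5669 c20785 c23212 c18613 (k1 c23211 k0))))) (by decide +kernel)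
def c23214 : PP 9 3 T 0x100000000000000000000000008000000000000000000000000000000000000000002000000000000000001000000000000010000 := rS 0xb645 (k2 c5326 c5474 (k1 c21230 k0)) (by decide +kernel)
def c23215 : PP 9 3 T 0x80000100040000000000000000080000000000000000000000000000000000000000000000000080800000000000000000000000000002 := rS 0x1a494f7cec37b346a412efdf998a21b1daab56219219063a4b23bc4de2538b56279df18cc0e11ac3dc92f5efca00a57 (k8 c21872 c21870 c23213 c5493 c5519 c5334 c5333 c23096 (k8 c5558 c676 c20297 c5577 c23208 c22991 c20749 c667 (k8 c5559 c1060 c9696 c5562 c5342 c5341 c5340 c5561 (k8 c6205 c5421 c5573 c9399 c17758 c17712 c16365 c22079 (k8 c20808 c20807 c19538 c10035 c20841 c18705 c23214 c22847 (k2 c9823 c10131 (k1 c2018 k0))))))) (by decide +kernel)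
def c23216 : PP 9 3 T 0x40000100000000000000000000000000000000000000000000000000000000000000000000000080000000000000000000000000010002 := rS 0x18b6072 (k4 c17749 c18926 c806 c5395 k0) (by decide +kernel)
def c23217 : PP 9 3 T 0x14000010000000000000000000000000000000000000001050000000010000000000000104000000400404000000000001000020000200 := rS 0xcf1abcd566d (k4 c22545 c2121 c334 c331 (k2 c13265 c18108 k0)) (by decide +kernel)
def c23218 : PP 9 3 T 0x2000100040000000000000000080000000000000000000000000000000000000000000000000080000000000000000000000000000002 := rS 0x2afdaae9d19c3acd3c7862bf21c9ec103163ca5329531a4c7a418e91de233039cd62ad1dbdc92377a9ac3ed17ec436b9dd986d1a77389bc4bb608d60ae05 (k8 c21870 c21872 c23096 c5558 c23216 c5559 c1060 c667 (k8 c23215 c807 c18705 c18613 c23208 c9399 c17712 c20808 (k8 c23003 c5517 c1058 c5519 c5518 c5334 c5333 c5332 (k8 c5573 c5421 c5419 c676 c20297 c9696 c5562 c5341 (k8 c5340 c5560 c5444 c5395 c5446 c5447 c17815 c796 (k8 c9332 c5643 c17741 c274 c23209 c5590 c7694 c5669 (k8 c20785 c23217 c664 c5649 c20793 c17748 c1286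 c13811 k0))))))) (by decide +kernel)
def c23219 : PP 9 3 T 0x100040000000000000000080000000000000000000000000000000000000000000000000080000000000000000000000000000002 := rS 0x3579b3c3901f7cedfeae66a40ce97188e7c1f3314a362d17ea362077dabd46e497b8ec82f137894e2d589e77c633039cd62addb046b057 (k8 c21872 c23096 c5558 c23216 c5573 c5421 c5419 c676 (k8 c20297 c5577 c23208 c22991 c20749 c667 c5559 c1060 (k8 c9696 c5340 c5332 c5333 c5334 c5518 c5519 c9399 (k8 c23215 c17712 c807 c20808 c23003 c23218 c5209 c16365 (k8 c22079 c5235 c5317 c5434 c20807 c777 c19538 c5537 (k8 c20793 c20750 c23214 c5584 c3071 c10145 c8707 c334 (k2 c332 c3587 k0))))))) (by decide +kernel)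
def c23220 : PP 9 3 T 0x100000000000000000000000000000000000000000000000000000000000000000000100000000040000000000000004020050000 := rS 0xb645 (k2 c335 c1994 (k1 c20834 k0)) (by decide +kernel)
def c23221 : PP 9 3 T 0x100000000000000000000000000000000000000000000000000000000000000000000000080400008000000000000001000050002 := rS 0xb6459d07437b333a35e26f3889f6c05 (k8 c21870 c23216 c5570 c667 c1060 c9696 c807 c777 (k4 c18613 c18705 c23220 c5649 (k2 c5326 c5474 (k1 c20834 k0)))) (by decide +kernel)
def c23222 : PP 9 3 T 0x1000100000000000000000200000008000000000000000000000000000000000000000040000080800000000000004000000000000002 := rS 0x321ac95d996c8a7358ed823df (k8 c5493 c5558 c23216 c5421 c5419 c5326 c5474 c17807 (k4 c9916 c19059 c5678 c2189 k0)) (by decide +kernel)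
def c23223 : PP 9 3 T 0x400000000085000000000000000000000000000004000000000000000001000000000000000000000050000080014000000000000004001000000000 := rS 0x118d70d3216205 (k4 c21870 c5421 c5678 c9823 (k2 c2189 c18705 (k1 c808 k0))) (by decide +kernel)
def c23224 : PP 9 3 T 0x5000100040000000000000000000000000000000000000000000000000000000000000000000080000000000000000000000000000002 := rS 0x34476f7719e0180bf91a923ef798d518cd0d870b4d364a50524b2380de26f38c4fc63303acc4e735aab76c2154bd7694b3de7463df9d9d8261112a5cc43f945600a57 (k8 c21872 c21870 c23096 c5209 c5318 c16365 c20807 c5559 (k8 c5558 c2917 c23221 c23222 c5493 c5434 c23208 c20101 (k8 c23219 c5211 c20218 c5531 c5528 c23216 c5573 c5422 (k8 c5419 c5570 c5574 c676 c20297 c5577 c22991 c667 (k8 c1060 c9696 c28 c5562 c5342 c8199 c23223 c97 (k8 c2018 c9916 c10191 c1904 c2016 c18854 c332 c333 (k8 c5505 c10035 c13132 c19538 c2306 c1059 c1174 c5549 (k4 c2102 c290 c20803 c22882 k0)))))))) (by decide +kernel)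
def c23225 : PP 9 3 T 0x1000100040000000000000000000000000000000000000000000000000000000000000000000080000000000000000000000000000002 := rS 0x1a2f31dbdd9a3581b8cf01e06359a7eff91a918917eec8f662940a4824b239bc4a7140c4fc6b3139cd62b5db046b0f5da52f3a05 (k8 c21870 c23208 c23219 c5211 c20218 c23096 c5558 c23216 (k8 c5422 c5421 c5419 c5570 c5574 c5577 c22991 c194 (k8 c667 c5559 c1060 c5562 c5342 c5340 c8199 c5209 (k8 c16365 c20101 c23224 c5405 c20841 c18613 c13132 c19538 (k8 c5505 c2084 c808 c1059 c1058 c1174 c5549 c5550 (k4 c19606 c2191 c20809 c290 (k2 c2532 c20803 (k1 c22882 k0)))))))) (by decide +kernel)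
def c23226 : PP 9 3 T 0x4000000000000000000000000000000000000000000000100000000004054000000111000000110010000100000054000000000000555000000000002 := rS 0xd3f7ab8ce5b6bf7e74ce (k8 c3587 c23020 c5453 c1770 c5474 c663 c20793 c5584 (k2 c2940 c5689 k0)) (by decide +kernel)
def c23227 : PP 9 3 T 0x4000000000000000000000000000000000000000000000009000000000000000000000000000000000000000000000000000104000000 := rS 0x3b3b (k2 c5325 c333 (k1 c5649 k0)) (by decide +kernel)
def c23228 : PP 9 3 T 0x100040000000000000000000000000000000000000000000000000000000000000000000080000000000000000000000000000002 := rS 0x3b3b1a3cdee1b1b83366ff4682d20cd1cb447631f9f80112950a4f60f510ed296ad589cf6c3303c4dabe31e905e26f129c42358ce8141e57 (k8 c21872 c21871 c21870 c23208 c23096 c5558 c667 c5559 (k8 c1060 c9696 c5340 c5560 c5577 c20749 c22991 c676 (k8 c20297 c23216 c5419 c5421 c5573 c23219 c5211 c5528 (k8 c20218 c23225 c5444 c5398 c17815 c5643 c5215 c13608 (k8 c20764 c5456 c5459 c5534 c5537 c19538 c12878 c10035 (k8 c20750 c20841 c13457 c1511 c18705 c20809 c23227 c23226 (k2 c5324 c331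 (k1 c5649 k0)))))))) (by decide +kernel)
def c23229 : PP 9 3 T 0x4000000000000000000000000000000000000000000000001000000000000000000000004000000000000000000000020000004000000 := rS 0x3b3b (k2 c5324 c331 (k1 c5649 k0)) (by decide +kernel)
def c23230 : PP 9 3 T 0x100040000000000000000000004000100000000000000000000000000000000000000000140000000000000100015000000000000 := rS 0x78cfad3ef3547b58 (k8 c23096 c5560 c21481 c5653 c5496 c23111 c23097 c5670 k0) (by decide +kernel)
def c23231 : PP 9 3 T 0x100040000000000000000000004000100000000000000000000000000000000000000000100040000000000100011000000000002 := rS 0x7d2f81812321e9bc4a7108d60fe63509876057 (k8 c21872 c5209 c5445 c5398 c19420 c23228 c23096 c5558 (k8 c667 c5559 c1060 c5560 c23230 c20738 c20297 c1055 (k2 c1456 c9934 k0))) (by decide +kernel)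
def c23232 : PP 9 3 T 0x80000000000000000000000000000000000000000000000000000000000100000000010010100240014045000000000000000000000000 := rS 0x571cd62adf1b54becb (k8 c5420 c1746 c20766 c5463 c5573 c5421 c5419 c20793 (k1 c22953 k0)) (by decide +kernel)
def c23233 : PP 9 3 T 0x8000000000a2000000000000000000000200000004000000000000000054000000000000000000000000000000000000000000000000000000000000 := rS 0x3db4b (k2 c9399 c17700 (k1 c5657 k0)) (by decide +kernel)
def c23234 : PP 9 3 T 0x800000000086000010000000000000000200000004000000000000000054000000000000000004000000000000000080000000100000000000000002 := rS 0xff81c0550867e926214ada91d66ad (k8 c5573 c5574 c5562 c23233 c5211 c17712 c5334 c20808 (k4 c882 c883 c13274 c10690 (k2 c2452 c18038 k0))) (by decide +kernel)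
def c23235 : PP 9 3 T 0x80000100040000000000000000000004000100000000000050000000000000000000000000100000000000000000000000000000000002 := rS 0x1b4103cbbc5a331dc0c5f40115561c20e74fecb139ccc6a16498462951aa4f601bd99bc4a7108d61e205 (k8 c21870 c9696 c23096 c5558 c667 c5559 c1060 c18613 (k8 c18705 c5209 c5444 c23229 c5446 c9332 c5445 c5396 (k8 c5398 c19420 c5419 c5570 c5420 c23228 c23208 c5340 (k8 c5649 c2121 c335 c23231 c1746 c12653 c938 c23232 (k4 c663 c9931 c23234 c333 (k2 c20175 c5528 k0)))))) (by decide +kernel)
def c23236 : PP 9 3 T 0x800000000000000100040000000000000000000008000000000000000000000000040000000000000000000140000000000000000011000000000000 := rS 0xfbe319b56b045 (k4 c5326 c23096 c5454 c5492 (k2 c17693 c23111 (k1 c5670 k0))) (by decide +kernel)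
def c23237 : PP 9 3 T 0x4004400000000000000100040000000000000000000000000000000000000000000000140000000000000000000140000000000000000000000000000000 := rS 0x1ac7c (k2 c5670 c5689 (k1 c20802 k0)) (by decide +kernel)
def c23238 : PP 9 3 T 0x4000400000000080000100040000000000000000000008000100000000000000000000140000000000000000000100000000000000000000000000000002 := rS 0x1f4be06048c87fe20c8f63a6f129c423583fa7d9673319876057 (k8 c21872 c5209 c5445 c19420 c5419 c5420 c5572 c23228 (k8 c23096 c5558 c667 c5559 c1060 c5341 c5560 c6205 (k8 c23237 c5576 c17803 c20738 c20297 c1055 c1456 c22861 k0))) (by decide +kernel)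
def c23239 : PP 9 3 T 0xa0000010040000000000000200000000000100000000000000000400000000000000000000000000000000000000000000000000000000 := rS 0x52d96b5 (k4 c5422 c5420 c9399 c17886 k0) (by decide +kernel)
def c23240 : PP 9 3 T 0x80000100040000000000000000000008000100000000000000000440000000000000000000000000000000000000004000000000000202 := rS 0xe11ca44f0c724c4295b5088f4824bce98cbc160c8a6b1b0 (k8 c5209 c23096 c8199 c6205 c17858 c1506 c19420 c23208 (k8 c5342 c5340 c5560 c5558 c23239 c5211 c17712 c5334 (k4 c796 c1268 c23214 c274 (k2 c1542 c17954 k0)))) (by decide +kernel)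
def c23241 : PP 9 3 T 0x80000100040000000000000000000008000100000000000000000040000000000000000000100020000000000000000000000000000002 := rS 0x156fd439ad5311814499c9d7117810071ead532161fb53be35498c5e3b30db4fdeae56ac4e6813396d2a6164a84c67f38844de25228645358d81b4ae05 (k8 c21870 c21872 c22545 c5209 c23096 c8199 c6205 c5326 (k8 c5559 c1060 c5558 c667 c23228 c19420 c5398 c5396 (k8 c5445 c5446 c5474 c663 c23232 c5419 c5421 c5573 (k8 c20793 c5584 c2940 c18705 c18613 c9696 c9332 c5444 (k8 c23229 c23236 c23238 c2996 c17858 c5447 c5422 c5560 (k8 c1456 c5643 c1506 c23240 c4183 c1662 c1552 c1663 (k4 c1267 c2450 c2600 c958 (k2 c2631 c2199 (k1 c20788 k0))))))))) (by decide +kernel)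
def c23242 : PP 9 3 T 0x80000100040000000000000000000008000100000000000000000040000000000000000000100000000000000000000000000000000002 := rS 0xe304788bc7d1fb53be35498c5e3b30db4fdeae56ac4e6813396d2a6164a8760633f9c4226f12d608a05 (k8 c21870 c5326 c23096 c5559 c1060 c5558 c667 c23228 (k8 c19420 c5209 c5398 c5396 c5445 c5446 c5474 c663 (k8 c23232 c5419 c5421 c5573 c20793 c5584 c2940 c18705 (k8 c18613 c9696 c9332 c5444 c23229 c23236 c23238 c2996 (k4 c23241 c18032 c5670 c1055 (k2 c5466 c23240 k0)))))) (by decide +kernel)
def c23243 : PP 9 3 T 0x80000100040000000000000000000008000100000000000000000000000000000000000000100000000000000000000000000000000002 := rS 0x7eaa7daabdad2998fe81c55c7e16f35da9df69fbd02ae3396c8b9d3facce6b15698d42c94d98462951aa4f601bd99bc4a7108d61e205 (k8 c21870 c9696 c23096 c5558 c667 c5559 c1060 c18613 (k8 c18705 c5209 c5444 c23229 c5446 c9332 c5445 c5397 (k8 c5396 c5398 c19420 c5573 c5421 c5419 c5574 c23228 (k8 c23208 c5326 c5474 c663 c20793 c23232 c5584 c2940 (k8 c23236 c23238 c206 c23242 c5538 c207 c4935 c2517 (k8 c3002 c3003 c5215 c23239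 c1286 c23185 c2452 c2504 (k1 c5682 k0))))))) (by decide +kernel)
def c23244 : PP 9 3 T 0x10000000000000000000000000000000000000000020000000000000000000000000000000000000000000000000000000000002 := rS 0x36b4b (k2 c5519 c20218 (k1 c5211 k0)) (by decide +kernel)
def c23245 : PP 9 3 T 0x80000100040000000000000000000004000100000000000000000000000000000000000000100000000000000000000000000000000002 := rS 0x317cf6c74ea03c111da1141b4bf687062357b06f6641789bc4a7108d61eb9d6589ce66349a6cc2954cec0da05 (k8 c21870 c22545 c5209 c5447 c5446 c5445 c5397 c5444 (k8 c19420 c5419 c5570 c5420 c23208 c23244 c23096 c5558 (k8 c667 c5559 c1060 c9696 c5340 c18613 c18705 c23235 (k8 c23229 c9332 c5649 c5498 c5333 c20809 c335 c5228 (k8 c9727 c5215 c23231 c5412 c5535 c5457 c1746 c12653 (k1 c20132 k0)))))) (by decide +kernel)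
def c23246 : PP 9 3 T 0x80000100040000000000000000000004000100000000000080000000000000000000000000000000000000000000000000000000000002 := rS 0x3c97d00457f8c46a8f89344f6c71da74146bf06d2220da58a44a4b239c42358ceacd962739ad4c69b30a676091461b40a0f (k8 c21871 c21870 c22545 c23245 c10035 c5209 c5447 c5445 (k8 c5397 c19420 c5422 c5419 c5570 c5420 c5574 c23208 (k8 c23096 c5558 c667 c5562 c5342 c5559 c8199 c5333 (k8 c20809 c9727 c5211 c5215 c1059 c5645 c5412 c5456 (k8 c5535 c5457 c5459 c13132 c2311 c501 c2105 c20798 (k4 c504 c23231 c1746 c1751 (k1 c3598 k0))))))) (by decide +kernel)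
def c23247 : PP 9 3 T 0x200040004000000000000050054000000000000000000000000000000000000000001100000000000000000 := rS 0x3fbd847 (k4 c5562 c5657 c18038 c5544 k0) (by decide +kernel)
def c23248 : PP 9 3 T 0x2000000000000000000000000000000000000000000000008000000000000000000000000000000000000000000000080000100000082 := rS 0x601d (k2 c333 c2535 (k1 c20134 k0)) (by decide +kernel)
def c23249 : PP 9 3 T 0xa0000100040000000000000000000004000100000000000000000000000000000000000000000200000000000000000000000000000002 := rS 0x334b113d8f31b40cf08e8087a2649060d40c5f6a8a44a412591de2237aacc4e634d9852a99d83de229d8a887e63b639fcf6e2ceb2e97585aa45186d (k8 c22545 c23245 c10035 c5422 c23096 c9399 c5420 c23208 (k8 c17886 c1776 c23228 c2620 c8999 c13608 c5528 c5414 (k8 c5412 c5411 c23246 c5209 c5447 c5446 c5445 c5397 (k8 c19420 c5570 c5574 c23244 c9731 c9696 c5562 c5342 (k8 c5340 c5559 c8199 c20766 c1746 c12653 c20806 c20132 (k8 c294 c2598 c3584 c19568 c5675 c13204 c20799 c1454 (k4 c23248 c5657 c23247 c17891 (k2 c390 c20460 k0)))))))) (by decide +kernel)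
def c23250 : PP 9 3 T 0xa0000100040000000000000000000004000100000000000000000000000000000000000000000000000000000000000000000000000002 := rS 0xf333828620d358202d12038fcf881f1b8a9619148f497583fbd73acb13ad761ef463dc1e57 (k8 c21872 c21871 c23246 c23245 c5505 c5209 c5422 c5570 (k8 c5420 c23208 c23244 c23228 c23096 c5342 c5560 c8199 (k8 c6205 c9399 c17886 c5466 c23249 c5670 c2824 c1456 (k8 c1552 c17858 c5643 c2600 c2598 c20764 c5645 c23200 (k2 c20781 c20243 k0))))) (by decide +kernel)
def c23251 : PP 9 3 T 0x82000000000000000000000200080000000000000200000000000000000040000000000001000040000000000000000000010001000200 := rS 0xe370b7d38782f058723f1e90496cb (k8 c5420 c5342 c5340 c5560 c276 c274 c17858 c1506 (k4 c1268 c1267 c2388 c1542 (k2 c1777 c17954 k0))) (by decide +kernel)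
def c23252 : PP 9 3 T 0x80000000000000000000000200000000000000000200050054000000000000000000000000000000000080000001000000000000000002 := rS 0x3fc8aa80e11d6627 (k8 c5570 c5574 c5562 c664 c883 c335 c2452 c18038 k0) (by decide +kernel)
def c23253 : PP 9 3 T 0x1000000000080000100040000000000000000000004000100000000000004000000000000000000000000000000000000000000000000000000000002 := rS 0x7f3488bdf1935d5e6767c0cf5f223bd596a1649852bef7b9260313f19e46e1f11a65aa803e8187a7338844be096398e214adae75228cd80a4327f37896b057 (k8 c21872 c23096 c5559 c1060 c23228 c6205 c8199 c5209 (k8 c23245 c10035 c23208 c23250 c5211 c17712 c19420 c796 (k8 c23251 c1055 c5558 c667 c5419 c5560 c5643 c1456 (k8 c18032 c20766 c5447 c9731 c9664 c8484 c1454 c13779 (k8 c955 c19568 c5334 c23246 c5505 c5446 c5445 c5396 (k8 c5398 c5420 c23244 c5562 c5188 c5669 c5550 c20767 (k8 c23252 c22953 c22961 c23188 c17832 c390 c5689 c18038 (k1 c2943 k0)))))))) (by decide +kernel)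
def c23254 : PP 9 3 T 0x2000000000082000110000000000000000000000000000000000400000000000500000000000000000001000000004000000000000000000000000000 := rS 0x47453e6df4eacd3ecb5aa853699 (k8 c5447 c5397 c5398 c5422 c5420 c5572 c5574 c5458 (k4 c5538 c7694 c3620 c5675 (k1 c2844 k0))) (by decide +kernel)
def c23255 : PP 9 3 T 0x80000100040000000000000000000004000100000000000000000000000000000000000000000000000000000000000000000000000002 := rS 0xef334eded791ebc2e3709e4fa350317c12c768c4dfa37885283fb548a3032291e88cde25ac674fe7331a676057 (k8 c21872 c5209 c5447 c19420 c5419 c23228 c23208 c23096 (k8 c5559 c1060 c9731 c5560 c8199 c6205 c23245 c10035 (k8 c23250 c9664 c5211 c17712 c8484 c20808 c955 c23003 (k8 c796 c23251 c1055 c5643 c20806 c1456 c1454 c21491 (k8 c13204 c23254 c5669 c23253 c5540 c20175 c2501 c20893 (k1 c5493 k0)))))) (by decide +kernel)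
def c23256 : PP 9 3 T 0x80000100040000000000000000000000000100000200000000000000000000000000000000000000000000000000000000000000000002 := rS 0x25ceea90317fdafe04c0606497bb1e274ada864524b23d60fef5ceacce663649852bb022bccce5b48a327457 (k8 c21872 c23255 c23243 c10035 c5474 c663 c5325 c5326 (k8 c5209 c5446 c5445 c5396 c19420 c5419 c5574 c23208 (k8 c23244 c23228 c23096 c5562 c5342 c8199 c6205 c5411 (k8 c9727 c955 c796 c5333 c5334 c21406 c19568 c23251 (k8 c18038 c23185 c1055 c5643 c2452 c672 c19779 c20791 k0))))) (by decide +kernel)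
def c23257 : PP 9 3 T 0x40000000000000082000110000000000000000200040000000000000400000004000800000000000000000001000040000040000000100000000000000002 := rS 0xd62fbf9ee8024c0c188e3540452252591ce2117aacd962739ad41e05 (k8 c21870 c21871 c5422 c5419 c5570 c5420 c5574 c23244 (k8 c5558 c667 c5562 c5342 c5559 c8199 c19568 c13132 (k8 c5675 c1059 c20799 c2843 c2404 c20809 c18038 c1746 (k2 c2575 c22961 k0)))) (by decide +kernel)
def c23258 : PP 9 3 T 0x80000100040000000000000000000000000100000000000000000000000000000000000000000000000000000000000000000000000002 := rS 0x7e4050e0d35c49c5f3a5aa7691148fbcce8c2dbcc8b3ad812eb19d3fb2d6a0f (k8 c21871 c5422 c5420 c23228 c23208 c23096 c5342 c5209 (k8 c23255 c5326 c5325 c5474 c23243 c663 c5505 c10035 (k8 c23256 c17712 c5531 c9399 c13608 c17886 c23257 c2600 (k4 c2598 c8435 c2141 c20831 (k1 c23136 k0))))) (by decide +kernel)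
def c23259 : PP 9 3 T 0x4000000000000020000000000000000000000000000000000000000800010000000000000000001000000000000000000040000000000000000000000000 := rS 0x7ea1cd6a9 (k4 c5531 c2600 c959 c23136 (k1 c20831 k0)) (by decide +kernel)
def c23260 : PP 9 3 T 0xa0000010000000000000000200000000000000000800000005000000000000000000000000000000000040000000000000000000000004 := rS 0x45d9076761b2d3d90c8c57c03de47f99ad6aab889cc154b0692c1e6d (k8 c22545 c21871 c5342 c2598 c9399 c5645 c5419 c955 (k8 c20861 c5422 c2600 c5547 c5562 c22356 c23259 c20839 (k8 c22357 c2141 c693 c8435 c2103 c5474 c1994 c5649 (k2 c3067 c17812 k0)))) (by decide +kernel)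
def c23261 : PP 9 3 T 0x1000000000000000000000200000000000000000000000000000000000000000010004000000040000089000000004005004000000002 := rS 0x35daad31a914ec946487366431e9063a97 (k8 c20807 c5341 c5340 c5560 c5561 c5487 c664 c2064 (k8 c778 c777 c335 c332 c13297 c1589 c2188 c3588 k0)) (by decide +kernel)
def c23262 : PP 9 3 T 0x80000010000000000000000200000000000000000800000004000000000000000000000000000000000040000000000000000000000002 := rS 0x1b58880de273 (k4 c5419 c9696 c28 c955 (k2 c23260 c17712 k0)) (by decide +kernel)
def c23263 : PP 9 3 T 0x11000110040000000000000000000000000000000400000000000000000000000000000001000100000000000000004140000000000000 := rS 0x1c4df70a38923bf07ce943d2092c8f58 (k8 c23096 c5562 c5342 c5340 c5560 c5211 c22079 c5235 (k4 c5332 c5334 c5675 c5460 (k2 c5538 c3590 (k1 c2404 k0)))) (by decide +kernel)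
def c23264 : PP 9 3 T 0x80000100040000000000000000000000000000000400000000000000000000000000000001000000000000000000000000000000000002 := rS 0x71b85be491da68f00c3552f6829128f4824b239c4227f5989d6a391f8dcf79d4098b6328ac064e605 (k8 c21870 c5419 c6205 c23096 c23258 c17758 c16365 c937 (k8 c23208 c20101 c5435 c5318 c5317 c5422 c5570 c5574 (k8 c23228 c5558 c667 c5562 c5342 c5340 c5560 c5559 (k8 c8199 c23263 c9399 c13132 c1059 c1174 c1173 c290 (k4 c294 c2388 c1542 c2621 (k1 c3590 k0)))))) (by decide +kernel)
def c23265 : PP 9 3 T 0x4000100000000000000000000000000000000000000000001000000000000000000000002000000000040000001000000004004010000 := rS 0xe04e768d (k4 c10035 c23214 c3036 c5649 (k1 c23220 k0)) (by decide +kernel)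
def c23266 : PP 9 3 T 0x400000000005000000000000000000000000000000000000000000000054000000010000000001000140000000000000000000000545000020000000 := rS 0xce4a3346ac9 (k4 c2061 c332 c13053 c5678 (k2 c3587 c1587 k0)) (by decide +kernel)
def c23267 : PP 9 3 T 0xa5000100000000000000000200000000000200000000000015000000010000000080000002000004000008000002000000000404000000 := rS 0xcf66a68f06a1a879fb3a0ef7c76f70652d52991089422331c8c46e97f9aadfe0f (k8 c21871 c20750 c1287 c5589 c20807 c5435 c5434 c5317 (k8 c5316 c5558 c5559 c5528 c5530 c5531 c9399 c13457 (k8 c20809 c290 c17847 c23266 c10145 c22637 c3581 c5324 (k4 c2361 c1174 c1173 c20785 (k2 c2562 c3587 k0))))) (by decide +kernel)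
def c23268 : PP 9 3 T 0x80000100040000000000000000000000000000000000000004000000000000000000000000000000000000000000000000000000000002 := rS 0x297b5243455c1bd9b1d1a9089bc4466f129c422f539ac4f79d33988c207d8864623f19ca15a274f9feb005 (k8 c21870 c23096 c23228 c5572 c5570 c5573 c23258 c5316 (k8 c5318 c5434 c6205 c17758 c5432 c661 c16365 c23261 (k8 c23208 c20101 c5421 c5419 c23244 c5558 c667 c5559 (k8 c1060 c9731 c9696 c23262 c23264 c10035 c800 c20841 (k4 c18705 c20793 c20815 c23265 (k2 c23267 c5334 (k1 c5211 k0))))))) (by decide +kernel)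
def c23269 : PP 9 3 T 0x80000100000000000000000000000000000000000000000008000000000000000000000002000000000040000000000000001000010002 := rS 0x120401bd9a35e26f3889d6205 (k8 c21870 c5421 c5570 c667 c1060 c9696 c10035 c20841 (k4 c18705 c23227 c23265 c344 k0)) (by decide +kernel)
def c23270 : PP 9 3 T 0x80000100040000000000000000000000000000000000000000000000000000000000000000000000000000000000000000000000000002 := rS 0x14ada03623124882de467311876231038fc6728569cc4e9f0c894224bac674fe0f (k8 c21871 c23228 c23208 c23096 c5342 c5558 c5559 c6205 (k8 c5572 c5570 c5419 c5573 c23258 c5316 c5318 c5432 (k8 c5434 c17758 c661 c16365 c23261 c23268 c20781 c23269 (k4 c23264 c955 c2598 c17712 (k2 c5645 c9399 k0))))) (by decide +kernel)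
def c23271 : PP 9 3 T 0x1000100040000000000000000000000000000000000000008000000000000000000000000000000000000000000000000000000000002 := rS 0x3508acf803fd8d123ca3fdff3f0b80923ba5336060bf690c7a418e92c8e391fb5da60d719ef3adff14a12272db846b00f (k8 c21871 c23096 c5558 c23270 c17749 c9824 c5209 c5236 (k8 c5580 c23208 c20101 c5466 c14556 c5579 c5465 c5318 (k8 c5317 c5562 c5342 c5341 c5340 c5560 c5561 c5540 (k8 c20781 c2627 c2500 c5645 c5332 c5334 c17954 c21911 (k8 c17862 c21149 c2847 c1542 c5675 c5669 c20798 c21166 (k4 c20739 c9612 c21151 c3073 k0)))))) (by decide +kernel)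
def c23272 : PP 9 3 T 0x1400000000020000000000000000000000000000000000000000000004000000000201080000000000040000000080400000000000000000000000000 := rS 0x7e19fd88756b4552cf (k8 c20739 c5531 c1711 c2891 c799 c5688 c932 c20831 (k1 c5542 k0)) (by decide +kernel)
def c23273 : PP 9 3 T 0x20000000000000000000000000000000000000000000000000000000002000000000000000000004000408000000000000000000000000 := rS 0x664abf50e9788aad526d (k8 c22545 c5531 c5413 c5411 c20807 c2074 c2505 c2016 (k2 c20788 c778 k0)) (by decide +kernel)
def c23274 : PP 9 3 T 0x200000000000200000000000000000000440000000000000040000000080080000000000000000000000002 := rS 0x22ab038af (k4 c20812 c664 c932 c336 (k1 c18709 k0)) (by decide +kernel)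
def c23275 : PP 9 3 T 0x20000000000000000000000200000000000200000000004004000000441080000000000040000000080440000000100000000000000000 := rS 0xfcf621da2346af7c863d20c74663f18aa7c2cf (k8 c20739 c5535 c5531 c5434 c5318 c5316 c5341 c5340 (k8 c5560 c5561 c17979 c23272 c3588 c1705 c799 c5688 (k2 c20831 c5542 k0))) (by decide +kernel)
def c23276 : PP 9 3 T 0x20000000000000000000000000000000000000000800000004000000000000000040000000000000000440000000200000000000000000 := rS 0x40fdafc43c07dea9 (k8 c5531 c5582 c3067 c959 c20831 c5542 c2632 c21166 k0) (by decide +kernel)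
def c23277 : PP 9 3 T 0x2000000000000000000000000000000000200000000000200000800000000000000440000000000000000008000000000000000100000000000000800 := rS 0x1ed00 (k2 c959 c693 (k1 c18646 k0)) (by decide +kernel)
def c23278 : PP 9 3 T 0x1000100040000000000000000000000000000000800000000000000000000000000000000000000000000000000000000000000000002 := rS 0x33cee947e21c154b4df81a2c7ef9159aa94cc4768797ffcc863d20c755e3335835c67bceb7d22f333b4dafe24b98a5072db846b00f (k8 c21871 c23096 c5558 c23270 c17749 c5209 c16365 c20807 (k8 c5236 c5465 c5579 c23274 c23271 c9824 c5580 c23208 (k8 c20101 c5466 c14556 c1059 c5316 c20812 c5341 c5340 (k8 c5560 c5561 c5547 c20798 c2602 c5241 c5411 c5530 (k8 c5531 c23273 c23276 c17979 c23275 c20815 c10247 c5536 (k8 c21911 c5645 c23277 c20831 c10429 c2014 c1587 c20853 k0)))))) (by decide +kernel)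
def c23279 : PP 9 3 T 0xa000000000000000110000000000000000200000000000200000400000000000000000000000000000000000000000000000000000000000000001000 := rS 0xaf9d2c764123b8dbe0f (k8 c21871 c5580 c5466 c5562 c5340 c5456 c21911 c17862 (k2 c5645 c12878 k0)) (by decide +kernel)
def c23280 : PP 9 3 T 0x10000000000000000200000000000000000000000000000440000000000000000001000002000000000000004140000000001000 := rS 0x52c16e11e904960f (k8 c21871 c5342 c5340 c5560 c1542 c2307 c17954 c5645 k0) (by decide +kernel)
def c23281 : PP 9 3 T 0x1000000000020000000000000000000000200000000000200000000000004000100441080000000000040000000080440000000100000000000000000 := rS 0x1aa35687b5fddf218f4831d198fc62cf (k8 c20739 c5434 c5318 c5316 c5341 c5340 c5560 c5561 (k4 c17979 c23275 c5544 c5688 (k2 c1705 c1710 (k1 c3588 k0)))) (by decide +kernel)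
def c23282 : PP 9 3 T 0x1000100040000000000000000000000000000000000000000000000000000000000000000000000000000000000000000000000000002 := rS 0x7bcec92440552dc3f247b18f3e166c47691333bccd60d6fb4dc6d740a5c6e3f1cf88f662940f4824b7ae752272db846b00f (k8 c21871 c23096 c5558 c23270 c17749 c9824 c23208 c23244 (k8 c5342 c5340 c5560 c5209 c16365 c20101 c5236 c5317 (k8 c5318 c5435 c20807 c5463 c5465 c5466 c5579 c5580 (k8 c14556 c1059 c23271 c23274 c23278 c23263 c5411 c23273 (k8 c23279 c23280 c10247 c2486 c5675 c5591 c17954 c5645 (k4 c23281 c5588 c5326 c503 (k1 c20243 k0))))))) (by decide +kernel)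
def c23283 : PP 9 3 T 0x20000100040000000000000000000000000200000800000000000040400000000000000000000001000440000000000000000000000802 := rS 0xd01ab37daf69df7c8a431e9063af5ceabce5b708d60674b799edffe167b18be174ea64c69bd801c0a6d (k8 c22545 c21870 c5432 c23282 c5397 c5395 c5447 c5412 (k8 c5433 c1054 c10374 c20739 c5535 c20798 c690 c20781 (k8 c9578 c5316 c23096 c5558 c23270 c17749 c20812 c23208 (k8 c23244 c5341 c5340 c5560 c5561 c23276 c17979 c19060 (k4 c20243 c5498 c17683 c19916 (k2 c5688 c19922 k0)))))) (by decide +kernel)
def c23284 : PP 9 3 T 0x8000000000000000100040000000000000000000000000200000000000000000000000000000000000000000000000000000000000000000000001002 := rS 0xd456070cd120552f6879f9b7dc6d765e7522af396dc23584fec066391f8dcd60f (k8 c21871 c1059 c5435 c5318 c5317 c5316 c23282 c5448 (k8 c23096 c5558 c23270 c17749 c20812 c9824 c23208 c5464 (k8 c5465 c5466 c5580 c22558 c23280 c5241 c9578 c5645 (k4 c12878 c23283 c664 c932 (k2 c23158 c2890 k0))))) (by decide +kernel)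
def c23285 : PP 9 3 T 0x40000000000000000000100040000000000000000000000000200000000000000000000000000000000000000000001000000000000000000000000001002 := rS 0x630853b11f01ef699ddb98d3699d801c2fe3 (k8 c23284 c5433 c5432 c23282 c5447 c5397 c5395 c23270 (k8 c23208 c5241 c8438 c5188 c5411 c5412 c5528 c10500 (k1 c5535 k0))) (by decide +kernel)
def c23286 : PP 9 3 T 0x20000100040000000000000000000000000200000000000000000000000000000000000000000001000000000000000000000000001002 := rS 0x196df3e2058c8f0552d3a47ac674fe634da6760072f85fc71371fc8da0f (k8 c21871 c22545 c23285 c5549 c5547 c23284 c5433 c1054 (k8 c5432 c23282 c5447 c5397 c5395 c23228 c23208 c23096 (k8 c5562 c5412 c9578 c5645 c2311 c10374 c940 c5670 (k2 c2829 c1547 (k1 c22558 k0))))) (by decide +kernel)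
def c23287 : PP 9 3 T 0x200000000000000000000051050000000000000000000000000000000080080000001000000000000000002 := rS 0x3fc8af3560708eaf (k8 c20812 c5562 c664 c932 c334 c336 c2893 c18038 k0) (by decide +kernel)
def c23288 : PP 9 3 T 0x200000000000200000000051050000000114000000040000004000000000000000001000400000020000000 := rS 0x1fccc22bcc6a47198e46237 (k8 c5435 c5434 c5317 c5316 c5562 c331 c334 c336 (k2 c3587 c18038 (k1 c2507 k0))) (by decide +kernel)
def c23289 : PP 9 3 T 0x100040000000000000000000000000200000000000000000000000000000000000000000001000000000000000000000000001002 := rS 0x1e6ff22b31a4769d875aacf401e8fbe163b45fade7b8ee214adac05c24981b8fe43d2092c8e03789fdeb9d579cb6e11ac24cc6c930a5760391f85fc605 (k8 c21870 c23284 c5433 c5318 c5317 c23282 c5446 c5445 (k8 c5396 c5395 c5444 c23096 c5558 c23270 c17749 c20812 (k8 c23208 c23244 c23228 c9696 c28 c5562 c5342 c5340 (k8 c5560 c23285 c5549 c5550 c5588 c5591 c5592 c23286 (k8 c5211 c17712 c5332 c5333 c17954 c20808 c23003 c796 (k8 c5538 c2830 c5669 c5670 c20767 c20766 c23288 c19823 (k4 c22977 c939 c890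 c2936 (k2 c2943 c2500 (k1 c18038 k0))))))))) (by decide +kernel)
def c23290 : PP 9 3 T 0x100040000000000000000000000000200000000000000000000000000000000000000000000000000000000000000000000001002 := rS 0xda52be60b6f8ecf04123d633a7fdbec06e0f (k8 c21871 c5435 c23282 c23270 c23228 c23208 c23096 c5562 (k8 c5340 c23289 c1536 c2388 c2307 c19019 c5645 c5241 (k1 c9578 k0))) (by decide +kernel)
def c23291 : PP 9 3 T 0x40000000000000002000000000000000000000200000000000200000000000001000800001000000005001000800040000000000000000000000010000004 := rS 0x1ef7ffb518d74b9da766364a6cc2954c85d0005 (k8 c21870 c2404 c5433 c5447 c5446 c5445 c5397 c5396 (k8 c5395 c19823 c22977 c19357 c2188 c938 c18006 c2575 (k2 c5505 c20721 k0))) (by decide +kernel)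
def c23292 : PP 9 3 T 0x200000000000000000000050050000000000000002040000000000000000000000001000000000120000000 := rS 0x1fe4579ac63a47 (k4 c5562 c5341 c2177 c333 (k2 c336 c2573 (k1 c18038 k0))) (by decide +kernel)
def c23293 : PP 9 3 T 0x40000000000000002000100000000000000000200040000000200000000010011000000000000002045001001800040000000000000000000000100002004 := rS 0xcd711eced3b0eb7cc6c94d9852a177b9260605 (k8 c21870 c20799 c294 c20809 c5433 c5446 c5445 c5397 (k8 c5396 c5395 c2514 c23292 c19823 c22977 c22559 c14556 (k2 c4623 c23291 k0))) (by decide +kernel)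
def c23294 : PP 9 3 T 0x2000000000000000000000200000000000200000000000001000000000000000000000000000000400000000000000000000010000004 := rS 0x4ecc6c930a542e05 (k8 c21870 c5433 c5446 c5445 c5396 c5395 c19823 c22977 k0) (by decide +kernel)
def c23295 : PP 9 3 T 0x40000000000000000000100040000000000000000000000000200000000000000000000000000000000000000000000000000000000000000000000000002 := rS 0x56fbda83558ecc38d33bf88f5e11d07cd6b5a5aa442ab4ea3b6819219063a037888cfef557a4d3e9b4cec066390b8de03130612d2272db846b19d (k8 c23208 c23096 c5558 c23270 c17749 c9824 c5342 c23290 (k8 c2598 c19568 c5435 c5433 c5317 c5316 c23282 c5447 (k8 c5397 c5448 c5444 c20812 c23244 c23228 c9731 c9696 (k8 c28 c5341 c5340 c5561 c6205 c5241 c5675 c5412 (k8 c5413 c5528 c5531 c9578 c23293 c1318 c2361 c3578 (k8 c5456 c290 c5188 c22559 c5579 c23294 c5486 c2177 (k4 c331 c23158 c14662 c2890 (k1 c5683 k0)))))))) (by decide +kernel)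
def c23296 : PP 9 3 T 0x20000100040000000000000000000000000200000000000000000000000000000000000000000010000000000000000000000000000002 := rS 0x10801d78c429d0c904467f49a7d429b4cec072171bb8dc21f35ad7e472db846b00c (k8 c23290 c23096 c5558 c23270 c17749 c23295 c5548 c1318 (k8 c2361 c5591 c5549 c5435 c5433 c5317 c23282 c5447 (k8 c5397 c5398 c5448 c5444 c23228 c9731 c5340 c6205 (k4 c5412 c5528 c19797 c3578 (k2 c5670 c289 (k1 c1744 k0)))))) (by decide +kernel)
def c23297 : PP 9 3 T 0x100040000000000000000000000000200000000000000000000000000000000000000000008000000000000000000000020000002 := rS 0xd440345fa3bf1c4295b53eb3c327f7aabd27b07b9260291cec56260c259cb6e11ac40dc3f2 (k8 c23295 c5591 c5550 c23096 c5558 c23270 c17749 c5342 (k8 c23290 c2598 c1291 c23208 c9824 c19568 c294 c20809 (k8 c23282 c5444 c20812 c23244 c23228 c6205 c20767 c1690 (k8 c23296 c5211 c17712 c16245 c5332 c20808 c23003 c5670 (k2 c23288 c20766 k0))))) (by decide +kernel)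
def c23298 : PP 9 3 T 0x100040000000000000000000000000200000000000000000000000000000000000000000004000000000000000000000000000002 := rS 0x1e7c2dece9fd2272db846b0c7060e5c7f2 (k8 c23295 c5549 c5317 c23290 c2480 c23096 c5558 c23270 (k8 c17749 c9824 c23228 c23208 c14556 c5538 c2388 c5669 k0)) (by decide +kernel)
def c23299 : PP 9 3 T 0x100040000000000000000000000000200000000000000000000000000000000000000000000000000000000000000000000000002 := rS 0x115fed26abcd00ccf1d28edb50e9f4f4e181fca2b0189925ee0c1f8e4324b2380de27f7ae752272db846b1b0 (k8 c23282 c23096 c5558 c23270 c17749 c9824 c23208 c23244 (k8 c23228 c9696 c28 c5562 c5342 c6205 c5317 c5318 (k8 c23290 c20809 c294 c2598 c19568 c1291 c23295 c5550 (k8 c5591 c23298 c1690 c23297 c23296 c23294 c5211 c16245 (k8 c890 c5670 c2500 c20766 c939 c2507 c2936 c18038 k0))))) (by decide +kernel)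
def c23300 : PP 9 3 T 0x10000100040000000000000000000000000000000000010000000000100000000000000000000008800000000000000000000010000002 := rS 0x6c9feab22bcc373b660c8b4291290e3a4b23bc5eac9d8019ee495aa44e5b708d60d61fa5786539d (k8 c23208 c23299 c5457 c5215 c5517 c1058 c23096 c5558 (k8 c23270 c17749 c9824 c17752 c5334 c5333 c17741 c23282 (k8 c5396 c23244 c9696 c5562 c5342 c5341 c5561 c5559 (k8 c8199 c672 c673 c890 c5474 c2043 c22615 c390 (k4 c2075 c2507 c5649 c14685 k0))))) (by decide +kernel)
def c23301 : PP 9 3 T 0x4000000000010000100040000000000000000000000000000000000010000000000000000000000000000000008000000000000000000000010000002 := rS 0x13a6906dafb3effbd2cf33bb5500438e92c8ef13fbd55e7208ec19e352f80cfa061ed60774af0ca7e5b768bf6219d (k8 c23208 c17712 c20808 c23003 c23270 c5241 c23299 c5457 (k8 c5215 c5332 c23096 c5560 c17741 c1456 c28 c1451 (k8 c20806 c20767 c23282 c5558 c17749 c20812 c23244 c23228 (k8 c9696 c5562 c5342 c5341 c5561 c5670 c20766 c23300 (k8 c20175 c20822 c19710 c5452 c5404 c1768 c1074 c5689 (k2 c5649 c19070 k0)))))) (by decide +kernel)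
def c23302 : PP 9 3 T 0x10000100040000000000000000000000000000000000010000000000100000000000000000000008000000000000000000000010000002 := rS 0x56ac767ef46259e6772192deaaf396dc23b0a5784be033e81a539d1ed60cfe2 (k8 c23301 c664 c23096 c5560 c23208 c23299 c17741 c1456 (k8 c28 c1451 c5457 c5215 c23282 c5558 c23270 c17749 (k8 c20812 c23244 c5342 c5561 c23300 c20175 c20822 c20727 (k4 c19710 c5404 c1334 c2030 (k1 c5683 k0))))) (by decide +kernel)
def c23303 : PP 9 3 T 0x4000000000000040000000000000000000000000000000000000000000000000000000000400000050000080000000000000000000000000000000000000 := rS 0x163b3 (k2 c5404 c1333 (k1 c5683 k0)) (by decide +kernel)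
def c23304 : PP 9 3 T 0x10000100040000000000000000000000000000000000010000000000000000000000000000000008000000000000000000000010000002 := rS 0x11064f37f9d9989756fbda83f65a07c503f911c06f5579cb6e114f98d92614aec06a7d030f6b0f7249ac3f4af0ca73a67 (k8 c664 c23208 c23299 c5457 c5215 c5517 c1058 c5334 (k8 c5333 c23096 c5560 c17741 c1456 c20806 c23282 c5446 (k8 c5445 c5396 c5395 c5448 c5558 c23270 c17749 c20812 (k8 c23244 c28 c5562 c5241 c5550 c23301 c5463 c5464 (k8 c5576 c23302 c5585 c2890 c23303 c23091 c20822 c22177 (k4 c2501 c673 c18038 c389 k0)))))) (by decide +kernel)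
def c23305 : PP 9 3 T 0x8000000000022000110000000000000000000000000000000000400000000000500000000000000000001000000000400000000000000000000000000 := rS 0x47fcd68df65a7d429b (k8 c5397 c5398 c5448 c5464 c5580 c19797 c17766 c2401 (k1 c5675 k0)) (by decide +kernel)
def c23306 : PP 9 3 T 0x4000000000002000000000000000000000000000000000000000000010000000400400000001405000000000208800040000000000000000000000000 := rS 0xad7fbf562d246333bea164a6fc2d5 (k8 c20766 c5457 c5397 c5396 c5398 c5493 c890 c938 (k4 c939 c15326 c2504 c2507 (k2 c2030 c18088 k0))) (by decide +kernel)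
def c23307 : PP 9 3 T 0x1000000000020000010000000000000000000080000000000000000000001000000004000000000000480000000000000400000000010000010000000 := rS 0x19bed7e4e836d1d9f7c3f11 (k8 c5411 c5517 c5452 c5404 c9368 c1074 c5649 c17804 (k2 c17757 c2504 (k1 c5688 k0))) (by decide +kernel)
def c23308 : PP 9 3 T 0x100040000000000000000000000000000000400000000000000000000000000000000000008000000000000000000000010000002 := rS 0x35ceccc4bc0d6a80f978d66a955ed1c301789fd2272db844c6c94d9852bb067b8c6a5f019f40c3dac1ac3f4af0ca73a67 (k8 c664 c23208 c23299 c5457 c5215 c5517 c1058 c23096 (k8 c5560 c17741 c1456 c28 c1451 c20806 c17695 c20767 (k8 c23282 c5446 c5445 c5397 c5396 c5395 c5558 c23270 (k8 c17749 c9824 c23228 c9696 c19568 c21491 c23304 c5413 (k8 c5531 c5532 c23305 c8438 c5670 c5548 c5550 c23307 (k4 c23091 c20822 c2191 c23306 k0)))))) (by decide +kernel)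
def c23309 : PP 9 3 T 0x100040000000000000000000000000000000800000000000000000000000000000000000008000000000000000000000000000000 := rS 0x78901f3 (k4 c5547 c956 c8438 c5463 k0) (by decide +kernel)
def c23310 : PP 9 3 T 0x50000110000000000000000200080000000000000000010000000000000000000000000000000000000000000000000000000020000002 := rS 0x150fef6bce06fdf94408ef524ecd56f722abce411 (k8 c5558 c17749 c20812 c336 c5333 c2121 c5486 c5334 (k8 c23244 c5562 c17712 c5241 c20808 c5550 c334 c23185 (k2 c18038 c5682 (k1 c2453 k0)))) (by decide +kernel)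
def c23311 : PP 9 3 T 0x100040000000000000000000000000000000000000000000000000000000000000000000008000000000000000000000000000002 := rS 0xfe5640fdff279f8d6621da11563b30e386031335925ee1f3ed280ce3f090c7b1d2591deb9d48abce5b708d636129 (k8 c23299 c23282 c23096 c5558 c23270 c17749 c20812 c9824 (k8 c23208 c23244 c5562 c5342 c5341 c5560 c5561 c5457 (k8 c17695 c17741 c5215 c1456 c5517 c5333 c5334 c1058 (k8 c23309 c19568 c21491 c23308 c5486 c2177 c336 c23310 (k8 c5528 c5532 c23305 c333 c8438 c19710 c5550 c5683 (k2 c18038 c2892 k0)))))) (by decide +kernel)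
def c23312 : PP 9 3 T 0x44000000000000000000000000000000000000000000008000000000000000000540000000000000000000000000000000000000000000 := rS 0x15bef (k2 c5586 c2892 (k1 c5683 k0)) (by decide +kernel)
def c23313 : PP 9 3 T 0x100000000000000000040000000001500000004000005000000000000000000001082 := rS 0x17c066d (k4 c22545 c28 c1451 c20132 k0) (by decide +kernel)
def c23314 : PP 9 3 T 0x50000110000000000000000200000000000000000000010000000000000000000000000000000000000000000000000000000020000002 := rS 0x14a (k2 c5211 c23310 k0) (by decide +kernel)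
def c23315 : PP 9 3 T 0x100040000000000000000000000000000000000000000000000000000000000000000000000000000000000000000000020000042 := rS 0xac1fcebde0819a04827f94ecd631d18a546a93d81155e72db846b057 (k8 c21872 c23096 c5558 c23270 c17749 c20812 c336 c23282 (k8 c5444 c331 c5446 c1996 c5341 c2177 c5486 c23299 (k8 c23228 c5340 c12653 c20297 c5643 c23142 c23230 c276 (k2 c5683 c23172 k0)))) (by decide +kernel)
def c23316 : PP 9 3 T 0x50000110000000000000000200000000000000000000000000000000000000000000000000000000000000000000000000000020000002 := rS 0x201f2 (k2 c5241 c23314 (k1 c5592 k0)) (by decide +kernel)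
def c23317 : PP 9 3 T 0x100040000000000000000000000000000000000000000000000000000000000000000000000000000000000000000000020000002 := rS 0xac817be031324bdc18c7f03fde74b59aa4429d88ed0be0622ac766438e92c8e037ae7522af396dc235831a6cc299d84a4f66d (k8 c22545 c23311 c23299 c23282 c5447 c5445 c5397 c5395 (k8 c23096 c5558 c23270 c17749 c20812 c9824 c23208 c23244 (k8 c28 c5562 c5342 c5341 c5561 c5486 c2177 c336 (k8 c23315 c1451 c23316 c5411 c5412 c5528 c5531 c5532 (k8 c23086 c333 c23312 c5215 c5535 c20132 c20809 c294 (k4 c2598 c19568 c17988 c18038 (k2 c5683 c2034 k0))))))) (by decide +kernel)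
def c23318 : PP 9 3 T 0x24000000000000000000000200000000000000000000014051000000000000000020000000000000000000000001100000000000000000 := rS 0x3ce061b2191c42a9 (k8 c5531 c5528 c5562 c5561 c1908 c2034 c23227 c18038 k0) (by decide +kernel)
def c23319 : PP 9 3 T 0x200000000000000000000000000000500000040000000000000000020000000000001004440000000000200 := rS 0x1be391e9049647 (k4 c5562 c5342 c5340 c5560 (k2 c274 c2830 (k1 c3590 k0))) (by decide +kernel)
def c23320 : PP 9 3 T 0x4000100040000000000000000000000000000000100010000000000000000000100000000000000000000000000100000000000002002 := rS 0x380fb19c21665179c6343e0fc6237042040e339dbcbdcad219048ef13fbd592614aec252670ea75ee4948c4c963b3dbfd67b4ceabce411ac6dcae6d (k8 c22545 c21872 c23270 c23096 c5558 c17749 c20812 c23208 (k8 c17712 c5532 c23312 c23311 c290 c5342 c2598 c9824 (k8 c294 c20809 c8792 c23317 c664 c23299 c23282 c5446 (k8 c5445 c5396 c23244 c23228 c9696 c5562 c5340 c5561 (k8 c23318 c5683 c17988 c5325 c22615 c23188 c12653 c5643 (k8 c2364 c20764 c276 c23149 c23230 c1552 c23151 c1314 (k4 c1054 c1718 c23319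 c4656 (k2 c2480 c19939 k0)))))))) (by decide +kernel)
def c23321 : PP 9 3 T 0x4000100040000000000000000000000000000000100010000000000000000000100000000000000000000000000000000000000002002 := rS 0xadf7911e2af396dc2358 (k8 c23096 c5558 c23270 c17749 c20812 c9696 c23320 c5582 (k2 c2887 c5683 k0)) (by decide +kernel)
def c23322 : PP 9 3 T 0x10040000000000000000000004000100000100000001000000000080000001000400000004000040000000000000000010002000 := rS 0x1a2867ed28d61ff0aacae6d (k8 c22545 c21872 c20861 c5535 c4656 c2482 c5215 c20237 (k2 c20788 c20086 (k1 c799 k0))) (by decide +kernel)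
def c23323 : PP 9 3 T 0x200000004000000000500000000000000000040000205001504000000080000000001004440000151000202 := rS 0x38dc27c652d4bc860b3f4d6f11199c726d (k8 c22545 c274 c664 c9731 c9696 c1058 c20237 c3578 (k8 c20788 c1506 c19826 c1314 c1315 c1719 c1552 c23319 k0)) (by decide +kernel)
def c23324 : PP 9 3 T 0x4000010040000000000000200000004000100000100000000000000000100000200000514000044080001000000000000000010002002 := rS 0x38dbee147780d54b0f0e58e3f1b821020719868323d2091de26755a7442a9da1252313258ecae6d (k8 c22545 c21872 c290 c5342 c2598 c9824 c294 c17712 (k8 c5531 c5528 c8792 c20861 c664 c9696 c5562 c5340 (k8 c5560 c6205 c5649 c2043 c23188 c12653 c5643 c2364 (k8 c276 c23322 c274 c23323 c5517 c2361 c5215 c1319 (k4 c5460 c5538 c2404 c3590 k0))))) (by decide +kernel)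
def c23325 : PP 9 3 T 0x40000000000000200000000000100000000000000000140000000000000000000800040000000000001000500000000002040 := rS 0x7ee31b821023d2092c8e57 (k8 c21872 c5562 c5342 c5340 c5560 c12653 c5643 c2364 (k2 c2404 c276 (k1 c3590 k0))) (by decide +kernel)
def c23326 : PP 9 3 T 0x100040000000000000000000000000000000000000000000000000000000200000000000000000000040000000000000000000082 := rS 0xf1a0594d7efa58fa3d019fd5e72db846b01df7b4d93b0 (k8 c23282 c5396 c2085 c5506 c23317 c23096 c5558 c23270 (k8 c17749 c20812 c23228 c28 c5560 c1456 c22330 c5452 (k4 c1768 c1333 c20909 c5464 (k1 c5670 k0)))) (by decide +kernel)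
def c23327 : PP 9 3 T 0x100040000000000000000000000000000000000000000000140000000000000000000000000000000000000000100000000002042 := rS 0x7c9c48f1e9048f9d24a44e5b708c4c97581d9ec6e3f044a4fe57 (k8 c21872 c23228 c23299 c5643 c276 c2364 c23311 c290 (k8 c23096 c5342 c2598 c5558 c23270 c17749 c9824 c294 (k8 c23208 c5562 c5340 c5560 c23325 c3590 c5675 c5549 k0))) (by decide +kernel)
def c23328 : PP 9 3 T 0x100040000000000000000000000000000000000000000000080000040000000000000000140000000000000000000000000000000 := rS 0xfbe3 (k2 c5580 c2830 (k1 c5670 k0)) (by decide +kernel)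
def c23329 : PP 9 3 T 0x110000000000000000000000000000000000400000000000200000000000000000001000004000000000000000000000000000000 := rS 0x11ff3 (k2 c5591 c2847 (k1 c5675 k0)) (by decide +kernel)
def c23330 : PP 9 3 T 0x100040000000000000000000000000000000000000000000000000000000000000000000000000000000000000100000000002042 := rS 0x6f31cfee18992cf691396dc239d40ca48358 (k8 c23096 c5340 c23299 c12653 c23208 c5558 c23270 c17749 (k8 c9824 c23311 c5342 c2598 c23329 c23228 c2480 c23327 (k1 c23328 k0))) (by decide +kernel)
def c23331 : PP 9 3 T 0x4000100040000000000000000000000000000000100010000000000000000000000000000000000000000000000000000000000002002 := rS 0xf92d3c6fc35b8c3fe11c01c365b79ce960f1119fdea9364a6cc2954cec2521d5588553b47bb86264b3da44e5b708d633a6d (k8 c22545 c23208 c23096 c5558 c23270 c17749 c9824 c23311 (k8 c5342 c2598 c23329 c20809 c17712 c5531 c5528 c20861 (k8 c23317 c23299 c23282 c5447 c5446 c5445 c5397 c5396 (k8 c5444 c23244 c23228 c9731 c9696 c23321 c23324 c5325 (k8 c5474 c5475 c23326 c23330 c5534 c2472 c2617 c1058 (k4 c3581 c23305 c1335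 c5188 (k1 c5548 k0))))))) (by decide +kernel)
def c23332 : PP 9 3 T 0x8000100040000000000000000000000000000000100000000000000000000000000000000000000000000000000000000000000002042 := rS 0x13b6307c700878a6f61293d99c3aa9da675ee57 (k8 c21872 c20809 c23208 c17712 c5531 c23317 c664 c23311 (k8 c23299 c23282 c5397 c9696 c5643 c23330 c2472 c274 (k2 c7262 c23322 k0))) (by decide +kernel)
def c23333 : PP 9 3 T 0x100040000000000000000000000000000000100010000000000000000000000000000000000000000000000000000000000002002 := rS 0x79fb4653b671d8b54b0325f64f701bd761293d877699d (k8 c23208 c17712 c23317 c23311 c23299 c23282 c23244 c28 (k8 c20809 c23331 c5404 c23332 c23086 c22330 c20822 c20696 (k4 c5474 c673 c5543 c22615 (k1 c5657 k0)))) (by decide +kernel)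
def c23334 : PP 9 3 T 0x2000010040000000000000000000000000100000100000000000000000000000000000000000004000000000000000000000000001082 := rS 0x7818d4b0198d36614ced13a6d (k8 c22545 c8792 c17712 c5447 c5445 c5397 c5395 c28 (k4 c23086 c23313 c5215 c5535 k0)) (by decide +kernel)
def c23335 : PP 9 3 T 0x2000000000020000000000000000000000000040004000100000000000011000000000000000004000100000000000440000000000005000010000800 := rS 0x77b64350dbd876f3 (k8 c20781 c5456 c20243 c2103 c501 c5649 c5653 c16230 k0) (by decide +kernel)
def c23336 : PP 9 3 T 0x100040000000000000000040000000000000100010000000000000000000000000000000000000000000000000000000000000002 := rS 0x1f25a44d6103d9fb5f887f7ab4b73a05781e2f5579cb6e114c99c3aab54ed0d68120d6066311f8200e0d3dec33b293f83cae6d (k8 c22545 c21872 c21871 c23228 c23299 c23208 c23282 c23311 (k8 c23333 c23334 c5643 c276 c20764 c20297 c23096 c5340 (k8 c12653 c1059 c17712 c5531 c20861 c23317 c664 c5447 (k8 c5558 c23270 c17749 c20812 c23244 c9696 c5215 c5645 (k8 c23335 c5474 c23172 c23148 c692 c20831 c5542 c5405 (k4 c2632 c5683 c21166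 c1335 (k2 c12878 c5548 k0))))))) (by decide +kernel)
def c23337 : PP 9 3 T 0x20000010000000000000000000000000000000000000000001000000000000000000000000004000000440000000000000000050001400 := rS 0x9dbf1520f (k4 c21871 c5531 c20831 c20783 (k1 c20237 k0)) (by decide +kernel)
def c23338 : PP 9 3 T 0x100040000000000000000000000000000000100010000000000000000000000000000000000000000000000000000000000000002 := rS 0x227bbbe356a9d9a0de6338d9b134335da6e1f19f1945e0b0dc16490f8ee94391f8c41033039ac1a431e9063a4b23bc4467f396dc23584cec252670ea74f621da674ae6d (k8 c22545 c21872 c23208 c17712 c5528 c23311 c8792 c23317 (k8 c664 c23299 c23282 c5447 c23096 c5558 c23270 c17749 (k8 c23228 c9731 c9696 c5562 c5342 c5341 c5340 c5560 (k8 c5561 c23333 c1059 c23334 c20297 c5643 c20764 c276 (k8 c273 c23336 c5332 c5517 c5334 c5516 c5518 c17923 (k8 c1506 c1314 c1315 c5464 c1718 c20757 c20802 c23337 (k8 c959 c2074 c1552 c23319 c3590 c799 c798 c3003 (k4 c1704 c5493 c5689 c3588 (k1 c5582 k0))))))))) (by decide +kernel)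
def c23339 : PP 9 3 T 0x100040000000000000000080000000000000100000000000000000000000000000000000000000000000000000000000000000002 := rS 0xd3bcd5f1b4fde7c65230bc862285816490fbc4467f4c99c3a9d10ed162ab35a3d0241198c47208039ef612906c4a0091396dc239d25d60ae6d (k8 c22545 c21872 c23096 c5342 c23208 c5558 c23270 c17749 (k8 c9824 c23338 c19568 c2598 c23299 c23282 c23311 c23334 (k8 c5643 c273 c20764 c20297 c5340 c12653 c20800 c1319 (k8 c20861 c2143 c17712 c5528 c8792 c23317 c664 c5447 (k8 c23228 c9731 c9696 c5517 c5334 c5516 c17923 c3066 (k8 c23337 c1506 c958 c1314 c1315 c5505 c2084 c5464 (k4 c1661 c23237 c23111 c5450 k0))))))) (by decide +kernel)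
def c23340 : PP 9 3 T 0x100040000000000000000000000000000000100000000000000000000000000000000000000000000000000000000000000000002 := rS 0x1f1a5e31a915aad79d3cdc2d105782963f18820668103834d71247c0368ab218f4831d25bc4fef5cea455e72db846b099d84a4f6670e83cae6d (k8 c22545 c21872 c21871 c23317 c664 c23311 c23299 c23282 (k8 c5447 c23096 c5558 c23270 c17749 c20812 c9824 c23208 (k8 c23244 c23228 c9696 c5342 c5341 c5340 c5560 c5561 (k8 c20861 c17712 c23338 c20800 c19568 c1319 c2598 c23334 (k8 c12653 c20297 c5643 c20764 c276 c23339 c5215 c5645 (k8 c5459 c5460 c20781 c23335 c2145 c3072 c23276 c5324 (k4 c13617 c3588 c5670 c20757 k0))))))) (by decide +kernel)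
def c23341 : PP 9 3 T 0x100040000000000000000000000000000000000000000000000000000000000000000000000000000000000000100000000000202 := rS 0x37c7e811e9049647ac1fd8e63d80ec9237a538dc3f2dac436f9d (k8 c23208 c23270 c23340 c5411 c5241 c5591 c5549 c9727 (k8 c5518 c5334 c5332 c23282 c5395 c796 c23228 c23096 (k8 c5562 c5342 c5340 c5560 c1744 c276 c23328 c3590 k0))) (by decide +kernel)
def c23342 : PP 9 3 T 0x10000010040000000000000000000000000100000000000000000000011100000000000110000000000045400000000104000000000082 := rS 0x799de7435 (k4 c20806 c23188 c673 c5325 (k1 c20172 k0)) (by decide +kernel)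
def c23343 : PP 9 3 T 0x100040000000000000000000000000000000000000000000000000000000000000000000000000000000000000000000000000102 := rS 0x7f3488bef6ab5de7df400cbc6df66f8072793e818be431e9063a4b23d60fef5649852a99949ecced17eb1cc7b07b88c3a1f248de950380fcb6b10dbe74ae0f (k8 c21871 c21872 c23208 c23270 c23340 c5411 c5241 c5592 (k8 c5550 c9727 c5518 c5334 c1081 c23317 c9731 c8123 (k8 c23282 c5395 c796 c20808 c23003 c664 c23311 c23299 (k8 c5447 c5446 c5445 c5396 c23244 c23228 c23096 c5562 (k8 c5342 c5341 c5340 c5560 c5561 c1055 c5643 c1456 (k8 c1454 c8203 c5669 c5537 c5538 c21911 c23342 c5670 (k8 c5492 c22615 c2185 c20766 c19710 c390 c20909 c18038 (k1 c2942 k0)))))))) (by decide +kernel)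
def c23344 : PP 9 3 T 0x100040000000000000000000000000000000000000000000000000000000000000000000000000000000000000000000000000002 := rS 0x720863c40c7b0 (k4 c23282 c5395 c23340 c796 (k2 c23343 c274 (k1 c23341 k0))) (by decide +kernel)
def c23345 : PP 9 3 T 0x2000000000002000110040000000000000000000000000000000000000000000000000000000000000000000040000000000000000000000000000200 := rS 0x2c3e90899c0dff3dbf89963f0c8a44a730ba0482a1309f47b5859ed0040103b7cda05 (k8 c21870 c22545 c5538 c30 c23344 c5642 c22619 c5532 (k8 c23096 c5560 c21924 c5445 c5398 c5340 c1744 c1507 (k8 c9719 c5559 c8199 c6205 c276 c20621 c5670 c17858 (k8 c17766 c17836 c5666 c755 c10427 c10367 c12878 c13533 k0)))) (by decide +kernel)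
def c23346 : PP 9 3 T 0x2000000000022000000000000000000000000000000000000000000000000000000000000000000000000000000000000000000000000000001000601 := rS 0x7c0405 (k4 c21870 c5642 c1112 c13533 k0) (by decide +kernel)
def c23347 : PP 9 3 T 0x2800000000062000000000000000000000000000000000000000400050000000000010000001044000001500000000000000000000005000401400808 := rS 0x43bfdeeb1783f366971a86c3a9364a5532b3 (k8 c5532 c5447 c5446 c5396 c5444 c20811 c20794 c5450 (k8 c5452 c16230 c13565 c3577 c1335 c499 c23312 c693 (k1 c20762 k0))) (by decide +kernel)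
def c23348 : PP 9 3 T 0x400000000000000000000000000000000000000000000100000000000000000000000100000000000054000000000000000000000015000001400008 := rS 0x784e8361d (k4 c20811 c20794 c5653 c3577 (k1 c5323 k0)) (by decide +kernel)
def c23349 : PP 9 3 T 0x400000000000000000000000000000000000040000000100000400050004000000001100000005001555500000000000000000400405000001400808 := rS 0x3f9e8877bcec69ed (k8 c18006 c23348 c5324 c501 c693 c5657 c20762 c2341 k0) (by decide +kernel)
def c23350 : PP 9 3 T 0x40000000000000000000000000000000000000000400050000000000100000000440000081500000000000000000000000000400000808 := rS 0x9dbc4b4f6433fd63b3 (k8 c5404 c1334 c23312 c20762 c693 c692 c499 c5474 (k1 c22131 k0)) (by decide +kernel)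
def c23351 : PP 9 3 T 0x2000000000062000000000000000000000000040000000100000400050000000000110000001044000001500000000000000000400005000401400808 := rS 0x97efa4d929b4aa653aa9598ed9af3 (k8 c20781 c5537 c5456 c5532 c5531 c5412 c5447 c5446 (k4 c5397 c5396 c5444 c23347 (k2 c23350 c23349 k0))) (by decide +kernel)
def c23352 : PP 9 3 T 0x2000110040000000000000000000000000000000000000000000000000040000000000000000000000000000000000100000000000200 := rS 0xef8d52e766b2315e7037ede06b580fc9220a47c4dabe33f37fc14b68a74f7b45588c32112091eb073888840e331885d26a164a55332901004da05 (k8 c21870 c22545 c23344 c5642 c22595 c5447 c5446 c5396 (k8 c5398 c5444 c1507 c20764 c20738 c30 c266 c9730 (k8 c9719 c23096 c5562 c5340 c5558 c6205 c9733 c20861 (k8 c22619 c17741 c5412 c20815 c17923 c5215 c5538 c23345 (k8 c5577 c20749 c22991 c2923 c23346 c694 c12878 c19568 (k8 c5548 c5550 c13608 c2919 c5666 c20748 c23351 c808 (k4 c807 c19049 c1763 c5493 (k1 c23348 k0)))))))) (by decide +kernel)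
def c23353 : PP 9 3 T 0x6000100040000000000000000000000000000000000000000000000000000000000000000200000000000000000000020000000000200 := rS 0xf132c4e7f7806452250d85d269f3e8087bef569cc02d340906b005 (k8 c21870 c23096 c5340 c1744 c2084 c23344 c9719 c2031 (k8 c5505 c5560 c5642 c21924 c5448 c5444 c1507 c20794 (k8 c5559 c8199 c6205 c23229 c19606 c434 c20621 c5670 (k1 c17994 k0)))) (by decide +kernel)
def c23354 : PP 9 3 T 0x400000000006000100040000000000000000000000000000000000000000000000000000000000000000200000000000000000000000000000000200 := rS 0x1b7658fcfe454b4e86a19148cc621749a7d42c94aca405ef569cc02d340906b005 (k8 c21870 c23096 c5340 c1744 c2084 c23344 c9719 c2031 (k8 c5505 c5642 c22595 c5446 c5396 c5398 c5448 c5444 (k8 c1507 c20764 c20738 c8199 c6205 c23353 c5653 c23348 (k4 c5326 c19049 c276 c20621 (k2 c17858 c21969 k0))))) (by decide +kernel)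
def c23355 : PP 9 3 T 0xa000100040000000000000000000000000000000000000000000000000000000000000000200000000000000000000000000000000200 := rS 0x3c4cb139fce234338645225398cc2e934f984fa02008f7ded340906b005 (k8 c21870 c23096 c5340 c1744 c2084 c5505 c5560 c23344 (k8 c5642 c21924 c5445 c5448 c5444 c1507 c20738 c9719 (k8 c5559 c8199 c6205 c5487 c22161 c753 c19606 c268 (k2 c8797 c5670 (k1 c17994 k0))))) (by decide +kernel)
def c23356 : PP 9 3 T 0x2000100040000000000000000000000000000000000000000000000000000000000000000200000000000000000000000000000000200 := rS 0xf132c4e7f781dd2fde1aecd5a1914894e61b0e8cc621740905269f64a54fa02008f6b005 (k8 c21870 c23096 c5560 c23344 c5642 c21924 c5446 c5396 (k8 c5448 c5444 c5340 c1744 c1507 c20764 c20738 c20811 (k8 c20794 c9719 c5559 c8199 c6205 c2031 c23355 c23353 (k8 c23354 c5452 c5493 c3577 c807 c434 c20621 c5670 (k1 c17994 k0))))) (by decide +kernel)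
def c23357 : PP 9 3 T 0x1000000000000006000120000000000000000200000004000100000500000000000000000000000000000000000080050000000000000000000100400000 := rS 0x296dfdafce28b35aed9226b479bd426d (k8 c22545 c5398 c2919 c5526 c5523 c5374 c17735 c20445 (k4 c8280 c3604 c17922 c18007 (k2 c2950 c22420 (k1 c5228 k0)))) (by decide +kernel)
def c23358 : PP 9 3 T 0x5000000000000000000000000000000000000000000000000000000000002000000060040000000000555504080020000000000000140000141480000 := rS 0x13a3b11bf092fe71b5d58f7130fa06e1 (k8 c3059 c2202 c2917 c2868 c3749 c434 c2032 c1779 (k4 c20898 c3007 c2893 c485 (k2 c494 c1239 (k1 c3578 k0)))) (by decide +kernel)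
def c23359 : PP 9 3 T 0x800000000002000100040000000000000000000000000000000000000000000000000040000000000000000000000000000000000100000000000200 := rS 0x1ec2379ed296133844debed3f343c6f0d9cefc2d3669ddaacf4b8d43211259ce221b0e88466310ba04829364a6cc2954cca4fa3dac1ed0e9106a3c3e6b010046e79ce2340a6d (k8 c22545 c21870 c23356 c23352 c5524 c1510 c23344 c5642 (k8 c5523 c1111 c5526 c5522 c5374 c5373 c5372 c23096 (k8 c5560 c21924 c22595 c5447 c5446 c5445 c5397 c5396 (k8 c5444 c5340 c1744 c1507 c20764 c20738 c266 c20811 (k8 c20794 c9730 c9719 c5342 c5558 c6205 c5450 c5452 (k8 c5453 c5454 c5493 c5495 c5496 c22337 c22723 c22161 (k8 c3577 c20727 c20770 c5670 c5501 c1925 c809 c23357 (k4 c23358 c17919 c5228 c20553 (k2 c5409 c5657 (k1 c499 k0)))))))))) (by decide +kernel)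
def c23360 : PP 9 3 T 0x40000000000000000000001000000020000000000000080000000000000000000000000000100400000 := rS 0x89f89c (k4 c1708 c1709 c5855 c1237 k0) (by decide +kernel)
def c23361 : PP 9 3 T 0x400000000000000010000000000000181504080000000000000100000008800000000 := rS 0x1e04e37d550081b8dfff35912162d5 (k8 c20749 c1334 c485 c486 c5588 c3006 c2458 c2461 (k4 c20762 c2901 c2953 c1284 (k2 c10493 c5458 k0))) (by decide +kernel)
def c23362 : PP 9 3 T 0x400000000000000100040000000000000000040008000000000400000000000000410000000000000505500080000000000000000150000440400000 := rS 0x81c0598de1d7b53bb40c8744202008f8b64508d60da05 (k8 c21870 c22545 c23096 c5558 c5326 c5474 c19059 c23344 (k8 c5642 c266 c20811 c6205 c6197 c5855 c17757 c3578 (k4 c495 c6899 c2953 c2517 (k1 c22894 k0)))) (by decide +kernel)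
def c23363 : PP 9 3 T 0x400000000000000120040000000000000000000000000100000400000000000000000100000000010514100080000000000000000110000000000200 := rS 0xd3f7abb6c7113889a2126bd2cb6f122a5a7419ac1cc3a21198c42e8748a3c3e6b010046e79f1b540a6d (k8 c22545 c21870 c20749 c5577 c5524 c1510 c23344 c5642 (k8 c5523 c1111 c5526 c5374 c5373 c1507 c20764 c20738 (k8 c266 c20811 c9719 c23096 c6205 c5653 c23348 c5326 (k8 c5323 c5474 c18477 c20871 c20837 c23360 c23362 c23361 (k4 c2868 c17735 c19291 c5584 (k2 c2940 c5689 k0)))))) (by decide +kernel)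
def c23364 : PP 9 3 T 0x4400000000004000120040000000000000000000004000100000400000000000000500000000000000000100110000000000000000140000800000000 := rS 0x78476cc7134a05ef7fc07d94bdaa1d228f (k8 c5526 c5374 c5373 c5409 c5331 c5228 c5502 c5544 (k8 c20818 c20819 c5689 c18894 c2087 c8999 c5537 c5654 k0)) (by decide +kernel)
def c23365 : PP 9 3 T 0x4400000000000000120040000000000000000040004000100000400000000000000500000000000000504100010000000000000000100000400000200 := rS 0x1ef7fc07d8e3f08e93a191085d0241ac21d228f0f9ac04011b9e40a6d (k8 c22545 c21870 c5524 c1510 c23344 c5642 c5523 c1111 (k8 c5526 c5374 c5373 c23096 c5340 c1744 c1507 c266 (k8 c6205 c5855 c3578 c5456 c8999 c5165 c5502 c5544 (k2 c20818 c18894 k0)))) (by decide +kernel)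
def c23366 : PP 9 3 T 0x2000100040000000000000000000000000000000000000000000000000040000000000080000080000000000000000100000000000200 := rS 0x36edf56fce0501f7bfc88d2678f96a9c0912694ab11bc366190892c3a210385d027d1ea1d220d4787cd6373cf8daae19db5c6913efa3739290100532954db25429320d600a6d (k8 c22545 c21870 c23096 c5340 c5444 c5398 c5396 c5397 (k8 c5446 c5447 c23344 c5642 c22595 c23352 c23356 c23359 (k8 c809 c23363 c1763 c5324 c3059 c20749 c5577 c5524 (k8 c1510 c5523 c1111 c5526 c5522 c5374 c5373 c5560 (k8 c21924 c1744 c1507 c30 c266 c20811 c5342 c5558 (k8 c6205 c5404 c19357 c23364 c1281 c23365 c5334 c17919 (k8 c22633 c16343 c2917 c1651 c442 c441 c2943 c5582 (k4 c3066 c20819 c5550 c2035 (k2 c2517 c22420 (k1 c20105 k0)))))))))) (by decide +kernel)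
def c23367 : PP 9 3 T 0x2000100040000000000000000000000000000000000000000000000000040000000000000000080000000000000000100000400000200 := rS 0x3845194e280fbdfe446933c7c9c091269411259cc0e813e8f41a8f0f9afc6d59db5c6913efa3739290100532954db25429320d612e05 (k8 c21870 c23366 c23096 c5340 c5444 c5398 c5396 c5397 (k8 c5446 c5447 c23344 c5642 c22595 c23352 c23356 c23359 (k8 c809 c23363 c1763 c5324 c20749 c5577 c5523 c1111 (k8 c5526 c5522 c5560 c21924 c1744 c30 c9719 c5342 (k8 c5558 c23365 c5334 c17919 c22633 c2917 c1650 c442 (k8 c441 c2943 c5582 c3066 c18894 c1777 c1778 c8797 (k1 c4973 k0))))))) (by decide +kernel)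
def c23368 : PP 9 3 T 0x2000100040000000000000000000000000000000000000000000000000040000000000000000080000000000000000100000000000200 := rS 0x7bbd59eaaf6bcd52677ebc7654b1135e763489b57c7110da04829350b2536954cca4fa02008f6b087358dcf39c46f7cda05 (k8 c21870 c22545 c23359 c23356 c23352 c5524 c1510 c5523 (k8 c5373 c23096 c5560 c23344 c5642 c21924 c22595 c5447 (k8 c5446 c5397 c5396 c5398 c5444 c5340 c1744 c20794 (k8 c9730 c5577 c20749 c809 c23363 c5324 c1763 c23367 (k8 c5331 c23364 c5401 c5405 c5487 c5489 c447 c20915 (k4 c20788 c21938 c1923 c502 (k1 c5657 k0))))))) (by decide +kernel)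
def c23369 : PP 9 3 T 0x1400000000040000020000000000000000000040004000100000000000000000000000000000000000000100000020000000000000000000400000008 := rS 0xf66d03e6b (k4 c5523 c1111 c6197 c5165 (k1 c18849 k0)) (by decide +kernel)
def c23370 : PP 9 3 T 0x40000000000000042000000040000000000000000080000000000001000000000000000000440000400000000000000000000000000000000000440001048 := rS 0x5a2736b29 (k4 c22595 c13501 c22633 c5685 (k1 c1342 k0)) (by decide +kernel)
def c23371 : PP 9 3 T 0x2000100040000000000000000000000000000000000000000000000000040000000000000000000000000000000000100000000000200 := rS 0x4b2b7de3578917673ada52c46b3f0c4e2a7037b4fe626dbf89becb1f9ffbe8d0fa3cf26b06a44f79c3eca5329530b25429f4986452251e9cc361d108080e331885c028120d60da05 (k8 c21870 c22545 c23096 c5340 c1744 c23344 c1507 c20764 (k8 c20738 c30 c5642 c266 c20811 c20794 c9719 c5560 (k8 c5559 c8199 c6205 c5444 c5448 c5398 c5396 c5445 (k8 c5446 c5447 c22595 c21924 c23352 c5372 c5374 c5522 (k8 c5523 c5524 c5526 c1111 c23356 c23359 c23368 c276 (k8 c20621 c23328 c5670 c17858 c3579 c17861 c5579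 c17836 (k8 c5666 c3047 c755 c13945 c22094 c486 c23370 c6197 (k8 c23369 c18383 c5326 c5323 c5324 c23148 c23172 c3577 (k1 c21969 k0))))))))) (by decide +kernel)
def c23372 : PP 9 3 T 0x4001400000000001000000040000000000000000040008000000000000000000000000600040000000000000000001020000000000000000000040000201 := rS 0x4a2c192add9bf12ef7300319e5f3d18c361d78bcdea9d11884041754ed33b28dbabcda05 (k8 c21870 c22545 c20748 c5571 c5209 c19356 c5211 c5531 (k8 c1507 c5642 c266 c9733 c5855 c5477 c5325 c5323 (k8 c20811 c20794 c19421 c5669 c10245 c20767 c1685 c5663 (k8 c20809 c20768 c17991 c7262 c2891 c1181 c5683 c5678 (k1 c2181 k0))))) (by decide +kernel)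
def c23373 : PP 9 3 T 0x1000000000000000000000000000000000000000000000000000000000000000000001100000002000000000000000100000441400001 := rS 0x1269b308ecc6210103cda05 (k8 c21870 c22545 c21871 c5642 c266 c19421 c1536 c1577 (k2 c2384 c262 (k1 c6193 k0))) (by decide +kernel)
def c23374 : PP 9 3 T 0x8400000000000000100040000000000000000040008000000000400000000000000000040000000000000000040020000000000000100000040000200 := rS 0x7e409ef0124031c23bf02bc361d22bc5e6f554ed1bfef40905aed48e8f6b033f69e532374e8840423ceca3621700864da05 (k8 c21870 c22545 c6205 c23344 c1507 c23371 c5209 c19356 (k8 c9733 c5642 c266 c5855 c5435 c7114 c23373 c22726 (k8 c20738 c23096 c5560 c5341 c17803 c5465 c5340 c1744 (k8 c23148 c23328 c5211 c5531 c5477 c5325 c5323 c5326 (k8 c20811 c20794 c20748 c23372 c5456 c5460 c23279 c17960 (k4 c3072 c20809 c13257 c17991 (k1 c2632 k0))))))) (by decide +kernel)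
def c23375 : PP 9 3 T 0xa000000000000000100000000000000000200040000000200000400000000000000000000000000000000000000010000000000000000000000000001 := rS 0x37edc18291292c8e734c88c42378aacf699d138080a6d (k8 c22545 c21870 c5642 c268 c19356 c5211 c5532 c5414 (k8 c5435 c266 c9733 c7114 c9719 c5562 c5342 c5559 (k4 c8199 c23279 c6706 c18082 (k1 c5666 k0)))) (by decide +kernel)
def c23376 : PP 9 3 T 0x400000000000000100040000000000000000040008000000000400000000000000000040000000000000000050000000000000000100000040000200 := rS 0xd9b25eed0061ebc2cd4ba492a274f9c4f3ed0c8a44a730e8d7689d0ba64479d108080237946c5a9e2409063a3dac0ccda05 (k8 c21870 c22545 c20738 c23096 c5560 c5341 c5340 c1744 (k8 c5670 c17803 c23371 c5209 c5435 c23344 c5642 c266 (k8 c19356 c9733 c7114 c1507 c5855 c5211 c5324 c20811 (k8 c9719 c5559 c8199 c6205 c22726 c23373 c23374 c21335 (k8 c268 c1589 c18620 c1637 c20274 c23375 c5669 c1685 (k4 c20893 c20809 c9610 c7262 (k1 c5678 k0))))))) (by decide +kernel)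
def c23377 : PP 9 3 T 0x400000000000000100040000000000000000040008000000000400000000000000000040000000000000000050000000000000000100000000000200 := rS 0x709e51e7b488281a1e71f882247010046f9d946c5be8120d601e05 (k8 c21870 c21871 c23096 c5340 c1744 c23328 c23371 c5209 (k8 c19356 c5435 c23344 c5642 c5562 c5558 c5670 c5466 (k8 c23376 c2362 c1112 c13457 c1685 c2311 c2307 c21491 (k1 c3610 k0)))) (by decide +kernel)
def c23378 : PP 9 3 T 0x100040000000000000000000000000200000400000000000440000040000000000000000000000000000000000000000080000200 := rS 0xebc079f91ec140d2091eb002008df3a05 (k8 c21870 c19356 c5435 c23344 c5642 c23096 c5562 c5340 (k8 c2362 c1112 c1685 c12878 c2307 c5669 c17862 c5456 k0)) (by decide +kernel)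
def c23379 : PP 9 3 T 0x100040000000000000000040000000200000400000000000440000040000000000000000001000000000000000000000000001200 := rS 0x77f2f0028f64123d633a0f (k8 c21871 c19356 c23096 c5562 c5340 c1685 c5645 c5669 (k2 c12878 c5456 (k1 c17862 k0))) (by decide +kernel)
def c23380 : PP 9 3 T 0x400000000000000100040000000000000000040008000000000400000000000000000040000000000000000040000000000000000100000000000200 := rS 0x9d6a7147784927a06244f21f6a38daed33e06452252591ce631228d53a174c88c4202008de2ab3da67651b16ffbc668120d60da05 (k8 c21870 c22545 c23096 c5340 c1744 c20738 c23148 c23328 (k8 c23371 c5209 c19356 c5211 c5532 c5414 c5435 c23344 (k8 c5642 c266 c9733 c7114 c1507 c5855 c5324 c5326 (k8 c20764 c9719 c5562 c5342 c5559 c8199 c6205 c23377 (k8 c20757 c20802 c1552 c23111 c23378 c23373 c3041 c23379 (k8 c14556 c294 c5457 c1691 c23372 c2402 c268 c3584 k0)))))) (by decide +kernel)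
def c23381 : PP 9 3 T 0x5000400000000001000100040000000000000000040008000000000800000000000500010000000000000400000000000000000000000500000040000200 := rS 0x1e3dbb555f0081a5d246b0c8a44a3d8ec44361d19915e23579bd7689d0ba644621010046e0a0692eb19d9403cda05 (k8 c21870 c22545 c21871 c5209 c19356 c23096 c5342 c2598 (k8 c5645 c5435 c23344 c5642 c266 c9733 c7114 c1507 (k8 c5855 c5211 c5477 c5325 c5324 c5323 c5326 c20738 (k8 c20811 c20794 c9730 c5341 c5560 c5559 c8199 c6205 (k8 c2305 c6193 c1637 c19098 c21166 c20839 c3072 c17885 (k2 c13617 c5236 k0)))))) (by decide +kernel)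
def c23382 : PP 9 3 T 0x400000000000000100040000000000000000040008000000000000000000000000000040000000000000000040000000000000000100000000000200 := rS 0x67bde04aed9ac55bb7372d0d41ef6b3536e11df81c67968828f60d38c4bdf1d259cc0401198c50241ac0df3b28d89146af37a83cda05 (k8 c21870 c22545 c21871 c5477 c5325 c5324 c5326 c23371 (k8 c5209 c19356 c5435 c23096 c5340 c1744 c20764 c20738 (k8 c23344 c5642 c9719 c5342 c5341 c23148 c23380 c755 (k8 c2598 c956 c5645 c20815 c2307 c17330 c5669 c5456 (k8 c5460 c5536 c5537 c6290 c23381 c1111 c2600 c2601 (k8 c5422 c20758 c20792 c21890 c5683 c1249 c2195 c2633 (k1 c3587 k0))))))) (by decide +kernel)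
def c23383 : PP 9 3 T 0x1000100040000000000000000000008000000000000000000000000000000000000000000000080000000000000000000000000000000 := rS 0xcb4b35b6c6108d603602008fe5045788d4b605 (k8 c21870 c5474 c5324 c5323 c5326 c5209 c5318 c23344 (k8 c5642 c20794 c23096 c5558 c17682 c18926 c19059 c22891 (k2 c5420 c1767 k0))) (by decide +kernel)
def c23384 : PP 9 3 T 0x400000000000000100040000000000000000000008000000000000000000000000000040000000000000000000000000000000000100000000000200 := rS 0x3e38bc6e1f0180be9d3d8ee94df3f8647a4b8898c42020b8050241ac0fc479d946c4da05 (k8 c21870 c22545 c23371 c5209 c19356 c9733 c5318 c23096 (k8 c5340 c1744 c23344 c1507 c5642 c266 c19421 c9730 (k8 c5342 c5560 c6205 c23383 c23328 c23382 c5332 c1684 (k8 c8792 c22898 c5663 c10425 c5460 c21911 c17954 c5670 (k1 c4194 k0))))) (by decide +kernel)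
def c23385 : PP 9 3 T 0x100040000000000000000080000000000000000000000000000000040000000000000000040000000000000000100000000000200 := rS 0xf8e2f1b87c0602fa74f63b0c8f49711318840417008fc479d946c5be8120d60da05 (k8 c21870 c22545 c23096 c5340 c1744 c23328 c23371 c5209 (k8 c19356 c9733 c5318 c23344 c1507 c5642 c266 c19421 (k8 c9730 c5342 c5560 c6205 c5332 c1684 c8792 c22898 (k4 c5663 c10425 c5460 c21911 (k2 c17954 c5670 (k1 c4194 k0)))))) (by decide +kernel)
def c23386 : PP 9 3 T 0x4000000000001000100040000000000000000000000000000000000000000000000000000000000000000000140000000000000000000000000000000 := rS 0x9d3e7cdb0a4c728659cc0205 (k8 c21870 c23344 c9719 c20621 c5209 c19421 c8199 c5236 (k4 c5670 c5572 c5570 c18801 k0)) (by decide +kernel)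
def c23387 : PP 9 3 T 0x2000000000000000000000000000000000000040004000000000000000040000000000000000000000000000001400000000000000040000000000800 := rS 0xf5f6b390ef3 (k4 c20781 c693 c22445 c5543 (k2 c2339 c5657 k0)) (by decide +kernel)
def c23388 : PP 9 3 T 0xa000000000000000100000000000000000200040004000200000000000000000440000000000000000000000024400002000000000000000000000001 := rS 0x3644578bd814ff06c4922713997cf299118840437dba6dc3b4ce83cda05 (k8 c21870 c22545 c21871 c19356 c5211 c5460 c5536 c17720 (k8 c5435 c5642 c266 c9733 c7114 c1577 c62 c9719 (k8 c2871 c10423 c23375 c14556 c20798 c5645 c23387 c499 (k2 c504 c22131 (k1 c21890 k0))))) (by decide +kernel)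
def c23389 : PP 9 3 T 0x40002000000000040000100000000000000000000040004000200000000000000000000000000000000000000000001440000000000100000000000010808 := rS 0x6cde2717b2446e2359ed33a6d (k8 c22545 c19356 c5211 c5532 c9733 c5435 c694 c23387 (k4 c10427 c499 c21890 c22131 k0)) (by decide +kernel)
def c23390 : PP 9 3 T 0x2002000000000000000000000000000000000000000000000000000000000000000000000000000000000000000001400000000000000000000000000000 := rS 0x19e87 (k2 c5499 c5543 (k1 c22445 k0)) (by decide +kernel)
def c23391 : PP 9 3 T 0x2000000000000000100000000000000000200040004000200000000000040000440440000000000000000000155400000000002000000000000000000 := rS 0xd480235e4907a8301637ceb87da0f (k8 c21871 c23390 c5460 c19356 c5435 c23387 c5645 c20810 (k4 c14556 c5657 c10035 c451 (k2 c20751 c3072 k0))) (by decide +kernel)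
def c23392 : PP 9 3 T 0x100040000000000000000000004000000000000000000000000000040000000000000000044000002000000000100000000000200 := rS 0x3fc891205035ec7ddb923e69b708efc0111e92c8e731fb7f68d769f88ee1d0c86dc6794cd2c479d108080237946c50241ac03cda05 (k8 c21870 c22545 c21871 c23096 c5340 c1744 c23371 c5209 (k8 c5435 c23344 c5642 c266 c19356 c9733 c23385 c7114 (k8 c1577 c17330 c20794 c6205 c20811 c10409 c23386 c5579 (k8 c5465 c5211 c23328 c5318 c9719 c5562 c5342 c5560 (k8 c5558 c10425 c5456 c5460 c5536 c19019 c3590 c17720 (k8 c23388 c23391 c20809 c5645 c23379 c23389 c20798 c504 k0)))))) (by decide +kernel)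
def c23393 : PP 9 3 T 0x400000000001000100040000000000000000040004000000000000000000000000000000000000000048000050400000000002000800000000002600 := rS 0x4f1c52827787b1e6ad68b511aff48048e6210101c46ab8880553b4ceca1aed3f120483587bbd40a6d (k8 c22545 c21870 c20810 c20809 c23096 c5340 c1744 c23386 (k8 c5579 c5465 c5209 c19356 c5211 c5531 c23344 c9730 (k8 c20861 c9733 c30 c5642 c266 c9719 c293 c294 (k8 c3007 c10035 c20751 c1711 c2891 c449 c5657 c20842 (k4 c434 c430 c2868 c1589 (k1 c21335 k0)))))) (by decide +kernel)
def c23394 : PP 9 3 T 0x4000000000000004000000000000000000000000000000000000001000001000000000440000000500000062000150400000000005400000011440000008 := rS 0x2bf6eb44f2b44ed409a34426d (k8 c22545 c266 c10035 c3036 c20751 c267 c2891 c1589 (k4 c3584 c5572 c1248 c5683 k0)) (by decide +kernel)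
def c23395 : PP 9 3 T 0x4000000000000004000100000000000000000000000000000000000000000000000000200000000100000060000010040000000000000000000000000000 := rS 0xae386dd3cad (k4 c2891 c1589 c5572 c21335 (k2 c5683 c20748 k0)) (by decide +kernel)
def c23396 : PP 9 3 T 0x2000400000000001000100040000000000000000000000000000001000004000000540000000000401000048000048400000000001000000000040000200 := rS 0x8ff9c09aa9166a5162c9d9fbde0fd79c05a21914894864b239cc420211aaf3b2888805aed3f120483586782c0ef5061f40a6d (k8 c22545 c21870 c1690 c1685 c20810 c30 c690 c20767 (k8 c23096 c5340 c1744 c23386 c5579 c5465 c23344 c9730 (k8 c5209 c19356 c20861 c9733 c5642 c266 c9719 c5562 (k8 c5342 c5561 c5559 c8199 c6205 c5501 c5502 c5540 (k8 c5542 c20842 c17892 c5401 c1177 c1330 c430 c13053 (k4 c23394 c23395 c3627 c5550 (k2 c20799 c6202 k0))))))) (by decide +kernel)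
def c23397 : PP 9 3 T 0x400000000001000100040000000000000000040004000000000000004000000540000000000000000048000048400000000000000000000040000200 := rS 0x36466789c04df280ab7de8c6ab4206f2f68a44a4b239cc04018aaa567b4ceca3c48120d6226f77a924fa0b038307405 (k8 c21870 c1684 c1685 c30 c690 c1690 c23393 c20810 (k8 c20809 c23309 c23096 c5340 c1744 c23386 c5209 c19356 (k8 c5211 c5532 c5531 c5414 c23344 c5642 c9719 c5562 (k8 c5342 c5559 c8199 c23396 c5657 c2627 c449 c1711 (k8 c20727 c5505 c2031 c2142 c5694 c17931 c268 c434 (k2 c753 c22131 (k1 c5487 k0))))))) (by decide +kernel)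
def c23398 : PP 9 3 T 0x20000000000000000000000000000004000000000000008001000000000000000000000000200000000000000005400000011440000008 := rS 0x98e2b533bf7641d10c55666d (k8 c22545 c5532 c5414 c266 c20811 c22131 c20237 c5487 (k4 c2572 c753 c3584 c268 k0)) (by decide +kernel)
def c23399 : PP 9 3 T 0x400000000001000100040000000000000000040004000000000000000000000540000000000000000048000048400000000000000000000040000200 := rS 0x5a89d62f046355a0cd56fb5fc493e8a44a4b23884040111c5567b4ceca3c48120d60740c0581cda05 (k8 c21870 c22545 c30 c690 c1685 c1684 c23096 c5340 (k8 c1744 c23386 c5209 c19356 c5211 c5532 c5414 c9733 (k8 c23344 c5642 c266 c5562 c5342 c5559 c8199 c1690 (k8 c23393 c23397 c5544 c2892 c22177 c20893 c1710 c20727 (k4 c23398 c1330 c434 c2573 (k1 c3584 k0)))))) (by decide +kernel)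
def c23400 : PP 9 3 T 0x400000000001000100040000000000000000040004000000000400000000000200000000000000000048000050400000000000000800000040002600 := rS 0x163b357bc1fbb7f62d1e62756b4426fff7b509290468a44a4b23884040711aae22018aaa567b4ceca1aed3f120483587bbd40a6d (k8 c22545 c21870 c20810 c20809 c23096 c5340 c1744 c23386 (k8 c5579 c5465 c5209 c19356 c5211 c5532 c5531 c5414 (k8 c23344 c9730 c20861 c9733 c30 c5642 c266 c5562 (k8 c5342 c5559 c8199 c22674 c21491 c23393 c20751 c20761 (k8 c20750 c3036 c1711 c2891 c267 c449 c3584 c5657 (k4 c5422 c5542 c20842 c1248 (k2 c5401 c1330 (k1 c5683 k0)))))))) (by decide +kernel)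
def c23401 : PP 9 3 T 0x400000000000000100040000000000000000000000000000000000000000000000000040000000000000000040000002000000000100000000000200 := rS 0x9cdc7c7007c160c1d44cf4e33ca48ee970c8a44a4b2386c3a079db7d0241ac2644621010046f1559ed2979d946c40a6d (k8 c22545 c21870 c23371 c5209 c19356 c23385 c5211 c5532 (k8 c5414 c5435 c23344 c5642 c266 c9733 c7114 c23096 (k8 c5340 c1744 c23328 c23384 c30 c20811 c20794 c5562 (k8 c5342 c5559 c8199 c6205 c20768 c10409 c1573 c1577 (k8 c17330 c23392 c23309 c1684 c1685 c690 c23378 c23399 (k4 c23400 c1580 c2814 c18082 k0)))))) (by decide +kernel)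
def c23402 : PP 9 3 T 0x400000000000000100040000000000000000000000000000000000000000000000000040000000000000000040000000000000000100000000000200 := rS 0x3c06b1d1e43f133826f6e6f2f24dc66150f89329da5b7c32293998c42020b8050241ac0dc479d946c40a6d (k8 c22545 c21870 c23371 c5209 c19356 c9733 c5435 c23096 (k8 c5340 c1744 c23344 c1507 c5642 c266 c19421 c9719 (k8 c8199 c6205 c23328 c23385 c5855 c7114 c23386 c5578 (k8 c23401 c5466 c262 c5663 c17836 c19210 c1120 c5666 (k4 c755 c23378 c23373 c6193 (k2 c18004 c6192 (k1 c5456 k0))))))) (by decide +kernel)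
def c23403 : PP 9 3 T 0x400000000000000100040000000000000000000000000000000000000000000000000040000000000000000000000000000000000100000000000200 := rS 0x3fd0e8f4896a06f4054548ad77bbf03cd24b3c0dc8d1da7541b35a89d96b34d9ed329564a4f6c5e4fc4cc3e33f4ec322912844864123d6222630d8840417008fc479d946c4da05 (k8 c21870 c22545 c23371 c5209 c19356 c9733 c5318 c23344 (k8 c1507 c5642 c266 c20794 c19421 c9730 c23096 c5562 (k8 c5340 c5561 c5558 c5559 c8199 c6205 c23384 c23402 (k8 c5577 c17682 c22991 c2881 c19577 c18926 c262 c20845 (k8 c20765 c1521 c22773 c1120 c5574 c5420 c5570 c5422 (k8 c18617 c19210 c8792 c22555 c18789 c18420 c22131 c22737 (k8 c1234 c6193 c1215 c499 c20871 c2936 c15434 c1112 (k8 c1216 c2631 c19059 c3038 c2311 c693 c2341 c20926 k0)))))))) (by decide +kernel)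
def c23404 : PP 9 3 T 0x800000000001000000040000000000000000000000000000000000000000000000000040000000000004000000000000000000000100000000000201 := rS 0x780d63a3c87da29d4d9ed32f02f18433113186c42020b8dc479d941dc0a6d (k8 c22545 c21870 c5493 c5209 c19356 c9733 c5435 c1507 (k8 c5642 c266 c20794 c19421 c9730 c6205 c1573 c5663 (k8 c19294 c1521 c22773 c1120 c8792 c20815 c19607 c23373 (k4 c6193 c18004 c6192 c5456 k0)))) (by decide +kernel)
def c23405 : PP 9 3 T 0x100040000000000000000000000000000000000000000000000000040000000000000000000000000000000000100000000000200 := rS 0x1eaf77987dfa0c1d44fc2a9d91e9c699da4efc54b6f9fde29d3017d24d3648d7bc23ce8de51b13186c3a2101004628120d600a6d (k8 c22545 c21870 c23096 c5340 c1744 c20764 c23344 c5642 (k8 c266 c20811 c20794 c19421 c23371 c5209 c5435 c19356 (k8 c9733 c23403 c5450 c5494 c5496 c23404 c1517 c262 (k8 c1695 c429 c19577 c23328 c23385 c23386 c23236 c5211 (k8 c7114 c5466 c23392 c22131 c5531 c5457 c23309 c1684 (k4 c1685 c5405 c23378 c448 (k2 c20809 c20810 (k1 c8250 k0)))))))) (by decide +kernel)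
def c23406 : PP 9 3 T 0x25000000000000000000000000040004000000000000000044000000001100000004001140000000000000800000000001000040000800 := rS 0x7eb45e9ed4d9ad2aa9 (k8 c5531 c20765 c2305 c1119 c18006 c5657 c1925 c2337 (k1 c20731 k0)) (by decide +kernel)
def c23407 : PP 9 3 T 0x800000000001000100040000000000000000000000000000000000004000000000010000000400000001000040000001000000000000000000000200 := rS 0xe1f3db9bdbed750f8832293985d0241ac24c04d566978c601ceca0da05 (k8 c21870 c22545 c5209 c19356 c23344 c19421 c5663 c5495 (k8 c5454 c5642 c262 c23096 c5340 c1744 c1507 c9719 (k8 c8199 c6205 c23386 c1122 c5465 c5580 c17836 c19210 (k2 c20074 c5666 (k1 c10427 k0))))) (by decide +kernel)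
def c23408 : PP 9 3 T 0x800000000001000100040000000000000000000000000000000000000000000000000000000000000000000000000000000000000900000000000200 := rS 0x205f246c4fc67ef6bfda3017e3d03c8f59bde760ada2755623f7bc33a5e9410c82478886c04313da6592634bb35a7b33080466873bbcc6a91a5846b00d6303cda05 (k8 c21870 c22545 c21871 c23405 c2480 c23096 c5558 c5332 (k8 c13457 c5450 c448 c5493 c798 c20738 c23344 c726 (k8 c22161 c5496 c5495 c5452 c19421 c20845 c2438 c162 (k8 c20764 c5642 c20794 c9730 c5562 c5340 c5561 c5209 (k8 c5663 c19356 c19294 c14662 c9733 c20861 c8792 c5211 (k8 c5645 c5323 c499 c5532 c2311 c23406 c1216 c1215 (k8 c1927 c1925 c2341 c5542 c23407 c5577 c22991 c807 (k2 c19538 c20883 (k1 c5550 k0))))))))) (by decide +kernel)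
def c23409 : PP 9 3 T 0x1000000000000000000000000000000000000000004000100100000080000000400000000000000000001000080000000000000000011000000000000 := rS 0x1bff3 (k2 c5550 c14614 (k1 c10493 k0)) (by decide +kernel)
def c23410 : PP 9 3 T 0x800000000000000100040000000000000000000000000000000000000000000000000000000000000000000000000000000000000900000000000200 := rS 0x11bdb68f5f6bfa070170c4cfde347cede08d3eca52bb048bcdc74b0c8447b1d2386c3a310ba048358f083526026498d2ed569ecc6a61008cd0e776303cda05 (k8 c21870 c22545 c21871 c23405 c5493 c798 c20738 c23344 (k8 c726 c5450 c22161 c5496 c5454 c5452 c19421 c20845 (k8 c5642 c262 c2480 c5535 c23096 c5340 c1744 c1507 (k8 c20764 c20811 c20794 c5562 c5341 c5560 c5558 c6205 (k8 c5332 c1773 c448 c13457 c23408 c5446 c22595 c21924 (k8 c23356 c3577 c22723 c2487 c20755 c5670 c810 c3058 (k8 c9158 c23409 c20762 c5544 c2341 c5228 c5657 c5409 (k1 c499 k0)))))))) (by decide +kernel)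
def c23411 : PP 9 3 T 0x6000120000000000000000200080004000100000100009000000000000000000104000000404080040400000000000000000100401000 := rS 0x6dc247056c562701f68a4224b2388c920b37a85220f (k8 c21871 c5374 c5398 c2919 c5516 c5334 c5331 c5562 (k8 c5342 c5558 c8199 c5544 c178 c20798 c3011 c2893 (k4 c23357 c12614 c22814 c22011 k0))) (by decide +kernel)
def c23412 : PP 9 3 T 0x4800000000000000000000000000000000000000004000100100400004000000000000080000000000001500080000000000000000001000000000000 := rS 0x10181b8fc23569a1ceee1 (k8 c3058 c5493 c798 c5496 c5450 c5535 c2619 c23409 (k2 c9158 c20762 k0)) (by decide +kernel)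
def c23413 : PP 9 3 T 0x800000000002000100040000000000000000000000000000000000000000000000000000000000000000000000000000000000000100000000000200 := rS 0x36edf38fce24ff48bf738ab3f27046b1f1a3e953b781ad1a7d94a553619148f63a738886c3a211885d0241ac1efc2374c83526026498d2ed5d98d4c20119a1ceec61d9b40a57 (k8 c21872 c21870 c22545 c23410 c23405 c5493 c798 c20738 (k8 c23344 c726 c5450 c22161 c5454 c5452 c19421 c20845 (k8 c5642 c262 c2480 c2438 c2326 c5535 c162 c23096 (k8 c5340 c1744 c1507 c20764 c266 c20811 c20794 c9730 (k8 c9719 c5341 c5560 c8199 c6205 c5397 c5446 c22595 (k8 c21924 c23356 c2482 c3577 c22723 c5654 c2487 c20755 (k8 c1330 c5331 c17923 c5670 c1281 c8792 c1239 c5374 (k4 c23411 c23412 c5547 c755 (k2 c2513 c22420 (k1 c17735 k0)))))))))) (by decide +kernel)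
def c23414 : PP 9 3 T 0x41000100040000000000000000000000000000000000000000000000000080000000000000000000000000000000000400000000400000 := rS 0x70f99bdbe91f11fc324123d60e60130acf699d94784da05 (k8 c21870 c22545 c5535 c5209 c19356 c5235 c5532 c726 (k8 c23344 c9719 c23096 c5562 c5340 c6205 c18926 c5236 (k4 c800 c5580 c17836 c19019 (k2 c5666 c10427 k0)))) (by decide +kernel)
def c23415 : PP 9 3 T 0x800000000000000100040000000000000000000000000000000000000000000000000000000000000000000000000000000000000100000000000200 := rS 0x3fe06f446c07e48f48878fd13f19f696a05a89d969fdb38d6715356d13a23786747e5e946c476873b8a44a112591eb1113186c42173df85320d499858c020083c0a6d (k8 c22545 c21870 c21871 c23344 c5642 c23405 c726 c262 (k8 c2480 c2438 c5535 c162 c1507 c266 c20794 c19421 (k8 c9730 c23096 c5562 c5342 c5558 c5559 c8199 c5493 (k8 c798 c23410 c23413 c5209 c5663 c5318 c19356 c19294 (k8 c9733 c8792 c5235 c18034 c5414 c5532 c4739 c23414 (k8 c5572 c5420 c5570 c5422 c19210 c17941 c18801 c18620 (k8 c2600 c1122 c15694 c13457 c2487 c5188 c19568 c807 (k4 c1216 c5550 c2341 c20762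 k0)))))))) (by decide +kernel)
def c23416 : PP 9 3 T 0x400000000001000100040000000000000000040000000000000000000000000000000080000000000001400080000000000000000000000000000000 := rS 0x134cd46a58d503d9ad44ecb38c07e53bdb27e27e30c8a44a412591eb0730da4c04c94a978c26300acf699d947840a6d (k8 c22545 c21870 c5535 c5209 c19356 c5235 c5532 c23344 (k8 c19421 c726 c5663 c20765 c20845 c5642 c262 c20794 (k8 c9719 c23096 c5562 c5342 c5340 c5559 c8199 c6205 (k8 c5577 c22991 c2881 c18926 c23383 c19538 c19568 c5571 (k8 c5420 c5570 c5422 c18617 c5550 c13132 c22737 c18789 (k2 c22894 c2482 (k1 c1232 k0))))))) (by decide +kernel)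
def c23417 : PP 9 3 T 0x400000000041000000000000000000000000000000000000000000000000000000000400000000000000200000060000800000000000000000000000 := rS 0x36697332b7deaf (k4 c20748 c5505 c2031 c753 (k2 c23303 c5487 (k1 c17795 k0))) (by decide +kernel)
def c23418 : PP 9 3 T 0x1000100040000000000000000040000000000000000000000000000000000000000000000000000000000000000000100000000000200 := rS 0x36697682b59bedf7bf91a8781c07e513579c36e6f6fa87c4cb3fa3de60a488645211239cc361d0ba048358678352602ef978c26355c4402b3da67651e1631b40a0f (k8 c21871 c21870 c22545 c23405 c5535 c5209 c19356 c5235 (k8 c5532 c23344 c9730 c20861 c19421 c726 c5663 c23415 (k8 c5642 c262 c2480 c20739 c23096 c5340 c1744 c1507 (k8 c20811 c20794 c9719 c5562 c5558 c8199 c6205 c13457 (k8 c5645 c20781 c2311 c23416 c20621 c23386 c1122 c5580 (k8 c17836 c19210 c5666 c20748 c755 c10427 c19568 c5550 (k8 c22895 c23417 c20762 c20818 c5544 c2506 c2892 c5688 (k2 c23303 c19830 (k1 c17795 k0))))))))) (by decide +kernel)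
def c23419 : PP 9 3 T 0x1000100040000000000000000000000000000000000000000000000000000000000000000000000000000000000000100000000000200 := rS 0x6dc774ada67651580b807c2c6 (k8 c23405 c5535 c23344 c1507 c23096 c5209 c19356 c5235 (k4 c23418 c5332 c9399 c23414 k0)) (by decide +kernel)
def c23420 : PP 9 3 T 0x1400000000000000100040000000000000000000000000000000000008000000000014000000000000000000110000000000000000000000000000000 := rS 0x19bed (k2 c5544 c22177 (k1 c5688 k0)) (by decide +kernel)
def c23421 : PP 9 3 T 0x40000100040000000000000000080000000000000000080000000400000000000000000000000000000000000000000100000000000200 := rS 0x114132d596b31f9fdc0d36ffcc3229128f4e681f08dd26614fa847649da8340e916b8d2779c4e0842e99119ed8d1194ec0040119f7c6241ac014da57 (k8 c21872 c22545 c21870 c23096 c5340 c20764 c23415 c20738 (k8 c23344 c5642 c23419 c22595 c9730 c23405 c162 c5331 (k8 c2438 c1507 c266 c17923 c8792 c18477 c5653 c1763 (k8 c5374 c30 c2480 c13501 c5334 c5332 c5398 c5448 (k8 c726 c262 c2326 c5535 c1744 c9719 c5560 c5559 (k8 c8199 c6205 c5550 c2517 c2088 c18015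 c10493 c442 (k4 c2898 c20621 c1342 c3579 (k2 c5685 c3047 k0)))))))) (by decide +kernel)
def c23422 : PP 9 3 T 0x40000100040000000000000000080000000000000400000000000000000000000000000000000000000000000000000100000000000200 := rS 0xf1348fecc6ffb7e70081b8d1a8f43a45fed11a4ef389c1085d32233dc465233188ecfbb0010047bdf67f858c8120d600a6d (k8 c22545 c21870 c23096 c5340 c1744 c23405 c5535 c20739 (k8 c23415 c5560 c23344 c5642 c23419 c21924 c5332 c20764 (k8 c20738 c22595 c9730 c162 c5331 c2438 c1507 c266 (k8 c17923 c8792 c18477 c5653 c1704 c23420 c5374 c5373 (k8 c2487 c23356 c2619 c23421 c20762 c5592 c5502 c2953 (k4 c5688 c10493 c2077 c5670 (k1 c5579 k0))))))) (by decide +kernel)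
def c23423 : PP 9 3 T 0x40000100000000000000000000000000000000000000000000000000000000000000014004000000050000000000011000001001400208 := rS 0x7c7f6589c5281 (k4 c1744 c8199 c268 c8797 (k2 c17735 c3579 (k1 c276 k0))) (by decide +kernel)
def c23424 : PP 9 3 T 0x9400000000000000000000000000000000200040000000100000000020000000000004000000000000000000000000000000000000004000000000000 := rS 0x13a6afb47b1d (k4 c5341 c5560 c5502 c3073 (k2 c5165 c17803 k0)) (by decide +kernel)
def c23425 : PP 9 3 T 0x40000100040000000000000000000008000000000000000000000000000000000000000000000040000000000000000100000000000200 := rS 0x2595a357886c3a316498d2aaf1fb2fdf01f1207becf19a1f39e194a469713382853e933085ce64112864220d46a3cfbb0010047b58630141e6d (k8 c22545 c21871 c21870 c23405 c23096 c5560 c23344 c5642 (k8 c23419 c21924 c2487 c23356 c2480 c5558 c6205 c5559 (k8 c5340 c9719 c1507 c726 c262 c5448 c5398 c23423 (k8 c755 c23422 c13457 c22595 c5535 c5215 c5373 c20738 (k8 c20739 c23415 c1744 c5670 c23424 c20818 c20621 c276 (k8 c20748 c5446 c19421 c20845 c20764 c20811 c20794 c5323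 (k4 c5324 c23172 c3577 c23303 k0))))))) (by decide +kernel)
def c23426 : PP 9 3 T 0x40000100040000000000000000000000000000000000000000000000000000000000000000000040000000000000000100000000000200 := rS 0xb0787cf66485aed7d8229d899963f14a07be8d8ae729713382853e933085ce6411e896b019f0b1a53b0010040a6d (k8 c22545 c21870 c23344 c5642 c23419 c22595 c23405 c5535 (k8 c6205 c23096 c5559 c5560 c5340 c9719 c1507 c726 (k8 c262 c5448 c5398 c23423 c755 c23422 c5215 c3049 (k8 c23356 c23415 c1744 c8199 c276 c20621 c3579 c23425 (k8 c23369 c5165 c5409 c1339 c485 c19101 c5588 c22131 (k2 c18727 c1330 k0)))))) (by decide +kernel)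
def c23427 : PP 9 3 T 0x40000100040000000000000000000000000000000000000000000000000000000000000000000000000000000000000100000000000200 := rS 0x16bb5d97b044d79d8d1abe33f67297133806452253985d0241f08dd3293649858c63efa7d429b4aca4fa02008f6b08dd81b40a57 (k8 c21872 c21870 c22545 c23419 c23356 c23096 c5560 c23344 (k8 c5642 c21924 c22595 c5446 c5397 c5398 c5448 c23415 (k8 c19421 c23405 c726 c20845 c262 c2438 c2326 c5535 (k8 c5340 c1744 c1507 c9719 c5559 c8199 c6205 c23423 (k8 c755 c23422 c5215 c23426 c5577 c20749 c23363 c5324 (k4 c1763 c23369 c5165 c23364 (k2 c5409 c1339 (k1 c19101 k0)))))))) (by decide +kernel)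
def c23428 : PP 9 3 T 0x100000000000000000000001400010001400080050400000000018800000000000000 := rS 0x22b136f38cde6d (k4 c22545 c2919 c1773 c495 (k2 c810 c2950 (k1 c3604 k0))) (by decide +kernel)
def c23429 : PP 9 3 T 0x100040000000000000000000000000000000000000000000000000000000000000000000000000000000000000100000000000200 := rS 0x6ffce2823a50ed227e090f96a2765acce3b60fa3cd67d94a6d429fd824c1a611bf858c19148947a412591eb073888840417009b4ae05 (k8 c21870 c21872 c22545 c23344 c1507 c5642 c266 c9730 (k8 c9719 c23096 c5562 c5342 c5340 c5560 c5559 c8199 (k8 c6205 c23405 c5535 c2326 c726 c2480 c262 c23419 (k8 c5448 c5398 c5397 c22595 c21924 c2482 c2487 c1111 (k8 c23427 c5571 c5574 c5420 c5570 c5422 c22255 c17953 (k8 c276 c3037 c23428 c5654 c5331 c17941 c17998 c2950 (k1 c22420 k0))))))) (by decide +kernel)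
def c23430 : PP 9 3 T 0x800000000044000000000000000000000000000000000100100400000000000000000080000440000015500080000000000000000015010001400008 := rS 0xb0783fa76970d87593e3 (k8 c5577 c10198 c20811 c20794 c5452 c22723 c23412 c3577 (k2 c23312 c1330 k0)) (by decide +kernel)
def c23431 : PP 9 3 T 0x100040000000000000000000000000000000000000000000000000000000000000000000080000000000000000000000000000200 := rS 0x7fce92ddfd98d59b0148c0fe4d5f18a63a47888c7c2f767985923389a551a8f3e8f55e708a9ad361f0ba4d8c4910eddc64bac08c32b3da67419b0948e00e02398040a6d (k8 c22545 c21870 c23344 c9719 c5642 c30 c23429 c5317 (k8 c5209 c273 c5522 c22619 c5532 c6205 c395 c23096 (k8 c5342 c2617 c23239 c266 c3643 c274 c3633 c1507 (k8 c2473 c6036 c2482 c5414 c19105 c20748 c5560 c21924 (k8 c2487 c23356 c5446 c2598 c20738 c10198 c1573 c2559 (k8 c3642 c5534 c20764 c9730 c5562 c5341 c8199 c5577 (k8 c20749 c5188 c5550 c5589 c5592 c22894 c440 c22161 (k4 c23430 c23348 c5653 c8303 (k1 c17808 k0))))))))) (by decide +kernel)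
def c23432 : PP 9 3 T 0x100040000000000000000000000000000000000000000000000000000000000000000000000000000000000000000000000000200 := rS 0xe1f1244ffb4359f6279d4dec1c6c60607d27291c2042e070c8f4824bac0080205 (k8 c21870 c23344 c5642 c23096 c5342 c5340 c5560 c6205 (k8 c30 c1507 c1744 c23429 c5317 c3633 c2473 c273 (k8 c274 c2617 c5209 c6036 c5522 c2598 c21924 c2482 (k4 c22619 c23431 c800 c5670 (k2 c21491 c23305 k0))))) (by decide +kernel)
def c23433 : PP 9 3 T 0x8000000000000000100040000000000000000000008000100000000000000000000000000000000000000000040000000000000000004000000400000 := rS 0x2595bef0db252a350320597b71f8a760af135603293048740401788c40a57 (k8 c21872 c21870 c5476 c5323 c23344 c5642 c20811 c23432 (k8 c261 c6205 c23096 c17859 c2987 c5209 c8199 c5576 (k8 c17858 c5464 c5463 c5643 c20806 c5446 c5396 c20794 (k4 c23148 c23172 c3577 c23303 k0)))) (by decide +kernel)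
def c23434 : PP 9 3 T 0x1001000000000000000000000000000000000000000000000000000000000055000000004000000005000400000000000000000000000008000440000008 := rS 0x198fc0d874426d (k4 c22545 c266 c20811 c20794 (k2 c3581 c12046 (k1 c2504 k0))) (by decide +kernel)
def c23435 : PP 9 3 T 0x20002020000100040000000000000008000000000000000000000000000000002000000000400000020000000001000000018000000008 := rS 0x8cc5e4f1b5e48b0a2e158b6cfb9c6e06438b92df63f13488496e6d (k8 c22545 c5533 c267 c3036 c755 c3782 c9704 c5391 (k8 c5390 c5606 c5607 c5611 c17761 c19938 c269 c1115 (k8 c5652 c1348 c592 c593 c2692 c758 c3076 c3309 (k1 c3616 k0)))) (by decide +kernel)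
def c23436 : PP 9 3 T 0x1100041000000000400000000000000110000000000000140000000400400000000000000000020000000000000000000000000000 := rS 0x3ed8493bbd4ebdbbf9370a34fa9543b0 (k8 c5209 c5398 c5399 c5448 c5449 c5213 c5217 c5613 (k4 c5617 c5428 c5473 c757 (k2 c3622 c5677 (k1 c5638 k0)))) (by decide +kernel)
def c23437 : PP 9 3 T 0x1001400000000040400100000000000000800000004000000000500040000001140000000004010000140004000000000000040000104008400555400000 := rS 0xf8f97eb826013b222dc3a9f70dd26eb4576f (k8 c5349 c5601 c5602 c5604 c2228 c20723 c5428 c5429 (k8 c5612 c5615 c17890 c3580 c3583 c5630 c5618 c5626 (k1 c5205 k0))) (by decide +kernel)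
def c23438 : PP 9 3 T 0x140000000000000000000000000000000000000000000000000020050000000000000000000000000000000001000000000000000000000000000000000000 := rS 0x22ff7 (k2 c5595 c3078 (k1 c5697 k0)) (by decide +kernel)
def c23439 : PP 9 3 T 0x8400000000000000100040000000000000000000008000000000000000000000100000080000000000000000040000000000000000200000000400000 := rS 0x8dc5fef19fae11ccef5da9d7be4dc59c5fa587ac0ccd561a5da0f6191dfdbaf7a8c4b747789163a1b0e88d32a352b5ddaeb248efc2378fafc24703197cde73409859f7b479f47b9c3d9e5e7890527556b954add69f350b8c96b3da0183e9b65edc7e296fc544d580ca4c1221010053fb0949b40a57 (k8 c21872 c21870 c22545 c5317 c5209 c5448 c23344 c5642 (k8 c266 c23432 c261 c6205 c23096 c17859 c3047 c5580 (k8 c8199 c5576 c17858 c5464 c5397 c2472 c5643 c13650 (k8 c5532 c5342 c2617 c5398 c17766 c5920 c5533 c5531 (k8 c5415 c5413 c5412 c674 c4653 c20781 c2382 c162 (k8 c8203 c5560 c21924 c2487 c3815 c20739 c5445 c5463 (k8 c9719 c17836 c1450 c19421 c3599 c267 c5015 c3782 (k8 c85 c5534 c154 c20539 c5581 c5467 c5465 c5399 (k8 c5449 c2436 c395 c20811 c20794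 c5341 c5326 c5323 (k8 c5327 c5474 c5476 c5477 c5479 c17757 c672 c23433 (k8 c23434 c398 c8190 c3794 c1710 c21936 c20824 c4589 (k8 c23435 c19425 c23437 c5213 c5217 c5617 c5428 c5430 (k8 c5473 c17955 c3622 c5633 c3506 c5638 c3452 c2691 (k1 c5697 k0)))))))))))))) (by decide +kernel)
def c23440 : PP 9 3 T 0x8400000000000000100040000000000000000000000000000000000000000000100000080000000000000000040000000000000000200000000400000 := rS 0x583c1193bf088ce0cb3197cdea14f9cd02613e8f76e3f14d62960ad9ed004010c87d37b0ce1ec0d29049e4ae05 (k8 c21870 c21872 c2382 c23432 c5317 c5643 c162 c8203 (k8 c5209 c5397 c2472 c6205 c23344 c5642 c13650 c18383 (k8 c674 c5516 c23096 c8199 c5576 c17858 c5560 c21924 (k8 c5445 c5463 c9719 c5448 c5398 c17836 c1450 c19421 (k8 c5464 c3599 c395 c5534 c23439 c23369 c22131 c754 (k1 c1330 k0)))))) (by decide +kernel)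
def c23441 : PP 9 3 T 0x800000000022000000000000000000000000040000000000000000000004000000000000000000000004000000000000000000000200000001400008 := rS 0x7abdfdb3b668cd9295 (k8 c5446 c5396 c5492 c5495 c22723 c17700 c397 c2474 (k1 c5657 k0)) (by decide +kernel)
def c23442 : PP 9 3 T 0x1400000000044000020000000000000000000040004000100000000000000000000000000000000000000000000020000000000000000010400000008 := rS 0x2c1e08c (k4 c23369 c22131 c754 c1330 k0) (by decide +kernel)
def c23443 : PP 9 3 T 0x41000400000000000401100040000000000000000004000000000400040000001140200000404414000001001000000020000040000104208000000400000 := rS 0x92467eb1bc6b99debb5ef93716717c74361d49827c2234c884040151a943e9bdb8645358d84a4da05 (k8 c21870 c22545 c5317 c5209 c23096 c8199 c6205 c17858 (k8 c5397 c2472 c5399 c5449 c23344 c5642 c266 c2436 (k8 c395 c5534 c23432 c261 c20811 c20794 c5341 c19425 (k8 c23437 c5213 c5217 c5617 c5430 c5473 c17955 c2876 (k4 c3133 c5633 c3505 c23436 (k1 c23438 k0)))))) (by decide +kernel)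
def c23444 : PP 9 3 T 0x20002020000100040000000000000008000000000000000000000000000000000000000000400000020000000001000000018000000008 := rS 0x11b8cc5e4ebc916145c2b16ad6cfb9c6e06438b92df63f1348849666d (k8 c22545 c5532 c267 c3036 c755 c3782 c9704 c5391 (k8 c5390 c5606 c5607 c5611 c17761 c19938 c23435 c269 (k8 c1115 c5652 c1348 c592 c593 c758 c3076 c3310 (k2 c2906 c3616 k0)))) (by decide +kernel)
def c23445 : PP 9 3 T 0x8000000000000000100040000000000000000000000000000000000000000000000000080000000000000000040000000000000000200000000400000 := rS 0xd47fac61da53330d2ed07b1dc65edd7bd4625ba3bc48b3a7077fe7b35baa572ab4ee25e74bce23f697b0533cf61b0e88cf21f4db5ddadf75edc531f5f9c196632f818dea14f9cd02613eec07a910909ab019498240401248fe523bf08dc0a57 (k8 c21872 c21870 c85 c5534 c154 c5317 c5576 c20539 (k8 c23344 c5642 c23432 c261 c6205 c23096 c17859 c267 (k8 c3036 c5560 c5209 c21924 c5445 c5463 c9719 c5448 (k8 c5398 c17836 c5643 c1450 c19421 c5464 c3599 c5015 (k8 c3782 c8199 c17858 c5581 c5580 c5467 c5465 c5397 (k8 c2472 c2382 c395 c20811 c20794 c162 c20739 c674 (k8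 c3815 c13650 c2487 c8203 c5516 c20781 c4653 c5412 (k8 c5413 c5415 c5531 c5533 c18383 c17766 c23441 c23440 (k8 c23442 c5326 c5323 c5327 c5474 c5476 c5477 c5479 (k8 c17757 c23433 c672 c23434 c398 c8190 c3794 c21936 (k4 c23444 c23443 c4589 c5034 (k2 c20824 c1711 k0)))))))))))) (by decide +kernel)
def c23446 : PP 9 3 T 0x40000000000000000040000000000000000000000000000000040000000000000000000000000400000000200000000000001 := rS 0xda6722202f088c321f4dec25205 (k8 c21870 c5317 c5209 c5397 c2472 c6205 c395 c5534 (k4 c5642 c9730 c5215 c6197 (k1 c19702 k0))) (by decide +kernel)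
def c23447 : PP 9 3 T 0x8000000000000000100040000000000000000000008000000000000000000000000000000000000000000000040000000000000000200000000400000 := rS 0x7fc0e02d1ceb3c65df7a96de6452591d9295899c1966337a853e7340984fbb01ea442426ac0652602248fc77e11bbde94c72f81a52090095c0a6d (k8 c22545 c21870 c21872 c23344 c23432 c5317 c5643 c1450 (k8 c23445 c23446 c5333 c85 c5534 c154 c5576 c20539 (k8 c5642 c261 c6205 c23096 c17859 c267 c3036 c5560 (k8 c5209 c21924 c5445 c5463 c9719 c5448 c5398 c17836 (k8 c19421 c5464 c3599 c755 c5446 c5396 c5562 c5342 (k8 c5326 c5325 c5474 c5477 c22723 c23433 c2558 c18477 (k4 c2129 c19568 c21406 c23420 (k1 c18038 k0)))))))) (by decide +kernel)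
def c23448 : PP 9 3 T 0x10040000000000000000000004000000000000000050000000000000000004000000000000000000000000000208000000000008 := rS 0x2a5fbb279bc4361d1088c321f4dec2526d (k8 c22545 c5317 c5209 c5397 c2472 c6205 c395 c266 (k8 c20811 c20794 c385 c22615 c22131 c20237 c5489 c3581 k0)) (by decide +kernel)
def c23449 : PP 9 3 T 0x8000000000000000100040000000000000000000004000100000000000000000000000000000000000000000000020000000000000004000000000000 := rS 0xcdb278ac118d53b8a4c27dd8008023dac0d40c0940b5cae05 (k8 c21870 c21872 c5465 c5463 c23432 c5643 c20806 c23096 (k8 c5560 c23344 c5642 c5209 c21924 c5445 c8199 c673 (k4 c21481 c20755 c20824 c1330 (k2 c22131 c753 (k1 c5487 k0))))) (by decide +kernel)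
def c23450 : PP 9 3 T 0x10040000000000000000000004000000000000000050000000000000000000000000000000000000000000000208000000000001 := rS 0xab88808da05 (k4 c21870 c22545 c5642 c9730 (k2 c20861 c23448 k0)) (by decide +kernel)
def c23451 : PP 9 3 T 0x8000000000000000100040000000000000000000000000000000000000000000000000000000000000000000040000000000000000200000000400000 := rS 0x5a2cd39f3daa3cd67bce0c9eb3b7bd298e9189c542449db9c0de266f8fd96810c8a4e71131a4c77e11b9e532214fa84c27dd8008023dac17c0d29049b40a57 (k8 c21872 c21870 c22545 c23432 c5317 c5643 c1450 c23096 (k8 c5560 c23344 c5642 c5209 c21924 c5445 c5398 c5448 (k8 c266 c2436 c2382 c85 c5534 c154 c261 c19421 (k8 c9730 c9719 c8199 c6205 c5463 c5464 c5576 c5580 (k8 c17859 c17836 c3599 c17858 c20539 c267 c3047 c755 (k8 c3036 c23445 c23446 c5333 c23447 c5519 c23449 c23450 (k8 c5372 c5523 c5526 c19702 c17861 c18019 c22094 c5685 (k1 c1342 k0)))))))) (by decide +kernel)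
def c23452 : PP 9 3 T 0x4000000000000000120000000000000000000000000000000000000000000000000000000000000010000000200050000000004400200005540000000 := rS 0xdff9c5092b35ab851e6b3d8a7c2e3 (k8 c2617 c5534 c8199 c5372 c5523 c5526 c1716 c20445 (k4 c8280 c400 c3584 c17998 (k2 c2950 c5691 k0))) (by decide +kernel)
def c23453 : PP 9 3 T 0x4000000000000000100040000000000000000000000000000000000000000000000000000000000000000000040000000000000000200000000000000 := rS 0xd4b2daad493f2a56744e71400a44a4b239ce2221f088c32a1309f404011ed603e9bd84a4da05 (k8 c21870 c22545 c5317 c5209 c5397 c2472 c23096 c5560 (k8 c23344 c5642 c21924 c5445 c5398 c6205 c395 c5534 (k8 c266 c9730 c9719 c5562 c5342 c5559 c8199 c5670 (k8 c751 c268 c23452 c5215 c5188 c5334 c5548 c17931 (k2 c17998 c5665 (k1 c2378 k0)))))) (by decide +kernel)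
def c23454 : PP 9 3 T 0x8000000000000000110040000000000000000000000000000000000000000000000000000000000000002000000000000000000000200000000000000 := rS 0x354ee339da34227dd8008023dac0d40c09409247e3b1bbddeb4af0ca4ae05 (k8 c21870 c21872 c5317 c5534 c5215 c5519 c5333 c85 (k8 c154 c5576 c20539 c5463 c23432 c5643 c20806 c23096 (k8 c5560 c23344 c5642 c5209 c21924 c5558 c10035 c23214 (k4 c23450 c673 c21481 c20755 k0)))) (by decide +kernel)
def c23455 : PP 9 3 T 0x1000000000000000000000001000000000000000010800000005400000011440000008 := rS 0x5989c426d (k4 c22545 c266 c268 c2378 (k1 c3584 k0)) (by decide +kernel)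
def c23456 : PP 9 3 T 0x8000000000000000110040000000000000000000004000000000000000000000000000000000000000000000000020000000000000200000000000000 := rS 0xcc02f77ad2bc329 (k8 c5317 c5534 c5215 c5519 c5333 c23344 c23450 c23449 k0) (by decide +kernel)
def c23457 : PP 9 3 T 0x110040000000000000000000000000000000000000000000000000000000000000000000040000000000000000200000000000000 := rS 0x6a34066777f7b7be5b79bc675f2db9c22ae148aa56bb53527226cf7abdcf54a558a44a418e92c8f1111864f206049f47b580fa6f608165b5c923f948efc2372f05bc402009b40a57 (k8 c21872 c21870 c22545 c23344 c5642 c23453 c23451 c1107 (k8 c85 c5534 c154 c5317 c5576 c20539 c5465 c5464 (k8 c5463 c5209 c5397 c2472 c23096 c5560 c21924 c23432 (k8 c5643 c2382 c6205 c395 c9730 c5562 c5342 c5341 (k8 c5340 c5559 c8199 c20861 c5215 c8203 c5333 c5519 (k8 c20767 c23309 c1686 c1687 c5412 c1342 c20804 c23454 (k8 c21491 c1140 c23455 c5571 c5241 c23456 c5323 c5325 (k8 c5474 c17693 c22726 c17808 c672 c23434 c23420 c18089 (k1 c1710 k0))))))))) (by decide +kernel)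
def c23458 : PP 9 3 T 0x40000000000000000001100040000000000400000000000000100000000000000140000000400416000001101000000020000000000000000000000000000 := rS 0x1248cfd6378d732ed7be4dc28d37b0 (k8 c5209 c5397 c5449 c5213 c5217 c5617 c5430 c17955 (k4 c2876 c2691 c5633 c3505 (k2 c23436 c23438 k0))) (by decide +kernel)
def c23459 : PP 9 3 T 0x45000000000000200400000004000010000800000004000000000000000000001040000000000010000000000000150020000800000000000400440000008 := rS 0x7c7eff5c16a71a4ec88b70ea75e86c3a21b78ac9a6d (k8 c22545 c5604 c5601 c5349 c266 c20811 c20794 c5617 (k8 c5428 c5429 c5612 c5615 c17890 c2876 c1803 c3583 (k4 c5630 c9954 c5626 c5208 k0))) (by decide +kernel)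
def c23460 : PP 9 3 T 0x45000400000000040401100040000000000000000004000000000400040000001000000200000416000001000000040020000040000100200000000000000 := rS 0x77b73edb9c7de75babb30be3a230ca64427d1ed603e9bd820596ed1fbad865e0b7880401034a41291ce15c0a6d (k8 c22545 c21870 c21872 c23457 c5374 c23432 c5317 c5643 (k8 c23344 c5642 c23453 c23451 c1107 c4318 c5581 c5576 (k8 c5467 c5464 c5463 c5209 c5397 c2472 c23096 c5560 (k8 c21924 c266 c2436 c6205 c395 c5341 c19425 c23458 (k8 c5600 c5602 c678 c1458 c23459 c5243 c20723 c5597 (k1 c1820 k0)))))) (by decide +kernel)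
def c23461 : PP 9 3 T 0x40000100040000000000000000000008000000000000000000000000000000000000000000000040020000000000000204000000000000 := rS 0x3bef327d63070a2e158b6cfb9c6e0643a9c7c97490f703423eb45fbf98cb07e0295bef6a3dc52418edf437e13e8f502d7768fdd61622bc68ef5d7f7eb0cf799dcb60604a7572a95becfe6a165b7fc5edda52f38230c87404010fa6f61295783c0a57 (k8 c21872 c21870 c21871 c20748 c5317 c5209 c5397 c2472 (k8 c23344 c5642 c20811 c6205 c395 c23457 c18477 c6197 (k8 c17757 c23453 c5580 c5464 c5398 c17766 c18383 c5533 (k8 c5531 c5415 c5412 c23432 c5643 c5474 c672 c5325 (k8 c2558 c23096 c17693 c5479 c5477 c5327 c5323 c5326 (k8 c23451 c5581 c5576 c5467 c5465 c5463 c5560 c21924 (k8 c5534 c20794 c9704 c5341 c5340 c8199 c397 c18089 (k8 c23148 c23172 c20053 c17991 c5683 c2470 c1336 c4137 (k8 c1335 c3947 c23420 c1710 c5034 c23460 c5391 c5608 (k8 c5388 c5606 c5607 c5611 c17761 c19938 c269 c1115 (k8 c5652 c1348 c412 c1357 c758 c679 c1504 c3612 k0))))))))))) (by decide +kernel)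
def c23462 : PP 9 3 T 0x20002020000000000000000000000008000000000000000000140000000000000000000000000150020000000000001000010001800088 := rS 0x3bef327d63070a2e158b6cfb9c6e0643a98fe3e4b7d (k8 c9704 c5391 c5608 c5385 c5388 c5606 c5607 c5611 (k8 c17761 c19938 c269 c1115 c5652 c1348 c412 c1357 (k4 c758 c679 c1504 c3612 k0))) (by decide +kernel)
def c23463 : PP 9 3 T 0x40000000000000000001100040000000000400000000000000100000000000000140000000400016000001101000000020000000000000000000000000000 := rS 0x17db8 (k2 c5213 c23458 (k1 c5431 k0)) (by decide +kernel)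
def c23464 : PP 9 3 T 0x8000000000000000000000000000000000000000000000000000000000000000000000040000000000000000000150400000000000000000000000000000 := rS 0x8d (k2 c5505 c20761 k0) (by decide +kernel)
def c23465 : PP 9 3 T 0x45000400000000040401100000000000000800000004000000000100000000001140000000000010000000000000150020000840000104008000440000088 := rS 0x877db738fbcb775babb7b0e3e2f (k8 c19425 c576 c4318 c5349 c5600 c5602 c2228 c678 (k4 c1458 c23459 c5243 c20723 (k1 c5598 k0))) (by decide +kernel)
def c23466 : PP 9 3 T 0x100040000000000000000000008000000001000000000000000000000000000000000000040000000000000000200000000000000 := rS 0x92467eb1bc6b81ccef5daf57eb5f26e2cfefd28c8e1edf9add66b94eed0ef4befebcb74778914531d3987532e32581812a34fa84fa3d40b2ddad36fbacbc16489af6e491ff8877e11b846b01f4dec252230ce704202009b40a57 (k8 c21872 c21870 c22545 c23344 c5642 c266 c23457 c6205 (k8 c395 c5317 c5209 c5397 c2472 c23096 c5558 c85 (k8 c5534 c154 c23453 c5576 c20539 c19143 c5523 c5374 (k8 c23451 c1107 c5581 c5580 c5579 c5467 c5464 c5463 (k8 c5560 c21924 c5398 c5448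 c5449 c23432 c5643 c5342 (k8 c2617 c2436 c20811 c9719 c5341 c8199 c5326 c5323 (k8 c5327 c5474 c5479 c17693 c18477 c672 c6197 c5412 (k8 c5415 c5532 c5533 c17766 c17757 c19105 c23461 c23462 (k8 c23464 c23465 c5213 c5217 c23463 c5431 c5617 c5430 (k8 c5473 c17955 c19797 c2876 c3133 c5633 c3505 c23436 (k1 c23438 k0))))))))))) (by decide +kernel)
def c23467 : PP 9 3 T 0x9000000000040000120040000000000000000000004000100000000000000000000000000000000000000000000020000000000000000000440000000 := rS 0x1333824cd7bd2955eddaaa4cefdd9115e2328986422431e904975888874420200a7d93b0658fd0e0d35a3cda05 (k8 c21870 c22545 c5526 c5523 c5522 c5373 c5576 c5464 (k8 c5209 c5396 c5448 c23344 c5642 c266 c20811 c9730 (k8 c23096 c5342 c5340 c5560 c5561 c5558 c6205 c755 (k8 c23449 c385 c389 c22131 c20237 c5487 c5489 c18383 (k8 c20915 c20788 c5650 c8123 c2075 c17919 c12046 c2868 (k1 c21921 k0)))))) (by decide +kernel)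
def c23468 : PP 9 3 T 0x100040000000000000000000000000000001000000000000000000000000000000000000040000000000000000200000000000000 := rS 0x2cce33bdb846b0731080802230c87d37b0248ffc5291df846e6b47e70da05 (k8 c21870 c22545 c23457 c5526 c5523 c85 c5534 c154 (k8 c5317 c23453 c5576 c20539 c5209 c5397 c2472 c6205 (k8 c395 c23344 c5642 c266 c9719 c23096 c5558 c19143 (k4 c23466 c23467 c8280 c19105 k0)))) (by decide +kernel)
def c23469 : PP 9 3 T 0x40000000000000050000120000000000000000000000004000000000000000001000000000000001400000000000000010000000001000000000040000001 := rS 0x40554ff222a4cfef7eeca221d0121cd6b1371ccda05 (k8 c21870 c22545 c9719 c5666 c20792 c5523 c5373 c5642 (k8 c20811 c9730 c22131 c20237 c22111 c5487 c5489 c20912 (k4 c20587 c20788 c3066 c6368 k0))) (by decide +kernel)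
def c23470 : PP 9 3 T 0x2000000000000000000000000000000000000000000000200000000800000 := rS 0x12c30 (k2 c1214 c1213 (k1 c8295 k0)) (by decide +kernel)
def c23471 : PP 9 3 T 0x100040000000000000000000000000000000000000000000000000000000000000000000040000000000000000200000000000000 := rS 0x202aa58bfc89ef5499f6caf7eec9e33ba51c56ab3dafce286b43e709216698ffc41f4db2543b0118dfc3291d8644b588886c3a2101004da05 (k8 c21870 c22545 c23344 c5642 c266 c20811 c20794 c9730 (k8 c23096 c5559 c6205 c154 c5317 c5534 c85 c395 (k8 c5209 c5398 c5396 c5397 c2472 c23453 c5576 c5579 (k8 c23451 c20539 c23457 c5373 c5523 c23468 c5590 c5414 (k8 c171 c204 c3049 c5650 c18477 c23470 c22131 c20237 (k8 c10145 c23469 c5487 c5489 c11200 c17812 c3010 c5421 (k2 c20788 c3066 (k1 c6368 k0)))))))) (by decide +kernel)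
def c23472 : PP 9 3 T 0x80000100040000000000000000000004000100000000000001000000000000000000000000000040000000000000000000000000000000 := rS 0x19b507fe240910ce97d910436cb649f76002008f6b03503024ae05 (k8 c21870 c21872 c23432 c5643 c20806 c23096 c5560 c23344 (k8 c5642 c5209 c21924 c5396 c5420 c20794 c5340 c22131 (k8 c5404 c5487 c17812 c21925 c5670 c5576 c6616 c389 (k1 c21481 k0)))) (by decide +kernel)
def c23473 : PP 9 3 T 0x40000000001040000004000000004005400000000000000000000800800000 := rS 0x67b453836 (k4 c1259 c1258 c1482 c1651 (k1 c20770 k0)) (by decide +kernel)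
def c23474 : PP 9 3 T 0x44000000000000000000000000000000000000000000000000000002000010000000000101040000004000080004005400000000000000000000000000000 := rS 0x68b3dfaff (k4 c3011 c1242 c8707 c1709 (k1 c20853 k0)) (by decide +kernel)
def c23475 : PP 9 3 T 0x8000000000080000120000000000000000200000000000000000000000002000000100040000000000004000050400000000001000100004041000001 := rS 0xf67e88a2acd80a5860abf7fcd18166fb4d021110808f6873cca4da05 (k8 c21870 c22545 c19356 c5524 c5373 c5372 c5642 c266 (k8 c5558 c5463 c5579 c5580 c17859 c20755 c17861 c23464 (k8 c4084 c1214 c1213 c2141 c1917 c23474 c19143 c4066 (k2 c23473 c500 k0)))) (by decide +kernel)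
def c23476 : PP 9 3 T 0x80000120040000000000000000000004000000000000000000000000000000000000000000000040000000000001000000004040000000 := rS 0xdff9c5046e3a578538177097d01e36a9dc66f0638ec6a7d5081b61293c9acf619148947a4b23d62226310a4c1202008e566cb5a9b4ae05 (k8 c21870 c21872 c22545 c5422 c5420 c5574 c23471 c23344 (k8 c5642 c23432 c261 c266 c19421 c9730 c23096 c5562 (k8 c5342 c5560 c5559 c8199 c6205 c5372 c5523 c5524 (k8 c19356 c5209 c5643 c5398 c21924 c20806 c1674 c675 (k8 c23472 c385 c673 c21481 c23475 c5670 c1746 c1716 (k8 c1107 c18019 c5458 c13264 c1777 c5331 c17941 c17998 (k2 c2950 c5691 k0))))))) (by decide +kernel)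
def c23477 : PP 9 3 T 0x10000110040000000000000000000004000100000000000000000000000000000000000000100140000000000000000004000000040000 := rS 0x3c4776a9f46a06d80f6b01b01024d5110095cda05 (k8 c21870 c22545 c21872 c23344 c9730 c5665 c23432 c5642 (k8 c20794 c23096 c5560 c5209 c5643 c22618 c8164 c21481 (k2 c673 c5670 (k1 c20755 k0)))) (by decide +kernel)
def c23478 : PP 9 3 T 0x100040000000000000000000000000200000000000000000000000000000000004000000140000000000000000000004000000000 := rS 0x3c7b114896b093048080205 (k8 c21870 c23344 c5642 c23432 c261 c23096 c5559 c8199 (k2 c22565 c18620 (k1 c23386 k0))) (by decide +kernel)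
def c23479 : PP 9 3 T 0x80000100040000000000000000000004000000000000000000000000000000000000000000000040000000000001000000004040000000 := rS 0xc9e12909a051a90356d62823ce86452252591eb1111080802b34fad4da05 (k8 c21870 c22545 c5422 c5572 c5574 c23344 c5642 c266 (k8 c9730 c23096 c5562 c5342 c5559 c8199 c6205 c23476 (k8 c9733 c3584 c5414 c5665 c1140 c10035 c17681 c3036 (k4 c23478 c23472 c23477 c385 k0)))) (by decide +kernel)
def c23480 : PP 9 3 T 0x10000000000000000000000000000000000100000000000000000000001400000001000000000000000005400000015140000000 := rS 0x6bdac50466d (k4 c22545 c9733 c3584 c5414 (k2 c1140 c5665 k0)) (by decide +kernel)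
def c23481 : PP 9 3 T 0x40000000000000080000120040000000000000000000008000000000000000000000000000000000000000000000140000000000001000000004800000000 := rS 0x40d55ed7fb3a24d166b8538360b789c6191292c3a9318bd4f6873c9f76002008f6b0c71c9dc0d290496cae05 (k8 c21870 c21872 c5474 c23432 c19356 c5643 c672 c23471 (k8 c675 c23096 c5560 c23344 c5642 c5209 c21924 c5524 (k8 c5373 c5372 c5477 c5476 c261 c20811 c5342 c5559 (k8 c6205 c17330 c5670 c17859 c1259 c1258 c1484 c2329 (k8 c1481 c17854 c20770 c20798 c5543 c1651 c2633 c22280 k0))))) (by decide +kernel)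
def c23482 : PP 9 3 T 0x2000000000000000000000000040000000100000000000000000000000040000000000000000005000400400000000500000000000001 := rS 0x2702f1131808da05 (k8 c21870 c22545 c5642 c19421 c9730 c1107 c18019 c13264 k0) (by decide +kernel)
def c23483 : PP 9 3 T 0x80000100040000000000000000000000000000000000000000000000000000000000000000000040000000000001000000004040000000 := rS 0x1e11b88fc4e3f9b7d025e638ecfa994d81b614b949e4d67bce24674b565acc3229128447a4b23d6222214982404011c95c0a6d (k8 c22545 c21870 c21872 c23471 c23344 c5642 c23432 c261 (k8 c266 c9730 c23096 c5562 c5342 c5560 c5558 c5559 (k8 c8199 c6205 c5574 c5420 c5422 c23479 c23214 c23480 (k8 c5372 c5523 c5524 c19356 c18477 c5209 c5643 c6036 (k8 c5447 c21924 c1674 c675 c23482 c1746 c23328 c17861 (k4 c17330 c5670 c23481 c20440 (k2 c7833 c5654 k0))))))) (by decide +kernel)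
def c23484 : PP 9 3 T 0x40000000000000000000000000000000000001400000000000000000000000005400000015440000008 := rS 0xda450426d (k4 c22545 c266 c3584 c6197 (k1 c5414 k0)) (by decide +kernel)
def c23485 : PP 9 3 T 0x42000120000000000000000000000008000000100000000000000000000000000000000000000050010000000005440100001040000081 := rS 0x7ca29dff6b7d9cd1668db6a220b7bcbc775752f66f51896de2451486c3a27012b562b33721cf3295a9ace63b3db1cda05 (k8 c21870 c22545 c675 c5372 c1674 c9719 c5523 c20445 (k8 c19356 c5524 c5373 c5666 c2820 c20792 c20758 c5642 (k8 c268 c20811 c20794 c8199 c5326 c5323 c5474 c5476 (k8 c5477 c12176 c18477 c3582 c672 c23482 c5584 c1450 (k8 c23484 c5409 c1259 c2329 c1481 c20853 c2331 c5543 (k4 c5453 c20465 c5201 c5590 k0)))))) (by decide +kernel)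
def c23486 : PP 9 3 T 0x2000000000040000000000000004005000000000000000000000801800080 := rS 0x334eef7558cdfa36 (k8 c1259 c4066 c385 c4084 c500 c673 c2330 c23473 k0) (by decide +kernel)
def c23487 : PP 9 3 T 0x42000120000000000000000000040004000000000000000000000000000000000000000000000000010000000005400100001041000081 := rS 0x3d5eeaaf6911526779fcb64f17eed42c222f0a6221b1380962b33721cf3295a9ace63b3db1cda05 (k8 c21870 c22545 c675 c5372 c1674 c9719 c5523 c20445 (k8 c19356 c5524 c5373 c5666 c2820 c20792 c5642 c268 (k8 c20794 c9730 c8199 c23482 c23484 c1450 c5409 c4066 (k8 c23486 c22131 c23469 c447 c5487 c5489 c20912 c17760 (k4 c20788 c503 c1923 c5657 k0))))) (by decide +kernel)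
def c23488 : PP 9 3 T 0x120040000000000000000000000000000000000000000000000000000000000000000000040010000000001000000000040000000 := rS 0x15dee54fb5a0ab19ecde1b58a7cc474a9db1cfa95036c16b29359ec32291290c7b1d2591eb021048e5666edb89c04730095cda05 (k8 c21870 c22545 c21872 c23344 c9719 c5642 c268 c23483 (k8 c5666 c2820 c23471 c23432 c266 c23096 c5562 c5342 (k8 c5341 c5560 c5561 c5559 c8199 c6205 c5372 c5523 (k8 c19356 c20445 c5209 c5643 c5446 c21924 c675 c23485 (k8 c23487 c5331 c17998 c3584 c5414 c23469 c5401 c385 (k4 c1281 c22918 c5501 c2024 (k2 c5201 c21637 (k1 c5584 k0)))))))) (by decide +kernel)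
def c23489 : PP 9 3 T 0x40000110000000000000000000000000000000000000000000000000000000001400000000000000000000000005400000005140000000 := rS 0x1b48a7cc5223 (k4 c9733 c8199 c17998 c3584 (k2 c5241 c5414 k0)) (by decide +kernel)
def c23490 : PP 9 3 T 0x2000000000040000000000000000000000000000004000100000800000002000000000000002110000000000204000000000000000040000001000080 := rS 0xf7abd1903431dd9e33d98d4f2cd (k8 c5537 c1454 c20806 c5401 c385 c20518 c673 c22445 (k4 c20855 c958 c1249 c5505 (k1 c5683 k0))) (by decide +kernel)
def c23491 : PP 9 3 T 0x40000110040000000000000000080004000100000800000000000040000000002110000000000040000000000001000000000040000000 := rS 0x32793f764f14078fc0e1639e46a7d036c0323d20d60361d10808123911aae220154ed3e67b1dbdc16377a95cda05 (k8 c21870 c22545 c21872 c5519 c5518 c5516 c5333 c5332 (k8 c23309 c5548 c5241 c2615 c23344 c9730 c20861 c9733 (k8 c23471 c23432 c5642 c266 c20811 c20794 c23096 c5340 (k8 c5560 c6205 c5209 c5643 c21924 c20806 c1454 c675 (k8 c10249 c5669 c17960 c5670 c23490 c22131 c20237 c3581 (k2 c22616 c22615 k0))))))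 (by decide +kernel)
def c23492 : PP 9 3 T 0x40000110040000000000000000080004000000000800000000000040000000002110001000000040000000000001000000000040001000 := rS 0xf2c7d885c0f281b82c7619010041239119ed33b4f995c1e05 (k8 c21870 c21871 c21872 c5548 c5241 c5530 c23309 c9733 (k8 c23471 c23432 c23344 c5642 c6205 c5332 c5516 c5518 (k4 c23491 c5432 c5433 c22565 (k2 c23414 c23373 (k1 c3568 k0))))) (by decide +kernel)
def c23493 : PP 9 3 T 0x100040000000000000000000000000000000000000000000000000000000000000000000040010000000001000000000040000000 := rS 0x40d5c5b78916754a05b7c1a6a892762ab411e7566b1569bb6e291290e3a4b23d60e61b0e8844e020083cda05 (k8 c21870 c22545 c21871 c23344 c5642 c268 c266 c20811 (k8 c20794 c9719 c23096 c5562 c5342 c5341 c5561 c5559 (k8 c8199 c23483 c5666 c20758 c20792 c2820 c23488 c9733 (k8 c23489 c204 c4034 c1149 c1148 c18082 c4676 c2305 (k8 c5645 c23492 c5326 c5323 c5474 c3582 c21152 c1249 k0))))) (by decide +kernel)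
def c23494 : PP 9 3 T 0x110000000000000000000040000000000000000000000000000000000002400000000000000010000000004400000001040000001 := rS 0x682cdc6adb8a4e621138084715da03c0a6d (k8 c22545 c21870 c21871 c5211 c5414 c9733 c5642 c268 (k8 c266 c9719 c8199 c5422 c20445 c5666 c2305 c18082 (k1 c5645 k0))) (by decide +kernel)
def c23495 : PP 9 3 T 0x40000000000000020000010000000000000000000000008000000100800000004000000000000001110000000000000000000000000040000015040000008 := rS 0x3ddfb0280fbd5ded7abc48a1b0ec5552ff (k8 c20798 c5531 c5414 c20811 c20794 c5326 c5323 c5477 (k8 c22726 c3582 c5584 c3070 c5694 c23136 c2195 c17991 k0)) (by decide +kernel)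
def c23496 : PP 9 3 T 0x60000100000000000000000000000004000000000800000005000000000000000000000000000000050400000000000000001000000008 := rS 0x4433abf641d (k4 c20811 c22131 c10145 c5487 (k2 c20912 c23276 k0)) (by decide +kernel)
def c23497 : PP 9 3 T 0x44000100000000000000000000040004000000001000004044000000000000001445000000000000050400000000000000000440000008 := rS 0x3d1f9ed22c0fdc2156ac4dc6d (k8 c22545 c5666 c20792 c20758 c266 c5683 c5508 c5582 (k4 c20846 c16040 c5657 c2337 k0)) (by decide +kernel)
def c23498 : PP 9 3 T 0x40000110040000000000000000040004000200000000000000000040000000000000000000000004010000000000000000000000000000 := rS 0x780ee7c30279c7e2d885c322912d60361d498244e02371cc0205 (k8 c21870 c23344 c9719 c5666 c5642 c268 c23432 c261 (k8 c20811 c20794 c23096 c5559 c8199 c6205 c5433 c22565 (k8 c5236 c5466 c18620 c17836 c21335 c10409 c10425 c23388 k0))) (by decide +kernel)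
def c23499 : PP 9 3 T 0x10040000000000000000040000000100000000000000000000004000000000000000004001000000000000000004000000000100 := rS 0x3b7800c57 (k4 c21872 c5643 c5215 c22445 (k1 c673 k0)) (by decide +kernel)
def c23500 : PP 9 3 T 0x40000110040000000000000000000004000200000000000000000000000000000000000000000000010000000002000000000000000000 := rS 0x1bc3f3dc49226e398062bb4a5a3fe60f (k8 c21871 c5588 c2843 c5334 c5211 c5414 c23344 c9719 (k4 c5666 c3038 c5675 c23309 (k2 c5318 c23498 (k1 c2946 k0)))) (by decide +kernel)
def c23501 : PP 9 3 T 0x40000110040000000000000000000000000000000000000000000000000000000000000000000000010000000002000000000040000000 := rS 0x1a8356701a5301f7ab90ef719ecde13b3cbccd6ff054481a9158ab4dc191490e3a7310827e68f11aae231554ed16ab31380a96012392c4b582b83c0a6d (k8 c22545 c21870 c21871 c21872 c23096 c5559 c5342 c5562 (k8 c23344 c5334 c5642 c268 c2894 c23494 c5211 c5531 (k8 c5414 c9730 c20861 c9733 c2843 c5588 c23432 c266 (k8 c9719 c5341 c5561 c8199 c6205 c5666 c20758 c20792 (k8 c3038 c18082 c5675 c5645 c20798 c2600 c20781 c2308 (k8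 c23495 c23496 c5401 c385 c499 c693 c23497 c5584 (k4 c3070 c23500 c5643 c23499 (k2 c20806 c8707 (k1 c21680 k0))))))))) (by decide +kernel)
def c23502 : PP 9 3 T 0x80000110040000000000000000000000000100000000000000000000000000001000000000000040000000000002000000000000000000 := rS 0x112351e5225f4078cf6c73ef800db01ed622263010041239f9a3d3b154ced296cb3695c1e05 (k8 c21870 c21871 c21872 c22545 c5420 c5334 c5211 c5530 (k8 c5414 c5412 c2843 c5588 c23471 c23432 c23344 c5642 (k8 c19421 c9730 c23096 c5560 c5209 c5643 c5215 c21924 (k8 c675 c5457 c6706 c5670 c1746 c17681 c1751 c18019 (k2 c5675 c2600 k0))))) (by decide +kernel)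
def c23503 : PP 9 3 T 0x110040000000000000000000000000000000000000000000000000000000000000000000040010000000000000000000040000000 := rS 0x9b1df83c7b10bca13fb65aa653bb41186452252591eb0214982473f3a5acc9027010040a6d (k8 c22545 c21870 c23344 c5642 c268 c23493 c2894 c5334 (k8 c5588 c23471 c23432 c261 c266 c23096 c5562 c5342 (k8 c5559 c8199 c6205 c9733 c5211 c5412 c5530 c23494 (k8 c23501 c5572 c23502 c5433 c22565 c18620 c5188 c5456 (k2 c5536 c6193 k0))))) (by decide +kernel)
def c23504 : PP 9 3 T 0xa000000000080000000000000000000000000040000000000000000000000000000000000000000000100000000000000000000000000001100800000 := rS 0x449d (k2 c5458 c7833 (k1 c1258 k0)) (by decide +kernel)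
def c23505 : PP 9 3 T 0x80000100040000000000000000000000000100000000000000000000000000001400000400004045000000800002000000000000000000 := rS 0x33d9ad13baaf66f51896e74f17eed44436f0f89c681658644b1d0e88696993eec004011ed618e396f8ec2c060495c0a6d (k8 c22545 c21870 c21872 c23432 c5643 c1450 c1674 c2947 (k8 c23471 c675 c23096 c5560 c23344 c5642 c5209 c21924 (k8 c5447 c5334 c266 c20811 c5341 c5559 c6205 c5420 (k8 c1746 c17330 c5670 c23504 c5654 c20440 c5409 c4066 (k8 c23486 c23472 c5474 c5476 c5477 c17706 c19251 c672 (k4 c1481 c2329 c13265 c20770 k0)))))) (by decide +kernel)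
def c23506 : PP 9 3 T 0x8000000000050000020000000000000000000040008000000000000000000000000000040000100000000000010000000000000000080015000000080 := rS 0x33d9ad13becdea312d9ed0e79 (k8 c5524 c5373 c5372 c5474 c5476 c5477 c12176 c672 (k4 c1481 c2329 c21930 c20770 k0)) (by decide +kernel)
def c23507 : PP 9 3 T 0x8000000000042000120000000000000000000040000000000000000000000000040000040000400000400000000050000000000001080001001800088 := rS 0x19b5089b29dbc445b5698fdc6d7658a44e7b439e652b535a7d427d1aac4dce1 (k8 c1483 c5666 c20792 c20806 c21924 c5398 c5448 c5523 (k8 c20445 c19356 c5524 c5373 c5372 c268 c8199 c5464 (k8 c5465 c5466 c5576 c5579 c19797 c20440 c23486 c23506 (k4 c22131 c20912 c17820 c389 (k1 c21481 k0))))) (by decide +kernel)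
def c23508 : PP 9 3 T 0x40000120000000000000000000040004000000000100005005000000000000000000000000000000050000000000000000000000000008 := rS 0x7a3dd55ed222a4cfb20da1cd66d (k8 c22545 c5523 c5373 c20794 c22131 c5487 c5489 c20912 (k4 c20915 c20788 c504 c5657 (k1 c1923 k0))) (by decide +kernel)
def c23509 : PP 9 3 T 0x1000000000050000120000000000000000000000000000000000000000000000800000040000000000000000000010000000002000080000041800081 := rS 0x1a0319d3fd9fef79bc5fa228880be74b3da1cf3295a9ace605 (k8 c21870 c9719 c5523 c20445 c19356 c5524 c5373 c5372 (k8 c5334 c5588 c5642 c9730 c12405 c4066 c23486 c447 (k4 c22111 c10455 c2574 c23508 (k2 c5476 c22930 (k1 c1481 k0))))) (by decide +kernel)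
def c23510 : PP 9 3 T 0x1000000000000000000000000000000000000000008000000100000000000000800000040000110000000004005000000000000040080015014000080 := rS 0x33bdecd689dd5cf51896de245 (k8 c5326 c5323 c5474 c5476 c5477 c3582 c672 c1481 (k4 c2329 c5584 c20853 c10455 k0)) (by decide +kernel)
def c23511 : PP 9 3 T 0x1000000000042000120000000000000000000000000000000100000000000000000000000000000000400000000010000000002041100001041000081 := rS 0x1ec6777da2cd3ba59ee33784ef6623da38bc6e11b0a4361df9acc4e0243b7c2c5e1d9ae9729639e4f6ad589b8e605 (k8 c21870 c9719 c5666 c20792 c20758 c5372 c5524 c675 (k8 c19356 c5334 c5523 c1674 c23482 c1450 c2947 c5373 (k8 c5642 c268 c2894 c5588 c20811 c20794 c8199 c5654 (k8 c1483 c23507 c5691 c23509 c5409 c18383 c23510 c22131 (k8 c385 c499 c1213 c673 c2330 c1482 c5452 c20853 (k2 c5165 c5543 k0)))))) (by decide +kernel)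
def c23512 : PP 9 3 T 0x44000100000000000000000000000000000000001000000008000000000000000000000000000000050400000002000000001400000008 := rS 0xf711042b313ac4dc6d (k8 c22545 c5666 c20792 c268 c2894 c266 c450 c18873 (k1 c5582 k0)) (by decide +kernel)
def c23513 : PP 9 3 T 0x4000000000000000000000000000000000000100000000004000000008800000110000000000000000000000002040000015000800008 := rS 0xd7573fc8b3a788c4361d (k8 c20811 c20794 c1474 c1214 c22131 c5326 c3006 c3582 (k2 c1770 c1247 k0)) (by decide +kernel)
def c23514 : PP 9 3 T 0x100040000000000000000000000000000000000000000000000000000000000000000000040010000000000000000000040000000 := rS 0x1ef69230eccf79b2901b38aed046cd70a77c0b1569bb6e162f0ed8e9b036c16b293c9ad0e7bce2cd1f4bf992032291290c7b1dac1ce2293048e44e0200814ae0f (k8 c21871 c21872 c21870 c23344 c5642 c268 c23471 c23432 (k8 c261 c9730 c9719 c23096 c5341 c5560 c5561 c5559 (k8 c8199 c6205 c23493 c5588 c5334 c2843 c2894 c23503 (k8 c5372 c5373 c5523 c5524 c19356 c20445 c5209 c5643 (k8 c6036 c675 c1674 c23482 c1450 c23505 c5666 c20758 (k8 c20792 c23511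 c5458 c5460 c5537 c1258 c12405 c5414 (k8 c18383 c20412 c1746 c23512 c23513 c20823 c938 c939 (k2 c5505 c20105 k0)))))))) (by decide +kernel)
def c23515 : PP 9 3 T 0x100000000000000000000800000110000000000000000000000000040008015015000000 := rS 0xaf22b5de2d5 (k4 c1661 c385 c2185 c390 (k2 c1247 c3582 k0)) (by decide +kernel)
def c23516 : PP 9 3 T 0x100800000000000000000000002110000000008000000000000000040000015094000000 := rS 0x22bc55f007ac0de60f (k8 c21871 c2533 c10690 c1922 c959 c1249 c1216 c3067 (k1 c3582 k0)) (by decide +kernel)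
def c23517 : PP 9 3 T 0x100040000000000000000000000000000000000000000000000004100000000000000004000000000000000000000000080800000 := rS 0x4e8b4f13b0cb67e0034a4334bce9a8f20a010041205 (k8 c21870 c23432 c23344 c5642 c1112 c2308 c1111 c5523 (k8 c5517 c6205 c5433 c1108 c5215 c17489 c23499 c22445 (k4 c385 c672 c22131 c5474 k0))) (by decide +kernel)
def c23518 : PP 9 3 T 0x40000100040000000000000000000000000000000000000000000000004000000000000000004000008000800000000000000080000000 := rS 0x36128f181c2ec930866b00200824ae05 (k8 c21870 c21872 c23432 c23344 c5642 c23096 c6205 c62 (k4 c20795 c23517 c1450 c17836 (k2 c5643 c5236 (k1 c22565 k0)))) (by decide +kernel)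
def c23519 : PP 9 3 T 0x40000110040000000000000000000000000200000000000000000000000000002400010000000000810000400002000000000000000000 := rS 0x2b991ef33181a73ad88fc663d20d60c602569bbe6cb39804da05 (k8 c21870 c22545 c23344 c9719 c8466 c5588 c5666 c20758 (k8 c5642 c19421 c23096 c5340 c5560 c5316 c5318 c22565 (k8 c23500 c14519 c5663 c11141 c17860 c725 c21135 c4046 k0))) (by decide +kernel)
def c23520 : PP 9 3 T 0x40000100040000000000000000000000000000000000000000000000004000000100000000000000010000000002000000000080000000 := rS 0x4ede25ad98c80db094a84ec9bf031cbe875a1ee25f30c8a44a438e86c3a27a5acc8f58ce9a8f20a010255a6e39804ae05 (k8 c21870 c21872 c23344 c9719 c5666 c20758 c23432 c5642 (k8 c1112 c2308 c1111 c5523 c23096 c5562 c2321 c5517 (k8 c268 c20811 c20794 c5341 c5561 c5559 c8199 c6205 (k8 c5588 c12878 c23309 c2600 c23516 c23518 c2483 c5669 (k8 c5536 c22445 c1199 c23519 c5209 c5643 c23499 c20696 (k4 c672 c385 c5474 c22131 k0)))))) (by decide +kernel)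
def c23521 : PP 9 3 T 0x100040000000000000000000000000100000000000000000000004000000000000000004000800000000000000000000080000000 := rS 0x276f12d6cc6406d8066979d351e4140200824ae05 (k8 c21870 c21872 c23432 c23344 c5642 c1112 c2308 c1111 (k8 c5523 c5517 c6205 c5209 c5643 c23499 c20696 c672 (k2 c385 c5474 (k1 c22131 k0)))) (by decide +kernel)
def c23522 : PP 9 3 T 0x40000100040000000000000000000000000000000000000000000000004400002000000000004000008000000001000100000080000000 := rS 0x78f6237941d9c23bf01edbf1220d633a79050258e5f350080205 (k8 c21870 c23344 c5642 c1111 c23518 c2483 c23432 c1112 (k8 c2308 c5523 c23096 c5340 c1149 c2515 c23309 c5669 (k8 c5456 c5460 c22445 c23521 c5435 c22565 c17960 c5236 k0))) (by decide +kernel)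
def c23523 : PP 9 3 T 0x40000100040000000000000000000000000000000000000000000000004000000000000000004000010000000001000100000080000000 := rS 0x1e0f11ef62079438e26b563b2cbe9106846b07905027699d3500a966e398040a0f (k8 c21871 c21870 c23344 c9719 c5666 c5517 c5642 c1111 (k8 c5523 c5211 c23432 c1112 c2308 c23096 c5558 c2362 (k8 c13457 c23518 c8466 c2483 c23522 c2600 c13204 c17886 (k4 c5432 c22565 c690 c5236 (k2 c5669 c23279 k0))))) (by decide +kernel)
def c23524 : PP 9 3 T 0x40000100040000000000000000000000000000000000000000000000004000000100000000000000010000000000000100000080000000 := rS 0x6ce764578969ecf543124e60a010041e05 (k8 c21870 c21871 c23344 c5642 c1112 c9719 c23520 c23523 (k8 c1922 c693 c692 c1216 c503 c5474 c21890 c22131 k0)) (by decide +kernel)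
def c23525 : PP 9 3 T 0x80000100040000000000000000000000000000000000000000000000000000000000000000000040010000000000000000000000000000 := rS 0x3af037d8e7b4001e50e3f944d6a9f2089d220d08a3c8f583c82813b4ce9a80401a58780a0f (k8 c21871 c21870 c23514 c5517 c23344 c5642 c1111 c5523 (k8 c5211 c23432 c1112 c2308 c23096 c5562 c2311 c5558 (k8 c2362 c13457 c268 c5340 c5572 c5422 c2600 c12878 (k8 c13204 c13608 c5432 c23478 c690 c940 c14796 c5669 (k2 c17862 c5456 k0))))) (by decide +kernel)
def c23526 : PP 9 3 T 0x40000110040000000000000000040000000200000000000000000040000000000000000010000004010000000000000000000000000000 := rS 0x57279e245f14eb62291290e3b580d8752609138095ab1371cc0205 (k8 c21870 c23344 c9719 c5666 c20792 c20758 c5642 c268 (k8 c23432 c261 c20811 c20794 c23096 c5341 c5561 c5559 (k8 c8199 c22565 c23498 c5236 c5326 c5323 c18620 c3582 (k1 c2991 k0)))) (by decide +kernel)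
def c23527 : PP 9 3 T 0x8000000000020000000000000000000000000000000000000000000000000000100008000000080014400000000000000000000000000000000000000 := rS 0x40d68e3 (k4 c5466 c19797 c2633 c1249 k0) (by decide +kernel)
def c23528 : PP 9 3 T 0x100040000000000000000000008000000000000000000000000000000000000000000000040010000000000000000000000000000 := rS 0xe289b5a0680f1c05a7ef3bab8b64514894871d0d8744f154883423b456fb7becd70a6fc0794fa84fbb01ebc5ea35034a5bec7478288f584aa65267bce9a8054b04b39626e398076e390f15c0a0f (k8 c21871 c21870 c21872 c23514 c23471 c23525 c23344 c9719 (k8 c5666 c20792 c23524 c23432 c5517 c5642 c1111 c5523 (k8 c20767 c261 c2318 c1587 c23096 c5562 c1112 c2311 (k8 c20739 c14796 c23526 c5643 c20806 c2340 c1216 c5560 (k8 c5209 c21924 c5398 c5448 c2308 c5669 c5536 c5460 (k8 c139 c5453 c5543 c20758 c5211 c5558 c2362 c13457 (k8 c15434 c268 c20811 c20794 c5341 c5561 c5559 c8199 (k8 c5326 c5474 c3582 c672 c5584 c2940 c3070 c23527 (k4 c5670 c20855 c20909 c21166 (k2 c1769 c13204 k0)))))))))) (by decide +kernel)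
def c23529 : PP 9 3 T 0x100040000000000000000000000000000000000000000000000000000000000000000000040010000000000000000000000000000 := rS 0x2270140b2e07ef2219d2e327b6ca76f17a8d40db094b7d2a313db1fbfed672c55a6edba3f3af34c828d54b0f09c32291290c831d23d60e61b0ea4c1202008e4ae05 (k8 c21870 c21872 c23471 c23344 c5642 c23432 c261 c20811 (k8 c20794 c9719 c23096 c5562 c5341 c5340 c5561 c5559 (k8 c8199 c6205 c268 c23514 c5517 c1111 c1112 c2318 (k8 c2533 c5523 c2311 c23525 c5666 c20758 c20792 c23524 (k8 c5543 c5453 c20739 c20767 c1474 c1587 c14796 c23526 (k8 c5209 c5643 c20806 c2340 c1216 c23528 c22131 c5657 (k8 c5653 c5404 c5487 c20912 c17816 c2195 c23515 c21925 (k2 c3067 c21166 (k1 c17878 k0))))))))) (by decide +kernel)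
def c23530 : PP 9 3 T 0x100040000000000000000000000000000000000000000000000000000000000000000000040000000000000200000000000000080 := rS 0x190ffc48130ec0fb291ed60e13b (k8 c5326 c23529 c23096 c5560 c5432 c1456 c5209 c5445 (k4 c751 c5670 c8336 c23449 (k1 c389 k0))) (by decide +kernel)
def c23531 : PP 9 3 T 0x110040000000000000000000000000000000000000000000000008000000000000001000040000000000000200000000000000000 := rS 0x1e13c836b03989b1cf6376fb4c7ee3f16c650070480803b738014ae6d (k8 c22545 c21872 c21870 c23529 c5571 c23344 c5642 c23432 (k8 c23530 c5643 c22565 c5236 c5466 c5318 c2936 c2565 (k8 c5435 c20767 c20739 c755 c23471 c23096 c14556 c23280 (k2 c23279 c5669 k0)))) (by decide +kernel)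
def c23532 : PP 9 3 T 0x110040000000000000000000000000000000000000000000000008000000000000000000040000000000000200000000000040000 := rS 0x2064905bffe69071f8b632803846b002008276e70f683cae05 (k8 c21870 c21872 c21871 c5543 c23529 c5571 c23432 c23344 (k8 c5642 c23096 c5558 c23530 c5643 c22565 c5236 c5466 (k4 c23531 c5589 c20750 c694 (k2 c10368 c2633 (k1 c9612 k0))))) (by decide +kernel)
def c23533 : PP 9 3 T 0x4000000100000000001000000000000000140000000000000000000000000140000015000000008 := rS 0xd9ab0361d (k4 c20811 c20794 c3582 c5490 (k1 c22131 k0)) (by decide +kernel)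
def c23534 : PP 9 3 T 0x110040000000000000000000000000200000000000002000000008000000000000000000040000000000000000000000000040000 := rS 0x179307c0ff89ebb10b81c223dac0852609010e76e704ec44029b6486476f7119b4ae05 (k8 c21870 c21872 c22545 c9733 c499 c1647 c6205 c1177 (k8 c2563 c23344 c9730 c17717 c23529 c5571 c23471 c5642 (k8 c23432 c261 c266 c23096 c5560 c5558 c5432 c5433 (k8 c22565 c20847 c5236 c1216 c17898 c6193 c2871 c1521 k0)))) (by decide +kernel)
def c23535 : PP 9 3 T 0x110040000000000000000000000000000000000000000000000008000000100000000000040000000000000000000004000000000 := rS 0x200c3e33eec25233784ecb4450986452250890e3b580100412af469c0ae05 (k8 c21870 c21872 c23529 c754 c20748 c23432 c23344 c5642 (k8 c23096 c5341 c5561 c5558 c5559 c8199 c6205 c2868 (k8 c23532 c20834 c5474 c23533 c385 c23534 c5209 c8164 (k4 c23449 c5445 c5670 c751 k0)))) (by decide +kernel)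
def c23536 : PP 9 3 T 0x8000110040000000000000000000000000100000000000000000000008000000100000000000040000000000000000000000000000000 := rS 0x47fcd22b4da40697036a7bda6e36b8ffc4df65b85027d30ec07a4125d60e602008e626a1387b58e7b56a5cda05 (k8 c21870 c22545 c5404 c5490 c20767 c20739 c5543 c23529 (k8 c2929 c755 c23471 c23344 c5642 c9719 c23096 c5342 (k8 c5340 c5560 c5209 c5445 c21924 c751 c10249 c20621 (k8 c23328 c5670 c8336 c5465 c5466 c5579 c22132 c17820 (k8 c2633 c17954 c3072 c5211 c17886 c21172 c17766 c2402 (k1 c5675 k0)))))) (by decide +kernel)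
def c23537 : PP 9 3 T 0x1008000000000021000000040000000000000000000000000000001000041000000100000000000155010450000010000005000000000000000000000000 := rS 0xff80fbd68d44f97992cb6bb8da6b3 (k8 c5532 c5579 c5466 c5465 c5464 c20845 c5663 c1522 (k4 c3618 c19797 c5585 c3072 (k2 c2573 c9179 k0))) (by decide +kernel)
def c23538 : PP 9 3 T 0x8000110040000000000000000000000000000000000000000000000008000000100000000000050000000000000000000000000000000 := rS 0x28183bf017cc1b4a5b84323d2092eb0634982472af89c5543ed639ed571156a5d2aa94dbf47e376fc0dc7e2d8ca00401db9c00a6d (k8 c22545 c21870 c23529 c5571 c23344 c5642 c23536 c22565 (k8 c5236 c5466 c2633 c5580 c5435 c5318 c5405 c2562 (k8 c5489 c5488 c5404 c5490 c9730 c20861 c20767 c20739 (k8 c5543 c2929 c3049 c755 c20748 c23471 c23432 c261 (k8 c19421 c23096 c5342 c5340 c5560 c6205 c10249 c17954 (k8 c5211 c23537 c62 c10425 c5456 c23279 c18018 c34 k0)))))) (by decide +kernel)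
def c23539 : PP 9 3 T 0x110040000000000000000000000000200000000000000000000008000000000000001000040000000000000000000000000000000 := rS 0xf09e41b581cc4d8e7b1f8ddc6dff16c40401db9c00a6d (k8 c22545 c21870 c23529 c5571 c23344 c5642 c22565 c5236 (k8 c5580 c5466 c5435 c5318 c20767 c20739 c755 c23471 (k4 c23096 c14556 c23280 c23279 (k1 c5669 k0)))) (by decide +kernel)
def c23540 : PP 9 3 T 0x8000110040000000000000000000000000000000000000000000000008000000100000000000040000000000000000000000000000000 := rS 0x3b0f831214b4c978f9b10bca136fd0c846b021498247270639ec469d888484c020083cda05 (k8 c21870 c22545 c21871 c23344 c5642 c23535 c267 c9730 (k8 c17717 c9733 c20767 c20739 c23529 c23471 c23432 c261 (k8 c266 c23096 c5558 c6205 c5405 c2562 c23536 c5433 (k8 c22565 c23538 c2871 c1521 c22898 c23539 c13457 c9243 (k2 c290 c6193 k0))))) (by decide +kernel)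
def c23541 : PP 9 3 T 0x110040000000000000000000008000200000000000000000000008000000000000000000040000000000000000000000000080000 := rS 0x3ec0cf3ef4cb51c61f59a07e7e2486c42e330c8447b1dac00873b78a9c3dacd6388d3b110096cda05 (k8 c21870 c22545 c5474 c23344 c9730 c17717 c9733 c20739 (k8 c139 c5543 c23529 c3049 c5571 c23471 c5642 c23096 (k8 c5341 c5560 c5558 c6205 c5316 c5433 c22565 c23539 (k8 c5236 c5589 c17681 c12151 c9243 c5466 c13617 c5802 (k4 c23148 c23373 c2633 c3041 (k1 c22628 k0)))))) (by decide +kernel)
def c23542 : PP 9 3 T 0x110040000000000000000000008000000000000000000000000008000000100000000000040000000000000000000000000000000 := rS 0x56fbda8d3f1204ee7d30a7c0db09496c7b5804edd5e8d380484c0200eccae05 (k8 c21870 c21872 c23540 c23344 c5642 c23535 c267 c23529 (k8 c754 c20748 c5571 c23432 c23096 c5560 c5474 c23541 (k8 c5209 c5643 c5448 c5445 c21924 c672 c751 c5670 (k4 c5579 c20755 c23464 c2890 (k1 c5683 k0))))) (by decide +kernel)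
def c23543 : PP 9 3 T 0x110040000000000000000000000000000000000000000000000008000000100000000000040000000000000000000000000000000 := rS 0x99d887f68b39405c769003a6dee4464bc277b3090993a230c894224b23d62221b0e88526090100473153815cda05 (k8 c21870 c22545 c21872 c23529 c3049 c23471 c23344 c5642 (k8 c23432 c261 c266 c20811 c20794 c9730 c23096 c5562 (k8 c5342 c5558 c5559 c6205 c9733 c17717 c23535 c267 (k8 c23540 c23542 c5649 c1177 c433 c3749 c2563 c23530 (k8 c23531 c1647 c1108 c5643 c12151 c9223 c9243 c22565 (k2 c5530 c6193 k0)))))) (by decide +kernel)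
def c23544 : PP 9 3 T 0x120040000000000000000000000000000000000000000000000008000000000000000000040000000000000000000000000000000 := rS 0x27623a50ddc1e1f1204767d3081b601f949ac7b58010041239dbc4ce0c73d95cda05 (k8 c21870 c22545 c21872 c20767 c20739 c23529 c755 c5571 (k8 c23471 c23432 c23344 c5642 c23096 c5560 c5523 c19356 (k8 c1111 c5209 c5643 c5445 c21924 c1674 c751 c5670 (k4 c13945 c17854 c1483 c5654 (k2 c5331 c18477 (k1 c23467 k0)))))) (by decide +kernel)
def c23545 : PP 9 3 T 0x2000100040000000000000000000000000000000000000000000000008000000000000000000040000000000000000000000000000000 := rS 0xf9acf6891a5c0dc63f65b7fc481699f4c2c91e90497583980872a1387b7dee180ac1579d88804da05 (k8 c21870 c22545 c23344 c9730 c23544 c20861 c23543 c2143 (k8 c1653 c5506 c5543 c23529 c2929 c23471 c5642 c9719 (k8 c23096 c5342 c5340 c5560 c5396 c5445 c21924 c2085 (k8 c751 c5670 c2565 c20621 c8336 c5466 c2633 c17954 (k4 c21172 c5211 c5532 c17766 (k1 c10427 k0)))))) (by decide +kernel)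
def c23546 : PP 9 3 T 0x100040000000000000000000000000000000000000000000000008000000000000000000040000000000000000000000000000000 := rS 0x10271a43c528d8c07deb055e77db1100edce06d (k8 c22545 c23529 c5571 c23344 c9730 c5543 c23544 c20861 (k8 c23543 c5506 c2143 c23545 c5209 c5236 c23539 c5466 (k2 c21172 c2633 k0))) (by decide +kernel)
def c23547 : PP 9 3 T 0x8000000000001000100000000000000000000000000000200000000010000000000000000000200000002000000020000000004401100001401010101 := rS 0x1eef306120247d3ca7552fd4c87f68b37fbd7e61b0e88405b78a85dc6f11495cda05 (k8 c21870 c22545 c21872 c8199 c1330 c5466 c5433 c3049 (k8 c5571 c5642 c266 c20811 c20794 c5589 c10333 c20750 (k8 c12151 c9223 c10367 c5802 c1336 c2184 c5412 c23373 (k4 c3041 c17898 c3036 c3037 (k2 c451 c20809 (k1 c17991 k0)))))) (by decide +kernel)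
def c23548 : PP 9 3 T 0x110040000000000000000000000000200000000000000000000000000000200000000000040000000000000000000000000000000 := rS 0x3d7dafe7bced1bdf1a178c27b798290e0df0d2c74e181fc91eb3da2452f01788645225088f4824b23d60e6630d82473136788d57111f81c6e8165b8dbfe2d880803b73803cda05 (k8 c21870 c22545 c21871 c23529 c5571 c23344 c5642 c22565 (k8 c5236 c5580 c5466 c5464 c5463 c5435 c5432 c5318 (k8 c9730 c20861 c9733 c23546 c755 c23471 c23432 c20794 (k8 c19421 c9719 c23096 c5562 c5342 c5340 c5560 c5558 (k8 c5559 c8199 c6205 c1330 c2143 c1333 c23547 c23263 (k8 c5532 c2874 c10427 c5550 c5591 c19019 c17954 c5456 (k8 c289 c19883 c5645 c20781 c690 c10425 c5663 c22891 (k8 c19294 c23417 c5324 c502 c20762 c5544 c2341 c5657 k0)))))))) (by decide +kernel)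
def c23549 : PP 9 3 T 0x110040000000000000000000000000200000000000000000000000000000000000001000040000000000000000000000000000000 := rS 0x77da2f1d9337da617f1ed0ef305037c34b1d38607f247acf69011e9049647ac06c3a93048e55f1367aae223f038dd02e36ff8b620200edd1ab13803cda05 (k8 c21870 c22545 c21871 c23529 c23548 c754 c5571 c23344 (k8 c5642 c22565 c5236 c5580 c5466 c5463 c5435 c5432 (k8 c5318 c9730 c20861 c23546 c755 c20748 c23471 c23432 (k8 c261 c20811 c20794 c23096 c5562 c5342 c5340 c5560 (k8 c19568 c23263 c5532 c2874 c10427 c5550 c5591 c19019 (k8 c17954 c5456 c289 c5645 c20781 c22895 c690 c20762 (k8 c10425 c5544 c2506 c23312 c5401 c19830 c19294 c5688 k0))))))) (by decide +kernel)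
def c23550 : PP 9 3 T 0x110040000000000000000000000000200000000000000000000000000000000000000000040000000000000000000000000000000 := rS 0x3f1e3b279ab602d4f7a5cee603d17fc29a1dbde960c24098247d3caa53a990fed166c77afcd208d58b4dc681f16c42e19128447a4b23d60c61b0e88526090100473b757c54e0cf1195cda05 (k8 c21870 c22545 c21872 c9733 c23546 c23529 c3049 c20748 (k8 c5571 c23471 c23344 c5642 c23432 c261 c266 c20811 (k8 c20794 c19421 c23096 c5562 c5342 c5560 c5558 c5559 (k8 c6205 c5433 c22565 c5236 c5463 c5466 c5579 c23548 (k8 c754 c23549 c5589 c10333 c800 c12151 c9223 c10367 (k8 c5802 c5412 c5531 c23373 c3041 c17898 c2868 c3036 (k8 c3037 c5334 c20809 c289 c6193 c5536 c1120 c5669 (k8 c5663 c22559 c20768 c23464 c20755 c3073 c2891 c451 (k4 c5683 c434 c17991 c5405 k0))))))))) (by decide +kernel)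
def c23551 : PP 9 3 T 0x12001000000040000000040000002000150000000000000000000000050000080 := rS 0xefee2dc0e75ed (k4 c5542 c20237 c2632 c5474 (k2 c21172 c672 (k1 c23464 k0))) (by decide +kernel)
def c23552 : PP 9 3 T 0x8000000000000000110040000000000000000000000000100000000000008000000000000000000000000000000020000000000000000000000000000 := rS 0x673b (k2 c5325 c22615 (k1 c23449 k0)) (by decide +kernel)
def c23553 : PP 9 3 T 0x100040000000000000000000000000100000000002001000000000000000100000002000040000000000000000000000000000000 := rS 0xeed52dc02741d57b3c0c096bb4fc47d1ea04c3b00f9c04b58010040a57 (k8 c21872 c21870 c23344 c5642 c23096 c5559 c23529 c10367 (k8 c5209 c5445 c751 c5560 c21924 c5670 c5579 c5465 (k8 c23432 c5643 c23546 c20748 c20811 c20237 c23551 c5474 (k2 c3073 c672 (k1 c20824 k0))))) (by decide +kernel)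
def c23554 : PP 9 3 T 0x110040000000000000000000000000000000000000001000000000000000100000002000040000000000000000000000000000000 := rS 0x6d2decfd0d875e7e23e8f50261d84a5ea1f54ed04a4b23acc23581080803153803cda05 (k8 c21870 c22545 c21871 c23529 c3049 c23344 c5642 c266 (k8 c23096 c5558 c12151 c5562 c5342 c5559 c9223 c5531 (k8 c10367 c10333 c23550 c5209 c5445 c751 c5560 c21924 (k8 c5670 c23552 c20811 c20794 c23553 c17991 c17949 c20809 (k1 c13457 k0))))) (by decide +kernel)
def c23555 : PP 9 3 T 0x8000000000000000100040000000000000000000000000100000000000002000000000000000000000000000000020000000000000000000000000000 := rS 0xce7619 (k4 c6205 c5323 c385 c23449 k0) (by decide +kernel)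
def c23556 : PP 9 3 T 0x2000110000000000000000000000000000000000000000000000440000400000000010001000010020000000004015100000000000000 := rS 0x7cd67b4a5b86266d (k8 c22545 c755 c21491 c17954 c5211 c5532 c17766 c10427 k0) (by decide +kernel)
def c23557 : PP 9 3 T 0x110040000000000000000000000000000000000000000000000000000000000000000000040000000000000000000000000000000 := rS 0x1e1a5a5d52fd586d166ff7aa41e2f3718fdbecbf12058e7d4ca54c29b6481b612955894223d2092c8f5839c44361d1080802091cc5542706795cda05 (k8 c21870 c22545 c21872 c23546 c23529 c2929 c3049 c23471 (k8 c23432 c23344 c5642 c266 c20811 c20794 c9730 c9719 (k8 c23096 c5562 c5342 c5340 c5560 c5558 c5559 c20861 (k8 c23550 c5209 c5643 c5396 c5397 c5445 c5446 c5447 (k8 c21924 c675 c751 c5670 c20621 c23328 c8336 c5466 (k8 c23552 c23555 c23556 c10333 c20750 c12151 c9223 c23554 (k4 c1336 c2184 c1333 c17949 (k2 c18012 c5215 k0)))))))) (by decide +kernel)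
def c23558 : PP 9 3 T 0x100040000000000000000000000000000000000000000000000000000000000000000000040000000000000000000000000000000 := rS 0x4ec474a1bb83c3e2408ed8e7d3081b601f949acf79c89edce0391ed6004010495cda05 (k8 c21870 c22545 c21872 c23432 c23344 c5642 c23096 c5560 (k8 c23471 c23529 c5571 c755 c23557 c5372 c5523 c19356 (k8 c1111 c5209 c5643 c5445 c21924 c675 c1674 c751 (k8 c5670 c13945 c17854 c1483 c5654 c5331 c18477 c23467 k0)))) (by decide +kernel)
def c23559 : PP 9 3 T 0x100040000000000000000080000000000000000000000000000000000000000000000000000000000000000000000000000000000 := rS 0x26b6a1f1d86442930b8e447b6f1a653a7b2f18f6202ceca00e7e08d6013110095cda05 (k8 c21870 c22545 c21872 c23344 c9730 c23432 c23096 c5558 (k8 c23558 c676 c5643 c19356 c5642 c22565 c19421 c19577 (k8 c22773 c8792 c1521 c5577 c5236 c9733 c5317 c1108 (k8 c261 c266 c6205 c5332 c5517 c9399 c6193 c8100 k0)))) (by decide +kernel)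
def c23560 : PP 9 3 T 0x800000000000000100040000000000000000000000000000000000000000000000000000000000000000000000000000000000000000000000000000 := rS 0x7f3d11af03b86e061ef91251e8705035664b1191c4a210ec052315da52cdccbdb0a4c3b11384c82024f98c0313cef8e50073f046b0092b8141e6d (k8 c22545 c21871 c21870 c21872 c23432 c23096 c5558 c23558 (k8 c676 c5643 c5577 c19356 c22991 c23344 c19421 c2881 (k8 c5642 c5340 c2918 c267 c22565 c17682 c8199 c5236 (k8 c5420 c18420 c23559 c5211 c5414 c3038 c19568 c20811 (k8 c266 c5559 c5562 c9733 c5342 c5574 c18082 c5645 (k8 c22895 c2311 c13198 c19538 c17931 c5550 c20794 c5493 (k4 c19294 c807 c1216 c20762 (k1 c2341 k0)))))))) (by decide +kernel)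
def c23561 : PP 9 3 T 0x100040000000000000000000000000000000000000000000000000000000000000000000000000000000000000000000000000000 := rS 0x1db7fc0c7ef9e51e0af90352315da52cdc7b65accbdb68988f639d13ca0269f03987c67e0488404630091c964108896b0290795cda05 (k8 c21870 c22545 c21872 c21871 c8199 c23096 c5559 c5558 (k8 c5340 c5342 c5562 c23344 c19421 c5642 c266 c23432 (k8 c23558 c5577 c17682 c676 c2881 c2918 c5643 c267 (k8 c19356 c22565 c9733 c22991 c5236 c19577 c5574 c5420 (k8 c22773 c18420 c23559 c5211 c5414 c3038 c18082 c19538 (k8 c5645 c2311 c2308 c23560 c23416 c5669 c14796 c5456 (k1 c19019 k0))))))) (by decide +kernel)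
def c23562 : PP 9 3 T 0x40000000000a1000000040000000000000000000000000000000000000000000140000000000000004405000000000000800000400000000000000008 := rS 0xf00e8f248057cc3d59711a96a29659c472171b88f3b284ec5532b3509bf4005 (k8 c21870 c23561 c5565 c1121 c5532 c5530 c5414 c5412 (k8 c5209 c19356 c9733 c5435 c5433 c5317 c5571 c5420 (k8 c5417 c5422 c17856 c3620 c19210 c18004 c5549 c1112 (k4 c6300 c2307 c18444 c19613 (k1 c5456 k0))))) (by decide +kernel)
def c23563 : PP 9 3 T 0x10040000000000000000000000000000000000000000000000000040000000000000000004000000000000000800000000000000 := rS 0x1e7c20f (k4 c21871 c5456 c1536 c5669 k0) (by decide +kernel)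
def c23564 : PP 9 3 T 0x4400000000045000200000000000000000000000000000000000000000000000000000000000000000000000000000000000000000000010080000008 := rS 0x7a7b9e043ac094de0f (k8 c21871 c5565 c1113 c21947 c5561 c22020 c5196 c1216 (k1 c19746 k0)) (by decide +kernel)
def c23565 : PP 9 3 T 0x4400000000041000000040000000000000000000000000000000000000000000000000000000000004000000000000001000000000000010080000008 := rS 0x698d1afef4bbc76419198fc2e311eca0362709b25425e31905271dac094dfa0 (k8 c23561 c5565 c1113 c21947 c5341 c262 c13854 c9752 (k8 c5663 c1121 c20845 c5564 c267 c20794 c5209 c5436 (k8 c5434 c5433 c5318 c5316 c6205 c23564 c5401 c5404 (k4 c17816 c14269 c20895 c14403 (k1 c14487 k0))))) (by decide +kernel)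
def c23566 : PP 9 3 T 0x800000000001000000040000000000000000000000000000000000000000000000010000000000000400000000000001000000000000000080000008 := rS 0x781de501b (k4 c20794 c5209 c5493 c19294 (k1 c19607 k0)) (by decide +kernel)
def c23567 : PP 9 3 T 0x4400000000041000200000000000000000100040000000200000000000002000000000000000000000000000000000000000001000000004000001000 := rS 0x7b9efb311cef699d (k8 c19356 c5211 c20351 c9733 c5401 c499 c5196 c22584 k0) (by decide +kernel)
def c23568 : PP 9 3 T 0x400000000041000000040000000000000000040000000000000000000000000000001000000000000400000080000001000000000000000080000008 := rS 0x1ff0343fbe03ed7ec75ee971a3c676b423126b22846a3c2e2355c453a9954ed33be36a86c3a2709e813ec94a9ecbc6306804f20a1bca00a6d (k8 c22545 c21870 c5209 c5435 c1112 c2307 c28 c2362 (k8 c9752 c5663 c22773 c20765 c20845 c2881 c23561 c5564 (k8 c267 c20811 c20794 c20749 c5577 c19356 c5211 c5531 (k8 c5530 c5412 c9727 c20861 c9733 c5433 c5568 c5381 (k8 c23565 c5339 c509 c1312 c1311 c20351 c23567 c19919 (k8 c19357 c19916 c553 c10429 c18006 c2791 c22584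 c693 (k2 c2350 c2572 (k1 c19658 k0)))))))) (by decide +kernel)
def c23569 : PP 9 3 T 0x1000000040000000000000000040000000000000000000000000000000040000000000000000080000001000000000000000000000008 := rS 0x49481008e2965edbbecdf01e4141e1db7da29b509ecbc930c9bd1e390b8dc469d10a67699d9478c4e13d027cc6e1 (k8 c3059 c9752 c2881 c23561 c5564 c267 c5577 c5209 (k8 c19356 c5211 c5530 c5528 c5412 c9733 c5435 c5433 (k8 c5317 c5568 c5565 c6205 c262 c5663 c22773 c1121 (k8 c1120 c20815 c14796 c23563 c6193 c1112 c2307 c10245 (k8 c5537 c23566 c23568 c5420 c5417 c17772 c18420 c23562 (k2 c511 c695 k0)))))) (by decide +kernel)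
def c23570 : PP 9 3 T 0x1000000040000000000000000040000000000000000000000000000000040000000000000000080000000000000000000000000000008 := rS 0x490fad4169b7bf81a277786ccf73b258448f5814edcf2a038180323711c54429959ed33b280d8744e13129bf400f (k8 c21871 c23561 c5565 c1113 c5564 c267 c20811 c20794 (k8 c5209 c19356 c5211 c5532 c5530 c5528 c5414 c9733 (k8 c5435 c6205 c23569 c728 c729 c1577 c5571 c1195 (k8 c21947 c16855 c5558 c5342 c20946 c19913 c19914 c22131 (k8 c10409 c20815 c10425 c499 c5536 c23387 c1199 c19607 (k2 c10368 c23484 k0)))))) (by decide +kernel)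
def c23571 : PP 9 3 T 0x1000000000000000010000000000000000000040000000000000000000000000400000000000000000001000080000000800005400000015040000808 := rS 0x6f26d69f33588d67b4 (k8 c5211 c5532 c9733 c2305 c17931 c23484 c1119 c10493 (k1 c2514 k0)) (by decide +kernel)
def c23572 : PP 9 3 T 0x41000000040000000000000000040000000000000000000000000000000000000000000000000080000000000000000000010000000008 := rS 0x206ff58c050ede5a3c1a6cd3ba6bbc6a0f11d1a8f5986c4e1312b8c960a068e6269124b85949f50978c26337a77699df0ca340796378cda0f (k8 c21871 c22545 c5577 c23570 c93 c23561 c5209 c5535 (k8 c19356 c5211 c5412 c5565 c9752 c726 c5663 c1121 (k8 c2881 c5680 c1718 c19613 c801 c5382 c5317 c2480 (k8 c5645 c2588 c2619 c1113 c5564 c267 c20794 c5532 (k8 c5568 c5381 c16855 c23571 c1111 c23565 c2482 c5493 (k8 c5495 c5496 c19294 c1326 c1327 c798 c9158 c1330 (k2 c2573 c2516 (k1 c20762 k0)))))))) (by decide +kernel)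
def c23573 : PP 9 3 T 0x40000200000000000000000100040000000200000000000002000000000000000000000000000000000000000001000000004000001000 := rS 0x7b9efb311cef699d (k8 c19356 c5211 c20351 c9733 c5401 c499 c5229 c22584 k0) (by decide +kernel)
def c23574 : PP 9 3 T 0x200000000000000000000040000000000000000001040000000400880000000000000000000000000000001000000020080000008 := rS 0x1ff036f269686a (k4 c1111 c1311 c2482 c1327 (k2 c2517 c2572 (k1 c22573 k0))) (by decide +kernel)
def c23575 : PP 9 3 T 0x41000000040000000000000000040000000000000000000000000000000000000000000000000080000000000000000000000000000008 := rS 0xd41f4399dfaf768b5f643422bc6775914125c2ca4eed3c6010d8744e134f9e4f7e150978c26337e81e60a06b18739d940141e6d (k8 c22545 c21871 c21870 c5209 c19356 c5317 c23570 c2480 (k8 c5645 c20781 c23561 c5565 c9752 c726 c5663 c1121 (k8 c5535 c162 c93 c2881 c5564 c267 c20811 c20794 (k8 c28 c5577 c5211 c5412 c5680 c1718 c19613 c23572 (k8 c5339 c20351 c23573 c456 c19919 c5649 c1764 c1705 (k4 c19916 c5405 c5487 c799 (k2 c23574 c20836 (k1 c2305 k0)))))))) (by decide +kernel)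
def c23576 : PP 9 3 T 0x5000000040000000000000100040000000000000000000040000000000000000000000814000004000000000001020020000080001008 := rS 0x3e7ed663f3de96784efbe1946a3c661b1384f40f305676500f (k8 c21871 c5209 c19356 c5645 c20781 c23561 c5564 c267 (k8 c20794 c5316 c5568 c5381 c6205 c5450 c5324 c23229 (k4 c22737 c22584 c1215 c1232 (k2 c5542 c19452 (k1 c5171 k0))))) (by decide +kernel)
def c23577 : PP 9 3 T 0x200000000000000000100040000000200000000000001000000100080000000000000000000000800800001000010001004000001 := rS 0x7f33274610f0281a39ce83c0a6d (k8 c22545 c21870 c21871 c19356 c5317 c2480 c5645 c2305 (k4 c726 c19919 c19918 c20899 (k1 c2507 k0))) (by decide +kernel)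
def c23578 : PP 9 3 T 0x5000000040000000000000100040000000000000000000040000000100080001000000000000000000800000000020000000000000008 := rS 0x40fdaff80fbdf8f49dbc08a3543a351e010d89c2625379ed26952f184c64971c4f409a0f0281a39ceca01e6d (k8 c22545 c21871 c5209 c19356 c5317 c2480 c5645 c2305 (k8 c2482 c23561 c5382 c2619 c512 c9752 c726 c5663 (k8 c20765 c262 c162 c5565 c1113 c5564 c267 c20794 (k8 c28 c5568 c5381 c693 c23576 c458 c23577 c5323 (k8 c1216 c1215 c22584 c1928 c2342 c5542 c2631 c19658 k0))))) (by decide +kernel)
def c23579 : PP 9 3 T 0x1000000040000000000000000040000000000000000000000000000000000000000000000000080000000000000000000000000000008 := rS 0xd59af17b1a922e1ac90366b514b2ce3b625a84145e49834c2cf6327c4a270d98c3313099bf40331c8fc2e3d11acf699d943541e6d (k8 c22545 c21871 c20749 c5209 c19356 c5211 c5532 c9733 (k8 c5436 c5433 c5318 c5317 c5316 c23561 c5565 c5564 (k8 c5382 c6205 c9752 c20794 c267 c1113 c2881 c23570 (k8 c20739 c726 c2480 c262 c5663 c5645 c1121 c2588 (k8 c23575 c5571 c5420 c5417 c5422 c19230 c3579 c19210 (k8 c1715 c801 c17856 c23578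 c499 c2071 c502 c19918 k0)))))) (by decide +kernel)
def c23580 : PP 9 3 T 0x40004000000000000000200000000000000000100040000000200000000004080000000140080001000000000000000000008000002440000000000000002 := rS 0x3f2048733c04ef3af78d7da8d09a3c663f1eaae22a9da33c960a068e73a4171c4cda0f (k8 c21871 c22545 c5382 c2619 c512 c19356 c5317 c2480 (k8 c5645 c2588 c20739 c5211 c5531 c9727 c20861 c5436 (k8 c5318 c5316 c5568 c5564 c5381 c5498 c502 c14662 (k8 c5171 c10131 c17951 c777 c798 c19658 c20005 c2631 k0)))) (by decide +kernel)
def c23581 : PP 9 3 T 0x4000000000080000200000000000000000000040000000200000000000000000000100080000000000000000004000008400000000000000000000004 := rS 0xd16b16c6b3a8ebdda64121916b2e0243ffe6cd6f841200a35b8c1be146c4cde8f198e47e311e91e231559ed33a004bb2ce67113ac56aadd99b41e05 (k8 c21870 c21871 c22545 c19230 c5573 c5422 c5421 c5570 (k8 c5571 c5379 c1322 c20807 c5642 c19356 c5211 c5532 (k8 c5414 c9727 c15906 c5436 c5434 c5318 c5317 c5316 (k8 c5568 c5565 c5382 c5381 c5535 c2480 c2619 c2483 (k8 c5645 c18007 c13386 c14968 c23273 c20111 c20750 c695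 (k8 c801 c5558 c20747 c22797 c512 c3063 c23580 c513 (k4 c23008 c5324 c5474 c3588 (k2 c9793 c10298 k0)))))))) (by decide +kernel)
def c23582 : PP 9 3 T 0x5000000040000000000000000000000000000000100000040000000011000000001000100000000000000000000000410000000000802 := rS 0x6499d2bdf6721cf2f3198e4623755bd4f79d9425cc46d (k8 c22545 c16365 c20807 c5209 c19356 c20101 c23244 c20861 (k8 c5435 c5434 c5317 c5316 c20781 c2307 c693 c3587 (k4 c17847 c1587 c778 c22947 (k1 c5678 k0)))) (by decide +kernel)
def c23583 : PP 9 3 T 0x81000200000000000000000000000000000000000000000000000000108000000000000100000000000008000000000000000000000000 := rS 0xae6419d2bdf39a34de9738ac55bb3 (k8 c19230 c5573 c5421 c5571 c20807 c5565 c5381 c5379 (k4 c5453 c1587 c778 c5678 (k2 c20793 c1183 k0))) (by decide +kernel)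
def c23584 : PP 9 3 T 0x1000000000000001000000040000000000000100040004000000000000000040000000010000001010000000000000010400000000000400000000000404 := rS 0xf719c3e4a0c8cc7217188dd3b1510a65eacd3ded0c5f388e76500039e800a6d (k8 c22545 c21870 c23561 c5379 c5642 c5209 c19356 c9727 (k8 c20111 c16365 c5211 c20101 c23273 c23244 c5530 c5528 (k8 c5414 c5412 c5435 c5434 c5433 c5317 c5316 c6205 (k4 c22863 c2590 c22997 c5171 (k1 c19392 k0))))) (by decide +kernel)
def c23585 : PP 9 3 T 0x5000000040000000000000000040000000000000000000040000000014000001110000000000000010400000000000410000000000004 := rS 0x1581207676f205fb74111198e4623710a6552f5669ef699d941880005 (k8 c21870 c5642 c16365 c5209 c19356 c5211 c20101 c23273 (k8 c23244 c5531 c5530 c5528 c5435 c5434 c5317 c5316 (k8 c9727 c23561 c18037 c23582 c3587 c5325 c333 c18461 (k2 c23584 c5559 k0)))) (by decide +kernel)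
def c23586 : PP 9 3 T 0x81000200000000000000000000000000000000000000000001000000100000000000000040000000000000000000000021000000000002 := rS 0x15cc833a543b3bef9cd1a6f38ac55bb3 (k8 c19230 c5573 c5421 c5571 c5565 c5381 c5379 c5450 (k4 c5324 c332 c10191 c664 (k2 c5678 c20793 (k1 c1183 k0)))) (by decide +kernel)
def c23587 : PP 9 3 T 0x5000000040000000000000000040000000000000000000040000140014000001110000000000000010000000000000410000000000004 := rS 0x19d5e1a0e915e44071b3496494d1e03c0b351cd1a13378cc72311b8848fa088c5567b4313d4019d9403c0a6d (k8 c22545 c21870 c21871 c5209 c19356 c5642 c23244 c16365 (k8 c5211 c5532 c5414 c9727 c23561 c15906 c5528 c5435 (k8 c5434 c5317 c5316 c5565 c5564 c5381 c5379 c23585 (k8 c2306 c1058 c1174 c1173 c10368 c2590 c20785 c2621 (k8 c17934 c3587 c458 c333 c2533 c1078 c664 c20793 k0))))) (by decide +kernel)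
def c23588 : PP 9 3 T 0x6000000000000000210000000000000000100040000000000000000000000000000104000000110000040000001010440000002000000000000000000 := rS 0x10e7769c07deae39a34df11 (k8 c9727 c5565 c5381 c5379 c20793 c19392 c20839 c2941 (k2 c10131 c19811 (k1 c22445 k0))) (by decide +kernel)
def c23589 : PP 9 3 T 0x81000000040000000000000000040000000000000000000000000000000000000000000000000080000000000000000000000000000000 := rS 0x69c7676940e168cc41f0564907948040146b21835ec35678edbed170b1f66ad5aac44e7139a36266f478c46e99f1b55e247d04462ab3da17cf79d9425cc4000183c0a6d (k8 c22545 c21870 c21871 c23579 c5642 c16365 c20807 c5209 (k8 c19356 c20101 c10372 c5211 c5532 c5414 c9727 c23561 (k8 c15906 c19427 c20749 c5577 c5530 c5435 c5434 c5568 (k8 c5565 c5382 c5381 c5379 c5571 c5570 c5421 c5422 (k8 c5573 c19230 c23581 c3059 c20815 c14796 c23563 c23583 (k8 c23586 c23587 c20809 c2108 c1059 c5645 c13386 c18007 (k8 c2307 c695 c5558 c10247 c511 c23588 c663 c664 (k4 c778 c5474 c2159 c2018 (k1 c22979 k0))))))))) (by decide +kernel)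
def c23590 : PP 9 3 T 0x1000200000000000000000000000004000200100000000001000000000000000110000000000080000008000000050000005000010002 := rS 0xee66f79146ad30e3276673469bfc6d53081d2e71 (k8 c667 c20807 c5432 c661 c20749 c5577 c5565 c5381 (k8 c5379 c20843 c19587 c18461 c13297 c332 c335 c14662 (k2 c20217 c10131 (k1 c777 k0)))) (by decide +kernel)
def c23591 : PP 9 3 T 0x20000200000000000000000000000000000000000100001000000000000000000200000000000000000400000000000000000000010002 := rS 0x43aa4ce71 (k4 c667 c2180 c5531 c19857 (k1 c20831 k0)) (by decide +kernel)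
def c23592 : PP 9 3 T 0x1000000040000000000000000040000000000000000000000000000000000000200000000000080000000000000000000000000000000 := rS 0x1ed79bdc76cd0f030f0d1ef8d50e6a05a5590676b3f46639188dd571154ed1ea7bceca0833b5027ce211ac6dd96620000ce7a0f183c0a6d (k8 c22545 c21870 c21871 c5577 c23561 c5379 c23579 c5642 (k8 c16365 c1322 c23589 c20261 c5558 c667 c2880 c5680 (k8 c20946 c5340 c5209 c19356 c20101 c23244 c5211 c5531 (k8 c9727 c20861 c5435 c5434 c5317 c5316 c4054 c1198 (k8 c2180 c1197 c2182 c19867 c23591 c19883 c1763 c5494 (k8 c9610 c22947 c5645 c1058 c20785 c1536 c20809 c2532 (k2 c18037 c5657 k0))))))) (by decide +kernel)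
def c23593 : PP 9 3 T 0x8000000000000000000010000000000000000000040004000000000000000014000000000000000000000000000000000000080004440000000000040400 := rS 0xf6bdc920f (k4 c21871 c10368 c2102 c17892 (k1 c5657 k0)) (by decide +kernel)
def c23594 : PP 9 3 T 0x1000000040000000000000000040000000000000000000000000000000000000000000000000080000000000000000000000000000000 := rS 0xb4f07cdbe913c9ac15ee1af7c38f32d3483645566cd62e113a813e719d92e3a41218444b58dbb2d2e7b7a9888e007880fc6734684cdfa0888fc6f1510acf699d941b41e05 (k8 c21870 c21871 c22545 c5209 c19356 c5211 c5532 c5528 (k8 c5414 c5435 c5318 c9727 c23561 c5565 c5564 c5381 (k8 c5379 c5577 c23579 c19427 c5642 c15906 c16365 c23244 (k8 c20101 c20807 c1322 c23589 c20261 c5559 c5558 c5561 (k8 c5340 c5341 c5342 c20946 c667 c2880 c5680 c2927 (k8 c3060 c23592 c20843 c23590 c4885 c1908 c2931 c20820 (k8 c23227 c5649 c5496 c332 c5196 c23593 c2306 c2307 (k4 c694 c14968 c20111 c18204 (k2 c20140 c19923 k0))))))))) (by decide +kernel)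
def c23595 : PP 9 3 T 0x4400000000045000000040000000000000000040004000000000000000000000000000000002000000000000000000400000000040000000000000802 := rS 0xf0269c2a0f7234df156f9ef68cbf99c4c47f88e74e7a0799e46f2820c76b06d (k8 c22545 c20261 c5341 c5340 c5209 c5435 c2307 c20781 (k8 c23561 c5379 c19356 c9727 c23594 c16365 c781 c20111 (k8 c1322 c5211 c20101 c14968 c5414 c5565 c5381 c5196 (k4 c20244 c3060 c1199 c18204 (k1 c5536 k0))))) (by decide +kernel)
def c23596 : PP 9 3 T 0x400000000001000000040000000000000000040004000000000000000000000000000000000100000000000000000400000000040000000000010802 := rS 0x223d9a1ed7e0d438ff18a6552f54bb7d96cd3dbcc4a4b8991d67f320c76b0d767b1bc3e25a1c4ff1539edc1bb4d980f40913c8dcc511ceca01e6d (k8 c22545 c21871 c5209 c19356 c9727 c16365 c5435 c2307 (k8 c694 c23561 c28 c19921 c5211 c34 c13386 c5379 (k8 c5414 c23594 c781 c20140 c23595 c17754 c10247 c20739 (k8 c5465 c20261 c5341 c5340 c20111 c5532 c15906 c5382 (k8 c2588 c20674 c20781 c20101 c23273 c1322 c14968 c20807 (k8 c23244 c5531 c5530 c5434 c2573 c19971 c332 c19924 (k4 c5542 c5688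 c5657 c19922 (k1 c504 k0)))))))) (by decide +kernel)
def c23597 : PP 9 3 T 0x400000000001000000040000000000000000040004000000000000000000000000000000000000000000000000000400000000040000000000010802 := rS 0x3210e9533ac1afe255aa4f6973c8df6603db835689138988ff15da4473b2839e80da0f (k8 c21871 c22545 c23561 c5379 c5209 c19356 c9727 c5211 (k8 c5414 c23594 c16365 c781 c694 c20140 c34 c13386 (k8 c28 c19921 c5435 c2307 c20807 c20101 c5531 c20861 (k8 c23595 c5465 c23596 c2180 c2181 c19883 c5678 c22947 k0)))) (by decide +kernel)
def c23598 : PP 9 3 T 0x1000000040000000000000000040004000000000000000000000000000000000000000000000000000400000000040000000000010802 := rS 0xe2c037ed7b19cefde8ed6169b7d9a441a73d02ae231510ed006f17ae765071311fcda0f (k8 c21871 c22545 c23594 c16365 c781 c5209 c19356 c23244 (k8 c9696 c28 c5211 c5528 c5414 c9727 c20861 c23561 (k8 c5379 c34 c694 c19921 c13386 c20140 c20261 c5341 (k8 c23597 c5493 c777 c22988 c5498 c2103 c18385 c5649 (k1 c2177 k0))))) (by decide +kernel)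
def c23599 : PP 9 3 T 0x40004000000000000002051000000000000000000000000000000000000000000000000000140000000 := rS 0x7906f67ed (k4 c5542 c5405 c1075 c5657 (k1 c23227 k0)) (by decide +kernel)
def c23600 : PP 9 3 T 0x1000000040000000000000000040004000000000000000000000000000000000000000000000000000400000000040000000000010002 := rS 0x56abc3445796ce07ed58a19fefd33b443e3b63bdc184905fcd9a1939a34266fd00cc7217188dd57114e88532a9da00de2f53de765071311fcda0f (k8 c21871 c22545 c23594 c16365 c781 c5209 c19356 c20101 (k8 c23244 c9696 c28 c5211 c5531 c5530 c5528 c5412 (k8 c9727 c20861 c5435 c5434 c5433 c5317 c5316 c23561 (k8 c5565 c5564 c5381 c5379 c6205 c23273 c20111 c23598 (k8 c10368 c5645 c20809 c2480 c290 c2361 c20815 c22997 (k8 c23599 c20936 c20788 c23591 c5499 c10690 c20843 c5657 (k4 c9612 c23227 c1078 c1908 (k1 c20793 k0)))))))) (by decide +kernel)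
def c23601 : PP 9 3 T 0x1000000000000001000200000000000000000000040004000200000000000040000040000000000100000040000000010000000000040400000000000002 := rS 0x68d520113e5b6f7d6448670ec75e43110bc5ea4701c462ab3da677668d399bcda0f (k8 c21871 c22545 c5565 c5379 c5381 c20843 c19356 c5211 (k8 c5532 c5414 c9727 c28 c15906 c23244 c9696 c5528 (k8 c5434 c5657 c17702 c333 c664 c18384 c5559 c20163 (k4 c20216 c5171 c5658 c19019 (k2 c1657 c458 (k1 c23586 k0)))))) (by decide +kernel)
def c23602 : PP 9 3 T 0x1000200000000000000000000040004000200000000000040000040011000000100000040000000010000000000040400000000000002 := rS 0x2247495efac86848670e8d3e6f3f66cce68d378cc72311bbc5ea4701c462ab3da674da0f (k8 c21871 c22545 c19356 c5211 c5532 c5414 c9727 c28 (k8 c15906 c23244 c9696 c5435 c5434 c5317 c5316 c5565 (k8 c5381 c5379 c20843 c23601 c5540 c20903 c18037 c332 (k8 c664 c18384 c5649 c5559 c20163 c20674 c2161 c5658 (k1 c460 k0))))) (by decide +kernel)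
def c23603 : PP 9 3 T 0x1000000040000000000000000040004000000000000000000000000000000000000000000000000000000000000040000000000010002 := rS 0x1abcdacfd67a83e6e225906b1b7f7ac3c2e16fb459a3b7b92534780f030166a099f462f53d91c07a088c5567b4ceca12e71311fc1e6d (k8 c22545 c21871 c23594 c16365 c781 c20807 c5209 c19356 (k8 c5211 c5532 c5414 c9727 c23561 c28 c15906 c20101 (k8 c23244 c5434 c5566 c5564 c23600 c2306 c1059 c1058 (k8 c1174 c1173 c10368 c20809 c290 c20785 c20803 c2388 (k8 c1541 c5536 c23602 c5506 c5421 c20261 c5340 c5342 (k8 c17934 c19019 c2622 c10455 c4054 c1198 c2532 c1763 (k1 c16068 k0))))))) (by decide +kernel)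
def c23604 : PP 9 3 T 0x200000000000000000000000000000000000000000000000000000000000000000000000000010000000000080000000000000002 := rS 0x68ccaddb2bd63b3ac9cd1a6f788a40605 (k8 c21870 c28 c9694 c9696 c5565 c5381 c5379 c5561 (k8 c18379 c1932 c2777 c20261 c5573 c20793 c10701 c1903 k0)) (by decide +kernel)
def c23605 : PP 9 3 T 0x1000000040000000000000000040000000000000000000040000000000000000000000000000000000000000000000000000000012002 := rS 0x409f84a0ffcc82d4f6b39bed1708ed8e7d478e5327b23c45663579fbf661b5ac055cad1480d63b6ac9bd1a672d9ce2bb4ceca0931c9d10ce2623fe80da0f (k8 c21871 c22545 c23561 c23594 c16365 c781 c23604 c23603 (k8 c20878 c513 c5209 c19356 c5211 c5414 c5379 c5474 (k8 c663 c5381 c5565 c20946 c20351 c5421 c28 c9694 (k8 c2029 c20793 c3070 c5422 c5475 c18393 c20927 c5325 (k8 c5324 c5532 c9727 c15906 c20101 c5530 c5317 c5568 (k8 c5566 c2480 c290 c10249 c20815 c14796 c23587 c5543 (k8 c23583 c1656 c19019 c6300 c5660 c20037 c9182 c2631 k0))))))) (by decide +kernel)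
def c23606 : PP 9 3 T 0xa0000200000000000000000000040000000000000000000000000000000000000000000000000000000000000000000000000000011002 := rS 0xd60f (k2 c21871 c1059 (k1 c13386 k0)) (by decide +kernel)
def c23607 : PP 9 3 T 0x1000000040000000000000000040000000000000000000000000000000000000000000000000000000000000000000000000000010002 := rS 0xf7066dab33ada676504338988ffa0 (k8 c23561 c23594 c16365 c781 c23604 c5209 c19356 c5211 (k4 c23603 c20946 c20351 c23606 (k2 c20809 c23605 k0))) (by decide +kernel)
def c23608 : PP 9 3 T 0x1000000040000000000000000040008000000000000000040000000000000000000000000000000000000000000000000000000002002 := rS 0x813f0941ff9c0482d4f6fbd9c5b798d5324701c462ab3da09ce2623fac56aadd9edab2101d92426e13eb45bec71ca3f407bceca0da0f (k8 c21871 c22545 c5209 c19356 c20101 c23561 c5568 c5317 (k8 c2480 c14796 c20815 c5566 c10249 c5564 c293 c290 (k8 c23607 c5558 c20261 c19230 c5573 c5422 c5421 c23594 (k8 c16365 c781 c2858 c5211 c5532 c5414 c9727 c28 (k8 c15906 c5530 c5324 c5325 c5474 c23587 c19760 c5543 (k8 c23583 c1656 c3072 c19019 c6300 c5660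 c20037 c9182 (k1 c2631 k0))))))) (by decide +kernel)
def c23609 : PP 9 3 T 0x1000000040000000000000000040000000000000000000040000000000000000000000000000000000000000000000000000000002002 := rS 0x3cf85993b6fb4476c747c44727bceca12e4338988ffa058edab210 (k8 c23607 c5558 c20261 c5421 c23561 c23594 c16365 c781 (k8 c23604 c20807 c5209 c19356 c20101 c5317 c9727 c5568 (k8 c2480 c290 c20815 c14796 c23608 c23602 c5537 c20785 (k1 c10247 k0)))) (by decide +kernel)
def c23610 : PP 9 3 T 0x1000000040000000000000000040000000000000000000040000000000000000000000000000000000000000000000000000000000002 := rS 0x349d0eda2c748335be0a35836266f47c4532a959ed0f79d9425d9673219c4c47f58ad767b6ac843400f (k8 c21871 c23561 c23607 c5558 c20261 c19230 c5422 c5421 (k8 c23594 c16365 c781 c23604 c5379 c1322 c20807 c5209 (k8 c19356 c20101 c5211 c5532 c5531 c5530 c9727 c5568 (k8 c5565 c5382 c23609 c1059 c5645 c14968 c23273 c18007 (k4 c800 c20815 c23563 c23602 (k2 c23582 c5324 k0)))))) (by decide +kernel)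
def c23611 : PP 9 3 T 0x1000000000000020000200000000000000000000040000000000000000000000000000000000000000000000000000010000040000000000000000021002 := rS 0x10380bf15c87f799d1b155480c4eb156a40d68f5aedab26f39c4d660f (k8 c21871 c5532 c5382 c5379 c5565 c5558 c20261 c5422 (k8 c5568 c1059 c18007 c5573 c5421 c2858 c28 c5531 (k8 c5414 c5381 c663 c19760 c8435 c20922 c20831 c3070 (k2 c2631 c21172 k0)))) (by decide +kernel)
def c23612 : PP 9 3 T 0x1000000040000000000000000040000000000000000000000000000000000000000000000000000000000000000000000000000000002 := rS 0x192d20e476765a208ec4a486392d21f3051ac1bed7b6cd5ab558ed84f590810ce297239ecc40339a36266f47e8222338aacf699d941fc1e6d (k8 c22545 c21871 c23594 c5209 c19356 c5211 c5532 c5414 (k8 c5316 c9727 c23561 c5568 c5565 c5382 c5381 c5379 (k8 c28 c16365 c20101 c15906 c20807 c781 c23604 c23607 (k8 c5558 c2858 c20261 c5421 c5422 c5573 c19230 c23610 (k8 c5498 c20809 c1059 c5645 c20111 c18007 c2588 c800 (k8 c13505 c20674 c23563 c511 c23611 c5474 c2159 c18461 (k2 c23008 c2061 (k1 c13297 k0)))))))) (by decide +kernel)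
def c23613 : PP 9 3 T 0x1000000040000000000000000040004000000000000000080000000000000000000010000000000000400000000000000000000000000 := rS 0x10ac240b503492183e81468e42e9d10a67682709abc4a6f7e99f6fb23b87432e13ee8076c74df80c01b7888c6a791b808027b050373a079403c0a6d (k8 c22545 c21870 c21871 c5209 c5432 c19356 c20809 c5645 (k8 c690 c23612 c5642 c5435 c2307 c19916 c9733 c499 (k8 c20794 c19920 c10425 c5536 c726 c23563 c23561 c5566 (k8 c10249 c6205 c20811 c10409 c22131 c19230 c5487 c5405 (k8 c5565 c1113 c10145 c5564 c267 c5211 c5530 c5528 (k8 c5412 c5433 c5317 c5381 c5380 c1111 c20836 c6193 (k4 c10690 c692 c19915 c20944 (k2 c13457 c5558 k0)))))))) (by decide +kernel)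
def c23614 : PP 9 3 T 0x1000000040000000000000000040004000000000000000080000000000000000000000000000000020000000000000000000000000000 := rS 0x3c4910f1a943b43f894dfb7d9781c2c73006de2231a9e46e02009ec140d039f7419d9403cda05 (k8 c21870 c22545 c21871 c5209 c19356 c23561 c5566 c5432 (k8 c20809 c5645 c690 c23612 c5642 c5435 c2307 c19916 (k8 c9733 c499 c20794 c19920 c726 c10249 c10425 c22131 (k8 c19230 c5565 c1113 c23594 c5211 c2929 c23613 c2305 (k2 c10367 c19906 (k1 c17754 k0)))))) (by decide +kernel)
def c23615 : PP 9 3 T 0x9000000040000000000000000040000000000000000000000000000000000000200000009000000000002000000000000000000000800 := rS 0x2158500a7c6194ced0361d1380802133c8df6fe0709f5bec747e80f607ceca0da05 (k8 c21870 c22545 c5209 c19356 c5432 c690 c23561 c5568 (k8 c726 c14796 c5566 c10249 c10425 c19230 c5435 c2307 (k8 c5564 c23612 c5642 c267 c20811 c20794 c5211 c5530 (k4 c6205 c17754 c15227 c19906 (k2 c18405 c19914 (k1 c5558 k0)))))) (by decide +kernel)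
def c23616 : PP 9 3 T 0x1000000040000000000000000040004000000000000000080000000000000000000000000000000000000000000000000000000000000 := rS 0x56021f348248105b43fbd60713b99d5a60d9064e68d37e80361d01007daf1118d4f2373d8281a07ceca01e05 (k8 c21870 c21871 c5209 c19356 c5432 c20809 c5645 c690 (k8 c5435 c2307 c19916 c9733 c499 c5498 c23612 c5642 (k8 c20811 c20794 c23561 c5565 c5381 c5379 c6205 c22131 (k8 c19920 c5490 c5487 c10409 c23614 c20843 c19392 c19883 (k8 c2101 c20850 c1573 c23615 c5589 c13457 c5171 c5558 k0))))) (by decide +kernel)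
def c23617 : PP 9 3 T 0x4000000000281000000040000000000400000040000000000000000000000044000000000000000020400000000000002000000000000000000000200 := rS 0x1f776c5f51f4f2de71eefd2aeeeea35f9ce4e6fc6e813b155ca656fb4ceca2fa02009c70a05 (k8 c21870 c5423 c5571 c23612 c5642 c9704 c5209 c19356 (k8 c5211 c5533 c5530 c5415 c5414 c5412 c23561 c5569 (k8 c5565 c5383 c5379 c5431 c5614 c5613 c5430 c17948 (k8 c3111 c1581 c730 c17955 c5222 c5671 c5635 c4315 (k2 c7323 c5693 k0))))) (by decide +kernel)
def c23618 : PP 9 3 T 0x4000800000000000000200000000000000000000000000000000000000000000000000010000000000000002000041000000000000000000000000000000 := rS 0xeec7 (k2 c800 c5493 (k1 c21540 k0)) (by decide +kernel)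
def c23619 : PP 9 3 T 0x2a0000210000400100000000000000000000010050000000000000000000000400000000000000000000000000000000000000000000000 := rS 0xbde27eb808b696ee73939bf1ab938af70ab5 (k8 c5422 c5423 c5575 c5571 c5415 c5569 c5565 c5383 (k8 c5379 c5613 c17948 c17867 c3606 c5635 c3258 c3416 (k1 c5676 k0))) (by decide +kernel)
def c23620 : PP 9 3 T 0x21000000040000000000000000000008000000440000000000081000000000000000400002000040000000000000000000000000000008 := rS 0xaacf8152693738b8cafd4725f2e76517d5eedab3a0 (k8 c23561 c20946 c20351 c5575 c9704 c5209 c19356 c5623 (k8 c2958 c3291 c2961 c3362 c1005 c23619 c5237 c5681 (k4 c5607 c19938 c7364 c1115 k0))) (by decide +kernel)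
def c23621 : PP 9 3 T 0x10000000000101000000040000000000000000040000000000000000000080000000000000000000400002000000000000000000000000000000000000 := rS 0x1d0a2bcded4a4f158b6cf89c0c87538fc5e91331f73b97c0791b98082481db1cfe7b050340e294f9bd97b6acceb699d9409c040109e800a0f (k8 c21871 c21870 c23561 c5564 c23612 c5642 c267 c5209 (k8 c19356 c5211 c23616 c20946 c20351 c5420 c5565 c5572 (k8 c5417 c5432 c20809 c5645 c690 c23594 c800 c23563 (k8 c13505 c511 c18420 c5435 c2307 c5669 c5539 c5461 (k8 c3949 c5530 c5237 c5390 c5608 c5388 c5606 c5607 (k8 c5610 c19938 c269 c1115 c17723 c7364 c697 c731 (k2 c5681 c3611 (k1 c1613 k0)))))))) (by decide +kernel)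
def c23622 : PP 9 3 T 0x40022000000000000002200000000000000000000040008000000400000000000040000000040000000000000000045000000000000000000000000000000 := rS 0xfbfd6cf89c7e2d027dc6d675379 (k8 c5619 c5469 c20946 c5569 c5566 c5380 c5390 c5608 (k4 c5610 c19938 c21954 c9954 (k1 c5174 k0))) (by decide +kernel)
def c23623 : PP 9 3 T 0x101000000040000000000000000040000000000000000000080000000000000000000400002000000000000000000000000000000000000 := rS 0x83fc60bf584b689c4db7d9b4ad96eb0fc9a0f68d68ff373badcbe0639e46e7b03c6c90108f8281b3a01004ffb4ceca00a0f (k8 c21871 c21870 c5209 c19356 c5211 c23594 c23612 c5642 (k8 c23616 c20809 c5645 c3949 c13457 c13505 c5035 c5432 (k8 c690 c5435 c2307 c800 c5669 c5539 c23620 c5461 (k8 c5589 c5327 c19916 c5498 c23561 c23621 c5468 c5471 (k8 c5621 c23622 c5213 c5349 c5604 c6333 c21822 c2237 (k4 c7334 c3386 c5627 c3444 (k1 c5695 k0))))))) (by decide +kernel)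
def c23624 : PP 9 3 T 0x1000000040000000000000000040000000000000000000080000000000000000000000002000000000000000000000000000000000200 := rS 0x154a62b91b0a41a8f2de71fa516aec5f7751aff70a739c9f1a9d5ca656f7d129c57b8573a6fc0791b98082481db1cfe7b050340e294f9bd97b6acceb699d9409c040109e800a0f (k8 c21871 c21870 c23561 c5564 c23612 c5642 c267 c5209 (k8 c19356 c5211 c23616 c20946 c20351 c5420 c5565 c5572 (k8 c5417 c5432 c20809 c5645 c690 c23594 c800 c23563 (k8 c13505 c511 c18420 c5435 c2307 c5669 c5536 c5461 (k8 c5423 c5575 c5571 c1113 c9704 c5533 c5530 c5415 (k8 c5412 c5569 c5383 c5379 c4324 c23623 c5431 c5614 (k8 c5613 c5425 c5430 c5612 c17948 c1581 c730 c17955 (k8 c5671 c1802 c1801 c310 c3229 c3234 c3757 c3586 k0)))))))) (by decide +kernel)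
def c23625 : PP 9 3 T 0x200400000040010000000000000004000000000000000000001004000000000014000001500000000810002000000000004000000000048 := rS 0x5bc57836c6adb7a8f2de71fa5c88b5778717ddd4673939bf1ba0be86c3ac8 (k8 c725 c20811 c20794 c9704 c23561 c5569 c5565 c5383 (k8 c5379 c5614 c5613 c5425 c5429 c5430 c5612 c5615 (k8 c17948 c1581 c730 c17955 c5671 c20769 c707 c989 (k4 c1185 c1116 c2091 c3583 k0)))) (by decide +kernel)
def c23626 : PP 9 3 T 0x1000000040000000000000000040000000000000000000080000000000000000000000002000000000000000000000000000000000000 := rS 0x619b0a6dc99990760498136e720f807648639bc66314eae532b73f89c040109bc446353c8dcf60a0681e8e5bd79c53ecbc28a76d599d683699d9415c1e05 (k8 c21870 c21871 c21872 c5209 c19356 c5211 c23561 c23616 (k8 c20946 c20351 c5417 c5423 c5420 c5572 c5571 c5479 (k8 c5474 c5327 c5432 c20809 c5645 c690 c5435 c2307 (k8 c19916 c9733 c499 c5564 c23612 c5642 c267 c23594 (k8 c5533 c5530 c5415 c5412 c5434 c5316 c5565 c800 (k8 c13505 c23563 c5669 c511 c5461 c5536 c18420 c23624 (k8 c20778 c725 c724 c23625 c23623 c1374 c1373 c4474 k0)))))))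 (by decide +kernel)
def c23627 : PP 9 3 T 0x1000000000000021000000040000000000000000000008000000000000000000000000001000000000000001004040000004000000000010000000000908 := rS 0x3f9c4496fb8476c768f7dae7649a06267d478cc7e31ce9e46e7b03ca0b6714fb2c53b3db5674057 (k8 c21872 c23561 c20946 c20351 c19230 c5417 c5420 c5572 (k8 c5571 c5474 c5209 c5432 c690 c5435 c2307 c19356 (k8 c5434 c5318 c5316 c5568 c5566 c5382 c5380 c261 (k8 c20778 c20886 c5493 c20358 c20921 c6899 c10249 c14796 (k4 c18444 c3610 c22358 c2575 k0))))) (by decide +kernel)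
def c23628 : PP 9 3 T 0x400000000105000000040000000000000000000008000000000040000000000002000000000000000000000000000000000000000000000000010000 := rS 0xa7f72ac33550bb3c86ff2591fc3496ff2c9f1a339451f5f598fc711a13d010c8a5b (k8 c5474 c5326 c5478 c23561 c5564 c5381 c20779 c19418 (k8 c20946 c5479 c5327 c5209 c5316 c5569 c5383 c5621 (k8 c2091 c5237 c5197 c617 c5391 c5389 c5606 c19938 (k4 c5629 c20776 c20753 c3459 (k2 c5640 c3225 (k1 c5662 k0)))))) (by decide +kernel)
def c23629 : PP 9 3 T 0x10400000000105000000040000000000000000000008000000000040000000000000000000000000000000000000000000000000000000000000010000 := rS 0x14fee5591c33556f85d9e437f92fc34927c6d1f5f598fc711a13d010c8a5b (k8 c5474 c5326 c5478 c23561 c5564 c5381 c20779 c19418 (k8 c20946 c5479 c5327 c5569 c5383 c5237 c5197 c5391 (k8 c5389 c5606 c19938 c5629 c5510 c20776 c20753 c617 (k4 c3459 c5640 c3225 c5662 k0)))) (by decide +kernel)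
def c23630 : PP 9 3 T 0x101000000040000000000000000040000000000000000000080000000000000000000000000000000800000000000000000000000000000 := rS 0x20ff182fd5b44e26dbecd09d2ba587e475b659d0f6eb5204c833470c05f08a4890ff23fcfc6e771781bee11db1da2d7efa051a133ea3c46214c9fcc62501004dfed668cc97131a9e46e7b0390c8b474396d3ecb14ecc3c6a48ad56671db56675a0da0281b9d9447c0a0f (k8 c21871 c21870 c19418 c5209 c19356 c20809 c5645 c5211 (k8 c23561 c23616 c20946 c20351 c5571 c5532 c5422 c23626 (k8 c17856 c2305 c19230 c5417 c5420 c5572 c5474 c8435 (k8 c5327 c5326 c5478 c5432 c690 c5435 c2307 c19916 (k8 c5382 c2588 c5316 c2071 c5498 c5565 c23612 c5642 (k8 c1113 c19421 c23594 c5530 c5528 c9733 c5568 c5566 (k8 c5564 c5381 c5380 c5493 c2188 c20358 c20921 c6899 (k8 c10249 c14796 c5669 c3610 c5461 c7833 c5549 c2347 (k8 c2575 c6300 c18444 c3026 c1517 c262 c20779 c11141 (k8 c725 c13569 c5778 c4570 c4591 c1662 c23628 c3005 (k8 c23629 c5468 c5472 c23622 c2683 c5213 c5349 c5604 (k4 c6333 c21822 c7334 c3386 (k2 c5627 c3444 (k1 c5695 k0)))))))))))))) (by decide +kernel)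
def c23631 : PP 9 3 T 0x15000400000000000000000040000000000000000000000000204000000000000041011001044000000000000000004000000000412000010000000000000 := rS 0x1f620fd476d11feb73bf3 (k8 c5588 c19356 c5437 c5318 c20815 c23563 c18069 c511 (k2 c5208 c17933 k0)) (by decide +kernel)
def c23632 : PP 9 3 T 0x200000000000001000000001080000000000000000000000800000000000010000004000800 := rS 0xc26d (k2 c22545 c726 (k1 c19918 k0)) (by decide +kernel)
def c23633 : PP 9 3 T 0x101000000040000000000000000040000000000000000000080000000000000000000000000000000000000000002000000000000000000 := rS 0x7c1b45326c8edf66d2b0dd6ddf2365a8e287c0bdf1c7f845bff340a34268f3ffb49713219168fb3709f5cbe08ff7d9c872d9dda2c7352456ab338edab33ad06d06a791bb3466f11186c04013d8281b9d03ca01e05 (k8 c21870 c21871 c5209 c5432 c19356 c20809 c5645 c690 (k8 c23612 c5642 c20794 c9733 c499 c5316 c2071 c5435 (k8 c2307 c19916 c5211 c23561 c23616 c20946 c20351 c5571 (k8 c5532 c5422 c23626 c17856 c23632 c20815 c23630 c5474 (k8 c8435 c20770 c5453 c19418 c5669 c5539 c5566 c10249 (k8 c19230 c5327 c5326 c5478 c5382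 c2588 c5498 c23594 (k8 c5568 c5564 c5381 c5380 c5588 c17709 c3026 c3006 (k8 c20779 c20927 c13569 c4591 c3610 c2634 c23628 c23629 (k8 c4334 c3005 c5468 c23622 c5213 c5349 c5351 c5604 (k4 c5605 c21822 c23631 c5627 k0)))))))))) (by decide +kernel)
def c23634 : PP 9 3 T 0x1000000040000000000000000040000000000000000000080000000000000000000000000000000000000000000000000000000000000 := rS 0x576fc1b2240db4af7f50cef2de71e77d2e445abbc38beeea34b98370922411fe6e26fa6dcfe01db45c2c7041a923b35a8a70acb4f9c50fb6acebcb7479d0d4f679258299af106fb4e68189c9cde7d47e374033038dc469d5ca6566b7da676507f31df4361d010041e05 (k8 c21870 c21871 c23612 c5642 c20811 c20794 c9704 c19421 (k8 c23594 c5209 c19356 c5211 c5533 c5532 c5530 c5415 (k8 c5412 c9733 c5435 c5432 c5316 c23561 c5569 c5568 (k8 c5566 c5565 c5383 c5382 c5380 c5379 c5498 c20809 (k8 c499 c2071 c5645 c2588 c2307 c690 c19916 c23616 (k8 c5327 c5474 c5479 c20946 c20351 c8435 c5571 c5572 (k8 c5420 c5423 c5417 c5422 c19230 c23626 c17856 c23627 (k8 c23632 c10249 c20815 c23563 c5669 c5461 c5536 c14796 (k8 c3610 c5549 c2347 c5660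 c18444 c23633 c262 c1637 (k8 c5614 c5613 c5425 c5429 c5430 c5612 c5615 c17948 (k8 c23625 c1581 c730 c17955 c20770 c5671 c5453 c1587 (k4 c20769 c1802 c5678 c1185 (k2 c20780 c3229 (k1 c3583 k0)))))))))))))) (by decide +kernel)
def c23635 : PP 9 3 T 0x400000000001000000040000000000000000040000000000000000000000000000000040000000000001000000000000000002000010000000000000 := rS 0x6dc3db32f24cc2764fcefc6e2088650313478e42e9d10a67687f3186c3a020091c52236f8fe3af7709f4769bf01e46e7b0567427a003ca01e05 (k8 c21870 c21871 c5209 c5432 c23561 c5564 c19356 c10368 (k8 c690 c5435 c2307 c5669 c5536 c23563 c5566 c10249 (k8 c23634 c513 c5318 c2946 c9733 c509 c157 c23612 (k8 c5642 c20811 c20794 c19421 c23594 c5211 c5530 c5528 (k8 c5412 c5433 c5317 c5568 c5382 c5380 c6205 c3026 (k8 c3610 c17754 c20878 c1607 c23387 c10409 c262 c5663 (k4 c19428 c3578 c23562 c23564 k0))))))) (by decide +kernel)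
def c23636 : PP 9 3 T 0x14400000000105000000040000000000000000000008000000400000000000040000200000000000020000000000000000000000000000000000000008 := rS 0x77fdd4aed860adb70bb3e06ff25f86911b27c6e82510f (k8 c5029 c5209 c23561 c5569 c5383 c5381 c5237 c5197 (k8 c5391 c5389 c5607 c19938 c5629 c5627 c1115 c20753 (k4 c1664 c7364 c5640 c3112 (k1 c5693 k0)))) (by decide +kernel)
def c23637 : PP 9 3 T 0x1000400000000101000000040000000000000000040000000000000000000000000000000040000000000000000000000000000002000010000000000000 := rS 0xf8368a64d91dbecda56cb0fc947f1885bad4f9bfdc50280c57dea075a9d90973032c2e414f89d2ace188cc76d11cb3533b3574776d591488c4a6f0e915cbe03c8dcf6078d8401b1f9d3d520f30504f40f701004ffb4ceca00a0f (k8 c21871 c21870 c5209 c19356 c5211 c23594 c23612 c5642 (k8 c23634 c23561 c5564 c10368 c20781 c23635 c10333 c5657 (k8 c3949 c293 c13457 c5035 c5432 c690 c5435 c2307 (k8 c5669 c5539 c20747 c20811 c5565 c1113 c9733 c509 (k8 c5558 c20351 c513 c17885 c19230 c5530 c5537 c5317 (k8 c20815 c23563 c5316 c5434 c3587 c1587 c267 c5572 (k8 c511 c5433 c9148 c18420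 c20768 c5678 c4118 c23620 (k8 c1182 c5584 c5414 c3070 c21172 c2633 c3007 c5588 (k8 c8707 c4334 c5528 c7833 c5327 c23636 c5468 c5621 (k8 c23622 c5213 c5349 c5351 c5604 c5605 c21822 c23631 (k1 c5627 k0))))))))))) (by decide +kernel)
def c23638 : PP 9 3 T 0x1000400000000001000000040000000000000000040000000000000000000000000000000040000000000000000000000000000002000010000000000000 := rS 0x30acda804796f38f3be95777751ee1d6a053b212e60f1ecf0a9f576db5f4778ce8e727c6a7572215b9fefa1d129be3a4173a6dcb1f22c6ce295673d462331db4472f366f80f2373d8280ef74ced19759082401a270100427a01488f3a179415c0a0f (k8 c21871 c21870 c21872 c5209 c5433 c19356 c9733 c509 (k8 c23561 c5564 c23612 c5642 c267 c293 c23635 c13457 (k8 c5558 c9148 c5211 c5530 c23634 c5432 c10368 c690 (k8 c5435 c2307 c5669 c5537 c20781 c5317 c20815 c23563 (k8 c5316 c5434 c10333 c3587 c1587 c10436 c5035 c20747 (k8 c3949 c5539 c5536 c5461 c511 c513 c5565 c1113 (k8 c20811 c9704 c23594 c5533 c5528 c5415 c5412 c5569 (k8 c5383 c5379 c5657 c5323 c5327 c5479 c20351 c17885 (k8 c5572 c5423 c19230 c7833 c18420 c20768 c5678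 c4118 (k8 c1182 c23620 c23637 c5614 c5613 c5430 c17948 c23625 (k8 c1581 c730 c17955 c20881 c5671 c23617 c1801 c5348 k0))))))))))) (by decide +kernel)
def c23639 : PP 9 3 T 0x400000000001000000040000000000000000040000000000000000000000000000000040000000000000000000000000000002000010000000000000 := rS 0xf63d520cdf00eda2331c8c4f2373d82b3a13d001e500f (k8 c21871 c5209 c5432 c23561 c5564 c19356 c10368 c690 (k8 c5435 c2307 c5434 c5317 c5316 c20815 c23563 c5669 (k4 c5537 c23635 c10333 c23638 (k1 c18037 k0)))) (by decide +kernel)
def c23640 : PP 9 3 T 0x1000000040000000000000000000000000000001000000000000000000080000000001000000040000004000002000000000000000008 := rS 0x1c0caf1a7d42412f24dc661f0866267d0b8f44e13129bf41f31488f3adf1fca00a6d (k8 c22545 c21870 c5209 c5318 c2946 c19356 c9733 c509 (k8 c5588 c23561 c5565 c1113 c5564 c267 c5436 c5433 (k8 c5566 c5382 c6205 c5535 c726 c2620 c262 c5663 (k4 c512 c10309 c1522 c18416 (k2 c3579 c9140 (k1 c1718 k0)))))) (by decide +kernel)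
def c23641 : PP 9 3 T 0x400000000001000000040000000000000000040000000000000000000000000000000000000000000000000000000000000002000000000000000000 := rS 0x32b6de34fa843c5e49984ed3b1a064fa391f85c7a214c86c3a27129bdee2911904769bf031c0463009fe2a9dda1e46e7b0567427a003ca00a0f (k8 c21871 c21870 c5209 c5432 c23561 c5564 c19356 c10368 (k8 c690 c5435 c2307 c5211 c5412 c5414 c23594 c23612 (k8 c19421 c5642 c23640 c5669 c5536 c23563 c511 c9733 (k8 c509 c23634 c5565 c1113 c267 c20811 c20794 c5530 (k8 c5528 c5436 c5433 c5318 c5317 c5566 c6205 c23639 (k8 c5324 c23387 c10409 c262 c5663 c3578 c1122 c1522 (k4 c18416 c23565 c3579 c5420 k0))))))) (by decide +kernel)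
def c23642 : PP 9 3 T 0x1000000040000000000000000040000000000000000000000000000000000000000000000000000000000000002000000000000000000 := rS 0x1dd9fde66f81a2c7439ecf20a09e800e374ec57699d941fcc60200bdc1e05 (k8 c21870 c21871 c23634 c23612 c5642 c19421 c23594 c5209 (k8 c19356 c5211 c5414 c5412 c5435 c5432 c23561 c5564 (k8 c10368 c2307 c690 c693 c23640 c20815 c5669 c5537 (k4 c23641 c5453 c5493 c20770 k0)))) (by decide +kernel)
def c23643 : PP 9 3 T 0x2800000000000000200000000000000000000000000000000000000000000000000000000000000000000000041000000000000000000000000000000 := rS 0xfff9b8a0691f6a1903133ea3d9e7766fbdaac73db85bf0168b591ad3 (k8 c5496 c5381 c20754 c5459 c2145 c5538 c5460 c5457 (k8 c5535 c5454 c20759 c5495 c5493 c5453 c5568 c5566 (k8 c5382 c5380 c20853 c23390 c21540 c10690 c3610 c5549 (k2 c2574 c5694 k0)))) (by decide +kernel)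
def c23644 : PP 9 3 T 0x2800000000001000000040000000000000000000000000000000000000000000000000000000000001100000040000000000000000000000000000001 := rS 0x3c613c26da219d00e42e23ceca00405 (k8 c21870 c5642 c5209 c19356 c9733 c5433 c5317 c23561 (k4 c6205 c5459 c5536 c23643 (k2 c1577 c23373 (k1 c23566 k0)))) (by decide +kernel)
def c23645 : PP 9 3 T 0x800000000001000000040000000000000000000000000000000000000000000000000000000000001100000002000000000000000000000000000001 := rS 0x1e4d985a2191c85c479d9418c0405 (k8 c21870 c5642 c19421 c5209 c19356 c9733 c5433 c5317 (k4 c6205 c20803 c1577 c2384 (k2 c23373 c23566 k0))) (by decide +kernel)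
def c23646 : PP 9 3 T 0x45001000000000000000200000000000000000000040004000000000000002020000400810000000000000001004000000000000000000000000000000000 := rS 0x4781d61bd01 (k4 c2145 c10298 c5171 c4682 (k2 c5562 c20925 k0)) (by decide +kernel)
def c23647 : PP 9 3 T 0x800000000001000000040000000000000000040000000000000000000000000000010000000000000000000000000001000000000000000000000000 := rS 0x88407f0a597035afc9f89a7a079e7ed0521dc60d9db193ea13decde05e49864fa8f1c8fc2e311eaae22630d89c2625011bdee354b9dd92cdf0c05ac8d69a47ded53c805329dda676507fd003c0a6d (k8 c22545 c21870 c21871 c23561 c23594 c5209 c19356 c5211 (k8 c5412 c5530 c23612 c23645 c5454 c20759 c23618 c5496 (k8 c5381 c20754 c2145 c23644 c5495 c5494 c5493 c5452 (k8 c5450 c23634 c5565 c5642 c1113 c5564 c267 c20794 (k8 c19421 c9727 c20861 c5436 c5434 c5433 c5318 c5317 (k8 c5568 c5566 c6205 c262 c5663 c19294 c19428 c22773 (k8 c1122 c1522 c10245 c5323 c2480 c2620 c798 c5645 (k8 c19198 c20781 c23406 c5657 c19607 c1215 c23646 c5548 (k4 c5550 c1326 c1311 c19658 (k2 c3579 c2342 (k1 c458 k0))))))))))) (by decide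 +kernel)
def c23648 : PP 9 3 T 0x800000000001000000040000000000000000040000000000000000000000000000010000000000000000000000000000000000000000000000000000 := rS 0x1bff37aad03ef30611c9629058eab07a65981228189a3c0e3111acc4e1312808def7248d59fef6ab591ad3d0784fe7900a653bb4ceca01e05 (k8 c21870 c21871 c5209 c19356 c5211 c5412 c5530 c23612 (k8 c23645 c23594 c23644 c23561 c5496 c5381 c20754 c5454 (k8 c20759 c5453 c5450 c23642 c23634 c5565 c5642 c1113 (k8 c5564 c267 c5532 c9733 c5434 c5432 c5568 c5382 (k8 c5380 c23618 c23647 c1755 c10425 c22786 c17811 c690 (k8 c5339 c5342 c5562 c17964 c449 c1112 c23484 c20810 (k2 c17931 c2515 (k1 c16068 k0)))))))) (by decide +kernel)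
def c23649 : PP 9 3 T 0x1000000000000000000200000000000000000000040000000000000000000050000000000000000000000000000048000000000000004010000000000048 := rS 0xe9e4089dd60fa57 (k8 c21872 c5566 c22786 c20946 c17896 c5657 c1684 c448 k0) (by decide +kernel)
def c23650 : PP 9 3 T 0x800000000001000000040000000000000000040000000000000000000000000000000000000000000000000000000000000000000000000000000000 := rS 0x3c8153b06bc18c613dbd7dad03cf846ba01c8fc0e314ea67699d941fc360200bdc1e05 (k8 c21870 c21871 c23634 c23612 c5642 c20794 c23594 c5209 (k8 c19356 c5211 c5530 c5412 c5434 c5432 c5318 c5317 (k8 c23561 c5450 c23644 c23645 c23648 c5501 c1925 c23649 (k8 c10425 c5669 c19294 c2480 c5323 c5645 c5657 c20781 k0)))) (by decide +kernel)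
def c23651 : PP 9 3 T 0x1000000040000000000000000040000000000000000000000000000020000000000000000000004000000000000000000000000000000 := rS 0x1e40ad9034bc936318472ab8898c360200f7fc2794ba77699d9403c0a6d (k8 c22545 c21870 c21871 c5209 c19356 c5211 c5412 c1708 (k8 c20803 c5459 c23650 c23612 c5642 c20794 c19421 c9727 (k8 c20861 c5317 c10425 c5669 c262 c5663 c2480 c17795 (k2 c5645 c19830 (k1 c20781 k0))))) (by decide +kernel)
def c23652 : PP 9 3 T 0x1000000040000000000000000040000000000000000000000000000020000000000000000000000000000000000000000000000000000 := rS 0xf17e2c1fcd469b7d96b46b87cc13b2392c82291a1dc165fac1e9ebed40a34fa3f038c446b3da676507f318744e1312808026fd03dc9205 (k8 c21870 c23642 c23634 c23561 c5565 c23612 c5642 c1113 (k8 c5564 c267 c20811 c19421 c23594 c5209 c19356 c5211 (k8 c5532 c9733 c5434 c5432 c5318 c5566 c5381 c5380 (k8 c5501 c1925 c23651 c22786 c22773 c690 c22559 c23649 (k8 c5339 c5340 c5342 c5562 c20946 c5663 c1112 c1763 (k8 c23484 c1755 c2515 c2136 c20751 c1711 c2573 c2572 (k2 c1330 c20237 k0))))))) (by decide +kernel)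
def c23653 : PP 9 3 T 0x1000000040000000000000000040000000000000000000000000000000000000000000000000008000000000000000000000000000000 := rS 0x35159e258ecd5fef783f7d8f3dbbd52e3a5a0303e60044ec8e4b1490cee0b2fd611a7d1f81c46ab8888552b3da676507f3189c262501004dfa07b927bed10283cae6d (k8 c22545 c21872 c21871 c21870 c23652 c23650 c23642 c23634 (k8 c23561 c5565 c23612 c5642 c1113 c5564 c267 c19421 (k8 c23594 c5209 c19356 c5211 c5532 c5531 c5528 c9727 (k8 c20861 c9733 c5432 c5318 c5566 c5381 c22786 c22773 (k8 c690 c22559 c5561 c5339 c5342 c5562 c20946 c17896 (k8 c5663 c1112 c5645 c23484 c1684 c20768 c20810 c5422 (k8 c449 c5657 c5542 c20842 c17892 c1248 c5401 c1330 (k4 c5196 c5683 c20727 c2891 k0)))))))) (by decide +kernel)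
def c23654 : PP 9 3 T 0x2002000000000000000000000000000000000000000000000200000000000000000000000000000000000000000001000002000000000000000015000000 := rS 0xed3b (k2 c6290 c23390 (k1 c10409 k0)) (by decide +kernel)
def c23655 : PP 9 3 T 0x1000000000000000000000200040000000000000000000000000140000400000400000508000000000000000001401540005440000008 := rS 0x2876eb4f192c8229 (k8 c5339 c5340 c5342 c17960 c23484 c5422 c1199 c11678 k0) (by decide +kernel)
def c23656 : PP 9 3 T 0x1000000000000025000200000000000000000100040004000000000000000000000000000100000000000040000040400000000001400000015040000000 := rS 0x3495beedb7cd027d (k8 c5566 c5380 c17931 c5651 c5171 c5573 c23464 c13297 k0) (by decide +kernel)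
def c23657 : PP 9 3 T 0x1000000040000000000000000040004000000000000000002000000000000000000000000000000000002000000000000000000000400 := rS 0xf1fb880a1db8a193b33fa5fda79aca48be470fa6fc03b6fa3dc2c73d9f5968124894de2709e816699da08f3a3d1b8e650770e864360200814da0f (k8 c21871 c22545 c21870 c23612 c5642 c20794 c6205 c20811 (k8 c10409 c5209 c5317 c5435 c5436 c19356 c9733 c5211 (k8 c5530 c5532 c23561 c5564 c267 c5565 c1113 c23642 (k8 c5380 c1755 c5566 c23653 c726 c10249 c5568 c14796 (k8 c23563 c10425 c5536 c1112 c5779 c62 c18018 c23655 (k8 c1577 c23654 c20768 c23594 c5401 c1177 c23656 c5417 (k4 c1195 c536 c5229 c5462 (k1 c19404 k0)))))))) (by decide +kernel)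
def c23658 : PP 9 3 T 0x1000000040000000000000000040004000000000000000000000000000000000000000000000000000002000000000000000000000400 := rS 0x1aad7699153ca1146dd5a95d93c63af23ba34627f7bfb4f21d0dbd419594917c32470fa6fc03b6fa3dc2c73d9f5968124894de2709e80040159a676823ce8f46e3994014da0f (k8 c21871 c22545 c21870 c5209 c5317 c5435 c5436 c19356 (k8 c9733 c5211 c5530 c5532 c23612 c5642 c23561 c5564 (k8 c267 c5565 c1113 c23642 c5380 c1755 c5566 c23653 (k8 c726 c10249 c5568 c14796 c23563 c10425 c5536 c1112 (k8 c5779 c6205 c62 c18018 c23655 c5645 c20810 c20794 (k8 c20811 c1577 c23654 c23634 c23594 c5434 c5381 c10409 (k8 c5657 c17702 c23657 c22131 c10191 c5490 c19230 c21947 (k4 c1195 c537 c456 c14519 (k2 c1605 c18677 (k1 c20751 k0)))))))))) (by decide +kernel)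
def c23659 : PP 9 3 T 0x1000000040000000000000000040000000000000000000000000000000000000000000000000000000002000000000000000000000400 := rS 0x1fbb679bc675597aa4818470f8e46e3d11aae231510aa5662709894def72497d9681709f5be8fd00ed8e9bf6f80f6794ced33a1d0d80803280c83c0a6d (k8 c22545 c21870 c21871 c6205 c5209 c23612 c5642 c20794 (k8 c20811 c19356 c5211 c5530 c1577 c23653 c10425 c23654 (k8 c5536 c726 c23563 c23561 c5568 c14796 c5566 c10249 (k8 c5380 c1755 c62 c23642 c23634 c5565 c1113 c5564 (k8 c267 c5532 c5531 c5528 c5414 c9727 c20861 c9733 (k8 c5436 c5435 c5317 c1112 c5779 c5645 c18018 c20810 (k4 c23655 c23658 c5323 c5325 (k2 c20351 c22631 (k1 c9945 k0))))))))) (by decide +kernel)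
def c23660 : PP 9 3 T 0x1000000040000000000000000040000000000000000000000000000000000000000000000000000000002000000000000000000000000 := rS 0x1da775823fcdc49125829bee1f01e58e1940c4cfa8fd00dd33b4ceca0fe1b0e80802f7249ecda05 (k8 c21870 c22545 c23653 c23642 c23634 c23612 c5642 c20811 (k8 c20794 c23594 c5209 c19356 c5211 c5530 c5435 c23561 (k8 c5568 c5566 c5382 c5380 c6205 c726 c1577 c10425 (k8 c10249 c14796 c23659 c2588 c695 c3610 c5549 c2347 (k4 c5660 c20946 c23387 c10409 k0))))) (by decide +kernel)
def c23661 : PP 9 3 T 0x400000000021000000040000000000000200000000000000000000000000000000000000000000010000000000000001800001000000000000000808 := rS 0x1bfe14d8ebe66b70ad03ecaf1edc8e411488f3a9d8a88532b31384c4a6f49a7cfba03c8de5005 (k8 c21870 c5209 c5435 c2307 c23561 c5566 c1522 c262 (k8 c5565 c1113 c5564 c267 c5532 c5530 c5528 c5414 (k8 c5412 c19356 c9733 c5339 c5340 c5562 c19210 c18416 (k8 c18420 c23565 c18060 c1718 c2305 c17931 c18034 c1119 (k2 c5456 c2514 (k1 c18204 k0)))))) (by decide +kernel)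
def c23662 : PP 9 3 T 0x1000000040000000000000000040000000000000000000000000000000000000000000000000000000000000000400000000000000800 := rS 0x37d8ed5201a852cb38ecf6c359d3d5fded80c0dc6b5f92051a6f47acc4e133da7cfaf33c8dd0ef748b86b2a13f978c661ef80803b4ce8f6504b89e809205 (k8 c21870 c23642 c23561 c5382 c2588 c5209 c5436 c19356 (k8 c5211 c23612 c5642 c23650 c23660 c19421 c5663 c23594 (k8 c1122 c23661 c6188 c695 c23634 c693 c5435 c2307 (k8 c20781 c5566 c1522 c23653 c5564 c267 c5532 c5568 (k8 c5565 c5381 c5380 c5660 c5548 c5549 c5550 c5592 (k8 c20903 c20819 c2341 c5657 c5324 c20351 c19428 c5571 (k8 c5420 c5417 c17856 c18420 c1656 c23578 c14796 c3610 k0))))))) (by decide +kernel)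
def c23663 : PP 9 3 T 0x80001400000000000000200000000000000000000000000000000000000010000000040014000000000000001004000000000000000000000000000000000 := rS 0x331fded81a36268f (k8 c5568 c5382 c5381 c5550 c20903 c20819 c5688 c2506 k0) (by decide +kernel)
def c23664 : PP 9 3 T 0x2000000000000040000210000000000000000000000000000000100000000000000000000000000010000000000000000000000005900000000000000000 := rS 0x2040f (k2 c21871 c20928 (k1 c2350 k0)) (by decide +kernel)
def c23665 : PP 9 3 T 0x1000000040000000000000000040000000000000000000000000040000000000000000000000000000000000000000000000000000800 := rS 0x11d228d15bec78cef6e2820f8be6cff0b19021b1384c4a6f689ed269f3e834f2e1aca84fe5e31987be0200ed33a3d25b8c6f28f7c048c877bc4d224946a3f4005 (k8 c21870 c23561 c5568 c5381 c23642 c695 c5382 c23634 (k8 c693 c23662 c2791 c20818 c5209 c5435 c2347 c2588 (k8 c5436 c19356 c5211 c23612 c5642 c23650 c23660 c19421 (k8 c5663 c23594 c1122 c23661 c6188 c2307 c34 c5566 (k8 c1522 c262 c23653 c23652 c5565 c1113 c5564 c267 (k8 c20794 c5380 c3610 c5535 c20739 c23663 c9140 c5462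 (k8 c18620 c5417 c20351 c23573 c5171 c9614 c19920 c456 (k2 c552 c23664 k0)))))))) (by decide +kernel)
def c23666 : PP 9 3 T 0x1000000040000000000000000040000000000000000004000000000000000000000000000000000000000000000000000000000000800 := rS 0xa36cf0d98d638d5814ec3759509fcbc6330f7c0401da67651ef809190ef789a44928d47e81bc05 (k8 c21870 c23665 c23561 c5568 c5381 c23642 c695 c5382 (k8 c23634 c693 c23662 c2791 c20818 c5209 c19356 c5211 (k8 c23612 c5642 c23650 c23660 c19421 c5663 c23594 c1122 (k8 c23661 c20794 c20263 c20762 c3002 c2350 c553 c19428 (k4 c19920 c5229 c551 c5417 k0))))) (by decide +kernel)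
def c23667 : PP 9 3 T 0x81000000040000000000000000040000000000000000000000000000000000000000000000000000000000000000000000000000000800 := rS 0xd1341e201ab6629659c4deb31384dee934aa7cfa0d48d65427f2f18cc2490100768b56a333dbe1efb459ec66f23f407bceca1fc05 (k8 c21870 c23666 c5209 c19356 c23653 c23561 c5568 c23665 (k8 c14796 c20739 c23652 c23650 c5538 c5544 c5688 c2507 (k8 c4669 c5211 c23612 c5642 c23642 c23660 c19421 c5663 (k8 c23594 c1122 c23661 c695 c34 c5566 c1522 c20765 (k8 c262 c23634 c5564 c267 c5532 c5565 c5571 c5420 (k8 c5417 c19230 c17856 c18420 c2305 c2482 c1656 c23576 k0)))))) (by decide +kernel)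
def c23668 : PP 9 3 T 0x1000000040000000000000000040000000000000000000000000000000000000000000000000000000000000000000000000000000800 := rS 0x97653c677b76a333dafe67b1bc2deac8351e1759ed33b280e89c0413d0127bed13da84bc6131804fe05 (k8 c21870 c23594 c23612 c19421 c23660 c5663 c1122 c23653 (k8 c23652 c23650 c23642 c23561 c5564 c5642 c267 c20811 (k8 c5209 c19356 c5211 c5532 c5433 c5568 c34 c23661 (k8 c23665 c5538 c14796 c20739 c23666 c5544 c5688 c2507 (k4 c23667 c20351 c23573 c14125 (k2 c19357 c1660 k0)))))) (by decide +kernel)
def c23669 : PP 9 3 T 0x1000000040000000000000000040000000000000000000000000000000000000000000000000000000000000000000000000000000000 := rS 0x350ec181f0597926613d808c6014c8853bb411e742e39940641e05 (k8 c21870 c21871 c6205 c5209 c5317 c5433 c19356 c9733 (k8 c5211 c5412 c5528 c5530 c23612 c19421 c5642 c23653 (k8 c23660 c262 c5663 c23668 c1112 c5645 c290 c18034 (k1 c15887 k0)))) (by decide +kernel)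
def c23670 : PP 9 3 T 0x2000200000000000000000000000004000000100000000001000000200000000000000000000000010000400000000000000000400000 := rS 0x5807194963f9cd4263 (k8 c5395 c5398 c5379 c20749 c19360 c19981 c19357 c1661 (k1 c2177 k0)) (by decide +kernel)
def c23671 : PP 9 3 T 0x10040000000000000000000000000000000000000000000000002040000000000000000004000000000000000000000000000000 := rS 0xf3e1 (k2 c5537 c20785 (k1 c5669 k0)) (by decide +kernel)
def c23672 : PP 9 3 T 0x2000000000000002000000000000000000000000000004000000000000000011000000011000000005001000000000000000000000000545000000400000 := rS 0xea58689364a6d2a99 (k8 c5447 c5446 c5397 c5396 c5444 c18037 c18006 c331 (k1 c19357 k0)) (by decide +kernel)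
def c23673 : PP 9 3 T 0x42000200000000000000000000040000000200000000000050000140011000000000000000000000000000000001000400000080000004 := rS 0xd2f7ab4ec670d07766f2f6b54e3e39dc74824308d611a63649852a331c8c46eab88bc53a2154ed33a5f0005c0a6d (k8 c22545 c21870 c5433 c5642 c1054 c19356 c5211 c5531 (k8 c5528 c5412 c19427 c9727 c20861 c5435 c5434 c5317 (k8 c5316 c5446 c5445 c5396 c5395 c5381 c20261 c5558 (k8 c5561 c5340 c5341 c20946 c17960 c667 c23670 c23672 (k8 c5657 c19821 c333 c2533 c664 c22977 c1908 c19392 (k2 c10131 c20105 k0)))))) (by decide +kernel)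
def c23674 : PP 9 3 T 0x40000000000000000040000000200000000000000000000000000000000000000000004000000000001400000000000002000 := rS 0x1f3acad597b666879bee11db44327d47e8126a14da642e37118a407b04e887699d7bbd58e39 (k8 c5317 c2480 c20810 c20809 c19356 c5211 c5528 c5412 (k8 c23669 c22595 c9694 c9733 c5435 c5433 c5447 c5397 (k8 c5398 c5444 c23561 c5568 c5566 c6205 c20815 c290 (k8 c10249 c14796 c3578 c23671 c23673 c5420 c5422 c19210 (k2 c17766 c6300 k0))))) (by decide +kernel)
def c23675 : PP 9 3 T 0x40000000000000000000000000000000000000100000000000000000000000000000000000000000000000000000000000000000001400000000080000002 := rS 0x169b6 (k2 c20261 c6300 (k1 c5422 k0)) (by decide +kernel)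
def c23676 : PP 9 3 T 0x400000000200000000040040000000000000040000000200000000501000010000002000000080000000000000010000000000200000000020000000 := rS 0x6db67e3e572609bae784fd34b85b3e45777d53864e72737e37409351a95369955c445e03d827572a95bed33a6d (k8 c22545 c19356 c5211 c5533 c5531 c5415 c5412 c23669 (k8 c22595 c19426 c9727 c20861 c5447 c5397 c5399 c5449 (k8 c5444 c23561 c5569 c5565 c5383 c5379 c6205 c5428 (k8 c5427 c5430 c5615 c17864 c17742 c17948 c5222 c5556 (k8 c5633 c2233 c3624 c3621 c17955 c5626 c3338 c3382 (k1 c5690 k0)))))) (by decide +kernel)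
def c23677 : PP 9 3 T 0x11000000000100001010040000000000000000000000000000000000000000000000000000000000000000000000000800000000000000000000000002 := rS 0xbee06eebb15eafe966 (k8 c5213 c5189 c5600 c5601 c5554 c669 c1062 c1368 (k1 c5667 k0)) (by decide +kernel)
def c23678 : PP 9 3 T 0x2011000000000104000010040400000000000000000004000000000000080000000080000000000000000000000000000800001400000000000000010002 := rS 0x5ee130bf859f137fd246d1b27c6c1fe7a0 (k8 c23561 c20903 c5503 c5569 c5383 c5381 c5269 c23677 (k8 c5389 c5610 c17797 c5230 c5629 c5514 c21207 c20743 k0)) (by decide +kernel)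
def c23679 : PP 9 3 T 0x6001000000000144000000040400000000000000000004000200000000080000000080000000000000000000000000400800001400010010000000010002 := rS 0x6931d676dd1edf7ff87ddb3796eea7c99d (k8 c19356 c23678 c5469 c5471 c5619 c5621 c21101 c5202 (k8 c5511 c5510 c5624 c5627 c21822 c20744 c5213 c5608 k0)) (by decide +kernel)
def c23680 : PP 9 3 T 0x20000000000000100000000000000000400000040000000000000000000000000000000001054000541504000000000000000100000400500001400000 := rS 0x9e4dfa8a9ccc3 (k4 c5468 c17955 c3580 c5633 (k2 c3218 c3407 (k1 c5661 k0))) (by decide +kernel)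
def c23681 : PP 9 3 T 0x140015000000000200000010040000000000000000000000000000000000000000000000000000000000000000000000010000000000000000000000000000 := rS 0x185d27d8e72737e37417d (k8 c5427 c23561 c5569 c5565 c5383 c5379 c5207 c5189 (k2 c5638 c17948 k0)) (by decide +kernel)
def c23682 : PP 9 3 T 0x40000000000000000040000000200000000000000000000000000000000000000000000000000000000000400000000000400 := rS 0x6db67e2e4c139e13f4f2b752cca139448b6716aed4fb881359a6ae74fbdbcd570f8ce3b72992c8243089544b586677fe7057ec1e02d1f60d5e7b3c3c74398b3516a761e04865028d3ea4d469f52a84c6c94d9852a99198fd8207188dc7bad118a45ef14eae442b7da3ddeac71c97c0003d805dc7e13b9e818490991f3a8fd015c1e05 (k8 c21870 c21871 c21872 c23561 c5568 c19356 c5779 c5564 (k8 c10368 c5645 c23674 c22559 c5457 c17695 c5433 c23669 (k8 c22595 c5642 c1054 c5317 c2480 c20810 c20809 c5211 (k8 c5533 c5528 c5415 c5412 c19427 c19426 c9694 c9733 (k8 c5437 c5436 c5435 c5434 c5432 c5319 c5318 c5316 (k8 c5447 c5446 c5445 c5397 c5396 c5395 c5398 c5399 (k8 c5448 c5449 c5444 c5566 c5381 c5380 c6205 c1684 (k8 c3578 c20881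 c19549 c2361 c4759 c22977 c2159 c4564 (k8 c5486 c333 c331 c5657 c5501 c5502 c5503 c5542 (k8 c5545 c20903 c17700 c18037 c23675 c5559 c5343 c5558 (k8 c5561 c5340 c5342 c5563 c19210 c667 c17898 c12655 (k8 c15288 c3590 c23593 c6044 c18785 c2940 c5689 c2191 (k8 c23679 c5428 c5430 c5612 c17864 c23676 c2649 c2986 (k8 c3579 c1246 c1817 c23680 c23681 c5556 c5633 c19800 (k4 c3621 c5626 c3338 c3382 (k1 c5690 k0)))))))))))))))) (by decide +kernel)
def c23683 : PP 9 3 T 0x2010000000000222000000000000000000000000000000000000000001400000002000000000000004000000000000000000000000000000000000000000 := rS 0x3352edc6cfc5b782efc15faa564a6d2a994eaa54f87 (k8 c5429 c5428 c5531 c5412 c5447 c5446 c5397 c5396 (k8 c5399 c5542 c5545 c17700 c19800 c3382 c5626 c3338 (k4 c5690 c1817 c2233 c18006 k0))) (by decide +kernel)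
def c23684 : PP 9 3 T 0x1000000000000000000000000000000000000000040000000000000000000051000000000000000000000000000000000080000000000000000100000002 := rS 0x276f32d06f6605 (k4 c21870 c5487 c1903 c663 (k2 c23227 c5474 (k1 c5657 k0))) (by decide +kernel)
def c23685 : PP 9 3 T 0x200011000000000202000200000000000000000000040000000200000000000051010000004000000000000000000000400000000001400000000000000002 := rS 0x7be7b6ac96dfa879d331e61b68ecfbe9633fb5c90773c2546a531b2536614aa6557114eae442a95bed33a5f0ba9d766d (k8 c22545 c5430 c5428 c5433 c1054 c19356 c5211 c5533 (k8 c5531 c5528 c5415 c5412 c9727 c20861 c5447 c5446 (k8 c5445 c5397 c5396 c5395 c5399 c5449 c5556 c5633 (k8 c5634 c3621 c23683 c23684 c20791 c5452 c5404 c9368 (k8 c1073 c23227 c5688 c5657 c19804 c2504 c5474 c20946 (k4 c20351 c22311 c20862 c23675 k0)))))) (by decide +kernel)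
def c23686 : PP 9 3 T 0x10000000000200000000040000000000000000040000000200000000000000010000000000000000000000000000000000000001400000000000002000 := rS 0xe426de31381d4e3f49f5d028cc6611cb073af17bbd4be000bf859e773d5dd4f7db3a4d4a191780f6005 (k8 c21870 c23669 c22595 c19426 c6205 c5399 c5444 c17864 (k8 c5427 c5428 c5613 c23674 c22559 c20767 c5457 c5433 (k8 c5642 c1054 c20810 c20809 c19427 c19356 c5319 c5317 (k8 c5445 c5395 c5449 c23561 c23685 c5189 c5608 c5388 (k4 c5607 c5610 c3600 c2369 (k2 c894 c6186 k0)))))) (by decide +kernel)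
def c23687 : PP 9 3 T 0x200000000040000000000000000040000000200000000000000000000000000000000000000000000000000000001400800000000002000 := rS 0x27937ea2a28b9987e4b38b576a70ca4d46a54da658217d68bc07b04eae56fb4ceba4107a (k8 c23674 c289 c4337 c19356 c5211 c5533 c5415 c5412 (k8 c23669 c22595 c19426 c5437 c5433 c5319 c5447 c5397 (k8 c5399 c5449 c5444 c6205 c5428 c5430 c5612 c17864 (k8 c23686 c5468 c17955 c608 c3580 c5633 c3217 c3407 (k1 c5661 k0))))) (by decide +kernel)
def c23688 : PP 9 3 T 0x100000000000000100000000000000000000400000040000000000000000000000000000000000000000000000000000000000000100000000000000002000 := rS 0x4d27e2643a4 (k4 c5213 c5606 c5610 c295 (k2 c2369 c5661 k0)) (by decide +kernel)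
def c23689 : PP 9 3 T 0x20000000000002002000000001004000000000000000000000000000000000000000000000000000000000000000000000400000000000000000000000 := rS 0x17dc7a8d4a6330ea54f79 (k8 c5619 c5470 c5469 c5445 c5395 c5399 c5449 c5608 (k2 c5387 c3600 k0)) (by decide +kernel)
def c23690 : PP 9 3 T 0x1001000000000000000010000000000000800000040000000000000001400051001000004100000000000010000000400005000040000000000000400002 := rS 0x51a75057986da3b3efa58cf1110ed0bfaf (k8 c5603 c1054 c5211 c5528 c9727 c23684 c20791 c5452 (k8 c5404 c9368 c1073 c23227 c7552 c5657 c18009 c5327 k0)) (by decide +kernel)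
def c23691 : PP 9 3 T 0x1000000000000000010000004000000800000040000000000000001400050001000004100000000000010000000400005000140000000000000400004 := rS 0xe51a770579fb1e200b7ebc9a05 (k8 c21870 c5604 c5603 c5349 c5642 c19427 c23690 c5540 (k4 c5545 c17824 c18009 c22977 (k1 c338 k0))) (by decide +kernel)
def c23692 : PP 9 3 T 0x100021000000000102000010000400000000000000040000000000000000000000000000004000000000000000000000400000000100000000000000402004 := rS 0x274260f88bde0ef9a5c0ddc57abb3444c6c930a55eef52f801ca05 (k8 c21870 c5622 c5642 c1054 c20810 c20809 c5446 c5445 (k8 c5396 c5395 c9727 c23688 c5600 c5601 c669 c1062 (k8 c23689 c5667 c20797 c914 c5676 c20746 c20786 c23691 (k1 c296 k0)))) (by decide +kernel)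
def c23693 : PP 9 3 T 0x20000000000102000010000000000000000000040000000000000000000000000000000000000000000000000008400000000000000800000000402004 := rS 0x73aefe98b28ea586a34da653ab95bed3c2cf (k8 c20767 c5457 c5211 c5533 c5415 c5412 c5447 c5397 (k8 c5449 c5468 c5469 c608 c1001 c23692 c5554 c5633 (k1 c17955 k0))) (by decide +kernel)
def c23694 : PP 9 3 T 0x1001000000000000000000040000000000000000040000000200000000000050000400004040000000000000000000400000000001400000000000000000 := rS 0xe148ad59671f907b6d592dbf50f3a663cc36d1d9f7d2c67d018d929b30a5557117888553b4ce97c0003d805cda05 (k8 c21870 c22545 c5433 c23669 c22595 c5642 c1054 c19356 (k8 c5211 c5531 c5528 c19427 c9727 c20861 c5446 c5445 (k8 c5397 c5396 c5395 c23561 c23684 c20791 c5452 c5404 (k8 c9368 c1073 c23227 c5688 c5657 c19804 c2504 c5474 (k8 c20946 c20351 c20862 c23675 c5571 c5420 c5422 c5589 (k2 c5591 c19446 k0)))))) (by decide +kernel)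
def c23695 : PP 9 3 T 0x10000000000100001000044000010000000000000000000000000000000000000000000000000000000000000000000000000000000000000000000200 := rS 0x30f5166 (k4 c5213 c5671 c5348 c1801 k0) (by decide +kernel)
def c23696 : PP 9 3 T 0x202010000000000100000000040000000000000000000000000000000000000000000000000000000000000000000008000000000000000000000000000200 := rS 0x189bfe931f7973dee138b (k8 c5553 c5556 c5631 c5633 c893 c1692 c23695 c5389 (k2 c5610 c20743 k0)) (by decide +kernel)
def c23697 : PP 9 3 T 0x100000000000000100000000000000008000000000040000000000000000000000000000000000000000000000000000000000000000000800000000002002 := rS 0xb3947542c (k4 c670 c669 c3703 c5600 (k1 c23688 k0)) (by decide +kernel)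
def c23698 : PP 9 3 T 0x100000000000000100010000004001104000400000040000000000000000000000000000000001000000141000000008000005400010000900000000002000 := rS 0xa7bcb99ca50 (k4 c23688 c6186 c609 c894 (k2 c1728 c3600 k0)) (by decide +kernel)
def c23699 : PP 9 3 T 0x2200000000000000800200000000000000000000000000000000000000000000000000000000000000000000000000000000000000 := rS 0x44aa53 (k4 c5605 c5343 c5558 c17797 k0) (by decide +kernel)
def c23700 : PP 9 3 T 0x40000000000000000040000000200000000000000000000000000000000000000000000000000000000000000000000000400 := rS 0xf5667766bb9371381d4df71fa4fafcfd9e5dc820747771b3fc27a2fc7d8ef57bc553a00061248fb401e742ec11c84cde8fd028d4a6330ec00a0f (k8 c21871 c21870 c23669 c5445 c5395 c5399 c5449 c23561 (k8 c5568 c5565 c5564 c5317 c5319 c5433 c19356 c22595 (k8 c5211 c5779 c10368 c5645 c5642 c5412 c5414 c20809 (k8 c20810 c2480 c9712 c1054 c23674 c5457 c20767 c17695 (k8 c22559 c23682 c289 c23687 c23693 c23694 c20903 c23696 (k8 c5189 c5608 c5387 c5388 c5607 c5610 c2369 c23697 (k4 c23698 c19938 c23699 c22872 (k1 c23675 k0))))))))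 (by decide +kernel)
def c23701 : PP 9 3 T 0x40002000000000020002200000000000000800000040000000100400000000050000000000100000004000510000000000000000000000000000000000002 := rS 0xcded569c55eb1db7bab33b39a34de9d8a88552f1 (k8 c9696 c5531 c5528 c5414 c5412 c5565 c5381 c5379 (k8 c19938 c23699 c21607 c20261 c5506 c5584 c5571 c5573 (k2 c17711 c20793 (k1 c23684 k0)))) (by decide +kernel)
def c23702 : PP 9 3 T 0x140000000000000000002200000000004000400100040000000000000000000000000000000000000000000000000000000000000000000000000000000002 := rS 0xbfc2af4e3f6db1ce4e6f (k8 c5565 c5383 c5379 c20261 c5174 c5571 c5575 c5423 (k2 c5596 c17957 k0)) (by decide +kernel)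
def c23703 : PP 9 3 T 0x101000000000000000000000000001504000400000040004000000000000000000000000000000000000000000000000000000000000000000080000002002 := rS 0x191c1e1c3bf07919deef510ed33af1 (k8 c9696 c5522 c5211 c5528 c20810 c20809 c23684 c5657 (k4 c5172 c333 c5512 c5626 (k2 c3196 c20790 k0))) (by decide +kernel)
def c23704 : PP 9 3 T 0x140012000000000102000200000001104000000000040000000100000000000000000000000000000000000000000000000000000000000000000000002002 := rS 0x423e102efbfe0287f62463517fbe117b1938afe7653258444b58150b4a16739a36272737a3d929b4aa65eef555c457221da6763e2f92dff486d (k8 c22545 c5667 c5389 c5391 c9707 c19418 c5522 c5211 (k8 c5528 c5415 c9727 c20861 c20810 c20809 c5447 c5446 (k8 c5397 c5396 c5568 c5565 c5383 c5382 c5381 c5379 (k8 c23701 c23688 c362 c5652 c23702 c5559 c5558 c5342 (k8 c5563 c20946 c1105 c667 c2637 c9409 c17957 c5638 (k8 c3452 c5697 c3129 c23703 c5499 c5502 c5544 c17700 (k4 c20762 c5167 c2695 c5514 k0))))))) (by decide +kernel)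
def c23705 : PP 9 3 T 0x100012000000000102000200000001104000000000040000000100000000000000000000000000000000000000000000000000000000000000000000002002 := rS 0x1e280acd5679d846b1eddba456bf2bfe92231510acf699d (k8 c5522 c5211 c5532 c5528 c5414 c9727 c5667 c5389 (k8 c23704 c5548 c5589 c7694 c20903 c20184 c5558 c20946 (k4 c23699 c15768 c23703 c23688 (k2 c1058 c2650 k0)))) (by decide +kernel)
def c23706 : PP 9 3 T 0x100000000000002000000000000000000000000000000000000000000000000000000000000000000000000000000000000000000000002 := rS 0x59855a5 (k4 c5607 c1062 c5213 c5601 k0) (by decide +kernel)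
def c23707 : PP 9 3 T 0x100000000000000100000000000000008000000000040000000000000000000000000000000000000000000000000000000000000000000000000000002002 := rS 0x59ca3aa16087699d (k8 c5522 c5211 c5528 c670 c669 c362 c5600 c23688 k0) (by decide +kernel)
def c23708 : PP 9 3 T 0x80002000000000002000000000000000000000000000000000104040000000000000000000000000000000000000000000000000551400000000000000002 := rS 0x560a9b7 (k4 c7694 c17995 c20184 c5343 k0) (by decide +kernel)
def c23709 : PP 9 3 T 0x2000000000000000000040200010000800000000000000100000000000000000000000000000000000000000000000000000040000000000000002040 := rS 0xe860ea46e08739475a57 (k8 c21872 c5602 c5350 c5461 c5643 c2364 c17686 c278 (k2 c17937 c2413 k0)) (by decide +kernel)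
def c23710 : PP 9 3 T 0x800000040004000000000001400050000004000000000000000000000000000000000040000108000000000000 := rS 0x104f651de7af (k4 c5603 c387 c392 c5657 (k2 c18009 c5545 k0)) (by decide +kernel)
def c23711 : PP 9 3 T 0x800000040004000100000001400050000004001100000005001510000000000001000040000100000100000082 := rS 0x3d897330cde235 (k4 c20806 c9696 c23710 c23188 (k2 c20460 c23684 (k1 c18006 k0))) (by decide +kernel)
def c23712 : PP 9 3 T 0x100010000000000100000000040000000000000000040000000100000000000000000000000000000000000000000000000000000000000000000000002002 := rS 0xb5256dab33a12b6f518f2f81be71b84c1f118b2794f5b2328936f779b30af4b7cbbe04522f0198d929b30a5533b07bbd48e8f2484f40ab88a7442a95bed072cdf06740a6d (k8 c22545 c21870 c5522 c5215 c5537 c5534 c5211 c5533 (k8 c5531 c5528 c5412 c9727 c20861 c23561 c5564 c293 (k8 c5568 c2367 c20810 c20809 c23669 c5447 c5446 c5445 (k8 c5397 c5396 c5395 c28 c9707 c9694 c23706 c23707 (k8 c23705 c5387 c19422 c19423 c814 c914 c6191 c5350 (k8 c5351 c5602 c5605 c296 c2655 c5676 c20746 c20786 (k8 c2415 c23708 c23709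 c1451 c1458 c5671 c20769 c15046 (k4 c23711 c20946 c20351 c5660 (k2 c5422 c19709 k0))))))))) (by decide +kernel)
def c23713 : PP 9 3 T 0x200000000800000000000000000000000000000000000000000014000000000000000000000000000000000000540000008 := rS 0x59775d93efa2f288ac9a0f (k8 c21871 c5604 c5601 c5350 c5347 c9704 c3253 c2411 (k2 c3280 c3585 (k1 c270 k0))) (by decide +kernel)
def c23714 : PP 9 3 T 0x2000040000000000800000040000000100400000000000000000000000000000000000000000000000000000000000000040002088 := rS 0xef8c4663ff73c095f3f1ecd6a29db566761940a34fac94da5533b01191d1e4955c462aa959ed073e0ce89c262537e806a6d (k8 c22545 c20806 c23561 c5565 c1113 c5564 c267 c5522 (k8 c5215 c5534 c5211 c5532 c5531 c5414 c9727 c20861 (k8 c293 c5568 c2367 c9732 c23669 c5447 c5446 c5397 (k8 c5396 c5566 c5381 c5380 c6205 c19938 c23699 c22626 (k8 c5417 c5422 c19230 c6706 c7694 c23484 c22131 c5724 (k4 c407 c385 c22611 c20914 (k1 c5653 k0))))))) (by decide +kernel)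
def c23715 : PP 9 3 T 0x100010000000000000000000040000000000800000040000000100400000000000000000000000000000000000000000000000000000000000000040002088 := rS 0x2f5a8d2e271f79c5eb7565111ae442b7da1efc19d (k8 c5522 c5215 c5457 c5211 c5533 c5528 c5415 c9732 (k8 c5350 c5600 c5602 c2655 c678 c1458 c23713 c23714 (k2 c5671 c5676 (k1 c915 k0)))) (by decide +kernel)
def c23716 : PP 9 3 T 0x140000000000000000210200004000010000400100040000000000000000000000000000000000000000000000000000000000000001400100000000000080 := rS 0x759fc7e4afb204fb8d (k8 c5569 c5566 c5380 c5174 c5660 c407 c677 c3208 (k1 c9954 k0)) (by decide +kernel)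
def c23717 : PP 9 3 T 0x80002000000000022000000040000000000000000000000000000000000000000000000000000000000000000000000000000000001400000000040000008 := rS 0xac0a36e2709894dfa0 (k8 c23561 c5565 c1113 c5564 c267 c7694 c17931 c22626 (k1 c5339 k0)) (by decide +kernel)
def c23718 : PP 9 3 T 0x100010000000000100000000040000000000000000040000000000000000000000000000000000000000000000000000000000000000000000000000002400 := rS 0x5fc657aecfbeddd7855a3bcfe53258a47a11ac7cc5d79d60ad862d60e07538f929434967030944e090f808021940c9cde7dc6a8f602323a3c9213d045442b3da0e7c19d94c7cae05 (k8 c21870 c21872 c19418 c23700 c5522 c5215 c5534 c5211 (k8 c5532 c5528 c5414 c23561 c5564 c293 c5568 c2367 (k8 c9732 c23669 c5449 c5569 c5566 c5565 c5383 c5380 (k8 c6205 c23712 c5642 c2362 c23346 c267 c1113 c5643 (k8 c23715 c5213 c23688 c5391 c5608 c5388 c5607 c415 (k8 c3640 c1792 c1115 c5656 c679 c5652 c23717 c23716 (k8 c5558 c5560 c5339 c5342 c5563 c676 c1504 c3584 (k8 c1348 c21516 c5422 c9954 c3612 c3306 c2637 c1398 (k1 c5687 k0))))))))) (by decide +kernel)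
def c23719 : PP 9 3 T 0x210200000000000000400200000000000110001000000000000000000001040400800000000000000000000001400000005540000080 := rS 0x3b17eeb5a3bcfe53258a47a1140c9cfb8dc7df58779 (k8 c679 c1792 c19423 c1557 c5569 c5566 c5383 c5380 (k8 c5558 c5560 c5339 c5342 c5563 c676 c1504 c3584 (k4 c21516 c1397 c3612 c1787 k0))) (by decide +kernel)
def c23720 : PP 9 3 T 0x10000000000100000000040000000000400000040000000000000000000000000000000000000000000000000000000000000000000000000000002408 := rS 0xfbf8f6d591b1e2f3ac61b040c2e048b4561f1289c02193788c8e8f2484f411510acd8e7bc5c5f1f7d533a56ea35dfd1cea54cb97c1294eae7699d4dec24ba990e274857 (k8 c21872 c5213 c5610 c5606 c5388 c5391 c23669 c5397 (k8 c5522 c5211 c5415 c5412 c23700 c5215 c5539 c5447 (k8 c5399 c5461 c23718 c5554 c5449 c5533 c5555 c3621 (k8 c19423 c1557 c5635 c5553 c5457 c5535 c5532 c5528 (k8 c5414 c23561 c5564 c293 c5568 c2367 c9732 c5565 (k8 c6205 c28 c267 c1113 c1112 c4016 c269 c23346 (k8 c5652 c5643 c412 c1792 c5656 c679 c21954 c1454 (k4 c23719 c22626 c22601 c7323 (k1 c5170 k0))))))))) (by decide +kernel)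
def c23721 : PP 9 3 T 0x201010000000000002100210000101000000400000040000000100000000000050000000000040000000000000000004000000000000000100000040000404 := rS 0x2d495b6acce9e6363c094be066030f542cbb1ae229331a653b155c8856fb4c5aeef77d14800da05 (k8 c21870 c22545 c5642 c9694 c19423 c5631 c5554 c5553 (k8 c5211 c5533 c5528 c5415 c5414 c5412 c5447 c5395 (k8 c5444 c9727 c1058 c3605 c670 c669 c358 c5656 (k8 c3312 c1451 c15046 c18099 c1454 c23248 c5657 c20946 (k4 c20351 c22863 c5422 c19709 k0))))) (by decide +kernel)
def c23722 : PP 9 3 T 0x400012000000000000000000000000000000400100000000000100001000000000000000000000000000000100000000000000000000000000000000000002 := rS 0x3c5b6 (k2 c20261 c5170 (k1 c6706 k0)) (by decide +kernel)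
def c23723 : PP 9 3 T 0x200010000000000100000000040000000000400000040000000100000000000000000000000000000000000000000000000000000000000000000080002084 := rS 0x32794eeb1f7298b0564b6189592614a91d1e4909e822aa674add46bb73a9532e5f0275729bd86a49a2f33801eaf710ed33bedbfe2f13a4bdc25e205 (k8 c21870 c19427 c5556 c5631 c5213 c5610 c5553 c5389 (k8 c20743 c5522 c5211 c5528 c20809 c20810 c5642 c23684 (k8 c19426 c2369 c5388 c23669 c5397 c5415 c5412 c5215 (k8 c5539 c5447 c5399 c5461 c5554 c5449 c5533 c5555 (k8 c3621 c5414 c23561 c5564 c293 c5568 c2367 c5446 (k8 c5445 c5396 c15046 c1792 c2591 c1100 c5652 c3274 (k4 c17833 c23722 c20946 c5657 (k2 c23188 c22615 k0)))))))) (by decide +kernel)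
def c23724 : PP 9 3 T 0x2200000000000000400200000000000000000000000000010140000000000000800000000000000000000001405540580000000002 := rS 0x611debd711c57e5325904222539c9cdf77 (k8 c670 c5565 c5383 c5379 c5559 c5558 c5340 c5342 (k8 c5563 c1105 c667 c3590 c9409 c1840 c17957 c1351 k0)) (by decide +kernel)
def c23725 : PP 9 3 T 0x10000000000100000000040000000000400000040000000000000000000000000000000000000000000000000000000000000000000000000000002400 := rS 0x1f2db564542d613047a3f1b8200e1ed68005e03f6e270321bfe90fa937bbd48e8f2484f403b639edc2396fe2e137b533a56ea35dfd1cea54cb97c1294eae7699d4dec0ae05 (k8 c21870 c21872 c23669 c5397 c5522 c5211 c5415 c5412 (k8 c23700 c5215 c5539 c5447 c5399 c5461 c23718 c5554 (k8 c5449 c5533 c5555 c3621 c5631 c5556 c5553 c5538 (k8 c5534 c5460 c5457 c5535 c5456 c23561 c5564 c293 (k8 c5568 c2367 c20810 c20809 c5444 c5566 c5213 c5389 (k8 c5606 c5607 c5610 c20743 c23720 c19426 c5642 c1500 (k8 c23721 c23723 c5643 c2364 c275 c1512 c277 c5656 (k4 c358 c5652 c23724 c20261 (k2 c23675 c7694 k0))))))))) (by decide +kernel)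
def c23726 : PP 9 3 T 0x200010000000000080000010040010000000000000040000000100000000000000000000000000000000000000000000000000000000000000000000000000 := rS 0x2fe32ea77b89dbf7f1ad596bd50c55671b8ba99d2b751aedcea54cb97c09d5ced137b0 (k8 c23669 c5397 c5211 c5415 c5412 c5215 c5539 c5447 (k8 c5399 c5461 c5554 c5449 c5533 c5555 c3621 c5635 (k8 c5557 c5532 c5414 c5398 c5575 c5420 c5422 c6706 (k8 c7323 c1786 c17886 c1840 c5693 c3362 c2960 c3626 k0)))) (by decide +kernel)
def c23727 : PP 9 3 T 0x200010000000000100000000040000000000800000040000000100000000000000000000000000000000000000000000000000000000000000000000002004 := rS 0x5a89d7cbdfbc60965512d636e1f35e16f9a5bbfcf0200149cd929b4aa6760237bbd48e8f2484f40ab88f822a2159adf699d8f945771b27c5e47ab2694c0a6d (k8 c22545 c21870 c5605 c5604 c5600 c5351 c5635 c5630 (k8 c5557 c5554 c5552 c19418 c5522 c5211 c5533 c5532 (k8 c5528 c5414 c5215 c9727 c20861 c23561 c5564 c293 (k8 c5568 c2367 c20810 c20809 c9732 c23669 c5447 c5446 (k8 c5397 c5396 c5379 c9694 c5642 c23706 c23708 c669 (k8 c23701 c5667 c1349 c1368 c2361 c23726 c20184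 c5559 (k8 c5343 c5342 c3596 c17833 c3309 c5687 c3100 c1397 (k1 c3584 k0)))))))) (by decide +kernel)
def c23728 : PP 9 3 T 0x10000000000100000000040000000000000000040000000000000000000000000000000000000000000000000000000000000000000000000000002400 := rS 0xd4de74b81030b31e090fdf40202268af562fb32989ee95d947e91f0ca8d4a9b30a6760234eae442b7da39dcbe0ceca40a57 (k8 c21872 c21870 c23700 c5522 c5215 c5539 c5461 c5211 (k8 c5533 c5528 c5415 c5412 c9732 c23669 c5447 c5445 (k8 c5397 c5399 c5449 c6205 c19418 c23718 c5552 c5554 (k8 c5555 c5630 c3621 c23725 c5347 c5600 c5601 c5604 (k8 c23727 c28 c9704 c1112 c23346 c1557 c3585 c5643 (k4 c3235 c23714 c678 c5277 (k1 c5671 k0))))))) (by decide +kernel)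
def c23729 : PP 9 3 T 0x10000000000000000000040000000000000000040000000000000000000000000000000000000000000000000000000000000000000000000000002401 := rS 0xec8dbad68ef3f94c96291e846b179d6304a04f61c875325d263ece06f9c7c4a270487c041940c9cde7dc688c8e8f2484f40b31c8bfea4d7429d6ea35dee1cea54cb97c1294eae7699d4dec0ae05 (k8 c21870 c21872 c23669 c5397 c5522 c5211 c5415 c5412 (k8 c23700 c5215 c5539 c5447 c5399 c5461 c23728 c5430 (k8 c5449 c5533 c5428 c3621 c4612 c5555 c5425 c5534 (k8 c5532 c23561 c5564 c293 c5568 c2367 c9732 c5569 (k8 c5566 c5565 c5383 c5380 c6205 c5642 c2362 c23346 (k8 c267 c1113 c576 c23717 c5643 c23715 c4142 c5222 (k8 c5391 c5388 c5606 c1792 c295 c5661 c415 c5656 (k8 c679 c23716 c5558 c5560 c5339 c5342 c5563 c676 (k4 c1504 c23484 c3207 c2691 (k2 c3612 c1791 k0)))))))))) (by decide +kernel)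
def c23730 : PP 9 3 T 0x2010000004001104000000000000000000000000000000000000000000001000000400000000000000000000000000000000000000084 := rS 0x2f25f51a94c661 (k4 c5445 c5395 c5399 c5449 (k2 c1451 c679 (k1 c3600 k0))) (by decide +kernel)
def c23731 : PP 9 3 T 0x10000000000000000000040000104000400000040000000100000000000000000000000000040000400000000000000000000000000000000000002004 := rS 0xc20b6b46e070fb04a04fc0c87538fd20652623108ec73f526ba16ea373a9532e5f027573b4cea6f6057 (k8 c21872 c23669 c5397 c5522 c5211 c5415 c5412 c5215 (k8 c5539 c5447 c5399 c5461 c5449 c5533 c3621 c4612 (k8 c5555 c5534 c5456 c5528 c9732 c5444 c6205 c5222 (k8 c5608 c5388 c5606 c5607 c295 c5661 c415 c2649 (k4 c23730 c2364 c5911 c3578 (k2 c5656 c1794 k0)))))) (by decide +kernel)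
def c23732 : PP 9 3 T 0x2000000000022002200000000000000800000040000000100000000000050000000000000000004000000000000000000000000000000000000000002 := rS 0xdb7cab2c94da55331f (k8 c9712 c5447 c5446 c5397 c5396 c23699 c23701 c20261 (k1 c7694 k0)) (by decide +kernel)
def c23733 : PP 9 3 T 0x2000000000202000200000400000000800100040000000000000000000000000000000000010000000000000000000000000011400000000500000002 := rS 0x2745c941f927cd6b8538ed8e72737e357f775edf7022b (k8 c5601 c1062 c5427 c5617 c5613 c5431 c5569 c5565 (k8 c5383 c5379 c20261 c5571 c5423 c5422 c7694 c3606 (k4 c6300 c5660 c3079 c17890 (k1 c567 k0)))) (by decide +kernel)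
def c23734 : PP 9 3 T 0x140010000000000000001000044001104000000000000000000000000000000000000140000000510000000000000004010000000084011500000000002400 := rS 0x117fbe124b1b77b886e3f76822f1a9bd4664073939bf1a474792427a0 (k8 c23561 c5564 c293 c5568 c2367 c5569 c5565 c5383 (k8 c5379 c295 c3501 c296 c915 c5671 c3320 c3482 (k8 c275 c1511 c3590 c1841 c2694 c819 c3606 c5638 (k2 c3452 c5697 k0)))) (by decide +kernel)
def c23735 : PP 9 3 T 0x10000000000000151000040400000000000000000000000104000000000000020140000004000000000000000000000000001444011500000000012000 := rS 0xe2773ad823f8cc846e08bd3b40f89bc49f1b9d23a3c9213d07d71e57 (k8 c21872 c1560 c5555 c23561 c5564 c293 c5568 c2367 (k8 c5522 c5569 c5383 c5671 c2413 c678 c3482 c5676 (k8 c5643 c2364 c3414 c3502 c275 c277 c20954 c3592 (k2 c3590 c1841 k0)))) (by decide +kernel)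
def c23736 : PP 9 3 T 0x10000000000000000000040000000000800000040004000100000000000000020000000000000000000000000000000000001044011000000000012002 := rS 0x2130703620137b6dea1929b30a55329d10aa4767b708e59adffab0e47abd694f1651d2f8368abcec45eaf7d8680ae6d (k8 c22545 c21872 c23561 c23669 c20809 c20810 c9727 c5522 (k8 c20861 c5211 c5215 c23732 c5350 c2655 c5605 c5602 (k8 c5600 c5351 c5348 c5555 c5538 c5537 c5534 c5460 (k8 c5457 c5456 c5531 c5528 c5412 c5447 c5446 c5445 (k8 c5397 c5396 c23735 c20769 c915 c17686 c5676 c5643 (k2 c20746 c20786 (k1 c23711 k0))))))) (by decide +kernel)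
def c23737 : PP 9 3 T 0x10000000000000000000040000000000000000040000000000000000000000000000000000000000000000000000000000000000000000000000002400 := rS 0x1f8dc1007bc38f53f2bd4809c719d92c823d08956b1a5c7e07162bd5946cc0300137eae85ddf54ebdbbaff707d51a953699d808deef523a3c9213d02ae229d5c8856fb41db1cf6e1738e5bee5f0676526d (k8 c22545 c23700 c5522 c5215 c5539 c5538 c5534 c5461 (k8 c5460 c5457 c5535 c5456 c5211 c5533 c5528 c5415 (k8 c5412 c9727 c20861 c23561 c5564 c293 c5568 c2367 (k8 c20810 c20809 c9732 c23669 c5447 c5397 c5399 c5449 (k8 c5566 c23728 c5431 c5613 c5617 c5428 c5427 c5430 (k8 c3621 c5555 c4612 c23729 c28 c23731 c5350 c5600 (k8 c5601 c2655 c1062 c1560 c23732 c23733 c5343 c5558 (k8 c5560 c5340 c5342 c20946 c667 c23736 c295 c296 (k8 c23734 c915 c5549 c5671 c678 c3320 c2364 c275 (k1 c19935 k0)))))))))) (by decide +kernel)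
def c23738 : PP 9 3 T 0x40000010000800000040000000100000000000000000000000000080000400000000000000000000000000000000000002002 := rS 0x652f8fe718c044ab58258784bf33501a2f1bc413cbf7bbe62f4a5391944e681379f71a9f5098cc3b07bbd48e8f2484f40ab88ed3c19d2680f0377faee40a6d (k8 c22545 c21870 c5430 c5554 c23707 c23706 c28 c4611 (k8 c5522 c5215 c5211 c9727 c20861 c23561 c5564 c293 (k8 c5568 c2367 c20810 c20809 c23669 c5445 c5395 c5398 (k8 c5448 c5569 c5566 c5565 c5380 c5379 c5350 c5351 (k8 c5605 c23732 c2655 c5667 c914 c1364 c296 c5676 (k8 c2415 c3258 c23709 c2410 c23708 c15046 c1058 c2591 (k8 c23675 c5343 c5558 c3596 c667 c676 c2642 c3599 (k1 c1393 k0)))))))) (by decide +kernel)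
def c23739 : PP 9 3 T 0x2200000000004000000200000000000000000000000000010140000000080000000000000000010000000001405540080000000000 := rS 0x8de117ae25f94c9641129ce4e6f (k8 c5565 c5383 c5379 c5559 c5340 c5342 c5563 c1105 (k4 c3590 c3199 c17957 c2693 (k1 c1354 k0))) (by decide +kernel)
def c23740 : PP 9 3 T 0x100002000000000002002200000000004000400100040000000000000000000000000000000000000000000000000000000000000000000000000000000002 := rS 0x3e5b6 (k2 c20261 c23702 (k1 c7694 k0)) (by decide +kernel)
def c23741 : PP 9 3 T 0x20000000000000000000040000000000000000040000000100000000000000000000000000000000000000000000000000000000000000000000002002 := rS 0x38046b03d1f8a8103716978a1a4b3ddf022f3e91d1e4909e80423b708e5bea774de773f55d275729b5bed132a3d839fc19d (k8 c5522 c5215 c5461 c23669 c5449 c5447 c5211 c5533 (k8 c5397 c5415 c5412 c17955 c5554 c5430 c5619 c5472 (k8 c5470 c5538 c5534 c5460 c5456 c5528 c23561 c5564 (k8 c293 c5568 c2367 c5566 c9707 c23706 c23707 c23738 (k8 c5213 c23688 c23689 c362 c2651 c1055 c5652 c275 (k4 c1512 c23740 c5558 c23739 (k1 c667 k0)))))))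 (by decide +kernel)
def c23742 : PP 9 3 T 0x100000000000000100000000000000000000400000040000000000000000000000010000000000000000400504000000000000000000000500040041002008 := rS 0x2c2e1b8b4a0234e887699d (k8 c5522 c5211 c5528 c5412 c9732 c23688 c3640 c2651 (k2 c5652 c3578 (k1 c1356 k0))) (by decide +kernel)
def c23743 : PP 9 3 T 0x142010000044010090000000000000000000000001000000000440000000000000400000000000000000000000001000000000540000088 := rS 0x1db255e2fe37f75a1fc5211ac204fb8d5189c262537c664fa0 (k8 c23561 c5383 c3502 c5565 c1113 c5564 c267 c5449 (k8 c5569 c5566 c5380 c22626 c5558 c5339 c676 c18060 (k4 c9954 c2692 c1398 c5687 (k2 c920 c3306 (k1 c3612 k0))))) (by decide +kernel)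
def c23744 : PP 9 3 T 0x40000000000000000040000000000000000000000000000000000000000000000000000000000000000000000000000002400 := rS 0x5f458783facc6c94e2f1fdd6a2965edb0b768ce06f58fc5e975a51b31071206f98ac4a27be8243e0200c7febb95d3aef2ef74a9f53e41cb9c76b75988573154ef8368492388f3a1940c9c266f47e8126a352a853699d84a4ae05 (k8 c21870 c21872 c23700 c23669 c5447 c5397 c5398 c5399 (k8 c5449 c5444 c23561 c5568 c5565 c5564 c5383 c5380 (k8 c6205 c5522 c9732 c2367 c293 c5211 c5215 c5412 (k8 c5414 c5415 c5528 c5532 c5533 c5456 c5461 c5534 (k8 c23737 c5469 c5470 c5472 c5473 c5619 c5623 c17955 (k8 c5430 c5554 c19418 c23741 c5642 c2362 c23346 c9704 (k8 c267 c1113 c4017 c23717 c5643 c2411 c1734 c23742 (k8 c5350 c5602 c23714 c2655 c1458 c5676 c1158 c3502 (k8 c5667 c3474 c23743 c5420 c5417 c5422 c7591 c6706 (k8 c17886 c23484 c2693 c5342 c407 c5655 c5697 c17939 (k1 c3080 k0))))))))))) (by decide +kernel)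
def c23745 : PP 9 3 T 0x4002000000000022000020040000000000000000000000000100000000004000000000000000000000000000000000000000000000000000000000000401 := rS 0xd6670c0ee3503027c7df66a44f33b19bc05358016dce7a0d9864ae05 (k8 c21870 c21872 c6205 c18383 c23561 c5379 c17731 c5642 (k8 c22626 c5339 c22047 c385 c20946 c5524 c5374 c5537 (k8 c22337 c17754 c23346 c5643 c20806 c673 c5653 c20823 (k2 c21412 c1770 k0)))) (by decide +kernel)
def c23746 : PP 9 3 T 0x22000020000000000000000000000000000000000100000000000000000000000000000000000000000000000000000000000000400480 := rS 0x17d8e79 (k4 c5524 c674 c1450 c15975 k0) (by decide +kernel)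
def c23747 : PP 9 3 T 0x20000000040000000000000000040000000000000000000000000000000000000000000000000000000000000000000000000000000401 := rS 0x71b85be3a650dc7e310401fc6173bb552e35ef785ffef7bbc3e6489d91c5211ac7b767b74e88c327340a3626133ea3f411149a7d43b094a47380d0115c1e05 (k8 c21870 c21871 c21872 c5642 c23744 c5645 c5374 c23700 (k8 c23669 c5398 c5448 c5444 c9727 c23561 c5568 c5566 (k8 c5564 c5382 c5381 c5380 c5379 c6205 c5409 c5412 (k8 c17731 c18383 c18382 c22626 c5558 c5339 c5562 c20946 (k8 c17964 c17818 c22047 c499 c18434 c3007 c23745 c5165 (k8 c5450 c5452 c5454 c5493 c1213 c20755 c23746 c5643 (k8 c20764 c275 c1511 c17953 c23048 c2946 c1718 c8999 (k1 c5691 k0)))))))) (by decide +kernel)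
def c23748 : PP 9 3 T 0x1000000000000000000040000000000000000040000000000000000000002000000000000000000000040000000000000000000000000000000000601 := rS 0x1e314b5da758208d1c7df1d24d3ea1d84a4f67913894de391107c42020c8cc62171f84c7a7d1bc09ffef80fb367b59da1e2691ce0351a8fd003cda05 (k8 c21870 c22545 c21871 c23561 c5568 c5381 c23744 c5645 (k8 c5374 c5382 c5373 c5323 c23747 c5401 c5228 c5502 (k8 c20818 c5544 c20819 c1511 c5566 c1512 c5564 c275 (k8 c1507 c20764 c20738 c6205 c5642 c266 c1112 c5650 (k8 c395 c5565 c1113 c267 c5524 c5372 c23700 c23669 (k8 c5398 c5448 c5444 c5654 c19198 c8999 c5653 c15626 (k4 c19695 c2088 c1763 c5339 (k2 c17859 c14487 k0)))))))) (by decide +kernel)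
def c23749 : PP 9 3 T 0x40000000000000000040000000000000000000002000000000000000000000040000000000000000000000000000000000601 := rS 0x34dabe33b337c11164ec0f2ab68bf59f027ffbe03ecd9ed6768789a47380d46a3f400f (k8 c21871 c23561 c5568 c5381 c23744 c5645 c5374 c5382 (k8 c5373 c5323 c23747 c5401 c5228 c5502 c20818 c5544 (k8 c20819 c5543 c5542 c5501 c11079 c5524 c23669 c5396 (k8 c9727 c23748 c5537 c19610 c17754 c20556 c2087 c10131 k0)))) (by decide +kernel)
def c23750 : PP 9 3 T 0x40000000000000000040000000000000000000002000000000000000000000000000000000000000000000000000000000601 := rS 0x562c56aaf650a76ed7ac10469df4b7be04ff80fb277b30ca36268f49a7d43b094a1d239c0689c4a6f116d43e21010cc62171f84c7a7dd01b40a0f (k8 c21871 c21870 c22545 c23561 c5566 c1512 c5564 c275 (k8 c1507 c20764 c20738 c5642 c266 c1112 c23747 c5650 (k8 c5565 c1113 c267 c23744 c5645 c5374 c5373 c23700 (k8 c23669 c5398 c5448 c5444 c5568 c5382 c5381 c6205 (k8 c5401 c5323 c5228 c5502 c5544 c20819 c20818 c23749 (k8 c5452 c5653 c15626 c19695 c1763 c22255 c5339 c17953 (k4 c1247 c1339 c1330 c5683 (k1 c2035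 k0)))))))) (by decide +kernel)
def c23751 : PP 9 3 T 0x10000000000000000000000000040000000100000000001001000000000000000000000084000000000000000000000104000014401400 := rS 0x27076aa66aa5eded7a8d674d1d9f7f380f (k8 c21871 c5645 c5452 c5404 c1709 c19357 c23229 c5477 (k8 c20838 c20053 c2020 c2071 c5682 c6899 c1284 c13264 k0)) (by decide +kernel)
def c23752 : PP 9 3 T 0x40000000000000000040000000000000000000000000000000000000000000000000000000000000000000000000000000601 := rS 0x7a2abdaf75499d9fb29d8d12ef37ebc42e3119c4526c94aec25287359e7380d0d8747222da87c42020c9b40a0f (k8 c21871 c21870 c22545 c6205 c5642 c266 c1112 c23747 (k8 c5650 c395 c20811 c20794 c23744 c5645 c5524 c5523 (k8 c5373 c23700 c23669 c5446 c5396 c5444 c9727 c20738 (k8 c20764 c1507 c23750 c1237 c447 c23751 c3577 c5324 (k8 c23229 c21938 c5487 c5489 c502 c20915 c20788 c5657 (k1 c1923 k0)))))) (by decide +kernel)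
def c23753 : PP 9 3 T 0x8000000040000000000000000040000000000000000000000000000000000000000000040000000000000000000000000000000000401 := rS 0x3fce0b381bdbe6b124475eb58557b677b75499d5a7346c4cde8f88a44361d1384f40b57ebcde2162f0ef603935b1c0c09949e50e7bce0343222da87c4202079b40a57 (k8 c21872 c21870 c22545 c21871 c5642 c266 c1112 c23747 (k8 c5650 c6205 c23744 c5645 c5372 c5373 c5524 c23700 (k8 c23752 c5643 c13650 c5523 c395 c23669 c1674 c23482 (k8 c1450 c23486 c447 c4066 c4109 c23561 c5564 c267 (k8 c20811 c20794 c5374 c9727 c5568 c5565 c5382 c5381 (k8 c5379 c5490 c5487 c5489 c19230 c22141 c20915 c20788 (k8 c22626 c1923 c5341 c17964 c18423 c20566 c5657 c2195 (k4 c2894 c20843 c20587 c20931 k0)))))))) (by decide +kernel)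
def c23754 : PP 9 3 T 0x40000000000000000040000000000000000000000000000000000000000000040000000000000000000000000000000000401 := rS 0xd018ceb66cf4a86c3a3678a1fc29c0b1787679d831cf6390c9af380d030265222da87c420236814ae0f (k8 c21871 c21872 c21870 c22545 c5642 c266 c1112 c23747 (k8 c5650 c23700 c23752 c5643 c23744 c5645 c5523 c6205 (k8 c395 c5372 c13650 c23669 c5524 c1674 c23482 c1450 (k8 c1258 c5458 c5373 c23486 c1259 c20811 c20794 c5446 (k4 c1650 c23753 c5649 c9332 (k2 c22930 c1481 k0)))))) (by decide +kernel)
def c23755 : PP 9 3 T 0x40000000000000000040000000000000000000000000000000000000000000000000000000000000000000000000000000401 := rS 0x404fedf81ab9c7f38a7bccead58b2d6671556d99dedacce9a3b34b785e2fd4e2d42c5e1db1c0c091c88b6a1f1087436020c9cd028d899bcfa8fd044543b0949ed0e91359e7380d3683cae05 (k8 c21870 c21872 c21871 c22545 c23744 c5645 c5524 c5523 (k8 c5374 c5373 c5372 c23700 c23669 c5398 c9727 c23561 (k8 c5568 c5566 c5565 c5382 c5381 c5380 c5379 c6205 (k8 c5642 c20794 c20811 c266 c1112 c23747 c5650 c395 (k8 c23752 c5643 c13650 c1674 c23482 c1450 c4109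 c1258 (k8 c4066 c23486 c5458 c23754 c5404 c1709 c5649 c20946 (k8 c20838 c22930 c22626 c1651 c5571 c5574 c5420 c5421 (k8 c5573 c2124 c19392 c3604 c17922 c1777 c20793 c2199 (k4 c2950 c10493 c3071 c19149 k0))))))))) (by decide +kernel)
def c23756 : PP 9 3 T 0x220000000000000000000040008000000000000000000000000000000000000000000000000000000000000000000000000000402 := rS 0xaa24bf6281fdaab56ab113acce2a9db3d8cf597a96de673899bd1f1143a44d6f1119b40a0f (k8 c21871 c21870 c22545 c9731 c9696 c5523 c5374 c5373 (k8 c9727 c5568 c5565 c5382 c5379 c5325 c5474 c5477 (k8 c20946 c663 c20053 c20261 c2021 c5571 c5574 c5570 (k8 c5421 c5422 c5573 c17731 c18146 c3604 c13351 c17759 (k2 c20862 c19242 k0))))) (by decide +kernel)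
def c23757 : PP 9 3 T 0x20000220000000000000000000040004000100000000000000000000000000000000000000000000000000000000000000000000000002 := rS 0x5676e73 (k4 c5379 c17731 c18388 c20184 k0) (by decide +kernel)
def c23758 : PP 9 3 T 0x2000220000000000000000100040000000100000000000000000000000000000000000000000000000000000000000000000000001002 := rS 0xf10e4823b040583e5e65ed80a6d (k8 c22545 c21870 c20261 c5420 c18460 c18146 c1054 c1055 (k4 c1677 c1736 c273 c20146 (k1 c19956 k0))) (by decide +kernel)
def c23759 : PP 9 3 T 0x90000200000000000000000000000000000000000100000000000000000000000000000001000000010400000002000000000400000000 := rS 0x4556a2739c4cde8f5984cda05 (k8 c21870 c22545 c5564 c15745 c5568 c5565 c5382 c5379 (k4 c5570 c5422 c17759 c3604 k0)) (by decide +kernel)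
def c23760 : PP 9 3 T 0x40000000000000000040000000000000000000000000000000000001000000000000000000000000000000000000000000400 := rS 0x273c006708c46a1b1dac596208a2b43e7337a4d36614aa6406f11b98cf27b12fcc8eb355ece04fff7c07d88746edce21124563611309a3f6b3b9488c006b48e701b11d01b41e05 (k8 c21870 c21871 c22545 c23561 c9727 c23744 c5645 c5374 (k8 c5523 c23755 c9731 c23700 c23756 c23757 c5568 c5564 (k8 c5382 c23669 c23758 c17964 c5558 c667 c23759 c5381 (k8 c5373 c18373 c5502 c20818 c5544 c20819 c18358 c5500 (k8 c15745 c5562 c17818 c5559 c5372 c5524 c5395 c20063 (k8 c9696 c28 c5447 c5446 c5445 c5397 c5444 c5565 (k8 c5379 c11939 c2035 c3604 c5650 c22024 c1294 c340 (k8 c21702 c23229 c9332 c22049 c23048 c20522 c23099 c5458 k0)))))))) (by decide +kernel)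
def c23761 : PP 9 3 T 0x40000000000000000040000000000000000000000000000000000000000000000000000000000000000000000000000000400 := rS 0x1e166f786a31198700e1e5a3f557ec25d636b3b1480c007935a450e7bce036528fd04452695d815cda0f (k8 c21871 c22545 c21872 c23669 c5446 c5444 c9727 c23561 (k8 c5568 c23700 c23744 c5645 c5372 c5373 c5374 c5523 (k8 c5524 c23755 c28 c9694 c23756 c23757 c23758 c5342 (k8 c18373 c5500 c5542 c23760 c11945 c17918 c20866 c20297 (k4 c1996 c331 c5653 c5495 (k2 c22337 c19198 k0)))))) (by decide +kernel)
def c23762 : PP 9 3 T 0x20040000000000000000040000000000000000000000000000000000000000000000000000000000000000000000000000000002 := rS 0x1e166f786a31198700efd5587bd9b59dd62527948a1cf68fd04452695d8084466b06828ae6d (k8 c22545 c21872 c23761 c34 c1059 c9731 c2416 c23669 (k8 c5446 c5444 c9727 c23561 c5568 c5372 c5373 c5374 (k8 c5524 c19356 c23758 c20946 c18388 c18373 c5650 c5500 (k8 c5542 c17918 c20866 c20297 c1996 c331 c5653 c5495 (k2 c22337 c19198 k0))))) (by decide +kernel)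
def c23763 : PP 9 3 T 0x40000000000000200040000000000000000000000000000000000000000000000004005000000000000000000000080000002 := rS 0xeddef033c63291a8202c332f0dc0f1131ec0066bda67677a038a44220d0515c0a0f (k8 c21871 c21870 c21872 c23761 c34 c5558 c13457 c667 (k8 c23561 c20946 c23762 c5211 c1059 c28 c23669 c5395 (k8 c9727 c13795 c20063 c13493 c20297 c1054 c1055 c19957 (k4 c5433 c20764 c20518 c5215 (k2 c5653 c22445 (k1 c5493 k0)))))) (by decide +kernel)
def c23764 : PP 9 3 T 0x40000000000000200040000000000000000000000000000000000000000000000000008000000000000000000000000000002 := rS 0x94024ffe1099f527b01480c4a3ddb8441a0ada6774057 (k8 c21872 c23561 c23762 c5211 c23761 c34 c5558 c23606 (k8 c5560 c5559 c28 c9694 c23669 c5444 c5566 c5564 (k4 c5457 c3822 c1685 c5215 (k1 c12670 k0)))) (by decide +kernel)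
def c23765 : PP 9 3 T 0x40000000000000200040000000000000000000000000000000000000000000000004000000000000000000000000080000002 := rS 0x38b033fb7bde0188d65233040d80e784cec1e2ab7aaa63b3b38ecc06b410e8222b38aed33a91089ac1a0a3d95c1e6d (k8 c22545 c21871 c21872 c23764 c23761 c34 c1059 c5558 (k8 c13457 c23762 c5211 c5414 c5532 c9727 c23561 c2416 (k8 c15768 c28 c19921 c667 c20946 c5341 c5531 c23244 (k8 c20861 c9696 c23669 c5447 c23763 c1455 c2307 c2308 (k8 c20297 c5435 c1622 c20764 c5215 c5653 c17700 c18387 (k2 c18385 c23335 (k1 c2177 k0))))))) (by decide +kernel)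
def c23766 : PP 9 3 T 0x44000000000000000000000000000000000000000000000000000000800000000140000010000000000000000000000000000000000000 := rS 0x15bef (k2 c5507 c2032 (k1 c5683 k0)) (by decide +kernel)
def c23767 : PP 9 3 T 0x4004000000000000000200000000000000000200000000000000000000000000000000540000000000000000000000000000000000100015000000000000 := rS 0x1329ef0f9028d099f422431e9063a57 (k8 c21872 c5341 c5340 c5560 c5561 c5558 c5566 c5564 (k4 c5381 c5380 c3588 c5689 (k2 c5318 c275 (k1 c20859 k0)))) (by decide +kernel)
def c23768 : PP 9 3 T 0x44000000000000046000200000000000000000200000000000000000100000000000040001000000040001000000004000000000000000015000020000802 := rS 0xf0370b81d8f2870f7da5e36aab2269f31a6d320d10cec8ad758c752a6d (k8 c22545 c5446 c5341 c2177 c23766 c336 c20946 c2416 (k8 c34 c5447 c5397 c5395 c5448 c5382 c5683 c2890 (k8 c23158 c23767 c5496 c3063 c5653 c9140 c5432 c5433 (k2 c5435 c10500 (k1 c2307 k0))))) (by decide +kernel)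
def c23769 : PP 9 3 T 0x40004000000000000000000000000000000000000000004000000000500000000000040081000000000001500000004000004000000000015000000000802 := rS 0x1e06e1703b1e50e1ef834426d (k8 c22545 c2416 c34 c5496 c3063 c5653 c9140 c5432 (k4 c5433 c5435 c10500 c2307 k0)) (by decide +kernel)
def c23770 : PP 9 3 T 0x40000000000000200040000000000000000000000000000000000000000000000008000000000000000000004000000000002 := rS 0x200e3e94b4fc6d5f744c26634ca74863d20fcce2736fa6d9a7b1aa4c62456bac4381b7b2ade33b8eabe06b410c456715489af6603db8441a0ada6774095d815c1e6d (k8 c22545 c21871 c21872 c23669 c5446 c23561 c23762 c5211 (k8 c23761 c34 c5558 c23606 c28 c19921 c1059 c13457 (k8 c5414 c5532 c9727 c2416 c15768 c10690 c1249 c5341 (k8 c20946 c9696 c20861 c693 c2103 c5649 c2177 c23766 (k8 c336 c9332 c5444 c23229 c23764 c2074 c5397 c2514 (k8 c5379 c667 c20111 c5340 c5560 c5561 c5412 c5447 (k8 c5395 c5564 c5382 c23768 c5585 c23158 c23769 c14662 (k4 c3588 c23334 c5643 c275 k0)))))))) (by decide +kernel)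
def c23771 : PP 9 3 T 0x40000000000000000040000000000000000000000000000000000000000000000000004000000000000000008000000000002 := rS 0x34a623b00682b3a57 (k8 c21872 c23762 c23761 c34 c23669 c9727 c5316 c20297 (k1 c23334 k0)) (by decide +kernel)
def c23772 : PP 9 3 T 0x26000200000000000000000200040000000100000000000010000000011000002004000000004000000000000000000015000140000002 := rS 0x1601c33bf3dbde4bb2536954cbc53aa98ecece211 (k8 c5558 c667 c20946 c5341 c5531 c5412 c9696 c5447 (k8 c5446 c5397 c5396 c20460 c5653 c18006 c13565 c18387 (k2 c20237 c18385 (k1 c2177 k0)))) (by decide +kernel)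
def c23773 : PP 9 3 T 0x40000000000000200040000000100000000000000000000000000000000000000000000000000000000000000000000000002 := rS 0xce1d1a0c59ad10401fc0934cec1e2ab7acef66035a087411159c57699d48844d60d0507d0e333d95c1e6d (k8 c22545 c21871 c21872 c23764 c23771 c23770 c23765 c23761 (k8 c34 c1059 c5558 c13457 c23762 c5211 c5414 c5532 (k8 c9727 c23561 c2416 c15768 c28 c19921 c20946 c23244 (k8 c20861 c9696 c23669 c5447 c5444 c5215 c23334 c5643 (k4 c5459 c5537 c20764 c23772 (k2 c331 c664 (k1 c23335 k0))))))) (by decide +kernel)
def c23774 : PP 9 3 T 0x40000000000000200040000000000000000000000000000000000000000000000000000000000000000000000000000000002 := rS 0x792f8dc2f283da44e211d06c0d60d056d33a0f (k8 c21871 c23762 c5211 c23761 c34 c1059 c23669 c23561 (k8 c5558 c667 c13457 c23764 c23773 c5433 c5435 c1054 (k2 c2307 c13493 k0))) (by decide +kernel)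
def c23775 : PP 9 3 T 0x40000000000000000040000000000000000000000000000000000000000000000000000000000000000000000000000000002 := rS 0xe3e3db1dc5e020ca490105ab2fe7b6ac91d67154eed33a6b0184cdf1131a6cc299d8034960a89e801e6d (k8 c22545 c21871 c23561 c5382 c23761 c2588 c34 c23669 (k8 c5447 c5445 c5397 c5395 c9727 c5565 c5564 c28 (k8 c1059 c23762 c5211 c5412 c5414 c5532 c15906 c23774 (k8 c20261 c22829 c5420 c5422 c23606 c5660 c18167 c17676 (k4 c5215 c17886 c5535 c5457 (k2 c18209 c23313 (k1 c2908 k0))))))) (by decide +kernel)
def c23776 : PP 9 3 T 0x4000000000000000000000000000000000000000000000000000000000000000000000000008000000000000000000000000414000800 := rS 0x9dbc4b4f6 (k4 c693 c692 c499 c5474 (k1 c5649 k0)) (by decide +kernel)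
def c23777 : PP 9 3 T 0xa0000000040000000000000000040000000000000000004000000000100000000000000000000000000000000000108004000000000180 := rS 0x203ef574ea0631effb59c778ebcc4a6f14c57e7e0ce9ce53b04388f67a00e86c04011a9e41405 (k8 c21870 c23761 c2308 c441 c23775 c5642 c20794 c20811 (k8 c23561 c19230 c5409 c23776 c23669 c22595 c5379 c17731 (k8 c5215 c7694 c5414 c5417 c5565 c1113 c20781 c405 (k8 c673 c23499 c23390 c5453 c1474 c2634 c5653 c17885 (k2 c5584 c3070 (k1 c5694 k0)))))) (by decide +kernel)
def c23778 : PP 9 3 T 0x20000000040000000000000100040000000000000000000000000000000000000000000000000000000400000000000000000000000000 := rS 0x203ef5747606d7671dfda5b9d3c464796a818123e219048a4823bfdea104807c328f0692e262709894de71598a562ad712d597e38aa67e7e0ce9ce528711ecf6db0d00743602008281e05 (k8 c21870 c21871 c23761 c23775 c5642 c20794 c20811 c23561 (k8 c23669 c22626 c19230 c5409 c23776 c22595 c5379 c17731 (k8 c5215 c7694 c5447 c5414 c6706 c5420 c5422 c17886 (k8 c5573 c5421 c5417 c5574 c5571 c5565 c1113 c5564 (k8 c267 c5382 c2588 c34 c5568 c6205 c1111 c18007 (k8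 c13386 c10333 c20750 c2785 c13505 c20747 c10205 c3033 (k8 c18209 c20146 c2908 c4927 c2308 c23777 c385 c5649 (k8 c5474 c22726 c672 c22445 c1770 c2634 c406 c3582 (k2 c5584 c3070 (k1 c5694 k0)))))))))) (by decide +kernel)
def c23779 : PP 9 3 T 0x20000000040000000000000100040000000000000000000000000000000000000000000000000001000000000000000008000000000000 := rS 0x407deae8ec0daeff677b490d53b91c7c5b229067443033c432811384c4a6f14ac55b15f9f807ae2ce9ce52b56592e268711ecf6db0d0074360200828ae05 (k8 c21870 c21872 c23761 c23775 c5642 c20794 c20811 c23561 (k8 c23669 c22626 c19230 c5409 c23776 c5382 c2588 c5420 (k8 c5422 c22595 c5379 c17731 c17886 c1494 c5215 c7694 (k8 c5414 c5573 c5421 c5417 c5565 c1113 c5564 c267 (k8 c5380 c6205 c385 c20297 c2048 c5649 c1734 c5326 (k8 c5474 c18209 c2348 c672 c2996 c5660 c23390 c22445 (k8 c3006 c1770 c2634 c406 c3582 c5584 c3070 c5694 k0))))))) (by decide +kernel)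
def c23780 : PP 9 3 T 0x20000000040000000000000100040000000000000000000000000000000000000000000000000000000000000000108004000000000000 := rS 0x3fc0c486a8248e132582a26dff9f833a73d04a76c0200ec0ae05 (k8 c21870 c21872 c23669 c23775 c5642 c22626 c22595 c23561 (k8 c5379 c17731 c5215 c7694 c5538 c5382 c23761 c2588 (k8 c5564 c2913 c275 c2997 c5660 c5643 c3006 c23777 k0))) (by decide +kernel)
def c23781 : PP 9 3 T 0x20000000040000000000000100040008000000000000000000000000000000000000000000000000000000000000000004000000000000 := rS 0x1ac967f2442e49200fc623578914329364a541a4b89b8b3a7394ad5968711ecf6db0d00743602008281e05 (k8 c21870 c21871 c23761 c23775 c5642 c20794 c20811 c23561 (k8 c23669 c22626 c19230 c5409 c23776 c5420 c5422 c22595 (k8 c5379 c17731 c17886 c5382 c2588 c34 c5446 c5396 (k8 c5444 c6205 c5326 c5323 c5324 c5476 c23780 c18209 (k4 c17676 c1736 c13505 c20897 (k2 c3577 c2575 (k1 c1767 k0))))))) (by decide +kernel)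
def c23782 : PP 9 3 T 0x20000000040000000000000100040000000000000000000000000000000000000000000000000000000000000000000004000000000000 := rS 0x9040800fd22ff22c0de9ee784ed1a8f64a6d2a9925c4d3aab8aaa5c4b565fcfc19d39ca50e23d9edb61a00e86c04010f1a81405 (k8 c21870 c23761 c23778 c2305 c23775 c5642 c20794 c20811 (k8 c23561 c23669 c22626 c19230 c5409 c23776 c22595 c5379 (k8 c17731 c5215 c7694 c5420 c5422 c17886 c5531 c5414 (k8 c5413 c5412 c5382 c2588 c5447 c5446 c5397 c5396 (k8 c5568 c5381 c23781 c22131 c21607 c1216 c5508 c5582 (k4 c5586 c10333 c23780 c20762 (k2 c18209 c1928 (k1 c17676 k0)))))))) (by decide +kernel)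
def c23783 : PP 9 3 T 0x20000000040000000000000100040000000000000000000000000000000000000000000000000000000000000000000000000000000000 := rS 0x3c024640a (k4 c23761 c23782 c20738 c23779 (k1 c2308 k0)) (by decide +kernel)
def c23784 : PP 9 3 T 0x40000000000000004000220000000000000000000040008000000002000000000000000000000000100000000000000000000000006000000000010000000 := rS 0x2ad5301813d9ff1cf69142291 (k8 c5374 c3026 c5326 c18442 c20878 c3006 c513 c13569 (k4 c2140 c2020 c2199 c9222 k0)) (by decide +kernel)
def c23785 : PP 9 3 T 0x10000000000000000000000000000000000000000000000002000000000000000000000000004005000000000000000000000841800008 := rS 0x18c06 (k2 c1108 c23486 (k1 c13650 k0)) (by decide +kernel)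
def c23786 : PP 9 3 T 0x40000000000000100040000000000000000000000000000000000000000000000000000000000000000000000000000000000 := rS 0x7887a080385de13b08904904711453e61f2f1e4d69143e736bb35aac452b338ed8f61939a3e22932582a261d1384c4a6fd04a40401d815cda05 (k8 c21870 c22545 c21872 c23669 c23775 c5642 c22595 c23561 (k8 c5565 c1113 c5564 c267 c20811 c5382 c23761 c2588 (k8 c5444 c9727 c5568 c5379 c6205 c22752 c22626 c5571 (k8 c5574 c5417 c5421 c5422 c19230 c23783 c5211 c5373 (k8 c5374 c5523 c5524 c18460 c18146 c17922 c3604 c6197 (k8 c2786 c7822 c10205 c3026 c23784 c22131 c23785 c1450 (k4 c5643 c1513 c20146 c10342 k0))))))) (by decide +kernel)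
def c23787 : PP 9 3 T 0x80000020040000000000000000040000000000000000000000000000000000000000000000000000000000000000000000000000400000 := rS 0xe092f32c3213d024d3ea19480803b0ac15cda05 (k8 c21870 c22545 c21872 c23786 c23669 c23775 c5642 c22595 (k8 c5398 c5448 c5444 c23561 c5564 c6205 c5420 c18460 (k2 c17953 c1450 (k1 c5643 k0)))) (by decide +kernel)
def c23788 : PP 9 3 T 0x14000020040000000000000000040000000000000000000000000000000000000000000000000000000000000000000000000000000000 := rS 0x4e97d8e3b030f812cb6fc536ead59fbe04171cbfd9f015a88bd81946a3e22934fa84c69b30a6497131384c4a6f94ec07a41488441aab58bc0527b439e7e73bd0561e60a0f9ac04013695c0a0f (k8 c21871 c21870 c21872 c22545 c23775 c5642 c5523 c1111 (k8 c23761 c20781 c23786 c23561 c20946 c20566 c5524 c5373 (k8 c5372 c5339 c22131 c1330 c11079 c34 c5558 c13457 (k8 c5340 c5560 c23669 c22595 c5565 c1113 c5564 c267 (k8 c5382 c2588 c5447 c5445 c5397 c5395 c5398 c5448 (k8 c5444 c9727 c5568 c5381 c6205 c5228 c6197 c11945 (k8 c5502 c5543 c5544 c395 c23785 c20819 c20818 c2461 (k8 c2035 c23787 c5685 c2950 c22019 c17953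 c3579 c5643 (k4 c495 c13650 c1450 c13264 (k1 c3598 k0)))))))))) (by decide +kernel)
def c23789 : PP 9 3 T 0x4000020040000000000000000040000000000000000000000000000000000000000000000000000000000000000000000000000000000 := rS 0x16a717eab9e8f7f6edd671511ed03e6b39a36266f47c45e6910883414f09dd634002009b40a0f (k8 c21871 c21870 c22545 c23775 c5642 c23561 c23786 c20946 (k8 c22131 c23761 c34 c5558 c13457 c20781 c9727 c5568 (k8 c5565 c5382 c5381 c5379 c5523 c1111 c23788 c5409 (k8 c5414 c5532 c17731 c18382 c499 c5657 c18851 c2337 (k2 c20748 c1248 (k1 c3604 k0)))))) (by decide +kernel)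
def c23790 : PP 9 3 T 0x64000210000000000000000000000000000000000100004020000000000000000040000001004000000400000000040000000040000001 := rS 0x33c05fbef46c4d1e0f (k8 c21871 c5568 c5382 c5381 c19746 c2337 c1927 c20901 (k1 c20836 k0)) (by decide +kernel)
def c23791 : PP 9 3 T 0x44000210000000000000000000040004000000000000000000000000000000001000000001000000000000000000040000010040000801 := rS 0x101337b1eaaf7f9c0907346c4d1f11798844e13129bd0e1d0dbdc46f00145552b3da1acda05 (k8 c21870 c22545 c2305 c5211 c5532 c5531 c5414 c5642 (k8 c22131 c9733 c499 c20794 c20811 c23776 c5565 c1113 (k8 c5564 c267 c2416 c20781 c9727 c5568 c5382 c5381 (k8 c5379 c18060 c3604 c3007 c20748 c23790 c5657 c20243 (k2 c5502 c18848 k0))))) (by decide +kernel)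
def c23792 : PP 9 3 T 0x2000000000000064000210000000000000000000000000000000000100004000000000000000002000000001004000000400000000000000000000000001 := rS 0x5799bdefd80a36268f (k8 c5568 c5382 c5381 c5502 c5542 c20818 c20836 c1248 (k1 c20901 k0)) (by decide +kernel)
def c23793 : PP 9 3 T 0x44000210000000000000000000040004000000000000000000000000000000000000000001000000000000000000040000010040000801 := rS 0x2b9faf4f6bfd686b88bcd63b44387436f711bc00405 (k8 c21870 c5642 c22131 c9733 c499 c20794 c20811 c23776 (k8 c5211 c1330 c20781 c9727 c2305 c23791 c2573 c23792 (k4 c5657 c2337 c23790 c1248 k0))) (by decide +kernel)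
def c23794 : PP 9 3 T 0x4000000040000000000000000040000000000000000000020000000000000000000000000000000000000000000000000000000000080 := rS 0x19e791a8241b29d80cde13bac680328711e743a1b010041405 (k8 c21870 c23761 c23775 c5642 c20794 c20811 c23789 c9733 (k8 c23776 c6205 c23561 c23786 c20946 c22131 c385 c23669 (k4 c22595 c34 c30 c20806 (k2 c1455 c2340 (k1 c23499 k0))))) (by decide +kernel)
def c23795 : PP 9 3 T 0x4000000040000000000000000040000000000000000000000000000000000000000000000000000000000000000000000000080000000 := rS 0x6bdf6b25994310401d5d0280bfdf8f446c4c268f49a7d4329d810c8247488441a33784eeb1a00ca1c479d0e86c04010515c0a0f (k8 c21871 c21870 c21872 c23761 c23775 c5642 c20794 c20811 (k8 c23789 c9733 c23776 c6205 c23561 c23786 c20946 c22131 (k8 c385 c34 c5558 c13457 c5562 c5340 c5561 c23669 (k8 c22595 c5398 c5448 c5444 c5568 c5564 c5382 c5381 (k8 c1216 c1215 c2341 c1927 c20819 c2632 c23794 c5643 (k4 c20764 c17953 c1246 c1247 (k2 c5452 c1763 (k1 c5653 k0)))))))) (by decide +kernel)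
def c23796 : PP 9 3 T 0x4000000040000000000000000040000000000000000000000000000000000000000000000000000000000000000000000000000000000 := rS 0xdb1ac3fb4ce80486299de812211ac034140f (k8 c21871 c23761 c34 c23786 c5558 c13457 c23561 c20946 (k8 c5339 c5561 c23775 c23789 c5211 c23795 c2305 c23793 (k1 c13386 k0))) (by decide +kernel)
def c23797 : PP 9 3 T 0x10040000000000000000040000000000000000000000000000000000000000000000008000000000000000000000000000000000 := rS 0x584008ae23f9e40c096b8c8ec352d3da068146c4cfa8f129bc86298eced221106abfdf587889c27a00d8ed8e7b70b7fbfe04caae2231676ca520200ec1e60a2b814da0f (k8 c21871 c22545 c21870 c21872 c23761 c20781 c23669 c23775 (k8 c5642 c22595 c23796 c20696 c1474 c9727 c20861 c5447 (k8 c5215 c16230 c5538 c5460 c5457 c5535 c5456 c20794 (k8 c23561 c5564 c267 c5401 c23786 c17816 c5406 c34 (k8 c5558 c13457 c20946 c5341 c5339 c5561 c5565 c1113 (k8 c5568 c5566 c5382 c5381 c5380 c10690 c693 c692 (k8 c501 c9931 c5653 c2187 c20738 c20297 c2308 c676 (k4 c3610 c20835 c13843 c23533 (k1 c2143 k0))))))))) (by decide +kernel)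
def c23798 : PP 9 3 T 0x10040000000000000000040000000000000000000000000000000000000000000000000000000000000000000008000000000000 := rS 0x112065b7b1e4eef5048d51b1309a3de71d9de812211ac03414cdf07b59db29480803b04395c0a0f (k8 c21871 c21870 c21872 c23797 c23669 c23775 c5642 c22595 (k8 c23796 c20696 c5543 c5215 c5537 c23761 c34 c23786 (k8 c5558 c13457 c23561 c20946 c5341 c20781 c5568 c5564 (k8 c5382 c5381 c120 c20738 c2045 c21937 c2308 c5657 (k4 c2041 c2195 c20837 c20835 k0))))) (by decide +kernel)
def c23799 : PP 9 3 T 0x10040000000000000000040000000000000000000000000000000000000000000000000000000000000000000000000000000000 := rS 0x1f821ae071a0cc63df67781561909c45269f50b2532f30506c4a6f9480803b020ceeb1a078ec80a6d (k8 c22545 c21870 c23796 c5401 c23561 c23786 c20946 c5340 (k8 c23669 c23775 c5642 c22595 c5565 c1113 c20794 c23761 (k8 c20781 c5447 c5396 c5398 c5448 c5444 c9727 c5564 (k8 c6205 c20861 c5215 c20696 c16230 c1474 c23798 c5653 (k4 c20806 c1763 c22483 c275 (k1 c14481 k0)))))) (by decide +kernel)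
def c23800 : PP 9 3 T 0x40000000000000000040000000000000000000000000000000000000000000000000000000000000000000000000000000000 := rS 0x591222a44383d962f55aaa83feddafccd687ce6dd52677ebc55eadd94ee3a2921d604a270e86c040125bcc151139a36261337e800a6d (k8 c22545 c21870 c23561 c5565 c5564 c5382 c5381 c5379 (k8 c9727 c23761 c20781 c2588 c23775 c5642 c20794 c20811 (k8 c267 c1113 c23786 c5561 c5339 c5341 c20946 c23796 (k8 c5490 c5406 c5401 c5405 c5487 c5489 c19230 c23799 (k8 c5373 c5523 c20566 c18383 c20915 c1111 c20788 c11945 (k8 c1923 c18423 c5657 c20843 c3582 c3049 c503 c5685 (k1 c15745 k0))))))) (by decide +kernel)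
def c23801 : PP 9 3 T 0x20040000000000000000000000000000000000000001000000000000000000000000000000000000000000000000000000000008 := rS 0xd96dab3a09dd2b6129 (k8 c19356 c5209 c23800 c18477 c23561 c12110 c22626 c22131 (k1 c19230 k0)) (by decide +kernel)
def c23802 : PP 9 3 T 0x8000000000002000200000000000000000100000004000100100000000001000000000000000000000000000000000000000000000004001000000002 := rS 0x97f71146a1c0da34de9313ac55bb3219c76c05 (k8 c21870 c20261 c5571 c23604 c19230 c5573 c5421 c5570 (k8 c5444 c5565 c5381 c18705 c18461 c23229 c335 c5658 (k2 c20460 c22132 k0))) (by decide +kernel)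
def c23803 : PP 9 3 T 0x20040000000000000000000000000000100000000001000000000000000000000000000000000000000000000000000000000000 := rS 0xf787469df18891a67f6bf887e41198202c07f9c50bdb556ad562cb599c76c00019cd1b13099bd1f11489aeb3a09dd2927b09495cda05 (k8 c21870 c22545 c21872 c19356 c5209 c5444 c23800 c18477 (k8 c23561 c12110 c5523 c5374 c5371 c5568 c5565 c5564 (k8 c5382 c5381 c5379 c23801 c5642 c20261 c5571 c5574 (k8 c5420 c5421 c5422 c5573 c17731 c18460 c3604 c17922 (k8 c1451 c1054 c1055 c20297 c1736 c275 c20146 c18221 (k8 c5577 c5579 c23802 c20764 c20754 c5653 c331 c20163 (k1 c18462 k0))))))) (by decide +kernel)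
def c23804 : PP 9 3 T 0x20040000000000000000000000000000000000000004000000000000000000000000000000000000000000000000000000000000 := rS 0xa8802bfdd14daab56ab338ed84aab1080b66f08e968e68d899bd1e2388a1d226bacec253ed9dd2b406d (k8 c22545 c23561 c23800 c18477 c18450 c19356 c5209 c12110 (k8 c5523 c5374 c5373 c5371 c5331 c5568 c5565 c5382 (k8 c5381 c5379 c20814 c2159 c23803 c5401 c19427 c431 (k8 c1281 c1113 c22626 c5571 c5574 c5422 c5573 c17731 (k4 c3604 c18475 c5584 c20818 (k2 c21637 c2026 k0)))))) (by decide +kernel)
def c23805 : PP 9 3 T 0x20040000000000000000000000000000000000000002000000000000000000000000000000000000000000000000000000000000 := rS 0x15dee8ec51f9b55a8a5667154ed84a215580b6673899bd1e2388a44d759d84a7db3ba5681e46d (k8 c22545 c23804 c23561 c23800 c18477 c18450 c19356 c5209 (k8 c12110 c5523 c5374 c5371 c5331 c5568 c5565 c5382 (k8 c5379 c5401 c19427 c1281 c266 c1113 c22626 c2446 (k8 c5571 c5574 c5417 c5422 c17731 c5682 c3604 c551 (k2 c18475 c1241 (k1 c5584 k0)))))) (by decide +kernel)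
def c23806 : PP 9 3 T 0x20040000000000000000000000000000000000000000000000000000000000000000000000000000000000000000000000000000 := rS 0x1fa1c8a7cf6ab558acce301256d95bef000a6380378bca775935a462273899bd1fa07bd28da05 (k8 c21870 c22545 c23800 c5333 c23561 c5568 c5565 c5382 (k8 c5379 c5371 c5374 c5523 c12110 c18477 c23804 c23805 (k8 c23801 c23803 c9694 c5642 c5504 c2029 c20199 c554 (k8 c2139 c5571 c5574 c5421 c5422 c17731 c5546 c3604 (k2 c18462 c1242 (k1 c334 k0)))))) (by decide +kernel)
def c23807 : PP 9 3 T 0x40000000000000000000000000000200100000000000000000000001400000000000000010000000000000000000000000002 := rS 0x40fdaff7e243e7b439e74d61ff796d1ba080bde946d (k8 c22545 c23800 c5333 c2139 c23561 c5381 c2159 c5504 (k8 c5517 c1058 c23806 c5379 c17712 c20111 c17856 c20037 (k4 c20750 c5542 c2631 c5694 k0))) (by decide +kernel)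
def c23808 : PP 9 3 T 0x14000000040000000000000000000004000100000000001000000000010100000000000114000000000005040000000015000020000002 := rS 0x240e777bbd73a6b0fd28ce57 (k8 c21872 c663 c23800 c5517 c1058 c23806 c5519 c5333 (k4 c9300 c23188 c23217 c20778 k0)) (by decide +kernel)
def c23809 : PP 9 3 T 0x4000000000000010000000040000000000000100000004000100000000001000000000010100000000010114000000000005040000000011000020000002 := rS 0x2f027be324fecf6da0 (k8 c23561 c20261 c19230 c5572 c23808 c5492 c20738 c19711 (k1 c1055 k0)) (by decide +kernel)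
def c23810 : PP 9 3 T 0x2000000040000000000000100000004000000200000000001000000000000000000000000000004000000000000000000000000000002 := rS 0xe4672866b3c62c71aa652ac931a85263b1bbd7de5b46aadef4a68ed73af37e87036b1d9e80c3105aacce3b6 (k8 c20261 c5571 c5574 c5422 c23807 c880 c23561 c19230 (k8 c5421 c2161 c5649 c20808 c334 c23806 c5411 c23003 (k8 c23800 c5333 c2121 c5381 c2159 c5504 c5519 c5518 (k8 c5332 c5444 c5398 c5395 c5396 c5446 c5447 c23229 (k8 c796 c9332 c13265 c23671 c23809 c5316 c5317 c3587 k0))))) (by decide +kernel)
def c23811 : PP 9 3 T 0x1000000000000015000000040000000000000000000000000000000000001000000000010000000000000000000000000000000000000000000020000002 := rS 0x3352fe0314a2959d (k8 c23806 c23800 c5209 c16365 c5235 c20807 c5537 c18458 k0) (by decide +kernel)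
def c23812 : PP 9 3 T 0x2000000040000000000000100000004000000200000000001000000000000000000000000000000000000000000000000000000000002 := rS 0x1f8be7a309ac3f4a65ab8ce5b589bd5a8d38ed8e7a0 (k8 c23561 c5379 c20261 c5571 c5381 c5573 c5565 c5421 (k8 c2159 c663 c20793 c5420 c23800 c5517 c1058 c5445 (k4 c23810 c1687 c17744 c22877 k0))) (by decide +kernel)
def c23813 : PP 9 3 T 0x40000000000000100000004000000200000000001000000000000000000000000000000000000000000000000000000000002 := rS 0x1a33d9a97188e467ecf018a51b179b45fbb588070363b7b8ddeb4ace9c566b15aecf6da0 (k8 c23561 c20261 c19230 c5422 c5421 c5574 c5571 c23806 (k8 c23800 c5519 c5518 c5333 c5332 c2161 c5649 c23807 (k8 c5411 c20808 c23003 c334 c23812 c5209 c16365 c5235 (k8 c23811 c5316 c5317 c5434 c20807 c5537 c5543 c3587 (k1 c332 k0))))) (by decide +kernel)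
def c23814 : PP 9 3 T 0x10000000040000000000000100000004000200000000000001000000000000000000000000000000000000000000000000000020000002 := rS 0x3f1e9be5f0b81c72331ba7c94f580aadef4a79b1c6a9318a5761ed4319bdc451390e3a7156b45fb10ce86f67b6d003cae05 (k8 c21870 c21872 c21871 c23561 c20261 c19230 c57 c23806 (k8 c17712 c20808 c23003 c5573 c5571 c23813 c23604 c5570 (k8 c335 c5658 c19392 c882 c5499 c23811 c5446 c9332 (k8 c5444 c23229 c3878 c334 c23800 c5333 c2121 c13274 (k8 c5519 c17894 c5572 c5518 c5316 c5317 c5432 c5433 (k4 c19919 c2510 c19735 c17744 (k1 c892 k0))))))) (by decide +kernel)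
def c23815 : PP 9 3 T 0x10000000040000000000000100000004000000000000000001000000000000000000000000000000000000000000000000000020000004 := rS 0x7b1c1f9be791297c8206048ca5231ef8d52aa149ec3da86251995ed780fb9e6ab2286dee377ad2852cb13ad55bb3219c76da08eb45fb10ce8000a57 (k8 c21872 c21870 c5642 c23806 c17712 c20808 c23003 c23813 (k8 c23561 c20261 c5571 c23604 c19230 c5573 c5422 c5570 (k8 c5420 c9694 c23800 c5519 c5518 c5333 c57 c335 (k8 c2121 c334 c5658 c13274 c5507 c5584 c19392 c17894 (k8 c882 c5499 c23811 c5444 c5398 c5446 c23229 c17832 (k8 c9332 c23814 c5653 c20738 c20297 c544 c1055 c15046 (k4 c1454 c2511 c17744 c19709 (k2 c892 c8203 k0)))))))) (by decide +kernel)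
def c23816 : PP 9 3 T 0x2000200000000000000000100000004000100100000000000000000000000000000000000000000010000000000200015002000000040 := rS 0xfde26bf78828d698fd4257 (k8 c21872 c5398 c2909 c4887 c5381 c458 c5653 c18221 (k2 c20159 c20754 (k1 c5577 k0))) (by decide +kernel)
def c23817 : PP 9 3 T 0x4000000000000014000000000000000000000000000000000000100000011000000000000000000101000000000000000000000008200000000000000000 := rS 0xabf6bfde5f3 (k4 c5546 c460 c2569 c5540 (k2 c6368 c5682 k0)) (by decide +kernel)
def c23818 : PP 9 3 T 0x82000000040000000000000000000000000000000200000000000000040000000000000000000000000040000004011020000000000000 := rS 0x38dc2df66a70f05e3fb5ce67da532fdfa038ab4c7df (k8 c5450 c5395 c5573 c5571 c23561 c19392 c5420 c23800 (k8 c5566 c5379 c1763 c19606 c19794 c1268 c1267 c20785 (k4 c2388 c1541 c1777 c21501 k0))) (by decide +kernel)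
def c23819 : PP 9 3 T 0x4000000000000002000000000000000000000000000004000000100000000000000000040400000000000000100000000000000000020000000010000004 := rS 0x3bb542fe331b24c295 (k8 c5446 c5445 c5396 c5395 c5462 c1736 c1657 c10131 (k1 c22977 k0)) (by decide +kernel)
def c23820 : PP 9 3 T 0x82000000040000000000000000000000000000000200000000000000040000000000000000000000000040000004050020000000000000 := rS 0x3d (k2 c1624 c23818 k0) (by decide +kernel)
def c23821 : PP 9 3 T 0x82000200000000000000000000000000000000000000000000000000000000000000000000000000000040400000000000000000000000 := rS 0xfccb572c4dead469c4e661 (k8 c5445 c5379 c5571 c5381 c5573 c5565 c5421 c20793 (k2 c5420 c17744 (k1 c22877 k0))) (by decide +kernel)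
def c23822 : PP 9 3 T 0x2000000040000000000000100000004000000100200000000000000000000000000000000000000000000000004000000002018000004 := rS 0xc652080b1786a411981d928d65b4c89ef33ab48671db0034005 (k8 c21870 c23561 c5642 c20261 c5571 c23604 c5573 c664 (k8 c19392 c5658 c4887 c5420 c5381 c5396 c15046 c2043 (k8 c23819 c23820 c23821 c1054 c1055 c5433 c20764 c23816 k0))) (by decide +kernel)
def c23823 : PP 9 3 T 0x4000000000000015000000000000000000000000080000000200000000001000000040011000000581005440000000000000000004200010000000000000 := rS 0xefb559d037f78d54e2f690476377a8cc7231 (k8 c5434 c5317 c5316 c5519 c5518 c5332 c458 c18037 (k8 c15026 c5682 c5466 c1287 c2199 c2574 c1663 c5453 (k1 c19122 k0))) (by decide +kernel)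
def c23824 : PP 9 3 T 0x10000000040000000000000100000004000000000000000001000000000000000000000000000000000000000000000000000000000004 := rS 0x3daab677cdfee220b5da8346fb35c29d4b8c47e39f018a51b125c0488a9577bc481a33875a2fd4dc40e68d378ec92377a91e959d59a7d62add990ce3b6d04740005 (k8 c21870 c5642 c23813 c23561 c20261 c5571 c23604 c19230 (k8 c5573 c5421 c5572 c5574 c23806 c23800 c5520 c5519 (k8 c5518 c5334 c5332 c5565 c5381 c5379 c17712 c8100 (k8 c20808 c23003 c23815 c664 c5649 c18384 c19392 c20793 (k8 c1906 c5658 c3071 c23817 c23822 c5209 c16365 c5235 (k8 c5317 c5318 c5434 c20807 c5458 c5460 c5537 c5538 (k8 c23823 c23586 c206 c1657 c10448 c15032 c22079 c1662 (k2 c6368 c5543 (k1 c19296 k0))))))))) (by decide +kernel)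
def c23825 : PP 9 3 T 0x40000000000000100000004000000000000000001000000000000000000000000000000000040000000000000000000000004 := rS 0x103f6a19fa1d809115def39a34def5ce89d62ad21c7622ff486d16ba0599ac3f4a38ed80005 (k8 c21870 c5642 c20261 c5571 c23800 c5517 c1058 c5574 (k8 c23561 c5422 c23824 c17856 c20750 c5411 c23813 c23604 (k8 c5573 c5421 c5570 c23806 c5519 c5565 c5381 c5379 (k8 c19392 c20793 c5658 c20839 c335 c20237 c23053 c5499 (k2 c10690 c21172 k0))))) (by decide +kernel)
def c23826 : PP 9 3 T 0x40000000000000001000000040000000000000100000004000000100000000000000040001000000000001100000000000080000000000000000100000004 := rS 0x1c3e33cf8480d36825c62171c8ccc5280c8ec3ef71bbd6959d13ab7664338edb40c92d0700005 (k8 c21870 c5642 c664 c663 c4447 c23561 c20261 c5571 (k8 c23604 c19230 c5573 c5570 c23806 c23800 c5519 c5518 (k8 c5333 c5517 c5332 c6205 c5209 c16365 c5316 c5317 (k8 c5433 c5434 c20807 c22997 c13297 c22979 c5459 c20803 (k2 c5462 c1714 (k1 c18204 k0)))))) (by decide +kernel)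
def c23827 : PP 9 3 T 0x21000000040000000000000100000004000000100000000000000000000000000000000000000000000080000000000000000000000004 := rS 0xcc312744299f9c473a736fa416ab3359c76c003dc54dfa00fd280a6d (k8 c22545 c21870 c23800 c5517 c23561 c5565 c5414 c22872 (k8 c5642 c20261 c5571 c1058 c5574 c5422 c17856 c2949 (k8 c5379 c23806 c5411 c20111 c5530 c5528 c5412 c16365 (k2 c23826 c23273 k0)))) (by decide +kernel)
def c23828 : PP 9 3 T 0x40000000000000100000004000000000000000001000000000000000000000000000000000000000000000000000000000004 := rS 0x6631ef8d40f294aa8527b057b5fdc450e06ccc7b8aed23a43d989d9671db000dfa00fd28ae05 (k8 c21870 c21872 c23800 c5517 c23561 c5565 c5642 c20261 (k8 c5571 c5420 c5570 c19230 c23604 c23813 c23824 c5414 (k8 c22872 c23825 c1903 c664 c335 c5658 c5507 c5584 (k8 c23827 c5444 c5398 c5446 c9578 c23086 c23229 c17832 (k2 c9332 c20297 (k1 c5653 k0)))))) (by decide +kernel)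
def c23829 : PP 9 3 T 0x8000000000000000000000040000000000000000000004000000000000000000000000040000000000010000000000000002000000000000000014000000 := rS 0xee7f0ca04fba0 (k4 c23561 c5566 c5380 c6205 (k2 c729 c10409 (k1 c23464 k0))) (by decide +kernel)
def c23830 : PP 9 3 T 0x8000000000000001000000040000000000000000000004000000000000000000000000540400000050010050000000000044000000000000000014000000 := rS 0x278bcc930ac4fba0 (k8 c23561 c5566 c5506 c23829 c20845 c20236 c3618 c1522 k0) (by decide +kernel)
def c23831 : PP 9 3 T 0x1000000040000000000000000000000000000000000000000000000540400000150010050000000000045000000000000000000000000 := rS 0x9e2f324fba0 (k4 c23561 c5566 c20845 c20236 (k2 c3618 c1522 k0)) (by decide +kernel)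
def c23832 : PP 9 3 T 0x40000000000000100000004000000100000000001000000400400000000000000000000000000000000000000000000000000 := rS 0x3b9fcc0b1217bda681469f4c61b578755a9733a5542196a9145025378f651b1dbecb4002 (k8 c23828 c23561 c22131 c19230 c22626 c5209 c5436 c5565 (k8 c1113 c21947 c456 c18677 c6205 c1195 c5488 c5487 (k8 c5404 c5490 c20811 c10145 c20794 c9752 c5566 c5381 (k8 c5380 c14519 c23830 c5658 c1931 c23831 c729 c10409 (k1 c20751 k0))))) (by decide +kernel)
def c23833 : PP 9 3 T 0x29000000040000000000000000000000000000000000004001000000001800000000000000000000000000000000000000020000000008 := rS 0x33fc2d1efb7926614ff8c32811d87c4e13d07b4421ba52ae2201ce85e506d (k8 c22545 c5209 c5433 c23806 c28 c9730 c20861 c23800 (k8 c20794 c266 c17763 c23561 c5564 c267 c5517 c5332 (k8 c5380 c6205 c5464 c199 c1755 c1754 c17969 c19294 (k4 c14987 c5538 c2564 c5688 k0)))) (by decide +kernel)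
def c23834 : PP 9 3 T 0x40000000000000100000004000000100000000001000000000400000000000000000000000000000000000000000000000000 := rS 0x13fe36b25762a1146df642537e800419 (k8 c6205 c23828 c23561 c5565 c1113 c22131 c19230 c21947 (k4 c1195 c22626 c5488 c23832 (k2 c5465 c1605 (k1 c5680 k0)))) (by decide +kernel)
def c23835 : PP 9 3 T 0x40000000000000100000004000000100000000001000000000000000000000000000000000000000000000000000000000000 := rS 0x1a9365e64ed4c2ca7fa046e4731a5cce954e9ec8a28129bc2ecd1cca363b7d03c9faa9d90843a230f86deef5a52ae2201016740a6d (k8 c22545 c21870 c23806 c23828 c28 c9730 c20861 c23800 (k8 c5519 c5333 c20794 c5517 c5331 c20811 c266 c22131 (k8 c5489 c20237 c3581 c23561 c19230 c22626 c5209 c5317 (k8 c2500 c5433 c5565 c1113 c21947 c456 c22786 c8792 (k8 c5488 c5487 c5404 c9752 c5520 c5518 c5380 c11059 (k8 c23834 c1755 c23833 c20845 c20236 c8100 c5665 c18004 k0)))))) (by decide +kernel)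
def c23836 : PP 9 3 T 0x1000000040000000000000000000004000000200000000001000000000400000000010000000000000001000000000000000000000008 := rS 0xf11013e342f324fa630da5cce95dbecb4128 (k8 c5209 c23561 c22131 c19230 c5488 c5487 c5404 c20794 (k8 c9752 c5566 c20845 c20236 c19920 c1522 c552 c5680 (k1 c5462 k0))) (by decide +kernel)
def c23837 : PP 9 3 T 0x40000000000000100000004000000000000000001000000000000000000000000000000000000000000000000000000000000 := rS 0x3818e603ca6768b3f9a4494fe65c04b7ef8e40c2e3922a865028d8bc9569df6edd526757bf6227bd9094421d0d804041940a34de7dd007c46f77ad2b3a6d (k8 c22545 c23806 c23800 c5519 c5333 c5331 c5517 c23561 (k8 c5566 c5565 c5381 c5380 c6205 c23828 c28 c20794 (k8 c20811 c266 c1113 c22131 c22786 c9730 c20237 c10145 (k8 c5487 c5489 c19230 c17763 c8792 c20861 c3581 c22626 (k8 c21947 c5209 c1195 c456 c5317 c5433 c2628 c23835 (k8 c5504 c2159 c2139 c22216 c555 c554 c21172 c5546 (k8 c2454 c20587 c5530 c23373 c23836 c726 c19915 c10249 k0))))))) (by decide +kernel)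
def c23838 : PP 9 3 T 0x100000004000000200000000002000000000000000000000000000000000000000000000000000000000000 := rS 0xdb0a3dfb3 (k4 c5401 c5504 c551 c5229 (k1 c5417 k0)) (by decide +kernel)
def c23839 : PP 9 3 T 0x8000000000000041000000040000000000000000000004000000000000000002000000000000000000010000000000000002000000000000000000000000 := rS 0x788ee81469f7401b0eb2432d5 (k8 c5585 c6205 c1177 c118 c117 c23561 c5566 c5381 (k4 c5380 c10409 c19404 c20755 k0)) (by decide +kernel)
def c23840 : PP 9 3 T 0x1000000040000000000000100000004000000000000000000000000000400000000000000000000000000000000000000020000000000 := rS 0x803310e9668a47be76699ff69e24d3193e994a97926617fb548ad7f72876e8d3ee80761f11bd695b364864c6214e9ec059d888063af01c85e506d (k8 c22545 c5209 c5433 c5317 c23837 c23838 c9696 c9730 (k8 c23806 c19427 c22786 c8792 c266 c19421 c6205 c1177 (k8 c5401 c23800 c5519 c5331 c5517 c5332 c23561 c5566 (k8 c5381 c5417 c1195 c5229 c5507 c5582 c5585 c5586 (k8 c23839 c262 c5663 c20765 c1521 c1522 c22898 c6193 (k8 c5680 c8100 c5577 c5579 c20727 c20754 c800 c20358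 (k4 c5678 c799 c1232 c20935 (k1 c2077 k0)))))))) (by decide +kernel)
def c23841 : PP 9 3 T 0x40000000000000001000000040000000000000000000000000000000000000000000040000400000000005000000000000005000000000000010000000008 := rS 0xe16378c805e49866263b11d28422709894dfa01c85e506d (k8 c22545 c5209 c5433 c5317 c23561 c5565 c1113 c5564 (k8 c267 c266 c23800 c5331 c5332 c5382 c6205 c262 (k4 c5663 c18420 c18620 c22898 (k2 c1714 c9140 k0)))) (by decide +kernel)
def c23842 : PP 9 3 T 0x4000000000001000000040000000000000100000004000000000000000000000000000400000000000004000000000000000000000000000000000000 := rS 0x355afdf4a339fefc25455526a4c7b76a3b7b92416377aaae3a172fb358e9bf07bcfe7169a5d92add9a04fa77307cc46470fb7d674a1089c26b51cca13fb6129bf40294e9ef3b1131804041d0c86de06d (k8 c22545 c23837 c117 c6205 c118 c19427 c9696 c19421 (k8 c9730 c23806 c22786 c8792 c23840 c23561 c5565 c1113 (k8 c21947 c5572 c5209 c5317 c5422 c5564 c267 c266 (k8 c23800 c5574 c16463 c5517 c5520 c5331 c17998 c23841 (k8 c10409 c5566 c5380 c5401 c5573 c1177 c20768 c13297 (k8 c5571 c728 c23464 c10425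 c5536 c726 c23671 c62 (k8 c5433 c23838 c1281 c5519 c5518 c5516 c5334 c5333 (k8 c5332 c18018 c22743 c6193 c5665 c20804 c1139 c23455 (k8 c5682 c2569 c2554 c2555 c5453 c1770 c1589 c5689 k0))))))))) (by decide +kernel)
def c23843 : PP 9 3 T 0x4000000000000014000000040000000000000000000000000000100100010000000000000000001100000000000000010000000000200000010000000008 := rS 0x813f09515549a83e232491e959d129bf406d (k8 c22545 c23561 c5565 c1113 c23806 c23800 c5520 c5334 (k8 c5331 c5517 c5665 c20804 c1139 c23455 c23817 c461 (k1 c2631 k0))) (by decide +kernel)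
def c23844 : PP 9 3 T 0x4000000000001000000040000000000000100000004000000000000000000000000000400000000000000000000000000000000000000000000000000 := rS 0x434099e7925267690122359abdf4a0d1251d0bac7c0d163fbcfe7169a5d92add9a04fa77307cc46470fb7d674a1089c26b51cca13fb6129bf40294e9ef3b1131804041d0c86de06d (k8 c22545 c23837 c117 c6205 c118 c19427 c9696 c19421 (k8 c9730 c23806 c22786 c8792 c23840 c23561 c5565 c1113 (k8 c21947 c5572 c5209 c5317 c5422 c5564 c267 c266 (k8 c23800 c5574 c16463 c5517 c5520 c5331 c17998 c23841 (k8 c10409 c5566 c5380 c5401 c5573 c1177 c20768 c13297 (k8 c5571 c728 c23464 c726 c20815 c10425 c19809 c5433 (k8 c23838 c23842 c429 c430 c5450 c1589 c5689 c1764 (k8 c2145 c23843 c5530 c17828 c23373 c1587 c461 c20854 (k1 c10690 k0))))))))) (by decide +kernel)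
def c23845 : PP 9 3 T 0x1000000040000000000000100000004000000000000000000000000000400000000000000000000000000000000000000000000000000 := rS 0x40089b5f17bd36e1699fcefe063a5cc1f36fab56a9f599c76cb114a04fa1f119248f4ad986c3ac90c98c422709894dfa04e9ec059d888063af01c8f6506d (k8 c22545 c5209 c5436 c5317 c23837 c23838 c9696 c9730 (k8 c23806 c19427 c22786 c8792 c23561 c5565 c1113 c5564 (k8 c267 c266 c19421 c6205 c1177 c118 c117 c5401 (k8 c23800 c5520 c5334 c5331 c5517 c5566 c5380 c23840 (k8 c19809 c21947 c5571 c5574 c5572 c5422 c5573 c16463 (k8 c17998 c23841 c20768 c726 c10425 c10409 c728 c13297 (k8 c10249 c5536 c23464 c23844 c17720 c22689 c23843 c3066 k0))))))) (by decide +kernel)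
def c23846 : PP 9 3 T 0x21000000040000000000000000000000000000000000000002000000000080000000000000008000000000000000000000000000000000 := rS 0x3be76686ccc601 (k4 c9696 c19421 c5401 c799 (k2 c798 c5493 (k1 c20358 k0))) (by decide +kernel)
def c23847 : PP 9 3 T 0x1000000040000000000000100000004000000000000000000000000000000000000000000000000000000000000000000000000000000 := rS 0x3be976933600876f6d1229a63265fe452f7b9c29330edd94171cca032811d87c46f5a56ccc6211384f409d3d80b3b1100c75e06d (k8 c22545 c23837 c23838 c9696 c9730 c23806 c19427 c22786 (k8 c8792 c23561 c5564 c267 c266 c19421 c5401 c23800 (k8 c5519 c5331 c5517 c5332 c5380 c6205 c5209 c5317 (k8 c5433 c23845 c5420 c1755 c1754 c1718 c5229 c5663 (k8 c5582 c5586 c1521 c22898 c6193 c801 c8100 c1327 (k4 c23846 c20935 c22612 c2952 (k2 c1232 c5496 (k1 c17795 k0)))))))) (by decide +kernel)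
def c23848 : PP 9 3 T 0x8000000000000002000000040000000000000000000000000000000000000002000000000000000000001000000000000000000008000100000000000000 := rS 0x188587e81469f741294c87c463ba5084046d (k8 c22545 c19427 c266 c23800 c5332 c5331 c5517 c5447 (k8 c18438 c23561 c5566 c5381 c5380 c407 c17923 c22611 (k1 c1214 k0))) (by decide +kernel)
def c23849 : PP 9 3 T 0x8000000000000000000000040000000000000100000004000000000000000000000000000000000000000000000000000000000000000200000000000000 := rS 0x683f188200e7909e80661994a643e231dd28429d3de762201efb5d429565edb6002782bcae6d (k8 c22545 c21872 c5584 c23837 c19427 c23847 c22626 c5420 (k8 c5446 c5398 c5507 c17832 c9696 c9730 c23806 c22786 (k8 c8792 c266 c23800 c5332 c5331 c5517 c5447 c18438 (k8 c6205 c385 c23561 c5564 c2382 c8203 c5643 c20764 (k2 c275 c5653 (k1 c22613 k0)))))) (by decide +kernel)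
def c23850 : PP 9 3 T 0x80000000040000000000000000000000000000000100000000000000000000000000000000000000000000000004000000001100000000 := rS 0x1af6b1437e80474aceacc526d (k8 c22545 c5417 c5574 c23806 c23800 c5331 c23561 c5565 (k4 c17941 c17828 c1139 c5665 k0)) (by decide +kernel)
def c23851 : PP 9 3 T 0x8000000000000000000000040000000000000100000004000000000000000000000000000000000000000000000000000000000000000000000000000000 := rS 0x1ca74f79d256db602537e80420288805e06d (k8 c22545 c23837 c9696 c9730 c19427 c266 c23561 c5565 (k8 c1113 c23847 c22626 c23850 c23806 c22786 c8792 c23849 (k1 c23848 k0))) (by decide +kernel)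
def c23852 : PP 9 3 T 0x4000000000000002000000040000000000000100000000000000100000000002000000000000000000000000000000000000000000000100000000000000 := rS 0x40606906a21bdbe070b459ed366b5cf27763b8cfe96181040c3f6f859028d899f51e0b1b8cc322709ca5321f118ee949d3de7566cb14ad495b6129bf402101444026d (k8 c22545 c9696 c9730 c19427 c266 c23561 c5565 c1113 (k8 c22626 c23850 c5422 c5417 c5420 c5574 c23806 c22786 (k8 c8792 c23800 c5332 c5331 c5517 c5447 c18438 c5564 (k8 c267 c6205 c385 c5518 c5516 c5568 c5566 c5382 (k8 c5381 c5380 c17923 c16463 c407 c1108 c1736 c1214 (k8 c1213 c677 c18213 c674 c673 c1454 c18221 c1917 (k8 c1919 c1473 c20869 c10249 c5669 c23390 c20853 c20751 (k4 c3610 c10690 c3073 c21172 k0)))))))) (by decide +kernel)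
def c23853 : PP 9 3 T 0x40000000000000100000004000000000000000000000000000000000000000000000000000000000000000000000000000000 := rS 0x6fa407a3f3582368c6039e7c238f7ad596b338eda52994dec23a9d3d886220200bc0267dd00ec3e23a5674ae6d (k8 c22545 c21872 c23806 c23800 c5331 c5517 c5332 c23561 (k8 c5566 c5564 c23837 c9696 c19427 c9730 c266 c22786 (k8 c8792 c23838 c23847 c5397 c5447 c18438 c22626 c5571 (k8 c5574 c5420 c5422 c23851 c23852 c5534 c2382 c8203 (k8 c5669 c22619 c5643 c2482 c275 c1512 c17856 c14968 (k1 c17865 k0)))))) (by decide +kernel)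
def c23854 : PP 9 3 T 0x40000000000000000000000000000002100000000000000000000000000000000000000000000000000000000000000000000 := rS 0xd7b537e833a6d (k4 c22545 c23806 c23561 c5565 (k2 c5414 c1139 (k1 c5665 k0))) (by decide +kernel)
def c23855 : PP 9 3 T 0x2000000040000000000000200000000000000000000000002000000000000000000001000000000000000000000000200000000000000 := rS 0x1af6ab28aedd6a2710c442e020084d1fa00f88c934ace894524b49a86526d (k8 c22545 c5317 c5398 c5444 c5342 c5339 c5559 c23806 (k8 c23800 c5334 c5331 c5517 c23561 c5568 c5564 c9696 (k8 c19427 c23470 c9730 c266 c267 c16347 c23850 c23854 (k4 c18060 c5532 c2377 c5665 k0)))) (by decide +kernel)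
def c23856 : PP 9 3 T 0x40000000000000000000000000000000100000000000000000000000800000000000000000000000000000000000000000000 := rS 0xd7b547e833a6d (k4 c22545 c23806 c23561 c5568 (k2 c5532 c2377 (k1 c5665 k0))) (by decide +kernel)
def c23857 : PP 9 3 T 0x12000000040000000000000000000004000000000100000000000000000000000000001000000000000000000000000200000000000000 := rS 0x672f81b64c719808d4017bbd6959d64a6cc29594f84f2f1ac014da57 (k8 c21872 c22545 c21870 c23853 c23855 c2382 c5534 c5317 (k8 c5446 c5445 c5397 c5396 c23806 c23800 c5519 c5333 (k8 c17712 c5665 c5642 c23450 c2482 c22131 c22619 c10245 (k2 c5487 c23057 k0)))) (by decide +kernel)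
def c23858 : PP 9 3 T 0x2000000040000000000000000000004000000000000000000000000000000000000001000000000000800000000000200000000000000 := rS 0x66d917c0c330131c021f11bddeb4aceb2536614aca7c27978d600a57 (k8 c21872 c21870 c23853 c23855 c2382 c5534 c5317 c5446 (k8 c5445 c5397 c5396 c23806 c23800 c5519 c5333 c5331 (k8 c5517 c1058 c2482 c5642 c23450 c22633 c10245 c22131 (k2 c23057 c5487 k0)))) (by decide +kernel)
def c23859 : PP 9 3 T 0x2000000040000000000000000000004000000000100000000000000000000000000001000000000000000000000000200000100000001 := rS 0xb0d169b21386c660209e803e237b92416377ad2b3a2949a8652f18aedc4a4bac2cf6805 (k8 c21870 c23857 c23856 c23853 c5342 c5559 c23850 c23854 (k8 c23855 c5317 c5398 c5444 c5339 c23806 c23800 c5519 (k8 c5518 c5516 c5334 c5333 c5331 c5517 c23561 c5564 (k8 c5642 c23450 c20794 c267 c22131 c18060 c22616 c16347 (k1 c1620 k0))))) (by decide +kernel)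
def c23860 : PP 9 3 T 0x28000200000000000000000000000000000000000100000000000000000000000000000000000000000400000000000000000000010002 := rS 0x160fd39a34de71 (k4 c667 c5565 c5381 c5379 (k2 c5405 c20843 (k1 c23591 k0))) (by decide +kernel)
def c23861 : PP 9 3 T 0x20000000040000000000000000000004000000000100000001000000000000000200000000000000000400000000000000000000000002 := rS 0xebf3401fa50463b58 (k8 c23853 c5341 c5558 c23800 c5517 c23561 c23591 c2177 (k1 c20237 k0)) (by decide +kernel)
def c23862 : PP 9 3 T 0x4001800000000064000000040000000000800200000000000000000040000000000000000000000000000000000000000080000000004015000000000002 := rS 0x7c2fdf7be7d30377d2f97722bd5e80924726d2b3a551e9049653 (k8 c5563 c5342 c5340 c5560 c5343 c23806 c23800 c5521 (k8 c5520 c5334 c23561 c5600 c5601 c17701 c18075 c23699 (k8 c669 c1062 c5189 c5667 c17833 c982 c5202 c5511 k0))) (by decide +kernel)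
def c23863 : PP 9 3 T 0x4000000000104010200000000000000400000000004000000000040000000000005800000000000000000000000400000000000000000000000000000 := rS 0xed75fdef0ef86795bb0bbfe3e4bf0d22364f8d (k8 c5569 c5383 c5381 c5213 c5230 c5391 c5608 c5389 (k8 c5629 c5513 c23115 c20753 c1838 c20744 c5640 c3360 (k2 c3482 c5693 k0))) (by decide +kernel)
def c23864 : PP 9 3 T 0x12000040000000000400000000000000100000000000000000005000004000000000000000000400000000000000000000000000040 := rS 0x60f975b21bfe3c1057 (k8 c21872 c5643 c5608 c5389 c5606 c5911 c23115 c277 (k1 c5656 k0)) (by decide +kernel)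
def c23865 : PP 9 3 T 0x1004000000000006000000040040000000400000000004000100000040002000000005800000014000001040000000400000000000000000000000800040 := rS 0x107f8c17eb8273377c9a584b0f22bb53ee35208d028d4ac94da553257 (k8 c21872 c5447 c5446 c5397 c5396 c5399 c5449 c23561 (k8 c5643 c4320 c23863 c5428 c5430 c5615 c1794 c2681 (k8 c23864 c5217 c5471 c17955 c3619 c5633 c3392 c5626 (k2 c3442 c5695 k0)))) (by decide +kernel)
def c23866 : PP 9 3 T 0x2000000040000000000000000000000000000000000000000000000000400000000000000000000010000000000004000000000000084 := rS 0xbe1939a04de7dd027cc661 (k8 c5445 c5395 c5448 c23561 c5566 c5565 c5380 c5379 (k2 c6205 c1451 (k1 c22861 k0))) (by decide +kernel)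
def c23867 : PP 9 3 T 0x1004000000000046000000040000000000400000000004000100000040002000000005800000016100001040000000400000000000000000000000800040 := rS 0x6195c95 (k4 c5446 c23766 c23865 c4126 k0) (by decide +kernel)
def c23868 : PP 9 3 T 0x1000000000000022001000040040000000400000000000000100000000002000000005000000000000001040000000000000000000000000000000000000 := rS 0x107f8c17eb8284b99bb915da9fc9b851a95929b4aa6572b7 (k8 c5533 c5415 c5447 c5446 c5397 c5396 c5399 c5449 (k8 c5213 c5217 c5428 c5430 c5615 c5471 c17955 c2681 (k4 c3619 c5633 c3392 c5626 (k2 c3442 c5695 k0)))) (by decide +kernel)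
def c23869 : PP 9 3 T 0x40000000000000026000000040000000000400000000004000000000000006000000000500000002000001000000000410000000000000215000020000040 := rS 0x83dee0b097239fe0c2dce26ff8bd261da38557110e72737e3476431e9063a9778d61b6d36cfb7bc3f7037d37e346a04fa79d07873a49a56a50ec6044a6fa57 (k8 c21872 c19423 c5317 c5643 c274 c798 c17686 c23800 (k8 c5334 c23806 c5534 c23561 c2382 c5566 c5380 c5381 (k8 c20755 c5397 c2514 c18204 c3056 c5653 c17700 c5497 (k8 c5496 c5455 c23853 c23855 c20460 c5341 c5340 c5560 (k8 c5561 c5332 c5569 c5565 c5383 c5379 c3588 c336 (k8 c17742 c22917 c4126 c23868 c5390 c5389 c5610 c17948 (k8 c23864 c5230 c1724 c598 c5514 c5628 c803 c3351 (k1 c20771 k0)))))))) (by decide +kernel)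
def c23870 : PP 9 3 T 0x1004000000000046002000040000000000400000000004000100000040002000000005800000016100001040000000410000000000000000000120000040 := rS 0x44c20997b775f85f7073939bf414aac24d43a9042b92a57 (k8 c21872 c5446 c23766 c5643 c17686 c5398 c5444 c23853 (k8 c23800 c23561 c5565 c5383 c5379 c23863 c23867 c5431 (k4 c5613 c5617 c16347 c17957 (k2 c2986 c17742 k0)))) (by decide +kernel)
def c23871 : PP 9 3 T 0x40000000000000066000000040000000000400000000004000000000000002000000000000000002100001000000000410000000000000215000120000040 := rS 0x21da4c3b415d026b255c64b5cadd2ef1ac36db3edef3fdc0df4df8d1ad594a04fa79d07873a57 (k8 c21872 c23806 c5534 c23561 c2382 c5566 c5380 c5317 (k8 c21680 c5381 c20755 c5397 c2514 c18204 c2573 c5653 (k8 c17700 c5497 c5455 c23853 c23855 c20460 c5533 c5415 (k8 c5342 c2617 c5446 c23869 c1721 c23766 c10298 c4126 (k2 c23868 c23870 (k1 c4593 k0)))))) (by decide +kernel)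
def c23872 : PP 9 3 T 0x40000000000000066000000040000000000000000000004000000000000002004000000000000002100001000000000400000000000000215000120000002 := rS 0x833720ac184d1ef383be606efa5dcebf5a2bd5946dec3b33a418c60401d963f7037c3e237b9249ef526d2b3a634df84f2b95b80ce211ac78d1ad5409f740db6cf7a5257 (k8 c21872 c5317 c5653 c5497 c5455 c23561 c5566 c5380 (k8 c21680 c5381 c20755 c23853 c5558 c667 c28 c5533 (k8 c5415 c2382 c5534 c5397 c5395 c23806 c23800 c5521 (k8 c5519 c5335 c5334 c5333 c5331 c5517 c2514 c18204 (k8 c3056 c1718 c23866 c5643 c274 c273 c4766 c23871 (k8 c5348 c5349 c5350 c5600 c5601 c5602 c5603 c17701 (k8 c23699 c669 c1062 c5667 c20797 c814 c338 c2682 (k4 c278 c18070 c3589 c18009 (k1 c2156 k0))))))))) (by decide +kernel)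
def c23873 : PP 9 3 T 0x4000000000000002000000040000000000000000000004000000000100002000000000000000000000001000000000000000000000000204000100000000 := rS 0x1ae45803fe06905a92694e38aacfe671ce9cc38f3f19dd1ad5409f5a7edef0d527291886d63b71292f660035847409578d63686d (k8 c22545 c23857 c23853 c23855 c5446 c23561 c5558 c23858 (k8 c23859 c23860 c5342 c5559 c23850 c23861 c21702 c9332 (k8 c5317 c5444 c23229 c5653 c17700 c5496 c5566 c5380 (k8 c21680 c5381 c23210 c20755 c23227 c5649 c5379 c23806 (k8 c667 c20111 c23856 c23854 c2617 c23800 c5334 c23872 (k4 c15768 c2631 c20750 c21172 (k2 c9612 c2146 (k1 c23767 k0)))))))) (by decide +kernel)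
def c23874 : PP 9 3 T 0x40000000000000000000000000000000000000200000000000000000000004000000000560000000000000000000000000000000001004015000000000000 := rS 0x44218f4831d (k4 c5341 c5340 c5560 c5561 (k2 c3588 c22917 k0)) (by decide +kernel)
def c23875 : PP 9 3 T 0x4000000000000002000000040000000000000000000004000000000100000000000000000000001000001000000000000000000000000204000100000000 := rS 0x83fc60bf5c1425ccddf269722bb53df70bb8b39121eae8135b520803b2c7ee06fe1ccc5a4809a4e6fc68ec3e232491e942951a95929b4cf84f31559ae56e03f9e74e61c4bf8cee8d6aa04fadb69b67daff38b41fbde1aa4e52310dac76e2525ecc006b08e812af1ac6d0ae6d (k8 c22545 c21872 c23857 c23853 c23855 c5446 c23561 c5558 (k8 c23858 c23859 c23860 c5342 c5559 c23850 c23861 c21702 (k8 c9332 c5317 c5444 c23229 c5653 c23873 c13565 c667 (k8 c20936 c17700 c5497 c5496 c5455 c5566 c5380 c21680 (k8 c5381 c23210 c20755 c20460 c5649 c5379 c23806 c20111 (k8 c28 c5533 c5415 c23856 c23854 c2382 c5534 c5447 (k8 c5397 c5396 c5399 c5449 c5339 c23800 c5520 c5334 (k8 c5331 c5517 c5332 c5569 c5565 c5383 c3584 c15768 (k8 c9793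 c1994 c4564 c10336 c18204 c3056 c1718 c23866 (k8 c5643 c17686 c23874 c1721 c23766 c4593 c2986 c23862 (k8 c23863 c17742 c19423 c5428 c5430 c5615 c17948 c5217 (k8 c5471 c17955 c2243 c3619 c5633 c3392 c5626 c3443 (k1 c5695 k0))))))))))))) (by decide +kernel)
def c23876 : PP 9 3 T 0x4000000000000002000000040000000000000000000004000000000100000000000000000000000000001000000000000000000000000204000100000000 := rS 0x6b9155eb47eb4fc7de6a9dd028d3eca43835498c436b1db89497b3006d0d611d0255e358 (k8 c23853 c23855 c5446 c23561 c5558 c23858 c23857 c23859 (k8 c23860 c5342 c5559 c23850 c23861 c21702 c9332 c5444 (k8 c23229 c5649 c5317 c5566 c5381 c5380 c23210 c21680 (k8 c5653 c20755 c5496 c23873 c23875 c1248 c336 c23766 (k1 c23767 k0))))) (by decide +kernel)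
def c23877 : PP 9 3 T 0x6004400000000044000000000000000000000200000000000000000000000050000400000000000040004010000000000000000001400000000020000000 := rS 0x100 (k2 c18785 c5502 k0) (by decide +kernel)
def c23878 : PP 9 3 T 0x4000000000000002000000040000000000000000000004000000000100000000000000000000000000001000000000000000000000000200000100000000 := rS 0x7b15fe3651fcbed703027be320e06d63b3f99c401b4db9cf40f724bd48f4ace894231d4fa84c695f0b8c96f1ac1acae6d (k8 c22545 c21872 c23858 c23853 c23855 c5342 c2617 c5534 (k8 c5446 c5395 c5398 c5448 c5341 c5558 c5559 c23806 (k8 c23800 c5520 c5519 c5334 c5333 c23561 c5379 c23850 (k8 c23857 c23859 c667 c20111 c23860 c23861 c21702 c5649 (k8 c23876 c5492 c20738 c20297 c2185 c1055 c676 c19981 (k4 c5464 c1247 c5204 c23877 k0)))))) (by decide +kernel)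
def c23879 : PP 9 3 T 0x4000400000000004000000040000000000000000000004000000001200000001000000004800000000000010000000000000000000000210000020000000 := rS 0x40606ff54348ccd7228c9aa3179ac740f724bd48f4a1290e3b297192dfa7100046b1e3 (k8 c5464 c23853 c5558 c9730 c667 c20808 c5342 c2617 (k8 c5317 c5341 c5561 c5559 c23800 c5520 c5519 c5334 (k8 c5333 c23561 c2177 c334 c1996 c1661 c5653 c390 (k8 c2185 c20217 c5689 c883 c2943 c2088 c2027 c18038 k0)))) (by decide +kernel)
def c23880 : PP 9 3 T 0x6000000000000000000000000000004000100000000000001000000000000000000000000000000000000000000000000000010000082 := rS 0x641a33b24c295 (k4 c5446 c5445 c5396 c664 (k2 c5649 c23188 (k1 c2043 k0))) (by decide +kernel)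
def c23881 : PP 9 3 T 0x4000000000000006000000040000000000000000000004000000001200000001000000000000000000000000000000000000000000000200000000000000 := rS 0x15ed64bf79621c40a34fb1d4a8259e35dbb28fe063d31fc39d9497cf263388002358509cf4057 (k8 c21872 c23561 c5379 c5398 c23853 c5558 c9730 c667 (k8 c5395 c2382 c1268 c5317 c23806 c5534 c796 c5669 (k8 c17741 c676 c19981 c17744 c20806 c20767 c274 c5446 (k8 c5341 c5566 c5381 c5380 c23880 c2177 c23879 c5452 (k2 c20859 c1246 (k1 c23766 k0)))))) (by decide +kernel)
def c23882 : PP 9 3 T 0x4000000000000002000000040000000000000000000004000000000200000000000000000000000000001000000000000000000000000200000000000000 := rS 0xd33b355601d4beca2be3651fc0c7a3880cbec7001cd1a6fd067422a131b2653e13cbc6b057 (k8 c21872 c23853 c23855 c2382 c5534 c5317 c5396 c5395 (k8 c5398 c5558 c23806 c23561 c5565 c5381 c5379 c9730 (k8 c796 c1268 c28 c667 c5669 c17741 c676 c19981 (k8 c5464 c1292 c23881 c5404 c5486 c20843 c19360 c20822 (k2 c2085 c10131 k0))))) (by decide +kernel)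
def c23883 : PP 9 3 T 0x4000000000000002000000040000000000000000000004000000000000000000000000000000000000001000000000000000000000000200000000000000 := rS 0x41b4889af3a6d (k4 c22545 c23806 c23858 c23882 (k2 c5665 c23878 (k1 c5528 k0))) (by decide +kernel)
def c23884 : PP 9 3 T 0x2000000040000000000000000000004000000000100000000000000000000000000002000000000000000000000000200000000000000 := rS 0x2240de5ed7fbf764e0f9bc56816dbb544e1d0d8d4bc21548cc0406639a8027a59c555613d007c46f724bd6959d1290c7a2925d61929b30a665279da814da57 (k8 c21872 c22545 c21870 c5412 c2382 c5317 c5447 c5445 (k8 c5397 c5396 c23853 c5342 c5339 c5560 c5561 c5559 (k8 c23806 c23800 c5519 c5334 c5333 c5331 c5517 c23561 (k8 c5564 c20861 c23854 c23856 c8792 c17712 c5665 c162 (k8 c17741 c5642 c23450 c20804 c2372 c1135 c20806 c20794 (k8 c20811 c267 c21481 c23850 c1450 c18060 c23470 c5548 (k8 c1343 c22131 c20237 c3012 c18101 c3581 c2627 c14437 (k1 c9612 k0)))))))) (by decide +kernel)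
def c23885 : PP 9 3 T 0x4000000000000002000000040000000000000000000004000000000000000000000000000000000000000000000000000000000000000200000000000000 := rS 0xd33b355601d4beca2be3651fc0c7a38bc4065f63802209c719e7c32939a34dfa0ce84497585098d9257 (k8 c21872 c5396 c5395 c5398 c23853 c5342 c5558 c23806 (k8 c23561 c5565 c5381 c5379 c5317 c5534 c2382 c2617 (k8 c23883 c23884 c9730 c796 c1268 c28 c9696 c667 (k8 c5669 c17741 c676 c19981 c5464 c1293 c23881 c5404 (k4 c5486 c20843 c19360 c20822 (k2 c2085 c10131 k0)))))) (by decide +kernel)
def c23886 : PP 9 3 T 0x400000000000000a000200000000000000000000000000000000000000000000000000000000000000000000000000000000000000000000000000010082 := rS 0x3c4ca6a9d8fe5f5098c06970eb4d608d399bce2c9 (k8 c5396 c667 c5565 c5379 c5381 c20843 c2085 c5486 (k8 c5404 c28 c5395 c5398 c1451 c676 c20822 c19360 (k2 c19981 c10131 (k1 c5464 k0)))) (by decide +kernel)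
def c23887 : PP 9 3 T 0x400000000000000a000200000000000000000000000000000000000200000000000000000000000000002000000000010000400000000000000000000000 := rS 0x32fc4766a9e4fa8f4f98cc2954b99da6b0469ccdec9 (k8 c5396 c5565 c5379 c5381 c20843 c2085 c5487 c5404 (k8 c5446 c5445 c5395 c5448 c5568 c5566 c1537 c19360 (k4 c20791 c10131 c5464 c22667 k0))) (by decide +kernel)
def c23888 : PP 9 3 T 0x400000000000000a000000040000000000000000000004000000000200000000000000000000000000002000000000000000000000000000000000000000 := rS 0x40dfff379389becd1f8c46b293d9e010162f0cc0f0167ac3dbb733a5d1a13379f51e3b7b9246ef523d28824b1c9ad6a73d03476b9d7eb1cc67100046b057 (k8 c21872 c23853 c5558 c9730 c667 c5395 c796 c20808 (k8 c23806 c5411 c23003 c23561 c5379 c1340 c159 c23885 (k8 c5342 c5340 c23800 c5520 c5519 c5518 c5334 c5333 (k8 c5332 c5568 c5566 c5565 c5564 c5381 c5404 c5487 (k8 c19230 c19358 c20843 c1650 c2144 c23886 c20297 c23887 (k8 c1054 c1055 c1268 c1687 c5433 c1619 c20764 c275 (k8 c20785 c2387 c19935 c23020 c5549 c2574 c2627 c5694 k0))))))) (by decide +kernel)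
def c23889 : PP 9 3 T 0x4000000000000004000000040000000000000000000004000000000200000000000000000040000000002004000000000000800000000100000000000000 := rS 0x7562671a2ad0fecdbc5195f37137d9a3f188ccf6780401c267d47e8076491bbd48f4a1290c824b35b476b9d7e80de27100046b057 (k8 c21872 c23853 c5558 c9730 c667 c9696 c28 c20808 (k8 c23806 c5411 c23003 c159 c5342 c5340 c5561 c5559 (k8 c23800 c5520 c5519 c5518 c5334 c5332 c23561 c5568 (k8 c5566 c5564 c1451 c1055 c1268 c1687 c20297 c20764 (k8 c275 c20785 c2387 c19935 c5549 c1777 c1778 c5420 (k8 c5201 c5499 c5500 c18037 c882 c1294 c331 c18384 k0)))))) (by decide +kernel)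
def c23890 : PP 9 3 T 0x42000000040000000000000200000000000200000200000000000000000000000000000000000008000000000000000000000000000000 := rS 0x8a37be67e59a40267d128447a2949a876a005a9cf40091dd28ae0f (k8 c21871 c21872 c23800 c5332 c1684 c23561 c5379 c1340 (k8 c9730 c5411 c5398 c5444 c5339 c5560 c5558 c5559 (k8 c5566 c5564 c17811 c14797 c12670 c5589 c892 c5685 (k1 c2950 k0)))) (by decide +kernel)
def c23891 : PP 9 3 T 0x6000000040000000000000000000004000000000200000000000000000000000000000000000008000040400000000000000000000000 := rS 0x446ab2962323f8700d29db9cf402521c754263649852af1388002358048ee9457 (k8 c21872 c23800 c5332 c1684 c23853 c5558 c9730 c667 (k8 c9696 c5446 c5445 c5396 c5395 c5398 c5341 c5561 (k8 c5559 c23561 c5379 c23821 c23890 c5643 c23880 c676 (k4 c23057 c2177 c19981 c1661 (k2 c20217 c390 k0))))) (by decide +kernel)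
def c23892 : PP 9 3 T 0x1001000000000000000000000000000000000200080000000000000000050004000000104000000000000000000000000000000000000008000000000000 := rS 0x1fe45663dc92f52390e3a4b (k8 c5342 c5341 c5561 c5520 c5519 c5334 c5333 c12046 (k2 c390 c2507 (k1 c3593 k0))) (by decide +kernel)
def c23893 : PP 9 3 T 0x4001000000000006000000040000000000000200000000000000000200000004000000004000000100000000008000000000400000000111000000000080 := rS 0x330ee3380b57e4cadb9fce7a01dbdc6ef5a5284c6d1dae75fa7100047db03 (k8 c10690 c5499 c5558 c9730 c667 c20808 c23806 c5411 (k8 c23003 c5395 c5398 c23800 c5519 c5518 c5333 c5332 (k8 c23561 c5379 c676 c17744 c19981 c5201 c1661 c5592 (k4 c23892 c673 c3587 c2073 k0)))) (by decide +kernel)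
def c23894 : PP 9 3 T 0x4000000000000002000000040000000000000000000004000000000200000000000000000000000000002000000000000000000000000000000000000000 := rS 0xdbca00ef3188d562860e06ccccf3d1e4bfb3f0a37419d14d6126a14a8e5fac731bc40005 (k8 c21870 c9730 c9696 c5395 c796 c20808 c23885 c5446 (k8 c5398 c5444 c23853 c5339 c23806 c23561 c5381 c5458 (k8 c23888 c23889 c1537 c5669 c20767 c23891 c1903 c664 (k8 c882 c2179 c23229 c9332 c334 c23893 c17741 c19210 (k1 c23890 k0))))) (by decide +kernel)
def c23895 : PP 9 3 T 0x2000000040000000000000200000000000200000200000000000000000000000000000000000008000000000000000000000000000000 := rS 0xdb8a526a1 (k4 c5398 c5444 c5339 c19210 (k1 c23890 k0)) (by decide +kernel)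
def c23896 : PP 9 3 T 0x4000000000000002000000040000000000000000000004000000000200000000000000000000000000000000000008000000000000000000000000000000 := rS 0xc5e6b143070cdb31a81a520967f851ba01dd2823584a8e5faf10017d3a57 (k8 c21872 c23894 c1267 c9730 c9696 c20808 c23885 c5446 (k8 c23853 c5558 c23800 c5332 c23561 c5381 c5457 c20767 (k8 c1684 c23895 c5643 c20806 c23886 c23891 c23880 c882 (k4 c2179 c334 c1996 c23893 k0)))) (by decide +kernel)
def c23897 : PP 9 3 T 0x12000000040000000000000000000000000000000000000000000000000040001000001000000004010000400000000000000000010080 := rS 0x122b28ab2b6ff33f9e4e681899f46f4a4fa84c6996fa3f419d (k8 c23806 c23561 c5568 c14796 c5447 c5395 c5398 c5448 (k8 c23800 c5518 c5566 c5382 c5380 c5379 c1454 c676 (k4 c20087 c17744 c19981 c1292 (k2 c5685 c12151 (k1 c22094 k0))))) (by decide +kernel)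
def c23898 : PP 9 3 T 0x4000000000000002000000040000000000000000000004000000000200000000000000000000000000000000000000000000000000000000000000000000 := rS 0x32c4f1459fcdc5b70b8fc100794b7dc27b2fa74e2c75a8036a193984cfa8fd00ec923723d2b3a25088f4524125d61269f5098d3257 (k8 c21872 c5447 c5395 c5398 c5448 c5444 c23853 c5342 (k8 c5340 c5339 c5560 c5558 c5559 c23806 c23800 c5520 (k8 c5518 c5334 c5332 c23561 c5568 c5566 c5564 c5379 (k8 c6205 c5411 c9730 c1340 c796 c667 c23894 c1267 (k8 c23896 c10249 c14796 c19369 c23897 c5643 c275 c1506 (k8 c17858 c19935 c5549 c2458 c5685 c3046 c1292 c3579 k0)))))) (by decide +kernel)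
def c23899 : PP 9 3 T 0x12000000040000000000000000000000000000000100000000000000000000000000000000000000000000000000000000000000000040 := rS 0x18073a05 (k4 c21870 c23806 c17712 c22619 (k1 c5642 k0)) (by decide +kernel)
def c23900 : PP 9 3 T 0x4000000000000002000000040000000000000000000004000000000000000000000000000000000000000000000004000000000000000000000000000040 := rS 0x83fc60bf5c1425ccddf269587915da9dfbb8b3c3e04d6c3999c0ff2d2410e0d63785a1ed6cb4d9adbf1f792ed5799dc38350dac767f3389ade23f000c752030405a53b75b88573b419864e68146c4c267d47e80761f11bdc920b1bbd694111ed6126a352b2536954c8e53b9d8883cda57 (k8 c21872 c22545 c21871 c23898 c23806 c8792 c23885 c5447 (k8 c5446 c5397 c5396 c5399 c5449 c5444 c23853 c5560 (k8 c5558 c23800 c5519 c5518 c5516 c5334 c5333 c5331 (k8 c5517 c5332 c23561 c5568 c5566 c5564 c5382 c5381 (k8 c5380 c5379 c6205 c20297 c23899 c5415 c5528 c5533 (k8 c9399 c9578 c3578 c5643 c1108 c4320 c20764 c1507 (k8 c275 c19427 c1058 c667 c20111 c23860 c23861 c21702 (k8 c23229 c5649 c23210 c23227 c21481 c20460 c5653 c20755 (k8 c5455 c5495 c5496 c5497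 c17700 c23020 c5459 c20815 (k8 c2480 c798 c17964 c20774 c20750 c801 c1994 c4564 (k8 c23874 c1721 c4593 c23862 c23863 c23865 c5428 c5430 (k8 c5615 c1794 c23864 c5217 c5471 c17955 c2243 c3619 (k4 c5633 c3392 c5626 c3443 (k1 c5695 k0)))))))))))))) (by decide +kernel)
def c23901 : PP 9 3 T 0x2000000000000000000000000000000000100000100000000000000000040000000001000000005000000000000000000000040000102 := rS 0x5f4998d326d (k4 c22545 c5447 c5395 c5444 (k2 c1055 c18099 k0)) (by decide +kernel)
def c23902 : PP 9 3 T 0x4006000000000000000000040000000000000000000004000000000000000002000000000000002000000000000000000000000000000000000000800080 := rS 0x81ab90cd6679dd2c30198665235ef9fc23583c8de95a0 (k8 c23561 c23800 c5518 c1454 c23853 c5558 c676 c23643 (k8 c20806 c5432 c6205 c385 c1214 c1213 c673 c20518 (k4 c21412 c22445 c1768 c10690 (k1 c1249 k0)))) (by decide +kernel)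
def c23903 : PP 9 3 T 0x22000000040000000000000000000004000100000000000001000000000000000000000000000000000000000000000110000000000001 := rS 0x790c952f7058ddeb9d0dec9fa1d0107e9405 (k8 c21870 c23800 c5517 c5642 c20811 c20237 c22131 c20794 (k8 c23806 c5519 c5518 c5516 c5333 c5531 c22616 c17991 (k1 c387 k0))) (by decide +kernel)
def c23904 : PP 9 3 T 0x4000000000000002000000040000000000000000000004000000000000000000000000000000000000000000000004000000000000000000000000000000 := rS 0x66ce792a52efdd93c56816db89c421d0d80803e3f0335bee1689e58e35948240c9d0c84cfa8fd00ec3e237b92416377ad284a292092eb09364a6d2a991caaf3b1559c44da05 (k8 c21870 c22545 c23898 c23856 c23854 c23806 c20861 c23885 (k8 c5447 c5446 c5397 c5396 c5444 c23853 c5342 c5340 (k8 c5339 c5559 c23800 c5519 c5518 c5516 c5334 c5333 (k8 c5331 c5517 c5332 c23561 c5568 c5566 c5564 c6205 (k8 c8792 c23900 c30 c5432 c20806 c674 c1454 c20815 (k8 c10249 c14796 c23671 c5669 c17960 c23901 c5642 c20794 (k8 c20811 c266 c267 c23850 c3578 c18060 c23902 c22131 (k4 c20237 c5404 c5489 c3581 (k2 c3617 c22615 (k1 c20518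 k0)))))))))) (by decide +kernel)
def c23905 : PP 9 3 T 0x2000000040000000000000000000000000000000100000000000000000000000000001000000048000000000000000100000000010000 := rS 0x5aa45bce1f1b2be67135800065f0c9cd03a01d87c174acea84c69b4cc54da05 (k8 c21870 c22545 c23854 c5447 c5397 c5395 c5398 c23806 (k8 c23800 c5516 c5517 c5332 c23561 c5380 c5379 c6205 (k8 c1686 c22762 c5642 c1058 c667 c20111 c19981 c5464 (k4 c1718 c15912 c2948 c2514 (k1 c20140 k0))))) (by decide +kernel)
def c23906 : PP 9 3 T 0x44000000000000054000200000000000000000000000004000000000000000000000000000000000041000001000000000000000000000000010000000008 := rS 0x40958ff80a1d63ec78236268f (k8 c5568 c5382 c5381 c22131 c5201 c1330 c5499 c5502 (k4 c5544 c5683 c20819 c2034 k0)) (by decide +kernel)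
def c23907 : PP 9 3 T 0x44000000000000044000000040000000000000000000004000000000000000000000000000840000041002010000041400000000000004000000000000008 := rS 0x1afdf79b456290f63c3414a14d636be3 (k8 c5464 c5412 c23853 c5339 c23800 c23561 c22131 c5201 (k4 c23906 c1330 c5501 c5540 (k2 c21540 c23766 (k1 c19365 k0)))) (by decide +kernel)
def c23908 : PP 9 3 T 0x4000000000000002000000040000000000000000000004000000000000000000000000000000000000000000000000000000000000000000000000000080 := rS 0x1036b3c9aad37ea5de3b23b8ffc6af707cd94b40b6dc4e1d0d97842a9011a803b54e1fc32814684cfba00f88dee497a91e9425088a4975864a6d2a3955e762ab388b1cf2e3f09e80a6d (k8 c22545 c21870 c23904 c5457 c17695 c161 c162 c23898 (k8 c23856 c23854 c23806 c20861 c23885 c5446 c5397 c5396 (k8 c23853 c5342 c5339 c5558 c5559 c23800 c5520 c5519 (k8 c5334 c5333 c5331 c5517 c23561 c5566 c5564 c5381 (k8 c5380 c6205 c676 c23905 c5412 c17712 c5665 c5642 (k8 c20804 c2372 c1135 c20794 c20811 c267 c23850 c1450 (k8 c18060 c17490 c5548 c1343 c4071 c5464 c9334 c20185 (k8 c23907 c5401 c5404 c5405 c14403 c1660 c3581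 c20751 (k2 c2627 c1721 k0))))))))) (by decide +kernel)
def c23909 : PP 9 3 T 0x4000000000000002000000040000000000000000000004000000000000000000000000000000000000000000000000000000000000000000000000000000 := rS 0x6d250073d446959d (k8 c23806 c23800 c23898 c23904 c23908 c17741 c23899 c9578 k0) (by decide +kernel)
def c23910 : PP 9 3 T 0x22000000040000000000000000000004000000000100000000000000000000000000000000000008000000000000000000000000000000 := rS 0x680ca00de18bcdc3e30e32b67f338800d6f11c1fc6bdf0317c127340a34fba01dbddeb9d0890c97585098d2ad722fb93a2194d28da57 (k8 c21872 c22545 c23800 c9578 c5528 c5412 c23909 c5582 (k8 c5507 c5446 c5395 c5398 c23853 c5342 c5561 c5558 (k8 c23806 c5519 c5333 c5332 c23561 c5566 c5381 c5380 (k8 c5379 c1684 c1686 c17741 c20859 c20806 c676 c23905 (k8 c23855 c23858 c23859 c667 c20111 c23860 c19981 c23880 (k8 c5464 c1718 c333 c1996 c15912 c17894 c5653 c2953 (k1 c2129 k0))))))) (by decide +kernel)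
def c23911 : PP 9 3 T 0x22000000040000000000000000000004000000000100000000000000000000000000000000000000000000000000000000000000000080 := rS 0x699dc603378058027f1c9e58e3504865028d3ee80761f1182c6f9d0890eb0934da67dc9d10ca6947b (k8 c23910 c23800 c9578 c5528 c5412 c23909 c5447 c5397 (k8 c5444 c23853 c5561 c5558 c23806 c5518 c5516 c5331 (k8 c5517 c5332 c23561 c5566 c5381 c5380 c6205 c30 (k8 c20806 c674 c1454 c8203 c676 c23901 c3578 c23903 (k4 c385 c1214 c673 c1918 (k1 c20761 k0)))))) (by decide +kernel)
def c23912 : PP 9 3 T 0x22000000040000000000000000000004000000000100000000000000000000000000000000000000000000000000000000000000000001 := rS 0x171c864761f118dd269b4ca74420803ca69457 (k8 c21872 c23800 c9578 c23911 c5643 c5528 c5412 c5447 (k8 c5397 c5444 c5518 c5331 c5517 c5332 c6205 c23859 (k2 c1507 c3578 k0))) (by decide +kernel)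
def c23913 : PP 9 3 T 0x22000000040000000000000000000004000000000100000000000000000000000000000000000000000000000000000000000000000000 := rS 0x34bbc350d99b667135bc4003f1882066079484f401fa509422431e9063b5849ac5ae456afb80a57 (k8 c21872 c21870 c23909 c5585 c5582 c5507 c5506 c5444 (k8 c23853 c5341 c5340 c5560 c5561 c5558 c5559 c23800 (k8 c5517 c23561 c5564 c9578 c23911 c20297 c5643 c20764 (k8 c275 c23912 c9696 c1058 c667 c23860 c20217 c1903 (k4 c23229 c5653 c3588 c5496 k0))))) (by decide +kernel)
def c23914 : PP 9 3 T 0x2000000040000000000000000000004000000000100000000000000000000000000000000000000000000000000000000000000000000 := rS 0x348607719bc3be273f8d652090101803b50ca051a133ee833a250890c531dac2c5ae4557fb8ae05 (k8 c21870 c21872 c23909 c5584 c5582 c5507 c5506 c23853 (k8 c5341 c5339 c5561 c5558 c5559 c23806 c23561 c5566 (k8 c5564 c5381 c5380 c6205 c23913 c17712 c23899 c5642 (k8 c30 c5432 c20806 c676 c267 c20859 c23533 c385 (k4 c673 c5653 c20761 c1918 k0))))) (by decide +kernel)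
def c23915 : PP 9 3 T 0x40000000000000002000000040000000000000000000000000000002000000000000040000000001000000000000000010000400000000000000000010080 := rS 0x3c2e14e78d947f3c9cf4037a56754263 (k8 c5395 c5398 c23806 c23800 c5518 c23561 c5379 c1454 (k4 c676 c19981 c5464 c1292 (k2 c1719 c5458 (k1 c18204 k0)))) (by decide +kernel)
def c23916 : PP 9 3 T 0x40000000000000002000000040000000000000200000000000000002200000004000040004000000000000000000000000000000000000011000000000100 := rS 0xcc3d8e650330397c76f71bbd694b539e81a3b5cebf58e63388002257 (k8 c21872 c5558 c9730 c667 c5395 c796 c20808 c23806 (k8 c5411 c23003 c23561 c5379 c1340 c23800 c5519 c5518 (k8 c5333 c5332 c1055 c23915 c20297 c5643 c5317 c23895 (k2 c3587 c23671 k0)))) (by decide +kernel)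
def c23917 : PP 9 3 T 0x2000000040000000000000000000004000000000000000000000000000000000000000000000000000000000000000000000000000000 := rS 0x668e4f6330437e29f3803cd9e311aaa1561c0d99b667178b1da2fd006d6204558fb9329531a4ce68d37e8076f71bbd6959d12844871d25d60da05 (k8 c21870 c22545 c23853 c5342 c5341 c5561 c5558 c5559 (k8 c23806 c23800 c5519 c5518 c5333 c5332 c23561 c5565 (k8 c5381 c5379 c5444 c5395 c5446 c5447 c23909 c5506 (k8 c5582 c23914 c5411 c9730 c20808 c23003 c796 c9696 (k8 c667 c20843 c20217 c1903 c664 c2124 c883 c23229 (k8 c9332 c19730 c334 c17894 c5592 c2027 c2953 c23916 (k4 c20738 c1684 c274 c23671 (k1 c3587 k0)))))))) (by decide +kernel)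
def c23918 : PP 9 3 T 0x4000000040000000000000000000004000000000200000000000000000000000000000000000000000000000000000000000000000000 := rS 0x7bf6eb00d19c3a8d3789487f320fb6514a68ed73afdd8e81e27100046b005 (k8 c21870 c23853 c5558 c9730 c667 c9696 c23561 c23917 (k8 c20808 c23806 c5411 c23003 c23800 c5209 c16661 c5340 (k8 c22079 c5561 c5559 c5565 c5381 c23811 c664 c5649 (k4 c18384 c18705 c5506 c5201 k0)))) (by decide +kernel)
def c23919 : PP 9 3 T 0x40000000000000000000004000000000200000000000000000000000000000000000000000000000000000000000000000000 := rS 0xef32228b0db877649f7132dbee1311c5e3e3f02d401b539a34dfa01d9248f4ace844824bac4a3620f (k8 c21871 c23917 c5209 c23853 c5342 c5340 c5558 c23806 (k8 c23800 c5520 c5334 c5332 c23561 c5565 c5381 c5379 (k8 c5411 c9730 c1340 c5235 c19414 c9696 c667 c16365 (k8 c5460 c5538 c1322 c17934 c1608 c23918 c5486 c19230 (k4 c20843 c19386 c9422 c19603 (k1 c5494 k0)))))) (by decide +kernel)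
def c23920 : PP 9 3 T 0x4000200000000000000000000000004000000000000000000000000000000000100000000000000010000000000040000001010000002 := rS 0xcef1 (k2 c9696 c664 (k1 c18384 k0)) (by decide +kernel)
def c23921 : PP 9 3 T 0x8000000000000000000040000000000000000000004000000000000000000000000000000000000000000000004000000000000000000000000000000 := rS 0x21c713099f51fa01d924163723d2b3a111ed60723f946c41e57 (k8 c21872 c21871 c23917 c5209 c5318 c5317 c23853 c5560 (k8 c5558 c23806 c23800 c5520 c5518 c5516 c5334 c5332 (k8 c23561 c5568 c5566 c5564 c5382 c5466 c17898 c21032 k0))) (by decide +kernel)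
def c23922 : PP 9 3 T 0x40000000000000000000004000000000000000000000000000000000000000000000000000000000000000000000000000002 := rS 0xd36ab5da076333fc8ab413f8c6a1c66b7d2fb74c8853a7b312c767f3da1c4d6f101864e68dd00ec3e237b9246ef5a56744a11218f4531dac0cc723f0b8c651b18aace226d (k8 c22545 c23919 c23856 c23854 c23917 c5209 c5434 c5433 (k8 c5318 c5317 c5316 c23853 c5341 c5339 c5560 c5561 (k8 c5558 c5559 c23806 c23800 c5519 c5518 c5334 c5333 (k8 c5331 c5517 c5332 c23561 c5381 c5379 c6205 c28 (k8 c9696 c1058 c667 c17712 c20111 c23860 c23861 c16365 (k8 c20101 c5412 c5528 c5530 c9399 c20807 c14962 c23273 (k8 c23920 c332 c23921 c20222 c18060 c335 c2573 c20217 (k4 c777 c22997 c2187 c1711 (k2 c2136 c23874 k0))))))))) (by decide +kernel)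
def c23923 : PP 9 3 T 0x4000000000020000000040000000000000000000004000000000000000000000000000000000000000000000004000002000000000000000000000000 := rS 0x9350a6dc2dff031d9619409f4763723e747a411c85e51b1f9ad04e13d008c3e49a50a76e2525d622a210100567114ea64da05 (k8 c21870 c22545 c5530 c5412 c23919 c23856 c23922 c5642 (k8 c266 c23854 c23853 c5342 c5559 c23850 c5339 c23800 (k8 c5334 c5517 c5331 c23561 c5564 c267 c18060 c5548 (k8 c23917 c5209 c5433 c5317 c5340 c5560 c23806 c5520 (k8 c5518 c5332 c5566 c5380 c6205 c1755 c726 c10425 (k4 c18066 c10249 c5536 c19604 (k2 c11678 c6193 k0))))))) (by decide +kernel)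
def c23924 : PP 9 3 T 0x40000000000000000000004000000000000000000000000000000000000001000000000000001000000000000000000000000 := rS 0x907083594c64f9783313379f51e232482e942920d607217946c4c621138080213d003c0a6d (k8 c22545 c21870 c21871 c23561 c5564 c23922 c5642 c267 (k8 c266 c19421 c23917 c5209 c5433 c5317 c23853 c5340 (k8 c5339 c23800 c5516 c5334 c5331 c5568 c5566 c5565 (k8 c5382 c6205 c5663 c1522 c22898 c18420 c2480 c1718 (k2 c17964 c801 k0))))) (by decide +kernel)
def c23925 : PP 9 3 T 0x10000000040000000000000000000004000000000000000002000000000000000000000000000000000000000000000000000000000000 := rS 0x7bf66a1302753611f9ad04e131187c9229db894971559c44420200fb5a3e0ceca2b14ad8e80da05 (k8 c21870 c22545 c23561 c23917 c23800 c23853 c5209 c23806 (k8 c5235 c5459 c16661 c23922 c5642 c266 c23919 c23856 (k8 c23854 c5342 c5559 c23850 c5339 c5334 c5517 c5331 (k8 c5564 c267 c18060 c5548 c5558 c8100 c19630 c23924 (k4 c1199 c5401 c23839 c5201 k0))))) (by decide +kernel)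
def c23926 : PP 9 3 T 0x10000000040000000000000000000004000000000000000000000000000000000000000000000000000000000000000000000000000000 := rS 0x11606f27ffb5fbb254b45e26af03ddea43946c5579d0d877e6b41384f40230f9269429db89497588a884040159c44da05 (k8 c21870 c22545 c23919 c23856 c23922 c5642 c266 c23854 (k8 c23853 c5342 c5559 c23850 c5339 c23800 c5334 c5517 (k8 c5331 c23561 c5564 c267 c18060 c5548 c20811 c20794 (k8 c23806 c20861 c23917 c5209 c5561 c5519 c5333 c5235 (k8 c5665 c23925 c5459 c20804 c22131 c20237 c16661 c20587 (k4 c3581 c2627 c9612 c14437 k0)))))) (by decide +kernel)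
def c23927 : PP 9 3 T 0x20000000000000000000000200080004000000001000000001000000000000002404000000000000000000000000000000004000000008 := rS 0x4581bc9ffed7eec83e237b925ea252192c361d10fcd526d (k8 c22545 c5531 c5548 c266 c20811 c20794 c5342 c5561 (k8 c5559 c5519 c5334 c5333 c5331 c5517 c22131 c20237 (k4 c17763 c2572 c17991 c2627 (k2 c9612 c14437 k0)))) (by decide +kernel)
def c23928 : PP 9 3 T 0x2000000000000000000040000000000000000000004000000000000000000000000000000000000000000000000000000000000000000000000000000 := rS 0x3c67b20b7d96604eed1023b8a88d671125886b01fa509c040109e800a6d (k8 c22545 c21870 c23561 c5564 c23922 c5642 c267 c23800 (k8 c5517 c23853 c266 c5342 c23919 c23856 c5331 c23854 (k8 c5332 c5380 c23926 c5412 c23924 c1755 c18066 c5340 (k2 c5457 c21911 (k1 c23923 k0))))) (by decide +kernel)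
def c23929 : PP 9 3 T 0x40000000000000000000004000000000000000000000000000000000000000000000000000000000000000000000000000000 := rS 0x481fc12e33d785becb3027769f35a6dc4e210100567158881e51b125904523d08896b081099f7403b0f88c934ace95cda05 (k8 c21870 c22545 c21872 c23806 c23800 c5334 c5331 c5517 (k8 c5332 c23561 c5566 c5564 c5380 c23853 c5559 c5558 (k8 c5560 c5339 c5340 c5342 c23917 c5209 c5432 c23919 (k8 c23854 c23856 c23922 c5642 c266 c267 c23850 c18060 (k8 c5548 c23926 c5412 c23924 c1755 c18066 c23928 c10425 (k4 c17695 c1684 c892 c17811 (k1 c18100 k0))))))) (by decide +kernel)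
def c23930 : PP 9 3 T 0x20000000040000000000000000000000000000000000000000000000000000000000000000000000000000000000000000000000000002 := rS 0x207ed7e405feae487bccff3359cd1a6f0fd2b3a5b88c54e22758ad55bb6ace82746d (k8 c22545 c23929 c23561 c20946 c20351 c5573 c5422 c5421 (k8 c5570 c5571 c5414 c5411 c5474 c23806 c23800 c5517 (k8 c5565 c5381 c5379 c1058 c20111 c663 c19760 c20140 (k4 c20793 c20750 c20839 c20037 (k2 c5542 c2631 (k1 c5694 k0)))))) (by decide +kernel)
def c23931 : PP 9 3 T 0x20000000040000000000000000000000000000000000000000000000000000000000000000000000000000000000000000000000000000 := rS 0x3f43a0200ed952218aaac3e237b82deb4acebc5e61bacceb4005 (k8 c21870 c23561 c23929 c20946 c5475 c5325 c5323 c23806 (k8 c23800 c5519 c5516 c5333 c5331 c5517 c5413 c5414 (k8 c5528 c5531 c20351 c23930 c5642 c20811 c22631 c3581 k0))) (by decide +kernel)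
def c23932 : PP 9 3 T 0x40000000000000000000000000000000000000000000000000000000000000000000000000000000000000000000000000008 := rS 0xf7b57c6d7699013c92041fcee602fb3bbe17038e466a1940a193b1dbb35a2fc63aa4d51555a76227b128843a6300865028d379f4761f11bdc16377ad29e2357986c63599d68137b5ce95c0a6d (k8 c22545 c21870 c21872 c23806 c23931 c8100 c23561 c23929 (k8 c20946 c5476 c5475 c5325 c5324 c5323 c23800 c5519 (k8 c5518 c5516 c5333 c5331 c5517 c5332 c5566 c5565 (k8 c5381 c5380 c6205 c28 c9752 c20811 c266 c1113 (k8 c22786 c9730 c8792 c20861 c23854 c5665 c20804 c2482 (k8 c3581 c20815 c23671 c22631 c22640 c1180 c21947 c5209 (k8 c1195 c5316 c5317 c5432 c5433 c17847 c3587 c8110 (k8 c5663 c17746 c729 c20881 c1573 c537 c536 c2883 (k4 c4199 c5462 c1656 c20761 (k1 c5689 k0)))))))))) (by decide +kernel)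
def c23933 : PP 9 3 T 0x40000000000000000000000000000000000000000000000000000000000000000000008000000000000000000000000000000 := rS 0x6c0bf9d3587e95b6ace80ce000196e7405 (k8 c21870 c23929 c5474 c23932 c5642 c663 c23561 c20946 (k8 c20261 c23800 c5517 c1058 c23806 c1687 c20101 c23821 k0)) (by decide +kernel)
def c23934 : PP 9 3 T 0x2000000040000000000000000000000000000000000000000000000000000000004000000000000000000000000000000000000000000 := rS 0x1ec1c8cd9a0803b1cbc631dbdc6ef5a50d462672decf6d599d681a2fd88000079dda9ecae05 (k8 c21870 c21872 c23933 c23931 c23806 c23932 c5642 c17712 (k8 c20808 c23003 c23561 c23929 c20946 c20261 c19230 c5474 (k8 c663 c5476 c5324 c23800 c5519 c5518 c5333 c5332 (k8 c5395 c23821 c796 c1451 c1055 c23671 c20297 c274 (k2 c13811 c18037 k0))))) (by decide +kernel)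
def c23935 : PP 9 3 T 0x40000000000000000000000000000000000000000000000000000000004000000000000000000000000000000000000000000 := rS 0x543399a97f68e467e0314a3623b7b8ddeb4a1abcc63b3db56675a068bf6200001e776a05 (k8 c21870 c23931 c23806 c23932 c5642 c17712 c20808 c23003 (k8 c23561 c23929 c20946 c20261 c19230 c5476 c5325 c5324 (k8 c23800 c5519 c5518 c5333 c5332 c23934 c5209 c16365 (k8 c5235 c5316 c5317 c6290 c20807 c5537 c3587 c5682 (k1 c2451 k0))))) (by decide +kernel)
def c23936 : PP 9 3 T 0x1000000040000000000000000000000000000000000000000000000000000000000000000000000000000000000000000000000000000 := rS 0x4171b51aece6437d9a97ef8f47233f018a503b7b9246ef523d288a3518ecfde9525bcdc2d17ec433bb569bfa28aa572c55a6f38edab28d33800065b9d1cf4005 (k8 c21870 c23561 c5379 c23929 c5474 c23932 c5642 c663 (k8 c5381 c20946 c20261 c5571 c5565 c5573 c5421 c20793 (k8 c23935 c1286 c1287 c4894 c23931 c23806 c17712 c20808 (k8 c23003 c3013 c5325 c2568 c2125 c19392 c19230 c5476 (k8 c5324 c5326 c23800 c5520 c5519 c5518 c5334 c5333 (k8 c5332 c5209 c16365 c5235 c5316 c5317 c5436 c17847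 (k8 c20807 c5537 c5538 c5678 c3587 c2189 c1183 c2575 (k2 c1656 c22331 k0)))))))) (by decide +kernel)
def c23937 : PP 9 3 T 0x40000000000000000000000000000000000000000000000000000000000000000000000000000000000000000000000000000 := rS 0xe21f90538080b31dbe5e31a87604b8a3f9547b572b562cb3899e21b60000f6b592dbce759d238dc923ba51f4de13469cf4005 (k8 c21870 c23561 c5379 c5381 c5564 c5565 c5566 c23800 (k8 c5332 c5334 c5518 c5520 c23806 c23929 c5325 c5474 (k8 c20946 c23931 c23932 c5642 c20261 c17712 c663 c5571 (k8 c5420 c5421 c5573 c20793 c23933 c23935 c1287 c1286 (k8 c2568 c23936 c5398 c5395 c23821 c2950 c796 c1054 (k4 c1055 c1267 c1736 c275 (k2 c19935 c1777 k0))))))) (by decide +kernel)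
def c23938 : PP 9 3 T 0x800000000000000000000000 := rS 0x192 (k2 c23937 c5439 k0) (by decide +kernel)
def c23939 : PP 9 3 T 0x200 := rS 0x192 (k2 c23937 c5438 k0) (by decide +kernel)
def c23940 : PP 9 3 T 0x80000000000000000000000000000000000000000000000000 := rS 0x192 (k2 c23937 c5357 k0) (by decide +kernel)
def c23941 : PP 9 3 T 0x8000000000000000000000000000000000000000000000000000000000000000000000000000000000000000000000000000 := rS 0x192 (k2 c23937 c5443 k0) (by decide +kernel)
def c23942 : PP 9 3 T 0x20000000000000000000000000000000000000000000000000000000000000000000000000000000000000000000000 := rS 0x192 (k2 c23937 c5359 k0) (by decide +kernel)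
def c23943 : PP 9 3 T 0x20000000000000000000000000000000 := rS 0x192 (k2 c23937 c5442 k0) (by decide +kernel)
def c23944 : PP 9 3 T 0x2000000000000000000000000000000 := rS 0x192 (k2 c23937 c5441 k0) (by decide +kernel)
def c23945 : PP 9 3 T 0x80000000000000000000000000000000 := rS 0x192 (k2 c23937 c5358 k0) (by decide +kernel)
def c23946 : PP 9 3 T 0x8000000000000000000000000 := rS 0x192 (k2 c23937 c5355 k0) (by decide +kernel)
def c23947 : PP 9 3 T 0x800000000000000000000000000000 := rS 0x192 (k2 c23937 c5356 k0) (by decide +kernel)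
def c23948 : PP 9 3 T 0x12000010000000000000000000000000000000000000000004000000001000000080000000000000000000000000000115000000000002 := rS 0x7c24089b91ce340fcc9691d0b5e28fe6599d54df70aa7bece7aa67663b7b9246e47a5347de7180bf5a6a1899ce21922f98cfa7f (k8 c23945 c23943 c23946 c23938 c23937 c17712 c20812 c955 (k8 c5398 c2940 c20808 c3071 c20748 c5584 c20864 c5211 (k8 c5520 c5518 c5334 c5333 c5332 c18631 c5447 c23244 (k8 c3587 c5453 c2450 c1653 c2565 c13265 c883 c4086 (k8 c1287 c1286 c22961 c19981 c20750 c2568 c5590 c20909 (k4 c2575 c5675 c18032 c4794 (k2 c1060 c12667 (k1 c2909 k0)))))))) (by decide +kernel)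
def c23949 : PP 9 3 T 0x2000000000000000000000000000000000000000200000009000000000000000000000000000000000000000000000010000000000000 := rS 0x4b99c341d54ced2bb37e9dcbf92 (k8 c23937 c23938 c23947 c20808 c18631 c5446 c5325 c2447 (k4 c334 c5649 c883 c1074 (k1 c20857 k0))) (by decide +kernel)
def c23950 : PP 9 3 T 0x2000000000000000000000000000000000000000000000000000000000000000000000000000100000000000000002000000000000002 := rS 0x6fdb04eb2612f9fc127d (k8 c23943 c23939 c23945 c23938 c5445 c5560 c2806 c20261 (k2 c1061 c22818 k0)) (by decide +kernel)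
def c23951 : PP 9 3 T 0x5000400000000012000000000000000000000000000000000000000200000000000200000000000000002000000004000000000000000000000000000000 := rS 0x3427137f8b6cb347fcd3fb3f097cfb92 (k8 c23937 c23943 c23938 c5458 c18631 c5448 c5591 c2847 (k4 c2898 c5201 c5204 c1272 (k2 c885 c12445 (k1 c13779 k0)))) (by decide +kernel)
def c23952 : PP 9 3 T 0x5001000000000012000000000000000000000000000000000000000200000000000500000000000000000000000000000000000008000100000000000000 := rS 0x37edbc48ff99876792 (k8 c23937 c18631 c5445 c5546 c12624 c15375 c5201 c1272 (k1 c16071 k0)) (by decide +kernel)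
def c23953 : PP 9 3 T 0x5001400000000000000000000000000000000000080008000000000000000000000040080000000000000000000000000000000000000004000000000000 := rS 0x3e4ff8ef8dee47 (k4 c5520 c5333 c5579 c2081 (k2 c2942 c5204 (k1 c17808 k0))) (by decide +kernel)
def c23954 : PP 9 3 T 0x5001400000000002000000000000000000000000080008000000000000000000000540400000000000000000000000000000000004000104000000000002 := rS 0x823d1fa05a63b248dc8e45031dcae09 (k8 c23939 c21872 c23947 c20881 c5326 c5520 c5518 c5334 (k4 c5332 c23953 c20909 c14449 (k2 c23950 c1734 (k1 c3590 k0)))) (by decide +kernel)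
def c23955 : PP 9 3 T 0x5000000000000012000000000000000000000000080008000000000200000000000000009000000040000000000000000000000000000104000000000002 := rS 0x72db2355ab1379c5a4fe6ac5522de25b85c6a1ef9edafe14e258cea94aaa933b37e9df245f (k8 c23938 c23937 c23947 c20808 c18631 c5447 c13265 c5446 (k8 c2450 c883 c20857 c1284 c5458 c1768 c20767 c5453 (k8 c5398 c10455 c23951 c23952 c23954 c2949 c2950 c3003 (k8 c2564 c2565 c884 c1271 c1334 c2893 c2083 c20105 (k2 c20793 c5419 k0))))) (by decide +kernel)
def c23956 : PP 9 3 T 0x12000010000000000000000000000000000000000000000000000000001000000000000000000000000000000000000115000000000002 := rS 0x1a0569c76eb365389bee1f9f8dfed58efbbc33a6ba7036960e99d54a957b3bdaf54aa67663b7b8dc8f4a7eb45e71078e48ee5f (k8 c23938 c23947 c23937 c9696 c17712 c23949 c20864 c20808 (k8 c5211 c5520 c5518 c5333 c5332 c18631 c5447 c5446 (k8 c23244 c18037 c3587 c23948 c2450 c13265 c883 c2121 (k8 c20857 c1074 c1284 c1768 c5649 c5458 c23955 c5504 (k8 c5585 c5586 c20829 c17808 c1652 c2564 c5691 c1777 (k4 c2458 c5420 c885 c2128 (k2 c5241 c19392 k0)))))))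 (by decide +kernel)
def c23957 : PP 9 3 T 0x82000000000000000000000000000000000000000000000000000000000000000000000000100000014040000000000000000000000000 := rS 0x409cd969f50b24c295319fcfa5f (k8 c23938 c23943 c23945 c23946 c5446 c5445 c5396 c5398 (k4 c5448 c5420 c5419 c23232 (k1 c3599 k0))) (by decide +kernel)
def c23958 : PP 9 3 T 0x8000000000000012000010000000000000000000000000000000000000000000000200000000000000000000000000000040000000000000000000000002 := rS 0x27643088974158db9bce28f59fcde29fd9c423a8d58914fb92 (k8 c23937 c23943 c5582 c5506 c5505 c5504 c17712 c18631 (k8 c5448 c9696 c5591 c2898 c2846 c885 c1272 c23957 (k4 c20261 c5241 c5559 c5558 (k2 c5561 c20946 (k1 c20217 k0))))) (by decide +kernel)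
def c23959 : PP 9 3 T 0x8000000000000012000010000000000000000000000000000000000000000004000000002000000000000000000000000000000000000100000004000002 := rS 0x159b621564970170b8fc6ff22c0daef17aecdee4923d2bc26743c432477 (k8 c23947 c23937 c17712 c2073 c882 c5537 c5211 c5520 (k8 c5334 c5333 c18631 c23244 c9696 c5507 c5508 c5582 (k8 c5586 c20829 c2623 c23958 c2078 c15375 c18038 c19710 (k2 c20261 c10701 (k1 c5573 k0))))) (by decide +kernel)
def c23960 : PP 9 3 T 0x4000400000000082000000000000000000000100000000000000200000000000000000400000000000000000000000000000000000000004000000000002 := rS 0x409bda6133097cfe09 (k8 c23939 c23945 c23938 c5445 c20813 c2081 c1061 c20909 (k1 c22818 k0)) (by decide +kernel)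
def c23961 : PP 9 3 T 0x14000000000000000000000000000000000000000000009000000000000000000404000000000000000000000000000000000000000000 := rS 0x153ed (k2 c5544 c2452 (k1 c5682 k0)) (by decide +kernel)
def c23962 : PP 9 3 T 0x82000010000000000000000000000000000000000200080000000000000000000000000000000000000040000000000000000000000000 := rS 0x231206f47fcce3a1899ccfe5f (k8 c23938 c23945 c5419 c955 c17744 c5571 c5550 c20799 (k4 c1272 c5675 c23957 c10035 k0)) (by decide +kernel)
def c23963 : PP 9 3 T 0x4000400000000082000000000000000000000000080000000000000000054014000000400000000000000000000000000000000004140004000000000002 := rS 0x11dacbdc9247 (k4 c5520 c5334 c5333 c18038 (k2 c23960 c3593 k0)) (by decide +kernel)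
def c23964 : PP 9 3 T 0x4000000000000000000000000000000000000000000000001000000000000000000000000000000000000000000200000004004000000 := rS 0x3b3b (k2 c5326 c335 (k1 c5649 k0)) (by decide +kernel)
def c23965 : PP 9 3 T 0x4000000000000092000010000000000000000000000000000000000000000004000000002000000000000000000000000000000000000004000004000002 := rS 0x200de06480fd1f3a8e92ab24571c0dff0121c4dafa1569cc4ecb599c5e21901bd53e61d9bdc9247a53f7beab6499d0f103e98cbe092b9dcff92 (k8 c23937 c23945 c23947 c21872 c23939 c23938 c23946 c23943 (k8 c17712 c2073 c882 c5396 c2075 c5495 c20808 c5211 (k8 c5520 c5334 c5333 c18631 c5445 c5448 c23244 c28 (k8 c9701 c9696 c5571 c5574 c5420 c5570 c5419 c5573 (k8 c17744 c22961 c955 c10701 c13274 c23961 c23962 c2623 (k8 c23964 c18038 c23963 c23960 c5658 c12624 c408 c13156 (k4 c20881 c1272 c22861 c908 k0))))))) (by decide +kernel)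
def c23966 : PP 9 3 T 0x400000000000000200000000000000000200000000000000000000000000000000000000000000000000000000000000000000000015000000000000 := rS 0x4ee5392 (k4 c23937 c12891 c20946 c5653 k0) (by decide +kernel)
def c23967 : PP 9 3 T 0x14000000000000000000000200080000000000000000051014000000000000000044000000000000000000000000100000000000000000 := rS 0x152fef6bdc9247 (k4 c5520 c5334 c5333 c23185 (k2 c18038 c2453 (k1 c5682 k0))) (by decide +kernel)
def c23968 : PP 9 3 T 0x12000010000000000000000000000000000000000000000000000000000000000000000000000000000000000000000115000000000002 := rS 0x224e95f0181874e5f2d0846b1b7f786d2c6743aafbecc7ab252bb3a53f5e710789dcbf92 (k8 c23937 c23938 c23947 c9696 c17712 c23949 c20808 c5211 (k8 c18631 c5446 c5396 c23244 c23956 c5495 c2075 c2073 (k8 c882 c20857 c1074 c23959 c23965 c20261 c5558 c23966 (k8 c5241 c17749 c23316 c5550 c5592 c20812 c5649 c23967 (k1 c5326 k0))))) (by decide +kernel)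
def c23969 : PP 9 3 T 0x12000010000000000000000000000000000000000000000000000000000000000000000000000000000000000000000114000000000002 := rS 0x19d2e1d948c1e21901a4d2b92 (k8 c23937 c5446 c5444 c28 c9701 c9696 c23968 c5434 (k4 c1996 c1472 c664 c20916 k0)) (by decide +kernel)
def c23970 : PP 9 3 T 0x52000010000000000000000000000008000000000000000000000000000000000000000000000000000000000000000110000000000002 := rS 0x6fb39a6aa56fbd5efe80b85c703397c923a125c74823d08d61ebb31dbdc923723d29faf3883c52c672d8c92a432297cef92 (k8 c23937 c23947 c23938 c5326 c5478 c5446 c23969 c2041 (k8 c663 c20857 c9696 c17712 c23949 c20808 c5211 c5520 (k8 c5518 c5334 c5333 c5332 c18631 c23244 c20261 c5558 (k8 c5560 c5340 c5341 c5342 c20946 c21230 c5241 c17749 (k8 c21406 c5549 c5591 c5592 c17808 c20812 c19710 c2893 (k4 c23967 c20105 c1285 c2565 (k1 c22331 k0))))))) (by decide +kernel)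
def c23971 : PP 9 3 T 0x400000000082000000000000000000000200000008000000000000000000000000400000000000000000000000000000000000000000000010000002 := rS 0x4034fde6f570953ea1309c59673319fcfa5f (k8 c23938 c23943 c23945 c23946 c5419 c5420 c5571 c5445 (k8 c5398 c5448 c5559 c19291 c1060 c5584 c2940 c3599 (k1 c20909 k0))) (by decide +kernel)
def c23972 : PP 9 3 T 0x2000100000000000000000100000000000000000200000000000000400000000080000000000000050000000001500548000000000002 := rS 0x1c24b6fa3825e2719b87a411fa05a7ef50ca7bf133e97cc67f (k8 c23945 c23946 c23938 c23943 c955 c5492 c5316 c5398 (k8 c5584 c2940 c20909 c14449 c545 c23950 c18032 c18213 (k4 c5655 c1061 c1272 c5580 (k2 c302 c2846 (k1 c3590 k0))))) (by decide +kernel)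
def c23973 : PP 9 3 T 0x4000000000000002000100000000000000000100000000000000000200000000000000440000000000000000000000050000000001404548000000000002 := rS 0x1c24b6fa3825e2719b87a4140ca7bf133e97cc67f (k8 c23945 c23946 c23938 c23943 c955 c5492 c5316 c20909 (k8 c545 c23950 c18032 c18213 c5655 c1061 c1272 c5580 (k2 c302 c2846 (k1 c3590 k0)))) (by decide +kernel)
def c23974 : PP 9 3 T 0x100000000000000000100000000000100000000000000000000080000000150000000000000050040000000004000000000000004 := rS 0x8237c677 (k4 c23947 c5579 c2083 c17813 (k1 c20922 k0)) (by decide +kernel)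
def c23975 : PP 9 3 T 0x12000010000000000000000000000000000000000000000000000000000000000000000000000000000000000000000110000010000002 := rS 0x23e36ac77dc41698fc48afacb5f42ad589cd9671db116740378a8767101d9246e47a54a7be1b6499cb632c917cfe77 (k8 c23947 c23945 c23938 c23937 c23969 c2041 c663 c5396 (k8 c2043 c5492 c5316 c5211 c5520 c5518 c5334 c5332 (k8 c17712 c18631 c5398 c9696 c28 c5649 c5326 c23970 (k8 c5571 c5420 c5419 c5421 c5573 c17744 c22961 c23971 (k8 c23972 c22233 c2909 c23974 c545 c23973 c5504 c5585 (k2 c20829 c22747 (k1 c17813 k0))))))) (by decide +kernel)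
def c23976 : PP 9 3 T 0x14000100000000000000000000000000000000000400045050000000000000000010000000000000000000000001540000000020010000 := rS 0x971d (k2 c22489 c12663 (k1 c18824 k0)) (by decide +kernel)
def c23977 : PP 9 3 T 0x92000010000000000000000000000000000000000000000000000000000000000000000000000000000000000000000110000000000002 := rS 0x23420afacc04871322b5dff03d0ab5627313b2d667101bd7663b248dc8efd79c41e21b6499cb63255871ef4a2f9fcef92 (k8 c23937 c23947 c23945 c23938 c5211 c5333 c23975 c2121 (k8 c23969 c2041 c663 c5396 c2043 c9696 c17712 c23949 (k8 c20808 c5520 c5518 c5334 c5332 c18631 c23244 c28 (k8 c5571 c5574 c5420 c5570 c5419 c5421 c5573 c17744 (k8 c23962 c23961 c22961 c23964 c955 c10701 c13274 c18038 (k4 c23972 c23976 c701 c20922 k0)))))) (by decide +kernel)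
def c23978 : PP 9 3 T 0x12000010000000000000000000000000000000000000000000000000000000000000000000000000000000000000000110000000000002 := rS 0x1a8ca222c4e26f09a3502738e8474158db870b6324fa84c2633f9f4be77 (k8 c23947 c23938 c23943 c23945 c23946 c5445 c5398 c5448 (k8 c23969 c2041 c23975 c23977 c20261 c23316 c5558 c5341 (k8 c5379 c5380 c5381 c5564 c5565 c667 c2177 c20837 (k2 c3599 c390 (k1 c1661 k0))))) (by decide +kernel)
def c23979 : PP 9 3 T 0x4000200000000000000000200000004000100000000000001000000000000000010000080000000010040000000000004000010000000 := rS 0x6afbd60131290c8392 (k8 c23937 c5340 c5561 c5559 c5564 c18384 c19392 c21523 (k1 c1334 k0)) (by decide +kernel)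
def c23980 : PP 9 3 T 0x400000000012000100000000000000000000000004000000000000000000000500400000000200000080000000000000000005400544000008010000 := rS 0xf6aadfccc6f0fda6d4f7b276792 (k8 c23937 c18631 c5396 c5506 c1334 c2085 c2997 c12667 (k4 c3003 c12713 c2075 c5544 (k1 c19296 k0))) (by decide +kernel)
def c23981 : PP 9 3 T 0x52000010000000000000000000000000000000000000000000000000000000000000000000000000000000000000000100000000000002 := rS 0x1be3ff6bfc8bee58b85c7f2d0ab4e24b21846b03b248dc8f4a68c43be330d3c7669633ca5ae160ea4e76c930a540634c91dcc65f (k8 c23938 c23946 c23947 c23937 c23978 c28 c5446 c5445 (k8 c5396 c5324 c5444 c331 c22977 c4291 c5433 c664 (k8 c20857 c18631 c9696 c23229 c120 c5450 c17712 c20864 (k8 c5211 c5520 c5518 c5334 c5332 c20261 c5558 c5561 (k8 c5342 c667 c1908 c23979 c5241 c5549 c5591 c23980 (k4 c21702 c5582 c5586 c14774 (k2 c441 c18825 (k1 c12667 k0)))))))) (by decide +kernel)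
def c23982 : PP 9 3 T 0x400000000092000000000000000000000200000004000000100000001050000000400000000000000000000000000040000005400000000000000002 := rS 0x1a8d34078d19ef3790c4af14fa84c271659cf4277319fcfa5f (k8 c23938 c23943 c23945 c23946 c23947 c17744 c5419 c5420 (k8 c5571 c5445 c5398 c5448 c9696 c5559 c5561 c1060 (k4 c22847 c23957 c13779 c3599 (k2 c2083 c5689 (k1 c20766 k0))))) (by decide +kernel)
def c23983 : PP 9 3 T 0x4000000000000000000000000000000000000100080000000100100000000000000500400000000000000004000000000000000004050120000000000002 := rS 0x6f8fc89e2788ec923723cec6392 (k8 c23937 c119 c5324 c5520 c5518 c5334 c5332 c9696 (k4 c22846 c5281 c5576 c5580 (k1 c10448 k0))) (by decide +kernel)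
def c23984 : PP 9 3 T 0x12000010000000000000000000000000000000000000000000000000000000000000000000000000000000000000000100000000010002 := rS 0x1f117dce370a448612ac8f496f57b9248f4a7ef7c0e6794b5f4241658583b3b649852a03899ce211d58ed8343478a4f6657049e4fb923b98cfe5f (k8 c23938 c23945 c23946 c23947 c23937 c23943 c23944 c23939 (k8 c21872 c18631 c5444 c9696 c23978 c23229 c23981 c5421 (k8 c2161 c17712 c5419 c955 c28 c5446 c5445 c5396 (k8 c5324 c331 c22977 c5420 c1736 c17744 c4291 c5433 (k8 c664 c20806 c5450 c20808 c5211 c5520 c5334 c5333 (k8 c23244 c12663 c12640 c23982 c12617 c20787 c3036 c21491 (k4 c13204 c23983 c5582 c20848 (k1 c441 k0)))))))) (by decide +kernel)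
def c23985 : PP 9 3 T 0x12000010000000000000000000000000000000000000000000000000000000000000000000000000000000000000000100000000000002 := rS 0x1026fac84c204165ed82c1d9d8d00693649852a5f3f824c677 (k8 c23947 c23946 c23939 c23945 c23938 c5446 c5445 c5396 (k8 c5444 c28 c23978 c5324 c331 c22977 c23981 c5420 (k4 c1736 c23984 c36 c5558 (k2 c2746 c700 (k1 c22818 k0))))) (by decide +kernel)
def c23986 : PP 9 3 T 0x12000010000000000000000000000000000000000000000000000000000000000000000000000000000000000000000000000000020002 := rS 0x252448080d0b8f6c3f899beb21301984174a1c17cfe09 (k8 c23939 c23945 c23938 c23985 c5211 c5516 c5445 c28 (k8 c36 c5558 c2746 c703 c2907 c20261 c2618 c17744 (k4 c22818 c700 c908 c546 (k1 c13156 k0)))) (by decide +kernel)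
def c23987 : PP 9 3 T 0x4000000000000002000000000000000000000100000000000100100000000000000000000000000000000000000000014000000000048000000000000002 := rS 0x349ae8cef99cb6459d3c5269565f8cc3b63b97cff92 (k8 c23937 c23945 c23938 c23947 c20261 c5445 c16071 c5420 (k8 c5446 c5444 c9696 c22846 c5326 c5474 c663 c20920 (k4 c23957 c22961 c14449 c2083 k0))) (by decide +kernel)
def c23988 : PP 9 3 T 0x2000000000000000000000100080000000100000000011010000000000000000000000000000000004000000004000000000000010002 := rS 0x3c9fe4546fb87de3309c562ad8e90c25a1db648fe5f (k8 c23938 c23945 c23937 c20261 c17744 c12617 c20787 c22489 (k8 c5573 c5421 c667 c5445 c16071 c17813 c23987 c5505 (k4 c5582 c5586 c19710 c23007 k0))) (by decide +kernel)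
def c23989 : PP 9 3 T 0x4000000000000002000000000000000000000100000000000000100000050050000040010000000000000000000000000000000005540200000000000002 := rS 0x1df66fb4cefe6796de73a30a57c392 (k8 c23937 c5534 c5446 c5445 c5658 c5325 c5474 c2558 (k4 c3593 c663 c5544 c2506 (k2 c20920 c5688 k0))) (by decide +kernel)
def c23990 : PP 9 3 T 0x12000010000000000000000100000000000000000000000000000000000000000000000000000000000000000000000000000000000002 := rS 0x1ec792ac68966799c661a0ecec89ef6bf89bf031fc511c2437405224309104971dd089e27b639bd54295d9bdc9247a53f5a310948e022772fe48127f (k8 c23945 c23939 c23937 c23938 c23947 c23986 c23985 c5317 (k8 c17712 c20864 c20808 c5211 c5520 c5334 c5333 c18631 (k8 c5446 c5398 c23244 c19419 c20261 c955 c5570 c17744 (k8 c22489 c12663 c12636 c12617 c20787 c3036 c19568 c23988 (k8 c1060 c1272 c1271 c2909 c20799 c2950 c17813 c18221 (k8 c20829 c23989 c5326 c335 c2969 c389 c664 c2559 (k4 c20857 c1074 c1285 c439 (k2 c19296 c5540 k0)))))))) (by decide +kernel)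
def c23991 : PP 9 3 T 0x12000000000000000000000000000004000000000000000000000000000000000000000080000000000000000000000200000008000000 := rS 0x1ed55bc99e3419b276792 (k8 c23937 c18631 c5396 c2043 c1074 c2559 c439 c1285 (k2 c5540 c19296 k0)) (by decide +kernel)
def c23992 : PP 9 3 T 0x14000110000000000000000200000000000000000000000000000000000000000000000000000000000000000000200000000004000002 := rS 0x1b70e099e33b (k4 c5326 c9696 c23964 c5649 (k2 c5570 c23316 k0)) (by decide +kernel)
def c23993 : PP 9 3 T 0x12000110000000000000000000000000000000000000000000000000000000000000000000000000000000000000200000000000000002 := rS 0x4b99c353b4aecc71583b97c0b92 (k8 c23937 c21870 c23938 c23947 c23990 c23985 c18631 c5446 (k4 c5326 c23992 c1903 c23991 (k1 c20857 k0))) (by decide +kernel)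
def c23994 : PP 9 3 T 0x12000000000000000000000000000004000000000000000000000000000000000000000000000000000000000000000200000008000000 := rS 0x12e674a9dcbe05 (k4 c21870 c23938 c23947 c5446 (k2 c1903 c23991 (k1 c20857 k0))) (by decide +kernel)
def c23995 : PP 9 3 T 0x12000110000000000000000000000004000000000000000000000000000000000000000000000000000000000000000000000000000002 := rS 0x8ff9a46050189a01fead39b2d67b655bcc38350dbc5ea934fa84c3b37b9248f4a7ec40e21137895c64bac0e08a633f9f4bf92 (k8 c23937 c23938 c23943 c23945 c23946 c23993 c23985 c23990 (k8 c5342 c2617 c5559 c1060 c23986 c667 c17712 c20808 (k8 c5211 c5520 c5334 c5333 c18631 c5445 c5398 c5448 (k8 c5444 c23244 c9696 c23994 c23229 c5649 c23949 c2121 (k8 c23316 c5574 c5420 c5419 c5573 c23961 c3599 c955 (k4 c13274 c18038 c908 c5550 (k2 c20799 c5675 k0))))))) (by decide +kernel)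
def c23996 : PP 9 3 T 0x12000110000000000000000000000000000000000000000000000000000000000000000000000000000000000000000000000000000002 := rS 0x1ee4032ce6d38aab9fd016bc4d980c55fb7be968199d9e912dbce74457aa7cc2954cecdee490591e94fd68c43c23838844871d259bc4b58c917c1e77 (k8 c23947 c21871 c23938 c23937 c23990 c5559 c1060 c5342 (k8 c5341 c5561 c23986 c667 c23985 c5534 c17712 c20864 (k8 c20808 c5211 c5520 c5516 c5334 c5333 c18631 c5447 (k8 c5446 c5445 c5448 c23244 c23993 c23995 c5325 c5474 (k8 c23214 c2558 c663 c21406 c20857 c20920 c23185 c1285 (k8 c20879 c5688 c2598 c2191 c19568 c3593 c23967 c3011 (k4 c2943 c20812 c1247 c22815 (k2 c20909 c17894 k0)))))))) (by decide +kernel)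
def c23997 : PP 9 3 T 0x14000200000000000000000200080000000100001200000015000000000800000104000000000000010000000000100010000000010000 := rS 0xae4bc06063354218b4667e894871d4684e7677 (k8 c23947 c20946 c5564 c5381 c5341 c5561 c5559 c20808 (k8 c20217 c20837 c882 c883 c2041 c10690 c2027 c20460 (k2 c23967 c1246 k0))) (by decide +kernel)
def c23998 : PP 9 3 T 0x12000010000000000000000000000000000000000000000000000000000000000000000000000000000000000000000000000000000002 := rS 0x25866ae2235562ab798706b150db2a77a07192e3b583884652387bc4294f17aa4f6792 (k8 c23937 c18631 c5444 c23244 c9696 c5211 c17712 c5333 (k8 c23985 c5317 c23986 c667 c23990 c5341 c5342 c2617 (k8 c23996 c20946 c12830 c23994 c1293 c23229 c5649 c23949 (k8 c2121 c2177 c1661 c23997 c336 c390 c1246 c20460 k0)))) (by decide +kernel)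
def c23999 : PP 9 3 T 0x2000210000000000000000000000000000000000000000000000000000000000000000000000000010400000000000000000000000002 := rS 0xb548b7be6734dc462bb4369ff2463 (k8 c23946 c23937 c23945 c22545 c23998 c5414 c5411 c5397 (k4 c5379 c20111 c19933 c2948 (k2 c2514 c20140 k0))) (by decide +kernel)
def c24000 : PP 9 3 T 0x22000000000000000000000000000004000000000000000000000000000000000000000000000000000000000000200200004000000002 := rS 0x19a3443259fa670d075e295d9aa4d61f4d9dcbf92 (k8 c23937 c23938 c23947 c5397 c2472 c1058 c5531 c18631 (k8 c5446 c9696 c335 c23964 c664 c20237 c20857 c20831 (k2 c1074 c2073 (k1 c440 k0)))) (by decide +kernel)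
def c24001 : PP 9 3 T 0x2000010000000000000000000000004000000000000000000000000000000000000000000000000000000000000200200000000000002 := rS 0x3310c340d3f52c1d33abce5b713684e2ad08bc52bb354ed0d61f4d9dcbf92 (k8 c23937 c23938 c23947 c5397 c2472 c1058 c23998 c5531 (k8 c18631 c5446 c9696 c20747 c2887 c667 c23999 c24000 (k8 c5570 c17749 c20812 c932 c336 c20857 c20237 c5649 (k4 c1074 c20831 c440 c2073 k0)))) (by decide +kernel)
def c24002 : PP 9 3 T 0x20000000000000000000000000000000000000000000000000000000000000000000000080000000000400000000000200000048000000 := rS 0x6621868fd33aa4ee05 (k8 c21870 c23947 c5531 c1903 c1075 c1074 c20831 c440 (k1 c2073 k0)) (by decide +kernel)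
def c24003 : PP 9 3 T 0x1400000000000000000000000000000000000000000000000000000000000000000014000000000000000008000000000000000000000000000000000 := rS 0x337da77 (k4 c23947 c5499 c2073 c5688 k0) (by decide +kernel)
def c24004 : PP 9 3 T 0x24000000000000000000000000000000000000000000000000000000004000000000000484000000000000000000000200000000000002 := rS 0xcdf6bf10e5b1a86da231efbc6229d55aa653e13587cda77 (k8 c23947 c22545 c2472 c1058 c5534 c5317 c5531 c5413 (k8 c5412 c5411 c9696 c5452 c1472 c1708 c24002 c23229 (k4 c9931 c24003 c20862 c5542 (k2 c2504 c5688 k0)))) (by decide +kernel)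
def c24005 : PP 9 3 T 0x42000010000000000000000000000004000000000000000000000000000000000000000000004000000000000000000200000000000002 := rS 0x3fd58af809c919a138846b0b335ac4384524d2bdbde1a8c5ee5a05bd5e61b3325d9e7a94a743f114ca6d269578ecc43b4c9014be7736b1cc679 (k8 c23944 c23946 c23940 c22545 c23947 c23938 c21870 c23937 (k8 c23998 c5528 c18631 c9696 c5446 c5444 c5397 c5447 (k8 c5411 c2472 c5412 c5317 c18099 c20767 c24004 c20857 (k8 c1903 c23227 c23244 c2470 c663 c2102 c9332 c23229 (k8 c9931 c17700 c5657 c5334 c24001 c664 c4525 c1058 (k8 c5532 c20261 c5558 c667 c23999 c18772 c17749 c2141 (k4 c20812 c932 c23312 c23318 k0))))))) (by decide +kernel)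
def c24006 : PP 9 3 T 0x82000010000000000000000000000004000000000000000000000000000000000000000000000000000000000000000200000000000002 := rS 0x128e1b887efacab596f555c55e6217b82da7de1a968621b3325d9e7a94a743f114ced13693d9a55e245c9014be7736b1cc679 (k8 c23944 c23946 c23940 c22545 c23947 c23938 c21870 c23937 (k8 c24001 c9696 c5446 c18631 c5444 c5397 c23998 c5447 (k8 c5411 c2472 c5412 c5317 c18099 c20767 c24004 c20857 (k8 c1903 c9332 c663 c23229 c9931 c5496 c2470 c2102 (k8 c5528 c23227 c5414 c5413 c23244 c5420 c5573 c23234 (k4 c8156 c10701 c22872 c5658 (k2 c1061 c20813 k0))))))) (by decide +kernel)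
def c24007 : PP 9 3 T 0x2000010000000000000000000000004000000000000000000000000000000000000000000000000000000000000000200000000000002 := rS 0x386003e7fb5d5e72d0b8ce303f192e3a411e90c2286ac6dc8e49a5115eab3f09ade6217b82c66b10e355a7edef0d4b4310d9992ecf3d4a53a1f88a653693d9a55e3b4c9014be7736b1cc679 (k8 c23944 c23946 c23940 c22545 c23947 c23938 c21870 c23937 (k8 c23998 c9696 c5446 c18631 c5444 c5397 c5447 c5411 (k8 c2472 c5412 c5317 c18099 c20767 c24004 c20857 c1903 (k8 c9332 c663 c23229 c9931 c17700 c5496 c5454 c664 (k8 c4525 c2041 c2470 c2102 c5528 c23227 c1058 c5534 (k8 c5532 c23244 c24001 c5657 c5334 c5520 c24006 c20261 (k8 c24005 c5558 c5561 c5560 c5340 c5341 c5342 c23097 (k8 c10690 c667 c2617 c23999 c17749 c20812 c23766 c23312 (k4 c3588 c18038 c3056 c9158 k0))))))))) (by decide +kernel)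
def c24008 : PP 9 3 T 0x2000010000000000000000000000000000000000000000000000000000000000000000000000000000000000000000200000000000002 := rS 0x4e8b4664bb3cf41f94a4d36954cece229dda1dcbe7931b1cdb92 (k8 c23937 c22545 c23940 c23946 c23944 c23938 c23947 c23998 (k8 c5412 c5411 c18631 c5447 c5446 c5397 c5444 c5317 (k8 c2472 c18099 c20767 c24004 c20857 c663 c24007 c5474 k0))) (by decide +kernel)
def c24009 : PP 9 3 T 0x400000000000000000000000000000000000000000000000000000002000000000010000000000000400000008000000000000000000000000000000 := rS 0x66fb7c2cf (k4 c20767 c5457 c5542 c2504 (k1 c5688 k0)) (by decide +kernel)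
def c24010 : PP 9 3 T 0x400000000020000000000000000000000000000000000100000000000000000000010000000000000400000008000000040000000100000000000002 := rS 0x3ba58303c6a7ea1c6ecff0c4556a933824da0f (k8 c21871 c22545 c23939 c663 c5531 c5413 c5411 c5457 (k8 c20767 c1478 c24003 c24009 c20831 c20862 c1059 c5517 (k2 c289 c5654 k0))) (by decide +kernel)
def c24011 : PP 9 3 T 0x2000000000082000010000000000000000000000000000000001400000000000000000000000400001000000000000040000000000000000000000000 := rS 0xde8d4823fe7a15a9cce2e16f9e4be7f (k8 c23945 c23938 c23944 c5538 c5460 c5571 c5419 c5422 (k4 c17744 c7694 c21268 c5675 (k2 c10035 c3038 (k1 c23957 k0)))) (by decide +kernel)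
def c24012 : PP 9 3 T 0x2000010000000000000000000000008000000000000000000000000000000000000000000000000000000000000000000000000000002 := rS 0x2c5fd036a8fa024971a396891396848e4b8e9047a11ac6ddbee1f00dc76f789d2c181e351eda3df4b4a4ce5b7991486f17aa4d36614aa66229d8aacf68393c824c6c72f9b72477 (k8 c23947 c23937 c22545 c23938 c23940 c23946 c23939 c23944 (k8 c24008 c23998 c5532 c5414 c5412 c5411 c5447 c5446 (k8 c5445 c5397 c5444 c23244 c9696 c5478 c5326 c5325 (k8 c5474 c663 c19549 c20857 c20920 c1708 c24010 c17977 (k8 c18099 c1059 c5517 c4731 c20809 c289 c2363 c5654 (k8 c5460 c5538 c24011 c20261 c5558 c5560 c5340 c5341 (k8 c5342 c5562 c20946 c17749 c9824 c1318 c1319 c13204 (k8 c294 c19568 c3590 c2996 c20799 c3593 c1334 c2573 k0)))))))) (by decide +kernel)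
def c24013 : PP 9 3 T 0x2000000000002000110000000000000000000000004000000001000000010000000000000000400001001000000000040000000000100000080002000 := rS 0x1ee2234868ad1f0688e4308bcab1b7f6b7f674b7b8ec6e4b71925c3134b25724773c97cfa09 (k8 c23939 c23943 c23938 c23944 c23947 c23937 c5446 c20857 (k8 c4731 c21491 c294 c13204 c13156 c2363 c289 c20809 (k8 c5517 c18631 c5538 c23390 c24011 c22550 c5657 c9667 (k8 c5561 c5562 c2533 c12667 c1908 c1074 c442 c441 (k2 c20105 c5582 k0))))) (by decide +kernel)
def c24014 : PP 9 3 T 0x2000110000000000000000000000000000000000000000000000000000000000000000001000000000040000000000000000080002002 := rS 0x385a0bca3c20378bd526c930a553b1559ed0733ba58ec6e633b824be79 (k8 c23944 c23938 c23939 c23947 c23946 c2363 c289 c5517 (k8 c24012 c24008 c23998 c5532 c5414 c5412 c5446 c5445 (k8 c5396 c5444 c23244 c9696 c28 c24013 c5654 c5433 (k2 c19549 c22977 (k1 c1994 k0))))) (by decide +kernel)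
def c24015 : PP 9 3 T 0x2000110000000000000000000040000000000000000000000000540000000000000000000000000000000000005004100000000002000 := rS 0x23846b03b1be48f209 (k8 c23939 c23944 c23937 c2363 c289 c22550 c5558 c5562 (k1 c12667 k0)) (by decide +kernel)
def c24016 : PP 9 3 T 0x2000100000000000000000200000000000200000000000000000000000000000000000000000000040000000000000000000000000002 := rS 0x36e111480d26a1 (k4 c5398 c5444 c28 c9694 (k2 c5558 c19210 (k1 c17749 k0))) (by decide +kernel)
def c24017 : PP 9 3 T 0x2000110000000000000000000000000000000000000040000000000000000000000000001000000000000000000000000000080002002 := rS 0x1b6f9564e6b56f0fdaf28f0b33beff7eb44663518fb0b41b3338492e325bc5ea934da57662154ed0733ba5bdc76373544cee79029f41392 (k8 c23937 c23939 c23943 c21870 c23944 c23947 c4731 c2361 (k8 c2363 c289 c20809 c5517 c24012 c24008 c23998 c5531 (k8 c5528 c18631 c5446 c5397 c5444 c23244 c9696 c13156 (k8 c13204 c294 c21491 c24014 c1903 c663 c23684 c9332 (k8 c23229 c2041 c5501 c5542 c5544 c17700 c18037 c23390 (k8 c5653 c2191 c5318 c24015 c2514 c1318 c24016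 c5221 (k2 c20261 c10866 k0))))))) (by decide +kernel)
def c24018 : PP 9 3 T 0x2000110000000000000000000040000000000000000000000000000000000000000000002000000000000000000000000000000002002 := rS 0x7b40780e32908d60de73f9c5768391d8dcbe633e9fcf209 (k8 c23939 c23944 c23945 c23943 c23946 c23938 c2363 c289 (k8 c24008 c23998 c5414 c5589 c9824 c3038 c5221 c5558 (k4 c24016 c667 c5654 c18032 (k2 c5457 c907 k0)))) (by decide +kernel)
def c24019 : PP 9 3 T 0x2000110000000000000000000000000000000000000000000000000000000000000000000000000000000000000000000000080002002 := rS 0x11ff3812469713 (k4 c4731 c5517 c24018 c24017 (k2 c5550 c20799 (k1 c5675 k0))) (by decide +kernel)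
def c24020 : PP 9 3 T 0x2000010000000000000000000000000000000000000000000000000000000000000000000000000000000000000000000000080002002 := rS 0x562583a330d19de5ed38f80861194d636e6f39e806e3b7bbc5ea95d988768399dd2cee5f3ce48fe09 (k8 c23939 c23945 c23937 c23944 c23938 c23947 c5517 c24012 (k8 c24008 c23998 c5528 c18631 c5446 c23244 c9696 c20809 (k8 c289 c2363 c24019 c5379 c5565 c17744 c20261 c17840 (k8 c5558 c5561 c5654 c667 c23390 c5657 c23684 c2533 (k4 c387 c333 c20857 c23979 (k1 c1908 k0)))))) (by decide +kernel)
def c24021 : PP 9 3 T 0x400000000014000000100054001000000000000000000000000 := rS 0x2f9f4fe63 (k4 c23946 c23945 c23943 c23938 (k1 c3599 k0)) (by decide +kernel)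
def c24022 : PP 9 3 T 0x8000000000000000000000000000000000008 := rS 0x9 (k2 c23939 c261 k0) (by decide +kernel)
def c24023 : PP 9 3 T 0x10000001000000000000000000000000050000000000000540000000000000000000000000100000000000000000000000000000000 := rS 0x3ee3ef27f (k4 c23945 c23942 c23941 c23943 (k1 c3612 k0)) (by decide +kernel)
def c24024 : PP 9 3 T 0x800000000002000 := rS 0x9 (k2 c23939 c289 k0) (by decide +kernel)
def c24025 : PP 9 3 T 0x400000000000540000000000000000001400104000000000000000000000000000000 := rS 0x3fb1cfa79 (k4 c23944 c23943 c23940 c23945 (k1 c3610 k0)) (by decide +kernel)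
def c24026 : PP 9 3 T 0x400000000000540000000000000000001400104000000000000000000000000000000 := rS 0x192 (k2 c23937 c17932 k0) (by decide +kernel)
def c24027 : PP 9 3 T 0x400000000000540000000000000000001400104000000000000000000000000000000 := rS 0x32479 (k2 c23944 c23937 (k1 c17983 k0)) (by decide +kernel)
def c24028 : PP 9 3 T 0x1000020000000000000000000000000000000000400000000000540000000000000000000400100000000000000000000000000000000 := rS 0x7d2f98cfe6d (k4 c22545 c23945 c23946 c23938 (k2 c23943 c18087 k0)) (by decide +kernel)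
def c24029 : PP 9 3 T 0x8000000000008000000000000000000000000000 := rS 0x7d (k2 c23943 c2815 k0) (by decide +kernel)
def c24030 : PP 9 3 T 0x4000000000000000540000000001440 := rS 0xc73c83cae09 (k4 c23939 c21872 c21871 c23944 (k2 c23940 c3568 k0)) (by decide +kernel)
def c24031 : PP 9 3 T 0x8000000000020000 := rS 0x7f (k2 c23945 c2907 k0) (by decide +kernel)
def c24032 : PP 9 3 T 0x20000000000020000000000000000000000000000 := rS 0x7f (k2 c23945 c2929 k0) (by decide +kernel)
def c24033 : PP 9 3 T 0x80000000000000000002000000000000000000000000000000000000 := rS 0x7f (k2 c23945 c2948 k0) (by decide +kernel)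
def c24034 : PP 9 3 T 0x10000000000000000000040000000000000000000000000000000000000000000000000000000000000000000000000000001400 := rS 0xf (k2 c21871 c5645 k0) (by decide +kernel)
def c24035 : PP 9 3 T 0x100000000000000015000000000050040 := rS 0x495cfa7f (k4 c23945 c23943 c21872 c23939 (k1 c12613 k0)) (by decide +kernel)
def c24036 : PP 9 3 T 0x800000000000000002000000000000000000 := rS 0xf (k2 c21871 c2843 k0) (by decide +kernel)
def c24037 : PP 9 3 T 0x1500000000000000000000001400000001400000054400000000000000000000000000 := rS 0x6d (k2 c22545 c3604 k0) (by decide +kernel)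
def c24038 : PP 9 3 T 0x10000010000000000000000000000000000000000100000000000000000000000000000000000000000400000000000000000000000000 := rS 0x6d (k2 c22545 c5665 k0) (by decide +kernel)
def c24039 : PP 9 3 T 0x10000000001104000000000000000000000000000000000000000000000000000540000000000000001000000000000000000000000 := rS 0x31de71e5f (k4 c23938 c23941 c23942 c23946 (k1 c3600 k0)) (by decide +kernel)
def c24040 : PP 9 3 T 0x10000000000000000000000000000000000000000000000000000000000000000000400000000000000000800000000000000400 := rS 0xf (k2 c21871 c5779 k0) (by decide +kernel)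
def c24041 : PP 9 3 T 0x800000000000000008000000000000000000000000000 := rS 0x6d (k2 c22545 c2820 k0) (by decide +kernel)
def c24042 : PP 9 3 T 0x800000000000000000000000800000000000000000000000000000000000000000000 := rS 0x6d (k2 c22545 c2456 k0) (by decide +kernel)
def c24043 : PP 9 3 T 0x800000000000000000000000000000000000000020000000000000000000000000000 := rS 0x6d (k2 c22545 c755 k0) (by decide +kernel)
def c24044 : PP 9 3 T 0x2000000000000000000000000000000000000000020000000000000000000000000000 := rS 0x6d (k2 c22545 c3049 k0) (by decide +kernel)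
def c24045 : PP 9 3 T 0x200000800 := rS 0x6d (k2 c22545 c2416 k0) (by decide +kernel)
def c24046 : PP 9 3 T 0x501144000000000000000000000000100000000000000000000054000000000000000000400000000000000000000000000 := rS 0x6d (k2 c22545 c3605 k0) (by decide +kernel)
def c24047 : PP 9 3 T 0x100000000000000000000000000001500000004000401000000000000000000000000 := rS 0x79319b58e5f (k4 c23938 c23940 c22545 c23946 (k2 c23944 c3598 k0)) (by decide +kernel)
def c24048 : PP 9 3 T 0x1010000000001104000000000000000000000000000000000000000000000000000540000000000000001000000000000000000000000 := rS 0x18cbf8f (k4 c23941 c23938 c23946 c5264 k0) (by decide +kernel)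
def c24049 : PP 9 3 T 0x5 := rS 0x5 (k2 c21870 c5642 k0) (by decide +kernel)
def c24050 : PP 9 3 T 0x10000000000400000000000000000000000000000000000000015000000000000000000000000000000000000000000000000000000 := rS 0x1df1f79 (k4 c23942 c23941 c23947 c20744 k0) (by decide +kernel)
def c24051 : PP 9 3 T 0x540000000000000000100100000000000000000000000000000000 := rS 0x1f4fe77 (k4 c23947 c23945 c23943 c20751 k0) (by decide +kernel)
def c24052 : PP 9 3 T 0x800000000000000200000000000000000000000000000000000000000000000000440000000000000000100000000000000000000000000000000000 := rS 0x7f (k2 c23945 c20754 k0) (by decide +kernel)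
def c24053 : PP 9 3 T 0x8000000000000000000000000000000000000000000000000000000000000000000100000000000000000100100000000000000000000000000000000 := rS 0xfa77 (k2 c23947 c23943 (k1 c20755 k0)) (by decide +kernel)
def c24054 : PP 9 3 T 0x8000800000000000000200000000000000000000000000000000000000000000000000100000000000000000000000000000000000000000000000000000 := rS 0x7f (k2 c23945 c20759 k0) (by decide +kernel)
def c24055 : PP 9 3 T 0x8000000000000041000000000000000000000100000000000100000000000000000000000000000000000000000100000000000000000000000000000000 := rS 0x7d (k2 c23943 c20760 k0) (by decide +kernel)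
def c24056 : PP 9 3 T 0x80000000000000000200000000000000000000000000000000000 := rS 0x77 (k2 c23947 c2083 k0) (by decide +kernel)
def c24057 : PP 9 3 T 0x15000000000000000004004000000000000000000000000000000 := rS 0x31cee79 (k4 c23944 c23947 c23940 c20770 k0) (by decide +kernel)
def c24058 : PP 9 3 T 0x10000000000000000000000008000000000000000000000000000000000000000000004000000000000000000000000000001400 := rS 0xf (k2 c21871 c20783 k0) (by decide +kernel)
def c24059 : PP 9 3 T 0x1000000000000010000000000000000000000000000000000000000000001000000000000000000001000000000000000080000000000000000000000000 := rS 0x6d (k2 c22545 c5830 k0) (by decide +kernel)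
def c24060 : PP 9 3 T 0x100001000000000000000000005000000004000000440000000000000000000000000 := rS 0x6d (k2 c22545 c20788 k0) (by decide +kernel)
def c24061 : PP 9 3 T 0x80000000000000080000000000000000000000000000000000000000000000000000000000 := rS 0x179 (k2 c23942 c3356 k0) (by decide +kernel)
def c24062 : PP 9 3 T 0x800000000000000000000008000000000000000000000000000 := rS 0x5f (k2 c23938 c1144 k0) (by decide +kernel)
def c24063 : PP 9 3 T 0x20000000000080000000000000000000000000000 := rS 0x63 (k2 c23946 c1196 k0) (by decide +kernel)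
def c24064 : PP 9 3 T 0x2000000000000000000000008000000000000000000000000000000000000000000000000 := rS 0x9 (k2 c23939 c306 k0) (by decide +kernel)
def c24065 : PP 9 3 T 0x8000000000000000000000000000000000000000000000000000000000000000000000000000000000080000000000 := rS 0x5 (k2 c21870 c3192 k0) (by decide +kernel)
def c24066 : PP 9 3 T 0x2000000000000000000800000 := rS 0x5 (k2 c21870 c1460 k0) (by decide +kernel)
def c24067 : PP 9 3 T 0x8000000000000000008000000000 := rS 0x5 (k2 c21870 c2814 k0) (by decide +kernel)
def c24068 : PP 9 3 T 0x2000000000080000 := rS 0x7d (k2 c23943 c2806 k0) (by decide +kernel)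
def c24069 : PP 9 3 T 0x2000000000000000000800000000000000000 := rS 0xf (k2 c21871 c2785 k0) (by decide +kernel)
def c24070 : PP 9 3 T 0x800000000000080000000000000000000000000000000000000000000000000000000 := rS 0xc7 (k2 c23940 c2512 k0) (by decide +kernel)
def c24071 : PP 9 3 T 0x800000000000000000000800000000000000000000000000000000000 := rS 0x79 (k2 c23944 c2403 k0) (by decide +kernel)
def c24072 : PP 9 3 T 0x200000000000000000000800000000000000000000000000000000000 := rS 0x7d (k2 c23943 c2846 k0) (by decide +kernel)
def c24073 : PP 9 3 T 0x80000000000000000000000000000000000002000000000000000000000000000000000000000000000000000000000 := rS 0x179 (k2 c23942 c3346 k0) (by decide +kernel)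
def c24074 : PP 9 3 T 0x200000000000000000000000000000000002000000000000000000000000000000000000000000000000000000000000000000000000 := rS 0x18f (k2 c23941 c3230 k0) (by decide +kernel)
def c24075 : PP 9 3 T 0x8000000000000000080000000000000 := rS 0xf (k2 c21871 c1478 k0) (by decide +kernel)
def c24076 : PP 9 3 T 0x800000000000000000010000001000000000000000000000000000000000000000140000000000000000000000000100000000000000000000000000000000 := rS 0x3fde71e7d (k4 c23943 c23941 c23942 c23945 (k1 c17992 k0)) (by decide +kernel)
def c24077 : PP 9 3 T 0x20000000000080000 := rS 0x9 (k2 c23939 c297 k0) (by decide +kernel)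
def c24078 : PP 9 3 T 0x200000000000800 := rS 0xc7 (k2 c23940 c2470 k0) (by decide +kernel)
def c24079 : PP 9 3 T 0x800000000000000000800000000 := rS 0xf (k2 c21871 c1134 k0) (by decide +kernel)
def c24080 : PP 9 3 T 0x200000000000800000000000000000000000000 := rS 0x79 (k2 c23944 c2373 k0) (by decide +kernel)
def c24081 : PP 9 3 T 0x2000000000000800000000000000000000000000 := rS 0x5f (k2 c23938 c1135 k0) (by decide +kernel)
def c24082 : PP 9 3 T 0x800008 := rS 0x5f (k2 c23938 c1107 k0) (by decide +kernel)
def c24083 : PP 9 3 T 0x2000000000000002000000000000000000000000 := rS 0x6d (k2 c22545 c1697 k0) (by decide +kernel)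
def c24084 : PP 9 3 T 0x200000008 := rS 0x6d (k2 c22545 c266 k0) (by decide +kernel)
def c24085 : PP 9 3 T 0x200000000000000000000000000000800000000000000000000000000000000000000 := rS 0x63 (k2 c23946 c1187 k0) (by decide +kernel)
def c24086 : PP 9 3 T 0x80000000002000 := rS 0x79 (k2 c23944 c2363 k0) (by decide +kernel)
def c24087 : PP 9 3 T 0x800000000000000000000000000000000000000002000000000000000000000000000000000000000000000000000000 := rS 0x77 (k2 c23947 c2093 k0) (by decide +kernel)
def c24088 : PP 9 3 T 0x200000000000000000000000080000000000000000000000000 := rS 0x77 (k2 c23947 c2063 k0) (by decide +kernel)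
def c24089 : PP 9 3 T 0x80000000008000000000000 := rS 0x77 (k2 c23947 c2041 k0) (by decide +kernel)
def c24090 : PP 9 3 T 0x20000000000000000000000000008000000000000000000000000000000000 := rS 0xf (k2 c21871 c1922 k0) (by decide +kernel)
def c24091 : PP 9 3 T 0x2000000000000000008000000000000000000000000000000000 := rS 0x77 (k2 c23947 c2073 k0) (by decide +kernel)
def c24092 : PP 9 3 T 0x8000000000000000080000000000000000000000000 := rS 0x6d (k2 c22545 c2124 k0) (by decide +kernel)
def c24093 : PP 9 3 T 0x80000000000000000008000000 := rS 0x5 (k2 c21870 c1903 k0) (by decide +kernel)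
def c24094 : PP 9 3 T 0x100000000000000000000000000000000000000000000000000000000000000000000000000000000000000020000000000010000 := rS 0x9 (k2 c23939 c12636 k0) (by decide +kernel)
def c24095 : PP 9 3 T 0x100000000000000000000000000000000000000000000000000000000000000000000000000000000000000002000000000010000 := rS 0x7d (k2 c23943 c12640 k0) (by decide +kernel)
def c24096 : PP 9 3 T 0x540000000000000000100100000000000000000000000000000000 := rS 0xfb92 (k2 c23937 c23943 (k1 c20816 k0)) (by decide +kernel)
def c24097 : PP 9 3 T 0x200560000000000000000100004000000000000000000000000000000 := rS 0x1fcee7d (k4 c23943 c23947 c23945 c20817 k0) (by decide +kernel)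
def c24098 : PP 9 3 T 0x5000000000000000000000000000000000000000000000000000800000000000500000000000000000000000000000000000000000000000000000000 := rS 0xc7 (k2 c23940 c8617 k0) (by decide +kernel)
def c24099 : PP 9 3 T 0x8000800000000000000000000000000000000000000000000000000000000000000000000000000000000000000100000000000000000000000000000000 := rS 0xfa7f (k2 c23945 c23943 (k1 c20821 k0)) (by decide +kernel)
def c24100 : PP 9 3 T 0x40000000000000000000000000000000000000000000000008000000000040000000000000000001000 := rS 0xf (k2 c21871 c8435 k0) (by decide +kernel)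
def c24101 : PP 9 3 T 0x22000020000000000000000000000000000000000000000000000000000000000000000000000000000000000000000000000000000000 := rS 0x192 (k2 c23937 c17690 k0) (by decide +kernel)
def c24102 : PP 9 3 T 0x4000000000000000000100000000000000000000000000000000000000000000000000000100000100000050000100000041000000000000000000000000 := rS 0x192 (k2 c23937 c20825 k0) (by decide +kernel)
def c24103 : PP 9 3 T 0x10000000000000000000000000000000000100000000000000000000000000002000000004000000000000000000000000000000 := rS 0x6d (k2 c22545 c8792 k0) (by decide +kernel)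
def c24104 : PP 9 3 T 0x100000000000000000000000000000000000000000000000000000800000000000000000000050000000000000000000000000000 := rS 0x5f (k2 c23938 c8466 k0) (by decide +kernel)
def c24105 : PP 9 3 T 0x20000000000000000000000000000000000000000000000000015000000000000000000000000000000000000000000000000000 := rS 0x192 (k2 c23937 c20826 k0) (by decide +kernel)
def c24106 : PP 9 3 T 0xa001000000000000000020000000000000000000000000000000000000000000000400000000000000000000000000000000000000000000000000000000 := rS 0x192 (k2 c23937 c20828 k0) (by decide +kernel)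
def c24107 : PP 9 3 T 0x80008000000000000000020000000000000000000000000000000000000000000000000000000000000000000000000000000000000000000000000000000 := rS 0x192 (k2 c23937 c17692 k0) (by decide +kernel)
def c24108 : PP 9 3 T 0x8008000000000000000000000000000000000000000000000000000000000000000000400000000000000000000000000000000000000000000000000000 := rS 0x192 (k2 c23937 c20829 k0) (by decide +kernel)
def c24109 : PP 9 3 T 0x8000000000050000000000000000000000100040000000000000000000000000000000000000000000000000000000000000000000000000000000000 := rS 0x192 (k2 c23937 c9025 k0) (by decide +kernel)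
def c24110 : PP 9 3 T 0x1000000000000000000000000000000000000000000000000000800000000000400810000000000000000000000000000000000000000000000000000 := rS 0xc7 (k2 c23940 c8980 k0) (by decide +kernel)
def c24111 : PP 9 3 T 0x202002000000000000000000000000000000000000000000000000000000000000000000000000000000000000000000000000000000000 := rS 0x192 (k2 c23937 c8905 k0) (by decide +kernel)
def c24112 : PP 9 3 T 0x10000000000000000000040008000000000000001054000000000000000005000000004000000000040000000000000440000000 := rS 0x1e6d (k2 c22545 c21871 (k1 c20832 k0)) (by decide +kernel)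
def c24113 : PP 9 3 T 0x40000000000000000000110000000000000000000000000000000000000000000000000000000000400000001000000020000000000000000000000000000 := rS 0x6d (k2 c22545 c10427 k0) (by decide +kernel)
def c24114 : PP 9 3 T 0x40000000000000000000000200000000000200000000000000000000000000000000000000000000044000000000000000000000000002 := rS 0x192 (k2 c23937 c17840 k0) (by decide +kernel)
def c24115 : PP 9 3 T 0x80000000000000000000000000008000000000040000000000000000000000 := rS 0xf (k2 c21871 c20840 k0) (by decide +kernel)
def c24116 : PP 9 3 T 0x10000000000000000000000000000000000000000000000200000000000000020000000000004000000000000000000000000000 := rS 0xc66d (k2 c22545 c23946 (k1 c9214 k0)) (by decide +kernel)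
def c24117 : PP 9 3 T 0x200000000000000000000000400000000014000000100054000000000014000015000000000 := rS 0xc67f2f824fa05 (k4 c21870 c23943 c23939 c23938 (k2 c23945 c23946 (k1 c10308 k0))) (by decide +kernel)
def c24118 : PP 9 3 T 0x100000000000000000000000000001500000004000000000000000000000000001042 := rS 0x5f639e4c66d (k4 c22545 c23946 c23944 c23940 (k2 c23938 c10253 k0)) (by decide +kernel)
def c24119 : PP 9 3 T 0x100000000000000000000000000000000000000000000000000000000000000010000000100054001000000000000000000000000 := rS 0x2f9fcfa63 (k4 c23946 c23943 c23945 c23938 (k1 c9934 k0)) (by decide +kernel)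
def c24120 : PP 9 3 T 0x8000000000000000000000000000000000000100000000000100000000000000000000000000000000000000000000000000000000015000000000000040 := rS 0x1257 (k2 c21872 c23939 (k1 c20848 k0)) (by decide +kernel)
def c24121 : PP 9 3 T 0x200000000000000000200000000000000000000000000000000000000000000000000000000000000000000004000000000000040 := rS 0x3e9fc1257 (k4 c21872 c23939 c23945 c23943 (k1 c17896 k0)) (by decide +kernel)
def c24122 : PP 9 3 T 0x4000000000000000001000000000100000000000040000000000000000000000015000011000048 := rS 0x9 (k2 c23939 c20849 k0) (by decide +kernel)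
def c24123 : PP 9 3 T 0x1500000000000000000000000000000000000842 := rS 0x5f3698cf2c7 (k4 c23940 c23944 c23946 c22545 (k2 c23938 c10374 k0)) (by decide +kernel)
def c24124 : PP 9 3 T 0x200000000000000000000000000000000000000000000000000040000000010000000000000 := rS 0x1277 (k2 c23947 c23939 (k1 c20850 k0)) (by decide +kernel)
def c24125 : PP 9 3 T 0x100000000000000000000000000000000000000000000000540000000000000000000000000000000000005404540000000010000 := rS 0x192 (k2 c23937 c12667 k0) (by decide +kernel)
def c24126 : PP 9 3 T 0x200000000000000000000000000000000040000000000000000000100000000000000000020000000040000 := rS 0xfb92 (k2 c23937 c23943 (k1 c20851 k0)) (by decide +kernel)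
def c24127 : PP 9 3 T 0x15000000000000000004004000000000000000000000000000000 := rS 0x31cee79 (k4 c23944 c23947 c23940 c20853 k0) (by decide +kernel)
def c24128 : PP 9 3 T 0x80000000000001000000000000000000204000000000000000000000000000000 := rS 0x77 (k2 c23947 c20855 k0) (by decide +kernel)
def c24129 : PP 9 3 T 0x20000000000000000000000000000000000000000000000000000000000000000000000404000000000000000000000540000001000408 := rS 0x5f (k2 c23938 c18018 k0) (by decide +kernel)
def c24130 : PP 9 3 T 0x20000000000000000000000000000000000000000000000000000000000000001500000000000001000000000000000000000000 := rS 0x3246d (k2 c22545 c23937 (k1 c17842 k0)) (by decide +kernel)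
def c24131 : PP 9 3 T 0x4000000000001000000000000000000000000000000000000000000000000000000000400000000000000000100014001000000001000001000800000 := rS 0x3e97cfe63 (k4 c23946 c23945 c23938 c23943 (k1 c9210 k0)) (by decide +kernel)
def c24132 : PP 9 3 T 0x2000000000000000000000000000000000000000000000000000000000000000000000050000000000040000000000000000000000000 := rS 0xbe77 (k2 c23947 c23938 (k1 c20857 k0)) (by decide +kernel)
def c24133 : PP 9 3 T 0x400000000000000000000000000000000000000000000100000000000000000000000000000000000000000000000000080000000011000000000000 := rS 0x77 (k2 c23947 c9931 k0) (by decide +kernel)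
def c24134 : PP 9 3 T 0x800000000000000000000000000000000000000000000100000000000000000000400000000000000000100100000000000000000000000000010000 := rS 0x1f41257 (k4 c21872 c23939 c23943 c20859 k0) (by decide +kernel)
def c24135 : PP 9 3 T 0x20000000000000000010000000000000000000000000000000000000000000000000005000000000000000000000000000000000000000000000000000000 := rS 0x192 (k2 c23937 c20860 k0) (by decide +kernel)
def c24136 : PP 9 3 T 0x10000000000000000000000000000000000100000000000000000000000008000000000000000000000000000000000000000000 := rS 0x6d (k2 c22545 c20861 k0) (by decide +kernel)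
def c24137 : PP 9 3 T 0x100001000000000000000000005000000004000000000040000000000000040000002 := rS 0x6d (k2 c22545 c20862 k0) (by decide +kernel)
def c24138 : PP 9 3 T 0x1000000000000000000010000000000000000000040000000000000000001055000000000000000005000000000000000000000000000000000110000401 := rS 0xf (k2 c21871 c9945 k0) (by decide +kernel)
def c24139 : PP 9 3 T 0x82000200000000000000000000000000000000000000000000000000000000000000000000000000000000000000000000000000000000 := rS 0xfe5f (k2 c23938 c23945 (k1 c17744 k0)) (by decide +kernel)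
def c24140 : PP 9 3 T 0x20000000000000000000000000080000000000000000000000000000000000000000000404000000000800000000000500000401000000 := rS 0xa5f (k2 c23938 c21870 (k1 c9932 k0)) (by decide +kernel)
def c24141 : PP 9 3 T 0x8000000000000000000000000000000000000000200000000000000020000000000000000000000000000000000000000000000000000 := rS 0x17cee63 (k4 c23946 c23947 c23938 c20865 k0) (by decide +kernel)
def c24142 : PP 9 3 T 0x42000000000000000000010000000000000000000000000000000000000000000000000000000000000000000000000000000000000200000000000000802 := rS 0x6d (k2 c22545 c20868 k0) (by decide +kernel)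
def c24143 : PP 9 3 T 0x1100000000000400000000000100000000800800 := rS 0x792f98d8e6d (k4 c22545 c23940 c23946 c23938 (k2 c23944 c18053 k0)) (by decide +kernel)
def c24144 : PP 9 3 T 0x10000000000000000000000000000000000100000000000000020000000000000080000000000000000000000000000000000000 := rS 0x5f (k2 c23938 c9368 k0) (by decide +kernel)
def c24145 : PP 9 3 T 0x10000000000000000000000000000000000100000000000000000000000000000008000000000400000000000200000000000000 := rS 0xc7 (k2 c23940 c9515 k0) (by decide +kernel)
def c24146 : PP 9 3 T 0x20000000000000000000000000000100000000000014000000005000000000000000000000000000040000000405000000001400 := rS 0x1dc1f92 (k4 c23937 c21871 c23947 c20872 k0) (by decide +kernel)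
def c24147 : PP 9 3 T 0x1000400000000000000000000000000000000000000000000100000000000000000000001000000000000000000004000000000000000800000000000000 := rS 0xee09 (k2 c23939 c23947 (k1 c20873 k0)) (by decide +kernel)
def c24148 : PP 9 3 T 0x20000110000000000000000000000000000000000000000000000140000400000000000001400004020000000000000000000000000000 := rS 0x192 (k2 c23937 c11724 k0) (by decide +kernel)
def c24149 : PP 9 3 T 0x2000000000000000000000000000000000000000000000000000000000000050000000000000000000000000000000000000040000000000000000001400 := rS 0xf (k2 c21871 c20874 k0) (by decide +kernel)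
def c24150 : PP 9 3 T 0x41001000000000055000200000000000000000000000000000000000000000000000000000000000000000000000000000000000000000000000000000000 := rS 0x7f (k2 c23945 c20875 k0) (by decide +kernel)
def c24151 : PP 9 3 T 0x80000000000000000000020000000000000000000000000000000000000014000000000014000000000000000100100000000000000000000000000000000 := rS 0x192 (k2 c23937 c20876 k0) (by decide +kernel)
def c24152 : PP 9 3 T 0x40000000000000000000020000000000000000100040000000000001400000000000000000000000400000000000000044000000005000000010000000002 := rS 0x6d (k2 c22545 c12357 k0) (by decide +kernel)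
def c24153 : PP 9 3 T 0x2000020000000000000000000000000000000000000000000000000000000000000000000000000000000000000000400000080000000 := rS 0xb92 (k2 c23937 c21870 (k1 c12404 k0)) (by decide +kernel)
def c24154 : PP 9 3 T 0x200000000000000000000000000000000000000000000000440000000000000000000000004000000000001000080000000000800 := rS 0x192 (k2 c23937 c11714 k0) (by decide +kernel)
def c24155 : PP 9 3 T 0x40000000000000050000100000000000000000000040000000000000100000000000000000000001000000000000000000000000002000000000440000000 := rS 0x5 (k2 c21870 c12405 k0) (by decide +kernel)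
def c24156 : PP 9 3 T 0x80000000000000002000100000000000000000000000000000000000000000000000140000000000000001000400004040000000000000000000000000000 := rS 0x192 (k2 c23937 c18024 k0) (by decide +kernel)
def c24157 : PP 9 3 T 0x400000000000000000000000000000000000000000000000000000000014000000010000000000000000000000000000040000000200000000001400 := rS 0xee0f (k2 c21871 c23947 (k1 c20879 k0)) (by decide +kernel)
def c24158 : PP 9 3 T 0x4000000000000000540000000001440 := rS 0x3caf92 (k4 c23937 c21872 c21871 c18025 k0) (by decide +kernel)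
def c24159 : PP 9 3 T 0x40000000015000000000040 := rS 0xaf92 (k2 c23937 c21872 (k1 c20880 k0)) (by decide +kernel)
def c24160 : PP 9 3 T 0x8000000000000000000000000000000000000000000000000000000000000000004000000000040 := rS 0x1dcae09 (k4 c23939 c21872 c23947 c20881 k0) (by decide +kernel)
def c24161 : PP 9 3 T 0x800000000000000020000000000000000000000000000000000000000000000000010000000000000000000000000000000000000000000000000000 := rS 0x192 (k2 c23937 c20882 k0) (by decide +kernel)
def c24162 : PP 9 3 T 0x200000000000000000200000000000000000000000000000040000000000000000000000004000000000000000800000000000000 := rS 0x192 (k2 c23937 c11859 k0) (by decide +kernel)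
def c24163 : PP 9 3 T 0x10000000000000000000000000000000000000000000000000001000000000000000000000000000040000000811000000000040 := rS 0x18e09 (k2 c23939 c23940 (k1 c20885 k0)) (by decide +kernel)
def c24164 : PP 9 3 T 0x4000000000001000000000000000000000000000000000000000000000000000000500400000010000000100000020000000000000000000000000000 := rS 0x192 (k2 c23937 c20889 k0) (by decide +kernel)
def c24165 : PP 9 3 T 0x20000000000000000000000000000000000000000000000000000000000000000500000000000400000000000080000000000002 := rS 0x192 (k2 c23937 c17851 k0) (by decide +kernel)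
def c24166 : PP 9 3 T 0x2000100000000000000000200000000000000000000000000000000000000000000000000000000010000000000004000000800000000 := rS 0x5f (k2 c23938 c12251 k0) (by decide +kernel)
def c24167 : PP 9 3 T 0xa000000000000000020000000000000000000000000000000000400000000000000000000000000000000000000000000000000000000000000000000 := rS 0x192 (k2 c23937 c11976 k0) (by decide +kernel)
def c24168 : PP 9 3 T 0xa000000000000000200000000000000000000000000000000000000000000000000000000000000000001000000000000000000000000000000000000 := rS 0x79 (k2 c23944 c17754 k0) (by decide +kernel)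
def c24169 : PP 9 3 T 0x100000000000000000000000000000000000000000000000000000000000000008000000000040000000000000000000001050040 := rS 0x3e95cfe09 (k4 c23939 c23945 c21872 c23943 (k1 c18059 k0)) (by decide +kernel)
def c24170 : PP 9 3 T 0x8000000000000000020000000000000000000000000000000000400000000000100000000000000000000000100000000000000000000000000000000 := rS 0xfac7 (k2 c23940 c23943 (k1 c17854 k0)) (by decide +kernel)
def c24171 : PP 9 3 T 0x5000000000000000000000000000000000000000000000000000000044000000500040000000000000001504000000000000000000000000000000000 := rS 0xc7 (k2 c23940 c20898 k0) (by decide +kernel)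
def c24172 : PP 9 3 T 0x20000110000000000000000100040000000000000000000000000000000000001000000000400000054400000001000000000000001000 := rS 0xf (k2 c21871 c18106 k0) (by decide +kernel)
def c24173 : PP 9 3 T 0x110000000000000000000040000000000000400000000000000000000001400000001000000050400000004400000015000000000 := rS 0x5 (k2 c21870 c13132 k0) (by decide +kernel)
def c24174 : PP 9 3 T 0x40000000000000000000000000000000000000000000002000000000000000000000000000000011000 := rS 0xf (k2 c21871 c13457 k0) (by decide +kernel)
def c24175 : PP 9 3 T 0x22000000000000000000000000040000000000000000000000000000000000000000000000000000000400000000000400000000001000 := rS 0x1f92 (k2 c23937 c21871 (k1 c13358 k0)) (by decide +kernel)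
def c24176 : PP 9 3 T 0x20000010000000000000000000040000000000000000000000000000000000000000001000000000000000000000000000000000801002 := rS 0xc72f98cf205 (k4 c21870 c23944 c23946 c23938 (k2 c23940 c14582 k0)) (by decide +kernel)
def c24177 : PP 9 3 T 0x2000000000000000020000000000000000000000000000000000000000000000000004000000000000000000000000000000000000000000000000000 := rS 0x192 (k2 c23937 c20907 k0) (by decide +kernel)
def c24178 : PP 9 3 T 0x8000000000000041000000000000000000000000000000000000000000000000000000400400000050000000100000044040000000000000000000000000 := rS 0x192 (k2 c23937 c20910 k0) (by decide +kernel)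
def c24179 : PP 9 3 T 0x1000120000000000000000000000000000000000000000000000140000000000000000000000000000000000000810000000000000000 := rS 0x7f3e98cda5f (k4 c23938 c22545 c23946 c23943 (k2 c23945 c18078 k0)) (by decide +kernel)
def c24180 : PP 9 3 T 0x80000000000000000000020000000000000000000000000000000000000000000000040000000000000000000000100000000000000000000000000000000 := rS 0x1fcfac7 (k4 c23940 c23943 c23945 c17861 k0) (by decide +kernel)
def c24181 : PP 9 3 T 0x2000100000000000000000000000000000000000000000000000000000000000000000000000100054000000000000000000000000000 := rS 0x3f9f4c65f (k4 c23938 c23946 c23943 c23945 (k1 c18032 k0)) (by decide +kernel)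
def c24182 : PP 9 3 T 0x80000000000a2000110000000000000000000000000000000000400000000000000000000000000000001000000000000000000000000000000000000 := rS 0x7d (k2 c23943 c17967 k0) (by decide +kernel)
def c24183 : PP 9 3 T 0x100000000000100000800000000000000000000000000000000000008000000000001000000000000010000 := rS 0x192 (k2 c23937 c17863 k0) (by decide +kernel)
def c24184 : PP 9 3 T 0x8000000000080000120000000000000000000040000000000000000000000000000000000000000000004000000000000000004001000000001400001 := rS 0x18e7d (k2 c23943 c23940 (k1 c18098 k0)) (by decide +kernel)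
def c24185 : PP 9 3 T 0x110000000000000000000000000000000000400000000000800000000000000000001000000000000000000000000000000000000 := rS 0x79 (k2 c23944 c13204 k0) (by decide +kernel)
def c24186 : PP 9 3 T 0x100000000000050000000000041000000000000000000000000 := rS 0xef92 (k2 c23937 c23947 (k1 c20913 k0)) (by decide +kernel)
def c24187 : PP 9 3 T 0x2000000000000000000020000000000000000000000000000000000000000000000000000000000001000000000000000440000000000000000000000000 := rS 0x6d (k2 c22545 c20915 k0) (by decide +kernel)
def c24188 : PP 9 3 T 0x100000000000000000000000000000000000054000000000040000000000004000001000002 := rS 0x192 (k2 c23937 c20916 k0) (by decide +kernel)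
def c24189 : PP 9 3 T 0x1000020000000000000000000080000000100000000000000000000000000000000001004000000000000000000000000000001000002 := rS 0x31cbe63 (k4 c23946 c23938 c23940 c14904 k0) (by decide +kernel)
def c24190 : PP 9 3 T 0x100000100000000000000000000000000001104000004000000000000000000000040000002 := rS 0x6d2fb1cc679 (k4 c23944 c23946 c23940 c23938 (k2 c22545 c18099 k0)) (by decide +kernel)
def c24191 : PP 9 3 T 0x10000000000000000000000008000000000000000000000000001000000000000000000000000000000000000800000000000400 := rS 0x192 (k2 c23937 c20917 k0) (by decide +kernel)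
def c24192 : PP 9 3 T 0x200000000000000000200000000000200000000000000000000000000000000000000000000000000000000000000000000000000 := rS 0x192 (k2 c23937 c12891 k0) (by decide +kernel)
def c24193 : PP 9 3 T 0x8004000000000000000000000000000000000000000000000100000000000000000000400000000000000000100000000000000000050000000000020000 := rS 0x192 (k2 c23937 c20918 k0) (by decide +kernel)
def c24194 : PP 9 3 T 0x2000000000000000000000000000000000200000000000000000000000000000000000000000000000800000000000400000440000000 := rS 0xa5f (k2 c23938 c21870 (k1 c17917 k0)) (by decide +kernel)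
def c24195 : PP 9 3 T 0x2000000000000000800000000000000200000000000000000000000000000000000000000000000000000000000000000000000000 := rS 0x192 (k2 c23937 c17707 k0) (by decide +kernel)
def c24196 : PP 9 3 T 0x800000000000000000000000000000000000000000000000000000000000000000000000000000000010000000000041000000000000000000000000 := rS 0x192 (k2 c23937 c20920 k0) (by decide +kernel)
def c24197 : PP 9 3 T 0x11000000000000000000000000040000000100000000000000000000000000000000000000000000000000000000000000010040020008 := rS 0x192 (k2 c23937 c17972 k0) (by decide +kernel)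
def c24198 : PP 9 3 T 0x1000100000000000000000000000000000000000000000000000000000000000000020000000000054000000000000000000000800000 := rS 0xb92 (k2 c23937 c21870 (k1 c17973 k0)) (by decide +kernel)
def c24199 : PP 9 3 T 0x10000000000000000000000000040000000000000000000000000000000000001400000000000000010400000000000000000080020000 := rS 0x5 (k2 c21870 c17974 k0) (by decide +kernel)
def c24200 : PP 9 3 T 0x1000100000000000000000000000000000000000000000000000000000400000000000000000000014000000000000000000000820000 := rS 0x32405 (k2 c21870 c23937 (k1 c17975 k0)) (by decide +kernel)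
def c24201 : PP 9 3 T 0x1000100000000000000000000000000000000000000000000000000000400000000000000000000014001000000000000000000820000 := rS 0x192 (k2 c23937 c17976 k0) (by decide +kernel)
def c24202 : PP 9 3 T 0x2000200000000000000000000000000000000000000000000000000000400000000000000000000010000000000000000000000000000 := rS 0x192 (k2 c23937 c12830 k0) (by decide +kernel)
def c24203 : PP 9 3 T 0x800000000000000200000000000000000000000000000000000000000000000000000000000100008000000000000000000000000000000000000000 := rS 0x63 (k2 c23946 c20924 k0) (by decide +kernel)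
def c24204 : PP 9 3 T 0x2000000000000000000000000000000000000000100000000000000000000000000001000000004000400000000000000000000000000 := rS 0x639e4da5f (k4 c23938 c22545 c23944 c23940 (k1 c17977 k0)) (by decide +kernel)
def c24205 : PP 9 3 T 0x22000020000000000000000000000000000000000100000000000000000000000000000000000000000000000000000000000000000000 := rS 0x31cf25f (k4 c23938 c23944 c23940 c15975 k0) (by decide +kernel)
def c24206 : PP 9 3 T 0x80000000000000000000020000000000000000000000000000000000000000000000000000000001400000000000000054000000000000000000000000000 := rS 0x6d (k2 c22545 c17922 k0) (by decide +kernel)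
def c24207 : PP 9 3 T 0x1008000000000000000200000000000000000000000000000000000000010040000000001000000000000001000004000000000000000008000000000000 := rS 0x192 (k2 c23937 c15157 k0) (by decide +kernel)
def c24208 : PP 9 3 T 0x80000100000000000000000000000000000000000000000000000000000000000000010004000000000001000000005000001001400040 := rS 0x92f9fcfa63 (k4 c23946 c23943 c23945 c23938 (k2 c23939 c16127 k0)) (by decide +kernel)
def c24209 : PP 9 3 T 0x40000100000000000000000200000000000200001000000000000000000400000400004004000000040000000000000440004540401400 := rS 0x6481e57 (k4 c21872 c21871 c23937 c16226 k0) (by decide +kernel)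
def c24210 : PP 9 3 T 0x1000000000000000000000200080000000000002400000000000000000000000000001104000000000000000000000000000101440000 := rS 0x3e824ae7f (k4 c23945 c21872 c23939 c23943 (k1 c16355 k0)) (by decide +kernel)
def c24211 : PP 9 3 T 0x200000000000000000000000000000000100000000000000000200000000000000000000000000000000000005000000000010040 := rS 0x24ae77 (k4 c23947 c21872 c23939 c15288 k0) (by decide +kernel)
def c24212 : PP 9 3 T 0x100000000000000000000080000000200000400000000000140000000000000000001400004000000000000000000000000000000 := rS 0x192 (k2 c23937 c15182 k0) (by decide +kernel)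
def c24213 : PP 9 3 T 0x8000000000000000000000000000000000000000000004000100000000000000000000000000000000000000000000000000000000010014000000020000 := rS 0x1f4ee7f (k4 c23945 c23947 c23943 c20940 k0) (by decide +kernel)
def c24214 : PP 9 3 T 0x400010000000800005000000000000000004004000000000000000000000000000000 := rS 0xee79 (k2 c23944 c23947 (k1 c20941 k0)) (by decide +kernel)
def c24215 : PP 9 3 T 0x11000020000000000000000000000000000000000400000000000400000000000400005400000100000000000000000000000000000000 := rS 0x5f3f9b4fa63 (k4 c23946 c23943 c22545 c23945 (k2 c23938 c18115 k0)) (by decide +kernel)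
def c24216 : PP 9 3 T 0x1000020000000000000000000000000000000000000000000000000000000000000000000000000000000000000000540000000000440 := rS 0x6d2f824c657 (k4 c21872 c23946 c23939 c23938 (k2 c22545 c18085 k0)) (by decide +kernel)
def c24217 : PP 9 3 T 0x1000000000000028000000000000000000000000080004000200000000000001000000001000000000000000000000000000000000000000000000000008 := rS 0xbe09 (k2 c23939 c23938 (k1 c20942 k0)) (by decide +kernel)
def c24218 : PP 9 3 T 0x8000000000080000000000000000000000000000000000000000000000000000000000000000000000000000000004001000000000000000000000000 := rS 0x192 (k2 c23937 c16071 k0) (by decide +kernel)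
def c24219 : PP 9 3 T 0x2000000000000000000000000000000000000000000000000000000000000000000000000000000000000000000000000000000000040000000001440 := rS 0x570483d8e79 (k4 c23944 c23940 c21871 c23939 (k2 c21872 c18042 k0)) (by decide +kernel)
def c24220 : PP 9 3 T 0x80000220000000000000000000040000000000000000000000000000000000000000000000000000000000000000000000000080000000 := rS 0x5 (k2 c21870 c18146 k0) (by decide +kernel)
def c24221 : PP 9 3 T 0x1000000000000000000010000000000000000000040008000000000400000050000000000000000200000000000000000000000005000000000010000408 := rS 0xf (k2 c21871 c19848 k0) (by decide +kernel)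
def c24222 : PP 9 3 T 0x20000000000000000000000008000000000000000050000000000000000000000000000000000000000000000000000000000400 := rS 0xf (k2 c21871 c20053 k0) (by decide +kernel)
def c24223 : PP 9 3 T 0x4000000000000044000100000000000000000000000000000000000000000000000000000000000000000000200000000000040000000000000020000000 := rS 0x5 (k2 c21870 c19047 k0) (by decide +kernel)
def c24224 : PP 9 3 T 0x10000400000000800000000000000200014000000000000000000000000000000000000000000000001405400000000000000800 := rS 0x192 (k2 c23937 c19835 k0) (by decide +kernel)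
def c24225 : PP 9 3 T 0x80000000000000000000000000000000000000000000000000000000000000000000000000100000014000000000000000001008000000 := rS 0x5 (k2 c21870 c18705 k0) (by decide +kernel)
def c24226 : PP 9 3 T 0x5000000000000000000020000000000000000100040004000000000000000000000000000000001400000000000000050000000000140000000000000002 := rS 0x6d (k2 c22545 c18901 k0) (by decide +kernel)
def c24227 : PP 9 3 T 0x1000000000019000000000000000000000000000000000000000100001000000000005100000000001000004004000440000000000000000000000000 := rS 0x1e4da77 (k4 c23947 c22545 c23944 c19227 k0) (by decide +kernel)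
def c24228 : PP 9 3 T 0x200000000000002000000010000000000000400000000000000000000000000000080000000 := rS 0x77 (k2 c23947 c19607 k0) (by decide +kernel)
def c24229 : PP 9 3 T 0x1000000000000000000000000000000000000000000004000000000000000001000000011000000000000040000000000000000000000815000011000048 := rS 0x9 (k2 c23939 c19831 k0) (by decide +kernel)
def c24230 : PP 9 3 T 0x8000000000000000000000000000000000000000000000000000000000000000000100000000000000000100000000000000000000000000000000000 := rS 0xfa77 (k2 c23947 c23943 (k1 c20727 k0)) (by decide +kernel)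
def c24231 : PP 9 3 T 0x20000000000000000000000000000000000000008000000000000000001440000000000000054000000000000000000000000000 := rS 0x6d (k2 c22545 c18659 k0) (by decide +kernel)
def c24232 : PP 9 3 T 0x210000000000000000000000000000000001100000000000000000000001000000001000000050400000000000000000000000002 := rS 0x6d (k2 c22545 c20140 k0) (by decide +kernel)
def c24233 : PP 9 3 T 0x42001800000000000000200000000000000000000000000000000000000080000000000000000000000000001100000000000000000000000000000000000 := rS 0xfe79 (k2 c23944 c23945 (k1 c20702 k0)) (by decide +kernel)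
def c24234 : PP 9 3 T 0x80000000000000000000210000000000000000000000000000000000100000000000000000000000000000000000000050400000000000000000000000002 := rS 0x6d (k2 c22545 c20111 k0) (by decide +kernel)
def c24235 : PP 9 3 T 0x2000000000000000000000000000000000000000100000000000000000000000000000000000004000400000000000080000000000002 := rS 0xf263 (k2 c23946 c23944 (k1 c20063 k0)) (by decide +kernel)
def c24236 : PP 9 3 T 0x20000000000000000000000000000000000000000000000000000000000000000000000406000000000000000001000520000001000008 := rS 0x5f (k2 c23938 c19686 k0) (by decide +kernel)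
def c24237 : PP 9 3 T 0x10000000000000000000000000000000000200000100000000000000000000000000001404000000000000000000000000000140000000 := rS 0xda79 (k2 c23944 c22545 (k1 c19661 k0)) (by decide +kernel)
def c24238 : PP 9 3 T 0x100000004000200000000000000000000800000000000000000100000000000000000100000000000000000 := rS 0x9 (k2 c23939 c19455 k0) (by decide +kernel)
def c24239 : PP 9 3 T 0x1000000000000000000000000000000000000000000000000000000000800000100000050000000040041000000000000000000000000 := rS 0x5f (k2 c23938 c20235 k0) (by decide +kernel)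
def c24240 : PP 9 3 T 0x200000000000001000000000100000000000040000000000001040000000000000000000000 := rS 0x1392 (k2 c23937 c23939 (k1 c19494 k0)) (by decide +kernel)
def c24241 : PP 9 3 T 0x1000000000000000000000000000000000000000000000000000000000100000000000050000000000041000000000000000000000000 := rS 0xbe63 (k2 c23946 c23938 (k1 c20236 k0)) (by decide +kernel)
def c24242 : PP 9 3 T 0x80000200000000000000000000000000000000000000000000000000000000000000014000000000000001000000000000000000000000 := rS 0x18cfe5f (k4 c23938 c23945 c23946 c19656 k0) (by decide +kernel)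
def c24243 : PP 9 3 T 0x4000400000000004000200000000000000000100000004000100000000000000000000000000000000014000000000000001000000000000000000000000 := rS 0xc65f (k2 c23938 c23946 (k1 c19711 k0)) (by decide +kernel)
def c24244 : PP 9 3 T 0x200000000000001000000000100000000000004000000000001040000000000000000000000 := rS 0x1392 (k2 c23937 c23939 (k1 c19532 k0)) (by decide +kernel)
def c24245 : PP 9 3 T 0x20000000000000000000000000000000000200000100000000000000000000000000001484000000000000000000000000000040000000 := rS 0x4b1cbe79 (k4 c23944 c23938 c23940 c23939 (k1 c19662 k0)) (by decide +kernel)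
def c24246 : PP 9 3 T 0x80008000000000000000200000000000000000000000000000000000000000000000000000000000000000000000000000000000000000000000000000000 := rS 0x192 (k2 c23937 c19979 k0) (by decide +kernel)
def c24247 : PP 9 3 T 0x8000000000052000200000000000000000000000000000000000100000000000000000000000000000001000004000400000000000000000000000000 := rS 0x192 (k2 c23937 c20047 k0) (by decide +kernel)
def c24248 : PP 9 3 T 0x1000000000000000000200000000000000000000040004000100000000000000000400000000000000000000000000000000000002000200000000000000 := rS 0x7f (k2 c23945 c20544 k0) (by decide +kernel)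
def c24249 : PP 9 3 T 0x200000000000000000100000004000000000000000000000000000000000010000080000000000000000000000000000000000000 := rS 0x3245f (k2 c23938 c23937 (k1 c19688 k0)) (by decide +kernel)
def c24250 : PP 9 3 T 0x20000000000000000000000000000000000000000000000000000000000000000000000404008000000000000000000520000001000008 := rS 0xbe0f (k2 c21871 c23938 (k1 c19817 k0)) (by decide +kernel)
def c24251 : PP 9 3 T 0x80000000000000000000000000000000000000200000000000000000040000000000000000000100004001000000000020000020000000 := rS 0xbe7d (k2 c23943 c23938 (k1 c18754 k0)) (by decide +kernel)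
def c24252 : PP 9 3 T 0x400000004000800000000000440800480000800 := rS 0x192 (k2 c23937 c19869 k0) (by decide +kernel)
def c24253 : PP 9 3 T 0xa000000000000000000000000000000000000000000000000000000000000000000000000000000000000000000000000000000000000 := rS 0x192 (k2 c23937 c18631 k0) (by decide +kernel)
def c24254 : PP 9 3 T 0x80000000000000000000000002000000000000 := rS 0x5f (k2 c23938 c19693 k0) (by decide +kernel)
def c24255 : PP 9 3 T 0x80000000000000000000000002000000000000 := rS 0xa5f (k2 c23938 c21870 (k1 c17793 k0)) (by decide +kernel)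
def c24256 : PP 9 3 T 0x200000000000001000000000000000000002080000000000000000000000000000020000000 := rS 0x192 (k2 c23937 c19665 k0) (by decide +kernel)
def c24257 : PP 9 3 T 0x4000400000000000000000000000000000000000000000000000000000000000000000540000000000000000100000000000000000000000000000000000 := rS 0x1fcfa77 (k4 c23947 c23943 c23945 c18905 k0) (by decide +kernel)
def c24258 : PP 9 3 T 0x44000000000000040000110000000000000000000000000000000000000000000000000000000000450000000000000000080000000000000000000000000 := rS 0x6d (k2 c22545 c21135 k0) (by decide +kernel)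
def c24259 : PP 9 3 T 0x50000000002000000000000000000004000000040000000010000000001400 := rS 0xf (k2 c21871 c21176 k0) (by decide +kernel)
def c24260 : PP 9 3 T 0x4000000000000000000000000000000000000200000000000000000000000000000000040000000000000000000000000000000000010020000000040000 := rS 0x192 (k2 c23937 c21320 k0) (by decide +kernel)
def c24261 : PP 9 3 T 0x100000000000000000000000000000000000000000000000000000000000000008000000000050000000000000000000000000000 := rS 0x7d (k2 c23943 c21335 k0) (by decide +kernel)
def c24262 : PP 9 3 T 0x110000000000000000000000000000000000400000000000200000000000000000001000000000000000000000000000000000000 := rS 0x7d (k2 c23943 c21491 k0) (by decide +kernel)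
def c24263 : PP 9 3 T 0x4000800000000000000200000000000000000000000000000000000000000000000000010000000000000002000000000000000000000000000000000000 := rS 0x639dcf27f (k4 c23945 c23944 c23947 c23940 (k1 c21540 k0)) (by decide +kernel)
def c24264 : PP 9 3 T 0x4004000000000040000000000000000000000100000004000100000000000000000000000000000000000000000000000000000000000000000000000000 := rS 0x192 (k2 c23937 c21565 k0) (by decide +kernel)
def c24265 : PP 9 3 T 0x88000000000000000000200000000000000000000000000000000000000000000000000000000000000000000000000000000000000000000000000000000 := rS 0x192 (k2 c23937 c21582 k0) (by decide +kernel)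
def c24266 : PP 9 3 T 0x8000000000054000020000000000000000000040000000000000000000000000000008000000000000000000000000000000000000000000000000000 := rS 0x7d (k2 c23943 c21930 k0) (by decide +kernel)
def c24267 : PP 9 3 T 0x200002000000000000010000000500000000000000000000000000000000000000000000000000000000000000000004000000000000000000000000000000 := rS 0xc7b1ef279 (k4 c23944 c23942 c23940 c23941 (k1 c21954 k0)) (by decide +kernel)
def c24268 : PP 9 3 T 0x4000000000000000000000000000004000100000000000000000000000000000100008000000000040000000000000000000000000000 := rS 0x63 (k2 c23946 c22001 k0) (by decide +kernel)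
def c24269 : PP 9 3 T 0x1000000000000000000000000000000000000000000000000000000000000000000000000000000000000040000000010000001000008 := rS 0x192 (k2 c23937 c22078 k0) (by decide +kernel)
def c24270 : PP 9 3 T 0x40000000000000052000100000000000000000000000000000000000400000000000040000000001000000004000100040000000000004000000801000000 := rS 0x18e7f (k2 c23945 c23940 (k1 c22095 k0)) (by decide +kernel)
def c24271 : PP 9 3 T 0x1000200000000000000000200000000000000000000000000000000000000000000000004000000000000000000000000000001000008 := rS 0x192 (k2 c23937 c22203 k0) (by decide +kernel)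
def c24272 : PP 9 3 T 0x4000000000000001000000000000000000000100000000000000000000000000000000000000000000008000000000000000040000140000000001000008 := rS 0x192 (k2 c23937 c22219 k0) (by decide +kernel)
def c24273 : PP 9 3 T 0x2000000000000000000000000040000000100000000000000000000000000000008000000004004000000000000000100000000000008 := rS 0x192 (k2 c23937 c22268 k0) (by decide +kernel)
def c24274 : PP 9 3 T 0x2000000000000000000000000000000000000000000000000000000000000000000004000000000000000004000000000000000000000000000000000 := rS 0xf277 (k2 c23947 c23944 (k1 c22445 k0)) (by decide +kernel)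
def c24275 : PP 9 3 T 0x2000000000002000000000000000000000000000000000200000000000002000000000000000000000000000000000000000000000000000100000000 := rS 0x77 (k2 c23947 c22546 k0) (by decide +kernel)
def c24276 : PP 9 3 T 0x8000000000000000000000000000000000000000000000000000200000000000000000400000000004000400000050001000000000000000000000000 := rS 0x18cf27d (k4 c23943 c23944 c23946 c22667 k0) (by decide +kernel)
def c24277 : PP 9 3 T 0x10000000000000000000000000000000000400000000000200000000000000000000200000000000000000000000000000000000 := rS 0x7d (k2 c23943 c22674 k0) (by decide +kernel)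
def c24278 : PP 9 3 T 0x100000008000100000000000000000000140000000000000000000000000000000000010000000000020000 := rS 0x192 (k2 c23937 c22727 k0) (by decide +kernel)
def c24279 : PP 9 3 T 0x1000000000000000000010000000000000000100040004000000000000000002000000140000001400000000000000000000000000000001014000000448 := rS 0x192 (k2 c23937 c22742 k0) (by decide +kernel)
def c24280 : PP 9 3 T 0x1000800000000000000010000000000000000100040004000000000000000002000000040000001400000000000000000000000000010000014000000408 := rS 0x192 (k2 c23937 c22746 k0) (by decide +kernel)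
def c24281 : PP 9 3 T 0x100000000000100100000000000000000140000000000000000000000000000000000010000000000020000 := rS 0x192 (k2 c23937 c22747 k0) (by decide +kernel)
def c24282 : PP 9 3 T 0x5000000000000000000000100000004000100100000000000000000040000000000000004000000000000000000000000010000420000 := rS 0x192 (k2 c23937 c22760 k0) (by decide +kernel)
def c24283 : PP 9 3 T 0xa0000010000000000000000100080004000200000000000001000000000000000000000000000000000000000000000000000000000008 := rS 0xbe09 (k2 c23939 c23938 (k1 c22778 k0)) (by decide +kernel)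
def c24284 : PP 9 3 T 0x5000000000000000000000000000004000000000000000000000000400000000010000040000100000000000000001000002001000008 := rS 0xfe77 (k2 c23947 c23945 (k1 c22782 k0)) (by decide +kernel)
def c24285 : PP 9 3 T 0x1000010000000000000000100080004000200000400000000000000000000000510000800000000008800000000000000010000000008 := rS 0x49dcfa7f (k4 c23945 c23943 c23947 c23939 (k1 c22785 k0)) (by decide +kernel)
def c24286 : PP 9 3 T 0x40005000000000000000000000000000000000000000000000200001000000000000440000400000000004002000000054000000008000400015000000000 := rS 0x7f3197cfa09 (k4 c23939 c23943 c23938 c23946 (k2 c23945 c22787 k0)) (by decide +kernel)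
def c24287 : PP 9 3 T 0x800000000000000000000000000000000100000004000200100000000001000000000000000000000000000000000000000000050000000000000002 := rS 0x192 (k2 c23937 c22805 k0) (by decide +kernel)
def c24288 : PP 9 3 T 0x10014000000002a1000100000000000000000100080004000000001014000000000000000000000040010080000000000001080000000000000020000000 := rS 0x17cc78f (k4 c23941 c23946 c23938 c22809 k0) (by decide +kernel)
def c24289 : PP 9 3 T 0x4000000000104002000000000000000000100000004000210000014000000000000000000000000000088100000000000000000011000000000000000 := rS 0x3bde71f92 (k4 c23937 c23941 c23942 c23947 (k1 c22810 k0)) (by decide +kernel)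
def c24290 : PP 9 3 T 0x100000000000000000000000000000000001400000000000200000000000000000000000000054001000000000000000000000000 := rS 0xbf92 (k2 c23937 c23938 (k1 c22813 k0)) (by decide +kernel)
def c24291 : PP 9 3 T 0x1000000000000000000000000000000000000000000000000001200000000000000000400000000004100000100054001000000000000000000000000 := rS 0xbf92 (k2 c23937 c23938 (k1 c22815 k0)) (by decide +kernel)
def c24292 : PP 9 3 T 0x800000000000000000000100000000040000064010000000000000 := rS 0x127f (k2 c23945 c23939 (k1 c22824 k0)) (by decide +kernel)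
def c24293 : PP 9 3 T 0x4000000000000000100000000000000000100080004000100000600000000000000000000000000000000000008004002000004020010002000020000 := rS 0x17cee63 (k4 c23946 c23947 c23938 c22834 k0) (by decide +kernel)
def c24294 : PP 9 3 T 0x4000000000000000100000000000000000100080004000100000400000000000000010000000000000000200008000000000000020110000000020000 := rS 0x77 (k2 c23947 c22835 k0) (by decide +kernel)
def c24295 : PP 9 3 T 0x10000000000000000000000100080004000000000200000000000000000000000000000000000208004000000000020100000000000000 := rS 0x5f (k2 c23938 c22843 k0) (by decide +kernel)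
def c24296 : PP 9 3 T 0x4004000000000000000000000000000000000100000004000100100000000001000000000000000000000004000000000000000000040000000000000002 := rS 0x192 (k2 c23937 c22846 k0) (by decide +kernel)
def c24297 : PP 9 3 T 0x10000000000000000000000100080004000000001200000000000000000000000000000000000008004000000004000000000000000000 := rS 0x5f (k2 c23938 c22858 k0) (by decide +kernel)
def c24298 : PP 9 3 T 0x8000000000080000200000000000000000000000000000000000000000000000000000000000080000000000000000000000000000000000000000000 := rS 0x192 (k2 c23937 c22873 k0) (by decide +kernel)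
def c24299 : PP 9 3 T 0x20000000000000000000080000000000000000000000000000010000000000000000000004000000000000000004000000000080 := rS 0xc7 (k2 c23940 c22918 k0) (by decide +kernel)
def c24300 : PP 9 3 T 0x1000000000010000000000000000000000000040008000100000000000000000000014000000000000000004004000000000000000000000041000088 := rS 0x79 (k2 c23944 c22930 k0) (by decide +kernel)
def c24301 : PP 9 3 T 0x4000000000000000000000000000000000000000000000000000000000000000000100500000080010010000000000041000000000000000000000000 := rS 0x17cc67f (k4 c23945 c23946 c23938 c22953 k0) (by decide +kernel)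
def c24302 : PP 9 3 T 0x4000000000000000000000000000100000000000010000000000001000000000000000010400004 := rS 0xee63 (k2 c23946 c23947 (k1 c22977 k0)) (by decide +kernel)
def c24303 : PP 9 3 T 0x80000000000000000000000000000000000000000000000000000000000100000000010010100200014041000000000000000000000000 := rS 0xfe63 (k2 c23946 c23945 (k1 c23232 k0)) (by decide +kernel)
def c24304 : PP 9 3 T 0x2002000000000000000000000000000000000000000000000000000000000000000000000000000000000000000000000000000000000000000000000000 := rS 0xf277 (k2 c23947 c23944 (k1 c23390 k0)) (by decide +kernel)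
def c24305 : PP 9 3 T 0x4000000000000004000100000000000000000000000000000000000000000000000000200000000100000060000000040000000000000000000000000000 := rS 0x7d (k2 c23943 c23395 k0) (by decide +kernel)
def c24306 : PP 9 3 T 0x8000000000000000000000000000000000000000000000000000000000000000000000040000000000000000000100000000000000000000000000000000 := rS 0x1dcfa7f (k4 c23945 c23943 c23947 c23464 k0) (by decide +kernel)
def c24307 : PP 9 3 T 0x2000000000000000000000000040000000100000000000000000000000000000000000000000004000400000000000500000000000001 := rS 0x1e4bec7 (k4 c23940 c23938 c23944 c23482 k0) (by decide +kernel)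
def c24308 : PP 9 3 T 0x2800000000000000200000000000000000000000000000000000000000000000000000000000000000000000000000000000000000000000000000000 := rS 0xf27f (k2 c23945 c23944 (k1 c23643 k0)) (by decide +kernel)
def c24309 : PP 9 3 T 0x2000210000000000000000000000000000000000000000000000000000000000000000000000000000400000000000000000000000002 := rS 0x8560e1b7 (k4 c24139 c23999 c20261 c667 (k1 c5558 k0)) (by decide +kernel)
def c24310 : PP 9 3 T 0x1000000000062000000000000000000000200000004000000000000000000000000000000000000000000000000080000000000000905000020000082 := rS 0x20248708fbdf03f1fb5a68c56357bc666498553291ab8c863d20915aeafd9ac63a95 (k8 c5446 c5341 c2177 c24253 c20812 c23766 c336 c5340 (k8 c5560 c5561 c4300 c20806 c5432 c5531 c5445 c5396 (k8 c23188 c5653 c21680 c932 c931 c5496 c17700 c23158 (k4 c2034 c5505 c3588 c3057 (k2 c494 c9158 (k1 c13257 k0)))))) (by decide +kernel)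
def c24311 : PP 9 3 T 0x20000000000000000000000000000000000100000000000000000000000000000000000400000008000000000000000108000000000002 := rS 0x344b7df (k4 c5492 c24089 c2130 c24010 k0) (by decide +kernel)
def c24312 : PP 9 3 T 0x1000000000062000100000000000000000200000004000000000000000000000000000000000000000000000000000000000000000905000020000082 := rS 0xe411 (k2 c5558 c17749 (k1 c24310 k0)) (by decide +kernel)
def c24313 : PP 9 3 T 0x22000100000000000000000200000004000000000000000000000000000000000000000000000000000400000000000901000000400802 := rS 0x1bd121f2d4e7b6479c5226f238444a290cacc38c930a5407e119ca40c993d276229b (k8 c5397 c5411 c5412 c24204 c5447 c24123 c5432 c24311 (k8 c5457 c28 c5446 c5445 c5396 c24302 c5532 c9701 (k8 c9694 c5559 c5558 c5562 c1060 c694 c667 c2311 (k4 c24312 c5419 c5422 c17858 (k2 c18007 c495 (k1 c24070 k0)))))) (by decide +kernel)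
def c24314 : PP 9 3 T 0x2000010000000000000000000000000000000000000000000000000000000000000000000000000000000000000000000000080000002 := rS 0x470407e71f1a4492b589ed9bdf239d674231948e80c17358281b4b01bd536994eed0733b (k8 c24012 c24008 c23998 c5412 c5447 c5397 c23244 c28 (k8 c5517 c24020 c24034 c1059 c24176 c24123 c24175 c5432 (k8 c1679 c24309 c24313 c19419 c5221 c22550 c20261 c5547 (k8 c5548 c5588 c5589 c5580 c5571 c494 c17813 c19894 (k1 c2752 k0))))) (by decide +kernel)
def c24315 : PP 9 3 T 0x2000010000000000000000100000000000000000000000000000000000000000000000000000000000000000000000800000000000002 := rS 0x1a500af1836969b4ce876c11018f424491f890dc7a35a76233b0fc5768a1 (k8 c5398 c23998 c5414 c24314 c24012 c5411 c5412 c1058 (k8 c24204 c22872 c1060 c2909 c10629 c1061 c24068 c28 (k8 c2746 c20261 c24309 c5447 c5397 c5332 c24024 c14079 (k4 c24034 c17813 c24123 c5432 k0)))) (by decide +kernel)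
def c24316 : PP 9 3 T 0x2000010000000000000000100000000000000000000000000000000000000000000000000000000000000000000000000000000000002 := rS 0x1e289ca4763f24a442224376d8062350a662a219d9e93b11da684d61f (k8 c24314 c1058 c24309 c23998 c5411 c5412 c24204 c24012 (k8 c5528 c5414 c5447 c5398 c9731 c28 c20261 c22872 (k8 c1060 c2746 c3039 c10629 c2909 c24315 c18438 c24183 (k2 c17813 c24182 k0)))) (by decide +kernel)
def c24317 : PP 9 3 T 0x82000010000000000000000000000000000000000000000000000000000000000000000000000000000000000000000000000000000002 := rS 0x1417188347529a586406f51ccef43e11b9e8d61f4ec476958 (k8 c24316 c23998 c5411 c5412 c24314 c1058 c24204 c24075 (k8 c5457 c24309 c24012 c24008 c23244 c28 c9701 c9399 (k4 c17758 c5654 c24024 c1679 (k2 c1676 c24034 (k1 c24313 k0))))) (by decide +kernel)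
def c24318 : PP 9 3 T 0x2000010000000000000000000000000000000000000000000000000000000000000000000000000000000000000000800000000000002 := rS 0x14171883696f54eed0733bd09ac3f58 (k8 c24316 c24314 c1058 c24309 c24012 c24008 c23998 c5412 (k4 c23244 c5332 c24024 c1679 (k2 c1676 c24034 (k1 c24313 k0)))) (by decide +kernel)
def c24319 : PP 9 3 T 0x5000000000024000000000000000000000200000004000100000000004051000400400000000000000010000000080001000001100115000000000000 := rS 0x80385583e3334fbc4320c75aa3d (k8 c5560 c21481 c5341 c5340 c5561 c5653 c5496 c24196 (k4 c3588 c932 c3057 c23318 (k1 c9158 k0))) (by decide +kernel)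
def c24320 : PP 9 3 T 0x1000000000062000000000000000000000200000004000100000000000051000400000000000000000000000000080000000001000104000020000000 := rS 0x1878dfed76a9156235499852bb3598f63aaf (k8 c20812 c5341 c5560 c5532 c24253 c5446 c5445 c5444 (k8 c331 c2177 c336 c21481 c23766 c23312 c23158 c24319 (k1 c1996 k0))) (by decide +kernel)
def c24321 : PP 9 3 T 0x2000010000000000000000000000000000000000000000000000000000000000000000000000000000000000000000000000000000002 := rS 0x68a1bbe967e99c3a497b8ce95291db8d2272db846b03767f87427a3587e7639548853b11da2652a614dbc446f5 (k8 c23244 c9731 c9696 c5397 c5445 c5446 c5447 c23998 (k8 c5411 c5412 c5528 c5531 c24008 c24012 c24314 c1058 (k8 c24204 c24309 c5457 c20767 c24075 c24316 c5558 c24317 (k8 c17749 c9824 c1776 c24318 c18438 c5654 c24311 c5333 (k8 c5334 c24320 c664 c20237 c24132 c24196 c20831 c1708 (k1 c24003 k0)))))) (by decide +kernel)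
def c24322 : PP 9 3 T 0x1000000000020000000000000000000000000000000000000000000001000000000000000000000000050000000000441000000000000000000000000 := rS 0x1367b6734591df88a755699f6b350ca9 (k8 c5531 c20831 c24091 c5499 c5530 c5413 c5412 c5411 (k4 c24196 c24186 c2133 c5688 (k2 c20893 c2562 (k1 c24047 k0)))) (by decide +kernel)
def c24323 : PP 9 3 T 0x61000000000000000000000200080000000000000000000000000000000400000000000008000004080002000000000000000000000000 := rS 0x1c2e31fb7d009e508f4824b4cacc7221 (k8 c5528 c324 c5532 c5530 c5342 c5340 c5560 c24063 (k4 c930 c929 c14125 c327 (k2 c1607 c1716 (k1 c17954 k0)))) (by decide +kernel)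
def c24324 : PP 9 3 T 0x20000200000000000000000200000004000000000000001000000000000000000000000000000000000400000000000000000010000002 := rS 0x2c36625219c42311 (k8 c5411 c5558 c667 c5561 c5559 c23860 c23920 c23591 k0) (by decide +kernel)
def c24325 : PP 9 3 T 0x1000000000061000000000000000000000200000004000100000000000000000000000000000000000010000000000000000001000000000050000402 := rS 0xfff9911c0d71fb7dc67a4f529aa311c8dc763519a480ccb0b98032031e904967110acd2fed81a18cea948a84e5a17ebc4d611 (k8 c5558 c1058 c9696 c20237 c24324 c17749 c24063 c9824 (k8 c5531 c664 c20831 c10690 c5499 c20692 c5532 c5528 (k8 c667 c5342 c5340 c5560 c28 c9701 c24322 c24066 (k8 c1756 c661 c662 c5284 c20806 c1675 c1568 c324 (k8 c1565 c21481 c5654 c930 c24323 c1776 c14125 c327 (k4 c1605 c17954 c14581 c5591 (k2 c3012 c9612 k0))))))) (by decide +kernel)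
def c24326 : PP 9 3 T 0x40000110000000000000000000000004000000000000000000000200000000000000000021008000000000000000000000000008000000 := rS 0x7b918b18935e07b3 (k8 c5488 c10690 c1721 c24262 c2181 c958 c21702 c5505 k0) (by decide +kernel)
def c24327 : PP 9 3 T 0x61000110000000000000000200000004000000000000000011000000000000000000010021008000000000000001000000000050000000 := rS 0x3c6e16f8e59637490ec3430d98f4824b2388532b3 (k8 c5532 c5530 c5528 c5562 c5342 c5340 c5560 c5488 (k8 c10191 c5649 c1679 c1905 c1568 c4287 c324 c14125 (k2 c24326 c17960 (k1 c11678 k0)))) (by decide +kernel)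
def c24328 : PP 9 3 T 0x2000000000061000000000000000000000200000000000100000000000000000000000000000000010000000000000000000001000000000040000002 := rS 0xf1b2c6e926f8e5c27b1d8f4824b23c453a99 (k8 c5530 c5412 c5411 c5562 c5342 c5340 c5560 c5456 (k8 c5457 c5460 c5534 c5538 c24190 c1568 c1753 c17960 (k1 c11678 k0))) (by decide +kernel)
def c24329 : PP 9 3 T 0x60000010000000000000000200000004000100000000000000000000000000000000000000000000000000000001000000000050000002 := rS 0x364d5188d48a1b19a0124067b05c72f3a598015e14aa852272d0a19fa677886406f50890c7a418ea75569954a5f626b (k8 c1058 c24321 c20692 c5531 c5530 c5413 c5412 c5341 (k8 c5340 c5560 c5561 c5558 c23244 c28 c9701 c9696 (k8 c664 c20237 c20831 c24324 c17749 c9824 c24063 c24327 (k8 c24328 c24325 c24322 c5516 c20781 c24078 c24143 c20243 (k8 c661 c662 c929 c5284 c2103 c503 c20806 c1565 (k2 c20766 c5649 (k1 c16370 k0))))))) (by decide +kernel)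
def c24330 : PP 9 3 T 0x1000000000060000000000000000000000200000004000100000000000010000000140000000000000050000000080000000001000004000060000002 := rS 0x1ef015616816e3331e876e1498fbc6d718bc43203218f483114ea646a9150915feaf58c7567b3 (k8 c5486 c5532 c5341 c2177 c20812 c23312 c336 c24063 (k8 c9824 c332 c5530 c5412 c5411 c5340 c5560 c5561 (k8 c28 c9701 c9696 c1996 c23766 c23097 c3588 c327 (k8 c3056 c494 c24190 c24188 c1776 c691 c663 c932 (k2 c9158 c2102 (k1 c23318 k0)))))) (by decide +kernel)
def c24331 : PP 9 3 T 0x41000110000000000000000000000000000000000000020000000000000000000000004021000008000000000000000000000000000000 := rS 0xcb8935fe6e3 (k4 c1776 c5592 c2146 c19568 (k2 c1757 c17871 k0)) (by decide +kernel)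
def c24332 : PP 9 3 T 0x64000110000000000000000200000000000100000000000004000000000000000140000025000000000000000001100000000040000002 := rS 0x2b7df017b8dc609f3d059e21901bd762431e92c8f114ea65feb3 (k8 c5532 c23312 c5530 c5412 c5411 c5562 c5342 c5560 (k8 c5561 c24321 c23244 c28 c9701 c9696 c5648 c24190 (k8 c1465 c1461 c24075 c2106 c24331 c17988 c23318 c5683 k0))) (by decide +kernel)
def c24333 : PP 9 3 T 0x60000010000000000000000200000004000100000000000000000000000000000000000000000000080000000001000000000040000002 := rS 0x4ff8dac311fb2d2494f091542af48e85ea431e90436f310ac63a354bb5466d3ef6cc39b1 (k8 c24321 c24329 c5486 c5224 c5496 c5492 c5454 c20692 (k8 c332 c5341 c2177 c5528 c333 c57 c5340 c5560 (k8 c5561 c23244 c5379 c9824 c20812 c24063 c336 c24328 (k8 c24330 c24332 c1753 c327 c1566 c3588 c23097 c1606 (k1 c5680 k0))))) (by decide +kernel)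
def c24334 : PP 9 3 T 0x40004000000000000000000000000000000000000000000000000000400010000000100005400002080020000000100000000000000000000000000000000 := rS 0x7b43b89bf02 (k4 c1249 c2515 c1200 c10690 (k2 c15912 c24214 k0)) (by decide +kernel)
def c24335 : PP 9 3 T 0x800000000064000210000000000000000000000000000000000000000000000000800400000100004000000000050400000000000000000000000002 := rS 0x389a0df482d602ae56b8541b18ab3d9b13f9c47dfe1f1a35aa81 (k8 c5380 c5454 c5381 c24053 c24308 c24054 c5411 c24234 (k8 c5382 c5495 c5453 c5414 c24321 c5680 c17839 c2033 (k8 c5683 c20839 c24334 c24232 c24033 c24263 c5691 c1780 k0))) (by decide +kernel)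
def c24336 : PP 9 3 T 0x60000010000000000000000200000004000100000000000000000000000000000000000000000000000000000001000000000040000002 := rS 0xc128f680c0dc637563fc8a7a0b2bd26ca6b7bd1a814fe80e6d5ef2c5e7b30e1ac32037a90c831d2591ce21188a74429954acd2fb1 (k8 c24321 c20692 c5532 c5531 c5530 c5528 c5412 c5411 (k8 c5558 c667 c5562 c5342 c5341 c5340 c5561 c23244 (k8 c28 c9701 c1058 c24329 c5486 c333 c2177 c5224 (k8 c5454 c24333 c17749 c24268 c5380 c5381 c24054 c24134 (k8 c24335 c1753 c1246 c5648 c24190 c336 c23312 c5683 (k8 c24075 c1775 c2034 c2146 c3593 c23766 c1461 c2106 k0)))))) (by decide +kernel)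
def c24337 : PP 9 3 T 0x4000210000000000000000200000004000100000000000040000000000800000000004000000000000001000001000440000180000002 := rS 0x25160670ec0e02de5a38d34386b7859bde7a894864b38846968146abd2fb1 (k8 c24321 c20692 c1246 c5381 c5380 c5517 c5558 c667 (k8 c5342 c5561 c5559 c23244 c5224 c5495 c24308 c24134 (k8 c5654 c2472 c2617 c1326 c1327 c2146 c2516 c23292 (k4 c664 c23920 c24196 c2182 k0)))) (by decide +kernel)
def c24338 : PP 9 3 T 0x20000210000000000000000200000004000100000000000000000000000000000000000004000000040000000001000000000080000002 := rS 0x2296c649533ec9aa377bb2818a14f8ec2c6111864063d37894e2114e8852fb1a5a051a13 (k8 c5564 c5381 c5380 c5517 c24321 c20692 c5528 c5412 (k8 c5558 c667 c5559 c1060 c5560 c28 c9701 c9731 (k8 c662 c5648 c12293 c1465 c1068 c24176 c24021 c20809 (k8 c24086 c1660 c24337 c5487 c5488 c24188 c24089 c390 (k1 c20820 k0))))) (by decide +kernel)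
def c24339 : PP 9 3 T 0x8000210000000000000000000000004000100000000000000000000000000000000000008000000000000000000000000000080010002 := rS 0x783d83b7b831e60b7e80deb4b (k8 c5517 c23244 c28 c5405 c19921 c2532 c24034 c20809 (k4 c24024 c5657 c17730 c24304 k0)) (by decide +kernel)
def c24340 : PP 9 3 T 0x60000010000000000000000200000004000100000000000000000000000000000000000000000000040000000001000000000000000002 := rS 0xf7f6c09a0e06fad3e69135b8c1a3af1bcdade16ab3c6bded98dc72cb4923503a07aec4831d38846231510a66961e (k8 c24336 c5517 c5530 c5528 c5414 c5411 c5558 c667 (k8 c5341 c5340 c24321 c23244 c17749 c5380 c5381 c24338 (k8 c1753 c324 c1567 c24339 c5224 c5450 c5453 c5454 (k8 c24308 c24134 c20553 c24053 c5654 c24024 c8999 c1059 (k8 c24174 c24234 c24232 c2515 c5691 c10298 c1721 c5501 (k2 c2195 c5657 k0)))))) (by decide +kernel)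
def c24341 : PP 9 3 T 0x20000010000000000000000200040004000000000000000040000000000000000000000000000000080000000001000810000000000002 := rS 0x812b1fb01337b0d60a79835eaa9 (k8 c5531 c23244 c24024 c448 c24034 c1059 c5657 c22988 (k4 c5502 c5542 c932 c23287 (k1 c2034 k0))) (by decide +kernel)
def c24342 : PP 9 3 T 0x41000000000000000000000200040000000100000000000000000040000000000000010108000000000000000001000500000000000000 := rS 0x1e270f807a4b23b2c8237 (k8 c1567 c5340 c1753 c5562 c5342 c5560 c17730 c5460 (k2 c11678 c17960 k0)) (by decide +kernel)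
def c24343 : PP 9 3 T 0x64000010000000000000000200000004000100000000000000000000000000000000000008000000000000000001000000000000000002 := rS 0x13cb16b78c38450dbd9a6336a8d7bcf1218f63aab1f8c474df65905663910a84e54b0f26762f5 (k8 c23244 c24321 c5530 c24336 c5517 c24340 c24063 c5528 (k8 c324 c5532 c5340 c1753 c14125 c24342 c1679 c327 (k8 c5413 c5341 c5560 c5561 c9696 c5224 c5450 c5454 (k8 c5492 c5496 c24341 c2103 c503 c5649 c23097 c3588 (k2 c2177 c5680 (k1 c1606 k0)))))) (by decide +kernel)
def c24344 : PP 9 3 T 0x60000010000000000000000200000004000100000000000000000000000000000000000008000000000000000001000000000000000002 := rS 0xd51a91500067b180669533875faf3d91ac143106f8474df1cb2dea431e9063a214cacd2fb1a58794272 (k8 c24340 c24063 c24336 c5517 c24321 c20692 c5532 c5530 (k8 c5528 c5341 c5340 c5560 c5561 c23244 c1753 c324 (k8 c14125 c24342 c5456 c24024 c1679 c24034 c1059 c24343 (k8 c20781 c5405 c5486 c5487 c5488 c322 c24322 c20243 (k4 c661 c929 c503 c20806 (k2 c20766 c16370 k0)))))) (by decide +kernel)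
def c24345 : PP 9 3 T 0x8000000000000000000000200000004000100000000050050000000000000000000000044000000000040000001004000000080000002 := rS 0x220c9e6957e864074b (k8 c5517 c28 c9701 c5405 c5488 c2532 c24188 c23247 (k1 c389 k0)) (by decide +kernel)
def c24346 : PP 9 3 T 0x5000000000000000000000000000004000100000000000001000000000000000000000004000000000041000000000000000010000000 := rS 0x25035de (k4 c5224 c5649 c24196 c1905 k0) (by decide +kernel)
def c24347 : PP 9 3 T 0x60000010000000000000000200000004000100000000000000000000000000000000000000000000000000000001000000000000000002 := rS 0x69113c6c8798f92afdd919c3b0380a396913353dc18354f858c29350abd23a13952c3cf10c80dea3d4e8852fb1 (k8 c24321 c20692 c5528 c5412 c5560 c23244 c28 c9701 (k8 c9696 c24336 c5517 c24340 c5379 c9824 c20812 c24063 (k8 c24344 c662 c5648 c1465 c1619 c24176 c20809 c2361 (k8 c4731 c1318 c1319 c19568 c20799 c23292 c664 c24346 (k8 c5405 c5488 c24345 c2532 c24241 c5576 c23247 c10123 (k1 c2937 k0)))))) (by decide +kernel)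
def c24348 : PP 9 3 T 0x40000000000000000000000000000000000000000000000000000000000000000000000000000000000000000002000000000000012002 := rS 0x39e852012 (k4 c293 c294 c5564 c9824 (k1 c17749 k0)) (by decide +kernel)
def c24349 : PP 9 3 T 0x40001000000000040000110000000000000000200000000000000000000000000000400150000000000000009400000000000000000100015000000000002 := rS 0x7ed750c48e411218f4831d (k8 c5341 c5340 c5560 c5561 c5558 c17749 c5675 c24063 (k2 c24110 c327 (k1 c3588 k0))) (by decide +kernel)
def c24350 : PP 9 3 T 0x60000010000000000000000200000004000100000000000040000000000000000000000000000000000000000000000000000000000002 := rS 0x10389a3740e369b54f43519b3463de22f859f0168871921bd9fb0cc877fbd55297f9a3cd6917982924170684696484e86407b1 (k8 c24321 c28 c9701 c5412 c24347 c5334 c5558 c24348 (k8 c24176 c5648 c24034 c20781 c24174 c1059 c24036 c5588 (k8 c20692 c5531 c23244 c3007 c693 c22988 c5657 c5487 (k8 c24093 c24088 c664 c5501 c5502 c5543 c24304 c24142 (k8 c5224 c1566 c13053 c323 c332 c24127 c5454 c5496 (k4 c1776 c24349 c5381 c5382 (k2 c24233 c20819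 k0))))))) (by decide +kernel)
def c24351 : PP 9 3 T 0x60000210000000000000000200000004000100000000000000000000000000000000000000000000000000000000000000000000000002 := rS 0xac58b5bded557873bcb4d9a350273789c62315051ad22cb4905c1a11a59213a1901ec4821b55c0ded1d (k8 c5341 c24350 c2195 c5413 c2103 c5340 c24321 c28 (k8 c9701 c5412 c24347 c5334 c5558 c24348 c24176 c5648 (k8 c1753 c24174 c1059 c24034 c5414 c5411 c667 c9696 (k8 c5379 c5380 c5381 c19921 c24232 c5224 c5649 c1249 (k4 c5454 c24054 c24134 c2177 (k2 c5683 c2033 k0)))))) (by decide +kernel)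
def c24352 : PP 9 3 T 0x41000000000000000000000200000004000100000000000000000000000400000100010000000000000000000000104001000020000000 := rS 0x13fe36b34c66d5ef0d766431e9063a97 (k8 c20692 c5341 c5340 c5560 c5561 c5486 c332 c5224 (k4 c5454 c5492 c5496 c3588 (k2 c23097 c1606 (k1 c5680 k0)))) (by decide +kernel)
def c24353 : PP 9 3 T 0x60000010000000000000000200000004000100000000000000000000000000000000000000000000000000000000000000000000000002 := rS 0x1aa35ef6cbc2333387562451fbfd43123968463030dfb5ec3765a492217358281a8fa5fcc90f10c80debb10890c7a418ea755699 (k8 c5530 c5413 c5412 c5341 c5340 c5560 c5561 c5558 (k8 c24321 c23244 c28 c9701 c9696 c24347 c5588 c5334 (k8 c24036 c24348 c24034 c1059 c24176 c24174 c5648 c1753 (k8 c1567 c24350 c5498 c2103 c2195 c2106 c24351 c17749 (k8 c5675 c24063 c20798 c327 c504 c14602 c24352 c664 (k4 c322 c23335 c5649 c5165 (k2 c5450 c5454 (k1 c16370 k0)))))))) (by decide +kernel)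
def c24354 : PP 9 3 T 0x20000000000000000000000000000004000000000000000050000000000000000000000000000000000040000000000000000000000804 := rS 0xd74b (k2 c5516 c2306 (k1 c22988 k0)) (by decide +kernel)
def c24355 : PP 9 3 T 0x8000000000020000000000000000000000200080000000000000000001000000040000000000000000050000000000041000000000000000000000002 := rS 0x35f843e41 (k4 c5340 c5517 c21911 c1058 (k1 c24322 k0)) (by decide +kernel)
def c24356 : PP 9 3 T 0x110000000000000000200000000000000000000000000000440000000000000000001000000000000000000004140000000002000 := rS 0x70926263b1e9049647 (k8 c5562 c5342 c5340 c5560 c24024 c2598 c294 c24262 (k1 c3590 k0)) (by decide +kernel)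
def c24357 : PP 9 3 T 0x68000110000000000000000200000000000000000000000000000000100400000000010051000000000040000000004140000000000042 := rS 0x3c09a358281b4b71f8bded36fa053a9959f7daec8d89855afd (k8 c5405 c5490 c661 c24321 c24241 c2190 c24196 c5532 (k8 c5530 c5412 c14518 c14125 c14519 c24306 c5689 c5466 (k4 c24355 c24356 c24034 c1059 (k2 c24123 c24322 (k1 c5536 k0))))) (by decide +kernel)
def c24358 : PP 9 3 T 0x20000010000000000000000000000000000200000000001000000000000000000200000000000000000040000000000000000000000804 := rS 0x439ae96a9 (k4 c5531 c5516 c2306 c19883 (k1 c20831 k0)) (by decide +kernel)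
def c24359 : PP 9 3 T 0x60000010000000000000000200040004000000000000041000000000000000000200000000000000000040000000100000000000000002 := rS 0x1e41e24bdcd40c43bd55291391bc4b015582e5003 (k8 c28 c24353 c24358 c5413 c2143 c5559 c1060 c24114 (k8 c9824 c5531 c23244 c19883 c24034 c20831 c20809 c294 (k2 c1058 c23247 (k1 c2532 k0)))) (by decide +kernel)
def c24360 : PP 9 3 T 0x20000000000000000000000000080000000200000000001000000000000000000000000054000000000040000000000000000000000002 := rS 0xf09ad341f1d88c32034e88532390b8dcc207 (k8 c5432 c661 c5435 c5433 c5317 c5530 c5528 c5412 (k8 c28 c9701 c9731 c5332 c5517 c3578 c1058 c5536 (k1 c24322 k0))) (by decide +kernel)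
def c24361 : PP 9 3 T 0x68000010000000000000000200000004000000000000000000000000100000000000000000000000000000000000000000000010000002 := rS 0x8f354090f4b22b496093653f482a91c8fc6fa148a84e46f12b212a3133a5de217d89840f28 (k8 c24353 c5432 c661 c24321 c5433 c9696 c19357 c664 (k8 c5434 c10191 c24241 c5559 c1060 c24114 c24063 c9824 (k8 c24192 c5435 c5318 c5317 c5531 c5340 c5405 c24357 (k8 c1753 c1324 c1325 c2936 c24360 c19883 c24359 c20831 (k2 c20799 c1319 k0))))) (by decide +kernel)
def c24362 : PP 9 3 T 0x64000010000000000000000200040004000000000000000000000000000000000000000000000000000000000000000000000010000002 := rS 0x447eac3dd036578dbce38983096b31c8fc6fa148f7daec84a8c52e17d89840ea1394a0de2505bdc34f15599dea03 (k8 c28 c23244 c664 c5413 c9696 c5649 c2103 c24354 (k8 c5559 c1060 c24353 c24114 c24063 c5432 c661 c24321 (k8 c5433 c19357 c5434 c10191 c24241 c2190 c24196 c9824 (k8 c24192 c5435 c5318 c5317 c5532 c5342 c24034 c2598 (k8 c24185 c24356 c5580 c14125 c2517 c5196 c1324 c4104 (k2 c24359 c5582 k0)))))) (by decide +kernel)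
def c24363 : PP 9 3 T 0x61000000000000000000000200080004000200000000000000000000000000000000000000000000000000000000000000000010000002 := rS 0x197e36fb8525e07e9ac921f1d8f4824b23a6472373081d427237894ce970ba55e231 (k8 c5434 c9696 c10191 c5433 c19357 c664 c5559 c1060 (k8 c24114 c24063 c5432 c661 c5435 c5317 c5530 c5562 (k8 c5342 c5340 c5560 c5332 c5517 c5334 c1058 c20237 (k4 c24322 c24360 c5460 c5538 (k2 c21911 c1753 (k1 c11678 k0)))))) (by decide +kernel)
def c24364 : PP 9 3 T 0x20000010000000000000000000040000000000000000001000000000000000000000000050000000000040000000000000000000001042 := rS 0x781346b052753261 (k8 c661 c5530 c5412 c24034 c1059 c24123 c24322 c5536 k0) (by decide +kernel)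
def c24365 : PP 9 3 T 0x60000010000000000000000200000004000000000000000000000000000000000000000000000000000000000000000000000010000002 := rS 0xe289831becb6a3f7654b4aa5ccef1d892d66391f81c2e311be8522a1394a0de25 (k8 c5559 c1060 c24353 c24114 c24063 c9824 c24192 c5435 (k8 c5434 c5433 c5432 c5318 c5317 c5532 c5342 c24321 (k8 c9696 c664 c19357 c10191 c24363 c24362 c5405 c24361 (k4 c1660 c14125 c24364 c2598 (k2 c24356 c24185 k0))))) (by decide +kernel)
def c24366 : PP 9 3 T 0x60000010000000000000000200040000000200000000001000000000000100000000000000000000000000040000000000000000000002 := rS 0x38a260c05b7d36cb4b249e3b12092d3a99598e47e37d09840e91509c8de25 (k8 c5559 c1060 c24114 c24063 c9824 c5432 c661 c24192 (k8 c5435 c5318 c5317 c5532 c5530 c5412 c5342 c5340 (k8 c24321 c9696 c24244 c24240 c1753 c1231 c14125 c24123 (k4 c24034 c2598 c24356 c24185 k0)))) (by decide +kernel)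
def c24367 : PP 9 3 T 0x110000000000000000200040004000000000000040014000000000000000000000001000000000000080000100000000000000400 := rS 0x2004989bdc184b (k4 c5342 c24034 c2102 c2598 (k2 c294 c23247 (k1 c19568 k0))) (by decide +kernel)
def c24368 : PP 9 3 T 0x60000010000000000000000200040004000000000000001000000000000000000000000000000000000000000000000000000000000002 := rS 0xf9c4d68e16578dac9771f85340a81b4d588c33169ea114ea655207d0a4543b30dbcc4245579c8de25648706728 (k8 c24353 c5316 c24365 c2061 c5559 c1060 c24114 c20812 (k8 c336 c5528 c333 c57 c5486 c24063 c9824 c24192 (k8 c5432 c5531 c5530 c5412 c5558 c23244 c24366 c1994 (k8 c18772 c932 c24056 c2034 c24367 c24123 c5536 c2622 (k8 c1231 c18709 c5465 c2033 c1721 c1326 c24098 c5548 (k1 c12878 k0)))))) (by decide +kernel)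
def c24369 : PP 9 3 T 0x60000010000000000000000200040004000000000000000000000000000000000000000000000000000000000000000000000000000002 := rS 0x7c9690165359a7ef56230cc5a4bb8d340a66835ed03f6bf1e2f508a7533a13081d421b798848ac919bfd631d579ca506f12acf661c (k8 c24365 c5486 c5532 c5559 c1060 c24353 c24114 c20812 (k8 c5341 c2177 c23312 c5316 c2061 c336 c5528 c333 (k8 c57 c24063 c5432 c661 c24192 c5530 c5412 c5558 (k8 c23244 c9696 c24368 c5542 c2632 c5657 c20809 c17683 (k8 c24034 c24123 c2622 c1232 c24240 c1994 c18772 c932 (k8 c5505 c24056 c18709 c2033 c2146 c1326 c5694 c5548 k0)))))) (by decide +kernel)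
def c24370 : PP 9 3 T 0x41000110000000000000000000000000000000000000020000000000000000000000011001000000000001000004000540000000000440 := rS 0x65381007a06c491ff3 (k8 c5592 c20800 c19568 c2598 c24158 c6202 c957 c14518 (k1 c1718 k0)) (by decide +kernel)
def c24371 : PP 9 3 T 0x60000010000000000000000200000004000000000000000000000000000000000000000000000000000000000000000000000000000002 := rS 0x2b7df0105925ee3ba53fc8ab179ecc38a157a44c272d08dc0e39943c5ebb121c74966f12a7442b3 (k8 c5532 c5528 c5412 c5559 c1060 c5342 c5341 c5561 (k8 c24321 c23244 c9696 c24353 c5317 c5432 c5435 c24192 (k8 c24114 c661 c9824 c20812 c24063 c24365 c5486 c333 (k8 c2177 c336 c23312 c24369 c5332 c5333 c5334 c5516 (k4 c24370 c19710 c23318 c5683 k0))))) (by decide +kernel)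
def c24372 : PP 9 3 T 0x110000000000000000200040004000000000000000014000000000000000000000001000000000000000000100000000000002000 := rS 0x8ff9c08931325c07d8f7 (k8 c20809 c5657 c5502 c5342 c2598 c294 c23247 c5550 (k2 c20799 c5675 k0)) (by decide +kernel)
def c24373 : PP 9 3 T 0x400000000020001010000040000000400000040000000000000000501000000015000000000000040400000000000000000000000000000000000000 := rS 0x7c305e573c2722bbfa6e13aab5ca6552b7 (k8 c5533 c5531 c5530 c5415 c5413 c5412 c5213 c5222 (k8 c5430 c5615 c5556 c5633 c17955 c3624 c5690 c5626 k0)) (by decide +kernel)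
def c24374 : PP 9 3 T 0x400000000020000010000040000000400000040000000000000000501000000015000000000000040400000000000000000000000000000000000000 := rS 0x5ff53a4 (k4 c24373 c5388 c5389 c24050 k0) (by decide +kernel)
def c24375 : PP 9 3 T 0x2000000000000000002000000400000000000000000000000000000000000000000002000000000000000000000008000000000000000000000000000000 := rS 0x72fd6f50974e2753e1f2dfdcf07 (k8 c5503 c3434 c24087 c5621 c24304 c5388 c5610 c1824 (k4 c2098 c20743 c5631 c24073 (k1 c5692 k0))) (by decide +kernel)
def c24376 : PP 9 3 T 0x20044000000000a0000010000440000000400000040000000000000000000000000002000000000000000000000008000000000000000000000000000000 := rS 0xf860bef1784e4577f4dc697caab8aae552b783bf60bef (k8 c17711 c5545 c5542 c5503 c5533 c5531 c5415 c5414 (k8 c5413 c5621 c24375 c5213 c5222 c5430 c5615 c5556 (k4 c5635 c7323 c3624 c5206 (k1 c5626 k0)))) (by decide +kernel)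
def c24377 : PP 9 3 T 0x400000000020000010000040000000400000040000000000000000501000000015000000000000000480000000000000000000000000000000000000 := rS 0xa3 (k2 c1645 c24374 k0) (by decide +kernel)
def c24378 : PP 9 3 T 0x20044000000000a5000010000440000000400000040004000000000000000000000000002000000000000488000008000001000000000000000000000000 := rS 0x1f5d2b9b00bbbba8f70a772ea7e2da52ba5b37d4eae532b783bf60add (k8 c4327 c5545 c5542 c5503 c5533 c5530 c5415 c5412 (k8 c19423 c24376 c2675 c1236 c24377 c5627 c20769 c3382 (k8 c4231 c5230 c5614 c5613 c5430 c24048 c3621 c5607 (k2 c5633 c5222 k0)))) (by decide +kernel)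
def c24379 : PP 9 3 T 0x20000010000000000000000200000004000200000000000004000000000000000000010002000000000000000000000000000000002002 := rS 0x4209f47c85ef077cc0ddf73a5d78af57666661e045a57999a49bc5b88f4d5492005219018f4831155c55669f6589ce6b51f85f43e33081e03077ebfe0bef64a552c1c0da35e2331c8c553b3589bc4a7108a646fb1efb47d94bdb0edeef5 (k8 c23244 c20809 c24024 c24371 c9399 c5657 c5501 c17847 (k8 c24321 c5435 c5530 c5558 c667 c5559 c1060 c5421 (k8 c20841 c5531 c5434 c5317 c5316 c9696 c10035 c24225 (k8 c5649 c23266 c133 c2061 c17711 c5545 c5544 c5542 (k8 c5503 c5502 c5432 c661 c24218 c24192 c5433 c5318 (k8 c5422 c5419 c5570 c5420 c5572 c5532 c5414 c5413 (k8 c5411 c5340 c5560 c28 c9701 c9694 c24119 c3579 (k8 c20766 c907 c908 c3966 c2621 c10379 c24303 c2940 (k8 c663 c18003 c4564 c2087 c24378 c5600 c5601 c5603 (k8 c24195 c17708 c669 c1062 c5667 c20797 c914 c983 (k4 c338 c296 c18009 c2039 k0))))))))))) (by decide +kernel)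
def c24380 : PP 9 3 T 0x80000010000000000000800200000000000200000100500004000000000000000000000000000000000000000000000000000020002002 := rS 0x627eb0827d1ef783be606ef8bdce975e2bd5945eaf7 (k8 c20809 c23244 c5350 c5600 c5601 c5603 c24195 c17708 (k8 c2655 c669 c1062 c5667 c20797 c914 c338 c296 (k4 c18009 c5556 c20786 c5676 k0))) (by decide +kernel)
def c24381 : PP 9 3 T 0x40044000000000a0001010000040000000400000040000000000000000501000000000000000000000000400000000000000000000000000000000000000 := rS 0xf8fdfcb828bb9e12bb51fd3709d8aae532b7 (k8 c5533 c5530 c5415 c5414 c5412 c5213 c5222 c5614 (k8 c5430 c5556 c5633 c5635 c19800 c17955 c7323 c5626 (k1 c5206 k0))) (by decide +kernel)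
def c24382 : PP 9 3 T 0x280002000000000100000000000000000000000000000000000400000000000000000000000000000014001000000000000000000000000 := rS 0x3b7caebfba924ca7bba8f0a73f1ea7038d (k8 c5611 c5607 c5388 c24218 c5419 c5423 c5614 c5613 (k8 c5428 c17948 c24039 c5637 c24061 c5620 c3484 c5693 k0)) (by decide +kernel)
def c24383 : PP 9 3 T 0x2000000000000000002000000400000000000000000000000000000401000000000802000000000000000000000000000000000000000000000000000000 := rS 0x663a1cbf53dde90f0167c17c37fc4f95cf07 (k8 c5503 c3434 c5621 c5610 c5389 c24304 c5545 c5543 (k8 c5502 c5499 c20771 c24375 c5631 c24073 c5692 c24214 (k1 c2674 k0))) (by decide +kernel)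
def c24384 : PP 9 3 T 0x2000000000000000002000000000000000000000000000000000000401000000000802000000000000000000000000000000000000000000000000000000 := rS 0x18a (k2 c24383 c5390 k0) (by decide +kernel)
def c24385 : PP 9 3 T 0x20000010000000000000000200000004000200000000000004000000000000000000000000000000000000000000100000000000002002 := rS 0x1b0db84fc373a9d25f6ceef692b93787712812a966487037b36fa37e690effbfc3057ec1da3ec78bd763114caa5634b198e46237f1bdc76e18992cc207388462ba137894e7b6 (k8 c24371 c5419 c5559 c1060 c24192 c5414 c5558 c667 (k8 c5432 c661 c5342 c2598 c24290 c24024 c20809 c24218 (k8 c5435 c5434 c5317 c5316 c9399 c5421 c5531 c5530 (k8 c5411 c24321 c23244 c9696 c5657 c5501 c5503 c5542 (k8 c5545 c24304 c17711 c17847 c24372 c5589 c10035 c24033 (k8 c20841 c24225 c5649 c2061 c23266 c133 c24379 c5691 (k8 c4122 c1231 c10048 c5869 c5021 c24380 c19423 c24381 (k4 c5388 c24382 c5230 c5514 (k2 c5627 c24135 (k1 c24384 k0)))))))))) (by decide +kernel)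
def c24386 : PP 9 3 T 0x20000010000000000000000200000004000200000000000000000000000000000000000000000000000000000000100000000000002002 := rS 0xde69b39c6c8463f1229557a5c3c670e927daf27888c52037aec48e6f129c4231510acc4e7358ad55b4bdb0e47e17188df426103bde264b (k8 c5342 c2598 c20809 c5432 c661 c24192 c5435 c5434 (k8 c5433 c5318 c5317 c24371 c9399 c5573 c5422 c5421 (k8 c5419 c5570 c5532 c5528 c5414 c5558 c667 c5559 (k8 c1060 c5562 c24321 c23244 c28 c9694 c9731 c9696 (k8 c24385 c5540 c450 c333 c23684 c3584 c19357 c10145 (k8 c10191 c23269 c2532 c20793 c24241 c24185 c1181 c24056 (k2 c24356 c2565 k0))))))) (by decide +kernel)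
def c24387 : PP 9 3 T 0x4000000000001000000000000000000000200000004000200000000000000000000000400000100004000000000040000000000200000004000000002 := rS 0x140d440b5d91df4aabd2e670eb4fdef11480c826f129c4223f0b8c4c207 (k8 c5432 c661 c5434 c5433 c5318 c5558 c667 c5559 (k8 c1060 c5340 c28 c9694 c9696 c5582 c2936 c335 (k8 c664 c19357 c10145 c10191 c24196 c24241 c2189 c20909 (k2 c5689 c24117 (k1 c3000 k0))))) (by decide +kernel)
def c24388 : PP 9 3 T 0x20000010000000000000000200000004000200000000000000000000000000000000000000000000000000000000000000000000000002 := rS 0x40a85c0dff9b8fc3124d1ed226b050348be330e840e2901ec4964737894e2114ec5532b34fb2c4e7358ad697b6 (k8 c24371 c9399 c5422 c5421 c5419 c5570 c5420 c5572 (k8 c5532 c5530 c5414 c5412 c5558 c667 c5559 c1060 (k8 c5562 c5342 c24321 c28 c9694 c5432 c24192 c661 (k8 c24218 c24387 c24386 c24034 c1059 c24174 c690 c24123 (k8 c24173 c5536 c2621 c5547 c24070 c24098 c10309 c1716 (k1 c24119 k0)))))) (by decide +kernel)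
def c24389 : PP 9 3 T 0x2000000000000000000000000000000000000000000000000000800000000000000804000000000000000000000000000000000000000000000000000 := rS 0x4050cd1 (k4 c5459 c24274 c2145 c959 k0) (by decide +kernel)
def c24390 : PP 9 3 T 0x20000010000000000000000200000004000000000000000000000000000000000000000000000000000000000000000000000000001002 := rS 0x7b50ed080b8c75e16b3559e35698cc8a31ef071921bd99987e378924872f3d0a442e6b053c4521901894863d20c749647388453a214caa5662739ad55b4bdb25e53b1 (k8 c24321 c24388 c20692 c24371 c9399 c5573 c5422 c5419 (k8 c5570 c5532 c5531 c5530 c5528 c5412 c5558 c667 (k8 c5562 c5342 c5341 c5340 c5560 c5561 c5559 c28 (k8 c9701 c9694 c9696 c24034 c1059 c24176 c24174 c23606 (k8 c20781 c24078 c5648 c24173 c1567 c326 c23260 c5487 (k8 c24093 c24088 c664 c5224 c1566 c23964 c323 c13297 (k8 c332 c5453 c5454 c3588 c24389 c5654 c8999 c2146 (k4 c24110 c959 c5501 c18387 k0)))))))) (by decide +kernel)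
def c24391 : PP 9 3 T 0x1000000000005000000000000000000000000040004000100000000000000000000000000000000000000000000000040000000000000000010002002 := rS 0x30a4de23b (k4 c24024 c9696 c17730 c9230 (k1 c24346 k0)) (by decide +kernel)
def c24392 : PP 9 3 T 0x20000110000000000000000200000004000000000000000000000000000000000000000001000000000000000000100000000000000002 := rS 0xba4d403e6fa6c73e0d999df81df6bc9c6e178865ebb1379c4229d4ca7d9673a5ca5ee3789878920c8a88c42b32589c8eb5db0945203 (k8 c28 c9694 c5559 c24371 c5422 c5562 c5570 c5342 (k8 c5532 c5528 c9731 c5414 c24390 c294 c3584 c2598 (k8 c24086 c20809 c24388 c9399 c5419 c5420 c5572 c5530 (k8 c5412 c5558 c667 c1060 c24321 c23244 c9701 c9696 (k8 c24262 c24185 c24372 c5540 c333 c2532 c23684 c5405 (k8 c24391 c5534 c5536 c5538 c24356 c3620 c326 c24198 (k1 c5648 k0))))))) (by decide +kernel)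
def c24393 : PP 9 3 T 0x20000010000000000000000200000004000000000000000000000000000000000000000001000000000000000000100000000000000002 := rS 0x1ecf019b6692d007892f1118a406f51290e3a4b239c4231510acc4e7358ad697b694bdc760c (k8 c24390 c24024 c20809 c24388 c24371 c9399 c5422 c5421 (k8 c5419 c5570 c5532 c5528 c5414 c5558 c667 c5562 (k8 c5342 c5341 c5561 c5559 c23244 c28 c9694 c9731 (k8 c9696 c294 c3584 c24392 c24338 c24339 c20217 c17730 (k2 c23684 c24304 k0))))) (by decide +kernel)
def c24394 : PP 9 3 T 0x20000010000000000000000200000004000000000000000000000000000000000000000002000000000000000000000000000000000002 := rS 0x1c2e3308e343eff0b47c7ec6abcfbc1bd9b7d1bf378bd7626f129c42315109cd634bdb4a5ee3b1bc4c184b (k8 c5342 c24390 c2598 c24086 c24024 c20809 c24388 c24371 (k8 c9399 c5421 c5419 c5528 c5414 c5558 c667 c5559 (k8 c1060 c24321 c23244 c9696 c5589 c10035 c24033 c20841 (k8 c24225 c5224 c23227 c5454 c5657 c24230 c5501 c24304 (k4 c17711 c24263 c5654 c9230 (k2 c2617 c24290 (k1 c5691 k0))))))) (by decide +kernel)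
def c24395 : PP 9 3 T 0x4001000000000081000000000000000000000200040004000100000000000000000000000000000000000000000000000000000000000000000090002002 := rS 0x6bb23be8050a57c616d9184703d65a5c763769a315ef15699ce211399bc4ab1 (k8 c5421 c5559 c1060 c5419 c5558 c667 c664 c5573 (k8 c9696 c10145 c20793 c24056 c24086 c24024 c20692 c5420 (k8 c5560 c5654 c9230 c24391 c2473 c24218 c5488 c1068 (k4 c24131 c24196 c24241 c2190 (k1 c20909 k0))))) (by decide +kernel)
def c24396 : PP 9 3 T 0x20000010000000000000000200000004000000000000000000000000000000000000000000000000000000000000000000000000000002 := rS 0x5d26a01f37d3639f038dc3a10efbc3c4424a4626371d832534b56ad5627313b2d3fb6118a43203d892c8e6f129c4229d8a88532b3 (k8 c5532 c5530 c5528 c5414 c5412 c5558 c667 c5559 (k8 c1060 c5562 c5342 c24321 c28 c9701 c9694 c9731 (k8 c24371 c5572 c5420 c5570 c5419 c5421 c5422 c5573 (k8 c9399 c24388 c24390 c24024 c24086 c2598 c24394 c294 (k8 c24393 c3584 c5582 c335 c18461 c24262 c24185 c24395 (k8 c5534 c5536 c5538 c24125 c3620 c326 c24198 c5648 k0)))))) (by decide +kernel)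
def c24397 : PP 9 3 T 0x2000000000081000110000000000000000000000008000000001000000000000000000000000400001100000000014000000005400000000001012000 := rS 0x1749a807ce348ca4b6351db84729b6f8de269f6589ce6b5 (k8 c5422 c5419 c5570 c5420 c5572 c2598 c24086 c5538 (k8 c5536 c5534 c5460 c5456 c5324 c5474 c24124 c23214 (k4 c24185 c24125 c3620 c326 (k2 c24198 c5648 k0)))) (by decide +kernel)
def c24398 : PP 9 3 T 0x2000000000000002000000410000000000200040008000000001000000000000000000000100000000000000000040000000002000000000000002002 := rS 0x17793afc5b16287d49a4fb3e2643a98f9bc4a71089ee264b (k8 c5342 c2598 c5457 c5558 c667 c5559 c1060 c9712 (k8 c5388 c5606 c5610 c19938 c295 c2369 c24267 c5661 (k4 c613 c3705 c3080 c3451 (k2 c670 c17957 k0)))) (by decide +kernel)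
def c24399 : PP 9 3 T 0x40024000000000a0001010000000000000400000040000000000000000001000000000000000000000000000000000000000000000000000000000000000 := rS 0x7c7efe58245e0ebbc3a8fe9b84eae56ee74df8d3315 (k8 c5414 c5530 c6706 c5536 c5461 c5533 c5415 c5412 (k8 c5213 c5222 c5614 c5429 c5430 c5634 c5635 c24381 (k4 c17955 c7323 c5628 c5206 k0))) (by decide +kernel)
def c24400 : PP 9 3 T 0x40020000000000a0000010000000000000000200040000000000000000000000000000000000000000000000000000000000000000000000000080002002 := rS 0x213078293f10babddf30377dc8af5766d2e2cd4f588bce8faf7baf70afd5af7d9c87814055c8d482b4ce5b39ac491a159a662a9d389bc4a472584762190191675ed (k8 c24304 c24396 c5326 c28 c9701 c24321 c5558 c5342 (k8 c5562 c5559 c1060 c667 c5412 c5414 c5530 c5532 (k8 c20946 c24397 c5421 c5419 c5474 c663 c5573 c294 (k8 c10035 c20793 c3070 c13257 c10690 c24274 c5453 c5422 (k8 c2631 c5423 c5575 c20809 c5479 c5327 c5325 c5411 (k8 c23244 c2361 c4759 c24398 c24399 c5600 c5601 c17708 (k8 c669 c1062 c5667 c914 c1368 c1369 c296 c2582 (k2 c20746 c20786 (k1 c18009 k0))))))))) (by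 decide +kernel)
def c24401 : PP 9 3 T 0x40020000000000a0000010000000000000000200040000000000000000000000000000000000000000000000000000000000000000000000000000002002 := rS 0x3efd43c0846f555aa48af3f6bdd6b01572352048d0acd329d2392f621901ab4ce5b9d1c42273378956315 (k8 c5414 c5421 c5559 c1060 c5419 c5558 c667 c24396 (k8 c5474 c663 c5573 c28 c9701 c24321 c5342 c5562 (k8 c5412 c5530 c5532 c20946 c24397 c294 c10035 c20793 (k8 c3070 c5422 c20809 c24304 c5325 c5326 c5531 c5413 (k4 c23244 c9731 c13257 c10690 (k2 c2631 c24400 (k1 c24112 k0))))))) (by decide +kernel)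
def c24402 : PP 9 3 T 0x20000000000a0000010000000000000000200040000000000000000000000000000000000000000000000000000000000000000000000000000002002 := rS 0x1ee57235204856ac4e61901ec4964737894e2114ec5532b3d099cb73a (k8 c24396 c5474 c663 c20946 c5532 c5530 c5414 c5412 (k8 c5558 c667 c5559 c1060 c5562 c5342 c24321 c28 (k8 c9701 c5419 c5421 c5573 c24397 c294 c10035 c20793 (k2 c24401 c5584 k0)))) (by decide +kernel)
def c24403 : PP 9 3 T 0x2000000000020000010000000000000000200040000000000000000000000000000000000000000000000000000000000000000000000000000002002 := rS 0x1fff358a591cb46aa55926a1f7bc2c610f38e029350a449272dbc4c6ef70c80debb10890c96474c915e61b18e84cf292d8d6743b708e5bfed (k8 c24304 c5538 c5534 c5460 c5456 c24396 c5324 c5474 (k8 c24124 c663 c20946 c5476 c5475 c5325 c5326 c5530 (k8 c5562 c5342 c5561 c5558 c24321 c23244 c28 c9701 (k8 c20809 c24086 c2598 c24402 c17749 c24348 c9824 c24063 (k8 c24342 c19568 c24185 c24328 c662 c5648 c17988 c24125 (k8 c2361 c1064 c1461 c2996 c1318 c1319 c24241 c1334 (k2 c5548 c2573 (k1 c20721 k0)))))))) (by decide +kernel)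
def c24404 : PP 9 3 T 0x2000000000020000010000000000000000200040000000000000000000000000000000000000000000000000000000000000000000000000000000002 := rS 0x95efa5df8ce490190e1735835367b0c80f63114ea6552679496c6b3a (k8 c24396 c5324 c5474 c24124 c663 c5531 c5530 c5412 (k8 c5411 c24321 c28 c9701 c5457 c5536 c24403 c1059 (k8 c24176 c24100 c24118 c5648 c24274 c20831 c4210 c5453 (k2 c1587 c10429 k0)))) (by decide +kernel)
def c24405 : PP 9 3 T 0x20000010000000000000000200000000000000000000000000000000000000000000000001400000040400000000000000000000000002 := rS 0x1135aed8de253884566f3d099cb73a (k8 c24396 c5474 c663 c20946 c5325 c5532 c5558 c667 (k4 c5559 c1060 c17749 c20445 (k2 c23262 c18007 k0))) (by decide +kernel)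
def c24406 : PP 9 3 T 0x20000010000000000000000200040000000000000000000000000000000000000000000000000000000000000000000000000000001002 := rS 0xf92d1c2b06b357c6d36f8fe06804f2855fb7391819206678cdc6cd1d25d96fc4923d0e910b9ac141901ec422431e9063a474eaa5664518e84cf292d8d675e1 (k8 c24404 c24396 c5324 c5474 c24124 c663 c20946 c5476 (k8 c5326 c5532 c5531 c5412 c5562 c5341 c5340 c5560 (k8 c5561 c5558 c24321 c28 c9701 c24034 c1059 c24176 (k8 c20628 c24100 c2311 c5648 c20831 c1753 c1637 c17730 (k8 c2505 c8999 c493 c1646 c24163 c1181 c1563 c24405 (k8 c5419 c20812 c24063 c930 c929 c2632 c327 c14125 (k8 c2883 c5463 c20766 c3588 c1606 c1721 c1335 c5691 (k1 c5548 k0)))))))) (by decide +kernel)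
def c24407 : PP 9 3 T 0x60000010000000000000000200040000000000000000000000000000000000000000000000000000000000000000000000000000000002 := rS 0x3dff37fc0e02b457a4492727a84486475991742f78992d626a0f7b5f89ad9b3c703779a592a3133b242c931d86407292d8d4373ad898419e1 (k8 c24404 c24406 c9230 c24321 c24396 c5475 c5324 c5474 (k8 c24124 c28 c9701 c24024 c17730 c5648 c1064 c663 (k8 c5476 c1461 c24241 c5325 c24086 c5654 c2558 c5404 (k8 c24004 c1231 c5542 c6036 c2361 c4108 c5342 c2598 (k8 c20809 c20946 c5326 c5532 c5562 c5561 c5558 c23244 (k8 c17749 c24348 c9824 c20812 c1318 c19568 c2632 c23312 (k2 c5548 c17988 (k1 c5694 k0)))))))) (by decide +kernel)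
def c24408 : PP 9 3 T 0x20000010000000000000000200040000000000000000000000000000000000000000000000000000000000000000000000000000000002 := rS 0xfe6ac0dc280f1ad4e6cbdb331f89ad9a592ac967858709330c4c6e3b7b833c21901ec47b1d2591cde25388462af30d8c742679496c6b3a (k8 c24396 c5324 c5474 c24124 c663 c20946 c5476 c5475 (k8 c5325 c5414 c5558 c667 c5559 c1060 c5562 c5342 (k8 c5341 c5560 c24321 c28 c9701 c24404 c24406 c20809 (k8 c24024 c24086 c2598 c9230 c17730 c5654 c5648 c2558 (k8 c1064 c1461 c24241 c5404 c24004 c1231 c1232 c24407 (k8 c5420 c5419 c5422 c24218 c24131 c24290 c2631 c20766 (k2 c12311 c2507 k0))))))) (by decide +kernel)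
def c24409 : PP 9 3 T 0x20000010000000000000000200080008000000000400000011000000000000000040000000000000000400000000000000000000000000 := rS 0x47fcd68fc0eac1fd018e91d664579edf661f7bc0d22490896c97a1 (k8 c20946 c5342 c5474 c5558 c5334 c23214 c21406 c5333 (k8 c5517 c7262 c9399 c5325 c5326 c5532 c5562 c5341 (k8 c19568 c18038 c23312 c2177 c17804 c1335 c5548 c2401 (k1 c5675 k0)))) (by decide +kernel)
def c24410 : PP 9 3 T 0x20000010000000000000000200000000000000000000000000000000000000000000000000000000000000000000000000000000000002 := rS 0x1588cf7a19620d7ffce25ed57c0ce491d99af6e0b24bdc3f4a33e84b6f322ce956f17a844864b (k8 c5342 c5561 c5558 c23244 c9696 c5413 c24396 c5326 (k8 c5325 c5474 c20946 c663 c24408 c5517 c5333 c5334 (k8 c5516 c9399 c1058 c7262 c23214 c17749 c21406 c20812 (k8 c23185 c24409 c5547 c20798 c2598 c14602 c24058 c20635 (k2 c958 c5683 (k1 c2030 k0)))))) (by decide +kernel)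
def c24411 : PP 9 3 T 0x41000100000000000000000000000000000000000000000000000500000000000000010408000000000000000005410440000000010000 := rS 0x13fe36f0fc72cb (k4 c1753 c325 c327 c24125 (k2 c5580 c2885 (k1 c5680 k0))) (by decide +kernel)
def c24412 : PP 9 3 T 0x1000000000000000000000000000008000000000000000000000000000200000000000004000000000000000000000000000001000000 := rS 0x179486cb635 (k4 c5324 c5474 c5475 c24124 (k2 c1064 c5648 k0)) (by decide +kernel)
def c24413 : PP 9 3 T 0x2000000000040000000000000000000000200080000000000000000050010000000000200000000014000000000000000000000000018000000000000 := rS 0x3fc8ad279f8dbe392091dee49 (k8 c5334 c5333 c5562 c5340 c5534 c5538 c21911 c387 (k4 c10123 c2937 c2942 c18038 k0)) (by decide +kernel)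
def c24414 : PP 9 3 T 0x80000000000000051000000000000000000000200080000000200000000001011000000000000000000010400000000000041000000000000000010000000 := rS 0x79bfd98cff6a648ad16534991df4ff87c6954bcedbc310b81c7e391990c831d2591c76f724b8e0701 (k8 c5592 c5550 c5549 c5334 c5333 c5332 c5562 c5342 (k8 c5341 c5340 c5561 c5316 c5317 c5318 c5432 c5433 (k8 c5434 c17862 c24160 c19357 c10191 c5580 c5538 c2885 (k8 c24196 c24186 c10123 c5680 c2134 c2936 c1759 c23185 (k4 c20483 c11160 c2943 c2500 (k1 c3593 k0)))))) (by decide +kernel)
def c24415 : PP 9 3 T 0x40000010000000000000000200000000000000000000000000000000000000000000000050000000080000000000000000000000000002 := rS 0x3fc8adf1ff89a6d4f6bcd98aa67a73c232640d5ef0380a7c7a990b4a4c2670ebf5eaf10c80d26e171fc943a14dc40923b2392c8211d88de95b5 (k8 c24410 c5211 c5518 c24321 c5558 c5340 c5342 c5562 (k8 c5332 c5334 c17712 c24085 c5379 c24063 c5241 c5549 (k8 c5591 c24411 c28 c9701 c9696 c23244 c20808 c23316 (k8 c664 c662 c24414 c5648 c1463 c5560 c1465 c5592 (k8 c5550 c5333 c1619 c24186 c24188 c24413 c5679 c10444 (k8 c1275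 c1276 c388 c5500 c23892 c141 c10123 c5576 (k4 c5580 c389 c2506 c18038 k0))))))) (by decide +kernel)
def c24416 : PP 9 3 T 0x40000010000000000000000200000000000000000000000000000000000000000000000010000000080000000000000000000000000002 := rS 0x273c0aaf6bcc8b3ad9a5bbf1d57c0e032930a4dc2e31b9247647259042267f907742a14dbf6214adaec5eaf1 (k8 c9696 c23244 c24321 c24410 c5211 c17712 c20808 c24085 (k8 c24063 c5379 c23316 c5241 c664 c5558 c5340 c5342 (k8 c5562 c5332 c5334 c5518 c5549 c5591 c24411 c662 (k8 c24414 c5592 c5550 c20812 c5341 c24196 c24415 c5404 (k8 c20692 c5326 c5325 c17748 c23967 c5195 c1284 c5458 k0))))) (by decide +kernel)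
def c24417 : PP 9 3 T 0x40000010000000000000000200000000000000000000000000000000000000000000000000000000080000000000000000000000000002 := rS 0x9d0c366940b4a4c29370b8ccff20ea8742f10c80debb10890496471d9246f4a7ea6e21b5 (k8 c24410 c17712 c24085 c20808 c5211 c5518 c5334 c5332 (k8 c5562 c5342 c5340 c5558 c24321 c23244 c28 c9701 (k8 c9696 c5379 c24063 c23316 c5241 c664 c5549 c5591 (k8 c24411 c662 c24414 c5648 c24416 c5488 c1461 c24346 (k1 c5476 k0))))) (by decide +kernel)
def c24418 : PP 9 3 T 0x44000010000000000000000200000000000000000000000000000000000000000000000004000000000041000000000000000000000002 := rS 0x88af58bcd56ca0e059e21901bd47b1d38bde94fd882052e358afcbc6d546f87bd293789677a03984763b5 (k8 c24410 c24321 c5558 c24417 c17749 c20946 c5559 c1060 (k8 c24114 c5224 c24308 c5381 c5454 c24230 c5198 c5590 (k8 c5450 c20692 c5380 c17712 c20808 c5211 c5333 c667 (k8 c5341 c5560 c23244 c28 c9701 c9696 c5648 c24346 (k4 c24131 c2121 c334 c2177 (k2 c1246 c23997 (k1 c336 k0))))))) (by decide +kernel)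
def c24419 : PP 9 3 T 0x40000010000000000000000200000000000000000000000000000000000000000000000020000000000041000000000000000000000002 := rS 0x345e6315407036b2572c5bc9f501ec7c985681d3a3965a4832037a904e23b7b8de94fd4dc4e208147b24663567b37ded669b8d22e1f978daa8df0f7b67293789677a03984763b5 (k8 c24410 c24321 c5558 c24417 c17749 c20946 c5559 c1060 (k8 c24114 c5488 c5224 c24308 c5381 c5454 c24230 c5198 (k8 c5591 c5589 c5549 c5496 c24052 c24054 c5495 c5453 (k8 c5450 c17788 c97 c5568 c5380 c17712 c955 c24085 (k8 c20808 c5211 c5518 c5333 c5332 c667 c5340 c23244 (k8 c28 c9701 c24418 c1753 c325 c1694 c1563 c2033 (k8 c5679 c24121 c1593 c327 c2879 c24027 c1197 c5297 (k8 c13097 c21702 c18461 c2993 c1566 c334 c2025 c3587 k0)))))))) (by decide +kernel)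
def c24420 : PP 9 3 T 0x1000000000000014000000000000000000000000000004000100000000001050000000001000000000001000000000000000000000000554000020400000 := rS 0xd0540c5e6ab (k4 c2121 c334 c1997 c5682 (k2 c23020 c2025 k0)) (by decide +kernel)
def c24421 : PP 9 3 T 0x40000010000000000000000200000000000000000000000000000000000000000000000020000000000040000000000000000000000002 := rS 0x1fb7d3caf0e8e55a9265a742e60f6b85c7f2f1b5bdfe169b35aa35ef0cf66f10c80debb11e90496711dbdc6f4a7ea6e21b5949bc4a8d9de80e611 (k8 c5558 c24417 c17749 c20946 c5381 c5559 c1060 c24114 (k8 c24410 c17712 c24085 c20808 c5211 c5518 c5333 c5332 (k8 c667 c5342 c5340 c5560 c24321 c23244 c28 c9701 (k8 c9696 c5488 c17788 c5224 c5450 c5454 c5495 c5496 (k8 c24308 c24054 c24052 c24230 c5198 c5549 c5591 c20903 (k8 c24419 c24066 c24083 c1756 c662 c2033 c325 c24420 (k4 c10145 c21348 c2885 c2879 (k1 c17954 k0)))))))) (by decide +kernel)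
def c24422 : PP 9 3 T 0x800000000040000010000000000000000200000000000000000000000000000000000000000000000010000000000002000000000000000000000002 := rS 0x2c43aad4fbcbc6d669b3592336abd7623b7b8de94fd949bc4a8d9de80e6cb38845a2981a818729b886d46292 (k8 c662 c1565 c24410 c17712 c24085 c325 c661 c20806 (k8 c881 c1595 c5558 c667 c1756 c24417 c17749 c20946 (k8 c5381 c5559 c1060 c24114 c20808 c5211 c5518 c5333 (k8 c5332 c24321 c23244 c5454 c5492 c5494 c5495 c5496 (k8 c24052 c24230 c23020 c1605 c2032 c334 c9422 c18461 k0))))) (by decide +kernel)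
def c24423 : PP 9 3 T 0x40000010000000000000000200000000000000000000000000000000000000000000000010000000000002000000000000000000000002 := rS 0xe6cbbe350305c3203d8ca4de259de80e611 (k8 c5558 c24417 c17749 c20946 c5559 c1060 c24114 c24321 (k8 c28 c9701 c24066 c661 c20806 c24422 c5224 c11149 (k1 c5486 k0))) (by decide +kernel)
def c24424 : PP 9 3 T 0x400000000001000200000000000000000200000000000100000000000000000000000000000000000010000000054001000000000011000001000000 := rS 0x194d450a7c88162d8c84a111ea051a134b877653b (k8 c20946 c5224 c5486 c20692 c5564 c5381 c5380 c5560 (k8 c5558 c5559 c23966 c24133 c11149 c20820 c1465 c1068 (k2 c390 c24021 (k1 c1660 k0)))) (by decide +kernel)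
def c24425 : PP 9 3 T 0x40000010000000000000000200000000000000000000000000000000000000000000000000000000000040000000000000000000000002 := rS 0xca493486634f7ac15a31d9323be614a864064138a3426979de802329399bc4bb1 (k8 c24321 c5559 c1060 c24417 c24114 c5558 c17749 c20946 (k8 c20692 c5564 c5381 c667 c5340 c28 c9701 c24421 (k8 c24423 c24196 c24186 c5224 c1915 c5490 c20843 c19392 (k4 c24424 c120 c24260 c10198 (k2 c2086 c1753 k0))))) (by decide +kernel)
def c24426 : PP 9 3 T 0x1005000000000015000000000000000000000000000004000100001200000050000000001400000000004000000100054001000000001444001021000000 := rS 0x394ea4930177ea6c6a97 (k8 c20692 c332 c24085 c20808 c24131 c24291 c5648 c167 (k2 c325 c24420 k0)) (by decide +kernel)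
def c24427 : PP 9 3 T 0x14000200000000000000000200080000000100001200000011000000000800000104000040000000010000000000000000000020000000 := rS 0x88af08bcdfa35 (k4 c332 c20808 c334 c5558 (k2 c1246 c23997 (k1 c336 k0))) (by decide +kernel)
def c24428 : PP 9 3 T 0x40000010000000000000000200000000000000000000000000000000000000000000000000000000000000000000000000000000000002 := rS 0xe1249d0b98140cb8af8fe5eff0b553ecdf68d467de58a18385a55ecccc979da350329d01cde21901bd7623d37894e2111dbdc6f4a7ea6e21b5 (k8 c24410 c17712 c24085 c20808 c5211 c5518 c5333 c5332 (k8 c5558 c667 c5559 c1060 c5560 c24321 c23244 c28 (k8 c9701 c9696 c24417 c17749 c24114 c5380 c5381 c20946 (k8 c20692 c24425 c5487 c24092 c663 c664 c882 c2180 (k8 c5224 c24089 c332 c5499 c24091 c24203 c5454 c24308 (k8 c24054 c5201 c24230 c5590 c24427 c5680 c24426 c1068 (k4 c1277 c662 c24420 c325 k0))))))) (by decide +kernel)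
def c24429 : PP 9 3 T 0x10000000000000000200000000000000000000000000000000000000000000000000000000000002000000000000000000000002 := rS 0x4090c1c22ceccc1bd0ecd1a807fa41c43f1cb3dbee1491e93af17aec4863d2092c8e6f129c4223b7b9246f4a7ea6d669f13ac55b1339eda21b5 (k8 c24410 c17712 c24428 c5419 c955 c5573 c5421 c5570 (k8 c5572 c5574 c24085 c20808 c5211 c5518 c5334 c5333 (k8 c5332 c5558 c667 c5559 c1060 c5562 c5342 c5340 (k8 c5560 c5561 c24321 c23244 c9696 c24083 c880 c662 (k8 c13096 c13097 c20767 c325 c326 c3590 c1776 c2574 (k8 c1775 c10035 c20841 c5380 c24225 c23265 c23214 c23992 (k4 c5649 c882 c23976 c10690 k0))))))) (by decide +kernel)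
def c24430 : PP 9 3 T 0x4000110000000000000000200000000000000000000000000000000000000000000000000000000000080000000000000000000000002 := rS 0x204ff22a1838ab0dbd4224323bdc934a7eacd5b1339eda21b5 (k8 c24410 c17712 c24428 c5419 c955 c5573 c5574 c20808 (k8 c5211 c5334 c5333 c5562 c5561 c5558 c23244 c24093 (k4 c24092 c664 c882 c23992 (k2 c23961 c23976 (k1 c10690 k0))))) (by decide +kernel)
def c24431 : PP 9 3 T 0x14000110000000000000000000000000000000100000001011000000000000000410000000000000000040000004440000004020010000 := rS 0x81405fe912296de6ab0dbdc934a (k8 c5211 c5334 c5333 c57 c2121 c334 c1994 c335 (k4 c23265 c23961 c13274 c3593 (k1 c21406 k0))) (by decide +kernel)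
def c24432 : PP 9 3 T 0x110000000000000000000000000000000000400080000000000000000000000000001000000000000000000000000000000000000 := rS 0x11ff3 (k2 c5550 c20799 (k1 c5675 k0)) (by decide +kernel)
def c24433 : PP 9 3 T 0x11000000000000000000000000000000000000000000000000000500000000000400000408000000000000000005411440004000000000 := rS 0x6f8fd3a39 (k4 c325 c1694 c326 c13097 (k1 c3590 k0)) (by decide +kernel)
def c24434 : PP 9 3 T 0x4000010000000000000000200000004000000000000000000000000000000000000000000000200000000000000000000000000000002 := rS 0x35991df0ba56509371b4d228c0d2bfde03d88f482711dbdc9237a526d63e3309bc4ad570c4ce61d33e855a2759ed9fb10da91c971d21845eaf1 (k8 c9696 c23244 c5558 c5561 c5341 c5342 c5562 c24410 (k8 c17712 c20808 c24428 c5574 c5570 c5573 c5380 c24430 (k8 c24431 c5419 c955 c1717 c20766 c5559 c1060 c24429 (k8 c24218 c5421 c24085 c5211 c5518 c5334 c5333 c5332 (k8 c667 c5340 c5560 c24321 c28 c22847 c10145 c5649 (k8 c20793 c10035 c24056 c24185 c24433 c24346 c1905 c5433 (k4 c24196 c24302 c5689 c2189 k0))))))) (by decide +kernel)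
def c24435 : PP 9 3 T 0x4000010000000000000000200000000000000000000000000000000000000000000000000000200000000000000000000000000000002 := rS 0x955085926e394b2522312d8d55d3a0e99dc2d5d0bc432037aec422431e9063a4b238ec9237a53f536b36589d5b1339c436be330ed8de25 (k8 c5559 c1060 c24428 c24429 c24218 c24410 c17712 c5419 (k8 c955 c5573 c5570 c5420 c5574 c24085 c20808 c5211 (k8 c5518 c5334 c5332 c5562 c5342 c5341 c5340 c5560 (k8 c5561 c5558 c24321 c23244 c28 c9701 c9696 c5380 (k8 c20766 c1717 c24430 c24431 c24434 c19291 c5324 c5474 (k8 c5476 c23214 c1183 c24124 c24185 c24433 c5648 c1068 (k2 c1461 c24301 k0))))))) (by decide +kernel)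
def c24436 : PP 9 3 T 0x4000110000000000000000200000000000000000000000000000000000000000000000001000000000000000000000000000000000002 := rS 0x3dbdf22f852b3b6f0c40f2849c0dc6411d9246f4a4dac626e1501cd3e330e99d5a2759bf621b52392e3a437abc432030ba07c6613884597b6378947bb1 (k8 c24321 c5560 c5559 c1060 c24428 c5420 c5558 c667 (k8 c24429 c24218 c24435 c24131 c28 c9701 c9696 c23244 (k8 c5561 c5341 c5342 c5562 c24410 c17712 c20808 c5574 (k8 c5570 c5573 c24430 c24431 c5284 c5572 c5419 c24021 (k8 c24116 c955 c5421 c24085 c5211 c5518 c5334 c5332 (k8 c5340 c24185 c24432 c24433 c5648 c5432 c5434 c17934 (k4 c24160 c10191 c5538 c24387 (k2 c24196 c23185 (k1 c5195 k0))))))))) (by decide +kernel)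
def c24437 : PP 9 3 T 0x4000110000000000000000200000000000000000000000000000000000000000000000000000000000000000000000000000000000002 := rS 0x348d4819de26f129c42249a56d44fb6 (k8 c24428 c5570 c24410 c5211 c5334 c5558 c667 c5559 (k4 c1060 c9696 c24430 c24436 (k2 c10035 c23265 (k1 c24225 k0)))) (by decide +kernel)
def c24438 : PP 9 3 T 0x4000010000000000000000200000000000000000000000000000000000000000000000000000000000000000000000000000000000002 := rS 0x7b2029d1cf85a6cd19b546a3122bcd5692ef25c39299de802e810c80debb11e9c4223b7b8de94fd4dc436acb13ac55be330ed8de25 (k8 c5559 c1060 c24428 c24429 c24218 c5573 c5421 c5570 (k8 c5420 c24410 c17712 c24085 c20808 c5211 c5518 c5333 (k8 c5332 c5558 c667 c5560 c24321 c23244 c28 c9701 (k8 c24435 c24131 c24437 c20946 c24192 c18461 c20692 c5224 (k8 c5648 c2121 c334 c335 c1997 c332 c5454 c5492 (k8 c5495 c5496 c24308 c325 c1694 c13274 c24420 c21972 k0)))))) (by decide +kernel)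
def c24439 : PP 9 3 T 0x10000000000000000200000000000000000000000000000000000000000000000000000000000000000000000000000000000002 := rS 0x140d440b5da7ef6477d193b4a99d2eafd978cc2b139b2d3fb67e925ef10a56d4e26f2392e3a4308895e2f5 (k8 c23244 c9696 c5559 c5558 c5561 c5341 c5342 c5562 (k8 c1060 c667 c24410 c5211 c17712 c5333 c5334 c20808 (k8 c24428 c5572 c5420 c5419 c5421 c24429 c24218 c24438 (k8 c5406 c5404 c5487 c5488 c17706 c18613 c24196 c24186 (k4 c22847 c24056 c2189 c20909 (k2 c5689 c24021 (k1 c3000 k0))))))) (by decide +kernel)
def c24440 : PP 9 3 T 0x88000000000000000000000000000000000000000000000000000000000000000000000000000000044001000000000000000000000000 := rS 0x140d440b5d91dff1a7d96b157a5cce95f7b4d1871 (k8 c5571 c18613 c24056 c5505 c5488 c5487 c5404 c5406 (k8 c5421 c5420 c5572 c24218 c24196 c24186 c2189 c20909 (k2 c5689 c24021 (k1 c3000 k0)))) (by decide +kernel)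
def c24441 : PP 9 3 T 0x18000010000000000000000000000000000000000000000000000000000000000000000000000000004000000000000000000000000002 := rS 0x1e30810072df3d38dc2d189a6c8e37248ec9710a500f62b39de843a8c48ac4e29d948d40c3d4f8fd24603989f6d59 (k8 c24439 c20261 c5570 c19419 c24440 c662 c326 c5572 (k8 c1569 c661 c20806 c5432 c24083 c5571 c5421 c20841 (k8 c18613 c5486 c19230 c22273 c5574 c24321 c28 c5211 (k8 c17712 c19429 c5332 c5334 c5518 c5520 c24085 c955 (k8 c24141 c24277 c24185 c880 c13097 c325 c24433 c24125 (k2 c5462 c24294 k0)))))) (by decide +kernel)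
def c24442 : PP 9 3 T 0x8000010000000000000000000000000000000000000000000000000000000000000000000000000000000000000000000001000000002 := rS 0x23cd60da592e27012d4709210f1f8532abef6d0623f1aca466920305cc1ef48a30de231486407b1399c44eb15a99d2b3bd0edab21d (k8 c5486 c24439 c20261 c19230 c22273 c5488 c5487 c5422 (k8 c5421 c5570 c5571 c19419 c24321 c28 c9701 c9694 (k8 c9731 c1060 c18613 c20841 c5505 c24440 c24066 c661 (k8 c662 c5284 c5432 c20806 c326 c1565 c24441 c5653 (k8 c5413 c5530 c16230 c6601 c17813 c3026 c22840 c701 (k8 c4503 c23259 c13156 c17828 c9230 c1059 c2752 c24172 k0)))))) (by decide +kernel)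
def c24443 : PP 9 3 T 0x8000010000000000000000000000000000000000000000000000000000000000000000000000000004000000000000000000000000002 := rS 0x11e6b06d2de7e189f7a021b188d6525a8e2655692037bc21b43023006f17a9cce2b15abf4ce9554cef43b6ac8749224 (k8 c24442 c10629 c5486 c24439 c20261 c19230 c22273 c5489 (k8 c5488 c5487 c5405 c5422 c5421 c5571 c19419 c23244 (k8 c9696 c28 c18613 c24440 c24441 c12972 c5505 c661 (k8 c662 c5413 c5530 c22840 c701 c5432 c20806 c1565 (k8 c2161 c4503 c24133 c23259 c16230 c22753 c17949 c9230 (k2 c1059 c2752 (k1 c24172 k0))))))) (by decide +kernel)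
def c24444 : PP 9 3 T 0x4000000000000000100000000000000000100000000000000000000000000000000000000000000000000000000000002000000000000002000010002 := rS 0x948fc0c17 (k4 c24066 c661 c2910 c5432 (k1 c17813 k0)) (by decide +kernel)
def c24445 : PP 9 3 T 0x28000010000000000000000000000000000000000000000000000000000000000000000000000000000000000000000000000000000002 := rS 0x11c3df3352c5fa6754a4493038ebd48a2446bffdc43092bcdd3bd0ed83b59 (k8 c24439 c5486 c20261 c19230 c22273 c24443 c5406 c1061 (k8 c20787 c18671 c5586 c5505 c24442 c2968 c23244 c20813 (k8 c16948 c10629 c3036 c5489 c5487 c5405 c5421 c22984 (k4 c15208 c1058 c10418 c23675 k0)))) (by decide +kernel)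
def c24446 : PP 9 3 T 0x400000000011000000000000000000000000000000000000000000001008000000000200000000000040000000000000000000000040000000800000 := rS 0xf00e19c99688c835ed (k8 c5540 c1064 c1065 c4494 c1463 c388 c387 c20483 (k1 c5534 k0)) (by decide +kernel)
def c24447 : PP 9 3 T 0x8000010000000000000000000000000000000000000000000000000000000000000000000000000000000000000000000000000000002 := rS 0xde1cca07ee1688ec2fed7938e0313238dc9710a56d591df30f8dfed7f7244824308848dc452489277a14a99c3afd4babc06f5d89cf6d59 (k8 c24439 c20261 c19419 c24321 c23244 c28 c5406 c5404 (k8 c5405 c5486 c5487 c5488 c19230 c22273 c24442 c10629 (k8 c2968 c24443 c1061 c2746 c20787 c24077 c3036 c18671 (k8 c5507 c5586 c24108 c24444 c24196 c24186 c24445 c5211 (k8 c17712 c19429 c5518 c5520 c955 c19568 c24185 c19710 (k8 c5540 c24446 c5332 c24141 c24262 c2910 c17813 c5317 (k2 c17934 c18825 k0))))))) (by decide +kernel)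
def c24448 : PP 9 3 T 0x8000000000000010000010000000000000000000000000000000000000000000000000000000000000000000000000000041000000000000000000000002 := rS 0x78139df944efda937938dc3010e90d1c4b091047a6e08e855e8d8e80de2f5d89c5669f13ac55bb6d98ec923723d29fa9b89c40e759 (k8 c24439 c19419 c17712 c955 c24085 c20808 c5211 c5520 (k8 c5518 c5334 c5332 c24447 c20261 c5573 c5421 c5570 (k8 c5572 c5574 c5571 c24321 c23244 c9696 c28 c5504 (k8 c5505 c5584 c19392 c20922 c20793 c24095 c24094 c12617 (k8 c12663 c1272 c20787 c24431 c20800 c24072 c24071 c19710 (k8 c24433 c5540 c5325 c24346 c24287 c15026 c5195 c5458 k0)))))) (by decide +kernel)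
def c24449 : PP 9 3 T 0x80000000200000000000000000140400000000008000000000000000000000004200000002000000000 := rS 0x1feae (k2 c2968 c15032 (k1 c1287 k0)) (by decide +kernel)
def c24450 : PP 9 3 T 0x4000000000000010000010000000000000000000000004000200000000000000000140400000000008000000000000000000000004000000002008000002 := rS 0x1b8268d7fabc8445789cce2add9c408f4a8eac76d59 (k8 c24439 c20261 c5421 c2161 c5211 c5520 c17712 c24447 (k8 c5573 c5571 c19419 c9696 c24449 c5658 c1078 c11059 (k4 c12616 c20787 c22816 c1061 k0))) (by decide +kernel)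
def c24451 : PP 9 3 T 0x4000400000000010000010000000000000000000000000000000000000010008000000000000000000000000000000000001000000000000002000000002 := rS 0xfff9929aec84a85e3adf70b4607280d781541d54cefda0378ec563b6acecdfb10 (k8 c17712 c20808 c24447 c24439 c20261 c5421 c24321 c9696 (k8 c28 c5540 c5325 c2447 c334 c5682 c5195 c5649 (k8 c5224 c2199 c5459 c5460 c5538 c2161 c5433 c2125 (k4 c24302 c2189 c24450 c5546 (k2 c2569 c5694 k0))))) (by decide +kernel)
def c24452 : PP 9 3 T 0x5000400000000015000000000000000000000000000000000000000000011004000000000400000004004000000000054041000008000000000000000000 := rS 0x140d464a059ccd689ed0f02f02a3e6ff (k8 c2568 c5546 c5682 c5195 c9182 c2022 c5457 c5459 (k4 c5537 c24057 c24128 c2065 (k2 c8707 c24021 (k1 c3001 k0)))) (by decide +kernel)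
def c24453 : PP 9 3 T 0x4005400000000095000000000000000000000000000000000000000000080000000000010100000000000500000000044001000000000000000000000000 := rS 0x68502a16a255a69c719c53ecb (k8 c5420 c5572 c5571 c6448 c5679 c2088 c1698 c10379 (k4 c5869 c20766 c24242 c24119 k0)) (by decide +kernel)
def c24454 : PP 9 3 T 0x2000000000000000000000000000000000000000000000000000000000000000000000000100000000000200000000000001000000000000000000000000 := rS 0xcd3da1da2cf (k4 c5543 c5501 c5499 c1593 (k2 c2441 c24057 k0)) (by decide +kernel)
def c24455 : PP 9 3 T 0x5000000000000000010000000000000000000000000000000000000000000000400000000000000020004000000004000000008000000000001000000 := rS 0x1c4a1c23f (k4 c408 c24116 c8159 c15375 (k1 c5317 k0)) (by decide +kernel)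
def c24456 : PP 9 3 T 0x5000000000091000010000000000000000000000000000000000400000000000000000000000000000500000000044001000008000000000001000000 := rS 0x4820342a149a71c6714fb2c774a (k8 c5211 c5332 c5420 c5572 c5571 c6448 c5679 c1694 (k4 c24455 c24242 c24021 c13156 (k1 c908 k0))) (by decide +kernel)
def c24457 : PP 9 3 T 0x4000400000000095000010000000000000000000000000000000000200010004000000000000000000000000000000040041000008000000000001000000 := rS 0x2355ed26ab8998c870b7cf698f0b3da287f62afc66f7fa3fe67159a7d96b156bf53713 (k8 c955 c24085 c20808 c5573 c5421 c5420 c5572 c5574 (k8 c5571 c5546 c12624 c2568 c1272 c24276 c6368 c24452 (k8 c5499 c5501 c5543 c24304 c24456 c1593 c2442 c1597 (k8 c24454 c24057 c5691 c17679 c2624 c1183 c24056 c20793 k0)))) (by decide +kernel)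
def c24458 : PP 9 3 T 0x1000000000000000000000000000000000000000000000000000000000000000800002200000110000000000000054040000000000000000000000000 := rS 0x46abda4d5 (k4 c17679 c2624 c1183 c24056 (k1 c20793 k0)) (by decide +kernel)
def c24459 : PP 9 3 T 0x6000400000000000000000000000000000000000000000000000000400050000000540000000000000000001400004000000000000000000000000000000 := rS 0xd340231fed76633d0ed1 (k8 c5501 c5499 c5543 c24057 c2192 c5544 c20762 c24027 (k2 c24056 c20909 k0)) (by decide +kernel)
def c24460 : PP 9 3 T 0x6004400000000000000000000000000000000100000000000000000400010000000000000000000510004200000000014041000000400000000000040000 := rS 0x8e086852303f938d98c870b7cf67343b459fe1 (k8 c24304 c5543 c5501 c5499 c19419 c1593 c2442 c1597 (k8 c24454 c24057 c24458 c5691 c5550 c5589 c20903 c12617 (k2 c24459 c2751 k0))) (by decide +kernel)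
def c24461 : PP 9 3 T 0x100000000000000000000000000000000000000000000000000800000000000000000400000000000040000 := rS 0x23a1 (k2 c5568 c2751 (k1 c12617 k0)) (by decide +kernel)
def c24462 : PP 9 3 T 0x110000000000000000000000000000000000000000000000000000000000000002084000000004001000000000000000000040002 := rS 0x9d8740e330dca02e1078ec4e67165edab3b3 (k8 c24447 c24439 c20261 c5420 c5571 c19419 c24321 c9696 (k8 c12617 c24201 c17971 c1073 c5316 c5432 c24256 c24160 (k1 c5649 k0))) (by decide +kernel)
def c24463 : PP 9 3 T 0x2000400000000010000010000000000000000000000000000000000000010000000000000000000000000000000000004041000000000000002000000002 := rS 0xde482811ba047c0d2cc94aa4d3899f184f627159a7d62addb6cc7647a526e271039d67de8755b45ffe1 (k8 c24304 c5544 c5501 c5500 c5499 c24448 c24439 c19419 (k8 c17712 c955 c24085 c5211 c5520 c5332 c24447 c20261 (k8 c5573 c5421 c5572 c5574 c5571 c24321 c2804 c24218 (k8 c24460 c5679 c1694 c1698 c1275 c24186 c24453 c24461 (k4 c24462 c5381 c24242 c20762 (k2 c1278 c24033 k0)))))) (by decide +kernel)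
def c24464 : PP 9 3 T 0x2000400000000010000010000000000000000000000000000000000000010000000000000000000000000000000000000041000000000000002000000002 := rS 0xc84e05d2b280d4ed261d2238dc3031e9063a434704425a1373fd56f17aacd3e27568edee491b91e94fd4d92de7ef886cf6c73acec43203 (k8 c28 c9701 c24321 c24439 c19419 c20261 c24447 c17712 (k8 c24448 c24451 c24457 c24085 c20808 c5211 c5520 c5518 (k8 c5334 c5333 c5332 c5573 c5570 c5572 c5574 c23244 (k8 c9696 c5500 c5544 c24463 c5565 c1061 c2746 c1272 (k8 c20787 c20813 c24077 c24068 c20799 c24072 c24071 c3593 (k8 c24431 c24433 c5326 c2969 c24346 c1905 c5433 c15026 (k2 c24302 c1275 k0))))))) (by decide +kernel)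
def c24465 : PP 9 3 T 0x5000400000000010000010000000000000000000000000000000000000010000000000000000000000000000000000008000000004000000002000000002 := rS 0x12ac918b4dabe30b4e9fc3e94a4fe6e3818f4831447048320359a7d9627db56476491b91e949b88275c2396ff8367b1 (k8 c24321 c24447 c5195 c5538 c5534 c5460 c5458 c17712 (k8 c24085 c5211 c5520 c5518 c5334 c5332 c24439 c20261 (k8 c5570 c5420 c5572 c5574 c28 c9701 c1061 c1272 (k8 c1271 c24077 c24068 c20799 c24071 c5590 c24433 c15026 (k8 c17954 c5694 c5224 c5648 c5576 c4928 c2942 c5476 (k2 c24412 c1461 (k1 c10379 k0))))))) (by decide +kernel)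
def c24466 : PP 9 3 T 0x2000000000000000010000000000000000000000000000000000000000000000000000100000002000004000000000041000000000040000000000002 := rS 0x1d9d9680e339405d30ce0da1de21901bd763b3 (k8 c24447 c24321 c23244 c28 c9701 c9696 c2022 c1906 (k8 c24274 c2450 c1463 c5648 c5316 c5432 c24244 c24160 (k2 c1994 c5649 k0))) (by decide +kernel)
def c24467 : PP 9 3 T 0x2000000000001000000000000000000000000000000000000000000000000000000000100000008000000000000000041000000000000000000000000 := rS 0x4aa5d3ad1 (k4 c5459 c5458 c1284 c2125 (k1 c24241 k0)) (by decide +kernel)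
def c24468 : PP 9 3 T 0x1002000000000010000010000000000000000000000000000000000000000000000000000100000000000000000000004041000000000000002000000002 := rS 0x69c70681c9da052c331f81c8a43672483687542ade2f5d889d5bb6acecc6f4a7ec43de13 (k8 c2804 c24448 c17712 c20808 c5211 c5518 c24447 c24439 (k8 c20261 c5573 c5570 c24321 c23244 c9696 c24467 c5682 (k8 c2022 c1906 c24466 c24274 c10701 c2969 c1563 c326 (k8 c323 c2451 c22789 c24160 c1638 c1637 c5658 c15747 (k1 c24251 k0))))) (by decide +kernel)
def c24469 : PP 9 3 T 0x4000400000000010000010000000000000000000000000000000000000000000000140400000000008000058000000000001000004000000002000000002 := rS 0x4a0353b1981de3b1d9875ef4a (k8 c5211 c5333 c2121 c24447 c24321 c9696 c1563 c322 (k4 c24160 c9823 c5224 c24450 k0)) (by decide +kernel)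
def c24470 : PP 9 3 T 0x400000000010000010000000000000000000000000000000000000010000000000000000000000000000000000000041000000000000002000000002 := rS 0x1280d4ed261d552a5ae974ab20dedf66b87c1ed25bcde21901ec4e6b1db56766f7a53f621ef (k8 c24448 c17712 c20808 c5211 c5333 c24447 c24439 c20261 (k8 c5421 c19419 c24321 c28 c9701 c9696 c24451 c24457 (k8 c24464 c5195 c5460 c5537 c5538 c24465 c24468 c97 (k8 c134 c2189 c2065 c5682 c2121 c24469 c24412 c5649 (k2 c5224 c24450 k0))))) (by decide +kernel)
def c24471 : PP 9 3 T 0x200020000000000000000000110000000000000050040000000000000000000000000 := rS 0xde8d57a3dfb13 (k4 c955 c20808 c20800 c3071 (k2 c2142 c1272 (k1 c20793 k0))) (by decide +kernel)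
def c24472 : PP 9 3 T 0x5000000000080000000000000000000000000000000000000000000010000000000000000000088000020000000000000000000000000000000000000 := rS 0x1f370b7dc7144c341669f (k8 c5572 c5574 c2125 c2126 c1286 c1780 c2442 c1597 (k2 c5590 c5691 k0)) (by decide +kernel)
def c24473 : PP 9 3 T 0x1000000000091000000000000000000000000000000000000000400010000000800005000000000000000004000000001000000000000000000000000 := rS 0xf498 (k2 c6448 c24214 (k1 c1593 k0)) (by decide +kernel)
def c24474 : PP 9 3 T 0x10000000000000000000000000000000000400000000000200000400000000004000000000054001000000000000000000000000 := rS 0x102a1 (k2 c24116 c1717 (k1 c24021 k0)) (by decide +kernel)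
def c24475 : PP 9 3 T 0x14000000000000000000000000000000000000000000001000000000000000000004000000008000000040000000000000000000000000 := rS 0x153ed (k2 c5499 c2022 (k1 c5682 k0)) (by decide +kernel)
def c24476 : PP 9 3 T 0x80000000000000000000000000000000000000000000000000000000400014000000000000000000000000000504000000000000000000000000000000000 := rS 0x12303 (k2 c5550 c5589 (k1 c20762 k0)) (by decide +kernel)
def c24477 : PP 9 3 T 0x5000000000095000000000000000000000000000000000000000400011000000100005000000080000020500000000041000000000000000000000000 := rS 0x10348b7be6e343bfd56b3 (k8 c5574 c24472 c23961 c24475 c24473 c24476 c5691 c24033 (k2 c2516 c20762 k0)) (by decide +kernel)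
def c24478 : PP 9 3 T 0x2000000000010000010000000000000000000000000000000000000000000000000000000000000000000000000004041000000000000002000000002 := rS 0x7b593de80c415ab138ed8e759 (k8 c24439 c19419 c20261 c5571 c5421 c5573 c17712 c24471 (k4 c24470 c5494 c24304 c24468 k0)) (by decide +kernel)
def c24479 : PP 9 3 T 0x1000000000095000000000000000000000000000000000000000400011000000100005000000000000020500000044041000000000000000000000000 := rS 0xae38ac55be3 (k4 c24218 c5573 c5421 c5571 (k2 c20793 c24477 k0)) (by decide +kernel)
def c24480 : PP 9 3 T 0x10000010000000000000000000000000000000000000000000000000000000000000000000000000004041000000000000002000000002 := rS 0x1d9d86cb51c0868519e170a3c26f1d8a7d97b323d29fb1367b3529de80c415ab138ed8e759 (k8 c24439 c19419 c20261 c5571 c5421 c5573 c17712 c24471 (k8 c24470 c24196 c5495 c5453 c955 c20808 c5211 c5520 (k8 c24447 c5420 c5572 c24321 c9696 c2804 c24461 c24474 (k8 c24478 c24479 c5381 c12617 c702 c701 c2161 c5474 (k2 c1994 c5649 k0))))) (by decide +kernel)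
def c24481 : PP 9 3 T 0x10000010000000000000000000000000000000000000000000000000000000000000000000000000000041000000000000002000000002 := rS 0x17948c4b73a0da4c3ae3708f4831d2192d228e0884b426e4a0d7bcf10c80debb15989f663b248dc8f4a35bf5371380c415ab138ed8e759 (k8 c24439 c19419 c20261 c5571 c5421 c5573 c17712 c24471 (k8 c955 c24085 c20808 c159 c5211 c5520 c5518 c5334 (k8 c5332 c24447 c5570 c5574 c24321 c23244 c28 c9701 (k8 c9696 c24470 c5450 c24196 c24480 c5565 c1061 c2746 (k8 c1272 c3039 c13156 c20787 c20813 c24077 c24068 c24072 (k8 c24071 c24431 c24433 c1905 c5649 c5474 c5476 c24124 (k2 c1461 c5648 k0))))))) (by decide +kernel)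
def c24482 : PP 9 3 T 0x80000000000000000000000000140000000000000000000800000000000000000004100000000000000 := rS 0x8b8c97a11d9246e47 (k8 c5520 c5518 c5334 c5332 c5568 c12624 c24071 c2751 (k1 c24125 k0)) (by decide +kernel)
def c24483 : PP 9 3 T 0x14000100000000000000000100080000000100000200000000000540000000000510000000000000010042000004001110002000000000 := rS 0x21dfeab572362a5bf94ebc6401d9246e477ec4e0273f09e8201337a3c7e17 (k8 c24066 c2910 c24482 c1272 c2804 c12617 c880 c5457 (k8 c19419 c24471 c955 c20808 c5520 c5518 c5334 c5332 (k8 c3590 c5462 c24293 c5691 c5474 c5590 c701 c20793 (k4 c1286 c23961 c24475 c24476 k0)))) (by decide +kernel)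
def c24484 : PP 9 3 T 0x15000110000000000000000100000000000100000200000000000500000000000510000000000000010042000000001110002000000000 := rS 0x95efb25a8aef7a85ae8df1240951339a5fc27a37a3dbe9d4d8fc2f4a (k8 c5211 c24066 c2910 c24085 c24083 c13097 c24482 c1272 (k8 c880 c5457 c20768 c19419 c955 c24483 c13156 c15375 (k8 c10035 c5465 c5578 c24108 c20793 c24230 c1182 c5454 (k2 c24305 c5678 k0)))) (by decide +kernel)
def c24485 : PP 9 3 T 0x10000110000000000000000000000000000000000000000000000000000000000000000000000000000040000000000000002000000002 := rS 0x19b35a6317990d5d3a46901009068bfdc4450800debb31dbdc6efd89c055ab1389cd2f291a8187acf3d04cde8f1ca49c29f6fa7567b6acec5363f0b9829510 (k8 c17712 c5211 c24481 c24066 c2910 c24085 c24321 c24439 (k8 c20261 c5574 c24083 c13097 c5572 c13096 c662 c325 (k8 c24482 c1272 c2804 c880 c20767 c1569 c661 c20806 (k8 c5432 c20768 c19419 c5571 c5421 c5573 c24471 c955 (k8 c20808 c5518 c5333 c5332 c24447 c23244 c28 c12617 (k8 c20747 c24484 c2574 c1780 c24185 c1775 c18213 c10035 (k8 c24295 c20793 c22797 c23007 c5476 c2941 c2624 c545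 (k1 c3587 k0)))))))) (by decide +kernel)
def c24486 : PP 9 3 T 0x10000010000000000000000000000000000000000000000000000000000000000000000000000000000040000000000000002000000002 := rS 0x15de246a07406f478e47b2970b7c7e92032742e60d89cce2b34fac55bb6acd293710 (k8 c17712 c24085 c5211 c24439 c20261 c5573 c5421 c5572 (k8 c5574 c5571 c19419 c24321 c24481 c24066 c24083 c661 (k8 c662 c2910 c13097 c13096 c5432 c1569 c325 c24482 (k4 c1272 c24485 c5380 c5381 (k2 c22828 c20793 (k1 c24298 k0)))))) (by decide +kernel)
def c24487 : PP 9 3 T 0x4000000000000000000000000000000000100000000000000000000000000000000000000000000000000000100000002000000000000000000000002 := rS 0x3f1e90652920327c4fb6 (k8 c20261 c5570 c5572 c661 c662 c5432 c1734 c1569 (k2 c326 c5655 k0)) (by decide +kernel)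
def c24488 : PP 9 3 T 0x1000000000000000080000008100100000040000000064010001000000040 := rS 0xececb4336b34daa97 (k8 c1637 c1656 c2941 c24051 c545 c24292 c24160 c1994 (k1 c10145 k0)) (by decide +kernel)
def c24489 : PP 9 3 T 0x210000000000000000000000000000100000000000000000000000000000000000000000000000040000000000000001000000002 := rS 0x277df1a1007e07493c76227d990c7a190185d4061f1ab91ab1569c4e66f40a7f6d59 (k8 c24439 c20261 c5572 c5380 c1060 c19419 c5571 c5573 (k8 c5421 c5381 c20793 c24298 c24487 c24242 c1068 c28 (k8 c9701 c2767 c23604 c24447 c5570 c24321 c9696 c5648 (k4 c1563 c326 c5655 c24488 (k2 c5450 c5324 (k1 c5224 k0)))))) (by decide +kernel)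
def c24490 : PP 9 3 T 0x210000000000000000000000000000000000000000000000000000000000000000000000000000040000000000000001000000002 := rS 0xc92da5c393b038ce5061f1ab91a81789cce2b156edab26f (k8 c1060 c24439 c20261 c5573 c5421 c5571 c19419 c9696 (k8 c5380 c5381 c20793 c24298 c24487 c24489 c5316 c5432 (k4 c24160 c10145 c24249 c1994 (k2 c2061 c24240 k0)))) (by decide +kernel)
def c24491 : PP 9 3 T 0x4000000000000084000000000000000000000100000000000200000000000001000000000000000080000000000000004041000000000000001000000000 := rS 0x20026348e16c8ad30e06c86271fcec6607 (k8 c5432 c5316 c24160 c5318 c5570 c2777 c1077 c10145 (k8 c15747 c23964 c1994 c5658 c24124 c20813 c24251 c22789 k0)) (by decide +kernel)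
def c24492 : PP 9 3 T 0x10000010000000000000000000000000000200000000000000000000000000000000000000000200000041000000000000000000000002 := rS 0x321ac974af7c3a418e84424d57aacc4e47a53f7c61718cec660721b4c9691462bfdfb378ac55a71db1be271039d674225 (k8 c24486 c24490 c24439 c19419 c17712 c955 c1060 c20261 (k8 c5571 c5573 c5421 c9696 c24447 c24448 c24491 c20793 (k8 c10035 c13156 c24056 c12616 c5432 c5316 c24160 c5434 (k8 c5433 c24218 c20808 c5211 c5520 c5570 c5574 c23244 (k8 c20766 c22789 c699 c20813 c24077 c24431 c24287 c10191 (k4 c19357 c5689 c24186 c2189 k0)))))) (by decide +kernel)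
def c24493 : PP 9 3 T 0x4004000000000000000000000000000000000000000000000000000000000000000000140000000100000050000000000041000000000000000000000000 := rS 0x35991df (k4 c24196 c24186 c5689 c2189 k0) (by decide +kernel)
def c24494 : PP 9 3 T 0x10000010000000000000000000000000000200000000000000000000000000000000000000000000000041000000000000000000000002 := rS 0x5a0e32528d54ba8102d3462be7631038cde27338a7d96b156ecfdfe3db564de25 (k8 c24486 c1060 c24439 c20261 c24218 c24448 c24447 c5573 (k8 c5421 c5420 c5572 c5571 c19419 c9696 c5316 c5432 (k8 c5434 c24160 c24491 c20793 c24056 c24492 c24021 c1233 (k4 c3000 c24493 c97 c10191 (k2 c24240 c1994 k0))))) (by decide +kernel)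
def c24495 : PP 9 3 T 0x4000000000000095000100000000000000000100000004000000000400011040000100005000000000000020000000004041000000400000000020000000 := rS 0x11a8f0804fc31c4396c8a43559cc4ead (k8 c5573 c5570 c19419 c2121 c2000 c335 c1994 c24475 (k4 c5658 c24274 c20813 c22489 (k2 c24461 c701 (k1 c24479 k0)))) (by decide +kernel)
def c24496 : PP 9 3 T 0x4000000000000095000100000000000000000100000004000100000400011041000100000000000000000000000000004041000000400000001000000000 := rS 0x211d460fc34af4907528cd67f78e67113ac55be3 (k8 c24218 c5573 c5421 c5570 c5571 c19419 c5224 c5453 (k8 c5495 c24196 c24495 c24346 c10145 c5649 c326 c20793 (k2 c2161 c17813 (k1 c702 k0)))) (by decide +kernel)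
def c24497 : PP 9 3 T 0x1000000000000000000000000000008000100000000000000000000000000000000000020000000000001000000000000000001000000 := rS 0x920305c6631 (k4 c5476 c17788 c1461 c24160 (k2 c5648 c1563 k0)) (by decide +kernel)
def c24498 : PP 9 3 T 0x8000000000001040000000011000010000000 := rS 0x6607 (k2 c1563 c322 (k1 c24159 k0)) (by decide +kernel)
def c24499 : PP 9 3 T 0x10000000000000000000000008000100000000000000000000000000000000000000000000000041000000000000001010000002 := rS 0x6aa847c1608b2526ae399c597a1f1edab26f228d4b6314aec43203 (k8 c28 c9701 c24321 c24497 c5476 c5474 c5324 c5326 (k8 c1060 c24439 c20261 c24218 c24490 c5420 c5571 c19419 (k8 c22233 c24498 c24412 c17971 c5648 c17813 c1068 c2996 (k1 c24301 k0)))) (by decide +kernel)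
def c24500 : PP 9 3 T 0x14000110000000000000000000000000000000000000001011000000000000000410000000000000000040000004040000004020010000 := rS 0x4748f4a (k4 c5211 c5520 c22489 c24431 k0) (by decide +kernel)
def c24501 : PP 9 3 T 0x10000010000000000000000000000000000000000000000000000100000000000000000000000000000041000000000000000000000002 := rS 0x20480071eab9248d1f840384befa54b6f31a90e7529f1fbde21901bd762b34fb2c4fb37b91e94fd89c0620ad589c76c73ac9bf4225 (k8 c24486 c24490 c1060 c24439 c19419 c20261 c5571 c5421 (k8 c5573 c17712 c24471 c955 c20808 c5211 c5520 c5333 (k8 c24447 c5570 c5420 c5572 c5574 c24321 c23244 c28 (k8 c9701 c9696 c24448 c24218 c24494 c24496 c5478 c5324 (k8 c5325 c5474 c24497 c24196 c24457 c24499 c24500 c24031 (k8 c701 c17971 c20793 c1569 c1563 c5655 c699 c24488 k0)))))) (by decide +kernel)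
def c24502 : PP 9 3 T 0x4000400000000000000000000000000000000100000000000000000000000000000000000200000080000000000000000002000000000000000000000002 := rS 0xf1a0540d758ed9a697 (k8 c20768 c2941 c20261 c5421 c2189 c1182 c20909 c5578 (k1 c24487 k0)) (by decide +kernel)
def c24503 : PP 9 3 T 0x80008000000000000000010000000014100000000000208000000000000000000000110000000000000 := rS 0x334663b7b8dde631 (k8 c5476 c5325 c5518 c5333 c5332 c323 c2441 c3587 k0) (by decide +kernel)
def c24504 : PP 9 3 T 0x4000000000000010000010000000000000000000000008000000000000000000000100000000000004000000100000000040000000000000000000000002 := rS 0x1df6434521f3573d6270156ac4e27337e844a981a8199e7a47b7d3bb11ca6c7e923009e945b7facf6d5943bf621b3 (k8 c24447 c17712 c20808 c24475 c24439 c20261 c5574 c23961 (k8 c5474 c5211 c5570 c24501 c662 c326 c24085 c325 (k8 c24321 c24083 c13097 c24482 c880 c20767 c661 c20806 (k8 c881 c24486 c24490 c1060 c19419 c5571 c5421 c5573 (k8 c24471 c955 c23244 c20793 c24476 c5675 c9793 c24503 (k2 c5494 c24502 k0)))))) (by decide +kernel)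
def c24505 : PP 9 3 T 0x14000110000000000000000000000008000000000400005010000000000000000010000000200000000000000000000000000020000000 := rS 0x2061148bdc9247a510c8a5b (k8 c5474 c5326 c5478 c5211 c5520 c5334 c5333 c10035 (k2 c701 c24432 (k1 c23976 k0))) (by decide +kernel)
def c24506 : PP 9 3 T 0x10000010000000000000000000000008000000000000000000000100000000000000000000000000000040000000000000000020000002 := rS 0x3dcae46bfd56f538acd62addb6cdef4a7ec4e2073ac9bf4225 (k8 c24486 c24490 c1060 c24439 c19419 c17712 c955 c20808 (k8 c5211 c5333 c24447 c20261 c5573 c5421 c5574 c5571 (k4 c23244 c2121 c23961 c24505 (k2 c20793 c24504 (k1 c5584 k0))))) (by decide +kernel)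
def c24507 : PP 9 3 T 0x110000000000000000000000000000000000400010000000000000000000188000000400000000000000000000000000000000000 := rS 0x3e6918a40fdbef (k4 c5584 c5500 c2199 c1286 (k2 c21172 c5590 (k1 c5675 k0))) (by decide +kernel)
def c24508 : PP 9 3 T 0x10000010000000000000000000000008000000000000000000000100000000000000000000000000000040000000000000000000000002 := rS 0x4b71845228c55fbd5c1d2d8ec923723c4e02ad589c4e7a112a3dbe9d59ec4729b880fd246013edab34a (k8 c5211 c24439 c20261 c5570 c24501 c662 c326 c17712 (k8 c24085 c325 c24321 c5574 c24083 c13097 c24482 c24486 (k8 c24490 c19419 c5571 c5421 c5573 c24471 c955 c5520 (k8 c5518 c5334 c5332 c5474 c24506 c22233 c5584 c24507 (k4 c24504 c10035 c701 c24185 (k2 c13156 c24125 k0)))))) (by decide +kernel)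
def c24509 : PP 9 3 T 0x10000010000000000000000000000000000000000000000000000100000000000000000000000000000040000000000000000000000002 := rS 0x47063ef0806d5c1346a43e6cd19c53bd3b478e47e3594b7cf49203274c003d89c5662758ab76db30f92694fd4dc4e2073ac9bf4225 (k8 c24486 c24490 c1060 c24439 c19419 c17712 c955 c24085 (k8 c20808 c5211 c5334 c9664 c24447 c20261 c5573 c5421 (k8 c5570 c5574 c5571 c24321 c28 c24501 c24083 c661 (k8 c662 c880 c13097 c5432 c20806 c326 c325 c24482 (k8 c24508 c5224 c22872 c5492 c5495 c5590 c5675 c10035 (k8 c3036 c20793 c24225 c12617 c5584 c1566 c22840 c22832 k0)))))) (by decide +kernel)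
def c24510 : PP 9 3 T 0x10000010000000000000000000000000000000000000000000000000000000000000000000000000000040000000000000000000000002 := rS 0x18138e03789762714fb2f6c9b89c40e759 (k8 c24439 c19419 c17712 c955 c24085 c20261 c5420 c5572 (k8 c5571 c24321 c24486 c1060 c24509 c13096 c24474 c24083 k0)) (by decide +kernel)
def c24511 : PP 9 3 T 0x1000000000000015000000000000000000000000000000000000000400054000000200000000000000000000000000000000000000000000000000000000 := rS 0x1def7207c3f3 (k4 c5591 c5460 c1717 c5694 (k2 c5195 c24099 k0)) (by decide +kernel)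
def c24512 : PP 9 3 T 0x48000800000000014000010000000000000000100000004000000000200044010000000000000000010000000400000000000000000140000000020000000 := rS 0x727a1f901c4900820342f72491e94fd899cdaa6f (k8 c1272 c5585 c19419 c955 c20808 c5211 c5520 c5334 (k8 c5333 c24054 c24099 c23976 c5675 c908 c700 c24031 (k2 c907 c2618 (k1 c24295 k0)))) (by decide +kernel)
def c24513 : PP 9 3 T 0x8000000000000010000010000000000000000000000000000000000000000000000000000000000000000000000000000000000000000000000000000002 := rS 0x2812c8130b440fe09477cde1347fcc94af7aec4e29f65d2a267321914362778bfd670155ab76d59d9cecb4f30e3f7db0366a18cd10 (k8 c17712 c24510 c882 c24091 c10690 c5499 c20808 c664 (k8 c334 c663 c5474 c24447 c24439 c20261 c5573 c24092 (k8 c13274 c5574 c23961 c9696 c5570 c24093 c23964 c10701 (k8 c19419 c955 c5211 c5420 c5572 c5571 c24321 c23244 (k8 c5584 c19710 c5546 c12624 c302 c1272 c24512 c5224 (k8 c5195 c5432 c5459 c661 c22789 c18458 c24021 c1233 k0)))))) (by decide +kernel)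
def c24514 : PP 9 3 T 0x1000400000000015000100000000000000000000080004000000000400000000000100000000000000000001400004000000000000000000000000000000 := rS 0x37bc128 (k4 c5224 c5195 c24212 c5538 k0) (by decide +kernel)
def c24515 : PP 9 3 T 0x1002800000000014000000000000000000000000000004000000000000001050000000001000000000000000000000000000000000000444000020400000 := rS 0x2503968a75e635 (k4 c5450 c334 c5458 c5459 (k2 c5534 c24420 (k1 c17847 k0))) (by decide +kernel)
def c24516 : PP 9 3 T 0x1000000000000000100000000000000000100080000000200001200000000000100000400000400004001000004014000000000000000000000040000 := rS 0x9940b780f1339a3c8e61 (k8 c880 c5520 c24461 c19419 c955 c5432 c24212 c22789 (k2 c2442 c24291 k0)) (by decide +kernel)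
def c24517 : PP 9 3 T 0x10000010000000000000000000000000000000000000000000000000000000000000000000000000000000000000000000000000000002 := rS 0x1ca752529f08d7bc173de851e6f8aa30201325a47e51cf7b859b03f6bcc673b80bfc8a4343070b4ab0d99a269b7e91c6ef71dc4294f17aec4e67159a7d962756edab3b3 (k8 c24447 c24439 c20261 c5573 c5570 c5420 c5572 c5574 (k8 c5571 c19419 c24321 c23244 c9696 c5211 c17712 c5332 (k8 c5333 c5518 c5520 c20808 c24085 c955 c24510 c24093 (k8 c24092 c663 c664 c882 c10701 c23964 c23961 c13274 (k8 c5474 c24089 c334 c5499 c10690 c24091 c24511 c24513 (k8 c5658 c5694 c21172 c9182 c20813 c2160 c2159 c5590 (k8 c1061 c24461 c5381 c24297 c24200 c24514 c5450 c24515 (k4 c24516 c17971 c1694 c325 (k1 c24420 k0))))))))) (by decide +kernel)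
def c24518 : PP 9 3 T 0x10000000000000000000080004000000000400000000000000100000000000000000400000004000000000000000000000000002 := rS 0xe3f0a813461f1a05be8df9a40f66b0991c3e231480ce67159a7d96b5db566229d8a88533b4 (k8 c24517 c5530 c5528 c5414 c5412 c5411 c24439 c20261 (k8 c5422 c5420 c5572 c5574 c5571 c19419 c28 c9694 (k8 c9731 c5517 c5520 c22814 c1058 c22837 c24037 c22829 (k8 c10035 c24033 c907 c24230 c24487 c24047 c24021 c5536 (k2 c2621 c10309 k0))))) (by decide +kernel)
def c24519 : PP 9 3 T 0x800000000000000010000000000000000100040004000000000000000000000000000000000000000002000000000000000000000000000000000000 := rS 0x3d8d0f7e83e6d5 (k4 c5454 c5589 c5221 c24054 (k2 c24263 c5171 (k1 c5501 k0))) (by decide +kernel)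
def c24520 : PP 9 3 T 0x82005800000000000000010000000000000000000040004000000000000040040000000000000000000000000000000000000000000000400000000000002 := rS 0x238114990e52aed0fbde6d178bd7627338b2d63b6acc5553b4 (k8 c24517 c5531 c5414 c24439 c20261 c5421 c5420 c5571 (k8 c19419 c24321 c23244 c9696 c5501 c5540 c17711 c20903 (k4 c17841 c17847 c2777 c17730 (k2 c17971 c24296 (k1 c22489 k0))))) (by decide +kernel)
def c24521 : PP 9 3 T 0x80001800000000000000010000000000000000000040004000000000000000000000000000000000000000000000000004000000000000000000080002002 := rS 0x1281807434947919fdbe330bc763b310ed1ee3b8192d6bb67a9252359 (k8 c24439 c24519 c294 c23244 c20261 c5422 c2590 c7820 (k8 c24024 c20809 c24517 c5528 c24447 c24321 c9696 c9230 (k8 c24218 c24520 c23684 c5657 c24196 c2533 c333 c1904 (k2 c24391 c5434 k0)))) (by decide +kernel)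
def c24522 : PP 9 3 T 0x4800000000000000100000000000000000100000000000000000000000000000000000000000000000000000200000041000000000000004008000000 := rS 0x46523f038c12494 (k8 c24196 c1905 c1904 c1563 c326 c5434 c699 c17813 k0) (by decide +kernel)
def c24523 : PP 9 3 T 0x800000000000000010000000000000000000000004000000000400000000000000000000000000000000400000004000000000000000000000000002 := rS 0x572348a10200fe529203180351d1ebc8ce80f1e87dadf3db87c0e3f9125ee4706078166a48d2c06f17a9cce2b313ac56aaddb5662a214ced06ad5 (k8 c5454 c5450 c24517 c5530 c5528 c5414 c24439 c20261 (k8 c5573 c5422 c5421 c5570 c5574 c5571 c19419 c23244 (k8 c9696 c28 c24518 c24519 c18007 c2306 c1058 c1059 (k8 c24040 c20809 c294 c23675 c5549 c24521 c5591 c5457 (k8 c5538 c24304 c24308 c6706 c24027 c23684 c5657 c12620 (k8 c17702 c2533 c24522 c661 c662 c5432 c326 c5655 (k4 c17813 c458 c702 c20922 (k1 c1078 k0)))))))) (by decide +kernel)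
def c24524 : PP 9 3 T 0x1000000000000020000010000000000000000100040004000000000400000010000000000000000000000000800000004000000000000000000000020004 := rS 0x1e51c7b8308da1 (k4 c5568 c2751 c2752 c20809 (k2 c22865 c5657 (k1 c22753 k0))) (by decide +kernel)
def c24525 : PP 9 3 T 0x2000000000081000000000000000000000100000000000100001000000000000000000000000000001100800000004000000000010000000001000000 := rS 0x1243e0b8f541e36fa6ce67159a7d96275ae85c2e3 (k8 c24071 c24072 c5568 c5422 c5570 c5420 c5572 c5574 (k8 c5571 c19419 c5536 c5538 c6706 c3620 c2767 c24198 (k2 c5655 c5648 (k1 c326 k0)))) (by decide +kernel)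
def c24526 : PP 9 3 T 0x1004000000000000000110000000000000000000040004000100100000000000000000000000000000000000000000004000000000051000000000000002 := rS 0x7b030cc1657a3527ee1f3c432037aec4e67113ac55bb6aca7443b4 (k8 c24517 c5528 c5412 c24439 c20261 c5573 c5421 c5570 (k8 c5571 c19419 c24321 c23244 c28 c9701 c9696 c5655 (k8 c22848 c326 c5505 c5584 c5648 c20793 c24176 c23684 (k1 c20809 k0)))) (by decide +kernel)
def c24527 : PP 9 3 T 0x1000800000000000000010000000000000000000040004000000000400000000000000000000000000000000000000004000000000000000000000000002 := rS 0xd64706910c1ef6bf887be19490c4a1220c7422f11486406f5d89cce2b313ad76d594ec5533b4d0a44968e (k8 c24523 c12624 c165 c5568 c24517 c5530 c5414 c5412 (k8 c24439 c20261 c5422 c5570 c5574 c5571 c19419 c24321 (k8 c23244 c28 c9701 c9694 c9696 c24524 c22489 c24094 (k8 c12617 c12972 c20787 c24287 c24525 c24095 c24526 c5465 (k4 c24108 c24218 c5658 c9230 (k2 c2973 c1059 (k1 c24173 k0))))))) (by decide +kernel)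
def c24528 : PP 9 3 T 0x800000000000000010000000000000000000040004000000000400000000000000000000000000000000000000004000000000000000000000000002 := rS 0x458e918220a06878867a577bfc2ff68a1fd9f278ac76d598aaa768cf66e86068e (k8 c24523 c20799 c5568 c5495 c5453 c24517 c5531 c5414 (k8 c24439 c20261 c5421 c9696 c5221 c24527 c5499 c5501 (k8 c5544 c24304 c17711 c17841 c24057 c2777 c22872 c24521 (k4 c24034 c2752 c2311 c22489 (k2 c2972 c5658 k0))))) (by decide +kernel)
def c24529 : PP 9 3 T 0x800000000000000010000000000000000000000004000000000400000000000000000000000000000000000000004000000000000000000000000002 := rS 0x991e948e118a407b6acc5443b4 (k8 c24517 c5528 c5414 c24439 c20261 c28 c9694 c9731 (k4 c24523 c24528 c5520 c22814 (k1 c24461 k0))) (by decide +kernel)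
def c24530 : PP 9 3 T 0x10000000000000000000080000000000000400000000000000000000000000000000800000004000000000000000000000000002 := rS 0x2647118a407b6acc5443b4 (k8 c24517 c5528 c5414 c24439 c20261 c28 c9694 c9731 (k2 c5520 c22814 (k1 c24461 k0))) (by decide +kernel)
def c24531 : PP 9 3 T 0x800000000001000000000000000000000000000008000000000000000000000000000000000000000000000000000041000000000000000001000000 := rS 0x4a4a4b635 (k4 c5450 c5474 c24124 c24196 (k1 c24497 k0)) (by decide +kernel)
def c24532 : PP 9 3 T 0x800000000000000000000000000000000000040008000000000000000000000000000000000000000000000000000000000000000140000000002000 := rS 0x1dbdd9e3366ca4b635 (k8 c5450 c5474 c24124 c5495 c5492 c5453 c20809 c24024 (k1 c13955 k0)) (by decide +kernel)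
def c24533 : PP 9 3 T 0x800000000000000010000000000000000000000000000000000400000000000000000000000000000000800000004000000000000000000000000002 := rS 0x1e28e8441b4bd0b5467291a8f53e3f13edab239108dd24603396e75b10c80d33b4 (k8 c24517 c5530 c28 c9701 c24321 c24529 c5474 c663 (k8 c24531 c662 c1567 c5528 c324 c24439 c20261 c5570 (k8 c326 c5572 c1569 c5450 c24124 c5492 c5454 c5568 (k4 c24530 c24532 c2752 c22489 (k2 c17813 c17803 k0))))) (by decide +kernel)
def c24534 : PP 9 3 T 0x800000000000000010000000000000000000040008000000000000000000000000000000000000000000400000004000000000000000000000000002 := rS 0x1ac920df91cce2b51c8846e99da6847e923019cb7b10c80c4fb6030ceb231 (k8 c5476 c24439 c5492 c24160 c20261 c5570 c28 c9701 (k8 c24321 c5474 c663 c24531 c662 c326 c20914 c24517 (k8 c5530 c1567 c5528 c324 c5422 c5571 c19419 c5221 (k4 c24532 c5588 c1059 c24172 k0)))) (by decide +kernel)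
def c24535 : PP 9 3 T 0x800000000000000010000000000000000000000000000000000400000000000000000000000000000000000000004000000000000000000000000002 := rS 0x489ada0f70f8ee948f1b8e52460338c4b6f39d06406f5d89cce2b35aedab3118a88533b41ab3c66cd (k8 c5495 c5492 c5453 c5450 c24517 c5530 c5528 c5414 (k8 c5411 c24439 c20261 c5422 c5574 c5571 c19419 c24321 (k8 c23244 c28 c9701 c24529 c5325 c5474 c5476 c663 (k8 c24531 c662 c324 c1567 c24533 c24534 c5332 c5517 (k4 c5333 c3587 c1058 c9793 (k1 c24037 k0)))))) (by decide +kernel)
def c24536 : PP 9 3 T 0x800000000000000110000000000000000000000008000000100000000000000000000000000000000000000000000000000000001000002000010002 := rS 0xc267f196c3203d8d65aa33 (k8 c5492 c5454 c24439 c24321 c28 c9701 c5474 c17803 (k2 c663 c24444 (k1 c24531 k0))) (by decide +kernel)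
def c24537 : PP 9 3 T 0x4000000000000000110000000000000000000080004000100100000010000000000000000000000000020000000000000000004051000000000000002 := rS 0x1b7924fdc3e78bd44fb6acecc43b4 (k8 c24517 c5528 c24447 c24439 c20261 c5570 c23244 c9696 (k4 c5655 c22848 c326 c19710 (k2 c1905 c23227 k0))) (by decide +kernel)
def c24538 : PP 9 3 T 0x80000000000a0000110000000000000000000000000000100000000000000000500000000000000000000000000000400000005400440000041010000 := rS 0x124384d37c7f11 (k4 c5411 c5576 c5580 c17720 (k2 c24125 c6036 (k1 c24145 k0))) (by decide +kernel)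
def c24539 : PP 9 3 T 0x800000000000000110000000000000000000080000000000100000010000000500000000000000000000000000000000000004051000002000010002 := rS 0x3099c34f24afbbc66b238dc3e3b0c80debb6d9887684994cede359 (k8 c24439 c9696 c24536 c24287 c10629 c24517 c5528 c24447 (k8 c20261 c23244 c28 c9701 c5332 c5517 c5518 c5520 (k8 c1058 c24538 c22848 c24537 c19710 c23227 c24093 c24444 (k1 c24196 k0)))) (by decide +kernel)
def c24540 : PP 9 3 T 0x4000000000000000110000000000000000000040004000100100000010000000000000000000000000000000000000000000004051000002000010002 := rS 0xe99de4477b833da4549858c3ee1f3c5ebb113edab3b34e8876849 (k8 c10629 c24517 c5528 c5412 c24447 c24439 c20261 c5570 (k8 c24321 c23244 c9696 c5655 c22848 c24444 c2910 c326 (k8 c5582 c17711 c24176 c20809 c2368 c17988 c23684 c333 (k1 c24346 k0)))) (by decide +kernel)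
def c24541 : PP 9 3 T 0x800000000000000010000000000000000000000000000000000400000000000000000000000000000000000000000000000000000000000000000002 := rS 0x5834ce1d0d3dc89e1f7b5fc54b94cedc6e180924963d20c7486910889025a13700de2f5d889f6d59d9c5533b4 (k8 c24517 c5530 c5414 c24447 c24439 c20261 c5570 c24321 (k8 c23244 c9696 c28 c24535 c5565 c1061 c1060 c2746 (k8 c3038 c20787 c20813 c24077 c24068 c302 c10629 c19568 (k8 c24262 c24185 c24536 c24287 c24539 c24540 c5465 c24108 (k8 c6706 c5658 c503 c2969 c335 c24093 c24391 c24354 (k1 c24034 k0)))))) (by decide +kernel)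
def c24542 : PP 9 3 T 0x8000000000000000000000000000000000100000004000000000000000000000000000000000000000000000000008001000000000001000000400002 := rS 0x4ab243a1a57113dea16b80c4fb61210e3a12 (k8 c1061 c20813 c20787 c1060 c20261 c5570 c28 c5465 (k8 c5578 c24108 c5658 c18671 c2969 c335 c1182 c1904 (k1 c24302 k0))) (by decide +kernel)
def c24543 : PP 9 3 T 0x110000000000000000000040004000000000000000050000500200000000000000000000000000000000005404140000000010400 := rS 0x3cfdacc7f378760c (k8 c24034 c24024 c24125 c3002 c3003 c5544 c2500 c5657 k0) (by decide +kernel)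
def c24544 : PP 9 3 T 0x4004000000000000000110000000000000000000000004000000100000000000000500000000000000000000000000000001000004055145002000410002 := rS 0x785fa6b6f07e94d405a552e670d3dc8ed32200deab1db5676849 (k8 c10629 c24517 c24439 c20261 c5421 c23244 c28 c5658 (k8 c15747 c2973 c503 c2969 c24093 c1073 c1904 c24354 (k8 c24493 c24543 c5517 c17954 c1058 c1075 c5538 c24322 k0))) (by decide +kernel)
def c24545 : PP 9 3 T 0x8000000000000004000000000000000000000000080000000000000000012011000000000000000000000000000000000000000004040000000100000000 := rS 0x6de41f (k4 c5517 c19710 c1075 c23227 k0) (by decide +kernel)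
def c24546 : PP 9 3 T 0x1000400000000000000010000000000000000000040004000000000000000000000000000000000000000010000000000000000000000000000004000002 := rS 0x1360a66835ec9679bc5ea9d10a67683303ca363b3 (k8 c24447 c24321 c5224 c5432 c5316 c24517 c5530 c5528 (k8 c5412 c23244 c9696 c23227 c9823 c5657 c20809 c17683 (k2 c24034 c1232 (k1 c24123 k0)))) (by decide +kernel)
def c24547 : PP 9 3 T 0x1000400000000000000110000000000000000000040004000000000000006000000500000000000000000010000000000000000005040000000000010002 := rS 0xdf1db39a247643c83a1a01aaf68391f85c6e6103ca363b3 (k8 c24447 c24321 c5224 c5432 c661 c5435 c5433 c5318 (k8 c5317 c24517 c5413 c28 c24546 c57 c1076 c24302 (k4 c2537 c2133 c1181 c449 (k2 c2564 c24125 k0)))) (by decide +kernel)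
def c24548 : PP 9 3 T 0x400000000000000010000000000000000000000004000000000000050000000500000000000000000000000000008000000004000000000000000002 := rS 0xe34d2e94a5bf3daff57fbbc6611b8c42e071f8e4672878bd762b313ab76d59d9aae2a2154ed342110190e3a411e8489224 (k8 c1060 c10629 c1061 c24068 c24077 c20813 c20787 c28 (k8 c2746 c5565 c24517 c5531 c5528 c5414 c5413 c24447 (k8 c24439 c20261 c5573 c5570 c5574 c24321 c23244 c9696 (k8 c5224 c5316 c5317 c5318 c5432 c5433 c5434 c5435 (k8 c661 c24542 c24544 c5584 c5586 c17711 c18003 c24545 (k4 c24547 c133 c2018 c10191 (k1 c22979 k0))))))) (by decide +kernel)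
def c24549 : PP 9 3 T 0x8000400000000000000110000000000000000000000008000000000000050000000000000000000000000000000000000000000000011000002000010002 := rS 0xc84a85940611f3f3c6ff57b5c3203d8acf6d59d9aae2aa9da4a4b635 (k8 c5324 c5474 c24124 c24517 c5531 c5414 c5413 c24447 (k8 c24439 c20261 c5574 c24321 c28 c9701 c5507 c5584 (k8 c5586 c24108 c18003 c5655 c24444 c2909 c2910 c24497 (k2 c10048 c3983 k0)))) (by decide +kernel)
def c24550 : PP 9 3 T 0x100000054014000000000000000000000000000000000000000005140000000000012000 := rS 0x8ef7 (k2 c20809 c2368 (k1 c3593 k0)) (by decide +kernel)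
def c24551 : PP 9 3 T 0x10000000000000000000000000000000100000054004000000000000000000000000000000000000000005140000000000810002 := rS 0x11def4a06bd53bb4 (k8 c24517 c5412 c23244 c24550 c24176 c5333 c5520 c3593 k0) (by decide +kernel)
def c24552 : PP 9 3 T 0x5000400000000000000010000000000000000000000000000100100000050004000000000000000000000000000000000001000004159000002000010002 := rS 0x6c0ca59a83de11c9ed36de66bf9a2d24b24c76d50b283c7b113edab3114ea676849 (k8 c10629 c24517 c5530 c5412 c5411 c24439 c20261 c5570 (k8 c24321 c5576 c2909 c2910 c4928 c494 c326 c10625 (k8 c1234 c24144 c24551 c2507 c2942 c1232 c20893 c6897 (k4 c5538 c24190 c24047 c5517 (k2 c1059 c5654 (k1 c24086 k0)))))) (by decide +kernel)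
def c24553 : PP 9 3 T 0x4000000000000000000110000000000000000000000000000000100000052004000040000000000000000810000100000041000005140000000000810002 := rS 0x3352cfe64ac76d59 (k8 c24439 c20261 c5421 c3983 c24551 c24102 c2506 c1232 k0) (by decide +kernel)
def c24554 : PP 9 3 T 0x400000000000000110000000000000000000000008000000100000052000000500000000000000000010000000000001000004051000002000010002 := rS 0x774b668c8729703a482e37f0a69be81f10fc3203d8edab31510a67684922bcccf292d8d7dfed (k8 c5542 c24549 c5324 c5474 c24124 c663 c5325 c5326 (k8 c10629 c24517 c5530 c5528 c5414 c24439 c20261 c24321 (k8 c28 c9701 c24552 c17813 c5463 c5580 c17720 c6706 (k8 c2328 c24553 c5648 c1563 c1637 c324 c24160 c2505 (k2 c17954 c493 (k1 c5654 k0)))))) (by decide +kernel)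
def c24555 : PP 9 3 T 0x400000000000000110000000000000000000000008000000100000052000000500000000000000000010000000000000000004051000002000010002 := rS 0x774b68f85be391b8fd90cdf12482e97306c76d59d9aae2a214caa7681b9496c6bed (k8 c5542 c5324 c5474 c24124 c5475 c24517 c5531 c5530 (k8 c5528 c5414 c5413 c24447 c24439 c20261 c24321 c24554 (k8 c20768 c24066 c662 c24444 c2505 c5678 c2910 c17830 (k4 c324 c5580 c6706 c2133 (k2 c17954 c6899 (k1 c5654 k0)))))) (by decide +kernel)
def c24556 : PP 9 3 T 0x4000400000000085000100000000000000000000000008000000100000000000000000000000000000000020000000040000000000011000002000000000 := rS 0xf1354669758ca4b635 (k8 c5324 c5474 c24124 c5421 c133 c17788 c24305 c10625 (k1 c17803 k0)) (by decide +kernel)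
def c24557 : PP 9 3 T 0x84000000000a5000000000000000000000000000000000000000000051000000100000000000000000010000000000000000000000000000000000000 := rS 0x19bed7f2bda2c867a5fc29a6fa8566b155c5532a9 (k8 c5531 c5530 c5414 c5413 c5421 c5574 c5578 c5580 (k8 c17720 c6706 c1231 c2562 c5678 c2133 c1182 c18003 (k2 c17841 c2506 (k1 c5688 k0)))) (by decide +kernel)
def c24558 : PP 9 3 T 0x10000000000000000000000000000000000400000000000000000000000000000000000000008000000000000000000000000002 := rS 0x3fbd816308fbc6fd4afbe525b798d48b3a71c0dc3012492c7a418e90d22111204b4203d89cf6d59d9c5769df (k8 c24541 c24517 c5414 c24447 c24439 c20261 c19419 c24321 (k8 c28 c5565 c1061 c1060 c2746 c3038 c20787 c20813 (k8 c24077 c24068 c302 c10629 c19568 c24262 c24432 c24185 (k8 c24548 c5326 c5324 c5325 c5474 c24124 c24549 c24556 (k8 c24555 c24557 c5655 c24444 c2910 c24552 c24551 c5544 k0))))) (by decide +kernel)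
def c24559 : PP 9 3 T 0x2000000000000020000010000000000000000000000008000000000000001010000000001000000000000008000000000040000000000004000000000004 := rS 0x51a874d143aa46a311c8846e99 (k8 c5530 c1567 c5528 c324 c5476 c5324 c5531 c5499 (k4 c5501 c18037 c20831 c24191 (k1 c2306 k0))) (by decide +kernel)
def c24560 : PP 9 3 T 0x1000400000000005000000000000000000000000000008000000000000000010000000010100000001000140000000000000000000000144000000000000 := rS 0x3d90c3bf00d5e65b18b359e94 (k8 c5678 c1587 c13053 c5476 c5474 c5325 c5324 c18871 (k4 c6899 c24274 c3587 c24115 k0)) (by decide +kernel)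
def c24561 : PP 9 3 T 0x80000000000000000000010000000000000000000080000000000000000000000000000000000000000000000000000004000000000000000000000040002 := rS 0x1ac8e1facc462bb4 (k8 c24517 c5414 c5411 c24439 c5517 c5520 c1058 c22829 k0) (by decide +kernel)
def c24562 : PP 9 3 T 0x4000000000000000110000000000000000000000008000000000400001000000000000000000000000000000000000000000000000000002000000002 := rS 0x479ac1b4bf9785a1ed303340cd6648cdaa407aad766a9ef924263f1ea7c72211ba6769ef69ab8ce0346ac55a9749040de73659c76d599496f6235 (k8 c5324 c24321 c5474 c24124 c24439 c20261 c5571 c5420 (k8 c19419 c24558 c12972 c17971 c1637 c5573 c5421 c701 (k8 c28 c663 c20922 c2941 c5584 c24517 c5530 c1567 (k8 c5528 c324 c5572 c1569 c24031 c2804 c10629 c24541 (k8 c5531 c24447 c5422 c23244 c5655 c1656 c545 c1183 (k8 c5689 c24160 c13053 c1563 c24559 c24560 c5459 c9339 (k4 c24561 c9230 c1059 c2752 (k1 c24172 k0)))))))) (by decide +kernel)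
def c24563 : PP 9 3 T 0x4000000000000000110000000000000000000000008000000000400000000000000000000000000000000000000000000000000000000002000000002 := rS 0x479ac1b4bf9784c0d00335993ed19b55f8407aad766a9ef924263f1ea7c72211ba6769ef69ab8ce0346ac55a9749040de73659c76d599496f6235 (k8 c5324 c24321 c5474 c24124 c24439 c20261 c5571 c5420 (k8 c19419 c24558 c12972 c17971 c1637 c5573 c5421 c701 (k8 c28 c663 c20922 c2941 c5584 c24517 c5530 c1567 (k8 c5528 c324 c5572 c1569 c24031 c2804 c10629 c24541 (k8 c5531 c24447 c5422 c23244 c5655 c24562 c1656 c545 (k8 c5542 c1183 c5689 c24160 c24560 c1563 c5459 c9339 (k4 c24561 c9230 c1059 c2752 (k1 c24172 k0)))))))) (by decide +kernel)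
def c24564 : PP 9 3 T 0x110000000000000000000000008000000000400000000000000000000000000000000000000000000000000000000002000000002 := rS 0x25592d450f8bde9757235241001ec4e67165ac55bb6acecfbe6f33ca4b635 (k8 c5324 c5474 c24124 c663 c24558 c24541 c24447 c24439 (k8 c20261 c5573 c5421 c5420 c5571 c19419 c24321 c28 (k8 c12972 c17971 c701 c20922 c1637 c5584 c24563 c5578 (k4 c24230 c1182 c24305 c5678 k0)))) (by decide +kernel)
def c24565 : PP 9 3 T 0x4004000000000000000000000000000000000100000000000100000000000000000000000000000180000018000000000041000000001010004000000000 := rS 0xd4699012e3f (k4 c326 c1637 c5655 c2941 (k2 c24493 c1656 k0)) (by decide +kernel)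
def c24566 : PP 9 3 T 0x210000000000000000000000008000000000400000000000000000000000000000000000000000000000000000000000000000002 := rS 0x4742241690f82cc9498f5409530f8d5def46a043203d89cce29f13ac55bb6acecfbe6f33ca4b635 (k8 c5324 c5474 c24124 c663 c24558 c24541 c24447 c24439 (k8 c20261 c5573 c5421 c5570 c5572 c5571 c19419 c24321 (k8 c28 c9701 c5380 c5381 c19760 c20793 c24298 c24487 (k8 c24497 c24242 c2767 c24565 c24412 c5648 c8159 c5869 (k4 c17677 c24031 c2082 c20878 k0))))) (by decide +kernel)
def c24567 : PP 9 3 T 0x10000000000000000000000008000000000400010000000000000000000000000004000000000000000004000000000000000002 := rS 0x1a5ef4635dfc80508f63a964af8c2c116498433b1399c597b3ef9bc86457999e525b1ac0c93f2a5895662901ed8471510ed34359 (k8 c24439 c24566 c24517 c5528 c5414 c9731 c20261 c28 (k8 c9694 c5574 c24564 c17941 c5221 c5588 c5550 c5324 (k8 c5474 c24124 c663 c5325 c5326 c5478 c24558 c24541 (k8 c24447 c5420 c5571 c19419 c24321 c9701 c662 c24412 (k8 c17971 c5648 c24218 c24497 c5678 c22489 c24095 c1068 (k4 c24131 c24551 c1767 c24303 (k2 c5586 c20909 (k1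 c24056 k0)))))))) (by decide +kernel)
def c24568 : PP 9 3 T 0x110000000000000000000040000000000000000000000000000000000000000000000000000004000000000000000000000021002 := rS 0x11e6b399c56bb6da127e559 (k8 c24439 c5221 c5588 c24517 c20261 c5422 c5571 c19419 (k2 c1059 c2752 (k1 c24172 k0))) (by decide +kernel)
def c24569 : PP 9 3 T 0x4000000000000000010000000000000000000040008000000000400000000000000000000000000000008000000000000000000000000000000000002 := rS 0x1dbdc18cf668cdacc969fbdaaae469002003d89cce2b156ecd53df3799e525b71fcb423d4f8fc4fb6aca5c6a39108dd33b4 (k8 c24517 c5530 c1567 c5528 c324 c5324 c1637 c24439 (k8 c20261 c5570 c326 c5572 c1569 c24566 c5221 c5549 (k8 c5474 c24124 c663 c24558 c24541 c5531 c24447 c5573 (k8 c5421 c5571 c19419 c24321 c28 c17813 c5655 c701 (k8 c20922 c1656 c5584 c2941 c1183 c24257 c545 c13053 (k4 c1769 c24568 c20809 c24024 (k1 c13955 k0))))))) (by decide +kernel)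
def c24570 : PP 9 3 T 0x10000000000000000000040008000000000400000000000000000000000000000008000000000000000000000000000000000002 := rS 0x35466d064b37db1d7e0450e6b6783475e1307892e3d11ec53fb6d988532a9da77cde679496c6a2570fcb4359 (k8 c24439 c24566 c5221 c5591 c24564 c5324 c5474 c24124 (k8 c663 c24558 c24541 c24517 c5531 c5530 c5528 c24447 (k8 c20261 c5572 c24321 c9731 c1569 c1637 c24569 c24218 (k8 c7833 c17730 c9230 c1646 c1059 c24100 c24568 c20831 (k8 c22489 c5542 c2505 c1181 c18871 c493 c1710 c17803 k0))))) (by decide +kernel)
def c24571 : PP 9 3 T 0x10000000000000000000000008000000000400000000000000000000000000000000000000000000000004000000000000000002 := rS 0x40527f2a588c520359edab31510ed04ba1 (k8 c24566 c24564 c24517 c5528 c5414 c24439 c20261 c5574 (k8 c28 c9694 c9731 c17941 c5221 c24570 c5592 c24567 k0)) (by decide +kernel)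
def c24572 : PP 9 3 T 0x8400000000005000100000000000000000000000000000000000000000000000000000000000180000040100000040000000000000000000000000000 := rS 0x9564b5143ef (k4 c5584 c5578 c24230 c1182 (k2 c24305 c5678 k0)) (by decide +kernel)
def c24573 : PP 9 3 T 0x10000000000000000000000008000000000400000000000000000000000000000000000000000000000000000000000000000002 := rS 0xcf6b0cdaa40f1b4e03ef4b8f46ef71dab9243f68b7d1a6ba504120ff0ffcc95a19499cb6f31a80f627338a7d96b15aab76d59d9c4769df (k8 c24541 c24517 c5411 c24447 c24439 c20261 c5573 c5422 (k8 c5421 c5420 c5572 c5571 c19419 c24321 c28 c5324 (k8 c5325 c5474 c663 c24124 c24566 c24571 c5546 c2590 (k8 c2568 c13156 c12663 c5221 c1058 c10035 c24033 c9793 (k8 c24031 c17971 c20922 c5332 c5333 c5518 c1569 c1637 (k8 c5584 c20839 c2941 c24572 c5655 c1656 c545 c24257 (k2 c8707 c12847 k0))))))) (by decide +kernel)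
def c24574 : PP 9 3 T 0x110000000000000054040000000000000000008020000 := rS 0x46abe3a45 (k4 c20747 c2161 c1078 c702 (k1 c20793 k0)) (by decide +kernel)
def c24575 : PP 9 3 T 0x4000000000000000000000100000004000200000000000001000000000000000110020000000000014041000000000000000000020000 := rS 0xf7b495c962db2438430d9cc663f (k8 c5318 c5316 c19419 c24574 c10701 c5649 c2061 c1994 (k4 c24240 c1233 c1234 c5584 (k1 c15747 k0))) (by decide +kernel)
def c24576 : PP 9 3 T 0x10000000000000000000080000000000000400000000000000100000000000000000000000000000000000000000000000000002 := rS 0x23cdf3b (k4 c24573 c24558 c24530 c24518 k0) (by decide +kernel)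
def c24577 : PP 9 3 T 0x110000000000000000000000000000000000400000000000000000000000000000000000000000000000000000000000000020002 := rS 0xd34b7bda3ec1dbdc194b6abcc861c6486ccca040bc5ea7338a7d96b156edab2214caa7686f198e47e311b9840f289df7f63b3 (k8 c24447 c24321 c24541 c24573 c5224 c5432 c661 c5435 (k8 c5434 c5318 c5317 c5316 c24558 c24517 c5531 c5530 (k8 c5528 c24439 c20261 c5573 c5421 c5420 c5572 c5571 (k8 c19419 c23244 c9696 c699 c24021 c24575 c24093 c24088 (k8 c664 c10701 c23227 c3001 c24576 c24568 c20809 c24024 (k4 c23684 c5501 c17711 c23266 (k2 c15747 c1234 k0))))))) (by decide +kernel)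
def c24578 : PP 9 3 T 0x8000000000000000000000000000000000000000000000000000000000000000000000000000000110000000000000054040000000000000000000000000 := rS 0x15e8d (k2 c5505 c5584 (k1 c20793 k0)) (by decide +kernel)
def c24579 : PP 9 3 T 0x8000000000000000000110000000000000000000000000000000000400000000000000000000000000000000000000000000000000000000000000000002 := rS 0x34d2e940e06fdaaf22a35e27113ac55b289df7f63b38e9044a43a5848231510ed36d59378a40623 (k8 c9731 c28 c9694 c24558 c24439 c20261 c24517 c5528 (k8 c5414 c24577 c12617 c22814 c20787 c12972 c24094 c22489 (k8 c24447 c24321 c24541 c24573 c5224 c5573 c5421 c5570 (k8 c5571 c9696 c5505 c5582 c5584 c17711 c24225 c3582 (k4 c24546 c133 c2018 c22979 k0))))) (by decide +kernel)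
def c24580 : PP 9 3 T 0x110000000000000000000000000000000000400000000000000000000000000000000000000000000000000000000000000000002 := rS 0xd405a552e6735075ee4769913de9124b8fe54b21894244b8e845e2231480deab313ac56b1510ed066391f85c6237f1b84c207944efbfb1d99bd969f38ed8e759 (k8 c24439 c19419 c20261 c5571 c5572 c5420 c24558 c24447 (k8 c24321 c24541 c24573 c5224 c5432 c661 c24474 c24218 (k8 c5435 c5434 c5433 c5318 c5317 c5316 c24517 c5528 (k8 c5414 c5422 c5421 c5570 c5574 c23244 c28 c9694 (k8 c9731 c9696 c24577 c22489 c12663 c12617 c12972 c20787 (k8 c22814 c5221 c5549 c5588 c5589 c24579 c5658 c15747 (k8 c2973 c503 c335 c24173 c664 c19357 c10191 c2306 (k2 c24493 c24543 k0)))))))) (by decide +kernel)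
def c24581 : PP 9 3 T 0x4000000000000000000010000000000000000000000000000000100400000000000000000000000000000000000000000000000000000000000000000002 := rS 0x6a406a9102203789bc7e07188f651dfd8ecd0213219c52fa09dab76d59 (k8 c24439 c20261 c5573 c24573 c24580 c24249 c5571 c23604 (k8 c5564 c5380 c24447 c24321 c24541 c5224 c5436 c5434 (k8 c5432 c5318 c24558 c9696 c28 c22840 c5658 c24211 (k2 c24035 c23586 (k1 c458 k0))))) (by decide +kernel)
def c24582 : PP 9 3 T 0x4000000000000000000000000000004000200200000000001000000000000000100000040100000000001000000000000000000000000 := rS 0xc80e16c3633 (k4 c5316 c2161 c2159 c5649 (k2 c24240 c2061 k0)) (by decide +kernel)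
def c24583 : PP 9 3 T 0x10000000000000000000000000000000000400000000000000000000000000000000000000000000000000000000000000000002 := rS 0x250374b697b4ccd5f74752e8d40e80c207944efbef1d89c562addb56767b4 (k8 c24517 c24447 c24439 c20261 c5573 c5421 c5571 c24321 (k8 c9696 c24541 c24573 c5224 c5432 c661 c24580 c5380 (k8 c5381 c24249 c24582 c24581 c5585 c19392 c17711 c24306 (k4 c24576 c24093 c24546 c2018 k0)))) (by decide +kernel)
def c24584 : PP 9 3 T 0x400000000005000000000000000000000100000004000000100000000001000000000000000010000040000000000000000000050000004004000000 := rS 0xd24a0706728 (k4 c5224 c5316 c5649 c9823 (k2 c22979 c2018 k0)) (by decide +kernel)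
def c24585 : PP 9 3 T 0x20000000000000000000000000000000000000000000000000000000000000000000000000004000000400000000000000000048000000 := rS 0x3f4cea9 (k4 c5531 c24093 c1075 c20831 k0) (by decide +kernel)
def c24586 : PP 9 3 T 0x4000000000000000010000000000000000000000000000100000000000000000000000000000000000000000000000000000000000000000000000002 := rS 0x1267b1f09f6d114ea67681f24844174af9e86b312 (k8 c24583 c24439 c5382 c5547 c5221 c5516 c703 c5334 (k8 c5517 c24517 c5530 c5412 c5411 c20261 c5570 c17813 (k2 c24183 c326 (k1 c24190 k0)))) (by decide +kernel)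
def c24587 : PP 9 3 T 0x100001010000000000000000000000000000000000014000000000000000000000000000000000000008000000000100000000020000002 := rS 0x21e55a3e324f83be5dca7afd5c8edf6639c7422430902e95f3d0c4ab381 (k8 c23706 c24439 c24583 c5382 c5547 c5221 c5516 c12633 (k8 c20787 c703 c22489 c19419 c5213 c5349 c5351 c5600 (k8 c5603 c5605 c669 c5667 c20797 c963 c1370 c338 (k2 c304 c20756 (k1 c3595 k0))))) (by decide +kernel)
def c24588 : PP 9 3 T 0x8000000000000000000010000000000000000000000004000000000000000000000000000000000000000004000000000000000000000000000000000002 := rS 0x75fdddbe5933bdb0db87fc2cf8dbfea749b9f0c94dcd24d090b435118a432034fb2d3b1510a6476371ec348ad585fb47217648cc386103a852ddf9478dae1b43a343e6b5aed0861220c74220ba57cf4312d9ab44fb6acec5e2af (k8 c5584 c9696 c24321 c24439 c20261 c5570 c5573 c24447 (k8 c24583 c5382 c5547 c5221 c5516 c703 c22489 c24094 (k8 c12633 c20787 c24517 c5422 c2600 c5517 c5505 c958 (k8 c24585 c5507 c24108 c24586 c24287 c24584 c1233 c5432 (k8 c661 c5649 c5316 c2061 c5433 c5317 c17711 c5587 (k8 c5585 c5582 c5509 c24095 c5518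 c5332 c5530 c5528 (k8 c5414 c5412 c5420 c5572 c28 c9701 c9694 c9731 (k8 c23229 c24244 c10044 c3578 c14662 c2804 c5012 c5536 (k8 c24288 c24587 c5388 c5389 c5611 c24195 c5230 c5515 (k8 c5627 c24135 c3113 c20753 c5621 c3486 c5637 c24061 (k1 c5693 k0))))))))))) (by decide +kernel)
def c24589 : PP 9 3 T 0x1005400000000084002000000000000000000100000004000200001014000000000000000000014040000088100000000000000000011000002000080000 := rS 0x91fdf0ebf299577167c6c854325 (k8 c5012 c1233 c5606 c5611 c24195 c24289 c303 c2812 (k4 c5431 c5429 c22808 c3088 (k1 c5662 k0))) (by decide +kernel)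
def c24590 : PP 9 3 T 0x8001000000000000000010000000000000000000000004000000000000000000000000000000000000000000000000000000000000000000002000000002 := rS 0x7decf87dc6962ab95b8f61a4585fb438a14b77e51e36b86d0e8d0f9ad6bb4219063a11d9ab44fb6d8bc55e9237048174af9e862559 (k8 c24439 c24583 c5382 c5547 c5221 c5516 c12633 c2804 (k8 c24588 c5584 c9696 c24321 c20261 c5570 c5573 c24447 (k8 c703 c22489 c24094 c20787 c24517 c5422 c2600 c5517 (k8 c5505 c958 c24585 c5507 c24108 c24586 c24287 c24584 (k8 c1233 c5649 c17711 c5587 c5582 c5509 c24095 c5533 (k8 c5415 c5414 c24589 c24587 c5429 c17701 c22808 c5223 k0)))))) (by decide +kernel)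
def c24591 : PP 9 3 T 0x2000000000000000000000000000000000000000000000000000100000000000000000000000000001100000000000401000000000000000000000000 := rS 0x1367b (k2 c5457 c5536 (k1 c24047 k0)) (by decide +kernel)
def c24592 : PP 9 3 T 0x8000000000000000000010000000000000000000000004000000000000000000000000000000000000000000000000000000000000000000000000000002 := rS 0xe370a68f68037897c2a14b187be071fca03687f1abdae8d788a407b1399c53ecb13ab767114ec544299da1ad6bb60fc74821121848174af9e862559 (k8 c24439 c24583 c5382 c5547 c5221 c5516 c12633 c20787 (k8 c703 c24094 c22489 c5517 c20261 c5422 c2600 c24517 (k8 c5530 c5528 c5414 c5412 c5411 c24447 c5573 c5570 (k8 c5420 c5572 c5571 c19419 c24321 c28 c9694 c9696 (k8 c5505 c5507 c5584 c24108 c958 c24585 c24586 c5318 (k8 c5432 c24287 c661 c24584 c1233 c24591 c24590 c1060 (k4 c24117 c22837 c24047 c1716 (k2 c2621 c24098 k0)))))))) (by decide +kernel)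
def c24593 : PP 9 3 T 0x10000000000000000000000004000000000000000000000000000000000000000000000000000000000000000000000000000002 := rS 0x33c043a44f789d6bb6da1263a1121848174af9e862559 (k8 c24439 c24583 c5382 c5547 c5221 c5516 c12633 c20787 (k8 c703 c22489 c5334 c24517 c20261 c5422 c5570 c24592 (k4 c5658 c335 c3066 c664 (k1 c23259 k0)))) (by decide +kernel)
def c24594 : PP 9 3 T 0x441000400000000025001110000000000000000100000008000000000000000000000000001000000000000000000000000000000000000100000000000000 := rS 0x3cbf173ee7e9667b93c6f4a (k8 c5221 c5518 c5335 c5333 c5223 c5194 c17701 c5633 (k2 c17696 c7451 (k1 c5197 k0))) (by decide +kernel)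
def c24595 : PP 9 3 T 0x801001400000000080001000000000000000000000004000000000101014000000000000000000014040010000000000000000000000140000000000000000 := rS 0x187dc59cab0f (k4 c5598 c5636 c17956 c5213 (k2 c5429 c22808 k0)) (by decide +kernel)
def c24596 : PP 9 3 T 0x14000000000a5001010000000000000000100000008000000000800020000000000000000000000010000000000000000000000000100000000000000 := rS 0x1f5c5c5a090a86e26f71993fda2ab95bc742245a3fb55e6b5ac459b292d8d4861205d2be7a1 (k8 c5382 c5547 c5221 c5516 c12633 c20787 c5324 c5474 (k8 c24124 c19726 c5411 c5422 c2600 c20839 c5502 c5327 (k8 c5326 c703 c22489 c5533 c5415 c5414 c24594 c5637 (k8 c5641 c960 c2606 c5640 c24595 c3075 c3074 c20784 (k2 c5635 c5676 k0))))) (by decide +kernel)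
def c24597 : PP 9 3 T 0x10000000000000000000000000000000000000000000000000000000000000000000000000000000000000000000002000000002 := rS 0x32387bbe0c54be917dca655b3e370321bfea6fac8d2257bf1fd89cf66128e8f4821bd7a05daa175f862a3910a5d247b0882c929d8887e95f3d0a6601ef6bf8a52358919cb73ada2d76d59 (k8 c24439 c20261 c5422 c24517 c24593 c5474 c663 c24583 (k8 c5324 c24124 c24586 c5465 c24108 c23259 c5530 c5382 (k8 c5547 c5221 c5517 c5411 c5412 c5334 c5516 c703 (k8 c24183 c24190 c1637 c5528 c324 c5414 c6706 c5581 (k8 c5578 c5467 c5463 c5479 c5475 c24094 c24095 c22489 (k8 c12633 c24447 c19419 c24321 c9712 c24536 c24556 c24596 (k8 c5678 c5387 c5388 c5389 c5606 c5607 c5611 c19938 (k8 c303 c2812 c24076 c5662 c3088 c3089 c4047 c24065 (k2 c1101 c3195 (k1 c20790 k0)))))))))) (by decide +kernel)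
def c24598 : PP 9 3 T 0x2010000000000000000000000000000000000000000000000000000000000000000000000000000000000000000000000000000002 := rS 0x2eeef7b8c0b62f22fb94cab67c6e270321d4df7171f13c4572b735ad4921205a05daebf14a4b6359d1284ab31480f6c23a57cf4312acc5443b4 (k8 c24517 c5528 c5414 c24439 c24583 c5382 c5547 c5221 (k8 c9731 c20261 c28 c9694 c5574 c24597 c17941 c24593 (k8 c5324 c5474 c24124 c24586 c5581 c5467 c5463 c5516 (k8 c12633 c5334 c5422 c2600 c5533 c5415 c5411 c5570 (k8 c9712 c5390 c5387 c5388 c5606 c5607 c5610 c5611 (k8 c19938 c303 c2812 c24076 c5662 c3076 c364 c620 (k4 c961 c670 c2641 c24046 k0))))))) (by decide +kernel)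
def c24599 : PP 9 3 T 0x10000000000000000000000000000000000000000000000000000000000000000000000000000000000000000000000000000002 := rS 0xcdabded2c0073e1f7a85ae92f11ee52672d8d6743d8e84416490fd2b43f38926443154ec4769b35aedab3b1 (k8 c24321 c24439 c20261 c5422 c24447 c24517 c5411 c5412 (k8 c5414 c5528 c5530 c24583 c5547 c5382 c5221 c5517 (k8 c5334 c5516 c703 c22489 c24095 c24593 c5324 c5474 (k8 c663 c24124 c24183 c24586 c24190 c5465 c5578 c24108 (k8 c6706 c324 c23259 c24598 c24596 c5454 c5492 c13617 k0))))) (by decide +kernel)
def c24600 : PP 9 3 T 0x80000000000000000000000000000008000000001000020000000000000000000000000000000000000000000000000000000000000002 := rS 0x46abc8ff301a1c1a43a5e70ce5b (k8 c5474 c663 c24599 c18477 c5478 c5522 c5373 c28 (k4 c5592 c2790 c3070 c2141 (k1 c22357 k0))) (by decide +kernel)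
def c24601 : PP 9 3 T 0x40000000000000000000000000000000000000100040000000000000000000000000000000000000000000000000000008000000000000000000000000002 := rS 0x46090351f9c (k4 c24599 c5526 c5522 c1061 (k2 c18580 c2810 k0)) (by decide +kernel)
def c24602 : PP 9 3 T 0x20000020000000000000000000000000000000000000010000000000000000001110000000000000054040000000000000000000000000 := rS 0x3dfed549ae06fc (k4 c23062 c2631 c5523 c5531 (k2 c24187 c24578 (k1 c19286 k0))) (by decide +kernel)
def c24603 : PP 9 3 T 0x20000000000000000000000100000008000000000000000000000000000000000000000000000000000000000000000000000000000002 := rS 0x1a2d267b27c3df4aa6940931d9847de32491e3bf208890246e80e855ab55889ce3b639864071135a3e534b3396d3b154cecf639c (k8 c24599 c24101 c18383 c5530 c5414 c5412 c5474 c663 (k8 c18477 c19356 c5526 c5523 c5371 c28 c9701 c19419 (k8 c20261 c5571 c5570 c5421 c5422 c5573 c17731 c24600 (k8 c24602 c1061 c1060 c2746 c24601 c20813 c2810 c10629 (k8 c24107 c17813 c24444 c494 c326 c2909 c24130 c24497 (k4 c24531 c24591 c24412 c2563 (k2 c5869 c2135 (k1 c19070 k0))))))))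 (by decide +kernel)
def c24604 : PP 9 3 T 0x80000000000000020000020000000000000000000000000000000000000000000000000000000000000000000000000014040000000000000000000000000 := rS 0x11aff562bf6e7258fbe02b589a1d226b47aad67b3 (k8 c18383 c5532 c5413 c5526 c5523 c5374 c5373 c5547 (k8 c5548 c5592 c18955 c23173 c18007 c5419 c20812 c5683 (k2 c23312 c2030 (k1 c24476 k0)))) (by decide +kernel)
def c24605 : PP 9 3 T 0x40004800000000000000020000000000000000000000000000000000000000000000040500000000000000000100000000000000000000000000000000000 := rS 0x70341a67b (k4 c5372 c5496 c24161 c8355 (k1 c24097 k0)) (by decide +kernel)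
def c24606 : PP 9 3 T 0x48000400000000001000020000000000000000000000000000000000000042000000040040000000020001100000000000000000000000000000000000000 := rS 0x258c0954db39a2cd70a0193113d9afc6d7 (k8 c5507 c24108 c5523 c5372 c5371 c2067 c24306 c1716 (k8 c8709 c8355 c24105 c2563 c1587 c24047 c10429 c20768 k0)) (by decide +kernel)
def c24607 : PP 9 3 T 0x20000020000000000000000000000000000000000000000000000000088100000000000000000000080000000000000000000000000000 := rS 0x30a6d3f113d9ad3a99 (k8 c5530 c5412 c5523 c5372 c5371 c2883 c2563 c930 (k1 c24047 k0)) (by decide +kernel)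
def c24608 : PP 9 3 T 0x20000000000000000000000000000008000000000000054000000000000000000020000000000000080000000000000000000000000002 := rS 0x1e04d249903b67335a2d2efb7fc6d56bc4bdc1901a1d228f948d6969d4cbf363ed549afe671089bc4b58ce234ce5b (k8 c5474 c663 c2030 c24599 c24603 c5559 c1060 c5558 (k8 c667 c24604 c5523 c5531 c24187 c24101 c23062 c5530 (k8 c5412 c18477 c5324 c19356 c5526 c5374 c5373 c28 (k8 c9701 c5694 c20819 c5507 c5585 c24108 c24070 c24605 (k8 c24606 c2135 c12473 c24105 c6899 c24607 c24412 c1180 (k2 c17730 c5536 k0)))))) (by decide +kernel)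
def c24609 : PP 9 3 T 0x20000000000000000000000000000008000000000000000000000040100200001000010000000000000000000000000000000000000002 := rS 0x125c7e1708ec723f4d3386e920c80e52350d88766fcd8fb5526b3396f383d2092c8f58 (k8 c24603 c5562 c5342 c5340 c5560 c24599 c5474 c663 (k8 c5523 c5531 c24187 c24101 c23062 c18383 c5528 c5475 (k8 c5324 c19356 c28 c9701 c24412 c17830 c1181 c1180 (k8 c327 c324 c1646 c1652 c5536 c2621 c20539 c3590 k0)))) (by decide +kernel)
def c24610 : PP 9 3 T 0x8000000000000020000000000000000000000000000008000000000000000000000040080000001000000000000000080000000000000000000000000002 := rS 0x134ca30a7d929d4cec739b750b57c6d7 (k8 c5507 c24108 c5585 c24063 c5419 c24599 c24101 c5530 (k4 c5412 c24609 c2883 c930 (k2 c5680 c24130 (k1 c1327 k0)))) (by decide +kernel)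
def c24611 : PP 9 3 T 0x20000020000000000000000000000000000000000000020000000080000000001000000000000000080000000000000000000000000000 := rS 0x136616527d3a9959ec76ea1 (k8 c24063 c5419 c24101 c5532 c5530 c5412 c4864 c14125 (k2 c930 c1326 (k1 c24130 k0))) (by decide +kernel)
def c24612 : PP 9 3 T 0x8000000000000020000000000000000000000000000008000000000000000000000000000000001020000000000000080000000000000000000000000002 := rS 0x6977fc6d56ba7533b1f99c4226f12d611adf803fd5fb3dbac567037e19cb79c (k8 c24599 c5474 c663 c23062 c2631 c5532 c1335 c5419 (k8 c18383 c20812 c23312 c24608 c24611 c2030 c24603 c5559 (k8 c1060 c5558 c667 c24604 c24101 c5530 c5412 c5507 (k4 c5585 c24108 c24605 c24606 (k1 c24610 k0))))) (by decide +kernel)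
def c24613 : PP 9 3 T 0x4000000000000045000000000000000000000000000000000000000000000000000000080000000000000000000000000000000000000000000000000000 := rS 0x3bfe3 (k2 c5579 c5496 (k1 c5196 k0)) (by decide +kernel)
def c24614 : PP 9 3 T 0x4004000000000020000000000000000000000000000008000000000000000000000040000000000100000000100000080000000000000000000000000002 := rS 0x279ac606af783203d9ec7e671089bc4b583396f39b7 (k8 c5419 c24599 c5474 c663 c24603 c5559 c1060 c5558 (k8 c667 c24604 c24101 c18383 c28 c9701 c5196 c5454 (k4 c24531 c24605 c930 c1606 k0))) (by decide +kernel)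
def c24615 : PP 9 3 T 0x20000000000000000000000000000008000000000000000000000000000000001020000000000000080000000000000000000000000002 := rS 0x258c2d440f899ad3f7b7e008dd8c0dfeafd9edd62fc3396f38b3 (k8 c5532 c24599 c5474 c663 c23062 c1335 c5419 c18383 (k8 c20812 c23312 c2631 c24101 c2030 c24608 c24611 c24612 (k8 c24613 c2077 c24614 c5463 c24230 c929 c2891 c18860 k0))) (by decide +kernel)
def c24616 : PP 9 3 T 0x20000000000000000000000000000008000000000000000000000040000000001000000000000000080000000000000000000000000002 := rS 0x302593695673459ae14077d92d3889ecd69d4cec7e671089bc4b5881a851ad5f1b5fdcad58bf0ce5bdbecf38af (k8 c20812 c24599 c18383 c5419 c5474 c663 c23062 c1335 (k8 c24615 c5683 c5507 c24108 c5585 c5505 c24063 c2631 (k8 c24603 c5559 c1060 c5558 c667 c24604 c24101 c5530 (k8 c5412 c5523 c5372 c5371 c24610 c24609 c24605 c24306 (k8 c1716 c8709 c8355 c24105 c1587 c2563 c5678 c24047 (k1 c20768 k0)))))) (by decide +kernel)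
def c24617 : PP 9 3 T 0x20000000000000000000000000000008000000000000000000000000000000001000000000000000080000000000000000000000000002 := rS 0x10189b791bee56abf6e8748a3f66b17e19cb79c (k8 c24599 c5474 c663 c23062 c1335 c18383 c5526 c5374 (k8 c5373 c5419 c20812 c24615 c5683 c5505 c24616 c24070 (k2 c24611 c20818 k0))) (by decide +kernel)
def c24618 : PP 9 3 T 0x20000000000000000000000000000008000000000000000000000000000000001000000000000000000000000000000000000000000002 := rS 0x1ef80c4b6c7301c45220d35a3e97155991f43f338844de25ac19cb79c (k8 c24599 c5474 c663 c24603 c5559 c1060 c5558 c667 (k8 c24604 c20946 c5562 c5532 c5414 c18477 c5526 c5523 (k8 c5522 c5374 c5371 c28 c24617 c17749 c24037 c24600 (k2 c22356 c23259 k0)))) (by decide +kernel)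
def c24619 : PP 9 3 T 0x44004000000000045000020000000000000000000000000000000000000008000000040001000000000000000000000000000000000000000000000000000 := rS 0x1c2e3f0b559fde (k4 c5196 c5453 c5454 c22337 (k2 c2574 c3012 (k1 c5691 k0))) (by decide +kernel)
def c24620 : PP 9 3 T 0x8000000000001000020000000000000000000000000000000000400012000000000000000000200000000000000080040000000000000000000000000 := rS 0xc867a552e617035d9681 (k8 c5463 c5464 c5465 c24170 c929 c1333 c2181 c1653 (k2 c24241 c1181 k0)) (by decide +kernel)
def c24621 : PP 9 3 T 0x4000000000000020000000000000000000000000000008000000000000010000000000000000000000000000000000000000000000000000000000000002 := rS 0xca3037bbde366ac226fe0c80d67b3d8fb553f3378976f03579c96871089af43587e19cb79c (k8 c24599 c5474 c663 c23062 c24603 c20946 c5523 c5558 (k8 c667 c24618 c20445 c20812 c2632 c5422 c5559 c1060 (k8 c24604 c5531 c24187 c24101 c18383 c5532 c28 c9701 (k8 c5694 c21166 c23312 c4669 c24620 c5196 c24619 c24531 (k2 c2515 c1756 k0))))) (by decide +kernel)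
def c24622 : PP 9 3 T 0x4000000000000020000000000000000000000000000008000000000000000000000000000000000000000000000000000000000000000000000000000002 := rS 0x12c616a207c4ac6fb351ab18034d0eabd9ec76eaf392d0e21135e734358 (k8 c24603 c20946 c24599 c5523 c5558 c667 c24618 c20445 (k8 c20812 c5422 c24101 c18383 c5413 c5373 c24613 c24621 (k8 c2143 c2141 c2077 c2952 c5683 c24614 c5463 c24230 (k2 c929 c2891 (k1 c18860 k0))))) (by decide +kernel)
def c24623 : PP 9 3 T 0x20000000000000000000000000000008000000000000000000000000001000000000000000000000000001000000000400000000000002 := rS 0xc849a5fc2950c80e226b94d2cce5b4ea67639c (k8 c24599 c24101 c5530 c5412 c5474 c663 c18477 c19356 (k8 c5523 c5371 c28 c9701 c24497 c24591 c18860 c17730 (k2 c24241 c24412 k0))) (by decide +kernel)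
def c24624 : PP 9 3 T 0x400000000020000000000000000000000000000008000000000000000000000000001000000000000000000000000000000000000000000000000002 := rS 0x4a33937e04925cc03b3dca696997e6c7daa93599cb79c (k8 c24599 c5474 c663 c5523 c5531 c24187 c24101 c23062 (k8 c5530 c18477 c19356 c5372 c24147 c24623 c20768 c662 (k4 c17730 c5536 c24177 c10429 (k1 c1587 k0)))) (by decide +kernel)
def c24625 : PP 9 3 T 0x20000000000000000000000000000008000000000000000000000040000000000000000000000000000000000000000000000000000002 := rS 0x27d96e04b26bc2ccefec7e66f12ede06af392d0e21135e86b0fc3396f388d6af8dafee (k8 c24622 c5507 c24108 c5585 c5505 c24599 c5474 c663 (k8 c23062 c24603 c20946 c5523 c5558 c667 c24618 c20445 (k8 c20812 c2632 c5422 c5559 c1060 c24604 c24101 c24605 (k8 c24624 c5537 c2504 c2505 c8709 c1327 c1643 c17839 k0)))) (by decide +kernel)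
def c24626 : PP 9 3 T 0x20000000000000000000000000000008000000000000020000000000000000000000000000000000000000000000000000000000000002 := rS 0x1df66b49c2de (k4 c24625 c175 c2952 c2078 (k2 c5496 c24624 k0)) (by decide +kernel)
def c24627 : PP 9 3 T 0x20000000000000000000000000000008000000000000000000000000000000000000000000000000000000000000000000000000000002 := rS 0x10189b791bee43a451f9c (k8 c24599 c5526 c5374 c5373 c24622 c5505 c24625 c24070 (k2 c24626 c20818 k0)) (by decide +kernel)
def c24628 : PP 9 3 T 0x1000000000000000020000000000000000000000008000000000000000040000000000000000000000000000000000000000000000048000000000000 := rS 0x700a1dca5eb4b (k4 c18477 c5477 c19356 c492 (k2 c24222 c5654 (k1 c24078 k0))) (by decide +kernel)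
def c24629 : PP 9 3 T 0x1000000000000000000000000000000000000000008000000000000000000000000000000000000000000000000000000000000000400000000000002 := rS 0x341fa386687de296efa54c3ed7b0c80ef53396de637d84a697b53dc44d79c (k8 c24599 c5523 c5371 c5372 c24627 c18477 c19356 c5225 (k8 c24235 c5325 c5474 c663 c5477 c23144 c24160 c24628 (k8 c5498 c5445 c5446 c24196 c24132 c9696 c24153 c2072 (k4 c5654 c13351 c6897 c1709 k0)))) (by decide +kernel)
def c24630 : PP 9 3 T 0x1000000000000000000000000000000000000000008000000000000000000000000000000000000000000000000000000000000000000000000000002 := rS 0x1faab6608474a9f6bd865df1b81f669530a6f6023889ecd7297986deb4bce19cb7b5 (k8 c24627 c5474 c663 c24599 c18477 c5477 c5475 c5325 (k8 c19356 c5523 c5372 c5371 c9731 c5225 c5397 c5445 (k8 c5446 c24253 c23144 c24235 c24196 c24160 c24628 c5498 (k4 c2021 c24629 c3688 c24147 (k2 c7110 c2504 (k1 c5682 k0)))))) (by decide +kernel)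
def c24631 : PP 9 3 T 0x1000400000000000000100000000000000000000000000000000000000050000000140408000000000000000600000000000040004100540000000000000 := rS 0x11c7ee324845a7ef (k8 c5505 c24056 c701 c13257 c13843 c14449 c13598 c24125 k0) (by decide +kernel)
def c24632 : PP 9 3 T 0x4002000000000000000020000000000000000000000000000000000000050000000000400000000000000000100000000000000000000000000000000000 := rS 0xd469a03c6fe89b8cf68748a3dc2dff6b3bbecd (k8 c5537 c22337 c24177 c24304 c5538 c5460 c5526 c5374 (k8 c5373 c5372 c13843 c21166 c19658 c24167 c24027 c2942 (k2 c5689 c20766 k0))) (by decide +kernel)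
def c24633 : PP 9 3 T 0x8000000000000010080000000000000000008000000000000000000000000000040000000000002 := rS 0x1ca29b708acc8f12f9fb91ab52580d0e9106a3c8a672d8edc2396ffb59d03d082c414b6bb236697d8a74d67b88f7d9b9c4ab47c01c0f86c47b5 (k8 c24627 c9731 c5475 c1084 c8123 c24630 c5459 c2125 (k8 c24599 c5537 c22337 c5371 c5372 c5523 c5458 c24204 (k8 c1284 c5486 c5678 c4534 c18477 c7110 c24045 c23756 (k8 c4547 c24177 c24304 c5538 c5534 c5460 c5456 c5474 (k8 c663 c5326 c5526 c5522 c5374 c5373 c28 c565 (k8 c1345 c24631 c24632 c18955 c20818 c12623 c24042 c703 (k4 c22356 c5685 c17749 c1290 k0))))))) (by decide +kernel)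
def c24634 : PP 9 3 T 0x8000000000000001080000000000000000000000000000000000000000000000040000000000002 := rS 0xe24f2849641249c823585aedd6247f9c00c092646840db3058712a971007d541901a1c1a430dd2cce5bda8eda2e14df7d9bb14ef80d67b88e715223 (k8 c9731 c2021 c24599 c5371 c5372 c5523 c24630 c5458 (k8 c24204 c5537 c22337 c5536 c5460 c5459 c5456 c24627 (k8 c5474 c663 c18477 c5475 c5478 c5522 c5373 c28 (k8 c9701 c24060 c1084 c7110 c1284 c2125 c8123 c24045 (k8 c5486 c24219 c23756 c5678 c24412 c1563 c24633 c5592 (k8 c2790 c4506 c23131 c1344 c20261 c9667 c17749 c24155 (k4 c5340 c5342 c24063 c930 (k2 c24411 c1608 k0)))))))) (by decide +kernel)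
def c24635 : PP 9 3 T 0x8000000000000002000000000000000000000000000000000000000000000000040000000000002 := rS 0x25d2a604c88446f3a5a6d9ddf66ec53be0359ee239c (k8 c24599 c5371 c5372 c5523 c24630 c5458 c24204 c5537 (k8 c22337 c24177 c5536 c18477 c5325 c9731 c2550 c7114 (k4 c24591 c1587 c20768 c10429 k0))) (by decide +kernel)
def c24636 : PP 9 3 T 0x8000000000000000000000000000000000000000000000000000000000000000040000000000002 := rS 0x2af669910829eefd1186deb4bdab3bc19c (k8 c24599 c24630 c24177 c24627 c18477 c5477 c5475 c9731 (k8 c24635 c24634 c24222 c24045 c7114 c20905 c7110 c13265 k0)) (by decide +kernel)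
def c24637 : PP 9 3 T 0x8000000000000020040000000000000000000000000000000000000000000000000000000000002 := rS 0x9e691c8e3a11ead2b03f20c776ed546acc8f037ffcd0e4370f7d9aab8a8cd92a967248c0947e07847b5f6ecc420a0dd2dea981b26e53b14ef80d67b88e703203 (k8 c28 c9701 c24599 c5371 c5372 c5523 c24630 c5458 (k8 c24204 c19356 c5536 c24636 c24165 c5477 c18477 c5475 (k8 c24222 c24045 c20905 c24304 c24627 c9731 c5650 c19192 (k8 c2555 c24497 c2318 c24177 c6005 c17830 c323 c15434 (k8 c7110 c5537 c22337 c5460 c5478 c5373 c5592 c178 (k8 c212 c2790 c2901 c2141 c3072 c24600 c2139 c1741 (k8 c17800 c20261 c5685 c5560 c20946 c20877 c20445 c13568 (k2 c930 c2883 k0)))))))) (by decide +kernel)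
def c24638 : PP 9 3 T 0x40000000000000040000100000000000000000000000008000000000000000000000000000000000000000000000000000000000000014000000100000002 := rS 0x1a49e7fb56071d1e9c823eeac77d9a3364aa59c9230251f81e11ed7dbb30dd2dea981b26e53b14ef80d67b88e703203 (k8 c28 c9701 c24599 c5371 c5372 c5523 c24630 c5458 (k8 c24204 c19356 c5536 c24636 c24165 c5477 c18477 c5475 (k8 c20905 c24304 c24627 c9731 c5650 c19192 c2555 c24497 (k8 c2318 c24177 c6005 c17830 c323 c5537 c22337 c20261 (k8 c5201 c9667 c17749 c5560 c5341 c5508 c5585 c5586 (k2 c930 c13568 (k1 c2883 k0))))))) (by decide +kernel)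
def c24639 : PP 9 3 T 0x40000000000000000000100000000000000000000000008000000000000000040000000000000000000000000000000000000000000400000000000000002 := rS 0x94dc4b89fbd6a7338ed87e0388a441a8f3396e2a924c26cd6fcf6f83661b80acc3c21053d76a23a5e708236 (k8 c24636 c1741 c24599 c18477 c9731 c24627 c5477 c24222 (k8 c24045 c5650 c2321 c24637 c5475 c20905 c24630 c24304 (k8 c19192 c5523 c5536 c24165 c2318 c15434 c5474 c663 (k8 c5526 c5522 c5374 c5371 c28 c17800 c24638 c5571 (k8 c5419 c5422 c22356 c23136 c2590 c24037 c20674 c1060 k0))))) (by decide +kernel)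
def c24640 : PP 9 3 T 0x80002000000000000000020000000000000000000000000000000000000010000000000000000000000000000000000000000000000000000000000000000 := rS 0x34918d7407be06e36fb3bbecd (k8 c5537 c22337 c24177 c5538 c5549 c5550 c18955 c24180 (k4 c1769 c24632 c20909 c24056 k0)) (by decide +kernel)
def c24641 : PP 9 3 T 0x40000000000000000000000000000000000000000040000000000001000000000000000000000000000000000000000000000000000800000000000000002 := rS 0x2c8dfb63992c9359898a4079c (k8 c24599 c28 c9694 c12623 c5562 c157 c191 c19419 (k4 c20261 c24601 c24152 c5574 k0)) (by decide +kernel)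
def c24642 : PP 9 3 T 0x8000000000000000040000000000000000000000000000000000000000000000000000000000002 := rS 0x78eb281d011fe70130251f9150f6cc420a1186406919486deb4bdafb7629d3dc4530364df80d79c (k8 c24599 c5523 c24630 c5536 c24636 c24165 c5371 c5372 (k8 c5458 c24204 c24304 c24627 c18477 c5477 c5475 c19356 (k8 c5374 c28 c9701 c9731 c24222 c24045 c20905 c5650 (k8 c15434 c19192 c2555 c24497 c24637 c24640 c24641 c24639 (k4 c5380 c20946 c24168 c24487 k0))))) (by decide +kernel)
def c24643 : PP 9 3 T 0x200000000000000000000000008000000000000000000000000000000000000000000000000000000000000000000000000000002 := rS 0x1f10ed8155911d2f39b5 (k8 c24627 c24599 c18477 c9731 c20946 c23756 c20261 c24045 (k2 c24220 c5650 k0)) (by decide +kernel)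
def c24644 : PP 9 3 T 0x8000000000000000000000000000000000000000000000000000000000000000000000040000002 := rS 0x649852a9749aa9faf10c80d0ef3a599cb7b568ec53be0359ee239c1b2a5ec23 (k8 c9731 c24642 c2021 c24636 c24599 c5371 c5372 c5523 (k8 c24630 c5458 c24204 c5459 c24627 c5474 c663 c18477 (k8 c5325 c5373 c28 c9701 c9696 c13351 c24137 c1568 (k4 c1284 c2125 c662 c24412 (k1 c24186 k0))))) (by decide +kernel)
def c24645 : PP 9 3 T 0x100000008000000000000000000000000000000000000000000000000000000000000000000000000000002 := rS 0xf11063a3f6a8f422b513a7d6671db4a76ba14a25c6afc55a1cce5befb37629d3dc4466c9f6ecc421ba5aa5ec234907930364df80d79c (k8 c24599 c5523 c24630 c5536 c24636 c24165 c24644 c2318 (k8 c9731 c24642 c2021 c18477 c5475 c58 c20905 c24304 (k8 c17830 c323 c5371 c5372 c5458 c24204 c5537 c22337 (k8 c5474 c663 c5373 c1084 c24060 c5324 c1637 c10429 (k8 c24643 c24627 c19356 c20261 c5571 c5574 c5572 c5570 (k8 c5422 c24199 c1569 c1589 c326 c22489 c24094 c5655 (k1 c13617 k0))))))) (by decide +kernel)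
def c24646 : PP 9 3 T 0x80000000000000000000000000000008000000000000000000000000000000000000000000000000000000000000000000000000000002 := rS 0x897be02ad5aac4e711489ad1f9c3396fdbe08a9bc4a7108c0e3af65991eb01e (k8 c24644 c24645 c5562 c2321 c24642 c5341 c2195 c5558 (k8 c667 c5559 c1060 c15434 c24630 c24304 c5474 c663 (k8 c24599 c5526 c5523 c5374 c5371 c5419 c5421 c5422 (k4 c5573 c24600 c24578 c24037 (k1 c21166 k0))))) (by decide +kernel)
def c24647 : PP 9 3 T 0x8000000000000000000000000000000000000000000000000000000000000000000000000000002 := rS 0xd31fb55ae9e50fb8e5e3dbc74823d08d60c0334a3f19297d9aad24210f68552f64c0db63df677b59a9b4ef836a67a58c4365b1a91486230c80e227b439ae539c (k8 c24599 c19356 c5523 c5373 c5372 c5371 c28 c9701 (k8 c9731 c5478 c5326 c5324 c5474 c5475 c5476 c18477 (k8 c663 c24627 c24630 c5458 c5536 c5537 c24304 c24177 (k8 c22337 c24204 c24636 c24165 c24642 c2021 c24643 c24644 (k8 c58 c2318 c1084 c20905 c1637 c17830 c24060 c10429 (k8 c323 c24497 c24645 c5558 c5560 c5340 c5341 c24646 (k8 c24266 c17749 c5196 c24063 c930 c5507 c5585 c327 (k2 c2883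 c3588 k0)))))))) (by decide +kernel)
def c24648 : PP 9 3 T 0x9000000000000050000000000000000000000000040000000000001000000000000000000000000400000000000000000040000000000000000000000002 := rS 0x55bf569b288a1cd6b1f9e71533b (k8 c24647 c10768 c24599 c18955 c5506 c5523 c5373 c5371 (k4 c5228 c5685 c5405 c1344 (k1 c24060 k0))) (by decide +kernel)
def c24649 : PP 9 3 T 0x8000800000000000000020000000000000000000000000000000000000000000000000000000000000000000000000000000000000000000000000000000 := rS 0x385c7016f785a0d3669ed0e9147a3606d57ffcfc6d7 (k8 c5507 c24108 c18955 c5586 c5585 c5508 c5505 c5526 (k8 c5374 c5373 c5372 c5495 c5496 c24161 c22337 c24605 (k4 c2952 c1780 c24097 c24171 k0))) (by decide +kernel)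
def c24650 : PP 9 3 T 0x9000000000000040000000000000000000000000040000000000001000000000000000000000000000000000000000000040000000000000000000000002 := rS 0x892c955b57eab765b14ef8153113da1cd7299da37bf9c (k8 c24599 c24649 c5505 c24647 c19356 c5523 c5373 c5372 (k8 c5371 c10768 c5165 c5458 c24204 c5224 c5490 c5405 (k4 c18383 c24060 c24648 c20930 (k1 c24042 k0)))) (by decide +kernel)
def c24651 : PP 9 3 T 0x8000000000000048000000000000000000000000080000000000000000000000000000000000000000000000000000080000000000000000000000000002 := rS 0x1b5568449758d0c56239c (k8 c24599 c5371 c1290 c5379 c20261 c5342 c5558 c5490 (k2 c18383 c23182 k0)) (by decide +kernel)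
def c24652 : PP 9 3 T 0x9000000000000040000000000000000000000000000000000000000000000000000000000000000000000000000000080040000000000000000000000002 := rS 0xd2b36bb0d9d2bbff37fa36533b0890c9758d0c56239c (k8 c24599 c5371 c1290 c5379 c20261 c5342 c5561 c5558 (k8 c24647 c19356 c5505 c5586 c18955 c24649 c24650 c24651 (k4 c5224 c24205 c23182 c18775 (k1 c1908 k0)))) (by decide +kernel)
def c24653 : PP 9 3 T 0x6000000000000000000000000000000000000000000000008000000000000000004000000000000000000000000000000000004000002 := rS 0x678d53893889ecd729ce07276f1 (k8 c9696 c24647 c5649 c24599 c19356 c5523 c5372 c5371 (k4 c5444 c24204 c23229 c1651 (k1 c23186 k0))) (by decide +kernel)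
def c24654 : PP 9 3 T 0x80000000000000044000000000000000000000000080000000000000000000000000000000000000020000000000000080040000000000000000000000002 := rS 0x3f658c5249d4bec5f8f27f070b6ab4686c8ab178864068747ca7393b0890c8358d0a862701 (k8 c5592 c5547 c24063 c5379 c20261 c5340 c5561 c5558 (k8 c24647 c24599 c19356 c5526 c5373 c28 c9701 c9696 (k8 c201 c2887 c1908 c2030 c2127 c18772 c5649 c24476 (k8 c20814 c2893 c24653 c20692 c1239 c24189 c1566 c1753 (k2 c327 c24352 k0))))) (by decide +kernel)
def c24655 : PP 9 3 T 0x45000000000000000000000000080000000000000000000000000500000000000008000000000000080040000000000000000010000002 := rS 0x185269b64f79e329ce4ec22412591eb1a1508ec9237 (k8 c5518 c5334 c5332 c24063 c5379 c20261 c5562 c5342 (k8 c5340 c5558 c24647 c24599 c19356 c9696 c5224 c5494 (k4 c1189 c24411 c662 c24346 k0))) (by decide +kernel)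
def c24656 : PP 9 3 T 0x1000000000000054000000000000000000000000080000000000000000000000000000000000000000000000000000080040000000000000000000000002 := rS 0x35fbe331ca592a6164ec0341d552c15ae171fc9e39c9d8463a4b23d6342aff78ec9237 (k8 c5518 c5334 c5332 c24652 c20812 c5379 c20261 c5562 (k8 c5342 c5341 c5558 c24647 c24599 c9696 c5201 c5549 (k8 c5591 c24654 c5683 c23173 c2177 c5649 c24655 c5396 (k8 c5445 c5446 c24132 c23994 c2043 c24196 c1768 c23980 k0)))) (by decide +kernel)
def c24657 : PP 9 3 T 0x1000000000000044000000000000000000000000080000000000000000000000000000000000000000000000000000080040000000000000000000000002 := rS 0x5a0e3cc36fc10ed03ef1439af393b (k8 c24647 c24599 c5523 c5373 c9696 c5517 c24656 c5528 (k4 c23062 c24585 c23227 c20237 (k2 c20814 c1994 k0))) (by decide +kernel)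
def c24658 : PP 9 3 T 0x45000800000000044000020000000000000000000000000000000100000040000000000040000000400001100000000080040000000000000000020000000 := rS 0x185369f71359bfe380235fe5b58c44f66bd0abd42d5 (k8 c5454 c24063 c20812 c5379 c5523 c5372 c5371 c2177 (k8 c1994 c23312 c24223 c5694 c24230 c2952 c24605 c2146 (k4 c1606 c2622 c930 c24047 k0))) (by decide +kernel)
def c24659 : PP 9 3 T 0x1000000000000044000000000000000000000000000000000000000000000000000000000000000000000000000000080040000000000000000000000002 := rS 0x61498ede41a0ef859a3569f7a07f3d8acd329d7e6d156a9a5bc6228735ca7393b8e9bc4a7108d615fef (k8 c24652 c20812 c20261 c5558 c667 c5559 c1060 c5341 (k8 c24647 c24599 c19356 c5523 c5373 c5371 c9696 c24657 (k8 c10768 c11079 c5228 c24060 c5412 c5530 c5532 c24101 (k8 c24604 c2632 c5224 c24613 c5450 c5495 c22337 c24658 (k4 c5649 c1076 c448 c17730 (k2 c662 c24346 k0)))))) (by decide +kernel)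
def c24660 : PP 9 3 T 0x800000000008000020000000000000000000000000000000000000000000000000000000000000000000000000000040000000000000000000000000 := rS 0x13860f0b3592cf889ed0e6b7ea5763b5 (k8 c18383 c24253 c5488 c5405 c5523 c5373 c5372 c5371 (k4 c5453 c5494 c5495 c22337 (k2 c24196 c24227 (k1 c24083 k0)))) (by decide +kernel)
def c24661 : PP 9 3 T 0x400000000001000000000000000000000000000000000000000000000000000000000000000000000010000000000002000000000000000010000002 := rS 0x1a0182e1901ca7393b (k8 c24647 c24599 c19356 c28 c9701 c24066 c661 c11149 (k1 c20806 k0)) (by decide +kernel)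
def c24662 : PP 9 3 T 0x1000000000000008000000000000000000000000000000000000000000000000000000001000000000000000000000000040000000000020000000000002 := rS 0x3ce960a7b8e4767b94cef63b5ef81c6ef5552a6226b43e71fa23 (k8 c9731 c5405 c24599 c5373 c5523 c5371 c5489 c24060 (k8 c1924 c1622 c20806 c24660 c18383 c24253 c24647 c19356 (k8 c5372 c24147 c440 c501 c24216 c5516 c20781 c17966 k0))) (by decide +kernel)
def c24663 : PP 9 3 T 0x41000000000000040000000000000000000000000000000000000000000000000000000000000000000000000000000080040000000000020000000000002 := rS 0x1ff016634d969219864072920d6143ef56a5d2b03552a4d6877ec5622dfd8ed7659c (k8 c24599 c24659 c18383 c24253 c14805 c5371 c1290 c5405 (k8 c5373 c5523 c5489 c24060 c2200 c5488 c5404 c5490 (k8 c24652 c24063 c20261 c5340 c19356 c28 c9701 c120 (k4 c24188 c1753 c14519 c24662 (k2 c2077 c2506 (k1 c5694 k0)))))) (by decide +kernel)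
def c24664 : PP 9 3 T 0x1000400000000000000000000000000000000000000000000000000000000000000000002000000000000000000000000000040000000010000000000002 := rS 0x294f3f0ca7393b (k4 c24647 c24599 c19356 c5537 (k2 c2501 c5165 (k1 c20814 k0))) (by decide +kernel)
def c24665 : PP 9 3 T 0x1000400000000011000000000000000000000000000000000000000000000010000000000200000000000010000000000000000000000010000010000002 := rS 0x7bbcc3e364c52d3acd4d869265b0b0ca227b35ca7393b308c43203 (k8 c28 c9701 c1915 c24661 c24647 c24599 c19356 c5523 (k8 c5372 c5371 c5653 c11149 c24133 c322 c1064 c17703 (k8 c24664 c1276 c24189 c24047 c1463 c2318 c2535 c2104 (k1 c5657 k0)))) (by decide +kernel)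
def c24666 : PP 9 3 T 0x1000000000000040000000000000000000000000000000000000000000000000000000000000000000000000000000080040000000000000000000000002 := rS 0x13ecbf1b853892f9330663464187bef5556d762a94a875fa97d9284461901c450e6b94e708358 (k8 c20261 c5340 c24599 c19356 c5523 c5373 c5371 c28 (k8 c9701 c9731 c24063 c24659 c5404 c5405 c5486 c5488 (k8 c5489 c24253 c18383 c24060 c1924 c24660 c24661 c24241 (k8 c24665 c120 c24662 c24663 c24188 c2076 c5591 c24107 (k2 c1753 c1700 (k1 c5680 k0)))))) (by decide +kernel)
def c24667 : PP 9 3 T 0x1000000000000040000000000000000000000000000000000000000000000000000000000000000000000000000000000040000000000000000000000002 := rS 0x1b5a5e80e729ce4ec2358 (k8 c20261 c5558 c24647 c24599 c19356 c24666 c17749 c12110 (k2 c23757 c18380 k0)) (by decide +kernel)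
def c24668 : PP 9 3 T 0x2000000000000000000000000000000000000000040000000000000000000000000000000000000000000000000000000000000000000051000000000002 := rS 0x700a7a8ecb63206ca676f7f0f7da39c (k8 c24599 c5501 c24161 c24304 c5498 c24647 c19356 c5522 (k4 c5653 c24133 c492 c2046 (k2 c24149 c5654 (k1 c24078 k0)))) (by decide +kernel)
def c24669 : PP 9 3 T 0x40000000000000000000000000000000000000000000000000000000000000000000000000000000000040000000000000000000000002 := rS 0x3a0b07c721d1a0c52c374a9859293a5ec367df54785a3ec01bc6227b35ca7393b (k8 c24647 c24599 c19356 c5523 c5372 c5371 c9696 c28 (k8 c24667 c5501 c24304 c24187 c24161 c5489 c5224 c23196 (k8 c5444 c5396 c5445 c5446 c24235 c24132 c24254 c24668 (k4 c331 c19684 c2320 c24302 (k2 c5654 c1677 k0))))) (by decide +kernel)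
def c24670 : PP 9 3 T 0x80000000000020000000000002 := rS 0xd824bbf29ce4ef661c (k8 c664 c5487 c24647 c24599 c19356 c5450 c331 c5224 (k1 c5444 k0)) (by decide +kernel)
def c24671 : PP 9 3 T 0x400000000000000000000000000000000000000000000000000000000000000000000000000000000000000000000080000000000000000000000002 := rS 0x25461b094e7277b30e0ccb435 (k8 c24670 c663 c24089 c664 c5487 c24647 c24599 c19356 (k4 c5224 c5653 c5446 c1996 k0)) (by decide +kernel)
def c24672 : PP 9 3 T 0x2000020000000000000000000000000000000000000000000000000020000000000000040000000000080000000000000000000000000 := rS 0xfc54a736a95889ecd7ed (k8 c5501 c5523 c5372 c5371 c5446 c24205 c24204 c2024 (k2 c24059 c1239 k0)) (by decide +kernel)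
def c24673 : PP 9 3 T 0x60000000000000000000000000000000000000000000000000000000000000000000000000000000000000000000000000000000000002 := rS 0xfc8aa157b2c62724968694f310a74320320ecc36b138846b0f743fb5ea1cd8b43bc971aca5e33b19968cd9c (k8 c24599 c24669 c663 c24089 c24647 c9696 c19356 c24670 (k8 c20460 c24671 c24161 c24672 c664 c4420 c5501 c5373 (k8 c2101 c20261 c5558 c667 c2180 c24093 c5487 c5340 (k8 c28 c9701 c5412 c5528 c23227 c23684 c20554 c24189 (k8 c17749 c1566 c1753 c20812 c24063 c336 c327 c24352 k0))))) (by decide +kernel)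
def c24674 : PP 9 3 T 0x40000000000000000000000000000000000000000000000000000000000000000000000000000000000000000000000000000000000002 := rS 0x3f18b2d249a4ca748afc50abce5a18092606b5a57cb6bb17afb7dfe1683359fde4b8d5ee3358870b41bd9998e211ac3c4320343ca7393b (k8 c24647 c24599 c19356 c5373 c28 c9701 c9696 c20261 (k8 c5558 c667 c24669 c5487 c24093 c663 c664 c2180 (k8 c24089 c2101 c24670 c20460 c24671 c5453 c5495 c24161 (k8 c22337 c24649 c5501 c4420 c24672 c24673 c5201 c5228 (k8 c5548 c5550 c5588 c5592 c12110 c17749 c20812 c24063 (k8 c23287 c336 c1239 c2554 c5679 c24189 c1326 c1566 (k2 c327 c24352 k0))))))) (by decide +kernel)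
def c24675 : PP 9 3 T 0x1000000000000010000000000000000000000200080000000000000000000000000000000000000000001000000000000080000000000000000020000002 := rS 0x89c55c29a71b5bc7034c8fc62fc492a4320388a44d68f38acce6b50d90d5a4513ed8831d37895aa3d678dda7e166ec5a1de4b8d652f19d8ccb59c (k8 c24599 c663 c24089 c24647 c9696 c19356 c24670 c20460 (k8 c24671 c24161 c24672 c5495 c22337 c5496 c5518 c20518 (k8 c5560 c21481 c5559 c1060 c5341 c5340 c24674 c5570 (k8 c335 c5573 c2000 c57 c5422 c5419 c5574 c5571 (k8 c5526 c5523 c5374 c5371 c28 c9701 c2025 c24189 (k8 c24059 c1566 c326 c2554 c2631 c23097 c3588 c6448 (k4 c5679 c1721 c1192 c24098 (k1 c24037 k0)))))))) (by decide +kernel)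
def c24676 : PP 9 3 T 0x1000000000000014000000000000000000000200000000000000000000000000000000000000000000000000000000000080000000000000000020000002 := rS 0x40409fe16f1bf526614e6c5a0cd4b8cfbc352d3c432033dca7387159b2c76497a91d56f7a54ec86ad2289f6c3d8e92cde25 (k8 c5559 c1060 c5342 c5341 c5560 c24674 c5570 c335 (k8 c5573 c2000 c24647 c5228 c5333 c2121 c5520 c5519 (k8 c5334 c5332 c5420 c5574 c5571 c24599 c19356 c5372 (k8 c28 c9701 c9696 c663 c24670 c24671 c24089 c20460 (k8 c5495 c24161 c24672 c24675 c24083 c1694 c1239 c24218 (k4 c5648 c23961 c18824 c24131 (k1 c24128 k0))))))) (by decide +kernel)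
def c24677 : PP 9 3 T 0x1000000000000014000000000000000000000200000000000000000000000000000000000000000000000000000000000000000000000000000020000002 := rS 0x45626e16b78c7e314d38d24994ef85a6336ab3c6a97ef33762207e2a5e5032d99cde4b8e9047a2578864071148834d68f94e70e2b339ad436ab7bd2a7643569144fb6 (k8 c24674 c5570 c335 c5573 c2000 c24647 c5228 c5333 (k8 c2121 c57 c5422 c5419 c5574 c5571 c24599 c19356 (k8 c5526 c5523 c5522 c5374 c5371 c28 c9701 c9696 (k8 c5559 c5560 c5340 c5341 c5342 c1060 c24676 c1994 (k8 c21152 c20814 c2447 c334 c23227 c24653 c4665 c5224 (k8 c20692 c5450 c5453 c5454 c5492 c5496 c22337 c10719 (k8 c2554 c24189 c6448 c5679 c1566 c326 c23097 c3588 (k4 c1721 c24098 c1192 c24037 k0)))))))) (by decide +kernel)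
def c24678 : PP 9 3 T 0x4000000000000000000000100000000000000000000000008000000000000000004000000000000000000000000140000000004000402 := rS 0x115899bdfc138e7bfbdb188a44d68f94e727671599cd6bb6 (k8 c24674 c5422 c5419 c5574 c5571 c24647 c24599 c19356 (k8 c5526 c5523 c5374 c5371 c24653 c5224 c24649 c5658 (k4 c20813 c555 c1061 c12633 (k2 c3011 c24037 k0)))) (by decide +kernel)
def c24679 : PP 9 3 T 0x1000000000000014000000000000000000000000000000000000000000000000000000000000000000000000000000000000000000000000000020000002 := rS 0x24f42104e2a2291337c0518138e6c7ded04bf786a6619969e7592290d561b78c45226b47ca7387159b2c4e735aab76c3b7b82e953b (k8 c24647 c5228 c5516 c5333 c5332 c24674 c5573 c5422 (k8 c5419 c5570 c5420 c5574 c5571 c24599 c19356 c5526 (k8 c5523 c5374 c5371 c9696 c57 c2121 c2000 c335 (k8 c24677 c24678 c20814 c24089 c1994 c24670 c24671 c20460 (k8 c24161 c24649 c24672 c5658 c20813 c2159 c2139 c1061 (k8 c12633 c24037 c9222 c2025 c2160 c5381 c1694 c17971 k0)))))) (by decide +kernel)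
def c24680 : PP 9 3 T 0x4000000000000000000000000000000000000100000000000000000000000000000000000000000000000000000000000040000000100000000008000002 := rS 0x3704d1a4257cece27356c7563b6 (k8 c24674 c5421 c2161 c5573 c5419 c5571 c24647 c1078 (k4 c5658 c12616 c20787 c20793 (k1 c1061 k0))) (by decide +kernel)
def c24681 : PP 9 3 T 0x1000800000000000000000000000000000000100080000000000000000000000000000000000000008000000000000000040000000000000000008000002 := rS 0xfe707cd03e2d084a264125c047a1121913ded51abc41a8f94e7276498ec0d63b6 (k8 c24674 c5421 c2199 c2161 c5334 c24647 c24599 c19356 (k8 c5526 c5522 c9696 c5450 c5454 c24649 c24680 c123 (k8 c20747 c2970 c3066 c461 c458 c21166 c17919 c5564 (k4 c22848 c5463 c24107 c24170 (k2 c6368 c3012 k0))))) (by decide +kernel)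
def c24682 : PP 9 3 T 0x16000000000000000000000000000000000000000000000000000000000000000000000000000000000000000000000440000010000402 := rS 0x39039ec1b29ce06a76f1 (k8 c9696 c24647 c5649 c24599 c19356 c5522 c5372 c23880 (k2 c23994 c24030 k0)) (by decide +kernel)
def c24683 : PP 9 3 T 0x1000000000000014000000000000000000000000000000000000000000000000000000000000000000000000000000000000000000000000000000000002 := rS 0x405fe8cf9abcde25ac7bfbdb155068ce1d1b82c774a78a1e539c9d9c5667358ad55bb6 (k8 c24674 c5573 c5422 c5421 c5419 c5574 c5571 c24647 (k8 c24599 c19356 c5373 c9696 c5228 c5332 c5516 c5518 (k8 c24679 c664 c5649 c19296 c24682 c5224 c24649 c24681 (k8 c5559 c1060 c10145 c24206 c20793 c24231 c2141 c6368 k0)))) (by decide +kernel)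
def c24684 : PP 9 3 T 0x1000000000000010000000000000000000000000000000000000000000000000000000000000000000000000000000000000000000000000000000000002 := rS 0x7fee03916b23d2090c682409320dcf530aabbfb154a54ce1d7ea5d5fb211c450e6b94e70e7b6 (k8 c24674 c5419 c24599 c19356 c5523 c5373 c5371 c9731 (k8 c24683 c5406 c5404 c5405 c5486 c5487 c5488 c5489 (k8 c24253 c24660 c24060 c24661 c1924 c24440 c24241 c1061 (k8 c1060 c24665 c20787 c24077 c24068 c5559 c2968 c20806 (k2 c5281 c441 (k1 c24120 k0)))))) (by decide +kernel)
def c24685 : PP 9 3 T 0x20000000000000000000000000000000000000000000000000000000000000000000000000000000000000000000000000000010000002 := rS 0x95498ee96f20f3f0346778864068735a5c6a33f0b37bdb194cef679c (k8 c24599 c18383 c24647 c19356 c24101 c5224 c5495 c22337 (k8 c5492 c5450 c20692 c5523 c5373 c28 c9701 c9696 (k8 c664 c5649 c23062 c24585 c1076 c5517 c448 c17730 (k2 c1905 c24188 k0)))) (by decide +kernel)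
def c24686 : PP 9 3 T 0x1000000000000000000000000000000000000000000000000000000000000000000000000000000000000000000000000040000000000000000000000002 := rS 0xae801bc4b58a596ce2b339ac56b15f7f7b63299decf3843569144fb67987043b4 (k8 c24684 c5528 c24685 c333 c24674 c5570 c335 c5573 (k8 c2000 c24599 c18383 c24647 c19356 c24101 c5224 c24649 (k8 c5414 c5422 c5421 c5419 c5574 c5571 c1994 c20814 (k4 c24226 c5559 c1060 c24602 (k2 c19290 c3070 k0))))) (by decide +kernel)
def c24687 : PP 9 3 T 0x1000000000000000000000000000000000000000000000000000000000000000000000000000000000000000000000000000000000000000000000000002 := rS 0x899bc271cac82e94662290c39efef6c766a910ed10e9135a3e539c9d9c5662739ad55bb6 (k8 c24674 c5573 c5422 c5419 c5570 c5574 c5571 c24647 (k8 c24599 c19356 c5526 c5523 c5374 c5373 c24684 c5528 (k8 c5531 c18383 c24101 c5224 c24649 c24685 c2000 c335 (k8 c24686 c18387 c5516 c9399 c5658 c20813 c1061 c12633 (k1 c18007 k0))))) (by decide +kernel)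
def c24688 : PP 9 3 T 0x2 := rS 0x74160f8e43a3418a586e9530b2527b0a5ecd5067eff85faf368aafd93b949ad0e7b88e71e203 (k8 c28 c9696 c24599 c5371 c5372 c5373 c5523 c19356 (k8 c24647 c24687 c5500 c5501 c5540 c5542 c24304 c24161 (k8 c24671 c24060 c5489 c23196 c5224 c5444 c5396 c5445 (k8 c5446 c24235 c24132 c24254 c24668 c331 c439 c2320 (k2 c24302 c5654 (k1 c1677 k0)))))) (by decide +kernel)
def c24689 : PP 9 3 T 0x80000000000000000000000000000 := rS 0x1 (k2 c24688 c9719 k0) (by decide +kernel)
def c24690 : PP 9 3 T 0x200000000000000000000000000000000000000000000000000000000000000000000 := rS 0x1 (k2 c24688 c9730 k0) (by decide +kernel)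
def c24691 : PP 9 3 T 0x4 := rS 0x1 (k2 c24688 c24049 k0) (by decide +kernel)
def c24692 : PP 9 3 T 0x8000000 := rS 0x2 (k2 c24691 c20794 k0) (by decide +kernel)
def c24693 : PP 9 3 T 0x20000000 := rS 0x2 (k2 c24691 c20811 k0) (by decide +kernel)
def c24694 : PP 9 3 T 0x200000000 := rS 0x2 (k2 c24691 c24084 k0) (by decide +kernel)
def c24695 : PP 9 3 T 0x800000 := rS 0x2 (k2 c24691 c24082 k0) (by decide +kernel)
def c24696 : PP 9 3 T 0x8000000000000000000000000000000000000 := rS 0x2 (k2 c24691 c24022 k0) (by decide +kernel)
def c24697 : PP 9 3 T 0x2000000000000004000020000000000000000100040004000000000000000000000000000000000000000000000000000000000000000001000000000000 := rS 0x883cf9e87c5b64fa84c31d25907dee3f08e9386b3d8e468330cec252f0efb45e6930b8040511 (k8 c24690 c24691 c24688 c24695 c24696 c5540 c5501 c24161 (k8 c22131 c19356 c5224 c5393 c385 c5653 c439 c5372 (k8 c5523 c24204 c13264 c24304 c8999 c24106 c15626 c562 (k8 c17740 c5445 c5398 c5448 c5229 c5166 c24243 c24107 (k2 c24184 c22927 (k1 c2971 k0)))))) (by decide +kernel)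
def c24698 : PP 9 3 T 0x6000000000000000000020000000000000000000000000000000000000000000000080400000000000000000000000000000000000000000000000000000 := rS 0x23206d289a1e02ff48a3fbed1 (k8 c5501 c24161 c5526 c5374 c5544 c5502 c5499 c24070 (k4 c12713 c2517 c20819 c24056 k0)) (by decide +kernel)
def c24699 : PP 9 3 T 0x2000000000000010000020000000000000000000040004000000000000000000000000000000000000000000000000000040000000000000000000000000 := rS 0x3e48d40c4ce03fdbe85beb514d61ae41f7b8c742280b3dffe10f985387b1c8d062964a8cc33b094bc366a835a1dfaabefb45e6933985c0511 (k8 c24690 c24691 c24695 c24689 c24696 c5540 c5501 c24161 (k8 c5500 c5542 c5499 c5523 c24060 c5489 c22131 c19356 (k8 c5224 c5393 c385 c5446 c24132 c24254 c5653 c439 (k8 c5372 c24204 c5445 c1111 c24304 c5544 c5543 c5502 (k8 c6197 c13264 c8999 c24106 c15626 c1763 c24697 c5339 (k8 c1339 c24698 c24162 c22427 c495 c24166 c24043 c751 (k2 c753 c24270 (k1 c24151 k0)))))))) (by decide +kernel)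
def c24700 : PP 9 3 T 0x2000000000000010000020000000000000000000000004000000000000000000000000000000000000000000000000000040000000000000000000000000 := rS 0x163ba50e40e34188dc66964e25433b0783ccf60d94f7da3b3541ad0efd5585e2202 (k8 c24691 c24690 c24695 c5500 c5542 c5499 c5523 c24060 (k8 c5489 c5501 c24161 c19356 c5522 c5372 c5540 c22131 (k8 c5224 c5393 c5446 c24204 c24132 c385 c1479 c24254 (k4 c5653 c20806 c439 c24699 (k2 c5332 c5516 (k1 c24030 k0)))))) (by decide +kernel)
def c24701 : PP 9 3 T 0x2000000000000010000020000000000000000000000008000000000000000000000000000000000000000000000000000000000000000000000000000000 := rS 0xc1919ec06f4b7abdd0fe13dca598cf6887cd602 (k8 c24691 c5523 c1111 c5501 c5543 c24105 c19356 c5372 (k8 c24304 c5499 c5498 c5477 c18477 c2329 c22097 c24628 (k2 c5393 c24160 (k1 c24300 k0)))) (by decide +kernel)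
def c24702 : PP 9 3 T 0x2000000000000010000020000000000000000000040000000000000000000000000000000000000000000000000000000000000000000000000000000000 := rS 0x7c91a81899c07fb7d0b7daeb558fbc822971d60683a188e445017ff8598cf0f985386b3d8cc33b094f7da2f0d999a76933985c0511 (k8 c24690 c24691 c24695 c24689 c24696 c24701 c24700 c5487 (k8 c22131 c5501 c24161 c19356 c5224 c5393 c385 c5372 (k8 c5523 c24204 c5445 c1111 c5543 c24105 c24304 c5544 (k8 c5502 c6197 c395 c1917 c13264 c5653 c24697 c8999 (k8 c5339 c5340 c24106 c1330 c1339 c1763 c24698 c24162 (k8 c22427 c495 c24166 c24043 c751 c754 c24270 c24151 k0)))))) (by decide +kernel)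
def c24703 : PP 9 3 T 0x2000000000000010000020000000000000000000000000000000000000000000000000000000000000000000000000000000000000000000000000000000 := rS 0x68311c01cb4f5058ee943719a7033b0786cccd3b6677e526b069eda2f36785e2202 (k8 c24691 c24690 c24695 c5543 c5540 c5501 c5372 c5522 (k8 c5523 c19356 c24161 c24105 c24701 c24700 c5487 c22131 (k8 c5224 c5393 c24204 c385 c1479 c24702 c5332 c5516 (k4 c5519 c20814 c24299 c24158 (k2 c1916 c24133 (k1 c439 k0)))))) (by decide +kernel)
def c24704 : PP 9 3 T 0x2000000000000012000000000000000000000000000000000100000000000000000000000000000000000000000000000000000000000000000000000000 := rS 0x19a97180d7be331c25536c90caada2f37eb3fc2237aaa53a99353c3674a9d87f3a210b8083711 (k8 c24690 c24692 c24691 c24695 c24694 c24703 c9664 c22726 (k8 c5211 c17763 c22131 c24038 c24080 c24081 c20804 c5519 (k8 c9733 c24304 c5543 c5542 c5540 c5501 c5500 c5393 (k8 c5396 c5397 c5446 c17923 c385 c17889 c439 c5653 (k2 c24255 c1916 (k1 c3617 k0)))))) (by decide +kernel)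
def c24705 : PP 9 3 T 0x50000110000000000000000000000000000000000000000000000000000000000400000000000000000000000004000000005000000000 := rS 0x2d3e41f2491e9421 (k8 c24694 c5211 c5520 c5334 c9664 c5241 c23489 c5548 k0) (by decide +kernel)
def c24706 : PP 9 3 T 0x2000000000000090000000000000000000000000000000000100000000000000000400000000000000000000000000000000000000000000000000000000 := rS 0x1ae8146b7fe6908a2d4464923894224b13861669f588a6b07a66f79a28767bc2761fd9d2935b1f0a75326ace88622730d8092617 (k8 c24695 c24696 c24691 c24692 c24689 c24690 c24694 c24703 (k8 c24038 c24080 c24081 c24304 c24704 c5679 c5211 c17763 (k8 c9664 c22726 c22131 c5543 c5499 c5501 c5224 c5495 (k8 c24057 c22786 c5339 c1330 c24268 c2497 c5648 c380 (k8 c5342 c5558 c5559 c5520 c5334 c9733 c5422 c17941 (k4 c23480 c17998 c2951 c10035 (k2 c908 c10298 (k1 c24134 k0)))))))) (by decide +kernel)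
def c24707 : PP 9 3 T 0x2000000000000050000000000000000000000000000000000100000000000000000000000000000000000000000000000000000000000000000000000000 := rS 0x78fe68dd03544a4b13861669f588a6b07a66f79a28767bc2761fd9d2935b1f0a75326acec44e61b108092617 (k8 c24695 c24696 c24691 c24694 c24692 c24689 c24690 c24703 (k8 c24038 c24080 c24081 c24304 c24704 c5679 c5211 c17763 (k8 c9664 c22726 c22131 c5543 c5499 c5501 c5224 c5495 (k8 c24057 c22786 c5339 c1330 c24268 c2497 c5648 c380 (k8 c5342 c5559 c5454 c24705 c5381 c20903 c24230 c5198 k0))))) (by decide +kernel)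
def c24708 : PP 9 3 T 0x2000000000000010000000000000000000000000000000000100000000000000000000000000000000000000000000000000000000000000000000000000 := rS 0x71edb63e14c9ab3b11 (k8 c24690 c24703 c24038 c24080 c24304 c24704 c24707 c6448 (k1 c24706 k0)) (by decide +kernel)
def c24709 : PP 9 3 T 0x2000000000000010000000000000000000000000000000000000000000000000000000000000000000000000000000000000000000000000000000000000 := rS 0x66a5d93b14d06650f04ca75533bd9bd46e3b3507e9423cebddfa9301086221b (k8 c24692 c24690 c24694 c24691 c24696 c5542 c5498 c24703 (k8 c9733 c5211 c9664 c24038 c5332 c5518 c5519 c17763 (k8 c22726 c20804 c24081 c24080 c22131 c24708 c5315 c24237 (k4 c18438 c1177 c1231 c13053 (k1 c22743 k0))))) (by decide +kernel)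
def c24710 : PP 9 3 T 0x2000000000000001000000000000000000000000080000000200000000000000000000000000000000000000000000000000000000000000000040000000 := rS 0x66a5d929a786cdea3b7bbcdfa234ea6553b40c8e46f3b038cd26021085c361d (k8 c24693 c24692 c24695 c24694 c24691 c24696 c5316 c5432 (k8 c24160 c5435 c5317 c5315 c24709 c5531 c5530 c5412 (k8 c5409 c5542 c5540 c5498 c5332 c5519 c17763 c17949 (k4 c3578 c1177 c1231 c13053 (k1 c22743 k0))))) (by decide +kernel)
def c24711 : PP 9 3 T 0x2000000000000005000000000000000000000000040000000200000000000000000000000000000000000040000000000000000000000000000000000000 := rS 0x76f50602cf4cd7ba1da2cf54ed06f9d64bc27607198652602 (k8 c24691 c24696 c5315 c5316 c5432 c24160 c22131 c1177 (k8 c19356 c5435 c24709 c5531 c5543 c5501 c5499 c5498 (k4 c13053 c24057 c690 c24034 (k2 c20810 c24024 (k1 c22743 k0))))) (by decide +kernel)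
def c24712 : PP 9 3 T 0x2000000000000000000000000000000000000000000000000200000000000000000000000000000000000080000000000000000000000000000040000000 := rS 0x136fd4eed12711 (k4 c24690 c24696 c24709 c5412 (k2 c5542 c1231 (k1 c24245 k0))) (by decide +kernel)
def c24713 : PP 9 3 T 0x2000000000000001000000000000000000000000000000000200000000000000000000000000000000000000000000000000000000000000000040000000 := rS 0x160d353d0cef1d925e96f743bcdfaa9da674361d (k8 c24693 c24692 c19356 c24709 c5531 c5542 c5540 c5499 (k8 c5498 c24710 c24712 c24711 c5401 c5487 c17991 c20831 (k2 c20810 c2305 (k1 c24034 k0)))) (by decide +kernel)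
def c24714 : PP 9 3 T 0x2000000000000080000000000000000000000000000000000200000000000000000000000000000000000000000000000000000000000000000080000000 := rS 0x564539dd93c5fb3b19f7d987b0501da287678083693 (k8 c24696 c24692 c24691 c5543 c5499 c5501 c5432 c1112 (k8 c690 c24057 c5495 c5316 c24160 c5542 c1215 c22131 (k4 c19356 c5417 c18617 c22695 k0))) (by decide +kernel)
def c24715 : PP 9 3 T 0x40000000000000000000000100000000000000000000000000000000000000000000000000000000000000000000000000010000000000 := rS 0x378934002 (k4 c24691 c5212 c21947 c5565 (k1 c1113 k0)) (by decide +kernel)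
def c24716 : PP 9 3 T 0x2000000000000040000110000000000000000000000000000000000000000000000000000000000000000001400000004840000000000000000000000000 := rS 0x46c0ce11343c05fe73 (k8 c24689 c5544 c5502 c5499 c2601 c5666 c24432 c753 (k1 c20819 k0)) (by decide +kernel)
def c24717 : PP 9 3 T 0x2000000000000001000000000000000000000000000000000200000000000000000000000000000000000401000000000000000000000000010000000000 := rS 0x16b12f7a83e69f6589d626e47e848e4112d6202ffda0647e3dce9a81467d93c5fb3b038cf6e1e0da4c2e02 (k8 c24691 c24695 c24696 c24692 c24713 c24714 c5316 c5432 (k8 c24160 c5542 c1215 c22131 c5487 c1112 c1111 c19356 (k8 c5436 c5318 c5315 c24709 c5544 c5502 c24715 c5559 (k8 c5340 c5562 c24271 c2311 c24716 c20792 c24067 c24062 (k4 c24029 c15208 c3579 c17816 (k2 c12878 c1199 (k1 c23259 k0))))))) (by decide +kernel)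
def c24718 : PP 9 3 T 0x2000000000000001000000000000000000000000000000000200000000000000000000000000000000000401000000000000000000000000000000000000 := rS 0xdf71b851e8189ad08c49d0564de2811ed06e3da592cd47b050780e02 (k8 c24691 c5432 c24713 c1112 c690 c1111 c4724 c5517 (k8 c5436 c5435 c24709 c5409 c24717 c12618 c5339 c8199 (k8 c509 c1312 c1311 c2601 c5380 c5568 c6188 c2347 (k2 c2514 c24027 k0)))) (by decide +kernel)
def c24719 : PP 9 3 T 0x2000000000000000000000000000000000000100000000000200000000000000000000000000000000000801000000000000000000000000000080000000 := rS 0xdf71b8604d722a84928f89a350228d021e02ff11ed0323d9d8ce96f17e92cd47b0501f6e02 (k8 c24691 c24714 c5432 c1112 c690 c1111 c4724 c5542 (k8 c1215 c5517 c5316 c24160 c5436 c5315 c24709 c5409 (k8 c5544 c5502 c5499 c5212 c24715 c5380 c5381 c5382 (k8 c5568 c509 c1195 c456 c24238 c20762 c6188 c2622 (k2 c2517 c24027 k0))))) (by decide +kernel)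
def c24720 : PP 9 3 T 0x2000000000000001000000000000000000000000000000000200000000000000000000000000000000000001000000000000000000000000000000000000 := rS 0x38dc31269f8fe6444fb2c4eb1389b91fa1238a44b584d3ffc3b40c8fc7b9d35330f60a68a1d9e67d93c5fb3b038cf6e1e4985c0473 (k8 c24689 c24691 c24695 c24696 c24713 c24714 c5316 c5432 (k8 c24160 c5542 c1215 c22131 c5487 c5543 c5499 c5501 (k8 c1112 c690 c24057 c1111 c19356 c5436 c5318 c5315 (k8 c24709 c24304 c5544 c24718 c24719 c5559 c5339 c5562 (k8 c24271 c2311 c24716 c65 c20792 c24067 c24062 c24029 (k8 c20912 c15208 c17994 c2936 c12878 c17839 c2624 c24098 k0)))))) (by decide +kernel)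
def c24721 : PP 9 3 T 0x2000000000000001000000000000000000000000000000000200000000000000000000000000000000000000000000000000000000000000000000000000 := rS 0x2b229128408ff3486dc960a3552c3c02 (k8 c24691 c24713 c5517 c1111 c1112 c4724 c24714 c24720 (k4 c5589 c24069 c694 c20674 (k2 c1312 c5558 (k1 c21947 k0)))) (by decide +kernel)
def c24722 : PP 9 3 T 0x2000000000000000000000000000000000000000000000000200000000000000000000000000000000000000000000000000000000000000000000000000 := rS 0x3d9ac140d1d07de14bd9ec2779d038e466fd11a7533b4888840417 (k8 c24695 c24691 c24694 c24690 c24709 c5530 c5412 c5409 (k8 c5542 c5316 c5317 c5432 c19356 c24160 c24721 c24253 (k8 c17923 c22131 c1215 c18438 c24024 c24034 c2305 c690 (k1 c24204 k0)))) (by decide +kernel)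
def c24723 : PP 9 3 T 0x2000400000000000000000000000000000000000000004000000000000000000000000000000000000000000000008000000000000000004000000000800 := rS 0x62351d019a329 (k4 c24722 c5501 c690 c691 (k2 c20806 c1678 (k1 c5653 k0))) (by decide +kernel)
def c24724 : PP 9 3 T 0x10000000000000000000000000000000000000000000000000000000000000000000000000000000000000000800000000000400 := rS 0x1b4b (k2 c5332 c24024 (k1 c24034 k0)) (by decide +kernel)
def c24725 : PP 9 3 T 0x2000000000000002000000000000000000000000000000000000000000000000000000000000000000000000000000000400000000000000000040000000 := rS 0x3696f46625c60351c0ec16373d2ada2f37eb3c469d4caa652c94da573bdf19bc277b4d986442930bc44041d (k8 c24693 c24691 c24690 c24695 c24696 c24694 c5393 c24253 (k8 c24709 c17757 c22131 c385 c17700 c24205 c5446 c5397 (k8 c5396 c24722 c5531 c5530 c5412 c5409 c5543 c5542 (k8 c5540 c5501 c5500 c24204 c24075 c24723 c24724 c3578 (k8 c439 c5653 c24255 c3617 c1916 c5519 c20810 c24175 k0))))) (by decide +kernel)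
def c24726 : PP 9 3 T 0x10000000000000000000000000000000000000000020000000000000000000000000000000000000000000000000000000000400 := rS 0x1b4b (k2 c5519 c20810 (k1 c24034 k0)) (by decide +kernel)
def c24727 : PP 9 3 T 0x2000000000000002000000000000000000000000000000000000000000000010000000000000000000000000000000000000000000000002000000000000 := rS 0xcd4baada2fd67a7532a9da3253695 (k8 c5446 c5397 c5396 c24709 c5531 c5530 c5412 c5543 (k4 c5542 c5501 c5500 c24255 (k2 c1916 c3617 k0))) (by decide +kernel)
def c24728 : PP 9 3 T 0x2000000000000002000000000000000000000000000000000000000000000000000000000000000000000000000000000000000000000000000040000000 := rS 0x1c8dc68317a8ec166a19bc276f311a7533290ca6f679defed042930b8083b11 (k8 c24690 c24693 c24691 c24695 c24696 c24694 c24709 c17700 (k8 c24205 c24253 c5397 c5393 c24722 c5530 c5412 c5409 (k8 c5540 c17757 c22131 c385 c24725 c2305 c24724 c24726 (k4 c24727 c5653 c1622 c439 (k1 c3578 k0))))) (by decide +kernel)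
def c24729 : PP 9 3 T 0x2000000000000002000000000000000000000200000000000000000000000000000000000000000000000000000000000000000000000000000000000000 := rS 0x2c55aaf139b96871897cd23a123c74521112acf3bb4a5834d40a2191674f10f3f7661b0e8080311 (k8 c24690 c24688 c24691 c24693 c24692 c24253 c5542 c24728 (k8 c1215 c22131 c5326 c5478 c1112 c1111 c2362 c5517 (k8 c24709 c24205 c5532 c5559 c5558 c5339 c5341 c5562 (k8 c20946 c24174 c17748 c12878 c24113 c2600 c2601 c268 (k4 c1248 c20758 c20792 c3582 k0))))) (by decide +kernel)
def c24730 : PP 9 3 T 0x2000000000000002000000000000000000000000000000000000000000000000000000000000000000000000000000000000000000000000000000000000 := rS 0x1ad0371fc999a13dedab33a78d2c3ddfceecd0ed17eb3dffe154ed00511 (k8 c24690 c24691 c24709 c5531 c24304 c5544 c5543 c5542 (k8 c5501 c5499 c24253 c24205 c17700 c24728 c5517 c1215 (k8 c22131 c24729 c20351 c22786 c24139 c24057 c5221 c5549 (k2 c5550 c10866 (k1 c2191 k0))))) (by decide +kernel)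
def c24731 : PP 9 3 T 0x2000000000000000000010000000000000000000000008000000000000000000000000002000000000000000000000000000000000000000000000000000 := rS 0x370f3d431b1948092617 (k8 c24695 c24696 c24691 c24722 c24730 c5648 c5477 c22726 (k2 c2329 c1165 k0)) (by decide +kernel)
def c24732 : PP 9 3 T 0x2000000000000000000010000000000000000100000000000000000000000000000000000000000000000000000004000000000000000000000080000000 := rS 0x496fb8f40286a6ddfe23da6ca77df663450ecf050d831b1948092617 (k8 c24695 c24696 c24691 c24722 c24730 c5648 c1165 c1112 (k8 c5543 c5499 c5501 c24057 c5495 c24731 c5224 c24709 (k8 c5409 c5544 c22695 c20299 c24715 c5212 c1662 c3002 (k2 c509 c24154 k0)))) (by decide +kernel)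
def c24733 : PP 9 3 T 0x1000000000000000200000000000000000200000000000000000000000000000140000000000000000001400004000000000000000008000000000000 := rS 0x6a911c41389a35025b (k8 c24089 c5380 c5381 c5382 c5564 c24027 c20837 c17679 (k1 c390 k0)) (by decide +kernel)
def c24734 : PP 9 3 T 0x8000100000000000000000200000000000000000000000000000000000000000000000000000000010000000000100000000000000000 := rS 0x1b67886ce602 (k4 c24691 c24689 c24692 c5401 (k2 c21890 c17812 k0)) (by decide +kernel)
def c24735 : PP 9 3 T 0x2000000000000000000010000000000000000000000000000000000000000000000000000000000000000000000004000000000000000000000080000000 := rS 0x6dd43e36a0f8889f38e85be8f7091c7b5848bd06436057862bb4658615fb29dca763df663450ecf398092617 (k8 c24695 c24696 c24691 c24689 c5543 c5499 c5501 c24057 (k8 c5495 c24730 c24722 c24731 c5224 c5406 c5648 c22045 (k8 c24709 c5414 c24304 c1112 c1165 c2330 c2329 c10333 (k8 c24732 c5560 c5562 c1483 c2311 c2331 c24733 c24148 (k8 c24261 c24734 c389 c390 c5576 c3000 c17882 c5680 k0))))) (by decide +kernel)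
def c24736 : PP 9 3 T 0x2000000000000000000010000000000000000000000000000000000000000000000000000000000000000000000004000000000000000000000000000000 := rS 0x16f40f9a8cef1d94edeef37eaa76929d8f7d98d143b3c361d (k8 c24693 c24692 c5543 c5499 c5501 c24057 c5495 c24730 (k8 c24722 c24709 c5531 c5542 c5540 c5498 c24731 c5224 (k4 c5401 c5487 c20831 c24735 (k2 c17991 c2305 (k1 c24726 k0))))) (by decide +kernel)
def c24737 : PP 9 3 T 0x2000000000000000000000000000000000000000000000000000000000000000000000000000000000000000000004000000000000000000000000000000 := rS 0x4e83fb335e73becc43b459fb494ec43a02 (k8 c24691 c24693 c24730 c24722 c24709 c5543 c5501 c5499 (k8 c24057 c5495 c24736 c5523 c18383 c1111 c5224 c17757 k0)) (by decide +kernel)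
def c24738 : PP 9 3 T 0x2000000000000000000000000000000000000000000000000000000000000000000000100000000000000000000000020000000000000000000000000000 := rS 0x7891aa1dbb2d3eb114d6277b3783d4163b11a773aa9da3ddfa1f1b9e831b179ca4e6930b8743602 (k8 c24691 c24692 c24693 c24695 c24696 c24689 c24722 c5540 (k8 c24730 c5648 c24737 c24075 c1165 c5542 c5498 c24709 (k8 c5531 c5372 c5412 c5409 c12293 c691 c24726 c17991 (k8 c5401 c17757 c22786 c5339 c1330 c24268 c22045 c5571 (k4 c24032 c754 c5680 c24230 k0))))) (by decide +kernel)
def c24739 : PP 9 3 T 0x2000000000000000000200000000000000000000000000000000000000000000000400000000000000000000000000000000000000000000000000000000 := rS 0xd6f9a35a3e169f79be274fac677b3783d4163b4ee7552f77e87c6ef3238a496230c6c65225ac1e96715da08404930b9cc3a1b (k8 c24692 c24693 c24689 c24695 c24696 c24691 c24694 c24709 (k8 c5414 c5532 c24737 c22786 c5559 c24722 c24730 c5648 (k8 c5409 c5342 c5339 c5562 c5540 c24075 c1165 c5542 (k8 c5498 c5531 c5372 c5412 c12293 c691 c24726 c17991 (k8 c5401 c17757 c1330 c24268 c380 c18065 c5224 c5496 (k4 c24304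 c5501 c5381 c20903 (k2 c24052 c10298 k0))))))) (by decide +kernel)
def c24740 : PP 9 3 T 0x2000000000000000000000000000000000000000040000000000000000000000000000000000000000000000000000000000000000000000000000000000 := rS 0x40a35ae90f99216ba138b55c635060e1a3e1088f46697ef37c4e9f58cef66f07a82c769dceaa5eefd0f8dde6471492c4618d8ca44b583d2ce2bb41080404930b9cc3a1b (k8 c24692 c24693 c24689 c24695 c24696 c24691 c24688 c24694 (k8 c24709 c5414 c5532 c24737 c22786 c5559 c24722 c24730 (k8 c5648 c5409 c5342 c5339 c5562 c5540 c24075 c1165 (k8 c5542 c5498 c5531 c5372 c5412 c12293 c691 c24726 (k8 c17991 c5401 c17757 c1330 c24268 c380 c18065 c5224 (k8 c20692 c386 c5560 c5558 c24304 c5501 c10458 c24034 (k8 c439 c2617 c21481 c24738 c24739 c23494 c3584 c17998 (k4 c294 c10298 c10035 c908 (k1 c24134 k0))))))))) (by decide +kernel)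
def c24741 : PP 9 3 T 0x2000000000000000000000000000000000000000000000000000000000000000000000000000000000000000000000000000000000000000000000000000 := rS 0x35d1ba0561bd5f13f9ad0e3efdb925ab4a13b4d3fde58ecde13b7a91c96291287c17581be74f4cb1d863632959aa62a9d11ed1faf37b9cc421b0e8092617 (k8 c24695 c24696 c24691 c24693 c24692 c24694 c24689 c5498 (k8 c5540 c5542 c24709 c5409 c5412 c5414 c5531 c5532 (k8 c24722 c24730 c5648 c12293 c22045 c24737 c5372 c24075 (k8 c22786 c691 c1165 c5559 c5339 c5342 c5562 c24726 (k8 c17757 c17991 c5401 c1330 c5224 c24268 c5496 c380 (k8 c24740 c5454 c5334 c9399 c14774 c24738 c3584 c17931 (k8 c17871 c1248 c1149 c5683 c5666 c2031 c2033 c24052 k0))))))) (by decide +kernel)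
def c24742 : PP 9 3 T 0x100000000000000000000000000000000000000000000000000000000005000000540000000000000000000000000000540001000000 := rS 0x2e93 (k2 c24696 c24695 (k1 c3580 k0)) (by decide +kernel)
def c24743 : PP 9 3 T 0x4000000000000000002000000000 := rS 0x2 (k2 c24691 c1113 k0) (by decide +kernel)
def c24744 : PP 9 3 T 0x1000000000000000000000000000000000100000000000000000000000000000000000000000000000000000000000000000001000000 := rS 0x12617 (k2 c24695 c24696 (k1 c5648 k0)) (by decide +kernel)
def c24745 : PP 9 3 T 0x1400000000000000000000001400000001400000014400000000000000000000000000 := rS 0x22273 (k2 c24689 c24690 (k1 c24037 k0)) (by decide +kernel)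
def c24746 : PP 9 3 T 0x10000010000000000000000000000000000000000000000000000000000000000000000000000000000400000000000000000000000000 := rS 0x111 (k2 c24690 c24038 k0) (by decide +kernel)
def c24747 : PP 9 3 T 0x8000002000000000 := rS 0x17 (k2 c24695 c2910 k0) (by decide +kernel)
def c24748 : PP 9 3 T 0x80000400 := rS 0x2 (k2 c24691 c1112 k0) (by decide +kernel)
def c24749 : PP 9 3 T 0x1500000004000401000000000000000000000000 := rS 0x111 (k2 c24690 c24047 k0) (by decide +kernel)
def c24750 : PP 9 3 T 0x2000080000 := rS 0x1 (k2 c24688 c2805 k0) (by decide +kernel)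
def c24751 : PP 9 3 T 0x1000000000000000000000001400000000000000000000000005400000015440000000 := rS 0x21 (k2 c24694 c3584 k0) (by decide +kernel)
def c24752 : PP 9 3 T 0x800000002000000000000000000000000000000000000 := rS 0x111 (k2 c24690 c2897 k0) (by decide +kernel)
def c24753 : PP 9 3 T 0x40000000000000000000000000000000000000000002000000000000000000000000000000400000000 := rS 0x2e21 (k2 c24694 c24695 (k1 c5855 k0)) (by decide +kernel)
def c24754 : PP 9 3 T 0x110011400000000000000000000000000000000000000000000000000000000000000000000000000000000000000000000000000000000000000000000000 := rS 0x1ed (k2 c24741 c5205 k0) (by decide +kernel)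
def c24755 : PP 9 3 T 0x44000000000000000000000000000000000000000000000000000000000054000000000000000000000000000000000000000000000000000000000000000 := rS 0x1ed (k2 c24741 c5694 k0) (by decide +kernel)
def c24756 : PP 9 3 T 0x1400000000000000000000000000000000000000000000000000000000000000000015000000000000000000000000000000000000000000000000000 := rS 0x1ed (k2 c24741 c5688 k0) (by decide +kernel)
def c24757 : PP 9 3 T 0x44000000000000054000000000000000000000000000000000000000000000000000000000000000000000000000000000000000000000000000000000000 := rS 0x1ed (k2 c24741 c5201 k0) (by decide +kernel)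
def c24758 : PP 9 3 T 0x14000000000000000000000000000000000000000000001000000000000000000005000000000000000000000000000000000000000000 := rS 0x1ed (k2 c24741 c5682 k0) (by decide +kernel)
def c24759 : PP 9 3 T 0x14000000000000000000000000040004000000000000000000000000000000000000000000000000000000000000000000000000000000 := rS 0x1ed (k2 c24741 c5228 k0) (by decide +kernel)
def c24760 : PP 9 3 T 0x1400000000000000000000000000000000000040004000100000000000000000000000000000000000000000000000000000000000000000000000000 := rS 0x1ed (k2 c24741 c5165 k0) (by decide +kernel)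
def c24761 : PP 9 3 T 0x40004000000000000000054000000000000000000000000000000000000000000000000000000000000 := rS 0x1ed (k2 c24741 c5657 k0) (by decide +kernel)
def c24762 : PP 9 3 T 0x44000000000000000000000000000000000000100040004000000000000000000000000000000000000000000000000000000000000000000000000000000 := rS 0x1ed (k2 c24741 c5171 k0) (by decide +kernel)
def c24763 : PP 9 3 T 0x400000000000000000080000000 := rS 0x2 (k2 c24691 c1111 k0) (by decide +kernel)
def c24764 : PP 9 3 T 0x80002000 := rS 0x1 (k2 c24688 c2362 k0) (by decide +kernel)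
def c24765 : PP 9 3 T 0x2000000000000000000000000000000080000000 := rS 0x2 (k2 c24691 c4013 k0) (by decide +kernel)
def c24766 : PP 9 3 T 0x200000080000000 := rS 0x17 (k2 c24695 c2473 k0) (by decide +kernel)
def c24767 : PP 9 3 T 0x1055000000000000000005000000000000000000000000000000000440000000 := rS 0x843a1b (k4 c24692 c24693 c24694 c3581 k0) (by decide +kernel)
def c24768 : PP 9 3 T 0x20000000000000000000000000000000000000000000001055000000000000000001000000000000000000000000000000000040000000 := rS 0x3a1b (k2 c24692 c24693 (k1 c17991 k0)) (by decide +kernel)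
def c24769 : PP 9 3 T 0x1000000000100000000000050000000000000000000000015000001000000 := rS 0xba4c361d (k4 c24693 c24692 c24696 c24695 (k1 c3577 k0)) (by decide +kernel)
def c24770 : PP 9 3 T 0x200000000000000000000000000080000000000000000 := rS 0x1b (k2 c24692 c1931 k0) (by decide +kernel)
def c24771 : PP 9 3 T 0x10000000000000000000000000000000000000000000001000000000000000000001000000000000000080000000000000000000000000 := rS 0x1ed (k2 c24741 c24059 k0) (by decide +kernel)
def c24772 : PP 9 3 T 0x1000000000000000000005000000004000000440000000000000000000000000 := rS 0x111 (k2 c24690 c24060 k0) (by decide +kernel)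
def c24773 : PP 9 3 T 0x100000000001000000000000000150000000000000000000000000140000015000000000 := rS 0x3a1b (k2 c24692 c24693 (k1 c3582 k0)) (by decide +kernel)
def c24774 : PP 9 3 T 0x1000000000000000000000000000000000000000000000000000000000000000000000000000000000000000000000008000001000000 := rS 0x2e1d (k2 c24693 c24695 (k1 c5284 k0)) (by decide +kernel)
def c24775 : PP 9 3 T 0x400000010044000040000000004000000000000000000001000000000000000000000000000000000000000000000000540000000000 := rS 0x3a1b (k2 c24692 c24693 (k1 c3583 k0)) (by decide +kernel)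
def c24776 : PP 9 3 T 0x200000002000000000 := rS 0x1b (k2 c24692 c2969 k0) (by decide +kernel)
def c24777 : PP 9 3 T 0x200000000000000000000000000000000000002000000000000 := rS 0x1b (k2 c24692 c1914 k0) (by decide +kernel)
def c24778 : PP 9 3 T 0x8000000000000000000000000000000000000000000000000000080000000 := rS 0x1b (k2 c24692 c2533 k0) (by decide +kernel)
def c24779 : PP 9 3 T 0x150000000100000014040000000000000000000000000 := rS 0x73 (k2 c24689 c20793 k0) (by decide +kernel)
def c24780 : PP 9 3 T 0x400000000014000000000000000000000015000015001000000 := rS 0x2e93 (k2 c24696 c24695 (k1 c3579 k0)) (by decide +kernel)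
def c24781 : PP 9 3 T 0x100000000000000000000000000000000000800000000000000000000000000000041000000 := rS 0x93 (k2 c24696 c6036 k0) (by decide +kernel)
def c24782 : PP 9 3 T 0x1500000000000000000000000540000441000000 := rS 0x5d2621 (k4 c24694 c24696 c24695 c3578 k0) (by decide +kernel)
def c24783 : PP 9 3 T 0x80000000000000000000000000200000000000000000000000000000000000000000000000 := rS 0x73 (k2 c24689 c3305 k0) (by decide +kernel)
def c24784 : PP 9 3 T 0x20000000000000000000000000000008000000000 := rS 0x93 (k2 c24696 c2928 k0) (by decide +kernel)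
def c24785 : PP 9 3 T 0x1000000000000000000000000000000000000000000000000000000000000000000000000000000000000080000000000 := rS 0x2 (k2 c24691 c1115 k0) (by decide +kernel)
def c24786 : PP 9 3 T 0x40000000000000000000000000000000000000000000000000000000000000000000000000000000000000000000000080000000000 := rS 0x2 (k2 c24691 c1116 k0) (by decide +kernel)
def c24787 : PP 9 3 T 0x40000100000000000000000000000000000000000000000000000000000000000000000000000000014000000000000000000000000000 := rS 0x73 (k2 c24689 c5666 k0) (by decide +kernel)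
def c24788 : PP 9 3 T 0x80000000000000000000000000000000008000000000 := rS 0x1d (k2 c24693 c2987 k0) (by decide +kernel)
def c24789 : PP 9 3 T 0x8000040000 := rS 0x2 (k2 c24691 c267 k0) (by decide +kernel)
def c24790 : PP 9 3 T 0x10000000000000000008000000000 := rS 0x2 (k2 c24691 c268 k0) (by decide +kernel)
def c24791 : PP 9 3 T 0x800000000000000000000000000000000000000000000000000000000000400000000000 := rS 0x2 (k2 c24691 c576 k0) (by decide +kernel)
def c24792 : PP 9 3 T 0x800000000000000000000000000000000000000000000000000000000000008000000000 := rS 0x2 (k2 c24691 c3782 k0) (by decide +kernel)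
def c24793 : PP 9 3 T 0x2000000000800000000000000000000000000000000000 := rS 0x73 (k2 c24689 c2402 k0) (by decide +kernel)
def c24794 : PP 9 3 T 0x2000010000 := rS 0x2 (k2 c24691 c1114 k0) (by decide +kernel)
def c24795 : PP 9 3 T 0x200000000000000000000000200000000000000 := rS 0x21 (k2 c24694 c2436 k0) (by decide +kernel)
def c24796 : PP 9 3 T 0x1000000000000000000000000000000000000000000000000000000000000200000000000 := rS 0x2 (k2 c24691 c269 k0) (by decide +kernel)
def c24797 : PP 9 3 T 0x10000000000000000000000000040000000000000000000000000000000000000000000000000000000000000000000000000440000000 := rS 0x21 (k2 c24694 c5650 k0) (by decide +kernel)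
def c24798 : PP 9 3 T 0x20000000200000000000000000000000000000000000 := rS 0x73 (k2 c24689 c2031 k0) (by decide +kernel)
def c24799 : PP 9 3 T 0x44005400000000000000000000000000000000000000000000000000000000000000000000000000000000000000000000000000000000000000000000000 := rS 0x1ed (k2 c24741 c5204 k0) (by decide +kernel)
def c24800 : PP 9 3 T 0x80000000000000000002000000000000000000000000000000000000000000 := rS 0x1d (k2 c24693 c2020 k0) (by decide +kernel)
def c24801 : PP 9 3 T 0x20000000000000000000000020000000000000 := rS 0x93 (k2 c24696 c1583 k0) (by decide +kernel)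
def c24802 : PP 9 3 T 0x8000000000000000002000000000000000000000000000000000000000000 := rS 0x21 (k2 c24694 c2446 k0) (by decide +kernel)
def c24803 : PP 9 3 T 0x10000000000000000000000000040000000000000000000000000000000000000000000000000000000000000000000000000440000000 := rS 0x2 (k2 c24691 c6197 k0) (by decide +kernel)
def c24804 : PP 9 3 T 0x400000000000000000000000000000000000000000000000000000000004000000011000000000000000000000000000000000000200000000000000 := rS 0x1ed (k2 c24741 c6897 k0) (by decide +kernel)
def c24805 : PP 9 3 T 0x1000000000000000000000000000000000000000000000000000000000000000000001500000000000000000000000500000441000000 := rS 0x842e93 (k4 c24696 c24695 c24694 c6193 k0) (by decide +kernel)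
def c24806 : PP 9 3 T 0x8000000000000000000000000000000000000000000000000000000000000000000000400000000004000000000000000000000001000015001000000 := rS 0x2e93 (k2 c24696 c24695 (k1 c17994 k0)) (by decide +kernel)
def c24807 : PP 9 3 T 0x40005000000000000000000000000000000000000000000000100200000000000000000000000000000000000000000000000000000011000000000000000 := rS 0x1ed (k2 c24741 c8051 k0) (by decide +kernel)
def c24808 : PP 9 3 T 0x40000000000000000000000000000000000000000000200000000000000000000000040000400000000 := rS 0x21 (k2 c24694 c7114 k0) (by decide +kernel)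
def c24809 : PP 9 3 T 0x88000000000000000000000000000008000200000000000000000000000000000000000000000000000000000000000000000000000000 := rS 0x93 (k2 c24696 c17726 k0) (by decide +kernel)
def c24810 : PP 9 3 T 0x10000000000000000000000000000000000000000000000080000000000000000000000000000000000000000000000000000440000000 := rS 0x1d (k2 c24693 c8123 k0) (by decide +kernel)
def c24811 : PP 9 3 T 0x1000000000001000000000000000000000000000000000000000000001055000000000100000001001100000000000000000000000000000440000000 := rS 0x6c421d (k4 c24693 c24694 c24692 c8250 k0) (by decide +kernel)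
def c24812 : PP 9 3 T 0x80000000000000000000000000080000000000001000000000000000000000000400000000000000000000000004000000011400000000 := rS 0x21 (k2 c24694 c17941 k0) (by decide +kernel)
def c24813 : PP 9 3 T 0x80000000000000000000000000000000000000000000000000000000000000000000000000000001400000000000000000000000000400000015440000000 := rS 0x21 (k2 c24694 c17998 k0) (by decide +kernel)
def c24814 : PP 9 3 T 0x80000000000000000000000000000008000000100000000000000000000000000040000000000000000000000000100000011000000000 := rS 0x1d (k2 c24693 c17885 k0) (by decide +kernel)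
def c24815 : PP 9 3 T 0x10000000000000000000000000000000000000000000000000000000000000002000000004000000000000000000000000000000 := rS 0x111 (k2 c24690 c24103 k0) (by decide +kernel)
def c24816 : PP 9 3 T 0x100000000000000000000000000000000000000000000000000000800000000000000000000010000000000000000000000000000 := rS 0x73 (k2 c24689 c24104 k0) (by decide +kernel)
def c24817 : PP 9 3 T 0x20000000000000000000000000000000000000000400000000000000000000001400000001400000014400000000000000000000000000 := rS 0x73 (k2 c24689 c18007 k0) (by decide +kernel)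
def c24818 : PP 9 3 T 0x4000000000000000000000000000000000000002000010000000000000000000005000000000000000000000000000000000000000000 := rS 0x1ed (k2 c24741 c9222 k0) (by decide +kernel)
def c24819 : PP 9 3 T 0x20000000000000000000000000080000000000000000001015000000000000000001000000000000000000000000000000000000000000 := rS 0x3a1b (k2 c24692 c24693 (k1 c17949 k0)) (by decide +kernel)
def c24820 : PP 9 3 T 0x8000000000000000000000000000000000000000000000000000000000000000100000000100000014000000000000000000000000000 := rS 0x73 (k2 c24689 c20843 k0) (by decide +kernel)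
def c24821 : PP 9 3 T 0x4000000000000000001000000000100000000000040000000000000000000000015000001000040 := rS 0x41d (k2 c24693 c24691 (k1 c24122 k0)) (by decide +kernel)
def c24822 : PP 9 3 T 0x40000000000000004000000000000000000000000080000000000000000054000000000000000000000000000000000000000000000000000008000000000 := rS 0x6c43ed (k4 c24741 c24694 c24692 c9331 k0) (by decide +kernel)
def c24823 : PP 9 3 T 0x20000000000000000000000000000000000000000000000000000000000000000000000400000000000000000000000540000001000400 := rS 0x12602 (k2 c24691 c24696 (k1 c24129 k0)) (by decide +kernel)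
def c24824 : PP 9 3 T 0x4000000000000000001000000000000000080000000000000000000000000000000001000000000 := rS 0x1d (k2 c24693 c10145 k0) (by decide +kernel)
def c24825 : PP 9 3 T 0x1000000000000000000000000000000000000000000000000001000000000000400000000001400020000000000000000000004404000015440000000 := rS 0x21 (k2 c24694 c15694 k0) (by decide +kernel)
def c24826 : PP 9 3 T 0x10000000000000000000000000000000000000000000000000000000000008000000000000000000000000000000000000000000 := rS 0x111 (k2 c24690 c24136 k0) (by decide +kernel)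
def c24827 : PP 9 3 T 0x40000000000000000000000000000000000000000000000000000000000044000000000000000000000000000000000000000000001200000000000000000 := rS 0x1ed (k2 c24741 c9612 k0) (by decide +kernel)
def c24828 : PP 9 3 T 0x10000000000000000000040000000000000000001055000000000000000005000000000000000000000000000000000000000400 := rS 0x10877da01 (k4 c24688 c24741 c24693 c24694 (k1 c24138 k0)) (by decide +kernel)
def c24829 : PP 9 3 T 0x20000000000000000000000000080000000000000000000000000000000000000000000400000000000800000000000500000401000000 := rS 0x93 (k2 c24696 c24140 k0) (by decide +kernel)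
def c24830 : PP 9 3 T 0x2000000020000000000000000001080000000 := rS 0x2 (k2 c24691 c10367 k0) (by decide +kernel)
def c24831 : PP 9 3 T 0x10000000000000000000000000000000000000000000000000020000000000000080000000000000000000000000000000000000 := rS 0x111 (k2 c24690 c24144 k0) (by decide +kernel)
def c24832 : PP 9 3 T 0x8000000000000000000000000000000000000000000000100000000000000000000000000000000000000000000000000000000001000015001000000 := rS 0x2e93 (k2 c24696 c24695 (k1 c10342 k0)) (by decide +kernel)
def c24833 : PP 9 3 T 0x4000000000000000000000000000000000000000000000001000000000000000000000010000000000000000000000002000000000000 := rS 0x1b (k2 c24692 c9332 k0) (by decide +kernel)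
def c24834 : PP 9 3 T 0x51000100000000000000000000040000000100000000000000000000000000000000008000000000000000000000000000000000000000 := rS 0x93 (k2 c24696 c17905 k0) (by decide +kernel)
def c24835 : PP 9 3 T 0x1000000000000000000000000000000000100000000000000000000000000000000001000000000000000000000000800000400000000 := rS 0x93 (k2 c24696 c12293 k0) (by decide +kernel)
def c24836 : PP 9 3 T 0x400000000000000000000000000000000000000000000100000000000000000000001000000000000000000004000000000000000800000000000000 := rS 0x1ed (k2 c24741 c24147 k0) (by decide +kernel)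
def c24837 : PP 9 3 T 0x100040004000000000000080000000000000000000000000000000000000000000000000000000000000000 := rS 0x1ed (k2 c24741 c10772 k0) (by decide +kernel)
def c24838 : PP 9 3 T 0x40001000000000055000200000000000000000000000000000000000000000000000000000000000000000000000000000000000000000000000000000000 := rS 0x1ed (k2 c24741 c24150 k0) (by decide +kernel)
def c24839 : PP 9 3 T 0x4000000000000000000000000000000000000000000000000000000000000000005002040000000000000000000000000000000000000 := rS 0x1ed (k2 c24741 c10719 k0) (by decide +kernel)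
def c24840 : PP 9 3 T 0x2000000000000000000000000000000000000000000000000000000000400000000000000000000000000000001011800011800000000 := rS 0x17 (k2 c24695 c11905 k0) (by decide +kernel)
def c24841 : PP 9 3 T 0x80000000000000002000100000000000000000000000000000000000000000000000140000000000000001000400004000000000000000000000000000000 := rS 0x73 (k2 c24689 c24156 k0) (by decide +kernel)
def c24842 : PP 9 3 T 0x1400000000011000000000000000000000000000000000000000000000000000000011000000000000540000000000000000000000000000000000000 := rS 0x1ed (k2 c24741 c11160 k0) (by decide +kernel)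
def c24843 : PP 9 3 T 0x1000000000000000000000000000000000000000000000000000000000040000000005000000000000000000000000000000000000008000000000000 := rS 0x1ed (k2 c24741 c12046 k0) (by decide +kernel)
def c24844 : PP 9 3 T 0x4000000000000000000000000000000000000000000000001000000000000000010000000000000000000000000080000000000000000 := rS 0x1b (k2 c24692 c10701 k0) (by decide +kernel)
def c24845 : PP 9 3 T 0x20000000000000000000000000080008000000000000001001000000000000000000000000000000000000000000000000000000000000 := rS 0x1d (k2 c24693 c17804 k0) (by decide +kernel)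
def c24846 : PP 9 3 T 0x100000000000000000000000000000000000000000000000000000000000000008000000000000000000000000000000001050040 := rS 0x73 (k2 c24689 c24169 k0) (by decide +kernel)
def c24847 : PP 9 3 T 0x400000000000000000000000000000000000000000000000000000000000000000011000000000000000000008000000000000000000000000000000 := rS 0x1ed (k2 c24741 c20893 k0) (by decide +kernel)
def c24848 : PP 9 3 T 0xa0000100000000000000000000080000000000000400000000000000000000000000000000000000000000000000000000000000010000 := rS 0x1 (k2 c24688 c17853 k0) (by decide +kernel)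
def c24849 : PP 9 3 T 0x8000000000000000000000000000000000200000000000000000000000100000000000000000000000000000000000014000000000000 := rS 0x6c2e93 (k4 c24696 c24695 c24692 c17910 k0) (by decide +kernel)
def c24850 : PP 9 3 T 0x110000000000000000000040000000000000400000000000000000000001400000001000000010400000004400000015000000000 := rS 0x73 (k2 c24689 c24173 k0) (by decide +kernel)
def c24851 : PP 9 3 T 0x40000000000000000000000000000000000000001000000000000000000000001400000000000000000000000001000000015440000000 := rS 0x21 (k2 c24694 c18060 k0) (by decide +kernel)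
def c24852 : PP 9 3 T 0x4000000000000000000000000000000000000000000000000000000000050000000000000000000000000000000000000000000002100000000000000000 := rS 0x1ed (k2 c24741 c13257 k0) (by decide +kernel)
def c24853 : PP 9 3 T 0x40000000100000000000000000000000000000000002000000000000000000000000500000000000000 := rS 0x17 (k2 c24695 c13264 k0) (by decide +kernel)
def c24854 : PP 9 3 T 0x82000000000000000000000200000000000000000000000000000000000000000000000000000000000000000000004000010001000000 := rS 0x17 (k2 c24695 c17858 k0) (by decide +kernel)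
def c24855 : PP 9 3 T 0x8000000000000000000000000000000000200000000000100000000000000000000000000000000000000000000000000000000000000004001000000 := rS 0x2e93 (k2 c24696 c24695 (k1 c17859 k0)) (by decide +kernel)
def c24856 : PP 9 3 T 0x8000000000000000000000000000000000000100000000001000000800100000000000000000000000000000000010001000001000000 := rS 0x24c2e1b (k4 c24692 c24695 c24696 c14269 k0) (by decide +kernel)
def c24857 : PP 9 3 T 0x400000000000000000000000000000000000000000000000000000002004000000011000000000000500000000000000000000000440000441000000 := rS 0x12617 (k2 c24695 c24696 (k1 c18107 k0)) (by decide +kernel)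
def c24858 : PP 9 3 T 0x8000000000000041000000000000000000000000000000000000000000000000000000400400000050000000100000004040000000000000000000000000 := rS 0x73 (k2 c24689 c24178 k0) (by decide +kernel)
def c24859 : PP 9 3 T 0x2000100000000000000000000000000000000000000000000000000000000000000000000000100014000000000000000000000000000 := rS 0x73 (k2 c24689 c24181 k0) (by decide +kernel)
def c24860 : PP 9 3 T 0x8000000000080000120000000000000000000040000000000000000000000000000000000000000000000000000000000000004001000000001000000 := rS 0x42e93 (k4 c24696 c24695 c24688 c24184 k0) (by decide +kernel)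
def c24861 : PP 9 3 T 0x40000000000000000000000000000000000000000000000000000000000044000000000000000000204000000000000000000000000000000000000000000 := rS 0x1ed (k2 c24741 c14602 k0) (by decide +kernel)
def c24862 : PP 9 3 T 0x88000000000000000000000200000000000000000000000001000000000000000000000000000000000000000000100000000000000000 := rS 0x1b (k2 c24692 c17812 k0) (by decide +kernel)
def c24863 : PP 9 3 T 0x40000000000000000000000000000000000000000000000000000000000000000000000000000000000000000000020000011000000000 := rS 0x93 (k2 c24696 c13854 k0) (by decide +kernel)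
def c24864 : PP 9 3 T 0x11000000000000000000000000040000000100000000000000000000000000000000000000000000000000000000000000010040020000 := rS 0x2 (k2 c24691 c24197 k0) (by decide +kernel)
def c24865 : PP 9 3 T 0x110000000000000000100040000000000000000000000000000000000000000000000000000000000000000000000000000010400 := rS 0x1 (k2 c24688 c17869 k0) (by decide +kernel)
def c24866 : PP 9 3 T 0x1000000000000080000000000400000000000000000000000004400000015402000000 := rS 0x21 (k2 c24694 c18065 k0) (by decide +kernel)
def c24867 : PP 9 3 T 0x200000000000000001000000000000080000400000400000000000000000000000004000400004440000000 := rS 0x21 (k2 c24694 c18066 k0) (by decide +kernel)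
def c24868 : PP 9 3 T 0x2000000000000000000000000000000000000000000000000000000000000000000001000000004000400000000000000000000000000 := rS 0x111 (k2 c24690 c24204 k0) (by decide +kernel)
def c24869 : PP 9 3 T 0x8000000000000008000000000000000000000200000000000000000000000001000000000000000000000000000000000000000000000000004000000000 := rS 0x1b (k2 c24692 c17816 k0) (by decide +kernel)
def c24870 : PP 9 3 T 0x22000020000000000000000000000000000000000000000000000000000000000000000000000000000000000000000000000000000000 := rS 0x111 (k2 c24690 c24205 k0) (by decide +kernel)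
def c24871 : PP 9 3 T 0x2000000000000000000000000000000000000001000000000000400000000001000001000000000000000000000000080002000000000 := rS 0x21 (k2 c24694 c17921 k0) (by decide +kernel)
def c24872 : PP 9 3 T 0x80000000000000000000020000000000000000000000000000000000000000000000000000000001400000000000000014000000000000000000000000000 := rS 0x73 (k2 c24689 c24206 k0) (by decide +kernel)
def c24873 : PP 9 3 T 0x2000000000000000000000000080000000000000000000000000000000000000000001100000000000000000000000100000400000000 := rS 0x2e21 (k2 c24694 c24695 (k1 c17923 k0)) (by decide +kernel)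
def c24874 : PP 9 3 T 0x8000000000000000200000000000000000000000000000000000000010040000000001000000000000001000004000000000000000008000000000000 := rS 0x1ed (k2 c24741 c24207 k0) (by decide +kernel)
def c24875 : PP 9 3 T 0x80000100000000000000000000000000000000000000000000000000000000000000010000000000000001000000005000001001000040 := rS 0x2e93 (k2 c24696 c24695 (k1 c24208 k0)) (by decide +kernel)
def c24876 : PP 9 3 T 0x40000100000000000000000200000000000200001000000000000000000400000400004000000000000000000000000440004440001400 := rS 0x499cc2e21 (k4 c24694 c24695 c24689 c24696 (k1 c24209 k0)) (by decide +kernel)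
def c24877 : PP 9 3 T 0x1000000000000000000000000400000000000000008000000004400000015400002000 := rS 0x221 (k2 c24694 c24688 (k1 c18082 k0)) (by decide +kernel)
def c24878 : PP 9 3 T 0x110000000000000000100080000000000000400000000000000000000000000000000000000000000000000000000000000010000 := rS 0x421 (k2 c24694 c24691 (k1 c16594 k0)) (by decide +kernel)
def c24879 : PP 9 3 T 0x1000000000000000000000200080000000000002400000000000000000000000000001100000000000000000000000000000001040000 := rS 0x5c4293 (k4 c24696 c24694 c24695 c24210 k0) (by decide +kernel)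
def c24880 : PP 9 3 T 0x44000000000000080000000000000000000000000080000000000000000010008000000000000000040000000000000000000000004000000001000000000 := rS 0x43ed (k2 c24741 c24694 (k1 c15063 k0)) (by decide +kernel)
def c24881 : PP 9 3 T 0x40000000000000002000000000000000000000200080000000000000000000000000040000400000000011400000000000000000000000000004001000000 := rS 0x4217 (k2 c24695 c24694 (k1 c16340 k0)) (by decide +kernel)
def c24882 : PP 9 3 T 0x2000000000000000000000200080000000100000000000000000000000000002000011000000000000000000000000000004000000000 := rS 0x5d2621 (k4 c24694 c24696 c24695 c16347 k0) (by decide +kernel)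
def c24883 : PP 9 3 T 0x28000000000000000000000000080004000200000000000001000000001000000000000000000000000000000000000000000000000000 := rS 0x5ed (k2 c24741 c24691 (k1 c24217 k0)) (by decide +kernel)
def c24884 : PP 9 3 T 0x8000000000000000000000000000000000200000000000001000000020000000004000000000000000000000000000400000000000000 := rS 0x5c3693 (k4 c24696 c24692 c24695 c14987 k0) (by decide +kernel)
def c24885 : PP 9 3 T 0x4000000000002000000000000000000000000080000000000000000000000000100000000002000000400000000000000000004000000000001000000 := rS 0x2e21 (k2 c24694 c24695 (k1 c16343 k0)) (by decide +kernel)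
def c24886 : PP 9 3 T 0x4000000000000090000220000000000000000000080004000000100000000000000000000000000004000000000000000000000000000000001000000000 := rS 0x21 (k2 c24694 c18475 k0) (by decide +kernel)
def c24887 : PP 9 3 T 0x80000120000000000000000000000000000000001000000000000000000000000000000000000000000000000001000000000440010000 := rS 0x4201 (k2 c24688 c24694 (k1 c19143 k0)) (by decide +kernel)
def c24888 : PP 9 3 T 0x80000000000000000000000200000008000000000000000000000000000000000040000000000000000000000000000000000000000000 := rS 0x1d (k2 c24693 c19291 k0) (by decide +kernel)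
def c24889 : PP 9 3 T 0x10000000000000000000040008000000000400000050000000000000000200000000000000000000000005000000000000000400 := rS 0x7405ed (k4 c24741 c24691 c24693 c24221 k0) (by decide +kernel)
def c24890 : PP 9 3 T 0x4000000000000044000100000000000000000000000000000000001000000008000000000000000500000000000000010400000000000000001400000000 := rS 0x840473 (k4 c24689 c24691 c24694 c18873 k0) (by decide +kernel)
def c24891 : PP 9 3 T 0x1400000000140001100000000000000000000000000000200000010000000000000000000000000000000000000000000000005510000000000000000 := rS 0x1ed (k2 c24741 c18985 k0) (by decide +kernel)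
def c24892 : PP 9 3 T 0x40000100000000000000000000000000000000001000000000000000000000000400000000000000010400000001000000000400000000 := rS 0x1cc0421 (k4 c24694 c24691 c24689 c19105 k0) (by decide +kernel)
def c24893 : PP 9 3 T 0x1000000000019000000000000000000000000000000000000000000001000000000005100000000001000004004000440000000000000000000000000 := rS 0x111 (k2 c24690 c24227 k0) (by decide +kernel)
def c24894 : PP 9 3 T 0x4000000000000000001000000011000000000000040000000000000000000000815000001000040 := rS 0x7b4041d (k4 c24693 c24691 c24741 c24229 k0) (by decide +kernel)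
def c24895 : PP 9 3 T 0x1400000000005000000000000000000000000000000000000000000000000000000010100000001000140000000000000000000000000000000000000 := rS 0x1ed (k2 c24741 c18871 k0) (by decide +kernel)
def c24896 : PP 9 3 T 0x20000000000000000000000000000000000000000000000000000000000000000000000402000000000000000001000520000001000000 := rS 0x493 (k2 c24696 c24691 (k1 c24236 k0)) (by decide +kernel)
def c24897 : PP 9 3 T 0x10000000000000000000000000000000000200000000000000000000000000000000001400000000000000000000000000000040000000 := rS 0x24c4311 (k4 c24690 c24694 c24696 c24237 k0) (by decide +kernel)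
def c24898 : PP 9 3 T 0x4000000000000000001000000000000000000000080000000000000000000000000000000000000 := rS 0x3a17 (k2 c24695 c24693 (k1 c19357 k0)) (by decide +kernel)
def c24899 : PP 9 3 T 0x4000000000000002001000000000000000000000000000000000000000000000000000040000000 := rS 0x1d (k2 c24693 c20237 k0) (by decide +kernel)
def c24900 : PP 9 3 T 0x1000000000000000000000000000000000200000000000000000000000800001000001100000000000000000000010400000440000000 := rS 0x21 (k2 c24694 c19858 k0) (by decide +kernel)
def c24901 : PP 9 3 T 0x2000000000000000000000000000000000200000000000000000000000000000000001100000000000000000000000400000440000000 := rS 0x21 (k2 c24694 c18438 k0) (by decide +kernel)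
def c24902 : PP 9 3 T 0x1000000000000000000000000000000000000000000000000000000000800000100000050000000000041000000000000000000000000 := rS 0x73 (k2 c24689 c24239 k0) (by decide +kernel)
def c24903 : PP 9 3 T 0x20000000000000000000000000000000000200000000000000000000000000000000001480000000000000000000000000000040000000 := rS 0x22293 (k2 c24696 c24690 (k1 c24245 k0)) (by decide +kernel)
def c24904 : PP 9 3 T 0x8000000000000000000000000000000000000000000000200000000000000000000000000000000004000000000000000000000000000015000000000 := rS 0x93 (k2 c24696 c18620 k0) (by decide +kernel)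
def c24905 : PP 9 3 T 0x8000000000052000200000000000000000000000000000000000000000000000000000000000000000001000004000400000000000000000000000000 := rS 0x111 (k2 c24690 c24247 k0) (by decide +kernel)
def c24906 : PP 9 3 T 0x400000000088000000000000000000000200000000000200000000000000000000000000000000000000000000000000000000000000010000000000 := rS 0x1261b (k2 c24692 c24696 (k1 c18617 k0)) (by decide +kernel)
def c24907 : PP 9 3 T 0x200000000000000000000040004000100000000000000000400000000000000000000000000000000000002000200000000000000 := rS 0x1ed (k2 c24741 c24248 k0) (by decide +kernel)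
def c24908 : PP 9 3 T 0x2000000000000000010000000000000000100040000000100000000020040000000000000000000000500000000000000000000005000005001000000 := rS 0x2e93 (k2 c24696 c24695 (k1 c19690 k0)) (by decide +kernel)
def c24909 : PP 9 3 T 0x8000000000000000000000000000000000200000000000004000000020000000004000000000000000000000000000000000000000000 := rS 0x3693 (k2 c24696 c24692 (k1 c19830 k0)) (by decide +kernel)
def c24910 : PP 9 3 T 0x80000000000000000000000200000000000200000000000000000000000000000000010000000000000000000000000000010000000000 := rS 0x93 (k2 c24696 c19210 k0) (by decide +kernel)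
def c24911 : PP 9 3 T 0x20000000000000000000000000000000000000000000000000000000000000000000000400008000000000000000000520000001000000 := rS 0x493 (k2 c24696 c24691 (k1 c24250 k0)) (by decide +kernel)
def c24912 : PP 9 3 T 0x8000400000000004000000000000000000000000000000000200000000000000000000000500000010004000000000000000000000050000015000000000 := rS 0x93 (k2 c24696 c18736 k0) (by decide +kernel)
def c24913 : PP 9 3 T 0x2000000000002000000000000000000000000000000000200000000000002000000000000000000000000000000000000000000000000000000000000 := rS 0x21 (k2 c24694 c24275 k0) (by decide +kernel)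
def c24914 : PP 9 3 T 0x1000200000000000000000200000000000000000000000000000000000000000000000000000000000000000000000000000001000000 := rS 0x12602 (k2 c24691 c24696 (k1 c24271 k0)) (by decide +kernel)
def c24915 : PP 9 3 T 0x200000000000000000000040000000000000000044040000000000000000000000000000000000000000001000000020080000000 := rS 0x2 (k2 c24691 c22573 k0) (by decide +kernel)
def c24916 : PP 9 3 T 0x2000000000000000000000000040000000100000000000000000000000000000008000000004004000000000000000100000000000000 := rS 0x2 (k2 c24691 c24273 k0) (by decide +kernel)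
def c24917 : PP 9 3 T 0x40000000000000000000000000000000000001400000000000000000000000005400000015440000000 := rS 0x2 (k2 c24691 c23484 k0) (by decide +kernel)
def c24918 : PP 9 3 T 0x800000000000000010000000000000000100040004000000000000000002000000040000001400000000000000000000000000010000014000000400 := rS 0x5ed (k2 c24741 c24691 (k1 c24280 k0)) (by decide +kernel)
def c24919 : PP 9 3 T 0x5000000000000000000000100000004000100100000000000000000040000000000000000000000000000000000000000010000020000 := rS 0x2e93 (k2 c24696 c24695 (k1 c24282 k0)) (by decide +kernel)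
def c24920 : PP 9 3 T 0x400000000001000200000000000000000000000004000100000000000001000000440000000000000000000000000000000000100004000000000000 := rS 0x2e93 (k2 c24696 c24695 (k1 c22716 k0)) (by decide +kernel)
def c24921 : PP 9 3 T 0x100000000000000000000000000000000000000000000000000000000000000008000000000010000000000000000000000000000 := rS 0x73 (k2 c24689 c24261 k0) (by decide +kernel)
def c24922 : PP 9 3 T 0x400000000005000000000000000000000000000004000000000000000000000000000000000000000050000000000000000000000000000001000000 := rS 0x2 (k2 c24691 c22737 k0) (by decide +kernel)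
def c24923 : PP 9 3 T 0x4000000100000000001000000000000000140000000000000000000000000140000015000000000 := rS 0x2 (k2 c24691 c23533 k0) (by decide +kernel)
def c24924 : PP 9 3 T 0x8000000000042000000000000000000000100000004000000000000000000000000000000000000000000000000000000000000000000000000000000 := rS 0x2 (k2 c24691 c22685 k0) (by decide +kernel)
def c24925 : PP 9 3 T 0x4000000000000040000020000000000000000100080000000000000000000000000000000000000000000000000000000000000000000000000000000000 := rS 0x2 (k2 c24691 c22608 k0) (by decide +kernel)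
def c24926 : PP 9 3 T 0x40000000000000000000000100000000000000000000000000000000000000000000000000000000000000000000000000011000000000 := rS 0x2 (k2 c24691 c21947 k0) (by decide +kernel)
def c24927 : PP 9 3 T 0x46000000000000000000000200000000000000000000000002000000000400000010004000000000000000000000000020000000000000 := rS 0x17 (k2 c24695 c21985 k0) (by decide +kernel)
def c24928 : PP 9 3 T 0x44000200000000000000000000000000000000000000000001000000000000000000000000000000000000000000000000011000000000 := rS 0x2 (k2 c24691 c22020 k0) (by decide +kernel)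
def c24929 : PP 9 3 T 0x44000200000000000000000000000000000000000000000001000000000000000000000000000000000000000000000000010000000000 := rS 0x2 (k2 c24691 c22047 k0) (by decide +kernel)
def c24930 : PP 9 3 T 0x10000000000000000100040004000000000000000002000000140000001400000000000000000000000000000001014000000440 := rS 0x3da02 (k2 c24691 c24741 (k1 c24279 k0)) (by decide +kernel)
def c24931 : PP 9 3 T 0x4000000000000000000000000000000000000002000000000000000000000000045000000000000000000000000000000000000000000 := rS 0x1ed (k2 c24741 c21637 k0) (by decide +kernel)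
def c24932 : PP 9 3 T 0x4000000000000000000000000000004000000000000000001000000000000000000000000000000000000000000000000000000000000 := rS 0x2 (k2 c24691 c22131 k0) (by decide +kernel)
def c24933 : PP 9 3 T 0x4000000000000000000000000000000000000000000000001000000000000000000000000000000000000000000000020000000000000 := rS 0x3693 (k2 c24696 c24692 (k1 c23229 k0)) (by decide +kernel)
def c24934 : PP 9 3 T 0x4000000000000000000000000000000000000000000000009000000000000000000000000000000000000000000000000000000000000 := rS 0x421b (k2 c24692 c24694 (k1 c23227 k0)) (by decide +kernel)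
def c24935 : PP 9 3 T 0x40000000000000000000001000000020000000000000080000000000000000000000000000000000000 := rS 0x4217 (k2 c24695 c24694 (k1 c23360 k0)) (by decide +kernel)
def c24936 : PP 9 3 T 0x48000000000000000000110000000000000000100000008000000001000000000000000000000000000000000000000000000000000000000000000000000 := rS 0x2 (k2 c24691 c22650 k0) (by decide +kernel)
def c24937 : PP 9 3 T 0x100000000000000000000040000000200000400010000000000000000000000000000008000000000000000000000000000000800 := rS 0x1d (k2 c24693 c22895 k0) (by decide +kernel)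
def c24938 : PP 9 3 T 0x100000000000000000000000000000000000000000000000000000008000000000000000000000000000000 := rS 0x2 (k2 c24691 c22786 k0) (by decide +kernel)
def c24939 : PP 9 3 T 0x2000000000000000000000000040000000100000000000000000000000000000000000000000004000400000000000500000000000000 := rS 0x1 (k2 c24688 c24307 k0) (by decide +kernel)
def c24940 : PP 9 3 T 0x1000000000000000000000001000000000000000010800000005400000011440000000 := rS 0x2 (k2 c24691 c23455 k0) (by decide +kernel)
def c24941 : PP 9 3 T 0x10000000000000000000000000000000000000000000000000000000001400000001000000000000000005400000015040000000 := rS 0x4311 (k2 c24690 c24694 (k1 c23480 k0)) (by decide +kernel)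
def c24942 : PP 9 3 T 0x40000110000000000000000000000000000000000000000000000000000000001400000000000000000000000005400000005040000000 := rS 0x21 (k2 c24694 c23489 k0) (by decide +kernel)
def c24943 : PP 9 3 T 0x80000000000000000000000000000000000100000000000000000000000000000000000000000000000000000000015000001001000000 := rS 0x2e93 (k2 c24696 c24695 (k1 c22255 k0)) (by decide +kernel)
def c24944 : PP 9 3 T 0x800000000000000000000000000000000000000008000000000000000000000000000100000000000010000000000000000000000000000001000000 := rS 0x92617 (k4 c24695 c24696 c24691 c22723 k0) (by decide +kernel)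
def c24945 : PP 9 3 T 0x400000000000000000000000000000000000000000000100000000000000000000000100000000000050000000000000000000000015000001000000 := rS 0x24c2e02 (k4 c24691 c24695 c24696 c23348 k0) (by decide +kernel)
def c24946 : PP 9 3 T 0x4000000000000000000000000000000000000000000000000000000000050000000000000000000000000002000000000000000000000000000000000000 := rS 0x1ed (k2 c24741 c21172 k0) (by decide +kernel)
def c24947 : PP 9 3 T 0x4000000000000000000000000000000000000000000000000000000800050000000000000000000000000000000000000000000000000000000000000000 := rS 0x1ed (k2 c24741 c21166 k0) (by decide +kernel)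
def c24948 : PP 9 3 T 0x4000000000000000000000000000004000100000000000000000000000000000100008000000000000000000000000000000000000000 := rS 0x73 (k2 c24689 c24268 k0) (by decide +kernel)
def c24949 : PP 9 3 T 0x1000000000000000000000000000000000000000000000000000000000055000000004000000005000400000000000000000000000008000440000000 := rS 0x5ed (k2 c24741 c24691 (k1 c23434 k0)) (by decide +kernel)
def c24950 : PP 9 3 T 0x80000100000000000000000100000008000000000000000000000000000000000040000000000000000040000000000000001000000000 := rS 0x1d (k2 c24693 c22233 k0) (by decide +kernel)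
def c24951 : PP 9 3 T 0x40005000000000000000000000000000000000000000000000200001000000000000440000400000000004002000000014000000008000400015000000000 := rS 0x73 (k2 c24689 c24286 k0) (by decide +kernel)
def c24952 : PP 9 3 T 0x20000000000000000000000200080004000000001000000001000000000000002404000000000000000000000000000000004000000000 := rS 0x2 (k2 c24691 c23927 k0) (by decide +kernel)
def c24953 : PP 9 3 T 0x4000000000000000000000000000000000000000000000001000000000000000000000000000000000000000000200000004000000000 := rS 0x1b (k2 c24692 c23964 k0) (by decide +kernel)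
def c24954 : PP 9 3 T 0x40000000000000020000010000000000000000000000008000000100800000004000000000000001110000000000000000000000000040000015040000000 := rS 0x2 (k2 c24691 c23495 k0) (by decide +kernel)
def c24955 : PP 9 3 T 0x1000000000000000000000000000000000000000000000000000000000000000000000000000000000000040000000010000001000000 := rS 0x2 (k2 c24691 c24269 k0) (by decide +kernel)
def c24956 : PP 9 3 T 0x40000000000000000000110000000000000000100000008000000001000020000000000000000000000000000000000000000000000000000000000000000 := rS 0x2 (k2 c24691 c22648 k0) (by decide +kernel)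
def c24957 : PP 9 3 T 0xa0000010000000000000000100080004000200000000000001000000000000000000000000000000000000000000000000000000000000 := rS 0x2 (k2 c24691 c24283 k0) (by decide +kernel)
def c24958 : PP 9 3 T 0x80000000000000000000000100000000000000100800000001000000000000000040000000000000000000000000100000000000000400 := rS 0x2 (k2 c24691 c22402 k0) (by decide +kernel)
def c24959 : PP 9 3 T 0x4000000000000000000000000000000000000000000000000000000000000000000000000008000000000000000000000000400000800 := rS 0x3a1b (k2 c24692 c24693 (k1 c23776 k0)) (by decide +kernel)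
def c24960 : PP 9 3 T 0x400000000000000a0000100000000000000000000000008000000000000002040000000000000000000000000000000000000000002000000000000000000 := rS 0x1d (k2 c24693 c22637 k0) (by decide +kernel)
def c24961 : PP 9 3 T 0x1000010000000000000000100080004000200000400000000000000000000000510000800000000008800000000000000010000000000 := rS 0x2 (k2 c24691 c24285 k0) (by decide +kernel)
def c24962 : PP 9 3 T 0x40004000000000000000004000000000000000000000002000000000000000000200000000000000000 := rS 0x1ed (k2 c24741 c21269 k0) (by decide +kernel)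
def c24963 : PP 9 3 T 0x4000000000000001000000000000000000000100000000000000000000000000000000000000000000008000000000000000040000140000000001000000 := rS 0x2 (k2 c24691 c24272 k0) (by decide +kernel)
def c24964 : PP 9 3 T 0x40000000000000000000110000000000000000100000000000000000000000000000000000000000000000001000000000000000000400000002000000400 := rS 0x2 (k2 c24691 c22776 k0) (by decide +kernel)
def c24965 : PP 9 3 T 0x5000000000000000000000000000004000000000000000000000000400000000010000040000100000000000000001000002001000000 := rS 0x2 (k2 c24691 c24284 k0) (by decide +kernel)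
def c24966 : PP 9 3 T 0x10000000000000000000000000000000000400000000000200000400000000004000000000014001000000000000000000000000 := rS 0x73 (k2 c24689 c24474 k0) (by decide +kernel)
def c24967 : PP 9 3 T 0x8000000000000000000000000000000000000000000000000000000000000000000000000000000110000000000000014040000000000000000000000000 := rS 0x73 (k2 c24689 c24578 k0) (by decide +kernel)
def c24968 : PP 9 3 T 0x2000000000000000000000000000000000000000000000000000000000000000000000000000000001100000000000401000000000000000000000000 := rS 0x111 (k2 c24690 c24591 k0) (by decide +kernel)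
def c24969 : PP 9 3 T 0x44005000000000000000000000000000000000000000000000000000000010000000140015000000000000000000100000000000000000000000000000000 := rS 0x1037fa19c47b (k4 c15912 c5691 c24057 c2574 (k2 c10690 c24755 k0)) (by decide +kernel)
def c24970 : PP 9 3 T 0x40000800000000000000200000000000000000000040004000000000000000000000000010000000000000000000004000000000004000100000000000000 := rS 0x3c40e317b0e9e6191bca48e29ac09c2625378d52e336488e2afe81b79c3e3f0a07ded580b591ad355bd50ccd67acf699d (k8 c24161 c5211 c5532 c5453 c5495 c24057 c24090 c24826 (k8 c5496 c5381 c24052 c2145 c5454 c24054 c5380 c24308 (k8 c24230 c1720 c24969 c2516 c24755 c3011 c9733 c5494 (k8 c5492 c5452 c5450 c5565 c24743 c5564 c24789 c24762 (k8 c5339 c5562 c24192 c2331 c24866 c20553 c5654 c24761 (k4 c1678 c1674 c499 c24821 k0)))))) (by decide +kernel)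
def c24971 : PP 9 3 T 0x40000800000000000000200000000000000000000040000000000000000000000000000010000000000000000000004000000000004000100000000000000 := rS 0x129ac96e7435f0f8daa8d (k8 c5381 c5454 c24230 c24308 c5450 c24970 c5474 c20946 (k2 c24124 c5168 k0)) (by decide +kernel)
def c24972 : PP 9 3 T 0x10000000000000000000000000000000000000000000000000000000000800000000400000000000000000000000000000000000 := rS 0xd7b5 (k2 c5532 c2377 (k1 c24746 k0)) (by decide +kernel)
def c24973 : PP 9 3 T 0x200000000000000000000000000000000000000008000000080000000000000000000000000000000000002000000000401000000 := rS 0x6cde3b09dbdab14b (k8 c5334 c17709 c3007 c20946 c24914 c499 c24253 c24932 k0) (by decide +kernel)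
def c24974 : PP 9 3 T 0x210000000000000000000000000000000000000000000000080000000000000000001000000000000000005400000010041000000 := rS 0x4a2b09adbad04e13129bd668f (k8 c5568 c24972 c5565 c24743 c5564 c24789 c24941 c5422 (k4 c2514 c24926 c24781 c24192 k0)) (by decide +kernel)
def c24975 : PP 9 3 T 0x40000000000000000000210000000000000000000000000000000000000008000000080000000000000000001000000000000000004400000010000000000 := rS 0x6cb613bac3c6961e24865ea2709894de2359a3e2aab (k8 c24826 c3011 c5568 c24972 c9733 c5565 c24743 c5564 (k8 c24789 c2341 c24866 c24973 c24974 c5517 c1216 c5660 (k4 c20946 c24914 c24932 c24253 k0))) (by decide +kernel)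
def c24976 : PP 9 3 T 0x40000800000000000000200000000000000000000000000000000000000000000000000010000000000000000000000000000000004800000000000000000 := rS 0xe4f60aa5d651f9d (k8 c24161 c5568 c5562 c5520 c24040 c24938 c24078 c24971 k0) (by decide +kernel)
def c24977 : PP 9 3 T 0x4004000000000000000000000000000000000000000004000000000000000000000000000100000000000000000000000000000000000014020000000000 := rS 0xd94a36f59 (k4 c5339 c5417 c24264 c5229 (k1 c24849 k0)) (by decide +kernel)
def c24978 : PP 9 3 T 0x800000000000000200000000000000000000000000000000000000000000000000000000000000000000000000000000000000000000020000000000 := rS 0xc319d0fc3359db8d466c9f7f8daa8d (k8 c5381 c5454 c24230 c24054 c5494 c5492 c5450 c5417 (k4 c5339 c20299 c404 c24977 (k2 c5476 c24160 (k1 c20914 k0)))) (by decide +kernel)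
def c24979 : PP 9 3 T 0x40000800000000000000200000000000000000000000000000000000000000000000000010000000000000000000000000000000004000000000000000000 := rS 0x11c539d48bfa06de70f8fc2cf40b37ded580b591ad3 (k8 c5496 c5381 c24052 c2145 c5454 c24054 c5495 c5380 (k8 c5453 c24308 c24230 c1720 c24969 c2516 c24755 c24263 (k4 c24161 c24978 c24976 c24975 k0))) (by decide +kernel)
def c24980 : PP 9 3 T 0x40000800000000000000200000000000000000000000000000000000000000000000000010000000000000000000000000000000000000000000000000000 := rS 0x2d90c803f8e11c94fe81b8dbc811ab3d9be1f7f8daae180b591ad3 (k8 c5496 c5381 c24052 c2145 c1720 c5454 c24230 c24054 (k8 c24308 c5495 c5453 c5450 c5380 c24969 c207 c2516 (k8 c24755 c24979 c191 c2569 c408 c2511 c2780 c2159 (k1 c24292 k0)))) (by decide +kernel)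
def c24981 : PP 9 3 T 0x1000000000000000000000000000000000000000000000000000000000001000000010100000000000040000000000000040000000054000081000000 := rS 0xc52a3ad84a69639 (k8 c24766 c5517 c24124 c24955 c5654 c5446 c1678 c24769 k0) (by decide +kernel)
def c24982 : PP 9 3 T 0x800000000000000200000000000000000000000000000000000000000010000080010000000000000000000000000000000000400000000000000000 := rS 0x25463b27b4ecb4191b8d52e3364f8696f3788784a6f11c55679d4789c264b14ad493f2 (k8 c24980 c5588 c5548 c24978 c5546 c5564 c24789 c5568 (k8 c24161 c24972 c5590 c9733 c5565 c24743 c24751 c1216 (k8 c24778 c5517 c24308 c5494 c5492 c5452 c5450 c2331 (k8 c24866 c24981 c5474 c24761 c24932 c2105 c5488 c24769 k0)))) (by decide +kernel)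
def c24983 : PP 9 3 T 0x800000000000000200000000000000000000000000000000000000000010000000010000000000000000000000000000000000400000000000000000 := rS 0x365b09d866b0373d37de28189b85ac8d69a47ded5718784a6f11c55679d4789c264b14ad493f2 (k8 c24980 c5588 c5548 c24978 c5546 c5564 c24789 c5568 (k8 c24161 c24972 c5590 c9733 c5565 c24743 c24751 c5549 (k8 c5454 c24054 c24263 c5496 c5381 c24052 c1720 c5382 (k8 c5380 c1216 c24982 c24025 c24075 c24938 c1165 c20946 (k2 c24914 c24932 (k1 c24253 k0)))))) (by decide +kernel)
def c24984 : PP 9 3 T 0x800000000000000200000000000000000000000000000000000000000000000000010000000000000000000000000000000000400000000000000000 := rS 0x1fe877a44d1f016b235a7f2 (k8 c24980 c5496 c5381 c24052 c2145 c5568 c5382 c24983 (k2 c24090 c2341 (k1 c24476 k0))) (by decide +kernel)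
def c24985 : PP 9 3 T 0x800000000000000200000000000000000000000000000000000000000000000000010000000000000000000000000000000000000000000000000000 := rS 0x436ccf7b6055648cb311e751e2537b3d9a29 (k8 c24978 c5495 c5453 c5565 c24743 c5568 c24161 c9733 (k8 c24972 c24984 c5562 c24040 c16855 c24938 c19230 c24057 (k1 c24959 k0))) (by decide +kernel)
def c24986 : PP 9 3 T 0x1000000000000000000000000000000000000000000000020000000020000000000001000000000000000000000000000000400000000 := rS 0x4a47430 (k4 c1925 c1926 c5434 c24835 k0) (by decide +kernel)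
def c24987 : PP 9 3 T 0x800000000000000200000000000000000000000000000000000000000000000000000000000000000000000000000000000000800000000000000000 := rS 0x1d8de52061896e74f17a878720a4e88f3a6ad9ec56671db1ed6b1548d2eb31347894de3519f8452d0 (k8 c24985 c24978 c24308 c5492 c5450 c5565 c24743 c5568 (k8 c5382 c5562 c5520 c24069 c2786 c2346 c24938 c24715 (k8 c5571 c5574 c24139 c19230 c24745 c5523 c24079 c24081 (k8 c24040 c24078 c2305 c24986 c1216 c24932 c5474 c5476 (k4 c24160 c24124 c1481 c1674 (k1 c5654 k0)))))) (by decide +kernel)
def c24988 : PP 9 3 T 0x40000800000000000000200000000000000000000000000000100000000000000000000000000000000000000000000000000000008010001000000000000 := rS 0x459dc0c22e1acfbda0438ef8dabe11eb591ad3 (k8 c5496 c5381 c24052 c1491 c24308 c5454 c24230 c24807 (k8 c1933 c24985 c24054 c5342 c22705 c24281 c2202 c20878 (k2 c461 c5658 k0))) (by decide +kernel)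
def c24989 : PP 9 3 T 0x40000800000000080000200000000000000000100000000000100100000000000000000000000000000000000000000000000000004000000000400000000 := rS 0x1b9c35c536a11a544c268f129bda7e1f1b551ab3208636229 (k8 c24978 c24139 c24744 c543 c5574 c5381 c5454 c24230 (k8 c24308 c5496 c5565 c24743 c5568 c5564 c5382 c5168 (k4 c24281 c17828 c24812 c1139 (k2 c24746 c5522 (k1 c17919 k0))))) (by decide +kernel)
def c24990 : PP 9 3 T 0x4000000000000080000200000000000000000000000004000000102000000000000000000000000000000000000000000000000000000000000440000000 := rS 0x19da51af6a2537aade1b3 (k8 c19230 c24932 c1281 c5565 c24743 c5414 c1139 c24803 (k2 c24886 c24746 k0)) (by decide +kernel)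
def c24991 : PP 9 3 T 0x800000000080000200000000000000000000000000000100000000000000000000000000000000000000000000000000000000000001000400000000 := rS 0xe31c12297159dd60971df987c823b0c09c262537f87dfe36a8a48eb35aec46ed01eb591ad3 (k8 c5496 c5381 c24052 c1491 c24985 c1481 c24139 c5422 (k8 c5574 c24987 c24978 c5454 c24230 c24054 c24308 c5565 (k8 c24743 c5564 c24789 c24744 c491 c543 c1165 c24813 (k8 c24807 c24988 c24989 c20946 c24990 c24812 c24751 c5654 (k2 c2617 c24907 k0))))) (by decide +kernel)
def c24992 : PP 9 3 T 0x800000000080000200000000000000000000000000000000000000000000000000000000000000000000000000000000000000000001000400000000 := rS 0x20844893bac81c7f281ea04263519b591ad3 (k8 c5496 c5381 c24052 c5492 c5450 c5564 c5380 c1491 (k8 c24991 c5318 c5432 c24192 c24160 c24238 c20747 c458 (k1 c24035 k0))) (by decide +kernel)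
def c24993 : PP 9 3 T 0x40000800000000080000200000000000000000100000000000000000000000000000000000000000000000000000000000000000000000000000400000000 := rS 0x81929c244f0fbfc6d56810c821894ec47b1d784ec61b314b591ad3 (k8 c5496 c5381 c24052 c24978 c19230 c24992 c5476 c24932 (k8 c551 c1492 c24139 c5434 c24744 c543 c1934 c24985 (k8 c5454 c24230 c24054 c24308 c5658 c22705 c24989 c2202 (k1 c461 k0)))) (by decide +kernel)
def c24994 : PP 9 3 T 0x800000000080000200000000000000000000000000000000000000000010000000000000000000000000000000000000000000000000000400000000 := rS 0x1c6382452c97588afcc3e3b1384c4a6ff0fbdaa4759ad6531d148ddeef09d8c366d0 (k8 c24985 c19230 c24992 c5476 c24932 c499 c1482 c24978 (k8 c551 c5434 c5422 c5574 c24987 c5454 c24054 c24308 (k8 c5565 c24743 c5564 c24789 c1679 c1216 c24813 c24990 (k4 c24993 c5342 c24812 c24751 (k2 c5654 c2617 (k1 c24907 k0)))))) (by decide +kernel)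
def c24995 : PP 9 3 T 0x800000000080000200000000000000000000000000000000000000000000000000000000000000000000000000000000000000000000000400000000 := rS 0x3d13a18948c362d0 (k8 c24985 c24139 c24992 c5434 c24744 c1273 c24994 c24986 k0) (by decide +kernel)
def c24996 : PP 9 3 T 0x800000000000000200000000000000000000000000000000000000000020000000000000000000000000000000000000000000000000000400000000 := rS 0xcb1fa853ee06fec033024e8ea02ff43a4697134789c26cd6b235a6d0239047b58db894de29 (k8 c24978 c5565 c24743 c24995 c24926 c5560 c24863 c24987 (k8 c24985 c5496 c5381 c24052 c5495 c5564 c24789 c5568 (k8 c5382 c5519 c10333 c24090 c2341 c4373 c1926 c24753 (k8 c20762 c491 c24986 c2516 c2202 c5448 c5398 c495 (k2 c1718 c24780 k0))))) (by decide +kernel)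
def c24997 : PP 9 3 T 0x800000000042000200000000000000000000000000000000000000000000000000000000000000000000000000000000000000000000000000000000 := rS 0x659c55cad332552ed646b4fded5 (k8 c5454 c24054 c5496 c5381 c24052 c5452 c5446 c24132 (k4 c2032 c5282 c20748 c1246 (k1 c24202 k0))) (by decide +kernel)
def c24998 : PP 9 3 T 0x800000000000000200000000000000000000000000000000000000000000000000000000000000000010000000010000000000000400000400000000 := rS 0x38a02df8aed3e61f5abc206aed9acdc2b1502653e2709b27c2d669f8daa8d6811c96f5658636358db894de29 (k8 c24978 c5565 c24743 c24995 c24926 c24997 c24914 c22045 (k8 c24996 c5342 c24987 c24985 c5381 c5454 c24230 c5496 (k8 c24052 c24308 c5494 c5564 c24789 c1605 c1595 c5680 (k8 c9422 c17839 c2934 c24820 c23766 c2202 c24929 c1249 (k8 c1216 c24813 c24838 c5414 c24867 c3070 c5691 c1780 k0))))) (by decide +kernel)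
def c24999 : PP 9 3 T 0x800000000004000200000000000000000000000000000000000000000000000000000000000000000000000000000000000000000400000400000000 := rS 0xe280b7e2bb4f9ad606b370ab93eb10fbc04e13f0fbfc6d52392e533b7aab596d646b4d529d0c6c6b1b7129bc52d0 (k8 c24985 c24978 c5565 c24743 c24995 c24926 c24997 c24914 (k8 c1273 c2025 c5496 c5381 c24052 c22045 c2033 c24996 (k8 c20946 c24192 c5342 c24987 c5454 c24230 c24054 c24308 (k8 c5564 c24789 c24929 c1216 c1330 c24948 c5683 c17839 (k8 c2993 c2202 c1249 c24813 c24838 c5414 c24867 c3070 (k2 c5691 c1780 k0)))))) (by decide +kernel)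
def c25000 : PP 9 3 T 0x800000000000000200000000000000000000000000000000000000000000000000000000000000000000000000000000000000000400000400000000 := rS 0x140704fa5764d669f8daa8d658636358db894de29 (k8 c24978 c5565 c24743 c24995 c24926 c24997 c24914 c22045 (k8 c5381 c5454 c24230 c5496 c24052 c24999 c5488 c1605 (k2 c24998 c5680 (k1 c24032 k0)))) (by decide +kernel)
def c25001 : PP 9 3 T 0x800000000000000200000000000000000000000000000000000000000000000000000000000000000000000000000000000000000000000400000000 := rS 0x749d0c6c65358db894de29 (k8 c24978 c5565 c24743 c24995 c24926 c24192 c24997 c24914 (k2 c1273 c25000 (k1 c24835 k0))) (by decide +kernel)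
def c25002 : PP 9 3 T 0x2000020000000000000000000000000000000000000000000000000020000000000000040000000000000000000000000000000000000 := rS 0x12a67 (k2 c24672 c5446 (k1 c24132 k0)) (by decide +kernel)
def c25003 : PP 9 3 T 0x800000000000000200000000000000000000000000000000000000000000000000000000000000000000000000000000000000000000000000000000 := rS 0xd867297b5113419e97 (k8 c5452 c5453 c24985 c25001 c5409 c5331 c9733 c22097 (k1 c25002 k0)) (by decide +kernel)
def c25004 : PP 9 3 T 0x2000200000000000000000000080000000100001000000000000000000000000400001000000000000000000000000000010440000000 := rS 0xb4ac09c262537a876e49 (k8 c5334 c24139 c5398 c5565 c24743 c5564 c24789 c24926 (k2 c24851 c24882 k0)) (by decide +kernel)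
def c25005 : PP 9 3 T 0x12000200000000000000000000000000000000000000000000000000020000000000000040000000000000000000000000000000000000 := rS 0x3487fee1478dab3b180d62a331dca4d4f7a507d028d37f7c32c94dedc46b3cea3d3aab332a52bb3 (k8 c24253 c5446 c2024 c24132 c24092 c24839 c5568 c25002 (k8 c24972 c9733 c24139 c5397 c5396 c5393 c25003 c5565 (k8 c5381 c5380 c9664 c24803 c24810 c24746 c24897 c5332 (k8 c2129 c1139 c1704 c24945 c5476 c21680 c24230 c25004 (k4 c24977 c404 c24306 c1919 k0))))) (by decide +kernel)
def c25006 : PP 9 3 T 0x2000200000000000000000000080000000000000000000000000000020000000000000040000000000000000000000000000000000000 := rS 0x69fba763fac8c050331aca5ee1f1da07be9f50865926111acf3a8f4eaaccca94aece2bb4 (k8 c25005 c5414 c24253 c5446 c2024 c24132 c24092 c24839 (k8 c5568 c25002 c24972 c9733 c5445 c5396 c5393 c5398 (k8 c5448 c25003 c5380 c5332 c5517 c5333 c9578 c1704 (k8 c2129 c25004 c24945 c5339 c404 c5476 c24243 c1919 (k1 c24306 k0))))) (by decide +kernel)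
def c25007 : PP 9 3 T 0x1000000000022000200000000000000000000040000000000000000000000000000000000000000000000000000000000000000000000020400000000 := rS 0x3b058306e39943c27649ac89c27df0ca6f67b7 (k8 c24139 c24253 c5397 c5393 c25003 c5564 c24789 c5339 (k8 c509 c20351 c24932 c24760 c5317 c5435 c23573 c34 (k2 c24024 c24823 k0))) (by decide +kernel)
def c25008 : PP 9 3 T 0x2000200000000000000000000000000000000000000000000000000020000000000000040000000000000000000000000000000000000 := rS 0x4a67758780a697b411e744a6fefecf6fe1 (k8 c5459 c24139 c24253 c25003 c5565 c24743 c25002 c9733 (k8 c25005 c25006 c25007 c24929 c24926 c5323 c24192 c24760 k0)) (by decide +kernel)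
def c25009 : PP 9 3 T 0x400000000010000020000000000000000000000000000000000000000000000000020000000000002000000000000000000000000001000400000000 := rS 0x673b7bd283e351dca59a7b (k8 c5372 c173 c19356 c24836 c1704 c24765 c24753 c24810 (k2 c18477 c2129 (k1 c5653 k0))) (by decide +kernel)
def c25010 : PP 9 3 T 0x2000200000000000000000000000000000000000000000000000000020000000000000000000000000000000000000000000000000000 := rS 0x734b110ef6b293da7338314b337be19 (k8 c5393 c25003 c173 c25008 c24254 c24831 c1708 c5372 (k4 c19356 c24101 c24836 c25009 (k2 c5331 c395 (k1 c24853 k0)))) (by decide +kernel)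
def c25011 : PP 9 3 T 0x2000200000000000000000000000000000000000000000000000000000000000000000000000000000000000000000000000800000000 := rS 0x2bdfd01540a3e4fd67f85575978f8d392948a1cf73a1c9af394bdaa051a253786536614cecf6ed1 (k8 c25010 c24139 c24253 c5447 c5445 c5397 c5393 c5565 (k8 c24743 c5381 c5380 c5409 c5331 c9733 c24079 c395 (k8 c24759 c5372 c5373 c5374 c19356 c24130 c24905 c5323 (k8 c20946 c24916 c5458 c1651 c1240 c5168 c24928 c24758 (k4 c5592 c24151 c1243 c2453 k0))))) (by decide +kernel)
def c25012 : PP 9 3 T 0x10000000000000000000000000040000000000000000000000000000000000000000000500000000000001000000000000000400000000 := rS 0x3389d (k2 c24753 c5211 (k1 c24130 k0)) (by decide +kernel)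
def c25013 : PP 9 3 T 0x12000220000000000000000000000000000000000000000000000000000000000000000000000000000000000000000000000000000000 := rS 0x54aae0115787b850fd9dd65389143a36268fd9edda34a11a64c29b (k8 c5397 c5445 c5447 c25011 c25012 c25010 c24139 c24253 (k8 c5568 c5382 c5381 c5373 c5374 c24130 c12110 c18477 (k8 c1240 c24715 c24925 c24932 c1289 c20818 c1281 c2027 (k1 c24758 k0)))) (by decide +kernel)
def c25014 : PP 9 3 T 0x12000200000000000000000000000000000000000000000000000000000000000000000000000000000000000000000000000000000000 := rS 0x64f0673cbc2cd1c3f13aa9352af3b4aef86536614cecda223 (k8 c25011 c25010 c24253 c5447 c5445 c5397 c5393 c25003 (k8 c25012 c25013 c24826 c24746 c20804 c24081 c24758 c24873 (k4 c2504 c5534 c24804 c24756 (k2 c24934 c2559 (k1 c385 k0))))) (by decide +kernel)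
def c25015 : PP 9 3 T 0x2000200000000000000000000080000000000000000000000000000000000000000000000000000000000000000000000000000000000 := rS 0x120de43b859f011e8cda5f37f9163be37838fdd3b1fd67c2281c4a5ea1f1da07be9f50864c299d9edda2234ec5567b4 (k8 c25014 c5532 c5414 c5412 c25011 c25010 c24139 c24253 (k8 c5447 c5445 c5393 c5398 c5448 c25003 c5380 c5332 (k8 c5517 c5519 c9578 c24873 c25004 c5534 c5339 c404 (k8 c20351 c24243 c2618 c24932 c24924 c5504 c5582 c5586 (k8 c24265 c24306 c385 c2769 c18002 c2559 c16773 c24003 (k2 c5691 c20935 (k1 c24033 k0))))))) (by decide +kernel)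
def c25016 : PP 9 3 T 0x400000000000000000000000000000000000040004000000000000000000000000000000000000000000000000000000000000000200000000000000 := rS 0x3c329 (k2 c5317 c5534 (k1 c24760 k0)) (by decide +kernel)
def c25017 : PP 9 3 T 0x1000000000002000200000000000000000000000004000000000000000000000000000000000000000000000000000000000000000000000000000000 := rS 0x2b12814894dfdfdb88f694b (k8 c25015 c25014 c25011 c24139 c25003 c5565 c24743 c25007 (k2 c24760 c24926 (k1 c24192 k0))) (by decide +kernel)
def c25018 : PP 9 3 T 0x2000200000000000000000200000000000000000000000000000000000000000000000000000000000000000000000020000000000000 := rS 0x2b7de441f349022709ecf6e07 (k8 c20806 c24139 c24253 c5564 c24789 c5380 c24126 c24121 (k4 c441 c5582 c2886 c20105 k0)) (by decide +kernel)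
def c25019 : PP 9 3 T 0x2000200000000000000000000000000000000000000000002000000000000000000000000000000000000000000000001000000000000 := rS 0x4007a916a8fc93ee145650e34948efc0397b8ce768d89a3c4e13129bfbe9f5086536614cecf6e238ae77694b (k8 c25015 c25014 c24870 c5414 c25011 c24139 c24253 c5447 (k8 c5445 c5397 c5393 c5398 c5448 c25003 c5565 c24743 (k8 c5564 c24789 c5568 c5382 c5381 c5323 c385 c499 (k8 c25016 c25017 c5456 c24913 c5653 c24911 c25018 c24715 (k8 c24243 c10038 c404 c5585 c24896 c1623 c20818 c24908 k0))))) (by decide +kernel)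
def c25020 : PP 9 3 T 0x2000200000000000000000000000008000000000000000000000000000000000000000000000000000000000000000000000000000000 := rS 0x5676fb4 (k4 c25014 c24139 c20946 c20351 k0) (by decide +kernel)
def c25021 : PP 9 3 T 0x2000200000000000000000100000000000000000000000000000000000000000000000000000000000000000000000000000000000000 := rS 0xd21ffb85081efa7d421930edc6129f03c277b3 (k8 c24253 c25020 c24932 c25017 c24913 c25019 c24139 c5445 (k8 c5393 c5398 c5448 c25003 c5380 c24715 c24243 c404 (k2 c24306 c1919 k0))) (by decide +kernel)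
def c25022 : PP 9 3 T 0x2000200000000000000000000000000000000000000000000000000000000000000000000000000000000000000000000000000000000 := rS 0x659c55cd66990eb0b1333552e35948c067e0784ef6fb34a865028d (k8 c5381 c5380 c5393 c5446 c24253 c24139 c25020 c24932 (k8 c25017 c385 c25019 c24913 c119 c24255 c21680 c24132 (k8 c2179 c25021 c5561 c1918 c24096 c23766 c20748 c1246 (k1 c24202 k0)))) (by decide +kernel)
def c25023 : PP 9 3 T 0x8000200000000000000000000000000000000000000000000000000000400000000000000000000000000000000041002000000000000 := rS 0x1c562a04ff8dacd569b25028d37ec52bb7 (k8 c19230 c5488 c25022 c5565 c5381 c5380 c24777 c1918 (k8 c1475 c24096 c24230 c1605 c5680 c9422 c24032 c24820 k0)) (by decide +kernel)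
def c25024 : PP 9 3 T 0x200000000000000000200000004000000000000000000000000000000000000000000000000000000000000000000000000000000 := rS 0x50a7fc6d41f110b632188d76ef157b2f6418948f4868d1384fbfb1 (k8 c25022 c25003 c5564 c24789 c5381 c5561 c5560 c24192 (k8 c24914 c5224 c22045 c5406 c5401 c19230 c437 c25023 (k8 c23966 c24133 c20837 c389 c390 c5576 c2878 c3000 (k1 c5680 k0)))) (by decide +kernel)
def c25025 : PP 9 3 T 0x40000200000000000000000000000004000100000000000000000000000000000000000000000000000000000000000000000000000000 := rS 0x2459b017f3ca38ab1910f3af57b88c3e451ad2952fd78b53e6d36b86365e2f7a051bdfd89ec5159 (k8 c25024 c24715 c24938 c25022 c25003 c5381 c5380 c24055 (k8 c9421 c5224 c24744 c5465 c5579 c24246 c24230 c5401 (k8 c5405 c5489 c24762 c437 c456 c5517 c5331 c5333 (k8 c5519 c24925 c2779 c24920 c24826 c5658 c24767 c555 (k4 c2139 c2501 c20750 c24874 k0))))) (by decide +kernel)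
def c25026 : PP 9 3 T 0x48000200000000000000000000000004000000000000000000000000200000000000000000000000000000000000000000000000000000 := rS 0xf11013e342dc7086cbf7a37623d50866509722bc45159 (k8 c25024 c24715 c5401 c456 c5404 c25025 c5315 c1195 (k8 c5436 c25022 c5381 c5585 c1660 c2778 c18677 c2159 (k4 c24124 c24963 c5281 c5680 (k1 c5462 k0)))) (by decide +kernel)
def c25027 : PP 9 3 T 0x48000200000000000000000000000004000000000000000000000000000000000000000000000000000000000000000000000000000000 := rS 0x21fbd606165349aad722a54ce9778ab5028dd88cc7ea10cca05159 (k8 c25024 c24715 c25025 c5315 c1195 c5318 c5316 c25022 (k8 c5381 c5380 c5490 c5401 c5404 c5487 c5488 c456 (k8 c24238 c25026 c24051 c14519 c1755 c24902 c5506 c24770 (k1 c15747 k0)))) (by decide +kernel)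
def c25028 : PP 9 3 T 0x40000200000000000000000000040004000000000000000000000000000000000000000000000000000000000000000000000000000000 := rS 0x3d5341f066d04e131ca74f6497b88f3b037fa592aca4fb4902a11478dafeeacf7d92f0d986651b1 (k8 c25022 c25025 c5315 c25027 c24932 c1177 c25003 c25024 (k8 c5229 c5507 c24108 c24715 c1195 c5380 c24306 c2883 (k8 c5680 c1757 c5678 c5586 c5508 c19356 c9733 c499 (k8 c509 c24938 c24815 c5317 c5564 c24789 c5211 c23573 (k4 c24915 c24903 c20810 c22740 k0))))) (by decide +kernel)
def c25029 : PP 9 3 T 0x40000200000000000000000000000004000000000000000000000000000000000000000000000000000000000000000000000000000000 := rS 0x9180a1dbccc4d3d43e3ba5259329570b293ed2f1bfc8ad78eb27dcf0d9a75662350e747219940a1028fefec4f759 (k8 c25024 c24938 c25022 c25003 c5568 c5380 c24715 c25025 (k8 c5315 c5317 c19356 c1195 c9733 c24972 c24815 c25027 (k8 c24932 c5229 c1177 c23838 c5507 c5582 c5586 c24108 (k8 c24306 c2883 c5680 c1718 c1757 c1760 c5678 c25028 (k8 c5332 c5517 c5519 c24805 c1232 c1327 c24091 c2078 (k2 c24033 c20935 k0)))))) (by decide +kernel)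
def c25030 : PP 9 3 T 0x200000000000000000000000004000000000000000000000000000000000000000000000000000000000000000000000000000000 := rS 0x821122359aa3569a51923d038fc32f09425f66ad4fedab2814684fbfb1 (k8 c25022 c25003 c5564 c5381 c5380 c25024 c25029 c5572 (k8 c5573 c19230 c24249 c5224 c24932 c5315 c5318 c5432 (k8 c5436 c1177 c24922 c13297 c24801 c1589 c24051 c24238 (k2 c20747 c458 (k1 c24035 k0))))) (by decide +kernel)
def c25031 : PP 9 3 T 0x80000200000000000000000000000000000000000000000000000000000100000000000000000000000000000000000000000000000000 := rS 0x1f4707a116b78daa3369a51028def8c6b3294bbc53eadd990452182dec46b3a (k8 c25030 c5324 c25022 c5474 c24955 c5417 c543 c19230 (k8 c5573 c5572 c5323 c1227 c24124 c20946 c5476 c25003 (k8 c5381 c5380 c5678 c13297 c17788 c1589 c24230 c24051 (k4 c24278 c1491 c20878 c6195 (k1 c405 k0))))) (by decide +kernel)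
def c25032 : PP 9 3 T 0x80000200000000000000000000000000000000000000000000000000000000000000000000000000000000000000000000000000000000 := rS 0x7a3f5034fc6aef7b5ccec856ac4e28d129bfbe45aca5c305bd88d5e33a (k8 c25030 c5323 c5324 c25022 c5474 c24955 c1227 c20946 (k8 c5326 c25003 c5565 c24743 c5381 c5571 c5421 c5573 (k8 c25031 c24088 c2189 c24967 c24779 c24298 c2941 c1182 (k2 c14449 c2766 (k1 c6195 k0))))) (by decide +kernel)
def c25033 : PP 9 3 T 0x200000000000000000000000000000000000000000000000000000000000000000000000000000000000000000000000000000000 := rS 0x54bf557b2cebdc461ff9d2bc5efdaede53597a96de63578ceb6281 (k8 c5380 c25022 c25030 c5323 c5324 c5325 c5474 c5477 (k8 c20946 c24124 c25032 c20351 c24055 c5226 c24109 c24246 (k8 c5517 c5331 c5333 c24925 c24757 c24826 c5405 c5489 (k1 c24767 k0)))) (by decide +kernel)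
def c25034 : PP 9 3 T 0x20000000000 := rS 0x1a1 (k2 c25033 c8199 k0) (by decide +kernel)
def c25035 : PP 9 3 T 0x4000000000000040000000000000000000000000000000000000000000000000000000000000000150000000000000000000000000100000004000000000 := rS 0x786c84a438ed6053a1 (k8 c25033 c25034 c5212 c5341 c5561 c9666 c5683 c24773 (k1 c5401 k0)) (by decide +kernel)
def c25036 : PP 9 3 T 0x4000000000000040000000000000000000000000000000000000000000000000000000000200000050000000100000000000000000100000004002000000 := rS 0x5b098d4e0f137ac02329ef8c74229 (k8 c25034 c25033 c24777 c5494 c5315 c9667 c25035 c20792 (k4 c1330 c24787 c437 c2868 (k2 c24133 c20834 k0))) (by decide +kernel)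
def c25037 : PP 9 3 T 0x200000000000000000000000000000000204000000002000000 := rS 0xf11a6c8673b94ec7be31 (k8 c24777 c5494 c5393 c5315 c5326 c389 c5224 c5653 (k2 c5401 c437 k0)) (by decide +kernel)
def c25038 : PP 9 3 T 0x400000000000000000000000000000000000000000000000000000000002000000000000000000000000000000000000000000000000000002000000 := rS 0x9dece53b1 (k4 c5393 c5315 c5401 c5323 (k1 c5224 k0)) (by decide +kernel)
def c25039 : PP 9 3 T 0x40000000000000000000000000000000000000000000000000000000000200000050000000000000000000000000100000004002000000 := rS 0xe08c37fbd602521c76b06778f7f4229 (k8 c25034 c25033 c5494 c25038 c24088 c5212 c5341 c5561 (k4 c9666 c24773 c5506 c20792 (k2 c25036 c24787 (k1 c753 k0)))) (by decide +kernel)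
def c25040 : PP 9 3 T 0x40000000000000000000000000000000000000000000000000000000040200000040000000000000000000000000100000000002000000 := rS 0x1ee46b5c7c70509bc4db165f7ccead (k8 c2067 c24088 c5494 c22045 c5393 c25039 c24067 c24784 (k4 c24790 c379 c2190 c753 (k2 c14449 c24858 k0))) (by decide +kernel)
def c25041 : PP 9 3 T 0x41000000000000000000000000000000000000000000000000000000000200000080000000000000000000000000000000000000000000 := rS 0x1e2506cfdfdf (k4 c5494 c5584 c5406 c1182 (k2 c5196 c5578 k0)) (by decide +kernel)
def c25042 : PP 9 3 T 0x400000000001000010000000000000000000000000000000000000001051000100040000000001000041000100020000000000000018000440000000 := rS 0xb3476d133e16fa6cf6cd1c339e4e355c4da3a1 (k8 c25033 c2129 c24043 c24826 c24185 c24767 c388 c387 (k8 c2501 c20767 c2562 c2565 c5534 c24795 c24842 c24027 (k2 c5532 c2874 k0))) (by decide +kernel)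
def c25043 : PP 9 3 T 0x400000000040000000000000000000000000040000000000000000000000000000000000000000008000000000000000000000208008000002000000 := rS 0x23d239d59b7dc27b79ed3c03965eca7729d88ece1a1 (k8 c25033 c24921 c3745 c5393 c5315 c5326 c5224 c22045 (k8 c25016 c24760 c24834 c387 c10458 c3057 c5538 c5532 (k4 c18383 c24962 c2874 c24148 k0))) (by decide +kernel)
def c25044 : PP 9 3 T 0x40000000000000000000000000000000000000000000000000000000040200000000000040000000000000000000000000000002000000 := rS 0x71b7e06cd47834f79c48b85ea0b24bdc461fa504a26263827942816a35d52fdf18cb643e9dfbc891d25d61965b1abc65231efabf63a1 (k8 c25033 c5393 c25041 c5494 c24777 c5315 c25038 c437 (k8 c24133 c22045 c5212 c5342 c5341 c25040 c5582 c5326 (k8 c25037 c5224 c5653 c5576 c5405 c5489 c2185 c390 (k8 c20909 c3000 c5680 c24921 c2878 c24043 c24789 c25043 (k8 c5517 c5331 c5333 c5334 c5516 c5519 c3056 c3036 (k8 c25042 c5372 c5522 c5526 c24259 c21152 c3003 c1663 (k1 c24028 k0))))))) (by decide +kernel)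
def c25045 : PP 9 3 T 0x4000000000008000000000000000000000200000000000000000000000000000000500000000000000000100000000000000000100000000002000000 := rS 0x7056ec597a1 (k4 c25033 c22045 c5393 c5490 (k2 c24734 c24164 k0)) (by decide +kernel)
def c25046 : PP 9 3 T 0x8000000000000040000000000000000000000000080008000000000400000004000000000000000000000000000000000000000000000000000000000000 := rS 0x12300ce924224325d61eba1 (k8 c25033 c5477 c5212 c5342 c5561 c9667 c5334 c18477 (k2 c19710 c23214 (k1 c19568 k0))) (by decide +kernel)
def c25047 : PP 9 3 T 0x400000000020000010000000000000000200000008000000000000000000000040090400000000000001000000020000000000000400000000000000 := rS 0x33fc3f23d3863a4789a3d67a1 (k8 c25033 c5532 c2874 c24043 c5562 c5341 c24262 c24148 (k4 c24113 c5457 c20767 c19070 k0)) (by decide +kernel)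
def c25048 : PP 9 3 T 0x40000010000000000000000000000000000000000000000000000000000200000000000040000000020000000000000000000002000000 := rS 0x39f0b3534fc1bbdc160c48255ea3b13048b6310890e3ad1562ad52df59ed2971379fba75b3228d5e28d6bb56b1df94a7bc6d250b2f63a1 (k8 c25033 c5393 c22045 c24032 c25044 c5579 c5680 c5315 (k8 c5494 c5212 c141 c205 c24056 c25038 c437 c2937 (k8 c25045 c5224 c24613 c24934 c24043 c25046 c24834 c5532 (k8 c14125 c5531 c5413 c24164 c4498 c5341 c5561 c9667 (k8 c24777 c24133 c20779 c2868 c3744 c5477 c97 c25047 (k8 c20628 c694 c20809 c24086 c24828 c10429 c2505 c5536 (k2 c24804 c5654 k0))))))) (by decide +kernel)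
def c25049 : PP 9 3 T 0x40000000000000000000000000000000000000000000000000000000000200000000000040000000020000000000000000000002000000 := rS 0x19ae07e671be8f71acd33b4a5a7902a189b2ccf3a94fbb62f3d99146a8d6bb57c6d2ac3c7bfa1 (k8 c25033 c5494 c25038 c5212 c25044 c5579 c141 c205 (k8 c24056 c437 c2937 c25045 c24934 c5393 c24613 c5315 (k8 c5224 c24088 c22045 c24043 c24032 c752 c5680 c25046 (k8 c24834 c5530 c5532 c1607 c2874 c14125 c25048 c23062 (k2 c24028 c2505 (k1 c3063 k0)))))) (by decide +kernel)
def c25050 : PP 9 3 T 0x40000000000000000000000000000000000000000000000000000000000200000000000040000000000000000000000000000002000000 := rS 0x2b13e2738ac48ad2578d5e3df1290e3b58d8b2c53a1 (k8 c25033 c25034 c22045 c5393 c5212 c5341 c5561 c9666 (k8 c5494 c25038 c437 c25041 c25044 c2937 c2086 c25049 (k4 c24790 c24921 c24773 c2068 k0))) (by decide +kernel)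
def c25051 : PP 9 3 T 0x40000000000000000000000000000000000000000000000000000000080000000000000040000000000000000000000000000002000000 := rS 0x379c5581213eccb69f228c51ad76af7fc61121c76b129d88d593a1 (k8 c25033 c25050 c438 c5393 c5315 c5212 c5341 c5561 (k8 c9667 c5579 c5496 c141 c205 c24056 c1918 c2937 (k8 c2883 c24133 c25045 c380 c20779 c13297 c2868 c20758 (k1 c24787 k0)))) (by decide +kernel)
def c25052 : PP 9 3 T 0x400000000040000000000000000000000000000000000000000000000000000000000000000000000040000000010000000000100000000002000000 := rS 0xf135467ef4a4e95db31290c7b1dac4a762c913a7d5ab1373c453a1 (k8 c25033 c25034 c25038 c24787 c20792 c20758 c24921 c24790 (k8 c25050 c5393 c5315 c5212 c5341 c5560 c5561 c9666 (k8 c24734 c24773 c5224 c5678 c5584 c17788 c1589 c5196 (k1 c13617 k0)))) (by decide +kernel)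
def c25053 : PP 9 3 T 0x8000000000000000000000000000000000000000000000100000000000000000000040500000150004050000000000000000000201010000000000000 := rS 0x1a833508fdaf3b (k4 c5326 c5465 c5576 c5578 (k2 c389 c3618 (k1 c21481 k0))) (by decide +kernel)
def c25054 : PP 9 3 T 0x4006000000000008000020000000000000000000040004000000100000000001000000140000000000000000100000000000000000000010000040000000 := rS 0x89e5b5 (k4 c18383 c20558 c24803 c447 k0) (by decide +kernel)
def c25055 : PP 9 3 T 0x4004400000000048000000000000000000000000040004000000000000000000000000040000000000000000100000010000000000000010000002000000 := rS 0x1208f89c57e648da08f3ab50fa6fc11d2591eb12913accdc6780b59aaa065ec53eaf788974229 (k8 c25034 c25033 c9666 c25038 c24824 c24921 c5393 c22045 (k8 c5680 c3000 c5689 c10483 c5487 c24787 c24041 c24790 (k8 c5315 c5212 c5562 c5342 c5341 c24760 c5536 c1164 (k8 c1199 c25054 c9733 c5211 c24942 c24813 c5414 c23259 (k2 c24036 c5675 (k1 c3038 k0)))))) (by decide +kernel)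
def c25056 : PP 9 3 T 0x40000010000000000000000000080004000000000000000001000000000000000000000000000000010000000000000000000000000000 := rS 0x22ab4da2ac4a4b23d604eb33707c93a1 (k8 c25033 c5334 c5517 c24787 c24041 c24790 c5212 c5562 (k4 c5342 c9666 c24826 c24705 (k2 c24942 c5414 (k1 c24952 k0)))) (by decide +kernel)
def c25057 : PP 9 3 T 0x49000000000000000000000000080004000000000000000001000000000100000000001000000000010000000000000002000000000000 := rS 0xf0ed4d6873de719acf7a8ddfa67 (k8 c5487 c5405 c5518 c5519 c1473 c1916 c25056 c5372 (k4 c5373 c5523 c18383 c24177 (k1 c24893 k0))) (by decide +kernel)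
def c25058 : PP 9 3 T 0x2000000000048000020000000000000000000000000000000000000010000000000800000000400000000000000000000000000000000000000000000 := rS 0x7f7cd9db5 (k4 c18383 c24177 c24640 c1770 (k1 c20587 k0)) (by decide +kernel)
def c25059 : PP 9 3 T 0x400000000040000000000000000000000000000000000000000000000000000000000000000000000040000000010000000000000000000002000000 := rS 0x11f13f99236823cead43e914da33c14b808c1ac336aa83c69d30254ceafd94efde44788947a4b23d6253b1658d592d313a7d5ab1599bb4229 (k8 c25034 c25033 c24787 c24041 c20792 c20758 c24921 c24790 (k8 c25051 c25050 c438 c22045 c5393 c5315 c5212 c5562 (k8 c5342 c5560 c9666 c25038 c25052 c5582 c5326 c24953 (k8 c24824 c5487 c5488 c24241 c24083 c25053 c5680 c3000 (k8 c390 c5689 c5653 c10483 c25057 c24760 c25055 c5536 (k8 c10035 c1164 c1199 c25058 c9733 c5211 c24942 c24813 (k2 c23259 c24036 (k1 c5675 k0)))))))) (by decide +kernel)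
def c25060 : PP 9 3 T 0x40005800000000000000010000000000000000200000000000000000000010000000140000000000000000000000004000000000000000000000000000800 := rS 0x3450ee28933d9ba1 (k8 c25033 c5495 c5453 c12878 c5691 c959 c1780 c24057 k0) (by decide +kernel)
def c25061 : PP 9 3 T 0x4800000000048000000000000000000000000000000000000000000000000000000000100000000000000000000010000000000200000000002000000 := rS 0x7abddfc49f9404f6f305035bee1f0c54774bda08f3a677ebc55e252591eb02756ac5666e67ced40cbd8a7c53a1 (k8 c25033 c25034 c24921 c5393 c22045 c5680 c5326 c5453 (k8 c24787 c24041 c20792 c20758 c24790 c5212 c5562 c5342 (k8 c9666 c5406 c5401 c5405 c5487 c24660 c9733 c24705 (k8 c25056 c491 c5414 c14406 c3060 c24866 c24877 c24034 (k8 c20781 c691 c3067 c25060 c5588 c21326 c503 c2341 (k1 c24761 k0)))))) (by decide +kernel)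
def c25062 : PP 9 3 T 0x800000000004000000000000000000000000040004000000000000000000000000000000000000000000000000000000000000000400000000000800 := rS 0x341e87b43bcd9ecd7b88f68f0 (k8 c24932 c24759 c5409 c499 c5495 c5453 c20781 c24959 (k4 c691 c24761 c24057 c1926 k0)) (by decide +kernel)
def c25063 : PP 9 3 T 0x800000000044000000000000000000000000040000000000000000000000000000000000000000000000000000010000000000200000000002000000 := rS 0x7abcda06bce02c1af71dc54469dda0949647ac4a7622758accddef784ef4229 (k8 c25034 c25033 c5326 c24932 c5582 c24787 c24041 c20792 (k8 c24790 c5393 c5315 c5212 c5562 c5342 c9666 c24759 (k8 c9066 c5409 c5414 c491 c499 c24877 c25062 c24034 (k4 c5523 c24161 c24890 c24986 (k1 c24761 k0))))) (by decide +kernel)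
def c25064 : PP 9 3 T 0x800000000044000020000000000000000000000000000000000000010000000000000000000004001000000000010000000001000000000400000000 := rS 0x2a628d035accdda1 (k8 c25033 c24787 c24041 c5523 c24161 c24892 c2025 c24818 k0) (by decide +kernel)
def c25065 : PP 9 3 T 0x4800000000040000000000000000000000000000000000000000000000000000000000100000000000000000000010000000000200000000002000000 := rS 0x344f68770b8a25028aad3699d80aad3a491187e94ae786cd40252591eb1b16589d3ead58accdccf66fbe77a1 (k8 c25033 c5326 c5582 c5495 c5453 c24787 c24041 c20792 (k8 c20758 c24921 c24790 c22045 c5393 c5212 c5562 c5342 (k8 c9666 c5680 c25061 c24932 c5683 c25063 c5517 c5331 (k8 c5334 c1273 c1281 c3066 c25064 c24705 c24942 c5414 (k8 c1249 c1149 c1200 c3060 c10690 c957 c1780 c24057 k0))))) (by decide +kernel)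
def c25066 : PP 9 3 T 0x800000000044000000000000000000000000000000000000000000000000000000400000000000000001000100010000000000200000000002000000 := rS 0xd1439ee048ff9ad3699d80aad3a491187e94ae780949647ac09d5ab1599b99ecdf7cef4229 (k8 c25034 c25033 c5326 c5582 c5495 c5453 c24787 c24041 (k8 c20792 c20758 c24790 c5212 c5562 c5342 c9666 c24932 (k8 c5683 c25063 c5517 c5331 c5334 c1273 c1281 c3066 (k8 c25064 c24705 c24942 c17931 c24793 c1249 c6202 c10690 (k2 c2201 c24057 k0))))) (by decide +kernel)
def c25067 : PP 9 3 T 0x800000000040000000000000000000000000000000000000000000000000000000000100000000000000000000010000000000200000000002000000 := rS 0x4aabf649146285ae81f132d3ead589b9aba1 (k8 c25033 c5454 c24787 c20792 c20758 c24921 c22045 c25065 (k8 c5463 c5465 c5578 c24230 c10035 c25066 c5406 c5488 (k1 c18008 k0))) (by decide +kernel)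
def c25068 : PP 9 3 T 0x40000010000000000000000000080000000000000000000000000000405000000480000001000100000000000000000000004000000000 := rS 0x68a1cf70247fcd69b41292c8f580f9274229 (k8 c25034 c25033 c5334 c5517 c5212 c5562 c5342 c9666 (k8 c24705 c24942 c17931 c24793 c1249 c6202 c10690 c2201 (k1 c24057 k0))) (by decide +kernel)
def c25069 : PP 9 3 T 0x800000000044000000000000000000000000080000000000000000000002000000400000000080000000200100010000000000000000000002000000 := rS 0x20087ce2ad3a491189d666e67b3523a1 (k8 c25033 c10035 c5495 c5453 c24787 c24041 c24790 c5331 (k4 c5334 c1273 c1281 c25068 (k2 c5373 c25064 (k1 c2141 k0)))) (by decide +kernel)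
def c25070 : PP 9 3 T 0x8800000000040000000000000000000000000000000000000000000000000000000000000000000000000000000010000000000100000000002000000 := rS 0x1b923c2d0ce02c1b017b8ee2a234eaaf694b782b9193bf78fdae811292c8f29d889d5ab1599b9aacdd9d6053a1 (k8 c25033 c25034 c5212 c24734 c5495 c5454 c24787 c24041 (k8 c20792 c20758 c24790 c5393 c5315 c5562 c5342 c9666 (k8 c5463 c5465 c5576 c24108 c17693 c24230 c25035 c24932 (k8 c25069 c24759 c11079 c9066 c5409 c5414 c491 c499 (k8 c3070 c24877 c25062 c24034 c24161 c22337 c25064 c1482 (k1 c20539 k0)))))) (by decide +kernel)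
def c25071 : PP 9 3 T 0x40000010000000000000000000080000000000000000000000000000001000000080020000000200008000000000000000004000000000 := rS 0x1e9c3128145569b41292c8f585987c93a1 (k8 c25033 c5334 c5517 c24041 c5212 c5562 c5342 c9666 (k8 c24705 c24942 c5414 c1249 c1149 c3060 c24128 c957 k0)) (by decide +kernel)
def c25072 : PP 9 3 T 0x800000000044000010000000000000000000040000000000000000000000000000000000000000000000000000008000000000000000004002000000 := rS 0x1b0c5a1e19d1ed0e39050362a3bda08c4a4b23d6252b367b3453a1 (k8 c25033 c25034 c5495 c5453 c24041 c5315 c5212 c5562 (k8 c5342 c9666 c9733 c24705 c491 c5414 c24877 c24034 (k8 c24078 c24959 c691 c25062 c24274 c24057 c5476 c5654 (k1 c1481 k0)))) (by decide +kernel)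
def c25073 : PP 9 3 T 0x4800000000044000000000000000000000000040000000000000000000000000000000000000080004000000000008000000000000000004002000000 := rS 0x3fdbf0181fce2a2370ad43fb4f0b40d79c1292c8f58d8b2d66cf66fbc53a1 (k8 c25033 c25034 c5584 c5495 c5453 c24041 c22045 c5393 (k8 c5212 c5562 c5342 c9666 c25072 c5523 c24161 c22337 (k8 c22097 c24763 c1148 c17839 c5409 c5414 c24813 c2202 (k4 c3070 c24866 c24619 c24755 k0)))) (by decide +kernel)
def c25074 : PP 9 3 T 0x4000000000000044000000000000000000000000000000000000000000000000000000000000000000000000000000010400000001000000000440000000 := rS 0xdafce28b51291eb027599b853a1 (k8 c25033 c25034 c24787 c24041 c24790 c5212 c5562 c9666 (k4 c1148 c24892 c24813 c5414 (k1 c24757 k0))) (by decide +kernel)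
def c25075 : PP 9 3 T 0x4800000000044000000000000000000000000000000000000000000000000000000000000000080000000000000010000000000000000000002000000 := rS 0xd0f0c05c2df817ce2ab440ed33a6a2488c3f4af78949647ac09d666e67b3540cbd8a7c53a1 (k8 c25033 c25034 c24921 c5393 c22045 c5680 c5495 c5453 (k8 c24787 c24041 c24790 c5212 c5562 c5342 c9666 c5584 (k8 c25073 c5517 c5331 c5334 c25074 c5523 c24705 c25071 (k8 c24942 c5414 c17931 c1249 c2515 c3060 c3070 c19604 (k2 c24969 c2202 k0))))) (by decide +kernel)
def c25076 : PP 9 3 T 0x40000000000000000000000000000000000000000000000000000000000000000000000040000000010000000000000000000002000000 := rS 0x873db4625f35a37dc2490fc5695b411e75ae8df72bd41e3d99159acfef2cd62ad3727c4e252591eb1b165b2453a1 (k8 c25033 c25034 c25050 c22045 c5393 c5212 c5562 c5342 (k8 c9666 c24790 c24921 c24787 c20758 c20792 c24041 c25059 (k8 c5453 c5495 c25067 c24734 c25070 c5680 c25075 c25035 (k8 c5505 c5507 c24649 c9733 c24705 c25072 c5414 c5517 (k8 c5334 c3060 c24866 c24851 c17931 c1149 c8355 c957 (k2 c958 c24057 k0)))))) (by decide +kernel)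
def c25077 : PP 9 3 T 0x40000010000000000000000000080000000000000000000000000000000000000400000040000000000000000000000000004002000000 := rS 0x3c69f6aac467b3784ed1a90f9ed168111292c8f5894ec5963564c4e2aa10f88c92ab479c053a1 (k8 c25033 c25034 c25076 c2874 c24826 c5334 c5331 c5517 (k8 c24032 c24044 c24043 c25050 c438 c22045 c5393 c5315 (k8 c5212 c5562 c5342 c9666 c9667 c24751 c24705 c5548 (k8 c5675 c10035 c23214 c24952 c5401 c386 c1330 c21680 (k2 c24948 c24230 (k1 c5680 k0)))))) (by decide +kernel)
def c25078 : PP 9 3 T 0x24000000000000000000000000080000000000000000000000000000800400001000008000000000000000000000000000008000000000 := rS 0x13a7ebc560ad (k4 c2033 c1606 c434 c1335 (k2 c24932 c24845 k0)) (by decide +kernel)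
def c25079 : PP 9 3 T 0x4000000000065000000000000000000000000080000000000000000000000000000040400001000008000000000020000000000000000008000000000 := rS 0x4e9faf1582b518d76af7bde81 (k8 c752 c24306 c5196 c5454 c25078 c24051 c24798 c754 (k4 c434 c1335 c24932 c24845 k0)) (by decide +kernel)
def c25080 : PP 9 3 T 0x4000000000061000000000000000000000000080000000100000000000000000000044400001000008000000000020000000000000010008000000000 := rS 0x35066d746bca769533bf5e3b2548f6b0810fbddeba1 (k8 c25033 c5519 c5333 c5517 c752 c5212 c5560 c5531 (k8 c25079 c5401 c5405 c5487 c5488 c7262 c24819 c753 (k4 c1605 c388 c24051 c21481 k0))) (by decide +kernel)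
def c25081 : PP 9 3 T 0x1000000000009000000000000000000000000000000000100000000000050000000044100000001009100000100020000000000001010000440000000 := rS 0x1a8339db5d1af24a99dfaf1 (k8 c5401 c5405 c5487 c5488 c24811 c753 c1605 c5325 (k2 c388 c24051 (k1 c21481 k0))) (by decide +kernel)
def c25082 : PP 9 3 T 0x40000010000000000000000000080000000000000000000000000000000000000400000040000000000000000000000000000002000000 := rS 0x235aeb16abf3bdb34caa4d5b567f84f4b571fc9c3e348a787c121337d1e3dac4a7623564c4d43ef409c196d30fbdc92f54e88d57a1 (k8 c25033 c24826 c5331 c1273 c5519 c5334 c5333 c5517 (k8 c25051 c22045 c25076 c752 c24306 c24032 c24043 c25050 (k8 c438 c5393 c5315 c5212 c5560 c2874 c14125 c25077 (k8 c24789 c379 c380 c3036 c5576 c3056 c24113 c24185 (k8 c5548 c24026 c5457 c20767 c25080 c24746 c20804 c24080 (k8 c25081 c5196 c24758 c5454 c1335 c1606 c754 c24051 k0)))))) (by decide +kernel)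
def c25083 : PP 9 3 T 0x4004000000000045000000000000000000000000000000000100000000000000000000000400000805000000000100000000000000000000000000000000 := rS 0x6ba3558fcef0476ba1 (k8 c25033 c5532 c9667 c5196 c24758 c2557 c24798 c2033 (k1 c24134 k0)) (by decide +kernel)
def c25084 : PP 9 3 T 0x48000010000000000000000000080000000000000000000000000000400000000000000040000000000000000000000000000002000000 := rS 0x32efb50223dac4a7623564b4d02cb48b853a8d339c276f27ebc5eaf71187d526adaac957a1 (k8 c25033 c24826 c25082 c5532 c24746 c20804 c5517 c5331 (k8 c5333 c5519 c5401 c5405 c24767 c5325 c25076 c5487 (k8 c753 c1273 c2899 c24752 c22045 c752 c25051 c25050 (k8 c438 c5393 c5315 c5212 c5560 c9667 c24051 c24134 (k2 c21481 c25042 k0))))) (by decide +kernel)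
def c25085 : PP 9 3 T 0x48000010000000000000000000080000000000000000000000000000000000000000000040000000000000000000000000000002000000 := rS 0x4ff8dac95d8b2d4270 (k8 c25076 c24032 c22045 c5393 c5488 c25084 c5465 c1605 (k1 c5680 k0)) (by decide +kernel)
def c25086 : PP 9 3 T 0x40000010000000000000000000080000000000000000000000000000000000000000000040000000000000000000000000000002000000 := rS 0x3551ad756789f9b3549ab6ab255ca763ef409c196d3 (k8 c25051 c22045 c25076 c752 c24306 c5393 c5315 c24826 (k8 c25082 c5532 c24746 c20804 c25085 c24758 c25083 c2557 (k4 c5465 c24798 c2891 c24051 k0))) (by decide +kernel)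
def c25087 : PP 9 3 T 0x4000000000000000000000000000004000100000000000000000000000000000000008000000000000000000000000000000000000000 := rS 0x2c1e029 (k4 c25034 c24932 c24948 c1330 k0) (by decide +kernel)
def c25088 : PP 9 3 T 0x40000000000000000000000000080000000000000000000000000000000000000000000040000000000000000000000000000002000000 := rS 0x71b7d9b036a35d548defaa52a677eec9c29e1f098253b479ac1a87ce124224bac4a762c989c57de813832da7a1 (k8 c25033 c25051 c22045 c25076 c752 c24306 c24044 c24043 (k8 c25050 c5393 c5315 c5212 c5342 c9667 c5334 c25086 (k8 c5373 c5522 c5523 c5526 c18477 c17919 c2868 c379 (k8 c380 c3056 c25087 c5405 c5487 c5488 c5489 c24660 (k8 c753 c24772 c1605 c24257 c2200 c2075 c3003 c1663 (k1 c24028 k0)))))) (by decide +kernel)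
def c25089 : PP 9 3 T 0x40000000000000000000000000000000000000000000000000000000000000000000004000100000020000000000000010000002000000 := rS 0xce76442d8c7bed41fb5c27e213844863d8ed6253b150a0597a1 (k8 c25033 c22045 c752 c24032 c5393 c5315 c5212 c5341 (k8 c5560 c5561 c9667 c380 c5680 c2868 c5465 c5576 (k8 c24230 c24134 c1475 c24133 c20779 c5326 c389 c21481 k0))) (by decide +kernel)
def c25090 : PP 9 3 T 0x40000000000000000000000000000000000000000000000000000000200000000000000000100000020000040000004010000002000000 := rS 0x19cec881313844863d8ed6253a1 (k8 c25033 c5315 c5212 c5341 c5560 c5561 c9667 c379 (k4 c2868 c20779 c5326 c389 (k1 c21481 k0))) (by decide +kernel)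
def c25091 : PP 9 3 T 0x48000000000000000000000000040000000000000000000000000000040000000000000000000000020000000000000010000002000000 := rS 0x191107c5b18f7da8d74f2352a67088f6b129f7a0597a1 (k8 c25033 c22045 c752 c24306 c5315 c5212 c5560 c9667 (k8 c5487 c5488 c753 c25089 c1605 c24051 c24134 c1475 (k4 c24133 c25090 c14449 c2997 (k1 c25043 k0)))) (by decide +kernel)
def c25092 : PP 9 3 T 0x40000000000000000000000000000000000000000000000000000000400000000000000040100000000000000000000000000002000000 := rS 0x2c128adefb502329d8abfde8165ece9670698d593a1 (k8 c25033 c25050 c438 c25051 c25076 c25088 c25091 c22045 (k8 c752 c24306 c20748 c5393 c5315 c9667 c24051 c24134 (k4 c2891 c5678 c5683 c2181 k0))) (by decide +kernel)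
def c25093 : PP 9 3 T 0x20000010000000000000000000040008000000000000000000000040000000000000000000200000020000000004000404000002000000 := rS 0x3d8700b249ebe4e165c4d22b07aa3d67a1 (k8 c25033 c5532 c2874 c5477 c754 c10035 c24043 c22045 (k8 c24277 c24113 c24148 c5588 c691 c10458 c24889 c397 k0)) (by decide +kernel)
def c25094 : PP 9 3 T 0x40000000000000000000000000000000000000000000000000000000400000000000000040000000000000000000000000000002000000 := rS 0x3fe07f368671beb31ded04c9e1f78d9a336a91463de9d255e2ab5819918411290c7b1d25d6253b150fbd02cbd9d2ce0d31ab274229 (k8 c25034 c25033 c25050 c438 c25051 c25076 c25088 c25091 (k8 c22045 c752 c24306 c24032 c5393 c5315 c5212 c5342 (k8 c5341 c5560 c5561 c9666 c24863 c25092 c753 c754 (k8 c24092 c1330 c2181 c24932 c5678 c24833 c5326 c5454 (k8 c5492 c5495 c17693 c3588 c5680 c2878 c24834 c3744 (k8 c5532 c14125 c25093 c24161 c24180 c2201 c24619 c24861 k0)))))) (by decide +kernel)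
def c25095 : PP 9 3 T 0x800000000000000020000000000000000000040000000100000000000014000000004000000000000000000000000000040000000405000000000000 := rS 0xe06e0af0b401acd (k8 c5495 c5522 c24161 c22337 c24146 c1481 c5654 c24078 k0) (by decide +kernel)
def c25096 : PP 9 3 T 0x10000000000000000000040008000100000400000000000000020000000200000000000000000000000004000404000000000000 := rS 0x24bdc16e11c0dd23e12d8c5eba1 (k8 c25033 c5477 c5476 c5474 c5459 c9793 c1481 c5654 (k4 c24262 c24078 c397 c400 (k1 c24889 k0))) (by decide +kernel)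
def c25097 : PP 9 3 T 0x800000000000000010000000000000000000040008000000000400000000000100000000000200000000000000000000000004000000000000000400 := rS 0x90381bbdc18f5 (k4 c5477 c24034 c20809 c24086 (k2 c24532 c24889 (k1 c400 k0))) (by decide +kernel)
def c25098 : PP 9 3 T 0x40000000000000000000000000000000000000000000000000000000000000000000000040000000000000000000000000000002000000 := rS 0x7b43829c2d1ce8ec46f51896de6cd67ed274b0ef2795a336af8dadb3a5fbd02a1899c1a63564b2f63298e92eb1a1 (k8 c25033 c5212 c5342 c5341 c5315 c5393 c22045 c25050 (k8 c438 c25051 c25076 c24043 c24032 c752 c24306 c25088 (k8 c25091 c25094 c5465 c206 c2185 c2033 c5680 c5196 (k8 c21333 c25087 c24834 c4199 c5495 c5325 c5474 c5476 (k8 c5477 c5409 c491 c25095 c25096 c1720 c25097 c24959 (k2 c691 c24057 k0)))))) (by decide +kernel)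
def c25099 : PP 9 3 T 0x4000800000000042000000000000000000000000040004000000000000000000000000000000000080000000000000000000000000008000004000000000 := rS 0x81fcdfede243d074f30503602f7cec5447b41292c8f5866bc366b3371c453a1 (k8 c25033 c25034 c20748 c24787 c24041 c24253 c24932 c5495 (k8 c5212 c5562 c5342 c9666 c24759 c5409 c5414 c24870 (k8 c499 c3070 c24877 c24034 c20781 c25062 c24761 c494 (k4 c495 c2341 c5588 c2516 (k1 c24755 k0))))) (by decide +kernel)
def c25100 : PP 9 3 T 0x800000000042000000000000000000000000000000000000000000000000000000800000000000000040000000000000000000000000000000000000 := rS 0x5ae75c26a2488c3f4a598f8dccb38ab84eb1784ec82251e92c8f580ca7d42c94decfc7ef56a574229 (k8 c25034 c25033 c5446 c2032 c5507 c5465 c24253 c5397 (k8 c5396 c5398 c5448 c25098 c5212 c5562 c5342 c5560 (k8 c9666 c24863 c24944 c24932 c1330 c434 c5683 c20748 (k8 c1246 c24787 c24780 c24041 c25099 c5517 c5331 c5334 (k4 c25074 c3056 c5523 c24885 (k1 c24942 k0)))))) (by decide +kernel)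
def c25101 : PP 9 3 T 0x4004000000000042000000000000000000000000080000000000000000000000000000000000000000000000000000010000000000008000004001000000 := rS 0x5ae75c26a2488c3e252591eb09bd9accdda1 (k8 c25033 c24787 c24041 c24253 c5397 c5212 c5562 c5342 (k8 c9666 c5517 c5331 c5334 c25074 c3056 c5523 c24885 (k1 c24942 k0))) (by decide +kernel)
def c25102 : PP 9 3 T 0x40000000000000000000000000000000000100000000000000000000800000000000000040000000000000000000000000000000000000 := rS 0x19cf38902be60d6fe762a23f06d296b31f1b996715709d62f09d8c3bead1a8cfdfe3208947b1d2591eb09f50b252bb3d80674229 (k8 c25034 c25033 c25098 c24744 c24253 c5446 c5396 c5398 (k8 c5448 c5212 c5562 c5342 c5341 c5560 c9666 c24863 (k8 c5465 c5507 c2185 c1763 c2032 c25100 c24945 c5476 (k8 c24833 c1330 c434 c5683 c20748 c1246 c24787 c24780 (k8 c24041 c25101 c24759 c24760 c5409 c5414 c24870 c5538 (k4 c24877 c17766 c24034 c12878 (k2 c20781 c24389 (k1 c1474 k0)))))))) (by decide +kernel)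
def c25103 : PP 9 3 T 0x4000000000000040000000000000000000000000040000000100000000000002000000400000000010000000000000000000000000008000004001000000 := rS 0x7795cd5588ce763df1d606ad3d9ec053a1 (k8 c25033 c25034 c24744 c24253 c20105 c442 c5212 c24855 (k8 c5560 c5323 c385 c1330 c21481 c5683 c5689 c25099 k0)) (by decide +kernel)
def c25104 : PP 9 3 T 0x4000000000000040000000000000000000000000040000000100000000000000000000400400000010000000000000000000000000000000004001000000 := rS 0x3be459d3c47c41128f6b09f50b252ad3d9ec053a1 (k8 c25033 c25034 c24744 c24253 c20105 c5446 c5396 c5398 (k8 c5448 c5212 c5560 c9666 c24863 c24780 c25103 c24932 (k2 c24953 c24944 (k1 c14449 k0)))) (by decide +kernel)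
def c25105 : PP 9 3 T 0x400000000000000060001000000000000000000000000000000000010000009000000000002000000200000000200000020000000000000000000000000000 := rS 0x4160f8384c32fd0b926364f875eddf71a1 (k8 c25033 c5243 c5613 c5617 c5429 c757 c2876 c5677 (k8 c20752 c1010 c1011 c2686 c1338 c4461 c3498 c19800 k0)) (by decide +kernel)
def c25106 : PP 9 3 T 0x1400000000060001000000000000000000000004000000000414040008000000010002000001200000000200000020000040001104000000000000000 := rS 0x3cbf5f8ba89ac3b36e61b1bc2bb7ec5521c74964729d61fba1 (k8 c25033 c1335 c5212 c5563 c5562 c5342 c5341 c5561 (k8 c5343 c25105 c5639 c5638 c5599 c5640 c17867 c5213 (k4 c5348 c5604 c20723 c17926 (k2 c17833 c5623 (k1 c24754 k0))))) (by decide +kernel)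
def c25107 : PP 9 3 T 0x1400000000062000000000000000000000000040008000100014040008000000000002000001200000000200000000000000001004048008000000800 := rS 0x24d1b5e5ec5c4f158b6cfb9c6e270321c5c9748dd7b0e8731f89a3ce0b3489168e5b (k8 c5474 c5327 c5326 c10035 c5532 c24790 c2874 c24043 (k8 c24792 c24078 c5654 c492 c4571 c25106 c5391 c5390 (k8 c5606 c5607 c5610 c5611 c24111 c19938 c24796 c24785 (k4 c17723 c5652 c697 c593 (k2 c2906 c3616 (k1 c24783 k0)))))) (by decide +kernel)
def c25108 : PP 9 3 T 0x4000000000000040000010000000000000000000040000000100000000000000000000000400000010000040000000000000000000000000000000000000 := rS 0xf61d82d983f6a0ddfde17ef8c65df7a915bd1724c65c6b570c3c62f39d0d7e48c5844de2af380988f584fa85929b559992ad754acf68d3d9ec033a1 (k8 c25033 c25098 c24744 c24253 c20105 c5211 c5532 c5531 (k8 c25102 c5446 c24132 c24092 c5397 c5396 c5398 c5448 (k8 c5212 c5562 c25104 c24790 c24788 c434 c24043 c5683 (k8 c5282 c24258 c24933 c24932 c24934 c24833 c4589 c24277 (k8 c5548 c5549 c5551 c5588 c5593 c17766 c5326 c5477 (k8 c24944 c24769 c19797 c1335 c5538 c12713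 c2331 c5689 (k4 c14449 c3003 c25107 c24724 (k2 c24828 c2072 k0)))))))) (by decide +kernel)
def c25109 : PP 9 3 T 0x4000000000000040000010000000000000000000040000000100000000000000000000000000000010000040000000000000000000000000000000000000 := rS 0x9dbc7bcb06aabfc6ca69b252bb3d8065ae29 (k8 c25034 c25102 c25098 c24744 c24253 c5446 c5396 c20105 (k8 c25108 c5464 c1246 c1660 c5683 c5689 c1330 c24944 (k1 c24932 k0))) (by decide +kernel)
def c25110 : PP 9 3 T 0x400000000000000010000000000000000200040004000100000000000000000000000000000000000040000000020000000000000001000001000000 := rS 0x6cf505a43e6346fb84f63b19f8072f064a6d2bb3d8274471347acf69a1 (k8 c25033 c5211 c5532 c2874 c24043 c9733 c24753 c24744 (k8 c24253 c5446 c5397 c5396 c24932 c25016 c24760 c385 (k8 c5456 c5457 c5460 c5538 c24945 c24841 c24113 c12878 (k2 c10333 c24823 (k1 c1622 k0))))) (by decide +kernel)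
def c25111 : PP 9 3 T 0x44004400000000042000010000000000000000000000008000000000000000000000000000000000400001000000000020000000000000000000001000000 := rS 0x1b8e4761f067801690ac0444a9b4c88e27a1 (k8 c25033 c24043 c9733 c5447 c5397 c9666 c9667 c5212 (k8 c24113 c12878 c24799 c20628 c24830 c24724 c5534 c24086 (k1 c24782 k0))) (by decide +kernel)
def c25112 : PP 9 3 T 0x4000000000000040000010000000000000000000040000000100000000000000000000000000000000000040000000000000000000000000000000000000 := rS 0x867b407e45b9d0c7bed247a0627e3383fdaa8d37ab022438e91eb061d8065ae9d11acf69a1 (k8 c25033 c5211 c5532 c9733 c24753 c25102 c25098 c24744 (k8 c5445 c5212 c5562 c5341 c5561 c9667 c25109 c20758 (k8 c24798 c2891 c2892 c24787 c24230 c24043 c751 c2874 (k8 c24096 c24134 c1918 c25110 c5474 c25111 c5592 c17808 (k2 c24476 c24115 k0))))) (by decide +kernel)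
def c25113 : PP 9 3 T 0x88000000000000000000000000000000000000200000008000000000400000000000000000000000000000000400000000000000000000000000000000000 := rS 0x433da031d23a35fe5b (k8 c5474 c5586 c5505 c5562 c5341 c5592 c17808 c24476 (k1 c24115 k0)) (by decide +kernel)
def c25114 : PP 9 3 T 0x8000400000000040000010000000000000000000000008000000000000000000000000000000000405000500000000020000000000000000000001000000 := rS 0x19afc1bbdc76d10f8301690f9a3e27580889446f17996deba1 (k8 c25033 c5477 c5474 c5325 c5323 c9733 c9666 c9667 (k8 c5212 c24043 c2874 c25113 c24113 c12878 c20628 c24830 (k4 c9793 c24724 c20809 c24086 (k2 c24767 c2504 (k1 c24857 k0))))) (by decide +kernel)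
def c25115 : PP 9 3 T 0x8000400000000040000010000000000000000000000008000000000000000000000000000000000405000500000000000000000000000000000001000000 := rS 0x1586e139c5e22521c76b0b122abc53a1 (k8 c25033 c25034 c5584 c5582 c5506 c5212 c5341 c5561 (k4 c9666 c5323 c25114 c24790 (k2 c24787 c24773 (k1 c20758 k0)))) (by decide +kernel)
def c25116 : PP 9 3 T 0x8000400000000040000000000000000000000000000000000100000000000000000000000000000000000040000000010000000000000004004000000000 := rS 0x30690d55a3e3732c8225218f6b09f50b252bb00cb5d624557b5453a1 (k8 c25033 c25034 c5585 c5584 c5582 c5506 c25102 c25098 (k8 c24744 c5446 c5396 c5398 c5448 c5212 c5560 c5561 (k8 c9666 c24863 c24816 c24787 c24780 c20758 c441 c3618 (k2 c24945 c1918 k0)))) (by decide +kernel)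
def c25117 : PP 9 3 T 0x400000000040000010000000000000000000040000000100000000000000000000000000000000000040000000000000000000000000000000000000 := rS 0xd218204e02719bc27643ac26cc299d9aaccc95d806552b3da117dda1 (k8 c25033 c25112 c5582 c5211 c5532 c5531 c25098 c24744 (k8 c5446 c24132 c24092 c24253 c5447 c5445 c5397 c5212 (k8 c5561 c25115 c24932 c385 c433 c25116 c751 c25110 (k2 c24306 c1918 k0)))) (by decide +kernel)
def c25118 : PP 9 3 T 0x40000010000000000000000000040000000100000000000000000000000000000000000040000000000000000000000000000000000000 := rS 0x561b9967140779aaaf58a37dc114fa84c295d8065afa1 (k8 c25033 c25102 c25098 c24744 c5446 c5445 c5398 c5448 (k8 c9667 c25112 c5505 c5506 c5584 c5585 c25117 c24134 (k4 c751 c24816 c24787 c18008 (k1 c20758 k0)))) (by decide +kernel)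
def c25119 : PP 9 3 T 0x40000000000000000000000000040000000100000000000000000000000000000000000040000000000000000000000000000000000000 := rS 0x74327b8e462355477c453a0fa71a3b535e71929b30a6766ab332576019 (k8 c25098 c24744 c5446 c24132 c24092 c24253 c5447 c5445 (k8 c5397 c5396 c25118 c5523 c24101 c25002 c24130 c24763 (k8 c24759 c24803 c24161 c24839 c5324 c5476 c395 c24800 (k2 c24945 c24853 (k1 c492 k0))))) (by decide +kernel)
def c25120 : PP 9 3 T 0x20000000000000000000080000000100000000000000000000000000000000000040000000000000000000000000000001000000 := rS 0x68381881de6cc19aa19fe17877d393b68834f6c94d98533b3559992bb01d82c6ef5 (k8 c5519 c5518 c5516 c5332 c24744 c5446 c24132 c24092 (k8 c24253 c5447 c5445 c5397 c5396 c5372 c5522 c25002 (k8 c18477 c24130 c24161 c24932 c5458 c1650 c24839 c385 (k4 c24756 c24802 c24299 c1916 (k2 c24158 c24945 (k1 c439 k0)))))) (by decide +kernel)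
def c25121 : PP 9 3 T 0x10000000000000000000000000000000000000000000000000000000000002000000000000000000000000000000000000000000 := rS 0xd7b5 (k2 c5531 c20804 (k1 c24746 k0)) (by decide +kernel)
def c25122 : PP 9 3 T 0x62000000000000000000000000080000000100000000000000000000000000000000001000000000000000000000000000004000000000 := rS 0xb41292c8f585087c46498aacc53a1 (k8 c25033 c25034 c5532 c5414 c5334 c5331 c5517 c5398 (k4 c5212 c5562 c5342 c9666 (k2 c24751 c24882 k0))) (by decide +kernel)
def c25123 : PP 9 3 T 0x44000000000000000000000000000000000000000000050000000000000000000500000001004000020000000000000000000000000000 := rS 0xff46a3e26af (k4 c20748 c24043 c2874 c754 (k2 c23312 c20819 k0)) (by decide +kernel)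
def c25124 : PP 9 3 T 0x400000000040000000000000000000000000000000000100000000000000000000000000000000000040000000000000000000000005000000000000 := rS 0x38c0522440909967b47ec0d0ecc7933d62d1780d0975864a6c7649f08e13aa9ceaaccc95d9a67601911d2853a1 (k8 c25033 c25034 c25119 c5331 c25098 c24744 c5447 c24253 (k8 c5446 c24132 c24092 c25120 c25121 c24839 c24873 c5534 (k8 c5334 c5332 c5397 c5396 c5212 c5342 c24945 c24933 (k8 c1704 c1330 c2559 c439 c440 c24003 c2627 c2504 (k8 c24771 c5532 c25122 c24789 c433 c3036 c3066 c25123 (k1 c24790 k0)))))) (by decide +kernel)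
def c25125 : PP 9 3 T 0x4000000000000000000000000000000000000000000000050000000000000000005000400000000000000000000000208000441000000 := rS 0x67bcde3e1 (k4 c5534 c385 c24934 c2558 (k1 c24949 k0)) (by decide +kernel)
def c25126 : PP 9 3 T 0x540000000100000000000000020001000000000000000000000000 := rS 0x11a81 (k2 c751 c754 (k1 c24051 k0)) (by decide +kernel)
def c25127 : PP 9 3 T 0x400000000040000000000000000000000000000000000100000000000000000000000000000000000040000000000000000000000000000000000000 := rS 0x3dfe3139c562d569bc060431ed60c2d7198e13a9954e75eaf71187e94ab33257669bd806453a1 (k8 c25033 c25034 c25098 c24744 c5397 c24253 c5446 c24132 (k8 c24092 c25119 c5517 c5331 c5333 c5519 c25120 c25121 (k8 c5447 c24839 c24873 c25125 c25102 c5445 c5212 c5560 (k8 c5561 c25124 c24833 c1918 c1475 c1330 c25126 c24790 (k2 c24855 c25116 (k1 c21412 k0)))))) (by decide +kernel)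
def c25128 : PP 9 3 T 0x40000000000000000000000000000000000100000000000000000000000000000000000040000000000000000000000000000000000000 := rS 0xb35a9b84e7158bc276d36af793aa9ce9243f4a6baaccdb34a98592a1d80949647ac0674229 (k8 c25034 c25033 c25098 c5212 c5562 c5342 c9666 c24744 (k8 c5398 c5396 c5445 c5446 c24253 c24132 c24092 c25102 (k8 c25119 c5517 c5334 c25120 c25121 c24839 c25127 c5454 (k8 c5496 c24944 c24932 c1330 c25126 c24790 c24787 c24882 (k2 c24041 c24942 k0))))) (by decide +kernel)
def c25129 : PP 9 3 T 0x4400000000045000000000000000000000000000000000200000000000000000000000500000010004000000000000000000000000000004000000000 := rS 0x7b8822521d6053a1 (k8 c25033 c25034 c5212 c5561 c9666 c24863 c5196 c24912 k0) (by decide +kernel)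
def c25130 : PP 9 3 T 0x5000000000000000000000000040000000200000000000040000000005000000000001000000000000000000000000000000000001000 := rS 0x341e87b43bcc153b038cc479d (k8 c19356 c9733 c5316 c5432 c24160 c24034 c20781 c24959 (k4 c690 c24761 c24057 c24986 k0)) (by decide +kernel)
def c25131 : PP 9 3 T 0x40000000000000000000000000000000000000000000000002000000000000000000000040000000010000000000000000000000000000 := rS 0x2c3e3ba533fbc0d8ab3769b159ab541e33727d9627208947a4b23d607e3764865ee234eecd56a9ceca34229 (k8 c25034 c25033 c25128 c19356 c25121 c24826 c5401 c24839 (k8 c9733 c499 c25098 c1177 c5435 c5318 c5212 c5562 (k8 c5342 c5560 c9666 c24863 c24790 c24816 c24921 c24787 (k8 c24806 c24780 c20758 c24041 c5398 c24705 c13053 c5414 (k8 c24877 c25129 c5453 c25130 c5332 c5517 c5516 c24876 k0))))) (by decide +kernel)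
def c25132 : PP 9 3 T 0x200000000000000000000000000000800005000000000000000000000000000000040000000 := rS 0x137b5 (k2 c5532 c2497 (k1 c24897 k0)) (by decide +kernel)
def c25133 : PP 9 3 T 0x40000000000000000000000000080000000000000000000002000000000000000000000040000000000000000000000000004000000000 := rS 0x379209af9ed1660b2487c764b238e46e9dd9aad539d6527c2607088f6b0a1380fe5041128674229 (k8 c25034 c25033 c25098 c9666 c24863 c25128 c5318 c25131 (k8 c24032 c5212 c5560 c9667 c5432 c2868 c24846 c24780 (k8 c19356 c25121 c24826 c5401 c24839 c5435 c5317 c5562 (k8 c5342 c5332 c5517 c5334 c5516 c25132 c24705 c17931 (k4 c24823 c24113 c1327 c24033 k0))))) (by decide +kernel)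
def c25134 : PP 9 3 T 0x60000000000000000000000000000000000000000000000000000000000000000000000040000000020000000000000000004000002000 := rS 0x4837be69a2487c760b238e46f9d6527c2607088f6b0a11fca082250cacf4229 (k8 c25034 c25033 c5532 c25098 c9666 c24863 c25128 c5318 (k8 c24032 c5212 c5560 c9667 c5432 c2868 c24846 c24780 (k8 c19356 c5435 c5317 c5562 c34 c24024 c24764 c293 (k4 c24823 c17931 c1327 c24113 (k1 c24033 k0))))) (by decide +kernel)
def c25135 : PP 9 3 T 0x40000000000000000000000000000000000000000000000002000000000000000000000040000000000000000000000000004000000000 := rS 0x6f8edc7f2672441aff59ed296cdd89810013089044a3d23d607e076486562f711a7766ab54e7650af899c34229 (k8 c25034 c25033 c25131 c24043 c20748 c25128 c19356 c25121 (k8 c24826 c5401 c24839 c9733 c499 c1330 c25098 c1177 (k8 c5432 c5318 c5212 c5562 c5560 c9666 c24863 c9667 (k8 c2868 c24035 c751 c5445 c13053 c25133 c5211 c5532 (k8 c23312 c25134 c24174 c25130 c24113 c24185 c1647 c2564 (k1 c17862 k0)))))) (by decide +kernel)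
def c25136 : PP 9 3 T 0x40000000000000000000000000040000000000000000000002000000000000000000000041000000000000000000000400000000000000 := rS 0xcbd8a683e0b7aa7d0cde5ac07e4411291eb0191ca7766ab89a8606a9f1b555826469c16299118dd67b4ceca34229 (k8 c25034 c25033 c25128 c19356 c5211 c5532 c5435 c9733 (k8 c24808 c1330 c25131 c754 c25135 c434 c2891 c24230 (k8 c25121 c2034 c24032 c24043 c24826 c5401 c24839 c5317 (k8 c25098 c5212 c5562 c9666 c24863 c24113 c19568 c5548 (k8 c19019 c25123 c2884 c24090 c24937 c1216 c24823 c24901 (k2 c1326 c5680 k0)))))) (by decide +kernel)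
def c25137 : PP 9 3 T 0x140400000020000000100000020000000000000000000000000000 := rS 0x1ae81 (k2 c752 c2033 (k1 c24051 k0)) (by decide +kernel)
def c25138 : PP 9 3 T 0x20000000000000000000000000000000000000000000000000000000000000000000000400000000000000000000000140000001002000 := rS 0x760b (k2 c34 c24024 (k1 c24823 k0)) (by decide +kernel)
def c25139 : PP 9 3 T 0x44000010000000000000000000040000000000000000040000000000000000000100000000000000020000000000000000000000001000 := rS 0x10f0105244222389acf69a1 (k8 c25033 c5211 c5532 c24043 c9733 c9667 c24174 c24034 (k2 c19568 c24959 (k1 c25123 k0))) (by decide +kernel)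
def c25140 : PP 9 3 T 0x40000000000000000000000000040000000000000000000002000000000000000000000040000000000000000000000000000000000000 := rS 0xde48268760cda0647237d9c0d539d6534c883f94355582646ac4e029 (k8 c25034 c25131 c1330 c754 c25135 c434 c2891 c25128 (k8 c5318 c433 c2936 c25137 c19356 c25121 c2034 c5401 (k8 c5435 c5317 c25098 c5211 c25139 c24024 c25138 c25136 (k2 c1327 c24033 k0)))) (by decide +kernel)
def c25141 : PP 9 3 T 0x40000000000000000000000000000000000000000000000002000000000000000000000040000000000000000000000000000000000000 := rS 0x5aec7e4997fc0566490f8ee949f6534e06d5222b04c8d579c13ab1d99044a391f88d56a9ceca053a1 (k8 c25033 c25034 c25128 c19356 c25121 c24826 c9733 c5318 (k8 c5317 c9666 c24863 c5401 c1330 c24839 c25131 c20748 (k8 c754 c25135 c434 c433 c2891 c2034 c2936 c25137 (k8 c199 c25140 c5332 c5517 c5334 c25132 c3066 c23312 (k4 c1760 c24822 c24873 c5548 (k1 c24900 k0)))))) (by decide +kernel)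
def c25142 : PP 9 3 T 0x40000000000000000000000000080000000000000000000000000000000000000000000040000000000000000000000000000000000000 := rS 0xc96b32dabe34ca75bcb5357cb6acd46a85e4707abdc3e3b208963a47ac064723111aad539d56bf4cfb1d93c6760719ca34229 (k8 c25034 c25033 c25128 c5316 c5432 c24160 c25141 c24932 (k8 c24253 c5487 c5405 c5490 c19356 c25121 c24826 c9733 (k8 c5434 c5317 c25098 c5212 c5562 c5341 c9666 c24863 (k8 c5332 c5517 c5333 c5519 c25056 c24767 c24032 c753 (k8 c2500 c24883 c5241 c24746 c5548 c19019 c24081 c24080 (k4 c5580 c3003 c24900 c24164 (k2 c2190 c24856 k0))))))) (by decide +kernel)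
def c25143 : PP 9 3 T 0x40000000000000000000000000000000000000000000000000000000000400000000000040000000020000000000000400000000000000 := rS 0x35200d77933dc7e17ba68900c7a82d21f36891c32391baad52fd89a34cedf59ed2979d69ec55bb278cec66a109204223f03ca082251ed634229 (k8 c25034 c25033 c5212 c5560 c9666 c24863 c25128 c5432 (k8 c5318 c9667 c752 c24035 c24032 c5316 c24160 c25141 (k8 c24932 c5490 c24253 c14519 c19356 c25142 c5211 c5532 (k8 c14125 c5487 c753 c24043 c5405 c25121 c24826 c5435 (k8 c5317 c25098 c5562 c24884 c19019 c24113 c12878 c10333 (k8 c24174 c3036 c24823 c20809 c5536 c2622 c2562 c24828 (k4 c10298 c451 c24096 c3073 k0))))))) (by decide +kernel)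
def c25144 : PP 9 3 T 0x40000000000000000000000000000000000000000000000000000000000400000000000040000000020000000000000000000000000000 := rS 0x384f6910503474df08ec764f19d81c671350a3d67b4a5e7651a1 (k8 c25033 c25128 c19356 c25142 c5211 c5532 c2874 c24032 (k8 c24043 c5316 c5432 c24160 c25141 c24932 c24253 c9667 (k8 c14125 c25143 c24024 c24724 c24174 c690 c24262 c24148 k0))) (by decide +kernel)
def c25145 : PP 9 3 T 0x2000010004000000000000000000000200000000000000000000000000000000000000000000000040000000000000400000000000 := rS 0x562ddcd9f0321 (k4 c5606 c5607 c24195 c20789 (k2 c24796 c24785 (k1 c5652 k0))) (by decide +kernel)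
def c25146 : PP 9 3 T 0x1400000000140001000000000000000000000000000000200000000000000000000000000000000000000000000000000000001100000000000000000 := rS 0x10cfb1044a4b23d634229 (k8 c25034 c25033 c5212 c5562 c5342 c9666 c24863 c5243 (k2 c24891 c5640 k0)) (by decide +kernel)
def c25147 : PP 9 3 T 0x4005000000000040001000000000000000000000000000000000014001000000000000000000001000000440000000000800000001100000000000000800 := rS 0x1f7f2e13e2e78dfd2cf8b5da8f70552591ca7585cadf69df4eb45e7b278cec0e3355a669623ce8de51a1 (k8 c25033 c25128 c5435 c19356 c9733 c25142 c24808 c24826 (k8 c5316 c5432 c24160 c25141 c24932 c20781 c24909 c24753 (k8 c17870 c5211 c5533 c5415 c5212 c5563 c5562 c5342 (k8 c5343 c25146 c5614 c5430 c2657 c24224 c5222 c5557 (k4 c5633 c17821 c17867 c17955 (k2 c5638 c5206 k0)))))) (by decide +kernel)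
def c25148 : PP 9 3 T 0x40000000000000000000000000000000000000000000000000000000000000000000000040000000020000000000000800000000000000 := rS 0x23727bdaf09e2ec6e271725d24244cde09348b6456bbd99cf566f7fde6a7f26d0f1724c656ad180c0fe4f3488281be10890e3a47ac2ad52fdc1e4532374e88e268d33ec9e33b038cd1eb3da52f3b28f1b5595a1 (k8 c25033 c25144 c1660 c5464 c25128 c19356 c25142 c5211 (k8 c5532 c2874 c5316 c5432 c24160 c25141 c24932 c5487 (k8 c753 c24043 c9733 c24753 c5435 c24808 c5491 c5407 (k8 c5405 c25121 c24826 c5212 c5562 c5341 c5561 c9667 (k8 c5456 c24024 c24724 c24174 c20781 c12878 c24432 c19568 (k8 c24909 c5548 c5551 c5588 c5593 c24937 c1326 c20819 (k8 c24772 c20818 c17870 c2507 c2341 c24756 c24761 c4297 (k8 c503 c2101 c5689 c20833 c2942 c2868 c4780 c25147 (k8 c5391 c5390 c5610 c5611 c25145 c519 c593 c697 (k2 c24783 c2906 (k1 c3616 k0))))))))))) (by decide +kernel)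
def c25149 : PP 9 3 T 0x1000000000000000000000000000000000200000000000000000000000800001000001100000000000000000000010400800000000000 := rS 0x7a051a9361e038dc479d (k8 c19356 c9733 c5435 c5432 c24900 c1326 c24763 c24748 (k2 c24252 c690 k0)) (by decide +kernel)
def c25150 : PP 9 3 T 0x40000000000000020000010000000000000000200000000000000000000000000000000000800000000000000000000020000000000000540000001000000 := rS 0x269be0b482ce27a1 (k8 c25033 c24043 c5532 c24113 c12878 c24033 c24823 c1327 k0) (by decide +kernel)
def c25151 : PP 9 3 T 0x40000000000000000000000000000000000000000000000000000000000000000000000040000000020000000000000000000000000000 := rS 0x8b097b339eacdf7bf90fa5efbcc146af08bd361e6f45e029124c6606b5f934476d5f1b291e8d899044a47ac06472abc199f23b1d93c6760719a646e9d11acf694bceca34229 (k8 c25034 c25033 c25128 c19356 c25142 c5211 c5532 c9733 (k8 c24753 c5435 c24808 c5316 c5432 c24160 c25141 c24932 (k8 c24253 c5491 c5487 c5407 c24826 c5317 c25098 c5212 (k8 c5562 c9666 c24863 c24043 c753 c2874 c25144 c5464 (k8 c1660 c25148 c24884 c25150 c5548 c5550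 c5551 c5588 (k8 c5589 c5592 c5593 c19019 c24900 c1326 c25149 c5538 (k8 c24763 c24748 c24778 c17870 c25145 c24937 c20819 c20818 (k4 c2507 c2341 c24756 c24761 (k2 c4780 c503 (k1 c25147 k0)))))))))) (by decide +kernel)
def c25152 : PP 9 3 T 0x80000000000000008000000000000000000000000040004000000001000000004000000000000000504000000000000000000000000600000000000000000 := rS 0x7abddfc49 (k4 c5588 c17868 c503 c2341 (k1 c24761 k0)) (by decide +kernel)
def c25153 : PP 9 3 T 0x40000000000000000000000000000000000000000000000000000000000000000000000040000000000000000000000000000000000000 := rS 0xcc7133d0eb47fc4be6d1809ede60a6ab4c1ab1507bc886e4fb2c4e7159c57694b33bf55aafd93c552ab11cef3a071f8ce5019208947a4b23d634229 (k8 c25034 c25033 c5212 c5562 c5342 c5560 c9666 c24863 (k8 c25098 c25128 c5316 c5318 c5432 c19356 c24160 c9733 (k8 c24826 c25121 c25141 c24932 c24824 c5490 c5405 c5487 (k8 c25142 c5211 c5414 c5532 c25151 c24790 c24816 c24921 (k8 c24787 c24734 c24869 c24780 c20792 c24877 c2936 c3000 (k8 c24034 c20781 c690 c3067 c24909 c25152 c12878 c20798 (k4 c23259 c959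 c10438 c1200 (k2 c24057 c2624 k0)))))))) (by decide +kernel)
def c25154 : PP 9 3 T 0x40000000000000040000000000000000000000000040000000000000000000000000000000000000000000000000000010000000000200000000000000000 := rS 0x1e0d84a3c619787bc4a3dac77f66274fb5d9696569b853a1 (k8 c25033 c25034 c24787 c20758 c25153 c24816 c1767 c24921 (k8 c24790 c5404 c5452 c5212 c5560 c9666 c5582 c24953 (k4 c25038 c24806 c25104 c5196 (k2 c24799 c24913 k0)))) (by decide +kernel)
def c25155 : PP 9 3 T 0x40000000000000000000000000000000000200000000000000000000000000000000000000000000010000000000000000000001000000 := rS 0x283603f20f7f66c94b2b4dde313895969f1ed6053a1 (k8 c25033 c25034 c5212 c5560 c24921 c24816 c9666 c24790 (k8 c24806 c24787 c20758 c25153 c134 c5404 c5452 c24863 (k4 c5318 c25129 c24780 c5398 k0))) (by decide +kernel)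
def c25156 : PP 9 3 T 0x40000000000000000000000000000000000000000000000002000000000000000000000000000000010000000000000000000000000000 := rS 0x1a6c252330cceeb1dfd98c52ccb4fab4dda1 (k8 c25033 c24787 c20758 c24921 c24816 c25153 c24254 c5404 (k8 c5452 c5212 c5323 c25038 c385 c25155 c24744 c5653 (k1 c24927 k0))) (by decide +kernel)
def c25157 : PP 9 3 T 0x40000000000000040000000000000000000000000040000000000000000000000000000000000000000000000000000010000000000000000000000000000 := rS 0x7be52ae0cbc48aad6bac4dccb13894871dac25853a1 (k8 c25033 c25034 c25153 c5212 c5341 c5561 c9666 c24790 (k8 c24816 c24787 c1333 c1767 c20758 c25154 c25156 c1227 (k4 c24773 c25155 c5584 c25104 k0))) (by decide +kernel)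
def c25158 : PP 9 3 T 0x40000000000000040000000000000000000000000040000000000000000000001000000000000000000000000000000000000000000000000000000000800 := rS 0x2a3dcfd55ed76019d9bcc727b409852c8f23a4422879487cd79c899c2b1a1 (k8 c25033 c5212 c25157 c24043 c12878 c5523 c24763 c19356 (k8 c5373 c9667 c694 c5562 c2311 c25153 c20768 c751 (k8 c6202 c24078 c20781 c5404 c1227 c24744 c24101 c24916 (k4 c13351 c24757 c24758 c20890 k0)))) (by decide +kernel)
def c25159 : PP 9 3 T 0x40000000000000040000000000000000000000000040000000000000000000000000000000000000000000000000000000000000000000000000000000800 := rS 0xd86d276f094e72b1b34b44ce1a1 (k8 c25033 c25157 c24043 c25153 c5404 c5212 c12878 c19356 (k4 c25158 c5323 c24759 c20692 (k1 c24870 k0))) (by decide +kernel)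
def c25160 : PP 9 3 T 0x40000000100000000000002000000000000000000000080000000000000000000000000000000000400 := rS 0x367a8ef3a344df8360310f8e7693bd98cc33df (k8 c5452 c25038 c385 c5404 c5323 c24759 c25016 c24748 (k8 c24254 c20692 c24760 c24781 c5653 c24101 c5456 c24726 (k2 c24823 c1622 k0))) (by decide +kernel)
def c25161 : PP 9 3 T 0x40000000000000000000002000000000000000000000080000000000000000000000000000000000400 := rS 0xf54d67650f74e88f68399df7f661f (k8 c24748 c5404 c5452 c5323 c25016 c24759 c5409 c5412 (k4 c499 c25160 c19356 c24903 (k2 c24726 c22740 k0))) (by decide +kernel)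
def c25162 : PP 9 3 T 0x400000000000000010000000000000000000040000000000000000000015000000010000000000000500000000000000000000000000000001000400 := rS 0x19afc1bbdc183b54aac461f (k8 c24748 c9733 c24826 c25121 c24724 c24034 c20809 c24086 (k2 c24767 c2504 (k1 c24857 k0))) (by decide +kernel)
def c25163 : PP 9 3 T 0x40000000000000040000000000000000000000000040000000000000000000000000000000000000000000000000000000000000000000000000000000000 := rS 0x2adfaa91ced5ec0d439ef38994dec252f52db446a1979ce9e21f05f7f6696 (k8 c25153 c5404 c5452 c25159 c24748 c25161 c24898 c24934 (k8 c1227 c24933 c24935 c5474 c5477 c24124 c24955 c24781 (k8 c5447 c25162 c5372 c5373 c5522 c24222 c24870 c24157 (k4 c24800 c13351 c24916 c24758 k0)))) (by decide +kernel)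
def c25164 : PP 9 3 T 0x80000000000000000000001000000000000000000000080000000000000000000000000000000000000 := rS 0x335f8994db4552abd84a73a5b1a865e73aefecc761f11bdc6ef5 (k8 c5519 c5518 c5333 c5331 c5517 c5332 c5404 c5452 (k8 c24898 c24934 c1227 c24933 c5474 c18477 c24124 c24955 (k8 c24826 c25121 c24831 c24781 c5447 c24767 c2504 c24857 k0))) (by decide +kernel)
def c25165 : PP 9 3 T 0x40000000000000040000010000000000000000000000000000100000000000000000000000000000000000000000000000000000000000000000000000000 := rS 0x2490132cd3bb4249c3613b785292da1 (k8 c25033 c25153 c25163 c25164 c5323 c20692 c25156 c5334 (k4 c5241 c5412 c5532 c25122 (k2 c24113 c24789 (k1 c3036 k0)))) (by decide +kernel)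
def c25166 : PP 9 3 T 0x40000000000000040000000000000000000000000000000000100000000000000000000000000000000000000000000000000000000000000000000000000 := rS 0x227b84db50923c1b9cd80449758d9cee2670785292da1 (k8 c25033 c25153 c25163 c25164 c25156 c24043 c5323 c5404 (k8 c5212 c5342 c9667 c20692 c25165 c5522 c5526 c17919 (k4 c24870 c2868 c24757 c433 (k1 c5582 k0)))) (by decide +kernel)
def c25167 : PP 9 3 T 0x40000000000000040000000000000000000000000000000000000000000000000000000000000000000000000000000000000000000000000000000000000 := rS 0x16691da04b3a071fca10270781269411208947b5830a5b4229 (k8 c25034 c25033 c25153 c20768 c5212 c5560 c9666 c24863 (k8 c9667 c25163 c5334 c25164 c25156 c751 c25166 c5318 (k4 c5432 c19356 c24035 c5241 (k2 c3036 c5532 (k1 c24113 k0))))) (by decide +kernel)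
def c25168 : PP 9 3 T 0x40000000000000000000000000000000000200000000000000000000000000000000000000000000000000000000000000000000000000 := rS 0x1b4b6fb51a7ef222b11a2658849aef040abe7670ce8dc0e3f1c8cc3211208947a4bac77f66614b38e069170fcb4229 (k8 c25034 c25033 c25167 c5591 c5589 c5550 c5549 c25153 (k8 c20768 c5404 c5452 c5212 c5342 c5560 c9666 c24863 (k8 c9667 c5315 c5316 c5317 c5318 c5432 c5435 c19356 (k8 c25155 c24160 c20748 c751 c24898 c1768 c24035 c1330 (k8 c2868 c754 c434 c433 c5582 c2936 c24257 c4865 (k2 c17954 c24356 (k1 c25139 k0))))))) (by decide +kernel)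
def c25169 : PP 9 3 T 0x40000010000000000000000000040000000000000000000002000000000000000000000000000000020000000000000000000000000000 := rS 0x602963b34b40fe429 (k8 c25034 c25167 c5550 c25153 c5404 c1330 c25161 c25139 (k1 c34 k0)) (by decide +kernel)
def c25170 : PP 9 3 T 0x800001000000000060001000000000000000000000004000000000440040000000000010000000000000000000000000000000040000104000000000000000 := rS 0x3cbf5f8ba89ac3b36e61b8576954871d2591ca758efa596b1924c5fe5a1 (k8 c25033 c25167 c5593 c5588 c5551 c5548 c25153 c5452 (k8 c5212 c5563 c5562 c5342 c5341 c5561 c5343 c5639 (k8 c5638 c5640 c17867 c5213 c5348 c5604 c20723 c17926 (k2 c17833 c5623 (k1 c24754 k0))))) (by decide +kernel)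
def c25171 : PP 9 3 T 0x20000000000000000000000001000000540000000000000000000000000000500001090000 := rS 0x1ad618ae41ab (k4 c711 c3095 c24786 c24064 (k2 c24074 c24742 k0)) (by decide +kernel)
def c25172 : PP 9 3 T 0x60001000000000000000000000004000000000040040000000000090000000000000000000000000020000040000104800000001080000 := rS 0x31b2560b95d727c20b54ebdbbee3eeef08c662ea352f8d3e9bd84a5c2b550b8fe51f137845fa1 (k8 c25033 c19425 c5538 c2868 c24792 c25167 c5549 c24032 (k8 c5548 c5591 c25168 c24744 c5397 c5448 c19797 c5399 (k8 c5449 c5593 c5551 c9667 c3115 c25170 c5243 c5613 (k8 c5617 c5428 c5612 c17867 c757 c3358 c5741 c497 (k2 c25171 c2876 (k1 c5677 k0)))))) (by decide +kernel)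
def c25173 : PP 9 3 T 0x40001010000000000000000000040000000000000000000000000080000000000000000000000000020000000000000000000000080000 := rS 0x9248e4f66bbee31bf7fac6a8e5b1fb4d92d757fbe268f59915baca87b51600d81fc875e11c82937b04ced1a21979ecdeb3a78f7d2d291b91eb1a1 (k8 c25033 c5212 c5562 c2331 c25168 c25153 c5452 c25169 (k8 c24898 c5477 c5404 c24934 c1227 c24831 c5211 c5530 (k8 c24744 c5397 c25162 c24078 c5538 c5654 c25167 c5550 (k8 c34 c25139 c1334 c5030 c1333 c4333 c5326 c5532 (k8 c2874 c5547 c25113 c20748 c1768 c134 c2085 c14449 (k8 c5474 c5327 c25172 c5557 c5599 c4862 c5243 c5613 (k4 c5222 c757 c5351 c5677 (k1 c3094 k0)))))))) (by decide +kernel)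
def c25174 : PP 9 3 T 0x40000010000000000000000000040000000000000000000000000000000000000000000000000004020000000000000000000000080000 := rS 0x46e4e4cc2dec5c4f158b6cfb9c6e270321c5c97481e6f1a88f5889b8e329170c5fe49d11a04c28f5982937b094a6768d10cbcf66f59d3c7be968f89853a1 (k8 c25033 c25034 c2868 c24792 c25153 c5452 c25169 c24898 (k8 c5477 c5404 c24934 c1227 c24831 c5211 c5530 c25168 (k8 c24744 c5397 c25162 c5532 c2874 c20768 c751 c9733 (k8 c24753 c25167 c5593 c5591 c5589 c5551 c5549 c5547 (k8 c5212 c5562 c24868 c24026 c2305 c25173 c5391 c5390 (k8 c5606 c5607 c5610 c5611 c24111 c19938 c24796 c24785 (k8 c17723 c5652 c697 c1348 c1360 c758 c2359 c3616 k0))))))) (by decide +kernel)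
def c25175 : PP 9 3 T 0x42002000000000000000000000040008000000000000000000000000000800000000000000000000020000000000000800008000000080 := rS 0xed77c9dd6bcc2b045c4f158b58767dce370321d4c94a75894a04c29651c7c53a1 (k8 c25033 c25034 c24792 c5449 c25153 c20768 c751 c25168 (k8 c5212 c5563 c5391 c5388 c5606 c5607 c5611 c24111 (k8 c19938 c1792 c24796 c24785 c17723 c5652 c496 c1348 (k4 c593 c21516 c758 c1837 (k2 c3306 c24023 k0))))) (by decide +kernel)
def c25176 : PP 9 3 T 0x800001000000000060001000000000000000000000004000000000400040000000000010000000000000000000000000000000040000104000000000000000 := rS 0x11b (k2 c5599 c25170 k0) (by decide +kernel)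
def c25177 : PP 9 3 T 0x20000000000000000000000000000000540000000000000000000000000800500001090000 := rS 0x18122 (k2 c3094 c25171 (k1 c3748 k0)) (by decide +kernel)
def c25178 : PP 9 3 T 0x40000010000000000000000000040000000000000000000000000000000000000000000000000000020000000000000000000000080000 := rS 0x18d92c9c5aa75eddf71f78799918ff6f8bf4acc030ebc27a8f8982301a396d46a54388c7ed364b5d5fef89a3d675822b75a8ca58034149bd84a533b468865e6f59d3c7bfb381fc92da1 (k8 c25033 c25153 c25167 c5550 c5404 c5452 c25169 c24898 (k8 c5477 c24934 c1227 c24831 c5211 c5530 c25168 c24744 (k8 c5397 c25162 c34 c25139 c1333 c1334 c4333 c5326 (k8 c5212 c5532 c2874 c5547 c25113 c20748 c1768 c134 (k8 c2085 c14449 c9733 c24959 c5399 c5449 c5474 c5327 (k8 c5592 c9667 c2868 c24792 c25174 c5457 c691 c690 (k8 c24847 c25175 c19425 c25173 c2506 c24476 c753 c4589 (k8 c25176 c5243 c5613 c5617 c5428 c5612 c757 c25177 (k2 c2876 c5677 k0))))))))) (by decide +kernel)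
def c25179 : PP 9 3 T 0x80002000000000000000000000000000000000000000000000000000000000000000000000000000000000000400100000000000000000000000000000000 := rS 0x1be7b89b8d22e1 (k4 c5591 c5589 c5549 c5547 (k2 c5457 c5538 (k1 c24026 k0))) (by decide +kernel)
def c25180 : PP 9 3 T 0x60001000000000000000000000000000000000000000000001000000000000000200000000200000020000000000000000000000000000 := rS 0x2de2bc1c33570b926364f9116e1d7b77dc7de3e2f8ed1cb7af1fb4d93df6babfdf13ac11674dd6a32a1e66f0a3d668130a5be5a1 (k8 c25033 c25167 c25153 c20768 c751 c5532 c2874 c25179 (k8 c753 c4589 c1333 c1334 c4333 c24898 c5326 c5212 (k8 c5547 c25113 c20748 c1768 c5452 c134 c2085 c14449 (k8 c5479 c5474 c5327 c5341 c19425 c24791 c25176 c5243 (k8 c5613 c5617 c5429 c5612 c5615 c757 c2876 c5677 (k4 c20752 c3834 c1011 c1338 (k2 c24786 c2205 (k1 c24775 k0)))))))) (by decide +kernel)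
def c25181 : PP 9 3 T 0x40000010000000000000000000040000000000000000000000000000000000000000000000000000020000000000000000000000000000 := rS 0x2372726616f62e278ac5b67dce37138190c7f1725d2079182709ac01a0a4dec1ea5b22865e73a78a3c222521c748f58efece26b581c6492918ac5fe52911b452c9959ed053a1 (k8 c25033 c25034 c5211 c5532 c5530 c25153 c24831 c9733 (k8 c25168 c25167 c5593 c5590 c5589 c5588 c5551 c5550 (k8 c5548 c5547 c5404 c5452 c5212 c5562 c5341 c5561 (k8 c9666 c9667 c2874 c25169 c24898 c24934 c1227 c5326 (k8 c5474 c5477 c24744 c5397 c25162 c34 c25139 c25178 (k8 c24789 c20779 c24851 c25180 c5391 c5390 c5385 c5606 (k8 c5607 c5610 c5611 c24111 c19938 c24796 c24785 c17723 (k4 c5652 c697 c1348 c1360 (k2 c758 c2359 (k1 c3616 k0)))))))))) (by decide +kernel)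
def c25182 : PP 9 3 T 0x40000000000000000000000000040000000000000000000000000000000000000000000000000000010000000000000000000000000000 := rS 0xf72b832ad6bac48af13732c4e2521c76b1b34b4a453a1 (k8 c25033 c25034 c25168 c25153 c5404 c5212 c5341 c5561 (k8 c9666 c24790 c24816 c24787 c25156 c24953 c1333 c1767 (k4 c20758 c1227 c24773 c25104 (k1 c5584 k0)))) (by decide +kernel)
def c25183 : PP 9 3 T 0x40000000000000000000000000040000000000000000000000000000000000000000000000000000000000000000000000000000000000 := rS 0x1f81c263a138e445b50cec03feff19acf79c409c02241128f6b1dfd99852c49f94a74229 (k8 c25034 c25033 c25168 c25167 c5588 c25153 c20768 c5404 (k8 c5452 c5212 c5560 c9666 c24863 c9667 c25182 c751 (k8 c25181 c5372 c5523 c24107 c18955 c24763 c5196 c5393 (k8 c24870 c24803 c395 c485 c24939 c2868 c1674 c494 (k1 c24035 k0))))) (by decide +kernel)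
def c25184 : PP 9 3 T 0x40000020000000000000000000000000000000000000000000000000000000000000000000000000000000000000000000000000000000 := rS 0xfd563f9388f35a1f666189a4603f246ac4e09b0fa6760d11a0cc33df948c676f04b0ee9429 (k8 c25034 c25183 c5332 c25153 c25164 c5323 c24254 c25168 (k8 c5452 c25038 c385 c5653 c1704 c20692 c5447 c5517 (k8 c24781 c25156 c1330 c754 c25167 c5592 c5589 c5547 (k8 c20768 c5404 c5373 c5523 c5526 c24130 c24476 c22011 (k2 c1240 c2893 k0))))) (by decide +kernel)
def c25185 : PP 9 3 T 0x60000000000000000000000000000000000000000000000000000000000000000000000000000000000000000000000000000000000000 := rS 0x3310c3859ece069180fc8760b1bac4e09b0f8d06619efca4633b785292c29 (k8 c25034 c25153 c25183 c25164 c5323 c24254 c25168 c5452 (k8 c25038 c385 c5653 c5517 c24781 c25156 c1330 c5518 (k8 c5516 c5332 c25167 c5592 c5589 c5550 c5404 c5532 (k4 c24823 c25123 c440 c24091 k0)))) (by decide +kernel)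
def c25186 : PP 9 3 T 0x40000000000000000000000000000000000000000000000000000000000000000000000000000000000000000000000000000000000000 := rS 0x3866a75f86adaaa73a344ca6c67b05586676f01187e952918ecfbe96 (k8 c25153 c5452 c5404 c24254 c25168 c25183 c5517 c5331 (k8 c25164 c5323 c25038 c1281 c20692 c385 c24781 c5447 (k8 c5653 c25184 c25121 c25185 c24746 c24758 c24081 c2504 (k2 c24873 c440 k0)))) (by decide +kernel)
def c25187 : PP 9 3 T 0x20000000000000000000000000000 := rS 0x1b6 (k2 c25186 c5571 k0) (by decide +kernel)
def c25188 : PP 9 3 T 0x800000000000000000000000000000000000000000000 := rS 0x1b6 (k2 c25186 c5574 k0) (by decide +kernel)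
def c25189 : PP 9 3 T 0x8000000000000000000000000000000000000000 := rS 0x1b6 (k2 c25186 c5572 k0) (by decide +kernel)
def c25190 : PP 9 3 T 0x800000000000000000000000000000000000000000000000000 := rS 0x1b6 (k2 c25186 c5420 k0) (by decide +kernel)
def c25191 : PP 9 3 T 0x8000000000 := rS 0x1b6 (k2 c25186 c5570 k0) (by decide +kernel)
def c25192 : PP 9 3 T 0x200000000000000000000000000000000000000000000 := rS 0x1b6 (k2 c25186 c5421 k0) (by decide +kernel)
def c25193 : PP 9 3 T 0x2000000000000000000000000000000000000000000000 := rS 0x1b6 (k2 c25186 c5422 k0) (by decide +kernel)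
def c25194 : PP 9 3 T 0x20000000000000000000000000000000000000000000 := rS 0x1b6 (k2 c25186 c5573 k0) (by decide +kernel)
def c25195 : PP 9 3 T 0x10000010000000000000000000000000000000000000000000000000000000000000000401000000000800000000000000000001000400 := rS 0x3df1b78823facec0702423ca46f4a11a7532e370c5497130f8ed6acb598a76da1 (k8 c25033 c25186 c25034 c25188 c25190 c25193 c24724 c24748 (k8 c2600 c13156 c1140 c24262 c24185 c24080 c24081 c9733 (k8 c5211 c8484 c24897 c5520 c24812 c24782 c24744 c5559 (k4 c24747 c546 c6118 c5580 (k2 c2770 c5655 k0))))) (by decide +kernel)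
def c25196 : PP 9 3 T 0x4000000000000000000000000000000000100080000000100001000000000000080000000000000000000000000000000000004010000000400000000 := rS 0xfc7a24238a76cb3 (k8 c25188 c25186 c25034 c5520 c24812 c2770 c24747 c5655 k0) (by decide +kernel)
def c25197 : PP 9 3 T 0x4000000000004000010000000000000000000000000000000001000000000000500000000000000001400008000000000000004000200000001000000 := rS 0xf0ef4efded31e0cd023f7b840194b6ad65bdb020ca556a97ab343e3b0588c52b513acf42cb (k8 c25190 c25033 c25188 c25191 c25193 c25034 c9733 c24959 (k8 c24724 c24748 c24091 c24090 c25121 c24826 c5317 c546 (k8 c24744 c6118 c24867 c3003 c25196 c24034 c24865 c20809 (k8 c24031 c700 c25125 c5655 c2769 c24306 c24278 c5166 (k2 c24932 c24918 k0))))) (by decide +kernel)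
def c25198 : PP 9 3 T 0x4000010000000000000000000000000000000000000000000000000000000000000000401008000000800000000000000000001000000 := rS 0x6d2c6c39f1ed13a9971b862a4b8987c760b11edb42b5 (k8 c25193 c25033 c25186 c9733 c24959 c24724 c24748 c2600 (k8 c13156 c1140 c24262 c24185 c24080 c24081 c25195 c17720 (k4 c25197 c24782 c24829 c24086 (k1 c24034 k0)))) (by decide +kernel)
def c25199 : PP 9 3 T 0x800000000004000010000000000000000100040000000000000000000000000000000000000000000000000000000000000000010100000000000400 := rS 0xf09db4c6e0c14ad44eb3 (k8 c25188 c25191 c25193 c25034 c24034 c24086 c5496 c24532 (k2 c24932 c24918 k0)) (by decide +kernel)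
def c25200 : PP 9 3 T 0x20000000000000000000000100000008000100000000000051000000000000000001020400000000000000000000012000000040020000 := rS 0x1a8c969bf1e643 (k4 c5478 c5325 c24768 c2768 (k2 c1180 c24278 (k1 c3001 k0))) (by decide +kernel)
def c25201 : PP 9 3 T 0x4000000000024000010000000000000000000040000000000000000000010000400000000000000020401000000000000000000004100000002000400 := rS 0x4ede3df1e042b2a90fec482f76ff806e0c948ef4229 (k8 c25034 c25033 c24724 c5315 c24034 c24086 c5654 c5538 (k8 c20809 c543 c5393 c24748 c25121 c24356 c24865 c6195 (k4 c25199 c25038 c25200 c5224 k0))) (by decide +kernel)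
def c25202 : PP 9 3 T 0x24000010000000000000000000040000000000000000000000000000000000000000000401008000000800000000000100000000000000 := rS 0x238947ca06ff8092370627532e38a92dea1f1d82c47290c78dc3135a9c452cb4facf43b6 (k8 c25186 c25033 c25188 c25189 c25190 c25034 c25187 c25193 (k8 c2600 c24262 c17720 c25198 c5315 c9733 c24959 c24724 (k8 c24748 c24090 c13156 c1140 c24185 c24080 c24081 c24034 (k8 c24086 c294 c5654 c5538 c3620 c25201 c24747 c2913 (k1 c24940 k0))))) (by decide +kernel)
def c25203 : PP 9 3 T 0x4000000000020000000000000000000000000080000000000001400000000000500000000000000000001000000000000000004000000000402000000 := rS 0x40b7cf68f085648f2920edb4229 (k8 c25034 c25033 c25186 c543 c5315 c5520 c9399 c24848 (k4 c2751 c24938 c25196 c700 (k1 c24026 k0))) (by decide +kernel)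
def c25204 : PP 9 3 T 0x10000000000000000000000000000000000400000000000040000000000000000001000000000000000001010200000040000000 := rS 0x40a3cf61009d64484771b8496b55989c53a1 (k8 c25033 c25034 c25191 c25188 c25193 c13156 c24262 c24185 (k8 c2476 c24941 c5559 c24750 c24794 c24938 c24461 c700 (k1 c24026 k0))) (by decide +kernel)
def c25205 : PP 9 3 T 0x24000010000000000000000000000000000000000000000000000000000000000000000401008000000800000000000000000000000000 := rS 0x1e1de9dfbda6336791878811f841ab596f78492f71c03297e371b862a4b89b343e3b0588e52410c0a56a2759e8597b6 (k8 c25186 c25190 c25033 c25188 c25191 c25193 c25034 c25198 (k8 c543 c5315 c9733 c24959 c24724 c24748 c24091 c2600 (k8 c13156 c1140 c24262 c24185 c17720 c25203 c24034 c25202 (k8 c20809 c294 c5534 c25204 c24867 c3003 c24865 c24031 (k8 c700 c6195 c2770 c4696 c24843 c2769 c24306 c24278 (k2 c5166 c24932 (k1 c24918 k0))))))) (by decide +kernel)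
def c25206 : PP 9 3 T 0x4000010000000000000000000000000000000000000000000000000000000000000000401008000000800000000000000000000000000 := rS 0x2051e3f080e4f624f037e95b520ec430234ea65c6e18a92e2629db2cf42b5 (k8 c25193 c25033 c25188 c25186 c25034 c2600 c13156 c1140 (k8 c24262 c24185 c24080 c24081 c9733 c25198 c5393 c543 (k8 c25205 c5211 c13097 c5679 c24812 c5457 c5534 c24794 (k4 c24747 c24482 c700 c24026 k0)))) (by decide +kernel)
def c25207 : PP 9 3 T 0x80000000000000000000000000500000000000000000401000000000800000004000100000400000000 := rS 0x37d028f3d904781009d643024238dc3e3b4ea66271514ed966b5 (k8 c25193 c25188 c25186 c25034 c1140 c2600 c24080 c24081 (k8 c5332 c5517 c5518 c5520 c24812 c24782 c5559 c24750 (k8 c24794 c1167 c543 c24938 c24461 c700 c2770 c24026 k0))) (by decide +kernel)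
def c25208 : PP 9 3 T 0x4000010000000000000000000000000000000000000000000000000000000000000000401000000000800000000000100000002000000 := rS 0x47128f940dff01246e0c7a82c3e3b94a753315f1ed2964b7188dc3135a9c452cb4facf43b6 (k8 c25186 c25033 c25188 c25189 c25190 c25034 c25187 c25193 (k8 c2600 c24262 c9733 c24185 c13156 c25207 c5211 c17720 (k8 c1140 c24080 c24081 c5315 c491 c1164 c2305 c24726 (k8 c24034 c24086 c294 c5654 c5538 c3620 c25201 c24747 (k2 c2913 c24940 k0))))) (by decide +kernel)
def c25209 : PP 9 3 T 0x5000010000000000000000000040000000000000000000000000000000000000000000400000000000800000000000100000001000000 := rS 0x683d03cf37b829e00d9d8dc0e339408d3bb4 (k8 c5211 c24081 c9733 c24744 c24774 c5432 c5435 c24160 (k8 c25138 c24932 c24034 c499 c20781 c2305 c24761 c24228 (k1 c24986 k0))) (by decide +kernel)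
def c25210 : PP 9 3 T 0x6000010000000000000000000040000000200000000010000000000000000000000000000000000000000000000001000000081000000 := rS 0x1e810787c8493bac81c7e335098743b6 (k8 c25186 c25033 c5445 c5398 c5316 c5318 c5432 c17758 (k4 c24160 c24875 c5221 c24932 (k2 c24794 c1216 (k1 c22886 k0)))) (by decide +kernel)
def c25211 : PP 9 3 T 0x10000000000000000000000000000000000400000000000000000000000000000001000000000000000000008840000000000800 := rS 0x1f3479208fa1 (k4 c25033 c2914 c494 c2311 (k2 c5588 c5675 k0)) (by decide +kernel)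
def c25212 : PP 9 3 T 0x4000000000006000010000000000000000000040000000000000400000000000080000000000000000001004000000000000000000140000081000000 := rS 0x1fd1c7b3311a322d8d6743178a3dea4003843e47bac8fc75e10682a523d80e876c29 (k8 c25034 c25186 c25033 c19568 c2771 c25210 c24748 c24764 (k8 c5538 c5654 c25211 c24854 c24938 c6120 c17813 c1674 (k8 c5655 c22886 c2752 c1216 c1679 c24932 c24933 c5474 (k4 c24160 c701 c24163 c492 (k2 c544 c24476 (k1 c7800 k0)))))) (by decide +kernel)
def c25213 : PP 9 3 T 0x1000000000004000000000000000000000000040004000100000000000000000000000000000000000000000000000000000000000400000000000800 := rS 0x1de (k2 c24760 c25062 k0) (by decide +kernel)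
def c25214 : PP 9 3 T 0x4000000000006000010000000000000000000040000000000000000000000000000000000000000000001004000000800000000000100000081000000 := rS 0x6734d9ad15777dea3122cea3a111f09476369482a02a164a57c23d6f38d3b1570c4f6c29d0ad566cb (k8 c25190 c25188 c25193 c25033 c25034 c25186 c2600 c24262 (k8 c1140 c24081 c24185 c6118 c2771 c5538 c5446 c5396 (k8 c5398 c19568 c24748 c25210 c25212 c153 c24871 c2332 (k8 c24031 c22489 c25213 c5326 c5476 c5477 c24944 c24814 (k4 c1481 c2329 c2940 c24756 (k1 c2565 k0)))))) (by decide +kernel)
def c25215 : PP 9 3 T 0x4000010000000000000000000000000000000000000000000000000000000000000000401000000000800000000000100000000000000 := rS 0x36060ec161fd8067c7b4a588d3a9971b84971343edb42b5 (k8 c25193 c25033 c25186 c25206 c2600 c13156 c24262 c24185 (k8 c24080 c24081 c9733 c25207 c5211 c17720 c25208 c25209 (k4 c25214 c2305 c24724 c24034 (k2 c24782 c24086 k0)))) (by decide +kernel)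
def c25216 : PP 9 3 T 0x4000010000000000000000100040004000000000000000000000000000000000000000000000000000000000000010200000000000000 := rS 0x69bc3bd29f082f68295a89d67b6 (k8 c25186 c25188 c25191 c25193 c25034 c5211 c24078 c5534 (k4 c5317 c25016 c24932 c22750 (k1 c24918 k0))) (by decide +kernel)
def c25217 : PP 9 3 T 0x4000010000000000000000000000000000000000000000000000000000000000000000401000000000800000000000000000000000000 := rS 0x1a8cd69bf0b6f321ce8783f7b840194bacf8dbcf5209243e0b948ec708711aad52e18a92e27a165acc4eb5 (k8 c25193 c25191 c25188 c25190 c25033 c2600 c13156 c1140 (k8 c24262 c25121 c24826 c9733 c25206 c25215 c154 c5317 (k8 c24078 c24766 c400 c546 c24726 c25204 c5580 c24867 (k8 c25196 c24034 c24865 c20809 c24031 c5655 c25216 c5478 (k4 c5325 c5474 c24112 c2768 (k2 c2504 c24278 (k1 c3003 k0))))))) (by decide +kernel)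
def c25218 : PP 9 3 T 0x5000010000000000000000000000000000000001400000000000000000000000000000001000000000000000000000200000000000000 := rS 0x335a8fc4bb4c78f37890c7ef79d04019b4a5d67c6de7a86082490f82e523b11aa5c24bd0b2d6627 (k8 c25191 c25188 c25190 c25033 c13156 c24262 c25121 c9733 (k8 c154 c5317 c24078 c24766 c400 c546 c24744 c24726 (k8 c25204 c5580 c24867 c25196 c5211 c24034 c24865 c25216 (k8 c20809 c24031 c5478 c5323 c5325 c5655 c2768 c1227 (k4 c24768 c24278 c2505 c3003 k0))))) (by decide +kernel)
def c25219 : PP 9 3 T 0x10000000000000000000040004000000001000000002000080041000000000000000000000000000000004000001000040000440 := rS 0xd5ac88c76b51489d66cb (k8 c25190 c25188 c25191 c25034 c25193 c24724 c9733 c24867 (k2 c3003 c24930 k0)) (by decide +kernel)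
def c25220 : PP 9 3 T 0x4000010000000000000000000040000000000001000000000000400000000000000000801000000000000000004000100000040000400 := rS 0x456a042b2df69b363ac94bbc9e13b1e8c40e3f19865ef280678762371dbd56a2913acf42ad (k8 c25194 c25033 c25188 c25191 c25034 c25193 c24726 c24724 (k8 c2327 c5397 c5536 c24034 c5654 c20809 c5315 c5316 (k8 c5318 c5432 c5434 c5436 c24160 c24932 c24761 c22740 (k8 c1177 c551 c2500 c13297 c25219 c24356 c24865 c24930 (k2 c20747 c18677 k0))))) (by decide +kernel)
def c25221 : PP 9 3 T 0x1000000000000000000000000080000000000000400000000000540000000000000000001400004000000000000000000000000020000 := rS 0x8018404a453a1 (k4 c25033 c25034 c24212 c24026 (k2 c24744 c700 (k1 c543 k0))) (by decide +kernel)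
def c25222 : PP 9 3 T 0x4000010000000000000000000000000000000000000000000000000000000000000000001000000000800000000000000000040000000 := rS 0x13a038ce50191eb791e7b3704027591211e940b11b8dc24b1cec5351589ab5622959ed96ba1 (k8 c25033 c25193 c25186 c25188 c25034 c25192 c25194 c2600 (k8 c1140 c25217 c5397 c25218 c13156 c24262 c24185 c9733 (k8 c2305 c25220 c5520 c24812 c5559 c24750 c24794 c24743 (k8 c24938 c24461 c25221 c2771 c1167 c24781 c24774 c5432 (k2 c24961 c24160 k0))))) (by decide +kernel)
def c25223 : PP 9 3 T 0x400000000004000010000000000000000100040000000200000000010020000000000000000000000010000000000001000000001000000000000000 := rS 0x7bda44350048822508fc87ec9784ec0e330cab4522765a7f6da1 (k8 c25033 c25186 c25189 c25190 c25191 c25034 c25194 c5315 (k8 c5316 c5432 c24160 c24932 c1177 c5318 c5221 c22886 (k8 c24794 c24094 c12617 c24875 c20787 c5869 c24912 c15747 k0))) (by decide +kernel)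
def c25224 : PP 9 3 T 0x4000010000000000000000000000000000200000000000000000000000000000000000001000000000800000000001000000000000000 := rS 0x231a4ff47fc94047ac1852a96efb319efc7a3dd92f09d81c661954a760313d8a6a960d438283c23d0ed852b5 (k8 c25193 c25034 c25186 c25033 c9733 c25222 c24748 c24959 (k8 c24764 c5517 c25217 c5397 c2600 c19568 c24081 c25121 (k8 c5315 c5316 c5432 c24160 c24932 c1177 c499 c1216 (k8 c1215 c2563 c25130 c5495 c2505 c2016 c20768 c25223 (k8 c5562 c24910 c12878 c2311 c2341 c5869 c24476 c24056 k0))))) (by decide +kernel)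
def c25225 : PP 9 3 T 0x4000010000000000000000000000000000000000000000000000080000000000000000001000000000800000000000000000000000000 := rS 0x642b99d1d66b45aa117a8c48a3e234e86c253d8ec31291ea7497e11cec5351589d2d0e0a0f08f6c29d0acc4eb5 (k8 c25193 c25191 c25188 c25033 c25034 c25186 c9733 c25222 (k8 c24748 c24959 c5517 c2600 c1140 c25217 c5397 c25218 (k8 c5536 c13156 c24081 c2771 c25224 c24744 c24835 c10458 (k8 c1167 c1165 c25213 c24866 c2332 c5326 c5476 c5477 (k8 c24031 c4929 c1481 c2329 c22489 c24057 c24814 c2563 (k1 c1183 k0)))))) (by decide +kernel)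
def c25226 : PP 9 3 T 0x8000000000000000000000040000200000000000000000000000000000000801000000002000000 := rS 0xa0f12b87f59338976da1 (k8 c25033 c25186 c1167 c24088 c5562 c2913 c24950 c6195 (k2 c1182 c5578 k0)) (by decide +kernel)
def c25227 : PP 9 3 T 0x8000000000400000000000540000200000000000001000004000000000000001000000002000800 := rS 0x2b2af6aa011e471299f6da1 (k8 c25033 c25186 c24088 c1167 c25226 c2311 c24026 c20766 (k2 c1183 c24888 (k1 c24950 k0))) (by decide +kernel)
def c25228 : PP 9 3 T 0x8000000000400000000000540000200000000000001000004000000000000000000000002000800 := rS 0x4704d023c (k4 c25227 c12620 c24068 c24027 (k1 c2312 k0)) (by decide +kernel)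
def c25229 : PP 9 3 T 0x4000000000000000000000000000000000100000000000000000540000000000000000801000000000800000000000100000480000000 := rS 0x3219ccd68bd4633a1b1ec76184ec4fc3b1a5a1c14b5 (k8 c25193 c24748 c24959 c5517 c5397 c5536 c2600 c24081 (k8 c24744 c24835 c10458 c1165 c25213 c5476 c5477 c1481 (k4 c2329 c24057 c2563 c25228 k0))) (by decide +kernel)
def c25230 : PP 9 3 T 0x4000010000000000000000000000000000000000000000000000000000000000000000001000000000800000000000000000000000000 := rS 0x7b286f87873b14d455c2e311c4f42b5 (k8 c25193 c25033 c2600 c9733 c24185 c24262 c1140 c25217 (k4 c5397 c25218 c25222 c25225 (k2 c25229 c5436 (k1 c25224 k0)))) (by decide +kernel)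
def c25231 : PP 9 3 T 0x40000000000000000000010000000000000000000000000000000000400000000000000000000000000000000000000000000000000000000000080000000 := rS 0xac02a97a1 (k4 c25033 c5517 c24748 c5221 (k1 c12878 k0)) (by decide +kernel)
def c25232 : PP 9 3 T 0x5000000000000000000000000040004000100000000000040000000010000000000000002000100000000000002000000000000010000 := rS 0x200d679779ea8d (k4 c10035 c10333 c5224 c24761 (k2 c24134 c451 (k1 c2145 k0))) (by decide +kernel)
def c25233 : PP 9 3 T 0x40000000000000020000000000000000000000000000008000000000000000050000000000000000001000000000000000000000002000000000040000000 := rS 0xfd79bc76da1 (k4 c25033 c25186 c5323 c5325 (k2 c24960 c24768 k0)) (by decide +kernel)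
def c25234 : PP 9 3 T 0x4000000000000000000000000000000000000001000060000000400000000000001000142000000000000000000000000000000000000 := rS 0x1a3e1efb51a6d7d8a05fec9332bd1a6f65ad53eb356e84e2b1 (k8 c25192 c25187 c25033 c25194 c25188 c25189 c25193 c25190 (k8 c3038 c10035 c3070 c24779 c24088 c20750 c908 c24859 (k4 c2146 c13297 c24051 c5454 (k2 c10677 c1711 (k1 c24895 k0))))) (by decide +kernel)
def c25235 : PP 9 3 T 0x4000010000000000000000000040000000000000000000000000000000000000000000000000000000800000000000000000000000000 := rS 0x1a281f01ef63290c26c72e28040d2ef2784ec904b088946ef78ad6019b411aa53a997a91c760b0ffcd21135a9c453a1 (k8 c25033 c25034 c25187 c25193 c2600 c25230 c5589 c25231 (k8 c2305 c24724 c24069 c10333 c24080 c24081 c25121 c9733 (k8 c5211 c24034 c5221 c5414 c20809 c24086 c5559 c5558 (k8 c5342 c24940 c25233 c24932 c24761 c25161 c2627 c451 (k8 c25234 c2617 c2621 c24782 c5315 c5393 c10458 c5654 (k2 c907 c5459 (k1 c25232 k0))))))) (by decide +kernel)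
def c25236 : PP 9 3 T 0x1000000000000000000000100000000000000000000000000000800000000000000001100000000000000000000004440000440000000 := rS 0x1ca6c32b5 (k4 c25193 c15188 c2621 c2618 (k1 c24805 k0)) (by decide +kernel)
def c25237 : PP 9 3 T 0x5000000000000000000000100000004000000100000000002000000000000000000000000000000000000000000000000000002020000 := rS 0x6977a5229 (k4 c25034 c5315 c25038 c24919 (k1 c5496 k0)) (by decide +kernel)
def c25238 : PP 9 3 T 0x1000000000000000000000000000000000000001000000000000400000000000000001102000000000000000008000400000441000000 := rS 0x13639f078e51f36f894decb13a7ce229 (k8 c25034 c25187 c25189 c25191 c25190 c3038 c24743 c24033 (k4 c5589 c24744 c24904 c24951 (k2 c5317 c5536 (k1 c24805 k0)))) (by decide +kernel)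
def c25239 : PP 9 3 T 0x5000000000000000000000100000000000000000000000002000000000000000000000000000000000000000000000000000002020000 := rS 0x4767629 (k4 c25034 c5323 c551 c25237 k0) (by decide +kernel)
def c25240 : PP 9 3 T 0x5000010000000000000000000000000000000001000000000000000000000000000000000000000000800000000000000000000000000 := rS 0x40fdf017e3ce74f10c38c7e10ac9284a6f11aad529d4cbd4760b0ffcd21137b8de94b5d08a76cb3 (k8 c25188 c25186 c25034 c25033 c25193 c25235 c5518 c5333 (k8 c2600 c25230 c5589 c25231 c2305 c24724 c10333 c24080 (k8 c24081 c25121 c24826 c9733 c3038 c24743 c24812 c5342 (k8 c12663 c24031 c25236 c25238 c25239 c24932 c24934 c24767 (k4 c24956 c24936 c2631 c24946 k0))))) (by decide +kernel)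
def c25241 : PP 9 3 T 0x5000000000000000000000100000000000000000000020000000000000000000000000000000000000000000000000000002002020000 := rS 0x355a73a21a8078f120ca55a29 (k8 c25034 c25194 c5315 c543 c25239 c1167 c1166 c24844 (k4 c24932 c2768 c5001 c24278 k0)) (by decide +kernel)
def c25242 : PP 9 3 T 0x5000000000000000000000000000000000000002000020000000000000000000000001102000000008000000000000440000440020000 := rS 0x969da687a0719ca1ae810cb8cf6241fd676aad (k8 c25194 c5414 c5558 c24031 c2745 c24938 c25236 c25241 (k8 c907 c2146 c24744 c24774 c5432 c5436 c24897 c24160 (k2 c24965 c4064 k0))) (by decide +kernel)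
def c25243 : PP 9 3 T 0x800000000000000000000000000000000000000000000100000000020000000400000000000000000002000000000000000000000000000000010000 := rS 0x35d028d (k4 c10035 c908 c2146 c24134 k0) (by decide +kernel)
def c25244 : PP 9 3 T 0x5000010000000000000000000000000000000000000000000000000000000000000000000000000000800000000000000000000000000 := rS 0x6ba05a27bf038bbd2978062775808c00ddb58a08d56a94ea651a3b0587fe7131b84c934a486db42b5 (k8 c25193 c25033 c25186 c25230 c25235 c5334 c3036 c5518 (k8 c2600 c5589 c25231 c2305 c24724 c10035 c24080 c24081 (k8 c25121 c24826 c9733 c25240 c5414 c1139 c24818 c25242 (k8 c24878 c23214 c24879 c24932 c5315 c25038 c25243 c6448 (k4 c5457 c5459 c907 c2145 (k1 c24134 k0)))))) (by decide +kernel)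
def c25245 : PP 9 3 T 0x4000010000000000000000000000000000000000000000000000000000000000000000000000000000800000000000000000000000000 := rS 0x3563ad3802ba286e67a04203320d6652384d86543b07bd28760b0fb7debf34844d329d11aad53a138b2c4eb5 (k8 c25193 c25191 c25190 c25187 c25033 c25121 c24826 c9733 (k8 c24081 c24080 c2600 c25230 c5589 c10333 c24033 c25231 (k8 c2305 c24724 c25235 c5333 c25244 c5398 c5393 c5397 (k8 c24873 c24194 c24881 c547 c25125 c24878 c700 c2559 (k8 c24859 c3038 c24931 c24818 c2940 c2139 c3073 c24281 k0))))) (by decide +kernel)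
def c25246 : PP 9 3 T 0x2000010000000000000000000000000000000000000000000000000000000000000000000000000008400000000000000000000000000 := rS 0x6f8ea240d4888e2a252591e963eac1e93bb40c9c56ba1138a567b6 (k8 c25186 c25188 c25034 c25191 c25033 c25193 c25187 c5393 (k8 c24746 c5412 c24868 c24938 c24854 c9399 c5562 c5342 (k8 c5559 c5414 c9733 c3038 c24877 c24850 c24175 c24070 (k1 c495 k0)))) (by decide +kernel)
def c25247 : PP 9 3 T 0x40005000000000000000010000000000000000200000000000100000000000000000000000000000000000000000000000000000000008800000000000000 := rS 0x226e10538c73a1 (k4 c25033 c154 c8999 c24724 (k2 c3057 c24098 (k1 c12878 k0))) (by decide +kernel)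
def c25248 : PP 9 3 T 0x2000010000000000000000000000000000000000000000000000000000000000000000000000000000400000000000000000000000000 := rS 0x7044c700c1d9bfc7f3244a47d4b2392c7a25ac0dfc27a30a6c32230fa7533b438b2d3e2714ad567b6 (k8 c25186 c25188 c25193 c25034 c25191 c25189 c25190 c25187 (k8 c24746 c5530 c5412 c24763 c9733 c5393 c5397 c5445 (k8 c24868 c24968 c24075 c24938 c5559 c5560 c5342 c5562 (k8 c9399 c24854 c17758 c24917 c24813 c24832 c25246 c25247 (k4 c24175 c24782 c2598 c400 (k1 c24966 k0)))))) (by decide +kernel)
def c25249 : PP 9 3 T 0x4000010000000000000000000000000000000000400000000000000000000000000000000000000000000000000408400001000000000 := rS 0x40b44f7e01cb3c6ae28040fbc97794edee0c7a923e69011aa43f154c86253b125d2c23b435acc4eb5149c743b6 (k8 c25186 c25033 c25187 c25034 c25193 c25191 c25188 c25245 (k8 c24746 c24031 c24848 c12663 c25248 c5318 c24744 c5530 (k8 c5414 c24763 c25121 c9733 c24850 c24813 c24751 c10333 (k8 c24174 c20809 c25233 c24761 c20692 c5224 c2627 c451 (k8 c25234 c5450 c5453 c2617 c20553 c10458 c5459 c907 (k1 c25232 k0)))))) (by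 decide +kernel)
def c25250 : PP 9 3 T 0x4000010000000000000000000000000000000000400000000000000000000000000000000000000000000000000008400001000000000 := rS 0xce69b35a2ae7a8c48a979d21cc1e14d828f6de1b5648d4b8e84652230fa7533b435ed853a1 (k8 c25033 c25034 c25186 c25245 c24746 c5530 c5412 c24763 (k8 c9733 c5318 c24031 c22489 c24848 c25249 c5562 c2914 (k8 c2913 c24938 c24865 c2327 c5538 c24749 c24959 c25213 (k8 c20768 c5326 c5476 c5477 c24814 c1481 c2329 c2941 (k2 c24057 c2565 k0))))) (by decide +kernel)
def c25251 : PP 9 3 T 0x20000000000000000000000100000000000000000000000000000500000000000000000000000000000000000000004080001042000000 := rS 0x3c5078dbe9b4ec5532cb5aa7d67b6 (k8 c25186 c25188 c25189 c25193 c25190 c5530 c5414 c5412 (k4 c2327 c2332 c17720 c3620 (k2 c6195 c2766 k0))) (by decide +kernel)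
def c25252 : PP 9 3 T 0x21000000000000000000000100040000000100000000000000000500000000000000000000000000000000000000004500001040000000 := rS 0x1e283c6df4df806e184ec5532cb5aa7d67b6 (k8 c25186 c25188 c25189 c25193 c25190 c5530 c5414 c5412 (k8 c24744 c25251 c5654 c5536 c5538 c6706 c3620 c6195 (k1 c2766 k0))) (by decide +kernel)
def c25253 : PP 9 3 T 0x4000010000000000000000000000000000000000400000000000000000000000000000000000000000000000000800400001000000000 := rS 0x259fad17a325eef3efbc015e19da680e330cca1c63970a44974bac88d521f4ec5533b4d89ac7fa1 (k8 c25033 c25250 c25245 c25248 c24746 c5530 c5414 c5412 (k8 c24763 c25121 c9733 c5562 c5520 c191 c24069 c2789 (k8 c25218 c24185 c25252 c5315 c5316 c5432 c24805 c24160 (k8 c5536 c25220 c24932 c25062 c20781 c499 c1177 c24761 (k4 c24986 c2337 c24895 c1231 k0))))) (by decide +kernel)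
def c25254 : PP 9 3 T 0x1000000000000000000000000000000000200000000000200001000000000000400000000000000000000000000000000000000404000001440000000 := rS 0x28096b5598a44fb6 (k8 c25186 c25191 c25034 c25188 c25193 c5342 c24910 c24825 k0) (by decide +kernel)
def c25255 : PP 9 3 T 0x10000000000000000000000000000200000400000000000000000000000000000000000000000400000000404400001000000000 := rS 0x240954aacb8fc29a1c8653b154ced363f30f88f4229db2cd6a27 (k8 c25191 c25193 c25188 c25186 c25034 c25033 c9733 c24763 (k8 c24813 c25248 c24746 c5530 c5414 c5412 c5315 c5317 (k8 c24805 c5536 c2621 c25254 c5221 c24812 c13156 c25238 k0))) (by decide +kernel)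
def c25256 : PP 9 3 T 0x40000000000000004000010000000000000000000080000000000000400000000000000000000000000000000000000000000000000000000001002000000 := rS 0x207ef80bf1e73a483c49410acbd5ee2355aa43f15da6c4d6b5d08a76cb3 (k8 c25188 c25186 c25034 c25033 c25193 c25245 c25248 c24746 (k8 c5414 c24763 c25121 c24826 c9733 c5333 c5519 c9399 (k8 c24848 c24812 c25239 c13156 c24932 c24934 c24767 c24956 (k2 c24936 c2631 (k1 c24946 k0))))) (by decide +kernel)
def c25257 : PP 9 3 T 0x4000010000000000000000000000000000000000400000000000000000000000000000000000000000000000000000400001000000000 := rS 0x34503e09d9ec6ef71c831ea484802c9611ac52c3129f991c7e235487e2bb4d89ad66275a8a4e3a1 (k8 c25033 c25187 c25034 c25193 c25191 c25188 c25245 c25248 (k8 c24746 c5414 c24763 c25121 c9733 c25250 c25253 c24813 (k8 c25255 c24744 c25256 c5221 c5558 c5342 c12878 c24850 (k8 c24751 c24726 c24034 c399 c20809 c24086 c10458 c25233 (k4 c5654 c907 c5459 c25232 k0))))) (by decide +kernel)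
def c25258 : PP 9 3 T 0x400000000000500000000000000000001000000000000000000400000002002000000 := rS 0x1be811e104207b4784eb229 (k8 c25034 c5559 c24750 c24461 c24938 c24794 c543 c1167 (k2 c700 c2770 (k1 c24027 k0))) (by decide +kernel)
def c25259 : PP 9 3 T 0x4000010000000000000000000000000000000000400000000000000000000000000000000000000000000000000400400000000000000 := rS 0x19a964335dfe8d21475e0819d8f462074d0ce5019f923c461f4ea66b2130811473b171c05c291370922bb435ab453a1 (k8 c25033 c25034 c25194 c25245 c24746 c5414 c25257 c24743 (k8 c3038 c24262 c19568 c24185 c25248 c25218 c24776 c24794 (k8 c24750 c5559 c5530 c5412 c24763 c9733 c24461 c5675 (k8 c25258 c24744 c24774 c24805 c5432 c5434 c5436 c24160 (k8 c699 c24932 c551 c1218 c702 c11059 c1933 c24476 (k2 c24965 c24091 (k1 c1232 k0))))))) (by decide +kernel)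
def c25260 : PP 9 3 T 0x4000010000000000000000000000000000200000400000000000000000000000000000000000000000000000000000400000000000000 := rS 0x1eef37802a769a038cc32230fa75324b1cec5c74b7afc88d01489ba2bb43584049a1 (k8 c25033 c25257 c24794 c25245 c24746 c5414 c24743 c3038 (k8 c19568 c25259 c10418 c22886 c5520 c24185 c25248 c25218 (k8 c13156 c5530 c5412 c24763 c9733 c5315 c5316 c5432 (k4 c24805 c24160 c25220 c24932 (k2 c20781 c499 (k1 c24761 k0)))))) (by decide +kernel)
def c25261 : PP 9 3 T 0x4000010000000000000000000000000000000000400000000000000000000000000000000000000000000000000000400000000000000 := rS 0x26c168ef1b7d02a01e10431297afca964670c05c63925a44f63f3704027591207e2bb4d89ac53a1 (k8 c25033 c25034 c25245 c25248 c24746 c5414 c24763 c25257 (k8 c5559 c24750 c24794 c24743 c24747 c24938 c3038 c13156 (k8 c25218 c24185 c19568 c24262 c25259 c5520 c10418 c22886 (k8 c25260 c24744 c543 c1167 c1166 c700 c2771 c5578 (k4 c24026 c2312 c25220 c25201 k0))))) (by decide +kernel)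
def c25262 : PP 9 3 T 0x4000010000000000000000000040000000100000000000000000000000000000000000000000000000000000000000400000000000000 := rS 0x3bd3b798281a4b8e90c4b580fed3626bf9c484eb156ad453a1 (k8 c25033 c25034 c25193 c25194 c25192 c25191 c25261 c5547 (k8 c25245 c25248 c24746 c24763 c5221 c5559 c5561 c5341 (k4 c5342 c2598 c24034 c20781 (k2 c24954 c5224 (k1 c25062 k0))))) (by decide +kernel)
def c25263 : PP 9 3 T 0x4000000000000005000000000000000000000100000004000100100800000000000000400000000000000000000000000000000001040000000000000000 := rS 0x10ed180b359e44ef7cdfe7b (k8 c24938 c20798 c5547 c5224 c5658 c5453 c5495 c3066 (k2 c22917 c959 (k1 c24057 k0))) (by decide +kernel)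
def c25264 : PP 9 3 T 0x10000000000000000000080008000000000800000000000000000000000000000000000000000400000000000000000000000000 := rS 0x7987c4a9123fce3a112184ab3b40589d62ad5a8a76da1 (k8 c25033 c25186 c25034 c25193 c25194 c25192 c25191 c5516 (k8 c24746 c9399 c12633 c20787 c703 c22489 c5547 c12623 (k4 c198 c24964 c24763 c5325 (k1 c24954 k0)))) (by decide +kernel)
def c25265 : PP 9 3 T 0x5000000000000000000000100080004000100000800000000000000400000000000000000000000000000000000000000000000000000 := rS 0x68b850fe346fbbe6df249ee3a3d0890c240b67b37bda1 (k8 c25033 c5224 c5495 c5453 c5516 c12633 c20787 c703 (k8 c24095 c22489 c24938 c5334 c24070 c5547 c25263 c5505 (k4 c24108 c958 c16773 c8355 (k1 c24057 k0)))) (by decide +kernel)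
def c25266 : PP 9 3 T 0x4000010000000000000000000000000000100000000000000000000000000000000000000000000000000000000000400000000000000 := rS 0x8168c0a02e222387c23ef7f8daccd67f7a76431ec7494123d8444b590592694410c08e2bb4d89afe69123bfdbf12d08a76cb3 (k8 c25188 c25186 c25034 c25033 c25261 c24070 c20798 c12623 (k8 c198 c5547 c25245 c25248 c24746 c5414 c9733 c24744 (k8 c543 c25262 c5334 c5516 c9399 c24964 c703 c24938 (k8 c12633 c24812 c22489 c24095 c20787 c25264 c5224 c5453 (k8 c5495 c25265 c5465 c5507 c18221 c24389 c16773 c5658 (k4 c408 c3066 c24827 c1780 (k2 c24128 c24969 k0))))))) (by decide +kernel)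
def c25267 : PP 9 3 T 0x4000010000000000000000000000000000000000000000000000000000000000000000000000000000000000000000400000000000000 := rS 0x100222505d2ab2a171f85343d1f8e433286f91d23f38908c3e9d8aa6769b135e84529f13b2f6cb5 (k8 c25193 c25186 c25190 c25191 c25189 c25034 c25033 c25245 (k8 c25248 c24746 c5530 c5414 c5412 c24763 c9733 c25261 (k8 c5547 c198 c12623 c24070 c25266 c5315 c5317 c5318 (k8 c5436 c24805 c5536 c2621 c10309 c24910 c5221 c5516 (k4 c24964 c703 c24780 c24094 k0))))) (by decide +kernel)
def c25268 : PP 9 3 T 0x4000010000000000000000000000000000000000000000000000000000000000000000000000000000000000000000000000000000000 := rS 0x134967eb31e8cf64bdde13b03bcc6728050641b4b1d6c53bb40f9ac46a9 (k8 c25121 c9733 c25245 c24763 c24746 c5412 c25248 c25267 (k8 c5332 c24024 c491 c24724 c24835 c24774 c20781 c5432 (k8 c24160 c24932 c499 c1177 c1647 c24761 c25130 c2337 (k2 c13053 c24903 (k1 c1231 k0))))) (by decide +kernel)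
def c25269 : PP 9 3 T 0x10000000000000000000000000000200000000000000000000000000000000000000008000000000000000000800000000000000 := rS 0x40627f2acf7c68cd78a5c3233038c6774b68bcc15b255e876c29 (k8 c25034 c25186 c25033 c24826 c25268 c24724 c20781 c24909 (k8 c5332 c24809 c5434 c5432 c5316 c5315 c5404 c5401 (k8 c24091 c24894 c5450 c24906 c5221 c5547 c5592 c24937 k0))) (by decide +kernel)
def c25270 : PP 9 3 T 0x4000000000000028000000000000000000000000000000000200000000000000000500011000000000000000004004000000000000040800000000000000 := rS 0x1596926fbece1a2bde2970c8cc7e0718cef6c29 (k8 c25034 c25186 c24809 c5434 c5432 c5318 c5316 c5315 (k8 c5404 c5401 c5406 c24894 c24057 c5450 c5856 c6662 (k2 c24906 c15747 k0))) (by decide +kernel)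
def c25271 : PP 9 3 T 0x10000000000000000000000000000200000000000000000000000000000000000000000000000000000000000800000000000000 := rS 0x25208463aa17a351eecc21fbdfd0170c0dc7f20f44cd487689ede7b40552d56a957bf4ce191f81c7b3bd90a53e2765ac56bb6 (k8 c25186 c25193 c25192 c25190 c25191 c25189 c25034 c25268 (k8 c24809 c5436 c5432 c5318 c5315 c5487 c5405 c5406 (k8 c25121 c24826 c5332 c24724 c5211 c20781 c690 c24909 (k8 c25269 c24772 c2600 c2305 c25231 c5549 c5550 c5591 (k8 c5592 c15208 c5586 c2781 c25270 c17683 c2507 c24761 (k4 c3000 c2165 c22886 c1657 (k2 c24794 c24780 k0))))))) (by decide +kernel)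
def c25272 : PP 9 3 T 0x10000000000000000000040000000200000000000004000000002000000000000000000000000000000000000000000000000000 := rS 0x1424112b5022fe80fc9e9597bf7d5e191f8f677b2da0a53e2765e8563b6 (k8 c25186 c25192 c25033 c25190 c25191 c25189 c25034 c5211 (k8 c25268 c24809 c5436 c5318 c5315 c5406 c5495 c17683 (k8 c24906 c24761 c5221 c5592 c15208 c22886 c2507 c24794 (k2 c24094 c3000 (k1 c24780 k0))))) (by decide +kernel)
def c25273 : PP 9 3 T 0x80000000000000028000000000000000000000000040000000200000000000000000000011000000000000000000004000000000000000000000000000800 := rS 0x565a49befb3887ef43bfa02e171c4d5efd198fe76f3db0a742b1 (k8 c25192 c25033 c25034 c25186 c20781 c24809 c5318 c5316 (k8 c5405 c5406 c5547 c5549 c5591 c5592 c15208 c24937 (k8 c5586 c2781 c24057 c5453 c2562 c6662 c24906 c15747 k0))) (by decide +kernel)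
def c25274 : PP 9 3 T 0x10000000000000000000040000000200000000000000000000000000000000000000000000000000000000000000000000000800 := rS 0x1ac8912ac7cd9a7b79abcced11daade3b2da2d76da1 (k8 c25033 c25186 c25193 c5211 c25268 c5401 c24826 c25271 (k8 c24884 c5487 c5406 c20781 c691 c25272 c25273 c5221 (k4 c12878 c24862 c2600 c23276 k0))) (by decide +kernel)
def c25275 : PP 9 3 T 0x800000000008000000000000000000000000000000000200000000000000000000000000000000000000000000000000000000000000000000000000 := rS 0x3246a33 (k4 c5316 c5450 c5494 c24849 k0) (by decide +kernel)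
def c25276 : PP 9 3 T 0x10000000000000000000040000000200000000000000000000000000000000000400000000000000000000000000000000000000 := rS 0x17b40c8e46e3b (k4 c25271 c5435 c5317 c5315 (k2 c5211 c25274 (k1 c24823 k0))) (by decide +kernel)
def c25277 : PP 9 3 T 0x10000000000000000000000000000200000000000000000000000000000000000400000000000000000000000000000000000000 := rS 0xda87e94f19da74f759efecb6c29 (k8 c25034 c25186 c25268 c25275 c24906 c24938 c24815 c24809 (k4 c5401 c25276 c5517 c24957 (k1 c24897 k0))) (by decide +kernel)
def c25278 : PP 9 3 T 0x10000000000000000000000000000200000000000000000000000000000000000000000000000000000000000000000000000000 := rS 0xf50fd29e6f76633fc29aefb44773b1c88d56a978bf765b6 (k8 c25186 c25268 c5405 c5401 c25121 c24826 c9733 c5317 (k8 c24809 c25271 c24884 c25275 c25277 c5536 c2562 c24756 (k4 c17683 c2500 c25272 c5517 (k2 c5519 c24767 k0)))) (by decide +kernel)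
def c25279 : PP 9 3 T 0x800000000000000010000000000000000100080000000000000400000000000000000000000000000000000000000000000000000000000000000000 := rS 0x81043129d8b55a71d793d5e2ab54bf764237b87f4229 (k8 c25034 c25033 c5517 c5333 c9733 c25268 c5405 c25121 (k8 c24826 c5401 c5519 c24767 c22753 c5496 c5454 c24253 (k4 c25278 c24744 c543 c24878 (k1 c24281 k0)))) (by decide +kernel)
def c25280 : PP 9 3 T 0x10000000000000000200080000000000000000000000000000000000000000000000000000000000000000000000000000000000 := rS 0x807cfde44258955e4923bc9eaf155aa5fbb211bdc3fb65aacc4e29 (k8 c25034 c25191 c25188 c25193 c25186 c5517 c5333 c9733 (k8 c25268 c5405 c25121 c24826 c5401 c5519 c24767 c5520 (k8 c5334 c5406 c5559 c5342 c24862 c24869 c24813 c24880 (k1 c3066 k0)))) (by decide +kernel)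
def c25281 : PP 9 3 T 0x10000000000000000000080000000000000000000000000000010000000000000800000000000000000000000000000000000000 := rS 0x1b46b9adbff3897795e9566bc9eaab5488dee1f1a86253b178d67c2e367bf764b556a7d62cb (k8 c25190 c25192 c25189 c25194 c25193 c25268 c5405 c2562 (k8 c2621 c5536 c25280 c5401 c24253 c25278 c24744 c437 (k8 c5517 c5333 c9733 c25121 c24826 c5519 c24767 c2501 (k8 c5488 c5406 c24756 c25279 c5547 c24070 c2600 c24110 (k2 c24746 c18091 k0))))) (by decide +kernel)
def c25282 : PP 9 3 T 0x800000000000000010000000000000000000080000000000000000000000000000000000000000000800000000000000000000000000000000000000 := rS 0x7ae008c4bc7b29482eb3e171e876cb5 (k8 c25193 c25186 c25033 c2621 c5536 c25280 c5516 c25278 (k4 c25268 c6601 c25279 c703 (k2 c24098 c24095 (k1 c16773 k0)))) (by decide +kernel)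
def c25283 : PP 9 3 T 0x10000000000000000000080000000000000800000000000000000000000000000800000000000000000000000000000000000000 := rS 0x110871d6b89424ff48fcd5e490591de4f578aad52fdd908dee1facb43beb1568a44fa1 (k8 c25033 c25191 c25034 c25194 c25192 c25282 c25281 c25280 (k8 c5517 c5333 c9733 c25268 c5405 c25121 c24826 c5401 (k8 c5519 c24767 c5520 c5516 c5334 c5406 c5547 c198 (k8 c20798 c12633 c24964 c9339 c555 c20787 c24773 c22917 k0)))) (by decide +kernel)
def c25284 : PP 9 3 T 0x10000000000000000000080000000000000000000000000000000000000000000800000000000000000000000000000000000000 := rS 0x34daed546a047e45084762630ef8cd9fe120ced9af27aaad52fd11bdc3e350c4a762f1d95674229 (k8 c25034 c25033 c25280 c25268 c5401 c24253 c25278 c24744 (k8 c437 c5517 c5333 c9733 c5405 c25121 c24826 c5519 (k8 c24767 c2501 c5325 c543 c5536 c2562 c24843 c25282 (k8 c5653 c25283 c22753 c24878 c20747 c24031 c700 c702 (k4 c1476 c18221 c1919 c24096 k0))))) (by decide +kernel)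
def c25285 : PP 9 3 T 0x400000000000000010000000000000000000080000000000000400000000000000000000000000000000000000000000000000000000000000000000 := rS 0xf00e3e632487b9c3e36fa8078243738d1a8f1f8423a411a86253b11b91e76f27abc556a97eec846f70f9eeb29bdb1c74229 (k8 c25034 c25033 c25187 c25186 c25284 c25280 c24938 c5517 (k8 c5333 c9733 c25268 c5405 c25121 c24826 c5401 c5519 (k8 c24767 c5325 c5520 c5518 c24253 c25278 c24744 c437 (k8 c543 c22753 c24878 c24031 c2751 c702 c15188 c18613 (k8 c2745 c1167 c1166 c2770 c5578 c3061 c5166 c25221 (k4 c24213 c5589 c387 c5691 (k1 c5534 k0))))))) (by decide +kernel)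
def c25286 : PP 9 3 T 0x10000000000000000000080000000000000800000000000000000000000000000000000000000000000000000000000000000000 := rS 0x206442521b691d129adfe91f9abcce0b23bc9eaf155aa5fbb211bdc3f59db0a742b5 (k8 c25193 c25033 c25034 c25186 c25280 c5517 c5333 c9733 (k8 c25268 c5405 c25121 c24826 c5401 c5519 c24767 c5520 (k8 c5516 c5487 c5406 c5547 c198 c20798 c2600 c24964 (k4 c555 c24746 c24772 c17828 (k2 c24958 c10690 (k1 c461 k0)))))) (by decide +kernel)
def c25287 : PP 9 3 T 0x10000000000000000100080000000000000400000000000000000000000000000000000000000000000000000000000000000000 := rS 0x1df (k2 c25279 c25285 k0) (by decide +kernel)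
def c25288 : PP 9 3 T 0x10000000000000000000080000000000000000000000000000000000000000000000000000000000000000000000000000000000 := rS 0x22759 (k2 c25280 c25286 (k1 c25287 k0)) (by decide +kernel)
def c25289 : PP 9 3 T 0x10000000000000000100000000000000000000000008000000000000000000000000000000000000000000000000000000000000 := rS 0x211d0590431b169b57bde1f92ad333b5bed3654b94e876c29 (k8 c25034 c25186 c25033 c25278 c25288 c25268 c5211 c5533 (k8 c8057 c5530 c24826 c5221 c17771 c24760 c5454 c22750 (k4 c24253 c24744 c543 c20781 (k2 c17702 c24865 (k1 c24281 k0))))) (by decide +kernel)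
def c25290 : PP 9 3 T 0x10000000000000000100000000000000100000000000000000000000000000000000000000000000000000000000000000000000 := rS 0xd07a21dee0a22044829d0c6c4467b24b4fdecf6ab37bde155a6676b79490de6fef96cb694bd0ac76c29 (k8 c25034 c25186 c25192 c25033 c25288 c5211 c25268 c5221 (k8 c15208 c25289 c2781 c25278 c5533 c8057 c5530 c24826 (k8 c17771 c24760 c5495 c5454 c5453 c5586 c22750 c5588 (k8 c24938 c9733 c24253 c24744 c1273 c543 c24281 c5658 (k4 c24865 c503 c693 c24761 (k2 c24057 c24986 k0)))))) (by decide +kernel)
def c25291 : PP 9 3 T 0x10000000000000000100000000000000000000000000000000000000000000000000000000000000000000000000000000000000 := rS 0xdf478e41af6408f1ea101fc71e7e319f7bc2e148b8e2703f91ed56410c4a762999dadf694bd96876c29 (k8 c25034 c25186 c25033 c25268 c25288 c5211 c5533 c8057 (k8 c5530 c24253 c25278 c24744 c543 c24826 c24938 c5221 (k8 c24837 c5547 c5549 c5589 c5591 c17771 c24760 c5492 (k8 c6601 c25289 c25290 c405 c22489 c2165 c5655 c700 (k4 c24761 c20809 c397 c2752 (k2 c2771 c24027 k0)))))) (by decide +kernel)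
def c25292 : PP 9 3 T 0x10000000000000000000000000000000000000000004000000000000000000000000000000000000000000000000000000000000 := rS 0x2487d1c6a89c07e69111aaccf159dadf694b1292c8e44f7d61e3b25a9c453a113acd63b6 (k8 c25186 c25192 c25188 c25191 c25033 c25034 c25187 c25193 (k8 c25268 c5401 c25291 c24869 c24862 c5562 c5342 c5559 (k8 c25288 c5211 c5533 c8057 c5414 c5487 c24826 c9733 (k8 c24962 c25152 c3067 c23259 c24850 c5675 c25231 c24036 (k1 c24940 k0))))) (by decide +kernel)
def c25293 : PP 9 3 T 0x10000000000000000000000000000000000000000000000000000000000000000000000000000000000000000000000000000000 := rS 0x1206f240303e0b7911c9625ac457694bd908d627114acc4eb5 (k8 c25193 c25191 c25188 c25034 c25187 c25192 c9733 c25268 (k8 c25288 c5211 c5414 c25291 c5559 c5342 c5562 c25292 (k4 c20781 c24778 c24034 c24917 (k2 c24877 c294 (k1 c20841 k0))))) (by decide +kernel)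
def c25294 : PP 9 3 T 0x8000000000000000000000000000000 := rS 0x19c (k2 c25293 c5372 k0) (by decide +kernel)
def c25295 : PP 9 3 T 0x8000000000000000000000000000000000 := rS 0x19c (k2 c25293 c5373 k0) (by decide +kernel)
def c25296 : PP 9 3 T 0x2000000000000000000000000000000000000 := rS 0x19c (k2 c25293 c5374 k0) (by decide +kernel)
def c25297 : PP 9 3 T 0x2000 := rS 0x19c (k2 c25293 c5522 k0) (by decide +kernel)
def c25298 : PP 9 3 T 0x800000000000000000000000000 := rS 0x19c (k2 c25293 c5523 k0) (by decide +kernel)
def c25299 : PP 9 3 T 0x800000000000000000000000000000000000 := rS 0x19c (k2 c25293 c5526 k0) (by decide +kernel)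
def c25300 : PP 9 3 T 0x200000000000000000000000000000000000000000000000000000000000000000000000000 := rS 0x19c (k2 c25293 c19356 k0) (by decide +kernel)
def c25301 : PP 9 3 T 0x80000000 := rS 0x6b (k2 c25298 c24763 k0) (by decide +kernel)
def c25302 : PP 9 3 T 0x40000000000000000000000000000000000000000040000000000000000000008000000000000000000000000000000000000000000000000000400000000 := rS 0xd746b8200e32412c23581c785a1ef69b35aacf1af7b6715d8ed13b3b3da1f421fdb672526b (k8 c25298 c25300 c25293 c25186 c25301 c25033 c25295 c25294 (k8 c5325 c24753 c24797 c24868 c5414 c18383 c5224 c5450 (k8 c5453 c5454 c5495 c5496 c24649 c24161 c22337 c20553 (k8 c24762 c5558 c5342 c24887 c2617 c451 c400 c2141 (k2 c2146 c24097 k0))))) (by decide +kernel)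
def c25303 : PP 9 3 T 0x40000000000000000000008000000000000000000000000000000000000000000000000000800000000 := rS 0xd93c36b3b (k4 c5325 c5409 c447 c24759 (k1 c5401 k0)) (by decide +kernel)
def c25304 : PP 9 3 T 0x40000000000000000000008000000000000000000000000000000000000000000000000000000000000 := rS 0x56420f00c1276715d8fcb689d119ecd729ce6d83fa1 (k8 c25033 c25301 c25186 c25293 c25300 c25298 c25294 c25303 (k8 c24753 c24797 c25302 c24868 c5414 c18383 c5588 c24744 (k4 c24934 c24887 c5558 c25239 k0))) (by decide +kernel)
def c25305 : PP 9 3 T 0x80000000000000004000000000000000000000000040000000000000000000000000000000000000000000000000000000000000000000000000400000000 := rS 0xb68f7c70d42db4dbd3a219048c3c7886048f51fd6762104ebce26e324c55c301f19b81b29ce6855a29489acf61fdb2cce2b5 (k8 c25193 c25187 c25188 c25186 c25301 c25294 c25298 c25296 (k8 c25034 c25194 c25033 c25293 c25300 c25297 c24872 c24107 (k8 c5592 c5591 c5590 c5588 c5549 c5547 c25304 c24753 (k8 c24887 c24868 c5558 c24031 c22886 c2745 c24744 c25239 (k8 c6195 c25258 c543 c24844 c24932 c24179 c2768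 c5474 (k4 c24278 c2771 c5454 c1710 (k2 c24078 c24157 k0))))))) (by decide +kernel)
def c25306 : PP 9 3 T 0x80000000000000000000000000000000000000000040000000000000000000000000000000000000000000000000000000000000000000000000800000000 := rS 0x3a1c9047a9c0c8476025da9262be1809b852cb94e84d67b599c56b9c (k8 c25293 c25193 c25187 c25188 c25294 c25298 c25033 c25300 (k8 c25190 c25034 c24872 c5592 c24640 c5590 c5588 c5409 (k8 c1262 c5225 c2745 c5393 c24868 c24095 c24094 c395 (k2 c24853 c24840 k0)))) (by decide +kernel)
def c25307 : PP 9 3 T 0x80000000000000000000000000000000000000000040000000000000000000000000000000000000000000000000000000000000000000000000000000000 := rS 0x1b2da08c3f9c (k4 c25293 c25301 c25306 c24797 (k2 c25305 c18383 k0)) (by decide +kernel)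
def c25308 : PP 9 3 T 0x8000000000000000000000000040000000000000000000000000000000000000000000000000000000000000000000000000000000000 := rS 0xe389a0602d3f791086d7194ec629b1ec744a3581b38229d0c2abbfb5d8aa4cefd78abde6b34fe7162ad1489e53b6d087cd687 (k8 c25295 c25298 c25301 c25033 c25186 c25300 c25191 c25034 (k8 c25194 c25192 c25293 c25189 c25188 c25304 c5406 c5401 (k8 c5405 c5487 c5489 c24253 c18383 c24660 c24772 c24744 (k8 c9066 c24864 c22097 c2199 c437 c24794 c22489 c24095 (k8 c2562 c1474 c17706 c5653 c2185 c2048 c24773 c5582 (k4 c2937 c3067 c20909 c24947 (k2 c13843 c24215 k0))))))) (by decide +kernel)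
def c25309 : PP 9 3 T 0x11000000000000000000000000040000000000000000000000000000000000000080000000000000000000000000000000000000000000 := rS 0xe340b5e26c87f25554d354a6da3df4bb393a187ebc675b3117bd669fce2c6521f (k8 c25301 c25300 c25192 c25293 c25189 c25188 c5584 c24803 (k8 c25308 c24759 c5323 c1237 c24744 c9066 c22097 c1227 (k8 c5453 c174 c2562 c2451 c2941 c24758 c2125 c1287 (k4 c5678 c20798 c2189 c20909 (k2 c2575 c24215 k0))))) (by decide +kernel)
def c25310 : PP 9 3 T 0x10000000000000000000000000040000000000000000000000000000000000000000000000000000000000000000000000000000010000 := rS 0x787bfe34e2559219d87bd5c3d8e897e64b1110c8af19d6cf6d9cd09acf6b1568a44e1f (k8 c25301 c25191 c25034 c25194 c25192 c25294 c25298 c25033 (k8 c25293 c25186 c25308 c24759 c5323 c5326 c5478 c24803 (k8 c560 c25307 c24794 c22489 c24095 c24773 c5584 c25309 (k8 c5393 c5396 c5446 c24868 c24860 c24944 c5458 c24799 k0)))) (by decide +kernel)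
def c25311 : PP 9 3 T 0x10000000000000000000000000040000000000000000000000000000000000000000000000000000000000000000000000000000000000 := rS 0x3f957011c91a06df4692627b0ac841faf52dbc4864b9d08be7b359a451e87949ec521f (k8 c25301 c25034 c25294 c25300 c25295 c25299 c25296 c25188 (k8 c25308 c25307 c24803 c24759 c560 c5478 c5323 c5474 (k8 c5477 c1237 c25310 c5558 c24864 c704 c3026 c701 (k8 c6120 c7820 c5660 c2476 c2790 c24916 c20762 c23961 k0)))) (by decide +kernel)
def c25312 : PP 9 3 T 0x40000000000000000000000000000000000000000000000000000000000000004000000000000020000 := rS 0x3808ce3898ec469d1f92502410c6c768dfacfcd227b47ca4539c (k8 c25293 c25034 c25300 c25299 c25294 c25296 c25307 c5558 (k8 c6120 c25311 c24101 c24744 c543 c700 c3026 c24031 (k8 c5412 c5409 c24835 c704 c18209 c5660 c24026 c2789 k0))) (by decide +kernel)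
def c25313 : PP 9 3 T 0x40008000000000400000000000000000000000000000000000000000000000000000000000000020000 := rS 0x80bd8480b376cc31b1da3d6b24ace1ad667147a456b29 (k8 c25300 c25193 c25296 c25299 c25187 c25188 c25298 c25293 (k8 c25312 c5558 c5477 c25311 c24101 c24744 c25308 c24817 (k4 c2588 c2745 c24222 c25241 (k1 c565 k0)))) (by decide +kernel)
def c25314 : PP 9 3 T 0x8000000000000000000000000000000000000000000000000000000000000000000000000000000000000000100000000000000000050000000000020000 := rS 0x78daf29 (k4 c25300 c5507 c24108 c24193 k0) (by decide +kernel)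
def c25315 : PP 9 3 T 0x40000000000000000010001000000000000000000000000000000000000000000000000000000020000 := rS 0xfd7bbcc46ab54bd49512f7a34b73a21ecc8218d8ed03eb514ca738ad (k8 c25194 c25293 c25300 c25034 c25193 c25301 c25311 c24101 (k8 c24744 c543 c25308 c24844 c24932 c5474 c701 c25314 (k8 c25313 c25312 c5477 c5531 c5413 c5409 c25304 c565 (k2 c23136 c24767 k0)))) (by decide +kernel)
def c25316 : PP 9 3 T 0x40000000000000000000001000000000000000000000000000000000000000000000000000000020000 := rS 0x257bed464b4ccd1c12abe01598a9067445d9a5c31b1da27e53b6d08a73827 (k8 c25191 c25293 c25034 c25033 c25186 c25300 c25189 c25311 (k8 c24101 c24744 c1227 c25308 c24953 c24932 c543 c5414 (k8 c5558 c25315 c3070 c25241 c24814 c24950 c2082 c24088 (k4 c24278 c5454 c1589 c5678 k0)))) (by decide +kernel)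
def c25317 : PP 9 3 T 0x40000000000000000000001000000000000000000000000000000000000000000000000000000000000 := rS 0x40e03ef7b2b8911d12845ea459d10fe7b311c5553b40fac55a2913e876d9c (k8 c25293 c25186 c25033 c25191 c25034 c25194 c25192 c25301 (k8 c25311 c5531 c5414 c5409 c25308 c25307 c24844 c24932 (k8 c24953 c5477 c25316 c24794 c22489 c24887 c24773 c25233 (k4 c5584 c3070 c2195 c24852 k0)))) (by decide +kernel)
def c25318 : PP 9 3 T 0x40000000000000000000000000000000000000000000000000000000000000000000000000000000000 := rS 0x1a0f4ef3de76f00c6c53a23da3cf3929 (k8 c25300 c25293 c25304 c25311 c5409 c5412 c24101 c24744 (k4 c25317 c5323 c499 c25038 (k2 c24761 c24161 (k1 c24986 k0)))) (by decide +kernel)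
def c25319 : PP 9 3 T 0x800000000 := rS 0x14a (k2 c25318 c5331 k0) (by decide +kernel)
def c25320 : PP 9 3 T 0x80000000000000000000000000000000000000000000000000000000000000 := rS 0x14a (k2 c25318 c5333 k0) (by decide +kernel)
def c25321 : PP 9 3 T 0x2000000000000000000 := rS 0x14a (k2 c25318 c5334 k0) (by decide +kernel)
def c25322 : PP 9 3 T 0x800 := rS 0x14a (k2 c25318 c5516 k0) (by decide +kernel)
def c25323 : PP 9 3 T 0x80000000000000 := rS 0x14a (k2 c25318 c5518 k0) (by decide +kernel)
def c25324 : PP 9 3 T 0x20000000000000000000000000000000000000000000000000000000000000 := rS 0x14a (k2 c25318 c5519 k0) (by decide +kernel)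
def c25325 : PP 9 3 T 0x800000000000000000 := rS 0x14a (k2 c25318 c5520 k0) (by decide +kernel)
def c25326 : PP 9 3 T 0x8000000000000000000000000000000000000000000000000000000000000000000000000000000 := rS 0x3394a (k2 c25318 c25293 (k1 c18477 k0)) (by decide +kernel)
def c25327 : PP 9 3 T 0x2000000000000000002000000000000000000000000000000000002000000 := rS 0xd1ef2773823 (k4 c25319 c25293 c1273 c25038 (k2 c2025 c24161 k0)) (by decide +kernel)
def c25328 : PP 9 3 T 0x1010000 := rS 0xe3f0b7dc29c50f8c7db01e90629f312b2c926b3d89c5329db08d661f5a91f39a1 (k8 c25033 c25293 c25325 c25193 c25301 c25188 c25319 c25186 (k8 c25300 c25034 c25191 c25294 c25298 c25321 c25190 c24794 (k8 c24813 c24887 c24094 c24095 c24744 c24943 c24832 c5398 (k4 c24868 c3056 c2950 c5458 (k2 c1777 c5691 k0))))) (by decide +kernel)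
def c25329 : PP 9 3 T 0x2000000000000000000000000000000000000000000000000000000010000 := rS 0x1afe371a3533007e7859ad567aa7bcabd9fcf6a4b12ec5be9d0c45339b64388c921fd0d28520d13acd6a47 (k8 c25325 c25193 c25188 c25191 c25297 c25034 c25318 c25033 (k8 c25301 c25321 c25319 c25295 c25186 c25293 c24887 c25328 (k8 c1273 c2951 c5393 c24794 c12638 c17828 c24813 c5401 (k8 c1281 c25038 c25327 c5453 c5454 c5495 c22337 c24758 (k4 c24818 c2554 c2141 c6448 (k2 c24230 c2146 (k1 c24605 k0))))))) (by decide +kernel)
def c25330 : PP 9 3 T 0x10000 := rS 0x12215648b03553fd52677eabf64f1f9c523a25d0ac67627149c4926b4387c8eb55988f6d9c (k8 c25293 c25186 c25319 c25188 c25193 c25325 c25301 c25295 (k8 c25298 c25321 c25187 c25034 c25191 c25326 c25192 c25033 (k8 c24794 c22489 c24887 c24813 c25329 c24932 c24824 c24899 (k8 c5487 c5489 c3010 c24772 c2199 c24827 c24734 c24923 (k2 c12617 c20787 k0))))) (by decide +kernel)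
def c25331 : PP 9 3 T 0x200000000000000000000000000000000000000000000000000000000000000000000000000000000000000 := rS 0x10 (k2 c25330 c5558 k0) (by decide +kernel)
def c25332 : PP 9 3 T 0x200000000000000000 := rS 0x10 (k2 c25330 c20747 k0) (by decide +kernel)
def c25333 : PP 9 3 T 0x8000000000000000 := rS 0x10 (k2 c25330 c24031 k0) (by decide +kernel)
def c25334 : PP 9 3 T 0x800000000000000000000000000000000000000000000000000000000000000000000 := rS 0x1610 (k2 c25330 c25322 (k1 c703 k0)) (by decide +kernel)
def c25335 : PP 9 3 T 0x1000000000000000000000000000000000000000000000000000000000000 := rS 0x3318b41909a408d5c69d20aabbe18daec552674bbf7653b94bde26b34fe7020371fd64462935a1e941f (k8 c25301 c25318 c25295 c25298 c25034 c25319 c25331 c25333 (k8 c25323 c25330 c25293 c25189 c25188 c25334 c25320 c25300 (k8 c25326 c24932 c24899 c25164 c5487 c5489 c24253 c18383 (k8 c25120 c24660 c24772 c543 c1273 c15188 c437 c700 (k4 c24215 c1189 c1190 c24777 (k2 c2129 c5653 k0)))))) (by decide +kernel)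
def c25336 : PP 9 3 T 0x8000000000000000000000000000000000000000000000000000000000000000000000000000000000000000000000000000000000000 := rS 0xf0 (k2 c25335 c5401 k0) (by decide +kernel)
def c25337 : PP 9 3 T 0x200000000000000000000000000000000000000000000000000000000000000000000000 := rS 0x52f0 (k2 c25335 c25034 (k1 c551 k0)) (by decide +kernel)
def c25338 : PP 9 3 T 0x8000000000000000000000000000000000000000000 := rS 0x46f0 (k2 c25335 c25319 (k1 c1281 k0)) (by decide +kernel)
def c25339 : PP 9 3 T 0x200000000000000000000000000000000000 := rS 0x211d (k2 c25337 c25330 (k1 c702 k0)) (by decide +kernel)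
def c25340 : PP 9 3 T 0x8000000000000000000000000000000000000000000000000000000000000000 := rS 0x459dd648f1d (k4 c25337 c25325 c25331 c25326 (k2 c25332 c11059 k0)) (by decide +kernel)
def c25341 : PP 9 3 T 0x80000000000000000000000000000000000000000000000000000000000000000 := rS 0x13b7a916b31d (k4 c25337 c25331 c25332 c25324 (k2 c25326 c16948 k0)) (by decide +kernel)
def c25342 : PP 9 3 T 0x10000000000000000000000000000000000000000000000000000000000000000 := rS 0x21d1f137fc0d228d (k8 c25339 c25296 c25341 c25340 c25334 c25299 c25295 c20762 k0) (by decide +kernel)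
def c25343 : PP 9 3 T 0x2000000 := rS 0x1b178042b3b3 (k4 c25336 c25331 c25330 c25335 (k2 c5393 c25239 k0)) (by decide +kernel)
def c25344 : PP 9 3 T 0x1000000000000000000000000000000000000000000000000000000000000000000000000000000000000000000000000000000000000 := rS 0x25219 (k2 c25343 c25300 (k1 c24744 k0)) (by decide +kernel)
def c25345 : PP 9 3 T 0x40000000000000000000000000000000000000 := rS 0xce52a5219 (k4 c25343 c25300 c25318 c25293 (k1 c25120 k0)) (by decide +kernel)
def c25346 : PP 9 3 T 0x1000000000000000000000000000000000000000 := rS 0x1ecd7b0 (k4 c25344 c25298 c25294 c24868 k0) (by decide +kernel)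
def c25347 : PP 9 3 T 0x800000000000000000000000000000000000000000000000000000000000000000000000000000000000000000000000000000000000000000000000 := rS 0x96 (k2 c25345 c5452 k0) (by decide +kernel)
def c25348 : PP 9 3 T 0x2000000000000 := rS 0x96 (k2 c25345 c24254 k0) (by decide +kernel)
def c25349 : PP 9 3 T 0x10000000000000000000000000000000000000000000000000000000000000000000000000000000000000000000000000000000000000 := rS 0x341f8234e0c739df55ece00ad (k8 c25194 c25342 c25336 c25338 c25347 c25293 c25348 c25346 (k4 c25319 c13274 c1240 c25009 k0)) (by decide +kernel)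
theorem fin : ∀ d, Hyp 9 3 d → False := fS (T := T) (rS 0x67361b4 (k4 c25349 c25344 c25293 c24870 k0) (by decide +kernel))

end Pool.Agent.H551.GP.E93
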