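import Pool.Agent.H551.GP.Count
import Pool.Agent.H551.GP.Defs

/-!
From graphs with general position number at most three to metric facts.
-/

namespace Pool.Agent.H551.GP

open SimpleGraph

variable {V : Type*}

theorem dist_getVert_le {G : SimpleGraph V} {u v : V} (p : G.Walk u v) (i t : ℕ) :
    G.dist (p.getVert i) (p.getVert (i + t)) ≤ t ∧ G.Reachable (p.getVert i) (p.getVert (i + t)) := by
  induction t with
  | zero => simp
  | succ t ih =>
    obtain ⟨ih1, ih2⟩ := ih
    by_cases h : i + t < p.length
    · have hadj := p.adj_getVert_succ h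
      obtain ⟨q, hq⟩ := ih2.exists_walk_length_eq_dist
      have : G.dist (p.getVert i) (p.getVert (i + (t + 1))) ≤ (q.concat hadj).length := dist_le _
      rw [Walk.length_concat, hq] at this
      exact ⟨by omega, (q.concat hadj).reachable⟩
    · have e1 : p.getVert (i + t) = v := p.getVert_of_length_le (by omega)
      have e2 : p.getVert (i + (t + 1)) = v := p.getVert_of_length_le (by omega)
      rw [e1] at ih1 ih2
      rw [e2]
      exact ⟨by omega, ih2⟩

/-- Distances along a geodesic walk. -/
theorem dist_getVert {G : SimpleGraph V} (hG : G.Connected) {u v : V} (p : G.Walk u v)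
    (hp : p.length = G.dist u v) {i j : ℕ} (hij : i ≤ j) (hj : j ≤ p.length) :
    G.dist (p.getVert i) (p.getVert j) = j - i := by
  have h1 := (dist_getVert_le p 0 i).1
  have h2 := (dist_getVert_le p i (j - i)).1
  have h3 := (dist_getVert_le p j (p.length - j)).1
  have e1 : i + (j - i) = j := by omega
  have e2 : j + (p.length - j) = p.length := by omega
  rw [e1] at h2
  rw [e2, p.getVert_length] at h3
  rw [Nat.zero_add, p.getVert_zero] at h1
  have t1 : G.dist u v ≤ G.dist u (p.getVert j) + G.dist (p.getVert j) v := hG.dist_triangle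
  have t2 : G.dist u (p.getVert j) ≤ G.dist u (p.getVert i) + G.dist (p.getVert i) (p.getVert j) :=
    hG.dist_triangle
  omega

theorem collinear_of_mem {G : SimpleGraph V} (hG : G.Connected) {u v : V} (p : G.Walk u v)
    (hp : p.length = G.dist u v) {x y z : V} (hx : x ∈ p.support) (hy : y ∈ p.support)
    (hz : z ∈ p.support) :
    G.dist x y + G.dist y z ≤ G.dist x z ∨ G.dist y x + G.dist x z ≤ G.dist y z ∨
      G.dist x z + G.dist z y ≤ G.dist x y := by
  obtain ⟨i, rfl, hi⟩ := Walk.mem_support_iff_exists_getVert.1 hx
  obtain ⟨j, rfl, hj⟩ := Walk.mem_support_iff_exists_getVert.1 hy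
  obtain ⟨k, rfl, hk⟩ := Walk.mem_support_iff_exists_getVert.1 hz
  have D : ∀ a b, a ≤ b → b ≤ p.length →
      G.dist (p.getVert a) (p.getVert b) = b - a ∧ G.dist (p.getVert b) (p.getVert a) = b - a := by
    intro a b hab hb
    have := dist_getVert hG p hp hab hb
    exact ⟨this, by rw [G.dist_comm]; exact this⟩
  rcases le_total i j with hij | hij <;> rcases le_total j k with hjk | hjk <;>
    rcases le_total i k with hik | hik
  · left
    have := D i j hij hj; have := D j k hjk hk; have := D i k hik hk; omega
  · left
    have := D i j hij hj; have := D j k hjk hk; have := D k i hik hi; omega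
  · right; right
    have := D i j hij hj; have := D k j hjk hj; have := D i k hik hk; omega
  · right; left
    have := D i j hij hj; have := D k j hjk hj; have := D k i hik hi; omega
  · right; left
    have := D j i hij hi; have := D j k hjk hk; have := D i k hik hk; omega
  · right; right
    have := D j i hij hi; have := D j k hjk hk; have := D k i hik hi; omega
  · left
    have := D j i hij hi; have := D k j hjk hj; have := D i k hik hk; omega
  · left
    have := D j i hij hi; have := D k j hjk hj; have := D k i hik hi; omega

theorem card_le_gp {G : SimpleGraph V} [Fintype V] {S : Finset V} (h : IsGenPos G S) :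
    S.card ≤ gp G := by
  classical
  unfold gp
  exact Finset.le_sup (f := Finset.card) (Finset.mem_filter.2 ⟨Finset.mem_univ _, h⟩)

theorem four_of_gp {G : SimpleGraph V} [Fintype V] (hG : G.Connected) (hgp : gp G ≤ 3)
    (a b c e : V) :
    G.dist a b + G.dist b c ≤ G.dist a c ∨ G.dist b a + G.dist a c ≤ G.dist b c ∨
    G.dist a c + G.dist c b ≤ G.dist a b ∨
    G.dist a b + G.dist b e ≤ G.dist a e ∨ G.dist b a + G.dist a e ≤ G.dist b e ∨
    G.dist a e + G.dist e b ≤ G.dist a b ∨
    G.dist a c + G.dist c e ≤ G.dist a e ∨ G.dist c a + G.dist a e ≤ G.dist c e ∨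
    G.dist a e + G.dist e c ≤ G.dist a c ∨
    G.dist b c + G.dist c e ≤ G.dist b e ∨ G.dist c b + G.dist b e ≤ G.dist c e ∨
    G.dist b e + G.dist e c ≤ G.dist b c := by
  classical
  by_cases hab : a = b
  · subst hab; left; simp
  by_cases hac : a = c
  · subst hac; right; left; simp
  by_cases hae : a = e
  · subst hae; right; right; right; right; left; simp
  by_cases hbc : b = c
  · subst hbc; left; simp
  by_cases hbe : b = e
  · subst hbe; right; right; right; left; simp
  by_cases hce : c = e
  · subst hce; right; right; right; right; right; right; left; simp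
  have hcard : ({a, b, c, e} : Finset V).card = 4 := by
    rw [Finset.card_insert_of_notMem, Finset.card_insert_of_notMem, Finset.card_insert_of_notMem,
      Finset.card_singleton]
    · simpa using hce
    · simp [hbc, hbe]
    · simp [hab, hac, hae]
  have hnot : ¬ IsGenPos G ({a, b, c, e} : Finset V) := by
    intro hh
    have := card_le_gp hh
    omega
  unfold IsGenPos at hnot
  push_neg at hnot
  obtain ⟨u, v, p, hp, x, hx, y, hy, z, hz, hxs, hys, hzs, hxy, hxz, hyz⟩ := hnot
  have hcol := collinear_of_mem hG p hp hxs hys hzs
  simp only [Finset.mem_insert, Finset.mem_singleton] at hx hy hz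
  have s1 := G.dist_comm (u := a) (v := b)
  have s2 := G.dist_comm (u := a) (v := c)
  have s3 := G.dist_comm (u := a) (v := e)
  have s4 := G.dist_comm (u := b) (v := c)
  have s5 := G.dist_comm (u := b) (v := e)
  have s6 := G.dist_comm (u := c) (v := e)
  rcases hx with rfl | rfl | rfl | rfl <;> rcases hy with rfl | rfl | rfl | rfl <;>
    first
      | exact absurd rfl hxy
      | (rcases hz with rfl | rfl | rfl | rfl <;>
          first
            | exact absurd rfl hxz
            | exact absurd rfl hyz
            | (clear hp hxs hys hzs p; rcases hcol with g | g | g <;> omega))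

theorem vis_of {G : SimpleGraph V} (hG : G.Connected) {S : Finset V} (hS : IsMutVis G S) :
    ∀ u ∈ S, ∀ v ∈ S, ∀ t, 0 < t → t < G.dist u v →
      ∃ x, x ∉ S ∧ G.dist u x = t ∧ G.dist x v + t = G.dist u v := by
  intro u hu v hv t ht htd
  have huv : u ≠ v := by
    rintro rfl
    simp at htd
  obtain ⟨p, hp, hps⟩ := hS u hu v hv huv
  have h1 := dist_getVert hG p hp (Nat.zero_le t) (by omega)
  have h2 := dist_getVert hG p hp (show t ≤ p.length by omega) le_rfl
  rw [p.getVert_zero] at h1
  rw [p.getVert_length] at h2
  refine ⟨p.getVert t, ?_, by omega, by omega⟩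
  intro hmem
  rcases hps _ (p.getVert_mem_support t) hmem with h | h
  · rw [h] at h1; simp at h1; omega
  · rw [h] at h2; simp at h2; omega

theorem ms_of {G : SimpleGraph V} [Fintype V] (hG : G.Connected) (hgp : gp G ≤ 3) {S : Finset V}
    (hS : IsMutVis G S) : MS G.dist S where
  symm := fun _ _ => G.dist_comm
  tri := fun _ _ _ => hG.dist_triangle
  self := fun _ => G.dist_self
  pos := fun _ _ hxy => hG.pos_dist_of_ne hxy
  four := four_of_gp hG hgp
  vis := vis_of hG hS

theorem mu_le {G : SimpleGraph V} [Fintype V] {k : ℕ} (h : ∀ S, IsMutVis G S → S.card ≤ k) :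
    mu G ≤ k := by
  classical
  unfold mu
  refine Finset.sup_le ?_
  intro S hS
  exact h S (Finset.mem_filter.1 hS).2

end Pool.Agent.H551.GP
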