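import Pool.Agent.H551.GP.Graph
import Pool.Agent.H551.GP.E65
import Pool.Agent.H551.GP.E91
import Pool.Agent.H551.GP.E92
import Pool.Agent.H551.GP.E84nz
import Pool.Agent.H551.GP.E93nz

/-!
The bound for mutual-visibility sets.
-/

namespace Pool.Agent.H551.GP

theorem certs : Certs where
  c65 := fun D h1 h2 => E65.fin D ⟨h1, h2⟩
  c84 := fun D h1 h2 => E84n.fin D ⟨h1, h2⟩
  c91 := fun D h1 h2 => E91.fin D ⟨h1, h2⟩
  c92 := fun D h1 h2 => E92.fin D ⟨h1, h2⟩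
  c93 := fun D h1 h2 => E93n.fin D ⟨h1, h2⟩

end Pool.Agent.H551.GP
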