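import Pool.Agent.H551.GP.Cfg

/-!
Clause-by-clause version of the checker.
-/

namespace Pool.Agent.H551.GP

/-- Facts about a configuration. -/
structure Hyp (m s : Nat) (d : Nat → Nat → Nat) : Prop where
  dist : Dist d m m
  cfg : Cfg d m s

/-- All the listed masks are satisfied. -/
def AllS (T : Nat) (d : Nat → Nat → Nat) (L : List Nat) : Prop := ∀ m ∈ L, Sat T d m

theorem ni {T : Nat} {d : Nat → Nat → Nat} : AllS T d [] := by simp [AllS]

theorem co {T : Nat} {d : Nat → Nat → Nat} {m : Nat} {L : List Nat} (h : Sat T d m)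
    (hL : AllS T d L) : AllS T d (m :: L) := by
  intro x hx
  rcases List.mem_cons.1 hx with rfl | hx
  · exact h
  · exact hL x hx

/-- Unit propagation over a list of clauses; `bs` holds the propagated literals in base `512`. -/
def rupL (L : List Nat) : Nat → Nat → Bool :=
  List.rec (motive := fun _ => Nat → Nat → Bool) (fun _ _ => false)
    (fun x _ ih F bs =>
      Bool.rec
        (Bool.rec false
          (ih (Nat.lor F (Nat.shiftLeft 1 (Nat.xor (Nat.mod bs 512) 1))) (Nat.div bs 512))
          (Nat.beq (Nat.xor x (Nat.land x F)) (Nat.shiftLeft 1 (Nat.mod bs 512))))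
        true (Nat.beq (Nat.land x F) x)) L

theorem rupL_nil (F bs : Nat) : rupL [] F bs = false := rfl

theorem rupL_cons (x : Nat) (L : List Nat) (F bs : Nat) :
    rupL (x :: L) F bs = Bool.rec
        (Bool.rec false
          (rupL L (Nat.lor F (Nat.shiftLeft 1 (Nat.xor (Nat.mod bs 512) 1))) (Nat.div bs 512))
          (Nat.beq (Nat.xor x (Nat.land x F)) (Nat.shiftLeft 1 (Nat.mod bs 512))))
        true (Nat.beq (Nat.land x F) x) := rfl

theorem rupL_sound {T : Nat} {d : Nat → Nat → Nat} :
    ∀ (L : List Nat) (_ : AllS T d L) (F bs : Nat), (∀ b, F.testBit b = true → ¬ bitTrue T d b) →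
      rupL L F bs = true → False
  | [], _, F, bs, _, h => by simp [rupL_nil] at h
  | c :: L, hall, F, bs, hF, h => by
    rw [rupL_cons] at h
    obtain ⟨b, hb1, hb2⟩ := hall c List.mem_cons_self
    have hall' : AllS T d L := fun x hx => hall x (List.mem_cons_of_mem _ hx)
    have hbF : F.testBit b = false := by
      by_contra hcon
      exact hF b (by simpa using hcon) hb2
    cases h0 : Nat.beq (Nat.land c F) c with
    | true =>
      have h1 : (c &&& F) = c := by
        have : Nat.land c F = c := by simpa using h0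
        exact this
      have h2 : (c &&& F).testBit b = true := by rw [h1]; exact hb1
      rw [Nat.testBit_and, hb1, hbF] at h2
      simp at h2
    | false =>
      rw [h0] at h
      replace h : Bool.rec false
          (rupL L (Nat.lor F (Nat.shiftLeft 1 (Nat.xor (Nat.mod bs 512) 1))) (Nat.div bs 512))
          (Nat.beq (Nat.xor c (Nat.land c F)) (Nat.shiftLeft 1 (Nat.mod bs 512))) = true := h
      have hrb : (Nat.xor c (Nat.land c F)).testBit b = true := by
        change (c ^^^ (c &&& F)).testBit b = true
        rw [Nat.testBit_xor, Nat.testBit_and, hb1, hbF]; rfl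
      cases h2 : Nat.beq (Nat.xor c (Nat.land c F)) (Nat.shiftLeft 1 (Nat.mod bs 512)) with
      | false => rw [h2] at h; simp at h
      | true =>
        rw [h2] at h
        replace h : rupL L (Nat.lor F (Nat.shiftLeft 1 (Nat.xor (Nat.mod bs 512) 1)))
          (Nat.div bs 512) = true := h
        have he : Nat.xor c (Nat.land c F) = 1 <<< Nat.mod bs 512 := by
          simpa using h2
        generalize Nat.mod bs 512 = b' at *
        rw [he, Nat.one_shiftLeft, Nat.testBit_two_pow] at hrb
        have hbb : b' = b := by simpa using hrb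
        subst hbb
        refine rupL_sound L hall' _ _ ?_ h
        intro b'' hb''
        change (F ||| 1 <<< (b' ^^^ 1)).testBit b'' = true at hb''
        rw [Nat.testBit_or, Bool.or_eq_true] at hb''
        rcases hb'' with hb'' | hb''
        · exact hF b'' hb''
        · rw [Nat.one_shiftLeft, Nat.testBit_two_pow] at hb''
          have : b' ^^^ 1 = b'' := by simpa using hb''
          rw [← this, bitTrue_xor]
          exact fun hn => hn hb2

/-- The clause with mask `m` holds for all configurations. -/
def PP (k s T m : Nat) : Prop := ∀ d, Hyp k s d → Sat T d m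

/-- All listed clauses hold for all configurations. -/
def AA (k s T : Nat) (L : List Nat) : Prop := ∀ d, Hyp k s d → AllS T d L

section
variable {k s T m1 m2 m3 m4 m5 m6 m7 m8 : Nat} {L : List Nat}

theorem k0 : AA k s T [] := fun _ _ => ni

theorem k1 (h1 : PP k s T m1) (hL : AA k s T L) : AA k s T (m1 :: L) :=
  fun d H => co (h1 d H) (hL d H)

theorem k2 (h1 : PP k s T m1) (h2 : PP k s T m2) (hL : AA k s T L) :
    AA k s T (m1 :: m2 :: L) := k1 h1 (k1 h2 hL)

theorem k4 (h1 : PP k s T m1) (h2 : PP k s T m2) (h3 : PP k s T m3) (h4 : PP k s T m4)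
    (hL : AA k s T L) : AA k s T (m1 :: m2 :: m3 :: m4 :: L) := k2 h1 h2 (k2 h3 h4 hL)

theorem k8 (h1 : PP k s T m1) (h2 : PP k s T m2) (h3 : PP k s T m3) (h4 : PP k s T m4)
    (h5 : PP k s T m5) (h6 : PP k s T m6) (h7 : PP k s T m7) (h8 : PP k s T m8)
    (hL : AA k s T L) : AA k s T (m1 :: m2 :: m3 :: m4 :: m5 :: m6 :: m7 :: m8 :: L) :=
  k4 h1 h2 h3 h4 (k4 h5 h6 h7 h8 hL)

/-- A learned clause. -/
theorem rS (bs : Nat) (hL : AA k s T L) (h : rupL L m1 bs = true) : PP k s T m1 := by
  intro d H
  by_contra hcon
  exact rupL_sound L (hL d H) m1 bs (fun b hb hb' => hcon ⟨b, hb, hb'⟩) h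

/-- An input clause. -/
theorem iS (c src : Nat)
    (h : (Nat.beq (maskOf (codes c)) m1 && srcOK k k [] (orc k s) ((codes c).map (litOf T)) src)
      = true) : PP k s T m1 := by
  intro d H
  rw [Bool.and_eq_true] at h
  have h1 : maskOf (codes c) = m1 := by simpa using h.1
  rw [← h1]
  exact maskOf_sat _ (srcOK_sound H.dist [] (by simp) (orc k s) (orc_sound H.dist.symm H.cfg) _ src h.2)

theorem fS (h : PP k s T 0) : ∀ d, Hyp k s d → False := by
  intro d H
  obtain ⟨b, hb, _⟩ := h d H
  simp at hb

end

end Pool.Agent.H551.GP
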